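import Pool.Agent.Strip051.G.I6050_6500.Gn

/-! # Certificates of the corner (1, 1, 2) (generated) -/

set_option linter.all false

namespace Pool.Agent.Strip051.G.I6050_6500.Tab.EG

open Pool.Agent.Strip051.PB

def X213_382m :
    ∃ t, chk3 (onCell 0 299580789 0 1073741824 649613803 48318383 (xB12 3 .pnn false false gB3q2 gB8q3 gB2q1 67108864 16777216)) t 1 1 1 = true :=
  ⟨(T.a (T.b (T.l 0) (T.l 0)) (T.b (T.b (T.b (T.a (T.l 0) (T.b (T.a (T.l 0) (T.l 3)) (T.l 0))) (T.l 0)) (T.l 0)) (T.b (T.a (T.b (T.l 3) (T.l 3)) (T.l 3)) (T.l 3)))), by decide +kernel⟩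

def B213_480m :
    ∃ t, chk3 (onCell 0 299580789 0 1073741824 649613803 48318383 (fB12 3 true 0 c0B .pnn false false true false gB4q2 gB8q3 gB0q1 gB1q1 67108864 16777216)) t 1 1 1 = true :=
  ⟨(T.b (T.b (T.a (T.a (T.a (T.l 0) (T.b (T.l 0) (T.l 0))) (T.b (T.a (T.l 0) (T.l 0)) (T.a (T.l 0) (T.b (T.l 0) (T.l 0))))) (T.b (T.a (T.a (T.l 2) (T.l 2)) (T.l 2)) (T.a (T.b (T.a (T.l 0) (T.l 2)) (T.a (T.l 0) (T.l 0))) (T.b (T.l 2) (T.l 0))))) (T.b (T.a (T.a (T.l 0) (T.a (T.b (T.l 0) (T.l 0)) (T.b (T.l 0) (T.l 0)))) (T.b (T.a (T.a (T.l 0) (T.l 0)) (T.l 0)) (T.a (T.a (T.l 0) (T.l 0)) (T.l 3)))) (T.b (T.b (T.a (T.l 1) (T.l 1)) (T.l 1)) (T.l 1)))) (T.a (T.l 1) (T.b (T.b (T.a (T.l 3) (T.l 3)) (T.l 3)) (T.l 3)))), by decide +kernel⟩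

def B213_481m :
    ∃ t, chk3 (onCell 0 299580789 0 1073741824 649613803 48318383 (fB12 3 true 0 c0B .pnn false false false false gB4q2 gB8q3 gB1q1 gB2q1 67108864 16777216)) t 1 1 1 = true :=
  ⟨(T.a (T.b (T.b (T.a (T.l 1) (T.b (T.a (T.l 0) (T.l 0)) (T.a (T.l 1) (T.l 0)))) (T.l 1)) (T.b (T.l 1) (T.l 1))) (T.b (T.b (T.b (T.a (T.l 0) (T.b (T.l 0) (T.l 0))) (T.a (T.a (T.l 0) (T.l 0)) (T.a (T.l 0) (T.l 0)))) (T.b (T.a (T.l 1) (T.b (T.l 0) (T.l 3))) (T.l 1))) (T.b (T.a (T.b (T.l 3) (T.l 3)) (T.l 3)) (T.l 3)))), by decide +kernel⟩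

def X213_482m :
    ∃ t, chk3 (onCell 0 299580789 0 1073741824 649613803 48318383 (xB12 3 .pnn false false gB4q2 gB8q3 gB2q1 67108864 16777216)) t 1 1 1 = true :=
  ⟨(T.a (T.b (T.l 0) (T.l 0)) (T.b (T.b (T.b (T.a (T.l 0) (T.a (T.l 0) (T.b (T.l 3) (T.l 0)))) (T.l 0)) (T.l 0)) (T.b (T.a (T.l 0) (T.l 3)) (T.l 3)))), by decide +kernel⟩

end Pool.Agent.Strip051.G.I6050_6500.Tab.EG
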