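import Pool.Agent.Strip051.G.I6050_6500.Gn
import Pool.Agent.Strip051.PB.Corns
import Pool.Agent.Strip051.PB.CornW

/-! # Certificates of the aligned corners (generated) -/

set_option linter.all false

namespace Pool.Agent.Strip051.G.I6050_6500.Tab.CG

open Pool.Agent.Strip051.PB

def A011E_000 :
    ∃ t, chk3 (onCell 0 67108864 0 1073741824 649613803 48318383 (corT true 1 c0B cA011E gB0q0 gB0q1 gB0q1 gB1q1 true false)) t 1 1 1 = true :=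
  ⟨(T.l 1), by decide +kernel⟩

def A011L_004 :
    ∃ t, chk3 (onCell 0 67108864 0 1073741824 649613803 48318383 (corT true 1 c0B cA011L gB0q0 gB0q1 gB4q1 gB5q1 false true)) t 1 1 1 = true :=
  ⟨(T.l 2), by decide +kernel⟩

def A011L_005 :
    ∃ t, chk3 (onCell 0 67108864 0 1073741824 649613803 48318383 (corT true 1 c0B cA011L gB0q0 gB0q1 gB5q1 gB6q1 true true)) t 1 1 1 = true :=
  ⟨(T.l 2), by decide +kernel⟩

def A011L_006 :
    ∃ t, chk3 (onCell 0 67108864 0 1073741824 649613803 48318383 (corT true 1 c0B cA011L gB0q0 gB0q1 gB6q1 gB7q1 true true)) t 1 1 1 = true :=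
  ⟨(T.l 2), by decide +kernel⟩

def A011L_007 :
    ∃ t, chk3 (onCell 0 67108864 0 1073741824 649613803 48318383 (corT true 1 c0B cA011L gB0q0 gB0q1 gB7q1 gB8q1 true true)) t 1 1 1 = true :=
  ⟨(T.l 2), by decide +kernel⟩

def A011R_050 :
    ∃ t, chk3 (onCell 0 67108864 0 1073741824 649613803 48318383 (corT true 1 c0B cA011R gB0q0 gB5q1 gB0q1 gB1q1 true false)) t 1 1 1 = true :=
  ⟨(T.b (T.b (T.b (T.a (T.b (T.l 204) (T.l 460)) (T.a (T.a (T.l 460) (T.b (T.l 204) (T.b (T.l 204) (T.l 1)))) (T.b (T.l 204) (T.b (T.l 204) (T.l 1))))) (T.l 1)) (T.l 1)) (T.l 1)), by decide +kernel⟩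

def A011R_060 :
    ∃ t, chk3 (onCell 0 67108864 0 1073741824 649613803 48318383 (corT true 1 c0B cA011R gB0q0 gB6q1 gB0q1 gB1q1 true false)) t 1 1 1 = true :=
  ⟨(T.b (T.b (T.a (T.b (T.l 204) (T.b (T.l 204) (T.l 1))) (T.b (T.a (T.b (T.l 204) (T.l 204)) (T.b (T.l 204) (T.l 204))) (T.b (T.a (T.b (T.l 204) (T.l 204)) (T.b (T.l 204) (T.a (T.l 204) (T.l 460)))) (T.l 1)))) (T.l 1)) (T.l 1)), by decide +kernel⟩

def A011R_070 :
    ∃ t, chk3 (onCell 0 67108864 0 1073741824 649613803 48318383 (corT true 1 c0B cA011R gB0q0 gB7q1 gB0q1 gB1q1 true false)) t 1 1 1 = true :=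
  ⟨(T.b (T.b (T.a (T.b (T.l 204) (T.b (T.l 204) (T.b (T.l 204) (T.a (T.c (T.l 204) (T.l 204)) (T.l 204))))) (T.b (T.a (T.l 204) (T.l 204)) (T.a (T.b (T.l 204) (T.l 204)) (T.b (T.l 204) (T.a (T.l 204) (T.l 204)))))) (T.b (T.b (T.b (T.b (T.b (T.b (T.a (T.a (T.b (T.l 204) (T.l 1)) (T.l 204)) (T.a (T.l 204) (T.l 204))) (T.l 1)) (T.l 1)) (T.l 1)) (T.l 1)) (T.l 1)) (T.l 1))) (T.l 1)), by decide +kernel⟩

def A011R_080 :
    ∃ t, chk3 (onCell 0 53687091 0 1073741824 649613803 48318383 (corX 1 c0B cA011R tA011R gB0q0 gB8q1 gB0q1 gB1q1 gB0q1 true false)) t 1 1 1 = true :=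
  ⟨(T.b (T.b (T.a (T.l 3) (T.a (T.l 3) (T.b (T.l 0) (T.b (T.l 0) (T.l 0))))) (T.a (T.l 3) (T.l 3))) (T.l 1)), by decide +kernel⟩

def A011R_150 :
    ∃ t, chk3 (onCell 0 67108864 0 1073741824 649613803 48318383 (corT true 1 c0B cA011R gB1q0 gB5q1 gB0q1 gB1q1 true false)) t 1 1 1 = true :=
  ⟨(T.b (T.b (T.b (T.l 204) (T.l 1)) (T.l 1)) (T.l 1)), by decide +kernel⟩

def A011R_160 :
    ∃ t, chk3 (onCell 0 67108864 0 1073741824 649613803 48318383 (corT true 1 c0B cA011R gB1q0 gB6q1 gB0q1 gB1q1 true false)) t 1 1 1 = true :=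
  ⟨(T.b (T.b (T.b (T.l 204) (T.l 1)) (T.l 1)) (T.l 1)), by decide +kernel⟩

def A011R_170 :
    ∃ t, chk3 (onCell 0 67108864 0 1073741824 649613803 48318383 (corT true 1 c0B cA011R gB1q0 gB7q1 gB0q1 gB1q1 true false)) t 1 1 1 = true :=
  ⟨(T.b (T.b (T.b (T.l 0) (T.l 0)) (T.l 1)) (T.l 1)), by decide +kernel⟩

def A011R_180 :
    ∃ t, chk3 (onCell 0 67108864 0 1073741824 649613803 48318383 (corT true 1 c0B cA011R gB1q0 gB8q1 gB0q1 gB1q1 true false)) t 1 1 1 = true :=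
  ⟨(T.b (T.b (T.a (T.b (T.l 0) (T.l 0)) (T.a (T.l 0) (T.l 64))) (T.b (T.b (T.a (T.l 0) (T.a (T.l 0) (T.l 0))) (T.l 1)) (T.l 1))) (T.l 1)), by decide +kernel⟩

def A011R_250 :
    ∃ t, chk3 (onCell 0 67108864 0 1073741824 649613803 48318383 (corT true 1 c0B cA011R gB2q0 gB5q1 gB0q1 gB1q1 true false)) t 1 1 1 = true :=
  ⟨(T.l 1), by decide +kernel⟩

def A011R_260 :
    ∃ t, chk3 (onCell 0 67108864 0 1073741824 649613803 48318383 (corT true 1 c0B cA011R gB2q0 gB6q1 gB0q1 gB1q1 true false)) t 1 1 1 = true :=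
  ⟨(T.b (T.l 1) (T.l 1)), by decide +kernel⟩

def A011R_270 :
    ∃ t, chk3 (onCell 0 67108864 0 1073741824 649613803 48318383 (corT true 1 c0B cA011R gB2q0 gB7q1 gB0q1 gB1q1 true false)) t 1 1 1 = true :=
  ⟨(T.b (T.b (T.b (T.l 0) (T.l 1)) (T.l 1)) (T.l 1)), by decide +kernel⟩

def A011R_280 :
    ∃ t, chk3 (onCell 0 67108864 0 1073741824 649613803 48318383 (corT true 1 c0B cA011R gB2q0 gB8q1 gB0q1 gB1q1 true false)) t 1 1 1 = true :=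
  ⟨(T.b (T.b (T.a (T.l 0) (T.l 0)) (T.l 1)) (T.l 1)), by decide +kernel⟩

def A011R_350 :
    ∃ t, chk3 (onCell 0 67108864 0 1073741824 649613803 48318383 (corT true 1 c0B cA011R gB3q0 gB5q1 gB0q1 gB1q1 true false)) t 1 1 1 = true :=
  ⟨(T.l 1), by decide +kernel⟩

def A011R_360 :
    ∃ t, chk3 (onCell 0 67108864 0 1073741824 649613803 48318383 (corT true 1 c0B cA011R gB3q0 gB6q1 gB0q1 gB1q1 true false)) t 1 1 1 = true :=
  ⟨(T.l 1), by decide +kernel⟩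

def A011R_370 :
    ∃ t, chk3 (onCell 0 67108864 0 1073741824 649613803 48318383 (corT true 1 c0B cA011R gB3q0 gB7q1 gB0q1 gB1q1 true false)) t 1 1 1 = true :=
  ⟨(T.l 1), by decide +kernel⟩

def A011R_380 :
    ∃ t, chk3 (onCell 0 67108864 0 1073741824 649613803 48318383 (corT true 1 c0B cA011R gB3q0 gB8q1 gB0q1 gB1q1 true false)) t 1 1 1 = true :=
  ⟨(T.l 1), by decide +kernel⟩

def A011R_450 :
    ∃ t, chk3 (onCell 0 67108864 0 1073741824 649613803 48318383 (corT true 1 c0B cA011R gB4q0 gB5q1 gB0q1 gB1q1 true false)) t 1 1 1 = true :=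
  ⟨(T.l 1), by decide +kernel⟩

def A011R_460 :
    ∃ t, chk3 (onCell 0 67108864 0 1073741824 649613803 48318383 (corT true 1 c0B cA011R gB4q0 gB6q1 gB0q1 gB1q1 true false)) t 1 1 1 = true :=
  ⟨(T.l 1), by decide +kernel⟩

def A011R_470 :
    ∃ t, chk3 (onCell 0 67108864 0 1073741824 649613803 48318383 (corT true 1 c0B cA011R gB4q0 gB7q1 gB0q1 gB1q1 true false)) t 1 1 1 = true :=
  ⟨(T.l 1), by decide +kernel⟩

def A011R_480 :
    ∃ t, chk3 (onCell 0 67108864 0 1073741824 649613803 48318383 (corT true 1 c0B cA011R gB4q0 gB8q1 gB0q1 gB1q1 true false)) t 1 1 1 = true :=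
  ⟨(T.l 1), by decide +kernel⟩

def A012E_000 :
    ∃ t, chk3 (onCell 0 33554432 0 1073741824 649613803 48318383 (corX 1 c0B cA012E tA012E gB0q0 gB0q1 gB0q2 gB1q2 gB0q2 true true)) t 1 1 1 = true :=
  ⟨(T.b (T.b (T.l 1) (T.b (T.l 1) (T.b (T.l 1) (T.b (T.l 1) (T.b (T.l 1) (T.a (T.b (T.l 1) (T.a (T.b (T.l 1) (T.a (T.c (T.l 3) (T.l 3)) (T.c (T.l 207) (T.l 207)))) (T.a (T.c (T.l 207) (T.l 207)) (T.c (T.l 207) (T.l 207))))) (T.a (T.a (T.c (T.l 463) (T.l 207)) (T.c (T.l 207) (T.l 207))) (T.a (T.c (T.l 207) (T.l 207)) (T.l 207))))))))) (T.b (T.b (T.b (T.b (T.a (T.a (T.a (T.a (T.c (T.l 3) (T.l 3)) (T.c (T.l 207) (T.l 207))) (T.a (T.c (T.l 207) (T.l 207)) (T.c (T.l 207) (T.l 207)))) (T.b (T.c (T.a (T.c (T.l 207) (T.l 207)) (T.c (T.l 207) (T.l 207))) (T.a (T.c (T.l 207) (T.l 207)) (T.l 207))) (T.b (T.b (T.a (T.c (T.l 207) (T.l 207)) (T.c (T.l 207) (T.l 207))) (T.l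 2)) (T.l 2)))) (T.b (T.a (T.a (T.c (T.l 207) (T.l 207)) (T.c (T.l 207) (T.l 207))) (T.a (T.l 207) (T.l 207))) (T.l 2))) (T.l 2)) (T.l 2)) (T.l 2)) (T.l 2))), by decide +kernel⟩

def A012E_001_1_2_1 :
    ∃ t, chk3 (onCell 0 33554432 0 1073741824 649613803 48318383 (corT true 1 c0B cA012E gB0q0 gB0q1 gB1q2 gB2q2 true true)) t 1 2 1 = true :=
  ⟨(T.b (T.l 1) (T.l 1)), by decide +kernel⟩

def A012E_001_2_24_1 :
    ∃ t, chk3 (onCell 0 33554432 0 1073741824 649613803 48318383 (corT true 1 c0B cA012E gB0q0 gB0q1 gB1q2 gB2q2 true true)) t 2 24 1 = true :=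
  ⟨(T.b (T.b (T.a (T.l 1) (T.a (T.l 1) (T.b (T.l 1) (T.b (T.l 1) (T.a (T.l 1) (T.b (T.l 1) (T.b (T.l 1) (T.c (T.l 204) (T.l 204))))))))) (T.a (T.c (T.b (T.b (T.b (T.l 1) (T.a (T.a (T.l 1) (T.b (T.l 1) (T.a (T.l 1) (T.l 204)))) (T.c (T.a (T.b (T.l 1) (T.l 204)) (T.l 204)) (T.a (T.b (T.l 1) (T.l 204)) (T.l 204))))) (T.a (T.b (T.a (T.c (T.l 0) (T.l 0)) (T.l 204)) (T.l 0)) (T.c (T.l 204) (T.l 204)))) (T.a (T.c (T.l 0) (T.l 0)) (T.l 0))) (T.b (T.b (T.b (T.l 1) (T.a (T.a (T.l 1) (T.b (T.l 1) (T.a (T.l 1) (T.l 204)))) (T.c (T.a (T.b (T.l 1) (T.l 204)) (T.l 204)) (T.a (T.b (T.l 1) (T.l 204)) (T.l 204))))) (T.a (T.b (T.a (T.a (T.c (T.l 0) (T.l 0)) (T.l 0)) (T.l 204)) (T.l 0)) (T.c (T.l 204) (T.l 204)))) (T.c (T.l 0) (T.l 0)))) (T.b (T.c (T.a (T.b (T.c (T.b (T.a (T.b (T.l 1) (T.l 204)) (T.l 204)) (T.l 204)) (T.b (T.a (T.b (T.l 1) (T.l 204)) (T.l 204)) (T.l 204))) (T.l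 204)) (T.b (T.c (T.l 204) (T.l 204)) (T.l 204))) (T.a (T.b (T.c (T.b (T.a (T.b (T.l 1) (T.l 204)) (T.l 204)) (T.l 204)) (T.a (T.b (T.b (T.l 1) (T.l 204)) (T.l 204)) (T.l 460))) (T.l 204)) (T.b (T.c (T.l 204) (T.l 204)) (T.l 204)))) (T.c (T.l 0) (T.l 204))))) (T.b (T.a (T.c (T.c (T.l 0) (T.l 0)) (T.l 0)) (T.c (T.l 0) (T.l 0))) (T.c (T.l 0) (T.l 0)))), by decide +kernel⟩

def A012E_001_3_24_1 :
    ∃ t, chk3 (onCell 0 33554432 0 1073741824 649613803 48318383 (corT true 1 c0B cA012E gB0q0 gB0q1 gB1q2 gB2q2 true true)) t 3 24 1 = true :=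
  ⟨(T.b (T.b (T.b (T.l 1) (T.a (T.b (T.l 1) (T.c (T.a (T.c (T.a (T.b (T.l 1) (T.l 204)) (T.l 204)) (T.a (T.b (T.l 1) (T.l 204)) (T.l 204))) (T.c (T.l 204) (T.l 204))) (T.a (T.b (T.a (T.l 1) (T.l 204)) (T.l 204)) (T.l 204)))) (T.c (T.a (T.c (T.l 204) (T.l 204)) (T.l 204)) (T.a (T.c (T.l 204) (T.l 204)) (T.l 204))))) (T.a (T.c (T.b (T.a (T.c (T.l 204) (T.l 204)) (T.l 204)) (T.l 204)) (T.b (T.c (T.l 204) (T.l 204)) (T.l 204))) (T.c (T.c (T.l 204) (T.l 204)) (T.c (T.l 204) (T.l 204))))) (T.c (T.b (T.a (T.l 0) (T.l 204)) (T.l 0)) (T.a (T.l 0) (T.l 204)))), by decide +kernel⟩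

def A012E_001_1_25_1 :
    ∃ t, chk3 (onCell 0 33554432 0 1073741824 649613803 48318383 (corT true 1 c0B cA012E gB0q0 gB0q1 gB1q2 gB2q2 true true)) t 1 25 1 = true :=
  ⟨(T.b (T.b (T.a (T.c (T.l 0) (T.l 0)) (T.c (T.l 0) (T.l 0))) (T.l 2)) (T.l 2)), by decide +kernel⟩

def A012E_001_1_13_1 :
    ∃ t, chk3 (onCell 0 33554432 0 1073741824 649613803 48318383 (corT true 1 c0B cA012E gB0q0 gB0q1 gB1q2 gB2q2 true true)) t 1 13 1 = true :=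
  ⟨(T.l 2), by decide +kernel⟩

def A012E_001_1_7_1 :
    ∃ t, chk3 (onCell 0 33554432 0 1073741824 649613803 48318383 (corT true 1 c0B cA012E gB0q0 gB0q1 gB1q2 gB2q2 true true)) t 1 7 1 = true :=
  ⟨(T.l 2), by decide +kernel⟩

theorem A012E_001_1_24_1 :
    ∃ t, chk3 (onCell 0 33554432 0 1073741824 649613803 48318383 (corT true 1 c0B cA012E gB0q0 gB0q1 gB1q2 gB2q2 true true)) t 1 24 1 = true :=
  ex3_a A012E_001_2_24_1 A012E_001_3_24_1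
theorem A012E_001_1_12_1 :
    ∃ t, chk3 (onCell 0 33554432 0 1073741824 649613803 48318383 (corT true 1 c0B cA012E gB0q0 gB0q1 gB1q2 gB2q2 true true)) t 1 12 1 = true :=
  ex3_b A012E_001_1_24_1 A012E_001_1_25_1
theorem A012E_001_1_6_1 :
    ∃ t, chk3 (onCell 0 33554432 0 1073741824 649613803 48318383 (corT true 1 c0B cA012E gB0q0 gB0q1 gB1q2 gB2q2 true true)) t 1 6 1 = true :=
  ex3_b A012E_001_1_12_1 A012E_001_1_13_1
theorem A012E_001_1_3_1 :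
    ∃ t, chk3 (onCell 0 33554432 0 1073741824 649613803 48318383 (corT true 1 c0B cA012E gB0q0 gB0q1 gB1q2 gB2q2 true true)) t 1 3 1 = true :=
  ex3_b A012E_001_1_6_1 A012E_001_1_7_1
theorem A012E_001 :
    ∃ t, chk3 (onCell 0 33554432 0 1073741824 649613803 48318383 (corT true 1 c0B cA012E gB0q0 gB0q1 gB1q2 gB2q2 true true)) t 1 1 1 = true :=
  ex3_b A012E_001_1_2_1 A012E_001_1_3_1

def A012E_002 :
    ∃ t, chk3 (onCell 0 33554432 0 1073741824 649613803 48318383 (corT true 1 c0B cA012E gB0q0 gB0q1 gB2q2 gB3q2 true true)) t 1 1 1 = true :=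
  ⟨(T.b (T.l 1) (T.b (T.b (T.b (T.a (T.l 1) (T.b (T.l 1) (T.b (T.l 1) (T.b (T.l 1) (T.l 0))))) (T.b (T.a (T.c (T.l 0) (T.l 0)) (T.c (T.l 0) (T.l 0))) (T.a (T.l 0) (T.l 0)))) (T.b (T.a (T.l 816) (T.b (T.l 816) (T.l 816))) (T.l 2))) (T.l 2))), by decide +kernel⟩

def A012E_003 :
    ∃ t, chk3 (onCell 0 33554432 0 1073741824 649613803 48318383 (corT true 1 c0B cA012E gB0q0 gB0q1 gB3q2 gB4q2 true true)) t 1 1 1 = true :=
  ⟨(T.b (T.l 1) (T.b (T.b (T.l 1) (T.b (T.a (T.l 0) (T.l 0)) (T.b (T.l 816) (T.l 880)))) (T.b (T.c (T.a (T.b (T.l 816) (T.l 816)) (T.b (T.l 816) (T.l 816))) (T.b (T.l 816) (T.l 816))) (T.l 2)))), by decide +kernel⟩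

def A012E_004 :
    ∃ t, chk3 (onCell 0 33554432 0 1073741824 649613803 48318383 (corT true 1 c0B cA012E gB0q0 gB0q1 gB4q2 gB5q2 true false)) t 1 1 1 = true :=
  ⟨(T.b (T.l 1) (T.b (T.l 1) (T.b (T.b (T.l 1) (T.b (T.l 1) (T.l 880))) (T.a (T.l 816) (T.a (T.l 816) (T.b (T.l 816) (T.a (T.l 816) (T.b (T.l 816) (T.l 816))))))))), by decide +kernel⟩

def A012L_007 :
    ∃ t, chk3 (onCell 0 67108864 0 1073741824 649613803 48318383 (corT true 1 c0B cA012L gB0q0 gB0q1 gB7q2 gB8q2 false true)) t 1 1 1 = true :=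
  ⟨(T.l 2), by decide +kernel⟩

def A012R_050 :
    ∃ t, chk3 (onCell 0 67108864 0 1073741824 649613803 48318383 (corT true 1 c0B cA012R gB0q0 gB5q1 gB0q2 gB1q2 true true)) t 1 1 1 = true :=
  ⟨(T.b (T.l 2) (T.l 2)), by decide +kernel⟩

def A012R_051 :
    ∃ t, chk3 (onCell 0 67108864 0 1073741824 649613803 48318383 (corT true 1 c0B cA012R gB0q0 gB5q1 gB1q2 gB2q2 true true)) t 1 1 1 = true :=
  ⟨(T.b (T.l 2) (T.l 2)), by decide +kernel⟩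

def A012R_052 :
    ∃ t, chk3 (onCell 0 67108864 0 1073741824 649613803 48318383 (corT true 1 c0B cA012R gB0q0 gB5q1 gB2q2 gB3q2 true true)) t 1 1 1 = true :=
  ⟨(T.b (T.l 2) (T.l 2)), by decide +kernel⟩

def A012R_053 :
    ∃ t, chk3 (onCell 0 67108864 0 1073741824 649613803 48318383 (corT true 1 c0B cA012R gB0q0 gB5q1 gB3q2 gB4q2 true true)) t 1 1 1 = true :=
  ⟨(T.l 2), by decide +kernel⟩

def A012R_054 :
    ∃ t, chk3 (onCell 0 67108864 0 1073741824 649613803 48318383 (corT true 1 c0B cA012R gB0q0 gB5q1 gB4q2 gB5q2 true false)) t 1 1 1 = true :=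
  ⟨(T.b (T.a (T.l 0) (T.a (T.l 0) (T.b (T.l 0) (T.b (T.l 816) (T.l 816))))) (T.b (T.a (T.l 816) (T.a (T.b (T.l 816) (T.l 816)) (T.b (T.l 816) (T.l 816)))) (T.a (T.a (T.l 816) (T.a (T.l 816) (T.l 816))) (T.a (T.b (T.l 816) (T.l 816)) (T.b (T.l 816) (T.l 816)))))), by decide +kernel⟩

def A012R_060 :
    ∃ t, chk3 (onCell 0 67108864 0 1073741824 649613803 48318383 (corT true 1 c0B cA012R gB0q0 gB6q1 gB0q2 gB1q2 true true)) t 1 1 1 = true :=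
  ⟨(T.l 2), by decide +kernel⟩

def A012R_061 :
    ∃ t, chk3 (onCell 0 67108864 0 1073741824 649613803 48318383 (corT true 1 c0B cA012R gB0q0 gB6q1 gB1q2 gB2q2 true true)) t 1 1 1 = true :=
  ⟨(T.l 2), by decide +kernel⟩

def A012R_062 :
    ∃ t, chk3 (onCell 0 67108864 0 1073741824 649613803 48318383 (corT true 1 c0B cA012R gB0q0 gB6q1 gB2q2 gB3q2 true true)) t 1 1 1 = true :=
  ⟨(T.l 2), by decide +kernel⟩

def A012R_063 :
    ∃ t, chk3 (onCell 0 67108864 0 1073741824 649613803 48318383 (corT true 1 c0B cA012R gB0q0 gB6q1 gB3q2 gB4q2 true true)) t 1 1 1 = true :=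
  ⟨(T.l 2), by decide +kernel⟩

def A012R_064 :
    ∃ t, chk3 (onCell 0 67108864 0 1073741824 649613803 48318383 (corT true 1 c0B cA012R gB0q0 gB6q1 gB4q2 gB5q2 true false)) t 1 1 1 = true :=
  ⟨(T.b (T.a (T.l 0) (T.b (T.l 0) (T.b (T.l 816) (T.b (T.l 816) (T.l 816))))) (T.a (T.b (T.l 816) (T.a (T.l 816) (T.a (T.l 816) (T.l 816)))) (T.b (T.a (T.b (T.l 816) (T.l 816)) (T.b (T.l 816) (T.l 816))) (T.a (T.b (T.l 816) (T.l 816)) (T.b (T.l 816) (T.l 816)))))), by decide +kernel⟩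

def A012R_070 :
    ∃ t, chk3 (onCell 0 67108864 0 1073741824 649613803 48318383 (corT true 1 c0B cA012R gB0q0 gB7q1 gB0q2 gB1q2 true true)) t 1 1 1 = true :=
  ⟨(T.l 2), by decide +kernel⟩

def A012R_071 :
    ∃ t, chk3 (onCell 0 67108864 0 1073741824 649613803 48318383 (corT true 1 c0B cA012R gB0q0 gB7q1 gB1q2 gB2q2 true true)) t 1 1 1 = true :=
  ⟨(T.l 2), by decide +kernel⟩

def A012R_072 :
    ∃ t, chk3 (onCell 0 67108864 0 1073741824 649613803 48318383 (corT true 1 c0B cA012R gB0q0 gB7q1 gB2q2 gB3q2 true true)) t 1 1 1 = true :=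
  ⟨(T.l 2), by decide +kernel⟩

def A012R_073 :
    ∃ t, chk3 (onCell 0 67108864 0 1073741824 649613803 48318383 (corT true 1 c0B cA012R gB0q0 gB7q1 gB3q2 gB4q2 true true)) t 1 1 1 = true :=
  ⟨(T.l 2), by decide +kernel⟩

def A012R_074 :
    ∃ t, chk3 (onCell 0 67108864 0 1073741824 649613803 48318383 (corT true 1 c0B cA012R gB0q0 gB7q1 gB4q2 gB5q2 true false)) t 1 1 1 = true :=
  ⟨(T.b (T.a (T.l 0) (T.b (T.l 0) (T.b (T.l 816) (T.b (T.l 816) (T.l 816))))) (T.b (T.a (T.l 816) (T.a (T.b (T.l 816) (T.l 816)) (T.b (T.l 816) (T.l 816)))) (T.a (T.a (T.l 816) (T.a (T.l 816) (T.l 816))) (T.a (T.b (T.l 816) (T.l 816)) (T.b (T.l 816) (T.l 816)))))), by decide +kernel⟩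

def A012R_080 :
    ∃ t, chk3 (onCell 0 67108864 0 1073741824 649613803 48318383 (corT true 1 c0B cA012R gB0q0 gB8q1 gB0q2 gB1q2 true true)) t 1 1 1 = true :=
  ⟨(T.l 2), by decide +kernel⟩

def A012R_081 :
    ∃ t, chk3 (onCell 0 67108864 0 1073741824 649613803 48318383 (corT true 1 c0B cA012R gB0q0 gB8q1 gB1q2 gB2q2 true true)) t 1 1 1 = true :=
  ⟨(T.l 2), by decide +kernel⟩

def A012R_082 :
    ∃ t, chk3 (onCell 0 67108864 0 1073741824 649613803 48318383 (corT true 1 c0B cA012R gB0q0 gB8q1 gB2q2 gB3q2 true true)) t 1 1 1 = true :=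
  ⟨(T.l 2), by decide +kernel⟩

def A012R_083 :
    ∃ t, chk3 (onCell 0 67108864 0 1073741824 649613803 48318383 (corT true 1 c0B cA012R gB0q0 gB8q1 gB3q2 gB4q2 true true)) t 1 1 1 = true :=
  ⟨(T.l 2), by decide +kernel⟩

def A012R_084 :
    ∃ t, chk3 (onCell 0 67108864 0 1073741824 649613803 48318383 (corT true 1 c0B cA012R gB0q0 gB8q1 gB4q2 gB5q2 true false)) t 1 1 1 = true :=
  ⟨(T.b (T.a (T.l 0) (T.a (T.l 0) (T.b (T.l 0) (T.b (T.l 816) (T.l 816))))) (T.b (T.a (T.l 816) (T.a (T.b (T.l 816) (T.l 816)) (T.b (T.l 816) (T.l 816)))) (T.a (T.a (T.l 816) (T.a (T.l 816) (T.l 816))) (T.a (T.b (T.l 816) (T.l 816)) (T.b (T.l 816) (T.l 816)))))), by decide +kernel⟩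

def A012R_150 :
    ∃ t, chk3 (onCell 0 67108864 0 1073741824 649613803 48318383 (corT true 1 c0B cA012R gB1q0 gB5q1 gB0q2 gB1q2 true true)) t 1 1 1 = true :=
  ⟨(T.b (T.b (T.b (T.a (T.l 2) (T.l 2)) (T.l 2)) (T.l 2)) (T.l 2)), by decide +kernel⟩

def A012R_151 :
    ∃ t, chk3 (onCell 0 67108864 0 1073741824 649613803 48318383 (corT true 1 c0B cA012R gB1q0 gB5q1 gB1q2 gB2q2 true true)) t 1 1 1 = true :=
  ⟨(T.b (T.b (T.l 256) (T.l 2)) (T.l 2)), by decide +kernel⟩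

def A012R_152 :
    ∃ t, chk3 (onCell 0 67108864 0 1073741824 649613803 48318383 (corT true 1 c0B cA012R gB1q0 gB5q1 gB2q2 gB3q2 true true)) t 1 1 1 = true :=
  ⟨(T.b (T.b (T.l 0) (T.l 2)) (T.l 2)), by decide +kernel⟩

def A012R_153 :
    ∃ t, chk3 (onCell 0 67108864 0 1073741824 649613803 48318383 (corT true 1 c0B cA012R gB1q0 gB5q1 gB3q2 gB4q2 true true)) t 1 1 1 = true :=
  ⟨(T.b (T.b (T.l 0) (T.l 2)) (T.l 2)), by decide +kernel⟩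

def A012R_154 :
    ∃ t, chk3 (onCell 0 67108864 0 1073741824 649613803 48318383 (corT true 1 c0B cA012R gB1q0 gB5q1 gB4q2 gB5q2 true false)) t 1 1 1 = true :=
  ⟨(T.b (T.b (T.l 0) (T.b (T.l 816) (T.a (T.l 816) (T.l 64)))) (T.b (T.a (T.l 816) (T.a (T.l 64) (T.l 816))) (T.a (T.b (T.l 816) (T.a (T.l 816) (T.b (T.l 816) (T.l 816)))) (T.a (T.l 816) (T.l 816))))), by decide +kernel⟩

def A012R_160 :
    ∃ t, chk3 (onCell 0 67108864 0 1073741824 649613803 48318383 (corT true 1 c0B cA012R gB1q0 gB6q1 gB0q2 gB1q2 true true)) t 1 1 1 = true :=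
  ⟨(T.b (T.l 2) (T.l 2)), by decide +kernel⟩

def A012R_161 :
    ∃ t, chk3 (onCell 0 67108864 0 1073741824 649613803 48318383 (corT true 1 c0B cA012R gB1q0 gB6q1 gB1q2 gB2q2 true true)) t 1 1 1 = true :=
  ⟨(T.b (T.l 2) (T.l 2)), by decide +kernel⟩

def A012R_162 :
    ∃ t, chk3 (onCell 0 67108864 0 1073741824 649613803 48318383 (corT true 1 c0B cA012R gB1q0 gB6q1 gB2q2 gB3q2 true true)) t 1 1 1 = true :=
  ⟨(T.b (T.l 2) (T.l 2)), by decide +kernel⟩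

def A012R_163 :
    ∃ t, chk3 (onCell 0 67108864 0 1073741824 649613803 48318383 (corT true 1 c0B cA012R gB1q0 gB6q1 gB3q2 gB4q2 true true)) t 1 1 1 = true :=
  ⟨(T.l 2), by decide +kernel⟩

def A012R_164 :
    ∃ t, chk3 (onCell 0 67108864 0 1073741824 649613803 48318383 (corT true 1 c0B cA012R gB1q0 gB6q1 gB4q2 gB5q2 true false)) t 1 1 1 = true :=
  ⟨(T.b (T.b (T.l 0) (T.b (T.l 816) (T.a (T.l 816) (T.b (T.l 816) (T.l 816))))) (T.a (T.b (T.l 816) (T.b (T.l 816) (T.a (T.l 816) (T.b (T.l 816) (T.l 816))))) (T.b (T.a (T.b (T.l 816) (T.l 816)) (T.l 816)) (T.a (T.l 816) (T.l 816))))), by decide +kernel⟩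

def A012R_170 :
    ∃ t, chk3 (onCell 0 67108864 0 1073741824 649613803 48318383 (corT true 1 c0B cA012R gB1q0 gB7q1 gB0q2 gB1q2 true true)) t 1 1 1 = true :=
  ⟨(T.l 2), by decide +kernel⟩

def A012R_171 :
    ∃ t, chk3 (onCell 0 67108864 0 1073741824 649613803 48318383 (corT true 1 c0B cA012R gB1q0 gB7q1 gB1q2 gB2q2 true true)) t 1 1 1 = true :=
  ⟨(T.l 2), by decide +kernel⟩

def A012R_172 :
    ∃ t, chk3 (onCell 0 67108864 0 1073741824 649613803 48318383 (corT true 1 c0B cA012R gB1q0 gB7q1 gB2q2 gB3q2 true true)) t 1 1 1 = true :=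
  ⟨(T.l 2), by decide +kernel⟩

def A012R_173 :
    ∃ t, chk3 (onCell 0 67108864 0 1073741824 649613803 48318383 (corT true 1 c0B cA012R gB1q0 gB7q1 gB3q2 gB4q2 true true)) t 1 1 1 = true :=
  ⟨(T.l 2), by decide +kernel⟩

def A012R_174 :
    ∃ t, chk3 (onCell 0 67108864 0 1073741824 649613803 48318383 (corT true 1 c0B cA012R gB1q0 gB7q1 gB4q2 gB5q2 true false)) t 1 1 1 = true :=
  ⟨(T.b (T.b (T.l 0) (T.b (T.l 816) (T.a (T.l 816) (T.b (T.l 816) (T.l 816))))) (T.b (T.a (T.l 816) (T.a (T.b (T.l 816) (T.l 816)) (T.l 816))) (T.a (T.b (T.l 816) (T.a (T.l 816) (T.b (T.l 816) (T.l 816)))) (T.a (T.l 816) (T.l 816))))), by decide +kernel⟩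

def A012R_180 :
    ∃ t, chk3 (onCell 0 67108864 0 1073741824 649613803 48318383 (corT true 1 c0B cA012R gB1q0 gB8q1 gB0q2 gB1q2 true true)) t 1 1 1 = true :=
  ⟨(T.l 2), by decide +kernel⟩

def A012R_181 :
    ∃ t, chk3 (onCell 0 67108864 0 1073741824 649613803 48318383 (corT true 1 c0B cA012R gB1q0 gB8q1 gB1q2 gB2q2 true true)) t 1 1 1 = true :=
  ⟨(T.l 2), by decide +kernel⟩

def A012R_182 :
    ∃ t, chk3 (onCell 0 67108864 0 1073741824 649613803 48318383 (corT true 1 c0B cA012R gB1q0 gB8q1 gB2q2 gB3q2 true true)) t 1 1 1 = true :=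
  ⟨(T.l 2), by decide +kernel⟩

def A012R_183 :
    ∃ t, chk3 (onCell 0 67108864 0 1073741824 649613803 48318383 (corT true 1 c0B cA012R gB1q0 gB8q1 gB3q2 gB4q2 true true)) t 1 1 1 = true :=
  ⟨(T.l 2), by decide +kernel⟩

def A012R_184 :
    ∃ t, chk3 (onCell 0 67108864 0 1073741824 649613803 48318383 (corT true 1 c0B cA012R gB1q0 gB8q1 gB4q2 gB5q2 true false)) t 1 1 1 = true :=
  ⟨(T.b (T.a (T.l 0) (T.a (T.l 0) (T.b (T.l 0) (T.b (T.l 816) (T.l 816))))) (T.b (T.a (T.l 816) (T.a (T.b (T.l 816) (T.l 816)) (T.l 816))) (T.a (T.b (T.l 816) (T.a (T.l 816) (T.b (T.l 816) (T.l 816)))) (T.a (T.l 816) (T.l 816))))), by decide +kernel⟩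

def A012R_250 :
    ∃ t, chk3 (onCell 0 67108864 0 1073741824 649613803 48318383 (corT true 1 c0B cA012R gB2q0 gB5q1 gB0q2 gB1q2 true true)) t 1 1 1 = true :=
  ⟨(T.b (T.b (T.b (T.l 1) (T.l 0)) (T.l 2)) (T.l 2)), by decide +kernel⟩

def A012R_251 :
    ∃ t, chk3 (onCell 0 67108864 0 1073741824 649613803 48318383 (corT true 1 c0B cA012R gB2q0 gB5q1 gB1q2 gB2q2 true true)) t 1 1 1 = true :=
  ⟨(T.b (T.b (T.l 0) (T.b (T.l 816) (T.l 2))) (T.l 2)), by decide +kernel⟩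

def A012R_252 :
    ∃ t, chk3 (onCell 0 67108864 0 1073741824 649613803 48318383 (corT true 1 c0B cA012R gB2q0 gB5q1 gB2q2 gB3q2 true true)) t 1 1 1 = true :=
  ⟨(T.b (T.b (T.l 0) (T.b (T.l 816) (T.a (T.l 816) (T.l 2)))) (T.b (T.l 2) (T.l 2))), by decide +kernel⟩

def A012R_253 :
    ∃ t, chk3 (onCell 0 67108864 0 1073741824 649613803 48318383 (corT true 1 c0B cA012R gB2q0 gB5q1 gB3q2 gB4q2 true true)) t 1 1 1 = true :=
  ⟨(T.b (T.b (T.l 1) (T.b (T.l 816) (T.a (T.l 816) (T.a (T.l 816) (T.l 816))))) (T.b (T.a (T.l 816) (T.b (T.a (T.l 816) (T.l 816)) (T.a (T.b (T.l 816) (T.l 816)) (T.l 816)))) (T.a (T.a (T.l 816) (T.a (T.l 816) (T.b (T.l 816) (T.l 816)))) (T.b (T.a (T.b (T.l 816) (T.l 816)) (T.l 816)) (T.a (T.b (T.l 816) (T.l 816)) (T.b (T.l 816) (T.l 816))))))), by decide +kernel⟩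

def A012R_254 :
    ∃ t, chk3 (onCell 0 67108864 0 1073741824 649613803 48318383 (corT true 1 c0B cA012R gB2q0 gB5q1 gB4q2 gB5q2 true false)) t 1 1 1 = true :=
  ⟨(T.l 1), by decide +kernel⟩

def A012R_260 :
    ∃ t, chk3 (onCell 0 67108864 0 1073741824 649613803 48318383 (corT true 1 c0B cA012R gB2q0 gB6q1 gB0q2 gB1q2 true true)) t 1 1 1 = true :=
  ⟨(T.b (T.b (T.b (T.l 0) (T.l 2)) (T.l 2)) (T.l 2)), by decide +kernel⟩

def A012R_261 :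
    ∃ t, chk3 (onCell 0 67108864 0 1073741824 649613803 48318383 (corT true 1 c0B cA012R gB2q0 gB6q1 gB1q2 gB2q2 true true)) t 1 1 1 = true :=
  ⟨(T.b (T.b (T.l 0) (T.l 2)) (T.l 2)), by decide +kernel⟩

def A012R_262 :
    ∃ t, chk3 (onCell 0 67108864 0 1073741824 649613803 48318383 (corT true 1 c0B cA012R gB2q0 gB6q1 gB2q2 gB3q2 true true)) t 1 1 1 = true :=
  ⟨(T.b (T.b (T.l 0) (T.b (T.l 816) (T.l 2))) (T.l 2)), by decide +kernel⟩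

def A012R_263 :
    ∃ t, chk3 (onCell 0 67108864 0 1073741824 649613803 48318383 (corT true 1 c0B cA012R gB2q0 gB6q1 gB3q2 gB4q2 true true)) t 1 1 1 = true :=
  ⟨(T.b (T.a (T.l 0) (T.b (T.l 0) (T.a (T.l 816) (T.b (T.l 816) (T.l 816))))) (T.a (T.a (T.l 816) (T.a (T.l 816) (T.b (T.l 816) (T.b (T.l 816) (T.l 816))))) (T.b (T.a (T.b (T.l 816) (T.b (T.l 816) (T.l 816))) (T.b (T.l 816) (T.l 816))) (T.a (T.a (T.b (T.l 816) (T.l 816)) (T.b (T.l 816) (T.l 816))) (T.b (T.l 816) (T.b (T.l 816) (T.l 816))))))), by decide +kernel⟩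

def A012R_264 :
    ∃ t, chk3 (onCell 0 67108864 0 1073741824 649613803 48318383 (corT true 1 c0B cA012R gB2q0 gB6q1 gB4q2 gB5q2 true false)) t 1 1 1 = true :=
  ⟨(T.l 1), by decide +kernel⟩

def A012R_270 :
    ∃ t, chk3 (onCell 0 67108864 0 1073741824 649613803 48318383 (corT true 1 c0B cA012R gB2q0 gB7q1 gB0q2 gB1q2 true true)) t 1 1 1 = true :=
  ⟨(T.b (T.b (T.b (T.l 0) (T.l 2)) (T.l 2)) (T.l 2)), by decide +kernel⟩

def A012R_271 :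
    ∃ t, chk3 (onCell 0 67108864 0 1073741824 649613803 48318383 (corT true 1 c0B cA012R gB2q0 gB7q1 gB1q2 gB2q2 true true)) t 1 1 1 = true :=
  ⟨(T.b (T.b (T.l 0) (T.l 2)) (T.l 2)), by decide +kernel⟩

def A012R_272 :
    ∃ t, chk3 (onCell 0 67108864 0 1073741824 649613803 48318383 (corT true 1 c0B cA012R gB2q0 gB7q1 gB2q2 gB3q2 true true)) t 1 1 1 = true :=
  ⟨(T.b (T.b (T.l 0) (T.l 2)) (T.l 2)), by decide +kernel⟩

def A012R_273 :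
    ∃ t, chk3 (onCell 0 67108864 0 1073741824 649613803 48318383 (corT true 1 c0B cA012R gB2q0 gB7q1 gB3q2 gB4q2 true true)) t 1 1 1 = true :=
  ⟨(T.b (T.a (T.l 0) (T.a (T.l 0) (T.b (T.l 0) (T.b (T.l 816) (T.l 816))))) (T.a (T.a (T.l 816) (T.a (T.l 816) (T.b (T.l 816) (T.b (T.l 816) (T.l 816))))) (T.b (T.a (T.b (T.l 816) (T.b (T.l 816) (T.l 816))) (T.b (T.l 816) (T.l 816))) (T.a (T.a (T.b (T.l 816) (T.l 816)) (T.b (T.l 816) (T.l 816))) (T.b (T.l 816) (T.b (T.l 816) (T.l 816))))))), by decide +kernel⟩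

def A012R_274 :
    ∃ t, chk3 (onCell 0 67108864 0 1073741824 649613803 48318383 (corT true 1 c0B cA012R gB2q0 gB7q1 gB4q2 gB5q2 true false)) t 1 1 1 = true :=
  ⟨(T.b (T.b (T.l 0) (T.b (T.l 816) (T.a (T.l 1) (T.l 816)))) (T.b (T.b (T.l 1) (T.l 1)) (T.l 1))), by decide +kernel⟩

def A012R_280 :
    ∃ t, chk3 (onCell 0 67108864 0 1073741824 649613803 48318383 (corT true 1 c0B cA012R gB2q0 gB8q1 gB0q2 gB1q2 true true)) t 1 1 1 = true :=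
  ⟨(T.b (T.l 2) (T.l 2)), by decide +kernel⟩

def A012R_281 :
    ∃ t, chk3 (onCell 0 67108864 0 1073741824 649613803 48318383 (corT true 1 c0B cA012R gB2q0 gB8q1 gB1q2 gB2q2 true true)) t 1 1 1 = true :=
  ⟨(T.b (T.l 2) (T.l 2)), by decide +kernel⟩

def A012R_282 :
    ∃ t, chk3 (onCell 0 67108864 0 1073741824 649613803 48318383 (corT true 1 c0B cA012R gB2q0 gB8q1 gB2q2 gB3q2 true true)) t 1 1 1 = true :=
  ⟨(T.b (T.l 2) (T.l 2)), by decide +kernel⟩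

def A012R_283 :
    ∃ t, chk3 (onCell 0 67108864 0 1073741824 649613803 48318383 (corT true 1 c0B cA012R gB2q0 gB8q1 gB3q2 gB4q2 true true)) t 1 1 1 = true :=
  ⟨(T.b (T.a (T.l 0) (T.l 2)) (T.b (T.a (T.l 816) (T.b (T.a (T.l 816) (T.l 2)) (T.a (T.b (T.l 816) (T.l 816)) (T.l 816)))) (T.a (T.a (T.l 816) (T.a (T.l 816) (T.b (T.l 816) (T.l 816)))) (T.b (T.a (T.b (T.l 816) (T.l 816)) (T.l 816)) (T.a (T.b (T.l 816) (T.l 816)) (T.b (T.l 816) (T.l 816))))))), by decide +kernel⟩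

def A012R_284 :
    ∃ t, chk3 (onCell 0 67108864 0 1073741824 649613803 48318383 (corT true 1 c0B cA012R gB2q0 gB8q1 gB4q2 gB5q2 true false)) t 1 1 1 = true :=
  ⟨(T.b (T.a (T.l 0) (T.b (T.l 816) (T.b (T.l 816) (T.l 816)))) (T.b (T.a (T.l 816) (T.b (T.l 816) (T.l 816))) (T.b (T.a (T.l 1) (T.l 816)) (T.l 1)))), by decide +kernel⟩

def A012R_350 :
    ∃ t, chk3 (onCell 0 67108864 0 1073741824 649613803 48318383 (corT true 1 c0B cA012R gB3q0 gB5q1 gB0q2 gB1q2 true true)) t 1 1 1 = true :=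
  ⟨(T.b (T.b (T.l 1) (T.b (T.a (T.l 1) (T.b (T.l 1) (T.a (T.l 1) (T.l 816)))) (T.a (T.l 816) (T.b (T.a (T.l 816) (T.l 816)) (T.a (T.l 816) (T.l 2)))))) (T.b (T.b (T.a (T.b (T.l 816) (T.l 2)) (T.l 2)) (T.l 2)) (T.l 2))), by decide +kernel⟩

def A012R_351 :
    ∃ t, chk3 (onCell 0 67108864 0 1073741824 649613803 48318383 (corT true 1 c0B cA012R gB3q0 gB5q1 gB1q2 gB2q2 true true)) t 1 1 1 = true :=
  ⟨(T.b (T.b (T.l 1) (T.a (T.l 816) (T.b (T.l 1) (T.b (T.l 816) (T.a (T.l 816) (T.l 816)))))) (T.b (T.a (T.l 816) (T.b (T.a (T.l 816) (T.b (T.l 816) (T.l 2))) (T.l 2))) (T.l 2))), by decide +kernel⟩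

def A012R_352 :
    ∃ t, chk3 (onCell 0 67108864 0 1073741824 649613803 48318383 (corT true 1 c0B cA012R gB3q0 gB5q1 gB2q2 gB3q2 true true)) t 1 1 1 = true :=
  ⟨(T.b (T.b (T.l 1) (T.a (T.l 1) (T.b (T.l 1) (T.a (T.l 1) (T.l 0))))) (T.b (T.a (T.l 816) (T.b (T.a (T.l 816) (T.l 816)) (T.a (T.b (T.l 816) (T.l 816)) (T.b (T.l 816) (T.l 816))))) (T.a (T.b (T.l 816) (T.a (T.l 816) (T.b (T.l 816) (T.l 2)))) (T.b (T.b (T.a (T.l 816) (T.l 816)) (T.a (T.l 880) (T.l 2))) (T.l 2))))), by decide +kernel⟩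

def A012R_353 :
    ∃ t, chk3 (onCell 0 67108864 0 1073741824 649613803 48318383 (corT true 1 c0B cA012R gB3q0 gB5q1 gB3q2 gB4q2 true true)) t 1 1 1 = true :=
  ⟨(T.b (T.l 1) (T.b (T.a (T.l 1) (T.b (T.l 1) (T.a (T.l 1) (T.l 816)))) (T.a (T.b (T.l 816) (T.a (T.l 816) (T.b (T.l 816) (T.l 816)))) (T.a (T.b (T.l 816) (T.l 816)) (T.b (T.l 816) (T.l 816)))))), by decide +kernel⟩

def A012R_354 :
    ∃ t, chk3 (onCell 0 67108864 0 1073741824 649613803 48318383 (corT true 1 c0B cA012R gB3q0 gB5q1 gB4q2 gB5q2 true false)) t 1 1 1 = true :=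
  ⟨(T.l 1), by decide +kernel⟩

def A012R_360 :
    ∃ t, chk3 (onCell 0 67108864 0 1073741824 649613803 48318383 (corT true 1 c0B cA012R gB3q0 gB6q1 gB0q2 gB1q2 true true)) t 1 1 1 = true :=
  ⟨(T.b (T.b (T.l 1) (T.a (T.l 816) (T.b (T.b (T.l 1) (T.a (T.l 816) (T.l 816))) (T.b (T.a (T.l 816) (T.l 2)) (T.l 2))))) (T.b (T.l 2) (T.l 2))), by decide +kernel⟩

def A012R_361 :
    ∃ t, chk3 (onCell 0 67108864 0 1073741824 649613803 48318383 (corT true 1 c0B cA012R gB3q0 gB6q1 gB1q2 gB2q2 true true)) t 1 1 1 = true :=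
  ⟨(T.b (T.b (T.l 1) (T.b (T.l 816) (T.a (T.l 816) (T.b (T.l 816) (T.a (T.l 816) (T.l 816)))))) (T.b (T.a (T.l 816) (T.b (T.a (T.l 816) (T.l 2)) (T.l 2))) (T.l 2))), by decide +kernel⟩

def A012R_362 :
    ∃ t, chk3 (onCell 0 67108864 0 1073741824 649613803 48318383 (corT true 1 c0B cA012R gB3q0 gB6q1 gB2q2 gB3q2 true true)) t 1 1 1 = true :=
  ⟨(T.b (T.b (T.l 1) (T.a (T.l 816) (T.b (T.l 1) (T.a (T.l 816) (T.l 816))))) (T.b (T.a (T.l 816) (T.b (T.a (T.l 816) (T.l 816)) (T.a (T.b (T.l 816) (T.l 816)) (T.b (T.l 816) (T.l 816))))) (T.a (T.b (T.l 816) (T.a (T.l 816) (T.b (T.l 816) (T.l 2)))) (T.b (T.a (T.a (T.l 816) (T.l 816)) (T.b (T.l 816) (T.l 2))) (T.l 2))))), by decide +kernel⟩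

def A012R_363 :
    ∃ t, chk3 (onCell 0 67108864 0 1073741824 649613803 48318383 (corT true 1 c0B cA012R gB3q0 gB6q1 gB3q2 gB4q2 true true)) t 1 1 1 = true :=
  ⟨(T.b (T.l 1) (T.b (T.a (T.l 1) (T.b (T.l 1) (T.b (T.l 1) (T.l 816)))) (T.a (T.b (T.l 816) (T.a (T.l 816) (T.b (T.l 816) (T.l 816)))) (T.a (T.b (T.l 816) (T.l 816)) (T.b (T.l 816) (T.l 816)))))), by decide +kernel⟩

def A012R_364 :
    ∃ t, chk3 (onCell 0 67108864 0 1073741824 649613803 48318383 (corT true 1 c0B cA012R gB3q0 gB6q1 gB4q2 gB5q2 true false)) t 1 1 1 = true :=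
  ⟨(T.l 1), by decide +kernel⟩

def A012R_370 :
    ∃ t, chk3 (onCell 0 67108864 0 1073741824 649613803 48318383 (corT true 1 c0B cA012R gB3q0 gB7q1 gB0q2 gB1q2 true true)) t 1 1 1 = true :=
  ⟨(T.b (T.b (T.b (T.l 1) (T.l 816)) (T.a (T.l 816) (T.b (T.a (T.l 816) (T.b (T.l 816) (T.l 2))) (T.l 2)))) (T.l 2)), by decide +kernel⟩

def A012R_371 :
    ∃ t, chk3 (onCell 0 67108864 0 1073741824 649613803 48318383 (corT true 1 c0B cA012R gB3q0 gB7q1 gB1q2 gB2q2 true true)) t 1 1 1 = true :=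
  ⟨(T.b (T.b (T.l 1) (T.b (T.l 816) (T.a (T.l 816) (T.b (T.l 816) (T.l 2))))) (T.b (T.a (T.l 816) (T.l 2)) (T.l 2))), by decide +kernel⟩

def A012R_372 :
    ∃ t, chk3 (onCell 0 67108864 0 1073741824 649613803 48318383 (corT true 1 c0B cA012R gB3q0 gB7q1 gB2q2 gB3q2 true true)) t 1 1 1 = true :=
  ⟨(T.b (T.b (T.l 1) (T.a (T.l 816) (T.b (T.l 816) (T.a (T.l 816) (T.l 816))))) (T.b (T.a (T.l 816) (T.b (T.a (T.l 816) (T.l 816)) (T.a (T.b (T.l 816) (T.l 816)) (T.b (T.l 816) (T.l 816))))) (T.a (T.b (T.l 816) (T.a (T.l 816) (T.b (T.l 816) (T.l 2)))) (T.b (T.b (T.a (T.l 816) (T.l 2)) (T.l 2)) (T.l 2))))), by decide +kernel⟩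

def A012R_373 :
    ∃ t, chk3 (onCell 0 67108864 0 1073741824 649613803 48318383 (corT true 1 c0B cA012R gB3q0 gB7q1 gB3q2 gB4q2 true true)) t 1 1 1 = true :=
  ⟨(T.b (T.l 1) (T.b (T.a (T.l 1) (T.b (T.l 1) (T.b (T.l 816) (T.l 816)))) (T.a (T.b (T.l 816) (T.a (T.l 816) (T.b (T.l 816) (T.l 816)))) (T.a (T.b (T.l 816) (T.l 816)) (T.b (T.l 816) (T.l 816)))))), by decide +kernel⟩

def A012R_374 :
    ∃ t, chk3 (onCell 0 67108864 0 1073741824 649613803 48318383 (corT true 1 c0B cA012R gB3q0 gB7q1 gB4q2 gB5q2 true false)) t 1 1 1 = true :=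
  ⟨(T.l 1), by decide +kernel⟩

def A012R_380 :
    ∃ t, chk3 (onCell 0 67108864 0 1073741824 649613803 48318383 (corT true 1 c0B cA012R gB3q0 gB8q1 gB0q2 gB1q2 true true)) t 1 1 1 = true :=
  ⟨(T.b (T.b (T.b (T.l 1) (T.l 816)) (T.a (T.b (T.l 816) (T.l 2)) (T.l 2))) (T.l 2)), by decide +kernel⟩

def A012R_381 :
    ∃ t, chk3 (onCell 0 67108864 0 1073741824 649613803 48318383 (corT true 1 c0B cA012R gB3q0 gB8q1 gB1q2 gB2q2 true true)) t 1 1 1 = true :=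
  ⟨(T.b (T.b (T.b (T.l 1) (T.l 816)) (T.b (T.l 816) (T.a (T.l 816) (T.l 2)))) (T.b (T.l 2) (T.l 2))), by decide +kernel⟩

def A012R_382 :
    ∃ t, chk3 (onCell 0 67108864 0 1073741824 649613803 48318383 (corT true 1 c0B cA012R gB3q0 gB8q1 gB2q2 gB3q2 true true)) t 1 1 1 = true :=
  ⟨(T.b (T.a (T.l 816) (T.b (T.l 1) (T.b (T.l 816) (T.a (T.l 816) (T.l 816))))) (T.b (T.a (T.l 816) (T.b (T.a (T.l 816) (T.b (T.l 816) (T.l 816))) (T.a (T.b (T.l 816) (T.l 816)) (T.l 2)))) (T.a (T.a (T.l 816) (T.b (T.l 816) (T.l 2))) (T.b (T.l 2) (T.l 2))))), by decide +kernel⟩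

def A012R_383 :
    ∃ t, chk3 (onCell 0 67108864 0 1073741824 649613803 48318383 (corT true 1 c0B cA012R gB3q0 gB8q1 gB3q2 gB4q2 true true)) t 1 1 1 = true :=
  ⟨(T.b (T.b (T.l 1) (T.l 1)) (T.b (T.a (T.l 816) (T.a (T.b (T.l 816) (T.l 816)) (T.b (T.l 816) (T.l 816)))) (T.a (T.b (T.l 816) (T.a (T.l 816) (T.b (T.l 816) (T.l 816)))) (T.a (T.b (T.l 816) (T.l 816)) (T.b (T.l 816) (T.l 816)))))), by decide +kernel⟩

def A012R_384 :
    ∃ t, chk3 (onCell 0 67108864 0 1073741824 649613803 48318383 (corT true 1 c0B cA012R gB3q0 gB8q1 gB4q2 gB5q2 true false)) t 1 1 1 = true :=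
  ⟨(T.l 1), by decide +kernel⟩

def A012R_450 :
    ∃ t, chk3 (onCell 0 67108864 0 1073741824 649613803 48318383 (corT true 1 c0B cA012R gB4q0 gB5q1 gB0q2 gB1q2 true true)) t 1 1 1 = true :=
  ⟨(T.b (T.l 1) (T.b (T.b (T.l 1) (T.a (T.a (T.l 1) (T.a (T.l 1) (T.l 816))) (T.b (T.a (T.l 1) (T.b (T.l 1) (T.l 816))) (T.a (T.b (T.l 816) (T.l 816)) (T.b (T.l 816) (T.l 816)))))) (T.b (T.a (T.a (T.l 816) (T.a (T.l 816) (T.l 816))) (T.b (T.a (T.a (T.l 816) (T.l 816)) (T.b (T.l 816) (T.l 2))) (T.a (T.l 2) (T.l 2)))) (T.a (T.a (T.l 816) (T.l 2)) (T.l 2))))), by decide +kernel⟩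

def A012R_451 :
    ∃ t, chk3 (onCell 0 67108864 0 1073741824 649613803 48318383 (corT true 1 c0B cA012R gB4q0 gB5q1 gB1q2 gB2q2 true true)) t 1 1 1 = true :=
  ⟨(T.b (T.l 1) (T.b (T.a (T.l 1) (T.b (T.l 1) (T.a (T.l 1) (T.b (T.l 1) (T.l 816))))) (T.b (T.a (T.l 816) (T.a (T.b (T.l 816) (T.l 816)) (T.b (T.l 816) (T.l 816)))) (T.a (T.a (T.l 816) (T.a (T.l 816) (T.l 816))) (T.b (T.a (T.b (T.l 816) (T.l 816)) (T.l 816)) (T.a (T.b (T.l 816) (T.l 816)) (T.l 2))))))), by decide +kernel⟩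

def A012R_452 :
    ∃ t, chk3 (onCell 0 67108864 0 1073741824 649613803 48318383 (corT true 1 c0B cA012R gB4q0 gB5q1 gB2q2 gB3q2 true true)) t 1 1 1 = true :=
  ⟨(T.b (T.l 1) (T.b (T.l 1) (T.a (T.b (T.l 1) (T.a (T.l 1) (T.a (T.l 1) (T.l 816)))) (T.b (T.a (T.l 1) (T.l 1)) (T.a (T.l 816) (T.l 816)))))), by decide +kernel⟩

def A012R_453 :
    ∃ t, chk3 (onCell 0 67108864 0 1073741824 649613803 48318383 (corT true 1 c0B cA012R gB4q0 gB5q1 gB3q2 gB4q2 true true)) t 1 1 1 = true :=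
  ⟨(T.l 1), by decide +kernel⟩

def A012R_454 :
    ∃ t, chk3 (onCell 0 67108864 0 1073741824 649613803 48318383 (corT true 1 c0B cA012R gB4q0 gB5q1 gB4q2 gB5q2 true false)) t 1 1 1 = true :=
  ⟨(T.l 1), by decide +kernel⟩

def A012R_460 :
    ∃ t, chk3 (onCell 0 67108864 0 1073741824 649613803 48318383 (corT true 1 c0B cA012R gB4q0 gB6q1 gB0q2 gB1q2 true true)) t 1 1 1 = true :=
  ⟨(T.b (T.l 1) (T.b (T.b (T.l 1) (T.a (T.a (T.l 1) (T.b (T.l 1) (T.l 816))) (T.b (T.a (T.b (T.l 1) (T.l 816)) (T.l 816)) (T.a (T.b (T.l 816) (T.l 816)) (T.b (T.l 816) (T.l 816)))))) (T.b (T.a (T.a (T.l 816) (T.a (T.l 816) (T.l 816))) (T.b (T.a (T.a (T.l 816) (T.l 816)) (T.l 2)) (T.l 2))) (T.a (T.a (T.l 816) (T.l 2)) (T.l 2))))), by decide +kernel⟩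

def A012R_461 :
    ∃ t, chk3 (onCell 0 67108864 0 1073741824 649613803 48318383 (corT true 1 c0B cA012R gB4q0 gB6q1 gB1q2 gB2q2 true true)) t 1 1 1 = true :=
  ⟨(T.b (T.l 1) (T.b (T.a (T.l 1) (T.b (T.l 1) (T.a (T.b (T.l 1) (T.l 816)) (T.b (T.l 1) (T.l 816))))) (T.a (T.b (T.l 816) (T.a (T.l 816) (T.a (T.l 816) (T.l 816)))) (T.b (T.a (T.b (T.l 816) (T.l 816)) (T.b (T.l 816) (T.l 816))) (T.a (T.a (T.l 816) (T.l 816)) (T.b (T.l 816) (T.l 2))))))), by decide +kernel⟩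

def A012R_462 :
    ∃ t, chk3 (onCell 0 67108864 0 1073741824 649613803 48318383 (corT true 1 c0B cA012R gB4q0 gB6q1 gB2q2 gB3q2 true true)) t 1 1 1 = true :=
  ⟨(T.b (T.l 1) (T.b (T.l 1) (T.a (T.b (T.l 1) (T.a (T.l 1) (T.b (T.l 1) (T.l 816)))) (T.b (T.a (T.l 1) (T.l 816)) (T.a (T.l 816) (T.l 816)))))), by decide +kernel⟩

def A012R_463 :
    ∃ t, chk3 (onCell 0 67108864 0 1073741824 649613803 48318383 (corT true 1 c0B cA012R gB4q0 gB6q1 gB3q2 gB4q2 true true)) t 1 1 1 = true :=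
  ⟨(T.l 1), by decide +kernel⟩

def A012R_464 :
    ∃ t, chk3 (onCell 0 67108864 0 1073741824 649613803 48318383 (corT true 1 c0B cA012R gB4q0 gB6q1 gB4q2 gB5q2 true false)) t 1 1 1 = true :=
  ⟨(T.l 1), by decide +kernel⟩

def A012R_470 :
    ∃ t, chk3 (onCell 0 67108864 0 1073741824 649613803 48318383 (corT true 1 c0B cA012R gB4q0 gB7q1 gB0q2 gB1q2 true true)) t 1 1 1 = true :=
  ⟨(T.b (T.l 1) (T.b (T.b (T.a (T.l 1) (T.a (T.l 1) (T.b (T.l 1) (T.b (T.l 1) (T.l 816))))) (T.a (T.a (T.l 816) (T.b (T.l 1) (T.l 816))) (T.b (T.a (T.b (T.l 816) (T.l 816)) (T.l 880)) (T.a (T.b (T.l 816) (T.l 816)) (T.b (T.l 816) (T.l 2)))))) (T.a (T.a (T.l 816) (T.b (T.a (T.l 816) (T.l 816)) (T.l 2))) (T.b (T.b (T.a (T.a (T.l 816) (T.l 2)) (T.l 2)) (T.l 2)) (T.l 2))))), by decide +kernel⟩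

def A012R_471 :
    ∃ t, chk3 (onCell 0 67108864 0 1073741824 649613803 48318383 (corT true 1 c0B cA012R gB4q0 gB7q1 gB1q2 gB2q2 true true)) t 1 1 1 = true :=
  ⟨(T.b (T.l 1) (T.b (T.a (T.l 1) (T.b (T.l 1) (T.a (T.b (T.l 1) (T.l 816)) (T.l 816)))) (T.a (T.b (T.l 816) (T.a (T.l 816) (T.a (T.l 816) (T.l 816)))) (T.b (T.a (T.b (T.l 816) (T.l 816)) (T.b (T.l 816) (T.l 816))) (T.a (T.a (T.l 816) (T.l 816)) (T.b (T.l 816) (T.l 2))))))), by decide +kernel⟩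

def A012R_472 :
    ∃ t, chk3 (onCell 0 67108864 0 1073741824 649613803 48318383 (corT true 1 c0B cA012R gB4q0 gB7q1 gB2q2 gB3q2 true true)) t 1 1 1 = true :=
  ⟨(T.b (T.l 1) (T.b (T.l 1) (T.a (T.b (T.l 1) (T.a (T.l 1) (T.b (T.l 1) (T.l 816)))) (T.b (T.a (T.l 1) (T.l 816)) (T.a (T.l 816) (T.l 816)))))), by decide +kernel⟩

def A012R_473 :
    ∃ t, chk3 (onCell 0 67108864 0 1073741824 649613803 48318383 (corT true 1 c0B cA012R gB4q0 gB7q1 gB3q2 gB4q2 true true)) t 1 1 1 = true :=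
  ⟨(T.l 1), by decide +kernel⟩

def A012R_474 :
    ∃ t, chk3 (onCell 0 67108864 0 1073741824 649613803 48318383 (corT true 1 c0B cA012R gB4q0 gB7q1 gB4q2 gB5q2 true false)) t 1 1 1 = true :=
  ⟨(T.l 1), by decide +kernel⟩

def A012R_480 :
    ∃ t, chk3 (onCell 0 67108864 0 1073741824 649613803 48318383 (corT true 1 c0B cA012R gB4q0 gB8q1 gB0q2 gB1q2 true true)) t 1 1 1 = true :=
  ⟨(T.b (T.l 1) (T.b (T.b (T.a (T.l 1) (T.b (T.l 1) (T.a (T.l 816) (T.l 816)))) (T.a (T.a (T.l 816) (T.b (T.l 816) (T.l 816))) (T.b (T.a (T.b (T.l 816) (T.l 816)) (T.b (T.l 816) (T.l 816))) (T.a (T.a (T.l 816) (T.l 816)) (T.l 2))))) (T.a (T.a (T.l 816) (T.b (T.a (T.l 816) (T.l 816)) (T.l 2))) (T.b (T.b (T.l 2) (T.l 2)) (T.l 2))))), by decide +kernel⟩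

def A012R_481 :
    ∃ t, chk3 (onCell 0 67108864 0 1073741824 649613803 48318383 (corT true 1 c0B cA012R gB4q0 gB8q1 gB1q2 gB2q2 true true)) t 1 1 1 = true :=
  ⟨(T.b (T.l 1) (T.b (T.a (T.l 816) (T.b (T.l 1) (T.a (T.b (T.l 816) (T.l 816)) (T.l 816)))) (T.a (T.b (T.l 816) (T.a (T.l 816) (T.a (T.l 816) (T.l 816)))) (T.b (T.a (T.b (T.l 816) (T.l 816)) (T.b (T.l 816) (T.l 816))) (T.a (T.a (T.l 816) (T.l 816)) (T.b (T.l 816) (T.l 2))))))), by decide +kernel⟩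

def A012R_482 :
    ∃ t, chk3 (onCell 0 67108864 0 1073741824 649613803 48318383 (corT true 1 c0B cA012R gB4q0 gB8q1 gB2q2 gB3q2 true true)) t 1 1 1 = true :=
  ⟨(T.b (T.l 1) (T.b (T.l 1) (T.a (T.b (T.l 1) (T.a (T.l 1) (T.b (T.l 1) (T.l 816)))) (T.b (T.a (T.l 1) (T.l 816)) (T.a (T.l 816) (T.l 816)))))), by decide +kernel⟩

def A012R_483 :
    ∃ t, chk3 (onCell 0 67108864 0 1073741824 649613803 48318383 (corT true 1 c0B cA012R gB4q0 gB8q1 gB3q2 gB4q2 true true)) t 1 1 1 = true :=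
  ⟨(T.l 1), by decide +kernel⟩

def A012R_484 :
    ∃ t, chk3 (onCell 0 67108864 0 1073741824 649613803 48318383 (corT true 1 c0B cA012R gB4q0 gB8q1 gB4q2 gB5q2 true false)) t 1 1 1 = true :=
  ⟨(T.l 1), by decide +kernel⟩

def A022E_000 :
    ∃ t, chk3 (onCell 0 67108864 0 1073741824 649613803 48318383 (corT true 1 c0B cA022E gB0q0 gB0q2 gB0q2 gB1q2 true true)) t 1 1 1 = true :=
  ⟨(T.l 2), by decide +kernel⟩

def A022E_001 :
    ∃ t, chk3 (onCell 0 67108864 0 1073741824 649613803 48318383 (corT true 1 c0B cA022E gB0q0 gB0q2 gB1q2 gB2q2 true true)) t 1 1 1 = true :=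
  ⟨(T.l 2), by decide +kernel⟩

def A022E_002 :
    ∃ t, chk3 (onCell 0 67108864 0 1073741824 649613803 48318383 (corT true 1 c0B cA022E gB0q0 gB0q2 gB2q2 gB3q2 true true)) t 1 1 1 = true :=
  ⟨(T.l 2), by decide +kernel⟩

def A022E_003 :
    ∃ t, chk3 (onCell 0 67108864 0 1073741824 649613803 48318383 (corT true 1 c0B cA022E gB0q0 gB0q2 gB3q2 gB4q2 true true)) t 1 1 1 = true :=
  ⟨(T.b (T.l 2) (T.l 2)), by decide +kernel⟩

def A022E_004 :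
    ∃ t, chk3 (onCell 0 67108864 0 1073741824 649613803 48318383 (corT true 1 c0B cA022E gB0q0 gB0q2 gB4q2 gB5q2 true false)) t 1 1 1 = true :=
  ⟨(T.b (T.b (T.b (T.a (T.a (T.l 204) (T.a (T.b (T.l 204) (T.l 204)) (T.a (T.l 204) (T.l 204)))) (T.a (T.a (T.b (T.l 204) (T.l 204)) (T.b (T.l 204) (T.l 204))) (T.a (T.l 204) (T.l 204)))) (T.a (T.a (T.l 204) (T.a (T.b (T.l 204) (T.l 204)) (T.l 204))) (T.a (T.a (T.b (T.l 204) (T.l 204)) (T.l 204)) (T.a (T.l 204) (T.l 204))))) (T.b (T.a (T.a (T.l 204) (T.a (T.l 204) (T.l 204))) (T.a (T.a (T.l 204) (T.l 0)) (T.b (T.l 0) (T.l 0)))) (T.a (T.a (T.l 204) (T.a (T.l 204) (T.l 204))) (T.a (T.b (T.l 0) (T.l 0)) (T.b (T.l 0) (T.l 0)))))) (T.b (T.b (T.a (T.a (T.l 0) (T.l 0)) (T.a (T.b (T.l 0) (T.l 0)) (T.b (T.l 0) (T.l 0)))) (T.a (T.a (T.l 0) (T.l 0)) (T.a (T.l 0) (T.b (T.l 0) (T.l 0))))) (T.a (T.a (T.l 0) (T.a (T.l 0) (T.a (T.l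 816) (T.l 0)))) (T.a (T.b (T.l 0) (T.a (T.l 816) (T.l 816))) (T.b (T.l 0) (T.c (T.l 880) (T.l 816))))))), by decide +kernel⟩

def A022E_010 :
    ∃ t, chk3 (onCell 0 67108864 0 1073741824 649613803 48318383 (corT true 1 c0B cA022E gB0q0 gB1q2 gB0q2 gB1q2 true true)) t 1 1 1 = true :=
  ⟨(T.l 2), by decide +kernel⟩

def A022E_011 :
    ∃ t, chk3 (onCell 0 67108864 0 1073741824 649613803 48318383 (corT true 1 c0B cA022E gB0q0 gB1q2 gB1q2 gB2q2 true true)) t 1 1 1 = true :=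
  ⟨(T.l 2), by decide +kernel⟩

def A022E_012 :
    ∃ t, chk3 (onCell 0 67108864 0 1073741824 649613803 48318383 (corT true 1 c0B cA022E gB0q0 gB1q2 gB2q2 gB3q2 true true)) t 1 1 1 = true :=
  ⟨(T.l 2), by decide +kernel⟩

def A022E_013 :
    ∃ t, chk3 (onCell 0 67108864 0 1073741824 649613803 48318383 (corT true 1 c0B cA022E gB0q0 gB1q2 gB3q2 gB4q2 true true)) t 1 1 1 = true :=
  ⟨(T.b (T.l 2) (T.l 2)), by decide +kernel⟩

def A022E_014 :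
    ∃ t, chk3 (onCell 0 67108864 0 1073741824 649613803 48318383 (corT true 1 c0B cA022E gB0q0 gB1q2 gB4q2 gB5q2 true false)) t 1 1 1 = true :=
  ⟨(T.b (T.b (T.a (T.a (T.l 204) (T.a (T.l 204) (T.a (T.l 204) (T.b (T.l 204) (T.l 204))))) (T.a (T.a (T.b (T.b (T.l 204) (T.l 204)) (T.l 204)) (T.b (T.l 204) (T.l 204))) (T.b (T.a (T.l 204) (T.l 204)) (T.b (T.l 204) (T.l 204))))) (T.b (T.a (T.a (T.l 204) (T.l 204)) (T.a (T.a (T.l 204) (T.l 0)) (T.b (T.l 204) (T.l 0)))) (T.a (T.a (T.l 204) (T.l 0)) (T.a (T.l 0) (T.b (T.l 0) (T.l 0)))))) (T.b (T.b (T.a (T.a (T.l 0) (T.l 0)) (T.a (T.l 0) (T.l 20))) (T.a (T.a (T.l 0) (T.l 0)) (T.a (T.l 0) (T.l 0)))) (T.a (T.a (T.l 0) (T.a (T.l 0) (T.c (T.l 816) (T.l 0)))) (T.a (T.a (T.l 0) (T.b (T.l 816) (T.l 816))) (T.b (T.l 0) (T.c (T.l 816) (T.l 816))))))), by decide +kernel⟩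

def A022E_020 :
    ∃ t, chk3 (onCell 0 67108864 0 1073741824 649613803 48318383 (corT true 1 c0B cA022E gB0q0 gB2q2 gB0q2 gB1q2 true true)) t 1 1 1 = true :=
  ⟨(T.l 2), by decide +kernel⟩

def A022E_021 :
    ∃ t, chk3 (onCell 0 67108864 0 1073741824 649613803 48318383 (corT true 1 c0B cA022E gB0q0 gB2q2 gB1q2 gB2q2 true true)) t 1 1 1 = true :=
  ⟨(T.l 2), by decide +kernel⟩

def A022E_022 :
    ∃ t, chk3 (onCell 0 67108864 0 1073741824 649613803 48318383 (corT true 1 c0B cA022E gB0q0 gB2q2 gB2q2 gB3q2 true true)) t 1 1 1 = true :=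
  ⟨(T.l 2), by decide +kernel⟩

def A022E_023 :
    ∃ t, chk3 (onCell 0 67108864 0 1073741824 649613803 48318383 (corT true 1 c0B cA022E gB0q0 gB2q2 gB3q2 gB4q2 true true)) t 1 1 1 = true :=
  ⟨(T.l 2), by decide +kernel⟩

def A022E_024 :
    ∃ t, chk3 (onCell 0 67108864 0 1073741824 649613803 48318383 (corT true 1 c0B cA022E gB0q0 gB2q2 gB4q2 gB5q2 true false)) t 1 1 1 = true :=
  ⟨(T.b (T.b (T.a (T.a (T.l 204) (T.a (T.l 204) (T.a (T.l 204) (T.b (T.l 204) (T.l 204))))) (T.a (T.a (T.b (T.l 204) (T.l 204)) (T.b (T.l 204) (T.l 204))) (T.b (T.a (T.l 204) (T.l 204)) (T.b (T.l 204) (T.l 204))))) (T.a (T.a (T.l 204) (T.l 0)) (T.a (T.a (T.l 204) (T.b (T.l 204) (T.l 204))) (T.b (T.b (T.l 204) (T.l 204)) (T.l 0))))) (T.b (T.b (T.a (T.a (T.l 204) (T.l 0)) (T.a (T.l 0) (T.l 0))) (T.a (T.a (T.l 0) (T.l 0)) (T.a (T.l 0) (T.l 0)))) (T.a (T.a (T.l 0) (T.a (T.l 0) (T.c (T.l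 0) (T.l 0)))) (T.a (T.a (T.l 0) (T.b (T.l 0) (T.l 816))) (T.b (T.l 0) (T.c (T.l 816) (T.l 816))))))), by decide +kernel⟩

def A022E_030 :
    ∃ t, chk3 (onCell 0 67108864 0 1073741824 649613803 48318383 (corT true 1 c0B cA022E gB0q0 gB3q2 gB0q2 gB1q2 true true)) t 1 1 1 = true :=
  ⟨(T.l 2), by decide +kernel⟩

def A022E_031 :
    ∃ t, chk3 (onCell 0 67108864 0 1073741824 649613803 48318383 (corT true 1 c0B cA022E gB0q0 gB3q2 gB1q2 gB2q2 true true)) t 1 1 1 = true :=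
  ⟨(T.l 2), by decide +kernel⟩

def A022E_032 :
    ∃ t, chk3 (onCell 0 67108864 0 1073741824 649613803 48318383 (corT true 1 c0B cA022E gB0q0 gB3q2 gB2q2 gB3q2 true true)) t 1 1 1 = true :=
  ⟨(T.l 2), by decide +kernel⟩

def A022E_033 :
    ∃ t, chk3 (onCell 0 67108864 0 1073741824 649613803 48318383 (corT true 1 c0B cA022E gB0q0 gB3q2 gB3q2 gB4q2 true true)) t 1 1 1 = true :=
  ⟨(T.l 2), by decide +kernel⟩

def A022E_034 :
    ∃ t, chk3 (onCell 0 67108864 0 1073741824 649613803 48318383 (corT true 1 c0B cA022E gB0q0 gB3q2 gB4q2 gB5q2 true false)) t 1 1 1 = true :=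
  ⟨(T.b (T.b (T.a (T.a (T.l 204) (T.a (T.l 204) (T.b (T.l 204) (T.l 204)))) (T.a (T.a (T.b (T.l 204) (T.l 204)) (T.b (T.l 204) (T.l 204))) (T.b (T.a (T.l 204) (T.l 204)) (T.b (T.l 204) (T.l 204))))) (T.a (T.a (T.l 204) (T.l 0)) (T.a (T.a (T.l 204) (T.b (T.l 204) (T.l 204))) (T.b (T.l 204) (T.l 0))))) (T.b (T.b (T.a (T.a (T.l 204) (T.l 0)) (T.a (T.l 0) (T.l 0))) (T.a (T.a (T.l 0) (T.l 0)) (T.a (T.l 0) (T.l 0)))) (T.a (T.a (T.l 0) (T.a (T.l 0) (T.c (T.l 0) (T.l 0)))) (T.a (T.a (T.l 0) (T.b (T.l 0) (T.l 816))) (T.b (T.l 0) (T.c (T.l 816) (T.l 816))))))), by decide +kernel⟩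

def A022E_040 :
    ∃ t, chk3 (onCell 0 67108864 0 1073741824 649613803 48318383 (corT true 1 c0B cA022E gB0q0 gB4q2 gB0q2 gB1q2 true true)) t 1 1 1 = true :=
  ⟨(T.l 2), by decide +kernel⟩

def A022E_041 :
    ∃ t, chk3 (onCell 0 67108864 0 1073741824 649613803 48318383 (corT true 1 c0B cA022E gB0q0 gB4q2 gB1q2 gB2q2 true true)) t 1 1 1 = true :=
  ⟨(T.l 2), by decide +kernel⟩

def A022E_042 :
    ∃ t, chk3 (onCell 0 67108864 0 1073741824 649613803 48318383 (corT true 1 c0B cA022E gB0q0 gB4q2 gB2q2 gB3q2 true true)) t 1 1 1 = true :=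
  ⟨(T.l 2), by decide +kernel⟩

def A022E_043 :
    ∃ t, chk3 (onCell 0 67108864 0 1073741824 649613803 48318383 (corT true 1 c0B cA022E gB0q0 gB4q2 gB3q2 gB4q2 true true)) t 1 1 1 = true :=
  ⟨(T.l 2), by decide +kernel⟩

def A022E_044 :
    ∃ t, chk3 (onCell 0 67108864 0 1073741824 649613803 48318383 (corT true 1 c0B cA022E gB0q0 gB4q2 gB4q2 gB5q2 true false)) t 1 1 1 = true :=
  ⟨(T.b (T.b (T.a (T.a (T.l 204) (T.a (T.l 204) (T.b (T.l 204) (T.l 204)))) (T.a (T.a (T.l 204) (T.l 204)) (T.b (T.l 204) (T.l 204)))) (T.a (T.a (T.l 204) (T.l 0)) (T.a (T.b (T.l 204) (T.l 204)) (T.b (T.l 204) (T.l 204))))) (T.b (T.b (T.a (T.a (T.l 204) (T.l 0)) (T.a (T.l 0) (T.l 0))) (T.a (T.a (T.l 0) (T.l 0)) (T.a (T.l 0) (T.l 0)))) (T.a (T.a (T.l 0) (T.a (T.l 0) (T.c (T.l 816) (T.l 0)))) (T.a (T.a (T.l 0) (T.b (T.l 0) (T.l 816))) (T.a (T.b (T.l 0) (T.l 816)) (T.l 64)))))), by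 decide +kernel⟩

def A022E_110 :
    ∃ t, chk3 (onCell 0 67108864 0 1073741824 649613803 48318383 (corT true 1 c0B cA022E gB1q0 gB1q2 gB0q2 gB1q2 true true)) t 1 1 1 = true :=
  ⟨(T.l 2), by decide +kernel⟩

def A022E_111 :
    ∃ t, chk3 (onCell 0 67108864 0 1073741824 649613803 48318383 (corT true 1 c0B cA022E gB1q0 gB1q2 gB1q2 gB2q2 true true)) t 1 1 1 = true :=
  ⟨(T.l 2), by decide +kernel⟩

def A022E_112 :
    ∃ t, chk3 (onCell 0 67108864 0 1073741824 649613803 48318383 (corT true 1 c0B cA022E gB1q0 gB1q2 gB2q2 gB3q2 true true)) t 1 1 1 = true :=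
  ⟨(T.l 2), by decide +kernel⟩

def A022E_113 :
    ∃ t, chk3 (onCell 0 67108864 0 1073741824 649613803 48318383 (corT true 1 c0B cA022E gB1q0 gB1q2 gB3q2 gB4q2 true true)) t 1 1 1 = true :=
  ⟨(T.l 2), by decide +kernel⟩

def A022E_114 :
    ∃ t, chk3 (onCell 0 67108864 0 1073741824 649613803 48318383 (corT true 1 c0B cA022E gB1q0 gB1q2 gB4q2 gB5q2 true false)) t 1 1 1 = true :=
  ⟨(T.b (T.b (T.a (T.a (T.l 204) (T.a (T.l 204) (T.a (T.l 204) (T.b (T.l 204) (T.l 204))))) (T.a (T.a (T.b (T.b (T.l 204) (T.l 204)) (T.l 204)) (T.b (T.l 204) (T.l 204))) (T.b (T.a (T.l 204) (T.l 204)) (T.b (T.l 204) (T.l 204))))) (T.b (T.a (T.a (T.l 204) (T.l 204)) (T.a (T.a (T.l 204) (T.l 0)) (T.b (T.l 0) (T.l 0)))) (T.a (T.a (T.l 204) (T.l 0)) (T.a (T.l 0) (T.l 0))))) (T.b (T.b (T.a (T.a (T.l 0) (T.l 0)) (T.a (T.l 0) (T.l 0))) (T.a (T.a (T.l 0) (T.l 0)) (T.l 0))) (T.a (T.a (T.l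 0) (T.c (T.l 64) (T.l 0))) (T.a (T.l 0) (T.l 816))))), by decide +kernel⟩

def A022E_120 :
    ∃ t, chk3 (onCell 0 67108864 0 1073741824 649613803 48318383 (corT true 1 c0B cA022E gB1q0 gB2q2 gB0q2 gB1q2 true true)) t 1 1 1 = true :=
  ⟨(T.l 2), by decide +kernel⟩

def A022E_121 :
    ∃ t, chk3 (onCell 0 67108864 0 1073741824 649613803 48318383 (corT true 1 c0B cA022E gB1q0 gB2q2 gB1q2 gB2q2 true true)) t 1 1 1 = true :=
  ⟨(T.l 2), by decide +kernel⟩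

def A022E_122 :
    ∃ t, chk3 (onCell 0 67108864 0 1073741824 649613803 48318383 (corT true 1 c0B cA022E gB1q0 gB2q2 gB2q2 gB3q2 true true)) t 1 1 1 = true :=
  ⟨(T.l 2), by decide +kernel⟩

def A022E_123 :
    ∃ t, chk3 (onCell 0 67108864 0 1073741824 649613803 48318383 (corT true 1 c0B cA022E gB1q0 gB2q2 gB3q2 gB4q2 true true)) t 1 1 1 = true :=
  ⟨(T.l 2), by decide +kernel⟩

def A022E_124 :
    ∃ t, chk3 (onCell 0 67108864 0 1073741824 649613803 48318383 (corT true 1 c0B cA022E gB1q0 gB2q2 gB4q2 gB5q2 true false)) t 1 1 1 = true :=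
  ⟨(T.b (T.b (T.a (T.a (T.l 204) (T.a (T.l 204) (T.a (T.l 204) (T.b (T.l 204) (T.l 204))))) (T.a (T.a (T.b (T.l 204) (T.l 204)) (T.b (T.l 204) (T.l 204))) (T.b (T.a (T.l 204) (T.l 204)) (T.b (T.l 204) (T.l 204))))) (T.a (T.a (T.l 204) (T.l 0)) (T.a (T.a (T.l 204) (T.b (T.l 204) (T.l 204))) (T.b (T.l 0) (T.l 0))))) (T.b (T.b (T.a (T.a (T.l 0) (T.l 0)) (T.a (T.l 0) (T.l 0))) (T.a (T.a (T.l 0) (T.l 0)) (T.l 0))) (T.a (T.a (T.l 0) (T.c (T.l 0) (T.l 0))) (T.a (T.l 0) (T.l 0))))), by decide +kernel⟩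

def A022E_130 :
    ∃ t, chk3 (onCell 0 67108864 0 1073741824 649613803 48318383 (corT true 1 c0B cA022E gB1q0 gB3q2 gB0q2 gB1q2 true true)) t 1 1 1 = true :=
  ⟨(T.l 2), by decide +kernel⟩

def A022E_131 :
    ∃ t, chk3 (onCell 0 67108864 0 1073741824 649613803 48318383 (corT true 1 c0B cA022E gB1q0 gB3q2 gB1q2 gB2q2 true true)) t 1 1 1 = true :=
  ⟨(T.l 2), by decide +kernel⟩

def A022E_132 :
    ∃ t, chk3 (onCell 0 67108864 0 1073741824 649613803 48318383 (corT true 1 c0B cA022E gB1q0 gB3q2 gB2q2 gB3q2 true true)) t 1 1 1 = true :=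
  ⟨(T.l 2), by decide +kernel⟩

def A022E_133 :
    ∃ t, chk3 (onCell 0 67108864 0 1073741824 649613803 48318383 (corT true 1 c0B cA022E gB1q0 gB3q2 gB3q2 gB4q2 true true)) t 1 1 1 = true :=
  ⟨(T.l 2), by decide +kernel⟩

def A022E_134 :
    ∃ t, chk3 (onCell 0 67108864 0 1073741824 649613803 48318383 (corT true 1 c0B cA022E gB1q0 gB3q2 gB4q2 gB5q2 true false)) t 1 1 1 = true :=
  ⟨(T.b (T.b (T.a (T.a (T.l 204) (T.a (T.l 204) (T.b (T.l 204) (T.l 204)))) (T.a (T.a (T.b (T.l 204) (T.l 204)) (T.b (T.l 204) (T.l 204))) (T.b (T.a (T.l 204) (T.l 204)) (T.l 204)))) (T.a (T.a (T.l 204) (T.l 0)) (T.a (T.a (T.l 204) (T.b (T.l 204) (T.l 204))) (T.b (T.l 204) (T.l 0))))) (T.b (T.b (T.a (T.a (T.l 204) (T.l 0)) (T.a (T.l 0) (T.l 0))) (T.a (T.a (T.l 0) (T.l 0)) (T.l 0))) (T.a (T.a (T.l 0) (T.c (T.l 0) (T.l 0))) (T.a (T.l 0) (T.l 0))))), by decide +kernel⟩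

def A022E_140 :
    ∃ t, chk3 (onCell 0 67108864 0 1073741824 649613803 48318383 (corT true 1 c0B cA022E gB1q0 gB4q2 gB0q2 gB1q2 true true)) t 1 1 1 = true :=
  ⟨(T.l 2), by decide +kernel⟩

def A022E_141 :
    ∃ t, chk3 (onCell 0 67108864 0 1073741824 649613803 48318383 (corT true 1 c0B cA022E gB1q0 gB4q2 gB1q2 gB2q2 true true)) t 1 1 1 = true :=
  ⟨(T.l 2), by decide +kernel⟩

def A022E_142 :
    ∃ t, chk3 (onCell 0 67108864 0 1073741824 649613803 48318383 (corT true 1 c0B cA022E gB1q0 gB4q2 gB2q2 gB3q2 true true)) t 1 1 1 = true :=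
  ⟨(T.l 2), by decide +kernel⟩

def A022E_143 :
    ∃ t, chk3 (onCell 0 67108864 0 1073741824 649613803 48318383 (corT true 1 c0B cA022E gB1q0 gB4q2 gB3q2 gB4q2 true true)) t 1 1 1 = true :=
  ⟨(T.l 2), by decide +kernel⟩

def A022E_144 :
    ∃ t, chk3 (onCell 0 67108864 0 1073741824 649613803 48318383 (corT true 1 c0B cA022E gB1q0 gB4q2 gB4q2 gB5q2 true false)) t 1 1 1 = true :=
  ⟨(T.b (T.b (T.a (T.a (T.l 204) (T.a (T.l 204) (T.b (T.l 204) (T.l 204)))) (T.a (T.a (T.l 204) (T.l 204)) (T.b (T.l 204) (T.l 204)))) (T.a (T.a (T.l 204) (T.l 0)) (T.a (T.b (T.l 204) (T.l 204)) (T.l 256)))) (T.b (T.a (T.a (T.l 0) (T.l 0)) (T.a (T.l 0) (T.b (T.l 0) (T.l 0)))) (T.a (T.a (T.l 0) (T.c (T.l 0) (T.l 0))) (T.a (T.l 0) (T.l 0))))), by decide +kernel⟩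

def A022E_220 :
    ∃ t, chk3 (onCell 0 67108864 0 1073741824 649613803 48318383 (corT true 1 c0B cA022E gB2q0 gB2q2 gB0q2 gB1q2 true true)) t 1 1 1 = true :=
  ⟨(T.l 2), by decide +kernel⟩

def A022E_221 :
    ∃ t, chk3 (onCell 0 67108864 0 1073741824 649613803 48318383 (corT true 1 c0B cA022E gB2q0 gB2q2 gB1q2 gB2q2 true true)) t 1 1 1 = true :=
  ⟨(T.l 2), by decide +kernel⟩

def A022E_222 :
    ∃ t, chk3 (onCell 0 67108864 0 1073741824 649613803 48318383 (corT true 1 c0B cA022E gB2q0 gB2q2 gB2q2 gB3q2 true true)) t 1 1 1 = true :=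
  ⟨(T.l 2), by decide +kernel⟩

def A022E_223 :
    ∃ t, chk3 (onCell 0 67108864 0 1073741824 649613803 48318383 (corT true 1 c0B cA022E gB2q0 gB2q2 gB3q2 gB4q2 true true)) t 1 1 1 = true :=
  ⟨(T.l 2), by decide +kernel⟩

def A022E_224 :
    ∃ t, chk3 (onCell 0 67108864 0 1073741824 649613803 48318383 (corT true 1 c0B cA022E gB2q0 gB2q2 gB4q2 gB5q2 true false)) t 1 1 1 = true :=
  ⟨(T.b (T.b (T.a (T.a (T.l 204) (T.a (T.l 204) (T.a (T.l 204) (T.b (T.l 204) (T.l 204))))) (T.a (T.a (T.b (T.l 204) (T.l 204)) (T.b (T.l 204) (T.l 204))) (T.b (T.a (T.l 204) (T.l 204)) (T.l 204)))) (T.a (T.a (T.l 204) (T.l 0)) (T.a (T.a (T.l 0) (T.l 0)) (T.b (T.l 0) (T.l 0))))) (T.b (T.b (T.a (T.a (T.l 0) (T.l 0)) (T.a (T.l 0) (T.l 0))) (T.a (T.a (T.l 0) (T.l 0)) (T.l 0))) (T.a (T.a (T.l 816) (T.l 0)) (T.l 0)))), by decide +kernel⟩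

def A022E_230 :
    ∃ t, chk3 (onCell 0 67108864 0 1073741824 649613803 48318383 (corT true 1 c0B cA022E gB2q0 gB3q2 gB0q2 gB1q2 true true)) t 1 1 1 = true :=
  ⟨(T.l 2), by decide +kernel⟩

def A022E_231 :
    ∃ t, chk3 (onCell 0 67108864 0 1073741824 649613803 48318383 (corT true 1 c0B cA022E gB2q0 gB3q2 gB1q2 gB2q2 true true)) t 1 1 1 = true :=
  ⟨(T.l 2), by decide +kernel⟩

def A022E_232 :
    ∃ t, chk3 (onCell 0 67108864 0 1073741824 649613803 48318383 (corT true 1 c0B cA022E gB2q0 gB3q2 gB2q2 gB3q2 true true)) t 1 1 1 = true :=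
  ⟨(T.l 2), by decide +kernel⟩

def A022E_233 :
    ∃ t, chk3 (onCell 0 67108864 0 1073741824 649613803 48318383 (corT true 1 c0B cA022E gB2q0 gB3q2 gB3q2 gB4q2 true true)) t 1 1 1 = true :=
  ⟨(T.l 2), by decide +kernel⟩

def A022E_234 :
    ∃ t, chk3 (onCell 0 67108864 0 1073741824 649613803 48318383 (corT true 1 c0B cA022E gB2q0 gB3q2 gB4q2 gB5q2 true false)) t 1 1 1 = true :=
  ⟨(T.b (T.b (T.a (T.a (T.l 204) (T.a (T.l 204) (T.b (T.l 204) (T.l 204)))) (T.a (T.a (T.b (T.l 204) (T.l 204)) (T.b (T.l 204) (T.l 204))) (T.b (T.a (T.l 204) (T.l 204)) (T.l 204)))) (T.a (T.a (T.l 204) (T.l 0)) (T.a (T.b (T.l 0) (T.l 0)) (T.b (T.l 0) (T.l 0))))) (T.b (T.b (T.a (T.a (T.l 0) (T.l 0)) (T.a (T.l 0) (T.l 0))) (T.a (T.a (T.l 0) (T.l 0)) (T.l 0))) (T.a (T.a (T.l 816) (T.l 0)) (T.l 0)))), by decide +kernel⟩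

def A022E_240 :
    ∃ t, chk3 (onCell 0 67108864 0 1073741824 649613803 48318383 (corT true 1 c0B cA022E gB2q0 gB4q2 gB0q2 gB1q2 true true)) t 1 1 1 = true :=
  ⟨(T.l 2), by decide +kernel⟩

def A022E_241 :
    ∃ t, chk3 (onCell 0 67108864 0 1073741824 649613803 48318383 (corT true 1 c0B cA022E gB2q0 gB4q2 gB1q2 gB2q2 true true)) t 1 1 1 = true :=
  ⟨(T.l 2), by decide +kernel⟩

def A022E_242 :
    ∃ t, chk3 (onCell 0 67108864 0 1073741824 649613803 48318383 (corT true 1 c0B cA022E gB2q0 gB4q2 gB2q2 gB3q2 true true)) t 1 1 1 = true :=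
  ⟨(T.l 2), by decide +kernel⟩

def A022E_243 :
    ∃ t, chk3 (onCell 0 67108864 0 1073741824 649613803 48318383 (corT true 1 c0B cA022E gB2q0 gB4q2 gB3q2 gB4q2 true true)) t 1 1 1 = true :=
  ⟨(T.l 2), by decide +kernel⟩

def A022E_244 :
    ∃ t, chk3 (onCell 0 67108864 0 1073741824 649613803 48318383 (corT true 1 c0B cA022E gB2q0 gB4q2 gB4q2 gB5q2 true false)) t 1 1 1 = true :=
  ⟨(T.b (T.a (T.a (T.l 0) (T.a (T.l 0) (T.b (T.b (T.l 204) (T.l 204)) (T.l 0)))) (T.b (T.a (T.a (T.l 204) (T.l 204)) (T.b (T.l 204) (T.l 204))) (T.a (T.b (T.l 0) (T.l 0)) (T.l 0)))) (T.b (T.a (T.a (T.l 0) (T.l 0)) (T.a (T.l 0) (T.b (T.l 0) (T.l 0)))) (T.a (T.a (T.l 816) (T.l 0)) (T.l 0)))), by decide +kernel⟩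

def A022E_330 :
    ∃ t, chk3 (onCell 0 67108864 0 1073741824 649613803 48318383 (corT true 1 c0B cA022E gB3q0 gB3q2 gB0q2 gB1q2 true true)) t 1 1 1 = true :=
  ⟨(T.l 2), by decide +kernel⟩

def A022E_331 :
    ∃ t, chk3 (onCell 0 67108864 0 1073741824 649613803 48318383 (corT true 1 c0B cA022E gB3q0 gB3q2 gB1q2 gB2q2 true true)) t 1 1 1 = true :=
  ⟨(T.l 2), by decide +kernel⟩

def A022E_332 :
    ∃ t, chk3 (onCell 0 67108864 0 1073741824 649613803 48318383 (corT true 1 c0B cA022E gB3q0 gB3q2 gB2q2 gB3q2 true true)) t 1 1 1 = true :=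
  ⟨(T.l 2), by decide +kernel⟩

def A022E_333 :
    ∃ t, chk3 (onCell 0 67108864 0 1073741824 649613803 48318383 (corT true 1 c0B cA022E gB3q0 gB3q2 gB3q2 gB4q2 true true)) t 1 1 1 = true :=
  ⟨(T.l 2), by decide +kernel⟩

def A022E_334 :
    ∃ t, chk3 (onCell 0 67108864 0 1073741824 649613803 48318383 (corT true 1 c0B cA022E gB3q0 gB3q2 gB4q2 gB5q2 true false)) t 1 1 1 = true :=
  ⟨(T.b (T.a (T.a (T.l 0) (T.b (T.a (T.l 204) (T.b (T.l 204) (T.l 204))) (T.l 0))) (T.b (T.a (T.b (T.a (T.l 204) (T.l 204)) (T.l 0)) (T.b (T.a (T.l 204) (T.l 204)) (T.l 204))) (T.a (T.b (T.l 0) (T.l 0)) (T.b (T.l 0) (T.l 0))))) (T.b (T.a (T.a (T.l 0) (T.l 0)) (T.a (T.l 0) (T.b (T.l 0) (T.l 816)))) (T.a (T.a (T.l 816) (T.l 0)) (T.l 0)))), by decide +kernel⟩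

def A022E_340 :
    ∃ t, chk3 (onCell 0 67108864 0 1073741824 649613803 48318383 (corT true 1 c0B cA022E gB3q0 gB4q2 gB0q2 gB1q2 true true)) t 1 1 1 = true :=
  ⟨(T.l 2), by decide +kernel⟩

def A022E_341 :
    ∃ t, chk3 (onCell 0 67108864 0 1073741824 649613803 48318383 (corT true 1 c0B cA022E gB3q0 gB4q2 gB1q2 gB2q2 true true)) t 1 1 1 = true :=
  ⟨(T.l 2), by decide +kernel⟩

def A022E_342 :
    ∃ t, chk3 (onCell 0 67108864 0 1073741824 649613803 48318383 (corT true 1 c0B cA022E gB3q0 gB4q2 gB2q2 gB3q2 true true)) t 1 1 1 = true :=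
  ⟨(T.l 2), by decide +kernel⟩

def A022E_343 :
    ∃ t, chk3 (onCell 0 67108864 0 1073741824 649613803 48318383 (corT true 1 c0B cA022E gB3q0 gB4q2 gB3q2 gB4q2 true true)) t 1 1 1 = true :=
  ⟨(T.l 2), by decide +kernel⟩

def A022E_344 :
    ∃ t, chk3 (onCell 0 67108864 0 1073741824 649613803 48318383 (corT true 1 c0B cA022E gB3q0 gB4q2 gB4q2 gB5q2 true false)) t 1 1 1 = true :=
  ⟨(T.b (T.b (T.a (T.a (T.l 204) (T.a (T.l 204) (T.b (T.l 204) (T.l 204)))) (T.a (T.a (T.l 204) (T.l 204)) (T.b (T.l 204) (T.l 204)))) (T.a (T.a (T.l 0) (T.l 0)) (T.a (T.l 0) (T.l 0)))) (T.b (T.a (T.a (T.l 0) (T.l 0)) (T.b (T.l 0) (T.l 0))) (T.a (T.a (T.l 816) (T.l 0)) (T.l 0)))), by decide +kernel⟩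

def A022E_440 :
    ∃ t, chk3 (onCell 0 67108864 0 1073741824 649613803 48318383 (corT true 1 c0B cA022E gB4q0 gB4q2 gB0q2 gB1q2 true true)) t 1 1 1 = true :=
  ⟨(T.l 2), by decide +kernel⟩

def A022E_441 :
    ∃ t, chk3 (onCell 0 67108864 0 1073741824 649613803 48318383 (corT true 1 c0B cA022E gB4q0 gB4q2 gB1q2 gB2q2 true true)) t 1 1 1 = true :=
  ⟨(T.l 2), by decide +kernel⟩

def A022E_442 :
    ∃ t, chk3 (onCell 0 67108864 0 1073741824 649613803 48318383 (corT true 1 c0B cA022E gB4q0 gB4q2 gB2q2 gB3q2 true true)) t 1 1 1 = true :=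
  ⟨(T.l 2), by decide +kernel⟩

def A022E_443 :
    ∃ t, chk3 (onCell 0 67108864 0 1073741824 649613803 48318383 (corT true 1 c0B cA022E gB4q0 gB4q2 gB3q2 gB4q2 true true)) t 1 1 1 = true :=
  ⟨(T.l 2), by decide +kernel⟩

def A022E_444 :
    ∃ t, chk3 (onCell 0 67108864 0 1073741824 649613803 48318383 (corT true 1 c0B cA022E gB4q0 gB4q2 gB4q2 gB5q2 true false)) t 1 1 1 = true :=
  ⟨(T.b (T.b (T.a (T.a (T.l 204) (T.a (T.l 204) (T.b (T.l 204) (T.l 204)))) (T.a (T.a (T.b (T.l 204) (T.l 204)) (T.l 0)) (T.b (T.l 204) (T.l 0)))) (T.a (T.a (T.l 0) (T.l 0)) (T.b (T.l 0) (T.l 0)))) (T.b (T.a (T.a (T.l 0) (T.l 0)) (T.b (T.l 0) (T.l 0))) (T.a (T.a (T.l 816) (T.l 816)) (T.l 816)))), by decide +kernel⟩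

def A022L_007 :
    ∃ t, chk3 (onCell 0 53687091 0 1073741824 649613803 48318383 (corX 1 c0B cA022L tA022L gB0q0 gB0q2 gB7q2 gB8q2 gB8q2 false true)) t 1 1 1 = true :=
  ⟨(T.b (T.a (T.a (T.b (T.l 207) (T.l 207)) (T.a (T.b (T.l 207) (T.l 207)) (T.b (T.b (T.a (T.l 204) (T.l 204)) (T.a (T.l 207) (T.b (T.l 204) (T.l 204)))) (T.l 207)))) (T.b (T.a (T.a (T.b (T.a (T.l 204) (T.l 204)) (T.b (T.l 204) (T.l 204))) (T.b (T.b (T.b (T.l 204) (T.l 204)) (T.l 204)) (T.b (T.l 204) (T.l 204)))) (T.b (T.a (T.b (T.l 204) (T.l 204)) (T.b (T.l 204) (T.l 204))) (T.a (T.b (T.l 204) (T.l 204)) (T.b (T.l 204) (T.l 204))))) (T.a (T.b (T.a (T.b (T.l 220) (T.b (T.l 204) (T.l 204))) (T.b (T.l 204) (T.l 204))) (T.a (T.b (T.b (T.l 204) (T.l 207)) (T.l 207)) (T.b (T.b (T.l 204) (T.l 204)) (T.b (T.l 204) (T.l 204))))) (T.b (T.a (T.b (T.l 204) (T.l 204)) (T.b (T.l 220) (T.l 204))) (T.b (T.a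 (T.l 204) (T.b (T.l 204) (T.l 204))) (T.a (T.b (T.l 204) (T.l 204)) (T.b (T.l 204) (T.l 204)))))))) (T.b (T.a (T.a (T.l 207) (T.l 207)) (T.b (T.a (T.l 207) (T.b (T.a (T.b (T.l 204) (T.c (T.l 204) (T.l 204))) (T.b (T.l 204) (T.l 204))) (T.a (T.l 207) (T.b (T.c (T.l 204) (T.l 204)) (T.a (T.l 207) (T.c (T.l 204) (T.l 204))))))) (T.b (T.l 207) (T.l 2)))) (T.l 2))), by decide +kernel⟩

def A022L_017 :
    ∃ t, chk3 (onCell 0 67108864 0 1073741824 649613803 48318383 (corT true 1 c0B cA022L gB0q0 gB1q2 gB7q2 gB8q2 false true)) t 1 1 1 = true :=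
  ⟨(T.b (T.b (T.b (T.a (T.a (T.l 204) (T.a (T.l 204) (T.b (T.l 204) (T.l 204)))) (T.a (T.a (T.b (T.l 204) (T.l 204)) (T.l 204)) (T.a (T.l 204) (T.b (T.l 204) (T.l 204))))) (T.a (T.l 204) (T.a (T.a (T.b (T.l 204) (T.l 204)) (T.b (T.l 204) (T.l 204))) (T.a (T.b (T.l 204) (T.l 204)) (T.l 220))))) (T.a (T.b (T.l 204) (T.b (T.l 204) (T.l 204))) (T.a (T.b (T.a (T.l 204) (T.b (T.l 204) (T.l 204))) (T.l 204)) (T.b (T.a (T.b (T.l 204) (T.l 204)) (T.b (T.l 204) (T.l 204))) (T.a (T.b (T.l 204) (T.l 204)) (T.b (T.l 204) (T.l 204))))))) (T.b (T.b (T.a (T.b (T.l 204) (T.a (T.l 204) (T.l 204))) (T.a (T.b (T.l 204) (T.l 204)) (T.a (T.l 204) (T.b (T.b (T.l 204) (T.l 204)) (T.l 204))))) (T.b (T.b (T.a (T.b (T.l 0) (T.a (T.l 2) (T.b (T.l 0) (T.l 2)))) (T.a (T.b (T.l 0) (T.b (T.l 0) (T.l 2))) (T.a (T.l 4) (T.a (T.l 0) (T.l 0))))) (T.l 2)) (T.l 2))) (T.l 2))), by decide +kernel⟩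

def A022L_027 :
    ∃ t, chk3 (onCell 0 67108864 0 1073741824 649613803 48318383 (corT true 1 c0B cA022L gB0q0 gB2q2 gB7q2 gB8q2 false true)) t 1 1 1 = true :=
  ⟨(T.b (T.b (T.b (T.a (T.a (T.l 204) (T.a (T.l 204) (T.l 204))) (T.a (T.b (T.l 204) (T.l 204)) (T.b (T.l 204) (T.l 204)))) (T.a (T.l 204) (T.a (T.b (T.l 0) (T.l 0)) (T.b (T.l 204) (T.l 204))))) (T.a (T.l 0) (T.a (T.b (T.a (T.l 204) (T.l 0)) (T.l 204)) (T.b (T.b (T.l 0) (T.l 0)) (T.a (T.l 16) (T.l 16)))))) (T.b (T.b (T.b (T.a (T.l 0) (T.a (T.l 0) (T.b (T.l 0) (T.l 0)))) (T.b (T.a (T.l 0) (T.a (T.l 0) (T.l 0))) (T.l 2))) (T.l 2)) (T.l 2))), by decide +kernel⟩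

def A022L_037 :
    ∃ t, chk3 (onCell 0 67108864 0 1073741824 649613803 48318383 (corT true 1 c0B cA022L gB0q0 gB3q2 gB7q2 gB8q2 false true)) t 1 1 1 = true :=
  ⟨(T.b (T.b (T.b (T.a (T.a (T.l 204) (T.a (T.l 204) (T.l 0))) (T.a (T.l 0) (T.l 0))) (T.a (T.l 204) (T.a (T.l 0) (T.l 0)))) (T.b (T.a (T.l 0) (T.a (T.b (T.l 0) (T.l 0)) (T.l 0))) (T.l 2))) (T.l 2)), by decide +kernel⟩

def A022L_047 :
    ∃ t, chk3 (onCell 0 67108864 0 1073741824 649613803 48318383 (corT true 1 c0B cA022L gB0q0 gB4q2 gB7q2 gB8q2 false true)) t 1 1 1 = true :=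
  ⟨(T.l 2), by decide +kernel⟩

def A022L_117 :
    ∃ t, chk3 (onCell 0 67108864 0 1073741824 649613803 48318383 (corT true 1 c0B cA022L gB1q0 gB1q2 gB7q2 gB8q2 false true)) t 1 1 1 = true :=
  ⟨(T.b (T.b (T.b (T.a (T.a (T.l 204) (T.a (T.l 204) (T.b (T.l 204) (T.l 204)))) (T.a (T.a (T.b (T.l 204) (T.l 204)) (T.l 204)) (T.a (T.l 204) (T.l 204)))) (T.a (T.l 204) (T.a (T.a (T.b (T.l 204) (T.l 204)) (T.l 204)) (T.b (T.l 204) (T.l 204))))) (T.a (T.l 204) (T.a (T.b (T.a (T.l 204) (T.l 204)) (T.l 204)) (T.b (T.b (T.l 204) (T.l 0)) (T.b (T.l 0) (T.l 0)))))) (T.b (T.b (T.a (T.l 0) (T.a (T.l 0) (T.b (T.l 0) (T.l 0)))) (T.l 2)) (T.l 2))), by decide +kernel⟩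

def A022L_127 :
    ∃ t, chk3 (onCell 0 67108864 0 1073741824 649613803 48318383 (corT true 1 c0B cA022L gB1q0 gB2q2 gB7q2 gB8q2 false true)) t 1 1 1 = true :=
  ⟨(T.b (T.b (T.b (T.a (T.a (T.l 204) (T.a (T.l 204) (T.l 204))) (T.a (T.b (T.l 204) (T.l 204)) (T.b (T.l 204) (T.l 204)))) (T.a (T.l 204) (T.a (T.b (T.l 0) (T.l 0)) (T.l 0)))) (T.a (T.l 0) (T.a (T.b (T.b (T.l 0) (T.l 0)) (T.l 0)) (T.b (T.l 0) (T.b (T.l 0) (T.l 0)))))) (T.b (T.b (T.a (T.l 0) (T.b (T.a (T.l 0) (T.l 0)) (T.l 2))) (T.l 2)) (T.l 2))), by decide +kernel⟩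

def A022L_137 :
    ∃ t, chk3 (onCell 0 67108864 0 1073741824 649613803 48318383 (corT true 1 c0B cA022L gB1q0 gB3q2 gB7q2 gB8q2 false true)) t 1 1 1 = true :=
  ⟨(T.b (T.b (T.b (T.a (T.a (T.l 204) (T.a (T.l 204) (T.l 0))) (T.a (T.l 0) (T.l 0))) (T.a (T.l 204) (T.a (T.l 0) (T.l 0)))) (T.b (T.a (T.l 0) (T.a (T.l 0) (T.l 0))) (T.l 2))) (T.l 2)), by decide +kernel⟩

def A022L_147 :
    ∃ t, chk3 (onCell 0 67108864 0 1073741824 649613803 48318383 (corT true 1 c0B cA022L gB1q0 gB4q2 gB7q2 gB8q2 false true)) t 1 1 1 = true :=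
  ⟨(T.l 2), by decide +kernel⟩

def A022L_227 :
    ∃ t, chk3 (onCell 0 67108864 0 1073741824 649613803 48318383 (corT true 1 c0B cA022L gB2q0 gB2q2 gB7q2 gB8q2 false true)) t 1 1 1 = true :=
  ⟨(T.b (T.b (T.b (T.a (T.a (T.l 204) (T.a (T.l 204) (T.l 204))) (T.a (T.b (T.l 204) (T.l 0)) (T.l 0))) (T.a (T.l 204) (T.a (T.l 0) (T.l 0)))) (T.a (T.l 0) (T.b (T.a (T.l 0) (T.l 0)) (T.a (T.l 0) (T.l 0))))) (T.l 2)), by decide +kernel⟩

def A022L_237 :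
    ∃ t, chk3 (onCell 0 67108864 0 1073741824 649613803 48318383 (corT true 1 c0B cA022L gB2q0 gB3q2 gB7q2 gB8q2 false true)) t 1 1 1 = true :=
  ⟨(T.b (T.b (T.b (T.a (T.a (T.l 204) (T.b (T.l 0) (T.l 204))) (T.a (T.l 0) (T.l 0))) (T.a (T.l 0) (T.a (T.l 0) (T.l 0)))) (T.b (T.a (T.l 2) (T.a (T.l 0) (T.l 0))) (T.l 2))) (T.l 2)), by decide +kernel⟩

def A022L_247 :
    ∃ t, chk3 (onCell 0 67108864 0 1073741824 649613803 48318383 (corT true 1 c0B cA022L gB2q0 gB4q2 gB7q2 gB8q2 false true)) t 1 1 1 = true :=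
  ⟨(T.l 2), by decide +kernel⟩

def A022L_337 :
    ∃ t, chk3 (onCell 0 67108864 0 1073741824 649613803 48318383 (corT true 1 c0B cA022L gB3q0 gB3q2 gB7q2 gB8q2 false true)) t 1 1 1 = true :=
  ⟨(T.b (T.b (T.b (T.a (T.a (T.l 204) (T.b (T.l 0) (T.l 204))) (T.a (T.l 0) (T.l 0))) (T.a (T.l 0) (T.a (T.l 0) (T.l 0)))) (T.l 2)) (T.l 2)), by decide +kernel⟩

def A022L_347 :
    ∃ t, chk3 (onCell 0 67108864 0 1073741824 649613803 48318383 (corT true 1 c0B cA022L gB3q0 gB4q2 gB7q2 gB8q2 false true)) t 1 1 1 = true :=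
  ⟨(T.l 2), by decide +kernel⟩

def A022L_447 :
    ∃ t, chk3 (onCell 0 67108864 0 1073741824 649613803 48318383 (corT true 1 c0B cA022L gB4q0 gB4q2 gB7q2 gB8q2 false true)) t 1 1 1 = true :=
  ⟨(T.l 2), by decide +kernel⟩

def A022R_080 :
    ∃ t, chk3 (onCell 0 67108864 0 1073741824 649613803 48318383 (corT true 1 c0B cA022R gB0q0 gB8q2 gB0q2 gB1q2 true true)) t 1 1 1 = true :=
  ⟨(T.l 2), by decide +kernel⟩

def A022R_081 :
    ∃ t, chk3 (onCell 0 67108864 0 1073741824 649613803 48318383 (corT true 1 c0B cA022R gB0q0 gB8q2 gB1q2 gB2q2 true true)) t 1 1 1 = true :=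
  ⟨(T.l 2), by decide +kernel⟩

def A022R_082 :
    ∃ t, chk3 (onCell 0 67108864 0 1073741824 649613803 48318383 (corT true 1 c0B cA022R gB0q0 gB8q2 gB2q2 gB3q2 true true)) t 1 1 1 = true :=
  ⟨(T.l 2), by decide +kernel⟩

def A022R_083 :
    ∃ t, chk3 (onCell 0 67108864 0 1073741824 649613803 48318383 (corT true 1 c0B cA022R gB0q0 gB8q2 gB3q2 gB4q2 true true)) t 1 1 1 = true :=
  ⟨(T.b (T.b (T.b (T.b (T.a (T.a (T.l 204) (T.c (T.l 0) (T.l 0))) (T.a (T.l 0) (T.l 0))) (T.a (T.a (T.l 0) (T.c (T.l 0) (T.l 0))) (T.a (T.l 0) (T.l 0)))) (T.b (T.a (T.a (T.l 0) (T.c (T.l 0) (T.l 0))) (T.a (T.l 0) (T.l 0))) (T.a (T.a (T.l 816) (T.c (T.l 4) (T.l 4))) (T.a (T.l 0) (T.l 0))))) (T.b (T.b (T.a (T.a (T.l 816) (T.a (T.l 816) (T.l 0))) (T.a (T.l 0) (T.l 0))) (T.a (T.a (T.l 816) (T.a (T.l 816) (T.l 816))) (T.a (T.l 0) (T.l 816)))) (T.b (T.a (T.a (T.l 816) (T.a (T.l 816) (T.l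 816))) (T.a (T.l 0) (T.l 816))) (T.a (T.a (T.l 816) (T.a (T.l 816) (T.l 816))) (T.a (T.l 816) (T.l 816)))))) (T.b (T.b (T.b (T.a (T.a (T.l 816) (T.a (T.l 816) (T.l 816))) (T.a (T.l 2) (T.l 2))) (T.l 2)) (T.l 2)) (T.l 2))), by decide +kernel⟩

def A022R_084 :
    ∃ t, chk3 (onCell 0 67108864 0 1073741824 649613803 48318383 (corT true 1 c0B cA022R gB0q0 gB8q2 gB4q2 gB5q2 true false)) t 1 1 1 = true :=
  ⟨(T.b (T.b (T.l 1) (T.a (T.a (T.l 1) (T.l 0)) (T.l 0))) (T.b (T.a (T.a (T.l 816) (T.l 816)) (T.b (T.l 816) (T.l 816))) (T.a (T.a (T.l 816) (T.l 816)) (T.a (T.l 816) (T.l 816))))), by decide +kernel⟩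

def A022R_180 :
    ∃ t, chk3 (onCell 0 67108864 0 1073741824 649613803 48318383 (corT true 1 c0B cA022R gB1q0 gB8q2 gB0q2 gB1q2 true true)) t 1 1 1 = true :=
  ⟨(T.l 2), by decide +kernel⟩

def A022R_181 :
    ∃ t, chk3 (onCell 0 67108864 0 1073741824 649613803 48318383 (corT true 1 c0B cA022R gB1q0 gB8q2 gB1q2 gB2q2 true true)) t 1 1 1 = true :=
  ⟨(T.l 2), by decide +kernel⟩

def A022R_182 :
    ∃ t, chk3 (onCell 0 67108864 0 1073741824 649613803 48318383 (corT true 1 c0B cA022R gB1q0 gB8q2 gB2q2 gB3q2 true true)) t 1 1 1 = true :=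
  ⟨(T.l 2), by decide +kernel⟩

def A022R_183 :
    ∃ t, chk3 (onCell 0 67108864 0 1073741824 649613803 48318383 (corT true 1 c0B cA022R gB1q0 gB8q2 gB3q2 gB4q2 true true)) t 1 1 1 = true :=
  ⟨(T.b (T.b (T.b (T.b (T.a (T.a (T.l 204) (T.c (T.l 0) (T.l 0))) (T.a (T.l 0) (T.l 0))) (T.a (T.a (T.l 0) (T.c (T.l 0) (T.l 0))) (T.a (T.l 0) (T.l 0)))) (T.a (T.a (T.l 0) (T.c (T.l 0) (T.l 0))) (T.a (T.l 0) (T.l 0)))) (T.b (T.b (T.a (T.a (T.l 816) (T.c (T.l 0) (T.l 0))) (T.a (T.l 0) (T.l 0))) (T.a (T.a (T.l 816) (T.c (T.l 0) (T.l 0))) (T.a (T.l 0) (T.l 816)))) (T.a (T.a (T.l 816) (T.a (T.l 816) (T.l 816))) (T.a (T.l 0) (T.l 816))))) (T.b (T.b (T.a (T.a (T.l 816) (T.a (T.l 816) (T.l 816))) (T.a (T.l 816) (T.l 816))) (T.a (T.a (T.l 816) (T.a (T.l 816) (T.l 816))) (T.a (T.l 816) (T.l 2)))) (T.b (T.l 2) (T.l 2)))), by decide +kernel⟩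

def A022R_184 :
    ∃ t, chk3 (onCell 0 67108864 0 1073741824 649613803 48318383 (corT true 1 c0B cA022R gB1q0 gB8q2 gB4q2 gB5q2 true false)) t 1 1 1 = true :=
  ⟨(T.b (T.l 1) (T.a (T.a (T.l 816) (T.l 816)) (T.l 816))), by decide +kernel⟩

def A022R_280 :
    ∃ t, chk3 (onCell 0 67108864 0 1073741824 649613803 48318383 (corT true 1 c0B cA022R gB2q0 gB8q2 gB0q2 gB1q2 true true)) t 1 1 1 = true :=
  ⟨(T.l 2), by decide +kernel⟩

def A022R_281 :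
    ∃ t, chk3 (onCell 0 67108864 0 1073741824 649613803 48318383 (corT true 1 c0B cA022R gB2q0 gB8q2 gB1q2 gB2q2 true true)) t 1 1 1 = true :=
  ⟨(T.l 2), by decide +kernel⟩

def A022R_282 :
    ∃ t, chk3 (onCell 0 67108864 0 1073741824 649613803 48318383 (corT true 1 c0B cA022R gB2q0 gB8q2 gB2q2 gB3q2 true true)) t 1 1 1 = true :=
  ⟨(T.l 2), by decide +kernel⟩

def A022R_283 :
    ∃ t, chk3 (onCell 0 67108864 0 1073741824 649613803 48318383 (corT true 1 c0B cA022R gB2q0 gB8q2 gB3q2 gB4q2 true true)) t 1 1 1 = true :=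
  ⟨(T.b (T.b (T.b (T.a (T.a (T.l 0) (T.c (T.l 0) (T.l 0))) (T.a (T.l 0) (T.l 0))) (T.a (T.a (T.l 0) (T.b (T.l 4) (T.l 4))) (T.a (T.l 0) (T.l 0)))) (T.a (T.a (T.l 816) (T.c (T.l 0) (T.l 0))) (T.a (T.l 0) (T.l 816)))) (T.b (T.a (T.a (T.l 816) (T.c (T.l 0) (T.l 0))) (T.a (T.l 816) (T.l 816))) (T.a (T.a (T.l 816) (T.c (T.l 816) (T.l 816))) (T.a (T.l 816) (T.l 816))))), by decide +kernel⟩

def A022R_284 :
    ∃ t, chk3 (onCell 0 67108864 0 1073741824 649613803 48318383 (corT true 1 c0B cA022R gB2q0 gB8q2 gB4q2 gB5q2 true false)) t 1 1 1 = true :=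
  ⟨(T.l 1), by decide +kernel⟩

def A022R_380 :
    ∃ t, chk3 (onCell 0 67108864 0 1073741824 649613803 48318383 (corT true 1 c0B cA022R gB3q0 gB8q2 gB0q2 gB1q2 true true)) t 1 1 1 = true :=
  ⟨(T.l 2), by decide +kernel⟩

def A022R_381 :
    ∃ t, chk3 (onCell 0 67108864 0 1073741824 649613803 48318383 (corT true 1 c0B cA022R gB3q0 gB8q2 gB1q2 gB2q2 true true)) t 1 1 1 = true :=
  ⟨(T.l 2), by decide +kernel⟩

def A022R_382 :
    ∃ t, chk3 (onCell 0 67108864 0 1073741824 649613803 48318383 (corT true 1 c0B cA022R gB3q0 gB8q2 gB2q2 gB3q2 true true)) t 1 1 1 = true :=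
  ⟨(T.b (T.l 2) (T.a (T.a (T.l 816) (T.l 2)) (T.l 2))), by decide +kernel⟩

def A022R_383 :
    ∃ t, chk3 (onCell 0 67108864 0 1073741824 649613803 48318383 (corT true 1 c0B cA022R gB3q0 gB8q2 gB3q2 gB4q2 true true)) t 1 1 1 = true :=
  ⟨(T.b (T.b (T.a (T.a (T.l 0) (T.c (T.l 16) (T.l 0))) (T.a (T.l 0) (T.l 0))) (T.a (T.a (T.l 816) (T.l 0)) (T.a (T.l 816) (T.l 816)))) (T.a (T.a (T.l 816) (T.l 816)) (T.a (T.l 816) (T.l 816)))), by decide +kernel⟩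

def A022R_384 :
    ∃ t, chk3 (onCell 0 67108864 0 1073741824 649613803 48318383 (corT true 1 c0B cA022R gB3q0 gB8q2 gB4q2 gB5q2 true false)) t 1 1 1 = true :=
  ⟨(T.l 1), by decide +kernel⟩

def A022R_480 :
    ∃ t, chk3 (onCell 0 67108864 0 1073741824 649613803 48318383 (corT true 1 c0B cA022R gB4q0 gB8q2 gB0q2 gB1q2 true true)) t 1 1 1 = true :=
  ⟨(T.l 2), by decide +kernel⟩

def A022R_481 :
    ∃ t, chk3 (onCell 0 67108864 0 1073741824 649613803 48318383 (corT true 1 c0B cA022R gB4q0 gB8q2 gB1q2 gB2q2 true true)) t 1 1 1 = true :=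
  ⟨(T.b (T.l 2) (T.b (T.l 2) (T.a (T.a (T.l 816) (T.a (T.l 816) (T.l 816))) (T.b (T.l 2) (T.l 2))))), by decide +kernel⟩

def A022R_482 :
    ∃ t, chk3 (onCell 0 67108864 0 1073741824 649613803 48318383 (corT true 1 c0B cA022R gB4q0 gB8q2 gB2q2 gB3q2 true true)) t 1 1 1 = true :=
  ⟨(T.b (T.b (T.l 2) (T.b (T.a (T.a (T.l 816) (T.a (T.l 816) (T.l 2))) (T.l 2)) (T.a (T.a (T.l 816) (T.a (T.l 816) (T.l 816))) (T.a (T.l 816) (T.l 816))))) (T.b (T.a (T.a (T.l 816) (T.c (T.l 0) (T.l 0))) (T.a (T.l 816) (T.l 816))) (T.a (T.a (T.l 816) (T.l 816)) (T.a (T.l 816) (T.l 816))))), by decide +kernel⟩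

def A022R_483 :
    ∃ t, chk3 (onCell 0 67108864 0 1073741824 649613803 48318383 (corT true 1 c0B cA022R gB4q0 gB8q2 gB3q2 gB4q2 true true)) t 1 1 1 = true :=
  ⟨(T.b (T.b (T.b (T.a (T.a (T.l 0) (T.c (T.l 16) (T.l 0))) (T.a (T.l 0) (T.l 0))) (T.a (T.a (T.l 816) (T.l 0)) (T.a (T.l 0) (T.l 0)))) (T.a (T.a (T.l 816) (T.l 0)) (T.b (T.l 0) (T.l 816)))) (T.b (T.a (T.l 1) (T.b (T.l 816) (T.l 1))) (T.l 1))), by decide +kernel⟩

def A022R_484 :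
    ∃ t, chk3 (onCell 0 67108864 0 1073741824 649613803 48318383 (corT true 1 c0B cA022R gB4q0 gB8q2 gB4q2 gB5q2 true false)) t 1 1 1 = true :=
  ⟨(T.l 1), by decide +kernel⟩

def A101E_000 :
    ∃ t, chk3 (onCell 0 67108864 0 1073741824 649613803 48318383 (corT true 1 c0B cA101E gB0q1 gB0q0 gB0q1 gB1q1 true false)) t 1 1 1 = true :=
  ⟨(T.l 1), by decide +kernel⟩

def A101E_010 :
    ∃ t, chk3 (onCell 0 67108864 0 1073741824 649613803 48318383 (corT true 1 c0B cA101E gB0q1 gB1q0 gB0q1 gB1q1 true false)) t 1 1 1 = true :=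
  ⟨(T.l 1), by decide +kernel⟩

def A101E_020 :
    ∃ t, chk3 (onCell 0 67108864 0 1073741824 649613803 48318383 (corT true 1 c0B cA101E gB0q1 gB2q0 gB0q1 gB1q1 true false)) t 1 1 1 = true :=
  ⟨(T.l 1), by decide +kernel⟩

def A101E_030 :
    ∃ t, chk3 (onCell 0 67108864 0 1073741824 649613803 48318383 (corT true 1 c0B cA101E gB0q1 gB3q0 gB0q1 gB1q1 true false)) t 1 1 1 = true :=
  ⟨(T.l 1), by decide +kernel⟩

def A101E_040 :
    ∃ t, chk3 (onCell 0 67108864 0 1073741824 649613803 48318383 (corT true 1 c0B cA101E gB0q1 gB4q0 gB0q1 gB1q1 true false)) t 1 1 1 = true :=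
  ⟨(T.b (T.l 1) (T.l 1)), by decide +kernel⟩

def A101R_004 :
    ∃ t, chk3 (onCell 0 67108864 0 1073741824 649613803 48318383 (corT true 1 c0B cA101R gB0q1 gB0q0 gB4q1 gB5q1 false true)) t 1 1 1 = true :=
  ⟨(T.l 2), by decide +kernel⟩

def A101R_005 :
    ∃ t, chk3 (onCell 0 67108864 0 1073741824 649613803 48318383 (corT true 1 c0B cA101R gB0q1 gB0q0 gB5q1 gB6q1 true true)) t 1 1 1 = true :=
  ⟨(T.l 2), by decide +kernel⟩

def A101R_006 :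
    ∃ t, chk3 (onCell 0 67108864 0 1073741824 649613803 48318383 (corT true 1 c0B cA101R gB0q1 gB0q0 gB6q1 gB7q1 true true)) t 1 1 1 = true :=
  ⟨(T.l 2), by decide +kernel⟩

def A101R_007 :
    ∃ t, chk3 (onCell 0 67108864 0 1073741824 649613803 48318383 (corT true 1 c0B cA101R gB0q1 gB0q0 gB7q1 gB8q1 true true)) t 1 1 1 = true :=
  ⟨(T.l 2), by decide +kernel⟩

def A101R_014 :
    ∃ t, chk3 (onCell 0 67108864 0 1073741824 649613803 48318383 (corT true 1 c0B cA101R gB0q1 gB1q0 gB4q1 gB5q1 false true)) t 1 1 1 = true :=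
  ⟨(T.l 2), by decide +kernel⟩

def A101R_015 :
    ∃ t, chk3 (onCell 0 67108864 0 1073741824 649613803 48318383 (corT true 1 c0B cA101R gB0q1 gB1q0 gB5q1 gB6q1 true true)) t 1 1 1 = true :=
  ⟨(T.l 2), by decide +kernel⟩

def A101R_016 :
    ∃ t, chk3 (onCell 0 67108864 0 1073741824 649613803 48318383 (corT true 1 c0B cA101R gB0q1 gB1q0 gB6q1 gB7q1 true true)) t 1 1 1 = true :=
  ⟨(T.l 2), by decide +kernel⟩

def A101R_017 :
    ∃ t, chk3 (onCell 0 67108864 0 1073741824 649613803 48318383 (corT true 1 c0B cA101R gB0q1 gB1q0 gB7q1 gB8q1 true true)) t 1 1 1 = true :=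
  ⟨(T.l 2), by decide +kernel⟩

def A101R_024 :
    ∃ t, chk3 (onCell 0 67108864 0 1073741824 649613803 48318383 (corT true 1 c0B cA101R gB0q1 gB2q0 gB4q1 gB5q1 false true)) t 1 1 1 = true :=
  ⟨(T.l 2), by decide +kernel⟩

def A101R_025 :
    ∃ t, chk3 (onCell 0 67108864 0 1073741824 649613803 48318383 (corT true 1 c0B cA101R gB0q1 gB2q0 gB5q1 gB6q1 true true)) t 1 1 1 = true :=
  ⟨(T.l 2), by decide +kernel⟩

def A101R_026 :
    ∃ t, chk3 (onCell 0 67108864 0 1073741824 649613803 48318383 (corT true 1 c0B cA101R gB0q1 gB2q0 gB6q1 gB7q1 true true)) t 1 1 1 = true :=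
  ⟨(T.l 2), by decide +kernel⟩

def A101R_027 :
    ∃ t, chk3 (onCell 0 67108864 0 1073741824 649613803 48318383 (corT true 1 c0B cA101R gB0q1 gB2q0 gB7q1 gB8q1 true true)) t 1 1 1 = true :=
  ⟨(T.l 2), by decide +kernel⟩

def A101R_034 :
    ∃ t, chk3 (onCell 0 67108864 0 1073741824 649613803 48318383 (corT true 1 c0B cA101R gB0q1 gB3q0 gB4q1 gB5q1 false true)) t 1 1 1 = true :=
  ⟨(T.l 2), by decide +kernel⟩

def A101R_035 :
    ∃ t, chk3 (onCell 0 67108864 0 1073741824 649613803 48318383 (corT true 1 c0B cA101R gB0q1 gB3q0 gB5q1 gB6q1 true true)) t 1 1 1 = true :=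
  ⟨(T.l 2), by decide +kernel⟩

def A101R_036 :
    ∃ t, chk3 (onCell 0 67108864 0 1073741824 649613803 48318383 (corT true 1 c0B cA101R gB0q1 gB3q0 gB6q1 gB7q1 true true)) t 1 1 1 = true :=
  ⟨(T.l 2), by decide +kernel⟩

def A101R_037 :
    ∃ t, chk3 (onCell 0 67108864 0 1073741824 649613803 48318383 (corT true 1 c0B cA101R gB0q1 gB3q0 gB7q1 gB8q1 true true)) t 1 1 1 = true :=
  ⟨(T.l 2), by decide +kernel⟩

def A101R_044 :
    ∃ t, chk3 (onCell 0 67108864 0 1073741824 649613803 48318383 (corT true 1 c0B cA101R gB0q1 gB4q0 gB4q1 gB5q1 false true)) t 1 1 1 = true :=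
  ⟨(T.l 2), by decide +kernel⟩

def A101R_045 :
    ∃ t, chk3 (onCell 0 67108864 0 1073741824 649613803 48318383 (corT true 1 c0B cA101R gB0q1 gB4q0 gB5q1 gB6q1 true true)) t 1 1 1 = true :=
  ⟨(T.l 2), by decide +kernel⟩

def A101R_046 :
    ∃ t, chk3 (onCell 0 67108864 0 1073741824 649613803 48318383 (corT true 1 c0B cA101R gB0q1 gB4q0 gB6q1 gB7q1 true true)) t 1 1 1 = true :=
  ⟨(T.l 2), by decide +kernel⟩

def A101R_047 :
    ∃ t, chk3 (onCell 0 67108864 0 1073741824 649613803 48318383 (corT true 1 c0B cA101R gB0q1 gB4q0 gB7q1 gB8q1 true true)) t 1 1 1 = true :=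
  ⟨(T.l 2), by decide +kernel⟩

def A102E_000 :
    ∃ t, chk3 (onCell 0 33554432 0 1073741824 649613803 48318383 (corX 1 c0B cA102E tA102E gB0q1 gB0q0 gB0q2 gB1q2 gB0q2 true true)) t 1 1 1 = true :=
  ⟨(T.b (T.b (T.l 2) (T.b (T.l 2) (T.b (T.l 2) (T.b (T.l 2) (T.a (T.a (T.a (T.a (T.c (T.l 3) (T.l 3)) (T.c (T.l 819) (T.l 819))) (T.a (T.c (T.l 819) (T.l 819)) (T.c (T.l 819) (T.l 819)))) (T.b (T.b (T.l 2) (T.b (T.l 2) (T.a (T.c (T.l 819) (T.l 819)) (T.c (T.l 819) (T.l 819))))) (T.c (T.a (T.c (T.l 819) (T.l 819)) (T.c (T.l 819) (T.l 819))) (T.a (T.c (T.l 819) (T.l 819)) (T.c (T.l 819) (T.l 819)))))) (T.b (T.l 2) (T.a (T.c (T.a (T.c (T.l 819) (T.l 819)) (T.l 819)) (T.a (T.l 819) (T.l 819))) (T.a (T.c (T.l 819) (T.l 819)) (T.l 819))))))))) (T.b (T.b (T.b (T.b (T.b (T.a (T.b (T.a (T.b (T.a (T.c (T.l 3) (T.l 3)) (T.c (T.l 819) (T.l 819))) (T.l 1)) (T.a (T.a (T.l 819)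 (T.l 819)) (T.a (T.l 819) (T.l 819)))) (T.l 1)) (T.a (T.a (T.a (T.l 819) (T.l 819)) (T.c (T.l 819) (T.l 819))) (T.a (T.c (T.l 819) (T.l 819)) (T.l 819)))) (T.l 1)) (T.l 1)) (T.l 1)) (T.l 1)) (T.l 1))), by decide +kernel⟩

def A102E_001_1_4_1 :
    ∃ t, chk3 (onCell 0 33554432 0 1073741824 649613803 48318383 (corT true 1 c0B cA102E gB0q1 gB0q0 gB1q2 gB2q2 true true)) t 1 4 1 = true :=
  ⟨(T.l 2), by decide +kernel⟩

def A102E_001_1_10_1 :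
    ∃ t, chk3 (onCell 0 33554432 0 1073741824 649613803 48318383 (corT true 1 c0B cA102E gB0q1 gB0q0 gB1q2 gB2q2 true true)) t 1 10 1 = true :=
  ⟨(T.l 2), by decide +kernel⟩

def A102E_001_1_22_1 :
    ∃ t, chk3 (onCell 0 33554432 0 1073741824 649613803 48318383 (corT true 1 c0B cA102E gB0q1 gB0q0 gB1q2 gB2q2 true true)) t 1 22 1 = true :=
  ⟨(T.b (T.l 2) (T.b (T.l 2) (T.a (T.c (T.l 0) (T.l 0)) (T.c (T.l 0) (T.l 0))))), by decide +kernel⟩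

def A102E_001_1_46_1 :
    ∃ t, chk3 (onCell 0 33554432 0 1073741824 649613803 48318383 (corT true 1 c0B cA102E gB0q1 gB0q0 gB1q2 gB2q2 true true)) t 1 46 1 = true :=
  ⟨(T.a (T.b (T.c (T.a (T.l 0) (T.l 0)) (T.l 0)) (T.a (T.b (T.l 0) (T.c (T.l 0) (T.l 0))) (T.c (T.l 0) (T.l 0)))) (T.b (T.c (T.l 0) (T.l 0)) (T.c (T.a (T.l 0) (T.l 816)) (T.a (T.l 816) (T.l 816))))), by decide +kernel⟩

def A102E_001_2_47_1 :
    ∃ t, chk3 (onCell 0 33554432 0 1073741824 649613803 48318383 (corT true 1 c0B cA102E gB0q1 gB0q0 gB1q2 gB2q2 true true)) t 2 47 1 = true :=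
  ⟨(T.b (T.a (T.b (T.c (T.a (T.c (T.l 0) (T.l 0)) (T.l 0)) (T.c (T.a (T.l 0) (T.l 0)) (T.l 0))) (T.c (T.b (T.a (T.b (T.l 0) (T.a (T.c (T.l 0) (T.l 0)) (T.l 816))) (T.c (T.l 816) (T.l 816))) (T.b (T.a (T.a (T.l 1) (T.b (T.a (T.l 1) (T.l 816)) (T.l 1))) (T.c (T.a (T.b (T.l 816) (T.l 1)) (T.l 816)) (T.a (T.b (T.l 816) (T.l 1)) (T.l 816)))) (T.l 1))) (T.b (T.a (T.b (T.l 0) (T.a (T.a (T.c (T.l 0) (T.l 0)) (T.l 0)) (T.l 816))) (T.c (T.l 816) (T.l 816))) (T.b (T.a (T.a (T.l 1) (T.b (T.a (T.l 1) (T.l 816)) (T.l 1))) (T.c (T.a (T.b (T.l 816) (T.l 1)) (T.l 816)) (T.a (T.b (T.l 816) (T.l 1)) (T.l 816)))) (T.l 1))))) (T.b (T.c (T.l 0) (T.l 816)) (T.c (T.a (T.b (T.l 816) (T.c (T.b (T.l 816) (T.a (T.b (T.l 816) (T.l 1)) (T.l 816))) (T.b (T.l 816) (T.a (T.b (T.l 816) (T.l 1)) (T.l 816))))) (T.b (T.l 816) (T.c (T.l 816) (T.l 816)))) (T.a (T.b (T.l 816) (T.c (T.b (T.l 816)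 (T.a (T.b (T.l 816) (T.l 1)) (T.l 816))) (T.b (T.l 816) (T.a (T.b (T.l 816) (T.l 1)) (T.l 816))))) (T.b (T.l 816) (T.c (T.l 816) (T.l 816))))))) (T.a (T.l 1) (T.a (T.l 1) (T.b (T.b (T.a (T.l 1) (T.b (T.b (T.c (T.l 816) (T.l 816)) (T.l 1)) (T.l 1))) (T.l 1)) (T.l 1))))), by decide +kernel⟩

def A102E_001_3_47_1 :
    ∃ t, chk3 (onCell 0 33554432 0 1073741824 649613803 48318383 (corT true 1 c0B cA102E gB0q1 gB0q0 gB1q2 gB2q2 true true)) t 3 47 1 = true :=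
  ⟨(T.b (T.a (T.c (T.b (T.l 816) (T.a (T.c (T.l 816) (T.l 816)) (T.l 816))) (T.b (T.l 816) (T.c (T.a (T.l 816) (T.l 816)) (T.l 816)))) (T.c (T.c (T.l 816) (T.l 816)) (T.c (T.l 816) (T.l 816)))) (T.b (T.a (T.b (T.c (T.a (T.c (T.a (T.b (T.l 816) (T.l 1)) (T.l 816)) (T.a (T.b (T.l 816) (T.l 1)) (T.l 816))) (T.c (T.l 816) (T.l 816))) (T.a (T.b (T.l 820) (T.a (T.l 1) (T.l 816))) (T.l 816))) (T.l 1)) (T.c (T.a (T.c (T.c (T.l 816) (T.l 816)) (T.l 816)) (T.l 816)) (T.a (T.c (T.l 816) (T.l 816)) (T.l 816)))) (T.l 1))), by decide +kernel⟩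

def A102E_001_1_3_1 :
    ∃ t, chk3 (onCell 0 33554432 0 1073741824 649613803 48318383 (corT true 1 c0B cA102E gB0q1 gB0q0 gB1q2 gB2q2 true true)) t 1 3 1 = true :=
  ⟨(T.b (T.l 1) (T.l 1)), by decide +kernel⟩

theorem A102E_001_1_47_1 :
    ∃ t, chk3 (onCell 0 33554432 0 1073741824 649613803 48318383 (corT true 1 c0B cA102E gB0q1 gB0q0 gB1q2 gB2q2 true true)) t 1 47 1 = true :=
  ex3_a A102E_001_2_47_1 A102E_001_3_47_1
theorem A102E_001_1_23_1 :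
    ∃ t, chk3 (onCell 0 33554432 0 1073741824 649613803 48318383 (corT true 1 c0B cA102E gB0q1 gB0q0 gB1q2 gB2q2 true true)) t 1 23 1 = true :=
  ex3_b A102E_001_1_46_1 A102E_001_1_47_1
theorem A102E_001_1_11_1 :
    ∃ t, chk3 (onCell 0 33554432 0 1073741824 649613803 48318383 (corT true 1 c0B cA102E gB0q1 gB0q0 gB1q2 gB2q2 true true)) t 1 11 1 = true :=
  ex3_b A102E_001_1_22_1 A102E_001_1_23_1
theorem A102E_001_1_5_1 :
    ∃ t, chk3 (onCell 0 33554432 0 1073741824 649613803 48318383 (corT true 1 c0B cA102E gB0q1 gB0q0 gB1q2 gB2q2 true true)) t 1 5 1 = true :=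
  ex3_b A102E_001_1_10_1 A102E_001_1_11_1
theorem A102E_001_1_2_1 :
    ∃ t, chk3 (onCell 0 33554432 0 1073741824 649613803 48318383 (corT true 1 c0B cA102E gB0q1 gB0q0 gB1q2 gB2q2 true true)) t 1 2 1 = true :=
  ex3_b A102E_001_1_4_1 A102E_001_1_5_1
theorem A102E_001 :
    ∃ t, chk3 (onCell 0 33554432 0 1073741824 649613803 48318383 (corT true 1 c0B cA102E gB0q1 gB0q0 gB1q2 gB2q2 true true)) t 1 1 1 = true :=
  ex3_b A102E_001_1_2_1 A102E_001_1_3_1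

def A102E_002 :
    ∃ t, chk3 (onCell 0 33554432 0 1073741824 649613803 48318383 (corT true 1 c0B cA102E gB0q1 gB0q0 gB2q2 gB3q2 true true)) t 1 1 1 = true :=
  ⟨(T.b (T.b (T.l 2) (T.b (T.b (T.l 2) (T.a (T.l 204) (T.b (T.l 204) (T.l 204)))) (T.b (T.b (T.a (T.l 0) (T.l 0)) (T.a (T.c (T.l 0) (T.l 0)) (T.c (T.l 0) (T.l 0)))) (T.a (T.l 1) (T.b (T.b (T.b (T.l 0) (T.l 1)) (T.l 1)) (T.l 1)))))) (T.l 1)), by decide +kernel⟩

def A102E_003 :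
    ∃ t, chk3 (onCell 0 33554432 0 1073741824 649613803 48318383 (corT true 1 c0B cA102E gB0q1 gB0q0 gB3q2 gB4q2 true true)) t 1 1 1 = true :=
  ⟨(T.b (T.b (T.b (T.l 2) (T.c (T.b (T.a (T.l 204) (T.l 204)) (T.a (T.l 204) (T.l 204))) (T.b (T.l 204) (T.l 204)))) (T.b (T.b (T.b (T.l 220) (T.l 204)) (T.a (T.l 0) (T.l 0))) (T.l 1))) (T.l 1)), by decide +kernel⟩

def A102E_004 :
    ∃ t, chk3 (onCell 0 33554432 0 1073741824 649613803 48318383 (corT true 1 c0B cA102E gB0q1 gB0q0 gB4q2 gB5q2 true false)) t 1 1 1 = true :=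
  ⟨(T.b (T.b (T.b (T.a (T.l 204) (T.a (T.l 204) (T.b (T.a (T.l 204) (T.b (T.l 204) (T.l 204))) (T.l 204)))) (T.b (T.b (T.l 204) (T.l 1)) (T.l 1))) (T.l 1)) (T.l 1)), by decide +kernel⟩

def A102E_010 :
    ∃ t, chk3 (onCell 0 67108864 0 1073741824 649613803 48318383 (corT true 1 c0B cA102E gB0q1 gB1q0 gB0q2 gB1q2 true true)) t 1 1 1 = true :=
  ⟨(T.b (T.b (T.l 2) (T.l 2)) (T.b (T.b (T.b (T.b (T.b (T.l 2) (T.a (T.a (T.a (T.l 0) (T.l 0)) (T.l 0)) (T.a (T.a (T.l 0) (T.l 2)) (T.l 2)))) (T.b (T.a (T.a (T.a (T.b (T.c (T.l 0) (T.l 0)) (T.b (T.c (T.a (T.b (T.l 0) (T.a (T.l 1) (T.c (T.l 0) (T.l 0)))) (T.l 0)) (T.l 0)) (T.l 1))) (T.c (T.b (T.l 0) (T.a (T.c (T.a (T.c (T.l 204) (T.l 204)) (T.l 204)) (T.l 0)) (T.l 204))) (T.l 0))) (T.a (T.c (T.l 204) (T.l 0)) (T.l 0))) (T.a (T.a (T.l 0) (T.c (T.l 204) (T.l 204))) (T.a (T.c (T.l 204) (T.l 0)) (T.c (T.l 204) (T.l 0)))))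 (T.a (T.a (T.l 1) (T.b (T.a (T.b (T.c (T.l 204) (T.l 0)) (T.l 1)) (T.l 204)) (T.l 1))) (T.b (T.a (T.a (T.l 204) (T.l 204)) (T.a (T.l 0) (T.l 0))) (T.a (T.a (T.l 1) (T.l 1)) (T.a (T.a (T.l 204) (T.l 0)) (T.a (T.l 0) (T.l 0)))))))) (T.a (T.l 1) (T.l 1))) (T.l 1)) (T.l 1))), by decide +kernel⟩

def A102E_011 :
    ∃ t, chk3 (onCell 0 67108864 0 1073741824 649613803 48318383 (corT true 1 c0B cA102E gB0q1 gB1q0 gB1q2 gB2q2 true true)) t 1 1 1 = true :=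
  ⟨(T.b (T.b (T.l 2) (T.b (T.l 2) (T.b (T.l 2) (T.a (T.l 0) (T.a (T.l 0) (T.a (T.l 0) (T.b (T.l 2) (T.c (T.l 0) (T.l 0))))))))) (T.b (T.b (T.b (T.b (T.a (T.a (T.c (T.l 0) (T.l 0)) (T.l 0)) (T.a (T.l 0) (T.a (T.l 0) (T.c (T.l 0) (T.l 0))))) (T.a (T.l 1) (T.b (T.l 0) (T.l 1)))) (T.l 1)) (T.l 1)) (T.l 1))), by decide +kernel⟩

def A102E_012 :
    ∃ t, chk3 (onCell 0 67108864 0 1073741824 649613803 48318383 (corT true 1 c0B cA102E gB0q1 gB1q0 gB2q2 gB3q2 true true)) t 1 1 1 = true :=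
  ⟨(T.b (T.b (T.l 2) (T.b (T.l 2) (T.a (T.b (T.l 0) (T.l 0)) (T.a (T.l 0) (T.b (T.a (T.b (T.l 0) (T.l 0)) (T.b (T.l 0) (T.l 0))) (T.a (T.l 0) (T.b (T.l 0) (T.l 0)))))))) (T.b (T.b (T.l 1) (T.l 1)) (T.l 1))), by decide +kernel⟩

def A102E_013 :
    ∃ t, chk3 (onCell 0 67108864 0 1073741824 649613803 48318383 (corT true 1 c0B cA102E gB0q1 gB1q0 gB3q2 gB4q2 true true)) t 1 1 1 = true :=
  ⟨(T.b (T.b (T.b (T.l 2) (T.a (T.l 204) (T.b (T.l 2) (T.b (T.b (T.b (T.l 2) (T.b (T.l 2) (T.a (T.a (T.l 204) (T.l 204)) (T.c (T.l 204) (T.l 204))))) (T.a (T.a (T.l 204) (T.l 204)) (T.c (T.l 204) (T.l 204)))) (T.a (T.a (T.l 204) (T.l 220)) (T.a (T.l 204) (T.l 204))))))) (T.b (T.a (T.l 0) (T.b (T.a (T.a (T.l 204) (T.b (T.l 204) (T.l 204))) (T.a (T.l 16) (T.l 0))) (T.a (T.a (T.l 204) (T.b (T.l 204) (T.l 204))) (T.a (T.l 0) (T.l 0))))) (T.b (T.a (T.l 0) (T.a (T.l 0) (T.b (T.l 0)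 (T.l 1)))) (T.l 1)))) (T.l 1)), by decide +kernel⟩

def A102E_014 :
    ∃ t, chk3 (onCell 0 67108864 0 1073741824 649613803 48318383 (corT true 1 c0B cA102E gB0q1 gB1q0 gB4q2 gB5q2 true false)) t 1 1 1 = true :=
  ⟨(T.b (T.b (T.b (T.a (T.a (T.l 204) (T.a (T.l 204) (T.b (T.l 204) (T.l 204)))) (T.a (T.b (T.l 204) (T.l 204)) (T.l 204))) (T.a (T.l 204) (T.a (T.a (T.b (T.l 204) (T.l 204)) (T.l 204)) (T.l 0)))) (T.l 1)) (T.l 1)), by decide +kernel⟩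

def A102E_020 :
    ∃ t, chk3 (onCell 0 67108864 0 1073741824 649613803 48318383 (corT true 1 c0B cA102E gB0q1 gB2q0 gB0q2 gB1q2 true true)) t 1 1 1 = true :=
  ⟨(T.b (T.l 2) (T.b (T.b (T.b (T.l 2) (T.b (T.l 2) (T.a (T.a (T.l 204) (T.l 204)) (T.a (T.l 204) (T.b (T.l 2) (T.c (T.l 204) (T.l 204))))))) (T.b (T.b (T.b (T.a (T.a (T.c (T.l 204) (T.l 204)) (T.l 204)) (T.a (T.l 204) (T.a (T.l 204) (T.l 204)))) (T.l 1)) (T.l 1)) (T.l 1))) (T.l 1))), by decide +kernel⟩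

def A102E_021 :
    ∃ t, chk3 (onCell 0 67108864 0 1073741824 649613803 48318383 (corT true 1 c0B cA102E gB0q1 gB2q0 gB1q2 gB2q2 true true)) t 1 1 1 = true :=
  ⟨(T.b (T.l 2) (T.b (T.b (T.b (T.l 2) (T.a (T.b (T.l 204) (T.a (T.l 204) (T.l 204))) (T.a (T.l 204) (T.l 204)))) (T.a (T.l 1) (T.l 1))) (T.l 1))), by decide +kernel⟩

def A102E_022 :
    ∃ t, chk3 (onCell 0 67108864 0 1073741824 649613803 48318383 (corT true 1 c0B cA102E gB0q1 gB2q0 gB2q2 gB3q2 true true)) t 1 1 1 = true :=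
  ⟨(T.b (T.b (T.l 2) (T.b (T.l 2) (T.a (T.l 204) (T.b (T.l 2) (T.l 2))))) (T.b (T.b (T.b (T.a (T.l 204) (T.b (T.a (T.l 204) (T.l 0)) (T.l 0))) (T.b (T.a (T.l 204) (T.l 0)) (T.l 1))) (T.l 1)) (T.l 1))), by decide +kernel⟩

def A102E_023 :
    ∃ t, chk3 (onCell 0 67108864 0 1073741824 649613803 48318383 (corT true 1 c0B cA102E gB0q1 gB2q0 gB3q2 gB4q2 true true)) t 1 1 1 = true :=
  ⟨(T.b (T.b (T.l 2) (T.a (T.l 0) (T.b (T.b (T.l 2) (T.b (T.a (T.c (T.l 0) (T.l 0)) (T.l 204)) (T.a (T.l 204) (T.l 204)))) (T.a (T.l 204) (T.b (T.l 0) (T.l 0)))))) (T.b (T.b (T.b (T.a (T.l 204) (T.a (T.l 204) (T.b (T.l 204) (T.l 1)))) (T.l 1)) (T.l 1)) (T.l 1))), by decide +kernel⟩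

def A102E_024 :
    ∃ t, chk3 (onCell 0 67108864 0 1073741824 649613803 48318383 (corT true 1 c0B cA102E gB0q1 gB2q0 gB4q2 gB5q2 true false)) t 1 1 1 = true :=
  ⟨(T.b (T.b (T.a (T.a (T.l 204) (T.a (T.l 204) (T.b (T.l 204) (T.l 204)))) (T.a (T.b (T.l 204) (T.l 204)) (T.b (T.l 204) (T.l 204)))) (T.a (T.l 204) (T.b (T.b (T.l 0) (T.l 0)) (T.l 1)))) (T.l 1)), by decide +kernel⟩

def A102E_030 :
    ∃ t, chk3 (onCell 0 67108864 0 1073741824 649613803 48318383 (corT true 1 c0B cA102E gB0q1 gB3q0 gB0q2 gB1q2 true true)) t 1 1 1 = true :=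
  ⟨(T.b (T.l 2) (T.b (T.b (T.l 2) (T.b (T.l 2) (T.b (T.l 2) (T.a (T.l 204) (T.a (T.l 204) (T.l 204)))))) (T.b (T.b (T.b (T.b (T.a (T.l 204) (T.a (T.l 204) (T.l 204))) (T.l 1)) (T.l 1)) (T.l 1)) (T.l 1)))), by decide +kernel⟩

def A102E_031 :
    ∃ t, chk3 (onCell 0 67108864 0 1073741824 649613803 48318383 (corT true 1 c0B cA102E gB0q1 gB3q0 gB1q2 gB2q2 true true)) t 1 1 1 = true :=
  ⟨(T.b (T.l 2) (T.b (T.b (T.l 2) (T.b (T.l 2) (T.a (T.l 204) (T.a (T.l 204) (T.b (T.l 204) (T.l 204)))))) (T.a (T.l 1) (T.b (T.l 1) (T.l 1))))), by decide +kernel⟩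

def A102E_032 :
    ∃ t, chk3 (onCell 0 67108864 0 1073741824 649613803 48318383 (corT true 1 c0B cA102E gB0q1 gB3q0 gB2q2 gB3q2 true true)) t 1 1 1 = true :=
  ⟨(T.b (T.l 2) (T.b (T.b (T.l 2) (T.b (T.a (T.l 204) (T.a (T.l 204) (T.l 204))) (T.a (T.l 204) (T.a (T.l 204) (T.b (T.l 204) (T.l 1)))))) (T.l 1))), by decide +kernel⟩

def A102E_033 :
    ∃ t, chk3 (onCell 0 67108864 0 1073741824 649613803 48318383 (corT true 1 c0B cA102E gB0q1 gB3q0 gB3q2 gB4q2 true true)) t 1 1 1 = true :=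
  ⟨(T.b (T.l 2) (T.b (T.b (T.a (T.l 204) (T.b (T.a (T.l 204) (T.l 204)) (T.l 204))) (T.b (T.a (T.l 204) (T.a (T.l 204) (T.l 204))) (T.l 1))) (T.l 1))), by decide +kernel⟩

def A102E_034 :
    ∃ t, chk3 (onCell 0 67108864 0 1073741824 649613803 48318383 (corT true 1 c0B cA102E gB0q1 gB3q0 gB4q2 gB5q2 true false)) t 1 1 1 = true :=
  ⟨(T.b (T.b (T.a (T.a (T.l 204) (T.b (T.l 204) (T.l 204))) (T.b (T.l 0) (T.l 0))) (T.a (T.l 204) (T.b (T.l 0) (T.l 0)))) (T.b (T.b (T.a (T.l 204) (T.a (T.l 204) (T.l 204))) (T.l 1)) (T.l 1))), by decide +kernel⟩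

def A102E_040 :
    ∃ t, chk3 (onCell 0 67108864 0 1073741824 649613803 48318383 (corT true 1 c0B cA102E gB0q1 gB4q0 gB0q2 gB1q2 true true)) t 1 1 1 = true :=
  ⟨(T.b (T.l 2) (T.b (T.l 2) (T.b (T.l 2) (T.b (T.b (T.l 2) (T.a (T.l 204) (T.a (T.a (T.l 204) (T.l 204)) (T.l 204)))) (T.l 1))))), by decide +kernel⟩

def A102E_041 :
    ∃ t, chk3 (onCell 0 67108864 0 1073741824 649613803 48318383 (corT true 1 c0B cA102E gB0q1 gB4q0 gB1q2 gB2q2 true true)) t 1 1 1 = true :=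
  ⟨(T.b (T.l 2) (T.b (T.l 2) (T.b (T.l 2) (T.b (T.b (T.l 2) (T.a (T.l 204) (T.a (T.a (T.l 204) (T.l 204)) (T.l 204)))) (T.l 1))))), by decide +kernel⟩

def A102E_042 :
    ∃ t, chk3 (onCell 0 67108864 0 1073741824 649613803 48318383 (corT true 1 c0B cA102E gB0q1 gB4q0 gB2q2 gB3q2 true true)) t 1 1 1 = true :=
  ⟨(T.b (T.l 2) (T.b (T.l 2) (T.b (T.l 2) (T.b (T.b (T.a (T.l 204) (T.a (T.l 236) (T.l 204))) (T.a (T.l 204) (T.a (T.a (T.l 204) (T.l 204)) (T.l 204)))) (T.l 1))))), by decide +kernel⟩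

def A102E_043 :
    ∃ t, chk3 (onCell 0 67108864 0 1073741824 649613803 48318383 (corT true 1 c0B cA102E gB0q1 gB4q0 gB3q2 gB4q2 true true)) t 1 1 1 = true :=
  ⟨(T.b (T.l 2) (T.b (T.l 2) (T.b (T.a (T.l 204) (T.b (T.l 2) (T.a (T.l 204) (T.l 204)))) (T.b (T.a (T.l 204) (T.b (T.a (T.l 236) (T.l 204)) (T.l 1))) (T.l 1))))), by decide +kernel⟩

def A102E_044 :
    ∃ t, chk3 (onCell 0 67108864 0 1073741824 649613803 48318383 (corT true 1 c0B cA102E gB0q1 gB4q0 gB4q2 gB5q2 true false)) t 1 1 1 = true :=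
  ⟨(T.b (T.b (T.a (T.a (T.l 204) (T.l 0)) (T.b (T.l 204) (T.l 204))) (T.a (T.l 204) (T.b (T.l 204) (T.l 204)))) (T.a (T.b (T.l 204) (T.b (T.l 204) (T.l 1))) (T.b (T.b (T.b (T.l 204) (T.l 204)) (T.a (T.l 204) (T.l 204))) (T.b (T.a (T.l 204) (T.b (T.l 204) (T.l 204))) (T.l 1))))), by decide +kernel⟩

def A102R_007 :
    ∃ t, chk3 (onCell 0 67108864 0 1073741824 649613803 48318383 (corT true 1 c0B cA102R gB0q1 gB0q0 gB7q2 gB8q2 false true)) t 1 1 1 = true :=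
  ⟨(T.l 2), by decide +kernel⟩

def A102R_017 :
    ∃ t, chk3 (onCell 0 67108864 0 1073741824 649613803 48318383 (corT true 1 c0B cA102R gB0q1 gB1q0 gB7q2 gB8q2 false true)) t 1 1 1 = true :=
  ⟨(T.l 2), by decide +kernel⟩

def A102R_027 :
    ∃ t, chk3 (onCell 0 67108864 0 1073741824 649613803 48318383 (corT true 1 c0B cA102R gB0q1 gB2q0 gB7q2 gB8q2 false true)) t 1 1 1 = true :=
  ⟨(T.l 2), by decide +kernel⟩

def A102R_037 :
    ∃ t, chk3 (onCell 0 67108864 0 1073741824 649613803 48318383 (corT true 1 c0B cA102R gB0q1 gB3q0 gB7q2 gB8q2 false true)) t 1 1 1 = true :=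
  ⟨(T.l 2), by decide +kernel⟩

def A102R_047 :
    ∃ t, chk3 (onCell 0 67108864 0 1073741824 649613803 48318383 (corT true 1 c0B cA102R gB0q1 gB4q0 gB7q2 gB8q2 false true)) t 1 1 1 = true :=
  ⟨(T.l 2), by decide +kernel⟩

def A202E_000 :
    ∃ t, chk3 (onCell 0 67108864 0 1073741824 649613803 48318383 (corT true 1 c0B cA202E gB0q2 gB0q0 gB0q2 gB1q2 true true)) t 1 1 1 = true :=
  ⟨(T.l 2), by decide +kernel⟩

def A202E_001 :
    ∃ t, chk3 (onCell 0 67108864 0 1073741824 649613803 48318383 (corT true 1 c0B cA202E gB0q2 gB0q0 gB1q2 gB2q2 true true)) t 1 1 1 = true :=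
  ⟨(T.l 2), by decide +kernel⟩

def A202E_002 :
    ∃ t, chk3 (onCell 0 67108864 0 1073741824 649613803 48318383 (corT true 1 c0B cA202E gB0q2 gB0q0 gB2q2 gB3q2 true true)) t 1 1 1 = true :=
  ⟨(T.l 2), by decide +kernel⟩

def A202E_003 :
    ∃ t, chk3 (onCell 0 67108864 0 1073741824 649613803 48318383 (corT true 1 c0B cA202E gB0q2 gB0q0 gB3q2 gB4q2 true true)) t 1 1 1 = true :=
  ⟨(T.b (T.l 2) (T.l 2)), by decide +kernel⟩

def A202E_004 :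
    ∃ t, chk3 (onCell 0 67108864 0 1073741824 649613803 48318383 (corT true 1 c0B cA202E gB0q2 gB0q0 gB4q2 gB5q2 true false)) t 1 1 1 = true :=
  ⟨(T.b (T.b (T.a (T.a (T.l 0) (T.a (T.l 0) (T.a (T.l 204) (T.l 16)))) (T.a (T.b (T.a (T.l 204) (T.l 204)) (T.l 0)) (T.b (T.a (T.l 204) (T.l 204)) (T.l 0)))) (T.b (T.a (T.a (T.l 0) (T.l 0)) (T.a (T.l 0) (T.b (T.l 0) (T.l 0)))) (T.a (T.a (T.l 0) (T.l 0)) (T.a (T.b (T.l 0) (T.l 0)) (T.b (T.l 0) (T.l 0)))))) (T.b (T.b (T.a (T.a (T.l 816) (T.a (T.l 816) (T.l 816))) (T.a (T.b (T.l 0) (T.l 0)) (T.b (T.l 0) (T.l 0)))) (T.a (T.a (T.l 816) (T.a (T.l 816) (T.l 816))) (T.a (T.a (T.l 816) (T.l 0)) (T.b (T.l 0) (T.l 64))))) (T.b (T.a (T.a (T.l 816) (T.a (T.b (T.l 816) (T.l 816)) (T.l 816))) (T.a (T.a (T.b (T.l 816) (T.l 816)) (T.b (T.l 816) (T.l 816))) (T.a (T.l 816) (T.l 816)))) (T.a (T.a (T.l 816) (T.a (T.b (T.l 816) (T.l 816))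 (T.a (T.l 816) (T.l 816)))) (T.a (T.a (T.b (T.l 816) (T.l 816)) (T.b (T.l 816) (T.l 816))) (T.a (T.l 816) (T.l 816))))))), by decide +kernel⟩

def A202E_010 :
    ∃ t, chk3 (onCell 0 67108864 0 1073741824 649613803 48318383 (corT true 1 c0B cA202E gB0q2 gB1q0 gB0q2 gB1q2 true true)) t 1 1 1 = true :=
  ⟨(T.l 2), by decide +kernel⟩

def A202E_011 :
    ∃ t, chk3 (onCell 0 67108864 0 1073741824 649613803 48318383 (corT true 1 c0B cA202E gB0q2 gB1q0 gB1q2 gB2q2 true true)) t 1 1 1 = true :=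
  ⟨(T.l 2), by decide +kernel⟩

def A202E_012 :
    ∃ t, chk3 (onCell 0 67108864 0 1073741824 649613803 48318383 (corT true 1 c0B cA202E gB0q2 gB1q0 gB2q2 gB3q2 true true)) t 1 1 1 = true :=
  ⟨(T.l 2), by decide +kernel⟩

def A202E_013 :
    ∃ t, chk3 (onCell 0 67108864 0 1073741824 649613803 48318383 (corT true 1 c0B cA202E gB0q2 gB1q0 gB3q2 gB4q2 true true)) t 1 1 1 = true :=
  ⟨(T.l 2), by decide +kernel⟩

def A202E_014 :
    ∃ t, chk3 (onCell 0 67108864 0 1073741824 649613803 48318383 (corT true 1 c0B cA202E gB0q2 gB1q0 gB4q2 gB5q2 true false)) t 1 1 1 = true :=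
  ⟨(T.b (T.b (T.a (T.a (T.l 0) (T.a (T.l 204) (T.l 0))) (T.a (T.l 0) (T.l 204))) (T.b (T.a (T.a (T.l 0) (T.l 0)) (T.a (T.l 0) (T.l 0))) (T.a (T.a (T.l 0) (T.l 0)) (T.a (T.l 0) (T.b (T.l 0) (T.l 0)))))) (T.b (T.b (T.a (T.a (T.l 816) (T.a (T.l 816) (T.l 0))) (T.a (T.l 0) (T.b (T.l 0) (T.l 0)))) (T.a (T.a (T.l 816) (T.a (T.l 816) (T.l 816))) (T.a (T.a (T.l 816) (T.l 0)) (T.b (T.l 0) (T.l 0))))) (T.b (T.a (T.a (T.l 816) (T.a (T.b (T.l 816) (T.l 816)) (T.l 816))) (T.a (T.a (T.l 880) (T.l 816)) (T.b (T.l 64) (T.l 816)))) (T.a (T.a (T.l 816) (T.a (T.b (T.l 816) (T.l 816)) (T.a (T.l 816) (T.l 816)))) (T.a (T.a (T.b (T.l 816) (T.l 816)) (T.b (T.l 816) (T.l 816))) (T.a (T.l 816) (T.l 816))))))), by decide +kernel⟩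

def A202E_020 :
    ∃ t, chk3 (onCell 0 67108864 0 1073741824 649613803 48318383 (corT true 1 c0B cA202E gB0q2 gB2q0 gB0q2 gB1q2 true true)) t 1 1 1 = true :=
  ⟨(T.l 2), by decide +kernel⟩

def A202E_021 :
    ∃ t, chk3 (onCell 0 67108864 0 1073741824 649613803 48318383 (corT true 1 c0B cA202E gB0q2 gB2q0 gB1q2 gB2q2 true true)) t 1 1 1 = true :=
  ⟨(T.l 2), by decide +kernel⟩

def A202E_022 :
    ∃ t, chk3 (onCell 0 67108864 0 1073741824 649613803 48318383 (corT true 1 c0B cA202E gB0q2 gB2q0 gB2q2 gB3q2 true true)) t 1 1 1 = true :=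
  ⟨(T.l 2), by decide +kernel⟩

def A202E_023 :
    ∃ t, chk3 (onCell 0 67108864 0 1073741824 649613803 48318383 (corT true 1 c0B cA202E gB0q2 gB2q0 gB3q2 gB4q2 true true)) t 1 1 1 = true :=
  ⟨(T.l 2), by decide +kernel⟩

def A202E_024 :
    ∃ t, chk3 (onCell 0 67108864 0 1073741824 649613803 48318383 (corT true 1 c0B cA202E gB0q2 gB2q0 gB4q2 gB5q2 true false)) t 1 1 1 = true :=
  ⟨(T.b (T.b (T.a (T.a (T.l 204) (T.l 0)) (T.l 16)) (T.b (T.a (T.a (T.l 0) (T.l 0)) (T.a (T.l 0) (T.l 0))) (T.a (T.a (T.l 0) (T.l 0)) (T.a (T.l 0) (T.l 0))))) (T.b (T.b (T.a (T.a (T.l 0) (T.a (T.l 0) (T.l 0))) (T.a (T.l 0) (T.l 0))) (T.a (T.a (T.l 816) (T.a (T.l 816) (T.l 816))) (T.a (T.b (T.l 0) (T.l 0)) (T.b (T.l 0) (T.l 0))))) (T.b (T.a (T.a (T.l 816) (T.a (T.l 816) (T.l 816))) (T.a (T.a (T.l 816) (T.l 0)) (T.b (T.l 0) (T.l 0)))) (T.a (T.a (T.l 816) (T.a (T.b (T.l 816) (T.l 816))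 (T.a (T.l 816) (T.l 816)))) (T.a (T.a (T.b (T.l 816) (T.l 816)) (T.b (T.l 816) (T.l 816))) (T.a (T.l 816) (T.l 816))))))), by decide +kernel⟩

def A202E_030 :
    ∃ t, chk3 (onCell 0 67108864 0 1073741824 649613803 48318383 (corT true 1 c0B cA202E gB0q2 gB3q0 gB0q2 gB1q2 true true)) t 1 1 1 = true :=
  ⟨(T.l 2), by decide +kernel⟩

def A202E_031 :
    ∃ t, chk3 (onCell 0 67108864 0 1073741824 649613803 48318383 (corT true 1 c0B cA202E gB0q2 gB3q0 gB1q2 gB2q2 true true)) t 1 1 1 = true :=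
  ⟨(T.l 2), by decide +kernel⟩

def A202E_032 :
    ∃ t, chk3 (onCell 0 67108864 0 1073741824 649613803 48318383 (corT true 1 c0B cA202E gB0q2 gB3q0 gB2q2 gB3q2 true true)) t 1 1 1 = true :=
  ⟨(T.l 2), by decide +kernel⟩

def A202E_033 :
    ∃ t, chk3 (onCell 0 67108864 0 1073741824 649613803 48318383 (corT true 1 c0B cA202E gB0q2 gB3q0 gB3q2 gB4q2 true true)) t 1 1 1 = true :=
  ⟨(T.l 2), by decide +kernel⟩

def A202E_034 :
    ∃ t, chk3 (onCell 0 67108864 0 1073741824 649613803 48318383 (corT true 1 c0B cA202E gB0q2 gB3q0 gB4q2 gB5q2 true false)) t 1 1 1 = true :=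
  ⟨(T.b (T.b (T.a (T.a (T.l 204) (T.l 0)) (T.l 0)) (T.b (T.a (T.a (T.l 0) (T.l 0)) (T.b (T.l 0) (T.l 0))) (T.a (T.a (T.l 0) (T.l 0)) (T.a (T.l 0) (T.l 0))))) (T.b (T.b (T.a (T.a (T.l 0) (T.b (T.l 0) (T.l 0))) (T.a (T.l 0) (T.l 0))) (T.a (T.a (T.l 816) (T.a (T.l 0) (T.l 0))) (T.a (T.b (T.l 0) (T.l 0)) (T.l 0)))) (T.a (T.a (T.b (T.l 816) (T.l 816)) (T.a (T.b (T.l 816) (T.b (T.l 816) (T.l 816))) (T.b (T.l 816) (T.a (T.l 816) (T.l 816))))) (T.a (T.a (T.b (T.l 0) (T.b (T.l 816) (T.l 816))) (T.b (T.l 0) (T.b (T.l 816) (T.l 816)))) (T.b (T.b (T.l 0) (T.l 0)) (T.a (T.l 816) (T.l 816))))))), by decide +kernel⟩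

def A202E_040 :
    ∃ t, chk3 (onCell 0 67108864 0 1073741824 649613803 48318383 (corT true 1 c0B cA202E gB0q2 gB4q0 gB0q2 gB1q2 true true)) t 1 1 1 = true :=
  ⟨(T.l 2), by decide +kernel⟩

def A202E_041 :
    ∃ t, chk3 (onCell 0 67108864 0 1073741824 649613803 48318383 (corT true 1 c0B cA202E gB0q2 gB4q0 gB1q2 gB2q2 true true)) t 1 1 1 = true :=
  ⟨(T.l 2), by decide +kernel⟩

def A202E_042 :
    ∃ t, chk3 (onCell 0 67108864 0 1073741824 649613803 48318383 (corT true 1 c0B cA202E gB0q2 gB4q0 gB2q2 gB3q2 true true)) t 1 1 1 = true :=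
  ⟨(T.l 2), by decide +kernel⟩

def A202E_043 :
    ∃ t, chk3 (onCell 0 67108864 0 1073741824 649613803 48318383 (corT true 1 c0B cA202E gB0q2 gB4q0 gB3q2 gB4q2 true true)) t 1 1 1 = true :=
  ⟨(T.l 2), by decide +kernel⟩

def A202E_044 :
    ∃ t, chk3 (onCell 0 67108864 0 1073741824 649613803 48318383 (corT true 1 c0B cA202E gB0q2 gB4q0 gB4q2 gB5q2 true false)) t 1 1 1 = true :=
  ⟨(T.b (T.b (T.a (T.a (T.l 204) (T.l 204)) (T.l 204)) (T.b (T.a (T.a (T.l 204) (T.l 204)) (T.b (T.l 204) (T.l 204))) (T.a (T.a (T.l 0) (T.l 0)) (T.b (T.l 0) (T.l 0))))) (T.b (T.a (T.a (T.l 0) (T.a (T.l 0) (T.l 0))) (T.a (T.b (T.l 0) (T.l 0)) (T.b (T.l 0) (T.l 0)))) (T.a (T.a (T.b (T.l 816) (T.l 816)) (T.a (T.b (T.l 816) (T.b (T.l 816) (T.l 816))) (T.b (T.l 0) (T.a (T.l 816) (T.l 816))))) (T.a (T.b (T.b (T.l 0) (T.l 0)) (T.a (T.b (T.l 816) (T.l 816)) (T.b (T.l 816) (T.l 816)))) (T.b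 (T.b (T.l 0) (T.l 0)) (T.a (T.l 816) (T.l 0))))))), by decide +kernel⟩

def A202E_110 :
    ∃ t, chk3 (onCell 0 67108864 0 1073741824 649613803 48318383 (corT true 1 c0B cA202E gB1q2 gB1q0 gB0q2 gB1q2 true true)) t 1 1 1 = true :=
  ⟨(T.l 2), by decide +kernel⟩

def A202E_111 :
    ∃ t, chk3 (onCell 0 67108864 0 1073741824 649613803 48318383 (corT true 1 c0B cA202E gB1q2 gB1q0 gB1q2 gB2q2 true true)) t 1 1 1 = true :=
  ⟨(T.l 2), by decide +kernel⟩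

def A202E_112 :
    ∃ t, chk3 (onCell 0 67108864 0 1073741824 649613803 48318383 (corT true 1 c0B cA202E gB1q2 gB1q0 gB2q2 gB3q2 true true)) t 1 1 1 = true :=
  ⟨(T.l 2), by decide +kernel⟩

def A202E_113 :
    ∃ t, chk3 (onCell 0 67108864 0 1073741824 649613803 48318383 (corT true 1 c0B cA202E gB1q2 gB1q0 gB3q2 gB4q2 true true)) t 1 1 1 = true :=
  ⟨(T.l 2), by decide +kernel⟩

def A202E_114 :
    ∃ t, chk3 (onCell 0 67108864 0 1073741824 649613803 48318383 (corT true 1 c0B cA202E gB1q2 gB1q0 gB4q2 gB5q2 true false)) t 1 1 1 = true :=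
  ⟨(T.b (T.b (T.a (T.a (T.l 0) (T.a (T.l 204) (T.l 0))) (T.a (T.l 0) (T.l 204))) (T.b (T.a (T.a (T.l 0) (T.l 0)) (T.l 0)) (T.a (T.a (T.l 0) (T.l 0)) (T.a (T.l 0) (T.l 0))))) (T.b (T.b (T.a (T.a (T.l 816) (T.l 0)) (T.a (T.l 0) (T.b (T.l 0) (T.l 0)))) (T.a (T.a (T.l 816) (T.l 816)) (T.a (T.a (T.l 816) (T.l 0)) (T.b (T.l 0) (T.l 0))))) (T.a (T.a (T.l 816) (T.a (T.l 816) (T.a (T.l 816) (T.b (T.l 816) (T.l 816))))) (T.a (T.a (T.b (T.l 816) (T.b (T.l 816) (T.l 816))) (T.b (T.l 816) (T.l 816))) (T.b (T.b (T.l 816) (T.l 816)) (T.a (T.l 816) (T.l 816))))))), by decide +kernel⟩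

def A202E_120 :
    ∃ t, chk3 (onCell 0 67108864 0 1073741824 649613803 48318383 (corT true 1 c0B cA202E gB1q2 gB2q0 gB0q2 gB1q2 true true)) t 1 1 1 = true :=
  ⟨(T.l 2), by decide +kernel⟩

def A202E_121 :
    ∃ t, chk3 (onCell 0 67108864 0 1073741824 649613803 48318383 (corT true 1 c0B cA202E gB1q2 gB2q0 gB1q2 gB2q2 true true)) t 1 1 1 = true :=
  ⟨(T.l 2), by decide +kernel⟩

def A202E_122 :
    ∃ t, chk3 (onCell 0 67108864 0 1073741824 649613803 48318383 (corT true 1 c0B cA202E gB1q2 gB2q0 gB2q2 gB3q2 true true)) t 1 1 1 = true :=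
  ⟨(T.l 2), by decide +kernel⟩

def A202E_123 :
    ∃ t, chk3 (onCell 0 67108864 0 1073741824 649613803 48318383 (corT true 1 c0B cA202E gB1q2 gB2q0 gB3q2 gB4q2 true true)) t 1 1 1 = true :=
  ⟨(T.l 2), by decide +kernel⟩

def A202E_124 :
    ∃ t, chk3 (onCell 0 67108864 0 1073741824 649613803 48318383 (corT true 1 c0B cA202E gB1q2 gB2q0 gB4q2 gB5q2 true false)) t 1 1 1 = true :=
  ⟨(T.b (T.b (T.a (T.a (T.l 204) (T.l 0)) (T.l 0)) (T.b (T.a (T.a (T.l 0) (T.l 0)) (T.l 0)) (T.a (T.a (T.l 0) (T.l 0)) (T.a (T.l 0) (T.l 0))))) (T.b (T.b (T.a (T.a (T.l 0) (T.l 0)) (T.a (T.l 0) (T.l 0))) (T.a (T.a (T.l 816) (T.l 0)) (T.a (T.b (T.l 0) (T.l 0)) (T.l 0)))) (T.a (T.a (T.l 816) (T.a (T.l 816) (T.a (T.l 816) (T.b (T.l 816) (T.l 816))))) (T.a (T.a (T.b (T.l 816) (T.b (T.l 816) (T.l 816))) (T.b (T.l 816) (T.l 816))) (T.b (T.b (T.l 0) (T.l 816)) (T.a (T.l 816) (T.l 816))))))),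 by decide +kernel⟩

def A202E_130 :
    ∃ t, chk3 (onCell 0 67108864 0 1073741824 649613803 48318383 (corT true 1 c0B cA202E gB1q2 gB3q0 gB0q2 gB1q2 true true)) t 1 1 1 = true :=
  ⟨(T.l 2), by decide +kernel⟩

def A202E_131 :
    ∃ t, chk3 (onCell 0 67108864 0 1073741824 649613803 48318383 (corT true 1 c0B cA202E gB1q2 gB3q0 gB1q2 gB2q2 true true)) t 1 1 1 = true :=
  ⟨(T.l 2), by decide +kernel⟩

def A202E_132 :
    ∃ t, chk3 (onCell 0 67108864 0 1073741824 649613803 48318383 (corT true 1 c0B cA202E gB1q2 gB3q0 gB2q2 gB3q2 true true)) t 1 1 1 = true :=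
  ⟨(T.l 2), by decide +kernel⟩

def A202E_133 :
    ∃ t, chk3 (onCell 0 67108864 0 1073741824 649613803 48318383 (corT true 1 c0B cA202E gB1q2 gB3q0 gB3q2 gB4q2 true true)) t 1 1 1 = true :=
  ⟨(T.l 2), by decide +kernel⟩

end Pool.Agent.Strip051.G.I6050_6500.Tab.CG
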