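import Pool.Agent.Strip051.G.I6050_6500.CrnB
import Pool.Agent.Strip051.G.I6050_6500.CG_0
import Pool.Agent.Strip051.G.I6050_6500.CW_0

/-! # Aligned corners: the alternatives (generated) -/

set_option linter.all false

namespace Pool.Agent.Strip051.G.I6050_6500.Tab

open Pool.Agent.Strip051.PB Pool.Agent.StripNear Pool.Agent.Strip051.LC

theorem altB_A011E_00 {κ x : ℝ} (hκ : κ * h0 = ken x) (hx : ((649613803 : ℕ) : ℝ) / S ≤ x) (hx' : x ≤ (((649613803 : ℕ) : ℝ) + (48318383 : ℕ)) / S) :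
    AltEA 3 κ (eng.v x) (3 / 40) (tnt (h0 * x) (3 / 10)) PP tK tL tC pcB (scP esg pd) [⟨0, 0, 0, 67108864⟩, ⟨1, 1, 0, 67108864⟩, ⟨2, 1, 0, 67108864⟩] 0 1 1 0 0 (sgb true) (sgb false) x := by
  have X : XR 67108864 x := XR.of hx hx' (by norm_num) (by norm_num) (by norm_num) (by norm_num)
  have hen : 0 < eng.v x := en_pos X.x0.le
  refine CornW.altA (C := cA011E) (j := (0 : Fin 9)) (k := (0 : Fin 9)) (Ef := esg) (pd := pd) (o := 3 / 40)
    (cornW_of (C := cA011E) (C0 := c0B) (En := eng) (mo := mog) (j := (0 : Fin 9)) (k := (0 : Fin 9)) (lo := 0) (hi := 0) (W := 67108864) (N0 := 3) cA011E_q (sideB hx hx') gokB (pinU hx hx') dokB X (by norm_num) (by norm_num) (l := (0 : Fin 9)) rfl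
      (gatB00 x) (gatB01 x) (gatB01 x) (datB00 x) (datB01 x) (datB01 x) ?_)
    (cornS_of (C := cA011E) (C0 := c0B) (j := (0 : Fin 9)) (k := (0 : Fin 9)) (lo := 0) (hi := 0) (W := 67108864) (N0 := 3) cA011E_q (sideB hx hx') gokB X (by norm_num) (by norm_num) (l := (0 : Fin 9)) rfl
      (gatB00 x) (gatB01 x) (gatB01 x) ?_)
    (thU (pinU hx hx')) rfl hκ (fun j q y => tC_eq j q y x) (esg_rng X.x0.le (by linarith [X.b, X.p0])).1 (mo_v x) le_rfl le_rfl
  · intro ρ a B hρ hd i h1 h2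
    fin_cases i
    · exact corW_cert (G1 := gB0q0) (G2 := gB0q1) (Ga := gB0q1) (Gb := gB1q1) (D1 := dB0q0) (D2 := dB0q1) (Da := dB0q1) (Db := dB1q1) cA011E_ok B hρ hen (gatB00 x) (gatB01 x) (fun _ => gatB01 x) (fun h => absurd h (by decide)) (datB00 x) (datB01 x) (fun _ => datB01 x) (fun h => absurd h (by decide)) hd hx hx' CW.A011E_000
    · exact absurd h2 (by norm_num)
    · exact absurd h2 (by norm_num)
    · exact absurd h2 (by norm_num)
    · exact absurd h2 (by norm_num)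
    · exact absurd h2 (by norm_num)
    · exact absurd h2 (by norm_num)
    · exact absurd h2 (by norm_num)
  · intro ρ a B hρ hd i h1 h2
    fin_cases i
    · exact corT_cert (G1 := gB0q0) (G2 := gB0q1) (Ga := gB0q1) (Gb := gB1q1) cA011E_ok B hρ (gatB00 x) (gatB01 x) (fun _ => gatB01 x) (fun h => absurd h (by decide)) hd hx hx' CG.A011E_000
    · exact absurd h2 (by norm_num)
    · exact absurd h2 (by norm_num)
    · exact absurd h2 (by norm_num)
    · exact absurd h2 (by norm_num)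
    · exact absurd h2 (by norm_num)
    · exact absurd h2 (by norm_num)
    · exact absurd h2 (by norm_num)

theorem altB_A011L_00 {κ x : ℝ} (hκ : κ * h0 = ken x) (hx : ((649613803 : ℕ) : ℝ) / S ≤ x) (hx' : x ≤ (((649613803 : ℕ) : ℝ) + (48318383 : ℕ)) / S) :
    AltEA 3 κ (eng.v x) (3 / 40) (tnt (h0 * x) (3 / 10)) PP tK tL tC pcB (scP esg pd) [⟨0, 0, 0, 67108864⟩, ⟨1, 1, 0, 67108864⟩, ⟨2, 1, 0, 67108864⟩] 0 1 1 0 0 (sgb true) (sgb true) x := by
  have X : XR 67108864 x := XR.of hx hx' (by norm_num) (by norm_num) (by norm_num) (by norm_num)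
  have hen : 0 < eng.v x := en_pos X.x0.le
  refine CornW.altA (C := cA011L) (j := (0 : Fin 9)) (k := (0 : Fin 9)) (Ef := esg) (pd := pd) (o := 3 / 40)
    (cornW_of (C := cA011L) (C0 := c0B) (En := eng) (mo := mog) (j := (0 : Fin 9)) (k := (0 : Fin 9)) (lo := 5) (hi := 8) (W := 67108864) (N0 := 3) cA011L_q (sideB hx hx') gokB (pinU hx hx') dokB X (by norm_num) (by norm_num) (l := (5 : Fin 9)) rfl
      (gatB00 x) (gatB01 x) (gatB51 x) (datB00 x) (datB01 x) (datB51 x) ?_)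
    (cornS_of (C := cA011L) (C0 := c0B) (j := (0 : Fin 9)) (k := (0 : Fin 9)) (lo := 5) (hi := 8) (W := 67108864) (N0 := 3) cA011L_q (sideB hx hx') gokB X (by norm_num) (by norm_num) (l := (5 : Fin 9)) rfl
      (gatB00 x) (gatB01 x) (gatB51 x) ?_)
    (thU (pinU hx hx')) rfl hκ (fun j q y => tC_eq j q y x) (esg_rng X.x0.le (by linarith [X.b, X.p0])).1 (mo_v x) le_rfl le_rfl
  · intro ρ a B hρ hd i h1 h2
    fin_cases i
    · exact absurd h1 (by norm_num)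
    · exact absurd h1 (by norm_num)
    · exact absurd h1 (by norm_num)
    · exact absurd h1 (by norm_num)
    · exact corW_cert (G1 := gB0q0) (G2 := gB0q1) (Ga := gB4q1) (Gb := gB5q1) (D1 := dB0q0) (D2 := dB0q1) (Da := dB4q1) (Db := dB5q1) cA011L_ok B hρ hen (gatB00 x) (gatB01 x) (fun h => absurd h (by decide)) (fun _ => gatB51 x) (datB00 x) (datB01 x) (fun h => absurd h (by decide)) (fun _ => datB51 x) hd hx hx' CW.A011L_004
    · exact corW_cert (G1 := gB0q0) (G2 := gB0q1) (Ga := gB5q1) (Gb := gB6q1) (D1 := dB0q0) (D2 := dB0q1) (Da := dB5q1) (Db := dB6q1) cA011L_ok B hρ hen (gatB00 x) (gatB01 x) (fun _ => gatB51 x) (fun _ => gatB61 x) (datB00 x) (datB01 x) (fun _ => datB51 x) (fun _ => datB61 x) hd hx hx' CW.A011L_005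
    · exact corW_cert (G1 := gB0q0) (G2 := gB0q1) (Ga := gB6q1) (Gb := gB7q1) (D1 := dB0q0) (D2 := dB0q1) (Da := dB6q1) (Db := dB7q1) cA011L_ok B hρ hen (gatB00 x) (gatB01 x) (fun _ => gatB61 x) (fun _ => gatB71 x) (datB00 x) (datB01 x) (fun _ => datB61 x) (fun _ => datB71 x) hd hx hx' CW.A011L_006
    · exact corW_cert (G1 := gB0q0) (G2 := gB0q1) (Ga := gB7q1) (Gb := gB8q1) (D1 := dB0q0) (D2 := dB0q1) (Da := dB7q1) (Db := dB8q1) cA011L_ok B hρ hen (gatB00 x) (gatB01 x) (fun _ => gatB71 x) (fun _ => gatB81 x) (datB00 x) (datB01 x) (fun _ => datB71 x) (fun _ => datB81 x) hd hx hx' CW.A011L_007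
  · intro ρ a B hρ hd i h1 h2
    fin_cases i
    · exact absurd h1 (by norm_num)
    · exact absurd h1 (by norm_num)
    · exact absurd h1 (by norm_num)
    · exact absurd h1 (by norm_num)
    · exact corT_cert (G1 := gB0q0) (G2 := gB0q1) (Ga := gB4q1) (Gb := gB5q1) cA011L_ok B hρ (gatB00 x) (gatB01 x) (fun h => absurd h (by decide)) (fun _ => gatB51 x) hd hx hx' CG.A011L_004
    · exact corT_cert (G1 := gB0q0) (G2 := gB0q1) (Ga := gB5q1) (Gb := gB6q1) cA011L_ok B hρ (gatB00 x) (gatB01 x) (fun _ => gatB51 x) (fun _ => gatB61 x) hd hx hx' CG.A011L_005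
    · exact corT_cert (G1 := gB0q0) (G2 := gB0q1) (Ga := gB6q1) (Gb := gB7q1) cA011L_ok B hρ (gatB00 x) (gatB01 x) (fun _ => gatB61 x) (fun _ => gatB71 x) hd hx hx' CG.A011L_006
    · exact corT_cert (G1 := gB0q0) (G2 := gB0q1) (Ga := gB7q1) (Gb := gB8q1) cA011L_ok B hρ (gatB00 x) (gatB01 x) (fun _ => gatB71 x) (fun _ => gatB81 x) hd hx hx' CG.A011L_007

theorem altB_A011R_05 {κ x : ℝ} (hκ : κ * h0 = ken x) (hx : ((649613803 : ℕ) : ℝ) / S ≤ x) (hx' : x ≤ (((649613803 : ℕ) : ℝ) + (48318383 : ℕ)) / S) :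
    AltEA 3 κ (eng.v x) (3 / 40) (tnt (h0 * x) (3 / 10)) PP tK tL tC pcB (scP esg pd) [⟨0, 0, 0, 67108864⟩, ⟨1, 1, 0, 67108864⟩, ⟨2, 1, 0, 67108864⟩] 0 1 1 0 5 (sgb true) (sgb false) x := by
  have X : XR 67108864 x := XR.of hx hx' (by norm_num) (by norm_num) (by norm_num) (by norm_num)
  have hen : 0 < eng.v x := en_pos X.x0.le
  refine CornW.altA (C := cA011R) (j := (0 : Fin 9)) (k := (5 : Fin 9)) (Ef := esg) (pd := pd) (o := 3 / 40)
    (cornW_of (C := cA011R) (C0 := c0B) (En := eng) (mo := mog) (j := (0 : Fin 9)) (k := (5 : Fin 9)) (lo := 0) (hi := 0) (W := 67108864) (N0 := 3) cA011R_q (sideB hx hx') gokB (pinU hx hx') dokB X (by norm_num) (by norm_num) (l := (0 : Fin 9)) rfl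
      (gatB00 x) (gatB51 x) (gatB01 x) (datB00 x) (datB51 x) (datB01 x) ?_)
    (cornS_of (C := cA011R) (C0 := c0B) (j := (0 : Fin 9)) (k := (5 : Fin 9)) (lo := 0) (hi := 0) (W := 67108864) (N0 := 3) cA011R_q (sideB hx hx') gokB X (by norm_num) (by norm_num) (l := (0 : Fin 9)) rfl
      (gatB00 x) (gatB51 x) (gatB01 x) ?_)
    (thU (pinU hx hx')) rfl hκ (fun j q y => tC_eq j q y x) (esg_rng X.x0.le (by linarith [X.b, X.p0])).1 (mo_v x) le_rfl le_rfl
  · intro ρ a B hρ hd i h1 h2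
    fin_cases i
    · exact corW_cert (G1 := gB0q0) (G2 := gB5q1) (Ga := gB0q1) (Gb := gB1q1) (D1 := dB0q0) (D2 := dB5q1) (Da := dB0q1) (Db := dB1q1) cA011R_ok B hρ hen (gatB00 x) (gatB51 x) (fun _ => gatB01 x) (fun h => absurd h (by decide)) (datB00 x) (datB51 x) (fun _ => datB01 x) (fun h => absurd h (by decide)) hd hx hx' CW.A011R_050
    · exact absurd h2 (by norm_num)
    · exact absurd h2 (by norm_num)
    · exact absurd h2 (by norm_num)
    · exact absurd h2 (by norm_num)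
    · exact absurd h2 (by norm_num)
    · exact absurd h2 (by norm_num)
    · exact absurd h2 (by norm_num)
  · intro ρ a B hρ hd i h1 h2
    fin_cases i
    · exact corT_cert (G1 := gB0q0) (G2 := gB5q1) (Ga := gB0q1) (Gb := gB1q1) cA011R_ok B hρ (gatB00 x) (gatB51 x) (fun _ => gatB01 x) (fun h => absurd h (by decide)) hd hx hx' CG.A011R_050
    · exact absurd h2 (by norm_num)
    · exact absurd h2 (by norm_num)
    · exact absurd h2 (by norm_num)
    · exact absurd h2 (by norm_num)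
    · exact absurd h2 (by norm_num)
    · exact absurd h2 (by norm_num)
    · exact absurd h2 (by norm_num)

theorem altB_A011R_06 {κ x : ℝ} (hκ : κ * h0 = ken x) (hx : ((649613803 : ℕ) : ℝ) / S ≤ x) (hx' : x ≤ (((649613803 : ℕ) : ℝ) + (48318383 : ℕ)) / S) :
    AltEA 3 κ (eng.v x) (3 / 40) (tnt (h0 * x) (3 / 10)) PP tK tL tC pcB (scP esg pd) [⟨0, 0, 0, 67108864⟩, ⟨1, 1, 0, 67108864⟩, ⟨2, 1, 0, 67108864⟩] 0 1 1 0 6 (sgb true) (sgb false) x := by
  have X : XR 67108864 x := XR.of hx hx' (by norm_num) (by norm_num) (by norm_num) (by norm_num)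
  have hen : 0 < eng.v x := en_pos X.x0.le
  refine CornW.altA (C := cA011R) (j := (0 : Fin 9)) (k := (6 : Fin 9)) (Ef := esg) (pd := pd) (o := 3 / 40)
    (cornW_of (C := cA011R) (C0 := c0B) (En := eng) (mo := mog) (j := (0 : Fin 9)) (k := (6 : Fin 9)) (lo := 0) (hi := 0) (W := 67108864) (N0 := 3) cA011R_q (sideB hx hx') gokB (pinU hx hx') dokB X (by norm_num) (by norm_num) (l := (0 : Fin 9)) rfl
      (gatB00 x) (gatB61 x) (gatB01 x) (datB00 x) (datB61 x) (datB01 x) ?_)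
    (cornS_of (C := cA011R) (C0 := c0B) (j := (0 : Fin 9)) (k := (6 : Fin 9)) (lo := 0) (hi := 0) (W := 67108864) (N0 := 3) cA011R_q (sideB hx hx') gokB X (by norm_num) (by norm_num) (l := (0 : Fin 9)) rfl
      (gatB00 x) (gatB61 x) (gatB01 x) ?_)
    (thU (pinU hx hx')) rfl hκ (fun j q y => tC_eq j q y x) (esg_rng X.x0.le (by linarith [X.b, X.p0])).1 (mo_v x) le_rfl le_rfl
  · intro ρ a B hρ hd i h1 h2
    fin_cases i
    · exact corW_cert (G1 := gB0q0) (G2 := gB6q1) (Ga := gB0q1) (Gb := gB1q1) (D1 := dB0q0) (D2 := dB6q1) (Da := dB0q1) (Db := dB1q1) cA011R_ok B hρ hen (gatB00 x) (gatB61 x) (fun _ => gatB01 x) (fun h => absurd h (by decide)) (datB00 x) (datB61 x) (fun _ => datB01 x) (fun h => absurd h (by decide)) hd hx hx' CW.A011R_060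
    · exact absurd h2 (by norm_num)
    · exact absurd h2 (by norm_num)
    · exact absurd h2 (by norm_num)
    · exact absurd h2 (by norm_num)
    · exact absurd h2 (by norm_num)
    · exact absurd h2 (by norm_num)
    · exact absurd h2 (by norm_num)
  · intro ρ a B hρ hd i h1 h2
    fin_cases i
    · exact corT_cert (G1 := gB0q0) (G2 := gB6q1) (Ga := gB0q1) (Gb := gB1q1) cA011R_ok B hρ (gatB00 x) (gatB61 x) (fun _ => gatB01 x) (fun h => absurd h (by decide)) hd hx hx' CG.A011R_060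
    · exact absurd h2 (by norm_num)
    · exact absurd h2 (by norm_num)
    · exact absurd h2 (by norm_num)
    · exact absurd h2 (by norm_num)
    · exact absurd h2 (by norm_num)
    · exact absurd h2 (by norm_num)
    · exact absurd h2 (by norm_num)

theorem altB_A011R_07 {κ x : ℝ} (hκ : κ * h0 = ken x) (hx : ((649613803 : ℕ) : ℝ) / S ≤ x) (hx' : x ≤ (((649613803 : ℕ) : ℝ) + (48318383 : ℕ)) / S) :
    AltEA 3 κ (eng.v x) (3 / 40) (tnt (h0 * x) (3 / 10)) PP tK tL tC pcB (scP esg pd) [⟨0, 0, 0, 67108864⟩, ⟨1, 1, 0, 67108864⟩, ⟨2, 1, 0, 67108864⟩] 0 1 1 0 7 (sgb true) (sgb false) x := by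
  have X : XR 67108864 x := XR.of hx hx' (by norm_num) (by norm_num) (by norm_num) (by norm_num)
  have hen : 0 < eng.v x := en_pos X.x0.le
  refine CornW.altA (C := cA011R) (j := (0 : Fin 9)) (k := (7 : Fin 9)) (Ef := esg) (pd := pd) (o := 3 / 40)
    (cornW_of (C := cA011R) (C0 := c0B) (En := eng) (mo := mog) (j := (0 : Fin 9)) (k := (7 : Fin 9)) (lo := 0) (hi := 0) (W := 67108864) (N0 := 3) cA011R_q (sideB hx hx') gokB (pinU hx hx') dokB X (by norm_num) (by norm_num) (l := (0 : Fin 9)) rfl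
      (gatB00 x) (gatB71 x) (gatB01 x) (datB00 x) (datB71 x) (datB01 x) ?_)
    (cornS_of (C := cA011R) (C0 := c0B) (j := (0 : Fin 9)) (k := (7 : Fin 9)) (lo := 0) (hi := 0) (W := 67108864) (N0 := 3) cA011R_q (sideB hx hx') gokB X (by norm_num) (by norm_num) (l := (0 : Fin 9)) rfl
      (gatB00 x) (gatB71 x) (gatB01 x) ?_)
    (thU (pinU hx hx')) rfl hκ (fun j q y => tC_eq j q y x) (esg_rng X.x0.le (by linarith [X.b, X.p0])).1 (mo_v x) le_rfl le_rfl
  · intro ρ a B hρ hd i h1 h2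
    fin_cases i
    · exact corW_cert (G1 := gB0q0) (G2 := gB7q1) (Ga := gB0q1) (Gb := gB1q1) (D1 := dB0q0) (D2 := dB7q1) (Da := dB0q1) (Db := dB1q1) cA011R_ok B hρ hen (gatB00 x) (gatB71 x) (fun _ => gatB01 x) (fun h => absurd h (by decide)) (datB00 x) (datB71 x) (fun _ => datB01 x) (fun h => absurd h (by decide)) hd hx hx' CW.A011R_070
    · exact absurd h2 (by norm_num)
    · exact absurd h2 (by norm_num)
    · exact absurd h2 (by norm_num)
    · exact absurd h2 (by norm_num)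
    · exact absurd h2 (by norm_num)
    · exact absurd h2 (by norm_num)
    · exact absurd h2 (by norm_num)
  · intro ρ a B hρ hd i h1 h2
    fin_cases i
    · exact corT_cert (G1 := gB0q0) (G2 := gB7q1) (Ga := gB0q1) (Gb := gB1q1) cA011R_ok B hρ (gatB00 x) (gatB71 x) (fun _ => gatB01 x) (fun h => absurd h (by decide)) hd hx hx' CG.A011R_070
    · exact absurd h2 (by norm_num)
    · exact absurd h2 (by norm_num)
    · exact absurd h2 (by norm_num)
    · exact absurd h2 (by norm_num)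
    · exact absurd h2 (by norm_num)
    · exact absurd h2 (by norm_num)
    · exact absurd h2 (by norm_num)

theorem altB_A011R_08 {κ x : ℝ} (hκ : κ * h0 = ken x) (hx : ((649613803 : ℕ) : ℝ) / S ≤ x) (hx' : x ≤ (((649613803 : ℕ) : ℝ) + (48318383 : ℕ)) / S) :
    AltEA 3 κ (eng.v x) (3 / 40) (tnt (h0 * x) (3 / 10)) PP tK tL tC pcB (scP esg pd) [⟨0, 0, 0, 53687091⟩, ⟨1, 1, 0, 53687091⟩, ⟨2, 1, 0, 53687091⟩] 0 1 1 0 8 (sgb true) (sgb false) x := by
  have X : XR 53687091 x := XR.of hx hx' (by norm_num) (by norm_num) (by norm_num) (by norm_num)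
  have hen : 0 < eng.v x := en_pos X.x0.le
  refine CornW.altA (C := cA011R) (j := (0 : Fin 9)) (k := (8 : Fin 9)) (Ef := esg) (pd := pd) (o := 3 / 40)
    (cornW_of (C := cA011R) (C0 := c0B) (En := eng) (mo := mog) (j := (0 : Fin 9)) (k := (8 : Fin 9)) (lo := 0) (hi := 0) (W := 53687091) (N0 := 3) cA011R_q (sideB hx hx') gokB (pinU hx hx') dokB X (by norm_num) (by norm_num) (l := (0 : Fin 9)) rfl
      (gatB00 x) (gatB81 x) (gatB01 x) (datB00 x) (datB81 x) (datB01 x) ?_)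
    (cornS_of (C := cA011R) (C0 := c0B) (j := (0 : Fin 9)) (k := (8 : Fin 9)) (lo := 0) (hi := 0) (W := 53687091) (N0 := 3) cA011R_q (sideB hx hx') gokB X (by norm_num) (by norm_num) (l := (0 : Fin 9)) rfl
      (gatB00 x) (gatB81 x) (gatB01 x) ?_)
    (thU (pinU hx hx')) rfl hκ (fun j q y => tC_eq j q y x) (esg_rng X.x0.le (by linarith [X.b, X.p0])).1 (mo_v x) le_rfl le_rfl
  · intro ρ a B hρ hd i h1 h2
    fin_cases i
    · exact corW_cert (G1 := gB0q0) (G2 := gB8q1) (Ga := gB0q1) (Gb := gB1q1) (D1 := dB0q0) (D2 := dB8q1) (Da := dB0q1) (Db := dB1q1) cA011R_ok B hρ hen (gatB00 x) (gatB81 x) (fun _ => gatB01 x) (fun h => absurd h (by decide)) (datB00 x) (datB81 x) (fun _ => datB01 x) (fun h => absurd h (by decide)) hd hx hx' CW.A011R_080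
    · exact absurd h2 (by norm_num)
    · exact absurd h2 (by norm_num)
    · exact absurd h2 (by norm_num)
    · exact absurd h2 (by norm_num)
    · exact absurd h2 (by norm_num)
    · exact absurd h2 (by norm_num)
    · exact absurd h2 (by norm_num)
  · intro ρ a B hρ hd i h1 h2
    fin_cases i
    · exact corX_cert (G1 := gB0q0) (G2 := gB8q1) (Ga := gB0q1) (Gb := gB1q1) (GT := gB0q1) cA011R_ok tA011R_ok B hρ (gatB00 x) (gatB81 x) (fun _ => gatB01 x) (fun h => absurd h (by decide)) rfl (tgh_A011R (kodd x) (gpu0 x) (gpt1 x) (gpu1 x) (gatB00 x) (gatB81 x) (gatB01 x) B (le_sixteenth hd (by norm_num))) hd hx hx' CG.A011R_080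
    · exact absurd h2 (by norm_num)
    · exact absurd h2 (by norm_num)
    · exact absurd h2 (by norm_num)
    · exact absurd h2 (by norm_num)
    · exact absurd h2 (by norm_num)
    · exact absurd h2 (by norm_num)
    · exact absurd h2 (by norm_num)

theorem altB_A011R_15 {κ x : ℝ} (hκ : κ * h0 = ken x) (hx : ((649613803 : ℕ) : ℝ) / S ≤ x) (hx' : x ≤ (((649613803 : ℕ) : ℝ) + (48318383 : ℕ)) / S) :
    AltEA 3 κ (eng.v x) (3 / 40) (tnt (h0 * x) (3 / 10)) PP tK tL tC pcB (scP esg pd) [⟨0, 0, 0, 67108864⟩, ⟨1, 1, 0, 67108864⟩, ⟨2, 1, 0, 67108864⟩] 0 1 1 1 5 (sgb true) (sgb false) x := by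
  have X : XR 67108864 x := XR.of hx hx' (by norm_num) (by norm_num) (by norm_num) (by norm_num)
  have hen : 0 < eng.v x := en_pos X.x0.le
  refine CornW.altA (C := cA011R) (j := (1 : Fin 9)) (k := (5 : Fin 9)) (Ef := esg) (pd := pd) (o := 3 / 40)
    (cornW_of (C := cA011R) (C0 := c0B) (En := eng) (mo := mog) (j := (1 : Fin 9)) (k := (5 : Fin 9)) (lo := 0) (hi := 0) (W := 67108864) (N0 := 3) cA011R_q (sideB hx hx') gokB (pinU hx hx') dokB X (by norm_num) (by norm_num) (l := (0 : Fin 9)) rfl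
      (gatB10 x) (gatB51 x) (gatB01 x) (datB10 x) (datB51 x) (datB01 x) ?_)
    (cornS_of (C := cA011R) (C0 := c0B) (j := (1 : Fin 9)) (k := (5 : Fin 9)) (lo := 0) (hi := 0) (W := 67108864) (N0 := 3) cA011R_q (sideB hx hx') gokB X (by norm_num) (by norm_num) (l := (0 : Fin 9)) rfl
      (gatB10 x) (gatB51 x) (gatB01 x) ?_)
    (thU (pinU hx hx')) rfl hκ (fun j q y => tC_eq j q y x) (esg_rng X.x0.le (by linarith [X.b, X.p0])).1 (mo_v x) le_rfl le_rfl
  · intro ρ a B hρ hd i h1 h2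
    fin_cases i
    · exact corW_cert (G1 := gB1q0) (G2 := gB5q1) (Ga := gB0q1) (Gb := gB1q1) (D1 := dB1q0) (D2 := dB5q1) (Da := dB0q1) (Db := dB1q1) cA011R_ok B hρ hen (gatB10 x) (gatB51 x) (fun _ => gatB01 x) (fun h => absurd h (by decide)) (datB10 x) (datB51 x) (fun _ => datB01 x) (fun h => absurd h (by decide)) hd hx hx' CW.A011R_150
    · exact absurd h2 (by norm_num)
    · exact absurd h2 (by norm_num)
    · exact absurd h2 (by norm_num)
    · exact absurd h2 (by norm_num)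
    · exact absurd h2 (by norm_num)
    · exact absurd h2 (by norm_num)
    · exact absurd h2 (by norm_num)
  · intro ρ a B hρ hd i h1 h2
    fin_cases i
    · exact corT_cert (G1 := gB1q0) (G2 := gB5q1) (Ga := gB0q1) (Gb := gB1q1) cA011R_ok B hρ (gatB10 x) (gatB51 x) (fun _ => gatB01 x) (fun h => absurd h (by decide)) hd hx hx' CG.A011R_150
    · exact absurd h2 (by norm_num)
    · exact absurd h2 (by norm_num)
    · exact absurd h2 (by norm_num)
    · exact absurd h2 (by norm_num)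
    · exact absurd h2 (by norm_num)
    · exact absurd h2 (by norm_num)
    · exact absurd h2 (by norm_num)

theorem altB_A011R_16 {κ x : ℝ} (hκ : κ * h0 = ken x) (hx : ((649613803 : ℕ) : ℝ) / S ≤ x) (hx' : x ≤ (((649613803 : ℕ) : ℝ) + (48318383 : ℕ)) / S) :
    AltEA 3 κ (eng.v x) (3 / 40) (tnt (h0 * x) (3 / 10)) PP tK tL tC pcB (scP esg pd) [⟨0, 0, 0, 67108864⟩, ⟨1, 1, 0, 67108864⟩, ⟨2, 1, 0, 67108864⟩] 0 1 1 1 6 (sgb true) (sgb false) x := by
  have X : XR 67108864 x := XR.of hx hx' (by norm_num) (by norm_num) (by norm_num) (by norm_num)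
  have hen : 0 < eng.v x := en_pos X.x0.le
  refine CornW.altA (C := cA011R) (j := (1 : Fin 9)) (k := (6 : Fin 9)) (Ef := esg) (pd := pd) (o := 3 / 40)
    (cornW_of (C := cA011R) (C0 := c0B) (En := eng) (mo := mog) (j := (1 : Fin 9)) (k := (6 : Fin 9)) (lo := 0) (hi := 0) (W := 67108864) (N0 := 3) cA011R_q (sideB hx hx') gokB (pinU hx hx') dokB X (by norm_num) (by norm_num) (l := (0 : Fin 9)) rfl
      (gatB10 x) (gatB61 x) (gatB01 x) (datB10 x) (datB61 x) (datB01 x) ?_)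
    (cornS_of (C := cA011R) (C0 := c0B) (j := (1 : Fin 9)) (k := (6 : Fin 9)) (lo := 0) (hi := 0) (W := 67108864) (N0 := 3) cA011R_q (sideB hx hx') gokB X (by norm_num) (by norm_num) (l := (0 : Fin 9)) rfl
      (gatB10 x) (gatB61 x) (gatB01 x) ?_)
    (thU (pinU hx hx')) rfl hκ (fun j q y => tC_eq j q y x) (esg_rng X.x0.le (by linarith [X.b, X.p0])).1 (mo_v x) le_rfl le_rfl
  · intro ρ a B hρ hd i h1 h2
    fin_cases i
    · exact corW_cert (G1 := gB1q0) (G2 := gB6q1) (Ga := gB0q1) (Gb := gB1q1) (D1 := dB1q0) (D2 := dB6q1) (Da := dB0q1) (Db := dB1q1) cA011R_ok B hρ hen (gatB10 x) (gatB61 x) (fun _ => gatB01 x) (fun h => absurd h (by decide)) (datB10 x) (datB61 x) (fun _ => datB01 x) (fun h => absurd h (by decide)) hd hx hx' CW.A011R_160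
    · exact absurd h2 (by norm_num)
    · exact absurd h2 (by norm_num)
    · exact absurd h2 (by norm_num)
    · exact absurd h2 (by norm_num)
    · exact absurd h2 (by norm_num)
    · exact absurd h2 (by norm_num)
    · exact absurd h2 (by norm_num)
  · intro ρ a B hρ hd i h1 h2
    fin_cases i
    · exact corT_cert (G1 := gB1q0) (G2 := gB6q1) (Ga := gB0q1) (Gb := gB1q1) cA011R_ok B hρ (gatB10 x) (gatB61 x) (fun _ => gatB01 x) (fun h => absurd h (by decide)) hd hx hx' CG.A011R_160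
    · exact absurd h2 (by norm_num)
    · exact absurd h2 (by norm_num)
    · exact absurd h2 (by norm_num)
    · exact absurd h2 (by norm_num)
    · exact absurd h2 (by norm_num)
    · exact absurd h2 (by norm_num)
    · exact absurd h2 (by norm_num)

theorem altB_A011R_17 {κ x : ℝ} (hκ : κ * h0 = ken x) (hx : ((649613803 : ℕ) : ℝ) / S ≤ x) (hx' : x ≤ (((649613803 : ℕ) : ℝ) + (48318383 : ℕ)) / S) :
    AltEA 3 κ (eng.v x) (3 / 40) (tnt (h0 * x) (3 / 10)) PP tK tL tC pcB (scP esg pd) [⟨0, 0, 0, 67108864⟩, ⟨1, 1, 0, 67108864⟩, ⟨2, 1, 0, 67108864⟩] 0 1 1 1 7 (sgb true) (sgb false) x := by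
  have X : XR 67108864 x := XR.of hx hx' (by norm_num) (by norm_num) (by norm_num) (by norm_num)
  have hen : 0 < eng.v x := en_pos X.x0.le
  refine CornW.altA (C := cA011R) (j := (1 : Fin 9)) (k := (7 : Fin 9)) (Ef := esg) (pd := pd) (o := 3 / 40)
    (cornW_of (C := cA011R) (C0 := c0B) (En := eng) (mo := mog) (j := (1 : Fin 9)) (k := (7 : Fin 9)) (lo := 0) (hi := 0) (W := 67108864) (N0 := 3) cA011R_q (sideB hx hx') gokB (pinU hx hx') dokB X (by norm_num) (by norm_num) (l := (0 : Fin 9)) rfl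
      (gatB10 x) (gatB71 x) (gatB01 x) (datB10 x) (datB71 x) (datB01 x) ?_)
    (cornS_of (C := cA011R) (C0 := c0B) (j := (1 : Fin 9)) (k := (7 : Fin 9)) (lo := 0) (hi := 0) (W := 67108864) (N0 := 3) cA011R_q (sideB hx hx') gokB X (by norm_num) (by norm_num) (l := (0 : Fin 9)) rfl
      (gatB10 x) (gatB71 x) (gatB01 x) ?_)
    (thU (pinU hx hx')) rfl hκ (fun j q y => tC_eq j q y x) (esg_rng X.x0.le (by linarith [X.b, X.p0])).1 (mo_v x) le_rfl le_rfl
  · intro ρ a B hρ hd i h1 h2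
    fin_cases i
    · exact corW_cert (G1 := gB1q0) (G2 := gB7q1) (Ga := gB0q1) (Gb := gB1q1) (D1 := dB1q0) (D2 := dB7q1) (Da := dB0q1) (Db := dB1q1) cA011R_ok B hρ hen (gatB10 x) (gatB71 x) (fun _ => gatB01 x) (fun h => absurd h (by decide)) (datB10 x) (datB71 x) (fun _ => datB01 x) (fun h => absurd h (by decide)) hd hx hx' CW.A011R_170
    · exact absurd h2 (by norm_num)
    · exact absurd h2 (by norm_num)
    · exact absurd h2 (by norm_num)
    · exact absurd h2 (by norm_num)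
    · exact absurd h2 (by norm_num)
    · exact absurd h2 (by norm_num)
    · exact absurd h2 (by norm_num)
  · intro ρ a B hρ hd i h1 h2
    fin_cases i
    · exact corT_cert (G1 := gB1q0) (G2 := gB7q1) (Ga := gB0q1) (Gb := gB1q1) cA011R_ok B hρ (gatB10 x) (gatB71 x) (fun _ => gatB01 x) (fun h => absurd h (by decide)) hd hx hx' CG.A011R_170
    · exact absurd h2 (by norm_num)
    · exact absurd h2 (by norm_num)
    · exact absurd h2 (by norm_num)
    · exact absurd h2 (by norm_num)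
    · exact absurd h2 (by norm_num)
    · exact absurd h2 (by norm_num)
    · exact absurd h2 (by norm_num)

theorem altB_A011R_18 {κ x : ℝ} (hκ : κ * h0 = ken x) (hx : ((649613803 : ℕ) : ℝ) / S ≤ x) (hx' : x ≤ (((649613803 : ℕ) : ℝ) + (48318383 : ℕ)) / S) :
    AltEA 3 κ (eng.v x) (3 / 40) (tnt (h0 * x) (3 / 10)) PP tK tL tC pcB (scP esg pd) [⟨0, 0, 0, 67108864⟩, ⟨1, 1, 0, 67108864⟩, ⟨2, 1, 0, 67108864⟩] 0 1 1 1 8 (sgb true) (sgb false) x := by
  have X : XR 67108864 x := XR.of hx hx' (by norm_num) (by norm_num) (by norm_num) (by norm_num)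
  have hen : 0 < eng.v x := en_pos X.x0.le
  refine CornW.altA (C := cA011R) (j := (1 : Fin 9)) (k := (8 : Fin 9)) (Ef := esg) (pd := pd) (o := 3 / 40)
    (cornW_of (C := cA011R) (C0 := c0B) (En := eng) (mo := mog) (j := (1 : Fin 9)) (k := (8 : Fin 9)) (lo := 0) (hi := 0) (W := 67108864) (N0 := 3) cA011R_q (sideB hx hx') gokB (pinU hx hx') dokB X (by norm_num) (by norm_num) (l := (0 : Fin 9)) rfl
      (gatB10 x) (gatB81 x) (gatB01 x) (datB10 x) (datB81 x) (datB01 x) ?_)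
    (cornS_of (C := cA011R) (C0 := c0B) (j := (1 : Fin 9)) (k := (8 : Fin 9)) (lo := 0) (hi := 0) (W := 67108864) (N0 := 3) cA011R_q (sideB hx hx') gokB X (by norm_num) (by norm_num) (l := (0 : Fin 9)) rfl
      (gatB10 x) (gatB81 x) (gatB01 x) ?_)
    (thU (pinU hx hx')) rfl hκ (fun j q y => tC_eq j q y x) (esg_rng X.x0.le (by linarith [X.b, X.p0])).1 (mo_v x) le_rfl le_rfl
  · intro ρ a B hρ hd i h1 h2
    fin_cases i
    · exact corW_cert (G1 := gB1q0) (G2 := gB8q1) (Ga := gB0q1) (Gb := gB1q1) (D1 := dB1q0) (D2 := dB8q1) (Da := dB0q1) (Db := dB1q1) cA011R_ok B hρ hen (gatB10 x) (gatB81 x) (fun _ => gatB01 x) (fun h => absurd h (by decide)) (datB10 x) (datB81 x) (fun _ => datB01 x) (fun h => absurd h (by decide)) hd hx hx' CW.A011R_180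
    · exact absurd h2 (by norm_num)
    · exact absurd h2 (by norm_num)
    · exact absurd h2 (by norm_num)
    · exact absurd h2 (by norm_num)
    · exact absurd h2 (by norm_num)
    · exact absurd h2 (by norm_num)
    · exact absurd h2 (by norm_num)
  · intro ρ a B hρ hd i h1 h2
    fin_cases i
    · exact corT_cert (G1 := gB1q0) (G2 := gB8q1) (Ga := gB0q1) (Gb := gB1q1) cA011R_ok B hρ (gatB10 x) (gatB81 x) (fun _ => gatB01 x) (fun h => absurd h (by decide)) hd hx hx' CG.A011R_180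
    · exact absurd h2 (by norm_num)
    · exact absurd h2 (by norm_num)
    · exact absurd h2 (by norm_num)
    · exact absurd h2 (by norm_num)
    · exact absurd h2 (by norm_num)
    · exact absurd h2 (by norm_num)
    · exact absurd h2 (by norm_num)

theorem altB_A011R_25 {κ x : ℝ} (hκ : κ * h0 = ken x) (hx : ((649613803 : ℕ) : ℝ) / S ≤ x) (hx' : x ≤ (((649613803 : ℕ) : ℝ) + (48318383 : ℕ)) / S) :
    AltEA 3 κ (eng.v x) (3 / 40) (tnt (h0 * x) (3 / 10)) PP tK tL tC pcB (scP esg pd) [⟨0, 0, 0, 67108864⟩, ⟨1, 1, 0, 67108864⟩, ⟨2, 1, 0, 67108864⟩] 0 1 1 2 5 (sgb true) (sgb false) x := by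
  have X : XR 67108864 x := XR.of hx hx' (by norm_num) (by norm_num) (by norm_num) (by norm_num)
  have hen : 0 < eng.v x := en_pos X.x0.le
  refine CornW.altA (C := cA011R) (j := (2 : Fin 9)) (k := (5 : Fin 9)) (Ef := esg) (pd := pd) (o := 3 / 40)
    (cornW_of (C := cA011R) (C0 := c0B) (En := eng) (mo := mog) (j := (2 : Fin 9)) (k := (5 : Fin 9)) (lo := 0) (hi := 0) (W := 67108864) (N0 := 3) cA011R_q (sideB hx hx') gokB (pinU hx hx') dokB X (by norm_num) (by norm_num) (l := (0 : Fin 9)) rfl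
      (gatB20 x) (gatB51 x) (gatB01 x) (datB20 x) (datB51 x) (datB01 x) ?_)
    (cornS_of (C := cA011R) (C0 := c0B) (j := (2 : Fin 9)) (k := (5 : Fin 9)) (lo := 0) (hi := 0) (W := 67108864) (N0 := 3) cA011R_q (sideB hx hx') gokB X (by norm_num) (by norm_num) (l := (0 : Fin 9)) rfl
      (gatB20 x) (gatB51 x) (gatB01 x) ?_)
    (thU (pinU hx hx')) rfl hκ (fun j q y => tC_eq j q y x) (esg_rng X.x0.le (by linarith [X.b, X.p0])).1 (mo_v x) le_rfl le_rfl
  · intro ρ a B hρ hd i h1 h2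
    fin_cases i
    · exact corW_cert (G1 := gB2q0) (G2 := gB5q1) (Ga := gB0q1) (Gb := gB1q1) (D1 := dB2q0) (D2 := dB5q1) (Da := dB0q1) (Db := dB1q1) cA011R_ok B hρ hen (gatB20 x) (gatB51 x) (fun _ => gatB01 x) (fun h => absurd h (by decide)) (datB20 x) (datB51 x) (fun _ => datB01 x) (fun h => absurd h (by decide)) hd hx hx' CW.A011R_250
    · exact absurd h2 (by norm_num)
    · exact absurd h2 (by norm_num)
    · exact absurd h2 (by norm_num)
    · exact absurd h2 (by norm_num)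
    · exact absurd h2 (by norm_num)
    · exact absurd h2 (by norm_num)
    · exact absurd h2 (by norm_num)
  · intro ρ a B hρ hd i h1 h2
    fin_cases i
    · exact corT_cert (G1 := gB2q0) (G2 := gB5q1) (Ga := gB0q1) (Gb := gB1q1) cA011R_ok B hρ (gatB20 x) (gatB51 x) (fun _ => gatB01 x) (fun h => absurd h (by decide)) hd hx hx' CG.A011R_250
    · exact absurd h2 (by norm_num)
    · exact absurd h2 (by norm_num)
    · exact absurd h2 (by norm_num)
    · exact absurd h2 (by norm_num)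
    · exact absurd h2 (by norm_num)
    · exact absurd h2 (by norm_num)
    · exact absurd h2 (by norm_num)

theorem altB_A011R_26 {κ x : ℝ} (hκ : κ * h0 = ken x) (hx : ((649613803 : ℕ) : ℝ) / S ≤ x) (hx' : x ≤ (((649613803 : ℕ) : ℝ) + (48318383 : ℕ)) / S) :
    AltEA 3 κ (eng.v x) (3 / 40) (tnt (h0 * x) (3 / 10)) PP tK tL tC pcB (scP esg pd) [⟨0, 0, 0, 67108864⟩, ⟨1, 1, 0, 67108864⟩, ⟨2, 1, 0, 67108864⟩] 0 1 1 2 6 (sgb true) (sgb false) x := by
  have X : XR 67108864 x := XR.of hx hx' (by norm_num) (by norm_num) (by norm_num) (by norm_num)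
  have hen : 0 < eng.v x := en_pos X.x0.le
  refine CornW.altA (C := cA011R) (j := (2 : Fin 9)) (k := (6 : Fin 9)) (Ef := esg) (pd := pd) (o := 3 / 40)
    (cornW_of (C := cA011R) (C0 := c0B) (En := eng) (mo := mog) (j := (2 : Fin 9)) (k := (6 : Fin 9)) (lo := 0) (hi := 0) (W := 67108864) (N0 := 3) cA011R_q (sideB hx hx') gokB (pinU hx hx') dokB X (by norm_num) (by norm_num) (l := (0 : Fin 9)) rfl
      (gatB20 x) (gatB61 x) (gatB01 x) (datB20 x) (datB61 x) (datB01 x) ?_)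
    (cornS_of (C := cA011R) (C0 := c0B) (j := (2 : Fin 9)) (k := (6 : Fin 9)) (lo := 0) (hi := 0) (W := 67108864) (N0 := 3) cA011R_q (sideB hx hx') gokB X (by norm_num) (by norm_num) (l := (0 : Fin 9)) rfl
      (gatB20 x) (gatB61 x) (gatB01 x) ?_)
    (thU (pinU hx hx')) rfl hκ (fun j q y => tC_eq j q y x) (esg_rng X.x0.le (by linarith [X.b, X.p0])).1 (mo_v x) le_rfl le_rfl
  · intro ρ a B hρ hd i h1 h2
    fin_cases i
    · exact corW_cert (G1 := gB2q0) (G2 := gB6q1) (Ga := gB0q1) (Gb := gB1q1) (D1 := dB2q0) (D2 := dB6q1) (Da := dB0q1) (Db := dB1q1) cA011R_ok B hρ hen (gatB20 x) (gatB61 x) (fun _ => gatB01 x) (fun h => absurd h (by decide)) (datB20 x) (datB61 x) (fun _ => datB01 x) (fun h => absurd h (by decide)) hd hx hx' CW.A011R_260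
    · exact absurd h2 (by norm_num)
    · exact absurd h2 (by norm_num)
    · exact absurd h2 (by norm_num)
    · exact absurd h2 (by norm_num)
    · exact absurd h2 (by norm_num)
    · exact absurd h2 (by norm_num)
    · exact absurd h2 (by norm_num)
  · intro ρ a B hρ hd i h1 h2
    fin_cases i
    · exact corT_cert (G1 := gB2q0) (G2 := gB6q1) (Ga := gB0q1) (Gb := gB1q1) cA011R_ok B hρ (gatB20 x) (gatB61 x) (fun _ => gatB01 x) (fun h => absurd h (by decide)) hd hx hx' CG.A011R_260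
    · exact absurd h2 (by norm_num)
    · exact absurd h2 (by norm_num)
    · exact absurd h2 (by norm_num)
    · exact absurd h2 (by norm_num)
    · exact absurd h2 (by norm_num)
    · exact absurd h2 (by norm_num)
    · exact absurd h2 (by norm_num)

theorem altB_A011R_27 {κ x : ℝ} (hκ : κ * h0 = ken x) (hx : ((649613803 : ℕ) : ℝ) / S ≤ x) (hx' : x ≤ (((649613803 : ℕ) : ℝ) + (48318383 : ℕ)) / S) :
    AltEA 3 κ (eng.v x) (3 / 40) (tnt (h0 * x) (3 / 10)) PP tK tL tC pcB (scP esg pd) [⟨0, 0, 0, 67108864⟩, ⟨1, 1, 0, 67108864⟩, ⟨2, 1, 0, 67108864⟩] 0 1 1 2 7 (sgb true) (sgb false) x := by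
  have X : XR 67108864 x := XR.of hx hx' (by norm_num) (by norm_num) (by norm_num) (by norm_num)
  have hen : 0 < eng.v x := en_pos X.x0.le
  refine CornW.altA (C := cA011R) (j := (2 : Fin 9)) (k := (7 : Fin 9)) (Ef := esg) (pd := pd) (o := 3 / 40)
    (cornW_of (C := cA011R) (C0 := c0B) (En := eng) (mo := mog) (j := (2 : Fin 9)) (k := (7 : Fin 9)) (lo := 0) (hi := 0) (W := 67108864) (N0 := 3) cA011R_q (sideB hx hx') gokB (pinU hx hx') dokB X (by norm_num) (by norm_num) (l := (0 : Fin 9)) rfl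
      (gatB20 x) (gatB71 x) (gatB01 x) (datB20 x) (datB71 x) (datB01 x) ?_)
    (cornS_of (C := cA011R) (C0 := c0B) (j := (2 : Fin 9)) (k := (7 : Fin 9)) (lo := 0) (hi := 0) (W := 67108864) (N0 := 3) cA011R_q (sideB hx hx') gokB X (by norm_num) (by norm_num) (l := (0 : Fin 9)) rfl
      (gatB20 x) (gatB71 x) (gatB01 x) ?_)
    (thU (pinU hx hx')) rfl hκ (fun j q y => tC_eq j q y x) (esg_rng X.x0.le (by linarith [X.b, X.p0])).1 (mo_v x) le_rfl le_rfl
  · intro ρ a B hρ hd i h1 h2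
    fin_cases i
    · exact corW_cert (G1 := gB2q0) (G2 := gB7q1) (Ga := gB0q1) (Gb := gB1q1) (D1 := dB2q0) (D2 := dB7q1) (Da := dB0q1) (Db := dB1q1) cA011R_ok B hρ hen (gatB20 x) (gatB71 x) (fun _ => gatB01 x) (fun h => absurd h (by decide)) (datB20 x) (datB71 x) (fun _ => datB01 x) (fun h => absurd h (by decide)) hd hx hx' CW.A011R_270
    · exact absurd h2 (by norm_num)
    · exact absurd h2 (by norm_num)
    · exact absurd h2 (by norm_num)
    · exact absurd h2 (by norm_num)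
    · exact absurd h2 (by norm_num)
    · exact absurd h2 (by norm_num)
    · exact absurd h2 (by norm_num)
  · intro ρ a B hρ hd i h1 h2
    fin_cases i
    · exact corT_cert (G1 := gB2q0) (G2 := gB7q1) (Ga := gB0q1) (Gb := gB1q1) cA011R_ok B hρ (gatB20 x) (gatB71 x) (fun _ => gatB01 x) (fun h => absurd h (by decide)) hd hx hx' CG.A011R_270
    · exact absurd h2 (by norm_num)
    · exact absurd h2 (by norm_num)
    · exact absurd h2 (by norm_num)
    · exact absurd h2 (by norm_num)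
    · exact absurd h2 (by norm_num)
    · exact absurd h2 (by norm_num)
    · exact absurd h2 (by norm_num)

theorem altB_A011R_28 {κ x : ℝ} (hκ : κ * h0 = ken x) (hx : ((649613803 : ℕ) : ℝ) / S ≤ x) (hx' : x ≤ (((649613803 : ℕ) : ℝ) + (48318383 : ℕ)) / S) :
    AltEA 3 κ (eng.v x) (3 / 40) (tnt (h0 * x) (3 / 10)) PP tK tL tC pcB (scP esg pd) [⟨0, 0, 0, 67108864⟩, ⟨1, 1, 0, 67108864⟩, ⟨2, 1, 0, 67108864⟩] 0 1 1 2 8 (sgb true) (sgb false) x := by
  have X : XR 67108864 x := XR.of hx hx' (by norm_num) (by norm_num) (by norm_num) (by norm_num)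
  have hen : 0 < eng.v x := en_pos X.x0.le
  refine CornW.altA (C := cA011R) (j := (2 : Fin 9)) (k := (8 : Fin 9)) (Ef := esg) (pd := pd) (o := 3 / 40)
    (cornW_of (C := cA011R) (C0 := c0B) (En := eng) (mo := mog) (j := (2 : Fin 9)) (k := (8 : Fin 9)) (lo := 0) (hi := 0) (W := 67108864) (N0 := 3) cA011R_q (sideB hx hx') gokB (pinU hx hx') dokB X (by norm_num) (by norm_num) (l := (0 : Fin 9)) rfl
      (gatB20 x) (gatB81 x) (gatB01 x) (datB20 x) (datB81 x) (datB01 x) ?_)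
    (cornS_of (C := cA011R) (C0 := c0B) (j := (2 : Fin 9)) (k := (8 : Fin 9)) (lo := 0) (hi := 0) (W := 67108864) (N0 := 3) cA011R_q (sideB hx hx') gokB X (by norm_num) (by norm_num) (l := (0 : Fin 9)) rfl
      (gatB20 x) (gatB81 x) (gatB01 x) ?_)
    (thU (pinU hx hx')) rfl hκ (fun j q y => tC_eq j q y x) (esg_rng X.x0.le (by linarith [X.b, X.p0])).1 (mo_v x) le_rfl le_rfl
  · intro ρ a B hρ hd i h1 h2
    fin_cases i
    · exact corW_cert (G1 := gB2q0) (G2 := gB8q1) (Ga := gB0q1) (Gb := gB1q1) (D1 := dB2q0) (D2 := dB8q1) (Da := dB0q1) (Db := dB1q1) cA011R_ok B hρ hen (gatB20 x) (gatB81 x) (fun _ => gatB01 x) (fun h => absurd h (by decide)) (datB20 x) (datB81 x) (fun _ => datB01 x) (fun h => absurd h (by decide)) hd hx hx' CW.A011R_280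
    · exact absurd h2 (by norm_num)
    · exact absurd h2 (by norm_num)
    · exact absurd h2 (by norm_num)
    · exact absurd h2 (by norm_num)
    · exact absurd h2 (by norm_num)
    · exact absurd h2 (by norm_num)
    · exact absurd h2 (by norm_num)
  · intro ρ a B hρ hd i h1 h2
    fin_cases i
    · exact corT_cert (G1 := gB2q0) (G2 := gB8q1) (Ga := gB0q1) (Gb := gB1q1) cA011R_ok B hρ (gatB20 x) (gatB81 x) (fun _ => gatB01 x) (fun h => absurd h (by decide)) hd hx hx' CG.A011R_280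
    · exact absurd h2 (by norm_num)
    · exact absurd h2 (by norm_num)
    · exact absurd h2 (by norm_num)
    · exact absurd h2 (by norm_num)
    · exact absurd h2 (by norm_num)
    · exact absurd h2 (by norm_num)
    · exact absurd h2 (by norm_num)

theorem altB_A011R_35 {κ x : ℝ} (hκ : κ * h0 = ken x) (hx : ((649613803 : ℕ) : ℝ) / S ≤ x) (hx' : x ≤ (((649613803 : ℕ) : ℝ) + (48318383 : ℕ)) / S) :
    AltEA 3 κ (eng.v x) (3 / 40) (tnt (h0 * x) (3 / 10)) PP tK tL tC pcB (scP esg pd) [⟨0, 0, 0, 67108864⟩, ⟨1, 1, 0, 67108864⟩, ⟨2, 1, 0, 67108864⟩] 0 1 1 3 5 (sgb true) (sgb false) x := by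
  have X : XR 67108864 x := XR.of hx hx' (by norm_num) (by norm_num) (by norm_num) (by norm_num)
  have hen : 0 < eng.v x := en_pos X.x0.le
  refine CornW.altA (C := cA011R) (j := (3 : Fin 9)) (k := (5 : Fin 9)) (Ef := esg) (pd := pd) (o := 3 / 40)
    (cornW_of (C := cA011R) (C0 := c0B) (En := eng) (mo := mog) (j := (3 : Fin 9)) (k := (5 : Fin 9)) (lo := 0) (hi := 0) (W := 67108864) (N0 := 3) cA011R_q (sideB hx hx') gokB (pinU hx hx') dokB X (by norm_num) (by norm_num) (l := (0 : Fin 9)) rfl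
      (gatB30 x) (gatB51 x) (gatB01 x) (datB30 x) (datB51 x) (datB01 x) ?_)
    (cornS_of (C := cA011R) (C0 := c0B) (j := (3 : Fin 9)) (k := (5 : Fin 9)) (lo := 0) (hi := 0) (W := 67108864) (N0 := 3) cA011R_q (sideB hx hx') gokB X (by norm_num) (by norm_num) (l := (0 : Fin 9)) rfl
      (gatB30 x) (gatB51 x) (gatB01 x) ?_)
    (thU (pinU hx hx')) rfl hκ (fun j q y => tC_eq j q y x) (esg_rng X.x0.le (by linarith [X.b, X.p0])).1 (mo_v x) le_rfl le_rfl
  · intro ρ a B hρ hd i h1 h2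
    fin_cases i
    · exact corW_cert (G1 := gB3q0) (G2 := gB5q1) (Ga := gB0q1) (Gb := gB1q1) (D1 := dB3q0) (D2 := dB5q1) (Da := dB0q1) (Db := dB1q1) cA011R_ok B hρ hen (gatB30 x) (gatB51 x) (fun _ => gatB01 x) (fun h => absurd h (by decide)) (datB30 x) (datB51 x) (fun _ => datB01 x) (fun h => absurd h (by decide)) hd hx hx' CW.A011R_350
    · exact absurd h2 (by norm_num)
    · exact absurd h2 (by norm_num)
    · exact absurd h2 (by norm_num)
    · exact absurd h2 (by norm_num)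
    · exact absurd h2 (by norm_num)
    · exact absurd h2 (by norm_num)
    · exact absurd h2 (by norm_num)
  · intro ρ a B hρ hd i h1 h2
    fin_cases i
    · exact corT_cert (G1 := gB3q0) (G2 := gB5q1) (Ga := gB0q1) (Gb := gB1q1) cA011R_ok B hρ (gatB30 x) (gatB51 x) (fun _ => gatB01 x) (fun h => absurd h (by decide)) hd hx hx' CG.A011R_350
    · exact absurd h2 (by norm_num)
    · exact absurd h2 (by norm_num)
    · exact absurd h2 (by norm_num)
    · exact absurd h2 (by norm_num)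
    · exact absurd h2 (by norm_num)
    · exact absurd h2 (by norm_num)
    · exact absurd h2 (by norm_num)

theorem altB_A011R_36 {κ x : ℝ} (hκ : κ * h0 = ken x) (hx : ((649613803 : ℕ) : ℝ) / S ≤ x) (hx' : x ≤ (((649613803 : ℕ) : ℝ) + (48318383 : ℕ)) / S) :
    AltEA 3 κ (eng.v x) (3 / 40) (tnt (h0 * x) (3 / 10)) PP tK tL tC pcB (scP esg pd) [⟨0, 0, 0, 67108864⟩, ⟨1, 1, 0, 67108864⟩, ⟨2, 1, 0, 67108864⟩] 0 1 1 3 6 (sgb true) (sgb false) x := by
  have X : XR 67108864 x := XR.of hx hx' (by norm_num) (by norm_num) (by norm_num) (by norm_num)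
  have hen : 0 < eng.v x := en_pos X.x0.le
  refine CornW.altA (C := cA011R) (j := (3 : Fin 9)) (k := (6 : Fin 9)) (Ef := esg) (pd := pd) (o := 3 / 40)
    (cornW_of (C := cA011R) (C0 := c0B) (En := eng) (mo := mog) (j := (3 : Fin 9)) (k := (6 : Fin 9)) (lo := 0) (hi := 0) (W := 67108864) (N0 := 3) cA011R_q (sideB hx hx') gokB (pinU hx hx') dokB X (by norm_num) (by norm_num) (l := (0 : Fin 9)) rfl
      (gatB30 x) (gatB61 x) (gatB01 x) (datB30 x) (datB61 x) (datB01 x) ?_)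
    (cornS_of (C := cA011R) (C0 := c0B) (j := (3 : Fin 9)) (k := (6 : Fin 9)) (lo := 0) (hi := 0) (W := 67108864) (N0 := 3) cA011R_q (sideB hx hx') gokB X (by norm_num) (by norm_num) (l := (0 : Fin 9)) rfl
      (gatB30 x) (gatB61 x) (gatB01 x) ?_)
    (thU (pinU hx hx')) rfl hκ (fun j q y => tC_eq j q y x) (esg_rng X.x0.le (by linarith [X.b, X.p0])).1 (mo_v x) le_rfl le_rfl
  · intro ρ a B hρ hd i h1 h2
    fin_cases i
    · exact corW_cert (G1 := gB3q0) (G2 := gB6q1) (Ga := gB0q1) (Gb := gB1q1) (D1 := dB3q0) (D2 := dB6q1) (Da := dB0q1) (Db := dB1q1) cA011R_ok B hρ hen (gatB30 x) (gatB61 x) (fun _ => gatB01 x) (fun h => absurd h (by decide)) (datB30 x) (datB61 x) (fun _ => datB01 x) (fun h => absurd h (by decide)) hd hx hx' CW.A011R_360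
    · exact absurd h2 (by norm_num)
    · exact absurd h2 (by norm_num)
    · exact absurd h2 (by norm_num)
    · exact absurd h2 (by norm_num)
    · exact absurd h2 (by norm_num)
    · exact absurd h2 (by norm_num)
    · exact absurd h2 (by norm_num)
  · intro ρ a B hρ hd i h1 h2
    fin_cases i
    · exact corT_cert (G1 := gB3q0) (G2 := gB6q1) (Ga := gB0q1) (Gb := gB1q1) cA011R_ok B hρ (gatB30 x) (gatB61 x) (fun _ => gatB01 x) (fun h => absurd h (by decide)) hd hx hx' CG.A011R_360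
    · exact absurd h2 (by norm_num)
    · exact absurd h2 (by norm_num)
    · exact absurd h2 (by norm_num)
    · exact absurd h2 (by norm_num)
    · exact absurd h2 (by norm_num)
    · exact absurd h2 (by norm_num)
    · exact absurd h2 (by norm_num)

theorem altB_A011R_37 {κ x : ℝ} (hκ : κ * h0 = ken x) (hx : ((649613803 : ℕ) : ℝ) / S ≤ x) (hx' : x ≤ (((649613803 : ℕ) : ℝ) + (48318383 : ℕ)) / S) :
    AltEA 3 κ (eng.v x) (3 / 40) (tnt (h0 * x) (3 / 10)) PP tK tL tC pcB (scP esg pd) [⟨0, 0, 0, 67108864⟩, ⟨1, 1, 0, 67108864⟩, ⟨2, 1, 0, 67108864⟩] 0 1 1 3 7 (sgb true) (sgb false) x := by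
  have X : XR 67108864 x := XR.of hx hx' (by norm_num) (by norm_num) (by norm_num) (by norm_num)
  have hen : 0 < eng.v x := en_pos X.x0.le
  refine CornW.altA (C := cA011R) (j := (3 : Fin 9)) (k := (7 : Fin 9)) (Ef := esg) (pd := pd) (o := 3 / 40)
    (cornW_of (C := cA011R) (C0 := c0B) (En := eng) (mo := mog) (j := (3 : Fin 9)) (k := (7 : Fin 9)) (lo := 0) (hi := 0) (W := 67108864) (N0 := 3) cA011R_q (sideB hx hx') gokB (pinU hx hx') dokB X (by norm_num) (by norm_num) (l := (0 : Fin 9)) rfl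
      (gatB30 x) (gatB71 x) (gatB01 x) (datB30 x) (datB71 x) (datB01 x) ?_)
    (cornS_of (C := cA011R) (C0 := c0B) (j := (3 : Fin 9)) (k := (7 : Fin 9)) (lo := 0) (hi := 0) (W := 67108864) (N0 := 3) cA011R_q (sideB hx hx') gokB X (by norm_num) (by norm_num) (l := (0 : Fin 9)) rfl
      (gatB30 x) (gatB71 x) (gatB01 x) ?_)
    (thU (pinU hx hx')) rfl hκ (fun j q y => tC_eq j q y x) (esg_rng X.x0.le (by linarith [X.b, X.p0])).1 (mo_v x) le_rfl le_rfl
  · intro ρ a B hρ hd i h1 h2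
    fin_cases i
    · exact corW_cert (G1 := gB3q0) (G2 := gB7q1) (Ga := gB0q1) (Gb := gB1q1) (D1 := dB3q0) (D2 := dB7q1) (Da := dB0q1) (Db := dB1q1) cA011R_ok B hρ hen (gatB30 x) (gatB71 x) (fun _ => gatB01 x) (fun h => absurd h (by decide)) (datB30 x) (datB71 x) (fun _ => datB01 x) (fun h => absurd h (by decide)) hd hx hx' CW.A011R_370
    · exact absurd h2 (by norm_num)
    · exact absurd h2 (by norm_num)
    · exact absurd h2 (by norm_num)
    · exact absurd h2 (by norm_num)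
    · exact absurd h2 (by norm_num)
    · exact absurd h2 (by norm_num)
    · exact absurd h2 (by norm_num)
  · intro ρ a B hρ hd i h1 h2
    fin_cases i
    · exact corT_cert (G1 := gB3q0) (G2 := gB7q1) (Ga := gB0q1) (Gb := gB1q1) cA011R_ok B hρ (gatB30 x) (gatB71 x) (fun _ => gatB01 x) (fun h => absurd h (by decide)) hd hx hx' CG.A011R_370
    · exact absurd h2 (by norm_num)
    · exact absurd h2 (by norm_num)
    · exact absurd h2 (by norm_num)
    · exact absurd h2 (by norm_num)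
    · exact absurd h2 (by norm_num)
    · exact absurd h2 (by norm_num)
    · exact absurd h2 (by norm_num)

theorem altB_A011R_38 {κ x : ℝ} (hκ : κ * h0 = ken x) (hx : ((649613803 : ℕ) : ℝ) / S ≤ x) (hx' : x ≤ (((649613803 : ℕ) : ℝ) + (48318383 : ℕ)) / S) :
    AltEA 3 κ (eng.v x) (3 / 40) (tnt (h0 * x) (3 / 10)) PP tK tL tC pcB (scP esg pd) [⟨0, 0, 0, 67108864⟩, ⟨1, 1, 0, 67108864⟩, ⟨2, 1, 0, 67108864⟩] 0 1 1 3 8 (sgb true) (sgb false) x := by
  have X : XR 67108864 x := XR.of hx hx' (by norm_num) (by norm_num) (by norm_num) (by norm_num)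
  have hen : 0 < eng.v x := en_pos X.x0.le
  refine CornW.altA (C := cA011R) (j := (3 : Fin 9)) (k := (8 : Fin 9)) (Ef := esg) (pd := pd) (o := 3 / 40)
    (cornW_of (C := cA011R) (C0 := c0B) (En := eng) (mo := mog) (j := (3 : Fin 9)) (k := (8 : Fin 9)) (lo := 0) (hi := 0) (W := 67108864) (N0 := 3) cA011R_q (sideB hx hx') gokB (pinU hx hx') dokB X (by norm_num) (by norm_num) (l := (0 : Fin 9)) rfl
      (gatB30 x) (gatB81 x) (gatB01 x) (datB30 x) (datB81 x) (datB01 x) ?_)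
    (cornS_of (C := cA011R) (C0 := c0B) (j := (3 : Fin 9)) (k := (8 : Fin 9)) (lo := 0) (hi := 0) (W := 67108864) (N0 := 3) cA011R_q (sideB hx hx') gokB X (by norm_num) (by norm_num) (l := (0 : Fin 9)) rfl
      (gatB30 x) (gatB81 x) (gatB01 x) ?_)
    (thU (pinU hx hx')) rfl hκ (fun j q y => tC_eq j q y x) (esg_rng X.x0.le (by linarith [X.b, X.p0])).1 (mo_v x) le_rfl le_rfl
  · intro ρ a B hρ hd i h1 h2
    fin_cases i
    · exact corW_cert (G1 := gB3q0) (G2 := gB8q1) (Ga := gB0q1) (Gb := gB1q1) (D1 := dB3q0) (D2 := dB8q1) (Da := dB0q1) (Db := dB1q1) cA011R_ok B hρ hen (gatB30 x) (gatB81 x) (fun _ => gatB01 x) (fun h => absurd h (by decide)) (datB30 x) (datB81 x) (fun _ => datB01 x) (fun h => absurd h (by decide)) hd hx hx' CW.A011R_380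
    · exact absurd h2 (by norm_num)
    · exact absurd h2 (by norm_num)
    · exact absurd h2 (by norm_num)
    · exact absurd h2 (by norm_num)
    · exact absurd h2 (by norm_num)
    · exact absurd h2 (by norm_num)
    · exact absurd h2 (by norm_num)
  · intro ρ a B hρ hd i h1 h2
    fin_cases i
    · exact corT_cert (G1 := gB3q0) (G2 := gB8q1) (Ga := gB0q1) (Gb := gB1q1) cA011R_ok B hρ (gatB30 x) (gatB81 x) (fun _ => gatB01 x) (fun h => absurd h (by decide)) hd hx hx' CG.A011R_380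
    · exact absurd h2 (by norm_num)
    · exact absurd h2 (by norm_num)
    · exact absurd h2 (by norm_num)
    · exact absurd h2 (by norm_num)
    · exact absurd h2 (by norm_num)
    · exact absurd h2 (by norm_num)
    · exact absurd h2 (by norm_num)

theorem altB_A011R_45 {κ x : ℝ} (hκ : κ * h0 = ken x) (hx : ((649613803 : ℕ) : ℝ) / S ≤ x) (hx' : x ≤ (((649613803 : ℕ) : ℝ) + (48318383 : ℕ)) / S) :
    AltEA 3 κ (eng.v x) (3 / 40) (tnt (h0 * x) (3 / 10)) PP tK tL tC pcB (scP esg pd) [⟨0, 0, 0, 67108864⟩, ⟨1, 1, 0, 67108864⟩, ⟨2, 1, 0, 67108864⟩] 0 1 1 4 5 (sgb true) (sgb false) x := by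
  have X : XR 67108864 x := XR.of hx hx' (by norm_num) (by norm_num) (by norm_num) (by norm_num)
  have hen : 0 < eng.v x := en_pos X.x0.le
  refine CornW.altA (C := cA011R) (j := (4 : Fin 9)) (k := (5 : Fin 9)) (Ef := esg) (pd := pd) (o := 3 / 40)
    (cornW_of (C := cA011R) (C0 := c0B) (En := eng) (mo := mog) (j := (4 : Fin 9)) (k := (5 : Fin 9)) (lo := 0) (hi := 0) (W := 67108864) (N0 := 3) cA011R_q (sideB hx hx') gokB (pinU hx hx') dokB X (by norm_num) (by norm_num) (l := (0 : Fin 9)) rfl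
      (gatB40 x) (gatB51 x) (gatB01 x) (datB40 x) (datB51 x) (datB01 x) ?_)
    (cornS_of (C := cA011R) (C0 := c0B) (j := (4 : Fin 9)) (k := (5 : Fin 9)) (lo := 0) (hi := 0) (W := 67108864) (N0 := 3) cA011R_q (sideB hx hx') gokB X (by norm_num) (by norm_num) (l := (0 : Fin 9)) rfl
      (gatB40 x) (gatB51 x) (gatB01 x) ?_)
    (thU (pinU hx hx')) rfl hκ (fun j q y => tC_eq j q y x) (esg_rng X.x0.le (by linarith [X.b, X.p0])).1 (mo_v x) le_rfl le_rfl
  · intro ρ a B hρ hd i h1 h2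
    fin_cases i
    · exact corW_cert (G1 := gB4q0) (G2 := gB5q1) (Ga := gB0q1) (Gb := gB1q1) (D1 := dB4q0) (D2 := dB5q1) (Da := dB0q1) (Db := dB1q1) cA011R_ok B hρ hen (gatB40 x) (gatB51 x) (fun _ => gatB01 x) (fun h => absurd h (by decide)) (datB40 x) (datB51 x) (fun _ => datB01 x) (fun h => absurd h (by decide)) hd hx hx' CW.A011R_450
    · exact absurd h2 (by norm_num)
    · exact absurd h2 (by norm_num)
    · exact absurd h2 (by norm_num)
    · exact absurd h2 (by norm_num)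
    · exact absurd h2 (by norm_num)
    · exact absurd h2 (by norm_num)
    · exact absurd h2 (by norm_num)
  · intro ρ a B hρ hd i h1 h2
    fin_cases i
    · exact corT_cert (G1 := gB4q0) (G2 := gB5q1) (Ga := gB0q1) (Gb := gB1q1) cA011R_ok B hρ (gatB40 x) (gatB51 x) (fun _ => gatB01 x) (fun h => absurd h (by decide)) hd hx hx' CG.A011R_450
    · exact absurd h2 (by norm_num)
    · exact absurd h2 (by norm_num)
    · exact absurd h2 (by norm_num)
    · exact absurd h2 (by norm_num)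
    · exact absurd h2 (by norm_num)
    · exact absurd h2 (by norm_num)
    · exact absurd h2 (by norm_num)

theorem altB_A011R_46 {κ x : ℝ} (hκ : κ * h0 = ken x) (hx : ((649613803 : ℕ) : ℝ) / S ≤ x) (hx' : x ≤ (((649613803 : ℕ) : ℝ) + (48318383 : ℕ)) / S) :
    AltEA 3 κ (eng.v x) (3 / 40) (tnt (h0 * x) (3 / 10)) PP tK tL tC pcB (scP esg pd) [⟨0, 0, 0, 67108864⟩, ⟨1, 1, 0, 67108864⟩, ⟨2, 1, 0, 67108864⟩] 0 1 1 4 6 (sgb true) (sgb false) x := by
  have X : XR 67108864 x := XR.of hx hx' (by norm_num) (by norm_num) (by norm_num) (by norm_num)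
  have hen : 0 < eng.v x := en_pos X.x0.le
  refine CornW.altA (C := cA011R) (j := (4 : Fin 9)) (k := (6 : Fin 9)) (Ef := esg) (pd := pd) (o := 3 / 40)
    (cornW_of (C := cA011R) (C0 := c0B) (En := eng) (mo := mog) (j := (4 : Fin 9)) (k := (6 : Fin 9)) (lo := 0) (hi := 0) (W := 67108864) (N0 := 3) cA011R_q (sideB hx hx') gokB (pinU hx hx') dokB X (by norm_num) (by norm_num) (l := (0 : Fin 9)) rfl
      (gatB40 x) (gatB61 x) (gatB01 x) (datB40 x) (datB61 x) (datB01 x) ?_)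
    (cornS_of (C := cA011R) (C0 := c0B) (j := (4 : Fin 9)) (k := (6 : Fin 9)) (lo := 0) (hi := 0) (W := 67108864) (N0 := 3) cA011R_q (sideB hx hx') gokB X (by norm_num) (by norm_num) (l := (0 : Fin 9)) rfl
      (gatB40 x) (gatB61 x) (gatB01 x) ?_)
    (thU (pinU hx hx')) rfl hκ (fun j q y => tC_eq j q y x) (esg_rng X.x0.le (by linarith [X.b, X.p0])).1 (mo_v x) le_rfl le_rfl
  · intro ρ a B hρ hd i h1 h2
    fin_cases i
    · exact corW_cert (G1 := gB4q0) (G2 := gB6q1) (Ga := gB0q1) (Gb := gB1q1) (D1 := dB4q0) (D2 := dB6q1) (Da := dB0q1) (Db := dB1q1) cA011R_ok B hρ hen (gatB40 x) (gatB61 x) (fun _ => gatB01 x) (fun h => absurd h (by decide)) (datB40 x) (datB61 x) (fun _ => datB01 x) (fun h => absurd h (by decide)) hd hx hx' CW.A011R_460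
    · exact absurd h2 (by norm_num)
    · exact absurd h2 (by norm_num)
    · exact absurd h2 (by norm_num)
    · exact absurd h2 (by norm_num)
    · exact absurd h2 (by norm_num)
    · exact absurd h2 (by norm_num)
    · exact absurd h2 (by norm_num)
  · intro ρ a B hρ hd i h1 h2
    fin_cases i
    · exact corT_cert (G1 := gB4q0) (G2 := gB6q1) (Ga := gB0q1) (Gb := gB1q1) cA011R_ok B hρ (gatB40 x) (gatB61 x) (fun _ => gatB01 x) (fun h => absurd h (by decide)) hd hx hx' CG.A011R_460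
    · exact absurd h2 (by norm_num)
    · exact absurd h2 (by norm_num)
    · exact absurd h2 (by norm_num)
    · exact absurd h2 (by norm_num)
    · exact absurd h2 (by norm_num)
    · exact absurd h2 (by norm_num)
    · exact absurd h2 (by norm_num)

theorem altB_A011R_47 {κ x : ℝ} (hκ : κ * h0 = ken x) (hx : ((649613803 : ℕ) : ℝ) / S ≤ x) (hx' : x ≤ (((649613803 : ℕ) : ℝ) + (48318383 : ℕ)) / S) :
    AltEA 3 κ (eng.v x) (3 / 40) (tnt (h0 * x) (3 / 10)) PP tK tL tC pcB (scP esg pd) [⟨0, 0, 0, 67108864⟩, ⟨1, 1, 0, 67108864⟩, ⟨2, 1, 0, 67108864⟩] 0 1 1 4 7 (sgb true) (sgb false) x := by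
  have X : XR 67108864 x := XR.of hx hx' (by norm_num) (by norm_num) (by norm_num) (by norm_num)
  have hen : 0 < eng.v x := en_pos X.x0.le
  refine CornW.altA (C := cA011R) (j := (4 : Fin 9)) (k := (7 : Fin 9)) (Ef := esg) (pd := pd) (o := 3 / 40)
    (cornW_of (C := cA011R) (C0 := c0B) (En := eng) (mo := mog) (j := (4 : Fin 9)) (k := (7 : Fin 9)) (lo := 0) (hi := 0) (W := 67108864) (N0 := 3) cA011R_q (sideB hx hx') gokB (pinU hx hx') dokB X (by norm_num) (by norm_num) (l := (0 : Fin 9)) rfl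
      (gatB40 x) (gatB71 x) (gatB01 x) (datB40 x) (datB71 x) (datB01 x) ?_)
    (cornS_of (C := cA011R) (C0 := c0B) (j := (4 : Fin 9)) (k := (7 : Fin 9)) (lo := 0) (hi := 0) (W := 67108864) (N0 := 3) cA011R_q (sideB hx hx') gokB X (by norm_num) (by norm_num) (l := (0 : Fin 9)) rfl
      (gatB40 x) (gatB71 x) (gatB01 x) ?_)
    (thU (pinU hx hx')) rfl hκ (fun j q y => tC_eq j q y x) (esg_rng X.x0.le (by linarith [X.b, X.p0])).1 (mo_v x) le_rfl le_rfl
  · intro ρ a B hρ hd i h1 h2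
    fin_cases i
    · exact corW_cert (G1 := gB4q0) (G2 := gB7q1) (Ga := gB0q1) (Gb := gB1q1) (D1 := dB4q0) (D2 := dB7q1) (Da := dB0q1) (Db := dB1q1) cA011R_ok B hρ hen (gatB40 x) (gatB71 x) (fun _ => gatB01 x) (fun h => absurd h (by decide)) (datB40 x) (datB71 x) (fun _ => datB01 x) (fun h => absurd h (by decide)) hd hx hx' CW.A011R_470
    · exact absurd h2 (by norm_num)
    · exact absurd h2 (by norm_num)
    · exact absurd h2 (by norm_num)
    · exact absurd h2 (by norm_num)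
    · exact absurd h2 (by norm_num)
    · exact absurd h2 (by norm_num)
    · exact absurd h2 (by norm_num)
  · intro ρ a B hρ hd i h1 h2
    fin_cases i
    · exact corT_cert (G1 := gB4q0) (G2 := gB7q1) (Ga := gB0q1) (Gb := gB1q1) cA011R_ok B hρ (gatB40 x) (gatB71 x) (fun _ => gatB01 x) (fun h => absurd h (by decide)) hd hx hx' CG.A011R_470
    · exact absurd h2 (by norm_num)
    · exact absurd h2 (by norm_num)
    · exact absurd h2 (by norm_num)
    · exact absurd h2 (by norm_num)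
    · exact absurd h2 (by norm_num)
    · exact absurd h2 (by norm_num)
    · exact absurd h2 (by norm_num)

theorem altB_A011R_48 {κ x : ℝ} (hκ : κ * h0 = ken x) (hx : ((649613803 : ℕ) : ℝ) / S ≤ x) (hx' : x ≤ (((649613803 : ℕ) : ℝ) + (48318383 : ℕ)) / S) :
    AltEA 3 κ (eng.v x) (3 / 40) (tnt (h0 * x) (3 / 10)) PP tK tL tC pcB (scP esg pd) [⟨0, 0, 0, 67108864⟩, ⟨1, 1, 0, 67108864⟩, ⟨2, 1, 0, 67108864⟩] 0 1 1 4 8 (sgb true) (sgb false) x := by
  have X : XR 67108864 x := XR.of hx hx' (by norm_num) (by norm_num) (by norm_num) (by norm_num)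
  have hen : 0 < eng.v x := en_pos X.x0.le
  refine CornW.altA (C := cA011R) (j := (4 : Fin 9)) (k := (8 : Fin 9)) (Ef := esg) (pd := pd) (o := 3 / 40)
    (cornW_of (C := cA011R) (C0 := c0B) (En := eng) (mo := mog) (j := (4 : Fin 9)) (k := (8 : Fin 9)) (lo := 0) (hi := 0) (W := 67108864) (N0 := 3) cA011R_q (sideB hx hx') gokB (pinU hx hx') dokB X (by norm_num) (by norm_num) (l := (0 : Fin 9)) rfl
      (gatB40 x) (gatB81 x) (gatB01 x) (datB40 x) (datB81 x) (datB01 x) ?_)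
    (cornS_of (C := cA011R) (C0 := c0B) (j := (4 : Fin 9)) (k := (8 : Fin 9)) (lo := 0) (hi := 0) (W := 67108864) (N0 := 3) cA011R_q (sideB hx hx') gokB X (by norm_num) (by norm_num) (l := (0 : Fin 9)) rfl
      (gatB40 x) (gatB81 x) (gatB01 x) ?_)
    (thU (pinU hx hx')) rfl hκ (fun j q y => tC_eq j q y x) (esg_rng X.x0.le (by linarith [X.b, X.p0])).1 (mo_v x) le_rfl le_rfl
  · intro ρ a B hρ hd i h1 h2
    fin_cases i
    · exact corW_cert (G1 := gB4q0) (G2 := gB8q1) (Ga := gB0q1) (Gb := gB1q1) (D1 := dB4q0) (D2 := dB8q1) (Da := dB0q1) (Db := dB1q1) cA011R_ok B hρ hen (gatB40 x) (gatB81 x) (fun _ => gatB01 x) (fun h => absurd h (by decide)) (datB40 x) (datB81 x) (fun _ => datB01 x) (fun h => absurd h (by decide)) hd hx hx' CW.A011R_480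
    · exact absurd h2 (by norm_num)
    · exact absurd h2 (by norm_num)
    · exact absurd h2 (by norm_num)
    · exact absurd h2 (by norm_num)
    · exact absurd h2 (by norm_num)
    · exact absurd h2 (by norm_num)
    · exact absurd h2 (by norm_num)
  · intro ρ a B hρ hd i h1 h2
    fin_cases i
    · exact corT_cert (G1 := gB4q0) (G2 := gB8q1) (Ga := gB0q1) (Gb := gB1q1) cA011R_ok B hρ (gatB40 x) (gatB81 x) (fun _ => gatB01 x) (fun h => absurd h (by decide)) hd hx hx' CG.A011R_480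
    · exact absurd h2 (by norm_num)
    · exact absurd h2 (by norm_num)
    · exact absurd h2 (by norm_num)
    · exact absurd h2 (by norm_num)
    · exact absurd h2 (by norm_num)
    · exact absurd h2 (by norm_num)
    · exact absurd h2 (by norm_num)

theorem altB_A012E_00 {κ x : ℝ} (hκ : κ * h0 = ken x) (hx : ((649613803 : ℕ) : ℝ) / S ≤ x) (hx' : x ≤ (((649613803 : ℕ) : ℝ) + (48318383 : ℕ)) / S) :
    AltEA 3 κ (eng.v x) (3 / 40) (tnt (h0 * x) (3 / 10)) PP tK tL tC pcB (scP esg pd) [⟨0, 0, 0, 33554432⟩, ⟨1, 1, 0, 33554432⟩, ⟨2, 1, 0, 33554432⟩] 0 1 2 0 0 (sgb true) (sgb false) x := by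
  have X : XR 33554432 x := XR.of hx hx' (by norm_num) (by norm_num) (by norm_num) (by norm_num)
  have hen : 0 < eng.v x := en_pos X.x0.le
  refine CornW.altA (C := cA012E) (j := (0 : Fin 9)) (k := (0 : Fin 9)) (Ef := esg) (pd := pd) (o := 3 / 40)
    (cornW_of (C := cA012E) (C0 := c0B) (En := eng) (mo := mog) (j := (0 : Fin 9)) (k := (0 : Fin 9)) (lo := 0) (hi := 4) (W := 33554432) (N0 := 3) cA012E_q (sideB hx hx') gokB (pinU hx hx') dokB X (by norm_num) (by norm_num) (l := (0 : Fin 9)) rfl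
      (gatB00 x) (gatB01 x) (gatB02 x) (datB00 x) (datB01 x) (datB02 x) ?_)
    (cornS_of (C := cA012E) (C0 := c0B) (j := (0 : Fin 9)) (k := (0 : Fin 9)) (lo := 0) (hi := 4) (W := 33554432) (N0 := 3) cA012E_q (sideB hx hx') gokB X (by norm_num) (by norm_num) (l := (0 : Fin 9)) rfl
      (gatB00 x) (gatB01 x) (gatB02 x) ?_)
    (thU (pinU hx hx')) rfl hκ (fun j q y => tC_eq j q y x) (esg_rng X.x0.le (by linarith [X.b, X.p0])).1 (mo_v x) le_rfl le_rfl
  · intro ρ a B hρ hd i h1 h2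
    fin_cases i
    · exact corW_cert (G1 := gB0q0) (G2 := gB0q1) (Ga := gB0q2) (Gb := gB1q2) (D1 := dB0q0) (D2 := dB0q1) (Da := dB0q2) (Db := dB1q2) cA012E_ok B hρ hen (gatB00 x) (gatB01 x) (fun _ => gatB02 x) (fun _ => gatB12 x) (datB00 x) (datB01 x) (fun _ => datB02 x) (fun _ => datB12 x) hd hx hx' CW.A012E_000
    · exact corW_cert (G1 := gB0q0) (G2 := gB0q1) (Ga := gB1q2) (Gb := gB2q2) (D1 := dB0q0) (D2 := dB0q1) (Da := dB1q2) (Db := dB2q2) cA012E_ok B hρ hen (gatB00 x) (gatB01 x) (fun _ => gatB12 x) (fun _ => gatB22 x) (datB00 x) (datB01 x) (fun _ => datB12 x) (fun _ => datB22 x) hd hx hx' CW.A012E_001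
    · exact corW_cert (G1 := gB0q0) (G2 := gB0q1) (Ga := gB2q2) (Gb := gB3q2) (D1 := dB0q0) (D2 := dB0q1) (Da := dB2q2) (Db := dB3q2) cA012E_ok B hρ hen (gatB00 x) (gatB01 x) (fun _ => gatB22 x) (fun _ => gatB32 x) (datB00 x) (datB01 x) (fun _ => datB22 x) (fun _ => datB32 x) hd hx hx' CW.A012E_002
    · exact corW_cert (G1 := gB0q0) (G2 := gB0q1) (Ga := gB3q2) (Gb := gB4q2) (D1 := dB0q0) (D2 := dB0q1) (Da := dB3q2) (Db := dB4q2) cA012E_ok B hρ hen (gatB00 x) (gatB01 x) (fun _ => gatB32 x) (fun _ => gatB42 x) (datB00 x) (datB01 x) (fun _ => datB32 x) (fun _ => datB42 x) hd hx hx' CW.A012E_003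
    · exact corW_cert (G1 := gB0q0) (G2 := gB0q1) (Ga := gB4q2) (Gb := gB5q2) (D1 := dB0q0) (D2 := dB0q1) (Da := dB4q2) (Db := dB5q2) cA012E_ok B hρ hen (gatB00 x) (gatB01 x) (fun _ => gatB42 x) (fun h => absurd h (by decide)) (datB00 x) (datB01 x) (fun _ => datB42 x) (fun h => absurd h (by decide)) hd hx hx' CW.A012E_004
    · exact absurd h2 (by norm_num)
    · exact absurd h2 (by norm_num)
    · exact absurd h2 (by norm_num)
  · intro ρ a B hρ hd i h1 h2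
    fin_cases i
    · exact corX_cert (G1 := gB0q0) (G2 := gB0q1) (Ga := gB0q2) (Gb := gB1q2) (GT := gB0q2) cA012E_ok tA012E_ok B hρ (gatB00 x) (gatB01 x) (fun _ => gatB02 x) (fun _ => gatB12 x) rfl (tgh_A012E (kodd x) (gpu0 x) (gpu1 x) (gpu2 x) (gatB00 x) (gatB01 x) (gatB02 x) B (le_sixteenth hd (by norm_num))) hd hx hx' CG.A012E_000
    · exact corT_cert (G1 := gB0q0) (G2 := gB0q1) (Ga := gB1q2) (Gb := gB2q2) cA012E_ok B hρ (gatB00 x) (gatB01 x) (fun _ => gatB12 x) (fun _ => gatB22 x) hd hx hx' CG.A012E_001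
    · exact corT_cert (G1 := gB0q0) (G2 := gB0q1) (Ga := gB2q2) (Gb := gB3q2) cA012E_ok B hρ (gatB00 x) (gatB01 x) (fun _ => gatB22 x) (fun _ => gatB32 x) hd hx hx' CG.A012E_002
    · exact corT_cert (G1 := gB0q0) (G2 := gB0q1) (Ga := gB3q2) (Gb := gB4q2) cA012E_ok B hρ (gatB00 x) (gatB01 x) (fun _ => gatB32 x) (fun _ => gatB42 x) hd hx hx' CG.A012E_003
    · exact corT_cert (G1 := gB0q0) (G2 := gB0q1) (Ga := gB4q2) (Gb := gB5q2) cA012E_ok B hρ (gatB00 x) (gatB01 x) (fun _ => gatB42 x) (fun h => absurd h (by decide)) hd hx hx' CG.A012E_004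
    · exact absurd h2 (by norm_num)
    · exact absurd h2 (by norm_num)
    · exact absurd h2 (by norm_num)

theorem altB_A012L_00 {κ x : ℝ} (hκ : κ * h0 = ken x) (hx : ((649613803 : ℕ) : ℝ) / S ≤ x) (hx' : x ≤ (((649613803 : ℕ) : ℝ) + (48318383 : ℕ)) / S) :
    AltEA 3 κ (eng.v x) (3 / 40) (tnt (h0 * x) (3 / 10)) PP tK tL tC pcB (scP esg pd) [⟨0, 0, 0, 67108864⟩, ⟨1, 1, 0, 67108864⟩, ⟨2, 1, 0, 67108864⟩] 0 1 2 0 0 (sgb true) (sgb true) x := by
  have X : XR 67108864 x := XR.of hx hx' (by norm_num) (by norm_num) (by norm_num) (by norm_num)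
  have hen : 0 < eng.v x := en_pos X.x0.le
  refine CornW.altA (C := cA012L) (j := (0 : Fin 9)) (k := (0 : Fin 9)) (Ef := esg) (pd := pd) (o := 3 / 40)
    (cornW_of (C := cA012L) (C0 := c0B) (En := eng) (mo := mog) (j := (0 : Fin 9)) (k := (0 : Fin 9)) (lo := 8) (hi := 8) (W := 67108864) (N0 := 3) cA012L_q (sideB hx hx') gokB (pinU hx hx') dokB X (by norm_num) (by norm_num) (l := (8 : Fin 9)) rfl
      (gatB00 x) (gatB01 x) (gatB82 x) (datB00 x) (datB01 x) (datB82 x) ?_)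
    (cornS_of (C := cA012L) (C0 := c0B) (j := (0 : Fin 9)) (k := (0 : Fin 9)) (lo := 8) (hi := 8) (W := 67108864) (N0 := 3) cA012L_q (sideB hx hx') gokB X (by norm_num) (by norm_num) (l := (8 : Fin 9)) rfl
      (gatB00 x) (gatB01 x) (gatB82 x) ?_)
    (thU (pinU hx hx')) rfl hκ (fun j q y => tC_eq j q y x) (esg_rng X.x0.le (by linarith [X.b, X.p0])).1 (mo_v x) le_rfl le_rfl
  · intro ρ a B hρ hd i h1 h2
    fin_cases i
    · exact absurd h1 (by norm_num)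
    · exact absurd h1 (by norm_num)
    · exact absurd h1 (by norm_num)
    · exact absurd h1 (by norm_num)
    · exact absurd h1 (by norm_num)
    · exact absurd h1 (by norm_num)
    · exact absurd h1 (by norm_num)
    · exact corW_cert (G1 := gB0q0) (G2 := gB0q1) (Ga := gB7q2) (Gb := gB8q2) (D1 := dB0q0) (D2 := dB0q1) (Da := dB7q2) (Db := dB8q2) cA012L_ok B hρ hen (gatB00 x) (gatB01 x) (fun h => absurd h (by decide)) (fun _ => gatB82 x) (datB00 x) (datB01 x) (fun h => absurd h (by decide)) (fun _ => datB82 x) hd hx hx' CW.A012L_007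
  · intro ρ a B hρ hd i h1 h2
    fin_cases i
    · exact absurd h1 (by norm_num)
    · exact absurd h1 (by norm_num)
    · exact absurd h1 (by norm_num)
    · exact absurd h1 (by norm_num)
    · exact absurd h1 (by norm_num)
    · exact absurd h1 (by norm_num)
    · exact absurd h1 (by norm_num)
    · exact corT_cert (G1 := gB0q0) (G2 := gB0q1) (Ga := gB7q2) (Gb := gB8q2) cA012L_ok B hρ (gatB00 x) (gatB01 x) (fun h => absurd h (by decide)) (fun _ => gatB82 x) hd hx hx' CG.A012L_007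

theorem altB_A012R_05 {κ x : ℝ} (hκ : κ * h0 = ken x) (hx : ((649613803 : ℕ) : ℝ) / S ≤ x) (hx' : x ≤ (((649613803 : ℕ) : ℝ) + (48318383 : ℕ)) / S) :
    AltEA 3 κ (eng.v x) (3 / 40) (tnt (h0 * x) (3 / 10)) PP tK tL tC pcB (scP esg pd) [⟨0, 0, 0, 67108864⟩, ⟨1, 1, 0, 67108864⟩, ⟨2, 1, 0, 67108864⟩] 0 1 2 0 5 (sgb true) (sgb false) x := by
  have X : XR 67108864 x := XR.of hx hx' (by norm_num) (by norm_num) (by norm_num) (by norm_num)
  have hen : 0 < eng.v x := en_pos X.x0.le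
  refine CornW.altA (C := cA012R) (j := (0 : Fin 9)) (k := (5 : Fin 9)) (Ef := esg) (pd := pd) (o := 3 / 40)
    (cornW_of (C := cA012R) (C0 := c0B) (En := eng) (mo := mog) (j := (0 : Fin 9)) (k := (5 : Fin 9)) (lo := 0) (hi := 4) (W := 67108864) (N0 := 3) cA012R_q (sideB hx hx') gokB (pinU hx hx') dokB X (by norm_num) (by norm_num) (l := (0 : Fin 9)) rfl
      (gatB00 x) (gatB51 x) (gatB02 x) (datB00 x) (datB51 x) (datB02 x) ?_)
    (cornS_of (C := cA012R) (C0 := c0B) (j := (0 : Fin 9)) (k := (5 : Fin 9)) (lo := 0) (hi := 4) (W := 67108864) (N0 := 3) cA012R_q (sideB hx hx') gokB X (by norm_num) (by norm_num) (l := (0 : Fin 9)) rfl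
      (gatB00 x) (gatB51 x) (gatB02 x) ?_)
    (thU (pinU hx hx')) rfl hκ (fun j q y => tC_eq j q y x) (esg_rng X.x0.le (by linarith [X.b, X.p0])).1 (mo_v x) le_rfl le_rfl
  · intro ρ a B hρ hd i h1 h2
    fin_cases i
    · exact corW_cert (G1 := gB0q0) (G2 := gB5q1) (Ga := gB0q2) (Gb := gB1q2) (D1 := dB0q0) (D2 := dB5q1) (Da := dB0q2) (Db := dB1q2) cA012R_ok B hρ hen (gatB00 x) (gatB51 x) (fun _ => gatB02 x) (fun _ => gatB12 x) (datB00 x) (datB51 x) (fun _ => datB02 x) (fun _ => datB12 x) hd hx hx' CW.A012R_050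
    · exact corW_cert (G1 := gB0q0) (G2 := gB5q1) (Ga := gB1q2) (Gb := gB2q2) (D1 := dB0q0) (D2 := dB5q1) (Da := dB1q2) (Db := dB2q2) cA012R_ok B hρ hen (gatB00 x) (gatB51 x) (fun _ => gatB12 x) (fun _ => gatB22 x) (datB00 x) (datB51 x) (fun _ => datB12 x) (fun _ => datB22 x) hd hx hx' CW.A012R_051
    · exact corW_cert (G1 := gB0q0) (G2 := gB5q1) (Ga := gB2q2) (Gb := gB3q2) (D1 := dB0q0) (D2 := dB5q1) (Da := dB2q2) (Db := dB3q2) cA012R_ok B hρ hen (gatB00 x) (gatB51 x) (fun _ => gatB22 x) (fun _ => gatB32 x) (datB00 x) (datB51 x) (fun _ => datB22 x) (fun _ => datB32 x) hd hx hx' CW.A012R_052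
    · exact corW_cert (G1 := gB0q0) (G2 := gB5q1) (Ga := gB3q2) (Gb := gB4q2) (D1 := dB0q0) (D2 := dB5q1) (Da := dB3q2) (Db := dB4q2) cA012R_ok B hρ hen (gatB00 x) (gatB51 x) (fun _ => gatB32 x) (fun _ => gatB42 x) (datB00 x) (datB51 x) (fun _ => datB32 x) (fun _ => datB42 x) hd hx hx' CW.A012R_053
    · exact corW_cert (G1 := gB0q0) (G2 := gB5q1) (Ga := gB4q2) (Gb := gB5q2) (D1 := dB0q0) (D2 := dB5q1) (Da := dB4q2) (Db := dB5q2) cA012R_ok B hρ hen (gatB00 x) (gatB51 x) (fun _ => gatB42 x) (fun h => absurd h (by decide)) (datB00 x) (datB51 x) (fun _ => datB42 x) (fun h => absurd h (by decide)) hd hx hx' CW.A012R_054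
    · exact absurd h2 (by norm_num)
    · exact absurd h2 (by norm_num)
    · exact absurd h2 (by norm_num)
  · intro ρ a B hρ hd i h1 h2
    fin_cases i
    · exact corT_cert (G1 := gB0q0) (G2 := gB5q1) (Ga := gB0q2) (Gb := gB1q2) cA012R_ok B hρ (gatB00 x) (gatB51 x) (fun _ => gatB02 x) (fun _ => gatB12 x) hd hx hx' CG.A012R_050
    · exact corT_cert (G1 := gB0q0) (G2 := gB5q1) (Ga := gB1q2) (Gb := gB2q2) cA012R_ok B hρ (gatB00 x) (gatB51 x) (fun _ => gatB12 x) (fun _ => gatB22 x) hd hx hx' CG.A012R_051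
    · exact corT_cert (G1 := gB0q0) (G2 := gB5q1) (Ga := gB2q2) (Gb := gB3q2) cA012R_ok B hρ (gatB00 x) (gatB51 x) (fun _ => gatB22 x) (fun _ => gatB32 x) hd hx hx' CG.A012R_052
    · exact corT_cert (G1 := gB0q0) (G2 := gB5q1) (Ga := gB3q2) (Gb := gB4q2) cA012R_ok B hρ (gatB00 x) (gatB51 x) (fun _ => gatB32 x) (fun _ => gatB42 x) hd hx hx' CG.A012R_053
    · exact corT_cert (G1 := gB0q0) (G2 := gB5q1) (Ga := gB4q2) (Gb := gB5q2) cA012R_ok B hρ (gatB00 x) (gatB51 x) (fun _ => gatB42 x) (fun h => absurd h (by decide)) hd hx hx' CG.A012R_054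
    · exact absurd h2 (by norm_num)
    · exact absurd h2 (by norm_num)
    · exact absurd h2 (by norm_num)

theorem altB_A012R_06 {κ x : ℝ} (hκ : κ * h0 = ken x) (hx : ((649613803 : ℕ) : ℝ) / S ≤ x) (hx' : x ≤ (((649613803 : ℕ) : ℝ) + (48318383 : ℕ)) / S) :
    AltEA 3 κ (eng.v x) (3 / 40) (tnt (h0 * x) (3 / 10)) PP tK tL tC pcB (scP esg pd) [⟨0, 0, 0, 67108864⟩, ⟨1, 1, 0, 67108864⟩, ⟨2, 1, 0, 67108864⟩] 0 1 2 0 6 (sgb true) (sgb false) x := by
  have X : XR 67108864 x := XR.of hx hx' (by norm_num) (by norm_num) (by norm_num) (by norm_num)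
  have hen : 0 < eng.v x := en_pos X.x0.le
  refine CornW.altA (C := cA012R) (j := (0 : Fin 9)) (k := (6 : Fin 9)) (Ef := esg) (pd := pd) (o := 3 / 40)
    (cornW_of (C := cA012R) (C0 := c0B) (En := eng) (mo := mog) (j := (0 : Fin 9)) (k := (6 : Fin 9)) (lo := 0) (hi := 4) (W := 67108864) (N0 := 3) cA012R_q (sideB hx hx') gokB (pinU hx hx') dokB X (by norm_num) (by norm_num) (l := (0 : Fin 9)) rfl
      (gatB00 x) (gatB61 x) (gatB02 x) (datB00 x) (datB61 x) (datB02 x) ?_)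
    (cornS_of (C := cA012R) (C0 := c0B) (j := (0 : Fin 9)) (k := (6 : Fin 9)) (lo := 0) (hi := 4) (W := 67108864) (N0 := 3) cA012R_q (sideB hx hx') gokB X (by norm_num) (by norm_num) (l := (0 : Fin 9)) rfl
      (gatB00 x) (gatB61 x) (gatB02 x) ?_)
    (thU (pinU hx hx')) rfl hκ (fun j q y => tC_eq j q y x) (esg_rng X.x0.le (by linarith [X.b, X.p0])).1 (mo_v x) le_rfl le_rfl
  · intro ρ a B hρ hd i h1 h2
    fin_cases i
    · exact corW_cert (G1 := gB0q0) (G2 := gB6q1) (Ga := gB0q2) (Gb := gB1q2) (D1 := dB0q0) (D2 := dB6q1) (Da := dB0q2) (Db := dB1q2) cA012R_ok B hρ hen (gatB00 x) (gatB61 x) (fun _ => gatB02 x) (fun _ => gatB12 x) (datB00 x) (datB61 x) (fun _ => datB02 x) (fun _ => datB12 x) hd hx hx' CW.A012R_060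
    · exact corW_cert (G1 := gB0q0) (G2 := gB6q1) (Ga := gB1q2) (Gb := gB2q2) (D1 := dB0q0) (D2 := dB6q1) (Da := dB1q2) (Db := dB2q2) cA012R_ok B hρ hen (gatB00 x) (gatB61 x) (fun _ => gatB12 x) (fun _ => gatB22 x) (datB00 x) (datB61 x) (fun _ => datB12 x) (fun _ => datB22 x) hd hx hx' CW.A012R_061
    · exact corW_cert (G1 := gB0q0) (G2 := gB6q1) (Ga := gB2q2) (Gb := gB3q2) (D1 := dB0q0) (D2 := dB6q1) (Da := dB2q2) (Db := dB3q2) cA012R_ok B hρ hen (gatB00 x) (gatB61 x) (fun _ => gatB22 x) (fun _ => gatB32 x) (datB00 x) (datB61 x) (fun _ => datB22 x) (fun _ => datB32 x) hd hx hx' CW.A012R_062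
    · exact corW_cert (G1 := gB0q0) (G2 := gB6q1) (Ga := gB3q2) (Gb := gB4q2) (D1 := dB0q0) (D2 := dB6q1) (Da := dB3q2) (Db := dB4q2) cA012R_ok B hρ hen (gatB00 x) (gatB61 x) (fun _ => gatB32 x) (fun _ => gatB42 x) (datB00 x) (datB61 x) (fun _ => datB32 x) (fun _ => datB42 x) hd hx hx' CW.A012R_063
    · exact corW_cert (G1 := gB0q0) (G2 := gB6q1) (Ga := gB4q2) (Gb := gB5q2) (D1 := dB0q0) (D2 := dB6q1) (Da := dB4q2) (Db := dB5q2) cA012R_ok B hρ hen (gatB00 x) (gatB61 x) (fun _ => gatB42 x) (fun h => absurd h (by decide)) (datB00 x) (datB61 x) (fun _ => datB42 x) (fun h => absurd h (by decide)) hd hx hx' CW.A012R_064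
    · exact absurd h2 (by norm_num)
    · exact absurd h2 (by norm_num)
    · exact absurd h2 (by norm_num)
  · intro ρ a B hρ hd i h1 h2
    fin_cases i
    · exact corT_cert (G1 := gB0q0) (G2 := gB6q1) (Ga := gB0q2) (Gb := gB1q2) cA012R_ok B hρ (gatB00 x) (gatB61 x) (fun _ => gatB02 x) (fun _ => gatB12 x) hd hx hx' CG.A012R_060
    · exact corT_cert (G1 := gB0q0) (G2 := gB6q1) (Ga := gB1q2) (Gb := gB2q2) cA012R_ok B hρ (gatB00 x) (gatB61 x) (fun _ => gatB12 x) (fun _ => gatB22 x) hd hx hx' CG.A012R_061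
    · exact corT_cert (G1 := gB0q0) (G2 := gB6q1) (Ga := gB2q2) (Gb := gB3q2) cA012R_ok B hρ (gatB00 x) (gatB61 x) (fun _ => gatB22 x) (fun _ => gatB32 x) hd hx hx' CG.A012R_062
    · exact corT_cert (G1 := gB0q0) (G2 := gB6q1) (Ga := gB3q2) (Gb := gB4q2) cA012R_ok B hρ (gatB00 x) (gatB61 x) (fun _ => gatB32 x) (fun _ => gatB42 x) hd hx hx' CG.A012R_063
    · exact corT_cert (G1 := gB0q0) (G2 := gB6q1) (Ga := gB4q2) (Gb := gB5q2) cA012R_ok B hρ (gatB00 x) (gatB61 x) (fun _ => gatB42 x) (fun h => absurd h (by decide)) hd hx hx' CG.A012R_064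
    · exact absurd h2 (by norm_num)
    · exact absurd h2 (by norm_num)
    · exact absurd h2 (by norm_num)

theorem altB_A012R_07 {κ x : ℝ} (hκ : κ * h0 = ken x) (hx : ((649613803 : ℕ) : ℝ) / S ≤ x) (hx' : x ≤ (((649613803 : ℕ) : ℝ) + (48318383 : ℕ)) / S) :
    AltEA 3 κ (eng.v x) (3 / 40) (tnt (h0 * x) (3 / 10)) PP tK tL tC pcB (scP esg pd) [⟨0, 0, 0, 67108864⟩, ⟨1, 1, 0, 67108864⟩, ⟨2, 1, 0, 67108864⟩] 0 1 2 0 7 (sgb true) (sgb false) x := by
  have X : XR 67108864 x := XR.of hx hx' (by norm_num) (by norm_num) (by norm_num) (by norm_num)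
  have hen : 0 < eng.v x := en_pos X.x0.le
  refine CornW.altA (C := cA012R) (j := (0 : Fin 9)) (k := (7 : Fin 9)) (Ef := esg) (pd := pd) (o := 3 / 40)
    (cornW_of (C := cA012R) (C0 := c0B) (En := eng) (mo := mog) (j := (0 : Fin 9)) (k := (7 : Fin 9)) (lo := 0) (hi := 4) (W := 67108864) (N0 := 3) cA012R_q (sideB hx hx') gokB (pinU hx hx') dokB X (by norm_num) (by norm_num) (l := (0 : Fin 9)) rfl
      (gatB00 x) (gatB71 x) (gatB02 x) (datB00 x) (datB71 x) (datB02 x) ?_)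
    (cornS_of (C := cA012R) (C0 := c0B) (j := (0 : Fin 9)) (k := (7 : Fin 9)) (lo := 0) (hi := 4) (W := 67108864) (N0 := 3) cA012R_q (sideB hx hx') gokB X (by norm_num) (by norm_num) (l := (0 : Fin 9)) rfl
      (gatB00 x) (gatB71 x) (gatB02 x) ?_)
    (thU (pinU hx hx')) rfl hκ (fun j q y => tC_eq j q y x) (esg_rng X.x0.le (by linarith [X.b, X.p0])).1 (mo_v x) le_rfl le_rfl
  · intro ρ a B hρ hd i h1 h2
    fin_cases i
    · exact corW_cert (G1 := gB0q0) (G2 := gB7q1) (Ga := gB0q2) (Gb := gB1q2) (D1 := dB0q0) (D2 := dB7q1) (Da := dB0q2) (Db := dB1q2) cA012R_ok B hρ hen (gatB00 x) (gatB71 x) (fun _ => gatB02 x) (fun _ => gatB12 x) (datB00 x) (datB71 x) (fun _ => datB02 x) (fun _ => datB12 x) hd hx hx' CW.A012R_070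
    · exact corW_cert (G1 := gB0q0) (G2 := gB7q1) (Ga := gB1q2) (Gb := gB2q2) (D1 := dB0q0) (D2 := dB7q1) (Da := dB1q2) (Db := dB2q2) cA012R_ok B hρ hen (gatB00 x) (gatB71 x) (fun _ => gatB12 x) (fun _ => gatB22 x) (datB00 x) (datB71 x) (fun _ => datB12 x) (fun _ => datB22 x) hd hx hx' CW.A012R_071
    · exact corW_cert (G1 := gB0q0) (G2 := gB7q1) (Ga := gB2q2) (Gb := gB3q2) (D1 := dB0q0) (D2 := dB7q1) (Da := dB2q2) (Db := dB3q2) cA012R_ok B hρ hen (gatB00 x) (gatB71 x) (fun _ => gatB22 x) (fun _ => gatB32 x) (datB00 x) (datB71 x) (fun _ => datB22 x) (fun _ => datB32 x) hd hx hx' CW.A012R_072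
    · exact corW_cert (G1 := gB0q0) (G2 := gB7q1) (Ga := gB3q2) (Gb := gB4q2) (D1 := dB0q0) (D2 := dB7q1) (Da := dB3q2) (Db := dB4q2) cA012R_ok B hρ hen (gatB00 x) (gatB71 x) (fun _ => gatB32 x) (fun _ => gatB42 x) (datB00 x) (datB71 x) (fun _ => datB32 x) (fun _ => datB42 x) hd hx hx' CW.A012R_073
    · exact corW_cert (G1 := gB0q0) (G2 := gB7q1) (Ga := gB4q2) (Gb := gB5q2) (D1 := dB0q0) (D2 := dB7q1) (Da := dB4q2) (Db := dB5q2) cA012R_ok B hρ hen (gatB00 x) (gatB71 x) (fun _ => gatB42 x) (fun h => absurd h (by decide)) (datB00 x) (datB71 x) (fun _ => datB42 x) (fun h => absurd h (by decide)) hd hx hx' CW.A012R_074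
    · exact absurd h2 (by norm_num)
    · exact absurd h2 (by norm_num)
    · exact absurd h2 (by norm_num)
  · intro ρ a B hρ hd i h1 h2
    fin_cases i
    · exact corT_cert (G1 := gB0q0) (G2 := gB7q1) (Ga := gB0q2) (Gb := gB1q2) cA012R_ok B hρ (gatB00 x) (gatB71 x) (fun _ => gatB02 x) (fun _ => gatB12 x) hd hx hx' CG.A012R_070
    · exact corT_cert (G1 := gB0q0) (G2 := gB7q1) (Ga := gB1q2) (Gb := gB2q2) cA012R_ok B hρ (gatB00 x) (gatB71 x) (fun _ => gatB12 x) (fun _ => gatB22 x) hd hx hx' CG.A012R_071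
    · exact corT_cert (G1 := gB0q0) (G2 := gB7q1) (Ga := gB2q2) (Gb := gB3q2) cA012R_ok B hρ (gatB00 x) (gatB71 x) (fun _ => gatB22 x) (fun _ => gatB32 x) hd hx hx' CG.A012R_072
    · exact corT_cert (G1 := gB0q0) (G2 := gB7q1) (Ga := gB3q2) (Gb := gB4q2) cA012R_ok B hρ (gatB00 x) (gatB71 x) (fun _ => gatB32 x) (fun _ => gatB42 x) hd hx hx' CG.A012R_073
    · exact corT_cert (G1 := gB0q0) (G2 := gB7q1) (Ga := gB4q2) (Gb := gB5q2) cA012R_ok B hρ (gatB00 x) (gatB71 x) (fun _ => gatB42 x) (fun h => absurd h (by decide)) hd hx hx' CG.A012R_074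
    · exact absurd h2 (by norm_num)
    · exact absurd h2 (by norm_num)
    · exact absurd h2 (by norm_num)

theorem altB_A012R_08 {κ x : ℝ} (hκ : κ * h0 = ken x) (hx : ((649613803 : ℕ) : ℝ) / S ≤ x) (hx' : x ≤ (((649613803 : ℕ) : ℝ) + (48318383 : ℕ)) / S) :
    AltEA 3 κ (eng.v x) (3 / 40) (tnt (h0 * x) (3 / 10)) PP tK tL tC pcB (scP esg pd) [⟨0, 0, 0, 67108864⟩, ⟨1, 1, 0, 67108864⟩, ⟨2, 1, 0, 67108864⟩] 0 1 2 0 8 (sgb true) (sgb false) x := by
  have X : XR 67108864 x := XR.of hx hx' (by norm_num) (by norm_num) (by norm_num) (by norm_num)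
  have hen : 0 < eng.v x := en_pos X.x0.le
  refine CornW.altA (C := cA012R) (j := (0 : Fin 9)) (k := (8 : Fin 9)) (Ef := esg) (pd := pd) (o := 3 / 40)
    (cornW_of (C := cA012R) (C0 := c0B) (En := eng) (mo := mog) (j := (0 : Fin 9)) (k := (8 : Fin 9)) (lo := 0) (hi := 4) (W := 67108864) (N0 := 3) cA012R_q (sideB hx hx') gokB (pinU hx hx') dokB X (by norm_num) (by norm_num) (l := (0 : Fin 9)) rfl
      (gatB00 x) (gatB81 x) (gatB02 x) (datB00 x) (datB81 x) (datB02 x) ?_)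
    (cornS_of (C := cA012R) (C0 := c0B) (j := (0 : Fin 9)) (k := (8 : Fin 9)) (lo := 0) (hi := 4) (W := 67108864) (N0 := 3) cA012R_q (sideB hx hx') gokB X (by norm_num) (by norm_num) (l := (0 : Fin 9)) rfl
      (gatB00 x) (gatB81 x) (gatB02 x) ?_)
    (thU (pinU hx hx')) rfl hκ (fun j q y => tC_eq j q y x) (esg_rng X.x0.le (by linarith [X.b, X.p0])).1 (mo_v x) le_rfl le_rfl
  · intro ρ a B hρ hd i h1 h2
    fin_cases i
    · exact corW_cert (G1 := gB0q0) (G2 := gB8q1) (Ga := gB0q2) (Gb := gB1q2) (D1 := dB0q0) (D2 := dB8q1) (Da := dB0q2) (Db := dB1q2) cA012R_ok B hρ hen (gatB00 x) (gatB81 x) (fun _ => gatB02 x) (fun _ => gatB12 x) (datB00 x) (datB81 x) (fun _ => datB02 x) (fun _ => datB12 x) hd hx hx' CW.A012R_080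
    · exact corW_cert (G1 := gB0q0) (G2 := gB8q1) (Ga := gB1q2) (Gb := gB2q2) (D1 := dB0q0) (D2 := dB8q1) (Da := dB1q2) (Db := dB2q2) cA012R_ok B hρ hen (gatB00 x) (gatB81 x) (fun _ => gatB12 x) (fun _ => gatB22 x) (datB00 x) (datB81 x) (fun _ => datB12 x) (fun _ => datB22 x) hd hx hx' CW.A012R_081
    · exact corW_cert (G1 := gB0q0) (G2 := gB8q1) (Ga := gB2q2) (Gb := gB3q2) (D1 := dB0q0) (D2 := dB8q1) (Da := dB2q2) (Db := dB3q2) cA012R_ok B hρ hen (gatB00 x) (gatB81 x) (fun _ => gatB22 x) (fun _ => gatB32 x) (datB00 x) (datB81 x) (fun _ => datB22 x) (fun _ => datB32 x) hd hx hx' CW.A012R_082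
    · exact corW_cert (G1 := gB0q0) (G2 := gB8q1) (Ga := gB3q2) (Gb := gB4q2) (D1 := dB0q0) (D2 := dB8q1) (Da := dB3q2) (Db := dB4q2) cA012R_ok B hρ hen (gatB00 x) (gatB81 x) (fun _ => gatB32 x) (fun _ => gatB42 x) (datB00 x) (datB81 x) (fun _ => datB32 x) (fun _ => datB42 x) hd hx hx' CW.A012R_083
    · exact corW_cert (G1 := gB0q0) (G2 := gB8q1) (Ga := gB4q2) (Gb := gB5q2) (D1 := dB0q0) (D2 := dB8q1) (Da := dB4q2) (Db := dB5q2) cA012R_ok B hρ hen (gatB00 x) (gatB81 x) (fun _ => gatB42 x) (fun h => absurd h (by decide)) (datB00 x) (datB81 x) (fun _ => datB42 x) (fun h => absurd h (by decide)) hd hx hx' CW.A012R_084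
    · exact absurd h2 (by norm_num)
    · exact absurd h2 (by norm_num)
    · exact absurd h2 (by norm_num)
  · intro ρ a B hρ hd i h1 h2
    fin_cases i
    · exact corT_cert (G1 := gB0q0) (G2 := gB8q1) (Ga := gB0q2) (Gb := gB1q2) cA012R_ok B hρ (gatB00 x) (gatB81 x) (fun _ => gatB02 x) (fun _ => gatB12 x) hd hx hx' CG.A012R_080
    · exact corT_cert (G1 := gB0q0) (G2 := gB8q1) (Ga := gB1q2) (Gb := gB2q2) cA012R_ok B hρ (gatB00 x) (gatB81 x) (fun _ => gatB12 x) (fun _ => gatB22 x) hd hx hx' CG.A012R_081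
    · exact corT_cert (G1 := gB0q0) (G2 := gB8q1) (Ga := gB2q2) (Gb := gB3q2) cA012R_ok B hρ (gatB00 x) (gatB81 x) (fun _ => gatB22 x) (fun _ => gatB32 x) hd hx hx' CG.A012R_082
    · exact corT_cert (G1 := gB0q0) (G2 := gB8q1) (Ga := gB3q2) (Gb := gB4q2) cA012R_ok B hρ (gatB00 x) (gatB81 x) (fun _ => gatB32 x) (fun _ => gatB42 x) hd hx hx' CG.A012R_083
    · exact corT_cert (G1 := gB0q0) (G2 := gB8q1) (Ga := gB4q2) (Gb := gB5q2) cA012R_ok B hρ (gatB00 x) (gatB81 x) (fun _ => gatB42 x) (fun h => absurd h (by decide)) hd hx hx' CG.A012R_084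
    · exact absurd h2 (by norm_num)
    · exact absurd h2 (by norm_num)
    · exact absurd h2 (by norm_num)

theorem altB_A012R_15 {κ x : ℝ} (hκ : κ * h0 = ken x) (hx : ((649613803 : ℕ) : ℝ) / S ≤ x) (hx' : x ≤ (((649613803 : ℕ) : ℝ) + (48318383 : ℕ)) / S) :
    AltEA 3 κ (eng.v x) (3 / 40) (tnt (h0 * x) (3 / 10)) PP tK tL tC pcB (scP esg pd) [⟨0, 0, 0, 67108864⟩, ⟨1, 1, 0, 67108864⟩, ⟨2, 1, 0, 67108864⟩] 0 1 2 1 5 (sgb true) (sgb false) x := by
  have X : XR 67108864 x := XR.of hx hx' (by norm_num) (by norm_num) (by norm_num) (by norm_num)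
  have hen : 0 < eng.v x := en_pos X.x0.le
  refine CornW.altA (C := cA012R) (j := (1 : Fin 9)) (k := (5 : Fin 9)) (Ef := esg) (pd := pd) (o := 3 / 40)
    (cornW_of (C := cA012R) (C0 := c0B) (En := eng) (mo := mog) (j := (1 : Fin 9)) (k := (5 : Fin 9)) (lo := 0) (hi := 4) (W := 67108864) (N0 := 3) cA012R_q (sideB hx hx') gokB (pinU hx hx') dokB X (by norm_num) (by norm_num) (l := (0 : Fin 9)) rfl
      (gatB10 x) (gatB51 x) (gatB02 x) (datB10 x) (datB51 x) (datB02 x) ?_)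
    (cornS_of (C := cA012R) (C0 := c0B) (j := (1 : Fin 9)) (k := (5 : Fin 9)) (lo := 0) (hi := 4) (W := 67108864) (N0 := 3) cA012R_q (sideB hx hx') gokB X (by norm_num) (by norm_num) (l := (0 : Fin 9)) rfl
      (gatB10 x) (gatB51 x) (gatB02 x) ?_)
    (thU (pinU hx hx')) rfl hκ (fun j q y => tC_eq j q y x) (esg_rng X.x0.le (by linarith [X.b, X.p0])).1 (mo_v x) le_rfl le_rfl
  · intro ρ a B hρ hd i h1 h2
    fin_cases i
    · exact corW_cert (G1 := gB1q0) (G2 := gB5q1) (Ga := gB0q2) (Gb := gB1q2) (D1 := dB1q0) (D2 := dB5q1) (Da := dB0q2) (Db := dB1q2) cA012R_ok B hρ hen (gatB10 x) (gatB51 x) (fun _ => gatB02 x) (fun _ => gatB12 x) (datB10 x) (datB51 x) (fun _ => datB02 x) (fun _ => datB12 x) hd hx hx' CW.A012R_150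
    · exact corW_cert (G1 := gB1q0) (G2 := gB5q1) (Ga := gB1q2) (Gb := gB2q2) (D1 := dB1q0) (D2 := dB5q1) (Da := dB1q2) (Db := dB2q2) cA012R_ok B hρ hen (gatB10 x) (gatB51 x) (fun _ => gatB12 x) (fun _ => gatB22 x) (datB10 x) (datB51 x) (fun _ => datB12 x) (fun _ => datB22 x) hd hx hx' CW.A012R_151
    · exact corW_cert (G1 := gB1q0) (G2 := gB5q1) (Ga := gB2q2) (Gb := gB3q2) (D1 := dB1q0) (D2 := dB5q1) (Da := dB2q2) (Db := dB3q2) cA012R_ok B hρ hen (gatB10 x) (gatB51 x) (fun _ => gatB22 x) (fun _ => gatB32 x) (datB10 x) (datB51 x) (fun _ => datB22 x) (fun _ => datB32 x) hd hx hx' CW.A012R_152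
    · exact corW_cert (G1 := gB1q0) (G2 := gB5q1) (Ga := gB3q2) (Gb := gB4q2) (D1 := dB1q0) (D2 := dB5q1) (Da := dB3q2) (Db := dB4q2) cA012R_ok B hρ hen (gatB10 x) (gatB51 x) (fun _ => gatB32 x) (fun _ => gatB42 x) (datB10 x) (datB51 x) (fun _ => datB32 x) (fun _ => datB42 x) hd hx hx' CW.A012R_153
    · exact corW_cert (G1 := gB1q0) (G2 := gB5q1) (Ga := gB4q2) (Gb := gB5q2) (D1 := dB1q0) (D2 := dB5q1) (Da := dB4q2) (Db := dB5q2) cA012R_ok B hρ hen (gatB10 x) (gatB51 x) (fun _ => gatB42 x) (fun h => absurd h (by decide)) (datB10 x) (datB51 x) (fun _ => datB42 x) (fun h => absurd h (by decide)) hd hx hx' CW.A012R_154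
    · exact absurd h2 (by norm_num)
    · exact absurd h2 (by norm_num)
    · exact absurd h2 (by norm_num)
  · intro ρ a B hρ hd i h1 h2
    fin_cases i
    · exact corT_cert (G1 := gB1q0) (G2 := gB5q1) (Ga := gB0q2) (Gb := gB1q2) cA012R_ok B hρ (gatB10 x) (gatB51 x) (fun _ => gatB02 x) (fun _ => gatB12 x) hd hx hx' CG.A012R_150
    · exact corT_cert (G1 := gB1q0) (G2 := gB5q1) (Ga := gB1q2) (Gb := gB2q2) cA012R_ok B hρ (gatB10 x) (gatB51 x) (fun _ => gatB12 x) (fun _ => gatB22 x) hd hx hx' CG.A012R_151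
    · exact corT_cert (G1 := gB1q0) (G2 := gB5q1) (Ga := gB2q2) (Gb := gB3q2) cA012R_ok B hρ (gatB10 x) (gatB51 x) (fun _ => gatB22 x) (fun _ => gatB32 x) hd hx hx' CG.A012R_152
    · exact corT_cert (G1 := gB1q0) (G2 := gB5q1) (Ga := gB3q2) (Gb := gB4q2) cA012R_ok B hρ (gatB10 x) (gatB51 x) (fun _ => gatB32 x) (fun _ => gatB42 x) hd hx hx' CG.A012R_153
    · exact corT_cert (G1 := gB1q0) (G2 := gB5q1) (Ga := gB4q2) (Gb := gB5q2) cA012R_ok B hρ (gatB10 x) (gatB51 x) (fun _ => gatB42 x) (fun h => absurd h (by decide)) hd hx hx' CG.A012R_154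
    · exact absurd h2 (by norm_num)
    · exact absurd h2 (by norm_num)
    · exact absurd h2 (by norm_num)

theorem altB_A012R_16 {κ x : ℝ} (hκ : κ * h0 = ken x) (hx : ((649613803 : ℕ) : ℝ) / S ≤ x) (hx' : x ≤ (((649613803 : ℕ) : ℝ) + (48318383 : ℕ)) / S) :
    AltEA 3 κ (eng.v x) (3 / 40) (tnt (h0 * x) (3 / 10)) PP tK tL tC pcB (scP esg pd) [⟨0, 0, 0, 67108864⟩, ⟨1, 1, 0, 67108864⟩, ⟨2, 1, 0, 67108864⟩] 0 1 2 1 6 (sgb true) (sgb false) x := by
  have X : XR 67108864 x := XR.of hx hx' (by norm_num) (by norm_num) (by norm_num) (by norm_num)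
  have hen : 0 < eng.v x := en_pos X.x0.le
  refine CornW.altA (C := cA012R) (j := (1 : Fin 9)) (k := (6 : Fin 9)) (Ef := esg) (pd := pd) (o := 3 / 40)
    (cornW_of (C := cA012R) (C0 := c0B) (En := eng) (mo := mog) (j := (1 : Fin 9)) (k := (6 : Fin 9)) (lo := 0) (hi := 4) (W := 67108864) (N0 := 3) cA012R_q (sideB hx hx') gokB (pinU hx hx') dokB X (by norm_num) (by norm_num) (l := (0 : Fin 9)) rfl
      (gatB10 x) (gatB61 x) (gatB02 x) (datB10 x) (datB61 x) (datB02 x) ?_)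
    (cornS_of (C := cA012R) (C0 := c0B) (j := (1 : Fin 9)) (k := (6 : Fin 9)) (lo := 0) (hi := 4) (W := 67108864) (N0 := 3) cA012R_q (sideB hx hx') gokB X (by norm_num) (by norm_num) (l := (0 : Fin 9)) rfl
      (gatB10 x) (gatB61 x) (gatB02 x) ?_)
    (thU (pinU hx hx')) rfl hκ (fun j q y => tC_eq j q y x) (esg_rng X.x0.le (by linarith [X.b, X.p0])).1 (mo_v x) le_rfl le_rfl
  · intro ρ a B hρ hd i h1 h2
    fin_cases i
    · exact corW_cert (G1 := gB1q0) (G2 := gB6q1) (Ga := gB0q2) (Gb := gB1q2) (D1 := dB1q0) (D2 := dB6q1) (Da := dB0q2) (Db := dB1q2) cA012R_ok B hρ hen (gatB10 x) (gatB61 x) (fun _ => gatB02 x) (fun _ => gatB12 x) (datB10 x) (datB61 x) (fun _ => datB02 x) (fun _ => datB12 x) hd hx hx' CW.A012R_160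
    · exact corW_cert (G1 := gB1q0) (G2 := gB6q1) (Ga := gB1q2) (Gb := gB2q2) (D1 := dB1q0) (D2 := dB6q1) (Da := dB1q2) (Db := dB2q2) cA012R_ok B hρ hen (gatB10 x) (gatB61 x) (fun _ => gatB12 x) (fun _ => gatB22 x) (datB10 x) (datB61 x) (fun _ => datB12 x) (fun _ => datB22 x) hd hx hx' CW.A012R_161
    · exact corW_cert (G1 := gB1q0) (G2 := gB6q1) (Ga := gB2q2) (Gb := gB3q2) (D1 := dB1q0) (D2 := dB6q1) (Da := dB2q2) (Db := dB3q2) cA012R_ok B hρ hen (gatB10 x) (gatB61 x) (fun _ => gatB22 x) (fun _ => gatB32 x) (datB10 x) (datB61 x) (fun _ => datB22 x) (fun _ => datB32 x) hd hx hx' CW.A012R_162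
    · exact corW_cert (G1 := gB1q0) (G2 := gB6q1) (Ga := gB3q2) (Gb := gB4q2) (D1 := dB1q0) (D2 := dB6q1) (Da := dB3q2) (Db := dB4q2) cA012R_ok B hρ hen (gatB10 x) (gatB61 x) (fun _ => gatB32 x) (fun _ => gatB42 x) (datB10 x) (datB61 x) (fun _ => datB32 x) (fun _ => datB42 x) hd hx hx' CW.A012R_163
    · exact corW_cert (G1 := gB1q0) (G2 := gB6q1) (Ga := gB4q2) (Gb := gB5q2) (D1 := dB1q0) (D2 := dB6q1) (Da := dB4q2) (Db := dB5q2) cA012R_ok B hρ hen (gatB10 x) (gatB61 x) (fun _ => gatB42 x) (fun h => absurd h (by decide)) (datB10 x) (datB61 x) (fun _ => datB42 x) (fun h => absurd h (by decide)) hd hx hx' CW.A012R_164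
    · exact absurd h2 (by norm_num)
    · exact absurd h2 (by norm_num)
    · exact absurd h2 (by norm_num)
  · intro ρ a B hρ hd i h1 h2
    fin_cases i
    · exact corT_cert (G1 := gB1q0) (G2 := gB6q1) (Ga := gB0q2) (Gb := gB1q2) cA012R_ok B hρ (gatB10 x) (gatB61 x) (fun _ => gatB02 x) (fun _ => gatB12 x) hd hx hx' CG.A012R_160
    · exact corT_cert (G1 := gB1q0) (G2 := gB6q1) (Ga := gB1q2) (Gb := gB2q2) cA012R_ok B hρ (gatB10 x) (gatB61 x) (fun _ => gatB12 x) (fun _ => gatB22 x) hd hx hx' CG.A012R_161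
    · exact corT_cert (G1 := gB1q0) (G2 := gB6q1) (Ga := gB2q2) (Gb := gB3q2) cA012R_ok B hρ (gatB10 x) (gatB61 x) (fun _ => gatB22 x) (fun _ => gatB32 x) hd hx hx' CG.A012R_162
    · exact corT_cert (G1 := gB1q0) (G2 := gB6q1) (Ga := gB3q2) (Gb := gB4q2) cA012R_ok B hρ (gatB10 x) (gatB61 x) (fun _ => gatB32 x) (fun _ => gatB42 x) hd hx hx' CG.A012R_163
    · exact corT_cert (G1 := gB1q0) (G2 := gB6q1) (Ga := gB4q2) (Gb := gB5q2) cA012R_ok B hρ (gatB10 x) (gatB61 x) (fun _ => gatB42 x) (fun h => absurd h (by decide)) hd hx hx' CG.A012R_164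
    · exact absurd h2 (by norm_num)
    · exact absurd h2 (by norm_num)
    · exact absurd h2 (by norm_num)

theorem altB_A012R_17 {κ x : ℝ} (hκ : κ * h0 = ken x) (hx : ((649613803 : ℕ) : ℝ) / S ≤ x) (hx' : x ≤ (((649613803 : ℕ) : ℝ) + (48318383 : ℕ)) / S) :
    AltEA 3 κ (eng.v x) (3 / 40) (tnt (h0 * x) (3 / 10)) PP tK tL tC pcB (scP esg pd) [⟨0, 0, 0, 67108864⟩, ⟨1, 1, 0, 67108864⟩, ⟨2, 1, 0, 67108864⟩] 0 1 2 1 7 (sgb true) (sgb false) x := by
  have X : XR 67108864 x := XR.of hx hx' (by norm_num) (by norm_num) (by norm_num) (by norm_num)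
  have hen : 0 < eng.v x := en_pos X.x0.le
  refine CornW.altA (C := cA012R) (j := (1 : Fin 9)) (k := (7 : Fin 9)) (Ef := esg) (pd := pd) (o := 3 / 40)
    (cornW_of (C := cA012R) (C0 := c0B) (En := eng) (mo := mog) (j := (1 : Fin 9)) (k := (7 : Fin 9)) (lo := 0) (hi := 4) (W := 67108864) (N0 := 3) cA012R_q (sideB hx hx') gokB (pinU hx hx') dokB X (by norm_num) (by norm_num) (l := (0 : Fin 9)) rfl
      (gatB10 x) (gatB71 x) (gatB02 x) (datB10 x) (datB71 x) (datB02 x) ?_)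
    (cornS_of (C := cA012R) (C0 := c0B) (j := (1 : Fin 9)) (k := (7 : Fin 9)) (lo := 0) (hi := 4) (W := 67108864) (N0 := 3) cA012R_q (sideB hx hx') gokB X (by norm_num) (by norm_num) (l := (0 : Fin 9)) rfl
      (gatB10 x) (gatB71 x) (gatB02 x) ?_)
    (thU (pinU hx hx')) rfl hκ (fun j q y => tC_eq j q y x) (esg_rng X.x0.le (by linarith [X.b, X.p0])).1 (mo_v x) le_rfl le_rfl
  · intro ρ a B hρ hd i h1 h2
    fin_cases i
    · exact corW_cert (G1 := gB1q0) (G2 := gB7q1) (Ga := gB0q2) (Gb := gB1q2) (D1 := dB1q0) (D2 := dB7q1) (Da := dB0q2) (Db := dB1q2) cA012R_ok B hρ hen (gatB10 x) (gatB71 x) (fun _ => gatB02 x) (fun _ => gatB12 x) (datB10 x) (datB71 x) (fun _ => datB02 x) (fun _ => datB12 x) hd hx hx' CW.A012R_170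
    · exact corW_cert (G1 := gB1q0) (G2 := gB7q1) (Ga := gB1q2) (Gb := gB2q2) (D1 := dB1q0) (D2 := dB7q1) (Da := dB1q2) (Db := dB2q2) cA012R_ok B hρ hen (gatB10 x) (gatB71 x) (fun _ => gatB12 x) (fun _ => gatB22 x) (datB10 x) (datB71 x) (fun _ => datB12 x) (fun _ => datB22 x) hd hx hx' CW.A012R_171
    · exact corW_cert (G1 := gB1q0) (G2 := gB7q1) (Ga := gB2q2) (Gb := gB3q2) (D1 := dB1q0) (D2 := dB7q1) (Da := dB2q2) (Db := dB3q2) cA012R_ok B hρ hen (gatB10 x) (gatB71 x) (fun _ => gatB22 x) (fun _ => gatB32 x) (datB10 x) (datB71 x) (fun _ => datB22 x) (fun _ => datB32 x) hd hx hx' CW.A012R_172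
    · exact corW_cert (G1 := gB1q0) (G2 := gB7q1) (Ga := gB3q2) (Gb := gB4q2) (D1 := dB1q0) (D2 := dB7q1) (Da := dB3q2) (Db := dB4q2) cA012R_ok B hρ hen (gatB10 x) (gatB71 x) (fun _ => gatB32 x) (fun _ => gatB42 x) (datB10 x) (datB71 x) (fun _ => datB32 x) (fun _ => datB42 x) hd hx hx' CW.A012R_173
    · exact corW_cert (G1 := gB1q0) (G2 := gB7q1) (Ga := gB4q2) (Gb := gB5q2) (D1 := dB1q0) (D2 := dB7q1) (Da := dB4q2) (Db := dB5q2) cA012R_ok B hρ hen (gatB10 x) (gatB71 x) (fun _ => gatB42 x) (fun h => absurd h (by decide)) (datB10 x) (datB71 x) (fun _ => datB42 x) (fun h => absurd h (by decide)) hd hx hx' CW.A012R_174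
    · exact absurd h2 (by norm_num)
    · exact absurd h2 (by norm_num)
    · exact absurd h2 (by norm_num)
  · intro ρ a B hρ hd i h1 h2
    fin_cases i
    · exact corT_cert (G1 := gB1q0) (G2 := gB7q1) (Ga := gB0q2) (Gb := gB1q2) cA012R_ok B hρ (gatB10 x) (gatB71 x) (fun _ => gatB02 x) (fun _ => gatB12 x) hd hx hx' CG.A012R_170
    · exact corT_cert (G1 := gB1q0) (G2 := gB7q1) (Ga := gB1q2) (Gb := gB2q2) cA012R_ok B hρ (gatB10 x) (gatB71 x) (fun _ => gatB12 x) (fun _ => gatB22 x) hd hx hx' CG.A012R_171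
    · exact corT_cert (G1 := gB1q0) (G2 := gB7q1) (Ga := gB2q2) (Gb := gB3q2) cA012R_ok B hρ (gatB10 x) (gatB71 x) (fun _ => gatB22 x) (fun _ => gatB32 x) hd hx hx' CG.A012R_172
    · exact corT_cert (G1 := gB1q0) (G2 := gB7q1) (Ga := gB3q2) (Gb := gB4q2) cA012R_ok B hρ (gatB10 x) (gatB71 x) (fun _ => gatB32 x) (fun _ => gatB42 x) hd hx hx' CG.A012R_173
    · exact corT_cert (G1 := gB1q0) (G2 := gB7q1) (Ga := gB4q2) (Gb := gB5q2) cA012R_ok B hρ (gatB10 x) (gatB71 x) (fun _ => gatB42 x) (fun h => absurd h (by decide)) hd hx hx' CG.A012R_174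
    · exact absurd h2 (by norm_num)
    · exact absurd h2 (by norm_num)
    · exact absurd h2 (by norm_num)

theorem altB_A012R_18 {κ x : ℝ} (hκ : κ * h0 = ken x) (hx : ((649613803 : ℕ) : ℝ) / S ≤ x) (hx' : x ≤ (((649613803 : ℕ) : ℝ) + (48318383 : ℕ)) / S) :
    AltEA 3 κ (eng.v x) (3 / 40) (tnt (h0 * x) (3 / 10)) PP tK tL tC pcB (scP esg pd) [⟨0, 0, 0, 67108864⟩, ⟨1, 1, 0, 67108864⟩, ⟨2, 1, 0, 67108864⟩] 0 1 2 1 8 (sgb true) (sgb false) x := by
  have X : XR 67108864 x := XR.of hx hx' (by norm_num) (by norm_num) (by norm_num) (by norm_num)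
  have hen : 0 < eng.v x := en_pos X.x0.le
  refine CornW.altA (C := cA012R) (j := (1 : Fin 9)) (k := (8 : Fin 9)) (Ef := esg) (pd := pd) (o := 3 / 40)
    (cornW_of (C := cA012R) (C0 := c0B) (En := eng) (mo := mog) (j := (1 : Fin 9)) (k := (8 : Fin 9)) (lo := 0) (hi := 4) (W := 67108864) (N0 := 3) cA012R_q (sideB hx hx') gokB (pinU hx hx') dokB X (by norm_num) (by norm_num) (l := (0 : Fin 9)) rfl
      (gatB10 x) (gatB81 x) (gatB02 x) (datB10 x) (datB81 x) (datB02 x) ?_)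
    (cornS_of (C := cA012R) (C0 := c0B) (j := (1 : Fin 9)) (k := (8 : Fin 9)) (lo := 0) (hi := 4) (W := 67108864) (N0 := 3) cA012R_q (sideB hx hx') gokB X (by norm_num) (by norm_num) (l := (0 : Fin 9)) rfl
      (gatB10 x) (gatB81 x) (gatB02 x) ?_)
    (thU (pinU hx hx')) rfl hκ (fun j q y => tC_eq j q y x) (esg_rng X.x0.le (by linarith [X.b, X.p0])).1 (mo_v x) le_rfl le_rfl
  · intro ρ a B hρ hd i h1 h2
    fin_cases i
    · exact corW_cert (G1 := gB1q0) (G2 := gB8q1) (Ga := gB0q2) (Gb := gB1q2) (D1 := dB1q0) (D2 := dB8q1) (Da := dB0q2) (Db := dB1q2) cA012R_ok B hρ hen (gatB10 x) (gatB81 x) (fun _ => gatB02 x) (fun _ => gatB12 x) (datB10 x) (datB81 x) (fun _ => datB02 x) (fun _ => datB12 x) hd hx hx' CW.A012R_180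
    · exact corW_cert (G1 := gB1q0) (G2 := gB8q1) (Ga := gB1q2) (Gb := gB2q2) (D1 := dB1q0) (D2 := dB8q1) (Da := dB1q2) (Db := dB2q2) cA012R_ok B hρ hen (gatB10 x) (gatB81 x) (fun _ => gatB12 x) (fun _ => gatB22 x) (datB10 x) (datB81 x) (fun _ => datB12 x) (fun _ => datB22 x) hd hx hx' CW.A012R_181
    · exact corW_cert (G1 := gB1q0) (G2 := gB8q1) (Ga := gB2q2) (Gb := gB3q2) (D1 := dB1q0) (D2 := dB8q1) (Da := dB2q2) (Db := dB3q2) cA012R_ok B hρ hen (gatB10 x) (gatB81 x) (fun _ => gatB22 x) (fun _ => gatB32 x) (datB10 x) (datB81 x) (fun _ => datB22 x) (fun _ => datB32 x) hd hx hx' CW.A012R_182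
    · exact corW_cert (G1 := gB1q0) (G2 := gB8q1) (Ga := gB3q2) (Gb := gB4q2) (D1 := dB1q0) (D2 := dB8q1) (Da := dB3q2) (Db := dB4q2) cA012R_ok B hρ hen (gatB10 x) (gatB81 x) (fun _ => gatB32 x) (fun _ => gatB42 x) (datB10 x) (datB81 x) (fun _ => datB32 x) (fun _ => datB42 x) hd hx hx' CW.A012R_183
    · exact corW_cert (G1 := gB1q0) (G2 := gB8q1) (Ga := gB4q2) (Gb := gB5q2) (D1 := dB1q0) (D2 := dB8q1) (Da := dB4q2) (Db := dB5q2) cA012R_ok B hρ hen (gatB10 x) (gatB81 x) (fun _ => gatB42 x) (fun h => absurd h (by decide)) (datB10 x) (datB81 x) (fun _ => datB42 x) (fun h => absurd h (by decide)) hd hx hx' CW.A012R_184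
    · exact absurd h2 (by norm_num)
    · exact absurd h2 (by norm_num)
    · exact absurd h2 (by norm_num)
  · intro ρ a B hρ hd i h1 h2
    fin_cases i
    · exact corT_cert (G1 := gB1q0) (G2 := gB8q1) (Ga := gB0q2) (Gb := gB1q2) cA012R_ok B hρ (gatB10 x) (gatB81 x) (fun _ => gatB02 x) (fun _ => gatB12 x) hd hx hx' CG.A012R_180
    · exact corT_cert (G1 := gB1q0) (G2 := gB8q1) (Ga := gB1q2) (Gb := gB2q2) cA012R_ok B hρ (gatB10 x) (gatB81 x) (fun _ => gatB12 x) (fun _ => gatB22 x) hd hx hx' CG.A012R_181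
    · exact corT_cert (G1 := gB1q0) (G2 := gB8q1) (Ga := gB2q2) (Gb := gB3q2) cA012R_ok B hρ (gatB10 x) (gatB81 x) (fun _ => gatB22 x) (fun _ => gatB32 x) hd hx hx' CG.A012R_182
    · exact corT_cert (G1 := gB1q0) (G2 := gB8q1) (Ga := gB3q2) (Gb := gB4q2) cA012R_ok B hρ (gatB10 x) (gatB81 x) (fun _ => gatB32 x) (fun _ => gatB42 x) hd hx hx' CG.A012R_183
    · exact corT_cert (G1 := gB1q0) (G2 := gB8q1) (Ga := gB4q2) (Gb := gB5q2) cA012R_ok B hρ (gatB10 x) (gatB81 x) (fun _ => gatB42 x) (fun h => absurd h (by decide)) hd hx hx' CG.A012R_184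
    · exact absurd h2 (by norm_num)
    · exact absurd h2 (by norm_num)
    · exact absurd h2 (by norm_num)

theorem altB_A012R_25 {κ x : ℝ} (hκ : κ * h0 = ken x) (hx : ((649613803 : ℕ) : ℝ) / S ≤ x) (hx' : x ≤ (((649613803 : ℕ) : ℝ) + (48318383 : ℕ)) / S) :
    AltEA 3 κ (eng.v x) (3 / 40) (tnt (h0 * x) (3 / 10)) PP tK tL tC pcB (scP esg pd) [⟨0, 0, 0, 67108864⟩, ⟨1, 1, 0, 67108864⟩, ⟨2, 1, 0, 67108864⟩] 0 1 2 2 5 (sgb true) (sgb false) x := by
  have X : XR 67108864 x := XR.of hx hx' (by norm_num) (by norm_num) (by norm_num) (by norm_num)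
  have hen : 0 < eng.v x := en_pos X.x0.le
  refine CornW.altA (C := cA012R) (j := (2 : Fin 9)) (k := (5 : Fin 9)) (Ef := esg) (pd := pd) (o := 3 / 40)
    (cornW_of (C := cA012R) (C0 := c0B) (En := eng) (mo := mog) (j := (2 : Fin 9)) (k := (5 : Fin 9)) (lo := 0) (hi := 4) (W := 67108864) (N0 := 3) cA012R_q (sideB hx hx') gokB (pinU hx hx') dokB X (by norm_num) (by norm_num) (l := (0 : Fin 9)) rfl
      (gatB20 x) (gatB51 x) (gatB02 x) (datB20 x) (datB51 x) (datB02 x) ?_)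
    (cornS_of (C := cA012R) (C0 := c0B) (j := (2 : Fin 9)) (k := (5 : Fin 9)) (lo := 0) (hi := 4) (W := 67108864) (N0 := 3) cA012R_q (sideB hx hx') gokB X (by norm_num) (by norm_num) (l := (0 : Fin 9)) rfl
      (gatB20 x) (gatB51 x) (gatB02 x) ?_)
    (thU (pinU hx hx')) rfl hκ (fun j q y => tC_eq j q y x) (esg_rng X.x0.le (by linarith [X.b, X.p0])).1 (mo_v x) le_rfl le_rfl
  · intro ρ a B hρ hd i h1 h2
    fin_cases i
    · exact corW_cert (G1 := gB2q0) (G2 := gB5q1) (Ga := gB0q2) (Gb := gB1q2) (D1 := dB2q0) (D2 := dB5q1) (Da := dB0q2) (Db := dB1q2) cA012R_ok B hρ hen (gatB20 x) (gatB51 x) (fun _ => gatB02 x) (fun _ => gatB12 x) (datB20 x) (datB51 x) (fun _ => datB02 x) (fun _ => datB12 x) hd hx hx' CW.A012R_250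
    · exact corW_cert (G1 := gB2q0) (G2 := gB5q1) (Ga := gB1q2) (Gb := gB2q2) (D1 := dB2q0) (D2 := dB5q1) (Da := dB1q2) (Db := dB2q2) cA012R_ok B hρ hen (gatB20 x) (gatB51 x) (fun _ => gatB12 x) (fun _ => gatB22 x) (datB20 x) (datB51 x) (fun _ => datB12 x) (fun _ => datB22 x) hd hx hx' CW.A012R_251
    · exact corW_cert (G1 := gB2q0) (G2 := gB5q1) (Ga := gB2q2) (Gb := gB3q2) (D1 := dB2q0) (D2 := dB5q1) (Da := dB2q2) (Db := dB3q2) cA012R_ok B hρ hen (gatB20 x) (gatB51 x) (fun _ => gatB22 x) (fun _ => gatB32 x) (datB20 x) (datB51 x) (fun _ => datB22 x) (fun _ => datB32 x) hd hx hx' CW.A012R_252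
    · exact corW_cert (G1 := gB2q0) (G2 := gB5q1) (Ga := gB3q2) (Gb := gB4q2) (D1 := dB2q0) (D2 := dB5q1) (Da := dB3q2) (Db := dB4q2) cA012R_ok B hρ hen (gatB20 x) (gatB51 x) (fun _ => gatB32 x) (fun _ => gatB42 x) (datB20 x) (datB51 x) (fun _ => datB32 x) (fun _ => datB42 x) hd hx hx' CW.A012R_253
    · exact corW_cert (G1 := gB2q0) (G2 := gB5q1) (Ga := gB4q2) (Gb := gB5q2) (D1 := dB2q0) (D2 := dB5q1) (Da := dB4q2) (Db := dB5q2) cA012R_ok B hρ hen (gatB20 x) (gatB51 x) (fun _ => gatB42 x) (fun h => absurd h (by decide)) (datB20 x) (datB51 x) (fun _ => datB42 x) (fun h => absurd h (by decide)) hd hx hx' CW.A012R_254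
    · exact absurd h2 (by norm_num)
    · exact absurd h2 (by norm_num)
    · exact absurd h2 (by norm_num)
  · intro ρ a B hρ hd i h1 h2
    fin_cases i
    · exact corT_cert (G1 := gB2q0) (G2 := gB5q1) (Ga := gB0q2) (Gb := gB1q2) cA012R_ok B hρ (gatB20 x) (gatB51 x) (fun _ => gatB02 x) (fun _ => gatB12 x) hd hx hx' CG.A012R_250
    · exact corT_cert (G1 := gB2q0) (G2 := gB5q1) (Ga := gB1q2) (Gb := gB2q2) cA012R_ok B hρ (gatB20 x) (gatB51 x) (fun _ => gatB12 x) (fun _ => gatB22 x) hd hx hx' CG.A012R_251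
    · exact corT_cert (G1 := gB2q0) (G2 := gB5q1) (Ga := gB2q2) (Gb := gB3q2) cA012R_ok B hρ (gatB20 x) (gatB51 x) (fun _ => gatB22 x) (fun _ => gatB32 x) hd hx hx' CG.A012R_252
    · exact corT_cert (G1 := gB2q0) (G2 := gB5q1) (Ga := gB3q2) (Gb := gB4q2) cA012R_ok B hρ (gatB20 x) (gatB51 x) (fun _ => gatB32 x) (fun _ => gatB42 x) hd hx hx' CG.A012R_253
    · exact corT_cert (G1 := gB2q0) (G2 := gB5q1) (Ga := gB4q2) (Gb := gB5q2) cA012R_ok B hρ (gatB20 x) (gatB51 x) (fun _ => gatB42 x) (fun h => absurd h (by decide)) hd hx hx' CG.A012R_254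
    · exact absurd h2 (by norm_num)
    · exact absurd h2 (by norm_num)
    · exact absurd h2 (by norm_num)

theorem altB_A012R_26 {κ x : ℝ} (hκ : κ * h0 = ken x) (hx : ((649613803 : ℕ) : ℝ) / S ≤ x) (hx' : x ≤ (((649613803 : ℕ) : ℝ) + (48318383 : ℕ)) / S) :
    AltEA 3 κ (eng.v x) (3 / 40) (tnt (h0 * x) (3 / 10)) PP tK tL tC pcB (scP esg pd) [⟨0, 0, 0, 67108864⟩, ⟨1, 1, 0, 67108864⟩, ⟨2, 1, 0, 67108864⟩] 0 1 2 2 6 (sgb true) (sgb false) x := by
  have X : XR 67108864 x := XR.of hx hx' (by norm_num) (by norm_num) (by norm_num) (by norm_num)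
  have hen : 0 < eng.v x := en_pos X.x0.le
  refine CornW.altA (C := cA012R) (j := (2 : Fin 9)) (k := (6 : Fin 9)) (Ef := esg) (pd := pd) (o := 3 / 40)
    (cornW_of (C := cA012R) (C0 := c0B) (En := eng) (mo := mog) (j := (2 : Fin 9)) (k := (6 : Fin 9)) (lo := 0) (hi := 4) (W := 67108864) (N0 := 3) cA012R_q (sideB hx hx') gokB (pinU hx hx') dokB X (by norm_num) (by norm_num) (l := (0 : Fin 9)) rfl
      (gatB20 x) (gatB61 x) (gatB02 x) (datB20 x) (datB61 x) (datB02 x) ?_)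
    (cornS_of (C := cA012R) (C0 := c0B) (j := (2 : Fin 9)) (k := (6 : Fin 9)) (lo := 0) (hi := 4) (W := 67108864) (N0 := 3) cA012R_q (sideB hx hx') gokB X (by norm_num) (by norm_num) (l := (0 : Fin 9)) rfl
      (gatB20 x) (gatB61 x) (gatB02 x) ?_)
    (thU (pinU hx hx')) rfl hκ (fun j q y => tC_eq j q y x) (esg_rng X.x0.le (by linarith [X.b, X.p0])).1 (mo_v x) le_rfl le_rfl
  · intro ρ a B hρ hd i h1 h2
    fin_cases i
    · exact corW_cert (G1 := gB2q0) (G2 := gB6q1) (Ga := gB0q2) (Gb := gB1q2) (D1 := dB2q0) (D2 := dB6q1) (Da := dB0q2) (Db := dB1q2) cA012R_ok B hρ hen (gatB20 x) (gatB61 x) (fun _ => gatB02 x) (fun _ => gatB12 x) (datB20 x) (datB61 x) (fun _ => datB02 x) (fun _ => datB12 x) hd hx hx' CW.A012R_260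
    · exact corW_cert (G1 := gB2q0) (G2 := gB6q1) (Ga := gB1q2) (Gb := gB2q2) (D1 := dB2q0) (D2 := dB6q1) (Da := dB1q2) (Db := dB2q2) cA012R_ok B hρ hen (gatB20 x) (gatB61 x) (fun _ => gatB12 x) (fun _ => gatB22 x) (datB20 x) (datB61 x) (fun _ => datB12 x) (fun _ => datB22 x) hd hx hx' CW.A012R_261
    · exact corW_cert (G1 := gB2q0) (G2 := gB6q1) (Ga := gB2q2) (Gb := gB3q2) (D1 := dB2q0) (D2 := dB6q1) (Da := dB2q2) (Db := dB3q2) cA012R_ok B hρ hen (gatB20 x) (gatB61 x) (fun _ => gatB22 x) (fun _ => gatB32 x) (datB20 x) (datB61 x) (fun _ => datB22 x) (fun _ => datB32 x) hd hx hx' CW.A012R_262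
    · exact corW_cert (G1 := gB2q0) (G2 := gB6q1) (Ga := gB3q2) (Gb := gB4q2) (D1 := dB2q0) (D2 := dB6q1) (Da := dB3q2) (Db := dB4q2) cA012R_ok B hρ hen (gatB20 x) (gatB61 x) (fun _ => gatB32 x) (fun _ => gatB42 x) (datB20 x) (datB61 x) (fun _ => datB32 x) (fun _ => datB42 x) hd hx hx' CW.A012R_263
    · exact corW_cert (G1 := gB2q0) (G2 := gB6q1) (Ga := gB4q2) (Gb := gB5q2) (D1 := dB2q0) (D2 := dB6q1) (Da := dB4q2) (Db := dB5q2) cA012R_ok B hρ hen (gatB20 x) (gatB61 x) (fun _ => gatB42 x) (fun h => absurd h (by decide)) (datB20 x) (datB61 x) (fun _ => datB42 x) (fun h => absurd h (by decide)) hd hx hx' CW.A012R_264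
    · exact absurd h2 (by norm_num)
    · exact absurd h2 (by norm_num)
    · exact absurd h2 (by norm_num)
  · intro ρ a B hρ hd i h1 h2
    fin_cases i
    · exact corT_cert (G1 := gB2q0) (G2 := gB6q1) (Ga := gB0q2) (Gb := gB1q2) cA012R_ok B hρ (gatB20 x) (gatB61 x) (fun _ => gatB02 x) (fun _ => gatB12 x) hd hx hx' CG.A012R_260
    · exact corT_cert (G1 := gB2q0) (G2 := gB6q1) (Ga := gB1q2) (Gb := gB2q2) cA012R_ok B hρ (gatB20 x) (gatB61 x) (fun _ => gatB12 x) (fun _ => gatB22 x) hd hx hx' CG.A012R_261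
    · exact corT_cert (G1 := gB2q0) (G2 := gB6q1) (Ga := gB2q2) (Gb := gB3q2) cA012R_ok B hρ (gatB20 x) (gatB61 x) (fun _ => gatB22 x) (fun _ => gatB32 x) hd hx hx' CG.A012R_262
    · exact corT_cert (G1 := gB2q0) (G2 := gB6q1) (Ga := gB3q2) (Gb := gB4q2) cA012R_ok B hρ (gatB20 x) (gatB61 x) (fun _ => gatB32 x) (fun _ => gatB42 x) hd hx hx' CG.A012R_263
    · exact corT_cert (G1 := gB2q0) (G2 := gB6q1) (Ga := gB4q2) (Gb := gB5q2) cA012R_ok B hρ (gatB20 x) (gatB61 x) (fun _ => gatB42 x) (fun h => absurd h (by decide)) hd hx hx' CG.A012R_264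
    · exact absurd h2 (by norm_num)
    · exact absurd h2 (by norm_num)
    · exact absurd h2 (by norm_num)

theorem altB_A012R_27 {κ x : ℝ} (hκ : κ * h0 = ken x) (hx : ((649613803 : ℕ) : ℝ) / S ≤ x) (hx' : x ≤ (((649613803 : ℕ) : ℝ) + (48318383 : ℕ)) / S) :
    AltEA 3 κ (eng.v x) (3 / 40) (tnt (h0 * x) (3 / 10)) PP tK tL tC pcB (scP esg pd) [⟨0, 0, 0, 67108864⟩, ⟨1, 1, 0, 67108864⟩, ⟨2, 1, 0, 67108864⟩] 0 1 2 2 7 (sgb true) (sgb false) x := by
  have X : XR 67108864 x := XR.of hx hx' (by norm_num) (by norm_num) (by norm_num) (by norm_num)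
  have hen : 0 < eng.v x := en_pos X.x0.le
  refine CornW.altA (C := cA012R) (j := (2 : Fin 9)) (k := (7 : Fin 9)) (Ef := esg) (pd := pd) (o := 3 / 40)
    (cornW_of (C := cA012R) (C0 := c0B) (En := eng) (mo := mog) (j := (2 : Fin 9)) (k := (7 : Fin 9)) (lo := 0) (hi := 4) (W := 67108864) (N0 := 3) cA012R_q (sideB hx hx') gokB (pinU hx hx') dokB X (by norm_num) (by norm_num) (l := (0 : Fin 9)) rfl
      (gatB20 x) (gatB71 x) (gatB02 x) (datB20 x) (datB71 x) (datB02 x) ?_)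
    (cornS_of (C := cA012R) (C0 := c0B) (j := (2 : Fin 9)) (k := (7 : Fin 9)) (lo := 0) (hi := 4) (W := 67108864) (N0 := 3) cA012R_q (sideB hx hx') gokB X (by norm_num) (by norm_num) (l := (0 : Fin 9)) rfl
      (gatB20 x) (gatB71 x) (gatB02 x) ?_)
    (thU (pinU hx hx')) rfl hκ (fun j q y => tC_eq j q y x) (esg_rng X.x0.le (by linarith [X.b, X.p0])).1 (mo_v x) le_rfl le_rfl
  · intro ρ a B hρ hd i h1 h2
    fin_cases i
    · exact corW_cert (G1 := gB2q0) (G2 := gB7q1) (Ga := gB0q2) (Gb := gB1q2) (D1 := dB2q0) (D2 := dB7q1) (Da := dB0q2) (Db := dB1q2) cA012R_ok B hρ hen (gatB20 x) (gatB71 x) (fun _ => gatB02 x) (fun _ => gatB12 x) (datB20 x) (datB71 x) (fun _ => datB02 x) (fun _ => datB12 x) hd hx hx' CW.A012R_270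
    · exact corW_cert (G1 := gB2q0) (G2 := gB7q1) (Ga := gB1q2) (Gb := gB2q2) (D1 := dB2q0) (D2 := dB7q1) (Da := dB1q2) (Db := dB2q2) cA012R_ok B hρ hen (gatB20 x) (gatB71 x) (fun _ => gatB12 x) (fun _ => gatB22 x) (datB20 x) (datB71 x) (fun _ => datB12 x) (fun _ => datB22 x) hd hx hx' CW.A012R_271
    · exact corW_cert (G1 := gB2q0) (G2 := gB7q1) (Ga := gB2q2) (Gb := gB3q2) (D1 := dB2q0) (D2 := dB7q1) (Da := dB2q2) (Db := dB3q2) cA012R_ok B hρ hen (gatB20 x) (gatB71 x) (fun _ => gatB22 x) (fun _ => gatB32 x) (datB20 x) (datB71 x) (fun _ => datB22 x) (fun _ => datB32 x) hd hx hx' CW.A012R_272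
    · exact corW_cert (G1 := gB2q0) (G2 := gB7q1) (Ga := gB3q2) (Gb := gB4q2) (D1 := dB2q0) (D2 := dB7q1) (Da := dB3q2) (Db := dB4q2) cA012R_ok B hρ hen (gatB20 x) (gatB71 x) (fun _ => gatB32 x) (fun _ => gatB42 x) (datB20 x) (datB71 x) (fun _ => datB32 x) (fun _ => datB42 x) hd hx hx' CW.A012R_273
    · exact corW_cert (G1 := gB2q0) (G2 := gB7q1) (Ga := gB4q2) (Gb := gB5q2) (D1 := dB2q0) (D2 := dB7q1) (Da := dB4q2) (Db := dB5q2) cA012R_ok B hρ hen (gatB20 x) (gatB71 x) (fun _ => gatB42 x) (fun h => absurd h (by decide)) (datB20 x) (datB71 x) (fun _ => datB42 x) (fun h => absurd h (by decide)) hd hx hx' CW.A012R_274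
    · exact absurd h2 (by norm_num)
    · exact absurd h2 (by norm_num)
    · exact absurd h2 (by norm_num)
  · intro ρ a B hρ hd i h1 h2
    fin_cases i
    · exact corT_cert (G1 := gB2q0) (G2 := gB7q1) (Ga := gB0q2) (Gb := gB1q2) cA012R_ok B hρ (gatB20 x) (gatB71 x) (fun _ => gatB02 x) (fun _ => gatB12 x) hd hx hx' CG.A012R_270
    · exact corT_cert (G1 := gB2q0) (G2 := gB7q1) (Ga := gB1q2) (Gb := gB2q2) cA012R_ok B hρ (gatB20 x) (gatB71 x) (fun _ => gatB12 x) (fun _ => gatB22 x) hd hx hx' CG.A012R_271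
    · exact corT_cert (G1 := gB2q0) (G2 := gB7q1) (Ga := gB2q2) (Gb := gB3q2) cA012R_ok B hρ (gatB20 x) (gatB71 x) (fun _ => gatB22 x) (fun _ => gatB32 x) hd hx hx' CG.A012R_272
    · exact corT_cert (G1 := gB2q0) (G2 := gB7q1) (Ga := gB3q2) (Gb := gB4q2) cA012R_ok B hρ (gatB20 x) (gatB71 x) (fun _ => gatB32 x) (fun _ => gatB42 x) hd hx hx' CG.A012R_273
    · exact corT_cert (G1 := gB2q0) (G2 := gB7q1) (Ga := gB4q2) (Gb := gB5q2) cA012R_ok B hρ (gatB20 x) (gatB71 x) (fun _ => gatB42 x) (fun h => absurd h (by decide)) hd hx hx' CG.A012R_274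
    · exact absurd h2 (by norm_num)
    · exact absurd h2 (by norm_num)
    · exact absurd h2 (by norm_num)

theorem altB_A012R_28 {κ x : ℝ} (hκ : κ * h0 = ken x) (hx : ((649613803 : ℕ) : ℝ) / S ≤ x) (hx' : x ≤ (((649613803 : ℕ) : ℝ) + (48318383 : ℕ)) / S) :
    AltEA 3 κ (eng.v x) (3 / 40) (tnt (h0 * x) (3 / 10)) PP tK tL tC pcB (scP esg pd) [⟨0, 0, 0, 67108864⟩, ⟨1, 1, 0, 67108864⟩, ⟨2, 1, 0, 67108864⟩] 0 1 2 2 8 (sgb true) (sgb false) x := by
  have X : XR 67108864 x := XR.of hx hx' (by norm_num) (by norm_num) (by norm_num) (by norm_num)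
  have hen : 0 < eng.v x := en_pos X.x0.le
  refine CornW.altA (C := cA012R) (j := (2 : Fin 9)) (k := (8 : Fin 9)) (Ef := esg) (pd := pd) (o := 3 / 40)
    (cornW_of (C := cA012R) (C0 := c0B) (En := eng) (mo := mog) (j := (2 : Fin 9)) (k := (8 : Fin 9)) (lo := 0) (hi := 4) (W := 67108864) (N0 := 3) cA012R_q (sideB hx hx') gokB (pinU hx hx') dokB X (by norm_num) (by norm_num) (l := (0 : Fin 9)) rfl
      (gatB20 x) (gatB81 x) (gatB02 x) (datB20 x) (datB81 x) (datB02 x) ?_)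
    (cornS_of (C := cA012R) (C0 := c0B) (j := (2 : Fin 9)) (k := (8 : Fin 9)) (lo := 0) (hi := 4) (W := 67108864) (N0 := 3) cA012R_q (sideB hx hx') gokB X (by norm_num) (by norm_num) (l := (0 : Fin 9)) rfl
      (gatB20 x) (gatB81 x) (gatB02 x) ?_)
    (thU (pinU hx hx')) rfl hκ (fun j q y => tC_eq j q y x) (esg_rng X.x0.le (by linarith [X.b, X.p0])).1 (mo_v x) le_rfl le_rfl
  · intro ρ a B hρ hd i h1 h2
    fin_cases i
    · exact corW_cert (G1 := gB2q0) (G2 := gB8q1) (Ga := gB0q2) (Gb := gB1q2) (D1 := dB2q0) (D2 := dB8q1) (Da := dB0q2) (Db := dB1q2) cA012R_ok B hρ hen (gatB20 x) (gatB81 x) (fun _ => gatB02 x) (fun _ => gatB12 x) (datB20 x) (datB81 x) (fun _ => datB02 x) (fun _ => datB12 x) hd hx hx' CW.A012R_280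
    · exact corW_cert (G1 := gB2q0) (G2 := gB8q1) (Ga := gB1q2) (Gb := gB2q2) (D1 := dB2q0) (D2 := dB8q1) (Da := dB1q2) (Db := dB2q2) cA012R_ok B hρ hen (gatB20 x) (gatB81 x) (fun _ => gatB12 x) (fun _ => gatB22 x) (datB20 x) (datB81 x) (fun _ => datB12 x) (fun _ => datB22 x) hd hx hx' CW.A012R_281
    · exact corW_cert (G1 := gB2q0) (G2 := gB8q1) (Ga := gB2q2) (Gb := gB3q2) (D1 := dB2q0) (D2 := dB8q1) (Da := dB2q2) (Db := dB3q2) cA012R_ok B hρ hen (gatB20 x) (gatB81 x) (fun _ => gatB22 x) (fun _ => gatB32 x) (datB20 x) (datB81 x) (fun _ => datB22 x) (fun _ => datB32 x) hd hx hx' CW.A012R_282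
    · exact corW_cert (G1 := gB2q0) (G2 := gB8q1) (Ga := gB3q2) (Gb := gB4q2) (D1 := dB2q0) (D2 := dB8q1) (Da := dB3q2) (Db := dB4q2) cA012R_ok B hρ hen (gatB20 x) (gatB81 x) (fun _ => gatB32 x) (fun _ => gatB42 x) (datB20 x) (datB81 x) (fun _ => datB32 x) (fun _ => datB42 x) hd hx hx' CW.A012R_283
    · exact corW_cert (G1 := gB2q0) (G2 := gB8q1) (Ga := gB4q2) (Gb := gB5q2) (D1 := dB2q0) (D2 := dB8q1) (Da := dB4q2) (Db := dB5q2) cA012R_ok B hρ hen (gatB20 x) (gatB81 x) (fun _ => gatB42 x) (fun h => absurd h (by decide)) (datB20 x) (datB81 x) (fun _ => datB42 x) (fun h => absurd h (by decide)) hd hx hx' CW.A012R_284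
    · exact absurd h2 (by norm_num)
    · exact absurd h2 (by norm_num)
    · exact absurd h2 (by norm_num)
  · intro ρ a B hρ hd i h1 h2
    fin_cases i
    · exact corT_cert (G1 := gB2q0) (G2 := gB8q1) (Ga := gB0q2) (Gb := gB1q2) cA012R_ok B hρ (gatB20 x) (gatB81 x) (fun _ => gatB02 x) (fun _ => gatB12 x) hd hx hx' CG.A012R_280
    · exact corT_cert (G1 := gB2q0) (G2 := gB8q1) (Ga := gB1q2) (Gb := gB2q2) cA012R_ok B hρ (gatB20 x) (gatB81 x) (fun _ => gatB12 x) (fun _ => gatB22 x) hd hx hx' CG.A012R_281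
    · exact corT_cert (G1 := gB2q0) (G2 := gB8q1) (Ga := gB2q2) (Gb := gB3q2) cA012R_ok B hρ (gatB20 x) (gatB81 x) (fun _ => gatB22 x) (fun _ => gatB32 x) hd hx hx' CG.A012R_282
    · exact corT_cert (G1 := gB2q0) (G2 := gB8q1) (Ga := gB3q2) (Gb := gB4q2) cA012R_ok B hρ (gatB20 x) (gatB81 x) (fun _ => gatB32 x) (fun _ => gatB42 x) hd hx hx' CG.A012R_283
    · exact corT_cert (G1 := gB2q0) (G2 := gB8q1) (Ga := gB4q2) (Gb := gB5q2) cA012R_ok B hρ (gatB20 x) (gatB81 x) (fun _ => gatB42 x) (fun h => absurd h (by decide)) hd hx hx' CG.A012R_284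
    · exact absurd h2 (by norm_num)
    · exact absurd h2 (by norm_num)
    · exact absurd h2 (by norm_num)

theorem altB_A012R_35 {κ x : ℝ} (hκ : κ * h0 = ken x) (hx : ((649613803 : ℕ) : ℝ) / S ≤ x) (hx' : x ≤ (((649613803 : ℕ) : ℝ) + (48318383 : ℕ)) / S) :
    AltEA 3 κ (eng.v x) (3 / 40) (tnt (h0 * x) (3 / 10)) PP tK tL tC pcB (scP esg pd) [⟨0, 0, 0, 67108864⟩, ⟨1, 1, 0, 67108864⟩, ⟨2, 1, 0, 67108864⟩] 0 1 2 3 5 (sgb true) (sgb false) x := by
  have X : XR 67108864 x := XR.of hx hx' (by norm_num) (by norm_num) (by norm_num) (by norm_num)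
  have hen : 0 < eng.v x := en_pos X.x0.le
  refine CornW.altA (C := cA012R) (j := (3 : Fin 9)) (k := (5 : Fin 9)) (Ef := esg) (pd := pd) (o := 3 / 40)
    (cornW_of (C := cA012R) (C0 := c0B) (En := eng) (mo := mog) (j := (3 : Fin 9)) (k := (5 : Fin 9)) (lo := 0) (hi := 4) (W := 67108864) (N0 := 3) cA012R_q (sideB hx hx') gokB (pinU hx hx') dokB X (by norm_num) (by norm_num) (l := (0 : Fin 9)) rfl
      (gatB30 x) (gatB51 x) (gatB02 x) (datB30 x) (datB51 x) (datB02 x) ?_)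
    (cornS_of (C := cA012R) (C0 := c0B) (j := (3 : Fin 9)) (k := (5 : Fin 9)) (lo := 0) (hi := 4) (W := 67108864) (N0 := 3) cA012R_q (sideB hx hx') gokB X (by norm_num) (by norm_num) (l := (0 : Fin 9)) rfl
      (gatB30 x) (gatB51 x) (gatB02 x) ?_)
    (thU (pinU hx hx')) rfl hκ (fun j q y => tC_eq j q y x) (esg_rng X.x0.le (by linarith [X.b, X.p0])).1 (mo_v x) le_rfl le_rfl
  · intro ρ a B hρ hd i h1 h2
    fin_cases i
    · exact corW_cert (G1 := gB3q0) (G2 := gB5q1) (Ga := gB0q2) (Gb := gB1q2) (D1 := dB3q0) (D2 := dB5q1) (Da := dB0q2) (Db := dB1q2) cA012R_ok B hρ hen (gatB30 x) (gatB51 x) (fun _ => gatB02 x) (fun _ => gatB12 x) (datB30 x) (datB51 x) (fun _ => datB02 x) (fun _ => datB12 x) hd hx hx' CW.A012R_350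
    · exact corW_cert (G1 := gB3q0) (G2 := gB5q1) (Ga := gB1q2) (Gb := gB2q2) (D1 := dB3q0) (D2 := dB5q1) (Da := dB1q2) (Db := dB2q2) cA012R_ok B hρ hen (gatB30 x) (gatB51 x) (fun _ => gatB12 x) (fun _ => gatB22 x) (datB30 x) (datB51 x) (fun _ => datB12 x) (fun _ => datB22 x) hd hx hx' CW.A012R_351
    · exact corW_cert (G1 := gB3q0) (G2 := gB5q1) (Ga := gB2q2) (Gb := gB3q2) (D1 := dB3q0) (D2 := dB5q1) (Da := dB2q2) (Db := dB3q2) cA012R_ok B hρ hen (gatB30 x) (gatB51 x) (fun _ => gatB22 x) (fun _ => gatB32 x) (datB30 x) (datB51 x) (fun _ => datB22 x) (fun _ => datB32 x) hd hx hx' CW.A012R_352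
    · exact corW_cert (G1 := gB3q0) (G2 := gB5q1) (Ga := gB3q2) (Gb := gB4q2) (D1 := dB3q0) (D2 := dB5q1) (Da := dB3q2) (Db := dB4q2) cA012R_ok B hρ hen (gatB30 x) (gatB51 x) (fun _ => gatB32 x) (fun _ => gatB42 x) (datB30 x) (datB51 x) (fun _ => datB32 x) (fun _ => datB42 x) hd hx hx' CW.A012R_353
    · exact corW_cert (G1 := gB3q0) (G2 := gB5q1) (Ga := gB4q2) (Gb := gB5q2) (D1 := dB3q0) (D2 := dB5q1) (Da := dB4q2) (Db := dB5q2) cA012R_ok B hρ hen (gatB30 x) (gatB51 x) (fun _ => gatB42 x) (fun h => absurd h (by decide)) (datB30 x) (datB51 x) (fun _ => datB42 x) (fun h => absurd h (by decide)) hd hx hx' CW.A012R_354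
    · exact absurd h2 (by norm_num)
    · exact absurd h2 (by norm_num)
    · exact absurd h2 (by norm_num)
  · intro ρ a B hρ hd i h1 h2
    fin_cases i
    · exact corT_cert (G1 := gB3q0) (G2 := gB5q1) (Ga := gB0q2) (Gb := gB1q2) cA012R_ok B hρ (gatB30 x) (gatB51 x) (fun _ => gatB02 x) (fun _ => gatB12 x) hd hx hx' CG.A012R_350
    · exact corT_cert (G1 := gB3q0) (G2 := gB5q1) (Ga := gB1q2) (Gb := gB2q2) cA012R_ok B hρ (gatB30 x) (gatB51 x) (fun _ => gatB12 x) (fun _ => gatB22 x) hd hx hx' CG.A012R_351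
    · exact corT_cert (G1 := gB3q0) (G2 := gB5q1) (Ga := gB2q2) (Gb := gB3q2) cA012R_ok B hρ (gatB30 x) (gatB51 x) (fun _ => gatB22 x) (fun _ => gatB32 x) hd hx hx' CG.A012R_352
    · exact corT_cert (G1 := gB3q0) (G2 := gB5q1) (Ga := gB3q2) (Gb := gB4q2) cA012R_ok B hρ (gatB30 x) (gatB51 x) (fun _ => gatB32 x) (fun _ => gatB42 x) hd hx hx' CG.A012R_353
    · exact corT_cert (G1 := gB3q0) (G2 := gB5q1) (Ga := gB4q2) (Gb := gB5q2) cA012R_ok B hρ (gatB30 x) (gatB51 x) (fun _ => gatB42 x) (fun h => absurd h (by decide)) hd hx hx' CG.A012R_354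
    · exact absurd h2 (by norm_num)
    · exact absurd h2 (by norm_num)
    · exact absurd h2 (by norm_num)

theorem altB_A012R_36 {κ x : ℝ} (hκ : κ * h0 = ken x) (hx : ((649613803 : ℕ) : ℝ) / S ≤ x) (hx' : x ≤ (((649613803 : ℕ) : ℝ) + (48318383 : ℕ)) / S) :
    AltEA 3 κ (eng.v x) (3 / 40) (tnt (h0 * x) (3 / 10)) PP tK tL tC pcB (scP esg pd) [⟨0, 0, 0, 67108864⟩, ⟨1, 1, 0, 67108864⟩, ⟨2, 1, 0, 67108864⟩] 0 1 2 3 6 (sgb true) (sgb false) x := by
  have X : XR 67108864 x := XR.of hx hx' (by norm_num) (by norm_num) (by norm_num) (by norm_num)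
  have hen : 0 < eng.v x := en_pos X.x0.le
  refine CornW.altA (C := cA012R) (j := (3 : Fin 9)) (k := (6 : Fin 9)) (Ef := esg) (pd := pd) (o := 3 / 40)
    (cornW_of (C := cA012R) (C0 := c0B) (En := eng) (mo := mog) (j := (3 : Fin 9)) (k := (6 : Fin 9)) (lo := 0) (hi := 4) (W := 67108864) (N0 := 3) cA012R_q (sideB hx hx') gokB (pinU hx hx') dokB X (by norm_num) (by norm_num) (l := (0 : Fin 9)) rfl
      (gatB30 x) (gatB61 x) (gatB02 x) (datB30 x) (datB61 x) (datB02 x) ?_)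
    (cornS_of (C := cA012R) (C0 := c0B) (j := (3 : Fin 9)) (k := (6 : Fin 9)) (lo := 0) (hi := 4) (W := 67108864) (N0 := 3) cA012R_q (sideB hx hx') gokB X (by norm_num) (by norm_num) (l := (0 : Fin 9)) rfl
      (gatB30 x) (gatB61 x) (gatB02 x) ?_)
    (thU (pinU hx hx')) rfl hκ (fun j q y => tC_eq j q y x) (esg_rng X.x0.le (by linarith [X.b, X.p0])).1 (mo_v x) le_rfl le_rfl
  · intro ρ a B hρ hd i h1 h2
    fin_cases i
    · exact corW_cert (G1 := gB3q0) (G2 := gB6q1) (Ga := gB0q2) (Gb := gB1q2) (D1 := dB3q0) (D2 := dB6q1) (Da := dB0q2) (Db := dB1q2) cA012R_ok B hρ hen (gatB30 x) (gatB61 x) (fun _ => gatB02 x) (fun _ => gatB12 x) (datB30 x) (datB61 x) (fun _ => datB02 x) (fun _ => datB12 x) hd hx hx' CW.A012R_360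
    · exact corW_cert (G1 := gB3q0) (G2 := gB6q1) (Ga := gB1q2) (Gb := gB2q2) (D1 := dB3q0) (D2 := dB6q1) (Da := dB1q2) (Db := dB2q2) cA012R_ok B hρ hen (gatB30 x) (gatB61 x) (fun _ => gatB12 x) (fun _ => gatB22 x) (datB30 x) (datB61 x) (fun _ => datB12 x) (fun _ => datB22 x) hd hx hx' CW.A012R_361
    · exact corW_cert (G1 := gB3q0) (G2 := gB6q1) (Ga := gB2q2) (Gb := gB3q2) (D1 := dB3q0) (D2 := dB6q1) (Da := dB2q2) (Db := dB3q2) cA012R_ok B hρ hen (gatB30 x) (gatB61 x) (fun _ => gatB22 x) (fun _ => gatB32 x) (datB30 x) (datB61 x) (fun _ => datB22 x) (fun _ => datB32 x) hd hx hx' CW.A012R_362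
    · exact corW_cert (G1 := gB3q0) (G2 := gB6q1) (Ga := gB3q2) (Gb := gB4q2) (D1 := dB3q0) (D2 := dB6q1) (Da := dB3q2) (Db := dB4q2) cA012R_ok B hρ hen (gatB30 x) (gatB61 x) (fun _ => gatB32 x) (fun _ => gatB42 x) (datB30 x) (datB61 x) (fun _ => datB32 x) (fun _ => datB42 x) hd hx hx' CW.A012R_363
    · exact corW_cert (G1 := gB3q0) (G2 := gB6q1) (Ga := gB4q2) (Gb := gB5q2) (D1 := dB3q0) (D2 := dB6q1) (Da := dB4q2) (Db := dB5q2) cA012R_ok B hρ hen (gatB30 x) (gatB61 x) (fun _ => gatB42 x) (fun h => absurd h (by decide)) (datB30 x) (datB61 x) (fun _ => datB42 x) (fun h => absurd h (by decide)) hd hx hx' CW.A012R_364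
    · exact absurd h2 (by norm_num)
    · exact absurd h2 (by norm_num)
    · exact absurd h2 (by norm_num)
  · intro ρ a B hρ hd i h1 h2
    fin_cases i
    · exact corT_cert (G1 := gB3q0) (G2 := gB6q1) (Ga := gB0q2) (Gb := gB1q2) cA012R_ok B hρ (gatB30 x) (gatB61 x) (fun _ => gatB02 x) (fun _ => gatB12 x) hd hx hx' CG.A012R_360
    · exact corT_cert (G1 := gB3q0) (G2 := gB6q1) (Ga := gB1q2) (Gb := gB2q2) cA012R_ok B hρ (gatB30 x) (gatB61 x) (fun _ => gatB12 x) (fun _ => gatB22 x) hd hx hx' CG.A012R_361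
    · exact corT_cert (G1 := gB3q0) (G2 := gB6q1) (Ga := gB2q2) (Gb := gB3q2) cA012R_ok B hρ (gatB30 x) (gatB61 x) (fun _ => gatB22 x) (fun _ => gatB32 x) hd hx hx' CG.A012R_362
    · exact corT_cert (G1 := gB3q0) (G2 := gB6q1) (Ga := gB3q2) (Gb := gB4q2) cA012R_ok B hρ (gatB30 x) (gatB61 x) (fun _ => gatB32 x) (fun _ => gatB42 x) hd hx hx' CG.A012R_363
    · exact corT_cert (G1 := gB3q0) (G2 := gB6q1) (Ga := gB4q2) (Gb := gB5q2) cA012R_ok B hρ (gatB30 x) (gatB61 x) (fun _ => gatB42 x) (fun h => absurd h (by decide)) hd hx hx' CG.A012R_364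
    · exact absurd h2 (by norm_num)
    · exact absurd h2 (by norm_num)
    · exact absurd h2 (by norm_num)

theorem altB_A012R_37 {κ x : ℝ} (hκ : κ * h0 = ken x) (hx : ((649613803 : ℕ) : ℝ) / S ≤ x) (hx' : x ≤ (((649613803 : ℕ) : ℝ) + (48318383 : ℕ)) / S) :
    AltEA 3 κ (eng.v x) (3 / 40) (tnt (h0 * x) (3 / 10)) PP tK tL tC pcB (scP esg pd) [⟨0, 0, 0, 67108864⟩, ⟨1, 1, 0, 67108864⟩, ⟨2, 1, 0, 67108864⟩] 0 1 2 3 7 (sgb true) (sgb false) x := by
  have X : XR 67108864 x := XR.of hx hx' (by norm_num) (by norm_num) (by norm_num) (by norm_num)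
  have hen : 0 < eng.v x := en_pos X.x0.le
  refine CornW.altA (C := cA012R) (j := (3 : Fin 9)) (k := (7 : Fin 9)) (Ef := esg) (pd := pd) (o := 3 / 40)
    (cornW_of (C := cA012R) (C0 := c0B) (En := eng) (mo := mog) (j := (3 : Fin 9)) (k := (7 : Fin 9)) (lo := 0) (hi := 4) (W := 67108864) (N0 := 3) cA012R_q (sideB hx hx') gokB (pinU hx hx') dokB X (by norm_num) (by norm_num) (l := (0 : Fin 9)) rfl
      (gatB30 x) (gatB71 x) (gatB02 x) (datB30 x) (datB71 x) (datB02 x) ?_)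
    (cornS_of (C := cA012R) (C0 := c0B) (j := (3 : Fin 9)) (k := (7 : Fin 9)) (lo := 0) (hi := 4) (W := 67108864) (N0 := 3) cA012R_q (sideB hx hx') gokB X (by norm_num) (by norm_num) (l := (0 : Fin 9)) rfl
      (gatB30 x) (gatB71 x) (gatB02 x) ?_)
    (thU (pinU hx hx')) rfl hκ (fun j q y => tC_eq j q y x) (esg_rng X.x0.le (by linarith [X.b, X.p0])).1 (mo_v x) le_rfl le_rfl
  · intro ρ a B hρ hd i h1 h2
    fin_cases i
    · exact corW_cert (G1 := gB3q0) (G2 := gB7q1) (Ga := gB0q2) (Gb := gB1q2) (D1 := dB3q0) (D2 := dB7q1) (Da := dB0q2) (Db := dB1q2) cA012R_ok B hρ hen (gatB30 x) (gatB71 x) (fun _ => gatB02 x) (fun _ => gatB12 x) (datB30 x) (datB71 x) (fun _ => datB02 x) (fun _ => datB12 x) hd hx hx' CW.A012R_370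
    · exact corW_cert (G1 := gB3q0) (G2 := gB7q1) (Ga := gB1q2) (Gb := gB2q2) (D1 := dB3q0) (D2 := dB7q1) (Da := dB1q2) (Db := dB2q2) cA012R_ok B hρ hen (gatB30 x) (gatB71 x) (fun _ => gatB12 x) (fun _ => gatB22 x) (datB30 x) (datB71 x) (fun _ => datB12 x) (fun _ => datB22 x) hd hx hx' CW.A012R_371
    · exact corW_cert (G1 := gB3q0) (G2 := gB7q1) (Ga := gB2q2) (Gb := gB3q2) (D1 := dB3q0) (D2 := dB7q1) (Da := dB2q2) (Db := dB3q2) cA012R_ok B hρ hen (gatB30 x) (gatB71 x) (fun _ => gatB22 x) (fun _ => gatB32 x) (datB30 x) (datB71 x) (fun _ => datB22 x) (fun _ => datB32 x) hd hx hx' CW.A012R_372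
    · exact corW_cert (G1 := gB3q0) (G2 := gB7q1) (Ga := gB3q2) (Gb := gB4q2) (D1 := dB3q0) (D2 := dB7q1) (Da := dB3q2) (Db := dB4q2) cA012R_ok B hρ hen (gatB30 x) (gatB71 x) (fun _ => gatB32 x) (fun _ => gatB42 x) (datB30 x) (datB71 x) (fun _ => datB32 x) (fun _ => datB42 x) hd hx hx' CW.A012R_373
    · exact corW_cert (G1 := gB3q0) (G2 := gB7q1) (Ga := gB4q2) (Gb := gB5q2) (D1 := dB3q0) (D2 := dB7q1) (Da := dB4q2) (Db := dB5q2) cA012R_ok B hρ hen (gatB30 x) (gatB71 x) (fun _ => gatB42 x) (fun h => absurd h (by decide)) (datB30 x) (datB71 x) (fun _ => datB42 x) (fun h => absurd h (by decide)) hd hx hx' CW.A012R_374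
    · exact absurd h2 (by norm_num)
    · exact absurd h2 (by norm_num)
    · exact absurd h2 (by norm_num)
  · intro ρ a B hρ hd i h1 h2
    fin_cases i
    · exact corT_cert (G1 := gB3q0) (G2 := gB7q1) (Ga := gB0q2) (Gb := gB1q2) cA012R_ok B hρ (gatB30 x) (gatB71 x) (fun _ => gatB02 x) (fun _ => gatB12 x) hd hx hx' CG.A012R_370
    · exact corT_cert (G1 := gB3q0) (G2 := gB7q1) (Ga := gB1q2) (Gb := gB2q2) cA012R_ok B hρ (gatB30 x) (gatB71 x) (fun _ => gatB12 x) (fun _ => gatB22 x) hd hx hx' CG.A012R_371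
    · exact corT_cert (G1 := gB3q0) (G2 := gB7q1) (Ga := gB2q2) (Gb := gB3q2) cA012R_ok B hρ (gatB30 x) (gatB71 x) (fun _ => gatB22 x) (fun _ => gatB32 x) hd hx hx' CG.A012R_372
    · exact corT_cert (G1 := gB3q0) (G2 := gB7q1) (Ga := gB3q2) (Gb := gB4q2) cA012R_ok B hρ (gatB30 x) (gatB71 x) (fun _ => gatB32 x) (fun _ => gatB42 x) hd hx hx' CG.A012R_373
    · exact corT_cert (G1 := gB3q0) (G2 := gB7q1) (Ga := gB4q2) (Gb := gB5q2) cA012R_ok B hρ (gatB30 x) (gatB71 x) (fun _ => gatB42 x) (fun h => absurd h (by decide)) hd hx hx' CG.A012R_374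
    · exact absurd h2 (by norm_num)
    · exact absurd h2 (by norm_num)
    · exact absurd h2 (by norm_num)

theorem altB_A012R_38 {κ x : ℝ} (hκ : κ * h0 = ken x) (hx : ((649613803 : ℕ) : ℝ) / S ≤ x) (hx' : x ≤ (((649613803 : ℕ) : ℝ) + (48318383 : ℕ)) / S) :
    AltEA 3 κ (eng.v x) (3 / 40) (tnt (h0 * x) (3 / 10)) PP tK tL tC pcB (scP esg pd) [⟨0, 0, 0, 67108864⟩, ⟨1, 1, 0, 67108864⟩, ⟨2, 1, 0, 67108864⟩] 0 1 2 3 8 (sgb true) (sgb false) x := by
  have X : XR 67108864 x := XR.of hx hx' (by norm_num) (by norm_num) (by norm_num) (by norm_num)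
  have hen : 0 < eng.v x := en_pos X.x0.le
  refine CornW.altA (C := cA012R) (j := (3 : Fin 9)) (k := (8 : Fin 9)) (Ef := esg) (pd := pd) (o := 3 / 40)
    (cornW_of (C := cA012R) (C0 := c0B) (En := eng) (mo := mog) (j := (3 : Fin 9)) (k := (8 : Fin 9)) (lo := 0) (hi := 4) (W := 67108864) (N0 := 3) cA012R_q (sideB hx hx') gokB (pinU hx hx') dokB X (by norm_num) (by norm_num) (l := (0 : Fin 9)) rfl
      (gatB30 x) (gatB81 x) (gatB02 x) (datB30 x) (datB81 x) (datB02 x) ?_)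
    (cornS_of (C := cA012R) (C0 := c0B) (j := (3 : Fin 9)) (k := (8 : Fin 9)) (lo := 0) (hi := 4) (W := 67108864) (N0 := 3) cA012R_q (sideB hx hx') gokB X (by norm_num) (by norm_num) (l := (0 : Fin 9)) rfl
      (gatB30 x) (gatB81 x) (gatB02 x) ?_)
    (thU (pinU hx hx')) rfl hκ (fun j q y => tC_eq j q y x) (esg_rng X.x0.le (by linarith [X.b, X.p0])).1 (mo_v x) le_rfl le_rfl
  · intro ρ a B hρ hd i h1 h2
    fin_cases i
    · exact corW_cert (G1 := gB3q0) (G2 := gB8q1) (Ga := gB0q2) (Gb := gB1q2) (D1 := dB3q0) (D2 := dB8q1) (Da := dB0q2) (Db := dB1q2) cA012R_ok B hρ hen (gatB30 x) (gatB81 x) (fun _ => gatB02 x) (fun _ => gatB12 x) (datB30 x) (datB81 x) (fun _ => datB02 x) (fun _ => datB12 x) hd hx hx' CW.A012R_380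
    · exact corW_cert (G1 := gB3q0) (G2 := gB8q1) (Ga := gB1q2) (Gb := gB2q2) (D1 := dB3q0) (D2 := dB8q1) (Da := dB1q2) (Db := dB2q2) cA012R_ok B hρ hen (gatB30 x) (gatB81 x) (fun _ => gatB12 x) (fun _ => gatB22 x) (datB30 x) (datB81 x) (fun _ => datB12 x) (fun _ => datB22 x) hd hx hx' CW.A012R_381
    · exact corW_cert (G1 := gB3q0) (G2 := gB8q1) (Ga := gB2q2) (Gb := gB3q2) (D1 := dB3q0) (D2 := dB8q1) (Da := dB2q2) (Db := dB3q2) cA012R_ok B hρ hen (gatB30 x) (gatB81 x) (fun _ => gatB22 x) (fun _ => gatB32 x) (datB30 x) (datB81 x) (fun _ => datB22 x) (fun _ => datB32 x) hd hx hx' CW.A012R_382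
    · exact corW_cert (G1 := gB3q0) (G2 := gB8q1) (Ga := gB3q2) (Gb := gB4q2) (D1 := dB3q0) (D2 := dB8q1) (Da := dB3q2) (Db := dB4q2) cA012R_ok B hρ hen (gatB30 x) (gatB81 x) (fun _ => gatB32 x) (fun _ => gatB42 x) (datB30 x) (datB81 x) (fun _ => datB32 x) (fun _ => datB42 x) hd hx hx' CW.A012R_383
    · exact corW_cert (G1 := gB3q0) (G2 := gB8q1) (Ga := gB4q2) (Gb := gB5q2) (D1 := dB3q0) (D2 := dB8q1) (Da := dB4q2) (Db := dB5q2) cA012R_ok B hρ hen (gatB30 x) (gatB81 x) (fun _ => gatB42 x) (fun h => absurd h (by decide)) (datB30 x) (datB81 x) (fun _ => datB42 x) (fun h => absurd h (by decide)) hd hx hx' CW.A012R_384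
    · exact absurd h2 (by norm_num)
    · exact absurd h2 (by norm_num)
    · exact absurd h2 (by norm_num)
  · intro ρ a B hρ hd i h1 h2
    fin_cases i
    · exact corT_cert (G1 := gB3q0) (G2 := gB8q1) (Ga := gB0q2) (Gb := gB1q2) cA012R_ok B hρ (gatB30 x) (gatB81 x) (fun _ => gatB02 x) (fun _ => gatB12 x) hd hx hx' CG.A012R_380
    · exact corT_cert (G1 := gB3q0) (G2 := gB8q1) (Ga := gB1q2) (Gb := gB2q2) cA012R_ok B hρ (gatB30 x) (gatB81 x) (fun _ => gatB12 x) (fun _ => gatB22 x) hd hx hx' CG.A012R_381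
    · exact corT_cert (G1 := gB3q0) (G2 := gB8q1) (Ga := gB2q2) (Gb := gB3q2) cA012R_ok B hρ (gatB30 x) (gatB81 x) (fun _ => gatB22 x) (fun _ => gatB32 x) hd hx hx' CG.A012R_382
    · exact corT_cert (G1 := gB3q0) (G2 := gB8q1) (Ga := gB3q2) (Gb := gB4q2) cA012R_ok B hρ (gatB30 x) (gatB81 x) (fun _ => gatB32 x) (fun _ => gatB42 x) hd hx hx' CG.A012R_383
    · exact corT_cert (G1 := gB3q0) (G2 := gB8q1) (Ga := gB4q2) (Gb := gB5q2) cA012R_ok B hρ (gatB30 x) (gatB81 x) (fun _ => gatB42 x) (fun h => absurd h (by decide)) hd hx hx' CG.A012R_384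
    · exact absurd h2 (by norm_num)
    · exact absurd h2 (by norm_num)
    · exact absurd h2 (by norm_num)

theorem altB_A012R_45 {κ x : ℝ} (hκ : κ * h0 = ken x) (hx : ((649613803 : ℕ) : ℝ) / S ≤ x) (hx' : x ≤ (((649613803 : ℕ) : ℝ) + (48318383 : ℕ)) / S) :
    AltEA 3 κ (eng.v x) (3 / 40) (tnt (h0 * x) (3 / 10)) PP tK tL tC pcB (scP esg pd) [⟨0, 0, 0, 67108864⟩, ⟨1, 1, 0, 67108864⟩, ⟨2, 1, 0, 67108864⟩] 0 1 2 4 5 (sgb true) (sgb false) x := by
  have X : XR 67108864 x := XR.of hx hx' (by norm_num) (by norm_num) (by norm_num) (by norm_num)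
  have hen : 0 < eng.v x := en_pos X.x0.le
  refine CornW.altA (C := cA012R) (j := (4 : Fin 9)) (k := (5 : Fin 9)) (Ef := esg) (pd := pd) (o := 3 / 40)
    (cornW_of (C := cA012R) (C0 := c0B) (En := eng) (mo := mog) (j := (4 : Fin 9)) (k := (5 : Fin 9)) (lo := 0) (hi := 4) (W := 67108864) (N0 := 3) cA012R_q (sideB hx hx') gokB (pinU hx hx') dokB X (by norm_num) (by norm_num) (l := (0 : Fin 9)) rfl
      (gatB40 x) (gatB51 x) (gatB02 x) (datB40 x) (datB51 x) (datB02 x) ?_)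
    (cornS_of (C := cA012R) (C0 := c0B) (j := (4 : Fin 9)) (k := (5 : Fin 9)) (lo := 0) (hi := 4) (W := 67108864) (N0 := 3) cA012R_q (sideB hx hx') gokB X (by norm_num) (by norm_num) (l := (0 : Fin 9)) rfl
      (gatB40 x) (gatB51 x) (gatB02 x) ?_)
    (thU (pinU hx hx')) rfl hκ (fun j q y => tC_eq j q y x) (esg_rng X.x0.le (by linarith [X.b, X.p0])).1 (mo_v x) le_rfl le_rfl
  · intro ρ a B hρ hd i h1 h2
    fin_cases i
    · exact corW_cert (G1 := gB4q0) (G2 := gB5q1) (Ga := gB0q2) (Gb := gB1q2) (D1 := dB4q0) (D2 := dB5q1) (Da := dB0q2) (Db := dB1q2) cA012R_ok B hρ hen (gatB40 x) (gatB51 x) (fun _ => gatB02 x) (fun _ => gatB12 x) (datB40 x) (datB51 x) (fun _ => datB02 x) (fun _ => datB12 x) hd hx hx' CW.A012R_450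
    · exact corW_cert (G1 := gB4q0) (G2 := gB5q1) (Ga := gB1q2) (Gb := gB2q2) (D1 := dB4q0) (D2 := dB5q1) (Da := dB1q2) (Db := dB2q2) cA012R_ok B hρ hen (gatB40 x) (gatB51 x) (fun _ => gatB12 x) (fun _ => gatB22 x) (datB40 x) (datB51 x) (fun _ => datB12 x) (fun _ => datB22 x) hd hx hx' CW.A012R_451
    · exact corW_cert (G1 := gB4q0) (G2 := gB5q1) (Ga := gB2q2) (Gb := gB3q2) (D1 := dB4q0) (D2 := dB5q1) (Da := dB2q2) (Db := dB3q2) cA012R_ok B hρ hen (gatB40 x) (gatB51 x) (fun _ => gatB22 x) (fun _ => gatB32 x) (datB40 x) (datB51 x) (fun _ => datB22 x) (fun _ => datB32 x) hd hx hx' CW.A012R_452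
    · exact corW_cert (G1 := gB4q0) (G2 := gB5q1) (Ga := gB3q2) (Gb := gB4q2) (D1 := dB4q0) (D2 := dB5q1) (Da := dB3q2) (Db := dB4q2) cA012R_ok B hρ hen (gatB40 x) (gatB51 x) (fun _ => gatB32 x) (fun _ => gatB42 x) (datB40 x) (datB51 x) (fun _ => datB32 x) (fun _ => datB42 x) hd hx hx' CW.A012R_453
    · exact corW_cert (G1 := gB4q0) (G2 := gB5q1) (Ga := gB4q2) (Gb := gB5q2) (D1 := dB4q0) (D2 := dB5q1) (Da := dB4q2) (Db := dB5q2) cA012R_ok B hρ hen (gatB40 x) (gatB51 x) (fun _ => gatB42 x) (fun h => absurd h (by decide)) (datB40 x) (datB51 x) (fun _ => datB42 x) (fun h => absurd h (by decide)) hd hx hx' CW.A012R_454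
    · exact absurd h2 (by norm_num)
    · exact absurd h2 (by norm_num)
    · exact absurd h2 (by norm_num)
  · intro ρ a B hρ hd i h1 h2
    fin_cases i
    · exact corT_cert (G1 := gB4q0) (G2 := gB5q1) (Ga := gB0q2) (Gb := gB1q2) cA012R_ok B hρ (gatB40 x) (gatB51 x) (fun _ => gatB02 x) (fun _ => gatB12 x) hd hx hx' CG.A012R_450
    · exact corT_cert (G1 := gB4q0) (G2 := gB5q1) (Ga := gB1q2) (Gb := gB2q2) cA012R_ok B hρ (gatB40 x) (gatB51 x) (fun _ => gatB12 x) (fun _ => gatB22 x) hd hx hx' CG.A012R_451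
    · exact corT_cert (G1 := gB4q0) (G2 := gB5q1) (Ga := gB2q2) (Gb := gB3q2) cA012R_ok B hρ (gatB40 x) (gatB51 x) (fun _ => gatB22 x) (fun _ => gatB32 x) hd hx hx' CG.A012R_452
    · exact corT_cert (G1 := gB4q0) (G2 := gB5q1) (Ga := gB3q2) (Gb := gB4q2) cA012R_ok B hρ (gatB40 x) (gatB51 x) (fun _ => gatB32 x) (fun _ => gatB42 x) hd hx hx' CG.A012R_453
    · exact corT_cert (G1 := gB4q0) (G2 := gB5q1) (Ga := gB4q2) (Gb := gB5q2) cA012R_ok B hρ (gatB40 x) (gatB51 x) (fun _ => gatB42 x) (fun h => absurd h (by decide)) hd hx hx' CG.A012R_454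
    · exact absurd h2 (by norm_num)
    · exact absurd h2 (by norm_num)
    · exact absurd h2 (by norm_num)

theorem altB_A012R_46 {κ x : ℝ} (hκ : κ * h0 = ken x) (hx : ((649613803 : ℕ) : ℝ) / S ≤ x) (hx' : x ≤ (((649613803 : ℕ) : ℝ) + (48318383 : ℕ)) / S) :
    AltEA 3 κ (eng.v x) (3 / 40) (tnt (h0 * x) (3 / 10)) PP tK tL tC pcB (scP esg pd) [⟨0, 0, 0, 67108864⟩, ⟨1, 1, 0, 67108864⟩, ⟨2, 1, 0, 67108864⟩] 0 1 2 4 6 (sgb true) (sgb false) x := by
  have X : XR 67108864 x := XR.of hx hx' (by norm_num) (by norm_num) (by norm_num) (by norm_num)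
  have hen : 0 < eng.v x := en_pos X.x0.le
  refine CornW.altA (C := cA012R) (j := (4 : Fin 9)) (k := (6 : Fin 9)) (Ef := esg) (pd := pd) (o := 3 / 40)
    (cornW_of (C := cA012R) (C0 := c0B) (En := eng) (mo := mog) (j := (4 : Fin 9)) (k := (6 : Fin 9)) (lo := 0) (hi := 4) (W := 67108864) (N0 := 3) cA012R_q (sideB hx hx') gokB (pinU hx hx') dokB X (by norm_num) (by norm_num) (l := (0 : Fin 9)) rfl
      (gatB40 x) (gatB61 x) (gatB02 x) (datB40 x) (datB61 x) (datB02 x) ?_)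
    (cornS_of (C := cA012R) (C0 := c0B) (j := (4 : Fin 9)) (k := (6 : Fin 9)) (lo := 0) (hi := 4) (W := 67108864) (N0 := 3) cA012R_q (sideB hx hx') gokB X (by norm_num) (by norm_num) (l := (0 : Fin 9)) rfl
      (gatB40 x) (gatB61 x) (gatB02 x) ?_)
    (thU (pinU hx hx')) rfl hκ (fun j q y => tC_eq j q y x) (esg_rng X.x0.le (by linarith [X.b, X.p0])).1 (mo_v x) le_rfl le_rfl
  · intro ρ a B hρ hd i h1 h2
    fin_cases i
    · exact corW_cert (G1 := gB4q0) (G2 := gB6q1) (Ga := gB0q2) (Gb := gB1q2) (D1 := dB4q0) (D2 := dB6q1) (Da := dB0q2) (Db := dB1q2) cA012R_ok B hρ hen (gatB40 x) (gatB61 x) (fun _ => gatB02 x) (fun _ => gatB12 x) (datB40 x) (datB61 x) (fun _ => datB02 x) (fun _ => datB12 x) hd hx hx' CW.A012R_460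
    · exact corW_cert (G1 := gB4q0) (G2 := gB6q1) (Ga := gB1q2) (Gb := gB2q2) (D1 := dB4q0) (D2 := dB6q1) (Da := dB1q2) (Db := dB2q2) cA012R_ok B hρ hen (gatB40 x) (gatB61 x) (fun _ => gatB12 x) (fun _ => gatB22 x) (datB40 x) (datB61 x) (fun _ => datB12 x) (fun _ => datB22 x) hd hx hx' CW.A012R_461
    · exact corW_cert (G1 := gB4q0) (G2 := gB6q1) (Ga := gB2q2) (Gb := gB3q2) (D1 := dB4q0) (D2 := dB6q1) (Da := dB2q2) (Db := dB3q2) cA012R_ok B hρ hen (gatB40 x) (gatB61 x) (fun _ => gatB22 x) (fun _ => gatB32 x) (datB40 x) (datB61 x) (fun _ => datB22 x) (fun _ => datB32 x) hd hx hx' CW.A012R_462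
    · exact corW_cert (G1 := gB4q0) (G2 := gB6q1) (Ga := gB3q2) (Gb := gB4q2) (D1 := dB4q0) (D2 := dB6q1) (Da := dB3q2) (Db := dB4q2) cA012R_ok B hρ hen (gatB40 x) (gatB61 x) (fun _ => gatB32 x) (fun _ => gatB42 x) (datB40 x) (datB61 x) (fun _ => datB32 x) (fun _ => datB42 x) hd hx hx' CW.A012R_463
    · exact corW_cert (G1 := gB4q0) (G2 := gB6q1) (Ga := gB4q2) (Gb := gB5q2) (D1 := dB4q0) (D2 := dB6q1) (Da := dB4q2) (Db := dB5q2) cA012R_ok B hρ hen (gatB40 x) (gatB61 x) (fun _ => gatB42 x) (fun h => absurd h (by decide)) (datB40 x) (datB61 x) (fun _ => datB42 x) (fun h => absurd h (by decide)) hd hx hx' CW.A012R_464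
    · exact absurd h2 (by norm_num)
    · exact absurd h2 (by norm_num)
    · exact absurd h2 (by norm_num)
  · intro ρ a B hρ hd i h1 h2
    fin_cases i
    · exact corT_cert (G1 := gB4q0) (G2 := gB6q1) (Ga := gB0q2) (Gb := gB1q2) cA012R_ok B hρ (gatB40 x) (gatB61 x) (fun _ => gatB02 x) (fun _ => gatB12 x) hd hx hx' CG.A012R_460
    · exact corT_cert (G1 := gB4q0) (G2 := gB6q1) (Ga := gB1q2) (Gb := gB2q2) cA012R_ok B hρ (gatB40 x) (gatB61 x) (fun _ => gatB12 x) (fun _ => gatB22 x) hd hx hx' CG.A012R_461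
    · exact corT_cert (G1 := gB4q0) (G2 := gB6q1) (Ga := gB2q2) (Gb := gB3q2) cA012R_ok B hρ (gatB40 x) (gatB61 x) (fun _ => gatB22 x) (fun _ => gatB32 x) hd hx hx' CG.A012R_462
    · exact corT_cert (G1 := gB4q0) (G2 := gB6q1) (Ga := gB3q2) (Gb := gB4q2) cA012R_ok B hρ (gatB40 x) (gatB61 x) (fun _ => gatB32 x) (fun _ => gatB42 x) hd hx hx' CG.A012R_463
    · exact corT_cert (G1 := gB4q0) (G2 := gB6q1) (Ga := gB4q2) (Gb := gB5q2) cA012R_ok B hρ (gatB40 x) (gatB61 x) (fun _ => gatB42 x) (fun h => absurd h (by decide)) hd hx hx' CG.A012R_464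
    · exact absurd h2 (by norm_num)
    · exact absurd h2 (by norm_num)
    · exact absurd h2 (by norm_num)

theorem altB_A012R_47 {κ x : ℝ} (hκ : κ * h0 = ken x) (hx : ((649613803 : ℕ) : ℝ) / S ≤ x) (hx' : x ≤ (((649613803 : ℕ) : ℝ) + (48318383 : ℕ)) / S) :
    AltEA 3 κ (eng.v x) (3 / 40) (tnt (h0 * x) (3 / 10)) PP tK tL tC pcB (scP esg pd) [⟨0, 0, 0, 67108864⟩, ⟨1, 1, 0, 67108864⟩, ⟨2, 1, 0, 67108864⟩] 0 1 2 4 7 (sgb true) (sgb false) x := by
  have X : XR 67108864 x := XR.of hx hx' (by norm_num) (by norm_num) (by norm_num) (by norm_num)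
  have hen : 0 < eng.v x := en_pos X.x0.le
  refine CornW.altA (C := cA012R) (j := (4 : Fin 9)) (k := (7 : Fin 9)) (Ef := esg) (pd := pd) (o := 3 / 40)
    (cornW_of (C := cA012R) (C0 := c0B) (En := eng) (mo := mog) (j := (4 : Fin 9)) (k := (7 : Fin 9)) (lo := 0) (hi := 4) (W := 67108864) (N0 := 3) cA012R_q (sideB hx hx') gokB (pinU hx hx') dokB X (by norm_num) (by norm_num) (l := (0 : Fin 9)) rfl
      (gatB40 x) (gatB71 x) (gatB02 x) (datB40 x) (datB71 x) (datB02 x) ?_)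
    (cornS_of (C := cA012R) (C0 := c0B) (j := (4 : Fin 9)) (k := (7 : Fin 9)) (lo := 0) (hi := 4) (W := 67108864) (N0 := 3) cA012R_q (sideB hx hx') gokB X (by norm_num) (by norm_num) (l := (0 : Fin 9)) rfl
      (gatB40 x) (gatB71 x) (gatB02 x) ?_)
    (thU (pinU hx hx')) rfl hκ (fun j q y => tC_eq j q y x) (esg_rng X.x0.le (by linarith [X.b, X.p0])).1 (mo_v x) le_rfl le_rfl
  · intro ρ a B hρ hd i h1 h2
    fin_cases i
    · exact corW_cert (G1 := gB4q0) (G2 := gB7q1) (Ga := gB0q2) (Gb := gB1q2) (D1 := dB4q0) (D2 := dB7q1) (Da := dB0q2) (Db := dB1q2) cA012R_ok B hρ hen (gatB40 x) (gatB71 x) (fun _ => gatB02 x) (fun _ => gatB12 x) (datB40 x) (datB71 x) (fun _ => datB02 x) (fun _ => datB12 x) hd hx hx' CW.A012R_470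
    · exact corW_cert (G1 := gB4q0) (G2 := gB7q1) (Ga := gB1q2) (Gb := gB2q2) (D1 := dB4q0) (D2 := dB7q1) (Da := dB1q2) (Db := dB2q2) cA012R_ok B hρ hen (gatB40 x) (gatB71 x) (fun _ => gatB12 x) (fun _ => gatB22 x) (datB40 x) (datB71 x) (fun _ => datB12 x) (fun _ => datB22 x) hd hx hx' CW.A012R_471
    · exact corW_cert (G1 := gB4q0) (G2 := gB7q1) (Ga := gB2q2) (Gb := gB3q2) (D1 := dB4q0) (D2 := dB7q1) (Da := dB2q2) (Db := dB3q2) cA012R_ok B hρ hen (gatB40 x) (gatB71 x) (fun _ => gatB22 x) (fun _ => gatB32 x) (datB40 x) (datB71 x) (fun _ => datB22 x) (fun _ => datB32 x) hd hx hx' CW.A012R_472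
    · exact corW_cert (G1 := gB4q0) (G2 := gB7q1) (Ga := gB3q2) (Gb := gB4q2) (D1 := dB4q0) (D2 := dB7q1) (Da := dB3q2) (Db := dB4q2) cA012R_ok B hρ hen (gatB40 x) (gatB71 x) (fun _ => gatB32 x) (fun _ => gatB42 x) (datB40 x) (datB71 x) (fun _ => datB32 x) (fun _ => datB42 x) hd hx hx' CW.A012R_473
    · exact corW_cert (G1 := gB4q0) (G2 := gB7q1) (Ga := gB4q2) (Gb := gB5q2) (D1 := dB4q0) (D2 := dB7q1) (Da := dB4q2) (Db := dB5q2) cA012R_ok B hρ hen (gatB40 x) (gatB71 x) (fun _ => gatB42 x) (fun h => absurd h (by decide)) (datB40 x) (datB71 x) (fun _ => datB42 x) (fun h => absurd h (by decide)) hd hx hx' CW.A012R_474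
    · exact absurd h2 (by norm_num)
    · exact absurd h2 (by norm_num)
    · exact absurd h2 (by norm_num)
  · intro ρ a B hρ hd i h1 h2
    fin_cases i
    · exact corT_cert (G1 := gB4q0) (G2 := gB7q1) (Ga := gB0q2) (Gb := gB1q2) cA012R_ok B hρ (gatB40 x) (gatB71 x) (fun _ => gatB02 x) (fun _ => gatB12 x) hd hx hx' CG.A012R_470
    · exact corT_cert (G1 := gB4q0) (G2 := gB7q1) (Ga := gB1q2) (Gb := gB2q2) cA012R_ok B hρ (gatB40 x) (gatB71 x) (fun _ => gatB12 x) (fun _ => gatB22 x) hd hx hx' CG.A012R_471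
    · exact corT_cert (G1 := gB4q0) (G2 := gB7q1) (Ga := gB2q2) (Gb := gB3q2) cA012R_ok B hρ (gatB40 x) (gatB71 x) (fun _ => gatB22 x) (fun _ => gatB32 x) hd hx hx' CG.A012R_472
    · exact corT_cert (G1 := gB4q0) (G2 := gB7q1) (Ga := gB3q2) (Gb := gB4q2) cA012R_ok B hρ (gatB40 x) (gatB71 x) (fun _ => gatB32 x) (fun _ => gatB42 x) hd hx hx' CG.A012R_473
    · exact corT_cert (G1 := gB4q0) (G2 := gB7q1) (Ga := gB4q2) (Gb := gB5q2) cA012R_ok B hρ (gatB40 x) (gatB71 x) (fun _ => gatB42 x) (fun h => absurd h (by decide)) hd hx hx' CG.A012R_474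
    · exact absurd h2 (by norm_num)
    · exact absurd h2 (by norm_num)
    · exact absurd h2 (by norm_num)

theorem altB_A012R_48 {κ x : ℝ} (hκ : κ * h0 = ken x) (hx : ((649613803 : ℕ) : ℝ) / S ≤ x) (hx' : x ≤ (((649613803 : ℕ) : ℝ) + (48318383 : ℕ)) / S) :
    AltEA 3 κ (eng.v x) (3 / 40) (tnt (h0 * x) (3 / 10)) PP tK tL tC pcB (scP esg pd) [⟨0, 0, 0, 67108864⟩, ⟨1, 1, 0, 67108864⟩, ⟨2, 1, 0, 67108864⟩] 0 1 2 4 8 (sgb true) (sgb false) x := by
  have X : XR 67108864 x := XR.of hx hx' (by norm_num) (by norm_num) (by norm_num) (by norm_num)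
  have hen : 0 < eng.v x := en_pos X.x0.le
  refine CornW.altA (C := cA012R) (j := (4 : Fin 9)) (k := (8 : Fin 9)) (Ef := esg) (pd := pd) (o := 3 / 40)
    (cornW_of (C := cA012R) (C0 := c0B) (En := eng) (mo := mog) (j := (4 : Fin 9)) (k := (8 : Fin 9)) (lo := 0) (hi := 4) (W := 67108864) (N0 := 3) cA012R_q (sideB hx hx') gokB (pinU hx hx') dokB X (by norm_num) (by norm_num) (l := (0 : Fin 9)) rfl
      (gatB40 x) (gatB81 x) (gatB02 x) (datB40 x) (datB81 x) (datB02 x) ?_)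
    (cornS_of (C := cA012R) (C0 := c0B) (j := (4 : Fin 9)) (k := (8 : Fin 9)) (lo := 0) (hi := 4) (W := 67108864) (N0 := 3) cA012R_q (sideB hx hx') gokB X (by norm_num) (by norm_num) (l := (0 : Fin 9)) rfl
      (gatB40 x) (gatB81 x) (gatB02 x) ?_)
    (thU (pinU hx hx')) rfl hκ (fun j q y => tC_eq j q y x) (esg_rng X.x0.le (by linarith [X.b, X.p0])).1 (mo_v x) le_rfl le_rfl
  · intro ρ a B hρ hd i h1 h2
    fin_cases i
    · exact corW_cert (G1 := gB4q0) (G2 := gB8q1) (Ga := gB0q2) (Gb := gB1q2) (D1 := dB4q0) (D2 := dB8q1) (Da := dB0q2) (Db := dB1q2) cA012R_ok B hρ hen (gatB40 x) (gatB81 x) (fun _ => gatB02 x) (fun _ => gatB12 x) (datB40 x) (datB81 x) (fun _ => datB02 x) (fun _ => datB12 x) hd hx hx' CW.A012R_480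
    · exact corW_cert (G1 := gB4q0) (G2 := gB8q1) (Ga := gB1q2) (Gb := gB2q2) (D1 := dB4q0) (D2 := dB8q1) (Da := dB1q2) (Db := dB2q2) cA012R_ok B hρ hen (gatB40 x) (gatB81 x) (fun _ => gatB12 x) (fun _ => gatB22 x) (datB40 x) (datB81 x) (fun _ => datB12 x) (fun _ => datB22 x) hd hx hx' CW.A012R_481
    · exact corW_cert (G1 := gB4q0) (G2 := gB8q1) (Ga := gB2q2) (Gb := gB3q2) (D1 := dB4q0) (D2 := dB8q1) (Da := dB2q2) (Db := dB3q2) cA012R_ok B hρ hen (gatB40 x) (gatB81 x) (fun _ => gatB22 x) (fun _ => gatB32 x) (datB40 x) (datB81 x) (fun _ => datB22 x) (fun _ => datB32 x) hd hx hx' CW.A012R_482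
    · exact corW_cert (G1 := gB4q0) (G2 := gB8q1) (Ga := gB3q2) (Gb := gB4q2) (D1 := dB4q0) (D2 := dB8q1) (Da := dB3q2) (Db := dB4q2) cA012R_ok B hρ hen (gatB40 x) (gatB81 x) (fun _ => gatB32 x) (fun _ => gatB42 x) (datB40 x) (datB81 x) (fun _ => datB32 x) (fun _ => datB42 x) hd hx hx' CW.A012R_483
    · exact corW_cert (G1 := gB4q0) (G2 := gB8q1) (Ga := gB4q2) (Gb := gB5q2) (D1 := dB4q0) (D2 := dB8q1) (Da := dB4q2) (Db := dB5q2) cA012R_ok B hρ hen (gatB40 x) (gatB81 x) (fun _ => gatB42 x) (fun h => absurd h (by decide)) (datB40 x) (datB81 x) (fun _ => datB42 x) (fun h => absurd h (by decide)) hd hx hx' CW.A012R_484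
    · exact absurd h2 (by norm_num)
    · exact absurd h2 (by norm_num)
    · exact absurd h2 (by norm_num)
  · intro ρ a B hρ hd i h1 h2
    fin_cases i
    · exact corT_cert (G1 := gB4q0) (G2 := gB8q1) (Ga := gB0q2) (Gb := gB1q2) cA012R_ok B hρ (gatB40 x) (gatB81 x) (fun _ => gatB02 x) (fun _ => gatB12 x) hd hx hx' CG.A012R_480
    · exact corT_cert (G1 := gB4q0) (G2 := gB8q1) (Ga := gB1q2) (Gb := gB2q2) cA012R_ok B hρ (gatB40 x) (gatB81 x) (fun _ => gatB12 x) (fun _ => gatB22 x) hd hx hx' CG.A012R_481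
    · exact corT_cert (G1 := gB4q0) (G2 := gB8q1) (Ga := gB2q2) (Gb := gB3q2) cA012R_ok B hρ (gatB40 x) (gatB81 x) (fun _ => gatB22 x) (fun _ => gatB32 x) hd hx hx' CG.A012R_482
    · exact corT_cert (G1 := gB4q0) (G2 := gB8q1) (Ga := gB3q2) (Gb := gB4q2) cA012R_ok B hρ (gatB40 x) (gatB81 x) (fun _ => gatB32 x) (fun _ => gatB42 x) hd hx hx' CG.A012R_483
    · exact corT_cert (G1 := gB4q0) (G2 := gB8q1) (Ga := gB4q2) (Gb := gB5q2) cA012R_ok B hρ (gatB40 x) (gatB81 x) (fun _ => gatB42 x) (fun h => absurd h (by decide)) hd hx hx' CG.A012R_484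
    · exact absurd h2 (by norm_num)
    · exact absurd h2 (by norm_num)
    · exact absurd h2 (by norm_num)

theorem altB_A022E_00 {κ x : ℝ} (hκ : κ * h0 = ken x) (hx : ((649613803 : ℕ) : ℝ) / S ≤ x) (hx' : x ≤ (((649613803 : ℕ) : ℝ) + (48318383 : ℕ)) / S) :
    AltEA 3 κ (eng.v x) (3 / 40) (tnt (h0 * x) (3 / 10)) PP tK tL tC pcB (scP esg pd) [⟨0, 0, 0, 67108864⟩, ⟨1, 1, 0, 67108864⟩, ⟨2, 1, 0, 67108864⟩] 0 2 2 0 0 (sgb true) (sgb false) x := by
  have X : XR 67108864 x := XR.of hx hx' (by norm_num) (by norm_num) (by norm_num) (by norm_num)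
  have hen : 0 < eng.v x := en_pos X.x0.le
  refine CornW.altA (C := cA022E) (j := (0 : Fin 9)) (k := (0 : Fin 9)) (Ef := esg) (pd := pd) (o := 3 / 40)
    (cornW_of (C := cA022E) (C0 := c0B) (En := eng) (mo := mog) (j := (0 : Fin 9)) (k := (0 : Fin 9)) (lo := 0) (hi := 4) (W := 67108864) (N0 := 3) cA022E_q (sideB hx hx') gokB (pinU hx hx') dokB X (by norm_num) (by norm_num) (l := (0 : Fin 9)) rfl
      (gatB00 x) (gatB02 x) (gatB02 x) (datB00 x) (datB02 x) (datB02 x) ?_)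
    (cornS_of (C := cA022E) (C0 := c0B) (j := (0 : Fin 9)) (k := (0 : Fin 9)) (lo := 0) (hi := 4) (W := 67108864) (N0 := 3) cA022E_q (sideB hx hx') gokB X (by norm_num) (by norm_num) (l := (0 : Fin 9)) rfl
      (gatB00 x) (gatB02 x) (gatB02 x) ?_)
    (thU (pinU hx hx')) rfl hκ (fun j q y => tC_eq j q y x) (esg_rng X.x0.le (by linarith [X.b, X.p0])).1 (mo_v x) le_rfl le_rfl
  · intro ρ a B hρ hd i h1 h2
    fin_cases i
    · exact corW_cert (G1 := gB0q0) (G2 := gB0q2) (Ga := gB0q2) (Gb := gB1q2) (D1 := dB0q0) (D2 := dB0q2) (Da := dB0q2) (Db := dB1q2) cA022E_ok B hρ hen (gatB00 x) (gatB02 x) (fun _ => gatB02 x) (fun _ => gatB12 x) (datB00 x) (datB02 x) (fun _ => datB02 x) (fun _ => datB12 x) hd hx hx' CW.A022E_000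
    · exact corW_cert (G1 := gB0q0) (G2 := gB0q2) (Ga := gB1q2) (Gb := gB2q2) (D1 := dB0q0) (D2 := dB0q2) (Da := dB1q2) (Db := dB2q2) cA022E_ok B hρ hen (gatB00 x) (gatB02 x) (fun _ => gatB12 x) (fun _ => gatB22 x) (datB00 x) (datB02 x) (fun _ => datB12 x) (fun _ => datB22 x) hd hx hx' CW.A022E_001
    · exact corW_cert (G1 := gB0q0) (G2 := gB0q2) (Ga := gB2q2) (Gb := gB3q2) (D1 := dB0q0) (D2 := dB0q2) (Da := dB2q2) (Db := dB3q2) cA022E_ok B hρ hen (gatB00 x) (gatB02 x) (fun _ => gatB22 x) (fun _ => gatB32 x) (datB00 x) (datB02 x) (fun _ => datB22 x) (fun _ => datB32 x) hd hx hx' CW.A022E_002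
    · exact corW_cert (G1 := gB0q0) (G2 := gB0q2) (Ga := gB3q2) (Gb := gB4q2) (D1 := dB0q0) (D2 := dB0q2) (Da := dB3q2) (Db := dB4q2) cA022E_ok B hρ hen (gatB00 x) (gatB02 x) (fun _ => gatB32 x) (fun _ => gatB42 x) (datB00 x) (datB02 x) (fun _ => datB32 x) (fun _ => datB42 x) hd hx hx' CW.A022E_003
    · exact corW_cert (G1 := gB0q0) (G2 := gB0q2) (Ga := gB4q2) (Gb := gB5q2) (D1 := dB0q0) (D2 := dB0q2) (Da := dB4q2) (Db := dB5q2) cA022E_ok B hρ hen (gatB00 x) (gatB02 x) (fun _ => gatB42 x) (fun h => absurd h (by decide)) (datB00 x) (datB02 x) (fun _ => datB42 x) (fun h => absurd h (by decide)) hd hx hx' CW.A022E_004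
    · exact absurd h2 (by norm_num)
    · exact absurd h2 (by norm_num)
    · exact absurd h2 (by norm_num)
  · intro ρ a B hρ hd i h1 h2
    fin_cases i
    · exact corT_cert (G1 := gB0q0) (G2 := gB0q2) (Ga := gB0q2) (Gb := gB1q2) cA022E_ok B hρ (gatB00 x) (gatB02 x) (fun _ => gatB02 x) (fun _ => gatB12 x) hd hx hx' CG.A022E_000
    · exact corT_cert (G1 := gB0q0) (G2 := gB0q2) (Ga := gB1q2) (Gb := gB2q2) cA022E_ok B hρ (gatB00 x) (gatB02 x) (fun _ => gatB12 x) (fun _ => gatB22 x) hd hx hx' CG.A022E_001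
    · exact corT_cert (G1 := gB0q0) (G2 := gB0q2) (Ga := gB2q2) (Gb := gB3q2) cA022E_ok B hρ (gatB00 x) (gatB02 x) (fun _ => gatB22 x) (fun _ => gatB32 x) hd hx hx' CG.A022E_002
    · exact corT_cert (G1 := gB0q0) (G2 := gB0q2) (Ga := gB3q2) (Gb := gB4q2) cA022E_ok B hρ (gatB00 x) (gatB02 x) (fun _ => gatB32 x) (fun _ => gatB42 x) hd hx hx' CG.A022E_003
    · exact corT_cert (G1 := gB0q0) (G2 := gB0q2) (Ga := gB4q2) (Gb := gB5q2) cA022E_ok B hρ (gatB00 x) (gatB02 x) (fun _ => gatB42 x) (fun h => absurd h (by decide)) hd hx hx' CG.A022E_004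
    · exact absurd h2 (by norm_num)
    · exact absurd h2 (by norm_num)
    · exact absurd h2 (by norm_num)

theorem altB_A022E_01 {κ x : ℝ} (hκ : κ * h0 = ken x) (hx : ((649613803 : ℕ) : ℝ) / S ≤ x) (hx' : x ≤ (((649613803 : ℕ) : ℝ) + (48318383 : ℕ)) / S) :
    AltEA 3 κ (eng.v x) (3 / 40) (tnt (h0 * x) (3 / 10)) PP tK tL tC pcB (scP esg pd) [⟨0, 0, 0, 67108864⟩, ⟨1, 1, 0, 67108864⟩, ⟨2, 1, 0, 67108864⟩] 0 2 2 0 1 (sgb true) (sgb false) x := by
  have X : XR 67108864 x := XR.of hx hx' (by norm_num) (by norm_num) (by norm_num) (by norm_num)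
  have hen : 0 < eng.v x := en_pos X.x0.le
  refine CornW.altA (C := cA022E) (j := (0 : Fin 9)) (k := (1 : Fin 9)) (Ef := esg) (pd := pd) (o := 3 / 40)
    (cornW_of (C := cA022E) (C0 := c0B) (En := eng) (mo := mog) (j := (0 : Fin 9)) (k := (1 : Fin 9)) (lo := 0) (hi := 4) (W := 67108864) (N0 := 3) cA022E_q (sideB hx hx') gokB (pinU hx hx') dokB X (by norm_num) (by norm_num) (l := (0 : Fin 9)) rfl
      (gatB00 x) (gatB12 x) (gatB02 x) (datB00 x) (datB12 x) (datB02 x) ?_)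
    (cornS_of (C := cA022E) (C0 := c0B) (j := (0 : Fin 9)) (k := (1 : Fin 9)) (lo := 0) (hi := 4) (W := 67108864) (N0 := 3) cA022E_q (sideB hx hx') gokB X (by norm_num) (by norm_num) (l := (0 : Fin 9)) rfl
      (gatB00 x) (gatB12 x) (gatB02 x) ?_)
    (thU (pinU hx hx')) rfl hκ (fun j q y => tC_eq j q y x) (esg_rng X.x0.le (by linarith [X.b, X.p0])).1 (mo_v x) le_rfl le_rfl
  · intro ρ a B hρ hd i h1 h2
    fin_cases i
    · exact corW_cert (G1 := gB0q0) (G2 := gB1q2) (Ga := gB0q2) (Gb := gB1q2) (D1 := dB0q0) (D2 := dB1q2) (Da := dB0q2) (Db := dB1q2) cA022E_ok B hρ hen (gatB00 x) (gatB12 x) (fun _ => gatB02 x) (fun _ => gatB12 x) (datB00 x) (datB12 x) (fun _ => datB02 x) (fun _ => datB12 x) hd hx hx' CW.A022E_010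
    · exact corW_cert (G1 := gB0q0) (G2 := gB1q2) (Ga := gB1q2) (Gb := gB2q2) (D1 := dB0q0) (D2 := dB1q2) (Da := dB1q2) (Db := dB2q2) cA022E_ok B hρ hen (gatB00 x) (gatB12 x) (fun _ => gatB12 x) (fun _ => gatB22 x) (datB00 x) (datB12 x) (fun _ => datB12 x) (fun _ => datB22 x) hd hx hx' CW.A022E_011
    · exact corW_cert (G1 := gB0q0) (G2 := gB1q2) (Ga := gB2q2) (Gb := gB3q2) (D1 := dB0q0) (D2 := dB1q2) (Da := dB2q2) (Db := dB3q2) cA022E_ok B hρ hen (gatB00 x) (gatB12 x) (fun _ => gatB22 x) (fun _ => gatB32 x) (datB00 x) (datB12 x) (fun _ => datB22 x) (fun _ => datB32 x) hd hx hx' CW.A022E_012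
    · exact corW_cert (G1 := gB0q0) (G2 := gB1q2) (Ga := gB3q2) (Gb := gB4q2) (D1 := dB0q0) (D2 := dB1q2) (Da := dB3q2) (Db := dB4q2) cA022E_ok B hρ hen (gatB00 x) (gatB12 x) (fun _ => gatB32 x) (fun _ => gatB42 x) (datB00 x) (datB12 x) (fun _ => datB32 x) (fun _ => datB42 x) hd hx hx' CW.A022E_013
    · exact corW_cert (G1 := gB0q0) (G2 := gB1q2) (Ga := gB4q2) (Gb := gB5q2) (D1 := dB0q0) (D2 := dB1q2) (Da := dB4q2) (Db := dB5q2) cA022E_ok B hρ hen (gatB00 x) (gatB12 x) (fun _ => gatB42 x) (fun h => absurd h (by decide)) (datB00 x) (datB12 x) (fun _ => datB42 x) (fun h => absurd h (by decide)) hd hx hx' CW.A022E_014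
    · exact absurd h2 (by norm_num)
    · exact absurd h2 (by norm_num)
    · exact absurd h2 (by norm_num)
  · intro ρ a B hρ hd i h1 h2
    fin_cases i
    · exact corT_cert (G1 := gB0q0) (G2 := gB1q2) (Ga := gB0q2) (Gb := gB1q2) cA022E_ok B hρ (gatB00 x) (gatB12 x) (fun _ => gatB02 x) (fun _ => gatB12 x) hd hx hx' CG.A022E_010
    · exact corT_cert (G1 := gB0q0) (G2 := gB1q2) (Ga := gB1q2) (Gb := gB2q2) cA022E_ok B hρ (gatB00 x) (gatB12 x) (fun _ => gatB12 x) (fun _ => gatB22 x) hd hx hx' CG.A022E_011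
    · exact corT_cert (G1 := gB0q0) (G2 := gB1q2) (Ga := gB2q2) (Gb := gB3q2) cA022E_ok B hρ (gatB00 x) (gatB12 x) (fun _ => gatB22 x) (fun _ => gatB32 x) hd hx hx' CG.A022E_012
    · exact corT_cert (G1 := gB0q0) (G2 := gB1q2) (Ga := gB3q2) (Gb := gB4q2) cA022E_ok B hρ (gatB00 x) (gatB12 x) (fun _ => gatB32 x) (fun _ => gatB42 x) hd hx hx' CG.A022E_013
    · exact corT_cert (G1 := gB0q0) (G2 := gB1q2) (Ga := gB4q2) (Gb := gB5q2) cA022E_ok B hρ (gatB00 x) (gatB12 x) (fun _ => gatB42 x) (fun h => absurd h (by decide)) hd hx hx' CG.A022E_014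
    · exact absurd h2 (by norm_num)
    · exact absurd h2 (by norm_num)
    · exact absurd h2 (by norm_num)

theorem altB_A022E_02 {κ x : ℝ} (hκ : κ * h0 = ken x) (hx : ((649613803 : ℕ) : ℝ) / S ≤ x) (hx' : x ≤ (((649613803 : ℕ) : ℝ) + (48318383 : ℕ)) / S) :
    AltEA 3 κ (eng.v x) (3 / 40) (tnt (h0 * x) (3 / 10)) PP tK tL tC pcB (scP esg pd) [⟨0, 0, 0, 67108864⟩, ⟨1, 1, 0, 67108864⟩, ⟨2, 1, 0, 67108864⟩] 0 2 2 0 2 (sgb true) (sgb false) x := by
  have X : XR 67108864 x := XR.of hx hx' (by norm_num) (by norm_num) (by norm_num) (by norm_num)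
  have hen : 0 < eng.v x := en_pos X.x0.le
  refine CornW.altA (C := cA022E) (j := (0 : Fin 9)) (k := (2 : Fin 9)) (Ef := esg) (pd := pd) (o := 3 / 40)
    (cornW_of (C := cA022E) (C0 := c0B) (En := eng) (mo := mog) (j := (0 : Fin 9)) (k := (2 : Fin 9)) (lo := 0) (hi := 4) (W := 67108864) (N0 := 3) cA022E_q (sideB hx hx') gokB (pinU hx hx') dokB X (by norm_num) (by norm_num) (l := (0 : Fin 9)) rfl
      (gatB00 x) (gatB22 x) (gatB02 x) (datB00 x) (datB22 x) (datB02 x) ?_)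
    (cornS_of (C := cA022E) (C0 := c0B) (j := (0 : Fin 9)) (k := (2 : Fin 9)) (lo := 0) (hi := 4) (W := 67108864) (N0 := 3) cA022E_q (sideB hx hx') gokB X (by norm_num) (by norm_num) (l := (0 : Fin 9)) rfl
      (gatB00 x) (gatB22 x) (gatB02 x) ?_)
    (thU (pinU hx hx')) rfl hκ (fun j q y => tC_eq j q y x) (esg_rng X.x0.le (by linarith [X.b, X.p0])).1 (mo_v x) le_rfl le_rfl
  · intro ρ a B hρ hd i h1 h2
    fin_cases i
    · exact corW_cert (G1 := gB0q0) (G2 := gB2q2) (Ga := gB0q2) (Gb := gB1q2) (D1 := dB0q0) (D2 := dB2q2) (Da := dB0q2) (Db := dB1q2) cA022E_ok B hρ hen (gatB00 x) (gatB22 x) (fun _ => gatB02 x) (fun _ => gatB12 x) (datB00 x) (datB22 x) (fun _ => datB02 x) (fun _ => datB12 x) hd hx hx' CW.A022E_020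
    · exact corW_cert (G1 := gB0q0) (G2 := gB2q2) (Ga := gB1q2) (Gb := gB2q2) (D1 := dB0q0) (D2 := dB2q2) (Da := dB1q2) (Db := dB2q2) cA022E_ok B hρ hen (gatB00 x) (gatB22 x) (fun _ => gatB12 x) (fun _ => gatB22 x) (datB00 x) (datB22 x) (fun _ => datB12 x) (fun _ => datB22 x) hd hx hx' CW.A022E_021
    · exact corW_cert (G1 := gB0q0) (G2 := gB2q2) (Ga := gB2q2) (Gb := gB3q2) (D1 := dB0q0) (D2 := dB2q2) (Da := dB2q2) (Db := dB3q2) cA022E_ok B hρ hen (gatB00 x) (gatB22 x) (fun _ => gatB22 x) (fun _ => gatB32 x) (datB00 x) (datB22 x) (fun _ => datB22 x) (fun _ => datB32 x) hd hx hx' CW.A022E_022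
    · exact corW_cert (G1 := gB0q0) (G2 := gB2q2) (Ga := gB3q2) (Gb := gB4q2) (D1 := dB0q0) (D2 := dB2q2) (Da := dB3q2) (Db := dB4q2) cA022E_ok B hρ hen (gatB00 x) (gatB22 x) (fun _ => gatB32 x) (fun _ => gatB42 x) (datB00 x) (datB22 x) (fun _ => datB32 x) (fun _ => datB42 x) hd hx hx' CW.A022E_023
    · exact corW_cert (G1 := gB0q0) (G2 := gB2q2) (Ga := gB4q2) (Gb := gB5q2) (D1 := dB0q0) (D2 := dB2q2) (Da := dB4q2) (Db := dB5q2) cA022E_ok B hρ hen (gatB00 x) (gatB22 x) (fun _ => gatB42 x) (fun h => absurd h (by decide)) (datB00 x) (datB22 x) (fun _ => datB42 x) (fun h => absurd h (by decide)) hd hx hx' CW.A022E_024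
    · exact absurd h2 (by norm_num)
    · exact absurd h2 (by norm_num)
    · exact absurd h2 (by norm_num)
  · intro ρ a B hρ hd i h1 h2
    fin_cases i
    · exact corT_cert (G1 := gB0q0) (G2 := gB2q2) (Ga := gB0q2) (Gb := gB1q2) cA022E_ok B hρ (gatB00 x) (gatB22 x) (fun _ => gatB02 x) (fun _ => gatB12 x) hd hx hx' CG.A022E_020
    · exact corT_cert (G1 := gB0q0) (G2 := gB2q2) (Ga := gB1q2) (Gb := gB2q2) cA022E_ok B hρ (gatB00 x) (gatB22 x) (fun _ => gatB12 x) (fun _ => gatB22 x) hd hx hx' CG.A022E_021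
    · exact corT_cert (G1 := gB0q0) (G2 := gB2q2) (Ga := gB2q2) (Gb := gB3q2) cA022E_ok B hρ (gatB00 x) (gatB22 x) (fun _ => gatB22 x) (fun _ => gatB32 x) hd hx hx' CG.A022E_022
    · exact corT_cert (G1 := gB0q0) (G2 := gB2q2) (Ga := gB3q2) (Gb := gB4q2) cA022E_ok B hρ (gatB00 x) (gatB22 x) (fun _ => gatB32 x) (fun _ => gatB42 x) hd hx hx' CG.A022E_023
    · exact corT_cert (G1 := gB0q0) (G2 := gB2q2) (Ga := gB4q2) (Gb := gB5q2) cA022E_ok B hρ (gatB00 x) (gatB22 x) (fun _ => gatB42 x) (fun h => absurd h (by decide)) hd hx hx' CG.A022E_024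
    · exact absurd h2 (by norm_num)
    · exact absurd h2 (by norm_num)
    · exact absurd h2 (by norm_num)

theorem altB_A022E_03 {κ x : ℝ} (hκ : κ * h0 = ken x) (hx : ((649613803 : ℕ) : ℝ) / S ≤ x) (hx' : x ≤ (((649613803 : ℕ) : ℝ) + (48318383 : ℕ)) / S) :
    AltEA 3 κ (eng.v x) (3 / 40) (tnt (h0 * x) (3 / 10)) PP tK tL tC pcB (scP esg pd) [⟨0, 0, 0, 67108864⟩, ⟨1, 1, 0, 67108864⟩, ⟨2, 1, 0, 67108864⟩] 0 2 2 0 3 (sgb true) (sgb false) x := by
  have X : XR 67108864 x := XR.of hx hx' (by norm_num) (by norm_num) (by norm_num) (by norm_num)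
  have hen : 0 < eng.v x := en_pos X.x0.le
  refine CornW.altA (C := cA022E) (j := (0 : Fin 9)) (k := (3 : Fin 9)) (Ef := esg) (pd := pd) (o := 3 / 40)
    (cornW_of (C := cA022E) (C0 := c0B) (En := eng) (mo := mog) (j := (0 : Fin 9)) (k := (3 : Fin 9)) (lo := 0) (hi := 4) (W := 67108864) (N0 := 3) cA022E_q (sideB hx hx') gokB (pinU hx hx') dokB X (by norm_num) (by norm_num) (l := (0 : Fin 9)) rfl
      (gatB00 x) (gatB32 x) (gatB02 x) (datB00 x) (datB32 x) (datB02 x) ?_)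
    (cornS_of (C := cA022E) (C0 := c0B) (j := (0 : Fin 9)) (k := (3 : Fin 9)) (lo := 0) (hi := 4) (W := 67108864) (N0 := 3) cA022E_q (sideB hx hx') gokB X (by norm_num) (by norm_num) (l := (0 : Fin 9)) rfl
      (gatB00 x) (gatB32 x) (gatB02 x) ?_)
    (thU (pinU hx hx')) rfl hκ (fun j q y => tC_eq j q y x) (esg_rng X.x0.le (by linarith [X.b, X.p0])).1 (mo_v x) le_rfl le_rfl
  · intro ρ a B hρ hd i h1 h2
    fin_cases i
    · exact corW_cert (G1 := gB0q0) (G2 := gB3q2) (Ga := gB0q2) (Gb := gB1q2) (D1 := dB0q0) (D2 := dB3q2) (Da := dB0q2) (Db := dB1q2) cA022E_ok B hρ hen (gatB00 x) (gatB32 x) (fun _ => gatB02 x) (fun _ => gatB12 x) (datB00 x) (datB32 x) (fun _ => datB02 x) (fun _ => datB12 x) hd hx hx' CW.A022E_030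
    · exact corW_cert (G1 := gB0q0) (G2 := gB3q2) (Ga := gB1q2) (Gb := gB2q2) (D1 := dB0q0) (D2 := dB3q2) (Da := dB1q2) (Db := dB2q2) cA022E_ok B hρ hen (gatB00 x) (gatB32 x) (fun _ => gatB12 x) (fun _ => gatB22 x) (datB00 x) (datB32 x) (fun _ => datB12 x) (fun _ => datB22 x) hd hx hx' CW.A022E_031
    · exact corW_cert (G1 := gB0q0) (G2 := gB3q2) (Ga := gB2q2) (Gb := gB3q2) (D1 := dB0q0) (D2 := dB3q2) (Da := dB2q2) (Db := dB3q2) cA022E_ok B hρ hen (gatB00 x) (gatB32 x) (fun _ => gatB22 x) (fun _ => gatB32 x) (datB00 x) (datB32 x) (fun _ => datB22 x) (fun _ => datB32 x) hd hx hx' CW.A022E_032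
    · exact corW_cert (G1 := gB0q0) (G2 := gB3q2) (Ga := gB3q2) (Gb := gB4q2) (D1 := dB0q0) (D2 := dB3q2) (Da := dB3q2) (Db := dB4q2) cA022E_ok B hρ hen (gatB00 x) (gatB32 x) (fun _ => gatB32 x) (fun _ => gatB42 x) (datB00 x) (datB32 x) (fun _ => datB32 x) (fun _ => datB42 x) hd hx hx' CW.A022E_033
    · exact corW_cert (G1 := gB0q0) (G2 := gB3q2) (Ga := gB4q2) (Gb := gB5q2) (D1 := dB0q0) (D2 := dB3q2) (Da := dB4q2) (Db := dB5q2) cA022E_ok B hρ hen (gatB00 x) (gatB32 x) (fun _ => gatB42 x) (fun h => absurd h (by decide)) (datB00 x) (datB32 x) (fun _ => datB42 x) (fun h => absurd h (by decide)) hd hx hx' CW.A022E_034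
    · exact absurd h2 (by norm_num)
    · exact absurd h2 (by norm_num)
    · exact absurd h2 (by norm_num)
  · intro ρ a B hρ hd i h1 h2
    fin_cases i
    · exact corT_cert (G1 := gB0q0) (G2 := gB3q2) (Ga := gB0q2) (Gb := gB1q2) cA022E_ok B hρ (gatB00 x) (gatB32 x) (fun _ => gatB02 x) (fun _ => gatB12 x) hd hx hx' CG.A022E_030
    · exact corT_cert (G1 := gB0q0) (G2 := gB3q2) (Ga := gB1q2) (Gb := gB2q2) cA022E_ok B hρ (gatB00 x) (gatB32 x) (fun _ => gatB12 x) (fun _ => gatB22 x) hd hx hx' CG.A022E_031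
    · exact corT_cert (G1 := gB0q0) (G2 := gB3q2) (Ga := gB2q2) (Gb := gB3q2) cA022E_ok B hρ (gatB00 x) (gatB32 x) (fun _ => gatB22 x) (fun _ => gatB32 x) hd hx hx' CG.A022E_032
    · exact corT_cert (G1 := gB0q0) (G2 := gB3q2) (Ga := gB3q2) (Gb := gB4q2) cA022E_ok B hρ (gatB00 x) (gatB32 x) (fun _ => gatB32 x) (fun _ => gatB42 x) hd hx hx' CG.A022E_033
    · exact corT_cert (G1 := gB0q0) (G2 := gB3q2) (Ga := gB4q2) (Gb := gB5q2) cA022E_ok B hρ (gatB00 x) (gatB32 x) (fun _ => gatB42 x) (fun h => absurd h (by decide)) hd hx hx' CG.A022E_034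
    · exact absurd h2 (by norm_num)
    · exact absurd h2 (by norm_num)
    · exact absurd h2 (by norm_num)

theorem altB_A022E_04 {κ x : ℝ} (hκ : κ * h0 = ken x) (hx : ((649613803 : ℕ) : ℝ) / S ≤ x) (hx' : x ≤ (((649613803 : ℕ) : ℝ) + (48318383 : ℕ)) / S) :
    AltEA 3 κ (eng.v x) (3 / 40) (tnt (h0 * x) (3 / 10)) PP tK tL tC pcB (scP esg pd) [⟨0, 0, 0, 67108864⟩, ⟨1, 1, 0, 67108864⟩, ⟨2, 1, 0, 67108864⟩] 0 2 2 0 4 (sgb true) (sgb false) x := by
  have X : XR 67108864 x := XR.of hx hx' (by norm_num) (by norm_num) (by norm_num) (by norm_num)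
  have hen : 0 < eng.v x := en_pos X.x0.le
  refine CornW.altA (C := cA022E) (j := (0 : Fin 9)) (k := (4 : Fin 9)) (Ef := esg) (pd := pd) (o := 3 / 40)
    (cornW_of (C := cA022E) (C0 := c0B) (En := eng) (mo := mog) (j := (0 : Fin 9)) (k := (4 : Fin 9)) (lo := 0) (hi := 4) (W := 67108864) (N0 := 3) cA022E_q (sideB hx hx') gokB (pinU hx hx') dokB X (by norm_num) (by norm_num) (l := (0 : Fin 9)) rfl
      (gatB00 x) (gatB42 x) (gatB02 x) (datB00 x) (datB42 x) (datB02 x) ?_)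
    (cornS_of (C := cA022E) (C0 := c0B) (j := (0 : Fin 9)) (k := (4 : Fin 9)) (lo := 0) (hi := 4) (W := 67108864) (N0 := 3) cA022E_q (sideB hx hx') gokB X (by norm_num) (by norm_num) (l := (0 : Fin 9)) rfl
      (gatB00 x) (gatB42 x) (gatB02 x) ?_)
    (thU (pinU hx hx')) rfl hκ (fun j q y => tC_eq j q y x) (esg_rng X.x0.le (by linarith [X.b, X.p0])).1 (mo_v x) le_rfl le_rfl
  · intro ρ a B hρ hd i h1 h2
    fin_cases i
    · exact corW_cert (G1 := gB0q0) (G2 := gB4q2) (Ga := gB0q2) (Gb := gB1q2) (D1 := dB0q0) (D2 := dB4q2) (Da := dB0q2) (Db := dB1q2) cA022E_ok B hρ hen (gatB00 x) (gatB42 x) (fun _ => gatB02 x) (fun _ => gatB12 x) (datB00 x) (datB42 x) (fun _ => datB02 x) (fun _ => datB12 x) hd hx hx' CW.A022E_040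
    · exact corW_cert (G1 := gB0q0) (G2 := gB4q2) (Ga := gB1q2) (Gb := gB2q2) (D1 := dB0q0) (D2 := dB4q2) (Da := dB1q2) (Db := dB2q2) cA022E_ok B hρ hen (gatB00 x) (gatB42 x) (fun _ => gatB12 x) (fun _ => gatB22 x) (datB00 x) (datB42 x) (fun _ => datB12 x) (fun _ => datB22 x) hd hx hx' CW.A022E_041
    · exact corW_cert (G1 := gB0q0) (G2 := gB4q2) (Ga := gB2q2) (Gb := gB3q2) (D1 := dB0q0) (D2 := dB4q2) (Da := dB2q2) (Db := dB3q2) cA022E_ok B hρ hen (gatB00 x) (gatB42 x) (fun _ => gatB22 x) (fun _ => gatB32 x) (datB00 x) (datB42 x) (fun _ => datB22 x) (fun _ => datB32 x) hd hx hx' CW.A022E_042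
    · exact corW_cert (G1 := gB0q0) (G2 := gB4q2) (Ga := gB3q2) (Gb := gB4q2) (D1 := dB0q0) (D2 := dB4q2) (Da := dB3q2) (Db := dB4q2) cA022E_ok B hρ hen (gatB00 x) (gatB42 x) (fun _ => gatB32 x) (fun _ => gatB42 x) (datB00 x) (datB42 x) (fun _ => datB32 x) (fun _ => datB42 x) hd hx hx' CW.A022E_043
    · exact corW_cert (G1 := gB0q0) (G2 := gB4q2) (Ga := gB4q2) (Gb := gB5q2) (D1 := dB0q0) (D2 := dB4q2) (Da := dB4q2) (Db := dB5q2) cA022E_ok B hρ hen (gatB00 x) (gatB42 x) (fun _ => gatB42 x) (fun h => absurd h (by decide)) (datB00 x) (datB42 x) (fun _ => datB42 x) (fun h => absurd h (by decide)) hd hx hx' CW.A022E_044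
    · exact absurd h2 (by norm_num)
    · exact absurd h2 (by norm_num)
    · exact absurd h2 (by norm_num)
  · intro ρ a B hρ hd i h1 h2
    fin_cases i
    · exact corT_cert (G1 := gB0q0) (G2 := gB4q2) (Ga := gB0q2) (Gb := gB1q2) cA022E_ok B hρ (gatB00 x) (gatB42 x) (fun _ => gatB02 x) (fun _ => gatB12 x) hd hx hx' CG.A022E_040
    · exact corT_cert (G1 := gB0q0) (G2 := gB4q2) (Ga := gB1q2) (Gb := gB2q2) cA022E_ok B hρ (gatB00 x) (gatB42 x) (fun _ => gatB12 x) (fun _ => gatB22 x) hd hx hx' CG.A022E_041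
    · exact corT_cert (G1 := gB0q0) (G2 := gB4q2) (Ga := gB2q2) (Gb := gB3q2) cA022E_ok B hρ (gatB00 x) (gatB42 x) (fun _ => gatB22 x) (fun _ => gatB32 x) hd hx hx' CG.A022E_042
    · exact corT_cert (G1 := gB0q0) (G2 := gB4q2) (Ga := gB3q2) (Gb := gB4q2) cA022E_ok B hρ (gatB00 x) (gatB42 x) (fun _ => gatB32 x) (fun _ => gatB42 x) hd hx hx' CG.A022E_043
    · exact corT_cert (G1 := gB0q0) (G2 := gB4q2) (Ga := gB4q2) (Gb := gB5q2) cA022E_ok B hρ (gatB00 x) (gatB42 x) (fun _ => gatB42 x) (fun h => absurd h (by decide)) hd hx hx' CG.A022E_044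
    · exact absurd h2 (by norm_num)
    · exact absurd h2 (by norm_num)
    · exact absurd h2 (by norm_num)

theorem altB_A022E_11 {κ x : ℝ} (hκ : κ * h0 = ken x) (hx : ((649613803 : ℕ) : ℝ) / S ≤ x) (hx' : x ≤ (((649613803 : ℕ) : ℝ) + (48318383 : ℕ)) / S) :
    AltEA 3 κ (eng.v x) (3 / 40) (tnt (h0 * x) (3 / 10)) PP tK tL tC pcB (scP esg pd) [⟨0, 0, 0, 67108864⟩, ⟨1, 1, 0, 67108864⟩, ⟨2, 1, 0, 67108864⟩] 0 2 2 1 1 (sgb true) (sgb false) x := by
  have X : XR 67108864 x := XR.of hx hx' (by norm_num) (by norm_num) (by norm_num) (by norm_num)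
  have hen : 0 < eng.v x := en_pos X.x0.le
  refine CornW.altA (C := cA022E) (j := (1 : Fin 9)) (k := (1 : Fin 9)) (Ef := esg) (pd := pd) (o := 3 / 40)
    (cornW_of (C := cA022E) (C0 := c0B) (En := eng) (mo := mog) (j := (1 : Fin 9)) (k := (1 : Fin 9)) (lo := 0) (hi := 4) (W := 67108864) (N0 := 3) cA022E_q (sideB hx hx') gokB (pinU hx hx') dokB X (by norm_num) (by norm_num) (l := (0 : Fin 9)) rfl
      (gatB10 x) (gatB12 x) (gatB02 x) (datB10 x) (datB12 x) (datB02 x) ?_)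
    (cornS_of (C := cA022E) (C0 := c0B) (j := (1 : Fin 9)) (k := (1 : Fin 9)) (lo := 0) (hi := 4) (W := 67108864) (N0 := 3) cA022E_q (sideB hx hx') gokB X (by norm_num) (by norm_num) (l := (0 : Fin 9)) rfl
      (gatB10 x) (gatB12 x) (gatB02 x) ?_)
    (thU (pinU hx hx')) rfl hκ (fun j q y => tC_eq j q y x) (esg_rng X.x0.le (by linarith [X.b, X.p0])).1 (mo_v x) le_rfl le_rfl
  · intro ρ a B hρ hd i h1 h2
    fin_cases i
    · exact corW_cert (G1 := gB1q0) (G2 := gB1q2) (Ga := gB0q2) (Gb := gB1q2) (D1 := dB1q0) (D2 := dB1q2) (Da := dB0q2) (Db := dB1q2) cA022E_ok B hρ hen (gatB10 x) (gatB12 x) (fun _ => gatB02 x) (fun _ => gatB12 x) (datB10 x) (datB12 x) (fun _ => datB02 x) (fun _ => datB12 x) hd hx hx' CW.A022E_110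
    · exact corW_cert (G1 := gB1q0) (G2 := gB1q2) (Ga := gB1q2) (Gb := gB2q2) (D1 := dB1q0) (D2 := dB1q2) (Da := dB1q2) (Db := dB2q2) cA022E_ok B hρ hen (gatB10 x) (gatB12 x) (fun _ => gatB12 x) (fun _ => gatB22 x) (datB10 x) (datB12 x) (fun _ => datB12 x) (fun _ => datB22 x) hd hx hx' CW.A022E_111
    · exact corW_cert (G1 := gB1q0) (G2 := gB1q2) (Ga := gB2q2) (Gb := gB3q2) (D1 := dB1q0) (D2 := dB1q2) (Da := dB2q2) (Db := dB3q2) cA022E_ok B hρ hen (gatB10 x) (gatB12 x) (fun _ => gatB22 x) (fun _ => gatB32 x) (datB10 x) (datB12 x) (fun _ => datB22 x) (fun _ => datB32 x) hd hx hx' CW.A022E_112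
    · exact corW_cert (G1 := gB1q0) (G2 := gB1q2) (Ga := gB3q2) (Gb := gB4q2) (D1 := dB1q0) (D2 := dB1q2) (Da := dB3q2) (Db := dB4q2) cA022E_ok B hρ hen (gatB10 x) (gatB12 x) (fun _ => gatB32 x) (fun _ => gatB42 x) (datB10 x) (datB12 x) (fun _ => datB32 x) (fun _ => datB42 x) hd hx hx' CW.A022E_113
    · exact corW_cert (G1 := gB1q0) (G2 := gB1q2) (Ga := gB4q2) (Gb := gB5q2) (D1 := dB1q0) (D2 := dB1q2) (Da := dB4q2) (Db := dB5q2) cA022E_ok B hρ hen (gatB10 x) (gatB12 x) (fun _ => gatB42 x) (fun h => absurd h (by decide)) (datB10 x) (datB12 x) (fun _ => datB42 x) (fun h => absurd h (by decide)) hd hx hx' CW.A022E_114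
    · exact absurd h2 (by norm_num)
    · exact absurd h2 (by norm_num)
    · exact absurd h2 (by norm_num)
  · intro ρ a B hρ hd i h1 h2
    fin_cases i
    · exact corT_cert (G1 := gB1q0) (G2 := gB1q2) (Ga := gB0q2) (Gb := gB1q2) cA022E_ok B hρ (gatB10 x) (gatB12 x) (fun _ => gatB02 x) (fun _ => gatB12 x) hd hx hx' CG.A022E_110
    · exact corT_cert (G1 := gB1q0) (G2 := gB1q2) (Ga := gB1q2) (Gb := gB2q2) cA022E_ok B hρ (gatB10 x) (gatB12 x) (fun _ => gatB12 x) (fun _ => gatB22 x) hd hx hx' CG.A022E_111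
    · exact corT_cert (G1 := gB1q0) (G2 := gB1q2) (Ga := gB2q2) (Gb := gB3q2) cA022E_ok B hρ (gatB10 x) (gatB12 x) (fun _ => gatB22 x) (fun _ => gatB32 x) hd hx hx' CG.A022E_112
    · exact corT_cert (G1 := gB1q0) (G2 := gB1q2) (Ga := gB3q2) (Gb := gB4q2) cA022E_ok B hρ (gatB10 x) (gatB12 x) (fun _ => gatB32 x) (fun _ => gatB42 x) hd hx hx' CG.A022E_113
    · exact corT_cert (G1 := gB1q0) (G2 := gB1q2) (Ga := gB4q2) (Gb := gB5q2) cA022E_ok B hρ (gatB10 x) (gatB12 x) (fun _ => gatB42 x) (fun h => absurd h (by decide)) hd hx hx' CG.A022E_114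
    · exact absurd h2 (by norm_num)
    · exact absurd h2 (by norm_num)
    · exact absurd h2 (by norm_num)

theorem altB_A022E_12 {κ x : ℝ} (hκ : κ * h0 = ken x) (hx : ((649613803 : ℕ) : ℝ) / S ≤ x) (hx' : x ≤ (((649613803 : ℕ) : ℝ) + (48318383 : ℕ)) / S) :
    AltEA 3 κ (eng.v x) (3 / 40) (tnt (h0 * x) (3 / 10)) PP tK tL tC pcB (scP esg pd) [⟨0, 0, 0, 67108864⟩, ⟨1, 1, 0, 67108864⟩, ⟨2, 1, 0, 67108864⟩] 0 2 2 1 2 (sgb true) (sgb false) x := by
  have X : XR 67108864 x := XR.of hx hx' (by norm_num) (by norm_num) (by norm_num) (by norm_num)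
  have hen : 0 < eng.v x := en_pos X.x0.le
  refine CornW.altA (C := cA022E) (j := (1 : Fin 9)) (k := (2 : Fin 9)) (Ef := esg) (pd := pd) (o := 3 / 40)
    (cornW_of (C := cA022E) (C0 := c0B) (En := eng) (mo := mog) (j := (1 : Fin 9)) (k := (2 : Fin 9)) (lo := 0) (hi := 4) (W := 67108864) (N0 := 3) cA022E_q (sideB hx hx') gokB (pinU hx hx') dokB X (by norm_num) (by norm_num) (l := (0 : Fin 9)) rfl
      (gatB10 x) (gatB22 x) (gatB02 x) (datB10 x) (datB22 x) (datB02 x) ?_)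
    (cornS_of (C := cA022E) (C0 := c0B) (j := (1 : Fin 9)) (k := (2 : Fin 9)) (lo := 0) (hi := 4) (W := 67108864) (N0 := 3) cA022E_q (sideB hx hx') gokB X (by norm_num) (by norm_num) (l := (0 : Fin 9)) rfl
      (gatB10 x) (gatB22 x) (gatB02 x) ?_)
    (thU (pinU hx hx')) rfl hκ (fun j q y => tC_eq j q y x) (esg_rng X.x0.le (by linarith [X.b, X.p0])).1 (mo_v x) le_rfl le_rfl
  · intro ρ a B hρ hd i h1 h2
    fin_cases i
    · exact corW_cert (G1 := gB1q0) (G2 := gB2q2) (Ga := gB0q2) (Gb := gB1q2) (D1 := dB1q0) (D2 := dB2q2) (Da := dB0q2) (Db := dB1q2) cA022E_ok B hρ hen (gatB10 x) (gatB22 x) (fun _ => gatB02 x) (fun _ => gatB12 x) (datB10 x) (datB22 x) (fun _ => datB02 x) (fun _ => datB12 x) hd hx hx' CW.A022E_120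
    · exact corW_cert (G1 := gB1q0) (G2 := gB2q2) (Ga := gB1q2) (Gb := gB2q2) (D1 := dB1q0) (D2 := dB2q2) (Da := dB1q2) (Db := dB2q2) cA022E_ok B hρ hen (gatB10 x) (gatB22 x) (fun _ => gatB12 x) (fun _ => gatB22 x) (datB10 x) (datB22 x) (fun _ => datB12 x) (fun _ => datB22 x) hd hx hx' CW.A022E_121
    · exact corW_cert (G1 := gB1q0) (G2 := gB2q2) (Ga := gB2q2) (Gb := gB3q2) (D1 := dB1q0) (D2 := dB2q2) (Da := dB2q2) (Db := dB3q2) cA022E_ok B hρ hen (gatB10 x) (gatB22 x) (fun _ => gatB22 x) (fun _ => gatB32 x) (datB10 x) (datB22 x) (fun _ => datB22 x) (fun _ => datB32 x) hd hx hx' CW.A022E_122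
    · exact corW_cert (G1 := gB1q0) (G2 := gB2q2) (Ga := gB3q2) (Gb := gB4q2) (D1 := dB1q0) (D2 := dB2q2) (Da := dB3q2) (Db := dB4q2) cA022E_ok B hρ hen (gatB10 x) (gatB22 x) (fun _ => gatB32 x) (fun _ => gatB42 x) (datB10 x) (datB22 x) (fun _ => datB32 x) (fun _ => datB42 x) hd hx hx' CW.A022E_123
    · exact corW_cert (G1 := gB1q0) (G2 := gB2q2) (Ga := gB4q2) (Gb := gB5q2) (D1 := dB1q0) (D2 := dB2q2) (Da := dB4q2) (Db := dB5q2) cA022E_ok B hρ hen (gatB10 x) (gatB22 x) (fun _ => gatB42 x) (fun h => absurd h (by decide)) (datB10 x) (datB22 x) (fun _ => datB42 x) (fun h => absurd h (by decide)) hd hx hx' CW.A022E_124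
    · exact absurd h2 (by norm_num)
    · exact absurd h2 (by norm_num)
    · exact absurd h2 (by norm_num)
  · intro ρ a B hρ hd i h1 h2
    fin_cases i
    · exact corT_cert (G1 := gB1q0) (G2 := gB2q2) (Ga := gB0q2) (Gb := gB1q2) cA022E_ok B hρ (gatB10 x) (gatB22 x) (fun _ => gatB02 x) (fun _ => gatB12 x) hd hx hx' CG.A022E_120
    · exact corT_cert (G1 := gB1q0) (G2 := gB2q2) (Ga := gB1q2) (Gb := gB2q2) cA022E_ok B hρ (gatB10 x) (gatB22 x) (fun _ => gatB12 x) (fun _ => gatB22 x) hd hx hx' CG.A022E_121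
    · exact corT_cert (G1 := gB1q0) (G2 := gB2q2) (Ga := gB2q2) (Gb := gB3q2) cA022E_ok B hρ (gatB10 x) (gatB22 x) (fun _ => gatB22 x) (fun _ => gatB32 x) hd hx hx' CG.A022E_122
    · exact corT_cert (G1 := gB1q0) (G2 := gB2q2) (Ga := gB3q2) (Gb := gB4q2) cA022E_ok B hρ (gatB10 x) (gatB22 x) (fun _ => gatB32 x) (fun _ => gatB42 x) hd hx hx' CG.A022E_123
    · exact corT_cert (G1 := gB1q0) (G2 := gB2q2) (Ga := gB4q2) (Gb := gB5q2) cA022E_ok B hρ (gatB10 x) (gatB22 x) (fun _ => gatB42 x) (fun h => absurd h (by decide)) hd hx hx' CG.A022E_124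
    · exact absurd h2 (by norm_num)
    · exact absurd h2 (by norm_num)
    · exact absurd h2 (by norm_num)

theorem altB_A022E_13 {κ x : ℝ} (hκ : κ * h0 = ken x) (hx : ((649613803 : ℕ) : ℝ) / S ≤ x) (hx' : x ≤ (((649613803 : ℕ) : ℝ) + (48318383 : ℕ)) / S) :
    AltEA 3 κ (eng.v x) (3 / 40) (tnt (h0 * x) (3 / 10)) PP tK tL tC pcB (scP esg pd) [⟨0, 0, 0, 67108864⟩, ⟨1, 1, 0, 67108864⟩, ⟨2, 1, 0, 67108864⟩] 0 2 2 1 3 (sgb true) (sgb false) x := by
  have X : XR 67108864 x := XR.of hx hx' (by norm_num) (by norm_num) (by norm_num) (by norm_num)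
  have hen : 0 < eng.v x := en_pos X.x0.le
  refine CornW.altA (C := cA022E) (j := (1 : Fin 9)) (k := (3 : Fin 9)) (Ef := esg) (pd := pd) (o := 3 / 40)
    (cornW_of (C := cA022E) (C0 := c0B) (En := eng) (mo := mog) (j := (1 : Fin 9)) (k := (3 : Fin 9)) (lo := 0) (hi := 4) (W := 67108864) (N0 := 3) cA022E_q (sideB hx hx') gokB (pinU hx hx') dokB X (by norm_num) (by norm_num) (l := (0 : Fin 9)) rfl
      (gatB10 x) (gatB32 x) (gatB02 x) (datB10 x) (datB32 x) (datB02 x) ?_)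
    (cornS_of (C := cA022E) (C0 := c0B) (j := (1 : Fin 9)) (k := (3 : Fin 9)) (lo := 0) (hi := 4) (W := 67108864) (N0 := 3) cA022E_q (sideB hx hx') gokB X (by norm_num) (by norm_num) (l := (0 : Fin 9)) rfl
      (gatB10 x) (gatB32 x) (gatB02 x) ?_)
    (thU (pinU hx hx')) rfl hκ (fun j q y => tC_eq j q y x) (esg_rng X.x0.le (by linarith [X.b, X.p0])).1 (mo_v x) le_rfl le_rfl
  · intro ρ a B hρ hd i h1 h2
    fin_cases i
    · exact corW_cert (G1 := gB1q0) (G2 := gB3q2) (Ga := gB0q2) (Gb := gB1q2) (D1 := dB1q0) (D2 := dB3q2) (Da := dB0q2) (Db := dB1q2) cA022E_ok B hρ hen (gatB10 x) (gatB32 x) (fun _ => gatB02 x) (fun _ => gatB12 x) (datB10 x) (datB32 x) (fun _ => datB02 x) (fun _ => datB12 x) hd hx hx' CW.A022E_130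
    · exact corW_cert (G1 := gB1q0) (G2 := gB3q2) (Ga := gB1q2) (Gb := gB2q2) (D1 := dB1q0) (D2 := dB3q2) (Da := dB1q2) (Db := dB2q2) cA022E_ok B hρ hen (gatB10 x) (gatB32 x) (fun _ => gatB12 x) (fun _ => gatB22 x) (datB10 x) (datB32 x) (fun _ => datB12 x) (fun _ => datB22 x) hd hx hx' CW.A022E_131
    · exact corW_cert (G1 := gB1q0) (G2 := gB3q2) (Ga := gB2q2) (Gb := gB3q2) (D1 := dB1q0) (D2 := dB3q2) (Da := dB2q2) (Db := dB3q2) cA022E_ok B hρ hen (gatB10 x) (gatB32 x) (fun _ => gatB22 x) (fun _ => gatB32 x) (datB10 x) (datB32 x) (fun _ => datB22 x) (fun _ => datB32 x) hd hx hx' CW.A022E_132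
    · exact corW_cert (G1 := gB1q0) (G2 := gB3q2) (Ga := gB3q2) (Gb := gB4q2) (D1 := dB1q0) (D2 := dB3q2) (Da := dB3q2) (Db := dB4q2) cA022E_ok B hρ hen (gatB10 x) (gatB32 x) (fun _ => gatB32 x) (fun _ => gatB42 x) (datB10 x) (datB32 x) (fun _ => datB32 x) (fun _ => datB42 x) hd hx hx' CW.A022E_133
    · exact corW_cert (G1 := gB1q0) (G2 := gB3q2) (Ga := gB4q2) (Gb := gB5q2) (D1 := dB1q0) (D2 := dB3q2) (Da := dB4q2) (Db := dB5q2) cA022E_ok B hρ hen (gatB10 x) (gatB32 x) (fun _ => gatB42 x) (fun h => absurd h (by decide)) (datB10 x) (datB32 x) (fun _ => datB42 x) (fun h => absurd h (by decide)) hd hx hx' CW.A022E_134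
    · exact absurd h2 (by norm_num)
    · exact absurd h2 (by norm_num)
    · exact absurd h2 (by norm_num)
  · intro ρ a B hρ hd i h1 h2
    fin_cases i
    · exact corT_cert (G1 := gB1q0) (G2 := gB3q2) (Ga := gB0q2) (Gb := gB1q2) cA022E_ok B hρ (gatB10 x) (gatB32 x) (fun _ => gatB02 x) (fun _ => gatB12 x) hd hx hx' CG.A022E_130
    · exact corT_cert (G1 := gB1q0) (G2 := gB3q2) (Ga := gB1q2) (Gb := gB2q2) cA022E_ok B hρ (gatB10 x) (gatB32 x) (fun _ => gatB12 x) (fun _ => gatB22 x) hd hx hx' CG.A022E_131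
    · exact corT_cert (G1 := gB1q0) (G2 := gB3q2) (Ga := gB2q2) (Gb := gB3q2) cA022E_ok B hρ (gatB10 x) (gatB32 x) (fun _ => gatB22 x) (fun _ => gatB32 x) hd hx hx' CG.A022E_132
    · exact corT_cert (G1 := gB1q0) (G2 := gB3q2) (Ga := gB3q2) (Gb := gB4q2) cA022E_ok B hρ (gatB10 x) (gatB32 x) (fun _ => gatB32 x) (fun _ => gatB42 x) hd hx hx' CG.A022E_133
    · exact corT_cert (G1 := gB1q0) (G2 := gB3q2) (Ga := gB4q2) (Gb := gB5q2) cA022E_ok B hρ (gatB10 x) (gatB32 x) (fun _ => gatB42 x) (fun h => absurd h (by decide)) hd hx hx' CG.A022E_134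
    · exact absurd h2 (by norm_num)
    · exact absurd h2 (by norm_num)
    · exact absurd h2 (by norm_num)

theorem altB_A022E_14 {κ x : ℝ} (hκ : κ * h0 = ken x) (hx : ((649613803 : ℕ) : ℝ) / S ≤ x) (hx' : x ≤ (((649613803 : ℕ) : ℝ) + (48318383 : ℕ)) / S) :
    AltEA 3 κ (eng.v x) (3 / 40) (tnt (h0 * x) (3 / 10)) PP tK tL tC pcB (scP esg pd) [⟨0, 0, 0, 67108864⟩, ⟨1, 1, 0, 67108864⟩, ⟨2, 1, 0, 67108864⟩] 0 2 2 1 4 (sgb true) (sgb false) x := by
  have X : XR 67108864 x := XR.of hx hx' (by norm_num) (by norm_num) (by norm_num) (by norm_num)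
  have hen : 0 < eng.v x := en_pos X.x0.le
  refine CornW.altA (C := cA022E) (j := (1 : Fin 9)) (k := (4 : Fin 9)) (Ef := esg) (pd := pd) (o := 3 / 40)
    (cornW_of (C := cA022E) (C0 := c0B) (En := eng) (mo := mog) (j := (1 : Fin 9)) (k := (4 : Fin 9)) (lo := 0) (hi := 4) (W := 67108864) (N0 := 3) cA022E_q (sideB hx hx') gokB (pinU hx hx') dokB X (by norm_num) (by norm_num) (l := (0 : Fin 9)) rfl
      (gatB10 x) (gatB42 x) (gatB02 x) (datB10 x) (datB42 x) (datB02 x) ?_)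
    (cornS_of (C := cA022E) (C0 := c0B) (j := (1 : Fin 9)) (k := (4 : Fin 9)) (lo := 0) (hi := 4) (W := 67108864) (N0 := 3) cA022E_q (sideB hx hx') gokB X (by norm_num) (by norm_num) (l := (0 : Fin 9)) rfl
      (gatB10 x) (gatB42 x) (gatB02 x) ?_)
    (thU (pinU hx hx')) rfl hκ (fun j q y => tC_eq j q y x) (esg_rng X.x0.le (by linarith [X.b, X.p0])).1 (mo_v x) le_rfl le_rfl
  · intro ρ a B hρ hd i h1 h2
    fin_cases i
    · exact corW_cert (G1 := gB1q0) (G2 := gB4q2) (Ga := gB0q2) (Gb := gB1q2) (D1 := dB1q0) (D2 := dB4q2) (Da := dB0q2) (Db := dB1q2) cA022E_ok B hρ hen (gatB10 x) (gatB42 x) (fun _ => gatB02 x) (fun _ => gatB12 x) (datB10 x) (datB42 x) (fun _ => datB02 x) (fun _ => datB12 x) hd hx hx' CW.A022E_140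
    · exact corW_cert (G1 := gB1q0) (G2 := gB4q2) (Ga := gB1q2) (Gb := gB2q2) (D1 := dB1q0) (D2 := dB4q2) (Da := dB1q2) (Db := dB2q2) cA022E_ok B hρ hen (gatB10 x) (gatB42 x) (fun _ => gatB12 x) (fun _ => gatB22 x) (datB10 x) (datB42 x) (fun _ => datB12 x) (fun _ => datB22 x) hd hx hx' CW.A022E_141
    · exact corW_cert (G1 := gB1q0) (G2 := gB4q2) (Ga := gB2q2) (Gb := gB3q2) (D1 := dB1q0) (D2 := dB4q2) (Da := dB2q2) (Db := dB3q2) cA022E_ok B hρ hen (gatB10 x) (gatB42 x) (fun _ => gatB22 x) (fun _ => gatB32 x) (datB10 x) (datB42 x) (fun _ => datB22 x) (fun _ => datB32 x) hd hx hx' CW.A022E_142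
    · exact corW_cert (G1 := gB1q0) (G2 := gB4q2) (Ga := gB3q2) (Gb := gB4q2) (D1 := dB1q0) (D2 := dB4q2) (Da := dB3q2) (Db := dB4q2) cA022E_ok B hρ hen (gatB10 x) (gatB42 x) (fun _ => gatB32 x) (fun _ => gatB42 x) (datB10 x) (datB42 x) (fun _ => datB32 x) (fun _ => datB42 x) hd hx hx' CW.A022E_143
    · exact corW_cert (G1 := gB1q0) (G2 := gB4q2) (Ga := gB4q2) (Gb := gB5q2) (D1 := dB1q0) (D2 := dB4q2) (Da := dB4q2) (Db := dB5q2) cA022E_ok B hρ hen (gatB10 x) (gatB42 x) (fun _ => gatB42 x) (fun h => absurd h (by decide)) (datB10 x) (datB42 x) (fun _ => datB42 x) (fun h => absurd h (by decide)) hd hx hx' CW.A022E_144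
    · exact absurd h2 (by norm_num)
    · exact absurd h2 (by norm_num)
    · exact absurd h2 (by norm_num)
  · intro ρ a B hρ hd i h1 h2
    fin_cases i
    · exact corT_cert (G1 := gB1q0) (G2 := gB4q2) (Ga := gB0q2) (Gb := gB1q2) cA022E_ok B hρ (gatB10 x) (gatB42 x) (fun _ => gatB02 x) (fun _ => gatB12 x) hd hx hx' CG.A022E_140
    · exact corT_cert (G1 := gB1q0) (G2 := gB4q2) (Ga := gB1q2) (Gb := gB2q2) cA022E_ok B hρ (gatB10 x) (gatB42 x) (fun _ => gatB12 x) (fun _ => gatB22 x) hd hx hx' CG.A022E_141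
    · exact corT_cert (G1 := gB1q0) (G2 := gB4q2) (Ga := gB2q2) (Gb := gB3q2) cA022E_ok B hρ (gatB10 x) (gatB42 x) (fun _ => gatB22 x) (fun _ => gatB32 x) hd hx hx' CG.A022E_142
    · exact corT_cert (G1 := gB1q0) (G2 := gB4q2) (Ga := gB3q2) (Gb := gB4q2) cA022E_ok B hρ (gatB10 x) (gatB42 x) (fun _ => gatB32 x) (fun _ => gatB42 x) hd hx hx' CG.A022E_143
    · exact corT_cert (G1 := gB1q0) (G2 := gB4q2) (Ga := gB4q2) (Gb := gB5q2) cA022E_ok B hρ (gatB10 x) (gatB42 x) (fun _ => gatB42 x) (fun h => absurd h (by decide)) hd hx hx' CG.A022E_144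
    · exact absurd h2 (by norm_num)
    · exact absurd h2 (by norm_num)
    · exact absurd h2 (by norm_num)

theorem altB_A022E_22 {κ x : ℝ} (hκ : κ * h0 = ken x) (hx : ((649613803 : ℕ) : ℝ) / S ≤ x) (hx' : x ≤ (((649613803 : ℕ) : ℝ) + (48318383 : ℕ)) / S) :
    AltEA 3 κ (eng.v x) (3 / 40) (tnt (h0 * x) (3 / 10)) PP tK tL tC pcB (scP esg pd) [⟨0, 0, 0, 67108864⟩, ⟨1, 1, 0, 67108864⟩, ⟨2, 1, 0, 67108864⟩] 0 2 2 2 2 (sgb true) (sgb false) x := by
  have X : XR 67108864 x := XR.of hx hx' (by norm_num) (by norm_num) (by norm_num) (by norm_num)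
  have hen : 0 < eng.v x := en_pos X.x0.le
  refine CornW.altA (C := cA022E) (j := (2 : Fin 9)) (k := (2 : Fin 9)) (Ef := esg) (pd := pd) (o := 3 / 40)
    (cornW_of (C := cA022E) (C0 := c0B) (En := eng) (mo := mog) (j := (2 : Fin 9)) (k := (2 : Fin 9)) (lo := 0) (hi := 4) (W := 67108864) (N0 := 3) cA022E_q (sideB hx hx') gokB (pinU hx hx') dokB X (by norm_num) (by norm_num) (l := (0 : Fin 9)) rfl
      (gatB20 x) (gatB22 x) (gatB02 x) (datB20 x) (datB22 x) (datB02 x) ?_)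
    (cornS_of (C := cA022E) (C0 := c0B) (j := (2 : Fin 9)) (k := (2 : Fin 9)) (lo := 0) (hi := 4) (W := 67108864) (N0 := 3) cA022E_q (sideB hx hx') gokB X (by norm_num) (by norm_num) (l := (0 : Fin 9)) rfl
      (gatB20 x) (gatB22 x) (gatB02 x) ?_)
    (thU (pinU hx hx')) rfl hκ (fun j q y => tC_eq j q y x) (esg_rng X.x0.le (by linarith [X.b, X.p0])).1 (mo_v x) le_rfl le_rfl
  · intro ρ a B hρ hd i h1 h2
    fin_cases i
    · exact corW_cert (G1 := gB2q0) (G2 := gB2q2) (Ga := gB0q2) (Gb := gB1q2) (D1 := dB2q0) (D2 := dB2q2) (Da := dB0q2) (Db := dB1q2) cA022E_ok B hρ hen (gatB20 x) (gatB22 x) (fun _ => gatB02 x) (fun _ => gatB12 x) (datB20 x) (datB22 x) (fun _ => datB02 x) (fun _ => datB12 x) hd hx hx' CW.A022E_220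
    · exact corW_cert (G1 := gB2q0) (G2 := gB2q2) (Ga := gB1q2) (Gb := gB2q2) (D1 := dB2q0) (D2 := dB2q2) (Da := dB1q2) (Db := dB2q2) cA022E_ok B hρ hen (gatB20 x) (gatB22 x) (fun _ => gatB12 x) (fun _ => gatB22 x) (datB20 x) (datB22 x) (fun _ => datB12 x) (fun _ => datB22 x) hd hx hx' CW.A022E_221
    · exact corW_cert (G1 := gB2q0) (G2 := gB2q2) (Ga := gB2q2) (Gb := gB3q2) (D1 := dB2q0) (D2 := dB2q2) (Da := dB2q2) (Db := dB3q2) cA022E_ok B hρ hen (gatB20 x) (gatB22 x) (fun _ => gatB22 x) (fun _ => gatB32 x) (datB20 x) (datB22 x) (fun _ => datB22 x) (fun _ => datB32 x) hd hx hx' CW.A022E_222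
    · exact corW_cert (G1 := gB2q0) (G2 := gB2q2) (Ga := gB3q2) (Gb := gB4q2) (D1 := dB2q0) (D2 := dB2q2) (Da := dB3q2) (Db := dB4q2) cA022E_ok B hρ hen (gatB20 x) (gatB22 x) (fun _ => gatB32 x) (fun _ => gatB42 x) (datB20 x) (datB22 x) (fun _ => datB32 x) (fun _ => datB42 x) hd hx hx' CW.A022E_223
    · exact corW_cert (G1 := gB2q0) (G2 := gB2q2) (Ga := gB4q2) (Gb := gB5q2) (D1 := dB2q0) (D2 := dB2q2) (Da := dB4q2) (Db := dB5q2) cA022E_ok B hρ hen (gatB20 x) (gatB22 x) (fun _ => gatB42 x) (fun h => absurd h (by decide)) (datB20 x) (datB22 x) (fun _ => datB42 x) (fun h => absurd h (by decide)) hd hx hx' CW.A022E_224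
    · exact absurd h2 (by norm_num)
    · exact absurd h2 (by norm_num)
    · exact absurd h2 (by norm_num)
  · intro ρ a B hρ hd i h1 h2
    fin_cases i
    · exact corT_cert (G1 := gB2q0) (G2 := gB2q2) (Ga := gB0q2) (Gb := gB1q2) cA022E_ok B hρ (gatB20 x) (gatB22 x) (fun _ => gatB02 x) (fun _ => gatB12 x) hd hx hx' CG.A022E_220
    · exact corT_cert (G1 := gB2q0) (G2 := gB2q2) (Ga := gB1q2) (Gb := gB2q2) cA022E_ok B hρ (gatB20 x) (gatB22 x) (fun _ => gatB12 x) (fun _ => gatB22 x) hd hx hx' CG.A022E_221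
    · exact corT_cert (G1 := gB2q0) (G2 := gB2q2) (Ga := gB2q2) (Gb := gB3q2) cA022E_ok B hρ (gatB20 x) (gatB22 x) (fun _ => gatB22 x) (fun _ => gatB32 x) hd hx hx' CG.A022E_222
    · exact corT_cert (G1 := gB2q0) (G2 := gB2q2) (Ga := gB3q2) (Gb := gB4q2) cA022E_ok B hρ (gatB20 x) (gatB22 x) (fun _ => gatB32 x) (fun _ => gatB42 x) hd hx hx' CG.A022E_223
    · exact corT_cert (G1 := gB2q0) (G2 := gB2q2) (Ga := gB4q2) (Gb := gB5q2) cA022E_ok B hρ (gatB20 x) (gatB22 x) (fun _ => gatB42 x) (fun h => absurd h (by decide)) hd hx hx' CG.A022E_224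
    · exact absurd h2 (by norm_num)
    · exact absurd h2 (by norm_num)
    · exact absurd h2 (by norm_num)

theorem altB_A022E_23 {κ x : ℝ} (hκ : κ * h0 = ken x) (hx : ((649613803 : ℕ) : ℝ) / S ≤ x) (hx' : x ≤ (((649613803 : ℕ) : ℝ) + (48318383 : ℕ)) / S) :
    AltEA 3 κ (eng.v x) (3 / 40) (tnt (h0 * x) (3 / 10)) PP tK tL tC pcB (scP esg pd) [⟨0, 0, 0, 67108864⟩, ⟨1, 1, 0, 67108864⟩, ⟨2, 1, 0, 67108864⟩] 0 2 2 2 3 (sgb true) (sgb false) x := by
  have X : XR 67108864 x := XR.of hx hx' (by norm_num) (by norm_num) (by norm_num) (by norm_num)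
  have hen : 0 < eng.v x := en_pos X.x0.le
  refine CornW.altA (C := cA022E) (j := (2 : Fin 9)) (k := (3 : Fin 9)) (Ef := esg) (pd := pd) (o := 3 / 40)
    (cornW_of (C := cA022E) (C0 := c0B) (En := eng) (mo := mog) (j := (2 : Fin 9)) (k := (3 : Fin 9)) (lo := 0) (hi := 4) (W := 67108864) (N0 := 3) cA022E_q (sideB hx hx') gokB (pinU hx hx') dokB X (by norm_num) (by norm_num) (l := (0 : Fin 9)) rfl
      (gatB20 x) (gatB32 x) (gatB02 x) (datB20 x) (datB32 x) (datB02 x) ?_)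
    (cornS_of (C := cA022E) (C0 := c0B) (j := (2 : Fin 9)) (k := (3 : Fin 9)) (lo := 0) (hi := 4) (W := 67108864) (N0 := 3) cA022E_q (sideB hx hx') gokB X (by norm_num) (by norm_num) (l := (0 : Fin 9)) rfl
      (gatB20 x) (gatB32 x) (gatB02 x) ?_)
    (thU (pinU hx hx')) rfl hκ (fun j q y => tC_eq j q y x) (esg_rng X.x0.le (by linarith [X.b, X.p0])).1 (mo_v x) le_rfl le_rfl
  · intro ρ a B hρ hd i h1 h2
    fin_cases i
    · exact corW_cert (G1 := gB2q0) (G2 := gB3q2) (Ga := gB0q2) (Gb := gB1q2) (D1 := dB2q0) (D2 := dB3q2) (Da := dB0q2) (Db := dB1q2) cA022E_ok B hρ hen (gatB20 x) (gatB32 x) (fun _ => gatB02 x) (fun _ => gatB12 x) (datB20 x) (datB32 x) (fun _ => datB02 x) (fun _ => datB12 x) hd hx hx' CW.A022E_230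
    · exact corW_cert (G1 := gB2q0) (G2 := gB3q2) (Ga := gB1q2) (Gb := gB2q2) (D1 := dB2q0) (D2 := dB3q2) (Da := dB1q2) (Db := dB2q2) cA022E_ok B hρ hen (gatB20 x) (gatB32 x) (fun _ => gatB12 x) (fun _ => gatB22 x) (datB20 x) (datB32 x) (fun _ => datB12 x) (fun _ => datB22 x) hd hx hx' CW.A022E_231
    · exact corW_cert (G1 := gB2q0) (G2 := gB3q2) (Ga := gB2q2) (Gb := gB3q2) (D1 := dB2q0) (D2 := dB3q2) (Da := dB2q2) (Db := dB3q2) cA022E_ok B hρ hen (gatB20 x) (gatB32 x) (fun _ => gatB22 x) (fun _ => gatB32 x) (datB20 x) (datB32 x) (fun _ => datB22 x) (fun _ => datB32 x) hd hx hx' CW.A022E_232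
    · exact corW_cert (G1 := gB2q0) (G2 := gB3q2) (Ga := gB3q2) (Gb := gB4q2) (D1 := dB2q0) (D2 := dB3q2) (Da := dB3q2) (Db := dB4q2) cA022E_ok B hρ hen (gatB20 x) (gatB32 x) (fun _ => gatB32 x) (fun _ => gatB42 x) (datB20 x) (datB32 x) (fun _ => datB32 x) (fun _ => datB42 x) hd hx hx' CW.A022E_233
    · exact corW_cert (G1 := gB2q0) (G2 := gB3q2) (Ga := gB4q2) (Gb := gB5q2) (D1 := dB2q0) (D2 := dB3q2) (Da := dB4q2) (Db := dB5q2) cA022E_ok B hρ hen (gatB20 x) (gatB32 x) (fun _ => gatB42 x) (fun h => absurd h (by decide)) (datB20 x) (datB32 x) (fun _ => datB42 x) (fun h => absurd h (by decide)) hd hx hx' CW.A022E_234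
    · exact absurd h2 (by norm_num)
    · exact absurd h2 (by norm_num)
    · exact absurd h2 (by norm_num)
  · intro ρ a B hρ hd i h1 h2
    fin_cases i
    · exact corT_cert (G1 := gB2q0) (G2 := gB3q2) (Ga := gB0q2) (Gb := gB1q2) cA022E_ok B hρ (gatB20 x) (gatB32 x) (fun _ => gatB02 x) (fun _ => gatB12 x) hd hx hx' CG.A022E_230
    · exact corT_cert (G1 := gB2q0) (G2 := gB3q2) (Ga := gB1q2) (Gb := gB2q2) cA022E_ok B hρ (gatB20 x) (gatB32 x) (fun _ => gatB12 x) (fun _ => gatB22 x) hd hx hx' CG.A022E_231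
    · exact corT_cert (G1 := gB2q0) (G2 := gB3q2) (Ga := gB2q2) (Gb := gB3q2) cA022E_ok B hρ (gatB20 x) (gatB32 x) (fun _ => gatB22 x) (fun _ => gatB32 x) hd hx hx' CG.A022E_232
    · exact corT_cert (G1 := gB2q0) (G2 := gB3q2) (Ga := gB3q2) (Gb := gB4q2) cA022E_ok B hρ (gatB20 x) (gatB32 x) (fun _ => gatB32 x) (fun _ => gatB42 x) hd hx hx' CG.A022E_233
    · exact corT_cert (G1 := gB2q0) (G2 := gB3q2) (Ga := gB4q2) (Gb := gB5q2) cA022E_ok B hρ (gatB20 x) (gatB32 x) (fun _ => gatB42 x) (fun h => absurd h (by decide)) hd hx hx' CG.A022E_234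
    · exact absurd h2 (by norm_num)
    · exact absurd h2 (by norm_num)
    · exact absurd h2 (by norm_num)

theorem altB_A022E_24 {κ x : ℝ} (hκ : κ * h0 = ken x) (hx : ((649613803 : ℕ) : ℝ) / S ≤ x) (hx' : x ≤ (((649613803 : ℕ) : ℝ) + (48318383 : ℕ)) / S) :
    AltEA 3 κ (eng.v x) (3 / 40) (tnt (h0 * x) (3 / 10)) PP tK tL tC pcB (scP esg pd) [⟨0, 0, 0, 67108864⟩, ⟨1, 1, 0, 67108864⟩, ⟨2, 1, 0, 67108864⟩] 0 2 2 2 4 (sgb true) (sgb false) x := by
  have X : XR 67108864 x := XR.of hx hx' (by norm_num) (by norm_num) (by norm_num) (by norm_num)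
  have hen : 0 < eng.v x := en_pos X.x0.le
  refine CornW.altA (C := cA022E) (j := (2 : Fin 9)) (k := (4 : Fin 9)) (Ef := esg) (pd := pd) (o := 3 / 40)
    (cornW_of (C := cA022E) (C0 := c0B) (En := eng) (mo := mog) (j := (2 : Fin 9)) (k := (4 : Fin 9)) (lo := 0) (hi := 4) (W := 67108864) (N0 := 3) cA022E_q (sideB hx hx') gokB (pinU hx hx') dokB X (by norm_num) (by norm_num) (l := (0 : Fin 9)) rfl
      (gatB20 x) (gatB42 x) (gatB02 x) (datB20 x) (datB42 x) (datB02 x) ?_)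
    (cornS_of (C := cA022E) (C0 := c0B) (j := (2 : Fin 9)) (k := (4 : Fin 9)) (lo := 0) (hi := 4) (W := 67108864) (N0 := 3) cA022E_q (sideB hx hx') gokB X (by norm_num) (by norm_num) (l := (0 : Fin 9)) rfl
      (gatB20 x) (gatB42 x) (gatB02 x) ?_)
    (thU (pinU hx hx')) rfl hκ (fun j q y => tC_eq j q y x) (esg_rng X.x0.le (by linarith [X.b, X.p0])).1 (mo_v x) le_rfl le_rfl
  · intro ρ a B hρ hd i h1 h2
    fin_cases i
    · exact corW_cert (G1 := gB2q0) (G2 := gB4q2) (Ga := gB0q2) (Gb := gB1q2) (D1 := dB2q0) (D2 := dB4q2) (Da := dB0q2) (Db := dB1q2) cA022E_ok B hρ hen (gatB20 x) (gatB42 x) (fun _ => gatB02 x) (fun _ => gatB12 x) (datB20 x) (datB42 x) (fun _ => datB02 x) (fun _ => datB12 x) hd hx hx' CW.A022E_240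
    · exact corW_cert (G1 := gB2q0) (G2 := gB4q2) (Ga := gB1q2) (Gb := gB2q2) (D1 := dB2q0) (D2 := dB4q2) (Da := dB1q2) (Db := dB2q2) cA022E_ok B hρ hen (gatB20 x) (gatB42 x) (fun _ => gatB12 x) (fun _ => gatB22 x) (datB20 x) (datB42 x) (fun _ => datB12 x) (fun _ => datB22 x) hd hx hx' CW.A022E_241
    · exact corW_cert (G1 := gB2q0) (G2 := gB4q2) (Ga := gB2q2) (Gb := gB3q2) (D1 := dB2q0) (D2 := dB4q2) (Da := dB2q2) (Db := dB3q2) cA022E_ok B hρ hen (gatB20 x) (gatB42 x) (fun _ => gatB22 x) (fun _ => gatB32 x) (datB20 x) (datB42 x) (fun _ => datB22 x) (fun _ => datB32 x) hd hx hx' CW.A022E_242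
    · exact corW_cert (G1 := gB2q0) (G2 := gB4q2) (Ga := gB3q2) (Gb := gB4q2) (D1 := dB2q0) (D2 := dB4q2) (Da := dB3q2) (Db := dB4q2) cA022E_ok B hρ hen (gatB20 x) (gatB42 x) (fun _ => gatB32 x) (fun _ => gatB42 x) (datB20 x) (datB42 x) (fun _ => datB32 x) (fun _ => datB42 x) hd hx hx' CW.A022E_243
    · exact corW_cert (G1 := gB2q0) (G2 := gB4q2) (Ga := gB4q2) (Gb := gB5q2) (D1 := dB2q0) (D2 := dB4q2) (Da := dB4q2) (Db := dB5q2) cA022E_ok B hρ hen (gatB20 x) (gatB42 x) (fun _ => gatB42 x) (fun h => absurd h (by decide)) (datB20 x) (datB42 x) (fun _ => datB42 x) (fun h => absurd h (by decide)) hd hx hx' CW.A022E_244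
    · exact absurd h2 (by norm_num)
    · exact absurd h2 (by norm_num)
    · exact absurd h2 (by norm_num)
  · intro ρ a B hρ hd i h1 h2
    fin_cases i
    · exact corT_cert (G1 := gB2q0) (G2 := gB4q2) (Ga := gB0q2) (Gb := gB1q2) cA022E_ok B hρ (gatB20 x) (gatB42 x) (fun _ => gatB02 x) (fun _ => gatB12 x) hd hx hx' CG.A022E_240
    · exact corT_cert (G1 := gB2q0) (G2 := gB4q2) (Ga := gB1q2) (Gb := gB2q2) cA022E_ok B hρ (gatB20 x) (gatB42 x) (fun _ => gatB12 x) (fun _ => gatB22 x) hd hx hx' CG.A022E_241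
    · exact corT_cert (G1 := gB2q0) (G2 := gB4q2) (Ga := gB2q2) (Gb := gB3q2) cA022E_ok B hρ (gatB20 x) (gatB42 x) (fun _ => gatB22 x) (fun _ => gatB32 x) hd hx hx' CG.A022E_242
    · exact corT_cert (G1 := gB2q0) (G2 := gB4q2) (Ga := gB3q2) (Gb := gB4q2) cA022E_ok B hρ (gatB20 x) (gatB42 x) (fun _ => gatB32 x) (fun _ => gatB42 x) hd hx hx' CG.A022E_243
    · exact corT_cert (G1 := gB2q0) (G2 := gB4q2) (Ga := gB4q2) (Gb := gB5q2) cA022E_ok B hρ (gatB20 x) (gatB42 x) (fun _ => gatB42 x) (fun h => absurd h (by decide)) hd hx hx' CG.A022E_244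
    · exact absurd h2 (by norm_num)
    · exact absurd h2 (by norm_num)
    · exact absurd h2 (by norm_num)

theorem altB_A022E_33 {κ x : ℝ} (hκ : κ * h0 = ken x) (hx : ((649613803 : ℕ) : ℝ) / S ≤ x) (hx' : x ≤ (((649613803 : ℕ) : ℝ) + (48318383 : ℕ)) / S) :
    AltEA 3 κ (eng.v x) (3 / 40) (tnt (h0 * x) (3 / 10)) PP tK tL tC pcB (scP esg pd) [⟨0, 0, 0, 67108864⟩, ⟨1, 1, 0, 67108864⟩, ⟨2, 1, 0, 67108864⟩] 0 2 2 3 3 (sgb true) (sgb false) x := by
  have X : XR 67108864 x := XR.of hx hx' (by norm_num) (by norm_num) (by norm_num) (by norm_num)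
  have hen : 0 < eng.v x := en_pos X.x0.le
  refine CornW.altA (C := cA022E) (j := (3 : Fin 9)) (k := (3 : Fin 9)) (Ef := esg) (pd := pd) (o := 3 / 40)
    (cornW_of (C := cA022E) (C0 := c0B) (En := eng) (mo := mog) (j := (3 : Fin 9)) (k := (3 : Fin 9)) (lo := 0) (hi := 4) (W := 67108864) (N0 := 3) cA022E_q (sideB hx hx') gokB (pinU hx hx') dokB X (by norm_num) (by norm_num) (l := (0 : Fin 9)) rfl
      (gatB30 x) (gatB32 x) (gatB02 x) (datB30 x) (datB32 x) (datB02 x) ?_)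
    (cornS_of (C := cA022E) (C0 := c0B) (j := (3 : Fin 9)) (k := (3 : Fin 9)) (lo := 0) (hi := 4) (W := 67108864) (N0 := 3) cA022E_q (sideB hx hx') gokB X (by norm_num) (by norm_num) (l := (0 : Fin 9)) rfl
      (gatB30 x) (gatB32 x) (gatB02 x) ?_)
    (thU (pinU hx hx')) rfl hκ (fun j q y => tC_eq j q y x) (esg_rng X.x0.le (by linarith [X.b, X.p0])).1 (mo_v x) le_rfl le_rfl
  · intro ρ a B hρ hd i h1 h2
    fin_cases i
    · exact corW_cert (G1 := gB3q0) (G2 := gB3q2) (Ga := gB0q2) (Gb := gB1q2) (D1 := dB3q0) (D2 := dB3q2) (Da := dB0q2) (Db := dB1q2) cA022E_ok B hρ hen (gatB30 x) (gatB32 x) (fun _ => gatB02 x) (fun _ => gatB12 x) (datB30 x) (datB32 x) (fun _ => datB02 x) (fun _ => datB12 x) hd hx hx' CW.A022E_330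
    · exact corW_cert (G1 := gB3q0) (G2 := gB3q2) (Ga := gB1q2) (Gb := gB2q2) (D1 := dB3q0) (D2 := dB3q2) (Da := dB1q2) (Db := dB2q2) cA022E_ok B hρ hen (gatB30 x) (gatB32 x) (fun _ => gatB12 x) (fun _ => gatB22 x) (datB30 x) (datB32 x) (fun _ => datB12 x) (fun _ => datB22 x) hd hx hx' CW.A022E_331
    · exact corW_cert (G1 := gB3q0) (G2 := gB3q2) (Ga := gB2q2) (Gb := gB3q2) (D1 := dB3q0) (D2 := dB3q2) (Da := dB2q2) (Db := dB3q2) cA022E_ok B hρ hen (gatB30 x) (gatB32 x) (fun _ => gatB22 x) (fun _ => gatB32 x) (datB30 x) (datB32 x) (fun _ => datB22 x) (fun _ => datB32 x) hd hx hx' CW.A022E_332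
    · exact corW_cert (G1 := gB3q0) (G2 := gB3q2) (Ga := gB3q2) (Gb := gB4q2) (D1 := dB3q0) (D2 := dB3q2) (Da := dB3q2) (Db := dB4q2) cA022E_ok B hρ hen (gatB30 x) (gatB32 x) (fun _ => gatB32 x) (fun _ => gatB42 x) (datB30 x) (datB32 x) (fun _ => datB32 x) (fun _ => datB42 x) hd hx hx' CW.A022E_333
    · exact corW_cert (G1 := gB3q0) (G2 := gB3q2) (Ga := gB4q2) (Gb := gB5q2) (D1 := dB3q0) (D2 := dB3q2) (Da := dB4q2) (Db := dB5q2) cA022E_ok B hρ hen (gatB30 x) (gatB32 x) (fun _ => gatB42 x) (fun h => absurd h (by decide)) (datB30 x) (datB32 x) (fun _ => datB42 x) (fun h => absurd h (by decide)) hd hx hx' CW.A022E_334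
    · exact absurd h2 (by norm_num)
    · exact absurd h2 (by norm_num)
    · exact absurd h2 (by norm_num)
  · intro ρ a B hρ hd i h1 h2
    fin_cases i
    · exact corT_cert (G1 := gB3q0) (G2 := gB3q2) (Ga := gB0q2) (Gb := gB1q2) cA022E_ok B hρ (gatB30 x) (gatB32 x) (fun _ => gatB02 x) (fun _ => gatB12 x) hd hx hx' CG.A022E_330
    · exact corT_cert (G1 := gB3q0) (G2 := gB3q2) (Ga := gB1q2) (Gb := gB2q2) cA022E_ok B hρ (gatB30 x) (gatB32 x) (fun _ => gatB12 x) (fun _ => gatB22 x) hd hx hx' CG.A022E_331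
    · exact corT_cert (G1 := gB3q0) (G2 := gB3q2) (Ga := gB2q2) (Gb := gB3q2) cA022E_ok B hρ (gatB30 x) (gatB32 x) (fun _ => gatB22 x) (fun _ => gatB32 x) hd hx hx' CG.A022E_332
    · exact corT_cert (G1 := gB3q0) (G2 := gB3q2) (Ga := gB3q2) (Gb := gB4q2) cA022E_ok B hρ (gatB30 x) (gatB32 x) (fun _ => gatB32 x) (fun _ => gatB42 x) hd hx hx' CG.A022E_333
    · exact corT_cert (G1 := gB3q0) (G2 := gB3q2) (Ga := gB4q2) (Gb := gB5q2) cA022E_ok B hρ (gatB30 x) (gatB32 x) (fun _ => gatB42 x) (fun h => absurd h (by decide)) hd hx hx' CG.A022E_334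
    · exact absurd h2 (by norm_num)
    · exact absurd h2 (by norm_num)
    · exact absurd h2 (by norm_num)

theorem altB_A022E_34 {κ x : ℝ} (hκ : κ * h0 = ken x) (hx : ((649613803 : ℕ) : ℝ) / S ≤ x) (hx' : x ≤ (((649613803 : ℕ) : ℝ) + (48318383 : ℕ)) / S) :
    AltEA 3 κ (eng.v x) (3 / 40) (tnt (h0 * x) (3 / 10)) PP tK tL tC pcB (scP esg pd) [⟨0, 0, 0, 67108864⟩, ⟨1, 1, 0, 67108864⟩, ⟨2, 1, 0, 67108864⟩] 0 2 2 3 4 (sgb true) (sgb false) x := by
  have X : XR 67108864 x := XR.of hx hx' (by norm_num) (by norm_num) (by norm_num) (by norm_num)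
  have hen : 0 < eng.v x := en_pos X.x0.le
  refine CornW.altA (C := cA022E) (j := (3 : Fin 9)) (k := (4 : Fin 9)) (Ef := esg) (pd := pd) (o := 3 / 40)
    (cornW_of (C := cA022E) (C0 := c0B) (En := eng) (mo := mog) (j := (3 : Fin 9)) (k := (4 : Fin 9)) (lo := 0) (hi := 4) (W := 67108864) (N0 := 3) cA022E_q (sideB hx hx') gokB (pinU hx hx') dokB X (by norm_num) (by norm_num) (l := (0 : Fin 9)) rfl
      (gatB30 x) (gatB42 x) (gatB02 x) (datB30 x) (datB42 x) (datB02 x) ?_)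
    (cornS_of (C := cA022E) (C0 := c0B) (j := (3 : Fin 9)) (k := (4 : Fin 9)) (lo := 0) (hi := 4) (W := 67108864) (N0 := 3) cA022E_q (sideB hx hx') gokB X (by norm_num) (by norm_num) (l := (0 : Fin 9)) rfl
      (gatB30 x) (gatB42 x) (gatB02 x) ?_)
    (thU (pinU hx hx')) rfl hκ (fun j q y => tC_eq j q y x) (esg_rng X.x0.le (by linarith [X.b, X.p0])).1 (mo_v x) le_rfl le_rfl
  · intro ρ a B hρ hd i h1 h2
    fin_cases i
    · exact corW_cert (G1 := gB3q0) (G2 := gB4q2) (Ga := gB0q2) (Gb := gB1q2) (D1 := dB3q0) (D2 := dB4q2) (Da := dB0q2) (Db := dB1q2) cA022E_ok B hρ hen (gatB30 x) (gatB42 x) (fun _ => gatB02 x) (fun _ => gatB12 x) (datB30 x) (datB42 x) (fun _ => datB02 x) (fun _ => datB12 x) hd hx hx' CW.A022E_340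
    · exact corW_cert (G1 := gB3q0) (G2 := gB4q2) (Ga := gB1q2) (Gb := gB2q2) (D1 := dB3q0) (D2 := dB4q2) (Da := dB1q2) (Db := dB2q2) cA022E_ok B hρ hen (gatB30 x) (gatB42 x) (fun _ => gatB12 x) (fun _ => gatB22 x) (datB30 x) (datB42 x) (fun _ => datB12 x) (fun _ => datB22 x) hd hx hx' CW.A022E_341
    · exact corW_cert (G1 := gB3q0) (G2 := gB4q2) (Ga := gB2q2) (Gb := gB3q2) (D1 := dB3q0) (D2 := dB4q2) (Da := dB2q2) (Db := dB3q2) cA022E_ok B hρ hen (gatB30 x) (gatB42 x) (fun _ => gatB22 x) (fun _ => gatB32 x) (datB30 x) (datB42 x) (fun _ => datB22 x) (fun _ => datB32 x) hd hx hx' CW.A022E_342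
    · exact corW_cert (G1 := gB3q0) (G2 := gB4q2) (Ga := gB3q2) (Gb := gB4q2) (D1 := dB3q0) (D2 := dB4q2) (Da := dB3q2) (Db := dB4q2) cA022E_ok B hρ hen (gatB30 x) (gatB42 x) (fun _ => gatB32 x) (fun _ => gatB42 x) (datB30 x) (datB42 x) (fun _ => datB32 x) (fun _ => datB42 x) hd hx hx' CW.A022E_343
    · exact corW_cert (G1 := gB3q0) (G2 := gB4q2) (Ga := gB4q2) (Gb := gB5q2) (D1 := dB3q0) (D2 := dB4q2) (Da := dB4q2) (Db := dB5q2) cA022E_ok B hρ hen (gatB30 x) (gatB42 x) (fun _ => gatB42 x) (fun h => absurd h (by decide)) (datB30 x) (datB42 x) (fun _ => datB42 x) (fun h => absurd h (by decide)) hd hx hx' CW.A022E_344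
    · exact absurd h2 (by norm_num)
    · exact absurd h2 (by norm_num)
    · exact absurd h2 (by norm_num)
  · intro ρ a B hρ hd i h1 h2
    fin_cases i
    · exact corT_cert (G1 := gB3q0) (G2 := gB4q2) (Ga := gB0q2) (Gb := gB1q2) cA022E_ok B hρ (gatB30 x) (gatB42 x) (fun _ => gatB02 x) (fun _ => gatB12 x) hd hx hx' CG.A022E_340
    · exact corT_cert (G1 := gB3q0) (G2 := gB4q2) (Ga := gB1q2) (Gb := gB2q2) cA022E_ok B hρ (gatB30 x) (gatB42 x) (fun _ => gatB12 x) (fun _ => gatB22 x) hd hx hx' CG.A022E_341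
    · exact corT_cert (G1 := gB3q0) (G2 := gB4q2) (Ga := gB2q2) (Gb := gB3q2) cA022E_ok B hρ (gatB30 x) (gatB42 x) (fun _ => gatB22 x) (fun _ => gatB32 x) hd hx hx' CG.A022E_342
    · exact corT_cert (G1 := gB3q0) (G2 := gB4q2) (Ga := gB3q2) (Gb := gB4q2) cA022E_ok B hρ (gatB30 x) (gatB42 x) (fun _ => gatB32 x) (fun _ => gatB42 x) hd hx hx' CG.A022E_343
    · exact corT_cert (G1 := gB3q0) (G2 := gB4q2) (Ga := gB4q2) (Gb := gB5q2) cA022E_ok B hρ (gatB30 x) (gatB42 x) (fun _ => gatB42 x) (fun h => absurd h (by decide)) hd hx hx' CG.A022E_344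
    · exact absurd h2 (by norm_num)
    · exact absurd h2 (by norm_num)
    · exact absurd h2 (by norm_num)

theorem altB_A022E_44 {κ x : ℝ} (hκ : κ * h0 = ken x) (hx : ((649613803 : ℕ) : ℝ) / S ≤ x) (hx' : x ≤ (((649613803 : ℕ) : ℝ) + (48318383 : ℕ)) / S) :
    AltEA 3 κ (eng.v x) (3 / 40) (tnt (h0 * x) (3 / 10)) PP tK tL tC pcB (scP esg pd) [⟨0, 0, 0, 67108864⟩, ⟨1, 1, 0, 67108864⟩, ⟨2, 1, 0, 67108864⟩] 0 2 2 4 4 (sgb true) (sgb false) x := by
  have X : XR 67108864 x := XR.of hx hx' (by norm_num) (by norm_num) (by norm_num) (by norm_num)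
  have hen : 0 < eng.v x := en_pos X.x0.le
  refine CornW.altA (C := cA022E) (j := (4 : Fin 9)) (k := (4 : Fin 9)) (Ef := esg) (pd := pd) (o := 3 / 40)
    (cornW_of (C := cA022E) (C0 := c0B) (En := eng) (mo := mog) (j := (4 : Fin 9)) (k := (4 : Fin 9)) (lo := 0) (hi := 4) (W := 67108864) (N0 := 3) cA022E_q (sideB hx hx') gokB (pinU hx hx') dokB X (by norm_num) (by norm_num) (l := (0 : Fin 9)) rfl
      (gatB40 x) (gatB42 x) (gatB02 x) (datB40 x) (datB42 x) (datB02 x) ?_)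
    (cornS_of (C := cA022E) (C0 := c0B) (j := (4 : Fin 9)) (k := (4 : Fin 9)) (lo := 0) (hi := 4) (W := 67108864) (N0 := 3) cA022E_q (sideB hx hx') gokB X (by norm_num) (by norm_num) (l := (0 : Fin 9)) rfl
      (gatB40 x) (gatB42 x) (gatB02 x) ?_)
    (thU (pinU hx hx')) rfl hκ (fun j q y => tC_eq j q y x) (esg_rng X.x0.le (by linarith [X.b, X.p0])).1 (mo_v x) le_rfl le_rfl
  · intro ρ a B hρ hd i h1 h2
    fin_cases i
    · exact corW_cert (G1 := gB4q0) (G2 := gB4q2) (Ga := gB0q2) (Gb := gB1q2) (D1 := dB4q0) (D2 := dB4q2) (Da := dB0q2) (Db := dB1q2) cA022E_ok B hρ hen (gatB40 x) (gatB42 x) (fun _ => gatB02 x) (fun _ => gatB12 x) (datB40 x) (datB42 x) (fun _ => datB02 x) (fun _ => datB12 x) hd hx hx' CW.A022E_440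
    · exact corW_cert (G1 := gB4q0) (G2 := gB4q2) (Ga := gB1q2) (Gb := gB2q2) (D1 := dB4q0) (D2 := dB4q2) (Da := dB1q2) (Db := dB2q2) cA022E_ok B hρ hen (gatB40 x) (gatB42 x) (fun _ => gatB12 x) (fun _ => gatB22 x) (datB40 x) (datB42 x) (fun _ => datB12 x) (fun _ => datB22 x) hd hx hx' CW.A022E_441
    · exact corW_cert (G1 := gB4q0) (G2 := gB4q2) (Ga := gB2q2) (Gb := gB3q2) (D1 := dB4q0) (D2 := dB4q2) (Da := dB2q2) (Db := dB3q2) cA022E_ok B hρ hen (gatB40 x) (gatB42 x) (fun _ => gatB22 x) (fun _ => gatB32 x) (datB40 x) (datB42 x) (fun _ => datB22 x) (fun _ => datB32 x) hd hx hx' CW.A022E_442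
    · exact corW_cert (G1 := gB4q0) (G2 := gB4q2) (Ga := gB3q2) (Gb := gB4q2) (D1 := dB4q0) (D2 := dB4q2) (Da := dB3q2) (Db := dB4q2) cA022E_ok B hρ hen (gatB40 x) (gatB42 x) (fun _ => gatB32 x) (fun _ => gatB42 x) (datB40 x) (datB42 x) (fun _ => datB32 x) (fun _ => datB42 x) hd hx hx' CW.A022E_443
    · exact corW_cert (G1 := gB4q0) (G2 := gB4q2) (Ga := gB4q2) (Gb := gB5q2) (D1 := dB4q0) (D2 := dB4q2) (Da := dB4q2) (Db := dB5q2) cA022E_ok B hρ hen (gatB40 x) (gatB42 x) (fun _ => gatB42 x) (fun h => absurd h (by decide)) (datB40 x) (datB42 x) (fun _ => datB42 x) (fun h => absurd h (by decide)) hd hx hx' CW.A022E_444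
    · exact absurd h2 (by norm_num)
    · exact absurd h2 (by norm_num)
    · exact absurd h2 (by norm_num)
  · intro ρ a B hρ hd i h1 h2
    fin_cases i
    · exact corT_cert (G1 := gB4q0) (G2 := gB4q2) (Ga := gB0q2) (Gb := gB1q2) cA022E_ok B hρ (gatB40 x) (gatB42 x) (fun _ => gatB02 x) (fun _ => gatB12 x) hd hx hx' CG.A022E_440
    · exact corT_cert (G1 := gB4q0) (G2 := gB4q2) (Ga := gB1q2) (Gb := gB2q2) cA022E_ok B hρ (gatB40 x) (gatB42 x) (fun _ => gatB12 x) (fun _ => gatB22 x) hd hx hx' CG.A022E_441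
    · exact corT_cert (G1 := gB4q0) (G2 := gB4q2) (Ga := gB2q2) (Gb := gB3q2) cA022E_ok B hρ (gatB40 x) (gatB42 x) (fun _ => gatB22 x) (fun _ => gatB32 x) hd hx hx' CG.A022E_442
    · exact corT_cert (G1 := gB4q0) (G2 := gB4q2) (Ga := gB3q2) (Gb := gB4q2) cA022E_ok B hρ (gatB40 x) (gatB42 x) (fun _ => gatB32 x) (fun _ => gatB42 x) hd hx hx' CG.A022E_443
    · exact corT_cert (G1 := gB4q0) (G2 := gB4q2) (Ga := gB4q2) (Gb := gB5q2) cA022E_ok B hρ (gatB40 x) (gatB42 x) (fun _ => gatB42 x) (fun h => absurd h (by decide)) hd hx hx' CG.A022E_444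
    · exact absurd h2 (by norm_num)
    · exact absurd h2 (by norm_num)
    · exact absurd h2 (by norm_num)

theorem altB_A022L_00 {κ x : ℝ} (hκ : κ * h0 = ken x) (hx : ((649613803 : ℕ) : ℝ) / S ≤ x) (hx' : x ≤ (((649613803 : ℕ) : ℝ) + (48318383 : ℕ)) / S) :
    AltEA 3 κ (eng.v x) (3 / 40) (tnt (h0 * x) (3 / 10)) PP tK tL tC pcB (scP esg pd) [⟨0, 0, 0, 53687091⟩, ⟨1, 1, 0, 53687091⟩, ⟨2, 1, 0, 53687091⟩] 0 2 2 0 0 (sgb true) (sgb true) x := by
  have X : XR 53687091 x := XR.of hx hx' (by norm_num) (by norm_num) (by norm_num) (by norm_num)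
  have hen : 0 < eng.v x := en_pos X.x0.le
  refine CornW.altA (C := cA022L) (j := (0 : Fin 9)) (k := (0 : Fin 9)) (Ef := esg) (pd := pd) (o := 3 / 40)
    (cornW_of (C := cA022L) (C0 := c0B) (En := eng) (mo := mog) (j := (0 : Fin 9)) (k := (0 : Fin 9)) (lo := 8) (hi := 8) (W := 53687091) (N0 := 3) cA022L_q (sideB hx hx') gokB (pinU hx hx') dokB X (by norm_num) (by norm_num) (l := (8 : Fin 9)) rfl
      (gatB00 x) (gatB02 x) (gatB82 x) (datB00 x) (datB02 x) (datB82 x) ?_)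
    (cornS_of (C := cA022L) (C0 := c0B) (j := (0 : Fin 9)) (k := (0 : Fin 9)) (lo := 8) (hi := 8) (W := 53687091) (N0 := 3) cA022L_q (sideB hx hx') gokB X (by norm_num) (by norm_num) (l := (8 : Fin 9)) rfl
      (gatB00 x) (gatB02 x) (gatB82 x) ?_)
    (thU (pinU hx hx')) rfl hκ (fun j q y => tC_eq j q y x) (esg_rng X.x0.le (by linarith [X.b, X.p0])).1 (mo_v x) le_rfl le_rfl
  · intro ρ a B hρ hd i h1 h2
    fin_cases i
    · exact absurd h1 (by norm_num)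
    · exact absurd h1 (by norm_num)
    · exact absurd h1 (by norm_num)
    · exact absurd h1 (by norm_num)
    · exact absurd h1 (by norm_num)
    · exact absurd h1 (by norm_num)
    · exact absurd h1 (by norm_num)
    · exact corW_cert (G1 := gB0q0) (G2 := gB0q2) (Ga := gB7q2) (Gb := gB8q2) (D1 := dB0q0) (D2 := dB0q2) (Da := dB7q2) (Db := dB8q2) cA022L_ok B hρ hen (gatB00 x) (gatB02 x) (fun h => absurd h (by decide)) (fun _ => gatB82 x) (datB00 x) (datB02 x) (fun h => absurd h (by decide)) (fun _ => datB82 x) hd hx hx' CW.A022L_007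
  · intro ρ a B hρ hd i h1 h2
    fin_cases i
    · exact absurd h1 (by norm_num)
    · exact absurd h1 (by norm_num)
    · exact absurd h1 (by norm_num)
    · exact absurd h1 (by norm_num)
    · exact absurd h1 (by norm_num)
    · exact absurd h1 (by norm_num)
    · exact absurd h1 (by norm_num)
    · exact corX_cert (G1 := gB0q0) (G2 := gB0q2) (Ga := gB7q2) (Gb := gB8q2) (GT := gB8q2) cA022L_ok tA022L_ok B hρ (gatB00 x) (gatB02 x) (fun h => absurd h (by decide)) (fun _ => gatB82 x) rfl (tgh_A022L (kodd x) (gpu0 x) (gpu2 x) (gpt2 x) (gatB00 x) (gatB02 x) (gatB82 x) B (le_sixteenth hd (by norm_num))) hd hx hx' CG.A022L_007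

end Pool.Agent.Strip051.G.I6050_6500.Tab
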