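import Pool.Agent.Strip051.G.I6050_6500.CrnB
import Pool.Agent.Strip051.G.I6050_6500.CG_0
import Pool.Agent.Strip051.G.I6050_6500.CG_1
import Pool.Agent.Strip051.G.I6050_6500.CW_0
import Pool.Agent.Strip051.G.I6050_6500.CW_1

/-! # Aligned corners: the alternatives (generated) -/

set_option linter.all false

namespace Pool.Agent.Strip051.G.I6050_6500.Tab

open Pool.Agent.Strip051.PB Pool.Agent.StripNear Pool.Agent.Strip051.LC

theorem altB_A022L_01 {κ x : ℝ} (hκ : κ * h0 = ken x) (hx : ((649613803 : ℕ) : ℝ) / S ≤ x) (hx' : x ≤ (((649613803 : ℕ) : ℝ) + (48318383 : ℕ)) / S) :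
    AltEA 3 κ (eng.v x) (3 / 40) (tnt (h0 * x) (3 / 10)) PP tK tL tC pcB (scP esg pd) [⟨0, 0, 0, 67108864⟩, ⟨1, 1, 0, 67108864⟩, ⟨2, 1, 0, 67108864⟩] 0 2 2 0 1 (sgb true) (sgb true) x := by
  have X : XR 67108864 x := XR.of hx hx' (by norm_num) (by norm_num) (by norm_num) (by norm_num)
  have hen : 0 < eng.v x := en_pos X.x0.le
  refine CornW.altA (C := cA022L) (j := (0 : Fin 9)) (k := (1 : Fin 9)) (Ef := esg) (pd := pd) (o := 3 / 40)
    (cornW_of (C := cA022L) (C0 := c0B) (En := eng) (mo := mog) (j := (0 : Fin 9)) (k := (1 : Fin 9)) (lo := 8) (hi := 8) (W := 67108864) (N0 := 3) cA022L_q (sideB hx hx') gokB (pinU hx hx') dokB X (by norm_num) (by norm_num) (l := (8 : Fin 9)) rfl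
      (gatB00 x) (gatB12 x) (gatB82 x) (datB00 x) (datB12 x) (datB82 x) ?_)
    (cornS_of (C := cA022L) (C0 := c0B) (j := (0 : Fin 9)) (k := (1 : Fin 9)) (lo := 8) (hi := 8) (W := 67108864) (N0 := 3) cA022L_q (sideB hx hx') gokB X (by norm_num) (by norm_num) (l := (8 : Fin 9)) rfl
      (gatB00 x) (gatB12 x) (gatB82 x) ?_)
    (thU (pinU hx hx')) rfl hκ (fun j q y => tC_eq j q y x) (esg_rng X.x0.le (by linarith [X.b, X.p0])).1 (mo_v x) le_rfl le_rfl
  · intro ρ a B hρ hd i h1 h2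
    fin_cases i
    · exact absurd h1 (by norm_num)
    · exact absurd h1 (by norm_num)
    · exact absurd h1 (by norm_num)
    · exact absurd h1 (by norm_num)
    · exact absurd h1 (by norm_num)
    · exact absurd h1 (by norm_num)
    · exact absurd h1 (by norm_num)
    · exact corW_cert (G1 := gB0q0) (G2 := gB1q2) (Ga := gB7q2) (Gb := gB8q2) (D1 := dB0q0) (D2 := dB1q2) (Da := dB7q2) (Db := dB8q2) cA022L_ok B hρ hen (gatB00 x) (gatB12 x) (fun h => absurd h (by decide)) (fun _ => gatB82 x) (datB00 x) (datB12 x) (fun h => absurd h (by decide)) (fun _ => datB82 x) hd hx hx' CW.A022L_017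
  · intro ρ a B hρ hd i h1 h2
    fin_cases i
    · exact absurd h1 (by norm_num)
    · exact absurd h1 (by norm_num)
    · exact absurd h1 (by norm_num)
    · exact absurd h1 (by norm_num)
    · exact absurd h1 (by norm_num)
    · exact absurd h1 (by norm_num)
    · exact absurd h1 (by norm_num)
    · exact corT_cert (G1 := gB0q0) (G2 := gB1q2) (Ga := gB7q2) (Gb := gB8q2) cA022L_ok B hρ (gatB00 x) (gatB12 x) (fun h => absurd h (by decide)) (fun _ => gatB82 x) hd hx hx' CG.A022L_017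

theorem altB_A022L_02 {κ x : ℝ} (hκ : κ * h0 = ken x) (hx : ((649613803 : ℕ) : ℝ) / S ≤ x) (hx' : x ≤ (((649613803 : ℕ) : ℝ) + (48318383 : ℕ)) / S) :
    AltEA 3 κ (eng.v x) (3 / 40) (tnt (h0 * x) (3 / 10)) PP tK tL tC pcB (scP esg pd) [⟨0, 0, 0, 67108864⟩, ⟨1, 1, 0, 67108864⟩, ⟨2, 1, 0, 67108864⟩] 0 2 2 0 2 (sgb true) (sgb true) x := by
  have X : XR 67108864 x := XR.of hx hx' (by norm_num) (by norm_num) (by norm_num) (by norm_num)
  have hen : 0 < eng.v x := en_pos X.x0.le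
  refine CornW.altA (C := cA022L) (j := (0 : Fin 9)) (k := (2 : Fin 9)) (Ef := esg) (pd := pd) (o := 3 / 40)
    (cornW_of (C := cA022L) (C0 := c0B) (En := eng) (mo := mog) (j := (0 : Fin 9)) (k := (2 : Fin 9)) (lo := 8) (hi := 8) (W := 67108864) (N0 := 3) cA022L_q (sideB hx hx') gokB (pinU hx hx') dokB X (by norm_num) (by norm_num) (l := (8 : Fin 9)) rfl
      (gatB00 x) (gatB22 x) (gatB82 x) (datB00 x) (datB22 x) (datB82 x) ?_)
    (cornS_of (C := cA022L) (C0 := c0B) (j := (0 : Fin 9)) (k := (2 : Fin 9)) (lo := 8) (hi := 8) (W := 67108864) (N0 := 3) cA022L_q (sideB hx hx') gokB X (by norm_num) (by norm_num) (l := (8 : Fin 9)) rfl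
      (gatB00 x) (gatB22 x) (gatB82 x) ?_)
    (thU (pinU hx hx')) rfl hκ (fun j q y => tC_eq j q y x) (esg_rng X.x0.le (by linarith [X.b, X.p0])).1 (mo_v x) le_rfl le_rfl
  · intro ρ a B hρ hd i h1 h2
    fin_cases i
    · exact absurd h1 (by norm_num)
    · exact absurd h1 (by norm_num)
    · exact absurd h1 (by norm_num)
    · exact absurd h1 (by norm_num)
    · exact absurd h1 (by norm_num)
    · exact absurd h1 (by norm_num)
    · exact absurd h1 (by norm_num)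
    · exact corW_cert (G1 := gB0q0) (G2 := gB2q2) (Ga := gB7q2) (Gb := gB8q2) (D1 := dB0q0) (D2 := dB2q2) (Da := dB7q2) (Db := dB8q2) cA022L_ok B hρ hen (gatB00 x) (gatB22 x) (fun h => absurd h (by decide)) (fun _ => gatB82 x) (datB00 x) (datB22 x) (fun h => absurd h (by decide)) (fun _ => datB82 x) hd hx hx' CW.A022L_027
  · intro ρ a B hρ hd i h1 h2
    fin_cases i
    · exact absurd h1 (by norm_num)
    · exact absurd h1 (by norm_num)
    · exact absurd h1 (by norm_num)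
    · exact absurd h1 (by norm_num)
    · exact absurd h1 (by norm_num)
    · exact absurd h1 (by norm_num)
    · exact absurd h1 (by norm_num)
    · exact corT_cert (G1 := gB0q0) (G2 := gB2q2) (Ga := gB7q2) (Gb := gB8q2) cA022L_ok B hρ (gatB00 x) (gatB22 x) (fun h => absurd h (by decide)) (fun _ => gatB82 x) hd hx hx' CG.A022L_027

theorem altB_A022L_03 {κ x : ℝ} (hκ : κ * h0 = ken x) (hx : ((649613803 : ℕ) : ℝ) / S ≤ x) (hx' : x ≤ (((649613803 : ℕ) : ℝ) + (48318383 : ℕ)) / S) :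
    AltEA 3 κ (eng.v x) (3 / 40) (tnt (h0 * x) (3 / 10)) PP tK tL tC pcB (scP esg pd) [⟨0, 0, 0, 67108864⟩, ⟨1, 1, 0, 67108864⟩, ⟨2, 1, 0, 67108864⟩] 0 2 2 0 3 (sgb true) (sgb true) x := by
  have X : XR 67108864 x := XR.of hx hx' (by norm_num) (by norm_num) (by norm_num) (by norm_num)
  have hen : 0 < eng.v x := en_pos X.x0.le
  refine CornW.altA (C := cA022L) (j := (0 : Fin 9)) (k := (3 : Fin 9)) (Ef := esg) (pd := pd) (o := 3 / 40)
    (cornW_of (C := cA022L) (C0 := c0B) (En := eng) (mo := mog) (j := (0 : Fin 9)) (k := (3 : Fin 9)) (lo := 8) (hi := 8) (W := 67108864) (N0 := 3) cA022L_q (sideB hx hx') gokB (pinU hx hx') dokB X (by norm_num) (by norm_num) (l := (8 : Fin 9)) rfl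
      (gatB00 x) (gatB32 x) (gatB82 x) (datB00 x) (datB32 x) (datB82 x) ?_)
    (cornS_of (C := cA022L) (C0 := c0B) (j := (0 : Fin 9)) (k := (3 : Fin 9)) (lo := 8) (hi := 8) (W := 67108864) (N0 := 3) cA022L_q (sideB hx hx') gokB X (by norm_num) (by norm_num) (l := (8 : Fin 9)) rfl
      (gatB00 x) (gatB32 x) (gatB82 x) ?_)
    (thU (pinU hx hx')) rfl hκ (fun j q y => tC_eq j q y x) (esg_rng X.x0.le (by linarith [X.b, X.p0])).1 (mo_v x) le_rfl le_rfl
  · intro ρ a B hρ hd i h1 h2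
    fin_cases i
    · exact absurd h1 (by norm_num)
    · exact absurd h1 (by norm_num)
    · exact absurd h1 (by norm_num)
    · exact absurd h1 (by norm_num)
    · exact absurd h1 (by norm_num)
    · exact absurd h1 (by norm_num)
    · exact absurd h1 (by norm_num)
    · exact corW_cert (G1 := gB0q0) (G2 := gB3q2) (Ga := gB7q2) (Gb := gB8q2) (D1 := dB0q0) (D2 := dB3q2) (Da := dB7q2) (Db := dB8q2) cA022L_ok B hρ hen (gatB00 x) (gatB32 x) (fun h => absurd h (by decide)) (fun _ => gatB82 x) (datB00 x) (datB32 x) (fun h => absurd h (by decide)) (fun _ => datB82 x) hd hx hx' CW.A022L_037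
  · intro ρ a B hρ hd i h1 h2
    fin_cases i
    · exact absurd h1 (by norm_num)
    · exact absurd h1 (by norm_num)
    · exact absurd h1 (by norm_num)
    · exact absurd h1 (by norm_num)
    · exact absurd h1 (by norm_num)
    · exact absurd h1 (by norm_num)
    · exact absurd h1 (by norm_num)
    · exact corT_cert (G1 := gB0q0) (G2 := gB3q2) (Ga := gB7q2) (Gb := gB8q2) cA022L_ok B hρ (gatB00 x) (gatB32 x) (fun h => absurd h (by decide)) (fun _ => gatB82 x) hd hx hx' CG.A022L_037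

theorem altB_A022L_04 {κ x : ℝ} (hκ : κ * h0 = ken x) (hx : ((649613803 : ℕ) : ℝ) / S ≤ x) (hx' : x ≤ (((649613803 : ℕ) : ℝ) + (48318383 : ℕ)) / S) :
    AltEA 3 κ (eng.v x) (3 / 40) (tnt (h0 * x) (3 / 10)) PP tK tL tC pcB (scP esg pd) [⟨0, 0, 0, 67108864⟩, ⟨1, 1, 0, 67108864⟩, ⟨2, 1, 0, 67108864⟩] 0 2 2 0 4 (sgb true) (sgb true) x := by
  have X : XR 67108864 x := XR.of hx hx' (by norm_num) (by norm_num) (by norm_num) (by norm_num)
  have hen : 0 < eng.v x := en_pos X.x0.le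
  refine CornW.altA (C := cA022L) (j := (0 : Fin 9)) (k := (4 : Fin 9)) (Ef := esg) (pd := pd) (o := 3 / 40)
    (cornW_of (C := cA022L) (C0 := c0B) (En := eng) (mo := mog) (j := (0 : Fin 9)) (k := (4 : Fin 9)) (lo := 8) (hi := 8) (W := 67108864) (N0 := 3) cA022L_q (sideB hx hx') gokB (pinU hx hx') dokB X (by norm_num) (by norm_num) (l := (8 : Fin 9)) rfl
      (gatB00 x) (gatB42 x) (gatB82 x) (datB00 x) (datB42 x) (datB82 x) ?_)
    (cornS_of (C := cA022L) (C0 := c0B) (j := (0 : Fin 9)) (k := (4 : Fin 9)) (lo := 8) (hi := 8) (W := 67108864) (N0 := 3) cA022L_q (sideB hx hx') gokB X (by norm_num) (by norm_num) (l := (8 : Fin 9)) rfl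
      (gatB00 x) (gatB42 x) (gatB82 x) ?_)
    (thU (pinU hx hx')) rfl hκ (fun j q y => tC_eq j q y x) (esg_rng X.x0.le (by linarith [X.b, X.p0])).1 (mo_v x) le_rfl le_rfl
  · intro ρ a B hρ hd i h1 h2
    fin_cases i
    · exact absurd h1 (by norm_num)
    · exact absurd h1 (by norm_num)
    · exact absurd h1 (by norm_num)
    · exact absurd h1 (by norm_num)
    · exact absurd h1 (by norm_num)
    · exact absurd h1 (by norm_num)
    · exact absurd h1 (by norm_num)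
    · exact corW_cert (G1 := gB0q0) (G2 := gB4q2) (Ga := gB7q2) (Gb := gB8q2) (D1 := dB0q0) (D2 := dB4q2) (Da := dB7q2) (Db := dB8q2) cA022L_ok B hρ hen (gatB00 x) (gatB42 x) (fun h => absurd h (by decide)) (fun _ => gatB82 x) (datB00 x) (datB42 x) (fun h => absurd h (by decide)) (fun _ => datB82 x) hd hx hx' CW.A022L_047
  · intro ρ a B hρ hd i h1 h2
    fin_cases i
    · exact absurd h1 (by norm_num)
    · exact absurd h1 (by norm_num)
    · exact absurd h1 (by norm_num)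
    · exact absurd h1 (by norm_num)
    · exact absurd h1 (by norm_num)
    · exact absurd h1 (by norm_num)
    · exact absurd h1 (by norm_num)
    · exact corT_cert (G1 := gB0q0) (G2 := gB4q2) (Ga := gB7q2) (Gb := gB8q2) cA022L_ok B hρ (gatB00 x) (gatB42 x) (fun h => absurd h (by decide)) (fun _ => gatB82 x) hd hx hx' CG.A022L_047

theorem altB_A022L_11 {κ x : ℝ} (hκ : κ * h0 = ken x) (hx : ((649613803 : ℕ) : ℝ) / S ≤ x) (hx' : x ≤ (((649613803 : ℕ) : ℝ) + (48318383 : ℕ)) / S) :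
    AltEA 3 κ (eng.v x) (3 / 40) (tnt (h0 * x) (3 / 10)) PP tK tL tC pcB (scP esg pd) [⟨0, 0, 0, 67108864⟩, ⟨1, 1, 0, 67108864⟩, ⟨2, 1, 0, 67108864⟩] 0 2 2 1 1 (sgb true) (sgb true) x := by
  have X : XR 67108864 x := XR.of hx hx' (by norm_num) (by norm_num) (by norm_num) (by norm_num)
  have hen : 0 < eng.v x := en_pos X.x0.le
  refine CornW.altA (C := cA022L) (j := (1 : Fin 9)) (k := (1 : Fin 9)) (Ef := esg) (pd := pd) (o := 3 / 40)
    (cornW_of (C := cA022L) (C0 := c0B) (En := eng) (mo := mog) (j := (1 : Fin 9)) (k := (1 : Fin 9)) (lo := 8) (hi := 8) (W := 67108864) (N0 := 3) cA022L_q (sideB hx hx') gokB (pinU hx hx') dokB X (by norm_num) (by norm_num) (l := (8 : Fin 9)) rfl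
      (gatB10 x) (gatB12 x) (gatB82 x) (datB10 x) (datB12 x) (datB82 x) ?_)
    (cornS_of (C := cA022L) (C0 := c0B) (j := (1 : Fin 9)) (k := (1 : Fin 9)) (lo := 8) (hi := 8) (W := 67108864) (N0 := 3) cA022L_q (sideB hx hx') gokB X (by norm_num) (by norm_num) (l := (8 : Fin 9)) rfl
      (gatB10 x) (gatB12 x) (gatB82 x) ?_)
    (thU (pinU hx hx')) rfl hκ (fun j q y => tC_eq j q y x) (esg_rng X.x0.le (by linarith [X.b, X.p0])).1 (mo_v x) le_rfl le_rfl
  · intro ρ a B hρ hd i h1 h2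
    fin_cases i
    · exact absurd h1 (by norm_num)
    · exact absurd h1 (by norm_num)
    · exact absurd h1 (by norm_num)
    · exact absurd h1 (by norm_num)
    · exact absurd h1 (by norm_num)
    · exact absurd h1 (by norm_num)
    · exact absurd h1 (by norm_num)
    · exact corW_cert (G1 := gB1q0) (G2 := gB1q2) (Ga := gB7q2) (Gb := gB8q2) (D1 := dB1q0) (D2 := dB1q2) (Da := dB7q2) (Db := dB8q2) cA022L_ok B hρ hen (gatB10 x) (gatB12 x) (fun h => absurd h (by decide)) (fun _ => gatB82 x) (datB10 x) (datB12 x) (fun h => absurd h (by decide)) (fun _ => datB82 x) hd hx hx' CW.A022L_117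
  · intro ρ a B hρ hd i h1 h2
    fin_cases i
    · exact absurd h1 (by norm_num)
    · exact absurd h1 (by norm_num)
    · exact absurd h1 (by norm_num)
    · exact absurd h1 (by norm_num)
    · exact absurd h1 (by norm_num)
    · exact absurd h1 (by norm_num)
    · exact absurd h1 (by norm_num)
    · exact corT_cert (G1 := gB1q0) (G2 := gB1q2) (Ga := gB7q2) (Gb := gB8q2) cA022L_ok B hρ (gatB10 x) (gatB12 x) (fun h => absurd h (by decide)) (fun _ => gatB82 x) hd hx hx' CG.A022L_117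

theorem altB_A022L_12 {κ x : ℝ} (hκ : κ * h0 = ken x) (hx : ((649613803 : ℕ) : ℝ) / S ≤ x) (hx' : x ≤ (((649613803 : ℕ) : ℝ) + (48318383 : ℕ)) / S) :
    AltEA 3 κ (eng.v x) (3 / 40) (tnt (h0 * x) (3 / 10)) PP tK tL tC pcB (scP esg pd) [⟨0, 0, 0, 67108864⟩, ⟨1, 1, 0, 67108864⟩, ⟨2, 1, 0, 67108864⟩] 0 2 2 1 2 (sgb true) (sgb true) x := by
  have X : XR 67108864 x := XR.of hx hx' (by norm_num) (by norm_num) (by norm_num) (by norm_num)
  have hen : 0 < eng.v x := en_pos X.x0.le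
  refine CornW.altA (C := cA022L) (j := (1 : Fin 9)) (k := (2 : Fin 9)) (Ef := esg) (pd := pd) (o := 3 / 40)
    (cornW_of (C := cA022L) (C0 := c0B) (En := eng) (mo := mog) (j := (1 : Fin 9)) (k := (2 : Fin 9)) (lo := 8) (hi := 8) (W := 67108864) (N0 := 3) cA022L_q (sideB hx hx') gokB (pinU hx hx') dokB X (by norm_num) (by norm_num) (l := (8 : Fin 9)) rfl
      (gatB10 x) (gatB22 x) (gatB82 x) (datB10 x) (datB22 x) (datB82 x) ?_)
    (cornS_of (C := cA022L) (C0 := c0B) (j := (1 : Fin 9)) (k := (2 : Fin 9)) (lo := 8) (hi := 8) (W := 67108864) (N0 := 3) cA022L_q (sideB hx hx') gokB X (by norm_num) (by norm_num) (l := (8 : Fin 9)) rfl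
      (gatB10 x) (gatB22 x) (gatB82 x) ?_)
    (thU (pinU hx hx')) rfl hκ (fun j q y => tC_eq j q y x) (esg_rng X.x0.le (by linarith [X.b, X.p0])).1 (mo_v x) le_rfl le_rfl
  · intro ρ a B hρ hd i h1 h2
    fin_cases i
    · exact absurd h1 (by norm_num)
    · exact absurd h1 (by norm_num)
    · exact absurd h1 (by norm_num)
    · exact absurd h1 (by norm_num)
    · exact absurd h1 (by norm_num)
    · exact absurd h1 (by norm_num)
    · exact absurd h1 (by norm_num)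
    · exact corW_cert (G1 := gB1q0) (G2 := gB2q2) (Ga := gB7q2) (Gb := gB8q2) (D1 := dB1q0) (D2 := dB2q2) (Da := dB7q2) (Db := dB8q2) cA022L_ok B hρ hen (gatB10 x) (gatB22 x) (fun h => absurd h (by decide)) (fun _ => gatB82 x) (datB10 x) (datB22 x) (fun h => absurd h (by decide)) (fun _ => datB82 x) hd hx hx' CW.A022L_127
  · intro ρ a B hρ hd i h1 h2
    fin_cases i
    · exact absurd h1 (by norm_num)
    · exact absurd h1 (by norm_num)
    · exact absurd h1 (by norm_num)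
    · exact absurd h1 (by norm_num)
    · exact absurd h1 (by norm_num)
    · exact absurd h1 (by norm_num)
    · exact absurd h1 (by norm_num)
    · exact corT_cert (G1 := gB1q0) (G2 := gB2q2) (Ga := gB7q2) (Gb := gB8q2) cA022L_ok B hρ (gatB10 x) (gatB22 x) (fun h => absurd h (by decide)) (fun _ => gatB82 x) hd hx hx' CG.A022L_127

theorem altB_A022L_13 {κ x : ℝ} (hκ : κ * h0 = ken x) (hx : ((649613803 : ℕ) : ℝ) / S ≤ x) (hx' : x ≤ (((649613803 : ℕ) : ℝ) + (48318383 : ℕ)) / S) :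
    AltEA 3 κ (eng.v x) (3 / 40) (tnt (h0 * x) (3 / 10)) PP tK tL tC pcB (scP esg pd) [⟨0, 0, 0, 67108864⟩, ⟨1, 1, 0, 67108864⟩, ⟨2, 1, 0, 67108864⟩] 0 2 2 1 3 (sgb true) (sgb true) x := by
  have X : XR 67108864 x := XR.of hx hx' (by norm_num) (by norm_num) (by norm_num) (by norm_num)
  have hen : 0 < eng.v x := en_pos X.x0.le
  refine CornW.altA (C := cA022L) (j := (1 : Fin 9)) (k := (3 : Fin 9)) (Ef := esg) (pd := pd) (o := 3 / 40)
    (cornW_of (C := cA022L) (C0 := c0B) (En := eng) (mo := mog) (j := (1 : Fin 9)) (k := (3 : Fin 9)) (lo := 8) (hi := 8) (W := 67108864) (N0 := 3) cA022L_q (sideB hx hx') gokB (pinU hx hx') dokB X (by norm_num) (by norm_num) (l := (8 : Fin 9)) rfl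
      (gatB10 x) (gatB32 x) (gatB82 x) (datB10 x) (datB32 x) (datB82 x) ?_)
    (cornS_of (C := cA022L) (C0 := c0B) (j := (1 : Fin 9)) (k := (3 : Fin 9)) (lo := 8) (hi := 8) (W := 67108864) (N0 := 3) cA022L_q (sideB hx hx') gokB X (by norm_num) (by norm_num) (l := (8 : Fin 9)) rfl
      (gatB10 x) (gatB32 x) (gatB82 x) ?_)
    (thU (pinU hx hx')) rfl hκ (fun j q y => tC_eq j q y x) (esg_rng X.x0.le (by linarith [X.b, X.p0])).1 (mo_v x) le_rfl le_rfl
  · intro ρ a B hρ hd i h1 h2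
    fin_cases i
    · exact absurd h1 (by norm_num)
    · exact absurd h1 (by norm_num)
    · exact absurd h1 (by norm_num)
    · exact absurd h1 (by norm_num)
    · exact absurd h1 (by norm_num)
    · exact absurd h1 (by norm_num)
    · exact absurd h1 (by norm_num)
    · exact corW_cert (G1 := gB1q0) (G2 := gB3q2) (Ga := gB7q2) (Gb := gB8q2) (D1 := dB1q0) (D2 := dB3q2) (Da := dB7q2) (Db := dB8q2) cA022L_ok B hρ hen (gatB10 x) (gatB32 x) (fun h => absurd h (by decide)) (fun _ => gatB82 x) (datB10 x) (datB32 x) (fun h => absurd h (by decide)) (fun _ => datB82 x) hd hx hx' CW.A022L_137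
  · intro ρ a B hρ hd i h1 h2
    fin_cases i
    · exact absurd h1 (by norm_num)
    · exact absurd h1 (by norm_num)
    · exact absurd h1 (by norm_num)
    · exact absurd h1 (by norm_num)
    · exact absurd h1 (by norm_num)
    · exact absurd h1 (by norm_num)
    · exact absurd h1 (by norm_num)
    · exact corT_cert (G1 := gB1q0) (G2 := gB3q2) (Ga := gB7q2) (Gb := gB8q2) cA022L_ok B hρ (gatB10 x) (gatB32 x) (fun h => absurd h (by decide)) (fun _ => gatB82 x) hd hx hx' CG.A022L_137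

theorem altB_A022L_14 {κ x : ℝ} (hκ : κ * h0 = ken x) (hx : ((649613803 : ℕ) : ℝ) / S ≤ x) (hx' : x ≤ (((649613803 : ℕ) : ℝ) + (48318383 : ℕ)) / S) :
    AltEA 3 κ (eng.v x) (3 / 40) (tnt (h0 * x) (3 / 10)) PP tK tL tC pcB (scP esg pd) [⟨0, 0, 0, 67108864⟩, ⟨1, 1, 0, 67108864⟩, ⟨2, 1, 0, 67108864⟩] 0 2 2 1 4 (sgb true) (sgb true) x := by
  have X : XR 67108864 x := XR.of hx hx' (by norm_num) (by norm_num) (by norm_num) (by norm_num)
  have hen : 0 < eng.v x := en_pos X.x0.le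
  refine CornW.altA (C := cA022L) (j := (1 : Fin 9)) (k := (4 : Fin 9)) (Ef := esg) (pd := pd) (o := 3 / 40)
    (cornW_of (C := cA022L) (C0 := c0B) (En := eng) (mo := mog) (j := (1 : Fin 9)) (k := (4 : Fin 9)) (lo := 8) (hi := 8) (W := 67108864) (N0 := 3) cA022L_q (sideB hx hx') gokB (pinU hx hx') dokB X (by norm_num) (by norm_num) (l := (8 : Fin 9)) rfl
      (gatB10 x) (gatB42 x) (gatB82 x) (datB10 x) (datB42 x) (datB82 x) ?_)
    (cornS_of (C := cA022L) (C0 := c0B) (j := (1 : Fin 9)) (k := (4 : Fin 9)) (lo := 8) (hi := 8) (W := 67108864) (N0 := 3) cA022L_q (sideB hx hx') gokB X (by norm_num) (by norm_num) (l := (8 : Fin 9)) rfl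
      (gatB10 x) (gatB42 x) (gatB82 x) ?_)
    (thU (pinU hx hx')) rfl hκ (fun j q y => tC_eq j q y x) (esg_rng X.x0.le (by linarith [X.b, X.p0])).1 (mo_v x) le_rfl le_rfl
  · intro ρ a B hρ hd i h1 h2
    fin_cases i
    · exact absurd h1 (by norm_num)
    · exact absurd h1 (by norm_num)
    · exact absurd h1 (by norm_num)
    · exact absurd h1 (by norm_num)
    · exact absurd h1 (by norm_num)
    · exact absurd h1 (by norm_num)
    · exact absurd h1 (by norm_num)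
    · exact corW_cert (G1 := gB1q0) (G2 := gB4q2) (Ga := gB7q2) (Gb := gB8q2) (D1 := dB1q0) (D2 := dB4q2) (Da := dB7q2) (Db := dB8q2) cA022L_ok B hρ hen (gatB10 x) (gatB42 x) (fun h => absurd h (by decide)) (fun _ => gatB82 x) (datB10 x) (datB42 x) (fun h => absurd h (by decide)) (fun _ => datB82 x) hd hx hx' CW.A022L_147
  · intro ρ a B hρ hd i h1 h2
    fin_cases i
    · exact absurd h1 (by norm_num)
    · exact absurd h1 (by norm_num)
    · exact absurd h1 (by norm_num)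
    · exact absurd h1 (by norm_num)
    · exact absurd h1 (by norm_num)
    · exact absurd h1 (by norm_num)
    · exact absurd h1 (by norm_num)
    · exact corT_cert (G1 := gB1q0) (G2 := gB4q2) (Ga := gB7q2) (Gb := gB8q2) cA022L_ok B hρ (gatB10 x) (gatB42 x) (fun h => absurd h (by decide)) (fun _ => gatB82 x) hd hx hx' CG.A022L_147

theorem altB_A022L_22 {κ x : ℝ} (hκ : κ * h0 = ken x) (hx : ((649613803 : ℕ) : ℝ) / S ≤ x) (hx' : x ≤ (((649613803 : ℕ) : ℝ) + (48318383 : ℕ)) / S) :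
    AltEA 3 κ (eng.v x) (3 / 40) (tnt (h0 * x) (3 / 10)) PP tK tL tC pcB (scP esg pd) [⟨0, 0, 0, 67108864⟩, ⟨1, 1, 0, 67108864⟩, ⟨2, 1, 0, 67108864⟩] 0 2 2 2 2 (sgb true) (sgb true) x := by
  have X : XR 67108864 x := XR.of hx hx' (by norm_num) (by norm_num) (by norm_num) (by norm_num)
  have hen : 0 < eng.v x := en_pos X.x0.le
  refine CornW.altA (C := cA022L) (j := (2 : Fin 9)) (k := (2 : Fin 9)) (Ef := esg) (pd := pd) (o := 3 / 40)
    (cornW_of (C := cA022L) (C0 := c0B) (En := eng) (mo := mog) (j := (2 : Fin 9)) (k := (2 : Fin 9)) (lo := 8) (hi := 8) (W := 67108864) (N0 := 3) cA022L_q (sideB hx hx') gokB (pinU hx hx') dokB X (by norm_num) (by norm_num) (l := (8 : Fin 9)) rfl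
      (gatB20 x) (gatB22 x) (gatB82 x) (datB20 x) (datB22 x) (datB82 x) ?_)
    (cornS_of (C := cA022L) (C0 := c0B) (j := (2 : Fin 9)) (k := (2 : Fin 9)) (lo := 8) (hi := 8) (W := 67108864) (N0 := 3) cA022L_q (sideB hx hx') gokB X (by norm_num) (by norm_num) (l := (8 : Fin 9)) rfl
      (gatB20 x) (gatB22 x) (gatB82 x) ?_)
    (thU (pinU hx hx')) rfl hκ (fun j q y => tC_eq j q y x) (esg_rng X.x0.le (by linarith [X.b, X.p0])).1 (mo_v x) le_rfl le_rfl
  · intro ρ a B hρ hd i h1 h2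
    fin_cases i
    · exact absurd h1 (by norm_num)
    · exact absurd h1 (by norm_num)
    · exact absurd h1 (by norm_num)
    · exact absurd h1 (by norm_num)
    · exact absurd h1 (by norm_num)
    · exact absurd h1 (by norm_num)
    · exact absurd h1 (by norm_num)
    · exact corW_cert (G1 := gB2q0) (G2 := gB2q2) (Ga := gB7q2) (Gb := gB8q2) (D1 := dB2q0) (D2 := dB2q2) (Da := dB7q2) (Db := dB8q2) cA022L_ok B hρ hen (gatB20 x) (gatB22 x) (fun h => absurd h (by decide)) (fun _ => gatB82 x) (datB20 x) (datB22 x) (fun h => absurd h (by decide)) (fun _ => datB82 x) hd hx hx' CW.A022L_227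
  · intro ρ a B hρ hd i h1 h2
    fin_cases i
    · exact absurd h1 (by norm_num)
    · exact absurd h1 (by norm_num)
    · exact absurd h1 (by norm_num)
    · exact absurd h1 (by norm_num)
    · exact absurd h1 (by norm_num)
    · exact absurd h1 (by norm_num)
    · exact absurd h1 (by norm_num)
    · exact corT_cert (G1 := gB2q0) (G2 := gB2q2) (Ga := gB7q2) (Gb := gB8q2) cA022L_ok B hρ (gatB20 x) (gatB22 x) (fun h => absurd h (by decide)) (fun _ => gatB82 x) hd hx hx' CG.A022L_227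

theorem altB_A022L_23 {κ x : ℝ} (hκ : κ * h0 = ken x) (hx : ((649613803 : ℕ) : ℝ) / S ≤ x) (hx' : x ≤ (((649613803 : ℕ) : ℝ) + (48318383 : ℕ)) / S) :
    AltEA 3 κ (eng.v x) (3 / 40) (tnt (h0 * x) (3 / 10)) PP tK tL tC pcB (scP esg pd) [⟨0, 0, 0, 67108864⟩, ⟨1, 1, 0, 67108864⟩, ⟨2, 1, 0, 67108864⟩] 0 2 2 2 3 (sgb true) (sgb true) x := by
  have X : XR 67108864 x := XR.of hx hx' (by norm_num) (by norm_num) (by norm_num) (by norm_num)
  have hen : 0 < eng.v x := en_pos X.x0.le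
  refine CornW.altA (C := cA022L) (j := (2 : Fin 9)) (k := (3 : Fin 9)) (Ef := esg) (pd := pd) (o := 3 / 40)
    (cornW_of (C := cA022L) (C0 := c0B) (En := eng) (mo := mog) (j := (2 : Fin 9)) (k := (3 : Fin 9)) (lo := 8) (hi := 8) (W := 67108864) (N0 := 3) cA022L_q (sideB hx hx') gokB (pinU hx hx') dokB X (by norm_num) (by norm_num) (l := (8 : Fin 9)) rfl
      (gatB20 x) (gatB32 x) (gatB82 x) (datB20 x) (datB32 x) (datB82 x) ?_)
    (cornS_of (C := cA022L) (C0 := c0B) (j := (2 : Fin 9)) (k := (3 : Fin 9)) (lo := 8) (hi := 8) (W := 67108864) (N0 := 3) cA022L_q (sideB hx hx') gokB X (by norm_num) (by norm_num) (l := (8 : Fin 9)) rfl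
      (gatB20 x) (gatB32 x) (gatB82 x) ?_)
    (thU (pinU hx hx')) rfl hκ (fun j q y => tC_eq j q y x) (esg_rng X.x0.le (by linarith [X.b, X.p0])).1 (mo_v x) le_rfl le_rfl
  · intro ρ a B hρ hd i h1 h2
    fin_cases i
    · exact absurd h1 (by norm_num)
    · exact absurd h1 (by norm_num)
    · exact absurd h1 (by norm_num)
    · exact absurd h1 (by norm_num)
    · exact absurd h1 (by norm_num)
    · exact absurd h1 (by norm_num)
    · exact absurd h1 (by norm_num)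
    · exact corW_cert (G1 := gB2q0) (G2 := gB3q2) (Ga := gB7q2) (Gb := gB8q2) (D1 := dB2q0) (D2 := dB3q2) (Da := dB7q2) (Db := dB8q2) cA022L_ok B hρ hen (gatB20 x) (gatB32 x) (fun h => absurd h (by decide)) (fun _ => gatB82 x) (datB20 x) (datB32 x) (fun h => absurd h (by decide)) (fun _ => datB82 x) hd hx hx' CW.A022L_237
  · intro ρ a B hρ hd i h1 h2
    fin_cases i
    · exact absurd h1 (by norm_num)
    · exact absurd h1 (by norm_num)
    · exact absurd h1 (by norm_num)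
    · exact absurd h1 (by norm_num)
    · exact absurd h1 (by norm_num)
    · exact absurd h1 (by norm_num)
    · exact absurd h1 (by norm_num)
    · exact corT_cert (G1 := gB2q0) (G2 := gB3q2) (Ga := gB7q2) (Gb := gB8q2) cA022L_ok B hρ (gatB20 x) (gatB32 x) (fun h => absurd h (by decide)) (fun _ => gatB82 x) hd hx hx' CG.A022L_237

theorem altB_A022L_24 {κ x : ℝ} (hκ : κ * h0 = ken x) (hx : ((649613803 : ℕ) : ℝ) / S ≤ x) (hx' : x ≤ (((649613803 : ℕ) : ℝ) + (48318383 : ℕ)) / S) :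
    AltEA 3 κ (eng.v x) (3 / 40) (tnt (h0 * x) (3 / 10)) PP tK tL tC pcB (scP esg pd) [⟨0, 0, 0, 67108864⟩, ⟨1, 1, 0, 67108864⟩, ⟨2, 1, 0, 67108864⟩] 0 2 2 2 4 (sgb true) (sgb true) x := by
  have X : XR 67108864 x := XR.of hx hx' (by norm_num) (by norm_num) (by norm_num) (by norm_num)
  have hen : 0 < eng.v x := en_pos X.x0.le
  refine CornW.altA (C := cA022L) (j := (2 : Fin 9)) (k := (4 : Fin 9)) (Ef := esg) (pd := pd) (o := 3 / 40)
    (cornW_of (C := cA022L) (C0 := c0B) (En := eng) (mo := mog) (j := (2 : Fin 9)) (k := (4 : Fin 9)) (lo := 8) (hi := 8) (W := 67108864) (N0 := 3) cA022L_q (sideB hx hx') gokB (pinU hx hx') dokB X (by norm_num) (by norm_num) (l := (8 : Fin 9)) rfl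
      (gatB20 x) (gatB42 x) (gatB82 x) (datB20 x) (datB42 x) (datB82 x) ?_)
    (cornS_of (C := cA022L) (C0 := c0B) (j := (2 : Fin 9)) (k := (4 : Fin 9)) (lo := 8) (hi := 8) (W := 67108864) (N0 := 3) cA022L_q (sideB hx hx') gokB X (by norm_num) (by norm_num) (l := (8 : Fin 9)) rfl
      (gatB20 x) (gatB42 x) (gatB82 x) ?_)
    (thU (pinU hx hx')) rfl hκ (fun j q y => tC_eq j q y x) (esg_rng X.x0.le (by linarith [X.b, X.p0])).1 (mo_v x) le_rfl le_rfl
  · intro ρ a B hρ hd i h1 h2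
    fin_cases i
    · exact absurd h1 (by norm_num)
    · exact absurd h1 (by norm_num)
    · exact absurd h1 (by norm_num)
    · exact absurd h1 (by norm_num)
    · exact absurd h1 (by norm_num)
    · exact absurd h1 (by norm_num)
    · exact absurd h1 (by norm_num)
    · exact corW_cert (G1 := gB2q0) (G2 := gB4q2) (Ga := gB7q2) (Gb := gB8q2) (D1 := dB2q0) (D2 := dB4q2) (Da := dB7q2) (Db := dB8q2) cA022L_ok B hρ hen (gatB20 x) (gatB42 x) (fun h => absurd h (by decide)) (fun _ => gatB82 x) (datB20 x) (datB42 x) (fun h => absurd h (by decide)) (fun _ => datB82 x) hd hx hx' CW.A022L_247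
  · intro ρ a B hρ hd i h1 h2
    fin_cases i
    · exact absurd h1 (by norm_num)
    · exact absurd h1 (by norm_num)
    · exact absurd h1 (by norm_num)
    · exact absurd h1 (by norm_num)
    · exact absurd h1 (by norm_num)
    · exact absurd h1 (by norm_num)
    · exact absurd h1 (by norm_num)
    · exact corT_cert (G1 := gB2q0) (G2 := gB4q2) (Ga := gB7q2) (Gb := gB8q2) cA022L_ok B hρ (gatB20 x) (gatB42 x) (fun h => absurd h (by decide)) (fun _ => gatB82 x) hd hx hx' CG.A022L_247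

theorem altB_A022L_33 {κ x : ℝ} (hκ : κ * h0 = ken x) (hx : ((649613803 : ℕ) : ℝ) / S ≤ x) (hx' : x ≤ (((649613803 : ℕ) : ℝ) + (48318383 : ℕ)) / S) :
    AltEA 3 κ (eng.v x) (3 / 40) (tnt (h0 * x) (3 / 10)) PP tK tL tC pcB (scP esg pd) [⟨0, 0, 0, 67108864⟩, ⟨1, 1, 0, 67108864⟩, ⟨2, 1, 0, 67108864⟩] 0 2 2 3 3 (sgb true) (sgb true) x := by
  have X : XR 67108864 x := XR.of hx hx' (by norm_num) (by norm_num) (by norm_num) (by norm_num)
  have hen : 0 < eng.v x := en_pos X.x0.le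
  refine CornW.altA (C := cA022L) (j := (3 : Fin 9)) (k := (3 : Fin 9)) (Ef := esg) (pd := pd) (o := 3 / 40)
    (cornW_of (C := cA022L) (C0 := c0B) (En := eng) (mo := mog) (j := (3 : Fin 9)) (k := (3 : Fin 9)) (lo := 8) (hi := 8) (W := 67108864) (N0 := 3) cA022L_q (sideB hx hx') gokB (pinU hx hx') dokB X (by norm_num) (by norm_num) (l := (8 : Fin 9)) rfl
      (gatB30 x) (gatB32 x) (gatB82 x) (datB30 x) (datB32 x) (datB82 x) ?_)
    (cornS_of (C := cA022L) (C0 := c0B) (j := (3 : Fin 9)) (k := (3 : Fin 9)) (lo := 8) (hi := 8) (W := 67108864) (N0 := 3) cA022L_q (sideB hx hx') gokB X (by norm_num) (by norm_num) (l := (8 : Fin 9)) rfl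
      (gatB30 x) (gatB32 x) (gatB82 x) ?_)
    (thU (pinU hx hx')) rfl hκ (fun j q y => tC_eq j q y x) (esg_rng X.x0.le (by linarith [X.b, X.p0])).1 (mo_v x) le_rfl le_rfl
  · intro ρ a B hρ hd i h1 h2
    fin_cases i
    · exact absurd h1 (by norm_num)
    · exact absurd h1 (by norm_num)
    · exact absurd h1 (by norm_num)
    · exact absurd h1 (by norm_num)
    · exact absurd h1 (by norm_num)
    · exact absurd h1 (by norm_num)
    · exact absurd h1 (by norm_num)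
    · exact corW_cert (G1 := gB3q0) (G2 := gB3q2) (Ga := gB7q2) (Gb := gB8q2) (D1 := dB3q0) (D2 := dB3q2) (Da := dB7q2) (Db := dB8q2) cA022L_ok B hρ hen (gatB30 x) (gatB32 x) (fun h => absurd h (by decide)) (fun _ => gatB82 x) (datB30 x) (datB32 x) (fun h => absurd h (by decide)) (fun _ => datB82 x) hd hx hx' CW.A022L_337
  · intro ρ a B hρ hd i h1 h2
    fin_cases i
    · exact absurd h1 (by norm_num)
    · exact absurd h1 (by norm_num)
    · exact absurd h1 (by norm_num)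
    · exact absurd h1 (by norm_num)
    · exact absurd h1 (by norm_num)
    · exact absurd h1 (by norm_num)
    · exact absurd h1 (by norm_num)
    · exact corT_cert (G1 := gB3q0) (G2 := gB3q2) (Ga := gB7q2) (Gb := gB8q2) cA022L_ok B hρ (gatB30 x) (gatB32 x) (fun h => absurd h (by decide)) (fun _ => gatB82 x) hd hx hx' CG.A022L_337

theorem altB_A022L_34 {κ x : ℝ} (hκ : κ * h0 = ken x) (hx : ((649613803 : ℕ) : ℝ) / S ≤ x) (hx' : x ≤ (((649613803 : ℕ) : ℝ) + (48318383 : ℕ)) / S) :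
    AltEA 3 κ (eng.v x) (3 / 40) (tnt (h0 * x) (3 / 10)) PP tK tL tC pcB (scP esg pd) [⟨0, 0, 0, 67108864⟩, ⟨1, 1, 0, 67108864⟩, ⟨2, 1, 0, 67108864⟩] 0 2 2 3 4 (sgb true) (sgb true) x := by
  have X : XR 67108864 x := XR.of hx hx' (by norm_num) (by norm_num) (by norm_num) (by norm_num)
  have hen : 0 < eng.v x := en_pos X.x0.le
  refine CornW.altA (C := cA022L) (j := (3 : Fin 9)) (k := (4 : Fin 9)) (Ef := esg) (pd := pd) (o := 3 / 40)
    (cornW_of (C := cA022L) (C0 := c0B) (En := eng) (mo := mog) (j := (3 : Fin 9)) (k := (4 : Fin 9)) (lo := 8) (hi := 8) (W := 67108864) (N0 := 3) cA022L_q (sideB hx hx') gokB (pinU hx hx') dokB X (by norm_num) (by norm_num) (l := (8 : Fin 9)) rfl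
      (gatB30 x) (gatB42 x) (gatB82 x) (datB30 x) (datB42 x) (datB82 x) ?_)
    (cornS_of (C := cA022L) (C0 := c0B) (j := (3 : Fin 9)) (k := (4 : Fin 9)) (lo := 8) (hi := 8) (W := 67108864) (N0 := 3) cA022L_q (sideB hx hx') gokB X (by norm_num) (by norm_num) (l := (8 : Fin 9)) rfl
      (gatB30 x) (gatB42 x) (gatB82 x) ?_)
    (thU (pinU hx hx')) rfl hκ (fun j q y => tC_eq j q y x) (esg_rng X.x0.le (by linarith [X.b, X.p0])).1 (mo_v x) le_rfl le_rfl
  · intro ρ a B hρ hd i h1 h2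
    fin_cases i
    · exact absurd h1 (by norm_num)
    · exact absurd h1 (by norm_num)
    · exact absurd h1 (by norm_num)
    · exact absurd h1 (by norm_num)
    · exact absurd h1 (by norm_num)
    · exact absurd h1 (by norm_num)
    · exact absurd h1 (by norm_num)
    · exact corW_cert (G1 := gB3q0) (G2 := gB4q2) (Ga := gB7q2) (Gb := gB8q2) (D1 := dB3q0) (D2 := dB4q2) (Da := dB7q2) (Db := dB8q2) cA022L_ok B hρ hen (gatB30 x) (gatB42 x) (fun h => absurd h (by decide)) (fun _ => gatB82 x) (datB30 x) (datB42 x) (fun h => absurd h (by decide)) (fun _ => datB82 x) hd hx hx' CW.A022L_347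
  · intro ρ a B hρ hd i h1 h2
    fin_cases i
    · exact absurd h1 (by norm_num)
    · exact absurd h1 (by norm_num)
    · exact absurd h1 (by norm_num)
    · exact absurd h1 (by norm_num)
    · exact absurd h1 (by norm_num)
    · exact absurd h1 (by norm_num)
    · exact absurd h1 (by norm_num)
    · exact corT_cert (G1 := gB3q0) (G2 := gB4q2) (Ga := gB7q2) (Gb := gB8q2) cA022L_ok B hρ (gatB30 x) (gatB42 x) (fun h => absurd h (by decide)) (fun _ => gatB82 x) hd hx hx' CG.A022L_347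

theorem altB_A022L_44 {κ x : ℝ} (hκ : κ * h0 = ken x) (hx : ((649613803 : ℕ) : ℝ) / S ≤ x) (hx' : x ≤ (((649613803 : ℕ) : ℝ) + (48318383 : ℕ)) / S) :
    AltEA 3 κ (eng.v x) (3 / 40) (tnt (h0 * x) (3 / 10)) PP tK tL tC pcB (scP esg pd) [⟨0, 0, 0, 67108864⟩, ⟨1, 1, 0, 67108864⟩, ⟨2, 1, 0, 67108864⟩] 0 2 2 4 4 (sgb true) (sgb true) x := by
  have X : XR 67108864 x := XR.of hx hx' (by norm_num) (by norm_num) (by norm_num) (by norm_num)
  have hen : 0 < eng.v x := en_pos X.x0.le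
  refine CornW.altA (C := cA022L) (j := (4 : Fin 9)) (k := (4 : Fin 9)) (Ef := esg) (pd := pd) (o := 3 / 40)
    (cornW_of (C := cA022L) (C0 := c0B) (En := eng) (mo := mog) (j := (4 : Fin 9)) (k := (4 : Fin 9)) (lo := 8) (hi := 8) (W := 67108864) (N0 := 3) cA022L_q (sideB hx hx') gokB (pinU hx hx') dokB X (by norm_num) (by norm_num) (l := (8 : Fin 9)) rfl
      (gatB40 x) (gatB42 x) (gatB82 x) (datB40 x) (datB42 x) (datB82 x) ?_)
    (cornS_of (C := cA022L) (C0 := c0B) (j := (4 : Fin 9)) (k := (4 : Fin 9)) (lo := 8) (hi := 8) (W := 67108864) (N0 := 3) cA022L_q (sideB hx hx') gokB X (by norm_num) (by norm_num) (l := (8 : Fin 9)) rfl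
      (gatB40 x) (gatB42 x) (gatB82 x) ?_)
    (thU (pinU hx hx')) rfl hκ (fun j q y => tC_eq j q y x) (esg_rng X.x0.le (by linarith [X.b, X.p0])).1 (mo_v x) le_rfl le_rfl
  · intro ρ a B hρ hd i h1 h2
    fin_cases i
    · exact absurd h1 (by norm_num)
    · exact absurd h1 (by norm_num)
    · exact absurd h1 (by norm_num)
    · exact absurd h1 (by norm_num)
    · exact absurd h1 (by norm_num)
    · exact absurd h1 (by norm_num)
    · exact absurd h1 (by norm_num)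
    · exact corW_cert (G1 := gB4q0) (G2 := gB4q2) (Ga := gB7q2) (Gb := gB8q2) (D1 := dB4q0) (D2 := dB4q2) (Da := dB7q2) (Db := dB8q2) cA022L_ok B hρ hen (gatB40 x) (gatB42 x) (fun h => absurd h (by decide)) (fun _ => gatB82 x) (datB40 x) (datB42 x) (fun h => absurd h (by decide)) (fun _ => datB82 x) hd hx hx' CW.A022L_447
  · intro ρ a B hρ hd i h1 h2
    fin_cases i
    · exact absurd h1 (by norm_num)
    · exact absurd h1 (by norm_num)
    · exact absurd h1 (by norm_num)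
    · exact absurd h1 (by norm_num)
    · exact absurd h1 (by norm_num)
    · exact absurd h1 (by norm_num)
    · exact absurd h1 (by norm_num)
    · exact corT_cert (G1 := gB4q0) (G2 := gB4q2) (Ga := gB7q2) (Gb := gB8q2) cA022L_ok B hρ (gatB40 x) (gatB42 x) (fun h => absurd h (by decide)) (fun _ => gatB82 x) hd hx hx' CG.A022L_447

theorem altB_A022R_08 {κ x : ℝ} (hκ : κ * h0 = ken x) (hx : ((649613803 : ℕ) : ℝ) / S ≤ x) (hx' : x ≤ (((649613803 : ℕ) : ℝ) + (48318383 : ℕ)) / S) :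
    AltEA 3 κ (eng.v x) (3 / 40) (tnt (h0 * x) (3 / 10)) PP tK tL tC pcB (scP esg pd) [⟨0, 0, 0, 67108864⟩, ⟨1, 1, 0, 67108864⟩, ⟨2, 1, 0, 67108864⟩] 0 2 2 0 8 (sgb true) (sgb false) x := by
  have X : XR 67108864 x := XR.of hx hx' (by norm_num) (by norm_num) (by norm_num) (by norm_num)
  have hen : 0 < eng.v x := en_pos X.x0.le
  refine CornW.altA (C := cA022R) (j := (0 : Fin 9)) (k := (8 : Fin 9)) (Ef := esg) (pd := pd) (o := 3 / 40)
    (cornW_of (C := cA022R) (C0 := c0B) (En := eng) (mo := mog) (j := (0 : Fin 9)) (k := (8 : Fin 9)) (lo := 0) (hi := 4) (W := 67108864) (N0 := 3) cA022R_q (sideB hx hx') gokB (pinU hx hx') dokB X (by norm_num) (by norm_num) (l := (0 : Fin 9)) rfl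
      (gatB00 x) (gatB82 x) (gatB02 x) (datB00 x) (datB82 x) (datB02 x) ?_)
    (cornS_of (C := cA022R) (C0 := c0B) (j := (0 : Fin 9)) (k := (8 : Fin 9)) (lo := 0) (hi := 4) (W := 67108864) (N0 := 3) cA022R_q (sideB hx hx') gokB X (by norm_num) (by norm_num) (l := (0 : Fin 9)) rfl
      (gatB00 x) (gatB82 x) (gatB02 x) ?_)
    (thU (pinU hx hx')) rfl hκ (fun j q y => tC_eq j q y x) (esg_rng X.x0.le (by linarith [X.b, X.p0])).1 (mo_v x) le_rfl le_rfl
  · intro ρ a B hρ hd i h1 h2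
    fin_cases i
    · exact corW_cert (G1 := gB0q0) (G2 := gB8q2) (Ga := gB0q2) (Gb := gB1q2) (D1 := dB0q0) (D2 := dB8q2) (Da := dB0q2) (Db := dB1q2) cA022R_ok B hρ hen (gatB00 x) (gatB82 x) (fun _ => gatB02 x) (fun _ => gatB12 x) (datB00 x) (datB82 x) (fun _ => datB02 x) (fun _ => datB12 x) hd hx hx' CW.A022R_080
    · exact corW_cert (G1 := gB0q0) (G2 := gB8q2) (Ga := gB1q2) (Gb := gB2q2) (D1 := dB0q0) (D2 := dB8q2) (Da := dB1q2) (Db := dB2q2) cA022R_ok B hρ hen (gatB00 x) (gatB82 x) (fun _ => gatB12 x) (fun _ => gatB22 x) (datB00 x) (datB82 x) (fun _ => datB12 x) (fun _ => datB22 x) hd hx hx' CW.A022R_081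
    · exact corW_cert (G1 := gB0q0) (G2 := gB8q2) (Ga := gB2q2) (Gb := gB3q2) (D1 := dB0q0) (D2 := dB8q2) (Da := dB2q2) (Db := dB3q2) cA022R_ok B hρ hen (gatB00 x) (gatB82 x) (fun _ => gatB22 x) (fun _ => gatB32 x) (datB00 x) (datB82 x) (fun _ => datB22 x) (fun _ => datB32 x) hd hx hx' CW.A022R_082
    · exact corW_cert (G1 := gB0q0) (G2 := gB8q2) (Ga := gB3q2) (Gb := gB4q2) (D1 := dB0q0) (D2 := dB8q2) (Da := dB3q2) (Db := dB4q2) cA022R_ok B hρ hen (gatB00 x) (gatB82 x) (fun _ => gatB32 x) (fun _ => gatB42 x) (datB00 x) (datB82 x) (fun _ => datB32 x) (fun _ => datB42 x) hd hx hx' CW.A022R_083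
    · exact corW_cert (G1 := gB0q0) (G2 := gB8q2) (Ga := gB4q2) (Gb := gB5q2) (D1 := dB0q0) (D2 := dB8q2) (Da := dB4q2) (Db := dB5q2) cA022R_ok B hρ hen (gatB00 x) (gatB82 x) (fun _ => gatB42 x) (fun h => absurd h (by decide)) (datB00 x) (datB82 x) (fun _ => datB42 x) (fun h => absurd h (by decide)) hd hx hx' CW.A022R_084
    · exact absurd h2 (by norm_num)
    · exact absurd h2 (by norm_num)
    · exact absurd h2 (by norm_num)
  · intro ρ a B hρ hd i h1 h2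
    fin_cases i
    · exact corT_cert (G1 := gB0q0) (G2 := gB8q2) (Ga := gB0q2) (Gb := gB1q2) cA022R_ok B hρ (gatB00 x) (gatB82 x) (fun _ => gatB02 x) (fun _ => gatB12 x) hd hx hx' CG.A022R_080
    · exact corT_cert (G1 := gB0q0) (G2 := gB8q2) (Ga := gB1q2) (Gb := gB2q2) cA022R_ok B hρ (gatB00 x) (gatB82 x) (fun _ => gatB12 x) (fun _ => gatB22 x) hd hx hx' CG.A022R_081
    · exact corT_cert (G1 := gB0q0) (G2 := gB8q2) (Ga := gB2q2) (Gb := gB3q2) cA022R_ok B hρ (gatB00 x) (gatB82 x) (fun _ => gatB22 x) (fun _ => gatB32 x) hd hx hx' CG.A022R_082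
    · exact corT_cert (G1 := gB0q0) (G2 := gB8q2) (Ga := gB3q2) (Gb := gB4q2) cA022R_ok B hρ (gatB00 x) (gatB82 x) (fun _ => gatB32 x) (fun _ => gatB42 x) hd hx hx' CG.A022R_083
    · exact corT_cert (G1 := gB0q0) (G2 := gB8q2) (Ga := gB4q2) (Gb := gB5q2) cA022R_ok B hρ (gatB00 x) (gatB82 x) (fun _ => gatB42 x) (fun h => absurd h (by decide)) hd hx hx' CG.A022R_084
    · exact absurd h2 (by norm_num)
    · exact absurd h2 (by norm_num)
    · exact absurd h2 (by norm_num)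

theorem altB_A022R_18 {κ x : ℝ} (hκ : κ * h0 = ken x) (hx : ((649613803 : ℕ) : ℝ) / S ≤ x) (hx' : x ≤ (((649613803 : ℕ) : ℝ) + (48318383 : ℕ)) / S) :
    AltEA 3 κ (eng.v x) (3 / 40) (tnt (h0 * x) (3 / 10)) PP tK tL tC pcB (scP esg pd) [⟨0, 0, 0, 67108864⟩, ⟨1, 1, 0, 67108864⟩, ⟨2, 1, 0, 67108864⟩] 0 2 2 1 8 (sgb true) (sgb false) x := by
  have X : XR 67108864 x := XR.of hx hx' (by norm_num) (by norm_num) (by norm_num) (by norm_num)
  have hen : 0 < eng.v x := en_pos X.x0.le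
  refine CornW.altA (C := cA022R) (j := (1 : Fin 9)) (k := (8 : Fin 9)) (Ef := esg) (pd := pd) (o := 3 / 40)
    (cornW_of (C := cA022R) (C0 := c0B) (En := eng) (mo := mog) (j := (1 : Fin 9)) (k := (8 : Fin 9)) (lo := 0) (hi := 4) (W := 67108864) (N0 := 3) cA022R_q (sideB hx hx') gokB (pinU hx hx') dokB X (by norm_num) (by norm_num) (l := (0 : Fin 9)) rfl
      (gatB10 x) (gatB82 x) (gatB02 x) (datB10 x) (datB82 x) (datB02 x) ?_)
    (cornS_of (C := cA022R) (C0 := c0B) (j := (1 : Fin 9)) (k := (8 : Fin 9)) (lo := 0) (hi := 4) (W := 67108864) (N0 := 3) cA022R_q (sideB hx hx') gokB X (by norm_num) (by norm_num) (l := (0 : Fin 9)) rfl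
      (gatB10 x) (gatB82 x) (gatB02 x) ?_)
    (thU (pinU hx hx')) rfl hκ (fun j q y => tC_eq j q y x) (esg_rng X.x0.le (by linarith [X.b, X.p0])).1 (mo_v x) le_rfl le_rfl
  · intro ρ a B hρ hd i h1 h2
    fin_cases i
    · exact corW_cert (G1 := gB1q0) (G2 := gB8q2) (Ga := gB0q2) (Gb := gB1q2) (D1 := dB1q0) (D2 := dB8q2) (Da := dB0q2) (Db := dB1q2) cA022R_ok B hρ hen (gatB10 x) (gatB82 x) (fun _ => gatB02 x) (fun _ => gatB12 x) (datB10 x) (datB82 x) (fun _ => datB02 x) (fun _ => datB12 x) hd hx hx' CW.A022R_180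
    · exact corW_cert (G1 := gB1q0) (G2 := gB8q2) (Ga := gB1q2) (Gb := gB2q2) (D1 := dB1q0) (D2 := dB8q2) (Da := dB1q2) (Db := dB2q2) cA022R_ok B hρ hen (gatB10 x) (gatB82 x) (fun _ => gatB12 x) (fun _ => gatB22 x) (datB10 x) (datB82 x) (fun _ => datB12 x) (fun _ => datB22 x) hd hx hx' CW.A022R_181
    · exact corW_cert (G1 := gB1q0) (G2 := gB8q2) (Ga := gB2q2) (Gb := gB3q2) (D1 := dB1q0) (D2 := dB8q2) (Da := dB2q2) (Db := dB3q2) cA022R_ok B hρ hen (gatB10 x) (gatB82 x) (fun _ => gatB22 x) (fun _ => gatB32 x) (datB10 x) (datB82 x) (fun _ => datB22 x) (fun _ => datB32 x) hd hx hx' CW.A022R_182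
    · exact corW_cert (G1 := gB1q0) (G2 := gB8q2) (Ga := gB3q2) (Gb := gB4q2) (D1 := dB1q0) (D2 := dB8q2) (Da := dB3q2) (Db := dB4q2) cA022R_ok B hρ hen (gatB10 x) (gatB82 x) (fun _ => gatB32 x) (fun _ => gatB42 x) (datB10 x) (datB82 x) (fun _ => datB32 x) (fun _ => datB42 x) hd hx hx' CW.A022R_183
    · exact corW_cert (G1 := gB1q0) (G2 := gB8q2) (Ga := gB4q2) (Gb := gB5q2) (D1 := dB1q0) (D2 := dB8q2) (Da := dB4q2) (Db := dB5q2) cA022R_ok B hρ hen (gatB10 x) (gatB82 x) (fun _ => gatB42 x) (fun h => absurd h (by decide)) (datB10 x) (datB82 x) (fun _ => datB42 x) (fun h => absurd h (by decide)) hd hx hx' CW.A022R_184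
    · exact absurd h2 (by norm_num)
    · exact absurd h2 (by norm_num)
    · exact absurd h2 (by norm_num)
  · intro ρ a B hρ hd i h1 h2
    fin_cases i
    · exact corT_cert (G1 := gB1q0) (G2 := gB8q2) (Ga := gB0q2) (Gb := gB1q2) cA022R_ok B hρ (gatB10 x) (gatB82 x) (fun _ => gatB02 x) (fun _ => gatB12 x) hd hx hx' CG.A022R_180
    · exact corT_cert (G1 := gB1q0) (G2 := gB8q2) (Ga := gB1q2) (Gb := gB2q2) cA022R_ok B hρ (gatB10 x) (gatB82 x) (fun _ => gatB12 x) (fun _ => gatB22 x) hd hx hx' CG.A022R_181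
    · exact corT_cert (G1 := gB1q0) (G2 := gB8q2) (Ga := gB2q2) (Gb := gB3q2) cA022R_ok B hρ (gatB10 x) (gatB82 x) (fun _ => gatB22 x) (fun _ => gatB32 x) hd hx hx' CG.A022R_182
    · exact corT_cert (G1 := gB1q0) (G2 := gB8q2) (Ga := gB3q2) (Gb := gB4q2) cA022R_ok B hρ (gatB10 x) (gatB82 x) (fun _ => gatB32 x) (fun _ => gatB42 x) hd hx hx' CG.A022R_183
    · exact corT_cert (G1 := gB1q0) (G2 := gB8q2) (Ga := gB4q2) (Gb := gB5q2) cA022R_ok B hρ (gatB10 x) (gatB82 x) (fun _ => gatB42 x) (fun h => absurd h (by decide)) hd hx hx' CG.A022R_184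
    · exact absurd h2 (by norm_num)
    · exact absurd h2 (by norm_num)
    · exact absurd h2 (by norm_num)

theorem altB_A022R_28 {κ x : ℝ} (hκ : κ * h0 = ken x) (hx : ((649613803 : ℕ) : ℝ) / S ≤ x) (hx' : x ≤ (((649613803 : ℕ) : ℝ) + (48318383 : ℕ)) / S) :
    AltEA 3 κ (eng.v x) (3 / 40) (tnt (h0 * x) (3 / 10)) PP tK tL tC pcB (scP esg pd) [⟨0, 0, 0, 67108864⟩, ⟨1, 1, 0, 67108864⟩, ⟨2, 1, 0, 67108864⟩] 0 2 2 2 8 (sgb true) (sgb false) x := by
  have X : XR 67108864 x := XR.of hx hx' (by norm_num) (by norm_num) (by norm_num) (by norm_num)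
  have hen : 0 < eng.v x := en_pos X.x0.le
  refine CornW.altA (C := cA022R) (j := (2 : Fin 9)) (k := (8 : Fin 9)) (Ef := esg) (pd := pd) (o := 3 / 40)
    (cornW_of (C := cA022R) (C0 := c0B) (En := eng) (mo := mog) (j := (2 : Fin 9)) (k := (8 : Fin 9)) (lo := 0) (hi := 4) (W := 67108864) (N0 := 3) cA022R_q (sideB hx hx') gokB (pinU hx hx') dokB X (by norm_num) (by norm_num) (l := (0 : Fin 9)) rfl
      (gatB20 x) (gatB82 x) (gatB02 x) (datB20 x) (datB82 x) (datB02 x) ?_)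
    (cornS_of (C := cA022R) (C0 := c0B) (j := (2 : Fin 9)) (k := (8 : Fin 9)) (lo := 0) (hi := 4) (W := 67108864) (N0 := 3) cA022R_q (sideB hx hx') gokB X (by norm_num) (by norm_num) (l := (0 : Fin 9)) rfl
      (gatB20 x) (gatB82 x) (gatB02 x) ?_)
    (thU (pinU hx hx')) rfl hκ (fun j q y => tC_eq j q y x) (esg_rng X.x0.le (by linarith [X.b, X.p0])).1 (mo_v x) le_rfl le_rfl
  · intro ρ a B hρ hd i h1 h2
    fin_cases i
    · exact corW_cert (G1 := gB2q0) (G2 := gB8q2) (Ga := gB0q2) (Gb := gB1q2) (D1 := dB2q0) (D2 := dB8q2) (Da := dB0q2) (Db := dB1q2) cA022R_ok B hρ hen (gatB20 x) (gatB82 x) (fun _ => gatB02 x) (fun _ => gatB12 x) (datB20 x) (datB82 x) (fun _ => datB02 x) (fun _ => datB12 x) hd hx hx' CW.A022R_280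
    · exact corW_cert (G1 := gB2q0) (G2 := gB8q2) (Ga := gB1q2) (Gb := gB2q2) (D1 := dB2q0) (D2 := dB8q2) (Da := dB1q2) (Db := dB2q2) cA022R_ok B hρ hen (gatB20 x) (gatB82 x) (fun _ => gatB12 x) (fun _ => gatB22 x) (datB20 x) (datB82 x) (fun _ => datB12 x) (fun _ => datB22 x) hd hx hx' CW.A022R_281
    · exact corW_cert (G1 := gB2q0) (G2 := gB8q2) (Ga := gB2q2) (Gb := gB3q2) (D1 := dB2q0) (D2 := dB8q2) (Da := dB2q2) (Db := dB3q2) cA022R_ok B hρ hen (gatB20 x) (gatB82 x) (fun _ => gatB22 x) (fun _ => gatB32 x) (datB20 x) (datB82 x) (fun _ => datB22 x) (fun _ => datB32 x) hd hx hx' CW.A022R_282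
    · exact corW_cert (G1 := gB2q0) (G2 := gB8q2) (Ga := gB3q2) (Gb := gB4q2) (D1 := dB2q0) (D2 := dB8q2) (Da := dB3q2) (Db := dB4q2) cA022R_ok B hρ hen (gatB20 x) (gatB82 x) (fun _ => gatB32 x) (fun _ => gatB42 x) (datB20 x) (datB82 x) (fun _ => datB32 x) (fun _ => datB42 x) hd hx hx' CW.A022R_283
    · exact corW_cert (G1 := gB2q0) (G2 := gB8q2) (Ga := gB4q2) (Gb := gB5q2) (D1 := dB2q0) (D2 := dB8q2) (Da := dB4q2) (Db := dB5q2) cA022R_ok B hρ hen (gatB20 x) (gatB82 x) (fun _ => gatB42 x) (fun h => absurd h (by decide)) (datB20 x) (datB82 x) (fun _ => datB42 x) (fun h => absurd h (by decide)) hd hx hx' CW.A022R_284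
    · exact absurd h2 (by norm_num)
    · exact absurd h2 (by norm_num)
    · exact absurd h2 (by norm_num)
  · intro ρ a B hρ hd i h1 h2
    fin_cases i
    · exact corT_cert (G1 := gB2q0) (G2 := gB8q2) (Ga := gB0q2) (Gb := gB1q2) cA022R_ok B hρ (gatB20 x) (gatB82 x) (fun _ => gatB02 x) (fun _ => gatB12 x) hd hx hx' CG.A022R_280
    · exact corT_cert (G1 := gB2q0) (G2 := gB8q2) (Ga := gB1q2) (Gb := gB2q2) cA022R_ok B hρ (gatB20 x) (gatB82 x) (fun _ => gatB12 x) (fun _ => gatB22 x) hd hx hx' CG.A022R_281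
    · exact corT_cert (G1 := gB2q0) (G2 := gB8q2) (Ga := gB2q2) (Gb := gB3q2) cA022R_ok B hρ (gatB20 x) (gatB82 x) (fun _ => gatB22 x) (fun _ => gatB32 x) hd hx hx' CG.A022R_282
    · exact corT_cert (G1 := gB2q0) (G2 := gB8q2) (Ga := gB3q2) (Gb := gB4q2) cA022R_ok B hρ (gatB20 x) (gatB82 x) (fun _ => gatB32 x) (fun _ => gatB42 x) hd hx hx' CG.A022R_283
    · exact corT_cert (G1 := gB2q0) (G2 := gB8q2) (Ga := gB4q2) (Gb := gB5q2) cA022R_ok B hρ (gatB20 x) (gatB82 x) (fun _ => gatB42 x) (fun h => absurd h (by decide)) hd hx hx' CG.A022R_284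
    · exact absurd h2 (by norm_num)
    · exact absurd h2 (by norm_num)
    · exact absurd h2 (by norm_num)

theorem altB_A022R_38 {κ x : ℝ} (hκ : κ * h0 = ken x) (hx : ((649613803 : ℕ) : ℝ) / S ≤ x) (hx' : x ≤ (((649613803 : ℕ) : ℝ) + (48318383 : ℕ)) / S) :
    AltEA 3 κ (eng.v x) (3 / 40) (tnt (h0 * x) (3 / 10)) PP tK tL tC pcB (scP esg pd) [⟨0, 0, 0, 67108864⟩, ⟨1, 1, 0, 67108864⟩, ⟨2, 1, 0, 67108864⟩] 0 2 2 3 8 (sgb true) (sgb false) x := by
  have X : XR 67108864 x := XR.of hx hx' (by norm_num) (by norm_num) (by norm_num) (by norm_num)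
  have hen : 0 < eng.v x := en_pos X.x0.le
  refine CornW.altA (C := cA022R) (j := (3 : Fin 9)) (k := (8 : Fin 9)) (Ef := esg) (pd := pd) (o := 3 / 40)
    (cornW_of (C := cA022R) (C0 := c0B) (En := eng) (mo := mog) (j := (3 : Fin 9)) (k := (8 : Fin 9)) (lo := 0) (hi := 4) (W := 67108864) (N0 := 3) cA022R_q (sideB hx hx') gokB (pinU hx hx') dokB X (by norm_num) (by norm_num) (l := (0 : Fin 9)) rfl
      (gatB30 x) (gatB82 x) (gatB02 x) (datB30 x) (datB82 x) (datB02 x) ?_)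
    (cornS_of (C := cA022R) (C0 := c0B) (j := (3 : Fin 9)) (k := (8 : Fin 9)) (lo := 0) (hi := 4) (W := 67108864) (N0 := 3) cA022R_q (sideB hx hx') gokB X (by norm_num) (by norm_num) (l := (0 : Fin 9)) rfl
      (gatB30 x) (gatB82 x) (gatB02 x) ?_)
    (thU (pinU hx hx')) rfl hκ (fun j q y => tC_eq j q y x) (esg_rng X.x0.le (by linarith [X.b, X.p0])).1 (mo_v x) le_rfl le_rfl
  · intro ρ a B hρ hd i h1 h2
    fin_cases i
    · exact corW_cert (G1 := gB3q0) (G2 := gB8q2) (Ga := gB0q2) (Gb := gB1q2) (D1 := dB3q0) (D2 := dB8q2) (Da := dB0q2) (Db := dB1q2) cA022R_ok B hρ hen (gatB30 x) (gatB82 x) (fun _ => gatB02 x) (fun _ => gatB12 x) (datB30 x) (datB82 x) (fun _ => datB02 x) (fun _ => datB12 x) hd hx hx' CW.A022R_380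
    · exact corW_cert (G1 := gB3q0) (G2 := gB8q2) (Ga := gB1q2) (Gb := gB2q2) (D1 := dB3q0) (D2 := dB8q2) (Da := dB1q2) (Db := dB2q2) cA022R_ok B hρ hen (gatB30 x) (gatB82 x) (fun _ => gatB12 x) (fun _ => gatB22 x) (datB30 x) (datB82 x) (fun _ => datB12 x) (fun _ => datB22 x) hd hx hx' CW.A022R_381
    · exact corW_cert (G1 := gB3q0) (G2 := gB8q2) (Ga := gB2q2) (Gb := gB3q2) (D1 := dB3q0) (D2 := dB8q2) (Da := dB2q2) (Db := dB3q2) cA022R_ok B hρ hen (gatB30 x) (gatB82 x) (fun _ => gatB22 x) (fun _ => gatB32 x) (datB30 x) (datB82 x) (fun _ => datB22 x) (fun _ => datB32 x) hd hx hx' CW.A022R_382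
    · exact corW_cert (G1 := gB3q0) (G2 := gB8q2) (Ga := gB3q2) (Gb := gB4q2) (D1 := dB3q0) (D2 := dB8q2) (Da := dB3q2) (Db := dB4q2) cA022R_ok B hρ hen (gatB30 x) (gatB82 x) (fun _ => gatB32 x) (fun _ => gatB42 x) (datB30 x) (datB82 x) (fun _ => datB32 x) (fun _ => datB42 x) hd hx hx' CW.A022R_383
    · exact corW_cert (G1 := gB3q0) (G2 := gB8q2) (Ga := gB4q2) (Gb := gB5q2) (D1 := dB3q0) (D2 := dB8q2) (Da := dB4q2) (Db := dB5q2) cA022R_ok B hρ hen (gatB30 x) (gatB82 x) (fun _ => gatB42 x) (fun h => absurd h (by decide)) (datB30 x) (datB82 x) (fun _ => datB42 x) (fun h => absurd h (by decide)) hd hx hx' CW.A022R_384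
    · exact absurd h2 (by norm_num)
    · exact absurd h2 (by norm_num)
    · exact absurd h2 (by norm_num)
  · intro ρ a B hρ hd i h1 h2
    fin_cases i
    · exact corT_cert (G1 := gB3q0) (G2 := gB8q2) (Ga := gB0q2) (Gb := gB1q2) cA022R_ok B hρ (gatB30 x) (gatB82 x) (fun _ => gatB02 x) (fun _ => gatB12 x) hd hx hx' CG.A022R_380
    · exact corT_cert (G1 := gB3q0) (G2 := gB8q2) (Ga := gB1q2) (Gb := gB2q2) cA022R_ok B hρ (gatB30 x) (gatB82 x) (fun _ => gatB12 x) (fun _ => gatB22 x) hd hx hx' CG.A022R_381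
    · exact corT_cert (G1 := gB3q0) (G2 := gB8q2) (Ga := gB2q2) (Gb := gB3q2) cA022R_ok B hρ (gatB30 x) (gatB82 x) (fun _ => gatB22 x) (fun _ => gatB32 x) hd hx hx' CG.A022R_382
    · exact corT_cert (G1 := gB3q0) (G2 := gB8q2) (Ga := gB3q2) (Gb := gB4q2) cA022R_ok B hρ (gatB30 x) (gatB82 x) (fun _ => gatB32 x) (fun _ => gatB42 x) hd hx hx' CG.A022R_383
    · exact corT_cert (G1 := gB3q0) (G2 := gB8q2) (Ga := gB4q2) (Gb := gB5q2) cA022R_ok B hρ (gatB30 x) (gatB82 x) (fun _ => gatB42 x) (fun h => absurd h (by decide)) hd hx hx' CG.A022R_384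
    · exact absurd h2 (by norm_num)
    · exact absurd h2 (by norm_num)
    · exact absurd h2 (by norm_num)

theorem altB_A022R_48 {κ x : ℝ} (hκ : κ * h0 = ken x) (hx : ((649613803 : ℕ) : ℝ) / S ≤ x) (hx' : x ≤ (((649613803 : ℕ) : ℝ) + (48318383 : ℕ)) / S) :
    AltEA 3 κ (eng.v x) (3 / 40) (tnt (h0 * x) (3 / 10)) PP tK tL tC pcB (scP esg pd) [⟨0, 0, 0, 67108864⟩, ⟨1, 1, 0, 67108864⟩, ⟨2, 1, 0, 67108864⟩] 0 2 2 4 8 (sgb true) (sgb false) x := by
  have X : XR 67108864 x := XR.of hx hx' (by norm_num) (by norm_num) (by norm_num) (by norm_num)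
  have hen : 0 < eng.v x := en_pos X.x0.le
  refine CornW.altA (C := cA022R) (j := (4 : Fin 9)) (k := (8 : Fin 9)) (Ef := esg) (pd := pd) (o := 3 / 40)
    (cornW_of (C := cA022R) (C0 := c0B) (En := eng) (mo := mog) (j := (4 : Fin 9)) (k := (8 : Fin 9)) (lo := 0) (hi := 4) (W := 67108864) (N0 := 3) cA022R_q (sideB hx hx') gokB (pinU hx hx') dokB X (by norm_num) (by norm_num) (l := (0 : Fin 9)) rfl
      (gatB40 x) (gatB82 x) (gatB02 x) (datB40 x) (datB82 x) (datB02 x) ?_)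
    (cornS_of (C := cA022R) (C0 := c0B) (j := (4 : Fin 9)) (k := (8 : Fin 9)) (lo := 0) (hi := 4) (W := 67108864) (N0 := 3) cA022R_q (sideB hx hx') gokB X (by norm_num) (by norm_num) (l := (0 : Fin 9)) rfl
      (gatB40 x) (gatB82 x) (gatB02 x) ?_)
    (thU (pinU hx hx')) rfl hκ (fun j q y => tC_eq j q y x) (esg_rng X.x0.le (by linarith [X.b, X.p0])).1 (mo_v x) le_rfl le_rfl
  · intro ρ a B hρ hd i h1 h2
    fin_cases i
    · exact corW_cert (G1 := gB4q0) (G2 := gB8q2) (Ga := gB0q2) (Gb := gB1q2) (D1 := dB4q0) (D2 := dB8q2) (Da := dB0q2) (Db := dB1q2) cA022R_ok B hρ hen (gatB40 x) (gatB82 x) (fun _ => gatB02 x) (fun _ => gatB12 x) (datB40 x) (datB82 x) (fun _ => datB02 x) (fun _ => datB12 x) hd hx hx' CW.A022R_480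
    · exact corW_cert (G1 := gB4q0) (G2 := gB8q2) (Ga := gB1q2) (Gb := gB2q2) (D1 := dB4q0) (D2 := dB8q2) (Da := dB1q2) (Db := dB2q2) cA022R_ok B hρ hen (gatB40 x) (gatB82 x) (fun _ => gatB12 x) (fun _ => gatB22 x) (datB40 x) (datB82 x) (fun _ => datB12 x) (fun _ => datB22 x) hd hx hx' CW.A022R_481
    · exact corW_cert (G1 := gB4q0) (G2 := gB8q2) (Ga := gB2q2) (Gb := gB3q2) (D1 := dB4q0) (D2 := dB8q2) (Da := dB2q2) (Db := dB3q2) cA022R_ok B hρ hen (gatB40 x) (gatB82 x) (fun _ => gatB22 x) (fun _ => gatB32 x) (datB40 x) (datB82 x) (fun _ => datB22 x) (fun _ => datB32 x) hd hx hx' CW.A022R_482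
    · exact corW_cert (G1 := gB4q0) (G2 := gB8q2) (Ga := gB3q2) (Gb := gB4q2) (D1 := dB4q0) (D2 := dB8q2) (Da := dB3q2) (Db := dB4q2) cA022R_ok B hρ hen (gatB40 x) (gatB82 x) (fun _ => gatB32 x) (fun _ => gatB42 x) (datB40 x) (datB82 x) (fun _ => datB32 x) (fun _ => datB42 x) hd hx hx' CW.A022R_483
    · exact corW_cert (G1 := gB4q0) (G2 := gB8q2) (Ga := gB4q2) (Gb := gB5q2) (D1 := dB4q0) (D2 := dB8q2) (Da := dB4q2) (Db := dB5q2) cA022R_ok B hρ hen (gatB40 x) (gatB82 x) (fun _ => gatB42 x) (fun h => absurd h (by decide)) (datB40 x) (datB82 x) (fun _ => datB42 x) (fun h => absurd h (by decide)) hd hx hx' CW.A022R_484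
    · exact absurd h2 (by norm_num)
    · exact absurd h2 (by norm_num)
    · exact absurd h2 (by norm_num)
  · intro ρ a B hρ hd i h1 h2
    fin_cases i
    · exact corT_cert (G1 := gB4q0) (G2 := gB8q2) (Ga := gB0q2) (Gb := gB1q2) cA022R_ok B hρ (gatB40 x) (gatB82 x) (fun _ => gatB02 x) (fun _ => gatB12 x) hd hx hx' CG.A022R_480
    · exact corT_cert (G1 := gB4q0) (G2 := gB8q2) (Ga := gB1q2) (Gb := gB2q2) cA022R_ok B hρ (gatB40 x) (gatB82 x) (fun _ => gatB12 x) (fun _ => gatB22 x) hd hx hx' CG.A022R_481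
    · exact corT_cert (G1 := gB4q0) (G2 := gB8q2) (Ga := gB2q2) (Gb := gB3q2) cA022R_ok B hρ (gatB40 x) (gatB82 x) (fun _ => gatB22 x) (fun _ => gatB32 x) hd hx hx' CG.A022R_482
    · exact corT_cert (G1 := gB4q0) (G2 := gB8q2) (Ga := gB3q2) (Gb := gB4q2) cA022R_ok B hρ (gatB40 x) (gatB82 x) (fun _ => gatB32 x) (fun _ => gatB42 x) hd hx hx' CG.A022R_483
    · exact corT_cert (G1 := gB4q0) (G2 := gB8q2) (Ga := gB4q2) (Gb := gB5q2) cA022R_ok B hρ (gatB40 x) (gatB82 x) (fun _ => gatB42 x) (fun h => absurd h (by decide)) hd hx hx' CG.A022R_484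
    · exact absurd h2 (by norm_num)
    · exact absurd h2 (by norm_num)
    · exact absurd h2 (by norm_num)

theorem altB_A101E_00 {κ x : ℝ} (hκ : κ * h0 = ken x) (hx : ((649613803 : ℕ) : ℝ) / S ≤ x) (hx' : x ≤ (((649613803 : ℕ) : ℝ) + (48318383 : ℕ)) / S) :
    AltEA 3 κ (eng.v x) (3 / 40) (tnt (h0 * x) (3 / 10)) PP tK tL tC pcB (scP esg pd) [⟨0, 1, 0, 67108864⟩, ⟨1, 0, 0, 67108864⟩, ⟨2, 1, 0, 67108864⟩] 1 0 1 0 0 (sgb true) (sgb false) x := by
  have X : XR 67108864 x := XR.of hx hx' (by norm_num) (by norm_num) (by norm_num) (by norm_num)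
  have hen : 0 < eng.v x := en_pos X.x0.le
  refine CornW.altA (C := cA101E) (j := (0 : Fin 9)) (k := (0 : Fin 9)) (Ef := esg) (pd := pd) (o := 3 / 40)
    (cornW_of (C := cA101E) (C0 := c0B) (En := eng) (mo := mog) (j := (0 : Fin 9)) (k := (0 : Fin 9)) (lo := 0) (hi := 0) (W := 67108864) (N0 := 3) cA101E_q (sideB hx hx') gokB (pinU hx hx') dokB X (by norm_num) (by norm_num) (l := (0 : Fin 9)) rfl
      (gatB01 x) (gatB00 x) (gatB01 x) (datB01 x) (datB00 x) (datB01 x) ?_)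
    (cornS_of (C := cA101E) (C0 := c0B) (j := (0 : Fin 9)) (k := (0 : Fin 9)) (lo := 0) (hi := 0) (W := 67108864) (N0 := 3) cA101E_q (sideB hx hx') gokB X (by norm_num) (by norm_num) (l := (0 : Fin 9)) rfl
      (gatB01 x) (gatB00 x) (gatB01 x) ?_)
    (thU (pinU hx hx')) rfl hκ (fun j q y => tC_eq j q y x) (esg_rng X.x0.le (by linarith [X.b, X.p0])).1 (mo_v x) le_rfl le_rfl
  · intro ρ a B hρ hd i h1 h2
    fin_cases i
    · exact corW_cert (G1 := gB0q1) (G2 := gB0q0) (Ga := gB0q1) (Gb := gB1q1) (D1 := dB0q1) (D2 := dB0q0) (Da := dB0q1) (Db := dB1q1) cA101E_ok B hρ hen (gatB01 x) (gatB00 x) (fun _ => gatB01 x) (fun h => absurd h (by decide)) (datB01 x) (datB00 x) (fun _ => datB01 x) (fun h => absurd h (by decide)) hd hx hx' CW.A101E_000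
    · exact absurd h2 (by norm_num)
    · exact absurd h2 (by norm_num)
    · exact absurd h2 (by norm_num)
    · exact absurd h2 (by norm_num)
    · exact absurd h2 (by norm_num)
    · exact absurd h2 (by norm_num)
    · exact absurd h2 (by norm_num)
  · intro ρ a B hρ hd i h1 h2
    fin_cases i
    · exact corT_cert (G1 := gB0q1) (G2 := gB0q0) (Ga := gB0q1) (Gb := gB1q1) cA101E_ok B hρ (gatB01 x) (gatB00 x) (fun _ => gatB01 x) (fun h => absurd h (by decide)) hd hx hx' CG.A101E_000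
    · exact absurd h2 (by norm_num)
    · exact absurd h2 (by norm_num)
    · exact absurd h2 (by norm_num)
    · exact absurd h2 (by norm_num)
    · exact absurd h2 (by norm_num)
    · exact absurd h2 (by norm_num)
    · exact absurd h2 (by norm_num)

theorem altB_A101E_01 {κ x : ℝ} (hκ : κ * h0 = ken x) (hx : ((649613803 : ℕ) : ℝ) / S ≤ x) (hx' : x ≤ (((649613803 : ℕ) : ℝ) + (48318383 : ℕ)) / S) :
    AltEA 3 κ (eng.v x) (3 / 40) (tnt (h0 * x) (3 / 10)) PP tK tL tC pcB (scP esg pd) [⟨0, 1, 0, 67108864⟩, ⟨1, 0, 0, 67108864⟩, ⟨2, 1, 0, 67108864⟩] 1 0 1 0 1 (sgb true) (sgb false) x := by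
  have X : XR 67108864 x := XR.of hx hx' (by norm_num) (by norm_num) (by norm_num) (by norm_num)
  have hen : 0 < eng.v x := en_pos X.x0.le
  refine CornW.altA (C := cA101E) (j := (0 : Fin 9)) (k := (1 : Fin 9)) (Ef := esg) (pd := pd) (o := 3 / 40)
    (cornW_of (C := cA101E) (C0 := c0B) (En := eng) (mo := mog) (j := (0 : Fin 9)) (k := (1 : Fin 9)) (lo := 0) (hi := 0) (W := 67108864) (N0 := 3) cA101E_q (sideB hx hx') gokB (pinU hx hx') dokB X (by norm_num) (by norm_num) (l := (0 : Fin 9)) rfl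
      (gatB01 x) (gatB10 x) (gatB01 x) (datB01 x) (datB10 x) (datB01 x) ?_)
    (cornS_of (C := cA101E) (C0 := c0B) (j := (0 : Fin 9)) (k := (1 : Fin 9)) (lo := 0) (hi := 0) (W := 67108864) (N0 := 3) cA101E_q (sideB hx hx') gokB X (by norm_num) (by norm_num) (l := (0 : Fin 9)) rfl
      (gatB01 x) (gatB10 x) (gatB01 x) ?_)
    (thU (pinU hx hx')) rfl hκ (fun j q y => tC_eq j q y x) (esg_rng X.x0.le (by linarith [X.b, X.p0])).1 (mo_v x) le_rfl le_rfl
  · intro ρ a B hρ hd i h1 h2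
    fin_cases i
    · exact corW_cert (G1 := gB0q1) (G2 := gB1q0) (Ga := gB0q1) (Gb := gB1q1) (D1 := dB0q1) (D2 := dB1q0) (Da := dB0q1) (Db := dB1q1) cA101E_ok B hρ hen (gatB01 x) (gatB10 x) (fun _ => gatB01 x) (fun h => absurd h (by decide)) (datB01 x) (datB10 x) (fun _ => datB01 x) (fun h => absurd h (by decide)) hd hx hx' CW.A101E_010
    · exact absurd h2 (by norm_num)
    · exact absurd h2 (by norm_num)
    · exact absurd h2 (by norm_num)
    · exact absurd h2 (by norm_num)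
    · exact absurd h2 (by norm_num)
    · exact absurd h2 (by norm_num)
    · exact absurd h2 (by norm_num)
  · intro ρ a B hρ hd i h1 h2
    fin_cases i
    · exact corT_cert (G1 := gB0q1) (G2 := gB1q0) (Ga := gB0q1) (Gb := gB1q1) cA101E_ok B hρ (gatB01 x) (gatB10 x) (fun _ => gatB01 x) (fun h => absurd h (by decide)) hd hx hx' CG.A101E_010
    · exact absurd h2 (by norm_num)
    · exact absurd h2 (by norm_num)
    · exact absurd h2 (by norm_num)
    · exact absurd h2 (by norm_num)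
    · exact absurd h2 (by norm_num)
    · exact absurd h2 (by norm_num)
    · exact absurd h2 (by norm_num)

theorem altB_A101E_02 {κ x : ℝ} (hκ : κ * h0 = ken x) (hx : ((649613803 : ℕ) : ℝ) / S ≤ x) (hx' : x ≤ (((649613803 : ℕ) : ℝ) + (48318383 : ℕ)) / S) :
    AltEA 3 κ (eng.v x) (3 / 40) (tnt (h0 * x) (3 / 10)) PP tK tL tC pcB (scP esg pd) [⟨0, 1, 0, 67108864⟩, ⟨1, 0, 0, 67108864⟩, ⟨2, 1, 0, 67108864⟩] 1 0 1 0 2 (sgb true) (sgb false) x := by
  have X : XR 67108864 x := XR.of hx hx' (by norm_num) (by norm_num) (by norm_num) (by norm_num)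
  have hen : 0 < eng.v x := en_pos X.x0.le
  refine CornW.altA (C := cA101E) (j := (0 : Fin 9)) (k := (2 : Fin 9)) (Ef := esg) (pd := pd) (o := 3 / 40)
    (cornW_of (C := cA101E) (C0 := c0B) (En := eng) (mo := mog) (j := (0 : Fin 9)) (k := (2 : Fin 9)) (lo := 0) (hi := 0) (W := 67108864) (N0 := 3) cA101E_q (sideB hx hx') gokB (pinU hx hx') dokB X (by norm_num) (by norm_num) (l := (0 : Fin 9)) rfl
      (gatB01 x) (gatB20 x) (gatB01 x) (datB01 x) (datB20 x) (datB01 x) ?_)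
    (cornS_of (C := cA101E) (C0 := c0B) (j := (0 : Fin 9)) (k := (2 : Fin 9)) (lo := 0) (hi := 0) (W := 67108864) (N0 := 3) cA101E_q (sideB hx hx') gokB X (by norm_num) (by norm_num) (l := (0 : Fin 9)) rfl
      (gatB01 x) (gatB20 x) (gatB01 x) ?_)
    (thU (pinU hx hx')) rfl hκ (fun j q y => tC_eq j q y x) (esg_rng X.x0.le (by linarith [X.b, X.p0])).1 (mo_v x) le_rfl le_rfl
  · intro ρ a B hρ hd i h1 h2
    fin_cases i
    · exact corW_cert (G1 := gB0q1) (G2 := gB2q0) (Ga := gB0q1) (Gb := gB1q1) (D1 := dB0q1) (D2 := dB2q0) (Da := dB0q1) (Db := dB1q1) cA101E_ok B hρ hen (gatB01 x) (gatB20 x) (fun _ => gatB01 x) (fun h => absurd h (by decide)) (datB01 x) (datB20 x) (fun _ => datB01 x) (fun h => absurd h (by decide)) hd hx hx' CW.A101E_020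
    · exact absurd h2 (by norm_num)
    · exact absurd h2 (by norm_num)
    · exact absurd h2 (by norm_num)
    · exact absurd h2 (by norm_num)
    · exact absurd h2 (by norm_num)
    · exact absurd h2 (by norm_num)
    · exact absurd h2 (by norm_num)
  · intro ρ a B hρ hd i h1 h2
    fin_cases i
    · exact corT_cert (G1 := gB0q1) (G2 := gB2q0) (Ga := gB0q1) (Gb := gB1q1) cA101E_ok B hρ (gatB01 x) (gatB20 x) (fun _ => gatB01 x) (fun h => absurd h (by decide)) hd hx hx' CG.A101E_020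
    · exact absurd h2 (by norm_num)
    · exact absurd h2 (by norm_num)
    · exact absurd h2 (by norm_num)
    · exact absurd h2 (by norm_num)
    · exact absurd h2 (by norm_num)
    · exact absurd h2 (by norm_num)
    · exact absurd h2 (by norm_num)

theorem altB_A101E_03 {κ x : ℝ} (hκ : κ * h0 = ken x) (hx : ((649613803 : ℕ) : ℝ) / S ≤ x) (hx' : x ≤ (((649613803 : ℕ) : ℝ) + (48318383 : ℕ)) / S) :
    AltEA 3 κ (eng.v x) (3 / 40) (tnt (h0 * x) (3 / 10)) PP tK tL tC pcB (scP esg pd) [⟨0, 1, 0, 67108864⟩, ⟨1, 0, 0, 67108864⟩, ⟨2, 1, 0, 67108864⟩] 1 0 1 0 3 (sgb true) (sgb false) x := by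
  have X : XR 67108864 x := XR.of hx hx' (by norm_num) (by norm_num) (by norm_num) (by norm_num)
  have hen : 0 < eng.v x := en_pos X.x0.le
  refine CornW.altA (C := cA101E) (j := (0 : Fin 9)) (k := (3 : Fin 9)) (Ef := esg) (pd := pd) (o := 3 / 40)
    (cornW_of (C := cA101E) (C0 := c0B) (En := eng) (mo := mog) (j := (0 : Fin 9)) (k := (3 : Fin 9)) (lo := 0) (hi := 0) (W := 67108864) (N0 := 3) cA101E_q (sideB hx hx') gokB (pinU hx hx') dokB X (by norm_num) (by norm_num) (l := (0 : Fin 9)) rfl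
      (gatB01 x) (gatB30 x) (gatB01 x) (datB01 x) (datB30 x) (datB01 x) ?_)
    (cornS_of (C := cA101E) (C0 := c0B) (j := (0 : Fin 9)) (k := (3 : Fin 9)) (lo := 0) (hi := 0) (W := 67108864) (N0 := 3) cA101E_q (sideB hx hx') gokB X (by norm_num) (by norm_num) (l := (0 : Fin 9)) rfl
      (gatB01 x) (gatB30 x) (gatB01 x) ?_)
    (thU (pinU hx hx')) rfl hκ (fun j q y => tC_eq j q y x) (esg_rng X.x0.le (by linarith [X.b, X.p0])).1 (mo_v x) le_rfl le_rfl
  · intro ρ a B hρ hd i h1 h2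
    fin_cases i
    · exact corW_cert (G1 := gB0q1) (G2 := gB3q0) (Ga := gB0q1) (Gb := gB1q1) (D1 := dB0q1) (D2 := dB3q0) (Da := dB0q1) (Db := dB1q1) cA101E_ok B hρ hen (gatB01 x) (gatB30 x) (fun _ => gatB01 x) (fun h => absurd h (by decide)) (datB01 x) (datB30 x) (fun _ => datB01 x) (fun h => absurd h (by decide)) hd hx hx' CW.A101E_030
    · exact absurd h2 (by norm_num)
    · exact absurd h2 (by norm_num)
    · exact absurd h2 (by norm_num)
    · exact absurd h2 (by norm_num)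
    · exact absurd h2 (by norm_num)
    · exact absurd h2 (by norm_num)
    · exact absurd h2 (by norm_num)
  · intro ρ a B hρ hd i h1 h2
    fin_cases i
    · exact corT_cert (G1 := gB0q1) (G2 := gB3q0) (Ga := gB0q1) (Gb := gB1q1) cA101E_ok B hρ (gatB01 x) (gatB30 x) (fun _ => gatB01 x) (fun h => absurd h (by decide)) hd hx hx' CG.A101E_030
    · exact absurd h2 (by norm_num)
    · exact absurd h2 (by norm_num)
    · exact absurd h2 (by norm_num)
    · exact absurd h2 (by norm_num)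
    · exact absurd h2 (by norm_num)
    · exact absurd h2 (by norm_num)
    · exact absurd h2 (by norm_num)

theorem altB_A101E_04 {κ x : ℝ} (hκ : κ * h0 = ken x) (hx : ((649613803 : ℕ) : ℝ) / S ≤ x) (hx' : x ≤ (((649613803 : ℕ) : ℝ) + (48318383 : ℕ)) / S) :
    AltEA 3 κ (eng.v x) (3 / 40) (tnt (h0 * x) (3 / 10)) PP tK tL tC pcB (scP esg pd) [⟨0, 1, 0, 67108864⟩, ⟨1, 0, 0, 67108864⟩, ⟨2, 1, 0, 67108864⟩] 1 0 1 0 4 (sgb true) (sgb false) x := by
  have X : XR 67108864 x := XR.of hx hx' (by norm_num) (by norm_num) (by norm_num) (by norm_num)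
  have hen : 0 < eng.v x := en_pos X.x0.le
  refine CornW.altA (C := cA101E) (j := (0 : Fin 9)) (k := (4 : Fin 9)) (Ef := esg) (pd := pd) (o := 3 / 40)
    (cornW_of (C := cA101E) (C0 := c0B) (En := eng) (mo := mog) (j := (0 : Fin 9)) (k := (4 : Fin 9)) (lo := 0) (hi := 0) (W := 67108864) (N0 := 3) cA101E_q (sideB hx hx') gokB (pinU hx hx') dokB X (by norm_num) (by norm_num) (l := (0 : Fin 9)) rfl
      (gatB01 x) (gatB40 x) (gatB01 x) (datB01 x) (datB40 x) (datB01 x) ?_)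
    (cornS_of (C := cA101E) (C0 := c0B) (j := (0 : Fin 9)) (k := (4 : Fin 9)) (lo := 0) (hi := 0) (W := 67108864) (N0 := 3) cA101E_q (sideB hx hx') gokB X (by norm_num) (by norm_num) (l := (0 : Fin 9)) rfl
      (gatB01 x) (gatB40 x) (gatB01 x) ?_)
    (thU (pinU hx hx')) rfl hκ (fun j q y => tC_eq j q y x) (esg_rng X.x0.le (by linarith [X.b, X.p0])).1 (mo_v x) le_rfl le_rfl
  · intro ρ a B hρ hd i h1 h2
    fin_cases i
    · exact corW_cert (G1 := gB0q1) (G2 := gB4q0) (Ga := gB0q1) (Gb := gB1q1) (D1 := dB0q1) (D2 := dB4q0) (Da := dB0q1) (Db := dB1q1) cA101E_ok B hρ hen (gatB01 x) (gatB40 x) (fun _ => gatB01 x) (fun h => absurd h (by decide)) (datB01 x) (datB40 x) (fun _ => datB01 x) (fun h => absurd h (by decide)) hd hx hx' CW.A101E_040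
    · exact absurd h2 (by norm_num)
    · exact absurd h2 (by norm_num)
    · exact absurd h2 (by norm_num)
    · exact absurd h2 (by norm_num)
    · exact absurd h2 (by norm_num)
    · exact absurd h2 (by norm_num)
    · exact absurd h2 (by norm_num)
  · intro ρ a B hρ hd i h1 h2
    fin_cases i
    · exact corT_cert (G1 := gB0q1) (G2 := gB4q0) (Ga := gB0q1) (Gb := gB1q1) cA101E_ok B hρ (gatB01 x) (gatB40 x) (fun _ => gatB01 x) (fun h => absurd h (by decide)) hd hx hx' CG.A101E_040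
    · exact absurd h2 (by norm_num)
    · exact absurd h2 (by norm_num)
    · exact absurd h2 (by norm_num)
    · exact absurd h2 (by norm_num)
    · exact absurd h2 (by norm_num)
    · exact absurd h2 (by norm_num)
    · exact absurd h2 (by norm_num)

theorem altB_A101R_00 {κ x : ℝ} (hκ : κ * h0 = ken x) (hx : ((649613803 : ℕ) : ℝ) / S ≤ x) (hx' : x ≤ (((649613803 : ℕ) : ℝ) + (48318383 : ℕ)) / S) :
    AltEA 3 κ (eng.v x) (3 / 40) (tnt (h0 * x) (3 / 10)) PP tK tL tC pcB (scP esg pd) [⟨0, 1, 0, 67108864⟩, ⟨1, 0, 0, 67108864⟩, ⟨2, 1, 0, 67108864⟩] 1 0 1 0 0 (sgb false) (sgb false) x := by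
  have X : XR 67108864 x := XR.of hx hx' (by norm_num) (by norm_num) (by norm_num) (by norm_num)
  have hen : 0 < eng.v x := en_pos X.x0.le
  refine CornW.altA (C := cA101R) (j := (0 : Fin 9)) (k := (0 : Fin 9)) (Ef := esg) (pd := pd) (o := 3 / 40)
    (cornW_of (C := cA101R) (C0 := c0B) (En := eng) (mo := mog) (j := (0 : Fin 9)) (k := (0 : Fin 9)) (lo := 5) (hi := 8) (W := 67108864) (N0 := 3) cA101R_q (sideB hx hx') gokB (pinU hx hx') dokB X (by norm_num) (by norm_num) (l := (5 : Fin 9)) rfl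
      (gatB01 x) (gatB00 x) (gatB51 x) (datB01 x) (datB00 x) (datB51 x) ?_)
    (cornS_of (C := cA101R) (C0 := c0B) (j := (0 : Fin 9)) (k := (0 : Fin 9)) (lo := 5) (hi := 8) (W := 67108864) (N0 := 3) cA101R_q (sideB hx hx') gokB X (by norm_num) (by norm_num) (l := (5 : Fin 9)) rfl
      (gatB01 x) (gatB00 x) (gatB51 x) ?_)
    (thU (pinU hx hx')) rfl hκ (fun j q y => tC_eq j q y x) (esg_rng X.x0.le (by linarith [X.b, X.p0])).1 (mo_v x) le_rfl le_rfl
  · intro ρ a B hρ hd i h1 h2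
    fin_cases i
    · exact absurd h1 (by norm_num)
    · exact absurd h1 (by norm_num)
    · exact absurd h1 (by norm_num)
    · exact absurd h1 (by norm_num)
    · exact corW_cert (G1 := gB0q1) (G2 := gB0q0) (Ga := gB4q1) (Gb := gB5q1) (D1 := dB0q1) (D2 := dB0q0) (Da := dB4q1) (Db := dB5q1) cA101R_ok B hρ hen (gatB01 x) (gatB00 x) (fun h => absurd h (by decide)) (fun _ => gatB51 x) (datB01 x) (datB00 x) (fun h => absurd h (by decide)) (fun _ => datB51 x) hd hx hx' CW.A101R_004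
    · exact corW_cert (G1 := gB0q1) (G2 := gB0q0) (Ga := gB5q1) (Gb := gB6q1) (D1 := dB0q1) (D2 := dB0q0) (Da := dB5q1) (Db := dB6q1) cA101R_ok B hρ hen (gatB01 x) (gatB00 x) (fun _ => gatB51 x) (fun _ => gatB61 x) (datB01 x) (datB00 x) (fun _ => datB51 x) (fun _ => datB61 x) hd hx hx' CW.A101R_005
    · exact corW_cert (G1 := gB0q1) (G2 := gB0q0) (Ga := gB6q1) (Gb := gB7q1) (D1 := dB0q1) (D2 := dB0q0) (Da := dB6q1) (Db := dB7q1) cA101R_ok B hρ hen (gatB01 x) (gatB00 x) (fun _ => gatB61 x) (fun _ => gatB71 x) (datB01 x) (datB00 x) (fun _ => datB61 x) (fun _ => datB71 x) hd hx hx' CW.A101R_006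
    · exact corW_cert (G1 := gB0q1) (G2 := gB0q0) (Ga := gB7q1) (Gb := gB8q1) (D1 := dB0q1) (D2 := dB0q0) (Da := dB7q1) (Db := dB8q1) cA101R_ok B hρ hen (gatB01 x) (gatB00 x) (fun _ => gatB71 x) (fun _ => gatB81 x) (datB01 x) (datB00 x) (fun _ => datB71 x) (fun _ => datB81 x) hd hx hx' CW.A101R_007
  · intro ρ a B hρ hd i h1 h2
    fin_cases i
    · exact absurd h1 (by norm_num)
    · exact absurd h1 (by norm_num)
    · exact absurd h1 (by norm_num)
    · exact absurd h1 (by norm_num)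
    · exact corT_cert (G1 := gB0q1) (G2 := gB0q0) (Ga := gB4q1) (Gb := gB5q1) cA101R_ok B hρ (gatB01 x) (gatB00 x) (fun h => absurd h (by decide)) (fun _ => gatB51 x) hd hx hx' CG.A101R_004
    · exact corT_cert (G1 := gB0q1) (G2 := gB0q0) (Ga := gB5q1) (Gb := gB6q1) cA101R_ok B hρ (gatB01 x) (gatB00 x) (fun _ => gatB51 x) (fun _ => gatB61 x) hd hx hx' CG.A101R_005
    · exact corT_cert (G1 := gB0q1) (G2 := gB0q0) (Ga := gB6q1) (Gb := gB7q1) cA101R_ok B hρ (gatB01 x) (gatB00 x) (fun _ => gatB61 x) (fun _ => gatB71 x) hd hx hx' CG.A101R_006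
    · exact corT_cert (G1 := gB0q1) (G2 := gB0q0) (Ga := gB7q1) (Gb := gB8q1) cA101R_ok B hρ (gatB01 x) (gatB00 x) (fun _ => gatB71 x) (fun _ => gatB81 x) hd hx hx' CG.A101R_007

theorem altB_A101R_01 {κ x : ℝ} (hκ : κ * h0 = ken x) (hx : ((649613803 : ℕ) : ℝ) / S ≤ x) (hx' : x ≤ (((649613803 : ℕ) : ℝ) + (48318383 : ℕ)) / S) :
    AltEA 3 κ (eng.v x) (3 / 40) (tnt (h0 * x) (3 / 10)) PP tK tL tC pcB (scP esg pd) [⟨0, 1, 0, 67108864⟩, ⟨1, 0, 0, 67108864⟩, ⟨2, 1, 0, 67108864⟩] 1 0 1 0 1 (sgb false) (sgb false) x := by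
  have X : XR 67108864 x := XR.of hx hx' (by norm_num) (by norm_num) (by norm_num) (by norm_num)
  have hen : 0 < eng.v x := en_pos X.x0.le
  refine CornW.altA (C := cA101R) (j := (0 : Fin 9)) (k := (1 : Fin 9)) (Ef := esg) (pd := pd) (o := 3 / 40)
    (cornW_of (C := cA101R) (C0 := c0B) (En := eng) (mo := mog) (j := (0 : Fin 9)) (k := (1 : Fin 9)) (lo := 5) (hi := 8) (W := 67108864) (N0 := 3) cA101R_q (sideB hx hx') gokB (pinU hx hx') dokB X (by norm_num) (by norm_num) (l := (5 : Fin 9)) rfl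
      (gatB01 x) (gatB10 x) (gatB51 x) (datB01 x) (datB10 x) (datB51 x) ?_)
    (cornS_of (C := cA101R) (C0 := c0B) (j := (0 : Fin 9)) (k := (1 : Fin 9)) (lo := 5) (hi := 8) (W := 67108864) (N0 := 3) cA101R_q (sideB hx hx') gokB X (by norm_num) (by norm_num) (l := (5 : Fin 9)) rfl
      (gatB01 x) (gatB10 x) (gatB51 x) ?_)
    (thU (pinU hx hx')) rfl hκ (fun j q y => tC_eq j q y x) (esg_rng X.x0.le (by linarith [X.b, X.p0])).1 (mo_v x) le_rfl le_rfl
  · intro ρ a B hρ hd i h1 h2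
    fin_cases i
    · exact absurd h1 (by norm_num)
    · exact absurd h1 (by norm_num)
    · exact absurd h1 (by norm_num)
    · exact absurd h1 (by norm_num)
    · exact corW_cert (G1 := gB0q1) (G2 := gB1q0) (Ga := gB4q1) (Gb := gB5q1) (D1 := dB0q1) (D2 := dB1q0) (Da := dB4q1) (Db := dB5q1) cA101R_ok B hρ hen (gatB01 x) (gatB10 x) (fun h => absurd h (by decide)) (fun _ => gatB51 x) (datB01 x) (datB10 x) (fun h => absurd h (by decide)) (fun _ => datB51 x) hd hx hx' CW.A101R_014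
    · exact corW_cert (G1 := gB0q1) (G2 := gB1q0) (Ga := gB5q1) (Gb := gB6q1) (D1 := dB0q1) (D2 := dB1q0) (Da := dB5q1) (Db := dB6q1) cA101R_ok B hρ hen (gatB01 x) (gatB10 x) (fun _ => gatB51 x) (fun _ => gatB61 x) (datB01 x) (datB10 x) (fun _ => datB51 x) (fun _ => datB61 x) hd hx hx' CW.A101R_015
    · exact corW_cert (G1 := gB0q1) (G2 := gB1q0) (Ga := gB6q1) (Gb := gB7q1) (D1 := dB0q1) (D2 := dB1q0) (Da := dB6q1) (Db := dB7q1) cA101R_ok B hρ hen (gatB01 x) (gatB10 x) (fun _ => gatB61 x) (fun _ => gatB71 x) (datB01 x) (datB10 x) (fun _ => datB61 x) (fun _ => datB71 x) hd hx hx' CW.A101R_016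
    · exact corW_cert (G1 := gB0q1) (G2 := gB1q0) (Ga := gB7q1) (Gb := gB8q1) (D1 := dB0q1) (D2 := dB1q0) (Da := dB7q1) (Db := dB8q1) cA101R_ok B hρ hen (gatB01 x) (gatB10 x) (fun _ => gatB71 x) (fun _ => gatB81 x) (datB01 x) (datB10 x) (fun _ => datB71 x) (fun _ => datB81 x) hd hx hx' CW.A101R_017
  · intro ρ a B hρ hd i h1 h2
    fin_cases i
    · exact absurd h1 (by norm_num)
    · exact absurd h1 (by norm_num)
    · exact absurd h1 (by norm_num)
    · exact absurd h1 (by norm_num)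
    · exact corT_cert (G1 := gB0q1) (G2 := gB1q0) (Ga := gB4q1) (Gb := gB5q1) cA101R_ok B hρ (gatB01 x) (gatB10 x) (fun h => absurd h (by decide)) (fun _ => gatB51 x) hd hx hx' CG.A101R_014
    · exact corT_cert (G1 := gB0q1) (G2 := gB1q0) (Ga := gB5q1) (Gb := gB6q1) cA101R_ok B hρ (gatB01 x) (gatB10 x) (fun _ => gatB51 x) (fun _ => gatB61 x) hd hx hx' CG.A101R_015
    · exact corT_cert (G1 := gB0q1) (G2 := gB1q0) (Ga := gB6q1) (Gb := gB7q1) cA101R_ok B hρ (gatB01 x) (gatB10 x) (fun _ => gatB61 x) (fun _ => gatB71 x) hd hx hx' CG.A101R_016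
    · exact corT_cert (G1 := gB0q1) (G2 := gB1q0) (Ga := gB7q1) (Gb := gB8q1) cA101R_ok B hρ (gatB01 x) (gatB10 x) (fun _ => gatB71 x) (fun _ => gatB81 x) hd hx hx' CG.A101R_017

theorem altB_A101R_02 {κ x : ℝ} (hκ : κ * h0 = ken x) (hx : ((649613803 : ℕ) : ℝ) / S ≤ x) (hx' : x ≤ (((649613803 : ℕ) : ℝ) + (48318383 : ℕ)) / S) :
    AltEA 3 κ (eng.v x) (3 / 40) (tnt (h0 * x) (3 / 10)) PP tK tL tC pcB (scP esg pd) [⟨0, 1, 0, 67108864⟩, ⟨1, 0, 0, 67108864⟩, ⟨2, 1, 0, 67108864⟩] 1 0 1 0 2 (sgb false) (sgb false) x := by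
  have X : XR 67108864 x := XR.of hx hx' (by norm_num) (by norm_num) (by norm_num) (by norm_num)
  have hen : 0 < eng.v x := en_pos X.x0.le
  refine CornW.altA (C := cA101R) (j := (0 : Fin 9)) (k := (2 : Fin 9)) (Ef := esg) (pd := pd) (o := 3 / 40)
    (cornW_of (C := cA101R) (C0 := c0B) (En := eng) (mo := mog) (j := (0 : Fin 9)) (k := (2 : Fin 9)) (lo := 5) (hi := 8) (W := 67108864) (N0 := 3) cA101R_q (sideB hx hx') gokB (pinU hx hx') dokB X (by norm_num) (by norm_num) (l := (5 : Fin 9)) rfl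
      (gatB01 x) (gatB20 x) (gatB51 x) (datB01 x) (datB20 x) (datB51 x) ?_)
    (cornS_of (C := cA101R) (C0 := c0B) (j := (0 : Fin 9)) (k := (2 : Fin 9)) (lo := 5) (hi := 8) (W := 67108864) (N0 := 3) cA101R_q (sideB hx hx') gokB X (by norm_num) (by norm_num) (l := (5 : Fin 9)) rfl
      (gatB01 x) (gatB20 x) (gatB51 x) ?_)
    (thU (pinU hx hx')) rfl hκ (fun j q y => tC_eq j q y x) (esg_rng X.x0.le (by linarith [X.b, X.p0])).1 (mo_v x) le_rfl le_rfl
  · intro ρ a B hρ hd i h1 h2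
    fin_cases i
    · exact absurd h1 (by norm_num)
    · exact absurd h1 (by norm_num)
    · exact absurd h1 (by norm_num)
    · exact absurd h1 (by norm_num)
    · exact corW_cert (G1 := gB0q1) (G2 := gB2q0) (Ga := gB4q1) (Gb := gB5q1) (D1 := dB0q1) (D2 := dB2q0) (Da := dB4q1) (Db := dB5q1) cA101R_ok B hρ hen (gatB01 x) (gatB20 x) (fun h => absurd h (by decide)) (fun _ => gatB51 x) (datB01 x) (datB20 x) (fun h => absurd h (by decide)) (fun _ => datB51 x) hd hx hx' CW.A101R_024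
    · exact corW_cert (G1 := gB0q1) (G2 := gB2q0) (Ga := gB5q1) (Gb := gB6q1) (D1 := dB0q1) (D2 := dB2q0) (Da := dB5q1) (Db := dB6q1) cA101R_ok B hρ hen (gatB01 x) (gatB20 x) (fun _ => gatB51 x) (fun _ => gatB61 x) (datB01 x) (datB20 x) (fun _ => datB51 x) (fun _ => datB61 x) hd hx hx' CW.A101R_025
    · exact corW_cert (G1 := gB0q1) (G2 := gB2q0) (Ga := gB6q1) (Gb := gB7q1) (D1 := dB0q1) (D2 := dB2q0) (Da := dB6q1) (Db := dB7q1) cA101R_ok B hρ hen (gatB01 x) (gatB20 x) (fun _ => gatB61 x) (fun _ => gatB71 x) (datB01 x) (datB20 x) (fun _ => datB61 x) (fun _ => datB71 x) hd hx hx' CW.A101R_026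
    · exact corW_cert (G1 := gB0q1) (G2 := gB2q0) (Ga := gB7q1) (Gb := gB8q1) (D1 := dB0q1) (D2 := dB2q0) (Da := dB7q1) (Db := dB8q1) cA101R_ok B hρ hen (gatB01 x) (gatB20 x) (fun _ => gatB71 x) (fun _ => gatB81 x) (datB01 x) (datB20 x) (fun _ => datB71 x) (fun _ => datB81 x) hd hx hx' CW.A101R_027
  · intro ρ a B hρ hd i h1 h2
    fin_cases i
    · exact absurd h1 (by norm_num)
    · exact absurd h1 (by norm_num)
    · exact absurd h1 (by norm_num)
    · exact absurd h1 (by norm_num)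
    · exact corT_cert (G1 := gB0q1) (G2 := gB2q0) (Ga := gB4q1) (Gb := gB5q1) cA101R_ok B hρ (gatB01 x) (gatB20 x) (fun h => absurd h (by decide)) (fun _ => gatB51 x) hd hx hx' CG.A101R_024
    · exact corT_cert (G1 := gB0q1) (G2 := gB2q0) (Ga := gB5q1) (Gb := gB6q1) cA101R_ok B hρ (gatB01 x) (gatB20 x) (fun _ => gatB51 x) (fun _ => gatB61 x) hd hx hx' CG.A101R_025
    · exact corT_cert (G1 := gB0q1) (G2 := gB2q0) (Ga := gB6q1) (Gb := gB7q1) cA101R_ok B hρ (gatB01 x) (gatB20 x) (fun _ => gatB61 x) (fun _ => gatB71 x) hd hx hx' CG.A101R_026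
    · exact corT_cert (G1 := gB0q1) (G2 := gB2q0) (Ga := gB7q1) (Gb := gB8q1) cA101R_ok B hρ (gatB01 x) (gatB20 x) (fun _ => gatB71 x) (fun _ => gatB81 x) hd hx hx' CG.A101R_027

theorem altB_A101R_03 {κ x : ℝ} (hκ : κ * h0 = ken x) (hx : ((649613803 : ℕ) : ℝ) / S ≤ x) (hx' : x ≤ (((649613803 : ℕ) : ℝ) + (48318383 : ℕ)) / S) :
    AltEA 3 κ (eng.v x) (3 / 40) (tnt (h0 * x) (3 / 10)) PP tK tL tC pcB (scP esg pd) [⟨0, 1, 0, 67108864⟩, ⟨1, 0, 0, 67108864⟩, ⟨2, 1, 0, 67108864⟩] 1 0 1 0 3 (sgb false) (sgb false) x := by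
  have X : XR 67108864 x := XR.of hx hx' (by norm_num) (by norm_num) (by norm_num) (by norm_num)
  have hen : 0 < eng.v x := en_pos X.x0.le
  refine CornW.altA (C := cA101R) (j := (0 : Fin 9)) (k := (3 : Fin 9)) (Ef := esg) (pd := pd) (o := 3 / 40)
    (cornW_of (C := cA101R) (C0 := c0B) (En := eng) (mo := mog) (j := (0 : Fin 9)) (k := (3 : Fin 9)) (lo := 5) (hi := 8) (W := 67108864) (N0 := 3) cA101R_q (sideB hx hx') gokB (pinU hx hx') dokB X (by norm_num) (by norm_num) (l := (5 : Fin 9)) rfl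
      (gatB01 x) (gatB30 x) (gatB51 x) (datB01 x) (datB30 x) (datB51 x) ?_)
    (cornS_of (C := cA101R) (C0 := c0B) (j := (0 : Fin 9)) (k := (3 : Fin 9)) (lo := 5) (hi := 8) (W := 67108864) (N0 := 3) cA101R_q (sideB hx hx') gokB X (by norm_num) (by norm_num) (l := (5 : Fin 9)) rfl
      (gatB01 x) (gatB30 x) (gatB51 x) ?_)
    (thU (pinU hx hx')) rfl hκ (fun j q y => tC_eq j q y x) (esg_rng X.x0.le (by linarith [X.b, X.p0])).1 (mo_v x) le_rfl le_rfl
  · intro ρ a B hρ hd i h1 h2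
    fin_cases i
    · exact absurd h1 (by norm_num)
    · exact absurd h1 (by norm_num)
    · exact absurd h1 (by norm_num)
    · exact absurd h1 (by norm_num)
    · exact corW_cert (G1 := gB0q1) (G2 := gB3q0) (Ga := gB4q1) (Gb := gB5q1) (D1 := dB0q1) (D2 := dB3q0) (Da := dB4q1) (Db := dB5q1) cA101R_ok B hρ hen (gatB01 x) (gatB30 x) (fun h => absurd h (by decide)) (fun _ => gatB51 x) (datB01 x) (datB30 x) (fun h => absurd h (by decide)) (fun _ => datB51 x) hd hx hx' CW.A101R_034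
    · exact corW_cert (G1 := gB0q1) (G2 := gB3q0) (Ga := gB5q1) (Gb := gB6q1) (D1 := dB0q1) (D2 := dB3q0) (Da := dB5q1) (Db := dB6q1) cA101R_ok B hρ hen (gatB01 x) (gatB30 x) (fun _ => gatB51 x) (fun _ => gatB61 x) (datB01 x) (datB30 x) (fun _ => datB51 x) (fun _ => datB61 x) hd hx hx' CW.A101R_035
    · exact corW_cert (G1 := gB0q1) (G2 := gB3q0) (Ga := gB6q1) (Gb := gB7q1) (D1 := dB0q1) (D2 := dB3q0) (Da := dB6q1) (Db := dB7q1) cA101R_ok B hρ hen (gatB01 x) (gatB30 x) (fun _ => gatB61 x) (fun _ => gatB71 x) (datB01 x) (datB30 x) (fun _ => datB61 x) (fun _ => datB71 x) hd hx hx' CW.A101R_036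
    · exact corW_cert (G1 := gB0q1) (G2 := gB3q0) (Ga := gB7q1) (Gb := gB8q1) (D1 := dB0q1) (D2 := dB3q0) (Da := dB7q1) (Db := dB8q1) cA101R_ok B hρ hen (gatB01 x) (gatB30 x) (fun _ => gatB71 x) (fun _ => gatB81 x) (datB01 x) (datB30 x) (fun _ => datB71 x) (fun _ => datB81 x) hd hx hx' CW.A101R_037
  · intro ρ a B hρ hd i h1 h2
    fin_cases i
    · exact absurd h1 (by norm_num)
    · exact absurd h1 (by norm_num)
    · exact absurd h1 (by norm_num)
    · exact absurd h1 (by norm_num)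
    · exact corT_cert (G1 := gB0q1) (G2 := gB3q0) (Ga := gB4q1) (Gb := gB5q1) cA101R_ok B hρ (gatB01 x) (gatB30 x) (fun h => absurd h (by decide)) (fun _ => gatB51 x) hd hx hx' CG.A101R_034
    · exact corT_cert (G1 := gB0q1) (G2 := gB3q0) (Ga := gB5q1) (Gb := gB6q1) cA101R_ok B hρ (gatB01 x) (gatB30 x) (fun _ => gatB51 x) (fun _ => gatB61 x) hd hx hx' CG.A101R_035
    · exact corT_cert (G1 := gB0q1) (G2 := gB3q0) (Ga := gB6q1) (Gb := gB7q1) cA101R_ok B hρ (gatB01 x) (gatB30 x) (fun _ => gatB61 x) (fun _ => gatB71 x) hd hx hx' CG.A101R_036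
    · exact corT_cert (G1 := gB0q1) (G2 := gB3q0) (Ga := gB7q1) (Gb := gB8q1) cA101R_ok B hρ (gatB01 x) (gatB30 x) (fun _ => gatB71 x) (fun _ => gatB81 x) hd hx hx' CG.A101R_037

theorem altB_A101R_04 {κ x : ℝ} (hκ : κ * h0 = ken x) (hx : ((649613803 : ℕ) : ℝ) / S ≤ x) (hx' : x ≤ (((649613803 : ℕ) : ℝ) + (48318383 : ℕ)) / S) :
    AltEA 3 κ (eng.v x) (3 / 40) (tnt (h0 * x) (3 / 10)) PP tK tL tC pcB (scP esg pd) [⟨0, 1, 0, 67108864⟩, ⟨1, 0, 0, 67108864⟩, ⟨2, 1, 0, 67108864⟩] 1 0 1 0 4 (sgb false) (sgb false) x := by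
  have X : XR 67108864 x := XR.of hx hx' (by norm_num) (by norm_num) (by norm_num) (by norm_num)
  have hen : 0 < eng.v x := en_pos X.x0.le
  refine CornW.altA (C := cA101R) (j := (0 : Fin 9)) (k := (4 : Fin 9)) (Ef := esg) (pd := pd) (o := 3 / 40)
    (cornW_of (C := cA101R) (C0 := c0B) (En := eng) (mo := mog) (j := (0 : Fin 9)) (k := (4 : Fin 9)) (lo := 5) (hi := 8) (W := 67108864) (N0 := 3) cA101R_q (sideB hx hx') gokB (pinU hx hx') dokB X (by norm_num) (by norm_num) (l := (5 : Fin 9)) rfl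
      (gatB01 x) (gatB40 x) (gatB51 x) (datB01 x) (datB40 x) (datB51 x) ?_)
    (cornS_of (C := cA101R) (C0 := c0B) (j := (0 : Fin 9)) (k := (4 : Fin 9)) (lo := 5) (hi := 8) (W := 67108864) (N0 := 3) cA101R_q (sideB hx hx') gokB X (by norm_num) (by norm_num) (l := (5 : Fin 9)) rfl
      (gatB01 x) (gatB40 x) (gatB51 x) ?_)
    (thU (pinU hx hx')) rfl hκ (fun j q y => tC_eq j q y x) (esg_rng X.x0.le (by linarith [X.b, X.p0])).1 (mo_v x) le_rfl le_rfl
  · intro ρ a B hρ hd i h1 h2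
    fin_cases i
    · exact absurd h1 (by norm_num)
    · exact absurd h1 (by norm_num)
    · exact absurd h1 (by norm_num)
    · exact absurd h1 (by norm_num)
    · exact corW_cert (G1 := gB0q1) (G2 := gB4q0) (Ga := gB4q1) (Gb := gB5q1) (D1 := dB0q1) (D2 := dB4q0) (Da := dB4q1) (Db := dB5q1) cA101R_ok B hρ hen (gatB01 x) (gatB40 x) (fun h => absurd h (by decide)) (fun _ => gatB51 x) (datB01 x) (datB40 x) (fun h => absurd h (by decide)) (fun _ => datB51 x) hd hx hx' CW.A101R_044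
    · exact corW_cert (G1 := gB0q1) (G2 := gB4q0) (Ga := gB5q1) (Gb := gB6q1) (D1 := dB0q1) (D2 := dB4q0) (Da := dB5q1) (Db := dB6q1) cA101R_ok B hρ hen (gatB01 x) (gatB40 x) (fun _ => gatB51 x) (fun _ => gatB61 x) (datB01 x) (datB40 x) (fun _ => datB51 x) (fun _ => datB61 x) hd hx hx' CW.A101R_045
    · exact corW_cert (G1 := gB0q1) (G2 := gB4q0) (Ga := gB6q1) (Gb := gB7q1) (D1 := dB0q1) (D2 := dB4q0) (Da := dB6q1) (Db := dB7q1) cA101R_ok B hρ hen (gatB01 x) (gatB40 x) (fun _ => gatB61 x) (fun _ => gatB71 x) (datB01 x) (datB40 x) (fun _ => datB61 x) (fun _ => datB71 x) hd hx hx' CW.A101R_046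
    · exact corW_cert (G1 := gB0q1) (G2 := gB4q0) (Ga := gB7q1) (Gb := gB8q1) (D1 := dB0q1) (D2 := dB4q0) (Da := dB7q1) (Db := dB8q1) cA101R_ok B hρ hen (gatB01 x) (gatB40 x) (fun _ => gatB71 x) (fun _ => gatB81 x) (datB01 x) (datB40 x) (fun _ => datB71 x) (fun _ => datB81 x) hd hx hx' CW.A101R_047
  · intro ρ a B hρ hd i h1 h2
    fin_cases i
    · exact absurd h1 (by norm_num)
    · exact absurd h1 (by norm_num)
    · exact absurd h1 (by norm_num)
    · exact absurd h1 (by norm_num)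
    · exact corT_cert (G1 := gB0q1) (G2 := gB4q0) (Ga := gB4q1) (Gb := gB5q1) cA101R_ok B hρ (gatB01 x) (gatB40 x) (fun h => absurd h (by decide)) (fun _ => gatB51 x) hd hx hx' CG.A101R_044
    · exact corT_cert (G1 := gB0q1) (G2 := gB4q0) (Ga := gB5q1) (Gb := gB6q1) cA101R_ok B hρ (gatB01 x) (gatB40 x) (fun _ => gatB51 x) (fun _ => gatB61 x) hd hx hx' CG.A101R_045
    · exact corT_cert (G1 := gB0q1) (G2 := gB4q0) (Ga := gB6q1) (Gb := gB7q1) cA101R_ok B hρ (gatB01 x) (gatB40 x) (fun _ => gatB61 x) (fun _ => gatB71 x) hd hx hx' CG.A101R_046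
    · exact corT_cert (G1 := gB0q1) (G2 := gB4q0) (Ga := gB7q1) (Gb := gB8q1) cA101R_ok B hρ (gatB01 x) (gatB40 x) (fun _ => gatB71 x) (fun _ => gatB81 x) hd hx hx' CG.A101R_047

theorem altB_A102E_00 {κ x : ℝ} (hκ : κ * h0 = ken x) (hx : ((649613803 : ℕ) : ℝ) / S ≤ x) (hx' : x ≤ (((649613803 : ℕ) : ℝ) + (48318383 : ℕ)) / S) :
    AltEA 3 κ (eng.v x) (3 / 40) (tnt (h0 * x) (3 / 10)) PP tK tL tC pcB (scP esg pd) [⟨0, 1, 0, 33554432⟩, ⟨1, 0, 0, 33554432⟩, ⟨2, 1, 0, 33554432⟩] 1 0 2 0 0 (sgb true) (sgb false) x := by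
  have X : XR 33554432 x := XR.of hx hx' (by norm_num) (by norm_num) (by norm_num) (by norm_num)
  have hen : 0 < eng.v x := en_pos X.x0.le
  refine CornW.altA (C := cA102E) (j := (0 : Fin 9)) (k := (0 : Fin 9)) (Ef := esg) (pd := pd) (o := 3 / 40)
    (cornW_of (C := cA102E) (C0 := c0B) (En := eng) (mo := mog) (j := (0 : Fin 9)) (k := (0 : Fin 9)) (lo := 0) (hi := 4) (W := 33554432) (N0 := 3) cA102E_q (sideB hx hx') gokB (pinU hx hx') dokB X (by norm_num) (by norm_num) (l := (0 : Fin 9)) rfl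
      (gatB01 x) (gatB00 x) (gatB02 x) (datB01 x) (datB00 x) (datB02 x) ?_)
    (cornS_of (C := cA102E) (C0 := c0B) (j := (0 : Fin 9)) (k := (0 : Fin 9)) (lo := 0) (hi := 4) (W := 33554432) (N0 := 3) cA102E_q (sideB hx hx') gokB X (by norm_num) (by norm_num) (l := (0 : Fin 9)) rfl
      (gatB01 x) (gatB00 x) (gatB02 x) ?_)
    (thU (pinU hx hx')) rfl hκ (fun j q y => tC_eq j q y x) (esg_rng X.x0.le (by linarith [X.b, X.p0])).1 (mo_v x) le_rfl le_rfl
  · intro ρ a B hρ hd i h1 h2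
    fin_cases i
    · exact corW_cert (G1 := gB0q1) (G2 := gB0q0) (Ga := gB0q2) (Gb := gB1q2) (D1 := dB0q1) (D2 := dB0q0) (Da := dB0q2) (Db := dB1q2) cA102E_ok B hρ hen (gatB01 x) (gatB00 x) (fun _ => gatB02 x) (fun _ => gatB12 x) (datB01 x) (datB00 x) (fun _ => datB02 x) (fun _ => datB12 x) hd hx hx' CW.A102E_000
    · exact corW_cert (G1 := gB0q1) (G2 := gB0q0) (Ga := gB1q2) (Gb := gB2q2) (D1 := dB0q1) (D2 := dB0q0) (Da := dB1q2) (Db := dB2q2) cA102E_ok B hρ hen (gatB01 x) (gatB00 x) (fun _ => gatB12 x) (fun _ => gatB22 x) (datB01 x) (datB00 x) (fun _ => datB12 x) (fun _ => datB22 x) hd hx hx' CW.A102E_001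
    · exact corW_cert (G1 := gB0q1) (G2 := gB0q0) (Ga := gB2q2) (Gb := gB3q2) (D1 := dB0q1) (D2 := dB0q0) (Da := dB2q2) (Db := dB3q2) cA102E_ok B hρ hen (gatB01 x) (gatB00 x) (fun _ => gatB22 x) (fun _ => gatB32 x) (datB01 x) (datB00 x) (fun _ => datB22 x) (fun _ => datB32 x) hd hx hx' CW.A102E_002
    · exact corW_cert (G1 := gB0q1) (G2 := gB0q0) (Ga := gB3q2) (Gb := gB4q2) (D1 := dB0q1) (D2 := dB0q0) (Da := dB3q2) (Db := dB4q2) cA102E_ok B hρ hen (gatB01 x) (gatB00 x) (fun _ => gatB32 x) (fun _ => gatB42 x) (datB01 x) (datB00 x) (fun _ => datB32 x) (fun _ => datB42 x) hd hx hx' CW.A102E_003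
    · exact corW_cert (G1 := gB0q1) (G2 := gB0q0) (Ga := gB4q2) (Gb := gB5q2) (D1 := dB0q1) (D2 := dB0q0) (Da := dB4q2) (Db := dB5q2) cA102E_ok B hρ hen (gatB01 x) (gatB00 x) (fun _ => gatB42 x) (fun h => absurd h (by decide)) (datB01 x) (datB00 x) (fun _ => datB42 x) (fun h => absurd h (by decide)) hd hx hx' CW.A102E_004
    · exact absurd h2 (by norm_num)
    · exact absurd h2 (by norm_num)
    · exact absurd h2 (by norm_num)
  · intro ρ a B hρ hd i h1 h2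
    fin_cases i
    · exact corX_cert (G1 := gB0q1) (G2 := gB0q0) (Ga := gB0q2) (Gb := gB1q2) (GT := gB0q2) cA102E_ok tA102E_ok B hρ (gatB01 x) (gatB00 x) (fun _ => gatB02 x) (fun _ => gatB12 x) rfl (tgh_A102E (kodd x) (gpu1 x) (gpu0 x) (gpu2 x) (gatB01 x) (gatB00 x) (gatB02 x) B (le_sixteenth hd (by norm_num))) hd hx hx' CG.A102E_000
    · exact corT_cert (G1 := gB0q1) (G2 := gB0q0) (Ga := gB1q2) (Gb := gB2q2) cA102E_ok B hρ (gatB01 x) (gatB00 x) (fun _ => gatB12 x) (fun _ => gatB22 x) hd hx hx' CG.A102E_001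
    · exact corT_cert (G1 := gB0q1) (G2 := gB0q0) (Ga := gB2q2) (Gb := gB3q2) cA102E_ok B hρ (gatB01 x) (gatB00 x) (fun _ => gatB22 x) (fun _ => gatB32 x) hd hx hx' CG.A102E_002
    · exact corT_cert (G1 := gB0q1) (G2 := gB0q0) (Ga := gB3q2) (Gb := gB4q2) cA102E_ok B hρ (gatB01 x) (gatB00 x) (fun _ => gatB32 x) (fun _ => gatB42 x) hd hx hx' CG.A102E_003
    · exact corT_cert (G1 := gB0q1) (G2 := gB0q0) (Ga := gB4q2) (Gb := gB5q2) cA102E_ok B hρ (gatB01 x) (gatB00 x) (fun _ => gatB42 x) (fun h => absurd h (by decide)) hd hx hx' CG.A102E_004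
    · exact absurd h2 (by norm_num)
    · exact absurd h2 (by norm_num)
    · exact absurd h2 (by norm_num)

theorem altB_A102E_01 {κ x : ℝ} (hκ : κ * h0 = ken x) (hx : ((649613803 : ℕ) : ℝ) / S ≤ x) (hx' : x ≤ (((649613803 : ℕ) : ℝ) + (48318383 : ℕ)) / S) :
    AltEA 3 κ (eng.v x) (3 / 40) (tnt (h0 * x) (3 / 10)) PP tK tL tC pcB (scP esg pd) [⟨0, 1, 0, 67108864⟩, ⟨1, 0, 0, 67108864⟩, ⟨2, 1, 0, 67108864⟩] 1 0 2 0 1 (sgb true) (sgb false) x := by
  have X : XR 67108864 x := XR.of hx hx' (by norm_num) (by norm_num) (by norm_num) (by norm_num)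
  have hen : 0 < eng.v x := en_pos X.x0.le
  refine CornW.altA (C := cA102E) (j := (0 : Fin 9)) (k := (1 : Fin 9)) (Ef := esg) (pd := pd) (o := 3 / 40)
    (cornW_of (C := cA102E) (C0 := c0B) (En := eng) (mo := mog) (j := (0 : Fin 9)) (k := (1 : Fin 9)) (lo := 0) (hi := 4) (W := 67108864) (N0 := 3) cA102E_q (sideB hx hx') gokB (pinU hx hx') dokB X (by norm_num) (by norm_num) (l := (0 : Fin 9)) rfl
      (gatB01 x) (gatB10 x) (gatB02 x) (datB01 x) (datB10 x) (datB02 x) ?_)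
    (cornS_of (C := cA102E) (C0 := c0B) (j := (0 : Fin 9)) (k := (1 : Fin 9)) (lo := 0) (hi := 4) (W := 67108864) (N0 := 3) cA102E_q (sideB hx hx') gokB X (by norm_num) (by norm_num) (l := (0 : Fin 9)) rfl
      (gatB01 x) (gatB10 x) (gatB02 x) ?_)
    (thU (pinU hx hx')) rfl hκ (fun j q y => tC_eq j q y x) (esg_rng X.x0.le (by linarith [X.b, X.p0])).1 (mo_v x) le_rfl le_rfl
  · intro ρ a B hρ hd i h1 h2
    fin_cases i
    · exact corW_cert (G1 := gB0q1) (G2 := gB1q0) (Ga := gB0q2) (Gb := gB1q2) (D1 := dB0q1) (D2 := dB1q0) (Da := dB0q2) (Db := dB1q2) cA102E_ok B hρ hen (gatB01 x) (gatB10 x) (fun _ => gatB02 x) (fun _ => gatB12 x) (datB01 x) (datB10 x) (fun _ => datB02 x) (fun _ => datB12 x) hd hx hx' CW.A102E_010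
    · exact corW_cert (G1 := gB0q1) (G2 := gB1q0) (Ga := gB1q2) (Gb := gB2q2) (D1 := dB0q1) (D2 := dB1q0) (Da := dB1q2) (Db := dB2q2) cA102E_ok B hρ hen (gatB01 x) (gatB10 x) (fun _ => gatB12 x) (fun _ => gatB22 x) (datB01 x) (datB10 x) (fun _ => datB12 x) (fun _ => datB22 x) hd hx hx' CW.A102E_011
    · exact corW_cert (G1 := gB0q1) (G2 := gB1q0) (Ga := gB2q2) (Gb := gB3q2) (D1 := dB0q1) (D2 := dB1q0) (Da := dB2q2) (Db := dB3q2) cA102E_ok B hρ hen (gatB01 x) (gatB10 x) (fun _ => gatB22 x) (fun _ => gatB32 x) (datB01 x) (datB10 x) (fun _ => datB22 x) (fun _ => datB32 x) hd hx hx' CW.A102E_012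
    · exact corW_cert (G1 := gB0q1) (G2 := gB1q0) (Ga := gB3q2) (Gb := gB4q2) (D1 := dB0q1) (D2 := dB1q0) (Da := dB3q2) (Db := dB4q2) cA102E_ok B hρ hen (gatB01 x) (gatB10 x) (fun _ => gatB32 x) (fun _ => gatB42 x) (datB01 x) (datB10 x) (fun _ => datB32 x) (fun _ => datB42 x) hd hx hx' CW.A102E_013
    · exact corW_cert (G1 := gB0q1) (G2 := gB1q0) (Ga := gB4q2) (Gb := gB5q2) (D1 := dB0q1) (D2 := dB1q0) (Da := dB4q2) (Db := dB5q2) cA102E_ok B hρ hen (gatB01 x) (gatB10 x) (fun _ => gatB42 x) (fun h => absurd h (by decide)) (datB01 x) (datB10 x) (fun _ => datB42 x) (fun h => absurd h (by decide)) hd hx hx' CW.A102E_014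
    · exact absurd h2 (by norm_num)
    · exact absurd h2 (by norm_num)
    · exact absurd h2 (by norm_num)
  · intro ρ a B hρ hd i h1 h2
    fin_cases i
    · exact corT_cert (G1 := gB0q1) (G2 := gB1q0) (Ga := gB0q2) (Gb := gB1q2) cA102E_ok B hρ (gatB01 x) (gatB10 x) (fun _ => gatB02 x) (fun _ => gatB12 x) hd hx hx' CG.A102E_010
    · exact corT_cert (G1 := gB0q1) (G2 := gB1q0) (Ga := gB1q2) (Gb := gB2q2) cA102E_ok B hρ (gatB01 x) (gatB10 x) (fun _ => gatB12 x) (fun _ => gatB22 x) hd hx hx' CG.A102E_011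
    · exact corT_cert (G1 := gB0q1) (G2 := gB1q0) (Ga := gB2q2) (Gb := gB3q2) cA102E_ok B hρ (gatB01 x) (gatB10 x) (fun _ => gatB22 x) (fun _ => gatB32 x) hd hx hx' CG.A102E_012
    · exact corT_cert (G1 := gB0q1) (G2 := gB1q0) (Ga := gB3q2) (Gb := gB4q2) cA102E_ok B hρ (gatB01 x) (gatB10 x) (fun _ => gatB32 x) (fun _ => gatB42 x) hd hx hx' CG.A102E_013
    · exact corT_cert (G1 := gB0q1) (G2 := gB1q0) (Ga := gB4q2) (Gb := gB5q2) cA102E_ok B hρ (gatB01 x) (gatB10 x) (fun _ => gatB42 x) (fun h => absurd h (by decide)) hd hx hx' CG.A102E_014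
    · exact absurd h2 (by norm_num)
    · exact absurd h2 (by norm_num)
    · exact absurd h2 (by norm_num)

theorem altB_A102E_02 {κ x : ℝ} (hκ : κ * h0 = ken x) (hx : ((649613803 : ℕ) : ℝ) / S ≤ x) (hx' : x ≤ (((649613803 : ℕ) : ℝ) + (48318383 : ℕ)) / S) :
    AltEA 3 κ (eng.v x) (3 / 40) (tnt (h0 * x) (3 / 10)) PP tK tL tC pcB (scP esg pd) [⟨0, 1, 0, 67108864⟩, ⟨1, 0, 0, 67108864⟩, ⟨2, 1, 0, 67108864⟩] 1 0 2 0 2 (sgb true) (sgb false) x := by
  have X : XR 67108864 x := XR.of hx hx' (by norm_num) (by norm_num) (by norm_num) (by norm_num)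
  have hen : 0 < eng.v x := en_pos X.x0.le
  refine CornW.altA (C := cA102E) (j := (0 : Fin 9)) (k := (2 : Fin 9)) (Ef := esg) (pd := pd) (o := 3 / 40)
    (cornW_of (C := cA102E) (C0 := c0B) (En := eng) (mo := mog) (j := (0 : Fin 9)) (k := (2 : Fin 9)) (lo := 0) (hi := 4) (W := 67108864) (N0 := 3) cA102E_q (sideB hx hx') gokB (pinU hx hx') dokB X (by norm_num) (by norm_num) (l := (0 : Fin 9)) rfl
      (gatB01 x) (gatB20 x) (gatB02 x) (datB01 x) (datB20 x) (datB02 x) ?_)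
    (cornS_of (C := cA102E) (C0 := c0B) (j := (0 : Fin 9)) (k := (2 : Fin 9)) (lo := 0) (hi := 4) (W := 67108864) (N0 := 3) cA102E_q (sideB hx hx') gokB X (by norm_num) (by norm_num) (l := (0 : Fin 9)) rfl
      (gatB01 x) (gatB20 x) (gatB02 x) ?_)
    (thU (pinU hx hx')) rfl hκ (fun j q y => tC_eq j q y x) (esg_rng X.x0.le (by linarith [X.b, X.p0])).1 (mo_v x) le_rfl le_rfl
  · intro ρ a B hρ hd i h1 h2
    fin_cases i
    · exact corW_cert (G1 := gB0q1) (G2 := gB2q0) (Ga := gB0q2) (Gb := gB1q2) (D1 := dB0q1) (D2 := dB2q0) (Da := dB0q2) (Db := dB1q2) cA102E_ok B hρ hen (gatB01 x) (gatB20 x) (fun _ => gatB02 x) (fun _ => gatB12 x) (datB01 x) (datB20 x) (fun _ => datB02 x) (fun _ => datB12 x) hd hx hx' CW.A102E_020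
    · exact corW_cert (G1 := gB0q1) (G2 := gB2q0) (Ga := gB1q2) (Gb := gB2q2) (D1 := dB0q1) (D2 := dB2q0) (Da := dB1q2) (Db := dB2q2) cA102E_ok B hρ hen (gatB01 x) (gatB20 x) (fun _ => gatB12 x) (fun _ => gatB22 x) (datB01 x) (datB20 x) (fun _ => datB12 x) (fun _ => datB22 x) hd hx hx' CW.A102E_021
    · exact corW_cert (G1 := gB0q1) (G2 := gB2q0) (Ga := gB2q2) (Gb := gB3q2) (D1 := dB0q1) (D2 := dB2q0) (Da := dB2q2) (Db := dB3q2) cA102E_ok B hρ hen (gatB01 x) (gatB20 x) (fun _ => gatB22 x) (fun _ => gatB32 x) (datB01 x) (datB20 x) (fun _ => datB22 x) (fun _ => datB32 x) hd hx hx' CW.A102E_022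
    · exact corW_cert (G1 := gB0q1) (G2 := gB2q0) (Ga := gB3q2) (Gb := gB4q2) (D1 := dB0q1) (D2 := dB2q0) (Da := dB3q2) (Db := dB4q2) cA102E_ok B hρ hen (gatB01 x) (gatB20 x) (fun _ => gatB32 x) (fun _ => gatB42 x) (datB01 x) (datB20 x) (fun _ => datB32 x) (fun _ => datB42 x) hd hx hx' CW.A102E_023
    · exact corW_cert (G1 := gB0q1) (G2 := gB2q0) (Ga := gB4q2) (Gb := gB5q2) (D1 := dB0q1) (D2 := dB2q0) (Da := dB4q2) (Db := dB5q2) cA102E_ok B hρ hen (gatB01 x) (gatB20 x) (fun _ => gatB42 x) (fun h => absurd h (by decide)) (datB01 x) (datB20 x) (fun _ => datB42 x) (fun h => absurd h (by decide)) hd hx hx' CW.A102E_024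
    · exact absurd h2 (by norm_num)
    · exact absurd h2 (by norm_num)
    · exact absurd h2 (by norm_num)
  · intro ρ a B hρ hd i h1 h2
    fin_cases i
    · exact corT_cert (G1 := gB0q1) (G2 := gB2q0) (Ga := gB0q2) (Gb := gB1q2) cA102E_ok B hρ (gatB01 x) (gatB20 x) (fun _ => gatB02 x) (fun _ => gatB12 x) hd hx hx' CG.A102E_020
    · exact corT_cert (G1 := gB0q1) (G2 := gB2q0) (Ga := gB1q2) (Gb := gB2q2) cA102E_ok B hρ (gatB01 x) (gatB20 x) (fun _ => gatB12 x) (fun _ => gatB22 x) hd hx hx' CG.A102E_021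
    · exact corT_cert (G1 := gB0q1) (G2 := gB2q0) (Ga := gB2q2) (Gb := gB3q2) cA102E_ok B hρ (gatB01 x) (gatB20 x) (fun _ => gatB22 x) (fun _ => gatB32 x) hd hx hx' CG.A102E_022
    · exact corT_cert (G1 := gB0q1) (G2 := gB2q0) (Ga := gB3q2) (Gb := gB4q2) cA102E_ok B hρ (gatB01 x) (gatB20 x) (fun _ => gatB32 x) (fun _ => gatB42 x) hd hx hx' CG.A102E_023
    · exact corT_cert (G1 := gB0q1) (G2 := gB2q0) (Ga := gB4q2) (Gb := gB5q2) cA102E_ok B hρ (gatB01 x) (gatB20 x) (fun _ => gatB42 x) (fun h => absurd h (by decide)) hd hx hx' CG.A102E_024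
    · exact absurd h2 (by norm_num)
    · exact absurd h2 (by norm_num)
    · exact absurd h2 (by norm_num)

theorem altB_A102E_03 {κ x : ℝ} (hκ : κ * h0 = ken x) (hx : ((649613803 : ℕ) : ℝ) / S ≤ x) (hx' : x ≤ (((649613803 : ℕ) : ℝ) + (48318383 : ℕ)) / S) :
    AltEA 3 κ (eng.v x) (3 / 40) (tnt (h0 * x) (3 / 10)) PP tK tL tC pcB (scP esg pd) [⟨0, 1, 0, 67108864⟩, ⟨1, 0, 0, 67108864⟩, ⟨2, 1, 0, 67108864⟩] 1 0 2 0 3 (sgb true) (sgb false) x := by
  have X : XR 67108864 x := XR.of hx hx' (by norm_num) (by norm_num) (by norm_num) (by norm_num)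
  have hen : 0 < eng.v x := en_pos X.x0.le
  refine CornW.altA (C := cA102E) (j := (0 : Fin 9)) (k := (3 : Fin 9)) (Ef := esg) (pd := pd) (o := 3 / 40)
    (cornW_of (C := cA102E) (C0 := c0B) (En := eng) (mo := mog) (j := (0 : Fin 9)) (k := (3 : Fin 9)) (lo := 0) (hi := 4) (W := 67108864) (N0 := 3) cA102E_q (sideB hx hx') gokB (pinU hx hx') dokB X (by norm_num) (by norm_num) (l := (0 : Fin 9)) rfl
      (gatB01 x) (gatB30 x) (gatB02 x) (datB01 x) (datB30 x) (datB02 x) ?_)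
    (cornS_of (C := cA102E) (C0 := c0B) (j := (0 : Fin 9)) (k := (3 : Fin 9)) (lo := 0) (hi := 4) (W := 67108864) (N0 := 3) cA102E_q (sideB hx hx') gokB X (by norm_num) (by norm_num) (l := (0 : Fin 9)) rfl
      (gatB01 x) (gatB30 x) (gatB02 x) ?_)
    (thU (pinU hx hx')) rfl hκ (fun j q y => tC_eq j q y x) (esg_rng X.x0.le (by linarith [X.b, X.p0])).1 (mo_v x) le_rfl le_rfl
  · intro ρ a B hρ hd i h1 h2
    fin_cases i
    · exact corW_cert (G1 := gB0q1) (G2 := gB3q0) (Ga := gB0q2) (Gb := gB1q2) (D1 := dB0q1) (D2 := dB3q0) (Da := dB0q2) (Db := dB1q2) cA102E_ok B hρ hen (gatB01 x) (gatB30 x) (fun _ => gatB02 x) (fun _ => gatB12 x) (datB01 x) (datB30 x) (fun _ => datB02 x) (fun _ => datB12 x) hd hx hx' CW.A102E_030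
    · exact corW_cert (G1 := gB0q1) (G2 := gB3q0) (Ga := gB1q2) (Gb := gB2q2) (D1 := dB0q1) (D2 := dB3q0) (Da := dB1q2) (Db := dB2q2) cA102E_ok B hρ hen (gatB01 x) (gatB30 x) (fun _ => gatB12 x) (fun _ => gatB22 x) (datB01 x) (datB30 x) (fun _ => datB12 x) (fun _ => datB22 x) hd hx hx' CW.A102E_031
    · exact corW_cert (G1 := gB0q1) (G2 := gB3q0) (Ga := gB2q2) (Gb := gB3q2) (D1 := dB0q1) (D2 := dB3q0) (Da := dB2q2) (Db := dB3q2) cA102E_ok B hρ hen (gatB01 x) (gatB30 x) (fun _ => gatB22 x) (fun _ => gatB32 x) (datB01 x) (datB30 x) (fun _ => datB22 x) (fun _ => datB32 x) hd hx hx' CW.A102E_032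
    · exact corW_cert (G1 := gB0q1) (G2 := gB3q0) (Ga := gB3q2) (Gb := gB4q2) (D1 := dB0q1) (D2 := dB3q0) (Da := dB3q2) (Db := dB4q2) cA102E_ok B hρ hen (gatB01 x) (gatB30 x) (fun _ => gatB32 x) (fun _ => gatB42 x) (datB01 x) (datB30 x) (fun _ => datB32 x) (fun _ => datB42 x) hd hx hx' CW.A102E_033
    · exact corW_cert (G1 := gB0q1) (G2 := gB3q0) (Ga := gB4q2) (Gb := gB5q2) (D1 := dB0q1) (D2 := dB3q0) (Da := dB4q2) (Db := dB5q2) cA102E_ok B hρ hen (gatB01 x) (gatB30 x) (fun _ => gatB42 x) (fun h => absurd h (by decide)) (datB01 x) (datB30 x) (fun _ => datB42 x) (fun h => absurd h (by decide)) hd hx hx' CW.A102E_034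
    · exact absurd h2 (by norm_num)
    · exact absurd h2 (by norm_num)
    · exact absurd h2 (by norm_num)
  · intro ρ a B hρ hd i h1 h2
    fin_cases i
    · exact corT_cert (G1 := gB0q1) (G2 := gB3q0) (Ga := gB0q2) (Gb := gB1q2) cA102E_ok B hρ (gatB01 x) (gatB30 x) (fun _ => gatB02 x) (fun _ => gatB12 x) hd hx hx' CG.A102E_030
    · exact corT_cert (G1 := gB0q1) (G2 := gB3q0) (Ga := gB1q2) (Gb := gB2q2) cA102E_ok B hρ (gatB01 x) (gatB30 x) (fun _ => gatB12 x) (fun _ => gatB22 x) hd hx hx' CG.A102E_031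
    · exact corT_cert (G1 := gB0q1) (G2 := gB3q0) (Ga := gB2q2) (Gb := gB3q2) cA102E_ok B hρ (gatB01 x) (gatB30 x) (fun _ => gatB22 x) (fun _ => gatB32 x) hd hx hx' CG.A102E_032
    · exact corT_cert (G1 := gB0q1) (G2 := gB3q0) (Ga := gB3q2) (Gb := gB4q2) cA102E_ok B hρ (gatB01 x) (gatB30 x) (fun _ => gatB32 x) (fun _ => gatB42 x) hd hx hx' CG.A102E_033
    · exact corT_cert (G1 := gB0q1) (G2 := gB3q0) (Ga := gB4q2) (Gb := gB5q2) cA102E_ok B hρ (gatB01 x) (gatB30 x) (fun _ => gatB42 x) (fun h => absurd h (by decide)) hd hx hx' CG.A102E_034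
    · exact absurd h2 (by norm_num)
    · exact absurd h2 (by norm_num)
    · exact absurd h2 (by norm_num)

theorem altB_A102E_04 {κ x : ℝ} (hκ : κ * h0 = ken x) (hx : ((649613803 : ℕ) : ℝ) / S ≤ x) (hx' : x ≤ (((649613803 : ℕ) : ℝ) + (48318383 : ℕ)) / S) :
    AltEA 3 κ (eng.v x) (3 / 40) (tnt (h0 * x) (3 / 10)) PP tK tL tC pcB (scP esg pd) [⟨0, 1, 0, 67108864⟩, ⟨1, 0, 0, 67108864⟩, ⟨2, 1, 0, 67108864⟩] 1 0 2 0 4 (sgb true) (sgb false) x := by
  have X : XR 67108864 x := XR.of hx hx' (by norm_num) (by norm_num) (by norm_num) (by norm_num)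
  have hen : 0 < eng.v x := en_pos X.x0.le
  refine CornW.altA (C := cA102E) (j := (0 : Fin 9)) (k := (4 : Fin 9)) (Ef := esg) (pd := pd) (o := 3 / 40)
    (cornW_of (C := cA102E) (C0 := c0B) (En := eng) (mo := mog) (j := (0 : Fin 9)) (k := (4 : Fin 9)) (lo := 0) (hi := 4) (W := 67108864) (N0 := 3) cA102E_q (sideB hx hx') gokB (pinU hx hx') dokB X (by norm_num) (by norm_num) (l := (0 : Fin 9)) rfl
      (gatB01 x) (gatB40 x) (gatB02 x) (datB01 x) (datB40 x) (datB02 x) ?_)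
    (cornS_of (C := cA102E) (C0 := c0B) (j := (0 : Fin 9)) (k := (4 : Fin 9)) (lo := 0) (hi := 4) (W := 67108864) (N0 := 3) cA102E_q (sideB hx hx') gokB X (by norm_num) (by norm_num) (l := (0 : Fin 9)) rfl
      (gatB01 x) (gatB40 x) (gatB02 x) ?_)
    (thU (pinU hx hx')) rfl hκ (fun j q y => tC_eq j q y x) (esg_rng X.x0.le (by linarith [X.b, X.p0])).1 (mo_v x) le_rfl le_rfl
  · intro ρ a B hρ hd i h1 h2
    fin_cases i
    · exact corW_cert (G1 := gB0q1) (G2 := gB4q0) (Ga := gB0q2) (Gb := gB1q2) (D1 := dB0q1) (D2 := dB4q0) (Da := dB0q2) (Db := dB1q2) cA102E_ok B hρ hen (gatB01 x) (gatB40 x) (fun _ => gatB02 x) (fun _ => gatB12 x) (datB01 x) (datB40 x) (fun _ => datB02 x) (fun _ => datB12 x) hd hx hx' CW.A102E_040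
    · exact corW_cert (G1 := gB0q1) (G2 := gB4q0) (Ga := gB1q2) (Gb := gB2q2) (D1 := dB0q1) (D2 := dB4q0) (Da := dB1q2) (Db := dB2q2) cA102E_ok B hρ hen (gatB01 x) (gatB40 x) (fun _ => gatB12 x) (fun _ => gatB22 x) (datB01 x) (datB40 x) (fun _ => datB12 x) (fun _ => datB22 x) hd hx hx' CW.A102E_041
    · exact corW_cert (G1 := gB0q1) (G2 := gB4q0) (Ga := gB2q2) (Gb := gB3q2) (D1 := dB0q1) (D2 := dB4q0) (Da := dB2q2) (Db := dB3q2) cA102E_ok B hρ hen (gatB01 x) (gatB40 x) (fun _ => gatB22 x) (fun _ => gatB32 x) (datB01 x) (datB40 x) (fun _ => datB22 x) (fun _ => datB32 x) hd hx hx' CW.A102E_042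
    · exact corW_cert (G1 := gB0q1) (G2 := gB4q0) (Ga := gB3q2) (Gb := gB4q2) (D1 := dB0q1) (D2 := dB4q0) (Da := dB3q2) (Db := dB4q2) cA102E_ok B hρ hen (gatB01 x) (gatB40 x) (fun _ => gatB32 x) (fun _ => gatB42 x) (datB01 x) (datB40 x) (fun _ => datB32 x) (fun _ => datB42 x) hd hx hx' CW.A102E_043
    · exact corW_cert (G1 := gB0q1) (G2 := gB4q0) (Ga := gB4q2) (Gb := gB5q2) (D1 := dB0q1) (D2 := dB4q0) (Da := dB4q2) (Db := dB5q2) cA102E_ok B hρ hen (gatB01 x) (gatB40 x) (fun _ => gatB42 x) (fun h => absurd h (by decide)) (datB01 x) (datB40 x) (fun _ => datB42 x) (fun h => absurd h (by decide)) hd hx hx' CW.A102E_044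
    · exact absurd h2 (by norm_num)
    · exact absurd h2 (by norm_num)
    · exact absurd h2 (by norm_num)
  · intro ρ a B hρ hd i h1 h2
    fin_cases i
    · exact corT_cert (G1 := gB0q1) (G2 := gB4q0) (Ga := gB0q2) (Gb := gB1q2) cA102E_ok B hρ (gatB01 x) (gatB40 x) (fun _ => gatB02 x) (fun _ => gatB12 x) hd hx hx' CG.A102E_040
    · exact corT_cert (G1 := gB0q1) (G2 := gB4q0) (Ga := gB1q2) (Gb := gB2q2) cA102E_ok B hρ (gatB01 x) (gatB40 x) (fun _ => gatB12 x) (fun _ => gatB22 x) hd hx hx' CG.A102E_041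
    · exact corT_cert (G1 := gB0q1) (G2 := gB4q0) (Ga := gB2q2) (Gb := gB3q2) cA102E_ok B hρ (gatB01 x) (gatB40 x) (fun _ => gatB22 x) (fun _ => gatB32 x) hd hx hx' CG.A102E_042
    · exact corT_cert (G1 := gB0q1) (G2 := gB4q0) (Ga := gB3q2) (Gb := gB4q2) cA102E_ok B hρ (gatB01 x) (gatB40 x) (fun _ => gatB32 x) (fun _ => gatB42 x) hd hx hx' CG.A102E_043
    · exact corT_cert (G1 := gB0q1) (G2 := gB4q0) (Ga := gB4q2) (Gb := gB5q2) cA102E_ok B hρ (gatB01 x) (gatB40 x) (fun _ => gatB42 x) (fun h => absurd h (by decide)) hd hx hx' CG.A102E_044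
    · exact absurd h2 (by norm_num)
    · exact absurd h2 (by norm_num)
    · exact absurd h2 (by norm_num)

theorem altB_A102R_00 {κ x : ℝ} (hκ : κ * h0 = ken x) (hx : ((649613803 : ℕ) : ℝ) / S ≤ x) (hx' : x ≤ (((649613803 : ℕ) : ℝ) + (48318383 : ℕ)) / S) :
    AltEA 3 κ (eng.v x) (3 / 40) (tnt (h0 * x) (3 / 10)) PP tK tL tC pcB (scP esg pd) [⟨0, 1, 0, 67108864⟩, ⟨1, 0, 0, 67108864⟩, ⟨2, 1, 0, 67108864⟩] 1 0 2 0 0 (sgb false) (sgb false) x := by
  have X : XR 67108864 x := XR.of hx hx' (by norm_num) (by norm_num) (by norm_num) (by norm_num)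
  have hen : 0 < eng.v x := en_pos X.x0.le
  refine CornW.altA (C := cA102R) (j := (0 : Fin 9)) (k := (0 : Fin 9)) (Ef := esg) (pd := pd) (o := 3 / 40)
    (cornW_of (C := cA102R) (C0 := c0B) (En := eng) (mo := mog) (j := (0 : Fin 9)) (k := (0 : Fin 9)) (lo := 8) (hi := 8) (W := 67108864) (N0 := 3) cA102R_q (sideB hx hx') gokB (pinU hx hx') dokB X (by norm_num) (by norm_num) (l := (8 : Fin 9)) rfl
      (gatB01 x) (gatB00 x) (gatB82 x) (datB01 x) (datB00 x) (datB82 x) ?_)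
    (cornS_of (C := cA102R) (C0 := c0B) (j := (0 : Fin 9)) (k := (0 : Fin 9)) (lo := 8) (hi := 8) (W := 67108864) (N0 := 3) cA102R_q (sideB hx hx') gokB X (by norm_num) (by norm_num) (l := (8 : Fin 9)) rfl
      (gatB01 x) (gatB00 x) (gatB82 x) ?_)
    (thU (pinU hx hx')) rfl hκ (fun j q y => tC_eq j q y x) (esg_rng X.x0.le (by linarith [X.b, X.p0])).1 (mo_v x) le_rfl le_rfl
  · intro ρ a B hρ hd i h1 h2
    fin_cases i
    · exact absurd h1 (by norm_num)
    · exact absurd h1 (by norm_num)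
    · exact absurd h1 (by norm_num)
    · exact absurd h1 (by norm_num)
    · exact absurd h1 (by norm_num)
    · exact absurd h1 (by norm_num)
    · exact absurd h1 (by norm_num)
    · exact corW_cert (G1 := gB0q1) (G2 := gB0q0) (Ga := gB7q2) (Gb := gB8q2) (D1 := dB0q1) (D2 := dB0q0) (Da := dB7q2) (Db := dB8q2) cA102R_ok B hρ hen (gatB01 x) (gatB00 x) (fun h => absurd h (by decide)) (fun _ => gatB82 x) (datB01 x) (datB00 x) (fun h => absurd h (by decide)) (fun _ => datB82 x) hd hx hx' CW.A102R_007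
  · intro ρ a B hρ hd i h1 h2
    fin_cases i
    · exact absurd h1 (by norm_num)
    · exact absurd h1 (by norm_num)
    · exact absurd h1 (by norm_num)
    · exact absurd h1 (by norm_num)
    · exact absurd h1 (by norm_num)
    · exact absurd h1 (by norm_num)
    · exact absurd h1 (by norm_num)
    · exact corT_cert (G1 := gB0q1) (G2 := gB0q0) (Ga := gB7q2) (Gb := gB8q2) cA102R_ok B hρ (gatB01 x) (gatB00 x) (fun h => absurd h (by decide)) (fun _ => gatB82 x) hd hx hx' CG.A102R_007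

theorem altB_A102R_01 {κ x : ℝ} (hκ : κ * h0 = ken x) (hx : ((649613803 : ℕ) : ℝ) / S ≤ x) (hx' : x ≤ (((649613803 : ℕ) : ℝ) + (48318383 : ℕ)) / S) :
    AltEA 3 κ (eng.v x) (3 / 40) (tnt (h0 * x) (3 / 10)) PP tK tL tC pcB (scP esg pd) [⟨0, 1, 0, 67108864⟩, ⟨1, 0, 0, 67108864⟩, ⟨2, 1, 0, 67108864⟩] 1 0 2 0 1 (sgb false) (sgb false) x := by
  have X : XR 67108864 x := XR.of hx hx' (by norm_num) (by norm_num) (by norm_num) (by norm_num)
  have hen : 0 < eng.v x := en_pos X.x0.le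
  refine CornW.altA (C := cA102R) (j := (0 : Fin 9)) (k := (1 : Fin 9)) (Ef := esg) (pd := pd) (o := 3 / 40)
    (cornW_of (C := cA102R) (C0 := c0B) (En := eng) (mo := mog) (j := (0 : Fin 9)) (k := (1 : Fin 9)) (lo := 8) (hi := 8) (W := 67108864) (N0 := 3) cA102R_q (sideB hx hx') gokB (pinU hx hx') dokB X (by norm_num) (by norm_num) (l := (8 : Fin 9)) rfl
      (gatB01 x) (gatB10 x) (gatB82 x) (datB01 x) (datB10 x) (datB82 x) ?_)
    (cornS_of (C := cA102R) (C0 := c0B) (j := (0 : Fin 9)) (k := (1 : Fin 9)) (lo := 8) (hi := 8) (W := 67108864) (N0 := 3) cA102R_q (sideB hx hx') gokB X (by norm_num) (by norm_num) (l := (8 : Fin 9)) rfl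
      (gatB01 x) (gatB10 x) (gatB82 x) ?_)
    (thU (pinU hx hx')) rfl hκ (fun j q y => tC_eq j q y x) (esg_rng X.x0.le (by linarith [X.b, X.p0])).1 (mo_v x) le_rfl le_rfl
  · intro ρ a B hρ hd i h1 h2
    fin_cases i
    · exact absurd h1 (by norm_num)
    · exact absurd h1 (by norm_num)
    · exact absurd h1 (by norm_num)
    · exact absurd h1 (by norm_num)
    · exact absurd h1 (by norm_num)
    · exact absurd h1 (by norm_num)
    · exact absurd h1 (by norm_num)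
    · exact corW_cert (G1 := gB0q1) (G2 := gB1q0) (Ga := gB7q2) (Gb := gB8q2) (D1 := dB0q1) (D2 := dB1q0) (Da := dB7q2) (Db := dB8q2) cA102R_ok B hρ hen (gatB01 x) (gatB10 x) (fun h => absurd h (by decide)) (fun _ => gatB82 x) (datB01 x) (datB10 x) (fun h => absurd h (by decide)) (fun _ => datB82 x) hd hx hx' CW.A102R_017
  · intro ρ a B hρ hd i h1 h2
    fin_cases i
    · exact absurd h1 (by norm_num)
    · exact absurd h1 (by norm_num)
    · exact absurd h1 (by norm_num)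
    · exact absurd h1 (by norm_num)
    · exact absurd h1 (by norm_num)
    · exact absurd h1 (by norm_num)
    · exact absurd h1 (by norm_num)
    · exact corT_cert (G1 := gB0q1) (G2 := gB1q0) (Ga := gB7q2) (Gb := gB8q2) cA102R_ok B hρ (gatB01 x) (gatB10 x) (fun h => absurd h (by decide)) (fun _ => gatB82 x) hd hx hx' CG.A102R_017

theorem altB_A102R_02 {κ x : ℝ} (hκ : κ * h0 = ken x) (hx : ((649613803 : ℕ) : ℝ) / S ≤ x) (hx' : x ≤ (((649613803 : ℕ) : ℝ) + (48318383 : ℕ)) / S) :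
    AltEA 3 κ (eng.v x) (3 / 40) (tnt (h0 * x) (3 / 10)) PP tK tL tC pcB (scP esg pd) [⟨0, 1, 0, 67108864⟩, ⟨1, 0, 0, 67108864⟩, ⟨2, 1, 0, 67108864⟩] 1 0 2 0 2 (sgb false) (sgb false) x := by
  have X : XR 67108864 x := XR.of hx hx' (by norm_num) (by norm_num) (by norm_num) (by norm_num)
  have hen : 0 < eng.v x := en_pos X.x0.le
  refine CornW.altA (C := cA102R) (j := (0 : Fin 9)) (k := (2 : Fin 9)) (Ef := esg) (pd := pd) (o := 3 / 40)
    (cornW_of (C := cA102R) (C0 := c0B) (En := eng) (mo := mog) (j := (0 : Fin 9)) (k := (2 : Fin 9)) (lo := 8) (hi := 8) (W := 67108864) (N0 := 3) cA102R_q (sideB hx hx') gokB (pinU hx hx') dokB X (by norm_num) (by norm_num) (l := (8 : Fin 9)) rfl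
      (gatB01 x) (gatB20 x) (gatB82 x) (datB01 x) (datB20 x) (datB82 x) ?_)
    (cornS_of (C := cA102R) (C0 := c0B) (j := (0 : Fin 9)) (k := (2 : Fin 9)) (lo := 8) (hi := 8) (W := 67108864) (N0 := 3) cA102R_q (sideB hx hx') gokB X (by norm_num) (by norm_num) (l := (8 : Fin 9)) rfl
      (gatB01 x) (gatB20 x) (gatB82 x) ?_)
    (thU (pinU hx hx')) rfl hκ (fun j q y => tC_eq j q y x) (esg_rng X.x0.le (by linarith [X.b, X.p0])).1 (mo_v x) le_rfl le_rfl
  · intro ρ a B hρ hd i h1 h2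
    fin_cases i
    · exact absurd h1 (by norm_num)
    · exact absurd h1 (by norm_num)
    · exact absurd h1 (by norm_num)
    · exact absurd h1 (by norm_num)
    · exact absurd h1 (by norm_num)
    · exact absurd h1 (by norm_num)
    · exact absurd h1 (by norm_num)
    · exact corW_cert (G1 := gB0q1) (G2 := gB2q0) (Ga := gB7q2) (Gb := gB8q2) (D1 := dB0q1) (D2 := dB2q0) (Da := dB7q2) (Db := dB8q2) cA102R_ok B hρ hen (gatB01 x) (gatB20 x) (fun h => absurd h (by decide)) (fun _ => gatB82 x) (datB01 x) (datB20 x) (fun h => absurd h (by decide)) (fun _ => datB82 x) hd hx hx' CW.A102R_027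
  · intro ρ a B hρ hd i h1 h2
    fin_cases i
    · exact absurd h1 (by norm_num)
    · exact absurd h1 (by norm_num)
    · exact absurd h1 (by norm_num)
    · exact absurd h1 (by norm_num)
    · exact absurd h1 (by norm_num)
    · exact absurd h1 (by norm_num)
    · exact absurd h1 (by norm_num)
    · exact corT_cert (G1 := gB0q1) (G2 := gB2q0) (Ga := gB7q2) (Gb := gB8q2) cA102R_ok B hρ (gatB01 x) (gatB20 x) (fun h => absurd h (by decide)) (fun _ => gatB82 x) hd hx hx' CG.A102R_027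

theorem altB_A102R_03 {κ x : ℝ} (hκ : κ * h0 = ken x) (hx : ((649613803 : ℕ) : ℝ) / S ≤ x) (hx' : x ≤ (((649613803 : ℕ) : ℝ) + (48318383 : ℕ)) / S) :
    AltEA 3 κ (eng.v x) (3 / 40) (tnt (h0 * x) (3 / 10)) PP tK tL tC pcB (scP esg pd) [⟨0, 1, 0, 67108864⟩, ⟨1, 0, 0, 67108864⟩, ⟨2, 1, 0, 67108864⟩] 1 0 2 0 3 (sgb false) (sgb false) x := by
  have X : XR 67108864 x := XR.of hx hx' (by norm_num) (by norm_num) (by norm_num) (by norm_num)
  have hen : 0 < eng.v x := en_pos X.x0.le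
  refine CornW.altA (C := cA102R) (j := (0 : Fin 9)) (k := (3 : Fin 9)) (Ef := esg) (pd := pd) (o := 3 / 40)
    (cornW_of (C := cA102R) (C0 := c0B) (En := eng) (mo := mog) (j := (0 : Fin 9)) (k := (3 : Fin 9)) (lo := 8) (hi := 8) (W := 67108864) (N0 := 3) cA102R_q (sideB hx hx') gokB (pinU hx hx') dokB X (by norm_num) (by norm_num) (l := (8 : Fin 9)) rfl
      (gatB01 x) (gatB30 x) (gatB82 x) (datB01 x) (datB30 x) (datB82 x) ?_)
    (cornS_of (C := cA102R) (C0 := c0B) (j := (0 : Fin 9)) (k := (3 : Fin 9)) (lo := 8) (hi := 8) (W := 67108864) (N0 := 3) cA102R_q (sideB hx hx') gokB X (by norm_num) (by norm_num) (l := (8 : Fin 9)) rfl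
      (gatB01 x) (gatB30 x) (gatB82 x) ?_)
    (thU (pinU hx hx')) rfl hκ (fun j q y => tC_eq j q y x) (esg_rng X.x0.le (by linarith [X.b, X.p0])).1 (mo_v x) le_rfl le_rfl
  · intro ρ a B hρ hd i h1 h2
    fin_cases i
    · exact absurd h1 (by norm_num)
    · exact absurd h1 (by norm_num)
    · exact absurd h1 (by norm_num)
    · exact absurd h1 (by norm_num)
    · exact absurd h1 (by norm_num)
    · exact absurd h1 (by norm_num)
    · exact absurd h1 (by norm_num)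
    · exact corW_cert (G1 := gB0q1) (G2 := gB3q0) (Ga := gB7q2) (Gb := gB8q2) (D1 := dB0q1) (D2 := dB3q0) (Da := dB7q2) (Db := dB8q2) cA102R_ok B hρ hen (gatB01 x) (gatB30 x) (fun h => absurd h (by decide)) (fun _ => gatB82 x) (datB01 x) (datB30 x) (fun h => absurd h (by decide)) (fun _ => datB82 x) hd hx hx' CW.A102R_037
  · intro ρ a B hρ hd i h1 h2
    fin_cases i
    · exact absurd h1 (by norm_num)
    · exact absurd h1 (by norm_num)
    · exact absurd h1 (by norm_num)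
    · exact absurd h1 (by norm_num)
    · exact absurd h1 (by norm_num)
    · exact absurd h1 (by norm_num)
    · exact absurd h1 (by norm_num)
    · exact corT_cert (G1 := gB0q1) (G2 := gB3q0) (Ga := gB7q2) (Gb := gB8q2) cA102R_ok B hρ (gatB01 x) (gatB30 x) (fun h => absurd h (by decide)) (fun _ => gatB82 x) hd hx hx' CG.A102R_037

theorem altB_A102R_04 {κ x : ℝ} (hκ : κ * h0 = ken x) (hx : ((649613803 : ℕ) : ℝ) / S ≤ x) (hx' : x ≤ (((649613803 : ℕ) : ℝ) + (48318383 : ℕ)) / S) :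
    AltEA 3 κ (eng.v x) (3 / 40) (tnt (h0 * x) (3 / 10)) PP tK tL tC pcB (scP esg pd) [⟨0, 1, 0, 67108864⟩, ⟨1, 0, 0, 67108864⟩, ⟨2, 1, 0, 67108864⟩] 1 0 2 0 4 (sgb false) (sgb false) x := by
  have X : XR 67108864 x := XR.of hx hx' (by norm_num) (by norm_num) (by norm_num) (by norm_num)
  have hen : 0 < eng.v x := en_pos X.x0.le
  refine CornW.altA (C := cA102R) (j := (0 : Fin 9)) (k := (4 : Fin 9)) (Ef := esg) (pd := pd) (o := 3 / 40)
    (cornW_of (C := cA102R) (C0 := c0B) (En := eng) (mo := mog) (j := (0 : Fin 9)) (k := (4 : Fin 9)) (lo := 8) (hi := 8) (W := 67108864) (N0 := 3) cA102R_q (sideB hx hx') gokB (pinU hx hx') dokB X (by norm_num) (by norm_num) (l := (8 : Fin 9)) rfl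
      (gatB01 x) (gatB40 x) (gatB82 x) (datB01 x) (datB40 x) (datB82 x) ?_)
    (cornS_of (C := cA102R) (C0 := c0B) (j := (0 : Fin 9)) (k := (4 : Fin 9)) (lo := 8) (hi := 8) (W := 67108864) (N0 := 3) cA102R_q (sideB hx hx') gokB X (by norm_num) (by norm_num) (l := (8 : Fin 9)) rfl
      (gatB01 x) (gatB40 x) (gatB82 x) ?_)
    (thU (pinU hx hx')) rfl hκ (fun j q y => tC_eq j q y x) (esg_rng X.x0.le (by linarith [X.b, X.p0])).1 (mo_v x) le_rfl le_rfl
  · intro ρ a B hρ hd i h1 h2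
    fin_cases i
    · exact absurd h1 (by norm_num)
    · exact absurd h1 (by norm_num)
    · exact absurd h1 (by norm_num)
    · exact absurd h1 (by norm_num)
    · exact absurd h1 (by norm_num)
    · exact absurd h1 (by norm_num)
    · exact absurd h1 (by norm_num)
    · exact corW_cert (G1 := gB0q1) (G2 := gB4q0) (Ga := gB7q2) (Gb := gB8q2) (D1 := dB0q1) (D2 := dB4q0) (Da := dB7q2) (Db := dB8q2) cA102R_ok B hρ hen (gatB01 x) (gatB40 x) (fun h => absurd h (by decide)) (fun _ => gatB82 x) (datB01 x) (datB40 x) (fun h => absurd h (by decide)) (fun _ => datB82 x) hd hx hx' CW.A102R_047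
  · intro ρ a B hρ hd i h1 h2
    fin_cases i
    · exact absurd h1 (by norm_num)
    · exact absurd h1 (by norm_num)
    · exact absurd h1 (by norm_num)
    · exact absurd h1 (by norm_num)
    · exact absurd h1 (by norm_num)
    · exact absurd h1 (by norm_num)
    · exact absurd h1 (by norm_num)
    · exact corT_cert (G1 := gB0q1) (G2 := gB4q0) (Ga := gB7q2) (Gb := gB8q2) cA102R_ok B hρ (gatB01 x) (gatB40 x) (fun h => absurd h (by decide)) (fun _ => gatB82 x) hd hx hx' CG.A102R_047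

theorem altB_A202E_00 {κ x : ℝ} (hκ : κ * h0 = ken x) (hx : ((649613803 : ℕ) : ℝ) / S ≤ x) (hx' : x ≤ (((649613803 : ℕ) : ℝ) + (48318383 : ℕ)) / S) :
    AltEA 3 κ (eng.v x) (3 / 40) (tnt (h0 * x) (3 / 10)) PP tK tL tC pcB (scP esg pd) [⟨0, 1, 0, 67108864⟩, ⟨1, 0, 0, 67108864⟩, ⟨2, 1, 0, 67108864⟩] 2 0 2 0 0 (sgb true) (sgb false) x := by
  have X : XR 67108864 x := XR.of hx hx' (by norm_num) (by norm_num) (by norm_num) (by norm_num)
  have hen : 0 < eng.v x := en_pos X.x0.le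
  refine CornW.altA (C := cA202E) (j := (0 : Fin 9)) (k := (0 : Fin 9)) (Ef := esg) (pd := pd) (o := 3 / 40)
    (cornW_of (C := cA202E) (C0 := c0B) (En := eng) (mo := mog) (j := (0 : Fin 9)) (k := (0 : Fin 9)) (lo := 0) (hi := 4) (W := 67108864) (N0 := 3) cA202E_q (sideB hx hx') gokB (pinU hx hx') dokB X (by norm_num) (by norm_num) (l := (0 : Fin 9)) rfl
      (gatB02 x) (gatB00 x) (gatB02 x) (datB02 x) (datB00 x) (datB02 x) ?_)
    (cornS_of (C := cA202E) (C0 := c0B) (j := (0 : Fin 9)) (k := (0 : Fin 9)) (lo := 0) (hi := 4) (W := 67108864) (N0 := 3) cA202E_q (sideB hx hx') gokB X (by norm_num) (by norm_num) (l := (0 : Fin 9)) rfl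
      (gatB02 x) (gatB00 x) (gatB02 x) ?_)
    (thU (pinU hx hx')) rfl hκ (fun j q y => tC_eq j q y x) (esg_rng X.x0.le (by linarith [X.b, X.p0])).1 (mo_v x) le_rfl le_rfl
  · intro ρ a B hρ hd i h1 h2
    fin_cases i
    · exact corW_cert (G1 := gB0q2) (G2 := gB0q0) (Ga := gB0q2) (Gb := gB1q2) (D1 := dB0q2) (D2 := dB0q0) (Da := dB0q2) (Db := dB1q2) cA202E_ok B hρ hen (gatB02 x) (gatB00 x) (fun _ => gatB02 x) (fun _ => gatB12 x) (datB02 x) (datB00 x) (fun _ => datB02 x) (fun _ => datB12 x) hd hx hx' CW.A202E_000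
    · exact corW_cert (G1 := gB0q2) (G2 := gB0q0) (Ga := gB1q2) (Gb := gB2q2) (D1 := dB0q2) (D2 := dB0q0) (Da := dB1q2) (Db := dB2q2) cA202E_ok B hρ hen (gatB02 x) (gatB00 x) (fun _ => gatB12 x) (fun _ => gatB22 x) (datB02 x) (datB00 x) (fun _ => datB12 x) (fun _ => datB22 x) hd hx hx' CW.A202E_001
    · exact corW_cert (G1 := gB0q2) (G2 := gB0q0) (Ga := gB2q2) (Gb := gB3q2) (D1 := dB0q2) (D2 := dB0q0) (Da := dB2q2) (Db := dB3q2) cA202E_ok B hρ hen (gatB02 x) (gatB00 x) (fun _ => gatB22 x) (fun _ => gatB32 x) (datB02 x) (datB00 x) (fun _ => datB22 x) (fun _ => datB32 x) hd hx hx' CW.A202E_002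
    · exact corW_cert (G1 := gB0q2) (G2 := gB0q0) (Ga := gB3q2) (Gb := gB4q2) (D1 := dB0q2) (D2 := dB0q0) (Da := dB3q2) (Db := dB4q2) cA202E_ok B hρ hen (gatB02 x) (gatB00 x) (fun _ => gatB32 x) (fun _ => gatB42 x) (datB02 x) (datB00 x) (fun _ => datB32 x) (fun _ => datB42 x) hd hx hx' CW.A202E_003
    · exact corW_cert (G1 := gB0q2) (G2 := gB0q0) (Ga := gB4q2) (Gb := gB5q2) (D1 := dB0q2) (D2 := dB0q0) (Da := dB4q2) (Db := dB5q2) cA202E_ok B hρ hen (gatB02 x) (gatB00 x) (fun _ => gatB42 x) (fun h => absurd h (by decide)) (datB02 x) (datB00 x) (fun _ => datB42 x) (fun h => absurd h (by decide)) hd hx hx' CW.A202E_004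
    · exact absurd h2 (by norm_num)
    · exact absurd h2 (by norm_num)
    · exact absurd h2 (by norm_num)
  · intro ρ a B hρ hd i h1 h2
    fin_cases i
    · exact corT_cert (G1 := gB0q2) (G2 := gB0q0) (Ga := gB0q2) (Gb := gB1q2) cA202E_ok B hρ (gatB02 x) (gatB00 x) (fun _ => gatB02 x) (fun _ => gatB12 x) hd hx hx' CG.A202E_000
    · exact corT_cert (G1 := gB0q2) (G2 := gB0q0) (Ga := gB1q2) (Gb := gB2q2) cA202E_ok B hρ (gatB02 x) (gatB00 x) (fun _ => gatB12 x) (fun _ => gatB22 x) hd hx hx' CG.A202E_001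
    · exact corT_cert (G1 := gB0q2) (G2 := gB0q0) (Ga := gB2q2) (Gb := gB3q2) cA202E_ok B hρ (gatB02 x) (gatB00 x) (fun _ => gatB22 x) (fun _ => gatB32 x) hd hx hx' CG.A202E_002
    · exact corT_cert (G1 := gB0q2) (G2 := gB0q0) (Ga := gB3q2) (Gb := gB4q2) cA202E_ok B hρ (gatB02 x) (gatB00 x) (fun _ => gatB32 x) (fun _ => gatB42 x) hd hx hx' CG.A202E_003
    · exact corT_cert (G1 := gB0q2) (G2 := gB0q0) (Ga := gB4q2) (Gb := gB5q2) cA202E_ok B hρ (gatB02 x) (gatB00 x) (fun _ => gatB42 x) (fun h => absurd h (by decide)) hd hx hx' CG.A202E_004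
    · exact absurd h2 (by norm_num)
    · exact absurd h2 (by norm_num)
    · exact absurd h2 (by norm_num)

theorem altB_A202E_01 {κ x : ℝ} (hκ : κ * h0 = ken x) (hx : ((649613803 : ℕ) : ℝ) / S ≤ x) (hx' : x ≤ (((649613803 : ℕ) : ℝ) + (48318383 : ℕ)) / S) :
    AltEA 3 κ (eng.v x) (3 / 40) (tnt (h0 * x) (3 / 10)) PP tK tL tC pcB (scP esg pd) [⟨0, 1, 0, 67108864⟩, ⟨1, 0, 0, 67108864⟩, ⟨2, 1, 0, 67108864⟩] 2 0 2 0 1 (sgb true) (sgb false) x := by
  have X : XR 67108864 x := XR.of hx hx' (by norm_num) (by norm_num) (by norm_num) (by norm_num)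
  have hen : 0 < eng.v x := en_pos X.x0.le
  refine CornW.altA (C := cA202E) (j := (0 : Fin 9)) (k := (1 : Fin 9)) (Ef := esg) (pd := pd) (o := 3 / 40)
    (cornW_of (C := cA202E) (C0 := c0B) (En := eng) (mo := mog) (j := (0 : Fin 9)) (k := (1 : Fin 9)) (lo := 0) (hi := 4) (W := 67108864) (N0 := 3) cA202E_q (sideB hx hx') gokB (pinU hx hx') dokB X (by norm_num) (by norm_num) (l := (0 : Fin 9)) rfl
      (gatB02 x) (gatB10 x) (gatB02 x) (datB02 x) (datB10 x) (datB02 x) ?_)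
    (cornS_of (C := cA202E) (C0 := c0B) (j := (0 : Fin 9)) (k := (1 : Fin 9)) (lo := 0) (hi := 4) (W := 67108864) (N0 := 3) cA202E_q (sideB hx hx') gokB X (by norm_num) (by norm_num) (l := (0 : Fin 9)) rfl
      (gatB02 x) (gatB10 x) (gatB02 x) ?_)
    (thU (pinU hx hx')) rfl hκ (fun j q y => tC_eq j q y x) (esg_rng X.x0.le (by linarith [X.b, X.p0])).1 (mo_v x) le_rfl le_rfl
  · intro ρ a B hρ hd i h1 h2
    fin_cases i
    · exact corW_cert (G1 := gB0q2) (G2 := gB1q0) (Ga := gB0q2) (Gb := gB1q2) (D1 := dB0q2) (D2 := dB1q0) (Da := dB0q2) (Db := dB1q2) cA202E_ok B hρ hen (gatB02 x) (gatB10 x) (fun _ => gatB02 x) (fun _ => gatB12 x) (datB02 x) (datB10 x) (fun _ => datB02 x) (fun _ => datB12 x) hd hx hx' CW.A202E_010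
    · exact corW_cert (G1 := gB0q2) (G2 := gB1q0) (Ga := gB1q2) (Gb := gB2q2) (D1 := dB0q2) (D2 := dB1q0) (Da := dB1q2) (Db := dB2q2) cA202E_ok B hρ hen (gatB02 x) (gatB10 x) (fun _ => gatB12 x) (fun _ => gatB22 x) (datB02 x) (datB10 x) (fun _ => datB12 x) (fun _ => datB22 x) hd hx hx' CW.A202E_011
    · exact corW_cert (G1 := gB0q2) (G2 := gB1q0) (Ga := gB2q2) (Gb := gB3q2) (D1 := dB0q2) (D2 := dB1q0) (Da := dB2q2) (Db := dB3q2) cA202E_ok B hρ hen (gatB02 x) (gatB10 x) (fun _ => gatB22 x) (fun _ => gatB32 x) (datB02 x) (datB10 x) (fun _ => datB22 x) (fun _ => datB32 x) hd hx hx' CW.A202E_012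
    · exact corW_cert (G1 := gB0q2) (G2 := gB1q0) (Ga := gB3q2) (Gb := gB4q2) (D1 := dB0q2) (D2 := dB1q0) (Da := dB3q2) (Db := dB4q2) cA202E_ok B hρ hen (gatB02 x) (gatB10 x) (fun _ => gatB32 x) (fun _ => gatB42 x) (datB02 x) (datB10 x) (fun _ => datB32 x) (fun _ => datB42 x) hd hx hx' CW.A202E_013
    · exact corW_cert (G1 := gB0q2) (G2 := gB1q0) (Ga := gB4q2) (Gb := gB5q2) (D1 := dB0q2) (D2 := dB1q0) (Da := dB4q2) (Db := dB5q2) cA202E_ok B hρ hen (gatB02 x) (gatB10 x) (fun _ => gatB42 x) (fun h => absurd h (by decide)) (datB02 x) (datB10 x) (fun _ => datB42 x) (fun h => absurd h (by decide)) hd hx hx' CW.A202E_014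
    · exact absurd h2 (by norm_num)
    · exact absurd h2 (by norm_num)
    · exact absurd h2 (by norm_num)
  · intro ρ a B hρ hd i h1 h2
    fin_cases i
    · exact corT_cert (G1 := gB0q2) (G2 := gB1q0) (Ga := gB0q2) (Gb := gB1q2) cA202E_ok B hρ (gatB02 x) (gatB10 x) (fun _ => gatB02 x) (fun _ => gatB12 x) hd hx hx' CG.A202E_010
    · exact corT_cert (G1 := gB0q2) (G2 := gB1q0) (Ga := gB1q2) (Gb := gB2q2) cA202E_ok B hρ (gatB02 x) (gatB10 x) (fun _ => gatB12 x) (fun _ => gatB22 x) hd hx hx' CG.A202E_011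
    · exact corT_cert (G1 := gB0q2) (G2 := gB1q0) (Ga := gB2q2) (Gb := gB3q2) cA202E_ok B hρ (gatB02 x) (gatB10 x) (fun _ => gatB22 x) (fun _ => gatB32 x) hd hx hx' CG.A202E_012
    · exact corT_cert (G1 := gB0q2) (G2 := gB1q0) (Ga := gB3q2) (Gb := gB4q2) cA202E_ok B hρ (gatB02 x) (gatB10 x) (fun _ => gatB32 x) (fun _ => gatB42 x) hd hx hx' CG.A202E_013
    · exact corT_cert (G1 := gB0q2) (G2 := gB1q0) (Ga := gB4q2) (Gb := gB5q2) cA202E_ok B hρ (gatB02 x) (gatB10 x) (fun _ => gatB42 x) (fun h => absurd h (by decide)) hd hx hx' CG.A202E_014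
    · exact absurd h2 (by norm_num)
    · exact absurd h2 (by norm_num)
    · exact absurd h2 (by norm_num)

theorem altB_A202E_02 {κ x : ℝ} (hκ : κ * h0 = ken x) (hx : ((649613803 : ℕ) : ℝ) / S ≤ x) (hx' : x ≤ (((649613803 : ℕ) : ℝ) + (48318383 : ℕ)) / S) :
    AltEA 3 κ (eng.v x) (3 / 40) (tnt (h0 * x) (3 / 10)) PP tK tL tC pcB (scP esg pd) [⟨0, 1, 0, 67108864⟩, ⟨1, 0, 0, 67108864⟩, ⟨2, 1, 0, 67108864⟩] 2 0 2 0 2 (sgb true) (sgb false) x := by
  have X : XR 67108864 x := XR.of hx hx' (by norm_num) (by norm_num) (by norm_num) (by norm_num)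
  have hen : 0 < eng.v x := en_pos X.x0.le
  refine CornW.altA (C := cA202E) (j := (0 : Fin 9)) (k := (2 : Fin 9)) (Ef := esg) (pd := pd) (o := 3 / 40)
    (cornW_of (C := cA202E) (C0 := c0B) (En := eng) (mo := mog) (j := (0 : Fin 9)) (k := (2 : Fin 9)) (lo := 0) (hi := 4) (W := 67108864) (N0 := 3) cA202E_q (sideB hx hx') gokB (pinU hx hx') dokB X (by norm_num) (by norm_num) (l := (0 : Fin 9)) rfl
      (gatB02 x) (gatB20 x) (gatB02 x) (datB02 x) (datB20 x) (datB02 x) ?_)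
    (cornS_of (C := cA202E) (C0 := c0B) (j := (0 : Fin 9)) (k := (2 : Fin 9)) (lo := 0) (hi := 4) (W := 67108864) (N0 := 3) cA202E_q (sideB hx hx') gokB X (by norm_num) (by norm_num) (l := (0 : Fin 9)) rfl
      (gatB02 x) (gatB20 x) (gatB02 x) ?_)
    (thU (pinU hx hx')) rfl hκ (fun j q y => tC_eq j q y x) (esg_rng X.x0.le (by linarith [X.b, X.p0])).1 (mo_v x) le_rfl le_rfl
  · intro ρ a B hρ hd i h1 h2
    fin_cases i
    · exact corW_cert (G1 := gB0q2) (G2 := gB2q0) (Ga := gB0q2) (Gb := gB1q2) (D1 := dB0q2) (D2 := dB2q0) (Da := dB0q2) (Db := dB1q2) cA202E_ok B hρ hen (gatB02 x) (gatB20 x) (fun _ => gatB02 x) (fun _ => gatB12 x) (datB02 x) (datB20 x) (fun _ => datB02 x) (fun _ => datB12 x) hd hx hx' CW.A202E_020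
    · exact corW_cert (G1 := gB0q2) (G2 := gB2q0) (Ga := gB1q2) (Gb := gB2q2) (D1 := dB0q2) (D2 := dB2q0) (Da := dB1q2) (Db := dB2q2) cA202E_ok B hρ hen (gatB02 x) (gatB20 x) (fun _ => gatB12 x) (fun _ => gatB22 x) (datB02 x) (datB20 x) (fun _ => datB12 x) (fun _ => datB22 x) hd hx hx' CW.A202E_021
    · exact corW_cert (G1 := gB0q2) (G2 := gB2q0) (Ga := gB2q2) (Gb := gB3q2) (D1 := dB0q2) (D2 := dB2q0) (Da := dB2q2) (Db := dB3q2) cA202E_ok B hρ hen (gatB02 x) (gatB20 x) (fun _ => gatB22 x) (fun _ => gatB32 x) (datB02 x) (datB20 x) (fun _ => datB22 x) (fun _ => datB32 x) hd hx hx' CW.A202E_022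
    · exact corW_cert (G1 := gB0q2) (G2 := gB2q0) (Ga := gB3q2) (Gb := gB4q2) (D1 := dB0q2) (D2 := dB2q0) (Da := dB3q2) (Db := dB4q2) cA202E_ok B hρ hen (gatB02 x) (gatB20 x) (fun _ => gatB32 x) (fun _ => gatB42 x) (datB02 x) (datB20 x) (fun _ => datB32 x) (fun _ => datB42 x) hd hx hx' CW.A202E_023
    · exact corW_cert (G1 := gB0q2) (G2 := gB2q0) (Ga := gB4q2) (Gb := gB5q2) (D1 := dB0q2) (D2 := dB2q0) (Da := dB4q2) (Db := dB5q2) cA202E_ok B hρ hen (gatB02 x) (gatB20 x) (fun _ => gatB42 x) (fun h => absurd h (by decide)) (datB02 x) (datB20 x) (fun _ => datB42 x) (fun h => absurd h (by decide)) hd hx hx' CW.A202E_024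
    · exact absurd h2 (by norm_num)
    · exact absurd h2 (by norm_num)
    · exact absurd h2 (by norm_num)
  · intro ρ a B hρ hd i h1 h2
    fin_cases i
    · exact corT_cert (G1 := gB0q2) (G2 := gB2q0) (Ga := gB0q2) (Gb := gB1q2) cA202E_ok B hρ (gatB02 x) (gatB20 x) (fun _ => gatB02 x) (fun _ => gatB12 x) hd hx hx' CG.A202E_020
    · exact corT_cert (G1 := gB0q2) (G2 := gB2q0) (Ga := gB1q2) (Gb := gB2q2) cA202E_ok B hρ (gatB02 x) (gatB20 x) (fun _ => gatB12 x) (fun _ => gatB22 x) hd hx hx' CG.A202E_021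
    · exact corT_cert (G1 := gB0q2) (G2 := gB2q0) (Ga := gB2q2) (Gb := gB3q2) cA202E_ok B hρ (gatB02 x) (gatB20 x) (fun _ => gatB22 x) (fun _ => gatB32 x) hd hx hx' CG.A202E_022
    · exact corT_cert (G1 := gB0q2) (G2 := gB2q0) (Ga := gB3q2) (Gb := gB4q2) cA202E_ok B hρ (gatB02 x) (gatB20 x) (fun _ => gatB32 x) (fun _ => gatB42 x) hd hx hx' CG.A202E_023
    · exact corT_cert (G1 := gB0q2) (G2 := gB2q0) (Ga := gB4q2) (Gb := gB5q2) cA202E_ok B hρ (gatB02 x) (gatB20 x) (fun _ => gatB42 x) (fun h => absurd h (by decide)) hd hx hx' CG.A202E_024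
    · exact absurd h2 (by norm_num)
    · exact absurd h2 (by norm_num)
    · exact absurd h2 (by norm_num)

theorem altB_A202E_03 {κ x : ℝ} (hκ : κ * h0 = ken x) (hx : ((649613803 : ℕ) : ℝ) / S ≤ x) (hx' : x ≤ (((649613803 : ℕ) : ℝ) + (48318383 : ℕ)) / S) :
    AltEA 3 κ (eng.v x) (3 / 40) (tnt (h0 * x) (3 / 10)) PP tK tL tC pcB (scP esg pd) [⟨0, 1, 0, 67108864⟩, ⟨1, 0, 0, 67108864⟩, ⟨2, 1, 0, 67108864⟩] 2 0 2 0 3 (sgb true) (sgb false) x := by
  have X : XR 67108864 x := XR.of hx hx' (by norm_num) (by norm_num) (by norm_num) (by norm_num)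
  have hen : 0 < eng.v x := en_pos X.x0.le
  refine CornW.altA (C := cA202E) (j := (0 : Fin 9)) (k := (3 : Fin 9)) (Ef := esg) (pd := pd) (o := 3 / 40)
    (cornW_of (C := cA202E) (C0 := c0B) (En := eng) (mo := mog) (j := (0 : Fin 9)) (k := (3 : Fin 9)) (lo := 0) (hi := 4) (W := 67108864) (N0 := 3) cA202E_q (sideB hx hx') gokB (pinU hx hx') dokB X (by norm_num) (by norm_num) (l := (0 : Fin 9)) rfl
      (gatB02 x) (gatB30 x) (gatB02 x) (datB02 x) (datB30 x) (datB02 x) ?_)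
    (cornS_of (C := cA202E) (C0 := c0B) (j := (0 : Fin 9)) (k := (3 : Fin 9)) (lo := 0) (hi := 4) (W := 67108864) (N0 := 3) cA202E_q (sideB hx hx') gokB X (by norm_num) (by norm_num) (l := (0 : Fin 9)) rfl
      (gatB02 x) (gatB30 x) (gatB02 x) ?_)
    (thU (pinU hx hx')) rfl hκ (fun j q y => tC_eq j q y x) (esg_rng X.x0.le (by linarith [X.b, X.p0])).1 (mo_v x) le_rfl le_rfl
  · intro ρ a B hρ hd i h1 h2
    fin_cases i
    · exact corW_cert (G1 := gB0q2) (G2 := gB3q0) (Ga := gB0q2) (Gb := gB1q2) (D1 := dB0q2) (D2 := dB3q0) (Da := dB0q2) (Db := dB1q2) cA202E_ok B hρ hen (gatB02 x) (gatB30 x) (fun _ => gatB02 x) (fun _ => gatB12 x) (datB02 x) (datB30 x) (fun _ => datB02 x) (fun _ => datB12 x) hd hx hx' CW.A202E_030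
    · exact corW_cert (G1 := gB0q2) (G2 := gB3q0) (Ga := gB1q2) (Gb := gB2q2) (D1 := dB0q2) (D2 := dB3q0) (Da := dB1q2) (Db := dB2q2) cA202E_ok B hρ hen (gatB02 x) (gatB30 x) (fun _ => gatB12 x) (fun _ => gatB22 x) (datB02 x) (datB30 x) (fun _ => datB12 x) (fun _ => datB22 x) hd hx hx' CW.A202E_031
    · exact corW_cert (G1 := gB0q2) (G2 := gB3q0) (Ga := gB2q2) (Gb := gB3q2) (D1 := dB0q2) (D2 := dB3q0) (Da := dB2q2) (Db := dB3q2) cA202E_ok B hρ hen (gatB02 x) (gatB30 x) (fun _ => gatB22 x) (fun _ => gatB32 x) (datB02 x) (datB30 x) (fun _ => datB22 x) (fun _ => datB32 x) hd hx hx' CW.A202E_032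
    · exact corW_cert (G1 := gB0q2) (G2 := gB3q0) (Ga := gB3q2) (Gb := gB4q2) (D1 := dB0q2) (D2 := dB3q0) (Da := dB3q2) (Db := dB4q2) cA202E_ok B hρ hen (gatB02 x) (gatB30 x) (fun _ => gatB32 x) (fun _ => gatB42 x) (datB02 x) (datB30 x) (fun _ => datB32 x) (fun _ => datB42 x) hd hx hx' CW.A202E_033
    · exact corW_cert (G1 := gB0q2) (G2 := gB3q0) (Ga := gB4q2) (Gb := gB5q2) (D1 := dB0q2) (D2 := dB3q0) (Da := dB4q2) (Db := dB5q2) cA202E_ok B hρ hen (gatB02 x) (gatB30 x) (fun _ => gatB42 x) (fun h => absurd h (by decide)) (datB02 x) (datB30 x) (fun _ => datB42 x) (fun h => absurd h (by decide)) hd hx hx' CW.A202E_034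
    · exact absurd h2 (by norm_num)
    · exact absurd h2 (by norm_num)
    · exact absurd h2 (by norm_num)
  · intro ρ a B hρ hd i h1 h2
    fin_cases i
    · exact corT_cert (G1 := gB0q2) (G2 := gB3q0) (Ga := gB0q2) (Gb := gB1q2) cA202E_ok B hρ (gatB02 x) (gatB30 x) (fun _ => gatB02 x) (fun _ => gatB12 x) hd hx hx' CG.A202E_030
    · exact corT_cert (G1 := gB0q2) (G2 := gB3q0) (Ga := gB1q2) (Gb := gB2q2) cA202E_ok B hρ (gatB02 x) (gatB30 x) (fun _ => gatB12 x) (fun _ => gatB22 x) hd hx hx' CG.A202E_031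
    · exact corT_cert (G1 := gB0q2) (G2 := gB3q0) (Ga := gB2q2) (Gb := gB3q2) cA202E_ok B hρ (gatB02 x) (gatB30 x) (fun _ => gatB22 x) (fun _ => gatB32 x) hd hx hx' CG.A202E_032
    · exact corT_cert (G1 := gB0q2) (G2 := gB3q0) (Ga := gB3q2) (Gb := gB4q2) cA202E_ok B hρ (gatB02 x) (gatB30 x) (fun _ => gatB32 x) (fun _ => gatB42 x) hd hx hx' CG.A202E_033
    · exact corT_cert (G1 := gB0q2) (G2 := gB3q0) (Ga := gB4q2) (Gb := gB5q2) cA202E_ok B hρ (gatB02 x) (gatB30 x) (fun _ => gatB42 x) (fun h => absurd h (by decide)) hd hx hx' CG.A202E_034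
    · exact absurd h2 (by norm_num)
    · exact absurd h2 (by norm_num)
    · exact absurd h2 (by norm_num)

theorem altB_A202E_04 {κ x : ℝ} (hκ : κ * h0 = ken x) (hx : ((649613803 : ℕ) : ℝ) / S ≤ x) (hx' : x ≤ (((649613803 : ℕ) : ℝ) + (48318383 : ℕ)) / S) :
    AltEA 3 κ (eng.v x) (3 / 40) (tnt (h0 * x) (3 / 10)) PP tK tL tC pcB (scP esg pd) [⟨0, 1, 0, 67108864⟩, ⟨1, 0, 0, 67108864⟩, ⟨2, 1, 0, 67108864⟩] 2 0 2 0 4 (sgb true) (sgb false) x := by
  have X : XR 67108864 x := XR.of hx hx' (by norm_num) (by norm_num) (by norm_num) (by norm_num)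
  have hen : 0 < eng.v x := en_pos X.x0.le
  refine CornW.altA (C := cA202E) (j := (0 : Fin 9)) (k := (4 : Fin 9)) (Ef := esg) (pd := pd) (o := 3 / 40)
    (cornW_of (C := cA202E) (C0 := c0B) (En := eng) (mo := mog) (j := (0 : Fin 9)) (k := (4 : Fin 9)) (lo := 0) (hi := 4) (W := 67108864) (N0 := 3) cA202E_q (sideB hx hx') gokB (pinU hx hx') dokB X (by norm_num) (by norm_num) (l := (0 : Fin 9)) rfl
      (gatB02 x) (gatB40 x) (gatB02 x) (datB02 x) (datB40 x) (datB02 x) ?_)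
    (cornS_of (C := cA202E) (C0 := c0B) (j := (0 : Fin 9)) (k := (4 : Fin 9)) (lo := 0) (hi := 4) (W := 67108864) (N0 := 3) cA202E_q (sideB hx hx') gokB X (by norm_num) (by norm_num) (l := (0 : Fin 9)) rfl
      (gatB02 x) (gatB40 x) (gatB02 x) ?_)
    (thU (pinU hx hx')) rfl hκ (fun j q y => tC_eq j q y x) (esg_rng X.x0.le (by linarith [X.b, X.p0])).1 (mo_v x) le_rfl le_rfl
  · intro ρ a B hρ hd i h1 h2
    fin_cases i
    · exact corW_cert (G1 := gB0q2) (G2 := gB4q0) (Ga := gB0q2) (Gb := gB1q2) (D1 := dB0q2) (D2 := dB4q0) (Da := dB0q2) (Db := dB1q2) cA202E_ok B hρ hen (gatB02 x) (gatB40 x) (fun _ => gatB02 x) (fun _ => gatB12 x) (datB02 x) (datB40 x) (fun _ => datB02 x) (fun _ => datB12 x) hd hx hx' CW.A202E_040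
    · exact corW_cert (G1 := gB0q2) (G2 := gB4q0) (Ga := gB1q2) (Gb := gB2q2) (D1 := dB0q2) (D2 := dB4q0) (Da := dB1q2) (Db := dB2q2) cA202E_ok B hρ hen (gatB02 x) (gatB40 x) (fun _ => gatB12 x) (fun _ => gatB22 x) (datB02 x) (datB40 x) (fun _ => datB12 x) (fun _ => datB22 x) hd hx hx' CW.A202E_041
    · exact corW_cert (G1 := gB0q2) (G2 := gB4q0) (Ga := gB2q2) (Gb := gB3q2) (D1 := dB0q2) (D2 := dB4q0) (Da := dB2q2) (Db := dB3q2) cA202E_ok B hρ hen (gatB02 x) (gatB40 x) (fun _ => gatB22 x) (fun _ => gatB32 x) (datB02 x) (datB40 x) (fun _ => datB22 x) (fun _ => datB32 x) hd hx hx' CW.A202E_042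
    · exact corW_cert (G1 := gB0q2) (G2 := gB4q0) (Ga := gB3q2) (Gb := gB4q2) (D1 := dB0q2) (D2 := dB4q0) (Da := dB3q2) (Db := dB4q2) cA202E_ok B hρ hen (gatB02 x) (gatB40 x) (fun _ => gatB32 x) (fun _ => gatB42 x) (datB02 x) (datB40 x) (fun _ => datB32 x) (fun _ => datB42 x) hd hx hx' CW.A202E_043
    · exact corW_cert (G1 := gB0q2) (G2 := gB4q0) (Ga := gB4q2) (Gb := gB5q2) (D1 := dB0q2) (D2 := dB4q0) (Da := dB4q2) (Db := dB5q2) cA202E_ok B hρ hen (gatB02 x) (gatB40 x) (fun _ => gatB42 x) (fun h => absurd h (by decide)) (datB02 x) (datB40 x) (fun _ => datB42 x) (fun h => absurd h (by decide)) hd hx hx' CW.A202E_044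
    · exact absurd h2 (by norm_num)
    · exact absurd h2 (by norm_num)
    · exact absurd h2 (by norm_num)
  · intro ρ a B hρ hd i h1 h2
    fin_cases i
    · exact corT_cert (G1 := gB0q2) (G2 := gB4q0) (Ga := gB0q2) (Gb := gB1q2) cA202E_ok B hρ (gatB02 x) (gatB40 x) (fun _ => gatB02 x) (fun _ => gatB12 x) hd hx hx' CG.A202E_040
    · exact corT_cert (G1 := gB0q2) (G2 := gB4q0) (Ga := gB1q2) (Gb := gB2q2) cA202E_ok B hρ (gatB02 x) (gatB40 x) (fun _ => gatB12 x) (fun _ => gatB22 x) hd hx hx' CG.A202E_041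
    · exact corT_cert (G1 := gB0q2) (G2 := gB4q0) (Ga := gB2q2) (Gb := gB3q2) cA202E_ok B hρ (gatB02 x) (gatB40 x) (fun _ => gatB22 x) (fun _ => gatB32 x) hd hx hx' CG.A202E_042
    · exact corT_cert (G1 := gB0q2) (G2 := gB4q0) (Ga := gB3q2) (Gb := gB4q2) cA202E_ok B hρ (gatB02 x) (gatB40 x) (fun _ => gatB32 x) (fun _ => gatB42 x) hd hx hx' CG.A202E_043
    · exact corT_cert (G1 := gB0q2) (G2 := gB4q0) (Ga := gB4q2) (Gb := gB5q2) cA202E_ok B hρ (gatB02 x) (gatB40 x) (fun _ => gatB42 x) (fun h => absurd h (by decide)) hd hx hx' CG.A202E_044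
    · exact absurd h2 (by norm_num)
    · exact absurd h2 (by norm_num)
    · exact absurd h2 (by norm_num)

theorem altB_A202E_11 {κ x : ℝ} (hκ : κ * h0 = ken x) (hx : ((649613803 : ℕ) : ℝ) / S ≤ x) (hx' : x ≤ (((649613803 : ℕ) : ℝ) + (48318383 : ℕ)) / S) :
    AltEA 3 κ (eng.v x) (3 / 40) (tnt (h0 * x) (3 / 10)) PP tK tL tC pcB (scP esg pd) [⟨0, 1, 0, 67108864⟩, ⟨1, 0, 0, 67108864⟩, ⟨2, 1, 0, 67108864⟩] 2 0 2 1 1 (sgb true) (sgb false) x := by
  have X : XR 67108864 x := XR.of hx hx' (by norm_num) (by norm_num) (by norm_num) (by norm_num)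
  have hen : 0 < eng.v x := en_pos X.x0.le
  refine CornW.altA (C := cA202E) (j := (1 : Fin 9)) (k := (1 : Fin 9)) (Ef := esg) (pd := pd) (o := 3 / 40)
    (cornW_of (C := cA202E) (C0 := c0B) (En := eng) (mo := mog) (j := (1 : Fin 9)) (k := (1 : Fin 9)) (lo := 0) (hi := 4) (W := 67108864) (N0 := 3) cA202E_q (sideB hx hx') gokB (pinU hx hx') dokB X (by norm_num) (by norm_num) (l := (0 : Fin 9)) rfl
      (gatB12 x) (gatB10 x) (gatB02 x) (datB12 x) (datB10 x) (datB02 x) ?_)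
    (cornS_of (C := cA202E) (C0 := c0B) (j := (1 : Fin 9)) (k := (1 : Fin 9)) (lo := 0) (hi := 4) (W := 67108864) (N0 := 3) cA202E_q (sideB hx hx') gokB X (by norm_num) (by norm_num) (l := (0 : Fin 9)) rfl
      (gatB12 x) (gatB10 x) (gatB02 x) ?_)
    (thU (pinU hx hx')) rfl hκ (fun j q y => tC_eq j q y x) (esg_rng X.x0.le (by linarith [X.b, X.p0])).1 (mo_v x) le_rfl le_rfl
  · intro ρ a B hρ hd i h1 h2
    fin_cases i
    · exact corW_cert (G1 := gB1q2) (G2 := gB1q0) (Ga := gB0q2) (Gb := gB1q2) (D1 := dB1q2) (D2 := dB1q0) (Da := dB0q2) (Db := dB1q2) cA202E_ok B hρ hen (gatB12 x) (gatB10 x) (fun _ => gatB02 x) (fun _ => gatB12 x) (datB12 x) (datB10 x) (fun _ => datB02 x) (fun _ => datB12 x) hd hx hx' CW.A202E_110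
    · exact corW_cert (G1 := gB1q2) (G2 := gB1q0) (Ga := gB1q2) (Gb := gB2q2) (D1 := dB1q2) (D2 := dB1q0) (Da := dB1q2) (Db := dB2q2) cA202E_ok B hρ hen (gatB12 x) (gatB10 x) (fun _ => gatB12 x) (fun _ => gatB22 x) (datB12 x) (datB10 x) (fun _ => datB12 x) (fun _ => datB22 x) hd hx hx' CW.A202E_111
    · exact corW_cert (G1 := gB1q2) (G2 := gB1q0) (Ga := gB2q2) (Gb := gB3q2) (D1 := dB1q2) (D2 := dB1q0) (Da := dB2q2) (Db := dB3q2) cA202E_ok B hρ hen (gatB12 x) (gatB10 x) (fun _ => gatB22 x) (fun _ => gatB32 x) (datB12 x) (datB10 x) (fun _ => datB22 x) (fun _ => datB32 x) hd hx hx' CW.A202E_112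
    · exact corW_cert (G1 := gB1q2) (G2 := gB1q0) (Ga := gB3q2) (Gb := gB4q2) (D1 := dB1q2) (D2 := dB1q0) (Da := dB3q2) (Db := dB4q2) cA202E_ok B hρ hen (gatB12 x) (gatB10 x) (fun _ => gatB32 x) (fun _ => gatB42 x) (datB12 x) (datB10 x) (fun _ => datB32 x) (fun _ => datB42 x) hd hx hx' CW.A202E_113
    · exact corW_cert (G1 := gB1q2) (G2 := gB1q0) (Ga := gB4q2) (Gb := gB5q2) (D1 := dB1q2) (D2 := dB1q0) (Da := dB4q2) (Db := dB5q2) cA202E_ok B hρ hen (gatB12 x) (gatB10 x) (fun _ => gatB42 x) (fun h => absurd h (by decide)) (datB12 x) (datB10 x) (fun _ => datB42 x) (fun h => absurd h (by decide)) hd hx hx' CW.A202E_114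
    · exact absurd h2 (by norm_num)
    · exact absurd h2 (by norm_num)
    · exact absurd h2 (by norm_num)
  · intro ρ a B hρ hd i h1 h2
    fin_cases i
    · exact corT_cert (G1 := gB1q2) (G2 := gB1q0) (Ga := gB0q2) (Gb := gB1q2) cA202E_ok B hρ (gatB12 x) (gatB10 x) (fun _ => gatB02 x) (fun _ => gatB12 x) hd hx hx' CG.A202E_110
    · exact corT_cert (G1 := gB1q2) (G2 := gB1q0) (Ga := gB1q2) (Gb := gB2q2) cA202E_ok B hρ (gatB12 x) (gatB10 x) (fun _ => gatB12 x) (fun _ => gatB22 x) hd hx hx' CG.A202E_111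
    · exact corT_cert (G1 := gB1q2) (G2 := gB1q0) (Ga := gB2q2) (Gb := gB3q2) cA202E_ok B hρ (gatB12 x) (gatB10 x) (fun _ => gatB22 x) (fun _ => gatB32 x) hd hx hx' CG.A202E_112
    · exact corT_cert (G1 := gB1q2) (G2 := gB1q0) (Ga := gB3q2) (Gb := gB4q2) cA202E_ok B hρ (gatB12 x) (gatB10 x) (fun _ => gatB32 x) (fun _ => gatB42 x) hd hx hx' CG.A202E_113
    · exact corT_cert (G1 := gB1q2) (G2 := gB1q0) (Ga := gB4q2) (Gb := gB5q2) cA202E_ok B hρ (gatB12 x) (gatB10 x) (fun _ => gatB42 x) (fun h => absurd h (by decide)) hd hx hx' CG.A202E_114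
    · exact absurd h2 (by norm_num)
    · exact absurd h2 (by norm_num)
    · exact absurd h2 (by norm_num)

theorem altB_A202E_12 {κ x : ℝ} (hκ : κ * h0 = ken x) (hx : ((649613803 : ℕ) : ℝ) / S ≤ x) (hx' : x ≤ (((649613803 : ℕ) : ℝ) + (48318383 : ℕ)) / S) :
    AltEA 3 κ (eng.v x) (3 / 40) (tnt (h0 * x) (3 / 10)) PP tK tL tC pcB (scP esg pd) [⟨0, 1, 0, 67108864⟩, ⟨1, 0, 0, 67108864⟩, ⟨2, 1, 0, 67108864⟩] 2 0 2 1 2 (sgb true) (sgb false) x := by
  have X : XR 67108864 x := XR.of hx hx' (by norm_num) (by norm_num) (by norm_num) (by norm_num)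
  have hen : 0 < eng.v x := en_pos X.x0.le
  refine CornW.altA (C := cA202E) (j := (1 : Fin 9)) (k := (2 : Fin 9)) (Ef := esg) (pd := pd) (o := 3 / 40)
    (cornW_of (C := cA202E) (C0 := c0B) (En := eng) (mo := mog) (j := (1 : Fin 9)) (k := (2 : Fin 9)) (lo := 0) (hi := 4) (W := 67108864) (N0 := 3) cA202E_q (sideB hx hx') gokB (pinU hx hx') dokB X (by norm_num) (by norm_num) (l := (0 : Fin 9)) rfl
      (gatB12 x) (gatB20 x) (gatB02 x) (datB12 x) (datB20 x) (datB02 x) ?_)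
    (cornS_of (C := cA202E) (C0 := c0B) (j := (1 : Fin 9)) (k := (2 : Fin 9)) (lo := 0) (hi := 4) (W := 67108864) (N0 := 3) cA202E_q (sideB hx hx') gokB X (by norm_num) (by norm_num) (l := (0 : Fin 9)) rfl
      (gatB12 x) (gatB20 x) (gatB02 x) ?_)
    (thU (pinU hx hx')) rfl hκ (fun j q y => tC_eq j q y x) (esg_rng X.x0.le (by linarith [X.b, X.p0])).1 (mo_v x) le_rfl le_rfl
  · intro ρ a B hρ hd i h1 h2
    fin_cases i
    · exact corW_cert (G1 := gB1q2) (G2 := gB2q0) (Ga := gB0q2) (Gb := gB1q2) (D1 := dB1q2) (D2 := dB2q0) (Da := dB0q2) (Db := dB1q2) cA202E_ok B hρ hen (gatB12 x) (gatB20 x) (fun _ => gatB02 x) (fun _ => gatB12 x) (datB12 x) (datB20 x) (fun _ => datB02 x) (fun _ => datB12 x) hd hx hx' CW.A202E_120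
    · exact corW_cert (G1 := gB1q2) (G2 := gB2q0) (Ga := gB1q2) (Gb := gB2q2) (D1 := dB1q2) (D2 := dB2q0) (Da := dB1q2) (Db := dB2q2) cA202E_ok B hρ hen (gatB12 x) (gatB20 x) (fun _ => gatB12 x) (fun _ => gatB22 x) (datB12 x) (datB20 x) (fun _ => datB12 x) (fun _ => datB22 x) hd hx hx' CW.A202E_121
    · exact corW_cert (G1 := gB1q2) (G2 := gB2q0) (Ga := gB2q2) (Gb := gB3q2) (D1 := dB1q2) (D2 := dB2q0) (Da := dB2q2) (Db := dB3q2) cA202E_ok B hρ hen (gatB12 x) (gatB20 x) (fun _ => gatB22 x) (fun _ => gatB32 x) (datB12 x) (datB20 x) (fun _ => datB22 x) (fun _ => datB32 x) hd hx hx' CW.A202E_122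
    · exact corW_cert (G1 := gB1q2) (G2 := gB2q0) (Ga := gB3q2) (Gb := gB4q2) (D1 := dB1q2) (D2 := dB2q0) (Da := dB3q2) (Db := dB4q2) cA202E_ok B hρ hen (gatB12 x) (gatB20 x) (fun _ => gatB32 x) (fun _ => gatB42 x) (datB12 x) (datB20 x) (fun _ => datB32 x) (fun _ => datB42 x) hd hx hx' CW.A202E_123
    · exact corW_cert (G1 := gB1q2) (G2 := gB2q0) (Ga := gB4q2) (Gb := gB5q2) (D1 := dB1q2) (D2 := dB2q0) (Da := dB4q2) (Db := dB5q2) cA202E_ok B hρ hen (gatB12 x) (gatB20 x) (fun _ => gatB42 x) (fun h => absurd h (by decide)) (datB12 x) (datB20 x) (fun _ => datB42 x) (fun h => absurd h (by decide)) hd hx hx' CW.A202E_124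
    · exact absurd h2 (by norm_num)
    · exact absurd h2 (by norm_num)
    · exact absurd h2 (by norm_num)
  · intro ρ a B hρ hd i h1 h2
    fin_cases i
    · exact corT_cert (G1 := gB1q2) (G2 := gB2q0) (Ga := gB0q2) (Gb := gB1q2) cA202E_ok B hρ (gatB12 x) (gatB20 x) (fun _ => gatB02 x) (fun _ => gatB12 x) hd hx hx' CG.A202E_120
    · exact corT_cert (G1 := gB1q2) (G2 := gB2q0) (Ga := gB1q2) (Gb := gB2q2) cA202E_ok B hρ (gatB12 x) (gatB20 x) (fun _ => gatB12 x) (fun _ => gatB22 x) hd hx hx' CG.A202E_121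
    · exact corT_cert (G1 := gB1q2) (G2 := gB2q0) (Ga := gB2q2) (Gb := gB3q2) cA202E_ok B hρ (gatB12 x) (gatB20 x) (fun _ => gatB22 x) (fun _ => gatB32 x) hd hx hx' CG.A202E_122
    · exact corT_cert (G1 := gB1q2) (G2 := gB2q0) (Ga := gB3q2) (Gb := gB4q2) cA202E_ok B hρ (gatB12 x) (gatB20 x) (fun _ => gatB32 x) (fun _ => gatB42 x) hd hx hx' CG.A202E_123
    · exact corT_cert (G1 := gB1q2) (G2 := gB2q0) (Ga := gB4q2) (Gb := gB5q2) cA202E_ok B hρ (gatB12 x) (gatB20 x) (fun _ => gatB42 x) (fun h => absurd h (by decide)) hd hx hx' CG.A202E_124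
    · exact absurd h2 (by norm_num)
    · exact absurd h2 (by norm_num)
    · exact absurd h2 (by norm_num)

theorem altB_A202E_13 {κ x : ℝ} (hκ : κ * h0 = ken x) (hx : ((649613803 : ℕ) : ℝ) / S ≤ x) (hx' : x ≤ (((649613803 : ℕ) : ℝ) + (48318383 : ℕ)) / S) :
    AltEA 3 κ (eng.v x) (3 / 40) (tnt (h0 * x) (3 / 10)) PP tK tL tC pcB (scP esg pd) [⟨0, 1, 0, 67108864⟩, ⟨1, 0, 0, 67108864⟩, ⟨2, 1, 0, 67108864⟩] 2 0 2 1 3 (sgb true) (sgb false) x := by
  have X : XR 67108864 x := XR.of hx hx' (by norm_num) (by norm_num) (by norm_num) (by norm_num)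
  have hen : 0 < eng.v x := en_pos X.x0.le
  refine CornW.altA (C := cA202E) (j := (1 : Fin 9)) (k := (3 : Fin 9)) (Ef := esg) (pd := pd) (o := 3 / 40)
    (cornW_of (C := cA202E) (C0 := c0B) (En := eng) (mo := mog) (j := (1 : Fin 9)) (k := (3 : Fin 9)) (lo := 0) (hi := 4) (W := 67108864) (N0 := 3) cA202E_q (sideB hx hx') gokB (pinU hx hx') dokB X (by norm_num) (by norm_num) (l := (0 : Fin 9)) rfl
      (gatB12 x) (gatB30 x) (gatB02 x) (datB12 x) (datB30 x) (datB02 x) ?_)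
    (cornS_of (C := cA202E) (C0 := c0B) (j := (1 : Fin 9)) (k := (3 : Fin 9)) (lo := 0) (hi := 4) (W := 67108864) (N0 := 3) cA202E_q (sideB hx hx') gokB X (by norm_num) (by norm_num) (l := (0 : Fin 9)) rfl
      (gatB12 x) (gatB30 x) (gatB02 x) ?_)
    (thU (pinU hx hx')) rfl hκ (fun j q y => tC_eq j q y x) (esg_rng X.x0.le (by linarith [X.b, X.p0])).1 (mo_v x) le_rfl le_rfl
  · intro ρ a B hρ hd i h1 h2
    fin_cases i
    · exact corW_cert (G1 := gB1q2) (G2 := gB3q0) (Ga := gB0q2) (Gb := gB1q2) (D1 := dB1q2) (D2 := dB3q0) (Da := dB0q2) (Db := dB1q2) cA202E_ok B hρ hen (gatB12 x) (gatB30 x) (fun _ => gatB02 x) (fun _ => gatB12 x) (datB12 x) (datB30 x) (fun _ => datB02 x) (fun _ => datB12 x) hd hx hx' CW.A202E_130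
    · exact corW_cert (G1 := gB1q2) (G2 := gB3q0) (Ga := gB1q2) (Gb := gB2q2) (D1 := dB1q2) (D2 := dB3q0) (Da := dB1q2) (Db := dB2q2) cA202E_ok B hρ hen (gatB12 x) (gatB30 x) (fun _ => gatB12 x) (fun _ => gatB22 x) (datB12 x) (datB30 x) (fun _ => datB12 x) (fun _ => datB22 x) hd hx hx' CW.A202E_131
    · exact corW_cert (G1 := gB1q2) (G2 := gB3q0) (Ga := gB2q2) (Gb := gB3q2) (D1 := dB1q2) (D2 := dB3q0) (Da := dB2q2) (Db := dB3q2) cA202E_ok B hρ hen (gatB12 x) (gatB30 x) (fun _ => gatB22 x) (fun _ => gatB32 x) (datB12 x) (datB30 x) (fun _ => datB22 x) (fun _ => datB32 x) hd hx hx' CW.A202E_132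
    · exact corW_cert (G1 := gB1q2) (G2 := gB3q0) (Ga := gB3q2) (Gb := gB4q2) (D1 := dB1q2) (D2 := dB3q0) (Da := dB3q2) (Db := dB4q2) cA202E_ok B hρ hen (gatB12 x) (gatB30 x) (fun _ => gatB32 x) (fun _ => gatB42 x) (datB12 x) (datB30 x) (fun _ => datB32 x) (fun _ => datB42 x) hd hx hx' CW.A202E_133
    · exact corW_cert (G1 := gB1q2) (G2 := gB3q0) (Ga := gB4q2) (Gb := gB5q2) (D1 := dB1q2) (D2 := dB3q0) (Da := dB4q2) (Db := dB5q2) cA202E_ok B hρ hen (gatB12 x) (gatB30 x) (fun _ => gatB42 x) (fun h => absurd h (by decide)) (datB12 x) (datB30 x) (fun _ => datB42 x) (fun h => absurd h (by decide)) hd hx hx' CW.A202E_134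
    · exact absurd h2 (by norm_num)
    · exact absurd h2 (by norm_num)
    · exact absurd h2 (by norm_num)
  · intro ρ a B hρ hd i h1 h2
    fin_cases i
    · exact corT_cert (G1 := gB1q2) (G2 := gB3q0) (Ga := gB0q2) (Gb := gB1q2) cA202E_ok B hρ (gatB12 x) (gatB30 x) (fun _ => gatB02 x) (fun _ => gatB12 x) hd hx hx' CG.A202E_130
    · exact corT_cert (G1 := gB1q2) (G2 := gB3q0) (Ga := gB1q2) (Gb := gB2q2) cA202E_ok B hρ (gatB12 x) (gatB30 x) (fun _ => gatB12 x) (fun _ => gatB22 x) hd hx hx' CG.A202E_131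
    · exact corT_cert (G1 := gB1q2) (G2 := gB3q0) (Ga := gB2q2) (Gb := gB3q2) cA202E_ok B hρ (gatB12 x) (gatB30 x) (fun _ => gatB22 x) (fun _ => gatB32 x) hd hx hx' CG.A202E_132
    · exact corT_cert (G1 := gB1q2) (G2 := gB3q0) (Ga := gB3q2) (Gb := gB4q2) cA202E_ok B hρ (gatB12 x) (gatB30 x) (fun _ => gatB32 x) (fun _ => gatB42 x) hd hx hx' CG.A202E_133
    · exact corT_cert (G1 := gB1q2) (G2 := gB3q0) (Ga := gB4q2) (Gb := gB5q2) cA202E_ok B hρ (gatB12 x) (gatB30 x) (fun _ => gatB42 x) (fun h => absurd h (by decide)) hd hx hx' CG.A202E_134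
    · exact absurd h2 (by norm_num)
    · exact absurd h2 (by norm_num)
    · exact absurd h2 (by norm_num)

theorem altB_A202E_14 {κ x : ℝ} (hκ : κ * h0 = ken x) (hx : ((649613803 : ℕ) : ℝ) / S ≤ x) (hx' : x ≤ (((649613803 : ℕ) : ℝ) + (48318383 : ℕ)) / S) :
    AltEA 3 κ (eng.v x) (3 / 40) (tnt (h0 * x) (3 / 10)) PP tK tL tC pcB (scP esg pd) [⟨0, 1, 0, 67108864⟩, ⟨1, 0, 0, 67108864⟩, ⟨2, 1, 0, 67108864⟩] 2 0 2 1 4 (sgb true) (sgb false) x := by
  have X : XR 67108864 x := XR.of hx hx' (by norm_num) (by norm_num) (by norm_num) (by norm_num)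
  have hen : 0 < eng.v x := en_pos X.x0.le
  refine CornW.altA (C := cA202E) (j := (1 : Fin 9)) (k := (4 : Fin 9)) (Ef := esg) (pd := pd) (o := 3 / 40)
    (cornW_of (C := cA202E) (C0 := c0B) (En := eng) (mo := mog) (j := (1 : Fin 9)) (k := (4 : Fin 9)) (lo := 0) (hi := 4) (W := 67108864) (N0 := 3) cA202E_q (sideB hx hx') gokB (pinU hx hx') dokB X (by norm_num) (by norm_num) (l := (0 : Fin 9)) rfl
      (gatB12 x) (gatB40 x) (gatB02 x) (datB12 x) (datB40 x) (datB02 x) ?_)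
    (cornS_of (C := cA202E) (C0 := c0B) (j := (1 : Fin 9)) (k := (4 : Fin 9)) (lo := 0) (hi := 4) (W := 67108864) (N0 := 3) cA202E_q (sideB hx hx') gokB X (by norm_num) (by norm_num) (l := (0 : Fin 9)) rfl
      (gatB12 x) (gatB40 x) (gatB02 x) ?_)
    (thU (pinU hx hx')) rfl hκ (fun j q y => tC_eq j q y x) (esg_rng X.x0.le (by linarith [X.b, X.p0])).1 (mo_v x) le_rfl le_rfl
  · intro ρ a B hρ hd i h1 h2
    fin_cases i
    · exact corW_cert (G1 := gB1q2) (G2 := gB4q0) (Ga := gB0q2) (Gb := gB1q2) (D1 := dB1q2) (D2 := dB4q0) (Da := dB0q2) (Db := dB1q2) cA202E_ok B hρ hen (gatB12 x) (gatB40 x) (fun _ => gatB02 x) (fun _ => gatB12 x) (datB12 x) (datB40 x) (fun _ => datB02 x) (fun _ => datB12 x) hd hx hx' CW.A202E_140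
    · exact corW_cert (G1 := gB1q2) (G2 := gB4q0) (Ga := gB1q2) (Gb := gB2q2) (D1 := dB1q2) (D2 := dB4q0) (Da := dB1q2) (Db := dB2q2) cA202E_ok B hρ hen (gatB12 x) (gatB40 x) (fun _ => gatB12 x) (fun _ => gatB22 x) (datB12 x) (datB40 x) (fun _ => datB12 x) (fun _ => datB22 x) hd hx hx' CW.A202E_141
    · exact corW_cert (G1 := gB1q2) (G2 := gB4q0) (Ga := gB2q2) (Gb := gB3q2) (D1 := dB1q2) (D2 := dB4q0) (Da := dB2q2) (Db := dB3q2) cA202E_ok B hρ hen (gatB12 x) (gatB40 x) (fun _ => gatB22 x) (fun _ => gatB32 x) (datB12 x) (datB40 x) (fun _ => datB22 x) (fun _ => datB32 x) hd hx hx' CW.A202E_142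
    · exact corW_cert (G1 := gB1q2) (G2 := gB4q0) (Ga := gB3q2) (Gb := gB4q2) (D1 := dB1q2) (D2 := dB4q0) (Da := dB3q2) (Db := dB4q2) cA202E_ok B hρ hen (gatB12 x) (gatB40 x) (fun _ => gatB32 x) (fun _ => gatB42 x) (datB12 x) (datB40 x) (fun _ => datB32 x) (fun _ => datB42 x) hd hx hx' CW.A202E_143
    · exact corW_cert (G1 := gB1q2) (G2 := gB4q0) (Ga := gB4q2) (Gb := gB5q2) (D1 := dB1q2) (D2 := dB4q0) (Da := dB4q2) (Db := dB5q2) cA202E_ok B hρ hen (gatB12 x) (gatB40 x) (fun _ => gatB42 x) (fun h => absurd h (by decide)) (datB12 x) (datB40 x) (fun _ => datB42 x) (fun h => absurd h (by decide)) hd hx hx' CW.A202E_144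
    · exact absurd h2 (by norm_num)
    · exact absurd h2 (by norm_num)
    · exact absurd h2 (by norm_num)
  · intro ρ a B hρ hd i h1 h2
    fin_cases i
    · exact corT_cert (G1 := gB1q2) (G2 := gB4q0) (Ga := gB0q2) (Gb := gB1q2) cA202E_ok B hρ (gatB12 x) (gatB40 x) (fun _ => gatB02 x) (fun _ => gatB12 x) hd hx hx' CG.A202E_140
    · exact corT_cert (G1 := gB1q2) (G2 := gB4q0) (Ga := gB1q2) (Gb := gB2q2) cA202E_ok B hρ (gatB12 x) (gatB40 x) (fun _ => gatB12 x) (fun _ => gatB22 x) hd hx hx' CG.A202E_141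
    · exact corT_cert (G1 := gB1q2) (G2 := gB4q0) (Ga := gB2q2) (Gb := gB3q2) cA202E_ok B hρ (gatB12 x) (gatB40 x) (fun _ => gatB22 x) (fun _ => gatB32 x) hd hx hx' CG.A202E_142
    · exact corT_cert (G1 := gB1q2) (G2 := gB4q0) (Ga := gB3q2) (Gb := gB4q2) cA202E_ok B hρ (gatB12 x) (gatB40 x) (fun _ => gatB32 x) (fun _ => gatB42 x) hd hx hx' CG.A202E_143
    · exact corT_cert (G1 := gB1q2) (G2 := gB4q0) (Ga := gB4q2) (Gb := gB5q2) cA202E_ok B hρ (gatB12 x) (gatB40 x) (fun _ => gatB42 x) (fun h => absurd h (by decide)) hd hx hx' CG.A202E_144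
    · exact absurd h2 (by norm_num)
    · exact absurd h2 (by norm_num)
    · exact absurd h2 (by norm_num)

theorem altB_A202E_22 {κ x : ℝ} (hκ : κ * h0 = ken x) (hx : ((649613803 : ℕ) : ℝ) / S ≤ x) (hx' : x ≤ (((649613803 : ℕ) : ℝ) + (48318383 : ℕ)) / S) :
    AltEA 3 κ (eng.v x) (3 / 40) (tnt (h0 * x) (3 / 10)) PP tK tL tC pcB (scP esg pd) [⟨0, 1, 0, 67108864⟩, ⟨1, 0, 0, 67108864⟩, ⟨2, 1, 0, 67108864⟩] 2 0 2 2 2 (sgb true) (sgb false) x := by
  have X : XR 67108864 x := XR.of hx hx' (by norm_num) (by norm_num) (by norm_num) (by norm_num)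
  have hen : 0 < eng.v x := en_pos X.x0.le
  refine CornW.altA (C := cA202E) (j := (2 : Fin 9)) (k := (2 : Fin 9)) (Ef := esg) (pd := pd) (o := 3 / 40)
    (cornW_of (C := cA202E) (C0 := c0B) (En := eng) (mo := mog) (j := (2 : Fin 9)) (k := (2 : Fin 9)) (lo := 0) (hi := 4) (W := 67108864) (N0 := 3) cA202E_q (sideB hx hx') gokB (pinU hx hx') dokB X (by norm_num) (by norm_num) (l := (0 : Fin 9)) rfl
      (gatB22 x) (gatB20 x) (gatB02 x) (datB22 x) (datB20 x) (datB02 x) ?_)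
    (cornS_of (C := cA202E) (C0 := c0B) (j := (2 : Fin 9)) (k := (2 : Fin 9)) (lo := 0) (hi := 4) (W := 67108864) (N0 := 3) cA202E_q (sideB hx hx') gokB X (by norm_num) (by norm_num) (l := (0 : Fin 9)) rfl
      (gatB22 x) (gatB20 x) (gatB02 x) ?_)
    (thU (pinU hx hx')) rfl hκ (fun j q y => tC_eq j q y x) (esg_rng X.x0.le (by linarith [X.b, X.p0])).1 (mo_v x) le_rfl le_rfl
  · intro ρ a B hρ hd i h1 h2
    fin_cases i
    · exact corW_cert (G1 := gB2q2) (G2 := gB2q0) (Ga := gB0q2) (Gb := gB1q2) (D1 := dB2q2) (D2 := dB2q0) (Da := dB0q2) (Db := dB1q2) cA202E_ok B hρ hen (gatB22 x) (gatB20 x) (fun _ => gatB02 x) (fun _ => gatB12 x) (datB22 x) (datB20 x) (fun _ => datB02 x) (fun _ => datB12 x) hd hx hx' CW.A202E_220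
    · exact corW_cert (G1 := gB2q2) (G2 := gB2q0) (Ga := gB1q2) (Gb := gB2q2) (D1 := dB2q2) (D2 := dB2q0) (Da := dB1q2) (Db := dB2q2) cA202E_ok B hρ hen (gatB22 x) (gatB20 x) (fun _ => gatB12 x) (fun _ => gatB22 x) (datB22 x) (datB20 x) (fun _ => datB12 x) (fun _ => datB22 x) hd hx hx' CW.A202E_221
    · exact corW_cert (G1 := gB2q2) (G2 := gB2q0) (Ga := gB2q2) (Gb := gB3q2) (D1 := dB2q2) (D2 := dB2q0) (Da := dB2q2) (Db := dB3q2) cA202E_ok B hρ hen (gatB22 x) (gatB20 x) (fun _ => gatB22 x) (fun _ => gatB32 x) (datB22 x) (datB20 x) (fun _ => datB22 x) (fun _ => datB32 x) hd hx hx' CW.A202E_222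
    · exact corW_cert (G1 := gB2q2) (G2 := gB2q0) (Ga := gB3q2) (Gb := gB4q2) (D1 := dB2q2) (D2 := dB2q0) (Da := dB3q2) (Db := dB4q2) cA202E_ok B hρ hen (gatB22 x) (gatB20 x) (fun _ => gatB32 x) (fun _ => gatB42 x) (datB22 x) (datB20 x) (fun _ => datB32 x) (fun _ => datB42 x) hd hx hx' CW.A202E_223
    · exact corW_cert (G1 := gB2q2) (G2 := gB2q0) (Ga := gB4q2) (Gb := gB5q2) (D1 := dB2q2) (D2 := dB2q0) (Da := dB4q2) (Db := dB5q2) cA202E_ok B hρ hen (gatB22 x) (gatB20 x) (fun _ => gatB42 x) (fun h => absurd h (by decide)) (datB22 x) (datB20 x) (fun _ => datB42 x) (fun h => absurd h (by decide)) hd hx hx' CW.A202E_224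
    · exact absurd h2 (by norm_num)
    · exact absurd h2 (by norm_num)
    · exact absurd h2 (by norm_num)
  · intro ρ a B hρ hd i h1 h2
    fin_cases i
    · exact corT_cert (G1 := gB2q2) (G2 := gB2q0) (Ga := gB0q2) (Gb := gB1q2) cA202E_ok B hρ (gatB22 x) (gatB20 x) (fun _ => gatB02 x) (fun _ => gatB12 x) hd hx hx' CG.A202E_220
    · exact corT_cert (G1 := gB2q2) (G2 := gB2q0) (Ga := gB1q2) (Gb := gB2q2) cA202E_ok B hρ (gatB22 x) (gatB20 x) (fun _ => gatB12 x) (fun _ => gatB22 x) hd hx hx' CG.A202E_221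
    · exact corT_cert (G1 := gB2q2) (G2 := gB2q0) (Ga := gB2q2) (Gb := gB3q2) cA202E_ok B hρ (gatB22 x) (gatB20 x) (fun _ => gatB22 x) (fun _ => gatB32 x) hd hx hx' CG.A202E_222
    · exact corT_cert (G1 := gB2q2) (G2 := gB2q0) (Ga := gB3q2) (Gb := gB4q2) cA202E_ok B hρ (gatB22 x) (gatB20 x) (fun _ => gatB32 x) (fun _ => gatB42 x) hd hx hx' CG.A202E_223
    · exact corT_cert (G1 := gB2q2) (G2 := gB2q0) (Ga := gB4q2) (Gb := gB5q2) cA202E_ok B hρ (gatB22 x) (gatB20 x) (fun _ => gatB42 x) (fun h => absurd h (by decide)) hd hx hx' CG.A202E_224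
    · exact absurd h2 (by norm_num)
    · exact absurd h2 (by norm_num)
    · exact absurd h2 (by norm_num)

theorem altB_A202E_23 {κ x : ℝ} (hκ : κ * h0 = ken x) (hx : ((649613803 : ℕ) : ℝ) / S ≤ x) (hx' : x ≤ (((649613803 : ℕ) : ℝ) + (48318383 : ℕ)) / S) :
    AltEA 3 κ (eng.v x) (3 / 40) (tnt (h0 * x) (3 / 10)) PP tK tL tC pcB (scP esg pd) [⟨0, 1, 0, 67108864⟩, ⟨1, 0, 0, 67108864⟩, ⟨2, 1, 0, 67108864⟩] 2 0 2 2 3 (sgb true) (sgb false) x := by
  have X : XR 67108864 x := XR.of hx hx' (by norm_num) (by norm_num) (by norm_num) (by norm_num)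
  have hen : 0 < eng.v x := en_pos X.x0.le
  refine CornW.altA (C := cA202E) (j := (2 : Fin 9)) (k := (3 : Fin 9)) (Ef := esg) (pd := pd) (o := 3 / 40)
    (cornW_of (C := cA202E) (C0 := c0B) (En := eng) (mo := mog) (j := (2 : Fin 9)) (k := (3 : Fin 9)) (lo := 0) (hi := 4) (W := 67108864) (N0 := 3) cA202E_q (sideB hx hx') gokB (pinU hx hx') dokB X (by norm_num) (by norm_num) (l := (0 : Fin 9)) rfl
      (gatB22 x) (gatB30 x) (gatB02 x) (datB22 x) (datB30 x) (datB02 x) ?_)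
    (cornS_of (C := cA202E) (C0 := c0B) (j := (2 : Fin 9)) (k := (3 : Fin 9)) (lo := 0) (hi := 4) (W := 67108864) (N0 := 3) cA202E_q (sideB hx hx') gokB X (by norm_num) (by norm_num) (l := (0 : Fin 9)) rfl
      (gatB22 x) (gatB30 x) (gatB02 x) ?_)
    (thU (pinU hx hx')) rfl hκ (fun j q y => tC_eq j q y x) (esg_rng X.x0.le (by linarith [X.b, X.p0])).1 (mo_v x) le_rfl le_rfl
  · intro ρ a B hρ hd i h1 h2
    fin_cases i
    · exact corW_cert (G1 := gB2q2) (G2 := gB3q0) (Ga := gB0q2) (Gb := gB1q2) (D1 := dB2q2) (D2 := dB3q0) (Da := dB0q2) (Db := dB1q2) cA202E_ok B hρ hen (gatB22 x) (gatB30 x) (fun _ => gatB02 x) (fun _ => gatB12 x) (datB22 x) (datB30 x) (fun _ => datB02 x) (fun _ => datB12 x) hd hx hx' CW.A202E_230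
    · exact corW_cert (G1 := gB2q2) (G2 := gB3q0) (Ga := gB1q2) (Gb := gB2q2) (D1 := dB2q2) (D2 := dB3q0) (Da := dB1q2) (Db := dB2q2) cA202E_ok B hρ hen (gatB22 x) (gatB30 x) (fun _ => gatB12 x) (fun _ => gatB22 x) (datB22 x) (datB30 x) (fun _ => datB12 x) (fun _ => datB22 x) hd hx hx' CW.A202E_231
    · exact corW_cert (G1 := gB2q2) (G2 := gB3q0) (Ga := gB2q2) (Gb := gB3q2) (D1 := dB2q2) (D2 := dB3q0) (Da := dB2q2) (Db := dB3q2) cA202E_ok B hρ hen (gatB22 x) (gatB30 x) (fun _ => gatB22 x) (fun _ => gatB32 x) (datB22 x) (datB30 x) (fun _ => datB22 x) (fun _ => datB32 x) hd hx hx' CW.A202E_232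
    · exact corW_cert (G1 := gB2q2) (G2 := gB3q0) (Ga := gB3q2) (Gb := gB4q2) (D1 := dB2q2) (D2 := dB3q0) (Da := dB3q2) (Db := dB4q2) cA202E_ok B hρ hen (gatB22 x) (gatB30 x) (fun _ => gatB32 x) (fun _ => gatB42 x) (datB22 x) (datB30 x) (fun _ => datB32 x) (fun _ => datB42 x) hd hx hx' CW.A202E_233
    · exact corW_cert (G1 := gB2q2) (G2 := gB3q0) (Ga := gB4q2) (Gb := gB5q2) (D1 := dB2q2) (D2 := dB3q0) (Da := dB4q2) (Db := dB5q2) cA202E_ok B hρ hen (gatB22 x) (gatB30 x) (fun _ => gatB42 x) (fun h => absurd h (by decide)) (datB22 x) (datB30 x) (fun _ => datB42 x) (fun h => absurd h (by decide)) hd hx hx' CW.A202E_234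
    · exact absurd h2 (by norm_num)
    · exact absurd h2 (by norm_num)
    · exact absurd h2 (by norm_num)
  · intro ρ a B hρ hd i h1 h2
    fin_cases i
    · exact corT_cert (G1 := gB2q2) (G2 := gB3q0) (Ga := gB0q2) (Gb := gB1q2) cA202E_ok B hρ (gatB22 x) (gatB30 x) (fun _ => gatB02 x) (fun _ => gatB12 x) hd hx hx' CG.A202E_230
    · exact corT_cert (G1 := gB2q2) (G2 := gB3q0) (Ga := gB1q2) (Gb := gB2q2) cA202E_ok B hρ (gatB22 x) (gatB30 x) (fun _ => gatB12 x) (fun _ => gatB22 x) hd hx hx' CG.A202E_231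
    · exact corT_cert (G1 := gB2q2) (G2 := gB3q0) (Ga := gB2q2) (Gb := gB3q2) cA202E_ok B hρ (gatB22 x) (gatB30 x) (fun _ => gatB22 x) (fun _ => gatB32 x) hd hx hx' CG.A202E_232
    · exact corT_cert (G1 := gB2q2) (G2 := gB3q0) (Ga := gB3q2) (Gb := gB4q2) cA202E_ok B hρ (gatB22 x) (gatB30 x) (fun _ => gatB32 x) (fun _ => gatB42 x) hd hx hx' CG.A202E_233
    · exact corT_cert (G1 := gB2q2) (G2 := gB3q0) (Ga := gB4q2) (Gb := gB5q2) cA202E_ok B hρ (gatB22 x) (gatB30 x) (fun _ => gatB42 x) (fun h => absurd h (by decide)) hd hx hx' CG.A202E_234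
    · exact absurd h2 (by norm_num)
    · exact absurd h2 (by norm_num)
    · exact absurd h2 (by norm_num)

theorem altB_A202E_24 {κ x : ℝ} (hκ : κ * h0 = ken x) (hx : ((649613803 : ℕ) : ℝ) / S ≤ x) (hx' : x ≤ (((649613803 : ℕ) : ℝ) + (48318383 : ℕ)) / S) :
    AltEA 3 κ (eng.v x) (3 / 40) (tnt (h0 * x) (3 / 10)) PP tK tL tC pcB (scP esg pd) [⟨0, 1, 0, 67108864⟩, ⟨1, 0, 0, 67108864⟩, ⟨2, 1, 0, 67108864⟩] 2 0 2 2 4 (sgb true) (sgb false) x := by
  have X : XR 67108864 x := XR.of hx hx' (by norm_num) (by norm_num) (by norm_num) (by norm_num)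
  have hen : 0 < eng.v x := en_pos X.x0.le
  refine CornW.altA (C := cA202E) (j := (2 : Fin 9)) (k := (4 : Fin 9)) (Ef := esg) (pd := pd) (o := 3 / 40)
    (cornW_of (C := cA202E) (C0 := c0B) (En := eng) (mo := mog) (j := (2 : Fin 9)) (k := (4 : Fin 9)) (lo := 0) (hi := 4) (W := 67108864) (N0 := 3) cA202E_q (sideB hx hx') gokB (pinU hx hx') dokB X (by norm_num) (by norm_num) (l := (0 : Fin 9)) rfl
      (gatB22 x) (gatB40 x) (gatB02 x) (datB22 x) (datB40 x) (datB02 x) ?_)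
    (cornS_of (C := cA202E) (C0 := c0B) (j := (2 : Fin 9)) (k := (4 : Fin 9)) (lo := 0) (hi := 4) (W := 67108864) (N0 := 3) cA202E_q (sideB hx hx') gokB X (by norm_num) (by norm_num) (l := (0 : Fin 9)) rfl
      (gatB22 x) (gatB40 x) (gatB02 x) ?_)
    (thU (pinU hx hx')) rfl hκ (fun j q y => tC_eq j q y x) (esg_rng X.x0.le (by linarith [X.b, X.p0])).1 (mo_v x) le_rfl le_rfl
  · intro ρ a B hρ hd i h1 h2
    fin_cases i
    · exact corW_cert (G1 := gB2q2) (G2 := gB4q0) (Ga := gB0q2) (Gb := gB1q2) (D1 := dB2q2) (D2 := dB4q0) (Da := dB0q2) (Db := dB1q2) cA202E_ok B hρ hen (gatB22 x) (gatB40 x) (fun _ => gatB02 x) (fun _ => gatB12 x) (datB22 x) (datB40 x) (fun _ => datB02 x) (fun _ => datB12 x) hd hx hx' CW.A202E_240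
    · exact corW_cert (G1 := gB2q2) (G2 := gB4q0) (Ga := gB1q2) (Gb := gB2q2) (D1 := dB2q2) (D2 := dB4q0) (Da := dB1q2) (Db := dB2q2) cA202E_ok B hρ hen (gatB22 x) (gatB40 x) (fun _ => gatB12 x) (fun _ => gatB22 x) (datB22 x) (datB40 x) (fun _ => datB12 x) (fun _ => datB22 x) hd hx hx' CW.A202E_241
    · exact corW_cert (G1 := gB2q2) (G2 := gB4q0) (Ga := gB2q2) (Gb := gB3q2) (D1 := dB2q2) (D2 := dB4q0) (Da := dB2q2) (Db := dB3q2) cA202E_ok B hρ hen (gatB22 x) (gatB40 x) (fun _ => gatB22 x) (fun _ => gatB32 x) (datB22 x) (datB40 x) (fun _ => datB22 x) (fun _ => datB32 x) hd hx hx' CW.A202E_242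
    · exact corW_cert (G1 := gB2q2) (G2 := gB4q0) (Ga := gB3q2) (Gb := gB4q2) (D1 := dB2q2) (D2 := dB4q0) (Da := dB3q2) (Db := dB4q2) cA202E_ok B hρ hen (gatB22 x) (gatB40 x) (fun _ => gatB32 x) (fun _ => gatB42 x) (datB22 x) (datB40 x) (fun _ => datB32 x) (fun _ => datB42 x) hd hx hx' CW.A202E_243
    · exact corW_cert (G1 := gB2q2) (G2 := gB4q0) (Ga := gB4q2) (Gb := gB5q2) (D1 := dB2q2) (D2 := dB4q0) (Da := dB4q2) (Db := dB5q2) cA202E_ok B hρ hen (gatB22 x) (gatB40 x) (fun _ => gatB42 x) (fun h => absurd h (by decide)) (datB22 x) (datB40 x) (fun _ => datB42 x) (fun h => absurd h (by decide)) hd hx hx' CW.A202E_244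
    · exact absurd h2 (by norm_num)
    · exact absurd h2 (by norm_num)
    · exact absurd h2 (by norm_num)
  · intro ρ a B hρ hd i h1 h2
    fin_cases i
    · exact corT_cert (G1 := gB2q2) (G2 := gB4q0) (Ga := gB0q2) (Gb := gB1q2) cA202E_ok B hρ (gatB22 x) (gatB40 x) (fun _ => gatB02 x) (fun _ => gatB12 x) hd hx hx' CG.A202E_240
    · exact corT_cert (G1 := gB2q2) (G2 := gB4q0) (Ga := gB1q2) (Gb := gB2q2) cA202E_ok B hρ (gatB22 x) (gatB40 x) (fun _ => gatB12 x) (fun _ => gatB22 x) hd hx hx' CG.A202E_241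
    · exact corT_cert (G1 := gB2q2) (G2 := gB4q0) (Ga := gB2q2) (Gb := gB3q2) cA202E_ok B hρ (gatB22 x) (gatB40 x) (fun _ => gatB22 x) (fun _ => gatB32 x) hd hx hx' CG.A202E_242
    · exact corT_cert (G1 := gB2q2) (G2 := gB4q0) (Ga := gB3q2) (Gb := gB4q2) cA202E_ok B hρ (gatB22 x) (gatB40 x) (fun _ => gatB32 x) (fun _ => gatB42 x) hd hx hx' CG.A202E_243
    · exact corT_cert (G1 := gB2q2) (G2 := gB4q0) (Ga := gB4q2) (Gb := gB5q2) cA202E_ok B hρ (gatB22 x) (gatB40 x) (fun _ => gatB42 x) (fun h => absurd h (by decide)) hd hx hx' CG.A202E_244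
    · exact absurd h2 (by norm_num)
    · exact absurd h2 (by norm_num)
    · exact absurd h2 (by norm_num)

theorem altB_A202E_33 {κ x : ℝ} (hκ : κ * h0 = ken x) (hx : ((649613803 : ℕ) : ℝ) / S ≤ x) (hx' : x ≤ (((649613803 : ℕ) : ℝ) + (48318383 : ℕ)) / S) :
    AltEA 3 κ (eng.v x) (3 / 40) (tnt (h0 * x) (3 / 10)) PP tK tL tC pcB (scP esg pd) [⟨0, 1, 0, 67108864⟩, ⟨1, 0, 0, 67108864⟩, ⟨2, 1, 0, 67108864⟩] 2 0 2 3 3 (sgb true) (sgb false) x := by
  have X : XR 67108864 x := XR.of hx hx' (by norm_num) (by norm_num) (by norm_num) (by norm_num)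
  have hen : 0 < eng.v x := en_pos X.x0.le
  refine CornW.altA (C := cA202E) (j := (3 : Fin 9)) (k := (3 : Fin 9)) (Ef := esg) (pd := pd) (o := 3 / 40)
    (cornW_of (C := cA202E) (C0 := c0B) (En := eng) (mo := mog) (j := (3 : Fin 9)) (k := (3 : Fin 9)) (lo := 0) (hi := 4) (W := 67108864) (N0 := 3) cA202E_q (sideB hx hx') gokB (pinU hx hx') dokB X (by norm_num) (by norm_num) (l := (0 : Fin 9)) rfl
      (gatB32 x) (gatB30 x) (gatB02 x) (datB32 x) (datB30 x) (datB02 x) ?_)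
    (cornS_of (C := cA202E) (C0 := c0B) (j := (3 : Fin 9)) (k := (3 : Fin 9)) (lo := 0) (hi := 4) (W := 67108864) (N0 := 3) cA202E_q (sideB hx hx') gokB X (by norm_num) (by norm_num) (l := (0 : Fin 9)) rfl
      (gatB32 x) (gatB30 x) (gatB02 x) ?_)
    (thU (pinU hx hx')) rfl hκ (fun j q y => tC_eq j q y x) (esg_rng X.x0.le (by linarith [X.b, X.p0])).1 (mo_v x) le_rfl le_rfl
  · intro ρ a B hρ hd i h1 h2
    fin_cases i
    · exact corW_cert (G1 := gB3q2) (G2 := gB3q0) (Ga := gB0q2) (Gb := gB1q2) (D1 := dB3q2) (D2 := dB3q0) (Da := dB0q2) (Db := dB1q2) cA202E_ok B hρ hen (gatB32 x) (gatB30 x) (fun _ => gatB02 x) (fun _ => gatB12 x) (datB32 x) (datB30 x) (fun _ => datB02 x) (fun _ => datB12 x) hd hx hx' CW.A202E_330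
    · exact corW_cert (G1 := gB3q2) (G2 := gB3q0) (Ga := gB1q2) (Gb := gB2q2) (D1 := dB3q2) (D2 := dB3q0) (Da := dB1q2) (Db := dB2q2) cA202E_ok B hρ hen (gatB32 x) (gatB30 x) (fun _ => gatB12 x) (fun _ => gatB22 x) (datB32 x) (datB30 x) (fun _ => datB12 x) (fun _ => datB22 x) hd hx hx' CW.A202E_331
    · exact corW_cert (G1 := gB3q2) (G2 := gB3q0) (Ga := gB2q2) (Gb := gB3q2) (D1 := dB3q2) (D2 := dB3q0) (Da := dB2q2) (Db := dB3q2) cA202E_ok B hρ hen (gatB32 x) (gatB30 x) (fun _ => gatB22 x) (fun _ => gatB32 x) (datB32 x) (datB30 x) (fun _ => datB22 x) (fun _ => datB32 x) hd hx hx' CW.A202E_332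
    · exact corW_cert (G1 := gB3q2) (G2 := gB3q0) (Ga := gB3q2) (Gb := gB4q2) (D1 := dB3q2) (D2 := dB3q0) (Da := dB3q2) (Db := dB4q2) cA202E_ok B hρ hen (gatB32 x) (gatB30 x) (fun _ => gatB32 x) (fun _ => gatB42 x) (datB32 x) (datB30 x) (fun _ => datB32 x) (fun _ => datB42 x) hd hx hx' CW.A202E_333
    · exact corW_cert (G1 := gB3q2) (G2 := gB3q0) (Ga := gB4q2) (Gb := gB5q2) (D1 := dB3q2) (D2 := dB3q0) (Da := dB4q2) (Db := dB5q2) cA202E_ok B hρ hen (gatB32 x) (gatB30 x) (fun _ => gatB42 x) (fun h => absurd h (by decide)) (datB32 x) (datB30 x) (fun _ => datB42 x) (fun h => absurd h (by decide)) hd hx hx' CW.A202E_334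
    · exact absurd h2 (by norm_num)
    · exact absurd h2 (by norm_num)
    · exact absurd h2 (by norm_num)
  · intro ρ a B hρ hd i h1 h2
    fin_cases i
    · exact corT_cert (G1 := gB3q2) (G2 := gB3q0) (Ga := gB0q2) (Gb := gB1q2) cA202E_ok B hρ (gatB32 x) (gatB30 x) (fun _ => gatB02 x) (fun _ => gatB12 x) hd hx hx' CG.A202E_330
    · exact corT_cert (G1 := gB3q2) (G2 := gB3q0) (Ga := gB1q2) (Gb := gB2q2) cA202E_ok B hρ (gatB32 x) (gatB30 x) (fun _ => gatB12 x) (fun _ => gatB22 x) hd hx hx' CG.A202E_331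
    · exact corT_cert (G1 := gB3q2) (G2 := gB3q0) (Ga := gB2q2) (Gb := gB3q2) cA202E_ok B hρ (gatB32 x) (gatB30 x) (fun _ => gatB22 x) (fun _ => gatB32 x) hd hx hx' CG.A202E_332
    · exact corT_cert (G1 := gB3q2) (G2 := gB3q0) (Ga := gB3q2) (Gb := gB4q2) cA202E_ok B hρ (gatB32 x) (gatB30 x) (fun _ => gatB32 x) (fun _ => gatB42 x) hd hx hx' CG.A202E_333
    · exact corT_cert (G1 := gB3q2) (G2 := gB3q0) (Ga := gB4q2) (Gb := gB5q2) cA202E_ok B hρ (gatB32 x) (gatB30 x) (fun _ => gatB42 x) (fun h => absurd h (by decide)) hd hx hx' CG.A202E_334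
    · exact absurd h2 (by norm_num)
    · exact absurd h2 (by norm_num)
    · exact absurd h2 (by norm_num)

theorem altB_A202E_34 {κ x : ℝ} (hκ : κ * h0 = ken x) (hx : ((649613803 : ℕ) : ℝ) / S ≤ x) (hx' : x ≤ (((649613803 : ℕ) : ℝ) + (48318383 : ℕ)) / S) :
    AltEA 3 κ (eng.v x) (3 / 40) (tnt (h0 * x) (3 / 10)) PP tK tL tC pcB (scP esg pd) [⟨0, 1, 0, 67108864⟩, ⟨1, 0, 0, 67108864⟩, ⟨2, 1, 0, 67108864⟩] 2 0 2 3 4 (sgb true) (sgb false) x := by
  have X : XR 67108864 x := XR.of hx hx' (by norm_num) (by norm_num) (by norm_num) (by norm_num)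
  have hen : 0 < eng.v x := en_pos X.x0.le
  refine CornW.altA (C := cA202E) (j := (3 : Fin 9)) (k := (4 : Fin 9)) (Ef := esg) (pd := pd) (o := 3 / 40)
    (cornW_of (C := cA202E) (C0 := c0B) (En := eng) (mo := mog) (j := (3 : Fin 9)) (k := (4 : Fin 9)) (lo := 0) (hi := 4) (W := 67108864) (N0 := 3) cA202E_q (sideB hx hx') gokB (pinU hx hx') dokB X (by norm_num) (by norm_num) (l := (0 : Fin 9)) rfl
      (gatB32 x) (gatB40 x) (gatB02 x) (datB32 x) (datB40 x) (datB02 x) ?_)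
    (cornS_of (C := cA202E) (C0 := c0B) (j := (3 : Fin 9)) (k := (4 : Fin 9)) (lo := 0) (hi := 4) (W := 67108864) (N0 := 3) cA202E_q (sideB hx hx') gokB X (by norm_num) (by norm_num) (l := (0 : Fin 9)) rfl
      (gatB32 x) (gatB40 x) (gatB02 x) ?_)
    (thU (pinU hx hx')) rfl hκ (fun j q y => tC_eq j q y x) (esg_rng X.x0.le (by linarith [X.b, X.p0])).1 (mo_v x) le_rfl le_rfl
  · intro ρ a B hρ hd i h1 h2
    fin_cases i
    · exact corW_cert (G1 := gB3q2) (G2 := gB4q0) (Ga := gB0q2) (Gb := gB1q2) (D1 := dB3q2) (D2 := dB4q0) (Da := dB0q2) (Db := dB1q2) cA202E_ok B hρ hen (gatB32 x) (gatB40 x) (fun _ => gatB02 x) (fun _ => gatB12 x) (datB32 x) (datB40 x) (fun _ => datB02 x) (fun _ => datB12 x) hd hx hx' CW.A202E_340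
    · exact corW_cert (G1 := gB3q2) (G2 := gB4q0) (Ga := gB1q2) (Gb := gB2q2) (D1 := dB3q2) (D2 := dB4q0) (Da := dB1q2) (Db := dB2q2) cA202E_ok B hρ hen (gatB32 x) (gatB40 x) (fun _ => gatB12 x) (fun _ => gatB22 x) (datB32 x) (datB40 x) (fun _ => datB12 x) (fun _ => datB22 x) hd hx hx' CW.A202E_341
    · exact corW_cert (G1 := gB3q2) (G2 := gB4q0) (Ga := gB2q2) (Gb := gB3q2) (D1 := dB3q2) (D2 := dB4q0) (Da := dB2q2) (Db := dB3q2) cA202E_ok B hρ hen (gatB32 x) (gatB40 x) (fun _ => gatB22 x) (fun _ => gatB32 x) (datB32 x) (datB40 x) (fun _ => datB22 x) (fun _ => datB32 x) hd hx hx' CW.A202E_342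
    · exact corW_cert (G1 := gB3q2) (G2 := gB4q0) (Ga := gB3q2) (Gb := gB4q2) (D1 := dB3q2) (D2 := dB4q0) (Da := dB3q2) (Db := dB4q2) cA202E_ok B hρ hen (gatB32 x) (gatB40 x) (fun _ => gatB32 x) (fun _ => gatB42 x) (datB32 x) (datB40 x) (fun _ => datB32 x) (fun _ => datB42 x) hd hx hx' CW.A202E_343
    · exact corW_cert (G1 := gB3q2) (G2 := gB4q0) (Ga := gB4q2) (Gb := gB5q2) (D1 := dB3q2) (D2 := dB4q0) (Da := dB4q2) (Db := dB5q2) cA202E_ok B hρ hen (gatB32 x) (gatB40 x) (fun _ => gatB42 x) (fun h => absurd h (by decide)) (datB32 x) (datB40 x) (fun _ => datB42 x) (fun h => absurd h (by decide)) hd hx hx' CW.A202E_344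
    · exact absurd h2 (by norm_num)
    · exact absurd h2 (by norm_num)
    · exact absurd h2 (by norm_num)
  · intro ρ a B hρ hd i h1 h2
    fin_cases i
    · exact corT_cert (G1 := gB3q2) (G2 := gB4q0) (Ga := gB0q2) (Gb := gB1q2) cA202E_ok B hρ (gatB32 x) (gatB40 x) (fun _ => gatB02 x) (fun _ => gatB12 x) hd hx hx' CG.A202E_340
    · exact corT_cert (G1 := gB3q2) (G2 := gB4q0) (Ga := gB1q2) (Gb := gB2q2) cA202E_ok B hρ (gatB32 x) (gatB40 x) (fun _ => gatB12 x) (fun _ => gatB22 x) hd hx hx' CG.A202E_341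
    · exact corT_cert (G1 := gB3q2) (G2 := gB4q0) (Ga := gB2q2) (Gb := gB3q2) cA202E_ok B hρ (gatB32 x) (gatB40 x) (fun _ => gatB22 x) (fun _ => gatB32 x) hd hx hx' CG.A202E_342
    · exact corT_cert (G1 := gB3q2) (G2 := gB4q0) (Ga := gB3q2) (Gb := gB4q2) cA202E_ok B hρ (gatB32 x) (gatB40 x) (fun _ => gatB32 x) (fun _ => gatB42 x) hd hx hx' CG.A202E_343
    · exact corT_cert (G1 := gB3q2) (G2 := gB4q0) (Ga := gB4q2) (Gb := gB5q2) cA202E_ok B hρ (gatB32 x) (gatB40 x) (fun _ => gatB42 x) (fun h => absurd h (by decide)) hd hx hx' CG.A202E_344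
    · exact absurd h2 (by norm_num)
    · exact absurd h2 (by norm_num)
    · exact absurd h2 (by norm_num)

theorem altB_A202E_44 {κ x : ℝ} (hκ : κ * h0 = ken x) (hx : ((649613803 : ℕ) : ℝ) / S ≤ x) (hx' : x ≤ (((649613803 : ℕ) : ℝ) + (48318383 : ℕ)) / S) :
    AltEA 3 κ (eng.v x) (3 / 40) (tnt (h0 * x) (3 / 10)) PP tK tL tC pcB (scP esg pd) [⟨0, 1, 0, 67108864⟩, ⟨1, 0, 0, 67108864⟩, ⟨2, 1, 0, 67108864⟩] 2 0 2 4 4 (sgb true) (sgb false) x := by
  have X : XR 67108864 x := XR.of hx hx' (by norm_num) (by norm_num) (by norm_num) (by norm_num)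
  have hen : 0 < eng.v x := en_pos X.x0.le
  refine CornW.altA (C := cA202E) (j := (4 : Fin 9)) (k := (4 : Fin 9)) (Ef := esg) (pd := pd) (o := 3 / 40)
    (cornW_of (C := cA202E) (C0 := c0B) (En := eng) (mo := mog) (j := (4 : Fin 9)) (k := (4 : Fin 9)) (lo := 0) (hi := 4) (W := 67108864) (N0 := 3) cA202E_q (sideB hx hx') gokB (pinU hx hx') dokB X (by norm_num) (by norm_num) (l := (0 : Fin 9)) rfl
      (gatB42 x) (gatB40 x) (gatB02 x) (datB42 x) (datB40 x) (datB02 x) ?_)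
    (cornS_of (C := cA202E) (C0 := c0B) (j := (4 : Fin 9)) (k := (4 : Fin 9)) (lo := 0) (hi := 4) (W := 67108864) (N0 := 3) cA202E_q (sideB hx hx') gokB X (by norm_num) (by norm_num) (l := (0 : Fin 9)) rfl
      (gatB42 x) (gatB40 x) (gatB02 x) ?_)
    (thU (pinU hx hx')) rfl hκ (fun j q y => tC_eq j q y x) (esg_rng X.x0.le (by linarith [X.b, X.p0])).1 (mo_v x) le_rfl le_rfl
  · intro ρ a B hρ hd i h1 h2
    fin_cases i
    · exact corW_cert (G1 := gB4q2) (G2 := gB4q0) (Ga := gB0q2) (Gb := gB1q2) (D1 := dB4q2) (D2 := dB4q0) (Da := dB0q2) (Db := dB1q2) cA202E_ok B hρ hen (gatB42 x) (gatB40 x) (fun _ => gatB02 x) (fun _ => gatB12 x) (datB42 x) (datB40 x) (fun _ => datB02 x) (fun _ => datB12 x) hd hx hx' CW.A202E_440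
    · exact corW_cert (G1 := gB4q2) (G2 := gB4q0) (Ga := gB1q2) (Gb := gB2q2) (D1 := dB4q2) (D2 := dB4q0) (Da := dB1q2) (Db := dB2q2) cA202E_ok B hρ hen (gatB42 x) (gatB40 x) (fun _ => gatB12 x) (fun _ => gatB22 x) (datB42 x) (datB40 x) (fun _ => datB12 x) (fun _ => datB22 x) hd hx hx' CW.A202E_441
    · exact corW_cert (G1 := gB4q2) (G2 := gB4q0) (Ga := gB2q2) (Gb := gB3q2) (D1 := dB4q2) (D2 := dB4q0) (Da := dB2q2) (Db := dB3q2) cA202E_ok B hρ hen (gatB42 x) (gatB40 x) (fun _ => gatB22 x) (fun _ => gatB32 x) (datB42 x) (datB40 x) (fun _ => datB22 x) (fun _ => datB32 x) hd hx hx' CW.A202E_442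
    · exact corW_cert (G1 := gB4q2) (G2 := gB4q0) (Ga := gB3q2) (Gb := gB4q2) (D1 := dB4q2) (D2 := dB4q0) (Da := dB3q2) (Db := dB4q2) cA202E_ok B hρ hen (gatB42 x) (gatB40 x) (fun _ => gatB32 x) (fun _ => gatB42 x) (datB42 x) (datB40 x) (fun _ => datB32 x) (fun _ => datB42 x) hd hx hx' CW.A202E_443
    · exact corW_cert (G1 := gB4q2) (G2 := gB4q0) (Ga := gB4q2) (Gb := gB5q2) (D1 := dB4q2) (D2 := dB4q0) (Da := dB4q2) (Db := dB5q2) cA202E_ok B hρ hen (gatB42 x) (gatB40 x) (fun _ => gatB42 x) (fun h => absurd h (by decide)) (datB42 x) (datB40 x) (fun _ => datB42 x) (fun h => absurd h (by decide)) hd hx hx' CW.A202E_444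
    · exact absurd h2 (by norm_num)
    · exact absurd h2 (by norm_num)
    · exact absurd h2 (by norm_num)
  · intro ρ a B hρ hd i h1 h2
    fin_cases i
    · exact corT_cert (G1 := gB4q2) (G2 := gB4q0) (Ga := gB0q2) (Gb := gB1q2) cA202E_ok B hρ (gatB42 x) (gatB40 x) (fun _ => gatB02 x) (fun _ => gatB12 x) hd hx hx' CG.A202E_440
    · exact corT_cert (G1 := gB4q2) (G2 := gB4q0) (Ga := gB1q2) (Gb := gB2q2) cA202E_ok B hρ (gatB42 x) (gatB40 x) (fun _ => gatB12 x) (fun _ => gatB22 x) hd hx hx' CG.A202E_441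
    · exact corT_cert (G1 := gB4q2) (G2 := gB4q0) (Ga := gB2q2) (Gb := gB3q2) cA202E_ok B hρ (gatB42 x) (gatB40 x) (fun _ => gatB22 x) (fun _ => gatB32 x) hd hx hx' CG.A202E_442
    · exact corT_cert (G1 := gB4q2) (G2 := gB4q0) (Ga := gB3q2) (Gb := gB4q2) cA202E_ok B hρ (gatB42 x) (gatB40 x) (fun _ => gatB32 x) (fun _ => gatB42 x) hd hx hx' CG.A202E_443
    · exact corT_cert (G1 := gB4q2) (G2 := gB4q0) (Ga := gB4q2) (Gb := gB5q2) cA202E_ok B hρ (gatB42 x) (gatB40 x) (fun _ => gatB42 x) (fun h => absurd h (by decide)) hd hx hx' CG.A202E_444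
    · exact absurd h2 (by norm_num)
    · exact absurd h2 (by norm_num)
    · exact absurd h2 (by norm_num)

theorem altB_A202R_00 {κ x : ℝ} (hκ : κ * h0 = ken x) (hx : ((649613803 : ℕ) : ℝ) / S ≤ x) (hx' : x ≤ (((649613803 : ℕ) : ℝ) + (48318383 : ℕ)) / S) :
    AltEA 3 κ (eng.v x) (3 / 40) (tnt (h0 * x) (3 / 10)) PP tK tL tC pcB (scP esg pd) [⟨0, 1, 0, 53687091⟩, ⟨1, 0, 0, 53687091⟩, ⟨2, 1, 0, 53687091⟩] 2 0 2 0 0 (sgb false) (sgb false) x := by
  have X : XR 53687091 x := XR.of hx hx' (by norm_num) (by norm_num) (by norm_num) (by norm_num)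
  have hen : 0 < eng.v x := en_pos X.x0.le
  refine CornW.altA (C := cA202R) (j := (0 : Fin 9)) (k := (0 : Fin 9)) (Ef := esg) (pd := pd) (o := 3 / 40)
    (cornW_of (C := cA202R) (C0 := c0B) (En := eng) (mo := mog) (j := (0 : Fin 9)) (k := (0 : Fin 9)) (lo := 8) (hi := 8) (W := 53687091) (N0 := 3) cA202R_q (sideB hx hx') gokB (pinU hx hx') dokB X (by norm_num) (by norm_num) (l := (8 : Fin 9)) rfl
      (gatB02 x) (gatB00 x) (gatB82 x) (datB02 x) (datB00 x) (datB82 x) ?_)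
    (cornS_of (C := cA202R) (C0 := c0B) (j := (0 : Fin 9)) (k := (0 : Fin 9)) (lo := 8) (hi := 8) (W := 53687091) (N0 := 3) cA202R_q (sideB hx hx') gokB X (by norm_num) (by norm_num) (l := (8 : Fin 9)) rfl
      (gatB02 x) (gatB00 x) (gatB82 x) ?_)
    (thU (pinU hx hx')) rfl hκ (fun j q y => tC_eq j q y x) (esg_rng X.x0.le (by linarith [X.b, X.p0])).1 (mo_v x) le_rfl le_rfl
  · intro ρ a B hρ hd i h1 h2
    fin_cases i
    · exact absurd h1 (by norm_num)
    · exact absurd h1 (by norm_num)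
    · exact absurd h1 (by norm_num)
    · exact absurd h1 (by norm_num)
    · exact absurd h1 (by norm_num)
    · exact absurd h1 (by norm_num)
    · exact absurd h1 (by norm_num)
    · exact corW_cert (G1 := gB0q2) (G2 := gB0q0) (Ga := gB7q2) (Gb := gB8q2) (D1 := dB0q2) (D2 := dB0q0) (Da := dB7q2) (Db := dB8q2) cA202R_ok B hρ hen (gatB02 x) (gatB00 x) (fun h => absurd h (by decide)) (fun _ => gatB82 x) (datB02 x) (datB00 x) (fun h => absurd h (by decide)) (fun _ => datB82 x) hd hx hx' CW.A202R_007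
  · intro ρ a B hρ hd i h1 h2
    fin_cases i
    · exact absurd h1 (by norm_num)
    · exact absurd h1 (by norm_num)
    · exact absurd h1 (by norm_num)
    · exact absurd h1 (by norm_num)
    · exact absurd h1 (by norm_num)
    · exact absurd h1 (by norm_num)
    · exact absurd h1 (by norm_num)
    · exact corX_cert (G1 := gB0q2) (G2 := gB0q0) (Ga := gB7q2) (Gb := gB8q2) (GT := gB8q2) cA202R_ok tA202R_ok B hρ (gatB02 x) (gatB00 x) (fun h => absurd h (by decide)) (fun _ => gatB82 x) rfl (tgh_A202R (kodd x) (gpu2 x) (gpu0 x) (gpt2 x) (gatB02 x) (gatB00 x) (gatB82 x) B (le_sixteenth hd (by norm_num))) hd hx hx' CG.A202R_007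

theorem altB_A202R_01 {κ x : ℝ} (hκ : κ * h0 = ken x) (hx : ((649613803 : ℕ) : ℝ) / S ≤ x) (hx' : x ≤ (((649613803 : ℕ) : ℝ) + (48318383 : ℕ)) / S) :
    AltEA 3 κ (eng.v x) (3 / 40) (tnt (h0 * x) (3 / 10)) PP tK tL tC pcB (scP esg pd) [⟨0, 1, 0, 67108864⟩, ⟨1, 0, 0, 67108864⟩, ⟨2, 1, 0, 67108864⟩] 2 0 2 0 1 (sgb false) (sgb false) x := by
  have X : XR 67108864 x := XR.of hx hx' (by norm_num) (by norm_num) (by norm_num) (by norm_num)
  have hen : 0 < eng.v x := en_pos X.x0.le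
  refine CornW.altA (C := cA202R) (j := (0 : Fin 9)) (k := (1 : Fin 9)) (Ef := esg) (pd := pd) (o := 3 / 40)
    (cornW_of (C := cA202R) (C0 := c0B) (En := eng) (mo := mog) (j := (0 : Fin 9)) (k := (1 : Fin 9)) (lo := 8) (hi := 8) (W := 67108864) (N0 := 3) cA202R_q (sideB hx hx') gokB (pinU hx hx') dokB X (by norm_num) (by norm_num) (l := (8 : Fin 9)) rfl
      (gatB02 x) (gatB10 x) (gatB82 x) (datB02 x) (datB10 x) (datB82 x) ?_)
    (cornS_of (C := cA202R) (C0 := c0B) (j := (0 : Fin 9)) (k := (1 : Fin 9)) (lo := 8) (hi := 8) (W := 67108864) (N0 := 3) cA202R_q (sideB hx hx') gokB X (by norm_num) (by norm_num) (l := (8 : Fin 9)) rfl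
      (gatB02 x) (gatB10 x) (gatB82 x) ?_)
    (thU (pinU hx hx')) rfl hκ (fun j q y => tC_eq j q y x) (esg_rng X.x0.le (by linarith [X.b, X.p0])).1 (mo_v x) le_rfl le_rfl
  · intro ρ a B hρ hd i h1 h2
    fin_cases i
    · exact absurd h1 (by norm_num)
    · exact absurd h1 (by norm_num)
    · exact absurd h1 (by norm_num)
    · exact absurd h1 (by norm_num)
    · exact absurd h1 (by norm_num)
    · exact absurd h1 (by norm_num)
    · exact absurd h1 (by norm_num)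
    · exact corW_cert (G1 := gB0q2) (G2 := gB1q0) (Ga := gB7q2) (Gb := gB8q2) (D1 := dB0q2) (D2 := dB1q0) (Da := dB7q2) (Db := dB8q2) cA202R_ok B hρ hen (gatB02 x) (gatB10 x) (fun h => absurd h (by decide)) (fun _ => gatB82 x) (datB02 x) (datB10 x) (fun h => absurd h (by decide)) (fun _ => datB82 x) hd hx hx' CW.A202R_017
  · intro ρ a B hρ hd i h1 h2
    fin_cases i
    · exact absurd h1 (by norm_num)
    · exact absurd h1 (by norm_num)
    · exact absurd h1 (by norm_num)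
    · exact absurd h1 (by norm_num)
    · exact absurd h1 (by norm_num)
    · exact absurd h1 (by norm_num)
    · exact absurd h1 (by norm_num)
    · exact corT_cert (G1 := gB0q2) (G2 := gB1q0) (Ga := gB7q2) (Gb := gB8q2) cA202R_ok B hρ (gatB02 x) (gatB10 x) (fun h => absurd h (by decide)) (fun _ => gatB82 x) hd hx hx' CG.A202R_017

theorem altB_A202R_02 {κ x : ℝ} (hκ : κ * h0 = ken x) (hx : ((649613803 : ℕ) : ℝ) / S ≤ x) (hx' : x ≤ (((649613803 : ℕ) : ℝ) + (48318383 : ℕ)) / S) :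
    AltEA 3 κ (eng.v x) (3 / 40) (tnt (h0 * x) (3 / 10)) PP tK tL tC pcB (scP esg pd) [⟨0, 1, 0, 67108864⟩, ⟨1, 0, 0, 67108864⟩, ⟨2, 1, 0, 67108864⟩] 2 0 2 0 2 (sgb false) (sgb false) x := by
  have X : XR 67108864 x := XR.of hx hx' (by norm_num) (by norm_num) (by norm_num) (by norm_num)
  have hen : 0 < eng.v x := en_pos X.x0.le
  refine CornW.altA (C := cA202R) (j := (0 : Fin 9)) (k := (2 : Fin 9)) (Ef := esg) (pd := pd) (o := 3 / 40)
    (cornW_of (C := cA202R) (C0 := c0B) (En := eng) (mo := mog) (j := (0 : Fin 9)) (k := (2 : Fin 9)) (lo := 8) (hi := 8) (W := 67108864) (N0 := 3) cA202R_q (sideB hx hx') gokB (pinU hx hx') dokB X (by norm_num) (by norm_num) (l := (8 : Fin 9)) rfl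
      (gatB02 x) (gatB20 x) (gatB82 x) (datB02 x) (datB20 x) (datB82 x) ?_)
    (cornS_of (C := cA202R) (C0 := c0B) (j := (0 : Fin 9)) (k := (2 : Fin 9)) (lo := 8) (hi := 8) (W := 67108864) (N0 := 3) cA202R_q (sideB hx hx') gokB X (by norm_num) (by norm_num) (l := (8 : Fin 9)) rfl
      (gatB02 x) (gatB20 x) (gatB82 x) ?_)
    (thU (pinU hx hx')) rfl hκ (fun j q y => tC_eq j q y x) (esg_rng X.x0.le (by linarith [X.b, X.p0])).1 (mo_v x) le_rfl le_rfl
  · intro ρ a B hρ hd i h1 h2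
    fin_cases i
    · exact absurd h1 (by norm_num)
    · exact absurd h1 (by norm_num)
    · exact absurd h1 (by norm_num)
    · exact absurd h1 (by norm_num)
    · exact absurd h1 (by norm_num)
    · exact absurd h1 (by norm_num)
    · exact absurd h1 (by norm_num)
    · exact corW_cert (G1 := gB0q2) (G2 := gB2q0) (Ga := gB7q2) (Gb := gB8q2) (D1 := dB0q2) (D2 := dB2q0) (Da := dB7q2) (Db := dB8q2) cA202R_ok B hρ hen (gatB02 x) (gatB20 x) (fun h => absurd h (by decide)) (fun _ => gatB82 x) (datB02 x) (datB20 x) (fun h => absurd h (by decide)) (fun _ => datB82 x) hd hx hx' CW.A202R_027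
  · intro ρ a B hρ hd i h1 h2
    fin_cases i
    · exact absurd h1 (by norm_num)
    · exact absurd h1 (by norm_num)
    · exact absurd h1 (by norm_num)
    · exact absurd h1 (by norm_num)
    · exact absurd h1 (by norm_num)
    · exact absurd h1 (by norm_num)
    · exact absurd h1 (by norm_num)
    · exact corT_cert (G1 := gB0q2) (G2 := gB2q0) (Ga := gB7q2) (Gb := gB8q2) cA202R_ok B hρ (gatB02 x) (gatB20 x) (fun h => absurd h (by decide)) (fun _ => gatB82 x) hd hx hx' CG.A202R_027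

theorem altB_A202R_03 {κ x : ℝ} (hκ : κ * h0 = ken x) (hx : ((649613803 : ℕ) : ℝ) / S ≤ x) (hx' : x ≤ (((649613803 : ℕ) : ℝ) + (48318383 : ℕ)) / S) :
    AltEA 3 κ (eng.v x) (3 / 40) (tnt (h0 * x) (3 / 10)) PP tK tL tC pcB (scP esg pd) [⟨0, 1, 0, 67108864⟩, ⟨1, 0, 0, 67108864⟩, ⟨2, 1, 0, 67108864⟩] 2 0 2 0 3 (sgb false) (sgb false) x := by
  have X : XR 67108864 x := XR.of hx hx' (by norm_num) (by norm_num) (by norm_num) (by norm_num)
  have hen : 0 < eng.v x := en_pos X.x0.le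
  refine CornW.altA (C := cA202R) (j := (0 : Fin 9)) (k := (3 : Fin 9)) (Ef := esg) (pd := pd) (o := 3 / 40)
    (cornW_of (C := cA202R) (C0 := c0B) (En := eng) (mo := mog) (j := (0 : Fin 9)) (k := (3 : Fin 9)) (lo := 8) (hi := 8) (W := 67108864) (N0 := 3) cA202R_q (sideB hx hx') gokB (pinU hx hx') dokB X (by norm_num) (by norm_num) (l := (8 : Fin 9)) rfl
      (gatB02 x) (gatB30 x) (gatB82 x) (datB02 x) (datB30 x) (datB82 x) ?_)
    (cornS_of (C := cA202R) (C0 := c0B) (j := (0 : Fin 9)) (k := (3 : Fin 9)) (lo := 8) (hi := 8) (W := 67108864) (N0 := 3) cA202R_q (sideB hx hx') gokB X (by norm_num) (by norm_num) (l := (8 : Fin 9)) rfl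
      (gatB02 x) (gatB30 x) (gatB82 x) ?_)
    (thU (pinU hx hx')) rfl hκ (fun j q y => tC_eq j q y x) (esg_rng X.x0.le (by linarith [X.b, X.p0])).1 (mo_v x) le_rfl le_rfl
  · intro ρ a B hρ hd i h1 h2
    fin_cases i
    · exact absurd h1 (by norm_num)
    · exact absurd h1 (by norm_num)
    · exact absurd h1 (by norm_num)
    · exact absurd h1 (by norm_num)
    · exact absurd h1 (by norm_num)
    · exact absurd h1 (by norm_num)
    · exact absurd h1 (by norm_num)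
    · exact corW_cert (G1 := gB0q2) (G2 := gB3q0) (Ga := gB7q2) (Gb := gB8q2) (D1 := dB0q2) (D2 := dB3q0) (Da := dB7q2) (Db := dB8q2) cA202R_ok B hρ hen (gatB02 x) (gatB30 x) (fun h => absurd h (by decide)) (fun _ => gatB82 x) (datB02 x) (datB30 x) (fun h => absurd h (by decide)) (fun _ => datB82 x) hd hx hx' CW.A202R_037
  · intro ρ a B hρ hd i h1 h2
    fin_cases i
    · exact absurd h1 (by norm_num)
    · exact absurd h1 (by norm_num)
    · exact absurd h1 (by norm_num)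
    · exact absurd h1 (by norm_num)
    · exact absurd h1 (by norm_num)
    · exact absurd h1 (by norm_num)
    · exact absurd h1 (by norm_num)
    · exact corT_cert (G1 := gB0q2) (G2 := gB3q0) (Ga := gB7q2) (Gb := gB8q2) cA202R_ok B hρ (gatB02 x) (gatB30 x) (fun h => absurd h (by decide)) (fun _ => gatB82 x) hd hx hx' CG.A202R_037

theorem altB_A202R_04 {κ x : ℝ} (hκ : κ * h0 = ken x) (hx : ((649613803 : ℕ) : ℝ) / S ≤ x) (hx' : x ≤ (((649613803 : ℕ) : ℝ) + (48318383 : ℕ)) / S) :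
    AltEA 3 κ (eng.v x) (3 / 40) (tnt (h0 * x) (3 / 10)) PP tK tL tC pcB (scP esg pd) [⟨0, 1, 0, 67108864⟩, ⟨1, 0, 0, 67108864⟩, ⟨2, 1, 0, 67108864⟩] 2 0 2 0 4 (sgb false) (sgb false) x := by
  have X : XR 67108864 x := XR.of hx hx' (by norm_num) (by norm_num) (by norm_num) (by norm_num)
  have hen : 0 < eng.v x := en_pos X.x0.le
  refine CornW.altA (C := cA202R) (j := (0 : Fin 9)) (k := (4 : Fin 9)) (Ef := esg) (pd := pd) (o := 3 / 40)
    (cornW_of (C := cA202R) (C0 := c0B) (En := eng) (mo := mog) (j := (0 : Fin 9)) (k := (4 : Fin 9)) (lo := 8) (hi := 8) (W := 67108864) (N0 := 3) cA202R_q (sideB hx hx') gokB (pinU hx hx') dokB X (by norm_num) (by norm_num) (l := (8 : Fin 9)) rfl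
      (gatB02 x) (gatB40 x) (gatB82 x) (datB02 x) (datB40 x) (datB82 x) ?_)
    (cornS_of (C := cA202R) (C0 := c0B) (j := (0 : Fin 9)) (k := (4 : Fin 9)) (lo := 8) (hi := 8) (W := 67108864) (N0 := 3) cA202R_q (sideB hx hx') gokB X (by norm_num) (by norm_num) (l := (8 : Fin 9)) rfl
      (gatB02 x) (gatB40 x) (gatB82 x) ?_)
    (thU (pinU hx hx')) rfl hκ (fun j q y => tC_eq j q y x) (esg_rng X.x0.le (by linarith [X.b, X.p0])).1 (mo_v x) le_rfl le_rfl
  · intro ρ a B hρ hd i h1 h2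
    fin_cases i
    · exact absurd h1 (by norm_num)
    · exact absurd h1 (by norm_num)
    · exact absurd h1 (by norm_num)
    · exact absurd h1 (by norm_num)
    · exact absurd h1 (by norm_num)
    · exact absurd h1 (by norm_num)
    · exact absurd h1 (by norm_num)
    · exact corW_cert (G1 := gB0q2) (G2 := gB4q0) (Ga := gB7q2) (Gb := gB8q2) (D1 := dB0q2) (D2 := dB4q0) (Da := dB7q2) (Db := dB8q2) cA202R_ok B hρ hen (gatB02 x) (gatB40 x) (fun h => absurd h (by decide)) (fun _ => gatB82 x) (datB02 x) (datB40 x) (fun h => absurd h (by decide)) (fun _ => datB82 x) hd hx hx' CW.A202R_047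
  · intro ρ a B hρ hd i h1 h2
    fin_cases i
    · exact absurd h1 (by norm_num)
    · exact absurd h1 (by norm_num)
    · exact absurd h1 (by norm_num)
    · exact absurd h1 (by norm_num)
    · exact absurd h1 (by norm_num)
    · exact absurd h1 (by norm_num)
    · exact absurd h1 (by norm_num)
    · exact corT_cert (G1 := gB0q2) (G2 := gB4q0) (Ga := gB7q2) (Gb := gB8q2) cA202R_ok B hρ (gatB02 x) (gatB40 x) (fun h => absurd h (by decide)) (fun _ => gatB82 x) hd hx hx' CG.A202R_047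

theorem altB_A202R_11 {κ x : ℝ} (hκ : κ * h0 = ken x) (hx : ((649613803 : ℕ) : ℝ) / S ≤ x) (hx' : x ≤ (((649613803 : ℕ) : ℝ) + (48318383 : ℕ)) / S) :
    AltEA 3 κ (eng.v x) (3 / 40) (tnt (h0 * x) (3 / 10)) PP tK tL tC pcB (scP esg pd) [⟨0, 1, 0, 67108864⟩, ⟨1, 0, 0, 67108864⟩, ⟨2, 1, 0, 67108864⟩] 2 0 2 1 1 (sgb false) (sgb false) x := by
  have X : XR 67108864 x := XR.of hx hx' (by norm_num) (by norm_num) (by norm_num) (by norm_num)
  have hen : 0 < eng.v x := en_pos X.x0.le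
  refine CornW.altA (C := cA202R) (j := (1 : Fin 9)) (k := (1 : Fin 9)) (Ef := esg) (pd := pd) (o := 3 / 40)
    (cornW_of (C := cA202R) (C0 := c0B) (En := eng) (mo := mog) (j := (1 : Fin 9)) (k := (1 : Fin 9)) (lo := 8) (hi := 8) (W := 67108864) (N0 := 3) cA202R_q (sideB hx hx') gokB (pinU hx hx') dokB X (by norm_num) (by norm_num) (l := (8 : Fin 9)) rfl
      (gatB12 x) (gatB10 x) (gatB82 x) (datB12 x) (datB10 x) (datB82 x) ?_)
    (cornS_of (C := cA202R) (C0 := c0B) (j := (1 : Fin 9)) (k := (1 : Fin 9)) (lo := 8) (hi := 8) (W := 67108864) (N0 := 3) cA202R_q (sideB hx hx') gokB X (by norm_num) (by norm_num) (l := (8 : Fin 9)) rfl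
      (gatB12 x) (gatB10 x) (gatB82 x) ?_)
    (thU (pinU hx hx')) rfl hκ (fun j q y => tC_eq j q y x) (esg_rng X.x0.le (by linarith [X.b, X.p0])).1 (mo_v x) le_rfl le_rfl
  · intro ρ a B hρ hd i h1 h2
    fin_cases i
    · exact absurd h1 (by norm_num)
    · exact absurd h1 (by norm_num)
    · exact absurd h1 (by norm_num)
    · exact absurd h1 (by norm_num)
    · exact absurd h1 (by norm_num)
    · exact absurd h1 (by norm_num)
    · exact absurd h1 (by norm_num)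
    · exact corW_cert (G1 := gB1q2) (G2 := gB1q0) (Ga := gB7q2) (Gb := gB8q2) (D1 := dB1q2) (D2 := dB1q0) (Da := dB7q2) (Db := dB8q2) cA202R_ok B hρ hen (gatB12 x) (gatB10 x) (fun h => absurd h (by decide)) (fun _ => gatB82 x) (datB12 x) (datB10 x) (fun h => absurd h (by decide)) (fun _ => datB82 x) hd hx hx' CW.A202R_117
  · intro ρ a B hρ hd i h1 h2
    fin_cases i
    · exact absurd h1 (by norm_num)
    · exact absurd h1 (by norm_num)
    · exact absurd h1 (by norm_num)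
    · exact absurd h1 (by norm_num)
    · exact absurd h1 (by norm_num)
    · exact absurd h1 (by norm_num)
    · exact absurd h1 (by norm_num)
    · exact corT_cert (G1 := gB1q2) (G2 := gB1q0) (Ga := gB7q2) (Gb := gB8q2) cA202R_ok B hρ (gatB12 x) (gatB10 x) (fun h => absurd h (by decide)) (fun _ => gatB82 x) hd hx hx' CG.A202R_117

end Pool.Agent.Strip051.G.I6050_6500.Tab
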