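import Pool.Agent.Strip051.G.I6050_6500.DgP

/-! # The corner (1, 1, 2): certificates of the degenerate charts (generated) -/

set_option linter.all false

namespace Pool.Agent.Strip051.G.I6050_6500.Tab.DG

open Pool.Agent.Strip051.PB Pool.Agent.Strip051.PB.Dg Pool.Agent.StripNear Pool.Agent.Strip051.LC

theorem cNA6 : ∃ t, chk3 (onCell 0 232471925 0 1073741824 649613803 48318383 (fdAW pN qN (ndUR ndN6) (ndUR ndN7) (thLo (ndUR ndN6) (ndUR ndN7)) (tuLo (ndUR ndN6) (ndUR ndN7) (suR ndN6) (suR ndN7)))) t 1 1 1 = true :=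
  ⟨(T.a (T.a (T.b (T.b (T.l 2) (T.l 0)) (T.b (T.b (T.l 0) (T.l 0)) (T.b (T.b (T.l 0) (T.l 3)) (T.l 3)))) (T.b (T.l 2) (T.a (T.b (T.b (T.l 0) (T.a (T.l 0) (T.l 0))) (T.b (T.b (T.a (T.l 0) (T.l 0)) (T.l 3)) (T.l 3))) (T.b (T.b (T.l 0) (T.l 0)) (T.b (T.b (T.l 0) (T.l 3)) (T.l 3)))))) (T.b (T.l 2) (T.b (T.a (T.a (T.b (T.l 0) (T.l 0)) (T.b (T.l 0) (T.a (T.l 0) (T.l 0)))) (T.a (T.b (T.l 0) (T.b (T.l 0) (T.a (T.l 0) (T.l 0)))) (T.b (T.a (T.l 0) (T.l 0)) (T.b (T.l 0) (T.a (T.l 0) (T.l 0)))))) (T.b (T.b (T.b (T.a (T.a (T.l 0) (T.a (T.l 0) (T.l 0))) (T.a (T.a (T.l 0) (T.l 0)) (T.a (T.l 0) (T.l 0)))) (T.l 3)) (T.l 3)) (T.l 3))))), by decide +kernel⟩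
theorem cNA7 : ∃ t, chk3 (onCell 0 232471925 0 1073741824 649613803 48318383 (fdAW pN qN (ndUR ndN7) (dgSC pN) (thUp (ndUR ndN7) (dgSC pN)) (tuUp (ndUR ndN7) (dgSC pN) (suR ndN7) (suC qN)))) t 1 1 1 = true :=
  ⟨(T.b (T.l 2) (T.a (T.a (T.b (T.b (T.l 2) (T.l 0)) (T.b (T.l 0) (T.a (T.l 0) (T.l 0)))) (T.a (T.b (T.l 2) (T.a (T.b (T.l 0) (T.a (T.l 0) (T.l 0))) (T.b (T.a (T.l 0) (T.l 0)) (T.a (T.l 0) (T.l 0))))) (T.b (T.l 2) (T.a (T.b (T.a (T.l 0) (T.l 0)) (T.a (T.l 0) (T.l 0))) (T.b (T.a (T.l 0) (T.l 0)) (T.a (T.l 0) (T.l 0))))))) (T.b (T.l 2) (T.b (T.b (T.a (T.a (T.a (T.a (T.l 0) (T.l 0)) (T.a (T.l 0) (T.l 0))) (T.a (T.a (T.l 0) (T.l 0)) (T.a (T.l 0) (T.l 0)))) (T.a (T.a (T.a (T.l 0) (T.l 0)) (T.a (T.l 0) (T.l 0))) (T.a (T.a (T.l 0) (T.l 0)) (T.a (T.l 0) (T.l 0))))) (T.a (T.a (T.a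 (T.a (T.l 0) (T.l 0)) (T.a (T.l 0) (T.l 0))) (T.a (T.a (T.l 0) (T.l 0)) (T.a (T.l 0) (T.l 0)))) (T.a (T.a (T.a (T.l 0) (T.l 0)) (T.a (T.l 0) (T.a (T.l 0) (T.l 0)))) (T.a (T.a (T.a (T.l 0) (T.l 0)) (T.a (T.l 0) (T.l 0))) (T.a (T.a (T.l 0) (T.l 4)) (T.l 4)))))) (T.b (T.a (T.a (T.a (T.a (T.l 0) (T.l 0)) (T.a (T.l 0) (T.l 0))) (T.a (T.a (T.l 0) (T.l 0)) (T.a (T.l 0) (T.l 0)))) (T.a (T.a (T.a (T.a (T.l 0) (T.l 0)) (T.a (T.l 0) (T.l 0))) (T.a (T.a (T.l 0) (T.l 0)) (T.a (T.l 0) (T.l 0)))) (T.a (T.a (T.a (T.l 0) (T.l 4)) (T.l 4)) (T.l 4)))) (T.a (T.a (T.a (T.a (T.l 0) (T.l 0)) (T.a (T.l 0) (T.l 0))) (T.a (T.a (T.l 0) (T.a (T.l 0) (T.l 0))) (T.a (T.a (T.l 0) (T.l 0)) (T.a (T.l 0) (T.l 0))))) (T.a (T.a (T.a (T.a (T.l 544) (T.l 139944)) (T.a (T.l 174760) (T.l 174760))) (T.a (T.b (T.l 0)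 (T.l 174760)) (T.l 4))) (T.l 4)))))))), by decide +kernel⟩
theorem cNB5 : ∃ t, chk3 (onCell 0 232471925 0 2684354560 649613803 48318383 (fdBW pN qN (ndUR ndN5) (suR ndN5))) t 1 1 1 = true :=
  ⟨(T.b (T.b (T.a (T.b (T.l 0) (T.l 4)) (T.b (T.a (T.l 0) (T.l 0)) (T.b (T.a (T.a (T.l 4) (T.l 0)) (T.a (T.l 0) (T.l 0))) (T.l 4)))) (T.l 4)) (T.a (T.l 4) (T.b (T.l 4) (T.a (T.l 4) (T.l 4))))), by decide +kernel⟩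
theorem cNB6 : ∃ t, chk3 (onCell 0 232471925 0 2684354560 649613803 48318383 (fdBW pN qN (ndUR ndN6) (suR ndN6))) t 1 1 1 = true :=
  ⟨(T.b (T.b (T.b (T.l 2) (T.a (T.a (T.l 0) (T.b (T.l 2) (T.a (T.l 0) (T.l 0)))) (T.b (T.l 2) (T.b (T.a (T.l 0) (T.a (T.l 0) (T.l 0))) (T.a (T.l 0) (T.b (T.l 0) (T.l 4))))))) (T.b (T.l 4) (T.l 4))) (T.a (T.l 4) (T.b (T.l 4) (T.a (T.l 4) (T.l 4))))), by decide +kernel⟩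
theorem cNB7 : ∃ t, chk3 (onCell 0 232471925 0 2684354560 649613803 48318383 (fdBW pN qN (ndUR ndN7) (suR ndN7))) t 1 1 1 = true :=
  ⟨(T.b (T.b (T.l 2) (T.b (T.a (T.a (T.b (T.l 0) (T.b (T.l 0) (T.l 4))) (T.b (T.b (T.l 2) (T.a (T.a (T.l 0) (T.l 0)) (T.l 0))) (T.b (T.b (T.a (T.l 0) (T.l 0)) (T.l 4)) (T.l 4)))) (T.b (T.b (T.l 2) (T.b (T.l 2) (T.b (T.l 2) (T.a (T.a (T.l 0) (T.l 0)) (T.a (T.l 0) (T.l 0)))))) (T.b (T.b (T.a (T.a (T.l 0) (T.a (T.l 0) (T.l 0))) (T.a (T.a (T.l 0) (T.l 0)) (T.a (T.l 0) (T.l 0)))) (T.l 4)) (T.l 4)))) (T.l 4))) (T.a (T.l 4) (T.b (T.l 4) (T.a (T.l 4) (T.l 4))))), by decide +kernel⟩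
theorem cNB8 : ∃ t, chk3 (onCell 0 232471925 0 2684354560 649613803 48318383 (fdBW pN qN (dgSC pN) (suC qN))) t 1 1 1 = true :=
  ⟨(T.b (T.b (T.l 2) (T.b (T.l 2) (T.a (T.b (T.a (T.a (T.b (T.l 0) (T.l 34816)) (T.b (T.l 0) (T.b (T.l 0) (T.l 4)))) (T.b (T.b (T.l 2) (T.b (T.l 2) (T.a (T.a (T.l 0) (T.l 0)) (T.a (T.l 0) (T.l 0))))) (T.b (T.a (T.a (T.l 34816) (T.l 34816)) (T.a (T.l 34816) (T.l 34816))) (T.l 4)))) (T.l 4)) (T.b (T.a (T.b (T.b (T.l 2) (T.b (T.l 2) (T.a (T.a (T.a (T.l 0) (T.l 0)) (T.a (T.l 0) (T.l 0))) (T.a (T.a (T.l 0) (T.l 0)) (T.a (T.l 0) (T.l 0)))))) (T.b (T.a (T.a (T.a (T.l 34816) (T.l 165888)) (T.a (T.l 174208) (T.l 174216))) (T.a (T.a (T.l 174216) (T.l 174216)) (T.a (T.l 174728) (T.l 174760)))) (T.l 4))) (T.a (T.a (T.b (T.b (T.l 2) (T.b (T.l 2) (T.a (T.a (T.l 0)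 (T.l 0)) (T.a (T.l 0) (T.l 0))))) (T.b (T.a (T.l 174760) (T.l 174760)) (T.l 4))) (T.a (T.b (T.b (T.l 2) (T.b (T.l 2) (T.l 6))) (T.l 6)) (T.l 6))) (T.l 6))) (T.l 4))))) (T.b (T.b (T.l 4) (T.l 4)) (T.a (T.l 4) (T.a (T.l 4) (T.l 4))))), by decide +kernel⟩
theorem cNP5 : ∃ t, chk3 (onCell 0 232471925 0 1073741824 649613803 48318383 (fdPW pN qN (ndUR ndN5) (suR ndN5))) t 1 1 1 = true :=
  ⟨(T.b (T.a (T.b (T.l 0) (T.l 0)) (T.b (T.l 0) (T.b (T.a (T.l 0) (T.l 0)) (T.l 2)))) (T.l 2)), by decide +kernel⟩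
theorem cNP6 : ∃ t, chk3 (onCell 0 232471925 0 1073741824 649613803 48318383 (fdPW pN qN (ndUR ndN6) (suR ndN6))) t 1 1 1 = true :=
  ⟨(T.a (T.a (T.b (T.b (T.l 0) (T.l 0)) (T.b (T.a (T.l 0) (T.l 0)) (T.l 2))) (T.b (T.b (T.l 0) (T.l 0)) (T.b (T.b (T.a (T.l 0) (T.l 0)) (T.l 2)) (T.l 2)))) (T.b (T.b (T.l 0) (T.a (T.a (T.l 0) (T.l 0)) (T.b (T.l 0) (T.a (T.l 0) (T.l 0))))) (T.b (T.b (T.a (T.a (T.l 0) (T.l 0)) (T.b (T.l 0) (T.l 2))) (T.l 2)) (T.l 2)))), by decide +kernel⟩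
theorem cNP7 : ∃ t, chk3 (onCell 0 232471925 0 1073741824 649613803 48318383 (fdPW pN qN (ndUR ndN7) (suR ndN7))) t 1 1 1 = true :=
  ⟨(T.a (T.a (T.b (T.a (T.l 131616) (T.l 131616)) (T.b (T.b (T.l 0) (T.l 0)) (T.b (T.a (T.l 0) (T.l 0)) (T.l 2)))) (T.b (T.a (T.l 131616) (T.l 131616)) (T.b (T.b (T.l 139936) (T.a (T.a (T.l 0) (T.l 0)) (T.l 0))) (T.b (T.b (T.a (T.a (T.l 0) (T.l 0)) (T.l 0)) (T.l 2)) (T.l 2))))) (T.b (T.b (T.l 512) (T.a (T.l 544) (T.l 139936))) (T.b (T.a (T.b (T.l 512) (T.a (T.l 0) (T.a (T.l 0) (T.l 0)))) (T.b (T.l 172712) (T.b (T.l 139936) (T.a (T.l 0) (T.l 131584))))) (T.b (T.b (T.b (T.a (T.a (T.l 0) (T.a (T.l 0) (T.l 0))) (T.a (T.a (T.l 0) (T.l 0)) (T.a (T.l 0) (T.l 0)))) (T.l 2)) (T.l 2)) (T.l 2))))), by decide +kernel⟩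
theorem cNP8 : ∃ t, chk3 (onCell 0 232471925 0 1073741824 649613803 48318383 (fdPW pN qN (dgSC pN) (suC qN))) t 1 1 1 = true :=
  ⟨(T.a (T.a (T.b (T.l 544) (T.b (T.l 544) (T.b (T.l 0) (T.l 0)))) (T.b (T.a (T.l 544) (T.l 544)) (T.b (T.l 174760) (T.a (T.b (T.l 139944) (T.a (T.l 0) (T.l 0))) (T.b (T.l 544) (T.a (T.l 0) (T.a (T.l 0) (T.l 0)))))))) (T.b (T.a (T.a (T.l 139944) (T.l 139944)) (T.a (T.l 139944) (T.l 4))) (T.b (T.a (T.a (T.l 139944) (T.l 174760)) (T.a (T.l 174760) (T.l 174760))) (T.b (T.a (T.a (T.l 174760) (T.l 174760)) (T.a (T.l 174760) (T.l 174760))) (T.a (T.a (T.b (T.l 174760) (T.b (T.l 174760) (T.a (T.a (T.l 0) (T.l 0)) (T.a (T.l 0) (T.l 0))))) (T.b (T.l 174760) (T.a (T.a (T.l 0) (T.l 0)) (T.a (T.l 0) (T.a (T.l 0) (T.l 0)))))) (T.a (T.b (T.l 174760) (T.a (T.b (T.l 174760)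 (T.a (T.l 0) (T.l 0))) (T.b (T.l 174760) (T.a (T.l 8872) (T.l 3))))) (T.b (T.l 174760) (T.l 3)))))))), by decide +kernel⟩
theorem cNC1 : ∃ t, chk3 (onCell 0 232471925 0 1073741824 649613803 48318383 (fdCW pN qN ndN4 (thLo (ndUL pN ndN4) (ndUR ndN5)) (tuLo (ndUL pN ndN4) (ndUR ndN5) (suL qN ndN4) (suR ndN5)) cvN1 cFsDD1 (ndUR ndN5))) t 1 1 1 = true :=
  ⟨(T.a (T.b (T.b (T.b (T.a (T.a (T.l 0) (T.a (T.l 0) (T.l 0))) (T.b (T.a (T.l 10240) (T.l 10240)) (T.a (T.l 10240) (T.l 10248)))) (T.l 1)) (T.l 1)) (T.l 1)) (T.b (T.b (T.b (T.b (T.a (T.a (T.l 10248) (T.l 10280)) (T.l 174120)) (T.b (T.a (T.l 43048) (T.l 174120)) (T.l 1))) (T.l 1)) (T.l 1)) (T.a (T.a (T.l 1) (T.l 3)) (T.l 3)))), by decide +kernel⟩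
theorem cNC2 : ∃ t, chk3 (onCell 0 232471925 0 1073741824 649613803 48318383 (fdCW pN qN ndN4 (thLo (ndUL pN ndN4) (ndUR ndN5)) (tuLo (ndUL pN ndN4) (ndUR ndN5) (suL qN ndN4) (suR ndN5)) cvN2 cFsDD2 (ndUR ndN5))) t 1 1 1 = true :=
  ⟨(T.a (T.b (T.b (T.a (T.l 0) (T.l 0)) (T.l 1)) (T.l 1)) (T.b (T.b (T.b (T.b (T.l 0) (T.b (T.l 0) (T.l 1))) (T.l 1)) (T.l 1)) (T.a (T.a (T.l 1) (T.l 3)) (T.l 3)))), by decide +kernel⟩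
theorem cNC3 : ∃ t, chk3 (onCell 0 232471925 0 1073741824 649613803 48318383 (fdCW pN qN ndN4 (thLo (ndUL pN ndN4) (ndUR ndN5)) (tuLo (ndUL pN ndN4) (ndUR ndN5) (suL qN ndN4) (suR ndN5)) cvN3 cFsDD3 (ndUR ndN5))) t 1 1 1 = true :=
  ⟨(T.a (T.b (T.b (T.a (T.l 0) (T.l 0)) (T.l 1)) (T.l 1)) (T.b (T.b (T.b (T.b (T.l 0) (T.a (T.l 0) (T.a (T.l 0) (T.l 0)))) (T.l 1)) (T.l 1)) (T.a (T.a (T.l 1) (T.l 3)) (T.l 3)))), by decide +kernel⟩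
theorem cNC4 : ∃ t, chk3 (onCell 0 232471925 0 1073741824 649613803 48318383 (fdCW pN qN ndN4 (thLo (ndUL pN ndN4) (ndUR ndN5)) (tuLo (ndUL pN ndN4) (ndUR ndN5) (suL qN ndN4) (suR ndN5)) cvN4 cFsDD4 (ndUR ndN5))) t 1 1 1 = true :=
  ⟨(T.a (T.b (T.b (T.a (T.l 0) (T.l 0)) (T.l 1)) (T.l 1)) (T.b (T.b (T.b (T.b (T.l 0) (T.a (T.l 0) (T.l 131584))) (T.b (T.a (T.l 0) (T.l 0)) (T.l 1))) (T.l 1)) (T.a (T.a (T.l 1) (T.l 3)) (T.l 3)))), by decide +kernel⟩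

end Pool.Agent.Strip051.G.I6050_6500.Tab.DG
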