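import Pool.Agent.Strip051.G.I6050_6500.DgQ
import Pool.Agent.Strip051.G.I6050_6500.DgX0
import Pool.Agent.Strip051.G.I6050_6500.DgX1

/-! # The corner (1, 1, 2): the degenerate instances (generated) -/

set_option linter.all false

namespace Pool.Agent.Strip051.G.I6050_6500.Tab.DG

open Pool.Agent.Strip051.PB Pool.Agent.Strip051.PB.Dg Pool.Agent.StripNear Pool.Agent.Strip051.LC

theorem ctFA4 {x : ℝ} (hx : ((649613803 : ℕ) : ℝ) / S ≤ x) (hx' : x ≤ (((649613803 : ℕ) : ℝ) + (48318383 : ℕ)) / S) : CtAx PP tK tL false pF (ndUL pF ndF4) (ndUR ndF5) (thLo (ndUL pF ndF4) (ndUR ndF5)) 4 67108864 16777216 232471925 1073741824 649613803 48318383 x :=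
  ⟨sdF4, sdF5, thLo_ok sdF4 sdF5, btF, svF, by norm_num, by norm_num, hx, hx', cFA4⟩
theorem ctFA5 {x : ℝ} (hx : ((649613803 : ℕ) : ℝ) / S ≤ x) (hx' : x ≤ (((649613803 : ℕ) : ℝ) + (48318383 : ℕ)) / S) : CtAx PP tK tL false pF (ndUR ndF5) (ndUR ndF6) (thLo (ndUR ndF5) (ndUR ndF6)) 5 67108864 16777216 232471925 1073741824 649613803 48318383 x :=
  ⟨sdF5, sdF6, thLo_ok sdF5 sdF6, btF, svF, by norm_num, by norm_num, hx, hx', cFA5⟩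
theorem ctFA6 {x : ℝ} (hx : ((649613803 : ℕ) : ℝ) / S ≤ x) (hx' : x ≤ (((649613803 : ℕ) : ℝ) + (48318383 : ℕ)) / S) : CtAx PP tK tL false pF (ndUR ndF6) (ndUR ndF7) (thLo (ndUR ndF6) (ndUR ndF7)) 6 67108864 16777216 232471925 1073741824 649613803 48318383 x :=
  ⟨sdF6, sdF7, thLo_ok sdF6 sdF7, btF, svF, by norm_num, by norm_num, hx, hx', cFA6⟩
theorem ctFA7 {x : ℝ} (hx : ((649613803 : ℕ) : ℝ) / S ≤ x) (hx' : x ≤ (((649613803 : ℕ) : ℝ) + (48318383 : ℕ)) / S) : CtAx PP tK tL true pF (ndUR ndF7) (dgSC pF) (thUp (ndUR ndF7) (dgSC pF)) 7 67108864 16777216 232471925 1073741824 649613803 48318383 x :=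
  ⟨sdF7, sdFC, thUp_ok' sdF7 sdFC rfl, tgpF.btU klF, svF, by norm_num, by norm_num, hx, hx', cFA7⟩
theorem ctFB5 {x : ℝ} (hx : ((649613803 : ℕ) : ℝ) / S ≤ x) (hx' : x ≤ (((649613803 : ℕ) : ℝ) + (48318383 : ℕ)) / S) : CtB PP tK tL true false pF (ndUR ndF5) 5 0 67108864 16777216 232471925 2684354560 649613803 48318383 x :=
  ⟨sdF5, cvokF1, btF, rfl, by show rh 1 ≤ 1; simp [rh]; try norm_num, svF, by norm_num, by norm_num, hx, hx', cFB5⟩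
theorem ctFB6 {x : ℝ} (hx : ((649613803 : ℕ) : ℝ) / S ≤ x) (hx' : x ≤ (((649613803 : ℕ) : ℝ) + (48318383 : ℕ)) / S) : CtB PP tK tL true false pF (ndUR ndF6) 6 0 67108864 16777216 232471925 2684354560 649613803 48318383 x :=
  ⟨sdF6, cvokF1, btF, rfl, by show rh 1 ≤ 1; simp [rh]; try norm_num, svF, by norm_num, by norm_num, hx, hx', cFB6⟩
theorem ctFB7 {x : ℝ} (hx : ((649613803 : ℕ) : ℝ) / S ≤ x) (hx' : x ≤ (((649613803 : ℕ) : ℝ) + (48318383 : ℕ)) / S) : CtB PP tK tL true false pF (ndUR ndF7) 7 0 67108864 16777216 232471925 2684354560 649613803 48318383 x :=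
  ⟨sdF7, cvokF1, btF, rfl, by show rh 1 ≤ 1; simp [rh]; try norm_num, svF, by norm_num, by norm_num, hx, hx', cFB7⟩
theorem ctFB8 {x : ℝ} (hx : ((649613803 : ℕ) : ℝ) / S ≤ x) (hx' : x ≤ (((649613803 : ℕ) : ℝ) + (48318383 : ℕ)) / S) : CtB PP tK tL true true pF (dgSC pF) 8 0 67108864 16777216 232471925 2684354560 649613803 48318383 x :=
  ⟨sdFC, cvokF1, tgpF.btN klF, rfl, by show rh 1 ≤ 1; simp [rh]; try norm_num, svF, by norm_num, by norm_num, hx, hx', cFB8⟩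
theorem ctFP5 {x : ℝ} (hx : ((649613803 : ℕ) : ℝ) / S ≤ x) (hx' : x ≤ (((649613803 : ℕ) : ℝ) + (48318383 : ℕ)) / S) : CtP PP tK tL true false pF (ndUR ndF5) 5 0 67108864 16777216 232471925 1073741824 649613803 48318383 x :=
  ⟨sdF5, p1okF, btF, rfl, svF, by norm_num, by norm_num, hx, hx', cFP5⟩
theorem ctFP6 {x : ℝ} (hx : ((649613803 : ℕ) : ℝ) / S ≤ x) (hx' : x ≤ (((649613803 : ℕ) : ℝ) + (48318383 : ℕ)) / S) : CtP PP tK tL true false pF (ndUR ndF6) 6 0 67108864 16777216 232471925 1073741824 649613803 48318383 x :=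
  ⟨sdF6, p1okF, btF, rfl, svF, by norm_num, by norm_num, hx, hx', cFP6⟩
theorem ctFP7 {x : ℝ} (hx : ((649613803 : ℕ) : ℝ) / S ≤ x) (hx' : x ≤ (((649613803 : ℕ) : ℝ) + (48318383 : ℕ)) / S) : CtP PP tK tL true false pF (ndUR ndF7) 7 0 67108864 16777216 232471925 1073741824 649613803 48318383 x :=
  ⟨sdF7, p1okF, btF, rfl, svF, by norm_num, by norm_num, hx, hx', cFP7⟩
theorem ctFP8 {x : ℝ} (hx : ((649613803 : ℕ) : ℝ) / S ≤ x) (hx' : x ≤ (((649613803 : ℕ) : ℝ) + (48318383 : ℕ)) / S) : CtP PP tK tL true true pF (dgSC pF) 8 0 67108864 16777216 232471925 1073741824 649613803 48318383 x :=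
  ⟨sdFC, p1okF, tgpF.btN klF, rfl, svF, by norm_num, by norm_num, hx, hx', cFP8⟩
theorem ctFC1 {x : ℝ} (hx : ((649613803 : ℕ) : ℝ) / S ≤ x) (hx' : x ≤ (((649613803 : ℕ) : ℝ) + (48318383 : ℕ)) / S) : CtU PP tK tL pF ndF4 (thLo (ndUL pF ndF4) (ndUR ndF5)) cvF1 (ndUR ndF5) 1 4 67108864 16777216 232471925 1073741824 649613803 48318383 x :=
  ⟨nlF4, sdF5, grLo _ _, cvokF1, by show rh 1 ≤ 1; simp [rh]; try norm_num, svF, by norm_num, by norm_num, hx, hx', cFC1⟩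
theorem ctFC2 {x : ℝ} (hx : ((649613803 : ℕ) : ℝ) / S ≤ x) (hx' : x ≤ (((649613803 : ℕ) : ℝ) + (48318383 : ℕ)) / S) : CtU PP tK tL pF ndF4 (thLo (ndUL pF ndF4) (ndUR ndF5)) cvF2 (ndUR ndF5) 2 4 67108864 16777216 232471925 1073741824 649613803 48318383 x :=
  ⟨nlF4, sdF5, grLo _ _, cvokF2, by show rh 2 ≤ 1; simp [rh]; try norm_num, svF, by norm_num, by norm_num, hx, hx', cFC2⟩
theorem ctFC3 {x : ℝ} (hx : ((649613803 : ℕ) : ℝ) / S ≤ x) (hx' : x ≤ (((649613803 : ℕ) : ℝ) + (48318383 : ℕ)) / S) : CtU PP tK tL pF ndF4 (thLo (ndUL pF ndF4) (ndUR ndF5)) cvF3 (ndUR ndF5) 3 4 67108864 16777216 232471925 1073741824 649613803 48318383 x :=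
  ⟨nlF4, sdF5, grLo _ _, cvokF3, by show rh 3 ≤ 1; simp [rh]; try norm_num, svF, by norm_num, by norm_num, hx, hx', cFC3⟩
theorem ctFC4 {x : ℝ} (hx : ((649613803 : ℕ) : ℝ) / S ≤ x) (hx' : x ≤ (((649613803 : ℕ) : ℝ) + (48318383 : ℕ)) / S) : CtU PP tK tL pF ndF4 (thLo (ndUL pF ndF4) (ndUR ndF5)) cvF4 (ndUR ndF5) 4 4 67108864 16777216 232471925 1073741824 649613803 48318383 x :=
  ⟨nlF4, sdF5, grLo _ _, cvokF4, by show rh 4 ≤ 1; simp [rh]; try norm_num, svF, by norm_num, by norm_num, hx, hx', cFC4⟩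
theorem ctNA4 {x : ℝ} (hx : ((649613803 : ℕ) : ℝ) / S ≤ x) (hx' : x ≤ (((649613803 : ℕ) : ℝ) + (48318383 : ℕ)) / S) : CtAW PP tK tL tU (eng.v x) pN qN (ndUL pN ndN4) (ndUR ndN5) (thLo (ndUL pN ndN4) (ndUR ndN5)) (tuLo (ndUL pN ndN4) (ndUR ndN5) (suL qN ndN4) (suR ndN5)) 4 67108864 16777216 232471925 1073741824 649613803 48318383 x :=
  ⟨sdN4, sdN5, thLo_ok sdN4 sdN5, tuLo_ok sdN4 sdN5 suN4 suN5, svN, by norm_num, by norm_num, hx, hx', cNA4⟩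
theorem ctNA5 {x : ℝ} (hx : ((649613803 : ℕ) : ℝ) / S ≤ x) (hx' : x ≤ (((649613803 : ℕ) : ℝ) + (48318383 : ℕ)) / S) : CtAW PP tK tL tU (eng.v x) pN qN (ndUR ndN5) (ndUR ndN6) (thLo (ndUR ndN5) (ndUR ndN6)) (tuLo (ndUR ndN5) (ndUR ndN6) (suR ndN5) (suR ndN6)) 5 67108864 16777216 232471925 1073741824 649613803 48318383 x :=
  ⟨sdN5, sdN6, thLo_ok sdN5 sdN6, tuLo_ok sdN5 sdN6 suN5 suN6, svN, by norm_num, by norm_num, hx, hx', cNA5⟩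
theorem ctNA6 {x : ℝ} (hx : ((649613803 : ℕ) : ℝ) / S ≤ x) (hx' : x ≤ (((649613803 : ℕ) : ℝ) + (48318383 : ℕ)) / S) : CtAW PP tK tL tU (eng.v x) pN qN (ndUR ndN6) (ndUR ndN7) (thLo (ndUR ndN6) (ndUR ndN7)) (tuLo (ndUR ndN6) (ndUR ndN7) (suR ndN6) (suR ndN7)) 6 67108864 16777216 232471925 1073741824 649613803 48318383 x :=
  ⟨sdN6, sdN7, thLo_ok sdN6 sdN7, tuLo_ok sdN6 sdN7 suN6 suN7, svN, by norm_num, by norm_num, hx, hx', cNA6⟩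
theorem ctNA7 {x : ℝ} (hx : ((649613803 : ℕ) : ℝ) / S ≤ x) (hx' : x ≤ (((649613803 : ℕ) : ℝ) + (48318383 : ℕ)) / S) : CtAW PP tK tL tU (eng.v x) pN qN (ndUR ndN7) (dgSC pN) (thUp (ndUR ndN7) (dgSC pN)) (tuUp (ndUR ndN7) (dgSC pN) (suR ndN7) (suC qN)) 7 67108864 16777216 232471925 1073741824 649613803 48318383 x :=
  ⟨sdN7, sdNC, thUp_ok' sdN7 sdNC rfl, tuUp_ok sdN7 sdNC suN7 suNC rfl, svN, by norm_num, by norm_num, hx, hx', cNA7⟩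
theorem ctNB5 {x : ℝ} (hx : ((649613803 : ℕ) : ℝ) / S ≤ x) (hx' : x ≤ (((649613803 : ℕ) : ℝ) + (48318383 : ℕ)) / S) : CtBW PP tK tL tU (eng.v x) pN qN (ndUR ndN5) (suR ndN5) 5 0 67108864 16777216 232471925 2684354560 649613803 48318383 x :=
  ⟨sdN5, suN5, cvokN1, cvu1, rfl, by show rh 1 ≤ 1; simp [rh]; try norm_num, svN, by norm_num, by norm_num, hx, hx', cNB5⟩
theorem ctNB6 {x : ℝ} (hx : ((649613803 : ℕ) : ℝ) / S ≤ x) (hx' : x ≤ (((649613803 : ℕ) : ℝ) + (48318383 : ℕ)) / S) : CtBW PP tK tL tU (eng.v x) pN qN (ndUR ndN6) (suR ndN6) 6 0 67108864 16777216 232471925 2684354560 649613803 48318383 x :=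
  ⟨sdN6, suN6, cvokN1, cvu1, rfl, by show rh 1 ≤ 1; simp [rh]; try norm_num, svN, by norm_num, by norm_num, hx, hx', cNB6⟩
theorem ctNB7 {x : ℝ} (hx : ((649613803 : ℕ) : ℝ) / S ≤ x) (hx' : x ≤ (((649613803 : ℕ) : ℝ) + (48318383 : ℕ)) / S) : CtBW PP tK tL tU (eng.v x) pN qN (ndUR ndN7) (suR ndN7) 7 0 67108864 16777216 232471925 2684354560 649613803 48318383 x :=
  ⟨sdN7, suN7, cvokN1, cvu1, rfl, by show rh 1 ≤ 1; simp [rh]; try norm_num, svN, by norm_num, by norm_num, hx, hx', cNB7⟩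
theorem ctNB8 {x : ℝ} (hx : ((649613803 : ℕ) : ℝ) / S ≤ x) (hx' : x ≤ (((649613803 : ℕ) : ℝ) + (48318383 : ℕ)) / S) : CtBW PP tK tL tU (eng.v x) pN qN (dgSC pN) (suC qN) 8 0 67108864 16777216 232471925 2684354560 649613803 48318383 x :=
  ⟨sdNC, suNC, cvokN1, cvu1, rfl, by show rh 1 ≤ 1; simp [rh]; try norm_num, svN, by norm_num, by norm_num, hx, hx', cNB8⟩
theorem ctNP5 {x : ℝ} (hx : ((649613803 : ℕ) : ℝ) / S ≤ x) (hx' : x ≤ (((649613803 : ℕ) : ℝ) + (48318383 : ℕ)) / S) : CtPW PP tK tL tU (eng.v x) pN qN (ndUR ndN5) (suR ndN5) 5 0 67108864 16777216 232471925 1073741824 649613803 48318383 x :=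
  ⟨sdN5, suN5, p1okN, p1u, rfl, svN, by norm_num, by norm_num, hx, hx', cNP5⟩
theorem ctNP6 {x : ℝ} (hx : ((649613803 : ℕ) : ℝ) / S ≤ x) (hx' : x ≤ (((649613803 : ℕ) : ℝ) + (48318383 : ℕ)) / S) : CtPW PP tK tL tU (eng.v x) pN qN (ndUR ndN6) (suR ndN6) 6 0 67108864 16777216 232471925 1073741824 649613803 48318383 x :=
  ⟨sdN6, suN6, p1okN, p1u, rfl, svN, by norm_num, by norm_num, hx, hx', cNP6⟩
theorem ctNP7 {x : ℝ} (hx : ((649613803 : ℕ) : ℝ) / S ≤ x) (hx' : x ≤ (((649613803 : ℕ) : ℝ) + (48318383 : ℕ)) / S) : CtPW PP tK tL tU (eng.v x) pN qN (ndUR ndN7) (suR ndN7) 7 0 67108864 16777216 232471925 1073741824 649613803 48318383 x :=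
  ⟨sdN7, suN7, p1okN, p1u, rfl, svN, by norm_num, by norm_num, hx, hx', cNP7⟩
theorem ctNP8 {x : ℝ} (hx : ((649613803 : ℕ) : ℝ) / S ≤ x) (hx' : x ≤ (((649613803 : ℕ) : ℝ) + (48318383 : ℕ)) / S) : CtPW PP tK tL tU (eng.v x) pN qN (dgSC pN) (suC qN) 8 0 67108864 16777216 232471925 1073741824 649613803 48318383 x :=
  ⟨sdNC, suNC, p1okN, p1u, rfl, svN, by norm_num, by norm_num, hx, hx', cNP8⟩
theorem ctNC1 {x : ℝ} (hx : ((649613803 : ℕ) : ℝ) / S ≤ x) (hx' : x ≤ (((649613803 : ℕ) : ℝ) + (48318383 : ℕ)) / S) : CtCW PP tK tL tU (eng.v x) pN qN ndN4 (thLo (ndUL pN ndN4) (ndUR ndN5)) (tuLo (ndUL pN ndN4) (ndUR ndN5) (suL qN ndN4) (suR ndN5)) cvN1 cFsDD1 (ndUR ndN5) (suR ndN5) 1 4 67108864 16777216 232471925 1073741824 649613803 48318383 x :=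
  ⟨nlN4, nc4, sdN5, suN5, grLo _ _, guLo _ _ _ _, cvokN1, cvu1, by show rh 1 ≤ 1; simp [rh]; try norm_num, svN, by norm_num, by norm_num, hx, hx', cNC1⟩
theorem ctNC2 {x : ℝ} (hx : ((649613803 : ℕ) : ℝ) / S ≤ x) (hx' : x ≤ (((649613803 : ℕ) : ℝ) + (48318383 : ℕ)) / S) : CtCW PP tK tL tU (eng.v x) pN qN ndN4 (thLo (ndUL pN ndN4) (ndUR ndN5)) (tuLo (ndUL pN ndN4) (ndUR ndN5) (suL qN ndN4) (suR ndN5)) cvN2 cFsDD2 (ndUR ndN5) (suR ndN5) 2 4 67108864 16777216 232471925 1073741824 649613803 48318383 x :=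
  ⟨nlN4, nc4, sdN5, suN5, grLo _ _, guLo _ _ _ _, cvokN2, cvu2, by show rh 2 ≤ 1; simp [rh]; try norm_num, svN, by norm_num, by norm_num, hx, hx', cNC2⟩
theorem ctNC3 {x : ℝ} (hx : ((649613803 : ℕ) : ℝ) / S ≤ x) (hx' : x ≤ (((649613803 : ℕ) : ℝ) + (48318383 : ℕ)) / S) : CtCW PP tK tL tU (eng.v x) pN qN ndN4 (thLo (ndUL pN ndN4) (ndUR ndN5)) (tuLo (ndUL pN ndN4) (ndUR ndN5) (suL qN ndN4) (suR ndN5)) cvN3 cFsDD3 (ndUR ndN5) (suR ndN5) 3 4 67108864 16777216 232471925 1073741824 649613803 48318383 x :=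
  ⟨nlN4, nc4, sdN5, suN5, grLo _ _, guLo _ _ _ _, cvokN3, cvu3, by show rh 3 ≤ 1; simp [rh]; try norm_num, svN, by norm_num, by norm_num, hx, hx', cNC3⟩
theorem ctNC4 {x : ℝ} (hx : ((649613803 : ℕ) : ℝ) / S ≤ x) (hx' : x ≤ (((649613803 : ℕ) : ℝ) + (48318383 : ℕ)) / S) : CtCW PP tK tL tU (eng.v x) pN qN ndN4 (thLo (ndUL pN ndN4) (ndUR ndN5)) (tuLo (ndUL pN ndN4) (ndUR ndN5) (suL qN ndN4) (suR ndN5)) cvN4 cFsDD4 (ndUR ndN5) (suR ndN5) 4 4 67108864 16777216 232471925 1073741824 649613803 48318383 x :=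
  ⟨nlN4, nc4, sdN5, suN5, grLo _ _, guLo _ _ _ _, cvokN4, cvu4, by show rh 4 ≤ 1; simp [rh]; try norm_num, svN, by norm_num, by norm_num, hx, hx', cNC4⟩
theorem thd {x : ℝ} (hx : ((649613803 : ℕ) : ℝ) / S ≤ x) (hx' : x ≤ (((649613803 : ℕ) : ℝ) + (48318383 : ℕ)) / S) : ThrD PP tC tU pd esg 3 (mog.v x) (3 / 40) x :=
  ⟨thU (pinU hx hx'), fun j q y => tbF_sc j q y x, (esg_rng (xr hx hx').1.le (xr hx hx').2.le).1, mo_v x⟩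
theorem dgB_A123_01 {κ x : ℝ} {f : ℝ → ℝ} (hκ : κ * h0 = ken x) (hx : ((649613803 : ℕ) : ℝ) / S ≤ x) (hx' : x ≤ (((649613803 : ℕ) : ℝ) + (48318383 : ℕ)) / S) :
    SgA (VEA 3 κ (eng.v x) (3 / 40) f PP tK tL tC pcB (scP esg pd) 1 2 0 1) PP tK tL pcB 1 2 0 1 true 4 67108864 16777216 x :=
  (sgC1W (bsN hx hx') (ctNC1 hx hx')).ve rfl (Or.inl rfl) (Or.inr rfl) (sideB hx hx') hκ (thd hx hx') (sgU1 (bsF hx hx') (ctFC1 hx hx'))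
theorem dgB_A123_02 {κ x : ℝ} {f : ℝ → ℝ} (hκ : κ * h0 = ken x) (hx : ((649613803 : ℕ) : ℝ) / S ≤ x) (hx' : x ≤ (((649613803 : ℕ) : ℝ) + (48318383 : ℕ)) / S) :
    SgA (VEA 3 κ (eng.v x) (3 / 40) f PP tK tL tC pcB (scP esg pd) 1 2 0 2) PP tK tL pcB 1 2 0 2 true 4 67108864 16777216 x :=
  (sgC1W (bsN hx hx') (ctNC2 hx hx')).ve rfl (Or.inl rfl) (Or.inr rfl) (sideB hx hx') hκ (thd hx hx') (sgU1 (bsF hx hx') (ctFC2 hx hx'))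
theorem dgB_A123_03 {κ x : ℝ} {f : ℝ → ℝ} (hκ : κ * h0 = ken x) (hx : ((649613803 : ℕ) : ℝ) / S ≤ x) (hx' : x ≤ (((649613803 : ℕ) : ℝ) + (48318383 : ℕ)) / S) :
    SgA (VEA 3 κ (eng.v x) (3 / 40) f PP tK tL tC pcB (scP esg pd) 1 2 0 3) PP tK tL pcB 1 2 0 3 true 4 67108864 16777216 x :=
  (sgC1W (bsN hx hx') (ctNC3 hx hx')).ve rfl (Or.inl rfl) (Or.inr rfl) (sideB hx hx') hκ (thd hx hx') (sgU1 (bsF hx hx') (ctFC3 hx hx'))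
theorem dgB_A123_04 {κ x : ℝ} {f : ℝ → ℝ} (hκ : κ * h0 = ken x) (hx : ((649613803 : ℕ) : ℝ) / S ≤ x) (hx' : x ≤ (((649613803 : ℕ) : ℝ) + (48318383 : ℕ)) / S) :
    SgA (VEA 3 κ (eng.v x) (3 / 40) f PP tK tL tC pcB (scP esg pd) 1 2 0 4) PP tK tL pcB 1 2 0 4 true 4 67108864 16777216 x :=
  (sgC1W (bsN hx hx') (ctNC4 hx hx')).ve rfl (Or.inl rfl) (Or.inr rfl) (sideB hx hx') hκ (thd hx hx') (sgU1 (bsF hx hx') (ctFC4 hx hx'))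
theorem dgB_B123_05p {κ x : ℝ} {f : ℝ → ℝ} (hκ : κ * h0 = ken x) (hx : ((649613803 : ℕ) : ℝ) / S ≤ x) (hx' : x ≤ (((649613803 : ℕ) : ℝ) + (48318383 : ℕ)) / S) :
    SgBl (VEB 3 κ (eng.v x) (3 / 40) f PP tK tL tC pcB (scP esg pd) 1 2 0 5 true) PP tK tL pcB .npn 1 2 0 5 true 0 67108864 16777216 x :=
  Sg12BlW.ve rfl (Or.inl rfl) (Or.inr rfl) (sideB hx hx') hκ (thd hx hx') (sgB1W (bsN hx hx') (ctNB5 hx hx')) (sgB1 (bsF hx hx') (ctFB5 hx hx'))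
theorem dgB_B213_05m {κ x : ℝ} {f : ℝ → ℝ} (hκ : κ * h0 = ken x) (hx : ((649613803 : ℕ) : ℝ) / S ≤ x) (hx' : x ≤ (((649613803 : ℕ) : ℝ) + (48318383 : ℕ)) / S) :
    SgB (VEB 3 κ (eng.v x) (3 / 40) f PP tK tL tC pcB (scP esg pd) 2 1 0 5 false) PP tK tL pcB 2 1 0 5 false 0 67108864 16777216 x :=
  (sgP1W (bsN hx hx') (ctNP5 hx hx')).ve rfl (Or.inr rfl) (Or.inl rfl) (sideB hx hx') hκ (thd hx hx') (sgP1 (bsF hx hx') (ctFP5 hx hx'))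
theorem dgB_B123_06p {κ x : ℝ} {f : ℝ → ℝ} (hκ : κ * h0 = ken x) (hx : ((649613803 : ℕ) : ℝ) / S ≤ x) (hx' : x ≤ (((649613803 : ℕ) : ℝ) + (48318383 : ℕ)) / S) :
    SgBl (VEB 3 κ (eng.v x) (3 / 40) f PP tK tL tC pcB (scP esg pd) 1 2 0 6 true) PP tK tL pcB .npn 1 2 0 6 true 0 67108864 16777216 x :=
  Sg12BlW.ve rfl (Or.inl rfl) (Or.inr rfl) (sideB hx hx') hκ (thd hx hx') (sgB1W (bsN hx hx') (ctNB6 hx hx')) (sgB1 (bsF hx hx') (ctFB6 hx hx'))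
theorem dgB_B213_06m {κ x : ℝ} {f : ℝ → ℝ} (hκ : κ * h0 = ken x) (hx : ((649613803 : ℕ) : ℝ) / S ≤ x) (hx' : x ≤ (((649613803 : ℕ) : ℝ) + (48318383 : ℕ)) / S) :
    SgB (VEB 3 κ (eng.v x) (3 / 40) f PP tK tL tC pcB (scP esg pd) 2 1 0 6 false) PP tK tL pcB 2 1 0 6 false 0 67108864 16777216 x :=
  (sgP1W (bsN hx hx') (ctNP6 hx hx')).ve rfl (Or.inr rfl) (Or.inl rfl) (sideB hx hx') hκ (thd hx hx') (sgP1 (bsF hx hx') (ctFP6 hx hx'))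
theorem dgB_B123_07p {κ x : ℝ} {f : ℝ → ℝ} (hκ : κ * h0 = ken x) (hx : ((649613803 : ℕ) : ℝ) / S ≤ x) (hx' : x ≤ (((649613803 : ℕ) : ℝ) + (48318383 : ℕ)) / S) :
    SgBl (VEB 3 κ (eng.v x) (3 / 40) f PP tK tL tC pcB (scP esg pd) 1 2 0 7 true) PP tK tL pcB .npn 1 2 0 7 true 0 67108864 16777216 x :=
  Sg12BlW.ve rfl (Or.inl rfl) (Or.inr rfl) (sideB hx hx') hκ (thd hx hx') (sgB1W (bsN hx hx') (ctNB7 hx hx')) (sgB1 (bsF hx hx') (ctFB7 hx hx'))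
theorem dgB_B213_07m {κ x : ℝ} {f : ℝ → ℝ} (hκ : κ * h0 = ken x) (hx : ((649613803 : ℕ) : ℝ) / S ≤ x) (hx' : x ≤ (((649613803 : ℕ) : ℝ) + (48318383 : ℕ)) / S) :
    SgB (VEB 3 κ (eng.v x) (3 / 40) f PP tK tL tC pcB (scP esg pd) 2 1 0 7 false) PP tK tL pcB 2 1 0 7 false 0 67108864 16777216 x :=
  (sgP1W (bsN hx hx') (ctNP7 hx hx')).ve rfl (Or.inr rfl) (Or.inl rfl) (sideB hx hx') hκ (thd hx hx') (sgP1 (bsF hx hx') (ctFP7 hx hx'))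
theorem dgB_B123_08p {κ x : ℝ} {f : ℝ → ℝ} (hκ : κ * h0 = ken x) (hx : ((649613803 : ℕ) : ℝ) / S ≤ x) (hx' : x ≤ (((649613803 : ℕ) : ℝ) + (48318383 : ℕ)) / S) :
    SgBl (VEB 3 κ (eng.v x) (3 / 40) f PP tK tL tC pcB (scP esg pd) 1 2 0 8 true) PP tK tL pcB .npn 1 2 0 8 true 0 67108864 16777216 x :=
  Sg12BlW.ve rfl (Or.inl rfl) (Or.inr rfl) (sideB hx hx') hκ (thd hx hx') (sgB1W (bsN hx hx') (ctNB8 hx hx')) (sgB1 (bsF hx hx') (ctFB8 hx hx'))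
theorem dgB_B213_08m {κ x : ℝ} {f : ℝ → ℝ} (hκ : κ * h0 = ken x) (hx : ((649613803 : ℕ) : ℝ) / S ≤ x) (hx' : x ≤ (((649613803 : ℕ) : ℝ) + (48318383 : ℕ)) / S) :
    SgB (VEB 3 κ (eng.v x) (3 / 40) f PP tK tL tC pcB (scP esg pd) 2 1 0 8 false) PP tK tL pcB 2 1 0 8 false 0 67108864 16777216 x :=
  (sgP1W (bsN hx hx') (ctNP8 hx hx')).ve rfl (Or.inr rfl) (Or.inl rfl) (sideB hx hx') hκ (thd hx hx') (sgP1 (bsF hx hx') (ctFP8 hx hx'))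
theorem alt12B_A123_00 {κ x : ℝ} {f : ℝ → ℝ} (hκ : κ * h0 = ken x) (hx : ((649613803 : ℕ) : ℝ) / S ≤ x) (hx' : x ≤ (((649613803 : ℕ) : ℝ) + (48318383 : ℕ)) / S) :
    AltEA 3 κ (eng.v x) (3 / 40) f PP tK tL tC pcB (scP esg pd) [⟨0, 1, 0, 67108864⟩, ⟨1, 1, 0, 67108864⟩, ⟨2, 2, 0, 16777216⟩] 1 2 3 0 0 (sgb true) (sgb false) x := by
  refine altEA12 (altA12 (loc123 (m := 4) (by show rh 4 ≤ 1; simp [rh]; try norm_num) (by show rh 0 ≤ 1; simp [rh]; try norm_num) (fun i hi => ?_)))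
  fin_cases i
  · exact absurd hi (by decide)
  · exact absurd hi (by decide)
  · exact absurd hi (by decide)
  · exact absurd hi (by decide)
  · exact (sgA1W (bsN hx hx') (ctNA4 hx hx')).ve rfl (Or.inl rfl) (Or.inr rfl) (sideB hx hx') hκ (thd hx hx') (sgA1x (bsF hx hx') (ctFA4 hx hx'))
  · exact (sgA1W (bsN hx hx') (ctNA5 hx hx')).ve rfl (Or.inl rfl) (Or.inr rfl) (sideB hx hx') hκ (thd hx hx') (sgA1x (bsF hx hx') (ctFA5 hx hx'))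
  · exact (sgA1W (bsN hx hx') (ctNA6 hx hx')).ve rfl (Or.inl rfl) (Or.inr rfl) (sideB hx hx') hκ (thd hx hx') (sgA1x (bsF hx hx') (ctFA6 hx hx'))
  · exact (sgA1W (bsN hx hx') (ctNA7 hx hx')).ve rfl (Or.inl rfl) (Or.inr rfl) (sideB hx hx') hκ (thd hx hx') (sgA1x (bsF hx hx') (ctFA7 hx hx'))
theorem alt12B_A213_00 {κ x : ℝ} {f : ℝ → ℝ} (hκ : κ * h0 = ken x) (hx : ((649613803 : ℕ) : ℝ) / S ≤ x) (hx' : x ≤ (((649613803 : ℕ) : ℝ) + (48318383 : ℕ)) / S) :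
    AltEA 3 κ (eng.v x) (3 / 40) f PP tK tL tC pcB (scP esg pd) [⟨0, 1, 0, 67108864⟩, ⟨1, 1, 0, 67108864⟩, ⟨2, 2, 0, 16777216⟩] 2 1 3 0 0 (sgb true) (sgb false) x := by
  refine altEA12 (altA12 (loc213 (m := 4) (by show rh 4 ≤ 1; simp [rh]; try norm_num) (by show rh 0 ≤ 1; simp [rh]; try norm_num) (fun i hi => ?_)))
  fin_cases i
  · exact absurd hi (by decide)
  · exact absurd hi (by decide)
  · exact absurd hi (by decide)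
  · exact absurd hi (by decide)
  · exact (sgA2W (bsN hx hx') (ctNA4 hx hx')).ve rfl (Or.inr rfl) (Or.inl rfl) (sideB hx hx') hκ (thd hx hx') (sgA2x (bsF hx hx') (ctFA4 hx hx'))
  · exact (sgA2W (bsN hx hx') (ctNA5 hx hx')).ve rfl (Or.inr rfl) (Or.inl rfl) (sideB hx hx') hκ (thd hx hx') (sgA2x (bsF hx hx') (ctFA5 hx hx'))
  · exact (sgA2W (bsN hx hx') (ctNA6 hx hx')).ve rfl (Or.inr rfl) (Or.inl rfl) (sideB hx hx') hκ (thd hx hx') (sgA2x (bsF hx hx') (ctFA6 hx hx'))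
  · exact (sgA2W (bsN hx hx') (ctNA7 hx hx')).ve rfl (Or.inr rfl) (Or.inl rfl) (sideB hx hx') hκ (thd hx hx') (sgA2x (bsF hx hx') (ctFA7 hx hx'))

end Pool.Agent.Strip051.G.I6050_6500.Tab.DG
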