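import Pool.Agent.Strip051.PB.Cuts

/-! # Tables I6050_6500 (generated) -/

namespace Pool.Agent.Strip051.G.I6050_6500.Tab

open Pool.Agent.Strip051.PB

noncomputable def c1g : Fn1 := ⟨_, _, fun h1 => (enc_sqrtg (enc_sub (enc_pnc _ 1) (enc_scale 3 4 (enc_sq h1))))⟩
noncomputable def kcg_3 : Fn2 := ⟨_, _, fun h1 h2 => (enc_subr 251 400 h2)⟩
noncomputable def kcg_6 : Fn2 := ⟨_, _, fun h1 h2 => (enc_add h1 (enc_rat _ 1 4))⟩
noncomputable def kcg_9 : Fn2 := ⟨_, _, fun h1 h2 => (enc_add h1 (enc_rat _ 2 5))⟩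
noncomputable def kcg_12 : Fn2 := ⟨_, _, fun h1 h2 => (enc_add h1 (enc_rat _ 9 20))⟩
noncomputable def kcg_13 : Fn2 := ⟨_, _, fun h1 h2 => (enc_scale 4183229 5000000 h1)⟩
noncomputable def kcg_16 : Fn2 := ⟨_, _, fun h1 h2 => (enc_scale 42557 62500 h1)⟩
noncomputable def kcg_28 : Fn2 := ⟨_, _, fun h1 h2 => (enc_sub (enc_rat _ 9100759 250000) (enc_scale 680717 50000 (kcg_3.enc h1 h2)))⟩
noncomputable def kcg_36 : Fn2 := ⟨_, _, fun h1 h2 => (enc_scale 3027921 2500000 h1)⟩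
noncomputable def kcg_41 : Fn2 := ⟨_, _, fun h1 h2 => (enc_scale 93 500000 h1)⟩
noncomputable def kcg_53 : Fn2 := ⟨_, _, fun h1 h2 => (enc_sub (enc_rat _ 4553241 1000000) (enc_scale 21 100000 (kcg_3.enc h1 h2)))⟩
noncomputable def kcg_61 : Fn2 := ⟨_, _, fun h1 h2 => (enc_add h1 (enc_rat _ 7 20))⟩
noncomputable def kcg_62 : Fn2 := ⟨_, _, fun h1 h2 => (enc_scale 5319707 2500000 h1)⟩
noncomputable def kcg_67 : Fn2 := ⟨_, _, fun h1 h2 => (enc_scale 17 250000 h1)⟩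
noncomputable def kcg_79 : Fn2 := ⟨_, _, fun h1 h2 => (enc_sub (enc_rat _ 3445263 250000) (enc_scale 211 100000 (kcg_3.enc h1 h2)))⟩
noncomputable def kcg_86 : Fn2 := ⟨_, _, fun h1 h2 => (enc_add h1 (enc_rat _ 3 10))⟩
noncomputable def kcg_87 : Fn2 := ⟨_, _, fun h1 h2 => (enc_scale 15008691 5000000 h1)⟩
noncomputable def kcg_92 : Fn2 := ⟨_, _, fun h1 h2 => (enc_scale 1 50000 h1)⟩
noncomputable def kcg_102 : Fn2 := ⟨_, _, fun h1 h2 => (enc_add (enc_scale 11 10000 (kcg_3.enc h1 h2)) (enc_rat _ 924013 250000))⟩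
noncomputable def kcg_107 : Fn2 := ⟨_, _, fun h1 h2 => (enc_scale 10333621 5000000 h1)⟩
noncomputable def kcg_112 : Fn2 := ⟨_, _, fun h1 h2 => (enc_scale 9 250000 h1)⟩
noncomputable def kcg_125 : Fn2 := ⟨_, _, fun h1 h2 => (enc_subr 4479267 200000 (enc_neg (enc_scale 9 12500 (kcg_3.enc h1 h2))))⟩
noncomputable def kcg_135 : Fn2 := ⟨_, _, fun h1 h2 => (enc_add h1 (enc_rat _ 3 20))⟩
noncomputable def kcg_138 : Fn2 := ⟨_, _, fun h1 h2 => (enc_add h1 (enc_rat _ 1 5))⟩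
noncomputable def kcg_139 : Fn2 := ⟨_, _, fun h1 h2 => (enc_scale 363483 1000000 h1)⟩
noncomputable def kcg_143 : Fn2 := ⟨_, _, fun h1 h2 => (enc_scale 1 500000 h1)⟩
noncomputable def kcg_156 : Fn2 := ⟨_, _, fun h1 h2 => (enc_subr 13103901 500000 (enc_neg (enc_scale 1 50000 (kcg_3.enc h1 h2))))⟩
noncomputable def kcg_161 : Fn2 := ⟨_, _, fun h1 h2 => (enc_scale 2539699 1000000 h1)⟩
noncomputable def kcg_164 : Fn2 := ⟨_, _, fun h1 h2 => (enc_scale 58439 12500 h1)⟩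
noncomputable def kcg_175 : Fn2 := ⟨_, _, fun h1 h2 => (enc_subr 8658259 500000 (enc_neg (enc_scale 4675119 50000 (kcg_3.enc h1 h2))))⟩
noncomputable def kcg_183 : Fn2 := ⟨_, _, fun h1 h2 => (enc_add h1 (enc_rat _ 1 10))⟩
noncomputable def kcg_184 : Fn2 := ⟨_, _, fun h1 h2 => (enc_scale 15089471 5000000 h1)⟩
noncomputable def kcg_187 : Fn2 := ⟨_, _, fun h1 h2 => (enc_nat 5 h1)⟩
noncomputable def kcg_195 : Fn2 := ⟨_, _, fun h1 h2 => (enc_add (enc_scale 4350239 50000 (kcg_3.enc h1 h2)) (enc_rat _ 1938153 250000))⟩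
noncomputable def kcg_203 : Fn2 := ⟨_, _, fun h1 h2 => (enc_scale 11569787 5000000 h1)⟩
noncomputable def kcg_206 : Fn2 := ⟨_, _, fun h1 h2 => (enc_scale 4061 12500 h1)⟩
noncomputable def kcg_214 : Fn2 := ⟨_, _, fun h1 h2 => (enc_add (enc_scale 4061 625 (kcg_3.enc h1 h2)) (enc_rat _ 395383 62500))⟩
noncomputable def kcg_219 : Fn2 := ⟨_, _, fun h1 h2 => (enc_scale 4994127 2500000 h1)⟩
noncomputable def kcg_226 : Fn2 := ⟨_, _, fun h1 h2 => (enc_sub (enc_rat _ 1 4) h1)⟩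
noncomputable def kcg_227 : Fn2 := ⟨_, _, fun h1 h2 => (enc_sub (enc_rat _ 2 5) h1)⟩
noncomputable def kcg_228 : Fn2 := ⟨_, _, fun h1 h2 => (enc_sub (enc_rat _ 9 20) h1)⟩
noncomputable def kcg_248 : Fn2 := ⟨_, _, fun h1 h2 => (enc_sub (enc_rat _ 7 20) h1)⟩
noncomputable def kcg_257 : Fn2 := ⟨_, _, fun h1 h2 => (enc_sub (enc_rat _ 3 10) h1)⟩
noncomputable def kcg_277 : Fn2 := ⟨_, _, fun h1 h2 => (enc_sub (enc_rat _ 3 20) h1)⟩
noncomputable def kcg_278 : Fn2 := ⟨_, _, fun h1 h2 => (enc_sub (enc_rat _ 1 5) h1)⟩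
noncomputable def kcg_299 : Fn2 := ⟨_, _, fun h1 h2 => (enc_sub (enc_rat _ 1 10) h1)⟩
noncomputable def kcg : Fn2 := ⟨_, _, fun h1 h2 => (enc_norm (enc_case h1 (enc_case (kcg_6.enc h1 h2) (enc_case (kcg_9.enc h1 h2) (enc_case (kcg_12.enc h1 h2) (enc_add (enc_add (enc_add (kcg_13.enc h1 h2) (enc_rat _ 28523207 100000000)) (enc_mul (enc_norm (kcg_3.enc h1 h2)) (enc_norm (enc_subr 2015987 2500000 (enc_neg (kcg_16.enc h1 h2)))))) (enc_mul (enc_norm (kcg_28.enc h1 h2)) (enc_norm (enc_mul (enc_norm (enc_add h1 (enc_rat _ 1 2))) (enc_norm (enc_sub (enc_neg (enc_rat _ 9 20)) h1)))))) (enc_add (enc_add (enc_subr 3976777 6250000 (enc_neg (kcg_36.enc h1 h2))) (enc_mul (enc_norm (kcg_3.enc h1 h2)) (enc_norm (enc_subr 5000681 10000000 (enc_neg (kcg_41.enc h1 h2)))))) (enc_mul (enc_norm (kcg_53.enc h1 h2)) (enc_norm (enc_mul (enc_norm (kcg_12.enc h1 h2)) (enc_norm (enc_sub (enc_neg (enc_rat _ 2 5)) h1)))))))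 (enc_case (kcg_61.enc h1 h2) (enc_add (enc_add (enc_subr 6268563 6250000 (enc_neg (kcg_62.enc h1 h2))) (enc_mul (enc_norm (kcg_3.enc h1 h2)) (enc_norm (enc_subr 5000209 10000000 (enc_neg (kcg_67.enc h1 h2)))))) (enc_mul (enc_norm (kcg_79.enc h1 h2)) (enc_norm (enc_mul (enc_norm (kcg_9.enc h1 h2)) (enc_norm (enc_sub (enc_neg (enc_rat _ 7 20)) h1)))))) (enc_case (kcg_86.enc h1 h2) (enc_add (enc_add (enc_subr 130881947 100000000 (enc_neg (kcg_87.enc h1 h2))) (enc_mul (enc_norm (kcg_3.enc h1 h2)) (enc_norm (enc_subr 5000041 10000000 (enc_neg (kcg_92.enc h1 h2)))))) (enc_mul (enc_norm (kcg_102.enc h1 h2)) (enc_norm (enc_mul (enc_norm (kcg_61.enc h1 h2)) (enc_norm (enc_sub (enc_neg (enc_rat _ 3 10)) h1)))))) (enc_add (enc_add (enc_subr 102831527 100000000 (enc_neg (kcg_107.enc h1 h2))) (enc_mul (enc_norm (kcg_3.enc h1 h2)) (enc_norm (enc_subr 5000089 10000000 (enc_neg (kcg_112.enc h1 h2)))))) (enc_mul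 (enc_norm (kcg_125.enc h1 h2)) (enc_norm (enc_mul (enc_norm (kcg_86.enc h1 h2)) (enc_norm (enc_sub (enc_neg (enc_rat _ 1 4)) h1))))))))) (enc_case (kcg_135.enc h1 h2) (enc_case (kcg_138.enc h1 h2) (enc_add (enc_add (enc_subr 42076347 100000000 (kcg_139.enc h1 h2)) (enc_mul (enc_norm (kcg_3.enc h1 h2)) (enc_norm (enc_subr 1250001 2500000 (enc_neg (kcg_143.enc h1 h2)))))) (enc_mul (enc_norm (kcg_156.enc h1 h2)) (enc_norm (enc_mul (enc_norm (kcg_6.enc h1 h2)) (enc_norm (enc_sub (enc_neg (enc_rat _ 1 5)) h1)))))) (enc_add (enc_add (enc_add (kcg_161.enc h1 h2) (enc_rat _ 1447973 100000000)) (enc_mul (enc_norm (kcg_3.enc h1 h2)) (enc_norm (enc_add (kcg_164.enc h1 h2) (enc_rat _ 27189 62500))))) (enc_mul (enc_norm (kcg_175.enc h1 h2)) (enc_norm (enc_mul (enc_norm (kcg_138.enc h1 h2)) (enc_norm (enc_sub (enc_neg (enc_rat _ 3 20)) h1))))))) (enc_case (kcg_183.enc h1 h2) (enc_add (enc_add (enc_add (kcg_184.enc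 h1 h2) (enc_rat _ 8620901 100000000)) (enc_mul (enc_norm (kcg_3.enc h1 h2)) (enc_norm (enc_add (kcg_187.enc h1 h2) (enc_rat _ 120939 250000))))) (enc_mul (enc_norm (kcg_195.enc h1 h2)) (enc_norm (enc_mul (enc_norm (kcg_135.enc h1 h2)) (enc_norm (enc_sub (enc_neg (enc_rat _ 1 10)) h1)))))) (enc_case (enc_add h1 (enc_rat _ 1 20)) (enc_add (enc_add (enc_add (kcg_203.enc h1 h2) (enc_rat _ 1581533 100000000)) (enc_mul (enc_norm (kcg_3.enc h1 h2)) (enc_norm (enc_add (kcg_206.enc h1 h2) (enc_rat _ 4061 250000))))) (enc_mul (enc_norm (kcg_214.enc h1 h2)) (enc_norm (enc_mul (enc_norm (kcg_183.enc h1 h2)) (enc_norm (enc_sub (enc_neg (enc_rat _ 1 20)) h1)))))) (kcg_219.enc h1 h2))))) (enc_neg (enc_case (kcg_226.enc h1 h2) (enc_case (kcg_227.enc h1 h2) (enc_case (kcg_228.enc h1 h2) (enc_add (enc_add (enc_sub (enc_rat _ 28523207 100000000) (kcg_13.enc h1 h2)) (enc_mul (enc_norm (kcg_3.enc h1 h2)) (enc_norm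 (enc_subr 2015987 2500000 (kcg_16.enc h1 h2))))) (enc_mul (enc_norm (kcg_28.enc h1 h2)) (enc_norm (enc_mul (enc_norm (enc_sub (enc_rat _ 1 2) h1)) (enc_norm (enc_subr 9 20 h1)))))) (enc_add (enc_add (enc_subr 3976777 6250000 (kcg_36.enc h1 h2)) (enc_mul (enc_norm (kcg_3.enc h1 h2)) (enc_norm (enc_subr 5000681 10000000 (kcg_41.enc h1 h2))))) (enc_mul (enc_norm (kcg_53.enc h1 h2)) (enc_norm (enc_mul (enc_norm (kcg_228.enc h1 h2)) (enc_norm (enc_subr 2 5 h1))))))) (enc_case (kcg_248.enc h1 h2) (enc_add (enc_add (enc_subr 6268563 6250000 (kcg_62.enc h1 h2)) (enc_mul (enc_norm (kcg_3.enc h1 h2)) (enc_norm (enc_subr 5000209 10000000 (kcg_67.enc h1 h2))))) (enc_mul (enc_norm (kcg_79.enc h1 h2)) (enc_norm (enc_mul (enc_norm (kcg_227.enc h1 h2)) (enc_norm (enc_subr 7 20 h1)))))) (enc_case (kcg_257.enc h1 h2) (enc_add (enc_add (enc_subr 130881947 100000000 (kcg_87.enc h1 h2)) (enc_mul (enc_norm (kcg_3.enc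 h1 h2)) (enc_norm (enc_subr 5000041 10000000 (kcg_92.enc h1 h2))))) (enc_mul (enc_norm (kcg_102.enc h1 h2)) (enc_norm (enc_mul (enc_norm (kcg_248.enc h1 h2)) (enc_norm (enc_subr 3 10 h1)))))) (enc_add (enc_add (enc_subr 102831527 100000000 (kcg_107.enc h1 h2)) (enc_mul (enc_norm (kcg_3.enc h1 h2)) (enc_norm (enc_subr 5000089 10000000 (kcg_112.enc h1 h2))))) (enc_mul (enc_norm (kcg_125.enc h1 h2)) (enc_norm (enc_mul (enc_norm (kcg_257.enc h1 h2)) (enc_norm (enc_subr 1 4 h1))))))))) (enc_case (kcg_277.enc h1 h2) (enc_case (kcg_278.enc h1 h2) (enc_add (enc_add (enc_subr 42076347 100000000 (enc_neg (kcg_139.enc h1 h2))) (enc_mul (enc_norm (kcg_3.enc h1 h2)) (enc_norm (enc_subr 1250001 2500000 (kcg_143.enc h1 h2))))) (enc_mul (enc_norm (kcg_156.enc h1 h2)) (enc_norm (enc_mul (enc_norm (kcg_226.enc h1 h2)) (enc_norm (enc_subr 1 5 h1)))))) (enc_add (enc_add (enc_sub (enc_rat _ 1447973 100000000) (kcg_161.enc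 h1 h2)) (enc_mul (enc_norm (kcg_3.enc h1 h2)) (enc_norm (enc_sub (enc_rat _ 27189 62500) (kcg_164.enc h1 h2))))) (enc_mul (enc_norm (kcg_175.enc h1 h2)) (enc_norm (enc_mul (enc_norm (kcg_278.enc h1 h2)) (enc_norm (enc_subr 3 20 h1))))))) (enc_case (kcg_299.enc h1 h2) (enc_add (enc_add (enc_sub (enc_rat _ 8620901 100000000) (kcg_184.enc h1 h2)) (enc_mul (enc_norm (kcg_3.enc h1 h2)) (enc_norm (enc_sub (enc_rat _ 120939 250000) (kcg_187.enc h1 h2))))) (enc_mul (enc_norm (kcg_195.enc h1 h2)) (enc_norm (enc_mul (enc_norm (kcg_277.enc h1 h2)) (enc_norm (enc_subr 1 10 h1)))))) (enc_case (enc_sub (enc_rat _ 1 20) h1) (enc_add (enc_add (enc_sub (enc_rat _ 1581533 100000000) (kcg_203.enc h1 h2)) (enc_mul (enc_norm (kcg_3.enc h1 h2)) (enc_norm (enc_sub (enc_rat _ 4061 250000) (kcg_206.enc h1 h2))))) (enc_mul (enc_norm (kcg_214.enc h1 h2)) (enc_norm (enc_mul (enc_norm (kcg_299.enc h1 h2)) (enc_norm (enc_subr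 1 20 h1)))))) (enc_neg (kcg_219.enc h1 h2)))))))))⟩
noncomputable def kf0q0_9 : Fn2 := ⟨_, _, fun h1 h2 => (enc_scale 3 2 h1)⟩
noncomputable def kf0q0_12 : Fn2 := ⟨_, _, fun h1 h2 => (enc_add (enc_pnc _ 1) (c1g.enc h1))⟩
noncomputable def kf0q0 : Fn2 := ⟨_, _, fun h1 h2 => (enc_norm (enc_add (enc_mul (enc_norm (enc_mul (enc_norm (enc_sub (c1g.enc h1) (kf0q0_9.enc h1 h2))) (enc_norm (kf0q0_12.enc h1 h2)))) (enc_inv (enc_sub (kf0q0_12.enc h1 h2) (kf0q0_9.enc h1 h2)))) (enc_mul h1 (kcg.enc (enc_norm (enc_sub (enc_scale 3 4 h1) (enc_half (c1g.enc h1)))) h2))))⟩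
noncomputable def txg_4 : Fn3 := ⟨_, _, fun h1 h2 h3 => (enc_subr 251 400 h3)⟩
noncomputable def txg_6 : Fn3 := ⟨_, _, fun h1 h2 h3 => (enc_add h1 (enc_half h2))⟩
noncomputable def txg_26 : Fn3 := ⟨_, _, fun h1 h2 h3 => (enc_add h1 (enc_rat _ 1 4))⟩
noncomputable def txg_29 : Fn3 := ⟨_, _, fun h1 h2 h3 => (enc_add h1 (enc_rat _ 2 5))⟩
noncomputable def txg_32 : Fn3 := ⟨_, _, fun h1 h2 h3 => (enc_add h1 (enc_rat _ 47 100))⟩
noncomputable def txg_57 : Fn3 := ⟨_, _, fun h1 h2 h3 => (enc_add h1 (enc_rat _ 11 25))⟩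
noncomputable def txg_101 : Fn3 := ⟨_, _, fun h1 h2 h3 => (enc_add h1 (enc_rat _ 33 100))⟩
noncomputable def txg_104 : Fn3 := ⟨_, _, fun h1 h2 h3 => (enc_add h1 (enc_rat _ 37 100))⟩
noncomputable def txg_151 : Fn3 := ⟨_, _, fun h1 h2 h3 => (enc_add h1 (enc_rat _ 29 100))⟩
noncomputable def txg_196 : Fn3 := ⟨_, _, fun h1 h2 h3 => (enc_add h1 (enc_rat _ 7 50))⟩
noncomputable def txg_199 : Fn3 := ⟨_, _, fun h1 h2 h3 => (enc_add h1 (enc_rat _ 11 50))⟩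
noncomputable def txg_222 : Fn3 := ⟨_, _, fun h1 h2 h3 => (enc_add h1 (enc_rat _ 9 50))⟩
noncomputable def txg_261 : Fn3 := ⟨_, _, fun h1 h2 h3 => (enc_add h1 (enc_rat _ 7 100))⟩
noncomputable def txg_264 : Fn3 := ⟨_, _, fun h1 h2 h3 => (enc_add h1 (enc_rat _ 11 100))⟩
noncomputable def txg_307 : Fn3 := ⟨_, _, fun h1 h2 h3 => (enc_add h1 (enc_rat _ 3 100))⟩
noncomputable def txg_350 : Fn3 := ⟨_, _, fun h1 h2 h3 => (enc_subr 13 134 h1)⟩
noncomputable def txg_352 : Fn3 := ⟨_, _, fun h1 h2 h3 => (enc_subr 6 25 h1)⟩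
noncomputable def txg_354 : Fn3 := ⟨_, _, fun h1 h2 h3 => (enc_subr 3 20 h1)⟩
noncomputable def txg_356 : Fn3 := ⟨_, _, fun h1 h2 h3 => (enc_subr 117 1000 h1)⟩
noncomputable def txg_410 : Fn3 := ⟨_, _, fun h1 h2 h3 => (enc_subr 19 100 h1)⟩
noncomputable def txg_450 : Fn3 := ⟨_, _, fun h1 h2 h3 => (enc_subr 17 50 h1)⟩
noncomputable def txg_451 : Fn3 := ⟨_, _, fun h1 h2 h3 => (enc_subr 29 100 h1)⟩
noncomputable def txg_493 : Fn3 := ⟨_, _, fun h1 h2 h3 => (enc_subr 39 100 h1)⟩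
noncomputable def txg_512 : Fn3 := ⟨_, _, fun h1 h2 h3 => (enc_subr 11 25 h1)⟩
noncomputable def txg : Fn3 := ⟨_, _, fun h1 h2 h3 => (enc_case (enc_subr 11 2198 h1) (enc_case (txg_26.enc h1 h2 h3) (enc_case (txg_29.enc h1 h2 h3) (enc_case (txg_32.enc h1 h2 h3) (enc_add (enc_add (enc_add (enc_scale 123749 1500000 h1) (enc_rat _ 123749 3000000)) (enc_mul (enc_norm (txg_4.enc h1 h2 h3)) (enc_norm (enc_subr 17759 600000 (enc_neg (enc_scale 17759 300000 h1)))))) (enc_mul (enc_norm (enc_subr 681913 500000 (enc_scale 1050243 100000 (txg_4.enc h1 h2 h3)))) (enc_norm (enc_mul (enc_norm (enc_add h1 (enc_rat _ 1 2))) (enc_norm (enc_sub (enc_neg (enc_rat _ 47 100)) h1)))))) (enc_case (txg_57.enc h1 h2 h3) (enc_add (enc_add (enc_add (enc_scale 197429 1500000 h1) (enc_rat _ 965041 15000000)) (enc_mul (enc_norm (txg_4.enc h1 h2 h3)) (enc_norm (enc_subr 9993119 30000000 (enc_neg (enc_scale 105743 150000 h1))))))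 (enc_mul (enc_norm (enc_subr 547 2000 (enc_scale 1102271 100000 (txg_4.enc h1 h2 h3)))) (enc_norm (enc_mul (enc_norm (txg_32.enc h1 h2 h3)) (enc_norm (enc_sub (enc_neg (enc_rat _ 11 25)) h1)))))) (enc_add (enc_add (enc_add (enc_scale 307 6250 h1) (enc_rat _ 700909 25000000)) (enc_mul (enc_norm (txg_4.enc h1 h2 h3)) (enc_norm (enc_subr 2078139 5000000 (enc_neg (enc_scale 357003 400000 h1)))))) (enc_mul (enc_norm (enc_sub (enc_rat _ 283451 125000) (enc_scale 89453 25000 (txg_4.enc h1 h2 h3)))) (enc_norm (enc_mul (enc_norm (txg_57.enc h1 h2 h3)) (enc_norm (enc_sub (enc_neg (enc_rat _ 2 5)) h1)))))))) (enc_case (txg_101.enc h1 h2 h3) (enc_case (txg_104.enc h1 h2 h3) (enc_add (enc_add (enc_subr 298771 25000000 (enc_neg (enc_scale 1589 31250 h1))) (enc_mul (enc_norm (txg_4.enc h1 h2 h3)) (enc_norm (enc_subr 811529 1875000 (enc_neg (enc_scale 280643 300000 h1)))))) (enc_mul (enc_norm (enc_add (enc_scale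 620301 100000 (txg_4.enc h1 h2 h3)) (enc_rat _ 308789 1000000))) (enc_norm (enc_mul (enc_norm (txg_29.enc h1 h2 h3)) (enc_norm (enc_sub (enc_neg (enc_rat _ 37 100)) h1)))))) (enc_add (enc_add (enc_subr 368763 100000000 (enc_neg (enc_scale 5703 200000 h1))) (enc_mul (enc_norm (txg_4.enc h1 h2 h3)) (enc_norm (enc_subr 15727773 40000000 (enc_neg (enc_scale 331357 400000 h1)))))) (enc_mul (enc_norm (enc_subr 394959 500000 (enc_neg (enc_scale 732931 100000 (txg_4.enc h1 h2 h3))))) (enc_norm (enc_mul (enc_norm (txg_104.enc h1 h2 h3)) (enc_norm (enc_sub (enc_neg (enc_rat _ 33 100)) h1))))))) (enc_case (txg_151.enc h1 h2 h3) (enc_add (enc_add (enc_subr 3994329 200000000 (enc_neg (enc_scale 155721 2000000 h1))) (enc_mul (enc_norm (txg_4.enc h1 h2 h3)) (enc_norm (enc_add (enc_scale 325029 400000 h1) (enc_rat _ 1186593 8000000))))) (enc_mul (enc_norm (enc_sub (enc_rat _ 2023557 1000000) (enc_scale 84237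 2500 (txg_4.enc h1 h2 h3)))) (enc_norm (enc_mul (enc_norm (txg_101.enc h1 h2 h3)) (enc_norm (enc_sub (enc_neg (enc_rat _ 29 100)) h1)))))) (enc_add (enc_add (enc_subr 149219 200000000 (enc_neg (enc_scale 23131 2000000 h1))) (enc_mul (enc_norm (txg_4.enc h1 h2 h3)) (enc_norm (enc_add (enc_scale 135571 200000 h1) (enc_rat _ 2185121 20000000))))) (enc_mul (enc_norm (enc_subr 736187 200000 (enc_scale 1853137 50000 (txg_4.enc h1 h2 h3)))) (enc_norm (enc_mul (enc_norm (txg_151.enc h1 h2 h3)) (enc_norm (enc_sub (enc_neg (enc_rat _ 1 4)) h1))))))))) (enc_case (txg_196.enc h1 h2 h3) (enc_case (txg_199.enc h1 h2 h3) (enc_add (enc_add (enc_add (enc_scale 7737 31250 h1) (enc_rat _ 200129 3125000)) (enc_mul (enc_norm (txg_4.enc h1 h2 h3)) (enc_norm (enc_subr 153239 7500000 (enc_scale 47731 300000 h1))))) (enc_mul (enc_norm (enc_subr 373041 100000 (enc_neg (enc_scale 3212523 100000 (txg_4.enc h1 h2 h3)))))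 (enc_norm (enc_mul (enc_norm (txg_26.enc h1 h2 h3)) (enc_norm (enc_sub (enc_neg (enc_rat _ 11 50)) h1)))))) (enc_case (txg_222.enc h1 h2 h3) (enc_add (enc_add (enc_add (enc_scale 846717 2000000 h1) (enc_rat _ 10271167 100000000)) (enc_mul (enc_norm (txg_4.enc h1 h2 h3)) (enc_norm (enc_add (enc_scale 162863 200000 h1) (enc_rat _ 1237147 10000000))))) (enc_mul (enc_norm (enc_subr 1596549 1000000 (enc_scale 192841 25000 (txg_4.enc h1 h2 h3)))) (enc_norm (enc_mul (enc_norm (txg_199.enc h1 h2 h3)) (enc_norm (enc_sub (enc_neg (enc_rat _ 9 50)) h1)))))) (enc_add (enc_add (enc_add (enc_scale 950203 2000000 h1) (enc_rat _ 11202541 100000000)) (enc_mul (enc_norm (txg_4.enc h1 h2 h3)) (enc_norm (enc_subr 251761 20000000 (enc_scale 22831 400000 h1))))) (enc_mul (enc_norm (enc_add (enc_scale 560863 50000 (txg_4.enc h1 h2 h3)) (enc_rat _ 151487 500000))) (enc_norm (enc_mul (enc_norm (txg_222.enc h1 h2 h3))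 (enc_norm (enc_sub (enc_neg (enc_rat _ 7 50)) h1)))))))) (enc_case (txg_261.enc h1 h2 h3) (enc_case (txg_264.enc h1 h2 h3) (enc_add (enc_add (enc_add (enc_scale 1345091 3000000 h1) (enc_rat _ 16242317 150000000)) (enc_mul (enc_norm (txg_4.enc h1 h2 h3)) (enc_norm (enc_subr 362081 6000000 (enc_neg (enc_scale 85217 300000 h1)))))) (enc_mul (enc_norm (enc_sub (enc_rat _ 243651 500000) (enc_scale 8963 2500 (txg_4.enc h1 h2 h3)))) (enc_norm (enc_mul (enc_norm (txg_196.enc h1 h2 h3)) (enc_norm (enc_sub (enc_neg (enc_rat _ 11 100)) h1)))))) (enc_add (enc_add (enc_add (enc_scale 1634577 4000000 h1) (enc_rat _ 41565191 400000000)) (enc_mul (enc_norm (txg_4.enc h1 h2 h3)) (enc_norm (enc_subr 1108221 40000000 (enc_scale 5073 400000 h1))))) (enc_mul (enc_norm (enc_sub (enc_rat _ 627499 1000000) (enc_scale 472957 100000 (txg_4.enc h1 h2 h3)))) (enc_norm (enc_mul (enc_norm (txg_264.enc h1 h2 h3)) (enc_norm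 (enc_sub (enc_neg (enc_rat _ 7 100)) h1))))))) (enc_case (txg_307.enc h1 h2 h3) (enc_add (enc_add (enc_add (enc_scale 351077 1000000 h1) (enc_rat _ 9988327 100000000)) (enc_mul (enc_norm (txg_4.enc h1 h2 h3)) (enc_norm (enc_subr 116341 20000000 (enc_scale 2603 8000 h1))))) (enc_mul (enc_norm (enc_sub (enc_rat _ 162337 200000) (enc_scale 38597 12500 (txg_4.enc h1 h2 h3)))) (enc_norm (enc_mul (enc_norm (txg_261.enc h1 h2 h3)) (enc_norm (enc_sub (enc_neg (enc_rat _ 3 100)) h1)))))) (enc_add (enc_add (enc_add (enc_scale 1329844161414197 4646410447000000 h1) (enc_rat _ 45505655883590503 464641044700000000)) (enc_mul (enc_norm (txg_4.enc h1 h2 h3)) (enc_norm (enc_add (enc_scale 225510933143 422785300000 h1) (enc_rat _ 1790517553 4227853000000))))) (enc_mul (enc_norm (enc_sub (enc_rat _ 925613 1000000) (enc_scale 12071 5000 (txg_4.enc h1 h2 h3)))) (enc_norm (enc_mul (enc_norm (txg_307.enc h1 h2 h3))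 (enc_norm (enc_sub (enc_rat _ 11 2198) h1)))))))))) (enc_case (txg_350.enc h1 h2 h3) (enc_sub (enc_mul (enc_norm (enc_sub (enc_pnc _ 1) h2)) (enc_norm (enc_subn 1 (enc_nat 2 h2)))) (enc_mul (enc_norm (enc_nat 2 (enc_sub (enc_scale 4 3 (txg_6.enc h1 h2 h3)) h3))) (enc_norm (enc_mul (enc_norm (enc_subn 1 (enc_add (enc_scale 2 3 (txg_6.enc h1 h2 h3)) h2))) (kcg.enc h1 h3))))) (enc_case (txg_352.enc h1 h2 h3) (enc_case (txg_354.enc h1 h2 h3) (enc_case (txg_356.enc h1 h2 h3) (enc_add (enc_add (enc_add (enc_add (enc_scale 14686686162727 805443314000000 h1) (enc_rat _ 6966814420456357 61957178000000000)) (enc_mul (enc_norm (txg_4.enc h1 h2 h3)) (enc_norm (enc_subr 978548786833 77446472500000 (enc_scale 3091403746181 4027216570000 h1))))) (enc_mul (enc_sq (enc_norm (txg_4.enc h1 h2 h3))) (enc_norm (enc_sub (enc_rat _ 145062981 5779587500) (enc_scale 32236218 150269275 h1))))) (enc_mul (enc_norm (enc_add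 (enc_mul (enc_norm (enc_subr 131293 50000 (enc_scale 102213 10000 (txg_4.enc h1 h2 h3)))) (enc_norm (txg_4.enc h1 h2 h3))) (enc_rat _ 1972461 1000000))) (enc_norm (enc_mul (enc_norm (txg_350.enc h1 h2 h3)) (enc_norm (enc_sub (enc_rat _ 117 1000) h1)))))) (enc_add (enc_add (enc_sub (enc_rat _ 17147519 137500000) (enc_scale 95241 1100000 h1)) (enc_mul (enc_norm (txg_4.enc h1 h2 h3)) (enc_norm (enc_subr 621883 55000000 (enc_scale 249571 330000 h1))))) (enc_mul (enc_norm (enc_add (enc_mul (enc_norm (enc_sub (enc_rat _ 24179 12500) (enc_scale 17379 5000 (txg_4.enc h1 h2 h3)))) (enc_norm (txg_4.enc h1 h2 h3))) (enc_rat _ 1981727 1000000))) (enc_norm (enc_mul (enc_norm (txg_356.enc h1 h2 h3)) (enc_norm (enc_sub (enc_rat _ 3 20) h1))))))) (enc_case (txg_410.enc h1 h2 h3) (enc_add (enc_add (enc_sub (enc_rat _ 60166613 400000000) (enc_scale 1031859 4000000 h1)) (enc_mul (enc_norm (txg_4.enc h1 h2 h3))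 (enc_norm (enc_sub (enc_rat _ 5247321 40000000) (enc_scale 77463 400000 h1))))) (enc_mul (enc_norm (enc_add (enc_scale 8861 400 (txg_4.enc h1 h2 h3)) (enc_rat _ 529927 200000))) (enc_norm (enc_mul (enc_norm (txg_354.enc h1 h2 h3)) (enc_norm (enc_sub (enc_rat _ 19 100) h1)))))) (enc_add (enc_add (enc_sub (enc_rat _ 85703719 500000000) (enc_scale 230277 625000 h1)) (enc_mul (enc_norm (txg_4.enc h1 h2 h3)) (enc_norm (enc_sub (enc_rat _ 17193627 50000000) (enc_scale 328269 250000 h1))))) (enc_mul (enc_norm (enc_add (enc_scale 466637 100000 (txg_4.enc h1 h2 h3)) (enc_rat _ 1404 15625))) (enc_norm (enc_mul (enc_norm (txg_410.enc h1 h2 h3)) (enc_norm (enc_sub (enc_rat _ 6 25) h1)))))))) (enc_case (txg_450.enc h1 h2 h3) (enc_case (txg_451.enc h1 h2 h3) (enc_add (enc_add (enc_sub (enc_rat _ 78961183 500000000) (enc_scale 1561277 5000000 h1)) (enc_mul (enc_norm (txg_4.enc h1 h2 h3)) (enc_norm (enc_subr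 2399853 50000000 (enc_scale 159857 500000 h1))))) (enc_mul (enc_norm (enc_subr 1213611 1000000 (enc_neg (enc_scale 3732217 100000 (txg_4.enc h1 h2 h3))))) (enc_norm (enc_mul (enc_norm (txg_352.enc h1 h2 h3)) (enc_norm (enc_sub (enc_rat _ 29 100) h1)))))) (enc_add (enc_add (enc_sub (enc_rat _ 42222933 250000000) (enc_scale 437601 1250000 h1)) (enc_mul (enc_norm (txg_4.enc h1 h2 h3)) (enc_norm (enc_subr 15014099 50000000 (enc_scale 594831 500000 h1))))) (enc_mul (enc_norm (enc_add (enc_scale 1992323 100000 (txg_4.enc h1 h2 h3)) (enc_rat _ 1970119 1000000))) (enc_norm (enc_mul (enc_norm (txg_451.enc h1 h2 h3)) (enc_norm (enc_sub (enc_rat _ 17 50) h1))))))) (enc_case (txg_493.enc h1 h2 h3) (enc_add (enc_add (enc_sub (enc_rat _ 41778451 250000000) (enc_scale 862129 2500000 h1)) (enc_mul (enc_norm (txg_4.enc h1 h2 h3)) (enc_norm (enc_add (enc_scale 5907 250000 h1) (enc_rat _ 4808479 50000000)))))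 (enc_mul (enc_norm (enc_subr 129669 62500 (enc_scale 339743 100000 (txg_4.enc h1 h2 h3)))) (enc_norm (enc_mul (enc_norm (txg_450.enc h1 h2 h3)) (enc_norm (enc_sub (enc_rat _ 39 100) h1)))))) (enc_case (txg_512.enc h1 h2 h3) (enc_add (enc_add (enc_sub (enc_rat _ 38061907 250000000) (enc_scale 766833 2500000 h1)) (enc_mul (enc_norm (txg_4.enc h1 h2 h3)) (enc_norm (enc_sub (enc_rat _ 12385087 50000000) (enc_scale 91229 250000 h1))))) (enc_mul (enc_norm (enc_add (enc_scale 437347 100000 (txg_4.enc h1 h2 h3)) (enc_rat _ 656169 500000))) (enc_norm (enc_mul (enc_norm (txg_493.enc h1 h2 h3)) (enc_norm (enc_sub (enc_rat _ 11 25) h1)))))) (enc_add (enc_add (enc_sub (enc_rat _ 864251 6000000) (enc_scale 864251 3000000 h1)) (enc_mul (enc_norm (txg_4.enc h1 h2 h3)) (enc_norm (enc_sub (enc_rat _ 871387 1200000) (enc_scale 871387 600000 h1))))) (enc_mul (enc_norm (enc_subr 1404443 1000000 (enc_scale 144787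 10000 (txg_4.enc h1 h2 h3)))) (enc_norm (enc_mul (enc_norm (txg_512.enc h1 h2 h3)) (enc_norm (enc_sub (enc_rat _ 1 2) h1))))))))))))⟩
noncomputable def l0q0 : Fn2 := ⟨_, _, fun h1 h2 => (enc_norm (txg.enc (enc_norm (enc_sub (enc_scale 3 4 h1) (enc_half (c1g.enc h1)))) (c1g.enc h1) h2))⟩
noncomputable def kc0q0_3 : Fn2 := ⟨_, _, fun h1 h2 => (enc_subr 251 400 h2)⟩
noncomputable def kc0q0_8 : Fn2 := ⟨_, _, fun h1 h2 => (enc_sub (enc_scale 3 4 h1) (enc_half (c1g.enc h1)))⟩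
noncomputable def kc0q0 : Fn2 := ⟨_, _, fun h1 h2 => (enc_norm (enc_case (enc_add (kc0q0_8.enc h1 h2) (enc_rat _ 1 4)) (enc_case (enc_add (kc0q0_8.enc h1 h2) (enc_rat _ 21 50)) (enc_add (enc_add (enc_scale 12389 40000 (kc0q0_8.enc h1 h2)) (enc_rat _ 12389 80000)) (enc_mul (enc_norm (kc0q0_3.enc h1 h2)) (enc_norm (enc_add (enc_scale 54531 4000 (kc0q0_8.enc h1 h2)) (enc_rat _ 54531 8000))))) (enc_case (enc_add (kc0q0_8.enc h1 h2) (enc_rat _ 33 100)) (enc_add (enc_add (enc_scale 227 144 (kc0q0_8.enc h1 h2)) (enc_rat _ 257573 375000)) (enc_mul (enc_norm (kc0q0_3.enc h1 h2)) (enc_norm (enc_subr 163181 150000 (enc_neg (enc_scale 23341 4500 (kc0q0_8.enc h1 h2))))))) (enc_add (enc_subr 6220113 8000000 (enc_neg (enc_scale 228889 80000 (kc0q0_8.enc h1 h2)))) (enc_mul (enc_norm (kc0q0_3.enc h1 h2)) (enc_norm (enc_add (enc_scale 28893 1000 (kc0q0_8.enc h1 h2)) (enc_rat _ 1015849 100000))))))) (enc_case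 (enc_add (kc0q0_8.enc h1 h2) (enc_rat _ 4 25)) (enc_add (enc_add (enc_scale 219227 22500 (kc0q0_8.enc h1 h2)) (enc_rat _ 1335161 562500)) (enc_mul (enc_norm (kc0q0_3.enc h1 h2)) (enc_norm (enc_subr 24345709 900000 (enc_neg (enc_scale 1079497 9000 (kc0q0_8.enc h1 h2))))))) (enc_case (enc_add (kc0q0_8.enc h1 h2) (enc_rat _ 2 25)) (enc_add (enc_add (enc_scale 370639 40000 (kc0q0_8.enc h1 h2)) (enc_rat _ 574307 250000)) (enc_mul (enc_norm (kc0q0_3.enc h1 h2)) (enc_norm (enc_add (enc_scale 407983 4000 (kc0q0_8.enc h1 h2)) (enc_rat _ 845959 100000))))) (enc_add (enc_add (enc_scale 67470624557 15570000000 (kc0q0_8.enc h1 h2)) (enc_rat _ 370297393307 194625000000)) (enc_mul (enc_norm (kc0q0_3.enc h1 h2)) (enc_norm (enc_sub (enc_rat _ 329923 18684000) (enc_scale 32962307 9342000 (kc0q0_8.enc h1 h2))))))))))⟩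
noncomputable def kf0q1_10 : Fn2 := ⟨_, _, fun h1 h2 => (enc_scale 3 2 h1)⟩
noncomputable def kf0q1 : Fn2 := ⟨_, _, fun h1 h2 => (enc_norm (enc_add (enc_mul (enc_norm (enc_mul (enc_norm (enc_add (enc_pnc _ 1) (enc_nat 2 (c1g.enc h1)))) (enc_norm (enc_sub (kf0q1_10.enc h1 h2) (c1g.enc h1))))) (enc_inv (enc_nat 2 (enc_sub (enc_add (enc_pnc _ 1) (kf0q1_10.enc h1 h2)) (c1g.enc h1))))) (enc_mul (enc_norm (enc_subn 1 h1)) (kcg.enc (enc_norm (enc_sub (enc_scale 3 4 h1) (enc_half (c1g.enc h1)))) h2))))⟩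
noncomputable def l0q1 : Fn2 := ⟨_, _, fun h1 h2 => (enc_norm (txg.enc (enc_norm (enc_sub (enc_scale 3 4 h1) (enc_half (c1g.enc h1)))) (c1g.enc h1) h2))⟩
noncomputable def gsg : Fn1 := ⟨_, _, fun h1 => (enc_sqrt (enc_sub (enc_pnc _ 1) (enc_scale 3 4 (enc_sq h1))))⟩
noncomputable def gug : Fn1 := ⟨_, _, fun h1 => (enc_norm (enc_add (enc_scale 3 4 h1) (enc_scale 3 2 (enc_sub (enc_pnc _ 1) (gsg.enc h1)))))⟩
noncomputable def kc0q1_3 : Fn2 := ⟨_, _, fun h1 h2 => (enc_subr 251 400 h2)⟩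
noncomputable def kc0q1_9 : Fn2 := ⟨_, _, fun h1 h2 => (enc_sub (enc_scale 3 4 h1) (enc_half (c1g.enc h1)))⟩
noncomputable def kc0q1 : Fn2 := ⟨_, _, fun h1 h2 => (enc_norm (enc_case (enc_subr 11 2198 (kc0q1_9.enc h1 h2)) (enc_case (enc_add (kc0q1_9.enc h1 h2) (enc_rat _ 1 4)) (enc_case (enc_add (kc0q1_9.enc h1 h2) (enc_rat _ 21 50)) (enc_add (enc_add (enc_scale 12389 40000 (kc0q1_9.enc h1 h2)) (enc_rat _ 12389 80000)) (enc_mul (enc_norm (kc0q1_3.enc h1 h2)) (enc_norm (enc_add (enc_scale 54531 4000 (kc0q1_9.enc h1 h2)) (enc_rat _ 54531 8000))))) (enc_case (enc_add (kc0q1_9.enc h1 h2) (enc_rat _ 33 100)) (enc_add (enc_add (enc_scale 227 144 (kc0q1_9.enc h1 h2)) (enc_rat _ 257573 375000)) (enc_mul (enc_norm (kc0q1_3.enc h1 h2)) (enc_norm (enc_subr 163181 150000 (enc_neg (enc_scale 23341 4500 (kc0q1_9.enc h1 h2))))))) (enc_add (enc_subr 6220113 8000000 (enc_neg (enc_scale 228889 80000 (kc0q1_9.enc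 h1 h2)))) (enc_mul (enc_norm (kc0q1_3.enc h1 h2)) (enc_norm (enc_add (enc_scale 28893 1000 (kc0q1_9.enc h1 h2)) (enc_rat _ 1015849 100000))))))) (enc_case (enc_add (kc0q1_9.enc h1 h2) (enc_rat _ 4 25)) (enc_add (enc_add (enc_scale 219227 22500 (kc0q1_9.enc h1 h2)) (enc_rat _ 1335161 562500)) (enc_mul (enc_norm (kc0q1_3.enc h1 h2)) (enc_norm (enc_subr 24345709 900000 (enc_neg (enc_scale 1079497 9000 (kc0q1_9.enc h1 h2))))))) (enc_case (enc_add (kc0q1_9.enc h1 h2) (enc_rat _ 2 25)) (enc_add (enc_add (enc_scale 370639 40000 (kc0q1_9.enc h1 h2)) (enc_rat _ 574307 250000)) (enc_mul (enc_norm (kc0q1_3.enc h1 h2)) (enc_norm (enc_add (enc_scale 407983 4000 (kc0q1_9.enc h1 h2)) (enc_rat _ 845959 100000))))) (enc_add (enc_add (enc_scale 67470624557 15570000000 (kc0q1_9.enc h1 h2)) (enc_rat _ 370297393307 194625000000)) (enc_mul (enc_norm (kc0q1_3.enc h1 h2)) (enc_norm (enc_sub (enc_rat _ 329923 18684000)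 (enc_scale 32962307 9342000 (kc0q1_9.enc h1 h2))))))))) (enc_case (enc_subr 13 134 (kc0q1_9.enc h1 h2)) (enc_sub (enc_add (enc_add (enc_rat _ 3 4) (enc_scale 3 2 h1)) (enc_scale 3 4 (enc_mul (enc_norm (enc_mul h1 (enc_inv (c1g.enc h1)))) (gug.enc h1)))) (enc_mul (kcg.enc (enc_norm (kc0q1_9.enc h1 h2)) h2) (enc_norm (enc_add (gug.enc h1) (enc_nat 2 (c1g.enc h1)))))) (enc_case (enc_subr 13 50 (kc0q1_9.enc h1 h2)) (enc_case (enc_subr 9 50 (kc0q1_9.enc h1 h2)) (enc_add (enc_sub (enc_rat _ 5200385527513 1390000000000) (enc_scale 572944803057 27800000000 (kc0q1_9.enc h1 h2))) (enc_mul (enc_norm (kc0q1_3.enc h1 h2)) (enc_norm (enc_sub (enc_rat _ 2175643119217 1390000000000) (enc_scale 458437579913 27800000000 (kc0q1_9.enc h1 h2)))))) (enc_add (enc_sub (enc_rat _ 414667 4000000) (enc_scale 32043 80000 (kc0q1_9.enc h1 h2))) (enc_mul (enc_norm (kc0q1_3.enc h1 h2)) (enc_norm (enc_subr 368587 80000 (enc_scale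 142411 8000 (kc0q1_9.enc h1 h2))))))) (enc_case (enc_subr 17 50 (kc0q1_9.enc h1 h2)) (enc_add (enc_sub (enc_rat _ 599293 4000000) (enc_scale 9249 16000 (kc0q1_9.enc h1 h2))) (enc_mul (enc_norm (kc0q1_3.enc h1 h2)) (enc_norm (enc_sub (enc_rat _ 228181 200000) (enc_scale 17229 4000 (kc0q1_9.enc h1 h2)))))) (enc_case (enc_subr 21 50 (kc0q1_9.enc h1 h2)) (enc_add (enc_subr 395989 4000000 (enc_scale 12301 80000 (kc0q1_9.enc h1 h2))) (enc_mul (enc_norm (kc0q1_3.enc h1 h2)) (enc_norm (enc_sub (enc_rat _ 913179 200000) (enc_scale 57523 4000 (kc0q1_9.enc h1 h2)))))) (enc_add (enc_subr 34417 160000 (enc_scale 34417 80000 (kc0q1_9.enc h1 h2))) (enc_mul (enc_norm (kc0q1_3.enc h1 h2)) (enc_norm (enc_subr 73701 8000 (enc_scale 73701 4000 (kc0q1_9.enc h1 h2))))))))))))⟩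
noncomputable def yag : Fn1 := ⟨_, _, fun h1 => (enc_sqrt (enc_scale 4 3 (enc_sub (enc_pnc _ 1) (enc_sq h1))))⟩
noncomputable def kfc02 : Fn2 := ⟨_, _, fun h1 h2 => (enc_norm (enc_add h1 (enc_mul (enc_norm (enc_subn 1 (yag.enc h1))) (kcg.enc (enc_neg h1) h2))))⟩
noncomputable def lc02_7 : Fn2 := ⟨_, _, fun h1 h2 => (enc_scale 3 4 (yag.enc h1))⟩
noncomputable def lc02_8 : Fn2 := ⟨_, _, fun h1 h2 => (enc_half h1)⟩
noncomputable def lc02 : Fn2 := ⟨_, _, fun h1 h2 => (enc_norm (enc_sub (txg.enc (enc_neg h1) (enc_norm (enc_add (lc02_7.enc h1 h2) (lc02_8.enc h1 h2))) h2) (txg.enc h1 (enc_norm (enc_sub (lc02_7.enc h1 h2) (lc02_8.enc h1 h2))) h2)))⟩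
noncomputable def kcc02_4 : Fn2 := ⟨_, _, fun h1 h2 => (enc_subr 251 400 h2)⟩
noncomputable def kcc02 : Fn2 := ⟨_, _, fun h1 h2 => (enc_norm (enc_case (enc_subr 1 5 h1) (enc_case (enc_subr 1 10 h1) (enc_sub (enc_mul (enc_norm (kcc02_4.enc h1 h2)) (enc_scale 30523 10000 h1)) (enc_scale 1733 25000 h1)) (enc_add (enc_subr 777 200000 (enc_neg (enc_scale 3047 100000 h1))) (enc_mul (enc_norm (kcc02_4.enc h1 h2)) (enc_norm (enc_add (enc_scale 13829 10000 h1) (enc_rat _ 8347 50000)))))) (enc_case (enc_subr 3 10 h1) (enc_add (enc_subr 14379 1000000 (enc_scale 11 500 h1)) (enc_mul (enc_norm (kcc02_4.enc h1 h2)) (enc_norm (enc_sub (enc_rat _ 31953 50000) (enc_scale 9777 10000 h1))))) (enc_case (enc_subr 2 5 h1) (enc_add (enc_subr 41397 1000000 (enc_scale 5603 50000 h1)) (enc_mul (enc_norm (kcc02_4.enc h1 h2)) (enc_norm (enc_sub (enc_rat _ 97707 100000) (enc_scale 5261 2500 h1))))) (enc_add (enc_sub (enc_rat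 _ 3427 200000) (enc_scale 3427 100000 h1)) (enc_mul (enc_norm (kcc02_4.enc h1 h2)) (enc_norm (enc_sub (enc_rat _ 13531 20000) (enc_scale 13531 10000 h1)))))))))⟩
noncomputable def swg : Fn1 := ⟨_, _, fun h1 => (enc_sqrt (enc_sub (enc_pnc _ 1) (enc_scale 3 4 (enc_sq (enc_norm (enc_subn 1 h1))))))⟩
noncomputable def cv1m : Fn1 := ⟨_, _, fun h1 => (enc_norm (enc_add (enc_scale 23 25 (c1g.enc h1)) (enc_scale 2 25 (enc_add (swg.enc h1) (enc_rat _ 1 2)))))⟩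
noncomputable def bf1q0_3 : Fn2 := ⟨_, _, fun h1 h2 => (enc_subr 251 400 h2)⟩
noncomputable def bf1q0 : Fn2 := ⟨_, _, fun h1 h2 => (enc_norm (enc_case (enc_subr 23 100 h1) (enc_case (enc_subr 3 25 h1) (enc_add (enc_sub (enc_pnc _ 1) (enc_scale 37237 40000 h1)) (enc_mul (enc_norm (bf1q0_3.enc h1 h2)) (enc_scale 881 12000 h1))) (enc_add (enc_sub (enc_rat _ 12257039 11000000) (enc_scale 41431 22000 h1)) (enc_mul (enc_norm (bf1q0_3.enc h1 h2)) (enc_norm (enc_add (enc_scale 679 11000 h1) (enc_rat _ 1543 1100000)))))) (enc_case (enc_subr 7 20 h1) (enc_add (enc_sub (enc_rat _ 4757851 4000000) (enc_scale 17681 8000 h1)) (enc_mul (enc_norm (bf1q0_3.enc h1 h2)) (enc_norm (enc_sub (enc_rat _ 10353 40000) (enc_scale 423 400 h1))))) (enc_case (enc_subr 79 200 h1) (enc_add (enc_sub (enc_rat _ 9670451 9000000) (enc_scale 42337 22500 h1)) (enc_mul (enc_norm (bf1q0_3.enc h1 h2)) (enc_norm (enc_sub (enc_rat _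 5803 45000) (enc_scale 3089 4500 h1))))) (enc_add (enc_sub (enc_rat _ 20354071 21000000) (enc_scale 84797 52500 h1)) (enc_mul (enc_norm (bf1q0_3.enc h1 h2)) (enc_norm (enc_subr 653783 2100000 (enc_scale 1124 2625 h1)))))))))⟩
noncomputable def kf1q0 : Fn2 := ⟨_, _, fun h1 h2 => (enc_norm (enc_mul (cv1m.enc h1) (bf1q0.enc h1 h2)))⟩
noncomputable def bx1q0_3 : Fn2 := ⟨_, _, fun h1 h2 => (enc_subr 251 400 h2)⟩
noncomputable def bx1q0 : Fn2 := ⟨_, _, fun h1 h2 => (enc_norm (enc_case (enc_subr 23 100 h1) (enc_case (enc_subr 3 25 h1) (enc_sub (enc_scale 10361 120000 h1) (enc_mul (enc_norm (bx1q0_3.enc h1 h2)) (enc_scale 109 1000 h1))) (enc_add (enc_add (enc_scale 3163 110000 h1) (enc_rat _ 15203 2200000)) (enc_mul (enc_norm (bx1q0_3.enc h1 h2)) (enc_norm (enc_sub (enc_rat _ 30141 275000) (enc_scale 5623 5500 h1)))))) (enc_case (enc_subr 7 20 h1) (enc_add (enc_add (enc_scale 1533 40000 h1) (enc_rat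 _ 18837 4000000)) (enc_mul (enc_norm (bx1q0_3.enc h1 h2)) (enc_norm (enc_subr 382189 1200000 (enc_scale 10067 12000 h1))))) (enc_case (enc_subr 79 200 h1) (enc_add (enc_subr 1023253 9000000 (enc_scale 4237 11250 h1)) (enc_mul (enc_norm (bx1q0_3.enc h1 h2)) (enc_norm (enc_sub (enc_rat _ 44747 900000) (enc_scale 959 4500 h1))))) (enc_add (enc_subr 447793 4200000 (enc_scale 4708 13125 h1)) (enc_mul (enc_norm (bx1q0_3.enc h1 h2)) (enc_norm (enc_sub (enc_rat _ 5039 75000) (enc_scale 193 750 h1)))))))))⟩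
noncomputable def l1q0 : Fn2 := ⟨_, _, fun h1 h2 => (enc_norm (enc_mul (cv1m.enc h1) (bx1q0.enc h1 h2)))⟩
noncomputable def bd1q0 : Fn2 := ⟨_, _, fun h1 h2 => (enc_norm (enc_sub (enc_scale 18537 100000 h1) (enc_mul (enc_norm (enc_subr 251 400 h2)) (enc_scale 54497 12500 h1))))⟩
noncomputable def kc1q0 : Fn2 := ⟨_, _, fun h1 h2 => (enc_norm (enc_mul (cv1m.enc h1) (bd1q0.enc h1 h2)))⟩
noncomputable def bf1q1_3 : Fn2 := ⟨_, _, fun h1 h2 => (enc_subr 251 400 h2)⟩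
noncomputable def bf1q1 : Fn2 := ⟨_, _, fun h1 h2 => (enc_norm (enc_case (enc_subr 7 10 h1) (enc_case (enc_subr 3 5 h1) (enc_add (enc_subr 1095927 1000000 (enc_scale 199487 100000 h1)) (enc_mul (enc_norm (bf1q1_3.enc h1 h2)) (enc_norm (enc_sub (enc_rat _ 3939 50000) (enc_scale 1939 10000 h1))))) (enc_add (enc_subr 912741 1000000 (enc_scale 42239 25000 h1)) (enc_mul (enc_norm (bf1q1_3.enc h1 h2)) (enc_norm (enc_sub (enc_rat _ 591 3125) (enc_scale 1889 5000 h1)))))) (enc_case (enc_subr 4 5 h1) (enc_add (enc_subr 461071 500000 (enc_scale 170299 100000 h1)) (enc_mul (enc_norm (bf1q1_3.enc h1 h2)) (enc_norm (enc_subr 7303 100000 (enc_neg (enc_scale 33 10000 h1)))))) (enc_case (enc_subr 9 10 h1) (enc_add (enc_subr 788551 500000 (enc_scale 252169 100000 h1)) (enc_mul (enc_norm (bf1q1_3.enc h1 h2)) (enc_norm (enc_subr 51319 100000 (enc_scale 5469 10000 h1))))) (enc_add (enc_subr 77353 50000 (enc_scale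 248831 100000 h1)) (enc_mul (enc_norm (bf1q1_3.enc h1 h2)) (enc_norm (enc_subr 15347 20000 (enc_scale 8293 10000 h1)))))))))⟩
noncomputable def kf1q1 : Fn2 := ⟨_, _, fun h1 h2 => (enc_norm (enc_mul (cv1m.enc h1) (bf1q1.enc h1 h2)))⟩
noncomputable def bx1q1_3 : Fn2 := ⟨_, _, fun h1 h2 => (enc_subr 251 400 h2)⟩
noncomputable def bx1q1 : Fn2 := ⟨_, _, fun h1 h2 => (enc_norm (enc_case (enc_subr 7 10 h1) (enc_case (enc_subr 3 5 h1) (enc_add (enc_subr 108511 1000000 (enc_scale 1084 3125 h1)) (enc_mul (enc_norm (bx1q1_3.enc h1 h2)) (enc_norm (enc_subr 563 50000 (enc_neg (enc_scale 31 1000 h1)))))) (enc_add (enc_add (enc_scale 301 2000 h1) (enc_rat _ 9317 1000000)) (enc_mul (enc_norm (bx1q1_3.enc h1 h2)) (enc_norm (enc_subr 1112 3125 (enc_scale 5433 10000 h1)))))) (enc_case (enc_subr 4 5 h1) (enc_add (enc_add (enc_scale 1423 100000 h1) (enc_rat _ 52353 500000)) (enc_mul (enc_norm (bx1q1_3.enc h1 h2))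 (enc_norm (enc_sub (enc_rat _ 29173 100000) (enc_scale 1909 5000 h1))))) (enc_case (enc_subr 9 10 h1) (enc_add (enc_sub (enc_rat _ 100749 500000) (enc_scale 2669 25000 h1)) (enc_mul (enc_norm (bx1q1_3.enc h1 h2)) (enc_norm (enc_sub (enc_rat _ 86077 100000) (enc_scale 10931 10000 h1))))) (enc_add (enc_sub (enc_rat _ 176829 250000) (enc_scale 33439 50000 h1)) (enc_mul (enc_norm (bx1q1_3.enc h1 h2)) (enc_norm (enc_subr 1274 625 (enc_scale 10641 5000 h1)))))))))⟩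
noncomputable def l1q1 : Fn2 := ⟨_, _, fun h1 h2 => (enc_norm (enc_mul (cv1m.enc h1) (bx1q1.enc h1 h2)))⟩
noncomputable def bd1q1 : Fn2 := ⟨_, _, fun h1 h2 => (enc_norm (enc_add (enc_sub (enc_rat _ 959257 200000) (enc_scale 2625651 500000 h1)) (enc_mul (enc_norm (enc_subr 251 400 h2)) (enc_norm (enc_sub (enc_rat _ 15201 20000) (enc_scale 51151 25000 h1))))))⟩
noncomputable def kc1q1 : Fn2 := ⟨_, _, fun h1 h2 => (enc_norm (enc_mul (cv1m.enc h1) (bd1q1.enc h1 h2)))⟩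
noncomputable def xc12a : Fn1 := ⟨_, _, fun h1 => (enc_norm (enc_add (enc_scale 23 25 h1) (enc_scale 2 25 (enc_subr 1 2 (swg.enc (yag.enc h1))))))⟩
noncomputable def kfc12a_11 : Fn2 := ⟨_, _, fun h1 h2 => (enc_subr 251 400 h2)⟩
noncomputable def kfc12a : Fn2 := ⟨_, _, fun h1 h2 => (enc_norm (enc_mul (enc_norm (enc_add (enc_scale 23 25 h1) (enc_scale 2 25 (enc_subr 1 2 (swg.enc (yag.enc h1)))))) (enc_norm (enc_add (enc_sub (enc_pnc _ 1) (enc_scale 4994127 2500000 (enc_subn 1 (yag.enc h1)))) (enc_case (enc_subr 1 4 h1) (enc_case (enc_subr 1 10 h1) (enc_case (enc_subr 1 20 h1) (enc_sub (enc_neg (enc_scale 3563 12500 h1)) (enc_mul (enc_norm (kfc12a_11.enc h1 h2)) (enc_scale 47 200 h1))) (enc_add (enc_sub (enc_rat _ 20797 1000000) (enc_scale 35049 50000 h1)) (enc_mul (enc_norm (kfc12a_11.enc h1 h2)) (enc_norm (enc_sub (enc_rat _ 5187 100000) (enc_scale 3181 2500 h1)))))) (enc_case (enc_subr 3 20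 h1) (enc_add (enc_sub (enc_rat _ 42549 1000000) (enc_scale 1837 2000 h1)) (enc_mul (enc_norm (kfc12a_11.enc h1 h2)) (enc_norm (enc_sub (enc_rat _ 108207 100000) (enc_scale 7234 625 h1))))) (enc_case (enc_subr 1 5 h1) (enc_add (enc_subr 69747 500000 (enc_scale 3689 12500 h1)) (enc_mul (enc_norm (kfc12a_11.enc h1 h2)) (enc_norm (enc_subr 33327 20000 (enc_scale 16871 2500 h1))))) (enc_add (enc_subr 166831 500000 (enc_scale 31649 25000 h1)) (enc_mul (enc_norm (kfc12a_11.enc h1 h2)) (enc_norm (enc_subr 73663 100000 (enc_scale 10499 5000 h1)))))))) (enc_case (enc_subr 7 20 h1) (enc_case (enc_subr 3 10 h1) (enc_add (enc_subr 367857 1000000 (enc_scale 70137 50000 h1)) (enc_mul (enc_norm (kfc12a_11.enc h1 h2)) (enc_norm (enc_subr 25643 100000 (enc_scale 179 1000 h1))))) (enc_add (enc_subr 201309 1000000 (enc_scale 42379 50000 h1)) (enc_mul (enc_norm (kfc12a_11.enc h1 h2)) (enc_norm (enc_subr 8593 20000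 (enc_scale 1891 2500 h1)))))) (enc_case (enc_subr 2 5 h1) (enc_add (enc_sub (enc_rat _ 29433 200000) (enc_scale 7403 50000 h1)) (enc_mul (enc_norm (kfc12a_11.enc h1 h2)) (enc_norm (enc_subr 30159 50000 (enc_scale 6261 5000 h1))))) (enc_case (enc_subr 9 20 h1) (enc_add (enc_sub (enc_rat _ 361429 1000000) (enc_scale 17093 25000 h1)) (enc_mul (enc_norm (kfc12a_11.enc h1 h2)) (enc_norm (enc_subr 33399 50000 (enc_scale 7071 5000 h1))))) (enc_add (enc_sub (enc_rat _ 10751 20000) (enc_scale 10751 10000 h1)) (enc_mul (enc_norm (kfc12a_11.enc h1 h2)) (enc_norm (enc_subr 3159 10000 (enc_scale 3159 5000 h1)))))))))))))⟩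
noncomputable def lc12a_11 : Fn2 := ⟨_, _, fun h1 h2 => (enc_subr 251 400 h2)⟩
noncomputable def lc12a : Fn2 := ⟨_, _, fun h1 h2 => (enc_norm (enc_mul (enc_norm (enc_add (enc_scale 23 25 h1) (enc_scale 2 25 (enc_subr 1 2 (swg.enc (yag.enc h1)))))) (enc_norm (enc_add (enc_subr 122234428036571617 232320522350000000 (enc_neg (enc_scale 627558740527 528481625000 (lc12a_11.enc h1 h2)))) (enc_case (enc_subr 1 4 h1) (enc_case (enc_subr 1 10 h1) (enc_case (enc_subr 1 20 h1) (enc_add (enc_scale 8023 50000 h1) (enc_mul (enc_norm (lc12a_11.enc h1 h2)) (enc_scale 9243 2500 h1))) (enc_add (enc_subr 4213 200000 (enc_scale 1818 3125 h1)) (enc_mul (enc_norm (lc12a_11.enc h1 h2)) (enc_norm (enc_add (enc_scale 2877 1250 h1) (enc_rat _ 3489 50000)))))) (enc_case (enc_subr 3 20 h1) (enc_add (enc_subr 74813 1000000 (enc_scale 27981 25000 h1)) (enc_mul (enc_norm (lc12a_11.enc h1 h2)) (enc_norm (enc_subr 1823 50000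 (enc_scale 841 250 h1))))) (enc_case (enc_subr 1 5 h1) (enc_add (enc_subr 27283 200000 (enc_scale 4781 3125 h1)) (enc_mul (enc_norm (lc12a_11.enc h1 h2)) (enc_norm (enc_subr 23017 100000 (enc_scale 23277 5000 h1))))) (enc_add (enc_subr 183371 1000000 (enc_scale 17647 10000 h1)) (enc_mul (enc_norm (lc12a_11.enc h1 h2)) (enc_norm (enc_subr 15969 100000 (enc_scale 4303 1000 h1)))))))) (enc_case (enc_subr 7 20 h1) (enc_case (enc_subr 3 10 h1) (enc_add (enc_subr 117243 500000 (enc_scale 49229 25000 h1)) (enc_mul (enc_norm (lc12a_11.enc h1 h2)) (enc_norm (enc_sub (enc_rat _ 146883 50000) (enc_scale 5054 625 h1))))) (enc_add (enc_subr 5067 50000 (enc_scale 76267 50000 h1)) (enc_mul (enc_norm (lc12a_11.enc h1 h2)) (enc_norm (enc_subr 1959 10000 (enc_scale 5897 2500 h1)))))) (enc_case (enc_subr 2 5 h1) (enc_add (enc_add (enc_scale 11983 12500 h1) (enc_rat _ 19401 200000)) (enc_mul (enc_norm (lc12a_11.enc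 h1 h2)) (enc_norm (enc_subr 13179 20000 (enc_scale 18409 5000 h1))))) (enc_case (enc_subr 9 20 h1) (enc_add (enc_add (enc_scale 14831 25000 h1) (enc_rat _ 48633 200000)) (enc_mul (enc_norm (lc12a_11.enc h1 h2)) (enc_norm (enc_subr 64087 100000 (enc_scale 18183 5000 h1))))) (enc_add (enc_add (enc_scale 3722386213822567 11616026117500000 h1) (enc_rat _ 85010565898345947 232320522350000000)) (enc_mul (enc_norm (lc12a_11.enc h1 h2)) (enc_norm (enc_subr 386465606243 528481625000 (enc_scale 101402434677 26424081250 h1)))))))))))))⟩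
noncomputable def kcc12a_11 : Fn2 := ⟨_, _, fun h1 h2 => (enc_subr 251 400 h2)⟩
noncomputable def kcc12a : Fn2 := ⟨_, _, fun h1 h2 => (enc_norm (enc_mul (enc_norm (enc_add (enc_scale 23 25 h1) (enc_scale 2 25 (enc_subr 1 2 (swg.enc (yag.enc h1)))))) (enc_norm (enc_add (enc_subr 1733 25000 (enc_scale 30523 10000 (kcc12a_11.enc h1 h2))) (enc_case (enc_subr 1 4 h1) (enc_sub (enc_scale 17411 125000 h1) (enc_mul (enc_norm (kcc12a_11.enc h1 h2)) (enc_scale 36669 6250 h1))) (enc_add (enc_add (enc_scale 17249 125000 h1) (enc_rat _ 81 250000)) (enc_mul (enc_norm (kcc12a_11.enc h1 h2)) (enc_norm (enc_sub (enc_rat _ 5939 50000) (enc_scale 79277 12500 h1))))))))))⟩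
noncomputable def xc12b : Fn1 := ⟨_, _, fun h1 => (enc_norm (enc_scale 2 25 (enc_subr 1 2 (swg.enc h1))))⟩
noncomputable def kfc12b_9 : Fn2 := ⟨_, _, fun h1 h2 => (enc_subr 251 400 h2)⟩
noncomputable def kfc12b : Fn2 := ⟨_, _, fun h1 h2 => (enc_norm (enc_mul (enc_norm (enc_scale 2 25 (enc_subr 1 2 (swg.enc h1)))) (enc_norm (enc_add (enc_sub (enc_pnc _ 1) (enc_scale 4994127 2500000 (enc_subn 1 h1))) (enc_case (enc_subr 127 100 h1) (enc_case (enc_subr 231 200 h1) (enc_pnc _ 0) (enc_add (enc_sub (enc_rat _ 21475839 5750000) (enc_scale 92969 28750 h1)) (enc_mul (enc_norm (kfc12b_9.enc h1 h2)) (enc_norm (enc_subr 14776377 1150000 (enc_scale 63967 5750 h1)))))) (enc_case (enc_subr 139 100 h1) (enc_add (enc_sub (enc_rat _ 5595209 1500000) (enc_scale 48449 15000 h1)) (enc_mul (enc_norm (kfc12b_9.enc h1 h2)) (enc_norm (enc_subr 968627 75000 (enc_scale 3353 300 h1))))) (enc_add (enc_sub (enc_rat _ 20466653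 5500000) (enc_scale 177293 55000 h1)) (enc_mul (enc_norm (kfc12b_9.enc h1 h2)) (enc_norm (enc_subr 1756611 137500 (enc_scale 60919 5500 h1)))))))))))⟩
noncomputable def lc12b_9 : Fn2 := ⟨_, _, fun h1 h2 => (enc_subr 251 400 h2)⟩
noncomputable def lc12b : Fn2 := ⟨_, _, fun h1 h2 => (enc_norm (enc_mul (enc_norm (enc_scale 2 25 (enc_subr 1 2 (swg.enc h1)))) (enc_norm (enc_add (enc_subr 122234428036571617 232320522350000000 (enc_neg (enc_scale 627558740527 528481625000 (lc12b_9.enc h1 h2)))) (enc_case (enc_subr 127 100 h1) (enc_case (enc_subr 231 200 h1) (enc_pnc _ 0) (enc_add (enc_subr 3117807 1000000 (enc_scale 13497 5000 h1)) (enc_mul (enc_norm (lc12b_9.enc h1 h2)) (enc_norm (enc_sub (enc_rat _ 16023777 1150000) (enc_scale 69367 5750 h1)))))) (enc_case (enc_subr 139 100 h1) (enc_add (enc_subr 6243361 2000000 (enc_scale 54049 20000 h1)) (enc_mul (enc_norm (lc12b_9.enc h1 h2)) (enc_norm (enc_sub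 (enc_rat _ 103279 7500) (enc_scale 17903 1500 h1))))) (enc_add (enc_subr 17183247 5500000 (enc_scale 297471 110000 h1)) (enc_mul (enc_norm (lc12b_9.enc h1 h2)) (enc_norm (enc_sub (enc_rat _ 15111493 1100000) (enc_scale 131029 11000 h1)))))))))))⟩
noncomputable def kcc12b_9 : Fn2 := ⟨_, _, fun h1 h2 => (enc_subr 251 400 h2)⟩
noncomputable def kcc12b : Fn2 := ⟨_, _, fun h1 h2 => (enc_norm (enc_mul (enc_norm (enc_scale 2 25 (enc_subr 1 2 (swg.enc h1)))) (enc_norm (enc_add (enc_subr 1733 25000 (enc_scale 30523 10000 (kcc12b_9.enc h1 h2))) (enc_case (enc_subr 231 200 h1) (enc_pnc _ 0) (enc_add (enc_subr 147687001 11500000 (enc_scale 1918013 172500 h1)) (enc_mul (enc_norm (kcc12b_9.enc h1 h2)) (enc_norm (enc_sub (enc_rat _ 115481443 2300000) (enc_scale 1499759 34500 h1))))))))))⟩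
noncomputable def cv1r : Fn1 := ⟨_, _, fun h1 => (enc_norm (enc_scale 2 25 (enc_subr 1 2 (swg.enc h1))))⟩
noncomputable def bf1q3_3 : Fn2 := ⟨_, _, fun h1 h2 => (enc_subr 251 400 h2)⟩
noncomputable def bf1q3 : Fn2 := ⟨_, _, fun h1 h2 => (enc_norm (enc_case (enc_subr 33 20 h1) (enc_case (enc_subr 321 200 h1) (enc_add (enc_sub (enc_rat _ 416061 175000) (enc_scale 49991 35000 h1)) (enc_mul (enc_norm (bf1q3_3.enc h1 h2)) (enc_norm (enc_sub (enc_rat _ 45483719 700000) (enc_scale 73279 1750 h1))))) (enc_add (enc_sub (enc_rat _ 2376987 1000000) (enc_scale 357 250 h1)) (enc_mul (enc_norm (bf1q3_3.enc h1 h2)) (enc_norm (enc_sub (enc_rat _ 3896171 60000) (enc_scale 94159 2250 h1)))))) (enc_case (enc_subr 177 100 h1) (enc_add (enc_sub (enc_rat _ 2376217 1000000) (enc_scale 21413 15000 h1)) (enc_mul (enc_norm (bf1q3_3.enc h1 h2)) (enc_norm (enc_sub (enc_rat _ 324383 5000) (enc_scale 125437 3000 h1)))))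 (enc_case (enc_subr 47 25 h1) (enc_add (enc_sub (enc_rat _ 408286 171875) (enc_scale 156983 110000 h1)) (enc_mul (enc_norm (bf1q3_3.enc h1 h2)) (enc_norm (enc_sub (enc_rat _ 71303431 1100000) (enc_scale 57449 1375 h1))))) (enc_add (enc_sub (enc_rat _ 7124887 3000000) (enc_scale 171221 120000 h1)) (enc_mul (enc_norm (bf1q3_3.enc h1 h2)) (enc_norm (enc_sub (enc_rat _ 6479387 100000) (enc_scale 83533 2000 h1)))))))))⟩
noncomputable def kf1q3 : Fn2 := ⟨_, _, fun h1 h2 => (enc_norm (enc_mul (cv1r.enc h1) (bf1q3.enc h1 h2)))⟩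
noncomputable def bx1q3_3 : Fn2 := ⟨_, _, fun h1 h2 => (enc_subr 251 400 h2)⟩
noncomputable def bx1q3 : Fn2 := ⟨_, _, fun h1 h2 => (enc_norm (enc_case (enc_subr 33 20 h1) (enc_case (enc_subr 321 200 h1) (enc_add (enc_subr 5048479 7000000 (enc_scale 72017 105000 h1)) (enc_mul (enc_norm (bx1q3_3.enc h1 h2)) (enc_norm (enc_subr 661691 50000 (enc_scale 499 60 h1))))) (enc_add (enc_subr 432953 600000 (enc_scale 247 360 h1)) (enc_mul (enc_norm (bx1q3_3.enc h1 h2)) (enc_norm (enc_subr 495653 37500 (enc_scale 37379 4500 h1)))))) (enc_case (enc_subr 177 100 h1) (enc_add (enc_subr 288793 400000 (enc_scale 13727 20000 h1)) (enc_mul (enc_norm (bx1q3_3.enc h1 h2)) (enc_norm (enc_subr 659459 50000 (enc_scale 6217 750 h1))))) (enc_case (enc_subr 47 25 h1) (enc_add (enc_subr 7942073 11000000 (enc_scale 151 220 h1)) (enc_mul (enc_norm (bx1q3_3.enc h1 h2)) (enc_norm (enc_subr 7235051 550000 (enc_scale 11371 1375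 h1))))) (enc_add (enc_subr 43301 60000 (enc_scale 82343 120000 h1)) (enc_mul (enc_norm (bx1q3_3.enc h1 h2)) (enc_norm (enc_subr 1970051 150000 (enc_scale 3097 375 h1)))))))))⟩
noncomputable def l1q3 : Fn2 := ⟨_, _, fun h1 h2 => (enc_norm (enc_mul (cv1r.enc h1) (bx1q3.enc h1 h2)))⟩
noncomputable def bd1q3 : Fn2 := ⟨_, _, fun h1 h2 => (enc_norm (enc_add (enc_add (enc_scale 148083 250000 h1) (enc_rat _ 1394297 500000)) (enc_mul (enc_norm (enc_subr 251 400 h2)) (enc_norm (enc_sub (enc_rat _ 2796173 100000) (enc_scale 107621 6250 h1))))))⟩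
noncomputable def kc1q3 : Fn2 := ⟨_, _, fun h1 h2 => (enc_norm (enc_mul (cv1r.enc h1) (bd1q3.enc h1 h2)))⟩
noncomputable def cv2m : Fn1 := ⟨_, _, fun h1 => (enc_norm (enc_add (enc_scale 3 4 (c1g.enc h1)) (enc_scale 1 4 (enc_add (swg.enc h1) (enc_rat _ 1 2)))))⟩
noncomputable def bf2q0_3 : Fn2 := ⟨_, _, fun h1 h2 => (enc_subr 251 400 h2)⟩
noncomputable def bf2q0 : Fn2 := ⟨_, _, fun h1 h2 => (enc_norm (enc_case (enc_subr 23 100 h1) (enc_case (enc_subr 3 25 h1) (enc_add (enc_sub (enc_pnc _ 1) (enc_scale 28567 24000 h1)) (enc_mul (enc_norm (bf2q0_3.enc h1 h2)) (enc_scale 6649 4000 h1))) (enc_add (enc_sub (enc_rat _ 12047239 11000000) (enc_scale 109101 55000 h1)) (enc_mul (enc_norm (bf2q0_3.enc h1 h2)) (enc_norm (enc_add (enc_scale 961 1000 h1) (enc_rat _ 1683 20000)))))) (enc_case (enc_subr 7 20 h1) (enc_add (enc_sub (enc_rat _ 6759907 6000000) (enc_scale 127223 60000 h1)) (enc_mul (enc_norm (bf2q0_3.enc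 h1 h2)) (enc_norm (enc_sub (enc_rat _ 1078871 1200000) (enc_scale 6197 2400 h1))))) (enc_case (enc_subr 79 200 h1) (enc_add (enc_sub (enc_rat _ 9971003 9000000) (enc_scale 18601 9000 h1)) (enc_mul (enc_norm (bf2q0_3.enc h1 h2)) (enc_norm (enc_sub (enc_rat _ 793097 900000) (enc_scale 1139 450 h1))))) (enc_add (enc_sub (enc_rat _ 22541507 21000000) (enc_scale 41569 21000 h1)) (enc_mul (enc_norm (bf2q0_3.enc h1 h2)) (enc_norm (enc_sub (enc_rat _ 1354387 2100000) (enc_scale 5074 2625 h1)))))))))⟩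
noncomputable def kf2q0 : Fn2 := ⟨_, _, fun h1 h2 => (enc_norm (enc_mul (cv2m.enc h1) (bf2q0.enc h1 h2)))⟩
noncomputable def bx2q0_3 : Fn2 := ⟨_, _, fun h1 h2 => (enc_subr 251 400 h2)⟩
noncomputable def bx2q0 : Fn2 := ⟨_, _, fun h1 h2 => (enc_norm (enc_case (enc_subr 23 100 h1) (enc_case (enc_subr 3 25 h1) (enc_add (enc_scale 1159 8000 h1) (enc_mul (enc_norm (bx2q0_3.enc h1 h2)) (enc_scale 161 2000 h1))) (enc_add (enc_add (enc_scale 13537 110000 h1) (enc_rat _ 28791 11000000)) (enc_mul (enc_norm (bx2q0_3.enc h1 h2)) (enc_norm (enc_sub (enc_rat _ 32547 550000) (enc_scale 4539 11000 h1)))))) (enc_case (enc_subr 7 20 h1) (enc_add (enc_add (enc_scale 2299 30000 h1) (enc_rat _ 39889 3000000)) (enc_mul (enc_norm (bx2q0_3.enc h1 h2)) (enc_norm (enc_subr 2969 48000 (enc_scale 1363 12000 h1))))) (enc_case (enc_subr 79 200 h1) (enc_add (enc_subr 57959 4500000 (enc_scale 3407 22500 h1)) (enc_mul (enc_norm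 (bx2q0_3.enc h1 h2)) (enc_norm (enc_sub (enc_rat _ 131 1500) (enc_scale 469 1500 h1))))) (enc_add (enc_subr 507607 21000000 (enc_scale 18901 105000 h1)) (enc_mul (enc_norm (bx2q0_3.enc h1 h2)) (enc_norm (enc_sub (enc_rat _ 294079 2100000) (enc_scale 1171 2625 h1)))))))))⟩
noncomputable def l2q0 : Fn2 := ⟨_, _, fun h1 h2 => (enc_norm (enc_mul (cv2m.enc h1) (bx2q0.enc h1 h2)))⟩
noncomputable def bd2q0 : Fn2 := ⟨_, _, fun h1 h2 => (enc_norm (enc_sub (enc_neg (enc_scale 359929 250000 h1)) (enc_mul (enc_norm (enc_subr 251 400 h2)) (enc_scale 35631 10000 h1))))⟩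
noncomputable def kc2q0 : Fn2 := ⟨_, _, fun h1 h2 => (enc_norm (enc_mul (cv2m.enc h1) (bd2q0.enc h1 h2)))⟩
noncomputable def bf2q1_3 : Fn2 := ⟨_, _, fun h1 h2 => (enc_subr 251 400 h2)⟩
noncomputable def bf2q1 : Fn2 := ⟨_, _, fun h1 h2 => (enc_norm (enc_case (enc_subr 67 100 h1) (enc_add (enc_subr 3248679 4250000 (enc_scale 136909 85000 h1)) (enc_mul (enc_norm (bf2q1_3.enc h1 h2)) (enc_norm (enc_sub (enc_rat _ 87759 850000) (enc_scale 5787 17000 h1))))) (enc_case (enc_subr 83 100 h1) (enc_add (enc_subr 720581 1000000 (enc_scale 15453 10000 h1)) (enc_mul (enc_norm (bf2q1_3.enc h1 h2)) (enc_norm (enc_subr 2183 6250 (enc_scale 67 200 h1))))) (enc_add (enc_subr 1424777 1700000 (enc_scale 71693 42500 h1)) (enc_mul (enc_norm (bf2q1_3.enc h1 h2)) (enc_norm (enc_subr 1921693 1700000 (enc_scale 10847 8500 h1))))))))⟩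
noncomputable def kf2q1 : Fn2 := ⟨_, _, fun h1 h2 => (enc_norm (enc_mul (cv2m.enc h1) (bf2q1.enc h1 h2)))⟩
noncomputable def bx2q1_3 : Fn2 := ⟨_, _, fun h1 h2 => (enc_subr 251 400 h2)⟩
noncomputable def bx2q1 : Fn2 := ⟨_, _, fun h1 h2 => (enc_norm (enc_case (enc_subr 67 100 h1) (enc_add (enc_add (enc_scale 7627 170000 h1) (enc_rat _ 22741 680000)) (enc_mul (enc_norm (bx2q1_3.enc h1 h2)) (enc_norm (enc_subr 28353 1700000 (enc_neg (enc_scale 159 2125 h1)))))) (enc_case (enc_subr 83 100 h1) (enc_add (enc_sub (enc_rat _ 549087 8000000) (enc_scale 613 80000 h1)) (enc_mul (enc_norm (bx2q1_3.enc h1 h2)) (enc_norm (enc_subr 10031 100000 (enc_scale 1 20 h1))))) (enc_add (enc_subr 1998779 17000000 (enc_scale 36837 170000 h1)) (enc_mul (enc_norm (bx2q1_3.enc h1 h2)) (enc_norm (enc_sub (enc_rat _ 743533 850000) (enc_scale 19121 17000 h1))))))))⟩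
noncomputable def l2q1 : Fn2 := ⟨_, _, fun h1 h2 => (enc_norm (enc_mul (cv2m.enc h1) (bx2q1.enc h1 h2)))⟩
noncomputable def bd2q1 : Fn2 := ⟨_, _, fun h1 h2 => (enc_norm (enc_add (enc_sub (enc_rat _ 920449 250000) (enc_scale 1008073 250000 h1)) (enc_mul (enc_norm (enc_subr 251 400 h2)) (enc_norm (enc_subr 163613 100000 (enc_scale 9129 12500 h1))))))⟩
noncomputable def kc2q1 : Fn2 := ⟨_, _, fun h1 h2 => (enc_norm (enc_mul (cv2m.enc h1) (bd2q1.enc h1 h2)))⟩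
noncomputable def xc22a : Fn1 := ⟨_, _, fun h1 => (enc_norm (enc_add (enc_scale 3 4 h1) (enc_scale 1 4 (enc_subr 1 2 (swg.enc (yag.enc h1))))))⟩
noncomputable def kfc22a_11 : Fn2 := ⟨_, _, fun h1 h2 => (enc_subr 251 400 h2)⟩
noncomputable def kfc22a : Fn2 := ⟨_, _, fun h1 h2 => (enc_norm (enc_mul (enc_norm (enc_add (enc_scale 3 4 h1) (enc_scale 1 4 (enc_subr 1 2 (swg.enc (yag.enc h1)))))) (enc_norm (enc_case (enc_subr 1 4 h1) (enc_case (enc_subr 1 10 h1) (enc_case (enc_subr 1 20 h1) (enc_add (enc_sub (enc_rat _ 644267 1000000) (enc_scale 3021 25000 h1)) (enc_mul (enc_norm (kfc22a_11.enc h1 h2)) (enc_norm (enc_subr 35099 50000 (enc_scale 9213 1250 h1))))) (enc_add (enc_sub (enc_rat _ 20083 31250) (enc_scale 4431 50000 h1)) (enc_mul (enc_norm (kfc22a_11.enc h1 h2)) (enc_norm (enc_subr 33631 50000 (enc_scale 8479 1250 h1)))))) (enc_case (enc_subr 3 20 h1) (enc_add (enc_add (enc_scale 3963 50000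 h1) (enc_rat _ 156467 250000)) (enc_mul (enc_norm (kfc22a_11.enc h1 h2)) (enc_norm (enc_subr 6017 12500 (enc_scale 24353 5000 h1))))) (enc_case (enc_subr 1 5 h1) (enc_add (enc_add (enc_scale 55053 50000 h1) (enc_rat _ 236299 500000)) (enc_mul (enc_norm (kfc22a_11.enc h1 h2)) (enc_norm (enc_add (enc_scale 1653 5000 h1) (enc_rat _ 4991 25000))))) (enc_add (enc_add (enc_scale 65341 50000 h1) (enc_rat _ 215723 500000)) (enc_mul (enc_norm (kfc22a_11.enc h1 h2)) (enc_norm (enc_sub (enc_rat _ 15611 25000) (enc_scale 8967 5000 h1)))))))) (enc_case (enc_subr 7 20 h1) (enc_case (enc_subr 3 10 h1) (enc_add (enc_add (enc_scale 33827 25000 h1) (enc_rat _ 419881 1000000)) (enc_mul (enc_norm (kfc22a_11.enc h1 h2)) (enc_norm (enc_sub (enc_rat _ 40207 50000) (enc_scale 12561 5000 h1))))) (enc_add (enc_add (enc_scale 67339 50000 h1) (enc_rat _ 421771 1000000)) (enc_mul (enc_norm (kfc22a_11.enc h1 h2)) (enc_norm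 (enc_sub (enc_rat _ 17417 25000) (enc_scale 1077 500 h1)))))) (enc_case (enc_subr 2 5 h1) (enc_add (enc_add (enc_scale 29999 25000 h1) (enc_rat _ 236579 500000)) (enc_mul (enc_norm (kfc22a_11.enc h1 h2)) (enc_norm (enc_sub (enc_rat _ 7233 50000) (enc_scale 721 1250 h1))))) (enc_case (enc_subr 9 20 h1) (enc_add (enc_add (enc_scale 13347 25000 h1) (enc_rat _ 73959 100000)) (enc_mul (enc_norm (kfc22a_11.enc h1 h2)) (enc_norm (enc_subr 17271 50000 (enc_scale 1621 2500 h1))))) (enc_add (enc_add (enc_scale 5041 12500 h1) (enc_rat _ 19959 25000)) (enc_mul (enc_norm (kfc22a_11.enc h1 h2)) (enc_norm (enc_subr 1341 2500 (enc_scale 1341 1250 h1))))))))))))⟩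
noncomputable def lc22a_11 : Fn2 := ⟨_, _, fun h1 h2 => (enc_subr 251 400 h2)⟩
noncomputable def lc22a : Fn2 := ⟨_, _, fun h1 h2 => (enc_norm (enc_mul (enc_norm (enc_add (enc_scale 3 4 h1) (enc_scale 1 4 (enc_subr 1 2 (swg.enc (yag.enc h1)))))) (enc_norm (enc_case (enc_subr 1 4 h1) (enc_case (enc_subr 1 10 h1) (enc_case (enc_subr 1 20 h1) (enc_add (enc_subr 495693 1000000 (enc_scale 9717 10000 h1)) (enc_mul (enc_norm (lc22a_11.enc h1 h2)) (enc_norm (enc_subr 95383 100000 (enc_scale 4729 1250 h1))))) (enc_add (enc_subr 102169 200000 (enc_scale 63737 50000 h1)) (enc_mul (enc_norm (lc22a_11.enc h1 h2)) (enc_norm (enc_subr 2447 2500 (enc_scale 21413 5000 h1)))))) (enc_case (enc_subr 3 20 h1) (enc_add (enc_subr 509647 1000000 (enc_scale 31569 25000 h1)) (enc_mul (enc_norm (lc22a_11.enc h1 h2)) (enc_norm (enc_subr 6309 6250 (enc_scale 4589 1000 h1))))) (enc_case (enc_subr 1 5 h1) (enc_add (enc_subr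 514579 1000000 (enc_scale 32391 25000 h1)) (enc_mul (enc_norm (lc22a_11.enc h1 h2)) (enc_norm (enc_subr 411 800 (enc_scale 3211 2500 h1))))) (enc_add (enc_subr 550263 1000000 (enc_scale 73703 50000 h1)) (enc_mul (enc_norm (lc22a_11.enc h1 h2)) (enc_norm (enc_sub (enc_rat _ 35917 100000) (enc_scale 15401 5000 h1)))))))) (enc_case (enc_subr 7 20 h1) (enc_case (enc_subr 3 10 h1) (enc_add (enc_subr 274729 500000 (enc_scale 36771 25000 h1)) (enc_mul (enc_norm (lc22a_11.enc h1 h2)) (enc_norm (enc_sub (enc_rat _ 4873 25000) (enc_scale 3029 1250 h1))))) (enc_add (enc_subr 48427 125000 (enc_scale 9307 10000 h1)) (enc_mul (enc_norm (lc22a_11.enc h1 h2)) (enc_norm (enc_subr 26327 25000 (enc_scale 2171 1250 h1)))))) (enc_case (enc_subr 2 5 h1) (enc_add (enc_subr 261381 1000000 (enc_scale 2853 5000 h1)) (enc_mul (enc_norm (lc22a_11.enc h1 h2)) (enc_norm (enc_subr 29617 20000 (enc_scale 2959 1000 h1)))))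 (enc_case (enc_subr 9 20 h1) (enc_add (enc_subr 190197 1000000 (enc_scale 1227 3125 h1)) (enc_mul (enc_norm (lc22a_11.enc h1 h2)) (enc_norm (enc_subr 148629 100000 (enc_scale 14863 5000 h1))))) (enc_add (enc_subr 13509 100000 (enc_scale 13509 50000 h1)) (enc_mul (enc_norm (lc22a_11.enc h1 h2)) (enc_norm (enc_subr 7431 5000 (enc_scale 7431 2500 h1))))))))))))⟩
noncomputable def kcc22a_11 : Fn2 := ⟨_, _, fun h1 h2 => (enc_subr 251 400 h2)⟩
noncomputable def kcc22a : Fn2 := ⟨_, _, fun h1 h2 => (enc_norm (enc_mul (enc_norm (enc_add (enc_scale 3 4 h1) (enc_scale 1 4 (enc_subr 1 2 (swg.enc (yag.enc h1)))))) (enc_norm (enc_case (enc_subr 1 4 h1) (enc_add (enc_subr 378827 1000000 (enc_scale 42927 31250 h1)) (enc_mul (enc_norm (kcc22a_11.enc h1 h2)) (enc_norm (enc_sub (enc_rat _ 656927 100000) (enc_scale 480741 25000 h1))))) (enc_add (enc_subr 35411 500000 (enc_scale 35411 250000 h1)) (enc_mul (enc_norm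 (kcc22a_11.enc h1 h2)) (enc_norm (enc_sub (enc_rat _ 88093 25000) (enc_scale 88093 12500 h1)))))))))⟩
noncomputable def xc22b : Fn1 := ⟨_, _, fun h1 => (enc_norm (enc_scale 1 4 (enc_subr 1 2 (swg.enc h1))))⟩
noncomputable def kfc22b_9 : Fn2 := ⟨_, _, fun h1 h2 => (enc_subr 251 400 h2)⟩
noncomputable def kfc22b : Fn2 := ⟨_, _, fun h1 h2 => (enc_norm (enc_mul (enc_norm (enc_scale 1 4 (enc_subr 1 2 (swg.enc h1)))) (enc_norm (enc_case (enc_subr 127 100 h1) (enc_add (enc_sub (enc_rat _ 403757369 58000000) (enc_scale 634521 116000 h1)) (enc_mul (enc_norm (kfc22b_9.enc h1 h2)) (enc_norm (enc_subr 18197483 725000 (enc_scale 61269 2900 h1))))) (enc_case (enc_subr 69 50 h1) (enc_add (enc_sub (enc_rat _ 32738837 5500000) (enc_scale 514323 110000 h1)) (enc_mul (enc_norm (kfc22b_9.enc h1 h2)) (enc_norm (enc_subr 311703 22000 (enc_scale 34429 2750 h1))))) (enc_add (enc_sub (enc_rat _ 11788591 2000000) (enc_scale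 185339 40000 h1)) (enc_mul (enc_norm (kfc22b_9.enc h1 h2)) (enc_norm (enc_subr 545049 50000 (enc_scale 1269 125 h1))))))))))⟩
noncomputable def lc22b_9 : Fn2 := ⟨_, _, fun h1 h2 => (enc_subr 251 400 h2)⟩
noncomputable def lc22b : Fn2 := ⟨_, _, fun h1 h2 => (enc_norm (enc_mul (enc_norm (enc_scale 1 4 (enc_subr 1 2 (swg.enc h1)))) (enc_norm (enc_case (enc_subr 127 100 h1) (enc_add (enc_subr 793863 232000 (enc_scale 146979 58000 h1)) (enc_mul (enc_norm (lc22b_9.enc h1 h2)) (enc_norm (enc_sub (enc_rat _ 1006033 200000) (enc_scale 2073 400 h1))))) (enc_case (enc_subr 69 50 h1) (enc_add (enc_subr 37439361 11000000 (enc_scale 277173 110000 h1)) (enc_mul (enc_norm (lc22b_9.enc h1 h2)) (enc_norm (enc_sub (enc_rat _ 6808579 1100000) (enc_scale 1341 220 h1))))) (enc_add (enc_subr 1699417 500000 (enc_scale 150979 60000 h1)) (enc_mul (enc_norm (lc22b_9.enc h1 h2)) (enc_norm (enc_sub (enc_rat _ 274373 40000)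 (enc_scale 26323 4000 h1))))))))))⟩
noncomputable def kcc22b : Fn2 := ⟨_, _, fun h1 h2 => (enc_norm (enc_mul (enc_norm (enc_scale 1 4 (enc_subr 1 2 (swg.enc h1)))) (enc_norm (enc_add (enc_subr 641426857 43250000 (enc_scale 4330419 346000 h1)) (enc_mul (enc_norm (enc_subr 251 400 h2)) (enc_norm (enc_sub (enc_rat _ 330402101 4325000) (enc_scale 2092229 34600 h1))))))))⟩
noncomputable def cv2r : Fn1 := ⟨_, _, fun h1 => (enc_norm (enc_scale 1 4 (enc_subr 1 2 (swg.enc h1))))⟩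
noncomputable def bf2q3_3 : Fn2 := ⟨_, _, fun h1 h2 => (enc_subr 251 400 h2)⟩
noncomputable def bf2q3 : Fn2 := ⟨_, _, fun h1 h2 => (enc_norm (enc_case (enc_subr 33 20 h1) (enc_case (enc_subr 321 200 h1) (enc_add (enc_sub (enc_rat _ 8304749 3500000) (enc_scale 37453 26250 h1)) (enc_mul (enc_norm (bf2q3_3.enc h1 h2)) (enc_norm (enc_sub (enc_rat _ 11639767 175000) (enc_scale 37416 875 h1))))) (enc_add (enc_sub (enc_rat _ 110771 46875) (enc_scale 31967 22500 h1)) (enc_mul (enc_norm (bf2q3_3.enc h1 h2)) (enc_norm (enc_sub (enc_rat _ 49603 750) (enc_scale 47843 1125 h1)))))) (enc_case (enc_subr 177 100 h1) (enc_add (enc_sub (enc_rat _ 4696951 2000000) (enc_scale 84713 60000 h1)) (enc_mul (enc_norm (bf2q3_3.enc h1 h2)) (enc_norm (enc_sub (enc_rat _ 1312733 20000) (enc_scale 126671 3000 h1))))) (enc_case (enc_subr 47 25 h1) (enc_add (enc_sub (enc_rat _ 25791429 11000000) (enc_scale 155071 110000 h1))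 (enc_mul (enc_norm (bf2q3_3.enc h1 h2)) (enc_norm (enc_sub (enc_rat _ 72089631 1100000) (enc_scale 92767 2200 h1))))) (enc_add (enc_sub (enc_rat _ 2339437 1000000) (enc_scale 28139 20000 h1)) (enc_mul (enc_norm (bf2q3_3.enc h1 h2)) (enc_norm (enc_sub (enc_rat _ 4901539 75000) (enc_scale 504839 12000 h1)))))))))⟩
noncomputable def kf2q3 : Fn2 := ⟨_, _, fun h1 h2 => (enc_norm (enc_mul (cv2r.enc h1) (bf2q3.enc h1 h2)))⟩
noncomputable def bx2q3_3 : Fn2 := ⟨_, _, fun h1 h2 => (enc_subr 251 400 h2)⟩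
noncomputable def bx2q3 : Fn2 := ⟨_, _, fun h1 h2 => (enc_norm (enc_case (enc_subr 33 20 h1) (enc_case (enc_subr 321 200 h1) (enc_add (enc_subr 1270921 1750000 (enc_scale 2867 4200 h1)) (enc_mul (enc_norm (bx2q3_3.enc h1 h2)) (enc_norm (enc_subr 1765033 140000 (enc_scale 13843 1750 h1))))) (enc_add (enc_subr 547493 750000 (enc_scale 30823 45000 h1)) (enc_mul (enc_norm (bx2q3_3.enc h1 h2)) (enc_norm (enc_subr 941453 75000 (enc_scale 35443 4500 h1)))))) (enc_case (enc_subr 177 100 h1) (enc_add (enc_subr 368057 500000 (enc_scale 1033 1500 h1)) (enc_mul (enc_norm (bx2q3_3.enc h1 h2)) (enc_norm (enc_subr 2498423 200000 (enc_scale 15679 2000 h1))))) (enc_case (enc_subr 47 25 h1) (enc_add (enc_subr 74343 100000 (enc_scale 433 625 h1)) (enc_mul (enc_norm (bx2q3_3.enc h1 h2)) (enc_norm (enc_subr 3452213 275000 (enc_scale 10827 1375 h1))))) (enc_add (enc_subr 2235883 3000000 (enc_scale 16651 24000 h1))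 (enc_mul (enc_norm (bx2q3_3.enc h1 h2)) (enc_norm (enc_subr 118244 9375 (enc_scale 23717 3000 h1)))))))))⟩
noncomputable def l2q3 : Fn2 := ⟨_, _, fun h1 h2 => (enc_norm (enc_mul (cv2r.enc h1) (bx2q3.enc h1 h2)))⟩
noncomputable def bd2q3 : Fn2 := ⟨_, _, fun h1 h2 => (enc_norm (enc_add (enc_add (enc_scale 165153 250000 h1) (enc_rat _ 1334511 500000)) (enc_mul (enc_norm (enc_subr 251 400 h2)) (enc_norm (enc_sub (enc_rat _ 2593637 100000) (enc_scale 796583 50000 h1))))))⟩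
noncomputable def kc2q3 : Fn2 := ⟨_, _, fun h1 h2 => (enc_norm (enc_mul (cv2r.enc h1) (bd2q3.enc h1 h2)))⟩
noncomputable def cv3m : Fn1 := ⟨_, _, fun h1 => (enc_norm (enc_add (enc_half (c1g.enc h1)) (enc_half (enc_add (swg.enc h1) (enc_rat _ 1 2)))))⟩
noncomputable def bf3q0_3 : Fn2 := ⟨_, _, fun h1 h2 => (enc_subr 251 400 h2)⟩
noncomputable def bf3q0 : Fn2 := ⟨_, _, fun h1 h2 => (enc_norm (enc_case (enc_subr 23 100 h1) (enc_case (enc_subr 3 25 h1) (enc_add (enc_sub (enc_pnc _ 1) (enc_scale 12623 8000 h1)) (enc_mul (enc_norm (bf3q0_3.enc h1 h2)) (enc_scale 2287 600 h1))) (enc_add (enc_sub (enc_rat _ 11630033 11000000) (enc_scale 226069 110000 h1)) (enc_mul (enc_norm (bf3q0_3.enc h1 h2)) (enc_norm (enc_add (enc_scale 25987 11000 h1) (enc_rat _ 5978 34375)))))) (enc_case (enc_subr 7 20 h1) (enc_add (enc_sub (enc_rat _ 6509269 6000000) (enc_scale 130511 60000 h1)) (enc_mul (enc_norm (bf3q0_3.enc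 h1 h2)) (enc_norm (enc_sub (enc_rat _ 816253 400000) (enc_scale 4603 800 h1))))) (enc_case (enc_subr 79 200 h1) (enc_add (enc_sub (enc_rat _ 2443369 2250000) (enc_scale 4901 2250 h1)) (enc_mul (enc_norm (bf3q0_3.enc h1 h2)) (enc_norm (enc_sub (enc_rat _ 34234 28125) (enc_scale 3061 900 h1))))) (enc_add (enc_sub (enc_rat _ 4566733 4200000) (enc_scale 229079 105000 h1)) (enc_mul (enc_norm (bf3q0_3.enc h1 h2)) (enc_norm (enc_sub (enc_rat _ 384513 350000) (enc_scale 10853 3500 h1)))))))))⟩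
noncomputable def kf3q0 : Fn2 := ⟨_, _, fun h1 h2 => (enc_norm (enc_mul (cv3m.enc h1) (bf3q0.enc h1 h2)))⟩
noncomputable def bx3q0_3 : Fn2 := ⟨_, _, fun h1 h2 => (enc_subr 251 400 h2)⟩
noncomputable def bx3q0 : Fn2 := ⟨_, _, fun h1 h2 => (enc_norm (enc_case (enc_subr 23 100 h1) (enc_case (enc_subr 3 25 h1) (enc_add (enc_scale 14407 60000 h1) (enc_mul (enc_norm (bx3q0_3.enc h1 h2)) (enc_scale 2747 6000 h1))) (enc_add (enc_add (enc_scale 12773 55000 h1) (enc_rat _ 5201 5500000)) (enc_mul (enc_norm (bx3q0_3.enc h1 h2)) (enc_norm (enc_add (enc_scale 421 2750 h1) (enc_rat _ 20113 550000)))))) (enc_case (enc_subr 7 20 h1) (enc_add (enc_add (enc_scale 4259 60000 h1) (enc_rat _ 228203 6000000)) (enc_mul (enc_norm (bx3q0_3.enc h1 h2)) (enc_norm (enc_sub (enc_rat _ 85177 400000) (enc_scale 491 800 h1))))) (enc_case (enc_subr 79 200 h1) (enc_add (enc_sub (enc_rat _ 294221 4500000) (enc_scale 161 22500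 h1)) (enc_mul (enc_norm (bx3q0_3.enc h1 h2)) (enc_norm (enc_sub (enc_rat _ 241217 900000) (enc_scale 347 450 h1))))) (enc_add (enc_sub (enc_rat _ 370289 5250000) (enc_scale 53 2625 h1)) (enc_mul (enc_norm (bx3q0_3.enc h1 h2)) (enc_norm (enc_sub (enc_rat _ 16711 75000) (enc_scale 197 300 h1)))))))))⟩
noncomputable def l3q0 : Fn2 := ⟨_, _, fun h1 h2 => (enc_norm (enc_mul (cv3m.enc h1) (bx3q0.enc h1 h2)))⟩
noncomputable def bd3q0 : Fn2 := ⟨_, _, fun h1 h2 => (enc_norm (enc_sub (enc_neg (enc_scale 1731261 500000 h1)) (enc_mul (enc_norm (enc_subr 251 400 h2)) (enc_scale 121829 50000 h1))))⟩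
noncomputable def kc3q0 : Fn2 := ⟨_, _, fun h1 h2 => (enc_norm (enc_mul (cv3m.enc h1) (bd3q0.enc h1 h2)))⟩
noncomputable def bf3q1_3 : Fn2 := ⟨_, _, fun h1 h2 => (enc_subr 251 400 h2)⟩
noncomputable def bf3q1 : Fn2 := ⟨_, _, fun h1 h2 => (enc_norm (enc_case (enc_subr 67 100 h1) (enc_add (enc_subr 535167 1000000 (enc_scale 2899 2000 h1)) (enc_mul (enc_norm (bf3q1_3.enc h1 h2)) (enc_norm (enc_sub (enc_rat _ 20839 1700000) (enc_scale 2509 8500 h1))))) (enc_case (enc_subr 83 100 h1) (enc_add (enc_subr 1407889 4000000 (enc_scale 47043 40000 h1)) (enc_mul (enc_norm (bf3q1_3.enc h1 h2)) (enc_norm (enc_subr 284753 800000 (enc_scale 407 1600 h1))))) (enc_add (enc_subr 1019653 8500000 (enc_scale 38103 42500 h1)) (enc_mul (enc_norm (bf3q1_3.enc h1 h2)) (enc_norm (enc_subr 745373 340000 (enc_scale 5242 2125 h1))))))))⟩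
noncomputable def kf3q1 : Fn2 := ⟨_, _, fun h1 h2 => (enc_norm (enc_mul (cv3m.enc h1) (bf3q1.enc h1 h2)))⟩
noncomputable def bx3q1_3 : Fn2 := ⟨_, _, fun h1 h2 => (enc_subr 251 400 h2)⟩
noncomputable def bx3q1 : Fn2 := ⟨_, _, fun h1 h2 => (enc_norm (enc_case (enc_subr 67 100 h1) (enc_add (enc_sub (enc_rat _ 35969 212500) (enc_scale 1933 8500 h1)) (enc_mul (enc_norm (bx3q1_3.enc h1 h2)) (enc_norm (enc_subr 462567 1700000 (enc_scale 2781 8500 h1))))) (enc_case (enc_subr 83 100 h1) (enc_add (enc_sub (enc_rat _ 2636907 16000000) (enc_scale 35321 160000 h1)) (enc_mul (enc_norm (bx3q1_3.enc h1 h2)) (enc_norm (enc_sub (enc_rat _ 17473 320000) (enc_scale 2567 16000 h1))))) (enc_add (enc_subr 873367 4250000 (enc_scale 38317 170000 h1)) (enc_mul (enc_norm (bx3q1_3.enc h1 h2)) (enc_norm (enc_sub (enc_rat _ 289997 1700000) (enc_scale 5103 17000 h1))))))))⟩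
noncomputable def l3q1 : Fn2 := ⟨_, _, fun h1 h2 => (enc_norm (enc_mul (cv3m.enc h1) (bx3q1.enc h1 h2)))⟩
noncomputable def bd3q1 : Fn2 := ⟨_, _, fun h1 h2 => (enc_norm (enc_add (enc_sub (enc_rat _ 590397 250000) (enc_scale 161081 62500 h1)) (enc_mul (enc_norm (enc_subr 251 400 h2)) (enc_norm (enc_subr 415097 100000 (enc_scale 18219 5000 h1))))))⟩
noncomputable def kc3q1 : Fn2 := ⟨_, _, fun h1 h2 => (enc_norm (enc_mul (cv3m.enc h1) (bd3q1.enc h1 h2)))⟩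
noncomputable def xc32a : Fn1 := ⟨_, _, fun h1 => (enc_norm (enc_add (enc_half h1) (enc_half (enc_subr 1 2 (swg.enc (yag.enc h1))))))⟩
noncomputable def kfc32a_11 : Fn2 := ⟨_, _, fun h1 h2 => (enc_subr 251 400 h2)⟩
noncomputable def kfc32a : Fn2 := ⟨_, _, fun h1 h2 => (enc_norm (enc_mul (enc_norm (enc_add (enc_half h1) (enc_half (enc_subr 1 2 (swg.enc (yag.enc h1)))))) (enc_norm (enc_case (enc_subr 1 4 h1) (enc_case (enc_subr 1 10 h1) (enc_case (enc_subr 1 20 h1) (enc_add (enc_add (enc_scale 52483 50000 h1) (enc_rat _ 17907 40000)) (enc_mul (enc_norm (kfc32a_11.enc h1 h2)) (enc_norm (enc_subr 26319 100000 (enc_scale 28773 2500 h1))))) (enc_add (enc_add (enc_scale 53229 50000 h1) (enc_rat _ 446929 1000000)) (enc_mul (enc_norm (kfc32a_11.enc h1 h2)) (enc_norm (enc_subr 11041 50000 (enc_scale 53309 5000 h1)))))) (enc_case (enc_subr 3 20 h1) (enc_add (enc_add (enc_scale 3521 3125 h1) (enc_rat _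 88143 200000)) (enc_mul (enc_norm (kfc32a_11.enc h1 h2)) (enc_norm (enc_add (enc_scale 37677 5000 h1) (enc_rat _ 4591 50000))))) (enc_case (enc_subr 1 5 h1) (enc_add (enc_add (enc_scale 68287 50000 h1) (enc_rat _ 202431 500000)) (enc_mul (enc_norm (kfc32a_11.enc h1 h2)) (enc_norm (enc_sub (enc_rat _ 48701 25000) (enc_scale 24197 5000 h1))))) (enc_add (enc_add (enc_scale 877 625 h1) (enc_rat _ 39737 100000)) (enc_mul (enc_norm (kfc32a_11.enc h1 h2)) (enc_norm (enc_sub (enc_rat _ 5929 2500) (enc_scale 17393 2500 h1)))))))) (enc_case (enc_subr 7 20 h1) (enc_case (enc_subr 3 10 h1) (enc_add (enc_add (enc_scale 69687 50000 h1) (enc_rat _ 79947 200000)) (enc_mul (enc_norm (kfc32a_11.enc h1 h2)) (enc_norm (enc_sub (enc_rat _ 23367 10000) (enc_scale 4261 625 h1))))) (enc_add (enc_add (enc_scale 65827 50000 h1) (enc_rat _ 84579 200000)) (enc_mul (enc_norm (kfc32a_11.enc h1 h2)) (enc_norm (enc_sub (enc_rat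 _ 90849 50000) (enc_scale 12713 2500 h1)))))) (enc_case (enc_subr 2 5 h1) (enc_add (enc_add (enc_scale 55869 50000 h1) (enc_rat _ 492601 1000000)) (enc_mul (enc_norm (kfc32a_11.enc h1 h2)) (enc_norm (enc_sub (enc_rat _ 47337 50000) (enc_scale 6497 2500 h1))))) (enc_case (enc_subr 9 20 h1) (enc_add (enc_add (enc_scale 33937 50000 h1) (enc_rat _ 668057 1000000)) (enc_mul (enc_norm (kfc32a_11.enc h1 h2)) (enc_norm (enc_subr 2139 10000 (enc_scale 757 2500 h1))))) (enc_add (enc_add (enc_scale 2651 5000 h1) (enc_rat _ 7349 10000)) (enc_mul (enc_norm (kfc32a_11.enc h1 h2)) (enc_norm (enc_subr 1941 2500 (enc_scale 1941 1250 h1))))))))))))⟩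
noncomputable def lc32a_11 : Fn2 := ⟨_, _, fun h1 h2 => (enc_subr 251 400 h2)⟩
noncomputable def lc32a : Fn2 := ⟨_, _, fun h1 h2 => (enc_norm (enc_mul (enc_norm (enc_add (enc_half h1) (enc_half (enc_subr 1 2 (swg.enc (yag.enc h1)))))) (enc_norm (enc_case (enc_subr 1 4 h1) (enc_case (enc_subr 1 10 h1) (enc_case (enc_subr 1 20 h1) (enc_add (enc_subr 5983 20000 (enc_scale 2683 3125 h1)) (enc_mul (enc_norm (lc32a_11.enc h1 h2)) (enc_norm (enc_subr 39841 100000 (enc_neg (enc_scale 1131 2500 h1)))))) (enc_add (enc_subr 299179 1000000 (enc_scale 42957 50000 h1)) (enc_mul (enc_norm (lc32a_11.enc h1 h2)) (enc_norm (enc_subr 4969 12500 (enc_neg (enc_scale 2351 5000 h1))))))) (enc_case (enc_subr 3 20 h1) (enc_add (enc_subr 299303 1000000 (enc_scale 43019 50000 h1)) (enc_mul (enc_norm (lc32a_11.enc h1 h2)) (enc_norm (enc_subr 8857 25000 (enc_neg (enc_scale 4513 5000 h1)))))) (enc_case (enc_subr 1 5 h1)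 (enc_add (enc_subr 299453 1000000 (enc_scale 43069 50000 h1)) (enc_mul (enc_norm (lc32a_11.enc h1 h2)) (enc_norm (enc_subr 25021 100000 (enc_neg (enc_scale 3991 2500 h1)))))) (enc_add (enc_subr 290373 1000000 (enc_scale 40799 50000 h1)) (enc_mul (enc_norm (lc32a_11.enc h1 h2)) (enc_norm (enc_subr 41477 100000 (enc_neg (enc_scale 967 1250 h1))))))))) (enc_case (enc_subr 7 20 h1) (enc_case (enc_subr 3 10 h1) (enc_add (enc_subr 60717 250000 (enc_scale 15649 25000 h1)) (enc_mul (enc_norm (lc32a_11.enc h1 h2)) (enc_norm (enc_subr 47501 50000 (enc_scale 6837 5000 h1))))) (enc_add (enc_subr 3591 20000 (enc_scale 4149 10000 h1)) (enc_mul (enc_norm (lc32a_11.enc h1 h2)) (enc_norm (enc_subr 68357 50000 (enc_scale 13789 5000 h1)))))) (enc_case (enc_subr 2 5 h1) (enc_add (enc_subr 33691 250000 (enc_scale 14347 50000 h1)) (enc_mul (enc_norm (lc32a_11.enc h1 h2)) (enc_norm (enc_subr 148103 100000 (enc_scale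 1927 625 h1))))) (enc_case (enc_subr 9 20 h1) (enc_add (enc_subr 26279 250000 (enc_scale 10641 50000 h1)) (enc_mul (enc_norm (lc32a_11.enc h1 h2)) (enc_norm (enc_subr 137487 100000 (enc_scale 14089 5000 h1))))) (enc_add (enc_subr 9347 100000 (enc_scale 9347 50000 h1)) (enc_mul (enc_norm (lc32a_11.enc h1 h2)) (enc_norm (enc_subr 5343 5000 (enc_scale 5343 2500 h1))))))))))))⟩
noncomputable def kcc32a_11 : Fn2 := ⟨_, _, fun h1 h2 => (enc_subr 251 400 h2)⟩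
noncomputable def kcc32a : Fn2 := ⟨_, _, fun h1 h2 => (enc_norm (enc_mul (enc_norm (enc_add (enc_half h1) (enc_half (enc_subr 1 2 (swg.enc (yag.enc h1)))))) (enc_norm (enc_case (enc_subr 1 4 h1) (enc_add (enc_subr 34319 62500 (enc_scale 268109 125000 h1)) (enc_mul (enc_norm (kcc32a_11.enc h1 h2)) (enc_norm (enc_sub (enc_rat _ 187741 20000) (enc_scale 100969 3125 h1))))) (enc_add (enc_subr 6443 250000 (enc_scale 6443 125000 h1)) (enc_mul (enc_norm (kcc32a_11.enc h1 h2)) (enc_norm (enc_sub (enc_rat _ 130953 50000) (enc_scale 130953 25000 h1)))))))))⟩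
noncomputable def xc32b : Fn1 := ⟨_, _, fun h1 => (enc_norm (enc_half (enc_subr 1 2 (swg.enc h1))))⟩
noncomputable def kfc32b_9 : Fn2 := ⟨_, _, fun h1 h2 => (enc_subr 251 400 h2)⟩
noncomputable def kfc32b : Fn2 := ⟨_, _, fun h1 h2 => (enc_norm (enc_mul (enc_norm (enc_half (enc_subr 1 2 (swg.enc h1)))) (enc_norm (enc_case (enc_subr 127 100 h1) (enc_add (enc_sub (enc_rat _ 45916327 5800000) (enc_scale 375201 58000 h1)) (enc_mul (enc_norm (kfc32b_9.enc h1 h2)) (enc_norm (enc_subr 243530161 5800000 (enc_scale 83737 2320 h1))))) (enc_case (enc_subr 69 50 h1) (enc_add (enc_sub (enc_rat _ 67567 110000) (enc_scale 791 1100 h1)) (enc_mul (enc_norm (kfc32b_9.enc h1 h2)) (enc_norm (enc_sub (enc_rat _ 1031767 100000) (enc_scale 1273 250 h1))))) (enc_add (enc_sub (enc_rat _ 901341 2000000) (enc_scale 72067 120000 h1)) (enc_mul (enc_norm (kfc32b_9.enc h1 h2)) (enc_norm (enc_sub (enc_rat _ 1447147 100000)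 (enc_scale 4051 500 h1))))))))))⟩
noncomputable def lc32b_9 : Fn2 := ⟨_, _, fun h1 h2 => (enc_subr 251 400 h2)⟩
noncomputable def lc32b : Fn2 := ⟨_, _, fun h1 h2 => (enc_norm (enc_mul (enc_norm (enc_half (enc_subr 1 2 (swg.enc h1)))) (enc_norm (enc_case (enc_subr 127 100 h1) (enc_add (enc_subr 53497811 29000000 (enc_scale 4852 3625 h1)) (enc_mul (enc_norm (lc32b_9.enc h1 h2)) (enc_norm (enc_sub (enc_rat _ 12942847 2900000) (enc_scale 24427 5800 h1))))) (enc_case (enc_subr 69 50 h1) (enc_add (enc_subr 27299739 11000000 (enc_scale 20241 11000 h1)) (enc_mul (enc_norm (lc32b_9.enc h1 h2)) (enc_norm (enc_sub (enc_rat _ 1132847 220000) (enc_scale 52271 11000 h1))))) (enc_add (enc_subr 364963 125000 (enc_scale 25889 12000 h1)) (enc_mul (enc_norm (lc32b_9.enc h1 h2)) (enc_norm (enc_sub (enc_rat _ 1342483 100000) (enc_scale 16123 1500 h1))))))))))⟩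
noncomputable def kcc32b : Fn2 := ⟨_, _, fun h1 h2 => (enc_norm (enc_mul (enc_norm (enc_half (enc_subr 1 2 (swg.enc h1)))) (enc_norm (enc_add (enc_subr 2726857173 173000000 (enc_scale 1139619 86500 h1)) (enc_mul (enc_norm (enc_subr 251 400 h2)) (enc_norm (enc_sub (enc_rat _ 786788221 8650000) (enc_scale 2444101 34600 h1))))))))⟩
noncomputable def cv3r : Fn1 := ⟨_, _, fun h1 => (enc_norm (enc_half (enc_subr 1 2 (swg.enc h1))))⟩
noncomputable def bf3q3_3 : Fn2 := ⟨_, _, fun h1 h2 => (enc_subr 251 400 h2)⟩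
noncomputable def bf3q3 : Fn2 := ⟨_, _, fun h1 h2 => (enc_norm (enc_case (enc_subr 33 20 h1) (enc_case (enc_subr 321 200 h1) (enc_add (enc_sub (enc_rat _ 15691873 7000000) (enc_scale 11779 8750 h1)) (enc_mul (enc_norm (bf3q3_3.enc h1 h2)) (enc_norm (enc_sub (enc_rat _ 1333806 21875) (enc_scale 410917 10500 h1))))) (enc_add (enc_sub (enc_rat _ 573543 250000) (enc_scale 20683 15000 h1)) (enc_mul (enc_norm (bf3q3_3.enc h1 h2)) (enc_norm (enc_sub (enc_rat _ 19499447 300000) (enc_scale 18739 450 h1)))))) (enc_case (enc_subr 177 100 h1) (enc_add (enc_sub (enc_rat _ 9430183 4000000) (enc_scale 56691 40000 h1)) (enc_mul (enc_norm (bf3q3_3.enc h1 h2)) (enc_norm (enc_sub (enc_rat _ 13892703 200000) (enc_scale 88697 2000 h1))))) (enc_case (enc_subr 47 25 h1) (enc_add (enc_sub (enc_rat _ 12550441 5500000) (enc_scale 151199 110000 h1)) (enc_mul (enc_norm (bf3q3_3.enc h1 h2)) (enc_norm (enc_sub (enc_rat _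 37057929 550000) (enc_scale 474873 11000 h1))))) (enc_add (enc_sub (enc_rat _ 3356099 1500000) (enc_scale 20263 15000 h1)) (enc_mul (enc_norm (bf3q3_3.enc h1 h2)) (enc_norm (enc_sub (enc_rat _ 4908109 75000) (enc_scale 252841 6000 h1)))))))))⟩
noncomputable def kf3q3 : Fn2 := ⟨_, _, fun h1 h2 => (enc_norm (enc_mul (cv3r.enc h1) (bf3q3.enc h1 h2)))⟩
noncomputable def bx3q3_3 : Fn2 := ⟨_, _, fun h1 h2 => (enc_subr 251 400 h2)⟩
noncomputable def bx3q3 : Fn2 := ⟨_, _, fun h1 h2 => (enc_norm (enc_case (enc_subr 33 20 h1) (enc_case (enc_subr 321 200 h1) (enc_add (enc_subr 5454739 7000000 (enc_scale 37141 52500 h1)) (enc_mul (enc_norm (bx3q3_3.enc h1 h2)) (enc_norm (enc_subr 605497 70000 (enc_scale 14194 2625 h1))))) (enc_add (enc_subr 2271283 3000000 (enc_scale 15607 22500 h1)) (enc_mul (enc_norm (bx3q3_3.enc h1 h2)) (enc_norm (enc_subr 3006983 300000 (enc_scale 28183 4500 h1)))))) (enc_case (enc_subr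 177 100 h1) (enc_add (enc_subr 716761 1000000 (enc_scale 1673 2500 h1)) (enc_mul (enc_norm (bx3q3_3.enc h1 h2)) (enc_norm (enc_subr 2375667 200000 (enc_scale 44323 6000 h1))))) (enc_case (enc_subr 47 25 h1) (enc_add (enc_subr 1471099 2200000 (enc_scale 4414 6875 h1)) (enc_mul (enc_norm (bx3q3_3.enc h1 h2)) (enc_norm (enc_subr 13712779 1100000 (enc_scale 10614 1375 h1))))) (enc_add (enc_subr 1989389 3000000 (enc_scale 7669 12000 h1)) (enc_mul (enc_norm (bx3q3_3.enc h1 h2)) (enc_norm (enc_subr 3795907 300000 (enc_scale 2932 375 h1)))))))))⟩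
noncomputable def l3q3 : Fn2 := ⟨_, _, fun h1 h2 => (enc_norm (enc_mul (cv3r.enc h1) (bx3q3.enc h1 h2)))⟩
noncomputable def bd3q3 : Fn2 := ⟨_, _, fun h1 h2 => (enc_norm (enc_add (enc_add (enc_scale 365571 500000 h1) (enc_rat _ 1268789 500000)) (enc_mul (enc_norm (enc_subr 251 400 h2)) (enc_norm (enc_sub (enc_rat _ 2203971 100000) (enc_scale 674223 50000 h1))))))⟩
noncomputable def kc3q3 : Fn2 := ⟨_, _, fun h1 h2 => (enc_norm (enc_mul (cv3r.enc h1) (bd3q3.enc h1 h2)))⟩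
noncomputable def cv4m : Fn1 := ⟨_, _, fun h1 => (enc_norm (enc_add (enc_scale 3 20 (c1g.enc h1)) (enc_scale 17 20 (enc_add (swg.enc h1) (enc_rat _ 1 2)))))⟩
noncomputable def bf4q0_3 : Fn2 := ⟨_, _, fun h1 h2 => (enc_subr 251 400 h2)⟩
noncomputable def bf4q0 : Fn2 := ⟨_, _, fun h1 h2 => (enc_norm (enc_case (enc_subr 23 100 h1) (enc_case (enc_subr 3 25 h1) (enc_add (enc_sub (enc_pnc _ 1) (enc_scale 128081 60000 h1)) (enc_mul (enc_norm (bf4q0_3.enc h1 h2)) (enc_scale 24931 4000 h1))) (enc_add (enc_sub (enc_rat _ 5449197 5500000) (enc_scale 56587 27500 h1)) (enc_mul (enc_norm (bf4q0_3.enc h1 h2)) (enc_norm (enc_add (enc_scale 11991 2750 h1) (enc_rat _ 49431 220000)))))) (enc_case (enc_subr 7 20 h1) (enc_add (enc_sub (enc_rat _ 2607509 2400000) (enc_scale 59371 24000 h1)) (enc_mul (enc_norm (bf4q0_3.enc h1 h2)) (enc_norm (enc_sub (enc_rat _ 2404249 600000) (enc_scale 72509 6000 h1))))) (enc_case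 (enc_subr 79 200 h1) (enc_add (enc_sub (enc_rat _ 1630207 1800000) (enc_scale 22019 11250 h1)) (enc_mul (enc_norm (bf4q0_3.enc h1 h2)) (enc_norm (enc_subr 2173019 900000 (enc_scale 28181 4500 h1))))) (enc_add (enc_sub (enc_rat _ 3505417 3500000) (enc_scale 76999 35000 h1)) (enc_mul (enc_norm (bf4q0_3.enc h1 h2)) (enc_norm (enc_sub (enc_rat _ 2279611 1050000) (enc_scale 28069 5250 h1)))))))))⟩
noncomputable def kf4q0 : Fn2 := ⟨_, _, fun h1 h2 => (enc_norm (enc_mul (cv4m.enc h1) (bf4q0.enc h1 h2)))⟩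
noncomputable def bx4q0_3 : Fn2 := ⟨_, _, fun h1 h2 => (enc_subr 251 400 h2)⟩
noncomputable def bx4q0 : Fn2 := ⟨_, _, fun h1 h2 => (enc_norm (enc_case (enc_subr 23 100 h1) (enc_case (enc_subr 3 25 h1) (enc_add (enc_scale 46187 120000 h1) (enc_mul (enc_norm (bx4q0_3.enc h1 h2)) (enc_scale 14513 12000 h1))) (enc_add (enc_add (enc_scale 2186 6875 h1) (enc_rat _ 17669 2200000)) (enc_mul (enc_norm (bx4q0_3.enc h1 h2)) (enc_norm (enc_add (enc_scale 422 1375 h1) (enc_rat _ 119131 1100000)))))) (enc_case (enc_subr 7 20 h1) (enc_add (enc_add (enc_scale 4273 120000 h1) (enc_rat _ 875677 12000000)) (enc_mul (enc_norm (bx4q0_3.enc h1 h2)) (enc_norm (enc_sub (enc_rat _ 50871 100000) (enc_scale 717 500 h1))))) (enc_case (enc_subr 79 200 h1) (enc_add (enc_sub (enc_rat _ 181813 1125000) (enc_scale 4897 22500 h1)) (enc_mul (enc_norm (bx4q0_3.enc h1 h2)) (enc_norm (enc_sub (enc_rat _ 278569 900000) (enc_scale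 973 1125 h1))))) (enc_add (enc_sub (enc_rat _ 771541 5250000) (enc_scale 9479 52500 h1)) (enc_mul (enc_norm (bx4q0_3.enc h1 h2)) (enc_norm (enc_sub (enc_rat _ 7087 42000) (enc_scale 5339 10500 h1)))))))))⟩
noncomputable def l4q0 : Fn2 := ⟨_, _, fun h1 h2 => (enc_norm (enc_mul (cv4m.enc h1) (bx4q0.enc h1 h2)))⟩
noncomputable def bd4q0 : Fn2 := ⟨_, _, fun h1 h2 => (enc_norm (enc_sub (enc_neg (enc_scale 2854123 500000 h1)) (enc_mul (enc_norm (enc_subr 251 400 h2)) (enc_scale 20777 25000 h1))))⟩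
noncomputable def kc4q0 : Fn2 := ⟨_, _, fun h1 h2 => (enc_norm (enc_mul (cv4m.enc h1) (bd4q0.enc h1 h2)))⟩
noncomputable def bf4q1_3 : Fn2 := ⟨_, _, fun h1 h2 => (enc_subr 251 400 h2)⟩
noncomputable def bf4q1 : Fn2 := ⟨_, _, fun h1 h2 => (enc_norm (enc_case (enc_subr 67 100 h1) (enc_add (enc_subr 6217993 17000000 (enc_scale 59571 42500 h1)) (enc_mul (enc_norm (bf4q1_3.enc h1 h2)) (enc_norm (enc_subr 222159 1700000 (enc_neg (enc_scale 2111 17000 h1)))))) (enc_case (enc_subr 83 100 h1) (enc_add (enc_subr 5428367 16000000 (enc_scale 217941 160000 h1)) (enc_mul (enc_norm (bf4q1_3.enc h1 h2)) (enc_norm (enc_subr 234539 1600000 (enc_neg (enc_scale 1607 16000 h1)))))) (enc_add (enc_add (enc_scale 4107 5000 h1) (enc_rat _ 54767 500000)) (enc_mul (enc_norm (bf4q1_3.enc h1 h2)) (enc_norm (enc_subr 1984813 850000 (enc_scale 43117 17000 h1))))))))⟩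
noncomputable def kf4q1 : Fn2 := ⟨_, _, fun h1 h2 => (enc_norm (enc_mul (cv4m.enc h1) (bf4q1.enc h1 h2)))⟩
noncomputable def bx4q1_3 : Fn2 := ⟨_, _, fun h1 h2 => (enc_subr 251 400 h2)⟩
noncomputable def bx4q1 : Fn2 := ⟨_, _, fun h1 h2 => (enc_norm (enc_case (enc_subr 67 100 h1) (enc_add (enc_sub (enc_rat _ 1594733 8500000) (enc_scale 22919 85000 h1)) (enc_mul (enc_norm (bx4q1_3.enc h1 h2)) (enc_norm (enc_subr 1348313 1700000 (enc_scale 21751 17000 h1))))) (enc_case (enc_subr 83 100 h1) (enc_add (enc_sub (enc_rat _ 881321 8000000) (enc_scale 12323 80000 h1)) (enc_mul (enc_norm (bx4q1_3.enc h1 h2)) (enc_norm (enc_sub (enc_rat _ 331423 800000) (enc_scale 4181 8000 h1))))) (enc_add (enc_subr 170103 17000000 (enc_neg (enc_scale 1573 170000 h1))) (enc_mul (enc_norm (bx4q1_3.enc h1 h2)) (enc_norm (enc_sub (enc_rat _ 346301 850000) (enc_scale 1093 2125 h1))))))))⟩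
noncomputable def l4q1 : Fn2 := ⟨_, _, fun h1 h2 => (enc_norm (enc_mul (cv4m.enc h1) (bx4q1.enc h1 h2)))⟩
noncomputable def bd4q1 : Fn2 := ⟨_, _, fun h1 h2 => (enc_norm (enc_add (enc_sub (enc_rat _ 985861 1000000) (enc_scale 13219 12500 h1)) (enc_mul (enc_norm (enc_subr 251 400 h2)) (enc_norm (enc_subr 40577 6250 (enc_scale 12691 2000 h1))))))⟩
noncomputable def kc4q1 : Fn2 := ⟨_, _, fun h1 h2 => (enc_norm (enc_mul (cv4m.enc h1) (bd4q1.enc h1 h2)))⟩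
noncomputable def xc42a : Fn1 := ⟨_, _, fun h1 => (enc_norm (enc_add (enc_scale 3 20 h1) (enc_scale 17 20 (enc_subr 1 2 (swg.enc (yag.enc h1))))))⟩
noncomputable def kfc42a_11 : Fn2 := ⟨_, _, fun h1 h2 => (enc_subr 251 400 h2)⟩
noncomputable def kfc42a : Fn2 := ⟨_, _, fun h1 h2 => (enc_norm (enc_mul (enc_norm (enc_add (enc_scale 3 20 h1) (enc_scale 17 20 (enc_subr 1 2 (swg.enc (yag.enc h1)))))) (enc_norm (enc_case (enc_subr 1 4 h1) (enc_case (enc_subr 1 10 h1) (enc_case (enc_subr 1 20 h1) (enc_add (enc_add (enc_scale 43723 50000 h1) (enc_rat _ 19623 31250)) (enc_mul (enc_norm (kfc42a_11.enc h1 h2)) (enc_norm (enc_sub (enc_rat _ 95281 100000) (enc_scale 27411 5000 h1))))) (enc_add (enc_add (enc_scale 21709 25000 h1) (enc_rat _ 628241 1000000)) (enc_mul (enc_norm (kfc42a_11.enc h1 h2)) (enc_norm (enc_sub (enc_rat _ 23069 25000) (enc_scale 12203 2500 h1)))))) (enc_case (enc_subr 3 20 h1) (enc_add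 (enc_add (enc_scale 21371 25000 h1) (enc_rat _ 629593 1000000)) (enc_mul (enc_norm (kfc42a_11.enc h1 h2)) (enc_norm (enc_sub (enc_rat _ 42677 50000) (enc_scale 4189 1000 h1))))) (enc_case (enc_subr 1 5 h1) (enc_add (enc_add (enc_scale 1659 2000 h1) (enc_rat _ 316697 500000)) (enc_mul (enc_norm (kfc42a_11.enc h1 h2)) (enc_norm (enc_sub (enc_rat _ 1457 2000) (enc_scale 16777 5000 h1))))) (enc_add (enc_add (enc_scale 39731 50000 h1) (enc_rat _ 64037 100000)) (enc_mul (enc_norm (kfc42a_11.enc h1 h2)) (enc_norm (enc_sub (enc_rat _ 1161 2000) (enc_scale 13077 5000 h1)))))))) (enc_case (enc_subr 7 20 h1) (enc_case (enc_subr 3 10 h1) (enc_add (enc_add (enc_scale 2322 3125 h1) (enc_rat _ 130653 200000)) (enc_mul (enc_norm (kfc42a_11.enc h1 h2)) (enc_norm (enc_sub (enc_rat _ 7917 20000) (enc_scale 1173 625 h1))))) (enc_add (enc_add (enc_scale 34167 50000 h1) (enc_rat _ 26847 40000)) (enc_mul (enc_norm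 (kfc42a_11.enc h1 h2)) (enc_norm (enc_sub (enc_rat _ 14631 100000) (enc_scale 209 200 h1)))))) (enc_case (enc_subr 2 5 h1) (enc_add (enc_add (enc_scale 6351 10000 h1) (enc_rat _ 688059 1000000)) (enc_mul (enc_norm (kfc42a_11.enc h1 h2)) (enc_norm (enc_subr 4757 20000 (enc_scale 263 5000 h1))))) (enc_case (enc_subr 9 20 h1) (enc_add (enc_add (enc_scale 14893 25000 h1) (enc_rat _ 703811 1000000)) (enc_mul (enc_norm (kfc42a_11.enc h1 h2)) (enc_norm (enc_subr 78737 100000 (enc_scale 1783 1250 h1))))) (enc_add (enc_add (enc_scale 5623 10000 h1) (enc_rat _ 14377 20000)) (enc_mul (enc_norm (kfc42a_11.enc h1 h2)) (enc_norm (enc_subr 14549 10000 (enc_scale 14549 5000 h1))))))))))))⟩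
noncomputable def lc42a_11 : Fn2 := ⟨_, _, fun h1 h2 => (enc_subr 251 400 h2)⟩
noncomputable def lc42a : Fn2 := ⟨_, _, fun h1 h2 => (enc_norm (enc_mul (enc_norm (enc_add (enc_scale 3 20 h1) (enc_scale 17 20 (enc_subr 1 2 (swg.enc (yag.enc h1)))))) (enc_norm (enc_case (enc_subr 1 4 h1) (enc_case (enc_subr 1 10 h1) (enc_case (enc_subr 1 20 h1) (enc_add (enc_subr 29643 500000 (enc_scale 15877 50000 h1)) (enc_mul (enc_norm (lc42a_11.enc h1 h2)) (enc_norm (enc_subr 53779 100000 (enc_neg (enc_scale 3007 1250 h1)))))) (enc_add (enc_subr 2363 40000 (enc_scale 7833 25000 h1)) (enc_mul (enc_norm (lc42a_11.enc h1 h2)) (enc_norm (enc_subr 54171 100000 (enc_neg (enc_scale 2909 1250 h1))))))) (enc_case (enc_subr 3 20 h1) (enc_add (enc_subr 54509 1000000 (enc_scale 13383 50000 h1)) (enc_mul (enc_norm (lc42a_11.enc h1 h2)) (enc_norm (enc_subr 13041 20000 (enc_neg (enc_scale 6119 5000 h1)))))) (enc_case (enc_subr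 1 5 h1) (enc_add (enc_subr 16609 500000 (enc_scale 3143 25000 h1)) (enc_mul (enc_norm (lc42a_11.enc h1 h2)) (enc_norm (enc_subr 104499 100000 (enc_scale 6979 5000 h1))))) (enc_add (enc_subr 1633 100000 (enc_scale 129 3125 h1)) (enc_mul (enc_norm (lc42a_11.enc h1 h2)) (enc_norm (enc_subr 138847 100000 (enc_scale 7783 2500 h1)))))))) (enc_case (enc_subr 7 20 h1) (enc_case (enc_subr 3 10 h1) (enc_add (enc_subr 1001 100000 (enc_scale 2 125 h1)) (enc_mul (enc_norm (lc42a_11.enc h1 h2)) (enc_norm (enc_subr 37193 25000 (enc_scale 17551 5000 h1))))) (enc_add (enc_subr 128 15625 (enc_scale 497 50000 h1)) (enc_mul (enc_norm (lc42a_11.enc h1 h2)) (enc_norm (enc_subr 72763 50000 (enc_scale 1701 500 h1)))))) (enc_case (enc_subr 2 5 h1) (enc_add (enc_subr 1073 125000 (enc_scale 553 50000 h1)) (enc_mul (enc_norm (lc42a_11.enc h1 h2)) (enc_norm (enc_subr 67807 50000 (enc_scale 7797 2500 h1))))) (enc_case (enc_subr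 9 20 h1) (enc_add (enc_subr 1607 125000 (enc_scale 1087 50000 h1)) (enc_mul (enc_norm (lc42a_11.enc h1 h2)) (enc_norm (enc_subr 54759 50000 (enc_scale 3083 1250 h1))))) (enc_add (enc_subr 3073 100000 (enc_scale 3073 50000 h1)) (enc_mul (enc_norm (lc42a_11.enc h1 h2)) (enc_norm (enc_sub (enc_rat _ 147 1000) (enc_scale 147 500 h1))))))))))))⟩
noncomputable def kcc42a_11 : Fn2 := ⟨_, _, fun h1 h2 => (enc_subr 251 400 h2)⟩
noncomputable def kcc42a : Fn2 := ⟨_, _, fun h1 h2 => (enc_norm (enc_mul (enc_norm (enc_add (enc_scale 3 20 h1) (enc_scale 17 20 (enc_subr 1 2 (swg.enc (yag.enc h1)))))) (enc_norm (enc_case (enc_subr 1 4 h1) (enc_add (enc_subr 27981 50000 (enc_scale 287409 125000 h1)) (enc_mul (enc_norm (kcc42a_11.enc h1 h2)) (enc_norm (enc_sub (enc_rat _ 511341 50000) (enc_scale 959653 25000 h1))))) (enc_add (enc_sub (enc_rat _ 7599 250000) (enc_scale 7599 125000 h1)) (enc_mul (enc_norm (kcc42a_11.enc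 h1 h2)) (enc_norm (enc_sub (enc_rat _ 63029 50000) (enc_scale 63029 25000 h1)))))))))⟩
noncomputable def xc42b : Fn1 := ⟨_, _, fun h1 => (enc_norm (enc_scale 17 20 (enc_subr 1 2 (swg.enc h1))))⟩
noncomputable def kfc42b_9 : Fn2 := ⟨_, _, fun h1 h2 => (enc_subr 251 400 h2)⟩
noncomputable def kfc42b : Fn2 := ⟨_, _, fun h1 h2 => (enc_norm (enc_mul (enc_norm (enc_scale 17 20 (enc_subr 1 2 (swg.enc h1)))) (enc_norm (enc_case (enc_subr 127 100 h1) (enc_add (enc_sub (enc_rat _ 24600689 5800000) (enc_scale 11348 3625 h1)) (enc_mul (enc_norm (kfc42b_9.enc h1 h2)) (enc_norm (enc_sub (enc_rat _ 7705873 2900000) (enc_scale 8161 5800 h1))))) (enc_case (enc_subr 69 50 h1) (enc_add (enc_sub (enc_rat _ 47641351 11000000) (enc_scale 88027 27500 h1)) (enc_mul (enc_norm (kfc42b_9.enc h1 h2)) (enc_norm (enc_subr 12870137 1100000 (enc_scale 108877 11000 h1))))) (enc_add (enc_sub (enc_rat _ 3352081 2000000) (enc_scale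 51083 40000 h1)) (enc_mul (enc_norm (kfc42b_9.enc h1 h2)) (enc_norm (enc_subr 229233 100000 (enc_scale 4621 1500 h1))))))))))⟩
noncomputable def lc42b_9 : Fn2 := ⟨_, _, fun h1 h2 => (enc_subr 251 400 h2)⟩
noncomputable def lc42b : Fn2 := ⟨_, _, fun h1 h2 => (enc_norm (enc_mul (enc_norm (enc_scale 17 20 (enc_subr 1 2 (swg.enc h1)))) (enc_norm (enc_case (enc_subr 127 100 h1) (enc_add (enc_subr 2408057 11600000 (enc_scale 2973 23200 h1)) (enc_mul (enc_norm (lc42b_9.enc h1 h2)) (enc_norm (enc_subr 2800261 1160000 (enc_scale 18873 11600 h1))))) (enc_case (enc_subr 69 50 h1) (enc_add (enc_subr 11944631 11000000 (enc_scale 11271 13750 h1)) (enc_mul (enc_norm (lc42b_9.enc h1 h2)) (enc_norm (enc_subr 539497 1100000 (enc_scale 309 2750 h1))))) (enc_add (enc_subr 1657597 1000000 (enc_scale 617 500 h1)) (enc_mul (enc_norm (lc42b_9.enc h1 h2)) (enc_norm (enc_subr 587 800 (enc_scale 433 1500 h1))))))))))⟩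
noncomputable def kcc42b : Fn2 := ⟨_, _, fun h1 h2 => (enc_norm (enc_mul (enc_norm (enc_scale 17 20 (enc_subr 1 2 (swg.enc h1)))) (enc_norm (enc_add (enc_subr 13776879 1730000 (enc_scale 1109243 173000 h1)) (enc_mul (enc_norm (enc_subr 251 400 h2)) (enc_norm (enc_sub (enc_rat _ 379270919 8650000) (enc_scale 201431 6920 h1))))))))⟩
noncomputable def cv4r : Fn1 := ⟨_, _, fun h1 => (enc_norm (enc_scale 17 20 (enc_subr 1 2 (swg.enc h1))))⟩
noncomputable def bf4q3_3 : Fn2 := ⟨_, _, fun h1 h2 => (enc_subr 251 400 h2)⟩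
noncomputable def bf4q3 : Fn2 := ⟨_, _, fun h1 h2 => (enc_norm (enc_case (enc_subr 33 20 h1) (enc_case (enc_subr 321 200 h1) (enc_add (enc_subr 5529417 7000000 (enc_scale 57301 105000 h1)) (enc_mul (enc_norm (bf4q3_3.enc h1 h2)) (enc_norm (enc_subr 8261623 350000 (enc_scale 31343 2100 h1))))) (enc_add (enc_subr 1277881 1500000 (enc_scale 3287 5625 h1)) (enc_mul (enc_norm (bf4q3_3.enc h1 h2)) (enc_norm (enc_subr 2384233 100000 (enc_scale 2261 150 h1)))))) (enc_case (enc_subr 177 100 h1) (enc_add (enc_sub (enc_rat _ 9209387 2000000) (enc_scale 163361 60000 h1)) (enc_mul (enc_norm (bf4q3_3.enc h1 h2)) (enc_norm (enc_sub (enc_rat _ 32355929 200000) (enc_scale 584549 6000 h1))))) (enc_case (enc_subr 47 25 h1) (enc_add (enc_sub (enc_rat _ 1244143 2750000) (enc_scale 10361 27500 h1)) (enc_mul (enc_norm (bf4q3_3.enc h1 h2)) (enc_norm (enc_sub (enc_rat _ 1844407 68750) (enc_scale 232989 11000 h1)))))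 (enc_add (enc_sub (enc_rat _ 1288409 3000000) (enc_scale 43747 120000 h1)) (enc_mul (enc_norm (bf4q3_3.enc h1 h2)) (enc_norm (enc_sub (enc_rat _ 7823623 300000) (enc_scale 249389 12000 h1)))))))))⟩
noncomputable def kf4q3 : Fn2 := ⟨_, _, fun h1 h2 => (enc_norm (enc_mul (cv4r.enc h1) (bf4q3.enc h1 h2)))⟩
noncomputable def bx4q3_3 : Fn2 := ⟨_, _, fun h1 h2 => (enc_subr 251 400 h2)⟩
noncomputable def bx4q3 : Fn2 := ⟨_, _, fun h1 h2 => (enc_norm (enc_case (enc_subr 33 20 h1) (enc_case (enc_subr 321 200 h1) (enc_add (enc_subr 12083207 7000000 (enc_scale 135077 105000 h1)) (enc_mul (enc_norm (bx4q3_3.enc h1 h2)) (enc_norm (enc_sub (enc_rat _ 808279 140000) (enc_scale 19567 5250 h1))))) (enc_add (enc_subr 869561 1000000 (enc_scale 11291 15000 h1)) (enc_mul (enc_norm (bx4q3_3.enc h1 h2)) (enc_norm (enc_subr 836371 300000 (enc_scale 1808 1125 h1)))))) (enc_case (enc_subr 177 100 h1) (enc_add (enc_subr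 843161 1000000 (enc_scale 11051 15000 h1)) (enc_mul (enc_norm (bx4q3_3.enc h1 h2)) (enc_norm (enc_subr 6887723 400000 (enc_scale 124241 12000 h1))))) (enc_case (enc_subr 47 25 h1) (enc_add (enc_sub (enc_rat _ 525489 687500) (enc_scale 18861 110000 h1)) (enc_mul (enc_norm (bx4q3_3.enc h1 h2)) (enc_norm (enc_subr 998989 100000 (enc_scale 6269 1000 h1))))) (enc_add (enc_sub (enc_rat _ 115123 150000) (enc_scale 2597 15000 h1)) (enc_mul (enc_norm (bx4q3_3.enc h1 h2)) (enc_norm (enc_subr 747491 75000 (enc_scale 75079 12000 h1)))))))))⟩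
noncomputable def l4q3 : Fn2 := ⟨_, _, fun h1 h2 => (enc_norm (enc_mul (cv4r.enc h1) (bx4q3.enc h1 h2)))⟩
noncomputable def bd4q3 : Fn2 := ⟨_, _, fun h1 h2 => (enc_norm (enc_add (enc_add (enc_scale 105057 125000 h1) (enc_rat _ 579771 250000)) (enc_mul (enc_norm (enc_subr 251 400 h2)) (enc_norm (enc_sub (enc_rat _ 1693037 100000) (enc_scale 514181 50000 h1))))))⟩
noncomputable def kc4q3 : Fn2 := ⟨_, _, fun h1 h2 => (enc_norm (enc_mul (cv4r.enc h1) (bd4q3.enc h1 h2)))⟩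
noncomputable def c3g : Fn1 := ⟨_, _, fun h1 => (enc_sqrtg (enc_sub (enc_pnc _ 3) (enc_scale 3 4 (enc_sq h1))))⟩
noncomputable def cv5m : Fn1 := ⟨_, _, fun h1 => (enc_norm (enc_add (enc_scale 3 4 (enc_add (swg.enc h1) (enc_rat _ 1 2))) (enc_scale 1 4 (c3g.enc h1))))⟩
noncomputable def esg : Fn1 := ⟨_, _, fun h1 => (enc_norm (enc_subn 1 (enc_add (enc_half h1) (gsg.enc h1))))⟩
noncomputable def kf5q0_4 : Fn2 := ⟨_, _, fun h1 h2 => (enc_subr 251 400 h2)⟩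
noncomputable def kf5q0_41 : Fn2 := ⟨_, _, fun h1 h2 => (enc_sub (enc_pnc _ 1) h1)⟩
noncomputable def kf5q0_42 : Fn2 := ⟨_, _, fun h1 h2 => (gsg.enc (enc_norm (kf5q0_41.enc h1 h2)))⟩
noncomputable def kf5q0_45 : Fn2 := ⟨_, _, fun h1 h2 => (enc_sub (enc_scale 3 4 (kf5q0_41.enc h1 h2)) (enc_half (kf5q0_42.enc h1 h2)))⟩
noncomputable def kf5q0_63 : Fn2 := ⟨_, _, fun h1 h2 => (enc_mul (cv4m.enc h1) (bf4q0.enc h1 h2))⟩
noncomputable def kf5q0 : Fn2 := ⟨_, _, fun h1 h2 => (enc_norm (enc_case (enc_subr 33 100 h1) (enc_mul (cv5m.enc h1) (enc_norm (enc_case (enc_subr 4 25 h1) (enc_add (enc_sub (enc_rat _ 744621 1000000) (enc_scale 142741 80000 h1)) (enc_mul (enc_norm (kf5q0_4.enc h1 h2)) (enc_norm (enc_add (enc_scale 102867 16000 h1) (enc_rat _ 55527 100000))))) (enc_add (enc_sub (enc_rat _ 1686132441 2125000000) (enc_scale 355231033 170000000 h1)) (enc_mul (enc_norm (kf5q0_4.enc h1 h2)) (enc_norm (enc_sub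 (enc_rat _ 3307118369 1062500000) (enc_scale 1624182119 170000000 h1)))))))) (enc_case (enc_subr 83 200 h1) (enc_add (kf5q0_63.enc h1 h2) (enc_mul (enc_norm (enc_mul (enc_norm (enc_sub (enc_mul h1 (enc_norm (enc_sub (enc_mul (enc_norm (enc_sub (kf5q0_45.enc h1 h2) (enc_sub (enc_rat _ 1 4) (enc_scale 3 8 (enc_mul (enc_norm (kf5q0_41.enc h1 h2)) (enc_inv (kf5q0_42.enc h1 h2))))))) (enc_inv (esg.enc (enc_norm (kf5q0_41.enc h1 h2))))) (kcg.enc (enc_norm (kf5q0_45.enc h1 h2)) h2)))) (kf5q0_63.enc h1 h2))) (enc_norm (enc_sub (cv5m.enc h1) (cv4m.enc h1))))) (enc_inv (enc_sub (enc_add (swg.enc h1) (enc_rat _ 1 2)) (cv4m.enc h1))))) (enc_mul (cv5m.enc h1) (enc_norm (enc_add (enc_sub (enc_rat _ 612781623 425000000) (enc_scale 769627873 212500000 h1)) (enc_mul (enc_norm (kf5q0_4.enc h1 h2)) (enc_norm (enc_sub (enc_rat _ 173127293 170000000) (enc_scale 197257093 85000000 h1))))))))))⟩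
noncomputable def qsg : Fn1 := ⟨_, _, fun h1 => (enc_norm (enc_mul (enc_norm (enc_sub (enc_pnc _ 1) (gsg.enc h1))) (enc_norm (enc_subn 1 (enc_nat 2 (gsg.enc h1))))))⟩
noncomputable def l5q0_4 : Fn2 := ⟨_, _, fun h1 h2 => (enc_subr 251 400 h2)⟩
noncomputable def l5q0_48 : Fn2 := ⟨_, _, fun h1 h2 => (enc_sub (enc_pnc _ 1) h1)⟩
noncomputable def l5q0_63 : Fn2 := ⟨_, _, fun h1 h2 => (enc_mul (cv4m.enc h1) (bx4q0.enc h1 h2))⟩
noncomputable def l5q0 : Fn2 := ⟨_, _, fun h1 h2 => (enc_norm (enc_case (enc_subr 33 100 h1) (enc_mul (cv5m.enc h1) (enc_norm (enc_case (enc_subr 4 25 h1) (enc_add (enc_add (enc_scale 45417 160000 h1) (enc_rat _ 61829 1000000)) (enc_mul (enc_norm (l5q0_4.enc h1 h2)) (enc_norm (enc_sub (enc_rat _ 9151 20000) (enc_scale 3713 16000 h1))))) (enc_add (enc_add (enc_sub (enc_rat _ 654732501 5312500000) (enc_scale 42494063 425000000 h1)) (enc_mul (enc_norm (l5q0_4.enc h1 h2)) (enc_norm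 (enc_sub (enc_rat _ 803564569 1062500000) (enc_scale 356868319 170000000 h1))))) (enc_mul (enc_sq (enc_norm (l5q0_4.enc h1 h2))) (enc_norm (enc_subr 8011 1062500 (enc_scale 8011 170000 h1)))))))) (enc_case (enc_subr 83 200 h1) (enc_add (l5q0_63.enc h1 h2) (enc_mul (enc_norm (enc_mul (enc_norm (enc_sub (enc_sub (qsg.enc (enc_norm (l5q0_48.enc h1 h2))) (enc_mul (enc_norm (enc_nat 2 (enc_sub (l5q0_48.enc h1 h2) h2))) (enc_norm (enc_mul (esg.enc (enc_norm (l5q0_48.enc h1 h2))) (kcg.enc (enc_norm (enc_sub (enc_scale 3 4 (l5q0_48.enc h1 h2)) (enc_half (gsg.enc (enc_norm (l5q0_48.enc h1 h2)))))) h2))))) (l5q0_63.enc h1 h2))) (enc_norm (enc_sub (cv5m.enc h1) (cv4m.enc h1))))) (enc_inv (enc_sub (enc_add (swg.enc h1) (enc_rat _ 1 2)) (cv4m.enc h1))))) (enc_mul (cv5m.enc h1) (enc_norm (enc_add (enc_sub (enc_rat _ 81013443 425000000) (enc_scale 29582309 106250000 h1)) (enc_mul (enc_norm (l5q0_4.enc h1 h2))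 (enc_norm (enc_sub (enc_rat _ 28484303 42500000) (enc_scale 15712439 10625000 h1))))))))))⟩
noncomputable def kc5q0_4 : Fn2 := ⟨_, _, fun h1 h2 => (enc_subr 251 400 h2)⟩
noncomputable def kc5q0_29 : Fn2 := ⟨_, _, fun h1 h2 => (enc_sub (enc_pnc _ 1) h1)⟩
noncomputable def kc5q0_30 : Fn2 := ⟨_, _, fun h1 h2 => (gsg.enc (enc_norm (kc5q0_29.enc h1 h2)))⟩
noncomputable def kc5q0_34 : Fn2 := ⟨_, _, fun h1 h2 => (esg.enc (enc_norm (kc5q0_29.enc h1 h2)))⟩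
noncomputable def kc5q0_38 : Fn2 := ⟨_, _, fun h1 h2 => (gug.enc (enc_norm (kc5q0_29.enc h1 h2)))⟩
noncomputable def kc5q0_40 : Fn2 := ⟨_, _, fun h1 h2 => (enc_mul (enc_norm (kc5q0_29.enc h1 h2)) (enc_inv (kc5q0_30.enc h1 h2)))⟩
noncomputable def kc5q0_41 : Fn2 := ⟨_, _, fun h1 h2 => (enc_scale 3 4 (kc5q0_40.enc h1 h2))⟩
noncomputable def kc5q0_70 : Fn2 := ⟨_, _, fun h1 h2 => (enc_mul (cv4m.enc h1) (bd4q0.enc h1 h2))⟩
noncomputable def kc5q0 : Fn2 := ⟨_, _, fun h1 h2 => (enc_norm (enc_case (enc_subr 33 100 h1) (enc_mul (cv5m.enc h1) (enc_norm (enc_add (enc_sub (enc_rat _ 28681 500000) (enc_scale 17504354917 3300000000 h1)) (enc_mul (enc_norm (kc5q0_4.enc h1 h2)) (enc_norm (enc_sub (enc_rat _ 158807 25000) (enc_scale 5809742809 330000000 h1))))))) (enc_case (enc_subr 83 200 h1) (enc_add (kc5q0_70.enc h1 h2) (enc_mul (enc_norm (enc_mul (enc_norm (enc_sub (enc_add (enc_sub (enc_neg (enc_add (enc_add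 (enc_rat _ 3 4) (enc_scale 3 2 (kc5q0_29.enc h1 h2))) (enc_scale 3 4 (enc_mul (enc_norm (kc5q0_40.enc h1 h2)) (kc5q0_38.enc h1 h2))))) (enc_mul (enc_norm (enc_sub (enc_mul (enc_norm (enc_mul (enc_norm (kc5q0_41.enc h1 h2)) (enc_norm (enc_subn 3 (enc_nat 4 (kc5q0_30.enc h1 h2)))))) (kc5q0_34.enc h1 h2)) (enc_mul (qsg.enc (enc_norm (kc5q0_29.enc h1 h2))) (enc_norm (enc_sub (enc_rat _ 1 2) (kc5q0_41.enc h1 h2)))))) (enc_inv (enc_mul (enc_nat 2 (kc5q0_34.enc h1 h2)) (kc5q0_34.enc h1 h2))))) (enc_mul (kcg.enc (enc_norm (enc_sub (enc_scale 3 4 (kc5q0_29.enc h1 h2)) (enc_half (kc5q0_30.enc h1 h2)))) h2) (enc_norm (enc_add (enc_pnc _ 1) (enc_add (kc5q0_38.enc h1 h2) (enc_nat 2 (kc5q0_30.enc h1 h2))))))) (kc5q0_70.enc h1 h2))) (enc_norm (enc_sub (cv5m.enc h1) (cv4m.enc h1))))) (enc_inv (enc_sub (enc_add (swg.enc h1) (enc_rat _ 1 2)) (cv4m.enc h1))))) (enc_mul (cv5m.enc h1) (enc_norm (enc_add (enc_subr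 136320041 42500000 (enc_scale 88860971 21250000 h1)) (enc_mul (enc_norm (kc5q0_4.enc h1 h2)) (enc_norm (enc_sub (enc_rat _ 24796479 2000000) (enc_scale 28912079 1000000 h1))))))))))⟩
noncomputable def bf5q1_3 : Fn2 := ⟨_, _, fun h1 h2 => (enc_subr 251 400 h2)⟩
noncomputable def bf5q1 : Fn2 := ⟨_, _, fun h1 h2 => (enc_norm (enc_case (enc_subr 67 100 h1) (enc_add (enc_subr 896307 3400000 (enc_scale 115237 85000 h1)) (enc_mul (enc_norm (bf5q1_3.enc h1 h2)) (enc_norm (enc_subr 394169 1700000 (enc_scale 116 2125 h1))))) (enc_case (enc_subr 83 100 h1) (enc_add (enc_subr 1857751 8000000 (enc_scale 104709 80000 h1)) (enc_mul (enc_norm (bf5q1_3.enc h1 h2)) (enc_norm (enc_subr 98533 1600000 (enc_neg (enc_scale 3193 16000 h1)))))) (enc_add (enc_add (enc_scale 145863 170000 h1) (enc_rat _ 24137 170000)) (enc_mul (enc_norm (bf5q1_3.enc h1 h2)) (enc_norm (enc_subr 11361 8500 (enc_scale 11361 8500 h1))))))))⟩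
noncomputable def kf5q1 : Fn2 := ⟨_, _, fun h1 h2 => (enc_norm (enc_mul (cv5m.enc h1) (bf5q1.enc h1 h2)))⟩
noncomputable def bx5q1_3 : Fn2 := ⟨_, _, fun h1 h2 => (enc_subr 251 400 h2)⟩
noncomputable def bx5q1 : Fn2 := ⟨_, _, fun h1 h2 => (enc_norm (enc_case (enc_subr 67 100 h1) (enc_add (enc_sub (enc_rat _ 522989 3400000) (enc_scale 36103 170000 h1)) (enc_mul (enc_norm (bx5q1_3.enc h1 h2)) (enc_norm (enc_subr 425449 850000 (enc_scale 7813 8500 h1))))) (enc_case (enc_subr 83 100 h1) (enc_add (enc_sub (enc_rat _ 581621 16000000) (enc_scale 5927 160000 h1)) (enc_mul (enc_norm (bx5q1_3.enc h1 h2)) (enc_norm (enc_sub (enc_rat _ 170621 320000) (enc_scale 9979 16000 h1))))) (enc_add (enc_sub (enc_rat _ 1121 34000) (enc_scale 1121 34000 h1)) (enc_mul (enc_norm (bx5q1_3.enc h1 h2)) (enc_norm (enc_sub (enc_rat _ 1553 17000) (enc_scale 1553 17000 h1))))))))⟩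
noncomputable def l5q1 : Fn2 := ⟨_, _, fun h1 h2 => (enc_norm (enc_mul (cv5m.enc h1) (bx5q1.enc h1 h2)))⟩
noncomputable def bd5q1 : Fn2 := ⟨_, _, fun h1 h2 => (enc_norm (enc_add (enc_sub (enc_rat _ 29809 100000) (enc_scale 29809 100000 h1)) (enc_mul (enc_norm (enc_subr 251 400 h2)) (enc_norm (enc_subr 189589 25000 (enc_scale 189589 25000 h1))))))⟩
noncomputable def kc5q1 : Fn2 := ⟨_, _, fun h1 h2 => (enc_norm (enc_mul (cv5m.enc h1) (bd5q1.enc h1 h2)))⟩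
noncomputable def cv5p : Fn1 := ⟨_, _, fun h1 => (enc_norm (enc_add (enc_scale 3 4 (enc_subr 1 2 (swg.enc h1))) (enc_scale 1 4 (c3g.enc h1))))⟩
noncomputable def bf5q2_3 : Fn2 := ⟨_, _, fun h1 h2 => (enc_subr 251 400 h2)⟩
noncomputable def bf5q2 : Fn2 := ⟨_, _, fun h1 h2 => (enc_norm (enc_case (enc_subr 117 100 h1) (enc_add (enc_subr 38963 1000000 (enc_scale 4753 5000 h1)) (enc_mul (enc_norm (bf5q2_3.enc h1 h2)) (enc_norm (enc_sub (enc_rat _ 502991 68000) (enc_scale 133929 17000 h1))))) (enc_case (enc_subr 133 100 h1) (enc_add (enc_sub (enc_rat _ 9917267 2000000) (enc_scale 66417 20000 h1)) (enc_mul (enc_norm (bf5q2_3.enc h1 h2)) (enc_norm (enc_subr 2467513 320000 (enc_scale 80553 16000 h1))))) (enc_add (enc_sub (enc_rat _ 51319699 8500000) (enc_scale 702459 170000 h1)) (enc_mul (enc_norm (bf5q2_3.enc h1 h2)) (enc_norm (enc_subr 6441653 170000 (enc_scale 471361 17000 h1))))))))⟩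
noncomputable def kf5q2 : Fn2 := ⟨_, _, fun h1 h2 => (enc_norm (enc_mul (cv5p.enc h1) (bf5q2.enc h1 h2)))⟩
noncomputable def bx5q2_3 : Fn2 := ⟨_, _, fun h1 h2 => (enc_subr 251 400 h2)⟩
noncomputable def bx5q2 : Fn2 := ⟨_, _, fun h1 h2 => (enc_norm (enc_case (enc_subr 117 100 h1) (enc_add (enc_sub (enc_rat _ 1315431 17000000) (enc_scale 1417 170000 h1)) (enc_mul (enc_norm (bx5q2_3.enc h1 h2)) (enc_norm (enc_sub (enc_rat _ 72761 170000) (enc_scale 107 340 h1))))) (enc_case (enc_subr 133 100 h1) (enc_add (enc_sub (enc_rat _ 5428449 16000000) (enc_scale 37149 160000 h1)) (enc_mul (enc_norm (bx5q2_3.enc h1 h2)) (enc_norm (enc_subr 564551 1600000 (enc_scale 5643 16000 h1))))) (enc_add (enc_subr 2610323 3400000 (enc_scale 25507 42500 h1)) (enc_mul (enc_norm (bx5q2_3.enc h1 h2)) (enc_norm (enc_sub (enc_rat _ 7560737 1700000) (enc_scale 27681 8500 h1))))))))⟩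
noncomputable def l5q2 : Fn2 := ⟨_, _, fun h1 h2 => (enc_norm (enc_mul (cv5p.enc h1) (bx5q2.enc h1 h2)))⟩
noncomputable def bd5q2 : Fn2 := ⟨_, _, fun h1 h2 => (enc_norm (enc_add (enc_subr 369797 500000 (enc_scale 353407 500000 h1)) (enc_mul (enc_norm (enc_subr 251 400 h2)) (enc_norm (enc_subr 321317 20000 (enc_scale 733577 50000 h1))))))⟩
noncomputable def kc5q2 : Fn2 := ⟨_, _, fun h1 h2 => (enc_norm (enc_mul (cv5p.enc h1) (bd5q2.enc h1 h2)))⟩
noncomputable def ycg : Fn1 := ⟨_, _, fun h1 => (enc_sqrtg (enc_scale 4 3 (enc_sub (enc_pnc _ 3) (enc_sq h1))))⟩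
noncomputable def xc53 : Fn1 := ⟨_, _, fun h1 => (enc_norm (enc_add (enc_scale 3 4 (enc_subr 1 2 (swg.enc (ycg.enc h1)))) (enc_scale 1 4 h1)))⟩
noncomputable def kfc53_6 : Fn2 := ⟨_, _, fun h1 h2 => (enc_subr 1 2 (swg.enc (ycg.enc h1)))⟩
noncomputable def kfc53_9 : Fn2 := ⟨_, _, fun h1 h2 => (enc_add (enc_scale 3 4 (kfc53_6.enc h1 h2)) (enc_scale 1 4 h1))⟩
noncomputable def kfc53_11 : Fn2 := ⟨_, _, fun h1 h2 => (enc_subr 251 400 h2)⟩
noncomputable def kfc53_47 : Fn2 := ⟨_, _, fun h1 h2 => (enc_subn 1 (ycg.enc h1))⟩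
noncomputable def kfc53_48 : Fn2 := ⟨_, _, fun h1 h2 => (gsg.enc (enc_norm (kfc53_47.enc h1 h2)))⟩
noncomputable def kfc53_49 : Fn2 := ⟨_, _, fun h1 h2 => (enc_scale 3 4 (kfc53_47.enc h1 h2))⟩
noncomputable def kfc53_50 : Fn2 := ⟨_, _, fun h1 h2 => (enc_half (kfc53_48.enc h1 h2))⟩
noncomputable def kfc53_67 : Fn2 := ⟨_, _, fun h1 h2 => (cv4r.enc (ycg.enc h1))⟩
noncomputable def kfc53_69 : Fn2 := ⟨_, _, fun h1 h2 => (enc_mul (kfc53_67.enc h1 h2) (bf4q3.enc (ycg.enc h1) h2))⟩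
noncomputable def kfc53 : Fn2 := ⟨_, _, fun h1 h2 => (enc_norm (enc_case (enc_subr 317 200 (ycg.enc h1)) (enc_mul (enc_norm (kfc53_9.enc h1 h2)) (enc_norm (enc_add (enc_subr 2415608066332779 4134943750000000 (enc_scale 21810127 49619325 h1)) (enc_mul (enc_norm (kfc53_11.enc h1 h2)) (enc_norm (enc_sub (enc_rat _ 16237329844905991 930362343750000) (enc_scale 1483711064 89314785 h1))))))) (enc_case (enc_subr 167 100 (ycg.enc h1)) (enc_add (kfc53_69.enc h1 h2) (enc_mul (enc_norm (enc_mul (enc_norm (enc_sub (enc_mul (enc_norm (enc_subn 2 (ycg.enc h1))) (enc_norm (enc_add (enc_mul (enc_norm (enc_sub (enc_sub (kfc53_50.enc h1 h2) (kfc53_49.enc h1 h2)) (enc_sub (enc_rat _ 1 4) (enc_scale 3 8 (enc_mul (enc_norm (kfc53_47.enc h1 h2)) (enc_inv (kfc53_48.enc h1 h2))))))) (enc_inv (esg.enc (enc_norm (kfc53_47.enc h1 h2))))) (kcg.enc (enc_norm (enc_sub (kfc53_49.enc h1 h2) (kfc53_50.enc h1 h2))) h2)))) (kfc53_69.enc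 h1 h2))) (enc_norm (enc_sub (kfc53_9.enc h1 h2) (kfc53_67.enc h1 h2))))) (enc_inv (enc_sub (kfc53_6.enc h1 h2) (kfc53_67.enc h1 h2))))) (enc_mul (enc_norm (kfc53_9.enc h1 h2)) (enc_norm (enc_case (enc_sub (enc_rat _ 67882251 100000000) h1) (enc_add (enc_subr 79627955572709 398602250000000 (enc_scale 79203974 342797935 h1)) (enc_mul (enc_norm (kfc53_11.enc h1 h2)) (enc_norm (enc_subr 13930703896186723 637763600000000 (enc_scale 6778594339 274238348 h1))))) (enc_sub (enc_sub (enc_rat _ 1 2) (enc_scale 18097500 22627417 h1)) (enc_mul (enc_norm (kfc53_11.enc h1 h2)) (enc_scale 506399000 67882251 h1)))))))))⟩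
noncomputable def lc53_6 : Fn2 := ⟨_, _, fun h1 h2 => (enc_subr 1 2 (swg.enc (ycg.enc h1)))⟩
noncomputable def lc53_9 : Fn2 := ⟨_, _, fun h1 h2 => (enc_add (enc_scale 3 4 (lc53_6.enc h1 h2)) (enc_scale 1 4 h1))⟩
noncomputable def lc53_11 : Fn2 := ⟨_, _, fun h1 h2 => (enc_subr 251 400 h2)⟩
noncomputable def lc53_54 : Fn2 := ⟨_, _, fun h1 h2 => (enc_subn 1 (ycg.enc h1))⟩
noncomputable def lc53_67 : Fn2 := ⟨_, _, fun h1 h2 => (cv4r.enc (ycg.enc h1))⟩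
noncomputable def lc53_69 : Fn2 := ⟨_, _, fun h1 h2 => (enc_mul (lc53_67.enc h1 h2) (bx4q3.enc (ycg.enc h1) h2))⟩
noncomputable def lc53 : Fn2 := ⟨_, _, fun h1 h2 => (enc_norm (enc_case (enc_subr 317 200 (ycg.enc h1)) (enc_mul (enc_norm (lc53_9.enc h1 h2)) (enc_norm (enc_add (enc_sub (enc_rat _ 21358366354752523 18607246875000000) (enc_scale 396912848 446573925 h1)) (enc_mul (enc_norm (lc53_11.enc h1 h2)) (enc_norm (enc_sub (enc_rat _ 13127776092895159 1860724687500000) (enc_scale 572604268 89314785 h1))))))) (enc_case (enc_subr 167 100 (ycg.enc h1)) (enc_add (lc53_69.enc h1 h2) (enc_mul (enc_norm (enc_mul (enc_norm (enc_sub (enc_sub (qsg.enc (enc_norm (lc53_54.enc h1 h2))) (enc_mul (enc_norm (enc_nat 2 (enc_sub (lc53_54.enc h1 h2) h2))) (enc_norm (enc_mul (esg.enc (enc_norm (lc53_54.enc h1 h2))) (kcg.enc (enc_norm (enc_sub (enc_scale 3 4 (lc53_54.enc h1 h2)) (enc_half (gsg.enc (enc_norm (lc53_54.enc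 h1 h2)))))) h2))))) (lc53_69.enc h1 h2))) (enc_norm (enc_sub (lc53_9.enc h1 h2) (lc53_67.enc h1 h2))))) (enc_inv (enc_sub (lc53_6.enc h1 h2) (lc53_67.enc h1 h2))))) (enc_mul (enc_norm (lc53_9.enc h1 h2)) (enc_norm (enc_case (enc_sub (enc_rat _ 67882251 100000000) h1) (enc_add (enc_add (enc_sub (enc_rat _ 1617607620891927 3188818000000000) (enc_scale 274419111 1371191740 h1)) (enc_mul (enc_norm (lc53_11.enc h1 h2)) (enc_norm (enc_sub (enc_rat _ 177165807316863 63776360000000) (enc_scale 338500795 137119174 h1))))) (enc_mul (enc_sq (enc_norm (lc53_11.enc h1 h2))) (enc_norm (enc_subr 58127729397 637763600000 (enc_scale 9205250 68559587 h1))))) (enc_add (enc_add (enc_scale 6279873 22627417 h1) (enc_rat _ 18302481 100000000)) (enc_mul (enc_norm (lc53_11.enc h1 h2)) (enc_norm (enc_sub (enc_rat _ 43861911 20000000) (enc_scale 36365185 22627417 h1)))))))))))⟩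
noncomputable def kcc53_6 : Fn2 := ⟨_, _, fun h1 h2 => (enc_subr 1 2 (swg.enc (ycg.enc h1)))⟩
noncomputable def kcc53_9 : Fn2 := ⟨_, _, fun h1 h2 => (enc_add (enc_scale 3 4 (kcc53_6.enc h1 h2)) (enc_scale 1 4 h1))⟩
noncomputable def kcc53_11 : Fn2 := ⟨_, _, fun h1 h2 => (enc_subr 251 400 h2)⟩
noncomputable def kcc53_34 : Fn2 := ⟨_, _, fun h1 h2 => (enc_subn 1 (ycg.enc h1))⟩
noncomputable def kcc53_35 : Fn2 := ⟨_, _, fun h1 h2 => (gsg.enc (enc_norm (kcc53_34.enc h1 h2)))⟩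
noncomputable def kcc53_39 : Fn2 := ⟨_, _, fun h1 h2 => (esg.enc (enc_norm (kcc53_34.enc h1 h2)))⟩
noncomputable def kcc53_44 : Fn2 := ⟨_, _, fun h1 h2 => (gug.enc (enc_norm (kcc53_34.enc h1 h2)))⟩
noncomputable def kcc53_46 : Fn2 := ⟨_, _, fun h1 h2 => (enc_mul (enc_norm (kcc53_34.enc h1 h2)) (enc_inv (kcc53_35.enc h1 h2)))⟩
noncomputable def kcc53_47 : Fn2 := ⟨_, _, fun h1 h2 => (enc_scale 3 4 (kcc53_46.enc h1 h2))⟩
noncomputable def kcc53_72 : Fn2 := ⟨_, _, fun h1 h2 => (cv4r.enc (ycg.enc h1))⟩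
noncomputable def kcc53_74 : Fn2 := ⟨_, _, fun h1 h2 => (enc_mul (kcc53_72.enc h1 h2) (bd4q3.enc (ycg.enc h1) h2))⟩
noncomputable def kcc53 : Fn2 := ⟨_, _, fun h1 h2 => (enc_norm (enc_case (enc_subr 317 200 (ycg.enc h1)) (enc_mul (enc_norm (kcc53_9.enc h1 h2)) (enc_norm (enc_add (enc_sub (enc_rat _ 272801579812074581 74428987500000000) (enc_scale 965226803 893147850 h1)) (enc_mul (enc_norm (kcc53_11.enc h1 h2)) (enc_norm (enc_subr 111315098249071603 1860724687500000 (enc_scale 4960287856 89314785 h1))))))) (enc_case (enc_subr 167 100 (ycg.enc h1)) (enc_add (kcc53_74.enc h1 h2) (enc_mul (enc_norm (enc_mul (enc_norm (enc_sub (enc_add (enc_sub (enc_add (enc_add (enc_rat _ 3 4) (enc_scale 3 2 (kcc53_34.enc h1 h2))) (enc_scale 3 4 (enc_mul (enc_norm (kcc53_46.enc h1 h2)) (kcc53_44.enc h1 h2)))) (enc_mul (enc_norm (enc_sub (enc_mul (enc_norm (enc_mul (enc_norm (kcc53_47.enc h1 h2)) (enc_norm (enc_subn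 3 (enc_nat 4 (kcc53_35.enc h1 h2)))))) (kcc53_39.enc h1 h2)) (enc_mul (qsg.enc (enc_norm (kcc53_34.enc h1 h2))) (enc_norm (enc_sub (enc_rat _ 1 2) (kcc53_47.enc h1 h2)))))) (enc_inv (enc_mul (enc_nat 2 (kcc53_39.enc h1 h2)) (kcc53_39.enc h1 h2))))) (enc_mul (kcg.enc (enc_norm (enc_sub (enc_scale 3 4 (kcc53_34.enc h1 h2)) (enc_half (kcc53_35.enc h1 h2)))) h2) (enc_norm (enc_sub (enc_pnc _ 1) (enc_add (kcc53_44.enc h1 h2) (enc_nat 2 (kcc53_35.enc h1 h2))))))) (kcc53_74.enc h1 h2))) (enc_norm (enc_sub (kcc53_9.enc h1 h2) (kcc53_72.enc h1 h2))))) (enc_inv (enc_sub (kcc53_6.enc h1 h2) (kcc53_72.enc h1 h2))))) (enc_mul (enc_norm (kcc53_9.enc h1 h2)) (enc_norm (enc_add (enc_add (enc_scale 185531509573 66714260060 h1) (enc_rat _ 14963 28000)) (enc_mul (enc_norm (kcc53_11.enc h1 h2)) (enc_norm (enc_subr 21401 5600 (enc_scale 14392605601 3335713003 h1))))))))))⟩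
noncomputable def cv6m : Fn1 := ⟨_, _, fun h1 => (enc_norm (enc_add (enc_half (enc_add (swg.enc h1) (enc_rat _ 1 2))) (enc_half (c3g.enc h1))))⟩
noncomputable def bf6q0_3 : Fn2 := ⟨_, _, fun h1 h2 => (enc_subr 251 400 h2)⟩
noncomputable def bf6q0 : Fn2 := ⟨_, _, fun h1 h2 => (enc_norm (enc_case (enc_subr 23 100 h1) (enc_case (enc_subr 3 25 h1) (enc_add (enc_sub (enc_rat _ 262741 500000) (enc_scale 15131 10000 h1)) (enc_mul (enc_norm (bf6q0_3.enc h1 h2)) (enc_norm (enc_add (enc_scale 56071 12000 h1) (enc_rat _ 16867 20000))))) (enc_add (enc_sub (enc_rat _ 2925191 5500000) (enc_scale 172281 110000 h1)) (enc_mul (enc_norm (bf6q0_3.enc h1 h2)) (enc_norm (enc_sub (enc_rat _ 1232601 550000) (enc_scale 9591 1375 h1)))))) (enc_case (enc_subr 7 20 h1) (enc_add (enc_sub (enc_rat _ 2123947 4000000) (enc_scale 62497 40000 h1)) (enc_mul (enc_norm (bf6q0_3.enc h1 h2)) (enc_norm (enc_sub (enc_rat _ 2268773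 1200000) (enc_scale 65419 12000 h1))))) (enc_case (enc_subr 79 200 h1) (enc_add (enc_sub (enc_rat _ 133987 250000) (enc_scale 7883 5000 h1)) (enc_mul (enc_norm (bf6q0_3.enc h1 h2)) (enc_norm (enc_subr 452609 900000 (enc_scale 3121 2250 h1))))) (enc_add (enc_sub (enc_rat _ 23672207 21000000) (enc_scale 80681 26250 h1)) (enc_mul (enc_norm (bf6q0_3.enc h1 h2)) (enc_norm (enc_subr 209479 525000 (enc_scale 11803 10500 h1)))))))))⟩
noncomputable def kf6q0 : Fn2 := ⟨_, _, fun h1 h2 => (enc_norm (enc_mul (cv6m.enc h1) (bf6q0.enc h1 h2)))⟩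
noncomputable def bx6q0_3 : Fn2 := ⟨_, _, fun h1 h2 => (enc_subr 251 400 h2)⟩
noncomputable def bx6q0 : Fn2 := ⟨_, _, fun h1 h2 => (enc_norm (enc_case (enc_subr 23 100 h1) (enc_case (enc_subr 3 25 h1) (enc_add (enc_add (enc_scale 127 1600 h1) (enc_rat _ 29051 250000)) (enc_mul (enc_norm (bx6q0_3.enc h1 h2)) (enc_norm (enc_sub (enc_rat _ 11261 20000) (enc_scale 3213 4000 h1))))) (enc_add (enc_sub (enc_rat _ 320759 2200000) (enc_scale 9199 55000 h1)) (enc_mul (enc_norm (bx6q0_3.enc h1 h2)) (enc_norm (enc_sub (enc_rat _ 432511 550000) (enc_scale 7327 2750 h1)))))) (enc_case (enc_subr 7 20 h1) (enc_add (enc_sub (enc_rat _ 898849 6000000) (enc_scale 11081 60000 h1)) (enc_mul (enc_norm (bx6q0_3.enc h1 h2)) (enc_norm (enc_sub (enc_rat _ 327823 600000) (enc_scale 389 240 h1))))) (enc_case (enc_subr 79 200 h1) (enc_add (enc_sub (enc_rat _ 1403731 9000000) (enc_scale 9103 45000 h1)) (enc_mul (enc_norm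 (bx6q0_3.enc h1 h2)) (enc_norm (enc_subr 21731 50000 (enc_scale 591 500 h1))))) (enc_add (enc_sub (enc_rat _ 39189 218750) (enc_scale 4567 17500 h1)) (enc_mul (enc_norm (bx6q0_3.enc h1 h2)) (enc_norm (enc_subr 525997 2100000 (enc_scale 1879 2625 h1)))))))))⟩
noncomputable def l6q0 : Fn2 := ⟨_, _, fun h1 h2 => (enc_norm (enc_mul (cv6m.enc h1) (bx6q0.enc h1 h2)))⟩
noncomputable def bd6q0 : Fn2 := ⟨_, _, fun h1 h2 => (enc_norm (enc_add (enc_sub (enc_rat _ 29799 500000) (enc_scale 1180153 500000 h1)) (enc_mul (enc_norm (enc_subr 251 400 h2)) (enc_norm (enc_sub (enc_rat _ 43223 4000) (enc_scale 334499 12500 h1))))))⟩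
noncomputable def kc6q0 : Fn2 := ⟨_, _, fun h1 h2 => (enc_norm (enc_mul (cv6m.enc h1) (bd6q0.enc h1 h2)))⟩
noncomputable def bf6q1_3 : Fn2 := ⟨_, _, fun h1 h2 => (enc_subr 251 400 h2)⟩
noncomputable def bf6q1 : Fn2 := ⟨_, _, fun h1 h2 => (enc_norm (enc_case (enc_subr 67 100 h1) (enc_add (enc_subr 1925893 8500000 (enc_scale 226803 170000 h1)) (enc_mul (enc_norm (bf6q1_3.enc h1 h2)) (enc_norm (enc_subr 91423 340000 (enc_scale 2463 17000 h1))))) (enc_case (enc_subr 83 100 h1) (enc_add (enc_subr 2394109 16000000 (enc_scale 195087 160000 h1)) (enc_mul (enc_norm (bf6q1_3.enc h1 h2)) (enc_norm (enc_subr 4513 80000 (enc_neg (enc_scale 689 4000 h1)))))) (enc_add (enc_add (enc_scale 68809 85000 h1) (enc_rat _ 16191 85000)) (enc_mul (enc_norm (bf6q1_3.enc h1 h2)) (enc_norm (enc_subr 9969 8500 (enc_scale 9969 8500 h1))))))))⟩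
noncomputable def kf6q1 : Fn2 := ⟨_, _, fun h1 h2 => (enc_norm (enc_mul (cv6m.enc h1) (bf6q1.enc h1 h2)))⟩
noncomputable def bx6q1_3 : Fn2 := ⟨_, _, fun h1 h2 => (enc_subr 251 400 h2)⟩
noncomputable def bx6q1 : Fn2 := ⟨_, _, fun h1 h2 => (enc_norm (enc_case (enc_subr 67 100 h1) (enc_add (enc_sub (enc_rat _ 2087919 17000000) (enc_scale 1662 10625 h1)) (enc_mul (enc_norm (bx6q1_3.enc h1 h2)) (enc_norm (enc_subr 12149 85000 (enc_scale 1231 3400 h1))))) (enc_case (enc_subr 83 100 h1) (enc_add (enc_sub (enc_rat _ 214837 4000000) (enc_scale 2131 40000 h1)) (enc_mul (enc_norm (bx6q1_3.enc h1 h2)) (enc_norm (enc_sub (enc_rat _ 595007 1600000) (enc_scale 6501 16000 h1))))) (enc_add (enc_sub (enc_rat _ 9491 170000) (enc_scale 9491 170000 h1)) (enc_mul (enc_norm (bx6q1_3.enc h1 h2)) (enc_norm (enc_sub (enc_rat _ 433 2125) (enc_scale 433 2125 h1))))))))⟩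
noncomputable def l6q1 : Fn2 := ⟨_, _, fun h1 h2 => (enc_norm (enc_mul (cv6m.enc h1) (bx6q1.enc h1 h2)))⟩
noncomputable def bd6q1 : Fn2 := ⟨_, _, fun h1 h2 => (enc_norm (enc_add (enc_sub (enc_rat _ 13127 100000) (enc_scale 13127 100000 h1)) (enc_mul (enc_norm (enc_subr 251 400 h2)) (enc_norm (enc_subr 390943 50000 (enc_scale 390943 50000 h1))))))⟩
noncomputable def kc6q1 : Fn2 := ⟨_, _, fun h1 h2 => (enc_norm (enc_mul (cv6m.enc h1) (bd6q1.enc h1 h2)))⟩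
noncomputable def cv6p : Fn1 := ⟨_, _, fun h1 => (enc_norm (enc_add (enc_half (enc_subr 1 2 (swg.enc h1))) (enc_half (c3g.enc h1))))⟩
noncomputable def bf6q2_3 : Fn2 := ⟨_, _, fun h1 h2 => (enc_subr 251 400 h2)⟩
noncomputable def bf6q2 : Fn2 := ⟨_, _, fun h1 h2 => (enc_norm (enc_case (enc_subr 117 100 h1) (enc_add (enc_subr 4995009 3400000 (enc_scale 93561 42500 h1)) (enc_mul (enc_norm (bf6q2_3.enc h1 h2)) (enc_norm (enc_sub (enc_rat _ 37513223 1700000) (enc_scale 69749 3400 h1))))) (enc_case (enc_subr 133 100 h1) (enc_add (enc_sub (enc_rat _ 68460831 16000000) (enc_scale 433811 160000 h1)) (enc_mul (enc_norm (bf6q2_3.enc h1 h2)) (enc_norm (enc_subr 12171287 1600000 (enc_scale 77563 16000 h1))))) (enc_add (enc_sub (enc_rat _ 83011863 17000000) (enc_scale 538159 170000 h1)) (enc_mul (enc_norm (bf6q2_3.enc h1 h2)) (enc_norm (enc_subr 157679 6250 (enc_scale 18097 1000 h1))))))))⟩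
noncomputable def kf6q2 : Fn2 := ⟨_, _, fun h1 h2 => (enc_norm (enc_mul (cv6p.enc h1) (bf6q2.enc h1 h2)))⟩
noncomputable def bx6q2_3 : Fn2 := ⟨_, _, fun h1 h2 => (enc_subr 251 400 h2)⟩
noncomputable def bx6q2 : Fn2 := ⟨_, _, fun h1 h2 => (enc_norm (enc_case (enc_subr 117 100 h1) (enc_add (enc_sub (enc_rat _ 3477629 17000000) (enc_scale 14121 85000 h1)) (enc_mul (enc_norm (bx6q2_3.enc h1 h2)) (enc_norm (enc_subr 9658943 1700000 (enc_scale 43341 8500 h1))))) (enc_case (enc_subr 133 100 h1) (enc_add (enc_subr 150647 1600000 (enc_scale 1427 16000 h1)) (enc_mul (enc_norm (bx6q2_3.enc h1 h2)) (enc_norm (enc_sub (enc_rat _ 605947 320000) (enc_scale 22011 16000 h1))))) (enc_add (enc_subr 1442 265625 (enc_scale 3821 170000 h1)) (enc_mul (enc_norm (bx6q2_3.enc h1 h2)) (enc_norm (enc_sub (enc_rat _ 2957391 1700000) (enc_scale 21419 17000 h1))))))))⟩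
noncomputable def l6q2 : Fn2 := ⟨_, _, fun h1 h2 => (enc_norm (enc_mul (cv6p.enc h1) (bx6q2.enc h1 h2)))⟩
noncomputable def bd6q2 : Fn2 := ⟨_, _, fun h1 h2 => (enc_norm (enc_add (enc_subr 239677 500000 (enc_scale 46941 100000 h1)) (enc_mul (enc_norm (enc_subr 251 400 h2)) (enc_norm (enc_subr 48803 3125 (enc_scale 43047 3125 h1))))))⟩
noncomputable def kc6q2 : Fn2 := ⟨_, _, fun h1 h2 => (enc_norm (enc_mul (cv6p.enc h1) (bd6q2.enc h1 h2)))⟩
noncomputable def xc63 : Fn1 := ⟨_, _, fun h1 => (enc_norm (enc_add (enc_half (enc_subr 1 2 (swg.enc (ycg.enc h1)))) (enc_half h1)))⟩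
noncomputable def kfc63_11 : Fn2 := ⟨_, _, fun h1 h2 => (enc_subr 251 400 h2)⟩
noncomputable def kfc63 : Fn2 := ⟨_, _, fun h1 h2 => (enc_norm (enc_mul (enc_norm (enc_add (enc_half (enc_subr 1 2 (swg.enc (ycg.enc h1)))) (enc_half h1))) (enc_norm (enc_case (enc_sub (enc_rat _ 489419299 500000000) h1) (enc_case (enc_sub (enc_rat _ 1033431783 1000000000) h1) (enc_add (enc_sub (enc_rat _ 1775162943931 2337752937500) (enc_scale 97516000 112212141 h1)) (enc_mul (enc_norm (kfc63_11.enc h1 h2)) (enc_norm (enc_sub (enc_rat _ 1318716136523 1870202350000) (enc_scale 41470000 37404047 h1))))) (enc_add (enc_sub (enc_rat _ 37259112554989 54593185000000) (enc_scale 8676600 10918637 h1)) (enc_mul (enc_norm (kfc63_11.enc h1 h2)) (enc_norm (enc_subr 120170066983 545931850000 (enc_neg (enc_scale 2330000 10918637 h1))))))) (enc_case (enc_sub (enc_rat _ 403213653 500000000) h1) (enc_add (enc_sub (enc_rat _ 24138147206871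 43102823000000) (enc_scale 28859000 43102823 h1)) (enc_mul (enc_norm (kfc63_11.enc h1 h2)) (enc_norm (enc_subr 557392716341 269392643750 (enc_scale 72220000 43102823 h1))))) (enc_case (enc_sub (enc_rat _ 147732867 250000000) h1) (enc_add (enc_sub (enc_rat _ 1037545505313 2394398200000) (enc_scale 55214000 107747919 h1)) (enc_mul (enc_norm (kfc63_11.enc h1 h2)) (enc_norm (enc_subr 1208686621033 598599550000 (enc_scale 173870000 107747919 h1))))) (enc_sub (enc_sub (enc_rat _ 1 2) (enc_scale 92373250 147732867 h1)) (enc_mul (enc_norm (kfc63_11.enc h1 h2)) (enc_scale 266405000 147732867 h1)))))))))⟩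
noncomputable def lc63_11 : Fn2 := ⟨_, _, fun h1 h2 => (enc_subr 251 400 h2)⟩
noncomputable def lc63 : Fn2 := ⟨_, _, fun h1 h2 => (enc_norm (enc_mul (enc_norm (enc_add (enc_half (enc_subr 1 2 (swg.enc (ycg.enc h1)))) (enc_half h1))) (enc_norm (enc_case (enc_sub (enc_rat _ 489419299 500000000) h1) (enc_case (enc_sub (enc_rat _ 1033431783 1000000000) h1) (enc_add (enc_sub (enc_rat _ 8677993576101 7480809400000) (enc_scale 36613000 37404047 h1)) (enc_mul (enc_norm (lc63_11.enc h1 h2)) (enc_norm (enc_sub (enc_rat _ 9481157834873 3740404700000) (enc_scale 267070000 112212141 h1))))) (enc_add (enc_sub (enc_rat _ 27887468172477 27296592500000) (enc_scale 9225600 10918637 h1)) (enc_mul (enc_norm (lc63_11.enc h1 h2)) (enc_norm (enc_sub (enc_rat _ 5128484796627 2729659250000) (enc_scale 19056000 10918637 h1)))))) (enc_case (enc_sub (enc_rat _ 403213653 500000000) h1) (enc_add (enc_sub (enc_rat _ 73683598500977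 86205646000000) (enc_scale 29069750 43102823 h1)) (enc_mul (enc_norm (lc63_11.enc h1 h2)) (enc_norm (enc_sub (enc_rat _ 1903257387251 1077570575000) (enc_scale 70270000 43102823 h1))))) (enc_case (enc_sub (enc_rat _ 147732867 250000000) h1) (enc_add (enc_sub (enc_rat _ 250261712563 478879640000) (enc_scale 9430000 35915973 h1)) (enc_mul (enc_norm (lc63_11.enc h1 h2)) (enc_norm (enc_sub (enc_rat _ 99189093677 47887964000) (enc_scale 216415000 107747919 h1))))) (enc_add (enc_add (enc_scale 92210095 295465734 h1) (enc_rat _ 18302481 100000000)) (enc_mul (enc_norm (lc63_11.enc h1 h2)) (enc_norm (enc_sub (enc_rat _ 43861911 20000000) (enc_scale 72706975 32829526 h1)))))))))))⟩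
noncomputable def kcc63 : Fn2 := ⟨_, _, fun h1 h2 => (enc_norm (enc_mul (enc_norm (enc_add (enc_half (enc_subr 1 2 (swg.enc (ycg.enc h1)))) (enc_half h1))) (enc_norm (enc_add (enc_add (enc_scale 2731230500 2004876867 h1) (enc_rat _ 14963 28000)) (enc_mul (enc_norm (enc_subr 251 400 h2)) (enc_norm (enc_subr 21401 5600 (enc_scale 9416727500 2004876867 h1))))))))⟩
noncomputable def cv7m : Fn1 := ⟨_, _, fun h1 => (enc_norm (enc_add (enc_scale 1 4 (enc_add (swg.enc h1) (enc_rat _ 1 2))) (enc_scale 3 4 (c3g.enc h1))))⟩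
noncomputable def bf7q0_3 : Fn2 := ⟨_, _, fun h1 h2 => (enc_subr 251 400 h2)⟩
noncomputable def bf7q0 : Fn2 := ⟨_, _, fun h1 h2 => (enc_norm (enc_case (enc_subr 23 100 h1) (enc_case (enc_subr 3 25 h1) (enc_add (enc_sub (enc_rat _ 252931 1000000) (enc_scale 13371 20000 h1)) (enc_mul (enc_norm (bf7q0_3.enc h1 h2)) (enc_norm (enc_add (enc_scale 16333 4000 h1) (enc_rat _ 55369 100000))))) (enc_add (enc_sub (enc_rat _ 3432383 11000000) (enc_scale 127719 110000 h1)) (enc_mul (enc_norm (bf7q0_3.enc h1 h2)) (enc_norm (enc_sub (enc_rat _ 127607 68750) (enc_scale 9309 1375 h1)))))) (enc_case (enc_subr 7 20 h1) (enc_add (enc_sub (enc_rat _ 1872809 6000000) (enc_scale 69691 60000 h1)) (enc_mul (enc_norm (bf7q0_3.enc h1 h2)) (enc_norm (enc_sub (enc_rat _ 19089 25000) (enc_scale 101 50 h1))))) (enc_case (enc_subr 79 200 h1) (enc_add (enc_sub (enc_rat _ 1015619 2250000) (enc_scale 17543 11250 h1)) (enc_mul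 (enc_norm (bf7q0_3.enc h1 h2)) (enc_norm (enc_sub (enc_rat _ 1449 25000) (enc_scale 1 250 h1))))) (enc_add (enc_sub (enc_rat _ 17729581 21000000) (enc_scale 268171 105000 h1)) (enc_mul (enc_norm (bf7q0_3.enc h1 h2)) (enc_norm (enc_subr 1206827 2100000 (enc_scale 671 420 h1)))))))))⟩
noncomputable def kf7q0 : Fn2 := ⟨_, _, fun h1 h2 => (enc_norm (enc_mul (cv7m.enc h1) (bf7q0.enc h1 h2)))⟩
noncomputable def bx7q0_3 : Fn2 := ⟨_, _, fun h1 h2 => (enc_subr 251 400 h2)⟩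
noncomputable def bx7q0 : Fn2 := ⟨_, _, fun h1 h2 => (enc_norm (enc_case (enc_subr 23 100 h1) (enc_case (enc_subr 3 25 h1) (enc_add (enc_sub (enc_rat _ 156409 1000000) (enc_scale 14897 120000 h1)) (enc_mul (enc_norm (bx7q0_3.enc h1 h2)) (enc_norm (enc_add (enc_scale 133 1500 h1) (enc_rat _ 33963 100000))))) (enc_add (enc_sub (enc_rat _ 249647 1375000) (enc_scale 4589 13750 h1)) (enc_mul (enc_norm (bx7q0_3.enc h1 h2)) (enc_norm (enc_sub (enc_rat _ 697501 1100000) (enc_scale 26017 11000 h1)))))) (enc_case (enc_subr 7 20 h1) (enc_add (enc_sub (enc_rat _ 354629 2400000) (enc_scale 4483 24000 h1)) (enc_mul (enc_norm (bx7q0_3.enc h1 h2)) (enc_norm (enc_sub (enc_rat _ 83627 400000) (enc_scale 2069 4000 h1))))) (enc_case (enc_subr 79 200 h1) (enc_add (enc_sub (enc_rat _ 284009 1800000) (enc_scale 4847 22500 h1)) (enc_mul (enc_norm (bx7q0_3.enc h1 h2)) (enc_norm (enc_sub (enc_rat _ 3713 100000) (enc_scale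 13 500 h1))))) (enc_add (enc_sub (enc_rat _ 18918 109375) (enc_scale 1777 7000 h1)) (enc_mul (enc_norm (bx7q0_3.enc h1 h2)) (enc_norm (enc_subr 35471 420000 (enc_scale 2959 10500 h1)))))))))⟩
noncomputable def l7q0 : Fn2 := ⟨_, _, fun h1 h2 => (enc_norm (enc_mul (cv7m.enc h1) (bx7q0.enc h1 h2)))⟩
noncomputable def bd7q0 : Fn2 := ⟨_, _, fun h1 h2 => (enc_norm (enc_add (enc_sub (enc_rat _ 89951 125000) (enc_scale 1299781 500000 h1)) (enc_mul (enc_norm (enc_subr 251 400 h2)) (enc_norm (enc_sub (enc_rat _ 299999 20000) (enc_scale 1838851 50000 h1))))))⟩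
noncomputable def kc7q0 : Fn2 := ⟨_, _, fun h1 h2 => (enc_norm (enc_mul (cv7m.enc h1) (bd7q0.enc h1 h2)))⟩
noncomputable def bf7q1_3 : Fn2 := ⟨_, _, fun h1 h2 => (enc_subr 251 400 h2)⟩
noncomputable def bf7q1 : Fn2 := ⟨_, _, fun h1 h2 => (enc_norm (enc_case (enc_subr 67 100 h1) (enc_add (enc_subr 365401 1700000 (enc_scale 114871 85000 h1)) (enc_mul (enc_norm (bf7q1_3.enc h1 h2)) (enc_norm (enc_subr 510583 1700000 (enc_scale 4143 17000 h1))))) (enc_case (enc_subr 83 100 h1) (enc_add (enc_subr 121987 2000000 (enc_scale 22433 20000 h1)) (enc_mul (enc_norm (bf7q1_3.enc h1 h2)) (enc_norm (enc_subr 181173 1600000 (enc_neg (enc_scale 569 16000 h1)))))) (enc_add (enc_add (enc_scale 16253 21250 h1) (enc_rat _ 4997 21250)) (enc_mul (enc_norm (bf7q1_3.enc h1 h2)) (enc_norm (enc_subr 571 680 (enc_scale 571 680 h1))))))))⟩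
noncomputable def kf7q1 : Fn2 := ⟨_, _, fun h1 h2 => (enc_norm (enc_mul (cv7m.enc h1) (bf7q1.enc h1 h2)))⟩
noncomputable def bx7q1_3 : Fn2 := ⟨_, _, fun h1 h2 => (enc_subr 251 400 h2)⟩
noncomputable def bx7q1 : Fn2 := ⟨_, _, fun h1 h2 => (enc_norm (enc_case (enc_subr 67 100 h1) (enc_add (enc_sub (enc_rat _ 315577 3400000) (enc_scale 3377 34000 h1)) (enc_mul (enc_norm (bx7q1_3.enc h1 h2)) (enc_norm (enc_sub (enc_rat _ 301931 1700000) (enc_scale 3083 17000 h1))))) (enc_case (enc_subr 83 100 h1) (enc_add (enc_sub (enc_rat _ 1223181 16000000) (enc_scale 11983 160000 h1)) (enc_mul (enc_norm (bx7q1_3.enc h1 h2)) (enc_norm (enc_sub (enc_rat _ 26929 400000) (enc_scale 67 4000 h1))))) (enc_add (enc_sub (enc_rat _ 14287 170000) (enc_scale 14287 170000 h1)) (enc_mul (enc_norm (bx7q1_3.enc h1 h2)) (enc_norm (enc_sub (enc_rat _ 2671 8500) (enc_scale 2671 8500 h1))))))))⟩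
noncomputable def l7q1 : Fn2 := ⟨_, _, fun h1 h2 => (enc_norm (enc_mul (cv7m.enc h1) (bx7q1.enc h1 h2)))⟩
noncomputable def bd7q1 : Fn2 := ⟨_, _, fun h1 h2 => (enc_norm (enc_add (enc_subr 13089 500000 (enc_scale 13089 500000 h1)) (enc_mul (enc_norm (enc_subr 251 400 h2)) (enc_norm (enc_subr 402097 50000 (enc_scale 402097 50000 h1))))))⟩
noncomputable def kc7q1 : Fn2 := ⟨_, _, fun h1 h2 => (enc_norm (enc_mul (cv7m.enc h1) (bd7q1.enc h1 h2)))⟩
noncomputable def cv7p : Fn1 := ⟨_, _, fun h1 => (enc_norm (enc_add (enc_scale 1 4 (enc_subr 1 2 (swg.enc h1))) (enc_scale 3 4 (c3g.enc h1))))⟩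
noncomputable def bf7q2_3 : Fn2 := ⟨_, _, fun h1 h2 => (enc_subr 251 400 h2)⟩
noncomputable def bf7q2 : Fn2 := ⟨_, _, fun h1 h2 => (enc_norm (enc_case (enc_subr 117 100 h1) (enc_add (enc_add (enc_scale 40773 85000 h1) (enc_rat _ 1826521 4250000)) (enc_mul (enc_norm (bf7q2_3.enc h1 h2)) (enc_norm (enc_sub (enc_rat _ 71329 13600) (enc_scale 10896 2125 h1))))) (enc_case (enc_subr 133 100 h1) (enc_add (enc_sub (enc_rat _ 5583373 2000000) (enc_scale 30781 20000 h1)) (enc_mul (enc_norm (bf7q2_3.enc h1 h2)) (enc_norm (enc_sub (enc_rat _ 1210717 1600000) (enc_scale 4133 3200 h1))))) (enc_add (enc_sub (enc_rat _ 347957 85000) (enc_scale 8561 3400 h1)) (enc_mul (enc_norm (bf7q2_3.enc h1 h2)) (enc_norm (enc_subr 11754173 850000 (enc_scale 16447 1700 h1))))))))⟩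
noncomputable def kf7q2 : Fn2 := ⟨_, _, fun h1 h2 => (enc_norm (enc_mul (cv7p.enc h1) (bf7q2.enc h1 h2)))⟩
noncomputable def bx7q2_3 : Fn2 := ⟨_, _, fun h1 h2 => (enc_subr 251 400 h2)⟩
noncomputable def bx7q2 : Fn2 := ⟨_, _, fun h1 h2 => (enc_norm (enc_case (enc_subr 117 100 h1) (enc_add (enc_sub (enc_rat _ 1220867 8500000) (enc_scale 13543 85000 h1)) (enc_mul (enc_norm (bx7q2_3.enc h1 h2)) (enc_norm (enc_subr 3334117 1700000 (enc_scale 16169 8500 h1))))) (enc_case (enc_subr 133 100 h1) (enc_add (enc_sub (enc_rat _ 1572901 8000000) (enc_scale 16369 80000 h1)) (enc_mul (enc_norm (bx7q2_3.enc h1 h2)) (enc_norm (enc_subr 411743 400000 (enc_scale 4423 4000 h1))))) (enc_add (enc_subr 1100181 3400000 (enc_scale 31707 170000 h1)) (enc_mul (enc_norm (bx7q2_3.enc h1 h2)) (enc_norm (enc_sub (enc_rat _ 10062321 1700000) (enc_scale 8752 2125 h1))))))))⟩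
noncomputable def l7q2 : Fn2 := ⟨_, _, fun h1 h2 => (enc_norm (enc_mul (cv7p.enc h1) (bx7q2.enc h1 h2)))⟩
noncomputable def bd7q2 : Fn2 := ⟨_, _, fun h1 h2 => (enc_norm (enc_add (enc_subr 53629 125000 (enc_scale 205047 500000 h1)) (enc_mul (enc_norm (enc_subr 251 400 h2)) (enc_norm (enc_subr 50221 5000 (enc_scale 457431 50000 h1))))))⟩
noncomputable def kc7q2 : Fn2 := ⟨_, _, fun h1 h2 => (enc_norm (enc_mul (cv7p.enc h1) (bd7q2.enc h1 h2)))⟩
noncomputable def xc73 : Fn1 := ⟨_, _, fun h1 => (enc_norm (enc_add (enc_scale 1 4 (enc_subr 1 2 (swg.enc (ycg.enc h1)))) (enc_scale 3 4 h1)))⟩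
noncomputable def kfc73_11 : Fn2 := ⟨_, _, fun h1 h2 => (enc_subr 251 400 h2)⟩
noncomputable def kfc73 : Fn2 := ⟨_, _, fun h1 h2 => (enc_norm (enc_mul (enc_norm (enc_add (enc_scale 1 4 (enc_subr 1 2 (swg.enc (ycg.enc h1)))) (enc_scale 3 4 h1))) (enc_norm (enc_case (enc_sub (enc_rat _ 489419299 500000000) h1) (enc_case (enc_sub (enc_rat _ 1033431783 1000000000) h1) (enc_add (enc_sub (enc_rat _ 23299153216237 18702023500000) (enc_scale 51427000 37404047 h1)) (enc_mul (enc_norm (kfc73_11.enc h1 h2)) (enc_norm (enc_subr 4059691106447 3740404700000 (enc_scale 31980000 37404047 h1))))) (enc_add (enc_sub (enc_rat _ 54249007586701 54593185000000) (enc_scale 12348400 10918637 h1)) (enc_mul (enc_norm (kfc73_11.enc h1 h2)) (enc_norm (enc_subr 4158527094229 5459318500000 (enc_scale 5916000 10918637 h1)))))) (enc_case (enc_sub (enc_rat _ 403213653 500000000) h1) (enc_add (enc_sub (enc_rat _ 2018826257449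 2693926437500) (enc_scale 37989500 43102823 h1)) (enc_mul (enc_norm (kfc73_11.enc h1 h2)) (enc_norm (enc_subr 2289659868799 8620564600000 (enc_scale 1507500 43102823 h1))))) (enc_case (enc_sub (enc_rat _ 147732867 250000000) h1) (enc_add (enc_sub (enc_rat _ 102030012547 187062359375) (enc_scale 67713500 107747919 h1)) (enc_mul (enc_norm (kfc73_11.enc h1 h2)) (enc_norm (enc_sub (enc_rat _ 74013545461 299299775000) (enc_scale 64760000 107747919 h1))))) (enc_sub (enc_sub (enc_rat _ 1 2) (enc_scale 81483500 147732867 h1)) (enc_mul (enc_norm (kfc73_11.enc h1 h2)) (enc_scale 8990000 49244289 h1)))))))))⟩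
noncomputable def lc73_11 : Fn2 := ⟨_, _, fun h1 h2 => (enc_subr 251 400 h2)⟩
noncomputable def lc73 : Fn2 := ⟨_, _, fun h1 h2 => (enc_norm (enc_mul (enc_norm (enc_add (enc_scale 1 4 (enc_subr 1 2 (swg.enc (ycg.enc h1)))) (enc_scale 3 4 h1))) (enc_norm (enc_case (enc_sub (enc_rat _ 489419299 500000000) h1) (enc_case (enc_sub (enc_rat _ 1033431783 1000000000) h1) (enc_add (enc_sub (enc_rat _ 4082811993921 4675505875000) (enc_scale 29224000 37404047 h1)) (enc_mul (enc_norm (lc73_11.enc h1 h2)) (enc_norm (enc_sub (enc_rat _ 1546988032339 935101175000) (enc_scale 181150000 112212141 h1))))) (enc_add (enc_sub (enc_rat _ 12066464358501 13648296250000) (enc_scale 8645600 10918637 h1)) (enc_mul (enc_norm (lc73_11.enc h1 h2)) (enc_norm (enc_sub (enc_rat _ 336679175321 170603703125) (enc_scale 20998000 10918637 h1)))))) (enc_case (enc_sub (enc_rat _ 403213653 500000000) h1) (enc_add (enc_sub (enc_rat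 _ 40689207560593 43102823000000) (enc_scale 36767500 43102823 h1)) (enc_mul (enc_norm (lc73_11.enc h1 h2)) (enc_norm (enc_sub (enc_rat _ 18092957299027 8620564600000) (enc_scale 88412500 43102823 h1))))) (enc_case (enc_sub (enc_rat _ 147732867 250000000) h1) (enc_add (enc_sub (enc_rat _ 1096916905553 1496498875000) (enc_scale 21239000 35915973 h1)) (enc_mul (enc_norm (lc73_11.enc h1 h2)) (enc_norm (enc_subr 32731983847 299299775000 (enc_scale 8225000 11971991 h1))))) (enc_add (enc_add (enc_scale 100257595 295465734 h1) (enc_rat _ 18302481 100000000)) (enc_mul (enc_norm (lc73_11.enc h1 h2)) (enc_norm (enc_sub (enc_rat _ 43861911 20000000) (enc_scale 948237775 295465734 h1)))))))))))⟩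
noncomputable def kcc73 : Fn2 := ⟨_, _, fun h1 h2 => (enc_norm (enc_mul (enc_norm (enc_add (enc_scale 1 4 (enc_subr 1 2 (swg.enc (ycg.enc h1)))) (enc_scale 3 4 h1))) (enc_norm (enc_add (enc_add (enc_scale 364522750 668292289 h1) (enc_rat _ 14963 28000)) (enc_mul (enc_norm (enc_subr 251 400 h2)) (enc_norm (enc_subr 21401 5600 (enc_scale 10267752500 2004876867 h1))))))))⟩
noncomputable def kf8q0 : Fn2 := ⟨_, _, fun h1 h2 => (enc_norm (enc_sub (enc_mul h1 (kcg.enc (enc_half h1) h2)) (enc_mul (enc_norm (enc_mul (enc_sq h1) (enc_norm (enc_add (c3g.enc h1) (enc_rat _ 3 2))))) (enc_inv (enc_mul (enc_norm (enc_sub (enc_pnc _ 1) h1)) (enc_norm (enc_add (enc_pnc _ 1) h1)))))))⟩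
noncomputable def l8q0_6 : Fn2 := ⟨_, _, fun h1 h2 => (enc_half h1)⟩
noncomputable def l8q0_7 : Fn2 := ⟨_, _, fun h1 h2 => (enc_half (c3g.enc h1))⟩
noncomputable def l8q0_8 : Fn2 := ⟨_, _, fun h1 h2 => (enc_scale 1 4 h1)⟩
noncomputable def l8q0 : Fn2 := ⟨_, _, fun h1 h2 => (enc_norm (enc_add (txg.enc (l8q0_6.enc h1 h2) (enc_norm (enc_sub (l8q0_7.enc h1 h2) (l8q0_8.enc h1 h2))) h2) (txg.enc (enc_neg (l8q0_6.enc h1 h2)) (enc_norm (enc_add (l8q0_7.enc h1 h2) (l8q0_8.enc h1 h2))) h2)))⟩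
noncomputable def kc8q0_3 : Fn2 := ⟨_, _, fun h1 h2 => (enc_subr 251 400 h2)⟩
noncomputable def kc8q0_6 : Fn2 := ⟨_, _, fun h1 h2 => (enc_half h1)⟩
noncomputable def kc8q0 : Fn2 := ⟨_, _, fun h1 h2 => (enc_norm (enc_case (enc_subr 1 4 (kc8q0_6.enc h1 h2)) (enc_case (enc_subr 13 100 (kc8q0_6.enc h1 h2)) (enc_add (enc_sub (enc_rat _ 2160797 1000000) (enc_scale 74657 16250 h1)) (enc_mul (enc_norm (kc8q0_3.enc h1 h2)) (enc_norm (enc_sub (enc_rat _ 318647 10000) (enc_scale 504749 6500 h1))))) (enc_add (enc_sub (enc_rat _ 26020103 12000000) (enc_scale 1109591 240000 h1)) (enc_mul (enc_norm (kc8q0_3.enc h1 h2)) (enc_norm (enc_sub (enc_rat _ 38185957 1200000) (enc_scale 1859713 24000 h1)))))) (enc_case (enc_subr 19 50 (kc8q0_6.enc h1 h2)) (enc_add (enc_subr 3740303 13000000 (enc_scale 75093 260000 h1)) (enc_mul (enc_norm (kc8q0_3.enc h1 h2)) (enc_norm (enc_subr 18490807 1300000 (enc_scale 94917 6500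 h1))))) (enc_add (enc_subr 68213 240000 (enc_scale 68213 240000 h1)) (enc_mul (enc_norm (kc8q0_3.enc h1 h2)) (enc_norm (enc_subr 312571 24000 (enc_scale 312571 24000 h1))))))))⟩
noncomputable def kf8q1 : Fn2 := ⟨_, _, fun h1 h2 => (enc_norm (enc_add (enc_mul (enc_norm (enc_mul h1 (enc_norm (enc_add (c3g.enc h1) (enc_rat _ 3 2))))) (enc_inv (enc_add (enc_pnc _ 1) h1))) (enc_mul (enc_norm (enc_subn 1 h1)) (kcg.enc (enc_half h1) h2))))⟩
noncomputable def l8q1_7 : Fn2 := ⟨_, _, fun h1 h2 => (enc_half h1)⟩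
noncomputable def l8q1_8 : Fn2 := ⟨_, _, fun h1 h2 => (enc_half (c3g.enc h1))⟩
noncomputable def l8q1_9 : Fn2 := ⟨_, _, fun h1 h2 => (enc_scale 1 4 h1)⟩
noncomputable def l8q1 : Fn2 := ⟨_, _, fun h1 h2 => (enc_norm (enc_add (txg.enc (l8q1_7.enc h1 h2) (enc_norm (enc_sub (l8q1_8.enc h1 h2) (l8q1_9.enc h1 h2))) h2) (txg.enc (enc_neg (l8q1_7.enc h1 h2)) (enc_norm (enc_add (l8q1_8.enc h1 h2) (l8q1_9.enc h1 h2))) h2)))⟩
noncomputable def kc8q1_3 : Fn2 := ⟨_, _, fun h1 h2 => (enc_subr 251 400 h2)⟩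
noncomputable def kc8q1_7 : Fn2 := ⟨_, _, fun h1 h2 => (enc_half h1)⟩
noncomputable def kc8q1 : Fn2 := ⟨_, _, fun h1 h2 => (enc_norm (enc_case (enc_subr 1 4 (kc8q1_7.enc h1 h2)) (enc_case (enc_subr 13 100 (kc8q1_7.enc h1 h2)) (enc_add (enc_sub (enc_rat _ 2160797 1000000) (enc_scale 74657 16250 h1)) (enc_mul (enc_norm (kc8q1_3.enc h1 h2)) (enc_norm (enc_sub (enc_rat _ 318647 10000) (enc_scale 504749 6500 h1))))) (enc_add (enc_sub (enc_rat _ 26020103 12000000) (enc_scale 1109591 240000 h1)) (enc_mul (enc_norm (kc8q1_3.enc h1 h2)) (enc_norm (enc_sub (enc_rat _ 38185957 1200000) (enc_scale 1859713 24000 h1)))))) (enc_case (enc_subr 19 50 (kc8q1_7.enc h1 h2)) (enc_add (enc_subr 3740303 13000000 (enc_scale 75093 260000 h1)) (enc_mul (enc_norm (kc8q1_3.enc h1 h2)) (enc_norm (enc_subr 18490807 1300000 (enc_scale 94917 6500 h1))))) (enc_add (enc_subr 68213 240000 (enc_scale 68213 240000 h1)) (enc_mul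 (enc_norm (kc8q1_3.enc h1 h2)) (enc_norm (enc_subr 312571 24000 (enc_scale 312571 24000 h1))))))))⟩
noncomputable def kf8q2 : Fn2 := ⟨_, _, fun h1 h2 => (enc_norm (enc_add (enc_mul (enc_norm (enc_mul (enc_norm (enc_sub (enc_nat 2 (c3g.enc h1)) h1)) (enc_norm (enc_sub (enc_add (c3g.enc h1) (enc_pnc _ 3)) (enc_scale 3 2 h1))))) (enc_inv (enc_nat 4 (enc_sub (enc_pnc _ 2) h1)))) (enc_mul (enc_norm (enc_subn 1 h1)) (kcg.enc (enc_norm (enc_sub (enc_scale 1 4 h1) (enc_half (c3g.enc h1)))) h2))))⟩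
noncomputable def l8q2_7 : Fn2 := ⟨_, _, fun h1 h2 => (enc_half (c3g.enc h1))⟩
noncomputable def l8q2_8 : Fn2 := ⟨_, _, fun h1 h2 => (enc_scale 1 4 h1)⟩
noncomputable def l8q2_9 : Fn2 := ⟨_, _, fun h1 h2 => (enc_sub (l8q2_7.enc h1 h2) (l8q2_8.enc h1 h2))⟩
noncomputable def l8q2_12 : Fn2 := ⟨_, _, fun h1 h2 => (enc_add (enc_scale 1 4 (c3g.enc h1)) (enc_scale 3 8 h1))⟩
noncomputable def l8q2_14 : Fn2 := ⟨_, _, fun h1 h2 => (enc_half (l8q2_9.enc h1 h2))⟩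
noncomputable def l8q2 : Fn2 := ⟨_, _, fun h1 h2 => (enc_norm (enc_sub (enc_nat 2 (txg.enc (enc_norm (enc_sub (l8q2_8.enc h1 h2) (l8q2_7.enc h1 h2))) (enc_norm (enc_add (l8q2_12.enc h1 h2) (l8q2_14.enc h1 h2))) h2)) (txg.enc (enc_norm (l8q2_9.enc h1 h2)) (enc_norm (enc_sub (l8q2_12.enc h1 h2) (l8q2_14.enc h1 h2))) h2)))⟩
noncomputable def kc8q2_3 : Fn2 := ⟨_, _, fun h1 h2 => (enc_subr 251 400 h2)⟩
noncomputable def kc8q2_9 : Fn2 := ⟨_, _, fun h1 h2 => (enc_sub (enc_half (c3g.enc h1)) (enc_scale 1 4 h1))⟩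
noncomputable def kc8q2 : Fn2 := ⟨_, _, fun h1 h2 => (enc_norm (enc_case (enc_add (kc8q2_9.enc h1 h2) (enc_rat _ 7 100)) (enc_case (enc_add (kc8q2_9.enc h1 h2) (enc_rat _ 9 25)) (enc_add (enc_add (enc_scale 14963 14000 (kc8q2_9.enc h1 h2)) (enc_rat _ 14963 28000)) (enc_mul (enc_norm (kc8q2_3.enc h1 h2)) (enc_norm (enc_subr 21401 5600 (enc_neg (enc_scale 21401 2800 (kc8q2_9.enc h1 h2))))))) (enc_case (enc_add (kc8q2_9.enc h1 h2) (enc_rat _ 21 100)) (enc_add (enc_add (enc_scale 148831 150000 (kc8q2_9.enc h1 h2)) (enc_rat _ 1267061 2500000)) (enc_mul (enc_norm (kc8q2_3.enc h1 h2)) (enc_norm (enc_add (enc_scale 13649 3750 (kc8q2_9.enc h1 h2)) (enc_rat _ 120127 500000))))) (enc_add (enc_add (enc_scale 117139 140000 (kc8q2_9.enc h1 h2)) (enc_rat _ 948339 2000000)) (enc_mul (enc_norm (kc8q2_3.enc h1 h2)) (enc_norm (enc_add (enc_scale 69557 14000 (kc8q2_9.enc h1 h2)) (enc_rat _ 103853 200000)))))))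 (enc_case (enc_subr 21 100 (kc8q2_9.enc h1 h2)) (enc_case (enc_subr 7 100 (kc8q2_9.enc h1 h2)) (enc_add (enc_add (enc_scale 22283 28000 (kc8q2_9.enc h1 h2)) (enc_rat _ 188523 400000)) (enc_mul (enc_norm (kc8q2_3.enc h1 h2)) (enc_norm (enc_add (enc_scale 60483 7000 (kc8q2_9.enc h1 h2)) (enc_rat _ 77631 100000))))) (enc_add (enc_sub (enc_rat _ 644459 1000000) (enc_scale 29361 17500 (kc8q2_9.enc h1 h2))) (enc_mul (enc_norm (kc8q2_3.enc h1 h2)) (enc_norm (enc_add (enc_scale 5439 500 (kc8q2_9.enc h1 h2)) (enc_rat _ 3873 6250)))))) (enc_case (enc_subr 9 25 (kc8q2_9.enc h1 h2)) (enc_add (enc_sub (enc_rat _ 1610137 2500000) (enc_scale 251377 150000 (kc8q2_9.enc h1 h2))) (enc_mul (enc_norm (kc8q2_3.enc h1 h2)) (enc_norm (enc_sub (enc_rat _ 542099 125000) (enc_scale 51169 7500 (kc8q2_9.enc h1 h2)))))) (enc_add (enc_sub (enc_rat _ 163 1120) (enc_scale 163 560 (kc8q2_9.enc h1 h2))) (enc_mul (enc_norm (kc8q2_3.enc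 h1 h2)) (enc_norm (enc_sub (enc_rat _ 47017 7000) (enc_scale 47017 3500 (kc8q2_9.enc h1 h2))))))))))⟩
noncomputable def kfc83 : Fn2 := ⟨_, _, fun h1 h2 => (enc_norm (enc_sub (enc_mul (enc_norm (enc_subn 2 (ycg.enc h1))) (kcg.enc (enc_norm (enc_sub (enc_scale 1 4 (ycg.enc h1)) (enc_half h1))) h2)) (enc_mul (enc_norm (enc_mul (enc_norm (enc_sub (enc_nat 2 h1) (ycg.enc h1))) (enc_norm (enc_sub (enc_add h1 (enc_pnc _ 3)) (enc_scale 3 2 (ycg.enc h1)))))) (enc_inv (enc_nat 4 (enc_subn 1 (ycg.enc h1)))))))⟩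
noncomputable def lc83_7 : Fn2 := ⟨_, _, fun h1 h2 => (enc_half h1)⟩
noncomputable def lc83_8 : Fn2 := ⟨_, _, fun h1 h2 => (enc_scale 1 4 (ycg.enc h1))⟩
noncomputable def lc83_9 : Fn2 := ⟨_, _, fun h1 h2 => (enc_sub (lc83_7.enc h1 h2) (lc83_8.enc h1 h2))⟩
noncomputable def lc83_12 : Fn2 := ⟨_, _, fun h1 h2 => (enc_add (enc_scale 1 4 h1) (enc_scale 3 8 (ycg.enc h1)))⟩
noncomputable def lc83_14 : Fn2 := ⟨_, _, fun h1 h2 => (enc_half (lc83_9.enc h1 h2))⟩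
noncomputable def lc83 : Fn2 := ⟨_, _, fun h1 h2 => (enc_norm (enc_sub (enc_nat 2 (txg.enc (enc_norm (enc_sub (lc83_8.enc h1 h2) (lc83_7.enc h1 h2))) (enc_norm (enc_add (lc83_12.enc h1 h2) (lc83_14.enc h1 h2))) h2)) (txg.enc (enc_norm (lc83_9.enc h1 h2)) (enc_norm (enc_sub (lc83_12.enc h1 h2) (lc83_14.enc h1 h2))) h2)))⟩
noncomputable def kcc83_4 : Fn2 := ⟨_, _, fun h1 h2 => (enc_subr 251 400 h2)⟩
noncomputable def kcc83_9 : Fn2 := ⟨_, _, fun h1 h2 => (enc_sub (enc_half h1) (enc_scale 1 4 (ycg.enc h1)))⟩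
noncomputable def kcc83 : Fn2 := ⟨_, _, fun h1 h2 => (enc_norm (enc_case (enc_add (kcc83_9.enc h1 h2) (enc_rat _ 7 100)) (enc_case (enc_add (kcc83_9.enc h1 h2) (enc_rat _ 9 25)) (enc_add (enc_add (enc_scale 14963 14000 (kcc83_9.enc h1 h2)) (enc_rat _ 14963 28000)) (enc_mul (enc_norm (kcc83_4.enc h1 h2)) (enc_norm (enc_subr 21401 5600 (enc_neg (enc_scale 21401 2800 (kcc83_9.enc h1 h2))))))) (enc_case (enc_add (kcc83_9.enc h1 h2) (enc_rat _ 21 100)) (enc_add (enc_add (enc_scale 148831 150000 (kcc83_9.enc h1 h2)) (enc_rat _ 1267061 2500000)) (enc_mul (enc_norm (kcc83_4.enc h1 h2)) (enc_norm (enc_add (enc_scale 13649 3750 (kcc83_9.enc h1 h2)) (enc_rat _ 120127 500000))))) (enc_add (enc_add (enc_scale 117139 140000 (kcc83_9.enc h1 h2)) (enc_rat _ 948339 2000000)) (enc_mul (enc_norm (kcc83_4.enc h1 h2)) (enc_norm (enc_add (enc_scale 69557 14000 (kcc83_9.enc h1 h2)) (enc_rat _ 103853 200000)))))))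 (enc_case (enc_subr 21 100 (kcc83_9.enc h1 h2)) (enc_case (enc_subr 7 100 (kcc83_9.enc h1 h2)) (enc_add (enc_add (enc_scale 22283 28000 (kcc83_9.enc h1 h2)) (enc_rat _ 188523 400000)) (enc_mul (enc_norm (kcc83_4.enc h1 h2)) (enc_norm (enc_add (enc_scale 60483 7000 (kcc83_9.enc h1 h2)) (enc_rat _ 77631 100000))))) (enc_add (enc_sub (enc_rat _ 644459 1000000) (enc_scale 29361 17500 (kcc83_9.enc h1 h2))) (enc_mul (enc_norm (kcc83_4.enc h1 h2)) (enc_norm (enc_add (enc_scale 5439 500 (kcc83_9.enc h1 h2)) (enc_rat _ 3873 6250)))))) (enc_case (enc_subr 9 25 (kcc83_9.enc h1 h2)) (enc_add (enc_sub (enc_rat _ 1610137 2500000) (enc_scale 251377 150000 (kcc83_9.enc h1 h2))) (enc_mul (enc_norm (kcc83_4.enc h1 h2)) (enc_norm (enc_sub (enc_rat _ 542099 125000) (enc_scale 51169 7500 (kcc83_9.enc h1 h2)))))) (enc_add (enc_sub (enc_rat _ 163 1120) (enc_scale 163 560 (kcc83_9.enc h1 h2))) (enc_mul (enc_norm (kcc83_4.enc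 h1 h2)) (enc_norm (enc_sub (enc_rat _ 47017 7000) (enc_scale 47017 3500 (kcc83_9.enc h1 h2))))))))))⟩
noncomputable def lm7m : Fn2 := ⟨_, _, fun h1 h2 => (enc_lam (enc_norm (enc_sub h1 (cv7m.enc h2))) (enc_sub (c3g.enc h2) (cv7m.enc h2)))⟩
noncomputable def lm6m : Fn2 := ⟨_, _, fun h1 h2 => (enc_lam (enc_norm (enc_sub h1 (cv6m.enc h2))) (enc_sub (cv7m.enc h2) (cv6m.enc h2)))⟩
noncomputable def lm5m : Fn2 := ⟨_, _, fun h1 h2 => (enc_lam (enc_norm (enc_sub h1 (cv5m.enc h2))) (enc_sub (cv6m.enc h2) (cv5m.enc h2)))⟩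
noncomputable def bf5q0_3 : Fn2 := ⟨_, _, fun h1 h2 => (enc_subr 251 400 h2)⟩
noncomputable def bf5q0 : Fn2 := ⟨_, _, fun h1 h2 => (enc_norm (enc_case (enc_subr 149 400 h1) (enc_case (enc_subr 4 25 h1) (enc_add (enc_sub (enc_rat _ 744621 1000000) (enc_scale 142741 80000 h1)) (enc_mul (enc_norm (bf5q0_3.enc h1 h2)) (enc_norm (enc_add (enc_scale 102867 16000 h1) (enc_rat _ 55527 100000))))) (enc_add (enc_sub (enc_rat _ 1686132441 2125000000) (enc_scale 355231033 170000000 h1)) (enc_mul (enc_norm (bf5q0_3.enc h1 h2)) (enc_norm (enc_sub (enc_rat _ 3307118369 1062500000) (enc_scale 1624182119 170000000 h1)))))) (enc_add (enc_sub (enc_rat _ 612781623 425000000) (enc_scale 769627873 212500000 h1)) (enc_mul (enc_norm (bf5q0_3.enc h1 h2)) (enc_norm (enc_sub (enc_rat _ 173127293 170000000) (enc_scale 197257093 85000000 h1)))))))⟩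
noncomputable def lm4m : Fn2 := ⟨_, _, fun h1 h2 => (enc_lam (enc_norm (enc_sub h1 (cv4m.enc h2))) (enc_sub (cv5m.enc h2) (cv4m.enc h2)))⟩
noncomputable def lm3m : Fn2 := ⟨_, _, fun h1 h2 => (enc_lam (enc_norm (enc_sub h1 (cv3m.enc h2))) (enc_sub (cv4m.enc h2) (cv3m.enc h2)))⟩
noncomputable def lm2m : Fn2 := ⟨_, _, fun h1 h2 => (enc_lam (enc_norm (enc_sub h1 (cv2m.enc h2))) (enc_sub (cv3m.enc h2) (cv2m.enc h2)))⟩
noncomputable def lm1m : Fn2 := ⟨_, _, fun h1 h2 => (enc_lam (enc_norm (enc_sub h1 (cv1m.enc h2))) (enc_sub (cv2m.enc h2) (cv1m.enc h2)))⟩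
noncomputable def lm0m : Fn2 := ⟨_, _, fun h1 h2 => (enc_lam (enc_norm (enc_sub h1 (c1g.enc h2))) (enc_sub (cv1m.enc h2) (c1g.enc h2)))⟩
noncomputable def rkbq0_49 : Fn3 := ⟨_, _, fun h1 h2 h3 => (enc_add (enc_mul h1 (bf5q0.enc h2 h3)) (enc_mul (enc_norm (enc_mul (enc_norm (enc_sub (enc_pnc _ 1) (lm4m.enc h1 h2))) (cv4m.enc h2))) (enc_norm (enc_sub (bf4q0.enc h2 h3) (bf5q0.enc h2 h3)))))⟩
noncomputable def rkbq0_51 : Fn3 := ⟨_, _, fun h1 h2 h3 => (enc_sub (enc_pnc _ 1) h2)⟩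
noncomputable def rkbq0_52 : Fn3 := ⟨_, _, fun h1 h2 h3 => (gsg.enc (enc_norm (rkbq0_51.enc h1 h2 h3)))⟩
noncomputable def rkbq0_55 : Fn3 := ⟨_, _, fun h1 h2 h3 => (enc_sub (enc_scale 3 4 (rkbq0_51.enc h1 h2 h3)) (enc_half (rkbq0_52.enc h1 h2 h3)))⟩
noncomputable def rkbq0_75 : Fn3 := ⟨_, _, fun h1 h2 h3 => (enc_sub h1 (cv4m.enc h2))⟩
noncomputable def rkbq0 : Fn3 := ⟨_, _, fun h1 h2 h3 => (enc_case (enc_sub h1 (cv1m.enc h2)) (enc_add (enc_mul h1 (bf1q0.enc h2 h3)) (enc_mul (enc_norm (enc_sub (enc_pnc _ 1) (lm0m.enc h1 h2))) (enc_norm (enc_sub (kf0q0.enc h2 h3) (enc_mul (c1g.enc h2) (bf1q0.enc h2 h3)))))) (enc_case (enc_sub h1 (cv2m.enc h2)) (enc_add (enc_mul h1 (bf2q0.enc h2 h3)) (enc_mul (enc_norm (enc_mul (enc_norm (enc_sub (enc_pnc _ 1) (lm1m.enc h1 h2))) (cv1m.enc h2))) (enc_norm (enc_sub (bf1q0.enc h2 h3) (bf2q0.enc h2 h3))))) (enc_case (enc_sub h1 (cv3m.enc h2)) (enc_add (enc_mul h1 (bf3q0.enc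 h2 h3)) (enc_mul (enc_norm (enc_mul (enc_norm (enc_sub (enc_pnc _ 1) (lm2m.enc h1 h2))) (cv2m.enc h2))) (enc_norm (enc_sub (bf2q0.enc h2 h3) (bf3q0.enc h2 h3))))) (enc_case (rkbq0_75.enc h1 h2 h3) (enc_add (enc_mul h1 (bf4q0.enc h2 h3)) (enc_mul (enc_norm (enc_mul (enc_norm (enc_sub (enc_pnc _ 1) (lm3m.enc h1 h2))) (cv3m.enc h2))) (enc_norm (enc_sub (bf3q0.enc h2 h3) (bf4q0.enc h2 h3))))) (enc_case (enc_sub h1 (cv5m.enc h2)) (enc_case (enc_subr 33 100 h2) (rkbq0_49.enc h1 h2 h3) (enc_case (enc_subr 83 200 h2) (enc_add (kf4q0.enc h2 h3) (enc_mul (enc_norm (enc_mul (enc_norm (rkbq0_75.enc h1 h2 h3)) (enc_inv (enc_sub (enc_add (swg.enc h2) (enc_rat _ 1 2)) (cv4m.enc h2))))) (enc_norm (enc_sub (enc_mul h2 (enc_norm (enc_sub (enc_mul (enc_norm (enc_sub (rkbq0_55.enc h1 h2 h3) (enc_sub (enc_rat _ 1 4) (enc_scale 3 8 (enc_mul (enc_norm (rkbq0_51.enc h1 h2 h3)) (enc_inv (rkbq0_52.enc h1 h2 h3)))))))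 (enc_inv (esg.enc (enc_norm (rkbq0_51.enc h1 h2 h3))))) (kcg.enc (enc_norm (rkbq0_55.enc h1 h2 h3)) h3)))) (kf4q0.enc h2 h3))))) (rkbq0_49.enc h1 h2 h3))) (enc_case (enc_sub h1 (cv6m.enc h2)) (enc_add (enc_mul h1 (bf6q0.enc h2 h3)) (enc_mul (enc_norm (enc_sub (enc_pnc _ 1) (lm5m.enc h1 h2))) (enc_norm (enc_sub (kf5q0.enc h2 h3) (enc_mul (cv5m.enc h2) (bf6q0.enc h2 h3)))))) (enc_case (enc_sub h1 (cv7m.enc h2)) (enc_add (enc_mul h1 (bf7q0.enc h2 h3)) (enc_mul (enc_norm (enc_mul (enc_norm (enc_sub (enc_pnc _ 1) (lm6m.enc h1 h2))) (cv6m.enc h2))) (enc_norm (enc_sub (bf6q0.enc h2 h3) (bf7q0.enc h2 h3))))) (enc_add (kf7q0.enc h2 h3) (enc_mul (lm7m.enc h1 h2) (enc_norm (enc_sub (kf8q0.enc h2 h3) (kf7q0.enc h2 h3))))))))))))⟩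
noncomputable def rsbq0 : Fn3 := ⟨_, _, fun h1 h2 h3 => (enc_case h1 (enc_neg (rkbq0.enc (enc_neg h1) h2 h3)) (rkbq0.enc h1 h2 h3))⟩
noncomputable def rkbq1 : Fn3 := ⟨_, _, fun h1 h2 h3 => (enc_case (enc_sub h1 (cv1m.enc h2)) (enc_add (enc_mul h1 (bf1q1.enc h2 h3)) (enc_mul (enc_norm (enc_sub (enc_pnc _ 1) (lm0m.enc h1 h2))) (enc_norm (enc_sub (kf0q1.enc h2 h3) (enc_mul (c1g.enc h2) (bf1q1.enc h2 h3)))))) (enc_case (enc_sub h1 (cv2m.enc h2)) (enc_add (enc_mul h1 (bf2q1.enc h2 h3)) (enc_mul (enc_norm (enc_mul (enc_norm (enc_sub (enc_pnc _ 1) (lm1m.enc h1 h2))) (cv1m.enc h2))) (enc_norm (enc_sub (bf1q1.enc h2 h3) (bf2q1.enc h2 h3))))) (enc_case (enc_sub h1 (cv3m.enc h2)) (enc_add (enc_mul h1 (bf3q1.enc h2 h3)) (enc_mul (enc_norm (enc_mul (enc_norm (enc_sub (enc_pnc _ 1) (lm2m.enc h1 h2))) (cv2m.enc h2))) (enc_norm (enc_sub (bf2q1.enc h2 h3) (bf3q1.enc h2 h3))))) (enc_case (enc_sub h1 (cv4m.enc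 h2)) (enc_add (enc_mul h1 (bf4q1.enc h2 h3)) (enc_mul (enc_norm (enc_mul (enc_norm (enc_sub (enc_pnc _ 1) (lm3m.enc h1 h2))) (cv3m.enc h2))) (enc_norm (enc_sub (bf3q1.enc h2 h3) (bf4q1.enc h2 h3))))) (enc_case (enc_sub h1 (cv5m.enc h2)) (enc_add (enc_mul h1 (bf5q1.enc h2 h3)) (enc_mul (enc_norm (enc_mul (enc_norm (enc_sub (enc_pnc _ 1) (lm4m.enc h1 h2))) (cv4m.enc h2))) (enc_norm (enc_sub (bf4q1.enc h2 h3) (bf5q1.enc h2 h3))))) (enc_case (enc_sub h1 (cv6m.enc h2)) (enc_add (enc_mul h1 (bf6q1.enc h2 h3)) (enc_mul (enc_norm (enc_mul (enc_norm (enc_sub (enc_pnc _ 1) (lm5m.enc h1 h2))) (cv5m.enc h2))) (enc_norm (enc_sub (bf5q1.enc h2 h3) (bf6q1.enc h2 h3))))) (enc_case (enc_sub h1 (cv7m.enc h2)) (enc_add (enc_mul h1 (bf7q1.enc h2 h3)) (enc_mul (enc_norm (enc_mul (enc_norm (enc_sub (enc_pnc _ 1) (lm6m.enc h1 h2))) (cv6m.enc h2))) (enc_norm (enc_sub (bf6q1.enc h2 h3) (bf7q1.enc h2 h3))))) (enc_add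 (kf7q1.enc h2 h3) (enc_mul (lm7m.enc h1 h2) (enc_norm (enc_sub (kf8q1.enc h2 h3) (kf7q1.enc h2 h3))))))))))))⟩
noncomputable def rsbq1 : Fn3 := ⟨_, _, fun h1 h2 h3 => (enc_case h1 (enc_neg (rkbq1.enc (enc_neg h1) h2 h3)) (rkbq1.enc h1 h2 h3))⟩
noncomputable def cv1p : Fn1 := ⟨_, _, fun h1 => (enc_norm (enc_add (enc_scale 23 25 (c1g.enc h1)) (enc_scale 2 25 (enc_subr 1 2 (swg.enc h1)))))⟩
noncomputable def cv2p : Fn1 := ⟨_, _, fun h1 => (enc_norm (enc_add (enc_scale 3 4 (c1g.enc h1)) (enc_scale 1 4 (enc_subr 1 2 (swg.enc h1)))))⟩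
noncomputable def cv3p : Fn1 := ⟨_, _, fun h1 => (enc_norm (enc_add (enc_half (c1g.enc h1)) (enc_half (enc_subr 1 2 (swg.enc h1)))))⟩
noncomputable def cv4p : Fn1 := ⟨_, _, fun h1 => (enc_norm (enc_add (enc_scale 3 20 (c1g.enc h1)) (enc_scale 17 20 (enc_subr 1 2 (swg.enc h1)))))⟩
noncomputable def lm7p : Fn2 := ⟨_, _, fun h1 h2 => (enc_lam (enc_norm (enc_sub h1 (cv7p.enc h2))) (enc_sub (c3g.enc h2) (cv7p.enc h2)))⟩
noncomputable def lm6p : Fn2 := ⟨_, _, fun h1 h2 => (enc_lam (enc_norm (enc_sub h1 (cv6p.enc h2))) (enc_sub (cv7p.enc h2) (cv6p.enc h2)))⟩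
noncomputable def lm5p : Fn2 := ⟨_, _, fun h1 h2 => (enc_lam (enc_norm (enc_sub h1 (cv5p.enc h2))) (enc_sub (cv6p.enc h2) (cv5p.enc h2)))⟩
noncomputable def lm4p : Fn2 := ⟨_, _, fun h1 h2 => (enc_lam (enc_norm (enc_sub h1 (cv4p.enc h2))) (enc_sub (cv5p.enc h2) (cv4p.enc h2)))⟩
noncomputable def bf4q2_3 : Fn2 := ⟨_, _, fun h1 h2 => (enc_subr 251 400 h2)⟩
noncomputable def bf4q2 : Fn2 := ⟨_, _, fun h1 h2 => (enc_norm (enc_case (enc_sub (enc_pnc _ 1) (enc_scale 3 4 (enc_sq h1))) (enc_case (enc_subr 127 100 h1) (enc_add (enc_sub (enc_rat _ 24600689 5800000) (enc_scale 11348 3625 h1)) (enc_mul (enc_norm (bf4q2_3.enc h1 h2)) (enc_norm (enc_sub (enc_rat _ 7705873 2900000) (enc_scale 8161 5800 h1))))) (enc_case (enc_subr 69 50 h1) (enc_add (enc_sub (enc_rat _ 47641351 11000000) (enc_scale 88027 27500 h1)) (enc_mul (enc_norm (bf4q2_3.enc h1 h2)) (enc_norm (enc_subr 12870137 1100000 (enc_scale 108877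 11000 h1))))) (enc_add (enc_sub (enc_rat _ 3352081 2000000) (enc_scale 51083 40000 h1)) (enc_mul (enc_norm (bf4q2_3.enc h1 h2)) (enc_norm (enc_subr 229233 100000 (enc_scale 4621 1500 h1))))))) (enc_case (enc_subr 1 4 (c1g.enc h1)) (enc_case (enc_subr 1 10 (c1g.enc h1)) (enc_case (enc_subr 1 20 (c1g.enc h1)) (enc_add (enc_add (enc_scale 43723 50000 (c1g.enc h1)) (enc_rat _ 19623 31250)) (enc_mul (enc_norm (bf4q2_3.enc h1 h2)) (enc_norm (enc_sub (enc_rat _ 95281 100000) (enc_scale 27411 5000 (c1g.enc h1)))))) (enc_add (enc_add (enc_scale 21709 25000 (c1g.enc h1)) (enc_rat _ 628241 1000000)) (enc_mul (enc_norm (bf4q2_3.enc h1 h2)) (enc_norm (enc_sub (enc_rat _ 23069 25000) (enc_scale 12203 2500 (c1g.enc h1))))))) (enc_case (enc_subr 3 20 (c1g.enc h1)) (enc_add (enc_add (enc_scale 21371 25000 (c1g.enc h1)) (enc_rat _ 629593 1000000)) (enc_mul (enc_norm (bf4q2_3.enc h1 h2)) (enc_norm (enc_sub (enc_rat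 _ 42677 50000) (enc_scale 4189 1000 (c1g.enc h1)))))) (enc_case (enc_subr 1 5 (c1g.enc h1)) (enc_add (enc_add (enc_scale 1659 2000 (c1g.enc h1)) (enc_rat _ 316697 500000)) (enc_mul (enc_norm (bf4q2_3.enc h1 h2)) (enc_norm (enc_sub (enc_rat _ 1457 2000) (enc_scale 16777 5000 (c1g.enc h1)))))) (enc_add (enc_add (enc_scale 39731 50000 (c1g.enc h1)) (enc_rat _ 64037 100000)) (enc_mul (enc_norm (bf4q2_3.enc h1 h2)) (enc_norm (enc_sub (enc_rat _ 1161 2000) (enc_scale 13077 5000 (c1g.enc h1))))))))) (enc_case (enc_subr 7 20 (c1g.enc h1)) (enc_case (enc_subr 3 10 (c1g.enc h1)) (enc_add (enc_add (enc_scale 2322 3125 (c1g.enc h1)) (enc_rat _ 130653 200000)) (enc_mul (enc_norm (bf4q2_3.enc h1 h2)) (enc_norm (enc_sub (enc_rat _ 7917 20000) (enc_scale 1173 625 (c1g.enc h1)))))) (enc_add (enc_add (enc_scale 34167 50000 (c1g.enc h1)) (enc_rat _ 26847 40000)) (enc_mul (enc_norm (bf4q2_3.enc h1 h2)) (enc_norm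 (enc_sub (enc_rat _ 14631 100000) (enc_scale 209 200 (c1g.enc h1))))))) (enc_case (enc_subr 2 5 (c1g.enc h1)) (enc_add (enc_add (enc_scale 6351 10000 (c1g.enc h1)) (enc_rat _ 688059 1000000)) (enc_mul (enc_norm (bf4q2_3.enc h1 h2)) (enc_norm (enc_subr 4757 20000 (enc_scale 263 5000 (c1g.enc h1)))))) (enc_case (enc_subr 9 20 (c1g.enc h1)) (enc_add (enc_add (enc_scale 14893 25000 (c1g.enc h1)) (enc_rat _ 703811 1000000)) (enc_mul (enc_norm (bf4q2_3.enc h1 h2)) (enc_norm (enc_subr 78737 100000 (enc_scale 1783 1250 (c1g.enc h1)))))) (enc_add (enc_add (enc_scale 5623 10000 (c1g.enc h1)) (enc_rat _ 14377 20000)) (enc_mul (enc_norm (bf4q2_3.enc h1 h2)) (enc_norm (enc_subr 14549 10000 (enc_scale 14549 5000 (c1g.enc h1))))))))))))⟩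
noncomputable def lm3p : Fn2 := ⟨_, _, fun h1 h2 => (enc_lam (enc_norm (enc_sub h1 (cv3p.enc h2))) (enc_sub (cv4p.enc h2) (cv3p.enc h2)))⟩
noncomputable def bf3q2_3 : Fn2 := ⟨_, _, fun h1 h2 => (enc_subr 251 400 h2)⟩
noncomputable def bf3q2 : Fn2 := ⟨_, _, fun h1 h2 => (enc_norm (enc_case (enc_sub (enc_pnc _ 1) (enc_scale 3 4 (enc_sq h1))) (enc_case (enc_subr 127 100 h1) (enc_add (enc_sub (enc_rat _ 45916327 5800000) (enc_scale 375201 58000 h1)) (enc_mul (enc_norm (bf3q2_3.enc h1 h2)) (enc_norm (enc_subr 243530161 5800000 (enc_scale 83737 2320 h1))))) (enc_case (enc_subr 69 50 h1) (enc_add (enc_sub (enc_rat _ 67567 110000) (enc_scale 791 1100 h1)) (enc_mul (enc_norm (bf3q2_3.enc h1 h2)) (enc_norm (enc_sub (enc_rat _ 1031767 100000) (enc_scale 1273 250 h1))))) (enc_add (enc_sub (enc_rat _ 901341 2000000) (enc_scale 72067 120000 h1)) (enc_mul (enc_norm (bf3q2_3.enc h1 h2)) (enc_norm (enc_sub (enc_rat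 _ 1447147 100000) (enc_scale 4051 500 h1))))))) (enc_case (enc_subr 1 4 (c1g.enc h1)) (enc_case (enc_subr 1 10 (c1g.enc h1)) (enc_case (enc_subr 1 20 (c1g.enc h1)) (enc_add (enc_add (enc_scale 52483 50000 (c1g.enc h1)) (enc_rat _ 17907 40000)) (enc_mul (enc_norm (bf3q2_3.enc h1 h2)) (enc_norm (enc_subr 26319 100000 (enc_scale 28773 2500 (c1g.enc h1)))))) (enc_add (enc_add (enc_scale 53229 50000 (c1g.enc h1)) (enc_rat _ 446929 1000000)) (enc_mul (enc_norm (bf3q2_3.enc h1 h2)) (enc_norm (enc_subr 11041 50000 (enc_scale 53309 5000 (c1g.enc h1))))))) (enc_case (enc_subr 3 20 (c1g.enc h1)) (enc_add (enc_add (enc_scale 3521 3125 (c1g.enc h1)) (enc_rat _ 88143 200000)) (enc_mul (enc_norm (bf3q2_3.enc h1 h2)) (enc_norm (enc_add (enc_scale 37677 5000 (c1g.enc h1)) (enc_rat _ 4591 50000))))) (enc_case (enc_subr 1 5 (c1g.enc h1)) (enc_add (enc_add (enc_scale 68287 50000 (c1g.enc h1)) (enc_rat _ 202431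 500000)) (enc_mul (enc_norm (bf3q2_3.enc h1 h2)) (enc_norm (enc_sub (enc_rat _ 48701 25000) (enc_scale 24197 5000 (c1g.enc h1)))))) (enc_add (enc_add (enc_scale 877 625 (c1g.enc h1)) (enc_rat _ 39737 100000)) (enc_mul (enc_norm (bf3q2_3.enc h1 h2)) (enc_norm (enc_sub (enc_rat _ 5929 2500) (enc_scale 17393 2500 (c1g.enc h1))))))))) (enc_case (enc_subr 7 20 (c1g.enc h1)) (enc_case (enc_subr 3 10 (c1g.enc h1)) (enc_add (enc_add (enc_scale 69687 50000 (c1g.enc h1)) (enc_rat _ 79947 200000)) (enc_mul (enc_norm (bf3q2_3.enc h1 h2)) (enc_norm (enc_sub (enc_rat _ 23367 10000) (enc_scale 4261 625 (c1g.enc h1)))))) (enc_add (enc_add (enc_scale 65827 50000 (c1g.enc h1)) (enc_rat _ 84579 200000)) (enc_mul (enc_norm (bf3q2_3.enc h1 h2)) (enc_norm (enc_sub (enc_rat _ 90849 50000) (enc_scale 12713 2500 (c1g.enc h1))))))) (enc_case (enc_subr 2 5 (c1g.enc h1)) (enc_add (enc_add (enc_scale 55869 50000 (c1g.enc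 h1)) (enc_rat _ 492601 1000000)) (enc_mul (enc_norm (bf3q2_3.enc h1 h2)) (enc_norm (enc_sub (enc_rat _ 47337 50000) (enc_scale 6497 2500 (c1g.enc h1)))))) (enc_case (enc_subr 9 20 (c1g.enc h1)) (enc_add (enc_add (enc_scale 33937 50000 (c1g.enc h1)) (enc_rat _ 668057 1000000)) (enc_mul (enc_norm (bf3q2_3.enc h1 h2)) (enc_norm (enc_subr 2139 10000 (enc_scale 757 2500 (c1g.enc h1)))))) (enc_add (enc_add (enc_scale 2651 5000 (c1g.enc h1)) (enc_rat _ 7349 10000)) (enc_mul (enc_norm (bf3q2_3.enc h1 h2)) (enc_norm (enc_subr 1941 2500 (enc_scale 1941 1250 (c1g.enc h1))))))))))))⟩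
noncomputable def lm2p : Fn2 := ⟨_, _, fun h1 h2 => (enc_lam (enc_norm (enc_sub h1 (cv2p.enc h2))) (enc_sub (cv3p.enc h2) (cv2p.enc h2)))⟩
noncomputable def bf2q2_3 : Fn2 := ⟨_, _, fun h1 h2 => (enc_subr 251 400 h2)⟩
noncomputable def bf2q2 : Fn2 := ⟨_, _, fun h1 h2 => (enc_norm (enc_case (enc_sub (enc_pnc _ 1) (enc_scale 3 4 (enc_sq h1))) (enc_case (enc_subr 127 100 h1) (enc_add (enc_sub (enc_rat _ 403757369 58000000) (enc_scale 634521 116000 h1)) (enc_mul (enc_norm (bf2q2_3.enc h1 h2)) (enc_norm (enc_subr 18197483 725000 (enc_scale 61269 2900 h1))))) (enc_case (enc_subr 69 50 h1) (enc_add (enc_sub (enc_rat _ 32738837 5500000) (enc_scale 514323 110000 h1)) (enc_mul (enc_norm (bf2q2_3.enc h1 h2)) (enc_norm (enc_subr 311703 22000 (enc_scale 34429 2750 h1))))) (enc_add (enc_sub (enc_rat _ 11788591 2000000) (enc_scale 185339 40000 h1)) (enc_mul (enc_norm (bf2q2_3.enc h1 h2)) (enc_norm (enc_subr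 545049 50000 (enc_scale 1269 125 h1))))))) (enc_case (enc_subr 1 4 (c1g.enc h1)) (enc_case (enc_subr 1 10 (c1g.enc h1)) (enc_case (enc_subr 1 20 (c1g.enc h1)) (enc_add (enc_sub (enc_rat _ 644267 1000000) (enc_scale 3021 25000 (c1g.enc h1))) (enc_mul (enc_norm (bf2q2_3.enc h1 h2)) (enc_norm (enc_subr 35099 50000 (enc_scale 9213 1250 (c1g.enc h1)))))) (enc_add (enc_sub (enc_rat _ 20083 31250) (enc_scale 4431 50000 (c1g.enc h1))) (enc_mul (enc_norm (bf2q2_3.enc h1 h2)) (enc_norm (enc_subr 33631 50000 (enc_scale 8479 1250 (c1g.enc h1))))))) (enc_case (enc_subr 3 20 (c1g.enc h1)) (enc_add (enc_add (enc_scale 3963 50000 (c1g.enc h1)) (enc_rat _ 156467 250000)) (enc_mul (enc_norm (bf2q2_3.enc h1 h2)) (enc_norm (enc_subr 6017 12500 (enc_scale 24353 5000 (c1g.enc h1)))))) (enc_case (enc_subr 1 5 (c1g.enc h1)) (enc_add (enc_add (enc_scale 55053 50000 (c1g.enc h1)) (enc_rat _ 236299 500000)) (enc_mul (enc_norm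 (bf2q2_3.enc h1 h2)) (enc_norm (enc_add (enc_scale 1653 5000 (c1g.enc h1)) (enc_rat _ 4991 25000))))) (enc_add (enc_add (enc_scale 65341 50000 (c1g.enc h1)) (enc_rat _ 215723 500000)) (enc_mul (enc_norm (bf2q2_3.enc h1 h2)) (enc_norm (enc_sub (enc_rat _ 15611 25000) (enc_scale 8967 5000 (c1g.enc h1))))))))) (enc_case (enc_subr 7 20 (c1g.enc h1)) (enc_case (enc_subr 3 10 (c1g.enc h1)) (enc_add (enc_add (enc_scale 33827 25000 (c1g.enc h1)) (enc_rat _ 419881 1000000)) (enc_mul (enc_norm (bf2q2_3.enc h1 h2)) (enc_norm (enc_sub (enc_rat _ 40207 50000) (enc_scale 12561 5000 (c1g.enc h1)))))) (enc_add (enc_add (enc_scale 67339 50000 (c1g.enc h1)) (enc_rat _ 421771 1000000)) (enc_mul (enc_norm (bf2q2_3.enc h1 h2)) (enc_norm (enc_sub (enc_rat _ 17417 25000) (enc_scale 1077 500 (c1g.enc h1))))))) (enc_case (enc_subr 2 5 (c1g.enc h1)) (enc_add (enc_add (enc_scale 29999 25000 (c1g.enc h1)) (enc_rat _ 236579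 500000)) (enc_mul (enc_norm (bf2q2_3.enc h1 h2)) (enc_norm (enc_sub (enc_rat _ 7233 50000) (enc_scale 721 1250 (c1g.enc h1)))))) (enc_case (enc_subr 9 20 (c1g.enc h1)) (enc_add (enc_add (enc_scale 13347 25000 (c1g.enc h1)) (enc_rat _ 73959 100000)) (enc_mul (enc_norm (bf2q2_3.enc h1 h2)) (enc_norm (enc_subr 17271 50000 (enc_scale 1621 2500 (c1g.enc h1)))))) (enc_add (enc_add (enc_scale 5041 12500 (c1g.enc h1)) (enc_rat _ 19959 25000)) (enc_mul (enc_norm (bf2q2_3.enc h1 h2)) (enc_norm (enc_subr 1341 2500 (enc_scale 1341 1250 (c1g.enc h1))))))))))))⟩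
noncomputable def lm1p : Fn2 := ⟨_, _, fun h1 h2 => (enc_lam (enc_norm (enc_sub h1 (cv1p.enc h2))) (enc_sub (cv2p.enc h2) (cv1p.enc h2)))⟩
noncomputable def bf1q2_3 : Fn2 := ⟨_, _, fun h1 h2 => (enc_subr 251 400 h2)⟩
noncomputable def bf1q2_8 : Fn2 := ⟨_, _, fun h1 h2 => (enc_sub (enc_pnc _ 1) (enc_scale 4994127 2500000 (enc_subn 1 h1)))⟩
noncomputable def bf1q2 : Fn2 := ⟨_, _, fun h1 h2 => (enc_norm (enc_case (enc_sub (enc_pnc _ 1) (enc_scale 3 4 (enc_sq h1))) (enc_add (bf1q2_8.enc h1 h2) (enc_case (enc_subr 127 100 h1) (enc_case (enc_subr 231 200 h1) (enc_pnc _ 0) (enc_add (enc_sub (enc_rat _ 21475839 5750000) (enc_scale 92969 28750 h1)) (enc_mul (enc_norm (bf1q2_3.enc h1 h2)) (enc_norm (enc_subr 14776377 1150000 (enc_scale 63967 5750 h1)))))) (enc_case (enc_subr 139 100 h1) (enc_add (enc_sub (enc_rat _ 5595209 1500000) (enc_scale 48449 15000 h1)) (enc_mul (enc_norm (bf1q2_3.enc h1 h2)) (enc_norm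 (enc_subr 968627 75000 (enc_scale 3353 300 h1))))) (enc_add (enc_sub (enc_rat _ 20466653 5500000) (enc_scale 177293 55000 h1)) (enc_mul (enc_norm (bf1q2_3.enc h1 h2)) (enc_norm (enc_subr 1756611 137500 (enc_scale 60919 5500 h1)))))))) (enc_add (bf1q2_8.enc h1 h2) (enc_case (enc_subr 1 4 (c1g.enc h1)) (enc_case (enc_subr 1 10 (c1g.enc h1)) (enc_case (enc_subr 1 20 (c1g.enc h1)) (enc_sub (enc_neg (enc_scale 3563 12500 (c1g.enc h1))) (enc_mul (enc_norm (bf1q2_3.enc h1 h2)) (enc_scale 47 200 (c1g.enc h1)))) (enc_add (enc_sub (enc_rat _ 20797 1000000) (enc_scale 35049 50000 (c1g.enc h1))) (enc_mul (enc_norm (bf1q2_3.enc h1 h2)) (enc_norm (enc_sub (enc_rat _ 5187 100000) (enc_scale 3181 2500 (c1g.enc h1))))))) (enc_case (enc_subr 3 20 (c1g.enc h1)) (enc_add (enc_sub (enc_rat _ 42549 1000000) (enc_scale 1837 2000 (c1g.enc h1))) (enc_mul (enc_norm (bf1q2_3.enc h1 h2)) (enc_norm (enc_sub (enc_rat _ 108207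 100000) (enc_scale 7234 625 (c1g.enc h1)))))) (enc_case (enc_subr 1 5 (c1g.enc h1)) (enc_add (enc_subr 69747 500000 (enc_scale 3689 12500 (c1g.enc h1))) (enc_mul (enc_norm (bf1q2_3.enc h1 h2)) (enc_norm (enc_subr 33327 20000 (enc_scale 16871 2500 (c1g.enc h1)))))) (enc_add (enc_subr 166831 500000 (enc_scale 31649 25000 (c1g.enc h1))) (enc_mul (enc_norm (bf1q2_3.enc h1 h2)) (enc_norm (enc_subr 73663 100000 (enc_scale 10499 5000 (c1g.enc h1))))))))) (enc_case (enc_subr 7 20 (c1g.enc h1)) (enc_case (enc_subr 3 10 (c1g.enc h1)) (enc_add (enc_subr 367857 1000000 (enc_scale 70137 50000 (c1g.enc h1))) (enc_mul (enc_norm (bf1q2_3.enc h1 h2)) (enc_norm (enc_subr 25643 100000 (enc_scale 179 1000 (c1g.enc h1)))))) (enc_add (enc_subr 201309 1000000 (enc_scale 42379 50000 (c1g.enc h1))) (enc_mul (enc_norm (bf1q2_3.enc h1 h2)) (enc_norm (enc_subr 8593 20000 (enc_scale 1891 2500 (c1g.enc h1))))))) (enc_case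 (enc_subr 2 5 (c1g.enc h1)) (enc_add (enc_sub (enc_rat _ 29433 200000) (enc_scale 7403 50000 (c1g.enc h1))) (enc_mul (enc_norm (bf1q2_3.enc h1 h2)) (enc_norm (enc_subr 30159 50000 (enc_scale 6261 5000 (c1g.enc h1)))))) (enc_case (enc_subr 9 20 (c1g.enc h1)) (enc_add (enc_sub (enc_rat _ 361429 1000000) (enc_scale 17093 25000 (c1g.enc h1))) (enc_mul (enc_norm (bf1q2_3.enc h1 h2)) (enc_norm (enc_subr 33399 50000 (enc_scale 7071 5000 (c1g.enc h1)))))) (enc_add (enc_sub (enc_rat _ 10751 20000) (enc_scale 10751 10000 (c1g.enc h1))) (enc_mul (enc_norm (bf1q2_3.enc h1 h2)) (enc_norm (enc_subr 3159 10000 (enc_scale 3159 5000 (c1g.enc h1)))))))))))))⟩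
noncomputable def kf0q2 : Fn2 := ⟨_, _, fun h1 h2 => (enc_norm (enc_add (c1g.enc h1) (enc_mul (enc_norm (enc_subn 1 h1)) (kcg.enc (enc_neg (c1g.enc h1)) h2))))⟩
noncomputable def lm0p : Fn2 := ⟨_, _, fun h1 h2 => (enc_lam (enc_norm (enc_sub h1 (c1g.enc h2))) (enc_sub (cv1p.enc h2) (c1g.enc h2)))⟩
noncomputable def n0b : Fn2 := ⟨_, _, fun h1 h2 => (enc_norm (enc_sub (enc_pnc _ 1) (enc_scale 4994127 2500000 (enc_subn 1 h1))))⟩
noncomputable def rkbq2_84 : Fn3 := ⟨_, _, fun h1 h2 h3 => (enc_mul h1 (bf1q2.enc h2 h3))⟩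
noncomputable def rkbq2_86 : Fn3 := ⟨_, _, fun h1 h2 h3 => (enc_sub (enc_pnc _ 1) (lm0p.enc h1 h2))⟩
noncomputable def rkbq2 : Fn3 := ⟨_, _, fun h1 h2 h3 => (enc_case (enc_sub h1 (cv1p.enc h2)) (enc_case (enc_subr 577 500 h2) (enc_add (rkbq2_84.enc h1 h2 h3) (enc_mul (enc_norm (rkbq2_86.enc h1 h2 h3)) (enc_norm (enc_sub (kf0q2.enc h2 h3) (enc_mul (c1g.enc h2) (bf1q2.enc h2 h3)))))) (enc_case (enc_subr 2887 2500 h2) (enc_add (rkbq2_84.enc h1 h2 h3) (enc_mul (enc_norm (rkbq2_86.enc h1 h2 h3)) (enc_norm (enc_mul (c1g.enc h2) (enc_norm (enc_sub (n0b.enc h2 h3) (bf1q2.enc h2 h3))))))) (rkbq2_84.enc h1 h2 h3))) (enc_case (enc_sub h1 (cv2p.enc h2)) (enc_add (enc_mul h1 (bf2q2.enc h2 h3)) (enc_mul (enc_norm (enc_mul (enc_norm (enc_sub (enc_pnc _ 1) (lm1p.enc h1 h2))) (cv1p.enc h2))) (enc_norm (enc_sub (bf1q2.enc h2 h3) (bf2q2.enc h2 h3))))) (enc_case (enc_sub h1 (cv3p.enc h2)) (enc_add (enc_mul h1 (bf3q2.enc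 h2 h3)) (enc_mul (enc_norm (enc_mul (enc_norm (enc_sub (enc_pnc _ 1) (lm2p.enc h1 h2))) (cv2p.enc h2))) (enc_norm (enc_sub (bf2q2.enc h2 h3) (bf3q2.enc h2 h3))))) (enc_case (enc_sub h1 (cv4p.enc h2)) (enc_add (enc_mul h1 (bf4q2.enc h2 h3)) (enc_mul (enc_norm (enc_mul (enc_norm (enc_sub (enc_pnc _ 1) (lm3p.enc h1 h2))) (cv3p.enc h2))) (enc_norm (enc_sub (bf3q2.enc h2 h3) (bf4q2.enc h2 h3))))) (enc_case (enc_sub h1 (cv5p.enc h2)) (enc_add (enc_mul h1 (bf5q2.enc h2 h3)) (enc_mul (enc_norm (enc_mul (enc_norm (enc_sub (enc_pnc _ 1) (lm4p.enc h1 h2))) (cv4p.enc h2))) (enc_norm (enc_sub (bf4q2.enc h2 h3) (bf5q2.enc h2 h3))))) (enc_case (enc_sub h1 (cv6p.enc h2)) (enc_add (enc_mul h1 (bf6q2.enc h2 h3)) (enc_mul (enc_norm (enc_mul (enc_norm (enc_sub (enc_pnc _ 1) (lm5p.enc h1 h2))) (cv5p.enc h2))) (enc_norm (enc_sub (bf5q2.enc h2 h3) (bf6q2.enc h2 h3))))) (enc_case (enc_sub h1 (cv7p.enc h2)) (enc_add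 (enc_mul h1 (bf7q2.enc h2 h3)) (enc_mul (enc_norm (enc_mul (enc_norm (enc_sub (enc_pnc _ 1) (lm6p.enc h1 h2))) (cv6p.enc h2))) (enc_norm (enc_sub (bf6q2.enc h2 h3) (bf7q2.enc h2 h3))))) (enc_add (kf7q2.enc h2 h3) (enc_mul (lm7p.enc h1 h2) (enc_norm (enc_sub (kf8q2.enc h2 h3) (kf7q2.enc h2 h3))))))))))))⟩
noncomputable def rsbq2 : Fn3 := ⟨_, _, fun h1 h2 h3 => (enc_case h1 (enc_neg (rkbq2.enc (enc_neg h1) h2 h3)) (rkbq2.enc h1 h2 h3))⟩
noncomputable def cv5r : Fn1 := ⟨_, _, fun h1 => (enc_norm (enc_add (enc_scale 3 4 (enc_subr 1 2 (swg.enc h1))) (enc_scale 1 4 (c3g.enc h1))))⟩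
noncomputable def cv6r : Fn1 := ⟨_, _, fun h1 => (enc_norm (enc_add (enc_half (enc_subr 1 2 (swg.enc h1))) (enc_half (c3g.enc h1))))⟩
noncomputable def cv7r : Fn1 := ⟨_, _, fun h1 => (enc_norm (enc_add (enc_scale 1 4 (enc_subr 1 2 (swg.enc h1))) (enc_scale 3 4 (c3g.enc h1))))⟩
noncomputable def kf7q3_4 : Fn2 := ⟨_, _, fun h1 h2 => (enc_subr 251 400 h2)⟩
noncomputable def kf7q3 : Fn2 := ⟨_, _, fun h1 h2 => (enc_norm (enc_mul (cv7r.enc h1) (enc_norm (enc_case (enc_sub (enc_rat _ 489419299 500000000) (c3g.enc h1)) (enc_case (enc_sub (enc_rat _ 1033431783 1000000000) (c3g.enc h1)) (enc_add (enc_sub (enc_rat _ 23299153216237 18702023500000) (enc_scale 51427000 37404047 (c3g.enc h1))) (enc_mul (enc_norm (kf7q3_4.enc h1 h2)) (enc_norm (enc_subr 4059691106447 3740404700000 (enc_scale 31980000 37404047 (c3g.enc h1)))))) (enc_add (enc_sub (enc_rat _ 54249007586701 54593185000000) (enc_scale 12348400 10918637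 (c3g.enc h1))) (enc_mul (enc_norm (kf7q3_4.enc h1 h2)) (enc_norm (enc_subr 4158527094229 5459318500000 (enc_scale 5916000 10918637 (c3g.enc h1))))))) (enc_case (enc_sub (enc_rat _ 403213653 500000000) (c3g.enc h1)) (enc_add (enc_sub (enc_rat _ 2018826257449 2693926437500) (enc_scale 37989500 43102823 (c3g.enc h1))) (enc_mul (enc_norm (kf7q3_4.enc h1 h2)) (enc_norm (enc_subr 2289659868799 8620564600000 (enc_scale 1507500 43102823 (c3g.enc h1)))))) (enc_case (enc_sub (enc_rat _ 147732867 250000000) (c3g.enc h1)) (enc_add (enc_sub (enc_rat _ 102030012547 187062359375) (enc_scale 67713500 107747919 (c3g.enc h1))) (enc_mul (enc_norm (kf7q3_4.enc h1 h2)) (enc_norm (enc_sub (enc_rat _ 74013545461 299299775000) (enc_scale 64760000 107747919 (c3g.enc h1)))))) (enc_sub (enc_sub (enc_rat _ 1 2) (enc_scale 81483500 147732867 (c3g.enc h1))) (enc_mul (enc_norm (kf7q3_4.enc h1 h2)) (enc_scale 8990000 49244289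 (c3g.enc h1))))))))))⟩
noncomputable def kf8q3 : Fn2 := ⟨_, _, fun h1 h2 => (enc_norm (enc_sub (enc_mul (enc_norm (enc_subn 2 h1)) (kcg.enc (enc_norm (enc_sub (enc_scale 1 4 h1) (enc_half (c3g.enc h1)))) h2)) (enc_mul (enc_norm (enc_mul (enc_norm (enc_sub (enc_nat 2 (c3g.enc h1)) h1)) (enc_norm (enc_sub (enc_add (c3g.enc h1) (enc_pnc _ 3)) (enc_scale 3 2 h1))))) (enc_inv (enc_nat 4 (enc_subn 1 h1))))))⟩
noncomputable def lm7r : Fn2 := ⟨_, _, fun h1 h2 => (enc_lam (enc_norm (enc_sub h1 (cv7r.enc h2))) (enc_sub (c3g.enc h2) (cv7r.enc h2)))⟩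
noncomputable def bf7q3_3 : Fn2 := ⟨_, _, fun h1 h2 => (enc_subr 251 400 h2)⟩
noncomputable def bf7q3 : Fn2 := ⟨_, _, fun h1 h2 => (enc_norm (enc_case (enc_sub (enc_rat _ 489419299 500000000) (c3g.enc h1)) (enc_case (enc_sub (enc_rat _ 1033431783 1000000000) (c3g.enc h1)) (enc_add (enc_sub (enc_rat _ 23299153216237 18702023500000) (enc_scale 51427000 37404047 (c3g.enc h1))) (enc_mul (enc_norm (bf7q3_3.enc h1 h2)) (enc_norm (enc_subr 4059691106447 3740404700000 (enc_scale 31980000 37404047 (c3g.enc h1)))))) (enc_add (enc_sub (enc_rat _ 54249007586701 54593185000000) (enc_scale 12348400 10918637 (c3g.enc h1))) (enc_mul (enc_norm (bf7q3_3.enc h1 h2)) (enc_norm (enc_subr 4158527094229 5459318500000 (enc_scale 5916000 10918637 (c3g.enc h1))))))) (enc_case (enc_sub (enc_rat _ 403213653 500000000) (c3g.enc h1)) (enc_add (enc_sub (enc_rat _ 2018826257449 2693926437500) (enc_scale 37989500 43102823 (c3g.enc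 h1))) (enc_mul (enc_norm (bf7q3_3.enc h1 h2)) (enc_norm (enc_subr 2289659868799 8620564600000 (enc_scale 1507500 43102823 (c3g.enc h1)))))) (enc_case (enc_sub (enc_rat _ 147732867 250000000) (c3g.enc h1)) (enc_add (enc_sub (enc_rat _ 102030012547 187062359375) (enc_scale 67713500 107747919 (c3g.enc h1))) (enc_mul (enc_norm (bf7q3_3.enc h1 h2)) (enc_norm (enc_sub (enc_rat _ 74013545461 299299775000) (enc_scale 64760000 107747919 (c3g.enc h1)))))) (enc_sub (enc_sub (enc_rat _ 1 2) (enc_scale 81483500 147732867 (c3g.enc h1))) (enc_mul (enc_norm (bf7q3_3.enc h1 h2)) (enc_scale 8990000 49244289 (c3g.enc h1))))))))⟩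
noncomputable def lm6r : Fn2 := ⟨_, _, fun h1 h2 => (enc_lam (enc_norm (enc_sub h1 (cv6r.enc h2))) (enc_sub (cv7r.enc h2) (cv6r.enc h2)))⟩
noncomputable def bf6q3_3 : Fn2 := ⟨_, _, fun h1 h2 => (enc_subr 251 400 h2)⟩
noncomputable def bf6q3 : Fn2 := ⟨_, _, fun h1 h2 => (enc_norm (enc_case (enc_sub (enc_rat _ 489419299 500000000) (c3g.enc h1)) (enc_case (enc_sub (enc_rat _ 1033431783 1000000000) (c3g.enc h1)) (enc_add (enc_sub (enc_rat _ 1775162943931 2337752937500) (enc_scale 97516000 112212141 (c3g.enc h1))) (enc_mul (enc_norm (bf6q3_3.enc h1 h2)) (enc_norm (enc_sub (enc_rat _ 1318716136523 1870202350000) (enc_scale 41470000 37404047 (c3g.enc h1)))))) (enc_add (enc_sub (enc_rat _ 37259112554989 54593185000000) (enc_scale 8676600 10918637 (c3g.enc h1))) (enc_mul (enc_norm (bf6q3_3.enc h1 h2)) (enc_norm (enc_subr 120170066983 545931850000 (enc_neg (enc_scale 2330000 10918637 (c3g.enc h1))))))))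 (enc_case (enc_sub (enc_rat _ 403213653 500000000) (c3g.enc h1)) (enc_add (enc_sub (enc_rat _ 24138147206871 43102823000000) (enc_scale 28859000 43102823 (c3g.enc h1))) (enc_mul (enc_norm (bf6q3_3.enc h1 h2)) (enc_norm (enc_subr 557392716341 269392643750 (enc_scale 72220000 43102823 (c3g.enc h1)))))) (enc_case (enc_sub (enc_rat _ 147732867 250000000) (c3g.enc h1)) (enc_add (enc_sub (enc_rat _ 1037545505313 2394398200000) (enc_scale 55214000 107747919 (c3g.enc h1))) (enc_mul (enc_norm (bf6q3_3.enc h1 h2)) (enc_norm (enc_subr 1208686621033 598599550000 (enc_scale 173870000 107747919 (c3g.enc h1)))))) (enc_sub (enc_sub (enc_rat _ 1 2) (enc_scale 92373250 147732867 (c3g.enc h1))) (enc_mul (enc_norm (bf6q3_3.enc h1 h2)) (enc_scale 266405000 147732867 (c3g.enc h1))))))))⟩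
noncomputable def lm5r : Fn2 := ⟨_, _, fun h1 h2 => (enc_lam (enc_norm (enc_sub h1 (cv5r.enc h2))) (enc_sub (cv6r.enc h2) (cv5r.enc h2)))⟩
noncomputable def kf5q3_4 : Fn2 := ⟨_, _, fun h1 h2 => (enc_subr 251 400 h2)⟩
noncomputable def kf5q3_42 : Fn2 := ⟨_, _, fun h1 h2 => (enc_subn 1 h1)⟩
noncomputable def kf5q3_43 : Fn2 := ⟨_, _, fun h1 h2 => (gsg.enc (enc_norm (kf5q3_42.enc h1 h2)))⟩
noncomputable def kf5q3_44 : Fn2 := ⟨_, _, fun h1 h2 => (enc_scale 3 4 (kf5q3_42.enc h1 h2))⟩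
noncomputable def kf5q3_45 : Fn2 := ⟨_, _, fun h1 h2 => (enc_half (kf5q3_43.enc h1 h2))⟩
noncomputable def kf5q3_64 : Fn2 := ⟨_, _, fun h1 h2 => (enc_mul (cv4r.enc h1) (bf4q3.enc h1 h2))⟩
noncomputable def kf5q3 : Fn2 := ⟨_, _, fun h1 h2 => (enc_norm (enc_case (enc_subr 317 200 h1) (enc_mul (cv5r.enc h1) (enc_norm (enc_add (enc_subr 2415608066332779 4134943750000000 (enc_scale 21810127 49619325 (c3g.enc h1))) (enc_mul (enc_norm (kf5q3_4.enc h1 h2)) (enc_norm (enc_sub (enc_rat _ 16237329844905991 930362343750000) (enc_scale 1483711064 89314785 (c3g.enc h1)))))))) (enc_case (enc_subr 167 100 h1) (enc_add (kf5q3_64.enc h1 h2) (enc_mul (enc_norm (enc_mul (enc_norm (enc_sub (enc_mul (enc_norm (enc_subn 2 h1)) (enc_norm (enc_add (enc_mul (enc_norm (enc_sub (enc_sub (kf5q3_45.enc h1 h2) (kf5q3_44.enc h1 h2)) (enc_sub (enc_rat _ 1 4) (enc_scale 3 8 (enc_mul (enc_norm (kf5q3_42.enc h1 h2)) (enc_inv (kf5q3_43.enc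 h1 h2))))))) (enc_inv (esg.enc (enc_norm (kf5q3_42.enc h1 h2))))) (kcg.enc (enc_norm (enc_sub (kf5q3_44.enc h1 h2) (kf5q3_45.enc h1 h2))) h2)))) (kf5q3_64.enc h1 h2))) (enc_norm (enc_sub (cv5r.enc h1) (cv4r.enc h1))))) (enc_inv (enc_sub (enc_subr 1 2 (swg.enc h1)) (cv4r.enc h1))))) (enc_mul (cv5r.enc h1) (enc_norm (enc_case (enc_sub (enc_rat _ 67882251 100000000) (c3g.enc h1)) (enc_add (enc_subr 79627955572709 398602250000000 (enc_scale 79203974 342797935 (c3g.enc h1))) (enc_mul (enc_norm (kf5q3_4.enc h1 h2)) (enc_norm (enc_subr 13930703896186723 637763600000000 (enc_scale 6778594339 274238348 (c3g.enc h1)))))) (enc_sub (enc_sub (enc_rat _ 1 2) (enc_scale 18097500 22627417 (c3g.enc h1))) (enc_mul (enc_norm (kf5q3_4.enc h1 h2)) (enc_scale 506399000 67882251 (c3g.enc h1))))))))))⟩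
noncomputable def bf5q3_3 : Fn2 := ⟨_, _, fun h1 h2 => (enc_subr 251 400 h2)⟩
noncomputable def bf5q3 : Fn2 := ⟨_, _, fun h1 h2 => (enc_norm (enc_case (enc_subr 651 400 h1) (enc_add (enc_subr 2415608066332779 4134943750000000 (enc_scale 21810127 49619325 (c3g.enc h1))) (enc_mul (enc_norm (bf5q3_3.enc h1 h2)) (enc_norm (enc_sub (enc_rat _ 16237329844905991 930362343750000) (enc_scale 1483711064 89314785 (c3g.enc h1)))))) (enc_case (enc_sub (enc_rat _ 67882251 100000000) (c3g.enc h1)) (enc_add (enc_subr 79627955572709 398602250000000 (enc_scale 79203974 342797935 (c3g.enc h1))) (enc_mul (enc_norm (bf5q3_3.enc h1 h2)) (enc_norm (enc_subr 13930703896186723 637763600000000 (enc_scale 6778594339 274238348 (c3g.enc h1)))))) (enc_sub (enc_sub (enc_rat _ 1 2) (enc_scale 18097500 22627417 (c3g.enc h1))) (enc_mul (enc_norm (bf5q3_3.enc h1 h2)) (enc_scale 506399000 67882251 (c3g.enc h1)))))))⟩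
noncomputable def lm4r : Fn2 := ⟨_, _, fun h1 h2 => (enc_lam (enc_norm (enc_sub h1 (cv4r.enc h2))) (enc_sub (cv5r.enc h2) (cv4r.enc h2)))⟩
noncomputable def lm3r : Fn2 := ⟨_, _, fun h1 h2 => (enc_lam (enc_norm (enc_sub h1 (cv3r.enc h2))) (enc_sub (cv4r.enc h2) (cv3r.enc h2)))⟩
noncomputable def lm2r : Fn2 := ⟨_, _, fun h1 h2 => (enc_lam (enc_norm (enc_sub h1 (cv2r.enc h2))) (enc_sub (cv3r.enc h2) (cv2r.enc h2)))⟩
noncomputable def lm1r : Fn2 := ⟨_, _, fun h1 h2 => (enc_lam (enc_norm (enc_sub h1 (cv1r.enc h2))) (enc_sub (cv2r.enc h2) (cv1r.enc h2)))⟩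
noncomputable def rkbq3_49 : Fn3 := ⟨_, _, fun h1 h2 h3 => (enc_add (enc_mul h1 (bf5q3.enc h2 h3)) (enc_mul (enc_norm (enc_mul (enc_norm (enc_sub (enc_pnc _ 1) (lm4r.enc h1 h2))) (cv4r.enc h2))) (enc_norm (enc_sub (bf4q3.enc h2 h3) (bf5q3.enc h2 h3)))))⟩
noncomputable def rkbq3_50 : Fn3 := ⟨_, _, fun h1 h2 h3 => (enc_subn 1 h2)⟩
noncomputable def rkbq3_51 : Fn3 := ⟨_, _, fun h1 h2 h3 => (gsg.enc (enc_norm (rkbq3_50.enc h1 h2 h3)))⟩
noncomputable def rkbq3_52 : Fn3 := ⟨_, _, fun h1 h2 h3 => (enc_scale 3 4 (rkbq3_50.enc h1 h2 h3))⟩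
noncomputable def rkbq3_53 : Fn3 := ⟨_, _, fun h1 h2 h3 => (enc_half (rkbq3_51.enc h1 h2 h3))⟩
noncomputable def rkbq3_75 : Fn3 := ⟨_, _, fun h1 h2 h3 => (enc_sub h1 (cv4r.enc h2))⟩
noncomputable def rkbq3 : Fn3 := ⟨_, _, fun h1 h2 h3 => (enc_case (enc_sub h1 (cv1r.enc h2)) (enc_mul h1 (bf1q3.enc h2 h3)) (enc_case (enc_sub h1 (cv2r.enc h2)) (enc_add (enc_mul h1 (bf2q3.enc h2 h3)) (enc_mul (enc_norm (enc_mul (enc_norm (enc_sub (enc_pnc _ 1) (lm1r.enc h1 h2))) (cv1r.enc h2))) (enc_norm (enc_sub (bf1q3.enc h2 h3) (bf2q3.enc h2 h3))))) (enc_case (enc_sub h1 (cv3r.enc h2)) (enc_add (enc_mul h1 (bf3q3.enc h2 h3)) (enc_mul (enc_norm (enc_mul (enc_norm (enc_sub (enc_pnc _ 1) (lm2r.enc h1 h2))) (cv2r.enc h2))) (enc_norm (enc_sub (bf2q3.enc h2 h3) (bf3q3.enc h2 h3))))) (enc_case (rkbq3_75.enc h1 h2 h3) (enc_add (enc_mul h1 (bf4q3.enc h2 h3)) (enc_mul (enc_norm (enc_mul (enc_norm (enc_sub (enc_pnc _ 1)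 (lm3r.enc h1 h2))) (cv3r.enc h2))) (enc_norm (enc_sub (bf3q3.enc h2 h3) (bf4q3.enc h2 h3))))) (enc_case (enc_sub h1 (cv5r.enc h2)) (enc_case (enc_subr 317 200 h2) (rkbq3_49.enc h1 h2 h3) (enc_case (enc_subr 167 100 h2) (enc_add (kf4q3.enc h2 h3) (enc_mul (enc_norm (enc_mul (enc_norm (rkbq3_75.enc h1 h2 h3)) (enc_inv (enc_sub (enc_subr 1 2 (swg.enc h2)) (cv4r.enc h2))))) (enc_norm (enc_sub (enc_mul (enc_norm (enc_subn 2 h2)) (enc_norm (enc_add (enc_mul (enc_norm (enc_sub (enc_sub (rkbq3_53.enc h1 h2 h3) (rkbq3_52.enc h1 h2 h3)) (enc_sub (enc_rat _ 1 4) (enc_scale 3 8 (enc_mul (enc_norm (rkbq3_50.enc h1 h2 h3)) (enc_inv (rkbq3_51.enc h1 h2 h3))))))) (enc_inv (esg.enc (enc_norm (rkbq3_50.enc h1 h2 h3))))) (kcg.enc (enc_norm (enc_sub (rkbq3_52.enc h1 h2 h3) (rkbq3_53.enc h1 h2 h3))) h3)))) (kf4q3.enc h2 h3))))) (rkbq3_49.enc h1 h2 h3))) (enc_case (enc_sub h1 (cv6r.enc h2)) (enc_add (enc_mul h1 (bf6q3.enc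 h2 h3)) (enc_mul (enc_norm (enc_sub (enc_pnc _ 1) (lm5r.enc h1 h2))) (enc_norm (enc_sub (kf5q3.enc h2 h3) (enc_mul (cv5r.enc h2) (bf6q3.enc h2 h3)))))) (enc_case (enc_sub h1 (cv7r.enc h2)) (enc_add (enc_mul h1 (bf7q3.enc h2 h3)) (enc_mul (enc_norm (enc_mul (enc_norm (enc_sub (enc_pnc _ 1) (lm6r.enc h1 h2))) (cv6r.enc h2))) (enc_norm (enc_sub (bf6q3.enc h2 h3) (bf7q3.enc h2 h3))))) (enc_add (kf7q3.enc h2 h3) (enc_mul (lm7r.enc h1 h2) (enc_norm (enc_sub (kf8q3.enc h2 h3) (kf7q3.enc h2 h3))))))))))))⟩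
noncomputable def rsbq3 : Fn3 := ⟨_, _, fun h1 h2 h3 => (enc_case h1 (enc_neg (rkbq3.enc (enc_neg h1) h2 h3)) (rkbq3.enc h1 h2 h3))⟩
noncomputable def bx5q0_3 : Fn2 := ⟨_, _, fun h1 h2 => (enc_subr 251 400 h2)⟩
noncomputable def bx5q0 : Fn2 := ⟨_, _, fun h1 h2 => (enc_norm (enc_case (enc_subr 149 400 h1) (enc_case (enc_subr 4 25 h1) (enc_add (enc_add (enc_scale 45417 160000 h1) (enc_rat _ 61829 1000000)) (enc_mul (enc_norm (bx5q0_3.enc h1 h2)) (enc_norm (enc_sub (enc_rat _ 9151 20000) (enc_scale 3713 16000 h1))))) (enc_add (enc_add (enc_sub (enc_rat _ 654732501 5312500000) (enc_scale 42494063 425000000 h1)) (enc_mul (enc_norm (bx5q0_3.enc h1 h2)) (enc_norm (enc_sub (enc_rat _ 803564569 1062500000) (enc_scale 356868319 170000000 h1))))) (enc_mul (enc_sq (enc_norm (bx5q0_3.enc h1 h2))) (enc_norm (enc_subr 8011 1062500 (enc_scale 8011 170000 h1)))))) (enc_add (enc_sub (enc_rat _ 81013443 425000000)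 (enc_scale 29582309 106250000 h1)) (enc_mul (enc_norm (bx5q0_3.enc h1 h2)) (enc_norm (enc_sub (enc_rat _ 28484303 42500000) (enc_scale 15712439 10625000 h1)))))))⟩
noncomputable def rxq0_49 : Fn3 := ⟨_, _, fun h1 h2 h3 => (enc_add (enc_mul h1 (bx5q0.enc h2 h3)) (enc_mul (enc_norm (enc_mul (enc_norm (enc_sub (enc_pnc _ 1) (lm4m.enc h1 h2))) (cv4m.enc h2))) (enc_norm (enc_sub (bx4q0.enc h2 h3) (bx5q0.enc h2 h3)))))⟩
noncomputable def rxq0_51 : Fn3 := ⟨_, _, fun h1 h2 h3 => (enc_sub (enc_pnc _ 1) h2)⟩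
noncomputable def rxq0_68 : Fn3 := ⟨_, _, fun h1 h2 h3 => (enc_sub h1 (cv4m.enc h2))⟩
noncomputable def rxq0 : Fn3 := ⟨_, _, fun h1 h2 h3 => (enc_case (enc_sub h1 (cv1m.enc h2)) (enc_add (enc_mul h1 (bx1q0.enc h2 h3)) (enc_mul (enc_norm (enc_sub (enc_pnc _ 1) (lm0m.enc h1 h2))) (enc_norm (enc_sub (l0q0.enc h2 h3) (enc_mul (c1g.enc h2) (bx1q0.enc h2 h3)))))) (enc_case (enc_sub h1 (cv2m.enc h2)) (enc_add (enc_mul h1 (bx2q0.enc h2 h3)) (enc_mul (enc_norm (enc_mul (enc_norm (enc_sub (enc_pnc _ 1) (lm1m.enc h1 h2))) (cv1m.enc h2))) (enc_norm (enc_sub (bx1q0.enc h2 h3) (bx2q0.enc h2 h3))))) (enc_case (enc_sub h1 (cv3m.enc h2)) (enc_add (enc_mul h1 (bx3q0.enc h2 h3)) (enc_mul (enc_norm (enc_mul (enc_norm (enc_sub (enc_pnc _ 1) (lm2m.enc h1 h2))) (cv2m.enc h2))) (enc_norm (enc_sub (bx2q0.enc h2 h3) (bx3q0.enc h2 h3))))) (enc_case (rxq0_68.enc h1 h2 h3) (enc_add (enc_mul h1 (bx4q0.enc h2 h3)) (enc_mul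 (enc_norm (enc_mul (enc_norm (enc_sub (enc_pnc _ 1) (lm3m.enc h1 h2))) (cv3m.enc h2))) (enc_norm (enc_sub (bx3q0.enc h2 h3) (bx4q0.enc h2 h3))))) (enc_case (enc_sub h1 (cv5m.enc h2)) (enc_case (enc_subr 33 100 h2) (rxq0_49.enc h1 h2 h3) (enc_case (enc_subr 83 200 h2) (enc_add (l4q0.enc h2 h3) (enc_mul (enc_norm (enc_mul (enc_norm (rxq0_68.enc h1 h2 h3)) (enc_inv (enc_sub (enc_add (swg.enc h2) (enc_rat _ 1 2)) (cv4m.enc h2))))) (enc_norm (enc_sub (enc_sub (qsg.enc (enc_norm (rxq0_51.enc h1 h2 h3))) (enc_mul (enc_norm (enc_nat 2 (enc_sub (rxq0_51.enc h1 h2 h3) h3))) (enc_norm (enc_mul (esg.enc (enc_norm (rxq0_51.enc h1 h2 h3))) (kcg.enc (enc_norm (enc_sub (enc_scale 3 4 (rxq0_51.enc h1 h2 h3)) (enc_half (gsg.enc (enc_norm (rxq0_51.enc h1 h2 h3)))))) h3))))) (l4q0.enc h2 h3))))) (rxq0_49.enc h1 h2 h3))) (enc_case (enc_sub h1 (cv6m.enc h2)) (enc_add (enc_mul h1 (bx6q0.enc h2 h3)) (enc_mul (enc_norm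 (enc_sub (enc_pnc _ 1) (lm5m.enc h1 h2))) (enc_norm (enc_sub (l5q0.enc h2 h3) (enc_mul (cv5m.enc h2) (bx6q0.enc h2 h3)))))) (enc_case (enc_sub h1 (cv7m.enc h2)) (enc_add (enc_mul h1 (bx7q0.enc h2 h3)) (enc_mul (enc_norm (enc_mul (enc_norm (enc_sub (enc_pnc _ 1) (lm6m.enc h1 h2))) (cv6m.enc h2))) (enc_norm (enc_sub (bx6q0.enc h2 h3) (bx7q0.enc h2 h3))))) (enc_add (l7q0.enc h2 h3) (enc_mul (lm7m.enc h1 h2) (enc_norm (enc_sub (l8q0.enc h2 h3) (l7q0.enc h2 h3))))))))))))⟩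
noncomputable def rlq0 : Fn3 := ⟨_, _, fun h1 h2 h3 => (enc_case h1 (enc_neg (rxq0.enc (enc_neg h1) h2 h3)) (rxq0.enc h1 h2 h3))⟩
noncomputable def rxq1 : Fn3 := ⟨_, _, fun h1 h2 h3 => (enc_case (enc_sub h1 (cv1m.enc h2)) (enc_add (enc_mul h1 (bx1q1.enc h2 h3)) (enc_mul (enc_norm (enc_sub (enc_pnc _ 1) (lm0m.enc h1 h2))) (enc_norm (enc_sub (l0q1.enc h2 h3) (enc_mul (c1g.enc h2) (bx1q1.enc h2 h3)))))) (enc_case (enc_sub h1 (cv2m.enc h2)) (enc_add (enc_mul h1 (bx2q1.enc h2 h3)) (enc_mul (enc_norm (enc_mul (enc_norm (enc_sub (enc_pnc _ 1) (lm1m.enc h1 h2))) (cv1m.enc h2))) (enc_norm (enc_sub (bx1q1.enc h2 h3) (bx2q1.enc h2 h3))))) (enc_case (enc_sub h1 (cv3m.enc h2)) (enc_add (enc_mul h1 (bx3q1.enc h2 h3)) (enc_mul (enc_norm (enc_mul (enc_norm (enc_sub (enc_pnc _ 1) (lm2m.enc h1 h2))) (cv2m.enc h2))) (enc_norm (enc_sub (bx2q1.enc h2 h3) (bx3q1.enc h2 h3))))) (enc_case (enc_sub h1 (cv4m.enc h2))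 (enc_add (enc_mul h1 (bx4q1.enc h2 h3)) (enc_mul (enc_norm (enc_mul (enc_norm (enc_sub (enc_pnc _ 1) (lm3m.enc h1 h2))) (cv3m.enc h2))) (enc_norm (enc_sub (bx3q1.enc h2 h3) (bx4q1.enc h2 h3))))) (enc_case (enc_sub h1 (cv5m.enc h2)) (enc_add (enc_mul h1 (bx5q1.enc h2 h3)) (enc_mul (enc_norm (enc_mul (enc_norm (enc_sub (enc_pnc _ 1) (lm4m.enc h1 h2))) (cv4m.enc h2))) (enc_norm (enc_sub (bx4q1.enc h2 h3) (bx5q1.enc h2 h3))))) (enc_case (enc_sub h1 (cv6m.enc h2)) (enc_add (enc_mul h1 (bx6q1.enc h2 h3)) (enc_mul (enc_norm (enc_mul (enc_norm (enc_sub (enc_pnc _ 1) (lm5m.enc h1 h2))) (cv5m.enc h2))) (enc_norm (enc_sub (bx5q1.enc h2 h3) (bx6q1.enc h2 h3))))) (enc_case (enc_sub h1 (cv7m.enc h2)) (enc_add (enc_mul h1 (bx7q1.enc h2 h3)) (enc_mul (enc_norm (enc_mul (enc_norm (enc_sub (enc_pnc _ 1) (lm6m.enc h1 h2))) (cv6m.enc h2))) (enc_norm (enc_sub (bx6q1.enc h2 h3) (bx7q1.enc h2 h3))))) (enc_add (l7q1.enc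 h2 h3) (enc_mul (lm7m.enc h1 h2) (enc_norm (enc_sub (l8q1.enc h2 h3) (l7q1.enc h2 h3))))))))))))⟩
noncomputable def rlq1 : Fn3 := ⟨_, _, fun h1 h2 h3 => (enc_case h1 (enc_neg (rxq1.enc (enc_neg h1) h2 h3)) (rxq1.enc h1 h2 h3))⟩
noncomputable def bx4q2_3 : Fn2 := ⟨_, _, fun h1 h2 => (enc_subr 251 400 h2)⟩
noncomputable def bx4q2 : Fn2 := ⟨_, _, fun h1 h2 => (enc_norm (enc_case (enc_sub (enc_pnc _ 1) (enc_scale 3 4 (enc_sq h1))) (enc_case (enc_subr 127 100 h1) (enc_add (enc_subr 2408057 11600000 (enc_scale 2973 23200 h1)) (enc_mul (enc_norm (bx4q2_3.enc h1 h2)) (enc_norm (enc_subr 2800261 1160000 (enc_scale 18873 11600 h1))))) (enc_case (enc_subr 69 50 h1) (enc_add (enc_subr 11944631 11000000 (enc_scale 11271 13750 h1)) (enc_mul (enc_norm (bx4q2_3.enc h1 h2)) (enc_norm (enc_subr 539497 1100000 (enc_scale 309 2750 h1))))) (enc_add (enc_subr 1657597 1000000 (enc_scale 617 500 h1)) (enc_mul (enc_norm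 (bx4q2_3.enc h1 h2)) (enc_norm (enc_subr 587 800 (enc_scale 433 1500 h1))))))) (enc_case (enc_subr 1 4 (c1g.enc h1)) (enc_case (enc_subr 1 10 (c1g.enc h1)) (enc_case (enc_subr 1 20 (c1g.enc h1)) (enc_add (enc_subr 29643 500000 (enc_scale 15877 50000 (c1g.enc h1))) (enc_mul (enc_norm (bx4q2_3.enc h1 h2)) (enc_norm (enc_subr 53779 100000 (enc_neg (enc_scale 3007 1250 (c1g.enc h1))))))) (enc_add (enc_subr 2363 40000 (enc_scale 7833 25000 (c1g.enc h1))) (enc_mul (enc_norm (bx4q2_3.enc h1 h2)) (enc_norm (enc_subr 54171 100000 (enc_neg (enc_scale 2909 1250 (c1g.enc h1)))))))) (enc_case (enc_subr 3 20 (c1g.enc h1)) (enc_add (enc_subr 54509 1000000 (enc_scale 13383 50000 (c1g.enc h1))) (enc_mul (enc_norm (bx4q2_3.enc h1 h2)) (enc_norm (enc_subr 13041 20000 (enc_neg (enc_scale 6119 5000 (c1g.enc h1))))))) (enc_case (enc_subr 1 5 (c1g.enc h1)) (enc_add (enc_subr 16609 500000 (enc_scale 3143 25000 (c1g.enc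 h1))) (enc_mul (enc_norm (bx4q2_3.enc h1 h2)) (enc_norm (enc_subr 104499 100000 (enc_scale 6979 5000 (c1g.enc h1)))))) (enc_add (enc_subr 1633 100000 (enc_scale 129 3125 (c1g.enc h1))) (enc_mul (enc_norm (bx4q2_3.enc h1 h2)) (enc_norm (enc_subr 138847 100000 (enc_scale 7783 2500 (c1g.enc h1))))))))) (enc_case (enc_subr 7 20 (c1g.enc h1)) (enc_case (enc_subr 3 10 (c1g.enc h1)) (enc_add (enc_subr 1001 100000 (enc_scale 2 125 (c1g.enc h1))) (enc_mul (enc_norm (bx4q2_3.enc h1 h2)) (enc_norm (enc_subr 37193 25000 (enc_scale 17551 5000 (c1g.enc h1)))))) (enc_add (enc_subr 128 15625 (enc_scale 497 50000 (c1g.enc h1))) (enc_mul (enc_norm (bx4q2_3.enc h1 h2)) (enc_norm (enc_subr 72763 50000 (enc_scale 1701 500 (c1g.enc h1))))))) (enc_case (enc_subr 2 5 (c1g.enc h1)) (enc_add (enc_subr 1073 125000 (enc_scale 553 50000 (c1g.enc h1))) (enc_mul (enc_norm (bx4q2_3.enc h1 h2)) (enc_norm (enc_subr 67807 50000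 (enc_scale 7797 2500 (c1g.enc h1)))))) (enc_case (enc_subr 9 20 (c1g.enc h1)) (enc_add (enc_subr 1607 125000 (enc_scale 1087 50000 (c1g.enc h1))) (enc_mul (enc_norm (bx4q2_3.enc h1 h2)) (enc_norm (enc_subr 54759 50000 (enc_scale 3083 1250 (c1g.enc h1)))))) (enc_add (enc_subr 3073 100000 (enc_scale 3073 50000 (c1g.enc h1))) (enc_mul (enc_norm (bx4q2_3.enc h1 h2)) (enc_norm (enc_sub (enc_rat _ 147 1000) (enc_scale 147 500 (c1g.enc h1))))))))))))⟩
noncomputable def bx3q2_3 : Fn2 := ⟨_, _, fun h1 h2 => (enc_subr 251 400 h2)⟩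
noncomputable def bx3q2 : Fn2 := ⟨_, _, fun h1 h2 => (enc_norm (enc_case (enc_sub (enc_pnc _ 1) (enc_scale 3 4 (enc_sq h1))) (enc_case (enc_subr 127 100 h1) (enc_add (enc_subr 53497811 29000000 (enc_scale 4852 3625 h1)) (enc_mul (enc_norm (bx3q2_3.enc h1 h2)) (enc_norm (enc_sub (enc_rat _ 12942847 2900000) (enc_scale 24427 5800 h1))))) (enc_case (enc_subr 69 50 h1) (enc_add (enc_subr 27299739 11000000 (enc_scale 20241 11000 h1)) (enc_mul (enc_norm (bx3q2_3.enc h1 h2)) (enc_norm (enc_sub (enc_rat _ 1132847 220000) (enc_scale 52271 11000 h1))))) (enc_add (enc_subr 364963 125000 (enc_scale 25889 12000 h1)) (enc_mul (enc_norm (bx3q2_3.enc h1 h2)) (enc_norm (enc_sub (enc_rat _ 1342483 100000) (enc_scale 16123 1500 h1))))))) (enc_case (enc_subr 1 4 (c1g.enc h1)) (enc_case (enc_subr 1 10 (c1g.enc h1)) (enc_case (enc_subr 1 20 (c1g.enc h1)) (enc_add (enc_subr 5983 20000 (enc_scale 2683 3125 (c1g.enc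 h1))) (enc_mul (enc_norm (bx3q2_3.enc h1 h2)) (enc_norm (enc_subr 39841 100000 (enc_neg (enc_scale 1131 2500 (c1g.enc h1))))))) (enc_add (enc_subr 299179 1000000 (enc_scale 42957 50000 (c1g.enc h1))) (enc_mul (enc_norm (bx3q2_3.enc h1 h2)) (enc_norm (enc_subr 4969 12500 (enc_neg (enc_scale 2351 5000 (c1g.enc h1)))))))) (enc_case (enc_subr 3 20 (c1g.enc h1)) (enc_add (enc_subr 299303 1000000 (enc_scale 43019 50000 (c1g.enc h1))) (enc_mul (enc_norm (bx3q2_3.enc h1 h2)) (enc_norm (enc_subr 8857 25000 (enc_neg (enc_scale 4513 5000 (c1g.enc h1))))))) (enc_case (enc_subr 1 5 (c1g.enc h1)) (enc_add (enc_subr 299453 1000000 (enc_scale 43069 50000 (c1g.enc h1))) (enc_mul (enc_norm (bx3q2_3.enc h1 h2)) (enc_norm (enc_subr 25021 100000 (enc_neg (enc_scale 3991 2500 (c1g.enc h1))))))) (enc_add (enc_subr 290373 1000000 (enc_scale 40799 50000 (c1g.enc h1))) (enc_mul (enc_norm (bx3q2_3.enc h1 h2)) (enc_norm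 (enc_subr 41477 100000 (enc_neg (enc_scale 967 1250 (c1g.enc h1)))))))))) (enc_case (enc_subr 7 20 (c1g.enc h1)) (enc_case (enc_subr 3 10 (c1g.enc h1)) (enc_add (enc_subr 60717 250000 (enc_scale 15649 25000 (c1g.enc h1))) (enc_mul (enc_norm (bx3q2_3.enc h1 h2)) (enc_norm (enc_subr 47501 50000 (enc_scale 6837 5000 (c1g.enc h1)))))) (enc_add (enc_subr 3591 20000 (enc_scale 4149 10000 (c1g.enc h1))) (enc_mul (enc_norm (bx3q2_3.enc h1 h2)) (enc_norm (enc_subr 68357 50000 (enc_scale 13789 5000 (c1g.enc h1))))))) (enc_case (enc_subr 2 5 (c1g.enc h1)) (enc_add (enc_subr 33691 250000 (enc_scale 14347 50000 (c1g.enc h1))) (enc_mul (enc_norm (bx3q2_3.enc h1 h2)) (enc_norm (enc_subr 148103 100000 (enc_scale 1927 625 (c1g.enc h1)))))) (enc_case (enc_subr 9 20 (c1g.enc h1)) (enc_add (enc_subr 26279 250000 (enc_scale 10641 50000 (c1g.enc h1))) (enc_mul (enc_norm (bx3q2_3.enc h1 h2)) (enc_norm (enc_subr 137487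 100000 (enc_scale 14089 5000 (c1g.enc h1)))))) (enc_add (enc_subr 9347 100000 (enc_scale 9347 50000 (c1g.enc h1))) (enc_mul (enc_norm (bx3q2_3.enc h1 h2)) (enc_norm (enc_subr 5343 5000 (enc_scale 5343 2500 (c1g.enc h1))))))))))))⟩
noncomputable def bx2q2_3 : Fn2 := ⟨_, _, fun h1 h2 => (enc_subr 251 400 h2)⟩
noncomputable def bx2q2 : Fn2 := ⟨_, _, fun h1 h2 => (enc_norm (enc_case (enc_sub (enc_pnc _ 1) (enc_scale 3 4 (enc_sq h1))) (enc_case (enc_subr 127 100 h1) (enc_add (enc_subr 793863 232000 (enc_scale 146979 58000 h1)) (enc_mul (enc_norm (bx2q2_3.enc h1 h2)) (enc_norm (enc_sub (enc_rat _ 1006033 200000) (enc_scale 2073 400 h1))))) (enc_case (enc_subr 69 50 h1) (enc_add (enc_subr 37439361 11000000 (enc_scale 277173 110000 h1)) (enc_mul (enc_norm (bx2q2_3.enc h1 h2)) (enc_norm (enc_sub (enc_rat _ 6808579 1100000) (enc_scale 1341 220 h1))))) (enc_add (enc_subr 1699417 500000 (enc_scale 150979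 60000 h1)) (enc_mul (enc_norm (bx2q2_3.enc h1 h2)) (enc_norm (enc_sub (enc_rat _ 274373 40000) (enc_scale 26323 4000 h1))))))) (enc_case (enc_subr 1 4 (c1g.enc h1)) (enc_case (enc_subr 1 10 (c1g.enc h1)) (enc_case (enc_subr 1 20 (c1g.enc h1)) (enc_add (enc_subr 495693 1000000 (enc_scale 9717 10000 (c1g.enc h1))) (enc_mul (enc_norm (bx2q2_3.enc h1 h2)) (enc_norm (enc_subr 95383 100000 (enc_scale 4729 1250 (c1g.enc h1)))))) (enc_add (enc_subr 102169 200000 (enc_scale 63737 50000 (c1g.enc h1))) (enc_mul (enc_norm (bx2q2_3.enc h1 h2)) (enc_norm (enc_subr 2447 2500 (enc_scale 21413 5000 (c1g.enc h1))))))) (enc_case (enc_subr 3 20 (c1g.enc h1)) (enc_add (enc_subr 509647 1000000 (enc_scale 31569 25000 (c1g.enc h1))) (enc_mul (enc_norm (bx2q2_3.enc h1 h2)) (enc_norm (enc_subr 6309 6250 (enc_scale 4589 1000 (c1g.enc h1)))))) (enc_case (enc_subr 1 5 (c1g.enc h1)) (enc_add (enc_subr 514579 1000000 (enc_scale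 32391 25000 (c1g.enc h1))) (enc_mul (enc_norm (bx2q2_3.enc h1 h2)) (enc_norm (enc_subr 411 800 (enc_scale 3211 2500 (c1g.enc h1)))))) (enc_add (enc_subr 550263 1000000 (enc_scale 73703 50000 (c1g.enc h1))) (enc_mul (enc_norm (bx2q2_3.enc h1 h2)) (enc_norm (enc_sub (enc_rat _ 35917 100000) (enc_scale 15401 5000 (c1g.enc h1))))))))) (enc_case (enc_subr 7 20 (c1g.enc h1)) (enc_case (enc_subr 3 10 (c1g.enc h1)) (enc_add (enc_subr 274729 500000 (enc_scale 36771 25000 (c1g.enc h1))) (enc_mul (enc_norm (bx2q2_3.enc h1 h2)) (enc_norm (enc_sub (enc_rat _ 4873 25000) (enc_scale 3029 1250 (c1g.enc h1)))))) (enc_add (enc_subr 48427 125000 (enc_scale 9307 10000 (c1g.enc h1))) (enc_mul (enc_norm (bx2q2_3.enc h1 h2)) (enc_norm (enc_subr 26327 25000 (enc_scale 2171 1250 (c1g.enc h1))))))) (enc_case (enc_subr 2 5 (c1g.enc h1)) (enc_add (enc_subr 261381 1000000 (enc_scale 2853 5000 (c1g.enc h1))) (enc_mul (enc_norm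 (bx2q2_3.enc h1 h2)) (enc_norm (enc_subr 29617 20000 (enc_scale 2959 1000 (c1g.enc h1)))))) (enc_case (enc_subr 9 20 (c1g.enc h1)) (enc_add (enc_subr 190197 1000000 (enc_scale 1227 3125 (c1g.enc h1))) (enc_mul (enc_norm (bx2q2_3.enc h1 h2)) (enc_norm (enc_subr 148629 100000 (enc_scale 14863 5000 (c1g.enc h1)))))) (enc_add (enc_subr 13509 100000 (enc_scale 13509 50000 (c1g.enc h1))) (enc_mul (enc_norm (bx2q2_3.enc h1 h2)) (enc_norm (enc_subr 7431 5000 (enc_scale 7431 2500 (c1g.enc h1))))))))))))⟩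
noncomputable def bx1q2_3 : Fn2 := ⟨_, _, fun h1 h2 => (enc_subr 251 400 h2)⟩
noncomputable def bx1q2_10 : Fn2 := ⟨_, _, fun h1 h2 => (enc_subr 122234428036571617 232320522350000000 (enc_neg (enc_scale 627558740527 528481625000 (bx1q2_3.enc h1 h2))))⟩
noncomputable def bx1q2 : Fn2 := ⟨_, _, fun h1 h2 => (enc_norm (enc_case (enc_sub (enc_pnc _ 1) (enc_scale 3 4 (enc_sq h1))) (enc_add (bx1q2_10.enc h1 h2) (enc_case (enc_subr 127 100 h1) (enc_case (enc_subr 231 200 h1) (enc_pnc _ 0) (enc_add (enc_subr 3117807 1000000 (enc_scale 13497 5000 h1)) (enc_mul (enc_norm (bx1q2_3.enc h1 h2)) (enc_norm (enc_sub (enc_rat _ 16023777 1150000) (enc_scale 69367 5750 h1)))))) (enc_case (enc_subr 139 100 h1) (enc_add (enc_subr 6243361 2000000 (enc_scale 54049 20000 h1)) (enc_mul (enc_norm (bx1q2_3.enc h1 h2)) (enc_norm (enc_sub (enc_rat _ 103279 7500) (enc_scale 17903 1500 h1))))) (enc_add (enc_subr 17183247 5500000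 (enc_scale 297471 110000 h1)) (enc_mul (enc_norm (bx1q2_3.enc h1 h2)) (enc_norm (enc_sub (enc_rat _ 15111493 1100000) (enc_scale 131029 11000 h1)))))))) (enc_add (bx1q2_10.enc h1 h2) (enc_case (enc_subr 1 4 (c1g.enc h1)) (enc_case (enc_subr 1 10 (c1g.enc h1)) (enc_case (enc_subr 1 20 (c1g.enc h1)) (enc_add (enc_scale 8023 50000 (c1g.enc h1)) (enc_mul (enc_norm (bx1q2_3.enc h1 h2)) (enc_scale 9243 2500 (c1g.enc h1)))) (enc_add (enc_subr 4213 200000 (enc_scale 1818 3125 (c1g.enc h1))) (enc_mul (enc_norm (bx1q2_3.enc h1 h2)) (enc_norm (enc_add (enc_scale 2877 1250 (c1g.enc h1)) (enc_rat _ 3489 50000)))))) (enc_case (enc_subr 3 20 (c1g.enc h1)) (enc_add (enc_subr 74813 1000000 (enc_scale 27981 25000 (c1g.enc h1))) (enc_mul (enc_norm (bx1q2_3.enc h1 h2)) (enc_norm (enc_subr 1823 50000 (enc_scale 841 250 (c1g.enc h1)))))) (enc_case (enc_subr 1 5 (c1g.enc h1)) (enc_add (enc_subr 27283 200000 (enc_scale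 4781 3125 (c1g.enc h1))) (enc_mul (enc_norm (bx1q2_3.enc h1 h2)) (enc_norm (enc_subr 23017 100000 (enc_scale 23277 5000 (c1g.enc h1)))))) (enc_add (enc_subr 183371 1000000 (enc_scale 17647 10000 (c1g.enc h1))) (enc_mul (enc_norm (bx1q2_3.enc h1 h2)) (enc_norm (enc_subr 15969 100000 (enc_scale 4303 1000 (c1g.enc h1))))))))) (enc_case (enc_subr 7 20 (c1g.enc h1)) (enc_case (enc_subr 3 10 (c1g.enc h1)) (enc_add (enc_subr 117243 500000 (enc_scale 49229 25000 (c1g.enc h1))) (enc_mul (enc_norm (bx1q2_3.enc h1 h2)) (enc_norm (enc_sub (enc_rat _ 146883 50000) (enc_scale 5054 625 (c1g.enc h1)))))) (enc_add (enc_subr 5067 50000 (enc_scale 76267 50000 (c1g.enc h1))) (enc_mul (enc_norm (bx1q2_3.enc h1 h2)) (enc_norm (enc_subr 1959 10000 (enc_scale 5897 2500 (c1g.enc h1))))))) (enc_case (enc_subr 2 5 (c1g.enc h1)) (enc_add (enc_add (enc_scale 11983 12500 (c1g.enc h1)) (enc_rat _ 19401 200000)) (enc_mul (enc_norm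 (bx1q2_3.enc h1 h2)) (enc_norm (enc_subr 13179 20000 (enc_scale 18409 5000 (c1g.enc h1)))))) (enc_case (enc_subr 9 20 (c1g.enc h1)) (enc_add (enc_add (enc_scale 14831 25000 (c1g.enc h1)) (enc_rat _ 48633 200000)) (enc_mul (enc_norm (bx1q2_3.enc h1 h2)) (enc_norm (enc_subr 64087 100000 (enc_scale 18183 5000 (c1g.enc h1)))))) (enc_add (enc_add (enc_scale 3722386213822567 11616026117500000 (c1g.enc h1)) (enc_rat _ 85010565898345947 232320522350000000)) (enc_mul (enc_norm (bx1q2_3.enc h1 h2)) (enc_norm (enc_subr 386465606243 528481625000 (enc_scale 101402434677 26424081250 (c1g.enc h1)))))))))))))⟩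
noncomputable def l0q2_7 : Fn2 := ⟨_, _, fun h1 h2 => (enc_scale 3 4 h1)⟩
noncomputable def l0q2_8 : Fn2 := ⟨_, _, fun h1 h2 => (enc_half (c1g.enc h1))⟩
noncomputable def l0q2 : Fn2 := ⟨_, _, fun h1 h2 => (enc_norm (enc_sub (txg.enc (enc_neg (c1g.enc h1)) (enc_norm (enc_add (l0q2_7.enc h1 h2) (l0q2_8.enc h1 h2))) h2) (txg.enc (c1g.enc h1) (enc_norm (enc_sub (l0q2_7.enc h1 h2) (l0q2_8.enc h1 h2))) h2)))⟩
noncomputable def n0x : Fn2 := ⟨_, _, fun h1 h2 => (enc_norm (enc_subr 122234428036571617 232320522350000000 (enc_neg (enc_scale 627558740527 528481625000 (enc_subr 251 400 h2)))))⟩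
noncomputable def rxq2_84 : Fn3 := ⟨_, _, fun h1 h2 h3 => (enc_mul h1 (bx1q2.enc h2 h3))⟩
noncomputable def rxq2_86 : Fn3 := ⟨_, _, fun h1 h2 h3 => (enc_sub (enc_pnc _ 1) (lm0p.enc h1 h2))⟩
noncomputable def rxq2 : Fn3 := ⟨_, _, fun h1 h2 h3 => (enc_case (enc_sub h1 (cv1p.enc h2)) (enc_case (enc_subr 115469 100000 h2) (enc_add (rxq2_84.enc h1 h2 h3) (enc_mul (enc_norm (rxq2_86.enc h1 h2 h3)) (enc_norm (enc_sub (l0q2.enc h2 h3) (enc_mul (c1g.enc h2) (bx1q2.enc h2 h3)))))) (enc_case (enc_subr 2887 2500 h2) (enc_add (rxq2_84.enc h1 h2 h3) (enc_mul (enc_norm (rxq2_86.enc h1 h2 h3)) (enc_norm (enc_mul (c1g.enc h2) (enc_norm (enc_sub (n0x.enc h2 h3) (bx1q2.enc h2 h3))))))) (rxq2_84.enc h1 h2 h3))) (enc_case (enc_sub h1 (cv2p.enc h2)) (enc_add (enc_mul h1 (bx2q2.enc h2 h3)) (enc_mul (enc_norm (enc_mul (enc_norm (enc_sub (enc_pnc _ 1) (lm1p.enc h1 h2))) (cv1p.enc h2))) (enc_norm (enc_sub (bx1q2.enc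 h2 h3) (bx2q2.enc h2 h3))))) (enc_case (enc_sub h1 (cv3p.enc h2)) (enc_add (enc_mul h1 (bx3q2.enc h2 h3)) (enc_mul (enc_norm (enc_mul (enc_norm (enc_sub (enc_pnc _ 1) (lm2p.enc h1 h2))) (cv2p.enc h2))) (enc_norm (enc_sub (bx2q2.enc h2 h3) (bx3q2.enc h2 h3))))) (enc_case (enc_sub h1 (cv4p.enc h2)) (enc_add (enc_mul h1 (bx4q2.enc h2 h3)) (enc_mul (enc_norm (enc_mul (enc_norm (enc_sub (enc_pnc _ 1) (lm3p.enc h1 h2))) (cv3p.enc h2))) (enc_norm (enc_sub (bx3q2.enc h2 h3) (bx4q2.enc h2 h3))))) (enc_case (enc_sub h1 (cv5p.enc h2)) (enc_add (enc_mul h1 (bx5q2.enc h2 h3)) (enc_mul (enc_norm (enc_mul (enc_norm (enc_sub (enc_pnc _ 1) (lm4p.enc h1 h2))) (cv4p.enc h2))) (enc_norm (enc_sub (bx4q2.enc h2 h3) (bx5q2.enc h2 h3))))) (enc_case (enc_sub h1 (cv6p.enc h2)) (enc_add (enc_mul h1 (bx6q2.enc h2 h3)) (enc_mul (enc_norm (enc_mul (enc_norm (enc_sub (enc_pnc _ 1) (lm5p.enc h1 h2))) (cv5p.enc h2))) (enc_norm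 (enc_sub (bx5q2.enc h2 h3) (bx6q2.enc h2 h3))))) (enc_case (enc_sub h1 (cv7p.enc h2)) (enc_add (enc_mul h1 (bx7q2.enc h2 h3)) (enc_mul (enc_norm (enc_mul (enc_norm (enc_sub (enc_pnc _ 1) (lm6p.enc h1 h2))) (cv6p.enc h2))) (enc_norm (enc_sub (bx6q2.enc h2 h3) (bx7q2.enc h2 h3))))) (enc_add (l7q2.enc h2 h3) (enc_mul (lm7p.enc h1 h2) (enc_norm (enc_sub (l8q2.enc h2 h3) (l7q2.enc h2 h3))))))))))))⟩
noncomputable def rlq2 : Fn3 := ⟨_, _, fun h1 h2 h3 => (enc_case h1 (enc_neg (rxq2.enc (enc_neg h1) h2 h3)) (rxq2.enc h1 h2 h3))⟩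
noncomputable def l7q3_4 : Fn2 := ⟨_, _, fun h1 h2 => (enc_subr 251 400 h2)⟩
noncomputable def l7q3 : Fn2 := ⟨_, _, fun h1 h2 => (enc_norm (enc_mul (cv7r.enc h1) (enc_norm (enc_case (enc_sub (enc_rat _ 489419299 500000000) (c3g.enc h1)) (enc_case (enc_sub (enc_rat _ 1033431783 1000000000) (c3g.enc h1)) (enc_add (enc_sub (enc_rat _ 4082811993921 4675505875000) (enc_scale 29224000 37404047 (c3g.enc h1))) (enc_mul (enc_norm (l7q3_4.enc h1 h2)) (enc_norm (enc_sub (enc_rat _ 1546988032339 935101175000) (enc_scale 181150000 112212141 (c3g.enc h1)))))) (enc_add (enc_sub (enc_rat _ 12066464358501 13648296250000) (enc_scale 8645600 10918637 (c3g.enc h1))) (enc_mul (enc_norm (l7q3_4.enc h1 h2)) (enc_norm (enc_sub (enc_rat _ 336679175321 170603703125) (enc_scale 20998000 10918637 (c3g.enc h1))))))) (enc_case (enc_sub (enc_rat _ 403213653 500000000) (c3g.enc h1)) (enc_add (enc_sub (enc_rat _ 40689207560593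 43102823000000) (enc_scale 36767500 43102823 (c3g.enc h1))) (enc_mul (enc_norm (l7q3_4.enc h1 h2)) (enc_norm (enc_sub (enc_rat _ 18092957299027 8620564600000) (enc_scale 88412500 43102823 (c3g.enc h1)))))) (enc_case (enc_sub (enc_rat _ 147732867 250000000) (c3g.enc h1)) (enc_add (enc_sub (enc_rat _ 1096916905553 1496498875000) (enc_scale 21239000 35915973 (c3g.enc h1))) (enc_mul (enc_norm (l7q3_4.enc h1 h2)) (enc_norm (enc_subr 32731983847 299299775000 (enc_scale 8225000 11971991 (c3g.enc h1)))))) (enc_add (enc_add (enc_scale 100257595 295465734 (c3g.enc h1)) (enc_rat _ 18302481 100000000)) (enc_mul (enc_norm (l7q3_4.enc h1 h2)) (enc_norm (enc_sub (enc_rat _ 43861911 20000000) (enc_scale 948237775 295465734 (c3g.enc h1))))))))))))⟩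
noncomputable def l8q3_7 : Fn2 := ⟨_, _, fun h1 h2 => (enc_half (c3g.enc h1))⟩
noncomputable def l8q3_8 : Fn2 := ⟨_, _, fun h1 h2 => (enc_scale 1 4 h1)⟩
noncomputable def l8q3_9 : Fn2 := ⟨_, _, fun h1 h2 => (enc_sub (l8q3_7.enc h1 h2) (l8q3_8.enc h1 h2))⟩
noncomputable def l8q3_12 : Fn2 := ⟨_, _, fun h1 h2 => (enc_add (enc_scale 1 4 (c3g.enc h1)) (enc_scale 3 8 h1))⟩
noncomputable def l8q3_14 : Fn2 := ⟨_, _, fun h1 h2 => (enc_half (l8q3_9.enc h1 h2))⟩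
noncomputable def l8q3 : Fn2 := ⟨_, _, fun h1 h2 => (enc_norm (enc_sub (enc_nat 2 (txg.enc (enc_norm (enc_sub (l8q3_8.enc h1 h2) (l8q3_7.enc h1 h2))) (enc_norm (enc_add (l8q3_12.enc h1 h2) (l8q3_14.enc h1 h2))) h2)) (txg.enc (enc_norm (l8q3_9.enc h1 h2)) (enc_norm (enc_sub (l8q3_12.enc h1 h2) (l8q3_14.enc h1 h2))) h2)))⟩
noncomputable def bx7q3_3 : Fn2 := ⟨_, _, fun h1 h2 => (enc_subr 251 400 h2)⟩
noncomputable def bx7q3 : Fn2 := ⟨_, _, fun h1 h2 => (enc_norm (enc_case (enc_sub (enc_rat _ 489419299 500000000) (c3g.enc h1)) (enc_case (enc_sub (enc_rat _ 1033431783 1000000000) (c3g.enc h1)) (enc_add (enc_sub (enc_rat _ 4082811993921 4675505875000) (enc_scale 29224000 37404047 (c3g.enc h1))) (enc_mul (enc_norm (bx7q3_3.enc h1 h2)) (enc_norm (enc_sub (enc_rat _ 1546988032339 935101175000) (enc_scale 181150000 112212141 (c3g.enc h1)))))) (enc_add (enc_sub (enc_rat _ 12066464358501 13648296250000)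 (enc_scale 8645600 10918637 (c3g.enc h1))) (enc_mul (enc_norm (bx7q3_3.enc h1 h2)) (enc_norm (enc_sub (enc_rat _ 336679175321 170603703125) (enc_scale 20998000 10918637 (c3g.enc h1))))))) (enc_case (enc_sub (enc_rat _ 403213653 500000000) (c3g.enc h1)) (enc_add (enc_sub (enc_rat _ 40689207560593 43102823000000) (enc_scale 36767500 43102823 (c3g.enc h1))) (enc_mul (enc_norm (bx7q3_3.enc h1 h2)) (enc_norm (enc_sub (enc_rat _ 18092957299027 8620564600000) (enc_scale 88412500 43102823 (c3g.enc h1)))))) (enc_case (enc_sub (enc_rat _ 147732867 250000000) (c3g.enc h1)) (enc_add (enc_sub (enc_rat _ 1096916905553 1496498875000) (enc_scale 21239000 35915973 (c3g.enc h1))) (enc_mul (enc_norm (bx7q3_3.enc h1 h2)) (enc_norm (enc_subr 32731983847 299299775000 (enc_scale 8225000 11971991 (c3g.enc h1)))))) (enc_add (enc_add (enc_scale 100257595 295465734 (c3g.enc h1)) (enc_rat _ 18302481 100000000)) (enc_mul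 (enc_norm (bx7q3_3.enc h1 h2)) (enc_norm (enc_sub (enc_rat _ 43861911 20000000) (enc_scale 948237775 295465734 (c3g.enc h1))))))))))⟩
noncomputable def bx6q3_3 : Fn2 := ⟨_, _, fun h1 h2 => (enc_subr 251 400 h2)⟩
noncomputable def bx6q3 : Fn2 := ⟨_, _, fun h1 h2 => (enc_norm (enc_case (enc_sub (enc_rat _ 489419299 500000000) (c3g.enc h1)) (enc_case (enc_sub (enc_rat _ 1033431783 1000000000) (c3g.enc h1)) (enc_add (enc_sub (enc_rat _ 8677993576101 7480809400000) (enc_scale 36613000 37404047 (c3g.enc h1))) (enc_mul (enc_norm (bx6q3_3.enc h1 h2)) (enc_norm (enc_sub (enc_rat _ 9481157834873 3740404700000) (enc_scale 267070000 112212141 (c3g.enc h1)))))) (enc_add (enc_sub (enc_rat _ 27887468172477 27296592500000) (enc_scale 9225600 10918637 (c3g.enc h1))) (enc_mul (enc_norm (bx6q3_3.enc h1 h2)) (enc_norm (enc_sub (enc_rat _ 5128484796627 2729659250000) (enc_scale 19056000 10918637 (c3g.enc h1)))))))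 (enc_case (enc_sub (enc_rat _ 403213653 500000000) (c3g.enc h1)) (enc_add (enc_sub (enc_rat _ 73683598500977 86205646000000) (enc_scale 29069750 43102823 (c3g.enc h1))) (enc_mul (enc_norm (bx6q3_3.enc h1 h2)) (enc_norm (enc_sub (enc_rat _ 1903257387251 1077570575000) (enc_scale 70270000 43102823 (c3g.enc h1)))))) (enc_case (enc_sub (enc_rat _ 147732867 250000000) (c3g.enc h1)) (enc_add (enc_sub (enc_rat _ 250261712563 478879640000) (enc_scale 9430000 35915973 (c3g.enc h1))) (enc_mul (enc_norm (bx6q3_3.enc h1 h2)) (enc_norm (enc_sub (enc_rat _ 99189093677 47887964000) (enc_scale 216415000 107747919 (c3g.enc h1)))))) (enc_add (enc_add (enc_scale 92210095 295465734 (c3g.enc h1)) (enc_rat _ 18302481 100000000)) (enc_mul (enc_norm (bx6q3_3.enc h1 h2)) (enc_norm (enc_sub (enc_rat _ 43861911 20000000) (enc_scale 72706975 32829526 (c3g.enc h1))))))))))⟩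
noncomputable def l5q3_4 : Fn2 := ⟨_, _, fun h1 h2 => (enc_subr 251 400 h2)⟩
noncomputable def l5q3_48 : Fn2 := ⟨_, _, fun h1 h2 => (enc_subn 1 h1)⟩
noncomputable def l5q3_63 : Fn2 := ⟨_, _, fun h1 h2 => (enc_mul (cv4r.enc h1) (bx4q3.enc h1 h2))⟩
noncomputable def l5q3 : Fn2 := ⟨_, _, fun h1 h2 => (enc_norm (enc_case (enc_subr 317 200 h1) (enc_mul (cv5r.enc h1) (enc_norm (enc_add (enc_sub (enc_rat _ 21358366354752523 18607246875000000) (enc_scale 396912848 446573925 (c3g.enc h1))) (enc_mul (enc_norm (l5q3_4.enc h1 h2)) (enc_norm (enc_sub (enc_rat _ 13127776092895159 1860724687500000) (enc_scale 572604268 89314785 (c3g.enc h1)))))))) (enc_case (enc_subr 167 100 h1) (enc_add (l5q3_63.enc h1 h2) (enc_mul (enc_norm (enc_mul (enc_norm (enc_sub (enc_sub (qsg.enc (enc_norm (l5q3_48.enc h1 h2))) (enc_mul (enc_norm (enc_nat 2 (enc_sub (l5q3_48.enc h1 h2) h2))) (enc_norm (enc_mul (esg.enc (enc_norm (l5q3_48.enc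 h1 h2))) (kcg.enc (enc_norm (enc_sub (enc_scale 3 4 (l5q3_48.enc h1 h2)) (enc_half (gsg.enc (enc_norm (l5q3_48.enc h1 h2)))))) h2))))) (l5q3_63.enc h1 h2))) (enc_norm (enc_sub (cv5r.enc h1) (cv4r.enc h1))))) (enc_inv (enc_sub (enc_subr 1 2 (swg.enc h1)) (cv4r.enc h1))))) (enc_mul (cv5r.enc h1) (enc_norm (enc_case (enc_sub (enc_rat _ 67882251 100000000) (c3g.enc h1)) (enc_add (enc_add (enc_sub (enc_rat _ 1617607620891927 3188818000000000) (enc_scale 274419111 1371191740 (c3g.enc h1))) (enc_mul (enc_norm (l5q3_4.enc h1 h2)) (enc_norm (enc_sub (enc_rat _ 177165807316863 63776360000000) (enc_scale 338500795 137119174 (c3g.enc h1)))))) (enc_mul (enc_sq (enc_norm (l5q3_4.enc h1 h2))) (enc_norm (enc_subr 58127729397 637763600000 (enc_scale 9205250 68559587 (c3g.enc h1)))))) (enc_add (enc_add (enc_scale 6279873 22627417 (c3g.enc h1)) (enc_rat _ 18302481 100000000)) (enc_mul (enc_norm (l5q3_4.enc h1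 h2)) (enc_norm (enc_sub (enc_rat _ 43861911 20000000) (enc_scale 36365185 22627417 (c3g.enc h1))))))))))))⟩
noncomputable def bx5q3_3 : Fn2 := ⟨_, _, fun h1 h2 => (enc_subr 251 400 h2)⟩
noncomputable def bx5q3 : Fn2 := ⟨_, _, fun h1 h2 => (enc_norm (enc_case (enc_subr 651 400 h1) (enc_add (enc_sub (enc_rat _ 21358366354752523 18607246875000000) (enc_scale 396912848 446573925 (c3g.enc h1))) (enc_mul (enc_norm (bx5q3_3.enc h1 h2)) (enc_norm (enc_sub (enc_rat _ 13127776092895159 1860724687500000) (enc_scale 572604268 89314785 (c3g.enc h1)))))) (enc_case (enc_sub (enc_rat _ 67882251 100000000) (c3g.enc h1)) (enc_add (enc_add (enc_sub (enc_rat _ 1617607620891927 3188818000000000) (enc_scale 274419111 1371191740 (c3g.enc h1))) (enc_mul (enc_norm (bx5q3_3.enc h1 h2)) (enc_norm (enc_sub (enc_rat _ 177165807316863 63776360000000) (enc_scale 338500795 137119174 (c3g.enc h1)))))) (enc_mul (enc_sq (enc_norm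 (bx5q3_3.enc h1 h2))) (enc_norm (enc_subr 58127729397 637763600000 (enc_scale 9205250 68559587 (c3g.enc h1)))))) (enc_add (enc_add (enc_scale 6279873 22627417 (c3g.enc h1)) (enc_rat _ 18302481 100000000)) (enc_mul (enc_norm (bx5q3_3.enc h1 h2)) (enc_norm (enc_sub (enc_rat _ 43861911 20000000) (enc_scale 36365185 22627417 (c3g.enc h1)))))))))⟩
noncomputable def rxq3_49 : Fn3 := ⟨_, _, fun h1 h2 h3 => (enc_add (enc_mul h1 (bx5q3.enc h2 h3)) (enc_mul (enc_norm (enc_mul (enc_norm (enc_sub (enc_pnc _ 1) (lm4r.enc h1 h2))) (cv4r.enc h2))) (enc_norm (enc_sub (bx4q3.enc h2 h3) (bx5q3.enc h2 h3)))))⟩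
noncomputable def rxq3_50 : Fn3 := ⟨_, _, fun h1 h2 h3 => (enc_subn 1 h2)⟩
noncomputable def rxq3_68 : Fn3 := ⟨_, _, fun h1 h2 h3 => (enc_sub h1 (cv4r.enc h2))⟩
noncomputable def rxq3 : Fn3 := ⟨_, _, fun h1 h2 h3 => (enc_case (enc_sub h1 (cv1r.enc h2)) (enc_mul h1 (bx1q3.enc h2 h3)) (enc_case (enc_sub h1 (cv2r.enc h2)) (enc_add (enc_mul h1 (bx2q3.enc h2 h3)) (enc_mul (enc_norm (enc_mul (enc_norm (enc_sub (enc_pnc _ 1) (lm1r.enc h1 h2))) (cv1r.enc h2))) (enc_norm (enc_sub (bx1q3.enc h2 h3) (bx2q3.enc h2 h3))))) (enc_case (enc_sub h1 (cv3r.enc h2)) (enc_add (enc_mul h1 (bx3q3.enc h2 h3)) (enc_mul (enc_norm (enc_mul (enc_norm (enc_sub (enc_pnc _ 1) (lm2r.enc h1 h2))) (cv2r.enc h2))) (enc_norm (enc_sub (bx2q3.enc h2 h3) (bx3q3.enc h2 h3))))) (enc_case (rxq3_68.enc h1 h2 h3) (enc_add (enc_mul h1 (bx4q3.enc h2 h3)) (enc_mul (enc_norm (enc_mul (enc_norm (enc_sub (enc_pnc _ 1) (lm3r.enc h1 h2))) (cv3r.enc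 h2))) (enc_norm (enc_sub (bx3q3.enc h2 h3) (bx4q3.enc h2 h3))))) (enc_case (enc_sub h1 (cv5r.enc h2)) (enc_case (enc_subr 317 200 h2) (rxq3_49.enc h1 h2 h3) (enc_case (enc_subr 167 100 h2) (enc_add (l4q3.enc h2 h3) (enc_mul (enc_norm (enc_mul (enc_norm (rxq3_68.enc h1 h2 h3)) (enc_inv (enc_sub (enc_subr 1 2 (swg.enc h2)) (cv4r.enc h2))))) (enc_norm (enc_sub (enc_sub (qsg.enc (enc_norm (rxq3_50.enc h1 h2 h3))) (enc_mul (enc_norm (enc_nat 2 (enc_sub (rxq3_50.enc h1 h2 h3) h3))) (enc_norm (enc_mul (esg.enc (enc_norm (rxq3_50.enc h1 h2 h3))) (kcg.enc (enc_norm (enc_sub (enc_scale 3 4 (rxq3_50.enc h1 h2 h3)) (enc_half (gsg.enc (enc_norm (rxq3_50.enc h1 h2 h3)))))) h3))))) (l4q3.enc h2 h3))))) (rxq3_49.enc h1 h2 h3))) (enc_case (enc_sub h1 (cv6r.enc h2)) (enc_add (enc_mul h1 (bx6q3.enc h2 h3)) (enc_mul (enc_norm (enc_sub (enc_pnc _ 1) (lm5r.enc h1 h2))) (enc_norm (enc_sub (l5q3.enc h2 h3) (enc_mul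 (cv5r.enc h2) (bx6q3.enc h2 h3)))))) (enc_case (enc_sub h1 (cv7r.enc h2)) (enc_add (enc_mul h1 (bx7q3.enc h2 h3)) (enc_mul (enc_norm (enc_mul (enc_norm (enc_sub (enc_pnc _ 1) (lm6r.enc h1 h2))) (cv6r.enc h2))) (enc_norm (enc_sub (bx6q3.enc h2 h3) (bx7q3.enc h2 h3))))) (enc_add (l7q3.enc h2 h3) (enc_mul (lm7r.enc h1 h2) (enc_norm (enc_sub (l8q3.enc h2 h3) (l7q3.enc h2 h3))))))))))))⟩
noncomputable def rlq3 : Fn3 := ⟨_, _, fun h1 h2 h3 => (enc_case h1 (enc_neg (rxq3.enc (enc_neg h1) h2 h3)) (rxq3.enc h1 h2 h3))⟩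
noncomputable def bd5q0_3 : Fn2 := ⟨_, _, fun h1 h2 => (enc_subr 251 400 h2)⟩
noncomputable def bd5q0 : Fn2 := ⟨_, _, fun h1 h2 => (enc_norm (enc_case (enc_subr 149 400 h1) (enc_add (enc_sub (enc_rat _ 28681 500000) (enc_scale 17504354917 3300000000 h1)) (enc_mul (enc_norm (bd5q0_3.enc h1 h2)) (enc_norm (enc_sub (enc_rat _ 158807 25000) (enc_scale 5809742809 330000000 h1))))) (enc_add (enc_subr 136320041 42500000 (enc_scale 88860971 21250000 h1)) (enc_mul (enc_norm (bd5q0_3.enc h1 h2)) (enc_norm (enc_sub (enc_rat _ 24796479 2000000) (enc_scale 28912079 1000000 h1)))))))⟩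
noncomputable def rcq0_49 : Fn3 := ⟨_, _, fun h1 h2 h3 => (enc_add (enc_mul h1 (bd5q0.enc h2 h3)) (enc_mul (enc_norm (enc_mul (enc_norm (enc_sub (enc_pnc _ 1) (lm4m.enc h1 h2))) (cv4m.enc h2))) (enc_norm (enc_sub (bd4q0.enc h2 h3) (bd5q0.enc h2 h3)))))⟩
noncomputable def rcq0_51 : Fn3 := ⟨_, _, fun h1 h2 h3 => (enc_sub (enc_pnc _ 1) h2)⟩
noncomputable def rcq0_52 : Fn3 := ⟨_, _, fun h1 h2 h3 => (gsg.enc (enc_norm (rcq0_51.enc h1 h2 h3)))⟩
noncomputable def rcq0_56 : Fn3 := ⟨_, _, fun h1 h2 h3 => (esg.enc (enc_norm (rcq0_51.enc h1 h2 h3)))⟩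
noncomputable def rcq0_60 : Fn3 := ⟨_, _, fun h1 h2 h3 => (gug.enc (enc_norm (rcq0_51.enc h1 h2 h3)))⟩
noncomputable def rcq0_62 : Fn3 := ⟨_, _, fun h1 h2 h3 => (enc_mul (enc_norm (rcq0_51.enc h1 h2 h3)) (enc_inv (rcq0_52.enc h1 h2 h3)))⟩
noncomputable def rcq0_63 : Fn3 := ⟨_, _, fun h1 h2 h3 => (enc_scale 3 4 (rcq0_62.enc h1 h2 h3))⟩
noncomputable def rcq0_93 : Fn3 := ⟨_, _, fun h1 h2 h3 => (enc_sub h1 (cv4m.enc h2))⟩
noncomputable def rcq0 : Fn3 := ⟨_, _, fun h1 h2 h3 => (enc_case (enc_sub h1 (cv1m.enc h2)) (enc_add (enc_mul h1 (bd1q0.enc h2 h3)) (enc_mul (enc_norm (enc_sub (enc_pnc _ 1) (lm0m.enc h1 h2))) (enc_norm (enc_sub (kc0q0.enc h2 h3) (enc_mul (c1g.enc h2) (bd1q0.enc h2 h3)))))) (enc_case (enc_sub h1 (cv2m.enc h2)) (enc_add (enc_mul h1 (bd2q0.enc h2 h3)) (enc_mul (enc_norm (enc_mul (enc_norm (enc_sub (enc_pnc _ 1) (lm1m.enc h1 h2))) (cv1m.enc h2))) (enc_norm (enc_sub (bd1q0.enc h2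 h3) (bd2q0.enc h2 h3))))) (enc_case (enc_sub h1 (cv3m.enc h2)) (enc_add (enc_mul h1 (bd3q0.enc h2 h3)) (enc_mul (enc_norm (enc_mul (enc_norm (enc_sub (enc_pnc _ 1) (lm2m.enc h1 h2))) (cv2m.enc h2))) (enc_norm (enc_sub (bd2q0.enc h2 h3) (bd3q0.enc h2 h3))))) (enc_case (rcq0_93.enc h1 h2 h3) (enc_add (enc_mul h1 (bd4q0.enc h2 h3)) (enc_mul (enc_norm (enc_mul (enc_norm (enc_sub (enc_pnc _ 1) (lm3m.enc h1 h2))) (cv3m.enc h2))) (enc_norm (enc_sub (bd3q0.enc h2 h3) (bd4q0.enc h2 h3))))) (enc_case (enc_sub h1 (cv5m.enc h2)) (enc_case (enc_subr 33 100 h2) (rcq0_49.enc h1 h2 h3) (enc_case (enc_subr 83 200 h2) (enc_add (kc4q0.enc h2 h3) (enc_mul (enc_norm (enc_mul (enc_norm (rcq0_93.enc h1 h2 h3)) (enc_inv (enc_sub (enc_add (swg.enc h2) (enc_rat _ 1 2)) (cv4m.enc h2))))) (enc_norm (enc_sub (enc_add (enc_sub (enc_neg (enc_add (enc_add (enc_rat _ 3 4) (enc_scale 3 2 (rcq0_51.enc h1 h2 h3))) (enc_scale 3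 4 (enc_mul (enc_norm (rcq0_62.enc h1 h2 h3)) (rcq0_60.enc h1 h2 h3))))) (enc_mul (enc_norm (enc_sub (enc_mul (enc_norm (enc_mul (enc_norm (rcq0_63.enc h1 h2 h3)) (enc_norm (enc_subn 3 (enc_nat 4 (rcq0_52.enc h1 h2 h3)))))) (rcq0_56.enc h1 h2 h3)) (enc_mul (qsg.enc (enc_norm (rcq0_51.enc h1 h2 h3))) (enc_norm (enc_sub (enc_rat _ 1 2) (rcq0_63.enc h1 h2 h3)))))) (enc_inv (enc_mul (enc_nat 2 (rcq0_56.enc h1 h2 h3)) (rcq0_56.enc h1 h2 h3))))) (enc_mul (kcg.enc (enc_norm (enc_sub (enc_scale 3 4 (rcq0_51.enc h1 h2 h3)) (enc_half (rcq0_52.enc h1 h2 h3)))) h3) (enc_norm (enc_add (enc_pnc _ 1) (enc_add (rcq0_60.enc h1 h2 h3) (enc_nat 2 (rcq0_52.enc h1 h2 h3))))))) (kc4q0.enc h2 h3))))) (rcq0_49.enc h1 h2 h3))) (enc_case (enc_sub h1 (cv6m.enc h2)) (enc_add (enc_mul h1 (bd6q0.enc h2 h3)) (enc_mul (enc_norm (enc_sub (enc_pnc _ 1) (lm5m.enc h1 h2))) (enc_norm (enc_sub (kc5q0.enc h2 h3) (enc_mul (cv5m.enc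 h2) (bd6q0.enc h2 h3)))))) (enc_case (enc_sub h1 (cv7m.enc h2)) (enc_add (enc_mul h1 (bd7q0.enc h2 h3)) (enc_mul (enc_norm (enc_mul (enc_norm (enc_sub (enc_pnc _ 1) (lm6m.enc h1 h2))) (cv6m.enc h2))) (enc_norm (enc_sub (bd6q0.enc h2 h3) (bd7q0.enc h2 h3))))) (enc_add (kc7q0.enc h2 h3) (enc_mul (lm7m.enc h1 h2) (enc_norm (enc_sub (kc8q0.enc h2 h3) (kc7q0.enc h2 h3))))))))))))⟩
noncomputable def pd0 : Fn3 := ⟨_, _, fun h1 h2 h3 => (enc_case h1 (enc_neg (rcq0.enc (enc_neg h1) h2 h3)) (rcq0.enc h1 h2 h3))⟩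
noncomputable def rcq1 : Fn3 := ⟨_, _, fun h1 h2 h3 => (enc_case (enc_sub h1 (cv1m.enc h2)) (enc_add (enc_mul h1 (bd1q1.enc h2 h3)) (enc_mul (enc_norm (enc_sub (enc_pnc _ 1) (lm0m.enc h1 h2))) (enc_norm (enc_sub (kc0q1.enc h2 h3) (enc_mul (c1g.enc h2) (bd1q1.enc h2 h3)))))) (enc_case (enc_sub h1 (cv2m.enc h2)) (enc_add (enc_mul h1 (bd2q1.enc h2 h3)) (enc_mul (enc_norm (enc_mul (enc_norm (enc_sub (enc_pnc _ 1) (lm1m.enc h1 h2))) (cv1m.enc h2))) (enc_norm (enc_sub (bd1q1.enc h2 h3) (bd2q1.enc h2 h3))))) (enc_case (enc_sub h1 (cv3m.enc h2)) (enc_add (enc_mul h1 (bd3q1.enc h2 h3)) (enc_mul (enc_norm (enc_mul (enc_norm (enc_sub (enc_pnc _ 1) (lm2m.enc h1 h2))) (cv2m.enc h2))) (enc_norm (enc_sub (bd2q1.enc h2 h3) (bd3q1.enc h2 h3))))) (enc_case (enc_sub h1 (cv4m.enc h2)) (enc_add (enc_mul h1 (bd4q1.enc h2 h3)) (enc_mul (enc_norm (enc_mul (enc_norm (enc_sub (enc_pnc _ 1) (lm3m.enc h1 h2))) (cv3m.enc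 h2))) (enc_norm (enc_sub (bd3q1.enc h2 h3) (bd4q1.enc h2 h3))))) (enc_case (enc_sub h1 (cv5m.enc h2)) (enc_add (enc_mul h1 (bd5q1.enc h2 h3)) (enc_mul (enc_norm (enc_mul (enc_norm (enc_sub (enc_pnc _ 1) (lm4m.enc h1 h2))) (cv4m.enc h2))) (enc_norm (enc_sub (bd4q1.enc h2 h3) (bd5q1.enc h2 h3))))) (enc_case (enc_sub h1 (cv6m.enc h2)) (enc_add (enc_mul h1 (bd6q1.enc h2 h3)) (enc_mul (enc_norm (enc_mul (enc_norm (enc_sub (enc_pnc _ 1) (lm5m.enc h1 h2))) (cv5m.enc h2))) (enc_norm (enc_sub (bd5q1.enc h2 h3) (bd6q1.enc h2 h3))))) (enc_case (enc_sub h1 (cv7m.enc h2)) (enc_add (enc_mul h1 (bd7q1.enc h2 h3)) (enc_mul (enc_norm (enc_mul (enc_norm (enc_sub (enc_pnc _ 1) (lm6m.enc h1 h2))) (cv6m.enc h2))) (enc_norm (enc_sub (bd6q1.enc h2 h3) (bd7q1.enc h2 h3))))) (enc_add (kc7q1.enc h2 h3) (enc_mul (lm7m.enc h1 h2) (enc_norm (enc_sub (kc8q1.enc h2 h3) (kc7q1.enc h2 h3))))))))))))⟩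
noncomputable def pd1 : Fn3 := ⟨_, _, fun h1 h2 h3 => (enc_case h1 (enc_neg (rcq1.enc (enc_neg h1) h2 h3)) (rcq1.enc h1 h2 h3))⟩
noncomputable def bd4q2_3 : Fn2 := ⟨_, _, fun h1 h2 => (enc_subr 251 400 h2)⟩
noncomputable def bd4q2 : Fn2 := ⟨_, _, fun h1 h2 => (enc_norm (enc_case (enc_sub (enc_pnc _ 1) (enc_scale 3 4 (enc_sq h1))) (enc_add (enc_subr 13776879 1730000 (enc_scale 1109243 173000 h1)) (enc_mul (enc_norm (bd4q2_3.enc h1 h2)) (enc_norm (enc_sub (enc_rat _ 379270919 8650000) (enc_scale 201431 6920 h1))))) (enc_case (enc_subr 1 4 (c1g.enc h1)) (enc_add (enc_subr 27981 50000 (enc_scale 287409 125000 (c1g.enc h1))) (enc_mul (enc_norm (bd4q2_3.enc h1 h2)) (enc_norm (enc_sub (enc_rat _ 511341 50000) (enc_scale 959653 25000 (c1g.enc h1)))))) (enc_add (enc_sub (enc_rat _ 7599 250000) (enc_scale 7599 125000 (c1g.enc h1))) (enc_mul (enc_norm (bd4q2_3.enc h1 h2)) (enc_norm (enc_sub (enc_rat _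 63029 50000) (enc_scale 63029 25000 (c1g.enc h1)))))))))⟩
noncomputable def bd3q2_3 : Fn2 := ⟨_, _, fun h1 h2 => (enc_subr 251 400 h2)⟩
noncomputable def bd3q2 : Fn2 := ⟨_, _, fun h1 h2 => (enc_norm (enc_case (enc_sub (enc_pnc _ 1) (enc_scale 3 4 (enc_sq h1))) (enc_add (enc_subr 2726857173 173000000 (enc_scale 1139619 86500 h1)) (enc_mul (enc_norm (bd3q2_3.enc h1 h2)) (enc_norm (enc_sub (enc_rat _ 786788221 8650000) (enc_scale 2444101 34600 h1))))) (enc_case (enc_subr 1 4 (c1g.enc h1)) (enc_add (enc_subr 34319 62500 (enc_scale 268109 125000 (c1g.enc h1))) (enc_mul (enc_norm (bd3q2_3.enc h1 h2)) (enc_norm (enc_sub (enc_rat _ 187741 20000) (enc_scale 100969 3125 (c1g.enc h1)))))) (enc_add (enc_subr 6443 250000 (enc_scale 6443 125000 (c1g.enc h1))) (enc_mul (enc_norm (bd3q2_3.enc h1 h2)) (enc_norm (enc_sub (enc_rat _ 130953 50000) (enc_scale 130953 25000 (c1g.enc h1)))))))))⟩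
noncomputable def bd2q2_3 : Fn2 := ⟨_, _, fun h1 h2 => (enc_subr 251 400 h2)⟩
noncomputable def bd2q2 : Fn2 := ⟨_, _, fun h1 h2 => (enc_norm (enc_case (enc_sub (enc_pnc _ 1) (enc_scale 3 4 (enc_sq h1))) (enc_add (enc_subr 641426857 43250000 (enc_scale 4330419 346000 h1)) (enc_mul (enc_norm (bd2q2_3.enc h1 h2)) (enc_norm (enc_sub (enc_rat _ 330402101 4325000) (enc_scale 2092229 34600 h1))))) (enc_case (enc_subr 1 4 (c1g.enc h1)) (enc_add (enc_subr 378827 1000000 (enc_scale 42927 31250 (c1g.enc h1))) (enc_mul (enc_norm (bd2q2_3.enc h1 h2)) (enc_norm (enc_sub (enc_rat _ 656927 100000) (enc_scale 480741 25000 (c1g.enc h1)))))) (enc_add (enc_subr 35411 500000 (enc_scale 35411 250000 (c1g.enc h1))) (enc_mul (enc_norm (bd2q2_3.enc h1 h2)) (enc_norm (enc_sub (enc_rat _ 88093 25000) (enc_scale 88093 12500 (c1g.enc h1)))))))))⟩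
noncomputable def bd1q2_3 : Fn2 := ⟨_, _, fun h1 h2 => (enc_subr 251 400 h2)⟩
noncomputable def bd1q2_8 : Fn2 := ⟨_, _, fun h1 h2 => (enc_subr 1733 25000 (enc_scale 30523 10000 (bd1q2_3.enc h1 h2)))⟩
noncomputable def bd1q2 : Fn2 := ⟨_, _, fun h1 h2 => (enc_norm (enc_case (enc_sub (enc_pnc _ 1) (enc_scale 3 4 (enc_sq h1))) (enc_add (bd1q2_8.enc h1 h2) (enc_case (enc_subr 231 200 h1) (enc_pnc _ 0) (enc_add (enc_subr 147687001 11500000 (enc_scale 1918013 172500 h1)) (enc_mul (enc_norm (bd1q2_3.enc h1 h2)) (enc_norm (enc_sub (enc_rat _ 115481443 2300000) (enc_scale 1499759 34500 h1))))))) (enc_add (bd1q2_8.enc h1 h2) (enc_case (enc_subr 1 4 (c1g.enc h1)) (enc_sub (enc_scale 17411 125000 (c1g.enc h1)) (enc_mul (enc_norm (bd1q2_3.enc h1 h2)) (enc_scale 36669 6250 (c1g.enc h1)))) (enc_add (enc_add (enc_scale 17249 125000 (c1g.enc h1)) (enc_rat _ 81 250000)) (enc_mul (enc_norm (bd1q2_3.enc h1 h2))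 (enc_norm (enc_sub (enc_rat _ 5939 50000) (enc_scale 79277 12500 (c1g.enc h1))))))))))⟩
noncomputable def kc0q2_3 : Fn2 := ⟨_, _, fun h1 h2 => (enc_subr 251 400 h2)⟩
noncomputable def kc0q2 : Fn2 := ⟨_, _, fun h1 h2 => (enc_norm (enc_case (enc_subr 1 5 (c1g.enc h1)) (enc_case (enc_subr 1 10 (c1g.enc h1)) (enc_sub (enc_mul (enc_norm (kc0q2_3.enc h1 h2)) (enc_scale 30523 10000 (c1g.enc h1))) (enc_scale 1733 25000 (c1g.enc h1))) (enc_add (enc_subr 777 200000 (enc_neg (enc_scale 3047 100000 (c1g.enc h1)))) (enc_mul (enc_norm (kc0q2_3.enc h1 h2)) (enc_norm (enc_add (enc_scale 13829 10000 (c1g.enc h1)) (enc_rat _ 8347 50000)))))) (enc_case (enc_subr 3 10 (c1g.enc h1)) (enc_add (enc_subr 14379 1000000 (enc_scale 11 500 (c1g.enc h1))) (enc_mul (enc_norm (kc0q2_3.enc h1 h2)) (enc_norm (enc_sub (enc_rat _ 31953 50000) (enc_scale 9777 10000 (c1g.enc h1)))))) (enc_case (enc_subr 2 5 (c1g.enc h1)) (enc_add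 (enc_subr 41397 1000000 (enc_scale 5603 50000 (c1g.enc h1))) (enc_mul (enc_norm (kc0q2_3.enc h1 h2)) (enc_norm (enc_sub (enc_rat _ 97707 100000) (enc_scale 5261 2500 (c1g.enc h1)))))) (enc_add (enc_sub (enc_rat _ 3427 200000) (enc_scale 3427 100000 (c1g.enc h1))) (enc_mul (enc_norm (kc0q2_3.enc h1 h2)) (enc_norm (enc_sub (enc_rat _ 13531 20000) (enc_scale 13531 10000 (c1g.enc h1))))))))))⟩
noncomputable def n0d : Fn2 := ⟨_, _, fun h1 h2 => (enc_norm (enc_subr 1733 25000 (enc_scale 30523 10000 (enc_subr 251 400 h2))))⟩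
noncomputable def rcq2_84 : Fn3 := ⟨_, _, fun h1 h2 h3 => (enc_mul h1 (bd1q2.enc h2 h3))⟩
noncomputable def rcq2_86 : Fn3 := ⟨_, _, fun h1 h2 h3 => (enc_sub (enc_pnc _ 1) (lm0p.enc h1 h2))⟩
noncomputable def rcq2 : Fn3 := ⟨_, _, fun h1 h2 h3 => (enc_case (enc_sub h1 (cv1p.enc h2)) (enc_case (enc_subr 1149 1000 h2) (enc_add (rcq2_84.enc h1 h2 h3) (enc_mul (enc_norm (rcq2_86.enc h1 h2 h3)) (enc_norm (enc_sub (kc0q2.enc h2 h3) (enc_mul (c1g.enc h2) (bd1q2.enc h2 h3)))))) (enc_case (enc_subr 2887 2500 h2) (enc_add (rcq2_84.enc h1 h2 h3) (enc_mul (enc_norm (rcq2_86.enc h1 h2 h3)) (enc_norm (enc_mul (c1g.enc h2) (enc_norm (enc_sub (n0d.enc h2 h3) (bd1q2.enc h2 h3))))))) (rcq2_84.enc h1 h2 h3))) (enc_case (enc_sub h1 (cv2p.enc h2)) (enc_add (enc_mul h1 (bd2q2.enc h2 h3)) (enc_mul (enc_norm (enc_mul (enc_norm (enc_sub (enc_pnc _ 1) (lm1p.enc h1 h2))) (cv1p.enc h2))) (enc_norm (enc_sub (bd1q2.enc h2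 h3) (bd2q2.enc h2 h3))))) (enc_case (enc_sub h1 (cv3p.enc h2)) (enc_add (enc_mul h1 (bd3q2.enc h2 h3)) (enc_mul (enc_norm (enc_mul (enc_norm (enc_sub (enc_pnc _ 1) (lm2p.enc h1 h2))) (cv2p.enc h2))) (enc_norm (enc_sub (bd2q2.enc h2 h3) (bd3q2.enc h2 h3))))) (enc_case (enc_sub h1 (cv4p.enc h2)) (enc_add (enc_mul h1 (bd4q2.enc h2 h3)) (enc_mul (enc_norm (enc_mul (enc_norm (enc_sub (enc_pnc _ 1) (lm3p.enc h1 h2))) (cv3p.enc h2))) (enc_norm (enc_sub (bd3q2.enc h2 h3) (bd4q2.enc h2 h3))))) (enc_case (enc_sub h1 (cv5p.enc h2)) (enc_add (enc_mul h1 (bd5q2.enc h2 h3)) (enc_mul (enc_norm (enc_mul (enc_norm (enc_sub (enc_pnc _ 1) (lm4p.enc h1 h2))) (cv4p.enc h2))) (enc_norm (enc_sub (bd4q2.enc h2 h3) (bd5q2.enc h2 h3))))) (enc_case (enc_sub h1 (cv6p.enc h2)) (enc_add (enc_mul h1 (bd6q2.enc h2 h3)) (enc_mul (enc_norm (enc_mul (enc_norm (enc_sub (enc_pnc _ 1) (lm5p.enc h1 h2))) (cv5p.enc h2))) (enc_norm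 (enc_sub (bd5q2.enc h2 h3) (bd6q2.enc h2 h3))))) (enc_case (enc_sub h1 (cv7p.enc h2)) (enc_add (enc_mul h1 (bd7q2.enc h2 h3)) (enc_mul (enc_norm (enc_mul (enc_norm (enc_sub (enc_pnc _ 1) (lm6p.enc h1 h2))) (cv6p.enc h2))) (enc_norm (enc_sub (bd6q2.enc h2 h3) (bd7q2.enc h2 h3))))) (enc_add (kc7q2.enc h2 h3) (enc_mul (lm7p.enc h1 h2) (enc_norm (enc_sub (kc8q2.enc h2 h3) (kc7q2.enc h2 h3))))))))))))⟩
noncomputable def pd2 : Fn3 := ⟨_, _, fun h1 h2 h3 => (enc_case h1 (enc_neg (rcq2.enc (enc_neg h1) h2 h3)) (rcq2.enc h1 h2 h3))⟩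
noncomputable def kc7q3 : Fn2 := ⟨_, _, fun h1 h2 => (enc_norm (enc_mul (cv7r.enc h1) (enc_norm (enc_add (enc_add (enc_scale 364522750 668292289 (c3g.enc h1)) (enc_rat _ 14963 28000)) (enc_mul (enc_norm (enc_subr 251 400 h2)) (enc_norm (enc_subr 21401 5600 (enc_scale 10267752500 2004876867 (c3g.enc h1)))))))))⟩
noncomputable def kc8q3_3 : Fn2 := ⟨_, _, fun h1 h2 => (enc_subr 251 400 h2)⟩
noncomputable def kc8q3_9 : Fn2 := ⟨_, _, fun h1 h2 => (enc_sub (enc_half (c3g.enc h1)) (enc_scale 1 4 h1))⟩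
noncomputable def kc8q3 : Fn2 := ⟨_, _, fun h1 h2 => (enc_norm (enc_case (enc_add (kc8q3_9.enc h1 h2) (enc_rat _ 7 100)) (enc_case (enc_add (kc8q3_9.enc h1 h2) (enc_rat _ 9 25)) (enc_add (enc_add (enc_scale 14963 14000 (kc8q3_9.enc h1 h2)) (enc_rat _ 14963 28000)) (enc_mul (enc_norm (kc8q3_3.enc h1 h2)) (enc_norm (enc_subr 21401 5600 (enc_neg (enc_scale 21401 2800 (kc8q3_9.enc h1 h2))))))) (enc_case (enc_add (kc8q3_9.enc h1 h2) (enc_rat _ 21 100)) (enc_add (enc_add (enc_scale 148831 150000 (kc8q3_9.enc h1 h2)) (enc_rat _ 1267061 2500000)) (enc_mul (enc_norm (kc8q3_3.enc h1 h2)) (enc_norm (enc_add (enc_scale 13649 3750 (kc8q3_9.enc h1 h2)) (enc_rat _ 120127 500000))))) (enc_add (enc_add (enc_scale 117139 140000 (kc8q3_9.enc h1 h2)) (enc_rat _ 948339 2000000)) (enc_mul (enc_norm (kc8q3_3.enc h1 h2)) (enc_norm (enc_add (enc_scale 69557 14000 (kc8q3_9.enc h1 h2)) (enc_rat _ 103853 200000)))))))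 (enc_case (enc_subr 21 100 (kc8q3_9.enc h1 h2)) (enc_case (enc_subr 7 100 (kc8q3_9.enc h1 h2)) (enc_add (enc_add (enc_scale 22283 28000 (kc8q3_9.enc h1 h2)) (enc_rat _ 188523 400000)) (enc_mul (enc_norm (kc8q3_3.enc h1 h2)) (enc_norm (enc_add (enc_scale 60483 7000 (kc8q3_9.enc h1 h2)) (enc_rat _ 77631 100000))))) (enc_add (enc_sub (enc_rat _ 644459 1000000) (enc_scale 29361 17500 (kc8q3_9.enc h1 h2))) (enc_mul (enc_norm (kc8q3_3.enc h1 h2)) (enc_norm (enc_add (enc_scale 5439 500 (kc8q3_9.enc h1 h2)) (enc_rat _ 3873 6250)))))) (enc_case (enc_subr 9 25 (kc8q3_9.enc h1 h2)) (enc_add (enc_sub (enc_rat _ 1610137 2500000) (enc_scale 251377 150000 (kc8q3_9.enc h1 h2))) (enc_mul (enc_norm (kc8q3_3.enc h1 h2)) (enc_norm (enc_sub (enc_rat _ 542099 125000) (enc_scale 51169 7500 (kc8q3_9.enc h1 h2)))))) (enc_add (enc_sub (enc_rat _ 163 1120) (enc_scale 163 560 (kc8q3_9.enc h1 h2))) (enc_mul (enc_norm (kc8q3_3.enc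 h1 h2)) (enc_norm (enc_sub (enc_rat _ 47017 7000) (enc_scale 47017 3500 (kc8q3_9.enc h1 h2))))))))))⟩
noncomputable def bd7q3 : Fn2 := ⟨_, _, fun h1 h2 => (enc_norm (enc_add (enc_add (enc_scale 364522750 668292289 (c3g.enc h1)) (enc_rat _ 14963 28000)) (enc_mul (enc_norm (enc_subr 251 400 h2)) (enc_norm (enc_subr 21401 5600 (enc_scale 10267752500 2004876867 (c3g.enc h1)))))))⟩
noncomputable def bd6q3 : Fn2 := ⟨_, _, fun h1 h2 => (enc_norm (enc_add (enc_add (enc_scale 2731230500 2004876867 (c3g.enc h1)) (enc_rat _ 14963 28000)) (enc_mul (enc_norm (enc_subr 251 400 h2)) (enc_norm (enc_subr 21401 5600 (enc_scale 9416727500 2004876867 (c3g.enc h1)))))))⟩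
noncomputable def kc5q3_4 : Fn2 := ⟨_, _, fun h1 h2 => (enc_subr 251 400 h2)⟩
noncomputable def kc5q3_28 : Fn2 := ⟨_, _, fun h1 h2 => (enc_subn 1 h1)⟩
noncomputable def kc5q3_29 : Fn2 := ⟨_, _, fun h1 h2 => (gsg.enc (enc_norm (kc5q3_28.enc h1 h2)))⟩
noncomputable def kc5q3_33 : Fn2 := ⟨_, _, fun h1 h2 => (esg.enc (enc_norm (kc5q3_28.enc h1 h2)))⟩
noncomputable def kc5q3_38 : Fn2 := ⟨_, _, fun h1 h2 => (gug.enc (enc_norm (kc5q3_28.enc h1 h2)))⟩
noncomputable def kc5q3_40 : Fn2 := ⟨_, _, fun h1 h2 => (enc_mul (enc_norm (kc5q3_28.enc h1 h2)) (enc_inv (kc5q3_29.enc h1 h2)))⟩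
noncomputable def kc5q3_41 : Fn2 := ⟨_, _, fun h1 h2 => (enc_scale 3 4 (kc5q3_40.enc h1 h2))⟩
noncomputable def kc5q3_69 : Fn2 := ⟨_, _, fun h1 h2 => (enc_mul (cv4r.enc h1) (bd4q3.enc h1 h2))⟩
noncomputable def kc5q3 : Fn2 := ⟨_, _, fun h1 h2 => (enc_norm (enc_case (enc_subr 317 200 h1) (enc_mul (cv5r.enc h1) (enc_norm (enc_add (enc_sub (enc_rat _ 272801579812074581 74428987500000000) (enc_scale 965226803 893147850 (c3g.enc h1))) (enc_mul (enc_norm (kc5q3_4.enc h1 h2)) (enc_norm (enc_subr 111315098249071603 1860724687500000 (enc_scale 4960287856 89314785 (c3g.enc h1)))))))) (enc_case (enc_subr 167 100 h1) (enc_add (kc5q3_69.enc h1 h2) (enc_mul (enc_norm (enc_mul (enc_norm (enc_sub (enc_add (enc_sub (enc_add (enc_add (enc_rat _ 3 4) (enc_scale 3 2 (kc5q3_28.enc h1 h2))) (enc_scale 3 4 (enc_mul (enc_norm (kc5q3_40.enc h1 h2)) (kc5q3_38.enc h1 h2)))) (enc_mul (enc_norm (enc_sub (enc_mul (enc_norm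 (enc_mul (enc_norm (kc5q3_41.enc h1 h2)) (enc_norm (enc_subn 3 (enc_nat 4 (kc5q3_29.enc h1 h2)))))) (kc5q3_33.enc h1 h2)) (enc_mul (qsg.enc (enc_norm (kc5q3_28.enc h1 h2))) (enc_norm (enc_sub (enc_rat _ 1 2) (kc5q3_41.enc h1 h2)))))) (enc_inv (enc_mul (enc_nat 2 (kc5q3_33.enc h1 h2)) (kc5q3_33.enc h1 h2))))) (enc_mul (kcg.enc (enc_norm (enc_sub (enc_scale 3 4 (kc5q3_28.enc h1 h2)) (enc_half (kc5q3_29.enc h1 h2)))) h2) (enc_norm (enc_sub (enc_pnc _ 1) (enc_add (kc5q3_38.enc h1 h2) (enc_nat 2 (kc5q3_29.enc h1 h2))))))) (kc5q3_69.enc h1 h2))) (enc_norm (enc_sub (cv5r.enc h1) (cv4r.enc h1))))) (enc_inv (enc_sub (enc_subr 1 2 (swg.enc h1)) (cv4r.enc h1))))) (enc_mul (cv5r.enc h1) (enc_norm (enc_add (enc_add (enc_scale 185531509573 66714260060 (c3g.enc h1)) (enc_rat _ 14963 28000)) (enc_mul (enc_norm (kc5q3_4.enc h1 h2)) (enc_norm (enc_subr 21401 5600 (enc_scale 14392605601 3335713003 (c3g.enc h1)))))))))))⟩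
noncomputable def bd5q3_3 : Fn2 := ⟨_, _, fun h1 h2 => (enc_subr 251 400 h2)⟩
noncomputable def bd5q3 : Fn2 := ⟨_, _, fun h1 h2 => (enc_norm (enc_case (enc_subr 651 400 h1) (enc_add (enc_sub (enc_rat _ 272801579812074581 74428987500000000) (enc_scale 965226803 893147850 (c3g.enc h1))) (enc_mul (enc_norm (bd5q3_3.enc h1 h2)) (enc_norm (enc_subr 111315098249071603 1860724687500000 (enc_scale 4960287856 89314785 (c3g.enc h1)))))) (enc_add (enc_add (enc_scale 185531509573 66714260060 (c3g.enc h1)) (enc_rat _ 14963 28000)) (enc_mul (enc_norm (bd5q3_3.enc h1 h2)) (enc_norm (enc_subr 21401 5600 (enc_scale 14392605601 3335713003 (c3g.enc h1))))))))⟩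
noncomputable def rcq3_49 : Fn3 := ⟨_, _, fun h1 h2 h3 => (enc_add (enc_mul h1 (bd5q3.enc h2 h3)) (enc_mul (enc_norm (enc_mul (enc_norm (enc_sub (enc_pnc _ 1) (lm4r.enc h1 h2))) (cv4r.enc h2))) (enc_norm (enc_sub (bd4q3.enc h2 h3) (bd5q3.enc h2 h3)))))⟩
noncomputable def rcq3_50 : Fn3 := ⟨_, _, fun h1 h2 h3 => (enc_subn 1 h2)⟩
noncomputable def rcq3_51 : Fn3 := ⟨_, _, fun h1 h2 h3 => (gsg.enc (enc_norm (rcq3_50.enc h1 h2 h3)))⟩
noncomputable def rcq3_55 : Fn3 := ⟨_, _, fun h1 h2 h3 => (esg.enc (enc_norm (rcq3_50.enc h1 h2 h3)))⟩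
noncomputable def rcq3_60 : Fn3 := ⟨_, _, fun h1 h2 h3 => (gug.enc (enc_norm (rcq3_50.enc h1 h2 h3)))⟩
noncomputable def rcq3_62 : Fn3 := ⟨_, _, fun h1 h2 h3 => (enc_mul (enc_norm (rcq3_50.enc h1 h2 h3)) (enc_inv (rcq3_51.enc h1 h2 h3)))⟩
noncomputable def rcq3_63 : Fn3 := ⟨_, _, fun h1 h2 h3 => (enc_scale 3 4 (rcq3_62.enc h1 h2 h3))⟩
noncomputable def rcq3_93 : Fn3 := ⟨_, _, fun h1 h2 h3 => (enc_sub h1 (cv4r.enc h2))⟩
noncomputable def rcq3 : Fn3 := ⟨_, _, fun h1 h2 h3 => (enc_case (enc_sub h1 (cv1r.enc h2)) (enc_mul h1 (bd1q3.enc h2 h3)) (enc_case (enc_sub h1 (cv2r.enc h2)) (enc_add (enc_mul h1 (bd2q3.enc h2 h3)) (enc_mul (enc_norm (enc_mul (enc_norm (enc_sub (enc_pnc _ 1) (lm1r.enc h1 h2))) (cv1r.enc h2))) (enc_norm (enc_sub (bd1q3.enc h2 h3) (bd2q3.enc h2 h3))))) (enc_case (enc_sub h1 (cv3r.enc h2)) (enc_add (enc_mul h1 (bd3q3.enc h2 h3)) (enc_mul (enc_norm (enc_mul (enc_norm (enc_sub (enc_pnc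 _ 1) (lm2r.enc h1 h2))) (cv2r.enc h2))) (enc_norm (enc_sub (bd2q3.enc h2 h3) (bd3q3.enc h2 h3))))) (enc_case (rcq3_93.enc h1 h2 h3) (enc_add (enc_mul h1 (bd4q3.enc h2 h3)) (enc_mul (enc_norm (enc_mul (enc_norm (enc_sub (enc_pnc _ 1) (lm3r.enc h1 h2))) (cv3r.enc h2))) (enc_norm (enc_sub (bd3q3.enc h2 h3) (bd4q3.enc h2 h3))))) (enc_case (enc_sub h1 (cv5r.enc h2)) (enc_case (enc_subr 317 200 h2) (rcq3_49.enc h1 h2 h3) (enc_case (enc_subr 167 100 h2) (enc_add (kc4q3.enc h2 h3) (enc_mul (enc_norm (enc_mul (enc_norm (rcq3_93.enc h1 h2 h3)) (enc_inv (enc_sub (enc_subr 1 2 (swg.enc h2)) (cv4r.enc h2))))) (enc_norm (enc_sub (enc_add (enc_sub (enc_add (enc_add (enc_rat _ 3 4) (enc_scale 3 2 (rcq3_50.enc h1 h2 h3))) (enc_scale 3 4 (enc_mul (enc_norm (rcq3_62.enc h1 h2 h3)) (rcq3_60.enc h1 h2 h3)))) (enc_mul (enc_norm (enc_sub (enc_mul (enc_norm (enc_mul (enc_norm (rcq3_63.enc h1 h2 h3)) (enc_norm (enc_subn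 3 (enc_nat 4 (rcq3_51.enc h1 h2 h3)))))) (rcq3_55.enc h1 h2 h3)) (enc_mul (qsg.enc (enc_norm (rcq3_50.enc h1 h2 h3))) (enc_norm (enc_sub (enc_rat _ 1 2) (rcq3_63.enc h1 h2 h3)))))) (enc_inv (enc_mul (enc_nat 2 (rcq3_55.enc h1 h2 h3)) (rcq3_55.enc h1 h2 h3))))) (enc_mul (kcg.enc (enc_norm (enc_sub (enc_scale 3 4 (rcq3_50.enc h1 h2 h3)) (enc_half (rcq3_51.enc h1 h2 h3)))) h3) (enc_norm (enc_sub (enc_pnc _ 1) (enc_add (rcq3_60.enc h1 h2 h3) (enc_nat 2 (rcq3_51.enc h1 h2 h3))))))) (kc4q3.enc h2 h3))))) (rcq3_49.enc h1 h2 h3))) (enc_case (enc_sub h1 (cv6r.enc h2)) (enc_add (enc_mul h1 (bd6q3.enc h2 h3)) (enc_mul (enc_norm (enc_sub (enc_pnc _ 1) (lm5r.enc h1 h2))) (enc_norm (enc_sub (kc5q3.enc h2 h3) (enc_mul (cv5r.enc h2) (bd6q3.enc h2 h3)))))) (enc_case (enc_sub h1 (cv7r.enc h2)) (enc_add (enc_mul h1 (bd7q3.enc h2 h3)) (enc_mul (enc_norm (enc_mul (enc_norm (enc_sub (enc_pnc _ 1) (lm6r.enc h1 h2)))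 (cv6r.enc h2))) (enc_norm (enc_sub (bd6q3.enc h2 h3) (bd7q3.enc h2 h3))))) (enc_add (kc7q3.enc h2 h3) (enc_mul (lm7r.enc h1 h2) (enc_norm (enc_sub (kc8q3.enc h2 h3) (kc7q3.enc h2 h3))))))))))))⟩
noncomputable def pd3 : Fn3 := ⟨_, _, fun h1 h2 h3 => (enc_case h1 (enc_neg (rcq3.enc (enc_neg h1) h2 h3)) (rcq3.enc h1 h2 h3))⟩
noncomputable def mug3 : Fn1 := ⟨_, _, fun h1 => (enc_inv (enc_add (enc_nat 2 (gsg.enc h1)) (enc_pnc _ 3)))⟩
noncomputable def eng : Fn1 := ⟨_, _, fun h1 => (enc_norm (enc_add (enc_pnc _ 1) (enc_mul (mug3.enc h1) (gug.enc h1))))⟩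
noncomputable def mog : Fn1 := ⟨_, _, fun h1 => (enc_norm (enc_scale 3 40 (enc_mul (mug3.enc h1) (esg.enc h1))))⟩
noncomputable def kf1q2_4 : Fn2 := ⟨_, _, fun h1 h2 => (enc_subr 251 400 h2)⟩
noncomputable def kf1q2_9 : Fn2 := ⟨_, _, fun h1 h2 => (enc_sub (enc_pnc _ 1) (enc_scale 4994127 2500000 (enc_subn 1 h1)))⟩
noncomputable def kf1q2 : Fn2 := ⟨_, _, fun h1 h2 => (enc_norm (enc_mul (cv1p.enc h1) (enc_norm (enc_case (enc_sub (enc_pnc _ 1) (enc_scale 3 4 (enc_sq h1))) (enc_add (kf1q2_9.enc h1 h2) (enc_case (enc_subr 127 100 h1) (enc_case (enc_subr 231 200 h1) (enc_pnc _ 0) (enc_add (enc_sub (enc_rat _ 21475839 5750000) (enc_scale 92969 28750 h1)) (enc_mul (enc_norm (kf1q2_4.enc h1 h2)) (enc_norm (enc_subr 14776377 1150000 (enc_scale 63967 5750 h1)))))) (enc_case (enc_subr 139 100 h1) (enc_add (enc_sub (enc_rat _ 5595209 1500000) (enc_scale 48449 15000 h1)) (enc_mul (enc_norm (kf1q2_4.enc h1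 h2)) (enc_norm (enc_subr 968627 75000 (enc_scale 3353 300 h1))))) (enc_add (enc_sub (enc_rat _ 20466653 5500000) (enc_scale 177293 55000 h1)) (enc_mul (enc_norm (kf1q2_4.enc h1 h2)) (enc_norm (enc_subr 1756611 137500 (enc_scale 60919 5500 h1)))))))) (enc_add (kf1q2_9.enc h1 h2) (enc_case (enc_subr 1 4 (c1g.enc h1)) (enc_case (enc_subr 1 10 (c1g.enc h1)) (enc_case (enc_subr 1 20 (c1g.enc h1)) (enc_sub (enc_neg (enc_scale 3563 12500 (c1g.enc h1))) (enc_mul (enc_norm (kf1q2_4.enc h1 h2)) (enc_scale 47 200 (c1g.enc h1)))) (enc_add (enc_sub (enc_rat _ 20797 1000000) (enc_scale 35049 50000 (c1g.enc h1))) (enc_mul (enc_norm (kf1q2_4.enc h1 h2)) (enc_norm (enc_sub (enc_rat _ 5187 100000) (enc_scale 3181 2500 (c1g.enc h1))))))) (enc_case (enc_subr 3 20 (c1g.enc h1)) (enc_add (enc_sub (enc_rat _ 42549 1000000) (enc_scale 1837 2000 (c1g.enc h1))) (enc_mul (enc_norm (kf1q2_4.enc h1 h2)) (enc_norm (enc_sub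 (enc_rat _ 108207 100000) (enc_scale 7234 625 (c1g.enc h1)))))) (enc_case (enc_subr 1 5 (c1g.enc h1)) (enc_add (enc_subr 69747 500000 (enc_scale 3689 12500 (c1g.enc h1))) (enc_mul (enc_norm (kf1q2_4.enc h1 h2)) (enc_norm (enc_subr 33327 20000 (enc_scale 16871 2500 (c1g.enc h1)))))) (enc_add (enc_subr 166831 500000 (enc_scale 31649 25000 (c1g.enc h1))) (enc_mul (enc_norm (kf1q2_4.enc h1 h2)) (enc_norm (enc_subr 73663 100000 (enc_scale 10499 5000 (c1g.enc h1))))))))) (enc_case (enc_subr 7 20 (c1g.enc h1)) (enc_case (enc_subr 3 10 (c1g.enc h1)) (enc_add (enc_subr 367857 1000000 (enc_scale 70137 50000 (c1g.enc h1))) (enc_mul (enc_norm (kf1q2_4.enc h1 h2)) (enc_norm (enc_subr 25643 100000 (enc_scale 179 1000 (c1g.enc h1)))))) (enc_add (enc_subr 201309 1000000 (enc_scale 42379 50000 (c1g.enc h1))) (enc_mul (enc_norm (kf1q2_4.enc h1 h2)) (enc_norm (enc_subr 8593 20000 (enc_scale 1891 2500 (c1g.enc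 h1))))))) (enc_case (enc_subr 2 5 (c1g.enc h1)) (enc_add (enc_sub (enc_rat _ 29433 200000) (enc_scale 7403 50000 (c1g.enc h1))) (enc_mul (enc_norm (kf1q2_4.enc h1 h2)) (enc_norm (enc_subr 30159 50000 (enc_scale 6261 5000 (c1g.enc h1)))))) (enc_case (enc_subr 9 20 (c1g.enc h1)) (enc_add (enc_sub (enc_rat _ 361429 1000000) (enc_scale 17093 25000 (c1g.enc h1))) (enc_mul (enc_norm (kf1q2_4.enc h1 h2)) (enc_norm (enc_subr 33399 50000 (enc_scale 7071 5000 (c1g.enc h1)))))) (enc_add (enc_sub (enc_rat _ 10751 20000) (enc_scale 10751 10000 (c1g.enc h1))) (enc_mul (enc_norm (kf1q2_4.enc h1 h2)) (enc_norm (enc_subr 3159 10000 (enc_scale 3159 5000 (c1g.enc h1)))))))))))))))⟩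
noncomputable def l1q2_4 : Fn2 := ⟨_, _, fun h1 h2 => (enc_subr 251 400 h2)⟩
noncomputable def l1q2_11 : Fn2 := ⟨_, _, fun h1 h2 => (enc_subr 122234428036571617 232320522350000000 (enc_neg (enc_scale 627558740527 528481625000 (l1q2_4.enc h1 h2))))⟩
noncomputable def l1q2 : Fn2 := ⟨_, _, fun h1 h2 => (enc_norm (enc_mul (cv1p.enc h1) (enc_norm (enc_case (enc_sub (enc_pnc _ 1) (enc_scale 3 4 (enc_sq h1))) (enc_add (l1q2_11.enc h1 h2) (enc_case (enc_subr 127 100 h1) (enc_case (enc_subr 231 200 h1) (enc_pnc _ 0) (enc_add (enc_subr 3117807 1000000 (enc_scale 13497 5000 h1)) (enc_mul (enc_norm (l1q2_4.enc h1 h2)) (enc_norm (enc_sub (enc_rat _ 16023777 1150000) (enc_scale 69367 5750 h1)))))) (enc_case (enc_subr 139 100 h1) (enc_add (enc_subr 6243361 2000000 (enc_scale 54049 20000 h1)) (enc_mul (enc_norm (l1q2_4.enc h1 h2)) (enc_norm (enc_sub (enc_rat _ 103279 7500) (enc_scale 17903 1500 h1))))) (enc_add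 (enc_subr 17183247 5500000 (enc_scale 297471 110000 h1)) (enc_mul (enc_norm (l1q2_4.enc h1 h2)) (enc_norm (enc_sub (enc_rat _ 15111493 1100000) (enc_scale 131029 11000 h1)))))))) (enc_add (l1q2_11.enc h1 h2) (enc_case (enc_subr 1 4 (c1g.enc h1)) (enc_case (enc_subr 1 10 (c1g.enc h1)) (enc_case (enc_subr 1 20 (c1g.enc h1)) (enc_add (enc_scale 8023 50000 (c1g.enc h1)) (enc_mul (enc_norm (l1q2_4.enc h1 h2)) (enc_scale 9243 2500 (c1g.enc h1)))) (enc_add (enc_subr 4213 200000 (enc_scale 1818 3125 (c1g.enc h1))) (enc_mul (enc_norm (l1q2_4.enc h1 h2)) (enc_norm (enc_add (enc_scale 2877 1250 (c1g.enc h1)) (enc_rat _ 3489 50000)))))) (enc_case (enc_subr 3 20 (c1g.enc h1)) (enc_add (enc_subr 74813 1000000 (enc_scale 27981 25000 (c1g.enc h1))) (enc_mul (enc_norm (l1q2_4.enc h1 h2)) (enc_norm (enc_subr 1823 50000 (enc_scale 841 250 (c1g.enc h1)))))) (enc_case (enc_subr 1 5 (c1g.enc h1)) (enc_add (enc_subr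 27283 200000 (enc_scale 4781 3125 (c1g.enc h1))) (enc_mul (enc_norm (l1q2_4.enc h1 h2)) (enc_norm (enc_subr 23017 100000 (enc_scale 23277 5000 (c1g.enc h1)))))) (enc_add (enc_subr 183371 1000000 (enc_scale 17647 10000 (c1g.enc h1))) (enc_mul (enc_norm (l1q2_4.enc h1 h2)) (enc_norm (enc_subr 15969 100000 (enc_scale 4303 1000 (c1g.enc h1))))))))) (enc_case (enc_subr 7 20 (c1g.enc h1)) (enc_case (enc_subr 3 10 (c1g.enc h1)) (enc_add (enc_subr 117243 500000 (enc_scale 49229 25000 (c1g.enc h1))) (enc_mul (enc_norm (l1q2_4.enc h1 h2)) (enc_norm (enc_sub (enc_rat _ 146883 50000) (enc_scale 5054 625 (c1g.enc h1)))))) (enc_add (enc_subr 5067 50000 (enc_scale 76267 50000 (c1g.enc h1))) (enc_mul (enc_norm (l1q2_4.enc h1 h2)) (enc_norm (enc_subr 1959 10000 (enc_scale 5897 2500 (c1g.enc h1))))))) (enc_case (enc_subr 2 5 (c1g.enc h1)) (enc_add (enc_add (enc_scale 11983 12500 (c1g.enc h1)) (enc_rat _ 19401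 200000)) (enc_mul (enc_norm (l1q2_4.enc h1 h2)) (enc_norm (enc_subr 13179 20000 (enc_scale 18409 5000 (c1g.enc h1)))))) (enc_case (enc_subr 9 20 (c1g.enc h1)) (enc_add (enc_add (enc_scale 14831 25000 (c1g.enc h1)) (enc_rat _ 48633 200000)) (enc_mul (enc_norm (l1q2_4.enc h1 h2)) (enc_norm (enc_subr 64087 100000 (enc_scale 18183 5000 (c1g.enc h1)))))) (enc_add (enc_add (enc_scale 3722386213822567 11616026117500000 (c1g.enc h1)) (enc_rat _ 85010565898345947 232320522350000000)) (enc_mul (enc_norm (l1q2_4.enc h1 h2)) (enc_norm (enc_subr 386465606243 528481625000 (enc_scale 101402434677 26424081250 (c1g.enc h1)))))))))))))))⟩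
noncomputable def kc1q2_4 : Fn2 := ⟨_, _, fun h1 h2 => (enc_subr 251 400 h2)⟩
noncomputable def kc1q2_9 : Fn2 := ⟨_, _, fun h1 h2 => (enc_subr 1733 25000 (enc_scale 30523 10000 (kc1q2_4.enc h1 h2)))⟩
noncomputable def kc1q2 : Fn2 := ⟨_, _, fun h1 h2 => (enc_norm (enc_mul (cv1p.enc h1) (enc_norm (enc_case (enc_sub (enc_pnc _ 1) (enc_scale 3 4 (enc_sq h1))) (enc_add (kc1q2_9.enc h1 h2) (enc_case (enc_subr 231 200 h1) (enc_pnc _ 0) (enc_add (enc_subr 147687001 11500000 (enc_scale 1918013 172500 h1)) (enc_mul (enc_norm (kc1q2_4.enc h1 h2)) (enc_norm (enc_sub (enc_rat _ 115481443 2300000) (enc_scale 1499759 34500 h1))))))) (enc_add (kc1q2_9.enc h1 h2) (enc_case (enc_subr 1 4 (c1g.enc h1)) (enc_sub (enc_scale 17411 125000 (c1g.enc h1)) (enc_mul (enc_norm (kc1q2_4.enc h1 h2)) (enc_scale 36669 6250 (c1g.enc h1)))) (enc_add (enc_add (enc_scale 17249 125000 (c1g.enc h1)) (enc_rat _ 81 250000)) (enc_mul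 (enc_norm (kc1q2_4.enc h1 h2)) (enc_norm (enc_sub (enc_rat _ 5939 50000) (enc_scale 79277 12500 (c1g.enc h1))))))))))))⟩
noncomputable def kf2q2_4 : Fn2 := ⟨_, _, fun h1 h2 => (enc_subr 251 400 h2)⟩
noncomputable def kf2q2 : Fn2 := ⟨_, _, fun h1 h2 => (enc_norm (enc_mul (cv2p.enc h1) (enc_norm (enc_case (enc_sub (enc_pnc _ 1) (enc_scale 3 4 (enc_sq h1))) (enc_case (enc_subr 127 100 h1) (enc_add (enc_sub (enc_rat _ 403757369 58000000) (enc_scale 634521 116000 h1)) (enc_mul (enc_norm (kf2q2_4.enc h1 h2)) (enc_norm (enc_subr 18197483 725000 (enc_scale 61269 2900 h1))))) (enc_case (enc_subr 69 50 h1) (enc_add (enc_sub (enc_rat _ 32738837 5500000) (enc_scale 514323 110000 h1)) (enc_mul (enc_norm (kf2q2_4.enc h1 h2)) (enc_norm (enc_subr 311703 22000 (enc_scale 34429 2750 h1))))) (enc_add (enc_sub (enc_rat _ 11788591 2000000) (enc_scale 185339 40000 h1)) (enc_mul (enc_norm (kf2q2_4.enc h1 h2)) (enc_norm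 (enc_subr 545049 50000 (enc_scale 1269 125 h1))))))) (enc_case (enc_subr 1 4 (c1g.enc h1)) (enc_case (enc_subr 1 10 (c1g.enc h1)) (enc_case (enc_subr 1 20 (c1g.enc h1)) (enc_add (enc_sub (enc_rat _ 644267 1000000) (enc_scale 3021 25000 (c1g.enc h1))) (enc_mul (enc_norm (kf2q2_4.enc h1 h2)) (enc_norm (enc_subr 35099 50000 (enc_scale 9213 1250 (c1g.enc h1)))))) (enc_add (enc_sub (enc_rat _ 20083 31250) (enc_scale 4431 50000 (c1g.enc h1))) (enc_mul (enc_norm (kf2q2_4.enc h1 h2)) (enc_norm (enc_subr 33631 50000 (enc_scale 8479 1250 (c1g.enc h1))))))) (enc_case (enc_subr 3 20 (c1g.enc h1)) (enc_add (enc_add (enc_scale 3963 50000 (c1g.enc h1)) (enc_rat _ 156467 250000)) (enc_mul (enc_norm (kf2q2_4.enc h1 h2)) (enc_norm (enc_subr 6017 12500 (enc_scale 24353 5000 (c1g.enc h1)))))) (enc_case (enc_subr 1 5 (c1g.enc h1)) (enc_add (enc_add (enc_scale 55053 50000 (c1g.enc h1)) (enc_rat _ 236299 500000))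 (enc_mul (enc_norm (kf2q2_4.enc h1 h2)) (enc_norm (enc_add (enc_scale 1653 5000 (c1g.enc h1)) (enc_rat _ 4991 25000))))) (enc_add (enc_add (enc_scale 65341 50000 (c1g.enc h1)) (enc_rat _ 215723 500000)) (enc_mul (enc_norm (kf2q2_4.enc h1 h2)) (enc_norm (enc_sub (enc_rat _ 15611 25000) (enc_scale 8967 5000 (c1g.enc h1))))))))) (enc_case (enc_subr 7 20 (c1g.enc h1)) (enc_case (enc_subr 3 10 (c1g.enc h1)) (enc_add (enc_add (enc_scale 33827 25000 (c1g.enc h1)) (enc_rat _ 419881 1000000)) (enc_mul (enc_norm (kf2q2_4.enc h1 h2)) (enc_norm (enc_sub (enc_rat _ 40207 50000) (enc_scale 12561 5000 (c1g.enc h1)))))) (enc_add (enc_add (enc_scale 67339 50000 (c1g.enc h1)) (enc_rat _ 421771 1000000)) (enc_mul (enc_norm (kf2q2_4.enc h1 h2)) (enc_norm (enc_sub (enc_rat _ 17417 25000) (enc_scale 1077 500 (c1g.enc h1))))))) (enc_case (enc_subr 2 5 (c1g.enc h1)) (enc_add (enc_add (enc_scale 29999 25000 (c1g.enc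 h1)) (enc_rat _ 236579 500000)) (enc_mul (enc_norm (kf2q2_4.enc h1 h2)) (enc_norm (enc_sub (enc_rat _ 7233 50000) (enc_scale 721 1250 (c1g.enc h1)))))) (enc_case (enc_subr 9 20 (c1g.enc h1)) (enc_add (enc_add (enc_scale 13347 25000 (c1g.enc h1)) (enc_rat _ 73959 100000)) (enc_mul (enc_norm (kf2q2_4.enc h1 h2)) (enc_norm (enc_subr 17271 50000 (enc_scale 1621 2500 (c1g.enc h1)))))) (enc_add (enc_add (enc_scale 5041 12500 (c1g.enc h1)) (enc_rat _ 19959 25000)) (enc_mul (enc_norm (kf2q2_4.enc h1 h2)) (enc_norm (enc_subr 1341 2500 (enc_scale 1341 1250 (c1g.enc h1))))))))))))))⟩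
noncomputable def l2q2_4 : Fn2 := ⟨_, _, fun h1 h2 => (enc_subr 251 400 h2)⟩
noncomputable def l2q2 : Fn2 := ⟨_, _, fun h1 h2 => (enc_norm (enc_mul (cv2p.enc h1) (enc_norm (enc_case (enc_sub (enc_pnc _ 1) (enc_scale 3 4 (enc_sq h1))) (enc_case (enc_subr 127 100 h1) (enc_add (enc_subr 793863 232000 (enc_scale 146979 58000 h1)) (enc_mul (enc_norm (l2q2_4.enc h1 h2)) (enc_norm (enc_sub (enc_rat _ 1006033 200000) (enc_scale 2073 400 h1))))) (enc_case (enc_subr 69 50 h1) (enc_add (enc_subr 37439361 11000000 (enc_scale 277173 110000 h1)) (enc_mul (enc_norm (l2q2_4.enc h1 h2)) (enc_norm (enc_sub (enc_rat _ 6808579 1100000) (enc_scale 1341 220 h1))))) (enc_add (enc_subr 1699417 500000 (enc_scale 150979 60000 h1)) (enc_mul (enc_norm (l2q2_4.enc h1 h2)) (enc_norm (enc_sub (enc_rat _ 274373 40000) (enc_scale 26323 4000 h1))))))) (enc_case (enc_subr 1 4 (c1g.enc h1)) (enc_case (enc_subr 1 10 (c1g.enc h1))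 (enc_case (enc_subr 1 20 (c1g.enc h1)) (enc_add (enc_subr 495693 1000000 (enc_scale 9717 10000 (c1g.enc h1))) (enc_mul (enc_norm (l2q2_4.enc h1 h2)) (enc_norm (enc_subr 95383 100000 (enc_scale 4729 1250 (c1g.enc h1)))))) (enc_add (enc_subr 102169 200000 (enc_scale 63737 50000 (c1g.enc h1))) (enc_mul (enc_norm (l2q2_4.enc h1 h2)) (enc_norm (enc_subr 2447 2500 (enc_scale 21413 5000 (c1g.enc h1))))))) (enc_case (enc_subr 3 20 (c1g.enc h1)) (enc_add (enc_subr 509647 1000000 (enc_scale 31569 25000 (c1g.enc h1))) (enc_mul (enc_norm (l2q2_4.enc h1 h2)) (enc_norm (enc_subr 6309 6250 (enc_scale 4589 1000 (c1g.enc h1)))))) (enc_case (enc_subr 1 5 (c1g.enc h1)) (enc_add (enc_subr 514579 1000000 (enc_scale 32391 25000 (c1g.enc h1))) (enc_mul (enc_norm (l2q2_4.enc h1 h2)) (enc_norm (enc_subr 411 800 (enc_scale 3211 2500 (c1g.enc h1)))))) (enc_add (enc_subr 550263 1000000 (enc_scale 73703 50000 (c1g.enc h1)))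 (enc_mul (enc_norm (l2q2_4.enc h1 h2)) (enc_norm (enc_sub (enc_rat _ 35917 100000) (enc_scale 15401 5000 (c1g.enc h1))))))))) (enc_case (enc_subr 7 20 (c1g.enc h1)) (enc_case (enc_subr 3 10 (c1g.enc h1)) (enc_add (enc_subr 274729 500000 (enc_scale 36771 25000 (c1g.enc h1))) (enc_mul (enc_norm (l2q2_4.enc h1 h2)) (enc_norm (enc_sub (enc_rat _ 4873 25000) (enc_scale 3029 1250 (c1g.enc h1)))))) (enc_add (enc_subr 48427 125000 (enc_scale 9307 10000 (c1g.enc h1))) (enc_mul (enc_norm (l2q2_4.enc h1 h2)) (enc_norm (enc_subr 26327 25000 (enc_scale 2171 1250 (c1g.enc h1))))))) (enc_case (enc_subr 2 5 (c1g.enc h1)) (enc_add (enc_subr 261381 1000000 (enc_scale 2853 5000 (c1g.enc h1))) (enc_mul (enc_norm (l2q2_4.enc h1 h2)) (enc_norm (enc_subr 29617 20000 (enc_scale 2959 1000 (c1g.enc h1)))))) (enc_case (enc_subr 9 20 (c1g.enc h1)) (enc_add (enc_subr 190197 1000000 (enc_scale 1227 3125 (c1g.enc h1))) (enc_mul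 (enc_norm (l2q2_4.enc h1 h2)) (enc_norm (enc_subr 148629 100000 (enc_scale 14863 5000 (c1g.enc h1)))))) (enc_add (enc_subr 13509 100000 (enc_scale 13509 50000 (c1g.enc h1))) (enc_mul (enc_norm (l2q2_4.enc h1 h2)) (enc_norm (enc_subr 7431 5000 (enc_scale 7431 2500 (c1g.enc h1))))))))))))))⟩
noncomputable def kc2q2_4 : Fn2 := ⟨_, _, fun h1 h2 => (enc_subr 251 400 h2)⟩
noncomputable def kc2q2 : Fn2 := ⟨_, _, fun h1 h2 => (enc_norm (enc_mul (cv2p.enc h1) (enc_norm (enc_case (enc_sub (enc_pnc _ 1) (enc_scale 3 4 (enc_sq h1))) (enc_add (enc_subr 641426857 43250000 (enc_scale 4330419 346000 h1)) (enc_mul (enc_norm (kc2q2_4.enc h1 h2)) (enc_norm (enc_sub (enc_rat _ 330402101 4325000) (enc_scale 2092229 34600 h1))))) (enc_case (enc_subr 1 4 (c1g.enc h1)) (enc_add (enc_subr 378827 1000000 (enc_scale 42927 31250 (c1g.enc h1))) (enc_mul (enc_norm (kc2q2_4.enc h1 h2)) (enc_norm (enc_sub (enc_rat _ 656927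 100000) (enc_scale 480741 25000 (c1g.enc h1)))))) (enc_add (enc_subr 35411 500000 (enc_scale 35411 250000 (c1g.enc h1))) (enc_mul (enc_norm (kc2q2_4.enc h1 h2)) (enc_norm (enc_sub (enc_rat _ 88093 25000) (enc_scale 88093 12500 (c1g.enc h1)))))))))))⟩
noncomputable def kf3q2_4 : Fn2 := ⟨_, _, fun h1 h2 => (enc_subr 251 400 h2)⟩
noncomputable def kf3q2 : Fn2 := ⟨_, _, fun h1 h2 => (enc_norm (enc_mul (cv3p.enc h1) (enc_norm (enc_case (enc_sub (enc_pnc _ 1) (enc_scale 3 4 (enc_sq h1))) (enc_case (enc_subr 127 100 h1) (enc_add (enc_sub (enc_rat _ 45916327 5800000) (enc_scale 375201 58000 h1)) (enc_mul (enc_norm (kf3q2_4.enc h1 h2)) (enc_norm (enc_subr 243530161 5800000 (enc_scale 83737 2320 h1))))) (enc_case (enc_subr 69 50 h1) (enc_add (enc_sub (enc_rat _ 67567 110000) (enc_scale 791 1100 h1)) (enc_mul (enc_norm (kf3q2_4.enc h1 h2)) (enc_norm (enc_sub (enc_rat _ 1031767 100000) (enc_scale 1273 250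 h1))))) (enc_add (enc_sub (enc_rat _ 901341 2000000) (enc_scale 72067 120000 h1)) (enc_mul (enc_norm (kf3q2_4.enc h1 h2)) (enc_norm (enc_sub (enc_rat _ 1447147 100000) (enc_scale 4051 500 h1))))))) (enc_case (enc_subr 1 4 (c1g.enc h1)) (enc_case (enc_subr 1 10 (c1g.enc h1)) (enc_case (enc_subr 1 20 (c1g.enc h1)) (enc_add (enc_add (enc_scale 52483 50000 (c1g.enc h1)) (enc_rat _ 17907 40000)) (enc_mul (enc_norm (kf3q2_4.enc h1 h2)) (enc_norm (enc_subr 26319 100000 (enc_scale 28773 2500 (c1g.enc h1)))))) (enc_add (enc_add (enc_scale 53229 50000 (c1g.enc h1)) (enc_rat _ 446929 1000000)) (enc_mul (enc_norm (kf3q2_4.enc h1 h2)) (enc_norm (enc_subr 11041 50000 (enc_scale 53309 5000 (c1g.enc h1))))))) (enc_case (enc_subr 3 20 (c1g.enc h1)) (enc_add (enc_add (enc_scale 3521 3125 (c1g.enc h1)) (enc_rat _ 88143 200000)) (enc_mul (enc_norm (kf3q2_4.enc h1 h2)) (enc_norm (enc_add (enc_scale 37677 5000 (c1g.enc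 h1)) (enc_rat _ 4591 50000))))) (enc_case (enc_subr 1 5 (c1g.enc h1)) (enc_add (enc_add (enc_scale 68287 50000 (c1g.enc h1)) (enc_rat _ 202431 500000)) (enc_mul (enc_norm (kf3q2_4.enc h1 h2)) (enc_norm (enc_sub (enc_rat _ 48701 25000) (enc_scale 24197 5000 (c1g.enc h1)))))) (enc_add (enc_add (enc_scale 877 625 (c1g.enc h1)) (enc_rat _ 39737 100000)) (enc_mul (enc_norm (kf3q2_4.enc h1 h2)) (enc_norm (enc_sub (enc_rat _ 5929 2500) (enc_scale 17393 2500 (c1g.enc h1))))))))) (enc_case (enc_subr 7 20 (c1g.enc h1)) (enc_case (enc_subr 3 10 (c1g.enc h1)) (enc_add (enc_add (enc_scale 69687 50000 (c1g.enc h1)) (enc_rat _ 79947 200000)) (enc_mul (enc_norm (kf3q2_4.enc h1 h2)) (enc_norm (enc_sub (enc_rat _ 23367 10000) (enc_scale 4261 625 (c1g.enc h1)))))) (enc_add (enc_add (enc_scale 65827 50000 (c1g.enc h1)) (enc_rat _ 84579 200000)) (enc_mul (enc_norm (kf3q2_4.enc h1 h2)) (enc_norm (enc_sub (enc_rat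 _ 90849 50000) (enc_scale 12713 2500 (c1g.enc h1))))))) (enc_case (enc_subr 2 5 (c1g.enc h1)) (enc_add (enc_add (enc_scale 55869 50000 (c1g.enc h1)) (enc_rat _ 492601 1000000)) (enc_mul (enc_norm (kf3q2_4.enc h1 h2)) (enc_norm (enc_sub (enc_rat _ 47337 50000) (enc_scale 6497 2500 (c1g.enc h1)))))) (enc_case (enc_subr 9 20 (c1g.enc h1)) (enc_add (enc_add (enc_scale 33937 50000 (c1g.enc h1)) (enc_rat _ 668057 1000000)) (enc_mul (enc_norm (kf3q2_4.enc h1 h2)) (enc_norm (enc_subr 2139 10000 (enc_scale 757 2500 (c1g.enc h1)))))) (enc_add (enc_add (enc_scale 2651 5000 (c1g.enc h1)) (enc_rat _ 7349 10000)) (enc_mul (enc_norm (kf3q2_4.enc h1 h2)) (enc_norm (enc_subr 1941 2500 (enc_scale 1941 1250 (c1g.enc h1))))))))))))))⟩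
noncomputable def l3q2_4 : Fn2 := ⟨_, _, fun h1 h2 => (enc_subr 251 400 h2)⟩
noncomputable def l3q2 : Fn2 := ⟨_, _, fun h1 h2 => (enc_norm (enc_mul (cv3p.enc h1) (enc_norm (enc_case (enc_sub (enc_pnc _ 1) (enc_scale 3 4 (enc_sq h1))) (enc_case (enc_subr 127 100 h1) (enc_add (enc_subr 53497811 29000000 (enc_scale 4852 3625 h1)) (enc_mul (enc_norm (l3q2_4.enc h1 h2)) (enc_norm (enc_sub (enc_rat _ 12942847 2900000) (enc_scale 24427 5800 h1))))) (enc_case (enc_subr 69 50 h1) (enc_add (enc_subr 27299739 11000000 (enc_scale 20241 11000 h1)) (enc_mul (enc_norm (l3q2_4.enc h1 h2)) (enc_norm (enc_sub (enc_rat _ 1132847 220000) (enc_scale 52271 11000 h1))))) (enc_add (enc_subr 364963 125000 (enc_scale 25889 12000 h1)) (enc_mul (enc_norm (l3q2_4.enc h1 h2)) (enc_norm (enc_sub (enc_rat _ 1342483 100000) (enc_scale 16123 1500 h1))))))) (enc_case (enc_subr 1 4 (c1g.enc h1)) (enc_case (enc_subr 1 10 (c1g.enc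 h1)) (enc_case (enc_subr 1 20 (c1g.enc h1)) (enc_add (enc_subr 5983 20000 (enc_scale 2683 3125 (c1g.enc h1))) (enc_mul (enc_norm (l3q2_4.enc h1 h2)) (enc_norm (enc_subr 39841 100000 (enc_neg (enc_scale 1131 2500 (c1g.enc h1))))))) (enc_add (enc_subr 299179 1000000 (enc_scale 42957 50000 (c1g.enc h1))) (enc_mul (enc_norm (l3q2_4.enc h1 h2)) (enc_norm (enc_subr 4969 12500 (enc_neg (enc_scale 2351 5000 (c1g.enc h1)))))))) (enc_case (enc_subr 3 20 (c1g.enc h1)) (enc_add (enc_subr 299303 1000000 (enc_scale 43019 50000 (c1g.enc h1))) (enc_mul (enc_norm (l3q2_4.enc h1 h2)) (enc_norm (enc_subr 8857 25000 (enc_neg (enc_scale 4513 5000 (c1g.enc h1))))))) (enc_case (enc_subr 1 5 (c1g.enc h1)) (enc_add (enc_subr 299453 1000000 (enc_scale 43069 50000 (c1g.enc h1))) (enc_mul (enc_norm (l3q2_4.enc h1 h2)) (enc_norm (enc_subr 25021 100000 (enc_neg (enc_scale 3991 2500 (c1g.enc h1))))))) (enc_add (enc_subr 290373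 1000000 (enc_scale 40799 50000 (c1g.enc h1))) (enc_mul (enc_norm (l3q2_4.enc h1 h2)) (enc_norm (enc_subr 41477 100000 (enc_neg (enc_scale 967 1250 (c1g.enc h1)))))))))) (enc_case (enc_subr 7 20 (c1g.enc h1)) (enc_case (enc_subr 3 10 (c1g.enc h1)) (enc_add (enc_subr 60717 250000 (enc_scale 15649 25000 (c1g.enc h1))) (enc_mul (enc_norm (l3q2_4.enc h1 h2)) (enc_norm (enc_subr 47501 50000 (enc_scale 6837 5000 (c1g.enc h1)))))) (enc_add (enc_subr 3591 20000 (enc_scale 4149 10000 (c1g.enc h1))) (enc_mul (enc_norm (l3q2_4.enc h1 h2)) (enc_norm (enc_subr 68357 50000 (enc_scale 13789 5000 (c1g.enc h1))))))) (enc_case (enc_subr 2 5 (c1g.enc h1)) (enc_add (enc_subr 33691 250000 (enc_scale 14347 50000 (c1g.enc h1))) (enc_mul (enc_norm (l3q2_4.enc h1 h2)) (enc_norm (enc_subr 148103 100000 (enc_scale 1927 625 (c1g.enc h1)))))) (enc_case (enc_subr 9 20 (c1g.enc h1)) (enc_add (enc_subr 26279 250000 (enc_scale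 10641 50000 (c1g.enc h1))) (enc_mul (enc_norm (l3q2_4.enc h1 h2)) (enc_norm (enc_subr 137487 100000 (enc_scale 14089 5000 (c1g.enc h1)))))) (enc_add (enc_subr 9347 100000 (enc_scale 9347 50000 (c1g.enc h1))) (enc_mul (enc_norm (l3q2_4.enc h1 h2)) (enc_norm (enc_subr 5343 5000 (enc_scale 5343 2500 (c1g.enc h1))))))))))))))⟩
noncomputable def kc3q2_4 : Fn2 := ⟨_, _, fun h1 h2 => (enc_subr 251 400 h2)⟩
noncomputable def kc3q2 : Fn2 := ⟨_, _, fun h1 h2 => (enc_norm (enc_mul (cv3p.enc h1) (enc_norm (enc_case (enc_sub (enc_pnc _ 1) (enc_scale 3 4 (enc_sq h1))) (enc_add (enc_subr 2726857173 173000000 (enc_scale 1139619 86500 h1)) (enc_mul (enc_norm (kc3q2_4.enc h1 h2)) (enc_norm (enc_sub (enc_rat _ 786788221 8650000) (enc_scale 2444101 34600 h1))))) (enc_case (enc_subr 1 4 (c1g.enc h1)) (enc_add (enc_subr 34319 62500 (enc_scale 268109 125000 (c1g.enc h1))) (enc_mul (enc_norm (kc3q2_4.enc h1 h2)) (enc_norm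 (enc_sub (enc_rat _ 187741 20000) (enc_scale 100969 3125 (c1g.enc h1)))))) (enc_add (enc_subr 6443 250000 (enc_scale 6443 125000 (c1g.enc h1))) (enc_mul (enc_norm (kc3q2_4.enc h1 h2)) (enc_norm (enc_sub (enc_rat _ 130953 50000) (enc_scale 130953 25000 (c1g.enc h1)))))))))))⟩
noncomputable def kf4q2_4 : Fn2 := ⟨_, _, fun h1 h2 => (enc_subr 251 400 h2)⟩
noncomputable def kf4q2 : Fn2 := ⟨_, _, fun h1 h2 => (enc_norm (enc_mul (cv4p.enc h1) (enc_norm (enc_case (enc_sub (enc_pnc _ 1) (enc_scale 3 4 (enc_sq h1))) (enc_case (enc_subr 127 100 h1) (enc_add (enc_sub (enc_rat _ 24600689 5800000) (enc_scale 11348 3625 h1)) (enc_mul (enc_norm (kf4q2_4.enc h1 h2)) (enc_norm (enc_sub (enc_rat _ 7705873 2900000) (enc_scale 8161 5800 h1))))) (enc_case (enc_subr 69 50 h1) (enc_add (enc_sub (enc_rat _ 47641351 11000000) (enc_scale 88027 27500 h1)) (enc_mul (enc_norm (kf4q2_4.enc h1 h2)) (enc_norm (enc_subr 12870137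 1100000 (enc_scale 108877 11000 h1))))) (enc_add (enc_sub (enc_rat _ 3352081 2000000) (enc_scale 51083 40000 h1)) (enc_mul (enc_norm (kf4q2_4.enc h1 h2)) (enc_norm (enc_subr 229233 100000 (enc_scale 4621 1500 h1))))))) (enc_case (enc_subr 1 4 (c1g.enc h1)) (enc_case (enc_subr 1 10 (c1g.enc h1)) (enc_case (enc_subr 1 20 (c1g.enc h1)) (enc_add (enc_add (enc_scale 43723 50000 (c1g.enc h1)) (enc_rat _ 19623 31250)) (enc_mul (enc_norm (kf4q2_4.enc h1 h2)) (enc_norm (enc_sub (enc_rat _ 95281 100000) (enc_scale 27411 5000 (c1g.enc h1)))))) (enc_add (enc_add (enc_scale 21709 25000 (c1g.enc h1)) (enc_rat _ 628241 1000000)) (enc_mul (enc_norm (kf4q2_4.enc h1 h2)) (enc_norm (enc_sub (enc_rat _ 23069 25000) (enc_scale 12203 2500 (c1g.enc h1))))))) (enc_case (enc_subr 3 20 (c1g.enc h1)) (enc_add (enc_add (enc_scale 21371 25000 (c1g.enc h1)) (enc_rat _ 629593 1000000)) (enc_mul (enc_norm (kf4q2_4.enc h1 h2))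 (enc_norm (enc_sub (enc_rat _ 42677 50000) (enc_scale 4189 1000 (c1g.enc h1)))))) (enc_case (enc_subr 1 5 (c1g.enc h1)) (enc_add (enc_add (enc_scale 1659 2000 (c1g.enc h1)) (enc_rat _ 316697 500000)) (enc_mul (enc_norm (kf4q2_4.enc h1 h2)) (enc_norm (enc_sub (enc_rat _ 1457 2000) (enc_scale 16777 5000 (c1g.enc h1)))))) (enc_add (enc_add (enc_scale 39731 50000 (c1g.enc h1)) (enc_rat _ 64037 100000)) (enc_mul (enc_norm (kf4q2_4.enc h1 h2)) (enc_norm (enc_sub (enc_rat _ 1161 2000) (enc_scale 13077 5000 (c1g.enc h1))))))))) (enc_case (enc_subr 7 20 (c1g.enc h1)) (enc_case (enc_subr 3 10 (c1g.enc h1)) (enc_add (enc_add (enc_scale 2322 3125 (c1g.enc h1)) (enc_rat _ 130653 200000)) (enc_mul (enc_norm (kf4q2_4.enc h1 h2)) (enc_norm (enc_sub (enc_rat _ 7917 20000) (enc_scale 1173 625 (c1g.enc h1)))))) (enc_add (enc_add (enc_scale 34167 50000 (c1g.enc h1)) (enc_rat _ 26847 40000)) (enc_mul (enc_norm (kf4q2_4.enc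 h1 h2)) (enc_norm (enc_sub (enc_rat _ 14631 100000) (enc_scale 209 200 (c1g.enc h1))))))) (enc_case (enc_subr 2 5 (c1g.enc h1)) (enc_add (enc_add (enc_scale 6351 10000 (c1g.enc h1)) (enc_rat _ 688059 1000000)) (enc_mul (enc_norm (kf4q2_4.enc h1 h2)) (enc_norm (enc_subr 4757 20000 (enc_scale 263 5000 (c1g.enc h1)))))) (enc_case (enc_subr 9 20 (c1g.enc h1)) (enc_add (enc_add (enc_scale 14893 25000 (c1g.enc h1)) (enc_rat _ 703811 1000000)) (enc_mul (enc_norm (kf4q2_4.enc h1 h2)) (enc_norm (enc_subr 78737 100000 (enc_scale 1783 1250 (c1g.enc h1)))))) (enc_add (enc_add (enc_scale 5623 10000 (c1g.enc h1)) (enc_rat _ 14377 20000)) (enc_mul (enc_norm (kf4q2_4.enc h1 h2)) (enc_norm (enc_subr 14549 10000 (enc_scale 14549 5000 (c1g.enc h1))))))))))))))⟩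
noncomputable def l4q2_4 : Fn2 := ⟨_, _, fun h1 h2 => (enc_subr 251 400 h2)⟩
noncomputable def l4q2 : Fn2 := ⟨_, _, fun h1 h2 => (enc_norm (enc_mul (cv4p.enc h1) (enc_norm (enc_case (enc_sub (enc_pnc _ 1) (enc_scale 3 4 (enc_sq h1))) (enc_case (enc_subr 127 100 h1) (enc_add (enc_subr 2408057 11600000 (enc_scale 2973 23200 h1)) (enc_mul (enc_norm (l4q2_4.enc h1 h2)) (enc_norm (enc_subr 2800261 1160000 (enc_scale 18873 11600 h1))))) (enc_case (enc_subr 69 50 h1) (enc_add (enc_subr 11944631 11000000 (enc_scale 11271 13750 h1)) (enc_mul (enc_norm (l4q2_4.enc h1 h2)) (enc_norm (enc_subr 539497 1100000 (enc_scale 309 2750 h1))))) (enc_add (enc_subr 1657597 1000000 (enc_scale 617 500 h1)) (enc_mul (enc_norm (l4q2_4.enc h1 h2)) (enc_norm (enc_subr 587 800 (enc_scale 433 1500 h1))))))) (enc_case (enc_subr 1 4 (c1g.enc h1)) (enc_case (enc_subr 1 10 (c1g.enc h1)) (enc_case (enc_subr 1 20 (c1g.enc h1))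 (enc_add (enc_subr 29643 500000 (enc_scale 15877 50000 (c1g.enc h1))) (enc_mul (enc_norm (l4q2_4.enc h1 h2)) (enc_norm (enc_subr 53779 100000 (enc_neg (enc_scale 3007 1250 (c1g.enc h1))))))) (enc_add (enc_subr 2363 40000 (enc_scale 7833 25000 (c1g.enc h1))) (enc_mul (enc_norm (l4q2_4.enc h1 h2)) (enc_norm (enc_subr 54171 100000 (enc_neg (enc_scale 2909 1250 (c1g.enc h1)))))))) (enc_case (enc_subr 3 20 (c1g.enc h1)) (enc_add (enc_subr 54509 1000000 (enc_scale 13383 50000 (c1g.enc h1))) (enc_mul (enc_norm (l4q2_4.enc h1 h2)) (enc_norm (enc_subr 13041 20000 (enc_neg (enc_scale 6119 5000 (c1g.enc h1))))))) (enc_case (enc_subr 1 5 (c1g.enc h1)) (enc_add (enc_subr 16609 500000 (enc_scale 3143 25000 (c1g.enc h1))) (enc_mul (enc_norm (l4q2_4.enc h1 h2)) (enc_norm (enc_subr 104499 100000 (enc_scale 6979 5000 (c1g.enc h1)))))) (enc_add (enc_subr 1633 100000 (enc_scale 129 3125 (c1g.enc h1))) (enc_mul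 (enc_norm (l4q2_4.enc h1 h2)) (enc_norm (enc_subr 138847 100000 (enc_scale 7783 2500 (c1g.enc h1))))))))) (enc_case (enc_subr 7 20 (c1g.enc h1)) (enc_case (enc_subr 3 10 (c1g.enc h1)) (enc_add (enc_subr 1001 100000 (enc_scale 2 125 (c1g.enc h1))) (enc_mul (enc_norm (l4q2_4.enc h1 h2)) (enc_norm (enc_subr 37193 25000 (enc_scale 17551 5000 (c1g.enc h1)))))) (enc_add (enc_subr 128 15625 (enc_scale 497 50000 (c1g.enc h1))) (enc_mul (enc_norm (l4q2_4.enc h1 h2)) (enc_norm (enc_subr 72763 50000 (enc_scale 1701 500 (c1g.enc h1))))))) (enc_case (enc_subr 2 5 (c1g.enc h1)) (enc_add (enc_subr 1073 125000 (enc_scale 553 50000 (c1g.enc h1))) (enc_mul (enc_norm (l4q2_4.enc h1 h2)) (enc_norm (enc_subr 67807 50000 (enc_scale 7797 2500 (c1g.enc h1)))))) (enc_case (enc_subr 9 20 (c1g.enc h1)) (enc_add (enc_subr 1607 125000 (enc_scale 1087 50000 (c1g.enc h1))) (enc_mul (enc_norm (l4q2_4.enc h1 h2)) (enc_norm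 (enc_subr 54759 50000 (enc_scale 3083 1250 (c1g.enc h1)))))) (enc_add (enc_subr 3073 100000 (enc_scale 3073 50000 (c1g.enc h1))) (enc_mul (enc_norm (l4q2_4.enc h1 h2)) (enc_norm (enc_sub (enc_rat _ 147 1000) (enc_scale 147 500 (c1g.enc h1))))))))))))))⟩
noncomputable def kc4q2_4 : Fn2 := ⟨_, _, fun h1 h2 => (enc_subr 251 400 h2)⟩
noncomputable def kc4q2 : Fn2 := ⟨_, _, fun h1 h2 => (enc_norm (enc_mul (cv4p.enc h1) (enc_norm (enc_case (enc_sub (enc_pnc _ 1) (enc_scale 3 4 (enc_sq h1))) (enc_add (enc_subr 13776879 1730000 (enc_scale 1109243 173000 h1)) (enc_mul (enc_norm (kc4q2_4.enc h1 h2)) (enc_norm (enc_sub (enc_rat _ 379270919 8650000) (enc_scale 201431 6920 h1))))) (enc_case (enc_subr 1 4 (c1g.enc h1)) (enc_add (enc_subr 27981 50000 (enc_scale 287409 125000 (c1g.enc h1))) (enc_mul (enc_norm (kc4q2_4.enc h1 h2)) (enc_norm (enc_sub (enc_rat _ 511341 50000) (enc_scale 959653 25000 (c1g.enc h1))))))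 (enc_add (enc_sub (enc_rat _ 7599 250000) (enc_scale 7599 125000 (c1g.enc h1))) (enc_mul (enc_norm (kc4q2_4.enc h1 h2)) (enc_norm (enc_sub (enc_rat _ 63029 50000) (enc_scale 63029 25000 (c1g.enc h1)))))))))))⟩

noncomputable def ndB0q0 : Node := ⟨idf, c1g, kf0q0, l0q0⟩
noncomputable def cd0q0 : Fn2 := kc0q0
noncomputable def ndB0q1 : Node := ⟨idf, c1g, kf0q1, l0q1⟩
noncomputable def cd0q1 : Fn2 := kc0q1
noncomputable def ndB0q2 : Node := ⟨yag, idf, kfc02, lc02⟩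
noncomputable def cd0q2 : Fn2 := kcc02
noncomputable def ndB1q0 : Node := ⟨idf, cv1m, kf1q0, l1q0⟩
noncomputable def cd1q0 : Fn2 := kc1q0
noncomputable def ndB1q1 : Node := ⟨idf, cv1m, kf1q1, l1q1⟩
noncomputable def cd1q1 : Fn2 := kc1q1
noncomputable def ndB1q2a : Node := ⟨yag, xc12a, kfc12a, lc12a⟩
noncomputable def cd1q2a : Fn2 := kcc12a
noncomputable def ndB1q2b : Node := ⟨idf, xc12b, kfc12b, lc12b⟩
noncomputable def cd1q2b : Fn2 := kcc12b
noncomputable def ndB1q3 : Node := ⟨idf, cv1r, kf1q3, l1q3⟩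
noncomputable def cd1q3 : Fn2 := kc1q3
noncomputable def ndB2q0 : Node := ⟨idf, cv2m, kf2q0, l2q0⟩
noncomputable def cd2q0 : Fn2 := kc2q0
noncomputable def ndB2q1 : Node := ⟨idf, cv2m, kf2q1, l2q1⟩
noncomputable def cd2q1 : Fn2 := kc2q1
noncomputable def ndB2q2a : Node := ⟨yag, xc22a, kfc22a, lc22a⟩
noncomputable def cd2q2a : Fn2 := kcc22a
noncomputable def ndB2q2b : Node := ⟨idf, xc22b, kfc22b, lc22b⟩
noncomputable def cd2q2b : Fn2 := kcc22b
noncomputable def ndB2q3 : Node := ⟨idf, cv2r, kf2q3, l2q3⟩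
noncomputable def cd2q3 : Fn2 := kc2q3
noncomputable def ndB3q0 : Node := ⟨idf, cv3m, kf3q0, l3q0⟩
noncomputable def cd3q0 : Fn2 := kc3q0
noncomputable def ndB3q1 : Node := ⟨idf, cv3m, kf3q1, l3q1⟩
noncomputable def cd3q1 : Fn2 := kc3q1
noncomputable def ndB3q2a : Node := ⟨yag, xc32a, kfc32a, lc32a⟩
noncomputable def cd3q2a : Fn2 := kcc32a
noncomputable def ndB3q2b : Node := ⟨idf, xc32b, kfc32b, lc32b⟩
noncomputable def cd3q2b : Fn2 := kcc32b
noncomputable def ndB3q3 : Node := ⟨idf, cv3r, kf3q3, l3q3⟩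
noncomputable def cd3q3 : Fn2 := kc3q3
noncomputable def ndB4q0 : Node := ⟨idf, cv4m, kf4q0, l4q0⟩
noncomputable def cd4q0 : Fn2 := kc4q0
noncomputable def ndB4q1 : Node := ⟨idf, cv4m, kf4q1, l4q1⟩
noncomputable def cd4q1 : Fn2 := kc4q1
noncomputable def ndB4q2a : Node := ⟨yag, xc42a, kfc42a, lc42a⟩
noncomputable def cd4q2a : Fn2 := kcc42a
noncomputable def ndB4q2b : Node := ⟨idf, xc42b, kfc42b, lc42b⟩
noncomputable def cd4q2b : Fn2 := kcc42b
noncomputable def ndB4q3 : Node := ⟨idf, cv4r, kf4q3, l4q3⟩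
noncomputable def cd4q3 : Fn2 := kc4q3
noncomputable def ndB5q0 : Node := ⟨idf, cv5m, kf5q0, l5q0⟩
noncomputable def cd5q0 : Fn2 := kc5q0
noncomputable def ndB5q1 : Node := ⟨idf, cv5m, kf5q1, l5q1⟩
noncomputable def cd5q1 : Fn2 := kc5q1
noncomputable def ndB5q2 : Node := ⟨idf, cv5p, kf5q2, l5q2⟩
noncomputable def cd5q2 : Fn2 := kc5q2
noncomputable def ndB5q3 : Node := ⟨ycg, xc53, kfc53, lc53⟩
noncomputable def cd5q3 : Fn2 := kcc53
noncomputable def ndB6q0 : Node := ⟨idf, cv6m, kf6q0, l6q0⟩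
noncomputable def cd6q0 : Fn2 := kc6q0
noncomputable def ndB6q1 : Node := ⟨idf, cv6m, kf6q1, l6q1⟩
noncomputable def cd6q1 : Fn2 := kc6q1
noncomputable def ndB6q2 : Node := ⟨idf, cv6p, kf6q2, l6q2⟩
noncomputable def cd6q2 : Fn2 := kc6q2
noncomputable def ndB6q3 : Node := ⟨ycg, xc63, kfc63, lc63⟩
noncomputable def cd6q3 : Fn2 := kcc63
noncomputable def ndB7q0 : Node := ⟨idf, cv7m, kf7q0, l7q0⟩
noncomputable def cd7q0 : Fn2 := kc7q0
noncomputable def ndB7q1 : Node := ⟨idf, cv7m, kf7q1, l7q1⟩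
noncomputable def cd7q1 : Fn2 := kc7q1
noncomputable def ndB7q2 : Node := ⟨idf, cv7p, kf7q2, l7q2⟩
noncomputable def cd7q2 : Fn2 := kc7q2
noncomputable def ndB7q3 : Node := ⟨ycg, xc73, kfc73, lc73⟩
noncomputable def cd7q3 : Fn2 := kcc73
noncomputable def ndB8q0 : Node := ⟨idf, c3g, kf8q0, l8q0⟩
noncomputable def cd8q0 : Fn2 := kc8q0
noncomputable def ndB8q1 : Node := ⟨idf, c3g, kf8q1, l8q1⟩
noncomputable def cd8q1 : Fn2 := kc8q1
noncomputable def ndB8q2 : Node := ⟨idf, c3g, kf8q2, l8q2⟩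
noncomputable def cd8q2 : Fn2 := kc8q2
noncomputable def ndB8q3 : Node := ⟨ycg, idf, kfc83, lc83⟩
noncomputable def cd8q3 : Fn2 := kcc83
noncomputable def pcB0 : Piece := ⟨rsbq0, rlq0⟩
noncomputable def pcB1 : Piece := ⟨rsbq1, rlq1⟩
noncomputable def pcB2 : Piece := ⟨rsbq2, rlq2⟩
noncomputable def pcB3 : Piece := ⟨rsbq3, rlq3⟩
noncomputable def ndB1q2 : Node := ⟨idf, cv1p, kf1q2, l1q2⟩
noncomputable def cd1q2 : Fn2 := kc1q2
noncomputable def ndB2q2 : Node := ⟨idf, cv2p, kf2q2, l2q2⟩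
noncomputable def cd2q2 : Fn2 := kc2q2
noncomputable def ndB3q2 : Node := ⟨idf, cv3p, kf3q2, l3q2⟩
noncomputable def cd3q2 : Fn2 := kc3q2
noncomputable def ndB4q2 : Node := ⟨idf, cv4p, kf4q2, l4q2⟩
noncomputable def cd4q2 : Fn2 := kc4q2
end Pool.Agent.Strip051.G.I6050_6500.Tab
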