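import Pool.Agent.Strip051.G.I6050_6500.MolD

/-! # The tight charts of a table: certificates (generated) -/

set_option linter.all false
set_option maxRecDepth 100000

namespace Pool.Agent.Strip051.G.I6050_6500.Tab.Mo

open Pool.Agent.Strip051.PB Pool.Agent.Strip051.PB.Mol Pool.Agent.Strip051.PB.T
open Pool.Agent.Strip051.G.I6050_6500.Tab

noncomputable def f2Ap : ℕ → ℕ → ℕ → ℕ → Bool :=
  onCell 0 41943040 0 33554432 649613803 48318383 (c2_Ap.row false 20971520)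

theorem h0_2Ap : ∃ t, chk3 f2Ap t 1 1 1 = true :=
  ⟨(c (b (b (a (c (l 10) (a (l 8) (l 10))) (c (a (l 10) (c (l 2) (l 2))) (b (a (l 10) (c (l 2) (l 2))) (a (l 2) (l 2))))) (a (c (a (l 10) (l 10)) (a (l 10) (c (l 10) (l 10)))) (c (a (l 2) (c (l 2) (l 2))) (a (c (l 2) (l 2)) (c (l 2) (l 2)))))) (a (c (b (a (l 10) (l 10)) (a (l 10) (l 2))) (b (a (l 10) (c (l 10) (l 10))) (a (c (l 10) (l 10)) (c (l 2) (l 2))))) (b (a (c (l 2) (c (l 2) (l 2))) (l 1)) (l 1)))) (b (a (b (c (a (l 8) (c (l 10) (l 10))) (a (c (l 8) (a (l 8) (l 8))) (l 10))) (c (a (c (l 10) (l 10)) (c (a (l 10) (l 10)) (l 10))) (a (c (l 10) (l 10)) (l 10)))) (b (c (a (l 10) (l 2)) (a (l 10) (l 2))) (c (a (l 2) (l 2)) (a (l 2) (l 2))))) (a (b (c (a (c (l 10) (l 10)) (c (l 10) (a (l 10) (l 2)))) (a (c (a (l 8) (l 10)) (a (l 8) (l 10))) (c (l 10) (l 10))))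 (c (a (c (l 10) (l 10)) (c (l 2) (l 2))) (a (c (a (l 10) (l 10)) (a (l 10) (l 10))) (c (l 2) (l 2))))) (b (a (c (l 2) (l 2)) (l 1)) (l 1))))), by decide +kernel⟩

theorem ct_2Ap : ∃ t, chk3 f2Ap t 1 1 1 = true := h0_2Ap

noncomputable def f2Apk1 : ℕ → ℕ → ℕ → ℕ → Bool :=
  onCell 0 41943040 0 33554432 649613803 48318383 (c2_Apk1.row false 20971520)

theorem h0_2Apk1 : ∃ t, chk3 f2Apk1 t 1 1 1 = true :=
  ⟨(c (b (b (a (c (l 10) (a (l 8) (l 10))) (c (a (l 10) (l 2)) (a (c (l 10) (l 10)) (c (l 2) (l 2))))) (a (c (a (l 10) (l 10)) (a (l 10) (l 10))) (c (a (l 2) (c (l 2) (l 2))) (a (c (l 2) (l 2)) (c (l 2) (l 2)))))) (a (c (b (a (l 10) (l 10)) (a (l 10) (l 2))) (b (a (l 10) (c (l 10) (l 10))) (a (l 10) (c (l 2) (l 2))))) (b (a (c (l 2) (c (l 2) (l 2))) (l 1)) (l 1)))) (b (a (b (c (a (l 8) (c (l 10) (l 10))) (a (c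 (l 8) (l 8)) (l 10))) (c (a (c (l 10) (l 10)) (c (l 10) (l 10))) (a (c (l 10) (l 10)) (l 10)))) (b (c (l 10) (a (l 10) (l 2))) (c (l 2) (a (l 2) (l 2))))) (a (c (b (a (c (l 10) (l 10)) (c (l 10) (l 10))) (a (c (l 10) (l 10)) (c (l 2) (l 2)))) (a (b (c (l 10) (l 10)) (c (l 10) (l 10))) (b (l 10) (l 2)))) (b (a (c (l 2) (l 2)) (l 1)) (l 1))))), by decide +kernel⟩

theorem ct_2Apk1 : ∃ t, chk3 f2Apk1 t 1 1 1 = true := h0_2Apk1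

noncomputable def f2Apk2 : ℕ → ℕ → ℕ → ℕ → Bool :=
  onCell 0 41943040 0 33554432 649613803 48318383 (c2_Apk2.row false 20971520)

theorem h0_2Apk2 : ∃ t, chk3 f2Apk2 t 1 1 1 = true :=
  ⟨(c (b (b (a (c (l 10) (l 10)) (c (a (l 10) (l 2)) (a (l 10) (l 2)))) (a (c (l 10) (a (l 10) (l 10))) (c (a (l 2) (c (l 2) (l 2))) (a (c (l 2) (l 2)) (l 2))))) (a (c (a (l 10) (l 10)) (a (l 10) (c (l 10) (l 10)))) (b (a (c (l 2) (l 2)) (l 1)) (l 1)))) (b (a (b (c (a (l 8) (l 10)) (a (l 8) (l 10))) (c (a (l 10) (c (l 10) (l 10))) (a (l 10) (l 10)))) (b (c (l 10) (l 10)) (c (l 2) (l 2)))) (a (c (b (a (c (l 10) (l 10)) (l 10)) (a (l 10) (l 2))) (a (b (l 10) (c (l 10) (l 10))) (b (l 10) (l 2)))) (b (c (l 2) (l 2)) (l 1))))), by decide +kernel⟩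

theorem ct_2Apk2 : ∃ t, chk3 f2Apk2 t 1 1 1 = true := h0_2Apk2

noncomputable def f2Apk3 : ℕ → ℕ → ℕ → ℕ → Bool :=
  onCell 0 41943040 0 33554432 649613803 48318383 (c2_Apk3.row false 20971520)

theorem h0_2Apk3 : ∃ t, chk3 f2Apk3 t 1 1 1 = true :=
  ⟨(c (b (b (a (c (l 10) (l 10)) (c (l 10) (a (l 10) (l 2)))) (a (c (l 10) (l 10)) (c (a (l 2) (l 2)) (a (l 2) (l 2))))) (a (c (a (l 10) (l 10)) (a (l 10) (b (l 10) (l 2)))) (b (c (a (l 2) (l 1)) (l 2)) (l 1)))) (b (a (b (c (l 10) (a (l 8) (l 10))) (c (a (l 10) (l 10)) (l 10))) (c (l 10) (a (l 10) (l 2)))) (a (b (c (a (l 10) (l 10)) (a (l 10) (l 10))) (c (a (l 10) (l 2)) (a (l 10) (l 2)))) (b (c (l 2) (l 2)) (l 1))))), by decide +kernel⟩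

theorem ct_2Apk3 : ∃ t, chk3 f2Apk3 t 1 1 1 = true := h0_2Apk3

noncomputable def f2Apk4 : ℕ → ℕ → ℕ → ℕ → Bool :=
  onCell 0 41943040 0 33554432 649613803 48318383 (c2_Apk4.row false 20971520)

theorem h0_2Apk4 : ∃ t, chk3 f2Apk4 t 1 1 1 = true :=
  ⟨(c (a (b (c (l 10) (l 10)) (c (l 10) (a (l 10) (l 10)))) (b (b (c (l 10) (l 10)) (c (l 2) (l 2))) (b (c (l 2) (l 2)) (l 1)))) (a (b (b (c (l 10) (l 10)) (c (l 10) (l 10))) (b (c (a (l 10) (l 10)) (l 10)) (c (l 10) (l 10)))) (b (c (l 10) (l 10)) (c (l 2) (l 2))))), by decide +kernel⟩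

theorem ct_2Apk4 : ∃ t, chk3 f2Apk4 t 1 1 1 = true := h0_2Apk4

noncomputable def f2Am : ℕ → ℕ → ℕ → ℕ → Bool :=
  onCell 0 41943040 0 33554432 649613803 48318383 (c2_Am.row true 20971520)

theorem h0_2Am : ∃ t, chk3 f2Am t 1 1 2 = true :=
  ⟨(b (a (b (c (a (l 8) (l 10)) (a (l 8) (c (l 10) (l 10)))) (c (a (l 8) (l 8)) (a (l 8) (l 8)))) (b (c (a (l 10) (c (l 2) (a (l 2) (l 2)))) (b (a (c (l 10) (a (l 10) (l 2))) (c (a (l 2) (l 2)) (l 2))) (a (c (l 10) (l 10)) (c (a (l 2) (l 2)) (l 2))))) (c (a (l 10) (b (c (l 2) (l 2)) (l 2))) (a (b (c (l 10) (l 10)) (l 10)) (c (a (l 2) (l 2)) (a (l 2) (l 2))))))) (b (a (a (l 3) (c (l 8) (c (l 8) (l 8)))) (c (a (l 10) (c (l 10) (l 10))) (a (c (l 10) (l 10)) (c (l 10) (a (l 10) (l 2)))))) (a (l 3) (c (b (a (l 10) (c (l 10) (l 10))) (a (c (l 8) (l 8)) (c (l 10) (l 10)))) (b (a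 (c (l 10) (l 10)) (c (l 10) (l 10))) (a (c (l 8) (l 8)) (c (l 10) (l 10)))))))), by decide +kernel⟩

theorem h1_2Am : ∃ t, chk3 f2Am t 1 1 3 = true :=
  ⟨(b (a (b (c (a (c (l 8) (l 8)) (b (c (l 10) (l 10)) (c (l 8) (l 8)))) (a (b (c (l 8) (l 8)) (c (l 8) (l 8))) (c (l 10) (l 10)))) (c (a (l 8) (c (l 8) (a (l 8) (l 8)))) (a (b (c (l 8) (l 8)) (l 3)) (c (l 8) (a (l 8) (l 8)))))) (b (c (a (c (l 10) (l 10)) (l 2)) (a (l 10) (l 2))) (c (b (a (c (l 10) (l 10)) (c (l 2) (l 2))) (a (c (l 10) (l 10)) (c (l 2) (l 2)))) (a (b (l 10) (c (l 10) (l 10))) (c (l 2) (l 2)))))) (b (a (a (l 3) (a (l 3) (c (l 8) (c (l 8) (l 8))))) (c (a (c (l 10) (a (l 8) (l 10))) (b (c (l 2) (l 2)) (c (l 10) (a (l 10) (l 2))))) (a (b (c (l 10) (l 10)) (c (l 10) (a (l 8) (l 10)))) (c (a (l 10) (l 2)) (l 10))))) (a (l 3) (c (a (b (c (l 10) (l 10))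 (c (l 8) (l 8))) (b (c (a (l 10) (l 2)) (a (l 10) (l 2))) (c (l 10) (l 10)))) (b (a (c (a (l 8) (l 10)) (a (l 8) (l 10))) (c (a (l 10) (l 2)) (l 10))) (a (c (l 8) (l 8)) (c (a (l 10) (l 10)) (a (l 10) (l 10))))))))), by decide +kernel⟩

theorem h2_2Am : ∃ t, chk3 f2Am t 1 1 1 = true := ex3_c h0_2Am h1_2Am

theorem ct_2Am : ∃ t, chk3 f2Am t 1 1 1 = true := h2_2Am

noncomputable def f2Bp : ℕ → ℕ → ℕ → ℕ → Bool :=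
  onCell 0 41943040 0 33554432 649613803 48318383 (c2_Bp.row false 20971520)

theorem h0_2Bp : ∃ t, chk3 f2Bp t 1 2 2 = true :=
  ⟨(a (b (b (a (c (l 8) (l 8)) (c (l 10) (l 10))) (c (a (l 8) (l 8)) (a (l 8) (l 8)))) (c (a (c (l 8) (l 8)) (c (l 8) (l 8))) (a (c (l 8) (l 8)) (c (l 8) (l 8))))) (b (b (c (a (l 10) (b (c (l 2) (a (l 2) (l 2))) (c (l 2) (a (l 2) (l 2))))) (a (b (c (a (l 10) (l 2)) (a (l 10) (l 2))) (c (l 10) (a (l 10) (l 2)))) (c (a (c (l 2) (l 2)) (l 2)) (l 2)))) (c (a (l 10) (c (l 2) (a (l 2) (c (l 2) (l 2))))) (a (c (a (l 10) (l 2)) (a (l 10) (l 2))) (c (a (c (l 2) (l 2)) (l 2)) (a (l 2) (l 2)))))) (c (a (c (l 10) (l 10)) (b (c (l 2) (a (l 2) (l 2))) (c (l 2) (l 2)))) (a (b (c (l 10) (a (l 10) (l 10))) (c (l 10) (l 10))) (c (a (c (l 2) (l 2)) (b (l 2) (l 2))) (b (a (l 2) (l 2)) (a (l 2) (c (l 2)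 (l 2))))))))), by decide +kernel⟩

theorem h1_2Bp : ∃ t, chk3 f2Bp t 1 2 3 = true :=
  ⟨(a (b (b (c (a (c (l 8) (l 8)) (b (c (a (l 8) (l 10)) (a (l 8) (l 10))) (c (a (l 8) (l 8)) (a (l 8) (l 8))))) (a (b (c (a (l 8) (l 8)) (a (l 8) (l 8))) (c (a (l 8) (l 8)) (a (l 8) (l 8)))) (c (a (l 8) (l 10)) (l 10)))) (c (a (l 8) (c (a (l 8) (l 8)) (a (l 8) (l 8)))) (a (c (a (l 8) (l 8)) (a (c (l 8) (l 8)) (l 8))) (c (a (l 8) (l 8)) (l 8))))) (c (a (c (l 8) (l 8)) (c (a (l 8) (l 8)) (a (l 8) (b (l 8) (l 8))))) (a (b (a (l 3) (c (l 8) (l 8))) (l 3)) (b (c (a (l 8) (l 8)) (a (l 8) (l 8))) (c (a (l 8) (l 8)) (a (l 8) (c (l 8) (l 8)))))))) (b (c (a (b (c (a (l 10) (l 2)) (l 10)) (c (a (l 10) (l 2)) (a (l 10) (l 2)))) (c (l 2) (l 2))) (b (a (l 10) (l 2)) (a (l 10) (l 2)))) (c (a (b (c (a (l 10) (l 10)) (a (l 10) (l 10))) (c (a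 (l 10) (l 10)) (a (l 10) (c (l 10) (l 10))))) (c (b (a (l 2) (l 2)) (a (c (l 2) (l 2)) (c (l 2) (l 2)))) (l 2))) (a (b (l 10) (c (a (c (l 10) (l 10)) (l 10)) (l 10))) (b (c (l 2) (l 2)) (c (l 2) (l 2))))))), by decide +kernel⟩

theorem h2_2Bp : ∃ t, chk3 f2Bp t 1 3 2 = true :=
  ⟨(b (a (a (l 3) (a (l 3) (c (c (l 8) (l 8)) (c (l 8) (l 8))))) (c (a (b (c (l 10) (l 10)) (c (l 10) (l 10))) (c (a (l 2) (l 2)) (a (l 10) (l 2)))) (a (b (c (l 10) (a (l 8) (l 10))) (c (l 10) (a (l 8) (l 10)))) (c (a (l 10) (l 2)) (a (l 10) (b (l 2) (l 2))))))) (a (l 3) (c (a (b (c (l 10) (l 10)) (a (l 3) (b (l 10) (b (c (l 10) (l 10)) (l 3))))) (b (c (l 10) (a (l 10) (l 2))) (b (c (l 10) (a (l 10) (l 2))) (c (a (c (l 10) (l 10)) (c (l 2) (l 2))) (a (c (l 10) (l 10)) (l 2)))))) (b (a (c (l 10) (a (l 8) (l 10))) (c (a (l 10) (l 2)) (l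 10))) (a (a (l 3) (a (l 3) (b (c (l 10) (l 10)) (c (l 10) (l 10))))) (b (c (a (l 10) (c (l 2) (l 2))) (a (c (l 10) (l 10)) (c (l 2) (l 2)))) (c (a (l 10) (l 2)) (a (l 10) (l 2))))))))), by decide +kernel⟩

theorem h3_2Bp : ∃ t, chk3 f2Bp t 1 6 3 = true :=
  ⟨(a (a (l 3) (c (a (l 3) (c (l 8) (l 8))) (a (l 3) (b (c (l 8) (c (l 8) (l 8))) (c (l 8) (l 8)))))) (c (a (b (c (a (l 8) (l 10)) (a (l 8) (c (l 10) (l 10)))) (c (l 10) (a (l 8) (l 10)))) (b (c (a (c (l 2) (l 2)) (c (l 2) (l 2))) (a (c (l 2) (l 2)) (l 2))) (c (a (l 10) (c (l 2) (l 2))) (a (c (l 10) (l 10)) (c (l 2) (l 2)))))) (a (b (c (a (c (l 8) (l 8)) (c (l 10) (l 10))) (a (c (l 8) (l 8)) (l 10))) (c (a (l 8) (c (l 10) (l 10))) (a (c (l 8) (l 8)) (l 10)))) (c (b (l 2) (a (c (l 10) (l 10)) (l 2))) (a (l 10) (l 2)))))), by decide +kernel⟩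

theorem h4_2Bp : ∃ t, chk3 f2Bp t 1 7 3 = true :=
  ⟨(a (l 3) (c (a (b (c (l 10) (l 10)) (a (l 3) (a (l 3) (b (c (l 10) (l 10)) (c (l 8) (l 8)))))) (b (c (a (l 10) (l 2)) (a (l 10) (c (l 2) (l 2)))) (c (b (a (c (l 10) (l 10)) (l 2)) (a (l 10) (l 2))) (b (a (l 10) (c (l 2) (l 2))) (a (l 10) (l 2)))))) (b (a (c (a (l 8) (c (l 10) (l 10))) (a (c (l 8) (l 8)) (c (l 10) (l 10)))) (c (a (c (l 10) (a (l 10) (l 10))) (c (l 2) (l 2))) (a (l 10) (c (l 2) (l 2))))) (a (a (l 3) (a (l 3) (c (c (l 10) (l 10)) (c (l 10) (l 8))))) (c (a (b (c (l 10) (l 10)) (c (l 10) (l 10))) (b (c (l 2) (l 2)) (c (l 2) (l 2)))) (a (b (l 10) (c (l 10) (l 10))) (c (l 2) (l 2)))))))), by decide +kernel⟩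

theorem h5_2Bp : ∃ t, chk3 f2Bp t 1 3 3 = true := ex3_b h3_2Bp h4_2Bp

theorem h6_2Bp : ∃ t, chk3 f2Bp t 1 3 1 = true := ex3_c h2_2Bp h5_2Bp

theorem h7_2Bp : ∃ t, chk3 f2Bp t 1 2 1 = true := ex3_c h0_2Bp h1_2Bp

theorem h8_2Bp : ∃ t, chk3 f2Bp t 1 1 1 = true := ex3_b h7_2Bp h6_2Bp

theorem ct_2Bp : ∃ t, chk3 f2Bp t 1 1 1 = true := h8_2Bp

noncomputable def f2Bpk1 : ℕ → ℕ → ℕ → ℕ → Bool :=
  onCell 0 41943040 0 33554432 649613803 48318383 (c2_Bpk1.row false 20971520)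

theorem h0_2Bpk1 : ∃ t, chk3 f2Bpk1 t 1 2 2 = true :=
  ⟨(a (b (b (c (a (l 8) (l 10)) (a (l 8) (l 10))) (c (a (l 8) (l 8)) (a (l 8) (l 8)))) (c (a (l 8) (c (l 8) (l 8))) (a (l 8) (c (l 8) (l 8))))) (b (b (c (a (l 10) (c (l 2) (a (l 2) (c (l 2) (l 2))))) (a (b (c (l 10) (a (l 10) (l 2))) (c (l 10) (a (l 10) (l 2)))) (c (a (l 2) (l 2)) (l 2)))) (c (a (l 10) (c (l 2) (a (l 2) (l 2)))) (a (c (l 10) (a (l 10) (l 2))) (c (a (l 2) (l 2)) (a (l 2) (l 2)))))) (c (a (c (l 10) (l 10)) (c (l 2) (b (a (l 2) (l 2)) (l 2)))) (a (c (l 10) (a (l 10) (l 10))) (c (a (b (l 2) (l 2)) (b (l 2) (l 2))) (b (a (l 2) (l 2)) (a (l 2) (l 2)))))))), by decide +kernel⟩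

theorem h1_2Bpk1 : ∃ t, chk3 f2Bpk1 t 1 2 3 = true :=
  ⟨(a (b (b (c (a (c (l 8) (l 8)) (b (c (l 10) (a (l 8) (l 10))) (c (l 8) (a (l 8) (l 8))))) (a (b (c (a (l 8) (l 8)) (a (l 8) (l 8))) (c (a (l 8) (l 8)) (a (l 8) (l 8)))) (c (l 10) (l 10)))) (c (a (l 8) (c (a (l 8) (l 8)) (a (l 8) (l 8)))) (a (c (a (l 8) (l 8)) (a (l 8) (l 8))) (c (l 8) (l 8))))) (c (a (c (l 8) (l 8)) (c (l 8) (a (l 8) (l 8)))) (a (b (c (l 8) (a (l 3) (l 8))) (l 3)) (b (c (a (l 8) (l 8)) (a (l 8) (l 8))) (c (a (l 8) (l 8)) (a (l 8) (l 8))))))) (b (c (a (b (c (l 10) (l 10)) (c (l 10) (a (l 10) (l 2)))) (c (l 2) (l 2))) (b (a (l 10) (l 2)) (a (l 10) (l 2)))) (c (a (b (c (a (l 10) (l 10)) (a (l 10) (l 10))) (c (a (l 10) (l 10)) (a (l 10) (l 10)))) (c (b (a (l 2) (l 2)) (a (l 2) (l 2))) (l 2))) (a (b (l 10) (c (a (l 10) (l 10)) (l 10))) (c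 (l 2) (l 2)))))), by decide +kernel⟩

theorem h2_2Bpk1 : ∃ t, chk3 f2Bpk1 t 1 3 2 = true :=
  ⟨(a (b (a (l 3) (a (l 3) (c (l 8) (c (l 8) (l 8))))) (l 3)) (b (c (a (c (l 10) (l 10)) (c (a (l 2) (l 2)) (a (l 10) (l 2)))) (a (c (a (l 10) (l 10)) (a (l 10) (l 10))) (c (a (l 10) (l 2)) (b (a (l 2) (l 2)) (l 10))))) (c (a (b (c (l 10) (l 10)) (c (l 10) (l 10))) (b (c (l 10) (l 10)) (c (a (l 10) (l 2)) (a (l 10) (c (l 2) (l 2)))))) (a (b (c (l 10) (l 10)) (a (l 3) (c (l 10) (c (l 10) (l 10))))) (b (c (l 10) (l 10)) (b (c (l 10) (l 10)) (c (a (l 10) (l 2)) (a (l 10) (l 2))))))))), by decide +kernel⟩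

theorem h3_2Bpk1 : ∃ t, chk3 f2Bpk1 t 1 3 3 = true :=
  ⟨(a (b (a (l 3) (c (a (l 3) (c (l 8) (l 8))) (a (l 3) (b (c (l 8) (l 8)) (c (l 8) (l 8)))))) (l 3)) (b (c (a (c (a (l 8) (l 10)) (a (l 10) (b (l 10) (l 10)))) (b (c (a (l 2) (l 2)) (a (l 2) (l 2))) (c (a (l 10) (l 2)) (a (l 10) (l 2))))) (a (b (c (a (l 8) (l 10)) (a (l 8) (l 10))) (c (a (l 8) (l 10)) (a (l 8) (l 10)))) (c (b (l 2) (a (l 10) (l 2))) (a (l 10) (l 2))))) (c (a (b (c (l 10) (l 10)) (a (l 3) (b (l 10) (c (l 10) (l 10))))) (b (c (a (l 10) (l 2)) (a (l 10) (l 2))) (c (b (l 10) (a (l 10) (l 2))) (b (a (l 10) (l 2)) (a (l 10) (l 2)))))) (b (a (c (a (l 8) (l 10)) (a (l 8) (l 10))) (c (a (l 10) (l 2)) (l 10))) (a (a (l 3) (a (l 3) (b (c (l 8) (l 10)) (c (l 8) (l 8))))) (c (b (a (c (l 10) (l 10)) (c (l 2) (l 2))) (a (l 10) (l 2))) (b (a (c (l 10)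 (l 10)) (l 2)) (a (l 10) (l 2))))))))), by decide +kernel⟩

theorem h4_2Bpk1 : ∃ t, chk3 f2Bpk1 t 1 3 1 = true := ex3_c h2_2Bpk1 h3_2Bpk1

theorem h5_2Bpk1 : ∃ t, chk3 f2Bpk1 t 1 2 1 = true := ex3_c h0_2Bpk1 h1_2Bpk1

theorem h6_2Bpk1 : ∃ t, chk3 f2Bpk1 t 1 1 1 = true := ex3_b h5_2Bpk1 h4_2Bpk1

theorem ct_2Bpk1 : ∃ t, chk3 f2Bpk1 t 1 1 1 = true := h6_2Bpk1

noncomputable def f2Bpk2 : ℕ → ℕ → ℕ → ℕ → Bool :=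
  onCell 0 41943040 0 33554432 649613803 48318383 (c2_Bpk2.row false 20971520)

theorem h0_2Bpk2 : ∃ t, chk3 f2Bpk2 t 1 2 1 = true :=
  ⟨(c (a (b (b (c (l 10) (a (l 8) (l 10))) (c (l 8) (l 8))) (c (a (l 8) (l 8)) (a (l 8) (l 8)))) (b (b (c (a (l 10) (c (l 2) (a (l 2) (l 2)))) (a (c (l 10) (a (l 10) (l 2))) (c (a (l 2) (l 2)) (l 2)))) (c (a (l 10) (c (l 2) (a (l 2) (l 2)))) (a (c (l 10) (a (l 10) (l 2))) (c (a (l 2) (l 2)) (l 2))))) (c (a (l 10) (b (c (l 2) (l 2)) (l 2))) (a (b (c (l 10) (a (l 10) (l 10))) (l 10)) (c (a (l 2) (l 2)) (a (l 2) (l 2))))))) (a (b (b (c (a (l 8) (c (l 10) (a (l 8) (l 10)))) (a (c (l 8) (a (l 8) (l 8))) (c (l 10) (l 10)))) (c (a (l 8) (c (l 8) (a (l 8) (l 8)))) (a (c (l 8) (a (l 8) (l 8))) (c (l 8) (l 8))))) (c (a (l 8) (c (l 8) (a (l 8) (l 8)))) (a (b (c (l 8) (a (l 3) (l 8))) (l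 3)) (b (c (l 8) (l 8)) (c (l 8) (l 8)))))) (b (c (a (b (c (l 10) (l 10)) (c (l 10) (l 10))) (l 2)) (a (l 10) (l 2))) (c (a (b (c (l 10) (l 10)) (c (l 10) (l 10))) (c (a (l 2) (l 2)) (l 2))) (a (b (l 10) (c (a (l 10) (l 10)) (l 10))) (l 2)))))), by decide +kernel⟩

theorem h1_2Bpk2 : ∃ t, chk3 f2Bpk2 t 1 3 1 = true :=
  ⟨(c (a (b (a (l 3) (c (l 8) (l 8))) (l 3)) (b (c (a (l 10) (c (l 10) (l 10))) (a (c (l 10) (l 10)) (c (a (l 10) (l 2)) (b (l 2) (l 10))))) (c (a (c (l 10) (l 10)) (c (l 10) (a (l 10) (l 2)))) (a (c (l 10) (l 10)) (c (l 10) (l 10)))))) (a (b (a (l 3) (c (c (l 8) (l 8)) (a (l 3) (b (c (l 8) (l 8)) (l 8))))) (l 3)) (c (b (a (b (c (l 10) (l 10)) (c (l 10) (l 10))) (b (c (a (l 2) (l 2)) (a (l 2) (l 2))) (c (a (l 2) (l 2)) (a (l 10) (l 2))))) (a (c (l 10) (l 10)) (c (a (l 10) (l 2)) (a (l 10) (b (l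 2) (l 2)))))) (b (a (b (c (a (l 8) (l 10)) (a (l 8) (l 10))) (c (a (l 8) (l 10)) (a (l 8) (l 10)))) (c (b (l 2) (a (l 10) (l 2))) (l 10))) (a (c (a (l 8) (l 10)) (b (a (l 8) (l 10)) (a (l 3) (l 10)))) (b (c (a (l 10) (l 2)) (l 10)) (c (a (l 10) (l 2)) (a (l 10) (l 2))))))))), by decide +kernel⟩

theorem h2_2Bpk2 : ∃ t, chk3 f2Bpk2 t 1 1 1 = true := ex3_b h0_2Bpk2 h1_2Bpk2

theorem ct_2Bpk2 : ∃ t, chk3 f2Bpk2 t 1 1 1 = true := h2_2Bpk2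

noncomputable def f2Bpk3 : ℕ → ℕ → ℕ → ℕ → Bool :=
  onCell 0 41943040 0 33554432 649613803 48318383 (c2_Bpk3.row false 20971520)

theorem h0_2Bpk3 : ∃ t, chk3 f2Bpk3 t 1 2 1 = true :=
  ⟨(c (a (b (c (l 10) (a (l 8) (l 10))) (c (l 8) (l 8))) (b (b (c (a (l 10) (c (l 2) (l 2))) (b (a (c (l 10) (l 10)) (c (l 2) (l 2))) (a (c (l 10) (l 10)) (c (l 2) (l 2))))) (c (a (l 10) (c (l 2) (l 2))) (a (c (l 10) (l 10)) (c (l 2) (l 2))))) (c (a (l 10) (c (l 2) (l 2))) (a (b (c (l 10) (l 10)) (l 10)) (c (a (l 2) (l 2)) (l 2)))))) (a (b (b (c (a (l 8) (c (l 10) (l 10))) (a (c (l 8) (l 8)) (l 10))) (c (a (l 8) (c (l 8) (l 8))) (a (c (l 8) (l 8)) (l 8)))) (c (a (l 8) (c (l 8) (a (l 8) (l 8)))) (a (b (c (l 8) (l 8)) (l 3)) (c (l 8) (l 8))))) (b (c (a (c (l 10) (l 10)) (l 2)) (a (l 10) (l 2))) (c (b (a (l 10) (c (l 2) (l 2)))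 (a (c (l 10) (l 10)) (c (l 2) (l 2)))) (a (c (l 10) (l 10)) (l 2)))))), by decide +kernel⟩

theorem h1_2Bpk3 : ∃ t, chk3 f2Bpk3 t 1 3 1 = true :=
  ⟨(c (a (b (c (l 8) (a (l 3) (l 8))) (l 3)) (b (c (a (l 10) (l 10)) (a (l 10) (c (l 10) (l 10)))) (c (a (l 10) (l 10)) (a (l 10) (c (l 10) (l 10)))))) (a (b (a (l 3) (c (l 8) (c (l 8) (l 8)))) (l 3)) (c (b (a (c (l 10) (l 10)) (b (c (l 2) (l 2)) (c (l 10) (a (l 10) (l 2))))) (a (l 10) (c (l 10) (a (l 10) (l 2))))) (b (a (b (c (l 10) (l 10)) (c (l 10) (l 10))) (c (a (l 10) (l 2)) (l 10))) (a (c (l 10) (a (l 8) (l 10))) (b (c (l 10) (l 10)) (c (l 10) (l 10)))))))), by decide +kernel⟩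

theorem h2_2Bpk3 : ∃ t, chk3 f2Bpk3 t 1 1 1 = true := ex3_b h0_2Bpk3 h1_2Bpk3

theorem ct_2Bpk3 : ∃ t, chk3 f2Bpk3 t 1 1 1 = true := h2_2Bpk3

noncomputable def f2Bpk4 : ℕ → ℕ → ℕ → ℕ → Bool :=
  onCell 0 41943040 0 33554432 649613803 48318383 (c2_Bpk4.row false 20971520)

theorem h0_2Bpk4 : ∃ t, chk3 f2Bpk4 t 1 1 1 = true :=
  ⟨(b (c (a (c (l 10) (a (l 8) (l 10))) (b (b (c (a (l 10) (l 2)) (a (l 10) (c (l 2) (l 2)))) (c (a (l 10) (l 2)) (a (l 10) (c (l 2) (l 2))))) (c (a (l 10) (l 2)) (a (l 10) (c (l 2) (l 2)))))) (a (b (b (c (a (l 8) (l 10)) (a (l 8) (l 10))) (c (a (l 8) (l 8)) (a (l 8) (l 8)))) (c (a (l 8) (c (l 8) (l 8))) (a (c (l 8) (l 8)) (l 8)))) (b (c (a (l 10) (l 2)) (l 10)) (c (a (l 10) (c (l 2) (l 2))) (a (c (l 10) (l 10)) (l 2)))))) (c (a (c (l 8) (l 8)) (b (c (l 10) (a (l 10) (c (l 2) (l 10))))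 (c (l 10) (a (l 10) (l 10))))) (a (b (c (l 8) (a (l 3) (l 8))) (l 3)) (c (b (a (l 10) (c (l 10) (l 10))) (a (l 10) (c (l 10) (l 10)))) (b (a (c (l 10) (l 10)) (c (l 10) (l 10))) (a (c (l 10) (l 10)) (b (c (l 10) (l 10)) (c (l 10) (l 10))))))))), by decide +kernel⟩

theorem ct_2Bpk4 : ∃ t, chk3 f2Bpk4 t 1 1 1 = true := h0_2Bpk4

noncomputable def f2Bm : ℕ → ℕ → ℕ → ℕ → Bool :=
  onCell 0 41943040 0 33554432 649613803 48318383 (c2_Bm.row true 20971520)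

theorem h0_2Bm : ∃ t, chk3 f2Bm t 2 2 2 = true :=
  ⟨(b (c (a (c (l 8) (l 8)) (c (l 10) (l 10))) (a (c (l 8) (l 8)) (b (c (l 10) (a (l 8) (l 10))) (c (l 10) (a (l 8) (c (l 10) (l 10))))))) (c (a (c (l 10) (l 10)) (c (l 10) (a (l 10) (l 10)))) (a (b (c (l 8) (l 8)) (c (l 8) (a (l 8) (l 8)))) (c (a (l 10) (b (l 10) (l 2))) (b (a (l 10) (c (l 10) (l 10))) (a (l 10) (l 2))))))), by decide +kernel⟩

theorem h1_2Bm : ∃ t, chk3 f2Bm t 3 2 2 = true :=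
  ⟨(b (c (a (b (c (l 10) (l 10)) (c (l 2) (l 2))) (b (b (c (a (l 2) (l 2)) (a (c (l 2) (l 2)) (c (l 2) (l 2)))) (c (a (l 2) (c (l 2) (l 2))) (a (c (l 2) (l 2)) (l 2)))) (c (a (l 2) (a (l 2) (l 1))) (a (c (l 2) (l 2)) (l 2))))) (b (a (b (c (a (l 10) (c (l 2) (l 2))) (a (c (l 10) (l 10)) (l 2))) (c (a (l 2) (c (l 2) (l 2))) (a (c (l 2) (l 2)) (l 2)))) (c (a (b (c (l 2) (l 2)) (l 2)) (l 2)) (l 2))) (a (c (a (l 2) (c (l 2) (l 2))) (a (c (l 2) (l 2)) (l 2))) (c (a (l 2) (l 2)) (l 2))))) (c (a (b (c (l 2) (a (l 2) (l 2))) (c (a (l 2) (l 2)) (a (l 2) (l 2)))) (b (a (c (l 2) (l 2)) (l 1)) (l 1))) (a (b (c (a (c (l 2) (l 2)) (l 2)) (a (l 2) (l 2))) (c (a (l 2) (l 2)) (a (l 2) (l 2)))) (b (c (a (c (l 2) (l 2)) (l 1)) (l 2)) (l 1))))), by decide +kernel⟩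

theorem h2_2Bm : ∃ t, chk3 f2Bm t 2 2 3 = true :=
  ⟨(b (c (a (b (c (l 8) (a (l 8) (c (l 8) (l 8)))) (c (l 8) (a (l 8) (c (l 8) (a (l 8) (l 8)))))) (b (b (a (c (l 8) (c (l 8) (l 8))) (c (c (l 10) (l 10)) (l 10))) (a (c (l 8) (c (l 8) (l 8))) (c (c (l 10) (l 10)) (l 10)))) (c (a (c (l 8) (l 8)) (c (a (l 10) (l 10)) (l 10))) (a (l 8) (l 10))))) (a (b (b (c (a (l 8) (c (l 8) (l 8))) (a (c (l 8) (l 8)) (l 8))) (c (a (c (l 8) (l 8)) (c (l 8) (l 8))) (a (l 8) (l 8)))) (c (a (c (l 8) (a (l 8) (l 8))) (l 8)) (a (c (l 8) (l 8)) (l 8)))) (c (l 10) (a (l 8) (l 10))))) (c (a (c (b (a (l 8) (l 8)) (a (l 8) (l 8))) (a (b (l 8) (l 8)) (b (c (l 8) (l 8)) (l 8)))) (b (c (a (c (l 10) (l 10)) (c (l 10) (l 10))) (a (c (l 10) (l 10)) (l 10))) (c (a (l 10) (c (l 2) (l 2))) (a (c (l 10) (l 10)) (l 2))))) (a (b (c (a (l 8) (c (l 8)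 (l 8))) (a (c (l 8) (l 8)) (l 8))) (c (a (l 8) (c (l 8) (l 8))) (a (c (l 8) (l 8)) (l 8)))) (b (c (l 10) (l 10)) (c (l 10) (l 10)))))), by decide +kernel⟩

theorem h3_2Bm : ∃ t, chk3 f2Bm t 3 2 3 = true :=
  ⟨(b (c (b (a (c (l 10) (l 10)) (c (l 2) (l 2))) (a (c (l 2) (l 2)) (c (l 2) (l 2)))) (b (a (c (l 10) (l 10)) (l 2)) (a (c (l 2) (l 2)) (c (l 2) (l 2))))) (c (a (b (c (l 2) (l 2)) (c (l 2) (l 2))) (c (l 2) (l 2))) (a (c (l 2) (l 2)) (c (l 2) (l 2))))), by decide +kernel⟩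

theorem h4_2Bm : ∃ t, chk3 f2Bm t 1 3 2 = true :=
  ⟨(a (c (b (a (c (l 10) (a (l 8) (l 10))) (b (c (l 10) (a (l 10) (l 2))) (c (a (l 2) (l 2)) (a (l 2) (l 2))))) (a (b (c (l 10) (a (l 10) (l 10))) (c (l 10) (a (l 10) (l 2)))) (c (a (l 2) (l 2)) (a (l 2) (l 2))))) (b (a (b (c (a (l 8) (l 10)) (a (l 8) (l 10))) (c (a (l 8) (l 10)) (a (l 8) (l 10)))) (c (b (a (l 10) (l 2)) (l 2)) (a (l 10) (b (l 2) (l 2))))) (a (c (b (a (l 10) (l 10)) (a (l 10) (l 2))) (b (a (l 10) (l 10)) (l 10))) (c (a (l 2) (l 2)) (a (l 2) (b (l 2) (l 1))))))) (b (a (c (a (c (b (l 2) (l 2)) (l 2)) (l 1)) (a (c (l 2) (b (l 2) (l 2))) (l 1))) (l 1)) (l 1))), by decide +kernel⟩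

theorem h5_2Bm : ∃ t, chk3 f2Bm t 1 3 3 = true :=
  ⟨(a (b (c (a (c (b (a (l 8) (l 10)) (l 10)) (a (l 8) (b (l 10) (l 10)))) (c (a (b (l 10) (l 2)) (b (l 2) (l 2))) (a (b (c (l 10) (l 10)) (l 2)) (l 2)))) (a (c (a (b (l 8) (l 8)) (c (b (l 10) (l 10)) (l 10))) (a (c (b (l 8) (l 8)) (l 8)) (l 10))) (c (a (l 10) (l 2)) (a (l 10) (l 2))))) (c (a (c (b (l 10) (a (l 10) (l 10))) (a (b (l 10) (l 10)) (b (l 10) (l 10)))) (c (a (b (l 2) (l 2)) (b (l 2) (l 1))) (a (b (l 2) (l 2)) (l 2)))) (a (c (a (c (l 10) (b (l 10) (l 10))) (b (c (l 10) (l 10)) (l 10))) (a (b (c (l 10) (l 10)) (l 10)) (l 10))) (c (a (l 2) (l 2)) (a (l 2) (l 2)))))) (b (a (a (c (c (l 2) (l 2)) (c (l 2) (l 2))) (l 1)) (l 1)) (l 1))), by decide +kernel⟩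

theorem h6_2Bm : ∃ t, chk3 f2Bm t 1 3 1 = true := ex3_c h4_2Bm h5_2Bm

theorem h7_2Bm : ∃ t, chk3 f2Bm t 1 2 3 = true := ex3_a h2_2Bm h3_2Bm

theorem h8_2Bm : ∃ t, chk3 f2Bm t 1 2 2 = true := ex3_a h0_2Bm h1_2Bm

theorem h9_2Bm : ∃ t, chk3 f2Bm t 1 2 1 = true := ex3_c h8_2Bm h7_2Bm

theorem h10_2Bm : ∃ t, chk3 f2Bm t 1 1 1 = true := ex3_b h9_2Bm h6_2Bm

theorem ct_2Bm : ∃ t, chk3 f2Bm t 1 1 1 = true := h10_2Bm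

end Pool.Agent.Strip051.G.I6050_6500.Tab.Mo
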