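import Pool.Agent.Strip051.PB.StripQF
import Pool.Agent.Strip051.PB.StripC
import Pool.Agent.Strip051.G.I6050_6500.Fact

/-! # Facts about the strips of a table (generated) -/

set_option linter.all false
set_option maxRecDepth 4000

namespace Pool.Agent.Strip051.G.I6050_6500.Tab.St

open Pool.Agent.Strip051.PB Pool.Agent.StripNear Pool.Agent.Strip051.LC
open Pool.Agent.Strip051.G.I6050_6500.Tab

noncomputable def sl1 : Fn1 := ⟨_, _, fun h1 => (enc_norm (enc_subr 21091399 625000 (enc_scale 12252711 1000000 (enc_subr 251 400 h1))))⟩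
noncomputable def sv1 : Fn1 := ⟨_, _, fun h1 => (enc_norm (enc_subr 790545103 100000000 (enc_scale 22568317 10000000 (enc_subr 251 400 h1))))⟩
noncomputable def sw1 : Fn1 := ⟨_, _, fun h1 => (enc_norm (enc_subr 9100759 250000 (enc_scale 680717 50000 (enc_subr 251 400 h1))))⟩
noncomputable def sl2 : Fn1 := ⟨_, _, fun h1 => (enc_norm (enc_subr 20325693 4000000 (enc_neg (enc_scale 3 400000 (enc_subr 251 400 h1)))))⟩
noncomputable def sv2 : Fn1 := ⟨_, _, fun h1 => (enc_norm (enc_subr 14558677 10000000 (enc_neg (enc_scale 5000303 10000000 (enc_subr 251 400 h1)))))⟩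
noncomputable def sw2 : Fn1 := ⟨_, _, fun h1 => (enc_norm (enc_subr 4553241 1000000 (enc_scale 21 100000 (enc_subr 251 400 h1))))⟩
noncomputable def sl3 : Fn1 := ⟨_, _, fun h1 => (enc_norm (enc_subr 62318359 5000000 (enc_scale 3029 2000000 (enc_subr 251 400 h1))))⟩
noncomputable def sv3 : Fn1 := ⟨_, _, fun h1 => (enc_norm (enc_subr 36653967 12500000 (enc_neg (enc_scale 999451 2000000 (enc_subr 251 400 h1)))))⟩
noncomputable def sw3 : Fn1 := ⟨_, _, fun h1 => (enc_norm (enc_subr 3445263 250000 (enc_scale 211 100000 (enc_subr 251 400 h1))))⟩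
noncomputable def sl4 : Fn1 := ⟨_, _, fun h1 => (enc_norm (enc_subr 1351043 250000 (enc_neg (enc_scale 147 200000 (enc_subr 251 400 h1)))))⟩
noncomputable def sv4 : Fn1 := ⟨_, _, fun h1 => (enc_norm (enc_subr 169690493 100000000 (enc_neg (enc_scale 1250299 2500000 (enc_subr 251 400 h1)))))⟩
noncomputable def sw4 : Fn1 := ⟨_, _, fun h1 => (enc_norm (enc_subr 924013 250000 (enc_neg (enc_scale 11 10000 (enc_subr 251 400 h1)))))⟩
noncomputable def sl5 : Fn1 := ⟨_, _, fun h1 => (enc_norm (enc_add (enc_scale 9 25000 (enc_subr 251 400 h1)) (enc_rat _ 205025201 20000000)))⟩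
noncomputable def sv5 : Fn1 := ⟨_, _, fun h1 => (enc_norm (enc_sub (enc_rat _ 130281971 200000000) (enc_scale 4999549 10000000 (enc_subr 251 400 h1))))⟩
noncomputable def sw5 : Fn1 := ⟨_, _, fun h1 => (enc_norm (enc_add (enc_scale 9 12500 (enc_subr 251 400 h1)) (enc_rat _ 4479267 200000)))⟩
noncomputable def sl6 : Fn1 := ⟨_, _, fun h1 => (enc_norm (enc_add (enc_scale 7 1000000 (enc_subr 251 400 h1)) (enc_rat _ 121569939 10000000)))⟩
noncomputable def sv6 : Fn1 := ⟨_, _, fun h1 => (enc_norm (enc_sub (enc_rat _ 88962663 100000000) (enc_scale 2499997 5000000 (enc_subr 251 400 h1))))⟩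
noncomputable def sw6 : Fn1 := ⟨_, _, fun h1 => (enc_norm (enc_add (enc_scale 1 50000 (enc_subr 251 400 h1)) (enc_rat _ 13103901 500000)))⟩
noncomputable def sl7 : Fn1 := ⟨_, _, fun h1 => (enc_norm (enc_add (enc_scale 37400953 1000000 (enc_subr 251 400 h1)) (enc_rat _ 86004803 10000000)))⟩
noncomputable def sv7 : Fn1 := ⟨_, _, fun h1 => (enc_norm (enc_add (enc_scale 16200477 5000000 (enc_subr 251 400 h1)) (enc_rat _ 53397527 100000000)))⟩
noncomputable def sw7 : Fn1 := ⟨_, _, fun h1 => (enc_norm (enc_add (enc_scale 4675119 50000 (enc_subr 251 400 h1)) (enc_rat _ 8658259 500000)))⟩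
noncomputable def sl8 : Fn1 := ⟨_, _, fun h1 => (enc_norm (enc_sub (enc_rat _ 2699353 2500000) (enc_scale 3350239 200000 (enc_subr 251 400 h1))))⟩
noncomputable def sv8 : Fn1 := ⟨_, _, fun h1 => (enc_norm (enc_subr 3008017 100000000 (enc_neg (enc_scale 8213157 10000000 (enc_subr 251 400 h1)))))⟩
noncomputable def sw8 : Fn1 := ⟨_, _, fun h1 => (enc_norm (enc_subr 1938153 250000 (enc_neg (enc_scale 4350239 50000 (enc_subr 251 400 h1)))))⟩
noncomputable def sl9 : Fn1 := ⟨_, _, fun h1 => (enc_norm (enc_sub (enc_rat _ 6825191 5000000) (enc_scale 4061 6250 (enc_subr 251 400 h1))))⟩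
noncomputable def sv9 : Fn1 := ⟨_, _, fun h1 => (enc_norm (enc_subr 1581531 100000000 (enc_neg (enc_scale 4061 250000 (enc_subr 251 400 h1)))))⟩
noncomputable def sw9 : Fn1 := ⟨_, _, fun h1 => (enc_norm (enc_subr 395383 62500 (enc_neg (enc_scale 4061 625 (enc_subr 251 400 h1)))))⟩
noncomputable def sl10 : Fn1 := ⟨_, _, fun h1 => (enc_rat _ 4994127 2500000)⟩
noncomputable def sv10 : Fn1 := ⟨_, _, fun h1 => (enc_pnc _ 0)⟩
noncomputable def sl11 : Fn1 := ⟨_, _, fun h1 => (enc_norm (enc_sub (enc_rat _ 6825191 5000000) (enc_scale 4061 6250 (enc_subr 251 400 h1))))⟩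
noncomputable def sv11 : Fn1 := ⟨_, _, fun h1 => (enc_norm (enc_add (enc_scale 4061 250000 (enc_subr 251 400 h1)) (enc_rat _ 1581531 100000000)))⟩
noncomputable def sw11 : Fn1 := ⟨_, _, fun h1 => (enc_norm (enc_add (enc_scale 4061 625 (enc_subr 251 400 h1)) (enc_rat _ 395383 62500)))⟩
noncomputable def sl12 : Fn1 := ⟨_, _, fun h1 => (enc_norm (enc_sub (enc_rat _ 2699353 2500000) (enc_scale 3350239 200000 (enc_subr 251 400 h1))))⟩
noncomputable def sv12 : Fn1 := ⟨_, _, fun h1 => (enc_norm (enc_add (enc_scale 8213157 10000000 (enc_subr 251 400 h1)) (enc_rat _ 3008017 100000000)))⟩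
noncomputable def sw12 : Fn1 := ⟨_, _, fun h1 => (enc_norm (enc_add (enc_scale 4350239 50000 (enc_subr 251 400 h1)) (enc_rat _ 1938153 250000)))⟩
noncomputable def sl13 : Fn1 := ⟨_, _, fun h1 => (enc_norm (enc_add (enc_scale 37400953 1000000 (enc_subr 251 400 h1)) (enc_rat _ 86004803 10000000)))⟩
noncomputable def sv13 : Fn1 := ⟨_, _, fun h1 => (enc_norm (enc_subr 53397527 100000000 (enc_neg (enc_scale 16200477 5000000 (enc_subr 251 400 h1)))))⟩
noncomputable def sw13 : Fn1 := ⟨_, _, fun h1 => (enc_norm (enc_subr 8658259 500000 (enc_neg (enc_scale 4675119 50000 (enc_subr 251 400 h1)))))⟩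
noncomputable def sl14 : Fn1 := ⟨_, _, fun h1 => (enc_norm (enc_add (enc_scale 7 1000000 (enc_subr 251 400 h1)) (enc_rat _ 121569939 10000000)))⟩
noncomputable def sv14 : Fn1 := ⟨_, _, fun h1 => (enc_norm (enc_subr 88962663 100000000 (enc_scale 2499997 5000000 (enc_subr 251 400 h1))))⟩
noncomputable def sw14 : Fn1 := ⟨_, _, fun h1 => (enc_norm (enc_subr 13103901 500000 (enc_neg (enc_scale 1 50000 (enc_subr 251 400 h1)))))⟩
noncomputable def sl15 : Fn1 := ⟨_, _, fun h1 => (enc_norm (enc_add (enc_scale 9 25000 (enc_subr 251 400 h1)) (enc_rat _ 205025201 20000000)))⟩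
noncomputable def sv15 : Fn1 := ⟨_, _, fun h1 => (enc_norm (enc_subr 130281971 200000000 (enc_scale 4999549 10000000 (enc_subr 251 400 h1))))⟩
noncomputable def sw15 : Fn1 := ⟨_, _, fun h1 => (enc_norm (enc_subr 4479267 200000 (enc_neg (enc_scale 9 12500 (enc_subr 251 400 h1)))))⟩
noncomputable def sl16 : Fn1 := ⟨_, _, fun h1 => (enc_norm (enc_subr 1351043 250000 (enc_neg (enc_scale 147 200000 (enc_subr 251 400 h1)))))⟩
noncomputable def sv16 : Fn1 := ⟨_, _, fun h1 => (enc_norm (enc_add (enc_scale 1250299 2500000 (enc_subr 251 400 h1)) (enc_rat _ 169690493 100000000)))⟩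
noncomputable def sw16 : Fn1 := ⟨_, _, fun h1 => (enc_norm (enc_add (enc_scale 11 10000 (enc_subr 251 400 h1)) (enc_rat _ 924013 250000)))⟩
noncomputable def sl17 : Fn1 := ⟨_, _, fun h1 => (enc_norm (enc_subr 62318359 5000000 (enc_scale 3029 2000000 (enc_subr 251 400 h1))))⟩
noncomputable def sv17 : Fn1 := ⟨_, _, fun h1 => (enc_norm (enc_add (enc_scale 999451 2000000 (enc_subr 251 400 h1)) (enc_rat _ 36653967 12500000)))⟩
noncomputable def sw17 : Fn1 := ⟨_, _, fun h1 => (enc_norm (enc_sub (enc_rat _ 3445263 250000) (enc_scale 211 100000 (enc_subr 251 400 h1))))⟩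
noncomputable def sl18 : Fn1 := ⟨_, _, fun h1 => (enc_norm (enc_subr 20325693 4000000 (enc_neg (enc_scale 3 400000 (enc_subr 251 400 h1)))))⟩
noncomputable def sv18 : Fn1 := ⟨_, _, fun h1 => (enc_norm (enc_add (enc_scale 5000303 10000000 (enc_subr 251 400 h1)) (enc_rat _ 14558677 10000000)))⟩
noncomputable def sw18 : Fn1 := ⟨_, _, fun h1 => (enc_norm (enc_sub (enc_rat _ 4553241 1000000) (enc_scale 21 100000 (enc_subr 251 400 h1))))⟩
noncomputable def sl19 : Fn1 := ⟨_, _, fun h1 => (enc_norm (enc_subr 21091399 625000 (enc_scale 12252711 1000000 (enc_subr 251 400 h1))))⟩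
noncomputable def sv19 : Fn1 := ⟨_, _, fun h1 => (enc_norm (enc_sub (enc_rat _ 790545103 100000000) (enc_scale 22568317 10000000 (enc_subr 251 400 h1))))⟩
noncomputable def sw19 : Fn1 := ⟨_, _, fun h1 => (enc_norm (enc_sub (enc_rat _ 9100759 250000) (enc_scale 680717 50000 (enc_subr 251 400 h1))))⟩
noncomputable def sl38 : Fn1 := ⟨_, _, fun h1 => (enc_norm (enc_sub (enc_rat _ 210811583 150000000) (enc_scale 307396613 30000000 (enc_subr 251 400 h1))))⟩
noncomputable def sv38 : Fn1 := ⟨_, _, fun h1 => (enc_norm (enc_sub (enc_rat _ 108524633 300000000) (enc_scale 149860163 60000000 (enc_subr 251 400 h1))))⟩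
noncomputable def sw38 : Fn1 := ⟨_, _, fun h1 => (enc_norm (enc_sub (enc_rat _ 681913 500000) (enc_scale 1050243 100000 (enc_subr 251 400 h1))))⟩
noncomputable def sl39 : Fn1 := ⟨_, _, fun h1 => (enc_norm (enc_sub (enc_rat _ 1141513 3000000) (enc_scale 322068583 30000000 (enc_subr 251 400 h1))))⟩
noncomputable def sv39 : Fn1 := ⟨_, _, fun h1 => (enc_norm (enc_sub (enc_rat _ 906719 7500000) (enc_scale 244931287 93750000 (enc_subr 251 400 h1))))⟩
noncomputable def sw39 : Fn1 := ⟨_, _, fun h1 => (enc_norm (enc_sub (enc_rat _ 547 2000) (enc_scale 1102271 100000 (enc_subr 251 400 h1))))⟩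
noncomputable def sl40 : Fn1 := ⟨_, _, fun h1 => (enc_norm (enc_subr 5798971 3125000 (enc_scale 21131133 10000000 (enc_subr 251 400 h1))))⟩
noncomputable def sv40 : Fn1 := ⟨_, _, fun h1 => (enc_norm (enc_subr 46382831 125000000 (enc_scale 5353033 25000000 (enc_subr 251 400 h1))))⟩
noncomputable def sw40 : Fn1 := ⟨_, _, fun h1 => (enc_norm (enc_subr 283451 125000 (enc_scale 89453 25000 (enc_subr 251 400 h1))))⟩
noncomputable def sl41 : Fn1 := ⟨_, _, fun h1 => (enc_norm (enc_subr 28861553 100000000 (enc_neg (enc_scale 171353831 30000000 (enc_subr 251 400 h1)))))⟩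
noncomputable def sv41 : Fn1 := ⟨_, _, fun h1 => (enc_norm (enc_subr 14412903 250000000 (enc_neg (enc_scale 101314571 75000000 (enc_subr 251 400 h1)))))⟩
noncomputable def sw41 : Fn1 := ⟨_, _, fun h1 => (enc_norm (enc_subr 308789 1000000 (enc_neg (enc_scale 620301 100000 (enc_subr 251 400 h1)))))⟩
noncomputable def sl42 : Fn1 := ⟨_, _, fun h1 => (enc_norm (enc_add (enc_scale 8604249 2000000 (enc_subr 251 400 h1)) (enc_rat _ 1311069 2500000)))⟩
noncomputable def sv42 : Fn1 := ⟨_, _, fun h1 => (enc_norm (enc_add (enc_scale 250857213 500000000 (enc_subr 251 400 h1)) (enc_rat _ 463806789 5000000000)))⟩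
noncomputable def sw42 : Fn1 := ⟨_, _, fun h1 => (enc_norm (enc_add (enc_scale 732931 100000 (enc_subr 251 400 h1)) (enc_rat _ 394959 500000)))⟩
noncomputable def sl43 : Fn1 := ⟨_, _, fun h1 => (enc_norm (enc_subr 16655823 12500000 (enc_scale 43406697 2000000 (enc_subr 251 400 h1))))⟩
noncomputable def sv43 : Fn1 := ⟨_, _, fun h1 => (enc_norm (enc_subr 2136260499 10000000000 (enc_scale 674583297 200000000 (enc_subr 251 400 h1))))⟩
noncomputable def sw43 : Fn1 := ⟨_, _, fun h1 => (enc_norm (enc_subr 2023557 1000000 (enc_scale 84237 2500 (enc_subr 251 400 h1))))⟩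
noncomputable def sl44 : Fn1 := ⟨_, _, fun h1 => (enc_norm (enc_sub (enc_rat _ 9880697 5000000) (enc_scale 96680123 5000000 (enc_subr 251 400 h1))))⟩
noncomputable def sv44 : Fn1 := ⟨_, _, fun h1 => (enc_norm (enc_sub (enc_rat _ 106448677 400000000) (enc_scale 12888963 5000000 (enc_subr 251 400 h1))))⟩
noncomputable def sw44 : Fn1 := ⟨_, _, fun h1 => (enc_norm (enc_sub (enc_rat _ 736187 200000) (enc_scale 1853137 50000 (enc_subr 251 400 h1))))⟩
noncomputable def sl45 : Fn1 := ⟨_, _, fun h1 => (enc_norm (enc_add (enc_scale 457738843 30000000 (enc_subr 251 400 h1)) (enc_rat _ 20008767 10000000)))⟩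
noncomputable def sv45 : Fn1 := ⟨_, _, fun h1 => (enc_norm (enc_add (enc_scale 104787347 60000000 (enc_subr 251 400 h1)) (enc_rat _ 26921383 100000000)))⟩
noncomputable def sw45 : Fn1 := ⟨_, _, fun h1 => (enc_norm (enc_add (enc_scale 3212523 100000 (enc_subr 251 400 h1)) (enc_rat _ 373041 100000)))⟩
noncomputable def sl46 : Fn1 := ⟨_, _, fun h1 => (enc_norm (enc_sub (enc_rat _ 10619781 10000000) (enc_scale 2271141 1000000 (enc_subr 251 400 h1))))⟩
noncomputable def sv46 : Fn1 := ⟨_, _, fun h1 => (enc_norm (enc_sub (enc_rat _ 207418763 1250000000) (enc_scale 45436361 250000000 (enc_subr 251 400 h1))))⟩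
noncomputable def sw46 : Fn1 := ⟨_, _, fun h1 => (enc_norm (enc_sub (enc_rat _ 1596549 1000000) (enc_scale 192841 25000 (enc_subr 251 400 h1))))⟩
noncomputable def sl47 : Fn1 := ⟨_, _, fun h1 => (enc_norm (enc_sub (enc_rat _ 18907491 50000000) (enc_scale 35324457 10000000 (enc_subr 251 400 h1))))⟩
noncomputable def sv47 : Fn1 := ⟨_, _, fun h1 => (enc_norm (enc_sub (enc_rat _ 260976163 2500000000) (enc_scale 147631501 500000000 (enc_subr 251 400 h1))))⟩
noncomputable def sw47 : Fn1 := ⟨_, _, fun h1 => (enc_norm (enc_subr 151487 500000 (enc_neg (enc_scale 560863 50000 (enc_subr 251 400 h1)))))⟩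
noncomputable def sl48 : Fn1 := ⟨_, _, fun h1 => (enc_norm (enc_add (enc_scale 183673 300000 (enc_subr 251 400 h1)) (enc_rat _ 1959229 6000000)))⟩
noncomputable def sv48 : Fn1 := ⟨_, _, fun h1 => (enc_norm (enc_sub (enc_rat _ 755832469 7500000000) (enc_scale 770213 150000000 (enc_subr 251 400 h1))))⟩
noncomputable def sw48 : Fn1 := ⟨_, _, fun h1 => (enc_norm (enc_subr 243651 500000 (enc_scale 8963 2500 (enc_subr 251 400 h1))))⟩
noncomputable def sl49 : Fn1 := ⟨_, _, fun h1 => (enc_norm (enc_add (enc_scale 8640051 10000000 (enc_subr 251 400 h1)) (enc_rat _ 29569443 100000000)))⟩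
noncomputable def sv49 : Fn1 := ⟨_, _, fun h1 => (enc_norm (enc_add (enc_scale 2178041 250000000 (enc_subr 251 400 h1)) (enc_rat _ 15481443 156250000)))⟩
noncomputable def sw49 : Fn1 := ⟨_, _, fun h1 => (enc_norm (enc_subr 627499 1000000 (enc_scale 472957 100000 (enc_subr 251 400 h1))))⟩
noncomputable def sl50 : Fn1 := ⟨_, _, fun h1 => (enc_norm (enc_add (enc_scale 634151 1000000 (enc_subr 251 400 h1)) (enc_rat _ 539817 2000000)))⟩
noncomputable def sv50 : Fn1 := ⟨_, _, fun h1 => (enc_norm (enc_add (enc_scale 333623 500000000 (enc_subr 251 400 h1)) (enc_rat _ 196357463 2000000000)))⟩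
noncomputable def sw50 : Fn1 := ⟨_, _, fun h1 => (enc_norm (enc_subr 162337 200000 (enc_scale 38597 12500 (enc_subr 251 400 h1))))⟩
noncomputable def sl51 : Fn1 := ⟨_, _, fun h1 => (enc_norm (enc_add (enc_scale 627558740527 1056963250000 (enc_subr 251 400 h1)) (enc_rat _ 122234428036571617 464641044700000000)))⟩
noncomputable def sv51 : Fn1 := ⟨_, _, fun h1 => (enc_norm (enc_add (enc_scale 4032688 66060203125 (enc_subr 251 400 h1)) (enc_rat _ 91140452505244343 929282089400000000)))⟩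
noncomputable def sw51 : Fn1 := ⟨_, _, fun h1 => (enc_norm (enc_subr 925613 1000000 (enc_scale 12071 5000 (enc_subr 251 400 h1))))⟩
noncomputable def sl53_2 : Fn1 := ⟨_, _, fun h1 => (enc_subr 251 400 h1)⟩
noncomputable def sl53 : Fn1 := ⟨_, _, fun h1 => (enc_norm (enc_add (enc_add (enc_scale 4141079173072883 20136082850000000 (sl53_2.enc h1)) (enc_rat _ 177346690222346609 402721657000000000)) (enc_scale 118591774986591 60107710000000 (enc_sq (enc_norm (sl53_2.enc h1))))))⟩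
noncomputable def sv53_2 : Fn1 := ⟨_, _, fun h1 => (enc_subr 251 400 h1)⟩
noncomputable def sv53 : Fn1 := ⟨_, _, fun h1 => (enc_norm (enc_sub (enc_add (enc_scale 53191190884331 3097858900000000 (sv53_2.enc h1)) (enc_rat _ 557966108929693 6195717800000000)) (enc_scale 840769910073 9247340000000 (enc_sq (enc_norm (sv53_2.enc h1))))))⟩
noncomputable def sw53_2 : Fn1 := ⟨_, _, fun h1 => (enc_subr 251 400 h1)⟩
noncomputable def sw53 : Fn1 := ⟨_, _, fun h1 => (enc_norm (enc_sub (enc_subr 1972461 1000000 (enc_scale 131293 50000 (sw53_2.enc h1))) (enc_scale 102213 10000 (enc_sq (enc_norm (sw53_2.enc h1))))))⟩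
noncomputable def sl54_2 : Fn1 := ⟨_, _, fun h1 => (enc_subr 251 400 h1)⟩
noncomputable def sl54 : Fn1 := ⟨_, _, fun h1 => (enc_norm (enc_sub (enc_add (enc_scale 525004919 412500000 (sl54_2.enc h1)) (enc_rat _ 4867922199 11000000000)) (enc_scale 4640193 5000000 (enc_sq (enc_norm (sl54_2.enc h1))))))⟩
noncomputable def sv54_2 : Fn1 := ⟨_, _, fun h1 => (enc_subr 251 400 h1)⟩
noncomputable def sv54 : Fn1 := ⟨_, _, fun h1 => (enc_norm (enc_add (enc_sub (enc_rat _ 19784582453 220000000000) (enc_scale 124449269 2750000000 (sv54_2.enc h1))) (enc_scale 6100029 100000000 (enc_sq (enc_norm (sv54_2.enc h1))))))⟩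
noncomputable def sw54_2 : Fn1 := ⟨_, _, fun h1 => (enc_subr 251 400 h1)⟩
noncomputable def sw54 : Fn1 := ⟨_, _, fun h1 => (enc_norm (enc_add (enc_subr 1981727 1000000 (enc_neg (enc_scale 24179 12500 (sw54_2.enc h1)))) (enc_scale 17379 5000 (enc_sq (enc_norm (sw54_2.enc h1))))))⟩
noncomputable def sl55 : Fn1 := ⟨_, _, fun h1 => (enc_norm (enc_add (enc_scale 2935277 400000 (enc_subr 251 400 h1)) (enc_rat _ 12858223 20000000)))⟩
noncomputable def sv55 : Fn1 := ⟨_, _, fun h1 => (enc_norm (enc_sub (enc_rat _ 14980387 200000000) (enc_scale 20006529 40000000 (enc_subr 251 400 h1))))⟩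
noncomputable def sw55 : Fn1 := ⟨_, _, fun h1 => (enc_norm (enc_subr 529927 200000 (enc_neg (enc_scale 8861 400 (enc_subr 251 400 h1)))))⟩
noncomputable def sl56 : Fn1 := ⟨_, _, fun h1 => (enc_norm (enc_subr 1030641 3125000 (enc_scale 6934631 10000000 (enc_subr 251 400 h1))))⟩
noncomputable def sv56 : Fn1 := ⟨_, _, fun h1 => (enc_norm (enc_add (enc_scale 32771517 250000000 (enc_subr 251 400 h1)) (enc_rat _ 418275011 2500000000)))⟩
noncomputable def sw56 : Fn1 := ⟨_, _, fun h1 => (enc_norm (enc_subr 1404 15625 (enc_neg (enc_scale 466637 100000 (enc_subr 251 400 h1)))))⟩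
noncomputable def sl57 : Fn1 := ⟨_, _, fun h1 => (enc_norm (enc_subr 95546923 100000000 (enc_neg (enc_scale 194610361 10000000 (enc_subr 251 400 h1)))))⟩
noncomputable def sv57 : Fn1 := ⟨_, _, fun h1 => (enc_norm (enc_add (enc_scale 637406493 250000000 (enc_subr 251 400 h1)) (enc_rat _ 605974229 2500000000)))⟩
noncomputable def sw57 : Fn1 := ⟨_, _, fun h1 => (enc_norm (enc_add (enc_scale 3732217 100000 (enc_subr 251 400 h1)) (enc_rat _ 1213611 1000000)))⟩
noncomputable def sl58 : Fn1 := ⟨_, _, fun h1 => (enc_norm (enc_add (enc_scale 137412969 10000000 (enc_subr 251 400 h1)) (enc_rat _ 89109417 100000000)))⟩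
noncomputable def sv58 : Fn1 := ⟨_, _, fun h1 => (enc_norm (enc_subr 126810007 5000000000 (enc_neg (enc_scale 1132356229 500000000 (enc_subr 251 400 h1)))))⟩
noncomputable def sw58 : Fn1 := ⟨_, _, fun h1 => (enc_norm (enc_subr 1970119 1000000 (enc_neg (enc_scale 1992323 100000 (enc_subr 251 400 h1)))))⟩
noncomputable def sl59 : Fn1 := ⟨_, _, fun h1 => (enc_norm (enc_subr 23242319 12500000 (enc_scale 25037519 10000000 (enc_subr 251 400 h1))))⟩
noncomputable def sv59 : Fn1 := ⟨_, _, fun h1 => (enc_norm (enc_sub (enc_rat _ 552774443 1250000000) (enc_scale 177164819 500000000 (enc_subr 251 400 h1))))⟩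
noncomputable def sw59 : Fn1 := ⟨_, _, fun h1 => (enc_norm (enc_sub (enc_rat _ 129669 62500) (enc_scale 339743 100000 (enc_subr 251 400 h1))))⟩
noncomputable def sl60 : Fn1 := ⟨_, _, fun h1 => (enc_norm (enc_add (enc_scale 32650641 10000000 (enc_subr 251 400 h1)) (enc_rat _ 39125367 50000000)))⟩
noncomputable def sv60 : Fn1 := ⟨_, _, fun h1 => (enc_norm (enc_subr 45593483 625000000 (enc_neg (enc_scale 31424107 62500000 (enc_subr 251 400 h1)))))⟩
noncomputable def sw60 : Fn1 := ⟨_, _, fun h1 => (enc_norm (enc_subr 656169 500000 (enc_neg (enc_scale 437347 100000 (enc_subr 251 400 h1)))))⟩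
noncomputable def sl61 : Fn1 := ⟨_, _, fun h1 => (enc_norm (enc_subr 241239013 150000000 (enc_scale 36472999 3000000 (enc_subr 251 400 h1))))⟩
noncomputable def sv61 : Fn1 := ⟨_, _, fun h1 => (enc_norm (enc_sub (enc_rat _ 33976447 75000000) (enc_scale 14754949 6000000 (enc_subr 251 400 h1))))⟩
noncomputable def sw61 : Fn1 := ⟨_, _, fun h1 => (enc_norm (enc_sub (enc_rat _ 1404443 1000000) (enc_scale 144787 10000 (enc_subr 251 400 h1))))⟩
noncomputable def skf0 : Fn2 := ⟨_, _, fun h1 h2 => (enc_norm (enc_add (bf1q0.enc h1 h2) (enc_mul (enc_norm (enc_sub (enc_mul (c1g.enc h1) (bf1q0.enc h1 h2)) (kf0q0.enc h1 h2))) (enc_inv (enc_sub (cv1m.enc h1) (c1g.enc h1))))))⟩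
noncomputable def sxf0 : Fn2 := ⟨_, _, fun h1 h2 => (enc_norm (enc_mul (enc_norm (enc_sub (l1q0.enc h1 h2) (l0q0.enc h1 h2))) (enc_inv (enc_sub (cv1m.enc h1) (c1g.enc h1)))))⟩
noncomputable def skl0 : Fn2 := ⟨_, _, fun h1 h2 => (enc_norm (enc_add (bf7q0.enc h1 h2) (enc_mul (enc_norm (enc_sub (kf8q0.enc h1 h2) (enc_mul (c3g.enc h1) (bf7q0.enc h1 h2)))) (enc_inv (enc_sub (c3g.enc h1) (cv7m.enc h1))))))⟩
noncomputable def sxl0 : Fn2 := ⟨_, _, fun h1 h2 => (enc_norm (enc_mul (enc_norm (enc_sub (l8q0.enc h1 h2) (l7q0.enc h1 h2))) (enc_inv (enc_sub (c3g.enc h1) (cv7m.enc h1)))))⟩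
noncomputable def skf1 : Fn2 := ⟨_, _, fun h1 h2 => (enc_norm (enc_add (bf1q1.enc h1 h2) (enc_mul (enc_norm (enc_sub (enc_mul (c1g.enc h1) (bf1q1.enc h1 h2)) (kf0q1.enc h1 h2))) (enc_inv (enc_sub (cv1m.enc h1) (c1g.enc h1))))))⟩
noncomputable def sxf1 : Fn2 := ⟨_, _, fun h1 h2 => (enc_norm (enc_mul (enc_norm (enc_sub (l1q1.enc h1 h2) (l0q1.enc h1 h2))) (enc_inv (enc_sub (cv1m.enc h1) (c1g.enc h1)))))⟩
noncomputable def skl1 : Fn2 := ⟨_, _, fun h1 h2 => (enc_norm (enc_add (bf7q1.enc h1 h2) (enc_mul (enc_norm (enc_sub (kf8q1.enc h1 h2) (enc_mul (c3g.enc h1) (bf7q1.enc h1 h2)))) (enc_inv (enc_sub (c3g.enc h1) (cv7m.enc h1))))))⟩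
noncomputable def sxl1 : Fn2 := ⟨_, _, fun h1 h2 => (enc_norm (enc_mul (enc_norm (enc_sub (l8q1.enc h1 h2) (l7q1.enc h1 h2))) (enc_inv (enc_sub (c3g.enc h1) (cv7m.enc h1)))))⟩
noncomputable def skf2 : Fn2 := ⟨_, _, fun h1 h2 => (enc_norm (enc_add (bf1q2.enc h1 h2) (enc_mul (enc_norm (enc_add (enc_mul (c1g.enc h1) (enc_norm (enc_subn 1 (bf1q2.enc h1 h2)))) (enc_mul (enc_norm (enc_subn 1 h1)) (kcg.enc (c1g.enc h1) h2)))) (enc_inv (enc_sub (cv1p.enc h1) (c1g.enc h1))))))⟩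
noncomputable def sxf2 : Fn2 := ⟨_, _, fun h1 h2 => (enc_norm (enc_mul (enc_norm (enc_sub (l1q2.enc h1 h2) (l0q2.enc h1 h2))) (enc_inv (enc_sub (cv1p.enc h1) (c1g.enc h1)))))⟩
noncomputable def skl2 : Fn2 := ⟨_, _, fun h1 h2 => (enc_norm (enc_add (bf7q2.enc h1 h2) (enc_mul (enc_norm (enc_sub (kf8q2.enc h1 h2) (enc_mul (c3g.enc h1) (bf7q2.enc h1 h2)))) (enc_inv (enc_sub (c3g.enc h1) (cv7p.enc h1))))))⟩
noncomputable def sxl2 : Fn2 := ⟨_, _, fun h1 h2 => (enc_norm (enc_mul (enc_norm (enc_sub (l8q2.enc h1 h2) (l7q2.enc h1 h2))) (enc_inv (enc_sub (c3g.enc h1) (cv7p.enc h1)))))⟩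
noncomputable def skl3 : Fn2 := ⟨_, _, fun h1 h2 => (enc_norm (enc_add (bf7q3.enc h1 h2) (enc_mul (enc_norm (enc_sub (kf8q3.enc h1 h2) (enc_mul (c3g.enc h1) (bf7q3.enc h1 h2)))) (enc_inv (enc_sub (c3g.enc h1) (cv7r.enc h1))))))⟩
noncomputable def sxl3 : Fn2 := ⟨_, _, fun h1 h2 => (enc_norm (enc_mul (enc_norm (enc_sub (l8q3.enc h1 h2) (l7q3.enc h1 h2))) (enc_inv (enc_sub (c3g.enc h1) (cv7r.enc h1)))))⟩
noncomputable def rhk : Fn2 := ⟨_, _, fun h1 h2 => (enc_norm (enc_mul (enc_norm (enc_sub (bf1q2.enc h1 h2) (n0b.enc h1 h2))) (enc_norm (enc_mul (cv1p.enc h1) (enc_inv (enc_sub (cv1p.enc h1) (c1g.enc h1)))))))⟩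
noncomputable def rhx : Fn2 := ⟨_, _, fun h1 h2 => (enc_norm (enc_mul (enc_norm (enc_sub (bx1q2.enc h1 h2) (n0x.enc h1 h2))) (enc_norm (enc_mul (cv1p.enc h1) (enc_inv (enc_sub (cv1p.enc h1) (c1g.enc h1)))))))⟩
noncomputable def sbk : Fn1 := ⟨_, _, fun h1 => (enc_norm (enc_subr 92969 28750 (enc_scale 63967 5750 (enc_subr 251 400 h1))))⟩
noncomputable def sbx : Fn1 := ⟨_, _, fun h1 => (enc_norm (enc_sub (enc_rat _ 13497 5000) (enc_scale 69367 5750 (enc_subr 251 400 h1))))⟩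
noncomputable def frw : Fn1 := ⟨_, _, fun h1 => (enc_norm (enc_scale 2 25 (enc_sub (enc_subr 1 2 (swg.enc h1)) (c1g.enc h1))))⟩
noncomputable def q1k : Fn1 := ⟨_, _, fun h1 => (enc_norm (enc_subr 3563 12500 (enc_neg (enc_scale 47 200 (enc_subr 251 400 h1)))))⟩
noncomputable def q1x : Fn1 := ⟨_, _, fun h1 => (enc_norm (enc_add (enc_scale 9243 2500 (enc_subr 251 400 h1)) (enc_rat _ 8023 50000)))⟩
noncomputable def a2k0 : Fn1 := ⟨_, _, fun h1 => (enc_norm (enc_sub (enc_rat _ 644267 1000000) (enc_scale 35099 50000 (enc_subr 251 400 h1))))⟩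
noncomputable def a2k1 : Fn1 := ⟨_, _, fun h1 => (enc_norm (enc_subr 3021 25000 (enc_scale 9213 1250 (enc_subr 251 400 h1))))⟩
noncomputable def b2k0 : Fn1 := ⟨_, _, fun h1 => (enc_norm (enc_sub (enc_rat _ 40559 62500) (enc_scale 35957 50000 (enc_subr 251 400 h1))))⟩
noncomputable def b2k1 : Fn1 := ⟨_, _, fun h1 => (enc_norm (enc_subr 634521 116000 (enc_scale 61269 2900 (enc_subr 251 400 h1))))⟩
noncomputable def a2x0 : Fn1 := ⟨_, _, fun h1 => (enc_norm (enc_subr 495693 1000000 (enc_neg (enc_scale 95383 100000 (enc_subr 251 400 h1)))))⟩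
noncomputable def a2x1 : Fn1 := ⟨_, _, fun h1 => (enc_norm (enc_add (enc_scale 4729 1250 (enc_subr 251 400 h1)) (enc_rat _ 9717 10000)))⟩
noncomputable def b2x0 : Fn1 := ⟨_, _, fun h1 => (enc_norm (enc_subr 62181 125000 (enc_neg (enc_scale 23761 25000 (enc_subr 251 400 h1)))))⟩
noncomputable def b2x1 : Fn1 := ⟨_, _, fun h1 => (enc_norm (enc_sub (enc_rat _ 146979 58000) (enc_scale 2073 400 (enc_subr 251 400 h1))))⟩
noncomputable def k0c : Fn1 := ⟨_, _, fun h1 => (enc_rat _ 4994127 2500000)⟩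
noncomputable def m0c : Fn1 := ⟨_, _, fun h1 => (enc_norm (enc_subr 122234428036571617 232320522350000000 (enc_neg (enc_scale 627558740527 528481625000 (enc_subr 251 400 h1)))))⟩
noncomputable def sl85 : Fn1 := ⟨_, _, fun h1 => (enc_pnc _ 0)⟩
noncomputable def sv85 : Fn1 := ⟨_, _, fun h1 => (enc_pnc _ 0)⟩
noncomputable def kqf : Fn2 := ⟨_, _, fun h1 h2 => (enc_norm (enc_mul (enc_norm (enc_subn 1 h1)) (enc_norm (enc_case (enc_subr 1 20 (c1g.enc h1)) (enc_rat _ 4994127 2500000) (enc_mul (kcg.enc (c1g.enc h1) h2) (enc_inv (c1g.enc h1)))))))⟩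
noncomputable def skm : Fn2 := ⟨_, _, fun h1 h2 => (enc_norm (enc_sub (enc_mul (enc_norm (enc_mul (cv1p.enc h1) (enc_inv (enc_sub (cv1p.enc h1) (c1g.enc h1))))) (enc_norm (enc_add (enc_subn 1 (bf1q2.enc h1 h2)) (kqf.enc h1 h2)))) (kqf.enc h1 h2)))⟩
noncomputable def cv1pA : Fn2 := ⟨_, _, fun h1 h2 => (enc_norm (enc_add (enc_scale 23 25 h1) (enc_scale 2 25 (enc_subr 1 2 (swg.enc h2)))))⟩
noncomputable def cv2pA : Fn2 := ⟨_, _, fun h1 h2 => (enc_norm (enc_add (enc_scale 3 4 h1) (enc_scale 1 4 (enc_subr 1 2 (swg.enc h2)))))⟩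
noncomputable def cv3pA : Fn2 := ⟨_, _, fun h1 h2 => (enc_norm (enc_add (enc_half h1) (enc_half (enc_subr 1 2 (swg.enc h2)))))⟩
noncomputable def cv4pA : Fn2 := ⟨_, _, fun h1 h2 => (enc_norm (enc_add (enc_scale 3 20 h1) (enc_scale 17 20 (enc_subr 1 2 (swg.enc h2)))))⟩
noncomputable def lm4pA : Fn3 := ⟨_, _, fun h1 h2 h3 => (enc_lam (enc_norm (enc_sub h1 (cv4pA.enc h2 h3))) (enc_sub (cv5p.enc h3) (cv4pA.enc h2 h3)))⟩
noncomputable def bf4q2A_3 : Fn3 := ⟨_, _, fun h1 h2 h3 => (enc_subr 251 400 h3)⟩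
noncomputable def bf4q2A : Fn3 := ⟨_, _, fun h1 h2 h3 => (enc_norm (enc_case (enc_subr 1 4 h1) (enc_case (enc_subr 1 10 h1) (enc_case (enc_subr 1 20 h1) (enc_add (enc_add (enc_scale 43723 50000 h1) (enc_rat _ 19623 31250)) (enc_mul (enc_norm (bf4q2A_3.enc h1 h2 h3)) (enc_norm (enc_sub (enc_rat _ 95281 100000) (enc_scale 27411 5000 h1))))) (enc_add (enc_add (enc_scale 21709 25000 h1) (enc_rat _ 628241 1000000)) (enc_mul (enc_norm (bf4q2A_3.enc h1 h2 h3)) (enc_norm (enc_sub (enc_rat _ 23069 25000) (enc_scale 12203 2500 h1)))))) (enc_case (enc_subr 3 20 h1) (enc_add (enc_add (enc_scale 21371 25000 h1) (enc_rat _ 629593 1000000)) (enc_mul (enc_norm (bf4q2A_3.enc h1 h2 h3)) (enc_norm (enc_sub (enc_rat _ 42677 50000) (enc_scale 4189 1000 h1))))) (enc_case (enc_subr 1 5 h1) (enc_add (enc_add (enc_scale 1659 2000 h1) (enc_rat _ 316697 500000)) (enc_mul (enc_norm (bf4q2A_3.enc h1 h2 h3)) (enc_norm (enc_sub (enc_rat _ 1457 2000) (enc_scale 16777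 5000 h1))))) (enc_add (enc_add (enc_scale 39731 50000 h1) (enc_rat _ 64037 100000)) (enc_mul (enc_norm (bf4q2A_3.enc h1 h2 h3)) (enc_norm (enc_sub (enc_rat _ 1161 2000) (enc_scale 13077 5000 h1)))))))) (enc_case (enc_subr 7 20 h1) (enc_case (enc_subr 3 10 h1) (enc_add (enc_add (enc_scale 2322 3125 h1) (enc_rat _ 130653 200000)) (enc_mul (enc_norm (bf4q2A_3.enc h1 h2 h3)) (enc_norm (enc_sub (enc_rat _ 7917 20000) (enc_scale 1173 625 h1))))) (enc_add (enc_add (enc_scale 34167 50000 h1) (enc_rat _ 26847 40000)) (enc_mul (enc_norm (bf4q2A_3.enc h1 h2 h3)) (enc_norm (enc_sub (enc_rat _ 14631 100000) (enc_scale 209 200 h1)))))) (enc_case (enc_subr 2 5 h1) (enc_add (enc_add (enc_scale 6351 10000 h1) (enc_rat _ 688059 1000000)) (enc_mul (enc_norm (bf4q2A_3.enc h1 h2 h3)) (enc_norm (enc_subr 4757 20000 (enc_scale 263 5000 h1))))) (enc_case (enc_subr 9 20 h1) (enc_add (enc_add (enc_scale 14893 25000 h1) (enc_rat _ 703811 1000000)) (enc_mul (enc_norm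 (bf4q2A_3.enc h1 h2 h3)) (enc_norm (enc_subr 78737 100000 (enc_scale 1783 1250 h1))))) (enc_add (enc_add (enc_scale 5623 10000 h1) (enc_rat _ 14377 20000)) (enc_mul (enc_norm (bf4q2A_3.enc h1 h2 h3)) (enc_norm (enc_subr 14549 10000 (enc_scale 14549 5000 h1))))))))))⟩
noncomputable def lm3pA : Fn3 := ⟨_, _, fun h1 h2 h3 => (enc_lam (enc_norm (enc_sub h1 (cv3pA.enc h2 h3))) (enc_sub (cv4pA.enc h2 h3) (cv3pA.enc h2 h3)))⟩
noncomputable def bf3q2A_3 : Fn3 := ⟨_, _, fun h1 h2 h3 => (enc_subr 251 400 h3)⟩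
noncomputable def bf3q2A : Fn3 := ⟨_, _, fun h1 h2 h3 => (enc_norm (enc_case (enc_subr 1 4 h1) (enc_case (enc_subr 1 10 h1) (enc_case (enc_subr 1 20 h1) (enc_add (enc_add (enc_scale 52483 50000 h1) (enc_rat _ 17907 40000)) (enc_mul (enc_norm (bf3q2A_3.enc h1 h2 h3)) (enc_norm (enc_subr 26319 100000 (enc_scale 28773 2500 h1))))) (enc_add (enc_add (enc_scale 53229 50000 h1) (enc_rat _ 446929 1000000)) (enc_mul (enc_norm (bf3q2A_3.enc h1 h2 h3)) (enc_norm (enc_subr 11041 50000 (enc_scale 53309 5000 h1)))))) (enc_case (enc_subr 3 20 h1) (enc_add (enc_add (enc_scale 3521 3125 h1) (enc_rat _ 88143 200000)) (enc_mul (enc_norm (bf3q2A_3.enc h1 h2 h3)) (enc_norm (enc_add (enc_scale 37677 5000 h1) (enc_rat _ 4591 50000))))) (enc_case (enc_subr 1 5 h1) (enc_add (enc_add (enc_scale 68287 50000 h1) (enc_rat _ 202431 500000)) (enc_mul (enc_norm (bf3q2A_3.enc h1 h2 h3)) (enc_norm (enc_sub (enc_rat _ 48701 25000) (enc_scale 24197 5000 h1))))) (enc_add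 (enc_add (enc_scale 877 625 h1) (enc_rat _ 39737 100000)) (enc_mul (enc_norm (bf3q2A_3.enc h1 h2 h3)) (enc_norm (enc_sub (enc_rat _ 5929 2500) (enc_scale 17393 2500 h1)))))))) (enc_case (enc_subr 7 20 h1) (enc_case (enc_subr 3 10 h1) (enc_add (enc_add (enc_scale 69687 50000 h1) (enc_rat _ 79947 200000)) (enc_mul (enc_norm (bf3q2A_3.enc h1 h2 h3)) (enc_norm (enc_sub (enc_rat _ 23367 10000) (enc_scale 4261 625 h1))))) (enc_add (enc_add (enc_scale 65827 50000 h1) (enc_rat _ 84579 200000)) (enc_mul (enc_norm (bf3q2A_3.enc h1 h2 h3)) (enc_norm (enc_sub (enc_rat _ 90849 50000) (enc_scale 12713 2500 h1)))))) (enc_case (enc_subr 2 5 h1) (enc_add (enc_add (enc_scale 55869 50000 h1) (enc_rat _ 492601 1000000)) (enc_mul (enc_norm (bf3q2A_3.enc h1 h2 h3)) (enc_norm (enc_sub (enc_rat _ 47337 50000) (enc_scale 6497 2500 h1))))) (enc_case (enc_subr 9 20 h1) (enc_add (enc_add (enc_scale 33937 50000 h1) (enc_rat _ 668057 1000000)) (enc_mul (enc_norm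 (bf3q2A_3.enc h1 h2 h3)) (enc_norm (enc_subr 2139 10000 (enc_scale 757 2500 h1))))) (enc_add (enc_add (enc_scale 2651 5000 h1) (enc_rat _ 7349 10000)) (enc_mul (enc_norm (bf3q2A_3.enc h1 h2 h3)) (enc_norm (enc_subr 1941 2500 (enc_scale 1941 1250 h1))))))))))⟩
noncomputable def lm2pA : Fn3 := ⟨_, _, fun h1 h2 h3 => (enc_lam (enc_norm (enc_sub h1 (cv2pA.enc h2 h3))) (enc_sub (cv3pA.enc h2 h3) (cv2pA.enc h2 h3)))⟩
noncomputable def bf2q2A_3 : Fn3 := ⟨_, _, fun h1 h2 h3 => (enc_subr 251 400 h3)⟩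
noncomputable def bf2q2A : Fn3 := ⟨_, _, fun h1 h2 h3 => (enc_norm (enc_case (enc_subr 1 4 h1) (enc_case (enc_subr 1 10 h1) (enc_case (enc_subr 1 20 h1) (enc_add (enc_sub (enc_rat _ 644267 1000000) (enc_scale 3021 25000 h1)) (enc_mul (enc_norm (bf2q2A_3.enc h1 h2 h3)) (enc_norm (enc_subr 35099 50000 (enc_scale 9213 1250 h1))))) (enc_add (enc_sub (enc_rat _ 20083 31250) (enc_scale 4431 50000 h1)) (enc_mul (enc_norm (bf2q2A_3.enc h1 h2 h3)) (enc_norm (enc_subr 33631 50000 (enc_scale 8479 1250 h1)))))) (enc_case (enc_subr 3 20 h1) (enc_add (enc_add (enc_scale 3963 50000 h1) (enc_rat _ 156467 250000)) (enc_mul (enc_norm (bf2q2A_3.enc h1 h2 h3)) (enc_norm (enc_subr 6017 12500 (enc_scale 24353 5000 h1))))) (enc_case (enc_subr 1 5 h1) (enc_add (enc_add (enc_scale 55053 50000 h1) (enc_rat _ 236299 500000)) (enc_mul (enc_norm (bf2q2A_3.enc h1 h2 h3)) (enc_norm (enc_add (enc_scale 1653 5000 h1) (enc_rat _ 4991 25000))))) (enc_add (enc_add (enc_scale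 65341 50000 h1) (enc_rat _ 215723 500000)) (enc_mul (enc_norm (bf2q2A_3.enc h1 h2 h3)) (enc_norm (enc_sub (enc_rat _ 15611 25000) (enc_scale 8967 5000 h1)))))))) (enc_case (enc_subr 7 20 h1) (enc_case (enc_subr 3 10 h1) (enc_add (enc_add (enc_scale 33827 25000 h1) (enc_rat _ 419881 1000000)) (enc_mul (enc_norm (bf2q2A_3.enc h1 h2 h3)) (enc_norm (enc_sub (enc_rat _ 40207 50000) (enc_scale 12561 5000 h1))))) (enc_add (enc_add (enc_scale 67339 50000 h1) (enc_rat _ 421771 1000000)) (enc_mul (enc_norm (bf2q2A_3.enc h1 h2 h3)) (enc_norm (enc_sub (enc_rat _ 17417 25000) (enc_scale 1077 500 h1)))))) (enc_case (enc_subr 2 5 h1) (enc_add (enc_add (enc_scale 29999 25000 h1) (enc_rat _ 236579 500000)) (enc_mul (enc_norm (bf2q2A_3.enc h1 h2 h3)) (enc_norm (enc_sub (enc_rat _ 7233 50000) (enc_scale 721 1250 h1))))) (enc_case (enc_subr 9 20 h1) (enc_add (enc_add (enc_scale 13347 25000 h1) (enc_rat _ 73959 100000)) (enc_mul (enc_norm (bf2q2A_3.enc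 h1 h2 h3)) (enc_norm (enc_subr 17271 50000 (enc_scale 1621 2500 h1))))) (enc_add (enc_add (enc_scale 5041 12500 h1) (enc_rat _ 19959 25000)) (enc_mul (enc_norm (bf2q2A_3.enc h1 h2 h3)) (enc_norm (enc_subr 1341 2500 (enc_scale 1341 1250 h1))))))))))⟩
noncomputable def lm1pA : Fn3 := ⟨_, _, fun h1 h2 h3 => (enc_lam (enc_norm (enc_sub h1 (cv1pA.enc h2 h3))) (enc_sub (cv2pA.enc h2 h3) (cv1pA.enc h2 h3)))⟩
noncomputable def bf1q2A_3 : Fn3 := ⟨_, _, fun h1 h2 h3 => (enc_subr 251 400 h3)⟩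
noncomputable def bf1q2A : Fn3 := ⟨_, _, fun h1 h2 h3 => (enc_norm (enc_add (enc_sub (enc_pnc _ 1) (enc_scale 4994127 2500000 (enc_subn 1 h2))) (enc_case (enc_subr 1 4 h1) (enc_case (enc_subr 1 10 h1) (enc_case (enc_subr 1 20 h1) (enc_sub (enc_neg (enc_scale 3563 12500 h1)) (enc_mul (enc_norm (bf1q2A_3.enc h1 h2 h3)) (enc_scale 47 200 h1))) (enc_add (enc_sub (enc_rat _ 20797 1000000) (enc_scale 35049 50000 h1)) (enc_mul (enc_norm (bf1q2A_3.enc h1 h2 h3)) (enc_norm (enc_sub (enc_rat _ 5187 100000) (enc_scale 3181 2500 h1)))))) (enc_case (enc_subr 3 20 h1) (enc_add (enc_sub (enc_rat _ 42549 1000000) (enc_scale 1837 2000 h1)) (enc_mul (enc_norm (bf1q2A_3.enc h1 h2 h3)) (enc_norm (enc_sub (enc_rat _ 108207 100000) (enc_scale 7234 625 h1))))) (enc_case (enc_subr 1 5 h1) (enc_add (enc_subr 69747 500000 (enc_scale 3689 12500 h1)) (enc_mul (enc_norm (bf1q2A_3.enc h1 h2 h3)) (enc_norm (enc_subr 33327 20000 (enc_scale 16871 2500 h1))))) (enc_add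 (enc_subr 166831 500000 (enc_scale 31649 25000 h1)) (enc_mul (enc_norm (bf1q2A_3.enc h1 h2 h3)) (enc_norm (enc_subr 73663 100000 (enc_scale 10499 5000 h1)))))))) (enc_case (enc_subr 7 20 h1) (enc_case (enc_subr 3 10 h1) (enc_add (enc_subr 367857 1000000 (enc_scale 70137 50000 h1)) (enc_mul (enc_norm (bf1q2A_3.enc h1 h2 h3)) (enc_norm (enc_subr 25643 100000 (enc_scale 179 1000 h1))))) (enc_add (enc_subr 201309 1000000 (enc_scale 42379 50000 h1)) (enc_mul (enc_norm (bf1q2A_3.enc h1 h2 h3)) (enc_norm (enc_subr 8593 20000 (enc_scale 1891 2500 h1)))))) (enc_case (enc_subr 2 5 h1) (enc_add (enc_sub (enc_rat _ 29433 200000) (enc_scale 7403 50000 h1)) (enc_mul (enc_norm (bf1q2A_3.enc h1 h2 h3)) (enc_norm (enc_subr 30159 50000 (enc_scale 6261 5000 h1))))) (enc_case (enc_subr 9 20 h1) (enc_add (enc_sub (enc_rat _ 361429 1000000) (enc_scale 17093 25000 h1)) (enc_mul (enc_norm (bf1q2A_3.enc h1 h2 h3)) (enc_norm (enc_subr 33399 50000 (enc_scale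 7071 5000 h1))))) (enc_add (enc_sub (enc_rat _ 10751 20000) (enc_scale 10751 10000 h1)) (enc_mul (enc_norm (bf1q2A_3.enc h1 h2 h3)) (enc_norm (enc_subr 3159 10000 (enc_scale 3159 5000 h1)))))))))))⟩
noncomputable def lm0pA : Fn3 := ⟨_, _, fun h1 h2 h3 => (enc_lam (enc_norm (enc_sub h1 h2)) (enc_sub (cv1pA.enc h2 h3) h2))⟩
noncomputable def rkbq2A : Fn4Q := ⟨_, _, fun h1 h2 h3 h4 => (enc_case (enc_sub h1 (cv1pA.enc h2 h3)) (enc_add (enc_mul h1 (bf1q2A.enc h2 h3 h4)) (enc_mul (enc_norm (enc_sub (enc_pnc _ 1) (lm0pA.enc h1 h2 h3))) (enc_norm (enc_mul h2 (enc_norm (enc_sub (n0b.enc h3 h4) (bf1q2A.enc h2 h3 h4))))))) (enc_case (enc_sub h1 (cv2pA.enc h2 h3)) (enc_add (enc_mul h1 (bf2q2A.enc h2 h3 h4)) (enc_mul (enc_norm (enc_mul (enc_norm (enc_sub (enc_pnc _ 1) (lm1pA.enc h1 h2 h3))) (cv1pA.enc h2 h3))) (enc_norm (enc_sub (bf1q2A.enc h2 h3 h4) (bf2q2A.enc h2 h3 h4))))) (enc_case (enc_sub h1 (cv3pA.enc h2 h3)) (enc_add (enc_mul h1 (bf3q2A.enc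 h2 h3 h4)) (enc_mul (enc_norm (enc_mul (enc_norm (enc_sub (enc_pnc _ 1) (lm2pA.enc h1 h2 h3))) (cv2pA.enc h2 h3))) (enc_norm (enc_sub (bf2q2A.enc h2 h3 h4) (bf3q2A.enc h2 h3 h4))))) (enc_case (enc_sub h1 (cv4pA.enc h2 h3)) (enc_add (enc_mul h1 (bf4q2A.enc h2 h3 h4)) (enc_mul (enc_norm (enc_mul (enc_norm (enc_sub (enc_pnc _ 1) (lm3pA.enc h1 h2 h3))) (cv3pA.enc h2 h3))) (enc_norm (enc_sub (bf3q2A.enc h2 h3 h4) (bf4q2A.enc h2 h3 h4))))) (enc_case (enc_sub h1 (cv5p.enc h3)) (enc_add (enc_mul h1 (bf5q2.enc h3 h4)) (enc_mul (enc_norm (enc_mul (enc_norm (enc_sub (enc_pnc _ 1) (lm4pA.enc h1 h2 h3))) (cv4pA.enc h2 h3))) (enc_norm (enc_sub (bf4q2A.enc h2 h3 h4) (bf5q2.enc h3 h4))))) (enc_case (enc_sub h1 (cv6p.enc h3)) (enc_add (enc_mul h1 (bf6q2.enc h3 h4)) (enc_mul (enc_norm (enc_mul (enc_norm (enc_sub (enc_pnc _ 1) (lm5p.enc h1 h3))) (cv5p.enc h3))) (enc_norm (enc_sub (bf5q2.enc h3 h4) (bf6q2.enc h3 h4))))) (enc_case (enc_sub h1 (cv7p.enc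 h3)) (enc_add (enc_mul h1 (bf7q2.enc h3 h4)) (enc_mul (enc_norm (enc_mul (enc_norm (enc_sub (enc_pnc _ 1) (lm6p.enc h1 h3))) (cv6p.enc h3))) (enc_norm (enc_sub (bf6q2.enc h3 h4) (bf7q2.enc h3 h4))))) (enc_add (kf7q2.enc h3 h4) (enc_mul (lm7p.enc h1 h3) (enc_norm (enc_sub (kf8q2.enc h3 h4) (kf7q2.enc h3 h4))))))))))))⟩
noncomputable def rsbq2A : Fn4Q := ⟨_, _, fun h1 h2 h3 h4 => (enc_case h1 (enc_neg (rkbq2A.enc (enc_neg h1) h2 h3 h4)) (rkbq2A.enc h1 h2 h3 h4))⟩
noncomputable def bx4q2A_3 : Fn3 := ⟨_, _, fun h1 h2 h3 => (enc_subr 251 400 h3)⟩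
noncomputable def bx4q2A : Fn3 := ⟨_, _, fun h1 h2 h3 => (enc_norm (enc_case (enc_subr 1 4 h1) (enc_case (enc_subr 1 10 h1) (enc_case (enc_subr 1 20 h1) (enc_add (enc_subr 29643 500000 (enc_scale 15877 50000 h1)) (enc_mul (enc_norm (bx4q2A_3.enc h1 h2 h3)) (enc_norm (enc_subr 53779 100000 (enc_neg (enc_scale 3007 1250 h1)))))) (enc_add (enc_subr 2363 40000 (enc_scale 7833 25000 h1)) (enc_mul (enc_norm (bx4q2A_3.enc h1 h2 h3)) (enc_norm (enc_subr 54171 100000 (enc_neg (enc_scale 2909 1250 h1))))))) (enc_case (enc_subr 3 20 h1) (enc_add (enc_subr 54509 1000000 (enc_scale 13383 50000 h1)) (enc_mul (enc_norm (bx4q2A_3.enc h1 h2 h3)) (enc_norm (enc_subr 13041 20000 (enc_neg (enc_scale 6119 5000 h1)))))) (enc_case (enc_subr 1 5 h1) (enc_add (enc_subr 16609 500000 (enc_scale 3143 25000 h1)) (enc_mul (enc_norm (bx4q2A_3.enc h1 h2 h3)) (enc_norm (enc_subr 104499 100000 (enc_scale 6979 5000 h1))))) (enc_add (enc_subr 1633 100000 (enc_scale 129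 3125 h1)) (enc_mul (enc_norm (bx4q2A_3.enc h1 h2 h3)) (enc_norm (enc_subr 138847 100000 (enc_scale 7783 2500 h1)))))))) (enc_case (enc_subr 7 20 h1) (enc_case (enc_subr 3 10 h1) (enc_add (enc_subr 1001 100000 (enc_scale 2 125 h1)) (enc_mul (enc_norm (bx4q2A_3.enc h1 h2 h3)) (enc_norm (enc_subr 37193 25000 (enc_scale 17551 5000 h1))))) (enc_add (enc_subr 128 15625 (enc_scale 497 50000 h1)) (enc_mul (enc_norm (bx4q2A_3.enc h1 h2 h3)) (enc_norm (enc_subr 72763 50000 (enc_scale 1701 500 h1)))))) (enc_case (enc_subr 2 5 h1) (enc_add (enc_subr 1073 125000 (enc_scale 553 50000 h1)) (enc_mul (enc_norm (bx4q2A_3.enc h1 h2 h3)) (enc_norm (enc_subr 67807 50000 (enc_scale 7797 2500 h1))))) (enc_case (enc_subr 9 20 h1) (enc_add (enc_subr 1607 125000 (enc_scale 1087 50000 h1)) (enc_mul (enc_norm (bx4q2A_3.enc h1 h2 h3)) (enc_norm (enc_subr 54759 50000 (enc_scale 3083 1250 h1))))) (enc_add (enc_subr 3073 100000 (enc_scale 3073 50000 h1)) (enc_mul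 (enc_norm (bx4q2A_3.enc h1 h2 h3)) (enc_norm (enc_sub (enc_rat _ 147 1000) (enc_scale 147 500 h1))))))))))⟩
noncomputable def bx3q2A_3 : Fn3 := ⟨_, _, fun h1 h2 h3 => (enc_subr 251 400 h3)⟩
noncomputable def bx3q2A : Fn3 := ⟨_, _, fun h1 h2 h3 => (enc_norm (enc_case (enc_subr 1 4 h1) (enc_case (enc_subr 1 10 h1) (enc_case (enc_subr 1 20 h1) (enc_add (enc_subr 5983 20000 (enc_scale 2683 3125 h1)) (enc_mul (enc_norm (bx3q2A_3.enc h1 h2 h3)) (enc_norm (enc_subr 39841 100000 (enc_neg (enc_scale 1131 2500 h1)))))) (enc_add (enc_subr 299179 1000000 (enc_scale 42957 50000 h1)) (enc_mul (enc_norm (bx3q2A_3.enc h1 h2 h3)) (enc_norm (enc_subr 4969 12500 (enc_neg (enc_scale 2351 5000 h1))))))) (enc_case (enc_subr 3 20 h1) (enc_add (enc_subr 299303 1000000 (enc_scale 43019 50000 h1)) (enc_mul (enc_norm (bx3q2A_3.enc h1 h2 h3)) (enc_norm (enc_subr 8857 25000 (enc_neg (enc_scale 4513 5000 h1)))))) (enc_case (enc_subr 1 5 h1) (enc_add (enc_subr 299453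 1000000 (enc_scale 43069 50000 h1)) (enc_mul (enc_norm (bx3q2A_3.enc h1 h2 h3)) (enc_norm (enc_subr 25021 100000 (enc_neg (enc_scale 3991 2500 h1)))))) (enc_add (enc_subr 290373 1000000 (enc_scale 40799 50000 h1)) (enc_mul (enc_norm (bx3q2A_3.enc h1 h2 h3)) (enc_norm (enc_subr 41477 100000 (enc_neg (enc_scale 967 1250 h1))))))))) (enc_case (enc_subr 7 20 h1) (enc_case (enc_subr 3 10 h1) (enc_add (enc_subr 60717 250000 (enc_scale 15649 25000 h1)) (enc_mul (enc_norm (bx3q2A_3.enc h1 h2 h3)) (enc_norm (enc_subr 47501 50000 (enc_scale 6837 5000 h1))))) (enc_add (enc_subr 3591 20000 (enc_scale 4149 10000 h1)) (enc_mul (enc_norm (bx3q2A_3.enc h1 h2 h3)) (enc_norm (enc_subr 68357 50000 (enc_scale 13789 5000 h1)))))) (enc_case (enc_subr 2 5 h1) (enc_add (enc_subr 33691 250000 (enc_scale 14347 50000 h1)) (enc_mul (enc_norm (bx3q2A_3.enc h1 h2 h3)) (enc_norm (enc_subr 148103 100000 (enc_scale 1927 625 h1))))) (enc_case (enc_subr 9 20 h1) (enc_add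 (enc_subr 26279 250000 (enc_scale 10641 50000 h1)) (enc_mul (enc_norm (bx3q2A_3.enc h1 h2 h3)) (enc_norm (enc_subr 137487 100000 (enc_scale 14089 5000 h1))))) (enc_add (enc_subr 9347 100000 (enc_scale 9347 50000 h1)) (enc_mul (enc_norm (bx3q2A_3.enc h1 h2 h3)) (enc_norm (enc_subr 5343 5000 (enc_scale 5343 2500 h1))))))))))⟩
noncomputable def bx2q2A_3 : Fn3 := ⟨_, _, fun h1 h2 h3 => (enc_subr 251 400 h3)⟩
noncomputable def bx2q2A : Fn3 := ⟨_, _, fun h1 h2 h3 => (enc_norm (enc_case (enc_subr 1 4 h1) (enc_case (enc_subr 1 10 h1) (enc_case (enc_subr 1 20 h1) (enc_add (enc_subr 495693 1000000 (enc_scale 9717 10000 h1)) (enc_mul (enc_norm (bx2q2A_3.enc h1 h2 h3)) (enc_norm (enc_subr 95383 100000 (enc_scale 4729 1250 h1))))) (enc_add (enc_subr 102169 200000 (enc_scale 63737 50000 h1)) (enc_mul (enc_norm (bx2q2A_3.enc h1 h2 h3)) (enc_norm (enc_subr 2447 2500 (enc_scale 21413 5000 h1)))))) (enc_case (enc_subr 3 20 h1) (enc_add (enc_subr 509647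 1000000 (enc_scale 31569 25000 h1)) (enc_mul (enc_norm (bx2q2A_3.enc h1 h2 h3)) (enc_norm (enc_subr 6309 6250 (enc_scale 4589 1000 h1))))) (enc_case (enc_subr 1 5 h1) (enc_add (enc_subr 514579 1000000 (enc_scale 32391 25000 h1)) (enc_mul (enc_norm (bx2q2A_3.enc h1 h2 h3)) (enc_norm (enc_subr 411 800 (enc_scale 3211 2500 h1))))) (enc_add (enc_subr 550263 1000000 (enc_scale 73703 50000 h1)) (enc_mul (enc_norm (bx2q2A_3.enc h1 h2 h3)) (enc_norm (enc_sub (enc_rat _ 35917 100000) (enc_scale 15401 5000 h1)))))))) (enc_case (enc_subr 7 20 h1) (enc_case (enc_subr 3 10 h1) (enc_add (enc_subr 274729 500000 (enc_scale 36771 25000 h1)) (enc_mul (enc_norm (bx2q2A_3.enc h1 h2 h3)) (enc_norm (enc_sub (enc_rat _ 4873 25000) (enc_scale 3029 1250 h1))))) (enc_add (enc_subr 48427 125000 (enc_scale 9307 10000 h1)) (enc_mul (enc_norm (bx2q2A_3.enc h1 h2 h3)) (enc_norm (enc_subr 26327 25000 (enc_scale 2171 1250 h1)))))) (enc_case (enc_subr 2 5 h1) (enc_add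 (enc_subr 261381 1000000 (enc_scale 2853 5000 h1)) (enc_mul (enc_norm (bx2q2A_3.enc h1 h2 h3)) (enc_norm (enc_subr 29617 20000 (enc_scale 2959 1000 h1))))) (enc_case (enc_subr 9 20 h1) (enc_add (enc_subr 190197 1000000 (enc_scale 1227 3125 h1)) (enc_mul (enc_norm (bx2q2A_3.enc h1 h2 h3)) (enc_norm (enc_subr 148629 100000 (enc_scale 14863 5000 h1))))) (enc_add (enc_subr 13509 100000 (enc_scale 13509 50000 h1)) (enc_mul (enc_norm (bx2q2A_3.enc h1 h2 h3)) (enc_norm (enc_subr 7431 5000 (enc_scale 7431 2500 h1))))))))))⟩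
noncomputable def bx1q2A_3 : Fn3 := ⟨_, _, fun h1 h2 h3 => (enc_subr 251 400 h3)⟩
noncomputable def bx1q2A : Fn3 := ⟨_, _, fun h1 h2 h3 => (enc_norm (enc_add (enc_subr 122234428036571617 232320522350000000 (enc_neg (enc_scale 627558740527 528481625000 (bx1q2A_3.enc h1 h2 h3)))) (enc_case (enc_subr 1 4 h1) (enc_case (enc_subr 1 10 h1) (enc_case (enc_subr 1 20 h1) (enc_add (enc_scale 8023 50000 h1) (enc_mul (enc_norm (bx1q2A_3.enc h1 h2 h3)) (enc_scale 9243 2500 h1))) (enc_add (enc_subr 4213 200000 (enc_scale 1818 3125 h1)) (enc_mul (enc_norm (bx1q2A_3.enc h1 h2 h3)) (enc_norm (enc_add (enc_scale 2877 1250 h1) (enc_rat _ 3489 50000)))))) (enc_case (enc_subr 3 20 h1) (enc_add (enc_subr 74813 1000000 (enc_scale 27981 25000 h1)) (enc_mul (enc_norm (bx1q2A_3.enc h1 h2 h3)) (enc_norm (enc_subr 1823 50000 (enc_scale 841 250 h1))))) (enc_case (enc_subr 1 5 h1) (enc_add (enc_subr 27283 200000 (enc_scale 4781 3125 h1)) (enc_mul (enc_norm (bx1q2A_3.enc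 h1 h2 h3)) (enc_norm (enc_subr 23017 100000 (enc_scale 23277 5000 h1))))) (enc_add (enc_subr 183371 1000000 (enc_scale 17647 10000 h1)) (enc_mul (enc_norm (bx1q2A_3.enc h1 h2 h3)) (enc_norm (enc_subr 15969 100000 (enc_scale 4303 1000 h1)))))))) (enc_case (enc_subr 7 20 h1) (enc_case (enc_subr 3 10 h1) (enc_add (enc_subr 117243 500000 (enc_scale 49229 25000 h1)) (enc_mul (enc_norm (bx1q2A_3.enc h1 h2 h3)) (enc_norm (enc_sub (enc_rat _ 146883 50000) (enc_scale 5054 625 h1))))) (enc_add (enc_subr 5067 50000 (enc_scale 76267 50000 h1)) (enc_mul (enc_norm (bx1q2A_3.enc h1 h2 h3)) (enc_norm (enc_subr 1959 10000 (enc_scale 5897 2500 h1)))))) (enc_case (enc_subr 2 5 h1) (enc_add (enc_add (enc_scale 11983 12500 h1) (enc_rat _ 19401 200000)) (enc_mul (enc_norm (bx1q2A_3.enc h1 h2 h3)) (enc_norm (enc_subr 13179 20000 (enc_scale 18409 5000 h1))))) (enc_case (enc_subr 9 20 h1) (enc_add (enc_add (enc_scale 14831 25000 h1) (enc_rat _ 48633 200000))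 (enc_mul (enc_norm (bx1q2A_3.enc h1 h2 h3)) (enc_norm (enc_subr 64087 100000 (enc_scale 18183 5000 h1))))) (enc_add (enc_add (enc_scale 3722386213822567 11616026117500000 h1) (enc_rat _ 85010565898345947 232320522350000000)) (enc_mul (enc_norm (bx1q2A_3.enc h1 h2 h3)) (enc_norm (enc_subr 386465606243 528481625000 (enc_scale 101402434677 26424081250 h1)))))))))))⟩
noncomputable def rxq2A : Fn4Q := ⟨_, _, fun h1 h2 h3 h4 => (enc_case (enc_sub h1 (cv1pA.enc h2 h3)) (enc_add (enc_mul h1 (bx1q2A.enc h2 h3 h4)) (enc_mul (enc_norm (enc_sub (enc_pnc _ 1) (lm0pA.enc h1 h2 h3))) (enc_norm (enc_mul h2 (enc_norm (enc_sub (n0x.enc h3 h4) (bx1q2A.enc h2 h3 h4))))))) (enc_case (enc_sub h1 (cv2pA.enc h2 h3)) (enc_add (enc_mul h1 (bx2q2A.enc h2 h3 h4)) (enc_mul (enc_norm (enc_mul (enc_norm (enc_sub (enc_pnc _ 1) (lm1pA.enc h1 h2 h3))) (cv1pA.enc h2 h3))) (enc_norm (enc_sub (bx1q2A.enc h2 h3 h4) (bx2q2A.enc h2 h3 h4))))) (enc_case (enc_sub h1 (cv3pA.enc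 h2 h3)) (enc_add (enc_mul h1 (bx3q2A.enc h2 h3 h4)) (enc_mul (enc_norm (enc_mul (enc_norm (enc_sub (enc_pnc _ 1) (lm2pA.enc h1 h2 h3))) (cv2pA.enc h2 h3))) (enc_norm (enc_sub (bx2q2A.enc h2 h3 h4) (bx3q2A.enc h2 h3 h4))))) (enc_case (enc_sub h1 (cv4pA.enc h2 h3)) (enc_add (enc_mul h1 (bx4q2A.enc h2 h3 h4)) (enc_mul (enc_norm (enc_mul (enc_norm (enc_sub (enc_pnc _ 1) (lm3pA.enc h1 h2 h3))) (cv3pA.enc h2 h3))) (enc_norm (enc_sub (bx3q2A.enc h2 h3 h4) (bx4q2A.enc h2 h3 h4))))) (enc_case (enc_sub h1 (cv5p.enc h3)) (enc_add (enc_mul h1 (bx5q2.enc h3 h4)) (enc_mul (enc_norm (enc_mul (enc_norm (enc_sub (enc_pnc _ 1) (lm4pA.enc h1 h2 h3))) (cv4pA.enc h2 h3))) (enc_norm (enc_sub (bx4q2A.enc h2 h3 h4) (bx5q2.enc h3 h4))))) (enc_case (enc_sub h1 (cv6p.enc h3)) (enc_add (enc_mul h1 (bx6q2.enc h3 h4)) (enc_mul (enc_norm (enc_mul (enc_norm (enc_sub (enc_pnc _ 1) (lm5p.enc h1 h3))) (cv5p.enc h3))) (enc_norm (enc_sub (bx5q2.enc h3 h4) (bx6q2.enc h3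 h4))))) (enc_case (enc_sub h1 (cv7p.enc h3)) (enc_add (enc_mul h1 (bx7q2.enc h3 h4)) (enc_mul (enc_norm (enc_mul (enc_norm (enc_sub (enc_pnc _ 1) (lm6p.enc h1 h3))) (cv6p.enc h3))) (enc_norm (enc_sub (bx6q2.enc h3 h4) (bx7q2.enc h3 h4))))) (enc_add (l7q2.enc h3 h4) (enc_mul (lm7p.enc h1 h3) (enc_norm (enc_sub (l8q2.enc h3 h4) (l7q2.enc h3 h4))))))))))))⟩
noncomputable def rlq2A : Fn4Q := ⟨_, _, fun h1 h2 h3 h4 => (enc_case h1 (enc_neg (rxq2A.enc (enc_neg h1) h2 h3 h4)) (rxq2A.enc h1 h2 h3 h4))⟩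
noncomputable def cv1pB : Fn1 := ⟨_, _, fun h1 => (enc_norm (enc_add (enc_scale 23 25 (enc_pnc _ 0)) (enc_scale 2 25 (enc_subr 1 2 (swg.enc h1)))))⟩
noncomputable def cv2pB : Fn1 := ⟨_, _, fun h1 => (enc_norm (enc_add (enc_scale 3 4 (enc_pnc _ 0)) (enc_scale 1 4 (enc_subr 1 2 (swg.enc h1)))))⟩
noncomputable def cv3pB : Fn1 := ⟨_, _, fun h1 => (enc_norm (enc_add (enc_half (enc_pnc _ 0)) (enc_half (enc_subr 1 2 (swg.enc h1)))))⟩
noncomputable def cv4pB : Fn1 := ⟨_, _, fun h1 => (enc_norm (enc_add (enc_scale 3 20 (enc_pnc _ 0)) (enc_scale 17 20 (enc_subr 1 2 (swg.enc h1)))))⟩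
noncomputable def lm4pB : Fn2 := ⟨_, _, fun h1 h2 => (enc_lam (enc_norm (enc_sub h1 (cv4pB.enc h2))) (enc_sub (cv5p.enc h2) (cv4pB.enc h2)))⟩
noncomputable def bf4q2B_3 : Fn2 := ⟨_, _, fun h1 h2 => (enc_subr 251 400 h2)⟩
noncomputable def bf4q2B : Fn2 := ⟨_, _, fun h1 h2 => (enc_norm (enc_case (enc_subr 127 100 h1) (enc_add (enc_sub (enc_rat _ 24600689 5800000) (enc_scale 11348 3625 h1)) (enc_mul (enc_norm (bf4q2B_3.enc h1 h2)) (enc_norm (enc_sub (enc_rat _ 7705873 2900000) (enc_scale 8161 5800 h1))))) (enc_case (enc_subr 69 50 h1) (enc_add (enc_sub (enc_rat _ 47641351 11000000) (enc_scale 88027 27500 h1)) (enc_mul (enc_norm (bf4q2B_3.enc h1 h2)) (enc_norm (enc_subr 12870137 1100000 (enc_scale 108877 11000 h1))))) (enc_add (enc_sub (enc_rat _ 3352081 2000000) (enc_scale 51083 40000 h1)) (enc_mul (enc_norm (bf4q2B_3.enc h1 h2)) (enc_norm (enc_subr 229233 100000 (enc_scale 4621 1500 h1))))))))⟩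
noncomputable def lm3pB : Fn2 := ⟨_, _, fun h1 h2 => (enc_lam (enc_norm (enc_sub h1 (cv3pB.enc h2))) (enc_sub (cv4pB.enc h2) (cv3pB.enc h2)))⟩
noncomputable def bf3q2B_3 : Fn2 := ⟨_, _, fun h1 h2 => (enc_subr 251 400 h2)⟩
noncomputable def bf3q2B : Fn2 := ⟨_, _, fun h1 h2 => (enc_norm (enc_case (enc_subr 127 100 h1) (enc_add (enc_sub (enc_rat _ 45916327 5800000) (enc_scale 375201 58000 h1)) (enc_mul (enc_norm (bf3q2B_3.enc h1 h2)) (enc_norm (enc_subr 243530161 5800000 (enc_scale 83737 2320 h1))))) (enc_case (enc_subr 69 50 h1) (enc_add (enc_sub (enc_rat _ 67567 110000) (enc_scale 791 1100 h1)) (enc_mul (enc_norm (bf3q2B_3.enc h1 h2)) (enc_norm (enc_sub (enc_rat _ 1031767 100000) (enc_scale 1273 250 h1))))) (enc_add (enc_sub (enc_rat _ 901341 2000000) (enc_scale 72067 120000 h1)) (enc_mul (enc_norm (bf3q2B_3.enc h1 h2)) (enc_norm (enc_sub (enc_rat _ 1447147 100000) (enc_scale 4051 500 h1))))))))⟩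
noncomputable def lm2pB : Fn2 := ⟨_, _, fun h1 h2 => (enc_lam (enc_norm (enc_sub h1 (cv2pB.enc h2))) (enc_sub (cv3pB.enc h2) (cv2pB.enc h2)))⟩
noncomputable def bf2q2B_3 : Fn2 := ⟨_, _, fun h1 h2 => (enc_subr 251 400 h2)⟩
noncomputable def bf2q2B : Fn2 := ⟨_, _, fun h1 h2 => (enc_norm (enc_case (enc_subr 127 100 h1) (enc_add (enc_sub (enc_rat _ 403757369 58000000) (enc_scale 634521 116000 h1)) (enc_mul (enc_norm (bf2q2B_3.enc h1 h2)) (enc_norm (enc_subr 18197483 725000 (enc_scale 61269 2900 h1))))) (enc_case (enc_subr 69 50 h1) (enc_add (enc_sub (enc_rat _ 32738837 5500000) (enc_scale 514323 110000 h1)) (enc_mul (enc_norm (bf2q2B_3.enc h1 h2)) (enc_norm (enc_subr 311703 22000 (enc_scale 34429 2750 h1))))) (enc_add (enc_sub (enc_rat _ 11788591 2000000) (enc_scale 185339 40000 h1)) (enc_mul (enc_norm (bf2q2B_3.enc h1 h2)) (enc_norm (enc_subr 545049 50000 (enc_scale 1269 125 h1))))))))⟩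
noncomputable def lm1pB : Fn2 := ⟨_, _, fun h1 h2 => (enc_lam (enc_norm (enc_sub h1 (cv1pB.enc h2))) (enc_sub (cv2pB.enc h2) (cv1pB.enc h2)))⟩
noncomputable def bf1q2B_3 : Fn2 := ⟨_, _, fun h1 h2 => (enc_subr 251 400 h2)⟩
noncomputable def bf1q2B : Fn2 := ⟨_, _, fun h1 h2 => (enc_norm (enc_add (enc_sub (enc_pnc _ 1) (enc_scale 4994127 2500000 (enc_subn 1 h1))) (enc_case (enc_subr 127 100 h1) (enc_case (enc_subr 231 200 h1) (enc_pnc _ 0) (enc_add (enc_sub (enc_rat _ 21475839 5750000) (enc_scale 92969 28750 h1)) (enc_mul (enc_norm (bf1q2B_3.enc h1 h2)) (enc_norm (enc_subr 14776377 1150000 (enc_scale 63967 5750 h1)))))) (enc_case (enc_subr 139 100 h1) (enc_add (enc_sub (enc_rat _ 5595209 1500000) (enc_scale 48449 15000 h1)) (enc_mul (enc_norm (bf1q2B_3.enc h1 h2)) (enc_norm (enc_subr 968627 75000 (enc_scale 3353 300 h1))))) (enc_add (enc_sub (enc_rat _ 20466653 5500000) (enc_scale 177293 55000 h1)) (enc_mul (enc_norm (bf1q2B_3.enc h1 h2))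 (enc_norm (enc_subr 1756611 137500 (enc_scale 60919 5500 h1)))))))))⟩
noncomputable def lm0pB : Fn2 := ⟨_, _, fun h1 h2 => (enc_lam (enc_norm (enc_subn 0 h1)) (enc_subn 0 (cv1pB.enc h2)))⟩
noncomputable def rkbq2B_80 : Fn3 := ⟨_, _, fun h1 h2 h3 => (enc_mul h1 (bf1q2B.enc h2 h3))⟩
noncomputable def rkbq2B : Fn3 := ⟨_, _, fun h1 h2 h3 => (enc_case (enc_sub h1 (cv1pB.enc h2)) (enc_case (enc_subr 2887 2500 h2) (enc_add (rkbq2B_80.enc h1 h2 h3) (enc_mul (enc_norm (enc_sub (enc_pnc _ 1) (lm0pB.enc h1 h2))) (enc_norm (enc_mul (enc_pnc _ 0) (enc_norm (enc_sub (n0b.enc h2 h3) (bf1q2B.enc h2 h3))))))) (rkbq2B_80.enc h1 h2 h3)) (enc_case (enc_sub h1 (cv2pB.enc h2)) (enc_add (enc_mul h1 (bf2q2B.enc h2 h3)) (enc_mul (enc_norm (enc_mul (enc_norm (enc_sub (enc_pnc _ 1) (lm1pB.enc h1 h2))) (cv1pB.enc h2))) (enc_norm (enc_sub (bf1q2B.enc h2 h3) (bf2q2B.enc h2 h3))))) (enc_case (enc_sub h1 (cv3pB.enc h2)) (enc_add (enc_mul h1 (bf3q2B.enc h2 h3)) (enc_mul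 (enc_norm (enc_mul (enc_norm (enc_sub (enc_pnc _ 1) (lm2pB.enc h1 h2))) (cv2pB.enc h2))) (enc_norm (enc_sub (bf2q2B.enc h2 h3) (bf3q2B.enc h2 h3))))) (enc_case (enc_sub h1 (cv4pB.enc h2)) (enc_add (enc_mul h1 (bf4q2B.enc h2 h3)) (enc_mul (enc_norm (enc_mul (enc_norm (enc_sub (enc_pnc _ 1) (lm3pB.enc h1 h2))) (cv3pB.enc h2))) (enc_norm (enc_sub (bf3q2B.enc h2 h3) (bf4q2B.enc h2 h3))))) (enc_case (enc_sub h1 (cv5p.enc h2)) (enc_add (enc_mul h1 (bf5q2.enc h2 h3)) (enc_mul (enc_norm (enc_mul (enc_norm (enc_sub (enc_pnc _ 1) (lm4pB.enc h1 h2))) (cv4pB.enc h2))) (enc_norm (enc_sub (bf4q2B.enc h2 h3) (bf5q2.enc h2 h3))))) (enc_case (enc_sub h1 (cv6p.enc h2)) (enc_add (enc_mul h1 (bf6q2.enc h2 h3)) (enc_mul (enc_norm (enc_mul (enc_norm (enc_sub (enc_pnc _ 1) (lm5p.enc h1 h2))) (cv5p.enc h2))) (enc_norm (enc_sub (bf5q2.enc h2 h3) (bf6q2.enc h2 h3))))) (enc_case (enc_sub h1 (cv7p.enc h2)) (enc_add (enc_mul h1 (bf7q2.enc h2 h3)) (enc_mul (enc_norm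 (enc_mul (enc_norm (enc_sub (enc_pnc _ 1) (lm6p.enc h1 h2))) (cv6p.enc h2))) (enc_norm (enc_sub (bf6q2.enc h2 h3) (bf7q2.enc h2 h3))))) (enc_add (kf7q2.enc h2 h3) (enc_mul (lm7p.enc h1 h2) (enc_norm (enc_sub (kf8q2.enc h2 h3) (kf7q2.enc h2 h3))))))))))))⟩
noncomputable def rsbq2B : Fn3 := ⟨_, _, fun h1 h2 h3 => (enc_case h1 (enc_neg (rkbq2B.enc (enc_neg h1) h2 h3)) (rkbq2B.enc h1 h2 h3))⟩
noncomputable def bx4q2B_3 : Fn2 := ⟨_, _, fun h1 h2 => (enc_subr 251 400 h2)⟩
noncomputable def bx4q2B : Fn2 := ⟨_, _, fun h1 h2 => (enc_norm (enc_case (enc_subr 127 100 h1) (enc_add (enc_subr 2408057 11600000 (enc_scale 2973 23200 h1)) (enc_mul (enc_norm (bx4q2B_3.enc h1 h2)) (enc_norm (enc_subr 2800261 1160000 (enc_scale 18873 11600 h1))))) (enc_case (enc_subr 69 50 h1) (enc_add (enc_subr 11944631 11000000 (enc_scale 11271 13750 h1)) (enc_mul (enc_norm (bx4q2B_3.enc h1 h2)) (enc_norm (enc_subr 539497 1100000 (enc_scale 309 2750 h1))))) (enc_add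 (enc_subr 1657597 1000000 (enc_scale 617 500 h1)) (enc_mul (enc_norm (bx4q2B_3.enc h1 h2)) (enc_norm (enc_subr 587 800 (enc_scale 433 1500 h1))))))))⟩
noncomputable def bx3q2B_3 : Fn2 := ⟨_, _, fun h1 h2 => (enc_subr 251 400 h2)⟩
noncomputable def bx3q2B : Fn2 := ⟨_, _, fun h1 h2 => (enc_norm (enc_case (enc_subr 127 100 h1) (enc_add (enc_subr 53497811 29000000 (enc_scale 4852 3625 h1)) (enc_mul (enc_norm (bx3q2B_3.enc h1 h2)) (enc_norm (enc_sub (enc_rat _ 12942847 2900000) (enc_scale 24427 5800 h1))))) (enc_case (enc_subr 69 50 h1) (enc_add (enc_subr 27299739 11000000 (enc_scale 20241 11000 h1)) (enc_mul (enc_norm (bx3q2B_3.enc h1 h2)) (enc_norm (enc_sub (enc_rat _ 1132847 220000) (enc_scale 52271 11000 h1))))) (enc_add (enc_subr 364963 125000 (enc_scale 25889 12000 h1)) (enc_mul (enc_norm (bx3q2B_3.enc h1 h2)) (enc_norm (enc_sub (enc_rat _ 1342483 100000) (enc_scale 16123 1500 h1))))))))⟩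
noncomputable def bx2q2B_3 : Fn2 := ⟨_, _, fun h1 h2 => (enc_subr 251 400 h2)⟩
noncomputable def bx2q2B : Fn2 := ⟨_, _, fun h1 h2 => (enc_norm (enc_case (enc_subr 127 100 h1) (enc_add (enc_subr 793863 232000 (enc_scale 146979 58000 h1)) (enc_mul (enc_norm (bx2q2B_3.enc h1 h2)) (enc_norm (enc_sub (enc_rat _ 1006033 200000) (enc_scale 2073 400 h1))))) (enc_case (enc_subr 69 50 h1) (enc_add (enc_subr 37439361 11000000 (enc_scale 277173 110000 h1)) (enc_mul (enc_norm (bx2q2B_3.enc h1 h2)) (enc_norm (enc_sub (enc_rat _ 6808579 1100000) (enc_scale 1341 220 h1))))) (enc_add (enc_subr 1699417 500000 (enc_scale 150979 60000 h1)) (enc_mul (enc_norm (bx2q2B_3.enc h1 h2)) (enc_norm (enc_sub (enc_rat _ 274373 40000) (enc_scale 26323 4000 h1))))))))⟩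
noncomputable def bx1q2B_3 : Fn2 := ⟨_, _, fun h1 h2 => (enc_subr 251 400 h2)⟩
noncomputable def bx1q2B : Fn2 := ⟨_, _, fun h1 h2 => (enc_norm (enc_add (enc_subr 122234428036571617 232320522350000000 (enc_neg (enc_scale 627558740527 528481625000 (bx1q2B_3.enc h1 h2)))) (enc_case (enc_subr 127 100 h1) (enc_case (enc_subr 231 200 h1) (enc_pnc _ 0) (enc_add (enc_subr 3117807 1000000 (enc_scale 13497 5000 h1)) (enc_mul (enc_norm (bx1q2B_3.enc h1 h2)) (enc_norm (enc_sub (enc_rat _ 16023777 1150000) (enc_scale 69367 5750 h1)))))) (enc_case (enc_subr 139 100 h1) (enc_add (enc_subr 6243361 2000000 (enc_scale 54049 20000 h1)) (enc_mul (enc_norm (bx1q2B_3.enc h1 h2)) (enc_norm (enc_sub (enc_rat _ 103279 7500) (enc_scale 17903 1500 h1))))) (enc_add (enc_subr 17183247 5500000 (enc_scale 297471 110000 h1)) (enc_mul (enc_norm (bx1q2B_3.enc h1 h2)) (enc_norm (enc_sub (enc_rat _ 15111493 1100000) (enc_scale 131029 11000 h1)))))))))⟩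
noncomputable def rxq2B_80 : Fn3 := ⟨_, _, fun h1 h2 h3 => (enc_mul h1 (bx1q2B.enc h2 h3))⟩
noncomputable def rxq2B : Fn3 := ⟨_, _, fun h1 h2 h3 => (enc_case (enc_sub h1 (cv1pB.enc h2)) (enc_case (enc_subr 2887 2500 h2) (enc_add (rxq2B_80.enc h1 h2 h3) (enc_mul (enc_norm (enc_sub (enc_pnc _ 1) (lm0pB.enc h1 h2))) (enc_norm (enc_mul (enc_pnc _ 0) (enc_norm (enc_sub (n0x.enc h2 h3) (bx1q2B.enc h2 h3))))))) (rxq2B_80.enc h1 h2 h3)) (enc_case (enc_sub h1 (cv2pB.enc h2)) (enc_add (enc_mul h1 (bx2q2B.enc h2 h3)) (enc_mul (enc_norm (enc_mul (enc_norm (enc_sub (enc_pnc _ 1) (lm1pB.enc h1 h2))) (cv1pB.enc h2))) (enc_norm (enc_sub (bx1q2B.enc h2 h3) (bx2q2B.enc h2 h3))))) (enc_case (enc_sub h1 (cv3pB.enc h2)) (enc_add (enc_mul h1 (bx3q2B.enc h2 h3)) (enc_mul (enc_norm (enc_mul (enc_norm (enc_sub (enc_pnc _ 1) (lm2pB.enc h1 h2))) (cv2pB.enc h2))) (enc_norm (enc_sub (bx2q2B.enc h2 h3) (bx3q2B.enc h2 h3))))) (enc_case (enc_sub h1 (cv4pB.enc h2))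 (enc_add (enc_mul h1 (bx4q2B.enc h2 h3)) (enc_mul (enc_norm (enc_mul (enc_norm (enc_sub (enc_pnc _ 1) (lm3pB.enc h1 h2))) (cv3pB.enc h2))) (enc_norm (enc_sub (bx3q2B.enc h2 h3) (bx4q2B.enc h2 h3))))) (enc_case (enc_sub h1 (cv5p.enc h2)) (enc_add (enc_mul h1 (bx5q2.enc h2 h3)) (enc_mul (enc_norm (enc_mul (enc_norm (enc_sub (enc_pnc _ 1) (lm4pB.enc h1 h2))) (cv4pB.enc h2))) (enc_norm (enc_sub (bx4q2B.enc h2 h3) (bx5q2.enc h2 h3))))) (enc_case (enc_sub h1 (cv6p.enc h2)) (enc_add (enc_mul h1 (bx6q2.enc h2 h3)) (enc_mul (enc_norm (enc_mul (enc_norm (enc_sub (enc_pnc _ 1) (lm5p.enc h1 h2))) (cv5p.enc h2))) (enc_norm (enc_sub (bx5q2.enc h2 h3) (bx6q2.enc h2 h3))))) (enc_case (enc_sub h1 (cv7p.enc h2)) (enc_add (enc_mul h1 (bx7q2.enc h2 h3)) (enc_mul (enc_norm (enc_mul (enc_norm (enc_sub (enc_pnc _ 1) (lm6p.enc h1 h2))) (cv6p.enc h2))) (enc_norm (enc_sub (bx6q2.enc h2 h3) (bx7q2.enc h2 h3))))) (enc_add (l7q2.enc h2 h3) (enc_mul (lm7p.enc h1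 h2) (enc_norm (enc_sub (l8q2.enc h2 h3) (l7q2.enc h2 h3))))))))))))⟩
noncomputable def rlq2B : Fn3 := ⟨_, _, fun h1 h2 h3 => (enc_case h1 (enc_neg (rxq2B.enc (enc_neg h1) h2 h3)) (rxq2B.enc h1 h2 h3))⟩
noncomputable def dt1 : DT := .quad sw1 sl1 sv1
noncomputable def dt2 : DT := .quad sw2 sl2 sv2
noncomputable def dt3 : DT := .quad sw3 sl3 sv3
noncomputable def dt4 : DT := .quad sw4 sl4 sv4
noncomputable def dt5 : DT := .quad sw5 sl5 sv5
noncomputable def dt6 : DT := .quad sw6 sl6 sv6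
noncomputable def dt7 : DT := .quad sw7 sl7 sv7
noncomputable def dt8 : DT := .quad sw8 sl8 sv8
noncomputable def dt9 : DT := .quad sw9 sl9 sv9
noncomputable def dt10 : DT := .lin sl10 sv10
noncomputable def dt11 : DT := .quad sw11 sl11 sv11
noncomputable def dt12 : DT := .quad sw12 sl12 sv12
noncomputable def dt13 : DT := .quad sw13 sl13 sv13
noncomputable def dt14 : DT := .quad sw14 sl14 sv14
noncomputable def dt15 : DT := .quad sw15 sl15 sv15
noncomputable def dt16 : DT := .quad sw16 sl16 sv16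
noncomputable def dt17 : DT := .quad sw17 sl17 sv17
noncomputable def dt18 : DT := .quad sw18 sl18 sv18
noncomputable def dt19 : DT := .quad sw19 sl19 sv19
noncomputable def dt20 : DT := .node ((Cn.rt 9 20).ng) dt1 dt2
noncomputable def dt21 : DT := .node ((Cn.rt 7 20).ng) dt3 dt4
noncomputable def dt22 : DT := .node ((Cn.rt 2 5).ng) dt20 dt21
noncomputable def dt23 : DT := .node ((Cn.rt 1 4).ng) dt5 dt6
noncomputable def dt24 : DT := .node ((Cn.rt 1 10).ng) dt8 dt9
noncomputable def dt25 : DT := .node ((Cn.rt 3 20).ng) dt7 dt24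
noncomputable def dt26 : DT := .node ((Cn.rt 1 5).ng) dt23 dt25
noncomputable def dt27 : DT := .node ((Cn.rt 3 10).ng) dt22 dt26
noncomputable def dt28 : DT := .node (Cn.rt 1 20) dt10 dt11
noncomputable def dt29 : DT := .node (Cn.rt 1 5) dt13 dt14
noncomputable def dt30 : DT := .node (Cn.rt 3 20) dt12 dt29
noncomputable def dt31 : DT := .node (Cn.rt 1 10) dt28 dt30
noncomputable def dt32 : DT := .node (Cn.rt 3 10) dt15 dt16
noncomputable def dt33 : DT := .node (Cn.rt 9 20) dt18 dt19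
noncomputable def dt34 : DT := .node (Cn.rt 2 5) dt17 dt33
noncomputable def dt35 : DT := .node (Cn.rt 7 20) dt32 dt34
noncomputable def dt36 : DT := .node (Cn.rt 1 4) dt31 dt35
noncomputable def dt37 : DT := .node ((Cn.rt 1 20).ng) dt27 dt36
noncomputable def dt38 : DT := .quad sw38 sl38 sv38
noncomputable def dt39 : DT := .quad sw39 sl39 sv39
noncomputable def dt40 : DT := .quad sw40 sl40 sv40
noncomputable def dt41 : DT := .quad sw41 sl41 sv41
noncomputable def dt42 : DT := .quad sw42 sl42 sv42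
noncomputable def dt43 : DT := .quad sw43 sl43 sv43
noncomputable def dt44 : DT := .quad sw44 sl44 sv44
noncomputable def dt45 : DT := .quad sw45 sl45 sv45
noncomputable def dt46 : DT := .quad sw46 sl46 sv46
noncomputable def dt47 : DT := .quad sw47 sl47 sv47
noncomputable def dt48 : DT := .quad sw48 sl48 sv48
noncomputable def dt49 : DT := .quad sw49 sl49 sv49
noncomputable def dt50 : DT := .quad sw50 sl50 sv50
noncomputable def dt51 : DT := .quad sw51 sl51 sv51
noncomputable def dt52 : DT := .clo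
noncomputable def dt53 : DT := .quad sw53 sl53 sv53
noncomputable def dt54 : DT := .quad sw54 sl54 sv54
noncomputable def dt55 : DT := .quad sw55 sl55 sv55
noncomputable def dt56 : DT := .quad sw56 sl56 sv56
noncomputable def dt57 : DT := .quad sw57 sl57 sv57
noncomputable def dt58 : DT := .quad sw58 sl58 sv58
noncomputable def dt59 : DT := .quad sw59 sl59 sv59
noncomputable def dt60 : DT := .quad sw60 sl60 sv60
noncomputable def dt61 : DT := .quad sw61 sl61 sv61
noncomputable def dt62 : DT := .node ((Cn.rt 11 25).ng) dt39 dt40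
noncomputable def dt63 : DT := .node ((Cn.rt 47 100).ng) dt38 dt62
noncomputable def dt64 : DT := .node ((Cn.rt 33 100).ng) dt42 dt43
noncomputable def dt65 : DT := .node ((Cn.rt 37 100).ng) dt41 dt64
noncomputable def dt66 : DT := .node ((Cn.rt 2 5).ng) dt63 dt65
noncomputable def dt67 : DT := .node ((Cn.rt 11 50).ng) dt45 dt46
noncomputable def dt68 : DT := .node ((Cn.rt 1 4).ng) dt44 dt67
noncomputable def dt69 : DT := .node ((Cn.rt 11 100).ng) dt48 dt49
noncomputable def dt70 : DT := .node ((Cn.rt 7 50).ng) dt47 dt69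
noncomputable def dt71 : DT := .node ((Cn.rt 9 50).ng) dt68 dt70
noncomputable def dt72 : DT := .node ((Cn.rt 29 100).ng) dt66 dt71
noncomputable def dt73 : DT := .node (Cn.rt 11 2198) dt51 dt52
noncomputable def dt74 : DT := .node ((Cn.rt 3 100).ng) dt50 dt73
noncomputable def dt75 : DT := .node (Cn.rt 3 20) dt54 dt55
noncomputable def dt76 : DT := .node (Cn.rt 117 1000) dt53 dt75
noncomputable def dt77 : DT := .node (Cn.rt 13 134) dt74 dt76
noncomputable def dt78 : DT := .node (Cn.rt 29 100) dt57 dt58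
noncomputable def dt79 : DT := .node (Cn.rt 6 25) dt56 dt78
noncomputable def dt80 : DT := .node (Cn.rt 11 25) dt60 dt61
noncomputable def dt81 : DT := .node (Cn.rt 39 100) dt59 dt80
noncomputable def dt82 : DT := .node (Cn.rt 17 50) dt79 dt81
noncomputable def dt83 : DT := .node (Cn.rt 19 100) dt77 dt82
noncomputable def dt84 : DT := .node ((Cn.rt 7 100).ng) dt72 dt83
noncomputable def dt85 : DT := .lin sl85 sv85
noncomputable def dd : SDat := ⟨dt37, kcg, dt84, Kh.T⟩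
noncomputable def gf0 : Sg := ⟨cv1m, skf0, sxf0⟩
noncomputable def gf1 : Sg := ⟨cv1m, skf1, sxf1⟩
noncomputable def gf2 : Sg := ⟨cv1p, skf2, sxf2⟩
noncomputable def gf3 : Sg := ⟨cv1r, skf2, sxf2⟩
noncomputable def gl0 : Sg := ⟨cv7m, skl0, sxl0⟩
noncomputable def gl1 : Sg := ⟨cv7m, skl1, sxl1⟩
noncomputable def gl2 : Sg := ⟨cv7p, skl2, sxl2⟩
noncomputable def gl3 : Sg := ⟨cv7r, skl3, sxl3⟩
noncomputable def vv : Vt := ⟨(Cn.rt 11 2198), (Cn.rt 115471 100000), (Cn.rt 231 200), (Cn.rt 127 100), k0c, m0c, sbk, sbx, rhk, rhx, bf1q2, bx1q2, (Cn.rt 11 2198), (Cn.rt 115471 100000), skm, dt85⟩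
noncomputable def ff (q : ℕ) : Sg := match q with
  | 0 => gf0
  | 1 => gf1
  | 2 => gf2
  | _ => gf3
noncomputable def fl (q : ℕ) : Sg := match q with
  | 0 => gl0
  | 1 => gl1
  | 2 => gl2
  | _ => gl3
noncomputable def tt : STab 8 := ⟨dd, 0, 7, ff, fl, vv⟩
noncomputable def ww : Wt := ⟨(Cn.rt 1 20), (Cn.rt 577 500), (Cn.rt 115469 100000), q1k, q1x, frw, cv2p, a2k0, a2k1, a2x0, a2x1, b2k0, b2k1, b2x0, b2x1, rsbq2A, rlq2A, ⟨rsbq2B, rlq2B⟩⟩
theorem kcl0 {p x : ℝ} (h1 : -1 / 2 ≤ p) (h2 : p ≤ -9 / 20) : kcg.v p x = (-790545103 / 100000000 + (x - 251 / 400) * (22568317 / 10000000)) + (-21091399 / 625000 + (x - 251 / 400) * (12252711 / 1000000)) * p + (-9100759 / 250000 + (x - 251 / 400) * (680717 / 50000)) * p ^ 2 := by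
  simp only [kcg, kcg_3, kcg_6, kcg_9, kcg_12, kcg_13, kcg_16, kcg_28, kcg_36, kcg_41, kcg_53, kcg_61, kcg_62, kcg_67, kcg_79, kcg_86, kcg_87, kcg_92, kcg_102, kcg_107, kcg_112, kcg_125, kcg_135, kcg_138, kcg_139, kcg_143, kcg_156, kcg_161, kcg_164, kcg_175, kcg_183, kcg_184, kcg_187, kcg_195, kcg_203, kcg_206, kcg_214, kcg_219, kcg_226, kcg_227, kcg_228, kcg_248, kcg_257, kcg_277, kcg_278, kcg_299]
  rcases eq_or_lt_of_le h1 with h | h1
  · subst h
    ((try push_cast); (repeat first | rw [if_pos (by linarith)] | rw [if_neg (by linarith)] | erw [if_pos (by linarith)] | erw [if_neg (by linarith)]); (try push_cast); (try ring1))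
  rcases eq_or_lt_of_le h2 with h | h2
  · subst h
    ((try push_cast); (repeat first | rw [if_pos (by linarith)] | rw [if_neg (by linarith)] | erw [if_pos (by linarith)] | erw [if_neg (by linarith)]); (try push_cast); (try ring1))
  · ((try push_cast); (repeat first | rw [if_pos (by linarith)] | rw [if_neg (by linarith)] | erw [if_pos (by linarith)] | erw [if_neg (by linarith)]); (try push_cast); (try ring1))
theorem kcl1 {p x : ℝ} (h1 : -9 / 20 ≤ p) (h2 : p ≤ -2 / 5) : kcg.v p x = (-14558677 / 10000000 + (x - 251 / 400) * (-5000303 / 10000000)) + (-20325693 / 4000000 + (x - 251 / 400) * (-3 / 400000)) * p + (-4553241 / 1000000 + (x - 251 / 400) * (21 / 100000)) * p ^ 2 := by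
  simp only [kcg, kcg_3, kcg_6, kcg_9, kcg_12, kcg_13, kcg_16, kcg_28, kcg_36, kcg_41, kcg_53, kcg_61, kcg_62, kcg_67, kcg_79, kcg_86, kcg_87, kcg_92, kcg_102, kcg_107, kcg_112, kcg_125, kcg_135, kcg_138, kcg_139, kcg_143, kcg_156, kcg_161, kcg_164, kcg_175, kcg_183, kcg_184, kcg_187, kcg_195, kcg_203, kcg_206, kcg_214, kcg_219, kcg_226, kcg_227, kcg_228, kcg_248, kcg_257, kcg_277, kcg_278, kcg_299]
  rcases eq_or_lt_of_le h1 with h | h1
  · subst h
    ((try push_cast); (repeat first | rw [if_pos (by linarith)] | rw [if_neg (by linarith)] | erw [if_pos (by linarith)] | erw [if_neg (by linarith)]); (try push_cast); (try ring1))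
  rcases eq_or_lt_of_le h2 with h | h2
  · subst h
    ((try push_cast); (repeat first | rw [if_pos (by linarith)] | rw [if_neg (by linarith)] | erw [if_pos (by linarith)] | erw [if_neg (by linarith)]); (try push_cast); (try ring1))
  · ((try push_cast); (repeat first | rw [if_pos (by linarith)] | rw [if_neg (by linarith)] | erw [if_pos (by linarith)] | erw [if_neg (by linarith)]); (try push_cast); (try ring1))
theorem kcl2 {p x : ℝ} (h1 : -2 / 5 ≤ p) (h2 : p ≤ -7 / 20) : kcg.v p x = (-36653967 / 12500000 + (x - 251 / 400) * (-999451 / 2000000)) + (-62318359 / 5000000 + (x - 251 / 400) * (3029 / 2000000)) * p + (-3445263 / 250000 + (x - 251 / 400) * (211 / 100000)) * p ^ 2 := by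
  simp only [kcg, kcg_3, kcg_6, kcg_9, kcg_12, kcg_13, kcg_16, kcg_28, kcg_36, kcg_41, kcg_53, kcg_61, kcg_62, kcg_67, kcg_79, kcg_86, kcg_87, kcg_92, kcg_102, kcg_107, kcg_112, kcg_125, kcg_135, kcg_138, kcg_139, kcg_143, kcg_156, kcg_161, kcg_164, kcg_175, kcg_183, kcg_184, kcg_187, kcg_195, kcg_203, kcg_206, kcg_214, kcg_219, kcg_226, kcg_227, kcg_228, kcg_248, kcg_257, kcg_277, kcg_278, kcg_299]
  rcases eq_or_lt_of_le h1 with h | h1
  · subst h
    ((try push_cast); (repeat first | rw [if_pos (by linarith)] | rw [if_neg (by linarith)] | erw [if_pos (by linarith)] | erw [if_neg (by linarith)]); (try push_cast); (try ring1))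
  rcases eq_or_lt_of_le h2 with h | h2
  · subst h
    ((try push_cast); (repeat first | rw [if_pos (by linarith)] | rw [if_neg (by linarith)] | erw [if_pos (by linarith)] | erw [if_neg (by linarith)]); (try push_cast); (try ring1))
  · ((try push_cast); (repeat first | rw [if_pos (by linarith)] | rw [if_neg (by linarith)] | erw [if_pos (by linarith)] | erw [if_neg (by linarith)]); (try push_cast); (try ring1))
theorem kcl3 {p x : ℝ} (h1 : -7 / 20 ≤ p) (h2 : p ≤ -3 / 10) : kcg.v p x = (-169690493 / 100000000 + (x - 251 / 400) * (-1250299 / 2500000)) + (-1351043 / 250000 + (x - 251 / 400) * (-147 / 200000)) * p + (-924013 / 250000 + (x - 251 / 400) * (-11 / 10000)) * p ^ 2 := by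
  simp only [kcg, kcg_3, kcg_6, kcg_9, kcg_12, kcg_13, kcg_16, kcg_28, kcg_36, kcg_41, kcg_53, kcg_61, kcg_62, kcg_67, kcg_79, kcg_86, kcg_87, kcg_92, kcg_102, kcg_107, kcg_112, kcg_125, kcg_135, kcg_138, kcg_139, kcg_143, kcg_156, kcg_161, kcg_164, kcg_175, kcg_183, kcg_184, kcg_187, kcg_195, kcg_203, kcg_206, kcg_214, kcg_219, kcg_226, kcg_227, kcg_228, kcg_248, kcg_257, kcg_277, kcg_278, kcg_299]
  rcases eq_or_lt_of_le h1 with h | h1
  · subst h
    ((try push_cast); (repeat first | rw [if_pos (by linarith)] | rw [if_neg (by linarith)] | erw [if_pos (by linarith)] | erw [if_neg (by linarith)]); (try push_cast); (try ring1))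
  rcases eq_or_lt_of_le h2 with h | h2
  · subst h
    ((try push_cast); (repeat first | rw [if_pos (by linarith)] | rw [if_neg (by linarith)] | erw [if_pos (by linarith)] | erw [if_neg (by linarith)]); (try push_cast); (try ring1))
  · ((try push_cast); (repeat first | rw [if_pos (by linarith)] | rw [if_neg (by linarith)] | erw [if_pos (by linarith)] | erw [if_neg (by linarith)]); (try push_cast); (try ring1))
theorem kcl4 {p x : ℝ} (h1 : -3 / 10 ≤ p) (h2 : p ≤ -1 / 4) : kcg.v p x = (130281971 / 200000000 + (x - 251 / 400) * (-4999549 / 10000000)) + (205025201 / 20000000 + (x - 251 / 400) * (9 / 25000)) * p + (4479267 / 200000 + (x - 251 / 400) * (9 / 12500)) * p ^ 2 := by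
  simp only [kcg, kcg_3, kcg_6, kcg_9, kcg_12, kcg_13, kcg_16, kcg_28, kcg_36, kcg_41, kcg_53, kcg_61, kcg_62, kcg_67, kcg_79, kcg_86, kcg_87, kcg_92, kcg_102, kcg_107, kcg_112, kcg_125, kcg_135, kcg_138, kcg_139, kcg_143, kcg_156, kcg_161, kcg_164, kcg_175, kcg_183, kcg_184, kcg_187, kcg_195, kcg_203, kcg_206, kcg_214, kcg_219, kcg_226, kcg_227, kcg_228, kcg_248, kcg_257, kcg_277, kcg_278, kcg_299]
  rcases eq_or_lt_of_le h1 with h | h1
  · subst h
    ((try push_cast); (repeat first | rw [if_pos (by linarith)] | rw [if_neg (by linarith)] | erw [if_pos (by linarith)] | erw [if_neg (by linarith)]); (try push_cast); (try ring1))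
  rcases eq_or_lt_of_le h2 with h | h2
  · subst h
    ((try push_cast); (repeat first | rw [if_pos (by linarith)] | rw [if_neg (by linarith)] | erw [if_pos (by linarith)] | erw [if_neg (by linarith)]); (try push_cast); (try ring1))
  · ((try push_cast); (repeat first | rw [if_pos (by linarith)] | rw [if_neg (by linarith)] | erw [if_pos (by linarith)] | erw [if_neg (by linarith)]); (try push_cast); (try ring1))
theorem kcl5 {p x : ℝ} (h1 : -1 / 4 ≤ p) (h2 : p ≤ -1 / 5) : kcg.v p x = (88962663 / 100000000 + (x - 251 / 400) * (-2499997 / 5000000)) + (121569939 / 10000000 + (x - 251 / 400) * (7 / 1000000)) * p + (13103901 / 500000 + (x - 251 / 400) * (1 / 50000)) * p ^ 2 := by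
  simp only [kcg, kcg_3, kcg_6, kcg_9, kcg_12, kcg_13, kcg_16, kcg_28, kcg_36, kcg_41, kcg_53, kcg_61, kcg_62, kcg_67, kcg_79, kcg_86, kcg_87, kcg_92, kcg_102, kcg_107, kcg_112, kcg_125, kcg_135, kcg_138, kcg_139, kcg_143, kcg_156, kcg_161, kcg_164, kcg_175, kcg_183, kcg_184, kcg_187, kcg_195, kcg_203, kcg_206, kcg_214, kcg_219, kcg_226, kcg_227, kcg_228, kcg_248, kcg_257, kcg_277, kcg_278, kcg_299]
  rcases eq_or_lt_of_le h1 with h | h1
  · subst h
    ((try push_cast); (repeat first | rw [if_pos (by linarith)] | rw [if_neg (by linarith)] | erw [if_pos (by linarith)] | erw [if_neg (by linarith)]); (try push_cast); (try ring1))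
  rcases eq_or_lt_of_le h2 with h | h2
  · subst h
    ((try push_cast); (repeat first | rw [if_pos (by linarith)] | rw [if_neg (by linarith)] | erw [if_pos (by linarith)] | erw [if_neg (by linarith)]); (try push_cast); (try ring1))
  · ((try push_cast); (repeat first | rw [if_pos (by linarith)] | rw [if_neg (by linarith)] | erw [if_pos (by linarith)] | erw [if_neg (by linarith)]); (try push_cast); (try ring1))
theorem kcl6 {p x : ℝ} (h1 : -1 / 5 ≤ p) (h2 : p ≤ -3 / 20) : kcg.v p x = (53397527 / 100000000 + (x - 251 / 400) * (16200477 / 5000000)) + (86004803 / 10000000 + (x - 251 / 400) * (37400953 / 1000000)) * p + (8658259 / 500000 + (x - 251 / 400) * (4675119 / 50000)) * p ^ 2 := by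
  simp only [kcg, kcg_3, kcg_6, kcg_9, kcg_12, kcg_13, kcg_16, kcg_28, kcg_36, kcg_41, kcg_53, kcg_61, kcg_62, kcg_67, kcg_79, kcg_86, kcg_87, kcg_92, kcg_102, kcg_107, kcg_112, kcg_125, kcg_135, kcg_138, kcg_139, kcg_143, kcg_156, kcg_161, kcg_164, kcg_175, kcg_183, kcg_184, kcg_187, kcg_195, kcg_203, kcg_206, kcg_214, kcg_219, kcg_226, kcg_227, kcg_228, kcg_248, kcg_257, kcg_277, kcg_278, kcg_299]
  rcases eq_or_lt_of_le h1 with h | h1
  · subst h
    ((try push_cast); (repeat first | rw [if_pos (by linarith)] | rw [if_neg (by linarith)] | erw [if_pos (by linarith)] | erw [if_neg (by linarith)]); (try push_cast); (try ring1))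
  rcases eq_or_lt_of_le h2 with h | h2
  · subst h
    ((try push_cast); (repeat first | rw [if_pos (by linarith)] | rw [if_neg (by linarith)] | erw [if_pos (by linarith)] | erw [if_neg (by linarith)]); (try push_cast); (try ring1))
  · ((try push_cast); (repeat first | rw [if_pos (by linarith)] | rw [if_neg (by linarith)] | erw [if_pos (by linarith)] | erw [if_neg (by linarith)]); (try push_cast); (try ring1))
theorem kcl7 {p x : ℝ} (h1 : -3 / 20 ≤ p) (h2 : p ≤ -1 / 10) : kcg.v p x = (-3008017 / 100000000 + (x - 251 / 400) * (-8213157 / 10000000)) + (2699353 / 2500000 + (x - 251 / 400) * (-3350239 / 200000)) * p + (-1938153 / 250000 + (x - 251 / 400) * (-4350239 / 50000)) * p ^ 2 := by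
  simp only [kcg, kcg_3, kcg_6, kcg_9, kcg_12, kcg_13, kcg_16, kcg_28, kcg_36, kcg_41, kcg_53, kcg_61, kcg_62, kcg_67, kcg_79, kcg_86, kcg_87, kcg_92, kcg_102, kcg_107, kcg_112, kcg_125, kcg_135, kcg_138, kcg_139, kcg_143, kcg_156, kcg_161, kcg_164, kcg_175, kcg_183, kcg_184, kcg_187, kcg_195, kcg_203, kcg_206, kcg_214, kcg_219, kcg_226, kcg_227, kcg_228, kcg_248, kcg_257, kcg_277, kcg_278, kcg_299]
  rcases eq_or_lt_of_le h1 with h | h1
  · subst h
    ((try push_cast); (repeat first | rw [if_pos (by linarith)] | rw [if_neg (by linarith)] | erw [if_pos (by linarith)] | erw [if_neg (by linarith)]); (try push_cast); (try ring1))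
  rcases eq_or_lt_of_le h2 with h | h2
  · subst h
    ((try push_cast); (repeat first | rw [if_pos (by linarith)] | rw [if_neg (by linarith)] | erw [if_pos (by linarith)] | erw [if_neg (by linarith)]); (try push_cast); (try ring1))
  · ((try push_cast); (repeat first | rw [if_pos (by linarith)] | rw [if_neg (by linarith)] | erw [if_pos (by linarith)] | erw [if_neg (by linarith)]); (try push_cast); (try ring1))
theorem kcl8 {p x : ℝ} (h1 : -1 / 10 ≤ p) (h2 : p ≤ -1 / 20) : kcg.v p x = (-1581531 / 100000000 + (x - 251 / 400) * (-4061 / 250000)) + (6825191 / 5000000 + (x - 251 / 400) * (-4061 / 6250)) * p + (-395383 / 62500 + (x - 251 / 400) * (-4061 / 625)) * p ^ 2 := by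
  simp only [kcg, kcg_3, kcg_6, kcg_9, kcg_12, kcg_13, kcg_16, kcg_28, kcg_36, kcg_41, kcg_53, kcg_61, kcg_62, kcg_67, kcg_79, kcg_86, kcg_87, kcg_92, kcg_102, kcg_107, kcg_112, kcg_125, kcg_135, kcg_138, kcg_139, kcg_143, kcg_156, kcg_161, kcg_164, kcg_175, kcg_183, kcg_184, kcg_187, kcg_195, kcg_203, kcg_206, kcg_214, kcg_219, kcg_226, kcg_227, kcg_228, kcg_248, kcg_257, kcg_277, kcg_278, kcg_299]
  rcases eq_or_lt_of_le h1 with h | h1
  · subst h
    ((try push_cast); (repeat first | rw [if_pos (by linarith)] | rw [if_neg (by linarith)] | erw [if_pos (by linarith)] | erw [if_neg (by linarith)]); (try push_cast); (try ring1))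
  rcases eq_or_lt_of_le h2 with h | h2
  · subst h
    ((try push_cast); (repeat first | rw [if_pos (by linarith)] | rw [if_neg (by linarith)] | erw [if_pos (by linarith)] | erw [if_neg (by linarith)]); (try push_cast); (try ring1))
  · ((try push_cast); (repeat first | rw [if_pos (by linarith)] | rw [if_neg (by linarith)] | erw [if_pos (by linarith)] | erw [if_neg (by linarith)]); (try push_cast); (try ring1))
theorem kcl9 {p x : ℝ} (h1 : -1 / 20 ≤ p) (h2 : p ≤ 1 / 20) : kcg.v p x = (0) + (4994127 / 2500000) * p := by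
  simp only [kcg, kcg_3, kcg_6, kcg_9, kcg_12, kcg_13, kcg_16, kcg_28, kcg_36, kcg_41, kcg_53, kcg_61, kcg_62, kcg_67, kcg_79, kcg_86, kcg_87, kcg_92, kcg_102, kcg_107, kcg_112, kcg_125, kcg_135, kcg_138, kcg_139, kcg_143, kcg_156, kcg_161, kcg_164, kcg_175, kcg_183, kcg_184, kcg_187, kcg_195, kcg_203, kcg_206, kcg_214, kcg_219, kcg_226, kcg_227, kcg_228, kcg_248, kcg_257, kcg_277, kcg_278, kcg_299]
  rcases eq_or_lt_of_le h1 with h | h1
  · subst h
    ((try push_cast); (repeat first | rw [if_pos (by linarith)] | rw [if_neg (by linarith)] | erw [if_pos (by linarith)] | erw [if_neg (by linarith)]); (try push_cast); (try ring1))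
  rcases eq_or_lt_of_le h2 with h | h2
  · subst h
    ((try push_cast); (repeat first | rw [if_pos (by linarith)] | rw [if_neg (by linarith)] | erw [if_pos (by linarith)] | erw [if_neg (by linarith)]); (try push_cast); (try ring1))
  rcases lt_trichotomy p 0 with h | h | h
  · ((try push_cast); (repeat first | rw [if_pos (by linarith)] | rw [if_neg (by linarith)] | erw [if_pos (by linarith)] | erw [if_neg (by linarith)]); (try push_cast); (try ring1))
  · subst h
    ((try push_cast); (repeat first | rw [if_pos (by linarith)] | rw [if_neg (by linarith)] | erw [if_pos (by linarith)] | erw [if_neg (by linarith)]); (try push_cast); (try ring1))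
  · ((try push_cast); (repeat first | rw [if_pos (by linarith)] | rw [if_neg (by linarith)] | erw [if_pos (by linarith)] | erw [if_neg (by linarith)]); (try push_cast); (try ring1))
theorem kcl10 {p x : ℝ} (h1 : 1 / 20 ≤ p) (h2 : p ≤ 1 / 10) : kcg.v p x = (1581531 / 100000000 + (x - 251 / 400) * (4061 / 250000)) + (6825191 / 5000000 + (x - 251 / 400) * (-4061 / 6250)) * p + (395383 / 62500 + (x - 251 / 400) * (4061 / 625)) * p ^ 2 := by
  simp only [kcg, kcg_3, kcg_6, kcg_9, kcg_12, kcg_13, kcg_16, kcg_28, kcg_36, kcg_41, kcg_53, kcg_61, kcg_62, kcg_67, kcg_79, kcg_86, kcg_87, kcg_92, kcg_102, kcg_107, kcg_112, kcg_125, kcg_135, kcg_138, kcg_139, kcg_143, kcg_156, kcg_161, kcg_164, kcg_175, kcg_183, kcg_184, kcg_187, kcg_195, kcg_203, kcg_206, kcg_214, kcg_219, kcg_226, kcg_227, kcg_228, kcg_248, kcg_257, kcg_277, kcg_278, kcg_299]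
  rcases eq_or_lt_of_le h1 with h | h1
  · subst h
    ((try push_cast); (repeat first | rw [if_pos (by linarith)] | rw [if_neg (by linarith)] | erw [if_pos (by linarith)] | erw [if_neg (by linarith)]); (try push_cast); (try ring1))
  rcases eq_or_lt_of_le h2 with h | h2
  · subst h
    ((try push_cast); (repeat first | rw [if_pos (by linarith)] | rw [if_neg (by linarith)] | erw [if_pos (by linarith)] | erw [if_neg (by linarith)]); (try push_cast); (try ring1))
  · ((try push_cast); (repeat first | rw [if_pos (by linarith)] | rw [if_neg (by linarith)] | erw [if_pos (by linarith)] | erw [if_neg (by linarith)]); (try push_cast); (try ring1))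
theorem kcl11 {p x : ℝ} (h1 : 1 / 10 ≤ p) (h2 : p ≤ 3 / 20) : kcg.v p x = (3008017 / 100000000 + (x - 251 / 400) * (8213157 / 10000000)) + (2699353 / 2500000 + (x - 251 / 400) * (-3350239 / 200000)) * p + (1938153 / 250000 + (x - 251 / 400) * (4350239 / 50000)) * p ^ 2 := by
  simp only [kcg, kcg_3, kcg_6, kcg_9, kcg_12, kcg_13, kcg_16, kcg_28, kcg_36, kcg_41, kcg_53, kcg_61, kcg_62, kcg_67, kcg_79, kcg_86, kcg_87, kcg_92, kcg_102, kcg_107, kcg_112, kcg_125, kcg_135, kcg_138, kcg_139, kcg_143, kcg_156, kcg_161, kcg_164, kcg_175, kcg_183, kcg_184, kcg_187, kcg_195, kcg_203, kcg_206, kcg_214, kcg_219, kcg_226, kcg_227, kcg_228, kcg_248, kcg_257, kcg_277, kcg_278, kcg_299]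
  rcases eq_or_lt_of_le h1 with h | h1
  · subst h
    ((try push_cast); (repeat first | rw [if_pos (by linarith)] | rw [if_neg (by linarith)] | erw [if_pos (by linarith)] | erw [if_neg (by linarith)]); (try push_cast); (try ring1))
  rcases eq_or_lt_of_le h2 with h | h2
  · subst h
    ((try push_cast); (repeat first | rw [if_pos (by linarith)] | rw [if_neg (by linarith)] | erw [if_pos (by linarith)] | erw [if_neg (by linarith)]); (try push_cast); (try ring1))
  · ((try push_cast); (repeat first | rw [if_pos (by linarith)] | rw [if_neg (by linarith)] | erw [if_pos (by linarith)] | erw [if_neg (by linarith)]); (try push_cast); (try ring1))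
theorem kcl12 {p x : ℝ} (h1 : 3 / 20 ≤ p) (h2 : p ≤ 1 / 5) : kcg.v p x = (-53397527 / 100000000 + (x - 251 / 400) * (-16200477 / 5000000)) + (86004803 / 10000000 + (x - 251 / 400) * (37400953 / 1000000)) * p + (-8658259 / 500000 + (x - 251 / 400) * (-4675119 / 50000)) * p ^ 2 := by
  simp only [kcg, kcg_3, kcg_6, kcg_9, kcg_12, kcg_13, kcg_16, kcg_28, kcg_36, kcg_41, kcg_53, kcg_61, kcg_62, kcg_67, kcg_79, kcg_86, kcg_87, kcg_92, kcg_102, kcg_107, kcg_112, kcg_125, kcg_135, kcg_138, kcg_139, kcg_143, kcg_156, kcg_161, kcg_164, kcg_175, kcg_183, kcg_184, kcg_187, kcg_195, kcg_203, kcg_206, kcg_214, kcg_219, kcg_226, kcg_227, kcg_228, kcg_248, kcg_257, kcg_277, kcg_278, kcg_299]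
  rcases eq_or_lt_of_le h1 with h | h1
  · subst h
    ((try push_cast); (repeat first | rw [if_pos (by linarith)] | rw [if_neg (by linarith)] | erw [if_pos (by linarith)] | erw [if_neg (by linarith)]); (try push_cast); (try ring1))
  rcases eq_or_lt_of_le h2 with h | h2
  · subst h
    ((try push_cast); (repeat first | rw [if_pos (by linarith)] | rw [if_neg (by linarith)] | erw [if_pos (by linarith)] | erw [if_neg (by linarith)]); (try push_cast); (try ring1))
  · ((try push_cast); (repeat first | rw [if_pos (by linarith)] | rw [if_neg (by linarith)] | erw [if_pos (by linarith)] | erw [if_neg (by linarith)]); (try push_cast); (try ring1))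
theorem kcl13 {p x : ℝ} (h1 : 1 / 5 ≤ p) (h2 : p ≤ 1 / 4) : kcg.v p x = (-88962663 / 100000000 + (x - 251 / 400) * (2499997 / 5000000)) + (121569939 / 10000000 + (x - 251 / 400) * (7 / 1000000)) * p + (-13103901 / 500000 + (x - 251 / 400) * (-1 / 50000)) * p ^ 2 := by
  simp only [kcg, kcg_3, kcg_6, kcg_9, kcg_12, kcg_13, kcg_16, kcg_28, kcg_36, kcg_41, kcg_53, kcg_61, kcg_62, kcg_67, kcg_79, kcg_86, kcg_87, kcg_92, kcg_102, kcg_107, kcg_112, kcg_125, kcg_135, kcg_138, kcg_139, kcg_143, kcg_156, kcg_161, kcg_164, kcg_175, kcg_183, kcg_184, kcg_187, kcg_195, kcg_203, kcg_206, kcg_214, kcg_219, kcg_226, kcg_227, kcg_228, kcg_248, kcg_257, kcg_277, kcg_278, kcg_299]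
  rcases eq_or_lt_of_le h1 with h | h1
  · subst h
    ((try push_cast); (repeat first | rw [if_pos (by linarith)] | rw [if_neg (by linarith)] | erw [if_pos (by linarith)] | erw [if_neg (by linarith)]); (try push_cast); (try ring1))
  rcases eq_or_lt_of_le h2 with h | h2
  · subst h
    ((try push_cast); (repeat first | rw [if_pos (by linarith)] | rw [if_neg (by linarith)] | erw [if_pos (by linarith)] | erw [if_neg (by linarith)]); (try push_cast); (try ring1))
  · ((try push_cast); (repeat first | rw [if_pos (by linarith)] | rw [if_neg (by linarith)] | erw [if_pos (by linarith)] | erw [if_neg (by linarith)]); (try push_cast); (try ring1))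
theorem kcl14 {p x : ℝ} (h1 : 1 / 4 ≤ p) (h2 : p ≤ 3 / 10) : kcg.v p x = (-130281971 / 200000000 + (x - 251 / 400) * (4999549 / 10000000)) + (205025201 / 20000000 + (x - 251 / 400) * (9 / 25000)) * p + (-4479267 / 200000 + (x - 251 / 400) * (-9 / 12500)) * p ^ 2 := by
  simp only [kcg, kcg_3, kcg_6, kcg_9, kcg_12, kcg_13, kcg_16, kcg_28, kcg_36, kcg_41, kcg_53, kcg_61, kcg_62, kcg_67, kcg_79, kcg_86, kcg_87, kcg_92, kcg_102, kcg_107, kcg_112, kcg_125, kcg_135, kcg_138, kcg_139, kcg_143, kcg_156, kcg_161, kcg_164, kcg_175, kcg_183, kcg_184, kcg_187, kcg_195, kcg_203, kcg_206, kcg_214, kcg_219, kcg_226, kcg_227, kcg_228, kcg_248, kcg_257, kcg_277, kcg_278, kcg_299]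
  rcases eq_or_lt_of_le h1 with h | h1
  · subst h
    ((try push_cast); (repeat first | rw [if_pos (by linarith)] | rw [if_neg (by linarith)] | erw [if_pos (by linarith)] | erw [if_neg (by linarith)]); (try push_cast); (try ring1))
  rcases eq_or_lt_of_le h2 with h | h2
  · subst h
    ((try push_cast); (repeat first | rw [if_pos (by linarith)] | rw [if_neg (by linarith)] | erw [if_pos (by linarith)] | erw [if_neg (by linarith)]); (try push_cast); (try ring1))
  · ((try push_cast); (repeat first | rw [if_pos (by linarith)] | rw [if_neg (by linarith)] | erw [if_pos (by linarith)] | erw [if_neg (by linarith)]); (try push_cast); (try ring1))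
theorem kcl15 {p x : ℝ} (h1 : 3 / 10 ≤ p) (h2 : p ≤ 7 / 20) : kcg.v p x = (169690493 / 100000000 + (x - 251 / 400) * (1250299 / 2500000)) + (-1351043 / 250000 + (x - 251 / 400) * (-147 / 200000)) * p + (924013 / 250000 + (x - 251 / 400) * (11 / 10000)) * p ^ 2 := by
  simp only [kcg, kcg_3, kcg_6, kcg_9, kcg_12, kcg_13, kcg_16, kcg_28, kcg_36, kcg_41, kcg_53, kcg_61, kcg_62, kcg_67, kcg_79, kcg_86, kcg_87, kcg_92, kcg_102, kcg_107, kcg_112, kcg_125, kcg_135, kcg_138, kcg_139, kcg_143, kcg_156, kcg_161, kcg_164, kcg_175, kcg_183, kcg_184, kcg_187, kcg_195, kcg_203, kcg_206, kcg_214, kcg_219, kcg_226, kcg_227, kcg_228, kcg_248, kcg_257, kcg_277, kcg_278, kcg_299]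
  rcases eq_or_lt_of_le h1 with h | h1
  · subst h
    ((try push_cast); (repeat first | rw [if_pos (by linarith)] | rw [if_neg (by linarith)] | erw [if_pos (by linarith)] | erw [if_neg (by linarith)]); (try push_cast); (try ring1))
  rcases eq_or_lt_of_le h2 with h | h2
  · subst h
    ((try push_cast); (repeat first | rw [if_pos (by linarith)] | rw [if_neg (by linarith)] | erw [if_pos (by linarith)] | erw [if_neg (by linarith)]); (try push_cast); (try ring1))
  · ((try push_cast); (repeat first | rw [if_pos (by linarith)] | rw [if_neg (by linarith)] | erw [if_pos (by linarith)] | erw [if_neg (by linarith)]); (try push_cast); (try ring1))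
theorem kcl16 {p x : ℝ} (h1 : 7 / 20 ≤ p) (h2 : p ≤ 2 / 5) : kcg.v p x = (36653967 / 12500000 + (x - 251 / 400) * (999451 / 2000000)) + (-62318359 / 5000000 + (x - 251 / 400) * (3029 / 2000000)) * p + (3445263 / 250000 + (x - 251 / 400) * (-211 / 100000)) * p ^ 2 := by
  simp only [kcg, kcg_3, kcg_6, kcg_9, kcg_12, kcg_13, kcg_16, kcg_28, kcg_36, kcg_41, kcg_53, kcg_61, kcg_62, kcg_67, kcg_79, kcg_86, kcg_87, kcg_92, kcg_102, kcg_107, kcg_112, kcg_125, kcg_135, kcg_138, kcg_139, kcg_143, kcg_156, kcg_161, kcg_164, kcg_175, kcg_183, kcg_184, kcg_187, kcg_195, kcg_203, kcg_206, kcg_214, kcg_219, kcg_226, kcg_227, kcg_228, kcg_248, kcg_257, kcg_277, kcg_278, kcg_299]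
  rcases eq_or_lt_of_le h1 with h | h1
  · subst h
    ((try push_cast); (repeat first | rw [if_pos (by linarith)] | rw [if_neg (by linarith)] | erw [if_pos (by linarith)] | erw [if_neg (by linarith)]); (try push_cast); (try ring1))
  rcases eq_or_lt_of_le h2 with h | h2
  · subst h
    ((try push_cast); (repeat first | rw [if_pos (by linarith)] | rw [if_neg (by linarith)] | erw [if_pos (by linarith)] | erw [if_neg (by linarith)]); (try push_cast); (try ring1))
  · ((try push_cast); (repeat first | rw [if_pos (by linarith)] | rw [if_neg (by linarith)] | erw [if_pos (by linarith)] | erw [if_neg (by linarith)]); (try push_cast); (try ring1))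
theorem kcl17 {p x : ℝ} (h1 : 2 / 5 ≤ p) (h2 : p ≤ 9 / 20) : kcg.v p x = (14558677 / 10000000 + (x - 251 / 400) * (5000303 / 10000000)) + (-20325693 / 4000000 + (x - 251 / 400) * (-3 / 400000)) * p + (4553241 / 1000000 + (x - 251 / 400) * (-21 / 100000)) * p ^ 2 := by
  simp only [kcg, kcg_3, kcg_6, kcg_9, kcg_12, kcg_13, kcg_16, kcg_28, kcg_36, kcg_41, kcg_53, kcg_61, kcg_62, kcg_67, kcg_79, kcg_86, kcg_87, kcg_92, kcg_102, kcg_107, kcg_112, kcg_125, kcg_135, kcg_138, kcg_139, kcg_143, kcg_156, kcg_161, kcg_164, kcg_175, kcg_183, kcg_184, kcg_187, kcg_195, kcg_203, kcg_206, kcg_214, kcg_219, kcg_226, kcg_227, kcg_228, kcg_248, kcg_257, kcg_277, kcg_278, kcg_299]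
  rcases eq_or_lt_of_le h1 with h | h1
  · subst h
    ((try push_cast); (repeat first | rw [if_pos (by linarith)] | rw [if_neg (by linarith)] | erw [if_pos (by linarith)] | erw [if_neg (by linarith)]); (try push_cast); (try ring1))
  rcases eq_or_lt_of_le h2 with h | h2
  · subst h
    ((try push_cast); (repeat first | rw [if_pos (by linarith)] | rw [if_neg (by linarith)] | erw [if_pos (by linarith)] | erw [if_neg (by linarith)]); (try push_cast); (try ring1))
  · ((try push_cast); (repeat first | rw [if_pos (by linarith)] | rw [if_neg (by linarith)] | erw [if_pos (by linarith)] | erw [if_neg (by linarith)]); (try push_cast); (try ring1))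
theorem kcl18 {p x : ℝ} (h1 : 9 / 20 ≤ p) (h2 : p ≤ 1 / 2) : kcg.v p x = (790545103 / 100000000 + (x - 251 / 400) * (-22568317 / 10000000)) + (-21091399 / 625000 + (x - 251 / 400) * (12252711 / 1000000)) * p + (9100759 / 250000 + (x - 251 / 400) * (-680717 / 50000)) * p ^ 2 := by
  simp only [kcg, kcg_3, kcg_6, kcg_9, kcg_12, kcg_13, kcg_16, kcg_28, kcg_36, kcg_41, kcg_53, kcg_61, kcg_62, kcg_67, kcg_79, kcg_86, kcg_87, kcg_92, kcg_102, kcg_107, kcg_112, kcg_125, kcg_135, kcg_138, kcg_139, kcg_143, kcg_156, kcg_161, kcg_164, kcg_175, kcg_183, kcg_184, kcg_187, kcg_195, kcg_203, kcg_206, kcg_214, kcg_219, kcg_226, kcg_227, kcg_228, kcg_248, kcg_257, kcg_277, kcg_278, kcg_299]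
  rcases eq_or_lt_of_le h1 with h | h1
  · subst h
    ((try push_cast); (repeat first | rw [if_pos (by linarith)] | rw [if_neg (by linarith)] | erw [if_pos (by linarith)] | erw [if_neg (by linarith)]); (try push_cast); (try ring1))
  rcases eq_or_lt_of_le h2 with h | h2
  · subst h
    ((try push_cast); (repeat first | rw [if_pos (by linarith)] | rw [if_neg (by linarith)] | erw [if_pos (by linarith)] | erw [if_neg (by linarith)]); (try push_cast); (try ring1))
  · ((try push_cast); (repeat first | rw [if_pos (by linarith)] | rw [if_neg (by linarith)] | erw [if_pos (by linarith)] | erw [if_neg (by linarith)]); (try push_cast); (try ring1))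
theorem kvh0 {p x : ℝ} (h2 : p ≤ -9 / 20) : dt37.kv p x = (-790545103 / 100000000 + (x - 251 / 400) * (22568317 / 10000000)) + (-21091399 / 625000 + (x - 251 / 400) * (12252711 / 1000000)) * p + (-9100759 / 250000 + (x - 251 / 400) * (680717 / 50000)) * p ^ 2 := by
  refine (DT.kv_le (by simp only [Cn.rt_v, Cn.ng_v]; push_cast; linarith)).trans ?_
  refine (DT.kv_le (by simp only [Cn.rt_v, Cn.ng_v]; push_cast; linarith)).trans ?_
  refine (DT.kv_le (by simp only [Cn.rt_v, Cn.ng_v]; push_cast; linarith)).trans ?_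
  refine (DT.kv_le (by simp only [Cn.rt_v, Cn.ng_v]; push_cast; linarith)).trans ?_
  simp only [dt1, DT.kv, sw1, sl1, sv1]
  ((try push_cast); ring1)
theorem kvh1 {p x : ℝ} (h1 : -9 / 20 < p) (h2 : p ≤ -2 / 5) : dt37.kv p x = (-14558677 / 10000000 + (x - 251 / 400) * (-5000303 / 10000000)) + (-20325693 / 4000000 + (x - 251 / 400) * (-3 / 400000)) * p + (-4553241 / 1000000 + (x - 251 / 400) * (21 / 100000)) * p ^ 2 := by
  refine (DT.kv_le (by simp only [Cn.rt_v, Cn.ng_v]; push_cast; linarith)).trans ?_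
  refine (DT.kv_le (by simp only [Cn.rt_v, Cn.ng_v]; push_cast; linarith)).trans ?_
  refine (DT.kv_le (by simp only [Cn.rt_v, Cn.ng_v]; push_cast; linarith)).trans ?_
  refine (DT.kv_gt (by simp only [Cn.rt_v, Cn.ng_v]; push_cast; linarith)).trans ?_
  simp only [dt2, DT.kv, sw2, sl2, sv2]
  ((try push_cast); ring1)
theorem kvh2 {p x : ℝ} (h1 : -2 / 5 < p) (h2 : p ≤ -7 / 20) : dt37.kv p x = (-36653967 / 12500000 + (x - 251 / 400) * (-999451 / 2000000)) + (-62318359 / 5000000 + (x - 251 / 400) * (3029 / 2000000)) * p + (-3445263 / 250000 + (x - 251 / 400) * (211 / 100000)) * p ^ 2 := by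
  refine (DT.kv_le (by simp only [Cn.rt_v, Cn.ng_v]; push_cast; linarith)).trans ?_
  refine (DT.kv_le (by simp only [Cn.rt_v, Cn.ng_v]; push_cast; linarith)).trans ?_
  refine (DT.kv_gt (by simp only [Cn.rt_v, Cn.ng_v]; push_cast; linarith)).trans ?_
  refine (DT.kv_le (by simp only [Cn.rt_v, Cn.ng_v]; push_cast; linarith)).trans ?_
  simp only [dt3, DT.kv, sw3, sl3, sv3]
  ((try push_cast); ring1)
theorem kvh3 {p x : ℝ} (h1 : -7 / 20 < p) (h2 : p ≤ -3 / 10) : dt37.kv p x = (-169690493 / 100000000 + (x - 251 / 400) * (-1250299 / 2500000)) + (-1351043 / 250000 + (x - 251 / 400) * (-147 / 200000)) * p + (-924013 / 250000 + (x - 251 / 400) * (-11 / 10000)) * p ^ 2 := by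
  refine (DT.kv_le (by simp only [Cn.rt_v, Cn.ng_v]; push_cast; linarith)).trans ?_
  refine (DT.kv_le (by simp only [Cn.rt_v, Cn.ng_v]; push_cast; linarith)).trans ?_
  refine (DT.kv_gt (by simp only [Cn.rt_v, Cn.ng_v]; push_cast; linarith)).trans ?_
  refine (DT.kv_gt (by simp only [Cn.rt_v, Cn.ng_v]; push_cast; linarith)).trans ?_
  simp only [dt4, DT.kv, sw4, sl4, sv4]
  ((try push_cast); ring1)
theorem kvh4 {p x : ℝ} (h1 : -3 / 10 < p) (h2 : p ≤ -1 / 4) : dt37.kv p x = (130281971 / 200000000 + (x - 251 / 400) * (-4999549 / 10000000)) + (205025201 / 20000000 + (x - 251 / 400) * (9 / 25000)) * p + (4479267 / 200000 + (x - 251 / 400) * (9 / 12500)) * p ^ 2 := by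
  refine (DT.kv_le (by simp only [Cn.rt_v, Cn.ng_v]; push_cast; linarith)).trans ?_
  refine (DT.kv_gt (by simp only [Cn.rt_v, Cn.ng_v]; push_cast; linarith)).trans ?_
  refine (DT.kv_le (by simp only [Cn.rt_v, Cn.ng_v]; push_cast; linarith)).trans ?_
  refine (DT.kv_le (by simp only [Cn.rt_v, Cn.ng_v]; push_cast; linarith)).trans ?_
  simp only [dt5, DT.kv, sw5, sl5, sv5]
  ((try push_cast); ring1)
theorem kvh5 {p x : ℝ} (h1 : -1 / 4 < p) (h2 : p ≤ -1 / 5) : dt37.kv p x = (88962663 / 100000000 + (x - 251 / 400) * (-2499997 / 5000000)) + (121569939 / 10000000 + (x - 251 / 400) * (7 / 1000000)) * p + (13103901 / 500000 + (x - 251 / 400) * (1 / 50000)) * p ^ 2 := by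
  refine (DT.kv_le (by simp only [Cn.rt_v, Cn.ng_v]; push_cast; linarith)).trans ?_
  refine (DT.kv_gt (by simp only [Cn.rt_v, Cn.ng_v]; push_cast; linarith)).trans ?_
  refine (DT.kv_le (by simp only [Cn.rt_v, Cn.ng_v]; push_cast; linarith)).trans ?_
  refine (DT.kv_gt (by simp only [Cn.rt_v, Cn.ng_v]; push_cast; linarith)).trans ?_
  simp only [dt6, DT.kv, sw6, sl6, sv6]
  ((try push_cast); ring1)
theorem kvh6 {p x : ℝ} (h1 : -1 / 5 < p) (h2 : p ≤ -3 / 20) : dt37.kv p x = (53397527 / 100000000 + (x - 251 / 400) * (16200477 / 5000000)) + (86004803 / 10000000 + (x - 251 / 400) * (37400953 / 1000000)) * p + (8658259 / 500000 + (x - 251 / 400) * (4675119 / 50000)) * p ^ 2 := by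
  refine (DT.kv_le (by simp only [Cn.rt_v, Cn.ng_v]; push_cast; linarith)).trans ?_
  refine (DT.kv_gt (by simp only [Cn.rt_v, Cn.ng_v]; push_cast; linarith)).trans ?_
  refine (DT.kv_gt (by simp only [Cn.rt_v, Cn.ng_v]; push_cast; linarith)).trans ?_
  refine (DT.kv_le (by simp only [Cn.rt_v, Cn.ng_v]; push_cast; linarith)).trans ?_
  simp only [dt7, DT.kv, sw7, sl7, sv7]
  ((try push_cast); ring1)
theorem kvh7 {p x : ℝ} (h1 : -3 / 20 < p) (h2 : p ≤ -1 / 10) : dt37.kv p x = (-3008017 / 100000000 + (x - 251 / 400) * (-8213157 / 10000000)) + (2699353 / 2500000 + (x - 251 / 400) * (-3350239 / 200000)) * p + (-1938153 / 250000 + (x - 251 / 400) * (-4350239 / 50000)) * p ^ 2 := by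
  refine (DT.kv_le (by simp only [Cn.rt_v, Cn.ng_v]; push_cast; linarith)).trans ?_
  refine (DT.kv_gt (by simp only [Cn.rt_v, Cn.ng_v]; push_cast; linarith)).trans ?_
  refine (DT.kv_gt (by simp only [Cn.rt_v, Cn.ng_v]; push_cast; linarith)).trans ?_
  refine (DT.kv_gt (by simp only [Cn.rt_v, Cn.ng_v]; push_cast; linarith)).trans ?_
  refine (DT.kv_le (by simp only [Cn.rt_v, Cn.ng_v]; push_cast; linarith)).trans ?_
  simp only [dt8, DT.kv, sw8, sl8, sv8]
  ((try push_cast); ring1)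
theorem kvh8 {p x : ℝ} (h1 : -1 / 10 < p) (h2 : p ≤ -1 / 20) : dt37.kv p x = (-1581531 / 100000000 + (x - 251 / 400) * (-4061 / 250000)) + (6825191 / 5000000 + (x - 251 / 400) * (-4061 / 6250)) * p + (-395383 / 62500 + (x - 251 / 400) * (-4061 / 625)) * p ^ 2 := by
  refine (DT.kv_le (by simp only [Cn.rt_v, Cn.ng_v]; push_cast; linarith)).trans ?_
  refine (DT.kv_gt (by simp only [Cn.rt_v, Cn.ng_v]; push_cast; linarith)).trans ?_
  refine (DT.kv_gt (by simp only [Cn.rt_v, Cn.ng_v]; push_cast; linarith)).trans ?_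
  refine (DT.kv_gt (by simp only [Cn.rt_v, Cn.ng_v]; push_cast; linarith)).trans ?_
  refine (DT.kv_gt (by simp only [Cn.rt_v, Cn.ng_v]; push_cast; linarith)).trans ?_
  simp only [dt9, DT.kv, sw9, sl9, sv9]
  ((try push_cast); ring1)
theorem kvh9 {p x : ℝ} (h1 : -1 / 20 < p) (h2 : p ≤ 1 / 20) : dt37.kv p x = (0) + (4994127 / 2500000) * p := by
  refine (DT.kv_gt (by simp only [Cn.rt_v, Cn.ng_v]; push_cast; linarith)).trans ?_
  refine (DT.kv_le (by simp only [Cn.rt_v, Cn.ng_v]; push_cast; linarith)).trans ?_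
  refine (DT.kv_le (by simp only [Cn.rt_v, Cn.ng_v]; push_cast; linarith)).trans ?_
  refine (DT.kv_le (by simp only [Cn.rt_v, Cn.ng_v]; push_cast; linarith)).trans ?_
  simp only [dt10, DT.kv, sl10, sv10]
  ((try push_cast); ring1)
theorem kvh10 {p x : ℝ} (h1 : 1 / 20 < p) (h2 : p ≤ 1 / 10) : dt37.kv p x = (1581531 / 100000000 + (x - 251 / 400) * (4061 / 250000)) + (6825191 / 5000000 + (x - 251 / 400) * (-4061 / 6250)) * p + (395383 / 62500 + (x - 251 / 400) * (4061 / 625)) * p ^ 2 := by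
  refine (DT.kv_gt (by simp only [Cn.rt_v, Cn.ng_v]; push_cast; linarith)).trans ?_
  refine (DT.kv_le (by simp only [Cn.rt_v, Cn.ng_v]; push_cast; linarith)).trans ?_
  refine (DT.kv_le (by simp only [Cn.rt_v, Cn.ng_v]; push_cast; linarith)).trans ?_
  refine (DT.kv_gt (by simp only [Cn.rt_v, Cn.ng_v]; push_cast; linarith)).trans ?_
  simp only [dt11, DT.kv, sw11, sl11, sv11]
  ((try push_cast); ring1)
theorem kvh11 {p x : ℝ} (h1 : 1 / 10 < p) (h2 : p ≤ 3 / 20) : dt37.kv p x = (3008017 / 100000000 + (x - 251 / 400) * (8213157 / 10000000)) + (2699353 / 2500000 + (x - 251 / 400) * (-3350239 / 200000)) * p + (1938153 / 250000 + (x - 251 / 400) * (4350239 / 50000)) * p ^ 2 := by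
  refine (DT.kv_gt (by simp only [Cn.rt_v, Cn.ng_v]; push_cast; linarith)).trans ?_
  refine (DT.kv_le (by simp only [Cn.rt_v, Cn.ng_v]; push_cast; linarith)).trans ?_
  refine (DT.kv_gt (by simp only [Cn.rt_v, Cn.ng_v]; push_cast; linarith)).trans ?_
  refine (DT.kv_le (by simp only [Cn.rt_v, Cn.ng_v]; push_cast; linarith)).trans ?_
  simp only [dt12, DT.kv, sw12, sl12, sv12]
  ((try push_cast); ring1)
theorem kvh12 {p x : ℝ} (h1 : 3 / 20 < p) (h2 : p ≤ 1 / 5) : dt37.kv p x = (-53397527 / 100000000 + (x - 251 / 400) * (-16200477 / 5000000)) + (86004803 / 10000000 + (x - 251 / 400) * (37400953 / 1000000)) * p + (-8658259 / 500000 + (x - 251 / 400) * (-4675119 / 50000)) * p ^ 2 := by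
  refine (DT.kv_gt (by simp only [Cn.rt_v, Cn.ng_v]; push_cast; linarith)).trans ?_
  refine (DT.kv_le (by simp only [Cn.rt_v, Cn.ng_v]; push_cast; linarith)).trans ?_
  refine (DT.kv_gt (by simp only [Cn.rt_v, Cn.ng_v]; push_cast; linarith)).trans ?_
  refine (DT.kv_gt (by simp only [Cn.rt_v, Cn.ng_v]; push_cast; linarith)).trans ?_
  refine (DT.kv_le (by simp only [Cn.rt_v, Cn.ng_v]; push_cast; linarith)).trans ?_
  simp only [dt13, DT.kv, sw13, sl13, sv13]
  ((try push_cast); ring1)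
theorem kvh13 {p x : ℝ} (h1 : 1 / 5 < p) (h2 : p ≤ 1 / 4) : dt37.kv p x = (-88962663 / 100000000 + (x - 251 / 400) * (2499997 / 5000000)) + (121569939 / 10000000 + (x - 251 / 400) * (7 / 1000000)) * p + (-13103901 / 500000 + (x - 251 / 400) * (-1 / 50000)) * p ^ 2 := by
  refine (DT.kv_gt (by simp only [Cn.rt_v, Cn.ng_v]; push_cast; linarith)).trans ?_
  refine (DT.kv_le (by simp only [Cn.rt_v, Cn.ng_v]; push_cast; linarith)).trans ?_
  refine (DT.kv_gt (by simp only [Cn.rt_v, Cn.ng_v]; push_cast; linarith)).trans ?_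
  refine (DT.kv_gt (by simp only [Cn.rt_v, Cn.ng_v]; push_cast; linarith)).trans ?_
  refine (DT.kv_gt (by simp only [Cn.rt_v, Cn.ng_v]; push_cast; linarith)).trans ?_
  simp only [dt14, DT.kv, sw14, sl14, sv14]
  ((try push_cast); ring1)
theorem kvh14 {p x : ℝ} (h1 : 1 / 4 < p) (h2 : p ≤ 3 / 10) : dt37.kv p x = (-130281971 / 200000000 + (x - 251 / 400) * (4999549 / 10000000)) + (205025201 / 20000000 + (x - 251 / 400) * (9 / 25000)) * p + (-4479267 / 200000 + (x - 251 / 400) * (-9 / 12500)) * p ^ 2 := by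
  refine (DT.kv_gt (by simp only [Cn.rt_v, Cn.ng_v]; push_cast; linarith)).trans ?_
  refine (DT.kv_gt (by simp only [Cn.rt_v, Cn.ng_v]; push_cast; linarith)).trans ?_
  refine (DT.kv_le (by simp only [Cn.rt_v, Cn.ng_v]; push_cast; linarith)).trans ?_
  refine (DT.kv_le (by simp only [Cn.rt_v, Cn.ng_v]; push_cast; linarith)).trans ?_
  simp only [dt15, DT.kv, sw15, sl15, sv15]
  ((try push_cast); ring1)
theorem kvh15 {p x : ℝ} (h1 : 3 / 10 < p) (h2 : p ≤ 7 / 20) : dt37.kv p x = (169690493 / 100000000 + (x - 251 / 400) * (1250299 / 2500000)) + (-1351043 / 250000 + (x - 251 / 400) * (-147 / 200000)) * p + (924013 / 250000 + (x - 251 / 400) * (11 / 10000)) * p ^ 2 := by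
  refine (DT.kv_gt (by simp only [Cn.rt_v, Cn.ng_v]; push_cast; linarith)).trans ?_
  refine (DT.kv_gt (by simp only [Cn.rt_v, Cn.ng_v]; push_cast; linarith)).trans ?_
  refine (DT.kv_le (by simp only [Cn.rt_v, Cn.ng_v]; push_cast; linarith)).trans ?_
  refine (DT.kv_gt (by simp only [Cn.rt_v, Cn.ng_v]; push_cast; linarith)).trans ?_
  simp only [dt16, DT.kv, sw16, sl16, sv16]
  ((try push_cast); ring1)
theorem kvh16 {p x : ℝ} (h1 : 7 / 20 < p) (h2 : p ≤ 2 / 5) : dt37.kv p x = (36653967 / 12500000 + (x - 251 / 400) * (999451 / 2000000)) + (-62318359 / 5000000 + (x - 251 / 400) * (3029 / 2000000)) * p + (3445263 / 250000 + (x - 251 / 400) * (-211 / 100000)) * p ^ 2 := by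
  refine (DT.kv_gt (by simp only [Cn.rt_v, Cn.ng_v]; push_cast; linarith)).trans ?_
  refine (DT.kv_gt (by simp only [Cn.rt_v, Cn.ng_v]; push_cast; linarith)).trans ?_
  refine (DT.kv_gt (by simp only [Cn.rt_v, Cn.ng_v]; push_cast; linarith)).trans ?_
  refine (DT.kv_le (by simp only [Cn.rt_v, Cn.ng_v]; push_cast; linarith)).trans ?_
  simp only [dt17, DT.kv, sw17, sl17, sv17]
  ((try push_cast); ring1)
theorem kvh17 {p x : ℝ} (h1 : 2 / 5 < p) (h2 : p ≤ 9 / 20) : dt37.kv p x = (14558677 / 10000000 + (x - 251 / 400) * (5000303 / 10000000)) + (-20325693 / 4000000 + (x - 251 / 400) * (-3 / 400000)) * p + (4553241 / 1000000 + (x - 251 / 400) * (-21 / 100000)) * p ^ 2 := by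
  refine (DT.kv_gt (by simp only [Cn.rt_v, Cn.ng_v]; push_cast; linarith)).trans ?_
  refine (DT.kv_gt (by simp only [Cn.rt_v, Cn.ng_v]; push_cast; linarith)).trans ?_
  refine (DT.kv_gt (by simp only [Cn.rt_v, Cn.ng_v]; push_cast; linarith)).trans ?_
  refine (DT.kv_gt (by simp only [Cn.rt_v, Cn.ng_v]; push_cast; linarith)).trans ?_
  refine (DT.kv_le (by simp only [Cn.rt_v, Cn.ng_v]; push_cast; linarith)).trans ?_
  simp only [dt18, DT.kv, sw18, sl18, sv18]
  ((try push_cast); ring1)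
theorem kvh18 {p x : ℝ} (h1 : 9 / 20 < p) (h2 : p ≤ 1 / 2) : dt37.kv p x = (790545103 / 100000000 + (x - 251 / 400) * (-22568317 / 10000000)) + (-21091399 / 625000 + (x - 251 / 400) * (12252711 / 1000000)) * p + (9100759 / 250000 + (x - 251 / 400) * (-680717 / 50000)) * p ^ 2 := by
  refine (DT.kv_gt (by simp only [Cn.rt_v, Cn.ng_v]; push_cast; linarith)).trans ?_
  refine (DT.kv_gt (by simp only [Cn.rt_v, Cn.ng_v]; push_cast; linarith)).trans ?_
  refine (DT.kv_gt (by simp only [Cn.rt_v, Cn.ng_v]; push_cast; linarith)).trans ?_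
  refine (DT.kv_gt (by simp only [Cn.rt_v, Cn.ng_v]; push_cast; linarith)).trans ?_
  refine (DT.kv_gt (by simp only [Cn.rt_v, Cn.ng_v]; push_cast; linarith)).trans ?_
  simp only [dt19, DT.kv, sw19, sl19, sv19]
  ((try push_cast); ring1)
theorem kvl0 {p x : ℝ} (h1 : -1 / 2 ≤ p) (h2 : p ≤ -9 / 20) : dt37.kv p x = (-790545103 / 100000000 + (x - 251 / 400) * (22568317 / 10000000)) + (-21091399 / 625000 + (x - 251 / 400) * (12252711 / 1000000)) * p + (-9100759 / 250000 + (x - 251 / 400) * (680717 / 50000)) * p ^ 2 := by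
  exact kvh0 h2
theorem kvl1 {p x : ℝ} (h1 : -9 / 20 ≤ p) (h2 : p ≤ -2 / 5) : dt37.kv p x = (-14558677 / 10000000 + (x - 251 / 400) * (-5000303 / 10000000)) + (-20325693 / 4000000 + (x - 251 / 400) * (-3 / 400000)) * p + (-4553241 / 1000000 + (x - 251 / 400) * (21 / 100000)) * p ^ 2 := by
  rcases eq_or_lt_of_le h1 with h | h1
  · subst h
    rw [kvh0 (by norm_num)]
    ring1
  · exact kvh1 h1 h2
theorem kvl2 {p x : ℝ} (h1 : -2 / 5 ≤ p) (h2 : p ≤ -7 / 20) : dt37.kv p x = (-36653967 / 12500000 + (x - 251 / 400) * (-999451 / 2000000)) + (-62318359 / 5000000 + (x - 251 / 400) * (3029 / 2000000)) * p + (-3445263 / 250000 + (x - 251 / 400) * (211 / 100000)) * p ^ 2 := by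
  rcases eq_or_lt_of_le h1 with h | h1
  · subst h
    rw [kvh1 (by norm_num) (by norm_num)]
    ring1
  · exact kvh2 h1 h2
theorem kvl3 {p x : ℝ} (h1 : -7 / 20 ≤ p) (h2 : p ≤ -3 / 10) : dt37.kv p x = (-169690493 / 100000000 + (x - 251 / 400) * (-1250299 / 2500000)) + (-1351043 / 250000 + (x - 251 / 400) * (-147 / 200000)) * p + (-924013 / 250000 + (x - 251 / 400) * (-11 / 10000)) * p ^ 2 := by
  rcases eq_or_lt_of_le h1 with h | h1
  · subst h
    rw [kvh2 (by norm_num) (by norm_num)]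
    ring1
  · exact kvh3 h1 h2
theorem kvl4 {p x : ℝ} (h1 : -3 / 10 ≤ p) (h2 : p ≤ -1 / 4) : dt37.kv p x = (130281971 / 200000000 + (x - 251 / 400) * (-4999549 / 10000000)) + (205025201 / 20000000 + (x - 251 / 400) * (9 / 25000)) * p + (4479267 / 200000 + (x - 251 / 400) * (9 / 12500)) * p ^ 2 := by
  rcases eq_or_lt_of_le h1 with h | h1
  · subst h
    rw [kvh3 (by norm_num) (by norm_num)]
    ring1
  · exact kvh4 h1 h2
theorem kvl5 {p x : ℝ} (h1 : -1 / 4 ≤ p) (h2 : p ≤ -1 / 5) : dt37.kv p x = (88962663 / 100000000 + (x - 251 / 400) * (-2499997 / 5000000)) + (121569939 / 10000000 + (x - 251 / 400) * (7 / 1000000)) * p + (13103901 / 500000 + (x - 251 / 400) * (1 / 50000)) * p ^ 2 := by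
  rcases eq_or_lt_of_le h1 with h | h1
  · subst h
    rw [kvh4 (by norm_num) (by norm_num)]
    ring1
  · exact kvh5 h1 h2
theorem kvl6 {p x : ℝ} (h1 : -1 / 5 ≤ p) (h2 : p ≤ -3 / 20) : dt37.kv p x = (53397527 / 100000000 + (x - 251 / 400) * (16200477 / 5000000)) + (86004803 / 10000000 + (x - 251 / 400) * (37400953 / 1000000)) * p + (8658259 / 500000 + (x - 251 / 400) * (4675119 / 50000)) * p ^ 2 := by
  rcases eq_or_lt_of_le h1 with h | h1
  · subst h
    rw [kvh5 (by norm_num) (by norm_num)]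
    ring1
  · exact kvh6 h1 h2
theorem kvl7 {p x : ℝ} (h1 : -3 / 20 ≤ p) (h2 : p ≤ -1 / 10) : dt37.kv p x = (-3008017 / 100000000 + (x - 251 / 400) * (-8213157 / 10000000)) + (2699353 / 2500000 + (x - 251 / 400) * (-3350239 / 200000)) * p + (-1938153 / 250000 + (x - 251 / 400) * (-4350239 / 50000)) * p ^ 2 := by
  rcases eq_or_lt_of_le h1 with h | h1
  · subst h
    rw [kvh6 (by norm_num) (by norm_num)]
    ring1
  · exact kvh7 h1 h2
theorem kvl8 {p x : ℝ} (h1 : -1 / 10 ≤ p) (h2 : p ≤ -1 / 20) : dt37.kv p x = (-1581531 / 100000000 + (x - 251 / 400) * (-4061 / 250000)) + (6825191 / 5000000 + (x - 251 / 400) * (-4061 / 6250)) * p + (-395383 / 62500 + (x - 251 / 400) * (-4061 / 625)) * p ^ 2 := by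
  rcases eq_or_lt_of_le h1 with h | h1
  · subst h
    rw [kvh7 (by norm_num) (by norm_num)]
    ring1
  · exact kvh8 h1 h2
theorem kvl9 {p x : ℝ} (h1 : -1 / 20 ≤ p) (h2 : p ≤ 1 / 20) : dt37.kv p x = (0) + (4994127 / 2500000) * p := by
  rcases eq_or_lt_of_le h1 with h | h1
  · subst h
    rw [kvh8 (by norm_num) (by norm_num)]
    ring1
  · exact kvh9 h1 h2
theorem kvl10 {p x : ℝ} (h1 : 1 / 20 ≤ p) (h2 : p ≤ 1 / 10) : dt37.kv p x = (1581531 / 100000000 + (x - 251 / 400) * (4061 / 250000)) + (6825191 / 5000000 + (x - 251 / 400) * (-4061 / 6250)) * p + (395383 / 62500 + (x - 251 / 400) * (4061 / 625)) * p ^ 2 := by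
  rcases eq_or_lt_of_le h1 with h | h1
  · subst h
    rw [kvh9 (by norm_num) (by norm_num)]
    ring1
  · exact kvh10 h1 h2
theorem kvl11 {p x : ℝ} (h1 : 1 / 10 ≤ p) (h2 : p ≤ 3 / 20) : dt37.kv p x = (3008017 / 100000000 + (x - 251 / 400) * (8213157 / 10000000)) + (2699353 / 2500000 + (x - 251 / 400) * (-3350239 / 200000)) * p + (1938153 / 250000 + (x - 251 / 400) * (4350239 / 50000)) * p ^ 2 := by
  rcases eq_or_lt_of_le h1 with h | h1
  · subst h
    rw [kvh10 (by norm_num) (by norm_num)]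
    ring1
  · exact kvh11 h1 h2
theorem kvl12 {p x : ℝ} (h1 : 3 / 20 ≤ p) (h2 : p ≤ 1 / 5) : dt37.kv p x = (-53397527 / 100000000 + (x - 251 / 400) * (-16200477 / 5000000)) + (86004803 / 10000000 + (x - 251 / 400) * (37400953 / 1000000)) * p + (-8658259 / 500000 + (x - 251 / 400) * (-4675119 / 50000)) * p ^ 2 := by
  rcases eq_or_lt_of_le h1 with h | h1
  · subst h
    rw [kvh11 (by norm_num) (by norm_num)]
    ring1
  · exact kvh12 h1 h2
theorem kvl13 {p x : ℝ} (h1 : 1 / 5 ≤ p) (h2 : p ≤ 1 / 4) : dt37.kv p x = (-88962663 / 100000000 + (x - 251 / 400) * (2499997 / 5000000)) + (121569939 / 10000000 + (x - 251 / 400) * (7 / 1000000)) * p + (-13103901 / 500000 + (x - 251 / 400) * (-1 / 50000)) * p ^ 2 := by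
  rcases eq_or_lt_of_le h1 with h | h1
  · subst h
    rw [kvh12 (by norm_num) (by norm_num)]
    ring1
  · exact kvh13 h1 h2
theorem kvl14 {p x : ℝ} (h1 : 1 / 4 ≤ p) (h2 : p ≤ 3 / 10) : dt37.kv p x = (-130281971 / 200000000 + (x - 251 / 400) * (4999549 / 10000000)) + (205025201 / 20000000 + (x - 251 / 400) * (9 / 25000)) * p + (-4479267 / 200000 + (x - 251 / 400) * (-9 / 12500)) * p ^ 2 := by
  rcases eq_or_lt_of_le h1 with h | h1
  · subst h
    rw [kvh13 (by norm_num) (by norm_num)]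
    ring1
  · exact kvh14 h1 h2
theorem kvl15 {p x : ℝ} (h1 : 3 / 10 ≤ p) (h2 : p ≤ 7 / 20) : dt37.kv p x = (169690493 / 100000000 + (x - 251 / 400) * (1250299 / 2500000)) + (-1351043 / 250000 + (x - 251 / 400) * (-147 / 200000)) * p + (924013 / 250000 + (x - 251 / 400) * (11 / 10000)) * p ^ 2 := by
  rcases eq_or_lt_of_le h1 with h | h1
  · subst h
    rw [kvh14 (by norm_num) (by norm_num)]
    ring1
  · exact kvh15 h1 h2
theorem kvl16 {p x : ℝ} (h1 : 7 / 20 ≤ p) (h2 : p ≤ 2 / 5) : dt37.kv p x = (36653967 / 12500000 + (x - 251 / 400) * (999451 / 2000000)) + (-62318359 / 5000000 + (x - 251 / 400) * (3029 / 2000000)) * p + (3445263 / 250000 + (x - 251 / 400) * (-211 / 100000)) * p ^ 2 := by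
  rcases eq_or_lt_of_le h1 with h | h1
  · subst h
    rw [kvh15 (by norm_num) (by norm_num)]
    ring1
  · exact kvh16 h1 h2
theorem kvl17 {p x : ℝ} (h1 : 2 / 5 ≤ p) (h2 : p ≤ 9 / 20) : dt37.kv p x = (14558677 / 10000000 + (x - 251 / 400) * (5000303 / 10000000)) + (-20325693 / 4000000 + (x - 251 / 400) * (-3 / 400000)) * p + (4553241 / 1000000 + (x - 251 / 400) * (-21 / 100000)) * p ^ 2 := by
  rcases eq_or_lt_of_le h1 with h | h1
  · subst h
    rw [kvh16 (by norm_num) (by norm_num)]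
    ring1
  · exact kvh17 h1 h2
theorem kvl18 {p x : ℝ} (h1 : 9 / 20 ≤ p) (h2 : p ≤ 1 / 2) : dt37.kv p x = (790545103 / 100000000 + (x - 251 / 400) * (-22568317 / 10000000)) + (-21091399 / 625000 + (x - 251 / 400) * (12252711 / 1000000)) * p + (9100759 / 250000 + (x - 251 / 400) * (-680717 / 50000)) * p ^ 2 := by
  rcases eq_or_lt_of_le h1 with h | h1
  · subst h
    rw [kvh17 (by norm_num) (by norm_num)]
    ring1
  · exact kvh18 h1 h2
theorem kfe {x p : ℝ} (h : |p| ≤ 1 / 2) : kcg.v p x = dt37.kv p x := by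
  obtain ⟨h1, h2⟩ := abs_le.1 h
  rcases le_total p (-9 / 20) with g0 | g1000
  · rw [kcl0 (by linarith) g0, kvl0 (by linarith) g0]
  rcases le_total p (-2 / 5) with g1 | g1001
  · rw [kcl1 g1000 g1, kvl1 g1000 g1]
  rcases le_total p (-7 / 20) with g2 | g1002
  · rw [kcl2 g1001 g2, kvl2 g1001 g2]
  rcases le_total p (-3 / 10) with g3 | g1003
  · rw [kcl3 g1002 g3, kvl3 g1002 g3]
  rcases le_total p (-1 / 4) with g4 | g1004
  · rw [kcl4 g1003 g4, kvl4 g1003 g4]
  rcases le_total p (-1 / 5) with g5 | g1005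
  · rw [kcl5 g1004 g5, kvl5 g1004 g5]
  rcases le_total p (-3 / 20) with g6 | g1006
  · rw [kcl6 g1005 g6, kvl6 g1005 g6]
  rcases le_total p (-1 / 10) with g7 | g1007
  · rw [kcl7 g1006 g7, kvl7 g1006 g7]
  rcases le_total p (-1 / 20) with g8 | g1008
  · rw [kcl8 g1007 g8, kvl8 g1007 g8]
  rcases le_total p (1 / 20) with g9 | g1009
  · rw [kcl9 g1008 g9, kvl9 g1008 g9]
  rcases le_total p (1 / 10) with g10 | g1010
  · rw [kcl10 g1009 g10, kvl10 g1009 g10]
  rcases le_total p (3 / 20) with g11 | g1011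
  · rw [kcl11 g1010 g11, kvl11 g1010 g11]
  rcases le_total p (1 / 5) with g12 | g1012
  · rw [kcl12 g1011 g12, kvl12 g1011 g12]
  rcases le_total p (1 / 4) with g13 | g1013
  · rw [kcl13 g1012 g13, kvl13 g1012 g13]
  rcases le_total p (3 / 10) with g14 | g1014
  · rw [kcl14 g1013 g14, kvl14 g1013 g14]
  rcases le_total p (7 / 20) with g15 | g1015
  · rw [kcl15 g1014 g15, kvl15 g1014 g15]
  rcases le_total p (2 / 5) with g16 | g1016
  · rw [kcl16 g1015 g16, kvl16 g1015 g16]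
  rcases le_total p (9 / 20) with g17 | g1017
  · rw [kcl17 g1016 g17, kvl17 g1016 g17]
  · rw [kcl18 g1017 (by linarith), kvl18 g1017 (by linarith)]
theorem odd {x p : ℝ} (h : |p| ≤ 1 / 2) : kcg.v (-p) x = -kcg.v p x := by
  obtain ⟨h1, h2⟩ := abs_le.1 h
  rcases le_total p (-9 / 20) with g0 | g1000
  · rw [kcl0 (by linarith) g0, kcl18 (p := -p) (by linarith) (by linarith)]; ring
  rcases le_total p (-2 / 5) with g1 | g1001
  · rw [kcl1 g1000 g1, kcl17 (p := -p) (by linarith) (by linarith)]; ring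
  rcases le_total p (-7 / 20) with g2 | g1002
  · rw [kcl2 g1001 g2, kcl16 (p := -p) (by linarith) (by linarith)]; ring
  rcases le_total p (-3 / 10) with g3 | g1003
  · rw [kcl3 g1002 g3, kcl15 (p := -p) (by linarith) (by linarith)]; ring
  rcases le_total p (-1 / 4) with g4 | g1004
  · rw [kcl4 g1003 g4, kcl14 (p := -p) (by linarith) (by linarith)]; ring
  rcases le_total p (-1 / 5) with g5 | g1005
  · rw [kcl5 g1004 g5, kcl13 (p := -p) (by linarith) (by linarith)]; ring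
  rcases le_total p (-3 / 20) with g6 | g1006
  · rw [kcl6 g1005 g6, kcl12 (p := -p) (by linarith) (by linarith)]; ring
  rcases le_total p (-1 / 10) with g7 | g1007
  · rw [kcl7 g1006 g7, kcl11 (p := -p) (by linarith) (by linarith)]; ring
  rcases le_total p (-1 / 20) with g8 | g1008
  · rw [kcl8 g1007 g8, kcl10 (p := -p) (by linarith) (by linarith)]; ring
  rcases le_total p (1 / 20) with g9 | g1009
  · rw [kcl9 g1008 g9, kcl9 (p := -p) (by linarith) (by linarith)]; ring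
  rcases le_total p (1 / 10) with g10 | g1010
  · rw [kcl10 g1009 g10, kcl8 (p := -p) (by linarith) (by linarith)]; ring
  rcases le_total p (3 / 20) with g11 | g1011
  · rw [kcl11 g1010 g11, kcl7 (p := -p) (by linarith) (by linarith)]; ring
  rcases le_total p (1 / 5) with g12 | g1012
  · rw [kcl12 g1011 g12, kcl6 (p := -p) (by linarith) (by linarith)]; ring
  rcases le_total p (1 / 4) with g13 | g1013
  · rw [kcl13 g1012 g13, kcl5 (p := -p) (by linarith) (by linarith)]; ring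
  rcases le_total p (3 / 10) with g14 | g1014
  · rw [kcl14 g1013 g14, kcl4 (p := -p) (by linarith) (by linarith)]; ring
  rcases le_total p (7 / 20) with g15 | g1015
  · rw [kcl15 g1014 g15, kcl3 (p := -p) (by linarith) (by linarith)]; ring
  rcases le_total p (2 / 5) with g16 | g1016
  · rw [kcl16 g1015 g16, kcl2 (p := -p) (by linarith) (by linarith)]; ring
  rcases le_total p (9 / 20) with g17 | g1017
  · rw [kcl17 g1016 g17, kcl1 (p := -p) (by linarith) (by linarith)]; ring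
  · rw [kcl18 g1017 (by linarith), kcl0 (p := -p) (by linarith) (by linarith)]; ring
theorem ctA : cT (11 / 2198) = 949 / 1099 := by
  unfold cT
  rw [show (3 / 4 * (1 - (11 / 2198 : ℝ) ^ 2)) = (3807 / 4396) ^ 2 by norm_num, Real.sqrt_sq (by norm_num)]
  norm_num
theorem ctB : cT (13 / 134) = 109 / 134 := by
  unfold cT
  rw [show (3 / 4 * (1 - (13 / 134 : ℝ) ^ 2)) = (231 / 268) ^ 2 by norm_num, Real.sqrt_sq (by norm_num)]
  norm_num
theorem kgA {x : ℝ} : kcg.v (11 / 2198) x = (54935397 / 5495000000) := by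
  rw [kcl9 (by norm_num) (by norm_num)]
  ring
theorem kgB {x : ℝ} : kcg.v (13 / 134) x = (93274797069 / 448900000000 + (x - 251 / 400) * (16118109 / 1122250000)) := by
  rw [kcl10 (by norm_num) (by norm_num)]
  ring
theorem ka_dt1 (x : ℝ) : dt1.kv (-1 / 2) x = (-13309083 / 100000000 + (x - 251 / 400) * (-1164847 / 2500000)) := by
  simp only [dt1, DT.kv, sw1, sl1, sv1]
  ((try push_cast); ring1)
theorem kb_dt1 (x : ℝ) : dt1.kv (-9 / 20) x = (-4562927 / 50000000 + (x - 251 / 400) * (-1249961 / 2500000)) := by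
  simp only [dt1, DT.kv, sw1, sl1, sv1]
  ((try push_cast); ring1)
theorem ka_dt2 (x : ℝ) : dt2.kv (-9 / 20) x = (-4562927 / 50000000 + (x - 251 / 400) * (-1249961 / 2500000)) := by
  simp only [dt2, DT.kv, sw2, sl2, sv2]
  ((try push_cast); ring1)
theorem kb_dt2 (x : ℝ) : dt2.kv (-2 / 5) x = (-118607 / 781250 + (x - 251 / 400) * (-4999937 / 10000000)) := by
  simp only [dt2, DT.kv, sw2, sl2, sv2]
  ((try push_cast); ring1)
theorem ka_dt20 (x : ℝ) : dt20.kv (-1 / 2) x = (-13309083 / 100000000 + (x - 251 / 400) * (-1164847 / 2500000)) :=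
  (DT.kv_le (by simp only [Cn.rt_v, Cn.ng_v]; norm_num)).trans (ka_dt1 x)
theorem kb_dt20 (x : ℝ) : dt20.kv (-2 / 5) x = (-118607 / 781250 + (x - 251 / 400) * (-4999937 / 10000000)) :=
  (DT.kv_gt (by simp only [Cn.rt_v, Cn.ng_v]; norm_num)).trans (kb_dt2 x)
theorem ka_dt3 (x : ℝ) : dt3.kv (-2 / 5) x = (-118607 / 781250 + (x - 251 / 400) * (-4999937 / 10000000)) := by
  simp only [dt3, DT.kv, sw3, sl3, sv3]
  ((try push_cast); ring1)
theorem kb_dt3 (x : ℝ) : dt3.kv (-7 / 20) x = (-2582111 / 10000000 + (x - 251 / 400) * (-4999971 / 10000000)) := by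
  simp only [dt3, DT.kv, sw3, sl3, sv3]
  ((try push_cast); ring1)
theorem ka_dt4 (x : ℝ) : dt4.kv (-7 / 20) x = (-2582111 / 10000000 + (x - 251 / 400) * (-4999971 / 10000000)) := by
  simp only [dt4, DT.kv, sw4, sl4, sv4]
  ((try push_cast); ring1)
theorem kb_dt4 (x : ℝ) : dt4.kv (-3 / 10) x = (-40829801 / 100000000 + (x - 251 / 400) * (-4999981 / 10000000)) := by
  simp only [dt4, DT.kv, sw4, sl4, sv4]
  ((try push_cast); ring1)
theorem ka_dt21 (x : ℝ) : dt21.kv (-2 / 5) x = (-118607 / 781250 + (x - 251 / 400) * (-4999937 / 10000000)) :=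
  (DT.kv_le (by simp only [Cn.rt_v, Cn.ng_v]; norm_num)).trans (ka_dt3 x)
theorem kb_dt21 (x : ℝ) : dt21.kv (-3 / 10) x = (-40829801 / 100000000 + (x - 251 / 400) * (-4999981 / 10000000)) :=
  (DT.kv_gt (by simp only [Cn.rt_v, Cn.ng_v]; norm_num)).trans (kb_dt4 x)
theorem ka_dt22 (x : ℝ) : dt22.kv (-1 / 2) x = (-13309083 / 100000000 + (x - 251 / 400) * (-1164847 / 2500000)) :=
  (DT.kv_le (by simp only [Cn.rt_v, Cn.ng_v]; norm_num)).trans (ka_dt20 x)
theorem kb_dt22 (x : ℝ) : dt22.kv (-3 / 10) x = (-40829801 / 100000000 + (x - 251 / 400) * (-4999981 / 10000000)) :=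
  (DT.kv_gt (by simp only [Cn.rt_v, Cn.ng_v]; norm_num)).trans (kb_dt21 x)
theorem ka_dt5 (x : ℝ) : dt5.kv (-3 / 10) x = (-40829801 / 100000000 + (x - 251 / 400) * (-4999981 / 10000000)) := by
  simp only [dt5, DT.kv, sw5, sl5, sv5]
  ((try push_cast); ring1)
theorem kb_dt5 (x : ℝ) : dt5.kv (-1 / 4) x = (-25581711 / 50000000 + (x - 251 / 400) * (-4999999 / 10000000)) := by
  simp only [dt5, DT.kv, sw5, sl5, sv5]
  ((try push_cast); ring1)
theorem ka_dt6 (x : ℝ) : dt6.kv (-1 / 4) x = (-25581711 / 50000000 + (x - 251 / 400) * (-4999999 / 10000000)) := by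
  simp only [dt6, DT.kv, sw6, sl6, sv6]
  ((try push_cast); ring1)
theorem kb_dt6 (x : ℝ) : dt6.kv (-1 / 5) x = (-49346007 / 100000000 + (x - 251 / 400) * (-1 / 2)) := by
  simp only [dt6, DT.kv, sw6, sl6, sv6]
  ((try push_cast); ring1)
theorem ka_dt23 (x : ℝ) : dt23.kv (-3 / 10) x = (-40829801 / 100000000 + (x - 251 / 400) * (-4999981 / 10000000)) :=
  (DT.kv_le (by simp only [Cn.rt_v, Cn.ng_v]; norm_num)).trans (ka_dt5 x)
theorem kb_dt23 (x : ℝ) : dt23.kv (-1 / 5) x = (-49346007 / 100000000 + (x - 251 / 400) * (-1 / 2)) :=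
  (DT.kv_gt (by simp only [Cn.rt_v, Cn.ng_v]; norm_num)).trans (kb_dt6 x)
theorem ka_dt7 (x : ℝ) : dt7.kv (-1 / 5) x = (-49346007 / 100000000 + (x - 251 / 400) * (-1 / 2)) := by
  simp only [dt7, DT.kv, sw7, sl7, sv7]
  ((try push_cast); ring1)
theorem kb_dt7 (x : ℝ) : dt7.kv (-3 / 20) x = (-4580939 / 12500000 + (x - 251 / 400) * (-66561 / 250000)) := by
  simp only [dt7, DT.kv, sw7, sl7, sv7]
  ((try push_cast); ring1)
theorem ka_dt8 (x : ℝ) : dt8.kv (-3 / 20) x = (-4580939 / 12500000 + (x - 251 / 400) * (-66561 / 250000)) := by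
  simp only [dt8, DT.kv, sw8, sl8, sv8]
  ((try push_cast); ring1)
theorem kb_dt8 (x : ℝ) : dt8.kv (-1 / 10) x = (-21558041 / 100000000 + (x - 251 / 400) * (-4061 / 250000)) := by
  simp only [dt8, DT.kv, sw8, sl8, sv8]
  ((try push_cast); ring1)
theorem ka_dt9 (x : ℝ) : dt9.kv (-1 / 10) x = (-21558041 / 100000000 + (x - 251 / 400) * (-4061 / 250000)) := by
  simp only [dt9, DT.kv, sw9, sl9, sv9]
  ((try push_cast); ring1)
theorem kb_dt9 (x : ℝ) : dt9.kv (-1 / 20) x = (-4994127 / 50000000) := by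
  simp only [dt9, DT.kv, sw9, sl9, sv9]
  ((try push_cast); ring1)
theorem ka_dt24 (x : ℝ) : dt24.kv (-3 / 20) x = (-4580939 / 12500000 + (x - 251 / 400) * (-66561 / 250000)) :=
  (DT.kv_le (by simp only [Cn.rt_v, Cn.ng_v]; norm_num)).trans (ka_dt8 x)
theorem kb_dt24 (x : ℝ) : dt24.kv (-1 / 20) x = (-4994127 / 50000000) :=
  (DT.kv_gt (by simp only [Cn.rt_v, Cn.ng_v]; norm_num)).trans (kb_dt9 x)
theorem ka_dt25 (x : ℝ) : dt25.kv (-1 / 5) x = (-49346007 / 100000000 + (x - 251 / 400) * (-1 / 2)) :=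
  (DT.kv_le (by simp only [Cn.rt_v, Cn.ng_v]; norm_num)).trans (ka_dt7 x)
theorem kb_dt25 (x : ℝ) : dt25.kv (-1 / 20) x = (-4994127 / 50000000) :=
  (DT.kv_gt (by simp only [Cn.rt_v, Cn.ng_v]; norm_num)).trans (kb_dt24 x)
theorem ka_dt26 (x : ℝ) : dt26.kv (-3 / 10) x = (-40829801 / 100000000 + (x - 251 / 400) * (-4999981 / 10000000)) :=
  (DT.kv_le (by simp only [Cn.rt_v, Cn.ng_v]; norm_num)).trans (ka_dt23 x)
theorem kb_dt26 (x : ℝ) : dt26.kv (-1 / 20) x = (-4994127 / 50000000) :=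
  (DT.kv_gt (by simp only [Cn.rt_v, Cn.ng_v]; norm_num)).trans (kb_dt25 x)
theorem ka_dt27 (x : ℝ) : dt27.kv (-1 / 2) x = (-13309083 / 100000000 + (x - 251 / 400) * (-1164847 / 2500000)) :=
  (DT.kv_le (by simp only [Cn.rt_v, Cn.ng_v]; norm_num)).trans (ka_dt22 x)
theorem kb_dt27 (x : ℝ) : dt27.kv (-1 / 20) x = (-4994127 / 50000000) :=
  (DT.kv_gt (by simp only [Cn.rt_v, Cn.ng_v]; norm_num)).trans (kb_dt26 x)
theorem ka_dt10 (x : ℝ) : dt10.kv (-1 / 20) x = (-4994127 / 50000000) := by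
  simp only [dt10, DT.kv, sl10, sv10]
  ((try push_cast); ring1)
theorem kb_dt10 (x : ℝ) : dt10.kv (1 / 20) x = (4994127 / 50000000) := by
  simp only [dt10, DT.kv, sl10, sv10]
  ((try push_cast); ring1)
theorem ka_dt11 (x : ℝ) : dt11.kv (1 / 20) x = (4994127 / 50000000) := by
  simp only [dt11, DT.kv, sw11, sl11, sv11]
  ((try push_cast); ring1)
theorem kb_dt11 (x : ℝ) : dt11.kv (1 / 10) x = (21558041 / 100000000 + (x - 251 / 400) * (4061 / 250000)) := by
  simp only [dt11, DT.kv, sw11, sl11, sv11]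
  ((try push_cast); ring1)
theorem ka_dt28 (x : ℝ) : dt28.kv (-1 / 20) x = (-4994127 / 50000000) :=
  (DT.kv_le (by simp only [Cn.rt_v, Cn.ng_v]; norm_num)).trans (ka_dt10 x)
theorem kb_dt28 (x : ℝ) : dt28.kv (1 / 10) x = (21558041 / 100000000 + (x - 251 / 400) * (4061 / 250000)) :=
  (DT.kv_gt (by simp only [Cn.rt_v, Cn.ng_v]; norm_num)).trans (kb_dt11 x)
theorem ka_dt12 (x : ℝ) : dt12.kv (1 / 10) x = (21558041 / 100000000 + (x - 251 / 400) * (4061 / 250000)) := by
  simp only [dt12, DT.kv, sw12, sl12, sv12]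
  ((try push_cast); ring1)
theorem kb_dt12 (x : ℝ) : dt12.kv (3 / 20) x = (4580939 / 12500000 + (x - 251 / 400) * (66561 / 250000)) := by
  simp only [dt12, DT.kv, sw12, sl12, sv12]
  ((try push_cast); ring1)
theorem ka_dt13 (x : ℝ) : dt13.kv (3 / 20) x = (4580939 / 12500000 + (x - 251 / 400) * (66561 / 250000)) := by
  simp only [dt13, DT.kv, sw13, sl13, sv13]
  ((try push_cast); ring1)
theorem kb_dt13 (x : ℝ) : dt13.kv (1 / 5) x = (49346007 / 100000000 + (x - 251 / 400) * (1 / 2)) := by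
  simp only [dt13, DT.kv, sw13, sl13, sv13]
  ((try push_cast); ring1)
theorem ka_dt14 (x : ℝ) : dt14.kv (1 / 5) x = (49346007 / 100000000 + (x - 251 / 400) * (1 / 2)) := by
  simp only [dt14, DT.kv, sw14, sl14, sv14]
  ((try push_cast); ring1)
theorem kb_dt14 (x : ℝ) : dt14.kv (1 / 4) x = (25581711 / 50000000 + (x - 251 / 400) * (4999999 / 10000000)) := by
  simp only [dt14, DT.kv, sw14, sl14, sv14]
  ((try push_cast); ring1)
theorem ka_dt29 (x : ℝ) : dt29.kv (3 / 20) x = (4580939 / 12500000 + (x - 251 / 400) * (66561 / 250000)) :=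
  (DT.kv_le (by simp only [Cn.rt_v, Cn.ng_v]; norm_num)).trans (ka_dt13 x)
theorem kb_dt29 (x : ℝ) : dt29.kv (1 / 4) x = (25581711 / 50000000 + (x - 251 / 400) * (4999999 / 10000000)) :=
  (DT.kv_gt (by simp only [Cn.rt_v, Cn.ng_v]; norm_num)).trans (kb_dt14 x)
theorem ka_dt30 (x : ℝ) : dt30.kv (1 / 10) x = (21558041 / 100000000 + (x - 251 / 400) * (4061 / 250000)) :=
  (DT.kv_le (by simp only [Cn.rt_v, Cn.ng_v]; norm_num)).trans (ka_dt12 x)
theorem kb_dt30 (x : ℝ) : dt30.kv (1 / 4) x = (25581711 / 50000000 + (x - 251 / 400) * (4999999 / 10000000)) :=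
  (DT.kv_gt (by simp only [Cn.rt_v, Cn.ng_v]; norm_num)).trans (kb_dt29 x)
theorem ka_dt31 (x : ℝ) : dt31.kv (-1 / 20) x = (-4994127 / 50000000) :=
  (DT.kv_le (by simp only [Cn.rt_v, Cn.ng_v]; norm_num)).trans (ka_dt28 x)
theorem kb_dt31 (x : ℝ) : dt31.kv (1 / 4) x = (25581711 / 50000000 + (x - 251 / 400) * (4999999 / 10000000)) :=
  (DT.kv_gt (by simp only [Cn.rt_v, Cn.ng_v]; norm_num)).trans (kb_dt30 x)
theorem ka_dt15 (x : ℝ) : dt15.kv (1 / 4) x = (25581711 / 50000000 + (x - 251 / 400) * (4999999 / 10000000)) := by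
  simp only [dt15, DT.kv, sw15, sl15, sv15]
  ((try push_cast); ring1)
theorem kb_dt15 (x : ℝ) : dt15.kv (3 / 10) x = (40829801 / 100000000 + (x - 251 / 400) * (4999981 / 10000000)) := by
  simp only [dt15, DT.kv, sw15, sl15, sv15]
  ((try push_cast); ring1)
theorem ka_dt16 (x : ℝ) : dt16.kv (3 / 10) x = (40829801 / 100000000 + (x - 251 / 400) * (4999981 / 10000000)) := by
  simp only [dt16, DT.kv, sw16, sl16, sv16]
  ((try push_cast); ring1)
theorem kb_dt16 (x : ℝ) : dt16.kv (7 / 20) x = (2582111 / 10000000 + (x - 251 / 400) * (4999971 / 10000000)) := by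
  simp only [dt16, DT.kv, sw16, sl16, sv16]
  ((try push_cast); ring1)
theorem ka_dt32 (x : ℝ) : dt32.kv (1 / 4) x = (25581711 / 50000000 + (x - 251 / 400) * (4999999 / 10000000)) :=
  (DT.kv_le (by simp only [Cn.rt_v, Cn.ng_v]; norm_num)).trans (ka_dt15 x)
theorem kb_dt32 (x : ℝ) : dt32.kv (7 / 20) x = (2582111 / 10000000 + (x - 251 / 400) * (4999971 / 10000000)) :=
  (DT.kv_gt (by simp only [Cn.rt_v, Cn.ng_v]; norm_num)).trans (kb_dt16 x)
theorem ka_dt17 (x : ℝ) : dt17.kv (7 / 20) x = (2582111 / 10000000 + (x - 251 / 400) * (4999971 / 10000000)) := by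
  simp only [dt17, DT.kv, sw17, sl17, sv17]
  ((try push_cast); ring1)
theorem kb_dt17 (x : ℝ) : dt17.kv (2 / 5) x = (118607 / 781250 + (x - 251 / 400) * (4999937 / 10000000)) := by
  simp only [dt17, DT.kv, sw17, sl17, sv17]
  ((try push_cast); ring1)
theorem ka_dt18 (x : ℝ) : dt18.kv (2 / 5) x = (118607 / 781250 + (x - 251 / 400) * (4999937 / 10000000)) := by
  simp only [dt18, DT.kv, sw18, sl18, sv18]
  ((try push_cast); ring1)
theorem kb_dt18 (x : ℝ) : dt18.kv (9 / 20) x = (4562927 / 50000000 + (x - 251 / 400) * (1249961 / 2500000)) := by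
  simp only [dt18, DT.kv, sw18, sl18, sv18]
  ((try push_cast); ring1)
theorem ka_dt19 (x : ℝ) : dt19.kv (9 / 20) x = (4562927 / 50000000 + (x - 251 / 400) * (1249961 / 2500000)) := by
  simp only [dt19, DT.kv, sw19, sl19, sv19]
  ((try push_cast); ring1)
theorem kb_dt19 (x : ℝ) : dt19.kv (1 / 2) x = (13309083 / 100000000 + (x - 251 / 400) * (1164847 / 2500000)) := by
  simp only [dt19, DT.kv, sw19, sl19, sv19]
  ((try push_cast); ring1)
theorem ka_dt33 (x : ℝ) : dt33.kv (2 / 5) x = (118607 / 781250 + (x - 251 / 400) * (4999937 / 10000000)) :=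
  (DT.kv_le (by simp only [Cn.rt_v, Cn.ng_v]; norm_num)).trans (ka_dt18 x)
theorem kb_dt33 (x : ℝ) : dt33.kv (1 / 2) x = (13309083 / 100000000 + (x - 251 / 400) * (1164847 / 2500000)) :=
  (DT.kv_gt (by simp only [Cn.rt_v, Cn.ng_v]; norm_num)).trans (kb_dt19 x)
theorem ka_dt34 (x : ℝ) : dt34.kv (7 / 20) x = (2582111 / 10000000 + (x - 251 / 400) * (4999971 / 10000000)) :=
  (DT.kv_le (by simp only [Cn.rt_v, Cn.ng_v]; norm_num)).trans (ka_dt17 x)
theorem kb_dt34 (x : ℝ) : dt34.kv (1 / 2) x = (13309083 / 100000000 + (x - 251 / 400) * (1164847 / 2500000)) :=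
  (DT.kv_gt (by simp only [Cn.rt_v, Cn.ng_v]; norm_num)).trans (kb_dt33 x)
theorem ka_dt35 (x : ℝ) : dt35.kv (1 / 4) x = (25581711 / 50000000 + (x - 251 / 400) * (4999999 / 10000000)) :=
  (DT.kv_le (by simp only [Cn.rt_v, Cn.ng_v]; norm_num)).trans (ka_dt32 x)
theorem kb_dt35 (x : ℝ) : dt35.kv (1 / 2) x = (13309083 / 100000000 + (x - 251 / 400) * (1164847 / 2500000)) :=
  (DT.kv_gt (by simp only [Cn.rt_v, Cn.ng_v]; norm_num)).trans (kb_dt34 x)
theorem ka_dt36 (x : ℝ) : dt36.kv (-1 / 20) x = (-4994127 / 50000000) :=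
  (DT.kv_le (by simp only [Cn.rt_v, Cn.ng_v]; norm_num)).trans (ka_dt31 x)
theorem kb_dt36 (x : ℝ) : dt36.kv (1 / 2) x = (13309083 / 100000000 + (x - 251 / 400) * (1164847 / 2500000)) :=
  (DT.kv_gt (by simp only [Cn.rt_v, Cn.ng_v]; norm_num)).trans (kb_dt35 x)
theorem ka_dt37 (x : ℝ) : dt37.kv (-1 / 2) x = (-13309083 / 100000000 + (x - 251 / 400) * (-1164847 / 2500000)) :=
  (DT.kv_le (by simp only [Cn.rt_v, Cn.ng_v]; norm_num)).trans (ka_dt27 x)
theorem kb_dt37 (x : ℝ) : dt37.kv (1 / 2) x = (13309083 / 100000000 + (x - 251 / 400) * (1164847 / 2500000)) :=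
  (DT.kv_gt (by simp only [Cn.rt_v, Cn.ng_v]; norm_num)).trans (kb_dt36 x)
theorem ko_dt1 (x : ℝ) : dt1.KOk x := trivial
theorem ko_dt2 (x : ℝ) : dt2.KOk x := trivial
theorem ko_dt20 (x : ℝ) : dt20.KOk x :=
  DT.kOk_node (v := -9 / 20) (by simp only [Cn.rt_v, Cn.ng_v]; norm_num) (kb_dt1 x) (ka_dt2 x) (by ring1) (ko_dt1 x) (ko_dt2 x)
theorem ko_dt3 (x : ℝ) : dt3.KOk x := trivial
theorem ko_dt4 (x : ℝ) : dt4.KOk x := trivial
theorem ko_dt21 (x : ℝ) : dt21.KOk x :=
  DT.kOk_node (v := -7 / 20) (by simp only [Cn.rt_v, Cn.ng_v]; norm_num) (kb_dt3 x) (ka_dt4 x) (by ring1) (ko_dt3 x) (ko_dt4 x)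
theorem ko_dt22 (x : ℝ) : dt22.KOk x :=
  DT.kOk_node (v := -2 / 5) (by simp only [Cn.rt_v, Cn.ng_v]; norm_num) (kb_dt20 x) (ka_dt21 x) (by ring1) (ko_dt20 x) (ko_dt21 x)
theorem ko_dt5 (x : ℝ) : dt5.KOk x := trivial
theorem ko_dt6 (x : ℝ) : dt6.KOk x := trivial
theorem ko_dt23 (x : ℝ) : dt23.KOk x :=
  DT.kOk_node (v := -1 / 4) (by simp only [Cn.rt_v, Cn.ng_v]; norm_num) (kb_dt5 x) (ka_dt6 x) (by ring1) (ko_dt5 x) (ko_dt6 x)
theorem ko_dt7 (x : ℝ) : dt7.KOk x := trivial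
theorem ko_dt8 (x : ℝ) : dt8.KOk x := trivial
theorem ko_dt9 (x : ℝ) : dt9.KOk x := trivial
theorem ko_dt24 (x : ℝ) : dt24.KOk x :=
  DT.kOk_node (v := -1 / 10) (by simp only [Cn.rt_v, Cn.ng_v]; norm_num) (kb_dt8 x) (ka_dt9 x) (by ring1) (ko_dt8 x) (ko_dt9 x)
theorem ko_dt25 (x : ℝ) : dt25.KOk x :=
  DT.kOk_node (v := -3 / 20) (by simp only [Cn.rt_v, Cn.ng_v]; norm_num) (kb_dt7 x) (ka_dt24 x) (by ring1) (ko_dt7 x) (ko_dt24 x)
theorem ko_dt26 (x : ℝ) : dt26.KOk x :=
  DT.kOk_node (v := -1 / 5) (by simp only [Cn.rt_v, Cn.ng_v]; norm_num) (kb_dt23 x) (ka_dt25 x) (by ring1) (ko_dt23 x) (ko_dt25 x)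
theorem ko_dt27 (x : ℝ) : dt27.KOk x :=
  DT.kOk_node (v := -3 / 10) (by simp only [Cn.rt_v, Cn.ng_v]; norm_num) (kb_dt22 x) (ka_dt26 x) (by ring1) (ko_dt22 x) (ko_dt26 x)
theorem ko_dt10 (x : ℝ) : dt10.KOk x := trivial
theorem ko_dt11 (x : ℝ) : dt11.KOk x := trivial
theorem ko_dt28 (x : ℝ) : dt28.KOk x :=
  DT.kOk_node (v := 1 / 20) (by simp only [Cn.rt_v, Cn.ng_v]; norm_num) (kb_dt10 x) (ka_dt11 x) (by ring1) (ko_dt10 x) (ko_dt11 x)
theorem ko_dt12 (x : ℝ) : dt12.KOk x := trivial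
theorem ko_dt13 (x : ℝ) : dt13.KOk x := trivial
theorem ko_dt14 (x : ℝ) : dt14.KOk x := trivial
theorem ko_dt29 (x : ℝ) : dt29.KOk x :=
  DT.kOk_node (v := 1 / 5) (by simp only [Cn.rt_v, Cn.ng_v]; norm_num) (kb_dt13 x) (ka_dt14 x) (by ring1) (ko_dt13 x) (ko_dt14 x)
theorem ko_dt30 (x : ℝ) : dt30.KOk x :=
  DT.kOk_node (v := 3 / 20) (by simp only [Cn.rt_v, Cn.ng_v]; norm_num) (kb_dt12 x) (ka_dt29 x) (by ring1) (ko_dt12 x) (ko_dt29 x)
theorem ko_dt31 (x : ℝ) : dt31.KOk x :=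
  DT.kOk_node (v := 1 / 10) (by simp only [Cn.rt_v, Cn.ng_v]; norm_num) (kb_dt28 x) (ka_dt30 x) (by ring1) (ko_dt28 x) (ko_dt30 x)
theorem ko_dt15 (x : ℝ) : dt15.KOk x := trivial
theorem ko_dt16 (x : ℝ) : dt16.KOk x := trivial
theorem ko_dt32 (x : ℝ) : dt32.KOk x :=
  DT.kOk_node (v := 3 / 10) (by simp only [Cn.rt_v, Cn.ng_v]; norm_num) (kb_dt15 x) (ka_dt16 x) (by ring1) (ko_dt15 x) (ko_dt16 x)
theorem ko_dt17 (x : ℝ) : dt17.KOk x := trivial
theorem ko_dt18 (x : ℝ) : dt18.KOk x := trivial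
theorem ko_dt19 (x : ℝ) : dt19.KOk x := trivial
theorem ko_dt33 (x : ℝ) : dt33.KOk x :=
  DT.kOk_node (v := 9 / 20) (by simp only [Cn.rt_v, Cn.ng_v]; norm_num) (kb_dt18 x) (ka_dt19 x) (by ring1) (ko_dt18 x) (ko_dt19 x)
theorem ko_dt34 (x : ℝ) : dt34.KOk x :=
  DT.kOk_node (v := 2 / 5) (by simp only [Cn.rt_v, Cn.ng_v]; norm_num) (kb_dt17 x) (ka_dt33 x) (by ring1) (ko_dt17 x) (ko_dt33 x)
theorem ko_dt35 (x : ℝ) : dt35.KOk x :=
  DT.kOk_node (v := 7 / 20) (by simp only [Cn.rt_v, Cn.ng_v]; norm_num) (kb_dt32 x) (ka_dt34 x) (by ring1) (ko_dt32 x) (ko_dt34 x)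
theorem ko_dt36 (x : ℝ) : dt36.KOk x :=
  DT.kOk_node (v := 1 / 4) (by simp only [Cn.rt_v, Cn.ng_v]; norm_num) (kb_dt31 x) (ka_dt35 x) (by ring1) (ko_dt31 x) (ko_dt35 x)
theorem ko_dt37 (x : ℝ) : dt37.KOk x :=
  DT.kOk_node (v := -1 / 20) (by simp only [Cn.rt_v, Cn.ng_v]; norm_num) (kb_dt27 x) (ka_dt36 x) (by ring1) (ko_dt27 x) (ko_dt36 x)
theorem txl0 {p c x : ℝ} (h1 : -1 / 2 ≤ p) (h2 : p ≤ -47 / 100) : txg.v p c x = dt84.val (fun p x => kcg.v p x) p c x := by
  symm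
  refine (DT.val_le (by simp only [Cn.rt_v, Cn.ng_v]; push_cast; linarith)).trans ?_
  refine (DT.val_le (by simp only [Cn.rt_v, Cn.ng_v]; push_cast; linarith)).trans ?_
  refine (DT.val_le (by simp only [Cn.rt_v, Cn.ng_v]; push_cast; linarith)).trans ?_
  refine (DT.val_le (by simp only [Cn.rt_v, Cn.ng_v]; push_cast; linarith)).trans ?_
  simp only [dt38, DT.val, cloR, sw38, sl38, sv38, txg, txg_4, txg_6, txg_26, txg_29, txg_32, txg_57, txg_101, txg_104, txg_151, txg_196, txg_199, txg_222, txg_261, txg_264, txg_307, txg_350, txg_352, txg_354, txg_356, txg_410, txg_450, txg_451, txg_493, txg_512]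
  rcases eq_or_lt_of_le h1 with h | h1
  · subst h
    ((try push_cast); (repeat first | rw [if_pos (by linarith)] | rw [if_neg (by linarith)] | erw [if_pos (by linarith)] | erw [if_neg (by linarith)]); (try push_cast); (try ring1))
  rcases eq_or_lt_of_le h2 with h | h2
  · subst h
    ((try push_cast); (repeat first | rw [if_pos (by linarith)] | rw [if_neg (by linarith)] | erw [if_pos (by linarith)] | erw [if_neg (by linarith)]); (try push_cast); (try ring1))
  · ((try push_cast); (repeat first | rw [if_pos (by linarith)] | rw [if_neg (by linarith)] | erw [if_pos (by linarith)] | erw [if_neg (by linarith)]); (try push_cast); (try ring1))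
theorem txl1 {p c x : ℝ} (h1 : -47 / 100 < p) (h2 : p ≤ -11 / 25) : txg.v p c x = dt84.val (fun p x => kcg.v p x) p c x := by
  symm
  refine (DT.val_le (by simp only [Cn.rt_v, Cn.ng_v]; push_cast; linarith)).trans ?_
  refine (DT.val_le (by simp only [Cn.rt_v, Cn.ng_v]; push_cast; linarith)).trans ?_
  refine (DT.val_le (by simp only [Cn.rt_v, Cn.ng_v]; push_cast; linarith)).trans ?_
  refine (DT.val_gt (by simp only [Cn.rt_v, Cn.ng_v]; push_cast; linarith)).trans ?_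
  refine (DT.val_le (by simp only [Cn.rt_v, Cn.ng_v]; push_cast; linarith)).trans ?_
  simp only [dt39, DT.val, cloR, sw39, sl39, sv39, txg, txg_4, txg_6, txg_26, txg_29, txg_32, txg_57, txg_101, txg_104, txg_151, txg_196, txg_199, txg_222, txg_261, txg_264, txg_307, txg_350, txg_352, txg_354, txg_356, txg_410, txg_450, txg_451, txg_493, txg_512]
  rcases eq_or_lt_of_le h2 with h | h2
  · subst h
    ((try push_cast); (repeat first | rw [if_pos (by linarith)] | rw [if_neg (by linarith)] | erw [if_pos (by linarith)] | erw [if_neg (by linarith)]); (try push_cast); (try ring1))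
  · ((try push_cast); (repeat first | rw [if_pos (by linarith)] | rw [if_neg (by linarith)] | erw [if_pos (by linarith)] | erw [if_neg (by linarith)]); (try push_cast); (try ring1))
theorem txl2 {p c x : ℝ} (h1 : -11 / 25 < p) (h2 : p ≤ -2 / 5) : txg.v p c x = dt84.val (fun p x => kcg.v p x) p c x := by
  symm
  refine (DT.val_le (by simp only [Cn.rt_v, Cn.ng_v]; push_cast; linarith)).trans ?_
  refine (DT.val_le (by simp only [Cn.rt_v, Cn.ng_v]; push_cast; linarith)).trans ?_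
  refine (DT.val_le (by simp only [Cn.rt_v, Cn.ng_v]; push_cast; linarith)).trans ?_
  refine (DT.val_gt (by simp only [Cn.rt_v, Cn.ng_v]; push_cast; linarith)).trans ?_
  refine (DT.val_gt (by simp only [Cn.rt_v, Cn.ng_v]; push_cast; linarith)).trans ?_
  simp only [dt40, DT.val, cloR, sw40, sl40, sv40, txg, txg_4, txg_6, txg_26, txg_29, txg_32, txg_57, txg_101, txg_104, txg_151, txg_196, txg_199, txg_222, txg_261, txg_264, txg_307, txg_350, txg_352, txg_354, txg_356, txg_410, txg_450, txg_451, txg_493, txg_512]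
  rcases eq_or_lt_of_le h2 with h | h2
  · subst h
    ((try push_cast); (repeat first | rw [if_pos (by linarith)] | rw [if_neg (by linarith)] | erw [if_pos (by linarith)] | erw [if_neg (by linarith)]); (try push_cast); (try ring1))
  · ((try push_cast); (repeat first | rw [if_pos (by linarith)] | rw [if_neg (by linarith)] | erw [if_pos (by linarith)] | erw [if_neg (by linarith)]); (try push_cast); (try ring1))
theorem txl3 {p c x : ℝ} (h1 : -2 / 5 < p) (h2 : p ≤ -37 / 100) : txg.v p c x = dt84.val (fun p x => kcg.v p x) p c x := by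
  symm
  refine (DT.val_le (by simp only [Cn.rt_v, Cn.ng_v]; push_cast; linarith)).trans ?_
  refine (DT.val_le (by simp only [Cn.rt_v, Cn.ng_v]; push_cast; linarith)).trans ?_
  refine (DT.val_gt (by simp only [Cn.rt_v, Cn.ng_v]; push_cast; linarith)).trans ?_
  refine (DT.val_le (by simp only [Cn.rt_v, Cn.ng_v]; push_cast; linarith)).trans ?_
  simp only [dt41, DT.val, cloR, sw41, sl41, sv41, txg, txg_4, txg_6, txg_26, txg_29, txg_32, txg_57, txg_101, txg_104, txg_151, txg_196, txg_199, txg_222, txg_261, txg_264, txg_307, txg_350, txg_352, txg_354, txg_356, txg_410, txg_450, txg_451, txg_493, txg_512]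
  rcases eq_or_lt_of_le h2 with h | h2
  · subst h
    ((try push_cast); (repeat first | rw [if_pos (by linarith)] | rw [if_neg (by linarith)] | erw [if_pos (by linarith)] | erw [if_neg (by linarith)]); (try push_cast); (try ring1))
  · ((try push_cast); (repeat first | rw [if_pos (by linarith)] | rw [if_neg (by linarith)] | erw [if_pos (by linarith)] | erw [if_neg (by linarith)]); (try push_cast); (try ring1))
theorem txl4 {p c x : ℝ} (h1 : -37 / 100 < p) (h2 : p ≤ -33 / 100) : txg.v p c x = dt84.val (fun p x => kcg.v p x) p c x := by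
  symm
  refine (DT.val_le (by simp only [Cn.rt_v, Cn.ng_v]; push_cast; linarith)).trans ?_
  refine (DT.val_le (by simp only [Cn.rt_v, Cn.ng_v]; push_cast; linarith)).trans ?_
  refine (DT.val_gt (by simp only [Cn.rt_v, Cn.ng_v]; push_cast; linarith)).trans ?_
  refine (DT.val_gt (by simp only [Cn.rt_v, Cn.ng_v]; push_cast; linarith)).trans ?_
  refine (DT.val_le (by simp only [Cn.rt_v, Cn.ng_v]; push_cast; linarith)).trans ?_
  simp only [dt42, DT.val, cloR, sw42, sl42, sv42, txg, txg_4, txg_6, txg_26, txg_29, txg_32, txg_57, txg_101, txg_104, txg_151, txg_196, txg_199, txg_222, txg_261, txg_264, txg_307, txg_350, txg_352, txg_354, txg_356, txg_410, txg_450, txg_451, txg_493, txg_512]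
  rcases eq_or_lt_of_le h2 with h | h2
  · subst h
    ((try push_cast); (repeat first | rw [if_pos (by linarith)] | rw [if_neg (by linarith)] | erw [if_pos (by linarith)] | erw [if_neg (by linarith)]); (try push_cast); (try ring1))
  · ((try push_cast); (repeat first | rw [if_pos (by linarith)] | rw [if_neg (by linarith)] | erw [if_pos (by linarith)] | erw [if_neg (by linarith)]); (try push_cast); (try ring1))
theorem txl5 {p c x : ℝ} (h1 : -33 / 100 < p) (h2 : p ≤ -29 / 100) : txg.v p c x = dt84.val (fun p x => kcg.v p x) p c x := by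
  symm
  refine (DT.val_le (by simp only [Cn.rt_v, Cn.ng_v]; push_cast; linarith)).trans ?_
  refine (DT.val_le (by simp only [Cn.rt_v, Cn.ng_v]; push_cast; linarith)).trans ?_
  refine (DT.val_gt (by simp only [Cn.rt_v, Cn.ng_v]; push_cast; linarith)).trans ?_
  refine (DT.val_gt (by simp only [Cn.rt_v, Cn.ng_v]; push_cast; linarith)).trans ?_
  refine (DT.val_gt (by simp only [Cn.rt_v, Cn.ng_v]; push_cast; linarith)).trans ?_
  simp only [dt43, DT.val, cloR, sw43, sl43, sv43, txg, txg_4, txg_6, txg_26, txg_29, txg_32, txg_57, txg_101, txg_104, txg_151, txg_196, txg_199, txg_222, txg_261, txg_264, txg_307, txg_350, txg_352, txg_354, txg_356, txg_410, txg_450, txg_451, txg_493, txg_512]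
  rcases eq_or_lt_of_le h2 with h | h2
  · subst h
    ((try push_cast); (repeat first | rw [if_pos (by linarith)] | rw [if_neg (by linarith)] | erw [if_pos (by linarith)] | erw [if_neg (by linarith)]); (try push_cast); (try ring1))
  · ((try push_cast); (repeat first | rw [if_pos (by linarith)] | rw [if_neg (by linarith)] | erw [if_pos (by linarith)] | erw [if_neg (by linarith)]); (try push_cast); (try ring1))
theorem txl6 {p c x : ℝ} (h1 : -29 / 100 < p) (h2 : p ≤ -1 / 4) : txg.v p c x = dt84.val (fun p x => kcg.v p x) p c x := by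
  symm
  refine (DT.val_le (by simp only [Cn.rt_v, Cn.ng_v]; push_cast; linarith)).trans ?_
  refine (DT.val_gt (by simp only [Cn.rt_v, Cn.ng_v]; push_cast; linarith)).trans ?_
  refine (DT.val_le (by simp only [Cn.rt_v, Cn.ng_v]; push_cast; linarith)).trans ?_
  refine (DT.val_le (by simp only [Cn.rt_v, Cn.ng_v]; push_cast; linarith)).trans ?_
  simp only [dt44, DT.val, cloR, sw44, sl44, sv44, txg, txg_4, txg_6, txg_26, txg_29, txg_32, txg_57, txg_101, txg_104, txg_151, txg_196, txg_199, txg_222, txg_261, txg_264, txg_307, txg_350, txg_352, txg_354, txg_356, txg_410, txg_450, txg_451, txg_493, txg_512]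
  rcases eq_or_lt_of_le h2 with h | h2
  · subst h
    ((try push_cast); (repeat first | rw [if_pos (by linarith)] | rw [if_neg (by linarith)] | erw [if_pos (by linarith)] | erw [if_neg (by linarith)]); (try push_cast); (try ring1))
  · ((try push_cast); (repeat first | rw [if_pos (by linarith)] | rw [if_neg (by linarith)] | erw [if_pos (by linarith)] | erw [if_neg (by linarith)]); (try push_cast); (try ring1))
theorem txl7 {p c x : ℝ} (h1 : -1 / 4 < p) (h2 : p ≤ -11 / 50) : txg.v p c x = dt84.val (fun p x => kcg.v p x) p c x := by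
  symm
  refine (DT.val_le (by simp only [Cn.rt_v, Cn.ng_v]; push_cast; linarith)).trans ?_
  refine (DT.val_gt (by simp only [Cn.rt_v, Cn.ng_v]; push_cast; linarith)).trans ?_
  refine (DT.val_le (by simp only [Cn.rt_v, Cn.ng_v]; push_cast; linarith)).trans ?_
  refine (DT.val_gt (by simp only [Cn.rt_v, Cn.ng_v]; push_cast; linarith)).trans ?_
  refine (DT.val_le (by simp only [Cn.rt_v, Cn.ng_v]; push_cast; linarith)).trans ?_
  simp only [dt45, DT.val, cloR, sw45, sl45, sv45, txg, txg_4, txg_6, txg_26, txg_29, txg_32, txg_57, txg_101, txg_104, txg_151, txg_196, txg_199, txg_222, txg_261, txg_264, txg_307, txg_350, txg_352, txg_354, txg_356, txg_410, txg_450, txg_451, txg_493, txg_512]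
  rcases eq_or_lt_of_le h2 with h | h2
  · subst h
    ((try push_cast); (repeat first | rw [if_pos (by linarith)] | rw [if_neg (by linarith)] | erw [if_pos (by linarith)] | erw [if_neg (by linarith)]); (try push_cast); (try ring1))
  · ((try push_cast); (repeat first | rw [if_pos (by linarith)] | rw [if_neg (by linarith)] | erw [if_pos (by linarith)] | erw [if_neg (by linarith)]); (try push_cast); (try ring1))
theorem txl8 {p c x : ℝ} (h1 : -11 / 50 < p) (h2 : p ≤ -9 / 50) : txg.v p c x = dt84.val (fun p x => kcg.v p x) p c x := by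
  symm
  refine (DT.val_le (by simp only [Cn.rt_v, Cn.ng_v]; push_cast; linarith)).trans ?_
  refine (DT.val_gt (by simp only [Cn.rt_v, Cn.ng_v]; push_cast; linarith)).trans ?_
  refine (DT.val_le (by simp only [Cn.rt_v, Cn.ng_v]; push_cast; linarith)).trans ?_
  refine (DT.val_gt (by simp only [Cn.rt_v, Cn.ng_v]; push_cast; linarith)).trans ?_
  refine (DT.val_gt (by simp only [Cn.rt_v, Cn.ng_v]; push_cast; linarith)).trans ?_
  simp only [dt46, DT.val, cloR, sw46, sl46, sv46, txg, txg_4, txg_6, txg_26, txg_29, txg_32, txg_57, txg_101, txg_104, txg_151, txg_196, txg_199, txg_222, txg_261, txg_264, txg_307, txg_350, txg_352, txg_354, txg_356, txg_410, txg_450, txg_451, txg_493, txg_512]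
  rcases eq_or_lt_of_le h2 with h | h2
  · subst h
    ((try push_cast); (repeat first | rw [if_pos (by linarith)] | rw [if_neg (by linarith)] | erw [if_pos (by linarith)] | erw [if_neg (by linarith)]); (try push_cast); (try ring1))
  · ((try push_cast); (repeat first | rw [if_pos (by linarith)] | rw [if_neg (by linarith)] | erw [if_pos (by linarith)] | erw [if_neg (by linarith)]); (try push_cast); (try ring1))
theorem txl9 {p c x : ℝ} (h1 : -9 / 50 < p) (h2 : p ≤ -7 / 50) : txg.v p c x = dt84.val (fun p x => kcg.v p x) p c x := by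
  symm
  refine (DT.val_le (by simp only [Cn.rt_v, Cn.ng_v]; push_cast; linarith)).trans ?_
  refine (DT.val_gt (by simp only [Cn.rt_v, Cn.ng_v]; push_cast; linarith)).trans ?_
  refine (DT.val_gt (by simp only [Cn.rt_v, Cn.ng_v]; push_cast; linarith)).trans ?_
  refine (DT.val_le (by simp only [Cn.rt_v, Cn.ng_v]; push_cast; linarith)).trans ?_
  simp only [dt47, DT.val, cloR, sw47, sl47, sv47, txg, txg_4, txg_6, txg_26, txg_29, txg_32, txg_57, txg_101, txg_104, txg_151, txg_196, txg_199, txg_222, txg_261, txg_264, txg_307, txg_350, txg_352, txg_354, txg_356, txg_410, txg_450, txg_451, txg_493, txg_512]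
  rcases eq_or_lt_of_le h2 with h | h2
  · subst h
    ((try push_cast); (repeat first | rw [if_pos (by linarith)] | rw [if_neg (by linarith)] | erw [if_pos (by linarith)] | erw [if_neg (by linarith)]); (try push_cast); (try ring1))
  · ((try push_cast); (repeat first | rw [if_pos (by linarith)] | rw [if_neg (by linarith)] | erw [if_pos (by linarith)] | erw [if_neg (by linarith)]); (try push_cast); (try ring1))
theorem txl10 {p c x : ℝ} (h1 : -7 / 50 < p) (h2 : p ≤ -11 / 100) : txg.v p c x = dt84.val (fun p x => kcg.v p x) p c x := by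
  symm
  refine (DT.val_le (by simp only [Cn.rt_v, Cn.ng_v]; push_cast; linarith)).trans ?_
  refine (DT.val_gt (by simp only [Cn.rt_v, Cn.ng_v]; push_cast; linarith)).trans ?_
  refine (DT.val_gt (by simp only [Cn.rt_v, Cn.ng_v]; push_cast; linarith)).trans ?_
  refine (DT.val_gt (by simp only [Cn.rt_v, Cn.ng_v]; push_cast; linarith)).trans ?_
  refine (DT.val_le (by simp only [Cn.rt_v, Cn.ng_v]; push_cast; linarith)).trans ?_
  simp only [dt48, DT.val, cloR, sw48, sl48, sv48, txg, txg_4, txg_6, txg_26, txg_29, txg_32, txg_57, txg_101, txg_104, txg_151, txg_196, txg_199, txg_222, txg_261, txg_264, txg_307, txg_350, txg_352, txg_354, txg_356, txg_410, txg_450, txg_451, txg_493, txg_512]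
  rcases eq_or_lt_of_le h2 with h | h2
  · subst h
    ((try push_cast); (repeat first | rw [if_pos (by linarith)] | rw [if_neg (by linarith)] | erw [if_pos (by linarith)] | erw [if_neg (by linarith)]); (try push_cast); (try ring1))
  · ((try push_cast); (repeat first | rw [if_pos (by linarith)] | rw [if_neg (by linarith)] | erw [if_pos (by linarith)] | erw [if_neg (by linarith)]); (try push_cast); (try ring1))
theorem txl11 {p c x : ℝ} (h1 : -11 / 100 < p) (h2 : p ≤ -7 / 100) : txg.v p c x = dt84.val (fun p x => kcg.v p x) p c x := by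
  symm
  refine (DT.val_le (by simp only [Cn.rt_v, Cn.ng_v]; push_cast; linarith)).trans ?_
  refine (DT.val_gt (by simp only [Cn.rt_v, Cn.ng_v]; push_cast; linarith)).trans ?_
  refine (DT.val_gt (by simp only [Cn.rt_v, Cn.ng_v]; push_cast; linarith)).trans ?_
  refine (DT.val_gt (by simp only [Cn.rt_v, Cn.ng_v]; push_cast; linarith)).trans ?_
  refine (DT.val_gt (by simp only [Cn.rt_v, Cn.ng_v]; push_cast; linarith)).trans ?_
  simp only [dt49, DT.val, cloR, sw49, sl49, sv49, txg, txg_4, txg_6, txg_26, txg_29, txg_32, txg_57, txg_101, txg_104, txg_151, txg_196, txg_199, txg_222, txg_261, txg_264, txg_307, txg_350, txg_352, txg_354, txg_356, txg_410, txg_450, txg_451, txg_493, txg_512]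
  rcases eq_or_lt_of_le h2 with h | h2
  · subst h
    ((try push_cast); (repeat first | rw [if_pos (by linarith)] | rw [if_neg (by linarith)] | erw [if_pos (by linarith)] | erw [if_neg (by linarith)]); (try push_cast); (try ring1))
  · ((try push_cast); (repeat first | rw [if_pos (by linarith)] | rw [if_neg (by linarith)] | erw [if_pos (by linarith)] | erw [if_neg (by linarith)]); (try push_cast); (try ring1))
theorem txl12 {p c x : ℝ} (h1 : -7 / 100 < p) (h2 : p ≤ -3 / 100) : txg.v p c x = dt84.val (fun p x => kcg.v p x) p c x := by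
  symm
  refine (DT.val_gt (by simp only [Cn.rt_v, Cn.ng_v]; push_cast; linarith)).trans ?_
  refine (DT.val_le (by simp only [Cn.rt_v, Cn.ng_v]; push_cast; linarith)).trans ?_
  refine (DT.val_le (by simp only [Cn.rt_v, Cn.ng_v]; push_cast; linarith)).trans ?_
  refine (DT.val_le (by simp only [Cn.rt_v, Cn.ng_v]; push_cast; linarith)).trans ?_
  simp only [dt50, DT.val, cloR, sw50, sl50, sv50, txg, txg_4, txg_6, txg_26, txg_29, txg_32, txg_57, txg_101, txg_104, txg_151, txg_196, txg_199, txg_222, txg_261, txg_264, txg_307, txg_350, txg_352, txg_354, txg_356, txg_410, txg_450, txg_451, txg_493, txg_512]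
  rcases eq_or_lt_of_le h2 with h | h2
  · subst h
    ((try push_cast); (repeat first | rw [if_pos (by linarith)] | rw [if_neg (by linarith)] | erw [if_pos (by linarith)] | erw [if_neg (by linarith)]); (try push_cast); (try ring1))
  · ((try push_cast); (repeat first | rw [if_pos (by linarith)] | rw [if_neg (by linarith)] | erw [if_pos (by linarith)] | erw [if_neg (by linarith)]); (try push_cast); (try ring1))
theorem txl13 {p c x : ℝ} (h1 : -3 / 100 < p) (h2 : p ≤ 11 / 2198) : txg.v p c x = dt84.val (fun p x => kcg.v p x) p c x := by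
  symm
  refine (DT.val_gt (by simp only [Cn.rt_v, Cn.ng_v]; push_cast; linarith)).trans ?_
  refine (DT.val_le (by simp only [Cn.rt_v, Cn.ng_v]; push_cast; linarith)).trans ?_
  refine (DT.val_le (by simp only [Cn.rt_v, Cn.ng_v]; push_cast; linarith)).trans ?_
  refine (DT.val_gt (by simp only [Cn.rt_v, Cn.ng_v]; push_cast; linarith)).trans ?_
  refine (DT.val_le (by simp only [Cn.rt_v, Cn.ng_v]; push_cast; linarith)).trans ?_
  simp only [dt51, DT.val, cloR, sw51, sl51, sv51, txg, txg_4, txg_6, txg_26, txg_29, txg_32, txg_57, txg_101, txg_104, txg_151, txg_196, txg_199, txg_222, txg_261, txg_264, txg_307, txg_350, txg_352, txg_354, txg_356, txg_410, txg_450, txg_451, txg_493, txg_512]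
  rcases eq_or_lt_of_le h2 with h | h2
  · subst h
    ((try push_cast); (repeat first | rw [if_pos (by linarith)] | rw [if_neg (by linarith)] | erw [if_pos (by linarith)] | erw [if_neg (by linarith)]); (try push_cast); (try ring1))
  · ((try push_cast); (repeat first | rw [if_pos (by linarith)] | rw [if_neg (by linarith)] | erw [if_pos (by linarith)] | erw [if_neg (by linarith)]); (try push_cast); (try ring1))
theorem txl14 {p c x : ℝ} (h1 : 11 / 2198 < p) (h2 : p ≤ 13 / 134) : txg.v p c x = dt84.val (fun p x => kcg.v p x) p c x := by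
  symm
  refine (DT.val_gt (by simp only [Cn.rt_v, Cn.ng_v]; push_cast; linarith)).trans ?_
  refine (DT.val_le (by simp only [Cn.rt_v, Cn.ng_v]; push_cast; linarith)).trans ?_
  refine (DT.val_le (by simp only [Cn.rt_v, Cn.ng_v]; push_cast; linarith)).trans ?_
  refine (DT.val_gt (by simp only [Cn.rt_v, Cn.ng_v]; push_cast; linarith)).trans ?_
  refine (DT.val_gt (by simp only [Cn.rt_v, Cn.ng_v]; push_cast; linarith)).trans ?_
  simp only [dt52, DT.val, cloR, txg, txg_4, txg_6, txg_26, txg_29, txg_32, txg_57, txg_101, txg_104, txg_151, txg_196, txg_199, txg_222, txg_261, txg_264, txg_307, txg_350, txg_352, txg_354, txg_356, txg_410, txg_450, txg_451, txg_493, txg_512]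
  rcases eq_or_lt_of_le h2 with h | h2
  · subst h
    ((try push_cast); (repeat first | rw [if_pos (by linarith)] | rw [if_neg (by linarith)] | erw [if_pos (by linarith)] | erw [if_neg (by linarith)]); (try push_cast); (try ring1))
  · ((try push_cast); (repeat first | rw [if_pos (by linarith)] | rw [if_neg (by linarith)] | erw [if_pos (by linarith)] | erw [if_neg (by linarith)]); (try push_cast); (try ring1))
theorem txl15 {p c x : ℝ} (h1 : 13 / 134 < p) (h2 : p ≤ 117 / 1000) : txg.v p c x = dt84.val (fun p x => kcg.v p x) p c x := by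
  symm
  refine (DT.val_gt (by simp only [Cn.rt_v, Cn.ng_v]; push_cast; linarith)).trans ?_
  refine (DT.val_le (by simp only [Cn.rt_v, Cn.ng_v]; push_cast; linarith)).trans ?_
  refine (DT.val_gt (by simp only [Cn.rt_v, Cn.ng_v]; push_cast; linarith)).trans ?_
  refine (DT.val_le (by simp only [Cn.rt_v, Cn.ng_v]; push_cast; linarith)).trans ?_
  simp only [dt53, DT.val, cloR, sw53, sw53_2, sl53, sl53_2, sv53, sv53_2, txg, txg_4, txg_6, txg_26, txg_29, txg_32, txg_57, txg_101, txg_104, txg_151, txg_196, txg_199, txg_222, txg_261, txg_264, txg_307, txg_350, txg_352, txg_354, txg_356, txg_410, txg_450, txg_451, txg_493, txg_512]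
  rcases eq_or_lt_of_le h2 with h | h2
  · subst h
    ((try push_cast); (repeat first | rw [if_pos (by linarith)] | rw [if_neg (by linarith)] | erw [if_pos (by linarith)] | erw [if_neg (by linarith)]); (try push_cast); (try ring1))
  · ((try push_cast); (repeat first | rw [if_pos (by linarith)] | rw [if_neg (by linarith)] | erw [if_pos (by linarith)] | erw [if_neg (by linarith)]); (try push_cast); (try ring1))
theorem txl16 {p c x : ℝ} (h1 : 117 / 1000 < p) (h2 : p ≤ 3 / 20) : txg.v p c x = dt84.val (fun p x => kcg.v p x) p c x := by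
  symm
  refine (DT.val_gt (by simp only [Cn.rt_v, Cn.ng_v]; push_cast; linarith)).trans ?_
  refine (DT.val_le (by simp only [Cn.rt_v, Cn.ng_v]; push_cast; linarith)).trans ?_
  refine (DT.val_gt (by simp only [Cn.rt_v, Cn.ng_v]; push_cast; linarith)).trans ?_
  refine (DT.val_gt (by simp only [Cn.rt_v, Cn.ng_v]; push_cast; linarith)).trans ?_
  refine (DT.val_le (by simp only [Cn.rt_v, Cn.ng_v]; push_cast; linarith)).trans ?_
  simp only [dt54, DT.val, cloR, sw54, sw54_2, sl54, sl54_2, sv54, sv54_2, txg, txg_4, txg_6, txg_26, txg_29, txg_32, txg_57, txg_101, txg_104, txg_151, txg_196, txg_199, txg_222, txg_261, txg_264, txg_307, txg_350, txg_352, txg_354, txg_356, txg_410, txg_450, txg_451, txg_493, txg_512]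
  rcases eq_or_lt_of_le h2 with h | h2
  · subst h
    ((try push_cast); (repeat first | rw [if_pos (by linarith)] | rw [if_neg (by linarith)] | erw [if_pos (by linarith)] | erw [if_neg (by linarith)]); (try push_cast); (try ring1))
  · ((try push_cast); (repeat first | rw [if_pos (by linarith)] | rw [if_neg (by linarith)] | erw [if_pos (by linarith)] | erw [if_neg (by linarith)]); (try push_cast); (try ring1))
theorem txl17 {p c x : ℝ} (h1 : 3 / 20 < p) (h2 : p ≤ 19 / 100) : txg.v p c x = dt84.val (fun p x => kcg.v p x) p c x := by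
  symm
  refine (DT.val_gt (by simp only [Cn.rt_v, Cn.ng_v]; push_cast; linarith)).trans ?_
  refine (DT.val_le (by simp only [Cn.rt_v, Cn.ng_v]; push_cast; linarith)).trans ?_
  refine (DT.val_gt (by simp only [Cn.rt_v, Cn.ng_v]; push_cast; linarith)).trans ?_
  refine (DT.val_gt (by simp only [Cn.rt_v, Cn.ng_v]; push_cast; linarith)).trans ?_
  refine (DT.val_gt (by simp only [Cn.rt_v, Cn.ng_v]; push_cast; linarith)).trans ?_
  simp only [dt55, DT.val, cloR, sw55, sl55, sv55, txg, txg_4, txg_6, txg_26, txg_29, txg_32, txg_57, txg_101, txg_104, txg_151, txg_196, txg_199, txg_222, txg_261, txg_264, txg_307, txg_350, txg_352, txg_354, txg_356, txg_410, txg_450, txg_451, txg_493, txg_512]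
  rcases eq_or_lt_of_le h2 with h | h2
  · subst h
    ((try push_cast); (repeat first | rw [if_pos (by linarith)] | rw [if_neg (by linarith)] | erw [if_pos (by linarith)] | erw [if_neg (by linarith)]); (try push_cast); (try ring1))
  · ((try push_cast); (repeat first | rw [if_pos (by linarith)] | rw [if_neg (by linarith)] | erw [if_pos (by linarith)] | erw [if_neg (by linarith)]); (try push_cast); (try ring1))
theorem txl18 {p c x : ℝ} (h1 : 19 / 100 < p) (h2 : p ≤ 6 / 25) : txg.v p c x = dt84.val (fun p x => kcg.v p x) p c x := by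
  symm
  refine (DT.val_gt (by simp only [Cn.rt_v, Cn.ng_v]; push_cast; linarith)).trans ?_
  refine (DT.val_gt (by simp only [Cn.rt_v, Cn.ng_v]; push_cast; linarith)).trans ?_
  refine (DT.val_le (by simp only [Cn.rt_v, Cn.ng_v]; push_cast; linarith)).trans ?_
  refine (DT.val_le (by simp only [Cn.rt_v, Cn.ng_v]; push_cast; linarith)).trans ?_
  simp only [dt56, DT.val, cloR, sw56, sl56, sv56, txg, txg_4, txg_6, txg_26, txg_29, txg_32, txg_57, txg_101, txg_104, txg_151, txg_196, txg_199, txg_222, txg_261, txg_264, txg_307, txg_350, txg_352, txg_354, txg_356, txg_410, txg_450, txg_451, txg_493, txg_512]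
  rcases eq_or_lt_of_le h2 with h | h2
  · subst h
    ((try push_cast); (repeat first | rw [if_pos (by linarith)] | rw [if_neg (by linarith)] | erw [if_pos (by linarith)] | erw [if_neg (by linarith)]); (try push_cast); (try ring1))
  · ((try push_cast); (repeat first | rw [if_pos (by linarith)] | rw [if_neg (by linarith)] | erw [if_pos (by linarith)] | erw [if_neg (by linarith)]); (try push_cast); (try ring1))
theorem txl19 {p c x : ℝ} (h1 : 6 / 25 < p) (h2 : p ≤ 29 / 100) : txg.v p c x = dt84.val (fun p x => kcg.v p x) p c x := by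
  symm
  refine (DT.val_gt (by simp only [Cn.rt_v, Cn.ng_v]; push_cast; linarith)).trans ?_
  refine (DT.val_gt (by simp only [Cn.rt_v, Cn.ng_v]; push_cast; linarith)).trans ?_
  refine (DT.val_le (by simp only [Cn.rt_v, Cn.ng_v]; push_cast; linarith)).trans ?_
  refine (DT.val_gt (by simp only [Cn.rt_v, Cn.ng_v]; push_cast; linarith)).trans ?_
  refine (DT.val_le (by simp only [Cn.rt_v, Cn.ng_v]; push_cast; linarith)).trans ?_
  simp only [dt57, DT.val, cloR, sw57, sl57, sv57, txg, txg_4, txg_6, txg_26, txg_29, txg_32, txg_57, txg_101, txg_104, txg_151, txg_196, txg_199, txg_222, txg_261, txg_264, txg_307, txg_350, txg_352, txg_354, txg_356, txg_410, txg_450, txg_451, txg_493, txg_512]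
  rcases eq_or_lt_of_le h2 with h | h2
  · subst h
    ((try push_cast); (repeat first | rw [if_pos (by linarith)] | rw [if_neg (by linarith)] | erw [if_pos (by linarith)] | erw [if_neg (by linarith)]); (try push_cast); (try ring1))
  · ((try push_cast); (repeat first | rw [if_pos (by linarith)] | rw [if_neg (by linarith)] | erw [if_pos (by linarith)] | erw [if_neg (by linarith)]); (try push_cast); (try ring1))
theorem txl20 {p c x : ℝ} (h1 : 29 / 100 < p) (h2 : p ≤ 17 / 50) : txg.v p c x = dt84.val (fun p x => kcg.v p x) p c x := by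
  symm
  refine (DT.val_gt (by simp only [Cn.rt_v, Cn.ng_v]; push_cast; linarith)).trans ?_
  refine (DT.val_gt (by simp only [Cn.rt_v, Cn.ng_v]; push_cast; linarith)).trans ?_
  refine (DT.val_le (by simp only [Cn.rt_v, Cn.ng_v]; push_cast; linarith)).trans ?_
  refine (DT.val_gt (by simp only [Cn.rt_v, Cn.ng_v]; push_cast; linarith)).trans ?_
  refine (DT.val_gt (by simp only [Cn.rt_v, Cn.ng_v]; push_cast; linarith)).trans ?_
  simp only [dt58, DT.val, cloR, sw58, sl58, sv58, txg, txg_4, txg_6, txg_26, txg_29, txg_32, txg_57, txg_101, txg_104, txg_151, txg_196, txg_199, txg_222, txg_261, txg_264, txg_307, txg_350, txg_352, txg_354, txg_356, txg_410, txg_450, txg_451, txg_493, txg_512]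
  rcases eq_or_lt_of_le h2 with h | h2
  · subst h
    ((try push_cast); (repeat first | rw [if_pos (by linarith)] | rw [if_neg (by linarith)] | erw [if_pos (by linarith)] | erw [if_neg (by linarith)]); (try push_cast); (try ring1))
  · ((try push_cast); (repeat first | rw [if_pos (by linarith)] | rw [if_neg (by linarith)] | erw [if_pos (by linarith)] | erw [if_neg (by linarith)]); (try push_cast); (try ring1))
theorem txl21 {p c x : ℝ} (h1 : 17 / 50 < p) (h2 : p ≤ 39 / 100) : txg.v p c x = dt84.val (fun p x => kcg.v p x) p c x := by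
  symm
  refine (DT.val_gt (by simp only [Cn.rt_v, Cn.ng_v]; push_cast; linarith)).trans ?_
  refine (DT.val_gt (by simp only [Cn.rt_v, Cn.ng_v]; push_cast; linarith)).trans ?_
  refine (DT.val_gt (by simp only [Cn.rt_v, Cn.ng_v]; push_cast; linarith)).trans ?_
  refine (DT.val_le (by simp only [Cn.rt_v, Cn.ng_v]; push_cast; linarith)).trans ?_
  simp only [dt59, DT.val, cloR, sw59, sl59, sv59, txg, txg_4, txg_6, txg_26, txg_29, txg_32, txg_57, txg_101, txg_104, txg_151, txg_196, txg_199, txg_222, txg_261, txg_264, txg_307, txg_350, txg_352, txg_354, txg_356, txg_410, txg_450, txg_451, txg_493, txg_512]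
  rcases eq_or_lt_of_le h2 with h | h2
  · subst h
    ((try push_cast); (repeat first | rw [if_pos (by linarith)] | rw [if_neg (by linarith)] | erw [if_pos (by linarith)] | erw [if_neg (by linarith)]); (try push_cast); (try ring1))
  · ((try push_cast); (repeat first | rw [if_pos (by linarith)] | rw [if_neg (by linarith)] | erw [if_pos (by linarith)] | erw [if_neg (by linarith)]); (try push_cast); (try ring1))
theorem txl22 {p c x : ℝ} (h1 : 39 / 100 < p) (h2 : p ≤ 11 / 25) : txg.v p c x = dt84.val (fun p x => kcg.v p x) p c x := by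
  symm
  refine (DT.val_gt (by simp only [Cn.rt_v, Cn.ng_v]; push_cast; linarith)).trans ?_
  refine (DT.val_gt (by simp only [Cn.rt_v, Cn.ng_v]; push_cast; linarith)).trans ?_
  refine (DT.val_gt (by simp only [Cn.rt_v, Cn.ng_v]; push_cast; linarith)).trans ?_
  refine (DT.val_gt (by simp only [Cn.rt_v, Cn.ng_v]; push_cast; linarith)).trans ?_
  refine (DT.val_le (by simp only [Cn.rt_v, Cn.ng_v]; push_cast; linarith)).trans ?_
  simp only [dt60, DT.val, cloR, sw60, sl60, sv60, txg, txg_4, txg_6, txg_26, txg_29, txg_32, txg_57, txg_101, txg_104, txg_151, txg_196, txg_199, txg_222, txg_261, txg_264, txg_307, txg_350, txg_352, txg_354, txg_356, txg_410, txg_450, txg_451, txg_493, txg_512]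
  rcases eq_or_lt_of_le h2 with h | h2
  · subst h
    ((try push_cast); (repeat first | rw [if_pos (by linarith)] | rw [if_neg (by linarith)] | erw [if_pos (by linarith)] | erw [if_neg (by linarith)]); (try push_cast); (try ring1))
  · ((try push_cast); (repeat first | rw [if_pos (by linarith)] | rw [if_neg (by linarith)] | erw [if_pos (by linarith)] | erw [if_neg (by linarith)]); (try push_cast); (try ring1))
theorem txl23 {p c x : ℝ} (h1 : 11 / 25 < p) (h2 : p ≤ 1 / 2) : txg.v p c x = dt84.val (fun p x => kcg.v p x) p c x := by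
  symm
  refine (DT.val_gt (by simp only [Cn.rt_v, Cn.ng_v]; push_cast; linarith)).trans ?_
  refine (DT.val_gt (by simp only [Cn.rt_v, Cn.ng_v]; push_cast; linarith)).trans ?_
  refine (DT.val_gt (by simp only [Cn.rt_v, Cn.ng_v]; push_cast; linarith)).trans ?_
  refine (DT.val_gt (by simp only [Cn.rt_v, Cn.ng_v]; push_cast; linarith)).trans ?_
  refine (DT.val_gt (by simp only [Cn.rt_v, Cn.ng_v]; push_cast; linarith)).trans ?_
  simp only [dt61, DT.val, cloR, sw61, sl61, sv61, txg, txg_4, txg_6, txg_26, txg_29, txg_32, txg_57, txg_101, txg_104, txg_151, txg_196, txg_199, txg_222, txg_261, txg_264, txg_307, txg_350, txg_352, txg_354, txg_356, txg_410, txg_450, txg_451, txg_493, txg_512]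
  rcases eq_or_lt_of_le h2 with h | h2
  · subst h
    ((try push_cast); (repeat first | rw [if_pos (by linarith)] | rw [if_neg (by linarith)] | erw [if_pos (by linarith)] | erw [if_neg (by linarith)]); (try push_cast); (try ring1))
  · ((try push_cast); (repeat first | rw [if_pos (by linarith)] | rw [if_neg (by linarith)] | erw [if_pos (by linarith)] | erw [if_neg (by linarith)]); (try push_cast); (try ring1))
theorem txe {x : ℝ} (p c : ℝ) (h : |p| ≤ 1 / 2) : txg.v p c x = dt84.val (fun p x => kcg.v p x) p c x := by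
  obtain ⟨h1, h2⟩ := abs_le.1 h
  rcases le_or_gt p (-47 / 100) with g0 | g1000
  · exact txl0 (by linarith) g0
  rcases le_or_gt p (-11 / 25) with g1 | g1001
  · exact txl1 g1000 g1
  rcases le_or_gt p (-2 / 5) with g2 | g1002
  · exact txl2 g1001 g2
  rcases le_or_gt p (-37 / 100) with g3 | g1003
  · exact txl3 g1002 g3
  rcases le_or_gt p (-33 / 100) with g4 | g1004
  · exact txl4 g1003 g4
  rcases le_or_gt p (-29 / 100) with g5 | g1005
  · exact txl5 g1004 g5
  rcases le_or_gt p (-1 / 4) with g6 | g1006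
  · exact txl6 g1005 g6
  rcases le_or_gt p (-11 / 50) with g7 | g1007
  · exact txl7 g1006 g7
  rcases le_or_gt p (-9 / 50) with g8 | g1008
  · exact txl8 g1007 g8
  rcases le_or_gt p (-7 / 50) with g9 | g1009
  · exact txl9 g1008 g9
  rcases le_or_gt p (-11 / 100) with g10 | g1010
  · exact txl10 g1009 g10
  rcases le_or_gt p (-7 / 100) with g11 | g1011
  · exact txl11 g1010 g11
  rcases le_or_gt p (-3 / 100) with g12 | g1012
  · exact txl12 g1011 g12
  rcases le_or_gt p (11 / 2198) with g13 | g1013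
  · exact txl13 g1012 g13
  rcases le_or_gt p (13 / 134) with g14 | g1014
  · exact txl14 g1013 g14
  rcases le_or_gt p (117 / 1000) with g15 | g1015
  · exact txl15 g1014 g15
  rcases le_or_gt p (3 / 20) with g16 | g1016
  · exact txl16 g1015 g16
  rcases le_or_gt p (19 / 100) with g17 | g1017
  · exact txl17 g1016 g17
  rcases le_or_gt p (6 / 25) with g18 | g1018
  · exact txl18 g1017 g18
  rcases le_or_gt p (29 / 100) with g19 | g1019
  · exact txl19 g1018 g19
  rcases le_or_gt p (17 / 50) with g20 | g1020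
  · exact txl20 g1019 g20
  rcases le_or_gt p (39 / 100) with g21 | g1021
  · exact txl21 g1020 g21
  rcases le_or_gt p (11 / 25) with g22 | g1022
  · exact txl22 g1021 g22
  · exact txl23 g1022 (by linarith)
theorem ta_dt38 (x : ℝ) : dt38.val (fun p x => kcg.v p x) (-1 / 2) (cT (-1 / 2)) x = (0) := by
  simp only [dt38, DT.val, sw38, sl38, sv38]
  ((try push_cast); ring1)
theorem tb_dt38 (x : ℝ) : dt38.val (fun p x => kcg.v p x) (-47 / 100) (cT (-47 / 100)) x = (123749 / 50000000 + (x - 251 / 400) * (-17759 / 10000000)) := by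
  simp only [dt38, DT.val, sw38, sl38, sv38]
  ((try push_cast); ring1)
theorem ta_dt39 (x : ℝ) : dt39.val (fun p x => kcg.v p x) (-47 / 100) (cT (-47 / 100)) x = (123749 / 50000000 + (x - 251 / 400) * (-17759 / 10000000)) := by
  simp only [dt39, DT.val, sw39, sl39, sv39]
  ((try push_cast); ring1)
theorem tb_dt39 (x : ℝ) : dt39.val (fun p x => kcg.v p x) (-11 / 25) (cT (-11 / 25)) x = (160589 / 25000000 + (x - 251 / 400) * (-45849 / 2000000)) := by
  simp only [dt39, DT.val, sw39, sl39, sv39]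
  ((try push_cast); ring1)
theorem ta_dt40 (x : ℝ) : dt40.val (fun p x => kcg.v p x) (-11 / 25) (cT (-11 / 25)) x = (160589 / 25000000 + (x - 251 / 400) * (-45849 / 2000000)) := by
  simp only [dt40, DT.val, sw40, sl40, sv40]
  ((try push_cast); ring1)
theorem tb_dt40 (x : ℝ) : dt40.val (fun p x => kcg.v p x) (-2 / 5) (cT (-2 / 5)) x = (209709 / 25000000 + (x - 251 / 400) * (-73281 / 1250000)) := by
  simp only [dt40, DT.val, sw40, sl40, sv40]
  ((try push_cast); ring1)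
theorem ta_dt62 (x : ℝ) : dt62.val (fun p x => kcg.v p x) (-47 / 100) (cT (-47 / 100)) x = (123749 / 50000000 + (x - 251 / 400) * (-17759 / 10000000)) :=
  (DT.val_le (by simp only [Cn.rt_v, Cn.ng_v]; norm_num)).trans (ta_dt39 x)
theorem tb_dt62 (x : ℝ) : dt62.val (fun p x => kcg.v p x) (-2 / 5) (cT (-2 / 5)) x = (209709 / 25000000 + (x - 251 / 400) * (-73281 / 1250000)) :=
  (DT.val_gt (by simp only [Cn.rt_v, Cn.ng_v]; norm_num)).trans (tb_dt40 x)
theorem ta_dt63 (x : ℝ) : dt63.val (fun p x => kcg.v p x) (-1 / 2) (cT (-1 / 2)) x = (0) :=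
  (DT.val_le (by simp only [Cn.rt_v, Cn.ng_v]; norm_num)).trans (ta_dt38 x)
theorem tb_dt63 (x : ℝ) : dt63.val (fun p x => kcg.v p x) (-2 / 5) (cT (-2 / 5)) x = (209709 / 25000000 + (x - 251 / 400) * (-73281 / 1250000)) :=
  (DT.val_gt (by simp only [Cn.rt_v, Cn.ng_v]; norm_num)).trans (tb_dt62 x)
theorem ta_dt41 (x : ℝ) : dt41.val (fun p x => kcg.v p x) (-2 / 5) (cT (-2 / 5)) x = (209709 / 25000000 + (x - 251 / 400) * (-73281 / 1250000)) := by
  simp only [dt41, DT.val, sw41, sl41, sv41]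
  ((try push_cast); ring1)
theorem tb_dt41 (x : ℝ) : dt41.val (fun p x => kcg.v p x) (-37 / 100) (cT (-37 / 100)) x = (171573 / 25000000 + (x - 251 / 400) * (-866891 / 10000000)) := by
  simp only [dt41, DT.val, sw41, sl41, sv41]
  ((try push_cast); ring1)
theorem ta_dt42 (x : ℝ) : dt42.val (fun p x => kcg.v p x) (-37 / 100) (cT (-37 / 100)) x = (171573 / 25000000 + (x - 251 / 400) * (-866891 / 10000000)) := by
  simp only [dt42, DT.val, sw42, sl42, sv42]
  ((try push_cast); ring1)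
theorem tb_dt42 (x : ℝ) : dt42.val (fun p x => kcg.v p x) (-33 / 100) (cT (-33 / 100)) x = (71529 / 12500000 + (x - 251 / 400) * (-149781 / 1250000)) := by
  simp only [dt42, DT.val, sw42, sl42, sv42]
  ((try push_cast); ring1)
theorem ta_dt43 (x : ℝ) : dt43.val (fun p x => kcg.v p x) (-33 / 100) (cT (-33 / 100)) x = (71529 / 12500000 + (x - 251 / 400) * (-149781 / 1250000)) := by
  simp only [dt43, DT.val, sw43, sl43, sv43]
  ((try push_cast); ring1)
theorem tb_dt43 (x : ℝ) : dt43.val (fun p x => kcg.v p x) (-29 / 100) (cT (-29 / 100)) x = (26079 / 10000000 + (x - 251 / 400) * (-873219 / 10000000)) := by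
  simp only [dt43, DT.val, sw43, sl43, sv43]
  ((try push_cast); ring1)
theorem ta_dt64 (x : ℝ) : dt64.val (fun p x => kcg.v p x) (-37 / 100) (cT (-37 / 100)) x = (171573 / 25000000 + (x - 251 / 400) * (-866891 / 10000000)) :=
  (DT.val_le (by simp only [Cn.rt_v, Cn.ng_v]; norm_num)).trans (ta_dt42 x)
theorem tb_dt64 (x : ℝ) : dt64.val (fun p x => kcg.v p x) (-29 / 100) (cT (-29 / 100)) x = (26079 / 10000000 + (x - 251 / 400) * (-873219 / 10000000)) :=
  (DT.val_gt (by simp only [Cn.rt_v, Cn.ng_v]; norm_num)).trans (tb_dt43 x)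
theorem ta_dt65 (x : ℝ) : dt65.val (fun p x => kcg.v p x) (-2 / 5) (cT (-2 / 5)) x = (209709 / 25000000 + (x - 251 / 400) * (-73281 / 1250000)) :=
  (DT.val_le (by simp only [Cn.rt_v, Cn.ng_v]; norm_num)).trans (ta_dt41 x)
theorem tb_dt65 (x : ℝ) : dt65.val (fun p x => kcg.v p x) (-29 / 100) (cT (-29 / 100)) x = (26079 / 10000000 + (x - 251 / 400) * (-873219 / 10000000)) :=
  (DT.val_gt (by simp only [Cn.rt_v, Cn.ng_v]; norm_num)).trans (tb_dt64 x)
theorem ta_dt66 (x : ℝ) : dt66.val (fun p x => kcg.v p x) (-1 / 2) (cT (-1 / 2)) x = (0) :=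
  (DT.val_le (by simp only [Cn.rt_v, Cn.ng_v]; norm_num)).trans (ta_dt63 x)
theorem tb_dt66 (x : ℝ) : dt66.val (fun p x => kcg.v p x) (-29 / 100) (cT (-29 / 100)) x = (26079 / 10000000 + (x - 251 / 400) * (-873219 / 10000000)) :=
  (DT.val_gt (by simp only [Cn.rt_v, Cn.ng_v]; norm_num)).trans (tb_dt65 x)
theorem ta_dt44 (x : ℝ) : dt44.val (fun p x => kcg.v p x) (-29 / 100) (cT (-29 / 100)) x = (26079 / 10000000 + (x - 251 / 400) * (-873219 / 10000000)) := by
  simp only [dt44, DT.val, sw44, sl44, sv44]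
  ((try push_cast); ring1)
theorem tb_dt44 (x : ℝ) : dt44.val (fun p x => kcg.v p x) (-1 / 4) (cT (-1 / 4)) x = (838 / 390625 + (x - 251 / 400) * (-602077 / 10000000)) := by
  simp only [dt44, DT.val, sw44, sl44, sv44]
  ((try push_cast); ring1)
theorem ta_dt45 (x : ℝ) : dt45.val (fun p x => kcg.v p x) (-1 / 4) (cT (-1 / 4)) x = (838 / 390625 + (x - 251 / 400) * (-602077 / 10000000)) := by
  simp only [dt45, DT.val, sw45, sl45, sv45]
  ((try push_cast); ring1)
theorem tb_dt45 (x : ℝ) : dt45.val (fun p x => kcg.v p x) (-11 / 50) (cT (-11 / 50)) x = (5983 / 625000 + (x - 251 / 400) * (-277173 / 5000000)) := by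
  simp only [dt45, DT.val, sw45, sl45, sv45]
  ((try push_cast); ring1)
theorem ta_dt46 (x : ℝ) : dt46.val (fun p x => kcg.v p x) (-11 / 50) (cT (-11 / 50)) x = (5983 / 625000 + (x - 251 / 400) * (-277173 / 5000000)) := by
  simp only [dt46, DT.val, sw46, sl46, sv46]
  ((try push_cast); ring1)
theorem tb_dt46 (x : ℝ) : dt46.val (fun p x => kcg.v p x) (-9 / 50) (cT (-9 / 50)) x = (1325357 / 50000000 + (x - 251 / 400) * (-11431 / 500000)) := by
  simp only [dt46, DT.val, sw46, sl46, sv46]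
  ((try push_cast); ring1)
theorem ta_dt67 (x : ℝ) : dt67.val (fun p x => kcg.v p x) (-1 / 4) (cT (-1 / 4)) x = (838 / 390625 + (x - 251 / 400) * (-602077 / 10000000)) :=
  (DT.val_le (by simp only [Cn.rt_v, Cn.ng_v]; norm_num)).trans (ta_dt45 x)
theorem tb_dt67 (x : ℝ) : dt67.val (fun p x => kcg.v p x) (-9 / 50) (cT (-9 / 50)) x = (1325357 / 50000000 + (x - 251 / 400) * (-11431 / 500000)) :=
  (DT.val_gt (by simp only [Cn.rt_v, Cn.ng_v]; norm_num)).trans (tb_dt46 x)
theorem ta_dt68 (x : ℝ) : dt68.val (fun p x => kcg.v p x) (-29 / 100) (cT (-29 / 100)) x = (26079 / 10000000 + (x - 251 / 400) * (-873219 / 10000000)) :=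
  (DT.val_le (by simp only [Cn.rt_v, Cn.ng_v]; norm_num)).trans (ta_dt44 x)
theorem tb_dt68 (x : ℝ) : dt68.val (fun p x => kcg.v p x) (-9 / 50) (cT (-9 / 50)) x = (1325357 / 50000000 + (x - 251 / 400) * (-11431 / 500000)) :=
  (DT.val_gt (by simp only [Cn.rt_v, Cn.ng_v]; norm_num)).trans (tb_dt67 x)
theorem ta_dt47 (x : ℝ) : dt47.val (fun p x => kcg.v p x) (-9 / 50) (cT (-9 / 50)) x = (1325357 / 50000000 + (x - 251 / 400) * (-11431 / 500000)) := by
  simp only [dt47, DT.val, sw47, sl47, sv47]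
  ((try push_cast); ring1)
theorem tb_dt47 (x : ℝ) : dt47.val (fun p x => kcg.v p x) (-7 / 50) (cT (-7 / 50)) x = (56889 / 1250000 + (x - 251 / 400) * (-205789 / 10000000)) := by
  simp only [dt47, DT.val, sw47, sl47, sv47]
  ((try push_cast); ring1)
theorem ta_dt48 (x : ℝ) : dt48.val (fun p x => kcg.v p x) (-7 / 50) (cT (-7 / 50)) x = (56889 / 1250000 + (x - 251 / 400) * (-205789 / 10000000)) := by
  simp only [dt48, DT.val, sw48, sl48, sv48]
  ((try push_cast); ring1)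
theorem tb_dt48 (x : ℝ) : dt48.val (fun p x => kcg.v p x) (-11 / 100) (cT (-11 / 100)) x = (5896211 / 100000000 + (x - 251 / 400) * (-145503 / 5000000)) := by
  simp only [dt48, DT.val, sw48, sl48, sv48]
  ((try push_cast); ring1)
theorem ta_dt49 (x : ℝ) : dt49.val (fun p x => kcg.v p x) (-11 / 100) (cT (-11 / 100)) x = (5896211 / 100000000 + (x - 251 / 400) * (-145503 / 5000000)) := by
  simp only [dt49, DT.val, sw49, sl49, sv49]
  ((try push_cast); ring1)
theorem tb_dt49 (x : ℝ) : dt49.val (fun p x => kcg.v p x) (-7 / 100) (cT (-7 / 100)) x = (1882697 / 25000000 + (x - 251 / 400) * (-285933 / 10000000)) := by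
  simp only [dt49, DT.val, sw49, sl49, sv49]
  ((try push_cast); ring1)
theorem ta_dt69 (x : ℝ) : dt69.val (fun p x => kcg.v p x) (-7 / 50) (cT (-7 / 50)) x = (56889 / 1250000 + (x - 251 / 400) * (-205789 / 10000000)) :=
  (DT.val_le (by simp only [Cn.rt_v, Cn.ng_v]; norm_num)).trans (ta_dt48 x)
theorem tb_dt69 (x : ℝ) : dt69.val (fun p x => kcg.v p x) (-7 / 100) (cT (-7 / 100)) x = (1882697 / 25000000 + (x - 251 / 400) * (-285933 / 10000000)) :=
  (DT.val_gt (by simp only [Cn.rt_v, Cn.ng_v]; norm_num)).trans (tb_dt49 x)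
theorem ta_dt70 (x : ℝ) : dt70.val (fun p x => kcg.v p x) (-9 / 50) (cT (-9 / 50)) x = (1325357 / 50000000 + (x - 251 / 400) * (-11431 / 500000)) :=
  (DT.val_le (by simp only [Cn.rt_v, Cn.ng_v]; norm_num)).trans (ta_dt47 x)
theorem tb_dt70 (x : ℝ) : dt70.val (fun p x => kcg.v p x) (-7 / 100) (cT (-7 / 100)) x = (1882697 / 25000000 + (x - 251 / 400) * (-285933 / 10000000)) :=
  (DT.val_gt (by simp only [Cn.rt_v, Cn.ng_v]; norm_num)).trans (tb_dt69 x)
theorem ta_dt71 (x : ℝ) : dt71.val (fun p x => kcg.v p x) (-29 / 100) (cT (-29 / 100)) x = (26079 / 10000000 + (x - 251 / 400) * (-873219 / 10000000)) :=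
  (DT.val_le (by simp only [Cn.rt_v, Cn.ng_v]; norm_num)).trans (ta_dt68 x)
theorem tb_dt71 (x : ℝ) : dt71.val (fun p x => kcg.v p x) (-7 / 100) (cT (-7 / 100)) x = (1882697 / 25000000 + (x - 251 / 400) * (-285933 / 10000000)) :=
  (DT.val_gt (by simp only [Cn.rt_v, Cn.ng_v]; norm_num)).trans (tb_dt70 x)
theorem ta_dt72 (x : ℝ) : dt72.val (fun p x => kcg.v p x) (-1 / 2) (cT (-1 / 2)) x = (0) :=
  (DT.val_le (by simp only [Cn.rt_v, Cn.ng_v]; norm_num)).trans (ta_dt66 x)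
theorem tb_dt72 (x : ℝ) : dt72.val (fun p x => kcg.v p x) (-7 / 100) (cT (-7 / 100)) x = (1882697 / 25000000 + (x - 251 / 400) * (-285933 / 10000000)) :=
  (DT.val_gt (by simp only [Cn.rt_v, Cn.ng_v]; norm_num)).trans (tb_dt71 x)
theorem ta_dt50 (x : ℝ) : dt50.val (fun p x => kcg.v p x) (-7 / 100) (cT (-7 / 100)) x = (1882697 / 25000000 + (x - 251 / 400) * (-285933 / 10000000)) := by
  simp only [dt50, DT.val, sw50, sl50, sv50]
  ((try push_cast); ring1)
theorem tb_dt50 (x : ℝ) : dt50.val (fun p x => kcg.v p x) (-3 / 100) (cT (-3 / 100)) x = (1116887 / 12500000 + (x - 251 / 400) * (-155783 / 10000000)) := by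
  simp only [dt50, DT.val, sw50, sl50, sv50]
  ((try push_cast); ring1)
theorem ta_dt51 (x : ℝ) : dt51.val (fun p x => kcg.v p x) (-3 / 100) (cT (-3 / 100)) x = (1116887 / 12500000 + (x - 251 / 400) * (-155783 / 10000000)) := by
  simp only [dt51, DT.val, sw51, sl51, sv51]
  ((try push_cast); ring1)
theorem tb_dt51 (x : ℝ) : dt51.val (fun p x => kcg.v p x) (11 / 2198) (949 / 1099) x = (13190052015815901 / 132737329900000000 + (x - 251 / 400) * (933901749 / 301950250000)) := by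
  simp only [dt51, DT.val, sw51, sl51, sv51]
  ((try push_cast); ring1)
theorem ta_dt52 (x : ℝ) : dt52.val (fun p x => kcg.v p x) (11 / 2198) (949 / 1099) x = (13190052015815901 / 132737329900000000 + (x - 251 / 400) * (933901749 / 301950250000)) := by
  simp only [dt52, DT.val, cloR, kgA]
  ring1
theorem tb_dt52 (x : ℝ) : dt52.val (fun p x => kcg.v p x) (13 / 134) (109 / 134) x = (4603105915067373 / 40302242000000000 + (x - 251 / 400) * (1557585920169 / 25188901250000) + (x - 251 / 400) ^ 2 * (16118109 / 3759537500)) := by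
  simp only [dt52, DT.val, cloR, kgB]
  ring1
theorem ta_dt73 (x : ℝ) : dt73.val (fun p x => kcg.v p x) (-3 / 100) (cT (-3 / 100)) x = (1116887 / 12500000 + (x - 251 / 400) * (-155783 / 10000000)) :=
  (DT.val_le (by simp only [Cn.rt_v, Cn.ng_v]; norm_num)).trans (ta_dt51 x)
theorem tb_dt73 (x : ℝ) : dt73.val (fun p x => kcg.v p x) (13 / 134) (109 / 134) x = (4603105915067373 / 40302242000000000 + (x - 251 / 400) * (1557585920169 / 25188901250000) + (x - 251 / 400) ^ 2 * (16118109 / 3759537500)) :=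
  (DT.val_gt (by simp only [Cn.rt_v, Cn.ng_v]; norm_num)).trans (tb_dt52 x)
theorem ta_dt74 (x : ℝ) : dt74.val (fun p x => kcg.v p x) (-7 / 100) (cT (-7 / 100)) x = (1882697 / 25000000 + (x - 251 / 400) * (-285933 / 10000000)) :=
  (DT.val_le (by simp only [Cn.rt_v, Cn.ng_v]; norm_num)).trans (ta_dt50 x)
theorem tb_dt74 (x : ℝ) : dt74.val (fun p x => kcg.v p x) (13 / 134) (109 / 134) x = (4603105915067373 / 40302242000000000 + (x - 251 / 400) * (1557585920169 / 25188901250000) + (x - 251 / 400) ^ 2 * (16118109 / 3759537500)) :=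
  (DT.val_gt (by simp only [Cn.rt_v, Cn.ng_v]; norm_num)).trans (tb_dt73 x)
theorem ta_dt53 (x : ℝ) : dt53.val (fun p x => kcg.v p x) (13 / 134) (109 / 134) x = (4603105915067373 / 40302242000000000 + (x - 251 / 400) * (1557585920169 / 25188901250000) + (x - 251 / 400) ^ 2 * (16118109 / 3759537500)) := by
  simp only [dt53, DT.val, sw53, sw53_2, sl53, sl53_2, sv53, sv53_2]
  ((try push_cast); ring1)
theorem tb_dt53 (x : ℝ) : dt53.val (fun p x => kcg.v p x) (117 / 1000) (cT (117 / 1000)) x = (2291581 / 20000000 + (x - 251 / 400) * (771773 / 10000000)) := by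
  simp only [dt53, DT.val, sw53, sw53_2, sl53, sl53_2, sv53, sv53_2]
  ((try push_cast); ring1)
theorem ta_dt54 (x : ℝ) : dt54.val (fun p x => kcg.v p x) (117 / 1000) (cT (117 / 1000)) x = (2291581 / 20000000 + (x - 251 / 400) * (771773 / 10000000)) := by
  simp only [dt54, DT.val, sw54, sw54_2, sl54, sl54_2, sv54, sv54_2]
  ((try push_cast); ring1)
theorem tb_dt54 (x : ℝ) : dt54.val (fun p x => kcg.v p x) (3 / 20) (cT (3 / 20)) x = (5586091 / 50000000 + (x - 251 / 400) * (31917 / 312500)) := by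
  simp only [dt54, DT.val, sw54, sw54_2, sl54, sl54_2, sv54, sv54_2]
  ((try push_cast); ring1)
theorem ta_dt55 (x : ℝ) : dt55.val (fun p x => kcg.v p x) (3 / 20) (cT (3 / 20)) x = (5586091 / 50000000 + (x - 251 / 400) * (31917 / 312500)) := by
  simp only [dt55, DT.val, sw55, sl55, sv55]
  ((try push_cast); ring1)
theorem tb_dt55 (x : ℝ) : dt55.val (fun p x => kcg.v p x) (19 / 100) (cT (19 / 100)) x = (10140323 / 100000000 + (x - 251 / 400) * (943881 / 10000000)) := by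
  simp only [dt55, DT.val, sw55, sl55, sv55]
  ((try push_cast); ring1)
theorem ta_dt75 (x : ℝ) : dt75.val (fun p x => kcg.v p x) (117 / 1000) (cT (117 / 1000)) x = (2291581 / 20000000 + (x - 251 / 400) * (771773 / 10000000)) :=
  (DT.val_le (by simp only [Cn.rt_v, Cn.ng_v]; norm_num)).trans (ta_dt54 x)
theorem tb_dt75 (x : ℝ) : dt75.val (fun p x => kcg.v p x) (19 / 100) (cT (19 / 100)) x = (10140323 / 100000000 + (x - 251 / 400) * (943881 / 10000000)) :=
  (DT.val_gt (by simp only [Cn.rt_v, Cn.ng_v]; norm_num)).trans (tb_dt55 x)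
theorem ta_dt76 (x : ℝ) : dt76.val (fun p x => kcg.v p x) (13 / 134) (109 / 134) x = (4603105915067373 / 40302242000000000 + (x - 251 / 400) * (1557585920169 / 25188901250000) + (x - 251 / 400) ^ 2 * (16118109 / 3759537500)) :=
  (DT.val_le (by simp only [Cn.rt_v, Cn.ng_v]; norm_num)).trans (ta_dt53 x)
theorem tb_dt76 (x : ℝ) : dt76.val (fun p x => kcg.v p x) (19 / 100) (cT (19 / 100)) x = (10140323 / 100000000 + (x - 251 / 400) * (943881 / 10000000)) :=
  (DT.val_gt (by simp only [Cn.rt_v, Cn.ng_v]; norm_num)).trans (tb_dt75 x)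
theorem ta_dt77 (x : ℝ) : dt77.val (fun p x => kcg.v p x) (-7 / 100) (cT (-7 / 100)) x = (1882697 / 25000000 + (x - 251 / 400) * (-285933 / 10000000)) :=
  (DT.val_le (by simp only [Cn.rt_v, Cn.ng_v]; norm_num)).trans (ta_dt74 x)
theorem tb_dt77 (x : ℝ) : dt77.val (fun p x => kcg.v p x) (19 / 100) (cT (19 / 100)) x = (10140323 / 100000000 + (x - 251 / 400) * (943881 / 10000000)) :=
  (DT.val_gt (by simp only [Cn.rt_v, Cn.ng_v]; norm_num)).trans (tb_dt76 x)
theorem ta_dt56 (x : ℝ) : dt56.val (fun p x => kcg.v p x) (19 / 100) (cT (19 / 100)) x = (10140323 / 100000000 + (x - 251 / 400) * (943881 / 10000000)) := by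
  simp only [dt56, DT.val, sw56, sl56, sv56]
  ((try push_cast); ring1)
theorem tb_dt56 (x : ℝ) : dt56.val (fun p x => kcg.v p x) (6 / 25) (cT (6 / 25)) x = (8298107 / 100000000 + (x - 251 / 400) * (287343 / 10000000)) := by
  simp only [dt56, DT.val, sw56, sl56, sv56]
  ((try push_cast); ring1)
theorem ta_dt57 (x : ℝ) : dt57.val (fun p x => kcg.v p x) (6 / 25) (cT (6 / 25)) x = (8298107 / 100000000 + (x - 251 / 400) * (287343 / 10000000)) := by
  simp only [dt57, DT.val, sw57, sl57, sv57]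
  ((try push_cast); ring1)
theorem tb_dt57 (x : ℝ) : dt57.val (fun p x => kcg.v p x) (29 / 100) (cT (29 / 100)) x = (673683 / 10000000 + (x - 251 / 400) * (559 / 12500)) := by
  simp only [dt57, DT.val, sw57, sl57, sv57]
  ((try push_cast); ring1)
theorem ta_dt58 (x : ℝ) : dt58.val (fun p x => kcg.v p x) (29 / 100) (cT (29 / 100)) x = (673683 / 10000000 + (x - 251 / 400) * (559 / 12500)) := by
  simp only [dt58, DT.val, sw58, sl58, sv58]
  ((try push_cast); ring1)
theorem tb_dt58 (x : ℝ) : dt58.val (fun p x => kcg.v p x) (17 / 50) (cT (17 / 50)) x = (2493213 / 50000000 + (x - 251 / 400) * (1042031 / 10000000)) := by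
  simp only [dt58, DT.val, sw58, sl58, sv58]
  ((try push_cast); ring1)
theorem ta_dt78 (x : ℝ) : dt78.val (fun p x => kcg.v p x) (6 / 25) (cT (6 / 25)) x = (8298107 / 100000000 + (x - 251 / 400) * (287343 / 10000000)) :=
  (DT.val_le (by simp only [Cn.rt_v, Cn.ng_v]; norm_num)).trans (ta_dt57 x)
theorem tb_dt78 (x : ℝ) : dt78.val (fun p x => kcg.v p x) (17 / 50) (cT (17 / 50)) x = (2493213 / 50000000 + (x - 251 / 400) * (1042031 / 10000000)) :=
  (DT.val_gt (by simp only [Cn.rt_v, Cn.ng_v]; norm_num)).trans (tb_dt58 x)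
theorem ta_dt79 (x : ℝ) : dt79.val (fun p x => kcg.v p x) (19 / 100) (cT (19 / 100)) x = (10140323 / 100000000 + (x - 251 / 400) * (943881 / 10000000)) :=
  (DT.val_le (by simp only [Cn.rt_v, Cn.ng_v]; norm_num)).trans (ta_dt56 x)
theorem tb_dt79 (x : ℝ) : dt79.val (fun p x => kcg.v p x) (17 / 50) (cT (17 / 50)) x = (2493213 / 50000000 + (x - 251 / 400) * (1042031 / 10000000)) :=
  (DT.val_gt (by simp only [Cn.rt_v, Cn.ng_v]; norm_num)).trans (tb_dt78 x)
theorem ta_dt59 (x : ℝ) : dt59.val (fun p x => kcg.v p x) (17 / 50) (cT (17 / 50)) x = (2493213 / 50000000 + (x - 251 / 400) * (1042031 / 10000000)) := by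
  simp only [dt59, DT.val, sw59, sl59, sv59]
  ((try push_cast); ring1)
theorem tb_dt59 (x : ℝ) : dt59.val (fun p x => kcg.v p x) (39 / 100) (cT (39 / 100)) x = (407771 / 12500000 + (x - 251 / 400) * (210769 / 2000000)) := by
  simp only [dt59, DT.val, sw59, sl59, sv59]
  ((try push_cast); ring1)
theorem ta_dt60 (x : ℝ) : dt60.val (fun p x => kcg.v p x) (39 / 100) (cT (39 / 100)) x = (407771 / 12500000 + (x - 251 / 400) * (210769 / 2000000)) := by
  simp only [dt60, DT.val, sw60, sl60, sv60]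
  ((try push_cast); ring1)
theorem tb_dt60 (x : ℝ) : dt60.val (fun p x => kcg.v p x) (11 / 25) (cT (11 / 25)) x = (864251 / 50000000 + (x - 251 / 400) * (871387 / 10000000)) := by
  simp only [dt60, DT.val, sw60, sl60, sv60]
  ((try push_cast); ring1)
theorem ta_dt61 (x : ℝ) : dt61.val (fun p x => kcg.v p x) (11 / 25) (cT (11 / 25)) x = (864251 / 50000000 + (x - 251 / 400) * (871387 / 10000000)) := by
  simp only [dt61, DT.val, sw61, sl61, sv61]
  ((try push_cast); ring1)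
theorem tb_dt61 (x : ℝ) : dt61.val (fun p x => kcg.v p x) (1 / 2) (cT (1 / 2)) x = (0) := by
  simp only [dt61, DT.val, sw61, sl61, sv61]
  ((try push_cast); ring1)
theorem ta_dt80 (x : ℝ) : dt80.val (fun p x => kcg.v p x) (39 / 100) (cT (39 / 100)) x = (407771 / 12500000 + (x - 251 / 400) * (210769 / 2000000)) :=
  (DT.val_le (by simp only [Cn.rt_v, Cn.ng_v]; norm_num)).trans (ta_dt60 x)
theorem tb_dt80 (x : ℝ) : dt80.val (fun p x => kcg.v p x) (1 / 2) (cT (1 / 2)) x = (0) :=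
  (DT.val_gt (by simp only [Cn.rt_v, Cn.ng_v]; norm_num)).trans (tb_dt61 x)
theorem ta_dt81 (x : ℝ) : dt81.val (fun p x => kcg.v p x) (17 / 50) (cT (17 / 50)) x = (2493213 / 50000000 + (x - 251 / 400) * (1042031 / 10000000)) :=
  (DT.val_le (by simp only [Cn.rt_v, Cn.ng_v]; norm_num)).trans (ta_dt59 x)
theorem tb_dt81 (x : ℝ) : dt81.val (fun p x => kcg.v p x) (1 / 2) (cT (1 / 2)) x = (0) :=
  (DT.val_gt (by simp only [Cn.rt_v, Cn.ng_v]; norm_num)).trans (tb_dt80 x)
theorem ta_dt82 (x : ℝ) : dt82.val (fun p x => kcg.v p x) (19 / 100) (cT (19 / 100)) x = (10140323 / 100000000 + (x - 251 / 400) * (943881 / 10000000)) :=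
  (DT.val_le (by simp only [Cn.rt_v, Cn.ng_v]; norm_num)).trans (ta_dt79 x)
theorem tb_dt82 (x : ℝ) : dt82.val (fun p x => kcg.v p x) (1 / 2) (cT (1 / 2)) x = (0) :=
  (DT.val_gt (by simp only [Cn.rt_v, Cn.ng_v]; norm_num)).trans (tb_dt81 x)
theorem ta_dt83 (x : ℝ) : dt83.val (fun p x => kcg.v p x) (-7 / 100) (cT (-7 / 100)) x = (1882697 / 25000000 + (x - 251 / 400) * (-285933 / 10000000)) :=
  (DT.val_le (by simp only [Cn.rt_v, Cn.ng_v]; norm_num)).trans (ta_dt77 x)
theorem tb_dt83 (x : ℝ) : dt83.val (fun p x => kcg.v p x) (1 / 2) (cT (1 / 2)) x = (0) :=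
  (DT.val_gt (by simp only [Cn.rt_v, Cn.ng_v]; norm_num)).trans (tb_dt82 x)
theorem ta_dt84 (x : ℝ) : dt84.val (fun p x => kcg.v p x) (-1 / 2) (cT (-1 / 2)) x = (0) :=
  (DT.val_le (by simp only [Cn.rt_v, Cn.ng_v]; norm_num)).trans (ta_dt72 x)
theorem tb_dt84 (x : ℝ) : dt84.val (fun p x => kcg.v p x) (1 / 2) (cT (1 / 2)) x = (0) :=
  (DT.val_gt (by simp only [Cn.rt_v, Cn.ng_v]; norm_num)).trans (tb_dt83 x)
theorem to_dt38 (x : ℝ) : dt38.Ok (fun p x => kcg.v p x) x := trivial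
theorem to_dt39 (x : ℝ) : dt39.Ok (fun p x => kcg.v p x) x := trivial
theorem to_dt40 (x : ℝ) : dt40.Ok (fun p x => kcg.v p x) x := trivial
theorem to_dt62 (x : ℝ) : dt62.Ok (fun p x => kcg.v p x) x :=
  DT.ok_node (v := -11 / 25) (by simp only [Cn.rt_v, Cn.ng_v]; norm_num) (by rw [abs_le]; constructor <;> norm_num) rfl (tb_dt39 x) (ta_dt40 x) (by ring1) (to_dt39 x) (to_dt40 x)
theorem to_dt63 (x : ℝ) : dt63.Ok (fun p x => kcg.v p x) x :=
  DT.ok_node (v := -47 / 100) (by simp only [Cn.rt_v, Cn.ng_v]; norm_num) (by rw [abs_le]; constructor <;> norm_num) rfl (tb_dt38 x) (ta_dt62 x) (by ring1) (to_dt38 x) (to_dt62 x)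
theorem to_dt41 (x : ℝ) : dt41.Ok (fun p x => kcg.v p x) x := trivial
theorem to_dt42 (x : ℝ) : dt42.Ok (fun p x => kcg.v p x) x := trivial
theorem to_dt43 (x : ℝ) : dt43.Ok (fun p x => kcg.v p x) x := trivial
theorem to_dt64 (x : ℝ) : dt64.Ok (fun p x => kcg.v p x) x :=
  DT.ok_node (v := -33 / 100) (by simp only [Cn.rt_v, Cn.ng_v]; norm_num) (by rw [abs_le]; constructor <;> norm_num) rfl (tb_dt42 x) (ta_dt43 x) (by ring1) (to_dt42 x) (to_dt43 x)
theorem to_dt65 (x : ℝ) : dt65.Ok (fun p x => kcg.v p x) x :=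
  DT.ok_node (v := -37 / 100) (by simp only [Cn.rt_v, Cn.ng_v]; norm_num) (by rw [abs_le]; constructor <;> norm_num) rfl (tb_dt41 x) (ta_dt64 x) (by ring1) (to_dt41 x) (to_dt64 x)
theorem to_dt66 (x : ℝ) : dt66.Ok (fun p x => kcg.v p x) x :=
  DT.ok_node (v := -2 / 5) (by simp only [Cn.rt_v, Cn.ng_v]; norm_num) (by rw [abs_le]; constructor <;> norm_num) rfl (tb_dt63 x) (ta_dt65 x) (by ring1) (to_dt63 x) (to_dt65 x)
theorem to_dt44 (x : ℝ) : dt44.Ok (fun p x => kcg.v p x) x := trivial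
theorem to_dt45 (x : ℝ) : dt45.Ok (fun p x => kcg.v p x) x := trivial
theorem to_dt46 (x : ℝ) : dt46.Ok (fun p x => kcg.v p x) x := trivial
theorem to_dt67 (x : ℝ) : dt67.Ok (fun p x => kcg.v p x) x :=
  DT.ok_node (v := -11 / 50) (by simp only [Cn.rt_v, Cn.ng_v]; norm_num) (by rw [abs_le]; constructor <;> norm_num) rfl (tb_dt45 x) (ta_dt46 x) (by ring1) (to_dt45 x) (to_dt46 x)
theorem to_dt68 (x : ℝ) : dt68.Ok (fun p x => kcg.v p x) x :=
  DT.ok_node (v := -1 / 4) (by simp only [Cn.rt_v, Cn.ng_v]; norm_num) (by rw [abs_le]; constructor <;> norm_num) rfl (tb_dt44 x) (ta_dt67 x) (by ring1) (to_dt44 x) (to_dt67 x)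
theorem to_dt47 (x : ℝ) : dt47.Ok (fun p x => kcg.v p x) x := trivial
theorem to_dt48 (x : ℝ) : dt48.Ok (fun p x => kcg.v p x) x := trivial
theorem to_dt49 (x : ℝ) : dt49.Ok (fun p x => kcg.v p x) x := trivial
theorem to_dt69 (x : ℝ) : dt69.Ok (fun p x => kcg.v p x) x :=
  DT.ok_node (v := -11 / 100) (by simp only [Cn.rt_v, Cn.ng_v]; norm_num) (by rw [abs_le]; constructor <;> norm_num) rfl (tb_dt48 x) (ta_dt49 x) (by ring1) (to_dt48 x) (to_dt49 x)
theorem to_dt70 (x : ℝ) : dt70.Ok (fun p x => kcg.v p x) x :=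
  DT.ok_node (v := -7 / 50) (by simp only [Cn.rt_v, Cn.ng_v]; norm_num) (by rw [abs_le]; constructor <;> norm_num) rfl (tb_dt47 x) (ta_dt69 x) (by ring1) (to_dt47 x) (to_dt69 x)
theorem to_dt71 (x : ℝ) : dt71.Ok (fun p x => kcg.v p x) x :=
  DT.ok_node (v := -9 / 50) (by simp only [Cn.rt_v, Cn.ng_v]; norm_num) (by rw [abs_le]; constructor <;> norm_num) rfl (tb_dt68 x) (ta_dt70 x) (by ring1) (to_dt68 x) (to_dt70 x)
theorem to_dt72 (x : ℝ) : dt72.Ok (fun p x => kcg.v p x) x :=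
  DT.ok_node (v := -29 / 100) (by simp only [Cn.rt_v, Cn.ng_v]; norm_num) (by rw [abs_le]; constructor <;> norm_num) rfl (tb_dt66 x) (ta_dt71 x) (by ring1) (to_dt66 x) (to_dt71 x)
theorem to_dt50 (x : ℝ) : dt50.Ok (fun p x => kcg.v p x) x := trivial
theorem to_dt51 (x : ℝ) : dt51.Ok (fun p x => kcg.v p x) x := trivial
theorem to_dt52 (x : ℝ) : dt52.Ok (fun p x => kcg.v p x) x := trivial
theorem to_dt73 (x : ℝ) : dt73.Ok (fun p x => kcg.v p x) x :=
  DT.ok_node (v := 11 / 2198) (by simp only [Cn.rt_v, Cn.ng_v]; norm_num) (by rw [abs_le]; constructor <;> norm_num) ctA (tb_dt51 x) (ta_dt52 x) (by ring1) (to_dt51 x) (to_dt52 x)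
theorem to_dt74 (x : ℝ) : dt74.Ok (fun p x => kcg.v p x) x :=
  DT.ok_node (v := -3 / 100) (by simp only [Cn.rt_v, Cn.ng_v]; norm_num) (by rw [abs_le]; constructor <;> norm_num) rfl (tb_dt50 x) (ta_dt73 x) (by ring1) (to_dt50 x) (to_dt73 x)
theorem to_dt53 (x : ℝ) : dt53.Ok (fun p x => kcg.v p x) x := trivial
theorem to_dt54 (x : ℝ) : dt54.Ok (fun p x => kcg.v p x) x := trivial
theorem to_dt55 (x : ℝ) : dt55.Ok (fun p x => kcg.v p x) x := trivial
theorem to_dt75 (x : ℝ) : dt75.Ok (fun p x => kcg.v p x) x :=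
  DT.ok_node (v := 3 / 20) (by simp only [Cn.rt_v, Cn.ng_v]; norm_num) (by rw [abs_le]; constructor <;> norm_num) rfl (tb_dt54 x) (ta_dt55 x) (by ring1) (to_dt54 x) (to_dt55 x)
theorem to_dt76 (x : ℝ) : dt76.Ok (fun p x => kcg.v p x) x :=
  DT.ok_node (v := 117 / 1000) (by simp only [Cn.rt_v, Cn.ng_v]; norm_num) (by rw [abs_le]; constructor <;> norm_num) rfl (tb_dt53 x) (ta_dt75 x) (by ring1) (to_dt53 x) (to_dt75 x)
theorem to_dt77 (x : ℝ) : dt77.Ok (fun p x => kcg.v p x) x :=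
  DT.ok_node (v := 13 / 134) (by simp only [Cn.rt_v, Cn.ng_v]; norm_num) (by rw [abs_le]; constructor <;> norm_num) ctB (tb_dt74 x) (ta_dt76 x) (by ring1) (to_dt74 x) (to_dt76 x)
theorem to_dt56 (x : ℝ) : dt56.Ok (fun p x => kcg.v p x) x := trivial
theorem to_dt57 (x : ℝ) : dt57.Ok (fun p x => kcg.v p x) x := trivial
theorem to_dt58 (x : ℝ) : dt58.Ok (fun p x => kcg.v p x) x := trivial
theorem to_dt78 (x : ℝ) : dt78.Ok (fun p x => kcg.v p x) x :=
  DT.ok_node (v := 29 / 100) (by simp only [Cn.rt_v, Cn.ng_v]; norm_num) (by rw [abs_le]; constructor <;> norm_num) rfl (tb_dt57 x) (ta_dt58 x) (by ring1) (to_dt57 x) (to_dt58 x)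
theorem to_dt79 (x : ℝ) : dt79.Ok (fun p x => kcg.v p x) x :=
  DT.ok_node (v := 6 / 25) (by simp only [Cn.rt_v, Cn.ng_v]; norm_num) (by rw [abs_le]; constructor <;> norm_num) rfl (tb_dt56 x) (ta_dt78 x) (by ring1) (to_dt56 x) (to_dt78 x)
theorem to_dt59 (x : ℝ) : dt59.Ok (fun p x => kcg.v p x) x := trivial
theorem to_dt60 (x : ℝ) : dt60.Ok (fun p x => kcg.v p x) x := trivial
theorem to_dt61 (x : ℝ) : dt61.Ok (fun p x => kcg.v p x) x := trivial
theorem to_dt80 (x : ℝ) : dt80.Ok (fun p x => kcg.v p x) x :=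
  DT.ok_node (v := 11 / 25) (by simp only [Cn.rt_v, Cn.ng_v]; norm_num) (by rw [abs_le]; constructor <;> norm_num) rfl (tb_dt60 x) (ta_dt61 x) (by ring1) (to_dt60 x) (to_dt61 x)
theorem to_dt81 (x : ℝ) : dt81.Ok (fun p x => kcg.v p x) x :=
  DT.ok_node (v := 39 / 100) (by simp only [Cn.rt_v, Cn.ng_v]; norm_num) (by rw [abs_le]; constructor <;> norm_num) rfl (tb_dt59 x) (ta_dt80 x) (by ring1) (to_dt59 x) (to_dt80 x)
theorem to_dt82 (x : ℝ) : dt82.Ok (fun p x => kcg.v p x) x :=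
  DT.ok_node (v := 17 / 50) (by simp only [Cn.rt_v, Cn.ng_v]; norm_num) (by rw [abs_le]; constructor <;> norm_num) rfl (tb_dt79 x) (ta_dt81 x) (by ring1) (to_dt79 x) (to_dt81 x)
theorem to_dt83 (x : ℝ) : dt83.Ok (fun p x => kcg.v p x) x :=
  DT.ok_node (v := 19 / 100) (by simp only [Cn.rt_v, Cn.ng_v]; norm_num) (by rw [abs_le]; constructor <;> norm_num) rfl (tb_dt77 x) (ta_dt82 x) (by ring1) (to_dt77 x) (to_dt82 x)
theorem to_dt84 (x : ℝ) : dt84.Ok (fun p x => kcg.v p x) x :=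
  DT.ok_node (v := -7 / 100) (by simp only [Cn.rt_v, Cn.ng_v]; norm_num) (by rw [abs_le]; constructor <;> norm_num) rfl (tb_dt72 x) (ta_dt83 x) (by ring1) (to_dt72 x) (to_dt83 x)
theorem dok (x : ℝ) : dd.Ok x := ⟨ko_dt37 x, fun p h => kfe h, to_dt84 x⟩
theorem K0_ (x : ℝ) : ∀ q y, OnC (0 : Fin 9) q y → TightK (tyO q) q (fun p => dd.kf.v p x) (c1n y) y (tK 0 q y x) := by
  refine K0_of (R := fun q y => tK 0 q y x) (kc := fun p => kcg.v p x) ?_ ?_ ?_
  · intro y h
    show tK 0 0 y x = _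
    ·
      rw [← (atB00 h).K]
      show kf0q0.v y x = _
      simp only [kf0q0, kf0q0_9, kf0q0_12, c1g_v]
      ((try push_cast); (try simp only [mul_inv]); (try ring_nf))
  · intro y h
    show tK 0 1 y x = _
    ·
      rw [← (atB01 h).K]
      show kf0q1.v y x = _
      simp only [kf0q1, kf0q1_10, c1g_v]
      ((try push_cast); (try simp only [mul_inv]); (try ring_nf))
  · intro y h
    show tK 0 2 y x = _
    ·
      have ey := yag_v h.1.nonneg (h.2 rfl)
      rw [← (atB02 h).K]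
      show kfc02.v (c1n y) x = _
      simp only [kfc02, c1g_v, ey]
      ((try push_cast); (try simp only [mul_inv]); (try ring_nf))
theorem L0_ (x : ℝ) : ∀ q y, OnC (0 : Fin 9) q y → TightL (tyO q) (fun p c => dd.TX.val dd.kf.v p c x) (c1n y) y (tL 0 q y x) := by
  refine L0_of (R := fun q y => tL 0 q y x) (tx := fun p c => txg.v p c x) txe ?_ ?_ ?_
  · intro y h
    show tL 0 0 y x = _
    ·
      rw [← (atB00 h).L]
      show l0q0.v y x = _
      simp only [l0q0, c1g_v]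
      ((try push_cast); (try simp only [mul_inv]); (try ring_nf))
  · intro y h
    show tL 0 1 y x = _
    ·
      rw [← (atB01 h).L]
      show l0q1.v y x = _
      simp only [l0q1, c1g_v]
      ((try push_cast); (try simp only [mul_inv]); (try ring_nf))
  · intro y h
    show tL 0 2 y x = _
    ·
      have ey := yag_v h.1.nonneg (h.2 rfl)
      rw [← (atB02 h).L]
      show lc02.v (c1n y) x = _
      simp only [lc02, lc02_7, lc02_8, c1g_v, ey]
      ((try push_cast); (try simp only [mul_inv]); (try ring_nf))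
theorem Kn_ (x : ℝ) : ∀ q y, InQ q y → TightK (tyN q) q (fun p => dd.kf.v p x) (c3n y) y (tK (Fin.last 8) q y x) := by
  refine Kn_of (R := fun q y => tK 8 q y x) (kc := fun p => kcg.v p x) ?_ ?_ ?_ ?_
  · intro y h
    show tK 8 0 y x = _
    ·
      rw [← (atB80 (onc h (by decide))).K]
      show kf8q0.v y x = _
      simp only [kf8q0, c3g_v]
      ((try push_cast); (try simp only [mul_inv]); (try ring_nf))
  · intro y h
    show tK 8 1 y x = _
    ·
      rw [← (atB81 (onc h (by decide))).K]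
      show kf8q1.v y x = _
      simp only [kf8q1, c3g_v]
      ((try push_cast); (try simp only [mul_inv]); (try ring_nf))
  · intro y h
    show tK 8 2 y x = _
    ·
      rw [← (atB82 (onc h (by decide))).K]
      show kf8q2.v y x = _
      simp only [kf8q2, c3g_v]
      ((try push_cast); (try simp only [mul_inv]); (try ring_nf))
  · intro y h
    show tK 8 3 y x = _
    ·
      have ey := ycg_v h.nonneg h.le_two
      rw [← (atB83 (onc h (by decide))).K]
      show kfc83.v (c3n y) x = _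
      simp only [kfc83, c3g_v, ey]
      ((try push_cast); (try simp only [mul_inv]); (try ring_nf))
theorem Ln_ (x : ℝ) : ∀ q y, InQ q y → TightL (tyN q) (fun p c => dd.TX.val dd.kf.v p c x) (c3n y) y (tL (Fin.last 8) q y x) := by
  refine Ln_of (R := fun q y => tL 8 q y x) (tx := fun p c => txg.v p c x) txe ?_ ?_ ?_ ?_
  · intro y h
    show tL 8 0 y x = _
    ·
      rw [← (atB80 (onc h (by decide))).L]
      show l8q0.v y x = _
      simp only [l8q0, l8q0_6, l8q0_7, l8q0_8, c3g_v]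
      ((try push_cast); (try simp only [mul_inv]); (try ring_nf))
  · intro y h
    show tL 8 1 y x = _
    ·
      rw [← (atB81 (onc h (by decide))).L]
      show l8q1.v y x = _
      simp only [l8q1, l8q1_7, l8q1_8, l8q1_9, c3g_v]
      ((try push_cast); (try simp only [mul_inv]); (try ring_nf))
  · intro y h
    show tL 8 2 y x = _
    ·
      rw [← (atB82 (onc h (by decide))).L]
      show l8q2.v y x = _
      simp only [l8q2, l8q2_7, l8q2_8, l8q2_9, l8q2_12, l8q2_14, c3g_v]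
      ((try push_cast); (try simp only [mul_inv]); (try ring_nf))
  · intro y h
    show tL 8 3 y x = _
    ·
      have ey := ycg_v h.nonneg h.le_two
      rw [← (atB83 (onc h (by decide))).L]
      show lc83.v (c3n y) x = _
      simp only [lc83, lc83_7, lc83_8, lc83_9, lc83_12, lc83_14, c3g_v, ey]
      ((try push_cast); (try simp only [mul_inv]); (try ring_nf))
theorem f0_ : ∀ q y, InQ q y → (ff q).f.v y = crv PP 1 q y
  | 0, y, _ => ecv1q0.symm
  | 1, y, _ => ecv1q1.symm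
  | 2, y, _ => ecv1q2.symm
  | 3, y, h => (ecv1q3 h.1).symm
theorem fn_ : ∀ q y, InQ q y → (fl q).f.v y = crv PP 7 q y
  | 0, y, _ => ecv7q0.symm
  | 1, y, _ => ecv7q1.symm
  | 2, y, _ => ecv7q2.symm
  | 3, y, h => (ecv7q3 h.1).symm
theorem yK00 {y x : ℝ} (h : OnC (0 : Fin 9) 0 y) : tK 0 0 y x = kf0q0.v y x := (atB00 h).K.symm
theorem yK10 {y x : ℝ} (h : InQ 0 y) : tK 1 0 y x = kf1q0.v y x := (atB10 (onc h (by decide))).K.symm
theorem yK01 {y x : ℝ} (h : OnC (0 : Fin 9) 1 y) : tK 0 1 y x = kf0q1.v y x := (atB01 h).K.symm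
theorem yK11 {y x : ℝ} (h : InQ 1 y) : tK 1 1 y x = kf1q1.v y x := (atB11 (onc h (by decide))).K.symm
theorem yK02 {y x : ℝ} (h : OnC (0 : Fin 9) 2 y) : tK 0 2 y x = kf0q2.v y x := by
  rw [← (atB02 h).K]
  show kfc02.v (c1n y) x = _
  have ey := yag_v h.1.nonneg (h.2 rfl)
  simp only [kfc02, kf0q2, ey, c1g_v, c3g_v, swg_v]
  ((try push_cast); (try ring_nf))
theorem yK12 {y x : ℝ} (h : InQ 2 y) : tK 1 2 y x = kf1q2.v y x := (atB12 (onc h (by decide))).K.symm
theorem yK80 {y x : ℝ} (h : InQ 0 y) : tK 8 0 y x = kf8q0.v y x := (atB80 (onc h (by decide))).K.symm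
theorem yK70 {y x : ℝ} (h : InQ 0 y) : tK 7 0 y x = kf7q0.v y x := (atB70 (onc h (by decide))).K.symm
theorem yK81 {y x : ℝ} (h : InQ 1 y) : tK 8 1 y x = kf8q1.v y x := (atB81 (onc h (by decide))).K.symm
theorem yK71 {y x : ℝ} (h : InQ 1 y) : tK 7 1 y x = kf7q1.v y x := (atB71 (onc h (by decide))).K.symm
theorem yK82 {y x : ℝ} (h : InQ 2 y) : tK 8 2 y x = kf8q2.v y x := (atB82 (onc h (by decide))).K.symm
theorem yK72 {y x : ℝ} (h : InQ 2 y) : tK 7 2 y x = kf7q2.v y x := (atB72 (onc h (by decide))).K.symm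
theorem yK83 {y x : ℝ} (h : InQ 3 y) : tK 8 3 y x = kf8q3.v y x := by
  rw [← (atB83 (onc h (by decide))).K]
  show kfc83.v (c3n y) x = _
  have ey := ycg_v h.nonneg h.le_two
  simp only [kfc83, kf8q3, ey, c1g_v, c3g_v, swg_v]
  ((try push_cast); (try ring_nf))
theorem yK73 {y x : ℝ} (h : InQ 3 y) : tK 7 3 y x = kf7q3.v y x := by
  rw [← (atB73 (onc h (by decide))).K]
  show kfc73.v (c3n y) x = _
  have ey := ycg_v h.nonneg h.le_two
  simp only [kfc73, kfc73_11, kf7q3, kf7q3_4, cv7r, ey, c1g_v, c3g_v, swg_v]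
  ((try push_cast); (try ring_nf))
theorem yL00 {y x : ℝ} (h : OnC (0 : Fin 9) 0 y) : tL 0 0 y x = l0q0.v y x := (atB00 h).L.symm
theorem yL10 {y x : ℝ} (h : InQ 0 y) : tL 1 0 y x = l1q0.v y x := (atB10 (onc h (by decide))).L.symm
theorem yL01 {y x : ℝ} (h : OnC (0 : Fin 9) 1 y) : tL 0 1 y x = l0q1.v y x := (atB01 h).L.symm
theorem yL11 {y x : ℝ} (h : InQ 1 y) : tL 1 1 y x = l1q1.v y x := (atB11 (onc h (by decide))).L.symm
theorem yL02 {y x : ℝ} (h : OnC (0 : Fin 9) 2 y) : tL 0 2 y x = l0q2.v y x := by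
  rw [← (atB02 h).L]
  show lc02.v (c1n y) x = _
  have ey := yag_v h.1.nonneg (h.2 rfl)
  simp only [lc02, lc02_7, lc02_8, l0q2, l0q2_7, l0q2_8, ey, c1g_v, c3g_v, swg_v]
  ((try push_cast); (try ring_nf))
theorem yL12 {y x : ℝ} (h : InQ 2 y) : tL 1 2 y x = l1q2.v y x := (atB12 (onc h (by decide))).L.symm
theorem yL80 {y x : ℝ} (h : InQ 0 y) : tL 8 0 y x = l8q0.v y x := (atB80 (onc h (by decide))).L.symm
theorem yL70 {y x : ℝ} (h : InQ 0 y) : tL 7 0 y x = l7q0.v y x := (atB70 (onc h (by decide))).L.symm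
theorem yL81 {y x : ℝ} (h : InQ 1 y) : tL 8 1 y x = l8q1.v y x := (atB81 (onc h (by decide))).L.symm
theorem yL71 {y x : ℝ} (h : InQ 1 y) : tL 7 1 y x = l7q1.v y x := (atB71 (onc h (by decide))).L.symm
theorem yL82 {y x : ℝ} (h : InQ 2 y) : tL 8 2 y x = l8q2.v y x := (atB82 (onc h (by decide))).L.symm
theorem yL72 {y x : ℝ} (h : InQ 2 y) : tL 7 2 y x = l7q2.v y x := (atB72 (onc h (by decide))).L.symm
theorem yL83 {y x : ℝ} (h : InQ 3 y) : tL 8 3 y x = l8q3.v y x := by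
  rw [← (atB83 (onc h (by decide))).L]
  show lc83.v (c3n y) x = _
  have ey := ycg_v h.nonneg h.le_two
  simp only [lc83, lc83_7, lc83_8, lc83_9, lc83_12, lc83_14, l8q3, l8q3_7, l8q3_8, l8q3_9, l8q3_12, l8q3_14, ey, c1g_v, c3g_v, swg_v]
  ((try push_cast); (try ring_nf))
theorem yL73 {y x : ℝ} (h : InQ 3 y) : tL 7 3 y x = l7q3.v y x := by
  rw [← (atB73 (onc h (by decide))).L]
  show lc73.v (c3n y) x = _
  have ey := ycg_v h.nonneg h.le_two
  simp only [lc73, lc73_11, l7q3, l7q3_4, cv7r, ey, c1g_v, c3g_v, swg_v]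
  ((try push_cast); (try ring_nf))
theorem sK0_ (x : ℝ) : ∀ q y, OnC (0 : Fin 9) q y → c1n y < crv PP 1 q y →
    (ff q).SK.v y x * (crv PP 1 q y - c1n y) = tK 1 q y x - tK 0 q y x := by
  intro q y h hlt
  rcases onC_q h with rfl | rfl | rfl
  · rw [yK10 h.1, yK00 h]
    rw [ecv1q0, ← c1g_v] at hlt ⊢
    have hd : 0 < cv1m.v y - c1g.v y := sub_pos.2 hlt
    have hi := inv_mul_cancel₀ hd.ne'
    show skf0.v y x * _ = _
    simp only [skf0, kf1q0]
    (try push_cast)
    linear_combination (c1g.v y * bf1q0.v y x - kf0q0.v y x) * hi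
  · rw [yK11 h.1, yK01 h]
    rw [ecv1q1, ← c1g_v] at hlt ⊢
    have hd : 0 < cv1m.v y - c1g.v y := sub_pos.2 hlt
    have hi := inv_mul_cancel₀ hd.ne'
    show skf1.v y x * _ = _
    simp only [skf1, kf1q1]
    (try push_cast)
    linear_combination (c1g.v y * bf1q1.v y x - kf0q1.v y x) * hi
  · rw [yK12 h.1, yK02 h]
    rw [ecv1q2, ← c1g_v] at hlt ⊢
    have hd : 0 < cv1p.v y - c1g.v y := sub_pos.2 hlt
    have hi := inv_mul_cancel₀ hd.ne'
    have hB : kf1q2.v y x = cv1p.v y * bf1q2.v y x := by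
      simp only [kf1q2, kf1q2_4, kf1q2_9, bf1q2, bf1q2_3, bf1q2_8]
    have hb : |c1g.v y| ≤ 1 / 2 := by rw [c1g_v]; exact bnd_O h
    have eo := odd (x := x) hb
    show skf2.v y x * _ = _
    simp only [skf2, hB, kf0q2, eo]
    (try push_cast)
    linear_combination (c1g.v y * (bf1q2.v y x - 1) + (y - 1) * kcg.v (c1g.v y) x) * hi
theorem sX0_ (x : ℝ) : ∀ q y, OnC (0 : Fin 9) q y → c1n y < crv PP 1 q y →
    (ff q).SX.v y x * (crv PP 1 q y - c1n y) = tL 1 q y x - tL 0 q y x := by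
  intro q y h hlt
  rcases onC_q h with rfl | rfl | rfl
  · rw [yL10 h.1, yL00 h]
    rw [ecv1q0, ← c1g_v] at hlt ⊢
    have hd : 0 < cv1m.v y - c1g.v y := sub_pos.2 hlt
    have hi := inv_mul_cancel₀ hd.ne'
    show sxf0.v y x * _ = _
    simp only [sxf0]
    (try push_cast)
    linear_combination (l1q0.v y x - l0q0.v y x) * hi
  · rw [yL11 h.1, yL01 h]
    rw [ecv1q1, ← c1g_v] at hlt ⊢
    have hd : 0 < cv1m.v y - c1g.v y := sub_pos.2 hlt
    have hi := inv_mul_cancel₀ hd.ne'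
    show sxf1.v y x * _ = _
    simp only [sxf1]
    (try push_cast)
    linear_combination (l1q1.v y x - l0q1.v y x) * hi
  · rw [yL12 h.1, yL02 h]
    rw [ecv1q2, ← c1g_v] at hlt ⊢
    have hd : 0 < cv1p.v y - c1g.v y := sub_pos.2 hlt
    have hi := inv_mul_cancel₀ hd.ne'
    show sxf2.v y x * _ = _
    simp only [sxf2]
    (try push_cast)
    linear_combination (l1q2.v y x - l0q2.v y x) * hi
theorem sKn_ (x : ℝ) : ∀ q y, InQ q y → crv PP 7 q y < c3n y →
    (fl q).SK.v y x * (c3n y - crv PP 7 q y) = tK 8 q y x - tK 7 q y x := by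
  intro q y h hlt
  match q, h with
  | 0, h =>
    rw [yK80 h, yK70 h]
    rw [ecv7q0, ← c3g_v] at hlt ⊢
    have hd : 0 < c3g.v y - cv7m.v y := sub_pos.2 hlt
    have hi := inv_mul_cancel₀ hd.ne'
    show skl0.v y x * _ = _
    simp only [skl0, kf7q0]
    (try push_cast)
    linear_combination (kf8q0.v y x - c3g.v y * bf7q0.v y x) * hi
  | 1, h =>
    rw [yK81 h, yK71 h]
    rw [ecv7q1, ← c3g_v] at hlt ⊢
    have hd : 0 < c3g.v y - cv7m.v y := sub_pos.2 hlt
    have hi := inv_mul_cancel₀ hd.ne'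
    show skl1.v y x * _ = _
    simp only [skl1, kf7q1]
    (try push_cast)
    linear_combination (kf8q1.v y x - c3g.v y * bf7q1.v y x) * hi
  | 2, h =>
    rw [yK82 h, yK72 h]
    rw [ecv7q2, ← c3g_v] at hlt ⊢
    have hd : 0 < c3g.v y - cv7p.v y := sub_pos.2 hlt
    have hi := inv_mul_cancel₀ hd.ne'
    show skl2.v y x * _ = _
    simp only [skl2, kf7q2]
    (try push_cast)
    linear_combination (kf8q2.v y x - c3g.v y * bf7q2.v y x) * hi
  | 3, h =>
    rw [yK83 h, yK73 h]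
    rw [ecv7q3 h.1, ← c3g_v] at hlt ⊢
    have hd : 0 < c3g.v y - cv7r.v y := sub_pos.2 hlt
    have hi := inv_mul_cancel₀ hd.ne'
    have hB : kf7q3.v y x = cv7r.v y * bf7q3.v y x := by
      simp only [kf7q3, kf7q3_4, bf7q3, bf7q3_3]
    show skl3.v y x * _ = _
    simp only [skl3, hB]
    (try push_cast)
    linear_combination (kf8q3.v y x - c3g.v y * bf7q3.v y x) * hi
theorem sXn_ (x : ℝ) : ∀ q y, InQ q y → crv PP 7 q y < c3n y →
    (fl q).SX.v y x * (c3n y - crv PP 7 q y) = tL 8 q y x - tL 7 q y x := by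
  intro q y h hlt
  match q, h with
  | 0, h =>
    rw [yL80 h, yL70 h]
    rw [ecv7q0, ← c3g_v] at hlt ⊢
    have hd : 0 < c3g.v y - cv7m.v y := sub_pos.2 hlt
    have hi := inv_mul_cancel₀ hd.ne'
    show sxl0.v y x * _ = _
    simp only [sxl0]
    (try push_cast)
    linear_combination (l8q0.v y x - l7q0.v y x) * hi
  | 1, h =>
    rw [yL81 h, yL71 h]
    rw [ecv7q1, ← c3g_v] at hlt ⊢
    have hd : 0 < c3g.v y - cv7m.v y := sub_pos.2 hlt
    have hi := inv_mul_cancel₀ hd.ne'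
    show sxl1.v y x * _ = _
    simp only [sxl1]
    (try push_cast)
    linear_combination (l8q1.v y x - l7q1.v y x) * hi
  | 2, h =>
    rw [yL82 h, yL72 h]
    rw [ecv7q2, ← c3g_v] at hlt ⊢
    have hd : 0 < c3g.v y - cv7p.v y := sub_pos.2 hlt
    have hi := inv_mul_cancel₀ hd.ne'
    show sxl2.v y x * _ = _
    simp only [sxl2]
    (try push_cast)
    linear_combination (l8q2.v y x - l7q2.v y x) * hi
  | 3, h =>
    rw [yL83 h, yL73 h]
    rw [ecv7q3 h.1, ← c3g_v] at hlt ⊢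
    have hd : 0 < c3g.v y - cv7r.v y := sub_pos.2 hlt
    have hi := inv_mul_cancel₀ hd.ne'
    show sxl3.v y x * _ = _
    simp only [sxl3]
    (try push_cast)
    linear_combination (l8q3.v y x - l7q3.v y x) * hi
theorem kn_ (x : ℝ) : ∀ X, |X| ≤ vv.k1.v → kcg.v (-X) x = -(k0c.v x * X) := by
  intro X h
  have h : |X| ≤ 11 / 2198 := by
    refine h.trans_eq ?_
    show (Cn.rt 11 2198).v = _
    rw [Cn.rt_v]
    norm_num
  obtain ⟨h1, h2⟩ := abs_le.1 h
  rw [kcl9 (p := -X) (by linarith) (by linarith)]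
  simp only [k0c]
  push_cast
  ring
theorem tvm {p c x : ℝ} (h1 : -3 / 100 ≤ p) (h2 : p ≤ 11 / 2198) : dt84.val (fun p x => kcg.v p x) p c x = (91140452505244343 / 929282089400000000 + (x - 251 / 400) * (4032688 / 66060203125)) + (122234428036571617 / 464641044700000000 + (x - 251 / 400) * (627558740527 / 1056963250000)) * p + (-925613 / 1000000 + (x - 251 / 400) * (12071 / 5000)) * p ^ 2 := by
  rcases eq_or_lt_of_le h1 with h | h1
  · subst h
    refine (DT.val_gt (by simp only [Cn.rt_v, Cn.ng_v]; push_cast; linarith)).trans ?_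
    refine (DT.val_le (by simp only [Cn.rt_v, Cn.ng_v]; push_cast; linarith)).trans ?_
    refine (DT.val_le (by simp only [Cn.rt_v, Cn.ng_v]; push_cast; linarith)).trans ?_
    refine (DT.val_le (by simp only [Cn.rt_v, Cn.ng_v]; push_cast; linarith)).trans ?_
    simp only [dt50, DT.val, sw50, sl50, sv50]
    ((try push_cast); ring1)
  ·
    refine (DT.val_gt (by simp only [Cn.rt_v, Cn.ng_v]; push_cast; linarith)).trans ?_
    refine (DT.val_le (by simp only [Cn.rt_v, Cn.ng_v]; push_cast; linarith)).trans ?_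
    refine (DT.val_le (by simp only [Cn.rt_v, Cn.ng_v]; push_cast; linarith)).trans ?_
    refine (DT.val_gt (by simp only [Cn.rt_v, Cn.ng_v]; push_cast; linarith)).trans ?_
    refine (DT.val_le (by simp only [Cn.rt_v, Cn.ng_v]; push_cast; linarith)).trans ?_
    simp only [dt51, DT.val, sw51, sl51, sv51]
    ((try push_cast); ring1)
theorem tn_ (x : ℝ) : ∀ X, |X| ≤ vv.k1.v → dd.tF x (-X) - dd.tF x X = m0c.v x * X := by
  intro X h
  have h : |X| ≤ 11 / 2198 := by
    refine h.trans_eq ?_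
    show (Cn.rt 11 2198).v = _
    rw [Cn.rt_v]
    norm_num
  obtain ⟨h1, h2⟩ := abs_le.1 h
  show dt84.val (fun p x => kcg.v p x) (-X) (cT (-X)) x - dt84.val (fun p x => kcg.v p x) X (cT X) x = _
  rw [tvm (p := -X) (by linarith) (by linarith), tvm (p := X) (by linarith) (by linarith)]
  simp only [m0c]
  push_cast
  ring
theorem vK_ (x : ℝ) : ∀ y, InQ 2 y → tK 1 2 y x = crv PP 1 2 y * bf1q2.v y x := by
  intro y h
  rw [yK12 h, ecv1q2]
  simp only [kf1q2, kf1q2_4, kf1q2_9, bf1q2, bf1q2_3, bf1q2_8]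
theorem vX_ (x : ℝ) : ∀ y, InQ 2 y → tL 1 2 y x = crv PP 1 2 y * bx1q2.v y x := by
  intro y h
  rw [yL12 h, ecv1q2]
  simp only [l1q2, l1q2_4, l1q2_11, bx1q2, bx1q2_3, bx1q2_10]
theorem n0_rK (y x : ℝ) : n0b.v y x = (1 - (y - 1) * k0c.v x) := by
  simp only [n0b, k0c]
  all_goals (try push_cast)
  all_goals (try ring)
theorem rK_ (x : ℝ) : ∀ y, OnC (0 : Fin 9) 2 y → c1n y < crv PP 1 2 y →
    rhk.v y x * (crv PP 1 2 y - c1n y) = crv PP 1 2 y * (bf1q2.v y x - (1 - (y - 1) * k0c.v x)) := by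
  intro y h hlt
  rw [ecv1q2, ← c1g_v] at hlt ⊢
  have hd : 0 < cv1p.v y - c1g.v y := sub_pos.2 hlt
  have hi := inv_mul_cancel₀ hd.ne'
  rw [← n0_rK]
  simp only [rhk]
  linear_combination ((bf1q2.v y x - n0b.v y x) * cv1p.v y) * hi
theorem n0_rX (y x : ℝ) : n0x.v y x = m0c.v x := by
  simp only [n0x, m0c]
  all_goals (try push_cast)
  all_goals (try ring)
theorem rX_ (x : ℝ) : ∀ y, OnC (0 : Fin 9) 2 y → c1n y < crv PP 1 2 y →
    rhx.v y x * (crv PP 1 2 y - c1n y) = crv PP 1 2 y * (bx1q2.v y x - m0c.v x) := by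
  intro y h hlt
  rw [ecv1q2, ← c1g_v] at hlt ⊢
  have hd : 0 < cv1p.v y - c1g.v y := sub_pos.2 hlt
  have hi := inv_mul_cancel₀ hd.ne'
  rw [← n0_rX]
  simp only [rhx]
  linear_combination ((bx1q2.v y x - n0x.v y x) * cv1p.v y) * hi
theorem flat_ (x : ℝ) : ∀ y, InQ 2 y → vv.ya.v ≤ y → y ≤ vv.yb.v → bf1q2.v y x = 1 - (y - 1) * k0c.v x ∧ bx1q2.v y x = m0c.v x := by
  intro y h h1 h2
  have ea : vv.ya.v = 115471 / 100000 := by
    show (Cn.rt 115471 100000).v = _
    rw [Cn.rt_v]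
    norm_num
  have eb : vv.yb.v = 231 / 200 := by
    show (Cn.rt 231 200).v = _
    rw [Cn.rt_v]
    norm_num
  rw [ea] at h1
  rw [eb] at h2
  have hy2 : 4 / 3 ≤ y ^ 2 := by nlinarith
  constructor
  · simp only [bf1q2, bf1q2_3, bf1q2_8, k0c]
    rcases eq_or_lt_of_le h1 with g | h1
    · subst g
      ((try push_cast); (repeat first | rw [if_pos (by linarith)] | rw [if_neg (by linarith)] | erw [if_pos (by linarith)] | erw [if_neg (by linarith)]); (try push_cast); (try ring1))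
    rcases eq_or_lt_of_le h2 with g | h2
    · subst g
      ((try push_cast); (repeat first | rw [if_pos (by linarith)] | rw [if_neg (by linarith)] | erw [if_pos (by linarith)] | erw [if_neg (by linarith)]); (try push_cast); (try ring1))
    · ((try push_cast); (repeat first | rw [if_pos (by linarith)] | rw [if_neg (by linarith)] | erw [if_pos (by linarith)] | erw [if_neg (by linarith)]); (try push_cast); (try ring1))
  · simp only [bx1q2, bx1q2_3, bx1q2_10, m0c]
    rcases eq_or_lt_of_le h1 with g | h1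
    · subst g
      ((try push_cast); (repeat first | rw [if_pos (by linarith)] | rw [if_neg (by linarith)] | erw [if_pos (by linarith)] | erw [if_neg (by linarith)]); (try push_cast); (try ring1))
    rcases eq_or_lt_of_le h2 with g | h2
    · subst g
      ((try push_cast); (repeat first | rw [if_pos (by linarith)] | rw [if_neg (by linarith)] | erw [if_pos (by linarith)] | erw [if_neg (by linarith)]); (try push_cast); (try ring1))
    · ((try push_cast); (repeat first | rw [if_pos (by linarith)] | rw [if_neg (by linarith)] | erw [if_pos (by linarith)] | erw [if_neg (by linarith)]); (try push_cast); (try ring1))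
theorem abk_ (x : ℝ) : ∀ y, InQ 2 y → vv.yb.v ≤ y → y ≤ vv.yk.v → bf1q2.v y x = 1 - (y - 1) * k0c.v x + sbk.v x * (y - vv.yb.v) ∧
    bx1q2.v y x = m0c.v x + sbx.v x * (y - vv.yb.v) := by
  intro y h h1 h2
  have eb : vv.yb.v = 231 / 200 := by
    show (Cn.rt 231 200).v = _
    rw [Cn.rt_v]
    norm_num
  have ek : vv.yk.v = 127 / 100 := by
    show (Cn.rt 127 100).v = _
    rw [Cn.rt_v]
    norm_num
  rw [eb] at h1 ⊢
  rw [ek] at h2
  have hy2 : 4 / 3 ≤ y ^ 2 := by nlinarith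
  constructor
  · simp only [bf1q2, bf1q2_3, bf1q2_8, k0c, sbk]
    rcases eq_or_lt_of_le h1 with g | h1
    · subst g
      ((try push_cast); (repeat first | rw [if_pos (by linarith)] | rw [if_neg (by linarith)] | erw [if_pos (by linarith)] | erw [if_neg (by linarith)]); (try push_cast); (try ring1))
    rcases eq_or_lt_of_le h2 with g | h2
    · subst g
      ((try push_cast); (repeat first | rw [if_pos (by linarith)] | rw [if_neg (by linarith)] | erw [if_pos (by linarith)] | erw [if_neg (by linarith)]); (try push_cast); (try ring1))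
    · ((try push_cast); (repeat first | rw [if_pos (by linarith)] | rw [if_neg (by linarith)] | erw [if_pos (by linarith)] | erw [if_neg (by linarith)]); (try push_cast); (try ring1))
  · simp only [bx1q2, bx1q2_3, bx1q2_10, m0c, sbx]
    rcases eq_or_lt_of_le h1 with g | h1
    · subst g
      ((try push_cast); (repeat first | rw [if_pos (by linarith)] | rw [if_neg (by linarith)] | erw [if_pos (by linarith)] | erw [if_neg (by linarith)]); (try push_cast); (try ring1))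
    rcases eq_or_lt_of_le h2 with g | h2
    · subst g
      ((try push_cast); (repeat first | rw [if_pos (by linarith)] | rw [if_neg (by linarith)] | erw [if_pos (by linarith)] | erw [if_neg (by linarith)]); (try push_cast); (try ring1))
    · ((try push_cast); (repeat first | rw [if_pos (by linarith)] | rw [if_neg (by linarith)] | erw [if_pos (by linarith)] | erw [if_neg (by linarith)]); (try push_cast); (try ring1))
theorem ka_dt85 (x : ℝ) : dt85.kv (-11 / 2198) x = (0) := by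
  simp only [dt85, DT.kv, sl85, sv85]
  ((try push_cast); ring1)
theorem kb_dt85 (x : ℝ) : dt85.kv (11 / 2198) x = (0) := by
  simp only [dt85, DT.kv, sl85, sv85]
  ((try push_cast); ring1)
theorem ko_dt85 (x : ℝ) : dt85.KOk x := trivial
theorem phl0 {p x : ℝ} (h2 : p ≤ 11 / 2198) : dt85.kv p x = (0) + (0) * p := by

  simp only [dt85, DT.kv, sl85, sv85]
  ((try push_cast); ring1)
theorem tvc13 {p x : ℝ} (h1 : -3 / 100 ≤ p) (h2 : p ≤ 11 / 2198) : dt84.val (fun p x => kcg.v p x) p (cT p) x = (91140452505244343 / 929282089400000000 + (x - 251 / 400) * (4032688 / 66060203125)) + (122234428036571617 / 464641044700000000 + (x - 251 / 400) * (627558740527 / 1056963250000)) * p + (-925613 / 1000000 + (x - 251 / 400) * (12071 / 5000)) * p ^ 2 := by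
  rcases eq_or_lt_of_le h1 with h | h1
  · subst h
    refine (DT.val_gt (by simp only [Cn.rt_v, Cn.ng_v]; push_cast; linarith)).trans ?_
    refine (DT.val_le (by simp only [Cn.rt_v, Cn.ng_v]; push_cast; linarith)).trans ?_
    refine (DT.val_le (by simp only [Cn.rt_v, Cn.ng_v]; push_cast; linarith)).trans ?_
    refine (DT.val_le (by simp only [Cn.rt_v, Cn.ng_v]; push_cast; linarith)).trans ?_
    simp only [dt50, DT.val, sw50, sl50, sv50]
    ((try push_cast); ring1)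
  ·
    refine (DT.val_gt (by simp only [Cn.rt_v, Cn.ng_v]; push_cast; linarith)).trans ?_
    refine (DT.val_le (by simp only [Cn.rt_v, Cn.ng_v]; push_cast; linarith)).trans ?_
    refine (DT.val_le (by simp only [Cn.rt_v, Cn.ng_v]; push_cast; linarith)).trans ?_
    refine (DT.val_gt (by simp only [Cn.rt_v, Cn.ng_v]; push_cast; linarith)).trans ?_
    refine (DT.val_le (by simp only [Cn.rt_v, Cn.ng_v]; push_cast; linarith)).trans ?_
    simp only [dt51, DT.val, sw51, sl51, sv51]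
    ((try push_cast); ring1)
theorem ph_ (x : ℝ) : ∀ u, |u| ≤ vv.k2.v → dd.tF x (-u) - dd.tF x u = m0c.v x * u + dt85.kv u x := by
  intro u h
  have h : |u| ≤ 11 / 2198 := by
    refine h.trans_eq ?_
    show (Cn.rt 11 2198).v = _
    rw [Cn.rt_v]
    norm_num
  obtain ⟨h1, h2⟩ := abs_le.1 h
  show dt84.val (fun p x => kcg.v p x) (-u) (cT (-u)) x - dt84.val (fun p x => kcg.v p x) u (cT u) x = _
  ·
    rw [tvc13 (p := -u) (by linarith) (by linarith), tvc13 (p := u) (by linarith) (by linarith), phl0 (by linarith)]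
    simp only [m0c]
    push_cast
    ring
theorem kqf_ {y : ℝ} (x : ℝ) (h : OnC (0 : Fin 9) 2 y) : kqf.v y x * c1g.v y = (y - 1) * kcg.v (c1g.v y) x := by
  have h0 : 0 ≤ c1g.v y := by rw [c1g_v]; exact c1n_nn y
  simp only [kqf]
  (try push_cast)
  split_ifs with hh
  · rw [kcl9 (p := c1g.v y) (by linarith) (by linarith)]
    ring
  · have hc : c1g.v y ≠ 0 := by
      intro e
      rw [e] at hh
      exact hh (by norm_num)
    have hi := inv_mul_cancel₀ hc
    linear_combination ((y - 1) * kcg.v (c1g.v y) x) * hi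
theorem sM_ (x : ℝ) : ∀ y, OnC (0 : Fin 9) 2 y → c1n y < crv PP 1 2 y →
    (1 + skm.v y x) * (crv PP 1 2 y - c1n y) = tK 1 2 y x - tK 0 2 y x := by
  intro y h hlt
  rw [yK12 h.1, yK02 h]
  rw [ecv1q2, ← c1g_v] at hlt ⊢
  have hd : 0 < cv1p.v y - c1g.v y := sub_pos.2 hlt
  have hi := inv_mul_cancel₀ hd.ne'
  have hb : |c1g.v y| ≤ 1 / 2 := by rw [c1g_v]; exact bnd_O h
  have eo := odd (x := x) hb
  have hk := kqf_ x h
  have hB : kf1q2.v y x = cv1p.v y * bf1q2.v y x := by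
    simp only [kf1q2, kf1q2_4, kf1q2_9, bf1q2, bf1q2_3, bf1q2_8]
  simp only [skm, hB, kf0q2, eo]
  (try push_cast)
  linear_combination (cv1p.v y * ((bf1q2.v y x - 1) + kqf.v y x)) * hi + hk
theorem ok (x : ℝ) : tt.Ok PP tK tL x where
  i0 := rfl
  il := rfl
  rl := by
    show 1 < PP.ρ 7
    have e : PP.ρ 7 = 7 / 4 := rfl
    rw [e]
    norm_num
  ok := dok x
  kh := rfl
  odd := fun p h => odd h
  K0 := K0_ x
  L0 := L0_ x
  Kn := Kn_ x
  Ln := Ln_ x
  f0 := f0_
  fn := fn_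
  sK0 := sK0_ x
  sX0 := sX0_ x
  sKn := sKn_ x
  sXn := sXn_ x
  k1 := by
    show 0 ≤ (Cn.rt 11 2198).v ∧ (Cn.rt 11 2198).v ≤ 1 / 2
    rw [Cn.rt_v]
    constructor <;> norm_num
  kn := kn_ x
  tn := tn_ x
  vK := vK_ x
  vX := vX_ x
  rK := rK_ x
  rX := rX_ x
  yb := by
    show 0 ≤ (Cn.rt 231 200).v ∧ 1 ≤ 3 / 4 * (Cn.rt 231 200).v ^ 2
    rw [Cn.rt_v]
    constructor <;> norm_num
  flat := flat_ x
  abk := abk_ x
  phk := ko_dt85 x
  ph := ph_ x
  sM := sM_ x
  yz := by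
    show (Cn.rt 115471 100000).v ≤ (Cn.rt 115471 100000).v ∧ 0 ≤ (Cn.rt 115471 100000).v ∧ 1 ≤ 3 / 4 * (Cn.rt 115471 100000).v ^ 2 + (Cn.rt 11 2198).v ^ 2
    simp only [Cn.rt_v]
    refine ⟨?_, ?_, ?_⟩ <;> norm_num
theorem yK22_ {y x : ℝ} (h : InQ 2 y) : tK 2 2 y x = kf2q2.v y x := (atB22 (onc h (by decide))).K.symm
theorem yL22_ {y x : ℝ} (h : InQ 2 y) : tL 2 2 y x = l2q2.v y x := (atB22 (onc h (by decide))).L.symm
theorem fr_ : ∀ y, InQ 2 y → crv PP 1 2 y = c1n y + ww.FR.v y := by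
  intro y h
  rw [ecv1q2, ← c1g_v]
  show _ = c1g.v y + frw.v y
  simp only [cv1p, frw]
  push_cast
  ring
theorem f2_ : ∀ y, InQ 2 y → ww.f2.v y = crv PP 2 2 y := fun _ _ => ecv2q2.symm
theorem b1_ (x : ℝ) : ∀ y, InQ 2 y → y ≤ vv.yb.v → c1n y ≤ ww.c2.v → bf1q2.v y x = 1 - (y - 1) * k0c.v x + q1k.v x * c1n y ∧
    bx1q2.v y x = m0c.v x + q1x.v x * c1n y := by
  intro y h h1 h2
  have eb : vv.yb.v = 231 / 200 := by
    show (Cn.rt 231 200).v = _
    rw [Cn.rt_v]
    norm_num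
  have ec2 : ww.c2.v = 1 / 20 := by
    show (Cn.rt 1 20).v = _
    rw [Cn.rt_v]
    norm_num
  rw [eb] at h1
  rw [ec2] at h2
  have hcv : c1g.v y ≤ 1 / 20 := by
    rw [c1g_v]
    linarith
  rcases lt_or_ge (3 / 4 * y ^ 2) 1 with ht | ht
  · rw [← c1g_v]
    constructor
    · simp only [bf1q2, bf1q2_3, bf1q2_8, k0c, q1k]
      (try push_cast)
      (repeat first | rw [if_pos (by linarith)] | rw [if_neg (by linarith)])
      (try push_cast)
      ring1
    · simp only [bx1q2, bx1q2_3, bx1q2_10, m0c, q1x]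
      (try push_cast)
      (repeat first | rw [if_pos (by linarith)] | rw [if_neg (by linarith)])
      (try push_cast)
      ring1
  · have hz : c1n y = 0 := by
      unfold c1n
      exact Real.sqrt_eq_zero_of_nonpos (by linarith)
    rw [hz]
    constructor
    · simp only [bf1q2, bf1q2_3, bf1q2_8, k0c, q1k]
      (try push_cast)
      (repeat first | rw [if_pos (by linarith)] | rw [if_neg (by linarith)])
      (try push_cast)
      ring1
    · simp only [bx1q2, bx1q2_3, bx1q2_10, m0c, q1x]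
      (try push_cast)
      (repeat first | rw [if_pos (by linarith)] | rw [if_neg (by linarith)])
      (try push_cast)
      ring1
theorem a2_ (x : ℝ) : ∀ y, InQ 2 y → 3 / 4 * y ^ 2 < 1 → c1n y ≤ ww.c2.v →
    tK 2 2 y x = crv PP 2 2 y * (a2k0.v x + a2k1.v x * c1n y) ∧
    tL 2 2 y x = crv PP 2 2 y * (a2x0.v x + a2x1.v x * c1n y) := by
  intro y h ht h2
  have ec2 : ww.c2.v = 1 / 20 := by
    show (Cn.rt 1 20).v = _
    rw [Cn.rt_v]
    norm_num
  rw [ec2] at h2
  have hcv : c1g.v y ≤ 1 / 20 := by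
    rw [c1g_v]
    linarith
  rw [yK22_ h, yL22_ h, ecv2q2, ← c1g_v]
  constructor
  · simp only [kf2q2, kf2q2_4, a2k0, a2k1]
    (try push_cast)
    (repeat first | rw [if_pos (by linarith)] | rw [if_neg (by linarith)])
    (try push_cast)
    ring1
  · simp only [l2q2, l2q2_4, a2x0, a2x1]
    (try push_cast)
    (repeat first | rw [if_pos (by linarith)] | rw [if_neg (by linarith)])
    (try push_cast)
    ring1
theorem b2_ (x : ℝ) : ∀ y, InQ 2 y → 1 ≤ 3 / 4 * y ^ 2 → y ≤ vv.yb.v →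
    tK 2 2 y x = crv PP 2 2 y * (b2k0.v x + b2k1.v x * (y - ww.y2.v)) ∧
    tL 2 2 y x = crv PP 2 2 y * (b2x0.v x + b2x1.v x * (y - ww.y2.v)) := by
  intro y h ht h2
  have eb : vv.yb.v = 231 / 200 := by
    show (Cn.rt 231 200).v = _
    rw [Cn.rt_v]
    norm_num
  have ey2 : ww.y2.v = 577 / 500 := by
    show (Cn.rt 577 500).v = _
    rw [Cn.rt_v]
    norm_num
  rw [eb] at h2
  rw [ey2, yK22_ h, yL22_ h, ecv2q2]
  constructor
  · simp only [kf2q2, kf2q2_4, b2k0, b2k1]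
    (try push_cast)
    (repeat first | rw [if_pos (by linarith)] | rw [if_neg (by linarith)])
    (try push_cast)
    ring1
  · simp only [l2q2, l2q2_4, b2x0, b2x1]
    (try push_cast)
    (repeat first | rw [if_pos (by linarith)] | rw [if_neg (by linarith)])
    (try push_cast)
    ring1
theorem ecv1pA {y : ℝ} (h1 : 115469 / 100000 < y) (h2 : 3 / 4 * y ^ 2 < 1) : cv1p.v y = cv1pA.v (c1g.v y) y := by
  simp only [cv1p, cv1pA]
  all_goals (first | rfl | ring)
theorem ecv2pA {y : ℝ} (h1 : 115469 / 100000 < y) (h2 : 3 / 4 * y ^ 2 < 1) : cv2p.v y = cv2pA.v (c1g.v y) y := by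
  simp only [cv2p, cv2pA]
  all_goals (first | rfl | ring)
theorem ecv3pA {y : ℝ} (h1 : 115469 / 100000 < y) (h2 : 3 / 4 * y ^ 2 < 1) : cv3p.v y = cv3pA.v (c1g.v y) y := by
  simp only [cv3p, cv3pA]
  all_goals (first | rfl | ring)
theorem ecv4pA {y : ℝ} (h1 : 115469 / 100000 < y) (h2 : 3 / 4 * y ^ 2 < 1) : cv4p.v y = cv4pA.v (c1g.v y) y := by
  simp only [cv4p, cv4pA]
  all_goals (first | rfl | ring)
theorem elm4pA {a1 y : ℝ} (h1 : 115469 / 100000 < y) (h2 : 3 / 4 * y ^ 2 < 1) : lm4p.v a1 y = lm4pA.v a1 (c1g.v y) y := by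
  simp only [lm4p, lm4pA, ecv4pA h1 h2]
  all_goals (first | rfl | ring)
theorem ebf4q2A {y a2 : ℝ} (h1 : 115469 / 100000 < y) (h2 : 3 / 4 * y ^ 2 < 1) : bf4q2.v y a2 = bf4q2A.v (c1g.v y) y a2 := by
  have ht : ¬ (((1 : ℕ) : ℝ) - ((3 : ℕ) : ℝ) / ((4 : ℕ) : ℝ) * y ^ 2 ≤ 0) := by
    push_cast
    linarith
  simp only [bf4q2, bf4q2_3, bf4q2A, bf4q2A_3, if_neg ht]
  all_goals (first | rfl | ring)
theorem elm3pA {a1 y : ℝ} (h1 : 115469 / 100000 < y) (h2 : 3 / 4 * y ^ 2 < 1) : lm3p.v a1 y = lm3pA.v a1 (c1g.v y) y := by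
  simp only [lm3p, lm3pA, ecv3pA h1 h2, ecv4pA h1 h2]
  all_goals (first | rfl | ring)
theorem ebf3q2A {y a2 : ℝ} (h1 : 115469 / 100000 < y) (h2 : 3 / 4 * y ^ 2 < 1) : bf3q2.v y a2 = bf3q2A.v (c1g.v y) y a2 := by
  have ht : ¬ (((1 : ℕ) : ℝ) - ((3 : ℕ) : ℝ) / ((4 : ℕ) : ℝ) * y ^ 2 ≤ 0) := by
    push_cast
    linarith
  simp only [bf3q2, bf3q2_3, bf3q2A, bf3q2A_3, if_neg ht]
  all_goals (first | rfl | ring)
theorem elm2pA {a1 y : ℝ} (h1 : 115469 / 100000 < y) (h2 : 3 / 4 * y ^ 2 < 1) : lm2p.v a1 y = lm2pA.v a1 (c1g.v y) y := by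
  simp only [lm2p, lm2pA, ecv2pA h1 h2, ecv3pA h1 h2]
  all_goals (first | rfl | ring)
theorem ebf2q2A {y a2 : ℝ} (h1 : 115469 / 100000 < y) (h2 : 3 / 4 * y ^ 2 < 1) : bf2q2.v y a2 = bf2q2A.v (c1g.v y) y a2 := by
  have ht : ¬ (((1 : ℕ) : ℝ) - ((3 : ℕ) : ℝ) / ((4 : ℕ) : ℝ) * y ^ 2 ≤ 0) := by
    push_cast
    linarith
  simp only [bf2q2, bf2q2_3, bf2q2A, bf2q2A_3, if_neg ht]
  all_goals (first | rfl | ring)
theorem elm1pA {a1 y : ℝ} (h1 : 115469 / 100000 < y) (h2 : 3 / 4 * y ^ 2 < 1) : lm1p.v a1 y = lm1pA.v a1 (c1g.v y) y := by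
  simp only [lm1p, lm1pA, ecv1pA h1 h2, ecv2pA h1 h2]
  all_goals (first | rfl | ring)
theorem ebf1q2A {y a2 : ℝ} (h1 : 115469 / 100000 < y) (h2 : 3 / 4 * y ^ 2 < 1) : bf1q2.v y a2 = bf1q2A.v (c1g.v y) y a2 := by
  have ht : ¬ (((1 : ℕ) : ℝ) - ((3 : ℕ) : ℝ) / ((4 : ℕ) : ℝ) * y ^ 2 ≤ 0) := by
    push_cast
    linarith
  simp only [bf1q2, bf1q2_3, bf1q2_8, bf1q2A, bf1q2A_3, if_neg ht]
  all_goals (first | rfl | ring)
theorem elm0pA {a1 y : ℝ} (h1 : 115469 / 100000 < y) (h2 : 3 / 4 * y ^ 2 < 1) : lm0p.v a1 y = lm0pA.v a1 (c1g.v y) y := by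
  simp only [lm0p, lm0pA, ecv1pA h1 h2]
  all_goals (first | rfl | ring)
theorem erkbq2A {a1 y a3 : ℝ} (h1 : 115469 / 100000 < y) (h2 : 3 / 4 * y ^ 2 < 1) : rkbq2.v a1 y a3 = rkbq2A.v a1 (c1g.v y) y a3 := by
  have hr0 : ¬ (y - ((577 : ℕ) : ℝ) / ((500 : ℕ) : ℝ) ≤ 0) := by
    push_cast
    linarith
  have hr1 : y - ((2887 : ℕ) : ℝ) / ((2500 : ℕ) : ℝ) ≤ 0 := by
    push_cast
    nlinarith
  simp only [rkbq2, rkbq2_84, rkbq2_86, rkbq2A, if_neg hr0, if_pos hr1, ecv1pA h1 h2, ecv2pA h1 h2, ecv3pA h1 h2, ecv4pA h1 h2, elm4pA h1 h2, ebf4q2A h1 h2, elm3pA h1 h2, ebf3q2A h1 h2, elm2pA h1 h2, ebf2q2A h1 h2, elm1pA h1 h2, ebf1q2A h1 h2, elm0pA h1 h2]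
  all_goals (first | rfl | ring)
theorem ersbq2A {a1 y a3 : ℝ} (h1 : 115469 / 100000 < y) (h2 : 3 / 4 * y ^ 2 < 1) : rsbq2.v a1 y a3 = rsbq2A.v a1 (c1g.v y) y a3 := by
  simp only [rsbq2, rsbq2A, erkbq2A h1 h2]
  all_goals (first | rfl | ring)
theorem ebx4q2A {y a2 : ℝ} (h1 : 115469 / 100000 < y) (h2 : 3 / 4 * y ^ 2 < 1) : bx4q2.v y a2 = bx4q2A.v (c1g.v y) y a2 := by
  have ht : ¬ (((1 : ℕ) : ℝ) - ((3 : ℕ) : ℝ) / ((4 : ℕ) : ℝ) * y ^ 2 ≤ 0) := by
    push_cast
    linarith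
  simp only [bx4q2, bx4q2_3, bx4q2A, bx4q2A_3, if_neg ht]
  all_goals (first | rfl | ring)
theorem ebx3q2A {y a2 : ℝ} (h1 : 115469 / 100000 < y) (h2 : 3 / 4 * y ^ 2 < 1) : bx3q2.v y a2 = bx3q2A.v (c1g.v y) y a2 := by
  have ht : ¬ (((1 : ℕ) : ℝ) - ((3 : ℕ) : ℝ) / ((4 : ℕ) : ℝ) * y ^ 2 ≤ 0) := by
    push_cast
    linarith
  simp only [bx3q2, bx3q2_3, bx3q2A, bx3q2A_3, if_neg ht]
  all_goals (first | rfl | ring)
theorem ebx2q2A {y a2 : ℝ} (h1 : 115469 / 100000 < y) (h2 : 3 / 4 * y ^ 2 < 1) : bx2q2.v y a2 = bx2q2A.v (c1g.v y) y a2 := by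
  have ht : ¬ (((1 : ℕ) : ℝ) - ((3 : ℕ) : ℝ) / ((4 : ℕ) : ℝ) * y ^ 2 ≤ 0) := by
    push_cast
    linarith
  simp only [bx2q2, bx2q2_3, bx2q2A, bx2q2A_3, if_neg ht]
  all_goals (first | rfl | ring)
theorem ebx1q2A {y a2 : ℝ} (h1 : 115469 / 100000 < y) (h2 : 3 / 4 * y ^ 2 < 1) : bx1q2.v y a2 = bx1q2A.v (c1g.v y) y a2 := by
  have ht : ¬ (((1 : ℕ) : ℝ) - ((3 : ℕ) : ℝ) / ((4 : ℕ) : ℝ) * y ^ 2 ≤ 0) := by
    push_cast
    linarith
  simp only [bx1q2, bx1q2_3, bx1q2_10, bx1q2A, bx1q2A_3, if_neg ht]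
  all_goals (first | rfl | ring)
theorem erxq2A {a1 y a3 : ℝ} (h1 : 115469 / 100000 < y) (h2 : 3 / 4 * y ^ 2 < 1) : rxq2.v a1 y a3 = rxq2A.v a1 (c1g.v y) y a3 := by
  have hr0 : ¬ (y - ((115469 : ℕ) : ℝ) / ((100000 : ℕ) : ℝ) ≤ 0) := by
    push_cast
    linarith
  have hr1 : y - ((2887 : ℕ) : ℝ) / ((2500 : ℕ) : ℝ) ≤ 0 := by
    push_cast
    nlinarith
  simp only [rxq2, rxq2_84, rxq2_86, rxq2A, if_neg hr0, if_pos hr1, ecv1pA h1 h2, ecv2pA h1 h2, ecv3pA h1 h2, ecv4pA h1 h2, elm4pA h1 h2, ebx4q2A h1 h2, elm3pA h1 h2, ebx3q2A h1 h2, elm2pA h1 h2, ebx2q2A h1 h2, elm1pA h1 h2, ebx1q2A h1 h2, elm0pA h1 h2]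
  all_goals (first | rfl | ring)
theorem erlq2A {a1 y a3 : ℝ} (h1 : 115469 / 100000 < y) (h2 : 3 / 4 * y ^ 2 < 1) : rlq2.v a1 y a3 = rlq2A.v a1 (c1g.v y) y a3 := by
  simp only [rlq2, rlq2A, erxq2A h1 h2]
  all_goals (first | rfl | ring)
theorem c0_ {y : ℝ} (h2 : 1 ≤ 3 / 4 * y ^ 2) : c1g.v y = ((0 : ℕ) : ℝ) := by
  rw [c1g_v]
  unfold c1n
  push_cast
  exact Real.sqrt_eq_zero_of_nonpos (by linarith)
theorem ecv1pB {y : ℝ} (h1 : 115469 / 100000 < y) (h2 : 1 ≤ 3 / 4 * y ^ 2) : cv1p.v y = cv1pB.v y := by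
  simp only [cv1p, cv1pB, c0_ h2]
  all_goals (first | rfl | ring)
theorem ecv2pB {y : ℝ} (h1 : 115469 / 100000 < y) (h2 : 1 ≤ 3 / 4 * y ^ 2) : cv2p.v y = cv2pB.v y := by
  simp only [cv2p, cv2pB, c0_ h2]
  all_goals (first | rfl | ring)
theorem ecv3pB {y : ℝ} (h1 : 115469 / 100000 < y) (h2 : 1 ≤ 3 / 4 * y ^ 2) : cv3p.v y = cv3pB.v y := by
  simp only [cv3p, cv3pB, c0_ h2]
  all_goals (first | rfl | ring)
theorem ecv4pB {y : ℝ} (h1 : 115469 / 100000 < y) (h2 : 1 ≤ 3 / 4 * y ^ 2) : cv4p.v y = cv4pB.v y := by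
  simp only [cv4p, cv4pB, c0_ h2]
  all_goals (first | rfl | ring)
theorem elm4pB {a1 y : ℝ} (h1 : 115469 / 100000 < y) (h2 : 1 ≤ 3 / 4 * y ^ 2) : lm4p.v a1 y = lm4pB.v a1 y := by
  simp only [lm4p, lm4pB, ecv4pB h1 h2]
  all_goals (first | rfl | ring)
theorem ebf4q2B {y a2 : ℝ} (h1 : 115469 / 100000 < y) (h2 : 1 ≤ 3 / 4 * y ^ 2) : bf4q2.v y a2 = bf4q2B.v y a2 := by
  have ht : ((1 : ℕ) : ℝ) - ((3 : ℕ) : ℝ) / ((4 : ℕ) : ℝ) * y ^ 2 ≤ 0 := by
    push_cast
    linarith
  simp only [bf4q2, bf4q2_3, bf4q2B, bf4q2B_3, if_pos ht, c0_ h2]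
  all_goals (first | rfl | ring)
theorem elm3pB {a1 y : ℝ} (h1 : 115469 / 100000 < y) (h2 : 1 ≤ 3 / 4 * y ^ 2) : lm3p.v a1 y = lm3pB.v a1 y := by
  simp only [lm3p, lm3pB, ecv3pB h1 h2, ecv4pB h1 h2]
  all_goals (first | rfl | ring)
theorem ebf3q2B {y a2 : ℝ} (h1 : 115469 / 100000 < y) (h2 : 1 ≤ 3 / 4 * y ^ 2) : bf3q2.v y a2 = bf3q2B.v y a2 := by
  have ht : ((1 : ℕ) : ℝ) - ((3 : ℕ) : ℝ) / ((4 : ℕ) : ℝ) * y ^ 2 ≤ 0 := by
    push_cast
    linarith
  simp only [bf3q2, bf3q2_3, bf3q2B, bf3q2B_3, if_pos ht, c0_ h2]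
  all_goals (first | rfl | ring)
theorem elm2pB {a1 y : ℝ} (h1 : 115469 / 100000 < y) (h2 : 1 ≤ 3 / 4 * y ^ 2) : lm2p.v a1 y = lm2pB.v a1 y := by
  simp only [lm2p, lm2pB, ecv2pB h1 h2, ecv3pB h1 h2]
  all_goals (first | rfl | ring)
theorem ebf2q2B {y a2 : ℝ} (h1 : 115469 / 100000 < y) (h2 : 1 ≤ 3 / 4 * y ^ 2) : bf2q2.v y a2 = bf2q2B.v y a2 := by
  have ht : ((1 : ℕ) : ℝ) - ((3 : ℕ) : ℝ) / ((4 : ℕ) : ℝ) * y ^ 2 ≤ 0 := by
    push_cast
    linarith
  simp only [bf2q2, bf2q2_3, bf2q2B, bf2q2B_3, if_pos ht, c0_ h2]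
  all_goals (first | rfl | ring)
theorem elm1pB {a1 y : ℝ} (h1 : 115469 / 100000 < y) (h2 : 1 ≤ 3 / 4 * y ^ 2) : lm1p.v a1 y = lm1pB.v a1 y := by
  simp only [lm1p, lm1pB, ecv1pB h1 h2, ecv2pB h1 h2]
  all_goals (first | rfl | ring)
theorem ebf1q2B {y a2 : ℝ} (h1 : 115469 / 100000 < y) (h2 : 1 ≤ 3 / 4 * y ^ 2) : bf1q2.v y a2 = bf1q2B.v y a2 := by
  have ht : ((1 : ℕ) : ℝ) - ((3 : ℕ) : ℝ) / ((4 : ℕ) : ℝ) * y ^ 2 ≤ 0 := by
    push_cast
    linarith
  simp only [bf1q2, bf1q2_3, bf1q2_8, bf1q2B, bf1q2B_3, if_pos ht, c0_ h2]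
  all_goals (first | rfl | ring)
theorem elm0pB {a1 y : ℝ} (h1 : 115469 / 100000 < y) (h2 : 1 ≤ 3 / 4 * y ^ 2) : lm0p.v a1 y = lm0pB.v a1 y := by
  simp only [lm0p, lm0pB, ecv1pB h1 h2, c0_ h2]
  all_goals (first | rfl | ring)
theorem erkbq2B {a1 y a3 : ℝ} (h1 : 115469 / 100000 < y) (h2 : 1 ≤ 3 / 4 * y ^ 2) : rkbq2.v a1 y a3 = rkbq2B.v a1 y a3 := by
  have hr0 : ¬ (y - ((577 : ℕ) : ℝ) / ((500 : ℕ) : ℝ) ≤ 0) := by
    push_cast
    linarith
  simp only [rkbq2, rkbq2_84, rkbq2_86, rkbq2B, rkbq2B_80, if_neg hr0, ecv1pB h1 h2, ecv2pB h1 h2, ecv3pB h1 h2, ecv4pB h1 h2, elm4pB h1 h2, ebf4q2B h1 h2, elm3pB h1 h2, ebf3q2B h1 h2, elm2pB h1 h2, ebf2q2B h1 h2, elm1pB h1 h2, ebf1q2B h1 h2, elm0pB h1 h2, c0_ h2]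
  all_goals (first | rfl | ring)
theorem ersbq2B {a1 y a3 : ℝ} (h1 : 115469 / 100000 < y) (h2 : 1 ≤ 3 / 4 * y ^ 2) : rsbq2.v a1 y a3 = rsbq2B.v a1 y a3 := by
  simp only [rsbq2, rsbq2B, erkbq2B h1 h2]
  all_goals (first | rfl | ring)
theorem ebx4q2B {y a2 : ℝ} (h1 : 115469 / 100000 < y) (h2 : 1 ≤ 3 / 4 * y ^ 2) : bx4q2.v y a2 = bx4q2B.v y a2 := by
  have ht : ((1 : ℕ) : ℝ) - ((3 : ℕ) : ℝ) / ((4 : ℕ) : ℝ) * y ^ 2 ≤ 0 := by
    push_cast
    linarith
  simp only [bx4q2, bx4q2_3, bx4q2B, bx4q2B_3, if_pos ht, c0_ h2]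
  all_goals (first | rfl | ring)
theorem ebx3q2B {y a2 : ℝ} (h1 : 115469 / 100000 < y) (h2 : 1 ≤ 3 / 4 * y ^ 2) : bx3q2.v y a2 = bx3q2B.v y a2 := by
  have ht : ((1 : ℕ) : ℝ) - ((3 : ℕ) : ℝ) / ((4 : ℕ) : ℝ) * y ^ 2 ≤ 0 := by
    push_cast
    linarith
  simp only [bx3q2, bx3q2_3, bx3q2B, bx3q2B_3, if_pos ht, c0_ h2]
  all_goals (first | rfl | ring)
theorem ebx2q2B {y a2 : ℝ} (h1 : 115469 / 100000 < y) (h2 : 1 ≤ 3 / 4 * y ^ 2) : bx2q2.v y a2 = bx2q2B.v y a2 := by
  have ht : ((1 : ℕ) : ℝ) - ((3 : ℕ) : ℝ) / ((4 : ℕ) : ℝ) * y ^ 2 ≤ 0 := by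
    push_cast
    linarith
  simp only [bx2q2, bx2q2_3, bx2q2B, bx2q2B_3, if_pos ht, c0_ h2]
  all_goals (first | rfl | ring)
theorem ebx1q2B {y a2 : ℝ} (h1 : 115469 / 100000 < y) (h2 : 1 ≤ 3 / 4 * y ^ 2) : bx1q2.v y a2 = bx1q2B.v y a2 := by
  have ht : ((1 : ℕ) : ℝ) - ((3 : ℕ) : ℝ) / ((4 : ℕ) : ℝ) * y ^ 2 ≤ 0 := by
    push_cast
    linarith
  simp only [bx1q2, bx1q2_3, bx1q2_10, bx1q2B, bx1q2B_3, if_pos ht, c0_ h2]
  all_goals (first | rfl | ring)
theorem erxq2B {a1 y a3 : ℝ} (h1 : 115469 / 100000 < y) (h2 : 1 ≤ 3 / 4 * y ^ 2) : rxq2.v a1 y a3 = rxq2B.v a1 y a3 := by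
  have hr0 : ¬ (y - ((115469 : ℕ) : ℝ) / ((100000 : ℕ) : ℝ) ≤ 0) := by
    push_cast
    linarith
  simp only [rxq2, rxq2_84, rxq2_86, rxq2B, rxq2B_80, if_neg hr0, ecv1pB h1 h2, ecv2pB h1 h2, ecv3pB h1 h2, ecv4pB h1 h2, elm4pB h1 h2, ebx4q2B h1 h2, elm3pB h1 h2, ebx3q2B h1 h2, elm2pB h1 h2, ebx2q2B h1 h2, elm1pB h1 h2, ebx1q2B h1 h2, elm0pB h1 h2, c0_ h2]
  all_goals (first | rfl | ring)
theorem erlq2B {a1 y a3 : ℝ} (h1 : 115469 / 100000 < y) (h2 : 1 ≤ 3 / 4 * y ^ 2) : rlq2.v a1 y a3 = rlq2B.v a1 y a3 := by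
  simp only [rlq2, rlq2B, erxq2B h1 h2]
  all_goals (first | rfl | ring)
theorem pA_ (x : ℝ) : ∀ X y, ww.ym.v < y → 3 / 4 * y ^ 2 < 1 →
    (pcB 2).K.v X y x = ww.AK.v X (c1n y) y x ∧ (pcB 2).L.v X y x = ww.AL.v X (c1n y) y x := by
  intro X y h1 h2
  have em : ww.ym.v = 115469 / 100000 := by
    show (Cn.rt 115469 100000).v = _
    rw [Cn.rt_v]
    norm_num
  rw [em] at h1
  rw [← c1g_v]
  exact ⟨ersbq2A h1 h2, erlq2A h1 h2⟩
theorem pB_ (x : ℝ) : ∀ X y, ww.ym.v < y → 1 ≤ 3 / 4 * y ^ 2 →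
    (pcB 2).K.v X y x = ww.B.K.v X y x ∧ (pcB 2).L.v X y x = ww.B.L.v X y x := by
  intro X y h1 h2
  have em : ww.ym.v = 115469 / 100000 := by
    show (Cn.rt 115469 100000).v = _
    rw [Cn.rt_v]
    norm_num
  rw [em] at h1
  exact ⟨ersbq2B h1 h2, erlq2B h1 h2⟩
theorem ok6 (x : ℝ) : tt.Ok6 ww 1 PP tK tL pcB x where
  hi := rfl
  c2n := by
    show 0 ≤ (Cn.rt 1 20).v
    rw [Cn.rt_v]
    norm_num
  c2h := by
    show (Cn.rt 1 20).v ≤ 1 / 2
    rw [Cn.rt_v]
    norm_num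
  fr := fr_
  b1 := b1_ x
  f2 := f2_
  a2 := a2_ x
  b2 := b2_ x
  pA := pA_ x
  pB := pB_ x
theorem okx6 {x : ℝ} (hx : ((649613803 : ℕ) : ℝ) / S ≤ x) (hx' : x ≤ (((649613803 : ℕ) : ℝ) + (48318383 : ℕ)) / S) : tt.Ok6 ww 1 PP tK tL pcB x := ok6 x
theorem okx {x : ℝ} (hx : ((649613803 : ℕ) : ℝ) / S ≤ x) (hx' : x ≤ (((649613803 : ℕ) : ℝ) + (48318383 : ℕ)) / S) : tt.Ok PP tK tL x := ok x

end Pool.Agent.Strip051.G.I6050_6500.Tab.St
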