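import Pool.Agent.Strip051.G.I6050_6500.StH
import Pool.Agent.Strip051.G.I6050_6500.StF

/-! # Unit strips 14 (generated) -/

set_option linter.all false
set_option maxRecDepth 100000

namespace Pool.Agent.Strip051.G.I6050_6500.Tab.St.C

open Pool.Agent.Strip051.PB Pool.Agent.Strip051.PB.T Pool.Agent.StripNear Pool.Agent.Strip051.LC
open Pool.Agent.Strip051.G.I6050_6500.Tab Pool.Agent.Strip051.G.I6050_6500.Tab.St

noncomputable def cut_A00pp_001_s1 : Cut := Cut.of [[⟨4, 0, 0, 1449551462⟩]]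

noncomputable def f_A00pp_001_s1 : ℕ → ℕ → ℕ → ℕ → Bool := onCell 0 536870912 0 536870912 649613803 48318383
    (rowF 0 true true true .up 0 0 1 (qsf 0 536870912 0 536870912 1) ndB0q0 ndB0q0 pcB1 cut_A00pp_001_s1 Ext.none)

def k0_A00pp_001_s1 : ∃ t, chk3 f_A00pp_001_s1 t 1 1 1 = true :=
  ⟨(l 4), by decide +kernel⟩

theorem c_A00pp_001_s1 : CertF 0 536870912 0 536870912 649613803 48318383 true true true .up 0 0 1
    ndB0q0 ndB0q0 pcB1 cut_A00pp_001_s1 Ext.none :=
  certF0 (fam := true) (s1 := true) (s2 := true) (a := 0) (b := 0) (c := 1) (cn := .up) (n1 := ndB0q0) (n2 := ndB0q0) (pc := pcB1) (cut := cut_A00pp_001_s1) (xt := Ext.none) (P1 := 0) (W1 := 536870912) (P2 := 0) (W2 := 536870912) (P3 := 649613803) (W3 := 48318383)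
    rfl k0_A00pp_001_s1

theorem s_A00pp_001_s1 {κ x : ℝ} (hκ : κ * h0 = ken x) (hx : ((649613803 : ℕ) : ℝ) / S ≤ x)
    (hx' : x ≤ (((649613803 : ℕ) : ℝ) + (48318383 : ℕ)) / S) :
    AltA (VFD κ) PP tK tL pcB [⟨3, 0, 0, 1449551462⟩] 0 0 1 0 0 (sgb true) (sgb true) x :=
  strip_altAD (m := 1449551462) true rfl hκ (SH.κ0 hκ (SH.hx1 hx).le (SH.hx2 hx').le) (SH.hx1 hx).le (SH.hx2 hx') (covB00).cov (covB00).cov hx hx' c_A00pp_001_s1 cutA_nil (noExt_A)

noncomputable def cut_A00pp_001_s3 : Cut := Cut.of [[⟨3, 0, 0, 2845415833⟩]]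

noncomputable def f_A00pp_001_s3 : ℕ → ℕ → ℕ → ℕ → Bool := onCell 0 536870912 0 536870912 649613803 48318383
    (rowF 0 true true true .up 0 0 1 (qsf 0 536870912 0 536870912 1) ndB0q0 ndB0q0 pcB1 cut_A00pp_001_s3 Ext.none)

def k0_A00pp_001_s3 : ∃ t, chk3 f_A00pp_001_s3 t 1 1 1 = true :=
  ⟨(l 4), by decide +kernel⟩

theorem c_A00pp_001_s3 : CertF 0 536870912 0 536870912 649613803 48318383 true true true .up 0 0 1
    ndB0q0 ndB0q0 pcB1 cut_A00pp_001_s3 Ext.none :=
  certF0 (fam := true) (s1 := true) (s2 := true) (a := 0) (b := 0) (c := 1) (cn := .up) (n1 := ndB0q0) (n2 := ndB0q0) (pc := pcB1) (cut := cut_A00pp_001_s3) (xt := Ext.none) (P1 := 0) (W1 := 536870912) (P2 := 0) (W2 := 536870912) (P3 := 649613803) (W3 := 48318383)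
    rfl k0_A00pp_001_s3

theorem s_A00pp_001_s3 {κ x : ℝ} (hκ : κ * h0 = ken x) (hx : ((649613803 : ℕ) : ℝ) / S ≤ x)
    (hx' : x ≤ (((649613803 : ℕ) : ℝ) + (48318383 : ℕ)) / S) :
    AltA (VFD κ) PP tK tL pcB [⟨4, 0, 0, 2845415833⟩] 0 0 1 0 0 (sgb true) (sgb true) x :=
  strip_altAD (m := 2845415833) false rfl hκ (SH.κ0 hκ (SH.hx1 hx).le (SH.hx2 hx').le) (SH.hx1 hx).le (SH.hx2 hx') (covB00).cov (covB00).cov hx hx' c_A00pp_001_s3 cutA_nil (noExt_A)

noncomputable def cut_A00pp_011_s1 : Cut := Cut.of [[⟨4, 0, 0, 1449551462⟩], [⟨0, 0, 0, 67108864⟩, ⟨1, 1, 0, 67108864⟩, ⟨2, 1, 0, 67108864⟩]]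

noncomputable def f_A00pp_011_s1 : ℕ → ℕ → ℕ → ℕ → Bool := onCell 0 536870912 536870912 536870912 649613803 48318383
    (rowF 0 true true true .pnn 0 1 1 (qsf 0 536870912 536870912 536870912 1) ndB0q0 ndB0q1 pcB1 cut_A00pp_011_s1 Ext.none)

def k0_A00pp_011_s1 : ∃ t, chk3 f_A00pp_011_s1 t 1 1 1 = true :=
  ⟨(l 6), by decide +kernel⟩

theorem c_A00pp_011_s1 : CertF 0 536870912 536870912 536870912 649613803 48318383 true true true .pnn 0 1 1
    ndB0q0 ndB0q1 pcB1 cut_A00pp_011_s1 Ext.none :=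
  certF0 (fam := true) (s1 := true) (s2 := true) (a := 0) (b := 1) (c := 1) (cn := .pnn) (n1 := ndB0q0) (n2 := ndB0q1) (pc := pcB1) (cut := cut_A00pp_011_s1) (xt := Ext.none) (P1 := 0) (W1 := 536870912) (P2 := 536870912) (W2 := 536870912) (P3 := 649613803) (W3 := 48318383)
    rfl k0_A00pp_011_s1

theorem s_A00pp_011_s1 {κ x : ℝ} (hκ : κ * h0 = ken x) (hx : ((649613803 : ℕ) : ℝ) / S ≤ x)
    (hx' : x ≤ (((649613803 : ℕ) : ℝ) + (48318383 : ℕ)) / S)
    (H : CutA (VFD κ) PP tK tL pcB (Cut.of [[⟨0, 0, 0, 67108864⟩, ⟨1, 1, 0, 67108864⟩, ⟨2, 1, 0, 67108864⟩]]) 0 1 1 0 0 (sgb true) (sgb true) x) :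
    AltA (VFD κ) PP tK tL pcB [⟨3, 0, 0, 1449551462⟩] 0 1 1 0 0 (sgb true) (sgb true) x :=
  strip_altAD (m := 1449551462) true rfl hκ (SH.κ0 hκ (SH.hx1 hx).le (SH.hx2 hx').le) (SH.hx1 hx).le (SH.hx2 hx') (covB00).cov (covB01).cov hx hx' c_A00pp_011_s1 H (noExt_A)

noncomputable def cut_A00pp_011_s3 : Cut := Cut.of [[⟨3, 0, 0, 2845415833⟩], [⟨0, 0, 0, 67108864⟩, ⟨1, 1, 0, 67108864⟩, ⟨2, 1, 0, 67108864⟩]]

noncomputable def f_A00pp_011_s3 : ℕ → ℕ → ℕ → ℕ → Bool := onCell 0 536870912 536870912 536870912 649613803 48318383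
    (rowF 0 true true true .pnn 0 1 1 (qsf 0 536870912 536870912 536870912 1) ndB0q0 ndB0q1 pcB1 cut_A00pp_011_s3 Ext.none)

def k0_A00pp_011_s3 : ∃ t, chk3 f_A00pp_011_s3 t 1 1 1 = true :=
  ⟨(b (l 4) (a (b (l 4) (a (b (l 4) (a (b (l 4) (a (l 14) (l 4))) (l 4))) (l 4))) (l 4))), by decide +kernel⟩

theorem c_A00pp_011_s3 : CertF 0 536870912 536870912 536870912 649613803 48318383 true true true .pnn 0 1 1
    ndB0q0 ndB0q1 pcB1 cut_A00pp_011_s3 Ext.none :=
  certF0 (fam := true) (s1 := true) (s2 := true) (a := 0) (b := 1) (c := 1) (cn := .pnn) (n1 := ndB0q0) (n2 := ndB0q1) (pc := pcB1) (cut := cut_A00pp_011_s3) (xt := Ext.none) (P1 := 0) (W1 := 536870912) (P2 := 536870912) (W2 := 536870912) (P3 := 649613803) (W3 := 48318383)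
    rfl k0_A00pp_011_s3

theorem s_A00pp_011_s3 {κ x : ℝ} (hκ : κ * h0 = ken x) (hx : ((649613803 : ℕ) : ℝ) / S ≤ x)
    (hx' : x ≤ (((649613803 : ℕ) : ℝ) + (48318383 : ℕ)) / S)
    (H : CutA (VFD κ) PP tK tL pcB (Cut.of [[⟨0, 0, 0, 67108864⟩, ⟨1, 1, 0, 67108864⟩, ⟨2, 1, 0, 67108864⟩]]) 0 1 1 0 0 (sgb true) (sgb true) x) :
    AltA (VFD κ) PP tK tL pcB [⟨4, 0, 0, 2845415833⟩] 0 1 1 0 0 (sgb true) (sgb true) x :=
  strip_altAD (m := 2845415833) false rfl hκ (SH.κ0 hκ (SH.hx1 hx).le (SH.hx2 hx').le) (SH.hx1 hx).le (SH.hx2 hx') (covB00).cov (covB01).cov hx hx' c_A00pp_011_s3 H (noExt_A)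

noncomputable def cut_A00pp_012_s1 : Cut := Cut.of [[⟨4, 0, 0, 1449551462⟩], [⟨0, 0, 0, 67108864⟩, ⟨1, 1, 0, 67108864⟩, ⟨2, 1, 0, 67108864⟩]]

noncomputable def f_A00pp_012_s1 : ℕ → ℕ → ℕ → ℕ → Bool := onCell 0 536870912 536870912 536870912 649613803 48318383
    (rowF 0 true true true .pnp 0 1 2 (qsf 0 536870912 536870912 536870912 2) ndB0q0 ndB0q1 pcB2 cut_A00pp_012_s1 Ext.none)

def k0_A00pp_012_s1 : ∃ t, chk3 f_A00pp_012_s1 t 1 1 1 = true :=
  ⟨(l 6), by decide +kernel⟩

theorem c_A00pp_012_s1 : CertF 0 536870912 536870912 536870912 649613803 48318383 true true true .pnp 0 1 2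
    ndB0q0 ndB0q1 pcB2 cut_A00pp_012_s1 Ext.none :=
  certF0 (fam := true) (s1 := true) (s2 := true) (a := 0) (b := 1) (c := 2) (cn := .pnp) (n1 := ndB0q0) (n2 := ndB0q1) (pc := pcB2) (cut := cut_A00pp_012_s1) (xt := Ext.none) (P1 := 0) (W1 := 536870912) (P2 := 536870912) (W2 := 536870912) (P3 := 649613803) (W3 := 48318383)
    rfl k0_A00pp_012_s1

theorem s_A00pp_012_s1 {κ x : ℝ} (hκ : κ * h0 = ken x) (hx : ((649613803 : ℕ) : ℝ) / S ≤ x)
    (hx' : x ≤ (((649613803 : ℕ) : ℝ) + (48318383 : ℕ)) / S)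
    (H : CutA (VFD κ) PP tK tL pcB (Cut.of [[⟨0, 0, 0, 67108864⟩, ⟨1, 1, 0, 67108864⟩, ⟨2, 1, 0, 67108864⟩]]) 0 1 2 0 0 (sgb true) (sgb true) x) :
    AltA (VFD κ) PP tK tL pcB [⟨3, 0, 0, 1449551462⟩] 0 1 2 0 0 (sgb true) (sgb true) x :=
  strip_altAD (m := 1449551462) true rfl hκ (SH.κ0 hκ (SH.hx1 hx).le (SH.hx2 hx').le) (SH.hx1 hx).le (SH.hx2 hx') (covB00).cov (covB01).cov hx hx' c_A00pp_012_s1 H (noExt_A)

noncomputable def cut_A00pp_012_s3 : Cut := Cut.of [[⟨3, 0, 0, 2845415833⟩], [⟨0, 0, 0, 67108864⟩, ⟨1, 1, 0, 67108864⟩, ⟨2, 1, 0, 67108864⟩]]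

noncomputable def f_A00pp_012_s3 : ℕ → ℕ → ℕ → ℕ → Bool := onCell 0 536870912 536870912 536870912 649613803 48318383
    (rowF 0 true true true .pnp 0 1 2 (qsf 0 536870912 536870912 536870912 2) ndB0q0 ndB0q1 pcB2 cut_A00pp_012_s3 Ext.none)

def k0_A00pp_012_s3 : ∃ t, chk3 f_A00pp_012_s3 t 1 1 1 = true :=
  ⟨(b (l 4) (a (a (a (b (l 1) (a (b (l 1) (b (l 4) (l 14))) (l 4))) (l 4)) (l 4)) (l 4))), by decide +kernel⟩

theorem c_A00pp_012_s3 : CertF 0 536870912 536870912 536870912 649613803 48318383 true true true .pnp 0 1 2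
    ndB0q0 ndB0q1 pcB2 cut_A00pp_012_s3 Ext.none :=
  certF0 (fam := true) (s1 := true) (s2 := true) (a := 0) (b := 1) (c := 2) (cn := .pnp) (n1 := ndB0q0) (n2 := ndB0q1) (pc := pcB2) (cut := cut_A00pp_012_s3) (xt := Ext.none) (P1 := 0) (W1 := 536870912) (P2 := 536870912) (W2 := 536870912) (P3 := 649613803) (W3 := 48318383)
    rfl k0_A00pp_012_s3

theorem s_A00pp_012_s3 {κ x : ℝ} (hκ : κ * h0 = ken x) (hx : ((649613803 : ℕ) : ℝ) / S ≤ x)
    (hx' : x ≤ (((649613803 : ℕ) : ℝ) + (48318383 : ℕ)) / S)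
    (H : CutA (VFD κ) PP tK tL pcB (Cut.of [[⟨0, 0, 0, 67108864⟩, ⟨1, 1, 0, 67108864⟩, ⟨2, 1, 0, 67108864⟩]]) 0 1 2 0 0 (sgb true) (sgb true) x) :
    AltA (VFD κ) PP tK tL pcB [⟨4, 0, 0, 2845415833⟩] 0 1 2 0 0 (sgb true) (sgb true) x :=
  strip_altAD (m := 2845415833) false rfl hκ (SH.κ0 hκ (SH.hx1 hx).le (SH.hx2 hx').le) (SH.hx1 hx).le (SH.hx2 hx') (covB00).cov (covB01).cov hx hx' c_A00pp_012_s3 H (noExt_A)

noncomputable def cut_A00pp_022_s1 : Cut := Cut.of [[⟨4, 0, 0, 1449551462⟩], [⟨0, 0, 0, 53687091⟩, ⟨1, 1, 0, 53687091⟩, ⟨2, 1, 0, 53687091⟩]]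

noncomputable def f_A00pp_022_s1 : ℕ → ℕ → ℕ → ℕ → Bool := onCell 0 536870912 0 536870912 649613803 48318383
    (rowF 0 true true true .pp 0 2 2 (qsf 0 536870912 0 536870912 2) ndB0q0 ndB0q2 pcB2 cut_A00pp_022_s1 Ext.none)

def k0_A00pp_022_s1 : ∃ t, chk3 f_A00pp_022_s1 t 1 1 1 = true :=
  ⟨(l 6), by decide +kernel⟩

theorem c_A00pp_022_s1 : CertF 0 536870912 0 536870912 649613803 48318383 true true true .pp 0 2 2
    ndB0q0 ndB0q2 pcB2 cut_A00pp_022_s1 Ext.none :=
  certF0 (fam := true) (s1 := true) (s2 := true) (a := 0) (b := 2) (c := 2) (cn := .pp) (n1 := ndB0q0) (n2 := ndB0q2) (pc := pcB2) (cut := cut_A00pp_022_s1) (xt := Ext.none) (P1 := 0) (W1 := 536870912) (P2 := 0) (W2 := 536870912) (P3 := 649613803) (W3 := 48318383)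
    rfl k0_A00pp_022_s1

theorem s_A00pp_022_s1 {κ x : ℝ} (hκ : κ * h0 = ken x) (hx : ((649613803 : ℕ) : ℝ) / S ≤ x)
    (hx' : x ≤ (((649613803 : ℕ) : ℝ) + (48318383 : ℕ)) / S)
    (H : CutA (VFD κ) PP tK tL pcB (Cut.of [[⟨0, 0, 0, 53687091⟩, ⟨1, 1, 0, 53687091⟩, ⟨2, 1, 0, 53687091⟩]]) 0 2 2 0 0 (sgb true) (sgb true) x) :
    AltA (VFD κ) PP tK tL pcB [⟨3, 0, 0, 1449551462⟩] 0 2 2 0 0 (sgb true) (sgb true) x :=
  strip_altAD (m := 1449551462) true rfl hκ (SH.κ0 hκ (SH.hx1 hx).le (SH.hx2 hx').le) (SH.hx1 hx).le (SH.hx2 hx') (covB00).cov (covB02).cov hx hx' c_A00pp_022_s1 H (noExt_A)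

noncomputable def cut_A00pp_022_s3 : Cut := Cut.of [[⟨3, 0, 0, 2845415833⟩], [⟨0, 0, 0, 53687091⟩, ⟨1, 1, 0, 53687091⟩, ⟨2, 1, 0, 53687091⟩]]

noncomputable def xt_A00pp_022_s3 : Ext := strExt6 dd true true true .u0 .u2 .s2 .pp 0 2 2 rfl rfl gl2 vv ww ndB0q0 ndB0q2

noncomputable def f_A00pp_022_s3 : ℕ → ℕ → ℕ → ℕ → Bool := onCell 0 536870912 0 536870912 649613803 48318383
    (rowF 0 true true true .pp 0 2 2 (qsf 0 536870912 0 536870912 2) ndB0q0 ndB0q2 pcB2 cut_A00pp_022_s3 xt_A00pp_022_s3)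

def k0_A00pp_022_s3 : ∃ t, chk3 f_A00pp_022_s3 t 2 2 1 = true :=
  ⟨(a (b (l 6) (a (l 6) (b (l 6) (b (l 6) (b (a (l 6) (a (l 16574168) (l 16585728))) (a (a (l 6) (a (l 6) (l 16576736))) (a (a (l 16582944) (l 16589048)) (l 16598032)))))))) (b (a (l 6) (a (l 6) (b (l 6) (a (l 6) (b (l 6) (l 16623288)))))) (a (b (b (l 6) (a (l 6) (l 16629880))) (b (a (a (l 16600848) (l 16632352)) (c (l 16649304) (b (l 16602128) (l 16634360)))) (b (a (a (l 16597032) (l 16608312)) (a (l 16640776) (l 16653080))) (a (a (l 16609824) (l 16642560)) (a (c (l 16634112) (l 16633432)) (c (l 16646480) (l 16667112))))))) (b (b (a (a (a (l 6) (l 16595480)) (l 16606368)) (a (l 16621224) (l 16636384))) (b (c (a (l 16610184) (l 16724840)) (a (l 16692824) (l 16721824))) (a (a (l 16611352) (l 16625688)) (a (l 16682544) (l 16655800))))) (a (b (a (c (l 16668248) (b (l 16621136) (l 16632560))) (b (l 16635472) (a (l 16642896) (l 16650280)))) (a (a (b (l 16641888) (l 16676936)) (b (l 16648584)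 (l 16683760))) (a (b (a (l 16674712) (l 16678320)) (b (l 16687008) (l 1066343439))) (b (l 16694384) (b (l 16694352) (l 1066312719)))))) (b (a (b (l 16692352) (c (l 16661816) (l 16703000))) (a (b (l 16661832) (l 16694016)) (b (l 16669504) (l 16701712)))) (a (b (c (l 16684792) (c (l 16695144) (l 1067656719))) (a (a (l 1066363407) (l 1066093583)) (b (l 1066427919) (l 1066302991)))) (a (b (c (l 16686096) (l 16706360)) (c (l 1066387471) (l 1066352655))) (b (c (l 16693952) (l 1066634767)) (c (l 1066419215) (l 1066364431))))))))))), by decide +kernel⟩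

def k1_A00pp_022_s3 : ∃ t, chk3 f_A00pp_022_s3 t 8 12 1 = true :=
  ⟨(a (b (l 6) (b (l 6) (a (a (l 6) (a (l 6) (a (l 6) (l 16577560)))) (a (b (l 6) (l 16584832)) (b (l 16582816) (l 16590632)))))) (b (b (l 6) (a (l 6) (a (b (l 6) (a (l 6) (l 16575056))) (a (b (l 6) (l 16577552)) (a (b (l 6) (a (l 16579144) (l 16579848))) (b (l 16574328) (l 16586312))))))) (b (a (b (a (l 6) (l 16587016)) (a (c (l 16579544) (l 16579872)) (l 16589416))) (a (b (c (l 16582128) (l 16580992)) (c (l 16589648) (l 16588928))) (b (b (a (l 16583216) (l 16585816)) (l 16588360)) (c (l 16595064) (l 16593848))))) (a (a (b (l 16587288) (l 16595200)) (b (a (l 16590824) (l 16593264)) (l 16600040))) (a (b (c (l 16597384) (l 16597072)) (l 16605144)) (c (l 16617360) (a (l 16615480) (l 16618080)))))))), by decide +kernel⟩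

def k2_A00pp_022_s3 : ∃ t, chk3 f_A00pp_022_s3 t 8 13 1 = true :=
  ⟨(b (b (a (a (c (a (l 16578240) (l 16586328)) (a (c (l 16575608) (l 16573552)) (c (l 16584120) (l 16582336)))) (a (c (l 16594064) (a (l 16568528) (l 16593552))) (b (l 16597760) (l 16603496)))) (b (a (c (l 16605240) (l 16611600)) (a (l 16613344) (l 16618776))) (a (c (l 16613248) (l 16613848)) (a (l 16621640) (l 16627160))))) (a (a (c (a (l 16589304) (l 16597760)) (a (c (l 16586392) (l 16584200)) (c (l 16595248) (l 16593304)))) (c (a (l 16605864) (l 16613672)) (a (c (l 16603728) (l 16602024)) (c (l 16590928) (l 16610424))))) (a (a (b (l 16617152) (l 16623504)) (b (l 16624632) (l 16631160))) (a (c (l 16633848) (l 16634584)) (c (l 16639696) (l 16640456)))))) (b (c (a (a (a (l 16601344) (l 16610128)) (a (l 16618560) (l 16595240))) (a (c (l 16638880) (l 16637992)) (l 16653512))) (a (a (a (c (l 16598240) (l 16595984)) (c (l 16607400) (l 16605376))) (a (l 16620560) (c (l 16624664) (l 16623072))))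 (a (a (b (l 16628824) (l 16635584)) (l 16640296)) (a (l 16648208) (l 16655976))))) (a (a (a (b (l 16608968) (l 16626320)) (a (l 16619416) (l 16623984))) (a (c (l 16632280) (l 16639392)) (c (l 16640712) (l 16648232)))) (b (a (a (l 16654480) (l 16652096)) (a (l 16660032) (l 16667832))) (a (a (l 16651360) (c (l 16660632) (l 16658400))) (a (l 16667648) (l 16675576))))))), by decide +kernel⟩

def k3_A00pp_022_s3 : ∃ t, chk3 f_A00pp_022_s3 t 9 12 1 = true :=
  ⟨(a (b (a (a (b (l 6) (b (l 16578800) (l 16585536))) (b (l 16586528) (a (l 16587464) (l 16590952)))) (b (a (l 16582736) (l 16589288)) (a (l 16596096) (l 16602848)))) (a (b (b (a (a (b (l 16588944) (a (l 16591728) (l 16593400))) (l 16594344)) (l 16599720)) (a (a (b (l 16606856) (l 16600296)) (c (l 16602624) (l 16601024))) (l 16607048))) (a (a (b (l 16606400) (l 16614656)) (b (a (l 16608528) (l 16615360)) (l 16617504))) (a (b (l 16612792) (a (l 16630248) (l 16621464))) (l 16625560)))) (b (a (c (l 16611304)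 (l 16609984)) (c (l 16618144) (l 16617008))) (a (c (l 16626392) (l 16630672)) (c (l 16633416) (l 16643104)))))) (b (a (b (a (l 16595712) (l 16602032)) (a (l 16609472) (l 16626496))) (b (a (l 16618752) (l 16614440)) (a (l 16622456) (l 16628856)))) (a (b (a (b (l 16620408) (l 16628016)) (l 16630936)) (a (l 16645104) (l 16646776))) (a (b (l 16637600) (l 16653624)) (b (l 16644200) (l 1066522127)))))), by decide +kernel⟩

def k4_A00pp_022_s3 : ∃ t, chk3 f_A00pp_022_s3 t 9 13 1 = true :=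
  ⟨(a (a (b (a (b (b (c (l 16624824) (l 16624384)) (l 16632912)) (c (l 16645760) (l 16646136))) (b (b (a (c (l 16629384) (l 16628640)) (c (l 16632720) (l 16642392))) (a (l 16637360) (l 1067083279))) (b (l 16647512) (l 16656248)))) (b (a (c (l 16662984) (l 16663632)) (c (l 16669384) (l 16669912))) (a (c (l 16679976) (l 16678792)) (c (l 16687096) (l 16686608))))) (a (a (b (b (b (l 16635792) (l 1066529295)) (b (l 1066485775) (l 16660968))) (b (l 16674352) (l 16692368))) (b (b (l 16648752) (b (l 16661040) (l 16669536))) (b (l 1066384911) (l 16700944)))) (b (b (b (l 16644856) (l 16653032)) (b (l 16666576) (l 16669760))) (b (c (l 1066352655) (l 1067027471)) (l 1067357199))))) (b (a (a (b (l 16661376) (a (l 16671064) (l 16674712))) (b (l 16665848) (l 1066671631))) (a (b (l 1066736655) (l 1066913807)) (b (l 1066430991) (l 1066343439)))) (a (a (b (l 1066327055) (l 1066236943)) (b (l 1066312207) (l 1066219535))) (a (b (l 1066290191) (l 1066203663)) (b (l 1066261519)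 (l 1066180111)))))), by decide +kernel⟩

def k5_A00pp_022_s3 : ∃ t, chk3 f_A00pp_022_s3 t 10 6 1 = true :=
  ⟨(b (a (b (b (a (l 16644584) (c (l 16636392) (l 16635680))) (a (a (l 16635200) (l 16641536)) (c (l 16651496) (l 16671928)))) (a (a (b (l 16650768) (l 1066475535)) (b (l 1066852367) (l 1066422287))) (a (b (l 1066859535) (l 1066363407)) (b (a (l 16679320) (l 1066375695)) (l 1066298895))))) (b (a (b (b (l 16665464) (l 16673064)) (c (l 16685304) (c (l 16684856) (l 16674272)))) (a (b (l 16678832) (a (l 16693168) (l 16696520))) (b (l 16685416) (a (l 1066244111) (l 1066211855))))) (a (a (b (c (l 16677416) (l 16687584)) (l 1066766863)) (b (c (l 16684136) (l 1066245135)) (l 1066967055))) (b (b (c (l 16700592) (l 1066166799)) (c (l 1066121231) (l 1066113039))) (c (l 1067127823) (a (l 1066083343) (l 1066018831))))))) (a (b (a (a (b (l 1066387471) (l 1066839567)) (b (l 1066336783) (l 1066791951))) (a (b (l 1066279439) (l 1067266063)) (b (l 1067154447)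 (a (l 1066144271) (l 1066112015))))) (b (a (a (l 1066225679) (l 1066165263)) (a (l 1066101263) (l 1066039823))) (a (a (l 1066127375) (l 1066065423)) (a (l 1066006031) (l 1065948687))))) (b (b (c (a (l 1066649103) (c (l 1065988623) (l 1066529807))) (a (a (l 1066128399) (a (l 1066078735) (l 1066045455))) (a (c (l 1066010639) (l 1066513423)) (a (l 1065950223) (l 1065920527))))) (c (a (c (l 1066038287) (l 1066572815)) (b (l 1065943567) (l 1065908239))) (a (a (c (l 1066050575) (l 1066413583)) (a (l 1065985039) (l 1065952783))) (a (b (l 1065927695) (l 1065881615)) (b (l 1066403855) (l 1065821199)))))) (a (a (b (a (l 1065995791) (l 1065966095)) (l 1065893391)) (c (l 1065914895) (b (l 1066414095) (l 1065783311)))) (a (b (a (l 1065880079) (l 1065851407)) (l 1065788431)) (b (b (a (l 1065834511) (l 1065808399)) (l 1065790991)) (l 4))))))), by decide +kernel⟩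

def k6_A00pp_022_s3 : ∃ t, chk3 f_A00pp_022_s3 t 11 12 1 = true :=
  ⟨(a (b (a (b (b (c (l 16671008) (l 16670928)) (c (l 16699952) (l 16689384))) (b (c (l 16708160) (l 16697608)) (a (l 16702440) (l 16709640)))) (b (a (c (l 16706448) (l 16706512)) (c (l 1066144271) (l 1066172431))) (a (b (l 16708312) (l 1066006543)) (b (l 1066022927) (l 1065945103))))) (a (a (b (c (l 1066040847) (l 1066044431)) (c (l 1065963023) (l 1065957903))) (b (c (l 1065968655) (l 1066082831)) (c (l 1065901071) (l 1066972175)))) (b (a (b (l 1065943055) (l 1065892367)) (b (l 1065878031) (l 1065825807))) (c (a (l 1065837583) (l 1065771535)) (a (c (l 1065846799) (l 1065825807)) (l 1065778703)))))) (b (b (a (c (a (l 1066110991) (l 1066114575)) (a (l 1066141199) (l 1066121743))) (a (c (l 1066130447) (l 1066113039)) (b (l 1066204687) (l 1066081807)))) (a (b (a (l 1065984015) (l 1065965071)) (a (l 1065893903) (l 1065865231))) (a (b (c (l 1065951247) (l 1065945615)) (l 1065848847)) (b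 (a (l 1065960975) (l 1065966607)) (c (a (l 1065847823) (l 1065857551)) (l 1066368527)))))) (b (a (b (a (l 1065816591) (l 1065776143)) (a (l 1065757711) (l 1065702927))) (b (a (a (l 1065755663) (l 1065745423)) (a (l 1065740303) (c (l 1065744399) (l 1065723407)))) (a (l 1065664527) (b (l 1065432079) (l 1065623567))))) (a (a (l 1065720847) (l 1066197007)) (a (l 1065610255) (b (l 1065412623) (l 1065557007))))))), by decide +kernel⟩

def k7_A00pp_022_s3 : ∃ t, chk3 f_A00pp_022_s3 t 11 13 1 = true :=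
  ⟨(b (b (a (c (a (a (l 1065911311) (l 1065857039)) (a (l 1065801231) (l 1065743887))) (a (a (a (l 1065892367) (l 1065865231)) (a (l 1065838607) (l 1065811983))) (a (c (l 1065786895) (l 1065750543)) (c (l 1065732623) (l 1065697807))))) (a (a (l 1065685519) (l 1065627151)) (a (a (l 1065585167) (l 4)) (l 4)))) (b (a (a (a (a (a (l 1065869839) (l 1065857039)) (l 1065838607)) (c (l 1065817103) (a (l 1065776655) (l 1065752079)))) (a (l 1065718287) (c (l 1065716239) (a (l 1065678863) (l 1065654799))))) (l 4)) (a (a (c (c (l 1065813007) (l 1066873871)) (c (a (l 1065792527) (l 1065745423)) (a (a (l 1065751567) (l 1065726991)) (a (l 1065837583) (b (l 1065691663) (l 1065668111)))))) (a (b (l 1065726991) (a (a (l 1065727503) (l 4)) (l 4))) (l 4))) (l 4)))) (b (b (a (a (c (l 1065776143) (a (l 1065720847) (l 1065944079))) (l 4)) (l 4)) (a (a (a (a (l 1065751055) (l 4)) (l 4)) (l 4)) (l 4))) (l 4))), by decide +kernel⟩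

def k8_A00pp_022_s3 : ∃ t, chk3 f_A00pp_022_s3 t 8 28 1 = true :=
  ⟨(b (b (a (a (a (c (l 16625088) (l 16620864)) (l 16632520)) (a (l 16641656) (l 16650472))) (a (a (l 16659016) (l 16677848)) (a (c (l 16676424) (l 16674504)) (l 16683568)))) (a (a (c (a (l 16632576) (l 16641952)) (a (l 16628440) (l 16638256))) (a (l 16659880) (l 16668800))) (a (a (l 16677464) (c (l 16676472) (l 16674240))) (c (l 16693840) (a (l 16682672) (l 16690968)))))) (c (b (a (a (a (l 16640400) (l 16649872)) (a (l 16659008) (l 16667848))) (a (a (l 16676424) (l 16684792)) (a (l 16693008) (l 16722064)))) (a (a (a (l 16648552) (l 16658112)) (a (l 16667344) (l 16676272))) (a (a (l 16684944) (l 16693408)) (a (l 16701704) (l 16730840))))) (b (a (a (a (l 16636376) (l 16646280)) (a (l 16655816) (l 16665024))) (a (a (l 16673944) (l 16682640)) (a (l 16691152) (l 16699528)))) (a (a (a (l 16644680) (l 16654664)) (a (l 16664280) (l 16673576))) (a (a (l 16682584) (l 16691360)) (a (l 16699944)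 (l 16718888))))))), by decide +kernel⟩

def k9_A00pp_022_s3 : ∃ t, chk3 f_A00pp_022_s3 t 8 29 1 = true :=
  ⟨(a (b (b (a (a (a (l 16652688) (l 16657704)) (a (l 16662632) (l 16667464))) (a (c (l 16675984) (l 16673088)) (c (l 16685000) (l 16682456)))) (a (a (a (l 16661584) (l 16666632)) (a (l 16671592) (l 16676456))) (a (c (l 16684936) (l 16692720)) (c (l 16694032) (l 16702160))))) (b (a (a (a (l 16670840) (l 16675920)) (a (l 16680904) (l 16685800))) (a (a (l 16690616) (l 16695352)) (a (l 16710504) (l 16715104)))) (a (a (a (l 14) (a (l 14) (l 16686832))) (a (c (l 16691912) (l 16689216)) (c (l 16696736) (l 16694224)))) (a (a (c (l 16701488) (l 16699152)) (c (l 16706168) (l 16704008))) (a (c (l 16710776) (l 16708784)) (c (l 16715320) (l 16713488))))))) (b (b (a (a (c (l 16693760) (l 16691552)) (c (l 16702304) (l 16710888))) (a (c (l 16710680) (l 16719544)) (a (l 16721440) (l 1065725455)))) (a (a (a (l 16699656) (l 16704096)) (a (l 16718968) (l 16723304)))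 (a (a (l 1067146767) (l 1066093583)) (a (l 1065576463) (l 1065596431))))) (b (a (a (a (l 16719640) (c (l 16714480) (l 16712728))) (a (c (l 16718832) (l 16717224)) (c (l 16723128) (l 16721672)))) (a (a (l 1066474511) (l 1065422863)) (a (l 1065443343) (l 1065464335)))) (a (a (a (c (l 16719808) (l 16718136)) (c (l 16724240) (l 16722720))) (a (c (l 16728616) (l 16737728)) (c (l 16743440) (l 16736960)))) (a (a (l 1066335247) (l 1065286159)) (a (l 1065308175) (l 1065328655))))))), by decide +kernel⟩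

def k10_A00pp_022_s3 : ∃ t, chk3 f_A00pp_022_s3 t 16 30 1 = true :=
  ⟨(b (c (b (a (a (l 14) (a (l 16701832) (l 16706680))) (a (a (l 16711448) (l 16716152)) (a (l 16720784) (l 16725352)))) (a (l 14) (a (a (l 16732264) (l 16736984)) (a (c (l 16731504) (l 16730800)) (c (l 16736056) (l 16745920)))))) (b (a (a (l 14) (a (l 16699416) (l 16704440))) (a (a (l 16709392) (l 16724744)) (a (l 16729544) (l 16729032)))) (a (l 14) (a (a (c (l 16720464) (l 16719560)) (c (l 16725304) (l 16734976))) (a (c (l 16740568) (l 16734584)) (a (l 16738520) (l 16740880))))))) (b (a (l 14) (b (a (a (l 14) (c (l 16734504) (l 16733144))) (a (c (l 16739168) (l 16737968)) (c (l 16743776) (l 16747968)))) (a (a (l 14) (c (l 16739984) (l 16744032))) (a (a (l 16748200) (c (l 16745808) (l 16744808))) (a (l 1065113615) (l 1064598543)))))) (b (a (l 14) (a (l 14) (a (a (c (l 16749072) (l 16748168)) (c (l 16751392) (l 16750568))) (a (l 1065031183) (l 1064516623))))) (a (l 14) (a (l 14)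 (a (l 14) (a (l 1064949263) (l 1064434703)))))))), by decide +kernel⟩

def k11_A00pp_022_s3 : ∃ t, chk3 f_A00pp_022_s3 t 17 30 1 = true :=
  ⟨(a (a (a (c (a (a (b (l 1065032207) (l 1064716303)) (b (l 1065041423) (l 1064726031))) (b (b (l 16730984) (l 16751888)) (b (l 1064818191) (l 1064660495)))) (a (b (b (l 16727296) (l 1065224719)) (b (l 1065055759) (l 1064888335))) (b (b (l 16729608) (l 1064708623)) (b (l 1064540175) (l 1064373263))))) (b (a (a (l 1065476111) (l 1065485327)) (a (l 1064957455) (l 1064966159))) (a (b (l 1064700943) (l 1064539151)) (a (l 1065709583) (l 1064645135))))) (a (a (a (b (l 1064974351) (l 1064654863)) (b (l 1064982543) (l 1064664079))) (a (b (l 1064991247) (l 1064673295)) (b (l 1064998927) (l 1064681999)))) (a (b (c (l 1065132559) (l 1065954831)) (l 1065230863)) (b (c (l 1065145359) (l 1066505743)) (l 1064711183))))) (b (b (a (a (l 1066191887) (l 1065144847)) (a (l 1065169423) (l 1065191439))) (a (a (l 1066041359) (l 1064996367))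 (a (l 1065023503) (l 1065051151)))) (b (a (a (l 1065348111) (l 1064842255)) (a (l 1064871439) (l 1064898575))) (a (a (l 1065190927) (l 1064686607)) (l 4))))), by decide +kernel⟩

def k12_A00pp_022_s3 : ∃ t, chk3 f_A00pp_022_s3 t 8 31 1 = true :=
  ⟨(b (b (a (a (l 14) (a (l 14) (a (l 14) (a (l 14) (a (l 1064309775) (l 1064321039)))))) (a (a (a (a (c (l 1064481807) (l 1065259023)) (l 1064356879)) (a (l 1064377871) (l 1064398863))) (a (a (l 1064418831) (l 1064437775)) (l 4))) (l 4))) (a (l 14) (l 4))) (a (l 14) (l 4))), by decide +kernel⟩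

def k13_A00pp_022_s3 : ∃ t, chk3 f_A00pp_022_s3 t 9 7 1 = true :=
  ⟨(b (a (a (b (a (a (b (l 1066166799) (l 1065795087)) (b (l 1066179087) (l 1065945615))) (a (b (l 1066189839) (l 1065960975)) (b (l 1066199055) (l 1065974287)))) (a (b (a (l 1066754575) (l 1066237455)) (a (c (l 1065517071) (l 1066384399)) (c (l 1065537551) (l 1065873423)))) (a (b (l 1065719311) (b (l 1065529871) (l 1065398799))) (b (l 1065737231) (b (l 1065550351) (l 1065421327)))))) (a (b (b (l 1067278863) (l 1066792463)) (a (b (l 1065753615) (l 1065505807)) (l 1065915407))) (b (b (l 1066215439) (l 1066007055)) (a (l 1065662991) (l 1065677839))))) (a (a (b (b (l 1066168847) (l 1066021391)) (c (l 1065755151) (l 1065619471))) (b (b (l 1066125327) (l 1066027535)) (l 1066252815))) (a (b (b (l 1066108943) (l 1066005007)) (l 1065731599)) (b (b (l 1066077199) (l 1065954831)) (l 1065726479))))) (b (a (a (a (a (b (a (l 1065137679) (l 1065150479)) (l 4)) (b (c (l 1065277455) (l 1065587727))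 (l 4))) (b (a (l 1066268175) (a (l 1065214991) (l 1065763855))) (l 4))) (a (a (b (a (l 1065776143) (l 1065250831)) (l 4)) (l 4)) (l 4))) (l 4)) (l 4))), by decide +kernel⟩

def k14_A00pp_022_s3 : ∃ t, chk3 f_A00pp_022_s3 t 5 7 1 = true :=
  ⟨(a (b (b (b (a (a (c (l 1066006031) (l 1066875407)) (a (l 1065901583) (l 1065847823))) (a (c (l 1065814031) (l 1067849743)) (l 4))) (a (a (c (l 1065896463) (l 1065813519)) (c (l 1065801231) (l 1065694735))) (l 4))) (l 4)) (l 4)) (l 4)), by decide +kernel⟩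

def k15_A00pp_022_s3 : ∃ t, chk3 f_A00pp_022_s3 t 3 4 1 = true :=
  ⟨(a (b (a (a (l 6) (b (l 6) (a (l 6) (l 16655592)))) (a (b (a (l 6) (b (l 6) (l 16670368))) (a (l 16668448) (l 16680472))) (a (b (b (a (l 6) (l 2)) (l 86536698583)) (l 80631160135)) (l 2)))) (a (a (b (a (l 6) (l 16640576)) (a (l 16638536) (l 16653600))) (b (a (l 16654984) (l 16668832)) (l 16748696))) (a (a (b (l 16681976) (l 16695576)) (b (l 16694240) (l 16708032))) (a (b (l 16705496) (l 16719472)) (l 2))))) (l 2)), by decide +kernel⟩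

def k16_A00pp_022_s3 : ∃ t, chk3 f_A00pp_022_s3 t 12 5 1 = true :=
  ⟨(b (a (a (b (l 16651712) (c (l 16710224) (l 16707072))) (b (l 16666856) (b (l 16677688) (l 16728248)))) (a (b (l 16681560) (b (l 16692424) (l 16732536))) (b (l 16695720) (a (l 1068325903) (l 1068430863))))) (a (b (a (b (c (l 16682056) (l 16721848)) (c (l 16724472) (c (l 16712880) (l 16722536)))) (b (c (l 16739248) (l 16716072)) (c (l 1067238415) (l 1067091471)))) (a (c (b (a (l 16701776) (l 16730512)) (a (l 1066456591) (l 1066499087))) (b (a (l 1066667023) (l 1066704399)) (a (l 1066387471) (c (l 1066439695) (l 1066390543))))) (b (c (l 1067430415) (b (l 1066848271) (l 1066691599))) (a (c (l 1066545167) (l 1066448911)) (b (l 1066618895) (l 1066466831)))))) (b (a (b (l 1067667983) (a (l 1067268111) (l 1067343887))) (b (a (l 16742816) (l 1067902479)) (a (l 1067427343) (l 1067516431)))) (a (b (c (b (l 1067117071) (l 1066937359)) (b (l 1066958863) (c (l 1066826767) (l 1066754575))))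 (a (c (l 1066650127) (b (l 1066604047) (l 1066450959))) (b (c (l 1066795535) (c (l 1066687503) (l 1066617359))) (c (l 1066625551) (l 1066492943))))) (a (b (c (l 1067143695) (b (l 1067058191) (l 1066880527))) (b (c (l 1066864655) (c (l 1066745359) (l 1066669583))) (c (l 1066683919) (b (l 1066580495) (b (l 1066519567) (l 1066480143)))))) (a (b (c (l 1067208719) (l 1067023375)) (b (c (l 1066923023) (c (l 1066794511) (l 1066714639))) (c (l 1066738703) (c (l 1066618383) (b (l 1066585103) (l 1066501135)))))) (b (b (l 1067250191) (l 1067060239)) (b (b (l 1066919951) (l 1066827279)) (c (l 1066775567) (c (l 1066649615) (c (l 1066591247) (l 1066553359)))))))))))), by decide +kernel⟩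

def k17_A00pp_022_s3 : ∃ t, chk3 f_A00pp_022_s3 t 13 5 1 = true :=
  ⟨(b (a (b (a (l 16751136) (l 16763736)) (a (b (l 16762144) (l 1068426255)) (b (l 16774848) (l 1068661263)))) (b (a (b (l 16729960) (l 16778960)) (b (l 2) (l 79020690999))) (a (b (l 1069235727) (l 1068905999)) (b (l 1069462031) (l 1071281679))))) (b (a (a (b (l 1068061711) (a (l 1067612687) (l 1067715087))) (b (a (l 1068234255) (l 1068355599)) (a (l 1067823119) (l 1067937807)))) (a (b (l 1068567567) (l 1068122127)) (b (l 1071481359) (l 1070027279)))) (a (a (a (b (b (l 1067317263) (c (l 1067226127) (l 1067027983))) (b (c (l 1067029007) (c (l 1066886159) (l 1066799631))) (b (l 1066791439) (b (l 1066721807) (l 4))))) (b (l 1067311631) (b (c (l 1067120655) (b (l 1066966543) (c (l 1066918415) (l 1066826767)))) (l 4)))) (b (b (a (l 1067512847) (l 1067619855)) (l 1067357711)) (l 4))) (b (a (a (l 1067624975) (l 4)) (l 4)) (l 4))))), by decide +kernel⟩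

def k18_A00pp_022_s3 : ∃ t, chk3 f_A00pp_022_s3 t 7 5 1 = true :=
  ⟨(b (l 2) (b (l 2) (l 4))), by decide +kernel⟩

def k19_A00pp_022_s3 : ∃ t, chk3 f_A00pp_022_s3 t 12 12 1 = true :=
  ⟨(b (a (a (b (a (a (l 1066158607) (b (l 1066234895) (l 1066107919))) (a (l 1066184207) (l 1066198543))) (a (b (c (l 1065995279) (l 1065952271)) (c (b (l 1065903631) (l 1065844239)) (l 1065837583))) (a (b (l 1065995791) (a (l 1065873423) (l 1065878031))) (c (l 1065968655) (l 1065913871))))) (b (c (b (l 1066348047) (l 1066208271)) (a (l 1066178575) (l 1066207247))) (a (c (b (l 1066056207) (l 1065928207)) (l 1065927695)) (b (l 1066054671) (c (a (l 1065952271) (l 1065969167)) (l 1065887247)))))) (a (a (b (c (l 1066344975) (l 1066239503)) (a (b (l 1066078223) (b (l 1065979919) (l 4))) (b (l 1066095119) (l 4)))) (b (c (l 1066394127) (b (l 1066345999) (l 1066205199))) (a (b (l 1066113039) (l 4)) (l 4)))) (a (b (c (b (l 1066524175) (l 1066370575)) (c (l 1066346511) (l 1066281999)))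 (l 4)) (b (b (b (a (l 1066531343) (a (a (a (b (l 1066564623) (l 4)) (l 4)) (l 4)) (l 4))) (l 4)) (l 4)) (l 4))))) (a (a (b (a (b (a (b (l 1065773583) (l 1065718799)) (b (c (l 1065792015) (l 1065756687)) (b (l 1065738767) (l 1065711119)))) (c (b (a (l 1065669647) (l 1065678863)) (l 1065619983)) (l 1065620495))) (a (b (a (b (l 1065786383) (c (l 1065742351) (l 1065705487))) (b (l 1065790479) (b (l 1065747983) (a (l 1065718799) (l 1065720847))))) (b (b (a (l 1065688591) (b (b (l 1065702415) (l 1065695759)) (l 1065685007))) (l 1065662991)) (l 1065622543))) (a (b (a (c (c (l 1065785359) (l 1065774607)) (l 1065737743)) (l 1065767439)) (b (b (a (c (b (l 1065716239) (l 1065702415)) (l 1065668623)) (b (l 1065703951) (l 4))) (l 4)) (l 4))) (b (l 1065770511) (l 4))))) (a (b (l 1065143311) (l 4)) (l 4))) (a (b (b (a (c (l 1065798671) (l 1065746959)) (b (l 1065817103) (l 4))) (l 4)) (l 4)) (l 4))) (l 4))), by decide +kernel⟩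

def k20_A00pp_022_s3 : ∃ t, chk3 f_A00pp_022_s3 t 12 13 1 = true :=
  ⟨(l 4), by decide +kernel⟩

def k21_A00pp_022_s3 : ∃ t, chk3 f_A00pp_022_s3 t 13 6 1 = true :=
  ⟨(b (l 4) (l 4)), by decide +kernel⟩

def k22_A00pp_022_s3 : ∃ t, chk3 f_A00pp_022_s3 t 6 7 1 = true :=
  ⟨(l 4), by decide +kernel⟩

def k23_A00pp_022_s3 : ∃ t, chk3 f_A00pp_022_s3 t 7 3 1 = true :=
  ⟨(l 4), by decide +kernel⟩

theorem t24_A00pp_022_s3 : ∃ t, chk3 f_A00pp_022_s3 t 12 6 1 = true := ex3_b k19_A00pp_022_s3 k20_A00pp_022_s3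

theorem t25_A00pp_022_s3 : ∃ t, chk3 f_A00pp_022_s3 t 6 6 1 = true := ex3_a t24_A00pp_022_s3 k21_A00pp_022_s3

theorem t26_A00pp_022_s3 : ∃ t, chk3 f_A00pp_022_s3 t 6 3 1 = true := ex3_b t25_A00pp_022_s3 k22_A00pp_022_s3

theorem t27_A00pp_022_s3 : ∃ t, chk3 f_A00pp_022_s3 t 3 3 1 = true := ex3_a t26_A00pp_022_s3 k23_A00pp_022_s3

theorem t28_A00pp_022_s3 : ∃ t, chk3 f_A00pp_022_s3 t 6 5 1 = true := ex3_a k16_A00pp_022_s3 k17_A00pp_022_s3

theorem t29_A00pp_022_s3 : ∃ t, chk3 f_A00pp_022_s3 t 3 5 1 = true := ex3_a t28_A00pp_022_s3 k18_A00pp_022_s3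

theorem t30_A00pp_022_s3 : ∃ t, chk3 f_A00pp_022_s3 t 3 2 1 = true := ex3_b k15_A00pp_022_s3 t29_A00pp_022_s3

theorem t31_A00pp_022_s3 : ∃ t, chk3 f_A00pp_022_s3 t 3 1 1 = true := ex3_b t30_A00pp_022_s3 t27_A00pp_022_s3

theorem t32_A00pp_022_s3 : ∃ t, chk3 f_A00pp_022_s3 t 8 30 1 = true := ex3_a k10_A00pp_022_s3 k11_A00pp_022_s3

theorem t33_A00pp_022_s3 : ∃ t, chk3 f_A00pp_022_s3 t 8 15 1 = true := ex3_b t32_A00pp_022_s3 k12_A00pp_022_s3

theorem t34_A00pp_022_s3 : ∃ t, chk3 f_A00pp_022_s3 t 8 14 1 = true := ex3_b k8_A00pp_022_s3 k9_A00pp_022_s3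

theorem t35_A00pp_022_s3 : ∃ t, chk3 f_A00pp_022_s3 t 8 7 1 = true := ex3_b t34_A00pp_022_s3 t33_A00pp_022_s3

theorem t36_A00pp_022_s3 : ∃ t, chk3 f_A00pp_022_s3 t 4 7 1 = true := ex3_a t35_A00pp_022_s3 k13_A00pp_022_s3

theorem t37_A00pp_022_s3 : ∃ t, chk3 f_A00pp_022_s3 t 2 7 1 = true := ex3_a t36_A00pp_022_s3 k14_A00pp_022_s3

theorem t38_A00pp_022_s3 : ∃ t, chk3 f_A00pp_022_s3 t 11 6 1 = true := ex3_b k6_A00pp_022_s3 k7_A00pp_022_s3

theorem t39_A00pp_022_s3 : ∃ t, chk3 f_A00pp_022_s3 t 5 6 1 = true := ex3_a k5_A00pp_022_s3 t38_A00pp_022_s3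

theorem t40_A00pp_022_s3 : ∃ t, chk3 f_A00pp_022_s3 t 9 6 1 = true := ex3_b k3_A00pp_022_s3 k4_A00pp_022_s3

theorem t41_A00pp_022_s3 : ∃ t, chk3 f_A00pp_022_s3 t 8 6 1 = true := ex3_b k1_A00pp_022_s3 k2_A00pp_022_s3

theorem t42_A00pp_022_s3 : ∃ t, chk3 f_A00pp_022_s3 t 4 6 1 = true := ex3_a t41_A00pp_022_s3 t40_A00pp_022_s3

theorem t43_A00pp_022_s3 : ∃ t, chk3 f_A00pp_022_s3 t 2 6 1 = true := ex3_a t42_A00pp_022_s3 t39_A00pp_022_s3

theorem t44_A00pp_022_s3 : ∃ t, chk3 f_A00pp_022_s3 t 2 3 1 = true := ex3_b t43_A00pp_022_s3 t37_A00pp_022_s3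

theorem t45_A00pp_022_s3 : ∃ t, chk3 f_A00pp_022_s3 t 2 1 1 = true := ex3_b k0_A00pp_022_s3 t44_A00pp_022_s3

theorem t46_A00pp_022_s3 : ∃ t, chk3 f_A00pp_022_s3 t 1 1 1 = true := ex3_a t45_A00pp_022_s3 t31_A00pp_022_s3

theorem c_A00pp_022_s3 : CertF 0 536870912 0 536870912 649613803 48318383 true true true .pp 0 2 2
    ndB0q0 ndB0q2 pcB2 cut_A00pp_022_s3 xt_A00pp_022_s3 :=
  certF0 (fam := true) (s1 := true) (s2 := true) (a := 0) (b := 2) (c := 2) (cn := .pp) (n1 := ndB0q0) (n2 := ndB0q2) (pc := pcB2) (cut := cut_A00pp_022_s3) (xt := xt_A00pp_022_s3) (P1 := 0) (W1 := 536870912) (P2 := 0) (W2 := 536870912) (P3 := 649613803) (W3 := 48318383)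
    rfl t46_A00pp_022_s3

theorem s_A00pp_022_s3 {κ x : ℝ} (hκ : κ * h0 = ken x) (hx : ((649613803 : ℕ) : ℝ) / S ≤ x)
    (hx' : x ≤ (((649613803 : ℕ) : ℝ) + (48318383 : ℕ)) / S)
    (H : CutA (VFD κ) PP tK tL pcB (Cut.of [[⟨0, 0, 0, 53687091⟩, ⟨1, 1, 0, 53687091⟩, ⟨2, 1, 0, 53687091⟩]]) 0 2 2 0 0 (sgb true) (sgb true) x) :
    AltA (VFD κ) PP tK tL pcB [⟨4, 0, 0, 2845415833⟩] 0 2 2 0 0 (sgb true) (sgb true) x :=
  strip_altAD (m := 2845415833) false rfl hκ (SH.κ0 hκ (SH.hx1 hx).le (SH.hx2 hx').le) (SH.hx1 hx).le (SH.hx2 hx') (covB00).cov (covB02).cov hx hx' c_A00pp_022_s3 H ((okx6 hx hx').extA (T := tt) (okx hx hx') (sideB hx hx') hκ rfl rfl (.O 0 true) (.O 2 true) (Or.inl rfl))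

noncomputable def cut_A00pp_023_s1 : Cut := Cut.of [[⟨4, 0, 0, 1449551462⟩]]

noncomputable def f_A00pp_023_s1 : ℕ → ℕ → ℕ → ℕ → Bool := onCell 0 536870912 0 536870912 649613803 48318383
    (rowF 0 true true true .up 0 2 3 (qsf 0 536870912 0 536870912 3) ndB0q0 ndB0q2 pcB3 cut_A00pp_023_s1 Ext.none)

def k0_A00pp_023_s1 : ∃ t, chk3 f_A00pp_023_s1 t 1 1 1 = true :=
  ⟨(l 6), by decide +kernel⟩

theorem c_A00pp_023_s1 : CertF 0 536870912 0 536870912 649613803 48318383 true true true .up 0 2 3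
    ndB0q0 ndB0q2 pcB3 cut_A00pp_023_s1 Ext.none :=
  certF0 (fam := true) (s1 := true) (s2 := true) (a := 0) (b := 2) (c := 3) (cn := .up) (n1 := ndB0q0) (n2 := ndB0q2) (pc := pcB3) (cut := cut_A00pp_023_s1) (xt := Ext.none) (P1 := 0) (W1 := 536870912) (P2 := 0) (W2 := 536870912) (P3 := 649613803) (W3 := 48318383)
    rfl k0_A00pp_023_s1

theorem s_A00pp_023_s1 {κ x : ℝ} (hκ : κ * h0 = ken x) (hx : ((649613803 : ℕ) : ℝ) / S ≤ x)
    (hx' : x ≤ (((649613803 : ℕ) : ℝ) + (48318383 : ℕ)) / S) :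
    AltA (VFD κ) PP tK tL pcB [⟨3, 0, 0, 1449551462⟩] 0 2 3 0 0 (sgb true) (sgb true) x :=
  strip_altAD (m := 1449551462) true rfl hκ (SH.κ0 hκ (SH.hx1 hx).le (SH.hx2 hx').le) (SH.hx1 hx).le (SH.hx2 hx') (covB00).cov (covB02).cov hx hx' c_A00pp_023_s1 cutA_nil (noExt_A)

noncomputable def cut_A00pp_023_s3 : Cut := Cut.of [[⟨3, 0, 0, 2845415833⟩]]

noncomputable def xt_A00pp_023_s3 : Ext := strExt6 dd true true true .u0 .u2 .s2 .up 0 2 3 rfl rfl gl3 vv ww ndB0q0 ndB0q2

noncomputable def f_A00pp_023_s3 : ℕ → ℕ → ℕ → ℕ → Bool := onCell 1610612736 536870912 0 536870912 649613803 48318383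
    (rowF 2 true true true .up 0 2 3 (qsf 0 536870912 0 536870912 3) ndB0q0 ndB0q2 pcB3 cut_A00pp_023_s3 xt_A00pp_023_s3)

def k0_A00pp_023_s3 : ∃ t, chk3 f_A00pp_023_s3 t 1 1 1 = true :=
  ⟨(a (b (b (a (a (b (a (a (l 16769240) (l 16692304)) (a (l 16697496) (l 16701224))) (a (b (l 16712648) (a (l 16724728) (l 16733664))) (b (l 1069664783) (a (l 16741664) (l 1070148623))))) (b (a (a (l 16704296) (l 16791880)) (b (l 1069561871) (a (l 16726448) (l 16779168)))) (a (b (a (l 16735520) (l 16783632)) (b (l 1069842959) (l 1069875727))) (b (l 1070257679) (b (l 1069306895) (l 1069413391)))))) (a (a (b (b (l 1069862927) (l 1069666831)) (b (l 1069491727) (l 1069909519))) (b (l 2) (l 2))) (l 2))) (a (b (b (a (a (a (b (l 16737496) (l 16767264)) (b (l 16746640) (l 1069808143))) (a (b (l 16776048) (l 1069892623)) (b (l 1070094863) (l 1070063631)))) (a (a (l 1069451791) (l 1069825039)) (l 4))) (a (a (a (b (l 1069399567) (b (l 1069172751) (l 1069018639))) (b (l 1069491727)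 (l 1069156367))) (a (l 1069387279) (b (l 1069629967) (l 4)))) (l 4))) (a (b (a (a (b (b (l 1068862479) (l 1068702735)) (l 4)) (l 4)) (l 4)) (l 4)) (l 4))) (l 4))) (l 4)) (l 2)), by decide +kernel⟩

theorem c_A00pp_023_s3 : CertF 0 536870912 0 536870912 649613803 48318383 true true true .up 0 2 3
    ndB0q0 ndB0q2 pcB3 cut_A00pp_023_s3 xt_A00pp_023_s3 :=
  certF2 (fam := true) (s1 := true) (s2 := true) (a := 0) (b := 2) (c := 3) (cn := .up) (n1 := ndB0q0) (n2 := ndB0q2) (pc := pcB3) (cut := cut_A00pp_023_s3) (xt := xt_A00pp_023_s3) (P1 := 0) (W1 := 536870912) (P2 := 0) (W2 := 536870912) (P3 := 649613803) (W3 := 48318383)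
    rfl (fun _ => rfl) k0_A00pp_023_s3

theorem s_A00pp_023_s3 {κ x : ℝ} (hκ : κ * h0 = ken x) (hx : ((649613803 : ℕ) : ℝ) / S ≤ x)
    (hx' : x ≤ (((649613803 : ℕ) : ℝ) + (48318383 : ℕ)) / S) :
    AltA (VFD κ) PP tK tL pcB [⟨4, 0, 0, 2845415833⟩] 0 2 3 0 0 (sgb true) (sgb true) x :=
  strip_altAD (m := 2845415833) false rfl hκ (SH.κ0 hκ (SH.hx1 hx).le (SH.hx2 hx').le) (SH.hx1 hx).le (SH.hx2 hx') (covB00).cov (covB02).cov hx hx' c_A00pp_023_s3 cutA_nil ((okx6 hx hx').extA (T := tt) (okx hx hx') (sideB hx hx') hκ rfl rfl (.O 0 true) (.O 2 true) (Or.inr rfl))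

noncomputable def cut_A00pp_101_s1 : Cut := Cut.of [[⟨4, 0, 0, 1449551462⟩]]

noncomputable def f_A00pp_101_s1 : ℕ → ℕ → ℕ → ℕ → Bool := onCell 536870912 536870912 0 536870912 649613803 48318383
    (rowF 0 true true true .npn 1 0 1 (qsf 536870912 536870912 0 536870912 1) ndB0q1 ndB0q0 pcB1 cut_A00pp_101_s1 Ext.none)

def k0_A00pp_101_s1 : ∃ t, chk3 f_A00pp_101_s1 t 1 1 1 = true :=
  ⟨(l 6), by decide +kernel⟩

theorem c_A00pp_101_s1 : CertF 536870912 536870912 0 536870912 649613803 48318383 true true true .npn 1 0 1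
    ndB0q1 ndB0q0 pcB1 cut_A00pp_101_s1 Ext.none :=
  certF0 (fam := true) (s1 := true) (s2 := true) (a := 1) (b := 0) (c := 1) (cn := .npn) (n1 := ndB0q1) (n2 := ndB0q0) (pc := pcB1) (cut := cut_A00pp_101_s1) (xt := Ext.none) (P1 := 536870912) (W1 := 536870912) (P2 := 0) (W2 := 536870912) (P3 := 649613803) (W3 := 48318383)
    rfl k0_A00pp_101_s1

theorem s_A00pp_101_s1 {κ x : ℝ} (hκ : κ * h0 = ken x) (hx : ((649613803 : ℕ) : ℝ) / S ≤ x)
    (hx' : x ≤ (((649613803 : ℕ) : ℝ) + (48318383 : ℕ)) / S) :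
    AltA (VFD κ) PP tK tL pcB [⟨3, 0, 0, 1449551462⟩] 1 0 1 0 0 (sgb true) (sgb true) x :=
  strip_altAD (m := 1449551462) true rfl hκ (SH.κ0 hκ (SH.hx1 hx).le (SH.hx2 hx').le) (SH.hx1 hx).le (SH.hx2 hx') (covB01).cov (covB00).cov hx hx' c_A00pp_101_s1 cutA_nil (noExt_A)

noncomputable def cut_A00pp_101_s3 : Cut := Cut.of [[⟨3, 0, 0, 2845415833⟩]]

noncomputable def f_A00pp_101_s3 : ℕ → ℕ → ℕ → ℕ → Bool := onCell 536870912 536870912 0 536870912 649613803 48318383
    (rowF 0 true true true .npn 1 0 1 (qsf 536870912 536870912 0 536870912 1) ndB0q1 ndB0q0 pcB1 cut_A00pp_101_s3 Ext.none)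

def k0_A00pp_101_s3 : ∃ t, chk3 f_A00pp_101_s3 t 1 1 1 = true :=
  ⟨(a (l 4) (l 5)), by decide +kernel⟩

theorem c_A00pp_101_s3 : CertF 536870912 536870912 0 536870912 649613803 48318383 true true true .npn 1 0 1
    ndB0q1 ndB0q0 pcB1 cut_A00pp_101_s3 Ext.none :=
  certF0 (fam := true) (s1 := true) (s2 := true) (a := 1) (b := 0) (c := 1) (cn := .npn) (n1 := ndB0q1) (n2 := ndB0q0) (pc := pcB1) (cut := cut_A00pp_101_s3) (xt := Ext.none) (P1 := 536870912) (W1 := 536870912) (P2 := 0) (W2 := 536870912) (P3 := 649613803) (W3 := 48318383)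
    rfl k0_A00pp_101_s3

theorem s_A00pp_101_s3 {κ x : ℝ} (hκ : κ * h0 = ken x) (hx : ((649613803 : ℕ) : ℝ) / S ≤ x)
    (hx' : x ≤ (((649613803 : ℕ) : ℝ) + (48318383 : ℕ)) / S) :
    AltA (VFD κ) PP tK tL pcB [⟨4, 0, 0, 2845415833⟩] 1 0 1 0 0 (sgb true) (sgb true) x :=
  strip_altAD (m := 2845415833) false rfl hκ (SH.κ0 hκ (SH.hx1 hx).le (SH.hx2 hx').le) (SH.hx1 hx).le (SH.hx2 hx') (covB01).cov (covB00).cov hx hx' c_A00pp_101_s3 cutA_nil (noExt_A)

noncomputable def cut_A00pp_102_s1 : Cut := Cut.of [[⟨4, 0, 0, 1449551462⟩]]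

noncomputable def f_A00pp_102_s1 : ℕ → ℕ → ℕ → ℕ → Bool := onCell 536870912 536870912 0 536870912 649613803 48318383
    (rowF 0 true true true .npp 1 0 2 (qsf 536870912 536870912 0 536870912 2) ndB0q1 ndB0q0 pcB2 cut_A00pp_102_s1 Ext.none)

def k0_A00pp_102_s1 : ∃ t, chk3 f_A00pp_102_s1 t 1 1 1 = true :=
  ⟨(l 6), by decide +kernel⟩

theorem c_A00pp_102_s1 : CertF 536870912 536870912 0 536870912 649613803 48318383 true true true .npp 1 0 2
    ndB0q1 ndB0q0 pcB2 cut_A00pp_102_s1 Ext.none :=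
  certF0 (fam := true) (s1 := true) (s2 := true) (a := 1) (b := 0) (c := 2) (cn := .npp) (n1 := ndB0q1) (n2 := ndB0q0) (pc := pcB2) (cut := cut_A00pp_102_s1) (xt := Ext.none) (P1 := 536870912) (W1 := 536870912) (P2 := 0) (W2 := 536870912) (P3 := 649613803) (W3 := 48318383)
    rfl k0_A00pp_102_s1

theorem s_A00pp_102_s1 {κ x : ℝ} (hκ : κ * h0 = ken x) (hx : ((649613803 : ℕ) : ℝ) / S ≤ x)
    (hx' : x ≤ (((649613803 : ℕ) : ℝ) + (48318383 : ℕ)) / S) :
    AltA (VFD κ) PP tK tL pcB [⟨3, 0, 0, 1449551462⟩] 1 0 2 0 0 (sgb true) (sgb true) x :=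
  strip_altAD (m := 1449551462) true rfl hκ (SH.κ0 hκ (SH.hx1 hx).le (SH.hx2 hx').le) (SH.hx1 hx).le (SH.hx2 hx') (covB01).cov (covB00).cov hx hx' c_A00pp_102_s1 cutA_nil (noExt_A)

noncomputable def cut_A00pp_102_s3 : Cut := Cut.of [[⟨3, 0, 0, 2845415833⟩]]

noncomputable def f_A00pp_102_s3 : ℕ → ℕ → ℕ → ℕ → Bool := onCell 536870912 536870912 0 536870912 649613803 48318383
    (rowF 0 true true true .npp 1 0 2 (qsf 536870912 536870912 0 536870912 2) ndB0q1 ndB0q0 pcB2 cut_A00pp_102_s3 Ext.none)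

def k0_A00pp_102_s3 : ∃ t, chk3 f_A00pp_102_s3 t 1 1 1 = true :=
  ⟨(a (l 4) (l 5)), by decide +kernel⟩

theorem c_A00pp_102_s3 : CertF 536870912 536870912 0 536870912 649613803 48318383 true true true .npp 1 0 2
    ndB0q1 ndB0q0 pcB2 cut_A00pp_102_s3 Ext.none :=
  certF0 (fam := true) (s1 := true) (s2 := true) (a := 1) (b := 0) (c := 2) (cn := .npp) (n1 := ndB0q1) (n2 := ndB0q0) (pc := pcB2) (cut := cut_A00pp_102_s3) (xt := Ext.none) (P1 := 536870912) (W1 := 536870912) (P2 := 0) (W2 := 536870912) (P3 := 649613803) (W3 := 48318383)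
    rfl k0_A00pp_102_s3

theorem s_A00pp_102_s3 {κ x : ℝ} (hκ : κ * h0 = ken x) (hx : ((649613803 : ℕ) : ℝ) / S ≤ x)
    (hx' : x ≤ (((649613803 : ℕ) : ℝ) + (48318383 : ℕ)) / S) :
    AltA (VFD κ) PP tK tL pcB [⟨4, 0, 0, 2845415833⟩] 1 0 2 0 0 (sgb true) (sgb true) x :=
  strip_altAD (m := 2845415833) false rfl hκ (SH.κ0 hκ (SH.hx1 hx).le (SH.hx2 hx').le) (SH.hx1 hx).le (SH.hx2 hx') (covB01).cov (covB00).cov hx hx' c_A00pp_102_s3 cutA_nil (noExt_A)

noncomputable def cut_A00pp_112_s1 : Cut := Cut.of [[⟨4, 0, 0, 1449551462⟩]]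

noncomputable def f_A00pp_112_s1 : ℕ → ℕ → ℕ → ℕ → Bool := onCell 536870912 536870912 536870912 536870912 649613803 48318383
    (rowF 0 true true true .dn 1 1 2 (qsf 536870912 536870912 536870912 536870912 2) ndB0q1 ndB0q1 pcB2 cut_A00pp_112_s1 Ext.none)

def k0_A00pp_112_s1 : ∃ t, chk3 f_A00pp_112_s1 t 1 1 1 = true :=
  ⟨(l 4), by decide +kernel⟩

theorem c_A00pp_112_s1 : CertF 536870912 536870912 536870912 536870912 649613803 48318383 true true true .dn 1 1 2
    ndB0q1 ndB0q1 pcB2 cut_A00pp_112_s1 Ext.none :=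
  certF0 (fam := true) (s1 := true) (s2 := true) (a := 1) (b := 1) (c := 2) (cn := .dn) (n1 := ndB0q1) (n2 := ndB0q1) (pc := pcB2) (cut := cut_A00pp_112_s1) (xt := Ext.none) (P1 := 536870912) (W1 := 536870912) (P2 := 536870912) (W2 := 536870912) (P3 := 649613803) (W3 := 48318383)
    rfl k0_A00pp_112_s1

theorem s_A00pp_112_s1 {κ x : ℝ} (hκ : κ * h0 = ken x) (hx : ((649613803 : ℕ) : ℝ) / S ≤ x)
    (hx' : x ≤ (((649613803 : ℕ) : ℝ) + (48318383 : ℕ)) / S) :
    AltA (VFD κ) PP tK tL pcB [⟨3, 0, 0, 1449551462⟩] 1 1 2 0 0 (sgb true) (sgb true) x :=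
  strip_altAD (m := 1449551462) true rfl hκ (SH.κ0 hκ (SH.hx1 hx).le (SH.hx2 hx').le) (SH.hx1 hx).le (SH.hx2 hx') (covB01).cov (covB01).cov hx hx' c_A00pp_112_s1 cutA_nil (noExt_A)

noncomputable def cut_A00pp_112_s3 : Cut := Cut.of [[⟨3, 0, 0, 2845415833⟩]]

noncomputable def f_A00pp_112_s3 : ℕ → ℕ → ℕ → ℕ → Bool := onCell 536870912 536870912 536870912 536870912 649613803 48318383
    (rowF 0 true true true .dn 1 1 2 (qsf 536870912 536870912 536870912 536870912 2) ndB0q1 ndB0q1 pcB2 cut_A00pp_112_s3 Ext.none)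

def k0_A00pp_112_s3 : ∃ t, chk3 f_A00pp_112_s3 t 1 1 1 = true :=
  ⟨(l 4), by decide +kernel⟩

theorem c_A00pp_112_s3 : CertF 536870912 536870912 536870912 536870912 649613803 48318383 true true true .dn 1 1 2
    ndB0q1 ndB0q1 pcB2 cut_A00pp_112_s3 Ext.none :=
  certF0 (fam := true) (s1 := true) (s2 := true) (a := 1) (b := 1) (c := 2) (cn := .dn) (n1 := ndB0q1) (n2 := ndB0q1) (pc := pcB2) (cut := cut_A00pp_112_s3) (xt := Ext.none) (P1 := 536870912) (W1 := 536870912) (P2 := 536870912) (W2 := 536870912) (P3 := 649613803) (W3 := 48318383)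
    rfl k0_A00pp_112_s3

theorem s_A00pp_112_s3 {κ x : ℝ} (hκ : κ * h0 = ken x) (hx : ((649613803 : ℕ) : ℝ) / S ≤ x)
    (hx' : x ≤ (((649613803 : ℕ) : ℝ) + (48318383 : ℕ)) / S) :
    AltA (VFD κ) PP tK tL pcB [⟨4, 0, 0, 2845415833⟩] 1 1 2 0 0 (sgb true) (sgb true) x :=
  strip_altAD (m := 2845415833) false rfl hκ (SH.κ0 hκ (SH.hx1 hx).le (SH.hx2 hx').le) (SH.hx1 hx).le (SH.hx2 hx') (covB01).cov (covB01).cov hx hx' c_A00pp_112_s3 cutA_nil (noExt_A)

noncomputable def cut_A00pp_113_s1 : Cut := Cut.of [[⟨4, 0, 0, 1449551462⟩]]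

noncomputable def f_A00pp_113_s1 : ℕ → ℕ → ℕ → ℕ → Bool := onCell 536870912 536870912 536870912 536870912 649613803 48318383
    (rowF 0 true true true .nn 1 1 3 (qsf 536870912 536870912 536870912 536870912 3) ndB0q1 ndB0q1 pcB3 cut_A00pp_113_s1 Ext.none)

def k0_A00pp_113_s1 : ∃ t, chk3 f_A00pp_113_s1 t 1 1 1 = true :=
  ⟨(l 4), by decide +kernel⟩

theorem c_A00pp_113_s1 : CertF 536870912 536870912 536870912 536870912 649613803 48318383 true true true .nn 1 1 3
    ndB0q1 ndB0q1 pcB3 cut_A00pp_113_s1 Ext.none :=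
  certF0 (fam := true) (s1 := true) (s2 := true) (a := 1) (b := 1) (c := 3) (cn := .nn) (n1 := ndB0q1) (n2 := ndB0q1) (pc := pcB3) (cut := cut_A00pp_113_s1) (xt := Ext.none) (P1 := 536870912) (W1 := 536870912) (P2 := 536870912) (W2 := 536870912) (P3 := 649613803) (W3 := 48318383)
    rfl k0_A00pp_113_s1

theorem s_A00pp_113_s1 {κ x : ℝ} (hκ : κ * h0 = ken x) (hx : ((649613803 : ℕ) : ℝ) / S ≤ x)
    (hx' : x ≤ (((649613803 : ℕ) : ℝ) + (48318383 : ℕ)) / S) :
    AltA (VFD κ) PP tK tL pcB [⟨3, 0, 0, 1449551462⟩] 1 1 3 0 0 (sgb true) (sgb true) x :=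
  strip_altAD (m := 1449551462) true rfl hκ (SH.κ0 hκ (SH.hx1 hx).le (SH.hx2 hx').le) (SH.hx1 hx).le (SH.hx2 hx') (covB01).cov (covB01).cov hx hx' c_A00pp_113_s1 cutA_nil (noExt_A)

noncomputable def cut_A00pp_113_s3 : Cut := Cut.of [[⟨3, 0, 0, 2845415833⟩]]

noncomputable def f_A00pp_113_s3 : ℕ → ℕ → ℕ → ℕ → Bool := onCell 536870912 536870912 536870912 536870912 649613803 48318383
    (rowF 0 true true true .nn 1 1 3 (qsf 536870912 536870912 536870912 536870912 3) ndB0q1 ndB0q1 pcB3 cut_A00pp_113_s3 Ext.none)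

def k0_A00pp_113_s3 : ∃ t, chk3 f_A00pp_113_s3 t 1 1 1 = true :=
  ⟨(l 4), by decide +kernel⟩

theorem c_A00pp_113_s3 : CertF 536870912 536870912 536870912 536870912 649613803 48318383 true true true .nn 1 1 3
    ndB0q1 ndB0q1 pcB3 cut_A00pp_113_s3 Ext.none :=
  certF0 (fam := true) (s1 := true) (s2 := true) (a := 1) (b := 1) (c := 3) (cn := .nn) (n1 := ndB0q1) (n2 := ndB0q1) (pc := pcB3) (cut := cut_A00pp_113_s3) (xt := Ext.none) (P1 := 536870912) (W1 := 536870912) (P2 := 536870912) (W2 := 536870912) (P3 := 649613803) (W3 := 48318383)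
    rfl k0_A00pp_113_s3

theorem s_A00pp_113_s3 {κ x : ℝ} (hκ : κ * h0 = ken x) (hx : ((649613803 : ℕ) : ℝ) / S ≤ x)
    (hx' : x ≤ (((649613803 : ℕ) : ℝ) + (48318383 : ℕ)) / S) :
    AltA (VFD κ) PP tK tL pcB [⟨4, 0, 0, 2845415833⟩] 1 1 3 0 0 (sgb true) (sgb true) x :=
  strip_altAD (m := 2845415833) false rfl hκ (SH.κ0 hκ (SH.hx1 hx).le (SH.hx2 hx').le) (SH.hx1 hx).le (SH.hx2 hx') (covB01).cov (covB01).cov hx hx' c_A00pp_113_s3 cutA_nil (noExt_A)

noncomputable def cut_A00pp_123_s1 : Cut := Cut.of [[⟨4, 0, 0, 1449551462⟩]]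

noncomputable def f_A00pp_123_s1 : ℕ → ℕ → ℕ → ℕ → Bool := onCell 536870912 536870912 0 536870912 649613803 48318383
    (rowF 0 true true true .npn 1 2 3 (qsf 536870912 536870912 0 536870912 3) ndB0q1 ndB0q2 pcB3 cut_A00pp_123_s1 Ext.none)

def k0_A00pp_123_s1 : ∃ t, chk3 f_A00pp_123_s1 t 1 1 1 = true :=
  ⟨(l 6), by decide +kernel⟩

theorem c_A00pp_123_s1 : CertF 536870912 536870912 0 536870912 649613803 48318383 true true true .npn 1 2 3
    ndB0q1 ndB0q2 pcB3 cut_A00pp_123_s1 Ext.none :=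
  certF0 (fam := true) (s1 := true) (s2 := true) (a := 1) (b := 2) (c := 3) (cn := .npn) (n1 := ndB0q1) (n2 := ndB0q2) (pc := pcB3) (cut := cut_A00pp_123_s1) (xt := Ext.none) (P1 := 536870912) (W1 := 536870912) (P2 := 0) (W2 := 536870912) (P3 := 649613803) (W3 := 48318383)
    rfl k0_A00pp_123_s1

theorem s_A00pp_123_s1 {κ x : ℝ} (hκ : κ * h0 = ken x) (hx : ((649613803 : ℕ) : ℝ) / S ≤ x)
    (hx' : x ≤ (((649613803 : ℕ) : ℝ) + (48318383 : ℕ)) / S) :
    AltA (VFD κ) PP tK tL pcB [⟨3, 0, 0, 1449551462⟩] 1 2 3 0 0 (sgb true) (sgb true) x :=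
  strip_altAD (m := 1449551462) true rfl hκ (SH.κ0 hκ (SH.hx1 hx).le (SH.hx2 hx').le) (SH.hx1 hx).le (SH.hx2 hx') (covB01).cov (covB02).cov hx hx' c_A00pp_123_s1 cutA_nil (noExt_A)

noncomputable def cut_A00pp_123_s3 : Cut := Cut.of [[⟨3, 0, 0, 2845415833⟩]]

noncomputable def xt_A00pp_123_s3 : Ext := strExt6 dd true true true .u0 .u2 .s2 .npn 1 2 3 rfl rfl gl3 vv ww ndB0q1 ndB0q2

noncomputable def f_A00pp_123_s3 : ℕ → ℕ → ℕ → ℕ → Bool := onCell 536870912 536870912 0 536870912 649613803 48318383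
    (rowF 0 true true true .npn 1 2 3 (qsf 536870912 536870912 0 536870912 3) ndB0q1 ndB0q2 pcB3 cut_A00pp_123_s3 xt_A00pp_123_s3)

def k0_A00pp_123_s3 : ∃ t, chk3 f_A00pp_123_s3 t 1 1 1 = true :=
  ⟨(a (b (a (b (a (b (a (b (l 1070515727) (l 1070293519)) (b (l 1071343631) (l 1071131151))) (b (a (l 1070129679) (l 4)) (l 4))) (b (a (b (l 1071950351) (l 4)) (l 4)) (l 4))) (l 4)) (l 4)) (l 4)) (l 4)), by decide +kernel⟩

theorem c_A00pp_123_s3 : CertF 536870912 536870912 0 536870912 649613803 48318383 true true true .npn 1 2 3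
    ndB0q1 ndB0q2 pcB3 cut_A00pp_123_s3 xt_A00pp_123_s3 :=
  certF0 (fam := true) (s1 := true) (s2 := true) (a := 1) (b := 2) (c := 3) (cn := .npn) (n1 := ndB0q1) (n2 := ndB0q2) (pc := pcB3) (cut := cut_A00pp_123_s3) (xt := xt_A00pp_123_s3) (P1 := 536870912) (W1 := 536870912) (P2 := 0) (W2 := 536870912) (P3 := 649613803) (W3 := 48318383)
    rfl k0_A00pp_123_s3

theorem s_A00pp_123_s3 {κ x : ℝ} (hκ : κ * h0 = ken x) (hx : ((649613803 : ℕ) : ℝ) / S ≤ x)
    (hx' : x ≤ (((649613803 : ℕ) : ℝ) + (48318383 : ℕ)) / S) :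
    AltA (VFD κ) PP tK tL pcB [⟨4, 0, 0, 2845415833⟩] 1 2 3 0 0 (sgb true) (sgb true) x :=
  strip_altAD (m := 2845415833) false rfl hκ (SH.κ0 hκ (SH.hx1 hx).le (SH.hx2 hx').le) (SH.hx1 hx).le (SH.hx2 hx') (covB01).cov (covB02).cov hx hx' c_A00pp_123_s3 cutA_nil ((okx6 hx hx').extA (T := tt) (okx hx hx') (sideB hx hx') hκ rfl rfl (.O 1 true) (.O 2 true) (Or.inr rfl))

noncomputable def cut_A00pp_202_s1 : Cut := Cut.of [[⟨4, 0, 0, 1449551462⟩]]

noncomputable def f_A00pp_202_s1 : ℕ → ℕ → ℕ → ℕ → Bool := onCell 0 536870912 0 536870912 649613803 48318383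
    (rowF 0 true true true .pp 2 0 2 (qsf 0 536870912 0 536870912 2) ndB0q2 ndB0q0 pcB2 cut_A00pp_202_s1 Ext.none)

def k0_A00pp_202_s1 : ∃ t, chk3 f_A00pp_202_s1 t 1 1 1 = true :=
  ⟨(l 5), by decide +kernel⟩

theorem c_A00pp_202_s1 : CertF 0 536870912 0 536870912 649613803 48318383 true true true .pp 2 0 2
    ndB0q2 ndB0q0 pcB2 cut_A00pp_202_s1 Ext.none :=
  certF0 (fam := true) (s1 := true) (s2 := true) (a := 2) (b := 0) (c := 2) (cn := .pp) (n1 := ndB0q2) (n2 := ndB0q0) (pc := pcB2) (cut := cut_A00pp_202_s1) (xt := Ext.none) (P1 := 0) (W1 := 536870912) (P2 := 0) (W2 := 536870912) (P3 := 649613803) (W3 := 48318383)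
    rfl k0_A00pp_202_s1

theorem s_A00pp_202_s1 {κ x : ℝ} (hκ : κ * h0 = ken x) (hx : ((649613803 : ℕ) : ℝ) / S ≤ x)
    (hx' : x ≤ (((649613803 : ℕ) : ℝ) + (48318383 : ℕ)) / S) :
    AltA (VFD κ) PP tK tL pcB [⟨3, 0, 0, 1449551462⟩] 2 0 2 0 0 (sgb true) (sgb true) x :=
  strip_altAD (m := 1449551462) true rfl hκ (SH.κ0 hκ (SH.hx1 hx).le (SH.hx2 hx').le) (SH.hx1 hx).le (SH.hx2 hx') (covB02).cov (covB00).cov hx hx' c_A00pp_202_s1 cutA_nil (noExt_A)

noncomputable def cut_A00pp_202_s3 : Cut := Cut.of [[⟨3, 0, 0, 2845415833⟩]]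

noncomputable def f_A00pp_202_s3 : ℕ → ℕ → ℕ → ℕ → Bool := onCell 0 536870912 0 536870912 649613803 48318383
    (rowF 0 true true true .pp 2 0 2 (qsf 0 536870912 0 536870912 2) ndB0q2 ndB0q0 pcB2 cut_A00pp_202_s3 Ext.none)

def k0_A00pp_202_s3 : ∃ t, chk3 f_A00pp_202_s3 t 1 1 1 = true :=
  ⟨(l 5), by decide +kernel⟩

theorem c_A00pp_202_s3 : CertF 0 536870912 0 536870912 649613803 48318383 true true true .pp 2 0 2
    ndB0q2 ndB0q0 pcB2 cut_A00pp_202_s3 Ext.none :=
  certF0 (fam := true) (s1 := true) (s2 := true) (a := 2) (b := 0) (c := 2) (cn := .pp) (n1 := ndB0q2) (n2 := ndB0q0) (pc := pcB2) (cut := cut_A00pp_202_s3) (xt := Ext.none) (P1 := 0) (W1 := 536870912) (P2 := 0) (W2 := 536870912) (P3 := 649613803) (W3 := 48318383)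
    rfl k0_A00pp_202_s3

theorem s_A00pp_202_s3 {κ x : ℝ} (hκ : κ * h0 = ken x) (hx : ((649613803 : ℕ) : ℝ) / S ≤ x)
    (hx' : x ≤ (((649613803 : ℕ) : ℝ) + (48318383 : ℕ)) / S) :
    AltA (VFD κ) PP tK tL pcB [⟨4, 0, 0, 2845415833⟩] 2 0 2 0 0 (sgb true) (sgb true) x :=
  strip_altAD (m := 2845415833) false rfl hκ (SH.κ0 hκ (SH.hx1 hx).le (SH.hx2 hx').le) (SH.hx1 hx).le (SH.hx2 hx') (covB02).cov (covB00).cov hx hx' c_A00pp_202_s3 cutA_nil (noExt_A)

noncomputable def cut_A00pp_203_s1 : Cut := Cut.of [[⟨4, 0, 0, 1449551462⟩]]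

noncomputable def f_A00pp_203_s1 : ℕ → ℕ → ℕ → ℕ → Bool := onCell 0 536870912 0 536870912 649613803 48318383
    (rowF 0 true true true .up 2 0 3 (qsf 0 536870912 0 536870912 3) ndB0q2 ndB0q0 pcB3 cut_A00pp_203_s1 Ext.none)

def k0_A00pp_203_s1 : ∃ t, chk3 f_A00pp_203_s1 t 1 1 1 = true :=
  ⟨(l 5), by decide +kernel⟩

theorem c_A00pp_203_s1 : CertF 0 536870912 0 536870912 649613803 48318383 true true true .up 2 0 3
    ndB0q2 ndB0q0 pcB3 cut_A00pp_203_s1 Ext.none :=
  certF0 (fam := true) (s1 := true) (s2 := true) (a := 2) (b := 0) (c := 3) (cn := .up) (n1 := ndB0q2) (n2 := ndB0q0) (pc := pcB3) (cut := cut_A00pp_203_s1) (xt := Ext.none) (P1 := 0) (W1 := 536870912) (P2 := 0) (W2 := 536870912) (P3 := 649613803) (W3 := 48318383)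
    rfl k0_A00pp_203_s1

theorem s_A00pp_203_s1 {κ x : ℝ} (hκ : κ * h0 = ken x) (hx : ((649613803 : ℕ) : ℝ) / S ≤ x)
    (hx' : x ≤ (((649613803 : ℕ) : ℝ) + (48318383 : ℕ)) / S) :
    AltA (VFD κ) PP tK tL pcB [⟨3, 0, 0, 1449551462⟩] 2 0 3 0 0 (sgb true) (sgb true) x :=
  strip_altAD (m := 1449551462) true rfl hκ (SH.κ0 hκ (SH.hx1 hx).le (SH.hx2 hx').le) (SH.hx1 hx).le (SH.hx2 hx') (covB02).cov (covB00).cov hx hx' c_A00pp_203_s1 cutA_nil (noExt_A)

noncomputable def cut_A00pp_203_s3 : Cut := Cut.of [[⟨3, 0, 0, 2845415833⟩]]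

noncomputable def f_A00pp_203_s3 : ℕ → ℕ → ℕ → ℕ → Bool := onCell 0 536870912 0 536870912 649613803 48318383
    (rowF 0 true true true .up 2 0 3 (qsf 0 536870912 0 536870912 3) ndB0q2 ndB0q0 pcB3 cut_A00pp_203_s3 Ext.none)

def k0_A00pp_203_s3 : ∃ t, chk3 f_A00pp_203_s3 t 1 1 1 = true :=
  ⟨(l 5), by decide +kernel⟩

theorem c_A00pp_203_s3 : CertF 0 536870912 0 536870912 649613803 48318383 true true true .up 2 0 3
    ndB0q2 ndB0q0 pcB3 cut_A00pp_203_s3 Ext.none :=
  certF0 (fam := true) (s1 := true) (s2 := true) (a := 2) (b := 0) (c := 3) (cn := .up) (n1 := ndB0q2) (n2 := ndB0q0) (pc := pcB3) (cut := cut_A00pp_203_s3) (xt := Ext.none) (P1 := 0) (W1 := 536870912) (P2 := 0) (W2 := 536870912) (P3 := 649613803) (W3 := 48318383)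
    rfl k0_A00pp_203_s3

theorem s_A00pp_203_s3 {κ x : ℝ} (hκ : κ * h0 = ken x) (hx : ((649613803 : ℕ) : ℝ) / S ≤ x)
    (hx' : x ≤ (((649613803 : ℕ) : ℝ) + (48318383 : ℕ)) / S) :
    AltA (VFD κ) PP tK tL pcB [⟨4, 0, 0, 2845415833⟩] 2 0 3 0 0 (sgb true) (sgb true) x :=
  strip_altAD (m := 2845415833) false rfl hκ (SH.κ0 hκ (SH.hx1 hx).le (SH.hx2 hx').le) (SH.hx1 hx).le (SH.hx2 hx') (covB02).cov (covB00).cov hx hx' c_A00pp_203_s3 cutA_nil (noExt_A)

noncomputable def cut_A00pp_213_s1 : Cut := Cut.of [[⟨4, 0, 0, 1449551462⟩]]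

noncomputable def f_A00pp_213_s1 : ℕ → ℕ → ℕ → ℕ → Bool := onCell 0 536870912 536870912 536870912 649613803 48318383
    (rowF 0 true true true .pnn 2 1 3 (qsf 0 536870912 536870912 536870912 3) ndB0q2 ndB0q1 pcB3 cut_A00pp_213_s1 Ext.none)

def k0_A00pp_213_s1 : ∃ t, chk3 f_A00pp_213_s1 t 1 1 1 = true :=
  ⟨(l 6), by decide +kernel⟩

theorem c_A00pp_213_s1 : CertF 0 536870912 536870912 536870912 649613803 48318383 true true true .pnn 2 1 3
    ndB0q2 ndB0q1 pcB3 cut_A00pp_213_s1 Ext.none :=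
  certF0 (fam := true) (s1 := true) (s2 := true) (a := 2) (b := 1) (c := 3) (cn := .pnn) (n1 := ndB0q2) (n2 := ndB0q1) (pc := pcB3) (cut := cut_A00pp_213_s1) (xt := Ext.none) (P1 := 0) (W1 := 536870912) (P2 := 536870912) (W2 := 536870912) (P3 := 649613803) (W3 := 48318383)
    rfl k0_A00pp_213_s1

theorem s_A00pp_213_s1 {κ x : ℝ} (hκ : κ * h0 = ken x) (hx : ((649613803 : ℕ) : ℝ) / S ≤ x)
    (hx' : x ≤ (((649613803 : ℕ) : ℝ) + (48318383 : ℕ)) / S) :
    AltA (VFD κ) PP tK tL pcB [⟨3, 0, 0, 1449551462⟩] 2 1 3 0 0 (sgb true) (sgb true) x :=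
  strip_altAD (m := 1449551462) true rfl hκ (SH.κ0 hκ (SH.hx1 hx).le (SH.hx2 hx').le) (SH.hx1 hx).le (SH.hx2 hx') (covB02).cov (covB01).cov hx hx' c_A00pp_213_s1 cutA_nil (noExt_A)

noncomputable def cut_A00pp_213_s3 : Cut := Cut.of [[⟨3, 0, 0, 2845415833⟩]]

noncomputable def f_A00pp_213_s3 : ℕ → ℕ → ℕ → ℕ → Bool := onCell 0 536870912 536870912 536870912 649613803 48318383
    (rowF 0 true true true .pnn 2 1 3 (qsf 0 536870912 536870912 536870912 3) ndB0q2 ndB0q1 pcB3 cut_A00pp_213_s3 Ext.none)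

def k0_A00pp_213_s3 : ∃ t, chk3 f_A00pp_213_s3 t 1 1 1 = true :=
  ⟨(a (l 5) (l 4)), by decide +kernel⟩

theorem c_A00pp_213_s3 : CertF 0 536870912 536870912 536870912 649613803 48318383 true true true .pnn 2 1 3
    ndB0q2 ndB0q1 pcB3 cut_A00pp_213_s3 Ext.none :=
  certF0 (fam := true) (s1 := true) (s2 := true) (a := 2) (b := 1) (c := 3) (cn := .pnn) (n1 := ndB0q2) (n2 := ndB0q1) (pc := pcB3) (cut := cut_A00pp_213_s3) (xt := Ext.none) (P1 := 0) (W1 := 536870912) (P2 := 536870912) (W2 := 536870912) (P3 := 649613803) (W3 := 48318383)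
    rfl k0_A00pp_213_s3

theorem s_A00pp_213_s3 {κ x : ℝ} (hκ : κ * h0 = ken x) (hx : ((649613803 : ℕ) : ℝ) / S ≤ x)
    (hx' : x ≤ (((649613803 : ℕ) : ℝ) + (48318383 : ℕ)) / S) :
    AltA (VFD κ) PP tK tL pcB [⟨4, 0, 0, 2845415833⟩] 2 1 3 0 0 (sgb true) (sgb true) x :=
  strip_altAD (m := 2845415833) false rfl hκ (SH.κ0 hκ (SH.hx1 hx).le (SH.hx2 hx').le) (SH.hx1 hx).le (SH.hx2 hx') (covB02).cov (covB01).cov hx hx' c_A00pp_213_s3 cutA_nil (noExt_A)

noncomputable def cut_A00pm_001_s1 : Cut := Cut.of [[⟨4, 0, 0, 1449551462⟩]]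

noncomputable def f_A00pm_001_s1 : ℕ → ℕ → ℕ → ℕ → Bool := onCell 0 536870912 0 536870912 649613803 48318383
    (rowF 0 true true false .up 0 0 1 (qsf 0 536870912 0 536870912 1) ndB0q0 ndB0q0 pcB1 cut_A00pm_001_s1 Ext.none)

def k0_A00pm_001_s1 : ∃ t, chk3 f_A00pm_001_s1 t 1 1 1 = true :=
  ⟨(l 3), by decide +kernel⟩

theorem c_A00pm_001_s1 : CertF 0 536870912 0 536870912 649613803 48318383 true true false .up 0 0 1
    ndB0q0 ndB0q0 pcB1 cut_A00pm_001_s1 Ext.none :=
  certF0 (fam := true) (s1 := true) (s2 := false) (a := 0) (b := 0) (c := 1) (cn := .up) (n1 := ndB0q0) (n2 := ndB0q0) (pc := pcB1) (cut := cut_A00pm_001_s1) (xt := Ext.none) (P1 := 0) (W1 := 536870912) (P2 := 0) (W2 := 536870912) (P3 := 649613803) (W3 := 48318383)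
    rfl k0_A00pm_001_s1

theorem s_A00pm_001_s1 {κ x : ℝ} (hκ : κ * h0 = ken x) (hx : ((649613803 : ℕ) : ℝ) / S ≤ x)
    (hx' : x ≤ (((649613803 : ℕ) : ℝ) + (48318383 : ℕ)) / S) :
    AltA (VFD κ) PP tK tL pcB [⟨3, 0, 0, 1449551462⟩] 0 0 1 0 0 (sgb true) (sgb false) x :=
  strip_altAD (m := 1449551462) true rfl hκ (SH.κ0 hκ (SH.hx1 hx).le (SH.hx2 hx').le) (SH.hx1 hx).le (SH.hx2 hx') (covB00).cov (covB00).cov hx hx' c_A00pm_001_s1 cutA_nil (noExt_A)

noncomputable def cut_A00pm_001_s3 : Cut := Cut.of [[⟨3, 0, 0, 2845415833⟩]]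

noncomputable def f_A00pm_001_s3 : ℕ → ℕ → ℕ → ℕ → Bool := onCell 0 536870912 0 536870912 649613803 48318383
    (rowF 0 true true false .up 0 0 1 (qsf 0 536870912 0 536870912 1) ndB0q0 ndB0q0 pcB1 cut_A00pm_001_s3 Ext.none)

def k0_A00pm_001_s3 : ∃ t, chk3 f_A00pm_001_s3 t 1 1 1 = true :=
  ⟨(l 3), by decide +kernel⟩

theorem c_A00pm_001_s3 : CertF 0 536870912 0 536870912 649613803 48318383 true true false .up 0 0 1
    ndB0q0 ndB0q0 pcB1 cut_A00pm_001_s3 Ext.none :=
  certF0 (fam := true) (s1 := true) (s2 := false) (a := 0) (b := 0) (c := 1) (cn := .up) (n1 := ndB0q0) (n2 := ndB0q0) (pc := pcB1) (cut := cut_A00pm_001_s3) (xt := Ext.none) (P1 := 0) (W1 := 536870912) (P2 := 0) (W2 := 536870912) (P3 := 649613803) (W3 := 48318383)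
    rfl k0_A00pm_001_s3

theorem s_A00pm_001_s3 {κ x : ℝ} (hκ : κ * h0 = ken x) (hx : ((649613803 : ℕ) : ℝ) / S ≤ x)
    (hx' : x ≤ (((649613803 : ℕ) : ℝ) + (48318383 : ℕ)) / S) :
    AltA (VFD κ) PP tK tL pcB [⟨4, 0, 0, 2845415833⟩] 0 0 1 0 0 (sgb true) (sgb false) x :=
  strip_altAD (m := 2845415833) false rfl hκ (SH.κ0 hκ (SH.hx1 hx).le (SH.hx2 hx').le) (SH.hx1 hx).le (SH.hx2 hx') (covB00).cov (covB00).cov hx hx' c_A00pm_001_s3 cutA_nil (noExt_A)

noncomputable def cut_A00pm_011_s1 : Cut := Cut.of [[⟨4, 0, 0, 1449551462⟩], [⟨0, 0, 0, 67108864⟩, ⟨1, 1, 0, 67108864⟩, ⟨2, 1, 0, 67108864⟩]]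

noncomputable def f_A00pm_011_s1 : ℕ → ℕ → ℕ → ℕ → Bool := onCell 536870912 536870912 536870912 536870912 649613803 48318383
    (rowF 2 true true false .pnn 0 1 1 (qsf 0 536870912 536870912 536870912 1) ndB0q0 ndB0q1 pcB1 cut_A00pm_011_s1 Ext.none)

def k0_A00pm_011_s1 : ∃ t, chk3 f_A00pm_011_s1 t 1 1 1 = true :=
  ⟨(a (l 3) (b (l 3) (a (l 3) (b (l 3) (a (l 3) (b (l 3) (a (l 3) (b (l 3) (l 14))))))))), by decide +kernel⟩

theorem c_A00pm_011_s1 : CertF 0 536870912 536870912 536870912 649613803 48318383 true true false .pnn 0 1 1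
    ndB0q0 ndB0q1 pcB1 cut_A00pm_011_s1 Ext.none :=
  certF2 (fam := true) (s1 := true) (s2 := false) (a := 0) (b := 1) (c := 1) (cn := .pnn) (n1 := ndB0q0) (n2 := ndB0q1) (pc := pcB1) (cut := cut_A00pm_011_s1) (xt := Ext.none) (P1 := 0) (W1 := 536870912) (P2 := 536870912) (W2 := 536870912) (P3 := 649613803) (W3 := 48318383)
    rfl (fun _ => rfl) k0_A00pm_011_s1

theorem s_A00pm_011_s1 {κ x : ℝ} (hκ : κ * h0 = ken x) (hx : ((649613803 : ℕ) : ℝ) / S ≤ x)
    (hx' : x ≤ (((649613803 : ℕ) : ℝ) + (48318383 : ℕ)) / S)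
    (H : CutA (VFD κ) PP tK tL pcB (Cut.of [[⟨0, 0, 0, 67108864⟩, ⟨1, 1, 0, 67108864⟩, ⟨2, 1, 0, 67108864⟩]]) 0 1 1 0 0 (sgb true) (sgb false) x) :
    AltA (VFD κ) PP tK tL pcB [⟨3, 0, 0, 1449551462⟩] 0 1 1 0 0 (sgb true) (sgb false) x :=
  strip_altAD (m := 1449551462) true rfl hκ (SH.κ0 hκ (SH.hx1 hx).le (SH.hx2 hx').le) (SH.hx1 hx).le (SH.hx2 hx') (covB00).cov (covB01).cov hx hx' c_A00pm_011_s1 H (noExt_A)

noncomputable def cut_A00pm_011_s3 : Cut := Cut.of [[⟨3, 0, 0, 2845415833⟩], [⟨0, 0, 0, 67108864⟩, ⟨1, 1, 0, 67108864⟩, ⟨2, 1, 0, 67108864⟩]]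

noncomputable def f_A00pm_011_s3 : ℕ → ℕ → ℕ → ℕ → Bool := onCell 0 536870912 536870912 536870912 649613803 48318383
    (rowF 0 true true false .pnn 0 1 1 (qsf 0 536870912 536870912 536870912 1) ndB0q0 ndB0q1 pcB1 cut_A00pm_011_s3 Ext.none)

def k0_A00pm_011_s3 : ∃ t, chk3 f_A00pm_011_s3 t 1 1 1 = true :=
  ⟨(l 6), by decide +kernel⟩

theorem c_A00pm_011_s3 : CertF 0 536870912 536870912 536870912 649613803 48318383 true true false .pnn 0 1 1
    ndB0q0 ndB0q1 pcB1 cut_A00pm_011_s3 Ext.none :=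
  certF0 (fam := true) (s1 := true) (s2 := false) (a := 0) (b := 1) (c := 1) (cn := .pnn) (n1 := ndB0q0) (n2 := ndB0q1) (pc := pcB1) (cut := cut_A00pm_011_s3) (xt := Ext.none) (P1 := 0) (W1 := 536870912) (P2 := 536870912) (W2 := 536870912) (P3 := 649613803) (W3 := 48318383)
    rfl k0_A00pm_011_s3

theorem s_A00pm_011_s3 {κ x : ℝ} (hκ : κ * h0 = ken x) (hx : ((649613803 : ℕ) : ℝ) / S ≤ x)
    (hx' : x ≤ (((649613803 : ℕ) : ℝ) + (48318383 : ℕ)) / S)
    (H : CutA (VFD κ) PP tK tL pcB (Cut.of [[⟨0, 0, 0, 67108864⟩, ⟨1, 1, 0, 67108864⟩, ⟨2, 1, 0, 67108864⟩]]) 0 1 1 0 0 (sgb true) (sgb false) x) :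
    AltA (VFD κ) PP tK tL pcB [⟨4, 0, 0, 2845415833⟩] 0 1 1 0 0 (sgb true) (sgb false) x :=
  strip_altAD (m := 2845415833) false rfl hκ (SH.κ0 hκ (SH.hx1 hx).le (SH.hx2 hx').le) (SH.hx1 hx).le (SH.hx2 hx') (covB00).cov (covB01).cov hx hx' c_A00pm_011_s3 H (noExt_A)

noncomputable def cut_A00pm_012_s3 : Cut := Cut.of [[⟨3, 0, 0, 2845415833⟩], [⟨0, 0, 0, 33554432⟩, ⟨1, 1, 0, 33554432⟩, ⟨2, 1, 0, 33554432⟩]]

noncomputable def f_A00pm_012_s3 : ℕ → ℕ → ℕ → ℕ → Bool := onCell 0 536870912 536870912 536870912 649613803 48318383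
    (rowF 0 true true false .pnp 0 1 2 (qsf 0 536870912 536870912 536870912 2) ndB0q0 ndB0q1 pcB2 cut_A00pm_012_s3 Ext.none)

def k0_A00pm_012_s3 : ∃ t, chk3 f_A00pm_012_s3 t 1 1 1 = true :=
  ⟨(l 6), by decide +kernel⟩

theorem c_A00pm_012_s3 : CertF 0 536870912 536870912 536870912 649613803 48318383 true true false .pnp 0 1 2
    ndB0q0 ndB0q1 pcB2 cut_A00pm_012_s3 Ext.none :=
  certF0 (fam := true) (s1 := true) (s2 := false) (a := 0) (b := 1) (c := 2) (cn := .pnp) (n1 := ndB0q0) (n2 := ndB0q1) (pc := pcB2) (cut := cut_A00pm_012_s3) (xt := Ext.none) (P1 := 0) (W1 := 536870912) (P2 := 536870912) (W2 := 536870912) (P3 := 649613803) (W3 := 48318383)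
    rfl k0_A00pm_012_s3

theorem s_A00pm_012_s3 {κ x : ℝ} (hκ : κ * h0 = ken x) (hx : ((649613803 : ℕ) : ℝ) / S ≤ x)
    (hx' : x ≤ (((649613803 : ℕ) : ℝ) + (48318383 : ℕ)) / S)
    (H : CutA (VFD κ) PP tK tL pcB (Cut.of [[⟨0, 0, 0, 33554432⟩, ⟨1, 1, 0, 33554432⟩, ⟨2, 1, 0, 33554432⟩]]) 0 1 2 0 0 (sgb true) (sgb false) x) :
    AltA (VFD κ) PP tK tL pcB [⟨4, 0, 0, 2845415833⟩] 0 1 2 0 0 (sgb true) (sgb false) x :=
  strip_altAD (m := 2845415833) false rfl hκ (SH.κ0 hκ (SH.hx1 hx).le (SH.hx2 hx').le) (SH.hx1 hx).le (SH.hx2 hx') (covB00).cov (covB01).cov hx hx' c_A00pm_012_s3 H (noExt_A)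

noncomputable def cut_A00pm_022_s1 : Cut := Cut.of [[⟨4, 0, 0, 1449551462⟩], [⟨0, 0, 0, 67108864⟩, ⟨1, 1, 0, 67108864⟩, ⟨2, 1, 0, 67108864⟩]]

noncomputable def f_A00pm_022_s1 : ℕ → ℕ → ℕ → ℕ → Bool := onCell 1073741824 536870912 0 536870912 649613803 48318383
    (rowF 2 true true false .pp 0 2 2 (qsf 0 536870912 0 536870912 2) ndB0q0 ndB0q2 pcB2 cut_A00pm_022_s1 Ext.none)

def k0_A00pm_022_s1 : ∃ t, chk3 f_A00pm_022_s1 t 4 2 1 = true :=
  ⟨(a (l 1) (l 6)), by decide +kernel⟩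

def k1_A00pm_022_s1 : ∃ t, chk3 f_A00pm_022_s1 t 4 3 1 = true :=
  ⟨(a (b (l 1) (a (b (l 1) (l 14)) (a (b (b (l 1) (l 14)) (l 14)) (a (b (b (l 1) (l 14)) (l 14)) (a (b (b (l 16652928) (l 14)) (l 14)) (b (b (c (l 16634744) (l 16627104)) (c (l 16662096) (l 16698936))) (b (b (l 16679896) (l 16692256)) (b (l 16697672) (b (l 16701152) (l 16703112)))))))))) (b (b (a (l 1) (l 6)) (a (b (a (l 1) (a (l 16592616) (b (l 16565512) (l 16578944)))) (a (b (l 16592736) (l 16618024)) (b (a (l 16592592) (l 16508136)) (c (l 16608648) (l 16601488))))) (a (b (a (b (l 16487688) (l 16495016)) (b (l 6) (l 16578520))) (b (l 16590576) (l 16602032))) (b (l 6) (l 16591128))))) (b (a (c (a (b (b (l 16625224) (l 16638328)) (b (l 16650992) (l 16663264))) (b (l 16626592) (l 16668360))) (b (a (b (l 16617784) (l 16632104)) (a (l 16622256) (l 16620024))) (a (b (l 16645960) (l 16659416)) (l 16645720)))) (a (b (l 16660504) (a (l 16636696) (l 16628808))) (b (l 16625624) (b (l 16614280)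 (l 16620272))))) (b (a (b (a (l 16705432) (l 16700144)) (a (c (l 16680544) (l 16682144)) (c (l 16663584) (l 16664296)))) (a (c (b (l 16683344) (l 16647200)) (b (l 16642176) (l 16688856))) (b (a (l 16629576) (l 16621840)) (l 16651640)))) (a (b (a (b (l 16685232) (a (l 16692144) (l 16683160))) (a (l 16673128) (l 16664392))) (b (a (b (l 16710296) (l 16700832)) (b (l 16671408) (l 16693312))) (a (a (a (l 16698536) (l 16693968)) (l 16692368)) (a (a (l 16680280) (l 16675784)) (l 16679600))))) (b (a (b (l 16650432) (l 16652552)) (b (l 16633960) (l 16656864))) (a (a (b (l 16658680) (l 16670744)) (b (l 16650080) (l 16662048))) (a (b (l 16641648) (l 16643032)) (b (l 16633384) (l 16634664)))))))))), by decide +kernel⟩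

def k2_A00pm_022_s1 : ∃ t, chk3 f_A00pm_022_s1 t 5 2 1 = true :=
  ⟨(l 6), by decide +kernel⟩

def k3_A00pm_022_s1 : ∃ t, chk3 f_A00pm_022_s1 t 5 6 1 = true :=
  ⟨(a (a (a (b (l 6) (b (l 6) (l 16578040))) (l 6)) (l 6)) (l 6)), by decide +kernel⟩

def k4_A00pm_022_s1 : ∃ t, chk3 f_A00pm_022_s1 t 10 14 1 = true :=
  ⟨(b (a (a (a (l 16594192) (l 16587592)) (a (l 16602328) (a (l 16577008) (a (l 16575160) (b (l 6) (l 16577184)))))) (a (l 6) (l 6))) (a (a (c (l 16645304) (l 16603080)) (a (l 16634840) (a (l 16588328) (a (l 16586440) (b (l 16582880) (l 16630080)))))) (a (b (l 16575632) (l 16580584)) (l 16568144)))), by decide +kernel⟩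

def k5_A00pm_022_s1 : ∃ t, chk3 f_A00pm_022_s1 t 10 15 1 = true :=
  ⟨(a (a (a (b (c (l 16617848) (l 16616112)) (b (l 16623000) (c (l 16628184) (l 16644896)))) (b (b (l 16607128) (l 16611584)) (b (l 16615384) (c (l 16620544) (l 16615848))))) (b (b (a (l 16600296) (a (l 16595552) (a (l 16593616) (c (l 16636304) (l 16633544))))) (a (l 16604560) (a (l 16599680) (a (l 16597704) (a (a (a (l 16597200) (l 16639504)) (l 16597272)) (l 16596568)))))) (a (a (b (l 16609840) (a (l 16613328) (l 16611480))) (b (l 16606344) (a (l 16609664) (l 16607896)))) (c (b (a (l 16605352) (a (l 16603304) (a (a (a (l 16602744) (a (l 16602784) (l 16603016))) (l 16602784)) (l 16602072)))) (b (a (l 16607520) (a (l 16605408) (a (a (a (l 16604832) (a (l 16604880) (l 16605120))) (l 16604880)) (l 16604144)))) (c (a (l 16609960) (a (l 16607760) (a (a (a (l 16607128) (a (l 16607160) (a (a (l 16607232) (l 16607392)) (l 16607408)))) (l 16607128)) (l 16606384)))) (a (l 16607168) (a (l 16605040)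 (a (a (a (l 16604488) (a (l 16604560) (a (a (l 16604672) (l 16604856)) (l 16604864)))) (l 16604576)) (l 16603816))))))) (a (b (l 16601016) (b (l 16602504) (l 16603040))) (a (b (l 16598976) (b (l 16600432) (a (l 16601096) (l 16600600)))) (a (a (a (b (l 16598496) (l 16600264)) (a (b (l 16598600) (l 16600376)) (b (l 16598880) (a (a (l 16600528) (b (l 16600392) (l 16600912))) (l 16600688))))) (b (l 16598600) (l 16600392))) (b (l 16597848) (l 16599608))))))))) (b (a (b (l 16584968) (a (l 16592384) (l 16585096))) (b (l 16573440) (l 16576200))) (a (a (b (l 16595568) (b (l 16597216) (l 16597872))) (b (l 16629856) (b (l 16589272) (a (l 16591728) (l 16587728))))) (b (l 16578144) (b (l 16578832) (l 16599800)))))), by decide +kernel⟩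

def k6_A00pm_022_s1 : ∃ t, chk3 f_A00pm_022_s1 t 11 7 1 = true :=
  ⟨(b (l 6) (b (a (b (l 16557616) (l 16600600)) (l 6)) (b (a (b (l 16558896) (l 16558712)) (l 6)) (a (b (l 16600128) (a (l 16564464) (l 16550056))) (a (l 16578712) (l 6)))))), by decide +kernel⟩

def k7_A00pm_022_s1 : ∃ t, chk3 f_A00pm_022_s1 t 3 1 1 = true :=
  ⟨(b (l 6) (l 6)), by decide +kernel⟩

theorem t8_A00pm_022_s1 : ∃ t, chk3 f_A00pm_022_s1 t 10 7 1 = true := ex3_b k4_A00pm_022_s1 k5_A00pm_022_s1

theorem t9_A00pm_022_s1 : ∃ t, chk3 f_A00pm_022_s1 t 5 7 1 = true := ex3_a t8_A00pm_022_s1 k6_A00pm_022_s1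

theorem t10_A00pm_022_s1 : ∃ t, chk3 f_A00pm_022_s1 t 5 3 1 = true := ex3_b k3_A00pm_022_s1 t9_A00pm_022_s1

theorem t11_A00pm_022_s1 : ∃ t, chk3 f_A00pm_022_s1 t 5 1 1 = true := ex3_b k2_A00pm_022_s1 t10_A00pm_022_s1

theorem t12_A00pm_022_s1 : ∃ t, chk3 f_A00pm_022_s1 t 4 1 1 = true := ex3_b k0_A00pm_022_s1 k1_A00pm_022_s1

theorem t13_A00pm_022_s1 : ∃ t, chk3 f_A00pm_022_s1 t 2 1 1 = true := ex3_a t12_A00pm_022_s1 t11_A00pm_022_s1

theorem t14_A00pm_022_s1 : ∃ t, chk3 f_A00pm_022_s1 t 1 1 1 = true := ex3_a t13_A00pm_022_s1 k7_A00pm_022_s1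

theorem c_A00pm_022_s1 : CertF 0 536870912 0 536870912 649613803 48318383 true true false .pp 0 2 2
    ndB0q0 ndB0q2 pcB2 cut_A00pm_022_s1 Ext.none :=
  certF2 (fam := true) (s1 := true) (s2 := false) (a := 0) (b := 2) (c := 2) (cn := .pp) (n1 := ndB0q0) (n2 := ndB0q2) (pc := pcB2) (cut := cut_A00pm_022_s1) (xt := Ext.none) (P1 := 0) (W1 := 536870912) (P2 := 0) (W2 := 536870912) (P3 := 649613803) (W3 := 48318383)
    rfl (fun _ => rfl) t14_A00pm_022_s1

theorem s_A00pm_022_s1 {κ x : ℝ} (hκ : κ * h0 = ken x) (hx : ((649613803 : ℕ) : ℝ) / S ≤ x)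
    (hx' : x ≤ (((649613803 : ℕ) : ℝ) + (48318383 : ℕ)) / S)
    (H : CutA (VFD κ) PP tK tL pcB (Cut.of [[⟨0, 0, 0, 67108864⟩, ⟨1, 1, 0, 67108864⟩, ⟨2, 1, 0, 67108864⟩]]) 0 2 2 0 0 (sgb true) (sgb false) x) :
    AltA (VFD κ) PP tK tL pcB [⟨3, 0, 0, 1449551462⟩] 0 2 2 0 0 (sgb true) (sgb false) x :=
  strip_altAD (m := 1449551462) true rfl hκ (SH.κ0 hκ (SH.hx1 hx).le (SH.hx2 hx').le) (SH.hx1 hx).le (SH.hx2 hx') (covB00).cov (covB02).cov hx hx' c_A00pm_022_s1 H (noExt_A)

noncomputable def cut_A00pm_022_s3 : Cut := Cut.of [[⟨3, 0, 0, 2845415833⟩], [⟨0, 0, 0, 67108864⟩, ⟨1, 1, 0, 67108864⟩, ⟨2, 1, 0, 67108864⟩]]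

noncomputable def f_A00pm_022_s3 : ℕ → ℕ → ℕ → ℕ → Bool := onCell 1073741824 536870912 0 536870912 649613803 48318383
    (rowF 2 true true false .pp 0 2 2 (qsf 0 536870912 0 536870912 2) ndB0q0 ndB0q2 pcB2 cut_A00pm_022_s3 Ext.none)

def k0_A00pm_022_s3 : ∃ t, chk3 f_A00pm_022_s3 t 1 1 1 = true :=
  ⟨(a (l 6) (b (l 6) (l 6))), by decide +kernel⟩

theorem c_A00pm_022_s3 : CertF 0 536870912 0 536870912 649613803 48318383 true true false .pp 0 2 2
    ndB0q0 ndB0q2 pcB2 cut_A00pm_022_s3 Ext.none :=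
  certF2 (fam := true) (s1 := true) (s2 := false) (a := 0) (b := 2) (c := 2) (cn := .pp) (n1 := ndB0q0) (n2 := ndB0q2) (pc := pcB2) (cut := cut_A00pm_022_s3) (xt := Ext.none) (P1 := 0) (W1 := 536870912) (P2 := 0) (W2 := 536870912) (P3 := 649613803) (W3 := 48318383)
    rfl (fun _ => rfl) k0_A00pm_022_s3

theorem s_A00pm_022_s3 {κ x : ℝ} (hκ : κ * h0 = ken x) (hx : ((649613803 : ℕ) : ℝ) / S ≤ x)
    (hx' : x ≤ (((649613803 : ℕ) : ℝ) + (48318383 : ℕ)) / S)
    (H : CutA (VFD κ) PP tK tL pcB (Cut.of [[⟨0, 0, 0, 67108864⟩, ⟨1, 1, 0, 67108864⟩, ⟨2, 1, 0, 67108864⟩]]) 0 2 2 0 0 (sgb true) (sgb false) x) :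
    AltA (VFD κ) PP tK tL pcB [⟨4, 0, 0, 2845415833⟩] 0 2 2 0 0 (sgb true) (sgb false) x :=
  strip_altAD (m := 2845415833) false rfl hκ (SH.κ0 hκ (SH.hx1 hx).le (SH.hx2 hx').le) (SH.hx1 hx).le (SH.hx2 hx') (covB00).cov (covB02).cov hx hx' c_A00pm_022_s3 H (noExt_A)

noncomputable def cut_A00pm_023_s1 : Cut := Cut.of [[⟨4, 0, 0, 1449551462⟩]]

noncomputable def f_A00pm_023_s1 : ℕ → ℕ → ℕ → ℕ → Bool := onCell 1610612736 536870912 0 536870912 649613803 48318383
    (rowF 2 true true false .up 0 2 3 (qsf 0 536870912 0 536870912 3) ndB0q0 ndB0q2 pcB3 cut_A00pm_023_s1 Ext.none)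

def k0_A00pm_023_s1 : ∃ t, chk3 f_A00pm_023_s1 t 1 1 1 = true :=
  ⟨(l 6), by decide +kernel⟩

theorem c_A00pm_023_s1 : CertF 0 536870912 0 536870912 649613803 48318383 true true false .up 0 2 3
    ndB0q0 ndB0q2 pcB3 cut_A00pm_023_s1 Ext.none :=
  certF2 (fam := true) (s1 := true) (s2 := false) (a := 0) (b := 2) (c := 3) (cn := .up) (n1 := ndB0q0) (n2 := ndB0q2) (pc := pcB3) (cut := cut_A00pm_023_s1) (xt := Ext.none) (P1 := 0) (W1 := 536870912) (P2 := 0) (W2 := 536870912) (P3 := 649613803) (W3 := 48318383)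
    rfl (fun _ => rfl) k0_A00pm_023_s1

theorem s_A00pm_023_s1 {κ x : ℝ} (hκ : κ * h0 = ken x) (hx : ((649613803 : ℕ) : ℝ) / S ≤ x)
    (hx' : x ≤ (((649613803 : ℕ) : ℝ) + (48318383 : ℕ)) / S) :
    AltA (VFD κ) PP tK tL pcB [⟨3, 0, 0, 1449551462⟩] 0 2 3 0 0 (sgb true) (sgb false) x :=
  strip_altAD (m := 1449551462) true rfl hκ (SH.κ0 hκ (SH.hx1 hx).le (SH.hx2 hx').le) (SH.hx1 hx).le (SH.hx2 hx') (covB00).cov (covB02).cov hx hx' c_A00pm_023_s1 cutA_nil (noExt_A)

noncomputable def cut_A00pm_023_s3 : Cut := Cut.of [[⟨3, 0, 0, 2845415833⟩]]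

noncomputable def xt_A00pm_023_s3 : Ext := strExt6 dd true true false .u0 .u2 .s2 .up 0 2 3 rfl rfl gl3 vv ww ndB0q0 ndB0q2

noncomputable def f_A00pm_023_s3 : ℕ → ℕ → ℕ → ℕ → Bool := onCell 0 536870912 0 536870912 649613803 48318383
    (rowF 0 true true false .up 0 2 3 (qsf 0 536870912 0 536870912 3) ndB0q0 ndB0q2 pcB3 cut_A00pm_023_s3 xt_A00pm_023_s3)

def k0_A00pm_023_s3 : ∃ t, chk3 f_A00pm_023_s3 t 1 1 1 = true :=
  ⟨(a (l 1) (b (a (a (l 1) (a (l 6) (b (a (l 6) (b (l 16639848) (l 6))) (l 6)))) (b (a (b (a (b (l 16672824) (l 6)) (b (l 16673888) (l 16658872))) (l 6)) (b (a (b (l 16695664) (l 16679688)) (b (l 1070039055) (l 16746512))) (a (b (l 16666280) (l 6)) (b (b (l 16777912) (l 16688088)) (l 16678976))))) (b (l 6) (l 6)))) (l 6))), by decide +kernel⟩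

theorem c_A00pm_023_s3 : CertF 0 536870912 0 536870912 649613803 48318383 true true false .up 0 2 3
    ndB0q0 ndB0q2 pcB3 cut_A00pm_023_s3 xt_A00pm_023_s3 :=
  certF0 (fam := true) (s1 := true) (s2 := false) (a := 0) (b := 2) (c := 3) (cn := .up) (n1 := ndB0q0) (n2 := ndB0q2) (pc := pcB3) (cut := cut_A00pm_023_s3) (xt := xt_A00pm_023_s3) (P1 := 0) (W1 := 536870912) (P2 := 0) (W2 := 536870912) (P3 := 649613803) (W3 := 48318383)
    rfl k0_A00pm_023_s3

theorem s_A00pm_023_s3 {κ x : ℝ} (hκ : κ * h0 = ken x) (hx : ((649613803 : ℕ) : ℝ) / S ≤ x)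
    (hx' : x ≤ (((649613803 : ℕ) : ℝ) + (48318383 : ℕ)) / S) :
    AltA (VFD κ) PP tK tL pcB [⟨4, 0, 0, 2845415833⟩] 0 2 3 0 0 (sgb true) (sgb false) x :=
  strip_altAD (m := 2845415833) false rfl hκ (SH.κ0 hκ (SH.hx1 hx).le (SH.hx2 hx').le) (SH.hx1 hx).le (SH.hx2 hx') (covB00).cov (covB02).cov hx hx' c_A00pm_023_s3 cutA_nil ((okx6 hx hx').extA (T := tt) (okx hx hx') (sideB hx hx') hκ rfl rfl (.O 0 true) (.O 2 false) (Or.inr rfl))

noncomputable def cut_A00pm_101_s1 : Cut := Cut.of [[⟨4, 0, 0, 1449551462⟩], [⟨0, 1, 0, 67108864⟩, ⟨1, 0, 0, 67108864⟩, ⟨2, 1, 0, 67108864⟩]]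

noncomputable def f_A00pm_101_s1 : ℕ → ℕ → ℕ → ℕ → Bool := onCell 536870912 536870912 536870912 536870912 649613803 48318383
    (rowF 1 true true false .npn 1 0 1 (qsf 536870912 536870912 0 536870912 1) ndB0q1 ndB0q0 pcB1 cut_A00pm_101_s1 Ext.none)

def k0_A00pm_101_s1 : ∃ t, chk3 f_A00pm_101_s1 t 1 1 1 = true :=
  ⟨(b (l 3) (a (l 3) (b (l 3) (a (l 3) (b (l 3) (a (l 3) (b (l 3) (a (l 3) (l 14))))))))), by decide +kernel⟩

theorem c_A00pm_101_s1 : CertF 536870912 536870912 0 536870912 649613803 48318383 true true false .npn 1 0 1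
    ndB0q1 ndB0q0 pcB1 cut_A00pm_101_s1 Ext.none :=
  certF1 (fam := true) (s1 := true) (s2 := false) (a := 1) (b := 0) (c := 1) (cn := .npn) (n1 := ndB0q1) (n2 := ndB0q0) (pc := pcB1) (cut := cut_A00pm_101_s1) (xt := Ext.none) (P1 := 536870912) (W1 := 536870912) (P2 := 0) (W2 := 536870912) (P3 := 649613803) (W3 := 48318383)
    rfl (fun _ => rfl) k0_A00pm_101_s1

theorem s_A00pm_101_s1 {κ x : ℝ} (hκ : κ * h0 = ken x) (hx : ((649613803 : ℕ) : ℝ) / S ≤ x)
    (hx' : x ≤ (((649613803 : ℕ) : ℝ) + (48318383 : ℕ)) / S)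
    (H : CutA (VFD κ) PP tK tL pcB (Cut.of [[⟨0, 1, 0, 67108864⟩, ⟨1, 0, 0, 67108864⟩, ⟨2, 1, 0, 67108864⟩]]) 1 0 1 0 0 (sgb true) (sgb false) x) :
    AltA (VFD κ) PP tK tL pcB [⟨3, 0, 0, 1449551462⟩] 1 0 1 0 0 (sgb true) (sgb false) x :=
  strip_altAD (m := 1449551462) true rfl hκ (SH.κ0 hκ (SH.hx1 hx).le (SH.hx2 hx').le) (SH.hx1 hx).le (SH.hx2 hx') (covB01).cov (covB00).cov hx hx' c_A00pm_101_s1 H (noExt_A)

noncomputable def cut_A00pm_101_s3 : Cut := Cut.of [[⟨3, 0, 0, 2845415833⟩], [⟨0, 1, 0, 67108864⟩, ⟨1, 0, 0, 67108864⟩, ⟨2, 1, 0, 67108864⟩]]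

noncomputable def f_A00pm_101_s3 : ℕ → ℕ → ℕ → ℕ → Bool := onCell 536870912 536870912 0 536870912 649613803 48318383
    (rowF 0 true true false .npn 1 0 1 (qsf 536870912 536870912 0 536870912 1) ndB0q1 ndB0q0 pcB1 cut_A00pm_101_s3 Ext.none)

def k0_A00pm_101_s3 : ∃ t, chk3 f_A00pm_101_s3 t 1 1 1 = true :=
  ⟨(l 6), by decide +kernel⟩

theorem c_A00pm_101_s3 : CertF 536870912 536870912 0 536870912 649613803 48318383 true true false .npn 1 0 1
    ndB0q1 ndB0q0 pcB1 cut_A00pm_101_s3 Ext.none :=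
  certF0 (fam := true) (s1 := true) (s2 := false) (a := 1) (b := 0) (c := 1) (cn := .npn) (n1 := ndB0q1) (n2 := ndB0q0) (pc := pcB1) (cut := cut_A00pm_101_s3) (xt := Ext.none) (P1 := 536870912) (W1 := 536870912) (P2 := 0) (W2 := 536870912) (P3 := 649613803) (W3 := 48318383)
    rfl k0_A00pm_101_s3

theorem s_A00pm_101_s3 {κ x : ℝ} (hκ : κ * h0 = ken x) (hx : ((649613803 : ℕ) : ℝ) / S ≤ x)
    (hx' : x ≤ (((649613803 : ℕ) : ℝ) + (48318383 : ℕ)) / S)
    (H : CutA (VFD κ) PP tK tL pcB (Cut.of [[⟨0, 1, 0, 67108864⟩, ⟨1, 0, 0, 67108864⟩, ⟨2, 1, 0, 67108864⟩]]) 1 0 1 0 0 (sgb true) (sgb false) x) :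
    AltA (VFD κ) PP tK tL pcB [⟨4, 0, 0, 2845415833⟩] 1 0 1 0 0 (sgb true) (sgb false) x :=
  strip_altAD (m := 2845415833) false rfl hκ (SH.κ0 hκ (SH.hx1 hx).le (SH.hx2 hx').le) (SH.hx1 hx).le (SH.hx2 hx') (covB01).cov (covB00).cov hx hx' c_A00pm_101_s3 H (noExt_A)

noncomputable def cut_A00pm_102_s3 : Cut := Cut.of [[⟨3, 0, 0, 2845415833⟩], [⟨0, 1, 0, 33554432⟩, ⟨1, 0, 0, 33554432⟩, ⟨2, 1, 0, 33554432⟩]]

noncomputable def f_A00pm_102_s3 : ℕ → ℕ → ℕ → ℕ → Bool := onCell 536870912 536870912 0 536870912 649613803 48318383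
    (rowF 0 true true false .npp 1 0 2 (qsf 536870912 536870912 0 536870912 2) ndB0q1 ndB0q0 pcB2 cut_A00pm_102_s3 Ext.none)

def k0_A00pm_102_s3 : ∃ t, chk3 f_A00pm_102_s3 t 1 1 1 = true :=
  ⟨(l 6), by decide +kernel⟩

theorem c_A00pm_102_s3 : CertF 536870912 536870912 0 536870912 649613803 48318383 true true false .npp 1 0 2
    ndB0q1 ndB0q0 pcB2 cut_A00pm_102_s3 Ext.none :=
  certF0 (fam := true) (s1 := true) (s2 := false) (a := 1) (b := 0) (c := 2) (cn := .npp) (n1 := ndB0q1) (n2 := ndB0q0) (pc := pcB2) (cut := cut_A00pm_102_s3) (xt := Ext.none) (P1 := 536870912) (W1 := 536870912) (P2 := 0) (W2 := 536870912) (P3 := 649613803) (W3 := 48318383)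
    rfl k0_A00pm_102_s3

theorem s_A00pm_102_s3 {κ x : ℝ} (hκ : κ * h0 = ken x) (hx : ((649613803 : ℕ) : ℝ) / S ≤ x)
    (hx' : x ≤ (((649613803 : ℕ) : ℝ) + (48318383 : ℕ)) / S)
    (H : CutA (VFD κ) PP tK tL pcB (Cut.of [[⟨0, 1, 0, 33554432⟩, ⟨1, 0, 0, 33554432⟩, ⟨2, 1, 0, 33554432⟩]]) 1 0 2 0 0 (sgb true) (sgb false) x) :
    AltA (VFD κ) PP tK tL pcB [⟨4, 0, 0, 2845415833⟩] 1 0 2 0 0 (sgb true) (sgb false) x :=
  strip_altAD (m := 2845415833) false rfl hκ (SH.κ0 hκ (SH.hx1 hx).le (SH.hx2 hx').le) (SH.hx1 hx).le (SH.hx2 hx') (covB01).cov (covB00).cov hx hx' c_A00pm_102_s3 H (noExt_A)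

noncomputable def cut_A00pm_112_s1 : Cut := Cut.of [[⟨4, 0, 0, 1449551462⟩]]

noncomputable def xt_A00pm_112_s1 : Ext := strExt6 dd true true false .u0 .u0m .u2 .dn 1 1 2 rfl rfl gf2 vv ww ndB0q1 ndB0q1

noncomputable def f_A00pm_112_s1 : ℕ → ℕ → ℕ → ℕ → Bool := onCell 536870912 536870912 1073741824 536870912 649613803 48318383
    (rowF 1 true true false .dn 1 1 2 (qsf 536870912 536870912 536870912 536870912 2) ndB0q1 ndB0q1 pcB2 cut_A00pm_112_s1 xt_A00pm_112_s1)

def k0_A00pm_112_s1 : ∃ t, chk3 f_A00pm_112_s1 t 2 4 1 = true :=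
  ⟨(b (l 3) (l 3)), by decide +kernel⟩

def k1_A00pm_112_s1 : ∃ t, chk3 f_A00pm_112_s1 t 2 40 1 = true :=
  ⟨(a (l 3) (a (l 3) (l 1))), by decide +kernel⟩

def k2_A00pm_112_s1 : ∃ t, chk3 f_A00pm_112_s1 t 4 82 1 = true :=
  ⟨(l 3), by decide +kernel⟩

def k3_A00pm_112_s1 : ∃ t, chk3 f_A00pm_112_s1 t 4 166 1 = true :=
  ⟨(a (b (l 3) (a (b (l 3) (a (b (a (b (a (b (a (b (a (l 1068081791) (l 3)) (b (l 1068617855) (l 1068630143))) (l 3)) (a (b (l 1068648575) (l 1068673151)) (a (b (a (l 1068601983) (l 3)) (l 1068617343)) (l 3)))) (l 3)) (a (b (a (l 1068712063) (b (l 1068623487) (l 1068649087))) (l 1068726911)) (a (b (b (l 3) (c (l 1068872831) (a (l 1068291199) (l 3)))) (b (c (l 1068899455) (l 1068297343)) (l 1068623999))) (l 3)))) (l 3)) (a (b (a (b (l 1068781183) (l 1068836479)) (b (a (b (l 1068651647) (l 1068679807)) (b (c (l 1068872319) (a (l 1068290175) (l 3))) (c (l 1068900991) (l 1068297343)))) (a (l 1068724351) (b (l 1068626559) (l 1068656255)))))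 (a (b (l 1068893823) (l 1068953215)) (b (a (l 1068783231) (l 1068703359)) (l 1068805759)))) (b (a (b (l 3) (a (b (l 1068539519) (l 1068569727)) (l 3))) (l 3)) (a (b (b (l 1068555391) (l 1068587135)) (l 1068637311)) (b (l 3) (b (l 3) (l 1068461183))))))) (l 3))) (l 3))) (l 3)), by decide +kernel⟩

def k4_A00pm_112_s1 : ∃ t, chk3 f_A00pm_112_s1 t 8 668 1 = true :=
  ⟨(a (b (a (b (a (a (l 1069052543) (b (l 1068869759) (l 1068936319))) (b (a (l 1068704895) (l 1068515967)) (l 1068683903))) (a (b (l 1069076095) (l 1069145215)) (b (l 1068758655) (l 1068835967)))) (a (a (b (b (l 3) (b (l 3) (l 1068393087))) (b (l 1068456063) (l 1068540031))) (b (l 3) (b (l 3) (l 1068302463)))) (l 3))) (a (b (a (b (l 1069216895) (l 1069291135)) (l 1068969599)) (a (b (l 1069366911) (a (l 1069489279) (l 1069375103))) (b (l 1069088895) (l 1069165695)))) (b (a (b (l 1068514431) (l 1068609151)) (b (l 3) (a (l 1068224127) (l 3)))) (a (b (l 1068708991) (l 1068798079)) (b (a (l 1068333183)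 (l 3)) (a (l 1068400767) (l 1068335231))))))) (l 3)), by decide +kernel⟩

def k5_A00pm_112_s1 : ∃ t, chk3 f_A00pm_112_s1 t 8 1338 1 = true :=
  ⟨(a (a (a (a (b (l 1069519087) (a (b (l 16775856) (a (b (l 16775784) (b (l 16775752) (l 16775728))) (a (b (l 16775816) (l 16775784)) (l 16775824)))) (l 1069546735))) (b (l 1069406959) (l 1069467375))) (b (l 1069204207) (a (l 1069346543) (l 1069209327)))) (a (b (a (l 1068947183) (l 1068724975)) (l 1070055663)) (a (b (l 1068573935) (l 1068768495)) (l 1068637935)))) (a (a (b (l 1068480751) (l 1068721391)) (l 3)) (l 3))), by decide +kernel⟩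

def k6_A00pm_112_s1 : ∃ t, chk3 f_A00pm_112_s1 t 8 1339 1 = true :=
  ⟨(b (a (a (a (a (b (b (a (a (l 16775680) (c (l 16775856) (l 16775632))) (c (l 16775928) (a (l 16775696) (l 16775744)))) (a (l 16775648) (a (l 16775752) (a (l 16775800) (l 16775824))))) (c (l 16775752) (c (l 16775560) (l 16775440)))) (a (b (c (l 16775992) (l 16775792)) (b (c (a (l 16775920) (l 16775968)) (a (l 16775704) (l 16775760))) (a (l 16775752) (l 16775816)))) (b (l 16775976) (b (l 16775928) (a (b (l 16775888) (l 16775864)) (l 16775920)))))) (a (l 1069445871) (l 1069328623))) (a (a (l 1069204207) (l 1069082351)) (l 1068978927))) (a (a (l 1068962031) (b (l 1068850415) (l 1068983023))) (l 3))) (a (a (a (a (a (b (l 16775424) (a (l 16775256) (l 16775320))) (b (l 16775560) (l 16775416))) (b (a (l 16775688) (b (a (l 16775816) (c (l 16775984) (l 16775776))) (l 16775784))) (c (l 16775744) (l 16775488)))) (a (a (a (b (a (b (l 16775920) (l 16775864)) (b (l 16775936) (l 16775896))) (l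 16775776)) (b (b (l 16775968) (b (l 16775944) (l 16775920))) (l 16775840))) (b (c (l 16776104) (c (l 16775968) (l 16775880))) (b (a (b (l 16775952) (l 16775920)) (b (l 16776000) (l 16775976))) (l 16775896)))) (b (l 1069429487) (c (a (b (l 16776136) (a (l 16776080) (l 16776128))) (l 16776192)) (a (b (l 16775960) (a (b (l 16775904) (l 16775872)) (c (l 16775992) (l 16775896)))) (c (l 16776064) (l 16775984))))))) (a (b (l 1069274351) (l 1069367535)) (b (l 1069139695) (l 1069252847)))) (a (b (a (l 1069138671) (l 1069116143)) (a (l 1069262063) (a (l 1069254383) (b (l 1069203695) (l 1069273839))))) (a (a (a (b (b (l 3) (l 1069112047)) (b (l 1069184751) (l 1069257967))) (b (l 3) (b (l 3) (l 1069244143)))) (l 3)) (l 3))))), by decide +kernel⟩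

def k7_A00pm_112_s1 : ∃ t, chk3 f_A00pm_112_s1 t 9 334 1 = true :=
  ⟨(a (l 3) (b (l 3) (b (a (l 3) (a (b (l 3) (a (l 3) (l 1068696319))) (b (l 1068501247) (l 1068733695)))) (a (a (l 3) (b (l 3) (b (a (l 3) (a (b (l 3) (l 1069113599)) (l 1069095167))) (a (b (l 3) (l 1069236991)) (a (b (c (l 1069526783) (l 1068844799)) (l 1069257983)) (b (l 1069198079) (l 1069268735))))))) (b (a (a (l 1068921087) (l 1068945151)) (l 1068967679)) (b (l 1069682943) (a (b (l 1069221631) (l 1069288191)) (l 1069260031)))))))), by decide +kernel⟩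

def k8_A00pm_112_s1 : ∃ t, chk3 f_A00pm_112_s1 t 32 2680 1 = true :=
  ⟨(b (a (a (b (a (l 16775176) (l 16775312)) (a (b (l 16775120) (l 16775080)) (b (l 16775248) (l 16775208)))) (a (b (l 16775440) (l 16775360)) (b (l 16775568) (l 16775488)))) (a (a (a (l 16775624) (l 16775688)) (l 16775784)) (a (b (c (l 16776048) (l 16775848)) (l 16775872)) (b (c (c (l 16776192) (l 16776104)) (a (b (l 16775960) (l 16775928)) (c (l 16776040) (l 16775952)))) (c (l 16776096) (a (l 16775864) (l 16775928))))))) (a (a (b (a (c (l 16775232) (b (l 16774832) (l 16774776))) (c (l 16775344) (l 16774952))) (a (b (a (l 16774920) (l 16774984)) (c (l 16775144) (l 16774664))) (b (a (l 16775048) (l 16775112)) (c (l 16775256) (l 16774816))))) (b (a (a (l 16775248) (l 16775312)) (b (l 16775432) (l 16775384))) (a (b (a (l 16775176) (l 16775240)) (a (l 16775128) (l 16775200))) (b (l 68430053135) (a (l 16775264) (l 16775328)))))) (a (a (b (l 68446828815) (c (l 16775616) (l 16775280)))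 (b (l 16775664) (b (l 16775600) (l 16775552)))) (a (b (l 16775792) (a (l 16775672) (l 16775736))) (b (l 16775920) (l 16775832)))))), by decide +kernel⟩

def k9_A00pm_112_s1 : ∃ t, chk3 f_A00pm_112_s1 t 33 2680 1 = true :=
  ⟨(c (a (a (a (b (b (l 16776224) (a (l 16776168) (l 16776216))) (l 16776096)) (b (l 16776280) (b (b (l 16776248) (l 16776224)) (l 16776168)))) (b (l 1069762287) (a (b (l 16776312) (b (l 16776288) (l 16776256))) (b (l 16776376) (a (l 16776336) (l 16776368)))))) (b (l 1069709551) (l 1069837039))) (a (a (b (b (l 1069146863) (a (a (b (l 16776008) (l 16775976)) (b (l 16776056) (l 16776032))) (l 16776104))) (a (b (l 16775944) (l 16775848)) (b (a (b (l 16776056) (l 16776016)) (b (l 16776104) (l 16776080))) (l 16775976)))) (b (l 1069093615) (b (a (c (l 16776192) (l 16776112)) (l 16776232)) (a (b (a (l 16776096) (l 16776152)) (a (l 16776048) (l 16776112))) (a (b (l 16776192) (a (l 16776160) (l 16776184))) (l 16776224)))))) (b (l 1069029103)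 (a (l 1069140719) (l 1069147887))))), by decide +kernel⟩

def k10_A00pm_112_s1 : ∃ t, chk3 f_A00pm_112_s1 t 17 2680 1 = true :=
  ⟨(a (a (b (l 1069388527) (a (l 1069511407) (l 1069525231))) (b (b (l 1069353199) (l 1069423855)) (a (l 1069533935) (l 1069536495)))) (a (b (a (a (l 1069373167) (l 1069362927)) (b (l 1069298927) (l 1069381871))) (a (l 1069531887) (l 1069518063))) (b (a (a (b (l 3) (l 1069353199)) (l 3)) (l 3)) (a (b (l 1069436143) (l 1069533423)) (b (l 3) (a (l 1069503215) (a (l 1069483247) (l 3)))))))), by decide +kernel⟩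

def k11_A00pm_112_s1 : ∃ t, chk3 f_A00pm_112_s1 t 9 2680 1 = true :=
  ⟨(a (a (l 3) (l 3)) (a (a (b (a (l 3) (c (l 1069671679) (b (l 1068932863) (l 1069016831)))) (a (a (b (l 3) (l 1069500671)) (b (l 1069422335) (l 1069521663))) (b (l 1069452543) (l 1069545727)))) (a (b (l 1069357823) (l 1069525759)) (b (a (l 1069372671) (l 1069380351)) (b (l 1069489919) (l 1069570815))))) (b (a (a (l 1069388543) (l 1069390079)) (l 1069383935)) (a (a (l 1069536511) (l 1069530367)) (a (l 1069519615) (l 1069503743)))))), by decide +kernel⟩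

def k12_A00pm_112_s1 : ∃ t, chk3 f_A00pm_112_s1 t 16 10724 1 = true :=
  ⟨(a (a (a (c (a (b (l 16775104) (c (l 16775200) (l 16774936))) (b (l 16775216) (b (l 16775192) (l 16775168)))) (a (b (a (l 16774568) (l 16774640)) (c (l 16774672) (l 16774408))) (b (a (l 16774720) (l 16774792)) (a (l 16774648) (l 16774720))))) (a (b (c (l 16775328) (l 16774896)) (c (a (l 16775264) (l 16775320)) (a (l 16774792) (l 16774872)))) (b (c (l 16775440) (l 16775048)) (c (a (l 16775376) (l 16775432)) (a (l 16774944) (l 16775016)))))) (a (a (b (a (l 16775344) (l 16775408)) (c (l 68455217935) (l 16775120))) (b (a (l 16775472) (l 16775536)) (c (l 16775624) (l 16775272)))) (a (b (l 68430051087) (a (l 16775544) (l 16775608))) (c (l 16775872) (l 16775592))))) (a (a (c (a (l 16775984) (l 16776088)) (a (l 16775728) (l 16775872))) (a (a (l 16776072) (l 16776128)) (b (c (l 16776320) (a (l 16776128) (c (l 16776224) (l 16776144)))) (l 16776192)))) (a (b (a (a (b (l 16776312) (a (l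 16776296) (l 16776320))) (l 16776344)) (l 16776400)) (a (a (b (l 16776288) (l 16776264)) (c (l 16776400) (b (l 16776264) (l 16776240)))) (a (b (l 16776368) (a (l 16776352) (l 16776376))) (l 16776400)))) (l 1069590767)))), by decide +kernel⟩

def k13_A00pm_112_s1 : ∃ t, chk3 f_A00pm_112_s1 t 16 10725 2 = true :=
  ⟨(a (a (a (b (a (b (l 16775040) (l 16775016)) (b (l 16775144) (l 16775128))) (a (b (l 16774992) (l 16774968)) (b (l 16775104) (l 16775080)))) (b (a (a (l 16775216) (l 16775272)) (a (l 16775328) (l 16775384))) (a (b (l 16775208) (l 68438440207)) (b (l 68438440207) (l 68438440207))))) (a (b (a (b (l 16775480) (l 16775456)) (b (l 16775592) (l 16775568))) (a (b (l 68438440207) (a (l 16775376) (l 16775432))) (b (l 68438440207) (a (l 16775488) (l 16775544))))) (b (a (l 68446829327) (l 16775800)) (a (b (l 16775656) (l 68438442255)) (b (l 16775760) (l 68438440207)))))) (b (a (a (a (l 16775912) (l 16776024)) (l 68471996687)) (a (a (l 16776336) (a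 (l 16776408) (l 16776456))) (a (c (l 16776536) (l 16776472)) (l 16776568)))) (a (a (a (b (l 16775872) (l 16775840)) (b (l 16775984) (l 16775952))) (a (l 16776080) (l 16776184))) (a (a (l 16776288) (l 16776392)) (a (b (c (l 16776528) (l 16776456)) (l 16776472)) (c (l 16776592) (b (l 16776528) (l 16776520)))))))), by decide +kernel⟩

def k14_A00pm_112_s1 : ∃ t, chk3 f_A00pm_112_s1 t 16 10725 3 = true :=
  ⟨(b (a (a (a (a (b (l 16774488) (l 16774448)) (a (l 16774576) (l 16774648))) (a (a (l 16774720) (l 16774792)) (a (l 16774864) (l 16774936)))) (a (a (b (l 16775072) (l 16775032)) (b (l 16775216) (l 16775176))) (a (l 16775336) (l 16775488)))) (b (a (a (l 68404883215) (l 16775992)) (a (a (l 16776184) (a (l 16776272) (l 16776320))) (l 1069283055))) (a (a (l 68396496655) (l 16775960)) (a (a (l 16776152) (a (l 16776248) (l 16776304))) (a (c (l 16776400) (a (l 16776320) (l 16776360))) (l 16776448)))))) (a (a (a (a (b (l 16774408) (l 16774360)) (b (l 68354549519)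 (b (l 16774520) (l 16774488)))) (a (b (l 68362938127) (b (l 16774664) (l 16774632))) (b (l 68362940175) (a (l 16774752) (l 16774824))))) (a (a (b (l 68362938127) (a (l 16774896) (l 16774968))) (b (l 68362938639) (a (l 16775048) (l 16775120)))) (a (b (l 16775272) (l 68362938127)) (b (l 16775424) (l 16775368))))) (a (a (a (b (l 16775568) (l 16775520)) (l 16775688)) (a (l 16775824) (l 16775968))) (a (a (l 16776096) (l 16776224)) (b (a (a (l 16776328) (b (l 16776384) (l 16776376))) (l 16776440)) (a (a (l 16776296) (l 16776360)) (a (b (l 16776416) (l 16776400)) (a (l 16776440) (l 16776456))))))))), by decide +kernel⟩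

def k15_A00pm_112_s1 : ∃ t, chk3 f_A00pm_112_s1 t 17 5362 1 = true :=
  ⟨(a (a (b (c (l 1069975791) (l 1069274351)) (b (l 1069681903) (a (l 1069712623) (l 1069735151)))) (b (l 1069654255) (b (l 1069716719) (a (l 1069754607) (l 1069770991))))) (a (b (l 1069661935) (b (l 1069733615) (l 1069791471))) (b (a (l 1069639407) (b (l 1069575919) (l 1069636847))) (b (l 1069989615) (a (l 1069788399) (l 1069778159)))))), by decide +kernel⟩

def k16_A00pm_112_s1 : ∃ t, chk3 f_A00pm_112_s1 t 9 5362 1 = true :=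
  ⟨(a (a (a (b (a (a (b (l 3) (l 1069601007)) (l 3)) (l 3)) (b (a (b (l 1069641967) (l 1069681391)) (a (a (b (l 3) (l 1069639407)) (l 3)) (l 3))) (b (a (l 1069723887) (c (l 1070019311) (a (l 1069320431) (l 3)))) (a (l 1069770479) (a (l 1069731055) (a (b (l 1069685999) (l 1069716207)) (l 3))))))) (l 3)) (a (a (l 3) (a (l 3) (a (l 3) (b (l 3) (b (l 3) (b (l 3) (b (l 3) (l 1069708031)))))))) (b (a (l 3) (c (l 1069938943) (b (a (l 3) (l 1069205759)) (l 1069257471)))) (b (a (a (l 3) (b (l 1069618943) (l 1069660415))) (l 1069683455)) (a (c (b (l 1070050559) (l 1070103295)) (a (b (l 1069313791) (l 1069366527)) (l 1069374207))) (b (l 1069739775) (l 1069782783))))))) (a (a (b (a (l 1069625087) (l 1069647103)) (b (l 1069727487) (a (l 1069783807) (l 1069789951)))) (b (a (l 1069656831) (l 1069657343)) (a (l 1069764863) (b (l 1069725439) (l 1069778175))))) (c (b (a (l 1070001407) (l 1069967103)) (a (b (l 1070064895) (l 1070115583)) (a (l 1070062335) (a (l 1070043391)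 (b (l 16776576) (a (l 16776584) (a (l 16776560) (l 16776544)))))))) (c (b (a (l 1069473535) (l 1069441279)) (a (b (l 1069533951) (l 1069581567)) (a (l 1069530879) (a (l 1069512959) (b (l 16776488) (a (l 16776496) (b (l 16776464) (l 16776456)))))))) (b (a (l 1069121791) (l 1069091071)) (b (a (l 1069179647) (l 1069143807)) (b (a (l 1069211391) (l 1069172991)) (a (l 1069235455) (a (l 1069204223) (a (l 16776480) (a (l 16776432) (b (l 16776392) (l 16776392))))))))))))), by decide +kernel⟩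

def k17_A00pm_112_s1 : ∃ t, chk3 f_A00pm_112_s1 t 16 21452 2 = true :=
  ⟨(a (a (a (b (a (l 16774944) (l 68430051599)) (a (b (l 16774920) (l 16774896)) (b (l 16775024) (l 16775008)))) (b (a (b (l 16775168) (l 16775152)) (b (l 16775272) (l 16775256))) (a (b (l 16775128) (l 16775112)) (b (l 16775240) (b (l 16775224) (l 16775208)))))) (a (b (a (c (l 16775496) (l 16775248)) (a (l 16775456) (l 16775512))) (b (a (l 68421662479) (l 68421662479)) (a (b (l 16775328) (l 16775320)) (a (l 16775400) (l 16775456))))) (b (a (a (l 16775560) (l 16775616)) (a (l 16775672) (l 16775728))) (a (b (l 68430055183) (a (l 16775512) (l 16775568))) (b (a (l 16775640) (l 16775696)) (a (l 16775616) (l 16775672))))))) (b (a (a (a (a (l 16775784) (l 16775840)) (l 68438440719)) (a (l 16776032) (l 16776136))) (a (a (l 16776240) (l 16776344)) (a (l 16776448) (a (l 16776512) (l 16776560))))) (a (a (a (b (l 68430053647) (a (l 16775728) (l 16775784))) (b (l 68438440207) (a (l 16775840)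 (l 16775888)))) (a (b (l 16776000) (a (l 16775944) (l 16776000))) (b (l 16776104) (l 68438440719)))) (a (a (b (l 16776216) (l 16776192)) (l 68455218959)) (a (l 16776408) (l 16776504)))))), by decide +kernel⟩

def k18_A00pm_112_s1 : ∃ t, chk3 f_A00pm_112_s1 t 16 21452 3 = true :=
  ⟨(c (a (a (a (b (a (l 16774464) (l 16774600)) (a (l 16774408) (l 16774536))) (b (a (l 16774736) (l 16774864)) (b (a (l 16774688) (l 16774824)) (a (l 16774656) (l 16774784))))) (a (b (a (l 16775000) (l 16775136)) (b (a (l 16774960) (l 16775096)) (a (l 16774920) (l 16775056)))) (b (a (l 16775272) (l 16775408)) (a (b (l 16775224) (l 16775184)) (b (l 16775368) (l 16775320)))))) (a (a (b (a (l 16775544) (l 16775688)) (a (b (l 16775504) (l 16775464)) (b (l 16775640) (l 16775600)))) (b (l 68396495119) (a (b (l 16775776) (l 16775736)) (l 16775888)))) (a (b (l 16776144) (a (l 16776024) (l 16776152))) (a (b (l 16776328) (l 16776280)) (b (a (l 16776408) (l 16776464)) (l 16776392))))))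 (a (a (a (b (a (l 16774144) (l 16774296)) (a (l 16774064) (b (l 16774240) (l 16774192)))) (b (a (l 16774448) (l 16774600)) (b (a (l 16774392) (l 16774544)) (a (l 16774344) (l 16774488))))) (a (b (a (l 16774752) (l 16774904)) (b (a (l 16774696) (l 16774848)) (a (l 16774640) (l 16774792)))) (b (a (l 16775064) (l 16775216)) (a (b (l 16775000) (l 16774952)) (b (l 16775160) (l 16775104)))))) (a (a (b (a (l 16775368) (l 16775528)) (a (b (l 16775312) (l 16775264)) (b (l 16775472) (l 16775416)))) (b (l 68362938639) (a (b (l 16775624) (l 16775576)) (l 16775752)))) (a (b (l 16776048) (a (l 16775904) (l 16776048))) (a (b (l 16776248) (l 16776192)) (b (a (l 16776344) (b (l 16776408) (l 16776392))) (l 16776320))))))), by decide +kernel⟩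

def k19_A00pm_112_s1 : ∃ t, chk3 f_A00pm_112_s1 t 17 21452 1 = true :=
  ⟨(b (a (a (a (a (a (c (l 16776592) (b (l 16776480) (a (l 16776464) (l 16776480)))) (c (l 16776624) (c (l 16776536) (l 16776480)))) (l 1069754607)) (l 1069773039)) (l 1069806831)) (a (l 1069837039) (l 1069848815))) (a (c (a (a (a (b (c (l 16776632) (l 16776568)) (l 16776584)) (b (l 16776664) (a (l 16776640) (l 16776672)))) (l 1070165231)) (b (l 1070189295) (l 1070210287))) (a (b (a (a (a (l 16776456) (c (l 16776528) (b (l 16776472) (l 16776472)))) (a (a (l 16776528) (l 16776544)) (l 16776568))) (l 1069437679)) (a (b (a (l 16776464) (a (a (l 16776528) (l 16776544)) (l 16776568))) (a (l 16776448) (a (c (l 16776552) (l 16776496)) (a (a (l 16776552) (l 16776560)) (l 16776576))))) (l 1069455599))) (a (b (l 1069459183) (l 1069477615)) (l 1069489903)))) (a (b (l 1069863663) (l 1069886191)) (b (l 1069881583) (a (l 1069899503) (l 1069905647)))))), by decide +kernel⟩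

def k20_A00pm_112_s1 : ∃ t, chk3 f_A00pm_112_s1 t 18 42904 1 = true :=
  ⟨(a (a (a (l 1069823727) (a (l 1069792495) (c (l 1070121199) (b (l 1069380335) (l 1069417199))))) (a (a (a (b (l 3) (b (l 1069731055) (l 1069752559))) (l 3)) (l 3)) (l 3))) (a (a (l 3) (c (a (a (l 3) (l 1070073087)) (l 1070113535)) (a (a (l 3) (a (l 3) (b (l 3) (l 1069378303)))) (b (c (l 1069551871) (l 1069192959)) (l 1069410047))))) (a (a (l 1069787903) (l 1069809919)) (l 1069831935)))), by decide +kernel⟩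

def k21_A00pm_112_s1 : ∃ t, chk3 f_A00pm_112_s1 t 18 85810 1 = true :=
  ⟨(c (a (a (a (l 1070227695) (l 1070200047)) (a (a (l 1070141679) (a (a (b (l 3) (l 1070112495)) (l 3)) (l 3))) (l 3))) (a (a (l 3) (a (a (a (a (l 3) (b (l 3) (l 1070120191))) (l 1070119679)) (l 1070141695)) (l 1070174975))) (l 1070238975))) (a (a (a (l 1069505775) (a (l 1069483247) (l 1069459695))) (a (a (a (l 1069429487) (b (a (l 1069395183) (l 3)) (b (l 1069407983) (l 1069422831)))) (b (l 3) (b (l 3) (a (a (a (a (a (l 1069405423) (l 3)) (l 3)) (l 3)) (l 3)) (l 3))))) (l 3))) (a (b (a (l 3) (a (a (a (l 3) (a (l 3) (l 1069387007))) (l 1069405951)) (l 1069440255))) (a (l 3) (a (b (a (a (l 3) (l 1069403391)) (l 1069424895)) (a (a (a (l 3) (a (a (l 3) (a (a (l 3) (l 1069404415)) (l 1069405439))) (l 1069407999))) (l 1069417727)) (l 1069438207))) (l 1069463295)))) (a (l 1069492479) (l 1069510911))))), by decide +kernel⟩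

def k22_A00pm_112_s1 : ∃ t, chk3 f_A00pm_112_s1 t 18 171622 1 = true :=
  ⟨(c (a (a (a (l 1070253295) (l 1070232815)) (a (a (l 1070184175) (a (a (a (l 1070150383) (l 1070142191)) (l 1070128879)) (l 3))) (l 3))) (a (a (a (l 3) (a (l 3) (l 1070123775))) (a (a (a (a (l 1070145791) (l 1070153471)) (l 1070164735)) (l 1070184191)) (l 1070212351))) (l 1070264063))) (a (a (a (l 1069529839) (a (l 1069512943) (l 1069493999))) (a (a (a (l 1069469423) (c (l 1069627631) (b (a (l 1069263599) (a (l 1069253359) (b (l 1069242095) (l 1069250287)))) (l 1069273839)))) (a (b (a (b (a (c (l 1069594863) (c (a (l 1069326575) (l 1069322479)) (a (a (l 1069146863) (b (a (a (l 1069143791) (l 1069143279)) (l 1069142255)) (l 1069146863))) (c (l 1069186799) (l 1069096687))))) (l 3)) (a (a (a (l 1069425903) (l 1069423855)) (l 1069420607)) (l 1069414463))) (l 3)) (a (a (a (l 1069438191) (l 1069434431)) (l 1069428287)) (l 1069414975))) (l 3))) (l 3))) (a (a (a (l 3) (a (l 3) (a (l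 3) (b (b (l 3) (l 1069404751)) (l 1069418575))))) (a (a (a (c (a (l 1069603583) (b (l 1069602559) (l 1069619967))) (a (b (b (b (l 3) (l 1069231183)) (l 1069237327)) (l 1069251151)) (b (b (a (a (a (l 1069233919) (b (l 1069232895) (l 1069236815))) (a (b (a (l 1069233407) (l 1069233919)) (l 1069238015)) (l 1069236991))) (l 1069239551)) (c (l 1069335807) (a (l 1069153535) (l 1069157631)))) (a (l 1069256959) (l 1069260543))))) (b (a (b (l 1069425407) (l 1069433599)) (l 1069436671)) (l 1069449983))) (b (l 1069452543) (l 1069468415))) (l 1069488895))) (a (l 1069520639) (l 1069532927))))), by decide +kernel⟩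

def k23_A00pm_112_s1 : ∃ t, chk3 f_A00pm_112_s1 t 18 171623 1 = true :=
  ⟨(a (a (a (l 1069911279) (a (l 1069898991) (l 1069884655))) (a (a (a (l 1069864175) (b (a (l 1069839087) (l 1069827311)) (l 1069854447))) (a (a (a (a (l 1069830383) (l 1069826623)) (l 1069821503)) (l 1069809727)) (c (l 1070143039) (a (a (l 1069433919) (b (l 3) (l 1069434943))) (a (b (l 3) (l 1069423679)) (l 3)))))) (l 3))) (a (a (a (l 3) (b (a (l 3) (a (a (l 1069238863) (l 1069786191)) (l 1069800527))) (a (a (l 3) (a (a (l 3) (l 1069780559)) (l 1069789775))) (l 1069815887)))) (a (a (a (a (l 1069824079) (a (l 1069829375) (l 1069832959))) (a (l 1069837567) (l 1069843711))) (c (l 1070219519) (l 1069495039))) (l 1069880575))) (a (l 1069905663) (l 1069912831)))), by decide +kernel⟩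

def k24_A00pm_112_s1 : ∃ t, chk3 f_A00pm_112_s1 t 19 21452 1 = true :=
  ⟨(b (a (a (l 1069848319) (a (l 1069833471) (l 1069821695))) (a (c (l 1070156543) (l 1069441279)) (a (l 1069763839) (b (a (l 16776568) (a (a (l 16776528) (a (l 16776512) (l 16776504))) (l 16776472))) (a (a (l 16776576) (c (l 16776608) (a (l 16776496) (l 16776480)))) (c (l 16776552) (a (l 16776440) (l 16776392)))))))) (b (a (a (l 1069879551) (a (l 1069861119) (l 1069846783))) (a (l 1069821695) (a (l 1069785855) (a (a (c (l 16776632) (a (l 16776528) (b (l 16776512) (l 16776504)))) (a (b (l 16776552) (l 16776544)) (l 16776528))) (a (l 16776488) (l 16776440)))))) (a (a (a (l 1069903615) (l 1069895935)) (a (l 1069883647) (l 1069868287))) (a (a (l 1069849343) (l 1069828351)) (b (a (a (l 1069804287) (a (l 16776632) (a (l 16776616) (a (l 16776600) (l 16776592))))) (a (c (l 16776608) (a (l 16776504) (l 16776456))) (l 16776448))) (a (a (l 1069814527) (a (a (l 16776640) (c (l 16776680)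 (l 16776568))) (a (b (l 16776608) (l 16776608)) (l 16776592)))) (a (c (l 16776600) (l 16776472)) (l 16776432)))))))), by decide +kernel⟩

def k25_A00pm_112_s1 : ∃ t, chk3 f_A00pm_112_s1 t 32 21453 1 = true :=
  ⟨(c (a (a (a (l 73776684863546228031) (c (l 73777881132474072383) (l 73776368204130319679))) (b (b (b (a (l 16775088) (l 16775200)) (a (l 73777599657429643071) (a (l 73777916316862328639) (l 73778162607517282111)))) (l 68404884751)) (l 68404884751))) (a (a (b (b (b (l 68413273359) (b (l 16775288) (a (l 73778373713799681343) (l 73778620004454634815)))) (l 16775280)) (l 16775272)) (b (b (b (a (l 16775384) (l 16775432)) (b (l 68413273359) (a (l 73778831110745888063) (l 73779042217037141311)))) (l 16775384)) (l 16775376))) (a (b (b (b (a (l 16775488) (l 16775544)) (b (a (l 16775472) (l 16775528)) (a (l 73779288507692094783) (l 73779499613983348031)))) (l 16775488)) (l 16775480)) (b (b (b (a (l 16775592) (l 16775648)) (b (c (l 16775720) (l 16775488))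 (b (a (l 16775568) (l 16775616)) (a (l 73779745904637898047) (l 73779957010920762687))))) (l 16775592)) (l 16775584))))) (a (a (c (a (l 73774221956937973055) (l 73774784907025612095)) (a (l 73772533106691833151) (a (l 73772990503646428479) (l 73773307163070725439)))) (b (b (b (a (l 16774456) (l 16774592)) (b (a (l 16774424) (l 16774560)) (a (l 73774573800716506431) (l 73775171935193011519)))) (l 68312603919)) (l 68312603919))) (b (b (b (a (a (a (l 16774704) (l 16774768)) (a (l 16774840) (l 16774912))) (a (a (l 16774984) (l 16775056)) (a (l 16775128) (l 16775208)))) (b (a (a (l 68312604431) (a (l 16774808) (l 16774880))) (a (a (l 16774952) (l 16775024)) (a (l 16775096) (l 16775168)))) (c (a (a (l 73776473757262288191) (l 73777036707358315839)) (b (a (l 16775096) (l 68337771279)) (a (l 73777634841809251647) (l 73778197791905279295)))) (a (a (l 73775101566432056639) (a (l 73775594147758740799) (l 73775910807183037759))) (b (a (l 16774824) (l 68287437071))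 (a (l 73776403388492541247) (l 73777071891730001215))))))) (a (a (l 16774664) (l 16774808)) (a (l 16774944) (l 16775088)))) (a (a (l 16774656) (l 16774800)) (a (l 16774936) (l 16775080)))))), by decide +kernel⟩

def k26_A00pm_112_s1 : ∃ t, chk3 f_A00pm_112_s1 t 66 21453 1 = true :=
  ⟨(a (b (b (b (a (c (a (l 16775704) (l 16775760)) (a (l 16775280) (l 16775352))) (c (a (l 16775816) (l 16775864)) (a (l 16775424) (l 16775496)))) (b (a (c (a (l 16775688) (l 16775744)) (a (l 16775240) (l 16775320))) (a (c (l 16775792) (l 16775392)) (c (l 16775848) (l 16775464)))) (b (a (c (a (l 16775672) (l 68413273359)) (a (l 16775216) (l 16775288))) (c (a (l 68413275407) (l 68413273359)) (a (l 16775360) (l 16775432)))) (a (c (c (l 73780801436052221247) (l 73779816273398852927)) (a (l 73778127423135935807) (l 73778444082568621375))) (c (a (l 73780660698530311487) (l 73780906989193653567)) (a (l 73778760741992918335) (l 73779077401417215295))))))) (a (c (l 16775696) (l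 16775232)) (a (l 16775560) (l 16775624)))) (a (c (l 16775688) (l 16775224)) (a (l 16775552) (l 16775616)))) (a (c (b (b (b (a (l 16775920) (l 16775976)) (b (a (l 16775904) (l 16775960)) (b (a (l 68413273871) (l 68421662479)) (a (l 73781153279856995647) (l 73781364386148248895))))) (l 68413273359)) (l 16775904)) (b (b (b (l 68346160399) (b (l 68337773327) (b (a (l 16775512) (l 16775584)) (a (l 73779394060841512255) (l 73779710720265809215))))) (l 16775520)) (l 16775520))) (c (b (b (b (l 68430051599) (b (l 68430053647) (b (a (l 16776000) (l 16776056)) (a (l 73781610676811590975) (l 73781856967466544447))))) (l 16776016)) (l 16776008)) (b (b (b (l 16775752) (b (l 68346160399) (a (l 73780027379715675455) (l 73780379223512061247)))) (l 16775672)) (l 16775664))))), by decide +kernel⟩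

def k27_A00pm_112_s1 : ∃ t, chk3 f_A00pm_112_s1 t 67 21453 1 = true :=
  ⟨(a (a (c (b (b (b (l 16776168) (b (l 68430052111) (a (l 73782068073766589759) (l 73782314364429931839)))) (l 16776120)) (l 16776120)) (b (b (b (l 16775904) (b (l 16775872) (a (l 73780695882936358207) (l 73781012542360655167)))) (l 16775816)) (l 16775808))) (b (b (b (c (l 16776272) (l 16776040)) (c (b (l 16776256) (a (l 73782560655093273919) (l 73782771761376138559))) (a (l 73781329201810583359) (l 73781645861226491711)))) (l 68463608079)) (l 68463608079))) (a (b (b (b (l 68421662991) (b (l 68421664527) (c (a (l 73783018052039480639) (l 73783229158322345279)) (l 73782103258163844415)))) (l 68404884751)) (l 68404884751)) (a (c (c (l 73783651370905926975) (l 73783229158348586303)) (l 73782560655136292159)) (c (l 73783651370905926975) (l 73782842130180111679))))), by decide +kernel⟩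

def k28_A00pm_112_s1 : ∃ t, chk3 f_A00pm_112_s1 t 17 21453 1 = true :=
  ⟨(a (a (b (b (a (b (a (l 16776496) (a (l 16776568) (a (l 16776600) (b (a (l 16776624) (l 16776632)) (l 16776616))))) (a (c (l 73784003214701702975) (l 73783264342728453951)) (c (l 73784390242878566207) (b (l 16776520) (l 73783792108418372927))))) (c (b (a (c (l 16776736) (l 16776688)) (l 16776760)) (a (b (a (l 16776696) (l 16776728)) (b (l 68488775951) (l 68488775951))) (b (l 16776760) (c (l 68505554191) (a (l 73784847639815918911) (l 68480386831)))))) (a (b (a (c (c (l 16776632) (l 16776608)) (b (l 16776568) (a (l 16776560) (l 16776576)))) (l 16776624)) (b (a (c (l 16776616) (b (l 16776568) (l 16776560))) (a (b (l 16776616) (b (l 16776616) (l 16776616))) (b (l 16776632) (l 16776632)))) (a (l 73784108767842669887) (b (a (l 68446830351) (b (a (l 16776632) (l 16776640)) (b (l 16776632) (l 16776632)))) (l 73784319874116742463))))) (b (l 16776672) (b (l 1069488367) (c (a (b (l 68463608079)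 (a (l 68455219471) (l 68463608079))) (l 68463608591)) (a (b (a (b (l 16776624) (b (l 16776624) (a (l 68438441231) (l 68438441231)))) (l 16776640)) (b (b (b (a (l 68438441231) (l 68438441231)) (a (l 73784355058497133375) (b (l 68438441231) (a (l 73784425427249644863) (a (l 73784460611630122303) (l 68438441231)))))) (a (l 68430052111) (c (l 68438441231) (l 73784390242869098303)))) (l 16776624))) (b (l 16776664) (l 68438441231))))))))) (a (a (l 16776448) (l 16776552)) (a (l 68463608591) (a (l 68471997711) (l 68471997711))))) (a (a (l 16776440) (l 16776544)) (a (l 68463608591) (a (l 68471997711) (l 68471997711))))) (c (l 18382563999217601231) (a (a (a (l 73784742086675561791) (l 73784882824189082943)) (a (l 18369052375659822799) (l 18369052375659822799))) (c (l 18373556250173489871) (l 18366800438390406351))))) (a (c (l 18382563999225989839) (a (l 18371304175473508047) (l 18371304312912462031))) (a (l 18378060124695545551) (a (l 18378060124695545551)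 (l 18378060124695545551))))), by decide +kernel⟩

def k29_A00pm_112_s1 : ∃ t, chk3 f_A00pm_112_s1 t 36 21453 2 = true :=
  ⟨(a (a (c (l 18389319673561730767) (l 18382563861778647247)) (a (l 18384815936478629071) (c (l 18389319673561730767) (l 18382563999217600719)))) (a (a (a (l 18384815936478629071) (l 18387067736292314319)) (a (a (l 18387067736292314319) (l 18387067736292314287)) (l 18387067736292314287))) (l 1324927862489634182322045968476785455))), by decide +kernel⟩

def k30_A00pm_112_s1 : ∃ t, chk3 f_A00pm_112_s1 t 36 21453 6 = true :=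
  ⟨(a (a (l 18375808187434517199) (a (l 18375808187434517199) (c (l 18378059987256591567) (l 18375808049987175119)))) (a (a (a (l 18375808187434517199) (c (l 18378060124695545039) (l 18375808049995563727))) (a (a (l 18375808187434517199) (l 18375808187434517167)) (l 18375808187434517167))) (l 1324278785765818035618381177921979183))), by decide +kernel⟩

def k31_A00pm_112_s1 : ∃ t, chk3 f_A00pm_112_s1 t 36 21453 7 = true :=
  ⟨(a (a (a (l 18369052375651434191) (l 18369052375651434191)) (b (a (b (b (l 1069383919) (l 18369052375651434191)) (l 18371304175465119439)) (b (b (l 1069375727) (a (l 18371304175465119439) (a (l 18371304175465119439) (l 18371304175465119439)))) (l 18371304175465119439))) (l 68446830351))) (b (b (b (b (b (a (a (l 1069337327) (a (l 1069304047) (l 1069270591))) (l 3)) (a (a (l 1069348079) (a (l 1069317871) (l 1069286463))) (a (a (a (a (l 1069256767) (l 3)) (l 3)) (l 3)) (l 3)))) (a (a (l 1069367535) (a (l 1069341423) (l 1069314623)))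 (a (a (a (l 1069281855) (b (l 3) (a (l 1069271103) (a (l 1069258815) (l 3))))) (l 3)) (l 3)))) (c (a (b (a (l 1069488879) (a (l 1069471471) (l 1069453887))) (a (a (l 18371304312912461519) (l 18371304312912461519)) (a (l 18371304312912461519) (l 18371304312912461487)))) (b (l 1323791988127080767351027246970158895) (l 1323791988127080767351027246970158895))) (b (a (a (l 1069307119) (a (l 1069289711) (l 1069272127))) (a (c (l 18369052375651433647) (b (a (a (l 1069182015) (l 1069156927)) (a (a (l 1069131327) (l 3)) (l 3))) (b (c (l 18369052238212480175) (l 18378059437458832047)) (l 18369052238204091567)))) (l 3))) (c (b (a (a (a (l 1069378287) (l 1069376751)) (a (l 1069373167) (l 1069366847))) (l 1323629718946126739899046070499394863)) (a (a (l 18378059574906174671) (a (l 18369052375651433679) (l 1069394495))) (l 1323629718946126739899046070499392815))) (b (b (a (a (l 1069280495) (l 1069270255)) (a (l 18369052238204091567) (a (l 18378059437467221167)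 (l 3)))) (a (a (l 1069292271) (a (l 1069286639) (l 1069281343))) (a (l 18369052238204091567) (a (l 18369052238212480175) (a (l 3) (l 18369052238212480191)))))) (a (a (a (l 18369052238204091599) (l 18369052238204091599)) (a (l 18369052238204091599) (l 1069302847))) (a (l 18369052238204091567) (a (l 18369052238212480175) (l 1323629709042606425616003871298009903))))))))) (a (a (l 68446830351) (a (l 18371304175465119439) (l 1069444671))) (l 1323791978223560453067985047768778031))) (a (a (l 68446830351) (l 68446830351)) (l 1323791978223560453067985047768778031)))), by decide +kernel⟩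

def k32_A00pm_112_s1 : ∃ t, chk3 f_A00pm_112_s1 t 37 21453 1 = true :=
  ⟨(c (a (a (l 18387067736292314303) (a (a (a (l 18387067736292314335) (l 18387067736292314335)) (l 18384815936478629087)) (a (l 18384815936478629087) (l 18384815936478629087)))) (a (c (l 18389319673561730783) (l 18382563861778647263)) (l 18384815936478628575))) (b (a (b (b (a (c (l 18375808187434517183) (a (a (l 3) (a (l 3) (b (l 3) (a (b (l 3) (l 1069260879)) (l 1069265999))))) (a (a (b (a (b (l 3) (l 1069248079)) (l 1069253711)) (l 1069286479)) (a (l 1069286991) (l 1069296719))) (l 1069319759)))) (a (a (a (b (l 1069500159) (l 1069528319)) (l 1069525759)) (b (l 1069523711) (l 1069547263))) (b (l 1069542143) (l 1069562111)))) (b (a (c (l 18375808187434517183) (c (l 18371304312912461503) (c (l 18369052375651433663) (c (l 18378059437467221183) (a (a (a (l 3) (b (l 3) (l 18378059437458832063))) (b (a (a (b (l 3) (l 1069103695)) (l 1069114959)) (l 1069139535)) (l 18369052238204091071)))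 (l 18378059437458832063)))))) (a (a (a (l 1069564671) (l 1069570303)) (l 1069576959)) (l 1069586175))) (b (a (c (l 18378059987248202431) (c (l 18371304312912461503) (c (l 18369052375651433663) (l 18378059437458832575)))) (a (a (b (l 1069592319) (l 1069607167)) (l 1069605631)) (a (l 1069606655) (l 1069607167)))) (a (c (l 18378059987248202431) (l 18371304175473508031)) (a (a (a (a (l 1069620815) (l 18373556250173489375)) (l 18373556250173489375)) (c (l 18375808187434517215) (l 18371304175465119455))) (a (l 18373556112734535903) (l 18373556112734535903))))))) (a (l 18373556250173489343) (a (a (l 68455219487) (l 18373556250173489375)) (l 68455219487)))) (a (b (b (l 1069570815) (a (a (l 18373556112734535903) (l 18373556112734535903)) (l 18373556112734535903))) (l 68455219487)) (a (l 18373556112734535903) (l 18373556112734535903)))) (a (a (l 18373556250173489343) (a (l 68455219487) (l 68455219487))) (a (l 68455219487) (l 18373556112734535903))))), by decide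 +kernel⟩

def k33_A00pm_112_s1 : ∃ t, chk3 f_A00pm_112_s1 t 19 21453 1 = true :=
  ⟨(a (a (a (a (l 18378060124695545567) (l 18378060124695545567)) (l 18378060124695545055)) (a (l 18378059987256592607) (a (l 18375808187442906335) (l 18375808187442906335)))) (a (a (c (l 18382563999217601247) (a (l 18369052375659822815) (l 18369052375659822815))) (c (b (b (b (l 1070205695) (b (l 1070218495) (b (l 68497165087) (l 68497165087)))) (l 68497165087)) (l 68497165087)) (a (a (l 73784918008577948991) (l 73784812455428128063)) (a (l 73784671717914606911) (b (b (b (l 16776664) (b (l 16776664) (a (c (l 68463608607) (b (l 16776648) (l 68438441247))) (b (c (l 16776688) (l 68438441247)) (c (l 68455219487) (b (b (b (l 68438441247) (a (b (l 68438441247) (l 73784460611630122303)) (a (l 73784425427249699647) (l 73784390242877610815)))) (a (l 68438441247) (l 68438441247))) (l 16776632))))))) (l 68446830367)) (l 68446830367)))))) (b (b (a (c (b (a (l 68497164575) (a (l 16776680)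 (l 16776648))) (a (b (a (l 16776736) (l 16776712)) (c (l 73784882824204784959) (a (l 73784742086682875199) (l 68480386335)))) (l 73784460611639521087))) (a (b (a (l 16776640) (a (l 16776616) (b (l 16776600) (a (l 16776608) (l 16776600))))) (b (c (a (l 16776664) (c (l 16776640) (l 16776616))) (a (a (l 16776624) (b (l 16776608) (l 16776608))) (a (b (l 16776592) (l 16776592)) (b (l 16776568) (l 16776568))))) (b (a (c (b (l 16776664) (l 68455219487)) (a (b (l 16776624) (b (l 16776624) (a (l 68438441247) (l 16776616)))) (b (c (l 16776616) (l 16776592)) (l 16776600)))) (l 68438441247)) (a (c (l 68455219487) (c (l 73784355058488831295) (a (b (b (b (l 68430052127) (l 68430052127)) (l 68430052127)) (l 16776600)) (l 68421663007)))) (l 68438441247))))) (a (b (a (b (l 16776584) (l 16776584)) (b (l 16776568) (l 16776560))) (b (l 16776560) (l 73784003214692848959))) (b (l 16776528) (l 73783756924046749503))))) (b (a (l 68455219487) (l 16776416)) (a (c (l 73784073583462657855)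 (l 73783405080241975103)) (c (l 73783651370896928575) (l 73782842130162724671))))) (a (a (l 68463608607) (l 16776568)) (a (l 16776472) (l 16776360)))) (a (a (l 68463608607) (l 16776560)) (a (l 16776464) (l 16776360)))))), by decide +kernel⟩

def k34_A00pm_112_s1 : ∃ t, chk3 f_A00pm_112_s1 t 4 10727 1 = true :=
  ⟨(a (a (a (a (a (a (l 16774472) (l 16774592)) (a (l 16774712) (l 16774832))) (a (a (l 68362938639) (a (l 16775040) (l 16775104))) (a (a (l 16775160) (l 16775224)) (a (l 16775288) (l 16775344))))) (a (a (a (c (l 16775672) (l 16775208)) (a (l 16775536) (l 16775600))) (a (a (l 16775664) (l 16775720)) (a (l 16775784) (l 16775848)))) (a (a (c (l 16776096) (l 16775792)) (c (l 16776208) (l 16775936))) (a (l 68404884751) (l 16776312))))) (a (a (a (a (l 16776424) (l 16776520)) (a (l 68463608591) (a (l 68471997711) (l 68471997711)))) (a (l 68471997711) (l 68471997711))) (a (c (l 18382563999225989839) (l 68455219471)) (a (l 18378060124695545551) (l 18378060124695545551)))))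 (a (a (a (a (l 68480386831) (l 68480386831)) (a (a (l 68480386831) (l 68480386831)) (l 1069993007))) (a (a (l 1069993007) (a (l 68480386847) (l 68480386847))) (a (l 68480386847) (l 68480386847)))) (a (a (a (l 18378060124695545567) (l 18378060124695545055)) (a (l 18378059987256591583) (l 68471997727))) (a (a (l 68471997727) (a (l 68471997727) (a (l 16776712) (a (l 16776688) (l 16776680))))) (a (a (l 68463608607) (l 16776544)) (a (l 16776448) (l 16776336))))))), by decide +kernel⟩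

def k35_A00pm_112_s1 : ∃ t, chk3 f_A00pm_112_s1 t 4 5364 1 = true :=
  ⟨(a (a (a (a (a (a (l 16774416) (l 16774536)) (a (l 16774656) (l 16774776))) (a (a (l 16774896) (a (l 16774992) (l 16775048))) (a (a (l 16775112) (l 16775176)) (c (l 16775512) (l 16775008))))) (a (a (a (a (l 16775360) (l 16775424)) (a (l 16775488) (l 16775552))) (a (a (l 16775608) (l 16775672)) (a (l 16775736) (l 16775800)))) (a (a (c (l 16776048) (l 16775736)) (c (l 16776160) (l 16775880))) (a (l 16776144) (l 16776256))))) (a (a (a (a (l 16776368) (l 16776472)) (a (l 68463608591) (a (l 16776616) (l 68471997711)))) (a (l 68471997711) (l 18375808187442906319))) (a (l 68471997711) (l 68480386831)))) (a (a (a (a (l 68480386831) (l 68480386831)) (a (a (l 68480386831) (l 68480386831)) (l 1069994031))) (a (a (l 1069993519) (l 68480386847)) (a (l 68480386847) (l 68480386847)))) (a (a (l 68480386847) (a (l 18378059987256591583) (l 68471997727))) (a (a (l 68471997727) (a (l 18375808187434517727)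 (a (l 16776664) (l 68471997727)))) (a (a (l 68463608607) (l 16776496)) (a (l 16776400) (l 16776288))))))), by decide +kernel⟩

def k36_A00pm_112_s1 : ∃ t, chk3 f_A00pm_112_s1 t 4 10730 1 = true :=
  ⟨(a (a (a (a (a (l 68371328271) (a (l 16774600) (l 16774720))) (a (a (l 16774840) (l 16774968)) (a (l 16775088) (l 16775216)))) (a (a (a (l 16775344) (l 16775464)) (a (l 16775592) (l 16775720))) (a (a (l 16775848) (l 16775968)) (a (l 16776088) (l 16776208))))) (a (a (a (l 68446830351) (a (l 16776504) (a (l 16776560) (l 16776592)))) (c (l 18382563999217601231) (l 68446830351))) (a (l 18378059987256591567) (l 68480386831)))) (a (a (a (l 68480386831) (a (l 68480386831) (l 1069994543))) (a (a (l 1069994031) (l 68480386847)) (l 68480386847))) (a (a (l 68480386847) (c (l 18382563999225989855) (l 68455219487))) (a (a (l 18375808187442906335) (a (l 16776648) (l 68471997727))) (a (a (l 68463608607) (l 16776448)) (l 68438441247)))))), by decide +kernel⟩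

def k37_A00pm_112_s1 : ∃ t, chk3 f_A00pm_112_s1 t 4 21462 1 = true :=
  ⟨(a (a (a (a (a (l 16774392) (a (l 16774576) (l 16774696))) (a (a (l 16774816) (l 16774944)) (a (l 16775064) (l 16775192)))) (a (a (a (l 16775312) (l 16775440)) (a (l 16775568) (l 16775696))) (a (a (l 16775816) (l 16775944)) (l 68488771855)))) (a (a (a (l 68446830351) (a (l 16776480) (c (l 16776616) (l 68446830351)))) (l 68471997711)) (a (l 18378059987256591567) (l 18378060124695545551)))) (a (a (a (l 68480386831) (a (l 68480386831) (l 1069994543))) (a (a (l 1069994031) (l 68480386847)) (l 68480386847))) (a (a (l 18378060124695545567) (l 68471997727)) (a (a (l 18375808187442906335) (l 68471997727)) (a (a (l 16776504) (l 16776424)) (l 68438441247)))))), by decide +kernel⟩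

def k38_A00pm_112_s1 : ∃ t, chk3 f_A00pm_112_s1 t 4 21463 1 = true :=
  ⟨(a (a (a (a (a (l 16774368) (a (l 16774552) (l 16774672))) (a (a (l 16774800) (l 16774920)) (a (l 16775048) (l 16775168)))) (a (a (a (l 16775296) (l 16775424)) (a (l 16775552) (l 16775680))) (a (a (l 16775800) (l 16775928)) (c (l 16776224) (l 16775984))))) (a (a (a (l 16776320) (a (l 16776456) (a (l 16776520) (l 16776552)))) (a (a (l 16776592) (l 16776632)) (a (l 16776680) (l 16776720)))) (a (a (a (l 16776760) (l 16776800)) (a (l 16776832) (l 16776864))) (a (a (l 16776896) (l 16776920)) (a (l 16776944) (l 16776968)))))) (a (a (c (a (a (a (l 16777008) (l 16777024)) (a (l 16777032) (l 16777040))) (a (a (l 16777048) (l 16777056)) (a (l 16777064) (l 16777064)))) (a (a (a (l 16776960) (l 16776976)) (a (l 16776992) (l 16777008))) (a (a (l 16777016) (l 16777024)) (a (l 16777024) (l 16777032))))) (c (a (a (a (l 16777064) (l 16777056)) (a (l 16777056) (l 16777048))) (a (a (l 16777040)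 (l 16777024)) (a (l 16777008) (l 16776992)))) (a (a (a (l 16777032) (l 16777024)) (a (l 16777016) (l 16777008))) (a (a (l 16777000) (l 16776984)) (a (l 16776968) (l 16776952)))))) (a (a (a (a (l 16776952) (l 16776928)) (a (l 16776904) (l 16776872))) (a (a (l 16776848) (l 16776816)) (a (l 16776776) (l 16776736)))) (a (c (a (l 16776728) (a (l 16776664) (l 16776616))) (a (a (l 16776648) (l 16776600)) (a (l 16776552) (a (l 16776512) (l 16776480))))) (a (a (l 16776488) (l 16776408)) (c (l 16776352) (l 16776160))))))), by decide +kernel⟩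

def k39_A00pm_112_s1 : ∃ t, chk3 f_A00pm_112_s1 t 4 2683 1 = true :=
  ⟨(a (a (a (c (a (a (l 16774648) (l 16774864)) (a (a (l 16775024) (l 16775128)) (a (l 16775232) (l 16775344)))) (a (a (l 16773904) (l 16774184)) (a (a (l 16774392) (l 16774536)) (a (l 16774680) (l 16774824))))) (a (a (a (l 16775216) (l 16775336)) (a (l 16775464) (l 16775592))) (a (a (l 16775720) (l 16775840)) (c (l 16776144) (l 16775896))))) (a (a (a (a (l 16776184) (l 16776288)) (a (l 16776376) (a (l 16776440) (l 16776472)))) (a (a (l 16776504) (l 16776560)) (a (l 16776600) (l 16776648)))) (a (a (a (l 16776688) (l 16776720)) (a (l 16776752) (l 16776784))) (a (a (l 16776816) (l 16776840)) (a (l 16776864) (l 16776888)))))) (a (a (a (a (a (l 16776912) (l 16776928)) (a (l 16776936) (a (l 16776944) (l 16776952)))) (a (c (a (l 16776984) (l 16776992)) (a (l 16776936) (l 16776944))) (l 1069995615))) (a (a (l 1069995103) (c (a (l 16776984) (l 16776976)) (a (l 16776936) (l 16776928))))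 (a (a (l 16776944) (l 16776928)) (a (l 16776912) (l 16776896))))) (a (a (a (a (l 16776880) (l 16776856)) (a (l 16776832) (l 16776800))) (a (a (l 16776768) (l 16776736)) (a (l 16776704) (l 16776664)))) (a (c (a (c (l 16776688) (l 16776624)) (a (l 16776592) (l 16776544))) (a (a (l 16776568) (l 16776520)) (a (l 16776464) (a (l 16776424) (l 16776400))))) (a (a (l 16776416) (l 16776328)) (c (l 16776280) (l 16776080))))))), by decide +kernel⟩

def k40_A00pm_112_s1 : ∃ t, chk3 f_A00pm_112_s1 t 4 671 1 = true :=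
  ⟨(a (a (a (a (c (a (l 16774256) (l 16774480)) (a (l 16773480) (l 16773768))) (a (a (l 16774320) (l 16774448)) (a (a (l 16774544) (l 16774608)) (a (l 16774672) (l 16774736))))) (a (b (a (a (l 16774984) (l 16775112)) (a (l 16775240) (l 16775368))) (a (c (l 16775000) (l 16774488)) (c (l 16775224) (l 16774776)))) (a (a (l 16775344) (l 16775464)) (a (l 16775584) (l 16775704))))) (a (a (a (c (l 16775992) (l 16775736)) (a (l 16776008) (b (c (l 16776328) (l 16776144)) (l 16775944)))) (a (a (l 16776152) (l 16776200)) (a (l 16776248) (l 16776296)))) (a (a (a (l 16776336) (l 16776376)) (a (l 16776408) (l 16776448))) (a (a (l 16776472) (l 16776504)) (a (l 16776528) (l 16776552)))))) (a (a (a (b (b (a (a (l 16776776) (l 16776792)) (a (l 16776808) (l 16776816))) (a (l 16776648) (l 16776680))) (a (l 16776448) (l 16776480))) (a (a (l 16776624) (l 16776632)) (l 1069999199))) (a (a (l 1069999199) (a (l 16776632) (l 16776624))) (b (b (a (a (l 16776816) (l 16776800))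 (a (l 16776784) (l 16776768))) (a (l 16776672) (l 16776640))) (a (l 16776480) (l 16776448))))) (a (a (a (a (l 16776544) (l 16776520)) (a (l 16776496) (l 16776472))) (a (a (l 16776440) (l 16776400)) (a (l 16776368) (l 16776328)))) (a (b (a (c (l 16776472) (l 16776320)) (a (l 16776328) (a (l 16776288) (l 16776264)))) (a (l 16776128) (c (l 16776136) (l 16775920)))) (a (a (c (l 16776176) (l 16775968)) (l 16775984)) (c (l 16775968) (l 16775712))))))), by decide +kernel⟩

def k41_A00pm_112_s1 : ∃ t, chk3 f_A00pm_112_s1 t 5 82 1 = true :=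
  ⟨(a (a (l 3) (l 1)) (l 1)), by decide +kernel⟩

def k42_A00pm_112_s1 : ∃ t, chk3 f_A00pm_112_s1 t 5 166 1 = true :=
  ⟨(a (a (b (l 3) (b (a (l 3) (a (l 3) (a (a (l 3) (a (l 3) (a (a (a (l 3) (l 1)) (l 1)) (l 1)))) (l 1)))) (a (b (l 3) (a (l 3) (b (l 3) (a (l 3) (b (l 3) (b (l 3) (l 1068462735))))))) (b (a (b (l 3) (a (l 3) (b (a (l 3) (a (l 3) (b (a (l 3) (l 1068602511)) (l 1068616335)))) (a (a (l 3) (a (l 3) (b (l 3) (l 1068594831)))) (b (l 1068620431) (l 1068645007)))))) (a (b (a (b (a (l 3) (b (l 3) (c (l 1068903055) (l 1068305039)))) (b (a (l 3) (l 1068624015)) (l 1068627599))) (b (b (a (l 1068080783) (l 1068653711)) (l 1068657295)) (l 1068691087))) (b (b (l 1068688015) (l 1068711055)) (l 1068747919))) (l 1))) (a (b (a (b (l 3) (a (l 3) (b (l 1068554895) (l 1068582543)))) (b (a (b (c (l 1068623503) (a (l 1068267151) (l 1068309647))) (a (l 1068593807) (l 1068635279))) (b (l 1068670095) (l 1068695695))) (a (b (l 1068640911) (l 1068668047)) (l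 1068736143)))) (a (b (b (l 1068565647) (l 1068594319)) (l 1068640399)) (b (a (l 1068711055) (l 1068790415)) (l 1068808335)))) (b (a (b (l 1068796559) (l 1068847759)) (l 1)) (a (l 1068933263) (l 1069063311)))))))) (l 1)) (l 1)), by decide +kernel⟩

def k43_A00pm_112_s1 : ∃ t, chk3 f_A00pm_112_s1 t 40 334 1 = true :=
  ⟨(a (b (b (l 3) (a (b (l 3) (b (l 1068289679) (l 1068384911))) (b (b (l 1068359311) (l 1068449935)) (b (l 1068546191) (l 1068637327))))) (b (b (a (l 1068452095) (l 1068706559)) (a (l 1068754175) (l 1068850943))) (b (a (l 1068971263) (l 1069038335)) (a (l 1069195007) (l 1069240575))))) (a (b (b (b (l 3) (b (l 1068438159) (l 1068515471))) (b (b (l 1068596879) (l 1068683407)) (b (l 1068774543) (l 1068853903)))) (b (b (l 1068893951) (l 1069004031)) (b (l 1069153535) (b (l 1069276927) (l 1069367039))))) (b (b (b (b (l 1068512911) (l 1068579471)) (b (l 1068650127) (l 1068723855))) (b (l 1068853391) (b (l 1068969615) (l 1069044367)))) (b (b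 (l 1069075711) (l 1069159167)) (b (l 1069278975) (b (l 1069381887) (a (l 16776184) (c (l 16776192) (l 16776024))))))))), by decide +kernel⟩

def k44_A00pm_112_s1 : ∃ t, chk3 f_A00pm_112_s1 t 82 334 1 = true :=
  ⟨(b (b (b (a (b (l 1068701839) (l 1068766351)) (b (l 1068867727) (l 1068929167))) (a (l 1068877455) (l 1069035151))) (b (b (l 1069056655) (l 1069131919)) (b (l 1069210255) (a (l 1069207183) (l 1069345423))))) (a (b (b (l 1069234943) (l 1069301503)) (a (b (l 1069369599) (b (l 16776088) (a (b (l 16776064) (b (l 16776040) (l 16776024))) (b (l 16776024) (b (l 16776000) (l 16775968)))))) (b (l 1069427455) (b (c (l 16776096) (c (l 16775960) (l 16775872))) (b (a (b (l 16775992) (l 16775968)) (b (l 16775944) (l 16775912))) (l 16775896)))))) (a (b (b (l 1069338879) (l 1069396735)) (b (l 1069482751) (a (b (b (l 16775960) (b (l 16775936) (l 16775912))) (l 16775832)) (b (b (b (l 16775928) (l 16775912)) (l 16775864)) (l 16775768))))) (b (b (l 1069402367)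 (l 1069456127)) (b (b (l 16775960) (b (l 16775920) (a (l 16775904) (b (l 16775872) (l 16775848))))) (b (b (a (c (l 16775968) (l 16775760)) (l 16775800)) (l 16775776)) (l 16775672))))))), by decide +kernel⟩

def k45_A00pm_112_s1 : ∃ t, chk3 f_A00pm_112_s1 t 83 334 1 = true :=
  ⟨(c (b (b (b (l 1069413007) (l 1069535375)) (b (b (l 1069625487) (l 1069693583)) (b (l 1069763727) (a (l 1069773455) (l 1069873807))))) (b (b (l 1069853951) (a (a (l 16776064) (c (l 16776032) (l 16775936))) (a (b (l 16775928) (b (a (l 16775912) (l 16775864)) (a (l 16775872) (l 16775824)))) (l 1)))) (a (b (b (a (l 16775976) (b (a (l 16775936) (l 16775888)) (l 16775864))) (a (b (a (l 16775952) (l 16775904)) (l 16775880)) (l 16775792))) (b (l 16775736) (l 16775624))) (b (a (l 16775720) (l 1)) (b (l 16775504) (b (l 16775416) (l 16775360))))))) (b (b (b (l 1068813455) (l 1068932239)) (b (b (l 1069018767) (l 1069083279)) (b (l 1069149839) (a (l 1069155471) (l 1069256847))))) (b (b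 (a (l 1069179647) (l 1069280511)) (a (a (l 16775880) (c (l 16775832) (l 16775736))) (a (b (l 16775720) (b (a (l 16775696) (l 16775640)) (a (b (l 16775664) (l 16775648)) (l 16775592)))) (l 1)))) (a (b (b (a (c (l 16775824) (l 16775720)) (b (a (l 16775720) (l 16775664)) (a (l 16775680) (l 16775608)))) (a (b (a (l 16775744) (l 16775688)) (l 16775656)) (l 16775552))) (b (l 16775480) (l 16775336))) (b (b (c (l 16775528) (l 16775400)) (l 16775336)) (b (l 16775192) (b (l 16775080) (l 7549742775)))))))), by decide +kernel⟩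

def k46_A00pm_112_s1 : ∃ t, chk3 f_A00pm_112_s1 t 21 334 1 = true :=
  ⟨(l 1), by decide +kernel⟩

def k47_A00pm_112_s1 : ∃ t, chk3 f_A00pm_112_s1 t 10 2680 2 = true :=
  ⟨(b (a (a (a (l 1069717247) (b (a (l 16776328) (a (l 16776224) (c (l 16776192) (l 16776104)))) (a (c (l 16776344) (l 16776264)) (a (a (l 16776216) (l 16776176)) (l 16776096))))) (a (a (a (b (l 16776048) (l 16775992)) (l 16775912)) (b (l 16775768) (l 16775704))) (a (b (l 16775536) (a (l 16775536) (l 16775416))) (b (a (l 16775360) (l 16775248)) (a (l 16775304) (l 16775184)))))) (l 1)) (a (a (a (a (l 1069830399) (a (l 16776432) (b (l 16776384) (a (l 16776376) (l 16776344))))) (a (a (b (l 16776312) (b (l 16776296) (l 16776264))) (b (a (l 16776264) (l 16776216)) (l 16776184))) (a (b (l 16776144) (l 16776072)) (l 16776000)))) (a (a (b (l 16775864) (a (l 16775856) (l 16775744))) (b (a (l 16775696) (l 16775584)) (a (l 16775632) (b (l 16775536) (l 16775496))))) (a (b (a (l 16775472) (l 16775352))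 (a (b (l 16775416) (l 16775384)) (b (l 16775304) (l 16775272)))) (b (a (l 16775240) (l 1644162983)) (a (b (l 16775192) (l 16775152)) (b (l 16775072) (l 16775040))))))) (l 1))), by decide +kernel⟩

def k48_A00pm_112_s1 : ∃ t, chk3 f_A00pm_112_s1 t 10 2680 3 = true :=
  ⟨(a (a (b (a (l 1069576959) (a (a (l 16776200) (c (l 16776168) (l 16776088))) (a (b (l 16776056) (a (a (l 16776056) (l 16776040)) (b (l 16776016) (l 16775984)))) (b (a (c (l 16776040) (l 16775952)) (b (l 16775960) (l 16775928))) (a (l 16775936) (l 16775872)))))) (b (a (l 1069121791) (a (a (c (l 16776200) (l 16776120)) (a (b (l 16776112) (l 16776088)) (b (l 16776064) (l 16776032)))) (a (b (l 16775976) (l 16775928)) (l 16775816)))) (a (a (l 1069167359) (a (l 16776288) (a (l 16776232) (b (l 16776200) (a (l 16776192) (l 16776168)))))) (a (a (a (b (l 16776160) (l 16776128)) (b (l 16776112) (l 16776064))) (l 16775992)) (l 16775792))))) (a (a (b (a (b (l 16775848) (l 16775768)) (l 16775672))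 (b (l 16775616) (a (l 16775584) (l 16775440)))) (b (b (l 16775504) (l 16775416)) (b (a (l 16775400) (l 16775256)) (a (l 16775296) (b (l 16775176) (l 16775120)))))) (b (a (b (l 16775216) (a (l 16775200) (l 16775056))) (a (b (l 16774992) (l 16774912)) (b (l 16774848) (l 16774760)))) (a (b (a (l 16775104) (l 16774960)) (a (b (l 16775032) (l 16774976)) (b (l 16774888) (l 16774832)))) (a (a (b (l 16774848) (l 16774744)) (b (l 16774776) (l 16774672))) (a (b (l 16774704) (l 16774600)) (l 1))))))) (l 1)), by decide +kernel⟩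

def k49_A00pm_112_s1 : ∃ t, chk3 f_A00pm_112_s1 t 20 10724 1 = true :=
  ⟨(a (a (a (a (l 1069585663) (a (l 16776416) (b (l 16776392) (c (l 16776448) (l 16776304))))) (a (c (b (l 16776408) (c (l 16776432) (l 16776352))) (a (b (l 16776288) (b (l 16776272) (l 16776256))) (b (l 16776248) (c (l 16776256) (l 16776176))))) (a (b (b (a (l 16776296) (l 16776272)) (l 16776272)) (l 16776240)) (b (l 16776224) (l 16776184))))) (a (a (a (l 16776144) (l 16776088)) (a (l 16776024) (l 16775968))) (a (b (l 16775896) (l 16775848)) (c (l 16775888) (l 16775608))))) (a (a (a (b (l 16775648) (a (l 16775624) (l 16775560))) (b (a (l 16775552) (l 16775488)) (c (l 16775640) (l 16775288)))) (a (b (a (l 16775424) (l 16775360)) (c (l 16775528) (l 16775144))) (b (c (l 16775456) (l 16775064)) (a (b (l 16775256) (l 16775224)) (b (l 16775192) (l 16775160)))))) (a (a (b (c (l 16775344) (l 68388104991)) (c (a (l 16775336) (l 16775280)) (a (l 16774888) (l 16774816)))) (b (c (l 16775232)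 (a (l 16774808) (l 16774736))) (c (a (l 16775224) (l 16775168)) (a (l 16774744) (l 16774672))))) (c (a (b (l 16775120) (c (l 16775216) (l 16774952))) (b (l 16775008) (a (l 16775000) (l 1)))) (a (b (a (l 16774664) (l 16774592)) (a (l 16774600) (l 16774528))) (a (b (l 16774520) (l 16774456)) (l 1))))))), by decide +kernel⟩

def k50_A00pm_112_s1 : ∃ t, chk3 f_A00pm_112_s1 t 20 10725 2 = true :=
  ⟨(b (a (a (a (a (l 16776520) (a (l 16776464) (l 16776424))) (a (l 16776352) (l 16776256))) (a (a (l 16776152) (l 16776040)) (a (l 16775928) (l 16775824)))) (a (a (a (l 68446829343) (b (l 16775608) (l 16775584))) (a (b (l 16775496) (l 16775472)) (a (l 16775400) (l 16775352)))) (a (a (a (l 16775296) (l 16775240)) (c (l 16775280) (l 16775024))) (a (b (l 16775056) (l 16775032)) (b (l 16774944) (l 16774920)))))) (c (a (a (a (a (b (l 16776536) (l 16776528)) (l 16776448)) (l 68480386335)) (a (a (l 16776160) (l 16776056)) (a (l 16775952) (l 68463607583)))) (a (a (a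 (b (l 16775760) (l 16775744)) (b (l 16775664) (l 16775640))) (a (b (l 16775560) (l 16775536)) (l 68455220511))) (a (a (l 68455218463) (l 16775248)) (a (l 16775144) (l 16775040))))) (a (a (a (a (b (l 16776472) (l 16776456)) (l 16776368)) (l 16776208)) (a (a (l 16776032) (l 16775920)) (a (l 16775800) (l 16775680)))) (a (a (a (l 68421664031) (b (l 16775464) (l 16775424))) (a (b (l 16775344) (l 16775312)) (a (l 16775232) (l 16775176)))) (a (a (b (l 16775104) (l 16775072)) (b (l 16774984) (l 16774960))) (a (l 16774856) (l 16774736))))))), by decide +kernel⟩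

def k51_A00pm_112_s1 : ∃ t, chk3 f_A00pm_112_s1 t 20 10725 3 = true :=
  ⟨(a (a (b (a (b (a (l 16776392) (a (l 16776336) (a (l 16776304) (l 16776280)))) (a (c (l 16776416) (l 16776352)) (a (c (l 16776352) (l 16776288)) (l 16776264)))) (a (l 16776192) (l 16776064))) (a (a (a (b (a (l 16776408) (l 16776384)) (c (l 16776408) (l 16776344))) (b (a (l 16776360) (l 16776336)) (l 16776320))) (a (l 16776280) (l 16776216))) (a (l 16776120) (l 16775992)))) (a (b (a (l 16775928) (l 16775792)) (a (l 16775856) (l 16775712))) (b (a (l 16775648) (l 16775512)) (a (b (l 16775592) (l 16775544)) (b (l 16775448) (l 16775400)))))) (a (a (b (a (l 16775360) (b (l 16775240) (l 16775200))) (a (b (l 16775304) (l 68362938143)) (b (l 16775152) (a (l 16775144) (l 16775072))))) (b (a (b (l 16775096) (l 16775056)) (a (l 16774960) (l 16774888))) (a (b (l 68362940191) (a (l 16775000) (l 16774928))) (b (a (l 16774904) (l 16774832)) (a (l 16774856) (l 16774784)))))) (a (b (a (a (l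 16774816) (l 16774744)) (a (l 16774672) (l 16774600))) (a (b (l 68362938143) (b (l 16774688) (l 16774664))) (b (l 68354549535) (b (l 16774544) (l 16774520))))) (a (b (b (l 16774512) (l 16774472)) (b (l 16774432) (l 16774384))) (a (b (l 16774384) (l 16774304)) (l 1)))))), by decide +kernel⟩

def k52_A00pm_112_s1 : ∃ t, chk3 f_A00pm_112_s1 t 21 5362 1 = true :=
  ⟨(l 1), by decide +kernel⟩

def k53_A00pm_112_s1 : ∃ t, chk3 f_A00pm_112_s1 t 20 21452 2 = true :=
  ⟨(a (a (a (b (l 68471997215) (a (l 16776432) (l 68455218975))) (b (a (l 16776264) (l 16776160)) (a (b (l 16776232) (l 16776208)) (b (l 16776128) (l 68438440735))))) (a (b (a (l 16776048) (l 68438440735)) (a (b (l 16776024) (a (l 16776024) (l 16775968))) (b (l 68438440223) (a (l 16775912) (l 16775856))))) (b (a (a (l 16775856) (l 16775800)) (a (l 16775752) (l 16775696))) (a (b (l 68430051615) (a (l 16775808) (l 16775752))) (b (a (l 16775720) (l 16775664)) (a (l 16775696) (l 16775640))))))) (a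 (a (b (a (a (l 16775640) (l 16775584)) (a (l 16775528) (l 16775472))) (a (b (a (l 16775608) (l 16775560)) (a (l 16775584) (l 16775536))) (b (l 68421664543) (a (l 16775480) (l 16775424))))) (b (a (c (l 16775512) (l 16775272)) (b (l 16775296) (l 16775280))) (a (b (l 68421662495) (b (l 16775352) (l 16775336))) (b (l 68421662495) (b (l 16775248) (l 16775232)))))) (a (b (a (b (l 16775184) (l 16775168)) (b (l 16775080) (l 16775064))) (a (b (l 16775152) (l 16775128)) (b (l 16775048) (l 16775024)))) (b (a (l 16774960) (l 16774856)) (a (b (l 16774936) (l 16774920)) (l 16774824)))))), by decide +kernel⟩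

def k54_A00pm_112_s1 : ∃ t, chk3 f_A00pm_112_s1 t 20 21452 3 = true :=
  ⟨(a (a (a (b (a (l 16776312) (l 16776184)) (a (l 16776256) (l 16776128))) (b (a (l 16776056) (l 16775920)) (a (b (l 16776008) (l 16775968)) (b (l 16775872) (l 16775832))))) (a (b (a (l 16775776) (l 16775632)) (a (b (l 16775728) (l 68354549535)) (b (l 16775584) (a (l 16775576) (l 16775504))))) (b (a (l 68362938655) (a (l 16775376) (l 16775304))) (a (b (l 68354549535) (a (l 16775424) (l 16775352))) (b (l 68346160415) (a (l 16775280) (l 16775208))))))) (a (a (b (a (a (l 16775232) (l 16775160)) (a (l 16775088) (l 16775016))) (a (b (a (l 16775184) (l 16775104)) (a (l 16775136) (l 16775064))) (b (l 68337774367) (c (l 16775080) (l 16774824))))) (b (a (a (l 16774944) (l 16774872)) (c (l 16774896) (l 16774632))) (a (b (l 68337773343) (a (l 16774848) (l 16774776))) (b (l 68337771295) (b (l 16774680) (l 16774656)))))) (a (b (a (b (l 16774632) (l 16774600)) (b (l 16774488) (l 16774464)))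 (a (b (l 16774568) (b (l 16774536) (l 16774512))) (b (l 16774424) (l 16774384)))) (b (a (l 16774336) (l 16774192)) (a (b (l 16774288) (l 16774248)) (b (l 16774144) (l 16774104))))))), by decide +kernel⟩

def k55_A00pm_112_s1 : ∃ t, chk3 f_A00pm_112_s1 t 21 21452 1 = true :=
  ⟨(l 1), by decide +kernel⟩

def k56_A00pm_112_s1 : ∃ t, chk3 f_A00pm_112_s1 t 80 21453 1 = true :=
  ⟨(a (a (b (b (b (l 68430051615) (b (l 68421662495) (a (l 73782877314517570879) (l 73782595839482139967)))) (l 16776248)) (l 16776240)) (b (b (a (b (l 16776216) (c (l 73782877314526424895) (l 73781786598748401471))) (b (l 16776152) (b (l 16776128) (a (l 73782138442527544639) (l 73781997705005634879))))) (l 68430054175)) (l 68430052127))) (c (a (b (b (b (l 16776184) (b (l 68438440735) (a (l 73782419917571364159) (l 73782173626908022079)))) (l 16776144)) (l 16776144)) (b (b (b (l 68430052127) (b (l 68430051615) (b (a (l 16776072) (l 16776024)) (a (l 73781927336235887935) (l 73781716229944634687)))))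 (l 16776040)) (l 16776032))) (a (b (b (b (l 16775928) (b (l 16775896) (a (l 73781153279882564927) (l 73780836620458267967)))) (l 16775848)) (l 16775840)) (b (b (b (l 16775784) (b (l 16775752) (a (l 73780484776661882175) (l 73780168117237585215)))) (l 16775704)) (l 16775696))))), by decide +kernel⟩

def k57_A00pm_112_s1 : ∃ t, chk3 f_A00pm_112_s1 t 81 21453 1 = true :=
  ⟨(a (a (b (c (b (b (a (l 16776000) (l 16775944)) (b (a (l 16775984) (l 16775928)) (b (a (l 16775968) (l 68413273887)) (a (l 73781469939289681215) (l 73781223648626339135))))) (l 68413273375)) (b (b (l 68346160415) (b (l 68337773343) (a (l 73779851457804899647) (a (l 73779605167141557567) (l 73779464429619647807))))) (l 16775552))) (a (l 16775768) (l 16775712))) (b (b (b (c (a (l 16775888) (l 16775832)) (a (l 16775528) (l 16775456))) (b (a (c (l 16775872) (l 16775496)) (c (l 16775816) (l 16775424))) (b (c (a (l 68413273887) (l 68413275423)) (a (l 16775464) (l 16775392))) (c (a (l 73781012542335085887)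 (l 73780766251671743807)) (a (l 73779218138939125055) (l 73778901479514828095)))))) (a (l 16775648) (l 16775584))) (a (l 16775648) (l 16775584)))) (b (b (b (a (c (a (l 16775784) (l 16775728)) (a (l 16775384) (l 16775304))) (c (a (l 16775672) (l 16775616)) (a (l 16775232) (l 16775160)))) (b (a (c (a (l 16775760) (l 16775712)) (a (l 16775344) (l 16775272))) (c (a (l 16775656) (l 16775600)) (a (l 16775200) (l 16775128)))) (b (a (c (a (l 68413273375) (l 68413273375)) (a (l 16775320) (l 16775248))) (c (a (l 16775640) (l 16775584)) (a (l 16775176) (l 16775096)))) (a (c (a (l 73780519961008401727) (l 73780308854725537087)) (a (l 73778549635710053695) (l 73778232976285756735))) (c (a (l 73780062564062195007) (l 73779851457770941759)) (c (l 73778338529418800447) (l 73777212629251910975))))))) (a (c (l 16775720) (l 16775264)) (a (l 16775400) (l 16775336)))) (a (c (l 16775712) (l 16775256)) (a (l 16775392) (l 16775336))))), by decide +kernel⟩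

def k58_A00pm_112_s1 : ∃ t, chk3 f_A00pm_112_s1 t 41 21453 1 = true :=
  ⟨(c (a (a (a (b (b (b (a (l 16775568) (l 16775512)) (b (a (l 16775544) (l 16775496)) (a (a (l 73779675535877346623) (l 73779534798363825471)) (l 73779394060833527103)))) (l 16775512)) (l 16775504)) (b (b (b (a (l 16775456) (l 16775400)) (b (l 68413273375) (a (l 73779147770170185023) (l 73778936663887320383)))) (l 16775408)) (l 16775400))) (b (b (b (a (l 68413273375) (l 16775216)) (b (a (l 16775312) (l 16775200)) (a (a (l 73778690373223978303) (l 73778479266941113663)) (l 73778127423136339263)))) (a (l 16775304) (l 16775200))) (a (l 16775296) (l 16775192)))) (a (a (a (c (l 73778479266950577471) (l 73777071891739868479)) (a (l 73777599657447030079) (l 73777494104297209151))) (a (l 73777318182403210559) (l 73777107076111957311))) (a (l 73776790416679271743) (l 73776333019733065023)))) (a (a (a (b (b (a (b (l 16775088) (b (l 16775056) (a (l 73777388551163090239) (l 73777212629269091647))))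 (b (l 16775016) (b (l 16774984) (l 73777001522977838399)))) (l 16774976)) (l 16774968)) (b (b (b (a (l 16774944) (l 16774872)) (b (a (l 16774912) (l 16774840)) (a (l 73776684863553541439) (l 73776368204129244479)))) (l 16774832)) (l 16774832))) (b (b (b (a (a (l 16774800) (l 16774728)) (l 16774624)) (b (a (l 68312604447) (l 16774592)) (a (a (l 73776051544704947519) (l 73775770069652739391)) (l 73775312672706532671)))) (a (l 16774696) (l 16774560))) (a (l 16774688) (l 16774552)))) (a (b (b (b (a (l 16774480) (l 16774344)) (a (c (l 73775488594617773887) (l 73773940481893543743)) (l 73774116403787542335))) (l 68312603935)) (l 68312603935)) (a (c (l 73774327510079405375) (l 73772638659841654079)) (l 73772920134868696383))))), by decide +kernel⟩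

def k59_A00pm_112_s1 : ∃ t, chk3 f_A00pm_112_s1 t 21 21453 1 = true :=
  ⟨(l 1), by decide +kernel⟩

def k60_A00pm_112_s1 : ∃ t, chk3 f_A00pm_112_s1 t 10 10727 1 = true :=
  ⟨(a (a (a (a (a (l 16776224) (c (l 16776232) (l 16775968))) (a (c (l 16776120) (l 16775824)) (a (l 16775880) (l 16775816)))) (a (a (a (l 16775752) (l 16775688)) (a (l 16775624) (l 16775568))) (a (a (l 16775504) (l 16775440)) (c (l 16775592) (l 16775096))))) (a (a (a (a (l 16775256) (l 16775192)) (a (l 16775128) (l 16775072))) (a (a (l 16775008) (l 16774944)) (l 16774856))) (a (a (l 16774736) (l 16774616)) (a (l 16774504) (l 16774384))))) (l 1)), by decide +kernel⟩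

def k61_A00pm_112_s1 : ∃ t, chk3 f_A00pm_112_s1 t 10 1341 1 = true :=
  ⟨(a (b (b (a (a (a (a (l 16776176) (l 68438439199)) (a (c (l 16776080) (l 16775776)) (c (l 16775976) (l 16775632)))) (a (a (a (l 16775712) (l 16775648)) (a (l 16775584) (l 16775520))) (a (a (l 16775456) (l 16775392)) (c (l 16775544) (l 16775048))))) (a (a (a (a (l 16775208) (l 16775144)) (a (l 16775088) (l 16775024))) (a (l 16774928) (l 16774808))) (a (a (l 16774688) (l 16774568)) (a (l 16774448) (l 16774336))))) (b (a (a (a (a (l 16776128) (l 16776008)) (a (l 16775888) (l 16775760))) (a (a (l 16775632) (l 16775504)) (a (l 16775384) (l 16775256)))) (a (a (a (l 16775128) (l 16775008)) (a (l 16774880) (l 16774760))) (a (a (l 16774640) (l 16774520)) (l 16774336)))) (b (a (a (a (a (l 16776104) (l 16775984)) (a (l 16775864) (l 16775736))) (a (a (l 16775616) (l 16775488)) (a (l 16775360) (l 16775232)))) (a (a (a (l 16775112) (l 16774984)) (a (l 16774864) (l 16774736))) (a (l 68371328287)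 (l 16774312)))) (a (a (a (c (l 16776160) (l 16775904)) (a (l 16775848) (l 16775720))) (a (a (l 16775600) (l 16775472)) (a (l 16775344) (l 16775216)))) (a (a (a (l 16775096) (l 16774968)) (a (l 16774840) (l 16774720))) (a (a (l 16774600) (l 16774480)) (l 16774296))))))) (a (a (a (a (l 16776016) (l 16775896)) (a (l 16775776) (l 16775648))) (a (a (l 16775520) (l 16775392)) (a (l 16775272) (l 16775144)))) (a (a (a (l 16775016) (l 16774888)) (a (l 16774768) (l 16774640))) (a (a (l 16774520) (l 16774392)) (l 16774216))))) (l 1)), by decide +kernel⟩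

def k62_A00pm_112_s1 : ∃ t, chk3 f_A00pm_112_s1 t 10 671 1 = true :=
  ⟨(a (a (a (a (a (l 16775672) (l 16775552)) (a (l 16775432) (l 16775312))) (a (a (a (l 16775216) (l 16775152)) (a (l 16775088) (l 16775024))) (a (a (l 16774960) (l 16774896)) (a (l 16774832) (l 16774768))))) (a (a (a (l 16774672) (l 16774544)) (a (l 16774416) (l 16774288))) (c (a (l 16774448) (l 16774232)) (a (l 16773736) (l 16773448))))) (a (a (a (l 16773584) (l 1)) (l 1)) (l 1))), by decide +kernel⟩

def k63_A00pm_112_s1 : ∃ t, chk3 f_A00pm_112_s1 t 11 167 1 = true :=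
  ⟨(l 1), by decide +kernel⟩

def k64_A00pm_112_s1 : ∃ t, chk3 f_A00pm_112_s1 t 8 21 1 = true :=
  ⟨(b (a (b (b (a (b (a (a (l 16772880) (b (l 16773480) (l 16772824))) (b (a (l 16773744) (l 16774016)) (a (l 16773104) (l 16773376)))) (a (a (l 16771536) (l 16771832)) (b (l 16775216) (l 16771952)))) (a (b (b (a (l 16774280) (l 16774536)) (a (l 16773648) (l 16773920))) (b (l 16775776) (l 16772528))) (b (a (b (l 16774792) (l 16774176)) (b (l 16775032) (l 16774424))) (a (l 16773248) (l 16773496))))) (a (a (l 16774904) (b (l 16770976) (l 16769664))) (a (b (l 16771576) (l 16770304)) (b (l 16772136) (l 16770896))))) (a (a (l 16776040) (l 16776840)) (b (a (l 16768392) (l 16769040)) (a (l 16765816) (l 16766544))))) (b (b (a (a (b (a (l 16777576) (b (l 16775456) (l 16774864))) (a (l 16773744) (l 16773976))) (a (b (a (l 16775288) (l 16775344)) (l 16774160)) (a (l 16774832) (l 16774888)))) (a (b (a (l 16775520) (l 16775600)) (l 16774448)) (b (a (l 16775672) (l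 16775728)) (l 16774616)))) (a (a (l 16777296) (b (l 16773072) (l 16771920))) (a (l 16772776) (l 16772984)))) (a (a (l 16773672) (a (l 16768864) (l 16769128))) (a (l 16769424) (l 16769728))))) (a (b (a (a (l 16759936) (l 16760960)) (b (l 16763632) (l 16761056))) (a (l 16775768) (l 16757152))) (b (a (b (l 16765144) (l 16762712)) (b (l 16766232) (l 16764008))) (a (l 16759088) (l 16760640))))), by decide +kernel⟩

def k65_A00pm_112_s1 : ∃ t, chk3 f_A00pm_112_s1 t 9 21 1 = true :=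
  ⟨(a (b (b (b (b (a (a (a (l 16775776) (l 16775816)) (a (l 16775840) (l 16775848))) (a (a (l 16775848) (l 16775840)) (a (l 16775824) (l 16775784)))) (a (a (l 16774728) (l 16774792)) (a (l 16774800) (l 16774760)))) (a (a (l 16773136) (l 16773216)) (a (l 16773240) (l 16773200)))) (a (a (l 16769944) (l 16770088)) (a (l 16770144) (l 16770128)))) (b (a (l 16765824) (l 16766088)) (a (l 16761648) (l 16762104)))) (b (b (b (b (a (a (a (l 16775744) (l 16775688)) (a (l 16775616) (l 16775544))) (a (a (l 16775448) (l 16775344)) (a (b (l 16775480) (l 16774936)) (l 16775016)))) (a (a (l 16774664) (l 16774520)) (a (l 16774320) (a (l 16774120) (l 16773920))))) (a (a (l 16773104) (l 16772944)) (a (l 16772720) (b (l 16772944) (l 16771872))))) (a (a (l 16770024) (l 16769848)) (a (l 16769584) (l 16779720)))) (b (a (l 16765936) (l 16775840)) (a (l 16762040) (l 16761456))))), by decide +kernel⟩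

def k66_A00pm_112_s1 : ∃ t, chk3 f_A00pm_112_s1 t 5 21 1 = true :=
  ⟨(a (b (a (b (b (a (a (a (a (l 16776920) (l 16776800)) (b (b (l 16774824) (l 16774264)) (l 16773440))) (b (b (a (l 16774568) (l 16774312)) (a (l 16774016) (l 16773752))) (b (l 16775944) (l 16772768)))) (b (a (b (a (l 16774048) (l 16773776)) (a (l 16773480) (l 16773208))) (a (b (l 16773512) (l 16772928)) (l 16772944))) (a (b (l 16775392) (l 16772208)) (a (l 16772056) (l 16771760))))) (a (a (l 16777168) (b (l 16771936) (l 16770832))) (a (l 16776032) (l 16775400)))) (a (a (l 16779208) (l 16773360)) (a (l 16777944) (l 16777224)))) (b (a (a (a (a (b (l 16772136) (l 16769744)) (l 51036288695)) (l 49962546391)) (b (l 1) (l 16768808))) (l 1)) (a (a (l 16776448) (l 16765136)) (a (l 16764280) (l 1))))) (a (a (b (b (l 16765304) (l 16763280)) (l 16760312)) (b (b (l 16763832) (l 16761720)) (l 16758656))) (a (a (l 16769752) (l 16779184)) (a (l 16778040) (l 16776840))))) (a (b (l 1) (b (l 1) (a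 (l 16751440) (l 1)))) (l 1))), by decide +kernel⟩

def k67_A00pm_112_s1 : ∃ t, chk3 f_A00pm_112_s1 t 2 11 1 = true :=
  ⟨(a (a (b (a (b (b (a (l 16748984) (l 16751840)) (a (l 16742968) (l 16746400))) (a (l 16733544) (l 16779880))) (b (a (b (l 16754216) (l 16749264)) (b (l 16756160) (l 16751576))) (a (l 16741640) (l 16744664)))) (a (a (a (b (l 16717720) (l 16698552)) (b (l 16721672) (l 16705688))) (b (l 16725952) (l 16796728))) (b (a (l 16731032) (l 16735200)) (a (l 16719688) (l 16725296))))) (b (a (b (a (l 16776296) (l 16756200)) (a (l 16746992) (l 16748384))) (b (a (l 16756376) (l 16755856)) (a (l 16749080) (l 16748856)))) (a (b (a (l 16738472) (l 16740752)) (a (l 16729776) (l 16733056))) (a (l 16780408) (l 16780928))))) (a (b (a (b (a (l 16775648) (l 16773840)) (a (l 16747760) (l 16745912))) (a (b (l 16771488) (l 16743256)) (b (l 16768592) (l 16739888)))) (a (b (a (l 16741440) (l 16739712)) (l 16777000)) (b (a (l 16736976) (l 16733240)) (a (l 16731616)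 (l 16727688))))) (b (a (b (a (l 16786208) (b (l 1) (l 16737720))) (a (l 16735816) (l 16772896))) (a (b (l 1) (l 56404975447)) (l 1))) (a (b (a (l 16728616) (l 16723128)) (a (l 16722640) (l 16716496))) (a (b (l 16757104) (l 16708456)) (b (l 16701512) (l 16694456))))))), by decide +kernel⟩

def k68_A00pm_112_s1 : ∃ t, chk3 f_A00pm_112_s1 t 2 3 1 = true :=
  ⟨(a (b (b (a (a (a (b (b (l 16679776) (b (l 16660632) (l 16648896))) (b (l 16631576) (l 16608400))) (b (b (l 16780488) (l 16718496)) (b (l 16654784) (l 16632520)))) (b (b (a (l 16707440) (l 16714696)) (a (l 16776536) (l 16703384))) (a (b (l 16675640) (l 16655464)) (b (l 16690344) (l 16674984))))) (b (b (a (a (l 16720696) (l 16725296)) (l 16729400)) (a (l 16714312) (l 16723048))) (a (b (l 16789184) (l 16694760)) (b (l 16716888) (l 16710552))))) (b (a (a (a (b (l 16584912) (l 6)) (b (l 16609896) (l 16586880))) (a (b (l 16634160) (l 16612344)) (b (l 16656624) (l 16636440)))) (a (b (l 16765680) (l 16667728))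 (b (l 16704024) (l 16696104)))) (a (l 6) (l 6)))) (l 6)) (b (b (b (a (b (a (l 16729904) (l 16767192)) (a (l 16725296) (l 16721568))) (a (b (l 16714696) (l 16711064)) (a (b (l 16702912) (l 16698784)) (b (l 16689408) (l 16685984))))) (a (a (b (l 16721224) (l 16717280)) (b (l 16718600) (l 16716368))) (a (b (l 16708760) (l 16707512)) (a (l 16695464) (l 16683216))))) (b (a (a (b (l 16713736) (l 16710288)) (b (l 16714872) (l 16713800))) (a (l 16791296) (l 16689624))) (l 6))) (l 6))), by decide +kernel⟩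

def k69_A00pm_112_s1 : ∃ t, chk3 f_A00pm_112_s1 t 3 1 1 = true :=
  ⟨(b (a (b (l 1) (b (l 1) (a (a (a (b (l 1) (b (l 1) (l 16676856))) (l 1)) (l 1)) (l 1)))) (l 1)) (b (a (a (b (a (a (b (b (l 16669824) (l 16665992)) (l 16665848)) (b (b (l 16648952) (l 16643344)) (b (l 16643504) (l 16644352)))) (b (a (b (l 1) (l 32782323847)) (l 1)) (a (a (l 16626288) (l 16698040)) (b (l 31171663207) (l 16596312))))) (b (a (a (l 16667096) (l 16646792)) (a (l 16623416) (b (l 16597552) (l 16599776)))) (l 6))) (b (a (b (l 1) (a (a (l 113313065991) (l 1)) (l 1))) (l 1)) (b (b (a (a (l 16572568) (l 52646440807)) (l 1)) (l 6)) (l 6)))) (a (b (l 1) (l 6)) (l 1))) (l 6))), by decide +kernel⟩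

theorem t70_A00pm_112_s1 : ∃ t, chk3 f_A00pm_112_s1 t 4 21 1 = true := ex3_a k64_A00pm_112_s1 k65_A00pm_112_s1

theorem t71_A00pm_112_s1 : ∃ t, chk3 f_A00pm_112_s1 t 2 21 1 = true := ex3_a t70_A00pm_112_s1 k66_A00pm_112_s1

theorem t72_A00pm_112_s1 : ∃ t, chk3 f_A00pm_112_s1 t 40 21453 1 = true := ex3_a k56_A00pm_112_s1 k57_A00pm_112_s1

theorem t73_A00pm_112_s1 : ∃ t, chk3 f_A00pm_112_s1 t 20 21453 1 = true := ex3_a t72_A00pm_112_s1 k58_A00pm_112_s1

theorem t74_A00pm_112_s1 : ∃ t, chk3 f_A00pm_112_s1 t 10 21453 1 = true := ex3_a t73_A00pm_112_s1 k59_A00pm_112_s1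

theorem t75_A00pm_112_s1 : ∃ t, chk3 f_A00pm_112_s1 t 20 21452 1 = true := ex3_c k53_A00pm_112_s1 k54_A00pm_112_s1

theorem t76_A00pm_112_s1 : ∃ t, chk3 f_A00pm_112_s1 t 10 21452 1 = true := ex3_a t75_A00pm_112_s1 k55_A00pm_112_s1

theorem t77_A00pm_112_s1 : ∃ t, chk3 f_A00pm_112_s1 t 10 10726 1 = true := ex3_b t76_A00pm_112_s1 t74_A00pm_112_s1

theorem t78_A00pm_112_s1 : ∃ t, chk3 f_A00pm_112_s1 t 10 5363 1 = true := ex3_b t77_A00pm_112_s1 k60_A00pm_112_s1

theorem t79_A00pm_112_s1 : ∃ t, chk3 f_A00pm_112_s1 t 20 10725 1 = true := ex3_c k50_A00pm_112_s1 k51_A00pm_112_s1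

theorem t80_A00pm_112_s1 : ∃ t, chk3 f_A00pm_112_s1 t 20 5362 1 = true := ex3_b k49_A00pm_112_s1 t79_A00pm_112_s1

theorem t81_A00pm_112_s1 : ∃ t, chk3 f_A00pm_112_s1 t 10 5362 1 = true := ex3_a t80_A00pm_112_s1 k52_A00pm_112_s1

theorem t82_A00pm_112_s1 : ∃ t, chk3 f_A00pm_112_s1 t 10 2681 1 = true := ex3_b t81_A00pm_112_s1 t78_A00pm_112_s1

theorem t83_A00pm_112_s1 : ∃ t, chk3 f_A00pm_112_s1 t 10 2680 1 = true := ex3_c k47_A00pm_112_s1 k48_A00pm_112_s1

theorem t84_A00pm_112_s1 : ∃ t, chk3 f_A00pm_112_s1 t 10 1340 1 = true := ex3_b t83_A00pm_112_s1 t82_A00pm_112_s1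

theorem t85_A00pm_112_s1 : ∃ t, chk3 f_A00pm_112_s1 t 10 670 1 = true := ex3_b t84_A00pm_112_s1 k61_A00pm_112_s1

theorem t86_A00pm_112_s1 : ∃ t, chk3 f_A00pm_112_s1 t 10 335 1 = true := ex3_b t85_A00pm_112_s1 k62_A00pm_112_s1

theorem t87_A00pm_112_s1 : ∃ t, chk3 f_A00pm_112_s1 t 41 334 1 = true := ex3_a k44_A00pm_112_s1 k45_A00pm_112_s1

theorem t88_A00pm_112_s1 : ∃ t, chk3 f_A00pm_112_s1 t 20 334 1 = true := ex3_a k43_A00pm_112_s1 t87_A00pm_112_s1

theorem t89_A00pm_112_s1 : ∃ t, chk3 f_A00pm_112_s1 t 10 334 1 = true := ex3_a t88_A00pm_112_s1 k46_A00pm_112_s1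

theorem t90_A00pm_112_s1 : ∃ t, chk3 f_A00pm_112_s1 t 10 167 1 = true := ex3_b t89_A00pm_112_s1 t86_A00pm_112_s1

theorem t91_A00pm_112_s1 : ∃ t, chk3 f_A00pm_112_s1 t 5 167 1 = true := ex3_a t90_A00pm_112_s1 k63_A00pm_112_s1

theorem t92_A00pm_112_s1 : ∃ t, chk3 f_A00pm_112_s1 t 5 83 1 = true := ex3_b k42_A00pm_112_s1 t91_A00pm_112_s1

theorem t93_A00pm_112_s1 : ∃ t, chk3 f_A00pm_112_s1 t 5 41 1 = true := ex3_b k41_A00pm_112_s1 t92_A00pm_112_s1

theorem t94_A00pm_112_s1 : ∃ t, chk3 f_A00pm_112_s1 t 4 10731 1 = true := ex3_b k37_A00pm_112_s1 k38_A00pm_112_s1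

theorem t95_A00pm_112_s1 : ∃ t, chk3 f_A00pm_112_s1 t 4 5365 1 = true := ex3_b k36_A00pm_112_s1 t94_A00pm_112_s1

theorem t96_A00pm_112_s1 : ∃ t, chk3 f_A00pm_112_s1 t 4 2682 1 = true := ex3_b k35_A00pm_112_s1 t95_A00pm_112_s1

theorem t97_A00pm_112_s1 : ∃ t, chk3 f_A00pm_112_s1 t 4 1341 1 = true := ex3_b t96_A00pm_112_s1 k39_A00pm_112_s1

theorem t98_A00pm_112_s1 : ∃ t, chk3 f_A00pm_112_s1 t 36 21453 3 = true := ex3_c k30_A00pm_112_s1 k31_A00pm_112_s1

theorem t99_A00pm_112_s1 : ∃ t, chk3 f_A00pm_112_s1 t 36 21453 1 = true := ex3_c k29_A00pm_112_s1 t98_A00pm_112_s1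

theorem t100_A00pm_112_s1 : ∃ t, chk3 f_A00pm_112_s1 t 18 21453 1 = true := ex3_a t99_A00pm_112_s1 k32_A00pm_112_s1

theorem t101_A00pm_112_s1 : ∃ t, chk3 f_A00pm_112_s1 t 9 21453 1 = true := ex3_a t100_A00pm_112_s1 k33_A00pm_112_s1

theorem t102_A00pm_112_s1 : ∃ t, chk3 f_A00pm_112_s1 t 33 21453 1 = true := ex3_a k26_A00pm_112_s1 k27_A00pm_112_s1

theorem t103_A00pm_112_s1 : ∃ t, chk3 f_A00pm_112_s1 t 16 21453 1 = true := ex3_a k25_A00pm_112_s1 t102_A00pm_112_s1

theorem t104_A00pm_112_s1 : ∃ t, chk3 f_A00pm_112_s1 t 8 21453 1 = true := ex3_a t103_A00pm_112_s1 k28_A00pm_112_s1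

theorem t105_A00pm_112_s1 : ∃ t, chk3 f_A00pm_112_s1 t 4 21453 1 = true := ex3_a t104_A00pm_112_s1 t101_A00pm_112_s1

theorem t106_A00pm_112_s1 : ∃ t, chk3 f_A00pm_112_s1 t 18 85811 1 = true := ex3_b k22_A00pm_112_s1 k23_A00pm_112_s1

theorem t107_A00pm_112_s1 : ∃ t, chk3 f_A00pm_112_s1 t 18 42905 1 = true := ex3_b k21_A00pm_112_s1 t106_A00pm_112_s1

theorem t108_A00pm_112_s1 : ∃ t, chk3 f_A00pm_112_s1 t 18 21452 1 = true := ex3_b k20_A00pm_112_s1 t107_A00pm_112_s1

theorem t109_A00pm_112_s1 : ∃ t, chk3 f_A00pm_112_s1 t 9 21452 1 = true := ex3_a t108_A00pm_112_s1 k24_A00pm_112_s1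

theorem t110_A00pm_112_s1 : ∃ t, chk3 f_A00pm_112_s1 t 16 21452 1 = true := ex3_c k17_A00pm_112_s1 k18_A00pm_112_s1

theorem t111_A00pm_112_s1 : ∃ t, chk3 f_A00pm_112_s1 t 8 21452 1 = true := ex3_a t110_A00pm_112_s1 k19_A00pm_112_s1

theorem t112_A00pm_112_s1 : ∃ t, chk3 f_A00pm_112_s1 t 4 21452 1 = true := ex3_a t111_A00pm_112_s1 t109_A00pm_112_s1

theorem t113_A00pm_112_s1 : ∃ t, chk3 f_A00pm_112_s1 t 4 10726 1 = true := ex3_b t112_A00pm_112_s1 t105_A00pm_112_s1

theorem t114_A00pm_112_s1 : ∃ t, chk3 f_A00pm_112_s1 t 4 5363 1 = true := ex3_b t113_A00pm_112_s1 k34_A00pm_112_s1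

theorem t115_A00pm_112_s1 : ∃ t, chk3 f_A00pm_112_s1 t 16 10725 1 = true := ex3_c k13_A00pm_112_s1 k14_A00pm_112_s1

theorem t116_A00pm_112_s1 : ∃ t, chk3 f_A00pm_112_s1 t 16 5362 1 = true := ex3_b k12_A00pm_112_s1 t115_A00pm_112_s1

theorem t117_A00pm_112_s1 : ∃ t, chk3 f_A00pm_112_s1 t 8 5362 1 = true := ex3_a t116_A00pm_112_s1 k15_A00pm_112_s1

theorem t118_A00pm_112_s1 : ∃ t, chk3 f_A00pm_112_s1 t 4 5362 1 = true := ex3_a t117_A00pm_112_s1 k16_A00pm_112_s1

theorem t119_A00pm_112_s1 : ∃ t, chk3 f_A00pm_112_s1 t 4 2681 1 = true := ex3_b t118_A00pm_112_s1 t114_A00pm_112_s1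

theorem t120_A00pm_112_s1 : ∃ t, chk3 f_A00pm_112_s1 t 16 2680 1 = true := ex3_a k8_A00pm_112_s1 k9_A00pm_112_s1

theorem t121_A00pm_112_s1 : ∃ t, chk3 f_A00pm_112_s1 t 8 2680 1 = true := ex3_a t120_A00pm_112_s1 k10_A00pm_112_s1

theorem t122_A00pm_112_s1 : ∃ t, chk3 f_A00pm_112_s1 t 4 2680 1 = true := ex3_a t121_A00pm_112_s1 k11_A00pm_112_s1

theorem t123_A00pm_112_s1 : ∃ t, chk3 f_A00pm_112_s1 t 4 1340 1 = true := ex3_b t122_A00pm_112_s1 t119_A00pm_112_s1

theorem t124_A00pm_112_s1 : ∃ t, chk3 f_A00pm_112_s1 t 4 670 1 = true := ex3_b t123_A00pm_112_s1 t97_A00pm_112_s1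

theorem t125_A00pm_112_s1 : ∃ t, chk3 f_A00pm_112_s1 t 4 335 1 = true := ex3_b t124_A00pm_112_s1 k40_A00pm_112_s1

theorem t126_A00pm_112_s1 : ∃ t, chk3 f_A00pm_112_s1 t 8 669 1 = true := ex3_b k5_A00pm_112_s1 k6_A00pm_112_s1

theorem t127_A00pm_112_s1 : ∃ t, chk3 f_A00pm_112_s1 t 8 334 1 = true := ex3_b k4_A00pm_112_s1 t126_A00pm_112_s1

theorem t128_A00pm_112_s1 : ∃ t, chk3 f_A00pm_112_s1 t 4 334 1 = true := ex3_a t127_A00pm_112_s1 k7_A00pm_112_s1

theorem t129_A00pm_112_s1 : ∃ t, chk3 f_A00pm_112_s1 t 4 167 1 = true := ex3_b t128_A00pm_112_s1 t125_A00pm_112_s1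

theorem t130_A00pm_112_s1 : ∃ t, chk3 f_A00pm_112_s1 t 4 83 1 = true := ex3_b k3_A00pm_112_s1 t129_A00pm_112_s1

theorem t131_A00pm_112_s1 : ∃ t, chk3 f_A00pm_112_s1 t 4 41 1 = true := ex3_b k2_A00pm_112_s1 t130_A00pm_112_s1

theorem t132_A00pm_112_s1 : ∃ t, chk3 f_A00pm_112_s1 t 2 41 1 = true := ex3_a t131_A00pm_112_s1 t93_A00pm_112_s1

theorem t133_A00pm_112_s1 : ∃ t, chk3 f_A00pm_112_s1 t 2 20 1 = true := ex3_b k1_A00pm_112_s1 t132_A00pm_112_s1

theorem t134_A00pm_112_s1 : ∃ t, chk3 f_A00pm_112_s1 t 2 10 1 = true := ex3_b t133_A00pm_112_s1 t71_A00pm_112_s1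

theorem t135_A00pm_112_s1 : ∃ t, chk3 f_A00pm_112_s1 t 2 5 1 = true := ex3_b t134_A00pm_112_s1 k67_A00pm_112_s1

theorem t136_A00pm_112_s1 : ∃ t, chk3 f_A00pm_112_s1 t 2 2 1 = true := ex3_b k0_A00pm_112_s1 t135_A00pm_112_s1

theorem t137_A00pm_112_s1 : ∃ t, chk3 f_A00pm_112_s1 t 2 1 1 = true := ex3_b t136_A00pm_112_s1 k68_A00pm_112_s1

theorem t138_A00pm_112_s1 : ∃ t, chk3 f_A00pm_112_s1 t 1 1 1 = true := ex3_a t137_A00pm_112_s1 k69_A00pm_112_s1

theorem c_A00pm_112_s1 : CertF 536870912 536870912 536870912 536870912 649613803 48318383 true true false .dn 1 1 2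
    ndB0q1 ndB0q1 pcB2 cut_A00pm_112_s1 xt_A00pm_112_s1 :=
  certF1 (fam := true) (s1 := true) (s2 := false) (a := 1) (b := 1) (c := 2) (cn := .dn) (n1 := ndB0q1) (n2 := ndB0q1) (pc := pcB2) (cut := cut_A00pm_112_s1) (xt := xt_A00pm_112_s1) (P1 := 536870912) (W1 := 536870912) (P2 := 536870912) (W2 := 536870912) (P3 := 649613803) (W3 := 48318383)
    rfl (fun _ => rfl) t138_A00pm_112_s1

theorem s_A00pm_112_s1 {κ x : ℝ} (hκ : κ * h0 = ken x) (hx : ((649613803 : ℕ) : ℝ) / S ≤ x)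
    (hx' : x ≤ (((649613803 : ℕ) : ℝ) + (48318383 : ℕ)) / S) :
    AltA (VFD κ) PP tK tL pcB [⟨3, 0, 0, 1449551462⟩] 1 1 2 0 0 (sgb true) (sgb false) x :=
  strip_altAD (m := 1449551462) true rfl hκ (SH.κ0 hκ (SH.hx1 hx).le (SH.hx2 hx').le) (SH.hx1 hx).le (SH.hx2 hx') (covB01).cov (covB01).cov hx hx' c_A00pm_112_s1 cutA_nil ((okx6 hx hx').extA (T := tt) (okx hx hx') (sideB hx hx') hκ rfl rfl (.O 1 true) (.O 1 false) rfl)

noncomputable def cut_A00pm_112_s3 : Cut := Cut.of [[⟨3, 0, 0, 2845415833⟩]]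

noncomputable def f_A00pm_112_s3 : ℕ → ℕ → ℕ → ℕ → Bool := onCell 536870912 536870912 1073741824 536870912 649613803 48318383
    (rowF 1 true true false .dn 1 1 2 (qsf 536870912 536870912 536870912 536870912 2) ndB0q1 ndB0q1 pcB2 cut_A00pm_112_s3 Ext.none)

def k0_A00pm_112_s3 : ∃ t, chk3 f_A00pm_112_s3 t 1 1 1 = true :=
  ⟨(l 6), by decide +kernel⟩

theorem c_A00pm_112_s3 : CertF 536870912 536870912 536870912 536870912 649613803 48318383 true true false .dn 1 1 2
    ndB0q1 ndB0q1 pcB2 cut_A00pm_112_s3 Ext.none :=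
  certF1 (fam := true) (s1 := true) (s2 := false) (a := 1) (b := 1) (c := 2) (cn := .dn) (n1 := ndB0q1) (n2 := ndB0q1) (pc := pcB2) (cut := cut_A00pm_112_s3) (xt := Ext.none) (P1 := 536870912) (W1 := 536870912) (P2 := 536870912) (W2 := 536870912) (P3 := 649613803) (W3 := 48318383)
    rfl (fun _ => rfl) k0_A00pm_112_s3

theorem s_A00pm_112_s3 {κ x : ℝ} (hκ : κ * h0 = ken x) (hx : ((649613803 : ℕ) : ℝ) / S ≤ x)
    (hx' : x ≤ (((649613803 : ℕ) : ℝ) + (48318383 : ℕ)) / S) :
    AltA (VFD κ) PP tK tL pcB [⟨4, 0, 0, 2845415833⟩] 1 1 2 0 0 (sgb true) (sgb false) x :=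
  strip_altAD (m := 2845415833) false rfl hκ (SH.κ0 hκ (SH.hx1 hx).le (SH.hx2 hx').le) (SH.hx1 hx).le (SH.hx2 hx') (covB01).cov (covB01).cov hx hx' c_A00pm_112_s3 cutA_nil (noExt_A)

noncomputable def cut_A00pm_113_s1 : Cut := Cut.of [[⟨4, 0, 0, 1449551462⟩], [⟨0, 1, 0, 67108864⟩, ⟨1, 1, 0, 67108864⟩, ⟨2, 2, 0, 16777216⟩], [⟨0, 0, 1, 20971520⟩, ⟨1, 1, 0, 33554432⟩, ⟨2, 1, 1, 20971520⟩], [⟨0, 1, 0, 33554432⟩, ⟨1, 0, 1, 20971520⟩, ⟨2, 1, 1, 20971520⟩]]

noncomputable def f_A00pm_113_s1 : ℕ → ℕ → ℕ → ℕ → Bool := onCell 536870912 536870912 1610612736 536870912 649613803 48318383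
    (rowF 1 true true false .nn 1 1 3 (qsf 536870912 536870912 536870912 536870912 3) ndB0q1 ndB0q1 pcB3 cut_A00pm_113_s1 Ext.none)

def k0_A00pm_113_s1 : ∃ t, chk3 f_A00pm_113_s1 t 1 1 1 = true :=
  ⟨(b (a (b (l 6) (l 6)) (l 6)) (l 6)), by decide +kernel⟩

theorem c_A00pm_113_s1 : CertF 536870912 536870912 536870912 536870912 649613803 48318383 true true false .nn 1 1 3
    ndB0q1 ndB0q1 pcB3 cut_A00pm_113_s1 Ext.none :=
  certF1 (fam := true) (s1 := true) (s2 := false) (a := 1) (b := 1) (c := 3) (cn := .nn) (n1 := ndB0q1) (n2 := ndB0q1) (pc := pcB3) (cut := cut_A00pm_113_s1) (xt := Ext.none) (P1 := 536870912) (W1 := 536870912) (P2 := 536870912) (W2 := 536870912) (P3 := 649613803) (W3 := 48318383)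
    rfl (fun _ => rfl) k0_A00pm_113_s1

theorem s_A00pm_113_s1 {κ x : ℝ} (hκ : κ * h0 = ken x) (hx : ((649613803 : ℕ) : ℝ) / S ≤ x)
    (hx' : x ≤ (((649613803 : ℕ) : ℝ) + (48318383 : ℕ)) / S)
    (H : CutA (VFD κ) PP tK tL pcB (Cut.of [[⟨0, 1, 0, 67108864⟩, ⟨1, 1, 0, 67108864⟩, ⟨2, 2, 0, 16777216⟩], [⟨0, 0, 1, 20971520⟩, ⟨1, 1, 0, 33554432⟩, ⟨2, 1, 1, 20971520⟩], [⟨0, 1, 0, 33554432⟩, ⟨1, 0, 1, 20971520⟩, ⟨2, 1, 1, 20971520⟩]]) 1 1 3 0 0 (sgb true) (sgb false) x) :
    AltA (VFD κ) PP tK tL pcB [⟨3, 0, 0, 1449551462⟩] 1 1 3 0 0 (sgb true) (sgb false) x :=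
  strip_altAD (m := 1449551462) true rfl hκ (SH.κ0 hκ (SH.hx1 hx).le (SH.hx2 hx').le) (SH.hx1 hx).le (SH.hx2 hx') (covB01).cov (covB01).cov hx hx' c_A00pm_113_s1 H (noExt_A)

noncomputable def cut_A00pm_113_s3 : Cut := Cut.of [[⟨3, 0, 0, 2845415833⟩], [⟨0, 1, 0, 67108864⟩, ⟨1, 1, 0, 67108864⟩, ⟨2, 2, 0, 16777216⟩], [⟨0, 0, 1, 20971520⟩, ⟨1, 1, 0, 33554432⟩, ⟨2, 1, 1, 20971520⟩], [⟨0, 1, 0, 33554432⟩, ⟨1, 0, 1, 20971520⟩, ⟨2, 1, 1, 20971520⟩]]

noncomputable def f_A00pm_113_s3 : ℕ → ℕ → ℕ → ℕ → Bool := onCell 536870912 536870912 536870912 536870912 649613803 48318383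
    (rowF 0 true true false .nn 1 1 3 (qsf 536870912 536870912 536870912 536870912 3) ndB0q1 ndB0q1 pcB3 cut_A00pm_113_s3 Ext.none)

def k0_A00pm_113_s3 : ∃ t, chk3 f_A00pm_113_s3 t 2 1 1 = true :=
  ⟨(l 6), by decide +kernel⟩

def k1_A00pm_113_s3 : ∃ t, chk3 f_A00pm_113_s3 t 3 2 1 = true :=
  ⟨(l 6), by decide +kernel⟩

def k2_A00pm_113_s3 : ∃ t, chk3 f_A00pm_113_s3 t 6 3 1 = true :=
  ⟨(b (l 6) (b (l 6) (a (l 6) (b (l 6) (a (l 6) (b (l 6) (b (l 6) (a (l 6) (c (l 16858112) (c (l 16875912) (l 16806096))))))))))), by decide +kernel⟩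

def k3_A00pm_113_s3 : ∃ t, chk3 f_A00pm_113_s3 t 7 6 1 = true :=
  ⟨(a (l 6) (b (l 6) (a (l 6) (b (l 6) (a (l 6) (a (l 6) (b (l 6) (c (l 16858112) (c (l 16875912) (l 16806096)))))))))), by decide +kernel⟩

def k4_A00pm_113_s3 : ∃ t, chk3 f_A00pm_113_s3 t 14 7 1 = true :=
  ⟨(b (l 6) (a (b (l 6) (b (a (c (l 16878848) (l 16900256)) (b (l 16848704) (a (l 16885392) (l 16883552)))) (b (a (c (l 16869120) (l 16851880)) (c (c (l 16863128) (l 16872848)) (l 16837864))) (a (c (l 16902016) (a (l 16799664) (l 16882832))) (c (c (l 16853936) (l 16821248)) (c (l 16873952) (l 16844264))))))) (a (b (b (l 6) (c (l 16889320) (l 16901344))) (b (b (c (l 16878200) (l 16892072)) (c (l 16870528) (l 16841144))) (b (c (l 16862760) (c (l 16877128) (l 16868512))) (b (a (a (l 16816040) (l 16824752)) (a (l 16822736) (l 16820480))) (c (l 16787064) (l 16826336)))))) (b (b (l 16900448) (c (l 16881768) (l 16886888))) (b (b (c (l 16870288) (l 16872208)) (c (l 16862616) (c (l 16866592)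 (l 16816224)))) (b (c (l 16854320) (c (l 16858456) (l 16807160))) (b (c (l 16847688) (a (l 16811216) (l 16801568))) (c (l 16841496) (c (l 16852824) (l 16801936)))))))))), by decide +kernel⟩

def k5_A00pm_113_s3 : ∃ t, chk3 f_A00pm_113_s3 t 15 14 1 = true :=
  ⟨(b (a (l 6) (a (a (b (l 6) (l 16848704)) (b (l 6) (a (l 16844168) (l 16841120)))) (a (b (c (l 16869120) (l 16851880)) (c (c (l 16863128) (l 16872848)) (l 16837864))) (b (c (l 16902016) (b (l 16799664) (l 16882832))) (c (c (l 16853936) (l 16821248)) (c (l 16873952) (l 16844264))))))) (b (a (a (l 6) (c (l 16889320) (l 16901344))) (a (a (c (l 16878200) (l 16892072)) (c (l 16870528) (l 16841144))) (a (c (l 16862760) (c (l 16877128) (l 16868512))) (a (a (b (l 16827312) (l 16823168)) (b (l 16823896) (l 16819968))) (c (l 16787064) (l 16826336)))))) (a (a (l 16900448) (c (l 16881768) (l 16886888))) (a (a (c (l 16870288) (l 16872208)) (c (l 16862616) (c (l 16866592) (l 16816224)))) (a (c (l 16854320)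 (c (l 16858456) (l 16807160))) (a (c (l 16847688) (b (l 16811216) (l 16801568))) (c (l 16841496) (c (l 16852824) (l 16801936))))))))), by decide +kernel⟩

def k6_A00pm_113_s3 : ∃ t, chk3 f_A00pm_113_s3 t 30 15 1 = true :=
  ⟨(b (b (a (l 16888448) (a (l 16876840) (l 16869304))) (a (b (l 16876840) (l 16869304)) (l 16857808))) (b (a (b (c (l 16859288) (l 16855848)) (c (l 16809720) (a (l 16807288) (l 16799576)))) (b (c (l 16845744) (l 16842408)) (a (b (l 16841152) (l 16794336)) (b (l 16833680) (l 16786808))))) (c (a (b (a (l 16846328) (l 16840384)) (b (l 16815664) (a (l 16833608) (l 16827792)))) (a (b (b (l 16836096) (l 16831680)) (b (l 16827120) (c (l 16819360) (l 16823912)))) (b (b (l 16827360) (l 16802440)) (b (l 16820032) (b (l 16795480) (l 16813048)))))) (a (b (a (l 16798448) (b (l 16792160) (l 16788072))) (b (a (l 16792592) (a (l 16786184) (l 16782120))) (a (l 16792032) (a (l 16785208) (l 16780776))))) (b (c (b (a (l 16787200) (l 16779992)) (a (l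 16825096) (l 16796240))) (b (a (l 16802632) (l 16796720)) (a (l 16819128) (b (l 16792472) (l 16811304))))) (a (b (a (l 16778168) (l 16774408)) (b (a (l 16776168) (b (l 16772128) (l 16772184))) (l 16785312))) (b (a (l 16781240) (c (l 16811536) (l 16806632))) (b (c (l 16790008) (a (l 16807328) (a (l 16804728) (l 16803072)))) (a (l 16789672) (l 16775240)))))))))), by decide +kernel⟩

def k7_A00pm_113_s3 : ∃ t, chk3 f_A00pm_113_s3 t 31 30 1 = true :=
  ⟨(a (b (a (c (l 16859288) (l 16855848)) (c (l 16809720) (b (l 16807288) (l 16799576)))) (a (c (l 16845744) (l 16842408)) (b (a (l 16841152) (l 16794336)) (a (l 16833680) (l 16786808))))) (c (b (a (b (l 16846328) (l 16840384)) (a (l 16815664) (b (l 16833608) (l 16827792)))) (b (a (a (l 16836096) (l 16831680)) (a (l 16827120) (c (l 16819360) (l 16823912)))) (a (a (l 16827360) (l 16802440)) (a (l 16820032) (a (l 16795480) (l 16813048)))))) (b (a (b (l 16798448) (a (l 16792160) (l 16788072))) (a (b (l 16792592)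 (b (l 16786184) (l 16782120))) (b (l 16792032) (b (l 16785208) (l 16780776))))) (a (c (a (b (l 16787200) (l 16779992)) (b (l 16825096) (l 16796240))) (a (b (l 16802632) (l 16796720)) (b (l 16819128) (a (l 16792472) (l 16811304))))) (b (a (b (l 16778168) (l 16774408)) (a (b (l 16776168) (a (l 16772128) (l 16772184))) (l 16785312))) (a (b (l 16781240) (c (l 16811536) (l 16806632))) (a (c (l 16790008) (a (l 16784824) (b (l 16807192) (l 16803568)))) (b (l 16789672) (l 16775240))))))))), by decide +kernel⟩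

def k8_A00pm_113_s3 : ∃ t, chk3 f_A00pm_113_s3 t 31 62 1 = true :=
  ⟨(a (c (a (l 16829904) (l 16821744)) (c (l 16826008) (a (l 16828080) (l 16819928)))) (a (a (c (l 16804672) (b (l 16793176) (l 16809184))) (b (a (c (l 16815824) (b (l 16790192) (l 16808456))) (c (l 16792792) (c (l 16788040) (b (l 16806552) (l 16803904))))) (a (c (l 16808000) (l 16804752)) (c (l 16795296) (b (l 16782024) (l 16800600)))))) (a (b (b (c (l 16813312) (a (l 16785736) (l 16783808))) (c (l 16787976) (c (l 16783248) (a (l 16801520) (l 16799536))))) (b (a (c (l 16784640) (c (l 16791312) (a (l 16799376) (l 16798128)))) (c (l 16803880) (c (l 16799840) (l 16796656)))) (c (a (l 16801688) (c (l 16800616) (l 16798696))) (b (a (a (l 16798960) (l 16802800)) (c (l 16797280) (l 16794552))) (a (l 16797040) (c (l 16785136) (a (l 16793744) (l 16792696)))))))) (b (c (a (a (l 16788072) (l 16787328)) (a (l 16785944) (l 16784088))) (a (c (b (l 16805200) (l 16801568)) (b (c (l 16801880) (l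 16799496)) (c (l 16798672) (l 16796592)))) (b (b (l 16782848) (l 16780968)) (c (l 16779952) (b (l 16798136) (l 16796408)))))) (c (a (b (l 16802216) (l 16787552)) (b (b (l 16801384) (l 16789008)) (a (c (l 16796472) (l 16795840)) (l 16795704)))) (a (b (b (l 16802440) (c (l 16797168) (l 16794000))) (c (l 16784144) (a (l 16792408) (l 16791440)))) (b (a (c (l 16786536) (b (l 16794496) (l 16792912))) (b (l 16775688) (l 16779152))) (a (a (b (l 16798192) (l 16791400)) (b (l 16798072) (a (l 16796360) (l 16791144)))) (c (l 16782984) (b (l 16791760) (l 16790152))))))))))), by decide +kernel⟩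

def k9_A00pm_113_s3 : ∃ t, chk3 f_A00pm_113_s3 t 62 63 1 = true :=
  ⟨(b (b (c (l 16804672) (a (l 16793176) (l 16809184))) (a (b (c (l 16815824) (a (l 16790192) (l 16808456))) (c (l 16792792) (c (l 16788040) (a (l 16806552) (l 16803904))))) (b (c (l 16808000) (l 16804752)) (c (l 16795296) (a (l 16782024) (l 16800600)))))) (b (a (a (c (l 16813312) (b (l 16785736) (l 16783808))) (c (l 16787976) (c (l 16783248) (b (l 16801520) (l 16799536))))) (a (b (c (l 16784640) (c (l 16791312) (b (l 16799376) (l 16798128)))) (c (l 16803880) (c (l 16799840) (l 16796656)))) (c (b (l 16801688) (c (l 16800616) (l 16798696))) (a (b (b (l 16798960) (l 16802800)) (c (l 16797280) (l 16794552))) (b (l 16797040) (c (l 16785136) (b (l 16793744) (l 16792696)))))))) (a (c (b (b (l 16788072) (l 16787328)) (b (l 16785944) (l 16784088))) (b (c (a (l 16805200) (l 16801568)) (a (c (l 16801880) (l 16799496)) (c (l 16798672) (l 16796592)))) (a (a (l 16782848) (l 16780968)) (c (l 16779952)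 (a (l 16798136) (l 16796408)))))) (c (a (b (l 16802216) (a (l 16801384) (l 16789008))) (b (l 16787552) (b (c (l 16796472) (l 16795840)) (l 16795704)))) (b (a (a (l 16802440) (c (l 16797168) (l 16794000))) (c (l 16784144) (a (l 16792608) (l 16791240)))) (a (b (c (l 16786536) (a (l 16794496) (l 16792912))) (a (l 16775688) (l 16779152))) (b (a (b (l 16798192) (l 16798072)) (b (l 16791400) (a (l 16791536) (l 16795952)))) (c (l 16782984) (a (l 16791760) (l 16790152)))))))))), by decide +kernel⟩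

def k10_A00pm_113_s3 : ∃ t, chk3 f_A00pm_113_s3 t 63 126 1 = true :=
  ⟨(a (c (l 16796472) (c (l 16801712) (a (l 16802584) (l 16798512)))) (b (a (a (a (l 16781624) (c (l 16797344) (l 16784096))) (a (c (l 16796248) (b (c (l 16794656) (l 16792664)) (l 16792520))) (c (c (l 16795912) (l 16794456)) (b (c (l 16793480) (c (l 16791904) (l 16790768))) (a (l 16796664) (c (l 16791640) (l 16789816))))))) (a (b (c (l 16794936) (c (l 16792120) (c (l 16790472) (l 16789288)))) (a (c (l 16793296) (c (l 16790912) (l 16789024))) (c (l 16792472) (b (l 16789448) (l 16791328))))) (c (a (c (l 16792688) (l 16781400)) (a (l 16781824) (l 16780896))) (a (a (c (l 16790176) (b (l 16788696) (l 16787360))) (b (c (l 16790632) (l 16790936)) (l 14))) (b (c (l 16790688) (l 16788560)) (l 14)))))) (a (a (c (l 16794240) (l 16793128)) (a (c (l 16792536) (l 16780376)) (b (c (l 16792336) (a (l 16790288) (l 16789544))) (l 14)))) (a (a (a (b (b (c (l 16791984) (l 16791768)) (l 14)) (l 14))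 (l 14)) (l 14)) (l 14))))), by decide +kernel⟩

def k11_A00pm_113_s3 : ∃ t, chk3 f_A00pm_113_s3 t 63 127 1 = true :=
  ⟨(a (a (b (b (b (l 16781624) (c (l 16797344) (l 16784096))) (b (c (l 16796248) (a (c (l 16794656) (l 16792664)) (l 16792520))) (c (c (l 16795912) (l 16794456)) (a (c (l 16793480) (c (l 16791904) (l 16790768))) (b (l 16796664) (c (l 16791640) (l 16789816))))))) (b (a (c (l 16794936) (c (l 16792120) (c (l 16790472) (l 16789288)))) (b (c (l 16793296) (c (l 16790912) (l 16789024))) (c (l 16792472) (a (l 16789448) (l 16791328))))) (c (b (c (l 16792688) (l 16781400)) (b (l 16781824) (l 16780896))) (b (a (c (l 16790848) (b (l 16788696) (l 16790936))) (a (b (l 16788760) (l 14)) (l 14))) (a (c (l 16790688) (l 16788560)) (l 14)))))) (b (b (c (l 16794240) (l 16793128)) (a (b (l 16782016) (c (l 16792336) (b (l 16790288) (l 16789544)))) (b (l 16791016) (l 14)))) (b (b (a (a (b (c (l 16791984) (l 16791768)) (l 14)) (l 14)) (l 14)) (l 14)) (l 14))))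 (b (a (b (a (l 16791528) (l 14)) (l 14)) (l 14)) (l 14))), by decide +kernel⟩

theorem t12_A00pm_113_s3 : ∃ t, chk3 f_A00pm_113_s3 t 63 63 1 = true := ex3_b k10_A00pm_113_s3 k11_A00pm_113_s3

theorem t13_A00pm_113_s3 : ∃ t, chk3 f_A00pm_113_s3 t 31 63 1 = true := ex3_a k9_A00pm_113_s3 t12_A00pm_113_s3

theorem t14_A00pm_113_s3 : ∃ t, chk3 f_A00pm_113_s3 t 31 31 1 = true := ex3_b k8_A00pm_113_s3 t13_A00pm_113_s3

theorem t15_A00pm_113_s3 : ∃ t, chk3 f_A00pm_113_s3 t 31 15 1 = true := ex3_b k7_A00pm_113_s3 t14_A00pm_113_s3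

theorem t16_A00pm_113_s3 : ∃ t, chk3 f_A00pm_113_s3 t 15 15 1 = true := ex3_a k6_A00pm_113_s3 t15_A00pm_113_s3

theorem t17_A00pm_113_s3 : ∃ t, chk3 f_A00pm_113_s3 t 15 7 1 = true := ex3_b k5_A00pm_113_s3 t16_A00pm_113_s3

theorem t18_A00pm_113_s3 : ∃ t, chk3 f_A00pm_113_s3 t 7 7 1 = true := ex3_a k4_A00pm_113_s3 t17_A00pm_113_s3

theorem t19_A00pm_113_s3 : ∃ t, chk3 f_A00pm_113_s3 t 7 3 1 = true := ex3_b k3_A00pm_113_s3 t18_A00pm_113_s3

theorem t20_A00pm_113_s3 : ∃ t, chk3 f_A00pm_113_s3 t 3 3 1 = true := ex3_a k2_A00pm_113_s3 t19_A00pm_113_s3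

theorem t21_A00pm_113_s3 : ∃ t, chk3 f_A00pm_113_s3 t 3 1 1 = true := ex3_b k1_A00pm_113_s3 t20_A00pm_113_s3

theorem t22_A00pm_113_s3 : ∃ t, chk3 f_A00pm_113_s3 t 1 1 1 = true := ex3_a k0_A00pm_113_s3 t21_A00pm_113_s3

theorem c_A00pm_113_s3 : CertF 536870912 536870912 536870912 536870912 649613803 48318383 true true false .nn 1 1 3
    ndB0q1 ndB0q1 pcB3 cut_A00pm_113_s3 Ext.none :=
  certF0 (fam := true) (s1 := true) (s2 := false) (a := 1) (b := 1) (c := 3) (cn := .nn) (n1 := ndB0q1) (n2 := ndB0q1) (pc := pcB3) (cut := cut_A00pm_113_s3) (xt := Ext.none) (P1 := 536870912) (W1 := 536870912) (P2 := 536870912) (W2 := 536870912) (P3 := 649613803) (W3 := 48318383)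
    rfl t22_A00pm_113_s3

theorem s_A00pm_113_s3 {κ x : ℝ} (hκ : κ * h0 = ken x) (hx : ((649613803 : ℕ) : ℝ) / S ≤ x)
    (hx' : x ≤ (((649613803 : ℕ) : ℝ) + (48318383 : ℕ)) / S)
    (H : CutA (VFD κ) PP tK tL pcB (Cut.of [[⟨0, 1, 0, 67108864⟩, ⟨1, 1, 0, 67108864⟩, ⟨2, 2, 0, 16777216⟩], [⟨0, 0, 1, 20971520⟩, ⟨1, 1, 0, 33554432⟩, ⟨2, 1, 1, 20971520⟩], [⟨0, 1, 0, 33554432⟩, ⟨1, 0, 1, 20971520⟩, ⟨2, 1, 1, 20971520⟩]]) 1 1 3 0 0 (sgb true) (sgb false) x) :
    AltA (VFD κ) PP tK tL pcB [⟨4, 0, 0, 2845415833⟩] 1 1 3 0 0 (sgb true) (sgb false) x :=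
  strip_altAD (m := 2845415833) false rfl hκ (SH.κ0 hκ (SH.hx1 hx).le (SH.hx2 hx').le) (SH.hx1 hx).le (SH.hx2 hx') (covB01).cov (covB01).cov hx hx' c_A00pm_113_s3 H (noExt_A)

noncomputable def cut_A00pm_123_s1 : Cut := Cut.of [[⟨4, 0, 0, 1449551462⟩], [⟨0, 1, 0, 67108864⟩, ⟨1, 1, 0, 67108864⟩, ⟨2, 2, 0, 16777216⟩], [⟨0, 0, 1, 20971520⟩, ⟨1, 1, 0, 33554432⟩, ⟨2, 1, 1, 20971520⟩]]

noncomputable def f_A00pm_123_s1 : ℕ → ℕ → ℕ → ℕ → Bool := onCell 536870912 536870912 0 536870912 649613803 48318383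
    (rowF 0 true true false .npn 1 2 3 (qsf 536870912 536870912 0 536870912 3) ndB0q1 ndB0q2 pcB3 cut_A00pm_123_s1 Ext.none)

def k0_A00pm_123_s1 : ∃ t, chk3 f_A00pm_123_s1 t 1 1 1 = true :=
  ⟨(l 6), by decide +kernel⟩

theorem c_A00pm_123_s1 : CertF 536870912 536870912 0 536870912 649613803 48318383 true true false .npn 1 2 3
    ndB0q1 ndB0q2 pcB3 cut_A00pm_123_s1 Ext.none :=
  certF0 (fam := true) (s1 := true) (s2 := false) (a := 1) (b := 2) (c := 3) (cn := .npn) (n1 := ndB0q1) (n2 := ndB0q2) (pc := pcB3) (cut := cut_A00pm_123_s1) (xt := Ext.none) (P1 := 536870912) (W1 := 536870912) (P2 := 0) (W2 := 536870912) (P3 := 649613803) (W3 := 48318383)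
    rfl k0_A00pm_123_s1

theorem s_A00pm_123_s1 {κ x : ℝ} (hκ : κ * h0 = ken x) (hx : ((649613803 : ℕ) : ℝ) / S ≤ x)
    (hx' : x ≤ (((649613803 : ℕ) : ℝ) + (48318383 : ℕ)) / S)
    (H : CutA (VFD κ) PP tK tL pcB (Cut.of [[⟨0, 1, 0, 67108864⟩, ⟨1, 1, 0, 67108864⟩, ⟨2, 2, 0, 16777216⟩], [⟨0, 0, 1, 20971520⟩, ⟨1, 1, 0, 33554432⟩, ⟨2, 1, 1, 20971520⟩]]) 1 2 3 0 0 (sgb true) (sgb false) x) :
    AltA (VFD κ) PP tK tL pcB [⟨3, 0, 0, 1449551462⟩] 1 2 3 0 0 (sgb true) (sgb false) x :=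
  strip_altAD (m := 1449551462) true rfl hκ (SH.κ0 hκ (SH.hx1 hx).le (SH.hx2 hx').le) (SH.hx1 hx).le (SH.hx2 hx') (covB01).cov (covB02).cov hx hx' c_A00pm_123_s1 H (noExt_A)

end Pool.Agent.Strip051.G.I6050_6500.Tab.St.C
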