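import Pool.Agent.Strip051.G.I6050_6500.StH
import Pool.Agent.Strip051.G.I6050_6500.StF

/-! # Unit strips 15 (generated) -/

set_option linter.all false
set_option maxRecDepth 100000

namespace Pool.Agent.Strip051.G.I6050_6500.Tab.St.C

open Pool.Agent.Strip051.PB Pool.Agent.Strip051.PB.T Pool.Agent.StripNear Pool.Agent.Strip051.LC
open Pool.Agent.Strip051.G.I6050_6500.Tab Pool.Agent.Strip051.G.I6050_6500.Tab.St

noncomputable def cut_A00pm_123_s3 : Cut := Cut.of [[⟨3, 0, 0, 2845415833⟩], [⟨0, 1, 0, 67108864⟩, ⟨1, 1, 0, 67108864⟩, ⟨2, 2, 0, 16777216⟩], [⟨0, 0, 1, 20971520⟩, ⟨1, 1, 0, 33554432⟩, ⟨2, 1, 1, 20971520⟩]]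

noncomputable def xt_A00pm_123_s3 : Ext := strExt6 dd true true false .u0 .u2 .s2 .npn 1 2 3 rfl rfl gl3 vv ww ndB0q1 ndB0q2

noncomputable def f_A00pm_123_s3 : ℕ → ℕ → ℕ → ℕ → Bool := onCell 1610612736 536870912 0 536870912 649613803 48318383
    (rowF 2 true true false .npn 1 2 3 (qsf 536870912 536870912 0 536870912 3) ndB0q1 ndB0q2 pcB3 cut_A00pm_123_s3 xt_A00pm_123_s3)

def k0_A00pm_123_s3 : ∃ t, chk3 f_A00pm_123_s3 t 2 1 1 = true :=
  ⟨(a (b (b (l 1) (l 6)) (l 6)) (b (a (b (b (a (b (l 1070063631) (l 16748688)) (b (l 1070741007) (l 1070920207))) (a (b (b (l 16781408) (l 16692984)) (l 16686568)) (b (a (l 16716992) (l 16732016)) (b (l 16719440) (l 16716232))))) (b (a (b (l 16679744) (l 6)) (b (l 16713400) (l 16709768))) (l 6))) (b (b (a (b (l 1071569935) (l 1071752719)) (b (a (l 1072032783) (l 1072259599)) (a (l 1072211983) (l 1072436751)))) (a (b (l 1071954447) (a (l 16740720) (l 16751816))) (b (a (l 16761632) (l 1072641551)) (a (l 16759880) (l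 16765624))))) (b (a (b (a (l 16737984) (l 16750632)) (l 16742952)) (b (a (l 16760144) (l 16766912)) (a (l 16760120) (l 16768008)))) (a (b (a (l 6) (l 16747232)) (l 6)) (b (a (l 16758720) (l 16767448)) (b (l 16761752) (l 16759696))))))) (a (l 6) (b (l 6) (l 6))))), by decide +kernel⟩

def k1_A00pm_123_s3 : ∃ t, chk3 f_A00pm_123_s3 t 12 2 1 = true :=
  ⟨(b (b (a (b (a (l 1072420879) (l 4)) (a (l 1072591887) (l 1072736783))) (a (b (l 4) (l 1073022991)) (l 4))) (a (b (a (l 1072803343) (a (l 1072900623) (l 1073055759))) (a (c (l 16769872) (l 16769360)) (b (l 1073181711) (l 1073313807)))) (b (a (a (l 1073208847) (l 1073336847)) (b (a (l 1073375759) (l 1073455119)) (l 1073010703))) (a (b (l 1073472015) (l 1073603087)) (b (a (l 1073630735) (b (l 1073674767) (l 1073737231))) (a (l 1073760271) (l 1073297423))))))) (b (a (b (a (b (l 16770232) (l 16771512)) (a (l 16773152) (l 16770232))) (a (l 16772984) (b (l 16776376) (l 16777016)))) (b (a (b (l 1073735183) (l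 1073865231)) (b (a (l 16778376) (l 1073963535)) (a (l 16779904) (l 16780160)))) (a (b (l 16780176) (l 16781408)) (b (l 1074146319) (l 16782608))))) (a (b (a (l 16773528) (l 16777672)) (a (l 16771584) (l 16775968))) (b (a (l 16760464) (b (l 16783160) (l 16782656))) (a (b (l 16780496) (l 16778840)) (c (l 16738656) (l 16781784))))))), by decide +kernel⟩

def k2_A00pm_123_s3 : ∃ t, chk3 f_A00pm_123_s3 t 13 4 1 = true :=
  ⟨(b (l 4) (a (b (a (a (b (l 4) (l 1073633807)) (l 4)) (l 4)) (a (b (a (b (b (l 1073709583) (l 1073739791)) (a (l 1073776143) (l 1073257999))) (b (b (a (a (l 1073728015) (l 4)) (l 4)) (a (c (l 1073780239) (l 1073211407)) (c (l 1073788431) (l 1073753615)))) (a (c (l 1073822735) (l 1073803279)) (l 1073815055)))) (a (b (a (l 1073840655) (l 1073859599)) (l 1073915919)) (b (a (l 1073873423) (l 1073878543)) (l 1073537551)))) (a (b (a (b (l 4) (c (l 1073832463) (l 1073805327))) (l 4)) (b (c (l 1073885711) (a (l 1073876495) (l 1073864719))) (c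 (l 1073938447) (l 1073941519)))) (a (b (l 4) (a (b (b (l 4) (l 1073872911)) (l 1073917455)) (b (l 4) (l 1073907215)))) (b (l 4) (b (l 4) (l 1073889807))))))) (b (l 4) (l 4)))), by decide +kernel⟩

def k3_A00pm_123_s3 : ∃ t, chk3 f_A00pm_123_s3 t 13 5 1 = true :=
  ⟨(a (b (b (a (b (a (l 1073474575) (l 1073496079)) (a (l 1074136079) (l 1074150927))) (b (a (b (l 1073457679) (l 1074053135)) (b (c (l 1073965071) (l 1073964559)) (l 1074015247))) (a (b (l 1074109967) (l 1074162703)) (b (l 1074069519) (l 1074118671))))) (a (b (a (l 16781448) (l 16770416)) (a (l 16782256) (l 16781528))) (b (a (l 1074183695) (b (l 1074129423) (l 16774080))) (a (l 16780528) (l 1073508879))))) (b (a (b (l 16782048) (l 16781616)) (b (b (l 16769264) (l 16779432)) (l 16778736))) (a (b (l 16780496) (l 16778736)) (b (l 16776680) (l 16775096))))) (b (b (a (b (a (b (l 1073898511) (l 1073951247)) (c (l 1073869839) (b (l 4) (l 1073843727)))) (a (b (l 1074002959) (l 1073778191)) (b (l 1073374223)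 (a (l 1073429007) (b (l 1073914383) (l 1073912847)))))) (a (b (l 4) (a (b (c (l 1073854991) (l 1073785871)) (c (l 1074409999) (c (l 1073282575) (b (l 1073281551) (l 1073773583))))) (b (l 4) (c (l 1073824783) (l 1073732111))))) (l 4))) (a (b (a (b (l 1073504783) (l 1074001935)) (b (a (l 1073949711) (l 1073870351)) (l 1073308175))) (a (l 1073377807) (a (l 1073781775) (b (l 16777120) (l 16776728))))) (a (b (a (c (l 1073786383) (b (l 1073722895) (l 1073634319))) (l 1073664527)) (c (l 1073645583) (l 1073469967))) (b (l 1073595919) (l 1073457679))))) (b (a (b (a (l 16766904) (b (l 16776464) (l 16775864))) (a (l 16776056) (l 16774648))) (b (a (b (l 16770616) (l 16775240)) (l 1073327119)) (a (l 16774088) (l 16774200)))) (a (b (l 16752496) (l 16749888)) (b (a (l 16772000) (l 16772144)) (a (l 16769624) (l 16769584))))))), by decide +kernel⟩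

def k4_A00pm_123_s3 : ∃ t, chk3 f_A00pm_123_s3 t 14 4 1 = true :=
  ⟨(l 4), by decide +kernel⟩

def k5_A00pm_123_s3 : ∃ t, chk3 f_A00pm_123_s3 t 28 5 1 = true :=
  ⟨(b (a (b (l 4) (a (b (l 1073543695) (l 1073408527)) (b (l 4) (a (l 1073428495) (l 1073464847))))) (l 4)) (b (b (b (a (a (l 1073312271) (l 1073352207)) (a (l 1073437711) (l 4))) (a (a (l 1073250831) (l 1073291279)) (a (l 1073388047) (l 1075152911)))) (a (a (l 1073145871) (l 1073179663)) (a (l 1073789967) (l 1073408527)))) (a (a (b (l 16772768) (b (l 16770944) (l 16769608))) (b (l 1073009167) (l 16771656))) (a (b (l 1074694159) (l 1072931855)) (b (a (l 1073193487) (b (l 1073330703) (l 1073252879))) (a (l 1073046031) (l 1073146895))))))), by decide +kernel⟩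

def k6_A00pm_123_s3 : ∃ t, chk3 f_A00pm_123_s3 t 29 5 1 = true :=
  ⟨(b (l 4) (a (b (a (a (b (l 4) (a (l 1073539087) (a (l 1073584143) (l 4)))) (l 4)) (l 4)) (a (b (a (b (a (l 1073414671) (b (l 1073496079) (l 1073456655))) (l 1073369103)) (b (b (a (l 1074099215) (l 4)) (l 1073559055)) (l 1073503759))) (a (b (l 1073298447) (l 1073232911)) (b (l 1073434127) (l 1073370127)))) (c (c (b (b (l 4) (a (c (l 1073990159) (l 1073894927)) (a (a (l 1074041871) (l 4)) (l 4)))) (a (b (l 1073886735) (l 1073836559)) (a (b (l 1074008079) (l 1073958927)) (b (b (l 1074107919) (l 1074082319)) (l 1074046479))))) (b (b (l 4) (c (l 1074421263) (l 1073789967))) (a (l 1073658895) (b (l 1073858575) (l 1073801743))))) (b (b (l 4) (l 1073553935)) (a (l 1073890319) (b (l 1073567759) (l 1073499151))))))) (a (b (l 4) (b (l 4) (c (c (c (a (a (b (b (l 4) (l 1074221071)) (l 1074187279)) (b (l 4) (b (l 1074293775) (l 1074272271)))) (a (b (l 4) (b (l 4) (a (l 1074347023) (a (a (l 1074378767)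 (l 1074658319)) (l 4))))) (l 4))) (a (b (a (l 1074139663) (l 4)) (l 1074138639)) (a (b (l 4) (b (l 4) (l 1074275855))) (l 4)))) (a (b (l 1074048527) (l 1073992719)) (a (b (l 4) (l 1074143759)) (l 4)))) (a (c (l 1073829391) (l 1073637391)) (a (b (l 4) (l 1073859087)) (l 4)))))) (l 4)))), by decide +kernel⟩

def k7_A00pm_123_s3 : ∃ t, chk3 f_A00pm_123_s3 t 15 2 1 = true :=
  ⟨(l 4), by decide +kernel⟩

def k8_A00pm_123_s3 : ∃ t, chk3 f_A00pm_123_s3 t 6 6 1 = true :=
  ⟨(a (b (a (b (a (l 16767544) (l 16771856)) (a (l 6) (b (l 16767712) (l 6)))) (b (a (c (l 16733160) (l 16776056)) (c (l 16755296) (l 16734952))) (a (b (l 16770784) (l 16767728)) (b (l 16771600) (l 16768504))))) (a (l 6) (b (a (l 16723168) (b (l 16681960) (l 16765368))) (a (l 6) (b (l 16765312) (l 6)))))) (a (b (b (a (a (l 16754608) (l 16763880)) (b (l 16772912) (l 16770384))) (b (a (l 16770024) (l 16767920)) (a (l 16766712) (l 16765128)))) (b (a (b (a (l 16764752) (l 16763992)) (l 16764912))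 (b (l 16722000) (a (l 16764832) (l 16764640)))) (a (b (l 16766720) (l 16769832)) (b (a (l 16768152) (l 16768952)) (a (l 16772776) (l 16774488)))))) (b (a (b (a (l 16769288) (l 16768120)) (b (l 16766224) (l 16764872))) (b (a (b (l 16767376) (l 16766688)) (b (b (l 16767600) (l 16766464)) (l 16766184))) (a (b (l 16765880) (l 16765256)) (b (l 16765856) (l 16765800))))) (b (a (b (l 16764200) (a (l 16764776) (l 16765760))) (a (b (l 16765464) (b (l 16766320) (l 16767536))) (b (l 16766568) (a (l 16768104) (l 16769040))))) (c (a (b (l 16769160) (l 16773248)) (a (b (l 16771024) (l 16775640)) (b (a (l 16772296) (l 16773336)) (l 16798672)))) (a (b (l 16812048) (a (l 16778000) (l 16778104))) (a (b (l 16770704) (l 16778832)) (b (b (a (l 16769880) (l 16771008)) (l 16773904)) (b (l 16777896) (l 16782304)))))))))), by decide +kernel⟩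

def k9_A00pm_123_s3 : ∃ t, chk3 f_A00pm_123_s3 t 6 7 1 = true :=
  ⟨(a (l 6) (b (a (a (b (b (a (l 6) (l 16775840)) (l 6)) (l 6)) (b (a (b (l 16778824) (b (l 16784336) (l 6))) (b (b (l 16779592) (l 16783472)) (a (l 16873424) (l 16832728)))) (b (a (l 6) (b (c (l 16789120) (l 16807720)) (l 6))) (l 6)))) (a (a (b (b (c (l 16778112) (l 16787576)) (c (l 16785080) (l 16798864))) (b (b (l 16840968) (c (l 16795808) (l 16815256))) (c (l 16801560) (b (l 16820104) (l 16824320))))) (b (b (c (l 16779704) (l 16787768)) (c (l 16786944) (l 16799088))) (b (c (l 16795560) (l 16853872)) (c (l 16804176) (b (l 16820992) (l 16825904)))))) (a (b (b (c (l 16781648) (a (l 16788264) (l 16788760))) (c (l 16789096) (c (l 16796728) (l 16803160)))) (b (b (l 16843640) (l 16849224)) (b (a (l 16812320) (l 16813288)) (l 16859512)))) (b (b (c (l 16804864) (b (l 16787112) (l 16792320))) (c (l 16791424) (b (l 16797896) (l 16803808)))) (c (b (l 16800144) (l 16809408)) (b (b (l 16810032)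 (l 16816512)) (b (l 16823296) (l 16828760)))))))) (a (l 6) (a (a (l 6) (b (b (b (l 16861856) (c (l 16815200) (l 16835856))) (b (c (l 16820008) (l 16841224)) (l 6))) (l 6))) (b (b (a (b (l 16864288) (l 16869296)) (b (l 16824560) (l 16871656))) (c (a (l 16825864) (l 16828880)) (a (l 16888360) (l 16890432)))) (a (b (b (l 16885688) (l 16849416)) (l 6)) (c (b (l 16839256) (l 16849344)) (b (l 16860256) (l 16871504))))))))), by decide +kernel⟩

def k10_A00pm_123_s3 : ∃ t, chk3 f_A00pm_123_s3 t 28 24 1 = true :=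
  ⟨(a (b (a (b (b (l 16768528) (l 16767816)) (a (a (l 16766496) (l 16766656)) (b (l 16767392) (l 16766672)))) (b (l 16769768) (a (l 16767952) (l 16768968)))) (a (a (a (l 16765992) (b (l 16765864) (l 16765904))) (b (b (a (a (l 16765824) (b (l 16766024) (l 16765792))) (b (l 16766344) (l 16766056))) (a (l 16765832) (l 16765880))) (a (a (l 16765888) (l 16765904)) (l 16766000)))) (a (b (b (l 16766920) (a (b (l 16766208) (l 16766032)) (b (l 16766688) (l 16766416)))) (b (c (l 16768496) (l 16763808)) (l 16766288))) (b (b (l 16768016) (l 16767384)) (a (b (b (l 16766672) (l 16766496)) (l 16766608)) (b (c (l 16769408) (l 16764864)) (b (l 16766800) (l 16766880)))))))) (b (a (b (l 16771704) (l 16770616)) (c (l 1073744911) (l 16782648))) (c (a (b (l 16771392) (a (b (l 16770176) (a (l 16769552) (l 16770080))) (l 16771128))) (l 16773248)) (a (b (l 16767632) (a (b (l 16765880) (a (b (l 16765048) (l 16764840)) (l 16765640))) (l 16767080))) (b (l 16770512) (l 16769432)))))),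 by decide +kernel⟩

def k11_A00pm_123_s3 : ∃ t, chk3 f_A00pm_123_s3 t 28 25 1 = true :=
  ⟨(b (a (a (a (a (l 16765944) (l 16766016)) (b (a (l 16766008) (l 16766152)) (a (l 16766176) (l 16766368)))) (b (c (l 16768904) (a (l 16764288) (l 16764736))) (a (l 16766720) (c (l 16769400) (l 16765208))))) (a (b (a (b (c (l 16769656) (c (l 16766240) (l 16763976))) (l 16767616)) (b (c (a (l 16770328) (l 16770896)) (a (b (l 16765928) (l 16765728)) (l 16766592))) (a (l 16768120) (a (l 16768360) (b (l 16768592) (l 16768632)))))) (c (l 16770416) (a (l 16765824) (l 16766536)))) (b (b (a (l 16769808) (l 16771272)) (a (a (b (l 16769128) (a (l 16768808) (l 16769128))) (l 16769768)) (l 16770896))) (c (a (b (a (l 16771264) (l 16771672)) (l 16771680)) (b (a (l 16772304) (l 16772912)) (a (l 16772296) (l 16772792)))) (a (b (a (l 16766952) (b (c (l 16768464) (l 16766312)) (l 16767432))) (l 16767496)) (b (a (b (l 16768168) (c (l 16769072) (l 16766968))) (l 16768944)) (a (l 16768120)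 (b (c (l 16769720) (l 16767664)) (l 16768664))))))))) (b (a (a (a (l 16766144) (a (l 16766432) (l 16766664))) (a (l 16767072) (l 16767696))) (a (c (l 16770816) (a (l 16766448) (l 16767208))) (c (c (l 16773512) (l 16771480)) (a (l 16768048) (c (l 16769952) (l 16767976)))))) (a (a (a (l 16766488) (a (l 16766880) (l 16767152))) (a (l 16767616) (l 16768304))) (a (c (l 16771392) (a (l 16767272) (l 16768088))) (c (l 16773184) (a (l 16768976) (l 16769928))))))), by decide +kernel⟩

def k12_A00pm_123_s3 : ∃ t, chk3 f_A00pm_123_s3 t 28 26 1 = true :=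
  ⟨(c (a (a (a (b (l 16769160) (l 16771256)) (b (a (l 16769688) (l 16770048)) (b (l 16771472) (l 16772904)))) (b (b (l 16770536) (l 16771520)) (b (l 16772776) (l 16774312)))) (b (a (b (l 16772232) (l 16773328)) (b (l 16774112) (l 16775296))) (a (b (l 16774704) (l 16776336)) (b (l 16776736) (l 16778432))))) (a (a (a (b (l 16766208) (l 16769080)) (b (a (l 16766752) (l 16767064)) (b (l 16769104) (a (l 16770784) (l 16771200))))) (b (a (l 16767560) (l 16768296)) (b (l 16770256) (c (l 16772664) (l 16771888))))) (a (b (b (a (l 16768400) (l 16769264)) (a (l 16769832) (l 16770744))) (b (c (l 16772648) (l 16771504)) (c (l 16774600) (l 16773712)))) (b (b (c (l 16771512) (l 16769880)) (c (l 16772944) (l 16771520))) (c (b (l 16774664) (l 16776672)) (b (l 16773464) (l 16775712))))))), by decide +kernel⟩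

def k13_A00pm_123_s3 : ∃ t, chk3 f_A00pm_123_s3 t 28 27 1 = true :=
  ⟨(a (c (a (b (a (b (l 16773632) (l 16775568)) (b (l 16774632) (c (l 16777032) (l 16776320)))) (a (l 16779416) (c (l 16780504) (l 16780808)))) (b (b (l 16776144) (a (l 16777736) (l 16778872))) (c (l 16782232) (b (l 16780672) (l 16783872))))) (a (b (a (b (a (l 16771928) (l 16772504)) (a (l 16774968) (l 16775416))) (b (a (l 16772984) (l 16773432)) (b (a (a (l 16774824) (l 16775072)) (l 16775408)) (l 16777032)))) (b (a (l 16779176) (c (l 16779648) (c (l 16780280) (l 16780840)))) (a (l 16783544) (b (l 16783256) (l 16785520))))) (a (b (b (l 16774088) (c (b (l 16776280) (l 16777608)) (b (l 16776080) (c (l 16777584) (l 16777680))))) (c (b (l 16780408) (l 16784344)) (b (l 16781048) (l 16785808)))) (b (b (l 16775024) (b (l 16776984) (a (a (l 16778096) (l 16778360)) (l 16778760)))) (c (b (l 16781200) (l 16785120)) (b (l 16781592) (l 16786328))))))) (c (b (a (b (l 16778240) (l 16780456)) (a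 (l 16780952) (l 16782016))) (a (b (a (l 16782328) (l 16783488)) (l 16785816)) (c (b (l 16785528) (l 16788008)) (b (l 16784936) (l 16787744))))) (b (a (b (a (l 16776008) (l 16777024)) (c (l 16779456) (a (l 16778616) (l 16779600)))) (a (b (l 16778056) (l 16780776)) (b (l 16779096) (l 16781808)))) (a (c (b (a (l 16781904) (l 16782960)) (l 16786320)) (a (b (b (a (l 16780832) (l 16781304)) (l 16783312)) (l 16786880)) (b (b (l 16782104) (a (l 16783760) (l 16784024))) (l 16787456)))) (a (b (b (l 16783024) (a (l 16784448) (l 16784984))) (c (l 16787512) (l 16788016))) (b (l 16784856) (b (l 16787424) (l 16789544)))))))), by decide +kernel⟩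

def k14_A00pm_123_s3 : ∃ t, chk3 f_A00pm_123_s3 t 58 12 1 = true :=
  ⟨(b (a (b (c (b (l 1073466383) (l 1073427983)) (b (l 1073021967) (l 16774040))) (c (b (l 16775544) (l 16775168)) (b (l 16773256) (l 16772472)))) (a (b (b (a (l 1073429519) (l 1073513487)) (l 1073431567)) (c (l 1073621007) (l 16774816))) (b (b (c (a (l 1073811983) (l 1074438671)) (l 1073437711)) (a (l 1073565199) (l 1073661455))) (b (l 1073588239) (l 16776552))))) (b (a (a (b (l 16772560) (b (l 16772096) (a (a (b (l 16771280) (a (l 16771080) (l 16771272))) (l 16771632)) (l 16772216)))) (b (l 16773952) (c (l 16775160) (l 16771832)))) (a (b (l 16775240) (l 16774928)) (b (l 16776376) (l 16776216)))) (a (a (b (c (b (a (l 16773432) (l 16774032)) (l 16774016)) (b (a (c (l 16770424) (l 16768416)) (b (l 16770128) (c (l 16771040) (l 16769064)))) (l 16770144))) (c (l 16774608) (l 16770928))) (b (c (b (l 16775048) (a (l 16774704) (l 16775360))) (b (c (l 16772328) (l 16770512)) (a (c (l 16771832)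 (b (l 16769840) (l 16770072))) (b (l 16771648) (c (l 16772536) (l 16770664)))))) (c (l 16775576) (l 16771960)))) (a (b (c (l 16776336) (c (l 16773872) (l 16772216))) (a (b (b (a (l 16774024) (l 16774408)) (l 16774360)) (l 16774776)) (b (b (l 16774952) (l 16775016)) (l 16775232)))) (b (l 16776088) (a (b (l 16775720) (b (l 16775816) (l 16775888))) (l 16776568))))))), by decide +kernel⟩

def k15_A00pm_123_s3 : ∃ t, chk3 f_A00pm_123_s3 t 59 12 1 = true :=
  ⟨(b (a (c (b (c (b (c (a (b (l 1074205199) (a (l 1074143247) (l 1074242063))) (a (b (b (a (l 1074332687) (l 1074384911)) (l 1074353679)) (l 1074344975)) (l 1074454543))) (a (l 1074635791) (a (b (l 1074259983) (l 1074247183)) (l 1074359311)))) (a (c (l 1074181647) (l 1074078223)) (c (l 1074383887) (l 1074285071)))) (a (b (l 1073948175) (l 1073923087)) (b (c (l 1074210831) (l 1074114063)) (l 1074136079)))) (a (l 1074000911) (l 1074212367))) (a (b (a (l 1073571855) (l 1073683471)) (l 1073570319)) (b (a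 (l 1073795599) (l 1073911823)) (l 1073799183)))) (a (b (c (b (a (l 1074959375) (l 4)) (l 1074459151)) (l 1074095631)) (l 1074778639)) (b (b (l 4) (l 1074519055)) (l 1074493967)))) (b (a (a (c (l 16778280) (l 16776384)) (b (l 1073987599) (l 16778160))) (b (l 1074357775) (a (l 16778752) (l 1074483215)))) (a (a (b (l 16777328) (l 16777512)) (b (l 16778352) (l 16778688))) (b (a (l 16779112) (l 16779576)) (a (l 16779616) (l 16780256)))))), by decide +kernel⟩

def k16_A00pm_123_s3 : ∃ t, chk3 f_A00pm_123_s3 t 29 13 1 = true :=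
  ⟨(a (b (a (b (c (b (l 16776080) (l 16777312)) (b (c (l 16773544) (l 16771912)) (c (l 16775016) (l 16773584)))) (c (b (l 16778792) (l 16780504)) (b (c (l 16776760) (l 16775536)) (c (l 16778768) (l 16777776))))) (b (b (a (c (l 16777560) (l 16774296)) (c (l 16778424) (a (l 16775080) (b (l 16775200) (l 16775960))))) (c (l 16779288) (a (l 16775864) (l 16776904)))) (a (b (l 16778952) (l 16780856)) (b (l 16779960) (l 16781848))))) (c (b (a (b (l 16782456) (l 16784672)) (b (l 16784432) (l 16786624))) (a (b (l 16787168) (l 16790008)) (b (l 16789080) (l 16791864)))) (a (a (b (b (l 16780136) (l 16782840)) (b (l 16785872) (c (l 16789288) (l 16800000)))) (b (c (l 16782840) (l 16782232)) (b (l 16786864) (l 16790352)))) (b (b (l 16782680) (l 16785328)) (b (l 16788296) (l 16791616)))))) (b (a (b (b (a (a (b (l 16777528) (l 16777984)) (b (l 16778144) (l 16778496))) (c (l 16780688) (l 16778104))) (a (l 16779312) (b (a (l 16779600) (l 16780240)) (l 16780648)))) (c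 (b (l 16782640) (l 16784328)) (b (l 16780232) (l 16782296)))) (b (a (b (l 16780352) (b (l 16781064) (l 16786904))) (l 16781736)) (b (a (l 16782696) (a (l 16783376) (l 16783984))) (l 16785072)))) (b (a (c (l 16797888) (a (l 16785448) (l 16786392))) (c (l 16788856) (l 16787576))) (a (b (l 16790360) (l 16793184)) (c (l 16793208) (l 16792784)))))), by decide +kernel⟩

def k17_A00pm_123_s3 : ∃ t, chk3 f_A00pm_123_s3 t 14 14 1 = true :=
  ⟨(a (b (a (a (b (b (c (l 16784552) (a (l 16788304) (c (l 16787880) (l 16790496)))) (c (l 16788016) (a (l 16793440) (l 16794192)))) (c (b (l 16791792) (l 16795840)) (b (c (l 16797080) (l 16801648)) (l 16805024)))) (b (b (c (l 16786816) (c (l 16789008) (a (l 16790952) (l 16791424)))) (c (l 16790280) (c (l 16793616) (l 16796656)))) (c (l 16817040) (b (l 16810888) (l 16806048))))) (a (c (b (b (l 16788984) (l 16792432)) (l 16798160)) (b (a (b (l 16790976) (l 16795944)) (b (l 16791632) (l 16796544))) (b (l 16801480) (l 16807000))))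 (b (b (c (l 16791072) (c (l 16792080) (l 16793256))) (a (l 16805800) (l 16796120))) (b (c (l 16798136) (l 16802528)) (l 16825688))))) (b (a (a (c (l 16802440) (b (l 16811056) (l 16817328))) (b (c (l 16802320) (l 16811944)) (l 16853872))) (a (b (l 16850072) (l 16813312)) (a (l 16853600) (l 16854080)))) (a (a (b (c (l 16809536) (l 16824032)) (l 16863168)) (b (l 16817368) (l 16864696))) (a (b (l 16818536) (l 16823912)) (c (l 16816864) (l 16828040)))))) (a (a (b (b (a (b (l 16803392) (l 16796896)) (b (a (l 16793504) (l 16793840)) (l 16797664))) (b (l 16822472) (l 16805864))) (b (a (l 16812512) (l 16812664)) (l 16852928))) (b (b (b (a (c (l 16794344) (l 16794816)) (l 16795328)) (l 16819576)) (b (l 16802536) (l 16806512))) (b (b (l 16810512) (l 16814504)) (c (l 16816624) (l 16824992))))) (b (b (a (c (l 16818640) (b (l 16796600) (l 16799952))) (b (l 16796816) (l 16810184))) (a (b (l 16802872) (l 16806416)) (c (l 16803128) (b (l 16803216) (l 16807016)))))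 (b (a (c (l 16809552) (l 16814504)) (c (l 16808568) (l 16791592))) (c (a (l 16815568) (l 16813784)) (a (l 16780768) (l 16798760))))))), by decide +kernel⟩

def k18_A00pm_123_s3 : ∃ t, chk3 f_A00pm_123_s3 t 14 15 1 = true :=
  ⟨(a (b (b (a (a (a (l 16870608) (l 16871552)) (a (l 16872304) (l 16872880))) (c (l 16866880) (c (l 16834936) (l 16800984)))) (a (a (a (l 16881392) (l 16882160)) (a (l 16882792) (l 16883112))) (c (l 16875568) (c (l 16845096) (l 16854200))))) (a (c (b (l 16883752) (l 16892632)) (b (c (l 16856008) (l 16825328)) (a (l 16808880) (l 16871080)))) (c (c (b (l 16838288) (l 16845400)) (b (l 16845808) (l 16832544))) (b (c (l 16854584) (l 16864632)) (c (l 16863000) (l 16873840)))))) (b (a (a (c (b (l 16824472) (l 16832368)) (b (b (l 16833968) (l 16839088)) (l 16846376))) (b (c (l 16865256) (l 16833784)) (c (l 16830496) (l 16843168)))) (a (b (c (b (l 16819968) (l 16822848)) (l 16830680)) (c (l 16827808) (l 16839072))) (b (b (l 16820856) (a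 (l 16824656) (l 16822752))) (c (l 16782360) (l 16834096))))) (a (c (c (b (l 16835304) (l 16840968)) (b (l 16799856) (l 16848104))) (b (a (l 16855368) (l 16851544)) (c (l 16856432) (l 16824000)))) (a (b (c (l 16791728) (l 16846792)) (c (l 16838552) (l 16853240))) (b (b (l 16791544) (l 16794368)) (c (l 16833880) (l 16802632))))))), by decide +kernel⟩

def k19_A00pm_123_s3 : ∃ t, chk3 f_A00pm_123_s3 t 30 12 1 = true :=
  ⟨(a (b (a (b (l 4) (a (l 1074764303) (c (l 1075215375) (l 1074888719)))) (l 4)) (a (a (b (b (l 1074755087) (b (l 1074756623) (l 1074760207))) (b (c (l 16780168) (l 1074585103)) (l 1074827791))) (b (b (l 1075045903) (c (l 1075223055) (c (l 1074966031) (a (l 1074711567) (l 1074872847))))) (a (b (l 1074990095) (l 1075056143)) (b (a (l 1075103247) (l 1075181071)) (l 1075217423))))) (c (b (a (a (b (l 1075431439) (b (l 1075438095) (l 1075445263))) (b (l 4) (a (b (l 1075551247) (l 1075558927)) (l 1075632655)))) (b (l 4) (l 1075855375))) (a (a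 (b (l 1075435023) (l 16780520)) (l 1076737039)) (c (l 1078152719) (l 1077475855)))) (a (b (b (a (l 1075114511) (l 4)) (c (a (b (l 1075197455) (l 1075202575)) (b (l 1075360271) (l 1075366415))) (a (b (c (l 1075076623) (b (l 1074994703) (l 1074996239))) (c (l 1075080719) (l 1074999311))) (b (a (a (l 1075141135) (l 1075183631)) (l 1075248655)) (l 1075210767))))) (b (a (b (l 1075128335) (l 1075147279)) (a (l 1075239951) (l 1075332111))) (a (l 1075226127) (l 1075416079)))) (a (b (b (l 4) (l 1075458063)) (b (l 1075474447) (l 1075622415))) (b (l 4) (b (l 1076205071) (l 1075799567)))))))) (b (l 4) (a (b (l 4) (b (a (a (l 1075964943) (l 4)) (l 4)) (c (a (l 1076295695) (l 1076582415)) (a (l 1076589583) (l 1076906511))))) (l 4)))), by decide +kernel⟩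

def k20_A00pm_123_s3 : ∃ t, chk3 f_A00pm_123_s3 t 60 13 1 = true :=
  ⟨(b (b (b (a (a (l 16781656) (a (l 16781792) (l 16781776))) (a (a (l 1075526159) (l 1075712527)) (c (l 1076113935) (l 1075851279)))) (a (a (l 16782968) (l 16783272)) (a (c (l 16783528) (l 1076158991)) (l 1076653583)))) (a (a (b (l 16784664) (b (l 16785688) (l 16786648))) (b (l 16784904) (b (l 16786224) (l 16787184)))) (a (c (l 16786296) (b (l 16784360) (l 16786152))) (b (l 1076783119) (l 16786136))))) (b (a (b (a (l 16788048) (l 16788264)) (l 16790160)) (b (a (b (l 16788264) (l 16788928)) (l 16788272)) (a (l 16790336) (b (l 16779248) (l 16790416))))) (a (c (l 16793552) (l 16793160)) (a (l 16793128) (l 16792768))))), by decide +kernel⟩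

def k21_A00pm_123_s3 : ∃ t, chk3 f_A00pm_123_s3 t 61 13 1 = true :=
  ⟨(b (a (b (b (c (a (l 1076421647) (l 1076709903)) (a (l 1076191759) (l 1076511247))) (a (l 1076975631) (l 1077281807))) (a (b (c (l 1076669967) (l 1076467215)) (l 1077235215)) (b (c (l 1076962319) (l 1076791823)) (a (l 16783864) (l 1077078031))))) (b (b (a (c (l 1076982799) (l 1076814351)) (l 4)) (a (a (l 1076957711) (l 1077097999)) (l 4))) (a (b (a (l 1077091855) (l 1077233167)) (a (l 1077224975) (b (l 1077332495) (l 1077399055)))) (b (a (b (l 1077334543) (l 1077402127)) (a (b (l 4) (l 1077499407)) (l 4))) (b (a (l 1077469711) (a (l 1077566991) (a (l 1077614607) (l 1077646863)))) (a (l 1078073359) (a (l 1077634575) (a (b (l 1077665295) (l 1077699087)) (b (a (l 1077689359) (b (l 1077696527) (l 1077713423))) (l 1077730831)))))))))) (a (b (b (a (l 16787144) (a (l 16786032) (l 16785120))) (a (a (l 16789840) (l 16789064)) (l 16782640))) (b (a (b (a (l 16791024) (l 16790800)) (l 16791728))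 (b (l 16789688) (l 16790960))) (a (l 16793032) (b (a (l 16792072) (l 16791504)) (l 16792632))))) (b (a (b (a (l 1077356047) (a (l 16780616) (l 1077532175))) (a (l 16786424) (b (l 16782064) (l 16785896)))) (a (b (b (l 1078139919) (l 1078206479)) (a (l 1077741071) (l 1076737039))) (b (a (b (l 1077701135) (l 1077767695)) (b (a (l 1077749263) (l 1077781519)) (a (l 1077816335) (l 1077848591)))) (a (b (l 1077838863) (l 1077918735)) (b (l 1077905423) (l 1077987343)))))) (a (a (b (l 16788896) (b (l 16790936) (l 16791744))) (b (l 16782544) (b (l 16789720) (l 16791144)))) (a (b (a (l 16781632) (l 16786224)) (l 16783912)) (a (b (l 1078044687) (l 16788144)) (b (l 1078114831) (l 1078235151)))))))), by decide +kernel⟩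

def k22_A00pm_123_s3 : ∃ t, chk3 f_A00pm_123_s3 t 30 14 1 = true :=
  ⟨(a (b (a (a (b (l 16798064) (b (l 16801920) (l 16804632))) (b (l 16797728) (b (l 16801304) (l 16803688)))) (b (a (l 16797224) (c (l 16796440) (l 16796728))) (b (a (l 16800496) (l 16799568)) (l 16802328)))) (a (b (c (l 16806936) (c (l 16809152) (l 16790008))) (c (l 16811320) (l 16816136))) (b (b (l 16804360) (l 16806728)) (c (l 16787272) (l 16811984))))) (b (a (b (b (l 16794312) (l 16796040)) (b (l 16797816) (l 16799624))) (b (a (b (a (l 16793016) (l 16794800)) (l 16794184)) (a (b (b (l 16791216) (l 16791904)) (l 16793080)) (b (b (l 16789216) (a (l 16790624) (l 16789496))) (b (l 16791312) (l 16792448))))) (c (a (l 16796176) (l 16794472)) (a (l 16796832) (l 16789760))))) (c (a (b (l 16801568) (l 16804512)) (b (b (l 16797248) (l 16798552)) (l 16800112))) (a (b (b (l 16802256) (l 16804064)) (l 16807248)) (a (b (l 16800240) (l 16803400)) (b (l 16792728) (l 16800552))))))), by decide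 +kernel⟩

def k23_A00pm_123_s3 : ∃ t, chk3 f_A00pm_123_s3 t 30 15 1 = true :=
  ⟨(b (a (c (b (a (b (l 16814400) (l 16816472)) (l 16811608)) (a (l 16820064) (l 16815032))) (b (a (b (l 16820416) (l 16823376)) (l 16806328)) (a (l 16828336) (b (l 16820048) (l 16823456))))) (a (b (b (l 16808112) (l 16809568)) (b (a (l 16812560) (l 16809704)) (l 16813328))) (b (b (l 16802880) (l 16804024)) (a (b (l 16806712) (l 16808264)) (b (l 16803624) (l 16804912)))))) (b (a (a (c (l 16824768) (l 16834944)) (b (l 16822176) (l 16803576))) (a (c (l 16813632) (c (l 16818728) (l 16817056))) (c (a (l 16809016) (l 16805824)) (b (l 16811272) (l 16789696))))) (a (a (b (l 16791088) (l 16793112)) (c (l 16822912) (b (l 16826520) (l 16783984)))) (a (b (b (l 16777488) (l 16788896)) (c (l 16817368) (c (l 16819920) (l 16793792)))) (b (c (l 16809600) (a (l 16811992) (l 16808064))) (c (l 16789800) (a (l 16790360) (a (l 16787392) (l 16785456))))))))), by decide +kernel⟩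

def k24_A00pm_123_s3 : ∃ t, chk3 f_A00pm_123_s3 t 62 12 1 = true :=
  ⟨(l 4), by decide +kernel⟩

def k25_A00pm_123_s3 : ∃ t, chk3 f_A00pm_123_s3 t 62 26 1 = true :=
  ⟨(a (b (l 4) (a (a (b (l 4) (a (a (b (a (a (l 1077666319) (l 4)) (l 4)) (b (a (b (l 1077712399) (l 1077729295)) (l 1077736463)) (a (l 1077754383) (l 1077770255)))) (b (l 4) (b (b (l 4) (l 1077768207)) (l 1077793807)))) (b (l 4) (b (l 4) (a (l 1077825039) (l 1077855247)))))) (l 4)) (l 4))) (l 4)), by decide +kernel⟩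

def k26_A00pm_123_s3 : ∃ t, chk3 f_A00pm_123_s3 t 124 27 1 = true :=
  ⟨(b (a (a (b (b (a (a (l 1077813263) (l 1077844495)) (b (a (l 1077858831) (l 1077889039)) (l 1077908495))) (a (a (l 1077880335) (l 1077912079)) (b (l 1077941775) (l 1077975567)))) (b (a (l 1077434383) (l 1077499919)) (a (l 1078055439) (l 1078121999)))) (a (b (b (a (b (l 1077919247) (l 1077953039)) (b (l 4) (l 1077982735))) (b (l 1078270991) (a (l 1078019599) (l 1078050831)))) (b (c (l 1078117903) (l 1078082063)) (l 1078186511))) (b (b (l 4) (a (b (l 1078046223) (l 1078081551)) (b (l 1078076431) (l 1078111759)))) (b (a (l 1078147087) (l 1078175759)) (l 1078245903))))) (a (a (b (a (b (l 4) (b (l 4) (l 1078138895))) (l 4)) (c (b (l 1078227983) (l 1078253071)) (b (b (l 1078182927) (l 1078227471)) (l 1078259727)))) (b (l 4) (a (b (a (l 1078247951) (l 1078260751)) (l 1078221327)) (b (b (l 4) (l 1078262287)) (l 1078198287))))) (b (l 4) (b (l 4) (a (a (l 1078176271) (l 1078288911)) (a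 (b (l 4) (l 1078112271)) (l 4))))))) (a (a (a (b (l 1078719503) (l 1078178319)) (b (l 1079053327) (l 1078123023))) (b (a (a (l 1078245391) (l 1078218767)) (b (l 1078220815) (l 1078138895))) (b (a (l 1078109711) (l 1078058511)) (l 1078271503)))) (a (b (a (b (l 1078172175) (l 1078090255)) (b (l 1078260239) (a (l 1078055951) (l 1078033423)))) (a (b (l 1077473295) (l 1077394447)) (b (l 1077426703) (l 1077348367)))) (b (c (b (a (l 1078089743) (l 1077513743)) (a (l 1077476367) (l 1077436943))) (b (a (l 1078208015) (b (c (l 1078055439) (l 1077509647)) (l 1077470223))) (a (a (l 1077999119) (l 1077976079)) (a (l 1077953551) (l 1077931535))))) (c (b (a (l 1077938191) (l 1077899279)) (a (l 1077864463) (l 1077825551))) (a (b (l 1077364751) (l 1077281295)) (a (b (l 1077868047) (l 1077784591)) (b (l 1077846543) (l 1077763087))))))))), by decide +kernel⟩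

def k27_A00pm_123_s3 : ∃ t, chk3 f_A00pm_123_s3 t 125 27 1 = true :=
  ⟨(b (l 4) (a (b (a (c (b (a (c (l 1077483535) (l 1077469199)) (l 4)) (a (l 1077400079) (l 1077365263))) (b (a (a (a (l 1077733903) (l 1078529039)) (l 4)) (l 4)) (a (a (l 1077373455) (l 1077621263)) (b (l 1078417935) (l 1077837839))))) (l 4)) (b (a (b (a (l 1077857807) (l 1078357007)) (a (l 1077817871) (l 1078317583))) (a (a (a (l 1078316047) (l 1078173199)) (b (l 4) (l 1077737999))) (l 4))) (a (a (b (l 1077778959) (l 1077740047)) (a (a (l 1077736463) (l 1077727247)) (l 1078250511))) (a (a (l 1078233103) (l 1077679119)) (a (l 1077663247) (l 1077647375)))))) (a (b (l 4) (a (b (l 4) (c (l 1077663247) (l 1077049359))) (l 4))) (l 4)))), by decide +kernel⟩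

def k28_A00pm_123_s3 : ∃ t, chk3 f_A00pm_123_s3 t 63 6 1 = true :=
  ⟨(l 4), by decide +kernel⟩

def k29_A00pm_123_s3 : ∃ t, chk3 f_A00pm_123_s3 t 124 14 1 = true :=
  ⟨(a (b (b (b (a (c (l 16787672) (l 16784992)) (b (l 1077925903) (l 1077850639))) (a (b (a (l 16789432) (l 16783072)) (l 16790096)) (b (l 16786968) (a (b (l 16787960) (l 16778072)) (l 16781944))))) (b (a (l 16791800) (b (l 16783680) (l 16790008))) (l 16792904))) (b (b (l 16794512) (l 16795632)) (b (l 16796744) (l 16797712)))) (b (b (b (a (a (b (l 1077854735) (l 16784808)) (b (l 1077808143) (l 16783928))) (a (b (l 1077764111) (l 1077688847)) (b (l 1077185039) (l 1077646863)))) (a (a (l 16783352) (l 16782480)) (b (a (l 16783872) (l 16783032)) (c (l 16784280) (l 16781496))))) (b (a (b (a (b (l 16786848) (l 16787424)) (l 16780864)) (a (l 16788248) (l 16781944))) (b (l 16784896) (a (b (l 16785768) (l 16781080)) (l 16779824)))) (a (l 16789400) (b (a (l 16787120) (b (l 16780536) (l 16786280)))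 (l 16787696))))) (b (b (l 16780000) (l 16792616)) (b (l 16794112) (l 16795000))))), by decide +kernel⟩

def k30_A00pm_123_s3 : ∃ t, chk3 f_A00pm_123_s3 t 125 28 1 = true :=
  ⟨(b (a (b (a (a (b (a (l 1077692943) (l 1077673487)) (l 1077606927)) (b (a (l 1077655055) (l 1077636623)) (l 1077569551))) (b (a (c (l 1077649423) (l 1077033999)) (l 1078114319)) (a (l 1077534735) (l 1077501967)))) (a (b (a (l 1077533199) (l 1077495823)) (a (l 16782968) (l 16782168))) (b (a (l 1077460495) (l 1077428239)) (a (l 16778768) (l 1077355535))))) (a (b (a (b (l 1077547535) (l 1077472271)) (b (l 1077520399) (l 1077445135))) (a (b (l 1077398031) (l 1077325839)) (b (l 1077370895) (l 1077298191)))) (b (a (b (l 4) (l 1077421071)) (l 4)) (a (b (l 1077346831) (l 1077274127)) (b (l 1077325839) (l 1077252623)))))) (a (a (b (a (l 16783992) (l 16783200)) (b (a (b (l 16784744) (l 16780000)) (l 16784096)) (a (l 16786024) (b (l 16779472) (l 16785200))))) (b (a (l 16779808) (c (l 16781752)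 (l 16778968))) (a (b (l 16783376) (b (l 16783784) (l 16778944))) (l 16782912)))) (a (a (b (b (l 16780592) (l 16781256)) (l 16782176)) (b (b (l 1077227023) (l 16780528)) (a (l 16781640) (l 16781280)))) (a (b (b (l 1077202447) (l 1077132303)) (b (l 1077064207) (l 16781056))) (b (b (a (l 1077187599) (l 1077177871)) (l 1078184975)) (b (l 1078115855) (l 1078054927))))))), by decide +kernel⟩

def k31_A00pm_123_s3 : ∃ t, chk3 f_A00pm_123_s3 t 125 29 1 = true :=
  ⟨(b (a (b (a (l 16776656) (b (a (l 16784968) (b (a (l 16783920) (l 16783416)) (l 16784200))) (l 16785512))) (l 16777704)) (b (a (b (a (b (l 16782896) (a (l 16783408) (l 16782952))) (l 16782320)) (a (a (l 16784168) (l 16778472)) (b (a (l 16782904) (l 16782544)) (a (l 16783384) (b (l 16782760) (l 16783016)))))) (a (b (l 16781624) (a (b (l 16782200) (l 16782424)) (l 16781984))) (b (l 16780936) (l 16781472)))) (a (l 16779720) (b (a (b (a (l 16782912) (a (l 16787760) (l 16782264))) (l 16783120)) (b (l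 16781816) (a (b (a (l 16782368) (l 16782112)) (l 16782480)) (b (l 16781864) (l 16784608))))) (a (l 16783888) (a (l 16783104) (b (l 16782368) (l 16782832)))))))) (a (b (l 16790216) (l 16781584)) (b (a (l 16786968) (b (l 16784360) (l 16785328))) (a (l 16788848) (l 16786712))))), by decide +kernel⟩

def k32_A00pm_123_s3 : ∃ t, chk3 f_A00pm_123_s3 t 62 15 1 = true :=
  ⟨(a (c (b (a (b (l 16798320) (l 16800032)) (b (l 16795632) (l 16797104))) (a (b (l 16802552) (b (l 16804544) (l 16805560))) (b (l 16809696) (b (l 16801056) (l 16801976))))) (b (b (a (l 16800328) (l 16797184)) (b (l 16800288) (a (l 16803304) (l 16799784)))) (a (b (b (l 16805472) (l 16804880)) (b (l 16783256) (a (l 16783544) (l 16781664)))) (b (b (l 16801456) (l 16801120)) (b (b (l 16800656) (l 16800336)) (b (l 16779048) (a (l 16779656) (l 16777824)))))))) (b (b (a (b (l 16792952) (l 16793736)) (a (b (l 16790584) (l 16791448)) (b (l 16788416) (l 16789872)))) (a (b (l 16794432) (l 16795128))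 (c (l 16791032) (a (l 16793120) (l 16791400))))) (a (b (b (a (l 16796976) (l 16805632)) (c (l 16796384) (l 16797448))) (c (b (l 16797480) (c (l 16797352) (l 16799312))) (b (b (l 16797008) (l 16786216)) (c (l 16797512) (a (l 16795720) (l 16783576)))))) (c (c (b (b (l 16791472) (l 16792352)) (a (l 16794424) (l 16792640))) (b (b (l 16792168) (l 16793336)) (a (l 16795968) (l 16799240)))) (c (b (b (l 16792992) (l 16794448)) (b (l 16794112) (b (l 16793864) (l 16793672)))) (b (b (a (l 16794624) (l 16792656)) (l 16793208)) (b (b (l 16792624) (l 16781744)) (b (l 16781344) (a (l 16792232) (l 16790616)))))))))), by decide +kernel⟩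

def k33_A00pm_123_s3 : ∃ t, chk3 f_A00pm_123_s3 t 126 28 1 = true :=
  ⟨(a (b (a (a (b (l 4) (b (l 4) (a (b (l 1077258767) (l 1077222927)) (l 1078306319)))) (l 4)) (l 4)) (a (a (b (b (a (l 1077169167) (l 1077160975)) (a (l 1077098511) (l 1077090831))) (b (a (l 1077026831) (l 1077019151)) (a (l 16779848) (l 1076963343)))) (a (b (b (l 1077153807) (l 1077083151)) (b (l 1077013007) (l 1076957199))) (b (b (l 1077147663) (l 1077077007)) (b (l 1077007375) (l 1076951567))))) (b (a (b (l 4) (a (l 1077071887) (l 1077067791))) (l 4)) (a (a (b (l 1077002767) (l 1076947471)) (b (l 1077536783) (l 1077480463))) (a (b (l 1078070287) (l 1077476879)) (b (l 1077530639) (l 1077473807))))))) (b (l 4) (a (b (l 4) (a (a (b (l 4) (l 1078545423)) (b (l 4) (b (l 4) (l 1076919823)))) (l 4))) (l 4)))), by decide +kernel⟩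

def k34_A00pm_123_s3 : ∃ t, chk3 f_A00pm_123_s3 t 126 29 1 = true :=
  ⟨(a (b (b (a (a (b (a (l 16780424) (l 16780088)) (a (l 16780968) (l 16780632))) (b (a (l 16779760) (l 1076897295)) (a (l 16780304) (l 16779968)))) (a (a (b (l 1077429263) (l 1077910543)) (b (l 1077424655) (b (l 16779184) (l 16779448)))) (a (b (l 1078494735) (b (l 1076841487) (l 1076813327))) (b (b (l 1076894735) (l 1076866575)) (b (l 1076838415) (l 1076809743)))))) (a (a (b (l 16781304) (b (a (b (l 16784360) (a (l 16782072) (l 16781840))) (l 16781456)) (a (l 16782312) (b (a (l 16781832) (l 16781576)) (l 16781936))))) (b (a (l 16780808) (l 16780480)) (b (l 16781000) (b (l 16781168) (l 14))))) (a (b (a (l 16780152) (b (l 16779712) (l 16779952))) (a (l 16780624) (l 14))) (b (a (b (l 16779384) (l 16779632)) (b (l 1076781071) (l 14))) (l 14))))) (a (a (a (b (l 16783528) (l 16785384)) (l 14)) (l 14)) (l 14))) (b (a (b (a (a (b (b (l 1076892687) (l 1076864015)) (b (l 1076835855) (l 1076807183)))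 (b (a (l 1076878351) (l 1077414415)) (b (l 1076834319) (l 1076805135)))) (b (a (a (l 1077414415) (l 1077951503)) (a (l 1077952015) (l 4))) (a (b (l 1076833807) (l 1076804623)) (b (l 1076834319) (l 14))))) (a (b (b (a (l 1076777999) (l 14)) (l 14)) (l 14)) (l 14))) (b (b (l 4) (b (b (l 4) (l 14)) (l 14))) (l 14))) (l 14))), by decide +kernel⟩

def k35_A00pm_123_s3 : ∃ t, chk3 f_A00pm_123_s3 t 126 15 1 = true :=
  ⟨(a (a (a (b (b (b (l 16786840) (l 16788448)) (c (l 16789144) (l 16790072))) (c (b (b (l 16789760) (l 16790576)) (b (l 16791488) (l 16792144))) (b (b (l 16791080) (l 16791616)) (b (l 16791112) (b (l 16780224) (l 16779936)))))) (l 14)) (l 14)) (l 14)), by decide +kernel⟩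

def k36_A00pm_123_s3 : ∃ t, chk3 f_A00pm_123_s3 t 127 7 1 = true :=
  ⟨(b (b (l 4) (b (b (l 4) (l 14)) (l 14))) (l 14)), by decide +kernel⟩

theorem t37_A00pm_123_s3 : ∃ t, chk3 f_A00pm_123_s3 t 126 14 1 = true := ex3_b k33_A00pm_123_s3 k34_A00pm_123_s3

theorem t38_A00pm_123_s3 : ∃ t, chk3 f_A00pm_123_s3 t 126 7 1 = true := ex3_b t37_A00pm_123_s3 k35_A00pm_123_s3

theorem t39_A00pm_123_s3 : ∃ t, chk3 f_A00pm_123_s3 t 63 7 1 = true := ex3_a t38_A00pm_123_s3 k36_A00pm_123_s3

theorem t40_A00pm_123_s3 : ∃ t, chk3 f_A00pm_123_s3 t 125 14 1 = true := ex3_b k30_A00pm_123_s3 k31_A00pm_123_s3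

theorem t41_A00pm_123_s3 : ∃ t, chk3 f_A00pm_123_s3 t 62 14 1 = true := ex3_a k29_A00pm_123_s3 t40_A00pm_123_s3

theorem t42_A00pm_123_s3 : ∃ t, chk3 f_A00pm_123_s3 t 62 7 1 = true := ex3_b t41_A00pm_123_s3 k32_A00pm_123_s3

theorem t43_A00pm_123_s3 : ∃ t, chk3 f_A00pm_123_s3 t 31 7 1 = true := ex3_a t42_A00pm_123_s3 t39_A00pm_123_s3

theorem t44_A00pm_123_s3 : ∃ t, chk3 f_A00pm_123_s3 t 62 27 1 = true := ex3_a k26_A00pm_123_s3 k27_A00pm_123_s3

theorem t45_A00pm_123_s3 : ∃ t, chk3 f_A00pm_123_s3 t 62 13 1 = true := ex3_b k25_A00pm_123_s3 t44_A00pm_123_s3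

theorem t46_A00pm_123_s3 : ∃ t, chk3 f_A00pm_123_s3 t 62 6 1 = true := ex3_b k24_A00pm_123_s3 t45_A00pm_123_s3

theorem t47_A00pm_123_s3 : ∃ t, chk3 f_A00pm_123_s3 t 31 6 1 = true := ex3_a t46_A00pm_123_s3 k28_A00pm_123_s3

theorem t48_A00pm_123_s3 : ∃ t, chk3 f_A00pm_123_s3 t 31 3 1 = true := ex3_b t47_A00pm_123_s3 t43_A00pm_123_s3

theorem t49_A00pm_123_s3 : ∃ t, chk3 f_A00pm_123_s3 t 30 7 1 = true := ex3_b k22_A00pm_123_s3 k23_A00pm_123_s3

theorem t50_A00pm_123_s3 : ∃ t, chk3 f_A00pm_123_s3 t 30 13 1 = true := ex3_a k20_A00pm_123_s3 k21_A00pm_123_s3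

theorem t51_A00pm_123_s3 : ∃ t, chk3 f_A00pm_123_s3 t 30 6 1 = true := ex3_b k19_A00pm_123_s3 t50_A00pm_123_s3

theorem t52_A00pm_123_s3 : ∃ t, chk3 f_A00pm_123_s3 t 30 3 1 = true := ex3_b t51_A00pm_123_s3 t49_A00pm_123_s3

theorem t53_A00pm_123_s3 : ∃ t, chk3 f_A00pm_123_s3 t 15 3 1 = true := ex3_a t52_A00pm_123_s3 t48_A00pm_123_s3

theorem t54_A00pm_123_s3 : ∃ t, chk3 f_A00pm_123_s3 t 14 7 1 = true := ex3_b k17_A00pm_123_s3 k18_A00pm_123_s3

theorem t55_A00pm_123_s3 : ∃ t, chk3 f_A00pm_123_s3 t 29 12 1 = true := ex3_a k14_A00pm_123_s3 k15_A00pm_123_s3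

theorem t56_A00pm_123_s3 : ∃ t, chk3 f_A00pm_123_s3 t 29 6 1 = true := ex3_b t55_A00pm_123_s3 k16_A00pm_123_s3

theorem t57_A00pm_123_s3 : ∃ t, chk3 f_A00pm_123_s3 t 28 13 1 = true := ex3_b k12_A00pm_123_s3 k13_A00pm_123_s3

theorem t58_A00pm_123_s3 : ∃ t, chk3 f_A00pm_123_s3 t 28 12 1 = true := ex3_b k10_A00pm_123_s3 k11_A00pm_123_s3

theorem t59_A00pm_123_s3 : ∃ t, chk3 f_A00pm_123_s3 t 28 6 1 = true := ex3_b t58_A00pm_123_s3 t57_A00pm_123_s3

theorem t60_A00pm_123_s3 : ∃ t, chk3 f_A00pm_123_s3 t 14 6 1 = true := ex3_a t59_A00pm_123_s3 t56_A00pm_123_s3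

theorem t61_A00pm_123_s3 : ∃ t, chk3 f_A00pm_123_s3 t 14 3 1 = true := ex3_b t60_A00pm_123_s3 t54_A00pm_123_s3

theorem t62_A00pm_123_s3 : ∃ t, chk3 f_A00pm_123_s3 t 7 3 1 = true := ex3_a t61_A00pm_123_s3 t53_A00pm_123_s3

theorem t63_A00pm_123_s3 : ∃ t, chk3 f_A00pm_123_s3 t 6 3 1 = true := ex3_b k8_A00pm_123_s3 k9_A00pm_123_s3

theorem t64_A00pm_123_s3 : ∃ t, chk3 f_A00pm_123_s3 t 3 3 1 = true := ex3_a t63_A00pm_123_s3 t62_A00pm_123_s3

theorem t65_A00pm_123_s3 : ∃ t, chk3 f_A00pm_123_s3 t 14 5 1 = true := ex3_a k5_A00pm_123_s3 k6_A00pm_123_s3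

theorem t66_A00pm_123_s3 : ∃ t, chk3 f_A00pm_123_s3 t 14 2 1 = true := ex3_b k4_A00pm_123_s3 t65_A00pm_123_s3

theorem t67_A00pm_123_s3 : ∃ t, chk3 f_A00pm_123_s3 t 7 2 1 = true := ex3_a t66_A00pm_123_s3 k7_A00pm_123_s3

theorem t68_A00pm_123_s3 : ∃ t, chk3 f_A00pm_123_s3 t 13 2 1 = true := ex3_b k2_A00pm_123_s3 k3_A00pm_123_s3

theorem t69_A00pm_123_s3 : ∃ t, chk3 f_A00pm_123_s3 t 6 2 1 = true := ex3_a k1_A00pm_123_s3 t68_A00pm_123_s3

theorem t70_A00pm_123_s3 : ∃ t, chk3 f_A00pm_123_s3 t 3 2 1 = true := ex3_a t69_A00pm_123_s3 t67_A00pm_123_s3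

theorem t71_A00pm_123_s3 : ∃ t, chk3 f_A00pm_123_s3 t 3 1 1 = true := ex3_b t70_A00pm_123_s3 t64_A00pm_123_s3

theorem t72_A00pm_123_s3 : ∃ t, chk3 f_A00pm_123_s3 t 1 1 1 = true := ex3_a k0_A00pm_123_s3 t71_A00pm_123_s3

theorem c_A00pm_123_s3 : CertF 536870912 536870912 0 536870912 649613803 48318383 true true false .npn 1 2 3
    ndB0q1 ndB0q2 pcB3 cut_A00pm_123_s3 xt_A00pm_123_s3 :=
  certF2 (fam := true) (s1 := true) (s2 := false) (a := 1) (b := 2) (c := 3) (cn := .npn) (n1 := ndB0q1) (n2 := ndB0q2) (pc := pcB3) (cut := cut_A00pm_123_s3) (xt := xt_A00pm_123_s3) (P1 := 536870912) (W1 := 536870912) (P2 := 0) (W2 := 536870912) (P3 := 649613803) (W3 := 48318383)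
    rfl (fun _ => rfl) t72_A00pm_123_s3

theorem s_A00pm_123_s3 {κ x : ℝ} (hκ : κ * h0 = ken x) (hx : ((649613803 : ℕ) : ℝ) / S ≤ x)
    (hx' : x ≤ (((649613803 : ℕ) : ℝ) + (48318383 : ℕ)) / S)
    (H : CutA (VFD κ) PP tK tL pcB (Cut.of [[⟨0, 1, 0, 67108864⟩, ⟨1, 1, 0, 67108864⟩, ⟨2, 2, 0, 16777216⟩], [⟨0, 0, 1, 20971520⟩, ⟨1, 1, 0, 33554432⟩, ⟨2, 1, 1, 20971520⟩]]) 1 2 3 0 0 (sgb true) (sgb false) x) :
    AltA (VFD κ) PP tK tL pcB [⟨4, 0, 0, 2845415833⟩] 1 2 3 0 0 (sgb true) (sgb false) x :=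
  strip_altAD (m := 2845415833) false rfl hκ (SH.κ0 hκ (SH.hx1 hx).le (SH.hx2 hx').le) (SH.hx1 hx).le (SH.hx2 hx') (covB01).cov (covB02).cov hx hx' c_A00pm_123_s3 H ((okx6 hx hx').extA (T := tt) (okx hx hx') (sideB hx hx') hκ rfl rfl (.O 1 true) (.O 2 false) (Or.inr rfl))

noncomputable def cut_A00pm_202_s1 : Cut := Cut.of [[⟨4, 0, 0, 1449551462⟩], [⟨0, 1, 0, 67108864⟩, ⟨1, 0, 0, 67108864⟩, ⟨2, 1, 0, 67108864⟩]]

noncomputable def f_A00pm_202_s1 : ℕ → ℕ → ℕ → ℕ → Bool := onCell 0 536870912 1073741824 536870912 649613803 48318383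
    (rowF 1 true true false .pp 2 0 2 (qsf 0 536870912 0 536870912 2) ndB0q2 ndB0q0 pcB2 cut_A00pm_202_s1 Ext.none)

def k0_A00pm_202_s1 : ∃ t, chk3 f_A00pm_202_s1 t 2 4 1 = true :=
  ⟨(b (l 1) (l 6)), by decide +kernel⟩

def k1_A00pm_202_s1 : ∃ t, chk3 f_A00pm_202_s1 t 3 4 1 = true :=
  ⟨(b (a (l 1) (b (a (l 1) (l 14)) (b (a (a (l 1) (l 14)) (l 14)) (b (a (a (l 1) (l 14)) (l 14)) (a (a (a (l 1) (l 16638880)) (a (l 16653376) (l 16667424))) (a (a (l 16681040) (l 16694176)) (a (l 16710424) (a (l 16703440) (a (l 16704952) (l 16716344)))))))))) (a (a (b (l 1) (l 6)) (b (a (b (l 1) (c (b (l 16576656) (l 16576904)) (a (l 16559080) (l 16573640)))) (b (b (l 1) (c (l 16604320) (l 16616320))) (a (b (l 16592592) (l 16508136)) (c (l 16608648) (l 16601488))))) (b (a (a (a (l 6) (l 16485728)) (a (l 16491808) (l 16497808))) (a (l 16590576) (l 16602032))) (a (l 6) (l 16591128))))) (a (b (c (a (b (a (l 16625224) (l 16638328)) (l 16626592)) (b (a (l 16650992) (l 16663264))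 (l 16668360))) (a (a (b (l 16617784) (l 16614648)) (b (l 16632104) (l 16627328))) (b (a (l 16645960) (l 16659416)) (l 16645720)))) (b (a (l 16660504) (a (l 16629480) (l 16635792))) (a (l 16625624) (a (l 16614280) (l 16620272))))) (a (b (a (b (l 16705432) (l 16700144)) (b (c (l 16680544) (l 16682144)) (c (l 16663584) (l 16664296)))) (b (c (a (l 16683344) (l 16647200)) (a (l 16642176) (l 16688856))) (a (a (l 16624400) (l 16627000)) (l 16651640)))) (b (a (b (a (l 16685232) (b (l 16692144) (l 16683160))) (b (l 16673128) (l 16664392))) (a (b (a (l 16710296) (l 16700832)) (a (l 16671408) (l 16693312))) (b (b (a (l 16695816) (l 16696672)) (l 16697608)) (b (a (l 16677632) (l 16678416)) (l 16679600))))) (a (b (a (l 16650432) (l 16652552)) (a (l 16633960) (l 16656864))) (b (a (c (l 16655648) (l 16653344)) (b (l 16670744) (l 16662048))) (a (c (l 16639264) (l 16636016)) (b (l 16643032) (l 16634664)))))))))), by decide +kernel⟩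

def k2_A00pm_202_s1 : ∃ t, chk3 f_A00pm_202_s1 t 2 5 1 = true :=
  ⟨(l 6), by decide +kernel⟩

def k3_A00pm_202_s1 : ∃ t, chk3 f_A00pm_202_s1 t 6 5 1 = true :=
  ⟨(a (l 6) (a (l 6) (b (b (b (l 16578040) (l 6)) (l 6)) (l 6)))), by decide +kernel⟩

def k4_A00pm_202_s1 : ∃ t, chk3 f_A00pm_202_s1 t 7 20 1 = true :=
  ⟨(a (a (b (a (l 16587648) (l 16593984)) (b (l 16602328) (b (l 16577008) (b (l 16575160) (a (l 6) (l 16577184)))))) (b (c (l 16645304) (l 16603080)) (b (l 16634840) (b (l 16588328) (b (l 16586440) (a (l 16582880) (l 16630080))))))) (b (b (a (c (l 16617848) (l 16616112)) (a (l 16623000) (c (l 16628184) (l 16644896)))) (a (a (l 16607128) (l 16611584)) (a (l 16615384) (c (l 16620544) (l 16615848))))) (a (a (b (l 16600296) (b (l 16595552) (b (l 16593616) (c (l 16636304) (l 16633544))))) (b (l 16604560) (b (l 16599680) (b (l 16597704) (b (b (b (l 16597200) (l 16639504)) (l 16597272)) (l 16596568)))))) (b (a (c (l 16610280) (l 16606184)) (a (a (l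 16609856) (l 16610400)) (b (l 16612824) (l 16609176)))) (c (a (b (l 16605352) (b (l 16603304) (b (b (b (l 16602744) (a (l 16602208) (l 16624808))) (l 16602784)) (l 16602072)))) (a (b (l 16607520) (b (l 16605408) (b (b (b (l 16604832) (b (l 16604880) (l 16605120))) (l 16604880)) (l 16604144)))) (c (b (l 16609960) (b (l 16607760) (b (b (b (l 16607128) (b (l 16607160) (a (l 16607136) (a (l 16607472) (l 16618152))))) (l 16607128)) (l 16606384)))) (b (l 16607168) (b (l 16605040) (b (b (b (l 16604488) (b (l 16604560) (a (l 16604640) (c (l 16605640) (l 16614816))))) (l 16604576)) (l 16603816))))))) (b (a (l 16601016) (a (l 16602504) (l 16603040))) (b (a (l 16598976) (a (l 16600432) (b (l 16601096) (l 16600600)))) (b (b (b (a (l 16598496) (l 16600264)) (b (a (l 16598600) (l 16600376)) (a (l 16598880) (a (l 16600360) (b (b (l 16600728) (l 16600912)) (l 16600880)))))) (a (l 16598600) (l 16600392))) (a (l 16597848) (l 16599608)))))))))), by decide +kernel⟩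

def k5_A00pm_202_s1 : ∃ t, chk3 f_A00pm_202_s1 t 7 21 1 = true :=
  ⟨(a (a (b (l 6) (l 6)) (b (a (l 16575632) (l 16580584)) (l 16568144))) (a (b (a (l 16584968) (b (l 16592384) (l 16585096))) (a (l 16573440) (l 16576200))) (b (b (a (l 16595568) (a (l 16597216) (l 16597872))) (a (l 16587912) (a (l 16589272) (b (l 16591728) (l 16587728))))) (a (l 16578144) (a (l 16578832) (l 16599800)))))), by decide +kernel⟩

def k6_A00pm_202_s1 : ∃ t, chk3 f_A00pm_202_s1 t 7 11 1 = true :=
  ⟨(a (l 6) (a (b (a (l 16557616) (l 16600600)) (l 6)) (a (b (a (l 16558896) (l 16558712)) (l 6)) (b (a (l 16600128) (b (l 16564464) (l 16550056))) (b (l 16578712) (l 6)))))), by decide +kernel⟩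

def k7_A00pm_202_s1 : ∃ t, chk3 f_A00pm_202_s1 t 1 3 1 = true :=
  ⟨(a (l 6) (l 6)), by decide +kernel⟩

theorem t8_A00pm_202_s1 : ∃ t, chk3 f_A00pm_202_s1 t 7 10 1 = true := ex3_b k4_A00pm_202_s1 k5_A00pm_202_s1

theorem t9_A00pm_202_s1 : ∃ t, chk3 f_A00pm_202_s1 t 7 5 1 = true := ex3_b t8_A00pm_202_s1 k6_A00pm_202_s1

theorem t10_A00pm_202_s1 : ∃ t, chk3 f_A00pm_202_s1 t 3 5 1 = true := ex3_a k3_A00pm_202_s1 t9_A00pm_202_s1

theorem t11_A00pm_202_s1 : ∃ t, chk3 f_A00pm_202_s1 t 1 5 1 = true := ex3_a k2_A00pm_202_s1 t10_A00pm_202_s1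

theorem t12_A00pm_202_s1 : ∃ t, chk3 f_A00pm_202_s1 t 1 4 1 = true := ex3_a k0_A00pm_202_s1 k1_A00pm_202_s1

theorem t13_A00pm_202_s1 : ∃ t, chk3 f_A00pm_202_s1 t 1 2 1 = true := ex3_b t12_A00pm_202_s1 t11_A00pm_202_s1

theorem t14_A00pm_202_s1 : ∃ t, chk3 f_A00pm_202_s1 t 1 1 1 = true := ex3_b t13_A00pm_202_s1 k7_A00pm_202_s1

theorem c_A00pm_202_s1 : CertF 0 536870912 0 536870912 649613803 48318383 true true false .pp 2 0 2
    ndB0q2 ndB0q0 pcB2 cut_A00pm_202_s1 Ext.none :=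
  certF1 (fam := true) (s1 := true) (s2 := false) (a := 2) (b := 0) (c := 2) (cn := .pp) (n1 := ndB0q2) (n2 := ndB0q0) (pc := pcB2) (cut := cut_A00pm_202_s1) (xt := Ext.none) (P1 := 0) (W1 := 536870912) (P2 := 0) (W2 := 536870912) (P3 := 649613803) (W3 := 48318383)
    rfl (fun _ => rfl) t14_A00pm_202_s1

theorem s_A00pm_202_s1 {κ x : ℝ} (hκ : κ * h0 = ken x) (hx : ((649613803 : ℕ) : ℝ) / S ≤ x)
    (hx' : x ≤ (((649613803 : ℕ) : ℝ) + (48318383 : ℕ)) / S)
    (H : CutA (VFD κ) PP tK tL pcB (Cut.of [[⟨0, 1, 0, 67108864⟩, ⟨1, 0, 0, 67108864⟩, ⟨2, 1, 0, 67108864⟩]]) 2 0 2 0 0 (sgb true) (sgb false) x) :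
    AltA (VFD κ) PP tK tL pcB [⟨3, 0, 0, 1449551462⟩] 2 0 2 0 0 (sgb true) (sgb false) x :=
  strip_altAD (m := 1449551462) true rfl hκ (SH.κ0 hκ (SH.hx1 hx).le (SH.hx2 hx').le) (SH.hx1 hx).le (SH.hx2 hx') (covB02).cov (covB00).cov hx hx' c_A00pm_202_s1 H (noExt_A)

noncomputable def cut_A00pm_202_s3 : Cut := Cut.of [[⟨3, 0, 0, 2845415833⟩], [⟨0, 1, 0, 67108864⟩, ⟨1, 0, 0, 67108864⟩, ⟨2, 1, 0, 67108864⟩]]

noncomputable def f_A00pm_202_s3 : ℕ → ℕ → ℕ → ℕ → Bool := onCell 0 536870912 1073741824 536870912 649613803 48318383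
    (rowF 1 true true false .pp 2 0 2 (qsf 0 536870912 0 536870912 2) ndB0q2 ndB0q0 pcB2 cut_A00pm_202_s3 Ext.none)

def k0_A00pm_202_s3 : ∃ t, chk3 f_A00pm_202_s3 t 1 1 1 = true :=
  ⟨(b (l 6) (a (l 6) (l 6))), by decide +kernel⟩

theorem c_A00pm_202_s3 : CertF 0 536870912 0 536870912 649613803 48318383 true true false .pp 2 0 2
    ndB0q2 ndB0q0 pcB2 cut_A00pm_202_s3 Ext.none :=
  certF1 (fam := true) (s1 := true) (s2 := false) (a := 2) (b := 0) (c := 2) (cn := .pp) (n1 := ndB0q2) (n2 := ndB0q0) (pc := pcB2) (cut := cut_A00pm_202_s3) (xt := Ext.none) (P1 := 0) (W1 := 536870912) (P2 := 0) (W2 := 536870912) (P3 := 649613803) (W3 := 48318383)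
    rfl (fun _ => rfl) k0_A00pm_202_s3

theorem s_A00pm_202_s3 {κ x : ℝ} (hκ : κ * h0 = ken x) (hx : ((649613803 : ℕ) : ℝ) / S ≤ x)
    (hx' : x ≤ (((649613803 : ℕ) : ℝ) + (48318383 : ℕ)) / S)
    (H : CutA (VFD κ) PP tK tL pcB (Cut.of [[⟨0, 1, 0, 67108864⟩, ⟨1, 0, 0, 67108864⟩, ⟨2, 1, 0, 67108864⟩]]) 2 0 2 0 0 (sgb true) (sgb false) x) :
    AltA (VFD κ) PP tK tL pcB [⟨4, 0, 0, 2845415833⟩] 2 0 2 0 0 (sgb true) (sgb false) x :=
  strip_altAD (m := 2845415833) false rfl hκ (SH.κ0 hκ (SH.hx1 hx).le (SH.hx2 hx').le) (SH.hx1 hx).le (SH.hx2 hx') (covB02).cov (covB00).cov hx hx' c_A00pm_202_s3 H (noExt_A)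

noncomputable def cut_A00pm_203_s1 : Cut := Cut.of [[⟨4, 0, 0, 1449551462⟩]]

noncomputable def f_A00pm_203_s1 : ℕ → ℕ → ℕ → ℕ → Bool := onCell 0 536870912 1610612736 536870912 649613803 48318383
    (rowF 1 true true false .up 2 0 3 (qsf 0 536870912 0 536870912 3) ndB0q2 ndB0q0 pcB3 cut_A00pm_203_s1 Ext.none)

def k0_A00pm_203_s1 : ∃ t, chk3 f_A00pm_203_s1 t 1 1 1 = true :=
  ⟨(l 6), by decide +kernel⟩

theorem c_A00pm_203_s1 : CertF 0 536870912 0 536870912 649613803 48318383 true true false .up 2 0 3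
    ndB0q2 ndB0q0 pcB3 cut_A00pm_203_s1 Ext.none :=
  certF1 (fam := true) (s1 := true) (s2 := false) (a := 2) (b := 0) (c := 3) (cn := .up) (n1 := ndB0q2) (n2 := ndB0q0) (pc := pcB3) (cut := cut_A00pm_203_s1) (xt := Ext.none) (P1 := 0) (W1 := 536870912) (P2 := 0) (W2 := 536870912) (P3 := 649613803) (W3 := 48318383)
    rfl (fun _ => rfl) k0_A00pm_203_s1

theorem s_A00pm_203_s1 {κ x : ℝ} (hκ : κ * h0 = ken x) (hx : ((649613803 : ℕ) : ℝ) / S ≤ x)
    (hx' : x ≤ (((649613803 : ℕ) : ℝ) + (48318383 : ℕ)) / S) :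
    AltA (VFD κ) PP tK tL pcB [⟨3, 0, 0, 1449551462⟩] 2 0 3 0 0 (sgb true) (sgb false) x :=
  strip_altAD (m := 1449551462) true rfl hκ (SH.κ0 hκ (SH.hx1 hx).le (SH.hx2 hx').le) (SH.hx1 hx).le (SH.hx2 hx') (covB02).cov (covB00).cov hx hx' c_A00pm_203_s1 cutA_nil (noExt_A)

noncomputable def cut_A00pm_203_s3 : Cut := Cut.of [[⟨3, 0, 0, 2845415833⟩]]

noncomputable def f_A00pm_203_s3 : ℕ → ℕ → ℕ → ℕ → Bool := onCell 0 536870912 0 536870912 649613803 48318383
    (rowF 0 true true false .up 2 0 3 (qsf 0 536870912 0 536870912 3) ndB0q2 ndB0q0 pcB3 cut_A00pm_203_s3 Ext.none)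

def k0_A00pm_203_s3 : ∃ t, chk3 f_A00pm_203_s3 t 1 1 1 = true :=
  ⟨(a (b (l 1) (b (a (a (b (l 1) (b (l 1) (b (l 6) (l 16639848)))) (l 6)) (l 6)) (a (b (a (b (a (l 16672824) (l 6)) (a (l 16673888) (l 16658872))) (l 6)) (a (b (a (l 16695664) (l 16679688)) (a (b (l 16713200) (l 16724424)) (l 16746512))) (b (a (l 16666280) (l 6)) (a (a (l 16777912) (l 16688088)) (l 16678976))))) (a (l 6) (l 6))))) (l 6)), by decide +kernel⟩

theorem c_A00pm_203_s3 : CertF 0 536870912 0 536870912 649613803 48318383 true true false .up 2 0 3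
    ndB0q2 ndB0q0 pcB3 cut_A00pm_203_s3 Ext.none :=
  certF0 (fam := true) (s1 := true) (s2 := false) (a := 2) (b := 0) (c := 3) (cn := .up) (n1 := ndB0q2) (n2 := ndB0q0) (pc := pcB3) (cut := cut_A00pm_203_s3) (xt := Ext.none) (P1 := 0) (W1 := 536870912) (P2 := 0) (W2 := 536870912) (P3 := 649613803) (W3 := 48318383)
    rfl k0_A00pm_203_s3

theorem s_A00pm_203_s3 {κ x : ℝ} (hκ : κ * h0 = ken x) (hx : ((649613803 : ℕ) : ℝ) / S ≤ x)
    (hx' : x ≤ (((649613803 : ℕ) : ℝ) + (48318383 : ℕ)) / S) :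
    AltA (VFD κ) PP tK tL pcB [⟨4, 0, 0, 2845415833⟩] 2 0 3 0 0 (sgb true) (sgb false) x :=
  strip_altAD (m := 2845415833) false rfl hκ (SH.κ0 hκ (SH.hx1 hx).le (SH.hx2 hx').le) (SH.hx1 hx).le (SH.hx2 hx') (covB02).cov (covB00).cov hx hx' c_A00pm_203_s3 cutA_nil (noExt_A)

noncomputable def cut_A00pm_213_s1 : Cut := Cut.of [[⟨4, 0, 0, 1449551462⟩], [⟨0, 1, 0, 67108864⟩, ⟨1, 1, 0, 67108864⟩, ⟨2, 2, 0, 16777216⟩], [⟨0, 1, 0, 33554432⟩, ⟨1, 0, 1, 20971520⟩, ⟨2, 1, 1, 20971520⟩]]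

noncomputable def f_A00pm_213_s1 : ℕ → ℕ → ℕ → ℕ → Bool := onCell 0 536870912 536870912 536870912 649613803 48318383
    (rowF 0 true true false .pnn 2 1 3 (qsf 0 536870912 536870912 536870912 3) ndB0q2 ndB0q1 pcB3 cut_A00pm_213_s1 Ext.none)

def k0_A00pm_213_s1 : ∃ t, chk3 f_A00pm_213_s1 t 1 1 1 = true :=
  ⟨(l 6), by decide +kernel⟩

theorem c_A00pm_213_s1 : CertF 0 536870912 536870912 536870912 649613803 48318383 true true false .pnn 2 1 3
    ndB0q2 ndB0q1 pcB3 cut_A00pm_213_s1 Ext.none :=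
  certF0 (fam := true) (s1 := true) (s2 := false) (a := 2) (b := 1) (c := 3) (cn := .pnn) (n1 := ndB0q2) (n2 := ndB0q1) (pc := pcB3) (cut := cut_A00pm_213_s1) (xt := Ext.none) (P1 := 0) (W1 := 536870912) (P2 := 536870912) (W2 := 536870912) (P3 := 649613803) (W3 := 48318383)
    rfl k0_A00pm_213_s1

theorem s_A00pm_213_s1 {κ x : ℝ} (hκ : κ * h0 = ken x) (hx : ((649613803 : ℕ) : ℝ) / S ≤ x)
    (hx' : x ≤ (((649613803 : ℕ) : ℝ) + (48318383 : ℕ)) / S)
    (H : CutA (VFD κ) PP tK tL pcB (Cut.of [[⟨0, 1, 0, 67108864⟩, ⟨1, 1, 0, 67108864⟩, ⟨2, 2, 0, 16777216⟩], [⟨0, 1, 0, 33554432⟩, ⟨1, 0, 1, 20971520⟩, ⟨2, 1, 1, 20971520⟩]]) 2 1 3 0 0 (sgb true) (sgb false) x) :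
    AltA (VFD κ) PP tK tL pcB [⟨3, 0, 0, 1449551462⟩] 2 1 3 0 0 (sgb true) (sgb false) x :=
  strip_altAD (m := 1449551462) true rfl hκ (SH.κ0 hκ (SH.hx1 hx).le (SH.hx2 hx').le) (SH.hx1 hx).le (SH.hx2 hx') (covB02).cov (covB01).cov hx hx' c_A00pm_213_s1 H (noExt_A)

noncomputable def cut_A00pm_213_s3 : Cut := Cut.of [[⟨3, 0, 0, 2845415833⟩], [⟨0, 1, 0, 67108864⟩, ⟨1, 1, 0, 67108864⟩, ⟨2, 2, 0, 16777216⟩], [⟨0, 1, 0, 33554432⟩, ⟨1, 0, 1, 20971520⟩, ⟨2, 1, 1, 20971520⟩]]

noncomputable def xt_A00pm_213_s3 : Ext := strExt6 dd true true false .u2 .u0m .s2m .pnn 2 1 3 rfl rfl gl3 vv ww ndB0q2 ndB0q1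

noncomputable def f_A00pm_213_s3 : ℕ → ℕ → ℕ → ℕ → Bool := onCell 0 536870912 1610612736 536870912 649613803 48318383
    (rowF 1 true true false .pnn 2 1 3 (qsf 0 536870912 536870912 536870912 3) ndB0q2 ndB0q1 pcB3 cut_A00pm_213_s3 xt_A00pm_213_s3)

def k0_A00pm_213_s3 : ∃ t, chk3 f_A00pm_213_s3 t 2 2 1 = true :=
  ⟨(b (a (l 1) (l 6)) (b (a (a (b (b (l 1) (l 16750816)) (a (b (l 16738136) (l 16749888)) (b (l 16726448) (l 16739856)))) (b (a (a (l 16781408) (l 16692984)) (l 16686568)) (a (b (l 16716992) (l 16732016)) (a (l 16719440) (l 16716232))))) (a (b (a (l 16679744) (l 6)) (a (l 16713400) (l 16709768))) (l 6))) (a (a (b (a (b (l 1071382543) (l 1071740431)) (b (l 16750952) (l 16759472))) (a (b (l 1072033295) (l 1072259599)) (b (l 1072211983) (a (l 1072389135) (l 1072477199))))) (a (b (b (l 16744664) (l 16754384)) (b (l 16761632) (c (l 16767384) (l 16766448)))) (b (b (l 16740720) (l 16751816)) (b (l 16759880) (l 16765624))))) (a (b (a (b (l 16737984)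 (l 16750632)) (l 16742952)) (a (b (l 16760144) (l 16766912)) (b (l 16760120) (l 16768008)))) (b (a (b (l 6) (l 16747232)) (l 6)) (a (b (l 16758720) (l 16767448)) (a (l 16761752) (l 16759696)))))))), by decide +kernel⟩

def k1_A00pm_213_s3 : ∃ t, chk3 f_A00pm_213_s3 t 2 12 1 = true :=
  ⟨(a (a (b (a (b (l 1072420879) (l 4)) (b (a (l 1072545807) (l 1072634895)) (a (l 1072702991) (b (l 1072718863) (l 1072853519))))) (a (l 4) (b (a (l 4) (b (l 1072997903) (l 1073140751))) (l 4)))) (a (a (b (b (l 1072741391) (b (l 1072836111) (l 1072988687))) (b (l 1072673807) (b (l 1073375759) (l 1073455119)))) (b (b (l 1072864271) (l 1073047567)) (b (l 1073341455) (b (l 1073504271) (l 1073581583))))) (b (a (b (l 16769520) (b (l 16771744) (l 16773664))) (b (l 16769576) (b (l 16771816) (l 16773888)))) (b (a (a (l 1073438223) (l 1073502735)) (a (l 1073568271) (l 1073634319))) (a (a (b (l 1073598991) (a (l 1073658895) (l 1073689615))) (b (l 1073662479) (b (l 1073720335) (l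 1073751567)))) (b (a (l 1073727503) (l 16777528)) (a (l 1073264655) (l 1073329679)))))))) (a (b (a (b (a (l 16770232) (l 16771512)) (b (l 16773152) (l 16770232))) (b (l 16772984) (a (l 16776376) (l 16777016)))) (a (b (a (b (l 16776488) (l 16777688)) (b (l 16777936) (l 16779200))) (a (b (l 16778376) (b (l 16778624) (l 16773440))) (b (l 16779904) (l 16780160)))) (b (a (l 16780176) (l 16781408)) (a (b (l 16781464) (l 16781664)) (l 16782608))))) (b (a (b (l 16773528) (l 16777672)) (b (l 16771584) (l 16775968))) (a (b (l 16760464) (a (l 16783160) (l 16782656))) (b (a (l 16780496) (l 16778840)) (c (l 16738656) (l 16781784))))))), by decide +kernel⟩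

def k2_A00pm_213_s3 : ∃ t, chk3 f_A00pm_213_s3 t 4 13 1 = true :=
  ⟨(a (l 4) (b (a (b (b (a (l 4) (b (l 1073623055) (l 1073643023))) (l 4)) (l 4)) (b (a (b (a (a (b (l 1073698831) (c (l 1073738255) (l 1073705487))) (b (l 1073729039) (c (l 1074302991) (b (l 1073733647) (l 1073204239))))) (b (l 1073239055) (b (l 1073253903) (a (l 1073782799) (l 1073814543))))) (a (a (a (l 4) (b (b (c (l 1073756687) (l 1073722383)) (l 4)) (l 4))) (a (b (b (l 1073750543) (l 1073218063)) (l 4)) (b (b (b (l 1073763855) (l 1073766415)) (l 1073233423)) (l 1074043407)))) (b (b (c (l 1073818639) (l 1073259023)) (l 1073273871)) (l 1073345551)))) (b (a (b (l 1073840655) (l 1073859599)) (b (l 16772640) (l 1073924111))) (a (b (l 1073336335) (l 1073341967)) (c (l 1073937935) (l 1073415183))))) (b (a (a (l 4) (a (l 4) (b (a (l 1073822223) (l 1073838095)) (l 4)))) (a (c (c (l 1073894415) (l 1073878543)) (b (l 1073339919) (c (l 1073865743) (l 1073865743)))) (c (l 1073937935) (c (l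 1073936399) (l 1073411087))))) (b (b (a (l 4) (a (c (l 1073874447) (a (l 4) (l 1073867279))) (c (l 1073926159) (l 1073918479)))) (a (l 4) (a (l 4) (l 1073907727)))) (a (l 4) (a (l 4) (l 1073889807))))))) (a (l 4) (l 4)))), by decide +kernel⟩

def k3_A00pm_213_s3 : ∃ t, chk3 f_A00pm_213_s3 t 5 26 1 = true :=
  ⟨(a (a (b (a (b (a (l 1073442831) (l 1074042895)) (c (l 1073482255) (l 1073521679))) (b (a (l 16779632) (l 16780416)) (a (l 1074122255) (l 16779992)))) (a (a (b (c (l 1073990159) (l 1073472527)) (b (l 1073970191) (l 1073946127))) (b (l 1073516047) (l 1073746447))) (a (b (l 1074109967) (l 1074069519)) (a (b (l 1074151439) (l 1074108431)) (b (l 16774280) (l 1074125839)))))) (b (a (b (l 16781448) (l 16770416)) (b (l 16782256) (l 16781528))) (a (b (a (l 16779904) (l 16780264)) (a (c (l 16779016) (l 16773976)) (l 16774080))) (b (l 16780528) (a (l 16779400) (l 16779320)))))) (a (b (a (l 16782048) (l 16781616)) (a (a (l 16769264) (l 16779432)) (l 16778736)))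 (b (a (l 16780496) (l 16778736)) (a (l 16776680) (l 16775096))))), by decide +kernel⟩

def k4_A00pm_213_s3 : ∃ t, chk3 f_A00pm_213_s3 t 5 27 1 = true :=
  ⟨(a (a (b (a (a (b (a (l 1073347599) (l 1073911311)) (l 4)) (b (a (l 1073937935) (l 1073964047)) (b (l 1073886735) (l 1073836559)))) (a (b (l 1073734159) (c (l 1073933839) (l 1073898511))) (b (a (c (l 1074040335) (l 1074050063)) (c (l 1074051087) (l 1074063375))) (a (a (l 1073403407) (b (l 1073975311) (l 1073920527))) (b (l 1073975823) (c (l 1073937935) (l 1073361423))))))) (a (l 4) (b (b (b (a (l 1073842191) (a (a (l 1073869839) (a (l 1073874447) (l 1073871375))) (a (l 1073861647) (l 1073844239)))) (a (l 4) (a (a (b (l 1073847311) (a (l 4) (l 1073834511))) (b (l 1073315343) (l 1073821711))) (c (l 1073849871) (l 1073771023))))) (a (l 4) (a (a (l 4) (l 1073784847)) (l 1073756687)))) (l 4)))) (b (a (b (a (b (l 16773240) (c (l 16778128) (l 16778120))) (b (l 16778616) (l 16778160))) (a (a (b (l 1073423887)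 (a (l 1073894415) (l 1073879055))) (b (l 1073936911) (l 1073852943))) (b (l 16772504) (l 1073794575)))) (b (a (l 16773072) (l 16778096)) (a (b (l 16777568) (l 16777120)) (c (l 16777288) (l 16776656))))) (b (a (b (a (b (l 1073792527) (l 1073745935)) (l 1073691151)) (l 1073664015)) (a (c (l 1073672719) (l 1073510415)) (l 1073518607))) (a (c (l 1073682447) (l 1073513999)) (a (l 1073490959) (l 1073423887)))))) (a (b (a (b (l 16766904) (a (l 16776464) (l 16775864))) (b (l 16776056) (l 16774648))) (a (b (a (l 16770616) (l 16775240)) (a (l 1073358863) (l 16775328))) (b (l 16774088) (l 16774200)))) (b (a (l 16752496) (l 16749888)) (a (b (l 16772000) (l 16772144)) (b (l 16769624) (l 16769584)))))), by decide +kernel⟩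

def k5_A00pm_213_s3 : ∃ t, chk3 f_A00pm_213_s3 t 4 14 1 = true :=
  ⟨(l 4), by decide +kernel⟩

def k6_A00pm_213_s3 : ∃ t, chk3 f_A00pm_213_s3 t 10 14 1 = true :=
  ⟨(b (a (l 4) (b (b (a (l 1073543183) (a (l 1073441295) (l 1073375759))) (a (l 4) (a (l 1073478159) (l 1073414159)))) (l 4))) (l 4)), by decide +kernel⟩

def k7_A00pm_213_s3 : ∃ t, chk3 f_A00pm_213_s3 t 11 28 1 = true :=
  ⟨(a (b (b (a (a (l 1073312271) (l 1073250319)) (b (l 16774544) (l 16774904))) (a (a (b (l 1073334287) (l 1073371151)) (b (l 1073273871) (l 1073309199))) (b (l 1073164815) (l 1073212943)))) (b (a (a (b (l 1073418767) (l 4)) (b (l 1073359375) (l 1074491407))) (b (l 1075411471) (l 1073245199))) (a (a (l 4) (b (l 1076178447) (l 4))) (b (l 1073360911) (l 1073456143))))) (b (a (b (l 16772768) (a (l 16779568) (l 16773344))) (b (a (l 16770944) (l 16769608)) (l 16771656))) (b (a (b (l 1073056783) (l 1073113103)) (a (l 16773760) (l 16772760))) (a (b (a (l 1073233423) (l 1073154063))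 (a (l 1073330191) (l 1073252879))) (a (l 1073129999) (l 1073062415)))))), by decide +kernel⟩

def k8_A00pm_213_s3 : ∃ t, chk3 f_A00pm_213_s3 t 11 29 1 = true :=
  ⟨(b (a (a (l 4) (b (b (b (l 1073538575) (b (l 1073584143) (l 4))) (l 4)) (l 4))) (b (b (a (a (b (l 1073951247) (a (l 1073496079) (l 1073456655))) (c (l 1073568271) (l 1073168911))) (a (l 1073297935) (l 1073232911))) (a (a (a (a (l 4) (l 1073588239)) (l 1073559055)) (l 1073503247)) (a (l 1073434127) (c (l 1073582095) (l 1073157647))))) (c (a (a (l 4) (a (b (l 1074399759) (l 4)) (b (l 1073831951) (b (l 1073954319) (l 4))))) (c (a (b (l 1073886735) (c (a (l 1074112527) (b (l 1074044431) (l 1074130447))) (a (l 1074016783) (l 1073990159)))) (b (c (l 1073888271) (l 1073784847)) (c (a (l 1074063887) (l 1074041871)) (l 1073952271)))) (a (b (l 1073688079) (a (l 1073873423) (l 1073843727))) (b (l 1073629711) (l 1073801743))))) (b (a (a (l 4) (l 1073464847)) (a (l 1073388559) (l 1073318415))) (a (a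 (l 4) (l 1073642511)) (a (c (l 1073664527) (l 1073469967)) (l 1073499151))))))) (a (l 4) (a (l 4) (b (b (c (b (c (a (a (l 4) (a (l 4) (l 1074167311))) (a (l 1074149391) (l 1074126863))) (a (l 1074534927) (l 1073942031))) (a (l 4) (c (a (l 1074246159) (a (l 1074229263) (l 1074218511))) (l 1074042383)))) (a (c (l 1073860623) (l 1073672719)) (l 1073699855))) (a (l 4) (b (a (l 4) (c (c (b (l 1074298895) (a (l 4) (b (l 1074332175) (l 4)))) (l 1074134543)) (l 1073847823))) (l 4)))) (l 4))))), by decide +kernel⟩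

def k9_A00pm_213_s3 : ∃ t, chk3 f_A00pm_213_s3 t 2 15 1 = true :=
  ⟨(l 4), by decide +kernel⟩

def k10_A00pm_213_s3 : ∃ t, chk3 f_A00pm_213_s3 t 3 2 1 = true :=
  ⟨(b (l 6) (b (l 6) (a (l 6) (l 6)))), by decide +kernel⟩

def k11_A00pm_213_s3 : ∃ t, chk3 f_A00pm_213_s3 t 6 6 1 = true :=
  ⟨(b (a (b (a (b (l 16767544) (l 16771856)) (b (l 6) (a (l 16767712) (l 6)))) (a (b (c (l 16733160) (l 16776056)) (c (l 16755296) (l 16734952))) (b (a (l 16770784) (l 16767728)) (a (l 16771600) (l 16768504))))) (b (l 6) (a (b (l 16723168) (a (l 16681960) (l 16765368))) (b (l 6) (a (l 16765312) (l 6)))))) (b (a (a (a (b (l 16776344) (l 16772912)) (b (l 16773448) (l 16770384))) (a (b (l 16770024) (l 16767920)) (b (l 16766712) (l 16765128)))) (a (b (a (b (l 16764752) (l 16763992)) (l 16764912)) (a (l 16722000) (b (l 16764832) (l 16764640)))) (b (a (l 16766720) (l 16769832)) (a (b (l 16768152) (l 16768952)) (b (l 16772776) (l 16774488)))))) (a (b (a (b (l 16769288) (l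 16768120)) (a (l 16766224) (l 16764872))) (a (a (b (l 16767376) (a (l 16767600) (l 16766464))) (b (l 16766688) (l 16766184))) (a (b (l 16765880) (l 16765856)) (b (l 16765256) (l 16765800))))) (a (b (a (l 16764200) (b (l 16764776) (l 16765760))) (b (a (l 16765464) (a (l 16766320) (l 16767536))) (a (l 16766568) (b (l 16768104) (l 16769040))))) (c (b (a (l 16769160) (l 16773248)) (b (a (l 16771024) (l 16775640)) (a (b (l 16772296) (l 16773336)) (l 16798672)))) (b (a (l 16812048) (b (l 16778000) (l 16778104))) (b (a (l 16770704) (l 16778832)) (a (a (a (l 16769888) (l 16771080)) (l 16773904)) (a (l 16777896) (l 16782304)))))))))), by decide +kernel⟩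

def k12_A00pm_213_s3 : ∃ t, chk3 f_A00pm_213_s3 t 24 28 1 = true :=
  ⟨(b (a (b (a (a (l 16768528) (l 16767816)) (b (b (l 16766496) (l 16766656)) (a (l 16767392) (l 16766672)))) (a (l 16769768) (b (l 16767952) (l 16768968)))) (b (b (b (l 16765992) (a (l 16765864) (l 16765904))) (a (a (b (b (l 16765824) (a (l 16766024) (l 16765792))) (a (l 16766344) (l 16766056))) (b (l 16765832) (l 16765880))) (b (b (l 16765888) (l 16765904)) (l 16766000)))) (b (a (a (l 16766920) (b (a (l 16766208) (l 16766032)) (a (l 16766688) (l 16766416)))) (a (c (l 16768496) (l 16763808)) (l 16766288))) (a (a (l 16768016) (l 16767384)) (a (a (b (l 16766672) (l 16767224)) (b (l 16766496) (l 16766976))) (c (l 16768992) (c (l 16765520) (l 16763208)))))))) (b (b (a (l 16770648) (a (l 16768896) (a (l 16768032) (c (b (l 16769552) (l 16770080)) (b (a (l 16765048) (l 16764840)) (l 16765640)))))) (a (l 16771728) (a (l 16770144) (c (l 16771128) (l 16767080))))) (a (a (c (l 16774808) (l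 16772664)) (l 16772888)) (a (l 16772032) (c (l 16772912) (l 16769432)))))), by decide +kernel⟩

def k13_A00pm_213_s3 : ∃ t, chk3 f_A00pm_213_s3 t 25 28 1 = true :=
  ⟨(a (b (b (b (b (l 16765944) (l 16766016)) (a (b (l 16766008) (l 16766152)) (b (l 16766176) (l 16766368)))) (a (c (l 16768904) (b (l 16764288) (l 16764736))) (b (l 16766720) (c (l 16769400) (l 16765208))))) (b (a (b (a (c (l 16769656) (c (l 16766240) (l 16763976))) (l 16767616)) (a (c (b (l 16770328) (l 16770896)) (b (a (l 16765928) (l 16765728)) (l 16766592))) (a (b (l 16768064) (a (l 16768472) (l 16768432))) (l 16768352)))) (c (l 16770416) (b (l 16765824) (l 16766536)))) (a (a (b (l 16769808) (l 16771272)) (b (b (a (l 16769128) (a (l 16768992) (l 16768944))) (l 16769768)) (l 16770896))) (c (b (a (b (l 16771264) (l 16771672)) (l 16771680)) (a (b (l 16772304) (l 16772912)) (b (l 16772296) (l 16772792)))) (b (a (b (l 16766952) (a (c (l 16768464) (l 16766312)) (l 16767432))) (l 16767496))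 (a (b (a (l 16768168) (c (l 16769072) (l 16766968))) (l 16768944)) (b (l 16768120) (a (c (l 16769720) (l 16767664)) (l 16768664))))))))) (a (b (b (b (l 16766144) (b (l 16766432) (l 16766664))) (b (l 16767072) (l 16767696))) (b (c (l 16770816) (b (l 16766448) (l 16767208))) (c (c (l 16773512) (l 16771480)) (b (l 16768048) (c (l 16769952) (l 16767976)))))) (b (b (b (l 16766488) (b (l 16766880) (l 16767152))) (b (l 16767616) (l 16768304))) (b (c (l 16771392) (b (l 16767272) (l 16768088))) (c (l 16773184) (b (l 16768976) (l 16769928))))))), by decide +kernel⟩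

def k14_A00pm_213_s3 : ∃ t, chk3 f_A00pm_213_s3 t 26 28 1 = true :=
  ⟨(c (b (b (b (a (l 16769160) (l 16771256)) (a (b (l 16769688) (l 16770048)) (a (l 16771472) (l 16772904)))) (a (a (l 16770536) (l 16771520)) (a (l 16772776) (l 16774312)))) (a (b (a (l 16772232) (l 16773328)) (a (l 16774112) (l 16775296))) (b (a (l 16774704) (l 16776336)) (a (l 16776736) (l 16778432))))) (b (b (b (a (l 16766208) (l 16769080)) (a (b (l 16766752) (l 16767064)) (a (l 16769104) (b (l 16770784) (l 16771200))))) (a (b (l 16767560) (l 16768296)) (a (l 16770256) (c (l 16772664) (l 16771888))))) (b (a (a (b (l 16768400) (l 16769264)) (b (l 16769832) (l 16770744))) (a (c (l 16772648) (l 16771504)) (c (l 16774600) (l 16773712)))) (a (a (c (l 16771512) (l 16769880)) (c (l 16772944) (l 16771520))) (c (a (l 16774664) (l 16776672)) (a (l 16773464) (l 16775712))))))), by decide +kernel⟩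

def k15_A00pm_213_s3 : ∃ t, chk3 f_A00pm_213_s3 t 27 28 1 = true :=
  ⟨(b (c (b (a (b (a (l 16773632) (l 16775568)) (a (l 16774632) (c (l 16777032) (l 16776320)))) (b (l 16779416) (c (l 16780504) (l 16780808)))) (a (a (l 16776144) (a (l 16777760) (l 16778824))) (c (l 16782232) (a (l 16780672) (l 16783872))))) (b (a (b (a (b (l 16771928) (l 16772504)) (b (l 16774968) (l 16775416))) (a (b (l 16772984) (l 16773432)) (a (b (a (l 16774568) (l 16775456)) (l 16775408)) (l 16777032)))) (a (b (l 16779176) (c (l 16779648) (c (l 16780280) (l 16780840)))) (b (l 16783544) (a (l 16783256) (l 16785520))))) (b (a (a (l 16774088) (c (a (l 16776280) (l 16777608)) (a (l 16776080) (c (l 16777584) (l 16777680))))) (c (a (l 16780408) (l 16784344)) (a (l 16781048) (l 16785808)))) (a (a (l 16775024) (a (l 16776984) (a (l 16778120) (a (l 16778648) (l 16779024))))) (c (a (l 16781200) (l 16785120)) (a (l 16781592) (l 16786328))))))) (c (a (a (b (l 16778240) (l 16780376)) (b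 (l 16780456) (l 16782592))) (a (a (b (l 16782304) (l 16784432)) (b (l 16783568) (l 16785832))) (b (l 16785816) (a (l 16787128) (l 16788672))))) (a (b (a (b (l 16776008) (l 16777024)) (c (l 16779456) (b (l 16778616) (l 16779600)))) (a (b (l 16778056) (l 16779096)) (b (l 16780776) (l 16781808)))) (b (c (a (b (l 16781904) (l 16782960)) (l 16786320)) (b (a (a (a (l 16780648) (l 16781544)) (l 16783312)) (l 16786880)) (a (a (l 16782104) (a (l 16783320) (l 16784496))) (l 16787456)))) (b (a (a (l 16783024) (a (l 16784296) (l 16785112))) (c (l 16787512) (l 16788016))) (a (l 16784856) (a (l 16787424) (l 16789544)))))))), by decide +kernel⟩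

def k16_A00pm_213_s3 : ∃ t, chk3 f_A00pm_213_s3 t 12 58 1 = true :=
  ⟨(a (a (b (a (b (l 16775136) (a (l 1073326607) (l 16775816))) (b (l 16774496) (l 16775448))) (c (c (a (b (l 1073793551) (a (l 1073970191) (l 1073953807))) (b (l 16777288) (l 1073934863))) (a (b (l 1073579023) (l 1073755151)) (l 1074705423))) (a (b (l 16778720) (l 1073441295)) (b (l 16775584) (l 16776400))))) (a (b (c (l 16775544) (l 16773256)) (b (l 16775920) (a (l 1073593359) (l 16776688)))) (b (c (l 16775168) (l 16772472)) (b (l 16775576) (l 16776552))))) (a (a (b (b (l 16772560) (l 16773952)) (b (l 16775240) (l 16776376))) (b (c (b (a (l 16773920) (l 16773816)) (l 16775160)) (b (a (l 16770272) (b (c (l 16770504) (a (l 16768536) (l 16768392))) (l 16770328))) (l 16771832))) (b (l 16774928) (l 16776216)))) (b (b (a (c (a (b (l 16773432) (l 16774032)) (l 16774016)) (a (b (c (l 16770424) (l 16768416)) (a (l 16770128) (c (l 16771040) (l 16769064)))) (l 16770144))) (c (l 16774608) (l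 16770928))) (a (c (a (l 16775048) (b (l 16774704) (l 16775360))) (a (c (l 16772328) (l 16770512)) (b (c (l 16771832) (a (l 16769840) (l 16770072))) (a (l 16771648) (c (l 16772536) (l 16770664)))))) (c (l 16775576) (l 16771960)))) (b (a (c (l 16776336) (c (l 16773872) (l 16772216))) (a (a (b (a (l 16774216) (l 16774216)) (l 16774952)) (b (l 16774360) (l 16775016))) (b (l 16774776) (l 16775232)))) (a (l 16776088) (a (l 16776088) (b (a (l 16775816) (l 16775888)) (l 16776600)))))))), by decide +kernel⟩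

def k17_A00pm_213_s3 : ∃ t, chk3 f_A00pm_213_s3 t 12 59 1 = true :=
  ⟨(a (b (c (a (c (a (c (b (a (a (l 1074209295) (l 1074201615)) (b (l 1074143247) (l 1074242063))) (b (a (a (b (l 1074332175) (a (l 1074385935) (l 1074383375))) (b (l 1074327055) (l 1074378767))) (l 1074344463)) (l 1074454543))) (b (a (l 1074105359) (l 1074086415)) (b (a (l 1074257423) (l 1074246671)) (l 1074359311)))) (b (a (l 1074131983) (l 1074123279)) (b (l 1074280975) (l 1074386447)))) (a (b (l 1073945103) (b (l 1074102799) (l 1074216463))) (b (l 1073921039) (l 1074135567)))) (b (a (l 1074006543) (l 16778016)) (a (l 1074217487) (l 1074206223)))) (a (a (b (l 1073641487) (a (l 1073878543) (l 1073861647))) (b (l 1073609743) (l 1073836559))) (b (a (l 16776824) (l 16776640)) (l 1073798671)))) (b (c (a (a (a (l 4) (l 1074474511)) (l 1074458639)) (a (l 1074442767) (l 1074432527))) (a (l 1074095119) (l 1074043407))) (a (c (a (l 4) (l 1074698767)) (l 1074354191)) (a (l 1074499599) (l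 1074487311))))) (a (b (a (b (l 16777312) (l 1073987599)) (b (l 16777304) (l 16778160))) (a (b (l 1074226191) (l 1074481679)) (b (l 16778752) (l 1074483215)))) (b (a (b (l 16777328) (l 16778352)) (b (l 16777512) (l 16778688))) (a (b (l 16779112) (l 16779576)) (b (l 16779616) (l 16780256)))))), by decide +kernel⟩

def k18_A00pm_213_s3 : ∃ t, chk3 f_A00pm_213_s3 t 13 29 1 = true :=
  ⟨(b (a (b (a (c (a (l 16776080) (l 16777312)) (a (c (l 16773544) (l 16771912)) (c (l 16775016) (l 16773584)))) (c (a (l 16778792) (l 16780504)) (a (c (l 16776760) (l 16775536)) (c (l 16778768) (l 16777776))))) (a (a (b (c (l 16777560) (l 16774296)) (c (l 16778424) (b (l 16775080) (a (l 16775200) (l 16775960))))) (c (l 16779288) (b (l 16775864) (l 16776904)))) (a (b (l 16778952) (l 16779960)) (b (l 16780856) (l 16781848))))) (c (a (b (a (l 16782456) (l 16784672)) (a (l 16784432) (l 16786624))) (b (a (l 16787168) (l 16790008)) (a (l 16789080) (l 16791864)))) (b (b (a (a (l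 16780136) (l 16782840)) (a (l 16785872) (c (l 16789288) (l 16800000)))) (a (c (l 16782840) (l 16782232)) (a (l 16786864) (l 16790352)))) (a (a (l 16782680) (l 16785328)) (a (l 16788296) (l 16791616)))))) (a (b (a (a (a (b (b (l 16777528) (l 16778144)) (l 16779088)) (b (b (l 16777984) (l 16778496)) (l 16779536))) (b (l 16779312) (a (b (l 16779600) (l 16780240)) (l 16780648)))) (c (a (l 16782640) (l 16784328)) (a (l 16780232) (l 16782296)))) (a (b (a (l 16780352) (a (l 16781064) (l 16786904))) (l 16781736)) (a (b (l 16782696) (b (l 16783376) (l 16783984))) (l 16785072)))) (a (b (c (l 16797888) (b (l 16785448) (l 16786392))) (c (l 16788856) (l 16787576))) (a (b (l 16790360) (l 16791656)) (b (l 16793184) (l 16794168)))))), by decide +kernel⟩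

def k19_A00pm_213_s3 : ∃ t, chk3 f_A00pm_213_s3 t 12 30 1 = true :=
  ⟨(b (a (a (l 4) (b (a (b (l 1074768911) (l 4)) (b (l 1074758159) (l 1075046927))) (l 4))) (b (b (a (a (l 1074755087) (a (l 1074756623) (l 1074760207))) (a (a (l 1074765839) (l 1074778127)) (c (l 16781144) (l 16779992)))) (a (a (l 1075045903) (a (a (l 1075047439) (a (l 1075048975) (l 1075049999))) (b (l 1074976783) (a (l 1075126287) (l 1075129359))))) (a (a (b (l 1074983439) (a (l 1075132943) (l 1075137039))) (b (l 16779800) (l 1075151887))) (c (l 1075310095) (b (l 16780128) (l 1075048463)))))) (a (b (b (b (a (l 1075233295) (a (a (l 1075236879) (l 1075238927)) (a (l 1075241999) (l 1075245071)))) (a (l 1075311631) (a (a (a (l 1075314703) (a (l 1075315727) (l 1075316239))) (a (l 1075317263) (l 1075318287))) (l 1075322383)))) (a (l 4) (c (a (a (l 1075588623) (l 1075592207)) (l 1075597839)) (c (a (c (l 1075398671) (l 1075321871)) (l 1075366415)) (a (a (b (a (l 1075161103) (l 1075162127))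 (l 4)) (l 1075207183)) (l 1075210767)))))) (b (a (l 4) (a (l 4) (l 1075608079))) (l 4))) (c (b (b (a (l 1075469327) (l 16780520)) (a (l 1075616271) (l 1075720719))) (a (l 1076400143) (l 1076024847))) (b (b (a (a (l 1075128335) (l 1075146767)) (c (l 16780080) (l 1075144207))) (a (a (l 1075296271) (l 1075319823)) (l 1075417615))) (b (a (a (l 1075468815) (l 1075486735)) (l 1075615247)) (a (a (l 1075645455) (l 1076210703)) (l 1075796495)))))))) (a (l 4) (b (b (a (l 4) (c (a (l 1078323215) (l 1076295695)) (b (a (a (l 4) (l 1075862543)) (l 1075966991)) (a (l 4) (l 1076128783))))) (a (l 4) (a (l 4) (a (l 4) (l 1076508175))))) (l 4)))), by decide +kernel⟩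

def k20_A00pm_213_s3 : ∃ t, chk3 f_A00pm_213_s3 t 13 60 1 = true :=
  ⟨(a (a (b (a (b (l 16781656) (a (l 1075761679) (l 16782136))) (b (l 16782968) (l 16783272))) (b (a (b (l 1075527183) (l 1075713039)) (b (l 16783208) (l 16782992))) (a (a (l 1075950607) (l 1076017167)) (a (l 1076082703) (l 1076147727))))) (b (b (a (l 16784664) (a (l 16785688) (l 16786648))) (a (l 16784904) (a (l 16786224) (l 16787184)))) (a (a (b (l 16784392) (l 1076212751)) (b (l 16785280) (l 16784672))) (b (l 16786688) (l 16786136))))) (a (b (a (b (l 16788048) (l 16788264)) (l 16790160)) (a (b (a (l 16788264) (l 16788928)) (l 16788272)) (b (l 16790336) (a (l 16779248) (l 16790416))))) (b (c (l 16793552) (l 16793160)) (b (l 16793128) (l 16792768))))), by decide +kernel⟩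

def k21_A00pm_213_s3 : ∃ t, chk3 f_A00pm_213_s3 t 26 61 1 = true :=
  ⟨(b (a (a (c (b (l 1076421135) (l 1076709391)) (b (l 1076728335) (l 1077047823))) (b (c (l 1076546063) (l 1076329999)) (c (l 1076836367) (l 1076114959)))) (a (a (b (l 1076534799) (l 1076842511)) (b (l 1076599823) (l 1076908559))) (b (c (l 16785280) (l 16784776)) (b (l 16783864) (l 1077078031))))) (a (b (a (a (l 4) (l 1076930575)) (a (l 1076998671) (l 1077066255))) (l 4)) (b (a (b (l 1077091855) (a (l 1077198351) (l 1077265423))) (b (a (l 1077190671) (l 16779784)) (a (l 1077332495) (l 1077399055)))) (a (b (a (l 1077334543) (l 1077402127)) (a (l 4) (b (l 1077499407) (l 4)))) (b (a (l 1077469711) (a (l 1077519375) (l 1077552655))) (b (a (l 1077566991) (a (l 1078154255) (l 1077650959))) (a (b (l 1077614607) (a (l 4) (l 1077663247))) (b (a (a (l 1077656591) (l 1077673487)) (l 1077699087)) (a (b (a (l 1077680655) (l 1077697551)) (a (a (b (l 1077688335) (l 1077696015)) (l 1077700623))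 (l 1077713423))) (b (l 1077722639) (l 1077738511))))))))))), by decide +kernel⟩

def k22_A00pm_213_s3 : ∃ t, chk3 f_A00pm_213_s3 t 27 61 1 = true :=
  ⟨(b (a (a (b (l 16787144) (b (l 16786032) (l 16785120))) (b (b (l 16789840) (l 16789064)) (l 16782640))) (a (b (a (b (l 16791024) (l 16790800)) (l 16791728)) (a (l 16789688) (l 16790960))) (b (l 16793032) (a (b (l 16792072) (l 16791504)) (l 16792632))))) (a (b (a (a (b (l 16783520) (l 1077465103)) (b (l 16784656) (l 1077530639))) (b (l 16786424) (a (l 16782064) (l 16785896)))) (a (b (b (a (l 1077566991) (l 1077633039)) (a (l 1077635087) (l 1077701135))) (b (a (b (l 1077684239) (l 1077717007)) (l 1077767695)) (a (b (l 1077749263) (a (l 1077764623) (l 1077797903))) (b (l 1077816335) (l 1077848591))))) (b (a (b (l 16783752) (l 16780472)) (l 1076742671)) (a (b (l 1077838863) (b (l 1077888527) (l 1077921295))) (b (l 1077918735) (l 1077450255)))))) (b (b (a (l 16788896) (a (l 16790936) (l 16791744))) (a (l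 16782544) (a (l 16789720) (l 16791144)))) (a (a (b (l 1077897231) (a (l 1078018063) (l 1078060047))) (b (l 16787184) (l 1078122511))) (b (l 16783912) (a (l 16784504) (l 16788312))))))), by decide +kernel⟩

def k23_A00pm_213_s3 : ∃ t, chk3 f_A00pm_213_s3 t 12 62 1 = true :=
  ⟨(l 4), by decide +kernel⟩

def k24_A00pm_213_s3 : ∃ t, chk3 f_A00pm_213_s3 t 26 62 1 = true :=
  ⟨(b (a (l 4) (b (a (l 4) (b (a (a (l 4) (b (b (b (b (l 1077682703) (l 4)) (l 4)) (l 4)) (l 4))) (b (a (b (b (a (b (l 1077708303) (l 1077715983)) (l 1077729295)) (a (l 1077727759) (l 1077744655))) (a (l 4) (l 1077768207))) (b (b (l 1077754383) (l 1077770255)) (l 1077793807))) (a (l 4) (b (l 1077824527) (a (l 4) (l 1077863439)))))) (l 4))) (l 4))) (l 4)), by decide +kernel⟩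

def k25_A00pm_213_s3 : ∃ t, chk3 f_A00pm_213_s3 t 54 124 1 = true :=
  ⟨(b (a (b (b (a (a (b (l 1077796367) (l 1077827599)) (l 1077846031)) (a (l 1077879823) (l 1077913615))) (a (a (b (l 1077858831) (l 1077889039)) (l 1077908495)) (a (l 1077941775) (l 1077976079)))) (b (b (a (a (l 1077919247) (l 1077953039)) (a (l 1077986831) (l 1078021647))) (a (a (l 4) (l 1077982735)) (a (l 1078016527) (l 1078051855)))) (a (l 4) (a (b (l 1078046223) (l 1078074895)) (c (l 1077577743) (b (l 1078061071) (l 1077824015))))))) (b (a (b (a (l 1077950479) (l 1077991439)) (l 1078165007)) (b (l 1078055439) (l 1078122511))) (b (a (a (l 1077542415) (l 1078121999)) (l 1078186511)) (a (a (l 1078142991) (l 1078183439)) (l 1078648847))))) (b (b (a (a (l 4) (a (l 4) (b (c (l 1078150671) (l 1077850127)) (l 4)))) (c (a (l 1078496271) (l 1078253071)) (a (a (l 1078182927) (l 1078227471)) (l 1078528015)))) (a (l 4) (c (a (a (l 1078255119) (l 1078269455)) (l 1078209551)) (a (a (a (l 4)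 (l 1078247951)) (l 1078277647)) (a (l 1078232079) (l 1078187535)))))) (a (l 4) (a (l 4) (a (b (a (l 1078196751) (l 1077906959)) (l 4)) (b (l 1078177295) (b (l 1078112271) (l 4)))))))), by decide +kernel⟩

def k26_A00pm_213_s3 : ∃ t, chk3 f_A00pm_213_s3 t 55 124 1 = true :=
  ⟨(b (a (a (b (b (l 1078140431) (l 1078205967)) (b (l 1078268943) (l 1078220815))) (b (b (l 16782096) (l 1078244367)) (c (l 1078164495) (l 1078697487)))) (a (b (l 1078725647) (a (l 1078102031) (l 1078062095))) (b (l 1078109199) (a (l 1078022671) (l 1077446671))))) (a (c (b (a (b (l 1078174735) (l 1078131215)) (b (l 1078097935) (l 1078054415))) (a (b (l 1078089743) (l 1078050319)) (b (l 1077476367) (l 1077436943)))) (b (a (b (l 1078170639) (l 1078120975)) (b (l 1078083599) (l 1078033935))) (a (a (b (l 1077558799) (a (l 1078062095) (l 1078040079))) (b (l 1078051855) (l 1077470223))) (b (a (l 1078008335) (l 1077965327)) (a (l 1077963279) (l 1077920271)))))) (c (a (b (l 1077998607)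 (b (l 1077401103) (l 1077362191))) (b (l 1077924879) (a (l 1077324303) (l 1077287951)))) (b (a (b (l 1077998607) (l 1077277711)) (b (l 1077378063) (l 1077328399))) (a (b (a (l 1077922831) (l 1077880847)) (a (l 1077877775) (l 1077835791))) (a (b (l 1077838863) (l 1077793807)) (b (l 1077797391) (l 1077752335)))))))), by decide +kernel⟩

def k27_A00pm_213_s3 : ∃ t, chk3 f_A00pm_213_s3 t 27 125 1 = true :=
  ⟨(a (l 4) (b (a (b (b (a (a (l 4) (a (l 1077720591) (l 1077968911))) (c (a (l 1077956111) (l 1077918223)) (a (l 1077384207) (l 1077877775)))) (a (l 4) (c (a (l 1077920783) (l 1077883407)) (a (l 1078417423) (l 1077837839))))) (l 4)) (b (b (a (a (l 1077857807) (l 1077817871)) (a (l 1077778959) (l 1077740047))) (a (a (l 1078357007) (a (l 1077790735) (l 1077770767))) (a (l 1078278159) (l 1077702671)))) (b (a (a (b (l 1077794319) (l 4)) (a (l 1078024207) (l 1078004239))) (a (a (l 1077716495) (l 1077696527)) (l 1077667343))) (a (l 4) (a (l 1077673999) (l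 1077635087)))))) (b (a (l 4) (b (a (l 4) (c (l 1077663247) (l 1077049359))) (l 4))) (l 4)))), by decide +kernel⟩

def k28_A00pm_213_s3 : ∃ t, chk3 f_A00pm_213_s3 t 6 63 1 = true :=
  ⟨(l 4), by decide +kernel⟩

def k29_A00pm_213_s3 : ∃ t, chk3 f_A00pm_213_s3 t 7 6 1 = true :=
  ⟨(b (l 6) (a (b (a (b (a (b (l 6) (l 16775840)) (l 6)) (b (a (l 16778824) (a (l 16784336) (l 6))) (a (a (l 16779592) (l 16783472)) (b (l 16873424) (l 16832728))))) (b (l 6) (a (b (l 6) (a (c (l 16789120) (l 16807720)) (l 6))) (l 6)))) (b (b (a (a (c (l 16778112) (l 16787576)) (c (l 16785080) (l 16798864))) (a (a (l 16840968) (c (l 16795808) (l 16815256))) (c (l 16801560) (a (l 16820104) (l 16824320))))) (a (a (c (l 16779704) (l 16787768)) (c (l 16786944) (l 16799088))) (a (c (l 16795560) (l 16853872)) (c (l 16804176) (a (l 16820992) (l 16825904)))))) (b (a (a (c (l 16781648) (b (l 16788264) (l 16788760))) (c (l 16789096) (c (l 16796728) (l 16803160)))) (a (a (l 16843640) (l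 16849224)) (a (a (l 16853648) (l 16814048)) (l 16859512)))) (a (a (c (l 16804864) (a (l 16787112) (l 16792320))) (c (l 16791424) (a (l 16797896) (l 16803808)))) (c (a (l 16800144) (l 16809408)) (a (a (l 16810032) (l 16816512)) (a (l 16823296) (l 16828760)))))))) (b (l 6) (b (b (l 6) (a (a (a (l 16861856) (c (l 16815200) (l 16835856))) (a (c (l 16820008) (l 16841224)) (l 6))) (l 6))) (a (a (b (a (l 16864288) (l 16869296)) (a (l 16824560) (l 16871656))) (c (b (l 16825864) (l 16828880)) (b (l 16888360) (l 16890432)))) (b (a (a (l 16885688) (l 16849416)) (l 6)) (c (a (l 16839256) (l 16849344)) (a (l 16860256) (l 16871504))))))))), by decide +kernel⟩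

def k30_A00pm_213_s3 : ∃ t, chk3 f_A00pm_213_s3 t 14 14 1 = true :=
  ⟨(b (a (b (b (a (a (c (l 16784552) (b (l 16788304) (c (l 16787880) (l 16790496)))) (c (l 16788016) (b (l 16793440) (l 16794192)))) (c (a (l 16791792) (l 16795840)) (a (c (l 16797080) (l 16801648)) (l 16805024)))) (a (a (c (l 16786816) (c (l 16789008) (a (l 16789856) (l 16792504)))) (c (l 16790280) (c (l 16793616) (l 16796656)))) (c (l 16817040) (a (l 16810888) (l 16806048))))) (b (c (a (a (l 16788984) (l 16792432)) (l 16798160)) (a (a (b (l 16790976) (l 16791632)) (c (l 16795080) (l 16797544))) (a (l 16801480) (l 16807000)))) (a (a (c (l 16791072) (c (l 16792080) (l 16793256))) (b (l 16805800) (l 16796120))) (a (c (l 16798136) (l 16802528)) (l 16825688))))) (a (b (b (c (l 16802440) (a (l 16811056) (l 16817328))) (a (c (l 16802320) (l 16811944)) (l 16853872))) (a (b (l 16850072) (l 16809448)) (b (l 16813312) (l 16814312)))) (b (a (b (c (l 16809536) (l 16824032)) (l 16817368)) (b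 (l 16863168) (l 16864696))) (a (b (l 16818536) (l 16819248)) (b (l 16823912) (l 16824304)))))) (b (b (a (a (a (a (b (l 16791936) (l 16792696)) (l 16815232)) (a (l 16796240) (l 16798336))) (a (l 16822472) (l 16805864))) (a (a (l 16810344) (l 16814792)) (l 16852928))) (a (a (a (b (c (l 16794344) (l 16794816)) (l 16795328)) (l 16819576)) (a (l 16802536) (l 16806512))) (a (a (l 16810512) (l 16814504)) (c (l 16816624) (l 16824992))))) (a (a (a (b (l 16817280) (l 16796816)) (b (a (l 16798568) (l 16800176)) (l 16810184))) (b (a (l 16802872) (l 16806416)) (c (l 16803128) (a (l 16803216) (l 16807016))))) (a (b (c (l 16809552) (l 16814504)) (c (l 16808568) (l 16791592))) (c (b (l 16815568) (l 16813784)) (b (l 16780768) (l 16798760))))))), by decide +kernel⟩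

def k31_A00pm_213_s3 : ∃ t, chk3 f_A00pm_213_s3 t 15 14 1 = true :=
  ⟨(b (a (a (b (a (a (l 16868024) (l 16870600)) (a (l 16873208) (l 16875832))) (c (l 16866880) (c (l 16834936) (l 16800984)))) (b (a (a (l 16878464) (l 16891560)) (b (l 16842488) (l 16843536))) (c (l 16875568) (c (l 16845096) (l 16854200))))) (b (c (a (l 16883752) (l 16892632)) (a (c (l 16856008) (l 16825328)) (b (l 16808880) (l 16871080)))) (c (c (a (l 16838288) (l 16845400)) (a (l 16845808) (l 16832544))) (a (c (l 16854584) (l 16864632)) (c (l 16863000) (l 16873840)))))) (a (b (b (c (a (l 16824472) (l 16832368)) (a (a (l 16833968) (l 16839088)) (l 16846376))) (a (c (l 16865256) (l 16833784)) (c (l 16830496) (l 16843168)))) (b (a (c (a (l 16819968) (l 16822848)) (l 16830680)) (c (l 16827808) (l 16839072))) (a (a (l 16820856) (a (l 16823040) (l 16824520))) (c (l 16782360) (l 16834096))))) (b (c (c (a (l 16835304) (l 16840968)) (a (l 16799856) (l 16848104))) (a (b (l 16855368) (l 16851544))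 (c (l 16856432) (l 16824000)))) (b (a (c (l 16791728) (l 16846792)) (c (l 16838552) (l 16853240))) (a (a (l 16791544) (l 16794368)) (c (l 16833880) (l 16802632))))))), by decide +kernel⟩

def k32_A00pm_213_s3 : ∃ t, chk3 f_A00pm_213_s3 t 14 30 1 = true :=
  ⟨(b (a (b (a (c (l 16797768) (l 16798184)) (a (a (l 16800992) (l 16812752)) (a (l 16813944) (l 16804880)))) (a (b (l 16797224) (c (l 16796440) (l 16796728))) (a (b (l 16800496) (l 16799568)) (l 16802328)))) (b (a (c (l 16806936) (c (l 16809152) (l 16790008))) (c (l 16811320) (l 16816136))) (a (a (l 16804360) (l 16806728)) (c (l 16787272) (l 16811984))))) (a (b (a (a (l 16794312) (l 16796040)) (a (l 16797816) (l 16799624))) (a (b (a (b (l 16793016) (l 16794800)) (l 16794184)) (b (a (a (l 16791216) (l 16791904)) (l 16793080)) (a (a (l 16789216) (b (l 16790624) (l 16789496))) (a (l 16791312) (l 16792448))))) (c (b (l 16796176) (l 16794472)) (b (l 16796832) (l 16789760))))) (c (b (a (l 16801568) (l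 16804512)) (a (a (l 16797248) (l 16798552)) (l 16800112))) (a (b (a (l 16802256) (l 16804064)) (b (l 16800240) (l 16792728))) (b (l 16807248) (a (l 16801152) (l 16802768))))))), by decide +kernel⟩

def k33_A00pm_213_s3 : ∃ t, chk3 f_A00pm_213_s3 t 15 30 1 = true :=
  ⟨(a (b (c (a (b (a (l 16814400) (l 16816472)) (l 16811608)) (b (l 16820064) (l 16815032))) (a (b (a (l 16820416) (l 16823376)) (l 16806328)) (b (l 16828336) (a (l 16820048) (l 16823456))))) (b (a (a (l 16808112) (l 16809568)) (a (a (l 16810704) (l 16811448)) (l 16813328))) (a (a (l 16802880) (l 16804024)) (b (a (l 16806712) (l 16808264)) (a (l 16803624) (l 16804912)))))) (a (b (a (c (l 16821072) (l 16798536)) (b (l 16830712) (l 16803576))) (b (c (l 16813632) (c (l 16818728) (l 16817056))) (c (b (l 16809016) (l 16805824)) (a (l 16811272) (l 16789696))))) (b (b (a (l 16791088) (l 16793112)) (c (l 16822912) (a (l 16826520) (l 16783984)))) (b (a (a (l 16777488) (l 16788896)) (c (l 16817368)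 (c (l 16819920) (l 16793792)))) (a (c (l 16809600) (b (l 16811992) (l 16808064))) (c (l 16789800) (b (l 16790360) (b (l 16787392) (l 16785456))))))))), by decide +kernel⟩

def k34_A00pm_213_s3 : ∃ t, chk3 f_A00pm_213_s3 t 14 124 1 = true :=
  ⟨(b (a (a (a (b (c (l 16787672) (l 16784992)) (a (l 1077925903) (l 1077850127))) (b (a (b (l 16789432) (l 16783072)) (l 16790096)) (a (l 16786968) (b (a (l 16787960) (l 16778072)) (l 16781944))))) (a (b (l 16791800) (a (l 16783680) (l 16790008))) (l 16792904))) (a (a (l 16794512) (l 16795632)) (a (l 16796744) (l 16797712)))) (a (a (a (b (a (b (l 1077317647) (l 1077271567)) (b (l 16784808) (l 16783928))) (b (a (c (l 1077792783) (l 1077199375)) (l 1077151759)) (a (c (l 1077753871) (l 1076886031)) (l 1077109775)))) (b (b (l 16783352) (l 16782480)) (a (b (l 16783872) (l 16783032)) (c (l 16784280) (l 16781496))))) (a (b (a (b (a (l 16786848) (l 16787424)) (l 16780864)) (b (l 16788248) (l 16781944))) (a (l 16784896)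 (b (a (l 16785768) (l 16781080)) (l 16779824)))) (b (l 16789400) (a (b (l 16787120) (a (l 16780536) (l 16786280))) (l 16787696))))) (a (a (l 16780000) (l 16792616)) (a (l 16794112) (l 16795000))))), by decide +kernel⟩

def k35_A00pm_213_s3 : ∃ t, chk3 f_A00pm_213_s3 t 28 125 1 = true :=
  ⟨(a (b (a (b (b (a (a (l 1077701647) (l 1077663247)) (l 1077070351)) (a (a (l 1077664271) (l 1077625871)) (l 1078106639))) (a (b (a (l 1077628943) (l 1077591055)) (l 1078650895)) (b (l 1078071311) (l 1078039055)))) (b (a (a (l 1078603279) (l 1078029839)) (b (l 16782968) (l 16782168))) (a (b (l 1077460495) (l 1077428239)) (b (l 16778768) (l 1077355535))))) (a (b (b (a (l 1078084623) (l 1077472271)) (a (l 1077520399) (l 1077445135))) (b (a (l 4) (l 1077420559)) (l 4))) (b (a (b (l 1077398031) (l 1077370895)) (b (l 1077325839) (l 1077298191))) (a (b (l 1077346831) (l 1077325327)) (b (l 1077274127) (l 1078326287)))))) (b (b (a (b (l 16783992) (l 16783200)) (a (b (a (l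 16784744) (l 16780000)) (l 16784096)) (b (l 16786024) (a (l 16779472) (l 16785200))))) (a (b (l 16779808) (c (l 16781752) (l 16778968))) (b (a (l 16783376) (a (l 16783784) (l 16778944))) (l 16782912)))) (a (b (a (b (l 16780592) (l 1077227023)) (b (l 16781256) (l 16780528))) (b (a (l 1077739535) (l 1077669391)) (a (b (l 1077188111) (l 1077714959)) (b (l 1077117967) (l 1077107727))))) (b (b (l 16782176) (a (l 16781160) (l 16781760))) (b (a (l 1077600783) (l 16781056)) (a (b (l 16779928) (l 1077039631)) (b (l 16780536) (l 16780192)))))))), by decide +kernel⟩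

def k36_A00pm_213_s3 : ∃ t, chk3 f_A00pm_213_s3 t 29 125 1 = true :=
  ⟨(a (b (a (b (l 16776656) (a (b (l 16784968) (a (b (l 16783920) (l 16783416)) (l 16784200))) (l 16785512))) (l 16777704)) (a (b (a (b (a (l 16782896) (b (l 16783408) (l 16782952))) (l 16782320)) (b (b (l 16784168) (l 16778472)) (a (b (l 16782904) (l 16782544)) (b (l 16783384) (a (l 16782760) (l 16783016)))))) (b (a (l 16781624) (b (a (l 16782200) (l 16782424)) (l 16781984))) (a (l 16780936) (l 16781472)))) (b (l 16779720) (a (b (a (b (l 16782912) (b (l 16787760) (l 16782264))) (l 16783120)) (a (l 16781816) (b (a (b (l 16782368) (l 16782112)) (l 16782480)) (a (l 16781864) (l 16784608))))) (b (l 16783888) (b (l 16783104) (a (l 16782368) (l 16782832)))))))) (b (a (l 16790216) (l 16781584)) (a (b (l 16786968) (a (l 16784360) (l 16785328))) (b (l 16788848) (l 16786712))))), by decide +kernel⟩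

def k37_A00pm_213_s3 : ∃ t, chk3 f_A00pm_213_s3 t 15 62 1 = true :=
  ⟨(b (c (a (b (a (l 16798320) (l 16800032)) (a (l 16795632) (l 16797104))) (a (a (l 16800072) (l 16801576)) (a (a (l 16802512) (l 16803072)) (a (l 16782584) (l 16793480))))) (a (a (b (l 16800328) (l 16797184)) (a (l 16800288) (a (l 16801264) (l 16801800)))) (b (a (a (l 16805472) (l 16804880)) (a (l 16783256) (b (l 16783544) (l 16781664)))) (a (a (l 16801456) (l 16801120)) (a (a (l 16800656) (l 16800336)) (a (l 16779048) (b (l 16779656) (l 16777824)))))))) (a (a (a (b (l 16792952) (a (l 16789072) (l 16789928))) (b (l 16793736) (a (l 16790488) (l 16790816)))) (b (a (l 16794432) (l 16795128)) (c (l 16791032) (a (l 16791872) (l 16792568))))) (b (a (a (b (l 16796976) (l 16805632)) (c (l 16796384) (l 16797448))) (c (a (l 16797480) (c (l 16797352) (l 16799312))) (a (a (l 16797008) (l 16786216)) (c (l 16797512) (a (l 16795112) (l 16794688)))))) (c (c (a (a (l 16791472) (l 16792352)) (a (l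 16793192) (l 16793768))) (a (a (l 16792168) (l 16793336)) (b (l 16795968) (l 16799240)))) (c (a (a (l 16792992) (l 16794448)) (a (l 16794112) (a (l 16793864) (l 16793672)))) (a (a (a (l 16793528) (l 16793800)) (l 16793208)) (a (a (l 16792624) (l 16781744)) (a (l 16781344) (b (l 16792232) (l 16790616)))))))))), by decide +kernel⟩

def k38_A00pm_213_s3 : ∃ t, chk3 f_A00pm_213_s3 t 28 126 1 = true :=
  ⟨(b (a (a (l 4) (b (b (a (l 4) (b (a (l 1077258767) (l 1077222927)) (a (l 4) (l 1077214735)))) (l 4)) (l 4))) (a (b (b (a (b (l 1078242831) (l 1077160975)) (b (l 1077099023) (l 1077090831))) (a (a (l 1077166607) (l 1077131279)) (a (l 1077095951) (l 1077061135)))) (a (l 4) (b (a (l 1077085199) (l 1077050383)) (l 4)))) (b (b (a (a (l 1077041167) (l 1077007887)) (b (l 16779848) (l 1077500431))) (a (a (l 1077026319) (l 1076993551)) (a (l 1076965903) (l 1076938767)))) (b (b (a (a (l 1077019663) (l 1076986895)) (l 1078558223)) (a (a (l 1077015567) (l 1076982799))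 (a (l 1076957711) (l 1076930063)))) (b (a (a (l 1077011983) (l 1076983311)) (a (l 1076954127) (l 1076926479))) (a (a (l 4) (l 1076979215)) (a (l 1076951055) (l 1076923407)))))))) (a (l 4) (b (a (l 4) (a (l 4) (a (b (b (l 1076949007) (l 4)) (l 4)) (b (b (l 1076920847) (l 1076919823)) (l 4))))) (l 4)))), by decide +kernel⟩

def k39_A00pm_213_s3 : ∃ t, chk3 f_A00pm_213_s3 t 29 126 1 = true :=
  ⟨(b (a (a (b (b (a (b (l 16780424) (l 16780088)) (b (l 16780968) (l 16780632))) (a (a (l 1076911631) (l 1076884495)) (b (l 16780304) (l 16779968)))) (b (b (a (a (l 1076906511) (l 16779240)) (c (l 16779720) (l 16779568))) (a (a (l 1076901903) (l 1076874255)) (c (l 16779384) (l 16779256)))) (a (a (a (l 1076901391) (l 1076887055)) (a (l 1076872719) (l 1076858895))) (b (a (l 1076841487) (l 1076813327)) (a (l 1076837903) (l 1076809743)))))) (b (b (a (l 16781304) (a (b (a (l 16784360) (b (l 16782072) (l 16781840))) (l 16781456)) (b (l 16782312) (a (b (l 16781832) (l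 16781576)) (l 16781936))))) (a (b (l 16780808) (l 16780480)) (a (l 16781000) (a (l 16781168) (l 14))))) (b (a (b (l 16780152) (a (l 16779712) (l 16779952))) (b (l 16780624) (l 14))) (a (a (b (l 16779384) (l 1076781071)) (b (l 16779632) (l 14))) (l 14))))) (b (b (a (a (l 16782792) (l 16783752)) (l 16779880)) (l 14)) (l 14))) (a (a (b (c (a (a (b (l 1077516815) (b (l 1076982287) (l 4))) (b (l 1078564367) (b (l 1076955663) (l 1076956175)))) (b (a (b (l 1076931087) (l 1076929551)) (b (l 1076904463) (l 1076902927))) (a (b (l 1076929039) (l 1076929551)) (b (l 1076902415) (l 14))))) (a (b (a (l 1078408719) (b (l 1076771855) (l 1076770319))) (a (b (l 1076800527) (l 4)) (b (l 1076769807) (l 1076770831)))) (b (a (b (l 1076741135) (l 1076739087)) (b (l 1076709903) (l 1076708367))) (a (b (l 1076738575) (l 1076739599)) (b (l 1076707343) (l 14)))))) (a (l 4) (a (a (l 4) (l 14)) (l 14)))) (b (b (a (a (b (l 1076777999) (l 14)) (l 14)) (l 14)) (l 14)) (l 14))) (l 14))),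 by decide +kernel⟩

def k40_A00pm_213_s3 : ∃ t, chk3 f_A00pm_213_s3 t 15 126 1 = true :=
  ⟨(b (b (b (a (a (a (l 16786840) (l 16788448)) (c (l 16789144) (l 16790072))) (c (a (a (l 16789760) (l 16790576)) (a (l 16791488) (l 16792144))) (a (a (l 16791080) (l 16791616)) (a (l 16791112) (a (l 16780224) (l 16779936)))))) (l 14)) (l 14)) (l 14)), by decide +kernel⟩

def k41_A00pm_213_s3 : ∃ t, chk3 f_A00pm_213_s3 t 7 127 1 = true :=
  ⟨(a (a (l 4) (a (a (l 4) (l 14)) (l 14))) (l 14)), by decide +kernel⟩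

theorem t42_A00pm_213_s3 : ∃ t, chk3 f_A00pm_213_s3 t 14 126 1 = true := ex3_a k38_A00pm_213_s3 k39_A00pm_213_s3

theorem t43_A00pm_213_s3 : ∃ t, chk3 f_A00pm_213_s3 t 7 126 1 = true := ex3_a t42_A00pm_213_s3 k40_A00pm_213_s3

theorem t44_A00pm_213_s3 : ∃ t, chk3 f_A00pm_213_s3 t 7 63 1 = true := ex3_b t43_A00pm_213_s3 k41_A00pm_213_s3

theorem t45_A00pm_213_s3 : ∃ t, chk3 f_A00pm_213_s3 t 14 125 1 = true := ex3_a k35_A00pm_213_s3 k36_A00pm_213_s3

theorem t46_A00pm_213_s3 : ∃ t, chk3 f_A00pm_213_s3 t 14 62 1 = true := ex3_b k34_A00pm_213_s3 t45_A00pm_213_s3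

theorem t47_A00pm_213_s3 : ∃ t, chk3 f_A00pm_213_s3 t 7 62 1 = true := ex3_a t46_A00pm_213_s3 k37_A00pm_213_s3

theorem t48_A00pm_213_s3 : ∃ t, chk3 f_A00pm_213_s3 t 7 31 1 = true := ex3_b t47_A00pm_213_s3 t44_A00pm_213_s3

theorem t49_A00pm_213_s3 : ∃ t, chk3 f_A00pm_213_s3 t 7 30 1 = true := ex3_a k32_A00pm_213_s3 k33_A00pm_213_s3

theorem t50_A00pm_213_s3 : ∃ t, chk3 f_A00pm_213_s3 t 7 15 1 = true := ex3_b t49_A00pm_213_s3 t48_A00pm_213_s3

theorem t51_A00pm_213_s3 : ∃ t, chk3 f_A00pm_213_s3 t 7 14 1 = true := ex3_a k30_A00pm_213_s3 k31_A00pm_213_s3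

theorem t52_A00pm_213_s3 : ∃ t, chk3 f_A00pm_213_s3 t 7 7 1 = true := ex3_b t51_A00pm_213_s3 t50_A00pm_213_s3

theorem t53_A00pm_213_s3 : ∃ t, chk3 f_A00pm_213_s3 t 7 3 1 = true := ex3_b k29_A00pm_213_s3 t52_A00pm_213_s3

theorem t54_A00pm_213_s3 : ∃ t, chk3 f_A00pm_213_s3 t 27 124 1 = true := ex3_a k25_A00pm_213_s3 k26_A00pm_213_s3

theorem t55_A00pm_213_s3 : ∃ t, chk3 f_A00pm_213_s3 t 27 62 1 = true := ex3_b t54_A00pm_213_s3 k27_A00pm_213_s3

theorem t56_A00pm_213_s3 : ∃ t, chk3 f_A00pm_213_s3 t 13 62 1 = true := ex3_a k24_A00pm_213_s3 t55_A00pm_213_s3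

theorem t57_A00pm_213_s3 : ∃ t, chk3 f_A00pm_213_s3 t 6 62 1 = true := ex3_a k23_A00pm_213_s3 t56_A00pm_213_s3

theorem t58_A00pm_213_s3 : ∃ t, chk3 f_A00pm_213_s3 t 6 31 1 = true := ex3_b t57_A00pm_213_s3 k28_A00pm_213_s3

theorem t59_A00pm_213_s3 : ∃ t, chk3 f_A00pm_213_s3 t 13 61 1 = true := ex3_a k21_A00pm_213_s3 k22_A00pm_213_s3

theorem t60_A00pm_213_s3 : ∃ t, chk3 f_A00pm_213_s3 t 13 30 1 = true := ex3_b k20_A00pm_213_s3 t59_A00pm_213_s3

theorem t61_A00pm_213_s3 : ∃ t, chk3 f_A00pm_213_s3 t 6 30 1 = true := ex3_a k19_A00pm_213_s3 t60_A00pm_213_s3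

theorem t62_A00pm_213_s3 : ∃ t, chk3 f_A00pm_213_s3 t 6 15 1 = true := ex3_b t61_A00pm_213_s3 t58_A00pm_213_s3

theorem t63_A00pm_213_s3 : ∃ t, chk3 f_A00pm_213_s3 t 12 29 1 = true := ex3_b k16_A00pm_213_s3 k17_A00pm_213_s3

theorem t64_A00pm_213_s3 : ∃ t, chk3 f_A00pm_213_s3 t 6 29 1 = true := ex3_a t63_A00pm_213_s3 k18_A00pm_213_s3

theorem t65_A00pm_213_s3 : ∃ t, chk3 f_A00pm_213_s3 t 13 28 1 = true := ex3_a k14_A00pm_213_s3 k15_A00pm_213_s3

theorem t66_A00pm_213_s3 : ∃ t, chk3 f_A00pm_213_s3 t 12 28 1 = true := ex3_a k12_A00pm_213_s3 k13_A00pm_213_s3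

theorem t67_A00pm_213_s3 : ∃ t, chk3 f_A00pm_213_s3 t 6 28 1 = true := ex3_a t66_A00pm_213_s3 t65_A00pm_213_s3

theorem t68_A00pm_213_s3 : ∃ t, chk3 f_A00pm_213_s3 t 6 14 1 = true := ex3_b t67_A00pm_213_s3 t64_A00pm_213_s3

theorem t69_A00pm_213_s3 : ∃ t, chk3 f_A00pm_213_s3 t 6 7 1 = true := ex3_b t68_A00pm_213_s3 t62_A00pm_213_s3

theorem t70_A00pm_213_s3 : ∃ t, chk3 f_A00pm_213_s3 t 6 3 1 = true := ex3_b k11_A00pm_213_s3 t69_A00pm_213_s3

theorem t71_A00pm_213_s3 : ∃ t, chk3 f_A00pm_213_s3 t 3 3 1 = true := ex3_a t70_A00pm_213_s3 t53_A00pm_213_s3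

theorem t72_A00pm_213_s3 : ∃ t, chk3 f_A00pm_213_s3 t 3 1 1 = true := ex3_b k10_A00pm_213_s3 t71_A00pm_213_s3

theorem t73_A00pm_213_s3 : ∃ t, chk3 f_A00pm_213_s3 t 11 14 1 = true := ex3_b k7_A00pm_213_s3 k8_A00pm_213_s3

theorem t74_A00pm_213_s3 : ∃ t, chk3 f_A00pm_213_s3 t 5 14 1 = true := ex3_a k6_A00pm_213_s3 t73_A00pm_213_s3

theorem t75_A00pm_213_s3 : ∃ t, chk3 f_A00pm_213_s3 t 2 14 1 = true := ex3_a k5_A00pm_213_s3 t74_A00pm_213_s3

theorem t76_A00pm_213_s3 : ∃ t, chk3 f_A00pm_213_s3 t 2 7 1 = true := ex3_b t75_A00pm_213_s3 k9_A00pm_213_s3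

theorem t77_A00pm_213_s3 : ∃ t, chk3 f_A00pm_213_s3 t 5 13 1 = true := ex3_b k3_A00pm_213_s3 k4_A00pm_213_s3

theorem t78_A00pm_213_s3 : ∃ t, chk3 f_A00pm_213_s3 t 2 13 1 = true := ex3_a k2_A00pm_213_s3 t77_A00pm_213_s3

theorem t79_A00pm_213_s3 : ∃ t, chk3 f_A00pm_213_s3 t 2 6 1 = true := ex3_b k1_A00pm_213_s3 t78_A00pm_213_s3

theorem t80_A00pm_213_s3 : ∃ t, chk3 f_A00pm_213_s3 t 2 3 1 = true := ex3_b t79_A00pm_213_s3 t76_A00pm_213_s3

theorem t81_A00pm_213_s3 : ∃ t, chk3 f_A00pm_213_s3 t 2 1 1 = true := ex3_b k0_A00pm_213_s3 t80_A00pm_213_s3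

theorem t82_A00pm_213_s3 : ∃ t, chk3 f_A00pm_213_s3 t 1 1 1 = true := ex3_a t81_A00pm_213_s3 t72_A00pm_213_s3

theorem c_A00pm_213_s3 : CertF 0 536870912 536870912 536870912 649613803 48318383 true true false .pnn 2 1 3
    ndB0q2 ndB0q1 pcB3 cut_A00pm_213_s3 xt_A00pm_213_s3 :=
  certF1 (fam := true) (s1 := true) (s2 := false) (a := 2) (b := 1) (c := 3) (cn := .pnn) (n1 := ndB0q2) (n2 := ndB0q1) (pc := pcB3) (cut := cut_A00pm_213_s3) (xt := xt_A00pm_213_s3) (P1 := 0) (W1 := 536870912) (P2 := 536870912) (W2 := 536870912) (P3 := 649613803) (W3 := 48318383)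
    rfl (fun _ => rfl) t82_A00pm_213_s3

theorem s_A00pm_213_s3 {κ x : ℝ} (hκ : κ * h0 = ken x) (hx : ((649613803 : ℕ) : ℝ) / S ≤ x)
    (hx' : x ≤ (((649613803 : ℕ) : ℝ) + (48318383 : ℕ)) / S)
    (H : CutA (VFD κ) PP tK tL pcB (Cut.of [[⟨0, 1, 0, 67108864⟩, ⟨1, 1, 0, 67108864⟩, ⟨2, 2, 0, 16777216⟩], [⟨0, 1, 0, 33554432⟩, ⟨1, 0, 1, 20971520⟩, ⟨2, 1, 1, 20971520⟩]]) 2 1 3 0 0 (sgb true) (sgb false) x) :
    AltA (VFD κ) PP tK tL pcB [⟨4, 0, 0, 2845415833⟩] 2 1 3 0 0 (sgb true) (sgb false) x :=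
  strip_altAD (m := 2845415833) false rfl hκ (SH.κ0 hκ (SH.hx1 hx).le (SH.hx2 hx').le) (SH.hx1 hx).le (SH.hx2 hx') (covB02).cov (covB01).cov hx hx' c_A00pm_213_s3 H ((okx6 hx hx').extA (T := tt) (okx hx hx') (sideB hx hx') hκ rfl rfl (.O 2 true) (.O 1 false) (Or.inr rfl))

noncomputable def cut_A00mm_001_s1 : Cut := Cut.of [[⟨4, 0, 0, 1449551462⟩]]

noncomputable def f_A00mm_001_s1 : ℕ → ℕ → ℕ → ℕ → Bool := onCell 0 536870912 0 536870912 649613803 48318383
    (rowF 0 true false false .up 0 0 1 (qsf 0 536870912 0 536870912 1) ndB0q0 ndB0q0 pcB1 cut_A00mm_001_s1 Ext.none)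

def k0_A00mm_001_s1 : ∃ t, chk3 f_A00mm_001_s1 t 1 1 1 = true :=
  ⟨(l 4), by decide +kernel⟩

theorem c_A00mm_001_s1 : CertF 0 536870912 0 536870912 649613803 48318383 true false false .up 0 0 1
    ndB0q0 ndB0q0 pcB1 cut_A00mm_001_s1 Ext.none :=
  certF0 (fam := true) (s1 := false) (s2 := false) (a := 0) (b := 0) (c := 1) (cn := .up) (n1 := ndB0q0) (n2 := ndB0q0) (pc := pcB1) (cut := cut_A00mm_001_s1) (xt := Ext.none) (P1 := 0) (W1 := 536870912) (P2 := 0) (W2 := 536870912) (P3 := 649613803) (W3 := 48318383)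
    rfl k0_A00mm_001_s1

theorem s_A00mm_001_s1 {κ x : ℝ} (hκ : κ * h0 = ken x) (hx : ((649613803 : ℕ) : ℝ) / S ≤ x)
    (hx' : x ≤ (((649613803 : ℕ) : ℝ) + (48318383 : ℕ)) / S) :
    AltA (VFD κ) PP tK tL pcB [⟨3, 0, 0, 1449551462⟩] 0 0 1 0 0 (sgb false) (sgb false) x :=
  strip_altAD (m := 1449551462) true rfl hκ (SH.κ0 hκ (SH.hx1 hx).le (SH.hx2 hx').le) (SH.hx1 hx).le (SH.hx2 hx') (covB00).cov (covB00).cov hx hx' c_A00mm_001_s1 cutA_nil (noExt_A)

noncomputable def cut_A00mm_001_s3 : Cut := Cut.of [[⟨3, 0, 0, 2845415833⟩]]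

noncomputable def f_A00mm_001_s3 : ℕ → ℕ → ℕ → ℕ → Bool := onCell 0 536870912 0 536870912 649613803 48318383
    (rowF 0 true false false .up 0 0 1 (qsf 0 536870912 0 536870912 1) ndB0q0 ndB0q0 pcB1 cut_A00mm_001_s3 Ext.none)

def k0_A00mm_001_s3 : ∃ t, chk3 f_A00mm_001_s3 t 1 1 1 = true :=
  ⟨(l 4), by decide +kernel⟩

theorem c_A00mm_001_s3 : CertF 0 536870912 0 536870912 649613803 48318383 true false false .up 0 0 1
    ndB0q0 ndB0q0 pcB1 cut_A00mm_001_s3 Ext.none :=
  certF0 (fam := true) (s1 := false) (s2 := false) (a := 0) (b := 0) (c := 1) (cn := .up) (n1 := ndB0q0) (n2 := ndB0q0) (pc := pcB1) (cut := cut_A00mm_001_s3) (xt := Ext.none) (P1 := 0) (W1 := 536870912) (P2 := 0) (W2 := 536870912) (P3 := 649613803) (W3 := 48318383)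
    rfl k0_A00mm_001_s3

theorem s_A00mm_001_s3 {κ x : ℝ} (hκ : κ * h0 = ken x) (hx : ((649613803 : ℕ) : ℝ) / S ≤ x)
    (hx' : x ≤ (((649613803 : ℕ) : ℝ) + (48318383 : ℕ)) / S) :
    AltA (VFD κ) PP tK tL pcB [⟨4, 0, 0, 2845415833⟩] 0 0 1 0 0 (sgb false) (sgb false) x :=
  strip_altAD (m := 2845415833) false rfl hκ (SH.κ0 hκ (SH.hx1 hx).le (SH.hx2 hx').le) (SH.hx1 hx).le (SH.hx2 hx') (covB00).cov (covB00).cov hx hx' c_A00mm_001_s3 cutA_nil (noExt_A)

noncomputable def cut_A00mm_011_s1 : Cut := Cut.of [[⟨4, 0, 0, 1449551462⟩]]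

noncomputable def f_A00mm_011_s1 : ℕ → ℕ → ℕ → ℕ → Bool := onCell 0 536870912 536870912 536870912 649613803 48318383
    (rowF 0 true false false .pnn 0 1 1 (qsf 0 536870912 536870912 536870912 1) ndB0q0 ndB0q1 pcB1 cut_A00mm_011_s1 Ext.none)

def k0_A00mm_011_s1 : ∃ t, chk3 f_A00mm_011_s1 t 1 1 1 = true :=
  ⟨(l 6), by decide +kernel⟩

theorem c_A00mm_011_s1 : CertF 0 536870912 536870912 536870912 649613803 48318383 true false false .pnn 0 1 1
    ndB0q0 ndB0q1 pcB1 cut_A00mm_011_s1 Ext.none :=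
  certF0 (fam := true) (s1 := false) (s2 := false) (a := 0) (b := 1) (c := 1) (cn := .pnn) (n1 := ndB0q0) (n2 := ndB0q1) (pc := pcB1) (cut := cut_A00mm_011_s1) (xt := Ext.none) (P1 := 0) (W1 := 536870912) (P2 := 536870912) (W2 := 536870912) (P3 := 649613803) (W3 := 48318383)
    rfl k0_A00mm_011_s1

theorem s_A00mm_011_s1 {κ x : ℝ} (hκ : κ * h0 = ken x) (hx : ((649613803 : ℕ) : ℝ) / S ≤ x)
    (hx' : x ≤ (((649613803 : ℕ) : ℝ) + (48318383 : ℕ)) / S) :
    AltA (VFD κ) PP tK tL pcB [⟨3, 0, 0, 1449551462⟩] 0 1 1 0 0 (sgb false) (sgb false) x :=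
  strip_altAD (m := 1449551462) true rfl hκ (SH.κ0 hκ (SH.hx1 hx).le (SH.hx2 hx').le) (SH.hx1 hx).le (SH.hx2 hx') (covB00).cov (covB01).cov hx hx' c_A00mm_011_s1 cutA_nil (noExt_A)

noncomputable def cut_A00mm_011_s3 : Cut := Cut.of [[⟨3, 0, 0, 2845415833⟩]]

noncomputable def f_A00mm_011_s3 : ℕ → ℕ → ℕ → ℕ → Bool := onCell 0 536870912 536870912 536870912 649613803 48318383
    (rowF 0 true false false .pnn 0 1 1 (qsf 0 536870912 536870912 536870912 1) ndB0q0 ndB0q1 pcB1 cut_A00mm_011_s3 Ext.none)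

def k0_A00mm_011_s3 : ∃ t, chk3 f_A00mm_011_s3 t 1 1 1 = true :=
  ⟨(b (l 4) (l 5)), by decide +kernel⟩

theorem c_A00mm_011_s3 : CertF 0 536870912 536870912 536870912 649613803 48318383 true false false .pnn 0 1 1
    ndB0q0 ndB0q1 pcB1 cut_A00mm_011_s3 Ext.none :=
  certF0 (fam := true) (s1 := false) (s2 := false) (a := 0) (b := 1) (c := 1) (cn := .pnn) (n1 := ndB0q0) (n2 := ndB0q1) (pc := pcB1) (cut := cut_A00mm_011_s3) (xt := Ext.none) (P1 := 0) (W1 := 536870912) (P2 := 536870912) (W2 := 536870912) (P3 := 649613803) (W3 := 48318383)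
    rfl k0_A00mm_011_s3

theorem s_A00mm_011_s3 {κ x : ℝ} (hκ : κ * h0 = ken x) (hx : ((649613803 : ℕ) : ℝ) / S ≤ x)
    (hx' : x ≤ (((649613803 : ℕ) : ℝ) + (48318383 : ℕ)) / S) :
    AltA (VFD κ) PP tK tL pcB [⟨4, 0, 0, 2845415833⟩] 0 1 1 0 0 (sgb false) (sgb false) x :=
  strip_altAD (m := 2845415833) false rfl hκ (SH.κ0 hκ (SH.hx1 hx).le (SH.hx2 hx').le) (SH.hx1 hx).le (SH.hx2 hx') (covB00).cov (covB01).cov hx hx' c_A00mm_011_s3 cutA_nil (noExt_A)

noncomputable def cut_A00mm_012_s1 : Cut := Cut.of [[⟨4, 0, 0, 1449551462⟩]]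

noncomputable def f_A00mm_012_s1 : ℕ → ℕ → ℕ → ℕ → Bool := onCell 0 536870912 536870912 536870912 649613803 48318383
    (rowF 0 true false false .pnp 0 1 2 (qsf 0 536870912 536870912 536870912 2) ndB0q0 ndB0q1 pcB2 cut_A00mm_012_s1 Ext.none)

def k0_A00mm_012_s1 : ∃ t, chk3 f_A00mm_012_s1 t 1 1 1 = true :=
  ⟨(l 6), by decide +kernel⟩

theorem c_A00mm_012_s1 : CertF 0 536870912 536870912 536870912 649613803 48318383 true false false .pnp 0 1 2
    ndB0q0 ndB0q1 pcB2 cut_A00mm_012_s1 Ext.none :=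
  certF0 (fam := true) (s1 := false) (s2 := false) (a := 0) (b := 1) (c := 2) (cn := .pnp) (n1 := ndB0q0) (n2 := ndB0q1) (pc := pcB2) (cut := cut_A00mm_012_s1) (xt := Ext.none) (P1 := 0) (W1 := 536870912) (P2 := 536870912) (W2 := 536870912) (P3 := 649613803) (W3 := 48318383)
    rfl k0_A00mm_012_s1

theorem s_A00mm_012_s1 {κ x : ℝ} (hκ : κ * h0 = ken x) (hx : ((649613803 : ℕ) : ℝ) / S ≤ x)
    (hx' : x ≤ (((649613803 : ℕ) : ℝ) + (48318383 : ℕ)) / S) :
    AltA (VFD κ) PP tK tL pcB [⟨3, 0, 0, 1449551462⟩] 0 1 2 0 0 (sgb false) (sgb false) x :=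
  strip_altAD (m := 1449551462) true rfl hκ (SH.κ0 hκ (SH.hx1 hx).le (SH.hx2 hx').le) (SH.hx1 hx).le (SH.hx2 hx') (covB00).cov (covB01).cov hx hx' c_A00mm_012_s1 cutA_nil (noExt_A)

noncomputable def cut_A00mm_012_s3 : Cut := Cut.of [[⟨3, 0, 0, 2845415833⟩]]

noncomputable def f_A00mm_012_s3 : ℕ → ℕ → ℕ → ℕ → Bool := onCell 0 536870912 536870912 536870912 649613803 48318383
    (rowF 0 true false false .pnp 0 1 2 (qsf 0 536870912 536870912 536870912 2) ndB0q0 ndB0q1 pcB2 cut_A00mm_012_s3 Ext.none)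

def k0_A00mm_012_s3 : ∃ t, chk3 f_A00mm_012_s3 t 1 1 1 = true :=
  ⟨(b (l 4) (l 5)), by decide +kernel⟩

theorem c_A00mm_012_s3 : CertF 0 536870912 536870912 536870912 649613803 48318383 true false false .pnp 0 1 2
    ndB0q0 ndB0q1 pcB2 cut_A00mm_012_s3 Ext.none :=
  certF0 (fam := true) (s1 := false) (s2 := false) (a := 0) (b := 1) (c := 2) (cn := .pnp) (n1 := ndB0q0) (n2 := ndB0q1) (pc := pcB2) (cut := cut_A00mm_012_s3) (xt := Ext.none) (P1 := 0) (W1 := 536870912) (P2 := 536870912) (W2 := 536870912) (P3 := 649613803) (W3 := 48318383)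
    rfl k0_A00mm_012_s3

theorem s_A00mm_012_s3 {κ x : ℝ} (hκ : κ * h0 = ken x) (hx : ((649613803 : ℕ) : ℝ) / S ≤ x)
    (hx' : x ≤ (((649613803 : ℕ) : ℝ) + (48318383 : ℕ)) / S) :
    AltA (VFD κ) PP tK tL pcB [⟨4, 0, 0, 2845415833⟩] 0 1 2 0 0 (sgb false) (sgb false) x :=
  strip_altAD (m := 2845415833) false rfl hκ (SH.κ0 hκ (SH.hx1 hx).le (SH.hx2 hx').le) (SH.hx1 hx).le (SH.hx2 hx') (covB00).cov (covB01).cov hx hx' c_A00mm_012_s3 cutA_nil (noExt_A)

noncomputable def cut_A00mm_022_s1 : Cut := Cut.of [[⟨4, 0, 0, 1449551462⟩]]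

noncomputable def f_A00mm_022_s1 : ℕ → ℕ → ℕ → ℕ → Bool := onCell 0 536870912 0 536870912 649613803 48318383
    (rowF 0 true false false .pp 0 2 2 (qsf 0 536870912 0 536870912 2) ndB0q0 ndB0q2 pcB2 cut_A00mm_022_s1 Ext.none)

def k0_A00mm_022_s1 : ∃ t, chk3 f_A00mm_022_s1 t 1 1 1 = true :=
  ⟨(l 5), by decide +kernel⟩

theorem c_A00mm_022_s1 : CertF 0 536870912 0 536870912 649613803 48318383 true false false .pp 0 2 2
    ndB0q0 ndB0q2 pcB2 cut_A00mm_022_s1 Ext.none :=
  certF0 (fam := true) (s1 := false) (s2 := false) (a := 0) (b := 2) (c := 2) (cn := .pp) (n1 := ndB0q0) (n2 := ndB0q2) (pc := pcB2) (cut := cut_A00mm_022_s1) (xt := Ext.none) (P1 := 0) (W1 := 536870912) (P2 := 0) (W2 := 536870912) (P3 := 649613803) (W3 := 48318383)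
    rfl k0_A00mm_022_s1

theorem s_A00mm_022_s1 {κ x : ℝ} (hκ : κ * h0 = ken x) (hx : ((649613803 : ℕ) : ℝ) / S ≤ x)
    (hx' : x ≤ (((649613803 : ℕ) : ℝ) + (48318383 : ℕ)) / S) :
    AltA (VFD κ) PP tK tL pcB [⟨3, 0, 0, 1449551462⟩] 0 2 2 0 0 (sgb false) (sgb false) x :=
  strip_altAD (m := 1449551462) true rfl hκ (SH.κ0 hκ (SH.hx1 hx).le (SH.hx2 hx').le) (SH.hx1 hx).le (SH.hx2 hx') (covB00).cov (covB02).cov hx hx' c_A00mm_022_s1 cutA_nil (noExt_A)

noncomputable def cut_A00mm_022_s3 : Cut := Cut.of [[⟨3, 0, 0, 2845415833⟩]]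

noncomputable def f_A00mm_022_s3 : ℕ → ℕ → ℕ → ℕ → Bool := onCell 0 536870912 0 536870912 649613803 48318383
    (rowF 0 true false false .pp 0 2 2 (qsf 0 536870912 0 536870912 2) ndB0q0 ndB0q2 pcB2 cut_A00mm_022_s3 Ext.none)

def k0_A00mm_022_s3 : ∃ t, chk3 f_A00mm_022_s3 t 1 1 1 = true :=
  ⟨(l 5), by decide +kernel⟩

theorem c_A00mm_022_s3 : CertF 0 536870912 0 536870912 649613803 48318383 true false false .pp 0 2 2
    ndB0q0 ndB0q2 pcB2 cut_A00mm_022_s3 Ext.none :=
  certF0 (fam := true) (s1 := false) (s2 := false) (a := 0) (b := 2) (c := 2) (cn := .pp) (n1 := ndB0q0) (n2 := ndB0q2) (pc := pcB2) (cut := cut_A00mm_022_s3) (xt := Ext.none) (P1 := 0) (W1 := 536870912) (P2 := 0) (W2 := 536870912) (P3 := 649613803) (W3 := 48318383)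
    rfl k0_A00mm_022_s3

theorem s_A00mm_022_s3 {κ x : ℝ} (hκ : κ * h0 = ken x) (hx : ((649613803 : ℕ) : ℝ) / S ≤ x)
    (hx' : x ≤ (((649613803 : ℕ) : ℝ) + (48318383 : ℕ)) / S) :
    AltA (VFD κ) PP tK tL pcB [⟨4, 0, 0, 2845415833⟩] 0 2 2 0 0 (sgb false) (sgb false) x :=
  strip_altAD (m := 2845415833) false rfl hκ (SH.κ0 hκ (SH.hx1 hx).le (SH.hx2 hx').le) (SH.hx1 hx).le (SH.hx2 hx') (covB00).cov (covB02).cov hx hx' c_A00mm_022_s3 cutA_nil (noExt_A)

noncomputable def cut_A00mm_023_s1 : Cut := Cut.of [[⟨4, 0, 0, 1449551462⟩]]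

noncomputable def f_A00mm_023_s1 : ℕ → ℕ → ℕ → ℕ → Bool := onCell 0 536870912 0 536870912 649613803 48318383
    (rowF 0 true false false .up 0 2 3 (qsf 0 536870912 0 536870912 3) ndB0q0 ndB0q2 pcB3 cut_A00mm_023_s1 Ext.none)

def k0_A00mm_023_s1 : ∃ t, chk3 f_A00mm_023_s1 t 1 1 1 = true :=
  ⟨(l 5), by decide +kernel⟩

theorem c_A00mm_023_s1 : CertF 0 536870912 0 536870912 649613803 48318383 true false false .up 0 2 3
    ndB0q0 ndB0q2 pcB3 cut_A00mm_023_s1 Ext.none :=
  certF0 (fam := true) (s1 := false) (s2 := false) (a := 0) (b := 2) (c := 3) (cn := .up) (n1 := ndB0q0) (n2 := ndB0q2) (pc := pcB3) (cut := cut_A00mm_023_s1) (xt := Ext.none) (P1 := 0) (W1 := 536870912) (P2 := 0) (W2 := 536870912) (P3 := 649613803) (W3 := 48318383)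
    rfl k0_A00mm_023_s1

theorem s_A00mm_023_s1 {κ x : ℝ} (hκ : κ * h0 = ken x) (hx : ((649613803 : ℕ) : ℝ) / S ≤ x)
    (hx' : x ≤ (((649613803 : ℕ) : ℝ) + (48318383 : ℕ)) / S) :
    AltA (VFD κ) PP tK tL pcB [⟨3, 0, 0, 1449551462⟩] 0 2 3 0 0 (sgb false) (sgb false) x :=
  strip_altAD (m := 1449551462) true rfl hκ (SH.κ0 hκ (SH.hx1 hx).le (SH.hx2 hx').le) (SH.hx1 hx).le (SH.hx2 hx') (covB00).cov (covB02).cov hx hx' c_A00mm_023_s1 cutA_nil (noExt_A)

noncomputable def cut_A00mm_023_s3 : Cut := Cut.of [[⟨3, 0, 0, 2845415833⟩]]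

noncomputable def f_A00mm_023_s3 : ℕ → ℕ → ℕ → ℕ → Bool := onCell 0 536870912 0 536870912 649613803 48318383
    (rowF 0 true false false .up 0 2 3 (qsf 0 536870912 0 536870912 3) ndB0q0 ndB0q2 pcB3 cut_A00mm_023_s3 Ext.none)

def k0_A00mm_023_s3 : ∃ t, chk3 f_A00mm_023_s3 t 1 1 1 = true :=
  ⟨(l 5), by decide +kernel⟩

theorem c_A00mm_023_s3 : CertF 0 536870912 0 536870912 649613803 48318383 true false false .up 0 2 3
    ndB0q0 ndB0q2 pcB3 cut_A00mm_023_s3 Ext.none :=
  certF0 (fam := true) (s1 := false) (s2 := false) (a := 0) (b := 2) (c := 3) (cn := .up) (n1 := ndB0q0) (n2 := ndB0q2) (pc := pcB3) (cut := cut_A00mm_023_s3) (xt := Ext.none) (P1 := 0) (W1 := 536870912) (P2 := 0) (W2 := 536870912) (P3 := 649613803) (W3 := 48318383)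
    rfl k0_A00mm_023_s3

theorem s_A00mm_023_s3 {κ x : ℝ} (hκ : κ * h0 = ken x) (hx : ((649613803 : ℕ) : ℝ) / S ≤ x)
    (hx' : x ≤ (((649613803 : ℕ) : ℝ) + (48318383 : ℕ)) / S) :
    AltA (VFD κ) PP tK tL pcB [⟨4, 0, 0, 2845415833⟩] 0 2 3 0 0 (sgb false) (sgb false) x :=
  strip_altAD (m := 2845415833) false rfl hκ (SH.κ0 hκ (SH.hx1 hx).le (SH.hx2 hx').le) (SH.hx1 hx).le (SH.hx2 hx') (covB00).cov (covB02).cov hx hx' c_A00mm_023_s3 cutA_nil (noExt_A)

noncomputable def cut_A00mm_101_s1 : Cut := Cut.of [[⟨4, 0, 0, 1449551462⟩], [⟨0, 1, 0, 67108864⟩, ⟨1, 0, 0, 67108864⟩, ⟨2, 1, 0, 67108864⟩]]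

noncomputable def f_A00mm_101_s1 : ℕ → ℕ → ℕ → ℕ → Bool := onCell 536870912 536870912 0 536870912 649613803 48318383
    (rowF 0 true false false .npn 1 0 1 (qsf 536870912 536870912 0 536870912 1) ndB0q1 ndB0q0 pcB1 cut_A00mm_101_s1 Ext.none)

def k0_A00mm_101_s1 : ∃ t, chk3 f_A00mm_101_s1 t 1 1 1 = true :=
  ⟨(l 6), by decide +kernel⟩

theorem c_A00mm_101_s1 : CertF 536870912 536870912 0 536870912 649613803 48318383 true false false .npn 1 0 1
    ndB0q1 ndB0q0 pcB1 cut_A00mm_101_s1 Ext.none :=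
  certF0 (fam := true) (s1 := false) (s2 := false) (a := 1) (b := 0) (c := 1) (cn := .npn) (n1 := ndB0q1) (n2 := ndB0q0) (pc := pcB1) (cut := cut_A00mm_101_s1) (xt := Ext.none) (P1 := 536870912) (W1 := 536870912) (P2 := 0) (W2 := 536870912) (P3 := 649613803) (W3 := 48318383)
    rfl k0_A00mm_101_s1

theorem s_A00mm_101_s1 {κ x : ℝ} (hκ : κ * h0 = ken x) (hx : ((649613803 : ℕ) : ℝ) / S ≤ x)
    (hx' : x ≤ (((649613803 : ℕ) : ℝ) + (48318383 : ℕ)) / S)
    (H : CutA (VFD κ) PP tK tL pcB (Cut.of [[⟨0, 1, 0, 67108864⟩, ⟨1, 0, 0, 67108864⟩, ⟨2, 1, 0, 67108864⟩]]) 1 0 1 0 0 (sgb false) (sgb false) x) :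
    AltA (VFD κ) PP tK tL pcB [⟨3, 0, 0, 1449551462⟩] 1 0 1 0 0 (sgb false) (sgb false) x :=
  strip_altAD (m := 1449551462) true rfl hκ (SH.κ0 hκ (SH.hx1 hx).le (SH.hx2 hx').le) (SH.hx1 hx).le (SH.hx2 hx') (covB01).cov (covB00).cov hx hx' c_A00mm_101_s1 H (noExt_A)

noncomputable def cut_A00mm_101_s3 : Cut := Cut.of [[⟨3, 0, 0, 2845415833⟩], [⟨0, 1, 0, 67108864⟩, ⟨1, 0, 0, 67108864⟩, ⟨2, 1, 0, 67108864⟩]]

noncomputable def f_A00mm_101_s3 : ℕ → ℕ → ℕ → ℕ → Bool := onCell 536870912 536870912 0 536870912 649613803 48318383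
    (rowF 0 true false false .npn 1 0 1 (qsf 536870912 536870912 0 536870912 1) ndB0q1 ndB0q0 pcB1 cut_A00mm_101_s3 Ext.none)

def k0_A00mm_101_s3 : ∃ t, chk3 f_A00mm_101_s3 t 1 1 1 = true :=
  ⟨(a (l 4) (b (a (l 4) (b (a (l 4) (b (a (l 4) (b (l 14) (l 4))) (l 4))) (l 4))) (l 4))), by decide +kernel⟩

theorem c_A00mm_101_s3 : CertF 536870912 536870912 0 536870912 649613803 48318383 true false false .npn 1 0 1
    ndB0q1 ndB0q0 pcB1 cut_A00mm_101_s3 Ext.none :=
  certF0 (fam := true) (s1 := false) (s2 := false) (a := 1) (b := 0) (c := 1) (cn := .npn) (n1 := ndB0q1) (n2 := ndB0q0) (pc := pcB1) (cut := cut_A00mm_101_s3) (xt := Ext.none) (P1 := 536870912) (W1 := 536870912) (P2 := 0) (W2 := 536870912) (P3 := 649613803) (W3 := 48318383)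
    rfl k0_A00mm_101_s3

theorem s_A00mm_101_s3 {κ x : ℝ} (hκ : κ * h0 = ken x) (hx : ((649613803 : ℕ) : ℝ) / S ≤ x)
    (hx' : x ≤ (((649613803 : ℕ) : ℝ) + (48318383 : ℕ)) / S)
    (H : CutA (VFD κ) PP tK tL pcB (Cut.of [[⟨0, 1, 0, 67108864⟩, ⟨1, 0, 0, 67108864⟩, ⟨2, 1, 0, 67108864⟩]]) 1 0 1 0 0 (sgb false) (sgb false) x) :
    AltA (VFD κ) PP tK tL pcB [⟨4, 0, 0, 2845415833⟩] 1 0 1 0 0 (sgb false) (sgb false) x :=
  strip_altAD (m := 2845415833) false rfl hκ (SH.κ0 hκ (SH.hx1 hx).le (SH.hx2 hx').le) (SH.hx1 hx).le (SH.hx2 hx') (covB01).cov (covB00).cov hx hx' c_A00mm_101_s3 H (noExt_A)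

noncomputable def cut_A00mm_102_s1 : Cut := Cut.of [[⟨4, 0, 0, 1449551462⟩], [⟨0, 1, 0, 67108864⟩, ⟨1, 0, 0, 67108864⟩, ⟨2, 1, 0, 67108864⟩]]

noncomputable def f_A00mm_102_s1 : ℕ → ℕ → ℕ → ℕ → Bool := onCell 536870912 536870912 0 536870912 649613803 48318383
    (rowF 0 true false false .npp 1 0 2 (qsf 536870912 536870912 0 536870912 2) ndB0q1 ndB0q0 pcB2 cut_A00mm_102_s1 Ext.none)

def k0_A00mm_102_s1 : ∃ t, chk3 f_A00mm_102_s1 t 1 1 1 = true :=
  ⟨(l 6), by decide +kernel⟩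

theorem c_A00mm_102_s1 : CertF 536870912 536870912 0 536870912 649613803 48318383 true false false .npp 1 0 2
    ndB0q1 ndB0q0 pcB2 cut_A00mm_102_s1 Ext.none :=
  certF0 (fam := true) (s1 := false) (s2 := false) (a := 1) (b := 0) (c := 2) (cn := .npp) (n1 := ndB0q1) (n2 := ndB0q0) (pc := pcB2) (cut := cut_A00mm_102_s1) (xt := Ext.none) (P1 := 536870912) (W1 := 536870912) (P2 := 0) (W2 := 536870912) (P3 := 649613803) (W3 := 48318383)
    rfl k0_A00mm_102_s1

theorem s_A00mm_102_s1 {κ x : ℝ} (hκ : κ * h0 = ken x) (hx : ((649613803 : ℕ) : ℝ) / S ≤ x)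
    (hx' : x ≤ (((649613803 : ℕ) : ℝ) + (48318383 : ℕ)) / S)
    (H : CutA (VFD κ) PP tK tL pcB (Cut.of [[⟨0, 1, 0, 67108864⟩, ⟨1, 0, 0, 67108864⟩, ⟨2, 1, 0, 67108864⟩]]) 1 0 2 0 0 (sgb false) (sgb false) x) :
    AltA (VFD κ) PP tK tL pcB [⟨3, 0, 0, 1449551462⟩] 1 0 2 0 0 (sgb false) (sgb false) x :=
  strip_altAD (m := 1449551462) true rfl hκ (SH.κ0 hκ (SH.hx1 hx).le (SH.hx2 hx').le) (SH.hx1 hx).le (SH.hx2 hx') (covB01).cov (covB00).cov hx hx' c_A00mm_102_s1 H (noExt_A)

noncomputable def cut_A00mm_102_s3 : Cut := Cut.of [[⟨3, 0, 0, 2845415833⟩], [⟨0, 1, 0, 67108864⟩, ⟨1, 0, 0, 67108864⟩, ⟨2, 1, 0, 67108864⟩]]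

noncomputable def f_A00mm_102_s3 : ℕ → ℕ → ℕ → ℕ → Bool := onCell 536870912 536870912 0 536870912 649613803 48318383
    (rowF 0 true false false .npp 1 0 2 (qsf 536870912 536870912 0 536870912 2) ndB0q1 ndB0q0 pcB2 cut_A00mm_102_s3 Ext.none)

def k0_A00mm_102_s3 : ∃ t, chk3 f_A00mm_102_s3 t 1 1 1 = true :=
  ⟨(a (l 4) (b (a (l 4) (a (l 4) (a (l 4) (b (b (b (l 14) (l 4)) (l 4)) (l 4))))) (l 4))), by decide +kernel⟩

theorem c_A00mm_102_s3 : CertF 536870912 536870912 0 536870912 649613803 48318383 true false false .npp 1 0 2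
    ndB0q1 ndB0q0 pcB2 cut_A00mm_102_s3 Ext.none :=
  certF0 (fam := true) (s1 := false) (s2 := false) (a := 1) (b := 0) (c := 2) (cn := .npp) (n1 := ndB0q1) (n2 := ndB0q0) (pc := pcB2) (cut := cut_A00mm_102_s3) (xt := Ext.none) (P1 := 536870912) (W1 := 536870912) (P2 := 0) (W2 := 536870912) (P3 := 649613803) (W3 := 48318383)
    rfl k0_A00mm_102_s3

theorem s_A00mm_102_s3 {κ x : ℝ} (hκ : κ * h0 = ken x) (hx : ((649613803 : ℕ) : ℝ) / S ≤ x)
    (hx' : x ≤ (((649613803 : ℕ) : ℝ) + (48318383 : ℕ)) / S)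
    (H : CutA (VFD κ) PP tK tL pcB (Cut.of [[⟨0, 1, 0, 67108864⟩, ⟨1, 0, 0, 67108864⟩, ⟨2, 1, 0, 67108864⟩]]) 1 0 2 0 0 (sgb false) (sgb false) x) :
    AltA (VFD κ) PP tK tL pcB [⟨4, 0, 0, 2845415833⟩] 1 0 2 0 0 (sgb false) (sgb false) x :=
  strip_altAD (m := 2845415833) false rfl hκ (SH.κ0 hκ (SH.hx1 hx).le (SH.hx2 hx').le) (SH.hx1 hx).le (SH.hx2 hx') (covB01).cov (covB00).cov hx hx' c_A00mm_102_s3 H (noExt_A)

noncomputable def cut_A00mm_112_s1 : Cut := Cut.of [[⟨4, 0, 0, 1449551462⟩]]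

noncomputable def f_A00mm_112_s1 : ℕ → ℕ → ℕ → ℕ → Bool := onCell 536870912 536870912 536870912 536870912 649613803 48318383
    (rowF 0 true false false .dn 1 1 2 (qsf 536870912 536870912 536870912 536870912 2) ndB0q1 ndB0q1 pcB2 cut_A00mm_112_s1 Ext.none)

def k0_A00mm_112_s1 : ∃ t, chk3 f_A00mm_112_s1 t 1 1 1 = true :=
  ⟨(l 4), by decide +kernel⟩

theorem c_A00mm_112_s1 : CertF 536870912 536870912 536870912 536870912 649613803 48318383 true false false .dn 1 1 2
    ndB0q1 ndB0q1 pcB2 cut_A00mm_112_s1 Ext.none :=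
  certF0 (fam := true) (s1 := false) (s2 := false) (a := 1) (b := 1) (c := 2) (cn := .dn) (n1 := ndB0q1) (n2 := ndB0q1) (pc := pcB2) (cut := cut_A00mm_112_s1) (xt := Ext.none) (P1 := 536870912) (W1 := 536870912) (P2 := 536870912) (W2 := 536870912) (P3 := 649613803) (W3 := 48318383)
    rfl k0_A00mm_112_s1

theorem s_A00mm_112_s1 {κ x : ℝ} (hκ : κ * h0 = ken x) (hx : ((649613803 : ℕ) : ℝ) / S ≤ x)
    (hx' : x ≤ (((649613803 : ℕ) : ℝ) + (48318383 : ℕ)) / S) :
    AltA (VFD κ) PP tK tL pcB [⟨3, 0, 0, 1449551462⟩] 1 1 2 0 0 (sgb false) (sgb false) x :=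
  strip_altAD (m := 1449551462) true rfl hκ (SH.κ0 hκ (SH.hx1 hx).le (SH.hx2 hx').le) (SH.hx1 hx).le (SH.hx2 hx') (covB01).cov (covB01).cov hx hx' c_A00mm_112_s1 cutA_nil (noExt_A)

noncomputable def cut_A00mm_112_s3 : Cut := Cut.of [[⟨3, 0, 0, 2845415833⟩]]

noncomputable def f_A00mm_112_s3 : ℕ → ℕ → ℕ → ℕ → Bool := onCell 536870912 536870912 536870912 536870912 649613803 48318383
    (rowF 0 true false false .dn 1 1 2 (qsf 536870912 536870912 536870912 536870912 2) ndB0q1 ndB0q1 pcB2 cut_A00mm_112_s3 Ext.none)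

def k0_A00mm_112_s3 : ∃ t, chk3 f_A00mm_112_s3 t 1 1 1 = true :=
  ⟨(l 4), by decide +kernel⟩

theorem c_A00mm_112_s3 : CertF 536870912 536870912 536870912 536870912 649613803 48318383 true false false .dn 1 1 2
    ndB0q1 ndB0q1 pcB2 cut_A00mm_112_s3 Ext.none :=
  certF0 (fam := true) (s1 := false) (s2 := false) (a := 1) (b := 1) (c := 2) (cn := .dn) (n1 := ndB0q1) (n2 := ndB0q1) (pc := pcB2) (cut := cut_A00mm_112_s3) (xt := Ext.none) (P1 := 536870912) (W1 := 536870912) (P2 := 536870912) (W2 := 536870912) (P3 := 649613803) (W3 := 48318383)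
    rfl k0_A00mm_112_s3

theorem s_A00mm_112_s3 {κ x : ℝ} (hκ : κ * h0 = ken x) (hx : ((649613803 : ℕ) : ℝ) / S ≤ x)
    (hx' : x ≤ (((649613803 : ℕ) : ℝ) + (48318383 : ℕ)) / S) :
    AltA (VFD κ) PP tK tL pcB [⟨4, 0, 0, 2845415833⟩] 1 1 2 0 0 (sgb false) (sgb false) x :=
  strip_altAD (m := 2845415833) false rfl hκ (SH.κ0 hκ (SH.hx1 hx).le (SH.hx2 hx').le) (SH.hx1 hx).le (SH.hx2 hx') (covB01).cov (covB01).cov hx hx' c_A00mm_112_s3 cutA_nil (noExt_A)

noncomputable def cut_A00mm_113_s1 : Cut := Cut.of [[⟨4, 0, 0, 1449551462⟩]]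

noncomputable def f_A00mm_113_s1 : ℕ → ℕ → ℕ → ℕ → Bool := onCell 536870912 536870912 536870912 536870912 649613803 48318383
    (rowF 0 true false false .nn 1 1 3 (qsf 536870912 536870912 536870912 536870912 3) ndB0q1 ndB0q1 pcB3 cut_A00mm_113_s1 Ext.none)

def k0_A00mm_113_s1 : ∃ t, chk3 f_A00mm_113_s1 t 1 1 1 = true :=
  ⟨(l 4), by decide +kernel⟩

theorem c_A00mm_113_s1 : CertF 536870912 536870912 536870912 536870912 649613803 48318383 true false false .nn 1 1 3
    ndB0q1 ndB0q1 pcB3 cut_A00mm_113_s1 Ext.none :=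
  certF0 (fam := true) (s1 := false) (s2 := false) (a := 1) (b := 1) (c := 3) (cn := .nn) (n1 := ndB0q1) (n2 := ndB0q1) (pc := pcB3) (cut := cut_A00mm_113_s1) (xt := Ext.none) (P1 := 536870912) (W1 := 536870912) (P2 := 536870912) (W2 := 536870912) (P3 := 649613803) (W3 := 48318383)
    rfl k0_A00mm_113_s1

theorem s_A00mm_113_s1 {κ x : ℝ} (hκ : κ * h0 = ken x) (hx : ((649613803 : ℕ) : ℝ) / S ≤ x)
    (hx' : x ≤ (((649613803 : ℕ) : ℝ) + (48318383 : ℕ)) / S) :
    AltA (VFD κ) PP tK tL pcB [⟨3, 0, 0, 1449551462⟩] 1 1 3 0 0 (sgb false) (sgb false) x :=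
  strip_altAD (m := 1449551462) true rfl hκ (SH.κ0 hκ (SH.hx1 hx).le (SH.hx2 hx').le) (SH.hx1 hx).le (SH.hx2 hx') (covB01).cov (covB01).cov hx hx' c_A00mm_113_s1 cutA_nil (noExt_A)

noncomputable def cut_A00mm_113_s3 : Cut := Cut.of [[⟨3, 0, 0, 2845415833⟩]]

noncomputable def f_A00mm_113_s3 : ℕ → ℕ → ℕ → ℕ → Bool := onCell 536870912 536870912 536870912 536870912 649613803 48318383
    (rowF 0 true false false .nn 1 1 3 (qsf 536870912 536870912 536870912 536870912 3) ndB0q1 ndB0q1 pcB3 cut_A00mm_113_s3 Ext.none)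

def k0_A00mm_113_s3 : ∃ t, chk3 f_A00mm_113_s3 t 1 1 1 = true :=
  ⟨(l 4), by decide +kernel⟩

theorem c_A00mm_113_s3 : CertF 536870912 536870912 536870912 536870912 649613803 48318383 true false false .nn 1 1 3
    ndB0q1 ndB0q1 pcB3 cut_A00mm_113_s3 Ext.none :=
  certF0 (fam := true) (s1 := false) (s2 := false) (a := 1) (b := 1) (c := 3) (cn := .nn) (n1 := ndB0q1) (n2 := ndB0q1) (pc := pcB3) (cut := cut_A00mm_113_s3) (xt := Ext.none) (P1 := 536870912) (W1 := 536870912) (P2 := 536870912) (W2 := 536870912) (P3 := 649613803) (W3 := 48318383)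
    rfl k0_A00mm_113_s3

theorem s_A00mm_113_s3 {κ x : ℝ} (hκ : κ * h0 = ken x) (hx : ((649613803 : ℕ) : ℝ) / S ≤ x)
    (hx' : x ≤ (((649613803 : ℕ) : ℝ) + (48318383 : ℕ)) / S) :
    AltA (VFD κ) PP tK tL pcB [⟨4, 0, 0, 2845415833⟩] 1 1 3 0 0 (sgb false) (sgb false) x :=
  strip_altAD (m := 2845415833) false rfl hκ (SH.κ0 hκ (SH.hx1 hx).le (SH.hx2 hx').le) (SH.hx1 hx).le (SH.hx2 hx') (covB01).cov (covB01).cov hx hx' c_A00mm_113_s3 cutA_nil (noExt_A)

noncomputable def cut_A00mm_123_s1 : Cut := Cut.of [[⟨4, 0, 0, 1449551462⟩]]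

noncomputable def f_A00mm_123_s1 : ℕ → ℕ → ℕ → ℕ → Bool := onCell 536870912 536870912 0 536870912 649613803 48318383
    (rowF 0 true false false .npn 1 2 3 (qsf 536870912 536870912 0 536870912 3) ndB0q1 ndB0q2 pcB3 cut_A00mm_123_s1 Ext.none)

def k0_A00mm_123_s1 : ∃ t, chk3 f_A00mm_123_s1 t 1 1 1 = true :=
  ⟨(l 6), by decide +kernel⟩

theorem c_A00mm_123_s1 : CertF 536870912 536870912 0 536870912 649613803 48318383 true false false .npn 1 2 3
    ndB0q1 ndB0q2 pcB3 cut_A00mm_123_s1 Ext.none :=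
  certF0 (fam := true) (s1 := false) (s2 := false) (a := 1) (b := 2) (c := 3) (cn := .npn) (n1 := ndB0q1) (n2 := ndB0q2) (pc := pcB3) (cut := cut_A00mm_123_s1) (xt := Ext.none) (P1 := 536870912) (W1 := 536870912) (P2 := 0) (W2 := 536870912) (P3 := 649613803) (W3 := 48318383)
    rfl k0_A00mm_123_s1

theorem s_A00mm_123_s1 {κ x : ℝ} (hκ : κ * h0 = ken x) (hx : ((649613803 : ℕ) : ℝ) / S ≤ x)
    (hx' : x ≤ (((649613803 : ℕ) : ℝ) + (48318383 : ℕ)) / S) :
    AltA (VFD κ) PP tK tL pcB [⟨3, 0, 0, 1449551462⟩] 1 2 3 0 0 (sgb false) (sgb false) x :=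
  strip_altAD (m := 1449551462) true rfl hκ (SH.κ0 hκ (SH.hx1 hx).le (SH.hx2 hx').le) (SH.hx1 hx).le (SH.hx2 hx') (covB01).cov (covB02).cov hx hx' c_A00mm_123_s1 cutA_nil (noExt_A)

noncomputable def cut_A00mm_123_s3 : Cut := Cut.of [[⟨3, 0, 0, 2845415833⟩]]

noncomputable def f_A00mm_123_s3 : ℕ → ℕ → ℕ → ℕ → Bool := onCell 536870912 536870912 0 536870912 649613803 48318383
    (rowF 0 true false false .npn 1 2 3 (qsf 536870912 536870912 0 536870912 3) ndB0q1 ndB0q2 pcB3 cut_A00mm_123_s3 Ext.none)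

def k0_A00mm_123_s3 : ∃ t, chk3 f_A00mm_123_s3 t 1 1 1 = true :=
  ⟨(a (l 5) (l 4)), by decide +kernel⟩

theorem c_A00mm_123_s3 : CertF 536870912 536870912 0 536870912 649613803 48318383 true false false .npn 1 2 3
    ndB0q1 ndB0q2 pcB3 cut_A00mm_123_s3 Ext.none :=
  certF0 (fam := true) (s1 := false) (s2 := false) (a := 1) (b := 2) (c := 3) (cn := .npn) (n1 := ndB0q1) (n2 := ndB0q2) (pc := pcB3) (cut := cut_A00mm_123_s3) (xt := Ext.none) (P1 := 536870912) (W1 := 536870912) (P2 := 0) (W2 := 536870912) (P3 := 649613803) (W3 := 48318383)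
    rfl k0_A00mm_123_s3

theorem s_A00mm_123_s3 {κ x : ℝ} (hκ : κ * h0 = ken x) (hx : ((649613803 : ℕ) : ℝ) / S ≤ x)
    (hx' : x ≤ (((649613803 : ℕ) : ℝ) + (48318383 : ℕ)) / S) :
    AltA (VFD κ) PP tK tL pcB [⟨4, 0, 0, 2845415833⟩] 1 2 3 0 0 (sgb false) (sgb false) x :=
  strip_altAD (m := 2845415833) false rfl hκ (SH.κ0 hκ (SH.hx1 hx).le (SH.hx2 hx').le) (SH.hx1 hx).le (SH.hx2 hx') (covB01).cov (covB02).cov hx hx' c_A00mm_123_s3 cutA_nil (noExt_A)

noncomputable def cut_A00mm_202_s1 : Cut := Cut.of [[⟨4, 0, 0, 1449551462⟩], [⟨0, 1, 0, 53687091⟩, ⟨1, 0, 0, 53687091⟩, ⟨2, 1, 0, 53687091⟩]]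

noncomputable def f_A00mm_202_s1 : ℕ → ℕ → ℕ → ℕ → Bool := onCell 0 536870912 0 536870912 649613803 48318383
    (rowF 0 true false false .pp 2 0 2 (qsf 0 536870912 0 536870912 2) ndB0q2 ndB0q0 pcB2 cut_A00mm_202_s1 Ext.none)

def k0_A00mm_202_s1 : ∃ t, chk3 f_A00mm_202_s1 t 1 1 1 = true :=
  ⟨(l 6), by decide +kernel⟩

theorem c_A00mm_202_s1 : CertF 0 536870912 0 536870912 649613803 48318383 true false false .pp 2 0 2
    ndB0q2 ndB0q0 pcB2 cut_A00mm_202_s1 Ext.none :=
  certF0 (fam := true) (s1 := false) (s2 := false) (a := 2) (b := 0) (c := 2) (cn := .pp) (n1 := ndB0q2) (n2 := ndB0q0) (pc := pcB2) (cut := cut_A00mm_202_s1) (xt := Ext.none) (P1 := 0) (W1 := 536870912) (P2 := 0) (W2 := 536870912) (P3 := 649613803) (W3 := 48318383)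
    rfl k0_A00mm_202_s1

theorem s_A00mm_202_s1 {κ x : ℝ} (hκ : κ * h0 = ken x) (hx : ((649613803 : ℕ) : ℝ) / S ≤ x)
    (hx' : x ≤ (((649613803 : ℕ) : ℝ) + (48318383 : ℕ)) / S)
    (H : CutA (VFD κ) PP tK tL pcB (Cut.of [[⟨0, 1, 0, 53687091⟩, ⟨1, 0, 0, 53687091⟩, ⟨2, 1, 0, 53687091⟩]]) 2 0 2 0 0 (sgb false) (sgb false) x) :
    AltA (VFD κ) PP tK tL pcB [⟨3, 0, 0, 1449551462⟩] 2 0 2 0 0 (sgb false) (sgb false) x :=
  strip_altAD (m := 1449551462) true rfl hκ (SH.κ0 hκ (SH.hx1 hx).le (SH.hx2 hx').le) (SH.hx1 hx).le (SH.hx2 hx') (covB02).cov (covB00).cov hx hx' c_A00mm_202_s1 H (noExt_A)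

noncomputable def cut_A00mm_202_s3 : Cut := Cut.of [[⟨3, 0, 0, 2845415833⟩], [⟨0, 1, 0, 53687091⟩, ⟨1, 0, 0, 53687091⟩, ⟨2, 1, 0, 53687091⟩]]

noncomputable def xt_A00mm_202_s3 : Ext := strExt6 dd true false false .u2 .u0m .s2m .pp 2 0 2 rfl rfl gl2 vv ww ndB0q2 ndB0q0

noncomputable def f_A00mm_202_s3 : ℕ → ℕ → ℕ → ℕ → Bool := onCell 0 536870912 1073741824 536870912 649613803 48318383
    (rowF 1 true false false .pp 2 0 2 (qsf 0 536870912 0 536870912 2) ndB0q2 ndB0q0 pcB2 cut_A00mm_202_s3 xt_A00mm_202_s3)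

def k0_A00mm_202_s3 : ∃ t, chk3 f_A00mm_202_s3 t 2 2 1 = true :=
  ⟨(b (l 6) (a (l 6) (b (l 6) (a (l 6) (a (l 6) (b (b (l 6) (a (l 6) (b (l 16574224) (l 16580488)))) (b (a (l 16574432) (l 16594896)) (a (l 16585976) (l 16601592))))))))), by decide +kernel⟩

def k1_A00mm_202_s3 : ∃ t, chk3 f_A00mm_202_s3 t 6 4 1 = true :=
  ⟨(b (l 1) (a (b (l 1) (a (l 6) (b (l 6) (a (l 6) (c (b (l 16577472) (l 16582704)) (b (c (l 16575792) (l 16574288)) (l 16582912))))))) (b (a (b (l 1) (b (a (l 1) (a (l 1) (b (l 1) (l 16583336)))) (a (a (l 1) (b (l 1) (l 16574152))) (a (b (l 16578584) (l 16583096)) (a (l 16598312) (l 16592608)))))) (b (b (l 1) (a (b (l 1) (l 16609712)) (a (b (l 16599768) (l 16604640)) (b (l 16611016) (l 16615856))))) (a (b (a (b (l 16588432) (l 16593136)) (a (l 1066340879) (l 16603664))) (a (l 16600000) (l 16610216))) (a (b (l 16611752) (l 16620896)) (b (l 16622928) (l 16632024)))))) (b (b (b (a (a (a (l 6) (l 16578552)) (a (l 16587496) (l 16596856)))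 (a (l 16611736) (l 16633064))) (a (a (c (l 16580200) (l 16576704)) (c (l 16598088) (l 16594648))) (a (l 16616048) (l 16637376)))) (a (c (a (l 16586232) (l 16604184)) (a (c (l 16584016) (l 16582232)) (c (l 16601968) (l 16600216)))) (a (a (l 16617264) (l 16627496)) (c (l 16645024) (l 16647512))))) (b (a (a (c (l 16593968) (a (l 16587144) (l 16595744))) (c (l 16612048) (c (l 16610200) (l 16608680)))) (a (a (c (l 16626616) (l 16624056)) (l 16646192)) (a (l 16656904) (l 16668056)))) (a (a (a (l 16596208) (l 16604888)) (a (l 16613976) (l 16623472))) (a (a (l 16633376) (l 16643704)) (a (l 1066408463) (l 1066298895))))))))), by decide +kernel⟩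

def k2_A00mm_202_s3 : ∃ t, chk3 f_A00mm_202_s3 t 7 8 1 = true :=
  ⟨(a (b (l 1) (a (b (l 1) (a (l 1) (b (l 1) (a (b (l 1) (a (l 16629552) (l 16636056))) (b (b (l 16639720) (l 16642264)) (l 16646040)))))) (a (b (l 1) (a (b (b (l 1) (b (l 16648376) (l 16650936))) (b (l 16654736) (l 16659720))) (b (b (a (l 16655168) (c (l 16664208) (l 16660624))) (l 16663904)) (b (l 16668904) (l 16673824))))) (b (l 14) (b (a (b (l 16673552) (l 16678576)) (b (l 16688736) (l 16693688))) (a (b (l 16683512) (l 16688368)) (b (l 16698552) (l 16713832)))))))) (b (l 14) (a (a (b (l 14) (a (a (a (b (l 1064837135) (l 1064929295)) (b (l 1064809487) (l 1064901135))) (a (b (l 1064781839) (l 1064872975)) (b (l 1064753679) (l 1064844815)))) (a (b (b (l 16716360) (l 16721184)) (b (l 16725936) (l 16735872))) (a (b (l 1064668687) (l 1064757775)) (b (l 1064639503) (l 1064728591)))))) (b (l 14) (a (a (a (b (l 1064611343) (l 1064699407)) (b (l 1065119759) (l 1064670223))) (a (b (b (l 16744296)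 (l 16749032)) (l 1064641039)) (b (a (l 1064534543) (l 1064520719)) (l 1065148943)))) (a (a (a (b (l 1064506383) (l 1064591887)) (b (l 1064492559) (l 1064578063))) (a (b (l 1064478735) (l 1064563727)) (b (l 1064464911) (l 1064549391)))) (a (a (b (l 1064451087) (l 1064535055)) (b (l 1064437263) (l 1064521231))) (a (b (l 1064423439) (l 1064506895)) (b (l 1064409615) (l 1064493071)))))))) (b (l 14) (a (a (a (a (a (b (l 1064396303) (l 1064478735)) (b (l 1064382479) (l 1064464911))) (a (b (l 1064368655) (l 1064450575)) (b (l 1064355343) (l 1064436751)))) (b (b (a (a (l 1064320015) (l 1064306703)) (a (l 1064292879) (l 1064279567))) (a (a (l 1064362511) (l 1064349199)) (l 4))) (l 4))) (l 4)) (l 4)))))), by decide +kernel⟩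

def k3_A00mm_202_s3 : ∃ t, chk3 f_A00mm_202_s3 t 28 9 1 = true :=
  ⟨(b (a (a (b (b (b (l 1) (l 16628312)) (l 16625136)) (b (l 16634552) (l 16643616))) (b (b (b (c (l 16627240) (l 16622840)) (l 16630040)) (l 16647776)) (b (l 16646632) (l 16655656)))) (b (a (b (c (l 16642208) (l 16638264)) (c (l 16651616) (l 16648096))) (b (c (l 16655184) (l 16651600)) (c (l 16664504) (l 16661328)))) (a (b (l 16669656) (l 16678632)) (c (b (l 16673528) (l 16682280)) (b (l 16670720) (l 16679816)))))) (a (c (b (b (l 16659696) (l 16678504)) (a (l 1066244623) (l 1066139151))) (b (a (b (l 16650856) (l 16659536)) (b (l 16662992) (l 16671664))) (a (b (l 16668008) (l 16676312)) (b (l 16680144) (l 16688472))))) (b (a (b (l 16687336) (l 1066981903)) (c (b (l 16690800) (l 16699136)) (b (l 16688656) (l 16697296)))) (a (b (l 1067016207) (l 1067584015)) (a (l 1066416143) (l 1066362383)))))), by decide +kernel⟩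

def k4_A00mm_202_s3 : ∃ t, chk3 f_A00mm_202_s3 t 29 9 1 = true :=
  ⟨(a (b (a (b (c (b (l 16668584) (l 16677832)) (b (l 16665384) (l 16675008))) (c (b (l 16686792) (l 16695512)) (b (l 16684320) (l 16693360)))) (a (b (b (l 16677480) (l 16686848)) (b (l 16706424) (l 16715272))) (b (b (l 16689840) (l 16704408)) (a (l 1065991695) (l 1065963535))))) (b (a (c (b (l 16704016) (l 16722840)) (b (l 16712656) (l 16716032))) (a (a (l 1065602063) (l 1065573903)) (a (l 1065545743) (l 1065518095)))) (b (a (c (l 1066345999) (l 1067238415)) (a (l 1065645071) (l 1065590799))) (a (a (l 1065789967) (l 1065737231)) (a (l 1065683983) (l 1065631247)))))) (b (a (a (b (b (l 1065218063) (l 1065292303)) (a (l 1065935887) (l 1065907727))) (b (b (l 1065699855) (l 1065236495)) (a (l 1065880079) (l 1066120207)))) (a (b (b (c (l 16707640) (l 16705560)) (l 1065180175)) (a (l 1065823759) (l 1065795087))) (b (b (c (l 16715096) (l 16718480)) (l 1065660431)) (a (l 1065766927) (l 1065738255)))))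 (a (a (a (b (l 1065489935) (l 1065572367)) (b (l 1065461775) (l 1065545743))) (a (b (l 1065433615) (l 1065519119)) (b (l 1065942031) (l 1065492495)))) (b (b (a (l 1065340943) (l 1065283599)) (a (l 1065382927) (l 1065327631))) (a (b (l 1065429007) (l 1065471503)) (b (a (l 1065390095) (l 1065362959)) (l 1065417743))))))), by decide +kernel⟩

def k5_A00mm_202_s3 : ∃ t, chk3 f_A00mm_202_s3 t 15 9 1 = true :=
  ⟨(b (a (a (a (b (a (a (a (l 1065592847) (l 1065578511)) (a (l 1065564175) (l 1065549839))) (a (b (l 1064954383) (l 1065025551)) (b (l 1064925711) (l 1064996367)))) (b (a (l 1066202639) (c (l 1065189903) (l 1066018831))) (a (l 1065718799) (l 1066734095)))) (b (a (a (b (l 1064896527) (l 1064967183)) (b (l 1064866831) (l 1064937487))) (a (b (l 1064837135) (l 1064907279)) (b (l 1064807439) (l 1064877071)))) (b (a (a (l 1065029135) (l 1064999439)) (a (l 1064969231) (l 1064938511))) (a (a (l 1065082383) (l 1065051663)) (a (l 1065022479) (l 1064991759))))))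 (a (b (a (a (b (l 1064777743) (l 1064846863)) (b (l 1064748047) (l 1064816655))) (a (b (l 1064718351) (l 1064786959)) (b (l 1064689167) (l 1064756751)))) (a (a (b (l 1064907791) (l 1064961039)) (a (l 1064913423) (l 1064898575))) (b (a (l 1064846863) (l 1064816655)) (l 4)))) (b (a (a (b (l 1065733135) (l 1064727055)) (b (c (l 1064766991) (l 1065562639)) (l 1065233935))) (b (a (c (l 1064738319) (l 1066338319)) (a (l 1064581135) (l 1064566799))) (l 4))) (l 4)))) (l 4)) (a (a (a (b (b (a (l 1065762319) (c (l 1065817615) (l 1066662415))) (a (c (l 1065377295) (l 1065697295)) (l 1065754127))) (b (a (c (l 1065418255) (l 1065749519)) (c (l 1065365519) (l 1066230287))) (a (l 1066437647) (l 4)))) (b (a (a (a (l 1066219535) (l 1066206735)) (b (l 1065100303) (l 1065150991))) (a (b (l 1065070095) (l 4)) (b (l 1065040399) (l 4)))) (l 4))) (l 4)) (l 4))), by decide +kernel⟩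

def k6_A00mm_202_s3 : ∃ t, chk3 f_A00mm_202_s3 t 12 5 1 = true :=
  ⟨(b (b (a (l 6) (a (b (b (l 6) (a (l 6) (c (l 16578048) (l 16578544)))) (b (a (l 6) (l 16587920)) (a (l 16578120) (l 16597992)))) (b (a (b (l 16583008) (l 16587488)) (b (l 16592488) (l 16597168))) (b (c (l 16597224) (l 16602720)) (a (l 16607752) (l 16612568)))))) (a (a (b (l 6) (b (l 6) (b (l 6) (l 16572272)))) (a (b (l 6) (b (l 16576440) (l 16583504))) (b (b (b (l 6) (l 16575040)) (b (l 16577536) (b (l 16579448) (l 16580992)))) (b (l 16585520) (l 16592616))))) (a (b (b (a (b (l 16581776) (l 16584296)) (c (l 16593328) (l 16592264))) (a (b (l 16586880) (b (l 16588856) (l 16590416))) (b (l 16596576) (a (l 16596928) (l 16601904))))) (b (a (l 16594960) (l 16604768)) (a (l 16602088) (l 16611936)))) (a (b (b (l 16607776) (a (l 1067274767) (l 1066709007))) (b (l 16614936) (l 16622128))) (b (b (l 16618008) (c (l 16619160) (l 1067188751))) (b (l 16625392) (l 16632624))))))) (a (b (b (a (b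 (l 16577376) (l 16584040)) (b (l 16600208) (l 16601736))) (a (b (l 16590560) (l 16596960)) (b (l 16608384) (l 16620168)))) (b (a (b (l 16613752) (l 16609488)) (b (l 16621392) (l 16627792))) (c (a (l 16661328) (l 16637848)) (a (l 16618440) (l 16658104))))) (b (a (b (b (a (l 16609072) (l 16618952)) (a (l 16615920) (l 16625856))) (b (a (l 16622664) (l 16632664)) (l 16634352))) (b (a (b (l 16629200) (l 16636152)) (b (l 16639736) (l 16646744))) (a (l 16646432) (l 1066544143)))) (a (b (a (l 16639176) (l 16654616)) (c (l 16668240) (c (l 16667808) (l 16667888)))) (a (b (l 1066522127) (l 1066413583)) (b (l 1066995727) (l 1066885135))))))), by decide +kernel⟩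

def k7_A00mm_202_s3 : ∃ t, chk3 f_A00mm_202_s3 t 13 10 1 = true :=
  ⟨(a (b (b (b (c (a (l 16606632) (l 16627040)) (a (l 16607072) (l 16625368))) (c (a (l 16611848) (l 16632656)) (a (l 16612888) (l 16633000)))) (b (a (c (l 16617304) (l 16617904)) (c (l 16638456) (l 16639304))) (a (a (l 16617632) (l 16628200)) (c (l 16644480) (l 16644928))))) (a (b (a (b (l 1066950159) (c (l 16629664) (l 1066598415))) (b (l 1066893327) (c (l 16640440) (l 1066545679)))) (a (a (l 1066862607) (l 1066565135)) (b (l 16647064) (l 16659600)))) (b (a (b (l 16644976) (c (l 16661960) (l 1066493967))) (c (l 1066483727) (l 1066751503))) (a (b (l 16663512) (l 16665608)) (b (l 16669736) (l 16677104)))))) (b (b (a (c (l 16653424) (b (l 16645336) (l 16653152))) (c (b (l 16668736) (l 16676376)) (a (l 1066648591) (l 1066269711)))) (b (a (c (l 16660704) (l 16660848)) (c (l 16683912) (l 16682896))) (a (c (l 16667040) (l 16667680)) (c (l 16690616) (l 16690648))))) (a (b (a (c (l 1066424335)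 (l 1066433551)) (l 1066368015)) (a (l 1066355215) (l 1066301967))) (a (b (l 1066313743) (l 1066248719)) (b (l 1066258447) (l 1066193935)))))), by decide +kernel⟩

def k8_A00mm_202_s3 : ∃ t, chk3 f_A00mm_202_s3 t 13 11 1 = true :=
  ⟨(a (a (a (b (b (b (l 16655768) (l 16657584)) (l 1066483215)) (b (l 1066932751) (l 1067088399))) (b (b (l 1066485775) (l 1066423311)) (b (l 1066870287) (a (l 1066233359) (l 1066197519))))) (a (b (b (l 1066427407) (l 1066363407)) (b (l 1066808335) (a (l 1066162191) (l 1066126863)))) (b (b (l 1066370575) (l 1066305039)) (b (l 1067277327) (a (l 1066091535) (l 1066056719)))))) (a (b (b (a (l 1066315791) (l 1066262031)) (a (l 1066248207) (l 1066183183))) (a (b (l 1066666511) (a (l 1066022415) (l 1065989135))) (b (l 1066594319) (b (l 1065968143) (l 1065910799))))) (b (a (b (l 1066207759) (l 1066104335)) (b (l 1066147343) (l 1066024463))) (c (b (a (l 1066010639) (l 1065943567)) (a (l 1065906703) (l 1065846799))) (a (b (c (l 1065964047)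 (l 1065641999)) (c (l 1066384911) (l 1066859535))) (b (l 1065858575) (a (l 1065764367) (l 1065726479)))))))), by decide +kernel⟩

def k9_A00mm_202_s3 : ∃ t, chk3 f_A00mm_202_s3 t 7 5 1 = true :=
  ⟨(b (a (a (b (a (a (b (c (l 16689920) (l 1066160655)) (l 1066259471)) (b (c (l 16712504) (l 1066052111)) (l 1066159119))) (a (b (a (l 1066044943) (l 1065993231)) (l 1066059279)) (b (a (l 1065942031) (l 1065890319)) (l 1065958927)))) (a (a (b (l 1066202127) (l 1066138639)) (b (l 1066144783) (l 1066082319))) (a (b (l 1067150863) (l 1067075599)) (b (l 1065980431) (c (l 1065935375) (l 1066941455)))))) (a (b (b (a (a (l 1065838607) (l 1065786895)) (a (l 1065735183) (l 1065682959))) (a (l 1066394639) (l 1066830351))) (b (a (l 1065883151) (l 1066322447)) (a (l 1065817103) (l 4)))) (b (a (a (b (l 1065631247) (l 1065685007)) (b (l 1065579023) (l 1065634319))) (b (a (l 1065526287) (l 1065473551)) (l 4))) (l 4)))) (l 4)) (a (a (a (a (b (b (l 1066061839) (l 1065944079))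 (b (l 1065835535) (l 4))) (b (b (l 1065975311) (l 1065862671)) (l 4))) (b (b (a (l 1065888783) (l 1067280399)) (a (l 1065780239) (l 4))) (l 4))) (l 4)) (l 4))), by decide +kernel⟩

def k10_A00mm_202_s3 : ∃ t, chk3 f_A00mm_202_s3 t 2 6 1 = true :=
  ⟨(a (l 6) (a (b (a (l 6) (b (l 6) (l 16620544))) (a (b (a (l 6) (b (l 6) (l 16594160))) (b (a (l 6) (l 16608592)) (l 16618800))) (b (b (l 16596552) (a (l 16604120) (l 16615544))) (a (c (l 16627032) (l 16708552)) (b (l 16630168) (l 16645184)))))) (b (a (b (b (l 16607600) (l 16628592)) (c (l 16645312) (a (l 16596440) (l 16631480)))) (a (b (b (l 16597280) (l 16608560)) (b (l 16641032) (l 16653368))) (b (b (l 16634328) (a (l 16620816) (l 16629496))) (b (c (l 16637768) (l 16658144)) (c (l 16650328) (l 16671080)))))) (a (b (a (b (l 16614992) (l 16670448)) (b (l 16629352) (b (l 16639456) (l 16646768)))) (a (b (l 16643240) (l 16700312)) (b (c (l 16658128) (l 16657544)) (c (l 16673752) (l 16704008))))) (b (a (b (c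 (l 16645264) (l 16645664)) (b (a (l 16651536) (l 16681168)) (l 16694720))) (b (c (l 16684504) (c (l 16663616) (l 16684584))) (c (b (l 16694680) (l 16702320)) (b (c (l 16674216) (l 16674216)) (l 16692136))))) (a (b (c (l 16685136) (b (l 16670600) (l 16699080))) (a (c (l 16727936) (l 1066690575)) (b (l 16711600) (l 1066611727)))) (b (a (b (l 16705424) (l 1066434063)) (b (a (l 16691680) (l 16717616)) (l 1066310159))) (a (b (l 1066452495) (l 1066479119)) (b (l 1066326031) (l 1066351119)))))))))), by decide +kernel⟩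

def k11_A00mm_202_s3 : ∃ t, chk3 f_A00mm_202_s3 t 4 14 1 = true :=
  ⟨(a (l 6) (a (b (l 6) (b (l 16630672) (l 16645384))) (b (b (l 16616432) (l 16631648)) (b (l 16646840) (l 16661648))))), by decide +kernel⟩

def k12_A00mm_202_s3 : ∃ t, chk3 f_A00mm_202_s3 t 10 14 1 = true :=
  ⟨(a (b (b (l 16633912) (l 16649240)) (b (l 16664432) (l 16679216))) (b (a (c (l 16741968) (l 16696600)) (b (l 16660464) (l 16717728))) (a (b (l 16679208) (l 16693896)) (b (l 16732776) (l 16736920))))), by decide +kernel⟩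

def k13_A00mm_202_s3 : ∃ t, chk3 f_A00mm_202_s3 t 22 14 1 = true :=
  ⟨(b (a (b (c (l 16674688) (l 16672624)) (c (l 16690096) (l 16729848))) (b (b (l 16705784) (l 16713496)) (c (c (l 16726072) (l 16725320)) (b (l 16699376) (l 16727936))))) (a (b (c (l 16726104) (l 16734392)) (b (l 16735984) (l 16743152))) (a (b (l 1067886607) (l 1067512335)) (b (b (l 16729736) (l 1067226127)) (b (l 1067303951) (l 1067388943)))))), by decide +kernel⟩

def k14_A00mm_202_s3 : ∃ t, chk3 f_A00mm_202_s3 t 23 14 1 = true :=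
  ⟨(b (a (b (a (c (l 16722592) (l 1067292175)) (b (l 1066648591) (l 1066690575))) (c (a (l 1066972687) (l 1066820623)) (a (b (l 16712048) (l 16730128)) (c (l 1066731023) (l 1067204623))))) (b (a (c (l 1066571279) (b (l 1066468879) (l 1066501647))) (b (l 1066382351) (l 1066417167))) (c (a (c (l 1066699279) (l 1066645007)) (c (l 1066555407) (l 1066503695))) (a (c (l 1066587663) (b (l 1066509327) (l 1066548239))) (a (l 1066455055) (l 1066388495)))))) (a (a (b (c (l 1067110415) (c (l 1066992143) (l 1066915343))) (b (c (l 1067230735) (l 1067052047)) (l 1067221007))) (b (c (c (l 1066988047) (l 1066912271)) (c (l 1066837519) (a (l 1066801679) (l 1067263503)))) (b (b (l 1066958351) (l 1066995215)) (b (l 1067034127) (l 1067075087))))) (b (b (a (c (l 1066760719) (a (l 1066661903) (l 1066589199))) (c (l 1066610703) (a (l 1066517007) (l 1066447375)))) (a (c (c (l 1066864655) (l 1066787855)) (c (l 1066713103) (a (l 1066678287) (l 1066603023)))) (c (a (l 1066708495)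 (c (l 1066670607) (l 1066597391))) (a (a (l 1066582543) (l 1066545679)) (c (l 1066526735) (a (l 1066475023) (l 1066439695))))))) (b (b (a (c (l 1066880015) (c (l 1066758159) (l 1066681359))) (a (c (l 1066758671) (l 1066603023)) (c (l 1066679823) (a (l 1066546191) (a (l 1066518031) (l 1066500111)))))) (b (a (c (l 1066909199) (l 1066742799)) (a (l 1066569231) (a (a (l 1066653711) (l 1066634255)) (c (l 1066684431) (b (l 1066524175) (a (l 1066541583) (l 1066521615))))))) (a (c (l 1066929167) (l 1066759183)) (a (a (l 1066741263) (l 1066700815)) (c (l 1066724367) (a (l 1066582031) (l 1066543119))))))) (b (a (a (l 1066910735) (l 1066829327)) (a (l 1066747919) (a (l 1066687503) (a (l 1066657295) (l 4))))) (a (c (l 1067003407) (l 1066820623)) (a (l 1066785295) (l 4)))))))), by decide +kernel⟩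

def k15_A00mm_202_s3 : ∃ t, chk3 f_A00mm_202_s3 t 2 15 1 = true :=
  ⟨(a (a (b (a (l 6) (b (l 6) (l 16658008))) (a (b (l 6) (a (l 6) (l 16671728))) (b (l 16670744) (l 16682592)))) (a (b (b (l 16659608) (l 16673248)) (b (l 16686120) (l 16698064))) (b (l 16766760) (b (l 16702504) (l 16714416))))) (a (a (b (b (l 16693472) (l 16749000)) (b (l 16761760) (l 16773536))) (b (a (b (l 16708064) (l 16721536)) (b (c (l 16762816) (l 16760256)) (b (l 16729672) (l 16736160)))) (a (b (l 16776088) (l 1069259279)) (b (b (l 16763384) (l 16769400)) (a (l 1069049871) (l 1070515215)))))) (a (b (a (b (a (l 1068041231) (l 1067875343)) (a (l 1068263951) (l 1068094991))) (b (a (l 1067701775) (l 1067528207)) (a (b (l 1067860495) (l 1067973647)) (b (l 1067681807) (l 1067791375))))) (a (b (a (l 1068507151) (b (l 1068275727) (l 1068402191))) (a (b (l 1068699151) (l 1068828175)) (b (l 1068535311) (l 1068673551)))) (b (c (l 1068208655) (l 1068464655)) (b (l 1068256271) (a (l 1068487183)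 (l 4)))))) (b (a (b (a (l 1067355151) (c (l 1067291151) (l 1067082767))) (a (b (l 1067503119) (a (l 1067655183) (l 1067564047))) (b (l 1067324943) (l 4)))) (b (b (a (c (l 1067069967) (a (l 1066917391) (l 1066834959))) (a (b (l 1066824207) (l 4)) (l 4))) (a (l 1067055631) (l 4))) (l 4))) (a (b (a (b (l 1067722767) (l 4)) (l 4)) (l 4)) (l 4)))))), by decide +kernel⟩

def k16_A00mm_202_s3 : ∃ t, chk3 f_A00mm_202_s3 t 12 12 1 = true :=
  ⟨(a (b (a (b (c (l 16631496) (l 16630728)) (c (l 16643752) (l 16664080))) (b (c (l 16671416) (l 16660376)) (c (l 16684216) (c (l 16683768) (l 16673184))))) (a (b (b (l 16673680) (l 16680112)) (c (l 16690496) (c (l 16690280) (l 16679760)))) (b (a (c (l 16671240) (l 16681384)) (c (l 16702624) (l 16691904))) (a (c (l 16705840) (l 16695256)) (b (l 16702416) (l 1066069519)))))) (b (a (b (a (c (l 16665568) (l 16665200)) (c (l 16676128) (l 1066352655))) (a (c (l 16699760) (l 16688944)) (c (l 16700120) (l 1066743823)))) (a (b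 (c (l 16697544) (l 1066277903)) (b (l 1066178575) (l 1066648591))) (b (c (l 16708784) (l 1066742287)) (b (l 1066652687) (l 1066588687))))) (a (b (a (c (l 1066158607) (l 1066684431)) (c (l 1066072079) (l 1066339343))) (a (c (l 1066013711) (l 1066289679)) (c (l 1065925135) (l 1065944591)))) (a (b (b (l 1066583567) (l 1065984015)) (b (l 1065921551) (l 1065858063))) (b (c (l 1065956367) (a (l 1066496527) (l 1066868751))) (c (l 1065834511) (b (l 1065857039) (l 1065798671)))))))), by decide +kernel⟩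

def k17_A00mm_202_s3 : ∃ t, chk3 f_A00mm_202_s3 t 26 12 1 = true :=
  ⟨(b (c (a (a (b (l 1066151439) (l 1066023439)) (b (l 1066086927) (l 1065968655))) (a (b (l 1066027023) (l 1066450447)) (b (l 1065967631) (a (l 1065874447) (l 1065842191))))) (a (b (a (c (l 1066143759) (l 1066116623)) (a (l 1066078223) (l 1066041359))) (a (b (l 1066032143) (l 1065969167)) (b (l 1065962511) (l 1065902095)))) (c (b (a (l 1066003983) (l 1065933839)) (a (b (l 1065911823) (l 1065856015)) (b (l 1065844751) (l 1066330127)))) (b (a (b (l 1065997327) (l 1065931279)) (a (l 1065906703) (l 1065868815))) (a (b (l 1066404367) (a (l 1065826831) (l 1065792015))) (a (b (l 1065812495) (l 1065757199)) (b (l 1065775631) (l 1065722383)))))))) (a (a (b (c (l 1066311183) (b (l 1065910799) (l 1065855503))) (c (b (l 1065823247) (l 1065764367)) (b (l 1065800719) (l 1065745423)))) (b (a (b (l 1065892367) (a (l 1065845775) (l 1065832975))) (c (l 1066654735) (b (l 1065831951) (l 1065780751))))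 (c (c (l 1065747983) (b (l 1065779215) (l 1065724943))) (a (b (l 1065758223) (l 1065705487)) (b (a (l 1065737231) (l 1065722895)) (l 1065678863)))))) (b (c (a (a (l 1065825295) (l 1065801231)) (c (l 1065768463) (l 1066829327))) (a (c (b (a (l 1065820687) (l 1065790991)) (l 1065756175)) (a (b (l 1065775119) (l 1065725455)) (a (l 1065725967) (b (l 1065733647) (l 1065685519))))) (a (b (a (l 1065745423) (l 1065729551)) (l 1065690639)) (b (l 1065705487) (b (l 1065671695) (l 4)))))) (a (a (b (a (b (l 1065755151) (l 1065729551)) (l 1065729551)) (c (l 1065696271) (l 1065651727))) (b (l 1065710607) (l 4))) (l 4))))), by decide +kernel⟩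

def k18_A00mm_202_s3 : ∃ t, chk3 f_A00mm_202_s3 t 27 12 1 = true :=
  ⟨(b (b (b (a (a (l 1066183695) (l 1065854479)) (a (l 1065793039) (l 4))) (a (a (a (l 1065872911) (l 1065842703)) (l 1065262095)) (l 4))) (b (a (c (a (l 1065827855) (l 1065781775)) (a (a (l 1065769487) (l 1065735695)) (c (l 1065719823) (l 1066190351)))) (l 4)) (a (a (a (l 1065766927) (a (l 1065744399) (l 4))) (l 4)) (l 4)))) (a (b (b (a (a (l 1065722895) (l 4)) (l 4)) (l 4)) (l 4)) (l 4))), by decide +kernel⟩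

def k19_A00mm_202_s3 : ∃ t, chk3 f_A00mm_202_s3 t 7 12 1 = true :=
  ⟨(l 4), by decide +kernel⟩

def k20_A00mm_202_s3 : ∃ t, chk3 f_A00mm_202_s3 t 24 13 1 = true :=
  ⟨(b (a (b (a (c (l 16678208) (l 16699224)) (c (l 16709440) (l 16699008))) (c (a (b (l 16709664) (l 16696312)) (b (l 16720152) (l 16727840))) (a (b (l 16710048) (l 16696592)) (b (l 16709992) (l 16717592))))) (b (a (b (l 16705912) (l 16713216)) (c (l 1066509327) (l 1066254863))) (a (b (b (l 1066000911) (l 16722640)) (c (l 16728312) (l 1065973263))) (b (a (l 1065917967) (l 1065869327)) (a (l 1065891343) (l 1065840143)))))) (a (b (a (b (a (l 1066213903) (l 1066156047)) (l 1066190863)) (b (c (l 16725296) (l 16720072)) (c (l 1066077199) (l 1066055695)))) (b (a (l 1066205711) (c (l 1066101775) (l 1066061327))) (a (l 1066229263) (l 1066109967)))) (b (a (b (c (l 1065948175) (l 1065950735)) (a (l 1065988623) (l 1065932303))) (a (b (l 1065876495) (c (l 1065880079) (l 1065858575))) (b (b (l 1065825807)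 (l 1065820687)) (b (l 1065820687) (l 1065824271))))) (b (a (c (l 1066254863) (l 1065948175)) (a (b (l 1065885711) (l 1065893903)) (b (l 1065830927) (l 1065839119)))) (a (b (l 1065988623) (l 1065999375)) (b (c (l 1065892367) (l 1065846799)) (c (l 1065906191) (l 1065854479)))))))), by decide +kernel⟩

def k21_A00mm_202_s3 : ∃ t, chk3 f_A00mm_202_s3 t 25 13 1 = true :=
  ⟨(b (a (a (a (b (l 1065909775) (b (l 1065822223) (l 1065790479))) (b (l 1065868815) (a (l 1066307087) (l 1066285071)))) (b (c (l 1065785871) (l 1065817615)) (b (l 1065717263) (a (l 1065697295) (l 1065656335))))) (b (a (c (l 1065737743) (l 1065757711)) (c (l 1065704463) (l 1066782735))) (c (a (l 1066696207) (l 1065593359)) (a (b (l 1065662991) (l 1065611279)) (l 1065593359))))) (a (b (a (a (b (l 1065635855) (c (b (l 1065767439) (l 1065776655)) (l 1065750031))) (b (l 1065651215) (b (l 1065714191) (a (l 1065731087) (l 1065704975))))) (b (a (l 1065668111) (l 1065615887)) (a (b (l 1065661967)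 (l 1065666063)) (b (l 1065611791) (l 1065614863))))) (a (a (b (b (c (l 1065786383) (l 1065754127)) (b (l 1065782287) (l 1065786383))) (b (b (l 1065790479) (l 1065795087)) (l 1065801743))) (b (c (a (b (l 1065746447) (c (l 1065758735) (l 1065752079))) (b (l 1065719823) (b (l 1065727503) (b (l 1065731599) (l 1065734159))))) (b (l 1065700879) (c (a (l 1065733135) (l 1065706511)) (l 1065688591)))) (c (b (b (a (l 1065765391) (b (l 1065737231) (l 1065739791))) (l 1065757711)) (l 1065766927)) (c (b (l 1065726479) (l 1065733647)) (l 1065695759))))) (a (a (b (a (b (l 1065691151) (b (l 1065695759) (c (c (b (l 1065713679) (l 1065716751)) (l 1065707535)) (l 1065674255)))) (l 1065680911)) (b (b (c (c (a (l 1065721871) (a (a (l 1065713167) (l 1065710095)) (l 4))) (a (l 1065712143) (l 1065698831))) (l 1065670159)) (l 4)) (l 4))) (b (l 1065661455) (l 4))) (b (b (l 1065619983) (l 4)) (l 4))))) (b (b (a (a (l 1065582607) (l 1065561615)) (c (l 1065543183) (l 1065519119)))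 (a (a (b (l 1065652751) (l 1065565199)) (l 4)) (l 4))) (l 4)))), by decide +kernel⟩

def k22_A00mm_202_s3 : ∃ t, chk3 f_A00mm_202_s3 t 13 13 1 = true :=
  ⟨(a (b (a (a (c (b (l 1065671183) (l 1065566735)) (b (l 1065660943) (l 1066087951))) (b (a (l 1065646607) (l 1065626127)) (l 4))) (l 4)) (l 4)) (l 4)), by decide +kernel⟩

def k23_A00mm_202_s3 : ∃ t, chk3 f_A00mm_202_s3 t 7 13 1 = true :=
  ⟨(l 4), by decide +kernel⟩

def k24_A00mm_202_s3 : ∃ t, chk3 f_A00mm_202_s3 t 3 7 1 = true :=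
  ⟨(a (a (b (a (b (b (b (a (a (l 1066257935) (l 1066136079)) (a (l 1066017807) (c (a (l 1065956879) (l 1065899535)) (l 1065867279)))) (a (a (l 1066290191) (l 1066166287)) (a (c (l 1066079759) (l 1066003983)) (c (a (l 1065989647) (c (b (l 1065935887) (l 1065954831)) (l 1065914895))) (l 1065887247))))) (b (a (a (l 1066326031) (l 1066199567)) (a (c (a (l 1066149391) (l 1066087439)) (l 1066029583)) (a (b (l 1066111503) (l 4)) (l 4)))) (a (a (c (l 1066420239) (l 1066310159)) (c (l 1066288655) (l 1066182671))) (a (a (l 1066141199) (l 4)) (l 4))))) (a (a (a (b (c (l 1066532879) (c (l 1066433551) (l 1066637327))) (b (a (b (l 1066547215) (a (b (b (l 1066572815) (b (l 1066577935) (l 4))) (l 4)) (l 4))) (b (l 1066511887) (l 4))) (l 4))) (b (c (l 1066464271) (b (l 1066314767) (l 1066355215))) (l 4))) (b (a (b (l 1066309647) (a (l 1066371599) (l 4))) (b (l 1066311695) (l 4))) (l 4))) (l 4))) (b (a (a (b (b (a (b (l 1065811983) (a (l 1065836559) (l 4))) (l 4)) (l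 4)) (l 4)) (l 4)) (l 4)) (l 4))) (l 4)) (l 4)) (l 4)), by decide +kernel⟩

theorem t25_A00mm_202_s3 : ∃ t, chk3 f_A00mm_202_s3 t 12 13 1 = true := ex3_a k20_A00mm_202_s3 k21_A00mm_202_s3

theorem t26_A00mm_202_s3 : ∃ t, chk3 f_A00mm_202_s3 t 6 13 1 = true := ex3_a t25_A00mm_202_s3 k22_A00mm_202_s3

theorem t27_A00mm_202_s3 : ∃ t, chk3 f_A00mm_202_s3 t 3 13 1 = true := ex3_a t26_A00mm_202_s3 k23_A00mm_202_s3

theorem t28_A00mm_202_s3 : ∃ t, chk3 f_A00mm_202_s3 t 13 12 1 = true := ex3_a k17_A00mm_202_s3 k18_A00mm_202_s3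

theorem t29_A00mm_202_s3 : ∃ t, chk3 f_A00mm_202_s3 t 6 12 1 = true := ex3_a k16_A00mm_202_s3 t28_A00mm_202_s3

theorem t30_A00mm_202_s3 : ∃ t, chk3 f_A00mm_202_s3 t 3 12 1 = true := ex3_a t29_A00mm_202_s3 k19_A00mm_202_s3

theorem t31_A00mm_202_s3 : ∃ t, chk3 f_A00mm_202_s3 t 3 6 1 = true := ex3_b t30_A00mm_202_s3 t27_A00mm_202_s3

theorem t32_A00mm_202_s3 : ∃ t, chk3 f_A00mm_202_s3 t 3 3 1 = true := ex3_b t31_A00mm_202_s3 k24_A00mm_202_s3

theorem t33_A00mm_202_s3 : ∃ t, chk3 f_A00mm_202_s3 t 11 14 1 = true := ex3_a k13_A00mm_202_s3 k14_A00mm_202_s3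

theorem t34_A00mm_202_s3 : ∃ t, chk3 f_A00mm_202_s3 t 5 14 1 = true := ex3_a k12_A00mm_202_s3 t33_A00mm_202_s3

theorem t35_A00mm_202_s3 : ∃ t, chk3 f_A00mm_202_s3 t 2 14 1 = true := ex3_a k11_A00mm_202_s3 t34_A00mm_202_s3

theorem t36_A00mm_202_s3 : ∃ t, chk3 f_A00mm_202_s3 t 2 7 1 = true := ex3_b t35_A00mm_202_s3 k15_A00mm_202_s3

theorem t37_A00mm_202_s3 : ∃ t, chk3 f_A00mm_202_s3 t 2 3 1 = true := ex3_b k10_A00mm_202_s3 t36_A00mm_202_s3

theorem t38_A00mm_202_s3 : ∃ t, chk3 f_A00mm_202_s3 t 1 3 1 = true := ex3_a t37_A00mm_202_s3 t32_A00mm_202_s3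

theorem t39_A00mm_202_s3 : ∃ t, chk3 f_A00mm_202_s3 t 13 5 1 = true := ex3_b k7_A00mm_202_s3 k8_A00mm_202_s3

theorem t40_A00mm_202_s3 : ∃ t, chk3 f_A00mm_202_s3 t 6 5 1 = true := ex3_a k6_A00mm_202_s3 t39_A00mm_202_s3

theorem t41_A00mm_202_s3 : ∃ t, chk3 f_A00mm_202_s3 t 3 5 1 = true := ex3_a t40_A00mm_202_s3 k9_A00mm_202_s3

theorem t42_A00mm_202_s3 : ∃ t, chk3 f_A00mm_202_s3 t 14 9 1 = true := ex3_a k3_A00mm_202_s3 k4_A00mm_202_s3

theorem t43_A00mm_202_s3 : ∃ t, chk3 f_A00mm_202_s3 t 7 9 1 = true := ex3_a t42_A00mm_202_s3 k5_A00mm_202_s3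

theorem t44_A00mm_202_s3 : ∃ t, chk3 f_A00mm_202_s3 t 7 4 1 = true := ex3_b k2_A00mm_202_s3 t43_A00mm_202_s3

theorem t45_A00mm_202_s3 : ∃ t, chk3 f_A00mm_202_s3 t 3 4 1 = true := ex3_a k1_A00mm_202_s3 t44_A00mm_202_s3

theorem t46_A00mm_202_s3 : ∃ t, chk3 f_A00mm_202_s3 t 3 2 1 = true := ex3_b t45_A00mm_202_s3 t41_A00mm_202_s3

theorem t47_A00mm_202_s3 : ∃ t, chk3 f_A00mm_202_s3 t 1 2 1 = true := ex3_a k0_A00mm_202_s3 t46_A00mm_202_s3

theorem t48_A00mm_202_s3 : ∃ t, chk3 f_A00mm_202_s3 t 1 1 1 = true := ex3_b t47_A00mm_202_s3 t38_A00mm_202_s3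

theorem c_A00mm_202_s3 : CertF 0 536870912 0 536870912 649613803 48318383 true false false .pp 2 0 2
    ndB0q2 ndB0q0 pcB2 cut_A00mm_202_s3 xt_A00mm_202_s3 :=
  certF1 (fam := true) (s1 := false) (s2 := false) (a := 2) (b := 0) (c := 2) (cn := .pp) (n1 := ndB0q2) (n2 := ndB0q0) (pc := pcB2) (cut := cut_A00mm_202_s3) (xt := xt_A00mm_202_s3) (P1 := 0) (W1 := 536870912) (P2 := 0) (W2 := 536870912) (P3 := 649613803) (W3 := 48318383)
    rfl (fun _ => rfl) t48_A00mm_202_s3

theorem s_A00mm_202_s3 {κ x : ℝ} (hκ : κ * h0 = ken x) (hx : ((649613803 : ℕ) : ℝ) / S ≤ x)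
    (hx' : x ≤ (((649613803 : ℕ) : ℝ) + (48318383 : ℕ)) / S)
    (H : CutA (VFD κ) PP tK tL pcB (Cut.of [[⟨0, 1, 0, 53687091⟩, ⟨1, 0, 0, 53687091⟩, ⟨2, 1, 0, 53687091⟩]]) 2 0 2 0 0 (sgb false) (sgb false) x) :
    AltA (VFD κ) PP tK tL pcB [⟨4, 0, 0, 2845415833⟩] 2 0 2 0 0 (sgb false) (sgb false) x :=
  strip_altAD (m := 2845415833) false rfl hκ (SH.κ0 hκ (SH.hx1 hx).le (SH.hx2 hx').le) (SH.hx1 hx).le (SH.hx2 hx') (covB02).cov (covB00).cov hx hx' c_A00mm_202_s3 H ((okx6 hx hx').extA (T := tt) (okx hx hx') (sideB hx hx') hκ rfl rfl (.O 2 false) (.O 0 false) (Or.inl rfl))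

noncomputable def cut_A00mm_203_s1 : Cut := Cut.of [[⟨4, 0, 0, 1449551462⟩]]

noncomputable def f_A00mm_203_s1 : ℕ → ℕ → ℕ → ℕ → Bool := onCell 0 536870912 0 536870912 649613803 48318383
    (rowF 0 true false false .up 2 0 3 (qsf 0 536870912 0 536870912 3) ndB0q2 ndB0q0 pcB3 cut_A00mm_203_s1 Ext.none)

def k0_A00mm_203_s1 : ∃ t, chk3 f_A00mm_203_s1 t 1 1 1 = true :=
  ⟨(l 6), by decide +kernel⟩

theorem c_A00mm_203_s1 : CertF 0 536870912 0 536870912 649613803 48318383 true false false .up 2 0 3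
    ndB0q2 ndB0q0 pcB3 cut_A00mm_203_s1 Ext.none :=
  certF0 (fam := true) (s1 := false) (s2 := false) (a := 2) (b := 0) (c := 3) (cn := .up) (n1 := ndB0q2) (n2 := ndB0q0) (pc := pcB3) (cut := cut_A00mm_203_s1) (xt := Ext.none) (P1 := 0) (W1 := 536870912) (P2 := 0) (W2 := 536870912) (P3 := 649613803) (W3 := 48318383)
    rfl k0_A00mm_203_s1

theorem s_A00mm_203_s1 {κ x : ℝ} (hκ : κ * h0 = ken x) (hx : ((649613803 : ℕ) : ℝ) / S ≤ x)
    (hx' : x ≤ (((649613803 : ℕ) : ℝ) + (48318383 : ℕ)) / S) :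
    AltA (VFD κ) PP tK tL pcB [⟨3, 0, 0, 1449551462⟩] 2 0 3 0 0 (sgb false) (sgb false) x :=
  strip_altAD (m := 1449551462) true rfl hκ (SH.κ0 hκ (SH.hx1 hx).le (SH.hx2 hx').le) (SH.hx1 hx).le (SH.hx2 hx') (covB02).cov (covB00).cov hx hx' c_A00mm_203_s1 cutA_nil (noExt_A)

end Pool.Agent.Strip051.G.I6050_6500.Tab.St.C
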