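import Pool.Agent.Strip051.G.I6050_6500.StH
import Pool.Agent.Strip051.G.I6050_6500.StF

/-! # Unit strips 16 (generated) -/

set_option linter.all false
set_option maxRecDepth 100000

namespace Pool.Agent.Strip051.G.I6050_6500.Tab.St.C

open Pool.Agent.Strip051.PB Pool.Agent.Strip051.PB.T Pool.Agent.StripNear Pool.Agent.Strip051.LC
open Pool.Agent.Strip051.G.I6050_6500.Tab Pool.Agent.Strip051.G.I6050_6500.Tab.St

noncomputable def cut_A00mm_203_s3 : Cut := Cut.of [[⟨3, 0, 0, 2845415833⟩]]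

noncomputable def xt_A00mm_203_s3 : Ext := strExt6 dd true false false .u2 .u0m .s2m .up 2 0 3 rfl rfl gl3 vv ww ndB0q2 ndB0q0

noncomputable def f_A00mm_203_s3 : ℕ → ℕ → ℕ → ℕ → Bool := onCell 0 536870912 1610612736 536870912 649613803 48318383
    (rowF 1 true false false .up 2 0 3 (qsf 0 536870912 0 536870912 3) ndB0q2 ndB0q0 pcB3 cut_A00mm_203_s3 xt_A00mm_203_s3)

def k0_A00mm_203_s3 : ∃ t, chk3 f_A00mm_203_s3 t 1 1 1 = true :=
  ⟨(a (b (a (b (b (a (b (b (l 16769240) (l 16692304)) (b (l 16697496) (l 16701224))) (a (b (l 16712648) (b (l 16723832) (l 16729928))) (b (b (l 16724728) (l 16733664)) (b (l 16741664) (a (l 16744096) (l 16753496)))))) (a (b (b (l 16704296) (l 16791880)) (b (l 16748744) (a (l 16718928) (l 16779168)))) (a (b (b (l 16735520) (l 16783632)) (b (b (l 16746888) (l 16771592)) (a (l 16773264) (l 1069194767)))) (b (a (b (l 16750632) (l 1069745167)) (l 1069883919)) (a (b (l 1069497871) (l 1069118479))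 (b (l 1069570063) (l 1069227023))))))) (b (b (a (a (b (l 16730016) (l 16782520)) (a (l 1069708303) (l 1069612559))) (a (l 1069489167) (a (b (l 1069222415) (l 4)) (l 4)))) (a (l 2) (l 2))) (l 2))) (b (a (a (b (b (a (b (l 16737496) (l 16746640)) (b (l 16767264) (b (l 16753272) (l 16757736)))) (a (b (l 16776048) (b (l 16761032) (l 16775288))) (b (a (l 1069986319) (l 1069838863)) (a (l 1070080527) (l 1069952527))))) (b (a (l 1069906447) (b (a (l 1070008335) (b (l 1070018575) (l 4))) (l 4))) (l 4))) (b (b (b (a (l 1069936655) (a (l 1069172239) (l 1069018127))) (a (l 1069491727) (a (l 1069240847) (l 1069070863)))) (b (a (l 1069571087) (l 1069200911)) (b (l 1069169679) (l 4)))) (l 4))) (b (a (b (a (b (a (l 1068861967) (a (l 1068744207) (l 4))) (l 4)) (l 4)) (l 4)) (l 4)) (l 4))) (l 4))) (l 2)) (b (l 4) (l 2))), by decide +kernel⟩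

theorem c_A00mm_203_s3 : CertF 0 536870912 0 536870912 649613803 48318383 true false false .up 2 0 3
    ndB0q2 ndB0q0 pcB3 cut_A00mm_203_s3 xt_A00mm_203_s3 :=
  certF1 (fam := true) (s1 := false) (s2 := false) (a := 2) (b := 0) (c := 3) (cn := .up) (n1 := ndB0q2) (n2 := ndB0q0) (pc := pcB3) (cut := cut_A00mm_203_s3) (xt := xt_A00mm_203_s3) (P1 := 0) (W1 := 536870912) (P2 := 0) (W2 := 536870912) (P3 := 649613803) (W3 := 48318383)
    rfl (fun _ => rfl) k0_A00mm_203_s3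

theorem s_A00mm_203_s3 {κ x : ℝ} (hκ : κ * h0 = ken x) (hx : ((649613803 : ℕ) : ℝ) / S ≤ x)
    (hx' : x ≤ (((649613803 : ℕ) : ℝ) + (48318383 : ℕ)) / S) :
    AltA (VFD κ) PP tK tL pcB [⟨4, 0, 0, 2845415833⟩] 2 0 3 0 0 (sgb false) (sgb false) x :=
  strip_altAD (m := 2845415833) false rfl hκ (SH.κ0 hκ (SH.hx1 hx).le (SH.hx2 hx').le) (SH.hx1 hx).le (SH.hx2 hx') (covB02).cov (covB00).cov hx hx' c_A00mm_203_s3 cutA_nil ((okx6 hx hx').extA (T := tt) (okx hx hx') (sideB hx hx') hκ rfl rfl (.O 2 false) (.O 0 false) (Or.inr rfl))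

noncomputable def cut_A00mm_213_s1 : Cut := Cut.of [[⟨4, 0, 0, 1449551462⟩]]

noncomputable def f_A00mm_213_s1 : ℕ → ℕ → ℕ → ℕ → Bool := onCell 0 536870912 536870912 536870912 649613803 48318383
    (rowF 0 true false false .pnn 2 1 3 (qsf 0 536870912 536870912 536870912 3) ndB0q2 ndB0q1 pcB3 cut_A00mm_213_s1 Ext.none)

def k0_A00mm_213_s1 : ∃ t, chk3 f_A00mm_213_s1 t 1 1 1 = true :=
  ⟨(l 6), by decide +kernel⟩

theorem c_A00mm_213_s1 : CertF 0 536870912 536870912 536870912 649613803 48318383 true false false .pnn 2 1 3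
    ndB0q2 ndB0q1 pcB3 cut_A00mm_213_s1 Ext.none :=
  certF0 (fam := true) (s1 := false) (s2 := false) (a := 2) (b := 1) (c := 3) (cn := .pnn) (n1 := ndB0q2) (n2 := ndB0q1) (pc := pcB3) (cut := cut_A00mm_213_s1) (xt := Ext.none) (P1 := 0) (W1 := 536870912) (P2 := 536870912) (W2 := 536870912) (P3 := 649613803) (W3 := 48318383)
    rfl k0_A00mm_213_s1

theorem s_A00mm_213_s1 {κ x : ℝ} (hκ : κ * h0 = ken x) (hx : ((649613803 : ℕ) : ℝ) / S ≤ x)
    (hx' : x ≤ (((649613803 : ℕ) : ℝ) + (48318383 : ℕ)) / S) :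
    AltA (VFD κ) PP tK tL pcB [⟨3, 0, 0, 1449551462⟩] 2 1 3 0 0 (sgb false) (sgb false) x :=
  strip_altAD (m := 1449551462) true rfl hκ (SH.κ0 hκ (SH.hx1 hx).le (SH.hx2 hx').le) (SH.hx1 hx).le (SH.hx2 hx') (covB02).cov (covB01).cov hx hx' c_A00mm_213_s1 cutA_nil (noExt_A)

noncomputable def cut_A00mm_213_s3 : Cut := Cut.of [[⟨3, 0, 0, 2845415833⟩]]

noncomputable def xt_A00mm_213_s3 : Ext := strExt6 dd true false false .u2 .u0m .s2m .pnn 2 1 3 rfl rfl gl3 vv ww ndB0q2 ndB0q1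

noncomputable def f_A00mm_213_s3 : ℕ → ℕ → ℕ → ℕ → Bool := onCell 0 536870912 536870912 536870912 649613803 48318383
    (rowF 0 true false false .pnn 2 1 3 (qsf 0 536870912 536870912 536870912 3) ndB0q2 ndB0q1 pcB3 cut_A00mm_213_s3 xt_A00mm_213_s3)

def k0_A00mm_213_s3 : ∃ t, chk3 f_A00mm_213_s3 t 1 1 1 = true :=
  ⟨(a (b (a (b (a (b (b (a (b (l 1070290447) (l 1070734863)) (b (l 1070105103) (l 1070511119))) (a (b (l 1071152143) (l 1071519247)) (a (l 1071180815) (l 4)))) (b (a (b (l 1071822351) (l 4)) (l 4)) (l 4))) (b (a (b (b (l 1069928975) (l 4)) (l 4)) (l 4)) (l 4))) (l 4)) (l 4)) (l 4)) (l 4)), by decide +kernel⟩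

theorem c_A00mm_213_s3 : CertF 0 536870912 536870912 536870912 649613803 48318383 true false false .pnn 2 1 3
    ndB0q2 ndB0q1 pcB3 cut_A00mm_213_s3 xt_A00mm_213_s3 :=
  certF0 (fam := true) (s1 := false) (s2 := false) (a := 2) (b := 1) (c := 3) (cn := .pnn) (n1 := ndB0q2) (n2 := ndB0q1) (pc := pcB3) (cut := cut_A00mm_213_s3) (xt := xt_A00mm_213_s3) (P1 := 0) (W1 := 536870912) (P2 := 536870912) (W2 := 536870912) (P3 := 649613803) (W3 := 48318383)
    rfl k0_A00mm_213_s3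

theorem s_A00mm_213_s3 {κ x : ℝ} (hκ : κ * h0 = ken x) (hx : ((649613803 : ℕ) : ℝ) / S ≤ x)
    (hx' : x ≤ (((649613803 : ℕ) : ℝ) + (48318383 : ℕ)) / S) :
    AltA (VFD κ) PP tK tL pcB [⟨4, 0, 0, 2845415833⟩] 2 1 3 0 0 (sgb false) (sgb false) x :=
  strip_altAD (m := 2845415833) false rfl hκ (SH.κ0 hκ (SH.hx1 hx).le (SH.hx2 hx').le) (SH.hx1 hx).le (SH.hx2 hx') (covB02).cov (covB01).cov hx hx' c_A00mm_213_s3 cutA_nil ((okx6 hx hx').extA (T := tt) (okx hx hx') (sideB hx hx') hκ rfl rfl (.O 2 false) (.O 1 false) (Or.inr rfl))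

noncomputable def cut_A08pp_001_s1 : Cut := Cut.of [[⟨4, 0, 0, 1449551462⟩]]

noncomputable def f_A08pp_001_s1 : ℕ → ℕ → ℕ → ℕ → Bool := onCell 0 536870912 0 536870912 649613803 48318383
    (rowF 0 true true true .up 0 0 1 (qsf 0 536870912 0 536870912 1) ndB0q0 ndB8q0 pcB1 cut_A08pp_001_s1 Ext.none)

def k0_A08pp_001_s1 : ∃ t, chk3 f_A08pp_001_s1 t 1 1 1 = true :=
  ⟨(l 4), by decide +kernel⟩

theorem c_A08pp_001_s1 : CertF 0 536870912 0 536870912 649613803 48318383 true true true .up 0 0 1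
    ndB0q0 ndB8q0 pcB1 cut_A08pp_001_s1 Ext.none :=
  certF0 (fam := true) (s1 := true) (s2 := true) (a := 0) (b := 0) (c := 1) (cn := .up) (n1 := ndB0q0) (n2 := ndB8q0) (pc := pcB1) (cut := cut_A08pp_001_s1) (xt := Ext.none) (P1 := 0) (W1 := 536870912) (P2 := 0) (W2 := 536870912) (P3 := 649613803) (W3 := 48318383)
    rfl k0_A08pp_001_s1

theorem s_A08pp_001_s1 {κ x : ℝ} (hκ : κ * h0 = ken x) (hx : ((649613803 : ℕ) : ℝ) / S ≤ x)
    (hx' : x ≤ (((649613803 : ℕ) : ℝ) + (48318383 : ℕ)) / S) :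
    AltA (VFD κ) PP tK tL pcB [⟨3, 0, 0, 1449551462⟩] 0 0 1 0 8 (sgb true) (sgb true) x :=
  strip_altAD (m := 1449551462) true rfl hκ (SH.κ0 hκ (SH.hx1 hx).le (SH.hx2 hx').le) (SH.hx1 hx).le (SH.hx2 hx') (covB00).cov (covB80).cov hx hx' c_A08pp_001_s1 cutA_nil (noExt_A)

noncomputable def cut_A08pp_011_s1 : Cut := Cut.of [[⟨4, 0, 0, 1449551462⟩]]

noncomputable def f_A08pp_011_s1 : ℕ → ℕ → ℕ → ℕ → Bool := onCell 0 536870912 536870912 536870912 649613803 48318383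
    (rowF 0 true true true .pnn 0 1 1 (qsf 0 536870912 536870912 536870912 1) ndB0q0 ndB8q1 pcB1 cut_A08pp_011_s1 Ext.none)

def k0_A08pp_011_s1 : ∃ t, chk3 f_A08pp_011_s1 t 1 1 1 = true :=
  ⟨(l 4), by decide +kernel⟩

theorem c_A08pp_011_s1 : CertF 0 536870912 536870912 536870912 649613803 48318383 true true true .pnn 0 1 1
    ndB0q0 ndB8q1 pcB1 cut_A08pp_011_s1 Ext.none :=
  certF0 (fam := true) (s1 := true) (s2 := true) (a := 0) (b := 1) (c := 1) (cn := .pnn) (n1 := ndB0q0) (n2 := ndB8q1) (pc := pcB1) (cut := cut_A08pp_011_s1) (xt := Ext.none) (P1 := 0) (W1 := 536870912) (P2 := 536870912) (W2 := 536870912) (P3 := 649613803) (W3 := 48318383)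
    rfl k0_A08pp_011_s1

theorem s_A08pp_011_s1 {κ x : ℝ} (hκ : κ * h0 = ken x) (hx : ((649613803 : ℕ) : ℝ) / S ≤ x)
    (hx' : x ≤ (((649613803 : ℕ) : ℝ) + (48318383 : ℕ)) / S) :
    AltA (VFD κ) PP tK tL pcB [⟨3, 0, 0, 1449551462⟩] 0 1 1 0 8 (sgb true) (sgb true) x :=
  strip_altAD (m := 1449551462) true rfl hκ (SH.κ0 hκ (SH.hx1 hx).le (SH.hx2 hx').le) (SH.hx1 hx).le (SH.hx2 hx') (covB00).cov (covB81).cov hx hx' c_A08pp_011_s1 cutA_nil (noExt_A)

noncomputable def cut_A08pp_012_s1 : Cut := Cut.of [[⟨4, 0, 0, 1449551462⟩]]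

noncomputable def f_A08pp_012_s1 : ℕ → ℕ → ℕ → ℕ → Bool := onCell 0 536870912 536870912 536870912 649613803 48318383
    (rowF 0 true true true .pnp 0 1 2 (qsf 0 536870912 536870912 536870912 2) ndB0q0 ndB8q1 pcB2 cut_A08pp_012_s1 Ext.none)

def k0_A08pp_012_s1 : ∃ t, chk3 f_A08pp_012_s1 t 1 1 1 = true :=
  ⟨(l 4), by decide +kernel⟩

theorem c_A08pp_012_s1 : CertF 0 536870912 536870912 536870912 649613803 48318383 true true true .pnp 0 1 2
    ndB0q0 ndB8q1 pcB2 cut_A08pp_012_s1 Ext.none :=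
  certF0 (fam := true) (s1 := true) (s2 := true) (a := 0) (b := 1) (c := 2) (cn := .pnp) (n1 := ndB0q0) (n2 := ndB8q1) (pc := pcB2) (cut := cut_A08pp_012_s1) (xt := Ext.none) (P1 := 0) (W1 := 536870912) (P2 := 536870912) (W2 := 536870912) (P3 := 649613803) (W3 := 48318383)
    rfl k0_A08pp_012_s1

theorem s_A08pp_012_s1 {κ x : ℝ} (hκ : κ * h0 = ken x) (hx : ((649613803 : ℕ) : ℝ) / S ≤ x)
    (hx' : x ≤ (((649613803 : ℕ) : ℝ) + (48318383 : ℕ)) / S) :
    AltA (VFD κ) PP tK tL pcB [⟨3, 0, 0, 1449551462⟩] 0 1 2 0 8 (sgb true) (sgb true) x :=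
  strip_altAD (m := 1449551462) true rfl hκ (SH.κ0 hκ (SH.hx1 hx).le (SH.hx2 hx').le) (SH.hx1 hx).le (SH.hx2 hx') (covB00).cov (covB81).cov hx hx' c_A08pp_012_s1 cutA_nil (noExt_A)

noncomputable def cut_A08pp_022_s1 : Cut := Cut.of [[⟨4, 0, 0, 1449551462⟩]]

noncomputable def f_A08pp_022_s1 : ℕ → ℕ → ℕ → ℕ → Bool := onCell 0 536870912 1073741824 536870912 649613803 48318383
    (rowF 0 true true true .pp 0 2 2 (qsf 0 536870912 1073741824 536870912 2) ndB0q0 ndB8q2 pcB2 cut_A08pp_022_s1 Ext.none)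

def k0_A08pp_022_s1 : ∃ t, chk3 f_A08pp_022_s1 t 1 1 1 = true :=
  ⟨(l 4), by decide +kernel⟩

theorem c_A08pp_022_s1 : CertF 0 536870912 1073741824 536870912 649613803 48318383 true true true .pp 0 2 2
    ndB0q0 ndB8q2 pcB2 cut_A08pp_022_s1 Ext.none :=
  certF0 (fam := true) (s1 := true) (s2 := true) (a := 0) (b := 2) (c := 2) (cn := .pp) (n1 := ndB0q0) (n2 := ndB8q2) (pc := pcB2) (cut := cut_A08pp_022_s1) (xt := Ext.none) (P1 := 0) (W1 := 536870912) (P2 := 1073741824) (W2 := 536870912) (P3 := 649613803) (W3 := 48318383)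
    rfl k0_A08pp_022_s1

theorem s_A08pp_022_s1 {κ x : ℝ} (hκ : κ * h0 = ken x) (hx : ((649613803 : ℕ) : ℝ) / S ≤ x)
    (hx' : x ≤ (((649613803 : ℕ) : ℝ) + (48318383 : ℕ)) / S) :
    AltA (VFD κ) PP tK tL pcB [⟨3, 0, 0, 1449551462⟩] 0 2 2 0 8 (sgb true) (sgb true) x :=
  strip_altAD (m := 1449551462) true rfl hκ (SH.κ0 hκ (SH.hx1 hx).le (SH.hx2 hx').le) (SH.hx1 hx).le (SH.hx2 hx') (covB00).cov (covB82).cov hx hx' c_A08pp_022_s1 cutA_nil (noExt_A)

noncomputable def cut_A08pp_023_s1 : Cut := Cut.of [[⟨4, 0, 0, 1449551462⟩]]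

noncomputable def f_A08pp_023_s1 : ℕ → ℕ → ℕ → ℕ → Bool := onCell 0 536870912 1073741824 536870912 649613803 48318383
    (rowF 0 true true true .up 0 2 3 (qsf 0 536870912 1073741824 536870912 3) ndB0q0 ndB8q2 pcB3 cut_A08pp_023_s1 Ext.none)

def k0_A08pp_023_s1 : ∃ t, chk3 f_A08pp_023_s1 t 1 1 1 = true :=
  ⟨(l 4), by decide +kernel⟩

theorem c_A08pp_023_s1 : CertF 0 536870912 1073741824 536870912 649613803 48318383 true true true .up 0 2 3
    ndB0q0 ndB8q2 pcB3 cut_A08pp_023_s1 Ext.none :=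
  certF0 (fam := true) (s1 := true) (s2 := true) (a := 0) (b := 2) (c := 3) (cn := .up) (n1 := ndB0q0) (n2 := ndB8q2) (pc := pcB3) (cut := cut_A08pp_023_s1) (xt := Ext.none) (P1 := 0) (W1 := 536870912) (P2 := 1073741824) (W2 := 536870912) (P3 := 649613803) (W3 := 48318383)
    rfl k0_A08pp_023_s1

theorem s_A08pp_023_s1 {κ x : ℝ} (hκ : κ * h0 = ken x) (hx : ((649613803 : ℕ) : ℝ) / S ≤ x)
    (hx' : x ≤ (((649613803 : ℕ) : ℝ) + (48318383 : ℕ)) / S) :
    AltA (VFD κ) PP tK tL pcB [⟨3, 0, 0, 1449551462⟩] 0 2 3 0 8 (sgb true) (sgb true) x :=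
  strip_altAD (m := 1449551462) true rfl hκ (SH.κ0 hκ (SH.hx1 hx).le (SH.hx2 hx').le) (SH.hx1 hx).le (SH.hx2 hx') (covB00).cov (covB82).cov hx hx' c_A08pp_023_s1 cutA_nil (noExt_A)

noncomputable def cut_A08pp_033_s1 : Cut := Cut.of [[⟨4, 0, 0, 1449551462⟩]]

noncomputable def f_A08pp_033_s1 : ℕ → ℕ → ℕ → ℕ → Bool := onCell 0 536870912 0 1230186008 649613803 48318383
    (rowF 0 true true true .pnn 0 3 3 (qsf 0 536870912 0 1230186008 3) ndB0q0 ndB8q3 pcB3 cut_A08pp_033_s1 Ext.none)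

def k0_A08pp_033_s1 : ∃ t, chk3 f_A08pp_033_s1 t 1 1 1 = true :=
  ⟨(l 4), by decide +kernel⟩

theorem c_A08pp_033_s1 : CertF 0 536870912 0 1230186008 649613803 48318383 true true true .pnn 0 3 3
    ndB0q0 ndB8q3 pcB3 cut_A08pp_033_s1 Ext.none :=
  certF0 (fam := true) (s1 := true) (s2 := true) (a := 0) (b := 3) (c := 3) (cn := .pnn) (n1 := ndB0q0) (n2 := ndB8q3) (pc := pcB3) (cut := cut_A08pp_033_s1) (xt := Ext.none) (P1 := 0) (W1 := 536870912) (P2 := 0) (W2 := 1230186008) (P3 := 649613803) (W3 := 48318383)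
    rfl k0_A08pp_033_s1

theorem s_A08pp_033_s1 {κ x : ℝ} (hκ : κ * h0 = ken x) (hx : ((649613803 : ℕ) : ℝ) / S ≤ x)
    (hx' : x ≤ (((649613803 : ℕ) : ℝ) + (48318383 : ℕ)) / S) :
    AltA (VFD κ) PP tK tL pcB [⟨3, 0, 0, 1449551462⟩] 0 3 3 0 8 (sgb true) (sgb true) x :=
  strip_altAD (m := 1449551462) true rfl hκ (SH.κ0 hκ (SH.hx1 hx).le (SH.hx2 hx').le) (SH.hx1 hx).le (SH.hx2 hx') (covB00).cov (covB83).cov hx hx' c_A08pp_033_s1 cutA_nil (noExt_A)

noncomputable def cut_A08pp_101_s1 : Cut := Cut.of [[⟨4, 0, 0, 1449551462⟩]]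

noncomputable def f_A08pp_101_s1 : ℕ → ℕ → ℕ → ℕ → Bool := onCell 536870912 536870912 0 536870912 649613803 48318383
    (rowF 0 true true true .npn 1 0 1 (qsf 536870912 536870912 0 536870912 1) ndB0q1 ndB8q0 pcB1 cut_A08pp_101_s1 Ext.none)

def k0_A08pp_101_s1 : ∃ t, chk3 f_A08pp_101_s1 t 1 1 1 = true :=
  ⟨(l 4), by decide +kernel⟩

theorem c_A08pp_101_s1 : CertF 536870912 536870912 0 536870912 649613803 48318383 true true true .npn 1 0 1
    ndB0q1 ndB8q0 pcB1 cut_A08pp_101_s1 Ext.none :=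
  certF0 (fam := true) (s1 := true) (s2 := true) (a := 1) (b := 0) (c := 1) (cn := .npn) (n1 := ndB0q1) (n2 := ndB8q0) (pc := pcB1) (cut := cut_A08pp_101_s1) (xt := Ext.none) (P1 := 536870912) (W1 := 536870912) (P2 := 0) (W2 := 536870912) (P3 := 649613803) (W3 := 48318383)
    rfl k0_A08pp_101_s1

theorem s_A08pp_101_s1 {κ x : ℝ} (hκ : κ * h0 = ken x) (hx : ((649613803 : ℕ) : ℝ) / S ≤ x)
    (hx' : x ≤ (((649613803 : ℕ) : ℝ) + (48318383 : ℕ)) / S) :
    AltA (VFD κ) PP tK tL pcB [⟨3, 0, 0, 1449551462⟩] 1 0 1 0 8 (sgb true) (sgb true) x :=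
  strip_altAD (m := 1449551462) true rfl hκ (SH.κ0 hκ (SH.hx1 hx).le (SH.hx2 hx').le) (SH.hx1 hx).le (SH.hx2 hx') (covB01).cov (covB80).cov hx hx' c_A08pp_101_s1 cutA_nil (noExt_A)

noncomputable def cut_A08pp_102_s1 : Cut := Cut.of [[⟨4, 0, 0, 1449551462⟩]]

noncomputable def f_A08pp_102_s1 : ℕ → ℕ → ℕ → ℕ → Bool := onCell 536870912 536870912 0 536870912 649613803 48318383
    (rowF 0 true true true .npp 1 0 2 (qsf 536870912 536870912 0 536870912 2) ndB0q1 ndB8q0 pcB2 cut_A08pp_102_s1 Ext.none)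

def k0_A08pp_102_s1 : ∃ t, chk3 f_A08pp_102_s1 t 1 1 1 = true :=
  ⟨(l 4), by decide +kernel⟩

theorem c_A08pp_102_s1 : CertF 536870912 536870912 0 536870912 649613803 48318383 true true true .npp 1 0 2
    ndB0q1 ndB8q0 pcB2 cut_A08pp_102_s1 Ext.none :=
  certF0 (fam := true) (s1 := true) (s2 := true) (a := 1) (b := 0) (c := 2) (cn := .npp) (n1 := ndB0q1) (n2 := ndB8q0) (pc := pcB2) (cut := cut_A08pp_102_s1) (xt := Ext.none) (P1 := 536870912) (W1 := 536870912) (P2 := 0) (W2 := 536870912) (P3 := 649613803) (W3 := 48318383)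
    rfl k0_A08pp_102_s1

theorem s_A08pp_102_s1 {κ x : ℝ} (hκ : κ * h0 = ken x) (hx : ((649613803 : ℕ) : ℝ) / S ≤ x)
    (hx' : x ≤ (((649613803 : ℕ) : ℝ) + (48318383 : ℕ)) / S) :
    AltA (VFD κ) PP tK tL pcB [⟨3, 0, 0, 1449551462⟩] 1 0 2 0 8 (sgb true) (sgb true) x :=
  strip_altAD (m := 1449551462) true rfl hκ (SH.κ0 hκ (SH.hx1 hx).le (SH.hx2 hx').le) (SH.hx1 hx).le (SH.hx2 hx') (covB01).cov (covB80).cov hx hx' c_A08pp_102_s1 cutA_nil (noExt_A)

noncomputable def cut_A08pp_112_s1 : Cut := Cut.of [[⟨4, 0, 0, 1449551462⟩]]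

noncomputable def f_A08pp_112_s1 : ℕ → ℕ → ℕ → ℕ → Bool := onCell 536870912 536870912 536870912 536870912 649613803 48318383
    (rowF 0 true true true .dn 1 1 2 (qsf 536870912 536870912 536870912 536870912 2) ndB0q1 ndB8q1 pcB2 cut_A08pp_112_s1 Ext.none)

def k0_A08pp_112_s1 : ∃ t, chk3 f_A08pp_112_s1 t 1 1 1 = true :=
  ⟨(l 4), by decide +kernel⟩

theorem c_A08pp_112_s1 : CertF 536870912 536870912 536870912 536870912 649613803 48318383 true true true .dn 1 1 2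
    ndB0q1 ndB8q1 pcB2 cut_A08pp_112_s1 Ext.none :=
  certF0 (fam := true) (s1 := true) (s2 := true) (a := 1) (b := 1) (c := 2) (cn := .dn) (n1 := ndB0q1) (n2 := ndB8q1) (pc := pcB2) (cut := cut_A08pp_112_s1) (xt := Ext.none) (P1 := 536870912) (W1 := 536870912) (P2 := 536870912) (W2 := 536870912) (P3 := 649613803) (W3 := 48318383)
    rfl k0_A08pp_112_s1

theorem s_A08pp_112_s1 {κ x : ℝ} (hκ : κ * h0 = ken x) (hx : ((649613803 : ℕ) : ℝ) / S ≤ x)
    (hx' : x ≤ (((649613803 : ℕ) : ℝ) + (48318383 : ℕ)) / S) :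
    AltA (VFD κ) PP tK tL pcB [⟨3, 0, 0, 1449551462⟩] 1 1 2 0 8 (sgb true) (sgb true) x :=
  strip_altAD (m := 1449551462) true rfl hκ (SH.κ0 hκ (SH.hx1 hx).le (SH.hx2 hx').le) (SH.hx1 hx).le (SH.hx2 hx') (covB01).cov (covB81).cov hx hx' c_A08pp_112_s1 cutA_nil (noExt_A)

noncomputable def cut_A08pp_113_s1 : Cut := Cut.of [[⟨4, 0, 0, 1449551462⟩]]

noncomputable def f_A08pp_113_s1 : ℕ → ℕ → ℕ → ℕ → Bool := onCell 536870912 536870912 536870912 536870912 649613803 48318383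
    (rowF 0 true true true .nn 1 1 3 (qsf 536870912 536870912 536870912 536870912 3) ndB0q1 ndB8q1 pcB3 cut_A08pp_113_s1 Ext.none)

def k0_A08pp_113_s1 : ∃ t, chk3 f_A08pp_113_s1 t 1 1 1 = true :=
  ⟨(l 4), by decide +kernel⟩

theorem c_A08pp_113_s1 : CertF 536870912 536870912 536870912 536870912 649613803 48318383 true true true .nn 1 1 3
    ndB0q1 ndB8q1 pcB3 cut_A08pp_113_s1 Ext.none :=
  certF0 (fam := true) (s1 := true) (s2 := true) (a := 1) (b := 1) (c := 3) (cn := .nn) (n1 := ndB0q1) (n2 := ndB8q1) (pc := pcB3) (cut := cut_A08pp_113_s1) (xt := Ext.none) (P1 := 536870912) (W1 := 536870912) (P2 := 536870912) (W2 := 536870912) (P3 := 649613803) (W3 := 48318383)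
    rfl k0_A08pp_113_s1

theorem s_A08pp_113_s1 {κ x : ℝ} (hκ : κ * h0 = ken x) (hx : ((649613803 : ℕ) : ℝ) / S ≤ x)
    (hx' : x ≤ (((649613803 : ℕ) : ℝ) + (48318383 : ℕ)) / S) :
    AltA (VFD κ) PP tK tL pcB [⟨3, 0, 0, 1449551462⟩] 1 1 3 0 8 (sgb true) (sgb true) x :=
  strip_altAD (m := 1449551462) true rfl hκ (SH.κ0 hκ (SH.hx1 hx).le (SH.hx2 hx').le) (SH.hx1 hx).le (SH.hx2 hx') (covB01).cov (covB81).cov hx hx' c_A08pp_113_s1 cutA_nil (noExt_A)

noncomputable def cut_A08pp_123_s1 : Cut := Cut.of [[⟨4, 0, 0, 1449551462⟩]]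

noncomputable def f_A08pp_123_s1 : ℕ → ℕ → ℕ → ℕ → Bool := onCell 536870912 536870912 1073741824 536870912 649613803 48318383
    (rowF 0 true true true .npn 1 2 3 (qsf 536870912 536870912 1073741824 536870912 3) ndB0q1 ndB8q2 pcB3 cut_A08pp_123_s1 Ext.none)

def k0_A08pp_123_s1 : ∃ t, chk3 f_A08pp_123_s1 t 1 1 1 = true :=
  ⟨(l 4), by decide +kernel⟩

theorem c_A08pp_123_s1 : CertF 536870912 536870912 1073741824 536870912 649613803 48318383 true true true .npn 1 2 3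
    ndB0q1 ndB8q2 pcB3 cut_A08pp_123_s1 Ext.none :=
  certF0 (fam := true) (s1 := true) (s2 := true) (a := 1) (b := 2) (c := 3) (cn := .npn) (n1 := ndB0q1) (n2 := ndB8q2) (pc := pcB3) (cut := cut_A08pp_123_s1) (xt := Ext.none) (P1 := 536870912) (W1 := 536870912) (P2 := 1073741824) (W2 := 536870912) (P3 := 649613803) (W3 := 48318383)
    rfl k0_A08pp_123_s1

theorem s_A08pp_123_s1 {κ x : ℝ} (hκ : κ * h0 = ken x) (hx : ((649613803 : ℕ) : ℝ) / S ≤ x)
    (hx' : x ≤ (((649613803 : ℕ) : ℝ) + (48318383 : ℕ)) / S) :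
    AltA (VFD κ) PP tK tL pcB [⟨3, 0, 0, 1449551462⟩] 1 2 3 0 8 (sgb true) (sgb true) x :=
  strip_altAD (m := 1449551462) true rfl hκ (SH.κ0 hκ (SH.hx1 hx).le (SH.hx2 hx').le) (SH.hx1 hx).le (SH.hx2 hx') (covB01).cov (covB82).cov hx hx' c_A08pp_123_s1 cutA_nil (noExt_A)

noncomputable def cut_A08pp_133_s1 : Cut := Cut.of [[⟨4, 0, 0, 1449551462⟩]]

noncomputable def f_A08pp_133_s1 : ℕ → ℕ → ℕ → ℕ → Bool := onCell 536870912 536870912 0 1230186008 649613803 48318383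
    (rowF 0 true true true .dn 1 3 3 (qsf 536870912 536870912 0 1230186008 3) ndB0q1 ndB8q3 pcB3 cut_A08pp_133_s1 Ext.none)

def k0_A08pp_133_s1 : ∃ t, chk3 f_A08pp_133_s1 t 1 1 1 = true :=
  ⟨(l 4), by decide +kernel⟩

theorem c_A08pp_133_s1 : CertF 536870912 536870912 0 1230186008 649613803 48318383 true true true .dn 1 3 3
    ndB0q1 ndB8q3 pcB3 cut_A08pp_133_s1 Ext.none :=
  certF0 (fam := true) (s1 := true) (s2 := true) (a := 1) (b := 3) (c := 3) (cn := .dn) (n1 := ndB0q1) (n2 := ndB8q3) (pc := pcB3) (cut := cut_A08pp_133_s1) (xt := Ext.none) (P1 := 536870912) (W1 := 536870912) (P2 := 0) (W2 := 1230186008) (P3 := 649613803) (W3 := 48318383)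
    rfl k0_A08pp_133_s1

theorem s_A08pp_133_s1 {κ x : ℝ} (hκ : κ * h0 = ken x) (hx : ((649613803 : ℕ) : ℝ) / S ≤ x)
    (hx' : x ≤ (((649613803 : ℕ) : ℝ) + (48318383 : ℕ)) / S) :
    AltA (VFD κ) PP tK tL pcB [⟨3, 0, 0, 1449551462⟩] 1 3 3 0 8 (sgb true) (sgb true) x :=
  strip_altAD (m := 1449551462) true rfl hκ (SH.κ0 hκ (SH.hx1 hx).le (SH.hx2 hx').le) (SH.hx1 hx).le (SH.hx2 hx') (covB01).cov (covB83).cov hx hx' c_A08pp_133_s1 cutA_nil (noExt_A)

noncomputable def cut_A08pp_202_s1 : Cut := Cut.of [[⟨4, 0, 0, 1449551462⟩]]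

noncomputable def f_A08pp_202_s1 : ℕ → ℕ → ℕ → ℕ → Bool := onCell 0 536870912 0 536870912 649613803 48318383
    (rowF 0 true true true .pp 2 0 2 (qsf 0 536870912 0 536870912 2) ndB0q2 ndB8q0 pcB2 cut_A08pp_202_s1 Ext.none)

def k0_A08pp_202_s1 : ∃ t, chk3 f_A08pp_202_s1 t 1 1 1 = true :=
  ⟨(l 4), by decide +kernel⟩

theorem c_A08pp_202_s1 : CertF 0 536870912 0 536870912 649613803 48318383 true true true .pp 2 0 2
    ndB0q2 ndB8q0 pcB2 cut_A08pp_202_s1 Ext.none :=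
  certF0 (fam := true) (s1 := true) (s2 := true) (a := 2) (b := 0) (c := 2) (cn := .pp) (n1 := ndB0q2) (n2 := ndB8q0) (pc := pcB2) (cut := cut_A08pp_202_s1) (xt := Ext.none) (P1 := 0) (W1 := 536870912) (P2 := 0) (W2 := 536870912) (P3 := 649613803) (W3 := 48318383)
    rfl k0_A08pp_202_s1

theorem s_A08pp_202_s1 {κ x : ℝ} (hκ : κ * h0 = ken x) (hx : ((649613803 : ℕ) : ℝ) / S ≤ x)
    (hx' : x ≤ (((649613803 : ℕ) : ℝ) + (48318383 : ℕ)) / S) :
    AltA (VFD κ) PP tK tL pcB [⟨3, 0, 0, 1449551462⟩] 2 0 2 0 8 (sgb true) (sgb true) x :=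
  strip_altAD (m := 1449551462) true rfl hκ (SH.κ0 hκ (SH.hx1 hx).le (SH.hx2 hx').le) (SH.hx1 hx).le (SH.hx2 hx') (covB02).cov (covB80).cov hx hx' c_A08pp_202_s1 cutA_nil (noExt_A)

noncomputable def cut_A08pp_203_s1 : Cut := Cut.of [[⟨4, 0, 0, 1449551462⟩]]

noncomputable def f_A08pp_203_s1 : ℕ → ℕ → ℕ → ℕ → Bool := onCell 0 536870912 0 536870912 649613803 48318383
    (rowF 0 true true true .up 2 0 3 (qsf 0 536870912 0 536870912 3) ndB0q2 ndB8q0 pcB3 cut_A08pp_203_s1 Ext.none)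

def k0_A08pp_203_s1 : ∃ t, chk3 f_A08pp_203_s1 t 1 1 1 = true :=
  ⟨(l 4), by decide +kernel⟩

theorem c_A08pp_203_s1 : CertF 0 536870912 0 536870912 649613803 48318383 true true true .up 2 0 3
    ndB0q2 ndB8q0 pcB3 cut_A08pp_203_s1 Ext.none :=
  certF0 (fam := true) (s1 := true) (s2 := true) (a := 2) (b := 0) (c := 3) (cn := .up) (n1 := ndB0q2) (n2 := ndB8q0) (pc := pcB3) (cut := cut_A08pp_203_s1) (xt := Ext.none) (P1 := 0) (W1 := 536870912) (P2 := 0) (W2 := 536870912) (P3 := 649613803) (W3 := 48318383)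
    rfl k0_A08pp_203_s1

theorem s_A08pp_203_s1 {κ x : ℝ} (hκ : κ * h0 = ken x) (hx : ((649613803 : ℕ) : ℝ) / S ≤ x)
    (hx' : x ≤ (((649613803 : ℕ) : ℝ) + (48318383 : ℕ)) / S) :
    AltA (VFD κ) PP tK tL pcB [⟨3, 0, 0, 1449551462⟩] 2 0 3 0 8 (sgb true) (sgb true) x :=
  strip_altAD (m := 1449551462) true rfl hκ (SH.κ0 hκ (SH.hx1 hx).le (SH.hx2 hx').le) (SH.hx1 hx).le (SH.hx2 hx') (covB02).cov (covB80).cov hx hx' c_A08pp_203_s1 cutA_nil (noExt_A)

noncomputable def cut_A08pp_213_s1 : Cut := Cut.of [[⟨4, 0, 0, 1449551462⟩]]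

noncomputable def f_A08pp_213_s1 : ℕ → ℕ → ℕ → ℕ → Bool := onCell 0 536870912 536870912 536870912 649613803 48318383
    (rowF 0 true true true .pnn 2 1 3 (qsf 0 536870912 536870912 536870912 3) ndB0q2 ndB8q1 pcB3 cut_A08pp_213_s1 Ext.none)

def k0_A08pp_213_s1 : ∃ t, chk3 f_A08pp_213_s1 t 1 1 1 = true :=
  ⟨(l 4), by decide +kernel⟩

theorem c_A08pp_213_s1 : CertF 0 536870912 536870912 536870912 649613803 48318383 true true true .pnn 2 1 3
    ndB0q2 ndB8q1 pcB3 cut_A08pp_213_s1 Ext.none :=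
  certF0 (fam := true) (s1 := true) (s2 := true) (a := 2) (b := 1) (c := 3) (cn := .pnn) (n1 := ndB0q2) (n2 := ndB8q1) (pc := pcB3) (cut := cut_A08pp_213_s1) (xt := Ext.none) (P1 := 0) (W1 := 536870912) (P2 := 536870912) (W2 := 536870912) (P3 := 649613803) (W3 := 48318383)
    rfl k0_A08pp_213_s1

theorem s_A08pp_213_s1 {κ x : ℝ} (hκ : κ * h0 = ken x) (hx : ((649613803 : ℕ) : ℝ) / S ≤ x)
    (hx' : x ≤ (((649613803 : ℕ) : ℝ) + (48318383 : ℕ)) / S) :
    AltA (VFD κ) PP tK tL pcB [⟨3, 0, 0, 1449551462⟩] 2 1 3 0 8 (sgb true) (sgb true) x :=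
  strip_altAD (m := 1449551462) true rfl hκ (SH.κ0 hκ (SH.hx1 hx).le (SH.hx2 hx').le) (SH.hx1 hx).le (SH.hx2 hx') (covB02).cov (covB81).cov hx hx' c_A08pp_213_s1 cutA_nil (noExt_A)

noncomputable def cut_A08pm_001_s1 : Cut := Cut.of [[⟨4, 0, 0, 1449551462⟩]]

noncomputable def xt_A08pm_001_s1 : Ext := strExt6 dd true true false .u0 .s0m .u0m .up 0 0 1 rfl rfl gf1 vv ww ndB0q0 ndB8q0

noncomputable def f_A08pm_001_s1 : ℕ → ℕ → ℕ → ℕ → Bool := onCell 0 536870912 536870912 536870912 649613803 48318383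
    (rowF 1 true true false .up 0 0 1 (qsf 0 536870912 0 536870912 1) ndB0q0 ndB8q0 pcB1 cut_A08pm_001_s1 xt_A08pm_001_s1)

def k0_A08pm_001_s1 : ∃ t, chk3 f_A08pm_001_s1 t 2 1 1 = true :=
  ⟨(b (l 3) (b (b (l 3) (l 2)) (l 2))), by decide +kernel⟩

def k1_A08pm_001_s1 : ∃ t, chk3 f_A08pm_001_s1 t 3 2 1 = true :=
  ⟨(b (l 3) (a (l 3) (b (a (l 3) (b (a (l 3) (a (l 3) (l 1061832207))) (a (b (l 3) (l 1059894287)) (b (l 1061303823) (l 1063036943))))) (a (b (a (l 3) (a (l 3) (l 1057810447))) (a (b (l 1050824719) (l 1048541199)) (a (b (b (l 1055272463) (l 1053880335)) (l 1052282895)) (b (b (l 1056495119) (l 1055760399)) (b (l 16763336) (l 16729168)))))) (b (a (l 1058887183) (a (l 1059777039) (l 1060301839))) (a (b (a (l 1057016335) (l 16729888)) (a (l 16720592) (l 16706200))) (b (l 16772280) (l 16685888)))))))), by decide +kernel⟩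

def k2_A08pm_001_s1 : ∃ t, chk3 f_A08pm_001_s1 t 3 6 1 = true :=
  ⟨(a (b (a (b (l 3) (a (l 3) (b (l 3) (a (l 3) (b (l 3) (l 1041147407)))))) (b (a (l 3) (b (a (l 3) (a (l 1046021647) (l 1046598671))) (a (l 1044516879) (l 1045974543)))) (a (b (a (a (l 3) (l 1042228239)) (l 1043019791)) (a (b (l 1041964559) (l 1041906191)) (l 1042885135))) (b (a (l 1044219919) (l 1045642255)) (a (l 1043994639) (l 1045251599)))))) (a (a (l 2) (b (a (l 2) (b (l 1041198095) (l 2))) (l 2))) (b (a (b (a (a (l 1041683983) (l 1042075151)) (l 1042729487)) (a (l 1041963023) (l 1044325391))) (b (a (l 1043742223) (l 16696976)) (a (l 1043632143) (l 16660592)))) (a (b (a (l 2) (l 1042845199)) (l 2)) (b (a (l 16635880) (c (l 16625152) (l 16623224))) (a (l 16610072) (l 16587928))))))) (b (a (b (a (b (a (l 1047459343) (l 1048703503)) (a (l 1047092239) (l 1048282639))) (b (a (l 1050222095) (l 16749040)) (a (l 1049563151) (l 16673864)))) (b (a (a (l 1046778383)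 (l 16722600)) (b (l 16701384) (l 16685984))) (a (a (l 1046487567) (l 16668928)) (a (l 16629256) (l 16611624))))) (b (a (b (c (l 16774952) (l 16722280)) (l 16696344)) (b (l 16659328) (l 16631392))) (a (b (l 16662112) (l 16623488)) (l 16749368)))) (a (b (b (a (a (l 16675456) (l 16697312)) (a (l 16637152) (l 16578232))) (a (a (l 16639592) (l 16620080)) (a (l 16644496) (l 16543800)))) (a (a (b (l 16603568) (l 16609320)) (b (l 16626400) (l 16590360))) (a (l 16569736) (l 16574728)))) (a (b (a (l 16626048) (l 16605248)) (a (l 16473584) (l 16454320))) (b (l 16581024) (l 16503584)))))), by decide +kernel⟩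

def k3_A08pm_001_s1 : ∃ t, chk3 f_A08pm_001_s1 t 3 7 1 = true :=
  ⟨(a (b (a (l 2) (b (a (l 2) (b (a (l 2) (l 16593928)) (l 2))) (l 2))) (l 2)) (a (b (b (a (b (l 16542304) (l 16485936)) (a (l 16498344) (l 16503840))) (a (b (l 16493376) (l 2)) (l 16461840))) (a (l 2) (b (l 16375096) (l 2)))) (b (a (b (l 16477992) (l 16408216)) (b (l 16437064) (l 16369856))) (b (a (l 16340632) (l 16218952)) (a (l 16280400) (l 16238776)))))), by decide +kernel⟩

theorem t4_A08pm_001_s1 : ∃ t, chk3 f_A08pm_001_s1 t 3 3 1 = true := ex3_b k2_A08pm_001_s1 k3_A08pm_001_s1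

theorem t5_A08pm_001_s1 : ∃ t, chk3 f_A08pm_001_s1 t 3 1 1 = true := ex3_b k1_A08pm_001_s1 t4_A08pm_001_s1

theorem t6_A08pm_001_s1 : ∃ t, chk3 f_A08pm_001_s1 t 1 1 1 = true := ex3_a k0_A08pm_001_s1 t5_A08pm_001_s1

theorem c_A08pm_001_s1 : CertF 0 536870912 0 536870912 649613803 48318383 true true false .up 0 0 1
    ndB0q0 ndB8q0 pcB1 cut_A08pm_001_s1 xt_A08pm_001_s1 :=
  certF1 (fam := true) (s1 := true) (s2 := false) (a := 0) (b := 0) (c := 1) (cn := .up) (n1 := ndB0q0) (n2 := ndB8q0) (pc := pcB1) (cut := cut_A08pm_001_s1) (xt := xt_A08pm_001_s1) (P1 := 0) (W1 := 536870912) (P2 := 0) (W2 := 536870912) (P3 := 649613803) (W3 := 48318383)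
    rfl (fun _ => rfl) t6_A08pm_001_s1

theorem s_A08pm_001_s1 {κ x : ℝ} (hκ : κ * h0 = ken x) (hx : ((649613803 : ℕ) : ℝ) / S ≤ x)
    (hx' : x ≤ (((649613803 : ℕ) : ℝ) + (48318383 : ℕ)) / S) :
    AltA (VFD κ) PP tK tL pcB [⟨3, 0, 0, 1449551462⟩] 0 0 1 0 8 (sgb true) (sgb false) x :=
  strip_altAD (m := 1449551462) true rfl hκ (SH.κ0 hκ (SH.hx1 hx).le (SH.hx2 hx').le) (SH.hx1 hx).le (SH.hx2 hx') (covB00).cov (covB80).cov hx hx' c_A08pm_001_s1 cutA_nil ((okx6 hx hx').extA (T := tt) (okx hx hx') (sideB hx hx') hκ rfl rfl (.O 0 true) (.N 0 false) (Or.inr rfl))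

noncomputable def cut_A08pm_011_s1 : Cut := Cut.of [[⟨4, 0, 0, 1449551462⟩], [⟨0, 0, 0, 53687091⟩, ⟨1, 1, 0, 53687091⟩, ⟨2, 1, 0, 53687091⟩]]

noncomputable def xt_A08pm_011_s1 : Ext := strExt6 dd true true false .u0 .s0m .u0m .pnn 0 1 1 rfl rfl gf1 vv ww ndB0q0 ndB8q1

noncomputable def f_A08pm_011_s1 : ℕ → ℕ → ℕ → ℕ → Bool := onCell 0 536870912 536870912 536870912 649613803 48318383
    (rowF 1 true true false .pnn 0 1 1 (qsf 0 536870912 536870912 536870912 1) ndB0q0 ndB8q1 pcB1 cut_A08pm_011_s1 xt_A08pm_011_s1)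

def k0_A08pm_011_s1 : ∃ t, chk3 f_A08pm_011_s1 t 1 2 1 = true :=
  ⟨(a (l 3) (b (l 1) (a (l 3) (l 1)))), by decide +kernel⟩

def k1_A08pm_011_s1 : ∃ t, chk3 f_A08pm_011_s1 t 2 6 1 = true :=
  ⟨(b (l 3) (a (l 3) (a (l 3) (b (l 3) (a (a (l 3) (b (l 3) (l 1042983951))) (b (a (l 3) (b (l 1040906767) (l 1041475599))) (l 1042727951))))))), by decide +kernel⟩

def k2_A08pm_011_s1 : ∃ t, chk3 f_A08pm_011_s1 t 4 7 1 = true :=
  ⟨(b (b (l 3) (a (l 3) (a (l 3) (a (l 3) (b (l 3) (l 1047045135)))))) (b (a (a (l 3) (a (l 3) (a (l 3) (a (l 3) (b (l 3) (l 1047708175)))))) (a (a (b (l 3) (a (l 1050930703) (l 1049367567))) (a (b (l 3) (l 1047798799)) (b (l 1047478799) (l 1047832591)))) (a (b (l 1047428111) (b (l 1047657999) (l 1047806479))) (b (l 1047373327) (l 1047686159))))) (a (b (b (a (l 3) (a (a (l 3) (a (l 3) (l 1047859727))) (a (l 1048389647) (l 1047925775)))) (a (b (l 3) (b (l 3) (l 14))) (a (a (a (l 1047912975) (l 1047942671))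 (a (l 1047972879) (l 1048003599))) (a (l 1049612815) (l 1048084495))))) (b (a (l 14) (a (a (a (l 1049623567) (l 1048045583)) (a (l 1048078863) (l 1048113167))) (a (l 1051339279) (l 1048209423)))) (a (l 14) (a (a (l 14) (a (l 1048164367) (l 1048202767))) (a (b (l 16734168) (l 16725928)) (l 1048314383)))))) (a (a (b (a (l 1049707023) (l 1048111631)) (a (l 1051039759) (l 1048442895))) (a (b (l 1048144399) (l 1048419855)) (b (l 1048113167) (l 1048385551)))) (a (b (l 1051242511) (b (l 16687944) (l 16671760))) (b (l 1047984655) (l 16681832))))))), by decide +kernel⟩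

def k3_A08pm_011_s1 : ∃ t, chk3 f_A08pm_011_s1 t 5 7 1 = true :=
  ⟨(b (a (b (a (l 3) (b (l 3) (l 1048081423))) (a (a (b (l 3) (l 1046967311)) (b (a (l 1046427663) (l 1046357007)) (l 1046867983))) (b (l 1048281615) (a (l 1046241807) (l 1047783439))))) (b (a (b (a (l 1044258831) (b (l 1043874319) (l 1044415503))) (a (l 1045204495) (b (l 1044918799) (l 1045378063)))) (b (a (l 1044081679) (l 1044039183)) (a (l 1046725647) (l 1045113871)))) (a (b (a (l 1046045711) (l 1046535695)) (a (l 1047733263) (l 1046647311))) (b (a (l 1045993487) (l 16694720)) (a (l 16686040) (l 16663576)))))) (b (a (a (b (a (l 1047325199) (l 1047258127)) (a (l 1047654927) (l 16707184))) (b (a (l 1047197711) (l 16698272)) (a (l 16686792) (l 16645032)))) (a (a (b (l 16697928) (l 16665856)) (b (l 16676328) (l 16644632))) (b (a (l 16654512) (l 16674560)) (a (l 16664976) (l 16559416))))) (a (a (a (b (l 16694744) (l 16641504)) (b (l 16653912) (l 16621752)))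 (b (l 16654840) (b (l 16599424) (l 16583448)))) (a (b (l 16607712) (a (l 16560560) (l 16539872))) (b (l 16623240) (l 16592792)))))), by decide +kernel⟩

def k4_A08pm_011_s1 : ∃ t, chk3 f_A08pm_011_s1 t 3 6 1 = true :=
  ⟨(a (b (a (b (l 3) (a (l 3) (b (l 3) (a (l 3) (b (l 3) (l 1041149455)))))) (b (l 1) (a (b (l 1) (a (b (l 1) (l 1041908239)) (l 1))) (l 1)))) (a (b (b (a (l 3) (a (l 1040777231) (l 1041202191))) (b (a (a (l 3) (l 1040638479)) (l 1041133071)) (a (a (a (l 3) (a (l 1040643599) (l 1040686095))) (l 1040812559)) (l 1041269263)))) (a (a (a (b (l 1040989711) (l 1042681359)) (b (a (l 1041045007) (b (l 1040904719) (l 1041373711))) (l 1042615311))) (b (b (c (l 1041579535) (l 1040986639)) (a (l 1041399823) (l 1041447439))) (a (b (l 1042207759) (l 16719336)) (l 1042620943)))) (b (b (l 1041436687) (l 1041639951)) (a (l 1042122767) (l 16677888))))) (b (a (b (a (a (l 1041686031) (l 1042077199)) (l 1042733071)) (a (l 1041966607)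 (a (l 16693552) (l 16680880)))) (b (l 1) (a (l 120292409511) (l 1)))) (a (b (a (l 1042199567) (l 16660384)) (a (l 16660880) (l 16634232))) (b (a (l 16646704) (l 16624552)) (a (l 16589440) (l 16588272))))))) (b (l 1) (a (b (l 1) (a (a (b (l 1) (l 16525792)) (l 1)) (l 1))) (l 1)))), by decide +kernel⟩

def k5_A08pm_011_s1 : ∃ t, chk3 f_A08pm_011_s1 t 3 7 1 = true :=
  ⟨(a (b (b (a (a (a (b (b (l 1044804623) (l 16705456)) (l 1045149199)) (b (b (l 16696408) (l 16659520)) (l 16678200))) (a (b (l 16683720) (l 16611688)) (b (l 16615712) (l 16586936)))) (a (a (b (l 16589272) (l 16561016)) (b (l 16604136) (l 16534096))) (b (c (l 16574040) (l 16562928)) (l 16532744)))) (a (a (a (b (l 16671456) (l 16640992)) (b (l 16606096) (l 16576160))) (b (b (l 16580312) (l 16646888)) (a (l 16552880) (l 16529304)))) (a (b (l 16519960) (l 16576704)) (b (l 16465328) (l 16440904))))) (a (b (a (a (b (l 16568216) (l 16537760)) (b (l 16545920) (l 16516120)))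 (b (l 16596088) (l 16567624))) (a (b (l 16497288) (l 16468048)) (b (l 16455720) (l 16428064)))) (a (b (b (l 16550088) (l 16440032)) (b (l 16414104) (l 16388432))) (b (l 16405608) (l 16443000))))) (b (a (b (a (b (l 16522120) (l 16528648)) (c (l 16513808) (l 16510360))) (a (l 16456328) (l 16442288))) (a (b (l 1) (l 16409752)) (l 1))) (a (a (b (l 16352264) (l 16312544)) (b (l 16292160) (l 16257800))) (a (b (l 16258184) (l 16195464)) (b (l 16220544) (l 16240240)))))), by decide +kernel⟩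

theorem t6_A08pm_011_s1 : ∃ t, chk3 f_A08pm_011_s1 t 3 3 1 = true := ex3_b k4_A08pm_011_s1 k5_A08pm_011_s1

theorem t7_A08pm_011_s1 : ∃ t, chk3 f_A08pm_011_s1 t 2 7 1 = true := ex3_a k2_A08pm_011_s1 k3_A08pm_011_s1

theorem t8_A08pm_011_s1 : ∃ t, chk3 f_A08pm_011_s1 t 2 3 1 = true := ex3_b k1_A08pm_011_s1 t7_A08pm_011_s1

theorem t9_A08pm_011_s1 : ∃ t, chk3 f_A08pm_011_s1 t 1 3 1 = true := ex3_a t8_A08pm_011_s1 t6_A08pm_011_s1

theorem t10_A08pm_011_s1 : ∃ t, chk3 f_A08pm_011_s1 t 1 1 1 = true := ex3_b k0_A08pm_011_s1 t9_A08pm_011_s1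

theorem c_A08pm_011_s1 : CertF 0 536870912 536870912 536870912 649613803 48318383 true true false .pnn 0 1 1
    ndB0q0 ndB8q1 pcB1 cut_A08pm_011_s1 xt_A08pm_011_s1 :=
  certF1 (fam := true) (s1 := true) (s2 := false) (a := 0) (b := 1) (c := 1) (cn := .pnn) (n1 := ndB0q0) (n2 := ndB8q1) (pc := pcB1) (cut := cut_A08pm_011_s1) (xt := xt_A08pm_011_s1) (P1 := 0) (W1 := 536870912) (P2 := 536870912) (W2 := 536870912) (P3 := 649613803) (W3 := 48318383)
    rfl (fun _ => rfl) t10_A08pm_011_s1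

theorem s_A08pm_011_s1 {κ x : ℝ} (hκ : κ * h0 = ken x) (hx : ((649613803 : ℕ) : ℝ) / S ≤ x)
    (hx' : x ≤ (((649613803 : ℕ) : ℝ) + (48318383 : ℕ)) / S)
    (H : CutA (VFD κ) PP tK tL pcB (Cut.of [[⟨0, 0, 0, 53687091⟩, ⟨1, 1, 0, 53687091⟩, ⟨2, 1, 0, 53687091⟩]]) 0 1 1 0 8 (sgb true) (sgb false) x) :
    AltA (VFD κ) PP tK tL pcB [⟨3, 0, 0, 1449551462⟩] 0 1 1 0 8 (sgb true) (sgb false) x :=
  strip_altAD (m := 1449551462) true rfl hκ (SH.κ0 hκ (SH.hx1 hx).le (SH.hx2 hx').le) (SH.hx1 hx).le (SH.hx2 hx') (covB00).cov (covB81).cov hx hx' c_A08pm_011_s1 H ((okx6 hx hx').extA (T := tt) (okx hx hx') (sideB hx hx') hκ rfl rfl (.O 0 true) (.N 1 false) (Or.inr rfl))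

noncomputable def cut_A08pm_012_s1 : Cut := Cut.of [[⟨4, 0, 0, 1449551462⟩], [⟨0, 0, 0, 67108864⟩, ⟨1, 1, 0, 67108864⟩, ⟨2, 1, 0, 67108864⟩]]

noncomputable def f_A08pm_012_s1 : ℕ → ℕ → ℕ → ℕ → Bool := onCell 1073741824 536870912 536870912 536870912 649613803 48318383
    (rowF 2 true true false .pnp 0 1 2 (qsf 0 536870912 536870912 536870912 2) ndB0q0 ndB8q1 pcB2 cut_A08pm_012_s1 Ext.none)

def k0_A08pm_012_s1 : ∃ t, chk3 f_A08pm_012_s1 t 4 2 1 = true :=
  ⟨(b (a (b (a (a (l 16246968) (l 16178384)) (l 6)) (a (b (l 16193408) (l 16214400)) (b (l 16069408) (l 16132744)))) (l 6)) (a (b (a (b (a (l 16287400) (l 16248464)) (a (l 16417624) (l 16294440))) (b (a (l 16208616) (l 16168520)) (l 16403544))) (b (a (a (l 16461008) (l 16336456)) (a (l 16296536) (l 16257176))) (a (a (b (l 16409096) (l 16430456)) (l 16377040)) (a (l 16335408) (l 16294792))))) (b (a (b (l 16190264) (l 16156368)) (l 6)) (a (b (l 16198696) (l 16319408)) (b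 (l 16119920) (l 16158480)))))), by decide +kernel⟩

def k1_A08pm_012_s1 : ∃ t, chk3 f_A08pm_012_s1 t 8 3 1 = true :=
  ⟨(b (b (a (b (a (l 16462640) (l 16501592)) (a (l 16547736) (l 16542640))) (b (a (l 16373968) (l 16331328)) (b (l 16464648) (l 16483584)))) (a (a (b (l 16590272) (b (l 16579400) (l 16599472))) (b (l 16499488) (l 16539048))) (b (a (l 16535496) (l 16404776)) (b (l 16539768) (l 16599808))))) (a (b (a (b (b (l 16619024) (l 16679960)) (b (c (l 16677824) (l 16698056)) (a (l 16708432) (l 16660912)))) (b (l 16618480) (b (a (l 16616424) (l 16589992)) (a (l 16675728) (l 16606912))))) (a (b (b (a (a (l 16720776) (l 16699008)) (l 16678176)) (a (l 14) (b (l 16690632) (l 14)))) (l 14)) (b (a (b (l 16671568) (b (l 16662728) (l 16670552))) (b (l 16623240) (l 16680832))) (b (a (l 14) (b (l 16650040) (l 14))) (l 14))))) (a (b (b (c (l 16611576) (l 16606664)) (b (l 16550816) (l 16650944))) (b (a (b (l 16596152) (l 16611344))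 (b (l 16569312) (l 16584008))) (b (b (l 16629248) (a (l 16629040) (l 16601144))) (b (a (l 14) (l 16607520)) (l 14))))) (b (b (l 16559080) (b (l 16499448) (l 16514856))) (b (b (l 16529584) (l 16585520)) (b (b (l 16553488) (l 16559816)) (b (l 16607768) (a (l 16585488) (l 16557664))))))))), by decide +kernel⟩

def k2_A08pm_012_s1 : ∃ t, chk3 f_A08pm_012_s1 t 9 3 1 = true :=
  ⟨(b (b (a (b (l 16353760) (a (l 16324672) (l 16282648))) (b (l 16191832) (l 16222552))) (a (b (a (l 16359200) (l 16315104)) (a (l 16393368) (l 16347176))) (b (l 16335960) (l 16364688)))) (b (b (a (b (l 16394120) (l 16493392)) (c (l 16400152) (l 16300608))) (a (a (l 16540360) (l 16406880)) (a (l 16358384) (l 16311264)))) (b (a (a (b (l 16477584) (l 16490624)) (a (l 16529528) (l 16420256))) (a (a (l 16395168) (l 16370408)) (l 16417664))) (a (a (b (l 16544688) (b (l 16511128) (l 16516360))) (b (l 16449992) (c (l 16508256) (l 16453424)))) (a (b (l 16398424)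 (l 16470280)) (b (l 16347992) (l 16439776))))))), by decide +kernel⟩

def k3_A08pm_012_s1 : ∃ t, chk3 f_A08pm_012_s1 t 5 1 1 = true :=
  ⟨(b (b (l 6) (l 6)) (b (a (b (a (a (l 16234584) (l 6)) (l 6)) (a (a (b (l 16192680) (l 16218416)) (a (l 16176944) (b (l 6) (l 16339560)))) (b (l 6) (l 16127512)))) (l 6)) (a (b (a (a (b (l 16242784) (l 16265712)) (b (a (l 16211624) (a (l 16196672) (l 16187728))) (a (l 16232688) (a (l 16216696) (l 16206568))))) (b (l 16229392) (a (l 16180656) (l 16142232)))) (a (a (b (l 16369936) (b (l 16298736) (l 16389368))) (a (b (l 16251248) (b (l 16262568) (l 16268392))) (a (b (l 16234144) (l 16247400)) (a (b (l 16225616) (l 16238032)) (b (l 16219880) (l 16231408)))))) (a (b (l 16195448) (l 16205744)) (b (l 16153464) (l 16160640))))) (a (b (l 6) (b (l 16096080) (l 16223056))) (l 6))))), by decide +kernel⟩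

def k4_A08pm_012_s1 : ∃ t, chk3 f_A08pm_012_s1 t 3 1 1 = true :=
  ⟨(b (l 6) (l 6)), by decide +kernel⟩

theorem t5_A08pm_012_s1 : ∃ t, chk3 f_A08pm_012_s1 t 4 3 1 = true := ex3_a k1_A08pm_012_s1 k2_A08pm_012_s1

theorem t6_A08pm_012_s1 : ∃ t, chk3 f_A08pm_012_s1 t 4 1 1 = true := ex3_b k0_A08pm_012_s1 t5_A08pm_012_s1

theorem t7_A08pm_012_s1 : ∃ t, chk3 f_A08pm_012_s1 t 2 1 1 = true := ex3_a t6_A08pm_012_s1 k3_A08pm_012_s1

theorem t8_A08pm_012_s1 : ∃ t, chk3 f_A08pm_012_s1 t 1 1 1 = true := ex3_a t7_A08pm_012_s1 k4_A08pm_012_s1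

theorem c_A08pm_012_s1 : CertF 0 536870912 536870912 536870912 649613803 48318383 true true false .pnp 0 1 2
    ndB0q0 ndB8q1 pcB2 cut_A08pm_012_s1 Ext.none :=
  certF2 (fam := true) (s1 := true) (s2 := false) (a := 0) (b := 1) (c := 2) (cn := .pnp) (n1 := ndB0q0) (n2 := ndB8q1) (pc := pcB2) (cut := cut_A08pm_012_s1) (xt := Ext.none) (P1 := 0) (W1 := 536870912) (P2 := 536870912) (W2 := 536870912) (P3 := 649613803) (W3 := 48318383)
    rfl (fun _ => rfl) t8_A08pm_012_s1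

theorem s_A08pm_012_s1 {κ x : ℝ} (hκ : κ * h0 = ken x) (hx : ((649613803 : ℕ) : ℝ) / S ≤ x)
    (hx' : x ≤ (((649613803 : ℕ) : ℝ) + (48318383 : ℕ)) / S)
    (H : CutA (VFD κ) PP tK tL pcB (Cut.of [[⟨0, 0, 0, 67108864⟩, ⟨1, 1, 0, 67108864⟩, ⟨2, 1, 0, 67108864⟩]]) 0 1 2 0 8 (sgb true) (sgb false) x) :
    AltA (VFD κ) PP tK tL pcB [⟨3, 0, 0, 1449551462⟩] 0 1 2 0 8 (sgb true) (sgb false) x :=
  strip_altAD (m := 1449551462) true rfl hκ (SH.κ0 hκ (SH.hx1 hx).le (SH.hx2 hx').le) (SH.hx1 hx).le (SH.hx2 hx') (covB00).cov (covB81).cov hx hx' c_A08pm_012_s1 H (noExt_A)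

noncomputable def cut_A08pm_022_s1 : Cut := Cut.of [[⟨4, 0, 0, 1449551462⟩], [⟨0, 0, 0, 67108864⟩, ⟨1, 1, 0, 67108864⟩, ⟨2, 1, 0, 67108864⟩]]

noncomputable def f_A08pm_022_s1 : ℕ → ℕ → ℕ → ℕ → Bool := onCell 1073741824 536870912 1073741824 536870912 649613803 48318383
    (rowF 2 true true false .pp 0 2 2 (qsf 0 536870912 1073741824 536870912 2) ndB0q0 ndB8q2 pcB2 cut_A08pm_022_s1 Ext.none)

def k0_A08pm_022_s1 : ∃ t, chk3 f_A08pm_022_s1 t 4 1 1 = true :=
  ⟨(b (a (b (b (a (b (l 14) (b (l 14) (l 1))) (a (b (l 14) (b (l 14) (a (l 1) (l 571264021879)))) (a (b (l 14) (b (l 14) (l 377453587735))) (b (b (l 16575104) (l 16602752)) (b (l 16628264) (l 183106323847)))))) (a (l 1) (b (a (l 1) (b (a (l 1) (l 589517566647)) (l 1))) (l 1)))) (l 1)) (b (b (a (b (b (a (b (l 16526368) (l 16540936)) (b (l 16472112) (l 16486880))) (a (l 16603568) (l 16507792))) (b (a (b (l 16580984) (l 16677128)) (l 16533552)) (a (l 16610608) (l 16557184))))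 (a (b (b (l 16510424) (l 16455080)) (a (l 16590096) (l 16480432))) (b (b (l 16374632) (l 16403408)) (b (l 16429792) (l 16453872))))) (a (b (a (b (a (l 366716115207) (l 16618560)) (l 546567845879)) (b (l 16578776) (l 239477670119))) (a (l 1) (l 520797976599))) (b (a (b (l 16526808) (l 16546664)) (b (l 16559720) (l 16496072))) (a (b (l 220687135255) (l 481069476487)) (b (l 16514336) (l 16530696)))))) (a (l 1) (b (b (a (l 1) (l 474626948839)) (l 1)) (l 1))))) (l 1)), by decide +kernel⟩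

def k1_A08pm_022_s1 : ∃ t, chk3 f_A08pm_022_s1 t 5 1 1 = true :=
  ⟨(b (a (b (b (a (a (b (b (l 16407680) (l 16352816)) (b (l 16379400) (l 16403736))) (a (b (l 16385104) (l 16354720)) (a (b (l 16282408) (l 16336000)) (a (b (l 16272584) (l 16326152)) (b (l 16265416) (l 16318864)))))) (a (b (l 16239400) (l 16293192)) (b (l 16193384) (l 16248024)))) (a (a (a (b (l 16448616) (l 16485848)) (b (l 16424072) (l 16461224))) (a (b (l 16399448) (b (l 16427768) (l 16444624))) (a (b (l 16380800) (l 16417632)) (b (a (l 16370912) (l 16363504)) (a (l 16407832) (l 16400344)))))) (b (a (l 16338080) (l 16293672)) (a (l 16375136) (l 16331536))))) (b (a (a (b (b (l 16580160) (l 365642176183)) (l 1)) (a (b (l 16466640) (l 1)) (a (b (l 16447976) (l 1)) (a (b (b (l 16430456) (l 16443952)) (l 1)) (a (b (a (a (l 16433072) (a (l 16432016) (l 16472872))) (l 16429968)) (l 1)) (b (l 16427872) (l 16450648))))))) (b (a (c (l 16491520) (l 16485616)) (l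 16361672)) (a (l 16427624) (l 16385568)))) (a (l 1) (b (l 291553993415) (l 1))))) (a (b (b (b (l 16211632) (l 16183560)) (b (l 16230392) (l 16269488))) (b (b (l 16301080) (l 16409864)) (b (l 16343152) (l 282963918423)))) (b (b (b (l 6) (l 16106696)) (b (l 16154280) (l 16194416))) (b (b (l 16227216) (l 16253040)) (b (l 16271776) (l 16281216)))))) (a (l 1) (b (b (b (l 377990101383) (l 1)) (l 1)) (l 1)))), by decide +kernel⟩

def k2_A08pm_022_s1 : ∃ t, chk3 f_A08pm_022_s1 t 3 1 1 = true :=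
  ⟨(a (a (b (b (l 6) (a (b (b (l 16162048) (l 16188168)) (b (l 16207776) (l 16219208))) (l 6))) (b (b (b (l 16276872) (l 207801865303)) (b (l 434361174759) (l 1))) (l 1))) (b (l 6) (a (b (l 6) (l 1)) (l 6)))) (b (l 6) (l 6))), by decide +kernel⟩

theorem t3_A08pm_022_s1 : ∃ t, chk3 f_A08pm_022_s1 t 2 1 1 = true := ex3_a k0_A08pm_022_s1 k1_A08pm_022_s1

theorem t4_A08pm_022_s1 : ∃ t, chk3 f_A08pm_022_s1 t 1 1 1 = true := ex3_a t3_A08pm_022_s1 k2_A08pm_022_s1

theorem c_A08pm_022_s1 : CertF 0 536870912 1073741824 536870912 649613803 48318383 true true false .pp 0 2 2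
    ndB0q0 ndB8q2 pcB2 cut_A08pm_022_s1 Ext.none :=
  certF2 (fam := true) (s1 := true) (s2 := false) (a := 0) (b := 2) (c := 2) (cn := .pp) (n1 := ndB0q0) (n2 := ndB8q2) (pc := pcB2) (cut := cut_A08pm_022_s1) (xt := Ext.none) (P1 := 0) (W1 := 536870912) (P2 := 1073741824) (W2 := 536870912) (P3 := 649613803) (W3 := 48318383)
    rfl (fun _ => rfl) t4_A08pm_022_s1

theorem s_A08pm_022_s1 {κ x : ℝ} (hκ : κ * h0 = ken x) (hx : ((649613803 : ℕ) : ℝ) / S ≤ x)
    (hx' : x ≤ (((649613803 : ℕ) : ℝ) + (48318383 : ℕ)) / S)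
    (H : CutA (VFD κ) PP tK tL pcB (Cut.of [[⟨0, 0, 0, 67108864⟩, ⟨1, 1, 0, 67108864⟩, ⟨2, 1, 0, 67108864⟩]]) 0 2 2 0 8 (sgb true) (sgb false) x) :
    AltA (VFD κ) PP tK tL pcB [⟨3, 0, 0, 1449551462⟩] 0 2 2 0 8 (sgb true) (sgb false) x :=
  strip_altAD (m := 1449551462) true rfl hκ (SH.κ0 hκ (SH.hx1 hx).le (SH.hx2 hx').le) (SH.hx1 hx).le (SH.hx2 hx') (covB00).cov (covB82).cov hx hx' c_A08pm_022_s1 H (noExt_A)

noncomputable def cut_A08pm_023_s1 : Cut := Cut.of [[⟨4, 0, 0, 1449551462⟩]]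

noncomputable def f_A08pm_023_s1 : ℕ → ℕ → ℕ → ℕ → Bool := onCell 1610612736 536870912 1073741824 536870912 649613803 48318383
    (rowF 2 true true false .up 0 2 3 (qsf 0 536870912 1073741824 536870912 3) ndB0q0 ndB8q2 pcB3 cut_A08pm_023_s1 Ext.none)

def k0_A08pm_023_s1 : ∃ t, chk3 f_A08pm_023_s1 t 1 1 1 = true :=
  ⟨(a (l 6) (l 6)), by decide +kernel⟩

theorem c_A08pm_023_s1 : CertF 0 536870912 1073741824 536870912 649613803 48318383 true true false .up 0 2 3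
    ndB0q0 ndB8q2 pcB3 cut_A08pm_023_s1 Ext.none :=
  certF2 (fam := true) (s1 := true) (s2 := false) (a := 0) (b := 2) (c := 3) (cn := .up) (n1 := ndB0q0) (n2 := ndB8q2) (pc := pcB3) (cut := cut_A08pm_023_s1) (xt := Ext.none) (P1 := 0) (W1 := 536870912) (P2 := 1073741824) (W2 := 536870912) (P3 := 649613803) (W3 := 48318383)
    rfl (fun _ => rfl) k0_A08pm_023_s1

theorem s_A08pm_023_s1 {κ x : ℝ} (hκ : κ * h0 = ken x) (hx : ((649613803 : ℕ) : ℝ) / S ≤ x)
    (hx' : x ≤ (((649613803 : ℕ) : ℝ) + (48318383 : ℕ)) / S) :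
    AltA (VFD κ) PP tK tL pcB [⟨3, 0, 0, 1449551462⟩] 0 2 3 0 8 (sgb true) (sgb false) x :=
  strip_altAD (m := 1449551462) true rfl hκ (SH.κ0 hκ (SH.hx1 hx).le (SH.hx2 hx').le) (SH.hx1 hx).le (SH.hx2 hx') (covB00).cov (covB82).cov hx hx' c_A08pm_023_s1 cutA_nil (noExt_A)

noncomputable def cut_A08pm_033_s1 : Cut := Cut.of [[⟨4, 0, 0, 1449551462⟩]]

noncomputable def f_A08pm_033_s1 : ℕ → ℕ → ℕ → ℕ → Bool := onCell 1610612736 536870912 0 1230186008 649613803 48318383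
    (rowF 2 true true false .pnn 0 3 3 (qsf 0 536870912 0 1230186008 3) ndB0q0 ndB8q3 pcB3 cut_A08pm_033_s1 Ext.none)

def k0_A08pm_033_s1 : ∃ t, chk3 f_A08pm_033_s1 t 1 1 1 = true :=
  ⟨(b (l 6) (l 6)), by decide +kernel⟩

theorem c_A08pm_033_s1 : CertF 0 536870912 0 1230186008 649613803 48318383 true true false .pnn 0 3 3
    ndB0q0 ndB8q3 pcB3 cut_A08pm_033_s1 Ext.none :=
  certF2 (fam := true) (s1 := true) (s2 := false) (a := 0) (b := 3) (c := 3) (cn := .pnn) (n1 := ndB0q0) (n2 := ndB8q3) (pc := pcB3) (cut := cut_A08pm_033_s1) (xt := Ext.none) (P1 := 0) (W1 := 536870912) (P2 := 0) (W2 := 1230186008) (P3 := 649613803) (W3 := 48318383)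
    rfl (fun _ => rfl) k0_A08pm_033_s1

theorem s_A08pm_033_s1 {κ x : ℝ} (hκ : κ * h0 = ken x) (hx : ((649613803 : ℕ) : ℝ) / S ≤ x)
    (hx' : x ≤ (((649613803 : ℕ) : ℝ) + (48318383 : ℕ)) / S) :
    AltA (VFD κ) PP tK tL pcB [⟨3, 0, 0, 1449551462⟩] 0 3 3 0 8 (sgb true) (sgb false) x :=
  strip_altAD (m := 1449551462) true rfl hκ (SH.κ0 hκ (SH.hx1 hx).le (SH.hx2 hx').le) (SH.hx1 hx).le (SH.hx2 hx') (covB00).cov (covB83).cov hx hx' c_A08pm_033_s1 cutA_nil (noExt_A)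

noncomputable def cut_A08pm_101_s1 : Cut := Cut.of [[⟨4, 0, 0, 1449551462⟩]]

noncomputable def xt_A08pm_101_s1 : Ext := strExt6 dd true true false .u0 .s0m .u0m .npn 1 0 1 rfl rfl gf1 vv ww ndB0q1 ndB8q0

noncomputable def f_A08pm_101_s1 : ℕ → ℕ → ℕ → ℕ → Bool := onCell 536870912 536870912 536870912 536870912 649613803 48318383
    (rowF 1 true true false .npn 1 0 1 (qsf 536870912 536870912 0 536870912 1) ndB0q1 ndB8q0 pcB1 cut_A08pm_101_s1 xt_A08pm_101_s1)

def k0_A08pm_101_s1 : ∃ t, chk3 f_A08pm_101_s1 t 1 1 1 = true :=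
  ⟨(b (a (b (a (a (b (l 3) (b (a (l 3) (l 1062906895)) (a (l 1062307855) (l 1062910991)))) (b (b (l 1) (a (l 1062827535) (l 1))) (b (a (l 1063266831) (l 1063477263)) (a (l 1063408655) (b (l 1063657487) (l 16723568)))))) (b (l 1) (a (b (l 1) (a (l 140156877175) (l 1))) (l 1)))) (a (b (a (b (a (l 1062119439) (l 1062873103)) (b (l 1065420815) (a (l 1061713423) (l 16715904)))) (b (a (b (l 16776352) (l 16721952)) (b (l 16711944) (l 16700232))) (a (a (l 16706720) (l 16696440)) (l 16679672)))) (a (b (a (l 1060999183) (b (l 16699384) (l 16681824))) (a (b (l 16767832) (l 16661760)) (l 16651272))) (b (a (l 16669488) (l 16648720)) (l 16620952)))) (b (a (a (l 16671184) (l 16652648)) (a (l 16639496) (l 1))) (a (a (l 16611312) (l 16591968)) (a (l 16573520) (l 16558960)))))) (a (b (l 1) (a (b (l 1) (l 165389777671)) (l 1))) (l 1))) (a (a (b (b (a (a (b (l 16623512) (l 16563088)) (l 16742520)) (a (l 16558616) (l 16543880))) (a (a (b (l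 16485736) (l 16391312)) (l 16441728)) (b (l 16458128) (l 16297504)))) (b (a (a (b (l 16300504) (l 16237104)) (b (l 16283936) (l 16175008))) (a (l 16232944) (l 16243144))) (a (a (b (l 16173600) (l 16110856)) (b (l 16116024) (l 16057480))) (a (l 16099688) (l 6))))) (a (b (b (a (l 16529880) (l 16516336)) (b (l 16652864) (l 16376352))) (b (b (l 16297520) (l 6)) (l 6))) (b (b (a (l 16503920) (l 16487424)) (a (l 16405080) (l 6))) (l 6)))) (a (a (b (l 6) (l 6)) (l 6)) (l 6)))), by decide +kernel⟩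

theorem c_A08pm_101_s1 : CertF 536870912 536870912 0 536870912 649613803 48318383 true true false .npn 1 0 1
    ndB0q1 ndB8q0 pcB1 cut_A08pm_101_s1 xt_A08pm_101_s1 :=
  certF1 (fam := true) (s1 := true) (s2 := false) (a := 1) (b := 0) (c := 1) (cn := .npn) (n1 := ndB0q1) (n2 := ndB8q0) (pc := pcB1) (cut := cut_A08pm_101_s1) (xt := xt_A08pm_101_s1) (P1 := 536870912) (W1 := 536870912) (P2 := 0) (W2 := 536870912) (P3 := 649613803) (W3 := 48318383)
    rfl (fun _ => rfl) k0_A08pm_101_s1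

theorem s_A08pm_101_s1 {κ x : ℝ} (hκ : κ * h0 = ken x) (hx : ((649613803 : ℕ) : ℝ) / S ≤ x)
    (hx' : x ≤ (((649613803 : ℕ) : ℝ) + (48318383 : ℕ)) / S) :
    AltA (VFD κ) PP tK tL pcB [⟨3, 0, 0, 1449551462⟩] 1 0 1 0 8 (sgb true) (sgb false) x :=
  strip_altAD (m := 1449551462) true rfl hκ (SH.κ0 hκ (SH.hx1 hx).le (SH.hx2 hx').le) (SH.hx1 hx).le (SH.hx2 hx') (covB01).cov (covB80).cov hx hx' c_A08pm_101_s1 cutA_nil ((okx6 hx hx').extA (T := tt) (okx hx hx') (sideB hx hx') hκ rfl rfl (.O 1 true) (.N 0 false) (Or.inr rfl))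

noncomputable def cut_A08pm_102_s1 : Cut := Cut.of [[⟨4, 0, 0, 1449551462⟩]]

noncomputable def f_A08pm_102_s1 : ℕ → ℕ → ℕ → ℕ → Bool := onCell 536870912 536870912 1073741824 536870912 649613803 48318383
    (rowF 1 true true false .npp 1 0 2 (qsf 536870912 536870912 0 536870912 2) ndB0q1 ndB8q0 pcB2 cut_A08pm_102_s1 Ext.none)

def k0_A08pm_102_s1 : ∃ t, chk3 f_A08pm_102_s1 t 1 1 1 = true :=
  ⟨(a (b (a (b (b (a (a (b (l 6) (l 6)) (l 6)) (l 6)) (l 6)) (l 6)) (l 6)) (l 6)) (l 6)), by decide +kernel⟩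

theorem c_A08pm_102_s1 : CertF 536870912 536870912 0 536870912 649613803 48318383 true true false .npp 1 0 2
    ndB0q1 ndB8q0 pcB2 cut_A08pm_102_s1 Ext.none :=
  certF1 (fam := true) (s1 := true) (s2 := false) (a := 1) (b := 0) (c := 2) (cn := .npp) (n1 := ndB0q1) (n2 := ndB8q0) (pc := pcB2) (cut := cut_A08pm_102_s1) (xt := Ext.none) (P1 := 536870912) (W1 := 536870912) (P2 := 0) (W2 := 536870912) (P3 := 649613803) (W3 := 48318383)
    rfl (fun _ => rfl) k0_A08pm_102_s1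

theorem s_A08pm_102_s1 {κ x : ℝ} (hκ : κ * h0 = ken x) (hx : ((649613803 : ℕ) : ℝ) / S ≤ x)
    (hx' : x ≤ (((649613803 : ℕ) : ℝ) + (48318383 : ℕ)) / S) :
    AltA (VFD κ) PP tK tL pcB [⟨3, 0, 0, 1449551462⟩] 1 0 2 0 8 (sgb true) (sgb false) x :=
  strip_altAD (m := 1449551462) true rfl hκ (SH.κ0 hκ (SH.hx1 hx).le (SH.hx2 hx').le) (SH.hx1 hx).le (SH.hx2 hx') (covB01).cov (covB80).cov hx hx' c_A08pm_102_s1 cutA_nil (noExt_A)

noncomputable def cut_A08pm_112_s1 : Cut := Cut.of [[⟨4, 0, 0, 1449551462⟩]]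

noncomputable def f_A08pm_112_s1 : ℕ → ℕ → ℕ → ℕ → Bool := onCell 536870912 536870912 1073741824 536870912 649613803 48318383
    (rowF 1 true true false .dn 1 1 2 (qsf 536870912 536870912 536870912 536870912 2) ndB0q1 ndB8q1 pcB2 cut_A08pm_112_s1 Ext.none)

def k0_A08pm_112_s1 : ∃ t, chk3 f_A08pm_112_s1 t 1 1 1 = true :=
  ⟨(a (b (a (b (a (b (b (l 16181720) (l 6)) (l 6)) (l 6)) (l 6)) (l 6)) (l 6)) (l 6)), by decide +kernel⟩

theorem c_A08pm_112_s1 : CertF 536870912 536870912 536870912 536870912 649613803 48318383 true true false .dn 1 1 2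
    ndB0q1 ndB8q1 pcB2 cut_A08pm_112_s1 Ext.none :=
  certF1 (fam := true) (s1 := true) (s2 := false) (a := 1) (b := 1) (c := 2) (cn := .dn) (n1 := ndB0q1) (n2 := ndB8q1) (pc := pcB2) (cut := cut_A08pm_112_s1) (xt := Ext.none) (P1 := 536870912) (W1 := 536870912) (P2 := 536870912) (W2 := 536870912) (P3 := 649613803) (W3 := 48318383)
    rfl (fun _ => rfl) k0_A08pm_112_s1

theorem s_A08pm_112_s1 {κ x : ℝ} (hκ : κ * h0 = ken x) (hx : ((649613803 : ℕ) : ℝ) / S ≤ x)
    (hx' : x ≤ (((649613803 : ℕ) : ℝ) + (48318383 : ℕ)) / S) :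
    AltA (VFD κ) PP tK tL pcB [⟨3, 0, 0, 1449551462⟩] 1 1 2 0 8 (sgb true) (sgb false) x :=
  strip_altAD (m := 1449551462) true rfl hκ (SH.κ0 hκ (SH.hx1 hx).le (SH.hx2 hx').le) (SH.hx1 hx).le (SH.hx2 hx') (covB01).cov (covB81).cov hx hx' c_A08pm_112_s1 cutA_nil (noExt_A)

noncomputable def cut_A08pm_113_s1 : Cut := Cut.of [[⟨4, 0, 0, 1449551462⟩]]

noncomputable def f_A08pm_113_s1 : ℕ → ℕ → ℕ → ℕ → Bool := onCell 536870912 536870912 1610612736 536870912 649613803 48318383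
    (rowF 1 true true false .nn 1 1 3 (qsf 536870912 536870912 536870912 536870912 3) ndB0q1 ndB8q1 pcB3 cut_A08pm_113_s1 Ext.none)

def k0_A08pm_113_s1 : ∃ t, chk3 f_A08pm_113_s1 t 1 1 1 = true :=
  ⟨(l 6), by decide +kernel⟩

theorem c_A08pm_113_s1 : CertF 536870912 536870912 536870912 536870912 649613803 48318383 true true false .nn 1 1 3
    ndB0q1 ndB8q1 pcB3 cut_A08pm_113_s1 Ext.none :=
  certF1 (fam := true) (s1 := true) (s2 := false) (a := 1) (b := 1) (c := 3) (cn := .nn) (n1 := ndB0q1) (n2 := ndB8q1) (pc := pcB3) (cut := cut_A08pm_113_s1) (xt := Ext.none) (P1 := 536870912) (W1 := 536870912) (P2 := 536870912) (W2 := 536870912) (P3 := 649613803) (W3 := 48318383)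
    rfl (fun _ => rfl) k0_A08pm_113_s1

theorem s_A08pm_113_s1 {κ x : ℝ} (hκ : κ * h0 = ken x) (hx : ((649613803 : ℕ) : ℝ) / S ≤ x)
    (hx' : x ≤ (((649613803 : ℕ) : ℝ) + (48318383 : ℕ)) / S) :
    AltA (VFD κ) PP tK tL pcB [⟨3, 0, 0, 1449551462⟩] 1 1 3 0 8 (sgb true) (sgb false) x :=
  strip_altAD (m := 1449551462) true rfl hκ (SH.κ0 hκ (SH.hx1 hx).le (SH.hx2 hx').le) (SH.hx1 hx).le (SH.hx2 hx') (covB01).cov (covB81).cov hx hx' c_A08pm_113_s1 cutA_nil (noExt_A)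

noncomputable def cut_A08pm_123_s1 : Cut := Cut.of [[⟨4, 0, 0, 1449551462⟩]]

noncomputable def f_A08pm_123_s1 : ℕ → ℕ → ℕ → ℕ → Bool := onCell 536870912 536870912 1073741824 536870912 649613803 48318383
    (rowF 0 true true false .npn 1 2 3 (qsf 536870912 536870912 1073741824 536870912 3) ndB0q1 ndB8q2 pcB3 cut_A08pm_123_s1 Ext.none)

def k0_A08pm_123_s1 : ∃ t, chk3 f_A08pm_123_s1 t 1 1 1 = true :=
  ⟨(l 6), by decide +kernel⟩

theorem c_A08pm_123_s1 : CertF 536870912 536870912 1073741824 536870912 649613803 48318383 true true false .npn 1 2 3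
    ndB0q1 ndB8q2 pcB3 cut_A08pm_123_s1 Ext.none :=
  certF0 (fam := true) (s1 := true) (s2 := false) (a := 1) (b := 2) (c := 3) (cn := .npn) (n1 := ndB0q1) (n2 := ndB8q2) (pc := pcB3) (cut := cut_A08pm_123_s1) (xt := Ext.none) (P1 := 536870912) (W1 := 536870912) (P2 := 1073741824) (W2 := 536870912) (P3 := 649613803) (W3 := 48318383)
    rfl k0_A08pm_123_s1

theorem s_A08pm_123_s1 {κ x : ℝ} (hκ : κ * h0 = ken x) (hx : ((649613803 : ℕ) : ℝ) / S ≤ x)
    (hx' : x ≤ (((649613803 : ℕ) : ℝ) + (48318383 : ℕ)) / S) :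
    AltA (VFD κ) PP tK tL pcB [⟨3, 0, 0, 1449551462⟩] 1 2 3 0 8 (sgb true) (sgb false) x :=
  strip_altAD (m := 1449551462) true rfl hκ (SH.κ0 hκ (SH.hx1 hx).le (SH.hx2 hx').le) (SH.hx1 hx).le (SH.hx2 hx') (covB01).cov (covB82).cov hx hx' c_A08pm_123_s1 cutA_nil (noExt_A)

noncomputable def cut_A08pm_133_s1 : Cut := Cut.of [[⟨4, 0, 0, 1449551462⟩]]

noncomputable def f_A08pm_133_s1 : ℕ → ℕ → ℕ → ℕ → Bool := onCell 536870912 536870912 0 1230186008 649613803 48318383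
    (rowF 0 true true false .dn 1 3 3 (qsf 536870912 536870912 0 1230186008 3) ndB0q1 ndB8q3 pcB3 cut_A08pm_133_s1 Ext.none)

def k0_A08pm_133_s1 : ∃ t, chk3 f_A08pm_133_s1 t 1 1 1 = true :=
  ⟨(l 6), by decide +kernel⟩

theorem c_A08pm_133_s1 : CertF 536870912 536870912 0 1230186008 649613803 48318383 true true false .dn 1 3 3
    ndB0q1 ndB8q3 pcB3 cut_A08pm_133_s1 Ext.none :=
  certF0 (fam := true) (s1 := true) (s2 := false) (a := 1) (b := 3) (c := 3) (cn := .dn) (n1 := ndB0q1) (n2 := ndB8q3) (pc := pcB3) (cut := cut_A08pm_133_s1) (xt := Ext.none) (P1 := 536870912) (W1 := 536870912) (P2 := 0) (W2 := 1230186008) (P3 := 649613803) (W3 := 48318383)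
    rfl k0_A08pm_133_s1

theorem s_A08pm_133_s1 {κ x : ℝ} (hκ : κ * h0 = ken x) (hx : ((649613803 : ℕ) : ℝ) / S ≤ x)
    (hx' : x ≤ (((649613803 : ℕ) : ℝ) + (48318383 : ℕ)) / S) :
    AltA (VFD κ) PP tK tL pcB [⟨3, 0, 0, 1449551462⟩] 1 3 3 0 8 (sgb true) (sgb false) x :=
  strip_altAD (m := 1449551462) true rfl hκ (SH.κ0 hκ (SH.hx1 hx).le (SH.hx2 hx').le) (SH.hx1 hx).le (SH.hx2 hx') (covB01).cov (covB83).cov hx hx' c_A08pm_133_s1 cutA_nil (noExt_A)

noncomputable def cut_A08pm_202_s1 : Cut := Cut.of [[⟨4, 0, 0, 1449551462⟩]]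

noncomputable def f_A08pm_202_s1 : ℕ → ℕ → ℕ → ℕ → Bool := onCell 0 536870912 0 536870912 649613803 48318383
    (rowF 0 true true false .pp 2 0 2 (qsf 0 536870912 0 536870912 2) ndB0q2 ndB8q0 pcB2 cut_A08pm_202_s1 Ext.none)

def k0_A08pm_202_s1 : ∃ t, chk3 f_A08pm_202_s1 t 1 1 1 = true :=
  ⟨(l 6), by decide +kernel⟩

theorem c_A08pm_202_s1 : CertF 0 536870912 0 536870912 649613803 48318383 true true false .pp 2 0 2
    ndB0q2 ndB8q0 pcB2 cut_A08pm_202_s1 Ext.none :=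
  certF0 (fam := true) (s1 := true) (s2 := false) (a := 2) (b := 0) (c := 2) (cn := .pp) (n1 := ndB0q2) (n2 := ndB8q0) (pc := pcB2) (cut := cut_A08pm_202_s1) (xt := Ext.none) (P1 := 0) (W1 := 536870912) (P2 := 0) (W2 := 536870912) (P3 := 649613803) (W3 := 48318383)
    rfl k0_A08pm_202_s1

theorem s_A08pm_202_s1 {κ x : ℝ} (hκ : κ * h0 = ken x) (hx : ((649613803 : ℕ) : ℝ) / S ≤ x)
    (hx' : x ≤ (((649613803 : ℕ) : ℝ) + (48318383 : ℕ)) / S) :
    AltA (VFD κ) PP tK tL pcB [⟨3, 0, 0, 1449551462⟩] 2 0 2 0 8 (sgb true) (sgb false) x :=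
  strip_altAD (m := 1449551462) true rfl hκ (SH.κ0 hκ (SH.hx1 hx).le (SH.hx2 hx').le) (SH.hx1 hx).le (SH.hx2 hx') (covB02).cov (covB80).cov hx hx' c_A08pm_202_s1 cutA_nil (noExt_A)

noncomputable def cut_A08pm_203_s1 : Cut := Cut.of [[⟨4, 0, 0, 1449551462⟩]]

noncomputable def f_A08pm_203_s1 : ℕ → ℕ → ℕ → ℕ → Bool := onCell 0 536870912 0 536870912 649613803 48318383
    (rowF 0 true true false .up 2 0 3 (qsf 0 536870912 0 536870912 3) ndB0q2 ndB8q0 pcB3 cut_A08pm_203_s1 Ext.none)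

def k0_A08pm_203_s1 : ∃ t, chk3 f_A08pm_203_s1 t 1 1 1 = true :=
  ⟨(l 6), by decide +kernel⟩

theorem c_A08pm_203_s1 : CertF 0 536870912 0 536870912 649613803 48318383 true true false .up 2 0 3
    ndB0q2 ndB8q0 pcB3 cut_A08pm_203_s1 Ext.none :=
  certF0 (fam := true) (s1 := true) (s2 := false) (a := 2) (b := 0) (c := 3) (cn := .up) (n1 := ndB0q2) (n2 := ndB8q0) (pc := pcB3) (cut := cut_A08pm_203_s1) (xt := Ext.none) (P1 := 0) (W1 := 536870912) (P2 := 0) (W2 := 536870912) (P3 := 649613803) (W3 := 48318383)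
    rfl k0_A08pm_203_s1

theorem s_A08pm_203_s1 {κ x : ℝ} (hκ : κ * h0 = ken x) (hx : ((649613803 : ℕ) : ℝ) / S ≤ x)
    (hx' : x ≤ (((649613803 : ℕ) : ℝ) + (48318383 : ℕ)) / S) :
    AltA (VFD κ) PP tK tL pcB [⟨3, 0, 0, 1449551462⟩] 2 0 3 0 8 (sgb true) (sgb false) x :=
  strip_altAD (m := 1449551462) true rfl hκ (SH.κ0 hκ (SH.hx1 hx).le (SH.hx2 hx').le) (SH.hx1 hx).le (SH.hx2 hx') (covB02).cov (covB80).cov hx hx' c_A08pm_203_s1 cutA_nil (noExt_A)

noncomputable def cut_A08pm_213_s1 : Cut := Cut.of [[⟨4, 0, 0, 1449551462⟩]]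

noncomputable def f_A08pm_213_s1 : ℕ → ℕ → ℕ → ℕ → Bool := onCell 0 536870912 536870912 536870912 649613803 48318383
    (rowF 0 true true false .pnn 2 1 3 (qsf 0 536870912 536870912 536870912 3) ndB0q2 ndB8q1 pcB3 cut_A08pm_213_s1 Ext.none)

def k0_A08pm_213_s1 : ∃ t, chk3 f_A08pm_213_s1 t 1 1 1 = true :=
  ⟨(l 6), by decide +kernel⟩

theorem c_A08pm_213_s1 : CertF 0 536870912 536870912 536870912 649613803 48318383 true true false .pnn 2 1 3
    ndB0q2 ndB8q1 pcB3 cut_A08pm_213_s1 Ext.none :=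
  certF0 (fam := true) (s1 := true) (s2 := false) (a := 2) (b := 1) (c := 3) (cn := .pnn) (n1 := ndB0q2) (n2 := ndB8q1) (pc := pcB3) (cut := cut_A08pm_213_s1) (xt := Ext.none) (P1 := 0) (W1 := 536870912) (P2 := 536870912) (W2 := 536870912) (P3 := 649613803) (W3 := 48318383)
    rfl k0_A08pm_213_s1

theorem s_A08pm_213_s1 {κ x : ℝ} (hκ : κ * h0 = ken x) (hx : ((649613803 : ℕ) : ℝ) / S ≤ x)
    (hx' : x ≤ (((649613803 : ℕ) : ℝ) + (48318383 : ℕ)) / S) :
    AltA (VFD κ) PP tK tL pcB [⟨3, 0, 0, 1449551462⟩] 2 1 3 0 8 (sgb true) (sgb false) x :=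
  strip_altAD (m := 1449551462) true rfl hκ (SH.κ0 hκ (SH.hx1 hx).le (SH.hx2 hx').le) (SH.hx1 hx).le (SH.hx2 hx') (covB02).cov (covB81).cov hx hx' c_A08pm_213_s1 cutA_nil (noExt_A)

noncomputable def cut_A08mm_001_s1 : Cut := Cut.of [[⟨4, 0, 0, 1449551462⟩]]

noncomputable def f_A08mm_001_s1 : ℕ → ℕ → ℕ → ℕ → Bool := onCell 0 536870912 0 536870912 649613803 48318383
    (rowF 0 true false false .up 0 0 1 (qsf 0 536870912 0 536870912 1) ndB0q0 ndB8q0 pcB1 cut_A08mm_001_s1 Ext.none)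

def k0_A08mm_001_s1 : ∃ t, chk3 f_A08mm_001_s1 t 1 1 1 = true :=
  ⟨(l 4), by decide +kernel⟩

theorem c_A08mm_001_s1 : CertF 0 536870912 0 536870912 649613803 48318383 true false false .up 0 0 1
    ndB0q0 ndB8q0 pcB1 cut_A08mm_001_s1 Ext.none :=
  certF0 (fam := true) (s1 := false) (s2 := false) (a := 0) (b := 0) (c := 1) (cn := .up) (n1 := ndB0q0) (n2 := ndB8q0) (pc := pcB1) (cut := cut_A08mm_001_s1) (xt := Ext.none) (P1 := 0) (W1 := 536870912) (P2 := 0) (W2 := 536870912) (P3 := 649613803) (W3 := 48318383)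
    rfl k0_A08mm_001_s1

theorem s_A08mm_001_s1 {κ x : ℝ} (hκ : κ * h0 = ken x) (hx : ((649613803 : ℕ) : ℝ) / S ≤ x)
    (hx' : x ≤ (((649613803 : ℕ) : ℝ) + (48318383 : ℕ)) / S) :
    AltA (VFD κ) PP tK tL pcB [⟨3, 0, 0, 1449551462⟩] 0 0 1 0 8 (sgb false) (sgb false) x :=
  strip_altAD (m := 1449551462) true rfl hκ (SH.κ0 hκ (SH.hx1 hx).le (SH.hx2 hx').le) (SH.hx1 hx).le (SH.hx2 hx') (covB00).cov (covB80).cov hx hx' c_A08mm_001_s1 cutA_nil (noExt_A)

noncomputable def cut_A08mm_011_s1 : Cut := Cut.of [[⟨4, 0, 0, 1449551462⟩]]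

noncomputable def f_A08mm_011_s1 : ℕ → ℕ → ℕ → ℕ → Bool := onCell 0 536870912 536870912 536870912 649613803 48318383
    (rowF 0 true false false .pnn 0 1 1 (qsf 0 536870912 536870912 536870912 1) ndB0q0 ndB8q1 pcB1 cut_A08mm_011_s1 Ext.none)

def k0_A08mm_011_s1 : ∃ t, chk3 f_A08mm_011_s1 t 1 1 1 = true :=
  ⟨(l 4), by decide +kernel⟩

theorem c_A08mm_011_s1 : CertF 0 536870912 536870912 536870912 649613803 48318383 true false false .pnn 0 1 1
    ndB0q0 ndB8q1 pcB1 cut_A08mm_011_s1 Ext.none :=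
  certF0 (fam := true) (s1 := false) (s2 := false) (a := 0) (b := 1) (c := 1) (cn := .pnn) (n1 := ndB0q0) (n2 := ndB8q1) (pc := pcB1) (cut := cut_A08mm_011_s1) (xt := Ext.none) (P1 := 0) (W1 := 536870912) (P2 := 536870912) (W2 := 536870912) (P3 := 649613803) (W3 := 48318383)
    rfl k0_A08mm_011_s1

theorem s_A08mm_011_s1 {κ x : ℝ} (hκ : κ * h0 = ken x) (hx : ((649613803 : ℕ) : ℝ) / S ≤ x)
    (hx' : x ≤ (((649613803 : ℕ) : ℝ) + (48318383 : ℕ)) / S) :
    AltA (VFD κ) PP tK tL pcB [⟨3, 0, 0, 1449551462⟩] 0 1 1 0 8 (sgb false) (sgb false) x :=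
  strip_altAD (m := 1449551462) true rfl hκ (SH.κ0 hκ (SH.hx1 hx).le (SH.hx2 hx').le) (SH.hx1 hx).le (SH.hx2 hx') (covB00).cov (covB81).cov hx hx' c_A08mm_011_s1 cutA_nil (noExt_A)

noncomputable def cut_A08mm_012_s1 : Cut := Cut.of [[⟨4, 0, 0, 1449551462⟩]]

noncomputable def f_A08mm_012_s1 : ℕ → ℕ → ℕ → ℕ → Bool := onCell 0 536870912 536870912 536870912 649613803 48318383
    (rowF 0 true false false .pnp 0 1 2 (qsf 0 536870912 536870912 536870912 2) ndB0q0 ndB8q1 pcB2 cut_A08mm_012_s1 Ext.none)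

def k0_A08mm_012_s1 : ∃ t, chk3 f_A08mm_012_s1 t 1 1 1 = true :=
  ⟨(l 4), by decide +kernel⟩

theorem c_A08mm_012_s1 : CertF 0 536870912 536870912 536870912 649613803 48318383 true false false .pnp 0 1 2
    ndB0q0 ndB8q1 pcB2 cut_A08mm_012_s1 Ext.none :=
  certF0 (fam := true) (s1 := false) (s2 := false) (a := 0) (b := 1) (c := 2) (cn := .pnp) (n1 := ndB0q0) (n2 := ndB8q1) (pc := pcB2) (cut := cut_A08mm_012_s1) (xt := Ext.none) (P1 := 0) (W1 := 536870912) (P2 := 536870912) (W2 := 536870912) (P3 := 649613803) (W3 := 48318383)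
    rfl k0_A08mm_012_s1

theorem s_A08mm_012_s1 {κ x : ℝ} (hκ : κ * h0 = ken x) (hx : ((649613803 : ℕ) : ℝ) / S ≤ x)
    (hx' : x ≤ (((649613803 : ℕ) : ℝ) + (48318383 : ℕ)) / S) :
    AltA (VFD κ) PP tK tL pcB [⟨3, 0, 0, 1449551462⟩] 0 1 2 0 8 (sgb false) (sgb false) x :=
  strip_altAD (m := 1449551462) true rfl hκ (SH.κ0 hκ (SH.hx1 hx).le (SH.hx2 hx').le) (SH.hx1 hx).le (SH.hx2 hx') (covB00).cov (covB81).cov hx hx' c_A08mm_012_s1 cutA_nil (noExt_A)

noncomputable def cut_A08mm_022_s1 : Cut := Cut.of [[⟨4, 0, 0, 1449551462⟩]]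

noncomputable def f_A08mm_022_s1 : ℕ → ℕ → ℕ → ℕ → Bool := onCell 0 536870912 1073741824 536870912 649613803 48318383
    (rowF 0 true false false .pp 0 2 2 (qsf 0 536870912 1073741824 536870912 2) ndB0q0 ndB8q2 pcB2 cut_A08mm_022_s1 Ext.none)

def k0_A08mm_022_s1 : ∃ t, chk3 f_A08mm_022_s1 t 1 1 1 = true :=
  ⟨(l 4), by decide +kernel⟩

theorem c_A08mm_022_s1 : CertF 0 536870912 1073741824 536870912 649613803 48318383 true false false .pp 0 2 2
    ndB0q0 ndB8q2 pcB2 cut_A08mm_022_s1 Ext.none :=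
  certF0 (fam := true) (s1 := false) (s2 := false) (a := 0) (b := 2) (c := 2) (cn := .pp) (n1 := ndB0q0) (n2 := ndB8q2) (pc := pcB2) (cut := cut_A08mm_022_s1) (xt := Ext.none) (P1 := 0) (W1 := 536870912) (P2 := 1073741824) (W2 := 536870912) (P3 := 649613803) (W3 := 48318383)
    rfl k0_A08mm_022_s1

theorem s_A08mm_022_s1 {κ x : ℝ} (hκ : κ * h0 = ken x) (hx : ((649613803 : ℕ) : ℝ) / S ≤ x)
    (hx' : x ≤ (((649613803 : ℕ) : ℝ) + (48318383 : ℕ)) / S) :
    AltA (VFD κ) PP tK tL pcB [⟨3, 0, 0, 1449551462⟩] 0 2 2 0 8 (sgb false) (sgb false) x :=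
  strip_altAD (m := 1449551462) true rfl hκ (SH.κ0 hκ (SH.hx1 hx).le (SH.hx2 hx').le) (SH.hx1 hx).le (SH.hx2 hx') (covB00).cov (covB82).cov hx hx' c_A08mm_022_s1 cutA_nil (noExt_A)

noncomputable def cut_A08mm_023_s1 : Cut := Cut.of [[⟨4, 0, 0, 1449551462⟩]]

noncomputable def f_A08mm_023_s1 : ℕ → ℕ → ℕ → ℕ → Bool := onCell 0 536870912 1073741824 536870912 649613803 48318383
    (rowF 0 true false false .up 0 2 3 (qsf 0 536870912 1073741824 536870912 3) ndB0q0 ndB8q2 pcB3 cut_A08mm_023_s1 Ext.none)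

def k0_A08mm_023_s1 : ∃ t, chk3 f_A08mm_023_s1 t 1 1 1 = true :=
  ⟨(l 4), by decide +kernel⟩

theorem c_A08mm_023_s1 : CertF 0 536870912 1073741824 536870912 649613803 48318383 true false false .up 0 2 3
    ndB0q0 ndB8q2 pcB3 cut_A08mm_023_s1 Ext.none :=
  certF0 (fam := true) (s1 := false) (s2 := false) (a := 0) (b := 2) (c := 3) (cn := .up) (n1 := ndB0q0) (n2 := ndB8q2) (pc := pcB3) (cut := cut_A08mm_023_s1) (xt := Ext.none) (P1 := 0) (W1 := 536870912) (P2 := 1073741824) (W2 := 536870912) (P3 := 649613803) (W3 := 48318383)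
    rfl k0_A08mm_023_s1

theorem s_A08mm_023_s1 {κ x : ℝ} (hκ : κ * h0 = ken x) (hx : ((649613803 : ℕ) : ℝ) / S ≤ x)
    (hx' : x ≤ (((649613803 : ℕ) : ℝ) + (48318383 : ℕ)) / S) :
    AltA (VFD κ) PP tK tL pcB [⟨3, 0, 0, 1449551462⟩] 0 2 3 0 8 (sgb false) (sgb false) x :=
  strip_altAD (m := 1449551462) true rfl hκ (SH.κ0 hκ (SH.hx1 hx).le (SH.hx2 hx').le) (SH.hx1 hx).le (SH.hx2 hx') (covB00).cov (covB82).cov hx hx' c_A08mm_023_s1 cutA_nil (noExt_A)

noncomputable def cut_A08mm_033_s1 : Cut := Cut.of [[⟨4, 0, 0, 1449551462⟩]]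

noncomputable def f_A08mm_033_s1 : ℕ → ℕ → ℕ → ℕ → Bool := onCell 0 536870912 0 1230186008 649613803 48318383
    (rowF 0 true false false .pnn 0 3 3 (qsf 0 536870912 0 1230186008 3) ndB0q0 ndB8q3 pcB3 cut_A08mm_033_s1 Ext.none)

def k0_A08mm_033_s1 : ∃ t, chk3 f_A08mm_033_s1 t 1 1 1 = true :=
  ⟨(l 4), by decide +kernel⟩

theorem c_A08mm_033_s1 : CertF 0 536870912 0 1230186008 649613803 48318383 true false false .pnn 0 3 3
    ndB0q0 ndB8q3 pcB3 cut_A08mm_033_s1 Ext.none :=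
  certF0 (fam := true) (s1 := false) (s2 := false) (a := 0) (b := 3) (c := 3) (cn := .pnn) (n1 := ndB0q0) (n2 := ndB8q3) (pc := pcB3) (cut := cut_A08mm_033_s1) (xt := Ext.none) (P1 := 0) (W1 := 536870912) (P2 := 0) (W2 := 1230186008) (P3 := 649613803) (W3 := 48318383)
    rfl k0_A08mm_033_s1

theorem s_A08mm_033_s1 {κ x : ℝ} (hκ : κ * h0 = ken x) (hx : ((649613803 : ℕ) : ℝ) / S ≤ x)
    (hx' : x ≤ (((649613803 : ℕ) : ℝ) + (48318383 : ℕ)) / S) :
    AltA (VFD κ) PP tK tL pcB [⟨3, 0, 0, 1449551462⟩] 0 3 3 0 8 (sgb false) (sgb false) x :=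
  strip_altAD (m := 1449551462) true rfl hκ (SH.κ0 hκ (SH.hx1 hx).le (SH.hx2 hx').le) (SH.hx1 hx).le (SH.hx2 hx') (covB00).cov (covB83).cov hx hx' c_A08mm_033_s1 cutA_nil (noExt_A)

noncomputable def cut_A08mm_101_s1 : Cut := Cut.of [[⟨4, 0, 0, 1449551462⟩]]

noncomputable def f_A08mm_101_s1 : ℕ → ℕ → ℕ → ℕ → Bool := onCell 536870912 536870912 0 536870912 649613803 48318383
    (rowF 0 true false false .npn 1 0 1 (qsf 536870912 536870912 0 536870912 1) ndB0q1 ndB8q0 pcB1 cut_A08mm_101_s1 Ext.none)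

def k0_A08mm_101_s1 : ∃ t, chk3 f_A08mm_101_s1 t 1 1 1 = true :=
  ⟨(l 4), by decide +kernel⟩

theorem c_A08mm_101_s1 : CertF 536870912 536870912 0 536870912 649613803 48318383 true false false .npn 1 0 1
    ndB0q1 ndB8q0 pcB1 cut_A08mm_101_s1 Ext.none :=
  certF0 (fam := true) (s1 := false) (s2 := false) (a := 1) (b := 0) (c := 1) (cn := .npn) (n1 := ndB0q1) (n2 := ndB8q0) (pc := pcB1) (cut := cut_A08mm_101_s1) (xt := Ext.none) (P1 := 536870912) (W1 := 536870912) (P2 := 0) (W2 := 536870912) (P3 := 649613803) (W3 := 48318383)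
    rfl k0_A08mm_101_s1

theorem s_A08mm_101_s1 {κ x : ℝ} (hκ : κ * h0 = ken x) (hx : ((649613803 : ℕ) : ℝ) / S ≤ x)
    (hx' : x ≤ (((649613803 : ℕ) : ℝ) + (48318383 : ℕ)) / S) :
    AltA (VFD κ) PP tK tL pcB [⟨3, 0, 0, 1449551462⟩] 1 0 1 0 8 (sgb false) (sgb false) x :=
  strip_altAD (m := 1449551462) true rfl hκ (SH.κ0 hκ (SH.hx1 hx).le (SH.hx2 hx').le) (SH.hx1 hx).le (SH.hx2 hx') (covB01).cov (covB80).cov hx hx' c_A08mm_101_s1 cutA_nil (noExt_A)

noncomputable def cut_A08mm_102_s1 : Cut := Cut.of [[⟨4, 0, 0, 1449551462⟩]]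

noncomputable def f_A08mm_102_s1 : ℕ → ℕ → ℕ → ℕ → Bool := onCell 536870912 536870912 0 536870912 649613803 48318383
    (rowF 0 true false false .npp 1 0 2 (qsf 536870912 536870912 0 536870912 2) ndB0q1 ndB8q0 pcB2 cut_A08mm_102_s1 Ext.none)

def k0_A08mm_102_s1 : ∃ t, chk3 f_A08mm_102_s1 t 1 1 1 = true :=
  ⟨(l 4), by decide +kernel⟩

theorem c_A08mm_102_s1 : CertF 536870912 536870912 0 536870912 649613803 48318383 true false false .npp 1 0 2
    ndB0q1 ndB8q0 pcB2 cut_A08mm_102_s1 Ext.none :=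
  certF0 (fam := true) (s1 := false) (s2 := false) (a := 1) (b := 0) (c := 2) (cn := .npp) (n1 := ndB0q1) (n2 := ndB8q0) (pc := pcB2) (cut := cut_A08mm_102_s1) (xt := Ext.none) (P1 := 536870912) (W1 := 536870912) (P2 := 0) (W2 := 536870912) (P3 := 649613803) (W3 := 48318383)
    rfl k0_A08mm_102_s1

theorem s_A08mm_102_s1 {κ x : ℝ} (hκ : κ * h0 = ken x) (hx : ((649613803 : ℕ) : ℝ) / S ≤ x)
    (hx' : x ≤ (((649613803 : ℕ) : ℝ) + (48318383 : ℕ)) / S) :
    AltA (VFD κ) PP tK tL pcB [⟨3, 0, 0, 1449551462⟩] 1 0 2 0 8 (sgb false) (sgb false) x :=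
  strip_altAD (m := 1449551462) true rfl hκ (SH.κ0 hκ (SH.hx1 hx).le (SH.hx2 hx').le) (SH.hx1 hx).le (SH.hx2 hx') (covB01).cov (covB80).cov hx hx' c_A08mm_102_s1 cutA_nil (noExt_A)

noncomputable def cut_A08mm_112_s1 : Cut := Cut.of [[⟨4, 0, 0, 1449551462⟩]]

noncomputable def f_A08mm_112_s1 : ℕ → ℕ → ℕ → ℕ → Bool := onCell 536870912 536870912 536870912 536870912 649613803 48318383
    (rowF 0 true false false .dn 1 1 2 (qsf 536870912 536870912 536870912 536870912 2) ndB0q1 ndB8q1 pcB2 cut_A08mm_112_s1 Ext.none)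

def k0_A08mm_112_s1 : ∃ t, chk3 f_A08mm_112_s1 t 1 1 1 = true :=
  ⟨(l 4), by decide +kernel⟩

theorem c_A08mm_112_s1 : CertF 536870912 536870912 536870912 536870912 649613803 48318383 true false false .dn 1 1 2
    ndB0q1 ndB8q1 pcB2 cut_A08mm_112_s1 Ext.none :=
  certF0 (fam := true) (s1 := false) (s2 := false) (a := 1) (b := 1) (c := 2) (cn := .dn) (n1 := ndB0q1) (n2 := ndB8q1) (pc := pcB2) (cut := cut_A08mm_112_s1) (xt := Ext.none) (P1 := 536870912) (W1 := 536870912) (P2 := 536870912) (W2 := 536870912) (P3 := 649613803) (W3 := 48318383)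
    rfl k0_A08mm_112_s1

theorem s_A08mm_112_s1 {κ x : ℝ} (hκ : κ * h0 = ken x) (hx : ((649613803 : ℕ) : ℝ) / S ≤ x)
    (hx' : x ≤ (((649613803 : ℕ) : ℝ) + (48318383 : ℕ)) / S) :
    AltA (VFD κ) PP tK tL pcB [⟨3, 0, 0, 1449551462⟩] 1 1 2 0 8 (sgb false) (sgb false) x :=
  strip_altAD (m := 1449551462) true rfl hκ (SH.κ0 hκ (SH.hx1 hx).le (SH.hx2 hx').le) (SH.hx1 hx).le (SH.hx2 hx') (covB01).cov (covB81).cov hx hx' c_A08mm_112_s1 cutA_nil (noExt_A)

noncomputable def cut_A08mm_113_s1 : Cut := Cut.of [[⟨4, 0, 0, 1449551462⟩]]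

noncomputable def f_A08mm_113_s1 : ℕ → ℕ → ℕ → ℕ → Bool := onCell 536870912 536870912 536870912 536870912 649613803 48318383
    (rowF 0 true false false .nn 1 1 3 (qsf 536870912 536870912 536870912 536870912 3) ndB0q1 ndB8q1 pcB3 cut_A08mm_113_s1 Ext.none)

def k0_A08mm_113_s1 : ∃ t, chk3 f_A08mm_113_s1 t 1 1 1 = true :=
  ⟨(l 4), by decide +kernel⟩

theorem c_A08mm_113_s1 : CertF 536870912 536870912 536870912 536870912 649613803 48318383 true false false .nn 1 1 3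
    ndB0q1 ndB8q1 pcB3 cut_A08mm_113_s1 Ext.none :=
  certF0 (fam := true) (s1 := false) (s2 := false) (a := 1) (b := 1) (c := 3) (cn := .nn) (n1 := ndB0q1) (n2 := ndB8q1) (pc := pcB3) (cut := cut_A08mm_113_s1) (xt := Ext.none) (P1 := 536870912) (W1 := 536870912) (P2 := 536870912) (W2 := 536870912) (P3 := 649613803) (W3 := 48318383)
    rfl k0_A08mm_113_s1

theorem s_A08mm_113_s1 {κ x : ℝ} (hκ : κ * h0 = ken x) (hx : ((649613803 : ℕ) : ℝ) / S ≤ x)
    (hx' : x ≤ (((649613803 : ℕ) : ℝ) + (48318383 : ℕ)) / S) :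
    AltA (VFD κ) PP tK tL pcB [⟨3, 0, 0, 1449551462⟩] 1 1 3 0 8 (sgb false) (sgb false) x :=
  strip_altAD (m := 1449551462) true rfl hκ (SH.κ0 hκ (SH.hx1 hx).le (SH.hx2 hx').le) (SH.hx1 hx).le (SH.hx2 hx') (covB01).cov (covB81).cov hx hx' c_A08mm_113_s1 cutA_nil (noExt_A)

noncomputable def cut_A08mm_123_s1 : Cut := Cut.of [[⟨4, 0, 0, 1449551462⟩]]

noncomputable def f_A08mm_123_s1 : ℕ → ℕ → ℕ → ℕ → Bool := onCell 536870912 536870912 1073741824 536870912 649613803 48318383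
    (rowF 0 true false false .npn 1 2 3 (qsf 536870912 536870912 1073741824 536870912 3) ndB0q1 ndB8q2 pcB3 cut_A08mm_123_s1 Ext.none)

def k0_A08mm_123_s1 : ∃ t, chk3 f_A08mm_123_s1 t 1 1 1 = true :=
  ⟨(l 4), by decide +kernel⟩

theorem c_A08mm_123_s1 : CertF 536870912 536870912 1073741824 536870912 649613803 48318383 true false false .npn 1 2 3
    ndB0q1 ndB8q2 pcB3 cut_A08mm_123_s1 Ext.none :=
  certF0 (fam := true) (s1 := false) (s2 := false) (a := 1) (b := 2) (c := 3) (cn := .npn) (n1 := ndB0q1) (n2 := ndB8q2) (pc := pcB3) (cut := cut_A08mm_123_s1) (xt := Ext.none) (P1 := 536870912) (W1 := 536870912) (P2 := 1073741824) (W2 := 536870912) (P3 := 649613803) (W3 := 48318383)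
    rfl k0_A08mm_123_s1

theorem s_A08mm_123_s1 {κ x : ℝ} (hκ : κ * h0 = ken x) (hx : ((649613803 : ℕ) : ℝ) / S ≤ x)
    (hx' : x ≤ (((649613803 : ℕ) : ℝ) + (48318383 : ℕ)) / S) :
    AltA (VFD κ) PP tK tL pcB [⟨3, 0, 0, 1449551462⟩] 1 2 3 0 8 (sgb false) (sgb false) x :=
  strip_altAD (m := 1449551462) true rfl hκ (SH.κ0 hκ (SH.hx1 hx).le (SH.hx2 hx').le) (SH.hx1 hx).le (SH.hx2 hx') (covB01).cov (covB82).cov hx hx' c_A08mm_123_s1 cutA_nil (noExt_A)

noncomputable def cut_A08mm_133_s1 : Cut := Cut.of [[⟨4, 0, 0, 1449551462⟩]]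

noncomputable def f_A08mm_133_s1 : ℕ → ℕ → ℕ → ℕ → Bool := onCell 536870912 536870912 0 1230186008 649613803 48318383
    (rowF 0 true false false .dn 1 3 3 (qsf 536870912 536870912 0 1230186008 3) ndB0q1 ndB8q3 pcB3 cut_A08mm_133_s1 Ext.none)

def k0_A08mm_133_s1 : ∃ t, chk3 f_A08mm_133_s1 t 1 1 1 = true :=
  ⟨(l 4), by decide +kernel⟩

theorem c_A08mm_133_s1 : CertF 536870912 536870912 0 1230186008 649613803 48318383 true false false .dn 1 3 3
    ndB0q1 ndB8q3 pcB3 cut_A08mm_133_s1 Ext.none :=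
  certF0 (fam := true) (s1 := false) (s2 := false) (a := 1) (b := 3) (c := 3) (cn := .dn) (n1 := ndB0q1) (n2 := ndB8q3) (pc := pcB3) (cut := cut_A08mm_133_s1) (xt := Ext.none) (P1 := 536870912) (W1 := 536870912) (P2 := 0) (W2 := 1230186008) (P3 := 649613803) (W3 := 48318383)
    rfl k0_A08mm_133_s1

theorem s_A08mm_133_s1 {κ x : ℝ} (hκ : κ * h0 = ken x) (hx : ((649613803 : ℕ) : ℝ) / S ≤ x)
    (hx' : x ≤ (((649613803 : ℕ) : ℝ) + (48318383 : ℕ)) / S) :
    AltA (VFD κ) PP tK tL pcB [⟨3, 0, 0, 1449551462⟩] 1 3 3 0 8 (sgb false) (sgb false) x :=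
  strip_altAD (m := 1449551462) true rfl hκ (SH.κ0 hκ (SH.hx1 hx).le (SH.hx2 hx').le) (SH.hx1 hx).le (SH.hx2 hx') (covB01).cov (covB83).cov hx hx' c_A08mm_133_s1 cutA_nil (noExt_A)

noncomputable def cut_A08mm_202_s1 : Cut := Cut.of [[⟨4, 0, 0, 1449551462⟩]]

noncomputable def f_A08mm_202_s1 : ℕ → ℕ → ℕ → ℕ → Bool := onCell 0 536870912 0 536870912 649613803 48318383
    (rowF 0 true false false .pp 2 0 2 (qsf 0 536870912 0 536870912 2) ndB0q2 ndB8q0 pcB2 cut_A08mm_202_s1 Ext.none)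

def k0_A08mm_202_s1 : ∃ t, chk3 f_A08mm_202_s1 t 1 1 1 = true :=
  ⟨(l 4), by decide +kernel⟩

theorem c_A08mm_202_s1 : CertF 0 536870912 0 536870912 649613803 48318383 true false false .pp 2 0 2
    ndB0q2 ndB8q0 pcB2 cut_A08mm_202_s1 Ext.none :=
  certF0 (fam := true) (s1 := false) (s2 := false) (a := 2) (b := 0) (c := 2) (cn := .pp) (n1 := ndB0q2) (n2 := ndB8q0) (pc := pcB2) (cut := cut_A08mm_202_s1) (xt := Ext.none) (P1 := 0) (W1 := 536870912) (P2 := 0) (W2 := 536870912) (P3 := 649613803) (W3 := 48318383)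
    rfl k0_A08mm_202_s1

theorem s_A08mm_202_s1 {κ x : ℝ} (hκ : κ * h0 = ken x) (hx : ((649613803 : ℕ) : ℝ) / S ≤ x)
    (hx' : x ≤ (((649613803 : ℕ) : ℝ) + (48318383 : ℕ)) / S) :
    AltA (VFD κ) PP tK tL pcB [⟨3, 0, 0, 1449551462⟩] 2 0 2 0 8 (sgb false) (sgb false) x :=
  strip_altAD (m := 1449551462) true rfl hκ (SH.κ0 hκ (SH.hx1 hx).le (SH.hx2 hx').le) (SH.hx1 hx).le (SH.hx2 hx') (covB02).cov (covB80).cov hx hx' c_A08mm_202_s1 cutA_nil (noExt_A)

noncomputable def cut_A08mm_203_s1 : Cut := Cut.of [[⟨4, 0, 0, 1449551462⟩]]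

noncomputable def f_A08mm_203_s1 : ℕ → ℕ → ℕ → ℕ → Bool := onCell 0 536870912 0 536870912 649613803 48318383
    (rowF 0 true false false .up 2 0 3 (qsf 0 536870912 0 536870912 3) ndB0q2 ndB8q0 pcB3 cut_A08mm_203_s1 Ext.none)

def k0_A08mm_203_s1 : ∃ t, chk3 f_A08mm_203_s1 t 1 1 1 = true :=
  ⟨(l 4), by decide +kernel⟩

theorem c_A08mm_203_s1 : CertF 0 536870912 0 536870912 649613803 48318383 true false false .up 2 0 3
    ndB0q2 ndB8q0 pcB3 cut_A08mm_203_s1 Ext.none :=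
  certF0 (fam := true) (s1 := false) (s2 := false) (a := 2) (b := 0) (c := 3) (cn := .up) (n1 := ndB0q2) (n2 := ndB8q0) (pc := pcB3) (cut := cut_A08mm_203_s1) (xt := Ext.none) (P1 := 0) (W1 := 536870912) (P2 := 0) (W2 := 536870912) (P3 := 649613803) (W3 := 48318383)
    rfl k0_A08mm_203_s1

theorem s_A08mm_203_s1 {κ x : ℝ} (hκ : κ * h0 = ken x) (hx : ((649613803 : ℕ) : ℝ) / S ≤ x)
    (hx' : x ≤ (((649613803 : ℕ) : ℝ) + (48318383 : ℕ)) / S) :
    AltA (VFD κ) PP tK tL pcB [⟨3, 0, 0, 1449551462⟩] 2 0 3 0 8 (sgb false) (sgb false) x :=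
  strip_altAD (m := 1449551462) true rfl hκ (SH.κ0 hκ (SH.hx1 hx).le (SH.hx2 hx').le) (SH.hx1 hx).le (SH.hx2 hx') (covB02).cov (covB80).cov hx hx' c_A08mm_203_s1 cutA_nil (noExt_A)

noncomputable def cut_A08mm_213_s1 : Cut := Cut.of [[⟨4, 0, 0, 1449551462⟩]]

noncomputable def f_A08mm_213_s1 : ℕ → ℕ → ℕ → ℕ → Bool := onCell 0 536870912 536870912 536870912 649613803 48318383
    (rowF 0 true false false .pnn 2 1 3 (qsf 0 536870912 536870912 536870912 3) ndB0q2 ndB8q1 pcB3 cut_A08mm_213_s1 Ext.none)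

def k0_A08mm_213_s1 : ∃ t, chk3 f_A08mm_213_s1 t 1 1 1 = true :=
  ⟨(l 4), by decide +kernel⟩

theorem c_A08mm_213_s1 : CertF 0 536870912 536870912 536870912 649613803 48318383 true false false .pnn 2 1 3
    ndB0q2 ndB8q1 pcB3 cut_A08mm_213_s1 Ext.none :=
  certF0 (fam := true) (s1 := false) (s2 := false) (a := 2) (b := 1) (c := 3) (cn := .pnn) (n1 := ndB0q2) (n2 := ndB8q1) (pc := pcB3) (cut := cut_A08mm_213_s1) (xt := Ext.none) (P1 := 0) (W1 := 536870912) (P2 := 536870912) (W2 := 536870912) (P3 := 649613803) (W3 := 48318383)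
    rfl k0_A08mm_213_s1

theorem s_A08mm_213_s1 {κ x : ℝ} (hκ : κ * h0 = ken x) (hx : ((649613803 : ℕ) : ℝ) / S ≤ x)
    (hx' : x ≤ (((649613803 : ℕ) : ℝ) + (48318383 : ℕ)) / S) :
    AltA (VFD κ) PP tK tL pcB [⟨3, 0, 0, 1449551462⟩] 2 1 3 0 8 (sgb false) (sgb false) x :=
  strip_altAD (m := 1449551462) true rfl hκ (SH.κ0 hκ (SH.hx1 hx).le (SH.hx2 hx').le) (SH.hx1 hx).le (SH.hx2 hx') (covB02).cov (covB81).cov hx hx' c_A08mm_213_s1 cutA_nil (noExt_A)

noncomputable def cut_B00pp_001_s1 : Cut := Cut.of [[⟨4, 0, 0, 1449551462⟩]]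

noncomputable def f_B00pp_001_s1 : ℕ → ℕ → ℕ → ℕ → Bool := onCell 0 536870912 0 536870912 649613803 48318383
    (rowF 1 false true true .up 0 0 1 (qsf 0 536870912 536870912 536870912 0) ndB0q0 ndB0q1 pcB0 cut_B00pp_001_s1 Ext.none)

def k0_B00pp_001_s1 : ∃ t, chk3 f_B00pp_001_s1 t 1 1 1 = true :=
  ⟨(l 3), by decide +kernel⟩

theorem c_B00pp_001_s1 : CertF 0 536870912 536870912 536870912 649613803 48318383 false true true .up 0 0 1
    ndB0q0 ndB0q1 pcB0 cut_B00pp_001_s1 Ext.none :=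
  certF1 (fam := false) (s1 := true) (s2 := true) (a := 0) (b := 0) (c := 1) (cn := .up) (n1 := ndB0q0) (n2 := ndB0q1) (pc := pcB0) (cut := cut_B00pp_001_s1) (xt := Ext.none) (P1 := 0) (W1 := 536870912) (P2 := 536870912) (W2 := 536870912) (P3 := 649613803) (W3 := 48318383)
    rfl (fun _ => rfl) k0_B00pp_001_s1

theorem s_B00pp_001_s1 {κ x : ℝ} (hκ : κ * h0 = ken x) (hx : ((649613803 : ℕ) : ℝ) / S ≤ x)
    (hx' : x ≤ (((649613803 : ℕ) : ℝ) + (48318383 : ℕ)) / S) :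
    AltB (VFD κ) PP tK tL pcB [⟨3, 0, 0, 1449551462⟩] 0 0 1 0 0 (sgb true) (sgb true) x :=
  strip_altBD (m := 1449551462) true rfl hκ (SH.κ0 hκ (SH.hx1 hx).le (SH.hx2 hx').le) (SH.hx1 hx).le (SH.hx2 hx') (covB00).cov (covB01).cov hx hx' c_B00pp_001_s1 cutB_nil (noExt_B)

noncomputable def cut_B00pp_001_s3 : Cut := Cut.of [[⟨3, 0, 0, 2845415833⟩]]

noncomputable def f_B00pp_001_s3 : ℕ → ℕ → ℕ → ℕ → Bool := onCell 0 536870912 536870912 536870912 649613803 48318383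
    (rowF 0 false true true .up 0 0 1 (qsf 0 536870912 536870912 536870912 0) ndB0q0 ndB0q1 pcB0 cut_B00pp_001_s3 Ext.none)

def k0_B00pp_001_s3 : ∃ t, chk3 f_B00pp_001_s3 t 1 1 1 = true :=
  ⟨(l 6), by decide +kernel⟩

theorem c_B00pp_001_s3 : CertF 0 536870912 536870912 536870912 649613803 48318383 false true true .up 0 0 1
    ndB0q0 ndB0q1 pcB0 cut_B00pp_001_s3 Ext.none :=
  certF0 (fam := false) (s1 := true) (s2 := true) (a := 0) (b := 0) (c := 1) (cn := .up) (n1 := ndB0q0) (n2 := ndB0q1) (pc := pcB0) (cut := cut_B00pp_001_s3) (xt := Ext.none) (P1 := 0) (W1 := 536870912) (P2 := 536870912) (W2 := 536870912) (P3 := 649613803) (W3 := 48318383)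
    rfl k0_B00pp_001_s3

theorem s_B00pp_001_s3 {κ x : ℝ} (hκ : κ * h0 = ken x) (hx : ((649613803 : ℕ) : ℝ) / S ≤ x)
    (hx' : x ≤ (((649613803 : ℕ) : ℝ) + (48318383 : ℕ)) / S) :
    AltB (VFD κ) PP tK tL pcB [⟨4, 0, 0, 2845415833⟩] 0 0 1 0 0 (sgb true) (sgb true) x :=
  strip_altBD (m := 2845415833) false rfl hκ (SH.κ0 hκ (SH.hx1 hx).le (SH.hx2 hx').le) (SH.hx1 hx).le (SH.hx2 hx') (covB00).cov (covB01).cov hx hx' c_B00pp_001_s3 cutB_nil (noExt_B)

noncomputable def cut_B00pp_011_s1 : Cut := Cut.of [[⟨4, 0, 0, 1449551462⟩], [⟨0, 0, 0, 67108864⟩, ⟨1, 1, 0, 67108864⟩, ⟨2, 1, 0, 67108864⟩]]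

noncomputable def f_B00pp_011_s1 : ℕ → ℕ → ℕ → ℕ → Bool := onCell 536870912 536870912 536870912 536870912 649613803 48318383
    (rowF 2 false true true .pnn 0 1 1 (qsf 0 536870912 536870912 536870912 1) ndB0q0 ndB0q1 pcB1 cut_B00pp_011_s1 Ext.none)

def k0_B00pp_011_s1 : ∃ t, chk3 f_B00pp_011_s1 t 1 1 1 = true :=
  ⟨(a (l 3) (b (l 3) (a (l 3) (b (l 3) (a (l 3) (b (l 3) (b (l 3) (a (l 3) (l 14))))))))), by decide +kernel⟩

theorem c_B00pp_011_s1 : CertF 0 536870912 536870912 536870912 649613803 48318383 false true true .pnn 0 1 1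
    ndB0q0 ndB0q1 pcB1 cut_B00pp_011_s1 Ext.none :=
  certF2 (fam := false) (s1 := true) (s2 := true) (a := 0) (b := 1) (c := 1) (cn := .pnn) (n1 := ndB0q0) (n2 := ndB0q1) (pc := pcB1) (cut := cut_B00pp_011_s1) (xt := Ext.none) (P1 := 0) (W1 := 536870912) (P2 := 536870912) (W2 := 536870912) (P3 := 649613803) (W3 := 48318383)
    rfl (fun _ => rfl) k0_B00pp_011_s1

theorem s_B00pp_011_s1 {κ x : ℝ} (hκ : κ * h0 = ken x) (hx : ((649613803 : ℕ) : ℝ) / S ≤ x)
    (hx' : x ≤ (((649613803 : ℕ) : ℝ) + (48318383 : ℕ)) / S)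
    (H : CutB (VFD κ) PP tK tL pcB (Cut.of [[⟨0, 0, 0, 67108864⟩, ⟨1, 1, 0, 67108864⟩, ⟨2, 1, 0, 67108864⟩]]) 0 1 1 0 0 (sgb true) (sgb true) x) :
    AltB (VFD κ) PP tK tL pcB [⟨3, 0, 0, 1449551462⟩] 0 1 1 0 0 (sgb true) (sgb true) x :=
  strip_altBD (m := 1449551462) true rfl hκ (SH.κ0 hκ (SH.hx1 hx).le (SH.hx2 hx').le) (SH.hx1 hx).le (SH.hx2 hx') (covB00).cov (covB01).cov hx hx' c_B00pp_011_s1 H (noExt_B)

noncomputable def cut_B00pp_011_s3 : Cut := Cut.of [[⟨3, 0, 0, 2845415833⟩], [⟨0, 0, 0, 67108864⟩, ⟨1, 1, 0, 67108864⟩, ⟨2, 1, 0, 67108864⟩]]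

noncomputable def f_B00pp_011_s3 : ℕ → ℕ → ℕ → ℕ → Bool := onCell 0 536870912 536870912 536870912 649613803 48318383
    (rowF 0 false true true .pnn 0 1 1 (qsf 0 536870912 536870912 536870912 1) ndB0q0 ndB0q1 pcB1 cut_B00pp_011_s3 Ext.none)

def k0_B00pp_011_s3 : ∃ t, chk3 f_B00pp_011_s3 t 1 1 1 = true :=
  ⟨(l 6), by decide +kernel⟩

theorem c_B00pp_011_s3 : CertF 0 536870912 536870912 536870912 649613803 48318383 false true true .pnn 0 1 1
    ndB0q0 ndB0q1 pcB1 cut_B00pp_011_s3 Ext.none :=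
  certF0 (fam := false) (s1 := true) (s2 := true) (a := 0) (b := 1) (c := 1) (cn := .pnn) (n1 := ndB0q0) (n2 := ndB0q1) (pc := pcB1) (cut := cut_B00pp_011_s3) (xt := Ext.none) (P1 := 0) (W1 := 536870912) (P2 := 536870912) (W2 := 536870912) (P3 := 649613803) (W3 := 48318383)
    rfl k0_B00pp_011_s3

theorem s_B00pp_011_s3 {κ x : ℝ} (hκ : κ * h0 = ken x) (hx : ((649613803 : ℕ) : ℝ) / S ≤ x)
    (hx' : x ≤ (((649613803 : ℕ) : ℝ) + (48318383 : ℕ)) / S)
    (H : CutB (VFD κ) PP tK tL pcB (Cut.of [[⟨0, 0, 0, 67108864⟩, ⟨1, 1, 0, 67108864⟩, ⟨2, 1, 0, 67108864⟩]]) 0 1 1 0 0 (sgb true) (sgb true) x) :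
    AltB (VFD κ) PP tK tL pcB [⟨4, 0, 0, 2845415833⟩] 0 1 1 0 0 (sgb true) (sgb true) x :=
  strip_altBD (m := 2845415833) false rfl hκ (SH.κ0 hκ (SH.hx1 hx).le (SH.hx2 hx').le) (SH.hx1 hx).le (SH.hx2 hx') (covB00).cov (covB01).cov hx hx' c_B00pp_011_s3 H (noExt_B)

noncomputable def cut_B00pp_012_s1 : Cut := Cut.of [[⟨4, 0, 0, 1449551462⟩], [⟨0, 0, 0, 33554432⟩, ⟨1, 1, 0, 33554432⟩, ⟨2, 1, 0, 33554432⟩]]

noncomputable def xt_B00pp_012_s1 : Ext := strExt6 dd false true true .u0 .u2 .u0m .pnp 0 1 2 rfl rfl gf1 vv ww ndB0q0 ndB0q2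

noncomputable def f_B00pp_012_s1 : ℕ → ℕ → ℕ → ℕ → Bool := onCell 536870912 536870912 0 536870912 649613803 48318383
    (rowF 2 false true true .pnp 0 1 2 (qsf 0 536870912 0 536870912 1) ndB0q0 ndB0q2 pcB1 cut_B00pp_012_s1 xt_B00pp_012_s1)

def k0_B00pp_012_s1 : ∃ t, chk3 f_B00pp_012_s1 t 2 2 1 = true :=
  ⟨(a (b (l 2) (l 3)) (b (a (b (a (a (l 2) (a (l 2) (a (l 2) (b (b (l 16727560) (l 16738912)) (l 1068724239))))) (b (a (b (l 16721096) (l 16753368)) (l 16716320)) (b (a (a (l 16761680) (b (l 16738144) (l 16743536))) (a (l 16735648) (l 16730192))) (a (l 1068787727) (a (b (l 16743736) (l 16749176)) (b (l 16738552) (l 16743792))))))) (a (b (a (l 2) (l 1068715023)) (l 3)) (b (a (l 1068808207) (b (l 1068847631) (l 1068844047))) (a (b (l 1068815887) (l 3)) (b (l 1068834319) (l 1068836367)))))) (b (a (a (b (l 16705888) (a (a (l 16742304) (l 16728920)) (l 16724800))) (b (l 16695296) (l 16716440))) (b (a (l 16684488) (l 16673384))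 (a (l 16705088) (l 16693464)))) (a (b (b (a (a (c (l 16767976) (l 16766424)) (b (l 16738312) (l 16743336))) (b (l 16729624) (l 16756016))) (a (l 1068816399) (a (c (l 16767256) (l 16765360)) (b (l 16737192) (l 16742088))))) (a (b (l 1068802575) (l 1068786703)) (b (l 1068689423) (l 1068660239)))) (b (a (a (b (l 16723472) (l 16733872)) (l 16722624)) (l 16713568)) (b (a (b (a (l 16741168) (l 16735280)) (a (l 16746552) (l 16740080))) (a (l 16752656) (l 16725288))) (a (a (l 16775328) (l 16748128)) (a (b (l 16759824) (l 16744272)) (b (l 16732800) (a (l 16739272) (l 16735976)))))))))) (a (l 3) (b (a (b (b (a (l 1068764175) (l 1068624911)) (b (l 1068679695) (l 3))) (l 3)) (b (a (b (a (l 1068468239) (l 1068325903)) (a (b (l 1068426255) (l 1068380175)) (b (l 1068255247) (l 1068141071)))) (b (a (l 16762680) (l 16745616)) (b (l 1068007439) (l 1067893263)))) (a (b (a (l 1068159503) (l 1067944463)) (l 3)) (a (b (l 1067772431) (b (l 1067574287)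 (l 3))) (b (l 1067634191) (b (l 1067438607) (a (l 3) (l 1067277839)))))))) (l 3))))), by decide +kernel⟩

def k1_B00pp_012_s1 : ∃ t, chk3 f_B00pp_012_s1 t 2 3 1 = true :=
  ⟨(l 3), by decide +kernel⟩

def k2_B00pp_012_s1 : ∃ t, chk3 f_B00pp_012_s1 t 6 4 1 = true :=
  ⟨(a (b (a (b (a (b (a (l 16659856) (l 16654320)) (l 16666856)) (b (l 16646024) (a (l 16658080) (l 16652240)))) (a (l 16681648) (l 16669744))) (b (a (b (l 16634504) (l 16643816)) (l 16627696)) (a (b (l 16652792) (l 16662536)) (b (l 16641280) (l 16650232))))) (b (a (a (l 16701416) (l 16689216)) (a (l 16676984) (l 16664472))) (a (a (b (l 16716056) (a (c (l 16731016) (l 16727080)) (l 16722688))) (c (l 16711096) (l 16705992))) (a (l 16696216) (l 16683304))))) (b (a (a (a (b (l 16619240) (l 16637080)) (l 16622680)) (l 16655864)) (b (l 6) (l 16688984))) (a (b (a (l 16651736) (l 16639480)) (a (l 16669832) (l 16656840))) (b (a (l 16627528) (l 16615760)) (a (l 16644192)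 (l 16632112)))))), by decide +kernel⟩

def k3_B00pp_012_s1 : ∃ t, chk3 f_B00pp_012_s1 t 12 10 1 = true :=
  ⟨(a (b (a (b (a (b (c (l 16737928) (l 16734424)) (l 16741592)) (b (l 16730120) (a (l 16736512) (l 16733288)))) (a (l 1067780111) (l 16753288))) (a (a (b (l 16748872) (l 16748168)) (b (l 16724624) (b (l 16731920) (l 16737064)))) (b (l 16719968) (b (l 16727360) (a (l 16733680) (l 16730552)))))) (a (b (a (l 1067529231) (l 1067456527)) (b (a (l 1067335183) (l 1067264015)) (a (a (l 1067227151) (l 1067184143)) (a (a (l 1067157007) (l 1067141135)) (l 1067121167))))) (a (b (l 1067414031) (b (l 1067222031) (l 1067092495))) (b (l 16760984) (l 1067133455))))) (b (a (b (l 16710632) (a (c (l 16725312) (l 16721680)) (l 16717152))) (c (l 16746216) (l 16742000))) (a (b (a (a (l 16734944) (b (l 16729264) (l 16734432))) (b (l 16724624) (a (l 16731144) (l 16728088)))) (a (l 1067142159) (l 16737568))) (b (a (l 16741552) (l 16713080))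 (a (a (l 16743096) (a (l 16729992) (l 16749104))) (b (l 16720856) (l 16747072))))))), by decide +kernel⟩

def k4_B00pp_012_s1 : ∃ t, chk3 f_B00pp_012_s1 t 12 11 1 = true :=
  ⟨(a (b (a (b (b (b (c (a (l 1067347471) (l 1067278351)) (a (a (l 3) (a (b (l 1066862607) (l 3)) (b (l 1066842639) (l 1066809871)))) (c (l 1066912783) (l 1066659343)))) (a (l 3) (a (l 1066985999) (l 1066958863)))) (a (l 3) (b (a (a (l 3) (l 1066913295)) (l 1066893839)) (a (l 3) (a (l 3) (l 1066820623)))))) (l 3)) (b (b (a (b (l 1066994703) (l 1066927119)) (l 1066929167)) (a (a (b (l 1066870799) (l 1066802703)) (l 1066811407)) (l 1066779151))) (a (b (l 1066657807) (l 3)) (l 1066539023)))) (l 3)) (b (b (a (a (l 1066871823) (l 1066888719)) (a (l 1066917903) (l 16744688))) (a (a (l 1066539023) (l 1066571791)) (a (l 1066602511) (l 1066544143)))) (a (a (b (a (b (l 1066296335) (l 3)) (l 1066226703)) (l 3)) (b (l 1066255887) (a (l 3) (b (l 1066037775) (l 3)))))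 (b (a (l 1066290191) (c (l 1066358287) (l 1066116111))) (c (a (b (l 1066179599) (c (l 1066080271) (l 1065970191))) (b (l 1066128911) (l 1065980431))) (a (b (c (l 1066000911) (a (l 1065877007) (l 1065874447))) (a (l 3) (l 1065793551))) (b (l 1065901583) (a (l 1065769999) (l 1065755663))))))))), by decide +kernel⟩

def k5_B00pp_012_s1 : ∃ t, chk3 f_B00pp_012_s1 t 13 5 1 = true :=
  ⟨(b (b (a (a (l 16687984) (l 16674312)) (a (l 16661112) (l 16648624))) (a (a (b (l 16702072) (a (l 16715904) (l 16708528))) (c (l 16736184) (l 16733296))) (a (c (l 16722264) (l 16719808)) (l 16666176)))) (a (b (a (b (a (b (l 16744936) (l 16729424)) (b (l 16716472) (l 16742952))) (a (l 16758952) (c (l 16752024) (l 16729616)))) (b (l 16739656) (a (c (l 16744584) (l 16743168)) (l 16736648)))) (a (a (b (b (l 16757448) (l 1066137103)) (b (l 1065995279) (l 1065858063))) (b (l 1066206735) (b (l 1066001935) (l 1065871375)))) (b (a (l 16755656) (l 16748160))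 (b (l 1066057743) (l 1065934863))))) (b (a (a (l 16702960) (l 16696024)) (a (l 16689288) (l 16703760))) (a (b (a (l 16719968) (l 16712872)) (a (l 16742456) (l 16735224))) (a (b (l 16705904) (l 16717784)) (b (l 16699136) (l 16710752))))))), by decide +kernel⟩

def k6_B00pp_012_s1 : ∃ t, chk3 f_B00pp_012_s1 t 12 6 1 = true :=
  ⟨(b (a (l 3) (b (a (l 3) (a (l 3) (a (l 3) (b (a (b (l 1065732111) (l 3)) (l 1065670671)) (l 3))))) (l 3))) (l 3)), by decide +kernel⟩

def k7_B00pp_012_s1 : ∃ t, chk3 f_B00pp_012_s1 t 13 12 1 = true :=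
  ⟨(a (b (a (a (b (l 1065671183) (l 3)) (b (l 1065690127) (a (l 1065452559) (l 1065471503)))) (b (a (l 1065732111) (l 1065795599)) (a (c (l 1065571855) (l 1065441295)) (c (l 1065624079) (l 1065529359))))) (a (l 3) (a (a (l 3) (a (l 3) (b (b (l 1065377807) (l 3)) (l 3)))) (a (b (b (a (l 1065396239) (l 1065416207)) (l 3)) (l 3)) (b (c (a (b (l 1065478671) (a (l 3) (b (b (b (l 1065427983) (l 3)) (l 3)) (l 3)))) (b (c (b (l 1065537039) (l 1065487887)) (l 1065479183)) (b (b (c (b (l 1065457167) (a (l 1065441295) (l 1065449487))) (l 1065418255)) (l 1065411599)) (l 3)))) (b (l 1065404431) (b (l 1065331727) (l 3)))) (l 3)))))) (b (b (a (a (l 1065880079) (l 1065987599)) (a (l 16740320) (b (l 16719704) (l 16746680)))) (b (a (a (l 1065722383) (l 1065834511)) (a (l 16749552) (l 16752696))) (a (a (a (l 1065595407) (l 1065646607)) (a (l 1065704975) (l 1065769487))) (a (c (l 1065908239) (l 16755688)) (l 16748384))))) (b (a (a (a (c (a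 (b (b (l 1065540111) (b (l 1065503247) (l 1065479183))) (b (b (b (l 1065460751) (l 1065448975)) (l 1065431055)) (l 1065396239))) (b (b (l 1065559567) (l 1065511439)) (l 1065440271))) (b (c (l 1065480207) (l 1065442831)) (b (l 1065390607) (l 1065344015)))) (b (b (l 1065573391) (a (l 1065511951) (l 1065540111))) (c (l 1065742351) (l 1065432591)))) (a (b (b (l 1065633807) (l 1065585679)) (l 1066056207)) (b (c (l 1065709583) (l 1065650191)) (l 1065596431)))) (b (c (a (l 1065820687) (l 1065949711)) (l 1065775119)) (a (l 1065695759) (l 1065813007)))) (b (a (a (a (l 3) (l 1065370639)) (l 1065484815)) (l 1065711119)) (a (a (l 3) (l 1065472015)) (l 1065679887)))))), by decide +kernel⟩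

def k8_B00pp_012_s1 : ∃ t, chk3 f_B00pp_012_s1 t 13 13 1 = true :=
  ⟨(a (l 3) (b (a (l 3) (a (b (l 1065579535) (l 3)) (b (l 1065692687) (b (l 1065654287) (l 3))))) (l 3))), by decide +kernel⟩

def k9_B00pp_012_s1 : ∃ t, chk3 f_B00pp_012_s1 t 6 7 1 = true :=
  ⟨(l 3), by decide +kernel⟩

def k10_B00pp_012_s1 : ∃ t, chk3 f_B00pp_012_s1 t 7 4 1 = true :=
  ⟨(b (l 6) (a (a (b (l 16599664) (l 16615424)) (l 16589360)) (l 6))), by decide +kernel⟩

def k11_B00pp_012_s1 : ∃ t, chk3 f_B00pp_012_s1 t 7 5 1 = true :=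
  ⟨(a (b (b (a (b (l 16627576) (l 16635632)) (b (l 16607224) (l 16614184))) (a (a (l 16675144) (l 16642864)) (b (l 16631960) (a (l 16635136) (l 16622992))))) (b (a (a (b (l 16668344) (l 16678392)) (b (l 16656008) (a (l 16668680) (l 16662184)))) (a (b (l 16643504) (b (l 16650120) (l 16654744))) (b (l 16630864) (b (l 16637160) (l 16641576))))) (a (a (b (a (l 16692368) (l 16685600)) (a (l 16703672) (l 16696632))) (b (a (l 16678840) (l 16672096)) (a (l 16689616) (l 16682632)))) (a (b (a (b (l 16662864) (l 16667864)) (b (l 16656184) (l 16661088))) (a (a (l 16677424) (l 16673952)) (b (l 16666152) (l 16671376)))) (a (b (b (l 16649504) (l 16654312)) (b (c (l 16660888) (l 16657744)) (a (l 16666168) (l 16662696)))) (b (b (l 16642832) (l 16647552)) (b (c (l 16654216) (l 16650736)) (b (l 16656224) (l 16658792))))))))) (b (a (b (a (l 16593648) (l 6)) (a (b (l 16603464) (l 16610568)) (l 16594728))) (b (l 6) (a (b (l 6) (l 16585808))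 (l 6)))) (b (b (a (a (l 16618168) (l 16605416)) (a (l 16592824) (l 16580416))) (a (a (b (l 16624176) (l 16628424)) (a (l 16616536) (l 16610088))) (a (c (l 16603232) (l 16639744)) (l 16587816)))) (a (a (b (b (a (l 16636168) (l 16629536)) (a (l 16640816) (l 16634120))) (a (b (c (l 16647560) (l 16643776)) (c (l 16652488) (l 16648840))) (b (c (l 16640952) (l 16636872)) (c (l 16645808) (l 16641880))))) (b (a (b (l 16622952) (l 16627464)) (l 16618624)) (a (b (l 16632160) (c (l 16639160) (l 16634984))) (b (l 16625496) (l 16630312))))) (a (b (a (l 16612088) (l 16605592)) (a (c (l 16623672) (l 16618920)) (l 16614648))) (b (a (l 16599152) (l 16592744)) (a (l 16608088) (l 16601552)))))))), by decide +kernel⟩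

def k12_B00pp_012_s1 : ∃ t, chk3 f_B00pp_012_s1 t 14 12 1 = true :=
  ⟨(a (a (b (b (a (b (l 16712472) (l 16718456)) (l 16708184)) (a (c (l 16749000) (l 16747944)) (b (l 16717136) (l 16723176)))) (b (a (l 1065938959) (l 1066015759)) (a (l 1065846799) (l 1065923599)))) (b (b (a (l 16700944) (l 16693752)) (a (l 16712744) (l 16705392))) (a (b (b (l 16721848) (l 16727968)) (l 1065985039)) (b (b (l 16714392) (a (l 16722384) (l 16718648))) (l 1066036239))))) (b (a (a (b (a (l 16688392) (l 16684832)) (b (l 16695152) (l 16701008))) (b (b (l 16676760) (l 16682280)) (b (l 16687920) (l 16693696)))) (b (a (a (b (l 16671480) (l 16676936)) (b (l 16667968) (l 16673392))) (b (a (l 16664472) (l 16660992)) (a (l 16669864) (l 16666352)))) (a (b (a (l 16682528) (l 16678952)) (a (l 16688256) (l 16684648))) (b (a (l 16675392) (l 16671848)) (a (l 16681056) (l 16677480)))))) (a (b (a (b (l 16706968) (l 16713040)) (b (l 16699592) (l 16705600)))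 (a (b (a (l 16721080) (l 16717320)) (l 16746344)) (b (l 16711704) (c (l 16739592) (l 16717112))))) (b (a (b (l 16692280) (l 16698232)) (b (c (l 16686296) (l 16683840)) (c (l 16692080) (l 16689856)))) (a (a (l 16709200) (l 16705496)) (b (l 16696960) (l 16703016))))))), by decide +kernel⟩

def k13_B00pp_012_s1 : ∃ t, chk3 f_B00pp_012_s1 t 14 13 1 = true :=
  ⟨(a (a (b (b (a (c (l 1065838095) (l 1065733135)) (c (l 1065922063) (l 1065793551))) (a (b (l 1065740303) (b (l 1065720335) (l 3))) (a (b (l 1065793551) (l 1065764879)) (b (l 1065824271) (l 1065794063))))) (a (l 3) (b (a (l 1065726479) (l 1065754127)) (l 3)))) (b (b (a (c (l 1065989647) (l 1065842191)) (c (l 1066583055) (l 1065882639))) (a (a (l 1065835535) (l 1065860623)) (a (l 1065883663) (l 1065906191)))) (c (a (b (c (l 1066939407) (l 1065815055)) (l 1065808911)) (b (l 1066968079) (a (l 1065851407) (l 1065874959)))) (b (l 1065763343) (l 1065765391))))) (b (b (b (a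 (a (l 16731520) (a (l 16725856) (l 16722096))) (a (l 16726968) (l 16709064))) (a (l 1066539535) (a (c (l 16733680) (l 16721952)) (l 16715112)))) (b (a (l 1066506255) (a (l 16728640) (c (l 16742696) (l 16720592)))) (a (l 1067550735) (a (l 16745208) (l 16727184))))) (a (a (b (l 1065891855) (b (l 1065870351) (l 1066391567))) (b (l 1065931279) (b (l 1065907215) (l 1065889295)))) (a (b (a (l 1065962511) (l 1065981967)) (b (l 1065944079) (a (l 1065917967) (l 1065935887)))) (b (l 1066009615) (a (l 1065963023) (l 1065983503))))))), by decide +kernel⟩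

def k14_B00pp_012_s1 : ∃ t, chk3 f_B00pp_012_s1 t 15 12 1 = true :=
  ⟨(a (b (a (b (a (a (b (l 16657520) (l 16662848)) (b (l 16654064) (l 16659368))) (b (a (l 16650624) (l 16647192)) (a (l 16655896) (l 16652440)))) (a (a (b (l 16668320) (l 16673928)) (b (l 16664808) (l 16670384))) (a (b (l 16661312) (l 16666864)) (b (l 16657824) (l 16663352))))) (a (b (b (a (l 16643784) (l 16640376)) (a (l 16649000) (l 16645568))) (a (b (l 16654360) (l 16659864)) (b (l 16650904) (l 16656384)))) (b (b (l 16635304) (l 16645696)) (a (c (l 16651976) (l 16648472)) (c (l 16648576) (l 16644992)))))) (b (a (c (b (a (l 16679224) (l 16672208)) (a (l 16684944) (l 16677872))) (a (b (a (l 16678400) (l 16674800)) (c (l 16683144) (l 16682016))) (b (c (l 16670096) (l 16668760)) (c (l 16675968) (l 16674776))))) (c (b (a (l 16665256) (l 16658360)) (a (l 16670864) (l 16663912))) (a (b (c (l 16663024) (l 16661616)) (c (l 16668864) (l 16667600))) (b (l 16655264)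 (l 16661144))))) (a (a (b (a (l 16691512) (l 16687904)) (l 16695720)) (a (b (l 16684312) (l 16690296)) (b (l 16680736) (l 16686704)))) (a (c (l 16684728) (b (l 16674264) (l 16680352))) (c (l 16672464) (b (l 16667152) (l 16673216))))))) (a (b (a (a (b (l 16632800) (l 16643320)) (b (l 16629432) (l 16639904))) (b (l 16624408) (l 16645288))) (c (b (a (b (l 16651512) (l 16657016)) (l 16647416)) (a (l 16665480) (l 16658528))) (a (a (b (l 16652936) (l 16664864)) (b (l 16649440) (l 16661336))) (b (l 16644216) (l 16656040))))) (b (a (b (l 16617736) (l 16628024)) (b (l 16611088) (l 16621256))) (b (a (l 16638888) (l 16632000)) (a (l 16650248) (l 16643248)))))), by decide +kernel⟩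

def k15_B00pp_012_s1 : ∃ t, chk3 f_B00pp_012_s1 t 15 13 1 = true :=
  ⟨(a (b (a (c (b (a (l 16705512) (l 16698272)) (a (b (l 16714344) (l 16741216)) (l 16709984))) (b (a (c (l 16704384) (l 16693200)) (a (l 16698552) (l 16694912))) (a (b (l 16713184) (l 16719272)) (c (l 16709152) (l 16698168))))) (c (b (b (l 16695112) (l 16700896)) (a (l 16702736) (l 16695536))) (b (a (a (l 16691296) (l 16687696)) (a (l 16684104) (l 16680528))) (a (b (l 16698592) (l 16704648)) (b (l 16691368) (l 16697408)))))) (a (b (a (a (l 16751600) (l 16737376)) (c (b (l 16739752) (l 16745592)) (b (l 16697024) (l 16724000)))) (a (a (l 1066004495) (l 1066026511)) (l 1066055183))) (b (a (b (l 16711056) (c (l 16717304) (l 16695752))) (a (l 16708568) (l 16704936))) (a (a (b (l 16724680) (l 16730544)) (l 16729152)) (b (l 16694576) (l 16721312)))))) (a (a (a (b (b (l 16677776) (l 16689544)) (b (l 16701304) (l 16691984))) (b (b (l 16674224) (l 16685952)) (b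 (l 16697672) (l 16709296)))) (b (b (c (l 16669840) (l 16668024)) (c (l 16681208) (l 16679976))) (b (l 16702712) (l 16682832)))) (b (a (b (l 16661800) (l 16673368)) (b (l 16654696) (l 16666168))) (b (a (l 16684960) (l 16677672)) (a (l 16675496) (l 16668128)))))), by decide +kernel⟩

def k16_B00pp_012_s1 : ∃ t, chk3 f_B00pp_012_s1 t 14 14 1 = true :=
  ⟨(a (l 3) (a (b (b (b (c (a (l 1066408463) (l 1066443791)) (l 1065818639)) (a (l 3) (b (c (l 1066290703) (l 1065833487)) (a (l 3) (a (l 1065854991) (b (l 1065865231) (a (l 1065858575) (l 1065862671)))))))) (l 3)) (l 3)) (a (b (c (b (b (a (l 1065934351) (l 1065951247)) (a (b (l 1065914383) (a (l 1065896975) (l 1065905167))) (l 1065923087))) (a (b (l 1065878543) (l 3)) (b (l 1065894415) (l 1065057295)))) (b (a (l 1066396687) (l 1065877007)) (l 1065832975))) (l 3)) (a (b (c (b (b (l 1065968655) (l 1065940495)) (b (l 1065910799) (l 1065879055))) (b (l 1065896975) (l 1065863695)))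 (l 3)) (b (b (b (l 1065955343) (l 1065934351)) (a (l 1065891855) (l 1065901071))) (b (l 1065819151) (l 3))))))), by decide +kernel⟩

def k17_B00pp_012_s1 : ∃ t, chk3 f_B00pp_012_s1 t 15 14 1 = true :=
  ⟨(a (b (a (a (b (b (l 1065984015) (l 1065961487)) (a (l 1065913359) (l 1065933327))) (b (l 1066009103) (l 1067031055))) (c (a (b (l 16747944) (l 1065989647)) (b (l 16730008) (l 16751768))) (a (b (l 16737328) (l 1065988111)) (b (l 16729896) (l 16751800))))) (a (b (a (l 1066374159) (l 1065873423)) (a (l 3) (l 1067399183))) (a (b (l 1066447887) (a (l 1065793039) (l 1066863119))) (a (b (l 1065952783) (b (l 1065842191) (l 1065746447))) (b (l 1065972751) (b (l 1065839631) (l 1065743887))))))) (b (a (b (a (a (l 16734856) (l 16731240)) (l 16725784)) (a (l 16744320) (a (l 16728256) (l 16735008)))) (a (b (l 16707824) (b (l 16716272) (l 16732272))) (a (l 16728864) (l 16725128)))) (b (b (a (a (l 16742176) (l 16734520)) (a (l 16726984)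 (l 16729712))) (a (a (l 1066465295) (l 16745008)) (a (l 16732000) (c (l 16735144) (l 16724152))))) (a (a (a (b (l 16760064) (l 1065744911)) (b (l 16756168) (l 1065749007))) (a (b (l 16747024) (l 1066286095)) (b (l 16743104) (l 1066817551)))) (a (a (b (l 16739176) (l 16744464)) (a (l 16744096) (l 16742104))) (b (l 16734552) (a (l 16736448) (l 16732448)))))))), by decide +kernel⟩

def k18_B00pp_012_s1 : ∃ t, chk3 f_B00pp_012_s1 t 14 15 1 = true :=
  ⟨(l 3), by decide +kernel⟩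

def k19_B00pp_012_s1 : ∃ t, chk3 f_B00pp_012_s1 t 30 15 1 = true :=
  ⟨(b (a (l 3) (a (a (b (b (l 1065659919) (l 3)) (l 3)) (b (b (l 1066258959) (l 3)) (l 3))) (a (b (b (l 1066186255) (l 1065550863)) (l 3)) (a (b (b (l 1065650191) (l 1065551375)) (l 3)) (b (b (l 1065649679) (l 1065555983)) (b (l 1065445391) (l 3))))))) (l 3)), by decide +kernel⟩

def k20_B00pp_012_s1 : ∃ t, chk3 f_B00pp_012_s1 t 62 30 1 = true :=
  ⟨(b (a (a (b (l 1066187791) (a (l 1065559055) (l 1065560079))) (b (l 1066726927) (a (l 1065560079) (l 1066087439)))) (a (b (c (l 1066763791) (l 1065600015)) (b (l 1065573903) (l 1066052111))) (b (a (l 1065647119) (l 1066178063)) (b (l 1066097679) (a (l 1065510927) (l 1065503247)))))) (a (a (b (a (l 1065982479) (l 1065981455)) (l 3)) (b (b (l 1066005007) (b (l 1065429519) (l 1065402383))) (b (b (l 1065375247) (a (l 3) (l 1065351183))) (a (l 3) (b (l 1065325071) (l 3)))))) (b (a (b (c (l 1066044943) (l 1065399823))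 (a (l 1065410063) (l 1065402895))) (b (a (l 1065452047) (l 1065444367)) (a (l 1065395215) (b (l 1065941007) (l 1065912847))))) (c (b (a (a (a (l 1065414671) (l 1064875023)) (l 1065404431)) (b (a (l 1065950735) (a (l 1065410575) (l 1065406991))) (a (a (l 1065392143) (l 1065388559)) (a (l 1065384975) (l 1065380879))))) (a (b (a (l 1065375759) (l 1065906703)) (a (l 1065888271) (a (l 1065348623) (l 1065345551)))) (c (a (a (b (l 1065393679) (l 1065369615)) (b (l 1065390607) (l 1065366031))) (a (b (l 1065387023) (l 1065362447)) (b (l 1065383439) (l 1065358863)))) (a (l 1065316879) (c (l 1065457167) (l 1065292815)))))) (b (a (l 1065283087) (a (l 1064203279) (l 1063656463))) (a (l 1065898511) (b (l 1065226767) (l 1065736207)))))))), by decide +kernel⟩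

def k21_B00pp_012_s1 : ∃ t, chk3 f_B00pp_012_s1 t 62 31 1 = true :=
  ⟨(b (a (l 3) (b (c (a (b (a (l 3) (c (a (b (l 1065351695) (l 3)) (b (l 1065348623) (l 1065325071))) (l 1065274895))) (l 3)) (a (a (b (b (l 1065317391) (l 1065293327)) (b (l 1065269775) (l 3))) (b (b (l 1065313807) (l 1065289743)) (b (l 1065802767) (l 3)))) (a (b (b (l 1065309711) (l 1065285647)) (b (l 1065798671) (l 1066043919))) (b (b (l 1065305615) (l 1065818127)) (b (l 1065794575) (a (l 1065237007) (l 1065234959))))))) (b (b (a (l 1065192975) (c (l 1065743375) (l 1065137167))) (a (l 1065167375) (a (l 1065160207) (l 1064612879)))) (a (l 3) (a (l 1065117711) (c (l 1065611279) (l 1065070095)))))) (a (l 3) (a (l 3) (a (l 3) (b (b (a (l 3) (l 1065684495)) (l 3)) (l 3))))))) (l 3)), by decide +kernel⟩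

def k22_B00pp_012_s1 : ∃ t, chk3 f_B00pp_012_s1 t 63 30 1 = true :=
  ⟨(b (a (b (a (a (l 16753440) (l 16751416)) (c (l 16748560) (l 16745544))) (a (a (b (l 1065555471) (l 1065495567)) (b (l 1065548303) (l 1065487375))) (a (b (l 16753408) (l 1065479183)) (b (l 16748736) (l 16754056))))) (b (a (c (l 16741912) (l 16751928)) (l 16740248)) (a (a (b (l 16746688) (l 16749368)) (b (l 16744632) (l 16747304))) (b (c (l 16744416) (l 16741288)) (c (l 16747056) (l 16743952)))))) (a (b (b (a (a (l 1065435663) (c (l 1065483279) (l 16758152))) (a (b (l 16755536) (l 16756912)) (a (l 16754672) (l 16753632)))) (b (a (c (a (l 1064378895) (l 16760488)) (l 1065320975)) (c (a (l 16758432) (l 16756368)) (l 16759720))) (a (a (a (l 1065371663) (l 1065367567)) (a (l 16762280) (l 16761240))) (c (a (l 16759808) (l 16757736)) (c (l 16761184) (l 16758416)))))) (a (b (b (a (a (l 1065344015) (l 1065339919)) (a (l 1065335311) (l 16762640))) (a (a (l 1065316879)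 (l 1065312783)) (a (l 1065308175) (l 1065303567)))) (a (a (b (l 1065290255) (l 1065801231)) (b (l 1065285647) (l 1065796623))) (c (a (b (l 1065343503) (l 1065854991)) (b (l 1065339407) (l 1065850383))) (l 1065725967)))) (a (a (b (b (l 16761600) (l 1065298959)) (b (l 1065808911) (a (l 1065248271) (l 1065245711)))) (b (b (l 16760552) (l 16761952)) (b (l 1065804303) (a (l 16765024) (l 16764504))))) (b (c (b (l 16759120) (c (l 16760568) (l 16760448))) (l 16759544)) (a (b (a (l 16762568) (l 16762048)) (l 14)) (l 14)))))) (b (a (a (a (b (l 16752600) (l 16755344)) (b (l 16751560) (l 16754296))) (b (l 16752624) (a (l 16753256) (l 16752208)))) (b (a (l 16747920) (l 16745848)) (l 14))) (b (b (a (c (a (l 16757048) (l 14)) (l 16755664)) (l 14)) (a (c (a (l 16758424) (l 14)) (l 16759688)) (l 14))) (l 14))))), by decide +kernel⟩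

def k23_B00pp_012_s1 : ∃ t, chk3 f_B00pp_012_s1 t 63 31 1 = true :=
  ⟨(a (b (b (a (c (b (b (c (a (a (l 1065330703) (l 1065863695)) (a (l 1065859599) (l 1065855503))) (a (a (l 1065270799) (l 1065266191)) (a (l 1065262095) (l 16768312)))) (c (a (a (l 1065843727) (l 1065839631)) (a (l 1066372623) (a (l 1065296911) (l 14)))) (a (a (l 1065246223) (l 1065241615)) (a (l 1065237007) (l 1065232399))))) (a (c (b (a (l 1065820175) (c (l 1066367503) (l 1065801231))) (a (a (l 1065262607) (l 1065260559)) (l 14))) (a (b (l 1065222159) (l 1065198607)) (b (l 1065217551) (l 14)))) (b (l 14) (l 14)))) (a (b (l 1065548815) (a (b (l 1065119759) (l 1065095695)) (l 1065097231))) (a (b (a (l 1064072207) (l 1064069647)) (l 1065091599)) (b (b (l 16768208) (l 1065128975)) (l 14))))) (a (b (a (a (b (l 1065222671) (l 14)) (l 14)) (l 14)) (l 14)) (l 14))) (l 14)) (l 14)) (l 14)), by decide +kernel⟩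

theorem t24_B00pp_012_s1 : ∃ t, chk3 f_B00pp_012_s1 t 63 15 1 = true := ex3_b k22_B00pp_012_s1 k23_B00pp_012_s1

theorem t25_B00pp_012_s1 : ∃ t, chk3 f_B00pp_012_s1 t 62 15 1 = true := ex3_b k20_B00pp_012_s1 k21_B00pp_012_s1

theorem t26_B00pp_012_s1 : ∃ t, chk3 f_B00pp_012_s1 t 31 15 1 = true := ex3_a t25_B00pp_012_s1 t24_B00pp_012_s1

theorem t27_B00pp_012_s1 : ∃ t, chk3 f_B00pp_012_s1 t 15 15 1 = true := ex3_a k19_B00pp_012_s1 t26_B00pp_012_s1

theorem t28_B00pp_012_s1 : ∃ t, chk3 f_B00pp_012_s1 t 7 15 1 = true := ex3_a k18_B00pp_012_s1 t27_B00pp_012_s1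

theorem t29_B00pp_012_s1 : ∃ t, chk3 f_B00pp_012_s1 t 7 14 1 = true := ex3_a k16_B00pp_012_s1 k17_B00pp_012_s1

theorem t30_B00pp_012_s1 : ∃ t, chk3 f_B00pp_012_s1 t 7 7 1 = true := ex3_b t29_B00pp_012_s1 t28_B00pp_012_s1

theorem t31_B00pp_012_s1 : ∃ t, chk3 f_B00pp_012_s1 t 15 6 1 = true := ex3_b k14_B00pp_012_s1 k15_B00pp_012_s1

theorem t32_B00pp_012_s1 : ∃ t, chk3 f_B00pp_012_s1 t 14 6 1 = true := ex3_b k12_B00pp_012_s1 k13_B00pp_012_s1

theorem t33_B00pp_012_s1 : ∃ t, chk3 f_B00pp_012_s1 t 7 6 1 = true := ex3_a t32_B00pp_012_s1 t31_B00pp_012_s1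

theorem t34_B00pp_012_s1 : ∃ t, chk3 f_B00pp_012_s1 t 7 3 1 = true := ex3_b t33_B00pp_012_s1 t30_B00pp_012_s1

theorem t35_B00pp_012_s1 : ∃ t, chk3 f_B00pp_012_s1 t 7 2 1 = true := ex3_b k10_B00pp_012_s1 k11_B00pp_012_s1

theorem t36_B00pp_012_s1 : ∃ t, chk3 f_B00pp_012_s1 t 7 1 1 = true := ex3_b t35_B00pp_012_s1 t34_B00pp_012_s1

theorem t37_B00pp_012_s1 : ∃ t, chk3 f_B00pp_012_s1 t 13 6 1 = true := ex3_b k7_B00pp_012_s1 k8_B00pp_012_s1

theorem t38_B00pp_012_s1 : ∃ t, chk3 f_B00pp_012_s1 t 6 6 1 = true := ex3_a k6_B00pp_012_s1 t37_B00pp_012_s1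

theorem t39_B00pp_012_s1 : ∃ t, chk3 f_B00pp_012_s1 t 6 3 1 = true := ex3_b t38_B00pp_012_s1 k9_B00pp_012_s1

theorem t40_B00pp_012_s1 : ∃ t, chk3 f_B00pp_012_s1 t 12 5 1 = true := ex3_b k3_B00pp_012_s1 k4_B00pp_012_s1

theorem t41_B00pp_012_s1 : ∃ t, chk3 f_B00pp_012_s1 t 6 5 1 = true := ex3_a t40_B00pp_012_s1 k5_B00pp_012_s1

theorem t42_B00pp_012_s1 : ∃ t, chk3 f_B00pp_012_s1 t 6 2 1 = true := ex3_b k2_B00pp_012_s1 t41_B00pp_012_s1

theorem t43_B00pp_012_s1 : ∃ t, chk3 f_B00pp_012_s1 t 6 1 1 = true := ex3_b t42_B00pp_012_s1 t39_B00pp_012_s1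

theorem t44_B00pp_012_s1 : ∃ t, chk3 f_B00pp_012_s1 t 3 1 1 = true := ex3_a t43_B00pp_012_s1 t36_B00pp_012_s1

theorem t45_B00pp_012_s1 : ∃ t, chk3 f_B00pp_012_s1 t 2 1 1 = true := ex3_b k0_B00pp_012_s1 k1_B00pp_012_s1

theorem t46_B00pp_012_s1 : ∃ t, chk3 f_B00pp_012_s1 t 1 1 1 = true := ex3_a t45_B00pp_012_s1 t44_B00pp_012_s1

theorem c_B00pp_012_s1 : CertF 0 536870912 0 536870912 649613803 48318383 false true true .pnp 0 1 2
    ndB0q0 ndB0q2 pcB1 cut_B00pp_012_s1 xt_B00pp_012_s1 :=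
  certF2 (fam := false) (s1 := true) (s2 := true) (a := 0) (b := 1) (c := 2) (cn := .pnp) (n1 := ndB0q0) (n2 := ndB0q2) (pc := pcB1) (cut := cut_B00pp_012_s1) (xt := xt_B00pp_012_s1) (P1 := 0) (W1 := 536870912) (P2 := 0) (W2 := 536870912) (P3 := 649613803) (W3 := 48318383)
    rfl (fun _ => rfl) t46_B00pp_012_s1

theorem s_B00pp_012_s1 {κ x : ℝ} (hκ : κ * h0 = ken x) (hx : ((649613803 : ℕ) : ℝ) / S ≤ x)
    (hx' : x ≤ (((649613803 : ℕ) : ℝ) + (48318383 : ℕ)) / S)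
    (H : CutB (VFD κ) PP tK tL pcB (Cut.of [[⟨0, 0, 0, 33554432⟩, ⟨1, 1, 0, 33554432⟩, ⟨2, 1, 0, 33554432⟩]]) 0 1 2 0 0 (sgb true) (sgb true) x) :
    AltB (VFD κ) PP tK tL pcB [⟨3, 0, 0, 1449551462⟩] 0 1 2 0 0 (sgb true) (sgb true) x :=
  strip_altBD (m := 1449551462) true rfl hκ (SH.κ0 hκ (SH.hx1 hx).le (SH.hx2 hx').le) (SH.hx1 hx).le (SH.hx2 hx') (covB00).cov (covB02).cov hx hx' c_B00pp_012_s1 H ((okx6 hx hx').extB (T := tt) (okx hx hx') (sideB hx hx') hκ rfl rfl (.O 0 true) (.O 2 true) (Or.inr rfl))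

noncomputable def cut_B00pp_012_s3 : Cut := Cut.of [[⟨3, 0, 0, 2845415833⟩], [⟨0, 0, 0, 33554432⟩, ⟨1, 1, 0, 33554432⟩, ⟨2, 1, 0, 33554432⟩]]

noncomputable def f_B00pp_012_s3 : ℕ → ℕ → ℕ → ℕ → Bool := onCell 0 536870912 0 536870912 649613803 48318383
    (rowF 0 false true true .pnp 0 1 2 (qsf 0 536870912 0 536870912 1) ndB0q0 ndB0q2 pcB1 cut_B00pp_012_s3 Ext.none)

def k0_B00pp_012_s3 : ∃ t, chk3 f_B00pp_012_s3 t 1 1 1 = true :=
  ⟨(l 6), by decide +kernel⟩

theorem c_B00pp_012_s3 : CertF 0 536870912 0 536870912 649613803 48318383 false true true .pnp 0 1 2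
    ndB0q0 ndB0q2 pcB1 cut_B00pp_012_s3 Ext.none :=
  certF0 (fam := false) (s1 := true) (s2 := true) (a := 0) (b := 1) (c := 2) (cn := .pnp) (n1 := ndB0q0) (n2 := ndB0q2) (pc := pcB1) (cut := cut_B00pp_012_s3) (xt := Ext.none) (P1 := 0) (W1 := 536870912) (P2 := 0) (W2 := 536870912) (P3 := 649613803) (W3 := 48318383)
    rfl k0_B00pp_012_s3

theorem s_B00pp_012_s3 {κ x : ℝ} (hκ : κ * h0 = ken x) (hx : ((649613803 : ℕ) : ℝ) / S ≤ x)
    (hx' : x ≤ (((649613803 : ℕ) : ℝ) + (48318383 : ℕ)) / S)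
    (H : CutB (VFD κ) PP tK tL pcB (Cut.of [[⟨0, 0, 0, 33554432⟩, ⟨1, 1, 0, 33554432⟩, ⟨2, 1, 0, 33554432⟩]]) 0 1 2 0 0 (sgb true) (sgb true) x) :
    AltB (VFD κ) PP tK tL pcB [⟨4, 0, 0, 2845415833⟩] 0 1 2 0 0 (sgb true) (sgb true) x :=
  strip_altBD (m := 2845415833) false rfl hκ (SH.κ0 hκ (SH.hx1 hx).le (SH.hx2 hx').le) (SH.hx1 hx).le (SH.hx2 hx') (covB00).cov (covB02).cov hx hx' c_B00pp_012_s3 H (noExt_B)

noncomputable def cut_B00pp_022_s1 : Cut := Cut.of [[⟨4, 0, 0, 1449551462⟩], [⟨0, 0, 0, 67108864⟩, ⟨1, 1, 0, 67108864⟩, ⟨2, 1, 0, 67108864⟩]]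

noncomputable def f_B00pp_022_s1 : ℕ → ℕ → ℕ → ℕ → Bool := onCell 1073741824 536870912 0 536870912 649613803 48318383
    (rowF 2 false true true .pp 0 2 2 (qsf 0 536870912 0 536870912 2) ndB0q0 ndB0q2 pcB2 cut_B00pp_022_s1 Ext.none)

def k0_B00pp_022_s1 : ∃ t, chk3 f_B00pp_022_s1 t 4 2 1 = true :=
  ⟨(b (l 6) (a (b (l 6) (a (b (l 6) (a (a (b (c (b (c (l 16587656) (l 16586512)) (c (l 16591896) (l 16590976))) (b (a (l 16585880) (l 16582856)) (c (l 16589768) (l 16588256)))) (b (c (c (l 16606832) (l 16595664)) (c (l 16594624) (l 16593216))) (b (c (c (l 16599824) (l 16609800)) (c (l 16598408) (l 16597088))) (c (a (l 16603480) (l 16600648)) (l 16600312))))) (b (b (l 6) (c (a (l 16587280) (l 16584472)) (a (l 16584448) (l 16581368)))) (a (b (c (l 16591832) (l 16589304)) (c (b (l 16595392) (l 16597816)) (l 16594360))) (b (c (l 16589008) (l 16586184)) (c (b (l 16592552) (l 16594968)) (l 16591216)))))) (a (b (l 6) (c (b (a (l 16586176)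 (l 16583344)) (b (l 16588280) (a (l 16592120) (l 16589256)))) (b (l 16591984) (b (l 16585208) (l 16587736))))) (b (l 6) (b (l 6) (c (l 16594240) (l 16580120))))))) (l 6))) (l 6))), by decide +kernel⟩

def k1_B00pp_022_s1 : ∃ t, chk3 f_B00pp_022_s1 t 8 12 1 = true :=
  ⟨(a (b (b (b (a (c (a (l 16605800) (l 16600048)) (l 16611408)) (a (l 16593080) (a (l 16588536) (l 16585504)))) (a (c (a (l 16610888) (l 16605024)) (a (l 16609264) (l 16602776))) (a (l 16597944) (l 16591760)))) (b (a (c (a (a (l 16617592) (l 16614608)) (l 16610120)) (a (l 16614584) (l 16607944))) (c (a (l 16604104) (l 16598072)) (l 16597936))) (a (a (c (a (l 16617704) (l 16619904)) (l 16630520)) (c (l 16615320) (l 16613256))) (c (c (l 16617040) (l 16605512)) (l 16603008))))) (c (b (b (a (a (a (l 16623176) (l 16625312)) (l 16620632)) (c (l 16611648) (l 16610632))) (a (a (a (l 16622728) (l 16630832)) (l 16626048)) (l 16626888))) (a (a (b (l 16626152) (l 16641056))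 (l 16634344)) (b (l 16621688) (l 16627008)))) (b (a (a (b (a (l 16627344) (l 16623896)) (l 16631336)) (a (l 16633720) (l 16619712))) (b (l 16608208) (l 16634488))) (b (a (a (l 16637168) (l 16629920)) (l 16639896)) (a (a (l 16643048) (l 16635632)) (c (l 16646168) (l 16623432))))))) (b (b (a (b (a (a (l 16582472) (l 6)) (l 6)) (l 16592968)) (l 6)) (a (a (l 16592672) (l 16586264)) (a (l 16579896) (l 16573584)))) (b (c (a (a (l 16604208) (l 16597808)) (l 16588272)) (a (l 16617592) (l 16582464))) (a (c (l 16610928) (l 16627672)) (a (l 16598496) (l 16591472)))))), by decide +kernel⟩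

def k2_B00pp_022_s1 : ∃ t, chk3 f_B00pp_022_s1 t 8 13 1 = true :=
  ⟨(a (b (b (a (a (a (c (l 16643552) (l 16651400)) (c (l 16646880) (l 16649936))) (c (l 16643872) (c (l 16644616) (l 16643624)))) (c (l 16655944) (a (l 16636400) (l 16628568)))) (a (a (a (c (l 16658056) (l 16660056)) (l 16646776)) (a (l 16655512) (l 16653688))) (c (l 16645512) (c (l 16643896) (l 16642328))))) (b (a (a (a (b (l 16665856) (l 16670608)) (l 16666592)) (l 16663984)) (c (l 16655944) (l 16653688))) (a (a (a (l 16677984) (l 16676360)) (l 16673760)) (c (l 16666136) (l 16663896))))) (a (b (b (c (l 16620896) (l 16637776)) (c (l 16630704) (l 16647640))) (b (a (l 16642704) (l 16634432)) (l 16647848))) (b (c (a (l 16573056) (l 16607712)) (b (l 16601056) (l 16610048))) (c (l 16628752) (b (l 16618704) (l 16626856)))))), by decide +kernel⟩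

def k3_B00pp_022_s1 : ∃ t, chk3 f_B00pp_022_s1 t 8 7 1 = true :=
  ⟨(a (b (b (a (a (a (b (l 16688208) (l 16698872)) (b (l 16686584) (l 16702488))) (b (l 16683992) (l 16694648))) (b (c (l 16676032) (l 16673728)) (c (l 16685560) (l 16683128)))) (l 14)) (l 14)) (a (b (b (c (b (l 16658592) (l 16667000)) (b (l 16696304) (l 16683528))) (l 14)) (l 14)) (b (b (c (b (l 16640552) (l 16647664)) (b (l 16634352) (l 16641144))) (a (l 14) (b (l 16645200) (l 1)))) (l 1)))), by decide +kernel⟩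

def k4_B00pp_022_s1 : ∃ t, chk3 f_B00pp_022_s1 t 9 3 1 = true :=
  ⟨(b (b (b (l 6) (a (a (b (l 16582952) (l 16591384)) (b (l 6) (l 16566696))) (l 6))) (a (b (a (b (l 16610176) (l 16618136)) (b (l 16573904) (l 16601624))) (a (b (l 16604704) (l 16632608)) (a (l 16610200) (l 1)))) (a (b (b (l 16558032) (l 1)) (l 1)) (l 1)))) (b (a (a (b (b (l 16659768) (l 16623168)) (l 1)) (l 1)) (l 1)) (l 1))), by decide +kernel⟩

def k5_B00pp_022_s1 : ∃ t, chk3 f_B00pp_022_s1 t 5 1 1 = true :=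
  ⟨(b (l 6) (b (l 1) (l 1))), by decide +kernel⟩

def k6_B00pp_022_s1 : ∃ t, chk3 f_B00pp_022_s1 t 3 1 1 = true :=
  ⟨(l 1), by decide +kernel⟩

theorem t7_B00pp_022_s1 : ∃ t, chk3 f_B00pp_022_s1 t 8 6 1 = true := ex3_b k1_B00pp_022_s1 k2_B00pp_022_s1

theorem t8_B00pp_022_s1 : ∃ t, chk3 f_B00pp_022_s1 t 8 3 1 = true := ex3_b t7_B00pp_022_s1 k3_B00pp_022_s1

theorem t9_B00pp_022_s1 : ∃ t, chk3 f_B00pp_022_s1 t 4 3 1 = true := ex3_a t8_B00pp_022_s1 k4_B00pp_022_s1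

theorem t10_B00pp_022_s1 : ∃ t, chk3 f_B00pp_022_s1 t 4 1 1 = true := ex3_b k0_B00pp_022_s1 t9_B00pp_022_s1

theorem t11_B00pp_022_s1 : ∃ t, chk3 f_B00pp_022_s1 t 2 1 1 = true := ex3_a t10_B00pp_022_s1 k5_B00pp_022_s1

theorem t12_B00pp_022_s1 : ∃ t, chk3 f_B00pp_022_s1 t 1 1 1 = true := ex3_a t11_B00pp_022_s1 k6_B00pp_022_s1

theorem c_B00pp_022_s1 : CertF 0 536870912 0 536870912 649613803 48318383 false true true .pp 0 2 2
    ndB0q0 ndB0q2 pcB2 cut_B00pp_022_s1 Ext.none :=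
  certF2 (fam := false) (s1 := true) (s2 := true) (a := 0) (b := 2) (c := 2) (cn := .pp) (n1 := ndB0q0) (n2 := ndB0q2) (pc := pcB2) (cut := cut_B00pp_022_s1) (xt := Ext.none) (P1 := 0) (W1 := 536870912) (P2 := 0) (W2 := 536870912) (P3 := 649613803) (W3 := 48318383)
    rfl (fun _ => rfl) t12_B00pp_022_s1

theorem s_B00pp_022_s1 {κ x : ℝ} (hκ : κ * h0 = ken x) (hx : ((649613803 : ℕ) : ℝ) / S ≤ x)
    (hx' : x ≤ (((649613803 : ℕ) : ℝ) + (48318383 : ℕ)) / S)
    (H : CutB (VFD κ) PP tK tL pcB (Cut.of [[⟨0, 0, 0, 67108864⟩, ⟨1, 1, 0, 67108864⟩, ⟨2, 1, 0, 67108864⟩]]) 0 2 2 0 0 (sgb true) (sgb true) x) :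
    AltB (VFD κ) PP tK tL pcB [⟨3, 0, 0, 1449551462⟩] 0 2 2 0 0 (sgb true) (sgb true) x :=
  strip_altBD (m := 1449551462) true rfl hκ (SH.κ0 hκ (SH.hx1 hx).le (SH.hx2 hx').le) (SH.hx1 hx).le (SH.hx2 hx') (covB00).cov (covB02).cov hx hx' c_B00pp_022_s1 H (noExt_B)

noncomputable def cut_B00pp_022_s3 : Cut := Cut.of [[⟨3, 0, 0, 2845415833⟩], [⟨0, 0, 0, 67108864⟩, ⟨1, 1, 0, 67108864⟩, ⟨2, 1, 0, 67108864⟩]]

noncomputable def f_B00pp_022_s3 : ℕ → ℕ → ℕ → ℕ → Bool := onCell 0 536870912 0 536870912 649613803 48318383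
    (rowF 0 false true true .pp 0 2 2 (qsf 0 536870912 0 536870912 2) ndB0q0 ndB0q2 pcB2 cut_B00pp_022_s3 Ext.none)

def k0_B00pp_022_s3 : ∃ t, chk3 f_B00pp_022_s3 t 1 1 1 = true :=
  ⟨(l 6), by decide +kernel⟩

theorem c_B00pp_022_s3 : CertF 0 536870912 0 536870912 649613803 48318383 false true true .pp 0 2 2
    ndB0q0 ndB0q2 pcB2 cut_B00pp_022_s3 Ext.none :=
  certF0 (fam := false) (s1 := true) (s2 := true) (a := 0) (b := 2) (c := 2) (cn := .pp) (n1 := ndB0q0) (n2 := ndB0q2) (pc := pcB2) (cut := cut_B00pp_022_s3) (xt := Ext.none) (P1 := 0) (W1 := 536870912) (P2 := 0) (W2 := 536870912) (P3 := 649613803) (W3 := 48318383)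
    rfl k0_B00pp_022_s3

theorem s_B00pp_022_s3 {κ x : ℝ} (hκ : κ * h0 = ken x) (hx : ((649613803 : ℕ) : ℝ) / S ≤ x)
    (hx' : x ≤ (((649613803 : ℕ) : ℝ) + (48318383 : ℕ)) / S)
    (H : CutB (VFD κ) PP tK tL pcB (Cut.of [[⟨0, 0, 0, 67108864⟩, ⟨1, 1, 0, 67108864⟩, ⟨2, 1, 0, 67108864⟩]]) 0 2 2 0 0 (sgb true) (sgb true) x) :
    AltB (VFD κ) PP tK tL pcB [⟨4, 0, 0, 2845415833⟩] 0 2 2 0 0 (sgb true) (sgb true) x :=
  strip_altBD (m := 2845415833) false rfl hκ (SH.κ0 hκ (SH.hx1 hx).le (SH.hx2 hx').le) (SH.hx1 hx).le (SH.hx2 hx') (covB00).cov (covB02).cov hx hx' c_B00pp_022_s3 H (noExt_B)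

noncomputable def cut_B00pp_101_s1 : Cut := Cut.of [[⟨4, 0, 0, 1449551462⟩]]

noncomputable def f_B00pp_101_s1 : ℕ → ℕ → ℕ → ℕ → Bool := onCell 536870912 536870912 536870912 536870912 649613803 48318383
    (rowF 0 false true true .npn 1 0 1 (qsf 536870912 536870912 536870912 536870912 0) ndB0q1 ndB0q1 pcB0 cut_B00pp_101_s1 Ext.none)

def k0_B00pp_101_s1 : ∃ t, chk3 f_B00pp_101_s1 t 1 1 1 = true :=
  ⟨(l 3), by decide +kernel⟩

theorem c_B00pp_101_s1 : CertF 536870912 536870912 536870912 536870912 649613803 48318383 false true true .npn 1 0 1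
    ndB0q1 ndB0q1 pcB0 cut_B00pp_101_s1 Ext.none :=
  certF0 (fam := false) (s1 := true) (s2 := true) (a := 1) (b := 0) (c := 1) (cn := .npn) (n1 := ndB0q1) (n2 := ndB0q1) (pc := pcB0) (cut := cut_B00pp_101_s1) (xt := Ext.none) (P1 := 536870912) (W1 := 536870912) (P2 := 536870912) (W2 := 536870912) (P3 := 649613803) (W3 := 48318383)
    rfl k0_B00pp_101_s1

theorem s_B00pp_101_s1 {κ x : ℝ} (hκ : κ * h0 = ken x) (hx : ((649613803 : ℕ) : ℝ) / S ≤ x)
    (hx' : x ≤ (((649613803 : ℕ) : ℝ) + (48318383 : ℕ)) / S) :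
    AltB (VFD κ) PP tK tL pcB [⟨3, 0, 0, 1449551462⟩] 1 0 1 0 0 (sgb true) (sgb true) x :=
  strip_altBD (m := 1449551462) true rfl hκ (SH.κ0 hκ (SH.hx1 hx).le (SH.hx2 hx').le) (SH.hx1 hx).le (SH.hx2 hx') (covB01).cov (covB01).cov hx hx' c_B00pp_101_s1 cutB_nil (noExt_B)

noncomputable def cut_B00pp_101_s3 : Cut := Cut.of [[⟨3, 0, 0, 2845415833⟩]]

noncomputable def f_B00pp_101_s3 : ℕ → ℕ → ℕ → ℕ → Bool := onCell 536870912 536870912 536870912 536870912 649613803 48318383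
    (rowF 0 false true true .npn 1 0 1 (qsf 536870912 536870912 536870912 536870912 0) ndB0q1 ndB0q1 pcB0 cut_B00pp_101_s3 Ext.none)

def k0_B00pp_101_s3 : ∃ t, chk3 f_B00pp_101_s3 t 1 1 1 = true :=
  ⟨(l 3), by decide +kernel⟩

theorem c_B00pp_101_s3 : CertF 536870912 536870912 536870912 536870912 649613803 48318383 false true true .npn 1 0 1
    ndB0q1 ndB0q1 pcB0 cut_B00pp_101_s3 Ext.none :=
  certF0 (fam := false) (s1 := true) (s2 := true) (a := 1) (b := 0) (c := 1) (cn := .npn) (n1 := ndB0q1) (n2 := ndB0q1) (pc := pcB0) (cut := cut_B00pp_101_s3) (xt := Ext.none) (P1 := 536870912) (W1 := 536870912) (P2 := 536870912) (W2 := 536870912) (P3 := 649613803) (W3 := 48318383)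
    rfl k0_B00pp_101_s3

theorem s_B00pp_101_s3 {κ x : ℝ} (hκ : κ * h0 = ken x) (hx : ((649613803 : ℕ) : ℝ) / S ≤ x)
    (hx' : x ≤ (((649613803 : ℕ) : ℝ) + (48318383 : ℕ)) / S) :
    AltB (VFD κ) PP tK tL pcB [⟨4, 0, 0, 2845415833⟩] 1 0 1 0 0 (sgb true) (sgb true) x :=
  strip_altBD (m := 2845415833) false rfl hκ (SH.κ0 hκ (SH.hx1 hx).le (SH.hx2 hx').le) (SH.hx1 hx).le (SH.hx2 hx') (covB01).cov (covB01).cov hx hx' c_B00pp_101_s3 cutB_nil (noExt_B)

noncomputable def cut_B00pp_102_s1 : Cut := Cut.of [[⟨4, 0, 0, 1449551462⟩]]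

noncomputable def f_B00pp_102_s1 : ℕ → ℕ → ℕ → ℕ → Bool := onCell 0 536870912 0 536870912 649613803 48318383
    (rowF 2 false true true .npp 1 0 2 (qsf 536870912 536870912 0 536870912 0) ndB0q1 ndB0q2 pcB0 cut_B00pp_102_s1 Ext.none)

def k0_B00pp_102_s1 : ∃ t, chk3 f_B00pp_102_s1 t 1 1 1 = true :=
  ⟨(a (b (l 3) (l 3)) (l 3)), by decide +kernel⟩

theorem c_B00pp_102_s1 : CertF 536870912 536870912 0 536870912 649613803 48318383 false true true .npp 1 0 2
    ndB0q1 ndB0q2 pcB0 cut_B00pp_102_s1 Ext.none :=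
  certF2 (fam := false) (s1 := true) (s2 := true) (a := 1) (b := 0) (c := 2) (cn := .npp) (n1 := ndB0q1) (n2 := ndB0q2) (pc := pcB0) (cut := cut_B00pp_102_s1) (xt := Ext.none) (P1 := 536870912) (W1 := 536870912) (P2 := 0) (W2 := 536870912) (P3 := 649613803) (W3 := 48318383)
    rfl (fun _ => rfl) k0_B00pp_102_s1

theorem s_B00pp_102_s1 {κ x : ℝ} (hκ : κ * h0 = ken x) (hx : ((649613803 : ℕ) : ℝ) / S ≤ x)
    (hx' : x ≤ (((649613803 : ℕ) : ℝ) + (48318383 : ℕ)) / S) :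
    AltB (VFD κ) PP tK tL pcB [⟨3, 0, 0, 1449551462⟩] 1 0 2 0 0 (sgb true) (sgb true) x :=
  strip_altBD (m := 1449551462) true rfl hκ (SH.κ0 hκ (SH.hx1 hx).le (SH.hx2 hx').le) (SH.hx1 hx).le (SH.hx2 hx') (covB01).cov (covB02).cov hx hx' c_B00pp_102_s1 cutB_nil (noExt_B)

noncomputable def cut_B00pp_102_s3 : Cut := Cut.of [[⟨3, 0, 0, 2845415833⟩]]

noncomputable def f_B00pp_102_s3 : ℕ → ℕ → ℕ → ℕ → Bool := onCell 536870912 536870912 0 536870912 649613803 48318383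
    (rowF 0 false true true .npp 1 0 2 (qsf 536870912 536870912 0 536870912 0) ndB0q1 ndB0q2 pcB0 cut_B00pp_102_s3 Ext.none)

def k0_B00pp_102_s3 : ∃ t, chk3 f_B00pp_102_s3 t 1 1 1 = true :=
  ⟨(l 6), by decide +kernel⟩

theorem c_B00pp_102_s3 : CertF 536870912 536870912 0 536870912 649613803 48318383 false true true .npp 1 0 2
    ndB0q1 ndB0q2 pcB0 cut_B00pp_102_s3 Ext.none :=
  certF0 (fam := false) (s1 := true) (s2 := true) (a := 1) (b := 0) (c := 2) (cn := .npp) (n1 := ndB0q1) (n2 := ndB0q2) (pc := pcB0) (cut := cut_B00pp_102_s3) (xt := Ext.none) (P1 := 536870912) (W1 := 536870912) (P2 := 0) (W2 := 536870912) (P3 := 649613803) (W3 := 48318383)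
    rfl k0_B00pp_102_s3

theorem s_B00pp_102_s3 {κ x : ℝ} (hκ : κ * h0 = ken x) (hx : ((649613803 : ℕ) : ℝ) / S ≤ x)
    (hx' : x ≤ (((649613803 : ℕ) : ℝ) + (48318383 : ℕ)) / S) :
    AltB (VFD κ) PP tK tL pcB [⟨4, 0, 0, 2845415833⟩] 1 0 2 0 0 (sgb true) (sgb true) x :=
  strip_altBD (m := 2845415833) false rfl hκ (SH.κ0 hκ (SH.hx1 hx).le (SH.hx2 hx').le) (SH.hx1 hx).le (SH.hx2 hx') (covB01).cov (covB02).cov hx hx' c_B00pp_102_s3 cutB_nil (noExt_B)

noncomputable def cut_B00pp_112_s1 : Cut := Cut.of [[⟨4, 0, 0, 1449551462⟩]]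

noncomputable def xt_B00pp_112_s1 : Ext := strExt6 dd false true true .u0 .u2 .u0m .dn 1 1 2 rfl rfl gf1 vv ww ndB0q1 ndB0q2

noncomputable def f_B00pp_112_s1 : ℕ → ℕ → ℕ → ℕ → Bool := onCell 536870912 536870912 0 536870912 649613803 48318383
    (rowF 0 false true true .dn 1 1 2 (qsf 536870912 536870912 0 536870912 1) ndB0q1 ndB0q2 pcB1 cut_B00pp_112_s1 xt_B00pp_112_s1)

def k0_B00pp_112_s1 : ∃ t, chk3 f_B00pp_112_s1 t 1 1 1 = true :=
  ⟨(a (b (b (a (a (b (a (b (b (a (b (l 16729656) (l 16756440)) (a (b (l 16737616) (l 16743344)) (b (l 16753472) (l 16748824)))) (a (a (b (l 16738592) (l 16744248)) (b (l 16743768) (l 16749552))) (l 1068553743))) (a (l 1068600335) (l 1068480527))) (a (b (l 1068472847) (l 1068370959)) (b (l 1068892687) (l 3)))) (a (b (a (l 1068674063) (l 3)) (l 3)) (l 3))) (b (a (b (a (l 1068251151) (l 3)) (l 3)) (l 3)) (l 3))) (l 3)) (l 3)) (l 3)) (l 1)), by decide +kernel⟩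

theorem c_B00pp_112_s1 : CertF 536870912 536870912 0 536870912 649613803 48318383 false true true .dn 1 1 2
    ndB0q1 ndB0q2 pcB1 cut_B00pp_112_s1 xt_B00pp_112_s1 :=
  certF0 (fam := false) (s1 := true) (s2 := true) (a := 1) (b := 1) (c := 2) (cn := .dn) (n1 := ndB0q1) (n2 := ndB0q2) (pc := pcB1) (cut := cut_B00pp_112_s1) (xt := xt_B00pp_112_s1) (P1 := 536870912) (W1 := 536870912) (P2 := 0) (W2 := 536870912) (P3 := 649613803) (W3 := 48318383)
    rfl k0_B00pp_112_s1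

theorem s_B00pp_112_s1 {κ x : ℝ} (hκ : κ * h0 = ken x) (hx : ((649613803 : ℕ) : ℝ) / S ≤ x)
    (hx' : x ≤ (((649613803 : ℕ) : ℝ) + (48318383 : ℕ)) / S) :
    AltB (VFD κ) PP tK tL pcB [⟨3, 0, 0, 1449551462⟩] 1 1 2 0 0 (sgb true) (sgb true) x :=
  strip_altBD (m := 1449551462) true rfl hκ (SH.κ0 hκ (SH.hx1 hx).le (SH.hx2 hx').le) (SH.hx1 hx).le (SH.hx2 hx') (covB01).cov (covB02).cov hx hx' c_B00pp_112_s1 cutB_nil ((okx6 hx hx').extB (T := tt) (okx hx hx') (sideB hx hx') hκ rfl rfl (.O 1 true) (.O 2 true) (Or.inr rfl))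

noncomputable def cut_B00pp_112_s3 : Cut := Cut.of [[⟨3, 0, 0, 2845415833⟩]]

noncomputable def f_B00pp_112_s3 : ℕ → ℕ → ℕ → ℕ → Bool := onCell 536870912 536870912 0 536870912 649613803 48318383
    (rowF 0 false true true .dn 1 1 2 (qsf 536870912 536870912 0 536870912 1) ndB0q1 ndB0q2 pcB1 cut_B00pp_112_s3 Ext.none)

def k0_B00pp_112_s3 : ∃ t, chk3 f_B00pp_112_s3 t 1 1 1 = true :=
  ⟨(l 6), by decide +kernel⟩

theorem c_B00pp_112_s3 : CertF 536870912 536870912 0 536870912 649613803 48318383 false true true .dn 1 1 2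
    ndB0q1 ndB0q2 pcB1 cut_B00pp_112_s3 Ext.none :=
  certF0 (fam := false) (s1 := true) (s2 := true) (a := 1) (b := 1) (c := 2) (cn := .dn) (n1 := ndB0q1) (n2 := ndB0q2) (pc := pcB1) (cut := cut_B00pp_112_s3) (xt := Ext.none) (P1 := 536870912) (W1 := 536870912) (P2 := 0) (W2 := 536870912) (P3 := 649613803) (W3 := 48318383)
    rfl k0_B00pp_112_s3

theorem s_B00pp_112_s3 {κ x : ℝ} (hκ : κ * h0 = ken x) (hx : ((649613803 : ℕ) : ℝ) / S ≤ x)
    (hx' : x ≤ (((649613803 : ℕ) : ℝ) + (48318383 : ℕ)) / S) :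
    AltB (VFD κ) PP tK tL pcB [⟨4, 0, 0, 2845415833⟩] 1 1 2 0 0 (sgb true) (sgb true) x :=
  strip_altBD (m := 2845415833) false rfl hκ (SH.κ0 hκ (SH.hx1 hx).le (SH.hx2 hx').le) (SH.hx1 hx).le (SH.hx2 hx') (covB01).cov (covB02).cov hx hx' c_B00pp_112_s3 cutB_nil (noExt_B)

noncomputable def cut_B00pp_202_s1 : Cut := Cut.of [[⟨4, 0, 0, 1449551462⟩]]

noncomputable def f_B00pp_202_s1 : ℕ → ℕ → ℕ → ℕ → Bool := onCell 0 536870912 0 536870912 649613803 48318383
    (rowF 0 false true true .pp 2 0 2 (qsf 0 536870912 0 536870912 0) ndB0q2 ndB0q2 pcB0 cut_B00pp_202_s1 Ext.none)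

def k0_B00pp_202_s1 : ∃ t, chk3 f_B00pp_202_s1 t 1 1 1 = true :=
  ⟨(l 3), by decide +kernel⟩

theorem c_B00pp_202_s1 : CertF 0 536870912 0 536870912 649613803 48318383 false true true .pp 2 0 2
    ndB0q2 ndB0q2 pcB0 cut_B00pp_202_s1 Ext.none :=
  certF0 (fam := false) (s1 := true) (s2 := true) (a := 2) (b := 0) (c := 2) (cn := .pp) (n1 := ndB0q2) (n2 := ndB0q2) (pc := pcB0) (cut := cut_B00pp_202_s1) (xt := Ext.none) (P1 := 0) (W1 := 536870912) (P2 := 0) (W2 := 536870912) (P3 := 649613803) (W3 := 48318383)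
    rfl k0_B00pp_202_s1

theorem s_B00pp_202_s1 {κ x : ℝ} (hκ : κ * h0 = ken x) (hx : ((649613803 : ℕ) : ℝ) / S ≤ x)
    (hx' : x ≤ (((649613803 : ℕ) : ℝ) + (48318383 : ℕ)) / S) :
    AltB (VFD κ) PP tK tL pcB [⟨3, 0, 0, 1449551462⟩] 2 0 2 0 0 (sgb true) (sgb true) x :=
  strip_altBD (m := 1449551462) true rfl hκ (SH.κ0 hκ (SH.hx1 hx).le (SH.hx2 hx').le) (SH.hx1 hx).le (SH.hx2 hx') (covB02).cov (covB02).cov hx hx' c_B00pp_202_s1 cutB_nil (noExt_B)

noncomputable def cut_B00pp_202_s3 : Cut := Cut.of [[⟨3, 0, 0, 2845415833⟩]]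

noncomputable def f_B00pp_202_s3 : ℕ → ℕ → ℕ → ℕ → Bool := onCell 0 536870912 0 536870912 649613803 48318383
    (rowF 0 false true true .pp 2 0 2 (qsf 0 536870912 0 536870912 0) ndB0q2 ndB0q2 pcB0 cut_B00pp_202_s3 Ext.none)

def k0_B00pp_202_s3 : ∃ t, chk3 f_B00pp_202_s3 t 1 1 1 = true :=
  ⟨(l 3), by decide +kernel⟩

theorem c_B00pp_202_s3 : CertF 0 536870912 0 536870912 649613803 48318383 false true true .pp 2 0 2
    ndB0q2 ndB0q2 pcB0 cut_B00pp_202_s3 Ext.none :=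
  certF0 (fam := false) (s1 := true) (s2 := true) (a := 2) (b := 0) (c := 2) (cn := .pp) (n1 := ndB0q2) (n2 := ndB0q2) (pc := pcB0) (cut := cut_B00pp_202_s3) (xt := Ext.none) (P1 := 0) (W1 := 536870912) (P2 := 0) (W2 := 536870912) (P3 := 649613803) (W3 := 48318383)
    rfl k0_B00pp_202_s3

theorem s_B00pp_202_s3 {κ x : ℝ} (hκ : κ * h0 = ken x) (hx : ((649613803 : ℕ) : ℝ) / S ≤ x)
    (hx' : x ≤ (((649613803 : ℕ) : ℝ) + (48318383 : ℕ)) / S) :
    AltB (VFD κ) PP tK tL pcB [⟨4, 0, 0, 2845415833⟩] 2 0 2 0 0 (sgb true) (sgb true) x :=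
  strip_altBD (m := 2845415833) false rfl hκ (SH.κ0 hκ (SH.hx1 hx).le (SH.hx2 hx').le) (SH.hx1 hx).le (SH.hx2 hx') (covB02).cov (covB02).cov hx hx' c_B00pp_202_s3 cutB_nil (noExt_B)

noncomputable def cut_B00pm_001_s1 : Cut := Cut.of [[⟨4, 0, 0, 1449551462⟩]]

noncomputable def f_B00pm_001_s1 : ℕ → ℕ → ℕ → ℕ → Bool := onCell 0 536870912 536870912 536870912 649613803 48318383
    (rowF 0 false true false .up 0 0 1 (qsf 0 536870912 536870912 536870912 0) ndB0q0 ndB0q1 pcB0 cut_B00pm_001_s1 Ext.none)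

def k0_B00pm_001_s1 : ∃ t, chk3 f_B00pm_001_s1 t 1 1 1 = true :=
  ⟨(l 6), by decide +kernel⟩

theorem c_B00pm_001_s1 : CertF 0 536870912 536870912 536870912 649613803 48318383 false true false .up 0 0 1
    ndB0q0 ndB0q1 pcB0 cut_B00pm_001_s1 Ext.none :=
  certF0 (fam := false) (s1 := true) (s2 := false) (a := 0) (b := 0) (c := 1) (cn := .up) (n1 := ndB0q0) (n2 := ndB0q1) (pc := pcB0) (cut := cut_B00pm_001_s1) (xt := Ext.none) (P1 := 0) (W1 := 536870912) (P2 := 536870912) (W2 := 536870912) (P3 := 649613803) (W3 := 48318383)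
    rfl k0_B00pm_001_s1

theorem s_B00pm_001_s1 {κ x : ℝ} (hκ : κ * h0 = ken x) (hx : ((649613803 : ℕ) : ℝ) / S ≤ x)
    (hx' : x ≤ (((649613803 : ℕ) : ℝ) + (48318383 : ℕ)) / S) :
    AltB (VFD κ) PP tK tL pcB [⟨3, 0, 0, 1449551462⟩] 0 0 1 0 0 (sgb true) (sgb false) x :=
  strip_altBD (m := 1449551462) true rfl hκ (SH.κ0 hκ (SH.hx1 hx).le (SH.hx2 hx').le) (SH.hx1 hx).le (SH.hx2 hx') (covB00).cov (covB01).cov hx hx' c_B00pm_001_s1 cutB_nil (noExt_B)

noncomputable def cut_B00pm_001_s3 : Cut := Cut.of [[⟨3, 0, 0, 2845415833⟩]]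

noncomputable def xt_B00pm_001_s3 : Ext := strExt6 dd false true false .u0 .u0m .s0m .up 0 0 1 rfl rfl gl0 vv ww ndB0q0 ndB0q1

noncomputable def f_B00pm_001_s3 : ℕ → ℕ → ℕ → ℕ → Bool := onCell 0 536870912 536870912 536870912 649613803 48318383
    (rowF 0 false true false .up 0 0 1 (qsf 0 536870912 536870912 536870912 0) ndB0q0 ndB0q1 pcB0 cut_B00pm_001_s3 xt_B00pm_001_s3)

def k0_B00pm_001_s3 : ∃ t, chk3 f_B00pm_001_s3 t 2 1 1 = true :=
  ⟨(b (l 4) (b (b (l 4) (l 2)) (l 2))), by decide +kernel⟩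

def k1_B00pm_001_s3 : ∃ t, chk3 f_B00pm_001_s3 t 3 4 1 = true :=
  ⟨(l 4), by decide +kernel⟩

def k2_B00pm_001_s3 : ∃ t, chk3 f_B00pm_001_s3 t 6 5 1 = true :=
  ⟨(l 4), by decide +kernel⟩

def k3_B00pm_001_s3 : ∃ t, chk3 f_B00pm_001_s3 t 14 5 1 = true :=
  ⟨(b (l 4) (a (b (l 4) (b (a (l 4) (l 1070503951)) (a (l 1067702287) (l 1068497935)))) (b (a (l 4) (b (l 4) (l 1070556175))) (b (a (b (a (l 1069622287) (a (l 1069943311) (b (l 1070228495) (l 1070116367)))) (l 1069603343)) (b (a (b (l 1070379535) (l 1070317071)) (l 1070534671)) (a (a (l 1070107151) (l 1070235151)) (l 1070406159)))) (a (a (l 1069077007) (l 1069475343)) (a (l 1069867023) (b (l 1070227471) (l 16755352)))))))), by decide +kernel⟩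

def k4_B00pm_001_s3 : ∃ t, chk3 f_B00pm_001_s3 t 15 5 1 = true :=
  ⟨(b (b (a (l 4) (a (l 4) (a (l 4) (b (l 4) (a (l 1073620495) (l 1073758223)))))) (a (b (l 4) (a (l 4) (b (a (l 4) (b (l 4) (l 1071943183))) (a (a (l 4) (l 1071670287)) (c (l 1072258575) (l 1071451151)))))) (b (a (a (l 4) (b (l 4) (a (b (l 4) (c (l 1072803855) (l 1072069135))) (l 1072763407)))) (c (a (l 1073135631) (l 1073339407)) (a (l 1072528911) (l 1072855055)))) (a (a (b (b (a (l 4) (c (l 1072654351) (l 1071875599))) (a (l 1072154127) (l 1072298511))) (a (l 1072076815) (l 1072218639))) (b (a (b (c (l 1072759311) (l 1072021519)) (a (l 1072413199) (l 1072491023))) (b (l 1072670223) (l 1072609295))) (a (b (l 1072395279) (l 1072338959)) (l 1072521231)))) (b (b (a (l 1072917007) (l 1073259535)) (a (l 1072853007) (l 1073191439))) (a (b (l 1072790543) (l 1072728591)) (l 1073092111))))))) (b (a (a (b (b (b (l 4) (l 1071135247)) (l 1071077903)) (l 1070965775))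 (a (b (b (b (a (l 1071475215) (l 1071601167)) (a (l 1071431183) (l 1071555599))) (l 1071427599)) (l 1071299087)) (b (b (b (c (l 1072171023) (l 1071395855)) (l 1071748623)) (b (l 1071701007) (l 1071653391))) (l 1071538191)))) (a (b (a (b (b (l 1072069135) (l 1072017423)) (l 1071940623)) (b (a (l 1072256527) (l 1072405519)) (l 1072219663))) (a (b (l 1071838735) (l 1071738383)) (b (l 1072110095) (l 1072001551)))) (a (b (b (l 1072637455) (l 1072517647)) (a (l 1072268303) (l 1072415247))) (b (b (l 1072961039) (l 1072832527)) (l 1072644623))))) (a (b (a (b (l 1070846991) (l 1070723087)) (b (l 1071282191) (l 1071159823))) (a (b (l 1070561295) (l 1070387727)) (b (l 1071006223) (l 16748928)))) (a (b (b (l 1072167951) (l 1071637007)) (b (l 16753168) (l 16748144))) (b (b (c (l 1072552975) (l 1071939087)) (l 1072173071)) (b (l 16754912) (l 16750128))))))), by decide +kernel⟩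

def k5_B00pm_001_s3 : ∃ t, chk3 f_B00pm_001_s3 t 12 6 1 = true :=
  ⟨(b (b (l 4) (a (l 4) (a (l 4) (b (l 4) (b (l 4) (c (a (c (l 1063168527) (l 1063028751)) (a (c (l 1063145999) (l 1063019535)) (c (l 1063154703) (l 1063033871)))) (c (a (b (l 4) (l 2)) (a (b (l 4) (l 1062926351)) (b (l 1062874639) (l 1062940175)))) (a (b (l 4) (l 2)) (a (b (l 4) (l 1062781455)) (b (l 1062747663) (c (l 1062838287) (l 1063036431)))))))))))) (b (a (l 2) (b (a (l 2) (a (l 2) (a (l 2) (a (l 2) (b (l 1063135247) (l 2)))))) (l 2))) (l 2))), by decide +kernel⟩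

def k6_B00pm_001_s3 : ∃ t, chk3 f_B00pm_001_s3 t 13 6 1 = true :=
  ⟨(b (b (a (l 4) (b (a (l 4) (a (l 1067433999) (l 1066770447))) (a (l 1064832527) (a (l 1065743375) (l 1066275855))))) (a (a (b (a (l 4) (l 1063066127)) (c (a (b (l 1063027215) (l 1063139855)) (b (l 1063171599) (l 1063238159))) (a (b (c (l 1062871567) (b (l 1062746639) (l 1062776847))) (b (l 1062875151) (l 1062925327))) (b (c (l 1063015439) (a (l 1062865935) (l 1062948879))) (a (c (l 1063035919) (l 1062916111)) (l 1063040015)))))) (b (a (l 1063340559) (l 1063673871)) (b (l 1063388175) (a (c (l 1063388687) (l 1063157775)) (l 1063476239))))) (a (b (l 1064289807) (b (l 1064007183) (l 1063886863))) (b (a (l 1065015311) (l 1065557007)) (b (l 1064849423) (l 1064623119)))))) (a (b (a (b (a (a (b (b (l 1063105039) (l 1063185935)) (l 2)) (b (l 1063168527) (l 1063328271))) (b (c (l 1063348239) (l 1063092239)) (c (l 1063498767) (l 1063210511)))) (a (l 2) (a (l 2)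 (l 1063620623)))) (b (a (b (l 1063329807) (l 1063427599)) (c (l 1063637519) (l 1063380495))) (a (b (l 1063561231) (l 1063725583)) (b (l 1063635983) (l 16701440))))) (a (l 2) (a (l 2) (a (l 2) (b (l 55398172183) (l 2)))))) (b (b (a (a (l 1063692815) (l 1063927823)) (a (l 1064217615) (l 16703328))) (a (c (l 1064014351) (l 1063723023)) (b (l 16684648) (l 16649384)))) (b (a (a (b (l 16657592) (l 16645160)) (b (l 16648208) (l 16635544))) (b (l 16677472) (c (l 16624984) (l 16619632)))) (a (a (l 2) (b (l 16623856) (l 2))) (a (b (l 16614552) (l 35533857559)) (b (l 16606080) (l 16593440)))))))), by decide +kernel⟩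

def k7_B00pm_001_s3 : ∃ t, chk3 f_B00pm_001_s3 t 6 7 1 = true :=
  ⟨(b (a (l 2) (b (a (l 2) (a (l 2) (b (c (l 56471795271) (l 16617344)) (l 2)))) (l 2))) (l 2)), by decide +kernel⟩

def k8_B00pm_001_s3 : ∃ t, chk3 f_B00pm_001_s3 t 7 6 1 = true :=
  ⟨(a (b (b (a (b (a (a (l 1067120655) (l 1067491343)) (l 1068092943)) (a (a (l 1066737679) (l 1067144207)) (l 1067686927))) (a (b (l 1068886031) (l 1068476431)) (b (a (l 1069441551) (l 16766600)) (b (l 16735864) (l 16727784))))) (a (a (b (a (l 1066083855) (l 1066613775)) (b (l 16726552) (l 16717616))) (b (a (l 1067082767) (l 16742016)) (b (l 1066872847) (l 16690880)))) (b (a (l 16716752) (l 16755808)) (a (b (l 16701224) (l 16731344)) (l 16693088))))) (a (b (a (b (a (l 16676752) (l 16672360)) (b (l 16651680) (l 16636616))) (b (l 16710200) (b (l 16644712) (l 16628784)))) (b (a (b (l 16621864) (l 16607928)) (b (l 16612976) (l 16597680))) (a (b (l 16615072) (l 16581208)) (l 16618176))))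 (b (a (b (b (l 16675848) (l 16660384)) (l 16635720)) (b (b (l 16676584) (l 16663952)) (b (l 16649256) (l 16632728)))) (b (a (b (l 16610776) (l 16594104)) (b (l 16614464) (l 16597928))) (a (l 16571368) (l 16573128)))))) (b (b (a (b (a (c (l 16765760) (l 16761168)) (b (l 16743144) (l 16736784))) (a (l 16728336) (l 16726088))) (b (a (l 16749896) (l 16741680)) (a (l 16725848) (l 16728280)))) (a (a (b (l 16711912) (l 16692392)) (b (l 16710192) (l 16692320))) (b (a (l 16709992) (l 16712432)) (l 16713968)))) (b (a (b (a (l 16670144) (l 16671584)) (a (b (l 16653408) (a (l 16638728) (l 16641112))) (l 16689104))) (b (a (l 16716088) (l 16674960)) (a (l 16650768) (l 16654752)))) (a (b (a (b (l 16624144) (l 16606560)) (b (l 16630344) (a (l 16615592) (l 6)))) (a (l 16580152) (l 6))) (b (a (l 16626736) (l 6)) (l 6)))))), by decide +kernel⟩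

def k9_B00pm_001_s3 : ∃ t, chk3 f_B00pm_001_s3 t 7 7 1 = true :=
  ⟨(b (a (b (b (a (a (c (l 16566016) (l 16557840)) (l 16590928)) (a (l 16542112) (l 16541576))) (a (a (l 16579176) (l 16523072)) (l 6))) (a (a (l 2) (l 6)) (l 6))) (l 6)) (l 6)), by decide +kernel⟩

theorem t10_B00pm_001_s3 : ∃ t, chk3 f_B00pm_001_s3 t 7 3 1 = true := ex3_b k8_B00pm_001_s3 k9_B00pm_001_s3

theorem t11_B00pm_001_s3 : ∃ t, chk3 f_B00pm_001_s3 t 6 6 1 = true := ex3_a k5_B00pm_001_s3 k6_B00pm_001_s3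

theorem t12_B00pm_001_s3 : ∃ t, chk3 f_B00pm_001_s3 t 6 3 1 = true := ex3_b t11_B00pm_001_s3 k7_B00pm_001_s3

theorem t13_B00pm_001_s3 : ∃ t, chk3 f_B00pm_001_s3 t 3 3 1 = true := ex3_a t12_B00pm_001_s3 t10_B00pm_001_s3

theorem t14_B00pm_001_s3 : ∃ t, chk3 f_B00pm_001_s3 t 7 5 1 = true := ex3_a k3_B00pm_001_s3 k4_B00pm_001_s3

theorem t15_B00pm_001_s3 : ∃ t, chk3 f_B00pm_001_s3 t 3 5 1 = true := ex3_a k2_B00pm_001_s3 t14_B00pm_001_s3

theorem t16_B00pm_001_s3 : ∃ t, chk3 f_B00pm_001_s3 t 3 2 1 = true := ex3_b k1_B00pm_001_s3 t15_B00pm_001_s3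

theorem t17_B00pm_001_s3 : ∃ t, chk3 f_B00pm_001_s3 t 3 1 1 = true := ex3_b t16_B00pm_001_s3 t13_B00pm_001_s3

theorem t18_B00pm_001_s3 : ∃ t, chk3 f_B00pm_001_s3 t 1 1 1 = true := ex3_a k0_B00pm_001_s3 t17_B00pm_001_s3

theorem c_B00pm_001_s3 : CertF 0 536870912 536870912 536870912 649613803 48318383 false true false .up 0 0 1
    ndB0q0 ndB0q1 pcB0 cut_B00pm_001_s3 xt_B00pm_001_s3 :=
  certF0 (fam := false) (s1 := true) (s2 := false) (a := 0) (b := 0) (c := 1) (cn := .up) (n1 := ndB0q0) (n2 := ndB0q1) (pc := pcB0) (cut := cut_B00pm_001_s3) (xt := xt_B00pm_001_s3) (P1 := 0) (W1 := 536870912) (P2 := 536870912) (W2 := 536870912) (P3 := 649613803) (W3 := 48318383)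
    rfl t18_B00pm_001_s3

theorem s_B00pm_001_s3 {κ x : ℝ} (hκ : κ * h0 = ken x) (hx : ((649613803 : ℕ) : ℝ) / S ≤ x)
    (hx' : x ≤ (((649613803 : ℕ) : ℝ) + (48318383 : ℕ)) / S) :
    AltB (VFD κ) PP tK tL pcB [⟨4, 0, 0, 2845415833⟩] 0 0 1 0 0 (sgb true) (sgb false) x :=
  strip_altBD (m := 2845415833) false rfl hκ (SH.κ0 hκ (SH.hx1 hx).le (SH.hx2 hx').le) (SH.hx1 hx).le (SH.hx2 hx') (covB00).cov (covB01).cov hx hx' c_B00pm_001_s3 cutB_nil ((okx6 hx hx').extB (T := tt) (okx hx hx') (sideB hx hx') hκ rfl rfl (.O 0 true) (.O 1 false) (Or.inl rfl))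

noncomputable def cut_B00pm_011_s1 : Cut := Cut.of [[⟨4, 0, 0, 1449551462⟩], [⟨0, 0, 0, 53687091⟩, ⟨1, 1, 0, 53687091⟩, ⟨2, 1, 0, 53687091⟩]]

noncomputable def f_B00pm_011_s1 : ℕ → ℕ → ℕ → ℕ → Bool := onCell 0 536870912 536870912 536870912 649613803 48318383
    (rowF 0 false true false .pnn 0 1 1 (qsf 0 536870912 536870912 536870912 1) ndB0q0 ndB0q1 pcB1 cut_B00pm_011_s1 Ext.none)

def k0_B00pm_011_s1 : ∃ t, chk3 f_B00pm_011_s1 t 1 1 1 = true :=
  ⟨(l 6), by decide +kernel⟩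

theorem c_B00pm_011_s1 : CertF 0 536870912 536870912 536870912 649613803 48318383 false true false .pnn 0 1 1
    ndB0q0 ndB0q1 pcB1 cut_B00pm_011_s1 Ext.none :=
  certF0 (fam := false) (s1 := true) (s2 := false) (a := 0) (b := 1) (c := 1) (cn := .pnn) (n1 := ndB0q0) (n2 := ndB0q1) (pc := pcB1) (cut := cut_B00pm_011_s1) (xt := Ext.none) (P1 := 0) (W1 := 536870912) (P2 := 536870912) (W2 := 536870912) (P3 := 649613803) (W3 := 48318383)
    rfl k0_B00pm_011_s1

theorem s_B00pm_011_s1 {κ x : ℝ} (hκ : κ * h0 = ken x) (hx : ((649613803 : ℕ) : ℝ) / S ≤ x)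
    (hx' : x ≤ (((649613803 : ℕ) : ℝ) + (48318383 : ℕ)) / S)
    (H : CutB (VFD κ) PP tK tL pcB (Cut.of [[⟨0, 0, 0, 53687091⟩, ⟨1, 1, 0, 53687091⟩, ⟨2, 1, 0, 53687091⟩]]) 0 1 1 0 0 (sgb true) (sgb false) x) :
    AltB (VFD κ) PP tK tL pcB [⟨3, 0, 0, 1449551462⟩] 0 1 1 0 0 (sgb true) (sgb false) x :=
  strip_altBD (m := 1449551462) true rfl hκ (SH.κ0 hκ (SH.hx1 hx).le (SH.hx2 hx').le) (SH.hx1 hx).le (SH.hx2 hx') (covB00).cov (covB01).cov hx hx' c_B00pm_011_s1 H (noExt_B)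

noncomputable def cut_B00pm_011_s3 : Cut := Cut.of [[⟨3, 0, 0, 2845415833⟩], [⟨0, 0, 0, 53687091⟩, ⟨1, 1, 0, 53687091⟩, ⟨2, 1, 0, 53687091⟩]]

noncomputable def xt_B00pm_011_s3 : Ext := strExt6 dd false true false .u0 .u0m .s0m .pnn 0 1 1 rfl rfl gl1 vv ww ndB0q0 ndB0q1

noncomputable def f_B00pm_011_s3 : ℕ → ℕ → ℕ → ℕ → Bool := onCell 0 536870912 536870912 536870912 649613803 48318383
    (rowF 0 false true false .pnn 0 1 1 (qsf 0 536870912 536870912 536870912 1) ndB0q0 ndB0q1 pcB1 cut_B00pm_011_s3 xt_B00pm_011_s3)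

def k0_B00pm_011_s3 : ∃ t, chk3 f_B00pm_011_s3 t 1 2 1 = true :=
  ⟨(a (l 4) (b (l 1) (a (l 4) (l 1)))), by decide +kernel⟩

def k1_B00pm_011_s3 : ∃ t, chk3 f_B00pm_011_s3 t 2 6 1 = true :=
  ⟨(b (l 4) (b (l 4) (a (l 4) (a (l 4) (a (a (l 4) (a (l 4) (b (l 4) (l 1062754319)))) (a (b (l 4) (l 1062714383)) (b (b (a (l 4) (a (l 4) (l 1062058511))) (l 1062320143)) (a (l 1062654479) (l 1062598671))))))))), by decide +kernel⟩

def k2_B00pm_011_s3 : ∃ t, chk3 f_B00pm_011_s3 t 4 14 1 = true :=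
  ⟨(b (l 4) (a (l 4) (a (l 4) (a (l 4) (b (l 4) (b (l 4) (c (a (a (l 4) (l 1064617999)) (a (l 1064075279) (l 1064073231))) (a (l 1064311311) (l 1063739407))))))))), by decide +kernel⟩

def k3_B00pm_011_s3 : ∃ t, chk3 f_B00pm_011_s3 t 8 30 1 = true :=
  ⟨(b (l 4) (a (l 4) (a (l 4) (a (l 4) (a (l 4) (b (l 4) (b (l 4) (a (l 1063692815) (l 1063725071))))))))), by decide +kernel⟩

def k4_B00pm_011_s3 : ∃ t, chk3 f_B00pm_011_s3 t 18 30 1 = true :=
  ⟨(b (b (l 4) (b (l 4) (a (l 4) (a (l 4) (a (a (l 4) (l 1064558607)) (a (l 1064048143) (l 1064074255))))))) (b (b (a (l 4) (a (a (a (l 4) (l 1063946255)) (a (l 1063974927) (l 1064003087))) (a (c (l 1064761871) (l 1063835151)) (c (l 1064271375) (l 1063896591))))) (a (a (l 4) (a (a (l 4) (l 1063859215)) (a (l 1063889423) (b (l 1063911951) (l 1063927311))))) (b (a (a (a (l 1063941647) (l 1063970831)) (l 1064549391)) (a (l 1064069135) (l 1064124431))) (a (a (a (l 1063957007) (l 1063986703))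 (c (l 1064224271) (l 1063807503))) (a (l 1064086031) (l 1064141839)))))) (b (a (a (a (l 4) (c (l 1064034319) (l 1063553039))) (a (a (l 1063856655) (l 1063887887)) (a (l 1063919119) (l 1063949327)))) (a (a (a (b (l 1063972367) (l 1063987727)) (b (l 1064002575) (l 1064017935))) (a (a (l 1064032783) (l 1064047631)) (l 1064874511))) (a (a (l 1064634895) (l 1064663567)) (a (l 1064692239) (l 1064183311))))) (a (a (c (a (a (l 1063993871) (l 1064026127)) (a (l 1064055823) (l 1064084495))) (a (a (l 1063485455) (l 1063525903)) (a (l 1063562255) (l 1063598095)))) (a (c (a (l 1064113679) (l 1064141839)) (a (l 1063633935) (l 1063669263))) (a (l 1063948815) (l 1063979535)))) (a (a (a (l 1064413199) (b (l 1064033295) (l 1064049679))) (a (b (l 1064063503) (l 1064080399)) (c (l 1064303119) (l 1063873551)))) (a (c (a (l 1064329231) (l 1064354831)) (b (l 1063915023) (l 1063930383))) (b (c (l 1064381967) (l 1063980559)) (b (l 1064744463) (a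 (c (l 16744320) (l 16740136)) (a (b (l 16739808) (b (l 16739008) (l 16743720))) (b (c (l 16742056) (l 16737808)) (l 16737616)))))))))))), by decide +kernel⟩

def k5_B00pm_011_s3 : ∃ t, chk3 f_B00pm_011_s3 t 19 60 1 = true :=
  ⟨(b (a (a (l 4) (a (a (l 1064625679) (l 1064110095)) (b (l 1064649743) (l 1064163855)))) (b (a (a (l 1064654351) (l 1064095759)) (c (l 1064204815) (l 1063901199))) (a (a (l 1064200207) (l 1064205327)) (c (l 1064300559) (l 1064015887))))) (a (a (a (c (a (l 1064777743) (l 1064261647)) (l 1064442383)) (c (a (l 1064282127) (l 1064302095)) (l 1063962127))) (a (b (l 1064165391) (l 1064744975)) (a (l 1064758287) (l 1064243727)))) (a (c (a (l 1064401935) (l 1064970255)) (a (l 1064122383) (l 1064168975))) (a (b (l 1064293903) (l 1064377359)) (a (l 1064869391) (l 1064323087)))))), by decide +kernel⟩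

def k6_B00pm_011_s3 : ∃ t, chk3 f_B00pm_011_s3 t 38 61 1 = true :=
  ⟨(b (a (a (a (b (l 1064137743) (l 1064175119)) (b (l 1064163343) (l 1064201743))) (c (b (l 1064359439) (l 1064403471)) (l 1064569359))) (a (b (l 1064786959) (l 1064827407)) (b (l 1064297487) (l 1064339983)))) (b (a (a (c (l 1064399887) (l 1064021007)) (c (l 1064446479) (l 1064082959))) (b (a (l 1064320527) (a (l 1064359439) (a (l 16734984) (b (l 16734896) (a (l 16733112) (l 16737800)))))) (b (a (l 1064335375) (a (b (l 16734064) (a (l 16733592) (l 16732480))) (c (l 16737312) (l 16730456)))) (a (a (a (l 16736496) (b (l 16735904) (l 16740096))) (a (b (l 16734776) (l 16733744)) (b (l 16738912) (l 16732600)))) (c (l 16731096) (l 16729400)))))) (a (b (b (a (l 1064246287) (a (l 16738320) (b (l 16736600) (a (l 16741352) (a (l 16735272) (l 16734720)))))) (a (a (l 16743328) (a (l 16739016) (b (l 16738424) (l 16742600)))) (a (a (b (l 16737304) (b (l 16736512) (l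 16735984))) (b (a (l 16736456) (l 16741144)) (l 16735112))) (c (l 16739984) (l 16733056))))) (a (a (a (b (c (l 16739888) (l 16738296)) (c (b (b (l 16738592) (l 16738064)) (l 16737264)) (l 16741376))) (b (b (l 16738560) (b (l 16743000) (l 16737232))) (l 16735864))) (b (b (a (c (l 16740808) (l 16736560)) (a (l 16736592) (l 16736024))) (l 16735792)) (l 16734160))) (c (l 16737928) (l 16730864)))) (a (b (a (b (a (b (a (l 16735200) (l 16734648)) (l 16733856)) (l 16733272)) (l 16731672)) (l 16735728)) (l 16732560)) (b (l 16732344) (l 16722824)))))), by decide +kernel⟩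

def k7_B00pm_011_s3 : ∃ t, chk3 f_B00pm_011_s3 t 39 61 1 = true :=
  ⟨(b (a (a (c (l 1064502799) (l 1064202255)) (b (l 1064388111) (b (l 1064422415) (a (a (l 16737648) (b (l 16732320) (l 16730272))) (b (l 16730648) (a (l 16729176) (l 16728056))))))) (a (a (b (l 1064420879) (b (l 16731464) (c (b (l 16729096) (l 16727064)) (l 16737072)))) (b (l 1064441359) (b (b (l 16730256) (l 16733480)) (l 16725152)))) (b (l 1064466959) (b (a (b (l 16728032) (l 16726024)) (b (l 16725824) (l 16723760))) (l 16721768))))) (a (a (b (b (a (b (l 16733232) (a (b (l 16732240) (l 16731216)) (l 16730616))) (b (a (l 16736800) (l 16735696)) (l 16728912))) (l 16732096)) (c (l 16731928) (l 16719376))) (b (b (c (l 16732592) (l 16725712)) (l 16722360)) (l 16726512))) (b (c (c (l 16729480) (l 16728688)) (l 16727224)) (c (l 16720944) (l 16708160))))), by decide +kernel⟩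

def k8_B00pm_011_s3 : ∃ t, chk3 f_B00pm_011_s3 t 16 62 1 = true :=
  ⟨(b (l 4) (b (l 4) (b (l 4) (l 14)))), by decide +kernel⟩

def k9_B00pm_011_s3 : ∃ t, chk3 f_B00pm_011_s3 t 34 62 1 = true :=
  ⟨(b (a (l 4) (a (l 4) (a (l 4) (b (l 4) (a (l 1063572495) (l 1063584271)))))) (b (a (a (l 4) (a (l 4) (a (l 1063535119) (l 1063544335)))) (a (c (a (l 1063832591) (l 1063851535)) (a (l 1063255055) (l 1063276559))) (c (a (l 1063871503) (l 1063892495)) (a (l 1063299599) (l 1063323663))))) (a (a (c (a (l 1063823375) (l 1063836175)) (a (l 1063237135) (l 1063251471))) (c (a (l 1063850511) (l 1063865871)) (a (l 1063267343) (l 1063284239)))) (a (c (a (l 1063882255) (l 1063900175)) (a (l 1063302671) (l 1063322639))) (a (c (l 1063918607) (l 1063344143)) (a (l 1063661583) (b (l 1063662095) (b (l 16763368) (a (l 16761328) (b (l 16758688) (l 16757504))))))))))), by decide +kernel⟩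

def k10_B00pm_011_s3 : ∃ t, chk3 f_B00pm_011_s3 t 35 124 1 = true :=
  ⟨(a (b (a (l 4) (a (l 1063612943) (l 1063641615))) (c (a (a (l 1063869455) (l 1063893519)) (a (l 1063918095) (l 1063943183))) (a (a (l 1063307791) (l 1063335951)) (a (l 1063364623) (l 1063394831))))) (c (a (a (l 1063946767) (l 1064510479)) (a (l 1064538127) (l 1064566287))) (b (a (a (l 1063388687) (l 1063421967)) (a (l 1063455759) (l 1063490063))) (a (a (l 1063425551) (l 1063457807)) (a (l 1063490575) (l 1063523855)))))), by decide +kernel⟩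

def k11_B00pm_011_s3 : ∃ t, chk3 f_B00pm_011_s3 t 35 250 1 = true :=
  ⟨(a (c (a (a (l 1063914511) (l 1063937039)) (a (l 1063960591) (l 1063985167))) (a (a (l 1063349263) (l 1063375887)) (a (l 1063403535) (l 1063432207)))) (b (a (a (l 1063739919) (l 1063768079)) (a (l 1063797775) (l 1063827471))) (b (a (a (l 1063754255) (l 1063782415)) (a (l 1063811087) (a (b (l 16752512) (a (l 16751656) (a (l 16751216) (l 16750928)))) (c (b (l 16751976) (l 16750888)) (b (l 16753200) (l 16749440)))))) (b (a (c (l 16756152) (l 1063485455)) (a (a (c (l 16753224) (l 16751880)) (a (a (l 16751848) (l 16751560)) (l 16751128))) (l 16749632))) (a (a (l 16755632) (a (l 16753840) (a (l 16752928) (a (l 16752488) (l 16752200))))) (a (a (b (l 16751744) (l 16751160)) (l 16750256)) (l 16748480))))))), by decide +kernel⟩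

def k12_B00pm_011_s3 : ∃ t, chk3 f_B00pm_011_s3 t 35 251 1 = true :=
  ⟨(a (b (b (a (a (l 1063672335) (l 1063696399)) (a (l 1063720975) (l 1063746575))) (b (a (a (l 1063680527) (l 1063704079)) (a (l 16756984) (a (l 16757784) (b (l 16754248) (l 16753696))))) (a (a (l 1063686159) (l 16758240)) (c (a (l 16756376) (l 16754064)) (b (a (l 16755496) (a (l 16753640) (l 16752400))) (a (a (l 16755520) (l 16754272)) (l 16752424))))))) (a (b (a (l 1063693839) (b (c (l 16757608) (l 16759088)) (a (c (l 16757064) (l 16758512)) (b (l 16755600) (l 16755024))))) (b (b (a (a (l 16758072) (l 16756840)) (l 16757672)) (a (a (l 16757480) (l 16756280)) (l 16754448))) (a (a (b (l 16756896) (l 16756320)) (l 16755392)) (l 16753568)))) (c (a (b (b (c (l 16755552) (l 16760224)) (l 16754120)) (l 16752408)) (l 16751200)) (b (a (a (b (a (l 16754920) (l 16754320)) (l 16753424)) (l 16752800)) (l 16750928)) (l 16752384))))) (b (a (a (b (b (c (l 16755064)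 (c (l 16754144) (l 16756072))) (a (a (l 16754216) (a (l 16753768) (l 16753472))) (b (l 16755648) (l 16752440)))) (c (l 16752272) (l 16750872))) (b (a (b (b (a (l 16753272) (l 16752672)) (l 16752408)) (l 16751528)) (l 16750920)) (l 16749192))) (c (l 16750184) (a (l 16747152) (l 16744720)))) (a (c (l 16750312) (a (l 16747272) (l 16744832))) (c (l 16743048) (c (l 16741688) (l 16740680)))))), by decide +kernel⟩

def k13_B00pm_011_s3 : ∃ t, chk3 f_B00pm_011_s3 t 16 63 1 = true :=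
  ⟨(l 14), by decide +kernel⟩

def k14_B00pm_011_s3 : ∃ t, chk3 f_B00pm_011_s3 t 34 126 1 = true :=
  ⟨(b (a (a (a (l 14) (b (l 1063599119) (l 14))) (b (a (l 1063612431) (l 1063627279)) (a (b (l 1063632911) (l 14)) (a (a (b (l 16762672) (b (l 16760896) (l 14))) (b (c (l 16762456) (l 16764192)) (l 16759680))) (b (b (l 16761728) (a (l 16760840) (l 16760240))) (l 16758744)))))) (b (b (c (a (l 1063916047) (a (a (l 16760184) (a (l 16759288) (l 16763952))) (b (l 16763048) (l 16756648)))) (a (a (l 1063334415) (l 16763712)) (b (a (l 16759168) (a (a (l 16757592) (l 16756984)) (l 16756064))) (a (a (l 16758576) (a (l 16757648) (l 16757040))) (l 16755456))))) (b (a (a (l 16764864) (a (l 16760408) (a (l 16759472) (l 16761496)))) (a (a (l 16757976) (l 16756728)) (l 16754896))) (a (c (a (l 16761488) (l 16764376)) (b (a (l 16760880) (a (l 16758984) (l 16757728))) (a (l 16762872) (l 16757768)))) (c (l 16755528) (l 16754280))))) (b (a (a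 (a (b (a (l 16760792) (l 16760184)) (l 16759312)) (b (l 16761904) (l 16758072))) (l 16756824)) (c (l 16753792) (l 16755072))) (a (a (l 16756888) (l 16754432)) (a (l 16751992) (l 16749560)))))) (a (a (l 14) (a (l 14) (b (b (l 16756952) (l 14)) (l 14)))) (b (b (c (a (l 16753904) (l 16749144)) (a (l 16752568) (l 16747560))) (a (c (l 16751568) (l 16750104)) (c (l 16746816) (l 16745104)))) (a (a (b (l 16749680) (l 14)) (b (l 16747240) (a (l 16745432) (l 16744224)))) (a (b (a (l 16745416) (l 16744192)) (l 16742416)) (b (a (l 16742984) (l 16741784)) (l 16739976))))))), by decide +kernel⟩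

def k15_B00pm_011_s3 : ∃ t, chk3 f_B00pm_011_s3 t 35 126 1 = true :=
  ⟨(b (a (a (a (c (b (l 16753696) (l 16749080)) (b (l 16754968) (l 16747496))) (c (b (l 16751328) (l 16746728)) (b (l 16749864) (l 16745016)))) (c (b (l 16750424) (l 16743216)) (b (c (l 16746600) (l 16748328)) (c (l 16741832) (l 16740816))))) (b (a (c (l 16743144) (c (l 16741768) (l 16740752))) (a (l 16741320) (l 16736352))) (a (a (l 16741368) (l 16736392)) (b (l 16734040) (c (l 16732840) (b (l 16731040) (l 16729872))))))) (b (b (a (a (c (l 16744432) (l 16742608)) (a (l 16739968) (l 16737568))) (a (a (a (l 16735800) (l 16734632)) (l 16732880)) (l 16729360))) (a (a (a (l 16742376) (a (l 16740560) (l 16739368))) (c (l 16737464) (b (l 16741120) (l 16734672)))) (c (l 16730520) (l 16733264)))) (a (a (a (a (b (l 16740592) (l 16738168)) (l 16743448)) (l 16736392)) (c (l 16733936) (l 16731592))) (a (a (l 16729264) (l 16726920)) (l 16723432))))), by decide +kernel⟩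

def k16_B00pm_011_s3 : ∃ t, chk3 f_B00pm_011_s3 t 17 127 1 = true :=
  ⟨(a (a (l 14) (b (b (a (a (l 14) (l 16741160)) (c (l 16738544) (l 16736440))) (a (l 14) (b (l 16733864) (a (l 14) (l 16730192))))) (b (a (l 14) (l 16732944)) (l 14)))) (b (b (a (a (c (l 16733864) (l 16731528)) (c (l 16729224) (l 16726672))) (a (l 16723304) (l 16718672))) (a (a (b (l 16729088) (c (l 16727896) (l 16725296))) (b (l 16724360) (l 16721952))) (b (a (l 16719672) (l 16715080)) (l 16714944)))) (a (b (l 16725808) (l 16726080)) (b (l 16711280) (l 16706360))))), by decide +kernel⟩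

def k17_B00pm_011_s3 : ∃ t, chk3 f_B00pm_011_s3 t 36 124 1 = true :=
  ⟨(b (a (a (a (l 1063795215) (a (l 1063820303) (l 1063837199))) (a (a (l 1063853071) (l 1063868943)) (a (l 1063884815) (l 1063900175)))) (a (c (a (l 1064153103) (l 1064180751)) (a (l 1063666191) (l 1063700495))) (c (a (l 1064208399) (l 1064236047)) (a (l 1063735311) (l 1063769615))))) (a (c (a (a (l 1064078863) (l 1064107535)) (a (l 1064136719) (b (l 1064155663) (b (l 16751608) (a (l 16749992) (b (l 16749400) (l 16748312))))))) (a (a (l 1063558671) (l 1063593999)) (a (l 1063629327) (b (l 1063656975) (b (l 16750264) (a (l 16751168) (b (l 16747944) (a (l 16747080) (l 16746504))))))))) (b (a (a (l 1063950351) (l 1063981583)) (b (a (l 1064008207) (a (l 16746696) (a (l 16745824) (b (l 16745800) (l 16744696))))) (a (a (c (l 16747496) (b (l 16746576) (l 16745416))) (b (l 16746192) (c (l 16745840) (b (l 16744536) (l 16743976))))) (b (a (b (l 16745312) (l 16744768))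 (l 16743896)) (l 16743344))))) (a (b (a (a (l 16749216) (a (l 16748344) (b (l 16748320) (l 16747200)))) (a (b (l 16747448) (b (l 16746608) (l 16746064))) (b (c (l 16747016) (b (l 16745760) (l 16745192))) (l 16745176)))) (a (a (b (a (l 16747824) (a (l 16747392) (l 16747104))) (l 16746432)) (b (b (l 16746664) (l 16746096)) (l 16745248))) (l 16744064))) (c (a (b (b (l 16745328) (l 16744216)) (l 16742568)) (l 16741392)) (b (a (b (b (l 16746624) (l 16743408)) (l 16742544)) (l 16740752)) (l 16739640))))))), by decide +kernel⟩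

def k18_B00pm_011_s3 : ∃ t, chk3 f_B00pm_011_s3 t 37 124 1 = true :=
  ⟨(a (b (b (a (a (l 1064037391) (l 1064068111)) (a (l 1064098831) (l 1064129039))) (a (a (l 1064056335) (b (l 1064082447) (b (c (l 16744984) (l 16743424)) (c (a (l 16744480) (l 16743368)) (a (l 16742888) (l 16744360)))))) (b (a (b (l 16744144) (a (l 16743632) (b (l 16742760) (l 16744840)))) (a (b (c (l 16743176) (l 16741576)) (c (l 16742128) (l 16745728))) (b (b (l 16746808) (l 16741032)) (l 16740192)))) (a (a (b (a (l 16745440) (l 16744880)) (l 16741440)) (l 16746088)) (l 16739112))))) (b (a (b (a (a (b (l 16744936) (b (l 16744112) (l 16743568))) (b (b (l 16744056) (l 16743520)) (l 16742680))) (c (l 16742312) (l 16745872))) (c (l 16741264) (l 16739504))) (c (a (l 16738952) (l 16736696)) (l 16741192))) (a (c (l 16743240) (l 16741320)) (c (l 16733488) (l 16731408))))) (b (b (a (a (b (l 1064154127) (a (b (l 16742320) (b (l 16741504) (a (l 16741248) (l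 16740688)))) (b (c (l 16741928) (l 16740320)) (b (l 16745624) (l 16739824))))) (b (a (l 16741664) (b (l 16741064) (b (l 16740256) (a (l 16740008) (l 16739440))))) (a (b (a (b (l 16740600) (l 16740064)) (l 16745016)) (l 16738952)) (l 16738352)))) (b (a (b (a (c (l 16743304) (l 16739064)) (c (b (l 16739840) (l 16739312)) (l 16737928))) (c (l 16744328) (l 16737400))) (l 16736536)) (c (l 16736344) (l 16734536)))) (a (a (b (l 16744272) (l 16736816)) (l 16740872)) (c (l 16738376) (l 16731168)))) (a (b (c (l 16738568) (l 16731296)) (l 16733200)) (b (l 16733072) (l 16728688))))), by decide +kernel⟩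

def k19_B00pm_011_s3 : ∃ t, chk3 f_B00pm_011_s3 t 18 125 1 = true :=
  ⟨(a (b (a (b (a (b (a (l 1063854095) (c (l 16751808) (c (l 16750808) (l 16750048)))) (b (a (l 16751824) (a (c (l 16750728) (c (l 16749672) (l 16748888))) (c (l 16749600) (b (l 16748392) (l 16747824))))) (b (a (c (l 16751624) (l 16752848)) (c (l 16749344) (l 16747848))) (a (a (l 16750992) (a (l 16750112) (l 16749528))) (l 16748048))))) (b (b (b (a (l 16749664) (c (l 16748072) (a (l 16747120) (l 16745920)))) (a (c (l 16749784) (a (l 16748936) (l 16747728))) (l 16746768))) (a (a (b (l 16749120) (l 16748568)) (l 16747680)) (l 16745912))) (c (l 16746160) (l 16744520)))) (a (c (b (a (b (c (l 16750592) (l 16755168)) (l 16749136)) (l 16747384)) (l 16746304)) (b (a (b (a (b (l 16749672) (l 16749104)) (l 16748176)) (l 16747608)) (l 16745784)) (l 16744640))) (c (l 16745448) (c (l 16741504) (l 16745760))))) (b (a (c (a (l 16743832) (l 16741552)) (c (l 16741392)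 (l 16745656))) (c (l 16738144) (l 16741424))) (a (c (l 16738272) (l 16741520)) (c (l 16733752) (l 16731568))))) (a (c (a (b (l 16742944) (l 16738464)) (b (l 16738376) (l 16733920))) (a (b (c (l 16741600) (l 16740600)) (c (l 16736944) (l 16735824))) (b (l 16741592) (l 16731656)))) (a (c (b (l 16733848) (l 16729408)) (b (l 16731624) (l 16726960))) (c (b (l 16729352) (l 16724936)) (b (l 16726944) (l 16722304)))))) (b (a (a (c (b (l 16733632) (l 16729264)) (b (l 16731496) (l 16726912))) (b (l 16733304) (l 16728856))) (a (b (l 16728784) (l 16719120)) (c (l 16723392) (l 16725912)))) (a (b (a (l 16728904) (l 16719152)) (a (b (l 16720288) (a (l 16719144) (l 16716912))) (b (l 16721024) (l 16713568)))) (b (a (b (l 16715792) (l 16713552)) (b (l 16711344) (l 16709152))) (a (l 16720736) (l 16705808)))))), by decide +kernel⟩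

def k20_B00pm_011_s3 : ∃ t, chk3 f_B00pm_011_s3 t 19 62 1 = true :=
  ⟨(b (a (a (a (b (c (b (l 16738168) (l 16728672)) (b (l 16731024) (l 16726560))) (c (l 16727536) (l 16730352))) (b (c (b (l 16728464) (l 16724240)) (l 16729456)) (c (l 16717896) (l 16715336)))) (b (c (b (l 16727064) (l 16728120)) (a (l 16719664) (l 16715144))) (c (a (l 16713520) (l 16709176)) (l 16719088)))) (a (b (c (l 16721456) (l 16718920)) (c (l 16702696) (l 16699744))) (b (l 16711520) (a (l 16715760) (l 16700984))))) (b (a (a (b (a (l 16714600) (l 16710184)) (a (l 16710232) (b (l 16706928) (l 16704736)))) (b (a (l 16705792) (l 16701416)) (a (l 16711960) (l 16697160)))) (a (b (a (l 16697088) (l 16692816)) (l 16690680)) (l 16684304))) (a (a (b (a (b (l 16706944) (l 16704736)) (l 16701480)) (l 16699248)) (l 16703272)) (a (l 16684256) (l 16675848))))), by decide +kernel⟩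

def k21_B00pm_011_s3 : ∃ t, chk3 f_B00pm_011_s3 t 9 63 1 = true :=
  ⟨(a (b (a (b (a (a (b (c (l 16733960) (l 16731664)) (b (a (l 16730536) (l 16728224)) (l 16732328))) (a (b (l 16729400) (a (l 16730616) (l 16724224))) (b (b (l 16728248) (l 16725936)) (l 16722496)))) (a (b (b (l 16730048) (c (l 16723848) (l 16721120))) (l 16719064)) (b (b (c (l 16721616) (l 16718816)) (l 16717992)) (l 16714544)))) (a (a (b (l 16723544) (l 16718832)) (b (l 16718960) (l 16714280))) (b (a (l 16714432) (l 16709936)) (a (l 16709776) (l 16705304))))) (b (a (a (b (l 16714640) (l 16710064)) (b (l 16710160) (l 16705632))) (a (l 16713968) (l 16709592))) (a (b (a (l 16705488) (l 16701072)) (a (l 16700880) (l 16696504))) (b (l 16705016) (c (l 16702368) (l 16708856)))))) (b (a (b (a (a (l 16719320) (b (l 16710752) (l 16708368))) (b (a (l 16706264) (l 16701800)) (a (l 16703920) (l 16699496)))) (a (a (l 16719824) (l 16704800)) (l 16698128))) (a (b (a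 (l 16706752) (l 16691920)) (l 16689384)) (c (l 16695688) (l 16701936)))) (a (a (b (l 16702216) (l 16697352)) (c (l 16692904) (l 16688896))) (a (l 16692784) (l 16694784))))) (b (a (b (a (c (l 16694392) (l 16690656)) (l 16694552)) (a (b (l 16685936) (c (l 16683488) (l 16679248))) (b (l 16677488) (l 16694064)))) (b (a (l 16675656) (l 16667368)) (a (b (l 16669136) (l 16664816)) (l 16679832)))) (a (a (b (l 16674656) (l 16665488)) (c (l 16685160) (l 16659312))) (a (l 16674712) (l 16645768))))), by decide +kernel⟩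

def k22_B00pm_011_s3 : ∃ t, chk3 f_B00pm_011_s3 t 10 14 1 = true :=
  ⟨(b (a (l 4) (b (l 4) (a (a (l 4) (a (l 1063371791) (l 1063389199))) (b (a (l 1063330831) (l 1063349775)) (l 1063500303))))) (a (a (a (a (b (l 4) (b (a (l 4) (a (l 4) (l 1063740431))) (l 1064450063))) (b (l 4) (b (a (l 1064279567) (l 1063746575)) (b (l 1063874063) (l 1063957519))))) (b (l 4) (c (b (a (l 1063937551) (l 1063951375)) (b (l 1064055823) (l 1064667663))) (b (l 1063553551) (l 1063731215))))) (b (a (b (l 4) (a (a (b (l 4) (b (l 4) (l 1063676943))) (l 1063627791)) (l 1063641615))) (c (b (l 1063727631) (l 1063867919)) (l 1063379983))) (c (a (a (b (a (l 1063963151) (l 1063971343)) (l 1064113679)) (b (a (l 1063979535) (l 1063988751)) (l 1064128527))) (a (b (a (l 1063997455) (l 1064007183)) (l 1064144911)) (b (l 1064021007) (l 1064162831)))) (a (b (c (l 1064221711) (l 1063473167)) (l 1063749135)) (b (l 1063617551) (l 1063778831)))))) (b (b (a (c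 (l 1063779343) (l 1063371791)) (l 1063659023)) (a (a (l 1063713295) (l 1063756815)) (c (l 1063993359) (l 1063624719)))) (a (c (a (b (a (l 1064040463) (l 1064060943)) (l 1064727055)) (b (l 1064089615) (l 1064230927))) (b (a (l 1063661583) (l 1063709711)) (a (l 1063817743) (l 1063862799)))) (a (b (l 1063949839) (l 1064098319)) (b (l 1063991823) (b (l 16715432) (a (b (l 16701584) (l 16708256)) (b (l 16696872) (l 16693112)))))))))), by decide +kernel⟩

def k23_B00pm_011_s3 : ∃ t, chk3 f_B00pm_011_s3 t 11 14 1 = true :=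
  ⟨(b (a (a (a (b (b (l 4) (a (l 1063191567) (l 1063196175))) (b (l 1063354383) (l 1063534607))) (b (b (l 4) (a (l 1063199247) (l 1063199759))) (b (l 1063369231) (l 1063547919)))) (b (a (b (l 1063018511) (a (l 1063197199) (l 1063191567))) (b (l 1063005711) (b (l 1063133711) (l 1063223311)))) (a (b (c (l 1063512591) (l 1063224847)) (l 1063556111)) (b (l 1063363599) (l 1063555599))))) (b (a (b (a (l 1062992911) (l 1062972943)) (a (l 1063165455) (l 1063152143))) (b (l 1062922767) (a (l 1063130639) (l 1063099407)))) (a (b (a (l 1063346191) (l 1063330319)) (c (l 1063643663) (l 1063420431))) (b (a (l 1063315983) (l 1063293455)) (a (l 1063505935) (l 1063490063)))))) (a (b (a (a (l 1063787535) (l 1063811599)) (a (l 1063830031) (l 1063841295))) (a (a (b (l 1064029711) (a (b (l 16697832) (l 16711296)) (b (a (l 16694280) (l 16691920)) (l 16685632)))) (a (b (l 16699584) (c (b (l 16710776) (l 16682488)) (l 16704088))) (b (c (l 16717040)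 (l 16693384)) (l 16700928)))) (b (b (a (l 16691216) (l 16702432)) (a (a (l 16686256) (l 16681440)) (l 16674200))) (c (l 16690680) (l 16666496))))) (b (a (b (l 1063736847) (a (c (l 16704576) (l 16702152)) (a (l 16695776) (l 16690624)))) (b (a (l 16676032) (b (l 16669008) (l 16661848))) (a (c (l 16683848) (l 16681656)) (l 16651296)))) (b (a (a (l 16688968) (l 16658104)) (l 16642920)) (a (l 16670008) (l 16629440)))))), by decide +kernel⟩

def k24_B00pm_011_s3 : ∃ t, chk3 f_B00pm_011_s3 t 20 30 1 = true :=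
  ⟨(b (a (a (a (b (l 1064099343) (l 1064305679)) (b (a (l 1064094223) (l 1064092175)) (l 1064288783))) (b (a (l 1064090639) (l 1064092687)) (b (l 1064225295) (b (l 1064296975) (a (a (l 16724648) (l 16722240)) (c (b (l 16725704) (l 16729048)) (l 16728144))))))) (b (a (a (l 1064098831) (l 1064107535)) (a (l 1064119311) (l 1064133647))) (b (b (a (l 1064205327) (a (l 16716032) (b (l 16717504) (a (l 16711504) (l 16709168))))) (b (a (l 1064237583) (a (a (l 16714288) (l 16711936)) (l 16708400))) (a (a (l 16720672) (a (l 16717104) (l 16714720))) (a (l 16721672) (l 16706448))))) (a (c (b (a (a (l 16719832) (a (l 16718088) (l 16722168))) (c (b (l 16725920) (l 16713520)) (l 16724024))) (c (l 16723448) (l 16712024))) (b (a (l 16727168) (l 16711872)) (l 16710352))) (l 16714440))))) (b (a (b (b (a (a (l 1064446991) (a (l 16725600) (b (l 16724168) (l 16722248)))) (a (a (b (l 16721752) (l 16719832)) (l 16718392)) (l 16714760))) (b (a (a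 (c (l 16732176) (l 16725592)) (l 16726776)) (l 16714232)) (a (a (a (l 16730832) (l 16723240)) (l 16719560)) (l 16712280)))) (a (a (a (l 16725720) (a (l 16718776) (l 16728112))) (c (l 16725920) (l 16713688))) (l 16717896))) (a (b (l 16716120) (l 16697880)) (a (l 16705184) (l 16711008)))) (a (b (a (a (l 16711080) (l 16717120)) (c (l 16711184) (l 16698384))) (a (l 16711104) (a (l 16694064) (l 16689520)))) (a (l 16707280) (l 16677024))))), by decide +kernel⟩

def k25_B00pm_011_s3 : ∃ t, chk3 f_B00pm_011_s3 t 21 30 1 = true :=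
  ⟨(b (b (a (a (b (l 1064121359) (c (a (a (l 16714712) (b (l 16714320) (l 16715720))) (b (l 16710848) (b (l 16718472) (l 16706080)))) (b (l 16710720) (a (l 16709168) (l 16704432))))) (a (b (l 16710768) (b (b (l 16716400) (l 16714496)) (l 16701112))) (b (b (l 16708000) (a (l 16705304) (l 16713448))) (l 16719368)))) (a (a (b (b (l 16713784) (l 16709976)) (l 16693752)) (b (a (b (l 16699800) (l 16695984)) (l 16695584)) (l 16689136))) (c (l 16708512) (l 16684360)))) (b (a (a (a (a (b (l 16718272) (l 16703904)) (l 16703496)) (l 16699992)) (l 16693040)) (c (l 16701896) (l 16677528))) (a (a (l 16694624) (l 16685408)) (l 16692752)))) (b (a (a (l 16698848) (l 16694992)) (c (l 16683408) (l 16658544))) (a (b (l 16667192) (c (l 16682440) (l 16657600))) (a (a (l 16673272) (l 16647936)) (l 16662408))))), by decide +kernel⟩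

def k26_B00pm_011_s3 : ∃ t, chk3 f_B00pm_011_s3 t 11 30 1 = true :=
  ⟨(b (b (a (a (a (l 16676784) (l 16667584)) (l 16674736)) (a (l 16635152) (l 16616136))) (a (a (c (l 16680304) (l 16655504)) (l 16639520)) (a (l 16621424) (l 16644968)))) (b (b (a (a (l 16646560) (l 16628928)) (a (l 16611232) (l 16593232))) (a (a (l 16681232) (l 16621920)) (l 16627144))) (a (a (c (l 16672648) (l 16626192)) (l 16611464)) (c (l 16629960) (l 16583520))))), by decide +kernel⟩

def k27_B00pm_011_s3 : ∃ t, chk3 f_B00pm_011_s3 t 5 31 1 = true :=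
  ⟨(a (b (a (b (b (a (a (l 16692376) (c (l 16706080) (l 16703128))) (a (a (l 16698112) (l 16672536)) (l 16665680))) (a (a (b (l 16686168) (l 16682088)) (l 16675704)) (a (l 16667112) (l 16658120)))) (a (a (l 16692656) (l 16663416)) (a (b (l 16659240) (l 16651208)) (c (l 16669624) (l 16686568))))) (b (a (c (l 16692360) (l 16646336)) (l 16631112)) (a (l 16633664) (l 16616624)))) (a (b (a (b (a (l 16659184) (l 16651064)) (l 16667800)) (b (c (l 16683192) (l 16678712)) (l 16631088))) (a (l 16655008) (l 16618808))) (b (a (b (l 16664608) (l 16615192)) (l 16602360)) (a (l 16603720) (l 16587944))))) (a (a (b (b (l 16614272) (l 16600192)) (l 16579352)) (b (b (l 16597712) (l 16584144)) (l 16564048))) (b (b (l 16614888) (a (l 16568232) (l 16552232))) (l 16583400)))), by decide +kernel⟩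

def k28_B00pm_011_s3 : ∃ t, chk3 f_B00pm_011_s3 t 12 12 1 = true :=
  ⟨(a (l 4) (b (l 4) (a (l 4) (a (b (l 4) (b (l 4) (l 1061874191))) (b (l 1) (b (l 4) (a (l 1061959695) (l 1062033935)))))))), by decide +kernel⟩

def k29_B00pm_011_s3 : ∃ t, chk3 f_B00pm_011_s3 t 12 26 1 = true :=
  ⟨(b (a (l 4) (a (a (l 1061826575) (l 1061901327)) (a (l 1061988879) (a (l 1062063631) (l 1062115855))))) (b (a (a (l 4) (a (l 1061876751) (l 1061921295))) (a (l 1062005263) (a (l 1062114831) (l 1062203407)))) (b (a (a (l 4) (c (l 1062047247) (l 1061913615))) (a (l 1062082575) (l 1062223375))) (a (a (a (l 4) (a (b (l 4) (l 1061997583)) (b (c (l 1062055951) (l 1061905423)) (c (a (l 1062084623) (l 1062091279)) (l 1061934095))))) (a (l 1062290447) (l 1062061583))) (a (l 1062135823) (l 1062269967)))))), by decide +kernel⟩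

def k30_B00pm_011_s3 : ∃ t, chk3 f_B00pm_011_s3 t 12 27 1 = true :=
  ⟨(a (b (a (b (a (l 1062594575) (a (l 1062075919) (b (c (c (a (l 1062171663) (l 1062176783)) (l 1062097935)) (l 1061977615)) (a (l 1062117391) (a (l 1062123023) (l 1062126607)))))) (a (c (a (l 1062837263) (l 1062840847)) (c (l 1062701071) (l 1062067727))) (a (c (l 1062308367) (l 1062133263)) (c (a (l 1062312975) (l 1062317071)) (l 1062145039))))) (c (b (a (a (a (b (l 1062146063) (l 1062211087)) (b (l 1062152719) (l 1062217743))) (b (l 1062163983) (l 1062228495))) (b (l 1062189583) (l 1062252559))) (b (a (a (l 1062284303) (l 1062297103)) (l 1062319119)) (a (a (l 1062366223) (l 1062375951)) (c (l 1062431247) (l 1062358031))))) (b (a (a (b (l 1061996047) (l 1062054927)) (l 1062045199)) (b (l 1062048271) (l 1062105615))) (a (a (l 1062159887) (l 1062176271)) (c (l 1062243343) (l 1062163983)))))) (b (a (a (a (l 1062441487) (l 1062419471)) (a (l 1062412303)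 (a (l 1062413327) (l 1062415375)))) (a (c (c (a (l 1062538767) (l 1062543887)) (a (l 1062460943) (l 1062468111))) (c (l 1062384655) (l 1062301199))) (a (b (a (l 1062392847) (l 1062399503)) (l 1062753295)) (b (l 1062410255) (l 1062496783))))) (a (a (l 1062641679) (a (l 1062619663) (l 1062613519))) (a (c (a (l 1062690319) (l 1062692879)) (a (l 1062532111) (l 1062538767))) (a (b (l 1062577167) (l 1062672399)) (b (l 1062587407) (l 1062680591))))))) (b (b (a (c (l 1062821391) (l 1062151183)) (l 1062343695)) (a (a (b (l 1062285327) (l 1062357007)) (l 1062366735)) (a (l 1062422031) (l 1062487055)))) (a (b (c (a (c (l 1062581263) (l 1062512143)) (l 1062582287)) (a (l 1062402575) (l 1062444047))) (a (a (b (l 1062599183) (l 1062691343)) (b (l 16685472) (l 16677744))) (c (l 1062748175) (l 1062612495)))) (b (a (l 1062561807) (l 1062618127)) (a (c (l 1062785039) (l 1062653967)) (l 1062768655)))))), by decide +kernel⟩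

def k31_B00pm_011_s3 : ∃ t, chk3 f_B00pm_011_s3 t 13 6 1 = true :=
  ⟨(b (a (b (l 1) (a (a (b (l 1) (b (l 1) (l 1062162447))) (l 1)) (l 1))) (l 1)) (b (a (a (b (a (c (l 1062268943) (l 1062706703)) (c (l 1062974479) (l 1062868495))) (a (l 1062348303) (l 1062476815))) (a (a (b (l 1062522383) (l 1062588943)) (b (l 1) (l 1062671375))) (b (l 1) (a (l 1062758415) (l 1062851087))))) (a (a (b (l 1) (b (l 1) (l 46741113799))) (l 1)) (l 1))) (a (b (a (a (l 1062516751) (l 1062620175)) (c (a (l 1062808591) (l 1062954511)) (a (l 16656928) (l 16646832)))) (a (a (b (l 16655328) (l 16640048)) (b (l 16644664) (l 16629464))) (a (l 1063203343) (l 16637832)))) (b (b (a (a (l 1063298575) (l 47277924919)) (l 1)) (a (c (a (l 16631416) (l 16622688)) (l 16624752)) (a (l 61773402359) (l 1)))) (b (a (a (l 16615024) (l 16606160)) (c (a (l 61773364167) (l 73047628375)) (l 69289595783))) (a (a (l 16600120) (l 16612176)) (a (a (l 16584832) (l 16580848))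 (l 92911839303)))))))), by decide +kernel⟩

def k32_B00pm_011_s3 : ∃ t, chk3 f_B00pm_011_s3 t 7 6 1 = true :=
  ⟨(a (b (l 1) (a (a (b (l 1) (b (l 1) (b (l 1) (l 109554795815)))) (l 1)) (l 1))) (l 1)), by decide +kernel⟩

def k33_B00pm_011_s3 : ∃ t, chk3 f_B00pm_011_s3 t 12 14 1 = true :=
  ⟨(b (a (b (a (a (b (l 1062853647) (l 1063059983)) (b (a (l 1062830095) (l 1062821391)) (a (l 1063039503) (l 1063030287)))) (a (b (c (a (l 1062893071) (l 1062889999)) (l 1062738447)) (a (l 1063025167) (l 1063156751))) (a (b (c (l 1062891023) (l 1062744591)) (c (l 1063092751) (l 16667344))) (b (c (l 1062895631) (l 1062752783)) (c (l 1063093775) (l 16661760)))))) (a (b (a (l 1063263247) (b (l 16676440) (l 16669072))) (a (l 1063467535) (b (l 16661800) (l 16654656)))) (b (a (b (l 16665352) (l 16658064)) (b (l 16654288) (l 16647080))) (a (b (l 16650880) (a (l 16646536) (l 16641056))) (b (a (l 16642752) (l 16637280)) (l 16632920)))))) (b (b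 (a (a (c (c (l 1062939663) (l 1062873615)) (b (l 16672232) (l 16664632))) (c (a (l 16661432) (l 16655896)) (l 1062795279))) (a (b (l 16650624) (l 16643176)) (l 1063471631))) (b (a (a (c (l 16663864) (l 16657128)) (c (l 16647584) (l 16646024))) (a (l 16635832) (l 16624952))) (a (a (l 16655776) (l 16639528)) (a (l 16628600) (l 16617840))))) (a (b (a (b (l 16643280) (a (l 16638872) (l 16633480))) (b (l 16632384) (a (l 16627976) (l 16622496)))) (a (b (a (l 16631784) (l 16626384)) (l 16622200)) (l 16614872))) (b (b (a (b (l 16623296) (l 16619656)) (l 16610648)) (a (l 16614464) (l 16603776))) (a (l 16604184) (l 16593600)))))) (b (a (a (b (a (b (l 16658352) (l 16651152)) (b (l 16647504) (l 16640568))) (a (l 16640784) (l 16630288))) (a (b (l 16633352) (l 16619800)) (b (l 16622680) (l 16609320)))) (a (a (b (l 16612024) (l 16598856)) (b (l 16601424) (l 16588424))) (a (b (l 16590888) (l 16578064)) (b (l 16580448) (l 16567784)))))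 (a (a (a (l 16662728) (b (l 16616952) (l 16604056))) (a (l 16621216) (l 16590072))) (b (a (l 16581000) (l 16560640)) (a (l 16568792) (l 16548824)))))), by decide +kernel⟩

def k34_B00pm_011_s3 : ∃ t, chk3 f_B00pm_011_s3 t 13 14 1 = true :=
  ⟨(b (a (a (a (b (b (l 16625152) (b (l 16614344) (l 16607048))) (b (l 16596688) (l 16583176))) (b (b (l 16614720) (b (l 16603768) (l 16596768))) (b (l 16586392) (l 16572992)))) (b (b (b (l 16603296) (l 16595832)) (l 16585312)) (b (l 16571544) (l 16558272)))) (a (a (b (l 16578080) (l 16550912)) (b (l 16569472) (l 16542176))) (b (a (l 16561256) (l 16595560)) (l 16530080)))) (a (a (b (a (b (l 16570160) (l 16557648)) (l 16574816)) (a (l 16539904) (l 16572208))) (b (c (l 16572000) (l 16580032)) (a (l 16562736) (l 16553488)))) (b (a (l 16563176) (l 16504912)) (a (l 16540192) (l 6))))), by decide +kernel⟩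

def k35_B00pm_011_s3 : ∃ t, chk3 f_B00pm_011_s3 t 6 15 1 = true :=
  ⟨(a (b (a (b (a (b (l 16596536) (l 16584032)) (b (l 16618648) (l 16564624))) (a (l 16565584) (l 16547240))) (a (b (b (l 16557008) (l 16545408)) (l 16528752)) (b (a (l 16536472) (l 16526864)) (l 16510360)))) (b (a (a (b (l 16547640) (l 16535936)) (b (l 16530368) (l 6))) (l 6)) (a (a (l 16518680) (l 6)) (l 6)))) (a (b (b (a (l 16512688) (l 16494496)) (l 6)) (l 6)) (l 6))), by decide +kernel⟩

def k36_B00pm_011_s3 : ∃ t, chk3 f_B00pm_011_s3 t 7 7 1 = true :=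
  ⟨(b (a (b (b (a (a (b (l 107944174759) (l 16536040)) (l 127271467991)) (l 1)) (a (a (l 16515680) (l 16545248)) (l 6))) (a (a (b (l 16490456) (l 6)) (l 6)) (l 6))) (l 6)) (l 6)), by decide +kernel⟩

theorem t37_B00pm_011_s3 : ∃ t, chk3 f_B00pm_011_s3 t 6 14 1 = true := ex3_a k33_B00pm_011_s3 k34_B00pm_011_s3

theorem t38_B00pm_011_s3 : ∃ t, chk3 f_B00pm_011_s3 t 6 7 1 = true := ex3_b t37_B00pm_011_s3 k35_B00pm_011_s3

theorem t39_B00pm_011_s3 : ∃ t, chk3 f_B00pm_011_s3 t 3 7 1 = true := ex3_a t38_B00pm_011_s3 k36_B00pm_011_s3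

theorem t40_B00pm_011_s3 : ∃ t, chk3 f_B00pm_011_s3 t 12 13 1 = true := ex3_b k29_B00pm_011_s3 k30_B00pm_011_s3

theorem t41_B00pm_011_s3 : ∃ t, chk3 f_B00pm_011_s3 t 12 6 1 = true := ex3_b k28_B00pm_011_s3 t40_B00pm_011_s3

theorem t42_B00pm_011_s3 : ∃ t, chk3 f_B00pm_011_s3 t 6 6 1 = true := ex3_a t41_B00pm_011_s3 k31_B00pm_011_s3

theorem t43_B00pm_011_s3 : ∃ t, chk3 f_B00pm_011_s3 t 3 6 1 = true := ex3_a t42_B00pm_011_s3 k32_B00pm_011_s3

theorem t44_B00pm_011_s3 : ∃ t, chk3 f_B00pm_011_s3 t 3 3 1 = true := ex3_b t43_B00pm_011_s3 t39_B00pm_011_s3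

theorem t45_B00pm_011_s3 : ∃ t, chk3 f_B00pm_011_s3 t 10 30 1 = true := ex3_a k24_B00pm_011_s3 k25_B00pm_011_s3

theorem t46_B00pm_011_s3 : ∃ t, chk3 f_B00pm_011_s3 t 5 30 1 = true := ex3_a t45_B00pm_011_s3 k26_B00pm_011_s3

theorem t47_B00pm_011_s3 : ∃ t, chk3 f_B00pm_011_s3 t 5 15 1 = true := ex3_b t46_B00pm_011_s3 k27_B00pm_011_s3

theorem t48_B00pm_011_s3 : ∃ t, chk3 f_B00pm_011_s3 t 5 14 1 = true := ex3_a k22_B00pm_011_s3 k23_B00pm_011_s3

theorem t49_B00pm_011_s3 : ∃ t, chk3 f_B00pm_011_s3 t 5 7 1 = true := ex3_b t48_B00pm_011_s3 t47_B00pm_011_s3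

theorem t50_B00pm_011_s3 : ∃ t, chk3 f_B00pm_011_s3 t 18 124 1 = true := ex3_a k17_B00pm_011_s3 k18_B00pm_011_s3

theorem t51_B00pm_011_s3 : ∃ t, chk3 f_B00pm_011_s3 t 18 62 1 = true := ex3_b t50_B00pm_011_s3 k19_B00pm_011_s3

theorem t52_B00pm_011_s3 : ∃ t, chk3 f_B00pm_011_s3 t 9 62 1 = true := ex3_a t51_B00pm_011_s3 k20_B00pm_011_s3

theorem t53_B00pm_011_s3 : ∃ t, chk3 f_B00pm_011_s3 t 9 31 1 = true := ex3_b t52_B00pm_011_s3 k21_B00pm_011_s3

theorem t54_B00pm_011_s3 : ∃ t, chk3 f_B00pm_011_s3 t 17 126 1 = true := ex3_a k14_B00pm_011_s3 k15_B00pm_011_s3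

theorem t55_B00pm_011_s3 : ∃ t, chk3 f_B00pm_011_s3 t 17 63 1 = true := ex3_b t54_B00pm_011_s3 k16_B00pm_011_s3

theorem t56_B00pm_011_s3 : ∃ t, chk3 f_B00pm_011_s3 t 8 63 1 = true := ex3_a k13_B00pm_011_s3 t55_B00pm_011_s3

theorem t57_B00pm_011_s3 : ∃ t, chk3 f_B00pm_011_s3 t 35 125 1 = true := ex3_b k11_B00pm_011_s3 k12_B00pm_011_s3

theorem t58_B00pm_011_s3 : ∃ t, chk3 f_B00pm_011_s3 t 35 62 1 = true := ex3_b k10_B00pm_011_s3 t57_B00pm_011_s3

theorem t59_B00pm_011_s3 : ∃ t, chk3 f_B00pm_011_s3 t 17 62 1 = true := ex3_a k9_B00pm_011_s3 t58_B00pm_011_s3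

theorem t60_B00pm_011_s3 : ∃ t, chk3 f_B00pm_011_s3 t 8 62 1 = true := ex3_a k8_B00pm_011_s3 t59_B00pm_011_s3

theorem t61_B00pm_011_s3 : ∃ t, chk3 f_B00pm_011_s3 t 8 31 1 = true := ex3_b t60_B00pm_011_s3 t56_B00pm_011_s3

theorem t62_B00pm_011_s3 : ∃ t, chk3 f_B00pm_011_s3 t 4 31 1 = true := ex3_a t61_B00pm_011_s3 t53_B00pm_011_s3

theorem t63_B00pm_011_s3 : ∃ t, chk3 f_B00pm_011_s3 t 19 61 1 = true := ex3_a k6_B00pm_011_s3 k7_B00pm_011_s3

theorem t64_B00pm_011_s3 : ∃ t, chk3 f_B00pm_011_s3 t 19 30 1 = true := ex3_b k5_B00pm_011_s3 t63_B00pm_011_s3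

theorem t65_B00pm_011_s3 : ∃ t, chk3 f_B00pm_011_s3 t 9 30 1 = true := ex3_a k4_B00pm_011_s3 t64_B00pm_011_s3

theorem t66_B00pm_011_s3 : ∃ t, chk3 f_B00pm_011_s3 t 4 30 1 = true := ex3_a k3_B00pm_011_s3 t65_B00pm_011_s3

theorem t67_B00pm_011_s3 : ∃ t, chk3 f_B00pm_011_s3 t 4 15 1 = true := ex3_b t66_B00pm_011_s3 t62_B00pm_011_s3

theorem t68_B00pm_011_s3 : ∃ t, chk3 f_B00pm_011_s3 t 4 7 1 = true := ex3_b k2_B00pm_011_s3 t67_B00pm_011_s3

theorem t69_B00pm_011_s3 : ∃ t, chk3 f_B00pm_011_s3 t 2 7 1 = true := ex3_a t68_B00pm_011_s3 t49_B00pm_011_s3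

theorem t70_B00pm_011_s3 : ∃ t, chk3 f_B00pm_011_s3 t 2 3 1 = true := ex3_b k1_B00pm_011_s3 t69_B00pm_011_s3

theorem t71_B00pm_011_s3 : ∃ t, chk3 f_B00pm_011_s3 t 1 3 1 = true := ex3_a t70_B00pm_011_s3 t44_B00pm_011_s3

theorem t72_B00pm_011_s3 : ∃ t, chk3 f_B00pm_011_s3 t 1 1 1 = true := ex3_b k0_B00pm_011_s3 t71_B00pm_011_s3

theorem c_B00pm_011_s3 : CertF 0 536870912 536870912 536870912 649613803 48318383 false true false .pnn 0 1 1
    ndB0q0 ndB0q1 pcB1 cut_B00pm_011_s3 xt_B00pm_011_s3 :=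
  certF0 (fam := false) (s1 := true) (s2 := false) (a := 0) (b := 1) (c := 1) (cn := .pnn) (n1 := ndB0q0) (n2 := ndB0q1) (pc := pcB1) (cut := cut_B00pm_011_s3) (xt := xt_B00pm_011_s3) (P1 := 0) (W1 := 536870912) (P2 := 536870912) (W2 := 536870912) (P3 := 649613803) (W3 := 48318383)
    rfl t72_B00pm_011_s3

theorem s_B00pm_011_s3 {κ x : ℝ} (hκ : κ * h0 = ken x) (hx : ((649613803 : ℕ) : ℝ) / S ≤ x)
    (hx' : x ≤ (((649613803 : ℕ) : ℝ) + (48318383 : ℕ)) / S)
    (H : CutB (VFD κ) PP tK tL pcB (Cut.of [[⟨0, 0, 0, 53687091⟩, ⟨1, 1, 0, 53687091⟩, ⟨2, 1, 0, 53687091⟩]]) 0 1 1 0 0 (sgb true) (sgb false) x) :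
    AltB (VFD κ) PP tK tL pcB [⟨4, 0, 0, 2845415833⟩] 0 1 1 0 0 (sgb true) (sgb false) x :=
  strip_altBD (m := 2845415833) false rfl hκ (SH.κ0 hκ (SH.hx1 hx).le (SH.hx2 hx').le) (SH.hx1 hx).le (SH.hx2 hx') (covB00).cov (covB01).cov hx hx' c_B00pm_011_s3 H ((okx6 hx hx').extB (T := tt) (okx hx hx') (sideB hx hx') hκ rfl rfl (.O 0 true) (.O 1 false) (Or.inr rfl))

noncomputable def cut_B00pm_012_s1 : Cut := Cut.of [[⟨4, 0, 0, 1449551462⟩], [⟨0, 0, 0, 67108864⟩, ⟨1, 1, 0, 67108864⟩, ⟨2, 1, 0, 67108864⟩]]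

noncomputable def f_B00pm_012_s1 : ℕ → ℕ → ℕ → ℕ → Bool := onCell 0 536870912 0 536870912 649613803 48318383
    (rowF 0 false true false .pnp 0 1 2 (qsf 0 536870912 0 536870912 1) ndB0q0 ndB0q2 pcB1 cut_B00pm_012_s1 Ext.none)

def k0_B00pm_012_s1 : ∃ t, chk3 f_B00pm_012_s1 t 1 1 1 = true :=
  ⟨(a (l 6) (b (a (b (a (l 6) (a (l 6) (b (b (a (l 6) (l 6)) (l 6)) (l 6)))) (l 6)) (b (a (b (a (b (a (l 16633280) (b (l 16648936) (l 16639488))) (l 6)) (b (a (b (a (l 16657000) (l 16662232)) (l 16650184)) (b (l 16670336) (a (l 16658000) (l 16662896)))) (a (l 16636248) (l 16646048)))) (l 6)) (b (a (b (a (l 16675504) (l 16685616)) (b (a (a (l 16658264) (l 16662936)) (l 16669928)) (a (l 16650720) (b (l 16662528) (l 16657560))))) (b (a (l 16695496) (l 16705408)) (a (b (l 16679496) (l 16668944)) (l 16683592)))) (a (b (a (l 16636832) (l 16645496)) (l 6)) (b (b (a (a (l 16656800) (l 16661320)) (l 16667800)) (a (l 16649336) (l 16658056)))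 (a (l 16635752) (l 16643872)))))) (l 6))) (l 6))), by decide +kernel⟩

theorem c_B00pm_012_s1 : CertF 0 536870912 0 536870912 649613803 48318383 false true false .pnp 0 1 2
    ndB0q0 ndB0q2 pcB1 cut_B00pm_012_s1 Ext.none :=
  certF0 (fam := false) (s1 := true) (s2 := false) (a := 0) (b := 1) (c := 2) (cn := .pnp) (n1 := ndB0q0) (n2 := ndB0q2) (pc := pcB1) (cut := cut_B00pm_012_s1) (xt := Ext.none) (P1 := 0) (W1 := 536870912) (P2 := 0) (W2 := 536870912) (P3 := 649613803) (W3 := 48318383)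
    rfl k0_B00pm_012_s1

theorem s_B00pm_012_s1 {κ x : ℝ} (hκ : κ * h0 = ken x) (hx : ((649613803 : ℕ) : ℝ) / S ≤ x)
    (hx' : x ≤ (((649613803 : ℕ) : ℝ) + (48318383 : ℕ)) / S)
    (H : CutB (VFD κ) PP tK tL pcB (Cut.of [[⟨0, 0, 0, 67108864⟩, ⟨1, 1, 0, 67108864⟩, ⟨2, 1, 0, 67108864⟩]]) 0 1 2 0 0 (sgb true) (sgb false) x) :
    AltB (VFD κ) PP tK tL pcB [⟨3, 0, 0, 1449551462⟩] 0 1 2 0 0 (sgb true) (sgb false) x :=
  strip_altBD (m := 1449551462) true rfl hκ (SH.κ0 hκ (SH.hx1 hx).le (SH.hx2 hx').le) (SH.hx1 hx).le (SH.hx2 hx') (covB00).cov (covB02).cov hx hx' c_B00pm_012_s1 H (noExt_B)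

noncomputable def cut_B00pm_012_s3 : Cut := Cut.of [[⟨3, 0, 0, 2845415833⟩], [⟨0, 0, 0, 67108864⟩, ⟨1, 1, 0, 67108864⟩, ⟨2, 1, 0, 67108864⟩]]

noncomputable def f_B00pm_012_s3 : ℕ → ℕ → ℕ → ℕ → Bool := onCell 0 536870912 0 536870912 649613803 48318383
    (rowF 0 false true false .pnp 0 1 2 (qsf 0 536870912 0 536870912 1) ndB0q0 ndB0q2 pcB1 cut_B00pm_012_s3 Ext.none)

def k0_B00pm_012_s3 : ∃ t, chk3 f_B00pm_012_s3 t 1 1 1 = true :=
  ⟨(a (b (l 6) (a (b (a (l 2) (b (l 6) (a (b (l 6) (l 6)) (l 6)))) (b (a (a (l 2) (b (a (l 2) (b (l 2) (l 16614256))) (a (l 14) (b (l 16648184) (l 16640784))))) (b (a (a (b (l 16590576) (l 16601968)) (l 16585216)) (l 16585480)) (a (a (b (l 16614056) (l 16584808)) (b (l 16601664) (l 16613488))) (b (l 16626192) (a (l 16600864) (l 16588824)))))) (a (a (l 14) (a (l 14) (a (l 14) (b (b (l 16651120) (l 16665656)) (b (b (l 16676928) (l 16684584)) (b (l 16692304) (b (l 16698096) (l 16712448))))))))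 (b (a (b (a (c (l 16640576) (l 16639544)) (l 16625888)) (a (b (l 16650344) (l 16657440)) (l 16659872))) (a (b (l 16612400) (l 16624536)) (b (l 16599488) (l 16610760)))) (b (a (a (b (l 16664680) (l 16692976)) (b (l 16649016) (l 16655912))) (a (b (l 16634000) (l 16640464)) (l 16664560))) (a (b (a (b (l 16677536) (l 16681240)) (c (l 16664760) (l 16660880))) (b (a (c (l 16686712) (l 16683096)) (l 16689056)) (a (a (l 16693040) (l 16684320)) (c (l 16684240) (l 16669264))))) (a (b (l 16667960) (a (l 16678520) (l 16649544))) (a (a (l 16661504) (l 16636696)) (l 16651968))))))))) (b (l 6) (b (a (b (l 6) (a (b (l 6) (l 16655592)) (l 6))) (l 6)) (a (b (a (b (l 16623024) (a (l 16597504) (l 16584728))) (b (l 16641864) (l 16650144))) (b (a (a (l 16608496) (l 16594864)) (a (l 16581632) (l 16568568))) (a (a (b (l 16616936) (l 16622616)) (l 16605312)) (a (l 16591224) (l 16576800))))) (b (l 6) (a (b (c (l 16633888) (l 16546200)) (l 16596728))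 (b (l 6) (l 16526584))))))))) (b (l 6) (a (l 6) (l 6)))), by decide +kernel⟩

theorem c_B00pm_012_s3 : CertF 0 536870912 0 536870912 649613803 48318383 false true false .pnp 0 1 2
    ndB0q0 ndB0q2 pcB1 cut_B00pm_012_s3 Ext.none :=
  certF0 (fam := false) (s1 := true) (s2 := false) (a := 0) (b := 1) (c := 2) (cn := .pnp) (n1 := ndB0q0) (n2 := ndB0q2) (pc := pcB1) (cut := cut_B00pm_012_s3) (xt := Ext.none) (P1 := 0) (W1 := 536870912) (P2 := 0) (W2 := 536870912) (P3 := 649613803) (W3 := 48318383)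
    rfl k0_B00pm_012_s3

theorem s_B00pm_012_s3 {κ x : ℝ} (hκ : κ * h0 = ken x) (hx : ((649613803 : ℕ) : ℝ) / S ≤ x)
    (hx' : x ≤ (((649613803 : ℕ) : ℝ) + (48318383 : ℕ)) / S)
    (H : CutB (VFD κ) PP tK tL pcB (Cut.of [[⟨0, 0, 0, 67108864⟩, ⟨1, 1, 0, 67108864⟩, ⟨2, 1, 0, 67108864⟩]]) 0 1 2 0 0 (sgb true) (sgb false) x) :
    AltB (VFD κ) PP tK tL pcB [⟨4, 0, 0, 2845415833⟩] 0 1 2 0 0 (sgb true) (sgb false) x :=
  strip_altBD (m := 2845415833) false rfl hκ (SH.κ0 hκ (SH.hx1 hx).le (SH.hx2 hx').le) (SH.hx1 hx).le (SH.hx2 hx') (covB00).cov (covB02).cov hx hx' c_B00pm_012_s3 H (noExt_B)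

noncomputable def cut_B00pm_022_s1 : Cut := Cut.of [[⟨4, 0, 0, 1449551462⟩], [⟨0, 0, 0, 67108864⟩, ⟨1, 1, 0, 67108864⟩, ⟨2, 1, 0, 67108864⟩]]

noncomputable def f_B00pm_022_s1 : ℕ → ℕ → ℕ → ℕ → Bool := onCell 1073741824 536870912 0 536870912 649613803 48318383
    (rowF 2 false true false .pp 0 2 2 (qsf 0 536870912 0 536870912 2) ndB0q0 ndB0q2 pcB2 cut_B00pm_022_s1 Ext.none)

def k0_B00pm_022_s1 : ∃ t, chk3 f_B00pm_022_s1 t 1 1 1 = true :=
  ⟨(l 6), by decide +kernel⟩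

theorem c_B00pm_022_s1 : CertF 0 536870912 0 536870912 649613803 48318383 false true false .pp 0 2 2
    ndB0q0 ndB0q2 pcB2 cut_B00pm_022_s1 Ext.none :=
  certF2 (fam := false) (s1 := true) (s2 := false) (a := 0) (b := 2) (c := 2) (cn := .pp) (n1 := ndB0q0) (n2 := ndB0q2) (pc := pcB2) (cut := cut_B00pm_022_s1) (xt := Ext.none) (P1 := 0) (W1 := 536870912) (P2 := 0) (W2 := 536870912) (P3 := 649613803) (W3 := 48318383)
    rfl (fun _ => rfl) k0_B00pm_022_s1

theorem s_B00pm_022_s1 {κ x : ℝ} (hκ : κ * h0 = ken x) (hx : ((649613803 : ℕ) : ℝ) / S ≤ x)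
    (hx' : x ≤ (((649613803 : ℕ) : ℝ) + (48318383 : ℕ)) / S)
    (H : CutB (VFD κ) PP tK tL pcB (Cut.of [[⟨0, 0, 0, 67108864⟩, ⟨1, 1, 0, 67108864⟩, ⟨2, 1, 0, 67108864⟩]]) 0 2 2 0 0 (sgb true) (sgb false) x) :
    AltB (VFD κ) PP tK tL pcB [⟨3, 0, 0, 1449551462⟩] 0 2 2 0 0 (sgb true) (sgb false) x :=
  strip_altBD (m := 1449551462) true rfl hκ (SH.κ0 hκ (SH.hx1 hx).le (SH.hx2 hx').le) (SH.hx1 hx).le (SH.hx2 hx') (covB00).cov (covB02).cov hx hx' c_B00pm_022_s1 H (noExt_B)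

noncomputable def cut_B00pm_022_s3 : Cut := Cut.of [[⟨3, 0, 0, 2845415833⟩], [⟨0, 0, 0, 67108864⟩, ⟨1, 1, 0, 67108864⟩, ⟨2, 1, 0, 67108864⟩]]

noncomputable def f_B00pm_022_s3 : ℕ → ℕ → ℕ → ℕ → Bool := onCell 0 536870912 0 536870912 649613803 48318383
    (rowF 0 false true false .pp 0 2 2 (qsf 0 536870912 0 536870912 2) ndB0q0 ndB0q2 pcB2 cut_B00pm_022_s3 Ext.none)

def k0_B00pm_022_s3 : ∃ t, chk3 f_B00pm_022_s3 t 1 1 1 = true :=
  ⟨(a (b (l 6) (a (b (b (l 6) (a (a (b (b (a (a (b (l 6) (l 16574352)) (l 6)) (l 6)) (a (a (c (l 16584248) (l 16580464)) (c (l 16582592) (l 16579704))) (a (l 16579632) (l 6)))) (a (a (c (b (l 16596032) (l 16608928)) (b (l 16592040) (l 16604880))) (b (l 16592704) (l 16605368))) (a (b (l 16590920) (l 16603392)) (l 16594936)))) (b (l 6) (a (a (l 16592440) (l 16589720)) (l 16580120)))) (b (l 6) (a (l 6) (l 1))))) (a (a (b (b (b (a (a (c (l 16623064) (l 16619128)) (l 16619352)) (a (l 16617168) (l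 16614632))) (b (a (a (l 16632632) (l 16630696)) (l 16595592)) (l 14))) (l 14)) (l 14)) (a (b (b (b (l 16610304) (l 16624888)) (l 14)) (l 14)) (b (b (b (l 16597616) (l 16609200)) (b (l 16620640) (l 16631904))) (l 1)))) (b (a (b (a (b (l 16580800) (l 16590808)) (l 1)) (l 1)) (l 1)) (l 1)))) (b (l 1) (l 1)))) (l 1)), by decide +kernel⟩

theorem c_B00pm_022_s3 : CertF 0 536870912 0 536870912 649613803 48318383 false true false .pp 0 2 2
    ndB0q0 ndB0q2 pcB2 cut_B00pm_022_s3 Ext.none :=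
  certF0 (fam := false) (s1 := true) (s2 := false) (a := 0) (b := 2) (c := 2) (cn := .pp) (n1 := ndB0q0) (n2 := ndB0q2) (pc := pcB2) (cut := cut_B00pm_022_s3) (xt := Ext.none) (P1 := 0) (W1 := 536870912) (P2 := 0) (W2 := 536870912) (P3 := 649613803) (W3 := 48318383)
    rfl k0_B00pm_022_s3

theorem s_B00pm_022_s3 {κ x : ℝ} (hκ : κ * h0 = ken x) (hx : ((649613803 : ℕ) : ℝ) / S ≤ x)
    (hx' : x ≤ (((649613803 : ℕ) : ℝ) + (48318383 : ℕ)) / S)
    (H : CutB (VFD κ) PP tK tL pcB (Cut.of [[⟨0, 0, 0, 67108864⟩, ⟨1, 1, 0, 67108864⟩, ⟨2, 1, 0, 67108864⟩]]) 0 2 2 0 0 (sgb true) (sgb false) x) :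
    AltB (VFD κ) PP tK tL pcB [⟨4, 0, 0, 2845415833⟩] 0 2 2 0 0 (sgb true) (sgb false) x :=
  strip_altBD (m := 2845415833) false rfl hκ (SH.κ0 hκ (SH.hx1 hx).le (SH.hx2 hx').le) (SH.hx1 hx).le (SH.hx2 hx') (covB00).cov (covB02).cov hx hx' c_B00pm_022_s3 H (noExt_B)

noncomputable def cut_B00pm_101_s1 : Cut := Cut.of [[⟨4, 0, 0, 1449551462⟩], [⟨0, 1, 0, 67108864⟩, ⟨1, 0, 0, 67108864⟩, ⟨2, 1, 0, 67108864⟩], [⟨0, 0, 1, 20971520⟩, ⟨1, 1, 2, 20971520⟩, ⟨2, 1, 0, 33554432⟩]]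

noncomputable def f_B00pm_101_s1 : ℕ → ℕ → ℕ → ℕ → Bool := onCell 536870912 536870912 536870912 536870912 649613803 48318383
    (rowF 0 false true false .npn 1 0 1 (qsf 536870912 536870912 536870912 536870912 0) ndB0q1 ndB0q1 pcB0 cut_B00pm_101_s1 Ext.none)

def k0_B00pm_101_s1 : ∃ t, chk3 f_B00pm_101_s1 t 2 1 1 = true :=
  ⟨(l 6), by decide +kernel⟩

def k1_B00pm_101_s1 : ∃ t, chk3 f_B00pm_101_s1 t 3 2 1 = true :=
  ⟨(l 6), by decide +kernel⟩

def k2_B00pm_101_s1 : ∃ t, chk3 f_B00pm_101_s1 t 6 3 1 = true :=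
  ⟨(b (l 6) (b (l 6) (b (l 6) (a (l 6) (b (l 6) (b (l 6) (a (l 6) (a (l 6) (a (l 6) (b (l 6) (a (l 16822448) (l 16841656)))))))))))), by decide +kernel⟩

def k3_B00pm_101_s1 : ∃ t, chk3 f_B00pm_101_s1 t 7 6 1 = true :=
  ⟨(a (l 6) (l 1)), by decide +kernel⟩

def k4_B00pm_101_s1 : ∃ t, chk3 f_B00pm_101_s1 t 7 14 1 = true :=
  ⟨(a (l 6) (b (l 1) (a (a (a (a (l 6) (l 1)) (l 1)) (l 1)) (l 1)))), by decide +kernel⟩

def k5_B00pm_101_s1 : ∃ t, chk3 f_B00pm_101_s1 t 7 30 1 = true :=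
  ⟨(a (a (l 6) (a (b (l 6) (a (b (l 6) (a (l 16872512) (l 16829624))) (b (l 16865936) (a (l 16828704) (l 16827800))))) (b (c (b (l 16843592) (l 16836496)) (b (l 16848944) (l 16841296))) (b (c (l 16829960) (l 16855216)) (c (l 16823936) (b (l 16829368) (l 16826248))))))) (a (b (b (a (c (l 16840408) (l 43520273959)) (l 1)) (a (a (l 16835696) (l 14)) (l 14))) (a (a (a (b (l 16829456) (l 16823200)) (l 14)) (l 14)) (l 14))) (b (l 1) (l 14)))), by decide +kernel⟩

def k6_B00pm_101_s1 : ∃ t, chk3 f_B00pm_101_s1 t 14 62 1 = true :=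
  ⟨(a (a (b (l 6) (l 6)) (b (a (l 6) (b (l 16827728) (l 16825016))) (a (c (l 16820384) (l 16848360)) (c (l 16829160) (l 16845576))))) (a (a (b (b (l 16825752) (l 16823040)) (c (l 16838104) (l 16843064))) (b (b (l 16823912) (l 16821192)) (c (l 16815664) (l 16819776)))) (a (b (b (l 16822128) (l 16819408)) (c (l 16814216) (l 16817568))) (b (c (l 16817736) (l 16820776)) (b (l 16814992) (l 16812480)))))), by decide +kernel⟩

def k7_B00pm_101_s1 : ∃ t, chk3 f_B00pm_101_s1 t 14 63 1 = true :=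
  ⟨(c (c (a (a (b (a (l 16818408) (l 16816584)) (a (l 16814440) (b (l 16813512) (l 16811512)))) (b (a (l 16814888) (l 16813352)) (a (b (l 16811768) (l 16809736)) (b (l 16810192) (l 16808128))))) (a (b (a (l 16811944) (l 16810600)) (a (b (l 16808744) (l 16806656)) (b (l 16807360) (l 16805232)))) (b (a (l 16809240) (l 16807784)) (a (l 16815352) (l 16803352))))) (a (a (b (a (l 16821680) (l 16819296)) (a (l 16817416) (b (l 16816032) (l 16813896)))) (b (a (l 16817104) (l 16815128)) (a (b (l 16813808) (l 16811656)) (b (l 16811808) (l 16809632))))) (a (b (a (l 16813344) (l 16811664)) (a (b (l 16810000) (l 16807808)) (b (l 16808296) (l 16806088)))) (b (a (l 16810032) (l 16808336)) (a (l 16805504) (l 16803784)))))) (a (c (a (b (a (l 16826104) (l 16823096)) (a (l 16821504) (l 16818440))) (b (a (l 16820328) (l 16817832)) (a (b (l 16816816) (l 16814520)) (b (l 16814320) (l 16812016))))) (a (b (a (l 16831696) (l 16827976)) (a (l 16826712)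 (l 16822968))) (b (a (l 16824544) (l 16821464)) (a (l 16819552) (l 16816480))))) (a (b (a (b (l 16818288) (l 16815824)) (b (l 16815968) (l 16813512))) (a (c (b (l 16812072) (l 16809760)) (l 16813720)) (c (l 16808808) (l 16811176)))) (b (a (b (l 16813776) (l 16811320)) (l 16810344)) (c (a (l 16806808) (l 16804808)) (a (l 16808776) (l 16806424))))))), by decide +kernel⟩

def k8_B00pm_101_s1 : ∃ t, chk3 f_B00pm_101_s1 t 15 31 1 = true :=
  ⟨(a (a (a (a (b (b (l 16817488) (b (l 16813552) (l 16811040))) (b (c (l 16806720) (l 16808672)) (c (l 16802200) (l 16803872)))) (l 14)) (l 14)) (l 14)) (l 14)), by decide +kernel⟩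

theorem t9_B00pm_101_s1 : ∃ t, chk3 f_B00pm_101_s1 t 14 31 1 = true := ex3_b k6_B00pm_101_s1 k7_B00pm_101_s1

theorem t10_B00pm_101_s1 : ∃ t, chk3 f_B00pm_101_s1 t 7 31 1 = true := ex3_a t9_B00pm_101_s1 k8_B00pm_101_s1

theorem t11_B00pm_101_s1 : ∃ t, chk3 f_B00pm_101_s1 t 7 15 1 = true := ex3_b k5_B00pm_101_s1 t10_B00pm_101_s1

theorem t12_B00pm_101_s1 : ∃ t, chk3 f_B00pm_101_s1 t 7 7 1 = true := ex3_b k4_B00pm_101_s1 t11_B00pm_101_s1

theorem t13_B00pm_101_s1 : ∃ t, chk3 f_B00pm_101_s1 t 7 3 1 = true := ex3_b k3_B00pm_101_s1 t12_B00pm_101_s1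

theorem t14_B00pm_101_s1 : ∃ t, chk3 f_B00pm_101_s1 t 3 3 1 = true := ex3_a k2_B00pm_101_s1 t13_B00pm_101_s1

theorem t15_B00pm_101_s1 : ∃ t, chk3 f_B00pm_101_s1 t 3 1 1 = true := ex3_b k1_B00pm_101_s1 t14_B00pm_101_s1

theorem t16_B00pm_101_s1 : ∃ t, chk3 f_B00pm_101_s1 t 1 1 1 = true := ex3_a k0_B00pm_101_s1 t15_B00pm_101_s1

theorem c_B00pm_101_s1 : CertF 536870912 536870912 536870912 536870912 649613803 48318383 false true false .npn 1 0 1
    ndB0q1 ndB0q1 pcB0 cut_B00pm_101_s1 Ext.none :=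
  certF0 (fam := false) (s1 := true) (s2 := false) (a := 1) (b := 0) (c := 1) (cn := .npn) (n1 := ndB0q1) (n2 := ndB0q1) (pc := pcB0) (cut := cut_B00pm_101_s1) (xt := Ext.none) (P1 := 536870912) (W1 := 536870912) (P2 := 536870912) (W2 := 536870912) (P3 := 649613803) (W3 := 48318383)
    rfl t16_B00pm_101_s1

theorem s_B00pm_101_s1 {κ x : ℝ} (hκ : κ * h0 = ken x) (hx : ((649613803 : ℕ) : ℝ) / S ≤ x)
    (hx' : x ≤ (((649613803 : ℕ) : ℝ) + (48318383 : ℕ)) / S)
    (H : CutB (VFD κ) PP tK tL pcB (Cut.of [[⟨0, 1, 0, 67108864⟩, ⟨1, 0, 0, 67108864⟩, ⟨2, 1, 0, 67108864⟩], [⟨0, 0, 1, 20971520⟩, ⟨1, 1, 2, 20971520⟩, ⟨2, 1, 0, 33554432⟩]]) 1 0 1 0 0 (sgb true) (sgb false) x) :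
    AltB (VFD κ) PP tK tL pcB [⟨3, 0, 0, 1449551462⟩] 1 0 1 0 0 (sgb true) (sgb false) x :=
  strip_altBD (m := 1449551462) true rfl hκ (SH.κ0 hκ (SH.hx1 hx).le (SH.hx2 hx').le) (SH.hx1 hx).le (SH.hx2 hx') (covB01).cov (covB01).cov hx hx' c_B00pm_101_s1 H (noExt_B)

noncomputable def cut_B00pm_101_s3 : Cut := Cut.of [[⟨3, 0, 0, 2845415833⟩], [⟨0, 1, 0, 67108864⟩, ⟨1, 0, 0, 67108864⟩, ⟨2, 1, 0, 67108864⟩], [⟨0, 0, 1, 20971520⟩, ⟨1, 1, 2, 20971520⟩, ⟨2, 1, 0, 33554432⟩]]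

noncomputable def xt_B00pm_101_s3 : Ext := strExt6 dd false true false .u0 .u0m .s0m .npn 1 0 1 rfl rfl gl0 vv ww ndB0q1 ndB0q1

noncomputable def f_B00pm_101_s3 : ℕ → ℕ → ℕ → ℕ → Bool := onCell 536870912 536870912 536870912 536870912 649613803 48318383
    (rowF 0 false true false .npn 1 0 1 (qsf 536870912 536870912 536870912 536870912 0) ndB0q1 ndB0q1 pcB0 cut_B00pm_101_s3 xt_B00pm_101_s3)

def k0_B00pm_101_s3 : ∃ t, chk3 f_B00pm_101_s3 t 4 4 1 = true :=
  ⟨(a (b (l 4) (a (a (l 4) (a (l 4) (a (l 4) (b (l 4) (b (l 4) (l 1074388495)))))) (b (b (l 4) (a (l 4) (b (l 4) (a (l 4) (l 1074793999))))) (a (b (b (l 4) (a (l 4) (l 1074592783))) (b (l 1074549263) (l 1074565647))) (b (a (b (l 1074698767) (l 1074719247)) (l 1074834447)) (c (l 1074109455) (l 1075024399))))))) (b (a (a (l 4) (l 1)) (l 1)) (a (b (a (b (a (l 4) (b (l 4) (l 1075207695))) (a (b (b (l 4) (l 1074883087)) (l 1074908175)) (b (a (l 1074954255) (l 1075006479))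 (l 1075018255)))) (b (a (b (l 1) (l 1075036175)) (l 1)) (b (a (l 1075082767) (l 1075178511)) (a (l 1075123215) (l 1075223055))))) (a (b (a (l 1074952719) (l 1075066383)) (a (l 1074995727) (l 1075112975))) (b (a (l 1075175951) (l 1075280911)) (l 1075288079)))) (b (a (b (l 1) (b (l 1) (l 1075365391))) (l 1)) (a (b (l 1075433999) (l 1075499023)) (b (l 1075612175) (l 1075692559))))))), by decide +kernel⟩

def k1_B00pm_101_s3 : ∃ t, chk3 f_B00pm_101_s3 t 4 10 1 = true :=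
  ⟨(a (b (a (a (b (a (l 4) (b (l 4) (l 1074298383))) (a (c (l 1073705487) (l 1073426959)) (c (l 1073901583) (l 1073801231)))) (b (b (a (l 1074359823) (b (l 1073844239) (l 1073870863))) (a (l 1074441743) (l 1074497039))) (a (b (l 1074434575) (l 1074345999)) (b (l 1074579983) (l 1074568207))))) (b (a (b (a (l 1073987087) (l 1074647055)) (a (l 1074583567) (l 1074697231))) (b (l 1074840591) (l 1074881039))) (a (b (l 1074721295) (a (l 1074737679) (l 1074845711))) (b (l 1074939407) (l 1075005967))))) (a (b (a (a (l 1073191439) (l 1073964559)) (a (l 1074197519) (l 1074428943))) (a (b (a (l 1073557007) (l 1073794575)) (a (l 1073440783) (l 1073682447))) (b (l 1073077263) (l 1074039823)))) (b (a (b (l 1073195023) (l 1073680911)) (b (l 1075078671) (l 1075143183))) (a (b (l 1074647055) (l 1074533903)) (b (l 1075147791) (l 1075086351)))))) (b (a (a (b (b (l 1075083791) (l 1075118095)) (l 1074126863)) (b (l 1074261007) (l 1075421199)))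 (b (a (l 1075552271) (l 1075755023)) (a (l 1075635215) (l 1075838991)))) (a (b (a (l 1075326991) (l 1075534351)) (a (b (l 1075424783) (l 1075486223)) (l 1075660815))) (b (a (l 1075740175) (l 1075939855)) (a (l 1075855375) (l 1076047887)))))), by decide +kernel⟩

def k2_B00pm_101_s3 : ∃ t, chk3 f_B00pm_101_s3 t 4 11 1 = true :=
  ⟨(a (b (a (a (a (b (a (l 1073147919) (l 1073319951)) (l 1072963599)) (b (l 1072980495) (l 1073286671))) (b (b (l 1073926671) (l 1073812495)) (a (l 1073520143) (l 1073753103)))) (b (a (b (l 1074418703) (l 1074301967)) (b (l 1074969615) (l 1074846223))) (a (l 1073055247) (l 1074664975)))) (a (b (a (b (l 1072923663) (l 1072774159)) (b (l 1073456143) (l 1073313295))) (a (b (l 1072608271) (l 1072428047)) (b (l 1073147919) (l 1072967695)))) (a (a (b (l 1073741839) (l 16770344)) (b (l 1073993743) (l 16775168))) (b (l 1073861135) (l 1074056207))))) (a (a (b (b (b (l 1075487247) (l 1075419151)) (l 1075233295))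 (b (l 1074418191) (l 16756328))) (b (b (l 1074181135) (l 1075234319)) (b (l 1075532303) (l 16732112)))) (b (b (a (l 1075982863) (l 16752016)) (a (l 1075573775) (l 16761848))) (b (c (l 1074638863) (a (l 16772496) (l 16790064))) (a (l 16753112) (l 6)))))), by decide +kernel⟩

def k3_B00pm_101_s3 : ∃ t, chk3 f_B00pm_101_s3 t 5 2 1 = true :=
  ⟨(b (a (b (l 1) (a (b (l 1) (a (b (l 1) (l 1075870223)) (l 1))) (l 1))) (l 1)) (b (a (a (a (b (b (l 1075945487) (l 1076034575)) (b (l 1076134927) (l 1076238863))) (b (b (l 1076152847) (l 1076248079)) (b (l 1076349967) (l 16765592)))) (b (a (b (l 1) (l 38151416231)) (l 1)) (b (a (l 16768936) (l 16867080)) (a (l 16863200) (l 6))))) (a (b (l 1) (l 6)) (l 1))) (a (b (a (b (a (l 16763088) (l 16859704)) (b (l 16777184) (l 16782720))) (l 6)) (l 6)) (l 6)))), by decide +kernel⟩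

def k4_B00pm_101_s3 : ∃ t, chk3 f_B00pm_101_s3 t 2 3 1 = true :=
  ⟨(b (a (b (b (a (a (b (a (l 16747352) (b (l 16757504) (l 16751984))) (a (l 16734184) (l 16742432))) (b (a (b (l 16765832) (l 16760448)) (l 16732712)) (a (l 16751064) (l 16762736)))) (a (a (b (l 16789352) (l 16777536)) (b (l 16807272) (l 6))) (l 6))) (a (a (b (l 16722496) (a (l 16700928) (l 16710040))) (b (a (l 16736360) (b (l 16752064) (l 6))) (a (l 16717704) (l 6)))) (l 6))) (a (b (a (b (a (l 16678912) (l 6)) (l 6)) (l 6)) (l 6)) (l 6))) (l 6)) (l 6)), by decide +kernel⟩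

def k5_B00pm_101_s3 : ∃ t, chk3 f_B00pm_101_s3 t 3 1 1 = true :=
  ⟨(b (a (b (l 1) (l 6)) (l 1)) (l 6)), by decide +kernel⟩

theorem t6_B00pm_101_s3 : ∃ t, chk3 f_B00pm_101_s3 t 4 5 1 = true := ex3_b k1_B00pm_101_s3 k2_B00pm_101_s3

theorem t7_B00pm_101_s3 : ∃ t, chk3 f_B00pm_101_s3 t 4 2 1 = true := ex3_b k0_B00pm_101_s3 t6_B00pm_101_s3

theorem t8_B00pm_101_s3 : ∃ t, chk3 f_B00pm_101_s3 t 2 2 1 = true := ex3_a t7_B00pm_101_s3 k3_B00pm_101_s3

theorem t9_B00pm_101_s3 : ∃ t, chk3 f_B00pm_101_s3 t 2 1 1 = true := ex3_b t8_B00pm_101_s3 k4_B00pm_101_s3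

theorem t10_B00pm_101_s3 : ∃ t, chk3 f_B00pm_101_s3 t 1 1 1 = true := ex3_a t9_B00pm_101_s3 k5_B00pm_101_s3

theorem c_B00pm_101_s3 : CertF 536870912 536870912 536870912 536870912 649613803 48318383 false true false .npn 1 0 1
    ndB0q1 ndB0q1 pcB0 cut_B00pm_101_s3 xt_B00pm_101_s3 :=
  certF0 (fam := false) (s1 := true) (s2 := false) (a := 1) (b := 0) (c := 1) (cn := .npn) (n1 := ndB0q1) (n2 := ndB0q1) (pc := pcB0) (cut := cut_B00pm_101_s3) (xt := xt_B00pm_101_s3) (P1 := 536870912) (W1 := 536870912) (P2 := 536870912) (W2 := 536870912) (P3 := 649613803) (W3 := 48318383)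
    rfl t10_B00pm_101_s3

theorem s_B00pm_101_s3 {κ x : ℝ} (hκ : κ * h0 = ken x) (hx : ((649613803 : ℕ) : ℝ) / S ≤ x)
    (hx' : x ≤ (((649613803 : ℕ) : ℝ) + (48318383 : ℕ)) / S)
    (H : CutB (VFD κ) PP tK tL pcB (Cut.of [[⟨0, 1, 0, 67108864⟩, ⟨1, 0, 0, 67108864⟩, ⟨2, 1, 0, 67108864⟩], [⟨0, 0, 1, 20971520⟩, ⟨1, 1, 2, 20971520⟩, ⟨2, 1, 0, 33554432⟩]]) 1 0 1 0 0 (sgb true) (sgb false) x) :
    AltB (VFD κ) PP tK tL pcB [⟨4, 0, 0, 2845415833⟩] 1 0 1 0 0 (sgb true) (sgb false) x :=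
  strip_altBD (m := 2845415833) false rfl hκ (SH.κ0 hκ (SH.hx1 hx).le (SH.hx2 hx').le) (SH.hx1 hx).le (SH.hx2 hx') (covB01).cov (covB01).cov hx hx' c_B00pm_101_s3 H ((okx6 hx hx').extB (T := tt) (okx hx hx') (sideB hx hx') hκ rfl rfl (.O 1 true) (.O 1 false) (Or.inl rfl))

end Pool.Agent.Strip051.G.I6050_6500.Tab.St.C
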