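import Pool.Agent.Strip051.G.I6050_6500.St1
import Pool.Agent.Strip051.G.I6050_6500.St2
import Pool.Agent.Strip051.G.I6050_6500.St3
import Pool.Agent.Strip051.G.I6050_6500.St4
import Pool.Agent.Strip051.G.I6050_6500.St5
import Pool.Agent.Strip051.G.I6050_6500.St6
import Pool.Agent.Strip051.G.I6050_6500.StH
import Pool.Agent.Strip051.G.I6050_6500.StF

/-! # Unit strips 7 (generated) -/

set_option linter.all false
set_option maxRecDepth 100000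

namespace Pool.Agent.Strip051.G.I6050_6500.Tab.St.C

open Pool.Agent.Strip051.PB Pool.Agent.Strip051.PB.T Pool.Agent.StripNear Pool.Agent.Strip051.LC
open Pool.Agent.Strip051.G.I6050_6500.Tab Pool.Agent.Strip051.G.I6050_6500.Tab.St

theorem t559_A00pm_012_s1 : ∃ t, chk3 f_A00pm_012_s1 t 7 12 1 = true := ex3_a k555_A00pm_012_s1 k556_A00pm_012_s1

theorem t560_A00pm_012_s1 : ∃ t, chk3 f_A00pm_012_s1 t 7 6 1 = true := ex3_b t559_A00pm_012_s1 k557_A00pm_012_s1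

theorem t561_A00pm_012_s1 : ∃ t, chk3 f_A00pm_012_s1 t 3 6 1 = true := ex3_a k554_A00pm_012_s1 t560_A00pm_012_s1

theorem t562_A00pm_012_s1 : ∃ t, chk3 f_A00pm_012_s1 t 3 3 1 = true := ex3_b t561_A00pm_012_s1 k558_A00pm_012_s1

theorem t563_A00pm_012_s1 : ∃ t, chk3 f_A00pm_012_s1 t 1 3 1 = true := ex3_a k553_A00pm_012_s1 t562_A00pm_012_s1

theorem t564_A00pm_012_s1 : ∃ t, chk3 f_A00pm_012_s1 t 14 11 1 = true := ex3_b k550_A00pm_012_s1 k551_A00pm_012_s1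

theorem t565_A00pm_012_s1 : ∃ t, chk3 f_A00pm_012_s1 t 7 11 1 = true := ex3_a t564_A00pm_012_s1 k552_A00pm_012_s1

theorem t566_A00pm_012_s1 : ∃ t, chk3 f_A00pm_012_s1 t 13 11 1 = true := ex3_b k548_A00pm_012_s1 k549_A00pm_012_s1

theorem t567_A00pm_012_s1 : ∃ t, chk3 f_A00pm_012_s1 t 6 11 1 = true := ex3_a k547_A00pm_012_s1 t566_A00pm_012_s1

theorem t568_A00pm_012_s1 : ∃ t, chk3 f_A00pm_012_s1 t 3 11 1 = true := ex3_a t567_A00pm_012_s1 t565_A00pm_012_s1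

theorem t569_A00pm_012_s1 : ∃ t, chk3 f_A00pm_012_s1 t 7 21 1 = true := ex3_a k545_A00pm_012_s1 k546_A00pm_012_s1

theorem t570_A00pm_012_s1 : ∃ t, chk3 f_A00pm_012_s1 t 27 21 1 = true := ex3_b k543_A00pm_012_s1 k544_A00pm_012_s1

theorem t571_A00pm_012_s1 : ∃ t, chk3 f_A00pm_012_s1 t 13 21 1 = true := ex3_a k542_A00pm_012_s1 t570_A00pm_012_s1

theorem t572_A00pm_012_s1 : ∃ t, chk3 f_A00pm_012_s1 t 6 21 1 = true := ex3_a k541_A00pm_012_s1 t571_A00pm_012_s1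

theorem t573_A00pm_012_s1 : ∃ t, chk3 f_A00pm_012_s1 t 3 21 1 = true := ex3_a t572_A00pm_012_s1 t569_A00pm_012_s1

theorem t574_A00pm_012_s1 : ∃ t, chk3 f_A00pm_012_s1 t 15 10726 1 = true := ex3_b k536_A00pm_012_s1 k537_A00pm_012_s1

theorem t575_A00pm_012_s1 : ∃ t, chk3 f_A00pm_012_s1 t 15 5363 1 = true := ex3_b t574_A00pm_012_s1 k538_A00pm_012_s1

theorem t576_A00pm_012_s1 : ∃ t, chk3 f_A00pm_012_s1 t 15 5362 1 = true := ex3_a k534_A00pm_012_s1 k535_A00pm_012_s1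

theorem t577_A00pm_012_s1 : ∃ t, chk3 f_A00pm_012_s1 t 15 2681 1 = true := ex3_b t576_A00pm_012_s1 t575_A00pm_012_s1

theorem t578_A00pm_012_s1 : ∃ t, chk3 f_A00pm_012_s1 t 31 2680 1 = true := ex3_a k532_A00pm_012_s1 k533_A00pm_012_s1

theorem t579_A00pm_012_s1 : ∃ t, chk3 f_A00pm_012_s1 t 15 2680 1 = true := ex3_a k531_A00pm_012_s1 t578_A00pm_012_s1

theorem t580_A00pm_012_s1 : ∃ t, chk3 f_A00pm_012_s1 t 15 1340 1 = true := ex3_b t579_A00pm_012_s1 t577_A00pm_012_s1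

theorem t581_A00pm_012_s1 : ∃ t, chk3 f_A00pm_012_s1 t 15 670 1 = true := ex3_b t580_A00pm_012_s1 k539_A00pm_012_s1

theorem t582_A00pm_012_s1 : ∃ t, chk3 f_A00pm_012_s1 t 15 335 1 = true := ex3_b t581_A00pm_012_s1 k540_A00pm_012_s1

theorem t583_A00pm_012_s1 : ∃ t, chk3 f_A00pm_012_s1 t 63 669 1 = true := ex3_a k529_A00pm_012_s1 k530_A00pm_012_s1

theorem t584_A00pm_012_s1 : ∃ t, chk3 f_A00pm_012_s1 t 249 669 2 = true := ex3_c k525_A00pm_012_s1 k526_A00pm_012_s1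

theorem t585_A00pm_012_s1 : ∃ t, chk3 f_A00pm_012_s1 t 124 669 2 = true := ex3_a k524_A00pm_012_s1 t584_A00pm_012_s1

theorem t586_A00pm_012_s1 : ∃ t, chk3 f_A00pm_012_s1 t 62 669 2 = true := ex3_a t585_A00pm_012_s1 k527_A00pm_012_s1

theorem t587_A00pm_012_s1 : ∃ t, chk3 f_A00pm_012_s1 t 62 669 1 = true := ex3_c t586_A00pm_012_s1 k528_A00pm_012_s1

theorem t588_A00pm_012_s1 : ∃ t, chk3 f_A00pm_012_s1 t 31 669 1 = true := ex3_a t587_A00pm_012_s1 t583_A00pm_012_s1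

theorem t589_A00pm_012_s1 : ∃ t, chk3 f_A00pm_012_s1 t 31 668 1 = true := ex3_a k522_A00pm_012_s1 k523_A00pm_012_s1

theorem t590_A00pm_012_s1 : ∃ t, chk3 f_A00pm_012_s1 t 31 334 1 = true := ex3_b t589_A00pm_012_s1 t588_A00pm_012_s1

theorem t591_A00pm_012_s1 : ∃ t, chk3 f_A00pm_012_s1 t 15 334 1 = true := ex3_a k521_A00pm_012_s1 t590_A00pm_012_s1

theorem t592_A00pm_012_s1 : ∃ t, chk3 f_A00pm_012_s1 t 15 167 1 = true := ex3_b t591_A00pm_012_s1 t582_A00pm_012_s1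

theorem t593_A00pm_012_s1 : ∃ t, chk3 f_A00pm_012_s1 t 31 333 1 = true := ex3_a k519_A00pm_012_s1 k520_A00pm_012_s1

theorem t594_A00pm_012_s1 : ∃ t, chk3 f_A00pm_012_s1 t 31 332 1 = true := ex3_a k517_A00pm_012_s1 k518_A00pm_012_s1

theorem t595_A00pm_012_s1 : ∃ t, chk3 f_A00pm_012_s1 t 31 166 1 = true := ex3_b t594_A00pm_012_s1 t593_A00pm_012_s1

theorem t596_A00pm_012_s1 : ∃ t, chk3 f_A00pm_012_s1 t 60 332 1 = true := ex3_b k513_A00pm_012_s1 k514_A00pm_012_s1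

theorem t597_A00pm_012_s1 : ∃ t, chk3 f_A00pm_012_s1 t 30 332 1 = true := ex3_a t596_A00pm_012_s1 k515_A00pm_012_s1

theorem t598_A00pm_012_s1 : ∃ t, chk3 f_A00pm_012_s1 t 30 166 1 = true := ex3_b t597_A00pm_012_s1 k516_A00pm_012_s1

theorem t599_A00pm_012_s1 : ∃ t, chk3 f_A00pm_012_s1 t 15 166 1 = true := ex3_a t598_A00pm_012_s1 t595_A00pm_012_s1

theorem t600_A00pm_012_s1 : ∃ t, chk3 f_A00pm_012_s1 t 15 83 1 = true := ex3_b t599_A00pm_012_s1 t592_A00pm_012_s1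

theorem t601_A00pm_012_s1 : ∃ t, chk3 f_A00pm_012_s1 t 58 21453 1 = true := ex3_c k507_A00pm_012_s1 k508_A00pm_012_s1

theorem t602_A00pm_012_s1 : ∃ t, chk3 f_A00pm_012_s1 t 29 21453 1 = true := ex3_a t601_A00pm_012_s1 k509_A00pm_012_s1

theorem t603_A00pm_012_s1 : ∃ t, chk3 f_A00pm_012_s1 t 29 10726 1 = true := ex3_b k506_A00pm_012_s1 t602_A00pm_012_s1

theorem t604_A00pm_012_s1 : ∃ t, chk3 f_A00pm_012_s1 t 29 5363 1 = true := ex3_b t603_A00pm_012_s1 k510_A00pm_012_s1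

theorem t605_A00pm_012_s1 : ∃ t, chk3 f_A00pm_012_s1 t 29 2681 1 = true := ex3_b k505_A00pm_012_s1 t604_A00pm_012_s1

theorem t606_A00pm_012_s1 : ∃ t, chk3 f_A00pm_012_s1 t 29 1340 1 = true := ex3_b k504_A00pm_012_s1 t605_A00pm_012_s1

theorem t607_A00pm_012_s1 : ∃ t, chk3 f_A00pm_012_s1 t 29 670 1 = true := ex3_b t606_A00pm_012_s1 k511_A00pm_012_s1

theorem t608_A00pm_012_s1 : ∃ t, chk3 f_A00pm_012_s1 t 29 335 1 = true := ex3_b t607_A00pm_012_s1 k512_A00pm_012_s1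

theorem t609_A00pm_012_s1 : ∃ t, chk3 f_A00pm_012_s1 t 29 334 1 = true := ex3_a k502_A00pm_012_s1 k503_A00pm_012_s1

theorem t610_A00pm_012_s1 : ∃ t, chk3 f_A00pm_012_s1 t 29 167 1 = true := ex3_b t609_A00pm_012_s1 t608_A00pm_012_s1

theorem t611_A00pm_012_s1 : ∃ t, chk3 f_A00pm_012_s1 t 28 670 1 = true := ex3_b k499_A00pm_012_s1 k500_A00pm_012_s1

theorem t612_A00pm_012_s1 : ∃ t, chk3 f_A00pm_012_s1 t 28 335 1 = true := ex3_b t611_A00pm_012_s1 k501_A00pm_012_s1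

theorem t613_A00pm_012_s1 : ∃ t, chk3 f_A00pm_012_s1 t 28 167 1 = true := ex3_b k498_A00pm_012_s1 t612_A00pm_012_s1

theorem t614_A00pm_012_s1 : ∃ t, chk3 f_A00pm_012_s1 t 14 167 1 = true := ex3_a t613_A00pm_012_s1 t610_A00pm_012_s1

theorem t615_A00pm_012_s1 : ∃ t, chk3 f_A00pm_012_s1 t 56 332 1 = true := ex3_a k493_A00pm_012_s1 k494_A00pm_012_s1

theorem t616_A00pm_012_s1 : ∃ t, chk3 f_A00pm_012_s1 t 56 166 1 = true := ex3_b t615_A00pm_012_s1 k495_A00pm_012_s1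

theorem t617_A00pm_012_s1 : ∃ t, chk3 f_A00pm_012_s1 t 28 166 1 = true := ex3_a t616_A00pm_012_s1 k496_A00pm_012_s1

theorem t618_A00pm_012_s1 : ∃ t, chk3 f_A00pm_012_s1 t 14 166 1 = true := ex3_a t617_A00pm_012_s1 k497_A00pm_012_s1

theorem t619_A00pm_012_s1 : ∃ t, chk3 f_A00pm_012_s1 t 14 83 1 = true := ex3_b t618_A00pm_012_s1 t614_A00pm_012_s1

theorem t620_A00pm_012_s1 : ∃ t, chk3 f_A00pm_012_s1 t 7 83 1 = true := ex3_a t619_A00pm_012_s1 t600_A00pm_012_s1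

theorem t621_A00pm_012_s1 : ∃ t, chk3 f_A00pm_012_s1 t 61 662 1 = true := ex3_a k489_A00pm_012_s1 k490_A00pm_012_s1

theorem t622_A00pm_012_s1 : ∃ t, chk3 f_A00pm_012_s1 t 61 331 1 = true := ex3_b t621_A00pm_012_s1 k491_A00pm_012_s1

theorem t623_A00pm_012_s1 : ∃ t, chk3 f_A00pm_012_s1 t 30 331 1 = true := ex3_a k488_A00pm_012_s1 t622_A00pm_012_s1

theorem t624_A00pm_012_s1 : ∃ t, chk3 f_A00pm_012_s1 t 15 331 1 = true := ex3_a t623_A00pm_012_s1 k492_A00pm_012_s1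

theorem t625_A00pm_012_s1 : ∃ t, chk3 f_A00pm_012_s1 t 60 660 1 = true := ex3_c k483_A00pm_012_s1 k484_A00pm_012_s1

theorem t626_A00pm_012_s1 : ∃ t, chk3 f_A00pm_012_s1 t 60 330 1 = true := ex3_b t625_A00pm_012_s1 k485_A00pm_012_s1

theorem t627_A00pm_012_s1 : ∃ t, chk3 f_A00pm_012_s1 t 30 330 1 = true := ex3_a t626_A00pm_012_s1 k486_A00pm_012_s1

theorem t628_A00pm_012_s1 : ∃ t, chk3 f_A00pm_012_s1 t 15 330 1 = true := ex3_a t627_A00pm_012_s1 k487_A00pm_012_s1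

theorem t629_A00pm_012_s1 : ∃ t, chk3 f_A00pm_012_s1 t 15 165 1 = true := ex3_b t628_A00pm_012_s1 t624_A00pm_012_s1

theorem t630_A00pm_012_s1 : ∃ t, chk3 f_A00pm_012_s1 t 15 82 1 = true := ex3_b k482_A00pm_012_s1 t629_A00pm_012_s1

theorem t631_A00pm_012_s1 : ∃ t, chk3 f_A00pm_012_s1 t 29 165 1 = true := ex3_a k480_A00pm_012_s1 k481_A00pm_012_s1

theorem t632_A00pm_012_s1 : ∃ t, chk3 f_A00pm_012_s1 t 59 329 1 = true := ex3_a k478_A00pm_012_s1 k479_A00pm_012_s1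

theorem t633_A00pm_012_s1 : ∃ t, chk3 f_A00pm_012_s1 t 59 164 1 = true := ex3_b k477_A00pm_012_s1 t632_A00pm_012_s1

theorem t634_A00pm_012_s1 : ∃ t, chk3 f_A00pm_012_s1 t 58 164 1 = true := ex3_b k475_A00pm_012_s1 k476_A00pm_012_s1

theorem t635_A00pm_012_s1 : ∃ t, chk3 f_A00pm_012_s1 t 29 164 1 = true := ex3_a t634_A00pm_012_s1 t633_A00pm_012_s1

theorem t636_A00pm_012_s1 : ∃ t, chk3 f_A00pm_012_s1 t 29 82 1 = true := ex3_b t635_A00pm_012_s1 t631_A00pm_012_s1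

theorem t637_A00pm_012_s1 : ∃ t, chk3 f_A00pm_012_s1 t 229 657 1 = true := ex3_b k470_A00pm_012_s1 k471_A00pm_012_s1

theorem t638_A00pm_012_s1 : ∃ t, chk3 f_A00pm_012_s1 t 114 657 1 = true := ex3_a k469_A00pm_012_s1 t637_A00pm_012_s1

theorem t639_A00pm_012_s1 : ∃ t, chk3 f_A00pm_012_s1 t 228 1313 1 = true := ex3_a k466_A00pm_012_s1 k467_A00pm_012_s1

theorem t640_A00pm_012_s1 : ∃ t, chk3 f_A00pm_012_s1 t 114 1313 1 = true := ex3_a t639_A00pm_012_s1 k468_A00pm_012_s1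

theorem t641_A00pm_012_s1 : ∃ t, chk3 f_A00pm_012_s1 t 114 656 1 = true := ex3_b k465_A00pm_012_s1 t640_A00pm_012_s1

theorem t642_A00pm_012_s1 : ∃ t, chk3 f_A00pm_012_s1 t 114 328 1 = true := ex3_b t641_A00pm_012_s1 t638_A00pm_012_s1

theorem t643_A00pm_012_s1 : ∃ t, chk3 f_A00pm_012_s1 t 57 328 1 = true := ex3_a t642_A00pm_012_s1 k472_A00pm_012_s1

theorem t644_A00pm_012_s1 : ∃ t, chk3 f_A00pm_012_s1 t 57 164 1 = true := ex3_b t643_A00pm_012_s1 k473_A00pm_012_s1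

theorem t645_A00pm_012_s1 : ∃ t, chk3 f_A00pm_012_s1 t 28 164 1 = true := ex3_a k464_A00pm_012_s1 t644_A00pm_012_s1

theorem t646_A00pm_012_s1 : ∃ t, chk3 f_A00pm_012_s1 t 28 82 1 = true := ex3_b t645_A00pm_012_s1 k474_A00pm_012_s1

theorem t647_A00pm_012_s1 : ∃ t, chk3 f_A00pm_012_s1 t 14 82 1 = true := ex3_a t646_A00pm_012_s1 t636_A00pm_012_s1

theorem t648_A00pm_012_s1 : ∃ t, chk3 f_A00pm_012_s1 t 7 82 1 = true := ex3_a t647_A00pm_012_s1 t630_A00pm_012_s1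

theorem t649_A00pm_012_s1 : ∃ t, chk3 f_A00pm_012_s1 t 7 41 1 = true := ex3_b t648_A00pm_012_s1 t620_A00pm_012_s1

theorem t650_A00pm_012_s1 : ∃ t, chk3 f_A00pm_012_s1 t 26 2681 1 = true := ex3_b k459_A00pm_012_s1 k460_A00pm_012_s1

theorem t651_A00pm_012_s1 : ∃ t, chk3 f_A00pm_012_s1 t 26 1340 1 = true := ex3_b k458_A00pm_012_s1 t650_A00pm_012_s1

theorem t652_A00pm_012_s1 : ∃ t, chk3 f_A00pm_012_s1 t 26 670 1 = true := ex3_b t651_A00pm_012_s1 k461_A00pm_012_s1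

theorem t653_A00pm_012_s1 : ∃ t, chk3 f_A00pm_012_s1 t 26 335 1 = true := ex3_b t652_A00pm_012_s1 k462_A00pm_012_s1

theorem t654_A00pm_012_s1 : ∃ t, chk3 f_A00pm_012_s1 t 26 167 1 = true := ex3_b k457_A00pm_012_s1 t653_A00pm_012_s1

theorem t655_A00pm_012_s1 : ∃ t, chk3 f_A00pm_012_s1 t 13 167 1 = true := ex3_a t654_A00pm_012_s1 k463_A00pm_012_s1

theorem t656_A00pm_012_s1 : ∃ t, chk3 f_A00pm_012_s1 t 13 83 1 = true := ex3_b k456_A00pm_012_s1 t655_A00pm_012_s1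

theorem t657_A00pm_012_s1 : ∃ t, chk3 f_A00pm_012_s1 t 55 331 1 = true := ex3_b k454_A00pm_012_s1 k455_A00pm_012_s1

theorem t658_A00pm_012_s1 : ∃ t, chk3 f_A00pm_012_s1 t 55 165 1 = true := ex3_b k453_A00pm_012_s1 t657_A00pm_012_s1

theorem t659_A00pm_012_s1 : ∃ t, chk3 f_A00pm_012_s1 t 27 165 1 = true := ex3_a k452_A00pm_012_s1 t658_A00pm_012_s1

theorem t660_A00pm_012_s1 : ∃ t, chk3 f_A00pm_012_s1 t 54 164 1 = true := ex3_b k449_A00pm_012_s1 k450_A00pm_012_s1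

theorem t661_A00pm_012_s1 : ∃ t, chk3 f_A00pm_012_s1 t 27 164 1 = true := ex3_a t660_A00pm_012_s1 k451_A00pm_012_s1

theorem t662_A00pm_012_s1 : ∃ t, chk3 f_A00pm_012_s1 t 27 82 1 = true := ex3_b t661_A00pm_012_s1 t659_A00pm_012_s1

theorem t663_A00pm_012_s1 : ∃ t, chk3 f_A00pm_012_s1 t 26 164 1 = true := ex3_a k446_A00pm_012_s1 k447_A00pm_012_s1

theorem t664_A00pm_012_s1 : ∃ t, chk3 f_A00pm_012_s1 t 26 82 1 = true := ex3_b t663_A00pm_012_s1 k448_A00pm_012_s1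

theorem t665_A00pm_012_s1 : ∃ t, chk3 f_A00pm_012_s1 t 13 82 1 = true := ex3_a t664_A00pm_012_s1 t662_A00pm_012_s1

theorem t666_A00pm_012_s1 : ∃ t, chk3 f_A00pm_012_s1 t 13 41 1 = true := ex3_b t665_A00pm_012_s1 t656_A00pm_012_s1

theorem t667_A00pm_012_s1 : ∃ t, chk3 f_A00pm_012_s1 t 24 167 1 = true := ex3_b k443_A00pm_012_s1 k444_A00pm_012_s1

theorem t668_A00pm_012_s1 : ∃ t, chk3 f_A00pm_012_s1 t 12 167 1 = true := ex3_a t667_A00pm_012_s1 k445_A00pm_012_s1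

theorem t669_A00pm_012_s1 : ∃ t, chk3 f_A00pm_012_s1 t 12 83 1 = true := ex3_b k442_A00pm_012_s1 t668_A00pm_012_s1

theorem t670_A00pm_012_s1 : ∃ t, chk3 f_A00pm_012_s1 t 25 82 1 = true := ex3_b k440_A00pm_012_s1 k441_A00pm_012_s1

theorem t671_A00pm_012_s1 : ∃ t, chk3 f_A00pm_012_s1 t 24 82 1 = true := ex3_a k438_A00pm_012_s1 k439_A00pm_012_s1

theorem t672_A00pm_012_s1 : ∃ t, chk3 f_A00pm_012_s1 t 12 82 1 = true := ex3_a t671_A00pm_012_s1 t670_A00pm_012_s1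

theorem t673_A00pm_012_s1 : ∃ t, chk3 f_A00pm_012_s1 t 12 41 1 = true := ex3_b t672_A00pm_012_s1 t669_A00pm_012_s1

theorem t674_A00pm_012_s1 : ∃ t, chk3 f_A00pm_012_s1 t 6 41 1 = true := ex3_a t673_A00pm_012_s1 t666_A00pm_012_s1

theorem t675_A00pm_012_s1 : ∃ t, chk3 f_A00pm_012_s1 t 3 41 1 = true := ex3_a t674_A00pm_012_s1 t649_A00pm_012_s1

theorem t676_A00pm_012_s1 : ∃ t, chk3 f_A00pm_012_s1 t 113 655 1 = true := ex3_c k433_A00pm_012_s1 k434_A00pm_012_s1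

theorem t677_A00pm_012_s1 : ∃ t, chk3 f_A00pm_012_s1 t 113 327 1 = true := ex3_b k432_A00pm_012_s1 t676_A00pm_012_s1

theorem t678_A00pm_012_s1 : ∃ t, chk3 f_A00pm_012_s1 t 56 327 1 = true := ex3_a k431_A00pm_012_s1 t677_A00pm_012_s1

theorem t679_A00pm_012_s1 : ∃ t, chk3 f_A00pm_012_s1 t 28 327 1 = true := ex3_a t678_A00pm_012_s1 k435_A00pm_012_s1

theorem t680_A00pm_012_s1 : ∃ t, chk3 f_A00pm_012_s1 t 57 326 1 = true := ex3_a k429_A00pm_012_s1 k430_A00pm_012_s1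

theorem t681_A00pm_012_s1 : ∃ t, chk3 f_A00pm_012_s1 t 28 326 1 = true := ex3_a k428_A00pm_012_s1 t680_A00pm_012_s1

theorem t682_A00pm_012_s1 : ∃ t, chk3 f_A00pm_012_s1 t 28 163 1 = true := ex3_b t681_A00pm_012_s1 t679_A00pm_012_s1

theorem t683_A00pm_012_s1 : ∃ t, chk3 f_A00pm_012_s1 t 14 163 1 = true := ex3_a t682_A00pm_012_s1 k436_A00pm_012_s1

theorem t684_A00pm_012_s1 : ∃ t, chk3 f_A00pm_012_s1 t 7 163 1 = true := ex3_a t683_A00pm_012_s1 k437_A00pm_012_s1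

theorem t685_A00pm_012_s1 : ∃ t, chk3 f_A00pm_012_s1 t 7 81 1 = true := ex3_b k427_A00pm_012_s1 t684_A00pm_012_s1

theorem t686_A00pm_012_s1 : ∃ t, chk3 f_A00pm_012_s1 t 7 40 1 = true := ex3_b k426_A00pm_012_s1 t685_A00pm_012_s1

theorem t687_A00pm_012_s1 : ∃ t, chk3 f_A00pm_012_s1 t 111 652 1 = true := ex3_a k422_A00pm_012_s1 k423_A00pm_012_s1

theorem t688_A00pm_012_s1 : ∃ t, chk3 f_A00pm_012_s1 t 111 326 1 = true := ex3_b t687_A00pm_012_s1 k424_A00pm_012_s1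

theorem t689_A00pm_012_s1 : ∃ t, chk3 f_A00pm_012_s1 t 111 163 1 = true := ex3_b t688_A00pm_012_s1 k425_A00pm_012_s1

theorem t690_A00pm_012_s1 : ∃ t, chk3 f_A00pm_012_s1 t 55 163 1 = true := ex3_a k421_A00pm_012_s1 t689_A00pm_012_s1

theorem t691_A00pm_012_s1 : ∃ t, chk3 f_A00pm_012_s1 t 27 163 1 = true := ex3_a k420_A00pm_012_s1 t690_A00pm_012_s1

theorem t692_A00pm_012_s1 : ∃ t, chk3 f_A00pm_012_s1 t 110 651 1 = true := ex3_a k417_A00pm_012_s1 k418_A00pm_012_s1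

theorem t693_A00pm_012_s1 : ∃ t, chk3 f_A00pm_012_s1 t 220 650 1 = true := ex3_b k414_A00pm_012_s1 k415_A00pm_012_s1

theorem t694_A00pm_012_s1 : ∃ t, chk3 f_A00pm_012_s1 t 110 650 1 = true := ex3_a t693_A00pm_012_s1 k416_A00pm_012_s1

theorem t695_A00pm_012_s1 : ∃ t, chk3 f_A00pm_012_s1 t 110 325 1 = true := ex3_b t694_A00pm_012_s1 t692_A00pm_012_s1

theorem t696_A00pm_012_s1 : ∃ t, chk3 f_A00pm_012_s1 t 55 325 1 = true := ex3_a t695_A00pm_012_s1 k419_A00pm_012_s1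

theorem t697_A00pm_012_s1 : ∃ t, chk3 f_A00pm_012_s1 t 55 162 1 = true := ex3_b k413_A00pm_012_s1 t696_A00pm_012_s1

theorem t698_A00pm_012_s1 : ∃ t, chk3 f_A00pm_012_s1 t 219 649 1 = true := ex3_b k410_A00pm_012_s1 k411_A00pm_012_s1

theorem t699_A00pm_012_s1 : ∃ t, chk3 f_A00pm_012_s1 t 109 649 1 = true := ex3_a k409_A00pm_012_s1 t698_A00pm_012_s1

theorem t700_A00pm_012_s1 : ∃ t, chk3 f_A00pm_012_s1 t 109 648 1 = true := ex3_b k407_A00pm_012_s1 k408_A00pm_012_s1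

theorem t701_A00pm_012_s1 : ∃ t, chk3 f_A00pm_012_s1 t 109 324 1 = true := ex3_b t700_A00pm_012_s1 t699_A00pm_012_s1

theorem t702_A00pm_012_s1 : ∃ t, chk3 f_A00pm_012_s1 t 54 324 1 = true := ex3_a k406_A00pm_012_s1 t701_A00pm_012_s1

theorem t703_A00pm_012_s1 : ∃ t, chk3 f_A00pm_012_s1 t 54 162 1 = true := ex3_b t702_A00pm_012_s1 k412_A00pm_012_s1

theorem t704_A00pm_012_s1 : ∃ t, chk3 f_A00pm_012_s1 t 27 162 1 = true := ex3_a t703_A00pm_012_s1 t697_A00pm_012_s1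

theorem t705_A00pm_012_s1 : ∃ t, chk3 f_A00pm_012_s1 t 27 81 1 = true := ex3_b t704_A00pm_012_s1 t691_A00pm_012_s1

theorem t706_A00pm_012_s1 : ∃ t, chk3 f_A00pm_012_s1 t 26 163 1 = true := ex3_a k404_A00pm_012_s1 k405_A00pm_012_s1

theorem t707_A00pm_012_s1 : ∃ t, chk3 f_A00pm_012_s1 t 26 81 1 = true := ex3_b k403_A00pm_012_s1 t706_A00pm_012_s1

theorem t708_A00pm_012_s1 : ∃ t, chk3 f_A00pm_012_s1 t 13 81 1 = true := ex3_a t707_A00pm_012_s1 t705_A00pm_012_s1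

theorem t709_A00pm_012_s1 : ∃ t, chk3 f_A00pm_012_s1 t 108 647 1 = true := ex3_a k399_A00pm_012_s1 k400_A00pm_012_s1

theorem t710_A00pm_012_s1 : ∃ t, chk3 f_A00pm_012_s1 t 108 323 1 = true := ex3_b k398_A00pm_012_s1 t709_A00pm_012_s1

theorem t711_A00pm_012_s1 : ∃ t, chk3 f_A00pm_012_s1 t 54 323 1 = true := ex3_a t710_A00pm_012_s1 k401_A00pm_012_s1

theorem t712_A00pm_012_s1 : ∃ t, chk3 f_A00pm_012_s1 t 54 161 1 = true := ex3_b k397_A00pm_012_s1 t711_A00pm_012_s1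

theorem t713_A00pm_012_s1 : ∃ t, chk3 f_A00pm_012_s1 t 27 161 1 = true := ex3_a t712_A00pm_012_s1 k402_A00pm_012_s1

theorem t714_A00pm_012_s1 : ∃ t, chk3 f_A00pm_012_s1 t 27 80 1 = true := ex3_b k396_A00pm_012_s1 t713_A00pm_012_s1

theorem t715_A00pm_012_s1 : ∃ t, chk3 f_A00pm_012_s1 t 53 323 1 = true := ex3_a k394_A00pm_012_s1 k395_A00pm_012_s1

theorem t716_A00pm_012_s1 : ∃ t, chk3 f_A00pm_012_s1 t 53 322 1 = true := ex3_a k392_A00pm_012_s1 k393_A00pm_012_s1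

theorem t717_A00pm_012_s1 : ∃ t, chk3 f_A00pm_012_s1 t 53 161 1 = true := ex3_b t716_A00pm_012_s1 t715_A00pm_012_s1

theorem t718_A00pm_012_s1 : ∃ t, chk3 f_A00pm_012_s1 t 26 161 1 = true := ex3_a k391_A00pm_012_s1 t717_A00pm_012_s1

theorem t719_A00pm_012_s1 : ∃ t, chk3 f_A00pm_012_s1 t 52 160 1 = true := ex3_a k388_A00pm_012_s1 k389_A00pm_012_s1

theorem t720_A00pm_012_s1 : ∃ t, chk3 f_A00pm_012_s1 t 26 160 1 = true := ex3_a t719_A00pm_012_s1 k390_A00pm_012_s1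

theorem t721_A00pm_012_s1 : ∃ t, chk3 f_A00pm_012_s1 t 26 80 1 = true := ex3_b t720_A00pm_012_s1 t718_A00pm_012_s1

theorem t722_A00pm_012_s1 : ∃ t, chk3 f_A00pm_012_s1 t 13 80 1 = true := ex3_a t721_A00pm_012_s1 t714_A00pm_012_s1

theorem t723_A00pm_012_s1 : ∃ t, chk3 f_A00pm_012_s1 t 13 40 1 = true := ex3_b t722_A00pm_012_s1 t708_A00pm_012_s1

theorem t724_A00pm_012_s1 : ∃ t, chk3 f_A00pm_012_s1 t 51 81 1 = true := ex3_b k386_A00pm_012_s1 k387_A00pm_012_s1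

theorem t725_A00pm_012_s1 : ∃ t, chk3 f_A00pm_012_s1 t 50 81 1 = true := ex3_b k384_A00pm_012_s1 k385_A00pm_012_s1

theorem t726_A00pm_012_s1 : ∃ t, chk3 f_A00pm_012_s1 t 25 81 1 = true := ex3_a t725_A00pm_012_s1 t724_A00pm_012_s1

theorem t727_A00pm_012_s1 : ∃ t, chk3 f_A00pm_012_s1 t 51 80 1 = true := ex3_b k382_A00pm_012_s1 k383_A00pm_012_s1

theorem t728_A00pm_012_s1 : ∃ t, chk3 f_A00pm_012_s1 t 50 80 1 = true := ex3_b k380_A00pm_012_s1 k381_A00pm_012_s1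

theorem t729_A00pm_012_s1 : ∃ t, chk3 f_A00pm_012_s1 t 25 80 1 = true := ex3_a t728_A00pm_012_s1 t727_A00pm_012_s1

theorem t730_A00pm_012_s1 : ∃ t, chk3 f_A00pm_012_s1 t 25 40 1 = true := ex3_b t729_A00pm_012_s1 t726_A00pm_012_s1

theorem t731_A00pm_012_s1 : ∃ t, chk3 f_A00pm_012_s1 t 48 81 1 = true := ex3_b k377_A00pm_012_s1 k378_A00pm_012_s1

theorem t732_A00pm_012_s1 : ∃ t, chk3 f_A00pm_012_s1 t 24 81 1 = true := ex3_a t731_A00pm_012_s1 k379_A00pm_012_s1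

theorem t733_A00pm_012_s1 : ∃ t, chk3 f_A00pm_012_s1 t 49 80 1 = true := ex3_b k375_A00pm_012_s1 k376_A00pm_012_s1

theorem t734_A00pm_012_s1 : ∃ t, chk3 f_A00pm_012_s1 t 24 80 1 = true := ex3_a k374_A00pm_012_s1 t733_A00pm_012_s1

theorem t735_A00pm_012_s1 : ∃ t, chk3 f_A00pm_012_s1 t 24 40 1 = true := ex3_b t734_A00pm_012_s1 t732_A00pm_012_s1

theorem t736_A00pm_012_s1 : ∃ t, chk3 f_A00pm_012_s1 t 12 40 1 = true := ex3_a t735_A00pm_012_s1 t730_A00pm_012_s1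

theorem t737_A00pm_012_s1 : ∃ t, chk3 f_A00pm_012_s1 t 6 40 1 = true := ex3_a t736_A00pm_012_s1 t723_A00pm_012_s1

theorem t738_A00pm_012_s1 : ∃ t, chk3 f_A00pm_012_s1 t 3 40 1 = true := ex3_a t737_A00pm_012_s1 t686_A00pm_012_s1

theorem t739_A00pm_012_s1 : ∃ t, chk3 f_A00pm_012_s1 t 3 20 1 = true := ex3_b t738_A00pm_012_s1 t675_A00pm_012_s1

theorem t740_A00pm_012_s1 : ∃ t, chk3 f_A00pm_012_s1 t 3 10 1 = true := ex3_b t739_A00pm_012_s1 t573_A00pm_012_s1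

theorem t741_A00pm_012_s1 : ∃ t, chk3 f_A00pm_012_s1 t 3 5 1 = true := ex3_b t740_A00pm_012_s1 t568_A00pm_012_s1

theorem t742_A00pm_012_s1 : ∃ t, chk3 f_A00pm_012_s1 t 26 159 1 = true := ex3_a k370_A00pm_012_s1 k371_A00pm_012_s1

theorem t743_A00pm_012_s1 : ∃ t, chk3 f_A00pm_012_s1 t 26 79 1 = true := ex3_b k369_A00pm_012_s1 t742_A00pm_012_s1

theorem t744_A00pm_012_s1 : ∃ t, chk3 f_A00pm_012_s1 t 13 79 1 = true := ex3_a t743_A00pm_012_s1 k372_A00pm_012_s1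

theorem t745_A00pm_012_s1 : ∃ t, chk3 f_A00pm_012_s1 t 13 39 1 = true := ex3_b k368_A00pm_012_s1 t744_A00pm_012_s1

theorem t746_A00pm_012_s1 : ∃ t, chk3 f_A00pm_012_s1 t 13 19 1 = true := ex3_b k367_A00pm_012_s1 t745_A00pm_012_s1

theorem t747_A00pm_012_s1 : ∃ t, chk3 f_A00pm_012_s1 t 13 9 1 = true := ex3_b k366_A00pm_012_s1 t746_A00pm_012_s1

theorem t748_A00pm_012_s1 : ∃ t, chk3 f_A00pm_012_s1 t 103 159 1 = true := ex3_b k364_A00pm_012_s1 k365_A00pm_012_s1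

theorem t749_A00pm_012_s1 : ∃ t, chk3 f_A00pm_012_s1 t 102 159 1 = true := ex3_b k362_A00pm_012_s1 k363_A00pm_012_s1

theorem t750_A00pm_012_s1 : ∃ t, chk3 f_A00pm_012_s1 t 51 159 1 = true := ex3_a t749_A00pm_012_s1 t748_A00pm_012_s1

theorem t751_A00pm_012_s1 : ∃ t, chk3 f_A00pm_012_s1 t 102 317 1 = true := ex3_a k359_A00pm_012_s1 k360_A00pm_012_s1

theorem t752_A00pm_012_s1 : ∃ t, chk3 f_A00pm_012_s1 t 102 158 1 = true := ex3_b k358_A00pm_012_s1 t751_A00pm_012_s1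

theorem t753_A00pm_012_s1 : ∃ t, chk3 f_A00pm_012_s1 t 51 158 1 = true := ex3_a t752_A00pm_012_s1 k361_A00pm_012_s1

theorem t754_A00pm_012_s1 : ∃ t, chk3 f_A00pm_012_s1 t 51 79 1 = true := ex3_b t753_A00pm_012_s1 t750_A00pm_012_s1

theorem t755_A00pm_012_s1 : ∃ t, chk3 f_A00pm_012_s1 t 202 316 1 = true := ex3_b k353_A00pm_012_s1 k354_A00pm_012_s1

theorem t756_A00pm_012_s1 : ∃ t, chk3 f_A00pm_012_s1 t 101 316 1 = true := ex3_a t755_A00pm_012_s1 k355_A00pm_012_s1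

theorem t757_A00pm_012_s1 : ∃ t, chk3 f_A00pm_012_s1 t 101 158 1 = true := ex3_b t756_A00pm_012_s1 k356_A00pm_012_s1

theorem t758_A00pm_012_s1 : ∃ t, chk3 f_A00pm_012_s1 t 50 158 1 = true := ex3_a k352_A00pm_012_s1 t757_A00pm_012_s1

theorem t759_A00pm_012_s1 : ∃ t, chk3 f_A00pm_012_s1 t 50 79 1 = true := ex3_b t758_A00pm_012_s1 k357_A00pm_012_s1

theorem t760_A00pm_012_s1 : ∃ t, chk3 f_A00pm_012_s1 t 25 79 1 = true := ex3_a t759_A00pm_012_s1 t754_A00pm_012_s1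

theorem t761_A00pm_012_s1 : ∃ t, chk3 f_A00pm_012_s1 t 50 157 1 = true := ex3_b k349_A00pm_012_s1 k350_A00pm_012_s1

theorem t762_A00pm_012_s1 : ∃ t, chk3 f_A00pm_012_s1 t 50 78 1 = true := ex3_b k348_A00pm_012_s1 t761_A00pm_012_s1

theorem t763_A00pm_012_s1 : ∃ t, chk3 f_A00pm_012_s1 t 25 78 1 = true := ex3_a t762_A00pm_012_s1 k351_A00pm_012_s1

theorem t764_A00pm_012_s1 : ∃ t, chk3 f_A00pm_012_s1 t 25 39 1 = true := ex3_b t763_A00pm_012_s1 t760_A00pm_012_s1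

theorem t765_A00pm_012_s1 : ∃ t, chk3 f_A00pm_012_s1 t 49 159 1 = true := ex3_a k346_A00pm_012_s1 k347_A00pm_012_s1

theorem t766_A00pm_012_s1 : ∃ t, chk3 f_A00pm_012_s1 t 49 79 1 = true := ex3_b k345_A00pm_012_s1 t765_A00pm_012_s1

theorem t767_A00pm_012_s1 : ∃ t, chk3 f_A00pm_012_s1 t 48 158 1 = true := ex3_a k342_A00pm_012_s1 k343_A00pm_012_s1

theorem t768_A00pm_012_s1 : ∃ t, chk3 f_A00pm_012_s1 t 48 79 1 = true := ex3_b t767_A00pm_012_s1 k344_A00pm_012_s1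

theorem t769_A00pm_012_s1 : ∃ t, chk3 f_A00pm_012_s1 t 24 79 1 = true := ex3_a t768_A00pm_012_s1 t766_A00pm_012_s1

theorem t770_A00pm_012_s1 : ∃ t, chk3 f_A00pm_012_s1 t 49 157 1 = true := ex3_a k340_A00pm_012_s1 k341_A00pm_012_s1

theorem t771_A00pm_012_s1 : ∃ t, chk3 f_A00pm_012_s1 t 49 78 1 = true := ex3_b k339_A00pm_012_s1 t770_A00pm_012_s1

theorem t772_A00pm_012_s1 : ∃ t, chk3 f_A00pm_012_s1 t 48 156 1 = true := ex3_a k336_A00pm_012_s1 k337_A00pm_012_s1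

theorem t773_A00pm_012_s1 : ∃ t, chk3 f_A00pm_012_s1 t 48 78 1 = true := ex3_b t772_A00pm_012_s1 k338_A00pm_012_s1

theorem t774_A00pm_012_s1 : ∃ t, chk3 f_A00pm_012_s1 t 24 78 1 = true := ex3_a t773_A00pm_012_s1 t771_A00pm_012_s1

theorem t775_A00pm_012_s1 : ∃ t, chk3 f_A00pm_012_s1 t 24 39 1 = true := ex3_b t774_A00pm_012_s1 t769_A00pm_012_s1

theorem t776_A00pm_012_s1 : ∃ t, chk3 f_A00pm_012_s1 t 12 39 1 = true := ex3_a t775_A00pm_012_s1 t764_A00pm_012_s1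

theorem t777_A00pm_012_s1 : ∃ t, chk3 f_A00pm_012_s1 t 96 155 1 = true := ex3_b k331_A00pm_012_s1 k332_A00pm_012_s1

theorem t778_A00pm_012_s1 : ∃ t, chk3 f_A00pm_012_s1 t 48 155 1 = true := ex3_a t777_A00pm_012_s1 k333_A00pm_012_s1

theorem t779_A00pm_012_s1 : ∃ t, chk3 f_A00pm_012_s1 t 48 77 1 = true := ex3_b k330_A00pm_012_s1 t778_A00pm_012_s1

theorem t780_A00pm_012_s1 : ∃ t, chk3 f_A00pm_012_s1 t 24 77 1 = true := ex3_a t779_A00pm_012_s1 k334_A00pm_012_s1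

theorem t781_A00pm_012_s1 : ∃ t, chk3 f_A00pm_012_s1 t 24 38 1 = true := ex3_b k329_A00pm_012_s1 t780_A00pm_012_s1

theorem t782_A00pm_012_s1 : ∃ t, chk3 f_A00pm_012_s1 t 12 38 1 = true := ex3_a t781_A00pm_012_s1 k335_A00pm_012_s1

theorem t783_A00pm_012_s1 : ∃ t, chk3 f_A00pm_012_s1 t 12 19 1 = true := ex3_b t782_A00pm_012_s1 t776_A00pm_012_s1

theorem t784_A00pm_012_s1 : ∃ t, chk3 f_A00pm_012_s1 t 12 9 1 = true := ex3_b k328_A00pm_012_s1 t783_A00pm_012_s1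

theorem t785_A00pm_012_s1 : ∃ t, chk3 f_A00pm_012_s1 t 6 9 1 = true := ex3_a t784_A00pm_012_s1 t747_A00pm_012_s1

theorem t786_A00pm_012_s1 : ∃ t, chk3 f_A00pm_012_s1 t 3 9 1 = true := ex3_a t785_A00pm_012_s1 k373_A00pm_012_s1

theorem t787_A00pm_012_s1 : ∃ t, chk3 f_A00pm_012_s1 t 3 4 1 = true := ex3_b k327_A00pm_012_s1 t786_A00pm_012_s1

theorem t788_A00pm_012_s1 : ∃ t, chk3 f_A00pm_012_s1 t 3 2 1 = true := ex3_b t787_A00pm_012_s1 t741_A00pm_012_s1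

theorem t789_A00pm_012_s1 : ∃ t, chk3 f_A00pm_012_s1 t 5 21 1 = true := ex3_a k324_A00pm_012_s1 k325_A00pm_012_s1

theorem t790_A00pm_012_s1 : ∃ t, chk3 f_A00pm_012_s1 t 11 670 1 = true := ex3_b k321_A00pm_012_s1 k322_A00pm_012_s1

theorem t791_A00pm_012_s1 : ∃ t, chk3 f_A00pm_012_s1 t 11 335 1 = true := ex3_b t790_A00pm_012_s1 k323_A00pm_012_s1

theorem t792_A00pm_012_s1 : ∃ t, chk3 f_A00pm_012_s1 t 11 167 1 = true := ex3_b k320_A00pm_012_s1 t791_A00pm_012_s1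

theorem t793_A00pm_012_s1 : ∃ t, chk3 f_A00pm_012_s1 t 11 83 1 = true := ex3_b k319_A00pm_012_s1 t792_A00pm_012_s1

theorem t794_A00pm_012_s1 : ∃ t, chk3 f_A00pm_012_s1 t 11 41 1 = true := ex3_b k318_A00pm_012_s1 t793_A00pm_012_s1

theorem t795_A00pm_012_s1 : ∃ t, chk3 f_A00pm_012_s1 t 10 41 1 = true := ex3_b k316_A00pm_012_s1 k317_A00pm_012_s1

theorem t796_A00pm_012_s1 : ∃ t, chk3 f_A00pm_012_s1 t 5 41 1 = true := ex3_a t795_A00pm_012_s1 t794_A00pm_012_s1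

theorem t797_A00pm_012_s1 : ∃ t, chk3 f_A00pm_012_s1 t 95 162 1 = true := ex3_b k313_A00pm_012_s1 k314_A00pm_012_s1

theorem t798_A00pm_012_s1 : ∃ t, chk3 f_A00pm_012_s1 t 47 162 1 = true := ex3_a k312_A00pm_012_s1 t797_A00pm_012_s1

theorem t799_A00pm_012_s1 : ∃ t, chk3 f_A00pm_012_s1 t 47 81 1 = true := ex3_b t798_A00pm_012_s1 k315_A00pm_012_s1

theorem t800_A00pm_012_s1 : ∃ t, chk3 f_A00pm_012_s1 t 23 81 1 = true := ex3_a k311_A00pm_012_s1 t799_A00pm_012_s1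

theorem t801_A00pm_012_s1 : ∃ t, chk3 f_A00pm_012_s1 t 47 80 1 = true := ex3_b k309_A00pm_012_s1 k310_A00pm_012_s1

theorem t802_A00pm_012_s1 : ∃ t, chk3 f_A00pm_012_s1 t 46 80 1 = true := ex3_b k307_A00pm_012_s1 k308_A00pm_012_s1

theorem t803_A00pm_012_s1 : ∃ t, chk3 f_A00pm_012_s1 t 23 80 1 = true := ex3_a t802_A00pm_012_s1 t801_A00pm_012_s1

theorem t804_A00pm_012_s1 : ∃ t, chk3 f_A00pm_012_s1 t 23 40 1 = true := ex3_b t803_A00pm_012_s1 t800_A00pm_012_s1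

theorem t805_A00pm_012_s1 : ∃ t, chk3 f_A00pm_012_s1 t 11 40 1 = true := ex3_a k306_A00pm_012_s1 t804_A00pm_012_s1

theorem t806_A00pm_012_s1 : ∃ t, chk3 f_A00pm_012_s1 t 5 40 1 = true := ex3_a k305_A00pm_012_s1 t805_A00pm_012_s1

theorem t807_A00pm_012_s1 : ∃ t, chk3 f_A00pm_012_s1 t 5 20 1 = true := ex3_b t806_A00pm_012_s1 t796_A00pm_012_s1

theorem t808_A00pm_012_s1 : ∃ t, chk3 f_A00pm_012_s1 t 5 10 1 = true := ex3_b t807_A00pm_012_s1 t789_A00pm_012_s1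

theorem t809_A00pm_012_s1 : ∃ t, chk3 f_A00pm_012_s1 t 5 5 1 = true := ex3_b t808_A00pm_012_s1 k326_A00pm_012_s1

theorem t810_A00pm_012_s1 : ∃ t, chk3 f_A00pm_012_s1 t 2 5 1 = true := ex3_a k304_A00pm_012_s1 t809_A00pm_012_s1

theorem t811_A00pm_012_s1 : ∃ t, chk3 f_A00pm_012_s1 t 47 79 1 = true := ex3_c k302_A00pm_012_s1 k303_A00pm_012_s1

theorem t812_A00pm_012_s1 : ∃ t, chk3 f_A00pm_012_s1 t 23 79 1 = true := ex3_a k301_A00pm_012_s1 t811_A00pm_012_s1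

theorem t813_A00pm_012_s1 : ∃ t, chk3 f_A00pm_012_s1 t 47 157 1 = true := ex3_a k299_A00pm_012_s1 k300_A00pm_012_s1

theorem t814_A00pm_012_s1 : ∃ t, chk3 f_A00pm_012_s1 t 47 156 1 = true := ex3_a k297_A00pm_012_s1 k298_A00pm_012_s1

theorem t815_A00pm_012_s1 : ∃ t, chk3 f_A00pm_012_s1 t 47 78 1 = true := ex3_b t814_A00pm_012_s1 t813_A00pm_012_s1

theorem t816_A00pm_012_s1 : ∃ t, chk3 f_A00pm_012_s1 t 46 156 1 = true := ex3_a k294_A00pm_012_s1 k295_A00pm_012_s1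

theorem t817_A00pm_012_s1 : ∃ t, chk3 f_A00pm_012_s1 t 46 78 1 = true := ex3_b t816_A00pm_012_s1 k296_A00pm_012_s1

theorem t818_A00pm_012_s1 : ∃ t, chk3 f_A00pm_012_s1 t 23 78 1 = true := ex3_a t817_A00pm_012_s1 t815_A00pm_012_s1

theorem t819_A00pm_012_s1 : ∃ t, chk3 f_A00pm_012_s1 t 23 39 1 = true := ex3_b t818_A00pm_012_s1 t812_A00pm_012_s1

theorem t820_A00pm_012_s1 : ∃ t, chk3 f_A00pm_012_s1 t 22 39 1 = true := ex3_b k292_A00pm_012_s1 k293_A00pm_012_s1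

theorem t821_A00pm_012_s1 : ∃ t, chk3 f_A00pm_012_s1 t 11 39 1 = true := ex3_a t820_A00pm_012_s1 t819_A00pm_012_s1

theorem t822_A00pm_012_s1 : ∃ t, chk3 f_A00pm_012_s1 t 47 155 1 = true := ex3_c k290_A00pm_012_s1 k291_A00pm_012_s1

theorem t823_A00pm_012_s1 : ∃ t, chk3 f_A00pm_012_s1 t 94 154 1 = true := ex3_b k287_A00pm_012_s1 k288_A00pm_012_s1

theorem t824_A00pm_012_s1 : ∃ t, chk3 f_A00pm_012_s1 t 47 154 1 = true := ex3_a t823_A00pm_012_s1 k289_A00pm_012_s1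

theorem t825_A00pm_012_s1 : ∃ t, chk3 f_A00pm_012_s1 t 47 77 1 = true := ex3_b t824_A00pm_012_s1 t822_A00pm_012_s1

theorem t826_A00pm_012_s1 : ∃ t, chk3 f_A00pm_012_s1 t 46 77 1 = true := ex3_b k285_A00pm_012_s1 k286_A00pm_012_s1

theorem t827_A00pm_012_s1 : ∃ t, chk3 f_A00pm_012_s1 t 23 77 1 = true := ex3_a t826_A00pm_012_s1 t825_A00pm_012_s1

theorem t828_A00pm_012_s1 : ∃ t, chk3 f_A00pm_012_s1 t 47 76 1 = true := ex3_b k283_A00pm_012_s1 k284_A00pm_012_s1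

theorem t829_A00pm_012_s1 : ∃ t, chk3 f_A00pm_012_s1 t 93 153 1 = true := ex3_b k281_A00pm_012_s1 k282_A00pm_012_s1

theorem t830_A00pm_012_s1 : ∃ t, chk3 f_A00pm_012_s1 t 46 153 1 = true := ex3_a k280_A00pm_012_s1 t829_A00pm_012_s1

theorem t831_A00pm_012_s1 : ∃ t, chk3 f_A00pm_012_s1 t 92 305 1 = true := ex3_a k277_A00pm_012_s1 k278_A00pm_012_s1

theorem t832_A00pm_012_s1 : ∃ t, chk3 f_A00pm_012_s1 t 92 152 1 = true := ex3_b k276_A00pm_012_s1 t831_A00pm_012_s1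

theorem t833_A00pm_012_s1 : ∃ t, chk3 f_A00pm_012_s1 t 46 152 1 = true := ex3_a t832_A00pm_012_s1 k279_A00pm_012_s1

theorem t834_A00pm_012_s1 : ∃ t, chk3 f_A00pm_012_s1 t 46 76 1 = true := ex3_b t833_A00pm_012_s1 t830_A00pm_012_s1

theorem t835_A00pm_012_s1 : ∃ t, chk3 f_A00pm_012_s1 t 23 76 1 = true := ex3_a t834_A00pm_012_s1 t828_A00pm_012_s1

theorem t836_A00pm_012_s1 : ∃ t, chk3 f_A00pm_012_s1 t 23 38 1 = true := ex3_b t835_A00pm_012_s1 t827_A00pm_012_s1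

theorem t837_A00pm_012_s1 : ∃ t, chk3 f_A00pm_012_s1 t 183 304 1 = true := ex3_b k271_A00pm_012_s1 k272_A00pm_012_s1

theorem t838_A00pm_012_s1 : ∃ t, chk3 f_A00pm_012_s1 t 91 304 1 = true := ex3_a k270_A00pm_012_s1 t837_A00pm_012_s1

theorem t839_A00pm_012_s1 : ∃ t, chk3 f_A00pm_012_s1 t 91 152 1 = true := ex3_b t838_A00pm_012_s1 k273_A00pm_012_s1

theorem t840_A00pm_012_s1 : ∃ t, chk3 f_A00pm_012_s1 t 45 152 1 = true := ex3_a k269_A00pm_012_s1 t839_A00pm_012_s1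

theorem t841_A00pm_012_s1 : ∃ t, chk3 f_A00pm_012_s1 t 45 76 1 = true := ex3_b t840_A00pm_012_s1 k274_A00pm_012_s1

theorem t842_A00pm_012_s1 : ∃ t, chk3 f_A00pm_012_s1 t 22 76 1 = true := ex3_a k268_A00pm_012_s1 t841_A00pm_012_s1

theorem t843_A00pm_012_s1 : ∃ t, chk3 f_A00pm_012_s1 t 22 38 1 = true := ex3_b t842_A00pm_012_s1 k275_A00pm_012_s1

theorem t844_A00pm_012_s1 : ∃ t, chk3 f_A00pm_012_s1 t 11 38 1 = true := ex3_a t843_A00pm_012_s1 t836_A00pm_012_s1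

theorem t845_A00pm_012_s1 : ∃ t, chk3 f_A00pm_012_s1 t 11 19 1 = true := ex3_b t844_A00pm_012_s1 t821_A00pm_012_s1

theorem t846_A00pm_012_s1 : ∃ t, chk3 f_A00pm_012_s1 t 10 19 1 = true := ex3_b k266_A00pm_012_s1 k267_A00pm_012_s1

theorem t847_A00pm_012_s1 : ∃ t, chk3 f_A00pm_012_s1 t 5 19 1 = true := ex3_a t846_A00pm_012_s1 t845_A00pm_012_s1

theorem t848_A00pm_012_s1 : ∃ t, chk3 f_A00pm_012_s1 t 182 607 1 = true := ex3_a k262_A00pm_012_s1 k263_A00pm_012_s1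

theorem t849_A00pm_012_s1 : ∃ t, chk3 f_A00pm_012_s1 t 182 303 1 = true := ex3_b k261_A00pm_012_s1 t848_A00pm_012_s1

theorem t850_A00pm_012_s1 : ∃ t, chk3 f_A00pm_012_s1 t 91 303 1 = true := ex3_a t849_A00pm_012_s1 k264_A00pm_012_s1

theorem t851_A00pm_012_s1 : ∃ t, chk3 f_A00pm_012_s1 t 91 151 1 = true := ex3_b k260_A00pm_012_s1 t850_A00pm_012_s1

theorem t852_A00pm_012_s1 : ∃ t, chk3 f_A00pm_012_s1 t 181 606 1 = true := ex3_a k257_A00pm_012_s1 k258_A00pm_012_s1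

theorem t853_A00pm_012_s1 : ∃ t, chk3 f_A00pm_012_s1 t 181 303 1 = true := ex3_b t852_A00pm_012_s1 k259_A00pm_012_s1

theorem t854_A00pm_012_s1 : ∃ t, chk3 f_A00pm_012_s1 t 90 303 1 = true := ex3_a k256_A00pm_012_s1 t853_A00pm_012_s1

theorem t855_A00pm_012_s1 : ∃ t, chk3 f_A00pm_012_s1 t 180 302 1 = true := ex3_b k253_A00pm_012_s1 k254_A00pm_012_s1

theorem t856_A00pm_012_s1 : ∃ t, chk3 f_A00pm_012_s1 t 90 302 1 = true := ex3_a t855_A00pm_012_s1 k255_A00pm_012_s1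

theorem t857_A00pm_012_s1 : ∃ t, chk3 f_A00pm_012_s1 t 90 151 1 = true := ex3_b t856_A00pm_012_s1 t854_A00pm_012_s1

theorem t858_A00pm_012_s1 : ∃ t, chk3 f_A00pm_012_s1 t 45 151 1 = true := ex3_a t857_A00pm_012_s1 t851_A00pm_012_s1

theorem t859_A00pm_012_s1 : ∃ t, chk3 f_A00pm_012_s1 t 45 75 1 = true := ex3_b k252_A00pm_012_s1 t858_A00pm_012_s1

theorem t860_A00pm_012_s1 : ∃ t, chk3 f_A00pm_012_s1 t 44 151 1 = true := ex3_a k250_A00pm_012_s1 k251_A00pm_012_s1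

theorem t861_A00pm_012_s1 : ∃ t, chk3 f_A00pm_012_s1 t 179 301 1 = true := ex3_b k248_A00pm_012_s1 k249_A00pm_012_s1

theorem t862_A00pm_012_s1 : ∃ t, chk3 f_A00pm_012_s1 t 89 301 1 = true := ex3_a k247_A00pm_012_s1 t861_A00pm_012_s1

theorem t863_A00pm_012_s1 : ∃ t, chk3 f_A00pm_012_s1 t 89 150 1 = true := ex3_b k246_A00pm_012_s1 t862_A00pm_012_s1

theorem t864_A00pm_012_s1 : ∃ t, chk3 f_A00pm_012_s1 t 44 150 1 = true := ex3_a k245_A00pm_012_s1 t863_A00pm_012_s1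

theorem t865_A00pm_012_s1 : ∃ t, chk3 f_A00pm_012_s1 t 44 75 1 = true := ex3_b t864_A00pm_012_s1 t860_A00pm_012_s1

theorem t866_A00pm_012_s1 : ∃ t, chk3 f_A00pm_012_s1 t 22 75 1 = true := ex3_a t865_A00pm_012_s1 t859_A00pm_012_s1

theorem t867_A00pm_012_s1 : ∃ t, chk3 f_A00pm_012_s1 t 22 37 1 = true := ex3_b k244_A00pm_012_s1 t866_A00pm_012_s1

theorem t868_A00pm_012_s1 : ∃ t, chk3 f_A00pm_012_s1 t 11 37 1 = true := ex3_a t867_A00pm_012_s1 k265_A00pm_012_s1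

theorem t869_A00pm_012_s1 : ∃ t, chk3 f_A00pm_012_s1 t 11 18 1 = true := ex3_b k243_A00pm_012_s1 t868_A00pm_012_s1

theorem t870_A00pm_012_s1 : ∃ t, chk3 f_A00pm_012_s1 t 21 75 1 = true := ex3_a k241_A00pm_012_s1 k242_A00pm_012_s1

theorem t871_A00pm_012_s1 : ∃ t, chk3 f_A00pm_012_s1 t 87 149 1 = true := ex3_b k239_A00pm_012_s1 k240_A00pm_012_s1

theorem t872_A00pm_012_s1 : ∃ t, chk3 f_A00pm_012_s1 t 43 149 1 = true := ex3_a k238_A00pm_012_s1 t871_A00pm_012_s1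

theorem t873_A00pm_012_s1 : ∃ t, chk3 f_A00pm_012_s1 t 86 148 1 = true := ex3_b k235_A00pm_012_s1 k236_A00pm_012_s1

theorem t874_A00pm_012_s1 : ∃ t, chk3 f_A00pm_012_s1 t 43 148 1 = true := ex3_a t873_A00pm_012_s1 k237_A00pm_012_s1

theorem t875_A00pm_012_s1 : ∃ t, chk3 f_A00pm_012_s1 t 43 74 1 = true := ex3_b t874_A00pm_012_s1 t872_A00pm_012_s1

theorem t876_A00pm_012_s1 : ∃ t, chk3 f_A00pm_012_s1 t 42 148 1 = true := ex3_a k232_A00pm_012_s1 k233_A00pm_012_s1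

theorem t877_A00pm_012_s1 : ∃ t, chk3 f_A00pm_012_s1 t 42 74 1 = true := ex3_b t876_A00pm_012_s1 k234_A00pm_012_s1

theorem t878_A00pm_012_s1 : ∃ t, chk3 f_A00pm_012_s1 t 21 74 1 = true := ex3_a t877_A00pm_012_s1 t875_A00pm_012_s1

theorem t879_A00pm_012_s1 : ∃ t, chk3 f_A00pm_012_s1 t 21 37 1 = true := ex3_b t878_A00pm_012_s1 t870_A00pm_012_s1

theorem t880_A00pm_012_s1 : ∃ t, chk3 f_A00pm_012_s1 t 10 37 1 = true := ex3_a k231_A00pm_012_s1 t879_A00pm_012_s1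

theorem t881_A00pm_012_s1 : ∃ t, chk3 f_A00pm_012_s1 t 42 147 1 = true := ex3_a k228_A00pm_012_s1 k229_A00pm_012_s1

theorem t882_A00pm_012_s1 : ∃ t, chk3 f_A00pm_012_s1 t 84 293 1 = true := ex3_a k225_A00pm_012_s1 k226_A00pm_012_s1

theorem t883_A00pm_012_s1 : ∃ t, chk3 f_A00pm_012_s1 t 84 146 1 = true := ex3_b k224_A00pm_012_s1 t882_A00pm_012_s1

theorem t884_A00pm_012_s1 : ∃ t, chk3 f_A00pm_012_s1 t 42 146 1 = true := ex3_a t883_A00pm_012_s1 k227_A00pm_012_s1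

theorem t885_A00pm_012_s1 : ∃ t, chk3 f_A00pm_012_s1 t 42 73 1 = true := ex3_b t884_A00pm_012_s1 t881_A00pm_012_s1

theorem t886_A00pm_012_s1 : ∃ t, chk3 f_A00pm_012_s1 t 21 73 1 = true := ex3_a t885_A00pm_012_s1 k230_A00pm_012_s1

theorem t887_A00pm_012_s1 : ∃ t, chk3 f_A00pm_012_s1 t 21 36 1 = true := ex3_b k223_A00pm_012_s1 t886_A00pm_012_s1

theorem t888_A00pm_012_s1 : ∃ t, chk3 f_A00pm_012_s1 t 167 292 1 = true := ex3_b k219_A00pm_012_s1 k220_A00pm_012_s1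

theorem t889_A00pm_012_s1 : ∃ t, chk3 f_A00pm_012_s1 t 83 292 1 = true := ex3_a k218_A00pm_012_s1 t888_A00pm_012_s1

theorem t890_A00pm_012_s1 : ∃ t, chk3 f_A00pm_012_s1 t 83 146 1 = true := ex3_b t889_A00pm_012_s1 k221_A00pm_012_s1

theorem t891_A00pm_012_s1 : ∃ t, chk3 f_A00pm_012_s1 t 41 146 1 = true := ex3_a k217_A00pm_012_s1 t890_A00pm_012_s1

theorem t892_A00pm_012_s1 : ∃ t, chk3 f_A00pm_012_s1 t 41 73 1 = true := ex3_b t891_A00pm_012_s1 k222_A00pm_012_s1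

theorem t893_A00pm_012_s1 : ∃ t, chk3 f_A00pm_012_s1 t 20 73 1 = true := ex3_a k216_A00pm_012_s1 t892_A00pm_012_s1

theorem t894_A00pm_012_s1 : ∃ t, chk3 f_A00pm_012_s1 t 83 145 1 = true := ex3_c k214_A00pm_012_s1 k215_A00pm_012_s1

theorem t895_A00pm_012_s1 : ∃ t, chk3 f_A00pm_012_s1 t 82 145 1 = true := ex3_b k212_A00pm_012_s1 k213_A00pm_012_s1

theorem t896_A00pm_012_s1 : ∃ t, chk3 f_A00pm_012_s1 t 41 145 1 = true := ex3_a t895_A00pm_012_s1 t894_A00pm_012_s1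

theorem t897_A00pm_012_s1 : ∃ t, chk3 f_A00pm_012_s1 t 41 72 1 = true := ex3_b k211_A00pm_012_s1 t896_A00pm_012_s1

theorem t898_A00pm_012_s1 : ∃ t, chk3 f_A00pm_012_s1 t 40 72 1 = true := ex3_b k209_A00pm_012_s1 k210_A00pm_012_s1

theorem t899_A00pm_012_s1 : ∃ t, chk3 f_A00pm_012_s1 t 20 72 1 = true := ex3_a t898_A00pm_012_s1 t897_A00pm_012_s1

theorem t900_A00pm_012_s1 : ∃ t, chk3 f_A00pm_012_s1 t 20 36 1 = true := ex3_b t899_A00pm_012_s1 t893_A00pm_012_s1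

theorem t901_A00pm_012_s1 : ∃ t, chk3 f_A00pm_012_s1 t 10 36 1 = true := ex3_a t900_A00pm_012_s1 t887_A00pm_012_s1

theorem t902_A00pm_012_s1 : ∃ t, chk3 f_A00pm_012_s1 t 10 18 1 = true := ex3_b t901_A00pm_012_s1 t880_A00pm_012_s1

theorem t903_A00pm_012_s1 : ∃ t, chk3 f_A00pm_012_s1 t 5 18 1 = true := ex3_a t902_A00pm_012_s1 t869_A00pm_012_s1

theorem t904_A00pm_012_s1 : ∃ t, chk3 f_A00pm_012_s1 t 5 9 1 = true := ex3_b t903_A00pm_012_s1 t847_A00pm_012_s1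

theorem t905_A00pm_012_s1 : ∃ t, chk3 f_A00pm_012_s1 t 19 18 1 = true := ex3_b k206_A00pm_012_s1 k207_A00pm_012_s1

theorem t906_A00pm_012_s1 : ∃ t, chk3 f_A00pm_012_s1 t 9 18 1 = true := ex3_a k205_A00pm_012_s1 t905_A00pm_012_s1

theorem t907_A00pm_012_s1 : ∃ t, chk3 f_A00pm_012_s1 t 4 18 1 = true := ex3_a k204_A00pm_012_s1 t906_A00pm_012_s1

theorem t908_A00pm_012_s1 : ∃ t, chk3 f_A00pm_012_s1 t 4 9 1 = true := ex3_b t907_A00pm_012_s1 k208_A00pm_012_s1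

theorem t909_A00pm_012_s1 : ∃ t, chk3 f_A00pm_012_s1 t 2 9 1 = true := ex3_a t908_A00pm_012_s1 t904_A00pm_012_s1

theorem t910_A00pm_012_s1 : ∃ t, chk3 f_A00pm_012_s1 t 80 143 1 = true := ex3_b k198_A00pm_012_s1 k199_A00pm_012_s1

theorem t911_A00pm_012_s1 : ∃ t, chk3 f_A00pm_012_s1 t 40 143 1 = true := ex3_a t910_A00pm_012_s1 k200_A00pm_012_s1

theorem t912_A00pm_012_s1 : ∃ t, chk3 f_A00pm_012_s1 t 40 71 1 = true := ex3_b k197_A00pm_012_s1 t911_A00pm_012_s1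

theorem t913_A00pm_012_s1 : ∃ t, chk3 f_A00pm_012_s1 t 20 71 1 = true := ex3_a t912_A00pm_012_s1 k201_A00pm_012_s1

theorem t914_A00pm_012_s1 : ∃ t, chk3 f_A00pm_012_s1 t 20 35 1 = true := ex3_b k196_A00pm_012_s1 t913_A00pm_012_s1

theorem t915_A00pm_012_s1 : ∃ t, chk3 f_A00pm_012_s1 t 10 35 1 = true := ex3_a t914_A00pm_012_s1 k202_A00pm_012_s1

theorem t916_A00pm_012_s1 : ∃ t, chk3 f_A00pm_012_s1 t 10 17 1 = true := ex3_b k195_A00pm_012_s1 t915_A00pm_012_s1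

theorem t917_A00pm_012_s1 : ∃ t, chk3 f_A00pm_012_s1 t 10 8 1 = true := ex3_b k194_A00pm_012_s1 t916_A00pm_012_s1

theorem t918_A00pm_012_s1 : ∃ t, chk3 f_A00pm_012_s1 t 5 8 1 = true := ex3_a t917_A00pm_012_s1 k203_A00pm_012_s1

theorem t919_A00pm_012_s1 : ∃ t, chk3 f_A00pm_012_s1 t 79 285 1 = true := ex3_a k191_A00pm_012_s1 k192_A00pm_012_s1

theorem t920_A00pm_012_s1 : ∃ t, chk3 f_A00pm_012_s1 t 79 142 1 = true := ex3_b k190_A00pm_012_s1 t919_A00pm_012_s1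

theorem t921_A00pm_012_s1 : ∃ t, chk3 f_A00pm_012_s1 t 39 142 1 = true := ex3_a k189_A00pm_012_s1 t920_A00pm_012_s1

theorem t922_A00pm_012_s1 : ∃ t, chk3 f_A00pm_012_s1 t 39 71 1 = true := ex3_b t921_A00pm_012_s1 k193_A00pm_012_s1

theorem t923_A00pm_012_s1 : ∃ t, chk3 f_A00pm_012_s1 t 19 71 1 = true := ex3_a k188_A00pm_012_s1 t922_A00pm_012_s1

theorem t924_A00pm_012_s1 : ∃ t, chk3 f_A00pm_012_s1 t 38 141 1 = true := ex3_a k185_A00pm_012_s1 k186_A00pm_012_s1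

theorem t925_A00pm_012_s1 : ∃ t, chk3 f_A00pm_012_s1 t 154 281 1 = true := ex3_b k182_A00pm_012_s1 k183_A00pm_012_s1

theorem t926_A00pm_012_s1 : ∃ t, chk3 f_A00pm_012_s1 t 77 281 1 = true := ex3_a t925_A00pm_012_s1 k184_A00pm_012_s1

theorem t927_A00pm_012_s1 : ∃ t, chk3 f_A00pm_012_s1 t 77 140 1 = true := ex3_b k181_A00pm_012_s1 t926_A00pm_012_s1

theorem t928_A00pm_012_s1 : ∃ t, chk3 f_A00pm_012_s1 t 153 280 1 = true := ex3_b k178_A00pm_012_s1 k179_A00pm_012_s1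

theorem t929_A00pm_012_s1 : ∃ t, chk3 f_A00pm_012_s1 t 76 280 1 = true := ex3_a k177_A00pm_012_s1 t928_A00pm_012_s1

theorem t930_A00pm_012_s1 : ∃ t, chk3 f_A00pm_012_s1 t 76 140 1 = true := ex3_b t929_A00pm_012_s1 k180_A00pm_012_s1

theorem t931_A00pm_012_s1 : ∃ t, chk3 f_A00pm_012_s1 t 38 140 1 = true := ex3_a t930_A00pm_012_s1 t927_A00pm_012_s1

theorem t932_A00pm_012_s1 : ∃ t, chk3 f_A00pm_012_s1 t 38 70 1 = true := ex3_b t931_A00pm_012_s1 t924_A00pm_012_s1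

theorem t933_A00pm_012_s1 : ∃ t, chk3 f_A00pm_012_s1 t 19 70 1 = true := ex3_a t932_A00pm_012_s1 k187_A00pm_012_s1

theorem t934_A00pm_012_s1 : ∃ t, chk3 f_A00pm_012_s1 t 19 35 1 = true := ex3_b t933_A00pm_012_s1 t923_A00pm_012_s1

theorem t935_A00pm_012_s1 : ∃ t, chk3 f_A00pm_012_s1 t 152 559 1 = true := ex3_a k172_A00pm_012_s1 k173_A00pm_012_s1

theorem t936_A00pm_012_s1 : ∃ t, chk3 f_A00pm_012_s1 t 152 279 1 = true := ex3_b k171_A00pm_012_s1 t935_A00pm_012_s1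

theorem t937_A00pm_012_s1 : ∃ t, chk3 f_A00pm_012_s1 t 76 279 1 = true := ex3_a t936_A00pm_012_s1 k174_A00pm_012_s1

theorem t938_A00pm_012_s1 : ∃ t, chk3 f_A00pm_012_s1 t 76 139 1 = true := ex3_b k170_A00pm_012_s1 t937_A00pm_012_s1

theorem t939_A00pm_012_s1 : ∃ t, chk3 f_A00pm_012_s1 t 38 139 1 = true := ex3_a t938_A00pm_012_s1 k175_A00pm_012_s1

theorem t940_A00pm_012_s1 : ∃ t, chk3 f_A00pm_012_s1 t 38 69 1 = true := ex3_b k169_A00pm_012_s1 t939_A00pm_012_s1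

theorem t941_A00pm_012_s1 : ∃ t, chk3 f_A00pm_012_s1 t 19 69 1 = true := ex3_a t940_A00pm_012_s1 k176_A00pm_012_s1

theorem t942_A00pm_012_s1 : ∃ t, chk3 f_A00pm_012_s1 t 19 34 1 = true := ex3_b k168_A00pm_012_s1 t941_A00pm_012_s1

theorem t943_A00pm_012_s1 : ∃ t, chk3 f_A00pm_012_s1 t 19 17 1 = true := ex3_b t942_A00pm_012_s1 t934_A00pm_012_s1

theorem t944_A00pm_012_s1 : ∃ t, chk3 f_A00pm_012_s1 t 75 70 1 = true := ex3_b k165_A00pm_012_s1 k166_A00pm_012_s1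

theorem t945_A00pm_012_s1 : ∃ t, chk3 f_A00pm_012_s1 t 37 70 1 = true := ex3_a k164_A00pm_012_s1 t944_A00pm_012_s1

theorem t946_A00pm_012_s1 : ∃ t, chk3 f_A00pm_012_s1 t 37 35 1 = true := ex3_b t945_A00pm_012_s1 k167_A00pm_012_s1

theorem t947_A00pm_012_s1 : ∃ t, chk3 f_A00pm_012_s1 t 18 35 1 = true := ex3_a k163_A00pm_012_s1 t946_A00pm_012_s1

theorem t948_A00pm_012_s1 : ∃ t, chk3 f_A00pm_012_s1 t 303 1116 1 = true := ex3_a k159_A00pm_012_s1 k160_A00pm_012_s1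

theorem t949_A00pm_012_s1 : ∃ t, chk3 f_A00pm_012_s1 t 303 558 1 = true := ex3_b t948_A00pm_012_s1 k161_A00pm_012_s1

theorem t950_A00pm_012_s1 : ∃ t, chk3 f_A00pm_012_s1 t 151 558 1 = true := ex3_a k158_A00pm_012_s1 t949_A00pm_012_s1

theorem t951_A00pm_012_s1 : ∃ t, chk3 f_A00pm_012_s1 t 151 279 1 = true := ex3_b t950_A00pm_012_s1 k162_A00pm_012_s1

theorem t952_A00pm_012_s1 : ∃ t, chk3 f_A00pm_012_s1 t 75 279 1 = true := ex3_a k157_A00pm_012_s1 t951_A00pm_012_s1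

theorem t953_A00pm_012_s1 : ∃ t, chk3 f_A00pm_012_s1 t 302 1114 1 = true := ex3_a k153_A00pm_012_s1 k154_A00pm_012_s1

theorem t954_A00pm_012_s1 : ∃ t, chk3 f_A00pm_012_s1 t 302 557 1 = true := ex3_b t953_A00pm_012_s1 k155_A00pm_012_s1

theorem t955_A00pm_012_s1 : ∃ t, chk3 f_A00pm_012_s1 t 151 557 1 = true := ex3_a t954_A00pm_012_s1 k156_A00pm_012_s1

theorem t956_A00pm_012_s1 : ∃ t, chk3 f_A00pm_012_s1 t 151 278 1 = true := ex3_b k152_A00pm_012_s1 t955_A00pm_012_s1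

theorem t957_A00pm_012_s1 : ∃ t, chk3 f_A00pm_012_s1 t 603 1113 1 = true := ex3_c k149_A00pm_012_s1 k150_A00pm_012_s1

theorem t958_A00pm_012_s1 : ∃ t, chk3 f_A00pm_012_s1 t 301 1113 1 = true := ex3_a k148_A00pm_012_s1 t957_A00pm_012_s1

theorem t959_A00pm_012_s1 : ∃ t, chk3 f_A00pm_012_s1 t 602 1112 1 = true := ex3_c k145_A00pm_012_s1 k146_A00pm_012_s1

theorem t960_A00pm_012_s1 : ∃ t, chk3 f_A00pm_012_s1 t 301 1112 1 = true := ex3_a t959_A00pm_012_s1 k147_A00pm_012_s1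

theorem t961_A00pm_012_s1 : ∃ t, chk3 f_A00pm_012_s1 t 301 556 1 = true := ex3_b t960_A00pm_012_s1 t958_A00pm_012_s1

theorem t962_A00pm_012_s1 : ∃ t, chk3 f_A00pm_012_s1 t 150 556 1 = true := ex3_a k144_A00pm_012_s1 t961_A00pm_012_s1

theorem t963_A00pm_012_s1 : ∃ t, chk3 f_A00pm_012_s1 t 150 278 1 = true := ex3_b t962_A00pm_012_s1 k151_A00pm_012_s1

theorem t964_A00pm_012_s1 : ∃ t, chk3 f_A00pm_012_s1 t 75 278 1 = true := ex3_a t963_A00pm_012_s1 t956_A00pm_012_s1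

theorem t965_A00pm_012_s1 : ∃ t, chk3 f_A00pm_012_s1 t 75 139 1 = true := ex3_b t964_A00pm_012_s1 t952_A00pm_012_s1

theorem t966_A00pm_012_s1 : ∃ t, chk3 f_A00pm_012_s1 t 149 278 2 = true := ex3_a k140_A00pm_012_s1 k141_A00pm_012_s1

theorem t967_A00pm_012_s1 : ∃ t, chk3 f_A00pm_012_s1 t 149 278 1 = true := ex3_c t966_A00pm_012_s1 k142_A00pm_012_s1

theorem t968_A00pm_012_s1 : ∃ t, chk3 f_A00pm_012_s1 t 149 139 1 = true := ex3_b t967_A00pm_012_s1 k143_A00pm_012_s1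

theorem t969_A00pm_012_s1 : ∃ t, chk3 f_A00pm_012_s1 t 74 139 1 = true := ex3_a k139_A00pm_012_s1 t968_A00pm_012_s1

theorem t970_A00pm_012_s1 : ∃ t, chk3 f_A00pm_012_s1 t 37 139 1 = true := ex3_a t969_A00pm_012_s1 t965_A00pm_012_s1

theorem t971_A00pm_012_s1 : ∃ t, chk3 f_A00pm_012_s1 t 601 1111 2 = true := ex3_b k134_A00pm_012_s1 k135_A00pm_012_s1

theorem t972_A00pm_012_s1 : ∃ t, chk3 f_A00pm_012_s1 t 601 1111 1 = true := ex3_c t971_A00pm_012_s1 k136_A00pm_012_s1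

theorem t973_A00pm_012_s1 : ∃ t, chk3 f_A00pm_012_s1 t 300 1111 1 = true := ex3_a k133_A00pm_012_s1 t972_A00pm_012_s1

theorem t974_A00pm_012_s1 : ∃ t, chk3 f_A00pm_012_s1 t 600 1110 2 = true := ex3_b k129_A00pm_012_s1 k130_A00pm_012_s1

theorem t975_A00pm_012_s1 : ∃ t, chk3 f_A00pm_012_s1 t 600 1110 1 = true := ex3_c t974_A00pm_012_s1 k131_A00pm_012_s1

theorem t976_A00pm_012_s1 : ∃ t, chk3 f_A00pm_012_s1 t 300 1110 1 = true := ex3_a t975_A00pm_012_s1 k132_A00pm_012_s1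

theorem t977_A00pm_012_s1 : ∃ t, chk3 f_A00pm_012_s1 t 300 555 1 = true := ex3_b t976_A00pm_012_s1 t973_A00pm_012_s1

theorem t978_A00pm_012_s1 : ∃ t, chk3 f_A00pm_012_s1 t 150 555 1 = true := ex3_a t977_A00pm_012_s1 k137_A00pm_012_s1

theorem t979_A00pm_012_s1 : ∃ t, chk3 f_A00pm_012_s1 t 150 277 1 = true := ex3_b k128_A00pm_012_s1 t978_A00pm_012_s1

theorem t980_A00pm_012_s1 : ∃ t, chk3 f_A00pm_012_s1 t 75 277 1 = true := ex3_a t979_A00pm_012_s1 k138_A00pm_012_s1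

theorem t981_A00pm_012_s1 : ∃ t, chk3 f_A00pm_012_s1 t 75 138 1 = true := ex3_b k127_A00pm_012_s1 t980_A00pm_012_s1

theorem t982_A00pm_012_s1 : ∃ t, chk3 f_A00pm_012_s1 t 149 555 4 = true := ex3_c k123_A00pm_012_s1 k124_A00pm_012_s1

theorem t983_A00pm_012_s1 : ∃ t, chk3 f_A00pm_012_s1 t 149 555 2 = true := ex3_c t982_A00pm_012_s1 k125_A00pm_012_s1

theorem t984_A00pm_012_s1 : ∃ t, chk3 f_A00pm_012_s1 t 149 555 1 = true := ex3_c t983_A00pm_012_s1 k126_A00pm_012_s1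

theorem t985_A00pm_012_s1 : ∃ t, chk3 f_A00pm_012_s1 t 599 1109 2 = true := ex3_b k120_A00pm_012_s1 k121_A00pm_012_s1

theorem t986_A00pm_012_s1 : ∃ t, chk3 f_A00pm_012_s1 t 599 1109 1 = true := ex3_c t985_A00pm_012_s1 k122_A00pm_012_s1

theorem t987_A00pm_012_s1 : ∃ t, chk3 f_A00pm_012_s1 t 299 1109 1 = true := ex3_a k119_A00pm_012_s1 t986_A00pm_012_s1

theorem t988_A00pm_012_s1 : ∃ t, chk3 f_A00pm_012_s1 t 598 1108 2 = true := ex3_b k115_A00pm_012_s1 k116_A00pm_012_s1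

theorem t989_A00pm_012_s1 : ∃ t, chk3 f_A00pm_012_s1 t 299 1108 2 = true := ex3_a t988_A00pm_012_s1 k117_A00pm_012_s1

theorem t990_A00pm_012_s1 : ∃ t, chk3 f_A00pm_012_s1 t 299 1108 1 = true := ex3_c t989_A00pm_012_s1 k118_A00pm_012_s1

theorem t991_A00pm_012_s1 : ∃ t, chk3 f_A00pm_012_s1 t 299 554 1 = true := ex3_b t990_A00pm_012_s1 t987_A00pm_012_s1

theorem t992_A00pm_012_s1 : ∃ t, chk3 f_A00pm_012_s1 t 298 554 1 = true := ex3_b k113_A00pm_012_s1 k114_A00pm_012_s1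

theorem t993_A00pm_012_s1 : ∃ t, chk3 f_A00pm_012_s1 t 149 554 1 = true := ex3_a t992_A00pm_012_s1 t991_A00pm_012_s1

theorem t994_A00pm_012_s1 : ∃ t, chk3 f_A00pm_012_s1 t 149 277 1 = true := ex3_b t993_A00pm_012_s1 t984_A00pm_012_s1

theorem t995_A00pm_012_s1 : ∃ t, chk3 f_A00pm_012_s1 t 148 554 2 = true := ex3_c k109_A00pm_012_s1 k110_A00pm_012_s1

theorem t996_A00pm_012_s1 : ∃ t, chk3 f_A00pm_012_s1 t 148 277 2 = true := ex3_b t995_A00pm_012_s1 k111_A00pm_012_s1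

theorem t997_A00pm_012_s1 : ∃ t, chk3 f_A00pm_012_s1 t 148 277 1 = true := ex3_c t996_A00pm_012_s1 k112_A00pm_012_s1

theorem t998_A00pm_012_s1 : ∃ t, chk3 f_A00pm_012_s1 t 74 277 1 = true := ex3_a t997_A00pm_012_s1 t994_A00pm_012_s1

theorem t999_A00pm_012_s1 : ∃ t, chk3 f_A00pm_012_s1 t 597 1107 2 = true := ex3_b k105_A00pm_012_s1 k106_A00pm_012_s1

theorem t1000_A00pm_012_s1 : ∃ t, chk3 f_A00pm_012_s1 t 597 1107 1 = true := ex3_c t999_A00pm_012_s1 k107_A00pm_012_s1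

theorem t1001_A00pm_012_s1 : ∃ t, chk3 f_A00pm_012_s1 t 298 1107 1 = true := ex3_a k104_A00pm_012_s1 t1000_A00pm_012_s1

theorem t1002_A00pm_012_s1 : ∃ t, chk3 f_A00pm_012_s1 t 298 1106 1 = true := ex3_c k102_A00pm_012_s1 k103_A00pm_012_s1

theorem t1003_A00pm_012_s1 : ∃ t, chk3 f_A00pm_012_s1 t 298 553 1 = true := ex3_b t1002_A00pm_012_s1 t1001_A00pm_012_s1

theorem t1004_A00pm_012_s1 : ∃ t, chk3 f_A00pm_012_s1 t 149 553 1 = true := ex3_a t1003_A00pm_012_s1 k108_A00pm_012_s1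

theorem t1005_A00pm_012_s1 : ∃ t, chk3 f_A00pm_012_s1 t 149 276 1 = true := ex3_b k101_A00pm_012_s1 t1004_A00pm_012_s1

theorem t1006_A00pm_012_s1 : ∃ t, chk3 f_A00pm_012_s1 t 297 553 1 = true := ex3_b k99_A00pm_012_s1 k100_A00pm_012_s1

theorem t1007_A00pm_012_s1 : ∃ t, chk3 f_A00pm_012_s1 t 148 553 1 = true := ex3_a k98_A00pm_012_s1 t1006_A00pm_012_s1

theorem t1008_A00pm_012_s1 : ∃ t, chk3 f_A00pm_012_s1 t 297 1105 1 = true := ex3_a k96_A00pm_012_s1 k97_A00pm_012_s1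

theorem t1009_A00pm_012_s1 : ∃ t, chk3 f_A00pm_012_s1 t 297 552 1 = true := ex3_b k95_A00pm_012_s1 t1008_A00pm_012_s1

theorem t1010_A00pm_012_s1 : ∃ t, chk3 f_A00pm_012_s1 t 296 552 1 = true := ex3_b k93_A00pm_012_s1 k94_A00pm_012_s1

theorem t1011_A00pm_012_s1 : ∃ t, chk3 f_A00pm_012_s1 t 148 552 1 = true := ex3_a t1010_A00pm_012_s1 t1009_A00pm_012_s1

theorem t1012_A00pm_012_s1 : ∃ t, chk3 f_A00pm_012_s1 t 148 276 1 = true := ex3_b t1011_A00pm_012_s1 t1007_A00pm_012_s1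

theorem t1013_A00pm_012_s1 : ∃ t, chk3 f_A00pm_012_s1 t 74 276 1 = true := ex3_a t1012_A00pm_012_s1 t1005_A00pm_012_s1

theorem t1014_A00pm_012_s1 : ∃ t, chk3 f_A00pm_012_s1 t 74 138 1 = true := ex3_b t1013_A00pm_012_s1 t998_A00pm_012_s1

theorem t1015_A00pm_012_s1 : ∃ t, chk3 f_A00pm_012_s1 t 37 138 1 = true := ex3_a t1014_A00pm_012_s1 t981_A00pm_012_s1

theorem t1016_A00pm_012_s1 : ∃ t, chk3 f_A00pm_012_s1 t 37 69 1 = true := ex3_b t1015_A00pm_012_s1 t970_A00pm_012_s1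

theorem t1017_A00pm_012_s1 : ∃ t, chk3 f_A00pm_012_s1 t 296 1103 1 = true := ex3_a k88_A00pm_012_s1 k89_A00pm_012_s1

theorem t1018_A00pm_012_s1 : ∃ t, chk3 f_A00pm_012_s1 t 296 551 1 = true := ex3_b k87_A00pm_012_s1 t1017_A00pm_012_s1

theorem t1019_A00pm_012_s1 : ∃ t, chk3 f_A00pm_012_s1 t 148 551 1 = true := ex3_a t1018_A00pm_012_s1 k90_A00pm_012_s1

theorem t1020_A00pm_012_s1 : ∃ t, chk3 f_A00pm_012_s1 t 148 275 1 = true := ex3_b k86_A00pm_012_s1 t1019_A00pm_012_s1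

theorem t1021_A00pm_012_s1 : ∃ t, chk3 f_A00pm_012_s1 t 74 275 1 = true := ex3_a t1020_A00pm_012_s1 k91_A00pm_012_s1

theorem t1022_A00pm_012_s1 : ∃ t, chk3 f_A00pm_012_s1 t 74 137 1 = true := ex3_b k85_A00pm_012_s1 t1021_A00pm_012_s1

theorem t1023_A00pm_012_s1 : ∃ t, chk3 f_A00pm_012_s1 t 37 137 1 = true := ex3_a t1022_A00pm_012_s1 k92_A00pm_012_s1

theorem t1024_A00pm_012_s1 : ∃ t, chk3 f_A00pm_012_s1 t 37 68 1 = true := ex3_b k84_A00pm_012_s1 t1023_A00pm_012_s1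

theorem t1025_A00pm_012_s1 : ∃ t, chk3 f_A00pm_012_s1 t 37 34 1 = true := ex3_b t1024_A00pm_012_s1 t1016_A00pm_012_s1

theorem t1026_A00pm_012_s1 : ∃ t, chk3 f_A00pm_012_s1 t 147 276 1 = true := ex3_b k80_A00pm_012_s1 k81_A00pm_012_s1

theorem t1027_A00pm_012_s1 : ∃ t, chk3 f_A00pm_012_s1 t 73 276 1 = true := ex3_a k79_A00pm_012_s1 t1026_A00pm_012_s1

theorem t1028_A00pm_012_s1 : ∃ t, chk3 f_A00pm_012_s1 t 73 138 1 = true := ex3_b t1027_A00pm_012_s1 k82_A00pm_012_s1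

theorem t1029_A00pm_012_s1 : ∃ t, chk3 f_A00pm_012_s1 t 73 69 1 = true := ex3_b t1028_A00pm_012_s1 k83_A00pm_012_s1

theorem t1030_A00pm_012_s1 : ∃ t, chk3 f_A00pm_012_s1 t 36 69 1 = true := ex3_a k78_A00pm_012_s1 t1029_A00pm_012_s1

theorem t1031_A00pm_012_s1 : ∃ t, chk3 f_A00pm_012_s1 t 147 551 1 = true := ex3_a k76_A00pm_012_s1 k77_A00pm_012_s1

theorem t1032_A00pm_012_s1 : ∃ t, chk3 f_A00pm_012_s1 t 147 550 1 = true := ex3_a k74_A00pm_012_s1 k75_A00pm_012_s1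

theorem t1033_A00pm_012_s1 : ∃ t, chk3 f_A00pm_012_s1 t 147 275 1 = true := ex3_b t1032_A00pm_012_s1 t1031_A00pm_012_s1

theorem t1034_A00pm_012_s1 : ∃ t, chk3 f_A00pm_012_s1 t 73 275 1 = true := ex3_a k73_A00pm_012_s1 t1033_A00pm_012_s1

theorem t1035_A00pm_012_s1 : ∃ t, chk3 f_A00pm_012_s1 t 146 274 1 = true := ex3_b k70_A00pm_012_s1 k71_A00pm_012_s1

theorem t1036_A00pm_012_s1 : ∃ t, chk3 f_A00pm_012_s1 t 73 274 1 = true := ex3_a t1035_A00pm_012_s1 k72_A00pm_012_s1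

theorem t1037_A00pm_012_s1 : ∃ t, chk3 f_A00pm_012_s1 t 73 137 1 = true := ex3_b t1036_A00pm_012_s1 t1034_A00pm_012_s1

theorem t1038_A00pm_012_s1 : ∃ t, chk3 f_A00pm_012_s1 t 72 274 1 = true := ex3_a k67_A00pm_012_s1 k68_A00pm_012_s1

theorem t1039_A00pm_012_s1 : ∃ t, chk3 f_A00pm_012_s1 t 72 137 1 = true := ex3_b t1038_A00pm_012_s1 k69_A00pm_012_s1

theorem t1040_A00pm_012_s1 : ∃ t, chk3 f_A00pm_012_s1 t 36 137 1 = true := ex3_a t1039_A00pm_012_s1 t1037_A00pm_012_s1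

theorem t1041_A00pm_012_s1 : ∃ t, chk3 f_A00pm_012_s1 t 72 273 1 = true := ex3_a k64_A00pm_012_s1 k65_A00pm_012_s1

theorem t1042_A00pm_012_s1 : ∃ t, chk3 f_A00pm_012_s1 t 144 544 1 = true := ex3_a k60_A00pm_012_s1 k61_A00pm_012_s1

theorem t1043_A00pm_012_s1 : ∃ t, chk3 f_A00pm_012_s1 t 144 272 1 = true := ex3_b t1042_A00pm_012_s1 k62_A00pm_012_s1

theorem t1044_A00pm_012_s1 : ∃ t, chk3 f_A00pm_012_s1 t 72 272 1 = true := ex3_a t1043_A00pm_012_s1 k63_A00pm_012_s1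

theorem t1045_A00pm_012_s1 : ∃ t, chk3 f_A00pm_012_s1 t 72 136 1 = true := ex3_b t1044_A00pm_012_s1 t1041_A00pm_012_s1

theorem t1046_A00pm_012_s1 : ∃ t, chk3 f_A00pm_012_s1 t 36 136 1 = true := ex3_a t1045_A00pm_012_s1 k66_A00pm_012_s1

theorem t1047_A00pm_012_s1 : ∃ t, chk3 f_A00pm_012_s1 t 36 68 1 = true := ex3_b t1046_A00pm_012_s1 t1040_A00pm_012_s1

theorem t1048_A00pm_012_s1 : ∃ t, chk3 f_A00pm_012_s1 t 36 34 1 = true := ex3_b t1047_A00pm_012_s1 t1030_A00pm_012_s1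

theorem t1049_A00pm_012_s1 : ∃ t, chk3 f_A00pm_012_s1 t 18 34 1 = true := ex3_a t1048_A00pm_012_s1 t1025_A00pm_012_s1

theorem t1050_A00pm_012_s1 : ∃ t, chk3 f_A00pm_012_s1 t 18 17 1 = true := ex3_b t1049_A00pm_012_s1 t947_A00pm_012_s1

theorem t1051_A00pm_012_s1 : ∃ t, chk3 f_A00pm_012_s1 t 9 17 1 = true := ex3_a t1050_A00pm_012_s1 t943_A00pm_012_s1

theorem t1052_A00pm_012_s1 : ∃ t, chk3 f_A00pm_012_s1 t 9 8 1 = true := ex3_b k59_A00pm_012_s1 t1051_A00pm_012_s1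

theorem t1053_A00pm_012_s1 : ∃ t, chk3 f_A00pm_012_s1 t 71 68 1 = true := ex3_b k55_A00pm_012_s1 k56_A00pm_012_s1

theorem t1054_A00pm_012_s1 : ∃ t, chk3 f_A00pm_012_s1 t 35 68 1 = true := ex3_a k54_A00pm_012_s1 t1053_A00pm_012_s1

theorem t1055_A00pm_012_s1 : ∃ t, chk3 f_A00pm_012_s1 t 35 34 1 = true := ex3_b t1054_A00pm_012_s1 k57_A00pm_012_s1

theorem t1056_A00pm_012_s1 : ∃ t, chk3 f_A00pm_012_s1 t 34 34 1 = true := ex3_b k52_A00pm_012_s1 k53_A00pm_012_s1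

theorem t1057_A00pm_012_s1 : ∃ t, chk3 f_A00pm_012_s1 t 17 34 1 = true := ex3_a t1056_A00pm_012_s1 t1055_A00pm_012_s1

theorem t1058_A00pm_012_s1 : ∃ t, chk3 f_A00pm_012_s1 t 17 17 1 = true := ex3_b t1057_A00pm_012_s1 k58_A00pm_012_s1

theorem t1059_A00pm_012_s1 : ∃ t, chk3 f_A00pm_012_s1 t 8 17 1 = true := ex3_a k51_A00pm_012_s1 t1058_A00pm_012_s1

theorem t1060_A00pm_012_s1 : ∃ t, chk3 f_A00pm_012_s1 t 287 543 1 = true := ex3_b k49_A00pm_012_s1 k50_A00pm_012_s1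

theorem t1061_A00pm_012_s1 : ∃ t, chk3 f_A00pm_012_s1 t 143 543 1 = true := ex3_a k48_A00pm_012_s1 t1060_A00pm_012_s1

theorem t1062_A00pm_012_s1 : ∃ t, chk3 f_A00pm_012_s1 t 143 271 1 = true := ex3_b k47_A00pm_012_s1 t1061_A00pm_012_s1

theorem t1063_A00pm_012_s1 : ∃ t, chk3 f_A00pm_012_s1 t 71 271 1 = true := ex3_a k46_A00pm_012_s1 t1062_A00pm_012_s1

theorem t1064_A00pm_012_s1 : ∃ t, chk3 f_A00pm_012_s1 t 142 270 1 = true := ex3_b k43_A00pm_012_s1 k44_A00pm_012_s1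

theorem t1065_A00pm_012_s1 : ∃ t, chk3 f_A00pm_012_s1 t 71 270 1 = true := ex3_a t1064_A00pm_012_s1 k45_A00pm_012_s1

theorem t1066_A00pm_012_s1 : ∃ t, chk3 f_A00pm_012_s1 t 71 135 1 = true := ex3_b t1065_A00pm_012_s1 t1063_A00pm_012_s1

theorem t1067_A00pm_012_s1 : ∃ t, chk3 f_A00pm_012_s1 t 71 67 1 = true := ex3_b k42_A00pm_012_s1 t1066_A00pm_012_s1

theorem t1068_A00pm_012_s1 : ∃ t, chk3 f_A00pm_012_s1 t 70 135 1 = true := ex3_b k40_A00pm_012_s1 k41_A00pm_012_s1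

theorem t1069_A00pm_012_s1 : ∃ t, chk3 f_A00pm_012_s1 t 141 269 1 = true := ex3_b k38_A00pm_012_s1 k39_A00pm_012_s1

theorem t1070_A00pm_012_s1 : ∃ t, chk3 f_A00pm_012_s1 t 70 269 1 = true := ex3_a k37_A00pm_012_s1 t1069_A00pm_012_s1

theorem t1071_A00pm_012_s1 : ∃ t, chk3 f_A00pm_012_s1 t 70 134 1 = true := ex3_b k36_A00pm_012_s1 t1070_A00pm_012_s1

theorem t1072_A00pm_012_s1 : ∃ t, chk3 f_A00pm_012_s1 t 70 67 1 = true := ex3_b t1071_A00pm_012_s1 t1068_A00pm_012_s1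

theorem t1073_A00pm_012_s1 : ∃ t, chk3 f_A00pm_012_s1 t 35 67 1 = true := ex3_a t1072_A00pm_012_s1 t1067_A00pm_012_s1

theorem t1074_A00pm_012_s1 : ∃ t, chk3 f_A00pm_012_s1 t 35 33 1 = true := ex3_b k35_A00pm_012_s1 t1073_A00pm_012_s1

theorem t1075_A00pm_012_s1 : ∃ t, chk3 f_A00pm_012_s1 t 139 134 1 = true := ex3_b k32_A00pm_012_s1 k33_A00pm_012_s1

theorem t1076_A00pm_012_s1 : ∃ t, chk3 f_A00pm_012_s1 t 69 134 1 = true := ex3_a k31_A00pm_012_s1 t1075_A00pm_012_s1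

theorem t1077_A00pm_012_s1 : ∃ t, chk3 f_A00pm_012_s1 t 69 67 1 = true := ex3_b t1076_A00pm_012_s1 k34_A00pm_012_s1

theorem t1078_A00pm_012_s1 : ∃ t, chk3 f_A00pm_012_s1 t 68 67 1 = true := ex3_b k29_A00pm_012_s1 k30_A00pm_012_s1

theorem t1079_A00pm_012_s1 : ∃ t, chk3 f_A00pm_012_s1 t 34 67 1 = true := ex3_a t1078_A00pm_012_s1 t1077_A00pm_012_s1

theorem t1080_A00pm_012_s1 : ∃ t, chk3 f_A00pm_012_s1 t 139 267 1 = true := ex3_b k27_A00pm_012_s1 k28_A00pm_012_s1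

theorem t1081_A00pm_012_s1 : ∃ t, chk3 f_A00pm_012_s1 t 138 267 1 = true := ex3_b k25_A00pm_012_s1 k26_A00pm_012_s1

theorem t1082_A00pm_012_s1 : ∃ t, chk3 f_A00pm_012_s1 t 69 267 1 = true := ex3_a t1081_A00pm_012_s1 t1080_A00pm_012_s1

theorem t1083_A00pm_012_s1 : ∃ t, chk3 f_A00pm_012_s1 t 138 266 1 = true := ex3_b k22_A00pm_012_s1 k23_A00pm_012_s1

theorem t1084_A00pm_012_s1 : ∃ t, chk3 f_A00pm_012_s1 t 69 266 1 = true := ex3_a t1083_A00pm_012_s1 k24_A00pm_012_s1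

theorem t1085_A00pm_012_s1 : ∃ t, chk3 f_A00pm_012_s1 t 69 133 1 = true := ex3_b t1084_A00pm_012_s1 t1082_A00pm_012_s1

theorem t1086_A00pm_012_s1 : ∃ t, chk3 f_A00pm_012_s1 t 69 66 1 = true := ex3_b k21_A00pm_012_s1 t1085_A00pm_012_s1

theorem t1087_A00pm_012_s1 : ∃ t, chk3 f_A00pm_012_s1 t 137 266 1 = true := ex3_b k18_A00pm_012_s1 k19_A00pm_012_s1

theorem t1088_A00pm_012_s1 : ∃ t, chk3 f_A00pm_012_s1 t 137 133 1 = true := ex3_b t1087_A00pm_012_s1 k20_A00pm_012_s1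

theorem t1089_A00pm_012_s1 : ∃ t, chk3 f_A00pm_012_s1 t 68 133 1 = true := ex3_a k17_A00pm_012_s1 t1088_A00pm_012_s1

theorem t1090_A00pm_012_s1 : ∃ t, chk3 f_A00pm_012_s1 t 137 531 1 = true := ex3_a k15_A00pm_012_s1 k16_A00pm_012_s1

theorem t1091_A00pm_012_s1 : ∃ t, chk3 f_A00pm_012_s1 t 137 265 1 = true := ex3_b k14_A00pm_012_s1 t1090_A00pm_012_s1

theorem t1092_A00pm_012_s1 : ∃ t, chk3 f_A00pm_012_s1 t 137 132 1 = true := ex3_b k13_A00pm_012_s1 t1091_A00pm_012_s1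

theorem t1093_A00pm_012_s1 : ∃ t, chk3 f_A00pm_012_s1 t 273 265 1 = true := ex3_b k11_A00pm_012_s1 k12_A00pm_012_s1

theorem t1094_A00pm_012_s1 : ∃ t, chk3 f_A00pm_012_s1 t 136 265 1 = true := ex3_a k10_A00pm_012_s1 t1093_A00pm_012_s1

theorem t1095_A00pm_012_s1 : ∃ t, chk3 f_A00pm_012_s1 t 273 529 1 = true := ex3_b k8_A00pm_012_s1 k9_A00pm_012_s1

theorem t1096_A00pm_012_s1 : ∃ t, chk3 f_A00pm_012_s1 t 272 529 1 = true := ex3_b k6_A00pm_012_s1 k7_A00pm_012_s1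

theorem t1097_A00pm_012_s1 : ∃ t, chk3 f_A00pm_012_s1 t 136 529 1 = true := ex3_a t1096_A00pm_012_s1 t1095_A00pm_012_s1

theorem t1098_A00pm_012_s1 : ∃ t, chk3 f_A00pm_012_s1 t 272 1057 1 = true := ex3_a k3_A00pm_012_s1 k4_A00pm_012_s1

theorem t1099_A00pm_012_s1 : ∃ t, chk3 f_A00pm_012_s1 t 272 528 1 = true := ex3_b k2_A00pm_012_s1 t1098_A00pm_012_s1

theorem t1100_A00pm_012_s1 : ∃ t, chk3 f_A00pm_012_s1 t 136 528 1 = true := ex3_a t1099_A00pm_012_s1 k5_A00pm_012_s1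

theorem t1101_A00pm_012_s1 : ∃ t, chk3 f_A00pm_012_s1 t 136 264 1 = true := ex3_b t1100_A00pm_012_s1 t1097_A00pm_012_s1

theorem t1102_A00pm_012_s1 : ∃ t, chk3 f_A00pm_012_s1 t 136 132 1 = true := ex3_b t1101_A00pm_012_s1 t1094_A00pm_012_s1

theorem t1103_A00pm_012_s1 : ∃ t, chk3 f_A00pm_012_s1 t 68 132 1 = true := ex3_a t1102_A00pm_012_s1 t1092_A00pm_012_s1

theorem t1104_A00pm_012_s1 : ∃ t, chk3 f_A00pm_012_s1 t 68 66 1 = true := ex3_b t1103_A00pm_012_s1 t1089_A00pm_012_s1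

theorem t1105_A00pm_012_s1 : ∃ t, chk3 f_A00pm_012_s1 t 34 66 1 = true := ex3_a t1104_A00pm_012_s1 t1086_A00pm_012_s1

theorem t1106_A00pm_012_s1 : ∃ t, chk3 f_A00pm_012_s1 t 34 33 1 = true := ex3_b t1105_A00pm_012_s1 t1079_A00pm_012_s1

theorem t1107_A00pm_012_s1 : ∃ t, chk3 f_A00pm_012_s1 t 17 33 1 = true := ex3_a t1106_A00pm_012_s1 t1074_A00pm_012_s1

theorem t1108_A00pm_012_s1 : ∃ t, chk3 f_A00pm_012_s1 t 17 16 1 = true := ex3_b k1_A00pm_012_s1 t1107_A00pm_012_s1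

theorem t1109_A00pm_012_s1 : ∃ t, chk3 f_A00pm_012_s1 t 8 16 1 = true := ex3_a k0_A00pm_012_s1 t1108_A00pm_012_s1

theorem t1110_A00pm_012_s1 : ∃ t, chk3 f_A00pm_012_s1 t 8 8 1 = true := ex3_b t1109_A00pm_012_s1 t1059_A00pm_012_s1

theorem t1111_A00pm_012_s1 : ∃ t, chk3 f_A00pm_012_s1 t 4 8 1 = true := ex3_a t1110_A00pm_012_s1 t1052_A00pm_012_s1

theorem t1112_A00pm_012_s1 : ∃ t, chk3 f_A00pm_012_s1 t 2 8 1 = true := ex3_a t1111_A00pm_012_s1 t918_A00pm_012_s1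

theorem t1113_A00pm_012_s1 : ∃ t, chk3 f_A00pm_012_s1 t 2 4 1 = true := ex3_b t1112_A00pm_012_s1 t909_A00pm_012_s1

theorem t1114_A00pm_012_s1 : ∃ t, chk3 f_A00pm_012_s1 t 2 2 1 = true := ex3_b t1113_A00pm_012_s1 t810_A00pm_012_s1

theorem t1115_A00pm_012_s1 : ∃ t, chk3 f_A00pm_012_s1 t 1 2 1 = true := ex3_a t1114_A00pm_012_s1 t788_A00pm_012_s1

theorem t1116_A00pm_012_s1 : ∃ t, chk3 f_A00pm_012_s1 t 1 1 1 = true := ex3_b t1115_A00pm_012_s1 t563_A00pm_012_s1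

theorem c_A00pm_012_s1 : CertF 0 536870912 536870912 536870912 649613803 48318383 true true false .pnp 0 1 2
    ndB0q0 ndB0q1 pcB2 cut_A00pm_012_s1 xt_A00pm_012_s1 :=
  certF1 (fam := true) (s1 := true) (s2 := false) (a := 0) (b := 1) (c := 2) (cn := .pnp) (n1 := ndB0q0) (n2 := ndB0q1) (pc := pcB2) (cut := cut_A00pm_012_s1) (xt := xt_A00pm_012_s1) (P1 := 0) (W1 := 536870912) (P2 := 536870912) (W2 := 536870912) (P3 := 649613803) (W3 := 48318383)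
    rfl (fun _ => rfl) t1116_A00pm_012_s1

theorem s_A00pm_012_s1 {κ x : ℝ} (hκ : κ * h0 = ken x) (hx : ((649613803 : ℕ) : ℝ) / S ≤ x)
    (hx' : x ≤ (((649613803 : ℕ) : ℝ) + (48318383 : ℕ)) / S)
    (H : CutA (VFD κ) PP tK tL pcB (Cut.of [[⟨0, 0, 0, 33554432⟩, ⟨1, 1, 0, 33554432⟩, ⟨2, 1, 0, 33554432⟩]]) 0 1 2 0 0 (sgb true) (sgb false) x) :
    AltA (VFD κ) PP tK tL pcB [⟨3, 0, 0, 1449551462⟩] 0 1 2 0 0 (sgb true) (sgb false) x :=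
  strip_altAD (m := 1449551462) true rfl hκ (SH.κ0 hκ (SH.hx1 hx).le (SH.hx2 hx').le) (SH.hx1 hx).le (SH.hx2 hx') (covB00).cov (covB01).cov hx hx' c_A00pm_012_s1 H ((okx6 hx hx').extA (T := tt) (okx hx hx') (sideB hx hx') hκ rfl rfl (.O 0 true) (.O 1 false) rfl)

end Pool.Agent.Strip051.G.I6050_6500.Tab.St.C
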