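import Pool.Agent.Strip051.G.I6050_6500.Tab
import Pool.Agent.Strip051.PB.StripB

/-! # Strips, near vertex: certificates 0 (generated) -/

set_option linter.all false
set_option maxRecDepth 100000

namespace Pool.Agent.Strip051.G.I6050_6500.Tab.CS.BA00

open Pool.Agent.Strip051.PB Pool.Agent.Strip051.PB.T
open Pool.Agent.Strip051.G.I6050_6500.Tab

noncomputable def cut_pp_001_s : Cut := Cut.of [[⟨4, 0, 0, 1449551462⟩]]

noncomputable def f_pp_001_s : ℕ → ℕ → ℕ → ℕ → Bool := onCell 0 536870912 0 536870912 649613803 48318383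
    (rowNE 3 eng mog cd0q0 cd0q0 pd1 0 true true true .up 0 0 1 (qsf 0 536870912 0 536870912 1) ndB0q0 ndB0q0 pcB1 cut_pp_001_s Ext.none)

def k0_pp_001_s : ∃ t, chk3 f_pp_001_s t 1 1 1 = true :=
  ⟨(l 4), by decide +kernel⟩

theorem c_pp_001_s : CertNE 0 536870912 0 536870912 649613803 48318383 3 eng mog cd0q0 cd0q0 pd1 true true true .up 0 0 1
    ndB0q0 ndB0q0 pcB1 cut_pp_001_s Ext.none :=
  certNE0 (fam := true) (s1 := true) (s2 := true) (a := 0) (b := 0) (c := 1) (cn := .up) (n1 := ndB0q0) (n2 := ndB0q0) (pc := pcB1) (cut := cut_pp_001_s) (xt := Ext.none) (P1 := 0) (W1 := 536870912) (P2 := 0) (W2 := 536870912) (P3 := 649613803) (W3 := 48318383) (N0 := 3) (En := eng) (mo := mog) (C1 := cd0q0) (C2 := cd0q0) (C3 := pd1)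
    rfl k0_pp_001_s

noncomputable def cut_pp_001_t : Cut := Cut.of [[⟨3, 0, 0, 2845415833⟩]]

noncomputable def f_pp_001_t : ℕ → ℕ → ℕ → ℕ → Bool := onCell 0 536870912 0 536870912 649613803 48318383
    (rowNE 3 eng mog cd0q0 cd0q0 pd1 0 true true true .up 0 0 1 (qsf 0 536870912 0 536870912 1) ndB0q0 ndB0q0 pcB1 cut_pp_001_t Ext.none)

def k0_pp_001_t : ∃ t, chk3 f_pp_001_t t 1 1 1 = true :=
  ⟨(l 4), by decide +kernel⟩

theorem c_pp_001_t : CertNE 0 536870912 0 536870912 649613803 48318383 3 eng mog cd0q0 cd0q0 pd1 true true true .up 0 0 1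
    ndB0q0 ndB0q0 pcB1 cut_pp_001_t Ext.none :=
  certNE0 (fam := true) (s1 := true) (s2 := true) (a := 0) (b := 0) (c := 1) (cn := .up) (n1 := ndB0q0) (n2 := ndB0q0) (pc := pcB1) (cut := cut_pp_001_t) (xt := Ext.none) (P1 := 0) (W1 := 536870912) (P2 := 0) (W2 := 536870912) (P3 := 649613803) (W3 := 48318383) (N0 := 3) (En := eng) (mo := mog) (C1 := cd0q0) (C2 := cd0q0) (C3 := pd1)
    rfl k0_pp_001_t

noncomputable def cut_pp_011_s : Cut := Cut.of [[⟨4, 0, 0, 1449551462⟩], [⟨0, 0, 0, 67108864⟩, ⟨1, 1, 0, 67108864⟩, ⟨2, 1, 0, 67108864⟩]]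

noncomputable def f_pp_011_s : ℕ → ℕ → ℕ → ℕ → Bool := onCell 0 536870912 536870912 536870912 649613803 48318383
    (rowNE 3 eng mog cd0q0 cd0q1 pd1 0 true true true .pnn 0 1 1 (qsf 0 536870912 536870912 536870912 1) ndB0q0 ndB0q1 pcB1 cut_pp_011_s Ext.none)

def k0_pp_011_s : ∃ t, chk3 f_pp_011_s t 1 1 1 = true :=
  ⟨(l 6), by decide +kernel⟩

theorem c_pp_011_s : CertNE 0 536870912 536870912 536870912 649613803 48318383 3 eng mog cd0q0 cd0q1 pd1 true true true .pnn 0 1 1
    ndB0q0 ndB0q1 pcB1 cut_pp_011_s Ext.none :=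
  certNE0 (fam := true) (s1 := true) (s2 := true) (a := 0) (b := 1) (c := 1) (cn := .pnn) (n1 := ndB0q0) (n2 := ndB0q1) (pc := pcB1) (cut := cut_pp_011_s) (xt := Ext.none) (P1 := 0) (W1 := 536870912) (P2 := 536870912) (W2 := 536870912) (P3 := 649613803) (W3 := 48318383) (N0 := 3) (En := eng) (mo := mog) (C1 := cd0q0) (C2 := cd0q1) (C3 := pd1)
    rfl k0_pp_011_s

noncomputable def cut_pp_011_t : Cut := Cut.of [[⟨3, 0, 0, 2845415833⟩], [⟨0, 0, 0, 67108864⟩, ⟨1, 1, 0, 67108864⟩, ⟨2, 1, 0, 67108864⟩]]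

noncomputable def f_pp_011_t : ℕ → ℕ → ℕ → ℕ → Bool := onCell 0 536870912 536870912 536870912 649613803 48318383
    (rowNE 3 eng mog cd0q0 cd0q1 pd1 0 true true true .pnn 0 1 1 (qsf 0 536870912 536870912 536870912 1) ndB0q0 ndB0q1 pcB1 cut_pp_011_t Ext.none)

def k0_pp_011_t : ∃ t, chk3 f_pp_011_t t 1 1 1 = true :=
  ⟨(b (l 4) (a (b (l 4) (a (b (l 4) (a (b (l 4) (a (l 14) (l 4))) (l 4))) (l 4))) (l 4))), by decide +kernel⟩

theorem c_pp_011_t : CertNE 0 536870912 536870912 536870912 649613803 48318383 3 eng mog cd0q0 cd0q1 pd1 true true true .pnn 0 1 1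
    ndB0q0 ndB0q1 pcB1 cut_pp_011_t Ext.none :=
  certNE0 (fam := true) (s1 := true) (s2 := true) (a := 0) (b := 1) (c := 1) (cn := .pnn) (n1 := ndB0q0) (n2 := ndB0q1) (pc := pcB1) (cut := cut_pp_011_t) (xt := Ext.none) (P1 := 0) (W1 := 536870912) (P2 := 536870912) (W2 := 536870912) (P3 := 649613803) (W3 := 48318383) (N0 := 3) (En := eng) (mo := mog) (C1 := cd0q0) (C2 := cd0q1) (C3 := pd1)
    rfl k0_pp_011_t

noncomputable def cut_pp_012_s : Cut := Cut.of [[⟨4, 0, 0, 1449551462⟩], [⟨0, 0, 0, 67108864⟩, ⟨1, 1, 0, 67108864⟩, ⟨2, 1, 0, 67108864⟩]]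

noncomputable def f_pp_012_s : ℕ → ℕ → ℕ → ℕ → Bool := onCell 0 536870912 536870912 536870912 649613803 48318383
    (rowNE 3 eng mog cd0q0 cd0q1 pd2 0 true true true .pnp 0 1 2 (qsf 0 536870912 536870912 536870912 2) ndB0q0 ndB0q1 pcB2 cut_pp_012_s Ext.none)

def k0_pp_012_s : ∃ t, chk3 f_pp_012_s t 1 1 1 = true :=
  ⟨(l 6), by decide +kernel⟩

theorem c_pp_012_s : CertNE 0 536870912 536870912 536870912 649613803 48318383 3 eng mog cd0q0 cd0q1 pd2 true true true .pnp 0 1 2
    ndB0q0 ndB0q1 pcB2 cut_pp_012_s Ext.none :=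
  certNE0 (fam := true) (s1 := true) (s2 := true) (a := 0) (b := 1) (c := 2) (cn := .pnp) (n1 := ndB0q0) (n2 := ndB0q1) (pc := pcB2) (cut := cut_pp_012_s) (xt := Ext.none) (P1 := 0) (W1 := 536870912) (P2 := 536870912) (W2 := 536870912) (P3 := 649613803) (W3 := 48318383) (N0 := 3) (En := eng) (mo := mog) (C1 := cd0q0) (C2 := cd0q1) (C3 := pd2)
    rfl k0_pp_012_s

noncomputable def cut_pp_012_t : Cut := Cut.of [[⟨3, 0, 0, 2845415833⟩], [⟨0, 0, 0, 67108864⟩, ⟨1, 1, 0, 67108864⟩, ⟨2, 1, 0, 67108864⟩]]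

noncomputable def f_pp_012_t : ℕ → ℕ → ℕ → ℕ → Bool := onCell 0 536870912 536870912 536870912 649613803 48318383
    (rowNE 3 eng mog cd0q0 cd0q1 pd2 0 true true true .pnp 0 1 2 (qsf 0 536870912 536870912 536870912 2) ndB0q0 ndB0q1 pcB2 cut_pp_012_t Ext.none)

def k0_pp_012_t : ∃ t, chk3 f_pp_012_t t 1 1 1 = true :=
  ⟨(b (l 4) (a (b (l 4) (a (b (l 4) (a (b (l 4) (a (l 14) (l 4))) (l 4))) (l 4))) (l 4))), by decide +kernel⟩

theorem c_pp_012_t : CertNE 0 536870912 536870912 536870912 649613803 48318383 3 eng mog cd0q0 cd0q1 pd2 true true true .pnp 0 1 2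
    ndB0q0 ndB0q1 pcB2 cut_pp_012_t Ext.none :=
  certNE0 (fam := true) (s1 := true) (s2 := true) (a := 0) (b := 1) (c := 2) (cn := .pnp) (n1 := ndB0q0) (n2 := ndB0q1) (pc := pcB2) (cut := cut_pp_012_t) (xt := Ext.none) (P1 := 0) (W1 := 536870912) (P2 := 536870912) (W2 := 536870912) (P3 := 649613803) (W3 := 48318383) (N0 := 3) (En := eng) (mo := mog) (C1 := cd0q0) (C2 := cd0q1) (C3 := pd2)
    rfl k0_pp_012_t

noncomputable def cut_pp_022_s : Cut := Cut.of [[⟨4, 0, 0, 1449551462⟩], [⟨0, 0, 0, 53687091⟩, ⟨1, 1, 0, 53687091⟩, ⟨2, 1, 0, 53687091⟩]]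

noncomputable def f_pp_022_s : ℕ → ℕ → ℕ → ℕ → Bool := onCell 0 536870912 0 536870912 649613803 48318383
    (rowNE 3 eng mog cd0q0 cd0q2 pd2 0 true true true .pp 0 2 2 (qsf 0 536870912 0 536870912 2) ndB0q0 ndB0q2 pcB2 cut_pp_022_s Ext.none)

def k0_pp_022_s : ∃ t, chk3 f_pp_022_s t 1 1 1 = true :=
  ⟨(l 6), by decide +kernel⟩

theorem c_pp_022_s : CertNE 0 536870912 0 536870912 649613803 48318383 3 eng mog cd0q0 cd0q2 pd2 true true true .pp 0 2 2
    ndB0q0 ndB0q2 pcB2 cut_pp_022_s Ext.none :=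
  certNE0 (fam := true) (s1 := true) (s2 := true) (a := 0) (b := 2) (c := 2) (cn := .pp) (n1 := ndB0q0) (n2 := ndB0q2) (pc := pcB2) (cut := cut_pp_022_s) (xt := Ext.none) (P1 := 0) (W1 := 536870912) (P2 := 0) (W2 := 536870912) (P3 := 649613803) (W3 := 48318383) (N0 := 3) (En := eng) (mo := mog) (C1 := cd0q0) (C2 := cd0q2) (C3 := pd2)
    rfl k0_pp_022_s

noncomputable def cut_pp_022_t : Cut := Cut.of [[⟨3, 0, 0, 2845415833⟩], [⟨0, 0, 0, 53687091⟩, ⟨1, 1, 0, 53687091⟩, ⟨2, 1, 0, 53687091⟩]]

noncomputable def f_pp_022_t : ℕ → ℕ → ℕ → ℕ → Bool := onCell 0 536870912 0 536870912 649613803 48318383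
    (rowNE 3 eng mog cd0q0 cd0q2 pd2 0 true true true .pp 0 2 2 (qsf 0 536870912 0 536870912 2) ndB0q0 ndB0q2 pcB2 cut_pp_022_t Ext.none)

def k0_pp_022_t : ∃ t, chk3 f_pp_022_t t 2 2 1 = true :=
  ⟨(a (b (l 6) (a (l 6) (b (l 6) (b (l 6) (a (a (l 6) (b (l 6) (l 16573584))) (a (b (l 16574168) (l 16606976)) (l 16612848))))))) (b (a (l 6) (b (l 6) (a (l 6) (a (l 6) (b (l 6) (l 16623288)))))) (a (b (a (l 6) (b (l 6) (l 16608904))) (a (a (b (l 16579880) (l 16603424)) (b (l 16590408) (l 16635920))) (b (c (l 16628328) (l 16628680)) (a (l 16668624) (l 16683576))))) (b (a (b (a (l 16591912) (l 16606368)) (a (l 16627960) (l 16621336))) (b (a (l 16621224) (l 16636384)) (a (l 16636232) (l 16672384)))) (a (b (a (c (l 16647272) (l 16647768)) (c (l 16640824) (l 16661616))) (b (a (l 16645216) (c (l 16658816) (l 16659264))) (a (l 16659360) (a (l 16690736) (l 16698056))))) (b (a (b (l 16650408) (l 16661568)) (c (l 16671880) (l 16691264))) (b (a (l 16695248) (a (l 16685824) (l 16693576))) (a (c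 (l 16688400) (l 16709376)) (c (l 16725184) (l 16724736)))))))))), by decide +kernel⟩

def k1_pp_022_t : ∃ t, chk3 f_pp_022_t t 8 6 1 = true :=
  ⟨(b (b (a (l 6) (a (l 6) (b (l 6) (a (l 16570192) (a (l 16594904) (b (l 16573432) (l 16580328))))))) (b (a (l 6) (a (c (a (l 16575872) (l 16580752)) (a (l 16576008) (l 16580352))) (a (l 16606192) (b (l 16586432) (l 16594256))))) (a (a (a (l 6) (l 16574656)) (a (l 16582288) (l 16586728))) (a (a (l 16591248) (l 16596048)) (c (a (l 16601336) (l 16606872)) (a (l 16601216) (l 16606288))))))) (a (b (a (b (a (c (l 16578240) (l 16574608)) (l 16584920)) (a (c (l 16589304) (l 16585320)) (c (l 16597760) (l 16594304)))) (b (a (l 16592936) (l 16600632)) (a (c (l 16605864) (l 16602904)) (l 16612544)))) (a (b (a (c (l 16601344) (l 16597136)) (c (l 16610128) (l 16606408))) (a (c (l 16614472) (l 16610200)) (c (l 16623552) (l 16619744)))) (b (a (c (l 16618560) (l 16615312)) (a (l 16623328) (l 16595984))) (a (c (l 16632280) (l 16628904)) (c (l 16640712)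 (l 16637744)))))) (b (a (b (a (l 16607288) (l 16612272)) (a (l 16620336) (l 16627904))) (b (a (l 16617512) (l 16622984)) (a (l 16634304) (l 16639952)))) (a (b (a (l 16633496) (l 16641392)) (a (b (l 16643992) (l 16651360)) (c (l 16656872) (l 16665152)))) (a (b (l 16649112) (l 16663848)) (b (l 16656688) (l 16671712))))))), by decide +kernel⟩

def k2_pp_022_t : ∃ t, chk3 f_pp_022_t t 9 6 1 = true :=
  ⟨(b (a (b (a (b (a (l 6) (l 16576040)) (a (l 16582160) (l 16589208))) (b (l 16586024) (l 16620456))) (a (b (a (a (a (l 16614760) (l 16616336)) (l 16597984)) (l 16603376)) (a (b (a (l 16606400) (l 16609352)) (l 16616072)) (b (l 16614616) (a (l 16620640) (l 16624208))))) (a (b (l 16610448) (l 16625736)) (b (l 16617384) (l 16632856))))) (b (a (b (l 16598880) (l 16612752)) (b (l 16611360) (l 16625664))) (a (b (l 16627584) (l 16643320)) (b (l 16640904) (l 16657032))))) (a (a (a (b (b (l 16628688) (l 16645816)) (b (l 16663304) (l 16679472))) (b (b (b (a (l 16628848) (l 16632152)) (l 16638904))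 (l 16651896)) (b (l 16669544) (l 16687120)))) (a (b (b (l 16650856) (a (l 16677616) (l 16670568))) (b (l 16675976) (l 16694032))) (b (b (l 16648960) (l 16665560)) (b (b (l 16678368) (l 16708168)) (b (l 16696200) (l 16705336)))))) (b (a (b (l 16659688) (a (l 16672888) (l 16680144))) (b (l 16694720) (a (l 16687336) (l 16694496)))) (a (a (b (l 16690152) (b (l 16724336) (a (l 16710560) (l 16714200)))) (b (l 16697544) (l 16725848))) (a (b (l 16704888) (l 16733320)) (b (l 16712192) (b (l 16725696) (l 16734808)))))))), by decide +kernel⟩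

def k3_pp_022_t : ∃ t, chk3 f_pp_022_t t 16 14 1 = true :=
  ⟨(b (a (b (a (a (b (l 16620584) (l 16628088)) (l 16644936)) (a (l 16654952) (l 16659632))) (a (a (c (l 16642032) (l 16658944)) (b (l 16640880) (l 16649128))) (a (b (l 16645728) (l 16654008)) (b (l 16650480) (l 16658808))))) (b (a (a (l 16664224) (l 16668736)) (a (l 16673168) (l 16677536))) (b (a (l 16667944) (l 16687456)) (a (a (l 16663520) (l 16668152)) (c (l 16676272) (l 16673576)))))) (a (b (b (a (a (l 16652688) (l 16657704)) (a (l 16662632) (l 16667464))) (a (a (c (l 16663360) (l 16659776)) (l 16677120)) (a (l 16671592) (l 16676456)))) (a (a (b (c (l 16672504) (l 16669152)) (l 14)) (b (c (l 16677472) (l 16674328)) (c (l 16687000) (l 16694600)))) (b (a (c (l 16682360) (l 16679408)) (c (l 16687160) (l 16684400))) (a (c (l 16691912) (l 16689216)) (c (l 16696736) (l 16694224)))))) (b (a (b (a (l 16672216) (l 16676888)) (a (l 16681240) (l 16685952))) (a (b (l 16681488) (l 16690584)) (b (l 16686016) (l 16695152)))) (a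 (b (a (c (l 16691880) (l 16689304)) (l 16705840)) (a (c (l 16701488) (l 16699152)) (c (l 16706168) (l 16704008)))) (b (a (l 16710504) (l 16715104)) (a (c (l 16710776) (l 16708784)) (c (l 16715320) (l 16713488)))))))), by decide +kernel⟩

def k4_pp_022_t : ∃ t, chk3 f_pp_022_t t 17 14 1 = true :=
  ⟨(b (b (a (a (c (l 16685200) (l 16682616)) (b (l 16667360) (l 16675416))) (a (b (a (l 16673504) (l 16677552)) (a (l 16681632) (l 16685736))) (a (l 16685688) (l 16689712)))) (a (b (a (l 16696208) (l 16694256)) (a (c (l 16684944) (l 16682584)) (c (l 16693408) (l 16691360)))) (c (a (b (l 16693008) (l 16701704)) (b (l 16701088) (l 16730840))) (b (a (l 16691152) (l 16699528)) (a (l 16699944) (l 16708400)))))) (a (a (b (b (a (l 16690480) (l 16694880)) (c (l 16702872) (l 16711328))) (b (a (l 16719640) (l 16724112)) (a (c (l 16719808) (l 16718136)) (c (l 16724240) (l 16722720))))) (b (b (c (l 16702304) (l 16700400)) (c (l 16721984) (l 16717624))) (b (a (c (l 16718832) (l 16717224)) (c (l 16723128)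 (l 16721672))) (b (a (l 16725432) (l 16729832)) (a (l 16730464) (l 16745360)))))) (b (b (a (b (l 16718088) (l 16722680)) (a (l 16726680) (l 16730848))) (a (a (l 16727592) (l 16731848)) (b (a (l 16723200) (l 16727384)) (a (l 16727968) (l 16732168))))) (b (b (a (a (l 16724296) (l 16728576)) (a (l 16732816) (l 16737032))) (a (a (l 16729200) (l 16733488)) (a (l 16737744) (l 16747216)))) (b (a (a (l 16734176) (l 16748968)) (a (l 16748000) (c (l 16747368) (l 16746592)))) (a (a (l 16744480) (c (l 16744000) (l 16743096))) (a (c (l 16748224) (l 16747448)) (b (l 16756056) (l 16758624))))))))), by decide +kernel⟩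

def k5_pp_022_t : ∃ t, chk3 f_pp_022_t t 16 15 1 = true :=
  ⟨(b (a (b (a (l 14) (b (b (a (c (l 16699304) (l 16696816)) (l 16703008)) (a (l 14) (c (l 16709208) (l 16707048)))) (l 14))) (l 14)) (b (a (b (a (c (l 16721936) (b (l 16706784) (l 16711992))) (b (l 16712640) (l 16723032))) (a (c (b (l 16719152) (l 16724416)) (b (l 16717304) (l 16722720))) (c (b (l 16723864) (l 16729136)) (b (l 16722192) (l 16727608))))) (b (a (b (l 16717352) (l 16727760)) (b (l 16722000) (l 16732416))) (a (c (b (l 16728512) (l 16733792)) (b (l 16727000) (l 16732432))) (c (b (l 16733104) (l 16738384)) (b (l 16731744) (l 16737184)))))) (a (b (a (l 14) (a (b (l 16732632) (l 14)) (b (l 16740264) (a (l 14) (l 16741176))))) (l 14)) (b (a (a (b (l 16742632) (c (l 16743488) (l 16742408))) (b (l 16744992) (c (l 16745808) (l 16744808)))) (b (c (l 16749016) (a (l 16741536) (l 16743904))) (c (a (l 16748112) (l 16750400)) (a (l 16747192) (l 16749560))))) (a (b (c (a (l 16749072) (l 16751392)) (a (l 16753408) (l 16753192)))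 (l 14)) (b (c (a (l 16758944) (l 16758616)) (a (l 16755576) (c (l 16755488) (l 16755144)))) (b (c (a (l 16757960) (l 16760248)) (a (l 16757336) (l 16759712))) (a (c (l 16760824) (l 16760304)) (c (l 16763120) (l 16765288)))))))))) (a (l 14) (b (b (b (a (l 14) (a (l 14) (a (l 14) (a (b (c (l 16765448) (l 16765072)) (l 14)) (b (c (l 16766592) (l 16766248)) (b (l 16769952) (l 14))))))) (l 14)) (l 14)) (l 14)))), by decide +kernel⟩

def k6_pp_022_t : ∃ t, chk3 f_pp_022_t t 34 60 1 = true :=
  ⟨(b (a (b (a (l 16726584) (l 16736352)) (a (c (l 16732424) (l 16731080)) (c (l 16736888) (l 16735696)))) (b (a (l 16740824) (c (l 16740520) (l 16739472))) (a (c (l 16741304) (l 16740256)) (c (l 16745672) (l 16744760))))) (a (b (a (c (l 16737632) (l 16736432)) (c (l 16742104) (l 16741056))) (a (c (l 16742928) (l 16747112)) (c (l 16752656) (l 16749128)))) (c (b (a (l 16746536) (l 16756160)) (a (l 16757096) (c (l 16756384) (l 16761328)))) (b (a (l 16745624) (l 16755384)) (a (a (l 16749944) (l 16752224))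 (c (l 16761024) (l 16758072))))))), by decide +kernel⟩

def k7_pp_022_t : ∃ t, chk3 f_pp_022_t t 68 61 1 = true :=
  ⟨(b (c (b (a (a (l 16747184) (l 16749448)) (c (l 16752992) (l 16757872))) (a (c (l 16756616) (l 16756256)) (a (l 16762440) (l 16762056)))) (b (a (a (l 16746248) (l 16748584)) (c (l 16757496) (l 16754488))) (a (a (l 16751912) (l 16756864)) (a (l 16759192) (c (l 16759024) (l 16758736)))))) (a (a (b (b (l 16759168) (a (l 16758832) (l 16759984))) (b (c (l 16762528) (l 16762064)) (c (l 16766712) (c (l 16765120) (l 16764928))))) (b (c (c (l 16763288) (l 16763032)) (c (l 16762768) (l 16762496))) (b (c (l 16767416) (l 16765712)) (c (c (l 16767744) (l 16770216)) (c (l 16770064) (l 16768600)))))) (c (b (b (c (l 16765232) (l 16765008)) (a (l 16764200) (l 16769064))) (a (a (b (l 16766488) (l 16771984)) (b (l 16767616) (l 16771800))) (b (c (l 16771976) (l 16770544)) (b (c (l 16774112) (l 16772712)) (a (l 16772328) (l 16774760)))))) (b (b (a (l 16760880) (l 16763192)) (a (l 16766416)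 (l 16767416))) (a (a (b (l 16766152) (l 16770424)) (b (l 16767312) (a (l 16769984) (l 16771872)))) (a (b (l 16768472) (c (l 16772792) (l 16772696))) (b (l 16770936) (b (l 16771840) (l 16774640))))))))), by decide +kernel⟩

def k8_pp_022_t : ∃ t, chk3 f_pp_022_t t 69 122 1 = true :=
  ⟨(b (a (a (a (l 16757896) (l 16759016)) (b (l 16756696) (l 16762088))) (a (b (l 16764176) (l 16764320)) (b (l 16763776) (a (l 16763368) (l 16764480))))) (a (a (b (l 16762632) (a (l 16762264) (l 16763392))) (b (c (l 16762480) (l 16762032)) (c (l 16765264) (l 16764896)))) (c (b (a (l 16764688) (l 16766880)) (a (l 16770088) (c (l 16772336) (l 16772224)))) (b (a (l 16764304) (l 16769184)) (a (l 16768480) (c (l 16772112) (l 16770680))))))), by decide +kernel⟩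

def k9_pp_022_t : ∃ t, chk3 f_pp_022_t t 69 246 1 = true :=
  ⟨(a (a (b (c (l 16768472) (l 16768120)) (c (c (l 16771360) (l 16771232)) (c (l 16771096) (l 16769648)))) (c (b (l 16769376) (a (l 16772960) (l 16772760))) (b (c (l 16767856) (l 16767712)) (b (l 16771280) (c (l 16774096) (l 16772696)))))) (b (a (c (c (l 16772944) (l 16771528)) (b (l 16769336) (l 16772096))) (c (b (l 16773072) (a (l 16772624) (l 16776344))) (b (c (l 16774264) (l 16774176)) (a (l 16772480) (l 16774928))))) (b (c (a (a (l 16771840) (l 16772944)) (l 16775408)) (a (c (l 16773592) (l 16773512)) (b (a (l 16773576) (a (l 16774424) (l 16774992))) (l 16775528)))) (a (c (a (l 16774568) (a (l 16774088) (l 16775952))) (a (l 16774448) (c (l 16775608) (l 16775560)))) (a (c (l 16775464) (l 16775408)) (b (l 16776512) (a (l 16776632) (a (l 16777696) (l 63585650071))))))))), by decide +kernel⟩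

def k10_pp_022_t : ∃ t, chk3 f_pp_022_t t 69 247 1 = true :=
  ⟨(b (b (a (c (a (l 16772120) (a (l 16772472) (l 16774896))) (a (c (l 16770664) (l 16770560)) (a (l 16772328) (l 16774784)))) (a (c (c (l 16775912) (l 16775880)) (b (l 16775464) (c (l 16775560) (l 16776192)))) (a (b (c (l 16777184) (l 16777160)) (a (c (l 16777616) (l 16777608)) (a (a (l 63585649895) (l 104387839111)) (l 171496702615)))) (a (b (a (l 44258297143) (l 95261033991)) (l 4)) (l 4))))) (a (a (c (c (l 16773592) (l 16773512)) (a (l 16771512) (l 16773968))) (b (a (l 16774640) (c (l 16775968) (l 16775888))) (a (a (l 16773936) (l 16774504)) (l 16776000)))) (a (a (a (l 16776480) (b (l 16776016) (l 16777400))) (a (b (l 16776576) (b (l 16777928) (c (l 101166613703) (l 104387839159)))) (b (a (l 16777648) (a (l 16777840) (l 69491229975))) (l 4)))) (b (a (a (a (l 113514644935) (l 4)) (l 4)) (l 4)) (l 4))))) (a (b (a (c (a (l 16774432) (c (l 16775568) (l 16775520))) (a (l 16774304) (a (l 16773856) (l 16775736)))) (a (c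 (l 16775344) (l 16775944)) (a (c (l 16776176) (l 16776144)) (b (l 16776360) (a (l 16777600) (c (l 44795167911) (l 46942651543))))))) (a (a (a (a (l 16775408) (l 16775696)) (c (l 16776152) (l 16776080))) (c (l 16776336) (l 16776120))) (a (a (a (l 16776688) (b (l 16776272) (l 16777656))) (b (l 16777352) (b (c (l 48553264247) (l 51237618791)) (l 167738606167)))) (b (b (a (l 16777720) (l 172033573495)) (a (a (l 68954358679) (l 4)) (l 4))) (l 4))))) (b (a (a (b (a (c (l 16777568) (l 16777560)) (a (c (l 64659391751) (l 66806875383)) (l 162906767959))) (a (c (l 151632478855) (l 151632478839)) (l 4))) (l 4)) (l 4)) (l 4)))), by decide +kernel⟩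

def k11_pp_022_t : ∃ t, chk3 f_pp_022_t t 35 60 1 = true :=
  ⟨(b (a (c (b (a (l 16744832) (l 16749104)) (a (l 16750000) (l 16759528))) (b (a (l 16743920) (l 16748328)) (a (l 16754464) (l 16756264)))) (a (a (b (l 16757192) (c (l 16757472) (l 16756928))) (b (l 16759336) (c (l 16759592) (l 16759104)))) (c (b (l 16761472) (b (l 16766680) (l 16766680))) (a (b (l 16755936) (l 16766520)) (b (l 16758088) (l 16766056)))))) (a (a (c (b (l 16759184) (a (l 16759504) (l 16766912))) (b (a (l 16753504) (l 16755728)) (a (l 16764224) (l 16763832)))) (a (b (c (l 16758480) (l 16757944)) (b (l 16764888) (a (l 16764456) (l 16765544)))) (b (c (l 16765864) (l 16765392)) (c (c (l 16768664) (l 16768512)) (b (l 16764256) (l 16769656)))))) (b (a (a (b (l 16761200) (l 16766520)) (b (l 16765976) (c (l 16766200) (l 16765888)))) (b (c (a (l 16765656) (l 16773000)) (a (l 16765336) (l 16770120))) (c (a (l 16773560) (c (l 16773088) (l 16773000))) (a (l 16770688) (a (l 16769696) (l 16773400)))))) (b (a (a (c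 (l 16766752) (l 16766456)) (c (l 16771504) (l 16771264))) (c (c (l 16773400) (l 16773336)) (a (c (l 16773496) (l 16772744)) (l 16774312)))) (a (c (a (l 16772080) (a (l 16773680) (l 16774736))) (a (c (l 16771912) (l 16771792)) (a (l 16773496) (l 16773280)))) (a (c (l 16775016) (l 16774920)) (a (c (l 16775296) (l 16775240)) (b (l 16775648) (b (l 16777984) (a (l 16778400) (l 118883354439))))))))))), by decide +kernel⟩

def k12_pp_022_t : ∃ t, chk3 f_pp_022_t t 35 244 1 = true :=
  ⟨(a (b (c (a (c (l 16767360) (l 16767184)) (a (l 16770512) (b (l 16769360) (l 16773344)))) (a (c (l 16766992) (l 16766800)) (a (l 16770240) (b (l 16769128) (l 16773152))))) (a (a (c (l 16766304) (l 16765976)) (c (l 16771096) (l 16769520))) (a (c (b (l 16769944) (l 16773944)) (b (l 16769728) (l 16773768))) (b (c (l 16774720) (c (l 16774608) (l 16774528))) (b (a (l 16772520) (a (l 16773344) (l 16773888))) (l 16774424)))))) (a (a (a (c (b (l 16774264) (l 16774392)) (b (b (l 16770784) (l 16772184)) (l 16774312)))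 (c (b (b (l 16772032) (l 16773400)) (l 16776448)) (b (b (l 16771880) (l 16775912)) (c (l 16776736) (l 16776048))))) (b (c (c (l 16774336) (l 16774296)) (c (l 16775560) (l 16774864))) (a (b (l 16776472) (b (a (l 16776600) (l 16778104)) (a (l 61438166679) (l 4)))) (b (b (l 16777856) (a (l 16776968) (l 92039808887))) (c (l 168812349031) (c (l 172570445383) (l 174717929015))))))) (b (a (b (a (l 16775192) (c (l 16776280) (l 16776256))) (a (c (l 16777888) (c (l 16777872) (l 16777864))) (b (a (l 16778336) (l 103850968887)) (l 171496703143)))) (b (b (a (a (l 16776728) (l 53385103111)) (l 177939154167)) (a (a (l 76470552439) (l 4)) (l 4))) (l 4))) (b (b (a (a (a (l 68417488647) (l 4)) (l 4)) (l 4)) (l 4)) (l 4))))), by decide +kernel⟩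

def k13_pp_022_t : ∃ t, chk3 f_pp_022_t t 35 245 1 = true :=
  ⟨(b (a (a (c (a (l 16770376) (b (l 16773160) (l 16773240))) (a (c (l 16771504) (l 16771376)) (b (l 16772960) (a (l 16771208) (l 16772328))))) (a (b (c (a (l 16772160) (l 16773240)) (a (l 16772016) (l 16775744))) (a (c (l 16776176) (l 16776064)) (l 16774592))) (a (c (l 16776328) (l 16775600)) (b (l 16776680) (a (l 16777488) (b (l 16776696) (c (l 72712455783) (l 73786197671)))))))) (a (b (a (a (c (l 16777768) (c (l 16777752) (l 16777408))) (a (b (l 16776912) (l 112440903543)) (b (l 80765519799) (l 4)))) (l 4)) (b (a (a (a (c (l 16777848) (l 49627006503)) (l 173107315543)) (l 4)) (l 4)) (l 4))) (l 4))) (a (a (a (a (c (l 16773920) (l 16772432)) (b (l 16772920) (a (l 16772752) (l 16775928)))) (c (c (l 16775352) (l 16774656)) (b (a (l 16772648) (c (l 16773784) (l 16773736))) (l 16775304)))) (a (a (b (l 16775568) (c (l 16777488) (c (l 16777632) (l 16777288)))) (a (b (l 16775736) (b (l 16776792) (a (l 74323068311) (l 139284448615))))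 (b (l 16776280) (b (c (l 63048779351) (l 65733133895)) (l 4))))) (b (b (c (a (l 16778056) (l 149484995495)) (a (l 16778040) (c (l 153779962759) (l 155927446391)))) (a (a (c (l 16777816) (l 16777968)) (l 165591122679)) (l 4))) (l 4)))) (l 4))), by decide +kernel⟩

def k14_pp_022_t : ∃ t, chk3 f_pp_022_t t 35 123 1 = true :=
  ⟨(a (b (a (b (b (a (a (c (l 16776024) (l 16774600)) (l 16775112)) (a (c (l 16775584) (l 16775536)) (a (l 16777040) (b (l 16776576) (c (l 56069457399) (l 58753811943)))))) (a (a (l 16775432) (a (l 16775608) (l 16776160))) (a (b (c (l 16777944) (l 16777272)) (a (c (l 16777712) (l 16777704)) (a (l 94724163079) (l 4)))) (b (a (a (l 63585650055) (l 126936417639)) (l 4)) (l 4))))) (b (b (a (a (l 16775856) (a (l 16776688) (a (l 16777744) (l 74323068311)))) (a (a (l 172570444631) (l 4)) (l 4))) (a (a (c (l 16777888) (l 16777216)) (a (a (l 52848231815) (l 112440903095)) (l 4))) (l 4))) (a (a (b (a (c (l 16777664) (l 16777656)) (a (l 85597357479) (l 179012895463)))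 (a (l 165591122695) (l 4))) (l 4)) (l 4)))) (b (b (a (a (a (b (c (l 16777768) (l 16778080)) (l 179012895655)) (c (l 164517381335) (l 169349219495))) (l 4)) (l 4)) (l 4)) (l 4))) (l 4)) (l 4)), by decide +kernel⟩

def k15_pp_022_t : ∃ t, chk3 f_pp_022_t t 136 124 1 = true :=
  ⟨(a (b (a (b (c (l 16767728) (l 16770048)) (c (c (l 16772016) (l 16771912)) (c (l 16771808) (l 16771696)))) (b (c (l 16771488) (l 16769912)) (b (c (l 16771056) (l 16770856)) (c (l 16773832) (l 16773688))))) (b (a (l 14) (a (b (a (l 16774824) (l 16774456)) (l 14)) (c (b (l 16775592) (l 16776416)) (b (l 16774840) (b (l 16775984) (l 14)))))) (l 14))) (a (b (c (b (l 16771312) (b (l 16772192) (a (l 16773376) (l 16775256)))) (b (a (l 16769480) (l 16771376)) (b (l 16773344) (a (l 16773256) (l 16775144))))) (b (b (b (c (l 16775416) (c (l 16776016) (l 16775976))) (a (c (l 16775216) (l 16775152)) (c (c (l 16775792) (l 16777080)) (a (l 16775592) (l 16775888))))) (b (c (l 16776568) (c (l 16776216) (l 16776200))) (a (c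 (l 16777352) (l 16777088)) (b (a (l 16776936) (a (l 16777144) (l 67880616695))) (a (c (l 64659391399) (l 66806875047)) (l 4)))))) (a (a (l 14) (a (l 14) (a (l 14) (l 4)))) (l 4)))) (b (b (c (a (l 16772160) (l 16772728)) (c (l 16772296) (l 16772200))) (b (c (l 16774632) (c (l 16774544) (l 16774480))) (a (c (l 16775816) (l 16775072)) (b (l 16775976) (a (l 16775272) (l 16776864)))))) (b (a (b (c (l 16776640) (l 16776272)) (b (b (c (l 16776904) (l 16777544)) (a (l 16777616) (l 102777226167))) (c (l 173107315623) (c (l 176865411991) (l 179549766535))))) (b (b (l 16776488) (a (l 16777424) (a (l 16777632) (b (l 16776936) (l 76470551271))))) (a (b (a (b (l 16777560) (l 4)) (l 166127993383)) (l 4)) (l 4)))) (l 4))))), by decide +kernel⟩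

def k16_pp_022_t : ∃ t, chk3 f_pp_022_t t 137 124 1 = true :=
  ⟨(b (b (b (a (a (a (l 16771160) (l 16771728)) (a (l 16773616) (l 16774184))) (a (c (l 16774760) (c (l 16775008) (l 16774952))) (a (c (l 16775928) (l 16775848)) (b (l 16776088) (c (l 16775544) (l 16776800)))))) (a (c (a (l 16774296) (c (l 16775448) (l 16775400))) (a (l 16774168) (c (l 16775352) (l 16775304)))) (a (c (l 16775888) (a (c (l 16776216) (l 16776176)) (b (l 16775088) (a (l 16775696) (l 16775984))))) (b (c (l 16775992) (l 16775952)) (a (l 16776432) (a (l 16777504) (b (l 16776952) (l 73249326007)))))))) (b (a (c (c (a (l 16775784) (l 16775592)) (a (l 16775408) (l 16775560))) (a (a (l 16775384) (l 16775312)) (c (l 16776192) (l 16775840)))) (a (b (c (l 16776984) (l 16776632)) (b (a (l 16776592) (a (l 16777016) (l 68417487767))) (a (l 16777616) (c (l 108145935623) (l 152169349575))))) (b (b (a (l 16777632) (c (l 114588386519) (l 155927445991))) (a (a (l 16777688) (l 135526351767)) (l 4))) (l 4)))) (a (a (c (c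 (l 16776584) (l 16776560)) (c (l 16776216) (c (l 16776528) (l 16776192)))) (b (a (l 16776384) (b (l 16776768) (a (l 16776992) (l 56606327831)))) (b (a (l 16777512) (a (l 83986744327) (l 4))) (a (a (l 16777648) (l 120493966247)) (l 4))))) (b (b (a (a (a (l 16777672) (l 130157642615)) (l 4)) (l 4)) (l 4)) (l 4))))) (b (b (a (b (a (a (c (l 16777392) (l 16777216)) (b (a (l 16776976) (l 51237618679)) (a (l 78618035175) (l 4)))) (l 4)) (a (a (b (a (l 16777632) (l 111367160791)) (l 175791669927)) (l 4)) (l 4))) (l 4)) (l 4)) (l 4))), by decide +kernel⟩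

def k17_pp_022_t : ∃ t, chk3 f_pp_022_t t 69 124 1 = true :=
  ⟨(b (a (b (b (b (a (a (b (l 16775448) (l 16776472)) (a (l 16776480) (a (l 16777552) (b (l 16777000) (l 83986744327))))) (a (a (a (b (l 57143198743) (l 4)) (l 4)) (l 4)) (l 4))) (a (a (c (l 16777032) (l 16776680)) (b (a (l 16777680) (l 163980509751)) (a (a (l 16777720) (l 104387839575)) (l 4)))) (l 4))) (a (a (a (b (c (l 16777480) (l 16777464)) (b (a (l 16777696) (l 104387839543)) (l 4))) (b (b (a (l 16777056) (l 78081164263)) (c (l 125325804711) (l 159685542407))) (l 4))) (l 4)) (l 4))) (l 4)) (l 4)) (l 4)), by decide +kernel⟩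

def k18_pp_022_t : ∃ t, chk3 f_pp_022_t t 34 125 1 = true :=
  ⟨(l 4), by decide +kernel⟩

def k19_pp_022_t : ∃ t, chk3 f_pp_022_t t 35 62 1 = true :=
  ⟨(l 4), by decide +kernel⟩

def k20_pp_022_t : ∃ t, chk3 f_pp_022_t t 17 63 1 = true :=
  ⟨(l 4), by decide +kernel⟩

def k21_pp_022_t : ∃ t, chk3 f_pp_022_t t 18 28 1 = true :=
  ⟨(a (b (a (c (l 16696288) (l 16694976)) (c (l 16704032) (l 16703008))) (a (b (l 16708496) (c (a (l 16715936) (l 16719952)) (l 16721992))) (b (l 16716520) (b (l 16723216) (l 16727768))))) (b (a (c (l 16711672) (l 16710912)) (c (l 16718968) (l 16729192))) (a (b (l 16734920) (c (l 16733808) (l 16733088))) (b (l 16742728) (c (l 16741600) (l 16741088)))))), by decide +kernel⟩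

def k22_pp_022_t : ∃ t, chk3 f_pp_022_t t 18 58 1 = true :=
  ⟨(a (a (a (b (b (l 16722176) (l 16726824)) (b (l 16731552) (l 16736344))) (c (l 16742328) (b (l 16728072) (l 16742880)))) (b (b (l 16732392) (l 16742328)) (c (l 16749840) (b (c (l 16752144) (l 16751728)) (a (l 16744248) (l 16748400)))))) (a (b (c (l 16743080) (l 16747704)) (a (a (l 16754592) (l 16756616)) (a (l 16758632) (l 16760640)))) (b (c (l 16756184) (a (l 16748512) (l 16752512))) (c (a (l 16763800) (l 16767744)) (a (l 16763456) (c (l 16767560) (l 16767408))))))), by decide +kernel⟩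

def k23_pp_022_t : ∃ t, chk3 f_pp_022_t t 36 59 1 = true :=
  ⟨(c (b (a (a (l 16748680) (a (l 16757664) (l 16759712))) (a (b (l 16749824) (a (l 16753736) (l 16755776))) (l 16761600))) (a (a (b (l 16751520) (l 16761824)) (b (l 16760904) (a (l 16759696) (l 16767000)))) (a (a (l 16763904) (l 16767264)) (b (l 16763840) (c (l 16771600) (l 16771512)))))) (b (b (a (a (l 16740768) (l 16745000)) (a (l 16749200) (l 16763848))) (a (a (l 16745776) (l 16750024)) (a (l 16759472) (c (l 16763760) (l 16763528))))) (b (a (a (l 16750872) (l 16760368)) (a (b (l 16758056) (l 16765872)) (b (l 16767480) (a (l 16763776) (l 16765864))))) (a (a (l 16761288) (b (l 16759000) (l 16766864))) (a (b (l 16765848) (a (l 16764792) (l 16766904))) (c (l 16771408) (l 16771304))))))), by decide +kernel⟩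

def k24_pp_022_t : ∃ t, chk3 f_pp_022_t t 37 59 1 = true :=
  ⟨(a (b (a (c (l 16765472) (c (l 16765368) (l 16765160))) (b (l 16765616) (c (l 16766880) (l 16769288)))) (b (a (c (l 16770520) (l 16770304)) (a (a (l 16772968) (l 16773984)) (b (l 16771600) (l 16775472)))) (a (a (b (l 16770624) (l 16774536)) (b (l 16775296) (a (l 16774760) (l 16777416)))) (a (a (b (l 16774208) (b (l 16776152) (c (l 71638715175) (l 73249327991)))) (b (l 16775224) (b (a (l 16776904) (l 73786198583)) (l 4)))) (b (a (c (l 16778864) (l 16778832)) (b (l 16776600) (l 108682808807))) (c (l 174181059799) (b (l 175791671463) (l 4)))))))) (a (b (b (c (l 16765896) (l 16765672)) (c (l 16773496) (c (l 16773408) (l 16773328)))) (b (b (a (l 16776240) (c (l 16778272) (l 16777576))) (b (a (l 16775544) (a (l 27078429543) (l 160759284999))) (a (a (l 16776328) (a (l 16777064) (l 92039809623))) (c (l 178476026327) (l 182770993543))))) (b (a (a (a (b (l 68417489447) (l 4)) (l 169349220279)) (l 4)) (l 4)) (l 4)))) (a (b (b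 (l 16771416) (c (l 16776480) (l 16775592))) (b (b (a (b (l 16776504) (l 99556003351)) (b (l 79154908391) (l 4))) (l 4)) (l 4))) (b (b (l 16773408) (b (l 16777184) (a (b (l 16775960) (l 57143200855)) (b (l 16778256) (l 173107316231))))) (l 4))))), by decide +kernel⟩

def k25_pp_022_t : ∃ t, chk3 f_pp_022_t t 19 28 1 = true :=
  ⟨(a (b (b (a (c (l 16721480) (l 16732272)) (c (l 16749856) (l 16739592))) (a (l 16730880) (a (c (l 16757208) (l 16746968)) (c (l 16739984) (l 16750680))))) (a (b (c (l 16740096) (l 16739744)) (c (l 16759808) (l 16754224))) (a (b (l 16745720) (a (l 16754016) (l 16761184))) (b (b (l 16757536) (l 16751768)) (c (l 16758840) (l 16763968)))))) (b (a (b (l 16736496) (l 16756232)) (b (l 16754464) (c (l 16753256) (l 16763624)))) (b (b (a (l 16752736) (l 16765528)) (a (a (a (l 16765072) (l 16756488)) (l 16759352)) (c (l 16770272) (l 16770192)))) (a (a (a (c (l 16766920) (l 16766872)) (b (a (l 16765984) (l 16761696)) (l 16771232))) (b (l 16764088) (a (a (a (l 16772424)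 (l 16772904)) (l 16773616)) (l 16769808)))) (b (a (l 16773120) (c (l 16771712) (l 16771664))) (a (c (l 16772672) (l 16775272)) (b (a (l 16774344) (c (l 16778880) (l 16778872))) (a (a (l 16776272) (a (l 32984009479) (l 83449875607))) (c (l 154853705895) (l 159148673095)))))))))), by decide +kernel⟩

def k26_pp_022_t : ∃ t, chk3 f_pp_022_t t 38 29 1 = true :=
  ⟨(b (b (a (c (a (l 16756792) (l 16765912)) (a (l 16756496) (l 16765688))) (a (c (l 16769784) (c (l 16769672) (l 16769568))) (b (l 16771184) (c (l 16776040) (l 16773344))))) (b (a (a (l 16769128) (a (l 16766840) (l 16774048))) (a (c (l 16774400) (c (l 16771720) (l 16774296))) (b (c (l 16777048) (l 16776360)) (a (c (l 16778520) (l 16778504)) (c (b (l 61975039559) (l 161296156535)) (b (l 64659392775) (l 165591123767))))))) (a (a (a (l 16773048) (l 16772408)) (a (l 16774384) (a (l 16775856) (l 16776184)))) (a (a (b (l 16774456) (b (l 16778928) (a (l 16778360) (l 126399548887)))) (a (b (l 16775920) (c (l 152706221847) (l 157001189079)))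 (b (b (l 16776280) (l 83986746631)) (l 4)))) (b (a (a (b (l 16778736) (l 4)) (l 177402284471)) (l 4)) (l 4)))))) (b (a (b (b (c (a (l 16772560) (a (l 16775496) (b (l 16779448) (l 140895061271)))) (a (l 16772472) (a (l 16775472) (b (l 20099108055) (l 145190028519))))) (a (a (l 16774032) (a (l 16775520) (a (l 16776264) (l 16341011703)))) (a (a (b (l 16776864) (l 166127994231)) (a (l 156464317959) (l 4))) (l 4)))) (a (b (b (a (l 16775920) (a (l 72175586535) (l 4))) (a (a (l 16776680) (l 93650423159)) (l 4))) (a (c (l 166664866631) (b (l 161296156471) (l 4))) (l 4))) (l 4))) (b (a (b (a (c (l 177939156327) (l 182234123511)) (l 4)) (l 4)) (l 4)) (l 4))) (l 4))), by decide +kernel⟩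

def k27_pp_022_t : ∃ t, chk3 f_pp_022_t t 39 29 1 = true :=
  ⟨(b (b (a (a (a (b (l 16768840) (a (l 16775808) (l 16776776))) (b (l 16776008) (b (l 16774392) (a (l 16778952) (b (l 16776688) (l 118883356087)))))) (b (a (b (l 16776736) (l 16773896)) (b (c (l 16778648) (l 16776008)) (a (l 16777960) (a (l 16779664) (a (l 16779040) (l 16776656)))))) (b (b (a (l 16775712) (a (l 16778456) (a (l 134989482503) (l 4)))) (a (c (l 16779536) (l 27078429863)) (l 4))) (a (c (l 155927447863) (b (l 150558737735) (l 4))) (l 4))))) (b (a (a (b (l 16775328) (a (a (l 33520880439) (l 83986746583)) (l 150021866967))) (b (a (l 23857204343) (a (l 83449875639) (l 112977776183))) (l 4))) (b (a (l 174181059463) (l 4)) (l 4))) (l 4))) (a (b (a (b (a (c (a (l 16779456) (l 94187294743)) (b (l 16779320) (l 140358190071))) (c (l 175254801511) (l 179549768695))) (l 4)) (l 4)) (l 4)) (l 4))) (l 4)), by decide +kernel⟩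

def k28_pp_022_t : ∃ t, chk3 f_pp_022_t t 36 120 1 = true :=
  ⟨(a (a (a (c (b (l 16765920) (b (l 16764576) (l 16767208))) (b (l 16765480) (b (l 16764240) (l 16772176)))) (b (b (l 16761264) (l 16766512)) (c (b (l 16766664) (a (l 16768776) (l 16769816))) (b (l 16766384) (b (l 16768408) (l 16769760)))))) (a (b (b (l 16768616) (a (l 16765472) (l 16766520))) (b (c (b (l 16768096) (l 16769408)) (l 16771144)) (l 16772616))) (b (c (b (l 16765616) (b (l 16767560) (l 16768856))) (b (l 16765320) (l 16773216))) (b (l 16772056) (a (l 16772888) (l 16775248)))))) (b (a (c (c (l 16772664) (l 16772584)) (c (l 16772496) (c (l 16772416) (l 16772368)))) (a (b (l 16774336) (a (l 16773832) (l 16774864))) (a (b (l 16773264) (b (l 16775240) (l 16777864))) (b (l 16774296) (b (l 16776264) (a (l 63585651175) (l 122104580791))))))) (a (b (c (a (l 16772888) (l 16774952)) (a (l 16772776) (l 16776200))) (a (a (l 16775640) (a (l 16777080) (b (l 16775616) (l 16778256)))) (a (b (l 16777712) (b (l 69491231335)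 (l 4))) (b (a (l 48016394647) (l 99019131671)) (l 4))))) (b (b (a (c (l 16778296) (c (l 16777624) (l 16778264))) (a (a (l 92576680599) (l 4)) (l 4))) (a (a (a (l 16778184) (l 69491231319)) (l 166664865207)) (l 4))) (l 4))))), by decide +kernel⟩

def k29_pp_022_t : ∃ t, chk3 f_pp_022_t t 36 121 1 = true :=
  ⟨(a (b (b (b (a (a (c (l 16769192) (l 16768976)) (a (l 16770680) (l 16769112))) (a (l 16774632) (c (l 16775448) (l 16775400)))) (a (c (l 16774192) (l 16772728)) (a (l 16775976) (a (l 16777560) (a (l 17951623431) (a (l 74859940023) (l 110830291239))))))) (a (a (a (c (a (l 16771736) (l 16769640)) (l 16774480)) (l 16774304)) (c (l 16775936) (l 16775536))) (a (c (b (l 16777672) (a (l 16778400) (l 141431931911))) (b (a (l 16775472) (l 16777840)) (a (c (l 16778136) (l 5603592311)) (c (l 145190028263) (l 147337511895))))) (a (b (a (a (l 48016394407) (l 78618036471)) (l 156464317383)) (l 4)) (l 4))))) (a (a (a (b (c (l 16774696) (l 16774624)) (c (b (l 16778344) (l 157001188663)) (b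 (c (l 16778008) (l 16778320)) (c (l 155927446807) (l 158611801335))))) (b (c (l 16777048) (b (l 16773040) (l 16777704))) (b (a (b (l 16778456) (l 4)) (l 170422961383)) (l 4)))) (b (a (b (l 16776104) (b (a (l 16776856) (l 73786197831)) (a (l 99019130711) (l 4)))) (b (b (l 16778120) (a (l 16778496) (l 107072195639))) (l 4))) (l 4))) (b (b (a (a (a (l 163443639383) (l 4)) (l 4)) (l 4)) (l 4)) (l 4)))) (b (a (b (a (c (b (a (l 21709719975) (l 155927446759)) (l 177402284519)) (b (a (a (l 16776720) (l 55532587175)) (l 155390575799)) (l 181697251735))) (l 4)) (l 4)) (l 4)) (l 4))), by decide +kernel⟩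

def k30_pp_022_t : ∃ t, chk3 f_pp_022_t t 37 60 1 = true :=
  ⟨(b (a (b (a (b (b (a (l 16775184) (a (l 16778016) (a (l 79691778647) (l 170959832231)))) (a (c (l 16778784) (c (l 16778440) (l 16778592))) (a (l 158074930375) (l 4)))) (b (a (a (a (l 16778336) (l 86134229623)) (l 177402283671)) (l 4)) (l 4))) (l 4)) (l 4)) (l 4)) (l 4)), by decide +kernel⟩

def k31_pp_022_t : ∃ t, chk3 f_pp_022_t t 18 61 1 = true :=
  ⟨(l 4), by decide +kernel⟩

def k32_pp_022_t : ∃ t, chk3 f_pp_022_t t 18 31 1 = true :=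
  ⟨(l 4), by decide +kernel⟩

def k33_pp_022_t : ∃ t, chk3 f_pp_022_t t 19 15 1 = true :=
  ⟨(l 4), by decide +kernel⟩

def k34_pp_022_t : ∃ t, chk3 f_pp_022_t t 10 12 1 = true :=
  ⟨(a (b (a (b (l 16623616) (l 16638368)) (c (l 16664912) (l 16664264))) (a (b (l 16654040) (l 16691544)) (b (l 16688152) (c (l 16684296) (l 16684128))))) (b (a (a (l 16673888) (l 16690792)) (b (l 16661120) (l 16698208))) (a (b (l 16701488) (c (l 16718984) (l 16708304))) (a (b (l 16690808) (l 16719080)) (b (l 16697888) (l 16728992)))))), by decide +kernel⟩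

def k35_pp_022_t : ∃ t, chk3 f_pp_022_t t 20 13 1 = true :=
  ⟨(b (a (a (b (l 16684200) (l 16701624)) (b (l 16691152) (l 16719248))) (b (c (l 16722640) (l 16711968)) (c (c (l 16740480) (l 16729952)) (a (l 16715672) (l 16733328))))) (a (a (b (l 16729968) (c (l 16748104) (l 16747904))) (b (c (l 16726712) (l 16736968)) (b (l 16740312) (l 16760032)))) (a (b (c (l 16744512) (l 16744240)) (b (l 16758216) (c (l 16767616) (l 16762184)))) (b (b (l 16747168) (l 16756408)) (b (c (l 16765816) (l 16760368)) (c (c (l 16769984) (l 16772568)) (a (l 16767912) (l 16771768)))))))), by decide +kernel⟩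

def k36_pp_022_t : ∃ t, chk3 f_pp_022_t t 21 26 1 = true :=
  ⟨(a (a (b (l 16722704) (c (l 16740880) (l 16740640))) (b (c (l 16719456) (l 16729768)) (b (l 16743600) (l 16750216)))) (b (a (c (l 16747792) (l 16737128)) (c (l 16744792) (l 16744616))) (a (b (l 16751088) (c (l 16749984) (l 16755032))) (b (c (l 16748256) (l 16753312)) (c (l 16768136) (a (l 16755560) (l 16764688))))))), by decide +kernel⟩

def k37_pp_022_t : ∃ t, chk3 f_pp_022_t t 21 54 1 = true :=
  ⟨(a (a (b (l 16754616) (c (l 16764024) (l 16758568))) (b (b (l 16759816) (l 16759264)) (c (l 16769016) (a (l 16759072) (l 16768176))))) (b (a (c (l 16764632) (a (l 16757296) (l 16766416))) (a (c (l 16770416) (l 16770304)) (b (l 16771888) (c (l 16771432) (l 16774000))))) (a (a (b (l 16764504) (l 16774496)) (b (l 16773624) (c (l 16775792) (a (l 16772144) (l 16774104))))) (b (a (c (l 16772296) (l 16773560)) (b (c (l 16777632) (a (l 16774000) (l 16778600))) (a (a (l 16775928) (a (l 16777968) (l 72712455943))) (c (l 152169350647)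 (b (l 107609065991) (l 4)))))) (a (a (b (l 16774888) (c (b (l 16776688) (l 110830292679)) (b (l 16777984) (l 146263769863)))) (b (a (l 16778976) (b (l 16776736) (l 133915741111))) (l 184918477511))) (b (a (c (l 167201736839) (l 170959833127)) (l 4)) (l 4))))))), by decide +kernel⟩

def k38_pp_022_t : ∃ t, chk3 f_pp_022_t t 21 55 1 = true :=
  ⟨(a (b (a (c (l 16770792) (a (l 16766104) (l 16769960))) (b (a (l 16771512) (l 16774072)) (b (a (l 16769832) (l 16775680)) (a (l 16774840) (a (l 16775136) (b (l 16779104) (a (l 16778472) (l 177939154215)))))))) (a (b (a (l 16773296) (c (l 16771944) (l 16774504))) (a (c (l 16772840) (l 16775416)) (b (a (l 16774528) (a (l 16775992) (a (l 16778024) (l 72175585079)))) (b (a (l 16776328) (l 159685543335)) (a (c (l 87207972327) (l 89892325511)) (l 4)))))) (b (a (b (c (l 16774616) (l 16777208)) (a (c (l 16776032) (l 16778632)) (c (l 135526351767) (b (l 81839261895) (l 179012896567))))) (a (b (b (a (l 16776440) (l 89355455095)) (l 153779962407))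 (l 4)) (l 4))) (a (b (a (c (l 150558738039) (b (l 140895060679) (l 4))) (l 4)) (l 4)) (l 4))))) (b (a (b (b (a (l 16775456) (a (l 16778384) (a (b (l 16776632) (l 123715193703)) (l 155927446151)))) (a (c (l 16779160) (c (l 16779144) (a (l 16774216) (l 16778800)))) (a (c (l 142505673895) (b (l 95261034663) (l 187602831383))) (l 4)))) (a (b (b (a (l 16776040) (c (l 117272743655) (l 151095608263))) (a (c (l 75396811831) (l 75396810823)) (l 4))) (a (c (l 173644188167) (l 177939155351)) (l 4))) (l 4))) (l 4)) (l 4))), by decide +kernel⟩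

def k39_pp_022_t : ∃ t, chk3 f_pp_022_t t 11 12 1 = true :=
  ⟨(a (b (a (b (l 16695728) (l 16712248)) (a (c (l 16714792) (l 16720048)) (b (l 16718888) (c (l 16730488) (l 16730616))))) (a (b (c (l 16729656) (l 16724480)) (a (c (l 16723240) (l 16733696)) (c (l 16741248) (l 16741240)))) (b (a (l 16735608) (c (l 16727304) (l 16748448))) (a (c (l 16748872) (l 16748888)) (b (l 16751912) (b (l 16748536) (l 16763768))))))) (b (a (b (a (l 16721248) (l 16729016)) (a (a (l 16736168) (l 16740048)) (c (l 16745784) (l 16745936)))) (b (a (l 16736856) (l 16738208)) (a (c (l 16753808) (l 16743312)) (c (l 16761856) (l 16753888))))) (b (b (a (a (c (l 16751320) (l 16741048)) (l 16748840)) (a (c (l 16746280) (l 16746312)) (c (l 16764872) (l 16764832)))) (c (a (a (l 16750088) (l 16758008)) (a (l 16766080) (c (l 16774192) (l 16774216)))) (a (a (l 16750264) (l 16758128)) (a (l 16766112) (c (l 16774208) (l 16771552)))))) (a (b (a (l 16759704) (a (c (l 16765552) (l 16765632)) (a (l 16768616) (l 16770624))))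 (a (a (l 16767288) (l 16771248)) (a (b (l 16770200) (l 16767144)) (b (c (l 16776808) (l 16771584)) (a (l 16775400) (c (l 16772160) (l 16772168))))))) (a (b (a (c (l 16763128) (l 16773640)) (c (l 16777672) (l 16772440))) (b (b (a (l 16769176) (l 16778480)) (a (l 16776832) (c (l 16780904) (c (l 16780904) (l 16779584))))) (b (a (l 16776624) (a (c (l 16779672) (l 38889591719)) (l 174717929671))) (a (a (l 16775400) (a (l 16779552) (l 113514648791))) (l 4))))) (b (a (b (l 16774096) (c (l 16773680) (l 16777856))) (a (b (l 16771912) (b (l 16775536) (c (l 110293423735) (l 106535327511)))) (b (l 16773952) (b (c (l 96334779783) (l 92576683479)) (l 4))))) (b (a (a (b (l 16779576) (l 161833027271)) (a (b (l 109756552215) (l 4)) (l 184918478167))) (l 4)) (l 4)))))))), by decide +kernel⟩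

def k40_pp_022_t : ∃ t, chk3 f_pp_022_t t 22 26 1 = true :=
  ⟨(b (a (a (b (l 16747672) (c (l 16746552) (l 16746400))) (b (l 16755328) (c (l 16764760) (l 16759408)))) (a (b (c (l 16752584) (l 16763008)) (c (l 16772568) (a (l 16760040) (l 16769232)))) (a (b (l 16763704) (b (l 16765592) (l 16775608))) (b (l 16768952) (b (l 16774800) (a (l 16773352) (c (l 16777976) (b (l 16774136) (l 16779160))))))))) (a (b (a (c (l 16766440) (l 16762368)) (c (c (l 16774224) (l 16768976)) (a (l 16766928) (l 16770872)))) (a (a (c (l 16773952) (l 16768592)) (b (l 16770200) (l 16773648))) (b (a (l 16774128) (c (l 16772840) (l 16774112))) (a (c (l 16776288) (a (l 16772648) (l 16777248))) (a (b (l 16775424) (c (l 102240359159) (b (l 78618037639) (l 174717928951)))) (b (c (l 85060487159) (b (l 16776800) (l 154316833687))) (l 4))))))) (b (b (a (a (l 16772472) (c (l 16771192) (l 16771152))) (b (a (l 16776576) (a (a (l 16776448) (l 83986746103)) (l 168275478663))) (a (a (l 16775352) (a (l 26541559079) (l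 108682809511))) (a (l 188139702951) (l 4))))) (a (a (c (l 16772008) (l 16771976)) (a (c (l 16780224) (l 16778400)) (b (l 16778384) (c (l 144653157447) (l 147337509303))))) (a (b (a (c (l 97408520983) (b (l 16779080) (l 168812348791))) (l 4)) (l 4)) (l 4)))) (a (b (a (b (a (l 16774592) (c (l 16779208) (c (l 16779200) (l 14730399111)))) (b (a (l 16776392) (l 168812348887)) (a (c (l 97945390599) (l 98482261783)) (l 4)))) (b (a (c (l 159148672711) (l 162369898087)) (l 4)) (l 4))) (a (b (a (l 190824057639) (l 4)) (l 4)) (l 4))) (l 4))))), by decide +kernel⟩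

def k41_pp_022_t : ∃ t, chk3 f_pp_022_t t 22 27 1 = true :=
  ⟨(a (b (b (a (b (a (l 16774160) (a (l 16774824) (b (l 16774280) (a (l 16776184) (a (l 24930946007) (l 90429196263)))))) (b (a (c (l 16774152) (l 16774128)) (a (c (l 71638714023) (a (l 16779224) (l 96871647735))) (c (l 178476026343) (l 182234122615)))) (a (a (l 16778176) (b (a (l 16776432) (l 92039809719)) (l 156464317575))) (l 4)))) (b (a (b (a (c (l 16776264) (l 3992980727)) (c (l 148411253991) (b (l 102777228839) (l 4)))) (a (c (l 162906769271) (l 166664865559)) (l 4))) (l 4)) (l 4))) (a (b (a (b (a (c (l 137136964423) (b (l 84523615095) (l 180623509207))) (l 4)) (l 4)) (l 4)) (l 4)) (l 4))) (l 4)) (l 4)), by decide +kernel⟩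

def k42_pp_022_t : ∃ t, chk3 f_pp_022_t t 23 13 1 = true :=
  ⟨(b (b (a (b (b (a (c (l 16765944) (l 16771176)) (a (l 16771952) (a (l 16778912) (a (b (l 16775288) (l 100629745735)) (b (l 16776304) (l 172033574695)))))) (a (a (l 16768752) (l 16775368)) (a (b (c (l 16775576) (l 16779496)) (a (c (l 16776968) (l 34057752711)) (l 170959833207))) (b (a (l 157001188951) (l 4)) (l 4))))) (a (b (a (c (l 16773544) (l 16776152)) (b (a (l 16775344) (a (l 16776856) (l 107072196775))) (a (c (l 94724166391) (l 94724166631)) (l 4)))) (a (b (a (l 16778768) (c (l 110293423127) (l 142505673671))) (a (c (l 153779963511) (l 156464317975)) (l 4))) (l 4))) (b (a (b (l 187602833271) (l 4)) (l 4)) (l 4)))) (a (b (a (b (b (a (c (l 99556005463) (l 100629747399)) (l 4)) (l 4)) (l 4)) (l 4)) (l 4)) (l 4))) (l 4)) (l 4)), by decide +kernel⟩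

def k43_pp_022_t : ∃ t, chk3 f_pp_022_t t 20 56 1 = true :=
  ⟨(a (a (b (l 16759256) (a (l 16764120) (l 16769208))) (b (c (l 16769448) (l 16766656)) (a (c (l 16771736) (l 16771632)) (b (l 16773128) (c (l 16772680) (l 16775256)))))) (b (a (a (c (l 16775128) (l 16769752)) (b (l 16766032) (l 16776032))) (b (a (l 16775112) (a (l 16775384) (b (l 16773504) (l 1308625943)))) (b (a (l 16776072) (a (c (l 16778976) (c (l 16778968) (l 10972302423))) (c (l 143579416007) (b (l 97408519735) (l 4))))) (a (a (l 16774880) (a (l 16778952) (a (l 37815847799) (l 88818584935)))) (a (c (l 159685544103) (l 162906769479)) (l 4)))))) (a (b (a (c (l 16771744) (l 16774304)) (a (c (l 16777248) (l 16777216)) (b (l 16775344) (a (a (l 36742105911) (l 83986746839)) (l 151095608711))))) (a (b (a (l 16774352) (c (l 16778904) (l 11509173431))) (a (a (l 16776264) (a (l 36205234935) (l 81302392247))) (c (l 154853705815) (l 158074931207)))) (b (a (c (l 138210706791) (b (l 89355456103) (l 4))) (l 4)) (l 4)))) (b (a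 (b (a (b (l 20635978695) (a (l 81839262327) (l 4))) (l 177402284855)) (l 4)) (l 4)) (l 4))))), by decide +kernel⟩

def k44_pp_022_t : ∃ t, chk3 f_pp_022_t t 20 57 1 = true :=
  ⟨(a (b (a (b (c (l 16773136) (l 16772400)) (a (l 16774664) (a (l 16776224) (b (l 16774320) (a (l 16776248) (a (l 33520880343) (l 81302392055))))))) (b (a (c (l 16777552) (b (l 16772376) (l 16777408))) (a (b (l 16775296) (a (a (l 34594622167) (l 81839262967)) (l 147874383191))) (b (a (l 26004687943) (a (l 80765521319) (l 110830292695))) (l 4)))) (a (b (a (c (l 16778872) (l 16778856)) (c (l 137136964935) (b (l 87744843159) (l 181697251543)))) (a (c (l 154316834903) (l 158074931207)) (l 4))) (l 4)))) (a (b (b (a (c (l 16774336) (l 16774312)) (a (a (l 23857204263) (a (l 81302392071) (l 110830292615))) (l 173107317543))) (a (a (l 16778392) (a (a (l 32984009431) (l 81302392087)) (l 148411254135))) (l 4))) (a (b (a (c (l 138210706807) (b (l 89892326679) (l 4))) (l 4)) (l 4)) (l 4))) (l 4))) (b (a (b (a (b (a (l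 173107317511) (l 4)) (l 4)) (l 4)) (l 4)) (l 4)) (l 4))), by decide +kernel⟩

def k45_pp_022_t : ∃ t, chk3 f_pp_022_t t 21 28 1 = true :=
  ⟨(b (a (b (a (b (a (a (b (l 16775440) (c (l 128010157495) (b (l 71101843527) (l 169349219991)))) (b (c (a (l 16779512) (l 104924712647)) (b (l 16778736) (l 147337511895))) (l 4))) (b (a (l 181697252263) (l 4)) (l 4))) (l 4)) (l 4)) (l 4)) (l 4)) (l 4)), by decide +kernel⟩

def k46_pp_022_t : ∃ t, chk3 f_pp_022_t t 10 29 1 = true :=
  ⟨(l 4), by decide +kernel⟩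

def k47_pp_022_t : ∃ t, chk3 f_pp_022_t t 10 15 1 = true :=
  ⟨(l 4), by decide +kernel⟩

def k48_pp_022_t : ∃ t, chk3 f_pp_022_t t 11 7 1 = true :=
  ⟨(l 4), by decide +kernel⟩

def k49_pp_022_t : ∃ t, chk3 f_pp_022_t t 6 4 1 = true :=
  ⟨(a (b (a (l 6) (a (l 6) (b (l 6) (l 16655592)))) (b (a (l 16633072) (l 16661984)) (a (l 16687944) (l 16717240)))) (a (b (b (a (l 6) (l 16667184)) (l 16674568)) (b (l 16709184) (l 16764824))) (a (b (b (l 16677936) (l 16691504)) (l 12985581511)) (l 2)))), by decide +kernel⟩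

def k50_pp_022_t : ∃ t, chk3 f_pp_022_t t 12 5 1 = true :=
  ⟨(b (a (b (a (l 16651712) (l 16666856)) (a (l 16687712) (l 16702864))) (a (b (l 16681560) (l 16738584)) (b (l 16695720) (b (l 16706648) (l 16736320))))) (a (a (a (b (l 16682720) (b (l 16701336) (l 16736776))) (b (l 16732336) (b (l 16709072) (l 16744576)))) (a (b (l 16739936) (b (l 16716736) (l 16752312))) (b (l 16736968) (b (l 16724328) (c (l 16760256) (l 16759680)))))) (b (a (b (l 16732000) (a (l 16718752) (l 16747072))) (b (l 16746344) (c (l 16758512) (l 16757208)))) (a (a (b (l 16731832) (c (l 16767824) (l 16756808))) (b (l 16760208) (c (l 16764784) (l 16766960)))) (a (b (l 16765864) (b (l 16768032) (c (l 16776032) (l 16775792)))) (b (c (l 16775008) (l 16774336)) (b (c (l 16775424) (l 16775112)) (a (l 16776144) (a (l 16780184) (b (l 16773384) (l 75396817015))))))))))), by decide +kernel⟩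

def k51_pp_022_t : ∃ t, chk3 f_pp_022_t t 13 5 1 = true :=
  ⟨(b (a (a (b (l 16709192) (b (l 16720200) (l 16728960))) (b (l 16742768) (b (l 16753880) (l 16741752)))) (a (b (l 16733400) (b (l 16744632) (l 16774552))) (a (b (l 16741384) (a (l 16776776) (l 16779376))) (l 2)))) (a (b (b (a (l 16749560) (c (l 16773600) (l 16772328))) (a (a (l 16747312) (l 16775016)) (a (l 16776296) (c (l 16767112) (l 16777128))))) (a (a (a (b (l 16769440) (b (l 16770112) (b (c (l 16781368) (l 29762789223)) (l 161296155639)))) (b (l 16772896) (b (b (l 16771672) (l 26004693719)) (b (l 150558731719) (l 4))))) (b (b (l 16774440) (c (l 16771256) (l 16781544))) (b (b (a (l 16775144) (l 93650432423)) (a (b (l 92576687479) (l 4)) (l 4))) (l 4)))) (b (b (a (l 16781040) (b (c (l 16780528) (l 16783040)) (a (l 59827563655) (l 157538058039)))) (a (b (a (l 16774304) (l 74859949655)) (a (l 83986755719) (l 4))) (l 4))) (l 4)))) (b (a (b (a (l 16782008) (l 16787720)) (b (a (l 16769768) (c (l 50700765463) (l 49627022903)))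 (a (a (l 16785208) (l 72175600567)) (b (l 122641448151) (l 4))))) (b (a (b (l 16769424) (c (l 48553281095) (l 16785480))) (b (l 73115128487) (b (l 90966087447) (l 4)))) (a (b (b (l 95797925879) (l 4)) (l 4)) (l 4)))) (a (b (b (a (b (l 147337510343) (l 4)) (l 4)) (l 4)) (l 4)) (l 4))))), by decide +kernel⟩

def k52_pp_022_t : ∃ t, chk3 f_pp_022_t t 7 2 1 = true :=
  ⟨(b (l 2) (b (l 2) (b (l 2) (l 4)))), by decide +kernel⟩

def k53_pp_022_t : ∃ t, chk3 f_pp_022_t t 24 12 1 = true :=
  ⟨(b (a (b (a (c (l 16752808) (l 16752488)) (c (l 16760704) (l 16760384))) (b (a (l 16754960) (l 16763736)) (a (c (l 16763864) (l 16763752)) (c (l 16771872) (l 16770464))))) (b (a (c (l 16768528) (l 16760360)) (b (l 16761480) (a (l 16757496) (l 16771856)))) (a (b (c (l 16770880) (l 16770736)) (a (c (l 16777840) (l 16777768)) (b (l 16779496) (b (l 16772432) (l 16779976))))) (b (a (l 16774088) (b (l 16767904) (l 16777600))) (b (a (l 16775576) (b (c (l 16781016) (l 16779680)) (a (l 41573946951) (l 170422962071))))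 (a (a (b (l 16775400) (l 100629747975)) (b (l 88818587607) (l 4))) (b (l 178476027223) (l 4)))))))) (a (b (a (a (b (l 16768328) (b (l 16772712) (c (l 16772216) (l 16772200)))) (b (c (l 16764520) (l 16774952)) (b (c (l 16771536) (l 16771512)) (b (c (l 16775104) (l 16780336)) (a (l 22246593847) (l 157001188727)))))) (b (b (a (l 16766208) (l 16775464)) (a (l 16773488) (a (l 16773888) (c (l 16779864) (b (l 16774712) (l 41037075255)))))) (b (b (a (l 16777016) (a (c (l 93650424967) (l 88818586839)) (l 4))) (a (a (l 16775760) (a (l 16779712) (l 135526355959))) (l 4))) (a (b (a (c (l 119420229319) (l 115662133015)) (l 4)) (l 4)) (l 4))))) (a (b (b (a (b (c (l 16779768) (a (l 16774784) (l 16779456))) (a (c (l 16779760) (l 79154910311)) (l 181697251671))) (b (a (l 169349220215) (l 4)) (l 4))) (l 4)) (l 4)) (l 4))) (b (b (a (b (a (c (l 16779488) (c (l 16779472) (l 16779456))) (b (a (l 16776064) (l 112977779287)) (a (l 126399552087) (l 4)))) (a (b (a (l 30836528455) (l 163980510839)) (a (l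 176328542263) (l 4))) (l 4))) (l 4)) (l 4)) (l 4)))), by decide +kernel⟩

def k54_pp_022_t : ∃ t, chk3 f_pp_022_t t 25 12 1 = true :=
  ⟨(b (a (b (a (b (c (l 16779760) (l 16769000)) (a (l 16775712) (b (l 16766896) (l 16771224)))) (b (a (l 16774824) (l 16773336)) (b (a (l 16770704) (c (l 16774520) (l 16774472))) (a (c (l 16780336) (c (l 16780304) (l 16780280))) (b (a (l 16776816) (l 130694519015)) (l 170422962199)))))) (a (b (b (a (l 16771776) (a (l 16774672) (b (l 16775488) (l 99019134967)))) (a (b (l 16780368) (a (l 16776416) (l 122641455447))) (b (a (l 110293424343) (l 4)) (l 4)))) (a (a (b (l 167201737447) (l 4)) (l 4)) (l 4))) (b (b (a (b (a (l 87744845463) (l 4)) (l 4)) (l 4)) (l 4)) (l 4)))) (b (a (b (a (b (l 16769728) (l 16779192)) (b (l 16773424) (a (a (l 16776296) (l 78081169671)) (l 136063222359)))) (a (b (a (a (l 38889592599) (l 94724168455)) (l 150558737575)) (l 4)) (l 4))) (b (b (a (a (l 16780144) (l 96871651143)) (l 173107316199)) (l 4)) (l 4))) (l 4))) (l 4)), by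 decide +kernel⟩

def k55_pp_022_t : ∃ t, chk3 f_pp_022_t t 13 12 1 = true :=
  ⟨(l 4), by decide +kernel⟩

def k56_pp_022_t : ∃ t, chk3 f_pp_022_t t 6 13 1 = true :=
  ⟨(l 4), by decide +kernel⟩

def k57_pp_022_t : ∃ t, chk3 f_pp_022_t t 6 7 1 = true :=
  ⟨(l 4), by decide +kernel⟩

def k58_pp_022_t : ∃ t, chk3 f_pp_022_t t 7 3 1 = true :=
  ⟨(l 4), by decide +kernel⟩

theorem s59_pp_022_t : ∃ t, chk3 f_pp_022_t t 12 12 1 = true := ex3_a k53_pp_022_t k54_pp_022_t

theorem s60_pp_022_t : ∃ t, chk3 f_pp_022_t t 6 12 1 = true := ex3_a s59_pp_022_t k55_pp_022_t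

theorem s61_pp_022_t : ∃ t, chk3 f_pp_022_t t 6 6 1 = true := ex3_b s60_pp_022_t k56_pp_022_t

theorem s62_pp_022_t : ∃ t, chk3 f_pp_022_t t 6 3 1 = true := ex3_b s61_pp_022_t k57_pp_022_t

theorem s63_pp_022_t : ∃ t, chk3 f_pp_022_t t 3 3 1 = true := ex3_a s62_pp_022_t k58_pp_022_t

theorem s64_pp_022_t : ∃ t, chk3 f_pp_022_t t 6 5 1 = true := ex3_a k50_pp_022_t k51_pp_022_t

theorem s65_pp_022_t : ∃ t, chk3 f_pp_022_t t 6 2 1 = true := ex3_b k49_pp_022_t s64_pp_022_t

theorem s66_pp_022_t : ∃ t, chk3 f_pp_022_t t 3 2 1 = true := ex3_a s65_pp_022_t k52_pp_022_t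

theorem s67_pp_022_t : ∃ t, chk3 f_pp_022_t t 3 1 1 = true := ex3_b s66_pp_022_t s63_pp_022_t

theorem s68_pp_022_t : ∃ t, chk3 f_pp_022_t t 20 28 1 = true := ex3_b k43_pp_022_t k44_pp_022_t

theorem s69_pp_022_t : ∃ t, chk3 f_pp_022_t t 10 28 1 = true := ex3_a s68_pp_022_t k45_pp_022_t

theorem s70_pp_022_t : ∃ t, chk3 f_pp_022_t t 10 14 1 = true := ex3_b s69_pp_022_t k46_pp_022_t

theorem s71_pp_022_t : ∃ t, chk3 f_pp_022_t t 10 7 1 = true := ex3_b s70_pp_022_t k47_pp_022_t

theorem s72_pp_022_t : ∃ t, chk3 f_pp_022_t t 5 7 1 = true := ex3_a s71_pp_022_t k48_pp_022_t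

theorem s73_pp_022_t : ∃ t, chk3 f_pp_022_t t 22 13 1 = true := ex3_b k40_pp_022_t k41_pp_022_t

theorem s74_pp_022_t : ∃ t, chk3 f_pp_022_t t 11 13 1 = true := ex3_a s73_pp_022_t k42_pp_022_t

theorem s75_pp_022_t : ∃ t, chk3 f_pp_022_t t 11 6 1 = true := ex3_b k39_pp_022_t s74_pp_022_t

theorem s76_pp_022_t : ∃ t, chk3 f_pp_022_t t 21 27 1 = true := ex3_b k37_pp_022_t k38_pp_022_t

theorem s77_pp_022_t : ∃ t, chk3 f_pp_022_t t 21 13 1 = true := ex3_b k36_pp_022_t s76_pp_022_t

theorem s78_pp_022_t : ∃ t, chk3 f_pp_022_t t 10 13 1 = true := ex3_a k35_pp_022_t s77_pp_022_t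

theorem s79_pp_022_t : ∃ t, chk3 f_pp_022_t t 10 6 1 = true := ex3_b k34_pp_022_t s78_pp_022_t

theorem s80_pp_022_t : ∃ t, chk3 f_pp_022_t t 5 6 1 = true := ex3_a s79_pp_022_t s75_pp_022_t

theorem s81_pp_022_t : ∃ t, chk3 f_pp_022_t t 5 3 1 = true := ex3_b s80_pp_022_t s72_pp_022_t

theorem s82_pp_022_t : ∃ t, chk3 f_pp_022_t t 36 60 1 = true := ex3_b k28_pp_022_t k29_pp_022_t

theorem s83_pp_022_t : ∃ t, chk3 f_pp_022_t t 18 60 1 = true := ex3_a s82_pp_022_t k30_pp_022_t

theorem s84_pp_022_t : ∃ t, chk3 f_pp_022_t t 18 30 1 = true := ex3_b s83_pp_022_t k31_pp_022_t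

theorem s85_pp_022_t : ∃ t, chk3 f_pp_022_t t 18 15 1 = true := ex3_b s84_pp_022_t k32_pp_022_t

theorem s86_pp_022_t : ∃ t, chk3 f_pp_022_t t 9 15 1 = true := ex3_a s85_pp_022_t k33_pp_022_t

theorem s87_pp_022_t : ∃ t, chk3 f_pp_022_t t 19 29 1 = true := ex3_a k26_pp_022_t k27_pp_022_t

theorem s88_pp_022_t : ∃ t, chk3 f_pp_022_t t 19 14 1 = true := ex3_b k25_pp_022_t s87_pp_022_t

theorem s89_pp_022_t : ∃ t, chk3 f_pp_022_t t 18 59 1 = true := ex3_a k23_pp_022_t k24_pp_022_t

theorem s90_pp_022_t : ∃ t, chk3 f_pp_022_t t 18 29 1 = true := ex3_b k22_pp_022_t s89_pp_022_t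

theorem s91_pp_022_t : ∃ t, chk3 f_pp_022_t t 18 14 1 = true := ex3_b k21_pp_022_t s90_pp_022_t

theorem s92_pp_022_t : ∃ t, chk3 f_pp_022_t t 9 14 1 = true := ex3_a s91_pp_022_t s88_pp_022_t

theorem s93_pp_022_t : ∃ t, chk3 f_pp_022_t t 9 7 1 = true := ex3_b s92_pp_022_t s86_pp_022_t

theorem s94_pp_022_t : ∃ t, chk3 f_pp_022_t t 68 124 1 = true := ex3_a k15_pp_022_t k16_pp_022_t

theorem s95_pp_022_t : ∃ t, chk3 f_pp_022_t t 34 124 1 = true := ex3_a s94_pp_022_t k17_pp_022_t

theorem s96_pp_022_t : ∃ t, chk3 f_pp_022_t t 34 62 1 = true := ex3_b s95_pp_022_t k18_pp_022_t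

theorem s97_pp_022_t : ∃ t, chk3 f_pp_022_t t 17 62 1 = true := ex3_a s96_pp_022_t k19_pp_022_t

theorem s98_pp_022_t : ∃ t, chk3 f_pp_022_t t 17 31 1 = true := ex3_b s97_pp_022_t k20_pp_022_t

theorem s99_pp_022_t : ∃ t, chk3 f_pp_022_t t 35 122 1 = true := ex3_b k12_pp_022_t k13_pp_022_t

theorem s100_pp_022_t : ∃ t, chk3 f_pp_022_t t 35 61 1 = true := ex3_b s99_pp_022_t k14_pp_022_t

theorem s101_pp_022_t : ∃ t, chk3 f_pp_022_t t 35 30 1 = true := ex3_b k11_pp_022_t s100_pp_022_t

theorem s102_pp_022_t : ∃ t, chk3 f_pp_022_t t 69 123 1 = true := ex3_b k9_pp_022_t k10_pp_022_t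

theorem s103_pp_022_t : ∃ t, chk3 f_pp_022_t t 69 61 1 = true := ex3_b k8_pp_022_t s102_pp_022_t

theorem s104_pp_022_t : ∃ t, chk3 f_pp_022_t t 34 61 1 = true := ex3_a k7_pp_022_t s103_pp_022_t

theorem s105_pp_022_t : ∃ t, chk3 f_pp_022_t t 34 30 1 = true := ex3_b k6_pp_022_t s104_pp_022_t

theorem s106_pp_022_t : ∃ t, chk3 f_pp_022_t t 17 30 1 = true := ex3_a s105_pp_022_t s101_pp_022_t

theorem s107_pp_022_t : ∃ t, chk3 f_pp_022_t t 17 15 1 = true := ex3_b s106_pp_022_t s98_pp_022_t

theorem s108_pp_022_t : ∃ t, chk3 f_pp_022_t t 8 15 1 = true := ex3_a k5_pp_022_t s107_pp_022_t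

theorem s109_pp_022_t : ∃ t, chk3 f_pp_022_t t 8 14 1 = true := ex3_a k3_pp_022_t k4_pp_022_t

theorem s110_pp_022_t : ∃ t, chk3 f_pp_022_t t 8 7 1 = true := ex3_b s109_pp_022_t s108_pp_022_t

theorem s111_pp_022_t : ∃ t, chk3 f_pp_022_t t 4 7 1 = true := ex3_a s110_pp_022_t s93_pp_022_t

theorem s112_pp_022_t : ∃ t, chk3 f_pp_022_t t 4 6 1 = true := ex3_a k1_pp_022_t k2_pp_022_t

theorem s113_pp_022_t : ∃ t, chk3 f_pp_022_t t 4 3 1 = true := ex3_b s112_pp_022_t s111_pp_022_t

theorem s114_pp_022_t : ∃ t, chk3 f_pp_022_t t 2 3 1 = true := ex3_a s113_pp_022_t s81_pp_022_t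

theorem s115_pp_022_t : ∃ t, chk3 f_pp_022_t t 2 1 1 = true := ex3_b k0_pp_022_t s114_pp_022_t

theorem s116_pp_022_t : ∃ t, chk3 f_pp_022_t t 1 1 1 = true := ex3_a s115_pp_022_t s67_pp_022_t

theorem c_pp_022_t : CertNE 0 536870912 0 536870912 649613803 48318383 3 eng mog cd0q0 cd0q2 pd2 true true true .pp 0 2 2
    ndB0q0 ndB0q2 pcB2 cut_pp_022_t Ext.none :=
  certNE0 (fam := true) (s1 := true) (s2 := true) (a := 0) (b := 2) (c := 2) (cn := .pp) (n1 := ndB0q0) (n2 := ndB0q2) (pc := pcB2) (cut := cut_pp_022_t) (xt := Ext.none) (P1 := 0) (W1 := 536870912) (P2 := 0) (W2 := 536870912) (P3 := 649613803) (W3 := 48318383) (N0 := 3) (En := eng) (mo := mog) (C1 := cd0q0) (C2 := cd0q2) (C3 := pd2)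
    rfl s116_pp_022_t

noncomputable def cut_pp_023_s : Cut := Cut.of [[⟨4, 0, 0, 1449551462⟩]]

noncomputable def f_pp_023_s : ℕ → ℕ → ℕ → ℕ → Bool := onCell 0 536870912 0 536870912 649613803 48318383
    (rowNE 3 eng mog cd0q0 cd0q2 pd3 0 true true true .up 0 2 3 (qsf 0 536870912 0 536870912 3) ndB0q0 ndB0q2 pcB3 cut_pp_023_s Ext.none)

def k0_pp_023_s : ∃ t, chk3 f_pp_023_s t 1 1 1 = true :=
  ⟨(l 6), by decide +kernel⟩

theorem c_pp_023_s : CertNE 0 536870912 0 536870912 649613803 48318383 3 eng mog cd0q0 cd0q2 pd3 true true true .up 0 2 3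
    ndB0q0 ndB0q2 pcB3 cut_pp_023_s Ext.none :=
  certNE0 (fam := true) (s1 := true) (s2 := true) (a := 0) (b := 2) (c := 3) (cn := .up) (n1 := ndB0q0) (n2 := ndB0q2) (pc := pcB3) (cut := cut_pp_023_s) (xt := Ext.none) (P1 := 0) (W1 := 536870912) (P2 := 0) (W2 := 536870912) (P3 := 649613803) (W3 := 48318383) (N0 := 3) (En := eng) (mo := mog) (C1 := cd0q0) (C2 := cd0q2) (C3 := pd3)
    rfl k0_pp_023_s

noncomputable def cut_pp_023_t : Cut := Cut.of [[⟨3, 0, 0, 2845415833⟩]]

noncomputable def f_pp_023_t : ℕ → ℕ → ℕ → ℕ → Bool := onCell 1610612736 536870912 0 536870912 649613803 48318383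
    (rowNE 3 eng mog cd0q0 cd0q2 pd3 2 true true true .up 0 2 3 (qsf 0 536870912 0 536870912 3) ndB0q0 ndB0q2 pcB3 cut_pp_023_t Ext.none)

def k0_pp_023_t : ∃ t, chk3 f_pp_023_t t 1 1 1 = true :=
  ⟨(a (b (a (b (a (b (a (a (l 16685352) (l 16692304)) (l 16720416)) (a (a (l 16716704) (l 16746384)) (a (l 16774936) (l 16781608)))) (b (a (a (l 16704296) (l 16708000)) (l 16785648)) (a (b (l 16780784) (a (l 16755648) (l 16783936))) (b (a (l 16748728) (l 16757744)) (a (b (l 16765600) (b (l 16789672) (l 95261064087))) (b (a (l 16772240) (l 85060505207)) (l 132305150343))))))) (a (b (a (b (a (l 16741800) (l 16771936)) (a (b (l 16776864) (a (l 16764672) (l 16780072))) (b (l 16786216) (b (a (l 16771352) (l 50163892695)) (a (l 71638732359) (l 136063218919)))))) (a (b (l 16783744) (b (b (l 29225927367) (a (l 16774832) (l 94187309751))) (b (a (l 120493963175) (l 4)) (l 4)))) (b (b (l 16762872) (a (l 16770368) (l 63048796471))) (b (b (a (l 84523631607) (l 4)) (l 4)) (l 4))))) (a (b (b (a (b (a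 (l 36205248103) (b (l 70028115511) (l 131768252759))) (a (b (l 90966083079) (l 4)) (l 4))) (l 4)) (l 4)) (l 4)) (l 4))) (b (b (a (a (a (b (l 16768488) (l 88281734999)) (b (l 16772336) (l 125325799847))) (b (b (l 70564995527) (l 110830307015)) (l 4))) (l 4)) (l 4)) (l 4)))) (b (a (b (a (a (l 16760064) (l 16770336)) (l 2)) (a (b (a (b (l 16762472) (l 48016418039)) (b (l 42647706807) (b (l 107609093191) (l 4)))) (a (b (l 130157657159) (l 4)) (l 4))) (l 2))) (l 2)) (l 4))) (l 4)) (l 2)), by decide +kernel⟩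

theorem c_pp_023_t : CertNE 0 536870912 0 536870912 649613803 48318383 3 eng mog cd0q0 cd0q2 pd3 true true true .up 0 2 3
    ndB0q0 ndB0q2 pcB3 cut_pp_023_t Ext.none :=
  certNE2 (fam := true) (s1 := true) (s2 := true) (a := 0) (b := 2) (c := 3) (cn := .up) (n1 := ndB0q0) (n2 := ndB0q2) (pc := pcB3) (cut := cut_pp_023_t) (xt := Ext.none) (P1 := 0) (W1 := 536870912) (P2 := 0) (W2 := 536870912) (P3 := 649613803) (W3 := 48318383) (N0 := 3) (En := eng) (mo := mog) (C1 := cd0q0) (C2 := cd0q2) (C3 := pd3)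
    rfl (fun _ => rfl) k0_pp_023_t

noncomputable def cut_pp_101_s : Cut := Cut.of [[⟨4, 0, 0, 1449551462⟩]]

noncomputable def f_pp_101_s : ℕ → ℕ → ℕ → ℕ → Bool := onCell 536870912 536870912 0 536870912 649613803 48318383
    (rowNE 3 eng mog cd0q1 cd0q0 pd1 0 true true true .npn 1 0 1 (qsf 536870912 536870912 0 536870912 1) ndB0q1 ndB0q0 pcB1 cut_pp_101_s Ext.none)

def k0_pp_101_s : ∃ t, chk3 f_pp_101_s t 1 1 1 = true :=
  ⟨(l 6), by decide +kernel⟩

theorem c_pp_101_s : CertNE 536870912 536870912 0 536870912 649613803 48318383 3 eng mog cd0q1 cd0q0 pd1 true true true .npn 1 0 1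
    ndB0q1 ndB0q0 pcB1 cut_pp_101_s Ext.none :=
  certNE0 (fam := true) (s1 := true) (s2 := true) (a := 1) (b := 0) (c := 1) (cn := .npn) (n1 := ndB0q1) (n2 := ndB0q0) (pc := pcB1) (cut := cut_pp_101_s) (xt := Ext.none) (P1 := 536870912) (W1 := 536870912) (P2 := 0) (W2 := 536870912) (P3 := 649613803) (W3 := 48318383) (N0 := 3) (En := eng) (mo := mog) (C1 := cd0q1) (C2 := cd0q0) (C3 := pd1)
    rfl k0_pp_101_s

noncomputable def cut_pp_101_t : Cut := Cut.of [[⟨3, 0, 0, 2845415833⟩]]

noncomputable def f_pp_101_t : ℕ → ℕ → ℕ → ℕ → Bool := onCell 536870912 536870912 0 536870912 649613803 48318383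
    (rowNE 3 eng mog cd0q1 cd0q0 pd1 0 true true true .npn 1 0 1 (qsf 536870912 536870912 0 536870912 1) ndB0q1 ndB0q0 pcB1 cut_pp_101_t Ext.none)

def k0_pp_101_t : ∃ t, chk3 f_pp_101_t t 1 1 1 = true :=
  ⟨(a (l 4) (l 5)), by decide +kernel⟩

theorem c_pp_101_t : CertNE 536870912 536870912 0 536870912 649613803 48318383 3 eng mog cd0q1 cd0q0 pd1 true true true .npn 1 0 1
    ndB0q1 ndB0q0 pcB1 cut_pp_101_t Ext.none :=
  certNE0 (fam := true) (s1 := true) (s2 := true) (a := 1) (b := 0) (c := 1) (cn := .npn) (n1 := ndB0q1) (n2 := ndB0q0) (pc := pcB1) (cut := cut_pp_101_t) (xt := Ext.none) (P1 := 536870912) (W1 := 536870912) (P2 := 0) (W2 := 536870912) (P3 := 649613803) (W3 := 48318383) (N0 := 3) (En := eng) (mo := mog) (C1 := cd0q1) (C2 := cd0q0) (C3 := pd1)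
    rfl k0_pp_101_t

noncomputable def cut_pp_102_s : Cut := Cut.of [[⟨4, 0, 0, 1449551462⟩]]

noncomputable def f_pp_102_s : ℕ → ℕ → ℕ → ℕ → Bool := onCell 536870912 536870912 0 536870912 649613803 48318383
    (rowNE 3 eng mog cd0q1 cd0q0 pd2 0 true true true .npp 1 0 2 (qsf 536870912 536870912 0 536870912 2) ndB0q1 ndB0q0 pcB2 cut_pp_102_s Ext.none)

def k0_pp_102_s : ∃ t, chk3 f_pp_102_s t 1 1 1 = true :=
  ⟨(l 6), by decide +kernel⟩

theorem c_pp_102_s : CertNE 536870912 536870912 0 536870912 649613803 48318383 3 eng mog cd0q1 cd0q0 pd2 true true true .npp 1 0 2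
    ndB0q1 ndB0q0 pcB2 cut_pp_102_s Ext.none :=
  certNE0 (fam := true) (s1 := true) (s2 := true) (a := 1) (b := 0) (c := 2) (cn := .npp) (n1 := ndB0q1) (n2 := ndB0q0) (pc := pcB2) (cut := cut_pp_102_s) (xt := Ext.none) (P1 := 536870912) (W1 := 536870912) (P2 := 0) (W2 := 536870912) (P3 := 649613803) (W3 := 48318383) (N0 := 3) (En := eng) (mo := mog) (C1 := cd0q1) (C2 := cd0q0) (C3 := pd2)
    rfl k0_pp_102_s

noncomputable def cut_pp_102_t : Cut := Cut.of [[⟨3, 0, 0, 2845415833⟩]]

noncomputable def f_pp_102_t : ℕ → ℕ → ℕ → ℕ → Bool := onCell 536870912 536870912 0 536870912 649613803 48318383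
    (rowNE 3 eng mog cd0q1 cd0q0 pd2 0 true true true .npp 1 0 2 (qsf 536870912 536870912 0 536870912 2) ndB0q1 ndB0q0 pcB2 cut_pp_102_t Ext.none)

def k0_pp_102_t : ∃ t, chk3 f_pp_102_t t 1 1 1 = true :=
  ⟨(a (l 4) (l 5)), by decide +kernel⟩

theorem c_pp_102_t : CertNE 536870912 536870912 0 536870912 649613803 48318383 3 eng mog cd0q1 cd0q0 pd2 true true true .npp 1 0 2
    ndB0q1 ndB0q0 pcB2 cut_pp_102_t Ext.none :=
  certNE0 (fam := true) (s1 := true) (s2 := true) (a := 1) (b := 0) (c := 2) (cn := .npp) (n1 := ndB0q1) (n2 := ndB0q0) (pc := pcB2) (cut := cut_pp_102_t) (xt := Ext.none) (P1 := 536870912) (W1 := 536870912) (P2 := 0) (W2 := 536870912) (P3 := 649613803) (W3 := 48318383) (N0 := 3) (En := eng) (mo := mog) (C1 := cd0q1) (C2 := cd0q0) (C3 := pd2)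
    rfl k0_pp_102_t

noncomputable def cut_pp_112_s : Cut := Cut.of [[⟨4, 0, 0, 1449551462⟩]]

noncomputable def f_pp_112_s : ℕ → ℕ → ℕ → ℕ → Bool := onCell 536870912 536870912 536870912 536870912 649613803 48318383
    (rowNE 3 eng mog cd0q1 cd0q1 pd2 0 true true true .dn 1 1 2 (qsf 536870912 536870912 536870912 536870912 2) ndB0q1 ndB0q1 pcB2 cut_pp_112_s Ext.none)

def k0_pp_112_s : ∃ t, chk3 f_pp_112_s t 1 1 1 = true :=
  ⟨(l 4), by decide +kernel⟩

theorem c_pp_112_s : CertNE 536870912 536870912 536870912 536870912 649613803 48318383 3 eng mog cd0q1 cd0q1 pd2 true true true .dn 1 1 2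
    ndB0q1 ndB0q1 pcB2 cut_pp_112_s Ext.none :=
  certNE0 (fam := true) (s1 := true) (s2 := true) (a := 1) (b := 1) (c := 2) (cn := .dn) (n1 := ndB0q1) (n2 := ndB0q1) (pc := pcB2) (cut := cut_pp_112_s) (xt := Ext.none) (P1 := 536870912) (W1 := 536870912) (P2 := 536870912) (W2 := 536870912) (P3 := 649613803) (W3 := 48318383) (N0 := 3) (En := eng) (mo := mog) (C1 := cd0q1) (C2 := cd0q1) (C3 := pd2)
    rfl k0_pp_112_s

noncomputable def cut_pp_112_t : Cut := Cut.of [[⟨3, 0, 0, 2845415833⟩]]

noncomputable def f_pp_112_t : ℕ → ℕ → ℕ → ℕ → Bool := onCell 536870912 536870912 536870912 536870912 649613803 48318383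
    (rowNE 3 eng mog cd0q1 cd0q1 pd2 0 true true true .dn 1 1 2 (qsf 536870912 536870912 536870912 536870912 2) ndB0q1 ndB0q1 pcB2 cut_pp_112_t Ext.none)

def k0_pp_112_t : ∃ t, chk3 f_pp_112_t t 1 1 1 = true :=
  ⟨(l 4), by decide +kernel⟩

theorem c_pp_112_t : CertNE 536870912 536870912 536870912 536870912 649613803 48318383 3 eng mog cd0q1 cd0q1 pd2 true true true .dn 1 1 2
    ndB0q1 ndB0q1 pcB2 cut_pp_112_t Ext.none :=
  certNE0 (fam := true) (s1 := true) (s2 := true) (a := 1) (b := 1) (c := 2) (cn := .dn) (n1 := ndB0q1) (n2 := ndB0q1) (pc := pcB2) (cut := cut_pp_112_t) (xt := Ext.none) (P1 := 536870912) (W1 := 536870912) (P2 := 536870912) (W2 := 536870912) (P3 := 649613803) (W3 := 48318383) (N0 := 3) (En := eng) (mo := mog) (C1 := cd0q1) (C2 := cd0q1) (C3 := pd2)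
    rfl k0_pp_112_t

noncomputable def cut_pp_113_s : Cut := Cut.of [[⟨4, 0, 0, 1449551462⟩]]

noncomputable def f_pp_113_s : ℕ → ℕ → ℕ → ℕ → Bool := onCell 536870912 536870912 536870912 536870912 649613803 48318383
    (rowNE 3 eng mog cd0q1 cd0q1 pd3 0 true true true .nn 1 1 3 (qsf 536870912 536870912 536870912 536870912 3) ndB0q1 ndB0q1 pcB3 cut_pp_113_s Ext.none)

def k0_pp_113_s : ∃ t, chk3 f_pp_113_s t 1 1 1 = true :=
  ⟨(l 4), by decide +kernel⟩

theorem c_pp_113_s : CertNE 536870912 536870912 536870912 536870912 649613803 48318383 3 eng mog cd0q1 cd0q1 pd3 true true true .nn 1 1 3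
    ndB0q1 ndB0q1 pcB3 cut_pp_113_s Ext.none :=
  certNE0 (fam := true) (s1 := true) (s2 := true) (a := 1) (b := 1) (c := 3) (cn := .nn) (n1 := ndB0q1) (n2 := ndB0q1) (pc := pcB3) (cut := cut_pp_113_s) (xt := Ext.none) (P1 := 536870912) (W1 := 536870912) (P2 := 536870912) (W2 := 536870912) (P3 := 649613803) (W3 := 48318383) (N0 := 3) (En := eng) (mo := mog) (C1 := cd0q1) (C2 := cd0q1) (C3 := pd3)
    rfl k0_pp_113_s

noncomputable def cut_pp_113_t : Cut := Cut.of [[⟨3, 0, 0, 2845415833⟩]]

noncomputable def f_pp_113_t : ℕ → ℕ → ℕ → ℕ → Bool := onCell 536870912 536870912 536870912 536870912 649613803 48318383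
    (rowNE 3 eng mog cd0q1 cd0q1 pd3 0 true true true .nn 1 1 3 (qsf 536870912 536870912 536870912 536870912 3) ndB0q1 ndB0q1 pcB3 cut_pp_113_t Ext.none)

def k0_pp_113_t : ∃ t, chk3 f_pp_113_t t 1 1 1 = true :=
  ⟨(l 4), by decide +kernel⟩

theorem c_pp_113_t : CertNE 536870912 536870912 536870912 536870912 649613803 48318383 3 eng mog cd0q1 cd0q1 pd3 true true true .nn 1 1 3
    ndB0q1 ndB0q1 pcB3 cut_pp_113_t Ext.none :=
  certNE0 (fam := true) (s1 := true) (s2 := true) (a := 1) (b := 1) (c := 3) (cn := .nn) (n1 := ndB0q1) (n2 := ndB0q1) (pc := pcB3) (cut := cut_pp_113_t) (xt := Ext.none) (P1 := 536870912) (W1 := 536870912) (P2 := 536870912) (W2 := 536870912) (P3 := 649613803) (W3 := 48318383) (N0 := 3) (En := eng) (mo := mog) (C1 := cd0q1) (C2 := cd0q1) (C3 := pd3)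
    rfl k0_pp_113_t

noncomputable def cut_pp_123_s : Cut := Cut.of [[⟨4, 0, 0, 1449551462⟩]]

noncomputable def f_pp_123_s : ℕ → ℕ → ℕ → ℕ → Bool := onCell 536870912 536870912 0 536870912 649613803 48318383
    (rowNE 3 eng mog cd0q1 cd0q2 pd3 0 true true true .npn 1 2 3 (qsf 536870912 536870912 0 536870912 3) ndB0q1 ndB0q2 pcB3 cut_pp_123_s Ext.none)

def k0_pp_123_s : ∃ t, chk3 f_pp_123_s t 1 1 1 = true :=
  ⟨(l 6), by decide +kernel⟩

theorem c_pp_123_s : CertNE 536870912 536870912 0 536870912 649613803 48318383 3 eng mog cd0q1 cd0q2 pd3 true true true .npn 1 2 3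
    ndB0q1 ndB0q2 pcB3 cut_pp_123_s Ext.none :=
  certNE0 (fam := true) (s1 := true) (s2 := true) (a := 1) (b := 2) (c := 3) (cn := .npn) (n1 := ndB0q1) (n2 := ndB0q2) (pc := pcB3) (cut := cut_pp_123_s) (xt := Ext.none) (P1 := 536870912) (W1 := 536870912) (P2 := 0) (W2 := 536870912) (P3 := 649613803) (W3 := 48318383) (N0 := 3) (En := eng) (mo := mog) (C1 := cd0q1) (C2 := cd0q2) (C3 := pd3)
    rfl k0_pp_123_s

noncomputable def cut_pp_123_t : Cut := Cut.of [[⟨3, 0, 0, 2845415833⟩]]

noncomputable def f_pp_123_t : ℕ → ℕ → ℕ → ℕ → Bool := onCell 536870912 536870912 0 536870912 649613803 48318383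
    (rowNE 3 eng mog cd0q1 cd0q2 pd3 0 true true true .npn 1 2 3 (qsf 536870912 536870912 0 536870912 3) ndB0q1 ndB0q2 pcB3 cut_pp_123_t Ext.none)

def k0_pp_123_t : ∃ t, chk3 f_pp_123_t t 1 1 1 = true :=
  ⟨(a (b (a (b (a (b (a (b (l 16776944) (a (l 16765968) (b (l 16770744) (b (l 16787136) (l 115662154615))))) (b (a (l 16768912) (b (l 16772584) (a (l 16776248) (l 119957114087)))) (a (b (a (l 16776096) (l 119420243383)) (l 4)) (l 4)))) (a (b (a (b (b (l 53385122551) (l 123178316439)) (l 4)) (l 4)) (l 4)) (l 4))) (b (a (b (a (b (a (l 16776440) (l 120493985207)) (l 4)) (l 4)) (l 4)) (l 4)) (l 4))) (l 4)) (l 4)) (l 4)) (l 4)), by decide +kernel⟩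

theorem c_pp_123_t : CertNE 536870912 536870912 0 536870912 649613803 48318383 3 eng mog cd0q1 cd0q2 pd3 true true true .npn 1 2 3
    ndB0q1 ndB0q2 pcB3 cut_pp_123_t Ext.none :=
  certNE0 (fam := true) (s1 := true) (s2 := true) (a := 1) (b := 2) (c := 3) (cn := .npn) (n1 := ndB0q1) (n2 := ndB0q2) (pc := pcB3) (cut := cut_pp_123_t) (xt := Ext.none) (P1 := 536870912) (W1 := 536870912) (P2 := 0) (W2 := 536870912) (P3 := 649613803) (W3 := 48318383) (N0 := 3) (En := eng) (mo := mog) (C1 := cd0q1) (C2 := cd0q2) (C3 := pd3)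
    rfl k0_pp_123_t

noncomputable def cut_pp_202_s : Cut := Cut.of [[⟨4, 0, 0, 1449551462⟩]]

noncomputable def f_pp_202_s : ℕ → ℕ → ℕ → ℕ → Bool := onCell 0 536870912 0 536870912 649613803 48318383
    (rowNE 3 eng mog cd0q2 cd0q0 pd2 0 true true true .pp 2 0 2 (qsf 0 536870912 0 536870912 2) ndB0q2 ndB0q0 pcB2 cut_pp_202_s Ext.none)

def k0_pp_202_s : ∃ t, chk3 f_pp_202_s t 1 1 1 = true :=
  ⟨(l 5), by decide +kernel⟩

theorem c_pp_202_s : CertNE 0 536870912 0 536870912 649613803 48318383 3 eng mog cd0q2 cd0q0 pd2 true true true .pp 2 0 2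
    ndB0q2 ndB0q0 pcB2 cut_pp_202_s Ext.none :=
  certNE0 (fam := true) (s1 := true) (s2 := true) (a := 2) (b := 0) (c := 2) (cn := .pp) (n1 := ndB0q2) (n2 := ndB0q0) (pc := pcB2) (cut := cut_pp_202_s) (xt := Ext.none) (P1 := 0) (W1 := 536870912) (P2 := 0) (W2 := 536870912) (P3 := 649613803) (W3 := 48318383) (N0 := 3) (En := eng) (mo := mog) (C1 := cd0q2) (C2 := cd0q0) (C3 := pd2)
    rfl k0_pp_202_s

noncomputable def cut_pp_202_t : Cut := Cut.of [[⟨3, 0, 0, 2845415833⟩]]

noncomputable def f_pp_202_t : ℕ → ℕ → ℕ → ℕ → Bool := onCell 0 536870912 0 536870912 649613803 48318383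
    (rowNE 3 eng mog cd0q2 cd0q0 pd2 0 true true true .pp 2 0 2 (qsf 0 536870912 0 536870912 2) ndB0q2 ndB0q0 pcB2 cut_pp_202_t Ext.none)

def k0_pp_202_t : ∃ t, chk3 f_pp_202_t t 1 1 1 = true :=
  ⟨(l 5), by decide +kernel⟩

theorem c_pp_202_t : CertNE 0 536870912 0 536870912 649613803 48318383 3 eng mog cd0q2 cd0q0 pd2 true true true .pp 2 0 2
    ndB0q2 ndB0q0 pcB2 cut_pp_202_t Ext.none :=
  certNE0 (fam := true) (s1 := true) (s2 := true) (a := 2) (b := 0) (c := 2) (cn := .pp) (n1 := ndB0q2) (n2 := ndB0q0) (pc := pcB2) (cut := cut_pp_202_t) (xt := Ext.none) (P1 := 0) (W1 := 536870912) (P2 := 0) (W2 := 536870912) (P3 := 649613803) (W3 := 48318383) (N0 := 3) (En := eng) (mo := mog) (C1 := cd0q2) (C2 := cd0q0) (C3 := pd2)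
    rfl k0_pp_202_t

noncomputable def cut_pp_203_s : Cut := Cut.of [[⟨4, 0, 0, 1449551462⟩]]

noncomputable def f_pp_203_s : ℕ → ℕ → ℕ → ℕ → Bool := onCell 0 536870912 0 536870912 649613803 48318383
    (rowNE 3 eng mog cd0q2 cd0q0 pd3 0 true true true .up 2 0 3 (qsf 0 536870912 0 536870912 3) ndB0q2 ndB0q0 pcB3 cut_pp_203_s Ext.none)

def k0_pp_203_s : ∃ t, chk3 f_pp_203_s t 1 1 1 = true :=
  ⟨(l 5), by decide +kernel⟩

theorem c_pp_203_s : CertNE 0 536870912 0 536870912 649613803 48318383 3 eng mog cd0q2 cd0q0 pd3 true true true .up 2 0 3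
    ndB0q2 ndB0q0 pcB3 cut_pp_203_s Ext.none :=
  certNE0 (fam := true) (s1 := true) (s2 := true) (a := 2) (b := 0) (c := 3) (cn := .up) (n1 := ndB0q2) (n2 := ndB0q0) (pc := pcB3) (cut := cut_pp_203_s) (xt := Ext.none) (P1 := 0) (W1 := 536870912) (P2 := 0) (W2 := 536870912) (P3 := 649613803) (W3 := 48318383) (N0 := 3) (En := eng) (mo := mog) (C1 := cd0q2) (C2 := cd0q0) (C3 := pd3)
    rfl k0_pp_203_s

noncomputable def cut_pp_203_t : Cut := Cut.of [[⟨3, 0, 0, 2845415833⟩]]

noncomputable def f_pp_203_t : ℕ → ℕ → ℕ → ℕ → Bool := onCell 0 536870912 0 536870912 649613803 48318383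
    (rowNE 3 eng mog cd0q2 cd0q0 pd3 0 true true true .up 2 0 3 (qsf 0 536870912 0 536870912 3) ndB0q2 ndB0q0 pcB3 cut_pp_203_t Ext.none)

def k0_pp_203_t : ∃ t, chk3 f_pp_203_t t 1 1 1 = true :=
  ⟨(l 5), by decide +kernel⟩

theorem c_pp_203_t : CertNE 0 536870912 0 536870912 649613803 48318383 3 eng mog cd0q2 cd0q0 pd3 true true true .up 2 0 3
    ndB0q2 ndB0q0 pcB3 cut_pp_203_t Ext.none :=
  certNE0 (fam := true) (s1 := true) (s2 := true) (a := 2) (b := 0) (c := 3) (cn := .up) (n1 := ndB0q2) (n2 := ndB0q0) (pc := pcB3) (cut := cut_pp_203_t) (xt := Ext.none) (P1 := 0) (W1 := 536870912) (P2 := 0) (W2 := 536870912) (P3 := 649613803) (W3 := 48318383) (N0 := 3) (En := eng) (mo := mog) (C1 := cd0q2) (C2 := cd0q0) (C3 := pd3)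
    rfl k0_pp_203_t

noncomputable def cut_pp_213_s : Cut := Cut.of [[⟨4, 0, 0, 1449551462⟩]]

noncomputable def f_pp_213_s : ℕ → ℕ → ℕ → ℕ → Bool := onCell 0 536870912 536870912 536870912 649613803 48318383
    (rowNE 3 eng mog cd0q2 cd0q1 pd3 0 true true true .pnn 2 1 3 (qsf 0 536870912 536870912 536870912 3) ndB0q2 ndB0q1 pcB3 cut_pp_213_s Ext.none)

def k0_pp_213_s : ∃ t, chk3 f_pp_213_s t 1 1 1 = true :=
  ⟨(l 6), by decide +kernel⟩

theorem c_pp_213_s : CertNE 0 536870912 536870912 536870912 649613803 48318383 3 eng mog cd0q2 cd0q1 pd3 true true true .pnn 2 1 3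
    ndB0q2 ndB0q1 pcB3 cut_pp_213_s Ext.none :=
  certNE0 (fam := true) (s1 := true) (s2 := true) (a := 2) (b := 1) (c := 3) (cn := .pnn) (n1 := ndB0q2) (n2 := ndB0q1) (pc := pcB3) (cut := cut_pp_213_s) (xt := Ext.none) (P1 := 0) (W1 := 536870912) (P2 := 536870912) (W2 := 536870912) (P3 := 649613803) (W3 := 48318383) (N0 := 3) (En := eng) (mo := mog) (C1 := cd0q2) (C2 := cd0q1) (C3 := pd3)
    rfl k0_pp_213_s

noncomputable def cut_pp_213_t : Cut := Cut.of [[⟨3, 0, 0, 2845415833⟩]]

noncomputable def f_pp_213_t : ℕ → ℕ → ℕ → ℕ → Bool := onCell 0 536870912 536870912 536870912 649613803 48318383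
    (rowNE 3 eng mog cd0q2 cd0q1 pd3 0 true true true .pnn 2 1 3 (qsf 0 536870912 536870912 536870912 3) ndB0q2 ndB0q1 pcB3 cut_pp_213_t Ext.none)

def k0_pp_213_t : ∃ t, chk3 f_pp_213_t t 1 1 1 = true :=
  ⟨(a (l 5) (l 4)), by decide +kernel⟩

theorem c_pp_213_t : CertNE 0 536870912 536870912 536870912 649613803 48318383 3 eng mog cd0q2 cd0q1 pd3 true true true .pnn 2 1 3
    ndB0q2 ndB0q1 pcB3 cut_pp_213_t Ext.none :=
  certNE0 (fam := true) (s1 := true) (s2 := true) (a := 2) (b := 1) (c := 3) (cn := .pnn) (n1 := ndB0q2) (n2 := ndB0q1) (pc := pcB3) (cut := cut_pp_213_t) (xt := Ext.none) (P1 := 0) (W1 := 536870912) (P2 := 536870912) (W2 := 536870912) (P3 := 649613803) (W3 := 48318383) (N0 := 3) (En := eng) (mo := mog) (C1 := cd0q2) (C2 := cd0q1) (C3 := pd3)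
    rfl k0_pp_213_t

noncomputable def cut_pm_001_s : Cut := Cut.of [[⟨4, 0, 0, 1449551462⟩]]

noncomputable def f_pm_001_s : ℕ → ℕ → ℕ → ℕ → Bool := onCell 0 536870912 0 536870912 649613803 48318383
    (rowNE 3 eng mog cd0q0 cd0q0 pd1 0 true true false .up 0 0 1 (qsf 0 536870912 0 536870912 1) ndB0q0 ndB0q0 pcB1 cut_pm_001_s Ext.none)

def k0_pm_001_s : ∃ t, chk3 f_pm_001_s t 1 1 1 = true :=
  ⟨(l 3), by decide +kernel⟩

theorem c_pm_001_s : CertNE 0 536870912 0 536870912 649613803 48318383 3 eng mog cd0q0 cd0q0 pd1 true true false .up 0 0 1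
    ndB0q0 ndB0q0 pcB1 cut_pm_001_s Ext.none :=
  certNE0 (fam := true) (s1 := true) (s2 := false) (a := 0) (b := 0) (c := 1) (cn := .up) (n1 := ndB0q0) (n2 := ndB0q0) (pc := pcB1) (cut := cut_pm_001_s) (xt := Ext.none) (P1 := 0) (W1 := 536870912) (P2 := 0) (W2 := 536870912) (P3 := 649613803) (W3 := 48318383) (N0 := 3) (En := eng) (mo := mog) (C1 := cd0q0) (C2 := cd0q0) (C3 := pd1)
    rfl k0_pm_001_s

noncomputable def cut_pm_001_t : Cut := Cut.of [[⟨3, 0, 0, 2845415833⟩]]

noncomputable def f_pm_001_t : ℕ → ℕ → ℕ → ℕ → Bool := onCell 0 536870912 0 536870912 649613803 48318383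
    (rowNE 3 eng mog cd0q0 cd0q0 pd1 0 true true false .up 0 0 1 (qsf 0 536870912 0 536870912 1) ndB0q0 ndB0q0 pcB1 cut_pm_001_t Ext.none)

def k0_pm_001_t : ∃ t, chk3 f_pm_001_t t 1 1 1 = true :=
  ⟨(l 3), by decide +kernel⟩

theorem c_pm_001_t : CertNE 0 536870912 0 536870912 649613803 48318383 3 eng mog cd0q0 cd0q0 pd1 true true false .up 0 0 1
    ndB0q0 ndB0q0 pcB1 cut_pm_001_t Ext.none :=
  certNE0 (fam := true) (s1 := true) (s2 := false) (a := 0) (b := 0) (c := 1) (cn := .up) (n1 := ndB0q0) (n2 := ndB0q0) (pc := pcB1) (cut := cut_pm_001_t) (xt := Ext.none) (P1 := 0) (W1 := 536870912) (P2 := 0) (W2 := 536870912) (P3 := 649613803) (W3 := 48318383) (N0 := 3) (En := eng) (mo := mog) (C1 := cd0q0) (C2 := cd0q0) (C3 := pd1)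
    rfl k0_pm_001_t

noncomputable def cut_pm_011_s : Cut := Cut.of [[⟨4, 0, 0, 1449551462⟩], [⟨0, 0, 0, 67108864⟩, ⟨1, 1, 0, 67108864⟩, ⟨2, 1, 0, 67108864⟩]]

noncomputable def f_pm_011_s : ℕ → ℕ → ℕ → ℕ → Bool := onCell 536870912 536870912 536870912 536870912 649613803 48318383
    (rowNE 3 eng mog cd0q0 cd0q1 pd1 2 true true false .pnn 0 1 1 (qsf 0 536870912 536870912 536870912 1) ndB0q0 ndB0q1 pcB1 cut_pm_011_s Ext.none)

def k0_pm_011_s : ∃ t, chk3 f_pm_011_s t 1 1 1 = true :=
  ⟨(a (l 3) (b (l 3) (a (l 3) (b (l 3) (a (l 3) (b (l 3) (a (l 3) (b (l 3) (l 14))))))))), by decide +kernel⟩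

theorem c_pm_011_s : CertNE 0 536870912 536870912 536870912 649613803 48318383 3 eng mog cd0q0 cd0q1 pd1 true true false .pnn 0 1 1
    ndB0q0 ndB0q1 pcB1 cut_pm_011_s Ext.none :=
  certNE2 (fam := true) (s1 := true) (s2 := false) (a := 0) (b := 1) (c := 1) (cn := .pnn) (n1 := ndB0q0) (n2 := ndB0q1) (pc := pcB1) (cut := cut_pm_011_s) (xt := Ext.none) (P1 := 0) (W1 := 536870912) (P2 := 536870912) (W2 := 536870912) (P3 := 649613803) (W3 := 48318383) (N0 := 3) (En := eng) (mo := mog) (C1 := cd0q0) (C2 := cd0q1) (C3 := pd1)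
    rfl (fun _ => rfl) k0_pm_011_s

noncomputable def cut_pm_011_t : Cut := Cut.of [[⟨3, 0, 0, 2845415833⟩], [⟨0, 0, 0, 67108864⟩, ⟨1, 1, 0, 67108864⟩, ⟨2, 1, 0, 67108864⟩]]

noncomputable def f_pm_011_t : ℕ → ℕ → ℕ → ℕ → Bool := onCell 0 536870912 536870912 536870912 649613803 48318383
    (rowNE 3 eng mog cd0q0 cd0q1 pd1 0 true true false .pnn 0 1 1 (qsf 0 536870912 536870912 536870912 1) ndB0q0 ndB0q1 pcB1 cut_pm_011_t Ext.none)

def k0_pm_011_t : ∃ t, chk3 f_pm_011_t t 1 1 1 = true :=
  ⟨(l 6), by decide +kernel⟩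

theorem c_pm_011_t : CertNE 0 536870912 536870912 536870912 649613803 48318383 3 eng mog cd0q0 cd0q1 pd1 true true false .pnn 0 1 1
    ndB0q0 ndB0q1 pcB1 cut_pm_011_t Ext.none :=
  certNE0 (fam := true) (s1 := true) (s2 := false) (a := 0) (b := 1) (c := 1) (cn := .pnn) (n1 := ndB0q0) (n2 := ndB0q1) (pc := pcB1) (cut := cut_pm_011_t) (xt := Ext.none) (P1 := 0) (W1 := 536870912) (P2 := 536870912) (W2 := 536870912) (P3 := 649613803) (W3 := 48318383) (N0 := 3) (En := eng) (mo := mog) (C1 := cd0q0) (C2 := cd0q1) (C3 := pd1)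
    rfl k0_pm_011_t

noncomputable def cut_pm_012_s : Cut := Cut.of [[⟨4, 0, 0, 1449551462⟩], [⟨0, 0, 0, 33554432⟩, ⟨1, 1, 0, 33554432⟩, ⟨2, 1, 0, 33554432⟩]]

noncomputable def f_pm_012_s : ℕ → ℕ → ℕ → ℕ → Bool := onCell 1073741824 536870912 536870912 536870912 649613803 48318383
    (rowNE 3 eng mog cd0q0 cd0q1 pd2 2 true true false .pnp 0 1 2 (qsf 0 536870912 536870912 536870912 2) ndB0q0 ndB0q1 pcB2 cut_pm_012_s Ext.none)

def k0_pm_012_s : ∃ t, chk3 f_pm_012_s t 4 2 1 = true :=
  ⟨(a (l 3) (l 3)), by decide +kernel⟩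

def k1_pm_012_s : ∃ t, chk3 f_pm_012_s t 8 6 1 = true :=
  ⟨(l 3), by decide +kernel⟩

def k2_pm_012_s : ∃ t, chk3 f_pm_012_s t 18 6 1 = true :=
  ⟨(b (l 3) (a (l 3) (b (l 3) (a (l 3) (b (l 3) (a (l 3) (b (l 3) (a (b (l 3) (a (b (l 3) (l 135996115271)) (b (l 136532986183) (l 16776024)))) (a (b (b (l 3) (l 134385502615)) (l 16775280)) (b (b (l 130627406279) (l 16775984)) (l 16773800))))))))))), by decide +kernel⟩

def k3_pm_012_s : ∃ t, chk3 f_pm_012_s t 19 12 1 = true :=
  ⟨(a (l 3) (b (l 3) (a (b (l 3) (a (l 3) (b (l 3) (a (l 3) (b (l 3) (l 314774128887)))))) (b (a (l 3) (b (a (l 3) (l 306721065687)) (a (l 202568115639) (l 16781472)))) (a (b (a (l 3) (b (l 287930587655) (l 97341413127))) (a (b (c (l 139754215783) (l 173040212295)) (l 16778752)) (b (l 16775248) (l 16773120)))) (b (a (b (l 16776312) (l 16774352)) (l 16772440)) (a (l 16771232) (b (l 16769384) (l 16767416))))))))), by decide +kernel⟩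

def k4_pm_012_s : ∃ t, chk3 f_pm_012_s t 38 13 1 = true :=
  ⟨(b (a (l 3) (b (l 3) (a (a (l 3) (a (l 3) (b (l 3) (b (l 3) (l 173040209911))))) (b (a (l 3) (b (l 3) (a (l 219747979431) (l 16776752)))) (a (a (b (l 308868548359) (l 16776296)) (b (l 120426855143) (l 16774760))) (b (l 16775016) (l 16772424))))))) (a (b (a (b (l 3) (a (l 3) (l 335175224951))) (b (a (l 3) (b (l 3) (c (l 294909905095) (l 286856841287)))) (b (a (l 309405419863) (a (a (l 178408918215) (l 16779680)) (l 16775968))) (a (a (a (l 210084301799) (l 118279376231)) (l 16776224)) (l 16773992))))) (a (b (b (a (l 3) (a (a (l 257865810855) (l 141901696231)) (l 16779040))) (a (a (a (l 269140100087) (l 159081562615)) (a (l 75866571319) (l 16776224))) (l 16774360))) (a (b (l 16774472) (l 16771568)) (b (l 16771496) (b (l 16771936) (c (l 16768016) (l 16769128)))))) (b (a (b (l 16774200) (l 16771392)) (b (l 16771256) (a (l 16769200) (l 16770432)))) (b (a (a (l 16769272) (l 16770488)) (c (l 16765840) (l 16765752))) (a (c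 (l 16765880) (l 16765736)) (l 16762984)))))) (b (a (b (a (a (b (l 3) (a (l 141901696151) (l 16776752))) (b (l 212768657463) (l 16775632))) (a (b (l 16779352) (l 16774096)) (l 16773888))) (a (b (l 16773696) (l 16770992)) (b (l 16770616) (c (l 16770568) (l 16769824))))) (b (a (b (l 16772896) (l 16770224)) (b (l 16769800) (c (l 16767184) (l 16767152)))) (a (b (c (l 16767568) (l 16770128)) (l 16764960)) (b (l 16764624) (l 16762056))))) (b (a (a (a (b (l 16769032) (l 16766360)) (b (l 16767520) (l 16764824))) (b (l 16767920) (l 16762608))) (a (a (l 16761760) (l 16760344)) (l 16760864))) (a (c (b (l 16761376) (l 16758672)) (b (l 16764040) (l 16761400))) (a (a (l 16756560) (l 16755208)) (l 16755784))))))), by decide +kernel⟩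

def k5_pm_012_s : ∃ t, chk3 f_pm_012_s t 39 26 1 = true :=
  ⟨(a (b (a (b (l 3) (a (b (l 3) (l 295983647047)) (b (l 246054651335) (c (l 16776240) (l 16776224))))) (b (b (a (l 3) (l 83919637223)) (a (c (l 145659795159) (l 146733536951)) (l 16774752))) (a (b (l 16775520) (l 16773144)) (l 16771232)))) (a (b (b (a (a (l 154786598919) (l 16776152)) (l 16773816)) (a (l 16774448) (l 16771328))) (a (b (l 16771904) (l 16769312)) (b (l 16768792) (c (l 16766344) (l 16766336))))) (b (a (b (l 16770704) (l 16768232)) (b (l 16767656) (l 16765416))) (a (b (l 16765888) (l 16763568)) (l 16762080))))) (b (a (b (a (l 16772800) (b (l 16770920) (l 16768688))) (a (b (l 16769344) (l 16767080)) (b (l 16766568) (l 16764544)))) (b (b (a (l 16768048) (l 16765584)) (a (l 16766064) (l 16763768))) (c (l 16762064) (l 16767216)))) (a (b (a (c (l 16763888) (l 16763896)) (l 16761472)) (a (b (l 16760656) (l 16758416)) (b (l 16758232) (l 16755976)))) (a (b (l 16759112) (b (l 16755856) (l 16753592))) (b (c (l 16756848)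 (l 16756656)) (b (l 16753512) (l 16751240))))))), by decide +kernel⟩

def k6_pm_012_s : ∃ t, chk3 f_pm_012_s t 39 27 1 = true :=
  ⟨(a (b (b (a (a (b (c (l 16766776) (l 16766760)) (l 16764264)) (l 16764024)) (c (a (l 16760008) (l 16757416)) (a (l 16760024) (l 16757392)))) (a (a (l 16763144) (l 16759120)) (c (l 16759088) (a (l 16757752) (b (l 16753744) (l 16751296)))))) (b (a (a (l 16758136) (l 16755480)) (a (b (l 16751488) (l 16749024)) (b (l 16748928) (c (l 16746440) (l 16746384))))) (b (a (l 16755680) (a (a (l 16747200) (l 16745912)) (c (l 16743904) (l 16743888)))) (a (a (l 16749248) (c (l 16746504) (l 16746664))) (a (l 16744696) (l 16741408)))))) (b (a (b (a (b (l 16766584) (l 16753720)) (b (l 16753656) (l 16751280))) (a (c (l 16750104) (l 16755192)) (b (l 16748848) (c (l 16746472) (l 16756688))))) (a (b (b (l 16751264) (l 16748872)) (b (c (l 16746536) (l 16751416)) (c (l 16743968) (l 16743616)))) (b (b (l 16748904) (c (l 16746616) (l 16751432))) (b (a (l 16744544) (l 16743248))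 (l 16741248))))) (a (b (a (b (c (l 16746440) (l 16746272)) (c (l 16743896) (l 16743760))) (b (c (l 16743920) (l 16743664)) (l 16741280))) (a (b (l 16741336) (l 16738768)) (b (l 16738696) (l 16736128)))) (b (c (a (l 16739984) (l 16737328)) (a (l 16739736) (l 16737072))) (c (a (l 16734688) (l 16732008)) (a (l 16734616) (l 16731936))))))), by decide +kernel⟩

def k7_pm_012_s : ∃ t, chk3 f_pm_012_s t 8 14 1 = true :=
  ⟨(a (l 3) (b (l 3) (a (l 3) (b (l 3) (a (b (l 3) (a (l 3) (b (l 3) (a (b (l 3) (l 276119422167)) (a (b (l 3) (c (l 61371055847) (l 112373793831))) (b (l 173040206487) (l 16776064))))))) (a (b (a (l 3) (a (l 3) (b (l 3) (b (l 3) (l 181630141703))))) (b (a (a (l 257328940167) (b (l 296520516503) (l 75329701239))) (b (a (l 130627404807) (l 16776208)) (l 16775184))) (a (b (c (l 16775944) (l 16777248)) (l 16774304)) (a (b (l 16774152) (l 16772536)) (b (l 16772976) (l 16771344)))))) (b (b (a (l 3) (a (b (l 3) (c (l 131701146487) (l 130627404903))) (b (l 181630141143) (l 16776224))))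 (a (a (b (l 244444037751) (l 16779256)) (a (b (l 123111211863) (l 16775736)) (l 16777912))) (b (l 16775256) (l 16776328)))) (a (b (a (l 16774224) (b (l 16773856) (l 16772280))) (b (c (l 16773888) (l 16773856)) (l 16769688))) (b (b (a (l 16772712) (l 16771560)) (l 16773192)) (l 16768200)))))))))), by decide +kernel⟩

def k8_pm_012_s : ∃ t, chk3 f_pm_012_s t 16 30 1 = true :=
  ⟨(a (l 3) (b (l 3) (a (l 3) (b (l 3) (a (l 3) (b (l 3) (b (a (l 3) (a (a (l 3) (l 279340647383)) (a (b (l 3) (c (l 123648082263) (l 129016791351))) (b (l 220284846471) (l 16776704))))) (b (a (l 3) (a (a (c (l 169282109751) (l 176261431575)) (l 41506832791)) (l 16776016))) (a (a (l 3) (a (l 225116684695) (a (l 121500598487) (l 16776984)))) (a (l 16776232) (a (l 16775328) (l 16774736)))))))))))), by decide +kernel⟩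

def k9_pm_012_s : ∃ t, chk3 f_pm_012_s t 32 62 1 = true :=
  ⟨(a (l 3) (b (l 3) (a (l 3) (b (l 3) (b (l 3) (b (l 3) (a (l 3) (a (l 3) (b (a (l 3) (a (l 273971937671) (b (l 253570842855) (a (l 140291080295) (l 16777120))))) (b (a (l 3) (a (a (l 163376529479) (l 16777136)) (l 16776944))) (a (l 14) (l 16776832)))))))))))), by decide +kernel⟩

def k10_pm_012_s : ∃ t, chk3 f_pm_012_s t 66 124 1 = true :=
  ⟨(a (l 3) (b (l 3) (a (l 3) (b (l 3) (a (b (l 3) (a (l 263771390599) (b (l 229948522839) (a (l 109689438487) (l 16776968))))) (a (c (b (l 218137362967) (l 16777448)) (b (l 228874780471) (c (l 16777456) (l 16777456)))) (b (b (l 176261431479) (l 16777288)) (l 16776248)))))))), by decide +kernel⟩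

def k11_pm_012_s : ∃ t, chk3 f_pm_012_s t 66 250 1 = true :=
  ⟨(a (b (l 3) (a (l 3) (a (a (l 3) (b (l 3) (c (l 247665261975) (l 258939551031)))) (a (b (l 3) (b (a (l 3) (l 192904429751)) (a (b (l 177872044103) (l 16777080)) (l 16776936)))) (a (b (l 3) (b (a (l 98952020231) (l 16777072)) (l 16776672))) (b (b (l 3) (l 168745238615)) (l 16776640))))))) (b (a (b (a (l 3) (b (l 277730034423) (a (l 3) (a (l 175724560487) (l 16777744))))) (a (a (l 3) (a (l 256255197719) (b (l 3) (c (l 105931342103) (l 111300051207))))) (a (b (a (l 205789331591) (c (l 16777800) (l 80698409303))) (l 16776832)) (l 16776536)))) (a (a (b (b (a (l 142438564039) (l 16777024)) (l 16776696)) (l 16776000)) (b (l 16776392) (b (l 16775704) (l 16775224)))) (a (b (l 16775864) (b (l 16775152) (l 16774712))) (b (a (l 16775456) (l 16775176)) (l 16774416))))) (b (a (a (a (b (a (l 269676970343) (c (l 134922371271) (l 141364822199))) (c (l 16777600) (l 16777432))) (c (l 16777064) (c (l 16776984) (l 16776984)))) (a (l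 16776120) (b (l 16775832) (l 16775368)))) (a (a (b (l 16775296) (l 16774824)) (l 16774520)) (l 16773696))) (a (a (a (l 16776240) (b (l 16775944) (l 16775640))) (a (b (l 16775424) (l 16774936)) (l 16774632))) (a (l 16773808) (l 16772696)))))), by decide +kernel⟩

def k12_pm_012_s : ∃ t, chk3 f_pm_012_s t 66 251 1 = true :=
  ⟨(a (a (a (b (l 3) (a (b (b (l 3) (a (l 249812746583) (b (l 217063620711) (c (l 16777128) (l 16777288))))) (a (b (b (c (l 16777312) (l 27011318039)) (l 16776920)) (l 16776544)) (l 16776520))) (b (a (b (l 226727296647) (c (l 16777312) (l 16777312))) (b (b (l 183240753223) (l 16777080)) (l 16776720))) (b (l 16776360) (a (l 16775992) (l 16775736)))))) (b (a (b (l 3) (b (l 3) (b (a (l 3) (l 146196660343)) (a (l 163913400423) (l 16777032))))) (b (a (l 3) (l 281488130695)) (b (a (b (l 3) (l 126869307559)) (b (l 108615696583) (l 16776984))) (l 16776752)))) (a (b (b (c (l 16777128) (l 16776968)) (l 16776312)) (b (a (l 16775944) (l 16775696)) (l 16775344))) (b (b (l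 16776264) (a (l 16775896) (l 16775648))) (c (l 16775056) (l 16775040)))))) (a (a (b (b (b (l 258939552215) (a (b (l 259476422887) (l 88214601991)) (c (l 16777696) (l 16777368)))) (c (l 16776456) (l 16776456))) (b (b (a (l 16775848) (l 16775600)) (l 16775248)) (l 16774496))) (b (b (b (a (b (l 217600491607) (l 16777128)) (l 16777312)) (l 16776648)) (b (l 16776168) (a (l 16775800) (l 16775552)))) (b (l 16775112) (l 16773944)))) (b (a (b (l 16776352) (b (c (l 16775624) (l 16775624)) (l 16775144))) (b (b (l 16776056) (c (l 16775576) (l 16775576))) (l 16774848))) (b (c (l 16774144) (l 16774096)) (l 16773128))))) (b (b (a (a (a (b (c (l 16775528) (l 16775528)) (l 16775040)) (l 16774736)) (l 16773912)) (a (l 16772808) (l 16772328))) (a (a (l 16774016) (l 16772920)) (c (a (l 16772496) (l 16770840)) (a (l 16772384) (l 16770728))))) (b (a (a (l 16773024) (a (l 16772184) (l 16771640))) (a (l 16771584) (l 16769960))) (a (a (a (l 16772280) (l 16772424)) (l 16771720)) (l 16770224))))), by decide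 +kernel⟩

def k13_pm_012_s : ∃ t, chk3 f_pm_012_s t 67 124 1 = true :=
  ⟨(a (a (a (b (l 3) (b (b (l 3) (b (a (l 3) (c (l 125795565719) (l 129016791255))) (a (c (l 151565369431) (l 157470949479)) (l 16776800)))) (a (b (l 16776968) (l 16775712)) (b (l 16776088) (a (l 16775296) (l 16775008)))))) (b (b (l 3) (b (l 3) (l 261623905831))) (b (b (a (b (l 266455744951) (c (l 98952020199) (l 103783858391))) (b (l 73182216535) (l 16776640))) (l 16776208)) (a (b (l 16776208) (l 16774608)) (b (a (l 16775128) (l 16774840)) (l 16774112)))))) (b (b (a (l 3) (a (l 3) (a (l 257328937191) (b (l 3) (l 144586047703))))) (a (b (a (l 3) (a (l 282025001511) (l 192904429831))) (a (b (l 204715589847) (l 16777368)) (l 16777368))) (b (a (b (l 148344144055) (l 16776864)) (l 16776528)) (l 16775848)))) (a (b (b (l 16776032) (a (l 16776040) (a (l 16774944) (l 16774664)))) (b (l 16774512) (l 16773344))) (b (b (a (l 16776512) (l 16775272)) (l 16774016)) (l 16772728))))) (a (a (b (b (a (b (l 267529486935) (a (l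 65129152871) (l 16776776))) (b (a (l 172503335175) (l 95730794695)) (l 16776336))) (b (l 16775664) (a (l 16776312) (l 16774424)))) (b (a (l 16773672) (l 16773168)) (l 16771600))) (b (b (b (a (l 16776736) (l 16776144)) (l 16776128)) (b (a (l 16776112) (l 16774224)) (l 16773656))) (b (l 16772400) (c (l 16770488) (l 16770384))))) (a (b (b (b (c (l 16775288) (l 16775240)) (b (l 16775840) (l 16774064))) (l 16773040)) (b (l 16771352) (b (l 16769816) (l 16768944)))) (b (b (a (b (l 16775672) (l 16773504)) (l 16774040)) (l 16772008)) (b (l 16770192) (c (l 16768472) (l 16768352))))))), by decide +kernel⟩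

def k14_pm_012_s : ∃ t, chk3 f_pm_012_s t 67 125 1 = true :=
  ⟨(b (a (a (a (a (b (b (a (l 16774896) (l 16774648)) (l 16773856)) (l 16772360)) (b (l 16773800) (l 16771792))) (b (l 16772968) (b (l 16771464) (a (l 16770736) (l 16770248))))) (a (b (l 16771848) (b (l 16771016) (l 16769528))) (b (b (l 16771224) (l 16770872)) (l 16769008)))) (a (b (a (b (l 16770080) (l 16769248)) (l 16770032)) (l 16767392)) (b (l 16767136) (l 16765072)))) (a (a (b (a (a (b (l 16770872) (l 16770048)) (l 16770672)) (l 16769280)) (c (l 16767768) (l 16767840))) (b (c (l 16767584) (l 16767656)) (l 16766152))) (a (a (c (l 16764816) (l 16764856)) (c (l 16763672) (l 16763704))) (b (l 16762992) (c (a (l 16761472) (l 16762928)) (b (l 16761440) (l 16765576))))))), by decide +kernel⟩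

def k15_pm_012_s : ∃ t, chk3 f_pm_012_s t 32 63 1 = true :=
  ⟨(b (a (l 14) (a (l 14) (b (a (l 14) (a (l 14) (a (l 14) (b (b (b (l 16776456) (l 14)) (l 14)) (l 14))))) (l 14)))) (l 14)), by decide +kernel⟩

def k16_pm_012_s : ∃ t, chk3 f_pm_012_s t 33 126 1 = true :=
  ⟨(a (b (a (a (b (a (a (b (a (b (l 16776360) (l 14)) (b (l 16775944) (l 16775288))) (l 14)) (b (b (l 16775712) (l 16774880)) (l 16774136))) (a (b (l 16774584) (l 16773592)) (b (l 16774040) (l 16773360)))) (a (l 14) (a (l 14) (a (l 14) (l 16771624))))) (b (b (a (l 16773552) (a (a (l 16772528) (l 16772264)) (l 16772560))) (a (a (a (l 16773288) (l 16772384)) (l 16772696)) (l 16771320))) (a (c (l 16770888) (l 16770952)) (c (l 16769744) (l 16769800))))) (b (a (a (b (l 16771200) (l 16770272)) (l 16769664)) (c (l 16767920) (l 16767976))) (b (a (l 16769256) (a (l 16764256) (l 16765728))) (a (l 16768152) (a (l 16768400) (l 16765928)))))) (a (a (l 14) (b (b (b (l 16768952) (l 14)) (l 14)) (l 14))) (b (b (a (a (l 16766952)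 (a (l 16766096) (l 16765512))) (c (l 16766648) (l 16766632))) (a (a (a (l 14) (l 16765496)) (l 16764600)) (c (l 16762816) (l 16762776)))) (a (a (l 14) (a (l 14) (l 16762416))) (b (l 16762936) (l 16761592)))))) (b (b (b (a (a (l 16766184) (l 16765200)) (a (a (l 16762168) (l 16760976)) (l 16761800))) (a (a (c (l 16765096) (l 16762504)) (a (l 16763384) (l 16762208))) (a (l 16763032) (l 16758000)))) (a (a (a (b (l 16767208) (l 16763424)) (b (l 16766040) (l 16762232))) (a (c (l 16761640) (l 16761616)) (l 16763040))) (c (a (l 16758664) (l 16756272)) (a (l 16758600) (l 16756176))))) (c (a (a (b (l 16762344) (l 16758576)) (b (l 16758648) (l 16756200))) (a (b (l 16756264) (l 16753824)) (b (l 16753888) (l 16751464)))) (a (a (b (l 16763600) (l 16758472)) (b (l 16758560) (l 16756064))) (b (a (l 16756144) (l 16753744)) (a (l 16753664) (l 16751264))))))), by decide +kernel⟩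

def k17_pm_012_s : ∃ t, chk3 f_pm_012_s t 33 127 1 = true :=
  ⟨(a (b (b (a (l 14) (a (l 14) (a (l 14) (a (l 14) (l 16757480))))) (l 14)) (l 14)) (b (a (a (c (b (c (l 16756144) (l 16756032)) (b (l 16754184) (l 14))) (b (l 16755928) (l 16753344))) (c (b (l 16753712) (c (b (l 16751904) (l 16750648)) (l 16751112))) (b (l 16753528) (l 16750960)))) (c (a (b (l 16751352) (b (l 16749464) (l 16749184))) (b (l 16748992) (b (l 16747120) (l 16745864)))) (b (l 16752568) (c (l 16748752) (l 16747360))))) (a (a (l 14) (a (l 14) (b (b (l 16748552) (l 14)) (l 14)))) (c (b (c (a (l 16746448) (l 16744120)) (l 16745064)) (c (a (l 16743936) (l 16741600)) (l 16745144))) (b (l 16747472) (l 16744904)))))), by decide +kernel⟩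

def k18_pm_012_s : ∃ t, chk3 f_pm_012_s t 34 60 1 = true :=
  ⟨(a (l 3) (b (l 3) (a (b (l 3) (a (l 3) (a (b (l 3) (a (l 210621170119) (a (l 147807273623) (l 98415148743)))) (b (l 227801039559) (c (l 16776432) (l 16777728)))))) (b (a (a (l 3) (b (l 3) (b (l 263234519655) (l 98952021191)))) (a (b (l 228337910439) (c (l 16776440) (l 16777736))) (b (a (l 119889985335) (l 16776696)) (l 16775328)))) (a (a (b (b (l 149417886535) (l 16776592)) (l 16775320)) (b (l 16775896) (l 16774144))) (a (b (l 16774760) (c (l 16773104) (l 16773032))) (b (l 16773600) (l 16771944)))))))), by decide +kernel⟩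

def k19_pm_012_s : ∃ t, chk3 f_pm_012_s t 68 61 1 = true :=
  ⟨(b (a (b (l 3) (a (l 3) (a (l 3) (b (l 3) (l 266992616471))))) (b (a (l 3) (b (l 3) (a (l 292762420359) (b (l 243907166775) (a (l 135996113351) (l 16776768)))))) (a (a (b (l 3) (b (l 204178719143) (a (l 94657053127) (l 16776584)))) (a (b (l 278803776359) (l 16777456)) (b (b (l 3) (l 118279373255)) (l 16775912)))) (a (b (a (b (l 196125655367) (l 16776688)) (l 16777560)) (c (l 16775112) (l 16775120))) (b (l 16775744) (b (l 16774456) (l 16773568))))))) (a (b (b (a (l 3) (b (a (l 294373032807) (a (l 147807273255) (l 16776808))) (a (a (l 198273139063) (l 16777680)) (l 16776168)))) (b (a (a (l 3) (a (l 260013294087) (l 117742502135))) (a (l 16776376) (l 16775248))) (a (a (a (l 3) (l 162839658903)) (a (l 16776888) (l 16776296))) (a (l 16775440) (l 16775664))))) (a (a (b (a (b (l 80161538391) (l 16774792)) (l 16776008)) (c (b (l 16774888) (l 16775256)) (b (l 16776144) (l 16774856)))) (b (a (l 16775440) (c (l 16776224) (l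 16776184))) (b (l 16774416) (l 16772944)))) (b (a (b (l 16775840) (l 16773608)) (l 16773032)) (l 16771880)))) (b (a (a (b (l 16775512) (b (l 16774168) (l 16773288))) (b (b (l 16774872) (l 16773976)) (l 16772704))) (a (b (b (l 16773768) (l 16772936)) (l 16771592)) (l 16771352))) (b (a (l 16771488) (l 16769168)) (a (l 16769600) (a (l 16767848) (l 16766800))))))), by decide +kernel⟩

def k20_pm_012_s : ∃ t, chk3 f_pm_012_s t 69 61 1 = true :=
  ⟨(b (a (b (a (a (b (c (l 215989879511) (l 224579813975)) (c (l 16777672) (l 16777664))) (b (a (b (l 228337910087) (l 16776816)) (l 16777984)) (l 16775264))) (a (b (l 16775864) (a (l 16774384) (l 16773840))) (b (l 16774704) (c (l 16773064) (l 16773008))))) (a (a (a (b (l 16774928) (l 16773192)) (b (l 16774352) (l 16772616))) (b (a (l 16773816) (l 16773280)) (l 16771752))) (a (b (l 16772408) (l 16770608)) (l 16770360)))) (b (a (b (a (a (l 16773856) (l 16773328)) (l 16772504)) (l 16771296)) (l 16769912)) (a (l 16768672) (b (l 16767312) (l 16765544)))))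 (a (b (a (c (l 16769672) (l 16769568)) (b (l 16768256) (c (l 16766520) (l 16766376)))) (a (b (a (l 16767432) (l 16766368)) (l 16765320)) (b (l 16764896) (l 16763224)))) (b (a (b (l 16767312) (l 16764456)) (b (l 16764000) (l 16762344))) (c (l 16760704) (l 16760728))))), by decide +kernel⟩

def k21_pm_012_s : ∃ t, chk3 f_pm_012_s t 35 30 1 = true :=
  ⟨(b (a (b (a (b (a (l 3) (b (l 3) (a (l 294909903847) (a (l 190756946439) (l 95730795671))))) (a (a (b (l 3) (a (l 210084299159) (l 115058147111))) (b (l 219747975735) (l 16777696))) (a (b (a (l 105931343015) (l 16776624)) (l 16775280)) (b (l 16775784) (l 16774144))))) (b (a (a (b (l 202568106391) (l 16776280)) (a (b (l 16778304) (l 16775416)) (l 16775656))) (a (l 16774792) (b (l 16774440) (l 16772816)))) (a (a (b (l 16774648) (l 16773016)) (b (l 16773512) (l 16771848))) (b (c (l 16771752) (l 16774376)) (l 16770152))))) (a (b (a (b (l 16775312) (a (l 16774160) (l 16773072))) (b (a (l 16773592) (l 16772496)) (l 16771424))) (a (a (b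 (l 16772544) (l 16770808)) (l 16770544)) (l 16768880))) (b (a (l 16770000) (l 16767728)) (a (l 16766664) (l 16764416))))) (b (a (a (b (b (c (l 16775320) (l 16775312)) (l 16771048)) (l 16768664)) (b (a (l 16770128) (l 16768976)) (l 16766368))) (b (l 16768520) (a (l 16764184) (l 16764200)))) (a (b (a (l 16765456) (l 16765816)) (a (l 16762176) (l 16759824))) (b (a (l 16760968) (l 16758608)) (l 16756528))))) (a (b (a (b (a (l 16767680) (b (l 16766328) (l 16764592))) (a (b (l 16765072) (l 16763544)) (l 16762208))) (b (a (b (l 16764104) (l 16762552)) (l 16761072)) (l 16758736))) (a (b (l 16761088) (l 16756096)) (b (l 16755136) (a (l 16752640) (l 16750344))))) (b (a (b (l 16757568) (l 16754056)) (b (l 16753104) (l 16749632))) (a (a (b (l 16751656) (l 16753272)) (b (l 16749344) (a (l 16746280) (l 16745096)))) (a (b (l 16747168) (l 16743416)) (b (l 16745032) (l 16741200))))))), by decide +kernel⟩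

def k22_pm_012_s : ∃ t, chk3 f_pm_012_s t 17 62 1 = true :=
  ⟨(a (b (a (b (a (a (b (l 16772840) (l 16770440)) (b (l 16770024) (a (a (l 16768936) (l 16768376)) (l 16767624)))) (a (b (a (l 16768256) (l 16767216)) (l 16766128)) (b (l 16765736) (l 16763992)))) (b (a (a (a (a (l 16769320) (l 16768784)) (l 16768032)) (l 16766512)) (c (l 16763160) (l 16763224))) (a (c (l 16766368) (l 16765792)) (l 16762200)))) (b (a (a (l 16762664) (l 16760368)) (a (l 16758080) (c (l 16761072) (l 16750528)))) (a (b (l 16758632) (l 16758016)) (a (a (l 16754824) (l 16755640)) (b (l 16747704) (l 16750888)))))) (b (a (a (a (c (l 16763808) (l 16763856)) (a (l 16762144) (l 16761024))) (b (l 16760536) (a (l 16758336) (b (l 16756592) (l 16755496))))) (b (a (a (c (l 16761120) (l 16750584)) (l 16758744)) (l 16752560)) (a (a (l 16753696) (l 16751320)) (l 16747744)))) (b (a (b (a (a (l 16761256) (l 16764272)) (a (l 16756728) (l 16754384))) (a (a (l 16762840) (l 16757936)) (l 16755736))) (a (c (l 16750368) (l 16750192))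 (l 16745512))) (a (a (a (a (l 16761744) (l 16757968)) (l 16758840)) (c (l 16752784) (l 16752648))) (a (l 16750608) (l 16743256)))))) (b (a (a (a (a (b (l 16754080) (l 16755384)) (b (l 16752944) (l 16748952))) (b (b (l 16752160) (l 16750264)) (l 16747160))) (a (b (b (l 16749872) (l 16747888)) (l 16744752)) (b (l 16751736) (l 16742352)))) (b (a (c (l 16748328) (l 16747976)) (l 16738272)) (a (c (l 16739008) (l 16738528)) (l 16734136)))) (a (b (a (c (l 16744240) (l 16743912)) (c (l 16739520) (l 16739072))) (a (c (l 16739880) (l 16739448)) (c (l 16735192) (l 16734640)))) (a (b (c (l 16734824) (l 16734240)) (c (l 16730528) (l 16729848))) (b (l 16729896) (l 16725544)))))), by decide +kernel⟩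

def k23_pm_012_s : ∃ t, chk3 f_pm_012_s t 17 63 1 = true :=
  ⟨(a (b (a (b (a (c (b (l 16756432) (l 16754088)) (b (l 16757640) (l 16752624))) (c (b (l 16750488) (l 16748152)) (b (l 16750296) (l 16747912)))) (a (c (b (l 16752368) (c (l 16748072) (l 16747896))) (b (l 16750192) (l 16747728))) (c (b (l 16745776) (l 16743368)) (b (l 16745488) (l 16743024))))) (b (a (b (l 16748296) (l 16745944)) (c (l 16742656) (l 16739616))) (a (c (b (l 16741152) (l 16738752)) (l 16739544)) (b (l 16736256) (l 16733840))))) (a (b (c (a (b (c (l 16748248) (l 16745424)) (c (b (l 16746392) (l 16742536)) (l 16745536))) (b (c (l 16741048) (l 16740792)) (c (l 16738592) (l 16738296)))) (a (b (l 16745216) (c (l 16742744) (l 16742624))) (b (l 16740520) (l 16737992)))) (c (a (a (b (l 16741680) (l 16739144)) (b (l 16739384) (l 16736840))) (b (l 16739872) (c (l 16733576) (l 16733232)))) (a (b (l 16740144) (l 16737568)) (b (l 16735456) (l 16732872))))) (b (c (a (b (l 16739760) (l 16733848)) (b (l 16731728) (l 16729272)))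 (a (b (l 16735824) (l 16733312)) (b (l 16731128) (l 16728624)))) (c (a (b (l 16731352) (l 16728800)) (b (l 16726768) (l 16724216))) (a (l 16734720) (l 16724784)))))) (b (a (c (b (a (l 16735384) (l 16730744)) (b (l 16734856) (a (l 16729552) (l 16724960)))) (b (a (l 16734856) (l 16730088)) (a (l 16730104) (l 16725384)))) (b (a (c (l 16726104) (l 16725328)) (l 16721072)) (a (c (b (l 16722696) (l 16720368)) (l 16720664)) (c (l 16716984) (l 16715976))))) (a (b (c (a (b (l 16727144) (l 16724688)) (l 16721336)) (a (l 16725192) (l 16720496))) (c (a (l 16726152) (l 16716328)) (a (l 16720096) (l 16715400)))) (b (c (a (l 16716744) (l 16712192)) (a (l 16715784) (l 16711088))) (c (a (l 16711752) (l 16707208)) (a (l 16710696) (l 16706008))))))), by decide +kernel⟩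

def k24_pm_012_s : ∃ t, chk3 f_pm_012_s t 36 28 1 = true :=
  ⟨(b (l 3) (a (l 3) (b (a (l 3) (b (l 3) (a (l 3) (a (l 3) (a (l 293836161991) (b (l 3) (l 139754210455))))))) (a (b (l 3) (a (l 3) (b (l 292225549367) (a (l 243907166695) (a (l 102173246919) (l 16776472)))))) (b (b (a (l 3) (a (a (l 227801039479) (l 104857601367)) (l 16776168))) (a (a (l 314774127447) (a (l 183777625143) (l 16776896))) (l 16775336))) (b (a (a (a (l 142438565175) (l 16776696)) (l 16775768)) (l 16773872)) (a (l 16774912) (l 16772408)))))))), by decide +kernel⟩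

def k25_pm_012_s : ∃ t, chk3 f_pm_012_s t 74 28 1 = true :=
  ⟨(b (b (l 3) (a (a (l 3) (a (l 3) (b (l 3) (l 298131129527)))) (a (b (l 335175223095) (b (a (l 310479160103) (a (l 156397208663) (l 16776720))) (c (l 16778912) (a (l 81235281415) (l 16775616))))) (a (b (b (l 346449511399) (c (l 16778408) (l 79624668503))) (l 16775008)) (b (b (a (l 195051914359) (l 16776880)) (l 16775816)) (l 16773672)))))) (a (b (b (a (b (l 3) (c (l 266455745479) (l 273435067191))) (a (b (l 263771390535) (l 16777984)) (a (b (l 16777768) (l 16775704)) (l 16775776)))) (a (a (b (l 218674233639) (l 16776352)) (b (l 16777824) (l 16775072))) (a (l 16774512) (l 16773232)))) (a (a (b (l 16774160) (b (l 16771976) (l 16770520))) (b (l 16772896) (b (l 16770712) (l 16769256)))) (a (b (c (l 16771672) (l 16772896)) (c (l 16768760) (l 16771312))) (b (b (l 16771072) (a (l 16769952) (l 16769312))) (l 16767440))))) (b (b (b (a (l 16774856) (l 16772200)) (a (l 16773424) (a (l 16771440) (l 16770088)))) (a (a (l 16771936)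 (b (l 16771336) (l 16772528))) (b (a (l 16772624) (l 16768624)) (l 16767816)))) (a (b (a (b (l 16771416) (l 16768320)) (l 16767712)) (l 16765216)) (b (l 16765376) (l 16762144)))))), by decide +kernel⟩

def k26_pm_012_s : ∃ t, chk3 f_pm_012_s t 75 28 1 = true :=
  ⟨(b (a (a (b (b (l 3) (a (b (l 3) (c (l 135459243783) (l 132238015959))) (b (a (l 218674234471) (l 16776992)) (l 16775936)))) (b (c (l 16774496) (l 16774440)) (c (l 16772904) (a (l 16772240) (l 16770744))))) (a (b (b (b (l 3) (c (l 144586049351) (l 140291082327))) (l 16775248)) (b (l 16772336) (b (l 16770128) (l 16768672)))) (b (b (b (l 141364823063) (l 16776000)) (l 16773816)) (b (l 16770872) (b (l 16768672) (l 16761912)))))) (b (a (b (c (l 16774592) (l 16774520)) (l 16771624)) (b (l 16771608) (a (b (l 16770152) (l 16768664)) (b (l 16768656) (l 16767232))))) (b (a (a (b (l 16770152) (l 16768672)) (b (l 16768672) (l 16761952))) (c (l 16765856) (l 16765640))) (c (l 16765624) (l 16765416))))) (b (b (a (a (a (b (l 16770096)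 (l 16768648)) (b (l 16768664) (l 16767096))) (l 16765600)) (a (a (l 16763384) (l 16761936)) (b (l 16760544) (l 16759064)))) (a (a (l 16765504) (a (l 16763256) (l 16761792))) (a (l 16762256) (l 16759448)))) (b (a (a (a (a (l 16763472) (l 16762720)) (l 16761608)) (l 16762048)) (a (l 16756592) (l 16753832))) (a (a (l 16761800) (l 16756312)) (a (l 16753528) (b (l 16751576) (c (l 16750200) (l 16755312)))))))), by decide +kernel⟩

def k27_pm_012_s : ∃ t, chk3 f_pm_012_s t 36 58 1 = true :=
  ⟨(a (b (a (l 3) (b (l 3) (a (b (l 3) (l 272361325559)) (a (b (l 304036709191) (a (l 125795566999) (l 16776656))) (b (a (l 181093270423) (l 16778232)) (l 16775728)))))) (a (b (a (l 3) (b (l 3) (c (l 204715590183) (a (l 3) (l 162839659623))))) (b (a (l 290614936759) (a (a (l 168208368535) (l 16776928)) (l 16776048))) (a (a (l 232096006711) (a (l 105931343127) (l 16776624))) (l 16775104)))) (b (a (a (b (l 212768653655) (l 16776360)) (a (b (l 16778256) (l 16775440)) (l 16775592))) (c (l 16774064) (l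 16773968))) (a (b (l 16774176) (c (l 16772616) (l 16773776))) (a (b (l 16772272) (l 16770720)) (b (l 16771016) (l 16769400))))))) (b (a (b (b (a (a (l 3) (l 210621168599)) (a (l 16777840) (l 16775288))) (a (a (a (l 237464715719) (l 119889986999)) (l 16776280)) (l 16774400))) (b (a (l 16775384) (l 16772872)) (a (l 16773840) (a (l 16771952) (l 16770704))))) (b (a (b (l 16773424) (c (l 16771944) (l 16773120))) (a (b (l 16771568) (l 16770096)) (b (l 16770312) (l 16768760)))) (a (b (a (l 16770992) (l 16769784)) (l 16768792)) (l 16766936)))) (a (b (a (a (b (l 16772912) (l 16771312)) (b (l 16771624) (l 16770104))) (a (b (l 16770408) (l 16768752)) (l 16768264))) (b (a (l 16769104) (l 16762504)) (l 16767408))) (a (b (l 16766272) (a (l 16763592) (l 16762248))) (b (a (l 16759016) (l 16762904)) (l 16762832)))))), by decide +kernel⟩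

def k28_pm_012_s : ∃ t, chk3 f_pm_012_s t 36 59 1 = true :=
  ⟨(a (a (b (b (a (a (b (l 16779184) (l 16775048)) (l 16774608)) (b (l 16773536) (a (l 16772552) (l 16771320)))) (a (a (b (l 16773496) (l 16771920)) (b (l 16772224) (l 16770696))) (b (c (l 16770464) (l 16772928)) (l 16768712)))) (a (c (l 16769920) (l 16769112)) (a (l 16765256) (l 16763928)))) (b (b (a (b (a (l 16771616) (l 16770408)) (l 16769400)) (l 16767584)) (b (l 16766416) (l 16764760))) (b (a (c (l 16758464) (l 16758232)) (l 16766160)) (b (a (l 16761088) (l 16763608)) (a (l 16759376) (l 16756880)))))) (b (a (b (b (a (l 16760520) (l 16763096)) (a (l 16764096) (l 16761416))) (a (l 16766824) (l 16758880))) (a (b (l 16762168) (b (l 16756984) (c (l 16760792) (l 16760440)))) (a (b (l 16757496) (b (l 16754968) (l 16753536))) (b (l 16758720) (l 16753112))))) (a (b (b (a (l 16759056) (c (l 16761776) (l 16761432))) (a (l 16762600) (l 16754928))) (a (c (l 16765864) (l 16760352)) (l 16752864))) (b (a (l 16753288) (l 16750984))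 (l 16749440))))), by decide +kernel⟩

def k29_pm_012_s : ∃ t, chk3 f_pm_012_s t 37 29 1 = true :=
  ⟨(a (b (b (a (a (b (l 16767600) (l 16764240)) (b (l 16764880) (l 16762824))) (b (a (l 16761912) (c (l 16759024) (l 16758784))) (a (c (l 16758704) (l 16763704)) (l 16755640)))) (b (a (a (c (l 16766232) (l 16765984)) (c (l 16763496) (l 16760608))) (b (a (l 16756064) (a (l 16753888) (l 16752472))) (a (l 16754384) (a (l 16752296) (l 16751064))))) (a (a (l 16760088) (a (l 16755376) (b (l 16754856) (l 16755832)))) (a (b (a (l 16753416) (l 16752136)) (l 16751400)) (l 16749680))))) (b (a (a (b (c (b (l 16760320) (l 16753600)) (b (l 16757336) (l 16758496))) (l 16751368)) (b (a (l 16754984) (l 16751168)) (l 16749112))) (c (b (l 16748352) (l 16745680)) (b (l 16753416) (l 16745600)))) (a (c (l 16746320) (l 16746240)) (l 16744920)))) (a (b (a (b (b (l 16756000) (a (l 16753488) (b (l 16752904) (l 16751360)))) (b (b (l 16755872) (l 16749288)) (l 16747344))) (a (b (b (l 16753888) (b (l 16751520)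 (l 16750144))) (l 16752136)) (b (b (l 16752488) (l 16749648)) (l 16750968)))) (b (b (a (l 16744736) (l 16742392)) (l 16740928)) (l 16742176))) (b (b (a (b (b (l 16755160) (l 16752464)) (l 16747856)) (b (c (l 16748192) (l 16748120)) (l 16745528))) (b (a (l 16745272) (l 16742936)) (l 16741496))) (b (l 16741648) (l 16732224))))), by decide +kernel⟩

def k30_pm_012_s : ∃ t, chk3 f_pm_012_s t 18 30 1 = true :=
  ⟨(a (b (a (b (a (b (a (l 16757024) (b (l 16760400) (l 16764080))) (a (l 16759128) (l 16756680))) (b (b (l 16757360) (l 16755240)) (l 16753168))) (a (l 16753608) (l 16748976))) (b (a (l 16749936) (l 16745392)) (a (l 16744408) (l 16739904)))) (a (b (b (l 16749200) (a (l 16745328) (l 16740904))) (a (b (a (l 16737592) (l 16730112)) (l 16748280)) (b (a (l 16738312) (l 16736000)) (l 16733208)))) (b (a (b (l 16739896) (l 16736328)) (b (l 16735296) (l 16731640))) (b (a (l 16732520) (l 16727840)) (c (l 16737128) (l 16736376)))))) (b (a (b (a (l 16740880) (l 16736248)) (a (b (l 16736784)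 (l 16734072)) (b (l 16732312) (l 16729376)))) (a (b (b (l 16732888) (l 16730288)) (l 16726352)) (b (a (l 16738704) (l 16736520)) (l 16721584)))) (b (a (a (l 16733992) (l 16724072)) (a (l 16719408) (l 16714720))) (a (a (b (l 16723144) (l 16719256)) (l 16727056)) (a (l 16722448) (l 16707344)))))), by decide +kernel⟩

def k31_pm_012_s : ∃ t, chk3 f_pm_012_s t 18 31 1 = true :=
  ⟨(b (a (a (b (a (b (l 16733744) (l 16729608)) (b (l 16729168) (l 16725032))) (b (a (l 16725360) (l 16720784)) (c (l 16724496) (l 16718224)))) (b (b (a (l 16724552) (l 16719920)) (a (l 16720424) (l 16715808))) (b (a (l 16716184) (l 16711576)) (a (l 16711824) (l 16707224))))) (b (a (a (b (l 16715264) (l 16711168)) (l 16719120)) (a (l 16704072) (l 16699504))) (a (b (a (l 16706960) (l 16702400)) (a (l 16702624) (l 16698072))) (b (l 16695608) (a (l 16693536) (l 16689032)))))) (b (a (a (a (b (l 16716496) (c (l 16712472) (l 16711304))) (b (l 16711896) (l 16712496))) (a (b (l 16707296) (l 16702648)) (b (l 16702720)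 (l 16698064)))) (a (a (b (l 16698152) (l 16693488)) (b (l 16693624) (l 16688960))) (b (c (l 16687992) (l 16685800)) (l 16690096)))) (a (a (b (c (l 16710664) (l 16704072)) (c (a (l 16702696) (l 16698184)) (l 16699000))) (b (c (l 16696416) (l 16694728)) (c (l 16691440) (l 16689648)))) (a (b (c (l 16687480) (l 16685424)) (c (l 16682512) (l 16680344))) (b (c (l 16678696) (l 16676248)) (c (l 16673744) (l 16671168))))))), by decide +kernel⟩

def k32_pm_012_s : ∃ t, chk3 f_pm_012_s t 38 28 1 = true :=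
  ⟨(a (b (b (a (b (a (a (a (l 16769744) (l 16770304)) (a (l 16769600) (l 16768904))) (b (l 16766528) (l 16765064))) (a (b (l 16766528) (l 16759792)) (l 16762920))) (c (a (l 16761600) (l 16758816)) (a (l 16761528) (l 16758848)))) (a (a (a (l 16762112) (l 16760704)) (a (l 16759320) (l 16757944))) (c (b (l 16755968) (l 16753136)) (b (l 16756016) (l 16753224))))) (b (a (b (a (l 16759648) (l 16756936)) (a (l 16756712) (l 16754040))) (b (a (c (l 16751640) (l 16751712)) (a (l 16749680) (l 16751032))) (a (a (a (l 16749768) (l 16751752)) (a (l 16749824) (l 16753152))) (l 16749048)))) (b (a (a (b (l 16751888) (l 16755648)) (b (c (l 16749288) (l 16749312)) (l 16747944))) (a (l 16746216) (l 16743856))) (a (a (a (l 16751592) (l 16747768)) (l 16746000)) (l 16745752))))) (b (a (a (b (b (l 16757424) (l 16754696)) (b (l 16751960) (c (l 16749104) (l 16749376)))) (b (c (l 16753224) (l 16753488)) (b (l 16751944) (c (l 16746544) (l 16746976))))) (b (b (c (l 16750488) (l 16750792)) (a (l 16749400)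 (c (l 16746592) (l 16746920)))) (b (a (c (l 16746592) (l 16747032)) (l 16744272)) (c (l 16742736) (l 16743168))))) (a (b (a (a (b (l 16747184) (l 16744616)) (l 16744704)) (c (l 16742656) (l 16743216))) (c (l 16741352) (l 16739352))) (b (c (b (l 16740168) (l 16737584)) (l 16740664)) (c (c (l 16733560) (l 16733896)) (l 16734304)))))), by decide +kernel⟩

def k33_pm_012_s : ∃ t, chk3 f_pm_012_s t 38 29 1 = true :=
  ⟨(b (a (b (a (c (b (l 16744568) (l 16741944)) (l 16744744)) (c (l 16738432) (l 16738880))) (a (c (l 16737992) (l 16738328)) (c (l 16733160) (l 16733752)))) (a (b (c (l 16733520) (l 16734272)) (c (l 16728256) (l 16729128))) (a (b (l 16740680) (l 16724968)) (b (l 16738224) (l 16732992))))) (a (b (a (l 16738088) (l 16733368)) (a (b (l 16728848) (l 16736728)) (b (l 16732064) (l 16732352)))) (b (a (c (l 16728728) (l 16734472)) (b (a (l 16721008) (l 16718640)) (l 16728056))) (b (a (l 16730248) (l 16715456)) (l 16730952))))), by decide +kernel⟩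

def k34_pm_012_s : ∃ t, chk3 f_pm_012_s t 39 28 1 = true :=
  ⟨(a (b (b (b (a (a (c (l 16746552) (l 16746800)) (l 16744120)) (c (l 16740032) (l 16740160))) (a (c (l 16742704) (l 16742944)) (c (l 16737448) (l 16737632)))) (a (c (b (l 16740144) (l 16737584)) (l 16739144)) (a (a (l 16735792) (l 16734472)) (b (l 16733760) (l 16731224))))) (a (b (c (c (l 16736176) (l 16733912)) (l 16736544)) (c (c (l 16728400) (l 16728864)) (l 16729072))) (b (c (c (l 16733512) (l 16728648)) (b (l 16730056) (l 16727544))) (a (c (l 16724728) (l 16725136)) (a (l 16728352) (l 16727040)))))) (b (a (a (b (c (l 16734776) (l 16734896)) (c (l 16729608) (l 16729848))) (b (c (l 16732112) (l 16732224)) (c (l 16726928) (l 16727184)))) (b (b (a (l 16730896) (l 16728216)) (c (l 16726768) (l 16726944))) (c (a (l 16724232) (l 16721512)) (b (l 16724424) (l 16721912))))) (a (b (a (b (l 16728664) (l 16723536)) (c (l 16721816) (l 16722176))) (c (a (l 16719464) (l 16716792)) (c (l 16718568) (l 16721104)))) (b (c (c (l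 16717432) (l 16717976)) (b (l 16719416) (l 16716936))) (b (c (l 16713968) (l 16714496)) (a (l 16712000) (b (l 16711248) (c (l 16709552) (l 16710176))))))))), by decide +kernel⟩

def k35_pm_012_s : ∃ t, chk3 f_pm_012_s t 39 29 1 = true :=
  ⟨(a (b (a (b (a (l 16735752) (l 16733240)) (a (l 16730544) (c (l 16722248) (l 16717928)))) (b (c (l 16728744) (l 16718928)) (a (b (l 16716384) (l 16714112)) (c (l 16717480) (l 16712808))))) (b (a (c (l 16718968) (l 16714208)) (l 16730336)) (a (l 16709216) (l 16704312)))) (b (a (a (b (c (c (l 16714088) (l 16714776)) (l 16717656)) (l 16726080)) (b (b (l 16718784) (c (l 16710672) (l 16711256))) (l 16718368))) (b (a (b (c (l 16710424) (l 16711024)) (l 16708744)) (c (l 16717528) (c (l 16707384) (l 16707152)))) (c (l 16704136) (a (l 16705168) (l 16702624))))) (a (c (l 16717936) (b (l 16704048) (l 16698816))) (b (c (l 16699744) (l 16698992)) (c (l 16716016) (l 16693816)))))), by decide +kernel⟩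

def k36_pm_012_s : ∃ t, chk3 f_pm_012_s t 19 15 1 = true :=
  ⟨(b (a (b (b (a (a (l 16733400) (l 16718232)) (c (l 16711224) (l 16721024))) (a (c (l 16714752) (l 16713984)) (a (l 16707240) (l 16702472)))) (a (b (a (l 16720504) (l 16715792)) (b (l 16712752) (l 16709000))) (b (a (l 16700608) (l 16695936)) (c (l 16713144) (l 16700648))))) (b (a (a (b (l 16703688) (l 16697712)) (b (l 16698856) (l 16692960))) (a (b (c (l 16694664) (l 16693216)) (l 16688224)) (b (l 16689240) (l 16683520)))) (b (a (c (l 16689880) (l 16708872)) (a (l 16681968) (l 16677368))) (a (a (l 16684328) (l 16679776)) (a (l 16675240) (l 16670760)))))) (b (a (b (a (a (l 16694944) (l 16690376)) (c (l 16684816) (l 16692912))) (a (b (l 16686560) (a (l 16684552) (l 16680088))) (b (a (l 16679816) (l 16675416)) (c (l 16674872) (l 16672064))))) (a (b (a (l 16676920) (l 16672456)) (b (a (l 16671040) (l 16666672)) (l 16664688))) (b (b (l 16667720) (a (l 16666176) (l 16661864))) (c (l 16659832) (l 16656368))))) (a (b (b (a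 (l 16677888) (l 16669056)) (a (c (l 16674696) (l 16671968)) (l 16664488))) (a (b (c (l 16669984) (l 16667120)) (c (l 16665056) (l 16662056))) (c (b (l 16661416) (l 16656520)) (b (l 16658128) (l 16653080))))) (a (b (c (l 16659864) (l 16666896)) (c (b (l 16653000) (l 16648144)) (b (l 16649288) (l 16644264)))) (b (c (l 16651504) (b (l 16649904) (l 16645360))) (c (b (l 16644728) (l 16639912)) (b (l 16640592) (l 16635592)))))))), by decide +kernel⟩

def k37_pm_012_s : ∃ t, chk3 f_pm_012_s t 10 4 1 = true :=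
  ⟨(a (a (l 3) (l 2)) (l 2)), by decide +kernel⟩

def k38_pm_012_s : ∃ t, chk3 f_pm_012_s t 40 5 1 = true :=
  ⟨(b (l 3) (a (l 3) (b (l 3) (a (b (l 3) (a (l 3) (b (l 3) (l 16782352)))) (b (a (l 3) (b (l 255181462343) (l 16777104))) (a (b (l 16777032) (l 16775704)) (c (l 16785336) (l 16774528)))))))), by decide +kernel⟩

def k39_pm_012_s : ∃ t, chk3 f_pm_012_s t 82 5 1 = true :=
  ⟨(b (b (l 3) (a (l 3) (b (l 3) (a (l 3) (b (l 258402690311) (l 110226321639)))))) (b (a (b (l 3) (a (b (l 3) (l 211694926375)) (c (l 120426870359) (l 120426870487)))) (a (b (b (l 231559145991) (l 16782248)) (b (l 16776184) (l 16775208))) (a (b (l 16783056) (l 16785296)) (b (l 16781160) (l 16784880))))) (a (a (b (a (l 109689453735) (l 16786224)) (b (l 16773640) (l 16776992))) (b (c (l 16785360) (l 16785008)) (b (l 16772624) (l 16771144)))) (b (a (c (l 16779168) (l 16784120)) (b (l 16773480) (l 16772512))) (b (l 16771664) (a (l 16770560) (l 16769608))))))), by decide +kernel⟩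

def k40_pm_012_s : ∃ t, chk3 f_pm_012_s t 83 5 1 = true :=
  ⟨(a (b (b (b (l 2) (a (l 3) (a (l 16782016) (l 16776984)))) (a (a (b (l 158007828215) (b (l 16777008) (l 16776416))) (b (l 16782360) (l 16781376))) (a (b (l 16776680) (l 16780792)) (b (l 16776112) (l 16780312))))) (b (a (a (b (l 16780600) (l 16774016)) (b (l 16774848) (l 16773512))) (b (a (l 16779632) (l 16773840)) (l 16783224))) (b (a (b (l 16772632) (l 16771568)) (l 16781504)) (a (b (l 16770160) (l 16768488)) (b (l 16769040) (c (l 16788616) (l 16766784))))))) (b (b (b (l 2) (a (a (l 16781696) (a (l 16776048) (l 16775720))) (a (a (a (l 16775384) (a (l 16775096) (l 16774896))) (l 16774640)) (l 16774216)))) (a (a (b (l 16778216) (l 16779784)) (a (b (l 16775176) (l 16774000)) (b (l 16774712) (l 16784056)))) (a (a (a (b (l 16774320) (l 16783720)) (a (b (l 16774080) (l 16783528)) (b (l 16779168) (b (l 16773184) (l 16772680))))) (b (l 16773680) (l 16772696))) (b (l 16773200) (l 16772176))))) (a (a (b (b (l 16783752) (l 16782368))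 (b (l 16791104) (b (l 16767976) (l 16765744)))) (a (b (b (l 16772760) (l 16771408)) (b (l 16790512) (l 16786528))) (b (b (l 16772376) (l 16771040)) (b (c (l 16790216) (l 16789320)) (b (l 16765376) (l 16762504)))))) (a (a (a (b (b (l 16772088) (l 16791576)) (b (l 16767376) (l 16762056))) (a (b (b (l 16771944) (b (l 16791792) (l 16769272))) (b (l 16765784) (l 16760232))) (b (a (a (b (l 16771824) (l 16790288)) (b (b (l 16772152) (l 16781936)) (l 16789584))) (b (l 16771720) (l 16768280))) (b (b (l 16765296) (l 16762592)) (b (l 16759736) (c (l 16756944) (l 16756328))))))) (b (b (l 16771512) (l 16768064)) (b (l 16762856) (l 16756984)))) (b (b (l 16770968) (l 16767480)) (b (l 16762144) (l 16756280))))))), by decide +kernel⟩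

def k41_pm_012_s : ∃ t, chk3 f_pm_012_s t 21 5 1 = true :=
  ⟨(b (b (a (b (l 2) (a (l 16782096) (l 2))) (l 2)) (a (b (a (l 16770376) (l 16765544)) (b (l 16766808) (l 16787024))) (b (l 16779704) (l 16777440)))) (b (b (a (b (l 16765288) (a (l 16767312) (l 16761584))) (l 16774944)) (a (a (l 16764080) (l 16779320)) (b (l 16772592) (l 16748552)))) (b (a (b (l 16777568) (l 16774288)) (l 16763592)) (a (b (l 16770984) (a (l 16750368) (l 16742784))) (l 16747104))))), by decide +kernel⟩

def k42_pm_012_s : ∃ t, chk3 f_pm_012_s t 11 2 1 = true :=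
  ⟨(b (l 2) (b (b (l 2) (a (b (l 2) (a (l 16747616) (l 2))) (l 2))) (a (a (b (b (l 16744272) (l 16781928)) (b (l 16731912) (l 16721360))) (b (b (l 16735816) (l 16730960)) (b (l 16722912) (l 16710512)))) (b (b (l 2) (l 16719632)) (b (a (l 16715168) (l 16708464)) (a (l 16701528) (l 16694464))))))), by decide +kernel⟩

def k43_pm_012_s : ∃ t, chk3 f_pm_012_s t 40 12 1 = true :=
  ⟨(a (b (a (b (l 3) (b (l 3) (a (l 3) (l 16782368)))) (b (a (l 3) (b (l 3) (l 124184964711))) (a (b (l 16782480) (l 16774688)) (b (l 16775088) (l 16771888))))) (b (a (b (a (l 16782168) (l 16774160)) (a (l 16773408) (l 16770520))) (b (a (l 16771224) (l 16768664)) (a (l 16767856) (l 16765896)))) (a (b (a (l 16769592) (b (l 16767792) (l 16766184))) (a (b (l 16766792) (l 16765104)) (l 16763808))) (b (a (l 16764888) (l 16763064)) (a (l 16761720) (l 16770256)))))) (b (a (b (a (b (l 16782448) (l 16775456)) (b (l 16775656) (l 16773256))) (a (b (l 16772712) (l 16769824)) (b (l 16770688) (l 16768328)))) (b (a (b (l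 16773576) (l 16771256)) (b (l 16771552) (l 16769656))) (b (a (l 16769120) (l 16767744)) (l 16766200)))) (b (a (b (a (l 16767224) (l 16765904)) (l 16763840)) (b (l 16763504) (l 16770896))) (a (b (c (l 16760832) (l 16760432)) (a (l 16758032) (l 16756168))) (b (a (l 16757936) (l 16755944)) (a (l 16754176) (b (l 16753032) (l 16750888)))))))), by decide +kernel⟩

def k44_pm_012_s : ∃ t, chk3 f_pm_012_s t 40 26 1 = true :=
  ⟨(a (b (a (b (a (l 16764440) (b (l 16761208) (l 16759360))) (a (c (l 16758712) (l 16758520)) (l 16761672))) (b (c (a (l 16758224) (l 16756224)) (a (l 16757984) (l 16755888))) (a (b (l 16755240) (l 16753208)) (b (l 16753144) (l 16751072))))) (a (a (b (b (l 16755568) (l 16753424)) (b (l 16751208) (l 16748920))) (b (l 16757488) (b (l 16748936) (c (l 16746720) (l 16746208))))) (b (a (b (l 16751096) (l 16748912)) (b (c (l 16749088) (l 16748552)) (c (l 16746696) (l 16746160)))) (a (b (c (l 16746712) (l 16746184)) (l 16743984)) (c (l 16742808) (l 16742352)))))) (b (a (b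 (a (l 16754208) (b (l 16753232) (l 16751152))) (a (b (l 16751136) (c (l 16749160) (l 16748552))) (b (c (l 16749152) (l 16748504)) (l 16746504)))) (b (a (b (l 16751072) (l 16748800)) (l 16747400)) (c (a (l 16745304) (l 16742528)) (a (l 16744808) (l 16742208))))) (a (b (a (b (l 16746536) (l 16744008)) (c (l 16742840) (l 16742376))) (c (a (l 16740200) (l 16737512)) (b (l 16739800) (l 16737176)))) (b (c (a (l 16740120) (l 16737288)) (b (l 16739744) (l 16737160))) (c (a (l 16734736) (l 16731848)) (a (l 16734552) (l 16731848))))))), by decide +kernel⟩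

def k45_pm_012_s : ∃ t, chk3 f_pm_012_s t 40 27 1 = true :=
  ⟨(a (b (b (a (a (b (c (l 16746680) (l 16746216)) (c (l 16744096) (l 16743632))) (c (l 16742792) (b (l 16743656) (l 16741008)))) (c (a (l 16740104) (l 16737400)) (a (l 16739696) (b (l 16738416) (l 16735728))))) (a (a (b (l 16741272) (l 16738608)) (b (l 16738624) (l 16735944))) (c (a (l 16734632) (l 16731888)) (a (l 16734328) (l 16734288))))) (a (b (c (a (l 16734648) (l 16731928)) (a (l 16734400) (l 16731720))) (c (a (l 16729296) (l 16726544)) (b (l 16729176) (l 16726616)))) (c (b (a (l 16729168) (l 16726400)) (a (l 16723760) (l 16720960))) (b (a (l 16729032) (l 16726336)) (a (l 16723832) (l 16721112)))))) (b (a (c (b (a (l 16734736) (l 16732000)) (a (l 16729176) (l 16726384))) (b (b (l 16734496) (l 16731776)) (a (l 16729016) (l 16726328)))) (c (b (a (l 16729168) (l 16726224)) (a (l 16723504) (l 16720520))) (b (b (l 16729128) (l 16731608)) (a (l 16723600) (l 16720816))))) (a (a (b (c (l 16723632) (l 16723648)) (c (l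 16718152) (l 16718392))) (b (c (l 16720800) (l 16720928)) (c (l 16715280) (l 16715640)))) (a (b (c (l 16717880) (l 16718160)) (c (l 16712328) (l 16712848))) (b (c (l 16714856) (l 16715352)) (c (l 16709264) (l 16710008))))))), by decide +kernel⟩

def k46_pm_012_s : ∃ t, chk3 f_pm_012_s t 82 12 1 = true :=
  ⟨(b (a (b (a (b (l 16770080) (l 16768376)) (l 16771264)) (a (b (l 16766272) (l 16784744)) (c (l 16785248) (l 16784720)))) (a (b (l 16767768) (c (l 16784224) (l 16783488))) (b (l 16787640) (b (l 16763024) (c (l 16760440) (l 16759472)))))) (a (b (a (b (l 16760864) (l 16757576)) (b (l 16759640) (b (l 16757080) (l 16755192)))) (a (a (b (l 16754336) (l 16750096)) (b (l 16753368) (l 16748944))) (b (l 16762528) (l 16747456)))) (a (b (b (c (l 16758616) (l 16757736)) (l 16754328)) (b (l 16749976) (l 16745248))) (b (b (l 16756280) (l 16752136)) (b (l 16747592) (l 16742728)))))), by decide +kernel⟩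

def k47_pm_012_s : ∃ t, chk3 f_pm_012_s t 82 13 1 = true :=
  ⟨(b (a (b (a (b (c (l 16744816) (l 16744528)) (c (l 16739728) (l 16739600))) (b (l 16742584) (c (l 16737424) (l 16737248)))) (b (a (c (b (l 16735760) (l 16733056)) (b (l 16735768) (l 16733144))) (c (l 16731984) (l 16731984))) (a (c (a (l 16729592) (l 16728216)) (l 16734360)) (c (l 16726360) (l 16726528))))) (b (b (a (l 16740240) (l 16737584)) (a (c (l 16734968) (l 16734752)) (c (l 16732152) (l 16731976)))) (b (a (c (l 16729400) (l 16729360)) (c (l 16726472) (l 16726472))) (a (c (l 16723656) (l 16723792)) (c (l 16720616) (l 16720792)))))) (b (a (a (c (b (a (l 16723936) (l 16722520)) (a (l 16718200) (l 16716744))) (b (b (l 16725000) (l 16722200)) (l 16725856))) (b (c (l 16720568) (l 16720904)) (c (l 16714712) (l 16715208)))) (b (a (c (l 16717752) (l 16718064)) (c (l 16714608) (l 16714968))) (a (c (l 16711784) (l 16712280)) (a (l 16709872) (b (l 16709672) (l 16706792)))))) (a (b (c (a (b (l 16713184) (l 16710352)) (l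 16708904)) (a (l 16722976) (l 16709632))) (a (a (b (l 16708992) (l 16706288)) (b (l 16707512) (c (l 16704056) (l 16705112)))) (a (b (l 16706072) (b (a (l 16704416) (l 16703760)) (l 16702984))) (b (c (l 16704000) (l 16704872)) (l 16702440))))) (b (a (b (l 16707904) (a (l 16705880) (a (l 16704792) (l 16704152)))) (a (b (a (l 16705960) (l 16705240)) (l 16703344)) (b (l 16704352) (l 16702312)))) (a (a (b (a (l 16698448) (l 16703136)) (l 16701392)) (a (l 16701616) (l 16701088))) (c (l 16699600) (l 16699496))))))), by decide +kernel⟩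

def k48_pm_012_s : ∃ t, chk3 f_pm_012_s t 83 12 1 = true :=
  ⟨(a (b (b (b (a (l 16766528) (a (l 16765528) (l 16764528))) (a (c (l 16764616) (l 16763688)) (c (l 16762616) (l 16761672)))) (a (b (c (l 16761832) (l 16760840)) (l 16757872)) (b (l 16779784) (l 16775992)))) (b (b (a (l 16753888) (c (l 16751064) (l 16750472))) (a (l 16749520) (c (l 16746464) (l 16745968)))) (a (b (l 16755304) (c (l 16739896) (l 16739504))) (c (b (l 16741528) (l 16736296)) (b (l 16741136) (l 16736016)))))) (a (b (b (c (a (l 16761640) (l 16748200)) (a (l 16760880) (l 16758152))) (c (a (l 16754256) (l 16745704)) (a (l 16753728) (l 16740160)))) (a (b (b (l 16747664) (l 16742992)) (b (l 16738008) (l 16732744))) (a (b (b (l 16745448) (l 16740720)) (b (l 16735696) (l 16730392))) (b (l 16735760) (b (l 16733552) (l 16728248)))))) (b (a (a (a (b (l 16755440) (l 16747656)) (a (b (l 16753520) (l 16745696)) (b (c (l 16756856) (l 16756472)) (b (l 16745608) (l 16741416))))) (b (l 16750288) (l 16742456))) (b (l 16749536)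 (l 16741656))) (b (a (a (a (l 16738728) (a (l 16736800) (b (l 16736968) (c (l 16732288) (l 16732232))))) (l 16733616)) (l 16732776)) (a (a (a (l 16728672) (a (b (l 16729400) (l 16724144)) (a (a (l 16730672) (b (l 16726984) (l 16721776))) (l 16724048)))) (l 16723720)) (l 16722840)))))), by decide +kernel⟩

def k49_pm_012_s : ∃ t, chk3 f_pm_012_s t 166 13 1 = true :=
  ⟨(b (b (a (b (c (l 16734528) (l 16734280)) (c (l 16728928) (l 16728840))) (c (b (l 16730808) (l 16725096)) (b (l 16730648) (l 16725080)))) (a (a (b (l 16724192) (l 16718368)) (b (l 16722448) (l 16716568))) (a (b (l 16720512) (l 16710656)) (b (l 16718312) (b (l 16713848) (c (l 16710696) (l 16711032))))))) (b (a (a (b (l 16712400) (b (l 16707944) (c (l 16704976) (l 16705448)))) (b (b (l 16712072) (l 16709096)) (b (c (l 16706112) (l 16706520)) (l 16704368)))) (a (b (b (l 16710128) (c (l 16707240) (l 16707568))) (l 16704392)) (b (b (c (l 16708288) (l 16708520)) (l 16706472)) (l 16703344)))) (a (b (c (l 16712144) (l 16706784))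 (c (a (l 16698168) (l 16697216)) (a (l 16697696) (l 16696488)))) (a (b (l 16700184) (l 16695880)) (b (l 16699064) (c (l 16695152) (l 16693976))))))), by decide +kernel⟩

def k50_pm_012_s : ∃ t, chk3 f_pm_012_s t 334 13 1 = true :=
  ⟨(b (b (b (a (l 16727240) (a (l 16724864) (l 16722712))) (a (l 16721544) (a (l 16719144) (a (l 16717648) (b (l 16717856) (l 16715224)))))) (a (a (b (l 16716424) (b (l 16712040) (l 16709664))) (b (b (l 16716448) (l 16713536)) (b (l 16711080) (l 16709136)))) (a (b (b (l 16714816) (l 16717632)) (l 16709544)) (b (b (c (l 16713392) (l 16713512)) (l 16711696)) (l 16719416))))) (a (b (b (c (l 16706448) (l 16706192)) (c (l 16702448) (l 16701744))) (b (c (l 16698272) (l 16697208)) (c (l 16693976) (l 16692632)))) (a (b (b (l 16705560) (l 16701272)) (b (l 16696864) (l 16692384))) (b (b (c (l 16705144) (l 16704464)) (c (l 16700952) (l 16699960))) (b (c (l 16696616) (l 16695368)) (c (l 16692192) (l 16690760))))))), by decide +kernel⟩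

def k51_pm_012_s : ∃ t, chk3 f_pm_012_s t 335 13 1 = true :=
  ⟨(a (a (a (b (b (b (l 16710000) (b (l 16716528) (l 16714552))) (b (l 16712056) (l 16708360))) (b (b (c (l 16704576) (l 16703808)) (c (l 16700320) (l 16699280))) (b (c (l 16695920) (l 16694672)) (c (l 16691448) (l 16690056))))) (b (a (b (b (c (l 16718792) (l 16718928)) (l 16728104)) (b (l 16711688) (l 16718440))) (a (a (b (b (l 16717944) (l 16714760)) (b (l 16711448) (l 16707680))) (b (b (a (a (a (l 16717592) (a (l 16717520) (l 16722616))) (l 16717288)) (l 16717272)) (c (l 16714512) (l 16711744))) (c (b (b (l 16722616) (l 16731360)) (b (l 16719032) (b (l 16717592) (l 16716592)))) (b (l 16726664) (c (l 16717712) (l 16717344)))))) (b (l 16726368) (b (l 16711080) (l 16707296))))) (b (a (b (c (l 16704144) (l 16703360)) (c (l 16699840) (l 16698824))) (a (a (b (l 16703528) (l 16699104)) (a (a (a (b (l 16703416) (l 16698984)) (a (b (l 16703376) (l 16698944)) (a (b (l 16703344) (l 16698912)) (b (c (l 16703552) (l 16702816))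 (c (l 16699200) (l 16698280)))))) (b (l 16703200) (l 16698768))) (b (l 16703184) (l 16698752)))) (b (l 16703136) (l 16698704)))) (a (b (c (l 16695408) (l 16694216)) (c (l 16690904) (l 16689592))) (a (a (b (l 16694584) (l 16690032)) (a (a (a (b (l 16694464) (l 16689904)) (a (b (l 16694416) (l 16689856)) (b (c (c (l 16700112) (l 16694528)) (l 16693680)) (c (a (l 16690296) (l 16690184)) (l 16689080))))) (b (l 16694248) (l 16689688))) (b (l 16694232) (l 16689672)))) (b (l 16694184) (l 16689624))))))) (b (b (l 16720776) (b (l 16710728) (l 16706952))) (b (b (l 16702792) (l 16698360)) (b (l 16693840) (l 16689280))))) (b (b (b (l 16715928) (l 16713120)) (b (l 16709800) (l 16706032))) (b (b (l 16701872) (l 16697448)) (b (l 16692920) (l 16688368))))), by decide +kernel⟩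

def k52_pm_012_s : ∃ t, chk3 f_pm_012_s t 21 12 1 = true :=
  ⟨(b (b (a (b (l 16763800) (l 16760032)) (a (l 16729168) (l 16721488))) (a (b (l 16755856) (l 16751416)) (c (l 16746320) (l 16737656)))) (a (b (b (l 16746712) (l 16736528)) (a (b (l 16720208) (l 16714864)) (b (l 16710984) (l 16705416)))) (b (b (l 16729400) (l 16723952)) (b (a (l 16701832) (l 16692784)) (c (l 16711144) (l 16692352)))))), by decide +kernel⟩

def k53_pm_012_s : ∃ t, chk3 f_pm_012_s t 21 13 1 = true :=
  ⟨(b (b (a (b (a (c (l 16720576) (l 16720944)) (b (l 16701192) (l 16699352))) (a (l 16707472) (l 16697432))) (b (a (b (l 16691568) (l 16689208)) (l 16685960)) (a (l 16687360) (l 16677208)))) (a (b (a (c (l 16704256) (l 16704072)) (c (l 16694168) (l 16694320))) (a (c (l 16700656) (l 16700200)) (c (l 16690768) (l 16690488)))) (b (a (c (l 16684048) (l 16684640)) (c (l 16673848) (l 16675008))) (a (c (l 16680880) (l 16680880)) (c (l 16670976) (l 16671368)))))) (b (a (b (b (a (c (l 16697696) (l 16697032)) (l 16687736))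 (a (c (l 16695608) (l 16694808)) (l 16690864))) (a (c (b (l 16693448) (l 16691256)) (b (l 16692528) (l 16690232))) (c (b (l 16683792) (l 16681648)) (b (l 16682832) (l 16680528))))) (b (a (c (l 16677208) (l 16676664)) (c (l 16667536) (l 16667224))) (b (a (l 16680448) (l 16664456)) (a (c (l 16672120) (l 16670984)) (c (l 16662672) (l 16661600)))))) (a (a (b (c (a (l 16690328) (l 16685520)) (a (l 16689224) (l 16684320))) (a (c (l 16685808) (l 16684608)) (c (l 16681032) (l 16679696)))) (b (c (b (l 16679464) (l 16677264)) (b (l 16678208) (l 16675896))) (c (a (l 16676288) (l 16671576)) (a (l 16674832) (l 16670008))))) (b (a (c (b (l 16670000) (l 16667848)) (b (l 16668672) (l 16666352))) (c (b (l 16660624) (l 16658536)) (b (l 16659296) (l 16656984)))) (a (c (b (l 16665672) (l 16663472)) (a (l 16665240) (l 16660512))) (c (b (l 16656416) (a (l 16656560) (l 16651984))) (b (l 16654664) (l 16652344)))))))), by decide +kernel⟩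

def k54_pm_012_s : ∃ t, chk3 f_pm_012_s t 11 12 1 = true :=
  ⟨(b (a (b (a (l 16710440) (l 16697296)) (a (b (l 16702448) (l 16697000)) (l 16684216))) (b (a (l 16686064) (l 16676872)) (a (l 16670416) (l 16658600)))) (a (b (a (b (l 16691288) (l 16685520)) (b (l 16674688) (l 16668224))) (a (b (l 16689848) (a (l 16677536) (l 16668408))) (c (l 16674688) (l 16669672)))) (a (b (l 16655184) (b (l 16644144) (l 16636720))) (b (l 16640600) (l 16639008))))), by decide +kernel⟩

def k55_pm_012_s : ∃ t, chk3 f_pm_012_s t 11 26 1 = true :=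
  ⟨(a (b (a (b (a (l 16671112) (l 16661696)) (a (c (l 16665304) (l 16668216)) (c (l 16654520) (l 16658448)))) (b (a (l 16652384) (l 16643120)) (a (c (l 16643824) (l 16669784)) (l 16636608)))) (a (b (a (c (l 16663520) (l 16665392)) (c (l 16653048) (l 16655760))) (c (a (l 16661016) (l 16650936)) (a (l 16661920) (l 16652488)))) (b (c (l 16636984) (a (l 16646080) (l 16636336))) (c (a (l 16640728) (l 16630352)) (l 16638344))))) (b (a (b (l 16639608) (c (l 16638720) (l 16620224))) (c (l 16625672) (l 16616416))) (a (b (a (l 16623840) (l 16613192)) (c (l 16603960) (l 16619288))) (a (b (l 16602432) (l 16601816)) (b (l 16596928) (l 16591224)))))), by decide +kernel⟩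

def k56_pm_012_s : ∃ t, chk3 f_pm_012_s t 11 27 1 = true :=
  ⟨(a (b (a (b (a (c (l 16657856) (l 16657888)) (c (l 16648128) (l 16648624))) (a (c (l 16654216) (l 16653480)) (c (l 16644768) (l 16644320)))) (b (a (c (l 16638304) (l 16639392)) (c (l 16628368) (l 16630176))) (a (c (l 16635280) (l 16635248)) (c (l 16625704) (l 16626224))))) (a (b (a (c (b (l 16651304) (l 16649304)) (b (l 16650072) (l 16647776))) (c (b (l 16642024) (l 16640120)) (b (l 16640976) (l 16638712)))) (a (c (b (l 16647248) (l 16645168)) (b (l 16645472) (l 16643152))) (c (b (l 16638160) (l 16636152)) (b (l 16636432) (l 16634136))))) (b (a (c (l 16639720) (b (l 16631992) (l 16629768))) (c (l 16622616) (l 16622008))) (a (c (b (l 16629112) (l 16627200)) (b (l 16627528) (l 16625264))) (c (b (l 16620072) (l 16618288)) (b (l 16618736) (l 16616520))))))) (b (a (b (a (l 16619952) (l 16610216)) (a (c (l 16616032) (l 16617216)) (l 16607576))) (a (b (l 16600344) (l 16598104)) (b (l 16590288) (l 16588504)))) (a (b (a (c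 (l 16613296) (l 16613184)) (c (l 16603896) (l 16604384))) (a (c (l 16620672) (l 16608952)) (c (l 16601128) (l 16600336)))) (b (a (l 16595360) (l 16586136)) (a (c (l 16591992) (l 16591752)) (l 16583360)))))), by decide +kernel⟩

def k57_pm_012_s : ∃ t, chk3 f_pm_012_s t 160 7 1 = true :=
  ⟨(b (b (b (b (b (a (l 16725512) (l 16722792)) (c (a (l 16722680) (l 16719904)) (l 16721544))) (b (c (l 16717360) (l 16719032)) (c (l 16716072) (l 16716528)))) (b (c (c (l 16711832) (l 16712520)) (b (l 16714048) (l 16711592))) (c (b (a (l 16709880) (c (l 16706816) (l 16707552))) (a (c (l 16707232) (l 16707912)) (l 16705232))) (a (b (l 16710512) (b (l 16708744) (l 16707608))) (b (b (l 16708456) (l 16707304)) (l 16705632)))))) (b (c (b (a (l 16704672) (l 16702296)) (l 16704600)) (b (c (l 16714128) (l 16713768)) (a (l 16700096) (l 16697568)))) (c (a (l 16714840) (l 16712464)) (b (l 16693960) (l 16688840))))) (b (b (b (l 16684456) (l 16678824)) (b (l 16672784) (l 16666304))) (b (b (a (l 16660424)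 (l 16658280)) (l 16651680)) (b (l 16643248) (a (l 16634992) (l 16632928)))))), by decide +kernel⟩

def k58_pm_012_s : ∃ t, chk3 f_pm_012_s t 161 7 1 = true :=
  ⟨(b (a (b (b (b (c (b (l 16719744) (l 16717096)) (l 16718728)) (c (c (l 16712768) (l 16713448)) (l 16713712))) (b (c (b (l 16709280) (c (l 16706384) (l 16707200))) (b (l 16709992) (b (l 16708168) (l 16706992)))) (c (c (l 16703472) (l 16704088)) (b (l 16705320) (l 16703104))))) (b (b (c (l 16699928) (l 16699712)) (c (l 16695792) (l 16695048))) (b (l 16690960) (l 16686080)))) (b (b (b (c (b (l 16716920) (l 16714256)) (l 16715992)) (c (c (l 16709864) (l 16710640)) (l 16710976))) (b (c (b (c (l 16706008) (l 16704256)) (a (l 16704904) (l 16703752))) (b (a (l 16707952) (l 16706616)) (a (l 16705624) (l 16704368)))) (c (c (l 16701184) (l 16701712)) (b (l 16702800) (l 16700584))))) (b (c (b (c (l 16697416) (l 16697616)) (l 16693416)) (b (l 16697184) (l 16692528))) (b (l 16688528) (l 16683664))))) (b (b (b (l 16679688) (l 16674152))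 (b (l 16668232) (l 16661880))) (b (b (b (l 16656824) (l 16653224)) (l 16647424)) (b (l 16639080) (c (l 16632272) (l 16627520)))))), by decide +kernel⟩

def k59_pm_012_s : ∃ t, chk3 f_pm_012_s t 162 7 1 = true :=
  ⟨(b (b (b (b (b (a (l 16714520) (l 16711704)) (c (a (l 16711416) (l 16708504)) (l 16710592))) (a (c (b (l 16708760) (c (l 16705680) (l 16706576))) (b (l 16709472) (a (l 16707680) (l 16706320)))) (c (b (c (l 16705360) (l 16706272)) (c (a (l 16703608) (l 16702408)) (a (l 16704528) (l 16703296)))) (b (a (l 16707392) (l 16706016)) (a (b (l 16705552) (l 16704408)) (l 16703696)))))) (b (a (c (b (c (l 16706056) (b (l 16704792) (l 16703784))) (l 16704664)) (b (b (a (l 16705856) (l 16704576)) (l 16704120)) (l 16702488))) (c (c (l 16700320) (l 16700976)) (b (l 16702168) (l 16699984)))) (c (c (a (l 16698920) (l 16696648)) (a (l 16699344) (l 16696976))) (a (l 16704424) (b (l 16697776) (l 16695552)))))) (a (b (c (b (l 16695216) (l 16691056)) (b (l 16694672) (l 16690024))) (b (l 16686104)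 (l 16681264))) (b (c (b (l 16692864) (l 16688688)) (b (l 16692152) (l 16687520))) (b (l 16683680) (l 16678864))))) (b (b (b (l 16674952) (l 16669512)) (b (l 16663712) (l 16657512))) (b (b (b (l 16652568) (l 16648952)) (l 16643240)) (b (l 16634976) (a (l 16626840) (l 16624840)))))), by decide +kernel⟩

def k60_pm_012_s : ∃ t, chk3 f_pm_012_s t 163 7 1 = true :=
  ⟨(b (a (b (b (b (b (l 16706208) (c (c (l 16699768) (l 16705952)) (l 16706416))) (c (b (c (a (l 16703224) (l 16701984)) (a (l 16704184) (l 16702920))) (c (l 16700784) (l 16701576))) (b (a (b (l 16705232) (l 16704064)) (l 16703360)) (l 16701840)))) (c (b (c (l 16698096) (l 16698640)) (b (l 16695528) (l 16693552))) (b (b (l 16699672) (l 16697480)) (b (l 16695272) (l 16693040))))) (b (b (c (l 16690512) (l 16694888)) (c (l 16686320) (l 16685016))) (b (l 16681256) (l 16676464)))) (b (b (b (c (b (c (l 16704616) (l 16705608)) (c (a (b (l 16703352) (l 16702216)) (l 16701560)) (a (l 16703824) (l 16702552)))) (b (l 16706120) (a (b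 (l 16704920) (l 16703736)) (l 16703040)))) (c (c (b (l 16700368) (l 16698600)) (l 16700248)) (b (l 16701512) (l 16699352)))) (c (b (b (l 16697096) (l 16695168)) (l 16692208)) (b (b (l 16697176) (l 16694976)) (b (l 16692760) (l 16690528))))) (b (c (b (l 16688152) (l 16683944)) (b (b (l 16688272) (l 16685992)) (l 16682520))) (b (l 16678840) (l 16674072))))) (b (b (b (l 16670232) (l 16664896)) (b (l 16659232) (l 16663648))) (b (b (l 16646528) (l 16639088)) (b (l 16630928) (c (l 16624472) (l 16619328)))))), by decide +kernel⟩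

def k61_pm_012_s : ∃ t, chk3 f_pm_012_s t 82 28 1 = true :=
  ⟨(b (b (a (c (a (b (a (b (l 16703504) (l 16702376)) (l 16701816)) (a (l 16701024) (l 16700000))) (b (l 16700464) (l 16698592))) (a (b (a (b (l 16704608) (l 16703424)) (l 16702752)) (l 16701208)) (b (l 16700976) (l 16698800)))) (c (a (b (l 16698600) (l 16696656)) (b (l 16696656) (l 16694640))) (a (b (l 16698592) (l 16696392)) (b (l 16696176) (l 16693952))))) (b (a (c (a (l 16698664) (l 16696680)) (a (l 16699048) (l 16696616))) (a (c (l 16694672) (l 16694176)) (c (l 16692600) (l 16691712)))) (a (c (a (l 16696768) (l 16694720)) (a (l 16696872) (l 16694416))) (a (c (l 16692656) (l 16691944)) (a (l 16690760) (l 16689584)))))) (a (c (b (a (b (l 16694840) (l 16692872)) (b (l 16692736) (l 16690720))) (a (a (l 16690448) (l 16689312)) (b (l 16688688) (l 16686632)))) (b (a (b (l 16694680) (l 16692472)) (b (l 16692200) (l 16689984))) (a (b (l 16690248) (l 16688016)) (a (l 16687256) (l 16689616))))) (a (b (a (b (l 16690944) (l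 16688800)) (b (l 16689776) (l 16687616))) (a (b (l 16686648) (l 16684480)) (b (l 16685448) (l 16683272)))) (b (c (b (l 16688424) (l 16686312)) (b (a (l 16687840) (l 16686576)) (c (l 16685432) (l 16684408)))) (a (b (l 16684240) (l 16682056)) (b (l 16683024) (l 16680832))))))), by decide +kernel⟩

def k62_pm_012_s : ∃ t, chk3 f_pm_012_s t 82 29 1 = true :=
  ⟨(b (a (c (b (a (l 16685792) (l 16683512)) (a (l 16681568) (l 16679240))) (b (a (b (l 16685760) (l 16683488)) (b (l 16683264) (l 16680992))) (a (l 16680024) (l 16677536)))) (b (a (c (l 16681208) (b (l 16680752) (l 16678488))) (c (b (l 16679928) (l 16677768)) (b (l 16678232) (l 16675968)))) (a (c (l 16676896) (l 16675048)) (c (l 16674496) (b (l 16673696) (l 16671408)))))) (a (c (b (a (l 16677192) (l 16674848)) (l 16671448)) (b (a (l 16675312) (l 16672848)) (l 16669224))) (b (a (c (l 16672472) (l 16670392)) (c (l 16670064) (l 16667928))) (a (l 16666896) (l 16664496))))), by decide +kernel⟩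

def k63_pm_012_s : ∃ t, chk3 f_pm_012_s t 166 14 1 = true :=
  ⟨(a (b (b (b (c (a (l 16694112) (l 16693072)) (a (l 16693216) (l 16691976))) (c (a (l 16689928) (l 16688832)) (a (b (l 16689840) (l 16687576)) (b (l 16688576) (l 16686304))))) (b (c (a (l 16685664) (l 16684512)) (a (b (l 16685312) (l 16683056)) (b (l 16684032) (l 16681768)))) (c (a (l 16681368) (l 16680160)) (a (b (l 16680816) (l 16678576)) (b (l 16679528) (l 16677288)))))) (b (b (c (a (l 16677040) (l 16675800)) (a (l 16675200) (l 16673920))) (c (l 16682520) (b (l 16671176) (l 16668896)))) (b (c (l 16667592) (l 16665464)) (l 16662072)))) (a (b (b (b (c (l 16692000) (l 16690712)) (c (l 16687688) (b (l 16687296) (l 16685016)))) (b (c (b (l 16684408) (l 16682208)) (b (l 16682736) (l 16680464))) (c (l 16684160) (b (l 16678224) (l 16675984))))) (b (b (c (l 16674528) (l 16672624)) (c (l 16670120) (l 16668128))) (b (l 16664792) (l 16660224)))) (b (b (b (c (l 16690848) (l 16689408)) (c (b (l 16687576) (l 16685368)) (b (l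 16685976) (l 16683688)))) (b (c (b (l 16683152) (l 16680936)) (b (l 16681408) (l 16679136))) (c (b (l 16678720) (l 16676512)) (b (l 16676888) (l 16674656))))) (b (b (c (l 16673192) (b (l 16672424) (l 16670192))) (c (l 16668776) (l 16666840))) (b (l 16663496) (l 16658968)))))), by decide +kernel⟩

def k64_pm_012_s : ∃ t, chk3 f_pm_012_s t 334 14 1 = true :=
  ⟨(a (b (a (b (b (l 16689296) (c (l 16685504) (l 16683808))) (b (c (l 16681032) (l 16679240)) (c (l 16676576) (l 16674744)))) (b (b (c (l 16689264) (l 16687696)) (c (l 16684808) (l 16683104))) (b (b (l 16680688) (l 16678432)) (c (l 16675832) (l 16674040))))) (b (a (b (c (l 16672136) (l 16670296)) (l 16666944)) (b (c (l 16671384) (l 16669608)) (l 16666232))) (b (c (l 16662904) (l 16661080)) (l 16657680)))) (b (a (b (b (c (l 16688544) (l 16686960)) (c (l 16684048) (l 16682360))) (b (b (l 16679928) (l 16677664)) (b (l 16675424) (l 16673208)))) (a (b (b (l 16687272) (c (l 16683416) (l 16681768))) (b (c (l 16678880) (l 16677208))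 (c (l 16674368) (l 16672728)))) (b (b (l 16686824) (c (l 16682936) (l 16681344))) (b (c (l 16678384) (l 16676784)) (c (l 16673864) (l 16672312)))))) (a (b (b (c (l 16670576) (l 16668888)) (c (l 16666152) (l 16664496))) (b (l 16661096) (l 16656672))) (b (a (b (l 16671904) (l 16664896)) (b (c (l 16669408) (l 16667936)) (l 16664464))) (b (c (l 16660864) (l 16659432)) (l 16655952)))))), by decide +kernel⟩

def k65_pm_012_s : ∃ t, chk3 f_pm_012_s t 335 56 1 = true :=
  ⟨(a (a (a (b (c (l 16686920) (l 16685448)) (b (l 16688120) (a (l 16680752) (l 16680456)))) (a (a (b (l 16685912) (l 16681344)) (b (l 16685688) (a (l 16681192) (l 16681064)))) (a (a (b (l 16685456) (c (l 16681384) (l 16680136))) (a (b (a (a (l 16685328) (a (l 16685288) (a (l 16685256) (b (l 16686312) (l 16684032))))) (l 16685120)) (a (a (l 16680768) (a (l 16680720) (a (l 16680688) (c (b (l 16682168) (l 16679872)) (l 16679928))))) (l 16680560))) (b (l 16685112) (l 16680552)))) (b (l 16685064) (l 16680504))))) (b (l 16684720)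 (l 16680160))) (b (l 16683800) (l 16679240))), by decide +kernel⟩

def k66_pm_012_s : ∃ t, chk3 f_pm_012_s t 335 57 2 = true :=
  ⟨(a (c (a (b (a (l 16677984) (a (c (l 16677400) (l 16677280)) (a (a (l 16676920) (a (a (a (l 16676744) (a (l 16676688) (b (l 16682896) (l 16680600)))) (l 16676408)) (l 16676392))) (l 16676344)))) (a (l 16673432) (a (l 16672784) (a (a (l 16672352) (a (a (a (l 16672176) (a (l 16672120) (a (l 16672064) (l 16677176)))) (l 16671840)) (l 16671824))) (l 16671784))))) (b (l 16676016) (l 16671448))) (a (b (a (l 16677528) (a (l 16676976) (a (a (l 16676616) (a (a (a (l 16676480) (a (l 16676432) (a (l 16676392) (l 16676296)))) (l 16676240)) (l 16676224))) (l 16676176)))) (c (a (l 16673160) (a (l 16672584) (a (a (l 16672216) (a (a (a (l 16672072) (a (l 16672024) (a (l 16671984) (l 16671888)))) (l 16671824)) (l 16671808))) (l 16671760)))) (a (l 16672880) (a (l 16672360) (a (a (l 16672032) (a (a (a (l 16671904) (a (l 16671856) (l 16676992))) (l 16671696)) (l 16671680)))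 (l 16671640)))))) (b (l 16675840) (l 16671368)))) (b (l 16675072) (l 16670560))), by decide +kernel⟩

def k67_pm_012_s : ∃ t, chk3 f_pm_012_s t 335 57 3 = true :=
  ⟨(a (c (a (b (a (l 16676784) (a (l 16676312) (a (a (l 16676024) (a (a (a (l 16675912) (a (l 16675880) (a (l 16675848) (l 16675792)))) (l 16675760)) (l 16675744))) (l 16675696)))) (a (l 16672328) (a (l 16671864) (a (a (l 16671592) (a (a (a (l 16671488) (a (l 16671456) (a (l 16671432) (l 16671384)))) (l 16671352)) (l 16671336))) (l 16671288))))) (b (l 16675352) (l 16670944))) (a (b (a (l 16675760) (a (l 16675360) (a (a (l 16675136) (a (a (a (l 16675056) (a (l 16675032) (a (l 16675016) (l 16674984)))) (l 16674968)) (l 16674952))) (l 16674904)))) (c (a (l 16671592) (a (l 16671200) (a (a (l 16670976) (a (a (a (l 16670904) (b (l 16671920) (l 16669760))) (l 16670816)) (l 16670800))) (l 16670752)))) (a (l 16671016) (a (l 16670664) (a (a (l 16670472) (a (a (a (l 16670408) (b (l 16671440) (l 16669288))) (l 16670344)) (l 16670328)))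 (l 16670280)))))) (b (l 16674544) (l 16670168)))) (b (l 16674048) (l 16669656))), by decide +kernel⟩

def k68_pm_012_s : ∃ t, chk3 f_pm_012_s t 335 29 1 = true :=
  ⟨(c (b (a (a (a (b (l 16668816) (l 16664416)) (a (b (l 16673472) (l 16663848)) (a (a (b (l 16667848) (l 16663488)) (a (a (a (b (l 16667696) (l 16663352)) (b (a (l 16667648) (b (l 16673848) (l 16666416))) (a (l 16663304) (a (l 16663264) (l 16663168))))) (b (l 16667432) (l 16663096))) (b (l 16667416) (l 16663080)))) (b (l 16667368) (l 16663040))))) (b (l 16667032) (l 16662704))) (b (l 16666136) (l 16661808))) (b (a (a (a (l 16660072) (a (l 16659536) (a (a (l 16659200) (b (c (c (l 16670240) (l 16670416)) (l 16659992)) (c (l 16657728) (l 16657888)))) (l 16658784)))) (l 16658456)) (l 16657560)) (a (a (a (l 16655744) (a (l 16655248) (a (a (l 16654952) (b (l 16653136) (l 16653656))) (l 16654584)))) (l 16654256)) (l 16653360)))) (a (a (b (a (b (l 16667504) (l 16663192)) (a (b (l 16672360) (l 16662840)) (a (a (b (l 16666904)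 (l 16662656)) (a (a (a (b (l 16666824) (l 16662592)) (a (b (l 16666800) (l 16662576)) (b (c (l 16667080) (l 16666344)) (l 16662544)))) (b (l 16666736) (l 16662528))) (b (l 16666720) (l 16662512)))) (b (l 16666672) (l 16662464))))) (a (b (l 16658896) (l 16654584)) (a (b (l 16658600) (l 16654344)) (a (a (b (l 16658448) (l 16654240)) (b (c (l 16669144) (l 16668440)) (c (l 16654488) (l 16653768)))) (l 16656208))))) (b (b (l 16666320) (l 16662112)) (b (l 16657944) (l 16653784)))) (b (b (l 16665384) (l 16661176)) (b (l 16657016) (l 16652856))))), by decide +kernel⟩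

def k69_pm_012_s : ∃ t, chk3 f_pm_012_s t 41 30 1 = true :=
  ⟨(a (b (b (c (a (l 16666640) (l 16661952)) (a (l 16664144) (l 16659432))) (a (l 16660312) (l 16655752))) (a (b (l 16654792) (a (l 16649952) (l 16658328))) (b (l 16650424) (b (a (l 16647248) (l 16645152)) (l 16643136))))) (a (b (a (b (l 16657304) (l 16652344)) (b (l 16654920) (l 16650088))) (b (a (l 16647168) (c (l 16646168) (l 16643600))) (a (b (l 16643064) (l 16640000)) (l 16639488)))) (a (a (b (b (l 16653104) (l 16648392)) (b (b (l 16644760) (l 16642216)) (l 16637984))) (b (c (b (l 16652424) (l 16642648)) (b (l 16650856) (l 16646232))) (b (b (c (l 16641816) (c (l 16643232) (l 16641912))) (l 16641208)) (c (l 16638272) (l 16635528))))) (a (b (c (a (a (b (l 16651376) (l 16646968)) (a (b (l 16650952) (l 16646624)) (a (a (b (l 16650696) (l 16646432)) (b (l 16650496) (l 16656784))) (l 16658808)))) (l 16658472)) (a (a (b (l 16650200) (l 16645696)) (a (b (l 16650024) (l 16645584)) (a (a (b (l 16649968) (l 16645584)) (b (c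 (l 16650280) (l 16649512)) (b (l 16646736) (b (l 16645104) (l 16641344))))) (b (l 16649904) (l 16645576))))) (b (l 16649560) (l 16645240)))) (a (a (b (c (l 16642528) (l 16640816)) (l 16636552)) (a (b (c (l 16642288) (l 16640720)) (l 16636456)) (b (c (c (l 16642136) (l 16641944)) (b (c (l 16663496) (l 16641464)) (l 16649912))) (a (a (l 16636448) (c (l 16663616) (l 16635192))) (b (l 16616856) (l 16635072)))))) (c (b (l 16641736) (l 16637040)) (b (l 16640400) (l 16634824))))) (b (b (l 16649168) (b (l 16646000) (l 16643864))) (c (b (l 16640864) (l 16636192)) (b (l 16639504) (l 16633952)))))))), by decide +kernel⟩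

def k70_pm_012_s : ∃ t, chk3 f_pm_012_s t 41 31 1 = true :=
  ⟨(b (a (a (b (l 16642304) (l 16635000)) (b (l 16648664) (c (l 16633160) (l 16628760)))) (a (a (b (l 16635144) (l 16628104)) (b (l 16633208) (c (l 16628376) (l 16624008)))) (a (a (b (l 16631816) (l 16624984)) (b (c (l 16632600) (l 16629136)) (c (l 16626224) (l 16622088)))) (a (a (a (b (l 16630576) (l 16623920)) (a (b (l 16630536) (l 16623920)) (a (a (b (l 16630568) (l 16623992)) (b (c (l 16631992) (l 16628984)) (c (l 16625856) (l 16622104)))) (b (l 16630632) (l 16624104))))) (b (l 16630320) (l 16623792))) (b (l 16629480) (l 16622968)))))) (b (a (a (c (l 16629344) (l 16624520)) (c (l 16625536) (l 16620600))) (a (c (a (l 16622744) (l 16620984)) (a (l 16617768) (l 16616032))) (a (c (a (l 16619736) (l 16619032)) (a (l 16614848) (l 16614264))) (a (a (a (l 16616448) (a (l 16616488) (a (a (l 16616584) (c (l 16618864) (l 16614416))) (l 16616736)))) (l 16616432)) (l 16615624))))) (c (a (a (l 16620664) (l 16616984)) (a (a (l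 16614312) (l 16612648)) (a (a (l 16611488) (b (l 16613016) (l 16608672))) (a (a (a (l 16610608) (a (l 16610640) (a (a (l 16610720) (b (l 16612984) (l 16608720))) (l 16610896)))) (l 16610600)) (l 16609832))))) (a (a (l 16615360) (b (l 16613904) (l 16609112))) (a (a (l 16608792) (b (l 16609456) (l 16604736))) (a (a (l 16606000) (b (l 16607776) (l 16603120))) (a (a (a (l 16605304) (a (l 16605416) (a (a (l 16605568) (b (l 16608024) (l 16603416))) (l 16605720)))) (l 16605416)) (l 16604608)))))))), by decide +kernel⟩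

def k71_pm_012_s : ∃ t, chk3 f_pm_012_s t 42 7 1 = true :=
  ⟨(a (b (b (a (b (b (l 16680760) (a (l 16677416) (l 16674992))) (b (a (l 16672888) (l 16670464)) (a (l 16668456) (l 16666024)))) (b (b (l 16681176) (l 16676616)) (b (b (l 16667968) (l 16665720)) (b (l 16663504) (l 16661312))))) (b (b (c (b (l 16661904) (l 16659712)) (b (l 16660824) (l 16658712))) (b (l 16657296) (l 16655192))) (b (a (c (l 16654600) (l 16653912)) (l 16649664)) (c (l 16648056) (l 16647320))))) (b (b (b (c (l 16643880) (l 16643152)) (b (l 16640632) (c (l 16638680) (l 16637816)))) (b (c (l 16635680) (l 16634168)) (c (b (l 16632336) (l 16629880)) (l 16628720)))) (b (b (c (l 16625872) (l 16622640)) (c (l 16619896) (l 16615896))) (b (b (l 16612704) (l 16608848)) (b (l 16604736) (c (l 16603080) (l 16597472))))))) (b (a (b (b (b (b (l 16672288) (l 16670008)) (l 16666592)) (b (l 16662064) (l 16657616))) (b (b (l 16653280) (l 16649040)) (b (l 16644880) (l 16640768)))) (b (b (b (c (l 16667096) (l 16665384)) (l 16661848))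 (b (l 16657320) (l 16652880))) (b (b (l 16648536) (l 16644296)) (b (l 16640144) (l 16636040))))) (b (b (b (c (l 16634584) (l 16633464)) (a (c (l 16632768) (l 16631680)) (b (l 16628832) (c (l 16627128) (l 16625848))))) (b (b (c (l 16627528) (l 16646920)) (a (l 16648016) (l 16622448))) (a (l 16623304) (a (l 16619912) (l 16617664))))) (b (b (a (l 16617752) (a (l 16614424) (l 16612232))) (a (l 16611496) (a (l 16608240) (l 16606112)))) (b (a (l 16604400) (a (l 16601216) (l 16599160))) (a (b (l 16598432) (l 16594096)) (a (b (l 16595296) (l 16590992)) (b (l 16593296) (l 16589032))))))))), by decide +kernel⟩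

def k72_pm_012_s : ∃ t, chk3 f_pm_012_s t 43 7 1 = true :=
  ⟨(a (b (b (b (b (c (b (l 16661256) (l 16659024)) (a (l 16660600) (l 16655872))) (b (c (l 16656784) (l 16654768)) (l 16653696))) (b (b (l 16651432) (l 16649184)) (c (l 16646712) (l 16644592)))) (b (b (c (l 16642328) (l 16640264)) (b (l 16638320) (l 16636224))) (b (l 16633112) (l 16629016)))) (b (b (b (l 16624920) (c (b (l 16622344) (l 16620304)) (l 16619768))) (b (a (l 16637008) (l 16614424)) (l 16612080))) (b (b (l 16606832) (l 16600920)) (b (b (l 16595976) (l 16592392)) (b (l 16588560) (l 16584448)))))) (b (b (b (b (c (a (l 16653272) (l 16648736)) (a (l 16651184) (l 16646544))) (c (b (l 16647696) (l 16645480)) (b (l 16645392) (l 16643080)))) (b (b (l 16642232) (l 16639992)) (b (l 16637776) (l 16635584)))) (b (b (l 16642816) (l 16628080)) (b (l 16623912) (l 16619808)))) (b (b (b (l 16615728) (b (l 16612664) (l 16610624))) (b (l 16607632) (l 16603216))) (b (b (l 16598232) (l 16592624)) (b (l 16586280) (b (l 16580928)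 (l 16577040))))))), by decide +kernel⟩

def k73_pm_012_s : ∃ t, chk3 f_pm_012_s t 22 28 1 = true :=
  ⟨(b (a (b (b (a (a (a (l 16645560) (l 16643296)) (l 16639920)) (c (l 16634112) (l 16631832))) (a (c (l 16643528) (a (l 16640800) (l 16636256))) (c (l 16632040) (l 16629528)))) (a (a (b (l 16639952) (l 16637704)) (b (l 16635472) (l 16633232))) (a (b (a (l 16632136) (l 16629928)) (l 16628808)) (b (l 16626624) (l 16624416))))) (b (a (c (b (l 16625248) (l 16623256)) (b (l 16622984) (l 16620704))) (c (b (l 16616440) (l 16614544)) (b (l 16614280) (l 16612032)))) (a (c (b (l 16621224) (l 16619168)) (b (l 16618416) (l 16616120))) (c (b (l 16612608) (l 16610632)) (b (l 16609768) (l 16607496)))))) (a (b (b (a (c (l 16634376) (l 16631608)) (c (l 16625664) (l 16622624))) (a (l 16630992) (c (l 16623512) (l 16620344)))) (a (b (l 16628784) (l 16626600)) (a (l 16621080) (l 16621968)))) (b (a (a (b (l 16617872) (l 16615688)) (b (l 16613584) (l 16611408))) (c (b (l 16608616) (l 16606592)) (b (l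 16605232) (l 16602976)))) (a (b (c (l 16612888) (l 16609328)) (c (l 16610792) (l 16607112))) (c (b (l 16604552) (l 16602512)) (b (l 16600744) (l 16598544))))))), by decide +kernel⟩

def k74_pm_012_s : ∃ t, chk3 f_pm_012_s t 23 28 1 = true :=
  ⟨(b (a (b (a (c (b (l 16607648) (l 16605872)) (b (l 16605696) (l 16603488))) (c (l 16608512) (l 16596128))) (a (c (b (l 16604048) (l 16602168)) (b (l 16601272) (l 16599032))) (c (b (l 16595504) (l 16593752)) (b (l 16592888) (l 16590704))))) (b (a (c (l 16589232) (l 16587720)) (c (l 16580368) (l 16579352))) (a (c (l 16586160) (l 16583544)) (c (l 16577632) (l 16575352))))) (a (b (a (c (b (l 16600248) (l 16598304)) (b (l 16596792) (l 16594568))) (c (b (l 16591936) (l 16590096)) (b (l 16588504) (l 16586312)))) (a (c (b (l 16596344) (l 16594368)) (b (l 16592360) (l 16590168))) (c (b (l 16588224) (l 16586336)) (b (l 16584136) (l 16581976))))) (b (a (c (b (l 16583664) (l 16581944)) (l 16579272)) (c (l 16574600) (l 16571240))) (a (c (b (l 16580184)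 (l 16578392)) (b (l 16576072) (l 16573944))) (c (l 16571352) (l 16567088)))))), by decide +kernel⟩

def k75_pm_012_s : ∃ t, chk3 f_pm_012_s t 11 29 1 = true :=
  ⟨(a (b (a (a (b (b (l 16624432) (l 16622288)) (l 16619104)) (b (b (l 16615656) (l 16613520)) (l 16610336))) (b (a (b (l 16607080) (l 16604952)) (b (c (l 16600464) (l 16596360)) (c (l 16598408) (l 16594200)))) (a (b (l 16602840) (l 16600744)) (b (l 16594488) (l 16592408))))) (a (a (b (l 16614928) (l 16610816)) (b (l 16606168) (l 16602040))) (b (a (l 16597624) (b (l 16590336) (l 16588272))) (a (l 16593504) (l 16585184))))) (b (a (b (a (c (b (l 16592376) (l 16590384)) (b (l 16588000) (l 16585848))) (c (b (l 16584424) (l 16582504)) (b (l 16579832) (l 16577696)))) (a (b (c (l 16588376) (l 16583720)) (c (l 16586368) (l 16581616))) (c (b (l 16580560) (l 16578600)) (b (l 16575584) (l 16573488))))) (b (a (c (b (l 16576584) (l 16574736)) (b (l 16571832) (l 16569728))) (c (l 16567944) (b (l 16563992) (l 16561928)))) (a (c (b (l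 16572880) (l 16570992)) (b (l 16567640) (l 16565560))) (c (b (l 16565304) (l 16563512)) (b (l 16559880) (l 16557832)))))) (a (b (a (b (l 16582224) (l 16580176)) (b (a (l 16576272) (l 16572368)) (l 16572288))) (a (l 16577104) (b (l 16570256) (l 16568224)))) (b (a (c (b (l 16569088) (l 16567168)) (b (l 16563496) (l 16561440))) (c (b (l 16561688) (l 16559840)) (b (l 16555792) (l 16553760)))) (b (a (c (l 16565232) (l 16559392)) (c (l 16557960) (l 16551720))) (a (l 16560584) (l 16547912))))))), by decide +kernel⟩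

def k76_pm_012_s : ∃ t, chk3 f_pm_012_s t 11 15 1 = true :=
  ⟨(b (a (b (a (b (a (l 16606720) (l 16597936)) (a (l 16602648) (l 16593840))) (b (a (l 16589376) (l 16581064)) (a (l 16585256) (l 16576920)))) (a (b (a (l 16598704) (l 16589936)) (a (l 16594464) (l 16585848))) (b (a (l 16581352) (b (l 16573912) (l 16572080))) (a (l 16577392) (l 16569120))))) (b (a (b (a (l 16572984) (l 16565136)) (a (l 16568840) (l 16561000))) (b (a (b (l 16558552) (l 16556504)) (b (l 16551152) (l 16549128))) (a (l 16553408) (l 16546056)))) (a (b (b (a (l 16565800) (l 16557944)) (l 16560040)) (a (l 16561080) (l 16553280))) (b (b (a (l 16550344) (l 16543000)) (a (l 16548552) (l 16541208))) (a (l 16545720) (l 16538416)))))) (a (b (a (b (a (l 16589704) (l 16581280)) (a (l 16584376) (l 16576192))) (b (a (l 16572984) (l 16564848)) (a (l 16568112) (l 16560152)))) (a (b (a (l 16578352) (l 16570456)) (a (l 16592440) (l 16563912))) (b (a (l 16562632) (l 16554904)) (c (a (l 16559696) (l 16552384)) (a (l 16552928)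 (l 16545312)))))) (b (a (b (a (l 16556904) (l 16549176)) (a (l 16552352) (l 16544736))) (b (a (l 16551512) (c (l 16538216) (l 16530280))) (a (c (l 16541040) (l 16533312)) (l 6)))) (a (a (b (l 16547288) (c (l 16545192) (l 16537752))) (b (l 16550312) (c (l 16538144) (l 16530280)))) (b (a (c (l 16536448) (l 16528392)) (l 6)) (l 6)))))), by decide +kernel⟩

def k77_pm_012_s : ∃ t, chk3 f_pm_012_s t 3 2 1 = true :=
  ⟨(a (b (l 2) (b (l 2) (a (b (l 2) (a (a (b (l 2) (l 16689408)) (l 2)) (l 2))) (l 2)))) (l 2)), by decide +kernel⟩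

def k78_pm_012_s : ∃ t, chk3 f_pm_012_s t 3 6 1 = true :=
  ⟨(a (b (a (b (a (a (b (l 16669840) (l 16648976)) (b (l 16666000) (l 16622392))) (b (l 2) (l 16643888))) (a (b (a (l 16628032) (l 16620096)) (a (l 16607776) (l 16597272))) (b (l 16620360) (a (l 16596144) (l 16596328))))) (b (l 2) (a (b (l 2) (l 16598560)) (l 2)))) (a (b (a (b (a (c (l 16603288) (l 16593952)) (a (l 16576664) (l 16574456))) (a (b (c (l 16590616) (l 16581840)) (a (l 16580280) (l 16569104))) (b (a (l 16561800) (l 16558744)) (a (l 16558312) (l 16552968))))) (b (a (l 16573168) (l 16572312)) (a (b (l 16556704) (c (l 16542552) (l 16553128))) (b (l 16554928) (l 16586248))))) (a (b (a (b (c (l 16559696) (l 16578064)) (a (l 16578728) (l 16568744))) (a (b (c (l 16553664) (l 16563520)) (a (l 16561096) (l 16556856))) (b (l 16553216) (l 16552864)))) (a (b (a (l 16576800) (l 16567312)) (a (l 16574392) (l 16565328))) (a (b (l 16558040) (l 16556464)) (b (l 16551832) (l 16550280))))) (b (a (c (l 16594120) (l 16549168))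 (b (l 16538840) (l 16536584))) (a (b (a (l 16546472) (l 16541264)) (c (l 16540408) (l 16542616))) (b (l 16534120) (l 16531520)))))) (a (a (b (b (l 16572584) (l 16548352)) (b (b (l 16533568) (l 6)) (l 6))) (l 6)) (l 6)))) (l 6)), by decide +kernel⟩

def k79_pm_012_s : ∃ t, chk3 f_pm_012_s t 6 14 1 = true :=
  ⟨(a (b (a (b (a (b (a (l 16571608) (l 16562904)) (a (c (l 16569048) (l 16567200)) (l 16560136))) (a (b (c (l 16553472) (l 16554392)) (c (l 16551888) (l 16551104))) (b (l 16548176) (l 16545680)))) (a (b (a (c (l 16566352) (l 16563272)) (c (l 16558056) (l 16555344))) (a (c (l 16563424) (l 16559280)) (c (l 16555456) (l 16551536)))) (a (a (b (l 16551008) (l 16548016)) (b (l 16547352) (c (l 16545840) (l 16542200)))) (b (c (l 16543672) (l 16541216)) (c (l 16541368) (l 16537552)))))) (b (a (a (b (l 16542544) (l 16539944)) (b (l 16536944) (l 16534304))) (a (b (l 16531512) (l 16528704)) (l 6))) (a (b (c (a (l 16537952) (l 16532344)) (a (l 16535264) (l 16529440))) (c (a (l 16535536)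 (l 16529832)) (a (l 16531512) (l 16525616)))) (l 6)))) (a (b (a (b (a (c (l 16560288) (l 16555272)) (c (l 16552648) (l 16547696))) (a (c (l 16556976) (b (l 16552272) (l 16550264))) (c (l 16549608) (l 16543816)))) (a (a (b (l 16544864) (l 16552048)) (b (c (l 16543376) (l 16538544)) (c (l 16540664) (l 16534832)))) (b (c (l 16538848) (l 16533840)) (c (l 16536088) (l 16530072))))) (a (b (a (c (b (l 16554400) (l 16552648)) (b (l 16548264) (l 16546264))) (c (l 16546392) (l 16539920))) (a (c (l 16560416) (l 16543248)) (c (l 16542992) (l 16535992)))) (a (b (c (a (l 16541088) (l 16537728)) (a (l 16534512) (l 16531064))) (c (a (l 16537856) (l 16534568)) (l 16528936))) (b (c (l 16533136) (l 16526256)) (c (l 16529944) (l 16522376)))))) (b (a (a (b (c (l 16532912) (l 16527712)) (c (l 16530104) (l 16523880))) (l 6)) (l 6)) (l 6)))) (l 6)), by decide +kernel⟩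

def k80_pm_012_s : ∃ t, chk3 f_pm_012_s t 6 15 1 = true :=
  ⟨(a (b (a (b (a (b (a (c (l 16546176) (l 16539184)) (c (l 16539400) (l 16531984))) (a (b (l 16539952) (l 16537912)) (c (l 16535616) (l 16527896)))) (b (a (c (l 16532784) (l 16525000)) (l 6)) (l 6))) (a (b (b (a (l 16535904) (c (l 16532744) (l 16524832))) (a (l 16534096) (l 6))) (a (c (l 16535144) (l 16527104)) (l 6))) (l 6))) (l 6)) (l 6)) (l 6)), by decide +kernel⟩

def k81_pm_012_s : ∃ t, chk3 f_pm_012_s t 7 7 1 = true :=
  ⟨(l 6), by decide +kernel⟩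

theorem s82_pm_012_s : ∃ t, chk3 f_pm_012_s t 6 7 1 = true := ex3_b k79_pm_012_s k80_pm_012_s

theorem s83_pm_012_s : ∃ t, chk3 f_pm_012_s t 3 7 1 = true := ex3_a s82_pm_012_s k81_pm_012_s

theorem s84_pm_012_s : ∃ t, chk3 f_pm_012_s t 3 3 1 = true := ex3_b k78_pm_012_s s83_pm_012_s

theorem s85_pm_012_s : ∃ t, chk3 f_pm_012_s t 3 1 1 = true := ex3_b k77_pm_012_s s84_pm_012_s

theorem s86_pm_012_s : ∃ t, chk3 f_pm_012_s t 11 28 1 = true := ex3_a k73_pm_012_s k74_pm_012_s

theorem s87_pm_012_s : ∃ t, chk3 f_pm_012_s t 11 14 1 = true := ex3_b s86_pm_012_s k75_pm_012_s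

theorem s88_pm_012_s : ∃ t, chk3 f_pm_012_s t 11 7 1 = true := ex3_b s87_pm_012_s k76_pm_012_s

theorem s89_pm_012_s : ∃ t, chk3 f_pm_012_s t 21 7 1 = true := ex3_a k71_pm_012_s k72_pm_012_s

theorem s90_pm_012_s : ∃ t, chk3 f_pm_012_s t 41 15 1 = true := ex3_b k69_pm_012_s k70_pm_012_s

theorem s91_pm_012_s : ∃ t, chk3 f_pm_012_s t 335 57 1 = true := ex3_c k66_pm_012_s k67_pm_012_s

theorem s92_pm_012_s : ∃ t, chk3 f_pm_012_s t 335 28 1 = true := ex3_b k65_pm_012_s s91_pm_012_s

theorem s93_pm_012_s : ∃ t, chk3 f_pm_012_s t 335 14 1 = true := ex3_b s92_pm_012_s k68_pm_012_s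

theorem s94_pm_012_s : ∃ t, chk3 f_pm_012_s t 167 14 1 = true := ex3_a k64_pm_012_s s93_pm_012_s

theorem s95_pm_012_s : ∃ t, chk3 f_pm_012_s t 83 14 1 = true := ex3_a k63_pm_012_s s94_pm_012_s

theorem s96_pm_012_s : ∃ t, chk3 f_pm_012_s t 82 14 1 = true := ex3_b k61_pm_012_s k62_pm_012_s

theorem s97_pm_012_s : ∃ t, chk3 f_pm_012_s t 41 14 1 = true := ex3_a s96_pm_012_s s95_pm_012_s

theorem s98_pm_012_s : ∃ t, chk3 f_pm_012_s t 41 7 1 = true := ex3_b s97_pm_012_s s90_pm_012_s

theorem s99_pm_012_s : ∃ t, chk3 f_pm_012_s t 81 7 1 = true := ex3_a k59_pm_012_s k60_pm_012_s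

theorem s100_pm_012_s : ∃ t, chk3 f_pm_012_s t 80 7 1 = true := ex3_a k57_pm_012_s k58_pm_012_s

theorem s101_pm_012_s : ∃ t, chk3 f_pm_012_s t 40 7 1 = true := ex3_a s100_pm_012_s s99_pm_012_s

theorem s102_pm_012_s : ∃ t, chk3 f_pm_012_s t 20 7 1 = true := ex3_a s101_pm_012_s s98_pm_012_s

theorem s103_pm_012_s : ∃ t, chk3 f_pm_012_s t 10 7 1 = true := ex3_a s102_pm_012_s s89_pm_012_s

theorem s104_pm_012_s : ∃ t, chk3 f_pm_012_s t 5 7 1 = true := ex3_a s103_pm_012_s s88_pm_012_s

theorem s105_pm_012_s : ∃ t, chk3 f_pm_012_s t 11 13 1 = true := ex3_b k55_pm_012_s k56_pm_012_s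

theorem s106_pm_012_s : ∃ t, chk3 f_pm_012_s t 11 6 1 = true := ex3_b k54_pm_012_s s105_pm_012_s

theorem s107_pm_012_s : ∃ t, chk3 f_pm_012_s t 21 6 1 = true := ex3_b k52_pm_012_s k53_pm_012_s

theorem s108_pm_012_s : ∃ t, chk3 f_pm_012_s t 167 13 1 = true := ex3_a k50_pm_012_s k51_pm_012_s

theorem s109_pm_012_s : ∃ t, chk3 f_pm_012_s t 83 13 1 = true := ex3_a k49_pm_012_s s108_pm_012_s

theorem s110_pm_012_s : ∃ t, chk3 f_pm_012_s t 83 6 1 = true := ex3_b k48_pm_012_s s109_pm_012_s

theorem s111_pm_012_s : ∃ t, chk3 f_pm_012_s t 82 6 1 = true := ex3_b k46_pm_012_s k47_pm_012_s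

theorem s112_pm_012_s : ∃ t, chk3 f_pm_012_s t 41 6 1 = true := ex3_a s111_pm_012_s s110_pm_012_s

theorem s113_pm_012_s : ∃ t, chk3 f_pm_012_s t 40 13 1 = true := ex3_b k44_pm_012_s k45_pm_012_s

theorem s114_pm_012_s : ∃ t, chk3 f_pm_012_s t 40 6 1 = true := ex3_b k43_pm_012_s s113_pm_012_s

theorem s115_pm_012_s : ∃ t, chk3 f_pm_012_s t 20 6 1 = true := ex3_a s114_pm_012_s s112_pm_012_s

theorem s116_pm_012_s : ∃ t, chk3 f_pm_012_s t 10 6 1 = true := ex3_a s115_pm_012_s s107_pm_012_s

theorem s117_pm_012_s : ∃ t, chk3 f_pm_012_s t 5 6 1 = true := ex3_a s116_pm_012_s s106_pm_012_s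

theorem s118_pm_012_s : ∃ t, chk3 f_pm_012_s t 5 3 1 = true := ex3_b s117_pm_012_s s104_pm_012_s

theorem s119_pm_012_s : ∃ t, chk3 f_pm_012_s t 41 5 1 = true := ex3_a k39_pm_012_s k40_pm_012_s

theorem s120_pm_012_s : ∃ t, chk3 f_pm_012_s t 20 5 1 = true := ex3_a k38_pm_012_s s119_pm_012_s

theorem s121_pm_012_s : ∃ t, chk3 f_pm_012_s t 10 5 1 = true := ex3_a s120_pm_012_s k41_pm_012_s

theorem s122_pm_012_s : ∃ t, chk3 f_pm_012_s t 10 2 1 = true := ex3_b k37_pm_012_s s121_pm_012_s

theorem s123_pm_012_s : ∃ t, chk3 f_pm_012_s t 5 2 1 = true := ex3_a s122_pm_012_s k42_pm_012_s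

theorem s124_pm_012_s : ∃ t, chk3 f_pm_012_s t 5 1 1 = true := ex3_b s123_pm_012_s s118_pm_012_s

theorem s125_pm_012_s : ∃ t, chk3 f_pm_012_s t 39 14 1 = true := ex3_b k34_pm_012_s k35_pm_012_s

theorem s126_pm_012_s : ∃ t, chk3 f_pm_012_s t 38 14 1 = true := ex3_b k32_pm_012_s k33_pm_012_s

theorem s127_pm_012_s : ∃ t, chk3 f_pm_012_s t 19 14 1 = true := ex3_a s126_pm_012_s s125_pm_012_s

theorem s128_pm_012_s : ∃ t, chk3 f_pm_012_s t 19 7 1 = true := ex3_b s127_pm_012_s k36_pm_012_s

theorem s129_pm_012_s : ∃ t, chk3 f_pm_012_s t 18 15 1 = true := ex3_b k30_pm_012_s k31_pm_012_s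

theorem s130_pm_012_s : ∃ t, chk3 f_pm_012_s t 36 29 1 = true := ex3_b k27_pm_012_s k28_pm_012_s

theorem s131_pm_012_s : ∃ t, chk3 f_pm_012_s t 18 29 1 = true := ex3_a s130_pm_012_s k29_pm_012_s

theorem s132_pm_012_s : ∃ t, chk3 f_pm_012_s t 37 28 1 = true := ex3_a k25_pm_012_s k26_pm_012_s

theorem s133_pm_012_s : ∃ t, chk3 f_pm_012_s t 18 28 1 = true := ex3_a k24_pm_012_s s132_pm_012_s

theorem s134_pm_012_s : ∃ t, chk3 f_pm_012_s t 18 14 1 = true := ex3_b s133_pm_012_s s131_pm_012_s

theorem s135_pm_012_s : ∃ t, chk3 f_pm_012_s t 18 7 1 = true := ex3_b s134_pm_012_s s129_pm_012_s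

theorem s136_pm_012_s : ∃ t, chk3 f_pm_012_s t 9 7 1 = true := ex3_a s135_pm_012_s s128_pm_012_s

theorem s137_pm_012_s : ∃ t, chk3 f_pm_012_s t 17 31 1 = true := ex3_b k22_pm_012_s k23_pm_012_s

theorem s138_pm_012_s : ∃ t, chk3 f_pm_012_s t 34 61 1 = true := ex3_a k19_pm_012_s k20_pm_012_s

theorem s139_pm_012_s : ∃ t, chk3 f_pm_012_s t 34 30 1 = true := ex3_b k18_pm_012_s s138_pm_012_s

theorem s140_pm_012_s : ∃ t, chk3 f_pm_012_s t 17 30 1 = true := ex3_a s139_pm_012_s k21_pm_012_s

theorem s141_pm_012_s : ∃ t, chk3 f_pm_012_s t 17 15 1 = true := ex3_b s140_pm_012_s s137_pm_012_s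

theorem s142_pm_012_s : ∃ t, chk3 f_pm_012_s t 33 63 1 = true := ex3_b k16_pm_012_s k17_pm_012_s

theorem s143_pm_012_s : ∃ t, chk3 f_pm_012_s t 16 63 1 = true := ex3_a k15_pm_012_s s142_pm_012_s

theorem s144_pm_012_s : ∃ t, chk3 f_pm_012_s t 67 62 1 = true := ex3_b k13_pm_012_s k14_pm_012_s

theorem s145_pm_012_s : ∃ t, chk3 f_pm_012_s t 66 125 1 = true := ex3_b k11_pm_012_s k12_pm_012_s

theorem s146_pm_012_s : ∃ t, chk3 f_pm_012_s t 66 62 1 = true := ex3_b k10_pm_012_s s145_pm_012_s

theorem s147_pm_012_s : ∃ t, chk3 f_pm_012_s t 33 62 1 = true := ex3_a s146_pm_012_s s144_pm_012_s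

theorem s148_pm_012_s : ∃ t, chk3 f_pm_012_s t 16 62 1 = true := ex3_a k9_pm_012_s s147_pm_012_s

theorem s149_pm_012_s : ∃ t, chk3 f_pm_012_s t 16 31 1 = true := ex3_b s148_pm_012_s s143_pm_012_s

theorem s150_pm_012_s : ∃ t, chk3 f_pm_012_s t 16 15 1 = true := ex3_b k8_pm_012_s s149_pm_012_s

theorem s151_pm_012_s : ∃ t, chk3 f_pm_012_s t 8 15 1 = true := ex3_a s150_pm_012_s s141_pm_012_s

theorem s152_pm_012_s : ∃ t, chk3 f_pm_012_s t 8 7 1 = true := ex3_b k7_pm_012_s s151_pm_012_s

theorem s153_pm_012_s : ∃ t, chk3 f_pm_012_s t 4 7 1 = true := ex3_a s152_pm_012_s s136_pm_012_s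

theorem s154_pm_012_s : ∃ t, chk3 f_pm_012_s t 39 13 1 = true := ex3_b k5_pm_012_s k6_pm_012_s

theorem s155_pm_012_s : ∃ t, chk3 f_pm_012_s t 19 13 1 = true := ex3_a k4_pm_012_s s154_pm_012_s

theorem s156_pm_012_s : ∃ t, chk3 f_pm_012_s t 19 6 1 = true := ex3_b k3_pm_012_s s155_pm_012_s

theorem s157_pm_012_s : ∃ t, chk3 f_pm_012_s t 9 6 1 = true := ex3_a k2_pm_012_s s156_pm_012_s

theorem s158_pm_012_s : ∃ t, chk3 f_pm_012_s t 4 6 1 = true := ex3_a k1_pm_012_s s157_pm_012_s

theorem s159_pm_012_s : ∃ t, chk3 f_pm_012_s t 4 3 1 = true := ex3_b s158_pm_012_s s153_pm_012_s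

theorem s160_pm_012_s : ∃ t, chk3 f_pm_012_s t 4 1 1 = true := ex3_b k0_pm_012_s s159_pm_012_s

theorem s161_pm_012_s : ∃ t, chk3 f_pm_012_s t 2 1 1 = true := ex3_a s160_pm_012_s s124_pm_012_s

theorem s162_pm_012_s : ∃ t, chk3 f_pm_012_s t 1 1 1 = true := ex3_a s161_pm_012_s s85_pm_012_s

theorem c_pm_012_s : CertNE 0 536870912 536870912 536870912 649613803 48318383 3 eng mog cd0q0 cd0q1 pd2 true true false .pnp 0 1 2
    ndB0q0 ndB0q1 pcB2 cut_pm_012_s Ext.none :=
  certNE2 (fam := true) (s1 := true) (s2 := false) (a := 0) (b := 1) (c := 2) (cn := .pnp) (n1 := ndB0q0) (n2 := ndB0q1) (pc := pcB2) (cut := cut_pm_012_s) (xt := Ext.none) (P1 := 0) (W1 := 536870912) (P2 := 536870912) (W2 := 536870912) (P3 := 649613803) (W3 := 48318383) (N0 := 3) (En := eng) (mo := mog) (C1 := cd0q0) (C2 := cd0q1) (C3 := pd2)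
    rfl (fun _ => rfl) s162_pm_012_s

noncomputable def cut_pm_012_t : Cut := Cut.of [[⟨3, 0, 0, 2845415833⟩], [⟨0, 0, 0, 33554432⟩, ⟨1, 1, 0, 33554432⟩, ⟨2, 1, 0, 33554432⟩]]

noncomputable def f_pm_012_t : ℕ → ℕ → ℕ → ℕ → Bool := onCell 0 536870912 536870912 536870912 649613803 48318383
    (rowNE 3 eng mog cd0q0 cd0q1 pd2 0 true true false .pnp 0 1 2 (qsf 0 536870912 536870912 536870912 2) ndB0q0 ndB0q1 pcB2 cut_pm_012_t Ext.none)

def k0_pm_012_t : ∃ t, chk3 f_pm_012_t t 1 1 1 = true :=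
  ⟨(l 6), by decide +kernel⟩

theorem c_pm_012_t : CertNE 0 536870912 536870912 536870912 649613803 48318383 3 eng mog cd0q0 cd0q1 pd2 true true false .pnp 0 1 2
    ndB0q0 ndB0q1 pcB2 cut_pm_012_t Ext.none :=
  certNE0 (fam := true) (s1 := true) (s2 := false) (a := 0) (b := 1) (c := 2) (cn := .pnp) (n1 := ndB0q0) (n2 := ndB0q1) (pc := pcB2) (cut := cut_pm_012_t) (xt := Ext.none) (P1 := 0) (W1 := 536870912) (P2 := 536870912) (W2 := 536870912) (P3 := 649613803) (W3 := 48318383) (N0 := 3) (En := eng) (mo := mog) (C1 := cd0q0) (C2 := cd0q1) (C3 := pd2)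
    rfl k0_pm_012_t

noncomputable def cut_pm_022_s : Cut := Cut.of [[⟨4, 0, 0, 1449551462⟩], [⟨0, 0, 0, 67108864⟩, ⟨1, 1, 0, 67108864⟩, ⟨2, 1, 0, 67108864⟩]]

noncomputable def f_pm_022_s : ℕ → ℕ → ℕ → ℕ → Bool := onCell 1073741824 536870912 0 536870912 649613803 48318383
    (rowNE 3 eng mog cd0q0 cd0q2 pd2 2 true true false .pp 0 2 2 (qsf 0 536870912 0 536870912 2) ndB0q0 ndB0q2 pcB2 cut_pm_022_s Ext.none)

def k0_pm_022_s : ∃ t, chk3 f_pm_022_s t 8 1 1 = true :=
  ⟨(b (l 1) (b (l 1) (b (a (l 1) (b (a (l 1) (a (l 1) (b (l 1) (c (l 16642240) (l 16635088))))) (a (l 14) (a (l 14) (a (l 14) (b (l 16652640) (l 16650752))))))) (a (l 14) (a (l 14) (a (l 14) (a (l 14) (b (b (l 16679896) (l 16692256)) (b (b (l 16696368) (l 16698888)) (b (l 16701152) (b (l 16702656) (l 16703544)))))))))))), by decide +kernel⟩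

def k1_pm_022_s : ∃ t, chk3 f_pm_022_s t 9 2 1 = true :=
  ⟨(l 6), by decide +kernel⟩

def k2_pm_022_s : ∃ t, chk3 f_pm_022_s t 9 6 1 = true :=
  ⟨(a (b (l 1) (a (a (l 1) (b (l 1) (b (l 16592792) (l 16607136)))) (c (b (a (l 16576656) (l 16597880)) (b (a (l 16596656) (l 16595648)) (l 16577192))) (b (b (l 16559080) (l 16573640)) (b (l 78416355143) (l 16601488)))))) (b (l 6) (a (c (b (b (l 16507688) (l 16582200)) (l 16599120)) (b (b (l 16561688) (a (l 16574400) (l 16574480))) (b (l 16523992) (l 16598936)))) (b (l 6) (b (l 16587624) (l 16594440)))))), by decide +kernel⟩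

def k3_pm_022_s : ∃ t, chk3 f_pm_022_s t 9 7 1 = true :=
  ⟨(b (b (a (a (b (a (l 16622560) (l 16620928)) (a (l 16647160) (c (l 16636920) (l 16631024)))) (c (b (l 16620656) (l 16632232)) (b (a (l 16615560) (l 16613720)) (l 16627328)))) (a (c (l 16617584) (l 16616272)) (b (l 16601216) (l 16607880)))) (b (a (a (a (c (l 16652768) (l 16647456)) (l 16647048)) (l 16662720)) (a (l 16629480) (c (l 16613784) (l 16615272)))) (a (a (a (l 16663544) (l 16659504)) (l 16673048)) (a (c (l 16635104) (l 16636904)) (c (l 16620192) (l 16620776)))))) (b (a (b (a (c (l 16695088) (l 16672480)) (c (l 16657448) (l 16659288))) (a (a (l 16706576) (c (l 16676232) (l 16677616))) (c (c (l 16684544) (l 16705600)) (l 16664296)))) (a (a (b (l 16650576) (l 16671992)) (b (l 16658496) (l 16642712))) (b (a (l 16629576) (l 16621840)) (c (l 16652480) (l 16630136))))) (b (a (a (a (b (l 16689664) (l 16692144)) (a (l 16694720) (l 16679768))) (a (b (l 16671920) (l 16674240)) (l 16685360))) (a (a (l 16655752) (l 16647280))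 (a (l 16638992) (l 16651856)))) (a (a (b (a (l 16694360) (l 16685304)) (a (c (b (l 16696360) (l 16697392)) (l 16701008)) (a (l 16699880) (l 16684832)))) (b (a (l 16676296) (l 16667448)) (a (c (l 16679048) (l 16677176)) (c (l 16670328) (l 16668040))))) (a (a (b (l 16658680) (c (l 16661696) (l 16658968))) (b (l 16650080) (c (l 16653224) (l 16650048)))) (a (b (l 16641648) (c (l 16644920) (l 16641280))) (b (l 16633384) (c (l 16636776) (l 16632680))))))))), by decide +kernel⟩

def k4_pm_022_s : ∃ t, chk3 f_pm_022_s t 5 2 1 = true :=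
  ⟨(l 6), by decide +kernel⟩

def k5_pm_022_s : ∃ t, chk3 f_pm_022_s t 5 6 1 = true :=
  ⟨(a (a (b (l 6) (a (b (l 6) (c (l 16577000) (l 16579856))) (l 6))) (l 6)) (l 6)), by decide +kernel⟩

def k6_pm_022_s : ∃ t, chk3 f_pm_022_s t 20 7 1 = true :=
  ⟨(b (a (b (c (b (l 16587144) (l 16593824)) (l 16591888)) (c (b (l 16600232) (l 16606240)) (b (l 16600352) (l 16605552)))) (a (b (b (l 16578216) (l 16584288)) (b (l 16590080) (l 16595456))) (a (b (l 16577008) (l 16609304)) (a (b (l 16575160) (l 16607408)) (b (c (l 16595928) (l 16616192)) (b (l 16624824) (c (l 16589384) (l 16608232)))))))) (b (a (a (b (l 16614344) (l 16619000)) (b (l 16607128) (l 16611584))) (a (b (l 16600296) (l 16625536)) (a (b (l 16595552) (l 16599680)) (a (b (l 16593616) (l 16597704)) (a (a (a (l 16616264) (b (l 16593424) (c (l 16599344) (l 16595944)))) (l 16595344)) (l 16615632)))))) (b (a (a (c (l 16624696) (l 16621512)) (b (l 16614496) (l 16616168))) (a (a (l 16609840) (l 16606344)) (a (b (l 16602328) (l 16603800))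 (a (c (l 16603304) (l 16598976)) (a (a (a (l 16600576) (a (l 16600648) (l 16621888))) (l 16600664)) (l 16599936)))))) (b (a (a (l 16625344) (l 16617552)) (a (a (l 16611888) (l 16608296)) (a (a (l 16605720) (l 16604144)) (a (c (l 16605408) (l 16600432)) (a (a (a (l 16602384) (a (l 16602472) (c (l 16605120) (l 16600360)))) (l 16602488)) (l 16601736)))))) (a (a (c (l 16628840) (l 16624296)) (a (l 16620520) (l 16616632))) (a (a (c (l 16615504) (l 16610232)) (c (l 16611920) (l 16606488))) (a (a (l 16606544) (c (l 16607720) (l 16602176))) (a (a (l 16603856) (c (l 16606048) (l 16600600))) (a (a (a (l 16603152) (a (l 16603240) (a (a (l 16603368) (c (l 16606136) (l 16600912))) (l 16603560)))) (l 16603272)) (l 16602496)))))))))), by decide +kernel⟩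

def k7_pm_022_s : ∃ t, chk3 f_pm_022_s t 21 7 1 = true :=
  ⟨(a (b (b (l 6) (b (l 16596608) (l 16601560))) (b (b (a (l 16588464) (l 16581504)) (a (l 16592384) (l 16585096))) (b (a (l 16595568) (a (l 16589784) (l 16586048))) (b (a (l 16597216) (a (l 16591224) (l 16587328))) (a (c (l 16600600) (l 16595064)) (a (l 16591728) (a (l 16588680) (l 16586776)))))))) (b (b (l 6) (b (l 6) (l 16570024))) (b (b (l 16573440) (l 16576200)) (b (b (l 16577744) (l 16578448)) (b (l 16599808) (a (l 16603344) (l 16575248))))))), by decide +kernel⟩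

def k8_pm_022_s : ∃ t, chk3 f_pm_022_s t 11 7 1 = true :=
  ⟨(b (l 6) (b (a (a (a (l 16608672) (l 16582088)) (l 6)) (l 6)) (a (b (a (l 16586304) (l 16552344)) (a (b (l 16565104) (a (l 16568064) (l 16560856))) (b (l 16551256) (c (l 16553416) (l 16546584))))) (b (l 6) (a (b (l 6) (c (l 16539528) (l 16532048))) (l 6)))))), by decide +kernel⟩

def k9_pm_022_s : ∃ t, chk3 f_pm_022_s t 3 1 1 = true :=
  ⟨(b (l 6) (l 6)), by decide +kernel⟩

theorem s10_pm_022_s : ∃ t, chk3 f_pm_022_s t 10 7 1 = true := ex3_a k6_pm_022_s k7_pm_022_s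

theorem s11_pm_022_s : ∃ t, chk3 f_pm_022_s t 5 7 1 = true := ex3_a s10_pm_022_s k8_pm_022_s

theorem s12_pm_022_s : ∃ t, chk3 f_pm_022_s t 5 3 1 = true := ex3_b k5_pm_022_s s11_pm_022_s

theorem s13_pm_022_s : ∃ t, chk3 f_pm_022_s t 5 1 1 = true := ex3_b k4_pm_022_s s12_pm_022_s

theorem s14_pm_022_s : ∃ t, chk3 f_pm_022_s t 9 3 1 = true := ex3_b k2_pm_022_s k3_pm_022_s

theorem s15_pm_022_s : ∃ t, chk3 f_pm_022_s t 9 1 1 = true := ex3_b k1_pm_022_s s14_pm_022_s

theorem s16_pm_022_s : ∃ t, chk3 f_pm_022_s t 4 1 1 = true := ex3_a k0_pm_022_s s15_pm_022_s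

theorem s17_pm_022_s : ∃ t, chk3 f_pm_022_s t 2 1 1 = true := ex3_a s16_pm_022_s s13_pm_022_s

theorem s18_pm_022_s : ∃ t, chk3 f_pm_022_s t 1 1 1 = true := ex3_a s17_pm_022_s k9_pm_022_s

theorem c_pm_022_s : CertNE 0 536870912 0 536870912 649613803 48318383 3 eng mog cd0q0 cd0q2 pd2 true true false .pp 0 2 2
    ndB0q0 ndB0q2 pcB2 cut_pm_022_s Ext.none :=
  certNE2 (fam := true) (s1 := true) (s2 := false) (a := 0) (b := 2) (c := 2) (cn := .pp) (n1 := ndB0q0) (n2 := ndB0q2) (pc := pcB2) (cut := cut_pm_022_s) (xt := Ext.none) (P1 := 0) (W1 := 536870912) (P2 := 0) (W2 := 536870912) (P3 := 649613803) (W3 := 48318383) (N0 := 3) (En := eng) (mo := mog) (C1 := cd0q0) (C2 := cd0q2) (C3 := pd2)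
    rfl (fun _ => rfl) s18_pm_022_s

noncomputable def cut_pm_022_t : Cut := Cut.of [[⟨3, 0, 0, 2845415833⟩], [⟨0, 0, 0, 67108864⟩, ⟨1, 1, 0, 67108864⟩, ⟨2, 1, 0, 67108864⟩]]

noncomputable def f_pm_022_t : ℕ → ℕ → ℕ → ℕ → Bool := onCell 1073741824 536870912 0 536870912 649613803 48318383
    (rowNE 3 eng mog cd0q0 cd0q2 pd2 2 true true false .pp 0 2 2 (qsf 0 536870912 0 536870912 2) ndB0q0 ndB0q2 pcB2 cut_pm_022_t Ext.none)

def k0_pm_022_t : ∃ t, chk3 f_pm_022_t t 1 1 1 = true :=
  ⟨(a (l 6) (b (l 6) (l 6))), by decide +kernel⟩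

theorem c_pm_022_t : CertNE 0 536870912 0 536870912 649613803 48318383 3 eng mog cd0q0 cd0q2 pd2 true true false .pp 0 2 2
    ndB0q0 ndB0q2 pcB2 cut_pm_022_t Ext.none :=
  certNE2 (fam := true) (s1 := true) (s2 := false) (a := 0) (b := 2) (c := 2) (cn := .pp) (n1 := ndB0q0) (n2 := ndB0q2) (pc := pcB2) (cut := cut_pm_022_t) (xt := Ext.none) (P1 := 0) (W1 := 536870912) (P2 := 0) (W2 := 536870912) (P3 := 649613803) (W3 := 48318383) (N0 := 3) (En := eng) (mo := mog) (C1 := cd0q0) (C2 := cd0q2) (C3 := pd2)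
    rfl (fun _ => rfl) k0_pm_022_t

noncomputable def cut_pm_023_s : Cut := Cut.of [[⟨4, 0, 0, 1449551462⟩]]

noncomputable def f_pm_023_s : ℕ → ℕ → ℕ → ℕ → Bool := onCell 1610612736 536870912 0 536870912 649613803 48318383
    (rowNE 3 eng mog cd0q0 cd0q2 pd3 2 true true false .up 0 2 3 (qsf 0 536870912 0 536870912 3) ndB0q0 ndB0q2 pcB3 cut_pm_023_s Ext.none)

def k0_pm_023_s : ∃ t, chk3 f_pm_023_s t 1 1 1 = true :=
  ⟨(l 6), by decide +kernel⟩

theorem c_pm_023_s : CertNE 0 536870912 0 536870912 649613803 48318383 3 eng mog cd0q0 cd0q2 pd3 true true false .up 0 2 3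
    ndB0q0 ndB0q2 pcB3 cut_pm_023_s Ext.none :=
  certNE2 (fam := true) (s1 := true) (s2 := false) (a := 0) (b := 2) (c := 3) (cn := .up) (n1 := ndB0q0) (n2 := ndB0q2) (pc := pcB3) (cut := cut_pm_023_s) (xt := Ext.none) (P1 := 0) (W1 := 536870912) (P2 := 0) (W2 := 536870912) (P3 := 649613803) (W3 := 48318383) (N0 := 3) (En := eng) (mo := mog) (C1 := cd0q0) (C2 := cd0q2) (C3 := pd3)
    rfl (fun _ => rfl) k0_pm_023_s

noncomputable def cut_pm_023_t : Cut := Cut.of [[⟨3, 0, 0, 2845415833⟩]]

noncomputable def f_pm_023_t : ℕ → ℕ → ℕ → ℕ → Bool := onCell 0 536870912 0 536870912 649613803 48318383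
    (rowNE 3 eng mog cd0q0 cd0q2 pd3 0 true true false .up 0 2 3 (qsf 0 536870912 0 536870912 3) ndB0q0 ndB0q2 pcB3 cut_pm_023_t Ext.none)

def k0_pm_023_t : ∃ t, chk3 f_pm_023_t t 1 1 1 = true :=
  ⟨(a (l 1) (b (a (a (l 1) (b (b (a (l 1) (a (l 6) (l 16660816))) (l 6)) (l 6))) (b (a (b (a (l 16684336) (l 16707664)) (l 6)) (b (a (b (l 16695664) (l 16679688)) (a (l 16705960) (l 16717576))) (a (l 16659672) (l 16727744)))) (a (l 6) (l 6)))) (l 6))), by decide +kernel⟩

theorem c_pm_023_t : CertNE 0 536870912 0 536870912 649613803 48318383 3 eng mog cd0q0 cd0q2 pd3 true true false .up 0 2 3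
    ndB0q0 ndB0q2 pcB3 cut_pm_023_t Ext.none :=
  certNE0 (fam := true) (s1 := true) (s2 := false) (a := 0) (b := 2) (c := 3) (cn := .up) (n1 := ndB0q0) (n2 := ndB0q2) (pc := pcB3) (cut := cut_pm_023_t) (xt := Ext.none) (P1 := 0) (W1 := 536870912) (P2 := 0) (W2 := 536870912) (P3 := 649613803) (W3 := 48318383) (N0 := 3) (En := eng) (mo := mog) (C1 := cd0q0) (C2 := cd0q2) (C3 := pd3)
    rfl k0_pm_023_t

noncomputable def cut_pm_101_s : Cut := Cut.of [[⟨4, 0, 0, 1449551462⟩], [⟨0, 1, 0, 67108864⟩, ⟨1, 0, 0, 67108864⟩, ⟨2, 1, 0, 67108864⟩]]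

noncomputable def f_pm_101_s : ℕ → ℕ → ℕ → ℕ → Bool := onCell 536870912 536870912 536870912 536870912 649613803 48318383
    (rowNE 3 eng mog cd0q1 cd0q0 pd1 1 true true false .npn 1 0 1 (qsf 536870912 536870912 0 536870912 1) ndB0q1 ndB0q0 pcB1 cut_pm_101_s Ext.none)

def k0_pm_101_s : ∃ t, chk3 f_pm_101_s t 1 1 1 = true :=
  ⟨(b (l 3) (a (l 3) (b (l 3) (a (l 3) (b (l 3) (a (l 3) (b (l 3) (a (l 3) (l 14))))))))), by decide +kernel⟩

theorem c_pm_101_s : CertNE 536870912 536870912 0 536870912 649613803 48318383 3 eng mog cd0q1 cd0q0 pd1 true true false .npn 1 0 1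
    ndB0q1 ndB0q0 pcB1 cut_pm_101_s Ext.none :=
  certNE1 (fam := true) (s1 := true) (s2 := false) (a := 1) (b := 0) (c := 1) (cn := .npn) (n1 := ndB0q1) (n2 := ndB0q0) (pc := pcB1) (cut := cut_pm_101_s) (xt := Ext.none) (P1 := 536870912) (W1 := 536870912) (P2 := 0) (W2 := 536870912) (P3 := 649613803) (W3 := 48318383) (N0 := 3) (En := eng) (mo := mog) (C1 := cd0q1) (C2 := cd0q0) (C3 := pd1)
    rfl (fun _ => rfl) k0_pm_101_s

noncomputable def cut_pm_101_t : Cut := Cut.of [[⟨3, 0, 0, 2845415833⟩], [⟨0, 1, 0, 67108864⟩, ⟨1, 0, 0, 67108864⟩, ⟨2, 1, 0, 67108864⟩]]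

noncomputable def f_pm_101_t : ℕ → ℕ → ℕ → ℕ → Bool := onCell 536870912 536870912 0 536870912 649613803 48318383
    (rowNE 3 eng mog cd0q1 cd0q0 pd1 0 true true false .npn 1 0 1 (qsf 536870912 536870912 0 536870912 1) ndB0q1 ndB0q0 pcB1 cut_pm_101_t Ext.none)

def k0_pm_101_t : ∃ t, chk3 f_pm_101_t t 1 1 1 = true :=
  ⟨(l 6), by decide +kernel⟩

theorem c_pm_101_t : CertNE 536870912 536870912 0 536870912 649613803 48318383 3 eng mog cd0q1 cd0q0 pd1 true true false .npn 1 0 1
    ndB0q1 ndB0q0 pcB1 cut_pm_101_t Ext.none :=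
  certNE0 (fam := true) (s1 := true) (s2 := false) (a := 1) (b := 0) (c := 1) (cn := .npn) (n1 := ndB0q1) (n2 := ndB0q0) (pc := pcB1) (cut := cut_pm_101_t) (xt := Ext.none) (P1 := 536870912) (W1 := 536870912) (P2 := 0) (W2 := 536870912) (P3 := 649613803) (W3 := 48318383) (N0 := 3) (En := eng) (mo := mog) (C1 := cd0q1) (C2 := cd0q0) (C3 := pd1)
    rfl k0_pm_101_t

end Pool.Agent.Strip051.G.I6050_6500.Tab.CS.BA00

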