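import Pool.Agent.Strip051.G.I6050_6500.Tab
import Pool.Agent.Strip051.PB.StripB

/-! # Strips, near vertex: certificates 1 (generated) -/

set_option linter.all false
set_option maxRecDepth 100000

namespace Pool.Agent.Strip051.G.I6050_6500.Tab.CS.BA00

open Pool.Agent.Strip051.PB Pool.Agent.Strip051.PB.T
open Pool.Agent.Strip051.G.I6050_6500.Tab

noncomputable def cut_pm_102_s : Cut := Cut.of [[⟨4, 0, 0, 1449551462⟩], [⟨0, 1, 0, 33554432⟩, ⟨1, 0, 0, 33554432⟩, ⟨2, 1, 0, 33554432⟩]]

noncomputable def f_pm_102_s : ℕ → ℕ → ℕ → ℕ → Bool := onCell 536870912 536870912 1073741824 536870912 649613803 48318383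
    (rowNE 3 eng mog cd0q1 cd0q0 pd2 1 true true false .npp 1 0 2 (qsf 536870912 536870912 0 536870912 2) ndB0q1 ndB0q0 pcB2 cut_pm_102_s Ext.none)

def k0_pm_102_s : ∃ t, chk3 f_pm_102_s t 2 4 1 = true :=
  ⟨(b (l 3) (l 3)), by decide +kernel⟩

def k1_pm_102_s : ∃ t, chk3 f_pm_102_s t 4 10 1 = true :=
  ⟨(b (b (l 3) (l 2)) (l 2)), by decide +kernel⟩

def k2_pm_102_s : ∃ t, chk3 f_pm_102_s t 5 40 1 = true :=
  ⟨(a (l 3) (b (l 3) (a (l 3) (b (a (l 3) (b (l 3) (a (l 3) (l 16777112)))) (a (b (l 3) (a (l 255181462343) (l 16777104))) (b (a (l 16777032) (l 16775704)) (l 16785168))))))), by decide +kernel⟩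

def k3_pm_102_s : ∃ t, chk3 f_pm_102_s t 5 82 1 = true :=
  ⟨(a (a (l 3) (b (l 3) (a (l 3) (b (l 3) (a (l 258402690311) (l 110226321639)))))) (a (b (a (l 3) (b (a (l 3) (l 211694926375)) (c (l 120426870359) (l 120426870487)))) (b (a (a (l 231559145991) (l 16782248)) (a (l 16776184) (l 16775208))) (b (a (l 16783056) (l 16785296)) (a (l 16781160) (l 16774400))))) (b (b (a (a (l 16782040) (l 16775448)) (c (l 16783544) (l 16782952))) (a (c (l 16785360) (l 16785008)) (a (l 16772624) (l 16771144)))) (a (b (c (l 16784408) (l 16784120)) (a (l 16773480) (l 16772512))) (a (l 16771664) (l 16770120)))))), by decide +kernel⟩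

def k4_pm_102_s : ∃ t, chk3 f_pm_102_s t 5 166 1 = true :=
  ⟨(a (a (a (l 2) (b (l 3) (b (l 134922379527) (l 16782232)))) (b (b (a (l 158007828215) (c (l 16781976) (l 16781928))) (a (l 16783016) (l 16781376))) (b (a (l 16781920) (l 16780792)) (a (l 16776112) (a (l 16775352) (l 16774800)))))) (a (b (a (a (l 16778088) (l 16774784)) (a (l 16774128) (l 16773400))) (a (b (l 16779632) (l 16773840)) (l 16772736))) (a (b (a (l 16772632) (l 16771568)) (l 16781504)) (b (a (l 16770160) (l 16768488)) (a (l 16769040) (c (l 16767640) (l 16766784))))))), by decide +kernel⟩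

def k5_pm_102_s : ∃ t, chk3 f_pm_102_s t 5 167 1 = true :=
  ⟨(a (a (a (l 2) (a (l 2) (b (b (l 16776264) (b (l 16775888) (l 16775536))) (b (b (b (l 16775120) (c (l 16785560) (l 16779720))) (l 16774400)) (l 16773968))))) (b (b (a (a (l 16786352) (l 16775392)) (a (l 16774840) (l 16774224))) (b (a (l 16775336) (l 16784488)) (a (l 16774712) (l 16784056)))) (b (b (b (a (l 16774320) (l 16783720)) (b (a (l 16774080) (l 16783528)) (a (c (l 16774344) (l 16773488)) (a (l 16773184) (l 16772680))))) (a (l 16773680) (l 16772696))) (a (l 16773200) (l 16772176))))) (a (a (b (b (l 16783752) (a (l 16772872) (l 16772240))) (b (b (b (l 16772088) (b (l 16771944) (b (b (l 16771824) (a (l 16772152) (l 16792424))) (l 16771720)))) (l 16771512)) (l 16770968))) (b (b (l 16782368) (c (l 16787328) (l 16786488))) (b (b (b (l 16791576) (b (a (l 16791792) (l 16769272)) (b (b (l 16769320) (l 16789584)) (l 16768280)))) (l 16768064)) (l 16767480)))) (b (b (a (l 16791104) (a (l 16767976) (l 16765744))) (a (b (l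 16790512) (c (l 16790216) (l 16789320))) (a (l 16792264) (l 16742312)))) (b (b (b (a (l 16767376) (l 16762056)) (b (a (l 16765784) (l 16760232)) (a (a (l 16765296) (l 16762592)) (c (l 16763824) (l 16757880))))) (a (l 16762856) (l 16756984))) (a (l 16762144) (l 16756280)))))), by decide +kernel⟩

def k6_pm_102_s : ∃ t, chk3 f_pm_102_s t 5 21 1 = true :=
  ⟨(a (a (b (a (l 2) (b (l 16776856) (l 2))) (l 2)) (b (a (a (l 16778784) (l 16778048)) (a (l 16777296) (l 16787024))) (a (l 16779704) (l 16777440)))) (a (a (b (a (l 16786256) (b (l 16767312) (l 16761584))) (l 16774944)) (a (b (l 16783544) (l 16772592)) (b (l 16759688) (l 16748552)))) (a (b (c (l 16765864) (l 16775536)) (l 16742616)) (b (a (l 16770984) (l 16767520)) (l 16754968))))), by decide +kernel⟩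

def k7_pm_102_s : ∃ t, chk3 f_pm_102_s t 2 11 1 = true :=
  ⟨(a (l 2) (a (a (l 2) (b (a (l 2) (b (l 16747616) (l 2))) (l 2))) (b (a (b (a (l 16744272) (l 16781928)) (a (l 16735816) (l 16730960))) (a (b (l 16731912) (l 16722912)) (a (l 16760632) (l 16754656)))) (a (a (l 2) (l 16719632)) (a (b (l 16715168) (l 16708464)) (b (l 16701528) (l 16694464))))))), by decide +kernel⟩

def k8_pm_102_s : ∃ t, chk3 f_pm_102_s t 2 3 1 = true :=
  ⟨(a (l 2) (b (a (l 2) (b (a (l 2) (b (b (a (l 2) (l 16689408)) (l 2)) (l 2))) (l 2))) (l 2))), by decide +kernel⟩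

def k9_pm_102_s : ∃ t, chk3 f_pm_102_s t 6 8 1 = true :=
  ⟨(l 3), by decide +kernel⟩

def k10_pm_102_s : ∃ t, chk3 f_pm_102_s t 6 18 1 = true :=
  ⟨(a (l 3) (b (l 3) (a (l 3) (b (l 3) (a (l 3) (b (l 3) (a (l 3) (b (a (l 3) (b (a (l 3) (l 135996115271)) (a (l 136532986183) (l 16776024)))) (b (a (a (l 3) (l 134385502615)) (l 16775280)) (a (a (l 130627406279) (l 16775984)) (l 16773800))))))))))), by decide +kernel⟩

def k11_pm_102_s : ∃ t, chk3 f_pm_102_s t 12 19 1 = true :=
  ⟨(b (l 3) (a (l 3) (b (a (l 3) (b (l 3) (a (l 3) (b (l 3) (a (l 3) (l 314774128887)))))) (a (b (l 3) (a (b (l 3) (l 306721065687)) (b (l 202568115639) (l 16781472)))) (b (a (b (l 3) (a (l 287393716743) (l 97341413127))) (b (a (c (l 140827957607) (l 173040212295)) (c (l 16776136) (l 16776128))) (a (l 16775248) (l 16773120)))) (a (b (l 16779264) (l 16772440)) (b (a (l 16772288) (l 16770168)) (a (l 16769384) (l 16767416))))))))), by decide +kernel⟩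

def k12_pm_102_s : ∃ t, chk3 f_pm_102_s t 13 38 1 = true :=
  ⟨(a (b (l 3) (a (l 3) (b (a (l 3) (a (l 3) (b (l 3) (b (l 3) (l 173040209911))))) (a (a (l 3) (b (l 3) (b (l 219747979431) (l 16779376)))) (b (a (b (l 308868548359) (l 120426855143)) (c (l 16775536) (l 16775512))) (a (l 16775016) (l 16772424))))))) (b (a (b (a (l 3) (b (l 3) (l 335175224951))) (a (b (l 3) (a (l 3) (c (l 294909905095) (l 286856841287)))) (a (b (l 309405419863) (a (b (l 245517781335) (l 16776640)) (l 16778656))) (b (a (a (l 192904432983) (l 113984409047)) (l 16778896)) (l 16773992))))) (b (a (a (b (l 3) (b (a (l 3) (l 16777136)) (l 16779040))) (b (a (a (l 262160778183) (l 155860338567)) (b (l 123648084551) (l 16775896))) (l 16774360))) (b (a (l 16774472) (l 16771568)) (a (l 16771496) (a (l 16771936) (c (l 16768016) (l 16769128)))))) (a (a (b (l 16774200) (l 16771256)) (b (l 16771392) (a (l 16769184) (l 16770448)))) (a (a (b (l 16769264) (l 16766480)) (b (l 16769848) (l 16765064))) (b (c (l 16765880)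 (l 16765736)) (l 16762984)))))) (a (b (a (b (a (c (l 276656293735) (l 265918875383)) (a (a (l 122574343607) (l 16776704)) (l 16775720))) (a (b (l 16779352) (l 16775224)) (l 16773320))) (b (a (l 16773696) (l 16770992)) (a (l 16770616) (c (l 16770568) (l 16769824))))) (a (b (a (l 16772896) (l 16770224)) (a (l 16769800) (c (l 16767184) (l 16767152)))) (b (a (c (l 16767568) (l 16770128)) (l 16764960)) (a (l 16764624) (l 16762056))))) (a (b (b (a (a (l 16768936) (l 16770232)) (c (l 16765648) (l 16765592))) (a (l 16767920) (l 16762608))) (b (a (l 16762344) (l 16759760)) (l 16760864))) (b (c (a (l 16761376) (l 16758672)) (a (l 16761416) (l 16761400))) (b (c (l 16755760) (l 16755984)) (l 16758408))))))), by decide +kernel⟩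

def k13_pm_102_s : ∃ t, chk3 f_pm_102_s t 26 39 1 = true :=
  ⟨(b (a (b (a (l 3) (b (a (l 3) (l 295983647047)) (a (l 246054650023) (c (l 16776240) (l 16776224))))) (a (a (b (l 3) (l 83919637223)) (b (c (l 145659795159) (l 146733536951)) (l 16774752))) (b (a (l 16775520) (l 16773144)) (l 16771232)))) (b (a (a (b (a (l 134922372775) (l 16776304)) (l 16773816)) (b (l 16774448) (l 16771328))) (b (a (l 16771904) (l 16769312)) (a (l 16768792) (c (l 16766344) (l 16766336))))) (a (b (a (l 16770704) (l 16768232)) (a (l 16767656) (l 16765416))) (b (a (c (l 16765888) (l 16765880)) (l 16763568)) (c (l 16762064) (l 16762072)))))) (a (b (a (b (l 16772800) (a (l 16770920) (l 16768688))) (b (a (l 16769344) (c (l 16767072) (l 16767080))) (a (l 16766568) (l 16764544)))) (a (a (b (l 16768048) (l 16765584)) (b (l 16766064) (l 16763768))) (c (l 16762064) (l 16767872)))) (b (a (b (c (l 16763888) (l 16763896)) (l 16761472)) (a (b (l 16760656) (l 16758232)) (b (l 16758416) (l 16755976)))) (b (a (a (l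 16760160) (l 16758040)) (a (l 16755856) (l 16753592))) (a (c (l 16756848) (l 16756656)) (a (l 16753512) (l 16751240))))))), by decide +kernel⟩

def k14_pm_102_s : ∃ t, chk3 f_pm_102_s t 27 39 1 = true :=
  ⟨(b (a (a (b (b (a (c (l 16766776) (l 16766760)) (l 16764264)) (l 16764024)) (c (b (l 16760008) (l 16757416)) (b (l 16760024) (l 16757392)))) (b (b (l 16763144) (l 16759120)) (c (l 16759088) (b (l 16757752) (a (l 16753744) (l 16751296)))))) (a (b (b (l 16758136) (l 16755480)) (a (b (l 16751488) (l 16748928)) (b (l 16749024) (c (l 16746440) (l 16746384))))) (a (b (l 16755680) (a (b (l 16747184) (l 16744600)) (b (l 16745936) (l 16743328)))) (b (b (l 16749248) (c (l 16746504) (l 16746664))) (b (l 16744696) (l 16741408)))))) (a (b (a (a (b (l 16766584) (l 16753656)) (b (l 16753720) (l 16751280))) (b (c (l 16750104) (l 16755192)) (a (l 16748848) (c (l 16746472) (l 16746200))))) (b (a (a (l 16751264) (l 16748872)) (a (c (l 16746536) (l 16751416)) (c (l 16743968) (l 16743616)))) (a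 (a (l 16748904) (c (l 16746616) (l 16751432))) (a (c (l 16744032) (l 16743600)) (l 16741248))))) (b (b (a (a (c (l 16746440) (l 16746272)) (c (l 16743896) (l 16743760))) (a (l 16741336) (l 16738768))) (a (a (c (l 16743920) (l 16743664)) (l 16741280)) (c (l 16737672) (l 16737288)))) (a (c (b (l 16739984) (l 16737328)) (b (l 16739736) (l 16737072))) (c (b (l 16734688) (l 16732008)) (b (l 16734616) (l 16731936))))))), by decide +kernel⟩

def k15_pm_102_s : ∃ t, chk3 f_pm_102_s t 14 8 1 = true :=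
  ⟨(b (l 3) (a (l 3) (b (l 3) (a (l 3) (b (a (l 3) (b (l 3) (a (l 3) (b (a (l 3) (l 276119422167)) (b (a (l 3) (c (l 61371055847) (l 112373793831))) (a (l 173040206487) (l 16776064))))))) (b (a (a (l 3) (a (l 3) (b (l 3) (b (l 3) (l 181630141703))))) (a (b (a (l 295446775079) (b (l 233706619479) (l 75329701239))) (a (b (l 130627404807) (l 16776208)) (l 16775184))) (b (a (c (l 16775944) (l 16777248)) (l 16774304)) (a (b (l 16774152) (l 16772976)) (b (l 16772536) (l 16771344)))))) (a (a (b (l 3) (b (a (l 3) (c (l 131701146487) (l 130627404903))) (a (l 181630141143) (l 16776224)))) (b (b (a (l 244444037751) (l 16779256)) (a (a (l 141901693735) (l 16776632)) (l 16775448))) (a (l 16775256) (l 16776328)))) (b (a (a (l 16774440) (a (l 16773256) (l 16775080))) (a (c (l 16773888) (l 16773856)) (l 16769688))) (a (a (a (l 16775160) (l 16774360)) (l 16770568)) (l 16768200)))))))))), by decide +kernel⟩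

def k16_pm_102_s : ∃ t, chk3 f_pm_102_s t 30 16 1 = true :=
  ⟨(b (l 3) (a (l 3) (b (l 3) (a (l 3) (b (l 3) (a (l 3) (a (b (l 3) (a (a (l 3) (b (l 3) (l 222432330151))) (b (l 274508809015) (b (c (l 123648082263) (l 129016791351)) (l 16776704))))) (a (b (l 3) (b (b (l 170892722551) (l 41506832791)) (l 16776016))) (b (b (l 3) (b (l 225116684695) (a (l 153712853239) (l 16776880)))) (b (l 16776232) (b (l 16775328) (l 16774736)))))))))))), by decide +kernel⟩

def k17_pm_102_s : ∃ t, chk3 f_pm_102_s t 62 32 1 = true :=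
  ⟨(b (l 3) (a (l 3) (b (l 3) (a (l 3) (a (l 3) (b (l 3) (a (l 3) (b (l 3) (a (b (l 3) (a (l 261087035767) (b (l 270750712071) (a (l 129016791223) (l 16777120))))) (a (b (l 3) (b (a (l 155860336727) (l 16777144)) (l 16776944))) (b (l 14) (l 16776832)))))))))))), by decide +kernel⟩

def k18_pm_102_s : ∃ t, chk3 f_pm_102_s t 124 66 1 = true :=
  ⟨(b (l 3) (a (l 3) (b (l 3) (a (l 3) (b (a (l 3) (b (l 263771390599) (a (l 229948522839) (a (l 103783858439) (l 16776984))))) (b (c (a (l 218137362967) (l 16777448)) (a (l 228874780471) (c (l 16777456) (l 16777456)))) (a (a (l 176261431479) (l 16777288)) (l 16776248)))))))), by decide +kernel⟩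

def k19_pm_102_s : ∃ t, chk3 f_pm_102_s t 250 66 1 = true :=
  ⟨(a (b (l 3) (a (b (b (l 3) (a (l 277730034423) (b (l 3) (b (l 176261431399) (l 16777744))))) (b (a (b (a (l 131701145863) (l 16777040)) (l 16776624)) (l 16776432)) (b (l 16775864) (a (l 16775552) (l 16775072))))) (b (b (b (l 3) (b (l 256255197719) (a (l 3) (c (l 105931342103) (l 111300051207))))) (b (a (b (l 205789331591) (l 79087796567)) (l 16776832)) (l 16776536))) (b (b (l 16776000) (a (l 16775704) (l 16775224))) (b (a (l 16775152) (l 16774712)) (l 16774416)))))) (b (b (l 3) (b (b (l 3) (a (l 3) (c (l 247665263287) (l 258939551031)))) (b (a (l 3) (a (a (l 3) (l 195588784327)) (a (b (l 177872044103) (l 16777056)) (l 16776944)))) (b (a (l 3) (a (a (l 133311758519) (l 16777024)) (l 16776672))) (a (a (l 3) (l 169282109527)) (l 16776640)))))) (b (b (a (b (a (b (l 269676970343) (c (l 134922371271) (l 141364822199))) (c (l 16777600) (l 16777432))) (a (l 16777296) (l 16776424))) (b (l 16776240) (a (l 16775944) (c (l 16775480)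 (l 16775480))))) (a (b (l 16776120) (a (l 16775832) (l 16775368))) (a (b (l 16775424) (l 16774880)) (l 16774656)))) (b (b (a (a (l 16775296) (l 16774824)) (l 16774080)) (l 16774024)) (c (l 16773216) (l 16773168)))))), by decide +kernel⟩

def k20_pm_102_s : ∃ t, chk3 f_pm_102_s t 251 66 1 = true :=
  ⟨(b (b (b (a (l 3) (b (a (a (l 3) (a (l 238001585847) (b (l 235854102743) (c (l 16777128) (l 16777288))))) (b (a (a (a (l 107005083863) (l 16777104)) (l 16776920)) (l 16776544)) (l 16776520))) (a (b (a (l 226727297303) (c (l 16777312) (l 16777312))) (a (a (l 183240753223) (l 16777080)) (l 16776720))) (a (l 16776360) (b (l 16775992) (l 16776064)))))) (a (b (a (l 3) (a (l 3) (a (b (l 3) (l 146196660343)) (b (l 163913400423) (l 16777032))))) (a (a (l 3) (l 279877517847)) (a (b (a (l 3) (l 126869307559)) (a (l 108615696583) (l 16776984))) (l 16776752)))) (b (a (a (c (l 16776808) (l 16776968)) (l 16776312)) (a (a (l 16775936) (l 16776032)) (l 16775344))) (a (a (l 16776264) (a (l 16775888)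 (l 16775984))) (c (l 16775056) (l 16775040)))))) (b (b (a (a (a (l 258939552215) (b (a (l 259476422887) (l 88751472903)) (c (l 16777696) (l 16777368)))) (c (l 16776456) (l 16776456))) (a (a (a (l 16775840) (l 16775608)) (l 16775248)) (l 16774496))) (a (a (a (b (a (l 217600491607) (l 16777128)) (l 16777312)) (l 16776648)) (a (l 16776168) (a (l 16775792) (l 16775568)))) (a (l 16775112) (l 16773944)))) (a (b (a (l 16776352) (a (c (l 16775624) (l 16775624)) (l 16775144))) (a (a (l 16776056) (c (l 16775576) (l 16775576))) (l 16774848))) (a (c (l 16774144) (l 16774096)) (l 16773128))))) (a (a (b (b (a (b (c (l 16775528) (l 16775528)) (l 16774984)) (l 16774760)) (l 16773912)) (b (l 16772808) (l 16772328))) (b (b (l 16774016) (l 16772920)) (c (b (l 16772496) (l 16770840)) (b (l 16772384) (l 16770728))))) (a (b (b (l 16773024) (a (l 16772168) (l 16772328))) (b (l 16771584) (l 16769960))) (b (b (a (l 16772256) (l 16772456)) (l 16771720)) (l 16770224))))), by decide +kernel⟩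

def k21_pm_102_s : ∃ t, chk3 f_pm_102_s t 124 67 1 = true :=
  ⟨(b (b (b (a (l 3) (a (a (l 3) (a (b (l 3) (c (l 125795565719) (l 129016791255))) (b (c (l 151565369431) (l 157470949479)) (l 16776800)))) (b (a (l 16776968) (l 16776040)) (a (l 16776088) (a (l 16775392) (l 16774912)))))) (a (a (l 3) (a (l 3) (l 261623905831))) (a (a (b (a (l 266455744951) (c (l 98952020199) (l 103783858391))) (a (l 73182216535) (l 16776640))) (l 16776208)) (b (a (l 16776208) (l 16774608)) (a (a (l 16775224) (l 16774744)) (l 16774112)))))) (a (b (a (l 3) (b (a (l 3) (a (l 204715589847) (l 16777368))) (a (a (l 3) (l 176261431495)) (l 16777368)))) (a (b (l 3) (a (l 3) (a (l 288467452375) (l 119353114823)))) (a (b (a (l 148344144055) (l 16776864)) (l 16776528)) (l 16775848)))) (b (a (a (l 16776032) (b (l 16776040) (a (l 16775040) (l 16774576)))) (a (a (l 16774400) (l 16773984)) (l 16773344))) (a (a (b (l 16776512) (l 16774944)) (l 16774016)) (l 16772728))))) (b (b (a (a (b (a (l 267529486935) (a (l 88751472919)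 (l 16776680))) (a (a (l 228337909975) (l 16777080)) (l 16776336))) (a (l 16775664) (b (l 16776312) (l 16775736)))) (a (a (l 16773840) (l 16773000)) (l 16771600))) (a (a (a (a (l 16777336) (l 16776192)) (l 16776128)) (a (a (l 16776056) (l 16775584)) (l 16773656))) (a (l 16772400) (c (l 16770488) (l 16770384))))) (b (a (a (a (c (l 16775288) (l 16776544)) (a (l 16775840) (l 16774064))) (l 16773040)) (a (l 16771352) (a (l 16769816) (l 16768944)))) (a (a (b (a (l 16775672) (l 16773504)) (l 16774040)) (l 16772008)) (a (l 16770192) (c (l 16768472) (l 16768352))))))), by decide +kernel⟩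

def k22_pm_102_s : ∃ t, chk3 f_pm_102_s t 125 67 1 = true :=
  ⟨(a (b (b (b (b (a (a (a (l 16774992) (l 16774568)) (l 16773856)) (l 16772360)) (a (l 16773800) (l 16771792))) (a (l 16772968) (a (l 16771464) (a (l 16770704) (l 16770280))))) (b (a (l 16771848) (a (l 16771016) (l 16769528))) (a (a (l 16771224) (l 16770872)) (l 16769008)))) (b (a (b (a (l 16770080) (l 16769248)) (l 16770032)) (l 16767392)) (a (l 16767136) (l 16765072)))) (b (b (a (a (b (a (l 16770840) (l 16770432)) (l 16769664)) (l 16769352)) (c (l 16767768) (l 16767840))) (a (c (l 16767584) (l 16767656)) (l 16766152))) (b (b (c (l 16764816) (l 16764856)) (c (l 16763672) (l 16763704))) (a (l 16762992) (c (b (l 16761472) (l 16762928)) (a (l 16761440) (l 16765576))))))), by decide +kernel⟩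

def k23_pm_102_s : ∃ t, chk3 f_pm_102_s t 63 32 1 = true :=
  ⟨(a (b (l 14) (b (l 14) (a (b (l 14) (b (l 14) (b (l 14) (a (a (a (l 16776456) (l 14)) (l 14)) (l 14))))) (l 14)))) (l 14)), by decide +kernel⟩

def k24_pm_102_s : ∃ t, chk3 f_pm_102_s t 126 33 1 = true :=
  ⟨(b (a (b (b (a (a (a (b (b (b (l 16776360) (c (l 16775784) (l 16775784))) (l 16775552)) (l 16774888)) (b (b (c (l 16775440) (l 16775424)) (l 16774880)) (l 16774064))) (b (b (l 14) (l 16774136)) (b (l 16773592) (l 16773360)))) (b (l 14) (b (l 14) (a (l 16772168) (l 14))))) (a (b (a (l 16773552) (a (c (l 16773176) (l 16773088)) (l 16772720))) (a (a (a (l 16772488) (l 16772248)) (l 16772592)) (l 16771320))) (a (c (l 16771520) (l 16770936)) (c (l 16769768) (l 16769816))))) (a (b (b (a (l 16771200) (l 16770272)) (l 16769664)) (c (l 16767920) (l 16767976))) (a (b (l 16769256) (b (l 16764256) (l 16765728))) (b (l 16768152) (b (l 16768400) (l 16765928)))))) (b (b (l 14) (a (a (a (l 16768952) (l 14)) (l 14)) (l 14))) (a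 (a (b (b (l 16766952) (a (l 16766088) (l 16765512))) (c (l 16766648) (l 16766632))) (b (b (a (l 16766104) (l 14)) (l 16764600)) (c (l 16762816) (l 16762776)))) (b (a (a (l 16765576) (l 14)) (l 14)) (a (l 16762848) (l 16761592)))))) (a (b (b (b (a (l 16766216) (a (l 16767208) (l 16763424))) (a (c (l 16765064) (l 16762472)) (a (l 16766040) (l 16762232)))) (a (a (l 16765200) (b (l 16763384) (l 16762208))) (a (c (l 16761640) (l 16761624)) (l 16763040)))) (b (a (a (b (l 16762168) (l 16760976)) (l 16763032)) (c (l 16758664) (l 16758600))) (c (a (l 16758624) (l 16756272)) (a (l 16758576) (l 16756176))))) (b (a (c (b (l 16762344) (l 16758648)) (b (l 16763600) (l 16758560))) (c (b (l 16758576) (l 16756200)) (b (l 16758472) (l 16756064)))) (b (c (a (l 16756264) (l 16753824)) (a (l 16756144) (l 16753664))) (c (a (l 16753888) (l 16751464)) (a (l 16753744) (l 16751264))))))), by decide +kernel⟩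

def k25_pm_102_s : ∃ t, chk3 f_pm_102_s t 127 33 1 = true :=
  ⟨(b (a (a (a (a (b (l 14) (b (l 14) (l 16759336))) (l 14)) (l 14)) (l 14)) (l 14)) (a (a (b (a (b (l 16759240) (l 16754232)) (b (l 16756664) (l 16752968))) (c (b (l 16751352) (l 16748992)) (l 16752568))) (a (c (b (c (l 16753088) (l 16752936)) (b (l 16749464) (l 16747120))) (b (l 16752792) (l 16748032))) (c (b (b (l 14) (l 16751864)) (b (l 16749512) (l 16745864))) (b (l 16753464) (l 16749368))))) (b (b (l 14) (a (a (b (l 14) (l 16748552)) (l 14)) (l 14))) (c (a (c (b (l 16746448) (l 16744120)) (l 16745064)) (c (b (l 16743936) (l 16741600)) (l 16745144))) (a (l 16747472) (l 16747528)))))), by decide +kernel⟩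

def k26_pm_102_s : ∃ t, chk3 f_pm_102_s t 60 34 1 = true :=
  ⟨(b (l 3) (a (l 3) (b (a (l 3) (b (l 3) (b (a (l 3) (a (l 260013294199) (a (l 140291080823) (l 16776904)))) (a (l 227801039559) (c (l 16776432) (l 16777728)))))) (a (b (a (l 3) (a (l 273971938343) (b (l 3) (l 98952021191)))) (b (a (l 228337910439) (c (l 16776440) (l 16777736))) (a (a (l 146196661031) (l 16776576)) (l 16775328)))) (b (b (a (a (l 149417886535) (l 16776592)) (l 16775320)) (a (l 16775896) (l 16774224))) (b (a (l 16774760) (c (l 16773104) (l 16773032))) (a (c (l 16773640) (l 16773560)) (l 16771944)))))))), by decide +kernel⟩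

def k27_pm_102_s : ∃ t, chk3 f_pm_102_s t 61 68 1 = true :=
  ⟨(a (b (a (l 3) (a (l 3) (b (l 3) (b (l 3) (l 266992616471))))) (a (b (l 3) (a (l 3) (a (l 260550165511) (b (l 289541194519) (a (l 118279373495) (l 16776824)))))) (b (b (a (l 3) (a (l 204178719143) (a (l 81772151463) (l 16776640)))) (a (a (l 3) (a (l 240149070263) (l 127943049799))) (c (l 16776200) (l 16777176)))) (b (a (a (a (l 174650818967) (l 16777688)) (l 16776408)) (c (l 16775112) (l 16775120))) (a (l 16775744) (a (l 16774456) (l 16773568))))))) (b (a (b (a (l 3) (a (b (l 3) (b (l 260013294087) (l 117742502135))) (b (b (l 3) (l 162839658903)) (a (l 16778144) (l 16776344))))) (b (b (a (l 232096006839) (l 16776192)) (a (a (l 294909903479) (l 16778336)) (l 16775624))) (a (a (a (l 131164275143) (l 16778176)) (l 16776168)) (a (l 16775248) (l 16775664))))) (b (b (a (a (b (l 80161538391) (l 16776496)) (l 16775808)) (c (a (l 16774888) (l 16775256)) (a (l 16776144) (l 16774856)))) (a (a (a (l 16774552) (l 16775384)) (l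 16776008)) (a (l 16774416) (l 16772944)))) (a (b (a (l 16775840) (l 16773608)) (l 16773032)) (l 16771880)))) (a (b (b (a (l 16775512) (a (l 16774168) (l 16773288))) (a (a (l 16774872) (l 16773976)) (l 16772704))) (b (a (a (l 16773768) (l 16772936)) (l 16771592)) (l 16771352))) (a (b (l 16771488) (l 16769168)) (b (l 16769600) (a (l 16767744) (l 16766904))))))), by decide +kernel⟩

def k28_pm_102_s : ∃ t, chk3 f_pm_102_s t 61 69 1 = true :=
  ⟨(a (b (a (b (b (a (c (l 215989879511) (l 224579813975)) (c (l 16776368) (l 16777664))) (a (a (a (l 202031235431) (l 102710117159)) (l 16776544)) (l 16775264))) (b (a (l 16775864) (a (l 16774560) (l 16773704))) (a (l 16774704) (c (l 16773064) (l 16773008))))) (b (b (a (a (l 16775080) (l 16774208)) (c (l 16772912) (l 16772928))) (a (a (l 16773952) (l 16773120)) (l 16771752))) (a (a (l 16772280) (l 16771368)) (l 16770040)))) (a (b (a (b (a (l 16774000) (l 16773192)) (l 16772504)) (l 16771296)) (l 16769912)) (b (l 16768672) (a (l 16767312) (l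 16765544))))) (b (a (b (c (l 16769672) (l 16769568)) (a (l 16768256) (c (l 16766520) (l 16766376)))) (b (a (a (l 16767320) (l 16766472)) (l 16765320)) (a (l 16764896) (l 16763224)))) (a (b (a (l 16767312) (l 16764456)) (a (l 16764000) (l 16762344))) (c (l 16760704) (l 16760728))))), by decide +kernel⟩

def k29_pm_102_s : ∃ t, chk3 f_pm_102_s t 30 35 1 = true :=
  ⟨(a (b (a (b (a (b (l 3) (a (l 3) (a (l 252497101655) (b (l 292225548999) (l 16776968))))) (b (b (a (l 3) (a (l 253033972263) (l 92509570183))) (a (l 219747975735) (l 16777696))) (b (a (a (l 129553662807) (l 16776504)) (l 16775280)) (a (l 16775784) (l 16774144))))) (a (b (a (b (l 202568106391) (a (l 16778408) (l 16776352))) (c (l 16775704) (l 16775712))) (a (l 16775024) (a (l 16773808) (l 16775616)))) (b (a (c (l 16774080) (l 16775360)) (a (l 16774160) (l 16772008))) (a (c (l 16771752) (l 16774376)) (l 16770152))))) (a (b (b (a (l 16775312) (b (l 16774160) (l 16773072))) (a (b (l 16773592) (l 16772496)) (l 16771424)))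 (b (l 16770000) (l 16767728))) (b (a (a (b (l 16772416) (l 16770144)) (l 16770408)) (l 16770448)) (b (l 16766664) (l 16764416))))) (a (b (b (a (a (c (l 16775320) (l 16775312)) (l 16771048)) (l 16768664)) (a (a (l 16770344) (l 16768760)) (l 16766368))) (a (l 16768848) (b (l 16764184) (l 16764200)))) (b (a (b (l 16765456) (l 16765816)) (b (l 16762176) (l 16759824))) (a (b (l 16760968) (l 16758608)) (l 16756528))))) (b (a (b (a (b (l 16767680) (a (l 16766328) (l 16764592))) (b (a (l 16765072) (l 16763544)) (l 16762208))) (a (b (a (l 16764104) (l 16762552)) (l 16761072)) (l 16758736))) (b (a (l 16761088) (l 16756096)) (a (l 16755136) (a (l 16757648) (l 16750576))))) (a (b (a (l 16757568) (l 16754056)) (a (l 16753104) (l 16749632))) (b (b (a (l 16751656) (l 16753272)) (a (l 16749344) (a (l 16746648) (l 16744728)))) (a (a (l 16746992) (l 16745200)) (c (l 16747728) (l 16747376))))))), by decide +kernel⟩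

def k30_pm_102_s : ∃ t, chk3 f_pm_102_s t 62 17 1 = true :=
  ⟨(a (b (b (a (b (b (a (l 16772840) (l 16770440)) (a (l 16770024) (b (a (l 16769152) (l 16768200)) (l 16767624)))) (b (a (a (l 16768152) (l 16768624)) (l 16766128)) (a (l 16765736) (l 16763992)))) (a (b (b (b (a (l 16769536) (l 16768608)) (l 16768032)) (l 16766512)) (c (l 16763160) (l 16763224))) (b (c (l 16766368) (l 16765792)) (l 16762200)))) (a (a (b (l 16762472) (l 16757880)) (b (l 16760560) (b (l 16757128) (l 16754848)))) (b (a (l 16758632) (l 16758016)) (a (l 16754088) (a (b (l 16753776) (l 16751424)) (l 16754168)))))) (b (b (b (a (a (l 16754448) (l 16752576)) (a (l 16750600) (l 16748496))) (a (a (l 16752160) (l 16750264)) (l 16747160))) (a (a (a (l 16754424) (l 16753448)) (l 16751928)) (c (l 16743736) (l 16743400)))) (a (b (c (l 16748328) (l 16747976)) (l 16738272)) (b (c (l 16739008) (l 16738528)) (l 16734136))))) (a (b (b (b (b (c (l 16763808) (l 16763856)) (b (l 16762144) (l 16761024))) (a (l 16760536) (b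 (l 16758336) (a (l 16756592) (l 16755496))))) (a (b (b (c (l 16761120) (l 16750584)) (l 16758744)) (l 16752560)) (b (b (l 16753696) (l 16751320)) (l 16747744)))) (b (b (c (l 16744240) (l 16743912)) (l 16741904)) (b (c (l 16734824) (l 16734240)) (l 16729896)))) (b (a (b (a (b (b (l 16761256) (l 16764272)) (b (l 16756728) (l 16754384))) (b (b (l 16762840) (l 16757936)) (l 16755736))) (b (a (l 16750832) (l 16749696)) (l 16745512))) (b (b (b (a (l 16761736) (l 16757976)) (l 16758840)) (c (l 16752784) (l 16752648))) (b (l 16750608) (l 16743256)))) (b (b (c (l 16739880) (l 16739448)) (l 16737512)) (b (c (l 16730528) (l 16729848)) (l 16725544)))))), by decide +kernel⟩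

def k31_pm_102_s : ∃ t, chk3 f_pm_102_s t 63 17 1 = true :=
  ⟨(b (a (b (a (b (c (a (l 16756432) (l 16754088)) (a (l 16757640) (l 16752624))) (c (a (l 16750488) (l 16748152)) (a (l 16750296) (l 16747912)))) (b (c (a (l 16752368) (c (l 16748072) (l 16747896))) (a (l 16750192) (l 16747728))) (c (a (l 16745776) (l 16743368)) (a (l 16745488) (l 16743024))))) (a (a (b (l 16748296) (l 16740960)) (b (l 16745944) (l 16738632))) (a (b (l 16743552) (l 16736256)) (b (l 16741128) (l 16733840))))) (b (a (c (b (a (c (l 16748248) (l 16745424)) (c (a (l 16743768) (l 16742536)) (l 16745536))) (a (c (l 16741048) (l 16740792)) (c (l 16738592) (l 16738296)))) (b (a (l 16745216) (c (l 16742744) (l 16742624))) (a (l 16740520) (l 16737992)))) (c (b (a (c (l 16743296) (l 16740408)) (a (l 16743872) (l 16742600))) (a (l 16741184) (l 16738640))) (b (a (l 16740144) (l 16737568)) (a (l 16735456) (l 16732872))))) (a (c (b (a (l 16738936) (l 16733848)) (a (l 16731728) (l 16729272))) (b (a (l 16735824) (l 16733312))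 (l 16732504))) (c (a (b (l 16731352) (l 16726768)) (b (l 16728800) (l 16724216))) (b (l 16734720) (l 16724784)))))) (a (b (c (a (b (l 16735384) (l 16730744)) (b (a (l 16731920) (l 16729552)) (l 16728752))) (a (b (l 16734856) (l 16730088)) (b (l 16730104) (l 16725384)))) (a (b (l 16728960) (l 16721072)) (b (c (l 16724152) (l 16720664)) (c (l 16716984) (l 16715976))))) (b (a (c (b (a (l 16727144) (l 16724688)) (l 16721336)) (b (l 16725192) (l 16720496))) (c (b (l 16726152) (l 16716328)) (b (l 16720096) (l 16715400)))) (a (c (b (l 16716744) (l 16712192)) (b (l 16715784) (l 16711088))) (c (b (l 16711752) (l 16707208)) (b (l 16710696) (l 16706008))))))), by decide +kernel⟩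

def k32_pm_102_s : ∃ t, chk3 f_pm_102_s t 28 36 1 = true :=
  ⟨(a (l 3) (b (l 3) (a (b (l 3) (a (l 3) (a (l 3) (b (l 3) (a (l 301352354727) (b (l 3) (l 129553663271))))))) (b (a (l 3) (b (l 3) (a (l 292225549367) (b (l 243907166695) (a (l 111836923271) (l 16776416)))))) (a (a (b (l 3) (b (a (l 244444037591) (l 16777688)) (l 16776168))) (b (b (l 314774127447) (a (l 198810010487) (l 16776848))) (l 16775336))) (a (b (a (b (l 154249725143) (l 16776136)) (l 16777328)) (l 16773872)) (b (l 16774912) (l 16772408)))))))), by decide +kernel⟩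

def k33_pm_102_s : ∃ t, chk3 f_pm_102_s t 28 74 1 = true :=
  ⟨(a (a (l 3) (b (a (l 3) (b (l 3) (b (l 3) (l 298131129527)))) (b (a (l 335175223095) (a (b (l 310479160103) (a (l 161765917815) (l 16776696))) (c (l 16778912) (b (l 81235281415) (l 16775616))))) (b (a (a (l 346449511399) (c (l 16778408) (l 79624668503))) (l 16775008)) (a (a (a (l 200420623495) (l 16776864)) (l 16775816)) (l 16773672)))))) (b (a (a (b (a (l 3) (c (l 266455745479) (l 273435067191))) (b (a (l 263771390535) (l 16777984)) (a (a (l 107541956455) (l 16776456)) (l 16775384)))) (b (a (b (l 218674233639) (l 16777824)) (a (l 16777384) (l 16775344))) (b (l 16774512) (l 16773232)))) (b (b (a (l 16774160) (a (l 16771976) (l 16770520))) (a (l 16772896) (a (l 16770712) (l 16769256)))) (b (a (c (l 16771672) (l 16774208)) (c (l 16768760) (l 16771312))) (a (a (l 16771072) (a (l 16769992) (l 16769264))) (l 16767440))))) (a (a (a (b (l 16774856) (l 16772200)) (b (l 16773424) (b (l 16771440) (l 16770088)))) (b (a (l 16772000)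 (b (l 16771224) (l 16772528))) (a (b (l 16772624) (l 16768624)) (l 16767816)))) (b (a (a (b (l 16771088) (l 16768448)) (l 16767656)) (l 16765216)) (a (l 16765376) (l 16762144)))))), by decide +kernel⟩

def k34_pm_102_s : ∃ t, chk3 f_pm_102_s t 28 75 1 = true :=
  ⟨(a (b (a (b (a (l 3) (b (a (l 3) (c (l 135459243783) (l 132238015959))) (a (a (l 221358589031) (l 16776984)) (l 16775936)))) (b (a (a (l 3) (l 141364822871)) (l 16775248)) (a (a (l 141364821751) (l 16776000)) (l 16773816)))) (b (a (c (l 16774496) (l 16774440)) (b (l 16772296) (l 16772144))) (b (a (l 16772336) (a (l 16770128) (l 16768672))) (a (l 16770872) (a (l 16768672) (l 16761912)))))) (a (b (a (c (l 16774592) (l 16774520)) (l 16771624)) (a (l 16771608) (a (c (l 16769472) (l 16770888)) (b (l 16768664) (l 16767232))))) (a (b (b (a (l 16770152) (l 16768672)) (a (l 16768672) (l 16761952))) (c (l 16765856) (l 16765640))) (c (l 16764312) (l 16765416))))) (a (a (b (b (a (b (l 16770096) (l 16768664)) (c (l 16767976) (l 16767816)))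 (l 16765600)) (a (b (l 16763416) (l 16760544)) (b (l 16761904) (l 16759064)))) (b (a (c (l 16764872) (l 16764672)) (l 16764520)) (b (l 16762256) (l 16759448)))) (a (b (b (a (a (l 16763528) (l 16762744)) (l 16761560)) (l 16762048)) (b (l 16756592) (l 16753832))) (b (b (l 16761800) (l 16756312)) (b (l 16753528) (a (l 16751576) (c (l 16750200) (l 16755312)))))))), by decide +kernel⟩

def k35_pm_102_s : ∃ t, chk3 f_pm_102_s t 58 36 1 = true :=
  ⟨(b (a (b (l 3) (a (l 3) (b (a (l 3) (l 272361325559)) (b (a (l 304036709191) (a (l 140827952375) (l 16776592))) (a (a (l 200957493927) (l 16776864)) (l 16775728)))))) (b (a (b (l 3) (a (l 3) (c (l 204715590183) (b (l 3) (l 162839659623))))) (a (b (l 290614936759) (a (b (l 192367559271) (l 16776440)) (l 16778224))) (b (b (l 232096006711) (a (l 122574341255) (l 16776544))) (l 16775104)))) (a (b (a (b (l 212768653655) (l 16778288)) (a (l 16777440) (l 16775360))) (c (l 16774064) (l 16773968))) (b (a (l 16774176) (c (l 16772616) (l 16773776)))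 (a (b (l 16772272) (l 16771016)) (b (l 16770720) (l 16769400))))))) (a (b (a (a (b (b (l 3) (l 210621168599)) (b (l 16777840) (l 16775288))) (b (b (a (l 259476423095) (l 16778080)) (l 16776280)) (l 16774400))) (a (b (l 16775384) (l 16772872)) (b (l 16773840) (b (l 16771952) (l 16770704))))) (a (b (a (l 16773424) (c (l 16771944) (l 16773120))) (a (b (l 16771568) (l 16770312)) (b (l 16770096) (l 16768760)))) (b (a (b (l 16770992) (l 16769784)) (l 16768792)) (l 16766936)))) (b (a (b (a (c (l 16772312) (l 16772152)) (b (l 16771312) (l 16770104))) (a (b (l 16770408) (l 16769088)) (l 16768096))) (a (b (l 16769104) (l 16762504)) (l 16767408))) (b (a (l 16766272) (a (l 16763760) (l 16762080))) (a (a (l 16759176) (l 16762744)) (l 16762832)))))), by decide +kernel⟩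

def k36_pm_102_s : ∃ t, chk3 f_pm_102_s t 59 36 1 = true :=
  ⟨(b (b (a (a (b (a (b (l 16779184) (l 16775384)) (l 16774440)) (a (l 16773536) (a (l 16774920) (l 16772856)))) (b (a (c (l 16775496) (l 16775040)) (a (l 16774312) (l 16770936))) (a (c (l 16770464) (l 16770312)) (l 16768712)))) (a (b (l 16768864) (l 16766240)) (a (l 16765080) (l 16763424)))) (a (a (b (a (b (l 16771616) (l 16770408)) (l 16769400)) (l 16767584)) (a (l 16766416) (l 16764760))) (a (b (c (l 16758464) (l 16758232)) (l 16766160)) (a (b (l 16761088) (l 16763608)) (b (l 16759376) (l 16756880)))))) (a (b (a (a (b (l 16760520) (l 16763096)) (b (l 16764096) (l 16761416))) (b (l 16766824) (l 16758880))) (a (b (l 16762168) (a (l 16757664) (l 16755928))) (b (a (l 16756984) (c (l 16760792) (l 16760440))) (a (c (l 16759816) (l 16759464)) (l 16752976))))) (b (a (a (b (l 16759056) (c (l 16761776) (l 16761432))) (b (l 16762600) (l 16754928))) (b (c (l 16765864) (l 16760352)) (l 16752864))) (a (b (l 16753288) (l 16750984))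 (l 16749440))))), by decide +kernel⟩

def k37_pm_102_s : ∃ t, chk3 f_pm_102_s t 29 37 1 = true :=
  ⟨(b (a (a (b (b (a (l 16767600) (l 16764240)) (a (l 16764880) (l 16762824))) (a (b (l 16761912) (c (l 16759024) (l 16758784))) (b (c (l 16758704) (l 16763704)) (l 16755640)))) (b (b (a (c (l 16766232) (l 16765984)) (l 16760088)) (a (c (l 16763496) (l 16760608)) (a (l 16755552) (b (l 16754520) (l 16758456))))) (a (a (b (l 16756064) (c (l 16753336) (l 16758272))) (b (l 16754384) (a (l 16754648) (l 16751344)))) (b (a (b (l 16753416) (l 16752136)) (l 16751400)) (l 16749680))))) (a (b (b (a (c (a (l 16760320) (l 16753600)) (a (l 16757336) (l 16758496))) (l 16751368)) (a (b (l 16757600) (l 16751168)) (l 16749112))) (c (a (l 16748352) (l 16745680)) (a (l 16753416) (l 16745600)))) (b (c (l 16746320) (l 16746240)) (l 16744264)))) (b (a (b (a (a (l 16756000) (a (l 16753600) (a (l 16752392) (l 16756880)))) (a (a (l 16755872) (l 16749288)) (l 16747344))) (b (a (a (l 16753888) (a (l 16751520)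 (l 16750144))) (l 16752136)) (a (a (l 16752488) (l 16749648)) (l 16750968)))) (a (a (b (l 16744736) (l 16742392)) (l 16740928)) (l 16742176))) (a (a (b (a (a (l 16753848) (l 16755080)) (l 16747856)) (a (c (l 16748192) (l 16748120)) (l 16745528))) (a (b (l 16745272) (l 16742936)) (l 16741496))) (a (l 16741488) (l 16732224))))), by decide +kernel⟩

def k38_pm_102_s : ∃ t, chk3 f_pm_102_s t 30 18 1 = true :=
  ⟨(b (a (b (a (b (a (b (l 16757024) (a (l 16760400) (l 16764080))) (b (l 16759128) (l 16756680))) (a (a (l 16757360) (l 16755240)) (l 16753168))) (b (l 16753608) (l 16748976))) (a (b (l 16749936) (l 16745392)) (b (l 16744408) (l 16739904)))) (b (a (a (l 16749200) (b (l 16745328) (l 16740904))) (b (a (b (l 16737592) (l 16730112)) (l 16748280)) (a (b (l 16738312) (l 16736000)) (l 16733208)))) (a (b (a (l 16739896) (l 16736328)) (a (l 16735296) (l 16731640))) (a (b (l 16732520) (l 16727840)) (c (l 16737128) (l 16736376)))))) (a (b (a (b (l 16740880) (l 16736248)) (b (a (l 16736784)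 (l 16734072)) (a (l 16732312) (l 16729376)))) (b (a (a (l 16732888) (l 16730288)) (l 16726352)) (a (b (l 16738704) (l 16736520)) (l 16721584)))) (a (b (b (l 16728752) (l 16724072)) (b (l 16719408) (l 16714720))) (b (b (a (l 16723144) (l 16719256)) (l 16727056)) (b (l 16711968) (l 16707344)))))), by decide +kernel⟩

def k39_pm_102_s : ∃ t, chk3 f_pm_102_s t 31 18 1 = true :=
  ⟨(a (a (b (b (b (a (l 16733744) (l 16729608)) (a (l 16729168) (l 16725032))) (a (b (l 16724552) (l 16719920)) (b (l 16720424) (l 16715808)))) (b (b (a (l 16715264) (l 16711168)) (l 16708640)) (a (l 16703808) (l 16699768)))) (b (b (a (b (l 16725360) (l 16720784)) (b (l 16720992) (l 16716416))) (a (l 16719136) (l 16714768))) (b (a (l 16712552) (l 16708224)) (a (l 16695608) (b (l 16693536) (l 16689032)))))) (a (b (b (b (a (l 16716496) (c (l 16712472) (l 16711304))) (a (l 16711896) (l 16712496))) (a (b (l 16707296) (l 16702720)) (c (l 16701192) (l 16699616)))) (b (a (a (l 16707496) (l 16694728)) (c (l 16692240)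 (l 16690304))) (a (b (l 16689104) (l 16684600)) (l 16692720)))) (b (b (a (c (l 16710664) (l 16704072)) (b (l 16707200) (l 16697360))) (a (c (l 16696416) (l 16694728)) (c (l 16691440) (l 16689648)))) (b (a (c (l 16687480) (l 16685424)) (c (l 16682512) (l 16680344))) (a (c (l 16678696) (l 16676248)) (c (l 16673744) (l 16671168))))))), by decide +kernel⟩

def k40_pm_102_s : ∃ t, chk3 f_pm_102_s t 28 38 1 = true :=
  ⟨(b (a (a (b (a (b (a (c (l 16769448) (l 16771864)) (a (l 16769600) (l 16768912))) (a (l 16766528) (l 16765064))) (b (a (l 16766528) (l 16759792)) (l 16762920))) (c (b (l 16761600) (l 16758816)) (b (l 16761528) (l 16758848)))) (b (b (b (l 16762112) (l 16760704)) (b (l 16759320) (l 16757944))) (c (a (l 16755968) (l 16753136)) (a (l 16756016) (l 16753224))))) (a (b (a (b (l 16759648) (l 16756936)) (b (l 16756712) (l 16754040))) (a (a (a (l 16751392) (l 16752664)) (b (l 16750936) (l 16749016))) (b (a (l 16750816) (a (l 16748480) (l 16747824))) (l 16749048)))) (b (a (b (a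 (l 16751888) (l 16755648)) (a (c (l 16749288) (l 16749312)) (l 16747944))) (b (a (l 16751648) (l 16747696)) (l 16746000))) (b (l 16747232) (l 16745200))))) (a (b (a (a (c (l 16755960) (l 16758752)) (c (l 16753240) (l 16753472))) (a (b (l 16751960) (l 16754568)) (b (c (l 16749104) (l 16749376)) (c (l 16746544) (l 16746976))))) (a (a (c (l 16750488) (l 16750792)) (b (l 16749400) (c (l 16746592) (l 16746920)))) (a (b (c (l 16746592) (l 16747032)) (l 16744272)) (c (l 16742736) (l 16743168))))) (b (a (a (a (b (l 16747224) (l 16744792)) (l 16747344)) (a (l 16743448) (l 16742176))) (c (l 16741352) (l 16739352))) (a (c (a (l 16740168) (l 16737584)) (l 16740664)) (c (c (l 16733560) (l 16733896)) (l 16734304)))))), by decide +kernel⟩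

def k41_pm_102_s : ∃ t, chk3 f_pm_102_s t 29 38 1 = true :=
  ⟨(a (a (b (b (c (a (l 16744568) (l 16741944)) (l 16744744)) (c (l 16738432) (l 16738880))) (b (c (l 16733520) (l 16734272)) (b (l 16740680) (l 16738224)))) (b (b (c (l 16737992) (l 16738328)) (c (l 16733160) (l 16733752))) (b (c (l 16728256) (l 16729128)) (c (l 16723248) (l 16724304))))) (b (a (b (l 16738088) (l 16733368)) (a (b (l 16728848) (l 16732064)) (b (l 16736728) (l 16732352)))) (a (a (b (l 16724648) (a (l 16720440) (l 16729688))) (b (l 16731248) (l 16728056))) (a (b (l 16730248) (l 16715456)) (l 16730952))))), by decide +kernel⟩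

def k42_pm_102_s : ∃ t, chk3 f_pm_102_s t 28 39 1 = true :=
  ⟨(b (a (a (a (b (b (c (l 16746552) (l 16746800)) (l 16744120)) (c (l 16740032) (l 16740160))) (b (c (l 16742704) (l 16742944)) (c (l 16737448) (l 16737632)))) (b (c (a (l 16740144) (l 16737584)) (l 16739144)) (a (b (l 16736400) (l 16733760)) (b (l 16733864) (l 16731224))))) (b (a (c (c (l 16736176) (l 16733912)) (l 16736704)) (c (c (l 16728400) (l 16728864)) (l 16729072))) (a (c (c (l 16733512) (l 16728648)) (a (l 16730056) (l 16727544))) (a (b (l 16726320) (l 16723696)) (a (l 16723152) (l 16721920)))))) (a (b (b (a (c (l 16734776) (l 16734896)) (c (l 16729608) (l 16729848))) (a (c (l 16732112) (l 16732224)) (c (l 16726928) (l 16727184)))) (a (a (b (l 16730896) (l 16728216)) (c (l 16726768) (l 16726944))) (c (b (l 16724232) (l 16721512)) (a (l 16724424) (l 16721912))))) (b (a (b (a (l 16726048) (l 16723536)) (c (l 16721816) (l 16722176))) (c (b (l 16719464) (l 16716792)) (c (l 16718568) (l 16718480)))) (a (c (c (l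 16717432) (l 16717976)) (a (l 16719416) (l 16716936))) (a (c (l 16713968) (l 16714496)) (b (l 16713312) (a (l 16711248) (c (l 16709552) (l 16710176))))))))), by decide +kernel⟩

def k43_pm_102_s : ∃ t, chk3 f_pm_102_s t 29 39 1 = true :=
  ⟨(b (a (b (a (b (l 16735752) (l 16733240)) (b (l 16730544) (c (l 16722248) (l 16717928)))) (a (c (l 16728744) (l 16718928)) (a (b (l 16716384) (l 16724472)) (a (l 16727920) (l 16712344))))) (a (b (c (l 16718968) (l 16714208)) (l 16730336)) (b (l 16709216) (l 16704312)))) (b (a (b (a (c (c (l 16714088) (l 16714776)) (l 16715040)) (l 16726080)) (a (a (l 16724032) (c (l 16710672) (l 16711256))) (l 16718368))) (c (l 16717936) (a (l 16704048) (l 16698816)))) (a (a (b (a (c (l 16710424) (l 16711024)) (l 16708744)) (c (l 16717528) (c (l 16707384) (l 16707152)))) (c (l 16704136) (b (l 16705168) (l 16702624)))) (a (c (l 16699744) (l 16698992)) (c (l 16716016) (l 16693816)))))), by decide +kernel⟩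

def k44_pm_102_s : ∃ t, chk3 f_pm_102_s t 15 19 1 = true :=
  ⟨(a (b (a (a (b (b (l 16733400) (l 16718232)) (c (l 16711224) (l 16721024))) (b (c (l 16714752) (l 16713984)) (b (l 16707240) (l 16702472)))) (b (a (b (l 16720504) (l 16715792)) (a (l 16712752) (l 16709000))) (a (b (l 16700608) (l 16695936)) (c (l 16713144) (l 16700648))))) (a (b (b (a (l 16703688) (l 16697712)) (a (l 16698856) (l 16692960))) (b (a (a (l 16695424) (l 16692624)) (l 16688224)) (a (l 16689240) (l 16683520)))) (b (a (c (l 16689880) (l 16708872)) (b (l 16684328) (l 16679776))) (a (b (l 16681968) (l 16677368)) (b (l 16675240) (l 16670760)))))) (a (b (a (a (b (l 16694648) (l 16685560)) (b (l 16690664) (l 16681664))) (b (a (l 16686560) (b (l 16684552) (l 16680088))) (a (b (l 16679816) (l 16675416)) (l 16683944)))) (b (a (b (l 16676920) (l 16672456)) (a (b (l 16671040) (l 16666672)) (l 16664688))) (a (a (l 16667720) (b (l 16666176) (l 16661864))) (c (l 16659832) (l 16656368))))) (b (a (a (b (l 16677888) (l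 16669056)) (b (l 16683776) (l 16664488))) (b (a (c (l 16669984) (l 16667120)) (c (l 16665056) (l 16662056))) (c (a (l 16661416) (l 16656520)) (a (l 16658128) (l 16653080))))) (a (b (c (l 16659864) (l 16656408)) (c (l 16651504) (l 16658136))) (a (b (l 16661584) (c (l 16644728) (l 16640592))) (b (c (l 16648144) (l 16644264)) (c (l 16639912) (l 16635592)))))))), by decide +kernel⟩

def k45_pm_102_s : ∃ t, chk3 f_pm_102_s t 12 40 1 = true :=
  ⟨(b (a (b (a (l 3) (a (l 3) (b (l 3) (l 16782368)))) (a (b (l 3) (a (l 3) (l 16783808))) (a (b (l 16782480) (l 16775088)) (a (l 16784592) (l 16772448))))) (a (b (a (b (l 16782168) (l 16774160)) (b (l 16773408) (l 16770520))) (a (b (l 16771224) (l 16768664)) (b (l 16767856) (l 16765896)))) (b (a (b (l 16769592) (l 16767040)) (b (a (l 16766792) (l 16765104)) (l 16763808))) (a (b (l 16764888) (l 16763064)) (b (l 16761720) (l 16770256)))))) (a (b (a (a (a (l 76403455223) (l 36675007319)) (a (l 16785432) (l 16773680))) (b (a (l 16772712) (l 16769824))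 (a (l 16770688) (l 16768328)))) (a (b (a (l 16773576) (l 16771256)) (a (l 16771552) (l 16769656))) (b (a (l 16769120) (l 16766968)) (l 16771848)))) (a (b (a (b (l 16767224) (l 16765904)) (l 16763840)) (a (l 16763504) (l 16781384))) (b (a (l 16776392) (b (l 16758032) (l 16756168))) (a (b (l 16757936) (l 16755944)) (b (l 16754176) (a (l 16753032) (l 16750888)))))))), by decide +kernel⟩

def k46_pm_102_s : ∃ t, chk3 f_pm_102_s t 26 40 1 = true :=
  ⟨(b (a (c (b (a (a (l 16762328) (l 16770984)) (l 16757608)) (a (a (l 16768640) (l 16766768)) (a (l 16764808) (l 16752296)))) (b (a (c (l 16771816) (l 16771696)) (c (l 16767952) (l 16767760))) (a (b (l 16757984) (l 16755888)) (a (l 16764432) (l 16751856))))) (b (a (c (a (l 16754544) (l 16752408)) (c (l 16763760) (l 16763488))) (b (c (l 16750208) (l 16749808)) (a (l 16748936) (c (l 16746720) (l 16746208))))) (a (b (a (l 16751096) (c (l 16749088) (l 16748592))) (a (c (l 16749088) (l 16748552)) (c (l 16746696) (l 16746160)))) (b (a (c (l 16746712)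 (l 16746184)) (l 16743984)) (c (l 16742808) (l 16742352)))))) (a (b (a (b (l 16754208) (a (l 16753232) (l 16751152))) (b (a (l 16751136) (c (l 16749160) (l 16748552))) (a (c (l 16749152) (l 16748504)) (l 16746504)))) (a (b (a (l 16751072) (l 16748800)) (l 16747400)) (c (b (l 16745304) (l 16742528)) (b (l 16744808) (l 16742208))))) (b (a (b (c (l 16745456) (l 16744912)) (c (l 16742840) (l 16742376))) (c (b (l 16740200) (l 16737512)) (b (l 16739792) (l 16737192)))) (b (a (c (l 16740120) (l 16739784)) (c (l 16734736) (l 16734552))) (a (a (l 16738656) (l 16736032)) (c (l 16731848) (l 16731848))))))), by decide +kernel⟩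

def k47_pm_102_s : ∃ t, chk3 f_pm_102_s t 27 40 1 = true :=
  ⟨(b (a (a (b (b (a (c (l 16746680) (l 16746216)) (c (l 16744096) (l 16743632))) (c (l 16742792) (a (l 16743656) (l 16741008)))) (c (b (l 16740104) (l 16737400)) (b (l 16739696) (a (l 16738416) (l 16735728))))) (b (a (b (l 16741272) (l 16738624)) (b (l 16738608) (l 16735944))) (c (b (l 16734632) (l 16731888)) (b (l 16734328) (l 16734288))))) (b (a (c (b (l 16734648) (l 16731928)) (b (l 16734400) (l 16731720))) (c (b (l 16729296) (l 16726544)) (a (l 16729176) (l 16726616)))) (c (a (b (l 16729168) (l 16726400)) (b (l 16723760) (l 16720960))) (a (b (l 16729032) (l 16726336)) (b (l 16723832) (l 16721112)))))) (a (b (c (a (b (l 16734736) (l 16732000)) (b (l 16729176) (l 16726384))) (a (a (l 16734496) (l 16731776)) (b (l 16729016) (l 16726328)))) (c (a (b (l 16729168) (l 16726224)) (b (l 16723504) (l 16720520))) (a (a (l 16729128) (l 16731608)) (b (l 16723600) (l 16720816))))) (b (b (a (c (l 16723632) (l 16723648)) (c (l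 16718152) (l 16718392))) (a (c (l 16720800) (l 16720928)) (c (l 16715280) (l 16715640)))) (b (a (c (l 16717880) (l 16718160)) (c (l 16712328) (l 16712848))) (a (c (l 16714856) (l 16715352)) (c (l 16709264) (l 16710008))))))), by decide +kernel⟩

def k48_pm_102_s : ∃ t, chk3 f_pm_102_s t 12 82 1 = true :=
  ⟨(a (b (a (b (a (l 16770080) (l 16768376)) (l 16768640)) (b (a (l 16766272) (l 16784744)) (c (l 16785248) (l 16784720)))) (b (a (l 16767768) (c (l 16784224) (l 16783488))) (a (l 16787640) (a (l 16763024) (c (l 16760440) (l 16759472)))))) (b (a (a (b (l 16760864) (l 16759640)) (b (l 16757576) (a (l 16757080) (l 16755192)))) (b (a (a (l 16754840) (l 16763320)) (c (l 16749656) (l 16749200))) (a (l 16762528) (l 16747456)))) (b (a (a (c (l 16758616) (l 16757736)) (l 16754328)) (a (l 16749976) (l 16745248))) (a (a (l 16756280) (l 16752136)) (a (l 16747592) (l 16742728)))))), by decide +kernel⟩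

def k49_pm_102_s : ∃ t, chk3 f_pm_102_s t 13 82 1 = true :=
  ⟨(a (b (a (b (a (c (l 16744816) (l 16744528)) (c (l 16739728) (l 16739600))) (a (l 16742584) (c (l 16737424) (l 16737248)))) (a (b (c (a (l 16735760) (l 16733056)) (a (l 16735768) (l 16733144))) (c (a (l 16733368) (l 16730600)) (l 16731984))) (b (c (b (l 16729592) (l 16728216)) (l 16734360)) (c (l 16726360) (l 16726528))))) (a (a (b (l 16740240) (l 16737584)) (b (c (l 16734968) (l 16734752)) (c (l 16732152) (l 16731976)))) (a (b (c (a (l 16730808) (l 16727984)) (l 16729360)) (c (l 16726472) (l 16726472))) (b (c (a (l 16725104) (l 16722192)) (l 16723792)) (c (a (l 16722096) (l 16719128)) (l 16720792)))))) (a (b (b (c (a (a (l 16724672) (l 16721800)) (b (l 16718200) (l 16716744))) (a (a (l 16725000) (l 16722200)) (a (l 16719384) (l 16716600)))) (a (c (l 16720568) (l 16720904)) (c (l 16714712) (l 16715208)))) (a (b (c (l 16717752) (l 16718064)) (c (l 16714608) (l 16714968))) (a (b (l 16713704) (l 16710504)) (b (l 16710784)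 (b (l 16708408) (l 16706792)))))) (b (a (c (b (a (l 16713184) (l 16710352)) (l 16708904)) (b (l 16722976) (l 16709632))) (b (a (c (l 16707536) (l 16708448)) (b (l 16706288) (c (l 16704056) (l 16705112)))) (b (a (l 16706072) (a (a (l 16704392) (l 16703784)) (l 16702984))) (a (c (l 16704000) (l 16704872)) (l 16702440))))) (a (b (a (l 16707904) (b (l 16705880) (a (l 16705064) (l 16703880)))) (a (b (a (l 16706240) (l 16704952)) (l 16704352)) (c (l 16702448) (l 16702784)))) (b (a (a (b (l 16703944) (l 16702864)) (l 16702376)) (a (l 16701368) (l 16700352))) (c (l 16699600) (l 16702120))))))), by decide +kernel⟩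

def k50_pm_102_s : ∃ t, chk3 f_pm_102_s t 12 83 1 = true :=
  ⟨(a (b (a (b (a (l 16766528) (l 16785152)) (a (b (l 16765528) (l 16764528)) (c (l 16762616) (l 16761672)))) (a (b (c (l 16761832) (l 16760840)) (l 16779784)) (b (l 16757872) (l 16755024)))) (b (a (c (b (l 16761640) (l 16748200)) (b (l 16760880) (l 16758152))) (c (b (l 16754256) (l 16745704)) (b (l 16753728) (l 16740160)))) (b (b (b (a (l 16755440) (l 16747656)) (b (a (l 16753520) (l 16745696)) (a (c (l 16756856) (l 16751224)) (a (l 16745608) (l 16741416))))) (a (l 16750288) (l 16742456))) (a (l 16749536) (l 16741656))))) (b (a (a (b (l 16753888) (c (l 16751064) (l 16750472))) (b (l 16749520) (c (l 16746464) (l 16745968)))) (b (a (l 16755304) (c (l 16739896) (l 16739504))) (c (a (l 16741528) (l 16736296)) (a (l 16741136) (l 16736016))))) (b (b (a (a (l 16747664) (l 16742992)) (a (l 16738008) (l 16732744))) (b (a (a (l 16745448) (l 16740720)) (a (l 16735696) (l 16730392))) (a (l 16741000) (a (l 16733552) (l 16728248)))))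 (a (b (b (b (l 16738728) (b (l 16736800) (a (l 16736968) (l 16738160)))) (l 16733616)) (l 16732776)) (b (b (b (l 16728672) (b (a (l 16729400) (l 16724144)) (b (b (l 16730672) (a (l 16726984) (l 16721776))) (l 16724048)))) (l 16723720)) (l 16722840)))))), by decide +kernel⟩

def k51_pm_102_s : ∃ t, chk3 f_pm_102_s t 26 83 1 = true :=
  ⟨(b (a (b (a (c (l 16734528) (l 16734280)) (c (l 16728928) (l 16728840))) (c (a (l 16730808) (l 16725096)) (a (l 16730648) (l 16725080)))) (b (a (c (l 16723136) (l 16723216)) (c (b (l 16718080) (l 16716280)) (l 16717432))) (b (a (l 16720512) (c (l 16714304) (l 16714592))) (a (l 16718312) (a (l 16713848) (c (l 16710696) (l 16711032))))))) (b (b (a (a (l 16727240) (l 16721544)) (b (a (l 16716424) (a (l 16712040) (l 16709664))) (a (a (l 16716448) (l 16713536)) (a (l 16711080) (l 16709136))))) (a (a (b (l 16724864) (l 16722712)) (b (l 16719144) (a (l 16718448) (c (l 16705112) (l 16705304))))) (b (a (a (l 16714816) (l 16717632)) (l 16709544)) (a (a (c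 (l 16713392) (l 16713512)) (l 16711696)) (l 16714176))))) (b (b (b (a (a (l 16710000) (a (l 16716528) (l 16714552))) (a (l 16712056) (l 16708360))) (b (a (a (c (l 16718792) (l 16718928)) (l 16730728)) (a (l 16711688) (l 16718440))) (b (b (a (a (l 16717944) (l 16714760)) (a (l 16711448) (l 16707680))) (a (a (a (c (c (l 16721984) (l 16720704)) (l 16722696)) (l 16727088)) (a (l 16728312) (l 16728096))) (c (a (a (l 16722616) (l 16731360)) (a (l 16719032) (c (l 16717176) (l 16716992)))) (a (l 16726664) (c (l 16717712) (l 16717344)))))) (a (l 16726368) (a (l 16711080) (l 16707296)))))) (a (l 16720776) (a (l 16710728) (l 16706952)))) (a (l 16723760) (a (l 16709800) (l 16706032)))))), by decide +kernel⟩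

def k52_pm_102_s : ∃ t, chk3 f_pm_102_s t 27 166 1 = true :=
  ⟨(a (b (b (a (l 16712400) (a (l 16707944) (c (l 16704976) (l 16705448)))) (a (a (l 16712072) (l 16709096)) (a (c (l 16706112) (l 16706520)) (l 16704368)))) (b (a (a (l 16710128) (c (l 16707240) (l 16707568))) (l 16704392)) (a (a (c (l 16708288) (l 16708520)) (l 16706472)) (l 16703344)))) (b (b (a (l 16702288) (c (l 16698168) (l 16697696))) (a (l 16701256) (c (l 16697216) (l 16696488)))) (b (a (l 16700184) (l 16698504)) (a (l 16699064) (c (l 16695152) (l 16693976)))))), by decide +kernel⟩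

def k53_pm_102_s : ∃ t, chk3 f_pm_102_s t 27 167 1 = true :=
  ⟨(b (b (a (a (c (l 16706448) (l 16706192)) (c (l 16702448) (l 16701744))) (a (c (l 16698272) (l 16697208)) (c (l 16693976) (l 16692632)))) (b (a (a (l 16705560) (l 16701272)) (a (l 16696864) (l 16692384))) (a (a (c (l 16705144) (l 16704464)) (c (l 16700952) (l 16699960))) (a (c (l 16696616) (l 16695368)) (c (l 16692192) (l 16690760)))))) (b (b (b (a (a (c (l 16704576) (l 16703808)) (c (l 16700320) (l 16699280))) (a (c (l 16695920) (l 16694672)) (c (l 16691448) (l 16690056)))) (a (b (a (c (l 16704144) (l 16703360)) (c (l 16699840) (l 16698824))) (b (b (a (l 16703528) (l 16704352)) (b (b (b (a (l 16703416) (l 16698984)) (b (a (l 16703376) (l 16698944)) (b (a (l 16703344) (l 16698912)) (a (c (l 16703552) (l 16702816)) (c (l 16699200) (l 16698280)))))) (a (l 16703200) (l 16698768))) (a (l 16703184) (l 16698752)))) (a (l 16703136) (l 16698704)))) (b (a (c (l 16695408) (l 16694216)) (c (l 16690904) (l 16689592))) (b (b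 (a (l 16694584) (l 16690032)) (b (b (b (a (l 16694464) (l 16689904)) (b (a (l 16694416) (l 16689856)) (a (c (c (l 16700112) (l 16694528)) (l 16693680)) (c (c (l 16690328) (l 16689992)) (l 16689080))))) (a (l 16694248) (l 16689688))) (a (l 16694232) (l 16689672)))) (a (l 16694184) (l 16689624)))))) (a (a (l 16702792) (l 16698360)) (a (l 16693840) (l 16689280)))) (a (a (l 16701872) (l 16697448)) (a (l 16692920) (l 16688368))))), by decide +kernel⟩

def k54_pm_102_s : ∃ t, chk3 f_pm_102_s t 12 21 1 = true :=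
  ⟨(a (a (b (a (l 16763800) (l 16760032)) (b (l 16729168) (l 16721488))) (b (a (l 16755856) (l 16751416)) (b (l 16720200) (l 16711840)))) (b (a (a (l 16746712) (l 16736528)) (a (c (l 16736144) (l 16736872)) (a (l 16727232) (l 16724464)))) (a (a (l 16708432) (l 16723952)) (a (l 16710400) (c (l 16711144) (l 16692352)))))), by decide +kernel⟩

def k55_pm_102_s : ∃ t, chk3 f_pm_102_s t 13 21 1 = true :=
  ⟨(a (a (b (a (b (c (l 16720576) (l 16720944)) (a (l 16701192) (l 16699352))) (b (l 16707472) (l 16697432))) (a (b (l 16698328) (l 16680720)) (b (l 16687360) (l 16677208)))) (b (a (b (c (l 16704256) (l 16704072)) (c (l 16694168) (l 16694320))) (b (c (l 16700656) (l 16700200)) (c (l 16690768) (l 16690488)))) (a (b (c (l 16684048) (l 16684640)) (l 16677216)) (c (b (l 16680880) (l 16670976)) (b (l 16680880) (l 16671368)))))) (a (b (a (b (c (a (l 16697696) (l 16695608)) (a (l 16697032) (l 16694808))) (c (a (l 16687920) (l 16685896)) (l 16686224))) (b (c (a (l 16693448) (l 16691256)) (a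 (l 16692528) (l 16690232))) (c (a (l 16683792) (l 16681648)) (a (l 16682832) (l 16680528))))) (a (b (c (l 16677208) (l 16676664)) (c (l 16667536) (l 16667224))) (b (c (a (l 16674208) (l 16672120)) (a (l 16673288) (l 16670984))) (c (a (l 16664672) (l 16662672)) (l 16673224))))) (b (b (a (c (b (l 16690328) (l 16685520)) (b (l 16689224) (l 16684320))) (c (b (l 16685808) (l 16681032)) (b (l 16684608) (l 16679696)))) (a (c (a (l 16679464) (l 16677264)) (a (l 16678208) (l 16675896))) (c (b (l 16676288) (l 16671576)) (b (l 16674832) (l 16670008))))) (a (b (a (c (l 16670000) (l 16668672)) (b (l 16669616) (l 16664928))) (c (a (l 16660624) (l 16658536)) (a (l 16659296) (l 16656984)))) (a (b (b (l 16667360) (l 16662688)) (b (a (l 16658600) (l 16657480)) (l 16653432))) (b (c (l 16663472) (l 16661712)) (c (b (l 16656560) (l 16651984)) (b (l 16654664) (l 16650032))))))))), by decide +kernel⟩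

def k56_pm_102_s : ∃ t, chk3 f_pm_102_s t 12 11 1 = true :=
  ⟨(a (b (a (b (l 16710440) (l 16697296)) (b (a (l 16702448) (l 16697000)) (l 16684216))) (a (b (l 16686064) (l 16676872)) (b (l 16670416) (l 16658600)))) (b (a (b (a (l 16691288) (l 16685520)) (a (l 16674688) (l 16668224))) (b (a (l 16679360) (l 16683448)) (a (l 16661528) (l 16654808)))) (a (b (l 16655184) (l 16640600)) (b (a (l 16644144) (l 16636720)) (l 16639008))))), by decide +kernel⟩

def k57_pm_102_s : ∃ t, chk3 f_pm_102_s t 13 11 1 = true :=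
  ⟨(a (b (a (b (a (b (l 16671112) (l 16661696)) (b (l 16666968) (l 16659352))) (a (l 16656920) (b (l 16649224) (l 16636608)))) (b (b (a (c (l 16663520) (l 16665392)) (l 16661672)) (a (c (l 16653048) (l 16655760)) (l 16657200))) (a (b (l 16644520) (l 16634264)) (b (l 16642184) (l 16632304))))) (a (b (a (l 16639608) (b (l 16626736) (l 16617000))) (c (l 16625024) (l 16611168))) (b (a (b (l 16623840) (l 16613192)) (c (l 16614448) (l 16619288))) (a (b (l 16602432) (l 16596928)) (c (l 16592416) (l 16599776)))))) (b (a (b (a (b (c (l 16657856) (l 16657888)) (c (l 16648128) (l 16648624))) (b (c (l 16654216) (l 16653480)) (c (l 16644768) (l 16644320)))) (a (b (c (l 16638304) (l 16639392)) (l 16629584)) (b (c (l 16635280) (l 16635248)) (c (l 16625704) (l 16626224))))) (b (a (a (b (l 16656144) (l 16652224)) (b (c (l 16649304) (l 16647776)) (c (l 16640120) (l 16638712)))) (b (c (a (l 16647248) (l 16645168)) (a (l 16645472) (l 16643152))) (c (a (l 16638160) (l 16636152)) (a (l 16636432) (l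 16634136))))) (a (b (c (l 16642344) (l 16630880)) (c (l 16622616) (l 16622008))) (a (b (c (l 16629112) (l 16627528)) (l 16624944)) (b (c (l 16627200) (l 16625264)) (c (l 16618288) (l 16616520))))))) (a (b (a (b (l 16619952) (l 16610216)) (b (l 16616968) (l 16607576))) (a (b (l 16600344) (l 16590288)) (b (l 16598104) (l 16588504)))) (b (a (b (c (l 16613296) (l 16613184)) (c (l 16603896) (l 16604384))) (b (c (l 16610192) (l 16608952)) (c (l 16601128) (l 16600336)))) (a (b (l 16595360) (l 16586136)) (b (c (l 16591992) (l 16591752)) (l 16583360))))))), by decide +kernel⟩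

def k58_pm_102_s : ∃ t, chk3 f_pm_102_s t 28 80 1 = true :=
  ⟨(a (a (a (b (b (l 16725512) (l 16722792)) (b (l 16720048) (l 16717288))) (b (c (a (l 16721944) (l 16720632)) (l 16721544)) (c (b (l 16717096) (l 16714256)) (l 16716096)))) (b (a (c (l 16717360) (l 16719032)) (c (l 16716072) (l 16716528))) (c (c (l 16712624) (a (l 16713328) (l 16710760))) (b (l 16713712) (l 16710976))))) (b (a (c (c (l 16711832) (l 16712520)) (a (l 16714048) (l 16711592))) (c (a (b (l 16709880) (c (l 16706816) (l 16707552))) (b (c (l 16707232) (l 16707912)) (l 16705232))) (a (b (l 16710512) (a (l 16708456) (l 16707304))) (b (a (l 16708744) (l 16707608)) (l 16705632))))) (b (a (c (a (l 16709280) (c (l 16706384) (l 16707200))) (a (l 16709992) (a (l 16708168) (l 16706992)))) (c (c (l 16703472) (l 16704088)) (a (l 16705320) (l 16703104)))) (a (c (a (c (l 16706008) (l 16704256)) (b (l 16704904) (l 16703752))) (a (b (l 16707952) (l 16706616)) (b (l 16705624) (l 16704368)))) (c (c (l 16701184) (l 16701712))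 (a (l 16702800) (l 16700584))))))), by decide +kernel⟩

def k59_pm_102_s : ∃ t, chk3 f_pm_102_s t 28 81 1 = true :=
  ⟨(b (a (a (a (b (l 16714520) (l 16711704)) (c (a (l 16710624) (l 16706664)) (l 16710592))) (b (c (a (l 16708760) (c (l 16705680) (l 16706576))) (a (l 16709472) (b (l 16707680) (l 16706320)))) (c (a (c (l 16705360) (l 16706272)) (c (b (l 16703608) (l 16702408)) (b (l 16704528) (l 16703296)))) (a (l 16706712) (b (a (l 16705552) (l 16704408)) (l 16703696)))))) (a (b (c (a (c (l 16706056) (a (l 16704792) (l 16703784))) (l 16702040)) (a (a (b (l 16705856) (l 16704576)) (l 16704120)) (l 16702488))) (c (c (l 16700320) (l 16700976)) (a (l 16702168) (l 16699984)))) (c (c (b (l 16698920) (l 16696648)) (b (l 16699344) (l 16696976))) (b (l 16704424) (a (l 16697776) (l 16695552)))))) (b (a (a (a (l 16706208) (c (c (l 16699768) (l 16705952)) (l 16706416))) (c (a (c (b (l 16703224) (l 16701984)) (b (l 16704184) (l 16702920))) (c (l 16700784) (l 16701576))) (a (b (a (l 16705232)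 (l 16704064)) (l 16703360)) (l 16701840)))) (c (a (c (l 16698096) (l 16698640)) (a (l 16695528) (l 16693552))) (a (a (l 16699672) (l 16697480)) (a (l 16695272) (l 16693040))))) (a (a (c (a (c (l 16704616) (l 16705608)) (c (b (a (l 16703352) (l 16702216)) (l 16701560)) (b (l 16703824) (l 16702552)))) (a (l 16706120) (b (a (l 16704920) (l 16703736)) (l 16703040)))) (c (c (a (l 16700368) (l 16698600)) (l 16700248)) (a (l 16701512) (l 16699352)))) (c (a (a (l 16697096) (l 16695168)) (l 16692208)) (a (a (l 16697176) (l 16694976)) (a (l 16692760) (l 16690528))))))), by decide +kernel⟩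

def k60_pm_102_s : ∃ t, chk3 f_pm_102_s t 29 40 1 = true :=
  ⟨(a (a (b (c (b (b (l 16704672) (l 16702296)) (c (l 16709064) (b (l 16700016) (l 16697616)))) (b (c (l 16714128) (l 16713768)) (b (l 16699712) (l 16697184)))) (b (c (c (l 16707056) (l 16704512)) (b (l 16694672) (l 16692152))) (c (b (l 16690512) (l 16688152)) (b (l 16689640) (a (l 16688272) (l 16685992)))))) (b (b (c (l 16704600) (b (l 16700096) (l 16697568))) (c (c (l 16694584) (l 16694528)) (b (l 16695048) (l 16692528)))) (b (c (b (l 16691056) (l 16688688)) (b (l 16690024) (l 16687520))) (c (b (l 16686320) (l 16683944)) (b (l 16685016) (l 16682520)))))) (b (b (c (b (l 16714840) (l 16712464)) (a (l 16693960) (l 16688840))) (a (c (l 16690224) (l 16688952)) (c (l 16685584) (l 16683888)))) (b (c (a (l 16685496) (l 16680872)) (a (l 16683968) (l 16678968))) (a (b (l 16681256) (l 16678840)) (c (l 16676168) (l 16674080)))))), by decide +kernel⟩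

def k61_pm_102_s : ∃ t, chk3 f_pm_102_s t 15 40 1 = true :=
  ⟨(a (a (a (b (b (l 16684456) (l 16679688)) (b (l 16674952) (l 16670232))) (b (b (l 16678824) (l 16674152)) (b (l 16669512) (l 16664896)))) (b (a (b (l 16672784) (l 16668232)) (b (l 16666304) (l 16661880))) (a (b (l 16663712) (l 16659232)) (b (l 16657512) (l 16674128))))) (a (b (a (a (b (l 16661152) (l 16656824)) (b (l 16657560) (l 16653224))) (c (l 16651456) (l 16647640))) (a (b (a (l 16652568) (l 16648952)) (l 16646528)) (c (l 16643216) (l 16639088)))) (a (b (c (l 16643296) (l 16649552)) (b (l 16634976) (l 16630928))) (b (c (a (l 16636632) (l 16631888)) (a (l 16632088) (l 16627144))) (c (l 16626432) (b (l 16623400) (l 16619328))))))), by decide +kernel⟩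

def k62_pm_102_s : ∃ t, chk3 f_pm_102_s t 28 82 1 = true :=
  ⟨(a (a (b (c (b (a (b (a (l 16703504) (l 16702376)) (l 16701816)) (b (l 16701024) (l 16700000))) (a (l 16700464) (l 16698592))) (b (a (b (a (l 16704608) (l 16703424)) (l 16702752)) (l 16701208)) (a (l 16700976) (l 16698800)))) (c (b (a (l 16698600) (l 16696656)) (a (l 16696656) (l 16694640))) (b (a (l 16698592) (l 16696392)) (a (l 16696176) (l 16693952))))) (a (b (c (b (l 16698664) (l 16696680)) (b (l 16699048) (l 16696616))) (b (c (l 16694672) (l 16694176)) (c (l 16692600) (l 16691712)))) (b (c (b (l 16696768) (l 16694720)) (b (l 16696872) (l 16694416))) (b (c (l 16692656) (l 16691944)) (b (l 16690760) (l 16689584)))))) (b (c (a (b (a (l 16694840) (l 16692872)) (a (l 16692736) (l 16690720))) (b (b (l 16690448) (l 16689312)) (a (l 16688688) (l 16686632)))) (a (b (a (l 16694680) (l 16692472)) (a (l 16692200) (l 16689984))) (a (b (l 16690248) (l 16687752)) (b (l 16688016) (l 16685512))))) (b (a (a (b (l 16690944) (l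 16689776)) (b (l 16688800) (l 16687616))) (a (c (l 16686472) (l 16685248)) (c (l 16684384) (l 16683008)))) (a (a (b (l 16688592) (l 16687400)) (b (l 16686416) (l 16685208))) (a (b (l 16684240) (l 16683024)) (c (l 16682072) (l 16680480))))))), by decide +kernel⟩

def k63_pm_102_s : ∃ t, chk3 f_pm_102_s t 29 82 1 = true :=
  ⟨(a (b (c (a (b (l 16685792) (l 16683512)) (b (l 16681568) (l 16679240))) (a (b (a (l 16685760) (l 16683488)) (a (l 16683264) (l 16680992))) (b (l 16680024) (l 16677536)))) (a (b (c (l 16681208) (a (l 16680752) (l 16678488))) (c (a (l 16679928) (l 16677768)) (a (l 16678232) (l 16675968)))) (b (c (l 16676896) (l 16675048)) (c (l 16674496) (a (l 16673696) (l 16671408)))))) (b (c (a (b (l 16677192) (l 16674848)) (l 16671448)) (a (b (l 16675312) (l 16672848)) (l 16669224))) (a (b (c (l 16672472) (l 16670392)) (c (l 16670064) (l 16667928))) (b (l 16666896) (l 16664496))))), by decide +kernel⟩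

def k64_pm_102_s : ∃ t, chk3 f_pm_102_s t 14 166 1 = true :=
  ⟨(b (a (a (a (c (b (l 16694112) (l 16693072)) (b (l 16693216) (l 16691976))) (c (b (l 16689928) (l 16688832)) (b (a (l 16689840) (l 16687576)) (a (l 16688576) (l 16686304))))) (a (c (b (l 16685664) (l 16684512)) (b (a (l 16685312) (l 16683056)) (a (l 16684032) (l 16681768)))) (c (b (l 16681368) (l 16680160)) (b (a (l 16680816) (l 16678576)) (a (l 16679528) (l 16677288)))))) (a (a (c (b (l 16677040) (l 16675800)) (b (l 16675200) (l 16673920))) (c (l 16672032) (a (l 16671176) (l 16668896)))) (a (c (l 16667592) (l 16665464)) (l 16662072)))) (a (a (a (c (b (l 16692000) (l 16690848)) (b (l 16690712) (l 16689408))) (c (b (l 16687688) (a (l 16687576) (l 16685368))) (b (a (l 16687296) (l 16685016)) (a (l 16685976) (l 16683688))))) (a (c (b (l 16683312) (a (l 16683152) (l 16680936))) (b (a (l 16682736) (l 16680464)) (a (l 16681408) (l 16679136)))) (c (b (l 16678920) (a (l 16678720) (l 16676512))) (b (a (l 16678224) (l 16675984))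 (a (l 16676888) (l 16674656)))))) (a (a (a (b (l 16674840) (l 16673512)) (b (l 16672624) (l 16671296))) (c (b (l 16670120) (l 16668776)) (b (l 16668128) (l 16666840)))) (a (c (l 16665000) (l 16668216)) (c (l 16660488) (l 16658384)))))), by decide +kernel⟩

def k65_pm_102_s : ∃ t, chk3 f_pm_102_s t 14 334 1 = true :=
  ⟨(b (a (b (a (a (l 16689296) (c (l 16685504) (l 16683808))) (a (c (l 16681032) (l 16679240)) (c (l 16676576) (l 16674744)))) (a (a (c (l 16689264) (l 16687696)) (c (l 16684808) (l 16683104))) (a (c (l 16680312) (l 16678536)) (c (l 16675832) (l 16674040))))) (a (b (a (c (l 16672136) (l 16670296)) (l 16666944)) (a (c (l 16671384) (l 16669608)) (l 16666232))) (a (c (l 16662904) (l 16661080)) (l 16657680)))) (a (b (a (a (c (l 16688544) (l 16686960)) (c (l 16684048) (l 16682360))) (a (a (l 16679928) (l 16677664)) (c (l 16675032) (l 16678544)))) (b (a (a (l 16687272) (c (l 16683416) (l 16681768))) (a (c (l 16678880) (l 16677208)) (c (l 16674368) (l 16672728)))) (a (a (l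 16686824) (c (l 16682936) (l 16681344))) (a (c (l 16678384) (l 16676784)) (c (l 16673864) (l 16672312)))))) (b (a (a (c (l 16670576) (l 16668888)) (c (l 16666152) (l 16664496))) (a (l 16661096) (l 16656672))) (a (a (b (l 16669280) (c (l 16669408) (l 16667936))) (c (l 16665240) (l 16663776))) (a (c (l 16660864) (l 16659432)) (l 16655952)))))), by decide +kernel⟩

def k66_pm_102_s : ∃ t, chk3 f_pm_102_s t 56 335 1 = true :=
  ⟨(b (b (b (a (c (l 16686920) (l 16685448)) (a (l 16688120) (a (l 16681168) (l 16680024)))) (b (a (c (l 16686352) (l 16684992)) (b (l 16681344) (a (l 16682264) (l 16679984)))) (b (b (a (l 16688080) (c (l 16681384) (l 16680136))) (b (a (b (b (l 16685328) (b (l 16685288) (b (l 16685256) (a (l 16686312) (l 16684032))))) (l 16685120)) (b (b (l 16680768) (b (l 16680720) (b (l 16680688) (c (a (l 16682168) (l 16679872)) (l 16679928))))) (l 16680560))) (a (l 16685112) (l 16680552)))) (a (l 16685064) (l 16680504))))) (a (l 16684720) (l 16680160))) (a (l 16683800) (l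 16679240))), by decide +kernel⟩

def k67_pm_102_s : ∃ t, chk3 f_pm_102_s t 57 335 2 = true :=
  ⟨(b (c (b (a (b (l 16677984) (b (c (l 16677400) (l 16677280)) (b (b (l 16676920) (b (b (b (l 16676744) (b (l 16676688) (a (l 16682896) (l 16680600)))) (l 16676408)) (l 16676392))) (l 16676344)))) (b (l 16673432) (b (l 16672784) (b (b (l 16672352) (b (b (b (l 16672176) (b (l 16672120) (a (l 16678320) (l 16670816)))) (l 16671840)) (l 16671824))) (l 16671784))))) (a (l 16676016) (l 16671448))) (b (a (b (l 16677528) (b (l 16676976) (b (b (l 16676616) (b (b (b (l 16676480) (b (l 16676432) (a (l 16677432) (l 16675176)))) (l 16676240)) (l 16676224))) (l 16676176)))) (c (b (l 16673160) (b (l 16672584) (b (b (l 16672216) (b (b (b (l 16672072) (b (l 16672024) (a (l 16673008) (l 16670784)))) (l 16671824)) (l 16671808))) (l 16671760)))) (b (l 16672880) (b (l 16672360) (b (b (l 16672032) (b (b (b (l 16671904) (a (l 16678104) (l 16681144))) (l 16671696)) (l 16671680))) (l 16671640)))))) (a (l 16675840)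 (l 16671368)))) (a (l 16675072) (l 16670560))), by decide +kernel⟩

def k68_pm_102_s : ∃ t, chk3 f_pm_102_s t 57 335 3 = true :=
  ⟨(b (c (b (a (b (l 16676784) (b (l 16676312) (b (b (l 16676024) (b (b (b (l 16675912) (b (l 16675880) (a (l 16676912) (l 16674680)))) (l 16675760)) (l 16675744))) (l 16675696)))) (b (l 16672328) (b (l 16671864) (b (b (l 16671592) (b (b (b (l 16671488) (b (l 16671456) (l 16677936))) (l 16671352)) (l 16671336))) (l 16671288))))) (a (l 16675352) (l 16670944))) (b (a (b (l 16675760) (b (l 16675360) (b (b (l 16675136) (b (b (b (l 16675056) (b (l 16675032) (l 16677608))) (l 16674968)) (l 16674952))) (l 16674904)))) (c (b (l 16671592) (b (l 16671200) (b (b (l 16670976) (b (b (b (l 16670904) (a (l 16671920) (l 16669760))) (l 16670816)) (l 16670800))) (l 16670752)))) (b (l 16671016) (b (l 16670664) (b (b (l 16670472) (b (b (b (l 16670408) (a (l 16671440) (l 16669288))) (l 16670344)) (l 16670328))) (l 16670280)))))) (a (l 16674544) (l 16670168)))) (a (l 16674048)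 (l 16669656))), by decide +kernel⟩

def k69_pm_102_s : ∃ t, chk3 f_pm_102_s t 29 335 1 = true :=
  ⟨(c (a (b (b (b (a (l 16668816) (l 16664416)) (b (a (l 16673472) (l 16663848)) (b (b (a (l 16667848) (l 16663488)) (b (b (b (a (l 16667696) (l 16663352)) (a (b (l 16667648) (a (l 16673848) (l 16666416))) (b (l 16663304) (a (l 16664248) (l 16662104))))) (a (l 16667432) (l 16663096))) (a (l 16667416) (l 16663080)))) (a (l 16667368) (l 16663040))))) (a (l 16667032) (l 16662704))) (a (l 16666136) (l 16661808))) (a (b (b (b (l 16660072) (b (l 16659536) (b (b (l 16659200) (a (c (c (l 16670240) (l 16670416)) (l 16659992)) (c (l 16657728) (l 16657888)))) (l 16658784)))) (l 16658456)) (l 16657560)) (b (b (b (l 16655744) (b (l 16655248) (b (b (l 16654952) (a (l 16653136) (l 16653656))) (l 16654584)))) (l 16654256)) (l 16653360)))) (b (b (b (a (a (l 16667504) (l 16663192)) (a (l 16658896) (l 16654584))) (b (a (a (l 16677600) (l 16662840)) (a (l 16658600) (l 16654344))) (b (b (a (a (l 16666904)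 (l 16662656)) (a (l 16658448) (l 16654240))) (a (b (b (b (a (l 16666824) (l 16662592)) (b (a (l 16666800) (l 16662576)) (a (c (l 16667080) (l 16666344)) (l 16662544)))) (a (l 16666736) (l 16662528))) (a (l 16666720) (l 16662512))) (a (c (l 16669144) (l 16668440)) (c (l 16654488) (l 16653768))))) (a (a (l 16666672) (l 16662464)) (l 16656208))))) (a (a (l 16666320) (l 16662112)) (a (l 16657944) (l 16653784)))) (a (a (l 16665384) (l 16661176)) (a (l 16657016) (l 16652856))))), by decide +kernel⟩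

def k70_pm_102_s : ∃ t, chk3 f_pm_102_s t 30 41 1 = true :=
  ⟨(b (a (a (c (b (l 16666640) (l 16661952)) (b (l 16664144) (l 16659432))) (b (l 16660312) (l 16655752))) (b (a (l 16654792) (a (l 16650440) (l 16647376))) (a (l 16650424) (a (l 16651448) (l 16643136))))) (b (b (a (a (l 16657304) (l 16652344)) (a (l 16647168) (a (l 16643064) (l 16640000)))) (a (a (l 16654920) (l 16650088)) (a (a (l 16646352) (l 16646384)) (l 16639488)))) (b (b (a (a (l 16653104) (l 16648392)) (a (a (l 16644760) (l 16642216)) (l 16637984))) (a (c (a (l 16652424) (l 16642648)) (a (l 16650856) (l 16646232))) (a (a (c (l 16644440) (c (l 16643232) (l 16641912))) (l 16641208)) (c (l 16638272) (l 16635528))))) (b (a (a (b (b (c (l 16651376) (l 16650200)) (b (c (l 16650952) (l 16650024)) (b (b (c (l 16650696) (l 16649968)) (c (l 16650496) (c (l 16650280) (l 16649512)))) (l 16650408)))) (l 16650064)) (b (b (c (l 16646968) (l 16645696)) (b (c (l 16646624) (l 16645584)) (b (b (c (l 16646432) (l 16645584)) (c (l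 16656784) (a (l 16646736) (a (l 16645104) (l 16641344))))) (c (l 16646208) (l 16645576))))) (c (l 16645880) (l 16645240)))) (b (b (a (c (l 16642528) (l 16640816)) (l 16636552)) (b (a (c (l 16642288) (l 16640720)) (l 16636456)) (a (c (l 16656520) (a (c (l 16663496) (l 16641464)) (l 16649912))) (b (b (l 16636448) (c (l 16663616) (l 16635192))) (a (l 16616856) (l 16635072)))))) (c (a (l 16641736) (l 16637040)) (a (l 16640400) (l 16634824))))) (a (a (l 16649168) (a (l 16646000) (l 16643864))) (c (a (l 16640864) (l 16636192)) (a (l 16639504) (l 16633952)))))))), by decide +kernel⟩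

def k71_pm_102_s : ∃ t, chk3 f_pm_102_s t 31 41 1 = true :=
  ⟨(a (b (a (b (l 16642304) (l 16638184)) (b (l 16635000) (c (l 16633160) (l 16628760)))) (b (a (b (l 16635144) (l 16633208)) (c (l 16639824) (b (l 16625832) (l 16624008)))) (b (b (a (l 16631816) (l 16624984)) (a (c (l 16632600) (l 16629136)) (c (l 16626224) (l 16622088)))) (b (b (b (a (l 16630576) (l 16623920)) (b (a (l 16630536) (l 16623920)) (b (b (a (l 16630568) (l 16623992)) (a (c (l 16631992) (l 16628984)) (c (l 16625856) (l 16622104)))) (a (l 16630632) (l 16624104))))) (a (l 16630320) (l 16623792))) (a (l 16629480) (l 16622968)))))) (a (b (b (c (l 16629344) (l 16624520)) (c (l 16625536) (l 16620600))) (b (c (b (l 16622744) (l 16620984)) (b (l 16617768) (l 16616032))) (b (c (b (l 16619736) (l 16619032)) (b (l 16614848) (l 16614264))) (b (b (b (l 16616448) (b (l 16616488) (b (b (l 16616584) (c (l 16618864) (l 16614416))) (l 16616736)))) (l 16616432)) (l 16615624))))) (c (b (b (l 16620664) (l 16616984)) (b (b (l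 16614312) (l 16612648)) (b (b (l 16611488) (a (l 16613016) (l 16608672))) (b (b (b (l 16610608) (b (l 16610640) (b (b (l 16610720) (a (l 16612984) (l 16608720))) (l 16610896)))) (l 16610600)) (l 16609832))))) (b (b (l 16615360) (a (l 16613904) (l 16609112))) (b (b (l 16608792) (a (l 16609456) (l 16604736))) (b (b (l 16606000) (a (l 16607776) (l 16603120))) (b (b (b (l 16605304) (b (l 16605416) (b (b (l 16605568) (a (l 16608024) (l 16603416))) (l 16605720)))) (l 16605416)) (l 16604608)))))))), by decide +kernel⟩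

def k72_pm_102_s : ∃ t, chk3 f_pm_102_s t 14 21 1 = true :=
  ⟨(a (a (b (a (b (b (l 16680760) (a (l 16677072) (l 16674792))) (b (a (l 16672288) (l 16670008)) (c (l 16667096) (l 16665384)))) (b (c (a (l 16675440) (l 16673152)) (a (l 16674112) (l 16671832))) (a (l 16665352) (l 16663080)))) (a (b (c (b (l 16662448) (l 16657840)) (b (l 16660600) (l 16655872))) (a (b (l 16653552) (a (l 16649528) (l 16648408))) (b (l 16651296) (l 16646720)))) (b (a (c (l 16656784) (l 16654768)) (l 16653696)) (c (a (l 16647696) (l 16645480)) (a (l 16645392) (l 16643080)))))) (b (a (b (c (a (l 16670864) (l 16668592)) (a (l 16669568) (l 16667328))) (c (l 16670848) (l 16658648))) (a (b (c (l 16666344) (l 16665128)) (l 16656344)) (b (b (l 16666144) (l 16661312)) (l 16654144)))) (a (b (a (l 16651432) (l 16649184)) (b (l 16643392) (l 16638848))) (b (c (l 16646712) (l 16644592)) (a (l 16637776) (l 16635584)))))) (b (a (a (a (b (c (l 16661904) (l 16660824)) (l 16651976)) (b (c (l 16659712) (l 16658712)) (l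 16649832))) (b (a (l 16657296) (l 16655192)) (a (l 16647712) (l 16645616)))) (a (b (b (c (l 16654600) (l 16653912)) (l 16649664)) (a (l 16643536) (l 16641480))) (c (b (l 16648056) (l 16638736)) (b (l 16647320) (l 16637568))))) (b (a (a (c (l 16642328) (l 16640264)) (a (l 16638320) (l 16636224))) (a (l 16633112) (l 16629016))) (a (a (l 16642816) (l 16628080)) (a (l 16623912) (l 16619808)))))), by decide +kernel⟩

def k73_pm_102_s : ∃ t, chk3 f_pm_102_s t 15 21 1 = true :=
  ⟨(a (a (b (a (c (b (l 16643880) (l 16634584)) (b (l 16643152) (l 16633464))) (a (c (l 16636088) (l 16645640)) (b (a (l 16639048) (l 16637992)) (c (l 16639904) (b (l 16630624) (l 16625848)))))) (b (a (l 16624920) (c (a (l 16622344) (l 16620304)) (l 16619768))) (a (l 16615728) (a (l 16612664) (l 16610624))))) (b (b (a (c (l 16635680) (l 16634168)) (c (a (l 16632336) (l 16629880)) (l 16628720))) (a (a (c (l 16627528) (l 16646920)) (b (l 16648016) (l 16622448))) (b (l 16623304) (b (l 16619912) (l 16617664))))) (a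 (c (b (l 16617528) (l 16608632)) (l 16610744)) (b (l 16612080) (l 16603216))))) (b (a (a (b (c (l 16625872) (l 16622640)) (b (l 16617752) (b (l 16614424) (l 16612232)))) (b (c (l 16619896) (l 16615896)) (b (l 16611496) (b (l 16608240) (l 16606112))))) (a (b (a (l 16612704) (l 16608848)) (b (l 16604400) (b (l 16601216) (l 16599160)))) (b (a (l 16604736) (c (l 16603080) (l 16597472))) (b (a (l 16598432) (l 16594096)) (b (l 16594480) (a (l 16593296) (l 16589032))))))) (b (a (a (l 16606832) (l 16600920)) (a (l 16599456) (a (l 16588560) (l 16584448)))) (a (a (l 16598232) (l 16592624)) (a (l 16586280) (a (l 16580928) (l 16577040))))))), by decide +kernel⟩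

def k74_pm_102_s : ∃ t, chk3 f_pm_102_s t 28 22 1 = true :=
  ⟨(a (b (a (a (b (b (a (l 16644984) (l 16643864)) (l 16639920)) (c (l 16634112) (l 16631832))) (b (c (b (l 16643144) (l 16638680)) (b (l 16640800) (l 16636256))) (b (l 16633240) (l 16628824)))) (a (b (b (l 16639952) (c (l 16636536) (l 16633944))) (b (a (l 16631584) (l 16630472)) (l 16626624))) (b (c (l 16636568) (l 16633904)) (c (b (l 16629984) (l 16625632)) (b (l 16627144) (l 16622704)))))) (a (b (c (a (l 16625248) (l 16623256)) (a (l 16622984) (l 16620704))) (c (a (l 16616440) (l 16614544)) (a (l 16614280) (l 16612032)))) (b (c (a (l 16621224) (l 16619168)) (a (l 16618416) (l 16616120))) (c (a (l 16612608) (l 16610632)) (a (l 16609768) (l 16607496)))))) (b (a (b (b (a (l 16635456) (l 16633224)) (a (l 16631000) (l 16628776))) (b (a (l 16626584) (l 16624368)) (a (c (l 16623504) (l 16620408)) (l 16620000)))) (b (a (l 16628784) (l 16626600)) (a (c (l 16621368) (l 16618104)) (l 16617816)))) (a (b (c (a (b (l 16619216)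 (l 16614960)) (b (l 16617104) (l 16612872))) (a (b (l 16616016) (l 16611664)) (b (l 16613744) (l 16609400)))) (c (a (l 16608616) (l 16606592)) (a (l 16605232) (b (l 16605104) (l 16600856))))) (b (a (b (l 16613512) (c (l 16610792) (l 16607160))) (c (l 16610792) (l 16607112))) (c (a (b (l 16606624) (l 16602488)) (b (l 16604568) (l 16600464))) (a (b (l 16602872) (l 16598632)) (b (l 16600664) (l 16596432)))))))), by decide +kernel⟩

def k75_pm_102_s : ∃ t, chk3 f_pm_102_s t 28 23 1 = true :=
  ⟨(a (b (a (b (c (a (l 16607648) (l 16605872)) (a (l 16605696) (l 16603488))) (c (l 16598032) (l 16596128))) (a (b (c (l 16604048) (l 16601272)) (l 16594528)) (b (c (l 16602168) (l 16599032)) (l 16592552)))) (a (b (c (l 16589232) (l 16587720)) (c (l 16580368) (l 16579352))) (b (c (l 16586160) (l 16583544)) (c (l 16577632) (l 16575352))))) (b (a (b (c (a (l 16600248) (l 16598304)) (a (l 16596792) (l 16594568))) (c (l 16591024) (a (l 16588504) (l 16586312)))) (b (c (a (l 16596344) (l 16594368))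 (a (l 16592360) (l 16595408))) (c (a (l 16588224) (l 16586336)) (a (l 16584136) (l 16581976))))) (a (b (c (l 16582808) (l 16579272)) (c (l 16574600) (l 16571240))) (b (c (l 16579288) (a (l 16576072) (l 16573944))) (c (l 16571352) (l 16567088)))))), by decide +kernel⟩

def k76_pm_102_s : ∃ t, chk3 f_pm_102_s t 29 11 1 = true :=
  ⟨(b (a (b (b (a (a (l 16624432) (l 16622288)) (l 16619104)) (a (a (l 16615656) (l 16613520)) (l 16610336))) (a (b (a (c (l 16608696) (l 16604928)) (l 16604952)) (a (b (l 16600768) (l 16596624)) (c (l 16598408) (l 16594200)))) (b (a (l 16602840) (l 16600744)) (a (c (l 16596360) (l 16592072)) (l 16592408))))) (b (b (a (l 16614928) (l 16610816)) (a (l 16606168) (l 16602040))) (a (b (l 16597624) (a (l 16590336) (l 16588272))) (b (l 16593504) (l 16585184))))) (a (b (a (a (b (b (a (l 16593040) (l 16592000)) (l 16588456)) (c (l 16584424) (l 16579832))) (b (b (l 16590432) (c (l 16588400) (l 16583792))) (c (l 16582504) (l 16577696)))) (b (a (c (l 16588376) (l 16583720))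 (c (l 16586368) (l 16581616))) (c (a (l 16580560) (l 16578600)) (a (l 16580824) (l 16573488))))) (a (b (c (a (l 16576584) (l 16574736)) (a (l 16571832) (l 16569728))) (c (l 16567944) (a (l 16563992) (l 16561928)))) (b (c (a (l 16572880) (l 16570992)) (a (l 16567640) (l 16565560))) (c (a (l 16565304) (l 16563512)) (a (l 16559880) (l 16557832)))))) (b (a (b (a (l 16582224) (l 16580176)) (a (c (l 16576640) (l 16571400)) (l 16572288))) (b (a (l 16578128) (l 16576080)) (a (l 16570256) (l 16568224)))) (a (b (a (c (l 16569088) (l 16563496)) (c (l 16567168) (l 16561440))) (c (a (l 16561688) (l 16559840)) (a (l 16555792) (l 16553760)))) (a (b (l 16562600) (a (l 16555632) (l 16554648))) (b (l 16560584) (l 16553160))))))), by decide +kernel⟩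

def k77_pm_102_s : ∃ t, chk3 f_pm_102_s t 15 11 1 = true :=
  ⟨(a (b (a (b (a (b (l 16606720) (l 16597936)) (b (l 16602648) (l 16593840))) (a (b (l 16589376) (l 16581064)) (b (l 16585256) (l 16576920)))) (b (a (b (l 16598704) (l 16589936)) (b (l 16594464) (l 16585848))) (a (b (l 16581352) (l 16573000)) (b (l 16577392) (l 16569120))))) (a (b (a (b (l 16572984) (l 16565136)) (b (l 16568840) (l 16561000))) (a (b (a (l 16558552) (l 16556504)) (a (l 16551152) (l 16549128))) (b (l 16553408) (l 16546056)))) (b (a (a (b (l 16565800) (l 16557944)) (l 16560040)) (b (l 16561080) (l 16553280))) (a (a (b (l 16550344) (l 16543000)) (b (l 16548552) (l 16541208))) (b (l 16545720) (l 16538416)))))) (b (a (b (a (b (l 16589704) (l 16581280)) (b (l 16584376) (l 16576192))) (a (b (l 16572984) (l 16564848)) (b (l 16568112) (l 16560152)))) (b (a (b (l 16578352) (l 16570456)) (b (l 16592440) (l 16563912))) (a (b (l 16562632) (l 16554904)) (b (l 16556392) (l 16548936))))) (a (b (a (b (l 16556904) (l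 16549176)) (b (l 16552352) (l 16544736))) (a (b (l 16541688) (c (l 16538216) (l 16530280))) (b (c (l 16541040) (l 16533312)) (l 6)))) (b (a (b (l 16547288) (l 16539824)) (b (l 16541560) (l 16534304))) (a (b (l 16543032) (l 6)) (l 6)))))), by decide +kernel⟩

def k78_pm_102_s : ∃ t, chk3 f_pm_102_s t 6 3 1 = true :=
  ⟨(b (a (b (a (b (b (a (l 16669840) (l 16648976)) (a (l 16666000) (l 16622392))) (a (l 2) (l 16643888))) (b (a (b (l 16628032) (l 16620096)) (b (l 16607776) (l 16597272))) (a (l 16620360) (b (l 16596144) (l 16596328))))) (a (l 2) (b (a (l 2) (l 16598560)) (l 2)))) (b (a (b (a (b (c (l 16603288) (l 16593952)) (b (l 16576664) (l 16574456))) (b (a (c (l 16590616) (l 16581840)) (b (l 16580280) (l 16569104))) (a (b (l 16561800) (l 16558744)) (b (l 16558312) (l 16552968))))) (a (b (l 16573168) (l 16572312)) (b (a (l 16556704) (c (l 16542552) (l 16553128))) (a (l 16554928) (l 16586248))))) (b (a (b (a (c (l 16570184) (l 16578064)) (b (l 16578728) (l 16568744))) (b (a (c (l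 16553664) (l 16563520)) (b (l 16561096) (l 16556856))) (a (l 16553216) (l 16552864)))) (b (a (b (l 16576800) (l 16567312)) (b (l 16574392) (l 16565328))) (b (a (l 16558040) (l 16556464)) (a (l 16551832) (l 16550280))))) (a (b (c (l 16594120) (l 16549168)) (a (l 16538840) (l 16536584))) (b (a (l 16543864) (b (l 16544704) (l 16539296))) (a (l 16534120) (l 16531520)))))) (b (b (a (a (l 16572584) (l 16548352)) (a (a (l 16533568) (l 6)) (l 6))) (l 6)) (l 6)))) (l 6)), by decide +kernel⟩

def k79_pm_102_s : ∃ t, chk3 f_pm_102_s t 14 6 1 = true :=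
  ⟨(b (a (b (a (b (a (b (l 16571608) (l 16562904)) (b (c (l 16569048) (l 16567200)) (l 16560136))) (b (a (c (l 16553472) (l 16554392)) (c (l 16551888) (l 16551104))) (a (l 16548176) (l 16545680)))) (b (a (b (c (l 16566352) (l 16563272)) (c (l 16558056) (l 16555344))) (b (c (l 16563424) (l 16559280)) (c (l 16555456) (l 16551536)))) (b (a (c (l 16549912) (l 16547592)) (b (l 16548016) (a (l 16545168) (l 16543672)))) (a (c (l 16543672) (l 16541216)) (c (l 16541368) (l 16537552)))))) (a (b (a (b (l 16542544) (l 16536944)) (c (l 16547800) (l 16536016))) (b (a (l 16531512) (l 16528704)) (l 6))) (b (a (c (b (l 16537952) (l 16532344)) (b (l 16535264) (l 16529440))) (c (b (l 16535536) (l 16529832)) (b (l 16531512) (l 16525616)))) (l 6)))) (b (a (b (a (b (c (l 16560288) (l 16555272)) (c (l 16552648) (l 16547696))) (b (c (l 16556976) (a (l 16552272) (l 16550264))) (c (l 16549608) (l 16543816)))) (b (b (a (l 16544864) (l 16552048)) (a (c (l 16543376) (l 16538544)) (c (l 16540664) (l 16534832))))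 (a (c (l 16538848) (l 16533840)) (c (l 16536088) (l 16530072))))) (b (a (a (b (c (l 16554400) (l 16548264)) (l 16544384)) (b (c (l 16552648) (l 16546264)) (l 16542576))) (b (c (a (l 16550848) (l 16549008)) (a (l 16544256) (l 16542240))) (c (l 16542992) (a (l 16536984) (l 16534992))))) (b (b (a (l 16548616) (l 16545056)) (a (c (l 16537728) (l 16531064)) (c (l 16534568) (l 16527232)))) (a (c (l 16533136) (l 16526256)) (c (l 16529944) (l 16522376)))))) (a (b (b (a (c (l 16532912) (l 16527712)) (c (l 16530104) (l 16523880))) (l 6)) (l 6)) (l 6)))) (l 6)), by decide +kernel⟩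

def k80_pm_102_s : ∃ t, chk3 f_pm_102_s t 15 6 1 = true :=
  ⟨(b (a (b (a (b (a (b (a (l 16543960) (l 16541968)) (c (l 16539400) (l 16531984))) (b (a (l 16539952) (l 16537912)) (c (l 16535616) (l 16527896)))) (a (b (c (b (l 16534408) (l 16531176)) (a (l 16525992) (l 16524000))) (l 6)) (l 6))) (b (a (a (b (l 16535904) (a (l 16529504) (l 16528512))) (b (l 16534096) (l 6))) (b (l 16531344) (l 6))) (l 6))) (l 6)) (l 6)) (l 6)), by decide +kernel⟩

def k81_pm_102_s : ∃ t, chk3 f_pm_102_s t 7 7 1 = true :=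
  ⟨(l 6), by decide +kernel⟩

theorem s82_pm_102_s : ∃ t, chk3 f_pm_102_s t 7 6 1 = true := ex3_a k79_pm_102_s k80_pm_102_s

theorem s83_pm_102_s : ∃ t, chk3 f_pm_102_s t 7 3 1 = true := ex3_b s82_pm_102_s k81_pm_102_s

theorem s84_pm_102_s : ∃ t, chk3 f_pm_102_s t 3 3 1 = true := ex3_a k78_pm_102_s s83_pm_102_s

theorem s85_pm_102_s : ∃ t, chk3 f_pm_102_s t 28 11 1 = true := ex3_b k74_pm_102_s k75_pm_102_s

theorem s86_pm_102_s : ∃ t, chk3 f_pm_102_s t 14 11 1 = true := ex3_a s85_pm_102_s k76_pm_102_s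

theorem s87_pm_102_s : ∃ t, chk3 f_pm_102_s t 7 11 1 = true := ex3_a s86_pm_102_s k77_pm_102_s

theorem s88_pm_102_s : ∃ t, chk3 f_pm_102_s t 7 21 1 = true := ex3_a k72_pm_102_s k73_pm_102_s

theorem s89_pm_102_s : ∃ t, chk3 f_pm_102_s t 15 41 1 = true := ex3_a k70_pm_102_s k71_pm_102_s

theorem s90_pm_102_s : ∃ t, chk3 f_pm_102_s t 57 335 1 = true := ex3_c k67_pm_102_s k68_pm_102_s

theorem s91_pm_102_s : ∃ t, chk3 f_pm_102_s t 28 335 1 = true := ex3_a k66_pm_102_s s90_pm_102_s

theorem s92_pm_102_s : ∃ t, chk3 f_pm_102_s t 14 335 1 = true := ex3_a s91_pm_102_s k69_pm_102_s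

theorem s93_pm_102_s : ∃ t, chk3 f_pm_102_s t 14 167 1 = true := ex3_b k65_pm_102_s s92_pm_102_s

theorem s94_pm_102_s : ∃ t, chk3 f_pm_102_s t 14 83 1 = true := ex3_b k64_pm_102_s s93_pm_102_s

theorem s95_pm_102_s : ∃ t, chk3 f_pm_102_s t 14 82 1 = true := ex3_a k62_pm_102_s k63_pm_102_s

theorem s96_pm_102_s : ∃ t, chk3 f_pm_102_s t 14 41 1 = true := ex3_b s95_pm_102_s s94_pm_102_s

theorem s97_pm_102_s : ∃ t, chk3 f_pm_102_s t 7 41 1 = true := ex3_a s96_pm_102_s s89_pm_102_s

theorem s98_pm_102_s : ∃ t, chk3 f_pm_102_s t 28 40 1 = true := ex3_b k58_pm_102_s k59_pm_102_s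

theorem s99_pm_102_s : ∃ t, chk3 f_pm_102_s t 14 40 1 = true := ex3_a s98_pm_102_s k60_pm_102_s

theorem s100_pm_102_s : ∃ t, chk3 f_pm_102_s t 7 40 1 = true := ex3_a s99_pm_102_s k61_pm_102_s

theorem s101_pm_102_s : ∃ t, chk3 f_pm_102_s t 7 20 1 = true := ex3_b s100_pm_102_s s97_pm_102_s

theorem s102_pm_102_s : ∃ t, chk3 f_pm_102_s t 7 10 1 = true := ex3_b s101_pm_102_s s88_pm_102_s

theorem s103_pm_102_s : ∃ t, chk3 f_pm_102_s t 7 5 1 = true := ex3_b s102_pm_102_s s87_pm_102_s

theorem s104_pm_102_s : ∃ t, chk3 f_pm_102_s t 6 11 1 = true := ex3_a k56_pm_102_s k57_pm_102_s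

theorem s105_pm_102_s : ∃ t, chk3 f_pm_102_s t 6 21 1 = true := ex3_a k54_pm_102_s k55_pm_102_s

theorem s106_pm_102_s : ∃ t, chk3 f_pm_102_s t 27 83 1 = true := ex3_b k52_pm_102_s k53_pm_102_s

theorem s107_pm_102_s : ∃ t, chk3 f_pm_102_s t 13 83 1 = true := ex3_a k51_pm_102_s s106_pm_102_s

theorem s108_pm_102_s : ∃ t, chk3 f_pm_102_s t 6 83 1 = true := ex3_a k50_pm_102_s s107_pm_102_s

theorem s109_pm_102_s : ∃ t, chk3 f_pm_102_s t 6 82 1 = true := ex3_a k48_pm_102_s k49_pm_102_s

theorem s110_pm_102_s : ∃ t, chk3 f_pm_102_s t 6 41 1 = true := ex3_b s109_pm_102_s s108_pm_102_s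

theorem s111_pm_102_s : ∃ t, chk3 f_pm_102_s t 13 40 1 = true := ex3_a k46_pm_102_s k47_pm_102_s

theorem s112_pm_102_s : ∃ t, chk3 f_pm_102_s t 6 40 1 = true := ex3_a k45_pm_102_s s111_pm_102_s

theorem s113_pm_102_s : ∃ t, chk3 f_pm_102_s t 6 20 1 = true := ex3_b s112_pm_102_s s110_pm_102_s

theorem s114_pm_102_s : ∃ t, chk3 f_pm_102_s t 6 10 1 = true := ex3_b s113_pm_102_s s105_pm_102_s

theorem s115_pm_102_s : ∃ t, chk3 f_pm_102_s t 6 5 1 = true := ex3_b s114_pm_102_s s104_pm_102_s

theorem s116_pm_102_s : ∃ t, chk3 f_pm_102_s t 3 5 1 = true := ex3_a s115_pm_102_s s103_pm_102_s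

theorem s117_pm_102_s : ∃ t, chk3 f_pm_102_s t 14 39 1 = true := ex3_a k42_pm_102_s k43_pm_102_s

theorem s118_pm_102_s : ∃ t, chk3 f_pm_102_s t 14 38 1 = true := ex3_a k40_pm_102_s k41_pm_102_s

theorem s119_pm_102_s : ∃ t, chk3 f_pm_102_s t 14 19 1 = true := ex3_b s118_pm_102_s s117_pm_102_s

theorem s120_pm_102_s : ∃ t, chk3 f_pm_102_s t 7 19 1 = true := ex3_a s119_pm_102_s k44_pm_102_s

theorem s121_pm_102_s : ∃ t, chk3 f_pm_102_s t 15 18 1 = true := ex3_a k38_pm_102_s k39_pm_102_s

theorem s122_pm_102_s : ∃ t, chk3 f_pm_102_s t 29 36 1 = true := ex3_a k35_pm_102_s k36_pm_102_s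

theorem s123_pm_102_s : ∃ t, chk3 f_pm_102_s t 29 18 1 = true := ex3_b s122_pm_102_s k37_pm_102_s

theorem s124_pm_102_s : ∃ t, chk3 f_pm_102_s t 28 37 1 = true := ex3_b k33_pm_102_s k34_pm_102_s

theorem s125_pm_102_s : ∃ t, chk3 f_pm_102_s t 28 18 1 = true := ex3_b k32_pm_102_s s124_pm_102_s

theorem s126_pm_102_s : ∃ t, chk3 f_pm_102_s t 14 18 1 = true := ex3_a s125_pm_102_s s123_pm_102_s

theorem s127_pm_102_s : ∃ t, chk3 f_pm_102_s t 7 18 1 = true := ex3_a s126_pm_102_s s121_pm_102_s

theorem s128_pm_102_s : ∃ t, chk3 f_pm_102_s t 7 9 1 = true := ex3_b s127_pm_102_s s120_pm_102_s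

theorem s129_pm_102_s : ∃ t, chk3 f_pm_102_s t 31 17 1 = true := ex3_a k30_pm_102_s k31_pm_102_s

theorem s130_pm_102_s : ∃ t, chk3 f_pm_102_s t 61 34 1 = true := ex3_b k27_pm_102_s k28_pm_102_s

theorem s131_pm_102_s : ∃ t, chk3 f_pm_102_s t 30 34 1 = true := ex3_a k26_pm_102_s s130_pm_102_s

theorem s132_pm_102_s : ∃ t, chk3 f_pm_102_s t 30 17 1 = true := ex3_b s131_pm_102_s k29_pm_102_s

theorem s133_pm_102_s : ∃ t, chk3 f_pm_102_s t 15 17 1 = true := ex3_a s132_pm_102_s s129_pm_102_s

theorem s134_pm_102_s : ∃ t, chk3 f_pm_102_s t 63 33 1 = true := ex3_a k24_pm_102_s k25_pm_102_s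

theorem s135_pm_102_s : ∃ t, chk3 f_pm_102_s t 63 16 1 = true := ex3_b k23_pm_102_s s134_pm_102_s

theorem s136_pm_102_s : ∃ t, chk3 f_pm_102_s t 62 67 1 = true := ex3_a k21_pm_102_s k22_pm_102_s

theorem s137_pm_102_s : ∃ t, chk3 f_pm_102_s t 125 66 1 = true := ex3_a k19_pm_102_s k20_pm_102_s

theorem s138_pm_102_s : ∃ t, chk3 f_pm_102_s t 62 66 1 = true := ex3_a k18_pm_102_s s137_pm_102_s

theorem s139_pm_102_s : ∃ t, chk3 f_pm_102_s t 62 33 1 = true := ex3_b s138_pm_102_s s136_pm_102_s

theorem s140_pm_102_s : ∃ t, chk3 f_pm_102_s t 62 16 1 = true := ex3_b k17_pm_102_s s139_pm_102_s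

theorem s141_pm_102_s : ∃ t, chk3 f_pm_102_s t 31 16 1 = true := ex3_a s140_pm_102_s s135_pm_102_s

theorem s142_pm_102_s : ∃ t, chk3 f_pm_102_s t 15 16 1 = true := ex3_a k16_pm_102_s s141_pm_102_s

theorem s143_pm_102_s : ∃ t, chk3 f_pm_102_s t 15 8 1 = true := ex3_b s142_pm_102_s s133_pm_102_s

theorem s144_pm_102_s : ∃ t, chk3 f_pm_102_s t 7 8 1 = true := ex3_a k15_pm_102_s s143_pm_102_s

theorem s145_pm_102_s : ∃ t, chk3 f_pm_102_s t 7 4 1 = true := ex3_b s144_pm_102_s s128_pm_102_s

theorem s146_pm_102_s : ∃ t, chk3 f_pm_102_s t 13 39 1 = true := ex3_a k13_pm_102_s k14_pm_102_s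

theorem s147_pm_102_s : ∃ t, chk3 f_pm_102_s t 13 19 1 = true := ex3_b k12_pm_102_s s146_pm_102_s

theorem s148_pm_102_s : ∃ t, chk3 f_pm_102_s t 6 19 1 = true := ex3_a k11_pm_102_s s147_pm_102_s

theorem s149_pm_102_s : ∃ t, chk3 f_pm_102_s t 6 9 1 = true := ex3_b k10_pm_102_s s148_pm_102_s

theorem s150_pm_102_s : ∃ t, chk3 f_pm_102_s t 6 4 1 = true := ex3_b k9_pm_102_s s149_pm_102_s

theorem s151_pm_102_s : ∃ t, chk3 f_pm_102_s t 3 4 1 = true := ex3_a s150_pm_102_s s145_pm_102_s

theorem s152_pm_102_s : ∃ t, chk3 f_pm_102_s t 3 2 1 = true := ex3_b s151_pm_102_s s116_pm_102_s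

theorem s153_pm_102_s : ∃ t, chk3 f_pm_102_s t 3 1 1 = true := ex3_b s152_pm_102_s s84_pm_102_s

theorem s154_pm_102_s : ∃ t, chk3 f_pm_102_s t 5 83 1 = true := ex3_b k4_pm_102_s k5_pm_102_s

theorem s155_pm_102_s : ∃ t, chk3 f_pm_102_s t 5 41 1 = true := ex3_b k3_pm_102_s s154_pm_102_s

theorem s156_pm_102_s : ∃ t, chk3 f_pm_102_s t 5 20 1 = true := ex3_b k2_pm_102_s s155_pm_102_s

theorem s157_pm_102_s : ∃ t, chk3 f_pm_102_s t 5 10 1 = true := ex3_b s156_pm_102_s k6_pm_102_s

theorem s158_pm_102_s : ∃ t, chk3 f_pm_102_s t 2 10 1 = true := ex3_a k1_pm_102_s s157_pm_102_s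

theorem s159_pm_102_s : ∃ t, chk3 f_pm_102_s t 2 5 1 = true := ex3_b s158_pm_102_s k7_pm_102_s

theorem s160_pm_102_s : ∃ t, chk3 f_pm_102_s t 2 2 1 = true := ex3_b k0_pm_102_s s159_pm_102_s

theorem s161_pm_102_s : ∃ t, chk3 f_pm_102_s t 2 1 1 = true := ex3_b s160_pm_102_s k8_pm_102_s

theorem s162_pm_102_s : ∃ t, chk3 f_pm_102_s t 1 1 1 = true := ex3_a s161_pm_102_s s153_pm_102_s

theorem c_pm_102_s : CertNE 536870912 536870912 0 536870912 649613803 48318383 3 eng mog cd0q1 cd0q0 pd2 true true false .npp 1 0 2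
    ndB0q1 ndB0q0 pcB2 cut_pm_102_s Ext.none :=
  certNE1 (fam := true) (s1 := true) (s2 := false) (a := 1) (b := 0) (c := 2) (cn := .npp) (n1 := ndB0q1) (n2 := ndB0q0) (pc := pcB2) (cut := cut_pm_102_s) (xt := Ext.none) (P1 := 536870912) (W1 := 536870912) (P2 := 0) (W2 := 536870912) (P3 := 649613803) (W3 := 48318383) (N0 := 3) (En := eng) (mo := mog) (C1 := cd0q1) (C2 := cd0q0) (C3 := pd2)
    rfl (fun _ => rfl) s162_pm_102_s

noncomputable def cut_pm_102_t : Cut := Cut.of [[⟨3, 0, 0, 2845415833⟩], [⟨0, 1, 0, 33554432⟩, ⟨1, 0, 0, 33554432⟩, ⟨2, 1, 0, 33554432⟩]]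

noncomputable def f_pm_102_t : ℕ → ℕ → ℕ → ℕ → Bool := onCell 536870912 536870912 0 536870912 649613803 48318383
    (rowNE 3 eng mog cd0q1 cd0q0 pd2 0 true true false .npp 1 0 2 (qsf 536870912 536870912 0 536870912 2) ndB0q1 ndB0q0 pcB2 cut_pm_102_t Ext.none)

def k0_pm_102_t : ∃ t, chk3 f_pm_102_t t 1 1 1 = true :=
  ⟨(l 6), by decide +kernel⟩

theorem c_pm_102_t : CertNE 536870912 536870912 0 536870912 649613803 48318383 3 eng mog cd0q1 cd0q0 pd2 true true false .npp 1 0 2
    ndB0q1 ndB0q0 pcB2 cut_pm_102_t Ext.none :=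
  certNE0 (fam := true) (s1 := true) (s2 := false) (a := 1) (b := 0) (c := 2) (cn := .npp) (n1 := ndB0q1) (n2 := ndB0q0) (pc := pcB2) (cut := cut_pm_102_t) (xt := Ext.none) (P1 := 536870912) (W1 := 536870912) (P2 := 0) (W2 := 536870912) (P3 := 649613803) (W3 := 48318383) (N0 := 3) (En := eng) (mo := mog) (C1 := cd0q1) (C2 := cd0q0) (C3 := pd2)
    rfl k0_pm_102_t

noncomputable def cut_pm_112_s : Cut := Cut.of [[⟨4, 0, 0, 1449551462⟩]]

noncomputable def f_pm_112_s : ℕ → ℕ → ℕ → ℕ → Bool := onCell 1073741824 536870912 536870912 536870912 649613803 48318383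
    (rowNE 3 eng mog cd0q1 cd0q1 pd2 2 true true false .dn 1 1 2 (qsf 536870912 536870912 536870912 536870912 2) ndB0q1 ndB0q1 pcB2 cut_pm_112_s Ext.none)

def k0_pm_112_s : ∃ t, chk3 f_pm_112_s t 4 2 1 = true :=
  ⟨(a (l 3) (l 3)), by decide +kernel⟩

def k1_pm_112_s : ∃ t, chk3 f_pm_112_s t 20 4 1 = true :=
  ⟨(a (l 3) (a (l 3) (a (b (b (b (a (l 3) (a (l 3) (l 16782384))) (l 3)) (l 3)) (l 3)) (b (b (b (a (a (l 16781856) (a (l 16776176) (l 16775832))) (a (a (a (l 16775504) (a (l 16775208) (l 16774992))) (l 16774720)) (l 16774248))) (a (a (l 16782304) (a (l 16776840) (l 16776536))) (a (a (a (l 16776320) (a (l 16776176) (a (a (l 16776048) (l 16775952)) (l 16775888)))) (l 16775728)) (l 16775280)))) (a (a (l 3) (a (b (l 16777056) (l 3)) (b (l 16777072) (l 16777032)))) (b (a (a (a (l 16776864) (a (l 16776768) (a (a (l 16776728) (l 16776712)) (l 16776688)))) (l 16776528)) (l 16776096)) (a (a (a (l 16777192) (a (l 16777096) (a (a (l 16777056) (l 16777040)) (l 16777016)))) (l 16776864))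 (l 16776448))))) (a (b (l 3) (a (l 3) (a (b (l 3) (l 16777112)) (b (l 16777064) (l 16777008))))) (a (a (a (b (b (l 3) (l 3)) (b (l 16777168) (l 16776808))) (a (b (b (l 16777184) (l 16777192)) (b (l 16777064) (l 16776720))) (a (a (b (b (l 16777200) (l 16777192)) (b (l 16777032) (l 16776688))) (b (b (l 16777184) (l 16777176)) (b (l 16777016) (l 16776664)))) (b (b (l 16777160) (l 16777152)) (c (l 16786024) (l 16785944)))))) (b (b (l 16777008) (l 16777008)) (b (l 16776840) (l 16776488)))) (b (b (l 16776616) (l 16776608)) (b (l 16776440) (l 16776072))))))))), by decide +kernel⟩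

def k2_pm_112_s : ∃ t, chk3 f_pm_112_s t 21 4 1 = true :=
  ⟨(b (a (b (b (a (l 16771312) (l 16765952)) (a (l 16772520) (l 16767448))) (b (a (l 16773432) (l 16768712)) (a (l 16773976) (l 16769576)))) (b (b (a (l 16760448) (l 16754800)) (l 16780720)) (b (l 16782544) (l 16783832)))) (b (a (b (a (l 16774224) (l 16770016)) (a (l 16774256) (l 16770136))) (b (l 16763728) (l 16764080))) (b (a (a (l 16774064) (l 16769936)) (l 16763968)) (a (a (l 16773624) (l 16769408)) (l 16763376))))), by decide +kernel⟩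

def k3_pm_112_s : ∃ t, chk3 f_pm_112_s t 10 5 1 = true :=
  ⟨(b (b (a (a (l 3) (a (l 3) (a (a (l 3) (a (b (l 3) (l 16782016)) (b (l 16781936) (l 16782224)))) (a (a (b (l 16782416) (l 16781696)) (a (b (l 16776736) (l 16776048)) (b (l 16776456) (l 16775720)))) (a (a (a (b (l 16776248) (l 16775384)) (a (b (l 16776096) (l 16775096)) (b (l 16775904) (l 16774896)))) (b (l 16775656) (l 16774640))) (b (l 16775256) (l 16774216))))))) (a (b (a (l 16772760) (l 16768448)) (a (l 16771616) (l 16767088))) (b (l 16762264) (l 16781656)))) (a (a (l 1) (a (l 1) (a (l 1) (a (l 1) (a (l 1) (b (l 16773200) (l 1))))))) (a (b (a (l 16780864) (l 16765544)) (b (l 16777296) (l 1))) (b (l 16779704) (l 16777440))))) (a (l 1) (b (b (a (l 1) (l 16774944)) (l 1)) (l 1)))), by decide +kernel⟩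

def k4_pm_112_s : ∃ t, chk3 f_pm_112_s t 11 2 1 = true :=
  ⟨(b (b (a (b (a (b (l 16746000) (l 16770096)) (b (l 16733544) (l 16737936))) (a (b (l 16751736) (l 16753912)) (b (l 16741640) (l 16744664)))) (b (a (b (l 16719504) (l 16725952)) (b (l 16702024) (l 16712848))) (a (b (l 16731032) (l 16735200)) (l 16743576)))) (a (b (a (b (l 16755320) (l 16756200)) (b (l 16746992) (l 16748384))) (b (l 16773640) (l 16773240))) (b (a (l 16760768) (l 16778672)) (b (l 16738472) (l 16738992))))) (b (b (a (b (a (l 16754672) (l 16747760)) (a (l 16752864) (l 16745912))) (b (l 16738456) (l 16736840))) (a (a (b (l 16750520) (l 16747624)) (b (l 16743256) (l 16739888))) (b (l 16734176) (l 16730320)))) (a (b (b (a (l 16744272) (l 16735816)) (a (l 16781928) (l 16730952))) (b (c (l 55331263479) (l 55331266199)) (l 1))) (b (b (l 16725472) (l 16719632)) (b (c (l 16775720) (l 16773016)) (l 63921174215)))))), by decide +kernel⟩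

def k5_pm_112_s : ∃ t, chk3 f_pm_112_s t 2 3 1 = true :=
  ⟨(a (l 1) (b (a (l 1) (b (b (a (l 1) (b (l 49425507591) (l 1))) (l 1)) (l 1))) (l 1))), by decide +kernel⟩

def k6_pm_112_s : ∃ t, chk3 f_pm_112_s t 3 1 1 = true :=
  ⟨(a (a (b (b (b (a (b (b (a (l 16679776) (a (l 16660632) (l 16648896))) (a (l 16696600) (l 16676552))) (a (l 16753384) (b (l 16692656) (l 16703384)))) (b (a (b (l 16631576) (l 16654784)) (b (l 16608400) (l 16632520))) (b (a (l 16675640) (l 16655464)) (l 16682056)))) (b (a (a (l 16723120) (l 16714312)) (a (l 16705304) (l 16694760))) (a (b (l 16724920) (l 16727184)) (a (l 16716888) (l 16710552))))) (b (b (a (l 16769432) (b (l 16718464) (l 16719456))) (a (b (l 16724984) (l 16721312)) (l 16738312))) (b (a (b (l 16715976) (l 16709176)) (l 16708008)) (a (a (b (l 16702912) (l 16689408)) (b (l 16698784) (l 16685984))) (b (l 16695464) (l 16683216)))))) (b (b (b (a (a (b (l 16669824) (l 16648952)) (b (l 16665992) (l 16643344))) (b (l 16665848) (l 16643880))) (b (a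 (a (l 1) (l 16620072)) (l 16620336)) (a (l 1) (a (l 16596120) (l 16596312))))) (b (a (l 1) (b (a (l 1) (l 16614232)) (l 1))) (l 1))) (l 1))) (a (b (b (b (a (b (b (l 16584912) (l 16609896)) (l 16645656)) (b (b (l 6) (l 16586880)) (l 16624392))) (b (b (l 16666960) (l 16681984)) (l 16763064))) (b (b (l 16711920) (l 16735240)) (b (l 16707408) (l 16689624)))) (b (b (b (b (l 16667096) (l 16646792)) (b (l 16623416) (l 16598552))) (a (b (b (l 16572568) (l 16548328)) (l 1)) (l 6))) (l 1))) (b (b (b (l 6) (l 6)) (l 6)) (b (l 6) (l 6))))) (b (b (l 6) (l 6)) (l 6))), by decide +kernel⟩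

theorem s7_pm_112_s : ∃ t, chk3 f_pm_112_s t 10 4 1 = true := ex3_a k1_pm_112_s k2_pm_112_s

theorem s8_pm_112_s : ∃ t, chk3 f_pm_112_s t 10 2 1 = true := ex3_b s7_pm_112_s k3_pm_112_s

theorem s9_pm_112_s : ∃ t, chk3 f_pm_112_s t 5 2 1 = true := ex3_a s8_pm_112_s k4_pm_112_s

theorem s10_pm_112_s : ∃ t, chk3 f_pm_112_s t 2 2 1 = true := ex3_a k0_pm_112_s s9_pm_112_s

theorem s11_pm_112_s : ∃ t, chk3 f_pm_112_s t 2 1 1 = true := ex3_b s10_pm_112_s k5_pm_112_s

theorem s12_pm_112_s : ∃ t, chk3 f_pm_112_s t 1 1 1 = true := ex3_a s11_pm_112_s k6_pm_112_s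

theorem c_pm_112_s : CertNE 536870912 536870912 536870912 536870912 649613803 48318383 3 eng mog cd0q1 cd0q1 pd2 true true false .dn 1 1 2
    ndB0q1 ndB0q1 pcB2 cut_pm_112_s Ext.none :=
  certNE2 (fam := true) (s1 := true) (s2 := false) (a := 1) (b := 1) (c := 2) (cn := .dn) (n1 := ndB0q1) (n2 := ndB0q1) (pc := pcB2) (cut := cut_pm_112_s) (xt := Ext.none) (P1 := 536870912) (W1 := 536870912) (P2 := 536870912) (W2 := 536870912) (P3 := 649613803) (W3 := 48318383) (N0 := 3) (En := eng) (mo := mog) (C1 := cd0q1) (C2 := cd0q1) (C3 := pd2)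
    rfl (fun _ => rfl) s12_pm_112_s

noncomputable def cut_pm_112_t : Cut := Cut.of [[⟨3, 0, 0, 2845415833⟩]]

noncomputable def f_pm_112_t : ℕ → ℕ → ℕ → ℕ → Bool := onCell 536870912 536870912 1073741824 536870912 649613803 48318383
    (rowNE 3 eng mog cd0q1 cd0q1 pd2 1 true true false .dn 1 1 2 (qsf 536870912 536870912 536870912 536870912 2) ndB0q1 ndB0q1 pcB2 cut_pm_112_t Ext.none)

def k0_pm_112_t : ∃ t, chk3 f_pm_112_t t 1 1 1 = true :=
  ⟨(l 6), by decide +kernel⟩

theorem c_pm_112_t : CertNE 536870912 536870912 536870912 536870912 649613803 48318383 3 eng mog cd0q1 cd0q1 pd2 true true false .dn 1 1 2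
    ndB0q1 ndB0q1 pcB2 cut_pm_112_t Ext.none :=
  certNE1 (fam := true) (s1 := true) (s2 := false) (a := 1) (b := 1) (c := 2) (cn := .dn) (n1 := ndB0q1) (n2 := ndB0q1) (pc := pcB2) (cut := cut_pm_112_t) (xt := Ext.none) (P1 := 536870912) (W1 := 536870912) (P2 := 536870912) (W2 := 536870912) (P3 := 649613803) (W3 := 48318383) (N0 := 3) (En := eng) (mo := mog) (C1 := cd0q1) (C2 := cd0q1) (C3 := pd2)
    rfl (fun _ => rfl) k0_pm_112_t

noncomputable def cut_pm_113_s : Cut := Cut.of [[⟨4, 0, 0, 1449551462⟩], [⟨0, 1, 0, 67108864⟩, ⟨1, 1, 0, 67108864⟩, ⟨2, 2, 0, 16777216⟩], [⟨0, 0, 1, 20971520⟩, ⟨1, 1, 0, 33554432⟩, ⟨2, 1, 1, 20971520⟩], [⟨0, 1, 0, 33554432⟩, ⟨1, 0, 1, 20971520⟩, ⟨2, 1, 1, 20971520⟩]]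

noncomputable def f_pm_113_s : ℕ → ℕ → ℕ → ℕ → Bool := onCell 1610612736 536870912 536870912 536870912 649613803 48318383
    (rowNE 3 eng mog cd0q1 cd0q1 pd3 2 true true false .nn 1 1 3 (qsf 536870912 536870912 536870912 536870912 3) ndB0q1 ndB0q1 pcB3 cut_pm_113_s Ext.none)

def k0_pm_113_s : ∃ t, chk3 f_pm_113_s t 1 1 1 = true :=
  ⟨(a (b (a (l 6) (l 6)) (l 6)) (l 6)), by decide +kernel⟩

theorem c_pm_113_s : CertNE 536870912 536870912 536870912 536870912 649613803 48318383 3 eng mog cd0q1 cd0q1 pd3 true true false .nn 1 1 3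
    ndB0q1 ndB0q1 pcB3 cut_pm_113_s Ext.none :=
  certNE2 (fam := true) (s1 := true) (s2 := false) (a := 1) (b := 1) (c := 3) (cn := .nn) (n1 := ndB0q1) (n2 := ndB0q1) (pc := pcB3) (cut := cut_pm_113_s) (xt := Ext.none) (P1 := 536870912) (W1 := 536870912) (P2 := 536870912) (W2 := 536870912) (P3 := 649613803) (W3 := 48318383) (N0 := 3) (En := eng) (mo := mog) (C1 := cd0q1) (C2 := cd0q1) (C3 := pd3)
    rfl (fun _ => rfl) k0_pm_113_s

noncomputable def cut_pm_113_t : Cut := Cut.of [[⟨3, 0, 0, 2845415833⟩], [⟨0, 1, 0, 67108864⟩, ⟨1, 1, 0, 67108864⟩, ⟨2, 2, 0, 16777216⟩], [⟨0, 0, 1, 20971520⟩, ⟨1, 1, 0, 33554432⟩, ⟨2, 1, 1, 20971520⟩], [⟨0, 1, 0, 33554432⟩, ⟨1, 0, 1, 20971520⟩, ⟨2, 1, 1, 20971520⟩]]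

noncomputable def f_pm_113_t : ℕ → ℕ → ℕ → ℕ → Bool := onCell 536870912 536870912 536870912 536870912 649613803 48318383
    (rowNE 3 eng mog cd0q1 cd0q1 pd3 0 true true false .nn 1 1 3 (qsf 536870912 536870912 536870912 536870912 3) ndB0q1 ndB0q1 pcB3 cut_pm_113_t Ext.none)

def k0_pm_113_t : ∃ t, chk3 f_pm_113_t t 2 1 1 = true :=
  ⟨(l 6), by decide +kernel⟩

def k1_pm_113_t : ∃ t, chk3 f_pm_113_t t 3 2 1 = true :=
  ⟨(l 6), by decide +kernel⟩

def k2_pm_113_t : ∃ t, chk3 f_pm_113_t t 6 3 1 = true :=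
  ⟨(b (l 6) (b (l 6) (a (l 6) (b (l 6) (b (l 6) (b (l 6) (a (l 6) (a (l 6) (c (l 16858112) (l 16819816)))))))))), by decide +kernel⟩

def k3_pm_113_t : ∃ t, chk3 f_pm_113_t t 14 3 1 = true :=
  ⟨(b (l 6) (b (l 6) (a (b (l 6) (c (b (a (l 16878848) (l 16878504)) (a (b (l 16869120) (l 16839104)) (b (l 16846824) (b (l 16819376) (l 16855432))))) (b (a (l 16900256) (l 16897848)) (b (a (l 16893824) (l 16890296)) (a (l 16841368) (l 16837952)))))) (a (c (b (l 16896952) (b (l 16874336) (b (l 16862760) (c (l 16807216) (l 16857480))))) (b (l 16864576) (b (l 16814248) (b (l 16874272) (b (l 16827360) (l 16868280)))))) (b (b (l 16900448) (l 16885800)) (b (b (l 16855176) (c (l 16862616) (l 16862488))) (a (b (l 16843840) (b (l 16795688) (l 16809536))) (b (l 16794736) (b (l 16789424) (l 16804032)))))))))), by decide +kernel⟩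

def k4_pm_113_t : ∃ t, chk3 f_pm_113_t t 30 3 1 = true :=
  ⟨(b (l 6) (b (b (l 6) (a (b (l 6) (l 16900448)) (b (l 16894920) (l 16885800)))) (b (b (a (l 16888448) (l 16831272)) (a (l 16831272) (l 16857808))) (b (a (b (l 16839472) (c (l 16851664) (l 16792984))) (b (c (l 16845744) (l 16842408)) (a (l 16817736) (l 16810264)))) (a (b (c (l 16843424) (b (l 16796128) (l 16792160))) (b (a (c (l 16839640) (l 16813560)) (b (l 16791928) (l 16773160))) (a (l 16777024) (c (l 16827792) (l 16782960))))) (c (a (b (l 16833912) (b (l 16827120) (l 16800568))) (b (b (l 16827360) (l 16823416)) (b (l 16820032) (c (l 16812968) (l 16815384))))) (b (b (a (l 16826456) (l 16819872)) (a (l 16801232) (c (l 16796240) (l 16791392)))) (b (a (l 16776272) (c (l 16813432) (l 16808240))) (b (a (b (l 16774120) (l 16795224)) (a (l 16789240) (l 16785560))) (a (l 16795792) (l 16777200))))))))))), by decide +kernel⟩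

def k5_pm_113_t : ∃ t, chk3 f_pm_113_t t 31 6 1 = true :=
  ⟨(b (l 6) (a (l 6) (a (l 6) (b (l 6) (b (l 6) (c (l 16858112) (l 16819816))))))), by decide +kernel⟩

def k6_pm_113_t : ∃ t, chk3 f_pm_113_t t 62 7 1 = true :=
  ⟨(b (b (b (c (l 16878848) (l 16900256)) (c (l 16878504) (l 16897848))) (b (c (l 16874336) (l 16824736)) (a (l 16855176) (c (l 16862616) (l 16862488))))) (b (b (a (l 16839472) (c (l 16851664) (l 16792984))) (a (c (l 16845744) (l 16842408)) (b (l 16817736) (l 16810264)))) (b (c (b (l 16829904) (l 16821744)) (c (l 16805040) (l 16794536))) (b (a (b (l 16785312) (c (l 16814832) (c (l 16810320) (l 16783192)))) (b (l 16789368) (a (c (l 16808792) (l 16804488)) (l 16782672)))) (c (a (b (l 16790136) (b (l 16787744) (l 16785024))) (b (b (l 16782712) (a (l 16803880) (l 16799696))) (b (b (l 16779560) (l 16778728)) (b (c (l 16798312) (l 16787400)) (l 16781880))))) (a (b (c (l 16785032) (a (l 16803512) (l 16800496))) (b (c (l 16782440) (a (l 16800704) (l 16797648))) (a (l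 16781904) (b (l 16777992) (l 16778400))))) (b (b (a (l 16779368) (l 16776736)) (a (l 16777328) (b (l 16774736) (l 16794728)))) (b (a (l 16775440) (c (l 16794632) (l 16791928))) (a (b (c (l 16797024) (l 16793720)) (l 16774800)) (b (a (l 16777176) (c (l 16792560) (l 16789952))) (l 16776528))))))))))), by decide +kernel⟩

def k7_pm_113_t : ∃ t, chk3 f_pm_113_t t 63 14 1 = true :=
  ⟨(b (c (a (b (l 16869120) (l 16846824)) (b (l 16839104) (a (l 16819376) (l 16855432)))) (a (b (l 16893824) (l 16890296)) (b (l 16862344) (l 16837952)))) (b (b (a (l 16852992) (a (l 16804680) (l 16797512))) (a (l 16869800) (c (l 16788408) (l 16821920)))) (b (a (l 16843840) (a (l 16795688) (l 16809536))) (a (l 16794736) (a (l 16789424) (l 16804032)))))), by decide +kernel⟩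

def k8_pm_113_t : ∃ t, chk3 f_pm_113_t t 63 30 1 = true :=
  ⟨(b (a (c (l 16843424) (a (l 16796128) (l 16792160))) (a (b (c (l 16839640) (l 16813560)) (a (l 16791928) (l 16773160))) (b (l 16777024) (c (l 16827792) (l 16782960))))) (c (b (a (l 16833912) (a (l 16827120) (l 16800568))) (a (a (l 16827360) (l 16823416)) (a (l 16820032) (c (l 16812968) (l 16815384))))) (a (a (b (l 16826456) (l 16819872)) (b (l 16801232) (c (l 16796240) (l 16791392)))) (a (b (l 16776272) (c (l 16813432) (l 16808240))) (b (b (l 16776480) (b (l 16773360) (l 16776576))) (a (b (l 16789240) (l 16785560)) (l 16777200))))))), by decide +kernel⟩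

def k9_pm_113_t : ∃ t, chk3 f_pm_113_t t 63 62 1 = true :=
  ⟨(a (b (a (l 16785312) (c (l 16814832) (c (l 16810320) (l 16783192)))) (a (l 16789368) (b (c (l 16808792) (l 16804488)) (l 16782672)))) (c (b (a (l 16790136) (a (l 16787744) (l 16785024))) (a (a (l 16782712) (b (l 16803880) (l 16799696))) (a (a (l 16779560) (l 16778728)) (a (c (l 16798312) (l 16787400)) (l 16781880))))) (b (a (c (l 16785032) (b (l 16803512) (l 16800496))) (a (c (l 16782440) (b (l 16800704) (l 16797648))) (b (l 16781904) (a (l 16777992) (l 16778400))))) (a (a (b (l 16779368) (l 16776736)) (b (l 16777328) (a (l 16774736) (l 16794728)))) (a (b (l 16775440) (c (l 16794632) (l 16791928))) (b (a (c (l 16797024) (l 16793720)) (l 16774800)) (a (b (l 16777176) (c (l 16792560) (l 16789952))) (l 16776528)))))))), by decide +kernel⟩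

def k10_pm_113_t : ∃ t, chk3 f_pm_113_t t 63 63 1 = true :=
  ⟨(b (a (c (l 16791232) (c (l 16780744) (l 16780736))) (a (b (a (l 16778352) (c (l 16795752) (c (l 16793416) (a (l 16792224) (l 16790808))))) (a (l 16793720) (b (c (l 16792888) (l 16780184)) (l 16779880)))) (b (c (a (l 16783408) (a (l 16782224) (l 16781368))) (a (c (l 16780792) (b (l 16789888) (l 16788528))) (a (c (l 16779536) (b (l 16788536) (l 16787160))) (b (l 16779176) (l 14))))) (a (b (c (l 16780360) (a (c (l 16789328) (l 16787776)) (l 14))) (l 14)) (l 14))))) (a (b (a (b (l 16778352) (c (l 16795752) (c (l 16793416) (b (l 16792224) (l 16790808))))) (b (l 16793720) (a (c (l 16792888) (l 16780184)) (l 16779880)))) (a (c (b (l 16783408) (b (l 16782224) (l 16781368))) (b (c (l 16780792) (a (l 16789888) (l 16788528))) (b (c (l 16779536) (a (l 16788536) (l 16787160))) (a (l 16779176) (l 14))))) (b (a (c (l 16780360) (b (c (l 16789328) (l 16787776)) (l 14))) (l 14)) (l 14)))) (b (a (c (l 16784240) (c (l 16789488) (l 16779000)))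 (l 14)) (l 14)))), by decide +kernel⟩

theorem s11_pm_113_t : ∃ t, chk3 f_pm_113_t t 63 31 1 = true := ex3_b k9_pm_113_t k10_pm_113_t

theorem s12_pm_113_t : ∃ t, chk3 f_pm_113_t t 63 15 1 = true := ex3_b k8_pm_113_t s11_pm_113_t

theorem s13_pm_113_t : ∃ t, chk3 f_pm_113_t t 63 7 1 = true := ex3_b k7_pm_113_t s12_pm_113_t

theorem s14_pm_113_t : ∃ t, chk3 f_pm_113_t t 31 7 1 = true := ex3_a k6_pm_113_t s13_pm_113_t

theorem s15_pm_113_t : ∃ t, chk3 f_pm_113_t t 31 3 1 = true := ex3_b k5_pm_113_t s14_pm_113_t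

theorem s16_pm_113_t : ∃ t, chk3 f_pm_113_t t 15 3 1 = true := ex3_a k4_pm_113_t s15_pm_113_t

theorem s17_pm_113_t : ∃ t, chk3 f_pm_113_t t 7 3 1 = true := ex3_a k3_pm_113_t s16_pm_113_t

theorem s18_pm_113_t : ∃ t, chk3 f_pm_113_t t 3 3 1 = true := ex3_a k2_pm_113_t s17_pm_113_t

theorem s19_pm_113_t : ∃ t, chk3 f_pm_113_t t 3 1 1 = true := ex3_b k1_pm_113_t s18_pm_113_t

theorem s20_pm_113_t : ∃ t, chk3 f_pm_113_t t 1 1 1 = true := ex3_a k0_pm_113_t s19_pm_113_t

theorem c_pm_113_t : CertNE 536870912 536870912 536870912 536870912 649613803 48318383 3 eng mog cd0q1 cd0q1 pd3 true true false .nn 1 1 3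
    ndB0q1 ndB0q1 pcB3 cut_pm_113_t Ext.none :=
  certNE0 (fam := true) (s1 := true) (s2 := false) (a := 1) (b := 1) (c := 3) (cn := .nn) (n1 := ndB0q1) (n2 := ndB0q1) (pc := pcB3) (cut := cut_pm_113_t) (xt := Ext.none) (P1 := 536870912) (W1 := 536870912) (P2 := 536870912) (W2 := 536870912) (P3 := 649613803) (W3 := 48318383) (N0 := 3) (En := eng) (mo := mog) (C1 := cd0q1) (C2 := cd0q1) (C3 := pd3)
    rfl s20_pm_113_t

noncomputable def cut_pm_123_s : Cut := Cut.of [[⟨4, 0, 0, 1449551462⟩], [⟨0, 1, 0, 67108864⟩, ⟨1, 1, 0, 67108864⟩, ⟨2, 2, 0, 16777216⟩], [⟨0, 0, 1, 20971520⟩, ⟨1, 1, 0, 33554432⟩, ⟨2, 1, 1, 20971520⟩]]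

noncomputable def f_pm_123_s : ℕ → ℕ → ℕ → ℕ → Bool := onCell 536870912 536870912 0 536870912 649613803 48318383
    (rowNE 3 eng mog cd0q1 cd0q2 pd3 0 true true false .npn 1 2 3 (qsf 536870912 536870912 0 536870912 3) ndB0q1 ndB0q2 pcB3 cut_pm_123_s Ext.none)

def k0_pm_123_s : ∃ t, chk3 f_pm_123_s t 1 1 1 = true :=
  ⟨(l 6), by decide +kernel⟩

theorem c_pm_123_s : CertNE 536870912 536870912 0 536870912 649613803 48318383 3 eng mog cd0q1 cd0q2 pd3 true true false .npn 1 2 3
    ndB0q1 ndB0q2 pcB3 cut_pm_123_s Ext.none :=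
  certNE0 (fam := true) (s1 := true) (s2 := false) (a := 1) (b := 2) (c := 3) (cn := .npn) (n1 := ndB0q1) (n2 := ndB0q2) (pc := pcB3) (cut := cut_pm_123_s) (xt := Ext.none) (P1 := 536870912) (W1 := 536870912) (P2 := 0) (W2 := 536870912) (P3 := 649613803) (W3 := 48318383) (N0 := 3) (En := eng) (mo := mog) (C1 := cd0q1) (C2 := cd0q2) (C3 := pd3)
    rfl k0_pm_123_s

noncomputable def cut_pm_123_t : Cut := Cut.of [[⟨3, 0, 0, 2845415833⟩], [⟨0, 1, 0, 67108864⟩, ⟨1, 1, 0, 67108864⟩, ⟨2, 2, 0, 16777216⟩], [⟨0, 0, 1, 20971520⟩, ⟨1, 1, 0, 33554432⟩, ⟨2, 1, 1, 20971520⟩]]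

noncomputable def f_pm_123_t : ℕ → ℕ → ℕ → ℕ → Bool := onCell 1610612736 536870912 0 536870912 649613803 48318383
    (rowNE 3 eng mog cd0q1 cd0q2 pd3 2 true true false .npn 1 2 3 (qsf 536870912 536870912 0 536870912 3) ndB0q1 ndB0q2 pcB3 cut_pm_123_t Ext.none)

def k0_pm_123_t : ∃ t, chk3 f_pm_123_t t 2 1 1 = true :=
  ⟨(a (b (b (l 1) (l 6)) (l 6)) (b (a (b (a (a (l 1) (b (l 16719360) (l 16698216))) (b (l 16780768) (b (l 16724472) (l 16718304)))) (b (a (l 16677064) (l 16711792)) (l 6))) (b (b (a (a (l 16755200) (l 16763096)) (b (a (l 16772104) (b (a (l 16777080) (l 136600088695)) (l 16774528))) (l 16789272))) (a (b (l 16749784) (l 16746512)) (b (l 16764408) (l 16762944)))) (b (a (l 16744024) (b (l 16763696) (l 16764368))) (a (l 16738712) (b (l 16763400) (l 16760872)))))) (a (l 6) (b (l 6) (l 6))))), by decide +kernel⟩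

def k1_pm_123_t : ∃ t, chk3 f_pm_123_t t 6 2 1 = true :=
  ⟨(a (b (a (b (b (a (b (l 4) (a (l 16777304) (l 139284442887))) (l 4)) (a (l 16774016) (b (a (l 102240372663) (l 143579409479)) (l 16787552)))) (a (l 16770120) (b (l 16773664) (l 16772840)))) (b (b (l 4) (a (b (l 4) (a (l 109219695127) (l 150558730423))) (l 4))) (b (a (b (l 44795186663) (l 16775848)) (b (a (l 117809631431) (l 165591114871)) (a (l 16776848) (l 16777512)))) (a (l 16775968) (l 16777280))))) (b (a (b (l 16773024) (l 16775144)) (b (a (l 16778016) (l 16779440)) (a (l 16781184) (l 16782272)))) (a (b (l 16775880) (l 16773912)) (b (l 16782304) (l 16759800))))) (b (b (l 4) (b (a (a (b (l 4) (a (l 130157638519) (l 4))) (l 4)) (l 4)) (a (a (b (a (l 16777280) (l 103850986583)) (l 16777632)) (b (a (l 133915733175) (l 4)) (a (l 16777536) (l 114588408151)))) (l 4)))) (a (b (b (a (l 16779320) (b (l 16777792) (l 16778760))) (a (l 16781696) (l 16779960))) (b (a (l 16782336) (l 16779416)) (a (l 16779744) (l 16754720)))) (b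 (b (a (b (a (l 55532602535) (l 127473283127)) (a (l 16777864) (l 16777536))) (b (l 4) (a (l 111904055991) (l 4)))) (a (a (l 16778440) (l 16777472)) (b (a (l 16777200) (l 71638733223)) (l 16776504)))) (b (a (l 16776160) (l 16774896)) (a (l 16730776) (b (l 16771976) (l 16769672)))))))), by decide +kernel⟩

def k2_pm_123_t : ∃ t, chk3 f_pm_123_t t 7 2 1 = true :=
  ⟨(a (b (l 4) (a (b (a (b (l 4) (a (b (l 143579409303) (l 51237634871)) (b (l 4) (b (l 159685536439) (l 106535341607))))) (l 4)) (a (b (a (l 16775520) (b (l 16776760) (l 16775600))) (a (l 16771624) (l 16772856))) (b (a (b (a (l 69491245671) (l 102240374519)) (l 16776472)) (b (a (l 176328533111) (l 4)) (b (a (l 16777368) (l 112440876199)) (l 40500211175)))) (a (l 16774328) (b (l 16776272) (l 16774952)))))) (b (l 4) (a (b (a (b (l 4) (a (b (l 4) (l 110293393751)) (l 4))) (l 4)) (a (b (a (l 16776960) (b (l 106535319335) (l 16777072))) (l 16776336)) (b (b (l 4) (a (a (l 16777424) (l 96871625527)) (l 217130723527))) (b (a (l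 16777104) (a (l 16777336) (l 105998437895))) (l 16777056))))) (b (l 4) (a (b (l 4) (a (b (b (l 4) (l 201561469463)) (a (l 16777320) (b (l 126399530567) (l 16777312)))) (b (l 4) (a (b (l 4) (l 123178305591)) (l 4))))) (l 4))))))) (l 4)), by decide +kernel⟩

def k3_pm_123_t : ∃ t, chk3 f_pm_123_t t 6 3 1 = true :=
  ⟨(b (a (b (a (b (l 16770184) (a (l 6) (l 16766120))) (b (l 16776208) (a (l 16769568) (l 16770440)))) (a (l 6) (b (a (l 16765112) (l 16744592)) (a (l 6) (l 16744936))))) (b (a (b (a (l 16775048) (l 16771784)) (a (l 16768384) (l 16766904))) (a (b (l 16768672) (l 16765560)) (b (b (l 16767256) (l 16766336)) (b (l 16765816) (l 16765488))))) (a (b (a (b (l 16764528) (l 16764912)) (b (l 16763936) (l 16785568))) (a (b (l 16766720) (l 16769832)) (a (l 16812376) (b (l 16768952) (l 16774488))))) (b (a (b (l 16764200) (a (l 16764776) (l 16765760))) (b (l 16766040) (a (l 16767144) (l 16768576)))) (b (a (l 16769352) (a (l 16770632) (l 16772144))) (a (l 16796184) (a (l 16776904) (l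 16778600)))))))) (a (l 6) (b (a (b (a (b (l 16795344) (l 6)) (c (b (l 16775528) (l 16781776)) (b (l 16786016) (l 16817456)))) (b (a (l 6) (a (l 6) (a (l 6) (l 16790880)))) (l 6))) (b (a (b (l 16845648) (c (l 16785992) (l 16798928))) (b (a (l 16784648) (l 16786424)) (a (l 16793912) (l 16795656)))) (a (c (b (l 16794712) (l 16802792)) (b (a (l 16812064) (l 16811928)) (l 16801480))) (c (b (l 16798976) (l 16808128)) (b (l 16791888) (b (l 16822696) (l 16828120))))))) (a (l 6) (b (c (a (b (l 16811328) (l 16820840)) (b (l 16817480) (l 16848584))) (a (b (l 16811320) (l 16832328)) (b (l 16815176) (a (l 16846416) (l 16848496))))) (a (l 6) (b (c (l 16859016) (a (l 16858360) (l 16860256))) (a (l 6) (c (l 16849344) (l 16871504)))))))))), by decide +kernel⟩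

def k4_pm_123_t : ∃ t, chk3 f_pm_123_t t 14 6 1 = true :=
  ⟨(a (b (b (a (b (a (l 16767720) (l 16769160)) (a (l 16765816) (l 16767048))) (a (b (l 16771192) (l 16769224)) (b (l 16773344) (l 16771624)))) (a (b (l 16787384) (a (l 16766552) (l 16767680))) (b (a (l 16767984) (l 16749456)) (a (l 16769152) (l 16770912))))) (b (a (a (b (l 16767928) (l 16770496)) (b (l 16769384) (l 16772280))) (b (a (l 16771096) (l 16773032)) (a (l 16774208) (l 16776264)))) (a (b (a (b (l 16773368) (l 16775552)) (l 16776672)) (a (l 16780640) (l 16782448))) (b (a (l 16778512) (l 16780608)) (c (l 16806360) (b (l 16804632) (l 16808184))))))) (b (a (b (a (b (l 16775304) (l 16774136)) (b (l 16776768) (l 16776248))) (b (a (l 16773192) (l 16775736)) (a (b (l 16772600) (l 16773248)) (b (l 16775352) (l 16775608))))) (b (a (b (a (l 16777376) (b (a (l 16777360) (b (l 104924695047) (l 16777336))) (l 16777520))) (a (l 16777360) (l 16777800))) (b (a (b (a (b (l 4) (l 122641440135)) (l 4)) (a (l 16777456) (b (l 113514633351)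 (l 16777408)))) (b (l 4) (a (b (l 4) (c (l 105998439671) (l 107072181447))) (l 4)))) (a (l 16777944) (b (a (l 16777584) (a (l 58753802855) (b (l 116735857479) (l 16777440)))) (l 16778008))))) (a (b (a (l 16777336) (l 16778104)) (l 16778024)) (b (a (l 16778608) (l 16776192)) (a (l 16779384) (l 16779944)))))) (b (a (b (a (l 16775072) (l 16797920)) (a (l 16778368) (l 16780416))) (a (b (b (l 16778840) (l 16779584)) (l 16782360)) (b (a (l 16781136) (l 16781736)) (b (l 16783080) (l 16785072))))) (a (b (a (l 16782704) (l 16784704)) (a (l 16809408) (l 16790208))) (b (a (l 16786648) (l 16788184)) (a (l 16791792) (l 16792944))))))), by decide +kernel⟩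

def k5_pm_123_t : ∃ t, chk3 f_pm_123_t t 14 7 1 = true :=
  ⟨(b (a (b (b (a (a (l 16788424) (l 16790248)) (a (l 16791992) (l 16793696))) (a (a (l 16797560) (l 16799272)) (a (l 16800872) (l 16802512)))) (b (a (a (l 16807800) (l 16809328)) (a (l 16810848) (l 16811920))) (b (a (a (l 16816184) (l 16817368)) (l 16871360)) (a (a (l 16821224) (l 16822752)) (c (l 16818408) (l 16809896)))))) (b (a (b (a (b (l 16793232) (l 16797344)) (b (l 16794912) (l 16798608))) (a (l 16803720) (l 16804568))) (b (a (b (l 16796304) (l 16799336)) (l 16798408)) (a (l 16804688) (b (l 16802408) (l 16805640))))) (a (b (c (l 16809744) (l 16774264)) (c (l 16816928) (l 16783976))) (a (b (l 16811800) (l 16818856)) (b (l 16768440) (l 16816528)))))) (a (b (a (a (b (l 16871176) (l 16892296)) (b (l 16872624) (c (l 16832912) (l 16850504)))) (c (b (l 16824936) (l 16833624)) (b (a (l 16839352) (l 16838280)) (l 16849504)))) (c (a (b (l 16841808) (l 16837584)) (b (a (l 16842128) (l 16841296)) (a (l 16849936) (l 16848336))))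 (a (b (c (l 16856008) (l 16867272)) (c (l 16865808) (l 16877776))) (b (l 16859448) (l 16847272))))) (b (a (c (b (b (l 16822216) (l 16826000)) (a (l 16832368) (l 16830496))) (b (a (l 16794320) (l 16833784)) (l 16844896))) (b (a (c (l 16800496) (l 16830680)) (b (l 16820856) (l 16823736))) (c (l 16826168) (l 16815720)))) (c (a (c (b (l 16835304) (l 16840968)) (b (l 16820824) (l 16848104))) (b (c (l 16808200) (l 16834488)) (c (l 16812480) (l 16839440)))) (a (b (l 16832584) (l 16840064)) (b (l 16807424) (c (l 16846440) (l 16845520)))))))), by decide +kernel⟩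

def k6_pm_123_t : ∃ t, chk3 f_pm_123_t t 30 12 1 = true :=
  ⟨(a (b (a (b (l 4) (a (b (a (b (l 4) (a (l 16777448) (l 117272728471))) (l 260617267751)) (a (l 16777728) (a (l 58753803255) (b (l 118883341111) (l 16777520))))) (b (l 4) (a (b (l 263301624167) (a (l 16777480) (a (l 114051505335) (l 133915727207)))) (l 268670331287))))) (l 4)) (a (b (a (b (l 16778288) (l 16778992)) (b (a (l 16777872) (b (a (l 78618027543) (a (l 117809601655) (l 216056986167))) (l 16777696))) (l 16778576))) (a (l 16780168) (l 16780032))) (b (a (b (b (l 4) (a (a (l 82912994567) (l 184918470951)) (l 4))) (a (l 16777992) (b (a (l 88818576519) (l 198340244855)) (l 16777752)))) (b (l 4) (a (b (l 4) (a (a (l 16777496) (l 105998442759)) (l 213909502343))) (l 4)))) (a (b (l 16778840) (l 16780080)) (b (a (l 39426453303) (b (a (a (l 16774880) (l 131231375815)) (l 235384338455)) (l 16777784))) (l 16779144)))))) (b (l 4) (a (b (l 4) (a (b (a (a (b (l 4) (b (l 144116275671) (l 16777480))) (l 272965305143)) (l 4))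 (a (b (c (l 16777824) (l 55532578887)) (l 16778488)) (a (b (b (l 265985980759) (l 16774256)) (l 16777872)) (b (l 288534557815) (b (l 105998443943) (l 16777624)))))) (b (l 4) (a (a (b (l 4) (b (l 4) (l 116198990839))) (l 4)) (l 4))))) (l 4)))), by decide +kernel⟩

def k7_pm_123_t : ∃ t, chk3 f_pm_123_t t 30 13 1 = true :=
  ⟨(a (b (a (b (a (l 16782320) (l 16782552)) (b (l 16774376) (a (l 16786016) (l 16786864)))) (a (b (l 16771832) (l 16785792)) (b (l 16781568) (l 16785192)))) (a (b (b (l 16788000) (l 16790160)) (l 16793320)) (b (b (l 16788608) (l 16789888)) (l 16771992)))) (b (a (b (a (b (l 16776712) (l 16781112)) (b (a (a (l 16778248) (b (b (l 162369890983) (l 16777560)) (l 16778184))) (a (b (l 239679305783) (l 16777744)) (b (l 4) (b (l 240753048231) (l 16774760))))) (a (l 16779832) (l 16778824)))) (a (l 16778800) (b (l 16781312) (l 16772912)))) (b (a (b (a (b (l 4) (l 297124494087)) (l 4)) (b (a (a (b (l 100629735175) (l 16777744)) (b (l 4) (c (l 117272732535) (l 113514641319))))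 (l 4)) (a (l 16778200) (a (b (c (l 168275470855) (l 166664858151)) (l 16777608)) (a (l 241289918967) (l 4)))))) (l 4)) (a (b (a (l 16779728) (b (c (l 71638717031) (a (l 16778288) (l 43184549415))) (l 16779048))) (l 16776032)) (b (b (a (a (b (l 273502173559) (a (l 16777512) (l 147337505879))) (l 328799876007)) (l 4)) (b (a (a (l 16777816) (a (l 16777248) (l 155390567287))) (l 4)) (a (l 16778032) (a (a (l 126399539767) (l 325578652231)) (l 4))))) (a (l 16774152) (b (a (b (l 74859941287) (l 16778072)) (b (l 263838497335) (a (l 16777560) (l 129620770535)))) (l 16778552))))))) (a (b (a (l 16788600) (l 16786760)) (a (l 16791792) (b (l 16790496) (l 16791936)))) (b (a (b (l 16783520) (l 16785864)) (a (l 16777632) (b (l 16780288) (l 16782672)))) (a (b (l 16788352) (l 16790992)) (b (l 16785872) (l 16788472))))))), by decide +kernel⟩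

def k8_pm_123_t : ∃ t, chk3 f_pm_123_t t 30 7 1 = true :=
  ⟨(b (a (b (b (a (l 16797920) (l 16775936)) (a (c (l 16802296) (l 16782776)) (l 16801360))) (a (b (l 16808344) (l 16813536)) (b (l 16805488) (l 16809968)))) (b (a (b (l 16795208) (l 16798736)) (b (a (l 16793112) (b (a (l 16791496) (l 16789528)) (l 16792448))) (a (l 16796480) (l 16794720)))) (a (b (b (l 16801496) (l 16803096)) (l 16805776)) (b (a (l 16799552) (l 16797416)) (a (l 16802296) (l 16799720)))))) (b (a (a (b (c (l 16794672) (l 16822288)) (c (l 16820064) (l 16828336))) (b (c (l 16811608) (l 16816816)) (b (l 16816768) (l 16819592)))) (a (b (l 16798384) (c (l 16809792) (a (l 16816512) (l 16813144)))) (b (c (l 16802216) (l 16804976)) (b (l 16789536) (a (l 16808264) (l 16804912)))))) (b (a (c (a (l 16824768) (l 16819440)) (a (l 16834944) (l 16827392))) (a (c (l 16813632) (l 16818968)) (c (l 16807432) (b (l 16811272) (l 16810672))))) (c (a (c (l 16823624) (l 16828360)) (a (l 16816776) (a (l 16811904) (l 16808568))))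 (a (a (l 16835096) (l 16786856)) (a (b (l 16818056) (l 16796448)) (b (l 16789048) (c (l 16811400) (l 16786160))))))))), by decide +kernel⟩

def k9_pm_123_t : ∃ t, chk3 f_pm_123_t t 62 12 1 = true :=
  ⟨(l 4), by decide +kernel⟩

def k10_pm_123_t : ∃ t, chk3 f_pm_123_t t 62 26 1 = true :=
  ⟨(a (b (l 4) (a (b (l 4) (a (b (a (l 335779197975) (l 4)) (a (a (l 67343748263) (b (c (l 161296147607) (l 163443631111)) (l 16777568))) (a (b (l 4) (l 132841995911)) (l 339000424039)))) (l 4))) (l 4))) (l 4)), by decide +kernel⟩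

def k11_pm_123_t : ∃ t, chk3 f_pm_123_t t 62 27 1 = true :=
  ⟨(a (b (a (b (b (a (a (l 16778592) (a (l 16778016) (a (l 16777752) (l 71638715847)))) (a (a (b (l 256859176023) (l 16777536)) (a (b (l 4) (l 123178315847)) (l 290682042791))) (l 4))) (a (l 16779376) (a (l 16778200) (b (a (l 160759287383) (l 280481495975)) (l 16777680))))) (a (l 16781192) (l 16776976))) (b (a (a (a (b (l 4) (a (b (l 4) (l 134989475335)) (l 310546266327))) (l 4)) (l 4)) (l 4)) (b (a (b (a (a (l 16777648) (c (l 176328543687) (l 124252064439))) (l 327189264359)) (a (l 16778032) (a (l 78618037447) (l 250953596023)))) (l 4)) (a (a (l 16778928) (l 16776720)) (a (a (b (a (l 178476026631) (l 162906761303)) (l 16777680)) (b (l 4) (a (l 16777296) (l 134989475319)))) (b (l 4) (l 316451846183))))))) (a (a (l 16779608) (b (l 16781944) (l 16783960))) (b (a (l 16777520) (b (a (l 16778304) (b (a (l 78618037399) (l 247195499671)) (l 16777712))) (l 16776328))) (a (l 16782160) (l 16777816))))) (b (l 4) (a (b (a (b (a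 (a (a (b (l 4) (l 180086639271)) (l 304103815527)) (l 4)) (l 4)) (b (a (a (l 16777640) (a (l 16777256) (l 138747576887))) (l 332021102487)) (a (l 16777960) (a (l 82376134215) (l 270280948711))))) (l 4)) (b (a (a (l 16778712) (a (l 16778096) (l 42647682503))) (a (b (a (a (l 157538059335) (l 310546267159)) (l 4)) (a (l 16777528) (b (l 163443632327) (l 16777168)))) (l 4))) (a (l 16779264) (a (l 16778064) (a (a (l 16777536) (b (l 134989480183) (l 16777616))) (b (l 327726135895) (c (l 16778520) (l 86134230503)))))))) (a (a (a (b (l 4) (b (l 4) (b (l 4) (l 284239592327)))) (l 4)) (l 4)) (l 4))))), by decide +kernel⟩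

def k12_pm_123_t : ∃ t, chk3 f_pm_123_t t 63 6 1 = true :=
  ⟨(l 4), by decide +kernel⟩

def k13_pm_123_t : ∃ t, chk3 f_pm_123_t t 62 14 1 = true :=
  ⟨(a (a (b (b (b (l 16786696) (a (l 16794800) (l 16787240))) (c (l 16792072) (l 16781320))) (b (l 16795104) (l 16797216))) (b (a (b (l 16784744) (b (a (l 16787832) (l 16786672)) (l 16789400))) (b (b (l 16782232) (l 16773336)) (b (b (l 16784896) (l 16785552)) (l 16787288)))) (b (l 16791552) (c (l 16794184) (l 16795112))))) (b (a (b (a (b (l 16780592) (l 16782192)) (b (a (l 16779400) (l 16778624)) (l 16780632))) (b (a (l 16783600) (l 16776808)) (a (b (l 16784512) (l 16785624)) (b (l 16783000) (c (l 16778416) (l 16778112)))))) (b (b (b (a (b (a (a (l 16778640) (c (l 221425693079) (b (l 4) (l 141431930871)))) (l 4)) (a (l 41573940279) (a (a (l 190287186551) (l 301956332599)) (l 4)))) (l 4)) (a (a (l 16778296) (a (l 16777720) (b (c (l 194045283719) (b (l 159685535623) (l 16778432))) (l 16777568)))) (a (a (b (l 4) (a (l 16777200) (a (l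 128547024519) (l 155390569143)))) (l 363159614903)) (l 4)))) (b (a (l 16776120) (a (a (l 16777816) (b (b (l 204782701015) (l 16777304)) (l 16777648))) (a (b (l 335779199511) (c (l 147874385479) (l 151632481799))) (b (l 4) (l 311620008615))))) (a (l 16779504) (a (l 16778408) (a (l 16777872) (a (l 16777592) (l 125325807607))))))) (a (b (l 16780560) (l 16776576)) (b (a (l 16779480) (l 16778768)) (l 16780416))))) (b (a (b (b (a (l 16786592) (l 16787200)) (l 16776120)) (l 16788192)) (b (a (a (b (l 16772496) (l 16783992)) (b (l 16782320) (l 16775096))) (a (l 16776552) (l 16781200))) (a (l 16784960) (b (a (l 16777736) (a (l 16776928) (l 16781744))) (l 16772968))))) (a (b (l 16790216) (l 16792072)) (c (l 16787048) (l 16776120)))))), by decide +kernel⟩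

def k14_pm_123_t : ∃ t, chk3 f_pm_123_t t 62 15 1 = true :=
  ⟨(b (a (b (a (l 16799248) (l 16796352)) (b (l 16799056) (a (l 16801680) (l 16798464)))) (b (a (c (l 16792816) (l 16793896)) (b (l 16789496) (l 16790632))) (a (a (l 16795616) (l 16794000)) (c (l 16791032) (l 16792256))))) (b (b (a (a (l 16803512) (l 16799824)) (a (a (l 16796976) (l 16795144)) (a (l 16803880) (l 16802160)))) (a (a (l 16805424) (l 16783320)) (a (c (l 16796384) (l 16797448)) (c (l 16792824) (l 16793848))))) (c (b (a (l 16802808) (a (l 16797480) (l 16793816))) (a (c (l 16802584) (l 16805080)) (a (l 16798288) (l 16794528)))) (a (b (b (l 16781560) (l 16781224)) (a (l 16782600) (l 16778880))) (a (b (l 16786360) (a (l 16776168) (l 16774384))) (b (c (l 16794112) (l 16792424)) (b (l 16782392) (l 16776856)))))))), by decide +kernel⟩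

def k15_pm_123_t : ∃ t, chk3 f_pm_123_t t 126 14 1 = true :=
  ⟨(b (a (b (b (l 4) (b (l 4) (a (a (a (b (l 288534559527) (l 130157645255)) (b (l 4) (c (l 268670335975) (l 276186528567)))) (l 4)) (l 4)))) (b (b (a (a (a (l 16777896) (c (l 16777504) (l 112977776535))) (b (a (a (a (l 126936412055) (l 154853697815)) (l 4)) (l 4)) (a (l 16778624) (a (a (l 205319571479) (l 154316827031)) (l 4))))) (l 4)) (a (a (l 16778424) (a (l 16777904) (l 108682808967))) (a (b (a (a (a (l 201561475207) (l 153779956231)) (l 390540032679)) (l 4)) (a (l 16778640) (a (a (l 202635217031) (l 155390568887)) (l 396982483607)))) (l 4)))) (a (a (l 16779376) (l 16778704)) (a (a (l 16778200) (b (c (l 16777520) (l 111367163479)) (l 16778176))) (b (b (a (a (a (l 208540797047) (l 159685536071)) (l 4)) (l 4)) (a (l 16778944) (a (a (l 219278215255) (l 163980503223)) (l 4)))) (a (l 16777848) (c (l 16778784) (l 116199001927)))))))) (b (l 4) (b (l 4) (b (l 4) (a (a (b (a (a (a (l 138747571255) (l 168275470263)) (l 4))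 (l 4)) (a (l 134989483591) (c (l 308935654215) (c (l 316451846823) (l 321283684919))))) (l 4)) (l 4)))))) (a (b (b (a (l 16780200) (a (l 16779208) (l 16778552))) (a (b (l 16780976) (a (b (l 16776400) (l 16776896)) (l 16775792))) (l 16779264))) (a (a (l 16778952) (l 14)) (l 14))) (b (b (a (a (a (l 16778064) (a (l 16777816) (b (b (l 173644188407) (l 16777520)) (l 16777944)))) (b (b (a (c (l 339537296039) (l 350274714039)) (l 4)) (a (a (l 16777336) (l 195655895927)) (l 392150645063))) (a (l 16777704) (a (l 16777424) (b (a (l 198340249911) (l 156464310567)) (l 14)))))) (b (l 4) (b (b (l 4) (l 14)) (l 14)))) (a (a (l 16778960) (l 14)) (l 14))) (l 14)))), by decide +kernel⟩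

def k16_pm_123_t : ∃ t, chk3 f_pm_123_t t 127 14 1 = true :=
  ⟨(b (l 4) (b (b (l 4) (l 14)) (l 14))), by decide +kernel⟩

def k17_pm_123_t : ∃ t, chk3 f_pm_123_t t 63 15 1 = true :=
  ⟨(a (a (a (a (b (b (b (l 16786840) (l 16788448)) (l 16789592)) (b (b (l 16790368) (l 16791424)) (c (l 16802352) (b (l 16791112) (l 16780072))))) (l 14)) (l 14)) (l 14)) (l 14)), by decide +kernel⟩

theorem s18_pm_123_t : ∃ t, chk3 f_pm_123_t t 63 14 1 = true := ex3_a k15_pm_123_t k16_pm_123_t

theorem s19_pm_123_t : ∃ t, chk3 f_pm_123_t t 63 7 1 = true := ex3_b s18_pm_123_t k17_pm_123_t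

theorem s20_pm_123_t : ∃ t, chk3 f_pm_123_t t 62 7 1 = true := ex3_b k13_pm_123_t k14_pm_123_t

theorem s21_pm_123_t : ∃ t, chk3 f_pm_123_t t 31 7 1 = true := ex3_a s20_pm_123_t s19_pm_123_t

theorem s22_pm_123_t : ∃ t, chk3 f_pm_123_t t 62 13 1 = true := ex3_b k10_pm_123_t k11_pm_123_t

theorem s23_pm_123_t : ∃ t, chk3 f_pm_123_t t 62 6 1 = true := ex3_b k9_pm_123_t s22_pm_123_t

theorem s24_pm_123_t : ∃ t, chk3 f_pm_123_t t 31 6 1 = true := ex3_a s23_pm_123_t k12_pm_123_t

theorem s25_pm_123_t : ∃ t, chk3 f_pm_123_t t 31 3 1 = true := ex3_b s24_pm_123_t s21_pm_123_t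

theorem s26_pm_123_t : ∃ t, chk3 f_pm_123_t t 30 6 1 = true := ex3_b k6_pm_123_t k7_pm_123_t

theorem s27_pm_123_t : ∃ t, chk3 f_pm_123_t t 30 3 1 = true := ex3_b s26_pm_123_t k8_pm_123_t

theorem s28_pm_123_t : ∃ t, chk3 f_pm_123_t t 15 3 1 = true := ex3_a s27_pm_123_t s25_pm_123_t

theorem s29_pm_123_t : ∃ t, chk3 f_pm_123_t t 14 3 1 = true := ex3_b k4_pm_123_t k5_pm_123_t

theorem s30_pm_123_t : ∃ t, chk3 f_pm_123_t t 7 3 1 = true := ex3_a s29_pm_123_t s28_pm_123_t

theorem s31_pm_123_t : ∃ t, chk3 f_pm_123_t t 3 3 1 = true := ex3_a k3_pm_123_t s30_pm_123_t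

theorem s32_pm_123_t : ∃ t, chk3 f_pm_123_t t 3 2 1 = true := ex3_a k1_pm_123_t k2_pm_123_t

theorem s33_pm_123_t : ∃ t, chk3 f_pm_123_t t 3 1 1 = true := ex3_b s32_pm_123_t s31_pm_123_t

theorem s34_pm_123_t : ∃ t, chk3 f_pm_123_t t 1 1 1 = true := ex3_a k0_pm_123_t s33_pm_123_t

theorem c_pm_123_t : CertNE 536870912 536870912 0 536870912 649613803 48318383 3 eng mog cd0q1 cd0q2 pd3 true true false .npn 1 2 3
    ndB0q1 ndB0q2 pcB3 cut_pm_123_t Ext.none :=
  certNE2 (fam := true) (s1 := true) (s2 := false) (a := 1) (b := 2) (c := 3) (cn := .npn) (n1 := ndB0q1) (n2 := ndB0q2) (pc := pcB3) (cut := cut_pm_123_t) (xt := Ext.none) (P1 := 536870912) (W1 := 536870912) (P2 := 0) (W2 := 536870912) (P3 := 649613803) (W3 := 48318383) (N0 := 3) (En := eng) (mo := mog) (C1 := cd0q1) (C2 := cd0q2) (C3 := pd3)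
    rfl (fun _ => rfl) s34_pm_123_t

noncomputable def cut_pm_202_s : Cut := Cut.of [[⟨4, 0, 0, 1449551462⟩], [⟨0, 1, 0, 67108864⟩, ⟨1, 0, 0, 67108864⟩, ⟨2, 1, 0, 67108864⟩]]

noncomputable def f_pm_202_s : ℕ → ℕ → ℕ → ℕ → Bool := onCell 0 536870912 1073741824 536870912 649613803 48318383
    (rowNE 3 eng mog cd0q2 cd0q0 pd2 1 true true false .pp 2 0 2 (qsf 0 536870912 0 536870912 2) ndB0q2 ndB0q0 pcB2 cut_pm_202_s Ext.none)

def k0_pm_202_s : ∃ t, chk3 f_pm_202_s t 1 8 1 = true :=
  ⟨(a (l 1) (a (l 1) (a (b (l 1) (a (b (l 1) (b (l 1) (a (l 1) (a (l 16635160) (l 16642520))))) (b (l 14) (b (l 14) (b (l 14) (a (l 16652640) (l 16650752))))))) (b (l 14) (b (l 14) (b (l 14) (b (l 14) (a (a (l 16679896) (l 16692256)) (a (a (l 16696368) (l 16698888)) (a (l 16701152) (a (l 16702656) (l 16703544)))))))))))), by decide +kernel⟩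

def k1_pm_202_s : ∃ t, chk3 f_pm_202_s t 2 9 1 = true :=
  ⟨(l 6), by decide +kernel⟩

def k2_pm_202_s : ∃ t, chk3 f_pm_202_s t 6 9 1 = true :=
  ⟨(a (b (l 1) (l 6)) (b (a (b (l 1) (a (b (l 1) (l 16565512)) (b (l 16578640) (l 16578944)))) (b (b (l 1) (a (l 16592792) (l 16607136))) (a (b (l 16592592) (a (l 16588768) (l 16553264))) (c (l 16577192) (l 16601488))))) (b (a (a (b (a (l 6) (l 16569472)) (l 6)) (a (a (l 16500776) (l 16493312)) (l 16506984))) (b (a (l 16570184) (l 16603000)) (l 16564208))) (a (l 6) (a (l 16587624) (l 16594440)))))), by decide +kernel⟩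

def k3_pm_202_s : ∃ t, chk3 f_pm_202_s t 7 9 1 = true :=
  ⟨(a (b (a (b (a (b (l 16643528) (l 16620928)) (b (l 16647160) (c (l 16636920) (l 16631024)))) (c (a (l 16620656) (l 16632232)) (a (b (l 16615560) (l 16613720)) (l 16627328)))) (a (b (b (c (l 16652768) (l 16647456)) (l 16647048)) (l 16662720)) (b (b (l 16642576) (l 16659504)) (l 16673048)))) (b (a (c (l 16638552) (l 16616272)) (c (a (l 16628328) (l 16635104)) (l 16655096))) (a (a (l 16601216) (l 16628848)) (a (c (l 16613784) (l 16615272)) (c (l 16620192) (l 16620776)))))) (b (a (a (b (c (l 16695088) (l 16672480)) (c (l 16657448) (l 16659288))) (b (b (l 16706576) (c (l 16676232) (l 16677616))) (c (c (l 16684544) (l 16705600)) (l 16664296)))) (a (b (a (b (l 16689664) (l 16680768)) (b (l 16692144) (l 16683160))) (b (a (l 16671920) (l 16674240)) (l 16685360))) (b (a (b (l 16694360) (l 16685304)) (b (c (a (l 16696360) (l 16697392)) (l 16701008)) (c (l 16693184) (l 16686456)))) (a (b (l 16676296) (l 16667448)) (b (c (l 16679048)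 (l 16677176)) (c (l 16670328) (l 16668040))))))) (a (b (a (c (l 16683344) (l 16642176)) (b (l 16671992) (l 16642712))) (a (b (l 16629576) (l 16621840)) (c (l 16652480) (l 16630136)))) (a (b (b (l 16655752) (l 16647280)) (b (l 16638992) (l 16651856))) (b (b (a (l 16658680) (c (l 16661696) (l 16658968))) (a (l 16650080) (c (l 16653224) (l 16650048)))) (b (a (l 16641648) (c (l 16644920) (l 16641280))) (a (l 16633384) (c (l 16636776) (l 16632680))))))))), by decide +kernel⟩

def k4_pm_202_s : ∃ t, chk3 f_pm_202_s t 2 5 1 = true :=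
  ⟨(l 6), by decide +kernel⟩

def k5_pm_202_s : ∃ t, chk3 f_pm_202_s t 6 5 1 = true :=
  ⟨(b (b (a (l 6) (b (a (l 6) (c (l 16582248) (l 16579856))) (l 6))) (l 6)) (l 6)), by decide +kernel⟩

def k6_pm_202_s : ∃ t, chk3 f_pm_202_s t 7 20 1 = true :=
  ⟨(a (b (a (c (a (l 16587144) (l 16593824)) (l 16591888)) (c (a (l 16600232) (l 16606240)) (a (l 16600352) (l 16605552)))) (b (a (a (l 16578216) (l 16584288)) (a (l 16590080) (l 16595456))) (b (a (l 16577008) (l 16588328)) (b (a (l 16575160) (l 16607408)) (a (c (l 16595928) (l 16616192)) (a (l 16603848) (l 16630080))))))) (b (b (a (a (l 16614344) (l 16619000)) (a (l 16643968) (a (l 16625344) (c (l 16628840) (l 16624296))))) (a (a (l 16607128) (l 16611584)) (a (l 16636352) (a (l 16617552) (c (l 16621128) (l 16616160)))))) (a (b (a (l 16600296) (l 16604560)) (b (a (l 16595552) (l 16599680)) (b (a (l 16593616) (l 16597704)) (b (b (b (l 16616264) (a (l 16593424) (l 16629016))) (l 16595344)) (l 16594664))))) (a (b (b (l 16609840) (l 16606344))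 (b (a (l 16602328) (l 16603800)) (b (c (l 16603304) (l 16598976)) (b (b (b (l 16600576) (b (l 16600648) (l 16621888))) (l 16600664)) (l 16599936))))) (b (c (b (l 16614968) (l 16621904)) (a (l 16607792) (b (l 16610232) (l 16606488)))) (a (b (b (l 16605720) (l 16604144)) (b (c (l 16605408) (l 16600432)) (b (b (b (l 16602384) (b (l 16602472) (c (l 16605120) (l 16600360)))) (l 16602488)) (l 16601736)))) (b (b (l 16606544) (c (l 16607720) (l 16602176))) (b (b (l 16603856) (c (l 16606048) (l 16600600))) (b (b (b (l 16603152) (b (l 16603240) (b (b (l 16603368) (c (l 16606136) (l 16600912))) (l 16603560)))) (l 16603272)) (l 16602496)))))))))), by decide +kernel⟩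

def k7_pm_202_s : ∃ t, chk3 f_pm_202_s t 7 21 1 = true :=
  ⟨(b (a (a (l 6) (a (l 16596608) (l 16601560))) (a (a (b (l 16588464) (l 16581504)) (b (l 16592384) (l 16585096))) (a (b (l 16595568) (b (l 16589784) (l 16586048))) (a (b (l 16597216) (b (l 16591224) (l 16587328))) (b (c (l 16600600) (l 16595064)) (b (l 16591728) (b (l 16588680) (l 16586776)))))))) (a (a (l 6) (a (l 6) (l 16570024))) (a (a (l 16573440) (l 16576200)) (a (a (l 16577744) (l 16578448)) (a (l 16599808) (b (l 16603344) (l 16575248))))))), by decide +kernel⟩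

def k8_pm_202_s : ∃ t, chk3 f_pm_202_s t 7 11 1 = true :=
  ⟨(a (l 6) (a (b (b (a (l 16562984) (l 16564584)) (l 6)) (l 6)) (b (a (b (l 16565336) (l 16552344)) (b (a (l 16565104) (b (l 16568064) (l 16560856))) (a (l 16551256) (b (l 16553640) (l 16546472))))) (a (l 6) (b (a (l 6) (b (l 16539368) (l 6))) (l 6)))))), by decide +kernel⟩

def k9_pm_202_s : ∃ t, chk3 f_pm_202_s t 1 3 1 = true :=
  ⟨(a (l 6) (l 6)), by decide +kernel⟩

theorem s10_pm_202_s : ∃ t, chk3 f_pm_202_s t 7 10 1 = true := ex3_b k6_pm_202_s k7_pm_202_s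

theorem s11_pm_202_s : ∃ t, chk3 f_pm_202_s t 7 5 1 = true := ex3_b s10_pm_202_s k8_pm_202_s

theorem s12_pm_202_s : ∃ t, chk3 f_pm_202_s t 3 5 1 = true := ex3_a k5_pm_202_s s11_pm_202_s

theorem s13_pm_202_s : ∃ t, chk3 f_pm_202_s t 1 5 1 = true := ex3_a k4_pm_202_s s12_pm_202_s

theorem s14_pm_202_s : ∃ t, chk3 f_pm_202_s t 3 9 1 = true := ex3_a k2_pm_202_s k3_pm_202_s

theorem s15_pm_202_s : ∃ t, chk3 f_pm_202_s t 1 9 1 = true := ex3_a k1_pm_202_s s14_pm_202_s

theorem s16_pm_202_s : ∃ t, chk3 f_pm_202_s t 1 4 1 = true := ex3_b k0_pm_202_s s15_pm_202_s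

theorem s17_pm_202_s : ∃ t, chk3 f_pm_202_s t 1 2 1 = true := ex3_b s16_pm_202_s s13_pm_202_s

theorem s18_pm_202_s : ∃ t, chk3 f_pm_202_s t 1 1 1 = true := ex3_b s17_pm_202_s k9_pm_202_s

theorem c_pm_202_s : CertNE 0 536870912 0 536870912 649613803 48318383 3 eng mog cd0q2 cd0q0 pd2 true true false .pp 2 0 2
    ndB0q2 ndB0q0 pcB2 cut_pm_202_s Ext.none :=
  certNE1 (fam := true) (s1 := true) (s2 := false) (a := 2) (b := 0) (c := 2) (cn := .pp) (n1 := ndB0q2) (n2 := ndB0q0) (pc := pcB2) (cut := cut_pm_202_s) (xt := Ext.none) (P1 := 0) (W1 := 536870912) (P2 := 0) (W2 := 536870912) (P3 := 649613803) (W3 := 48318383) (N0 := 3) (En := eng) (mo := mog) (C1 := cd0q2) (C2 := cd0q0) (C3 := pd2)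
    rfl (fun _ => rfl) s18_pm_202_s

noncomputable def cut_pm_202_t : Cut := Cut.of [[⟨3, 0, 0, 2845415833⟩], [⟨0, 1, 0, 67108864⟩, ⟨1, 0, 0, 67108864⟩, ⟨2, 1, 0, 67108864⟩]]

noncomputable def f_pm_202_t : ℕ → ℕ → ℕ → ℕ → Bool := onCell 0 536870912 1073741824 536870912 649613803 48318383
    (rowNE 3 eng mog cd0q2 cd0q0 pd2 1 true true false .pp 2 0 2 (qsf 0 536870912 0 536870912 2) ndB0q2 ndB0q0 pcB2 cut_pm_202_t Ext.none)

def k0_pm_202_t : ∃ t, chk3 f_pm_202_t t 1 1 1 = true :=
  ⟨(b (l 6) (a (l 6) (l 6))), by decide +kernel⟩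

theorem c_pm_202_t : CertNE 0 536870912 0 536870912 649613803 48318383 3 eng mog cd0q2 cd0q0 pd2 true true false .pp 2 0 2
    ndB0q2 ndB0q0 pcB2 cut_pm_202_t Ext.none :=
  certNE1 (fam := true) (s1 := true) (s2 := false) (a := 2) (b := 0) (c := 2) (cn := .pp) (n1 := ndB0q2) (n2 := ndB0q0) (pc := pcB2) (cut := cut_pm_202_t) (xt := Ext.none) (P1 := 0) (W1 := 536870912) (P2 := 0) (W2 := 536870912) (P3 := 649613803) (W3 := 48318383) (N0 := 3) (En := eng) (mo := mog) (C1 := cd0q2) (C2 := cd0q0) (C3 := pd2)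
    rfl (fun _ => rfl) k0_pm_202_t

noncomputable def cut_pm_203_s : Cut := Cut.of [[⟨4, 0, 0, 1449551462⟩]]

noncomputable def f_pm_203_s : ℕ → ℕ → ℕ → ℕ → Bool := onCell 0 536870912 1610612736 536870912 649613803 48318383
    (rowNE 3 eng mog cd0q2 cd0q0 pd3 1 true true false .up 2 0 3 (qsf 0 536870912 0 536870912 3) ndB0q2 ndB0q0 pcB3 cut_pm_203_s Ext.none)

def k0_pm_203_s : ∃ t, chk3 f_pm_203_s t 1 1 1 = true :=
  ⟨(l 6), by decide +kernel⟩

theorem c_pm_203_s : CertNE 0 536870912 0 536870912 649613803 48318383 3 eng mog cd0q2 cd0q0 pd3 true true false .up 2 0 3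
    ndB0q2 ndB0q0 pcB3 cut_pm_203_s Ext.none :=
  certNE1 (fam := true) (s1 := true) (s2 := false) (a := 2) (b := 0) (c := 3) (cn := .up) (n1 := ndB0q2) (n2 := ndB0q0) (pc := pcB3) (cut := cut_pm_203_s) (xt := Ext.none) (P1 := 0) (W1 := 536870912) (P2 := 0) (W2 := 536870912) (P3 := 649613803) (W3 := 48318383) (N0 := 3) (En := eng) (mo := mog) (C1 := cd0q2) (C2 := cd0q0) (C3 := pd3)
    rfl (fun _ => rfl) k0_pm_203_s

noncomputable def cut_pm_203_t : Cut := Cut.of [[⟨3, 0, 0, 2845415833⟩]]

noncomputable def f_pm_203_t : ℕ → ℕ → ℕ → ℕ → Bool := onCell 0 536870912 0 536870912 649613803 48318383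
    (rowNE 3 eng mog cd0q2 cd0q0 pd3 0 true true false .up 2 0 3 (qsf 0 536870912 0 536870912 3) ndB0q2 ndB0q0 pcB3 cut_pm_203_t Ext.none)

def k0_pm_203_t : ∃ t, chk3 f_pm_203_t t 1 1 1 = true :=
  ⟨(a (b (l 1) (b (b (l 1) (a (a (b (l 1) (b (l 6) (l 16660816))) (l 6)) (l 6))) (a (b (a (b (a (l 16672824) (l 6)) (a (l 16673888) (l 16658872))) (l 6)) (a (b (a (l 16695664) (l 16679688)) (b (l 16705960) (l 16717576))) (b (l 16659672) (a (l 16691368) (l 16678976))))) (b (l 6) (l 6))))) (l 6)), by decide +kernel⟩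

theorem c_pm_203_t : CertNE 0 536870912 0 536870912 649613803 48318383 3 eng mog cd0q2 cd0q0 pd3 true true false .up 2 0 3
    ndB0q2 ndB0q0 pcB3 cut_pm_203_t Ext.none :=
  certNE0 (fam := true) (s1 := true) (s2 := false) (a := 2) (b := 0) (c := 3) (cn := .up) (n1 := ndB0q2) (n2 := ndB0q0) (pc := pcB3) (cut := cut_pm_203_t) (xt := Ext.none) (P1 := 0) (W1 := 536870912) (P2 := 0) (W2 := 536870912) (P3 := 649613803) (W3 := 48318383) (N0 := 3) (En := eng) (mo := mog) (C1 := cd0q2) (C2 := cd0q0) (C3 := pd3)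
    rfl k0_pm_203_t

noncomputable def cut_pm_213_s : Cut := Cut.of [[⟨4, 0, 0, 1449551462⟩], [⟨0, 1, 0, 67108864⟩, ⟨1, 1, 0, 67108864⟩, ⟨2, 2, 0, 16777216⟩], [⟨0, 1, 0, 33554432⟩, ⟨1, 0, 1, 20971520⟩, ⟨2, 1, 1, 20971520⟩]]

noncomputable def f_pm_213_s : ℕ → ℕ → ℕ → ℕ → Bool := onCell 0 536870912 536870912 536870912 649613803 48318383
    (rowNE 3 eng mog cd0q2 cd0q1 pd3 0 true true false .pnn 2 1 3 (qsf 0 536870912 536870912 536870912 3) ndB0q2 ndB0q1 pcB3 cut_pm_213_s Ext.none)

def k0_pm_213_s : ∃ t, chk3 f_pm_213_s t 1 1 1 = true :=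
  ⟨(l 6), by decide +kernel⟩

theorem c_pm_213_s : CertNE 0 536870912 536870912 536870912 649613803 48318383 3 eng mog cd0q2 cd0q1 pd3 true true false .pnn 2 1 3
    ndB0q2 ndB0q1 pcB3 cut_pm_213_s Ext.none :=
  certNE0 (fam := true) (s1 := true) (s2 := false) (a := 2) (b := 1) (c := 3) (cn := .pnn) (n1 := ndB0q2) (n2 := ndB0q1) (pc := pcB3) (cut := cut_pm_213_s) (xt := Ext.none) (P1 := 0) (W1 := 536870912) (P2 := 536870912) (W2 := 536870912) (P3 := 649613803) (W3 := 48318383) (N0 := 3) (En := eng) (mo := mog) (C1 := cd0q2) (C2 := cd0q1) (C3 := pd3)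
    rfl k0_pm_213_s

noncomputable def cut_pm_213_t : Cut := Cut.of [[⟨3, 0, 0, 2845415833⟩], [⟨0, 1, 0, 67108864⟩, ⟨1, 1, 0, 67108864⟩, ⟨2, 2, 0, 16777216⟩], [⟨0, 1, 0, 33554432⟩, ⟨1, 0, 1, 20971520⟩, ⟨2, 1, 1, 20971520⟩]]

noncomputable def f_pm_213_t : ℕ → ℕ → ℕ → ℕ → Bool := onCell 0 536870912 1610612736 536870912 649613803 48318383
    (rowNE 3 eng mog cd0q2 cd0q1 pd3 1 true true false .pnn 2 1 3 (qsf 0 536870912 536870912 536870912 3) ndB0q2 ndB0q1 pcB3 cut_pm_213_t Ext.none)

def k0_pm_213_t : ∃ t, chk3 f_pm_213_t t 4 1 1 = true :=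
  ⟨(b (b (l 1) (b (b (b (l 1) (a (l 16719360) (l 16698216))) (a (l 16780768) (a (l 16724472) (l 16718304)))) (a (b (b (l 16755200) (l 16763096)) (a (b (l 16772104) (a (b (l 16777080) (l 136600088695)) (l 16774528))) (l 16789272))) (b (a (l 16749784) (l 16746512)) (a (l 16764408) (l 16762944)))))) (b (a (b (b (a (b (a (l 4) (b (l 16777304) (l 139284442887))) (l 4)) (b (l 16774016) (a (b (l 102240372663) (l 143579409479)) (l 16786240)))) (a (l 4) (b (a (l 4) (b (l 109219695127) (l 150558730423))) (l 4)))) (l 4)) (a (b (b (b (l 16770616) (l 16773664)) (b (a (l 16787096) (l 16775848)) (a (b (l 117809631431) (l 165591114871)) (b (l 16776848) (l 16777512))))) (b (b (a (l 4) (b (l 130157638519) (l 4))) (l 4)) (l 4))) (b (b (l 16792336) (b (l 16775968) (l 16777280))) (b (b (a (b (l 16777280) (l 103850986583)) (l 16777632)) (a (b (l 133915733175) (l 4)) (b (l 16777536) (l 114588408151)))) (l 4))))) (l 4))), by decide +kernel⟩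

def k1_pm_213_t : ∃ t, chk3 f_pm_213_t t 5 2 1 = true :=
  ⟨(b (l 6) (b (a (b (l 16677064) (l 16711792)) (l 6)) (a (b (l 16744024) (a (l 16763696) (l 16764368))) (b (a (l 16740392) (l 6)) (a (l 16763400) (l 16760872)))))), by decide +kernel⟩

def k2_pm_213_t : ∃ t, chk3 f_pm_213_t t 5 3 1 = true :=
  ⟨(b (b (a (b (a (l 16773024) (l 16775144)) (a (b (l 16778016) (l 16779440)) (b (l 16781184) (l 16782272)))) (b (a (l 16775880) (l 16773912)) (a (l 16782304) (l 16759800)))) (b (a (a (b (l 16779320) (a (l 16777792) (l 16778760))) (b (l 16781696) (l 16779960))) (a (b (l 16782336) (l 16779416)) (b (l 16779744) (l 16754720)))) (a (a (b (a (b (l 16785672) (l 127473283127)) (l 49090159239)) (a (l 4) (b (l 111904055991) (l 4)))) (b (b (l 16778440) (l 16777472)) (b (l 16777080) (a (l 72712475047) (l 16776656))))) (a (b (l 16776160) (b (l 16774952) (l 16775048))) (b (a (l 16773464) (l 16770864)) (a (l 16771976) (l 16769672))))))) (b (b (a (b (a (l 4) (b (a (l 124788927383) (l 51237634871))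 (a (l 4) (a (l 159685536439) (l 106535341607))))) (l 4)) (b (a (b (l 16775520) (a (l 16776760) (l 16775600))) (b (l 16771624) (l 16772856))) (a (b (a (b (l 69491245671) (l 102240374519)) (l 16776472)) (a (b (l 176865404023) (l 4)) (a (b (l 16777368) (l 112440876199)) (l 40500211175)))) (b (l 16774328) (a (l 16776272) (l 16774952)))))) (a (l 4) (b (a (b (a (l 4) (b (a (l 4) (l 110830264663)) (l 4))) (l 4)) (b (a (b (l 16776960) (a (l 106535319335) (l 16777072))) (l 16776336)) (a (a (l 4) (b (b (l 16777424) (l 96871625527)) (l 217130723527))) (a (b (l 16777104) (b (l 16777336) (l 105998437895))) (l 16777056))))) (a (l 4) (b (a (l 4) (b (a (a (l 4) (l 201561469463)) (b (l 16777320) (a (l 126399530567) (l 16777312)))) (a (l 4) (b (a (l 4) (l 123178305591)) (l 4))))) (l 4)))))) (l 4))), by decide +kernel⟩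

def k3_pm_213_t : ∃ t, chk3 f_pm_213_t t 3 2 1 = true :=
  ⟨(b (l 6) (b (l 6) (a (l 6) (l 6)))), by decide +kernel⟩

def k4_pm_213_t : ∃ t, chk3 f_pm_213_t t 6 6 1 = true :=
  ⟨(b (a (b (a (l 16770184) (b (l 6) (l 16766120))) (a (l 16755232) (b (l 16769568) (l 16770440)))) (b (l 6) (a (b (l 16765112) (a (l 16765840) (l 16765368))) (b (l 6) (l 16744936))))) (b (a (a (b (l 16775048) (l 16771784)) (b (l 16768384) (l 16766904))) (a (b (a (l 16764528) (l 16764912)) (a (l 16763936) (l 16785568))) (b (a (l 16766720) (l 16769832)) (b (l 16812376) (a (l 16768952) (l 16774488)))))) (a (b (a (l 16768672) (l 16786536)) (a (a (l 16767256) (l 16766336)) (a (l 16765816) (l 16765488)))) (a (b (a (l 16764200) (b (l 16764776) (l 16765760))) (a (l 16766040) (b (l 16767144) (l 16768576)))) (a (b (l 16769352) (b (l 16770632) (l 16772144))) (b (l 16796184) (b (l 16776904) (l 16778600)))))))), by decide +kernel⟩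

def k5_pm_213_t : ∃ t, chk3 f_pm_213_t t 6 14 1 = true :=
  ⟨(b (a (a (b (a (b (l 16767720) (l 16769160)) (b (l 16765816) (l 16767048))) (b (a (l 16771192) (l 16769224)) (a (l 16773344) (l 16771624)))) (b (a (l 16787384) (b (l 16766552) (l 16767680))) (a (b (l 16767984) (l 16749456)) (b (l 16769152) (l 16770912))))) (a (b (b (a (l 16767928) (l 16770496)) (a (l 16769384) (l 16772280))) (a (b (l 16771096) (l 16773032)) (b (l 16774208) (l 16776264)))) (b (a (b (a (l 16773368) (l 16775552)) (l 16776672)) (b (l 16780640) (l 16782448))) (a (b (l 16778512) (l 16780608)) (c (l 16806360) (a (l 16804632) (l 16808184))))))) (a (b (a (b (a (l 16775304) (l 16774136)) (a (l 16776768) (l 16776248))) (a (b (l 16773192) (l 16775736)) (b (a (l 16772600) (l 16773248)) (a (l 16775352) (l 16775608))))) (a (b (a (b (l 16777376) (a (b (l 16777360) (a (l 104924695047) (l 16777336))) (l 16777520))) (b (l 16777360) (l 16777800))) (a (b (a (b (a (l 4) (l 122641440135)) (l 4)) (b (l 16777456) (a (l 113514633351)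 (l 16777408)))) (a (l 4) (b (a (l 4) (c (l 105998439671) (l 107072181447))) (l 4)))) (b (l 16777944) (a (a (b (l 16777456) (a (l 117272728199) (l 16777440))) (l 16777608)) (l 16778008))))) (b (a (b (l 16777336) (l 16778104)) (l 16778024)) (a (b (l 16778608) (l 16776192)) (b (l 16779384) (l 16779944)))))) (a (b (a (b (l 16775072) (l 16797920)) (b (l 16778368) (l 16780416))) (b (a (a (l 16778840) (l 16779584)) (l 16782360)) (a (b (l 16781136) (l 16781736)) (a (l 16783080) (l 16785072))))) (b (a (b (l 16782704) (l 16784704)) (b (l 16809408) (l 16790208))) (a (b (l 16786648) (l 16788184)) (b (l 16791792) (l 16792944))))))), by decide +kernel⟩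

def k6_pm_213_t : ∃ t, chk3 f_pm_213_t t 12 30 1 = true :=
  ⟨(b (a (b (a (l 4) (b (a (a (l 4) (b (a (l 117272728295) (l 16777448)) (l 260080398711))) (a (b (l 16777552) (b (l 16777456) (l 118883341111))) (l 16777752))) (a (l 4) (b (a (l 263301624167) (a (a (l 132305114087) (l 129083893015)) (l 77007414439))) (l 268670331287))))) (l 4)) (b (a (b (a (l 16778288) (l 16778992)) (a (a (b (l 16777656) (a (a (l 206393309783) (l 136063214967)) (l 80228639799))) (l 16777896)) (l 16778576))) (b (l 16780168) (l 16780032))) (a (b (a (a (l 4) (b (b (l 82912994567) (l 184918470951)) (l 4))) (b (l 16777992) (a (b (l 88818579143) (l 198340246167)) (l 16777752)))) (a (l 4) (a (l 4) (b (b (a (l 150021860151) (l 16777464)) (l 213909502343)) (l 4))))) (b (a (l 16778840) (l 16780080)) (a (b (l 39426453303) (a (b (a (l 133915729383) (l 16777464)) (l 235384338455)) (l 16777784))) (l 16779144)))))) (a (l 4) (b (a (l 4) (b (a (b (b (a (l 4) (a (l 144116275671) (l 16777480))) (l 273502170807)) (l 4))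 (b (a (c (l 16777824) (l 55532578887)) (l 16778488)) (b (a (a (l 265985980759) (l 16774256)) (l 16777872)) (a (l 288534557815) (a (l 105998443943) (l 16777624)))))) (a (l 4) (b (a (l 4) (a (l 4) (b (l 116198990839) (l 4)))) (l 4))))) (l 4)))), by decide +kernel⟩

def k7_pm_213_t : ∃ t, chk3 f_pm_213_t t 13 30 1 = true :=
  ⟨(b (a (b (a (b (l 16782320) (l 16782552)) (a (l 16774376) (b (l 16786016) (l 16786864)))) (a (b (l 16771832) (l 16781568)) (b (l 16785792) (l 16785192)))) (a (b (l 16767976) (a (l 16788608) (l 16789888))) (a (l 16792144) (l 16794160)))) (a (b (a (b (a (l 16776712) (l 16781112)) (a (b (a (a (b (l 16777592) (l 162369890983)) (l 16777792)) (l 16778432)) (b (a (l 239679305783) (l 16777744)) (a (l 4) (a (l 240753048231) (l 16774760))))) (b (l 16779832) (l 16778824)))) (b (l 16778800) (a (l 16781312) (l 16772912)))) (a (b (a (b (a (l 4) (l 297124496711)) (l 4)) (a (b (b (a (l 100629735175) (l 16777744)) (a (l 4) (c (l 117272732535) (l 113514636071)))) (l 4)) (b (l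 16778200) (a (a (l 286923945671) (b (l 116735863079) (l 4))) (b (l 16777608) (l 227868146519)))))) (l 4)) (b (a (b (l 16779728) (a (c (l 71638717031) (b (l 16778288) (l 43184549415))) (l 16779048))) (l 16776032)) (a (a (b (b (a (l 273502173559) (a (l 119957088279) (l 16777464))) (l 328799876007)) (l 4)) (a (b (b (l 16777816) (b (l 16777248) (l 155390567287))) (l 4)) (b (l 16778032) (b (b (l 126399539767) (l 325578652231)) (l 4))))) (b (l 16774152) (a (b (a (l 74859941287) (l 16778072)) (a (l 263838497335) (b (l 16777560) (l 129620775767)))) (l 16778552))))))) (b (a (b (l 16788600) (l 16786760)) (b (l 16791792) (a (l 16790496) (l 16791936)))) (a (b (a (l 16783520) (l 16785864)) (b (l 16777632) (a (l 16780288) (l 16782672)))) (b (a (l 16788352) (l 16790992)) (a (l 16785872) (l 16788472))))))), by decide +kernel⟩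

def k8_pm_213_t : ∃ t, chk3 f_pm_213_t t 12 62 1 = true :=
  ⟨(l 4), by decide +kernel⟩

def k9_pm_213_t : ∃ t, chk3 f_pm_213_t t 26 62 1 = true :=
  ⟨(b (a (l 4) (b (a (l 4) (b (a (b (l 335779197975) (l 4)) (b (b (l 67343748263) (a (c (l 161296147607) (l 163443631111)) (l 16777568))) (b (a (l 4) (l 132841995911)) (l 339000424039)))) (l 4))) (l 4))) (l 4)), by decide +kernel⟩

def k10_pm_213_t : ∃ t, chk3 f_pm_213_t t 27 62 1 = true :=
  ⟨(b (a (b (a (a (b (b (l 16778592) (b (l 16778016) (l 70028103191))) (b (a (l 279407753671) (b (l 16777536) (a (l 170422954407) (l 16777168)))) (l 4))) (b (l 16779376) (b (l 16778200) (a (b (l 160759287383) (l 280481495975)) (l 16777680))))) (b (l 16781192) (l 16776976))) (a (b (b (b (a (l 4) (a (l 4) (l 185992214631))) (l 4)) (l 4)) (l 4)) (a (b (a (b (b (l 16777648) (c (l 176328543687) (l 124252061815))) (l 327189264359)) (b (l 16778032) (b (l 78081166535) (l 250953596023)))) (l 4)) (b (b (l 16778928) (l 16776720)) (b (b (a (a (l 169886083303)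 (l 16777136)) (l 16777680)) (a (l 4) (a (l 172033569079) (l 16777360)))) (a (l 4) (l 316451846183))))))) (b (b (l 16779608) (a (l 16781944) (l 16783960))) (a (b (l 16777520) (a (b (l 16778304) (b (l 73249328407) (a (l 247195499671) (l 16777496)))) (l 16778952))) (b (l 16782160) (l 16775192))))) (a (l 4) (b (a (b (a (b (b (a (l 4) (a (l 169349212199) (l 170422962727))) (l 4)) (l 4)) (a (b (b (l 16777640) (a (l 148948118583) (l 16777312))) (l 332021102487)) (b (l 16777960) (b (l 82376134215) (l 270280948711))))) (l 4)) (a (b (a (b (l 16778464) (l 79691779671)) (l 16778552)) (b (a (b (a (l 337926683591) (l 194045282711)) (l 4)) (a (b (l 16777400) (l 163443632327)) (l 79154908583))) (l 4))) (b (l 16779264) (b (l 16778064) (b (a (a (l 143579414567) (l 16777312)) (l 16777712)) (a (l 327726135895) (c (l 16778520) (l 86134230503)))))))) (b (b (b (a (l 4) (a (l 4) (a (l 4) (l 284239592327)))) (l 4)) (l 4)) (l 4))))), by decide +kernel⟩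

def k11_pm_213_t : ∃ t, chk3 f_pm_213_t t 6 63 1 = true :=
  ⟨(l 4), by decide +kernel⟩

def k12_pm_213_t : ∃ t, chk3 f_pm_213_t t 7 6 1 = true :=
  ⟨(b (l 6) (a (b (a (b (a (l 16795344) (l 6)) (c (a (l 16775528) (l 16781776)) (a (l 16786016) (l 16817456)))) (a (a (b (l 6) (b (l 6) (l 16797632))) (l 6)) (l 6))) (a (b (a (b (l 16782312) (l 16783256)) (c (l 16785992) (l 16798928))) (a (b (l 16784648) (l 16786424)) (b (l 16793912) (l 16795656)))) (b (c (a (l 16794712) (l 16802792)) (a (b (l 16812064) (l 16811928)) (l 16801480))) (c (a (l 16798976) (l 16808128)) (a (l 16791888) (a (l 16822696) (l 16828120))))))) (b (l 6) (a (c (b (a (l 16811328) (l 16820840)) (a (l 16817480) (l 16848584))) (b (a (l 16811320) (l 16832328)) (a (l 16815176) (b (l 16846416) (l 16848496))))) (b (l 6) (a (c (l 16859016) (b (l 16858360) (l 16860256))) (b (l 6) (c (l 16849344) (l 16871504))))))))), by decide +kernel⟩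

def k13_pm_213_t : ∃ t, chk3 f_pm_213_t t 7 14 1 = true :=
  ⟨(b (a (a (a (b (b (l 16788424) (l 16790248)) (b (l 16791992) (l 16793696))) (b (b (l 16797560) (l 16799272)) (b (l 16800872) (l 16802512)))) (a (b (b (l 16807800) (l 16809328)) (b (l 16810848) (l 16811920))) (a (b (b (l 16816184) (l 16817368)) (l 16871360)) (b (b (l 16821224) (l 16822752)) (c (l 16818408) (l 16809896)))))) (a (b (a (b (l 16871176) (l 16872624)) (b (l 16892296) (c (l 16832912) (l 16850504)))) (c (a (l 16824936) (l 16833624)) (a (b (l 16839352) (l 16838280)) (l 16849504)))) (c (b (a (l 16841808) (l 16837584)) (a (b (l 16842128) (l 16841296)) (b (l 16849936) (l 16848336)))) (b (a (c (l 16856008) (l 16867272)) (c (l 16865808) (l 16877776))) (a (l 16859448) (l 16847272)))))) (a (a (b (a (b (a (l 16793232) (l 16797344)) (a (l 16794912) (l 16798608))) (b (l 16803720) (l 16804568))) (a (b (a (l 16796304) (l 16799336)) (l 16798408)) (b (l 16804688) (a (l 16802408) (l 16805640))))) (b (a (c (l 16809744) (l 16774264))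 (c (l 16816928) (l 16783976))) (a (b (l 16811800) (l 16768440)) (b (l 16818856) (l 16816528))))) (c (a (b (a (a (l 16822216) (l 16826000)) (b (l 16832368) (l 16830496))) (a (b (l 16800496) (l 16797960)) (l 16826168))) (b (c (a (l 16835304) (l 16840968)) (a (l 16820824) (l 16848104))) (a (l 16841552) (c (l 16812480) (l 16839440))))) (a (a (b (b (l 16794320) (l 16833784)) (b (l 16830680) (l 16826896))) (b (l 16844896) (l 16815720))) (b (a (l 16832584) (l 16840064)) (a (l 16802184) (c (l 16846440) (l 16845520)))))))), by decide +kernel⟩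

def k14_pm_213_t : ∃ t, chk3 f_pm_213_t t 7 30 1 = true :=
  ⟨(a (b (a (a (l 16803688) (b (c (l 16802296) (l 16782776)) (l 16801360))) (b (a (l 16808344) (l 16813536)) (a (l 16805488) (l 16809968)))) (a (b (a (l 16795208) (l 16798736)) (a (b (l 16793112) (a (a (l 16790136) (l 16791360)) (l 16792448))) (l 16783808))) (b (a (a (l 16801496) (l 16803096)) (l 16805776)) (a (b (l 16799552) (l 16797416)) (b (l 16802296) (l 16799720)))))) (a (b (b (a (c (l 16794672) (l 16822288)) (c (l 16820064) (l 16828336))) (a (c (l 16811608) (l 16816816)) (a (l 16816768) (l 16819592)))) (b (a (l 16798384) (c (l 16809792) (b (l 16816512) (l 16813144)))) (a (c (l 16802216) (l 16804976)) (a (l 16794784) (a (l 16806112) (l 16807192)))))) (a (b (c (b (l 16824768) (l 16819440)) (b (l 16834944) (l 16827392))) (b (c (l 16813632) (l 16818968)) (c (l 16807432) (a (l 16811272) (l 16810672))))) (c (b (c (l 16823624) (l 16828360)) (b (l 16816776) (b (l 16811904) (l 16808568)))) (b (b (l 16835096) (l 16784232))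 (b (a (l 16818056) (l 16796448)) (a (l 16789048) (c (l 16811400) (l 16786160))))))))), by decide +kernel⟩

def k15_pm_213_t : ∃ t, chk3 f_pm_213_t t 14 62 1 = true :=
  ⟨(b (b (a (a (a (l 16786696) (b (l 16789560) (l 16787240))) (c (l 16792072) (l 16781320))) (a (l 16795104) (l 16797216))) (a (a (b (l 16784744) (a (l 16782232) (l 16773336))) (a (a (b (l 16786624) (l 16784896)) (b (l 16787792) (l 16785552))) (b (l 16789400) (l 16787288)))) (a (l 16791552) (c (l 16794184) (l 16795112))))) (a (b (a (a (b (l 16780592) (a (l 16775968) (l 16779440))) (b (l 16782192) (l 16780632))) (a (b (l 16783600) (l 16776808)) (b (a (l 16784512) (l 16785624)) (a (l 16783000) (c (l 16778416) (l 16778112)))))) (a (a (a (b (b (b (l 85597360023) (a (c (l 222499434983) (a (l 4) (l 141431930871))) (l 16777424))) (b (a (l 4) (a (l 320746814471) (l 183307864679))) (l 4))) (l 4)) (b (b (l 16778296) (b (l 16777720) (a (a (l 157538051959) (l 159148673607)) (l 16777568)))) (b (b (a (l 4) (a (a (l 161296149111)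 (l 211225151351)) (l 16777232))) (l 363159614903)) (l 4)))) (a (b (l 16776120) (b (b (l 16777816) (a (a (l 204782701015) (l 16777304)) (l 16777648))) (b (a (l 335779199511) (c (l 147874385479) (l 151632481799))) (a (l 4) (l 311620008615))))) (b (l 16779504) (a (b (l 16778224) (b (l 16777680) (l 139284450823))) (l 16776936))))) (a (b (l 16780560) (a (l 16776168) (l 16779472))) (b (l 16776576) (l 16780416))))) (a (b (a (a (b (l 16786592) (l 16784576)) (l 16765632)) (l 16788192)) (a (b (b (a (l 16772496) (l 16783992)) (a (l 16782320) (l 16775096))) (b (l 16776552) (l 16781200))) (b (l 16784960) (a (b (l 16777736) (a (l 16781816) (l 16776912))) (l 16783456))))) (b (a (l 16790216) (l 16792072)) (c (l 16787048) (l 16776120)))))), by decide +kernel⟩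

def k16_pm_213_t : ∃ t, chk3 f_pm_213_t t 15 62 1 = true :=
  ⟨(a (a (a (b (l 16797312) (b (l 16792952) (l 16789496))) (b (l 16798208) (b (l 16793736) (l 16790632)))) (b (a (l 16799056) (b (l 16801680) (l 16798464))) (b (b (l 16795616) (l 16794000)) (c (l 16791032) (l 16792256))))) (a (a (b (c (l 16800072) (l 16787736)) (b (b (l 16796976) (l 16795144)) (b (l 16803880) (l 16802160)))) (b (b (l 16805424) (l 16783320)) (b (c (l 16796384) (l 16797448)) (c (l 16792824) (l 16793848))))) (c (b (c (l 16808792) (b (l 16806432) (l 16802704))) (a (b (l 16797480) (l 16793816)) (b (l 16798288) (l 16794528)))) (b (a (a (l 16781560) (l 16781224)) (b (l 16782600) (l 16778880))) (b (a (l 16786360) (b (l 16776168) (l 16774384))) (a (c (l 16794112) (l 16792424)) (a (l 16782392) (l 16776856)))))))), by decide +kernel⟩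

def k17_pm_213_t : ∃ t, chk3 f_pm_213_t t 14 63 1 = true :=
  ⟨(b (a (b (b (a (a (l 4) (a (l 4) (b (b (a (l 288534559527) (l 130157645255)) (a (l 4) (c (l 268670335975) (l 276186528567)))) (l 4)))) (a (b (b (l 16778248) (a (l 112440905799) (l 16778248))) (a (a (b (b (a (l 4) (l 16777088)) (l 4)) (l 4)) (b (l 16778624) (b (a (l 4) (l 16777096)) (l 4)))) (b (l 16777904) (l 108682808967)))) (b (l 16779376) (l 16778704)))) (a (l 4) (a (a (l 4) (b (a (b (b (a (l 171496696791) (l 16777104)) (l 390540032679)) (l 4)) (b (l 16777328) (b (a (l 172570438455) (l 16777104)) (l 396982483607)))) (l 4))) (b (b (l 16778200) (a (l 109756550775) (l 16778176))) (a (a (b (b (a (l 175791663815) (l 16777096)) (l 4)) (l 4)) (b (l 16778616) (b (a (l 4) (l 16777072)) (l 4)))) (a (b (l 16777688) (l 130157645143)) (l 16777832))))))) (a (l 4) (a (l 4) (a (l 4) (b (b (a (b (a (l 4) (b (l 16777064) (l 4))) (l 4)) (b (l 134989483591) (c (l 308935654215) (c (l 316451846823) (l 321283684919))))) (l 4)) (l 4))))))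 (b (a (a (b (l 16780200) (b (l 16779208) (l 16778552))) (b (a (l 16780976) (b (a (l 16776400) (l 16776896)) (l 16775792))) (l 16779264))) (b (b (l 16778952) (l 14)) (l 14))) (a (a (b (b (b (l 16778064) (a (a (a (l 168812350551) (l 16777368)) (l 16777608)) (l 16778024))) (a (a (b (c (l 340074166951) (l 350274714039)) (l 4)) (b (b (l 16777336) (l 195655895927)) (l 392150645063))) (b (l 16777704) (b (l 16777424) (a (a (l 180086630951) (l 16777120)) (l 14)))))) (a (l 4) (a (a (l 4) (l 14)) (l 14)))) (b (b (l 16778960) (l 14)) (l 14))) (l 14)))) (a (l 4) (a (a (l 4) (l 14)) (l 14)))), by decide +kernel⟩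

def k18_pm_213_t : ∃ t, chk3 f_pm_213_t t 15 63 1 = true :=
  ⟨(b (b (b (b (a (a (a (l 16786840) (l 16788448)) (l 16789592)) (a (a (l 16790368) (l 16791424)) (c (l 16802352) (a (l 16791112) (l 16780072))))) (l 14)) (l 14)) (l 14)) (l 14)), by decide +kernel⟩

theorem s19_pm_213_t : ∃ t, chk3 f_pm_213_t t 7 63 1 = true := ex3_a k17_pm_213_t k18_pm_213_t

theorem s20_pm_213_t : ∃ t, chk3 f_pm_213_t t 7 62 1 = true := ex3_a k15_pm_213_t k16_pm_213_t

theorem s21_pm_213_t : ∃ t, chk3 f_pm_213_t t 7 31 1 = true := ex3_b s20_pm_213_t s19_pm_213_t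

theorem s22_pm_213_t : ∃ t, chk3 f_pm_213_t t 7 15 1 = true := ex3_b k14_pm_213_t s21_pm_213_t

theorem s23_pm_213_t : ∃ t, chk3 f_pm_213_t t 7 7 1 = true := ex3_b k13_pm_213_t s22_pm_213_t

theorem s24_pm_213_t : ∃ t, chk3 f_pm_213_t t 7 3 1 = true := ex3_b k12_pm_213_t s23_pm_213_t

theorem s25_pm_213_t : ∃ t, chk3 f_pm_213_t t 13 62 1 = true := ex3_a k9_pm_213_t k10_pm_213_t

theorem s26_pm_213_t : ∃ t, chk3 f_pm_213_t t 6 62 1 = true := ex3_a k8_pm_213_t s25_pm_213_t

theorem s27_pm_213_t : ∃ t, chk3 f_pm_213_t t 6 31 1 = true := ex3_b s26_pm_213_t k11_pm_213_t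

theorem s28_pm_213_t : ∃ t, chk3 f_pm_213_t t 6 30 1 = true := ex3_a k6_pm_213_t k7_pm_213_t

theorem s29_pm_213_t : ∃ t, chk3 f_pm_213_t t 6 15 1 = true := ex3_b s28_pm_213_t s27_pm_213_t

theorem s30_pm_213_t : ∃ t, chk3 f_pm_213_t t 6 7 1 = true := ex3_b k5_pm_213_t s29_pm_213_t

theorem s31_pm_213_t : ∃ t, chk3 f_pm_213_t t 6 3 1 = true := ex3_b k4_pm_213_t s30_pm_213_t

theorem s32_pm_213_t : ∃ t, chk3 f_pm_213_t t 3 3 1 = true := ex3_a s31_pm_213_t s24_pm_213_t

theorem s33_pm_213_t : ∃ t, chk3 f_pm_213_t t 3 1 1 = true := ex3_b k3_pm_213_t s32_pm_213_t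

theorem s34_pm_213_t : ∃ t, chk3 f_pm_213_t t 5 1 1 = true := ex3_b k1_pm_213_t k2_pm_213_t

theorem s35_pm_213_t : ∃ t, chk3 f_pm_213_t t 2 1 1 = true := ex3_a k0_pm_213_t s34_pm_213_t

theorem s36_pm_213_t : ∃ t, chk3 f_pm_213_t t 1 1 1 = true := ex3_a s35_pm_213_t s33_pm_213_t

theorem c_pm_213_t : CertNE 0 536870912 536870912 536870912 649613803 48318383 3 eng mog cd0q2 cd0q1 pd3 true true false .pnn 2 1 3
    ndB0q2 ndB0q1 pcB3 cut_pm_213_t Ext.none :=
  certNE1 (fam := true) (s1 := true) (s2 := false) (a := 2) (b := 1) (c := 3) (cn := .pnn) (n1 := ndB0q2) (n2 := ndB0q1) (pc := pcB3) (cut := cut_pm_213_t) (xt := Ext.none) (P1 := 0) (W1 := 536870912) (P2 := 536870912) (W2 := 536870912) (P3 := 649613803) (W3 := 48318383) (N0 := 3) (En := eng) (mo := mog) (C1 := cd0q2) (C2 := cd0q1) (C3 := pd3)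
    rfl (fun _ => rfl) s36_pm_213_t

noncomputable def cut_mm_001_s : Cut := Cut.of [[⟨4, 0, 0, 1449551462⟩]]

noncomputable def f_mm_001_s : ℕ → ℕ → ℕ → ℕ → Bool := onCell 0 536870912 0 536870912 649613803 48318383
    (rowNE 3 eng mog cd0q0 cd0q0 pd1 0 true false false .up 0 0 1 (qsf 0 536870912 0 536870912 1) ndB0q0 ndB0q0 pcB1 cut_mm_001_s Ext.none)

def k0_mm_001_s : ∃ t, chk3 f_mm_001_s t 1 1 1 = true :=
  ⟨(l 4), by decide +kernel⟩

theorem c_mm_001_s : CertNE 0 536870912 0 536870912 649613803 48318383 3 eng mog cd0q0 cd0q0 pd1 true false false .up 0 0 1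
    ndB0q0 ndB0q0 pcB1 cut_mm_001_s Ext.none :=
  certNE0 (fam := true) (s1 := false) (s2 := false) (a := 0) (b := 0) (c := 1) (cn := .up) (n1 := ndB0q0) (n2 := ndB0q0) (pc := pcB1) (cut := cut_mm_001_s) (xt := Ext.none) (P1 := 0) (W1 := 536870912) (P2 := 0) (W2 := 536870912) (P3 := 649613803) (W3 := 48318383) (N0 := 3) (En := eng) (mo := mog) (C1 := cd0q0) (C2 := cd0q0) (C3 := pd1)
    rfl k0_mm_001_s

noncomputable def cut_mm_001_t : Cut := Cut.of [[⟨3, 0, 0, 2845415833⟩]]

noncomputable def f_mm_001_t : ℕ → ℕ → ℕ → ℕ → Bool := onCell 0 536870912 0 536870912 649613803 48318383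
    (rowNE 3 eng mog cd0q0 cd0q0 pd1 0 true false false .up 0 0 1 (qsf 0 536870912 0 536870912 1) ndB0q0 ndB0q0 pcB1 cut_mm_001_t Ext.none)

def k0_mm_001_t : ∃ t, chk3 f_mm_001_t t 1 1 1 = true :=
  ⟨(l 4), by decide +kernel⟩

theorem c_mm_001_t : CertNE 0 536870912 0 536870912 649613803 48318383 3 eng mog cd0q0 cd0q0 pd1 true false false .up 0 0 1
    ndB0q0 ndB0q0 pcB1 cut_mm_001_t Ext.none :=
  certNE0 (fam := true) (s1 := false) (s2 := false) (a := 0) (b := 0) (c := 1) (cn := .up) (n1 := ndB0q0) (n2 := ndB0q0) (pc := pcB1) (cut := cut_mm_001_t) (xt := Ext.none) (P1 := 0) (W1 := 536870912) (P2 := 0) (W2 := 536870912) (P3 := 649613803) (W3 := 48318383) (N0 := 3) (En := eng) (mo := mog) (C1 := cd0q0) (C2 := cd0q0) (C3 := pd1)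
    rfl k0_mm_001_t

noncomputable def cut_mm_011_s : Cut := Cut.of [[⟨4, 0, 0, 1449551462⟩]]

noncomputable def f_mm_011_s : ℕ → ℕ → ℕ → ℕ → Bool := onCell 0 536870912 536870912 536870912 649613803 48318383
    (rowNE 3 eng mog cd0q0 cd0q1 pd1 0 true false false .pnn 0 1 1 (qsf 0 536870912 536870912 536870912 1) ndB0q0 ndB0q1 pcB1 cut_mm_011_s Ext.none)

def k0_mm_011_s : ∃ t, chk3 f_mm_011_s t 1 1 1 = true :=
  ⟨(l 6), by decide +kernel⟩

theorem c_mm_011_s : CertNE 0 536870912 536870912 536870912 649613803 48318383 3 eng mog cd0q0 cd0q1 pd1 true false false .pnn 0 1 1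
    ndB0q0 ndB0q1 pcB1 cut_mm_011_s Ext.none :=
  certNE0 (fam := true) (s1 := false) (s2 := false) (a := 0) (b := 1) (c := 1) (cn := .pnn) (n1 := ndB0q0) (n2 := ndB0q1) (pc := pcB1) (cut := cut_mm_011_s) (xt := Ext.none) (P1 := 0) (W1 := 536870912) (P2 := 536870912) (W2 := 536870912) (P3 := 649613803) (W3 := 48318383) (N0 := 3) (En := eng) (mo := mog) (C1 := cd0q0) (C2 := cd0q1) (C3 := pd1)
    rfl k0_mm_011_s

noncomputable def cut_mm_011_t : Cut := Cut.of [[⟨3, 0, 0, 2845415833⟩]]

noncomputable def f_mm_011_t : ℕ → ℕ → ℕ → ℕ → Bool := onCell 0 536870912 536870912 536870912 649613803 48318383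
    (rowNE 3 eng mog cd0q0 cd0q1 pd1 0 true false false .pnn 0 1 1 (qsf 0 536870912 536870912 536870912 1) ndB0q0 ndB0q1 pcB1 cut_mm_011_t Ext.none)

def k0_mm_011_t : ∃ t, chk3 f_mm_011_t t 1 1 1 = true :=
  ⟨(b (l 4) (l 5)), by decide +kernel⟩

theorem c_mm_011_t : CertNE 0 536870912 536870912 536870912 649613803 48318383 3 eng mog cd0q0 cd0q1 pd1 true false false .pnn 0 1 1
    ndB0q0 ndB0q1 pcB1 cut_mm_011_t Ext.none :=
  certNE0 (fam := true) (s1 := false) (s2 := false) (a := 0) (b := 1) (c := 1) (cn := .pnn) (n1 := ndB0q0) (n2 := ndB0q1) (pc := pcB1) (cut := cut_mm_011_t) (xt := Ext.none) (P1 := 0) (W1 := 536870912) (P2 := 536870912) (W2 := 536870912) (P3 := 649613803) (W3 := 48318383) (N0 := 3) (En := eng) (mo := mog) (C1 := cd0q0) (C2 := cd0q1) (C3 := pd1)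
    rfl k0_mm_011_t

noncomputable def cut_mm_012_s : Cut := Cut.of [[⟨4, 0, 0, 1449551462⟩]]

noncomputable def f_mm_012_s : ℕ → ℕ → ℕ → ℕ → Bool := onCell 0 536870912 536870912 536870912 649613803 48318383
    (rowNE 3 eng mog cd0q0 cd0q1 pd2 0 true false false .pnp 0 1 2 (qsf 0 536870912 536870912 536870912 2) ndB0q0 ndB0q1 pcB2 cut_mm_012_s Ext.none)

def k0_mm_012_s : ∃ t, chk3 f_mm_012_s t 1 1 1 = true :=
  ⟨(l 6), by decide +kernel⟩

theorem c_mm_012_s : CertNE 0 536870912 536870912 536870912 649613803 48318383 3 eng mog cd0q0 cd0q1 pd2 true false false .pnp 0 1 2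
    ndB0q0 ndB0q1 pcB2 cut_mm_012_s Ext.none :=
  certNE0 (fam := true) (s1 := false) (s2 := false) (a := 0) (b := 1) (c := 2) (cn := .pnp) (n1 := ndB0q0) (n2 := ndB0q1) (pc := pcB2) (cut := cut_mm_012_s) (xt := Ext.none) (P1 := 0) (W1 := 536870912) (P2 := 536870912) (W2 := 536870912) (P3 := 649613803) (W3 := 48318383) (N0 := 3) (En := eng) (mo := mog) (C1 := cd0q0) (C2 := cd0q1) (C3 := pd2)
    rfl k0_mm_012_s

noncomputable def cut_mm_012_t : Cut := Cut.of [[⟨3, 0, 0, 2845415833⟩]]

noncomputable def f_mm_012_t : ℕ → ℕ → ℕ → ℕ → Bool := onCell 0 536870912 536870912 536870912 649613803 48318383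
    (rowNE 3 eng mog cd0q0 cd0q1 pd2 0 true false false .pnp 0 1 2 (qsf 0 536870912 536870912 536870912 2) ndB0q0 ndB0q1 pcB2 cut_mm_012_t Ext.none)

def k0_mm_012_t : ∃ t, chk3 f_mm_012_t t 1 1 1 = true :=
  ⟨(b (l 4) (l 5)), by decide +kernel⟩

theorem c_mm_012_t : CertNE 0 536870912 536870912 536870912 649613803 48318383 3 eng mog cd0q0 cd0q1 pd2 true false false .pnp 0 1 2
    ndB0q0 ndB0q1 pcB2 cut_mm_012_t Ext.none :=
  certNE0 (fam := true) (s1 := false) (s2 := false) (a := 0) (b := 1) (c := 2) (cn := .pnp) (n1 := ndB0q0) (n2 := ndB0q1) (pc := pcB2) (cut := cut_mm_012_t) (xt := Ext.none) (P1 := 0) (W1 := 536870912) (P2 := 536870912) (W2 := 536870912) (P3 := 649613803) (W3 := 48318383) (N0 := 3) (En := eng) (mo := mog) (C1 := cd0q0) (C2 := cd0q1) (C3 := pd2)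
    rfl k0_mm_012_t

noncomputable def cut_mm_022_s : Cut := Cut.of [[⟨4, 0, 0, 1449551462⟩]]

noncomputable def f_mm_022_s : ℕ → ℕ → ℕ → ℕ → Bool := onCell 0 536870912 0 536870912 649613803 48318383
    (rowNE 3 eng mog cd0q0 cd0q2 pd2 0 true false false .pp 0 2 2 (qsf 0 536870912 0 536870912 2) ndB0q0 ndB0q2 pcB2 cut_mm_022_s Ext.none)

def k0_mm_022_s : ∃ t, chk3 f_mm_022_s t 1 1 1 = true :=
  ⟨(l 5), by decide +kernel⟩

theorem c_mm_022_s : CertNE 0 536870912 0 536870912 649613803 48318383 3 eng mog cd0q0 cd0q2 pd2 true false false .pp 0 2 2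
    ndB0q0 ndB0q2 pcB2 cut_mm_022_s Ext.none :=
  certNE0 (fam := true) (s1 := false) (s2 := false) (a := 0) (b := 2) (c := 2) (cn := .pp) (n1 := ndB0q0) (n2 := ndB0q2) (pc := pcB2) (cut := cut_mm_022_s) (xt := Ext.none) (P1 := 0) (W1 := 536870912) (P2 := 0) (W2 := 536870912) (P3 := 649613803) (W3 := 48318383) (N0 := 3) (En := eng) (mo := mog) (C1 := cd0q0) (C2 := cd0q2) (C3 := pd2)
    rfl k0_mm_022_s

noncomputable def cut_mm_022_t : Cut := Cut.of [[⟨3, 0, 0, 2845415833⟩]]

noncomputable def f_mm_022_t : ℕ → ℕ → ℕ → ℕ → Bool := onCell 0 536870912 0 536870912 649613803 48318383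
    (rowNE 3 eng mog cd0q0 cd0q2 pd2 0 true false false .pp 0 2 2 (qsf 0 536870912 0 536870912 2) ndB0q0 ndB0q2 pcB2 cut_mm_022_t Ext.none)

def k0_mm_022_t : ∃ t, chk3 f_mm_022_t t 1 1 1 = true :=
  ⟨(l 5), by decide +kernel⟩

theorem c_mm_022_t : CertNE 0 536870912 0 536870912 649613803 48318383 3 eng mog cd0q0 cd0q2 pd2 true false false .pp 0 2 2
    ndB0q0 ndB0q2 pcB2 cut_mm_022_t Ext.none :=
  certNE0 (fam := true) (s1 := false) (s2 := false) (a := 0) (b := 2) (c := 2) (cn := .pp) (n1 := ndB0q0) (n2 := ndB0q2) (pc := pcB2) (cut := cut_mm_022_t) (xt := Ext.none) (P1 := 0) (W1 := 536870912) (P2 := 0) (W2 := 536870912) (P3 := 649613803) (W3 := 48318383) (N0 := 3) (En := eng) (mo := mog) (C1 := cd0q0) (C2 := cd0q2) (C3 := pd2)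
    rfl k0_mm_022_t

noncomputable def cut_mm_023_s : Cut := Cut.of [[⟨4, 0, 0, 1449551462⟩]]

noncomputable def f_mm_023_s : ℕ → ℕ → ℕ → ℕ → Bool := onCell 0 536870912 0 536870912 649613803 48318383
    (rowNE 3 eng mog cd0q0 cd0q2 pd3 0 true false false .up 0 2 3 (qsf 0 536870912 0 536870912 3) ndB0q0 ndB0q2 pcB3 cut_mm_023_s Ext.none)

def k0_mm_023_s : ∃ t, chk3 f_mm_023_s t 1 1 1 = true :=
  ⟨(l 5), by decide +kernel⟩

theorem c_mm_023_s : CertNE 0 536870912 0 536870912 649613803 48318383 3 eng mog cd0q0 cd0q2 pd3 true false false .up 0 2 3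
    ndB0q0 ndB0q2 pcB3 cut_mm_023_s Ext.none :=
  certNE0 (fam := true) (s1 := false) (s2 := false) (a := 0) (b := 2) (c := 3) (cn := .up) (n1 := ndB0q0) (n2 := ndB0q2) (pc := pcB3) (cut := cut_mm_023_s) (xt := Ext.none) (P1 := 0) (W1 := 536870912) (P2 := 0) (W2 := 536870912) (P3 := 649613803) (W3 := 48318383) (N0 := 3) (En := eng) (mo := mog) (C1 := cd0q0) (C2 := cd0q2) (C3 := pd3)
    rfl k0_mm_023_s

noncomputable def cut_mm_023_t : Cut := Cut.of [[⟨3, 0, 0, 2845415833⟩]]

noncomputable def f_mm_023_t : ℕ → ℕ → ℕ → ℕ → Bool := onCell 0 536870912 0 536870912 649613803 48318383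
    (rowNE 3 eng mog cd0q0 cd0q2 pd3 0 true false false .up 0 2 3 (qsf 0 536870912 0 536870912 3) ndB0q0 ndB0q2 pcB3 cut_mm_023_t Ext.none)

def k0_mm_023_t : ∃ t, chk3 f_mm_023_t t 1 1 1 = true :=
  ⟨(l 5), by decide +kernel⟩

theorem c_mm_023_t : CertNE 0 536870912 0 536870912 649613803 48318383 3 eng mog cd0q0 cd0q2 pd3 true false false .up 0 2 3
    ndB0q0 ndB0q2 pcB3 cut_mm_023_t Ext.none :=
  certNE0 (fam := true) (s1 := false) (s2 := false) (a := 0) (b := 2) (c := 3) (cn := .up) (n1 := ndB0q0) (n2 := ndB0q2) (pc := pcB3) (cut := cut_mm_023_t) (xt := Ext.none) (P1 := 0) (W1 := 536870912) (P2 := 0) (W2 := 536870912) (P3 := 649613803) (W3 := 48318383) (N0 := 3) (En := eng) (mo := mog) (C1 := cd0q0) (C2 := cd0q2) (C3 := pd3)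
    rfl k0_mm_023_t

noncomputable def cut_mm_101_s : Cut := Cut.of [[⟨4, 0, 0, 1449551462⟩], [⟨0, 1, 0, 67108864⟩, ⟨1, 0, 0, 67108864⟩, ⟨2, 1, 0, 67108864⟩]]

noncomputable def f_mm_101_s : ℕ → ℕ → ℕ → ℕ → Bool := onCell 536870912 536870912 0 536870912 649613803 48318383
    (rowNE 3 eng mog cd0q1 cd0q0 pd1 0 true false false .npn 1 0 1 (qsf 536870912 536870912 0 536870912 1) ndB0q1 ndB0q0 pcB1 cut_mm_101_s Ext.none)

def k0_mm_101_s : ∃ t, chk3 f_mm_101_s t 1 1 1 = true :=
  ⟨(l 6), by decide +kernel⟩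

theorem c_mm_101_s : CertNE 536870912 536870912 0 536870912 649613803 48318383 3 eng mog cd0q1 cd0q0 pd1 true false false .npn 1 0 1
    ndB0q1 ndB0q0 pcB1 cut_mm_101_s Ext.none :=
  certNE0 (fam := true) (s1 := false) (s2 := false) (a := 1) (b := 0) (c := 1) (cn := .npn) (n1 := ndB0q1) (n2 := ndB0q0) (pc := pcB1) (cut := cut_mm_101_s) (xt := Ext.none) (P1 := 536870912) (W1 := 536870912) (P2 := 0) (W2 := 536870912) (P3 := 649613803) (W3 := 48318383) (N0 := 3) (En := eng) (mo := mog) (C1 := cd0q1) (C2 := cd0q0) (C3 := pd1)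
    rfl k0_mm_101_s

noncomputable def cut_mm_101_t : Cut := Cut.of [[⟨3, 0, 0, 2845415833⟩], [⟨0, 1, 0, 67108864⟩, ⟨1, 0, 0, 67108864⟩, ⟨2, 1, 0, 67108864⟩]]

noncomputable def f_mm_101_t : ℕ → ℕ → ℕ → ℕ → Bool := onCell 536870912 536870912 0 536870912 649613803 48318383
    (rowNE 3 eng mog cd0q1 cd0q0 pd1 0 true false false .npn 1 0 1 (qsf 536870912 536870912 0 536870912 1) ndB0q1 ndB0q0 pcB1 cut_mm_101_t Ext.none)

def k0_mm_101_t : ∃ t, chk3 f_mm_101_t t 1 1 1 = true :=
  ⟨(a (l 4) (b (a (l 4) (b (a (l 4) (b (a (l 4) (b (l 14) (l 4))) (l 4))) (l 4))) (l 4))), by decide +kernel⟩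

theorem c_mm_101_t : CertNE 536870912 536870912 0 536870912 649613803 48318383 3 eng mog cd0q1 cd0q0 pd1 true false false .npn 1 0 1
    ndB0q1 ndB0q0 pcB1 cut_mm_101_t Ext.none :=
  certNE0 (fam := true) (s1 := false) (s2 := false) (a := 1) (b := 0) (c := 1) (cn := .npn) (n1 := ndB0q1) (n2 := ndB0q0) (pc := pcB1) (cut := cut_mm_101_t) (xt := Ext.none) (P1 := 536870912) (W1 := 536870912) (P2 := 0) (W2 := 536870912) (P3 := 649613803) (W3 := 48318383) (N0 := 3) (En := eng) (mo := mog) (C1 := cd0q1) (C2 := cd0q0) (C3 := pd1)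
    rfl k0_mm_101_t

noncomputable def cut_mm_102_s : Cut := Cut.of [[⟨4, 0, 0, 1449551462⟩], [⟨0, 1, 0, 67108864⟩, ⟨1, 0, 0, 67108864⟩, ⟨2, 1, 0, 67108864⟩]]

noncomputable def f_mm_102_s : ℕ → ℕ → ℕ → ℕ → Bool := onCell 536870912 536870912 0 536870912 649613803 48318383
    (rowNE 3 eng mog cd0q1 cd0q0 pd2 0 true false false .npp 1 0 2 (qsf 536870912 536870912 0 536870912 2) ndB0q1 ndB0q0 pcB2 cut_mm_102_s Ext.none)

def k0_mm_102_s : ∃ t, chk3 f_mm_102_s t 1 1 1 = true :=
  ⟨(l 6), by decide +kernel⟩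

theorem c_mm_102_s : CertNE 536870912 536870912 0 536870912 649613803 48318383 3 eng mog cd0q1 cd0q0 pd2 true false false .npp 1 0 2
    ndB0q1 ndB0q0 pcB2 cut_mm_102_s Ext.none :=
  certNE0 (fam := true) (s1 := false) (s2 := false) (a := 1) (b := 0) (c := 2) (cn := .npp) (n1 := ndB0q1) (n2 := ndB0q0) (pc := pcB2) (cut := cut_mm_102_s) (xt := Ext.none) (P1 := 536870912) (W1 := 536870912) (P2 := 0) (W2 := 536870912) (P3 := 649613803) (W3 := 48318383) (N0 := 3) (En := eng) (mo := mog) (C1 := cd0q1) (C2 := cd0q0) (C3 := pd2)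
    rfl k0_mm_102_s

noncomputable def cut_mm_102_t : Cut := Cut.of [[⟨3, 0, 0, 2845415833⟩], [⟨0, 1, 0, 67108864⟩, ⟨1, 0, 0, 67108864⟩, ⟨2, 1, 0, 67108864⟩]]

noncomputable def f_mm_102_t : ℕ → ℕ → ℕ → ℕ → Bool := onCell 536870912 536870912 0 536870912 649613803 48318383
    (rowNE 3 eng mog cd0q1 cd0q0 pd2 0 true false false .npp 1 0 2 (qsf 536870912 536870912 0 536870912 2) ndB0q1 ndB0q0 pcB2 cut_mm_102_t Ext.none)

def k0_mm_102_t : ∃ t, chk3 f_mm_102_t t 1 1 1 = true :=
  ⟨(a (l 4) (b (a (l 4) (b (a (l 4) (b (a (l 4) (b (l 14) (l 4))) (l 4))) (l 4))) (l 4))), by decide +kernel⟩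

theorem c_mm_102_t : CertNE 536870912 536870912 0 536870912 649613803 48318383 3 eng mog cd0q1 cd0q0 pd2 true false false .npp 1 0 2
    ndB0q1 ndB0q0 pcB2 cut_mm_102_t Ext.none :=
  certNE0 (fam := true) (s1 := false) (s2 := false) (a := 1) (b := 0) (c := 2) (cn := .npp) (n1 := ndB0q1) (n2 := ndB0q0) (pc := pcB2) (cut := cut_mm_102_t) (xt := Ext.none) (P1 := 536870912) (W1 := 536870912) (P2 := 0) (W2 := 536870912) (P3 := 649613803) (W3 := 48318383) (N0 := 3) (En := eng) (mo := mog) (C1 := cd0q1) (C2 := cd0q0) (C3 := pd2)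
    rfl k0_mm_102_t

noncomputable def cut_mm_112_s : Cut := Cut.of [[⟨4, 0, 0, 1449551462⟩]]

noncomputable def f_mm_112_s : ℕ → ℕ → ℕ → ℕ → Bool := onCell 536870912 536870912 536870912 536870912 649613803 48318383
    (rowNE 3 eng mog cd0q1 cd0q1 pd2 0 true false false .dn 1 1 2 (qsf 536870912 536870912 536870912 536870912 2) ndB0q1 ndB0q1 pcB2 cut_mm_112_s Ext.none)

def k0_mm_112_s : ∃ t, chk3 f_mm_112_s t 1 1 1 = true :=
  ⟨(l 4), by decide +kernel⟩

theorem c_mm_112_s : CertNE 536870912 536870912 536870912 536870912 649613803 48318383 3 eng mog cd0q1 cd0q1 pd2 true false false .dn 1 1 2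
    ndB0q1 ndB0q1 pcB2 cut_mm_112_s Ext.none :=
  certNE0 (fam := true) (s1 := false) (s2 := false) (a := 1) (b := 1) (c := 2) (cn := .dn) (n1 := ndB0q1) (n2 := ndB0q1) (pc := pcB2) (cut := cut_mm_112_s) (xt := Ext.none) (P1 := 536870912) (W1 := 536870912) (P2 := 536870912) (W2 := 536870912) (P3 := 649613803) (W3 := 48318383) (N0 := 3) (En := eng) (mo := mog) (C1 := cd0q1) (C2 := cd0q1) (C3 := pd2)
    rfl k0_mm_112_s

noncomputable def cut_mm_112_t : Cut := Cut.of [[⟨3, 0, 0, 2845415833⟩]]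

noncomputable def f_mm_112_t : ℕ → ℕ → ℕ → ℕ → Bool := onCell 536870912 536870912 536870912 536870912 649613803 48318383
    (rowNE 3 eng mog cd0q1 cd0q1 pd2 0 true false false .dn 1 1 2 (qsf 536870912 536870912 536870912 536870912 2) ndB0q1 ndB0q1 pcB2 cut_mm_112_t Ext.none)

def k0_mm_112_t : ∃ t, chk3 f_mm_112_t t 1 1 1 = true :=
  ⟨(l 4), by decide +kernel⟩

theorem c_mm_112_t : CertNE 536870912 536870912 536870912 536870912 649613803 48318383 3 eng mog cd0q1 cd0q1 pd2 true false false .dn 1 1 2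
    ndB0q1 ndB0q1 pcB2 cut_mm_112_t Ext.none :=
  certNE0 (fam := true) (s1 := false) (s2 := false) (a := 1) (b := 1) (c := 2) (cn := .dn) (n1 := ndB0q1) (n2 := ndB0q1) (pc := pcB2) (cut := cut_mm_112_t) (xt := Ext.none) (P1 := 536870912) (W1 := 536870912) (P2 := 536870912) (W2 := 536870912) (P3 := 649613803) (W3 := 48318383) (N0 := 3) (En := eng) (mo := mog) (C1 := cd0q1) (C2 := cd0q1) (C3 := pd2)
    rfl k0_mm_112_t

noncomputable def cut_mm_113_s : Cut := Cut.of [[⟨4, 0, 0, 1449551462⟩]]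

noncomputable def f_mm_113_s : ℕ → ℕ → ℕ → ℕ → Bool := onCell 536870912 536870912 536870912 536870912 649613803 48318383
    (rowNE 3 eng mog cd0q1 cd0q1 pd3 0 true false false .nn 1 1 3 (qsf 536870912 536870912 536870912 536870912 3) ndB0q1 ndB0q1 pcB3 cut_mm_113_s Ext.none)

def k0_mm_113_s : ∃ t, chk3 f_mm_113_s t 1 1 1 = true :=
  ⟨(l 4), by decide +kernel⟩

theorem c_mm_113_s : CertNE 536870912 536870912 536870912 536870912 649613803 48318383 3 eng mog cd0q1 cd0q1 pd3 true false false .nn 1 1 3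
    ndB0q1 ndB0q1 pcB3 cut_mm_113_s Ext.none :=
  certNE0 (fam := true) (s1 := false) (s2 := false) (a := 1) (b := 1) (c := 3) (cn := .nn) (n1 := ndB0q1) (n2 := ndB0q1) (pc := pcB3) (cut := cut_mm_113_s) (xt := Ext.none) (P1 := 536870912) (W1 := 536870912) (P2 := 536870912) (W2 := 536870912) (P3 := 649613803) (W3 := 48318383) (N0 := 3) (En := eng) (mo := mog) (C1 := cd0q1) (C2 := cd0q1) (C3 := pd3)
    rfl k0_mm_113_s

noncomputable def cut_mm_113_t : Cut := Cut.of [[⟨3, 0, 0, 2845415833⟩]]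

noncomputable def f_mm_113_t : ℕ → ℕ → ℕ → ℕ → Bool := onCell 536870912 536870912 536870912 536870912 649613803 48318383
    (rowNE 3 eng mog cd0q1 cd0q1 pd3 0 true false false .nn 1 1 3 (qsf 536870912 536870912 536870912 536870912 3) ndB0q1 ndB0q1 pcB3 cut_mm_113_t Ext.none)

def k0_mm_113_t : ∃ t, chk3 f_mm_113_t t 1 1 1 = true :=
  ⟨(l 4), by decide +kernel⟩

theorem c_mm_113_t : CertNE 536870912 536870912 536870912 536870912 649613803 48318383 3 eng mog cd0q1 cd0q1 pd3 true false false .nn 1 1 3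
    ndB0q1 ndB0q1 pcB3 cut_mm_113_t Ext.none :=
  certNE0 (fam := true) (s1 := false) (s2 := false) (a := 1) (b := 1) (c := 3) (cn := .nn) (n1 := ndB0q1) (n2 := ndB0q1) (pc := pcB3) (cut := cut_mm_113_t) (xt := Ext.none) (P1 := 536870912) (W1 := 536870912) (P2 := 536870912) (W2 := 536870912) (P3 := 649613803) (W3 := 48318383) (N0 := 3) (En := eng) (mo := mog) (C1 := cd0q1) (C2 := cd0q1) (C3 := pd3)
    rfl k0_mm_113_t

noncomputable def cut_mm_123_s : Cut := Cut.of [[⟨4, 0, 0, 1449551462⟩]]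

noncomputable def f_mm_123_s : ℕ → ℕ → ℕ → ℕ → Bool := onCell 536870912 536870912 0 536870912 649613803 48318383
    (rowNE 3 eng mog cd0q1 cd0q2 pd3 0 true false false .npn 1 2 3 (qsf 536870912 536870912 0 536870912 3) ndB0q1 ndB0q2 pcB3 cut_mm_123_s Ext.none)

def k0_mm_123_s : ∃ t, chk3 f_mm_123_s t 1 1 1 = true :=
  ⟨(l 6), by decide +kernel⟩

theorem c_mm_123_s : CertNE 536870912 536870912 0 536870912 649613803 48318383 3 eng mog cd0q1 cd0q2 pd3 true false false .npn 1 2 3
    ndB0q1 ndB0q2 pcB3 cut_mm_123_s Ext.none :=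
  certNE0 (fam := true) (s1 := false) (s2 := false) (a := 1) (b := 2) (c := 3) (cn := .npn) (n1 := ndB0q1) (n2 := ndB0q2) (pc := pcB3) (cut := cut_mm_123_s) (xt := Ext.none) (P1 := 536870912) (W1 := 536870912) (P2 := 0) (W2 := 536870912) (P3 := 649613803) (W3 := 48318383) (N0 := 3) (En := eng) (mo := mog) (C1 := cd0q1) (C2 := cd0q2) (C3 := pd3)
    rfl k0_mm_123_s

noncomputable def cut_mm_123_t : Cut := Cut.of [[⟨3, 0, 0, 2845415833⟩]]

noncomputable def f_mm_123_t : ℕ → ℕ → ℕ → ℕ → Bool := onCell 536870912 536870912 0 536870912 649613803 48318383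
    (rowNE 3 eng mog cd0q1 cd0q2 pd3 0 true false false .npn 1 2 3 (qsf 536870912 536870912 0 536870912 3) ndB0q1 ndB0q2 pcB3 cut_mm_123_t Ext.none)

def k0_mm_123_t : ∃ t, chk3 f_mm_123_t t 1 1 1 = true :=
  ⟨(a (l 5) (l 4)), by decide +kernel⟩

theorem c_mm_123_t : CertNE 536870912 536870912 0 536870912 649613803 48318383 3 eng mog cd0q1 cd0q2 pd3 true false false .npn 1 2 3
    ndB0q1 ndB0q2 pcB3 cut_mm_123_t Ext.none :=
  certNE0 (fam := true) (s1 := false) (s2 := false) (a := 1) (b := 2) (c := 3) (cn := .npn) (n1 := ndB0q1) (n2 := ndB0q2) (pc := pcB3) (cut := cut_mm_123_t) (xt := Ext.none) (P1 := 536870912) (W1 := 536870912) (P2 := 0) (W2 := 536870912) (P3 := 649613803) (W3 := 48318383) (N0 := 3) (En := eng) (mo := mog) (C1 := cd0q1) (C2 := cd0q2) (C3 := pd3)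
    rfl k0_mm_123_t

noncomputable def cut_mm_202_s : Cut := Cut.of [[⟨4, 0, 0, 1449551462⟩], [⟨0, 1, 0, 53687091⟩, ⟨1, 0, 0, 53687091⟩, ⟨2, 1, 0, 53687091⟩]]

noncomputable def f_mm_202_s : ℕ → ℕ → ℕ → ℕ → Bool := onCell 0 536870912 0 536870912 649613803 48318383
    (rowNE 3 eng mog cd0q2 cd0q0 pd2 0 true false false .pp 2 0 2 (qsf 0 536870912 0 536870912 2) ndB0q2 ndB0q0 pcB2 cut_mm_202_s Ext.none)

def k0_mm_202_s : ∃ t, chk3 f_mm_202_s t 1 1 1 = true :=
  ⟨(l 6), by decide +kernel⟩

theorem c_mm_202_s : CertNE 0 536870912 0 536870912 649613803 48318383 3 eng mog cd0q2 cd0q0 pd2 true false false .pp 2 0 2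
    ndB0q2 ndB0q0 pcB2 cut_mm_202_s Ext.none :=
  certNE0 (fam := true) (s1 := false) (s2 := false) (a := 2) (b := 0) (c := 2) (cn := .pp) (n1 := ndB0q2) (n2 := ndB0q0) (pc := pcB2) (cut := cut_mm_202_s) (xt := Ext.none) (P1 := 0) (W1 := 536870912) (P2 := 0) (W2 := 536870912) (P3 := 649613803) (W3 := 48318383) (N0 := 3) (En := eng) (mo := mog) (C1 := cd0q2) (C2 := cd0q0) (C3 := pd2)
    rfl k0_mm_202_s

end Pool.Agent.Strip051.G.I6050_6500.Tab.CS.BA00

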