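import Pool.Agent.Strip051.G.I6050_6500.Tab
import Pool.Agent.Strip051.PB.StripB

/-! # Strips, near vertex: certificates 2 (generated) -/

set_option linter.all false
set_option maxRecDepth 100000

namespace Pool.Agent.Strip051.G.I6050_6500.Tab.CS.BA00

open Pool.Agent.Strip051.PB Pool.Agent.Strip051.PB.T
open Pool.Agent.Strip051.G.I6050_6500.Tab

noncomputable def cut_mm_202_t : Cut := Cut.of [[⟨3, 0, 0, 2845415833⟩], [⟨0, 1, 0, 53687091⟩, ⟨1, 0, 0, 53687091⟩, ⟨2, 1, 0, 53687091⟩]]

noncomputable def f_mm_202_t : ℕ → ℕ → ℕ → ℕ → Bool := onCell 0 536870912 0 536870912 649613803 48318383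
    (rowNE 3 eng mog cd0q2 cd0q0 pd2 0 true false false .pp 2 0 2 (qsf 0 536870912 0 536870912 2) ndB0q2 ndB0q0 pcB2 cut_mm_202_t Ext.none)

def k0_mm_202_t : ∃ t, chk3 f_mm_202_t t 2 2 1 = true :=
  ⟨(b (a (l 6) (b (l 6) (a (l 6) (a (l 6) (b (b (l 6) (a (l 6) (l 16573584))) (b (a (l 16574168) (l 16606976)) (l 16612848))))))) (a (b (l 6) (a (l 6) (b (l 6) (b (l 6) (a (l 6) (l 16623288)))))) (b (a (b (l 6) (a (l 6) (l 16608904))) (b (a (c (l 16585792) (l 16605944)) (b (l 16624400) (l 16635920))) (a (c (l 16628328) (l 16639168)) (b (l 16668624) (c (l 16639424) (l 16660136)))))) (a (b (a (b (l 16591912) (l 16606368)) (b (l 16627960) (l 16621336))) (a (b (l 16621224) (l 16636384)) (b (l 16636232) (l 16672384)))) (b (a (b (c (l 16647272) (l 16647768)) (c (l 16640824) (l 16661616))) (a (b (l 16645216) (c (l 16658816) (l 16659264))) (b (l 16659360) (b (l 16690736) (l 16698056))))) (a (b (a (l 16650408) (l 16661568)) (c (l 16671880) (l 16691264))) (b (a (c (l 16674304) (l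 16674008)) (c (l 16709368) (l 16709376))) (a (b (l 16685824) (l 16693576)) (c (l 16725184) (l 16724736)))))))))), by decide +kernel⟩

def k1_mm_202_t : ∃ t, chk3 f_mm_202_t t 6 8 1 = true :=
  ⟨(a (a (b (l 6) (b (l 6) (a (l 6) (b (l 16570192) (b (l 16594904) (a (l 16573432) (l 16580328))))))) (a (b (l 6) (b (c (b (l 16575872) (l 16580752)) (b (l 16576008) (l 16580352))) (b (l 16606192) (a (l 16586432) (l 16594256))))) (b (b (b (l 6) (l 16574656)) (b (l 16582288) (l 16586728))) (b (b (l 16591248) (l 16596048)) (c (b (l 16601336) (l 16606872)) (b (l 16601216) (l 16606288))))))) (b (a (b (a (b (c (l 16578240) (l 16574608)) (l 16584920)) (b (c (l 16589304) (l 16585320)) (c (l 16597760) (l 16594304)))) (a (b (l 16592936) (l 16600632)) (b (c (l 16605864) (l 16602904)) (l 16612544)))) (b (a (b (c (l 16601344) (l 16597136)) (c (l 16610128) (l 16606408))) (b (c (l 16614472) (l 16631168)) (c (l 16623552) (l 16619744)))) (a (b (c (l 16618560) (l 16615312)) (b (l 16623328) (l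 16595984))) (b (c (l 16632280) (l 16628904)) (c (l 16640712) (l 16637744)))))) (a (b (a (b (l 16607288) (l 16612272)) (b (l 16620336) (l 16627904))) (a (b (l 16617512) (l 16622984)) (c (l 16636744) (l 16637696)))) (b (a (b (l 16633496) (l 16641392)) (b (a (l 16643992) (l 16651360)) (c (l 16656872) (l 16665152)))) (a (b (l 16649112) (l 16656688)) (b (l 16674328) (l 16671712))))))), by decide +kernel⟩

def k2_mm_202_t : ∃ t, chk3 f_mm_202_t t 6 9 1 = true :=
  ⟨(a (b (a (b (a (b (l 6) (l 16576040)) (b (l 16582160) (l 16589208))) (a (l 16586024) (l 16620456))) (b (a (b (a (l 16592584) (a (l 16598088) (l 16601912))) (l 16603376)) (b (a (b (l 16606400) (l 16609352)) (l 16616072)) (a (l 16614616) (b (l 16620640) (l 16624208))))) (a (b (l 16610448) (l 16617384)) (a (l 16625368) (l 16654216))))) (a (a (b (l 16598880) (l 16611360)) (b (l 16612752) (l 16625664))) (b (a (l 16627584) (l 16643320)) (a (l 16640904) (l 16657032))))) (b (b (b (a (a (l 16628688) (l 16645816)) (a (l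 16663304) (l 16679472))) (a (a (a (b (l 16628848) (l 16632152)) (l 16638904)) (l 16651896)) (a (l 16669544) (l 16687120)))) (b (a (a (l 16651840) (a (l 16654056) (l 16662640))) (a (l 16675976) (l 16704512))) (a (a (l 16648960) (l 16665560)) (a (a (l 16678368) (l 16708168)) (a (l 16696200) (l 16705336)))))) (a (b (a (l 16659688) (b (l 16672888) (l 16680144))) (a (l 16684232) (b (l 16687336) (l 16694496)))) (b (b (a (l 16690152) (a (l 16724336) (a (l 16731072) (l 16735624)))) (a (l 16697544) (l 16725848))) (a (a (l 16725040) (l 16723472)) (b (l 16733320) (c (l 16730192) (l 16740656)))))))), by decide +kernel⟩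

def k3_mm_202_t : ∃ t, chk3 f_mm_202_t t 14 16 1 = true :=
  ⟨(b (a (a (a (b (l 16623024) (l 16632520)) (b (a (l 16628624) (l 16632480)) (l 16640152))) (b (b (a (l 16635936) (l 16644144)) (c (l 16646888) (l 16664016))) (b (a (l 16645728) (l 16654008)) (a (l 16650480) (l 16658808))))) (a (a (b (b (l 16652688) (l 16657704)) (b (l 16662632) (l 16667464))) (b (b (c (l 16663360) (l 16659776)) (c (l 16668304) (l 16664928))) (b (l 16682080) (l 16676456)))) (b (b (a (c (l 16672504) (l 16669152)) (l 14)) (a (c (l 16677472) (l 16674328)) (c (l 16687000) (l 16694600)))) (a (b (c (l 16682360) (l 16679408)) (c (l 16687160) (l 16684400))) (b (c (l 16691912) (l 16689216)) (c (l 16696736) (l 16694224))))))) (a (a (b (b (l 16664224) (l 16668736)) (b (l 16673168) (l 16677536))) (a (b (l 16667944) (l 16687456)) (b (b (l 16663520) (l 16668152)) (c (l 16676272) (l 16673576))))) (a (b (a (b (l 16672216) (l 16676888)) (b (l 16681240) (l 16685952))) (a (b (l 16681488) (l 16686016)) (b (l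 16690584) (l 16695152)))) (b (a (b (c (l 16691880) (l 16689304)) (c (l 16696528) (l 16694128))) (b (c (l 16701488) (l 16699152)) (c (l 16706168) (l 16704008)))) (a (b (c (l 16701112) (l 16698880)) (c (l 16705624) (l 16703560))) (b (c (l 16710776) (l 16708784)) (c (l 16715320) (l 16713488)))))))), by decide +kernel⟩

def k4_mm_202_t : ∃ t, chk3 f_mm_202_t t 14 17 1 = true :=
  ⟨(a (a (b (b (c (l 16685200) (l 16672136)) (a (l 16667360) (l 16675416))) (b (a (b (l 16673504) (l 16677552)) (b (l 16681632) (l 16685736))) (b (l 16685688) (l 16689712)))) (b (a (b (l 16685720) (l 16694256)) (b (c (l 16684944) (l 16682584)) (c (l 16693408) (l 16691360)))) (c (b (a (l 16693008) (l 16701704)) (a (l 16701088) (l 16730840))) (a (b (l 16691152) (l 16699528)) (b (l 16699944) (l 16708400)))))) (b (b (a (a (c (l 16693760) (l 16691552)) (c (l 16702872) (l 16711328))) (a (b (c (l 16710080) (l 16708176)) (c (l 16714480) (l 16712728))) (b (c (l 16719808) (l 16718136)) (c (l 16724240) (l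 16722720))))) (b (a (a (l 16699232) (l 16708480)) (a (c (l 16718832) (l 16717224)) (c (l 16728616) (l 16737728)))) (a (a (l 16703528) (l 16723304)) (a (c (l 16723128) (l 16721672)) (c (l 16743440) (l 16736960)))))) (b (b (a (a (l 16707784) (l 16727592)) (a (c (l 16727384) (l 16726064)) (c (l 16747728) (l 16741392)))) (a (a (l 16712008) (l 16731848)) (a (b (l 16740448) (l 16742584)) (a (l 16743728) (c (l 16744000) (l 16743096)))))) (b (a (a (l 16726680) (c (l 16726184) (l 16724928))) (a (c (l 16735792) (l 16745216)) (a (l 16748000) (c (l 16748224) (l 16747448))))) (a (a (l 16725600) (c (l 16730312) (l 16729184))) (a (a (l 16737032) (l 16747216)) (a (c (l 16747368) (l 16746592)) (a (l 16756056) (l 16758624))))))))), by decide +kernel⟩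

def k5_mm_202_t : ∃ t, chk3 f_mm_202_t t 15 16 1 = true :=
  ⟨(a (b (a (b (l 14) (a (a (b (c (l 16699304) (l 16696816)) (l 16703008)) (b (l 14) (c (l 16709208) (l 16707048)))) (l 14))) (l 14)) (a (b (a (b (c (l 16721936) (a (l 16706784) (l 16711992))) (c (l 16726640) (a (l 16711648) (l 16716872)))) (b (c (a (l 16719152) (l 16724416)) (a (l 16717304) (l 16722720))) (c (a (l 16723864) (l 16729136)) (a (l 16722192) (l 16727608))))) (a (b (c (l 16731272) (a (l 16716440) (l 16721672))) (c (l 16730600) (a (l 16721168) (l 16726408)))) (b (c (a (l 16728512) (l 16733792)) (a (l 16727000) (l 16732432))) (c (a (l 16733104) (l 16738384)) (a (l 16731744) (l 16737184)))))) (b (a (b (l 14) (b (a (l 16737872) (l 14)) (a (l 16740264) (c (l 16741152) (l 16740000))))) (l 14)) (a (b (b (a (l 16742632) (c (l 16743488) (l 16742408))) (a (l 16744992) (c (l 16745808) (l 16744808)))) (a (c (l 16749016) (b (l 16741536) (l 16743904))) (a (b (l 16746248) (l 16748576)) (b (l 16749064) (l 16751392)))))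 (b (a (c (b (l 16749072) (l 16756640)) (b (l 16750792) (l 16753192))) (l 14)) (a (c (b (l 16756320) (l 16758616)) (b (c (l 16753144) (l 16752760)) (c (l 16755488) (l 16755144)))) (a (c (b (l 16757960) (l 16760248)) (b (l 16757336) (l 16759712))) (b (c (l 16760824) (l 16760304)) (c (l 16765744) (l 16763984)))))))))) (b (l 14) (a (b (l 14) (b (l 14) (b (l 14) (a (a (b (a (c (l 16765448) (l 16765072)) (l 14)) (a (c (l 16766592) (l 16766248)) (a (l 16769952) (l 14)))) (l 14)) (l 14))))) (l 14)))), by decide +kernel⟩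

def k6_mm_202_t : ∃ t, chk3 f_mm_202_t t 60 34 1 = true :=
  ⟨(a (b (a (b (l 16731824) (l 16736352)) (b (c (l 16732424) (l 16731080)) (c (l 16736888) (l 16735696)))) (a (b (l 16740824) (c (l 16740520) (l 16739472))) (b (c (l 16741304) (l 16740256)) (c (l 16745672) (l 16744760))))) (b (a (b (c (l 16737632) (l 16736432)) (c (l 16742104) (l 16741056))) (b (c (l 16742928) (l 16747112)) (b (l 16751072) (l 16752688)))) (c (a (b (l 16746536) (l 16756160)) (b (l 16755784) (c (l 16761632) (l 16761328)))) (a (b (l 16750864) (l 16752768)) (b (b (l 16749944) (l 16752224)) (c (l 16761024) (l 16758072))))))), by decide +kernel⟩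

def k7_mm_202_t : ∃ t, chk3 f_mm_202_t t 61 68 1 = true :=
  ⟨(a (c (a (b (b (l 16747184) (l 16749448)) (c (l 16752992) (l 16757872))) (b (a (l 16752424) (l 16757824)) (b (l 16759816) (l 16762056)))) (a (b (b (l 16746248) (l 16748584)) (c (l 16757496) (l 16754488))) (b (b (l 16757152) (l 16756864)) (b (l 16759192) (c (l 16759024) (l 16758736)))))) (b (c (a (b (c (l 16758416) (l 16758128)) (c (l 16763288) (l 16763032))) (a (b (l 16762528) (l 16767416)) (b (l 16766712) (c (l 16767744) (l 16770216))))) (a (b (c (l 16757824) (l 16760144)) (c (l 16762768) (l 16762496))) (a (b (l 16764688) (l 16765712)) (b (c (l 16765120) (l 16764928)) (c (l 16768752) (l 16768600)))))) (c (a (a (c (l 16765232) (l 16765008)) (b (l 16764200) (l 16769064))) (b (a (c (l 16767128) (l 16766976)) (b (l 16771984) (l 16771800))) (a (c (l 16771976) (l 16770544)) (a (c (l 16774112) (l 16772712)) (b (l 16772328) (l 16774760)))))) (a (a (b (l 16760880) (l 16763192)) (b (l 16766416) (c (l 16766192)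 (l 16766024)))) (a (b (c (l 16766816) (l 16769272)) (b (l 16771088) (l 16770936))) (a (b (l 16770264) (c (l 16772624) (l 16772528))) (b (c (l 16770496) (l 16771696)) (b (l 16772176) (l 16773984))))))))), by decide +kernel⟩

def k8_mm_202_t : ∃ t, chk3 f_mm_202_t t 122 69 1 = true :=
  ⟨(b (b (a (c (l 16756152) (l 16760752)) (c (c (l 16761776) (l 16764160)) (c (l 16763920) (l 16763672)))) (a (c (l 16763608) (l 16760408)) (a (c (l 16762480) (l 16762032)) (c (l 16765264) (l 16767512))))) (a (b (c (l 16763184) (c (l 16760192) (l 16759928))) (a (l 16763776) (c (l 16764120) (l 16763728)))) (c (a (b (l 16764688) (l 16769504)) (b (l 16770088) (c (l 16772336) (l 16772224)))) (a (b (l 16764304) (l 16769184)) (b (l 16768480) (c (l 16772112) (l 16770680))))))), by decide +kernel⟩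

def k9_mm_202_t : ∃ t, chk3 f_mm_202_t t 246 69 1 = true :=
  ⟨(a (b (b (c (l 16768472) (l 16768120)) (c (l 16769704) (c (l 16767856) (l 16770328)))) (a (b (b (l 16768896) (l 16770008)) (b (l 16772440) (a (l 16771880) (l 16772592)))) (b (b (l 16772944) (l 16772752)) (c (b (l 16772624) (l 16775032)) (b (l 16772480) (l 16774928)))))) (b (c (b (c (l 16771360) (l 16771232)) (b (l 16772960) (l 16772760))) (b (c (l 16771096) (l 16769648)) (a (l 16771280) (c (l 16772784) (l 16772696))))) (b (a (c (a (l 16773344) (l 16774056)) (c (l 16773592) (l 16773512))) (c (b (l 16774568) (a (l 16774008) (l 16776032))) (b (l 16774448) (c (l 16775608) (l 16775560))))) (b (c (c (l 16776080) (l 16775384)) (c (l 16775352) (l 16775312))) (a (b (c (l 16776176) (l 16776104)) (l 16775384)) (a (l 16776512) (b (l 16776632) (a (l 16777000) (l 73249326487))))))))), by decide +kernel⟩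

def k10_mm_202_t : ∃ t, chk3 f_mm_202_t t 247 69 1 = true :=
  ⟨(b (a (b (c (a (l 16772120) (c (l 16773592) (l 16773512))) (a (c (l 16770664) (l 16770560)) (b (l 16771512) (l 16773968)))) (b (c (a (l 16772472) (l 16775216)) (a (l 16772328) (c (l 16775144) (l 16775088)))) (a (c (l 16774896) (l 16774784)) (a (c (l 16775968) (l 16775888)) (l 16776000))))) (a (b (c (b (l 16774432) (c (l 16775568) (l 16775520))) (b (l 16774304) (c (l 16775480) (l 16775432)))) (b (c (l 16775344) (l 16775944)) (b (c (l 16776176) (l 16776144)) (a (l 16776360) (a (l 16776904) (c (l 52848231575) (l 54458844311))))))) (b (b (a (b (l 16773872) (l 16774440)) (c (l 16776240) (l 16775512))) (c (l 16776336) (l 16776040))) (b (a (c (l 16777080) (l 16776728)) (b (c (l 16777520) (l 16777512)) (a (c (l 48553264247) (l 51237618791)) (l 167738606167)))) (a (a (b (l 16777800) (l 172033573495)) (b (a (l 76470551687) (l 133378868327)) (l 4))) (l 4)))))) (a (a (b (c (c (l 16775912) (l 16775880)) (c (l 16775848)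 (c (l 16775824) (l 16775808)))) (b (a (c (l 16777184) (l 16777160)) (b (c (l 16777616) (l 16777608)) (a (a (l 16777872) (l 100629742711)) (l 4)))) (a (b (a (l 22246589687) (l 116735870311)) (l 4)) (l 4)))) (b (b (a (l 16776064) (c (l 16777136) (l 16777112))) (b (a (l 16776576) (a (l 16777848) (c (l 101166613703) (l 104387839159)))) (a (a (l 16776952) (c (l 61438166263) (l 63585649895))) (l 4)))) (a (a (b (b (l 105461581191) (l 4)) (l 4)) (l 4)) (l 4)))) (a (b (b (a (b (c (l 16777568) (l 16777560)) (a (c (l 57143198919) (l 59290682551)) (l 176328540823))) (b (c (l 151632478855) (l 151632478839)) (l 4))) (l 4)) (l 4)) (l 4)))), by decide +kernel⟩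

def k11_mm_202_t : ∃ t, chk3 f_mm_202_t t 60 35 1 = true :=
  ⟨(a (b (c (a (b (l 16744832) (l 16749104)) (b (l 16750000) (l 16759528))) (a (b (l 16743920) (l 16748328)) (b (l 16754464) (l 16757576)))) (b (b (a (l 16757192) (c (l 16757472) (l 16756928))) (a (l 16759336) (c (l 16759592) (l 16759104)))) (c (a (l 16760816) (b (l 16766944) (l 16766424))) (a (c (l 16762392) (l 16762112)) (b (l 16766520) (l 16766056)))))) (b (a (c (b (l 16759184) (c (l 16764912) (l 16764672))) (b (c (l 16754784) (l 16759688)) (b (l 16757944) (l 16765392)))) (a (b (c (l 16764488) (l 16761336)) (b (l 16764888) (c (l 16764624) (l 16764256)))) (b (b (l 16763232) (l 16765432)) (c (b (l 16765168) (l 16769936)) (b (l 16764816) (l 16769656)))))) (a (b (b (a (l 16766448) (l 16766520)) (a (l 16765976) (c (l 16766200) (l 16765888)))) (a (c (b (l 16765656) (l 16773000)) (b (l 16765336) (l 16770120))) (c (b (l 16770936) (b (l 16769896) (l 16773576))) (b (l 16770688) (b (l 16769696) (l 16773400))))))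 (a (b (b (c (l 16766752) (l 16769080)) (c (l 16771504) (l 16771264))) (c (c (l 16773400) (l 16773336)) (b (c (l 16773496) (l 16772744)) (l 16774312)))) (b (c (b (l 16772080) (b (l 16773680) (l 16774736))) (b (c (l 16771912) (l 16771792)) (b (l 16773496) (l 16773280)))) (b (c (l 16775016) (l 16774920)) (b (c (l 16775296) (l 16775240)) (a (l 16775648) (a (l 16777984) (b (l 16778400) (l 118883354439))))))))))), by decide +kernel⟩

def k12_mm_202_t : ∃ t, chk3 f_mm_202_t t 244 35 1 = true :=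
  ⟨(b (a (c (b (c (l 16767360) (l 16767184)) (b (l 16770512) (a (l 16769360) (l 16773344)))) (b (c (l 16766992) (l 16765488)) (b (l 16770240) (a (l 16769128) (l 16773152))))) (c (b (b (l 16766304) (l 16771096)) (b (a (l 16769944) (l 16773944)) (b (l 16773560) (c (l 16775968) (l 16775912))))) (b (b (l 16768592) (l 16769520)) (a (b (l 16769728) (c (l 16774608) (l 16774528))) (b (l 16772456) (b (l 16772808) (c (l 16773936) (l 16773888)))))))) (b (b (b (c (a (l 16774264) (l 16774392)) (a (a (l 16770784) (l 16772184)) (l 16775616))) (c (a (a (l 16772032) (l 16773400)) (l 16776448)) (a (a (l 16771880) (l 16775912)) (c (l 16776736) (l 16776048))))) (a (c (c (l 16774336) (l 16774296)) (c (l 16775560) (l 16774864))) (b (a (l 16776472) (a (b (l 16776600) (l 16778104)) (b (l 61438166679) (l 4)))) (a (a (l 16777856) (b (l 16778280) (l 92039808887))) (c (l 168812349031) (c (l 172570445383) (l 174717929015))))))) (b (a (a (b (l 16775192) (a (l 16775920) (l 16777920))) (a (b (l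 16776232) (b (l 16778336) (l 103314097975))) (b (b (l 16776664) (l 16778072)) (l 171496703143)))) (a (a (b (b (l 68417488647) (l 4)) (l 4)) (l 4)) (l 4))) (a (a (a (b (b (l 16776728) (l 53385103111)) (l 177939154167)) (b (b (l 76470552439) (l 4)) (l 4))) (l 4)) (l 4))))), by decide +kernel⟩

def k13_mm_202_t : ∃ t, chk3 f_mm_202_t t 245 35 1 = true :=
  ⟨(b (a (b (c (b (l 16770696) (a (l 16773160) (l 16773240))) (b (c (l 16771504) (l 16771376)) (a (l 16772960) (b (l 16771208) (l 16772328))))) (b (a (c (b (l 16772160) (l 16773240)) (b (l 16772016) (l 16775744))) (b (c (l 16776176) (l 16776064)) (l 16775904))) (b (c (l 16775672) (l 16775600)) (a (l 16776024) (b (l 16777320) (a (l 16776696) (c (l 72712455783) (l 73786197671)))))))) (b (b (a (c (l 16773768) (l 16772272)) (b (l 16773232) (a (l 16772672) (l 16774696)))) (c (c (l 16775352) (l 16774984)) (a (b (l 16772648) (c (l 16773784) (l 16773736))) (l 16775304)))) (b (b (a (l 16775568) (c (l 16777488) (c (l 16776976)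 (l 16777288)))) (b (a (l 16775736) (a (l 16776792) (c (l 91502937639) (l 92039808615)))) (a (l 16776280) (a (c (l 63048779351) (l 65733133895)) (l 4))))) (a (a (c (b (l 16778056) (l 149484995495)) (b (l 16778040) (c (l 153779962759) (l 155927446391)))) (b (b (c (l 16777816) (l 16777968)) (l 165591122679)) (l 4))) (l 4))))) (b (a (b (b (a (c (l 16777768) (c (l 16777752) (l 16777408))) (a (b (c (l 16777848) (l 49627006503)) (l 173107315543)) (l 4))) (a (a (b (l 16776912) (l 80765519799)) (c (l 159685542903) (l 159685542871))) (l 4))) (l 4)) (l 4)) (l 4))), by decide +kernel⟩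

def k14_mm_202_t : ∃ t, chk3 f_mm_202_t t 123 35 1 = true :=
  ⟨(b (a (b (a (a (b (b (c (l 16776024) (l 16774600)) (l 16775112)) (b (c (l 16775584) (l 16775536)) (b (l 16777080) (a (l 16776576) (c (l 56069457399) (l 58753811943)))))) (a (b (c (l 16775008) (l 16775592)) (b (c (l 16777944) (l 16777272)) (b (a (l 56606328135) (l 142505674071)) (l 4)))) (b (b (l 16775136) (l 16776896)) (b (b (c (l 16777712) (l 16778032)) (a (l 89892324807) (l 4))) (l 4))))) (a (a (b (b (l 16776512) (b (l 16776688) (a (l 16777704) (l 85060486551)))) (b (b (l 172570444631) (l 4)) (l 4))) (b (b (c (l 16777888) (l 16777216)) (b (a (l 45332038983) (l 129083901271)) (l 4))) (l 4))) (b (b (a (b (c (l 16777664) (l 16777656)) (a (l 78618035639) (l 4))) (b (l 165591122695) (l 4))) (l 4)) (l 4)))) (a (a (b (b (a (b (c (l 16777768) (l 16778080)) (l 158074929831)) (c (l 176865412439) (l 182234121511))) (l 4)) (l 4)) (l 4)) (l 4))) (l 4)) (l 4)), by decide +kernel⟩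

def k15_mm_202_t : ∃ t, chk3 f_mm_202_t t 496 68 1 = true :=
  ⟨(a (b (b (c (l 16767568) (l 16768576)) (c (l 16771152) (c (l 16769664) (l 16769544)))) (b (b (a (l 16771072) (l 16773120)) (b (l 16773616) (l 16774184))) (b (c (l 16774760) (c (l 16775008) (l 16774952))) (b (c (l 16775928) (l 16775848)) (a (l 16776088) (c (l 16776856) (l 16776800))))))) (b (b (c (l 16770336) (c (l 16768832) (l 16768696))) (c (c (l 16772656) (l 16772560)) (c (l 16772464) (l 16771712)))) (b (c (b (l 16774296) (c (l 16775448) (l 16775400))) (b (l 16774168) (c (l 16775352) (l 16775304)))) (b (c (l 16775888) (a (a (l 16774608) (l 16776296)) (b (l 16775264) (a (l 16775648) (l 16776024))))) (b (c (l 16776072) (l 16776040)) (a (l 16776256) (a (l 16776808) (b (l 16777040) (l 73249326007))))))))), by decide +kernel⟩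

def k16_mm_202_t : ∃ t, chk3 f_mm_202_t t 497 68 1 = true :=
  ⟨(b (b (b (c (c (l 16772016) (l 16771912)) (c (l 16771808) (l 16771696))) (a (c (l 16771056) (l 16770856)) (c (l 16773832) (l 16773688)))) (a (c (b (l 16772192) (l 16774632)) (b (l 16773344) (c (l 16774544) (l 16774480)))) (a (c (b (l 16773288) (l 16775736)) (b (l 16773168) (l 16774992))) (b (b (l 16773688) (l 16775576)) (b (l 16775496) (b (l 16775272) (l 16776864))))))) (a (b (c (c (b (l 16775784) (l 16775592)) (b (l 16775408) (l 16775560))) (b (b (l 16775384) (l 16775472)) (c (l 16776192) (l 16775840)))) (b (a (c (l 16776984) (l 16776632)) (a (b (l 16776592) (b (l 16777016) (l 68417487767))) (b (l 16777576) (c (l 108145935623) (l 152169349575))))) (a (a (b (l 16777632) (c (l 114588386519) (l 155927445991))) (b (b (l 16777688) (l 135526351767)) (l 4))) (l 4)))) (b (b (c (c (l 16776584) (l 16776560)) (c (l 16776216) (c (l 16776528) (l 16776192)))) (a (b (l 16776712) (a (l 16776768) (b (l 16776992) (l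 56606327831)))) (a (b (c (l 16776944) (l 16777584)) (b (l 83986744327) (l 4))) (b (b (l 16777648) (l 120493966247)) (l 4))))) (a (a (b (b (b (l 16777672) (l 130157642615)) (l 4)) (l 4)) (l 4)) (l 4))))), by decide +kernel⟩

def k17_mm_202_t : ∃ t, chk3 f_mm_202_t t 249 68 1 = true :=
  ⟨(b (b (a (b (l 14) (b (a (a (l 16773280) (l 14)) (l 14)) (c (a (l 16775592) (l 16776416)) (a (l 16774840) (a (l 16775984) (l 14)))))) (l 14)) (b (a (a (a (c (l 16775416) (c (l 16776016) (l 16775976))) (b (c (l 16775216) (l 16775152)) (c (c (l 16775792) (l 16777080)) (a (l 16775544) (l 16775928))))) (a (c (l 16776568) (c (l 16776216) (l 16776200))) (b (c (l 16777352) (l 16777088)) (a (a (l 16777312) (b (l 16777032) (l 81839260359))) (b (c (l 64659391399) (l 66806875047)) (l 4)))))) (b (b (l 14) (b (l 14) (b (l 14) (l 4)))) (l 4))) (a (b (a (c (l 16776640) (l 16776272)) (a (a (c (l 16776904) (l 16777544)) (b (l 16777616) (l 102777226167))) (c (l 173107315623) (c (l 176865411991) (l 179549766535)))))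 (a (a (l 16776488) (a (l 16776720) (a (l 16777656) (b (l 16777048) (l 88281711335))))) (b (a (a (c (l 72712455031) (l 74859938679)) (l 4)) (l 4)) (l 4)))) (l 4)))) (a (a (b (b (b (a (c (l 16777392) (l 16777216)) (a (b (l 16777632) (l 111367160791)) (c (l 174717928103) (l 179549766295)))) (a (a (a (l 16777672) (b (l 16777064) (l 95797904135))) (b (c (l 80765518663) (l 83449873223)) (l 4))) (l 4))) (l 4)) (l 4)) (l 4)) (l 4))), by decide +kernel⟩

def k18_mm_202_t : ∃ t, chk3 f_mm_202_t t 124 69 1 = true :=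
  ⟨(a (b (a (a (a (b (b (a (l 16775448) (l 16776144)) (b (l 16776480) (a (l 16776856) (b (l 16777080) (l 83986744327))))) (a (b (b (c (l 86134228135) (l 86134228199)) (l 4)) (l 4)) (l 4))) (b (b (c (l 16777032) (l 16776680)) (a (b (l 16777680) (l 163980509751)) (b (b (l 51237618679) (l 104387839575)) (l 4)))) (l 4))) (b (b (b (a (c (l 16777480) (l 16777464)) (a (b (l 16777696) (l 104387839543)) (l 4))) (a (a (b (l 16777056) (l 78081164263)) (c (l 125325804711) (l 159685542407))) (l 4))) (l 4)) (l 4))) (l 4)) (l 4)) (l 4)), by decide +kernel⟩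

def k19_mm_202_t : ∃ t, chk3 f_mm_202_t t 125 34 1 = true :=
  ⟨(l 4), by decide +kernel⟩

def k20_mm_202_t : ∃ t, chk3 f_mm_202_t t 62 35 1 = true :=
  ⟨(l 4), by decide +kernel⟩

def k21_mm_202_t : ∃ t, chk3 f_mm_202_t t 63 17 1 = true :=
  ⟨(l 4), by decide +kernel⟩

def k22_mm_202_t : ∃ t, chk3 f_mm_202_t t 28 18 1 = true :=
  ⟨(b (a (b (c (l 16696288) (l 16694976)) (c (l 16704032) (l 16703008))) (b (a (l 16708496) (c (b (l 16715936) (l 16719952)) (l 16721992))) (a (l 16716520) (a (l 16723216) (l 16727768))))) (a (b (b (l 16719904) (l 16723768)) (c (l 16718968) (l 16729192))) (b (a (l 16734920) (c (l 16733808) (l 16733088))) (a (l 16740104) (c (l 16741600) (l 16741088)))))), by decide +kernel⟩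

def k23_mm_202_t : ∃ t, chk3 f_mm_202_t t 58 18 1 = true :=
  ⟨(b (a (a (b (b (l 16722176) (l 16726288)) (l 16732392)) (b (b (l 16726824) (l 16730952)) (l 16742328))) (c (b (a (l 16744576) (l 16744096)) (l 16751144)) (b (a (l 16743592) (l 16743200)) (a (c (l 16752144) (l 16751728)) (b (l 16744248) (l 16748400)))))) (b (a (c (l 16748328) (l 16747704)) (b (b (l 16754592) (l 16756616)) (a (l 16751960) (l 16762072)))) (a (c (l 16756184) (c (l 16755888) (l 16755632))) (c (b (l 16763800) (l 16767744)) (b (l 16763456) (c (l 16767560) (l 16767408))))))), by decide +kernel⟩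

def k24_mm_202_t : ∃ t, chk3 f_mm_202_t t 59 36 1 = true :=
  ⟨(c (b (b (a (c (l 16754760) (l 16754384)) (a (l 16751520) (l 16759208))) (a (a (l 16745744) (l 16750664)) (a (l 16760904) (b (l 16759696) (l 16767000))))) (b (a (a (l 16749824) (b (l 16753736) (l 16755776))) (b (l 16765216) (b (l 16765440) (l 16766464)))) (a (l 16761600) (a (l 16763840) (c (l 16771600) (l 16771512)))))) (a (a (b (b (l 16740768) (l 16745000)) (b (l 16749200) (l 16758608))) (b (b (l 16745776) (l 16750024)) (b (l 16759472) (c (l 16763760) (l 16763528))))) (a (b (b (l 16750872) (l 16760368)) (b (a (l 16758056) (l 16765872)) (a (l 16767480) (b (l 16763776) (l 16765864))))) (b (b (l 16758672) (a (l 16759000) (l 16764240))) (b (a (l 16765848) (b (l 16764792) (l 16766904))) (c (l 16771408) (l 16771304))))))), by decide +kernel⟩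

def k25_mm_202_t : ∃ t, chk3 f_mm_202_t t 59 37 1 = true :=
  ⟨(a (a (b (b (l 16760336) (c (l 16761912) (l 16761600))) (b (c (l 16765896) (l 16765672)) (c (l 16775096) (l 16772344)))) (b (b (a (l 16761456) (l 16766600)) (c (l 16772128) (l 16769288))) (b (c (l 16773496) (c (l 16773408) (l 16773328))) (b (c (l 16776480) (a (l 16772512) (l 16775072))) (a (l 16775872) (a (b (l 16775960) (l 16778256)) (b (l 57143200855) (l 173107316231)))))))) (b (a (b (b (l 16769392) (b (l 16768304) (l 16771944))) (c (b (l 16770920) (l 16775544)) (b (l 16773400) (l 16774144)))) (b (a (c (l 16774336) (l 16774208)) (b (l 16774536) (b (l 16774760) (l 16777416)))) (b (b (a (l 16774208) (a (l 16776152) (c (l 71638715175) (l 73249327991)))) (a (l 16775224) (a (a (l 16776840) (l 83449874967)) (l 4)))) (a (a (a (l 16775776) (l 16778384)) (b (l 16778832) (l 108682808807))) (c (l 174181059799) (a (l 175791671463) (l 4))))))) (a (b (a (b (l 16776240) (c (l 16778272) (l 16777904))) (a (b (l 16775544)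 (b (l 27078429543) (l 160759284999))) (a (b (l 16778464) (l 179012896711)) (b (b (l 16776648) (l 103314098743)) (l 4))))) (a (b (a (b (l 16776504) (l 79154908391)) (b (l 99556003351) (l 4))) (l 4)) (l 4))) (b (a (a (b (a (b (l 16778536) (l 4)) (l 174717929303)) (l 4)) (l 4)) (l 4)) (l 4))))), by decide +kernel⟩

def k26_mm_202_t : ∃ t, chk3 f_mm_202_t t 28 19 1 = true :=
  ⟨(b (b (a (a (c (l 16721480) (l 16732272)) (l 16741368)) (a (c (l 16740096) (l 16739744)) (c (l 16759808) (l 16754224)))) (b (a (a (l 16748024) (c (l 16757208) (l 16746968))) (a (l 16745720) (a (l 16752632) (l 16757320)))) (a (a (l 16730832) (c (l 16739984) (l 16750680))) (a (a (l 16760160) (l 16751768)) (c (l 16758840) (l 16763968)))))) (a (b (a (l 16736496) (l 16756232)) (a (l 16754464) (c (l 16753256) (l 16763624)))) (a (a (b (l 16752736) (l 16765528)) (b (b (a (l 16754352) (l 16767200)) (l 16759352)) (c (l 16770272) (l 16770192)))) (b (b (b (c (l 16766920) (l 16766872)) (a (a (l 16760032) (l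 16762408)) (l 16771232))) (a (l 16764088) (b (a (l 16766704) (a (l 16773736) (l 16774936))) (l 16769808)))) (a (b (l 16773120) (c (l 16771712) (l 16771664))) (b (c (l 16772672) (l 16775272)) (a (a (l 16774696) (b (l 16774944) (l 27615300679))) (a (b (l 16776152) (l 146263770343)) (b (a (l 16778352) (l 95797906743)) (l 4)))))))))), by decide +kernel⟩

def k27_mm_202_t : ∃ t, chk3 f_mm_202_t t 29 38 1 = true :=
  ⟨(a (a (b (c (b (l 16756792) (l 16765912)) (b (l 16761736) (l 16765688))) (b (c (l 16769784) (c (l 16769672) (l 16769568))) (a (l 16769872) (c (l 16776040) (l 16773344))))) (b (b (a (l 16767824) (c (l 16774104) (l 16771344))) (a (b (l 16766840) (l 16774048)) (c (c (l 16772792) (l 16775384)) (b (l 16771712) (l 16776320))))) (a (b (c (l 16774400) (c (l 16771720) (l 16774296))) (a (c (l 16777048) (l 16776360)) (b (c (l 16778520) (l 16778504)) (a (b (l 16776736) (l 101703486727)) (a (l 157538059655) (l 4)))))) (b (b (a (l 16774456) (a (l 16778928) (b (l 16778360)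 (l 126399548887)))) (b (a (l 16775920) (c (l 152706221847) (l 157001189079))) (a (a (l 16776280) (l 83986746631)) (l 4)))) (a (a (b (b (l 64122522599) (l 174717928983)) (l 4)) (l 4)) (l 4)))))) (a (b (a (a (c (b (l 16772560) (b (l 16775496) (a (l 16779448) (l 140895061271)))) (b (l 16772472) (b (l 16775472) (a (l 20099108055) (l 145190028519))))) (b (b (l 16774032) (a (l 16775392) (b (l 16776152) (l 51774491655)))) (b (a (b (l 16779480) (l 109756550567)) (a (l 167738607239) (l 4))) (l 4)))) (b (a (a (b (l 16778544) (b (l 72175586535) (l 4))) (b (b (l 16776680) (l 93650423159)) (l 4))) (b (c (l 166664866631) (a (l 161296156471) (l 4))) (l 4))) (l 4))) (a (b (a (b (c (l 177939156327) (l 182234123511)) (l 4)) (l 4)) (l 4)) (l 4))) (l 4))), by decide +kernel⟩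

def k28_mm_202_t : ∃ t, chk3 f_mm_202_t t 29 39 1 = true :=
  ⟨(a (a (b (b (b (a (l 16768840) (a (l 16772456) (l 16774888))) (a (l 16776008) (a (l 16774392) (a (l 16778832) (b (l 16776936) (l 118883356087)))))) (a (b (a (l 16776736) (l 16773896)) (a (c (l 16778648) (l 16776008)) (b (l 16777960) (a (l 16775696) (c (l 16779528) (l 23320335175)))))) (a (a (b (l 16775712) (b (l 16778456) (a (l 124252066215) (l 4)))) (b (c (l 16779536) (l 27078429863)) (l 4))) (b (c (l 155927447863) (a (l 150558737735) (l 4))) (l 4))))) (a (b (b (a (l 16775328) (a (a (l 16776832) (l 80228650103)) (l 159148672679))) (a (a (l 16779256) (a (l 88818584711) (l 160759285127))) (l 4))) (a (b (l 174181059463) (l 4)) (l 4))) (l 4))) (b (a (b (a (b (c (b (l 16779456) (l 94187294743)) (a (l 16779320) (l 140358190071))) (c (l 175254801511) (l 179549768695))) (l 4)) (l 4)) (l 4)) (l 4))) (l 4)), by decide +kernel⟩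

def k29_mm_202_t : ∃ t, chk3 f_mm_202_t t 120 36 1 = true :=
  ⟨(b (b (b (c (a (l 16765920) (a (l 16764576) (l 16767208))) (a (l 16765480) (c (l 16768288) (l 16768128)))) (a (a (l 16761264) (l 16766512)) (c (a (l 16766664) (a (l 16768640) (l 16769960))) (a (l 16766384) (a (l 16768408) (l 16769760)))))) (b (a (a (l 16768616) (a (l 16765336) (l 16771896))) (c (l 16772688) (a (l 16771144) (b (l 16773312) (a (l 16771080) (l 16772440)))))) (a (c (a (l 16765616) (a (l 16767560) (l 16768856))) (a (l 16765320) (l 16773216))) (a (l 16772056) (a (l 16772744) (l 16775392)))))) (a (b (b (a (c (l 16772920) (l 16772680)) (l 16772808)) (c (l 16773656) (l 16772840))) (b (a (l 16774336) (a (l 16773688) (l 16776320))) (b (a (l 16773264) (a (l 16775240) (l 16777864))) (a (l 16774296) (a (l 16776264) (a (l 56069458359) (l 136063224471))))))) (b (a (c (b (l 16772888) (l 16774952)) (b (l 16772776) (l 16776200))) (b (a (l 16775816) (c (l 16778144) (c (l 16777472) (l 16777784)))) (b (a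 (l 16777712) (a (a (l 16778496) (l 96871647511)) (l 4))) (a (a (l 23320332599) (l 111904033447)) (l 4))))) (a (a (b (c (l 16778296) (c (l 16777624) (l 16778264))) (a (b (l 86134229703) (l 4)) (l 4))) (b (b (a (l 16776808) (l 78618036807)) (l 166664865207)) (l 4))) (l 4))))), by decide +kernel⟩

def k30_mm_202_t : ∃ t, chk3 f_mm_202_t t 121 36 1 = true :=
  ⟨(b (a (a (b (a (b (c (l 16769192) (l 16768976)) (b (l 16770680) (l 16769112))) (c (l 16774192) (l 16772728))) (b (c (l 16774032) (l 16775264)) (b (c (l 16775592) (l 16776864)) (a (l 16775952) (a (l 16778256) (a (l 81839261879) (l 136600094871))))))) (a (b (c (l 16774216) (a (l 16773752) (l 16774280))) (b (c (l 16777672) (b (l 16775472) (l 16777840))) (b (a (a (l 16778384) (l 77007423687)) (l 168275477575)) (l 4)))) (b (b (l 16774456) (c (l 16775296) (l 16775240))) (b (c (b (l 11509172551) (l 141431931911)) (a (b (l 16776504) (l 89892325607)) (b (l 49627006935) (l 4)))) (l 4))))) (b (b (b (a (c (l 16774696) (l 16774624))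 (c (a (l 16778344) (l 157001188663)) (a (c (l 16778008) (l 16778320)) (c (l 155927446807) (l 158611801335))))) (a (a (l 16775040) (a (l 16776064) (l 16778056))) (a (a (a (l 54995716167) (l 98482260295)) (l 4)) (l 4)))) (a (b (a (l 16776104) (a (a (l 16778256) (l 58753812599)) (c (l 114588387655) (l 153779962727)))) (a (a (l 16778120) (a (l 62511909047) (l 109219678471))) (l 4))) (l 4))) (a (a (a (b (b (l 161296155623) (l 4)) (l 4)) (l 4)) (l 4)) (l 4)))) (a (b (a (b (c (a (b (l 21709719975) (l 155927446759)) (l 176865413607)) (a (b (a (l 16776648) (l 63585650839)) (l 155390575799)) (l 181697251735))) (l 4)) (l 4)) (l 4)) (l 4))), by decide +kernel⟩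

def k31_mm_202_t : ∃ t, chk3 f_mm_202_t t 60 37 1 = true :=
  ⟨(a (b (a (b (a (a (b (l 16775184) (b (l 16778016) (a (l 73249327671) (l 4)))) (b (c (l 16778784) (c (l 16778440) (l 16778592))) (b (l 158074930375) (l 4)))) (a (b (b (a (l 16778264) (l 95797906087)) (l 177402283671)) (l 4)) (l 4))) (l 4)) (l 4)) (l 4)) (l 4)), by decide +kernel⟩

def k32_mm_202_t : ∃ t, chk3 f_mm_202_t t 61 18 1 = true :=
  ⟨(l 4), by decide +kernel⟩

def k33_mm_202_t : ∃ t, chk3 f_mm_202_t t 30 19 1 = true :=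
  ⟨(l 4), by decide +kernel⟩

def k34_mm_202_t : ∃ t, chk3 f_mm_202_t t 31 9 1 = true :=
  ⟨(l 4), by decide +kernel⟩

def k35_mm_202_t : ∃ t, chk3 f_mm_202_t t 12 10 1 = true :=
  ⟨(b (a (b (c (l 16652528) (l 16651728)) (c (l 16664912) (l 16664264))) (b (a (l 16654040) (l 16691544)) (a (l 16688152) (c (l 16684296) (l 16684128))))) (a (a (b (l 16648288) (l 16661120)) (b (l 16663960) (l 16698208))) (b (a (l 16701488) (c (l 16718984) (l 16708304))) (a (a (l 16689944) (l 16719680)) (b (l 16719080) (l 16728992)))))), by decide +kernel⟩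

def k36_mm_202_t : ∃ t, chk3 f_mm_202_t t 13 20 1 = true :=
  ⟨(a (b (a (c (l 16687768) (l 16687792)) (a (l 16721712) (l 16720096))) (a (c (l 16722640) (l 16711968)) (c (c (l 16740480) (l 16729952)) (b (l 16715672) (l 16733328))))) (b (b (a (l 16729968) (c (l 16748104) (l 16747904))) (a (c (l 16726712) (l 16736968)) (a (l 16750792) (l 16760032)))) (b (a (c (l 16744512) (l 16744240)) (a (l 16758216) (c (l 16767616) (l 16762184)))) (a (a (l 16747168) (l 16756408)) (a (c (l 16765816) (l 16760368)) (c (c (l 16769984) (l 16772568)) (b (l 16767912) (l 16771768)))))))), by decide +kernel⟩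

def k37_mm_202_t : ∃ t, chk3 f_mm_202_t t 26 21 1 = true :=
  ⟨(b (b (a (l 16722704) (c (l 16740880) (l 16740640))) (a (c (l 16719456) (l 16729768)) (a (l 16743600) (l 16750216)))) (a (b (c (l 16747792) (l 16737128)) (c (l 16744792) (l 16744616))) (b (a (l 16751088) (c (l 16749984) (l 16755032))) (a (c (l 16748256) (l 16753312)) (c (l 16768136) (b (l 16755560) (l 16764688))))))), by decide +kernel⟩

def k38_mm_202_t : ∃ t, chk3 f_mm_202_t t 54 21 1 = true :=
  ⟨(b (b (a (l 16754616) (c (l 16764024) (l 16758568))) (a (a (l 16759816) (l 16759264)) (c (l 16769016) (b (l 16759072) (l 16768176))))) (a (b (c (l 16764632) (b (l 16757296) (l 16766416))) (b (c (l 16770416) (l 16770304)) (a (l 16771888) (c (l 16771432) (l 16774000))))) (b (b (a (l 16764504) (l 16774496)) (a (l 16773624) (b (l 16777416) (c (l 16774144) (l 16774104))))) (a (b (c (l 16772296) (l 16773560)) (a (c (l 16777632) (b (l 16774000) (l 16778600))) (b (a (l 16775816) (a (l 16776712) (l 81839262855))) (c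 (l 152169350647) (a (l 107609065991) (l 4)))))) (b (b (a (l 16774888) (c (a (l 16776688) (l 110830292679)) (a (l 16777984) (l 146263769863)))) (a (a (l 16776248) (a (l 36742106151) (l 110293421559))) (l 184918477511))) (a (b (c (l 167201736839) (l 170959833127)) (l 4)) (l 4))))))), by decide +kernel⟩

def k39_mm_202_t : ∃ t, chk3 f_mm_202_t t 55 21 1 = true :=
  ⟨(b (a (b (c (l 16770792) (b (l 16766104) (l 16769960))) (a (b (l 16771512) (l 16774072)) (a (b (l 16769832) (l 16775680)) (b (l 16774840) (b (l 16775136) (a (l 16779104) (a (l 83986746615) (l 155927446519)))))))) (b (a (b (l 16773296) (c (l 16771944) (l 16774504))) (b (c (l 16772840) (l 16775416)) (b (a (l 16774528) (a (l 16776328) (a (l 71638715495) (l 111904034295)))) (a (a (l 16775872) (a (l 16778080) (l 81839262967))) (c (l 166127995191) (l 169886091479)))))) (a (b (a (c (l 16774616) (l 16777208)) (b (c (l 16776032) (l 16778632)) (c (l 135526351767) (a (l 81839261895) (l 179012896567))))) (a (b (a (a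 (l 16776624) (l 73249328231)) (l 153779962407)) (l 4)) (l 4))) (b (a (b (c (l 150558738039) (a (l 140895060679) (l 4))) (l 4)) (l 4)) (l 4))))) (a (b (a (a (b (l 16775456) (b (l 16778384) (a (a (l 16778128) (l 87207972151)) (l 164517381575)))) (b (c (l 16779160) (c (l 16779144) (b (l 16774216) (l 16778800)))) (b (c (l 142505673895) (a (l 95261034663) (l 187602831383))) (l 4)))) (b (a (a (b (l 16776040) (c (l 117272743655) (l 151095608263))) (b (c (l 16778776) (l 75396810823)) (l 4))) (b (c (l 173644188167) (l 177939155351)) (l 4))) (l 4))) (l 4)) (l 4))), by decide +kernel⟩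

def k40_mm_202_t : ∃ t, chk3 f_mm_202_t t 12 22 1 = true :=
  ⟨(a (b (a (l 16695728) (l 16713552)) (b (c (l 16714792) (l 16720048)) (a (l 16718888) (c (l 16730488) (l 16730616))))) (b (a (c (l 16729656) (l 16724480)) (b (c (l 16723240) (l 16733696)) (c (l 16741248) (l 16741240)))) (a (b (l 16735608) (c (l 16748272) (l 16737968))) (a (b (l 16733744) (l 16751912)) (b (l 16753640) (c (l 16750880) (l 16761360))))))), by decide +kernel⟩

def k41_mm_202_t : ∃ t, chk3 f_mm_202_t t 12 23 1 = true :=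
  ⟨(a (b (a (b (l 16721248) (l 16729016)) (b (b (l 16736168) (l 16740048)) (c (l 16745784) (l 16745936)))) (a (b (l 16731616) (l 16738208)) (b (c (l 16753808) (l 16743312)) (c (l 16761856) (l 16753888))))) (a (c (b (a (b (l 16751320) (l 16738232)) (b (l 16750088) (l 16758008))) (b (a (l 16746280) (l 16766080)) (a (l 16764872) (c (l 16774192) (l 16774216))))) (b (b (a (l 16741048) (l 16750264)) (b (c (l 16751512) (l 16751488)) (l 16755464))) (b (a (l 16746312) (l 16766112)) (a (l 16764832) (a (l 16771824) (l 16773944)))))) (b (a (b (l 16757080) (b (c (l 16765552) (l 16763008)) (c (l 16759088) (l 16769624)))) (c (b (l 16769232) (b (l 16775200) (b (l 16775592) (l 16773688)))) (b (l 16764000) (b (c (l 16775232) (l 16769960)) (a (l 16771584) (b (l 16770152) (l 16772168))))))) (b (a (b (c (l 16773616) (l 16773640)) (c (l 16772432) (l 16772440))) (a (a (b (l 16774424) (l 16775856)) (b (l 16776832) (c (l 16779600) (c (l 16780904) (l 16779584))))) (a (b (c (l 16774000) (l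 16774000)) (b (c (l 16779672) (l 38889591719)) (l 174181058759))) (b (b (l 16775400) (a (l 16779456) (l 119420229143))) (l 4))))) (a (b (a (l 16774096) (c (l 16778928) (a (l 16772464) (l 16780128)))) (b (a (l 16771912) (a (l 16775536) (c (l 110293423735) (l 106535327511)))) (a (l 16773952) (a (c (l 96334779783) (l 92576683479)) (l 4))))) (a (b (a (b (l 16779576) (a (l 105998456183) (l 4))) (b (l 161833027271) (l 4))) (l 4)) (l 4))))))), by decide +kernel⟩

def k42_mm_202_t : ∃ t, chk3 f_mm_202_t t 26 22 1 = true :=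
  ⟨(a (b (b (a (l 16747672) (c (l 16746552) (l 16756888))) (a (l 16755328) (c (l 16764760) (l 16759408)))) (b (a (c (l 16752584) (l 16763008)) (c (l 16772568) (b (l 16760040) (l 16769232)))) (b (a (l 16763704) (a (l 16765592) (l 16775608))) (a (l 16768952) (a (l 16774800) (a (l 16773144) (a (l 16774944) (b (l 16775144) (l 39426461351))))))))) (b (a (b (b (l 16759216) (l 16764408)) (c (c (l 16774224) (l 16768976)) (b (l 16766928) (l 16770872)))) (b (a (c (l 16773520) (l 16768168)) (b (l 16771040) (l 16773648))) (a (b (l 16774128) (c (l 16772840) (l 16774112))) (b (c (l 16776288) (b (l 16772648) (l 16777248))) (b (a (l 16775424) (c (l 102240359159) (a (l 78618037639) (l 174717928951)))) (a (c (l 85060487159) (a (l 16779416) (l 154316833687))) (l 4))))))) (a (a (b (b (l 16772472) (c (l 16771192) (l 16771152))) (a (b (l 16776576) (b (a (l 16776344) (l 89892326151)) (l 168275478663))) (b (b (l 16775352) (a (l 16779368) (l 115125260631))) (b (l 188139702951) (l 4))))) (b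 (b (c (l 16772008) (l 16771976)) (c (a (l 16774776) (b (l 16776176) (l 144653157447))) (a (l 16777376) (b (l 16778784) (l 147337509303))))) (b (a (b (c (l 97408520983) (a (l 16779080) (l 168812348791))) (l 4)) (l 4)) (l 4)))) (b (a (b (a (a (l 16777608) (b (l 16775192) (a (l 16776880) (l 94187294071)))) (a (b (l 16776392) (l 168812348887)) (b (c (l 97945390599) (l 98482261783)) (l 4)))) (a (b (c (l 159148672711) (l 162369898087)) (l 4)) (l 4))) (b (a (b (l 190824057639) (l 4)) (l 4)) (l 4))) (l 4))))), by decide +kernel⟩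

def k43_mm_202_t : ∃ t, chk3 f_mm_202_t t 27 22 1 = true :=
  ⟨(b (a (a (b (a (b (l 16774160) (a (l 16774608) (a (l 16777056) (b (l 16775304) (a (l 16778616) (l 102777228503)))))) (a (b (c (l 16774152) (l 16774128)) (b (c (l 71638714023) (b (l 16779224) (l 96871647735))) (l 179012897191))) (b (b (l 16778176) (a (a (l 16776632) (l 77007424599)) (l 156464317575))) (l 4)))) (a (b (a (b (c (l 16776264) (l 3992980727)) (c (l 148411253991) (a (l 102777228839) (l 4)))) (b (c (l 162906769271) (l 166664865559)) (l 4))) (l 4)) (l 4))) (b (a (b (a (b (c (l 137136964423) (a (l 84523615095) (l 180623509207))) (l 4)) (l 4)) (l 4)) (l 4)) (l 4))) (l 4)) (l 4)), by decide +kernel⟩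

def k44_mm_202_t : ∃ t, chk3 f_mm_202_t t 13 23 1 = true :=
  ⟨(a (a (b (a (a (b (c (l 16765944) (l 16771176)) (b (l 16774576) (b (c (l 16774976) (l 16777600)) (a (b (l 16775288) (l 16778920)) (b (l 100629745735) (l 172033574695)))))) (b (b (l 16768752) (l 16775368)) (b (a (c (l 16775576) (b (l 16774552) (l 16779192))) (b (c (l 16776968) (l 34057752711)) (l 171496704119))) (a (b (l 157538059863) (l 4)) (l 4))))) (b (a (b (c (l 16773544) (l 16776152)) (a (a (l 16779688) (b (l 16775944) (l 112977776967))) (b (c (l 94724166391) (l 94724166631)) (l 4)))) (b (a (b (l 16778768) (c (l 110293423127) (l 142505673671))) (b (c (l 153779963511) (l 156464317975)) (l 4))) (l 4))) (a (b (b (l 188139704439) (l 4)) (l 4)) (l 4)))) (b (a (b (a (a (b (c (l 100092876375) (l 100092876487)) (l 4)) (l 4)) (l 4)) (l 4)) (l 4)) (l 4))) (l 4)) (l 4)), by decide +kernel⟩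

def k45_mm_202_t : ∃ t, chk3 f_mm_202_t t 56 20 1 = true :=
  ⟨(b (b (a (l 16759256) (b (l 16764120) (l 16769208))) (a (c (l 16769448) (l 16766656)) (b (c (l 16771736) (l 16771632)) (a (l 16773128) (c (l 16772680) (l 16775256)))))) (b (a (a (c (l 16764176) (l 16769280)) (b (l 16772200) (l 16774728))) (a (b (c (l 16771744) (l 16774304)) (a (c (l 16774392) (l 16774360)) (b (l 16778432) (a (a (l 16778152) (l 83986746439)) (l 159685543495))))) (b (a (b (l 16774352) (c (l 16778904) (l 11509173431))) (a (b (l 16776152) (l 145726899383)) (b (a (l 16778680) (l 95797906695)) (l 4)))) (a (b (c (l 138210706791) (a (l 89355456103) (l 4))) (l 4)) (l 4))))) (a (a (b (l 16775112) (a (l 16775152) (b (l 16773960) (l 16778840)))) (b (b (l 16776304) (a (l 16774416) (a (l 16776216) (a (l 39963331399) (l 102240357735))))) (a (b (c (l 16778976) (c (l 16778968) (l 10972302423))) (c (l 143579416007) (a (l 97408519735) (l 4)))) (b (c (l 159148673191) (l 162906769479)) (l 4))))) (a (b (a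 (b (a (l 20635978695) (a (l 92039810343) (l 163443639639))) (l 177402284855)) (l 4)) (l 4)) (l 4))))), by decide +kernel⟩

def k46_mm_202_t : ∃ t, chk3 f_mm_202_t t 57 20 1 = true :=
  ⟨(b (a (b (a (c (l 16773136) (l 16772728)) (b (l 16774664) (a (l 16775984) (a (l 16777784) (b (l 16775408) (a (l 16778328) (l 95261035767))))))) (a (b (c (l 16777552) (a (l 16772376) (l 16777408))) (a (b (l 16775296) (a (l 16778584) (a (l 86671101143) (l 158611801383)))) (b (a (a (l 16776792) (l 79691779079)) (l 157001188903)) (l 4)))) (b (a (b (c (l 16778872) (l 16778856)) (c (l 137136964935) (a (l 87744843159) (l 181697251543)))) (b (c (l 154316834903) (l 158074931207)) (l 4))) (l 4)))) (b (a (a (b (c (l 16774336) (l 16774312)) (b (a (l 16779224) (a (l 86671101143) (l 159685543207))) (l 173107317543))) (b (b (l 16778392) (a (a (l 16776792) (l 79154908183)) (l 158074930759))) (l 4))) (b (a (b (c (l 138210706807) (a (l 89892326679) (l 4))) (l 4)) (l 4)) (l 4))) (l 4))) (a (b (a (b (a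 (b (l 173107317511) (l 4)) (l 4)) (l 4)) (l 4)) (l 4)) (l 4))), by decide +kernel⟩

def k47_mm_202_t : ∃ t, chk3 f_mm_202_t t 28 21 1 = true :=
  ⟨(a (b (a (b (a (b (b (a (l 16775440) (c (l 128010158807) (a (l 71101843527) (l 169349219991)))) (a (c (b (l 16779512) (l 104924712647)) (a (l 16778736) (l 147337511895))) (l 4))) (a (b (l 181697252263) (l 4)) (l 4))) (l 4)) (l 4)) (l 4)) (l 4)) (l 4)), by decide +kernel⟩

def k48_mm_202_t : ∃ t, chk3 f_mm_202_t t 29 10 1 = true :=
  ⟨(l 4), by decide +kernel⟩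

def k49_mm_202_t : ∃ t, chk3 f_mm_202_t t 15 10 1 = true :=
  ⟨(l 4), by decide +kernel⟩

def k50_mm_202_t : ∃ t, chk3 f_mm_202_t t 7 11 1 = true :=
  ⟨(l 4), by decide +kernel⟩

def k51_mm_202_t : ∃ t, chk3 f_mm_202_t t 4 6 1 = true :=
  ⟨(b (a (b (l 6) (b (l 6) (a (l 6) (l 16655592)))) (a (b (l 16633072) (l 16661984)) (b (l 16687944) (l 16717240)))) (b (a (a (b (l 6) (l 16667184)) (l 16695544)) (b (l 16709912) (l 16764208))) (b (a (a (l 16677936) (l 16691504)) (a (l 16705496) (l 16719472))) (l 2)))), by decide +kernel⟩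

def k52_mm_202_t : ∃ t, chk3 f_mm_202_t t 5 12 1 = true :=
  ⟨(a (b (a (b (l 16651712) (l 16666856)) (b (l 16687712) (l 16702864))) (a (b (l 16681560) (l 16695720)) (b (l 16738584) (a (l 16706648) (l 16736320))))) (b (a (b (c (l 16708392) (l 16727544)) (b (l 16739936) (l 16736968))) (a (b (b (l 16701336) (l 16709072)) (b (l 16716736) (l 16724328))) (b (b (l 16736776) (l 16744576)) (b (c (l 16731624) (l 16731024)) (c (l 16760256) (l 16759680)))))) (a (b (a (l 16732000) (b (l 16718752) (l 16747072))) (a (l 16746344) (c (l 16758512) (l 16757208)))) (b (b (a (l 16731832) (c (l 16767824) (l 16756808))) (a (l 16760208) (c (l 16764784) (l 16766960)))) (b (a (l 16765864) (a (l 16768032) (c (l 16776032) (l 16775792)))) (a (c (l 16775008) (l 16774336)) (a (c (l 16775424) (l 16775112)) (b (l 16776144) (a (l 16772488) (b (l 16775680) (l 75396817015))))))))))), by decide +kernel⟩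

def k53_mm_202_t : ∃ t, chk3 f_mm_202_t t 5 13 1 = true :=
  ⟨(a (b (a (b (l 16709192) (l 16763736)) (b (a (l 16720200) (l 16728960)) (a (l 16753880) (l 16762720)))) (b (a (l 16775344) (b (l 16776296) (c (l 16773552) (l 16771992)))) (b (a (l 16741384) (a (l 16752728) (l 16782712))) (l 2)))) (b (a (b (b (a (l 16756696) (l 16747312)) (a (l 16742384) (l 16775016))) (a (c (l 16773600) (l 16772328)) (b (l 16776296) (c (l 16777600) (l 16777128))))) (b (b (b (a (l 16769440) (a (l 16770112) (a (c (l 16781368) (l 29762789223)) (l 161296150391)))) (a (l 16772896) (a (a (l 16771672) (l 26004693719)) (a (a (l 103850976807) (l 4)) (l 4))))) (a (a (l 16774440) (c (l 16771256) (l 16781544))) (a (a (b (l 16775144) (l 93650432423)) (b (a (l 92576687479) (l 4)) (l 4))) (l 4)))) (a (a (b (l 16781040) (a (b (l 16773608) (l 54458854007)) (b (l 59827563655) (l 157538058039)))) (b (a (b (l 16774304) (l 74859949655)) (b (l 83986755719) (l 4))) (l 4))) (l 4)))) (a (b (a (b (l 16771520) (l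 16782472)) (b (a (l 16780256) (a (b (l 16773032) (l 16776040)) (b (l 16781640) (l 112977785239)))) (a (c (l 50700765463) (b (l 16774064) (l 61975049511))) (c (l 142505672471) (l 146263761767))))) (b (b (a (l 16781336) (a (l 107609081831) (l 4))) (a (a (l 16770736) (l 59827568727)) (l 4))) (a (b (a (l 16773304) (l 90966084327)) (l 2)) (l 4)))) (b (a (a (b (b (l 153779961367) (l 4)) (l 4)) (l 4)) (l 4)) (l 4))))), by decide +kernel⟩

def k54_mm_202_t : ∃ t, chk3 f_mm_202_t t 2 7 1 = true :=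
  ⟨(a (l 2) (a (l 2) (a (l 2) (l 4)))), by decide +kernel⟩

def k55_mm_202_t : ∃ t, chk3 f_mm_202_t t 12 24 1 = true :=
  ⟨(a (b (a (b (c (l 16752808) (l 16752488)) (c (l 16760704) (l 16760384))) (a (b (l 16754960) (c (l 16752496) (l 16762808))) (b (c (l 16763864) (l 16763752)) (c (l 16771872) (l 16770464))))) (a (a (b (l 16753744) (l 16761480)) (b (l 16760816) (a (l 16767776) (l 16769448)))) (b (a (c (l 16770880) (l 16770736)) (b (c (l 16777840) (l 16777768)) (a (l 16774256) (a (l 16772432) (l 16779976))))) (a (b (l 16774088) (a (l 16767904) (l 16777600))) (a (b (l 16775576) (a (c (l 16781016) (l 16779680)) (b (l 41573946951) (l 170422962071)))) (b (a (b (l 16775400) (l 88818587607)) (b (l 100629747975) (l 4))) (a (l 178476027223) (l 4)))))))) (b (a (b (b (a (l 16768328) (a (l 16772712) (c (l 16772216) (l 16772200)))) (a (c (l 16764520) (l 16774952)) (a (c (l 16771536) (l 16771512)) (a (c (l 16775104) (l 16780336)) (b (l 22246593847) (l 157001188727)))))) (a (b (c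 (l 16773792) (l 16771456)) (a (l 16775464) (a (l 16773720) (c (l 21172852887) (b (l 16775056) (l 41037075255)))))) (a (a (b (l 16778328) (b (c (l 93650424967) (l 88818586839)) (l 4))) (b (b (l 16775760) (a (l 16779768) (l 139821323703))) (l 4))) (b (a (b (c (l 119420229319) (l 115662133015)) (l 4)) (l 4)) (l 4))))) (b (a (a (b (a (c (l 16779768) (b (l 16774784) (l 16779456))) (b (c (l 16779760) (l 79154910311)) (l 181697251671))) (a (b (l 169349220215) (l 4)) (l 4))) (l 4)) (l 4)) (l 4))) (a (a (b (a (b (c (l 16779488) (c (l 16779472) (l 16779456))) (a (b (l 16776064) (l 112977779287)) (b (l 126399552087) (l 4)))) (b (a (b (l 30836528455) (l 163980510839)) (b (l 176328542263) (l 4))) (l 4))) (l 4)) (l 4)) (l 4)))), by decide +kernel⟩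

def k56_mm_202_t : ∃ t, chk3 f_mm_202_t t 12 25 1 = true :=
  ⟨(a (b (a (b (a (c (l 16779760) (l 16769000)) (b (l 16775712) (a (l 16766896) (l 16771224)))) (a (b (l 16774824) (l 16773336)) (a (b (l 16770704) (c (l 16774520) (l 16774472))) (b (c (l 16780336) (c (l 16780304) (l 16780280))) (a (b (l 16776816) (l 130694519015)) (l 170422962199)))))) (b (a (a (b (l 16771776) (a (l 16774528) (b (l 16775792) (l 99019134967)))) (b (a (l 16780368) (b (l 16776416) (l 122641455447))) (a (b (l 110293424343) (l 4)) (l 4)))) (a (b (b (l 167201737447) (l 4)) (l 4)) (l 4))) (a (a (b (a (b (l 87744845463) (l 4)) (l 4)) (l 4)) (l 4)) (l 4)))) (a (b (a (b (a (l 16769728) (l 16779192)) (a (l 16773424) (b (a (l 16775664) (l 99556005799)) (l 136063222359)))) (a (b (a (a (l 34594626119) (l 94187296183)) (l 154316834135)) (l 4)) (l 4))) (a (a (b (b (l 16780144) (l 96871651143)) (l 173107316199)) (l 4)) (l 4))) (l 4))) (l 4)), by decide +kernel⟩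

def k57_mm_202_t : ∃ t, chk3 f_mm_202_t t 12 13 1 = true :=
  ⟨(l 4), by decide +kernel⟩

def k58_mm_202_t : ∃ t, chk3 f_mm_202_t t 13 6 1 = true :=
  ⟨(l 4), by decide +kernel⟩

def k59_mm_202_t : ∃ t, chk3 f_mm_202_t t 7 6 1 = true :=
  ⟨(l 4), by decide +kernel⟩

def k60_mm_202_t : ∃ t, chk3 f_mm_202_t t 3 7 1 = true :=
  ⟨(l 4), by decide +kernel⟩

theorem s61_mm_202_t : ∃ t, chk3 f_mm_202_t t 12 12 1 = true := ex3_b k55_mm_202_t k56_mm_202_t

theorem s62_mm_202_t : ∃ t, chk3 f_mm_202_t t 12 6 1 = true := ex3_b s61_mm_202_t k57_mm_202_t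

theorem s63_mm_202_t : ∃ t, chk3 f_mm_202_t t 6 6 1 = true := ex3_a s62_mm_202_t k58_mm_202_t

theorem s64_mm_202_t : ∃ t, chk3 f_mm_202_t t 3 6 1 = true := ex3_a s63_mm_202_t k59_mm_202_t

theorem s65_mm_202_t : ∃ t, chk3 f_mm_202_t t 3 3 1 = true := ex3_b s64_mm_202_t k60_mm_202_t

theorem s66_mm_202_t : ∃ t, chk3 f_mm_202_t t 5 6 1 = true := ex3_b k52_mm_202_t k53_mm_202_t

theorem s67_mm_202_t : ∃ t, chk3 f_mm_202_t t 2 6 1 = true := ex3_a k51_mm_202_t s66_mm_202_t

theorem s68_mm_202_t : ∃ t, chk3 f_mm_202_t t 2 3 1 = true := ex3_b s67_mm_202_t k54_mm_202_t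

theorem s69_mm_202_t : ∃ t, chk3 f_mm_202_t t 1 3 1 = true := ex3_a s68_mm_202_t s65_mm_202_t

theorem s70_mm_202_t : ∃ t, chk3 f_mm_202_t t 28 20 1 = true := ex3_a k45_mm_202_t k46_mm_202_t

theorem s71_mm_202_t : ∃ t, chk3 f_mm_202_t t 28 10 1 = true := ex3_b s70_mm_202_t k47_mm_202_t

theorem s72_mm_202_t : ∃ t, chk3 f_mm_202_t t 14 10 1 = true := ex3_a s71_mm_202_t k48_mm_202_t

theorem s73_mm_202_t : ∃ t, chk3 f_mm_202_t t 7 10 1 = true := ex3_a s72_mm_202_t k49_mm_202_t

theorem s74_mm_202_t : ∃ t, chk3 f_mm_202_t t 7 5 1 = true := ex3_b s73_mm_202_t k50_mm_202_t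

theorem s75_mm_202_t : ∃ t, chk3 f_mm_202_t t 13 22 1 = true := ex3_a k42_mm_202_t k43_mm_202_t

theorem s76_mm_202_t : ∃ t, chk3 f_mm_202_t t 13 11 1 = true := ex3_b s75_mm_202_t k44_mm_202_t

theorem s77_mm_202_t : ∃ t, chk3 f_mm_202_t t 12 11 1 = true := ex3_b k40_mm_202_t k41_mm_202_t

theorem s78_mm_202_t : ∃ t, chk3 f_mm_202_t t 6 11 1 = true := ex3_a s77_mm_202_t s76_mm_202_t

theorem s79_mm_202_t : ∃ t, chk3 f_mm_202_t t 27 21 1 = true := ex3_a k38_mm_202_t k39_mm_202_t

theorem s80_mm_202_t : ∃ t, chk3 f_mm_202_t t 13 21 1 = true := ex3_a k37_mm_202_t s79_mm_202_t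

theorem s81_mm_202_t : ∃ t, chk3 f_mm_202_t t 13 10 1 = true := ex3_b k36_mm_202_t s80_mm_202_t

theorem s82_mm_202_t : ∃ t, chk3 f_mm_202_t t 6 10 1 = true := ex3_a k35_mm_202_t s81_mm_202_t

theorem s83_mm_202_t : ∃ t, chk3 f_mm_202_t t 6 5 1 = true := ex3_b s82_mm_202_t s78_mm_202_t

theorem s84_mm_202_t : ∃ t, chk3 f_mm_202_t t 3 5 1 = true := ex3_a s83_mm_202_t s74_mm_202_t

theorem s85_mm_202_t : ∃ t, chk3 f_mm_202_t t 60 36 1 = true := ex3_a k29_mm_202_t k30_mm_202_t

theorem s86_mm_202_t : ∃ t, chk3 f_mm_202_t t 60 18 1 = true := ex3_b s85_mm_202_t k31_mm_202_t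

theorem s87_mm_202_t : ∃ t, chk3 f_mm_202_t t 30 18 1 = true := ex3_a s86_mm_202_t k32_mm_202_t

theorem s88_mm_202_t : ∃ t, chk3 f_mm_202_t t 30 9 1 = true := ex3_b s87_mm_202_t k33_mm_202_t

theorem s89_mm_202_t : ∃ t, chk3 f_mm_202_t t 15 9 1 = true := ex3_a s88_mm_202_t k34_mm_202_t

theorem s90_mm_202_t : ∃ t, chk3 f_mm_202_t t 29 19 1 = true := ex3_b k27_mm_202_t k28_mm_202_t

theorem s91_mm_202_t : ∃ t, chk3 f_mm_202_t t 14 19 1 = true := ex3_a k26_mm_202_t s90_mm_202_t

theorem s92_mm_202_t : ∃ t, chk3 f_mm_202_t t 59 18 1 = true := ex3_b k24_mm_202_t k25_mm_202_t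

theorem s93_mm_202_t : ∃ t, chk3 f_mm_202_t t 29 18 1 = true := ex3_a k23_mm_202_t s92_mm_202_t

theorem s94_mm_202_t : ∃ t, chk3 f_mm_202_t t 14 18 1 = true := ex3_a k22_mm_202_t s93_mm_202_t

theorem s95_mm_202_t : ∃ t, chk3 f_mm_202_t t 14 9 1 = true := ex3_b s94_mm_202_t s91_mm_202_t

theorem s96_mm_202_t : ∃ t, chk3 f_mm_202_t t 7 9 1 = true := ex3_a s95_mm_202_t s89_mm_202_t

theorem s97_mm_202_t : ∃ t, chk3 f_mm_202_t t 248 68 1 = true := ex3_a k15_mm_202_t k16_mm_202_t

theorem s98_mm_202_t : ∃ t, chk3 f_mm_202_t t 124 68 1 = true := ex3_a s97_mm_202_t k17_mm_202_t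

theorem s99_mm_202_t : ∃ t, chk3 f_mm_202_t t 124 34 1 = true := ex3_b s98_mm_202_t k18_mm_202_t

theorem s100_mm_202_t : ∃ t, chk3 f_mm_202_t t 62 34 1 = true := ex3_a s99_mm_202_t k19_mm_202_t

theorem s101_mm_202_t : ∃ t, chk3 f_mm_202_t t 62 17 1 = true := ex3_b s100_mm_202_t k20_mm_202_t

theorem s102_mm_202_t : ∃ t, chk3 f_mm_202_t t 31 17 1 = true := ex3_a s101_mm_202_t k21_mm_202_t

theorem s103_mm_202_t : ∃ t, chk3 f_mm_202_t t 122 35 1 = true := ex3_a k12_mm_202_t k13_mm_202_t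

theorem s104_mm_202_t : ∃ t, chk3 f_mm_202_t t 61 35 1 = true := ex3_a s103_mm_202_t k14_mm_202_t

theorem s105_mm_202_t : ∃ t, chk3 f_mm_202_t t 30 35 1 = true := ex3_a k11_mm_202_t s104_mm_202_t

theorem s106_mm_202_t : ∃ t, chk3 f_mm_202_t t 123 69 1 = true := ex3_a k9_mm_202_t k10_mm_202_t

theorem s107_mm_202_t : ∃ t, chk3 f_mm_202_t t 61 69 1 = true := ex3_a k8_mm_202_t s106_mm_202_t

theorem s108_mm_202_t : ∃ t, chk3 f_mm_202_t t 61 34 1 = true := ex3_b k7_mm_202_t s107_mm_202_t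

theorem s109_mm_202_t : ∃ t, chk3 f_mm_202_t t 30 34 1 = true := ex3_a k6_mm_202_t s108_mm_202_t

theorem s110_mm_202_t : ∃ t, chk3 f_mm_202_t t 30 17 1 = true := ex3_b s109_mm_202_t s105_mm_202_t

theorem s111_mm_202_t : ∃ t, chk3 f_mm_202_t t 15 17 1 = true := ex3_a s110_mm_202_t s102_mm_202_t

theorem s112_mm_202_t : ∃ t, chk3 f_mm_202_t t 15 8 1 = true := ex3_b k5_mm_202_t s111_mm_202_t

theorem s113_mm_202_t : ∃ t, chk3 f_mm_202_t t 14 8 1 = true := ex3_b k3_mm_202_t k4_mm_202_t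

theorem s114_mm_202_t : ∃ t, chk3 f_mm_202_t t 7 8 1 = true := ex3_a s113_mm_202_t s112_mm_202_t

theorem s115_mm_202_t : ∃ t, chk3 f_mm_202_t t 7 4 1 = true := ex3_b s114_mm_202_t s96_mm_202_t

theorem s116_mm_202_t : ∃ t, chk3 f_mm_202_t t 6 4 1 = true := ex3_b k1_mm_202_t k2_mm_202_t

theorem s117_mm_202_t : ∃ t, chk3 f_mm_202_t t 3 4 1 = true := ex3_a s116_mm_202_t s115_mm_202_t

theorem s118_mm_202_t : ∃ t, chk3 f_mm_202_t t 3 2 1 = true := ex3_b s117_mm_202_t s84_mm_202_t

theorem s119_mm_202_t : ∃ t, chk3 f_mm_202_t t 1 2 1 = true := ex3_a k0_mm_202_t s118_mm_202_t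

theorem s120_mm_202_t : ∃ t, chk3 f_mm_202_t t 1 1 1 = true := ex3_b s119_mm_202_t s69_mm_202_t

theorem c_mm_202_t : CertNE 0 536870912 0 536870912 649613803 48318383 3 eng mog cd0q2 cd0q0 pd2 true false false .pp 2 0 2
    ndB0q2 ndB0q0 pcB2 cut_mm_202_t Ext.none :=
  certNE0 (fam := true) (s1 := false) (s2 := false) (a := 2) (b := 0) (c := 2) (cn := .pp) (n1 := ndB0q2) (n2 := ndB0q0) (pc := pcB2) (cut := cut_mm_202_t) (xt := Ext.none) (P1 := 0) (W1 := 536870912) (P2 := 0) (W2 := 536870912) (P3 := 649613803) (W3 := 48318383) (N0 := 3) (En := eng) (mo := mog) (C1 := cd0q2) (C2 := cd0q0) (C3 := pd2)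
    rfl s120_mm_202_t

noncomputable def cut_mm_203_s : Cut := Cut.of [[⟨4, 0, 0, 1449551462⟩]]

noncomputable def f_mm_203_s : ℕ → ℕ → ℕ → ℕ → Bool := onCell 0 536870912 0 536870912 649613803 48318383
    (rowNE 3 eng mog cd0q2 cd0q0 pd3 0 true false false .up 2 0 3 (qsf 0 536870912 0 536870912 3) ndB0q2 ndB0q0 pcB3 cut_mm_203_s Ext.none)

def k0_mm_203_s : ∃ t, chk3 f_mm_203_s t 1 1 1 = true :=
  ⟨(l 6), by decide +kernel⟩

theorem c_mm_203_s : CertNE 0 536870912 0 536870912 649613803 48318383 3 eng mog cd0q2 cd0q0 pd3 true false false .up 2 0 3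
    ndB0q2 ndB0q0 pcB3 cut_mm_203_s Ext.none :=
  certNE0 (fam := true) (s1 := false) (s2 := false) (a := 2) (b := 0) (c := 3) (cn := .up) (n1 := ndB0q2) (n2 := ndB0q0) (pc := pcB3) (cut := cut_mm_203_s) (xt := Ext.none) (P1 := 0) (W1 := 536870912) (P2 := 0) (W2 := 536870912) (P3 := 649613803) (W3 := 48318383) (N0 := 3) (En := eng) (mo := mog) (C1 := cd0q2) (C2 := cd0q0) (C3 := pd3)
    rfl k0_mm_203_s

noncomputable def cut_mm_203_t : Cut := Cut.of [[⟨3, 0, 0, 2845415833⟩]]

noncomputable def f_mm_203_t : ℕ → ℕ → ℕ → ℕ → Bool := onCell 0 536870912 1610612736 536870912 649613803 48318383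
    (rowNE 3 eng mog cd0q2 cd0q0 pd3 1 true false false .up 2 0 3 (qsf 0 536870912 0 536870912 3) ndB0q2 ndB0q0 pcB3 cut_mm_203_t Ext.none)

def k0_mm_203_t : ∃ t, chk3 f_mm_203_t t 1 1 1 = true :=
  ⟨(b (a (b (a (b (a (b (b (l 16685352) (l 16692304)) (b (l 16697496) (l 16701224))) (b (b (l 16779616) (a (l 16716688) (l 16733664))) (a (b (l 16723832) (l 16729928)) (b (l 16741664) (l 16769824))))) (a (b (b (l 16704296) (l 16708000)) (l 16785648)) (b (a (b (l 16735520) (l 16741688)) (b (l 16755648) (l 16783936))) (a (b (l 16748728) (l 16757744)) (b (a (l 16765600) (a (l 16789672) (l 95261064087))) (a (b (l 16772240) (l 85060505207)) (l 132305139863))))))) (b (a (b (a (b (a (l 16737496) (l 16746288)) (a (l 16746640) (l 16776488))) (b (a (l 16776864) (b (l 16785640) (a (l 16766568) (l 16772672)))) (a (b (l 16762960) (l 16767528)) (a (b (l 16771352) (l 50163892695)) (b (c (l 71638730903) (l 70564988711)) (l 136063218919)))))) (a (b (a (l 16755080) (l 16785152)) (a (l 16762872)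 (b (l 16770368) (l 63048796471)))) (b (a (a (l 29762798279) (b (l 16774832) (l 94187309751))) (a (b (l 120493963175) (l 4)) (l 4))) (a (a (b (l 84523631607) (l 4)) (l 4)) (l 4))))) (b (a (b (a (a (b (c (l 16784792) (l 16784632)) (a (l 70028115511) (l 131768252759))) (b (a (l 90429212167) (l 4)) (l 4))) (l 4)) (l 4)) (l 4)) (l 4))) (a (a (b (b (a (b (l 16768488) (l 16772336)) (b (l 88281734999) (l 125325799847))) (a (a (l 70564995527) (l 110830307015)) (l 4))) (l 4)) (l 4)) (l 4)))) (a (b (a (b (b (l 16760064) (l 16770336)) (l 2)) (b (a (b (a (l 16762472) (l 48016418039)) (a (l 42647706807) (a (l 107609093191) (l 4)))) (b (a (l 130157636183) (l 4)) (l 4))) (l 2))) (l 2)) (l 4))) (l 4)) (l 2)), by decide +kernel⟩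

theorem c_mm_203_t : CertNE 0 536870912 0 536870912 649613803 48318383 3 eng mog cd0q2 cd0q0 pd3 true false false .up 2 0 3
    ndB0q2 ndB0q0 pcB3 cut_mm_203_t Ext.none :=
  certNE1 (fam := true) (s1 := false) (s2 := false) (a := 2) (b := 0) (c := 3) (cn := .up) (n1 := ndB0q2) (n2 := ndB0q0) (pc := pcB3) (cut := cut_mm_203_t) (xt := Ext.none) (P1 := 0) (W1 := 536870912) (P2 := 0) (W2 := 536870912) (P3 := 649613803) (W3 := 48318383) (N0 := 3) (En := eng) (mo := mog) (C1 := cd0q2) (C2 := cd0q0) (C3 := pd3)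
    rfl (fun _ => rfl) k0_mm_203_t

noncomputable def cut_mm_213_s : Cut := Cut.of [[⟨4, 0, 0, 1449551462⟩]]

noncomputable def f_mm_213_s : ℕ → ℕ → ℕ → ℕ → Bool := onCell 0 536870912 536870912 536870912 649613803 48318383
    (rowNE 3 eng mog cd0q2 cd0q1 pd3 0 true false false .pnn 2 1 3 (qsf 0 536870912 536870912 536870912 3) ndB0q2 ndB0q1 pcB3 cut_mm_213_s Ext.none)

def k0_mm_213_s : ∃ t, chk3 f_mm_213_s t 1 1 1 = true :=
  ⟨(l 6), by decide +kernel⟩

theorem c_mm_213_s : CertNE 0 536870912 536870912 536870912 649613803 48318383 3 eng mog cd0q2 cd0q1 pd3 true false false .pnn 2 1 3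
    ndB0q2 ndB0q1 pcB3 cut_mm_213_s Ext.none :=
  certNE0 (fam := true) (s1 := false) (s2 := false) (a := 2) (b := 1) (c := 3) (cn := .pnn) (n1 := ndB0q2) (n2 := ndB0q1) (pc := pcB3) (cut := cut_mm_213_s) (xt := Ext.none) (P1 := 0) (W1 := 536870912) (P2 := 536870912) (W2 := 536870912) (P3 := 649613803) (W3 := 48318383) (N0 := 3) (En := eng) (mo := mog) (C1 := cd0q2) (C2 := cd0q1) (C3 := pd3)
    rfl k0_mm_213_s

noncomputable def cut_mm_213_t : Cut := Cut.of [[⟨3, 0, 0, 2845415833⟩]]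

noncomputable def f_mm_213_t : ℕ → ℕ → ℕ → ℕ → Bool := onCell 0 536870912 536870912 536870912 649613803 48318383
    (rowNE 3 eng mog cd0q2 cd0q1 pd3 0 true false false .pnn 2 1 3 (qsf 0 536870912 536870912 536870912 3) ndB0q2 ndB0q1 pcB3 cut_mm_213_t Ext.none)

def k0_mm_213_t : ∃ t, chk3 f_mm_213_t t 1 1 1 = true :=
  ⟨(a (b (b (a (b (a (b (a (l 16776944) (b (l 16765968) (a (l 16770744) (a (l 16786480) (l 115662154615))))) (a (b (l 16768912) (a (l 16772584) (b (l 16776248) (l 119957114087)))) (b (a (b (l 16776096) (l 119420243383)) (l 4)) (l 4)))) (b (a (b (a (a (l 53385122551) (l 123178316439)) (l 4)) (l 4)) (l 4)) (l 4))) (a (b (a (b (a (b (l 16776440) (l 120493985207)) (l 4)) (l 4)) (l 4)) (l 4)) (l 4))) (l 4)) (l 4)) (l 4)) (l 4)), by decide +kernel⟩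

theorem c_mm_213_t : CertNE 0 536870912 536870912 536870912 649613803 48318383 3 eng mog cd0q2 cd0q1 pd3 true false false .pnn 2 1 3
    ndB0q2 ndB0q1 pcB3 cut_mm_213_t Ext.none :=
  certNE0 (fam := true) (s1 := false) (s2 := false) (a := 2) (b := 1) (c := 3) (cn := .pnn) (n1 := ndB0q2) (n2 := ndB0q1) (pc := pcB3) (cut := cut_mm_213_t) (xt := Ext.none) (P1 := 0) (W1 := 536870912) (P2 := 536870912) (W2 := 536870912) (P3 := 649613803) (W3 := 48318383) (N0 := 3) (En := eng) (mo := mog) (C1 := cd0q2) (C2 := cd0q1) (C3 := pd3)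
    rfl k0_mm_213_t

end Pool.Agent.Strip051.G.I6050_6500.Tab.CS.BA00

namespace Pool.Agent.Strip051.G.I6050_6500.Tab.CS.BA08

open Pool.Agent.Strip051.PB Pool.Agent.Strip051.PB.T
open Pool.Agent.Strip051.G.I6050_6500.Tab

noncomputable def cut_pp_001_s : Cut := Cut.of [[⟨4, 0, 0, 1449551462⟩]]

noncomputable def f_pp_001_s : ℕ → ℕ → ℕ → ℕ → Bool := onCell 0 536870912 0 536870912 649613803 48318383
    (rowNE 3 eng mog cd0q0 cd8q0 pd1 0 true true true .up 0 0 1 (qsf 0 536870912 0 536870912 1) ndB0q0 ndB8q0 pcB1 cut_pp_001_s Ext.none)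

def k0_pp_001_s : ∃ t, chk3 f_pp_001_s t 1 1 1 = true :=
  ⟨(l 4), by decide +kernel⟩

theorem c_pp_001_s : CertNE 0 536870912 0 536870912 649613803 48318383 3 eng mog cd0q0 cd8q0 pd1 true true true .up 0 0 1
    ndB0q0 ndB8q0 pcB1 cut_pp_001_s Ext.none :=
  certNE0 (fam := true) (s1 := true) (s2 := true) (a := 0) (b := 0) (c := 1) (cn := .up) (n1 := ndB0q0) (n2 := ndB8q0) (pc := pcB1) (cut := cut_pp_001_s) (xt := Ext.none) (P1 := 0) (W1 := 536870912) (P2 := 0) (W2 := 536870912) (P3 := 649613803) (W3 := 48318383) (N0 := 3) (En := eng) (mo := mog) (C1 := cd0q0) (C2 := cd8q0) (C3 := pd1)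
    rfl k0_pp_001_s

noncomputable def cut_pp_011_s : Cut := Cut.of [[⟨4, 0, 0, 1449551462⟩]]

noncomputable def f_pp_011_s : ℕ → ℕ → ℕ → ℕ → Bool := onCell 0 536870912 536870912 536870912 649613803 48318383
    (rowNE 3 eng mog cd0q0 cd8q1 pd1 0 true true true .pnn 0 1 1 (qsf 0 536870912 536870912 536870912 1) ndB0q0 ndB8q1 pcB1 cut_pp_011_s Ext.none)

def k0_pp_011_s : ∃ t, chk3 f_pp_011_s t 1 1 1 = true :=
  ⟨(l 4), by decide +kernel⟩

theorem c_pp_011_s : CertNE 0 536870912 536870912 536870912 649613803 48318383 3 eng mog cd0q0 cd8q1 pd1 true true true .pnn 0 1 1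
    ndB0q0 ndB8q1 pcB1 cut_pp_011_s Ext.none :=
  certNE0 (fam := true) (s1 := true) (s2 := true) (a := 0) (b := 1) (c := 1) (cn := .pnn) (n1 := ndB0q0) (n2 := ndB8q1) (pc := pcB1) (cut := cut_pp_011_s) (xt := Ext.none) (P1 := 0) (W1 := 536870912) (P2 := 536870912) (W2 := 536870912) (P3 := 649613803) (W3 := 48318383) (N0 := 3) (En := eng) (mo := mog) (C1 := cd0q0) (C2 := cd8q1) (C3 := pd1)
    rfl k0_pp_011_s

noncomputable def cut_pp_012_s : Cut := Cut.of [[⟨4, 0, 0, 1449551462⟩]]

noncomputable def f_pp_012_s : ℕ → ℕ → ℕ → ℕ → Bool := onCell 0 536870912 536870912 536870912 649613803 48318383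
    (rowNE 3 eng mog cd0q0 cd8q1 pd2 0 true true true .pnp 0 1 2 (qsf 0 536870912 536870912 536870912 2) ndB0q0 ndB8q1 pcB2 cut_pp_012_s Ext.none)

def k0_pp_012_s : ∃ t, chk3 f_pp_012_s t 1 1 1 = true :=
  ⟨(l 4), by decide +kernel⟩

theorem c_pp_012_s : CertNE 0 536870912 536870912 536870912 649613803 48318383 3 eng mog cd0q0 cd8q1 pd2 true true true .pnp 0 1 2
    ndB0q0 ndB8q1 pcB2 cut_pp_012_s Ext.none :=
  certNE0 (fam := true) (s1 := true) (s2 := true) (a := 0) (b := 1) (c := 2) (cn := .pnp) (n1 := ndB0q0) (n2 := ndB8q1) (pc := pcB2) (cut := cut_pp_012_s) (xt := Ext.none) (P1 := 0) (W1 := 536870912) (P2 := 536870912) (W2 := 536870912) (P3 := 649613803) (W3 := 48318383) (N0 := 3) (En := eng) (mo := mog) (C1 := cd0q0) (C2 := cd8q1) (C3 := pd2)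
    rfl k0_pp_012_s

noncomputable def cut_pp_022_s : Cut := Cut.of [[⟨4, 0, 0, 1449551462⟩]]

noncomputable def f_pp_022_s : ℕ → ℕ → ℕ → ℕ → Bool := onCell 0 536870912 1073741824 536870912 649613803 48318383
    (rowNE 3 eng mog cd0q0 cd8q2 pd2 0 true true true .pp 0 2 2 (qsf 0 536870912 1073741824 536870912 2) ndB0q0 ndB8q2 pcB2 cut_pp_022_s Ext.none)

def k0_pp_022_s : ∃ t, chk3 f_pp_022_s t 1 1 1 = true :=
  ⟨(l 4), by decide +kernel⟩

theorem c_pp_022_s : CertNE 0 536870912 1073741824 536870912 649613803 48318383 3 eng mog cd0q0 cd8q2 pd2 true true true .pp 0 2 2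
    ndB0q0 ndB8q2 pcB2 cut_pp_022_s Ext.none :=
  certNE0 (fam := true) (s1 := true) (s2 := true) (a := 0) (b := 2) (c := 2) (cn := .pp) (n1 := ndB0q0) (n2 := ndB8q2) (pc := pcB2) (cut := cut_pp_022_s) (xt := Ext.none) (P1 := 0) (W1 := 536870912) (P2 := 1073741824) (W2 := 536870912) (P3 := 649613803) (W3 := 48318383) (N0 := 3) (En := eng) (mo := mog) (C1 := cd0q0) (C2 := cd8q2) (C3 := pd2)
    rfl k0_pp_022_s

noncomputable def cut_pp_023_s : Cut := Cut.of [[⟨4, 0, 0, 1449551462⟩]]

noncomputable def f_pp_023_s : ℕ → ℕ → ℕ → ℕ → Bool := onCell 0 536870912 1073741824 536870912 649613803 48318383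
    (rowNE 3 eng mog cd0q0 cd8q2 pd3 0 true true true .up 0 2 3 (qsf 0 536870912 1073741824 536870912 3) ndB0q0 ndB8q2 pcB3 cut_pp_023_s Ext.none)

def k0_pp_023_s : ∃ t, chk3 f_pp_023_s t 1 1 1 = true :=
  ⟨(l 4), by decide +kernel⟩

theorem c_pp_023_s : CertNE 0 536870912 1073741824 536870912 649613803 48318383 3 eng mog cd0q0 cd8q2 pd3 true true true .up 0 2 3
    ndB0q0 ndB8q2 pcB3 cut_pp_023_s Ext.none :=
  certNE0 (fam := true) (s1 := true) (s2 := true) (a := 0) (b := 2) (c := 3) (cn := .up) (n1 := ndB0q0) (n2 := ndB8q2) (pc := pcB3) (cut := cut_pp_023_s) (xt := Ext.none) (P1 := 0) (W1 := 536870912) (P2 := 1073741824) (W2 := 536870912) (P3 := 649613803) (W3 := 48318383) (N0 := 3) (En := eng) (mo := mog) (C1 := cd0q0) (C2 := cd8q2) (C3 := pd3)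
    rfl k0_pp_023_s

noncomputable def cut_pp_033_s : Cut := Cut.of [[⟨4, 0, 0, 1449551462⟩]]

noncomputable def f_pp_033_s : ℕ → ℕ → ℕ → ℕ → Bool := onCell 0 536870912 0 1230186008 649613803 48318383
    (rowNE 3 eng mog cd0q0 cd8q3 pd3 0 true true true .pnn 0 3 3 (qsf 0 536870912 0 1230186008 3) ndB0q0 ndB8q3 pcB3 cut_pp_033_s Ext.none)

def k0_pp_033_s : ∃ t, chk3 f_pp_033_s t 1 1 1 = true :=
  ⟨(l 4), by decide +kernel⟩

theorem c_pp_033_s : CertNE 0 536870912 0 1230186008 649613803 48318383 3 eng mog cd0q0 cd8q3 pd3 true true true .pnn 0 3 3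
    ndB0q0 ndB8q3 pcB3 cut_pp_033_s Ext.none :=
  certNE0 (fam := true) (s1 := true) (s2 := true) (a := 0) (b := 3) (c := 3) (cn := .pnn) (n1 := ndB0q0) (n2 := ndB8q3) (pc := pcB3) (cut := cut_pp_033_s) (xt := Ext.none) (P1 := 0) (W1 := 536870912) (P2 := 0) (W2 := 1230186008) (P3 := 649613803) (W3 := 48318383) (N0 := 3) (En := eng) (mo := mog) (C1 := cd0q0) (C2 := cd8q3) (C3 := pd3)
    rfl k0_pp_033_s

noncomputable def cut_pp_101_s : Cut := Cut.of [[⟨4, 0, 0, 1449551462⟩]]

noncomputable def f_pp_101_s : ℕ → ℕ → ℕ → ℕ → Bool := onCell 536870912 536870912 0 536870912 649613803 48318383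
    (rowNE 3 eng mog cd0q1 cd8q0 pd1 0 true true true .npn 1 0 1 (qsf 536870912 536870912 0 536870912 1) ndB0q1 ndB8q0 pcB1 cut_pp_101_s Ext.none)

def k0_pp_101_s : ∃ t, chk3 f_pp_101_s t 1 1 1 = true :=
  ⟨(l 4), by decide +kernel⟩

theorem c_pp_101_s : CertNE 536870912 536870912 0 536870912 649613803 48318383 3 eng mog cd0q1 cd8q0 pd1 true true true .npn 1 0 1
    ndB0q1 ndB8q0 pcB1 cut_pp_101_s Ext.none :=
  certNE0 (fam := true) (s1 := true) (s2 := true) (a := 1) (b := 0) (c := 1) (cn := .npn) (n1 := ndB0q1) (n2 := ndB8q0) (pc := pcB1) (cut := cut_pp_101_s) (xt := Ext.none) (P1 := 536870912) (W1 := 536870912) (P2 := 0) (W2 := 536870912) (P3 := 649613803) (W3 := 48318383) (N0 := 3) (En := eng) (mo := mog) (C1 := cd0q1) (C2 := cd8q0) (C3 := pd1)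
    rfl k0_pp_101_s

noncomputable def cut_pp_102_s : Cut := Cut.of [[⟨4, 0, 0, 1449551462⟩]]

noncomputable def f_pp_102_s : ℕ → ℕ → ℕ → ℕ → Bool := onCell 536870912 536870912 0 536870912 649613803 48318383
    (rowNE 3 eng mog cd0q1 cd8q0 pd2 0 true true true .npp 1 0 2 (qsf 536870912 536870912 0 536870912 2) ndB0q1 ndB8q0 pcB2 cut_pp_102_s Ext.none)

def k0_pp_102_s : ∃ t, chk3 f_pp_102_s t 1 1 1 = true :=
  ⟨(l 4), by decide +kernel⟩

theorem c_pp_102_s : CertNE 536870912 536870912 0 536870912 649613803 48318383 3 eng mog cd0q1 cd8q0 pd2 true true true .npp 1 0 2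
    ndB0q1 ndB8q0 pcB2 cut_pp_102_s Ext.none :=
  certNE0 (fam := true) (s1 := true) (s2 := true) (a := 1) (b := 0) (c := 2) (cn := .npp) (n1 := ndB0q1) (n2 := ndB8q0) (pc := pcB2) (cut := cut_pp_102_s) (xt := Ext.none) (P1 := 536870912) (W1 := 536870912) (P2 := 0) (W2 := 536870912) (P3 := 649613803) (W3 := 48318383) (N0 := 3) (En := eng) (mo := mog) (C1 := cd0q1) (C2 := cd8q0) (C3 := pd2)
    rfl k0_pp_102_s

noncomputable def cut_pp_112_s : Cut := Cut.of [[⟨4, 0, 0, 1449551462⟩]]

noncomputable def f_pp_112_s : ℕ → ℕ → ℕ → ℕ → Bool := onCell 536870912 536870912 536870912 536870912 649613803 48318383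
    (rowNE 3 eng mog cd0q1 cd8q1 pd2 0 true true true .dn 1 1 2 (qsf 536870912 536870912 536870912 536870912 2) ndB0q1 ndB8q1 pcB2 cut_pp_112_s Ext.none)

def k0_pp_112_s : ∃ t, chk3 f_pp_112_s t 1 1 1 = true :=
  ⟨(l 4), by decide +kernel⟩

theorem c_pp_112_s : CertNE 536870912 536870912 536870912 536870912 649613803 48318383 3 eng mog cd0q1 cd8q1 pd2 true true true .dn 1 1 2
    ndB0q1 ndB8q1 pcB2 cut_pp_112_s Ext.none :=
  certNE0 (fam := true) (s1 := true) (s2 := true) (a := 1) (b := 1) (c := 2) (cn := .dn) (n1 := ndB0q1) (n2 := ndB8q1) (pc := pcB2) (cut := cut_pp_112_s) (xt := Ext.none) (P1 := 536870912) (W1 := 536870912) (P2 := 536870912) (W2 := 536870912) (P3 := 649613803) (W3 := 48318383) (N0 := 3) (En := eng) (mo := mog) (C1 := cd0q1) (C2 := cd8q1) (C3 := pd2)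
    rfl k0_pp_112_s

noncomputable def cut_pp_113_s : Cut := Cut.of [[⟨4, 0, 0, 1449551462⟩]]

noncomputable def f_pp_113_s : ℕ → ℕ → ℕ → ℕ → Bool := onCell 536870912 536870912 536870912 536870912 649613803 48318383
    (rowNE 3 eng mog cd0q1 cd8q1 pd3 0 true true true .nn 1 1 3 (qsf 536870912 536870912 536870912 536870912 3) ndB0q1 ndB8q1 pcB3 cut_pp_113_s Ext.none)

def k0_pp_113_s : ∃ t, chk3 f_pp_113_s t 1 1 1 = true :=
  ⟨(l 4), by decide +kernel⟩

theorem c_pp_113_s : CertNE 536870912 536870912 536870912 536870912 649613803 48318383 3 eng mog cd0q1 cd8q1 pd3 true true true .nn 1 1 3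
    ndB0q1 ndB8q1 pcB3 cut_pp_113_s Ext.none :=
  certNE0 (fam := true) (s1 := true) (s2 := true) (a := 1) (b := 1) (c := 3) (cn := .nn) (n1 := ndB0q1) (n2 := ndB8q1) (pc := pcB3) (cut := cut_pp_113_s) (xt := Ext.none) (P1 := 536870912) (W1 := 536870912) (P2 := 536870912) (W2 := 536870912) (P3 := 649613803) (W3 := 48318383) (N0 := 3) (En := eng) (mo := mog) (C1 := cd0q1) (C2 := cd8q1) (C3 := pd3)
    rfl k0_pp_113_s

noncomputable def cut_pp_123_s : Cut := Cut.of [[⟨4, 0, 0, 1449551462⟩]]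

noncomputable def f_pp_123_s : ℕ → ℕ → ℕ → ℕ → Bool := onCell 536870912 536870912 1073741824 536870912 649613803 48318383
    (rowNE 3 eng mog cd0q1 cd8q2 pd3 0 true true true .npn 1 2 3 (qsf 536870912 536870912 1073741824 536870912 3) ndB0q1 ndB8q2 pcB3 cut_pp_123_s Ext.none)

def k0_pp_123_s : ∃ t, chk3 f_pp_123_s t 1 1 1 = true :=
  ⟨(l 4), by decide +kernel⟩

theorem c_pp_123_s : CertNE 536870912 536870912 1073741824 536870912 649613803 48318383 3 eng mog cd0q1 cd8q2 pd3 true true true .npn 1 2 3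
    ndB0q1 ndB8q2 pcB3 cut_pp_123_s Ext.none :=
  certNE0 (fam := true) (s1 := true) (s2 := true) (a := 1) (b := 2) (c := 3) (cn := .npn) (n1 := ndB0q1) (n2 := ndB8q2) (pc := pcB3) (cut := cut_pp_123_s) (xt := Ext.none) (P1 := 536870912) (W1 := 536870912) (P2 := 1073741824) (W2 := 536870912) (P3 := 649613803) (W3 := 48318383) (N0 := 3) (En := eng) (mo := mog) (C1 := cd0q1) (C2 := cd8q2) (C3 := pd3)
    rfl k0_pp_123_s

noncomputable def cut_pp_133_s : Cut := Cut.of [[⟨4, 0, 0, 1449551462⟩]]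

noncomputable def f_pp_133_s : ℕ → ℕ → ℕ → ℕ → Bool := onCell 536870912 536870912 0 1230186008 649613803 48318383
    (rowNE 3 eng mog cd0q1 cd8q3 pd3 0 true true true .dn 1 3 3 (qsf 536870912 536870912 0 1230186008 3) ndB0q1 ndB8q3 pcB3 cut_pp_133_s Ext.none)

def k0_pp_133_s : ∃ t, chk3 f_pp_133_s t 1 1 1 = true :=
  ⟨(l 4), by decide +kernel⟩

theorem c_pp_133_s : CertNE 536870912 536870912 0 1230186008 649613803 48318383 3 eng mog cd0q1 cd8q3 pd3 true true true .dn 1 3 3
    ndB0q1 ndB8q3 pcB3 cut_pp_133_s Ext.none :=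
  certNE0 (fam := true) (s1 := true) (s2 := true) (a := 1) (b := 3) (c := 3) (cn := .dn) (n1 := ndB0q1) (n2 := ndB8q3) (pc := pcB3) (cut := cut_pp_133_s) (xt := Ext.none) (P1 := 536870912) (W1 := 536870912) (P2 := 0) (W2 := 1230186008) (P3 := 649613803) (W3 := 48318383) (N0 := 3) (En := eng) (mo := mog) (C1 := cd0q1) (C2 := cd8q3) (C3 := pd3)
    rfl k0_pp_133_s

noncomputable def cut_pp_202_s : Cut := Cut.of [[⟨4, 0, 0, 1449551462⟩]]

noncomputable def f_pp_202_s : ℕ → ℕ → ℕ → ℕ → Bool := onCell 0 536870912 0 536870912 649613803 48318383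
    (rowNE 3 eng mog cd0q2 cd8q0 pd2 0 true true true .pp 2 0 2 (qsf 0 536870912 0 536870912 2) ndB0q2 ndB8q0 pcB2 cut_pp_202_s Ext.none)

def k0_pp_202_s : ∃ t, chk3 f_pp_202_s t 1 1 1 = true :=
  ⟨(l 4), by decide +kernel⟩

theorem c_pp_202_s : CertNE 0 536870912 0 536870912 649613803 48318383 3 eng mog cd0q2 cd8q0 pd2 true true true .pp 2 0 2
    ndB0q2 ndB8q0 pcB2 cut_pp_202_s Ext.none :=
  certNE0 (fam := true) (s1 := true) (s2 := true) (a := 2) (b := 0) (c := 2) (cn := .pp) (n1 := ndB0q2) (n2 := ndB8q0) (pc := pcB2) (cut := cut_pp_202_s) (xt := Ext.none) (P1 := 0) (W1 := 536870912) (P2 := 0) (W2 := 536870912) (P3 := 649613803) (W3 := 48318383) (N0 := 3) (En := eng) (mo := mog) (C1 := cd0q2) (C2 := cd8q0) (C3 := pd2)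
    rfl k0_pp_202_s

noncomputable def cut_pp_203_s : Cut := Cut.of [[⟨4, 0, 0, 1449551462⟩]]

noncomputable def f_pp_203_s : ℕ → ℕ → ℕ → ℕ → Bool := onCell 0 536870912 0 536870912 649613803 48318383
    (rowNE 3 eng mog cd0q2 cd8q0 pd3 0 true true true .up 2 0 3 (qsf 0 536870912 0 536870912 3) ndB0q2 ndB8q0 pcB3 cut_pp_203_s Ext.none)

def k0_pp_203_s : ∃ t, chk3 f_pp_203_s t 1 1 1 = true :=
  ⟨(l 4), by decide +kernel⟩

theorem c_pp_203_s : CertNE 0 536870912 0 536870912 649613803 48318383 3 eng mog cd0q2 cd8q0 pd3 true true true .up 2 0 3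
    ndB0q2 ndB8q0 pcB3 cut_pp_203_s Ext.none :=
  certNE0 (fam := true) (s1 := true) (s2 := true) (a := 2) (b := 0) (c := 3) (cn := .up) (n1 := ndB0q2) (n2 := ndB8q0) (pc := pcB3) (cut := cut_pp_203_s) (xt := Ext.none) (P1 := 0) (W1 := 536870912) (P2 := 0) (W2 := 536870912) (P3 := 649613803) (W3 := 48318383) (N0 := 3) (En := eng) (mo := mog) (C1 := cd0q2) (C2 := cd8q0) (C3 := pd3)
    rfl k0_pp_203_s

noncomputable def cut_pp_213_s : Cut := Cut.of [[⟨4, 0, 0, 1449551462⟩]]

noncomputable def f_pp_213_s : ℕ → ℕ → ℕ → ℕ → Bool := onCell 0 536870912 536870912 536870912 649613803 48318383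
    (rowNE 3 eng mog cd0q2 cd8q1 pd3 0 true true true .pnn 2 1 3 (qsf 0 536870912 536870912 536870912 3) ndB0q2 ndB8q1 pcB3 cut_pp_213_s Ext.none)

def k0_pp_213_s : ∃ t, chk3 f_pp_213_s t 1 1 1 = true :=
  ⟨(l 4), by decide +kernel⟩

theorem c_pp_213_s : CertNE 0 536870912 536870912 536870912 649613803 48318383 3 eng mog cd0q2 cd8q1 pd3 true true true .pnn 2 1 3
    ndB0q2 ndB8q1 pcB3 cut_pp_213_s Ext.none :=
  certNE0 (fam := true) (s1 := true) (s2 := true) (a := 2) (b := 1) (c := 3) (cn := .pnn) (n1 := ndB0q2) (n2 := ndB8q1) (pc := pcB3) (cut := cut_pp_213_s) (xt := Ext.none) (P1 := 0) (W1 := 536870912) (P2 := 536870912) (W2 := 536870912) (P3 := 649613803) (W3 := 48318383) (N0 := 3) (En := eng) (mo := mog) (C1 := cd0q2) (C2 := cd8q1) (C3 := pd3)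
    rfl k0_pp_213_s

noncomputable def cut_pm_001_s : Cut := Cut.of [[⟨4, 0, 0, 1449551462⟩]]

noncomputable def f_pm_001_s : ℕ → ℕ → ℕ → ℕ → Bool := onCell 0 536870912 536870912 536870912 649613803 48318383
    (rowNE 3 eng mog cd0q0 cd8q0 pd1 1 true true false .up 0 0 1 (qsf 0 536870912 0 536870912 1) ndB0q0 ndB8q0 pcB1 cut_pm_001_s Ext.none)

def k0_pm_001_s : ∃ t, chk3 f_pm_001_s t 2 1 1 = true :=
  ⟨(b (l 3) (b (b (l 3) (l 2)) (l 2))), by decide +kernel⟩

def k1_pm_001_s : ∃ t, chk3 f_pm_001_s t 3 4 1 = true :=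
  ⟨(l 3), by decide +kernel⟩

def k2_pm_001_s : ∃ t, chk3 f_pm_001_s t 6 5 1 = true :=
  ⟨(l 3), by decide +kernel⟩

def k3_pm_001_s : ∃ t, chk3 f_pm_001_s t 7 10 1 = true :=
  ⟨(a (l 3) (b (a (l 3) (b (l 3) (a (l 3) (b (l 3) (a (l 3) (b (a (l 3) (b (l 3) (l 490330912679))) (a (l 485499071127) (a (a (l 323900917879) (l 208473676247)) (l 16775464))))))))) (a (b (l 3) (a (l 3) (b (a (l 3) (l 563882221623)) (a (b (l 3) (l 501068328343)) (b (a (l 536501809847) (b (l 311016042935) (l 16775840))) (a (c (l 215989889959) (l 206863084375)) (l 16772960))))))) (b (a (b (l 3) (a (l 3) (b (l 456508038615) (a (l 373829925991) (l 16774824))))) (b (a (b (a (l 3) (l 457581786775)) (a (l 430738241655) (b (l 203104965799) (l 16774720)))) (a (a (b (l 290078051383) (l 16773256)) (l 16775064)) (l 16776352))) (a (b (a (l 16775208) (l 16772080)) (l 16770064)) (l 16776096)))) (a (b (a (b (a (l 3) (l 341617671799)) (a (b (l 328732784599) (l 16776280)) (l 16773960))) (b (a (l 16774408) (l 16771192))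 (l 16769072))) (a (b (l 16777056) (l 16767936)) (l 16773808))) (a (b (l 16775040) (l 16756928)) (b (l 16758296) (l 16750656)))))))), by decide +kernel⟩

def k4_pm_001_s : ∃ t, chk3 f_pm_001_s t 7 11 1 = true :=
  ⟨(a (b (a (l 3) (b (l 3) (a (l 3) (b (a (l 3) (b (l 527911873479) (a (l 477446010151) (c (l 16781656) (l 16776312))))) (a (a (c (l 447918109735) (l 440401916167)) (b (l 435033208775) (l 127406185879))) (c (b (l 119353125079) (l 16769440)) (l 16781520))))))) (a (b (a (l 3) (b (l 3) (a (l 3) (b (l 3) (l 475298525319))))) (a (b (l 3) (a (l 3) (b (l 547239226327) (a (l 481204106711) (l 153175993911))))) (b (a (b (l 3) (l 406042179223)) (b (a (l 298668018263) (l 16774264)) (l 16770280))) (a (b (a (l 204715604023) (l 16771448)) (l 16767024)) (l 16780656))))) (b (a (b (a (b (l 3) (l 528448744279)) (b (a (l 3) (l 289541209383)) (a (l 250349631095) (l 16773152)))) (a (b (a (l 484962202759) (l 16781672)) (l 16783496)) (l 16766928))) (b (a (b (l 79624675191) (l 16766896))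 (l 16761440)) (l 16775432))) (a (b (l 16780040) (l 16766392)) (l 16777696))))) (b (a (b (a (b (a (l 3) (b (l 3) (c (l 457581786071) (l 452213076215)))) (a (b (l 3) (a (l 3) (c (l 286856853927) (l 277730048007)))) (b (a (b (l 489794041751) (l 258939561815)) (l 104320735015)) (c (l 16772544) (l 16771944))))) (b (a (b (a (l 443623143239) (b (l 231559144487) (l 16774840))) (c (l 16773744) (a (l 16775136) (l 16771448)))) (c (l 16769224) (l 16778576))) (a (l 16776408) (l 16760296)))) (a (b (a (b (c (l 163913414759) (a (l 242833437015) (l 16773168))) (l 16781224)) (l 16776072)) (a (l 16784648) (l 16756224))) (b (l 16775824) (l 16745432)))) (b (a (b (c (l 16759880) (l 16778272)) (l 16771136)) (b (l 16745728) (l 16737256))) (a (l 16757480) (l 16723512)))) (a (b (a (b (l 16770840) (l 16738936)) (l 16729888)) (a (l 16720592) (l 16706200))) (b (a (l 16716144) (l 16703080)) (l 16685888))))), by decide +kernel⟩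

def k5_pm_001_s : ∃ t, chk3 f_pm_001_s t 6 12 1 = true :=
  ⟨(a (b (l 3) (a (l 3) (b (l 3) (a (l 3) (b (l 3) (a (b (l 3) (l 2)) (b (a (l 3) (b (l 668572057255) (a (l 541870522263) (l 77477189943)))) (a (b (b (l 633675448279) (l 2)) (l 2)) (c (l 16770784) (l 16770744)))))))))) (b (a (l 3) (b (a (l 3) (b (l 3) (a (b (l 3) (l 510732005511)) (b (a (l 556366033671) (l 191293832599)) (a (l 135459254823) (l 16769552)))))) (a (b (a (l 3) (b (l 3) (a (l 3) (l 227801057287)))) (a (b (l 569787805847) (a (l 467782334823) (l 16782760))) (b (a (l 159618448151) (l 16770360)) (l 16765144)))) (b (a (b (a (l 413021502007) (l 16774016)) (l 16769064)) (l 16771152)) (a (l 16767176) (l 16744504)))))) (a (b (a (b (l 3) (a (l 3) (a (l 3) (b (l 3) (c (l 402820955943) (l 410874018743)))))) (b (a (l 622401154487) (b (a (l 3) (l 242296574775)) (a (b (l 278266921431) (l 16775368)) (l 16770864)))) (a (b (a (l 502142073495) (b (l 184851379047) (l 16773240))) (a (b (l 16780784) (l 16771032)) (l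 16766504))) (b (l 16775832) (l 16756456))))) (a (b (a (b (a (l 3) (l 652465928983)) (a (b (l 3) (l 512879487559)) (a (b (l 324974687015) (l 16775024)) (l 16780424)))) (b (a (b (l 491941526983) (a (l 171966472807) (l 16773904))) (l 16776272)) (b (l 16772808) (l 16773440)))) (a (b (a (a (b (l 161229054215) (l 16772624)) (l 16771488)) (l 16771536)) (c (l 16781376) (l 16781264))) (c (l 16772376) (l 16772184)))) (b (a (b (l 16771304) (l 16772688)) (l 16758704)) (a (l 16758856) (l 16745760))))) (b (a (b (a (b (l 16780080) (l 16760936)) (l 16773320)) (a (l 16768744) (l 16735128))) (b (l 16754792) (l 16737920))) (a (b (b (l 16749184) (l 16740296)) (l 16726720)) (b (l 16720784) (l 16703136))))))), by decide +kernel⟩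

def k6_pm_001_s : ∃ t, chk3 f_pm_001_s t 6 13 1 = true :=
  ⟨(a (b (a (l 2) (b (a (l 2) (b (a (l 2) (a (l 2) (c (l 16777584) (l 16766976)))) (l 2))) (l 2))) (l 2)) (a (b (b (a (b (a (c (l 16767256) (l 16767056)) (l 16748352)) (a (l 16748248) (l 16734792))) (b (a (l 16740312) (l 16706376)) (c (l 16715384) (l 16714680)))) (a (b (l 30165335879) (l 2)) (b (l 16696352) (l 16677640)))) (b (a (l 2) (a (l 2) (l 16643504))) (l 2))) (b (b (a (b (l 16708520) (l 16690160)) (c (l 16676864) (l 16675128))) (a (a (l 16668408) (l 16635616)) (l 16639616))) (b (a (l 16630632) (b (l 16591448) (l 16573256))) (a (l 16610072) (l 16566960)))))), by decide +kernel⟩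

def k7_pm_001_s : ∃ t, chk3 f_pm_001_s t 7 6 1 = true :=
  ⟨(b (a (b (a (b (a (b (a (b (l 460803011223) (a (l 253033990231) (l 16772808))) (b (l 56002357831) (l 16763848))) (a (l 16774720) (l 16752392))) (b (a (l 16776936) (l 16744872)) (l 16756280))) (a (b (l 16763528) (l 16747696)) (l 16743584))) (b (a (l 16764392) (l 16707096)) (a (l 16713016) (l 16673864)))) (a (b (a (l 16740208) (l 16701632)) (a (b (l 16677536) (l 16660208)) (l 16668928))) (b (a (l 16661216) (l 16643032)) (a (l 16629256) (l 16590648))))) (b (a (b (a (l 16692792) (l 16679160)) (l 16698968)) (b (a (l 16666128) (l 16653776)) (l 16641880))) (a (b (a (l 16625816) (l 16615656)) (a (l 16592704) (l 16576672))) (l 16623536)))) (a (b (a (b (a (l 16654480) (l 16608184)) (a (l 16597648) (b (l 16587152) (l 16569432)))) (a (b (a (l 16599656) (l 16590984)) (l 16581584)) (b (l 16578232) (l 16543800)))) (a (a (b (l 16603568) (l 16525440)) (b (l 16563480) (l 16506472))) (a (b (l 16525144) (l 16489480)) (l 16532792))))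 (a (b (b (l 16569656) (l 16536408)) (a (l 16494552) (l 16454320))) (b (l 16539080) (l 16461640))))), by decide +kernel⟩

def k8_pm_001_s : ∃ t, chk3 f_pm_001_s t 3 7 1 = true :=
  ⟨(a (b (a (l 2) (b (a (l 2) (a (l 2) (b (l 16531016) (l 2)))) (l 2))) (l 2)) (a (b (b (a (a (b (l 16489496) (l 16454144)) (b (l 16491560) (l 16435152))) (b (l 16508288) (l 16472744))) (a (a (l 2) (l 16425064)) (c (l 16452136) (l 16439920)))) (a (l 2) (b (l 16385584) (l 2)))) (b (b (a (a (l 16424592) (l 16385576)) (l 16395120)) (a (l 16429184) (l 16327912))) (b (a (l 16298688) (l 16239928)) (a (l 16280400) (l 16217808)))))), by decide +kernel⟩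

theorem s9_pm_001_s : ∃ t, chk3 f_pm_001_s t 6 6 1 = true := ex3_b k5_pm_001_s k6_pm_001_s

theorem s10_pm_001_s : ∃ t, chk3 f_pm_001_s t 3 6 1 = true := ex3_a s9_pm_001_s k7_pm_001_s

theorem s11_pm_001_s : ∃ t, chk3 f_pm_001_s t 3 3 1 = true := ex3_b s10_pm_001_s k8_pm_001_s

theorem s12_pm_001_s : ∃ t, chk3 f_pm_001_s t 7 5 1 = true := ex3_b k3_pm_001_s k4_pm_001_s

theorem s13_pm_001_s : ∃ t, chk3 f_pm_001_s t 3 5 1 = true := ex3_a k2_pm_001_s s12_pm_001_s

theorem s14_pm_001_s : ∃ t, chk3 f_pm_001_s t 3 2 1 = true := ex3_b k1_pm_001_s s13_pm_001_s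

theorem s15_pm_001_s : ∃ t, chk3 f_pm_001_s t 3 1 1 = true := ex3_b s14_pm_001_s s11_pm_001_s

theorem s16_pm_001_s : ∃ t, chk3 f_pm_001_s t 1 1 1 = true := ex3_a k0_pm_001_s s15_pm_001_s

theorem c_pm_001_s : CertNE 0 536870912 0 536870912 649613803 48318383 3 eng mog cd0q0 cd8q0 pd1 true true false .up 0 0 1
    ndB0q0 ndB8q0 pcB1 cut_pm_001_s Ext.none :=
  certNE1 (fam := true) (s1 := true) (s2 := false) (a := 0) (b := 0) (c := 1) (cn := .up) (n1 := ndB0q0) (n2 := ndB8q0) (pc := pcB1) (cut := cut_pm_001_s) (xt := Ext.none) (P1 := 0) (W1 := 536870912) (P2 := 0) (W2 := 536870912) (P3 := 649613803) (W3 := 48318383) (N0 := 3) (En := eng) (mo := mog) (C1 := cd0q0) (C2 := cd8q0) (C3 := pd1)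
    rfl (fun _ => rfl) s16_pm_001_s

noncomputable def cut_pm_011_s : Cut := Cut.of [[⟨4, 0, 0, 1449551462⟩], [⟨0, 0, 0, 53687091⟩, ⟨1, 1, 0, 53687091⟩, ⟨2, 1, 0, 53687091⟩]]

noncomputable def f_pm_011_s : ℕ → ℕ → ℕ → ℕ → Bool := onCell 0 536870912 536870912 536870912 649613803 48318383
    (rowNE 3 eng mog cd0q0 cd8q1 pd1 1 true true false .pnn 0 1 1 (qsf 0 536870912 536870912 536870912 1) ndB0q0 ndB8q1 pcB1 cut_pm_011_s Ext.none)

def k0_pm_011_s : ∃ t, chk3 f_pm_011_s t 1 2 1 = true :=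
  ⟨(a (l 3) (b (l 1) (a (l 3) (l 1)))), by decide +kernel⟩

def k1_pm_011_s : ∃ t, chk3 f_pm_011_s t 4 6 1 = true :=
  ⟨(l 3), by decide +kernel⟩

def k2_pm_011_s : ∃ t, chk3 f_pm_011_s t 5 12 1 = true :=
  ⟨(l 3), by decide +kernel⟩

def k3_pm_011_s : ∃ t, chk3 f_pm_011_s t 10 13 1 = true :=
  ⟨(l 3), by decide +kernel⟩

def k4_pm_011_s : ∃ t, chk3 f_pm_011_s t 11 26 1 = true :=
  ⟨(l 3), by decide +kernel⟩

def k5_pm_011_s : ∃ t, chk3 f_pm_011_s t 22 27 1 = true :=
  ⟨(b (l 3) (a (l 3) (b (l 3) (a (l 3) (b (l 3) (a (l 3) (b (a (l 3) (c (l 476909147127) (l 481740985335))) (a (b (l 532743721191) (c (l 125795570887) (l 127406183543))) (c (l 16777864) (l 16777856)))))))))), by decide +kernel⟩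

def k6_pm_011_s : ∃ t, chk3 f_pm_011_s t 23 27 1 = true :=
  ⟨(b (a (l 3) (b (a (l 3) (b (l 3) (a (l 3) (b (l 3) (a (l 3) (l 567103459799)))))) (a (b (l 3) (a (b (l 3) (a (l 3) (l 540796787639))) (a (b (l 3) (b (l 489257176247) (a (l 175724565159) (l 16775880)))) (b (c (l 447381246135) (l 472614177687)) (l 16777256))))) (b (a (b (l 3) (a (l 562271622807) (b (l 471540435303) (l 16779024)))) (c (b (a (l 437180697783) (l 16775776)) (l 16772648)) (b (a (l 455971178615) (l 16779704)) (l 16772632)))) (a (b (c (l 16779888) (a (b (l 16780224) (l 16774920)) (l 16772832))) (l 16769752)) (l 16770792)))))) (a (b (a (l 3) (b (a (l 3) (a (l 3) (b (l 3) (b (l 496236498919) (a (l 203104981943) (l 16776104)))))) (b (b (a (l 3) (a (a (l 308331682359) (l 16776944)) (l 16774576))) (a (a (l 3) (l 429664504423)) (l 16775144))) (a (b (a (l 509658271927) (l 16778848)) (c (l 16779424) (a (l 16779664) (l 16773920)))) (l 16771688))))) (a (b (a (a (l 3) (b (l 3) (b (l 530059366679) (a (l 232096011383)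 (l 16776344))))) (b (a (c (l 475835405319) (l 479593501703)) (b (c (l 197736274743) (l 196125661927)) (l 16775544))) (c (l 16776288) (l 16776928)))) (a (a (b (b (a (l 316384746103) (l 122574343927)) (l 16775608)) (l 16772216)) (c (l 16771456) (l 16771424))) (c (l 16772136) (l 16772088)))) (b (a (c (l 16772400) (l 16771056)) (l 16768784)) (c (l 16768208) (l 16762848))))) (b (b (a (a (b (a (c (l 460266148487) (l 480130371303)) (c (l 16780312) (b (l 167671503127) (l 16775200)))) (c (l 16773304) (l 16773288))) (c (l 16769240) (l 16771824))) (c (l 16770056) (l 16764720))) (a (a (l 16771608) (l 16765256)) (l 16755648))) (a (b (l 16761024) (l 16755736)) (a (l 16750704) (l 16744360)))))), by decide +kernel⟩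

def k7_pm_011_s : ∃ t, chk3 f_pm_011_s t 4 14 1 = true :=
  ⟨(a (l 3) (b (l 3) (a (l 3) (b (l 3) (a (l 3) (b (l 3) (a (b (l 3) (a (l 3) (b (l 3) (a (c (l 523080046103) (l 533280593367)) (b (l 477446015991) (a (l 160692178439) (l 16776208))))))) (b (a (l 3) (b (a (l 3) (c (l 520932562887) (l 530059368343))) (b (a (l 3) (a (l 260013297943) (l 16776768))) (a (a (l 467782338647) (l 16778784)) (l 16775320))))) (b (b (a (a (l 3) (c (l 387251701399) (l 395304765063))) (l 16777112)) (a (a (l 435570084167) (l 16778704)) (l 16772440))) (a (a (b (l 16778744) (l 16774400)) (l 16773008)) (l 16769368))))))))))), by decide +kernel⟩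

def k8_pm_011_s : ∃ t, chk3 f_pm_011_s t 8 30 1 = true :=
  ⟨(a (l 3) (b (l 3) (a (l 3) (b (l 3) (a (l 3) (b (l 3) (b (l 3) (a (l 3) (a (b (l 3) (b (l 3) (a (l 3) (a (l 462413628311) (l 116668761447))))) (a (b (l 3) (b (a (l 298131130311) (l 16777728)) (l 16776336))) (b (b (l 545091749767) (a (l 249275877223) (l 16776984))) (l 16775728)))))))))))), by decide +kernel⟩

def k9_pm_011_s : ∃ t, chk3 f_pm_011_s t 16 31 1 = true :=
  ⟨(b (b (l 3) (b (l 3) (b (l 3) (l 14)))) (l 14)), by decide +kernel⟩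

def k10_pm_011_s : ∃ t, chk3 f_pm_011_s t 34 124 1 = true :=
  ⟨(a (l 3) (b (l 3) (a (l 3) (a (l 3) (b (l 3) (b (l 3) (a (b (l 3) (b (l 506973914311) (a (l 505900172055) (l 16777768)))) (b (b (l 484962206791) (a (l 362018768167) (l 16777040))) (c (l 16777208) (l 16777200)))))))))), by decide +kernel⟩

def k11_pm_011_s : ∃ t, chk3 f_pm_011_s t 34 250 1 = true :=
  ⟨(b (a (l 3) (a (a (l 3) (b (l 3) (b (b (l 3) (a (l 3) (a (l 3) (c (l 140291081671) (l 197736268759))))) (a (a (l 3) (a (l 509658268647) (b (l 3) (l 16777560)))) (b (a (a (l 256255198727) (l 16777536)) (l 16776800)) (l 16776560)))))) (a (a (b (a (l 3) (b (l 3) (b (l 3) (l 165524014007)))) (b (a (b (l 180019528695) (l 16776768)) (l 16776480)) (l 16775728))) (b (a (b (l 539723040103) (b (l 140827952071) (l 16776704))) (b (b (l 522006299479) (l 122574341015)) (l 16776408))) (l 16775800))) (b (a (b (c (l 16777520) (c (l 16777600) (l 16777600))) (l 16775592)) (l 16775008)) (l 16774160))))) (a (b (l 3) (a (l 3)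 (a (l 3) (b (a (l 3) (a (l 3) (b (l 3) (l 459192402551)))) (a (a (l 3) (c (l 499457721527) (l 512879494295))) (b (a (l 474224788135) (l 50096767639)) (a (a (l 129016791783) (l 16776952)) (l 16776536)))))))) (b (a (a (a (a (l 3) (b (l 3) (b (l 3) (l 431275115015)))) (a (b (l 3) (b (a (l 3) (l 232632877927)) (l 16777624))) (b (a (l 534891201623) (c (l 412484633207) (l 423758922343))) (l 16777328)))) (a (b (a (b (a (l 293836162695) (l 178408915703)) (l 16776904)) (l 16777264)) (l 16775856)) (l 16775848))) (a (a (l 16774184) (l 16773088)) (l 16771448))) (a (a (a (b (b (a (l 444160016967) (l 16777648)) (c (l 16777408) (l 16777408))) (l 16775976)) (c (l 16776064) (l 16776056))) (c (l 16774432) (l 16774416))) (c (l 16771816) (l 16771784)))))), by decide +kernel⟩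

def k12_pm_011_s : ∃ t, chk3 f_pm_011_s t 34 251 1 = true :=
  ⟨(a (a (b (a (l 3) (a (l 3) (b (l 3) (b (l 3) (b (a (l 3) (b (a (l 3) (l 16777592)) (l 87677731511))) (a (a (a (l 426980148055) (l 293299290807)) (l 98415149703)) (l 16776768))))))) (b (a (b (l 3) (a (l 3) (a (l 14) (b (a (l 485499077159) (c (l 156934079175) (l 160692175559))) (l 16777200))))) (b (a (b (a (l 3) (b (a (l 3) (l 264845132391)) (c (l 139217338999) (l 141901693559)))) (a (a (l 469929820663) (c (l 139754209943) (l 142975435415))) (l 16776824))) (c (l 16776760) (l 16776592))) (a (a (a (l 16777136) (l 16776456)) (l 16776048)) (l 16775232)))) (a (l 14) (a (c (l 16775432) (l 16775416)) (l 16774344))))) (a (b (b (a (b (l 3) (a (l 3) (a (l 3) (l 539186168967)))) (a (b (l 3) (b (l 528448750455) (a (l 226727297895) (l 16777064)))) (b (c (l 518248203543) (l 530596234503)) (b (a (l 198273139495) (l 16777040)) (l 16776656))))) (a (a (b (b (l 3) (b (a (l 3) (l 16777240)) (l 16777536))) (l 16776480)) (b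 (b (a (l 256255198023) (l 16777416)) (l 16776712)) (l 16775936))) (b (l 16776480) (l 16775128)))) (b (a (a (l 16775592) (l 16774392)) (l 16774232)) (l 16772720))) (b (a (b (b (b (a (l 500531462935) (c (l 74792829703) (l 76403442439))) (a (a (l 178408915703) (l 16777008)) (l 16776600))) (l 16776424)) (l 16775208)) (b (b (l 16776040) (l 16775008)) (l 16773464))) (b (l 16772608) (l 16769896))))) (a (a (b (b (a (l 16775096) (l 16773344)) (l 16773144)) (l 16769896)) (b (c (l 16772008) (l 16771976)) (l 16766576))) (b (c (l 16769072) (l 16768696)) (l 16765928)))), by decide +kernel⟩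

def k13_pm_011_s : ∃ t, chk3 f_pm_011_s t 35 124 1 = true :=
  ⟨(a (b (a (l 3) (b (l 3) (b (b (l 3) (a (l 3) (a (l 3) (a (l 3) (l 451139339111))))) (a (b (l 3) (a (l 3) (l 514490107511))) (a (b (l 495162754535) (a (c (l 163913401863) (l 173577078199)) (l 16776760))) (b (a (c (l 132238017991) (l 140291081575)) (l 16776680)) (l 16775928))))))) (a (b (b (l 3) (a (l 3) (a (b (l 3) (a (c (l 421611438823) (l 420537696983)) (c (l 80161539239) (l 82309022887)))) (b (a (c (l 269140100823) (l 396915376711)) (l 60297315351)) (l 16776248))))) (b (b (a (a (l 3) (a (l 449528726375) (b (l 252497101959) (l 16776896)))) (c (l 16776432) (l 16776424))) (a (a (a (l 473151046631) (b (l 288467453191) (l 16776968))) (l 16777056)) (l 16774752))) (a (a (b (l 16777296) (l 16775448)) (l 16774864)) (l 16774520)))) (a (a (b (b (b (l 533280589575) (b (a (l 539186168727) (l 16777176)) (l 16777760))) (l 16776312)) (l 16773896)) (b (b (b (a (a (l 274508809735) (l 152639112359)) (l 16777496)) (l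 16776088)) (l 16774552)) (l 16772792))) (b (a (b (l 16775496) (l 16773456)) (l 16774352)) (l 16771144))))) (b (a (b (b (b (l 3) (a (l 3) (a (l 3) (a (l 518785074407) (l 177872045735))))) (b (a (l 3) (a (a (l 542407394695) (l 217063622311)) (l 16777920))) (a (a (l 3) (c (l 432885728295) (l 441475662871))) (c (l 16777456) (l 16777456))))) (a (b (b (c (a (l 451676210375) (l 16778096)) (a (l 461339886775) (l 16778096))) (a (c (l 38285608359) (l 43117446487)) (l 16775760))) (l 16775432)) (b (l 16775264) (l 16772560)))) (a (b (b (b (a (a (l 489794044999) (l 108078827495)) (l 16776424)) (l 16776944)) (l 16774424)) (l 16772672)) (b (c (l 16774536) (l 16774528)) (l 16769144)))) (a (b (a (a (l 16773576) (l 16771160)) (l 16769496)) (l 16768488)) (b (l 16768792) (l 16762096))))), by decide +kernel⟩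

def k14_pm_011_s : ∃ t, chk3 f_pm_011_s t 35 125 1 = true :=
  ⟨(a (b (a (a (b (b (l 16774672) (l 16771312)) (l 16769544)) (b (l 16771448) (l 16766040))) (b (c (l 16769480) (l 16769440)) (l 16762752))) (a (b (l 16765664) (l 16758936)) (l 16759232))) (b (a (c (l 16763048) (l 16762976)) (l 16758600)) (c (l 16752696) (l 16755216)))), by decide +kernel⟩

def k15_pm_011_s : ∃ t, chk3 f_pm_011_s t 17 63 1 = true :=
  ⟨(b (a (a (b (a (a (l 14) (a (l 14) (b (a (l 16771520) (l 16771632)) (l 14)))) (a (b (a (l 16770824) (l 16768424)) (l 16764848)) (b (l 16768112) (l 16762680)))) (a (l 14) (b (l 16759632) (l 14)))) (b (a (b (l 16764856) (l 16759424)) (c (l 16759808) (l 16759712))) (a (l 16755864) (l 16748904)))) (b (a (a (l 16755400) (l 16748416)) (l 16747104)) (a (l 16745016) (l 16733688)))) (a (a (l 14) (b (a (l 16744976) (l 16740656)) (l 16739792))) (b (a (l 16734168) (l 16725504)) (a (l 16725928) (l 16717304))))), by decide +kernel⟩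

def k16_pm_011_s : ∃ t, chk3 f_pm_011_s t 18 60 1 = true :=
  ⟨(a (l 3) (b (l 3) (a (l 3) (b (l 3) (a (b (l 3) (a (l 3) (b (l 526838140439) (a (a (l 442012534183) (l 177872046855)) (l 16777872))))) (b (b (a (l 3) (a (l 3) (l 418927085031))) (a (l 494625885207) (a (l 124184955847) (l 16776000)))) (b (b (a (a (l 331953998935) (l 16776792)) (l 16775056)) (l 16777168)) (l 16773672)))))))), by decide +kernel⟩

def k17_pm_011_s : ∃ t, chk3 f_pm_011_s t 36 61 1 = true :=
  ⟨(b (a (l 3) (b (l 3) (a (a (l 3) (a (l 3) (b (l 3) (b (l 3) (l 516637591959))))) (b (b (l 3) (a (l 3) (a (l 3) (a (l 530059364439) (l 406579053623))))) (b (b (a (l 3) (a (l 276656294535) (l 16776568))) (a (l 482277853271) (l 16776120))) (a (b (a (l 472077305127) (l 16776808)) (l 16777664)) (l 16774592))))))) (a (b (b (l 3) (a (l 3) (a (b (l 3) (b (a (l 3) (l 411947762503)) (a (l 435570082823) (l 16776664)))) (b (b (a (l 3) (a (l 346449512535) (l 16777184))) (a (a (l 506973914263) (l 16777936)) (l 16776456)))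 (l 16776800))))) (b (a (a (b (l 3) (a (l 535428074103) (b (l 504289560119) (c (l 16778048) (l 98415150727))))) (a (c (b (l 499994593575) (l 16777776)) (b (l 509658269959) (l 6073353799))) (b (b (l 458655532231) (l 16778176)) (l 16775336)))) (a (a (b (l 16777568) (l 16774216)) (l 16775424)) (l 16773736))) (a (a (b (a (b (c (l 131164276551) (l 120963729223)) (l 16776144)) (l 16775536)) (l 16774056)) (l 16774144)) (l 16771432)))) (a (b (a (a (b (b (l 3) (b (l 3) (l 172503337127))) (l 16776128)) (b (b (l 546165492519) (b (l 143512307751) (l 16776232))) (l 16773680))) (b (b (b (a (l 524690654919) (l 16778344)) (c (l 16777888) (l 29695674327))) (l 16775048)) (l 16771992))) (b (l 16771664) (l 16764968))) (b (b (c (l 16774640) (l 16774296)) (l 16771216)) (l 16765104))))), by decide +kernel⟩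

def k18_pm_011_s : ∃ t, chk3 f_pm_011_s t 37 61 1 = true :=
  ⟨(b (a (b (a (a (l 3) (b (l 3) (b (l 3) (a (l 545091750647) (a (l 421611439319) (l 158007822903)))))) (b (b (l 3) (a (l 3) (a (l 464561112935) (a (l 169818983095) (l 16776808))))) (a (b (a (l 506437044535) (a (l 226727300087) (l 16778376))) (l 16777864)) (c (l 16777240) (l 16775928))))) (a (b (a (a (b (l 3) (b (l 199346882919) (l 16776448))) (b (b (l 3) (l 167134628055)) (l 16775816))) (a (b (l 49559898343) (l 16774680)) (l 16774552))) (c (l 16773504) (l 16773496))) (b (c (l 16771696) (l 16771680)) (l 16767624)))) (b (a (b (a (b (a (l 411410892151) (l 74255960375)) (l 16775376)) (l 16774088)) (l 16773784)) (b (l 16773240) (l 16766552))) (b (l 16768728) (l 16765976)))) (a (b (a (c (l 16768720) (l 16768688)) (l 16766760)) (c (l 16760944) (l 16760896))) (b (l 16759888) (l 16746528)))), by decide +kernel⟩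

def k19_pm_011_s : ∃ t, chk3 f_pm_011_s t 19 30 1 = true :=
  ⟨(b (a (b (a (l 3) (b (a (l 3) (a (l 3) (b (l 3) (a (l 533817463511) (b (l 3) (l 193978175191)))))) (a (b (a (l 3) (b (l 3) (l 483351595975))) (b (a (l 519321947671) (c (l 16779104) (l 86603992439))) (a (a (l 217600495367) (l 16776536)) (l 16774760)))) (b (a (b (l 445770631527) (l 44728060983)) (c (l 16777752) (l 16777752))) (l 16774856))))) (a (b (a (b (l 3) (b (a (l 3) (a (l 520395688487) (l 179482660119))) (a (c (l 424295794695) (l 422685181943)) (l 16778624)))) (b (b (a (l 3) (a (l 415705859527) (l 16778160))) (a (a (l 472077305863) (l 123648084919)) (l 16775392))) (c (l 16776136) (l 16776128)))) (a (b (a (b (l 23253224055) (l 16774256)) (l 16772944)) (l 16770040)) (l 16770672))) (b (a (b (l 16774192) (l 16768808)) (l 16771352)) (c (l 16765576) (l 16765560))))) (b (a (b (a (a (b (l 3) (b (a (l 488183433463) (l 137606728935)) (l 16775816))) (b (b (l 3) (a (l 278266909191) (l 16778224))) (l 16774448)))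 (b (a (a (b (l 227264171879) (l 16775720)) (l 16778160)) (l 16773736)) (l 16770848))) (a (c (l 16772136) (l 16772128)) (l 16769960))) (b (a (l 16772008) (l 16763224)) (l 16762720))) (a (b (l 16764192) (l 16750800)) (c (l 16755760) (l 16750448))))) (a (b (a (b (a (l 16769176) (l 16759256)) (l 16758704)) (b (l 16757424) (l 16744048))) (a (c (l 16751768) (l 16746512)) (l 16742344))) (b (b (l 16745712) (l 16740200)) (l 16728008)))), by decide +kernel⟩

def k20_pm_011_s : ∃ t, chk3 f_pm_011_s t 9 31 1 = true :=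
  ⟨(a (b (a (b (a (a (b (b (c (l 16772512) (l 16772480)) (l 16768424)) (l 16762320)) (b (c (l 16766008) (l 16765960)) (l 16755248))) (b (c (l 16760584) (l 16760528)) (l 16753776))) (a (b (c (l 16754632) (l 16749304)) (l 16741232)) (b (l 16740448) (l 16732376)))) (a (b (b (l 16752832) (l 16739496)) (l 16732576)) (b (l 16739600) (l 16718136)))) (b (a (a (b (l 16733104) (l 16724968)) (l 16725496)) (a (l 16711152) (l 16701936))) (a (a (l 16717992) (l 16704064)) (l 16700896)))) (b (b (a (b (l 16734888) (l 16716296)) (l 16701304)) (a (l 16714624) (l 16685112))) (b (a (l 16687944) (l 16668944)) (a (l 16671760) (l 16652792))))), by decide +kernel⟩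

def k21_pm_011_s : ∃ t, chk3 f_pm_011_s t 10 28 1 = true :=
  ⟨(a (l 3) (b (l 3) (a (b (l 3) (a (l 3) (b (l 3) (a (b (l 3) (b (l 3) (a (l 3) (a (l 466708596935) (a (l 160155307175) (l 16776720)))))) (a (b (c (l 522543175639) (l 531133110199)) (b (a (a (l 313700389399) (l 186998852951)) (l 16777824)) (l 16775064))) (b (c (b (l 455434308519) (l 16779264)) (b (l 464561114007) (l 64055414615))) (l 16773456))))))) (b (a (b (l 3) (a (l 3) (a (l 3) (a (l 3) (b (l 3) (c (l 459729276375) (l 468319210951))))))) (b (a (l 3) (b (l 3) (a (c (l 509121402407) (b (l 3) (l 495162756551))) (c (b (l 421611440423) (l 16776256)) (b (l 429127633191) (l 16778872)))))) (a (a (b (l 3) (b (c (a (l 524153785255) (l 16778656)) (l 388862314055)) (c (l 16775912) (l 16775904)))) (b (a (c (l 479056629607) (l 487646564183)) (b (l 534354332967) (l 65129155415))) (l 16776200))) (b (a (b (c (l 91972702599) (l 93583314663)) (l 16774704)) (l 16773016)) (l 16772728))))) (a (b (a (b (l 3) (b (a (l 3) (a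 (l 458118662231) (a (l 147270405143) (l 16776632)))) (a (c (l 395841636199) (l 403357828967)) (l 16775512)))) (b (a (a (b (l 3) (a (l 300815487367) (l 168745241831))) (b (l 491941530119) (l 16777704))) (b (c (l 16779128) (l 16779120)) (l 16774352))) (c (l 16772528) (l 16772504)))) (a (b (a (c (l 16777640) (l 16777632)) (l 16772328)) (l 16774680)) (l 16770752))) (b (a (a (b (l 16772696) (l 16768440)) (l 16771760)) (l 16768952)) (c (l 16763312) (l 16763184)))))))), by decide +kernel⟩

def k22_pm_011_s : ∃ t, chk3 f_pm_011_s t 20 58 1 = true :=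
  ⟨(a (l 3) (b (a (l 3) (b (l 3) (a (l 3) (b (l 3) (a (c (l 512342627959) (l 522006304327)) (c (b (l 444696890103) (l 16779224)) (b (l 452749953767) (l 16779216)))))))) (a (b (a (l 3) (b (l 3) (a (l 3) (c (l 458655535431) (b (l 3) (l 429664504183)))))) (a (b (a (l 3) (c (l 514490112007) (l 524690659287))) (b (a (l 3) (a (l 242296558151) (l 16776704))) (a (a (l 465097984215) (l 111836925175)) (l 16775264)))) (b (a (b (l 476909145319) (a (l 169818984327) (l 16776248))) (c (l 16778008) (l 16778000))) (l 16774472)))) (b (b (b (a (l 3) (a (a (a (l 285783101623) (l 162839661607)) (l 16776440)) (l 16774504))) (a (a (l 3) (a (l 282025006103) (l 16778888))) (l 16773704))) (a (a (b (a (l 508584528599) (l 151028502327)) (l 16778576)) (l 16775744)) (l 16773208))) (a (b (l 16772872) (l 16767416)) (l 16769608)))))), by decide +kernel⟩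

def k23_pm_011_s : ∃ t, chk3 f_pm_011_s t 20 59 1 = true :=
  ⟨(a (b (a (b (l 3) (a (a (l 3) (b (l 3) (b (l 3) (l 447918115447)))) (a (b (l 3) (b (a (l 3) (l 193978175431)) (l 16778816))) (b (a (l 502678950071) (b (l 3) (l 126869310807))) (l 16777376))))) (b (a (b (l 3) (a (l 3) (b (l 491941531063) (a (l 192904433607) (l 16776392))))) (b (b (a (l 3) (c (l 390472927063) (l 397989119815))) (a (l 443623148167) (l 16778776))) (a (c (l 16778184) (l 16778832)) (l 16773056)))) (a (b (b (a (a (l 261623910983) (l 16776816)) (l 16774952)) (l 16774128)) (l 16771048)) (l 16772056)))) (a (b (a (b (a (b (l 493552143703) (a (l 189146337143) (l 16776376))) (c (l 16778192) (l 16778840))) (l 16775304)) (a (l 16773024) (l 16773840))) (c (l 16769344) (l 16769312))) (b (c (l 16767672) (l 16767616)) (l 16759440)))) (b (a (b (a (a (b (l 16776640) (l 16770544)) (l 16772056)) (l 16768928)) (c (l 16765872) (l 16765800))) (b (l 16764072) (l 16755672))) (a (c (l 16756208) (l 16758704)) (l 16748616)))),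 by decide +kernel⟩

def k24_pm_011_s : ∃ t, chk3 f_pm_011_s t 21 29 1 = true :=
  ⟨(b (a (b (a (b (a (l 3) (b (a (l 3) (c (l 484425339815) (b (l 3) (l 464561114007)))) (a (a (c (l 442012535943) (l 449528728695)) (b (l 505900173975) (l 16776528))) (a (c (l 16778896) (l 38822481671)) (l 16774952))))) (b (a (b (a (l 3) (a (l 458655533159) (l 98415152327))) (a (c (l 391009797943) (l 398525990695)) (l 16775592))) (c (l 16772736) (l 16772712))) (a (c (l 16777040) (a (l 16777664) (l 16772440))) (l 16768544)))) (b (b (a (b (a (c (l 399062861751) (l 407115925415)) (l 16775600)) (c (l 16777448) (l 16777432))) (l 16773192)) (a (l 16773632) (l 16766368))) (c (l 16768024) (l 16767952)))) (a (b (a (c (l 16772768) (l 16772720)) (l 16767536)) (l 16761856)) (b (l 16759664) (l 16756632)))) (b (a (b (c (l 16765744) (l 16765640)) (l 16757336)) (b (l 16760104) (l 16741304))) (a (c (l 16750296) (l 16750016)) (l 16739408)))) (a (b (a (c (l 16754832) (l 16754632)) (l 16744296)) (a (l 16738336)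 (l 16717448))) (b (a (l 16733728) (l 16712552)) (l 16712112)))), by decide +kernel⟩

def k25_pm_011_s : ∃ t, chk3 f_pm_011_s t 22 56 1 = true :=
  ⟨(a (b (l 3) (a (b (l 3) (a (b (l 3) (a (l 3) (c (l 532743723239) (l 540259915991)))) (b (a (l 3) (b (l 3) (a (l 537038687271) (a (l 229411655687) (l 16778328))))) (a (c (b (l 455434308503) (l 16779168)) (b (l 462950501271) (l 16779160))) (c (l 16774808) (l 16774800)))))) (b (a (b (l 3) (a (c (l 537575562023) (l 545091754775)) (c (b (l 482814725527) (l 16779408)) (b (l 490330918295) (l 43654320487))))) (b (b (a (l 3) (c (l 181093275047) (a (l 473151047879) (l 16776912)))) (a (a (l 542944267783) (a (l 271824458183) (l 140827954215))) (l 16775424))) (c (l 16776848) (a (l 16777616) (l 16772112))))) (b (a (a (b (a (a (l 538112428519) (l 240685944967)) (l 16778688)) (l 16775240)) (l 16773480)) (l 16774424)) (a (l 16772512) (l 16764832)))))) (b (a (b (a (l 3) (a (l 3) (b (l 3) (b (l 523616915527) (c (l 122037474311) (l 122037474311))))))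 (a (b (a (l 3) (a (l 3) (c (l 446844374215) (l 453286825143)))) (a (c (b (l 502142078759) (l 111836926679)) (b (l 509658271511) (l 113447539399))) (c (l 16777768) (l 16777760)))) (a (b (b (a (l 487646562823) (l 112910667271)) (l 16775544)) (l 16772216)) (c (l 16771512) (l 16771480))))) (b (a (b (a (c (l 475298534247) (l 481204113623)) (b (c (l 201494370903) (l 201494370903)) (l 16775608))) (a (c (l 16777848) (l 16777840)) (l 16772248))) (b (c (l 16772256) (l 16772232)) (l 16773024))) (a (c (l 16772344) (l 16772288)) (l 16766392)))) (a (b (a (b (c (l 16772192) (l 16772168)) (l 16773032)) (c (l 16764200) (l 16764120))) (c (l 16768912) (l 16763552))) (b (c (l 16765920) (l 16765776)) (l 16757200))))), by decide +kernel⟩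

def k26_pm_011_s : ∃ t, chk3 f_pm_011_s t 22 57 1 = true :=
  ⟨(a (b (b (a (a (b (b (a (l 3) (a (a (l 323364066119) (l 190220078711)) (l 16777784))) (a (a (l 487646562775) (a (l 175724563927) (l 16776752))) (l 16775000))) (c (l 16775784) (l 16775760))) (c (l 16772344) (b (l 16771848) (l 16767512)))) (c (l 16766496) (l 16766400))) (a (a (c (l 16771968) (l 16771912)) (l 16766352)) (l 16757896))) (a (b (l 16762288) (l 16757472)) (c (l 16750648) (l 16750336)))) (b (a (c (l 16756104) (l 16755872)) (l 16744432)) (a (l 16739184) (l 16727760)))), by decide +kernel⟩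

def k27_pm_011_s : ∃ t, chk3 f_pm_011_s t 23 28 1 = true :=
  ⟨(b (a (b (a (b (c (l 16771520) (l 16767488)) (l 16759392)) (c (l 16755048) (l 16753496))) (a (c (l 16749840) (l 16749544)) (l 16737736))) (b (a (l 16742656) (l 16730256)) (c (l 16730424) (l 16719224)))) (a (b (a (l 16732760) (l 16710480)) (l 16715664)) (b (l 16713560) (l 16676456)))), by decide +kernel⟩

def k28_pm_011_s : ∃ t, chk3 f_pm_011_s t 11 29 1 = true :=
  ⟨(a (b (a (b (a (l 16744984) (l 16733904)) (b (l 16727136) (l 16718976))) (b (c (l 16717472) (l 16727168)) (l 16700864))) (a (b (l 16706792) (l 16680144)) (c (l 16682808) (l 16686520)))) (b (a (a (l 16694592) (l 16680544)) (l 16669160)) (a (b (l 16672968) (l 16636208)) (b (l 16629392) (l 16613856))))), by decide +kernel⟩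

def k29_pm_011_s : ∃ t, chk3 f_pm_011_s t 5 15 1 = true :=
  ⟨(a (b (a (b (a (b (a (b (l 16761136) (l 16747720)) (l 16749792)) (b (l 16745128) (l 16736976))) (b (a (l 16742408) (l 16721784)) (l 16721056))) (a (b (l 16724776) (l 16698056)) (b (l 16694328) (l 16678128)))) (b (a (b (l 16716848) (l 16690104)) (b (l 16685400) (l 16669216))) (a (l 16686792) (l 16666000)))) (b (a (a (l 16689504) (l 16653912)) (b (l 16652328) (l 16615368))) (a (a (l 16662472) (l 16621752)) (b (l 16599424) (l 16583448))))) (a (b (b (a (l 16671712) (b (l 16642352) (l 16626416))) (a (b (l 16631912) (l 16615920)) (b (l 16610512) (l 16594728)))) (b (a (b (l 16600040) (l 16584088)) (l 16591880)) (a (l 16560560) (l 16539872)))) (b (b (a (l 16633544) (l 16622128)) (a (l 16602056) (l 16559416))) (b (a (l 16549904) (l 16528792)) (a (l 16519208) (l 16498616)))))), by decide +kernel⟩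

def k30_pm_011_s : ∃ t, chk3 f_pm_011_s t 6 12 1 = true :=
  ⟨(a (b (l 3) (a (l 3) (b (l 3) (a (l 3) (b (l 3) (a (b (l 3) (a (l 3) (l 653539672311))) (b (a (l 3) (a (l 602000059031) (l 1))) (c (a (b (l 481740980727) (l 63518548439)) (l 16770808)) (a (b (l 481740979703) (a (l 129553670263) (l 16773640))) (l 16770760)))))))))) (b (l 1) (a (b (l 1) (a (b (l 1) (a (b (l 1) (c (l 16781424) (l 16781304))) (l 1))) (l 1))) (l 1)))), by decide +kernel⟩

def k31_pm_011_s : ∃ t, chk3 f_pm_011_s t 24 26 1 = true :=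
  ⟨(b (l 3) (a (b (l 3) (a (l 3) (b (l 3) (a (b (l 3) (a (l 3) (l 513416366471))) (b (a (l 627769871847) (b (l 517174461943) (l 16779208))) (a (b (l 177872049527) (l 16775144)) (l 16772944))))))) (b (a (b (l 3) (a (l 3) (b (l 3) (a (l 3) (c (l 243370305383) (l 424295793223)))))) (a (b (l 3) (a (b (l 544554878583) (l 16779112)) (b (b (l 201494371367) (l 16775368)) (l 16771736)))) (b (a (b (l 3) (b (l 541333652439) (l 16779368))) (b (l 482814723015) (l 16774496))) (b (l 16771392) (l 16766552))))) (a (b (a (b (l 613274357511) (a (c (l 466171725863) (l 479593497687)) (c (l 16775808) (l 16779736)))) (a (b (b (l 263234527431) (l 16776008)) (l 16772376)) (l 16772672))) (a (b (l 16775040) (l 16767816)) (l 16768624))) (b (a (l 16769304) (l 16759296)) (l 16763560)))))), by decide +kernel⟩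

def k32_pm_011_s : ∃ t, chk3 f_pm_011_s t 25 26 1 = true :=
  ⟨(b (a (b (a (l 3) (b (l 3) (a (l 3) (b (l 617569321751) (a (l 454897434983) (l 16779488)))))) (b (a (a (l 3) (b (l 3) (l 573009036615))) (a (b (a (l 672867025911) (c (l 183240762887) (l 182167019559))) (c (l 16780576) (a (l 67813514151) (l 16772928)))) (b (l 16772512) (l 16767712)))) (b (a (a (l 3) (a (b (l 631527965527) (l 162302794023)) (l 16777712))) (a (l 16769872) (l 16762912))) (a (a (a (l 607905645959) (b (l 261087043879) (l 16776016))) (l 16772008)) (l 16772072))))) (b (a (b (b (a (l 3) (a (l 484962205847) (l 16780152))) (a (c (l 449528726295) (l 465634852663)) (l 16772888))) (a (a (b (a (l 191830695527) (l 16775968)) (l 16772064)) (l 16770968)) (l 16770984))) (b (a (l 16770912) (l 16771824)) (l 16765800))) (a (b (l 16770152) (l 16760584)) (l 16756768)))) (a (b (a (b (a (b (c (l 16779376) (b (l 16780576) (l 16772912))) (l 16769296)) (l 16775264)) (l 16767680)) (b (l 16764856) (l 16755240))) (a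 (c (l 16754664) (l 16759800)) (l 16740840))) (a (b (l 16746224) (l 16737584)) (a (l 16736840) (l 16730016))))), by decide +kernel⟩

def k33_pm_011_s : ∃ t, chk3 f_pm_011_s t 12 27 1 = true :=
  ⟨(a (b (a (b (a (b (a (l 3) (b (l 3) (a (l 545091751287) (a (b (l 312626650471) (l 16776480)) (l 16778616))))) (a (a (b (l 3) (b (a (l 3) (l 16779448)) (l 16776048))) (b (c (b (l 573545910247) (l 16780080)) (l 428590761399)) (l 16773896))) (b (c (l 16773688) (l 16777616)) (l 16768840)))) (a (b (b (a (b (l 572472166711) (l 132774893255)) (l 16777536)) (l 16771760)) (l 16769728)) (b (b (l 16769800) (l 16764952)) (l 16757696)))) (a (b (a (c (l 16768376) (l 16769656)) (l 16766888)) (c (l 16766152) (l 16766056))) (b (l 16759384) (l 16752736)))) (b (a (b (c (l 16767632) (l 16767600)) (l 16757968)) (a (l 16752520) (l 16745672))) (a (b (l 16748432) (l 16728776)) (l 16730200)))) (a (b (a (a (l 16755672) (l 16749128)) (l 16739240)) (a (l 16734776) (l 16711392))) (b (b (l 16728864) (l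 16725464)) (l 16712784)))) (b (a (b (b (l 16743824) (l 16734264)) (l 16720096)) (b (l 16711728) (l 16692872))) (a (b (l 16702800) (l 16686312)) (l 16677888)))), by decide +kernel⟩

def k34_pm_011_s : ∃ t, chk3 f_pm_011_s t 13 13 1 = true :=
  ⟨(b (a (b (a (a (b (a (l 16760184) (l 16763832)) (l 16748328)) (b (l 16748432) (l 16713896))) (b (l 1) (l 16720472))) (a (b (l 16727904) (l 16703744)) (b (l 16696544) (l 16677832)))) (b (l 1) (a (c (l 16663288) (l 16661912)) (l 1)))) (a (b (a (l 16686024) (l 16655144)) (a (l 16639904) (l 16613256))) (b (a (l 16625728) (l 16603584)) (a (l 16589440) (l 16567296))))), by decide +kernel⟩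

def k35_pm_011_s : ∃ t, chk3 f_pm_011_s t 7 6 1 = true :=
  ⟨(b (l 1) (a (b (l 1) (a (b (l 1) (a (l 16525792) (l 1))) (l 1))) (l 1))), by decide +kernel⟩

def k36_pm_011_s : ∃ t, chk3 f_pm_011_s t 3 7 1 = true :=
  ⟨(a (b (a (b (a (b (a (b (a (l 16707240) (l 16694608)) (l 16694968)) (b (l 16696408) (l 16659520))) (a (b (l 16668400) (l 16673624)) (l 16649368))) (b (a (l 16665368) (l 16636688)) (a (l 16611688) (l 16592176)))) (a (b (a (c (l 16672760) (l 16670176)) (l 16627072)) (a (l 16620024) (l 16597128))) (b (a (l 16603592) (l 16579032)) (a (l 16552880) (l 16529304))))) (b (a (b (a (l 16610248) (l 16583168)) (a (l 16566264) (l 16534096))) (b (a (l 16554216) (l 16510376)) (l 16532744))) (a (a (a (l 16567168) (l 16554616)) (l 16509224)) (b (l 16486304) (l 16440904))))) (a (b (b (a (a (l 16589184) (l 16545920)) (a (l 16523472) (l 16500864))) (a (a (l 16537760) (l 16516120)) (a (l 16494536) (l 16472904)))) (a (b (a (l 16507728) (l 16486816)) (l 16520472)) (b (l 16497664)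 (l 16449032)))) (a (b (b (l 16529120) (l 16461008)) (b (l 16414104) (l 16388432))) (b (a (l 16438856) (l 16392928)) (b (l 16370632) (l 16347528)))))) (a (b (b (a (a (b (l 16489840) (l 16454480)) (l 16516048)) (a (l 140693040295) (l 1))) (a (b (l 16431216) (l 16382832)) (a (l 16366496) (l 16350664)))) (a (b (l 16373232) (b (l 16343344) (l 16302456))) (b (l 16334104) (l 16257800)))) (b (b (l 1) (a (l 170757576855) (l 1))) (b (a (l 16258184) (l 16220544)) (a (l 16216432) (l 16177328)))))), by decide +kernel⟩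

theorem s37_pm_011_s : ∃ t, chk3 f_pm_011_s t 12 26 1 = true := ex3_a k31_pm_011_s k32_pm_011_s

theorem s38_pm_011_s : ∃ t, chk3 f_pm_011_s t 12 13 1 = true := ex3_b s37_pm_011_s k33_pm_011_s

theorem s39_pm_011_s : ∃ t, chk3 f_pm_011_s t 6 13 1 = true := ex3_a s38_pm_011_s k34_pm_011_s

theorem s40_pm_011_s : ∃ t, chk3 f_pm_011_s t 6 6 1 = true := ex3_b k30_pm_011_s s39_pm_011_s

theorem s41_pm_011_s : ∃ t, chk3 f_pm_011_s t 3 6 1 = true := ex3_a s40_pm_011_s k35_pm_011_s

theorem s42_pm_011_s : ∃ t, chk3 f_pm_011_s t 3 3 1 = true := ex3_b s41_pm_011_s k36_pm_011_s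

theorem s43_pm_011_s : ∃ t, chk3 f_pm_011_s t 22 28 1 = true := ex3_b k25_pm_011_s k26_pm_011_s

theorem s44_pm_011_s : ∃ t, chk3 f_pm_011_s t 11 28 1 = true := ex3_a s43_pm_011_s k27_pm_011_s

theorem s45_pm_011_s : ∃ t, chk3 f_pm_011_s t 11 14 1 = true := ex3_b s44_pm_011_s k28_pm_011_s

theorem s46_pm_011_s : ∃ t, chk3 f_pm_011_s t 20 29 1 = true := ex3_b k22_pm_011_s k23_pm_011_s

theorem s47_pm_011_s : ∃ t, chk3 f_pm_011_s t 10 29 1 = true := ex3_a s46_pm_011_s k24_pm_011_s

theorem s48_pm_011_s : ∃ t, chk3 f_pm_011_s t 10 14 1 = true := ex3_b k21_pm_011_s s47_pm_011_s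

theorem s49_pm_011_s : ∃ t, chk3 f_pm_011_s t 5 14 1 = true := ex3_a s48_pm_011_s s45_pm_011_s

theorem s50_pm_011_s : ∃ t, chk3 f_pm_011_s t 5 7 1 = true := ex3_b s49_pm_011_s k29_pm_011_s

theorem s51_pm_011_s : ∃ t, chk3 f_pm_011_s t 18 61 1 = true := ex3_a k17_pm_011_s k18_pm_011_s

theorem s52_pm_011_s : ∃ t, chk3 f_pm_011_s t 18 30 1 = true := ex3_b k16_pm_011_s s51_pm_011_s

theorem s53_pm_011_s : ∃ t, chk3 f_pm_011_s t 9 30 1 = true := ex3_a s52_pm_011_s k19_pm_011_s

theorem s54_pm_011_s : ∃ t, chk3 f_pm_011_s t 9 15 1 = true := ex3_b s53_pm_011_s k20_pm_011_s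

theorem s55_pm_011_s : ∃ t, chk3 f_pm_011_s t 35 62 1 = true := ex3_b k13_pm_011_s k14_pm_011_s

theorem s56_pm_011_s : ∃ t, chk3 f_pm_011_s t 34 125 1 = true := ex3_b k11_pm_011_s k12_pm_011_s

theorem s57_pm_011_s : ∃ t, chk3 f_pm_011_s t 34 62 1 = true := ex3_b k10_pm_011_s s56_pm_011_s

theorem s58_pm_011_s : ∃ t, chk3 f_pm_011_s t 17 62 1 = true := ex3_a s57_pm_011_s s55_pm_011_s

theorem s59_pm_011_s : ∃ t, chk3 f_pm_011_s t 17 31 1 = true := ex3_b s58_pm_011_s k15_pm_011_s

theorem s60_pm_011_s : ∃ t, chk3 f_pm_011_s t 8 31 1 = true := ex3_a k9_pm_011_s s59_pm_011_s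

theorem s61_pm_011_s : ∃ t, chk3 f_pm_011_s t 8 15 1 = true := ex3_b k8_pm_011_s s60_pm_011_s

theorem s62_pm_011_s : ∃ t, chk3 f_pm_011_s t 4 15 1 = true := ex3_a s61_pm_011_s s54_pm_011_s

theorem s63_pm_011_s : ∃ t, chk3 f_pm_011_s t 4 7 1 = true := ex3_b k7_pm_011_s s62_pm_011_s

theorem s64_pm_011_s : ∃ t, chk3 f_pm_011_s t 2 7 1 = true := ex3_a s63_pm_011_s s50_pm_011_s

theorem s65_pm_011_s : ∃ t, chk3 f_pm_011_s t 11 27 1 = true := ex3_a k5_pm_011_s k6_pm_011_s

theorem s66_pm_011_s : ∃ t, chk3 f_pm_011_s t 11 13 1 = true := ex3_b k4_pm_011_s s65_pm_011_s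

theorem s67_pm_011_s : ∃ t, chk3 f_pm_011_s t 5 13 1 = true := ex3_a k3_pm_011_s s66_pm_011_s

theorem s68_pm_011_s : ∃ t, chk3 f_pm_011_s t 5 6 1 = true := ex3_b k2_pm_011_s s67_pm_011_s

theorem s69_pm_011_s : ∃ t, chk3 f_pm_011_s t 2 6 1 = true := ex3_a k1_pm_011_s s68_pm_011_s

theorem s70_pm_011_s : ∃ t, chk3 f_pm_011_s t 2 3 1 = true := ex3_b s69_pm_011_s s64_pm_011_s

theorem s71_pm_011_s : ∃ t, chk3 f_pm_011_s t 1 3 1 = true := ex3_a s70_pm_011_s s42_pm_011_s

theorem s72_pm_011_s : ∃ t, chk3 f_pm_011_s t 1 1 1 = true := ex3_b k0_pm_011_s s71_pm_011_s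

theorem c_pm_011_s : CertNE 0 536870912 536870912 536870912 649613803 48318383 3 eng mog cd0q0 cd8q1 pd1 true true false .pnn 0 1 1
    ndB0q0 ndB8q1 pcB1 cut_pm_011_s Ext.none :=
  certNE1 (fam := true) (s1 := true) (s2 := false) (a := 0) (b := 1) (c := 1) (cn := .pnn) (n1 := ndB0q0) (n2 := ndB8q1) (pc := pcB1) (cut := cut_pm_011_s) (xt := Ext.none) (P1 := 0) (W1 := 536870912) (P2 := 536870912) (W2 := 536870912) (P3 := 649613803) (W3 := 48318383) (N0 := 3) (En := eng) (mo := mog) (C1 := cd0q0) (C2 := cd8q1) (C3 := pd1)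
    rfl (fun _ => rfl) s72_pm_011_s

noncomputable def cut_pm_012_s : Cut := Cut.of [[⟨4, 0, 0, 1449551462⟩], [⟨0, 0, 0, 67108864⟩, ⟨1, 1, 0, 67108864⟩, ⟨2, 1, 0, 67108864⟩]]

noncomputable def f_pm_012_s : ℕ → ℕ → ℕ → ℕ → Bool := onCell 1073741824 536870912 536870912 536870912 649613803 48318383
    (rowNE 3 eng mog cd0q0 cd8q1 pd2 2 true true false .pnp 0 1 2 (qsf 0 536870912 536870912 536870912 2) ndB0q0 ndB8q1 pcB2 cut_pm_012_s Ext.none)

def k0_pm_012_s : ∃ t, chk3 f_pm_012_s t 4 2 1 = true :=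
  ⟨(b (a (b (a (b (l 16120120) (l 16200760)) (l 6)) (a (b (a (l 16171400) (l 16130064)) (b (l 16199744) (l 16207640))) (b (l 16090376) (l 16111776)))) (l 6)) (a (b (a (b (a (l 16371288) (l 16248464)) (a (b (l 16322576) (l 16344776)) (l 16399296))) (b (l 16377328) (a (l 16255352) (l 16216224)))) (b (a (a (b (l 16366432) (l 16387808)) (b (l 16326200) (l 16346680))) (a (l 16296536) (l 16257176))) (a (a (b (l 16409096) (l 16430456)) (b (l 16366952) (l 16387184))) (a (l 16377352) (l 16294792))))) (b (a (b (l 16253176) (l 16303168)) (l 6)) (a (b (a (l 16218176) (l 16179240)) (a (l 16255104) (l 16216112))) (b (l 16266720) (l 16221392)))))), by decide +kernel⟩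

def k1_pm_012_s : ∃ t, chk3 f_pm_012_s t 8 3 1 = true :=
  ⟨(b (b (a (b (a (a (l 16557912) (l 16472296)) (b (l 16407528) (l 16427952))) (a (b (l 16495008) (l 16516496)) (b (l 16448496) (l 16469000)))) (a (b (l 16415904) (b (l 16403016) (l 16422528))) (b (l 16352296) (l 16367992)))) (a (b (a (b (l 16537792) (l 16558808)) (a (l 16553560) (l 16487408))) (a (a (l 16623184) (l 16576816)) (l 16560016))) (a (b (b (l 16441936) (l 16461168)) (b (l 16480096) (l 16498640))) (b (l 16404776) (l 16482744))))) (b (a (a (b (b (l 16640000) (a (l 16650920) (l 16624816))) (b (a (l 16690336) (l 16643104)) (a (c (l 16697648) (l 16708800)) (l 16660912)))) (b (c (l 16614520) (b (l 16586896) (l 16605040))) (a (b (l 16637400) (l 16654760)) (b (l 16589992) (l 16606912))))) (b (b (a (l 16516640) (l 16466816)) (a (l 16534008) (l 16483448))) (a (b (l 16571784) (a (l 16580272) (l 16553896))) (b (l 16499448) (l 16514856))))) (a (b (b (a (a (b (l 16711408) (a (l 14) (l 16703296))) (a (l 16685104)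 (l 16681736))) (a (a (l 16657464) (l 16643720)) (l 16644216))) (b (a (a (l 14) (l 16690632)) (a (l 16662728) (l 16635056))) (a (l 14) (a (l 16681040) (l 16642664))))) (a (l 14) (b (a (l 14) (b (l 16671016) (l 14))) (l 14)))) (b (a (b (a (l 16596152) (l 16569312)) (a (b (l 16607600) (l 16614992)) (l 16584008))) (b (l 16561048) (a (l 16556984) (l 16530240)))) (a (b (a (b (l 16622144) (l 16629040)) (b (l 16594480) (l 16601144))) (b (a (l 14) (l 16607520)) (l 14))) (b (b (l 16574464) (a (l 16573520) (l 16546160))) (b (a (l 16579664) (l 16552072)) (a (l 16603840) (l 16557664))))))))), by decide +kernel⟩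

def k2_pm_012_s : ∃ t, chk3 f_pm_012_s t 9 3 1 = true :=
  ⟨(b (b (a (b (a (l 16290056) (l 16249960)) (a (l 16324672) (l 16282648))) (b (a (l 16210928) (l 16172784)) (a (l 16242168) (l 16203096)))) (a (b (a (l 16359200) (l 16315104)) (a (l 16393368) (l 16347176))) (b (a (l 16272632) (l 16231720)) (a (l 16302440) (l 16259448))))) (b (b (a (a (l 16467944) (l 16398984)) (a (l 16331368) (l 16286192))) (a (a (b (l 16449128) (l 16463712)) (b (l 16399888) (l 16413688))) (a (b (l 16351840) (l 16364808)) (b (l 16305192) (l 16317192))))) (b (a (a (b (l 16477584) (l 16522088)) (b (l 16426712) (l 16459832))) (a (b (l 16377000) (l 16388240)) (b (l 16328472) (l 16338808)))) (a (b (a (b (l 16499808) (l 16505608)) (b (l 16447304) (l 16452600))) (a (b (l 16533904) (a (l 16530048) (l 16502728))) (b (l 16478576) (a (l 16475720) (l 16448960))))) (b (a (b (l 16395984) (l 16400776)) (a (l 16360520) (l 16335624))) (a (b (l 16405240) (a (l 16422528) (l 16396368))) (a (l 16389656) (l 16364216)))))))),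 by decide +kernel⟩

def k3_pm_012_s : ∃ t, chk3 f_pm_012_s t 5 1 1 = true :=
  ⟨(b (b (l 6) (l 6)) (b (a (b (a (a (b (l 6) (l 16165376)) (l 6)) (l 6)) (a (a (b (l 16192680) (l 16218416)) (a (b (l 16164616) (l 16188936)) (b (l 6) (a (l 16174920) (l 16229784))))) (b (l 6) (a (l 16143440) (l 6))))) (l 6)) (b (a (a (a (b (l 16284728) (b (l 16260152) (l 16271072))) (a (b (l 16211624) (l 16232688)) (b (a (l 16196672) (a (l 16189576) (l 16185224))) (a (l 16216696) (a (l 16208920) (l 16203936)))))) (b (a (l 16163232) (l 6)) (a (l 16201624) (l 16142232)))) (l 6)) (a (a (a (b (b (l 16281288) (l 16290592)) (b (a (l 16311000) (l 16286664)) (a (l 16360008) (l 16314120)))) (a (b (b (l 16246928) (l 16255320)) (b (l 16262568) (c (l 16279400) (l 16257080)))) (b (a (l 16234144) (a (l 16225616) (b (l 16216232) (l 16223248)))) (a (b (l 16244592) (l 16249816)) (a (b (l 16235448) (l 16240224)) (b (l 16229056) (c (a (l 16310080) (l 16244280)) (l 16220768)))))))) (b (a (b (l 16192080) (l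 16198496)) (l 16153464)) (a (b (l 16203688) (a (l 16218856) (l 16196080))) (b (l 16159328) (l 16161568))))) (a (a (b (b (l 6) (l 16115600)) (b (l 16117200) (l 16117576))) (l 6)) (l 6)))))), by decide +kernel⟩

def k4_pm_012_s : ∃ t, chk3 f_pm_012_s t 3 1 1 = true :=
  ⟨(b (l 6) (l 6)), by decide +kernel⟩

theorem s5_pm_012_s : ∃ t, chk3 f_pm_012_s t 4 3 1 = true := ex3_a k1_pm_012_s k2_pm_012_s

theorem s6_pm_012_s : ∃ t, chk3 f_pm_012_s t 4 1 1 = true := ex3_b k0_pm_012_s s5_pm_012_s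

theorem s7_pm_012_s : ∃ t, chk3 f_pm_012_s t 2 1 1 = true := ex3_a s6_pm_012_s k3_pm_012_s

theorem s8_pm_012_s : ∃ t, chk3 f_pm_012_s t 1 1 1 = true := ex3_a s7_pm_012_s k4_pm_012_s

theorem c_pm_012_s : CertNE 0 536870912 536870912 536870912 649613803 48318383 3 eng mog cd0q0 cd8q1 pd2 true true false .pnp 0 1 2
    ndB0q0 ndB8q1 pcB2 cut_pm_012_s Ext.none :=
  certNE2 (fam := true) (s1 := true) (s2 := false) (a := 0) (b := 1) (c := 2) (cn := .pnp) (n1 := ndB0q0) (n2 := ndB8q1) (pc := pcB2) (cut := cut_pm_012_s) (xt := Ext.none) (P1 := 0) (W1 := 536870912) (P2 := 536870912) (W2 := 536870912) (P3 := 649613803) (W3 := 48318383) (N0 := 3) (En := eng) (mo := mog) (C1 := cd0q0) (C2 := cd8q1) (C3 := pd2)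
    rfl (fun _ => rfl) s8_pm_012_s

noncomputable def cut_pm_022_s : Cut := Cut.of [[⟨4, 0, 0, 1449551462⟩], [⟨0, 0, 0, 67108864⟩, ⟨1, 1, 0, 67108864⟩, ⟨2, 1, 0, 67108864⟩]]

noncomputable def f_pm_022_s : ℕ → ℕ → ℕ → ℕ → Bool := onCell 1073741824 536870912 1073741824 536870912 649613803 48318383
    (rowNE 3 eng mog cd0q0 cd8q2 pd2 2 true true false .pp 0 2 2 (qsf 0 536870912 1073741824 536870912 2) ndB0q0 ndB8q2 pcB2 cut_pm_022_s Ext.none)

def k0_pm_022_s : ∃ t, chk3 f_pm_022_s t 4 2 1 = true :=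
  ⟨(a (b (b (a (b (l 14) (b (l 14) (l 1))) (b (a (l 14) (a (l 14) (a (l 14) (b (l 16583904) (l 16595864))))) (a (b (l 14) (a (l 1) (l 594349471095))) (b (a (l 14) (b (l 16622072) (l 16634328))) (a (b (l 14) (l 500933898503)) (b (l 16646104) (l 328061436119))))))) (a (l 1) (a (l 1) (b (b (a (l 1) (l 613139886775)) (l 1)) (l 1))))) (l 1)) (b (a (b (b (a (b (b (a (l 16540112) (l 16512712)) (l 16561912)) (a (l 16575256) (l 16548080))) (b (b (a (l 16485600) (l 16458736)) (l 16507848)) (b (l 16500976) (l 16514464)))) (a (b (b (l 16601952) (l 16629944)) (a (l 16624240) (l 16597136))) (b (a (l 16546880) (l 16520384)) (a (l 16591456) (l 16544016))))) (b (a (b (a (l 371011083479) (l 16618560)) (l 562137102327)) (b (l 16599744) (a (l 333966933623) (l 16585416)))) (a (l 1) (b (l 532609137783) (l 1))))) (b (b (b (a (a (l 16460688) (l 16413488)) (a (l 16387536) (l 16382856))) (a (a (l 16468176) (l 16442064)) (a (l 16416248) (l 16390728)))) (a (b (l 16481152) (l 16567800)) (b (l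 16450760) (l 16453872)))) (a (b (b (a (l 16539736) (l 16514000)) (l 16546664)) (b (l 204044145511) (l 498249335191))) (a (b (b (l 16488456) (l 16508656)) (l 115997329015)) (b (b (l 16463368) (l 16483536)) (l 16510416)))))) (a (l 1) (b (a (l 1) (b (b (l 425234866695) (l 1)) (l 1))) (l 1))))), by decide +kernel⟩

def k1_pm_022_s : ∃ t, chk3 f_pm_022_s t 10 2 1 = true :=
  ⟨(b (b (a (a (b (b (a (l 16357472) (l 16311344)) (a (l 16365464) (l 16340440))) (b (l 16400368) (l 16403736))) (a (b (b (c (l 16296728) (l 16275656)) (l 16315528)) (b (l 16342248) (l 16366696))) (a (b (b (l 16267480) (l 16296752)) (l 16336000)) (b (a (b (l 16257656) (l 16286928)) (b (b (b (l 16301768) (l 16246680)) (l 16258088)) (l 16300704))) (a (l 16326152) (b (l 16306416) (l 16330824))))))) (b (a (b (a (l 16235904) (l 16212992)) (l 16253816)) (b (l 16178112) (l 16208024))) (a (b (l 16280672) (l 16305200)) (l 16248024)))) (b (a (a (a (l 16511528) (l 16424072)) (a (l 16399448) (a (l 16380800) (a (l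 16370912) (l 16405448))))) (a (l 16359056) (l 16293672))) (a (a (b (a (l 16477232) (l 16452432)) (l 16539120)) (a (b (l 16427768) (l 16465592)) (a (l 16417632) (a (l 16407832) (l 16463256))))) (a (l 16417080) (l 16331536))))) (b (b (a (a (b (l 85395628775) (l 343630474679)) (a (l 35466569463) (a (b (l 16440880) (l 16454312)) (a (b (l 16430456) (l 16443952)) (a (a (a (l 16454048) (a (l 16452992) (b (l 16424472) (l 16437128)))) (l 16429968)) (l 16427872)))))) (a (b (l 16397928) (l 16431632)) (l 16361672))) (a (a (l 1) (a (l 1) (a (l 1) (a (l 1) (a (l 1) (l 16450648)))))) (b (a (l 16422472) (l 16380128)) (l 42982674743)))) (a (l 1) (b (a (l 1) (l 160557440151)) (l 1))))), by decide +kernel⟩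

def k2_pm_022_s : ∃ t, chk3 f_pm_022_s t 11 2 1 = true :=
  ⟨(b (b (b (a (b (a (l 16133440) (l 16133592)) (a (l 16163776) (l 16122232))) (l 6)) (a (b (l 16170560) (l 16196080)) (b (l 6) (l 16119376)))) (b (a (l 16293312) (l 16154280)) (a (l 16353368) (l 16194416)))) (b (b (a (l 16384968) (l 16227216)) (a (b (l 16320208) (l 16331072)) (l 16294976))) (b (a (b (l 16339776) (l 16345816)) (l 16271776)) (a (l 236793056695) (l 16281216))))), by decide +kernel⟩

def k3_pm_022_s : ∃ t, chk3 f_pm_022_s t 3 2 1 = true :=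
  ⟨(a (a (b (l 6) (a (b (b (l 16162048) (l 16188168)) (b (l 16207776) (l 16219208))) (l 6))) (l 6)) (l 6)), by decide +kernel⟩

def k4_pm_022_s : ∃ t, chk3 f_pm_022_s t 1 3 1 = true :=
  ⟨(a (a (l 1) (a (l 1) (b (b (a (l 1) (b (l 237866671271) (l 1))) (l 1)) (l 1)))) (a (a (b (b (b (a (l 16219936) (l 16167408)) (a (l 258804498775) (l 16157336))) (b (a (l 1) (l 341482357463)) (l 1))) (l 1)) (a (b (l 6) (l 1)) (l 6))) (l 6))), by decide +kernel⟩

theorem s5_pm_022_s : ∃ t, chk3 f_pm_022_s t 5 2 1 = true := ex3_a k1_pm_022_s k2_pm_022_s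

theorem s6_pm_022_s : ∃ t, chk3 f_pm_022_s t 2 2 1 = true := ex3_a k0_pm_022_s s5_pm_022_s

theorem s7_pm_022_s : ∃ t, chk3 f_pm_022_s t 1 2 1 = true := ex3_a s6_pm_022_s k3_pm_022_s

theorem s8_pm_022_s : ∃ t, chk3 f_pm_022_s t 1 1 1 = true := ex3_b s7_pm_022_s k4_pm_022_s

theorem c_pm_022_s : CertNE 0 536870912 1073741824 536870912 649613803 48318383 3 eng mog cd0q0 cd8q2 pd2 true true false .pp 0 2 2
    ndB0q0 ndB8q2 pcB2 cut_pm_022_s Ext.none :=
  certNE2 (fam := true) (s1 := true) (s2 := false) (a := 0) (b := 2) (c := 2) (cn := .pp) (n1 := ndB0q0) (n2 := ndB8q2) (pc := pcB2) (cut := cut_pm_022_s) (xt := Ext.none) (P1 := 0) (W1 := 536870912) (P2 := 1073741824) (W2 := 536870912) (P3 := 649613803) (W3 := 48318383) (N0 := 3) (En := eng) (mo := mog) (C1 := cd0q0) (C2 := cd8q2) (C3 := pd2)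
    rfl (fun _ => rfl) s8_pm_022_s

noncomputable def cut_pm_023_s : Cut := Cut.of [[⟨4, 0, 0, 1449551462⟩]]

noncomputable def f_pm_023_s : ℕ → ℕ → ℕ → ℕ → Bool := onCell 1610612736 536870912 1073741824 536870912 649613803 48318383
    (rowNE 3 eng mog cd0q0 cd8q2 pd3 2 true true false .up 0 2 3 (qsf 0 536870912 1073741824 536870912 3) ndB0q0 ndB8q2 pcB3 cut_pm_023_s Ext.none)

def k0_pm_023_s : ∃ t, chk3 f_pm_023_s t 1 1 1 = true :=
  ⟨(a (l 6) (l 6)), by decide +kernel⟩

theorem c_pm_023_s : CertNE 0 536870912 1073741824 536870912 649613803 48318383 3 eng mog cd0q0 cd8q2 pd3 true true false .up 0 2 3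
    ndB0q0 ndB8q2 pcB3 cut_pm_023_s Ext.none :=
  certNE2 (fam := true) (s1 := true) (s2 := false) (a := 0) (b := 2) (c := 3) (cn := .up) (n1 := ndB0q0) (n2 := ndB8q2) (pc := pcB3) (cut := cut_pm_023_s) (xt := Ext.none) (P1 := 0) (W1 := 536870912) (P2 := 1073741824) (W2 := 536870912) (P3 := 649613803) (W3 := 48318383) (N0 := 3) (En := eng) (mo := mog) (C1 := cd0q0) (C2 := cd8q2) (C3 := pd3)
    rfl (fun _ => rfl) k0_pm_023_s

noncomputable def cut_pm_033_s : Cut := Cut.of [[⟨4, 0, 0, 1449551462⟩]]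

noncomputable def f_pm_033_s : ℕ → ℕ → ℕ → ℕ → Bool := onCell 1610612736 536870912 0 1230186008 649613803 48318383
    (rowNE 3 eng mog cd0q0 cd8q3 pd3 2 true true false .pnn 0 3 3 (qsf 0 536870912 0 1230186008 3) ndB0q0 ndB8q3 pcB3 cut_pm_033_s Ext.none)

def k0_pm_033_s : ∃ t, chk3 f_pm_033_s t 1 1 1 = true :=
  ⟨(b (l 6) (l 6)), by decide +kernel⟩

theorem c_pm_033_s : CertNE 0 536870912 0 1230186008 649613803 48318383 3 eng mog cd0q0 cd8q3 pd3 true true false .pnn 0 3 3
    ndB0q0 ndB8q3 pcB3 cut_pm_033_s Ext.none :=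
  certNE2 (fam := true) (s1 := true) (s2 := false) (a := 0) (b := 3) (c := 3) (cn := .pnn) (n1 := ndB0q0) (n2 := ndB8q3) (pc := pcB3) (cut := cut_pm_033_s) (xt := Ext.none) (P1 := 0) (W1 := 536870912) (P2 := 0) (W2 := 1230186008) (P3 := 649613803) (W3 := 48318383) (N0 := 3) (En := eng) (mo := mog) (C1 := cd0q0) (C2 := cd8q3) (C3 := pd3)
    rfl (fun _ => rfl) k0_pm_033_s

noncomputable def cut_pm_101_s : Cut := Cut.of [[⟨4, 0, 0, 1449551462⟩]]

noncomputable def f_pm_101_s : ℕ → ℕ → ℕ → ℕ → Bool := onCell 536870912 536870912 536870912 536870912 649613803 48318383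
    (rowNE 3 eng mog cd0q1 cd8q0 pd1 1 true true false .npn 1 0 1 (qsf 536870912 536870912 0 536870912 1) ndB0q1 ndB8q0 pcB1 cut_pm_101_s Ext.none)

def k0_pm_101_s : ∃ t, chk3 f_pm_101_s t 4 8 1 = true :=
  ⟨(a (l 3) (a (a (l 3) (l 1)) (l 1))), by decide +kernel⟩

def k1_pm_101_s : ∃ t, chk3 f_pm_101_s t 8 18 1 = true :=
  ⟨(a (l 3) (b (l 3) (a (l 3) (b (l 3) (a (l 3) (b (l 3) (b (l 3) (a (l 3) (a (l 3) (c (l 322827178631) (a (l 448991853655) (l 257865803239)))))))))))), by decide +kernel⟩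

def k2_pm_101_s : ∃ t, chk3 f_pm_101_s t 8 19 1 = true :=
  ⟨(a (b (l 3) (a (l 3) (b (l 3) (a (l 3) (a (l 3) (c (l 457581775399) (b (l 3) (b (l 519858810935) (c (l 321216561239) (l 315310981207)))))))))) (b (a (b (l 3) (a (l 3) (b (l 3) (a (l 3) (c (l 438791305383) (b (l 575693386183) (a (l 568714065671) (l 292225538551)))))))) (b (b (a (l 3) (b (a (l 3) (c (a (l 323364049751) (l 16776024)) (c (l 167134613671) (a (l 331953985127) (l 16775744))))) (c (a (l 417853340535) (l 16775320)) (a (a (l 3) (l 326048405175)) (l 16774968))))) (a (a (l 3) (a (l 3) (b (l 3) (c (l 16771632) (l 315310986327))))) (c (a (b (l 161765904919) (l 16775256)) (l 16773256)) (a (b (a (l 315847857239) (l 16775728)) (l 16774880)) (l 16772512))))) (a (c (b (a (l 447381239831) (b (l 155323454503) (l 16775176))) (a (l 16773120) (l 16773088))) (b (a (b (l 3) (a (l 577840870999) (l 309942278023))) (b (a (l 315310986823) (l 16775640)) (l 16774792))) (a (b (a (l 301352343671) (l 16775536)) (l 16774680))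 (l 16772320)))) (c (a (l 16771792) (l 16769120)) (a (l 16766848) (l 16767608)))))) (a (b (a (b (l 3) (a (l 3) (c (l 417853340183) (b (l 550460453719) (a (l 522543167671) (l 184314486887)))))) (c (b (a (l 429664500055) (l 16775640)) (l 16774184)) (b (a (b (l 568714064519) (a (l 546165487575) (l 272361315399))) (a (b (l 281488121015) (l 16775352)) (l 16774584))) (a (c (l 16772672) (l 81235270647)) (l 16772048))))) (a (c (b (a (l 404968438503) (l 16775400)) (l 16773888)) (b (a (b (l 539723035719) (a (l 494625880503) (l 160155296695))) (c (l 16775144) (l 16774984))) (c (l 31843148151) (l 16773128)))) (c (l 16769936) (a (l 16770192) (l 16767016))))) (a (c (b (l 16770232) (l 16764616)) (b (a (l 16770528) (l 16767368)) (l 16762296))) (c (l 16762136) (l 16759336)))))), by decide +kernel⟩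

def k3_pm_101_s : ∃ t, chk3 f_pm_101_s t 18 18 1 = true :=
  ⟨(b (a (b (l 3) (a (l 3) (b (l 3) (b (l 3) (a (l 3) (a (l 3) (c (c (l 16777056) (l 317458468919)) (a (b (l 3) (l 417853338583)) (b (a (l 573545905351) (l 1)) (l 16776080)))))))))) (b (l 1) (b (l 1) (b (l 1) (b (l 1) (a (a (a (c (l 16775816) (l 16775544)) (l 1)) (l 1)) (l 1))))))) (a (b (b (a (l 3) (a (a (l 3) (b (l 3) (c (c (l 16777056) (l 319069081671)) (a (l 474761657255) (b (l 416242728487) (l 16776728)))))) (c (c (l 16770896) (c (b (l 171429580167) (l 16775424)) (l 122574326711))) (a (b (a (a (l 577840872023) (l 452213076647)) (b (l 417316467687) (l 16776736))) (l 16775936)) (b (c (l 16775992) (l 16775888)) (l 16774336)))))) (a (b (l 3) (a (l 3) (a (l 3) (a (c (l 328195889479) (l 469392948167)) (c (l 279877510023) (a (l 317458474199) (l 152102235527))))))) (c (a (c (l 16770888) (c (l 123111197703) (l 122574326775))) (l 16773440)) (a (a (b (a (l 472614173623) (b (l 413558373943) (l 16776720))) (l 16775920))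 (b (l 16775928) (l 16774320))) (l 16772728))))) (b (a (a (a (l 3) (b (l 3) (c (l 322290307479) (a (l 460803013639) (l 267529479255))))) (c (c (l 16776112) (c (l 16770784) (l 121500585143))) (a (b (b (l 467245464551) (l 270213832535)) (l 16775880)) (l 16775096)))) (c (a (l 16773424) (l 16770736)) (a (l 16772704) (l 16769512)))) (a (c (a (b (a (l 323900920423) (l 16776072)) (l 16775384)) (l 16773384)) (a (a (b (a (l 455434304567) (l 263234512087)) (l 16775832)) (l 16775048)) (l 16772656))) (c (l 16769360) (l 16767872))))) (a (b (c (b (a (l 16773456) (l 16770824)) (l 16769416)) (a (b (l 16772736) (l 16769528)) (l 16767968))) (c (l 16765352) (l 16763104))) (c (l 88617251063) (l 16770568))))), by decide +kernel⟩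

def k4_pm_101_s : ∃ t, chk3 f_pm_101_s t 19 18 1 = true :=
  ⟨(b (l 1) (a (c (l 123513855655) (l 16772280)) (l 1))), by decide +kernel⟩

def k5_pm_101_s : ∃ t, chk3 f_pm_101_s t 9 19 1 = true :=
  ⟨(a (b (a (b (a (c (b (a (l 16773328) (l 16770648)) (l 16769232)) (b (a (l 16772592) (l 16769408)) (l 16767728))) (c (l 16765256) (l 16763000))) (c (l 16772952) (l 16759688))) (c (b (l 16757232) (l 16751888)) (l 16771232))) (a (c (l 16775256) (l 16750000)) (c (l 16743912) (l 16737664)))) (b (a (c (l 16744128) (l 16737824)) (l 16730600)) (a (l 16729400) (l 16718104)))), by decide +kernel⟩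

def k6_pm_101_s : ∃ t, chk3 f_pm_101_s t 5 4 1 = true :=
  ⟨(a (b (l 1) (b (l 1) (a (b (l 1) (l 16704480)) (l 1)))) (l 1)), by decide +kernel⟩

def k7_pm_101_s : ∃ t, chk3 f_pm_101_s t 4 10 1 = true :=
  ⟨(a (b (a (b (a (b (l 3) (a (l 3) (b (l 3) (a (c (l 560124129271) (l 565492837543)) (c (l 322290297463) (c (l 323900910279) (l 317458464663))))))) (b (a (b (l 3) (a (l 3) (c (l 326048391799) (c (a (l 464024238199) (l 306184177383)) (l 349670724743))))) (c (b (a (l 373293055191) (l 16775080)) (l 16773528)) (c (b (a (b (l 497310234343) (l 320679691463)) (l 16774792)) (l 16773032)) (b (a (b (l 495162750487) (l 313700369575)) (l 16774600)) (l 16772704))))) (a (b (a (c (l 324437779863) (c (l 324974655975) (l 329806501367))) (c (l 16774720) (l 16775592))) (c (l 16773136) (a (l 16774040) (l 16770800)))) (c (l 16769120) (l 16778160))))) (a (b (a (b (a (l 3) (b (l 3) (l 547239228535))) (a (b (l 3) (l 524690650631)) (c (l 309405398519) (c (l 309942269639) (a (l 323900914791)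 (l 16775880)))))) (c (b (a (l 322290299191) (l 16774296)) (l 16772656)) (a (b (c (l 322290299143) (a (l 324974656007) (l 16776152))) (l 16773504)) (l 16775944)))) (a (b (a (c (l 227264150727) (c (l 226190409143) (c (l 219747958103) (l 219211087463)))) (l 16776112)) (c (l 16772080) (l 16771216))) (c (l 16768056) (l 16776968)))) (a (b (c (l 16768640) (l 16777624)) (l 16761272)) (c (l 16760120) (l 16757120))))) (b (c (a (a (l 16767600) (l 16761288)) (l 16753432)) (a (a (b (a (l 16769760) (l 16766568)) (l 16761272)) (l 16758400)) (l 16749080))) (a (c (l 16752080) (l 16747616)) (l 16738544)))) (a (b (a (b (a (l 16777000) (l 16760464)) (c (l 16758024) (l 16754824))) (c (l 16750264) (l 16745648))) (a (b (l 16749088) (l 16741424)) (l 16733264))) (b (a (l 16736296) (l 16725112)) (l 16757848)))) (b (a (b (a (l 16761016) (l 16728976)) (a (l 16727544) (l 16716656))) (b (a (l 16717784) (l 16706648)) (l 16700232))) (a (b (a (l 16714256) (l 16703456)) (l 16694328)) (l 16679672)))),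 by decide +kernel⟩

def k8_pm_101_s : ∃ t, chk3 f_pm_101_s t 4 11 1 = true :=
  ⟨(a (b (a (b (a (l 16729128) (l 16717096)) (l 16704752)) (b (a (l 16705464) (l 16694264)) (l 16681824))) (a (b (a (l 16690568) (l 16678448)) (l 16682728)) (l 16651272))) (b (a (l 16669488) (l 16648720)) (l 16683864))), by decide +kernel⟩

def k9_pm_101_s : ∃ t, chk3 f_pm_101_s t 5 5 1 = true :=
  ⟨(b (a (a (b (l 16684232) (l 16657384)) (l 16652648)) (a (l 16639496) (l 1))) (a (a (l 16611312) (l 16591968)) (a (l 16573520) (l 16558960)))), by decide +kernel⟩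

def k10_pm_101_s : ∃ t, chk3 f_pm_101_s t 3 2 1 = true :=
  ⟨(a (b (l 1) (a (b (l 1) (l 128882555655)) (l 1))) (l 1)), by decide +kernel⟩

def k11_pm_101_s : ∃ t, chk3 f_pm_101_s t 1 3 1 = true :=
  ⟨(a (b (a (b (a (b (a (l 16602536) (l 16603184)) (a (l 16563088) (l 16545744))) (a (l 16600560) (l 16543880))) (a (a (b (l 16485736) (l 16391312)) (b (l 16474000) (l 16387856))) (b (l 16500064) (a (l 16384416) (l 16381088))))) (a (b (a (l 16529880) (l 16516336)) (a (b (l 16447568) (l 16378640)) (l 16410312))) (b (a (l 16503920) (l 16487424)) (a (l 16405080) (l 6))))) (a (b (a (a (b (l 16300504) (l 16258080)) (b (l 16283936) (l 16175008))) (b (l 16269024) (l 16221280))) (a (b (a (l 16173600) (l 16116024)) (a (l 16110856) (l 16057480))) (a (l 16120664) (l 6)))) (a (b (a (l 16249984) (l 6)) (l 6)) (l 6)))) (a (b (a (l 6) (l 6)) (l 6)) (l 6))), by decide +kernel⟩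

theorem s12_pm_101_s : ∃ t, chk3 f_pm_101_s t 4 5 1 = true := ex3_b k7_pm_101_s k8_pm_101_s

theorem s13_pm_101_s : ∃ t, chk3 f_pm_101_s t 2 5 1 = true := ex3_a s12_pm_101_s k9_pm_101_s

theorem s14_pm_101_s : ∃ t, chk3 f_pm_101_s t 9 18 1 = true := ex3_a k3_pm_101_s k4_pm_101_s

theorem s15_pm_101_s : ∃ t, chk3 f_pm_101_s t 9 9 1 = true := ex3_b s14_pm_101_s k5_pm_101_s

theorem s16_pm_101_s : ∃ t, chk3 f_pm_101_s t 8 9 1 = true := ex3_b k1_pm_101_s k2_pm_101_s

theorem s17_pm_101_s : ∃ t, chk3 f_pm_101_s t 4 9 1 = true := ex3_a s16_pm_101_s s15_pm_101_s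

theorem s18_pm_101_s : ∃ t, chk3 f_pm_101_s t 4 4 1 = true := ex3_b k0_pm_101_s s17_pm_101_s

theorem s19_pm_101_s : ∃ t, chk3 f_pm_101_s t 2 4 1 = true := ex3_a s18_pm_101_s k6_pm_101_s

theorem s20_pm_101_s : ∃ t, chk3 f_pm_101_s t 2 2 1 = true := ex3_b s19_pm_101_s s13_pm_101_s

theorem s21_pm_101_s : ∃ t, chk3 f_pm_101_s t 1 2 1 = true := ex3_a s20_pm_101_s k10_pm_101_s

theorem s22_pm_101_s : ∃ t, chk3 f_pm_101_s t 1 1 1 = true := ex3_b s21_pm_101_s k11_pm_101_s

theorem c_pm_101_s : CertNE 536870912 536870912 0 536870912 649613803 48318383 3 eng mog cd0q1 cd8q0 pd1 true true false .npn 1 0 1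
    ndB0q1 ndB8q0 pcB1 cut_pm_101_s Ext.none :=
  certNE1 (fam := true) (s1 := true) (s2 := false) (a := 1) (b := 0) (c := 1) (cn := .npn) (n1 := ndB0q1) (n2 := ndB8q0) (pc := pcB1) (cut := cut_pm_101_s) (xt := Ext.none) (P1 := 536870912) (W1 := 536870912) (P2 := 0) (W2 := 536870912) (P3 := 649613803) (W3 := 48318383) (N0 := 3) (En := eng) (mo := mog) (C1 := cd0q1) (C2 := cd8q0) (C3 := pd1)
    rfl (fun _ => rfl) s22_pm_101_s

noncomputable def cut_pm_102_s : Cut := Cut.of [[⟨4, 0, 0, 1449551462⟩]]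

noncomputable def f_pm_102_s : ℕ → ℕ → ℕ → ℕ → Bool := onCell 536870912 536870912 1073741824 536870912 649613803 48318383
    (rowNE 3 eng mog cd0q1 cd8q0 pd2 1 true true false .npp 1 0 2 (qsf 536870912 536870912 0 536870912 2) ndB0q1 ndB8q0 pcB2 cut_pm_102_s Ext.none)

def k0_pm_102_s : ∃ t, chk3 f_pm_102_s t 1 1 1 = true :=
  ⟨(a (b (a (b (b (a (b (a (l 6) (l 6)) (l 6)) (l 6)) (l 6)) (l 6)) (l 6)) (l 6)) (l 6)), by decide +kernel⟩

theorem c_pm_102_s : CertNE 536870912 536870912 0 536870912 649613803 48318383 3 eng mog cd0q1 cd8q0 pd2 true true false .npp 1 0 2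
    ndB0q1 ndB8q0 pcB2 cut_pm_102_s Ext.none :=
  certNE1 (fam := true) (s1 := true) (s2 := false) (a := 1) (b := 0) (c := 2) (cn := .npp) (n1 := ndB0q1) (n2 := ndB8q0) (pc := pcB2) (cut := cut_pm_102_s) (xt := Ext.none) (P1 := 536870912) (W1 := 536870912) (P2 := 0) (W2 := 536870912) (P3 := 649613803) (W3 := 48318383) (N0 := 3) (En := eng) (mo := mog) (C1 := cd0q1) (C2 := cd8q0) (C3 := pd2)
    rfl (fun _ => rfl) k0_pm_102_s

noncomputable def cut_pm_112_s : Cut := Cut.of [[⟨4, 0, 0, 1449551462⟩]]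

noncomputable def f_pm_112_s : ℕ → ℕ → ℕ → ℕ → Bool := onCell 536870912 536870912 536870912 536870912 649613803 48318383
    (rowNE 3 eng mog cd0q1 cd8q1 pd2 0 true true false .dn 1 1 2 (qsf 536870912 536870912 536870912 536870912 2) ndB0q1 ndB8q1 pcB2 cut_pm_112_s Ext.none)

def k0_pm_112_s : ∃ t, chk3 f_pm_112_s t 1 1 1 = true :=
  ⟨(a (b (a (b (a (b (a (b (l 6) (l 6)) (l 6)) (l 6)) (l 6)) (l 6)) (l 6)) (l 6)) (l 6)), by decide +kernel⟩

theorem c_pm_112_s : CertNE 536870912 536870912 536870912 536870912 649613803 48318383 3 eng mog cd0q1 cd8q1 pd2 true true false .dn 1 1 2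
    ndB0q1 ndB8q1 pcB2 cut_pm_112_s Ext.none :=
  certNE0 (fam := true) (s1 := true) (s2 := false) (a := 1) (b := 1) (c := 2) (cn := .dn) (n1 := ndB0q1) (n2 := ndB8q1) (pc := pcB2) (cut := cut_pm_112_s) (xt := Ext.none) (P1 := 536870912) (W1 := 536870912) (P2 := 536870912) (W2 := 536870912) (P3 := 649613803) (W3 := 48318383) (N0 := 3) (En := eng) (mo := mog) (C1 := cd0q1) (C2 := cd8q1) (C3 := pd2)
    rfl k0_pm_112_s

noncomputable def cut_pm_113_s : Cut := Cut.of [[⟨4, 0, 0, 1449551462⟩]]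

noncomputable def f_pm_113_s : ℕ → ℕ → ℕ → ℕ → Bool := onCell 536870912 536870912 1610612736 536870912 649613803 48318383
    (rowNE 3 eng mog cd0q1 cd8q1 pd3 1 true true false .nn 1 1 3 (qsf 536870912 536870912 536870912 536870912 3) ndB0q1 ndB8q1 pcB3 cut_pm_113_s Ext.none)

def k0_pm_113_s : ∃ t, chk3 f_pm_113_s t 1 1 1 = true :=
  ⟨(l 6), by decide +kernel⟩

theorem c_pm_113_s : CertNE 536870912 536870912 536870912 536870912 649613803 48318383 3 eng mog cd0q1 cd8q1 pd3 true true false .nn 1 1 3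
    ndB0q1 ndB8q1 pcB3 cut_pm_113_s Ext.none :=
  certNE1 (fam := true) (s1 := true) (s2 := false) (a := 1) (b := 1) (c := 3) (cn := .nn) (n1 := ndB0q1) (n2 := ndB8q1) (pc := pcB3) (cut := cut_pm_113_s) (xt := Ext.none) (P1 := 536870912) (W1 := 536870912) (P2 := 536870912) (W2 := 536870912) (P3 := 649613803) (W3 := 48318383) (N0 := 3) (En := eng) (mo := mog) (C1 := cd0q1) (C2 := cd8q1) (C3 := pd3)
    rfl (fun _ => rfl) k0_pm_113_s

noncomputable def cut_pm_123_s : Cut := Cut.of [[⟨4, 0, 0, 1449551462⟩]]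

noncomputable def f_pm_123_s : ℕ → ℕ → ℕ → ℕ → Bool := onCell 536870912 536870912 1073741824 536870912 649613803 48318383
    (rowNE 3 eng mog cd0q1 cd8q2 pd3 0 true true false .npn 1 2 3 (qsf 536870912 536870912 1073741824 536870912 3) ndB0q1 ndB8q2 pcB3 cut_pm_123_s Ext.none)

def k0_pm_123_s : ∃ t, chk3 f_pm_123_s t 1 1 1 = true :=
  ⟨(l 6), by decide +kernel⟩

theorem c_pm_123_s : CertNE 536870912 536870912 1073741824 536870912 649613803 48318383 3 eng mog cd0q1 cd8q2 pd3 true true false .npn 1 2 3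
    ndB0q1 ndB8q2 pcB3 cut_pm_123_s Ext.none :=
  certNE0 (fam := true) (s1 := true) (s2 := false) (a := 1) (b := 2) (c := 3) (cn := .npn) (n1 := ndB0q1) (n2 := ndB8q2) (pc := pcB3) (cut := cut_pm_123_s) (xt := Ext.none) (P1 := 536870912) (W1 := 536870912) (P2 := 1073741824) (W2 := 536870912) (P3 := 649613803) (W3 := 48318383) (N0 := 3) (En := eng) (mo := mog) (C1 := cd0q1) (C2 := cd8q2) (C3 := pd3)
    rfl k0_pm_123_s

noncomputable def cut_pm_133_s : Cut := Cut.of [[⟨4, 0, 0, 1449551462⟩]]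

noncomputable def f_pm_133_s : ℕ → ℕ → ℕ → ℕ → Bool := onCell 536870912 536870912 0 1230186008 649613803 48318383
    (rowNE 3 eng mog cd0q1 cd8q3 pd3 0 true true false .dn 1 3 3 (qsf 536870912 536870912 0 1230186008 3) ndB0q1 ndB8q3 pcB3 cut_pm_133_s Ext.none)

def k0_pm_133_s : ∃ t, chk3 f_pm_133_s t 1 1 1 = true :=
  ⟨(l 6), by decide +kernel⟩

theorem c_pm_133_s : CertNE 536870912 536870912 0 1230186008 649613803 48318383 3 eng mog cd0q1 cd8q3 pd3 true true false .dn 1 3 3
    ndB0q1 ndB8q3 pcB3 cut_pm_133_s Ext.none :=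
  certNE0 (fam := true) (s1 := true) (s2 := false) (a := 1) (b := 3) (c := 3) (cn := .dn) (n1 := ndB0q1) (n2 := ndB8q3) (pc := pcB3) (cut := cut_pm_133_s) (xt := Ext.none) (P1 := 536870912) (W1 := 536870912) (P2 := 0) (W2 := 1230186008) (P3 := 649613803) (W3 := 48318383) (N0 := 3) (En := eng) (mo := mog) (C1 := cd0q1) (C2 := cd8q3) (C3 := pd3)
    rfl k0_pm_133_s

noncomputable def cut_pm_202_s : Cut := Cut.of [[⟨4, 0, 0, 1449551462⟩]]

noncomputable def f_pm_202_s : ℕ → ℕ → ℕ → ℕ → Bool := onCell 0 536870912 0 536870912 649613803 48318383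
    (rowNE 3 eng mog cd0q2 cd8q0 pd2 0 true true false .pp 2 0 2 (qsf 0 536870912 0 536870912 2) ndB0q2 ndB8q0 pcB2 cut_pm_202_s Ext.none)

def k0_pm_202_s : ∃ t, chk3 f_pm_202_s t 1 1 1 = true :=
  ⟨(l 6), by decide +kernel⟩

theorem c_pm_202_s : CertNE 0 536870912 0 536870912 649613803 48318383 3 eng mog cd0q2 cd8q0 pd2 true true false .pp 2 0 2
    ndB0q2 ndB8q0 pcB2 cut_pm_202_s Ext.none :=
  certNE0 (fam := true) (s1 := true) (s2 := false) (a := 2) (b := 0) (c := 2) (cn := .pp) (n1 := ndB0q2) (n2 := ndB8q0) (pc := pcB2) (cut := cut_pm_202_s) (xt := Ext.none) (P1 := 0) (W1 := 536870912) (P2 := 0) (W2 := 536870912) (P3 := 649613803) (W3 := 48318383) (N0 := 3) (En := eng) (mo := mog) (C1 := cd0q2) (C2 := cd8q0) (C3 := pd2)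
    rfl k0_pm_202_s

noncomputable def cut_pm_203_s : Cut := Cut.of [[⟨4, 0, 0, 1449551462⟩]]

noncomputable def f_pm_203_s : ℕ → ℕ → ℕ → ℕ → Bool := onCell 0 536870912 0 536870912 649613803 48318383
    (rowNE 3 eng mog cd0q2 cd8q0 pd3 0 true true false .up 2 0 3 (qsf 0 536870912 0 536870912 3) ndB0q2 ndB8q0 pcB3 cut_pm_203_s Ext.none)

def k0_pm_203_s : ∃ t, chk3 f_pm_203_s t 1 1 1 = true :=
  ⟨(l 6), by decide +kernel⟩

theorem c_pm_203_s : CertNE 0 536870912 0 536870912 649613803 48318383 3 eng mog cd0q2 cd8q0 pd3 true true false .up 2 0 3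
    ndB0q2 ndB8q0 pcB3 cut_pm_203_s Ext.none :=
  certNE0 (fam := true) (s1 := true) (s2 := false) (a := 2) (b := 0) (c := 3) (cn := .up) (n1 := ndB0q2) (n2 := ndB8q0) (pc := pcB3) (cut := cut_pm_203_s) (xt := Ext.none) (P1 := 0) (W1 := 536870912) (P2 := 0) (W2 := 536870912) (P3 := 649613803) (W3 := 48318383) (N0 := 3) (En := eng) (mo := mog) (C1 := cd0q2) (C2 := cd8q0) (C3 := pd3)
    rfl k0_pm_203_s

noncomputable def cut_pm_213_s : Cut := Cut.of [[⟨4, 0, 0, 1449551462⟩]]

noncomputable def f_pm_213_s : ℕ → ℕ → ℕ → ℕ → Bool := onCell 0 536870912 536870912 536870912 649613803 48318383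
    (rowNE 3 eng mog cd0q2 cd8q1 pd3 0 true true false .pnn 2 1 3 (qsf 0 536870912 536870912 536870912 3) ndB0q2 ndB8q1 pcB3 cut_pm_213_s Ext.none)

def k0_pm_213_s : ∃ t, chk3 f_pm_213_s t 1 1 1 = true :=
  ⟨(l 6), by decide +kernel⟩

theorem c_pm_213_s : CertNE 0 536870912 536870912 536870912 649613803 48318383 3 eng mog cd0q2 cd8q1 pd3 true true false .pnn 2 1 3
    ndB0q2 ndB8q1 pcB3 cut_pm_213_s Ext.none :=
  certNE0 (fam := true) (s1 := true) (s2 := false) (a := 2) (b := 1) (c := 3) (cn := .pnn) (n1 := ndB0q2) (n2 := ndB8q1) (pc := pcB3) (cut := cut_pm_213_s) (xt := Ext.none) (P1 := 0) (W1 := 536870912) (P2 := 536870912) (W2 := 536870912) (P3 := 649613803) (W3 := 48318383) (N0 := 3) (En := eng) (mo := mog) (C1 := cd0q2) (C2 := cd8q1) (C3 := pd3)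
    rfl k0_pm_213_s

noncomputable def cut_mm_001_s : Cut := Cut.of [[⟨4, 0, 0, 1449551462⟩]]

noncomputable def f_mm_001_s : ℕ → ℕ → ℕ → ℕ → Bool := onCell 0 536870912 0 536870912 649613803 48318383
    (rowNE 3 eng mog cd0q0 cd8q0 pd1 0 true false false .up 0 0 1 (qsf 0 536870912 0 536870912 1) ndB0q0 ndB8q0 pcB1 cut_mm_001_s Ext.none)

def k0_mm_001_s : ∃ t, chk3 f_mm_001_s t 1 1 1 = true :=
  ⟨(l 4), by decide +kernel⟩

theorem c_mm_001_s : CertNE 0 536870912 0 536870912 649613803 48318383 3 eng mog cd0q0 cd8q0 pd1 true false false .up 0 0 1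
    ndB0q0 ndB8q0 pcB1 cut_mm_001_s Ext.none :=
  certNE0 (fam := true) (s1 := false) (s2 := false) (a := 0) (b := 0) (c := 1) (cn := .up) (n1 := ndB0q0) (n2 := ndB8q0) (pc := pcB1) (cut := cut_mm_001_s) (xt := Ext.none) (P1 := 0) (W1 := 536870912) (P2 := 0) (W2 := 536870912) (P3 := 649613803) (W3 := 48318383) (N0 := 3) (En := eng) (mo := mog) (C1 := cd0q0) (C2 := cd8q0) (C3 := pd1)
    rfl k0_mm_001_s

noncomputable def cut_mm_011_s : Cut := Cut.of [[⟨4, 0, 0, 1449551462⟩]]

noncomputable def f_mm_011_s : ℕ → ℕ → ℕ → ℕ → Bool := onCell 0 536870912 536870912 536870912 649613803 48318383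
    (rowNE 3 eng mog cd0q0 cd8q1 pd1 0 true false false .pnn 0 1 1 (qsf 0 536870912 536870912 536870912 1) ndB0q0 ndB8q1 pcB1 cut_mm_011_s Ext.none)

def k0_mm_011_s : ∃ t, chk3 f_mm_011_s t 1 1 1 = true :=
  ⟨(l 4), by decide +kernel⟩

theorem c_mm_011_s : CertNE 0 536870912 536870912 536870912 649613803 48318383 3 eng mog cd0q0 cd8q1 pd1 true false false .pnn 0 1 1
    ndB0q0 ndB8q1 pcB1 cut_mm_011_s Ext.none :=
  certNE0 (fam := true) (s1 := false) (s2 := false) (a := 0) (b := 1) (c := 1) (cn := .pnn) (n1 := ndB0q0) (n2 := ndB8q1) (pc := pcB1) (cut := cut_mm_011_s) (xt := Ext.none) (P1 := 0) (W1 := 536870912) (P2 := 536870912) (W2 := 536870912) (P3 := 649613803) (W3 := 48318383) (N0 := 3) (En := eng) (mo := mog) (C1 := cd0q0) (C2 := cd8q1) (C3 := pd1)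
    rfl k0_mm_011_s

noncomputable def cut_mm_012_s : Cut := Cut.of [[⟨4, 0, 0, 1449551462⟩]]

noncomputable def f_mm_012_s : ℕ → ℕ → ℕ → ℕ → Bool := onCell 0 536870912 536870912 536870912 649613803 48318383
    (rowNE 3 eng mog cd0q0 cd8q1 pd2 0 true false false .pnp 0 1 2 (qsf 0 536870912 536870912 536870912 2) ndB0q0 ndB8q1 pcB2 cut_mm_012_s Ext.none)

def k0_mm_012_s : ∃ t, chk3 f_mm_012_s t 1 1 1 = true :=
  ⟨(l 4), by decide +kernel⟩

theorem c_mm_012_s : CertNE 0 536870912 536870912 536870912 649613803 48318383 3 eng mog cd0q0 cd8q1 pd2 true false false .pnp 0 1 2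
    ndB0q0 ndB8q1 pcB2 cut_mm_012_s Ext.none :=
  certNE0 (fam := true) (s1 := false) (s2 := false) (a := 0) (b := 1) (c := 2) (cn := .pnp) (n1 := ndB0q0) (n2 := ndB8q1) (pc := pcB2) (cut := cut_mm_012_s) (xt := Ext.none) (P1 := 0) (W1 := 536870912) (P2 := 536870912) (W2 := 536870912) (P3 := 649613803) (W3 := 48318383) (N0 := 3) (En := eng) (mo := mog) (C1 := cd0q0) (C2 := cd8q1) (C3 := pd2)
    rfl k0_mm_012_s

noncomputable def cut_mm_022_s : Cut := Cut.of [[⟨4, 0, 0, 1449551462⟩]]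

noncomputable def f_mm_022_s : ℕ → ℕ → ℕ → ℕ → Bool := onCell 0 536870912 1073741824 536870912 649613803 48318383
    (rowNE 3 eng mog cd0q0 cd8q2 pd2 0 true false false .pp 0 2 2 (qsf 0 536870912 1073741824 536870912 2) ndB0q0 ndB8q2 pcB2 cut_mm_022_s Ext.none)

def k0_mm_022_s : ∃ t, chk3 f_mm_022_s t 1 1 1 = true :=
  ⟨(l 4), by decide +kernel⟩

theorem c_mm_022_s : CertNE 0 536870912 1073741824 536870912 649613803 48318383 3 eng mog cd0q0 cd8q2 pd2 true false false .pp 0 2 2
    ndB0q0 ndB8q2 pcB2 cut_mm_022_s Ext.none :=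
  certNE0 (fam := true) (s1 := false) (s2 := false) (a := 0) (b := 2) (c := 2) (cn := .pp) (n1 := ndB0q0) (n2 := ndB8q2) (pc := pcB2) (cut := cut_mm_022_s) (xt := Ext.none) (P1 := 0) (W1 := 536870912) (P2 := 1073741824) (W2 := 536870912) (P3 := 649613803) (W3 := 48318383) (N0 := 3) (En := eng) (mo := mog) (C1 := cd0q0) (C2 := cd8q2) (C3 := pd2)
    rfl k0_mm_022_s

noncomputable def cut_mm_023_s : Cut := Cut.of [[⟨4, 0, 0, 1449551462⟩]]

noncomputable def f_mm_023_s : ℕ → ℕ → ℕ → ℕ → Bool := onCell 0 536870912 1073741824 536870912 649613803 48318383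
    (rowNE 3 eng mog cd0q0 cd8q2 pd3 0 true false false .up 0 2 3 (qsf 0 536870912 1073741824 536870912 3) ndB0q0 ndB8q2 pcB3 cut_mm_023_s Ext.none)

def k0_mm_023_s : ∃ t, chk3 f_mm_023_s t 1 1 1 = true :=
  ⟨(l 4), by decide +kernel⟩

theorem c_mm_023_s : CertNE 0 536870912 1073741824 536870912 649613803 48318383 3 eng mog cd0q0 cd8q2 pd3 true false false .up 0 2 3
    ndB0q0 ndB8q2 pcB3 cut_mm_023_s Ext.none :=
  certNE0 (fam := true) (s1 := false) (s2 := false) (a := 0) (b := 2) (c := 3) (cn := .up) (n1 := ndB0q0) (n2 := ndB8q2) (pc := pcB3) (cut := cut_mm_023_s) (xt := Ext.none) (P1 := 0) (W1 := 536870912) (P2 := 1073741824) (W2 := 536870912) (P3 := 649613803) (W3 := 48318383) (N0 := 3) (En := eng) (mo := mog) (C1 := cd0q0) (C2 := cd8q2) (C3 := pd3)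
    rfl k0_mm_023_s

noncomputable def cut_mm_033_s : Cut := Cut.of [[⟨4, 0, 0, 1449551462⟩]]

noncomputable def f_mm_033_s : ℕ → ℕ → ℕ → ℕ → Bool := onCell 0 536870912 0 1230186008 649613803 48318383
    (rowNE 3 eng mog cd0q0 cd8q3 pd3 0 true false false .pnn 0 3 3 (qsf 0 536870912 0 1230186008 3) ndB0q0 ndB8q3 pcB3 cut_mm_033_s Ext.none)

def k0_mm_033_s : ∃ t, chk3 f_mm_033_s t 1 1 1 = true :=
  ⟨(l 4), by decide +kernel⟩

theorem c_mm_033_s : CertNE 0 536870912 0 1230186008 649613803 48318383 3 eng mog cd0q0 cd8q3 pd3 true false false .pnn 0 3 3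
    ndB0q0 ndB8q3 pcB3 cut_mm_033_s Ext.none :=
  certNE0 (fam := true) (s1 := false) (s2 := false) (a := 0) (b := 3) (c := 3) (cn := .pnn) (n1 := ndB0q0) (n2 := ndB8q3) (pc := pcB3) (cut := cut_mm_033_s) (xt := Ext.none) (P1 := 0) (W1 := 536870912) (P2 := 0) (W2 := 1230186008) (P3 := 649613803) (W3 := 48318383) (N0 := 3) (En := eng) (mo := mog) (C1 := cd0q0) (C2 := cd8q3) (C3 := pd3)
    rfl k0_mm_033_s

noncomputable def cut_mm_101_s : Cut := Cut.of [[⟨4, 0, 0, 1449551462⟩]]

noncomputable def f_mm_101_s : ℕ → ℕ → ℕ → ℕ → Bool := onCell 536870912 536870912 0 536870912 649613803 48318383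
    (rowNE 3 eng mog cd0q1 cd8q0 pd1 0 true false false .npn 1 0 1 (qsf 536870912 536870912 0 536870912 1) ndB0q1 ndB8q0 pcB1 cut_mm_101_s Ext.none)

def k0_mm_101_s : ∃ t, chk3 f_mm_101_s t 1 1 1 = true :=
  ⟨(l 4), by decide +kernel⟩

theorem c_mm_101_s : CertNE 536870912 536870912 0 536870912 649613803 48318383 3 eng mog cd0q1 cd8q0 pd1 true false false .npn 1 0 1
    ndB0q1 ndB8q0 pcB1 cut_mm_101_s Ext.none :=
  certNE0 (fam := true) (s1 := false) (s2 := false) (a := 1) (b := 0) (c := 1) (cn := .npn) (n1 := ndB0q1) (n2 := ndB8q0) (pc := pcB1) (cut := cut_mm_101_s) (xt := Ext.none) (P1 := 536870912) (W1 := 536870912) (P2 := 0) (W2 := 536870912) (P3 := 649613803) (W3 := 48318383) (N0 := 3) (En := eng) (mo := mog) (C1 := cd0q1) (C2 := cd8q0) (C3 := pd1)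
    rfl k0_mm_101_s

noncomputable def cut_mm_102_s : Cut := Cut.of [[⟨4, 0, 0, 1449551462⟩]]

noncomputable def f_mm_102_s : ℕ → ℕ → ℕ → ℕ → Bool := onCell 536870912 536870912 0 536870912 649613803 48318383
    (rowNE 3 eng mog cd0q1 cd8q0 pd2 0 true false false .npp 1 0 2 (qsf 536870912 536870912 0 536870912 2) ndB0q1 ndB8q0 pcB2 cut_mm_102_s Ext.none)

def k0_mm_102_s : ∃ t, chk3 f_mm_102_s t 1 1 1 = true :=
  ⟨(l 4), by decide +kernel⟩

theorem c_mm_102_s : CertNE 536870912 536870912 0 536870912 649613803 48318383 3 eng mog cd0q1 cd8q0 pd2 true false false .npp 1 0 2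
    ndB0q1 ndB8q0 pcB2 cut_mm_102_s Ext.none :=
  certNE0 (fam := true) (s1 := false) (s2 := false) (a := 1) (b := 0) (c := 2) (cn := .npp) (n1 := ndB0q1) (n2 := ndB8q0) (pc := pcB2) (cut := cut_mm_102_s) (xt := Ext.none) (P1 := 536870912) (W1 := 536870912) (P2 := 0) (W2 := 536870912) (P3 := 649613803) (W3 := 48318383) (N0 := 3) (En := eng) (mo := mog) (C1 := cd0q1) (C2 := cd8q0) (C3 := pd2)
    rfl k0_mm_102_s

noncomputable def cut_mm_112_s : Cut := Cut.of [[⟨4, 0, 0, 1449551462⟩]]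

noncomputable def f_mm_112_s : ℕ → ℕ → ℕ → ℕ → Bool := onCell 536870912 536870912 536870912 536870912 649613803 48318383
    (rowNE 3 eng mog cd0q1 cd8q1 pd2 0 true false false .dn 1 1 2 (qsf 536870912 536870912 536870912 536870912 2) ndB0q1 ndB8q1 pcB2 cut_mm_112_s Ext.none)

def k0_mm_112_s : ∃ t, chk3 f_mm_112_s t 1 1 1 = true :=
  ⟨(l 4), by decide +kernel⟩

theorem c_mm_112_s : CertNE 536870912 536870912 536870912 536870912 649613803 48318383 3 eng mog cd0q1 cd8q1 pd2 true false false .dn 1 1 2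
    ndB0q1 ndB8q1 pcB2 cut_mm_112_s Ext.none :=
  certNE0 (fam := true) (s1 := false) (s2 := false) (a := 1) (b := 1) (c := 2) (cn := .dn) (n1 := ndB0q1) (n2 := ndB8q1) (pc := pcB2) (cut := cut_mm_112_s) (xt := Ext.none) (P1 := 536870912) (W1 := 536870912) (P2 := 536870912) (W2 := 536870912) (P3 := 649613803) (W3 := 48318383) (N0 := 3) (En := eng) (mo := mog) (C1 := cd0q1) (C2 := cd8q1) (C3 := pd2)
    rfl k0_mm_112_s

noncomputable def cut_mm_113_s : Cut := Cut.of [[⟨4, 0, 0, 1449551462⟩]]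

noncomputable def f_mm_113_s : ℕ → ℕ → ℕ → ℕ → Bool := onCell 536870912 536870912 536870912 536870912 649613803 48318383
    (rowNE 3 eng mog cd0q1 cd8q1 pd3 0 true false false .nn 1 1 3 (qsf 536870912 536870912 536870912 536870912 3) ndB0q1 ndB8q1 pcB3 cut_mm_113_s Ext.none)

def k0_mm_113_s : ∃ t, chk3 f_mm_113_s t 1 1 1 = true :=
  ⟨(l 4), by decide +kernel⟩

theorem c_mm_113_s : CertNE 536870912 536870912 536870912 536870912 649613803 48318383 3 eng mog cd0q1 cd8q1 pd3 true false false .nn 1 1 3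
    ndB0q1 ndB8q1 pcB3 cut_mm_113_s Ext.none :=
  certNE0 (fam := true) (s1 := false) (s2 := false) (a := 1) (b := 1) (c := 3) (cn := .nn) (n1 := ndB0q1) (n2 := ndB8q1) (pc := pcB3) (cut := cut_mm_113_s) (xt := Ext.none) (P1 := 536870912) (W1 := 536870912) (P2 := 536870912) (W2 := 536870912) (P3 := 649613803) (W3 := 48318383) (N0 := 3) (En := eng) (mo := mog) (C1 := cd0q1) (C2 := cd8q1) (C3 := pd3)
    rfl k0_mm_113_s

noncomputable def cut_mm_123_s : Cut := Cut.of [[⟨4, 0, 0, 1449551462⟩]]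

noncomputable def f_mm_123_s : ℕ → ℕ → ℕ → ℕ → Bool := onCell 536870912 536870912 1073741824 536870912 649613803 48318383
    (rowNE 3 eng mog cd0q1 cd8q2 pd3 0 true false false .npn 1 2 3 (qsf 536870912 536870912 1073741824 536870912 3) ndB0q1 ndB8q2 pcB3 cut_mm_123_s Ext.none)

def k0_mm_123_s : ∃ t, chk3 f_mm_123_s t 1 1 1 = true :=
  ⟨(l 4), by decide +kernel⟩

theorem c_mm_123_s : CertNE 536870912 536870912 1073741824 536870912 649613803 48318383 3 eng mog cd0q1 cd8q2 pd3 true false false .npn 1 2 3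
    ndB0q1 ndB8q2 pcB3 cut_mm_123_s Ext.none :=
  certNE0 (fam := true) (s1 := false) (s2 := false) (a := 1) (b := 2) (c := 3) (cn := .npn) (n1 := ndB0q1) (n2 := ndB8q2) (pc := pcB3) (cut := cut_mm_123_s) (xt := Ext.none) (P1 := 536870912) (W1 := 536870912) (P2 := 1073741824) (W2 := 536870912) (P3 := 649613803) (W3 := 48318383) (N0 := 3) (En := eng) (mo := mog) (C1 := cd0q1) (C2 := cd8q2) (C3 := pd3)
    rfl k0_mm_123_s

noncomputable def cut_mm_133_s : Cut := Cut.of [[⟨4, 0, 0, 1449551462⟩]]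

noncomputable def f_mm_133_s : ℕ → ℕ → ℕ → ℕ → Bool := onCell 536870912 536870912 0 1230186008 649613803 48318383
    (rowNE 3 eng mog cd0q1 cd8q3 pd3 0 true false false .dn 1 3 3 (qsf 536870912 536870912 0 1230186008 3) ndB0q1 ndB8q3 pcB3 cut_mm_133_s Ext.none)

def k0_mm_133_s : ∃ t, chk3 f_mm_133_s t 1 1 1 = true :=
  ⟨(l 4), by decide +kernel⟩

theorem c_mm_133_s : CertNE 536870912 536870912 0 1230186008 649613803 48318383 3 eng mog cd0q1 cd8q3 pd3 true false false .dn 1 3 3
    ndB0q1 ndB8q3 pcB3 cut_mm_133_s Ext.none :=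
  certNE0 (fam := true) (s1 := false) (s2 := false) (a := 1) (b := 3) (c := 3) (cn := .dn) (n1 := ndB0q1) (n2 := ndB8q3) (pc := pcB3) (cut := cut_mm_133_s) (xt := Ext.none) (P1 := 536870912) (W1 := 536870912) (P2 := 0) (W2 := 1230186008) (P3 := 649613803) (W3 := 48318383) (N0 := 3) (En := eng) (mo := mog) (C1 := cd0q1) (C2 := cd8q3) (C3 := pd3)
    rfl k0_mm_133_s

noncomputable def cut_mm_202_s : Cut := Cut.of [[⟨4, 0, 0, 1449551462⟩]]

noncomputable def f_mm_202_s : ℕ → ℕ → ℕ → ℕ → Bool := onCell 0 536870912 0 536870912 649613803 48318383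
    (rowNE 3 eng mog cd0q2 cd8q0 pd2 0 true false false .pp 2 0 2 (qsf 0 536870912 0 536870912 2) ndB0q2 ndB8q0 pcB2 cut_mm_202_s Ext.none)

def k0_mm_202_s : ∃ t, chk3 f_mm_202_s t 1 1 1 = true :=
  ⟨(l 4), by decide +kernel⟩

theorem c_mm_202_s : CertNE 0 536870912 0 536870912 649613803 48318383 3 eng mog cd0q2 cd8q0 pd2 true false false .pp 2 0 2
    ndB0q2 ndB8q0 pcB2 cut_mm_202_s Ext.none :=
  certNE0 (fam := true) (s1 := false) (s2 := false) (a := 2) (b := 0) (c := 2) (cn := .pp) (n1 := ndB0q2) (n2 := ndB8q0) (pc := pcB2) (cut := cut_mm_202_s) (xt := Ext.none) (P1 := 0) (W1 := 536870912) (P2 := 0) (W2 := 536870912) (P3 := 649613803) (W3 := 48318383) (N0 := 3) (En := eng) (mo := mog) (C1 := cd0q2) (C2 := cd8q0) (C3 := pd2)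
    rfl k0_mm_202_s

noncomputable def cut_mm_203_s : Cut := Cut.of [[⟨4, 0, 0, 1449551462⟩]]

noncomputable def f_mm_203_s : ℕ → ℕ → ℕ → ℕ → Bool := onCell 0 536870912 0 536870912 649613803 48318383
    (rowNE 3 eng mog cd0q2 cd8q0 pd3 0 true false false .up 2 0 3 (qsf 0 536870912 0 536870912 3) ndB0q2 ndB8q0 pcB3 cut_mm_203_s Ext.none)

def k0_mm_203_s : ∃ t, chk3 f_mm_203_s t 1 1 1 = true :=
  ⟨(l 4), by decide +kernel⟩

theorem c_mm_203_s : CertNE 0 536870912 0 536870912 649613803 48318383 3 eng mog cd0q2 cd8q0 pd3 true false false .up 2 0 3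
    ndB0q2 ndB8q0 pcB3 cut_mm_203_s Ext.none :=
  certNE0 (fam := true) (s1 := false) (s2 := false) (a := 2) (b := 0) (c := 3) (cn := .up) (n1 := ndB0q2) (n2 := ndB8q0) (pc := pcB3) (cut := cut_mm_203_s) (xt := Ext.none) (P1 := 0) (W1 := 536870912) (P2 := 0) (W2 := 536870912) (P3 := 649613803) (W3 := 48318383) (N0 := 3) (En := eng) (mo := mog) (C1 := cd0q2) (C2 := cd8q0) (C3 := pd3)
    rfl k0_mm_203_s

noncomputable def cut_mm_213_s : Cut := Cut.of [[⟨4, 0, 0, 1449551462⟩]]

noncomputable def f_mm_213_s : ℕ → ℕ → ℕ → ℕ → Bool := onCell 0 536870912 536870912 536870912 649613803 48318383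
    (rowNE 3 eng mog cd0q2 cd8q1 pd3 0 true false false .pnn 2 1 3 (qsf 0 536870912 536870912 536870912 3) ndB0q2 ndB8q1 pcB3 cut_mm_213_s Ext.none)

def k0_mm_213_s : ∃ t, chk3 f_mm_213_s t 1 1 1 = true :=
  ⟨(l 4), by decide +kernel⟩

theorem c_mm_213_s : CertNE 0 536870912 536870912 536870912 649613803 48318383 3 eng mog cd0q2 cd8q1 pd3 true false false .pnn 2 1 3
    ndB0q2 ndB8q1 pcB3 cut_mm_213_s Ext.none :=
  certNE0 (fam := true) (s1 := false) (s2 := false) (a := 2) (b := 1) (c := 3) (cn := .pnn) (n1 := ndB0q2) (n2 := ndB8q1) (pc := pcB3) (cut := cut_mm_213_s) (xt := Ext.none) (P1 := 0) (W1 := 536870912) (P2 := 536870912) (W2 := 536870912) (P3 := 649613803) (W3 := 48318383) (N0 := 3) (En := eng) (mo := mog) (C1 := cd0q2) (C2 := cd8q1) (C3 := pd3)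
    rfl k0_mm_213_s

end Pool.Agent.Strip051.G.I6050_6500.Tab.CS.BA08

namespace Pool.Agent.Strip051.G.I6050_6500.Tab.CS.BB00

open Pool.Agent.Strip051.PB Pool.Agent.Strip051.PB.T
open Pool.Agent.Strip051.G.I6050_6500.Tab

noncomputable def cut_pp_001_s : Cut := Cut.of [[⟨4, 0, 0, 1449551462⟩]]

noncomputable def f_pp_001_s : ℕ → ℕ → ℕ → ℕ → Bool := onCell 0 536870912 0 536870912 649613803 48318383
    (rowNE 3 eng mog cd0q0 cd0q1 pd0 1 false true true .up 0 0 1 (qsf 0 536870912 536870912 536870912 0) ndB0q0 ndB0q1 pcB0 cut_pp_001_s Ext.none)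

def k0_pp_001_s : ∃ t, chk3 f_pp_001_s t 1 1 1 = true :=
  ⟨(l 3), by decide +kernel⟩

theorem c_pp_001_s : CertNE 0 536870912 536870912 536870912 649613803 48318383 3 eng mog cd0q0 cd0q1 pd0 false true true .up 0 0 1
    ndB0q0 ndB0q1 pcB0 cut_pp_001_s Ext.none :=
  certNE1 (fam := false) (s1 := true) (s2 := true) (a := 0) (b := 0) (c := 1) (cn := .up) (n1 := ndB0q0) (n2 := ndB0q1) (pc := pcB0) (cut := cut_pp_001_s) (xt := Ext.none) (P1 := 0) (W1 := 536870912) (P2 := 536870912) (W2 := 536870912) (P3 := 649613803) (W3 := 48318383) (N0 := 3) (En := eng) (mo := mog) (C1 := cd0q0) (C2 := cd0q1) (C3 := pd0)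
    rfl (fun _ => rfl) k0_pp_001_s

noncomputable def cut_pp_001_t : Cut := Cut.of [[⟨3, 0, 0, 2845415833⟩]]

noncomputable def f_pp_001_t : ℕ → ℕ → ℕ → ℕ → Bool := onCell 0 536870912 536870912 536870912 649613803 48318383
    (rowNE 3 eng mog cd0q0 cd0q1 pd0 0 false true true .up 0 0 1 (qsf 0 536870912 536870912 536870912 0) ndB0q0 ndB0q1 pcB0 cut_pp_001_t Ext.none)

def k0_pp_001_t : ∃ t, chk3 f_pp_001_t t 1 1 1 = true :=
  ⟨(l 6), by decide +kernel⟩

theorem c_pp_001_t : CertNE 0 536870912 536870912 536870912 649613803 48318383 3 eng mog cd0q0 cd0q1 pd0 false true true .up 0 0 1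
    ndB0q0 ndB0q1 pcB0 cut_pp_001_t Ext.none :=
  certNE0 (fam := false) (s1 := true) (s2 := true) (a := 0) (b := 0) (c := 1) (cn := .up) (n1 := ndB0q0) (n2 := ndB0q1) (pc := pcB0) (cut := cut_pp_001_t) (xt := Ext.none) (P1 := 0) (W1 := 536870912) (P2 := 536870912) (W2 := 536870912) (P3 := 649613803) (W3 := 48318383) (N0 := 3) (En := eng) (mo := mog) (C1 := cd0q0) (C2 := cd0q1) (C3 := pd0)
    rfl k0_pp_001_t

noncomputable def cut_pp_011_s : Cut := Cut.of [[⟨4, 0, 0, 1449551462⟩], [⟨0, 0, 0, 67108864⟩, ⟨1, 1, 0, 67108864⟩, ⟨2, 1, 0, 67108864⟩]]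

noncomputable def f_pp_011_s : ℕ → ℕ → ℕ → ℕ → Bool := onCell 536870912 536870912 536870912 536870912 649613803 48318383
    (rowNE 3 eng mog cd0q0 cd0q1 pd1 2 false true true .pnn 0 1 1 (qsf 0 536870912 536870912 536870912 1) ndB0q0 ndB0q1 pcB1 cut_pp_011_s Ext.none)

def k0_pp_011_s : ∃ t, chk3 f_pp_011_s t 1 1 1 = true :=
  ⟨(a (l 3) (b (l 3) (a (l 3) (b (l 3) (a (l 3) (b (l 3) (b (l 3) (a (l 3) (l 14))))))))), by decide +kernel⟩

theorem c_pp_011_s : CertNE 0 536870912 536870912 536870912 649613803 48318383 3 eng mog cd0q0 cd0q1 pd1 false true true .pnn 0 1 1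
    ndB0q0 ndB0q1 pcB1 cut_pp_011_s Ext.none :=
  certNE2 (fam := false) (s1 := true) (s2 := true) (a := 0) (b := 1) (c := 1) (cn := .pnn) (n1 := ndB0q0) (n2 := ndB0q1) (pc := pcB1) (cut := cut_pp_011_s) (xt := Ext.none) (P1 := 0) (W1 := 536870912) (P2 := 536870912) (W2 := 536870912) (P3 := 649613803) (W3 := 48318383) (N0 := 3) (En := eng) (mo := mog) (C1 := cd0q0) (C2 := cd0q1) (C3 := pd1)
    rfl (fun _ => rfl) k0_pp_011_s

noncomputable def cut_pp_011_t : Cut := Cut.of [[⟨3, 0, 0, 2845415833⟩], [⟨0, 0, 0, 67108864⟩, ⟨1, 1, 0, 67108864⟩, ⟨2, 1, 0, 67108864⟩]]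

noncomputable def f_pp_011_t : ℕ → ℕ → ℕ → ℕ → Bool := onCell 0 536870912 536870912 536870912 649613803 48318383
    (rowNE 3 eng mog cd0q0 cd0q1 pd1 0 false true true .pnn 0 1 1 (qsf 0 536870912 536870912 536870912 1) ndB0q0 ndB0q1 pcB1 cut_pp_011_t Ext.none)

def k0_pp_011_t : ∃ t, chk3 f_pp_011_t t 1 1 1 = true :=
  ⟨(l 6), by decide +kernel⟩

theorem c_pp_011_t : CertNE 0 536870912 536870912 536870912 649613803 48318383 3 eng mog cd0q0 cd0q1 pd1 false true true .pnn 0 1 1
    ndB0q0 ndB0q1 pcB1 cut_pp_011_t Ext.none :=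
  certNE0 (fam := false) (s1 := true) (s2 := true) (a := 0) (b := 1) (c := 1) (cn := .pnn) (n1 := ndB0q0) (n2 := ndB0q1) (pc := pcB1) (cut := cut_pp_011_t) (xt := Ext.none) (P1 := 0) (W1 := 536870912) (P2 := 536870912) (W2 := 536870912) (P3 := 649613803) (W3 := 48318383) (N0 := 3) (En := eng) (mo := mog) (C1 := cd0q0) (C2 := cd0q1) (C3 := pd1)
    rfl k0_pp_011_t

noncomputable def cut_pp_012_s : Cut := Cut.of [[⟨4, 0, 0, 1449551462⟩], [⟨0, 0, 0, 33554432⟩, ⟨1, 1, 0, 33554432⟩, ⟨2, 1, 0, 33554432⟩]]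

noncomputable def f_pp_012_s : ℕ → ℕ → ℕ → ℕ → Bool := onCell 536870912 536870912 0 536870912 649613803 48318383
    (rowNE 3 eng mog cd0q0 cd0q2 pd1 2 false true true .pnp 0 1 2 (qsf 0 536870912 0 536870912 1) ndB0q0 ndB0q2 pcB1 cut_pp_012_s Ext.none)

def k0_pp_012_s : ∃ t, chk3 f_pp_012_s t 4 2 1 = true :=
  ⟨(b (l 2) (l 3)), by decide +kernel⟩

def k1_pp_012_s : ∃ t, chk3 f_pp_012_s t 10 2 1 = true :=
  ⟨(b (a (a (l 2) (b (a (l 2) (b (l 16755592) (l 16777760))) (b (a (l 2) (b (b (l 16770320) (a (b (l 16775608) (l 127406184935)) (l 16774216))) (b (l 164450264791) (l 3)))) (l 3)))) (b (b (a (a (l 16750360) (l 16724112)) (l 16716320)) (a (b (b (l 16761680) (l 16767056)) (l 16754344)) (b (l 16733000) (b (l 16762120) (l 16767360))))) (b (a (b (l 16780688) (a (b (a (b (l 16775400) (l 122574346727)) (l 16774016)) (a (l 3) (l 153712852375))) (b (l 16770048) (a (b (l 16775168) (l 113447541399)) (l 16773784))))) (a (l 16777960) (l 16777912))) (a (b (a (l 3) (b (a (l 3)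 (l 147270396279)) (l 3))) (l 3)) (b (a (b (a (b (l 16774904) (l 104857608167)) (l 16773520)) (a (l 3) (l 139217332599))) (b (l 16769568) (a (l 49559903959) (l 16773224)))) (a (l 3) (b (a (l 192367558791) (l 131164273959)) (l 3)))))))) (l 3)), by decide +kernel⟩

def k2_pp_012_s : ∃ t, chk3 f_pp_012_s t 11 2 1 = true :=
  ⟨(b (b (a (b (l 16721584) (a (l 16748720) (l 16716440))) (b (l 16699936) (l 16741248))) (a (b (b (a (b (l 16761968) (l 16767000)) (l 16732464)) (a (l 16753952) (a (l 16745336) (l 16739664)))) (a (b (l 16779808) (a (b (a (l 16780680) (l 16772872)) (a (l 169282109879) (l 102710127879))) (b (l 16768864) (l 38285614119)))) (b (l 16773896) (l 16784080)))) (b (a (b (l 16720520) (l 16751928)) (l 16713568)) (a (b (a (l 16743728) (l 16758696)) (l 16772240)) (b (l 16749672) (a (l 16762384) (b (l 16732800) (l 16737552)))))))) (b (a (b (a (b (a (l 3) (b (a (l 159081562775) (l 94657062871)) (l 3))) (l 3)) (b (a (b (l 16783840) (a (l 148881015559) (l 85530256359)))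 (l 16780856)) (a (l 3) (b (a (l 138143597287) (l 16781520)) (l 3))))) (l 3)) (b (a (b (a (l 16764656) (l 16758584)) (a (b (l 16772320) (a (l 107005096743) (l 16775832))) (l 16768968))) (b (l 16769888) (a (l 16762696) (l 16756176)))) (a (b (a (l 173040211207) (b (a (l 95193936039) (l 16775272)) (l 162839662535))) (l 3)) (b (a (b (l 16770720) (a (l 82309033399) (l 16774624))) (l 16767016)) (a (l 157470956647) (b (a (l 16781976) (l 16773904)) (a (l 3) (l 98952035911)))))))) (l 3))), by decide +kernel⟩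

def k3_pp_012_s : ∃ t, chk3 f_pp_012_s t 2 3 1 = true :=
  ⟨(l 3), by decide +kernel⟩

def k4_pp_012_s : ∃ t, chk3 f_pp_012_s t 12 2 1 = true :=
  ⟨(b (b (a (b (a (l 16661712) (l 16650608)) (l 16696680)) (b (a (l 16639368) (l 16627696)) (a (l 16657528) (l 16645720)))) (a (a (b (l 16701416) (b (l 16716056) (l 16747064))) (b (l 16689216) (l 16708600))) (a (b (l 16676984) (l 16696216)) (b (l 16664472) (l 16683304))))) (a (b (b (a (b (a (l 16759712) (b (l 16730120) (l 16734856))) (a (l 16749512) (l 16742800))) (b (l 16744304) (a (b (l 16733480) (l 16738728)) (l 16755992)))) (a (b (a (l 16760344) (l 16753560)) (a (b (l 16768896) (a (l 16781464) (l 16773104))) (l 16764984))) (a (b (l 16746760) (l 16779016)) (b (l 16740016) (l 16751096))))) (b (a (b (a (b (a (l 3) (l 83382779863)) (l 3)) (b (a (l 16780800) (l 16772224)) (a (l 147270407895) (l 73182231447)))) (l 3)) (b (a (b (l 16766936) (c (l 16783648) (l 16783344))) (l 16762840)) (a (b (a (l 138143601447) (l 60297327383))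 (l 3)) (b (l 16782552) (a (l 94657068663) (l 47412424087)))))) (l 3))) (b (b (a (b (l 16710632) (l 16720472)) (l 16723176)) (a (b (a (l 16754248) (l 16748128)) (a (l 16744240) (l 16737568))) (b (l 16738000) (a (l 16751768) (l 16723504))))) (a (b (a (b (l 16776680) (a (l 16769736) (l 16766048))) (b (l 16748704) (l 16781528))) (b (a (b (a (l 78550941287) (l 16782112)) (l 156934087815)) (b (l 16769984) (a (b (l 16776672) (l 115595029095)) (l 16779816)))) (a (l 3) (b (l 156934086711) (l 3))))) (b (a (b (l 16741736) (l 16774240)) (b (l 16734208) (l 16766616))) (b (a (a (l 16778048) (l 16763728)) (l 16768368)) (a (b (a (a (l 72108486247) (l 30769424023)) (l 16773472)) (a (l 3) (b (l 77477193943) (l 3)))) (b (b (l 16765912) (l 16769216)) (a (b (l 16774544) (c (l 60297324119) (l 67813516967))) (l 16772248)))))))))), by decide +kernel⟩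

def k5_pp_012_s : ∃ t, chk3 f_pp_012_s t 13 2 1 = true :=
  ⟨(b (b (a (a (b (l 16616440) (l 16634184)) (l 16613920)) (a (l 16602792) (l 6))) (a (b (a (l 16651736) (l 16639480)) (a (l 16669832) (l 16656840))) (b (a (l 16627528) (l 16615760)) (a (l 16644192) (l 16632112))))) (b (a (a (b (l 16687984) (l 16749048)) (b (l 16674312) (l 16713792))) (b (a (l 16661112) (l 16648624)) (a (l 16721056) (l 16666176)))) (a (b (a (b (a (l 16747576) (l 16719264)) (a (l 16737976) (l 16730352))) (b (l 16729168) (a (l 16743896) (l 16715672)))) (b (b (a (a (l 16746960) (l 16739248)) (l 16727960)) (a (a (l 16774176) (l 16745400)) (l 16733936))) (a (a (b (l 16759624) (l 16776712)) (l 16765464)) (a (l 16757616) (l 16739440))))) (b (a (l 16720440) (l 16706984)) (a (b (l 16726928) (b (l 16725320) (l 16752336))) (b (l 16702520) (l 16730024))))))), by decide +kernel⟩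

def k6_pp_012_s : ∃ t, chk3 f_pp_012_s t 12 6 1 = true :=
  ⟨(b (a (l 3) (b (a (l 3) (b (a (l 3) (b (a (l 3) (b (c (l 57612968791) (l 58149839815)) (l 173577082119))) (l 3))) (l 3))) (l 3))) (l 3)), by decide +kernel⟩

def k7_pp_012_s : ∃ t, chk3 f_pp_012_s t 13 12 1 = true :=
  ⟨(a (b (a (b (a (b (a (b (l 16773304) (c (l 16780616) (l 26474455223))) (l 16770960)) (a (l 172503342135) (b (c (l 16781328) (l 16779976)) (l 145122921959)))) (b (l 16775376) (a (b (l 16772016) (l 16780024)) (l 16769640)))) (a (l 3) (b (a (b (a (l 178408919303) (l 78014061719)) (l 3)) (b (l 16780024) (a (l 159618436359) (l 60834191607)))) (l 3)))) (b (a (a (l 16772696) (l 16768688)) (l 16762744)) (a (b (a (l 16775016) (l 16768288)) (b (a (a (l 102173253543) (l 16779136)) (l 16773424)) (a (l 3) (a (l 82845899975) (l 16775832))))) (b (l 16767440) (a (l 16773640) (l 16766920)))))) (a (l 3) (b (a (b (a (l 3) (b (l 170892727495) (l 3))) (l 3)) (b (a (a (b (l 64055416967) (l 3)) (b (l 16775136)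 (l 148881017111))) (b (l 16772024) (c (l 16780704) (l 16780024)))) (a (l 3) (b (a (l 182167016167) (l 84456509959)) (l 3))))) (l 3)))) (b (a (a (b (l 16754992) (a (l 16770024) (l 16766056))) (b (l 16737040) (l 16760248))) (b (a (l 16729832) (l 16722672)) (a (l 16752704) (b (l 16731728) (l 16758864))))) (a (b (a (b (a (l 16769616) (l 16765544)) (a (b (l 16778664) (a (l 167671500295) (l 62444803959))) (b (l 16770600) (l 16774000)))) (b (l 16764792) (c (l 16771472) (l 16771408)))) (b (a (a (l 3) (b (a (l 147270404295) (l 16778992)) (l 181630147143))) (a (a (b (l 16774304) (l 77477187783)) (l 16777872)) (l 16773504))) (a (l 3) (a (b (l 169282112215) (l 3)) (a (b (l 54928607975) (l 3)) (b (l 16774888) (l 139754211255))))))) (b (a (c (l 16765656) (l 16762776)) (l 16757856)) (a (b (c (l 16770184) (l 16770064)) (a (b (l 16771848) (c (l 16775160) (l 16777768))) (l 16774728))) (b (l 16767528) (c (l 16768888) (l 16768720)))))))), by decide +kernel⟩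

def k8_pp_012_s : ∃ t, chk3 f_pp_012_s t 13 13 1 = true :=
  ⟨(a (l 3) (b (a (l 3) (b (a (b (a (b (a (l 175724564903) (c (l 68350384295) (l 65666028439))) (l 3)) (b (l 16777024) (a (l 153712855911) (a (l 58149835479) (l 16776152))))) (l 3)) (b (a (c (l 16772056) (l 16772000)) (l 16773304)) (a (b (a (b (l 16778392) (l 174650821479)) (l 16778504)) (a (l 3) (l 167134629463))) (a (b (l 16773880) (b (l 16776288) (l 89825220007))) (l 16776120))))) (a (l 3) (b (a (l 3) (b (a (l 3) (b (l 72108477783) (l 3))) (l 3))) (l 3))))) (l 3))), by decide +kernel⟩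

def k9_pp_012_s : ∃ t, chk3 f_pp_012_s t 6 7 1 = true :=
  ⟨(l 3), by decide +kernel⟩

def k10_pp_012_s : ∃ t, chk3 f_pp_012_s t 7 2 1 = true :=
  ⟨(a (b (b (l 6) (a (a (l 16613008) (l 16602688)) (l 16610336))) (b (a (a (b (l 16637008) (l 16654168)) (b (l 16626392) (l 16642864))) (b (l 16644752) (a (l 16631192) (b (l 16615520) (l 16622992))))) (a (b (a (l 16694344) (b (l 16656008) (l 16665432))) (a (b (l 16689000) (a (l 16703672) (l 16696632))) (b (l 16675472) (l 16696608)))) (b (a (a (l 16651152) (l 16644744)) (b (l 16630864) (l 16639352))) (b (a (l 16661992) (l 16648536)) (a (a (l 16675688) (l 16668760)) (l 16668896))))))) (b (l 6) (b (a (b (a (l 16593648) (l 6)) (a (l 16627936) (l 16594728))) (b (l 6) (a (l 16582568) (l 6)))) (a (b (a (b (l 16618168) (l 16626288)) (b (l 16605416) (l 16613320))) (a (b (l 16635144) (l 16665696)) (b (l 16621904) (l 16652208)))) (b (a (b (l 16592824) (l 16600464)) (a (l 16587208) (l 16580984))) (a (b (l 16629800) (l 16617944)) (b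 (a (l 16599152) (l 16592744)) (a (l 16608088) (l 16601552))))))))), by decide +kernel⟩

def k11_pp_012_s : ∃ t, chk3 f_pp_012_s t 14 12 1 = true :=
  ⟨(a (b (a (b (a (l 16715440) (l 16708184)) (a (b (l 16724472) (l 16730504)) (l 16730624))) (b (a (l 16700944) (l 16693752)) (a (l 16712744) (l 16705392)))) (a (b (a (b (l 16736680) (l 16753448)) (l 16753320)) (a (c (l 16763272) (l 16761536)) (l 16753608))) (a (b (l 16738024) (b (l 16734208) (l 16740480))) (b (b (l 16714392) (l 16720520)) (l 16750768))))) (b (a (b (a (l 16686616) (l 16679512)) (a (l 16698080) (l 16690808))) (b (a (l 16672440) (l 16665408)) (a (l 16683592) (l 16676440)))) (a (b (a (l 16709992) (l 16702592)) (a (a (l 16745136) (l 16741376)) (b (l 16711704) (l 16717848)))) (b (a (l 16695256) (l 16687992)) (a (l 16707344) (l 16699992)))))), by decide +kernel⟩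

def k12_pp_012_s : ∃ t, chk3 f_pp_012_s t 28 26 1 = true :=
  ⟨(a (b (a (b (c (l 16772768) (l 16767312)) (a (c (l 16770560) (l 16773104)) (l 16771832))) (c (l 16768248) (a (l 16764640) (l 16765968)))) (a (b (b (a (a (b (l 16775496) (l 58149834663)) (l 16774304)) (l 16771336)) (a (a (l 192904433879) (b (l 16779304) (l 163376531399))) (c (l 16774512) (l 16777104)))) (a (l 3) (b (a (b (l 146196661383) (l 3)) (a (b (l 16776368) (l 117742505863)) (l 16778784))) (l 3)))) (a (b (l 16774224) (b (l 16776312) (a (b (c (l 16779656) (l 61907927975)) (l 183777626631)) (c (l 16775840) (l 16778448))))) (b (l 16770312) (c (l 16776600) (l 16773904)))))) (b (a (b (l 16757232) (a (l 16765408) (l 16751072))) (b (l 16739112) (l 16755800))) (b (a (c (l 16759384) (l 16769576)) (b (l 16760440) (l 16763528))) (a (a (l 16772640) (l 16763496)) (l 16762920))))), by decide +kernel⟩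

def k13_pp_012_s : ∃ t, chk3 f_pp_012_s t 28 27 1 = true :=
  ⟨(a (b (a (l 3) (b (a (b (a (l 3) (b (l 162839660247) (l 3))) (l 3)) (a (b (b (l 16776200) (l 142438563447)) (l 3)) (b (l 16775000) (a (l 174113950151) (b (l 16776840) (l 199346882631)))))) (l 3))) (l 3)) (b (a (b (a (a (a (b (l 16773528) (b (l 16775848) (l 79624670183))) (l 16776720)) (l 16775248)) (l 16774928)) (a (b (a (b (l 175724562599) (l 3)) (b (l 16777792) (l 153175983463))) (l 3)) (b (c (l 16774320) (l 16776912)) (a (a (l 185925110583) (b (l 16778400) (l 3))) (a (b (l 16776112) (l 97341410471)) (l 16775896)))))) (a (b (l 16771024) (a (l 16775528) (l 16770952))) (c (l 16772936) (l 16772104)))) (a (b (a (l 3) (b (a (l 3) (l 192904433447)) (l 3))) (l 3)) (b (b (a (a (b (c (l 16779344) (l 38822479431)) (l 162839660247)) (l 16778144)) (l 16775216)) (a (a (l 3) (a (l 193978174535) (b (l 70497864391) (l 3)))) (a (a (b (l 16776328) (l 114521279751)) (l 16778728)) (l 16774648)))) (a (l 3) (b (a (l 197736271863)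 (b (a (l 78550928071) (l 16776416)) (l 171429595095))) (l 3))))))), by decide +kernel⟩

def k14_pp_012_s : ∃ t, chk3 f_pp_012_s t 29 13 1 = true :=
  ⟨(b (a (a (b (l 16755584) (b (l 16754312) (l 16760456))) (b (c (l 16748632) (l 16747440)) (b (l 16736208) (l 16752800)))) (a (b (b (l 16716480) (l 16722560)) (l 16742176)) (b (l 16717352) (b (l 16721136) (l 16727184))))) (b (a (a (a (l 16768976) (l 16767736)) (b (l 16758912) (b (l 16763472) (l 16766504)))) (a (b (l 16761768) (l 16757336)) (b (l 16733232) (l 16760232)))) (a (b (a (a (l 16775464) (l 16766344)) (l 16765792)) (b (a (a (a (l 6610225991) (l 16773760)) (l 16770848)) (l 16770288)) (a (a (b (a (c (l 144049177783) (l 149417886871)) (l 16776008)) (a (l 3) (a (l 164450272519) (l 16778328)))) (l 16776464)) (l 16772616)))) (a (a (l 16765656) (l 16764440)) (l 16758064))))), by decide +kernel⟩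

def k15_pp_012_s : ∃ t, chk3 f_pp_012_s t 15 6 1 = true :=
  ⟨(b (a (b (a (b (a (l 16658440) (l 16651528)) (a (l 16669352) (l 16662328))) (b (a (l 16644672) (l 16637864)) (a (l 16655368) (l 16648464)))) (a (b (a (l 16680808) (l 16673688)) (a (l 16692712) (l 16685504))) (b (a (l 16666632) (l 16659632)) (a (l 16678368) (l 16671296))))) (a (b (b (l 16648736) (a (l 16641608) (l 16634800))) (b (a (l 16652688) (l 16645776)) (a (l 16664256) (l 16657248)))) (b (a (l 16643816) (l 16637104)) (b (a (l 16638888) (l 16632000)) (a (l 16650248) (l 16643248)))))) (a (b (a (b (a (l 16704752) (l 16697472)) (a (b (l 16713744) (l 16719736)) (l 16709424))) (b (a (l 16690264) (l 16683120)) (a (l 16702160) (l 16694936)))) (a (b (a (a (l 16730632) (l 16747864)) (b (l 16718368) (l 16745264))) (a (l 16751168) (l 16733200))) (b (a (b (l 16711056) (l 16706512)) (l 16717240)) (a (l 16733608) (l 16723712))))) (a (b (a (b (l 16676000) (l 16687744)) (b (l 16668896) (l 16680560))) (b (a (l 16699488)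 (l 16692232)) (a (l 16711120) (l 16682832)))) (b (a (b (l 16661800) (l 16673368)) (b (l 16654696) (l 16666168))) (b (a (l 16684960) (l 16677672)) (a (l 16675496) (l 16668128))))))), by decide +kernel⟩

def k16_pp_012_s : ∃ t, chk3 f_pp_012_s t 14 7 1 = true :=
  ⟨(b (a (l 3) (b (a (b (a (b (a (l 3) (b (a (b (a (l 88751475479) (l 16776560)) (l 177335175303)) (c (l 16778480) (l 16778464))) (a (l 3) (b (l 149954757991) (l 3))))) (l 3)) (a (a (b (b (l 16773912) (a (b (l 16776616) (l 171429594535)) (l 20031998679))) (l 3)) (b (l 16776080) (b (b (c (l 55465479223) (l 59223575575)) (l 180019529959)) (l 3)))) (b (l 16773832) (b (a (c (l 16778576) (l 11978935079)) (l 16774008)) (b (a (l 152639112647) (l 16776216)) (a (l 3) (a (l 174113949175) (l 16778480)))))))) (l 3)) (b (a (b (a (l 16771936) (l 16762840)) (a (b (l 16771112) (l 16776664)) (l 16773960))) (b (l 16762336) (c (l 16768248) (l 16768160)))) (a (b (b (a (a (b (c (l 58149833799) (l 62444801079)) (l 182167013639))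 (c (l 16778624) (l 12515806007))) (l 16773096)) (b (a (a (l 3) (l 155860338135)) (l 16778232)) (a (l 3) (a (c (l 94120185143) (l 97878281495)) (l 16775768))))) (a (l 3) (b (a (l 3) (b (c (l 64055413655) (l 67276639111)) (l 185925109975))) (l 3)))) (a (b (l 16773976) (a (a (b (l 27548191303) (l 3)) (b (l 16775520) (l 163376531223))) (b (l 16774072) (a (b (l 16776712) (l 180556400055)) (l 27548191271))))) (b (l 16766856) (a (l 16776536) (l 16771664))))))) (a (l 3) (b (a (l 3) (b (a (l 3) (b (a (b (c (l 64055413511) (l 68350380775)) (l 186461980775)) (c (l 16778584) (l 6073354759))) (a (l 3) (b (l 155323467063) (l 3))))) (l 3))) (l 3))))) (l 3)), by decide +kernel⟩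

def k17_pp_012_s : ∃ t, chk3 f_pp_012_s t 30 14 1 = true :=
  ⟨(b (a (a (b (c (l 16760368) (l 16762848)) (b (l 16766352) (a (l 16774016) (l 16764936)))) (b (l 16755360) (a (l 16763512) (l 16759704)))) (a (b (l 16747864) (c (l 16759288) (l 16754040))) (b (l 16729936) (l 16746528)))) (a (b (a (a (a (b (b (l 16774032) (a (b (l 16776656) (l 177872045367)) (l 23253223847))) (l 3)) (b (l 16776160) (b (b (a (l 104857602135) (l 16776608)) (l 184314496951)) (l 3)))) (b (c (l 16770648) (l 16773264)) (a (a (b (l 19495127367) (l 3)) (b (l 16775400) (b (l 100025763831) (l 3)))) (b (l 16773944) (b (l 16776072) (a (l 171966465127) (l 16778304))))))) (a (b (l 16766800) (a (a (l 16776544) (l 16772952)) (l 16774128))) (b (l 16762968) (l 16771248)))) (a (l 3) (b (a (b (a (b (a (l 95193925495) (l 16776488)) (l 178945787591)) (c (l 16778360) (l 16778280))) (a (l 3) (a (l 210084301479) (b (l 86603990935) (l 3))))) (b (l 16775472) (a (a (b (l 16776408) (l 154249724759)) (l 7147095959))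 (l 16774696)))) (a (l 3) (b (a (l 207936818391) (a (b (l 78550927095) (l 3)) (b (l 16776312) (l 146196660919)))) (l 3)))))) (a (b (b (l 16762496) (a (l 16764792) (l 16760968))) (b (a (c (l 16773016) (l 16772984)) (l 16769128)) (b (a (a (b (l 16774856) (l 16778064)) (l 16773608)) (l 16773296)) (b (a (a (a (l 192367560023) (a (l 100025763175) (l 16776928))) (l 16775712)) (l 16772768)) (a (a (l 3) (a (c (l 113984407095) (l 141364822503)) (l 16777944))) (l 16775488)))))) (b (a (l 16760936) (l 16755848)) (a (b (l 16762616) (c (l 16770816) (l 16770728))) (b (l 16758720) (c (l 16764280) (l 16764152)))))))), by decide +kernel⟩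

def k18_pp_012_s : ∃ t, chk3 f_pp_012_s t 31 14 1 = true :=
  ⟨(b (a (b (a (b (l 16719744) (l 16725344)) (l 16725784)) (a (l 16744320) (a (l 16728256) (l 16735008)))) (b (a (l 16707824) (l 16700384)) (a (b (l 16716272) (l 16732272)) (l 16711560)))) (a (a (b (b (l 16742176) (l 16752736)) (a (b (l 16754824) (l 16762912)) (b (l 16750928) (l 16756360)))) (a (b (l 16739080) (b (l 16747024) (l 16752416))) (b (l 16735240) (a (l 16752024) (l 16750056))))) (a (b (a (l 16731376) (l 16738120)) (a (b (l 16739176) (l 16744464)) (b (l 16735224) (l 16740456)))) (b (b (l 16729712) (a (l 16726176) (l 16722408))) (b (l 16734552) (a (l 16736448) (l 16732448))))))), by decide +kernel⟩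

def k19_pp_012_s : ∃ t, chk3 f_pp_012_s t 30 15 1 = true :=
  ⟨(b (a (l 3) (b (a (b (a (b (a (l 3) (b (l 193441301719) (l 3))) (l 3)) (b (a (a (b (c (l 54928606647) (l 60834186663)) (l 3)) (b (l 16776080) (a (l 168745239255) (l 77477184743)))) (c (l 16777288) (b (l 16774584) (l 16777320)))) (a (l 3) (b (a (l 172503335895) (a (l 67813508327) (l 16776688))) (l 219211106567))))) (l 3)) (b (b (a (c (l 16773672) (l 16773624)) (l 16771000)) (b (a (c (l 16775776) (l 16775744)) (l 16770480)) (a (a (a (a (l 138143597703) (l 58149831879)) (l 16776368)) (l 16774872)) (l 16773192)))) (a (b (a (a (l 3) (b (b (l 104320730311) (l 3)) (l 3))) (b (a (b (l 16776432) (l 60834186327)) (l 16775784)) (a (l 200420623719) (b (l 16778160) (l 129553662967))))) (l 3)) (a (a (b (a (l 16777056) (l 16775248)) (b (a (l 183240754055) (b (l 16777016) (l 205789332167))) (l 3))) (b (l 16774496) (b (b (l 16776264) (l 37211866071)) (a (l 3) (l 173040206615))))) (b (l 16774312) (b (l 16775120) (a (b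 (l 16776688) (a (l 186998850135) (l 16777456))) (l 16776032)))))))) (a (l 3) (b (a (l 3) (b (a (l 3) (a (l 3) (b (b (a (l 104320729799) (l 16776848)) (l 184851366695)) (l 3)))) (l 3))) (l 3))))) (l 3)), by decide +kernel⟩

def k20_pp_012_s : ∃ t, chk3 f_pp_012_s t 62 60 1 = true :=
  ⟨(a (b (b (a (l 16764424) (l 16760464)) (a (l 16768520) (l 16763232))) (b (a (a (l 16771008) (l 16769008)) (c (l 16766064) (l 16765936))) (a (a (c (l 16773840) (l 16775112)) (l 16773120)) (a (l 16769800) (l 16767776))))) (a (b (c (l 16760584) (l 16757744)) (b (l 16763288) (a (l 16765760) (l 16763728)))) (a (b (l 16754856) (a (l 16760832) (l 16759816))) (b (l 16752840) (l 16760912))))), by decide +kernel⟩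

def k21_pp_012_s : ∃ t, chk3 f_pp_012_s t 124 61 1 = true :=
  ⟨(b (b (a (b (a (a (a (l 16777688) (l 16776192)) (l 16775440)) (l 16773920)) (a (a (a (l 220284847335) (b (l 82845893351) (l 3))) (a (b (l 16776760) (l 141364822663)) (l 16777264))) (l 16776040))) (a (c (l 16773944) (l 16772576)) (l 16771728))) (b (a (b (a (c (l 210084300471) (l 218137364039)) (a (a (l 62444798647) (l 16776656)) (l 16775896))) (a (l 3) (a (a (l 3) (l 117742502551)) (l 16777272)))) (a (l 16775384) (l 16772696))) (a (a (l 3) (b (a (l 3) (a (l 172503335399) (l 40433091239))) (l 225653555703))) (a (a (a (b (l 16776560) (c (l 93046440535) (l 91972698695))) (l 16776408)) (l 16775640)) (l 16774768))))) (a (l 3) (b (a (b (b (a (a (l 3) (l 147270402551)) (a (l 16777624) (l 16776456))) (a (l 3) (a (l 196125655671) (c (l 68887249511) (l 67276636775))))) (l 3)) (a (b (l 16776704) (a (b (a (l 173577077079) (l 90898956775)) (l 3)) (b (l 16777520) (l 172503335383)))) (b (l 16775024) (a (b (l 16776352)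 (a (l 74255958519) (l 16776944))) (l 16776192))))) (b (b (a (l 3) (a (l 3) (a (l 220284846839) (a (l 138680467847) (l 58686702055))))) (l 3)) (l 3))))), by decide +kernel⟩

def k22_pp_012_s : ∃ t, chk3 f_pp_012_s t 125 61 1 = true :=
  ⟨(a (a (b (b (l 16769856) (c (l 16772056) (l 16772632))) (b (a (b (l 16774000) (l 16775424)) (a (l 16774600) (l 16774088))) (a (b (b (l 16776984) (a (b (l 108078825863) (l 232096006727)) (c (l 16777616) (l 18958254567)))) (a (l 3) (b (l 193978171991) (l 3)))) (b (l 16776232) (b (a (b (l 16776976) (l 123111211383)) (l 16776640)) (a (l 3) (b (c (l 20031997159) (l 65129152903)) (l 192904429991)))))))) (b (b (l 16766512) (a (l 16769832) (l 16768808))) (b (b (l 16771432) (c (l 16772880) (l 16772824))) (a (b (l 16774792) (b (l 16775864) (a (l 16777336) (l 16776320)))) (b (l 16773760) (l 16775520)))))) (a (b (b (l 16764464) (l 16768576)) (b (a (l 16771256) (l 16770880)) (a (b (l 16772728) (l 16774152)) (b (l 16771696) (l 16773120))))) (b (b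 (l 16762416) (l 16766512)) (b (c (l 16768736) (l 16767944)) (b (l 16770792) (c (l 16771600) (l 16771512))))))), by decide +kernel⟩

def k23_pp_012_s : ∃ t, chk3 f_pp_012_s t 62 31 1 = true :=
  ⟨(b (a (l 3) (b (a (b (a (l 3) (b (a (a (b (b (l 137606725991) (l 3)) (l 3)) (b (a (b (l 16776992) (l 147270402295)) (l 16776912)) (l 215453008583))) (b (l 16776264) (a (b (l 23253221815) (l 154249724199)) (l 16777048)))) (a (l 3) (b (a (l 3) (a (l 191830688215) (b (l 16777128) (l 216526750055)))) (l 3))))) (l 3)) (a (a (b (a (b (l 16775840) (a (b (b (l 16776872) (l 86067118391)) (l 3)) (b (l 16776792) (a (l 210621170135) (l 166060884263))))) (b (l 16775320) (b (l 16776400) (b (l 16776936) (a (l 194515042423) (l 51170509111)))))) (b (b (l 235854102375) (l 3)) (l 3))) (b (b (l 16774872) (a (a (l 16776696) (l 16776104)) (l 16775720))) (b (b (a (a (b (l 104857600295) (l 3)) (b (l 16777008) (l 159081562295))) (a (l 16777336) (l 16776664))) (a (l 3) (a (l 215989879351) (b (l 75866571031)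 (l 3))))) (l 3)))) (a (b (b (l 16773504) (a (l 16775200) (l 16774672))) (b (b (l 16776176) (a (a (b (l 16776944) (l 123648082183)) (l 16777192)) (l 16776472))) (b (a (c (l 200957493271) (c (l 208473685991) (l 212768653271))) (a (b (l 40969961735) (l 222969201015)) (b (l 16776880) (c (l 90362085623) (l 96267665655))))) (l 3)))) (b (b (l 16772464) (c (l 16773920) (l 16773864))) (a (b (l 16775912) (a (b (l 16776792) (b (c (l 140827951303) (l 148344144055)) (l 3))) (b (l 16776536) (b (l 16777408) (l 191293817111))))) (b (l 16775392) (b (l 16776144) (b (l 16776680) (a (c (l 56539218231) (l 63518540039)) (l 16776912)))))))))) (a (l 3) (a (l 3) (a (l 3) (a (l 3) (a (l 3) (l 14)))))))) (l 3)), by decide +kernel⟩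

def k24_pp_012_s : ∃ t, chk3 f_pp_012_s t 63 15 1 = true :=
  ⟨(b (a (b (a (b (l 16752432) (a (l 16758864) (l 16756816))) (b (l 16745752) (a (l 16752144) (l 16750088)))) (a (b (c (b (l 16759448) (a (l 16763232) (l 16761832))) (a (l 16764256) (l 16759552))) (b (a (c (l 16766024) (b (l 16765144) (l 16766560))) (a (l 16765040) (l 16764320))) (b (a (a (l 16769232) (l 16767536)) (l 16766624)) (a (l 16769968) (c (l 16768112) (l 16767960)))))) (a (b (b (l 16757536) (l 16759968)) (b (l 16763088) (a (l 16765768) (l 16764960)))) (b (c (l 16757000) (l 16756672)) (b (l 16760832) (a (l 16763992) (l 14))))))) (b (a (b (l 16741688) (b (l 16746968) (l 16749648))) (b (l 16737624) (b (l 16744176) (l 16745512)))) (b (b (a (l 16752352) (a (l 16747920) (l 16745848))) (a (c (l 16755264) (l 16755552)) (l 14))) (a (b (a (l 16758896) (l 14)) (l 14)) (l 14))))) (b (a (b (a (b (b (a (c (l 16771272) (l 16770848)) (a (l 16769984) (l 16768936))) (a (a (l 16773504) (l 16771800)) (c (l 16770608)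 (a (l 16770704) (l 16769640))))) (b (a (a (c (l 16774632) (l 16774256)) (c (l 16773264) (l 16773200))) (l 14)) (a (a (b (l 16775520) (c (l 16776080) (l 16776392))) (l 14)) (l 14)))) (b (a (b (l 16767360) (l 14)) (l 14)) (l 14))) (l 14)) (l 14)) (l 14))), by decide +kernel⟩

theorem s25_pp_012_s : ∃ t, chk3 f_pp_012_s t 62 61 1 = true := ex3_a k21_pp_012_s k22_pp_012_s

theorem s26_pp_012_s : ∃ t, chk3 f_pp_012_s t 62 30 1 = true := ex3_b k20_pp_012_s s25_pp_012_s

theorem s27_pp_012_s : ∃ t, chk3 f_pp_012_s t 62 15 1 = true := ex3_b s26_pp_012_s k23_pp_012_s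

theorem s28_pp_012_s : ∃ t, chk3 f_pp_012_s t 31 15 1 = true := ex3_a s27_pp_012_s k24_pp_012_s

theorem s29_pp_012_s : ∃ t, chk3 f_pp_012_s t 15 15 1 = true := ex3_a k19_pp_012_s s28_pp_012_s

theorem s30_pp_012_s : ∃ t, chk3 f_pp_012_s t 15 14 1 = true := ex3_a k17_pp_012_s k18_pp_012_s

theorem s31_pp_012_s : ∃ t, chk3 f_pp_012_s t 15 7 1 = true := ex3_b s30_pp_012_s s29_pp_012_s

theorem s32_pp_012_s : ∃ t, chk3 f_pp_012_s t 7 7 1 = true := ex3_a k16_pp_012_s s31_pp_012_s

theorem s33_pp_012_s : ∃ t, chk3 f_pp_012_s t 28 13 1 = true := ex3_b k12_pp_012_s k13_pp_012_s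

theorem s34_pp_012_s : ∃ t, chk3 f_pp_012_s t 14 13 1 = true := ex3_a s33_pp_012_s k14_pp_012_s

theorem s35_pp_012_s : ∃ t, chk3 f_pp_012_s t 14 6 1 = true := ex3_b k11_pp_012_s s34_pp_012_s

theorem s36_pp_012_s : ∃ t, chk3 f_pp_012_s t 7 6 1 = true := ex3_a s35_pp_012_s k15_pp_012_s

theorem s37_pp_012_s : ∃ t, chk3 f_pp_012_s t 7 3 1 = true := ex3_b s36_pp_012_s s32_pp_012_s

theorem s38_pp_012_s : ∃ t, chk3 f_pp_012_s t 7 1 1 = true := ex3_b k10_pp_012_s s37_pp_012_s

theorem s39_pp_012_s : ∃ t, chk3 f_pp_012_s t 13 6 1 = true := ex3_b k7_pp_012_s k8_pp_012_s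

theorem s40_pp_012_s : ∃ t, chk3 f_pp_012_s t 6 6 1 = true := ex3_a k6_pp_012_s s39_pp_012_s

theorem s41_pp_012_s : ∃ t, chk3 f_pp_012_s t 6 3 1 = true := ex3_b s40_pp_012_s k9_pp_012_s

theorem s42_pp_012_s : ∃ t, chk3 f_pp_012_s t 6 2 1 = true := ex3_a k4_pp_012_s k5_pp_012_s

theorem s43_pp_012_s : ∃ t, chk3 f_pp_012_s t 6 1 1 = true := ex3_b s42_pp_012_s s41_pp_012_s

theorem s44_pp_012_s : ∃ t, chk3 f_pp_012_s t 3 1 1 = true := ex3_a s43_pp_012_s s38_pp_012_s

theorem s45_pp_012_s : ∃ t, chk3 f_pp_012_s t 5 2 1 = true := ex3_a k1_pp_012_s k2_pp_012_s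

theorem s46_pp_012_s : ∃ t, chk3 f_pp_012_s t 2 2 1 = true := ex3_a k0_pp_012_s s45_pp_012_s

theorem s47_pp_012_s : ∃ t, chk3 f_pp_012_s t 2 1 1 = true := ex3_b s46_pp_012_s k3_pp_012_s

theorem s48_pp_012_s : ∃ t, chk3 f_pp_012_s t 1 1 1 = true := ex3_a s47_pp_012_s s44_pp_012_s

theorem c_pp_012_s : CertNE 0 536870912 0 536870912 649613803 48318383 3 eng mog cd0q0 cd0q2 pd1 false true true .pnp 0 1 2
    ndB0q0 ndB0q2 pcB1 cut_pp_012_s Ext.none :=
  certNE2 (fam := false) (s1 := true) (s2 := true) (a := 0) (b := 1) (c := 2) (cn := .pnp) (n1 := ndB0q0) (n2 := ndB0q2) (pc := pcB1) (cut := cut_pp_012_s) (xt := Ext.none) (P1 := 0) (W1 := 536870912) (P2 := 0) (W2 := 536870912) (P3 := 649613803) (W3 := 48318383) (N0 := 3) (En := eng) (mo := mog) (C1 := cd0q0) (C2 := cd0q2) (C3 := pd1)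
    rfl (fun _ => rfl) s48_pp_012_s

noncomputable def cut_pp_012_t : Cut := Cut.of [[⟨3, 0, 0, 2845415833⟩], [⟨0, 0, 0, 33554432⟩, ⟨1, 1, 0, 33554432⟩, ⟨2, 1, 0, 33554432⟩]]

noncomputable def f_pp_012_t : ℕ → ℕ → ℕ → ℕ → Bool := onCell 0 536870912 0 536870912 649613803 48318383
    (rowNE 3 eng mog cd0q0 cd0q2 pd1 0 false true true .pnp 0 1 2 (qsf 0 536870912 0 536870912 1) ndB0q0 ndB0q2 pcB1 cut_pp_012_t Ext.none)

def k0_pp_012_t : ∃ t, chk3 f_pp_012_t t 1 1 1 = true :=
  ⟨(l 6), by decide +kernel⟩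

theorem c_pp_012_t : CertNE 0 536870912 0 536870912 649613803 48318383 3 eng mog cd0q0 cd0q2 pd1 false true true .pnp 0 1 2
    ndB0q0 ndB0q2 pcB1 cut_pp_012_t Ext.none :=
  certNE0 (fam := false) (s1 := true) (s2 := true) (a := 0) (b := 1) (c := 2) (cn := .pnp) (n1 := ndB0q0) (n2 := ndB0q2) (pc := pcB1) (cut := cut_pp_012_t) (xt := Ext.none) (P1 := 0) (W1 := 536870912) (P2 := 0) (W2 := 536870912) (P3 := 649613803) (W3 := 48318383) (N0 := 3) (En := eng) (mo := mog) (C1 := cd0q0) (C2 := cd0q2) (C3 := pd1)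
    rfl k0_pp_012_t

noncomputable def cut_pp_022_s : Cut := Cut.of [[⟨4, 0, 0, 1449551462⟩], [⟨0, 0, 0, 67108864⟩, ⟨1, 1, 0, 67108864⟩, ⟨2, 1, 0, 67108864⟩]]

noncomputable def f_pp_022_s : ℕ → ℕ → ℕ → ℕ → Bool := onCell 1073741824 536870912 0 536870912 649613803 48318383
    (rowNE 3 eng mog cd0q0 cd0q2 pd2 2 false true true .pp 0 2 2 (qsf 0 536870912 0 536870912 2) ndB0q0 ndB0q2 pcB2 cut_pp_022_s Ext.none)

def k0_pp_022_s : ∃ t, chk3 f_pp_022_s t 4 2 1 = true :=
  ⟨(b (l 6) (a (b (l 6) (a (b (l 6) (b (a (c (l 16612704) (l 16604608)) (l 6)) (b (a (c (l 16593240) (l 16611824)) (c (l 16581920) (l 16578360))) (a (c (l 16598016) (l 16595904)) (c (l 16586624) (l 16604272)))))) (l 6))) (l 6))), by decide +kernel⟩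

def k1_pp_022_s : ∃ t, chk3 f_pp_022_s t 8 3 1 = true :=
  ⟨(a (b (a (b (b (a (l 16633928) (l 16614600)) (b (l 16646896) (a (l 16640472) (l 16633744)))) (b (a (b (l 16649120) (l 16658112)) (b (l 16644976) (l 16654616))) (a (b (c (l 16666688) (l 16668424)) (c (l 16676640) (l 16677960))) (b (l 16663984) (l 16673760))))) (b (b (b (c (l 16593776) (a (l 16593808) (l 16587328))) (l 16602288)) (b (c (l 16613808) (l 16610864)) (c (l 16624360) (l 16621656)))) (b (c (b (l 16634968) (l 16645512)) (b (l 16632472) (l 16643160))) (b (c (l 16655944) (l 16653688)) (c (l 16666136) (l 16663896)))))) (b (b (b (a (a (a (l 16688208) (l 16697072)) (l 16683992)) (a (l 16679552) (l 16670504))) (a (a (b (l 16700584) (l 14)) (l 16694648)) (a (l 16689264) (l 16679688)))) (l 14)) (l 14))) (a (b (b (b (c (b (l 16582080) (l 16591376)) (b (b (l 16575352) (l 16579936)) (l 16586912))) (c (b (l 16621968) (l 16610928)) (b (l 16596616) (l 16606696)))) (b (c (l 16625904) (b (l 16616800) (l 16626672)))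 (c (l 16655600) (b (l 16657304) (l 16666576))))) (b (b (a (c (l 16667480) (b (l 16659272) (l 16667792))) (b (c (l 16654152) (l 16649440)) (l 16670448))) (l 14)) (l 14))) (b (b (b (b (l 6) (l 16576744)) (b (l 16596192) (a (l 16598496) (l 16591472)))) (b (c (a (l 16656944) (l 16607712)) (b (l 16601056) (l 16610048))) (a (b (l 16626080) (l 16634576)) (a (l 16634400) (l 16629992))))) (b (b (b (a (l 16642512) (l 16632832)) (a (l 16649800) (l 16639392))) (a (l 14) (b (l 16645200) (l 1)))) (l 1))))), by decide +kernel⟩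

def k2_pp_022_s : ∃ t, chk3 f_pp_022_s t 9 3 1 = true :=
  ⟨(a (b (b (b (l 6) (b (a (l 16572464) (l 6)) (a (l 16601872) (l 16566696)))) (b (a (b (l 16610176) (l 16607648)) (b (l 16594872) (c (l 16584912) (l 16575656)))) (a (b (c (l 16608208) (l 16600592)) (a (l 16616336) (l 16606920))) (b (a (l 16591416) (l 1)) (l 1))))) (b (b (a (b (a (l 16622904) (l 16612712)) (a (l 16628664) (l 1))) (l 1)) (l 1)) (l 1))) (b (b (l 6) (b (a (b (l 16579008) (l 1)) (l 1)) (l 1))) (l 1))), by decide +kernel⟩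

def k3_pp_022_s : ∃ t, chk3 f_pp_022_s t 5 1 1 = true :=
  ⟨(b (l 6) (b (l 1) (l 1))), by decide +kernel⟩

def k4_pp_022_s : ∃ t, chk3 f_pp_022_s t 3 1 1 = true :=
  ⟨(l 1), by decide +kernel⟩

theorem s5_pp_022_s : ∃ t, chk3 f_pp_022_s t 4 3 1 = true := ex3_a k1_pp_022_s k2_pp_022_s

theorem s6_pp_022_s : ∃ t, chk3 f_pp_022_s t 4 1 1 = true := ex3_b k0_pp_022_s s5_pp_022_s

theorem s7_pp_022_s : ∃ t, chk3 f_pp_022_s t 2 1 1 = true := ex3_a s6_pp_022_s k3_pp_022_s

theorem s8_pp_022_s : ∃ t, chk3 f_pp_022_s t 1 1 1 = true := ex3_a s7_pp_022_s k4_pp_022_s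

theorem c_pp_022_s : CertNE 0 536870912 0 536870912 649613803 48318383 3 eng mog cd0q0 cd0q2 pd2 false true true .pp 0 2 2
    ndB0q0 ndB0q2 pcB2 cut_pp_022_s Ext.none :=
  certNE2 (fam := false) (s1 := true) (s2 := true) (a := 0) (b := 2) (c := 2) (cn := .pp) (n1 := ndB0q0) (n2 := ndB0q2) (pc := pcB2) (cut := cut_pp_022_s) (xt := Ext.none) (P1 := 0) (W1 := 536870912) (P2 := 0) (W2 := 536870912) (P3 := 649613803) (W3 := 48318383) (N0 := 3) (En := eng) (mo := mog) (C1 := cd0q0) (C2 := cd0q2) (C3 := pd2)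
    rfl (fun _ => rfl) s8_pp_022_s

noncomputable def cut_pp_022_t : Cut := Cut.of [[⟨3, 0, 0, 2845415833⟩], [⟨0, 0, 0, 67108864⟩, ⟨1, 1, 0, 67108864⟩, ⟨2, 1, 0, 67108864⟩]]

noncomputable def f_pp_022_t : ℕ → ℕ → ℕ → ℕ → Bool := onCell 0 536870912 0 536870912 649613803 48318383
    (rowNE 3 eng mog cd0q0 cd0q2 pd2 0 false true true .pp 0 2 2 (qsf 0 536870912 0 536870912 2) ndB0q0 ndB0q2 pcB2 cut_pp_022_t Ext.none)

def k0_pp_022_t : ∃ t, chk3 f_pp_022_t t 1 1 1 = true :=
  ⟨(l 6), by decide +kernel⟩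

theorem c_pp_022_t : CertNE 0 536870912 0 536870912 649613803 48318383 3 eng mog cd0q0 cd0q2 pd2 false true true .pp 0 2 2
    ndB0q0 ndB0q2 pcB2 cut_pp_022_t Ext.none :=
  certNE0 (fam := false) (s1 := true) (s2 := true) (a := 0) (b := 2) (c := 2) (cn := .pp) (n1 := ndB0q0) (n2 := ndB0q2) (pc := pcB2) (cut := cut_pp_022_t) (xt := Ext.none) (P1 := 0) (W1 := 536870912) (P2 := 0) (W2 := 536870912) (P3 := 649613803) (W3 := 48318383) (N0 := 3) (En := eng) (mo := mog) (C1 := cd0q0) (C2 := cd0q2) (C3 := pd2)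
    rfl k0_pp_022_t

noncomputable def cut_pp_101_s : Cut := Cut.of [[⟨4, 0, 0, 1449551462⟩]]

noncomputable def f_pp_101_s : ℕ → ℕ → ℕ → ℕ → Bool := onCell 536870912 536870912 536870912 536870912 649613803 48318383
    (rowNE 3 eng mog cd0q1 cd0q1 pd0 0 false true true .npn 1 0 1 (qsf 536870912 536870912 536870912 536870912 0) ndB0q1 ndB0q1 pcB0 cut_pp_101_s Ext.none)

def k0_pp_101_s : ∃ t, chk3 f_pp_101_s t 1 1 1 = true :=
  ⟨(l 3), by decide +kernel⟩

theorem c_pp_101_s : CertNE 536870912 536870912 536870912 536870912 649613803 48318383 3 eng mog cd0q1 cd0q1 pd0 false true true .npn 1 0 1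
    ndB0q1 ndB0q1 pcB0 cut_pp_101_s Ext.none :=
  certNE0 (fam := false) (s1 := true) (s2 := true) (a := 1) (b := 0) (c := 1) (cn := .npn) (n1 := ndB0q1) (n2 := ndB0q1) (pc := pcB0) (cut := cut_pp_101_s) (xt := Ext.none) (P1 := 536870912) (W1 := 536870912) (P2 := 536870912) (W2 := 536870912) (P3 := 649613803) (W3 := 48318383) (N0 := 3) (En := eng) (mo := mog) (C1 := cd0q1) (C2 := cd0q1) (C3 := pd0)
    rfl k0_pp_101_s

noncomputable def cut_pp_101_t : Cut := Cut.of [[⟨3, 0, 0, 2845415833⟩]]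

noncomputable def f_pp_101_t : ℕ → ℕ → ℕ → ℕ → Bool := onCell 536870912 536870912 536870912 536870912 649613803 48318383
    (rowNE 3 eng mog cd0q1 cd0q1 pd0 0 false true true .npn 1 0 1 (qsf 536870912 536870912 536870912 536870912 0) ndB0q1 ndB0q1 pcB0 cut_pp_101_t Ext.none)

def k0_pp_101_t : ∃ t, chk3 f_pp_101_t t 1 1 1 = true :=
  ⟨(l 3), by decide +kernel⟩

theorem c_pp_101_t : CertNE 536870912 536870912 536870912 536870912 649613803 48318383 3 eng mog cd0q1 cd0q1 pd0 false true true .npn 1 0 1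
    ndB0q1 ndB0q1 pcB0 cut_pp_101_t Ext.none :=
  certNE0 (fam := false) (s1 := true) (s2 := true) (a := 1) (b := 0) (c := 1) (cn := .npn) (n1 := ndB0q1) (n2 := ndB0q1) (pc := pcB0) (cut := cut_pp_101_t) (xt := Ext.none) (P1 := 536870912) (W1 := 536870912) (P2 := 536870912) (W2 := 536870912) (P3 := 649613803) (W3 := 48318383) (N0 := 3) (En := eng) (mo := mog) (C1 := cd0q1) (C2 := cd0q1) (C3 := pd0)
    rfl k0_pp_101_t

noncomputable def cut_pp_102_s : Cut := Cut.of [[⟨4, 0, 0, 1449551462⟩]]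

noncomputable def f_pp_102_s : ℕ → ℕ → ℕ → ℕ → Bool := onCell 0 536870912 0 536870912 649613803 48318383
    (rowNE 3 eng mog cd0q1 cd0q2 pd0 2 false true true .npp 1 0 2 (qsf 536870912 536870912 0 536870912 0) ndB0q1 ndB0q2 pcB0 cut_pp_102_s Ext.none)

def k0_pp_102_s : ∃ t, chk3 f_pp_102_s t 1 1 1 = true :=
  ⟨(a (b (l 3) (l 3)) (l 3)), by decide +kernel⟩

theorem c_pp_102_s : CertNE 536870912 536870912 0 536870912 649613803 48318383 3 eng mog cd0q1 cd0q2 pd0 false true true .npp 1 0 2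
    ndB0q1 ndB0q2 pcB0 cut_pp_102_s Ext.none :=
  certNE2 (fam := false) (s1 := true) (s2 := true) (a := 1) (b := 0) (c := 2) (cn := .npp) (n1 := ndB0q1) (n2 := ndB0q2) (pc := pcB0) (cut := cut_pp_102_s) (xt := Ext.none) (P1 := 536870912) (W1 := 536870912) (P2 := 0) (W2 := 536870912) (P3 := 649613803) (W3 := 48318383) (N0 := 3) (En := eng) (mo := mog) (C1 := cd0q1) (C2 := cd0q2) (C3 := pd0)
    rfl (fun _ => rfl) k0_pp_102_s

noncomputable def cut_pp_102_t : Cut := Cut.of [[⟨3, 0, 0, 2845415833⟩]]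

noncomputable def f_pp_102_t : ℕ → ℕ → ℕ → ℕ → Bool := onCell 536870912 536870912 0 536870912 649613803 48318383
    (rowNE 3 eng mog cd0q1 cd0q2 pd0 0 false true true .npp 1 0 2 (qsf 536870912 536870912 0 536870912 0) ndB0q1 ndB0q2 pcB0 cut_pp_102_t Ext.none)

def k0_pp_102_t : ∃ t, chk3 f_pp_102_t t 1 1 1 = true :=
  ⟨(l 6), by decide +kernel⟩

theorem c_pp_102_t : CertNE 536870912 536870912 0 536870912 649613803 48318383 3 eng mog cd0q1 cd0q2 pd0 false true true .npp 1 0 2
    ndB0q1 ndB0q2 pcB0 cut_pp_102_t Ext.none :=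
  certNE0 (fam := false) (s1 := true) (s2 := true) (a := 1) (b := 0) (c := 2) (cn := .npp) (n1 := ndB0q1) (n2 := ndB0q2) (pc := pcB0) (cut := cut_pp_102_t) (xt := Ext.none) (P1 := 536870912) (W1 := 536870912) (P2 := 0) (W2 := 536870912) (P3 := 649613803) (W3 := 48318383) (N0 := 3) (En := eng) (mo := mog) (C1 := cd0q1) (C2 := cd0q2) (C3 := pd0)
    rfl k0_pp_102_t

noncomputable def cut_pp_112_s : Cut := Cut.of [[⟨4, 0, 0, 1449551462⟩]]

noncomputable def f_pp_112_s : ℕ → ℕ → ℕ → ℕ → Bool := onCell 536870912 536870912 0 536870912 649613803 48318383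
    (rowNE 3 eng mog cd0q1 cd0q2 pd1 0 false true true .dn 1 1 2 (qsf 536870912 536870912 0 536870912 1) ndB0q1 ndB0q2 pcB1 cut_pp_112_s Ext.none)

def k0_pp_112_s : ∃ t, chk3 f_pp_112_s t 1 1 1 = true :=
  ⟨(a (b (a (b (a (b (a (b (a (b (l 16732600) (b (l 16762128) (l 16746848))) (b (a (l 16761456) (l 16766832)) (l 16775776))) (a (b (l 16755560) (a (l 16764512) (b (l 16767024) (l 16778112)))) (b (a (l 16763736) (l 16779880)) (a (b (l 16772592) (b (a (l 16775600) (l 135459248375)) (l 163913398903))) (b (a (b (l 16775392) (l 133848635607)) (l 162839656951)) (l 3)))))) (b (a (b (l 16775240) (a (l 16763264) (l 16779528))) (b (a (l 16762856) (l 16779240)) (a (b (l 16771904) (a (b (l 16774960) (l 126332442951)) (l 156934076743))) (b (a (b (l 16774864) (l 124184959271)) (l 155323463943)) (l 3))))) (a (b (a (b (l 16772192) (a (b (l 16775224) (l 131164280999)) (l 161229044151))) (b (a (b (l 16775080) (l 129016797287)) (l 159081560439)) (l 3))) (l 3)) (l 3)))) (a (b (a (b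 (a (b (l 16781016) (b (a (l 16776048) (l 159081561415)) (l 169282108295))) (b (b (a (l 16775816) (l 154786594055)) (l 166597753591)) (l 3))) (l 3)) (l 3)) (l 3)) (l 3))) (b (a (b (a (b (a (b (l 16771712) (a (b (l 16774792) (l 122574346455)) (l 153712851143))) (b (a (b (l 16774744) (l 120963733815)) (l 152102233095)) (l 3))) (l 3)) (l 3)) (l 3)) (l 3)) (l 3))) (l 3)) (l 3)) (l 3)) (l 1)), by decide +kernel⟩

theorem c_pp_112_s : CertNE 536870912 536870912 0 536870912 649613803 48318383 3 eng mog cd0q1 cd0q2 pd1 false true true .dn 1 1 2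
    ndB0q1 ndB0q2 pcB1 cut_pp_112_s Ext.none :=
  certNE0 (fam := false) (s1 := true) (s2 := true) (a := 1) (b := 1) (c := 2) (cn := .dn) (n1 := ndB0q1) (n2 := ndB0q2) (pc := pcB1) (cut := cut_pp_112_s) (xt := Ext.none) (P1 := 536870912) (W1 := 536870912) (P2 := 0) (W2 := 536870912) (P3 := 649613803) (W3 := 48318383) (N0 := 3) (En := eng) (mo := mog) (C1 := cd0q1) (C2 := cd0q2) (C3 := pd1)
    rfl k0_pp_112_s

noncomputable def cut_pp_112_t : Cut := Cut.of [[⟨3, 0, 0, 2845415833⟩]]

noncomputable def f_pp_112_t : ℕ → ℕ → ℕ → ℕ → Bool := onCell 536870912 536870912 0 536870912 649613803 48318383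
    (rowNE 3 eng mog cd0q1 cd0q2 pd1 0 false true true .dn 1 1 2 (qsf 536870912 536870912 0 536870912 1) ndB0q1 ndB0q2 pcB1 cut_pp_112_t Ext.none)

def k0_pp_112_t : ∃ t, chk3 f_pp_112_t t 1 1 1 = true :=
  ⟨(l 6), by decide +kernel⟩

theorem c_pp_112_t : CertNE 536870912 536870912 0 536870912 649613803 48318383 3 eng mog cd0q1 cd0q2 pd1 false true true .dn 1 1 2
    ndB0q1 ndB0q2 pcB1 cut_pp_112_t Ext.none :=
  certNE0 (fam := false) (s1 := true) (s2 := true) (a := 1) (b := 1) (c := 2) (cn := .dn) (n1 := ndB0q1) (n2 := ndB0q2) (pc := pcB1) (cut := cut_pp_112_t) (xt := Ext.none) (P1 := 536870912) (W1 := 536870912) (P2 := 0) (W2 := 536870912) (P3 := 649613803) (W3 := 48318383) (N0 := 3) (En := eng) (mo := mog) (C1 := cd0q1) (C2 := cd0q2) (C3 := pd1)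
    rfl k0_pp_112_t

noncomputable def cut_pp_202_s : Cut := Cut.of [[⟨4, 0, 0, 1449551462⟩]]

noncomputable def f_pp_202_s : ℕ → ℕ → ℕ → ℕ → Bool := onCell 0 536870912 0 536870912 649613803 48318383
    (rowNE 3 eng mog cd0q2 cd0q2 pd0 0 false true true .pp 2 0 2 (qsf 0 536870912 0 536870912 0) ndB0q2 ndB0q2 pcB0 cut_pp_202_s Ext.none)

def k0_pp_202_s : ∃ t, chk3 f_pp_202_s t 1 1 1 = true :=
  ⟨(l 3), by decide +kernel⟩

theorem c_pp_202_s : CertNE 0 536870912 0 536870912 649613803 48318383 3 eng mog cd0q2 cd0q2 pd0 false true true .pp 2 0 2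
    ndB0q2 ndB0q2 pcB0 cut_pp_202_s Ext.none :=
  certNE0 (fam := false) (s1 := true) (s2 := true) (a := 2) (b := 0) (c := 2) (cn := .pp) (n1 := ndB0q2) (n2 := ndB0q2) (pc := pcB0) (cut := cut_pp_202_s) (xt := Ext.none) (P1 := 0) (W1 := 536870912) (P2 := 0) (W2 := 536870912) (P3 := 649613803) (W3 := 48318383) (N0 := 3) (En := eng) (mo := mog) (C1 := cd0q2) (C2 := cd0q2) (C3 := pd0)
    rfl k0_pp_202_s

noncomputable def cut_pp_202_t : Cut := Cut.of [[⟨3, 0, 0, 2845415833⟩]]

noncomputable def f_pp_202_t : ℕ → ℕ → ℕ → ℕ → Bool := onCell 0 536870912 0 536870912 649613803 48318383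
    (rowNE 3 eng mog cd0q2 cd0q2 pd0 0 false true true .pp 2 0 2 (qsf 0 536870912 0 536870912 0) ndB0q2 ndB0q2 pcB0 cut_pp_202_t Ext.none)

def k0_pp_202_t : ∃ t, chk3 f_pp_202_t t 1 1 1 = true :=
  ⟨(l 3), by decide +kernel⟩

theorem c_pp_202_t : CertNE 0 536870912 0 536870912 649613803 48318383 3 eng mog cd0q2 cd0q2 pd0 false true true .pp 2 0 2
    ndB0q2 ndB0q2 pcB0 cut_pp_202_t Ext.none :=
  certNE0 (fam := false) (s1 := true) (s2 := true) (a := 2) (b := 0) (c := 2) (cn := .pp) (n1 := ndB0q2) (n2 := ndB0q2) (pc := pcB0) (cut := cut_pp_202_t) (xt := Ext.none) (P1 := 0) (W1 := 536870912) (P2 := 0) (W2 := 536870912) (P3 := 649613803) (W3 := 48318383) (N0 := 3) (En := eng) (mo := mog) (C1 := cd0q2) (C2 := cd0q2) (C3 := pd0)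
    rfl k0_pp_202_t

noncomputable def cut_pm_001_s : Cut := Cut.of [[⟨4, 0, 0, 1449551462⟩]]

noncomputable def f_pm_001_s : ℕ → ℕ → ℕ → ℕ → Bool := onCell 0 536870912 536870912 536870912 649613803 48318383
    (rowNE 3 eng mog cd0q0 cd0q1 pd0 0 false true false .up 0 0 1 (qsf 0 536870912 536870912 536870912 0) ndB0q0 ndB0q1 pcB0 cut_pm_001_s Ext.none)

def k0_pm_001_s : ∃ t, chk3 f_pm_001_s t 1 1 1 = true :=
  ⟨(l 6), by decide +kernel⟩

theorem c_pm_001_s : CertNE 0 536870912 536870912 536870912 649613803 48318383 3 eng mog cd0q0 cd0q1 pd0 false true false .up 0 0 1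
    ndB0q0 ndB0q1 pcB0 cut_pm_001_s Ext.none :=
  certNE0 (fam := false) (s1 := true) (s2 := false) (a := 0) (b := 0) (c := 1) (cn := .up) (n1 := ndB0q0) (n2 := ndB0q1) (pc := pcB0) (cut := cut_pm_001_s) (xt := Ext.none) (P1 := 0) (W1 := 536870912) (P2 := 536870912) (W2 := 536870912) (P3 := 649613803) (W3 := 48318383) (N0 := 3) (En := eng) (mo := mog) (C1 := cd0q0) (C2 := cd0q1) (C3 := pd0)
    rfl k0_pm_001_s

noncomputable def cut_pm_001_t : Cut := Cut.of [[⟨3, 0, 0, 2845415833⟩]]

noncomputable def f_pm_001_t : ℕ → ℕ → ℕ → ℕ → Bool := onCell 0 536870912 536870912 536870912 649613803 48318383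
    (rowNE 3 eng mog cd0q0 cd0q1 pd0 0 false true false .up 0 0 1 (qsf 0 536870912 536870912 536870912 0) ndB0q0 ndB0q1 pcB0 cut_pm_001_t Ext.none)

def k0_pm_001_t : ∃ t, chk3 f_pm_001_t t 2 1 1 = true :=
  ⟨(b (l 4) (b (b (l 4) (l 2)) (l 2))), by decide +kernel⟩

def k1_pm_001_t : ∃ t, chk3 f_pm_001_t t 3 4 1 = true :=
  ⟨(l 4), by decide +kernel⟩

def k2_pm_001_t : ∃ t, chk3 f_pm_001_t t 6 5 1 = true :=
  ⟨(l 4), by decide +kernel⟩

def k3_pm_001_t : ∃ t, chk3 f_pm_001_t t 7 10 1 = true :=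
  ⟨(a (l 4) (b (a (l 4) (b (l 4) (a (l 4) (b (l 4) (a (l 4) (b (a (l 4) (a (l 4) (c (l 117272718903) (c (l 117809590807) (l 179549763175))))) (a (b (l 4) (a (l 4) (c (l 16776888) (l 116198986903)))) (b (c (l 121030850087) (a (l 121030824599) (l 16777128))) (c (l 16777160) (l 16777000)))))))))) (a (b (l 4) (a (l 4) (b (a (l 4) (a (l 4) (c (l 205319564247) (l 206393304871)))) (a (a (l 4) (b (l 4) (c (l 167738603207) (l 165054258583)))) (b (a (c (l 191897793767) (l 190824051287)) (b (a (l 120493977895) (l 16777160)) (l 60901305879))) (a (c (l 71638726903) (b (l 119957107143) (l 16776552))) (l 16775984))))))) (b (a (b (l 4) (a (l 4) (b (a (l 4) (b (l 177402279479) (a (l 119957107495) (l 16777176)))) (a (b (a (l 4) (l 119420236135)) (a (l 119420236023) (l 16777080))) (b (l 16777000) (l 16776648)))))) (b (a (b (a (l 4) (a (l 4) (b (l 4) (c (l 16776912) (l 107072182935))))) (a (b (l 190824051831) (a (l 122104591351) (l 16782376))) (c (l 46405792215) (b (l 43184544231) (l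 16776736))))) (b (a (c (l 54995728263) (b (a (l 110830278071) (l 16777048)) (l 16776880))) (c (l 16776960) (l 16776664))) (c (l 16776736) (l 16781512)))) (a (b (a (a (l 57143210743) (l 16776864)) (l 16776672)) (l 16781520)) (c (l 16776208) (l 16780560))))) (a (b (a (b (a (l 4) (b (a (l 4) (l 123178331623)) (l 87207984279))) (a (b (a (l 4) (l 16776872)) (l 73786209415)) (l 16781688))) (c (b (l 16776504) (l 16775856)) (b (l 16776008) (l 16774944)))) (c (a (l 16775656) (l 16774776)) (a (c (l 16775064) (l 16774536)) (l 16783720)))) (a (c (b (l 16775536) (l 16774328)) (b (l 16784792) (l 16772304))) (c (l 16785240) (b (l 16773832) (l 16772072))))))))), by decide +kernel⟩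

def k4_pm_001_t : ∃ t, chk3 f_pm_001_t t 14 11 1 = true :=
  ⟨(a (b (l 4) (b (a (l 4) (b (l 4) (a (l 4) (b (l 4) (l 162369892839))))) (a (b (l 4) (a (l 4) (b (l 195119017399) (a (l 102777247079) (l 16781920))))) (b (a (b (l 4) (a (l 4) (l 99556017911))) (b (a (l 101703503767) (l 16775912)) (l 16773896))) (a (b (a (l 81302408215) (l 16774416)) (l 16772160)) (l 16779296)))))) (b (a (l 4) (b (l 4) (a (b (l 4) (c (b (l 166664860663) (a (l 114588403047) (l 16776416))) (b (l 162906763495) (l 71638732311)))) (c (b (b (l 196729630615) (a (l 173107312423) (l 16777072))) (b (l 43184566295) (l 16774024))) (b (b (l 191360920471) (a (l 110830263127) (l 16776952))) (l 35131504887)))))) (b (a (b (a (b (l 4) (a (l 4) (l 184381600599))) (a (b (l 4) (l 105461595287)) (b (b (l 113514657511) (l 16782336)) (l 16775440)))) (a (b (a (l 169349215639) (l 16784232)) (l 43184568999)) (l 16783064))) (b (a (c (b (l 16775176) (l 16773056)) (l 16773744)) (l 16781184)) (a (l 16769208) (l 16766192))))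 (a (b (a (l 16770800) (l 16767008)) (a (l 16764400) (l 16760840))) (a (l 16771416) (l 16758200)))))), by decide +kernel⟩

def k5_pm_001_t : ∃ t, chk3 f_pm_001_t t 15 11 1 = true :=
  ⟨(b (a (b (a (a (b (l 4) (a (l 4) (b (l 4) (c (l 118346497383) (l 116199013415))))) (a (b (l 4) (b (c (l 119420240823) (l 128547042151)) (l 28152175431))) (b (b (l 4) (b (l 122641464695) (l 117809619191))) (c (l 16775752) (l 26541564711))))) (b (a (b (a (b (l 4) (l 118883362247)) (c (l 16783520) (b (l 75933691287) (l 16776304)))) (c (l 16776208) (a (l 16776504) (l 16775112)))) (c (l 16775056) (c (l 16774328) (l 16773800)))) (a (c (l 16774224) (l 16773256)) (c (l 16772784) (c (l 16771448) (l 16770488)))))) (a (b (b (a (c (l 60364439207) (a (l 75396822247) (l 16775560))) (l 16778944)) (c (l 16773568) (l 16772832))) (c (l 16781504) (l 16769856))) (c (b (l 16770680) (l 16767688)) (b (l 16768632) (l 16765048))))) (b (a (c (b (l 16783880) (a (l 16771952) (l 16771376))) (b (c (l 16771960) (l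 16781168)) (a (l 16769216) (l 16768048)))) (c (b (l 16772792) (l 16771192)) (b (c (l 16771144) (l 16768672)) (c (l 16768960) (l 16766056))))) (c (a (b (a (l 16769552) (l 16769304)) (l 16766776)) (b (l 16769352) (l 16767264))) (a (b (a (l 16766088) (l 16765096)) (l 16762216)) (b (l 16764872) (l 16761936)))))) (b (a (a (c (b (l 16767416) (l 16763360)) (l 16784376)) (c (l 16772904) (l 16759048))) (a (c (l 16761952) (l 16756680)) (c (b (l 16764832) (l 16761824)) (l 16756840)))) (a (a (b (l 16757424) (l 16751944)) (l 16751544)) (a (l 16750656) (l 16752536))))), by decide +kernel⟩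

def k6_pm_001_t : ∃ t, chk3 f_pm_001_t t 12 6 1 = true :=
  ⟨(b (a (l 4) (b (l 4) (b (l 4) (a (l 4) (b (l 4) (a (b (l 4) (l 2)) (b (a (l 4) (a (c (l 217667601015) (l 227868146823)) (b (l 242900533079) (a (l 46942656983) (l 16775680))))) (a (b (b (l 231089373223) (l 2)) (l 2)) (c (b (l 16774088) (l 16770440)) (l 16772136)))))))))) (a (l 2) (b (b (a (l 2) (b (a (l 2) (b (a (l 2) (c (l 16765040) (l 16764712))) (l 2))) (l 2))) (l 2)) (l 2)))), by decide +kernel⟩

def k7_pm_001_t : ∃ t, chk3 f_pm_001_t t 13 24 1 = true :=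
  ⟨(a (l 4) (b (a (l 4) (b (l 4) (a (b (l 4) (a (l 4) (l 164517377911))) (b (a (l 200487728199) (l 71638728663)) (a (c (l 68417508871) (l 68417508647)) (l 16772760)))))) (a (b (a (l 4) (b (l 4) (a (l 4) (l 85597375847)))) (a (b (l 205319565847) (a (l 166664862215) (l 16783592))) (b (a (l 63048795095) (l 16772552)) (l 16768760)))) (b (a (b (a (l 98482280295) (l 16775368)) (l 16782488)) (c (l 16785960) (l 16785216))) (a (l 16774072) (l 16756584)))))), by decide +kernel⟩

def k8_pm_001_t : ∃ t, chk3 f_pm_001_t t 13 25 1 = true :=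
  ⟨(a (b (a (b (l 4) (a (l 4) (b (l 4) (a (l 4) (b (l 231626243015) (c (l 73786208679) (l 72712466807))))))) (b (a (b (l 4) (a (l 4) (l 225720662071))) (b (a (l 4) (b (l 207467051559) (l 16782280))) (a (c (l 68954374407) (l 67880630199)) (l 16772416)))) (b (a (a (c (l 183307861511) (l 189750311031)) (b (l 72712466871) (l 16774152))) (a (l 16770672) (l 16765648))) (a (a (b (l 16781920) (l 16772368)) (l 16768864)) (l 16771688))))) (a (a (a (b (a (l 4) (b (l 4) (c (l 173644185831) (l 178476022919)))) (b (b (c (l 24930952759) (l 16781240)) (l 16772248)) (a (l 16768112) (l 16765400)))) (b (b (b (l 4) (l 242363661639)) (b (c (l 71101854503) (l 68417500039)) (l 16776760))) (b (c (l 16768712) (l 16768536)) (l 16761336)))) (a (b (b (b (a (l 4) (l 93650429911)) (a (l 64122528151) (l 16774608))) (c (l 16770560) (l 16770432))) (c (l 16770240) (l 16759384))) (b (b (c (l 16772408) (l 16772312)) (l 16765120)) (b (l 16757888) (l 16750656))))) (a (b (b (b (l 16776640) (l 16773072))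 (c (l 16757408) (l 16757000))) (c (l 16757208) (l 16756544))) (b (c (l 16771904) (l 16771288)) (b (l 16760944) (l 16732816)))))) (a (b (b (a (b (l 16782152) (l 16765112)) (l 16780376)) (a (l 16770752) (l 16767256))) (b (a (b (l 16765672) (l 16737672)) (l 16753520)) (c (l 16744216) (l 16742712)))) (b (b (c (l 16769704) (l 16768160)) (a (l 16759584) (l 16732064))) (b (c (l 16743680) (l 16741328)) (l 16728344))))), by decide +kernel⟩

def k9_pm_001_t : ∃ t, chk3 f_pm_001_t t 13 13 1 = true :=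
  ⟨(b (a (b (a (a (b (c (b (l 16767488) (l 16749920)) (b (l 16761744) (l 22112318727))) (a (l 2) (l 67209471895))) (a (b (b (l 16748744) (l 16741576)) (b (l 16734472) (l 16727456))) (b (l 16739856) (b (l 16729208) (l 16722192))))) (b (a (a (l 16745128) (l 16740016)) (c (l 16722704) (l 16742352))) (a (a (l 16720472) (l 16715360)) (b (l 16711416) (l 16704376))))) (a (b (a (l 2) (b (l 47882065319) (l 2))) (l 2)) (b (a (b (l 16707488) (l 16700664)) (b (l 16697424) (l 16690560))) (a (c (l 16702560) (l 77946787895)) (l 40365803927))))) (b (a (b (c (l 16730056) (l 16728192)) (c (l 16715944) (l 16718928))) (b (l 16713840) (l 16699208))) (a (a (b (l 16684360) (l 16670720)) (b (l 16675432) (l 16661576))) (b (l 16684648) (a (l 16653232) (l 16645832)))))) (a (b (a (l 2) (a (l 2) (b (l 84389194087) (l 2)))) (l 2)) (b (a (b (a (l 29091479191) (l 16648208)) (a (l 90831611511) (b (l 16638640) (l 16632528)))) (b (a (l 16639552) (l 16631768)) (a (l 16637048) (l 16618360)))) (a (b (a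 (l 2) (l 90294698967)) (l 2)) (b (a (c (l 80094127911) (l 78483503415)) (b (l 16608928) (c (l 16606160) (l 16599672)))) (b (a (a (l 2) (l 57008655063)) (l 46808097735)) (a (l 2) (l 46808084583)))))))), by decide +kernel⟩

def k10_pm_001_t : ∃ t, chk3 f_pm_001_t t 6 7 1 = true :=
  ⟨(b (a (l 2) (b (a (l 2) (a (l 2) (b (b (a (l 2) (c (l 69356641639) (l 16587552))) (l 2)) (l 2)))) (l 2))) (l 2)), by decide +kernel⟩

def k11_pm_001_t : ∃ t, chk3 f_pm_001_t t 7 12 1 = true :=
  ⟨(a (b (a (b (a (b (a (b (a (l 4) (l 97408536663)) (a (l 92576696967) (l 16774840))) (b (l 16782072) (l 16770040))) (a (l 16780360) (l 16763640))) (b (a (l 16766408) (l 16761584)) (l 16776728))) (a (a (b (a (l 16783296) (l 16759168)) (l 16771576)) (b (l 16754696) (l 16745184))) (a (l 16744760) (l 16740456)))) (a (b (b (l 16776744) (l 16769360)) (a (l 16737088) (l 16734672))) (b (l 16767648) (l 16752696)))) (a (b (a (b (a (l 16739152) (l 16734536)) (l 16745184)) (b (l 16749016) (a (l 16719048) (l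 16715960)))) (a (b (l 16731792) (l 16696640)) (b (a (l 16706000) (l 16704192)) (l 16690880)))) (a (b (l 16737728) (b (l 16701224) (l 16689400))) (b (l 16734832) (l 16693088))))) (a (b (b (a (l 16742536) (l 16739952)) (a (l 16728336) (l 16726088))) (b (a (l 16711912) (l 16710192)) (a (l 16692392) (l 16692320)))) (b (b (a (l 16739408) (l 16741680)) (a (l 16725848) (l 16728280))) (b (a (l 16709992) (l 16712432)) (a (l 16692368) (l 16694480)))))), by decide +kernel⟩

def k12_pm_001_t : ∃ t, chk3 f_pm_001_t t 7 13 1 = true :=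
  ⟨(a (b (a (b (a (b (l 16681912) (l 16666848)) (l 16689232)) (a (b (l 16651680) (l 16636616)) (b (l 16644712) (l 16628784)))) (b (a (b (l 16675848) (l 16660384)) (b (l 16676584) (l 16663952))) (a (b (l 16644072) (l 16627352)) (b (l 16649256) (l 16632728))))) (a (b (a (b (l 16621864) (a (l 16611000) (l 16604856))) (b (l 16612976) (a (l 16599776) (l 16595936)))) (a (b (a (b (l 16601296) (l 16594600)) (l 16590752)) (a (c (l 16588568) (l 16581400)) (l 16577688))) (b (c (l 16587152) (l 16579304)) (a (l 16571712) (l 16567264))))) (b (a (b (a (l 16610616) (l 16610936)) (l 16615080)) (b (l 16614464) (l 16597928))) (a (b (l 16578944) (c (l 16568840) (l 16558896))) (b (l 16581288) (l 16565080)))))) (b (a (b (a (l 16670144) (l 16671584)) (a (b (l 16653408) (a (l 16638728) (l 16641112))) (b (l 16653704) (l 16642096)))) (b (a (b (l 16678552) (l 16668672)) (b (l 16680728) (l 16669848))) (a (l 16650768) (l 16654752)))) (a (b (a (b (l 16624144) (l 16606560)) (b (l 16630344) (a (l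 16615592) (l 6)))) (a (b (l 16588864) (l 16571528)) (l 6))) (b (a (l 16626736) (l 6)) (l 6))))), by decide +kernel⟩

def k13_pm_001_t : ∃ t, chk3 f_pm_001_t t 7 7 1 = true :=
  ⟨(b (a (b (a (b (a (b (a (c (l 16576136) (l 16568328)) (l 16564648)) (a (l 40365573655) (c (l 16556096) (l 16547576)))) (b (a (l 16558304) (l 16553416)) (a (l 16545200) (l 16539912)))) (a (a (l 2) (b (l 57545402071) (l 2))) (b (a (c (l 16536960) (l 16527768)) (c (l 16531488) (l 16521928))) (a (l 43049848599) (l 6))))) (b (a (b (c (l 16554304) (l 16544176)) (a (l 16536160) (l 16534112))) (b (l 16549304) (l 6))) (l 6))) (a (a (l 2) (l 6)) (l 6))) (l 6)) (l 6)), by decide +kernel⟩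

theorem s14_pm_001_t : ∃ t, chk3 f_pm_001_t t 7 6 1 = true := ex3_b k11_pm_001_t k12_pm_001_t

theorem s15_pm_001_t : ∃ t, chk3 f_pm_001_t t 7 3 1 = true := ex3_b s14_pm_001_t k13_pm_001_t

theorem s16_pm_001_t : ∃ t, chk3 f_pm_001_t t 13 12 1 = true := ex3_b k7_pm_001_t k8_pm_001_t

theorem s17_pm_001_t : ∃ t, chk3 f_pm_001_t t 13 6 1 = true := ex3_b s16_pm_001_t k9_pm_001_t

theorem s18_pm_001_t : ∃ t, chk3 f_pm_001_t t 6 6 1 = true := ex3_a k6_pm_001_t s17_pm_001_t

theorem s19_pm_001_t : ∃ t, chk3 f_pm_001_t t 6 3 1 = true := ex3_b s18_pm_001_t k10_pm_001_t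

theorem s20_pm_001_t : ∃ t, chk3 f_pm_001_t t 3 3 1 = true := ex3_a s19_pm_001_t s15_pm_001_t

theorem s21_pm_001_t : ∃ t, chk3 f_pm_001_t t 7 11 1 = true := ex3_a k4_pm_001_t k5_pm_001_t

theorem s22_pm_001_t : ∃ t, chk3 f_pm_001_t t 7 5 1 = true := ex3_b k3_pm_001_t s21_pm_001_t

theorem s23_pm_001_t : ∃ t, chk3 f_pm_001_t t 3 5 1 = true := ex3_a k2_pm_001_t s22_pm_001_t

theorem s24_pm_001_t : ∃ t, chk3 f_pm_001_t t 3 2 1 = true := ex3_b k1_pm_001_t s23_pm_001_t

theorem s25_pm_001_t : ∃ t, chk3 f_pm_001_t t 3 1 1 = true := ex3_b s24_pm_001_t s20_pm_001_t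

theorem s26_pm_001_t : ∃ t, chk3 f_pm_001_t t 1 1 1 = true := ex3_a k0_pm_001_t s25_pm_001_t

theorem c_pm_001_t : CertNE 0 536870912 536870912 536870912 649613803 48318383 3 eng mog cd0q0 cd0q1 pd0 false true false .up 0 0 1
    ndB0q0 ndB0q1 pcB0 cut_pm_001_t Ext.none :=
  certNE0 (fam := false) (s1 := true) (s2 := false) (a := 0) (b := 0) (c := 1) (cn := .up) (n1 := ndB0q0) (n2 := ndB0q1) (pc := pcB0) (cut := cut_pm_001_t) (xt := Ext.none) (P1 := 0) (W1 := 536870912) (P2 := 536870912) (W2 := 536870912) (P3 := 649613803) (W3 := 48318383) (N0 := 3) (En := eng) (mo := mog) (C1 := cd0q0) (C2 := cd0q1) (C3 := pd0)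
    rfl s26_pm_001_t

noncomputable def cut_pm_011_s : Cut := Cut.of [[⟨4, 0, 0, 1449551462⟩], [⟨0, 0, 0, 53687091⟩, ⟨1, 1, 0, 53687091⟩, ⟨2, 1, 0, 53687091⟩]]

noncomputable def f_pm_011_s : ℕ → ℕ → ℕ → ℕ → Bool := onCell 0 536870912 536870912 536870912 649613803 48318383
    (rowNE 3 eng mog cd0q0 cd0q1 pd1 0 false true false .pnn 0 1 1 (qsf 0 536870912 536870912 536870912 1) ndB0q0 ndB0q1 pcB1 cut_pm_011_s Ext.none)

def k0_pm_011_s : ∃ t, chk3 f_pm_011_s t 1 1 1 = true :=
  ⟨(l 6), by decide +kernel⟩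

theorem c_pm_011_s : CertNE 0 536870912 536870912 536870912 649613803 48318383 3 eng mog cd0q0 cd0q1 pd1 false true false .pnn 0 1 1
    ndB0q0 ndB0q1 pcB1 cut_pm_011_s Ext.none :=
  certNE0 (fam := false) (s1 := true) (s2 := false) (a := 0) (b := 1) (c := 1) (cn := .pnn) (n1 := ndB0q0) (n2 := ndB0q1) (pc := pcB1) (cut := cut_pm_011_s) (xt := Ext.none) (P1 := 0) (W1 := 536870912) (P2 := 536870912) (W2 := 536870912) (P3 := 649613803) (W3 := 48318383) (N0 := 3) (En := eng) (mo := mog) (C1 := cd0q0) (C2 := cd0q1) (C3 := pd1)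
    rfl k0_pm_011_s

end Pool.Agent.Strip051.G.I6050_6500.Tab.CS.BB00

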