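import Pool.Agent.Strip051.G.I6050_6500.Tab
import Pool.Agent.Strip051.PB.ExtD2

/-! # Certificates B0 (generated) -/

set_option linter.all false
set_option maxRecDepth 100000

namespace Pool.Agent.Strip051.G.I6050_6500.Tab.C.BA00

open Pool.Agent.Strip051.PB Pool.Agent.Strip051.PB.T
open Pool.Agent.Strip051.G.I6050_6500.Tab

noncomputable def cut_pp_001 : Cut := Cut.of [[⟨3, 0, 0, 1449551462⟩], [⟨4, 0, 0, 2845415833⟩]]

noncomputable def f_pp_001 : ℕ → ℕ → ℕ → ℕ → Bool := onCell 0 536870912 0 536870912 649613803 48318383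
    (rowB 3 eng mog cd0q0 cd0q0 pd1 0 true true true .up 0 0 1 (qsf 0 536870912 0 536870912 1) ndB0q0 ndB0q0 pcB1 cut_pp_001 Ext.none)

def k0_pp_001 : ∃ t, chk3 f_pp_001 t 1 1 1 = true :=
  ⟨(l 4), by decide +kernel⟩

theorem c_pp_001 : CertB 0 536870912 0 536870912 649613803 48318383 3 eng mog cd0q0 cd0q0 pd1 true true true .up 0 0 1
    ndB0q0 ndB0q0 pcB1 cut_pp_001 Ext.none :=
  certB0 (fam := true) (s1 := true) (s2 := true) (a := 0) (b := 0) (c := 1) (cn := .up) (n1 := ndB0q0) (n2 := ndB0q0) (pc := pcB1) (cut := cut_pp_001) (xt := Ext.none) (P1 := 0) (W1 := 536870912) (P2 := 0) (W2 := 536870912) (P3 := 649613803) (W3 := 48318383) (N0 := 3) (En := eng) (mo := mog) (C1 := cd0q0) (C2 := cd0q0) (C3 := pd1)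
    rfl k0_pp_001

noncomputable def cut_pp_011 : Cut := Cut.of [[⟨3, 0, 0, 1449551462⟩], [⟨4, 0, 0, 2845415833⟩], [⟨0, 0, 0, 67108864⟩, ⟨1, 1, 0, 67108864⟩, ⟨2, 1, 0, 67108864⟩]]

noncomputable def f_pp_011 : ℕ → ℕ → ℕ → ℕ → Bool := onCell 0 536870912 536870912 536870912 649613803 48318383
    (rowB 3 eng mog cd0q0 cd0q1 pd1 0 true true true .pnn 0 1 1 (qsf 0 536870912 536870912 536870912 1) ndB0q0 ndB0q1 pcB1 cut_pp_011 Ext.none)

def k0_pp_011 : ∃ t, chk3 f_pp_011 t 1 1 1 = true :=
  ⟨(l 14), by decide +kernel⟩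

theorem c_pp_011 : CertB 0 536870912 536870912 536870912 649613803 48318383 3 eng mog cd0q0 cd0q1 pd1 true true true .pnn 0 1 1
    ndB0q0 ndB0q1 pcB1 cut_pp_011 Ext.none :=
  certB0 (fam := true) (s1 := true) (s2 := true) (a := 0) (b := 1) (c := 1) (cn := .pnn) (n1 := ndB0q0) (n2 := ndB0q1) (pc := pcB1) (cut := cut_pp_011) (xt := Ext.none) (P1 := 0) (W1 := 536870912) (P2 := 536870912) (W2 := 536870912) (P3 := 649613803) (W3 := 48318383) (N0 := 3) (En := eng) (mo := mog) (C1 := cd0q0) (C2 := cd0q1) (C3 := pd1)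
    rfl k0_pp_011

noncomputable def cut_pp_012 : Cut := Cut.of [[⟨3, 0, 0, 1449551462⟩], [⟨4, 0, 0, 2845415833⟩], [⟨0, 0, 0, 67108864⟩, ⟨1, 1, 0, 67108864⟩, ⟨2, 1, 0, 67108864⟩]]

noncomputable def f_pp_012 : ℕ → ℕ → ℕ → ℕ → Bool := onCell 0 536870912 536870912 536870912 649613803 48318383
    (rowB 3 eng mog cd0q0 cd0q1 pd2 0 true true true .pnp 0 1 2 (qsf 0 536870912 536870912 536870912 2) ndB0q0 ndB0q1 pcB2 cut_pp_012 Ext.none)

def k0_pp_012 : ∃ t, chk3 f_pp_012 t 1 1 1 = true :=
  ⟨(l 14), by decide +kernel⟩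

theorem c_pp_012 : CertB 0 536870912 536870912 536870912 649613803 48318383 3 eng mog cd0q0 cd0q1 pd2 true true true .pnp 0 1 2
    ndB0q0 ndB0q1 pcB2 cut_pp_012 Ext.none :=
  certB0 (fam := true) (s1 := true) (s2 := true) (a := 0) (b := 1) (c := 2) (cn := .pnp) (n1 := ndB0q0) (n2 := ndB0q1) (pc := pcB2) (cut := cut_pp_012) (xt := Ext.none) (P1 := 0) (W1 := 536870912) (P2 := 536870912) (W2 := 536870912) (P3 := 649613803) (W3 := 48318383) (N0 := 3) (En := eng) (mo := mog) (C1 := cd0q0) (C2 := cd0q1) (C3 := pd2)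
    rfl k0_pp_012

noncomputable def cut_pp_022 : Cut := Cut.of [[⟨3, 0, 0, 1449551462⟩], [⟨4, 0, 0, 2845415833⟩], [⟨0, 0, 0, 53687091⟩, ⟨1, 1, 0, 53687091⟩, ⟨2, 1, 0, 53687091⟩]]

noncomputable def f_pp_022 : ℕ → ℕ → ℕ → ℕ → Bool := onCell 0 536870912 0 536870912 649613803 48318383
    (rowB 3 eng mog cd0q0 cd0q2 pd2 0 true true true .pp 0 2 2 (qsf 0 536870912 0 536870912 2) ndB0q0 ndB0q2 pcB2 cut_pp_022 Ext.none)

def k0_pp_022 : ∃ t, chk3 f_pp_022 t 4 4 1 = true :=
  ⟨(a (a (b (b (a (c (l 16441472) (l 16442480)) (c (l 16447984) (l 16448024))) (a (c (l 16445288) (l 16446144)) (a (l 16468872) (l 16454016)))) (a (c (b (l 16451368) (l 16459488)) (b (l 16452120) (l 16460040))) (a (b (a (l 16452360) (l 16454552)) (b (l 16459024) (l 16463592))) (b (l 16459352) (l 16487096))))) (b (a (c (l 16461008) (l 16461640)) (l 16470296)) (a (c (l 16493728) (l 16477752)) (l 16524936)))) (b (a (l 16565000) (a (l 16490848) (l 16498808))) (a (a (l 16492600) (l 16500832)) (c (l 16555000) (l 16511096))))), by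 decide +kernel⟩

def k1_pp_022 : ∃ t, chk3 f_pp_022 t 8 5 1 = true :=
  ⟨(b (a (b (a (c (l 16469576) (l 16490680)) (a (l 16471736) (b (l 16472320) (l 16477432)))) (a (a (l 16501688) (b (l 16478936) (l 16486040))) (b (l 16503232) (a (l 16488336) (l 16490992))))) (b (a (b (l 16481832) (l 16486544)) (l 16496272)) (a (b (a (l 16488488) (l 16495120)) (a (l 16515936) (l 16501376))) (b (l 16504536) (l 16511072))))) (a (b (a (b (a (l 16513024) (l 16494152)) (a (l 16500824) (l 16503136))) (b (a (l 16496600) (l 16499424)) (a (l 16505816) (l 16508832)))) (a (b (a (c (l 16510648) (l 16511248)) (l 16513208)) (a (c (l 16521368) (l 16522344)) (c (l 16524496) (l 16524704)))) (b (a (l 16526576) (c (l 16520480) (l 16518712))) (a (c (l 16527960) (l 16527424)) (c (l 16531744) (l 16530496)))))) (b (a (b (a (l 16518544) (l 16508472)) (a (l 16512168) (a (b (l 16512816) (l 16517560)) (l 16518304)))) (b (l 16518488) (a (l 16523488) (l 16530176)))) (a (b (a (c (l 16524392) (l 16521888)) (c (b (l 16526056) (l 16531416))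 (a (l 16524472) (b (l 16523896) (l 16529320))))) (a (c (l 16556800) (l 16544368)) (c (b (l 16537168) (l 16543224)) (b (l 16534392) (l 16540776))))) (b (a (b (l 16530376) (a (l 16544056) (l 16537088))) (b (l 16537216) (l 16542264))) (a (a (b (c (l 16540872) (a (l 16536928) (l 16538400))) (c (l 16546744) (l 16543824))) (b (l 16542344) (c (l 16549688) (l 16557184)))) (b (l 16547592) (l 16553200)))))))), by decide +kernel⟩

def k2_pp_022 : ∃ t, chk3 f_pp_022 t 9 5 1 = true :=
  ⟨(b (a (b (a (l 16507168) (l 16517120)) (a (b (l 16516152) (l 16523112)) (l 16530560))) (b (c (l 16551816) (l 16530064)) (l 16587696))) (a (b (a (b (l 16530968) (l 16539768)) (b (l 16542632) (l 16551888))) (a (b (a (l 16546384) (l 16552848)) (a (b (l 16554400) (l 16560104)) (l 16563912))) (b (a (l 16559120) (l 16565240)) (a (l 16570400) (l 16576736))))) (b (a (b (l 16553648) (l 16563392)) (l 16590296)) (b (a (l 16574168) (l 16585728)) (a (a (l 16582944) (l 16589048)) (l 14)))))), by decide +kernel⟩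

def k3_pp_022 : ∃ t, chk3 f_pp_022 t 5 2 1 = true :=
  ⟨(b (a (b (a (a (l 16507736) (b (l 16513264) (l 16521464))) (a (b (l 16523648) (l 16532248)) (c (b (l 16537600) (a (l 16542592) (l 16549112))) (l 16578224)))) (a (b (a (l 16520976) (l 16531288)) (a (l 16532064) (b (l 16539488) (l 16545512)))) (b (a (l 16542320) (c (c (a (l 16552040) (l 16558584)) (l 16575760)) (l 16551976))) (b (c (b (a (l 16549736) (a (l 16558208) (l 16564600))) (a (l 16552472) (a (l 16561128) (l 16567464)))) (a (l 16548976) (l 16560968))) (a (l 16556728) (a (l 16565576) (l 16571800))))))) (a (b (b (a (l 16547368) (l 16560424)) (c (a (l 16559472) (l 16594592)) (l 16580824))) (b (a (c (b (l 16566592) (b (l 16570224) (a (l 16569136) (l 16576576)))) (l 16564768)) (b (a (l 16574960) (l 16581984)) (b (a (a (l 16577352) (l 16580912)) (l 16586320)) (l 16585680)))) (a (c (b (l 16577104) (l 16583024)) (l 16577280)) (a (l 16589848) (l 16597136))))) (a (b (b (l 16573936) (c (l 16588040) (l 16580328))) (b (b (c (b (l 16594448)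 (a (l 16593472) (l 16601040))) (l 16589304)) (c (l 16601568) (l 16595600))) (c (l 16610552) (l 16605512)))) (b (b (l 16587848) (c (a (l 16598992) (l 16606272)) (l 16594616))) (b (a (b (l 16624824) (l 16609952)) (l 16614440)) (l 16623288)))))) (a (b (b (a (c (l 16571000) (l 16549128)) (a (l 16566648) (b (l 16575216) (l 16582096)))) (a (l 16586376) (l 16629880))) (b (a (a (l 16600848) (l 16632352)) (b (l 16633696) (l 14))) (a (a (b (l 16597032) (l 14)) (l 14)) (l 14)))) (b (a (b (a (b (l 16588608) (l 16595312)) (l 16606368)) (a (c (l 16606848) (l 16606496)) (l 14))) (b (a (l 16621224) (l 16636384)) (l 14))) (l 14)))), by decide +kernel⟩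

def k4_pp_022 : ∃ t, chk3 f_pp_022 t 8 6 1 = true :=
  ⟨(b (b (a (a (a (b (c (a (l 16532288) (l 16533856)) (l 16534504)) (c (l 16545696) (l 16547672))) (b (c (l 16536376) (b (l 16533872) (l 16540328))) (c (b (l 16545880) (l 16552512)) (l 16550488)))) (b (a (c (l 16540024) (l 16550536)) (c (l 16543984) (l 16553824))) (a (c (l 16553032) (b (l 16550144) (l 16557192))) (b (l 16553464) (l 16570952))))) (a (b (b (a (l 16544040) (c (l 16549520) (l 16547416))) (a (l 16561160) (c (l 16556056) (l 16554320)))) (a (b (l 16568024) (l 16564640)) (b (c (l 16562816) (l 16561456)) (l 16579584)))) (b (a (a (b (l 16551520) (l 16558320)) (a (b (l 16553264) (l 16560072)) (b (a (l 16554264) (l 16555056)) (l 16561264)))) (b (c (l 16560672) (l 16558000)) (a (a (c (l 16564216) (l 16561592)) (l 16564312)) (l 16567008)))) (a (b (c (l 16567752) (l 16565808)) (c (l 16574824) (l 16573288))) (b (a (a (l 16569576) (b (l 16569160) (l 16572648))) (c (l 16574856) (l 16572496))) (a (l 16577552) (b (a (l 16577656) (l 16579312))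 (l 14)))))))) (b (a (a (a (c (l 16558672) (b (l 16553960) (l 16558240))) (c (l 16562920) (l 16564040))) (a (b (l 16563728) (l 16571072)) (b (c (l 16567624) (l 16568152)) (l 16575152)))) (a (a (b (l 16582456) (c (l 16579544) (l 16579872))) (b (l 16587016) (l 16589416))) (a (b (c (l 16582128) (l 16580992)) (l 14)) (l 14)))) (a (c (a (a (l 16568088) (l 16575768)) (a (l 16581696) (l 16586200))) (a (a (b (l 16562640) (l 16567224)) (b (l 16570840) (l 16575616))) (a (l 16581152) (l 16587592)))) (a (a (b (l 16587288) (l 14)) (l 14)) (l 14))))) (a (b (a (b (a (c (l 16578240) (b (l 16572064) (l 16577152))) (c (l 16586328) (b (l 16580632) (l 14)))) (l 14)) (l 14)) (l 14)) (l 14))), by decide +kernel⟩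

def k5_pp_022 : ∃ t, chk3 f_pp_022 t 9 6 1 = true :=
  ⟨(b (a (b (a (b (a (b (l 16566080) (l 16572312)) (l 16586528)) (b (a (l 16578800) (l 16585800)) (l 14))) (b (a (l 16582736) (l 16589288)) (l 14))) (l 14)) (l 14)) (l 14)), by decide +kernel⟩

def k6_pp_022 : ∃ t, chk3 f_pp_022 t 4 7 1 = true :=
  ⟨(l 14), by decide +kernel⟩

def k7_pp_022 : ∃ t, chk3 f_pp_022 t 5 3 1 = true :=
  ⟨(l 14), by decide +kernel⟩

def k8_pp_022 : ∃ t, chk3 f_pp_022 t 3 1 1 = true :=
  ⟨(b (b (a (a (b (a (b (a (l 16602048) (l 16616112)) (a (b (l 16610376) (a (l 16612632) (l 16620056))) (b (l 16624720) (l 16631000)))) (b (a (l 16629752) (l 16684776)) (a (l 16663032) (l 16655592)))) (a (b (a (l 16625712) (l 16640576)) (a (l 16638536) (l 16653600))) (b (a (l 16654984) (l 16668832)) (l 14)))) (b (a (b (a (b (l 16652280) (l 16658592)) (b (a (l 16661064) (l 16666672)) (l 16670368))) (a (l 16668448) (l 16680472))) (b (a (b (a (b (l 97274088983) (l 16673640)) (l 2)) (l 85999831943)) (l 2)) (l 14))) (l 14))) (l 2)) (l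 14)) (l 14)), by decide +kernel⟩

theorem s9_pp_022 : ∃ t, chk3 f_pp_022 t 4 6 1 = true := ex3_a k4_pp_022 k5_pp_022

theorem s10_pp_022 : ∃ t, chk3 f_pp_022 t 4 3 1 = true := ex3_b s9_pp_022 k6_pp_022

theorem s11_pp_022 : ∃ t, chk3 f_pp_022 t 2 3 1 = true := ex3_a s10_pp_022 k7_pp_022

theorem s12_pp_022 : ∃ t, chk3 f_pp_022 t 4 5 1 = true := ex3_a k1_pp_022 k2_pp_022

theorem s13_pp_022 : ∃ t, chk3 f_pp_022 t 4 2 1 = true := ex3_b k0_pp_022 s12_pp_022

theorem s14_pp_022 : ∃ t, chk3 f_pp_022 t 2 2 1 = true := ex3_a s13_pp_022 k3_pp_022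

theorem s15_pp_022 : ∃ t, chk3 f_pp_022 t 2 1 1 = true := ex3_b s14_pp_022 s11_pp_022

theorem s16_pp_022 : ∃ t, chk3 f_pp_022 t 1 1 1 = true := ex3_a s15_pp_022 k8_pp_022

theorem c_pp_022 : CertB 0 536870912 0 536870912 649613803 48318383 3 eng mog cd0q0 cd0q2 pd2 true true true .pp 0 2 2
    ndB0q0 ndB0q2 pcB2 cut_pp_022 Ext.none :=
  certB0 (fam := true) (s1 := true) (s2 := true) (a := 0) (b := 2) (c := 2) (cn := .pp) (n1 := ndB0q0) (n2 := ndB0q2) (pc := pcB2) (cut := cut_pp_022) (xt := Ext.none) (P1 := 0) (W1 := 536870912) (P2 := 0) (W2 := 536870912) (P3 := 649613803) (W3 := 48318383) (N0 := 3) (En := eng) (mo := mog) (C1 := cd0q0) (C2 := cd0q2) (C3 := pd2)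
    rfl s16_pp_022

noncomputable def cut_pp_023 : Cut := Cut.of [[⟨3, 0, 0, 1449551462⟩], [⟨4, 0, 0, 2845415833⟩]]

noncomputable def f_pp_023 : ℕ → ℕ → ℕ → ℕ → Bool := onCell 1610612736 536870912 0 536870912 649613803 48318383
    (rowB 3 eng mog cd0q0 cd0q2 pd3 2 true true true .up 0 2 3 (qsf 0 536870912 0 536870912 3) ndB0q0 ndB0q2 pcB3 cut_pp_023 Ext.none)

def k0_pp_023 : ∃ t, chk3 f_pp_023 t 1 1 1 = true :=
  ⟨(a (b (a (b (a (b (a (a (l 16706328) (l 16692304)) (l 14)) (l 14)) (l 14)) (l 14)) (l 14)) (l 4)) (l 2)), by decide +kernel⟩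

theorem c_pp_023 : CertB 0 536870912 0 536870912 649613803 48318383 3 eng mog cd0q0 cd0q2 pd3 true true true .up 0 2 3
    ndB0q0 ndB0q2 pcB3 cut_pp_023 Ext.none :=
  certB2 (fam := true) (s1 := true) (s2 := true) (a := 0) (b := 2) (c := 3) (cn := .up) (n1 := ndB0q0) (n2 := ndB0q2) (pc := pcB3) (cut := cut_pp_023) (xt := Ext.none) (P1 := 0) (W1 := 536870912) (P2 := 0) (W2 := 536870912) (P3 := 649613803) (W3 := 48318383) (N0 := 3) (En := eng) (mo := mog) (C1 := cd0q0) (C2 := cd0q2) (C3 := pd3)
    rfl (fun _ => rfl) k0_pp_023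

noncomputable def cut_pp_101 : Cut := Cut.of [[⟨3, 0, 0, 1449551462⟩], [⟨4, 0, 0, 2845415833⟩]]

noncomputable def f_pp_101 : ℕ → ℕ → ℕ → ℕ → Bool := onCell 536870912 536870912 0 536870912 649613803 48318383
    (rowB 3 eng mog cd0q1 cd0q0 pd1 0 true true true .npn 1 0 1 (qsf 536870912 536870912 0 536870912 1) ndB0q1 ndB0q0 pcB1 cut_pp_101 Ext.none)

def k0_pp_101 : ∃ t, chk3 f_pp_101 t 1 1 1 = true :=
  ⟨(l 14), by decide +kernel⟩

theorem c_pp_101 : CertB 536870912 536870912 0 536870912 649613803 48318383 3 eng mog cd0q1 cd0q0 pd1 true true true .npn 1 0 1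
    ndB0q1 ndB0q0 pcB1 cut_pp_101 Ext.none :=
  certB0 (fam := true) (s1 := true) (s2 := true) (a := 1) (b := 0) (c := 1) (cn := .npn) (n1 := ndB0q1) (n2 := ndB0q0) (pc := pcB1) (cut := cut_pp_101) (xt := Ext.none) (P1 := 536870912) (W1 := 536870912) (P2 := 0) (W2 := 536870912) (P3 := 649613803) (W3 := 48318383) (N0 := 3) (En := eng) (mo := mog) (C1 := cd0q1) (C2 := cd0q0) (C3 := pd1)
    rfl k0_pp_101

noncomputable def cut_pp_102 : Cut := Cut.of [[⟨3, 0, 0, 1449551462⟩], [⟨4, 0, 0, 2845415833⟩]]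

noncomputable def f_pp_102 : ℕ → ℕ → ℕ → ℕ → Bool := onCell 536870912 536870912 0 536870912 649613803 48318383
    (rowB 3 eng mog cd0q1 cd0q0 pd2 0 true true true .npp 1 0 2 (qsf 536870912 536870912 0 536870912 2) ndB0q1 ndB0q0 pcB2 cut_pp_102 Ext.none)

def k0_pp_102 : ∃ t, chk3 f_pp_102 t 1 1 1 = true :=
  ⟨(l 14), by decide +kernel⟩

theorem c_pp_102 : CertB 536870912 536870912 0 536870912 649613803 48318383 3 eng mog cd0q1 cd0q0 pd2 true true true .npp 1 0 2
    ndB0q1 ndB0q0 pcB2 cut_pp_102 Ext.none :=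
  certB0 (fam := true) (s1 := true) (s2 := true) (a := 1) (b := 0) (c := 2) (cn := .npp) (n1 := ndB0q1) (n2 := ndB0q0) (pc := pcB2) (cut := cut_pp_102) (xt := Ext.none) (P1 := 536870912) (W1 := 536870912) (P2 := 0) (W2 := 536870912) (P3 := 649613803) (W3 := 48318383) (N0 := 3) (En := eng) (mo := mog) (C1 := cd0q1) (C2 := cd0q0) (C3 := pd2)
    rfl k0_pp_102

noncomputable def cut_pp_112 : Cut := Cut.of [[⟨3, 0, 0, 1449551462⟩], [⟨4, 0, 0, 2845415833⟩]]

noncomputable def f_pp_112 : ℕ → ℕ → ℕ → ℕ → Bool := onCell 536870912 536870912 536870912 536870912 649613803 48318383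
    (rowB 3 eng mog cd0q1 cd0q1 pd2 0 true true true .dn 1 1 2 (qsf 536870912 536870912 536870912 536870912 2) ndB0q1 ndB0q1 pcB2 cut_pp_112 Ext.none)

def k0_pp_112 : ∃ t, chk3 f_pp_112 t 1 1 1 = true :=
  ⟨(l 4), by decide +kernel⟩

theorem c_pp_112 : CertB 536870912 536870912 536870912 536870912 649613803 48318383 3 eng mog cd0q1 cd0q1 pd2 true true true .dn 1 1 2
    ndB0q1 ndB0q1 pcB2 cut_pp_112 Ext.none :=
  certB0 (fam := true) (s1 := true) (s2 := true) (a := 1) (b := 1) (c := 2) (cn := .dn) (n1 := ndB0q1) (n2 := ndB0q1) (pc := pcB2) (cut := cut_pp_112) (xt := Ext.none) (P1 := 536870912) (W1 := 536870912) (P2 := 536870912) (W2 := 536870912) (P3 := 649613803) (W3 := 48318383) (N0 := 3) (En := eng) (mo := mog) (C1 := cd0q1) (C2 := cd0q1) (C3 := pd2)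
    rfl k0_pp_112

noncomputable def cut_pp_113 : Cut := Cut.of [[⟨3, 0, 0, 1449551462⟩], [⟨4, 0, 0, 2845415833⟩]]

noncomputable def f_pp_113 : ℕ → ℕ → ℕ → ℕ → Bool := onCell 536870912 536870912 536870912 536870912 649613803 48318383
    (rowB 3 eng mog cd0q1 cd0q1 pd3 0 true true true .nn 1 1 3 (qsf 536870912 536870912 536870912 536870912 3) ndB0q1 ndB0q1 pcB3 cut_pp_113 Ext.none)

def k0_pp_113 : ∃ t, chk3 f_pp_113 t 1 1 1 = true :=
  ⟨(l 4), by decide +kernel⟩

theorem c_pp_113 : CertB 536870912 536870912 536870912 536870912 649613803 48318383 3 eng mog cd0q1 cd0q1 pd3 true true true .nn 1 1 3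
    ndB0q1 ndB0q1 pcB3 cut_pp_113 Ext.none :=
  certB0 (fam := true) (s1 := true) (s2 := true) (a := 1) (b := 1) (c := 3) (cn := .nn) (n1 := ndB0q1) (n2 := ndB0q1) (pc := pcB3) (cut := cut_pp_113) (xt := Ext.none) (P1 := 536870912) (W1 := 536870912) (P2 := 536870912) (W2 := 536870912) (P3 := 649613803) (W3 := 48318383) (N0 := 3) (En := eng) (mo := mog) (C1 := cd0q1) (C2 := cd0q1) (C3 := pd3)
    rfl k0_pp_113

noncomputable def cut_pp_123 : Cut := Cut.of [[⟨3, 0, 0, 1449551462⟩], [⟨4, 0, 0, 2845415833⟩]]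

noncomputable def f_pp_123 : ℕ → ℕ → ℕ → ℕ → Bool := onCell 536870912 536870912 0 536870912 649613803 48318383
    (rowB 3 eng mog cd0q1 cd0q2 pd3 0 true true true .npn 1 2 3 (qsf 536870912 536870912 0 536870912 3) ndB0q1 ndB0q2 pcB3 cut_pp_123 Ext.none)

def k0_pp_123 : ∃ t, chk3 f_pp_123 t 1 1 1 = true :=
  ⟨(a (l 14) (l 4)), by decide +kernel⟩

theorem c_pp_123 : CertB 536870912 536870912 0 536870912 649613803 48318383 3 eng mog cd0q1 cd0q2 pd3 true true true .npn 1 2 3
    ndB0q1 ndB0q2 pcB3 cut_pp_123 Ext.none :=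
  certB0 (fam := true) (s1 := true) (s2 := true) (a := 1) (b := 2) (c := 3) (cn := .npn) (n1 := ndB0q1) (n2 := ndB0q2) (pc := pcB3) (cut := cut_pp_123) (xt := Ext.none) (P1 := 536870912) (W1 := 536870912) (P2 := 0) (W2 := 536870912) (P3 := 649613803) (W3 := 48318383) (N0 := 3) (En := eng) (mo := mog) (C1 := cd0q1) (C2 := cd0q2) (C3 := pd3)
    rfl k0_pp_123

noncomputable def cut_pp_202 : Cut := Cut.of [[⟨3, 0, 0, 1449551462⟩], [⟨4, 0, 0, 2845415833⟩]]

noncomputable def f_pp_202 : ℕ → ℕ → ℕ → ℕ → Bool := onCell 0 536870912 0 536870912 649613803 48318383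
    (rowB 3 eng mog cd0q2 cd0q0 pd2 0 true true true .pp 2 0 2 (qsf 0 536870912 0 536870912 2) ndB0q2 ndB0q0 pcB2 cut_pp_202 Ext.none)

def k0_pp_202 : ∃ t, chk3 f_pp_202 t 1 1 1 = true :=
  ⟨(l 5), by decide +kernel⟩

theorem c_pp_202 : CertB 0 536870912 0 536870912 649613803 48318383 3 eng mog cd0q2 cd0q0 pd2 true true true .pp 2 0 2
    ndB0q2 ndB0q0 pcB2 cut_pp_202 Ext.none :=
  certB0 (fam := true) (s1 := true) (s2 := true) (a := 2) (b := 0) (c := 2) (cn := .pp) (n1 := ndB0q2) (n2 := ndB0q0) (pc := pcB2) (cut := cut_pp_202) (xt := Ext.none) (P1 := 0) (W1 := 536870912) (P2 := 0) (W2 := 536870912) (P3 := 649613803) (W3 := 48318383) (N0 := 3) (En := eng) (mo := mog) (C1 := cd0q2) (C2 := cd0q0) (C3 := pd2)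
    rfl k0_pp_202

noncomputable def cut_pp_203 : Cut := Cut.of [[⟨3, 0, 0, 1449551462⟩], [⟨4, 0, 0, 2845415833⟩]]

noncomputable def f_pp_203 : ℕ → ℕ → ℕ → ℕ → Bool := onCell 0 536870912 0 536870912 649613803 48318383
    (rowB 3 eng mog cd0q2 cd0q0 pd3 0 true true true .up 2 0 3 (qsf 0 536870912 0 536870912 3) ndB0q2 ndB0q0 pcB3 cut_pp_203 Ext.none)

def k0_pp_203 : ∃ t, chk3 f_pp_203 t 1 1 1 = true :=
  ⟨(l 5), by decide +kernel⟩

theorem c_pp_203 : CertB 0 536870912 0 536870912 649613803 48318383 3 eng mog cd0q2 cd0q0 pd3 true true true .up 2 0 3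
    ndB0q2 ndB0q0 pcB3 cut_pp_203 Ext.none :=
  certB0 (fam := true) (s1 := true) (s2 := true) (a := 2) (b := 0) (c := 3) (cn := .up) (n1 := ndB0q2) (n2 := ndB0q0) (pc := pcB3) (cut := cut_pp_203) (xt := Ext.none) (P1 := 0) (W1 := 536870912) (P2 := 0) (W2 := 536870912) (P3 := 649613803) (W3 := 48318383) (N0 := 3) (En := eng) (mo := mog) (C1 := cd0q2) (C2 := cd0q0) (C3 := pd3)
    rfl k0_pp_203

noncomputable def cut_pp_213 : Cut := Cut.of [[⟨3, 0, 0, 1449551462⟩], [⟨4, 0, 0, 2845415833⟩]]

noncomputable def f_pp_213 : ℕ → ℕ → ℕ → ℕ → Bool := onCell 0 536870912 536870912 536870912 649613803 48318383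
    (rowB 3 eng mog cd0q2 cd0q1 pd3 0 true true true .pnn 2 1 3 (qsf 0 536870912 536870912 536870912 3) ndB0q2 ndB0q1 pcB3 cut_pp_213 Ext.none)

def k0_pp_213 : ∃ t, chk3 f_pp_213 t 1 1 1 = true :=
  ⟨(a (l 5) (l 4)), by decide +kernel⟩

theorem c_pp_213 : CertB 0 536870912 536870912 536870912 649613803 48318383 3 eng mog cd0q2 cd0q1 pd3 true true true .pnn 2 1 3
    ndB0q2 ndB0q1 pcB3 cut_pp_213 Ext.none :=
  certB0 (fam := true) (s1 := true) (s2 := true) (a := 2) (b := 1) (c := 3) (cn := .pnn) (n1 := ndB0q2) (n2 := ndB0q1) (pc := pcB3) (cut := cut_pp_213) (xt := Ext.none) (P1 := 0) (W1 := 536870912) (P2 := 536870912) (W2 := 536870912) (P3 := 649613803) (W3 := 48318383) (N0 := 3) (En := eng) (mo := mog) (C1 := cd0q2) (C2 := cd0q1) (C3 := pd3)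
    rfl k0_pp_213

noncomputable def cut_pm_001 : Cut := Cut.of [[⟨3, 0, 0, 1449551462⟩], [⟨4, 0, 0, 2845415833⟩]]

noncomputable def f_pm_001 : ℕ → ℕ → ℕ → ℕ → Bool := onCell 0 536870912 0 536870912 649613803 48318383
    (rowB 3 eng mog cd0q0 cd0q0 pd1 0 true true false .up 0 0 1 (qsf 0 536870912 0 536870912 1) ndB0q0 ndB0q0 pcB1 cut_pm_001 Ext.none)

def k0_pm_001 : ∃ t, chk3 f_pm_001 t 1 1 1 = true :=
  ⟨(l 3), by decide +kernel⟩

theorem c_pm_001 : CertB 0 536870912 0 536870912 649613803 48318383 3 eng mog cd0q0 cd0q0 pd1 true true false .up 0 0 1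
    ndB0q0 ndB0q0 pcB1 cut_pm_001 Ext.none :=
  certB0 (fam := true) (s1 := true) (s2 := false) (a := 0) (b := 0) (c := 1) (cn := .up) (n1 := ndB0q0) (n2 := ndB0q0) (pc := pcB1) (cut := cut_pm_001) (xt := Ext.none) (P1 := 0) (W1 := 536870912) (P2 := 0) (W2 := 536870912) (P3 := 649613803) (W3 := 48318383) (N0 := 3) (En := eng) (mo := mog) (C1 := cd0q0) (C2 := cd0q0) (C3 := pd1)
    rfl k0_pm_001

noncomputable def cut_pm_011 : Cut := Cut.of [[⟨3, 0, 0, 1449551462⟩], [⟨4, 0, 0, 2845415833⟩], [⟨0, 0, 0, 67108864⟩, ⟨1, 1, 0, 67108864⟩, ⟨2, 1, 0, 67108864⟩]]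

noncomputable def f_pm_011 : ℕ → ℕ → ℕ → ℕ → Bool := onCell 0 536870912 536870912 536870912 649613803 48318383
    (rowB 3 eng mog cd0q0 cd0q1 pd1 1 true true false .pnn 0 1 1 (qsf 0 536870912 536870912 536870912 1) ndB0q0 ndB0q1 pcB1 cut_pm_011 Ext.none)

def k0_pm_011 : ∃ t, chk3 f_pm_011 t 1 1 1 = true :=
  ⟨(l 6), by decide +kernel⟩

theorem c_pm_011 : CertB 0 536870912 536870912 536870912 649613803 48318383 3 eng mog cd0q0 cd0q1 pd1 true true false .pnn 0 1 1
    ndB0q0 ndB0q1 pcB1 cut_pm_011 Ext.none :=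
  certB1 (fam := true) (s1 := true) (s2 := false) (a := 0) (b := 1) (c := 1) (cn := .pnn) (n1 := ndB0q0) (n2 := ndB0q1) (pc := pcB1) (cut := cut_pm_011) (xt := Ext.none) (P1 := 0) (W1 := 536870912) (P2 := 536870912) (W2 := 536870912) (P3 := 649613803) (W3 := 48318383) (N0 := 3) (En := eng) (mo := mog) (C1 := cd0q0) (C2 := cd0q1) (C3 := pd1)
    rfl (fun _ => rfl) k0_pm_011

noncomputable def cut_pm_012 : Cut := Cut.of [[⟨3, 0, 0, 1449551462⟩], [⟨4, 0, 0, 2845415833⟩], [⟨0, 0, 0, 33554432⟩, ⟨1, 1, 0, 33554432⟩, ⟨2, 1, 0, 33554432⟩]]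

noncomputable def xt_pm_012 : Ext := extD2 3 ⟨7, 3, 3, 10, 377, 200, 77, 100, 17, 50, 3, 16⟩ eng cd0q0 cd0q1 pd2 true true false .pnp 0 1 2 rfl ndB0q0 ndB0q1 pcB2

noncomputable def f_pm_012 : ℕ → ℕ → ℕ → ℕ → Bool := onCell 0 536870912 536870912 536870912 649613803 48318383
    (rowB 3 eng mog cd0q0 cd0q1 pd2 0 true true false .pnp 0 1 2 (qsf 0 536870912 536870912 536870912 2) ndB0q0 ndB0q1 pcB2 cut_pm_012 xt_pm_012)

def k0_pm_012 : ∃ t, chk3 f_pm_012 t 1 2 1 = true :=
  ⟨(l 6), by decide +kernel⟩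

def k1_pm_012 : ∃ t, chk3 f_pm_012 t 2 3 1 = true :=
  ⟨(b (l 6) (a (l 6) (b (l 6) (a (l 6) (b (l 6) (a (l 6) (b (l 6) (a (b (l 6) (c (a (l 16548776) (l 16541648)) (l 16537752))) (b (c (a (l 16547048) (l 16539928)) (l 16535944)) (c (a (l 16534680) (l 16527904)) (a (l 16526584) (l 16519304)))))))))))), by decide +kernel⟩

def k2_pm_012 : ∃ t, chk3 f_pm_012 t 3 6 1 = true :=
  ⟨(a (l 6) (b (l 6) (a (b (l 6) (a (l 6) (b (l 6) (a (l 6) (b (l 6) (l 16534040)))))) (b (a (l 6) (a (b (l 6) (c (l 16545032) (l 16551440))) (b (l 16572296) (l 16548400)))) (a (b (c (a (l 16579744) (l 16531032)) (a (l 16544608) (l 16536432))) (a (c (l 16527000) (l 16528880)) (l 16541552))) (b (b (a (l 16532568) (l 16531048)) (a (l 16525672) (l 16522200))) (a (l 16514704) (l 16510944)))))))), by decide +kernel⟩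

def k3_pm_012 : ∃ t, chk3 f_pm_012 t 6 14 1 = true :=
  ⟨(a (l 6) (b (l 6) (a (b (l 6) (a (l 6) (b (l 6) (a (c (l 16539592) (l 16532448)) (c (l 16533064) (l 16525640)))))) (b (a (a (l 6) (a (l 6) (a (l 6) (b (l 6) (l 16534232))))) (b (a (l 6) (c (l 16535872) (l 16530760))) (c (a (l 16533096) (l 16527152)) (a (l 16526960) (l 16520848))))) (a (b (a (b (l 6) (a (l 16532296) (l 16529176))) (c (l 16530120) (l 16523120))) (c (a (l 16526904) (l 16520904)) (a (l 16519208) (l 16513000)))) (b (c (a (l 16524136) (l 16518232)) (a (l 16516952) (l 16510928))) (c (a (l 16514976) (l 16509112)) (a (l 16506936) (l 16501008))))))))), by decide +kernel⟩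

def k4_pm_012 : ∃ t, chk3 f_pm_012 t 12 15 1 = true :=
  ⟨(b (a (b (l 6) (a (l 6) (b (l 6) (a (l 6) (l 16542040))))) (b (a (l 6) (b (l 6) (a (l 6) (l 16535456)))) (a (b (b (l 6) (a (l 6) (l 16535856))) (a (c (l 16538504) (l 16530752)) (c (l 16531840) (l 16523520)))) (b (b (a (l 16539408) (c (l 16531128) (l 16523080))) (a (l 16528928) (c (l 16526264) (l 16517704)))) (a (c (b (l 16527840) (l 16522968)) (l 16516536)) (c (b (l 16521520) (l 16516752)) (l 16509792))))))) (a (b (a (b (a (l 6) (l 16545400)) (a (c (l 16544568) (l 16537120)) (c (l 16537576) (l 16529544)))) (b (a (c (l 16541664) (l 16534016)) (c (l 16534832) (l 16526600))) (c (a (l 16530816) (l 16524288)) (a (l 16522208) (l 16515104))))) (a (b (a (c (l 16533024) (l 16524688)) (c (l 16526360) (l 16517448))) (a (c (l 16521352) (l 16512192)) (c (l 16515024) (l 16505288)))) (b (a (c (l 16519920) (l 16510432)) (c (b (l 16516368) (l 16511056)) (l 16503656))) (c (a (l 16508920) (l 16503016)) (a (l 16498608) (l 16492160)))))) (b (a (b (a (c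 (l 16528232) (l 16519424)) (c (b (l 16524352) (l 16519368)) (l 16512496))) (c (a (b (l 16520552) (l 16515432)) (l 16511888)) (a (l 16508240) (l 16501616)))) (b (a (c (l 16515664) (l 16505808)) (c (l 16509632) (l 16499360))) (c (a (l 16505952) (l 16500208)) (a (l 16495240) (l 16489088))))) (a (b (c (a (l 16507704) (l 16501880)) (a (l 16497112) (l 16490808))) (c (a (l 16497304) (l 16491792)) (a (l 16485944) (l 16479952)))) (b (a (c (l 16496248) (l 16484736)) (c (l 16490792) (l 16478880))) (a (c (l 16486464) (l 16474192)) (c (l 16481312) (l 16468648)))))))), by decide +kernel⟩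

def k5_pm_012 : ∃ t, chk3 f_pm_012 t 13 30 1 = true :=
  ⟨(a (b (a (b (a (c (l 16542768) (l 16535560)) (c (l 16536080) (l 16528472))) (a (b (l 16531336) (l 16526000)) (c (l 16526000) (l 16517624)))) (b (a (c (l 16529640) (l 16521680)) (c (l 16523464) (l 16515208))) (a (c (l 16519800) (l 16511112)) (c (l 16513736) (l 16504808))))) (a (b (b (a (c (l 16524776) (l 16516240)) (l 16514360)) (a (l 16515728) (l 16509400))) (c (a (l 16512992) (l 16507000)) (a (l 16503280) (l 16496984)))) (b (b (a (l 16508120) (l 16502008)) (a (l 16503232) (c (l 16501688) (l 16492024)))) (c (a (l 16501128) (l 16495360)) (a (l 16490880) (l 16484936)))))) (b (a (b (c (a (l 16517432) (l 16511496)) (a (l 16508952) (l 16502856))) (c (a (l 16507792) (l 16501920)) (a (l 16498688) (l 16492704)))) (c (b (a (l 16505624) (l 16499792)) (a (l 16496088) (l 16490272))) (b (a (l 16496896) (l 16491048)) (a (l 16486840) (l 16481072))))) (a (b (b (c (l 16497544) (l 16488032)) (c (a (l 16495784) (l 16489944)) (a (l 16486024) (l 16480160))))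 (c (a (l 16489648) (l 16483976)) (a (l 16479136) (l 16473440)))) (b (a (b (l 16484432) (c (l 16484128) (l 16474400))) (b (l 16478688) (c (b (a (l 16480864) (l 16477952)) (l 16477272)) (b (l 16469872) (l 16467568))))) (c (a (b (a (l 16481664) (l 16478776)) (a (l 16477752) (l 16474896))) (b (a (l 16475872) (l 16472960)) (l 16470584))) (a (c (b (l 16472832) (l 16468576)) (l 16464752)) (c (l 16465080) (l 16459176)))))))), by decide +kernel⟩

def k6_pm_012 : ∃ t, chk3 f_pm_012 t 26 31 1 = true :=
  ⟨(b (a (b (a (c (l 16503768) (l 16493136)) (c (l 16498048) (l 16487120))) (a (c (l 16494624) (l 16483152)) (c (l 16489184) (l 16477416)))) (c (b (a (l 16492448) (l 16486936)) (a (l 16483856) (l 16478600))) (b (a (l 16481280) (l 16475600)) (a (l 16471848) (l 16466432))))) (b (b (a (a (l 16481968) (l 16476608)) (a (l 16471384) (a (l 16467536) (c (l 16471112) (l 16458320))))) (a (a (l 16477200) (l 16471984)) (a (l 16466896) (c (a (l 16469432) (l 16466920)) (c (l 16458536) (l 16451440)))))) (a (c (a (l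 16476320) (l 16471440)) (a (l 16463296) (l 16458128))) (a (a (b (l 16463616) (c (l 16465640) (l 16451976))) (c (b (l 16467616) (l 16463232)) (b (l 16454216) (l 16449520)))) (c (b (a (l 16465152) (l 16462640)) (l 16459528)) (b (a (l 16451720) (l 16449232)) (l 16445848))))))), by decide +kernel⟩

def k7_pm_012 : ∃ t, chk3 f_pm_012 t 27 31 1 = true :=
  ⟨(b (b (a (a (c (l 16481480) (l 16470048)) (a (b (l 16474096) (c (l 16475408) (l 16463752))) (c (b (l 16476624) (l 16472680)) (b (l 16465416) (l 16461056))))) (b (c (a (a (l 16473840) (l 16471008)) (l 16466744)) (a (a (l 16462680) (l 16459944)) (l 16455856))) (c (a (l 16468504) (l 16462896)) (a (l 16457016) (l 16451648))))) (a (a (a (b (l 16471000) (c (l 16472656) (l 16460216))) (c (b (l 16474088) (l 16470040)) (b (l 16462024) (l 16457608)))) (c (a (b (l 16471416) (l 16467376)) (l 16487672)) (c (l 16459160) (l 16452416)))) (c (a (c (l 16465168) (l 16459872)) (c (l 16459552) (l 16454448))) (a (c (l 16453888) (l 16447200)) (c (l 16448600) (l 16442008))))))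 (a (c (b (a (b (a (l 16468544) (l 16465928)) (l 16463064)) (c (l 16462728) (l 16456992))) (a (c (l 16459704) (l 16453576)) (c (l 16454544) (l 16448584)))) (b (a (b (l 16464952) (l 16450000)) (c (l 16450608) (l 16443576))) (a (c (l 16446856) (l 16439544)) (c (l 16441968) (l 16434704))))) (c (b (a (c (l 16457328) (l 16451776)) (c (l 16451816) (l 16446488))) (a (c (l 16449264) (l 16443520)) (c (l 16443848) (l 16438368)))) (b (a (c (l 16445520) (l 16438560)) (c (l 16440400) (l 16433568))) (a (c (l 16437064) (l 16429896)) (l 16428696)))))), by decide +kernel⟩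

def k8_pm_012 : ∃ t, chk3 f_pm_012 t 14 14 1 = true :=
  ⟨(b (a (b (a (l 6) (b (l 6) (c (l 16540096) (l 16538912)))) (a (b (l 6) (c (a (l 16538448) (l 16532680)) (a (l 16534520) (l 16528552)))) (b (c (a (l 16535144) (l 16529576)) (l 16529448)) (c (a (l 16527024) (l 16521440)) (a (l 16522728) (l 16517000)))))) (b (a (b (c (l 16536392) (l 16536632)) (c (l 16529088) (l 16527472))) (b (l 16526224) (c (l 16518544) (l 16516496)))) (a (a (b (l 16522912) (c (l 16515920) (l 16511360))) (b (l 16517368) (c (l 16510416) (l 16505760)))) (b (c (l 16510648) (l 16507096)) (c (l 16502376) (l 16497552)))))) (a (b (a (b (c (a (l 16530008) (l 16524256)) (a (l 16524720) (l 16518824))) (c (a (l 16521320) (l 16515592)) (a (l 16514888) (l 16509056)))) (b (c (a (l 16518600) (l 16513016)) (a (l 16513048) (l 16507360))) (c (a (l 16509936) (l 16504336)) (a (l 16503328) (l 16497688))))) (a (c (b (a (l 16512432) (l 16506712)) (a (l 16503336) (l 16497616))) (b (a (l 16505048) (l 16499280)) (a (l 16495200) (l 16489488))))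 (c (b (a (l 16501048) (l 16495424)) (a (l 16491944) (l 16486296))) (b (a (l 16493600) (l 16487992)) (a (l 16483848) (l 16478256)))))) (b (a (c (b (a (l 16507464) (l 16501920)) (a (l 16498760) (l 16493168))) (b (a (l 16501744) (l 16496152)) (a (l 16492088) (l 16486504)))) (c (b (a (l 16496448) (l 16491232)) (a (l 16487624) (l 16482328))) (b (l 16487936) (l 16478256)))) (a (c (b (a (l 16489808) (l 16484160)) (a (l 16480624) (l 16474904))) (b (a (l 16482408) (l 16476808)) (a (l 16472680) (l 16467064)))) (c (b (a (l 16478544) (l 16473160)) (a (l 16469192) (l 16463704))) (b (l 16468528) (l 16458728))))))), by decide +kernel⟩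

def k9_pm_012 : ∃ t, chk3 f_pm_012 t 14 30 2 = true :=
  ⟨(a (b (a (b (a (l 16494024) (l 16488304)) (a (l 16484512) (l 16478776))) (b (a (l 16482608) (l 16476904)) (a (l 16473040) (l 16467280)))) (b (a (b (l 16474368) (a (b (l 16473600) (l 16471368)) (b (l 16467816) (l 16465504)))) (b (l 16462824) (b (l 16459104) (a (l 16459656) (l 16453760))))) (a (a (c (l 16468728) (l 16464496)) (c (l 16462816) (l 16458752))) (a (c (l 16456848) (l 16452968)) (c (l 16450784) (l 16447096)))))) (b (a (b (a (l 16471176) (l 16465360)) (a (l 16461464) (l 16455552))) (b (a (l 16459544) (l 16454008)) (a (b (l 16452120) (l 16447192)) (b (l 16447000) (l 16442824))))) (a (b (c (b (l 16452528) (a (l 16450624) (l 16444536))) (a (l 16449792) (l 16443848))) (a (c (b (l 16446360) (l 16442936)) (b (l 16442952) (l 16439360))) (b (c (a (l 16441760) (l 16439352)) (l 16437320)) (c (l 16438072) (l 16434504))))) (b (a (b (l 16442592) (l 16438384)) (l 16437008)) (a (b (c (l 16436584) (l 16433160)) (c (l 16434336) (l 16430616)))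 (b (c (b (l 16433984) (l 16432720)) (l 16429656)) (c (l 16430928) (l 16427040)))))))), by decide +kernel⟩

def k10_pm_012 : ∃ t, chk3 f_pm_012 t 14 31 2 = true :=
  ⟨(a (b (a (b (a (c (l 16461352) (l 16456752)) (c (l 16455536) (l 16451128))) (a (c (l 16453880) (l 16448992)) (c (l 16448128) (l 16443480)))) (b (a (c (l 16449632) (l 16445440)) (c (b (l 16445416) (l 16441896)) (b (l 16441504) (l 16437864)))) (a (c (b (l 16444128) (l 16440504)) (l 16437936)) (c (b (l 16438680) (l 16435720)) (b (l 16434488) (l 16431352)))))) (a (b (a (c (l 16446232) (l 16441152)) (b (l 16440176) (l 16436368))) (a (c (l 16438392) (l 16433184)) (c (l 16433472) (l 16428456)))) (b (a (b (a (l 16436048) (l 16433728)) (l 16431696)) (c (l 16431432) (l 16426800))) (a (c (l 16429264) (l 16424328)) (c (l 16425184) (l 16420312)))))) (b (a (b (a (a (b (l 16444440) (l 16436184)) (b (l 16436824) (l 16434208))) (c (b (l 16435680) (l 16433168)) (l 16430480))) (a (c (b (l 16434480) (l 16431760)) (l 16428832)) (c (l 16439640) (l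 16424800)))) (b (a (c (c (l 16431512) (l 16429696)) (l 16426560)) (c (c (l 16428016) (l 16426136)) (l 16422912))) (c (a (l 16425192) (l 140994670268497935)) (a (l 16420792) (l 16417040))))) (a (b (a (c (l 16427408) (l 16422784)) (c (l 16423280) (l 16418680))) (a (c (l 16421032) (l 16416232)) (c (l 16416744) (l 16412032)))) (b (a (c (l 16419152) (l 16414568)) (b (l 16414712) (l 16411408))) (a (c (l 16412416) (l 16407792)) (b (l 16407944) (l 16404296))))))), by decide +kernel⟩

def k11_pm_012 : ∃ t, chk3 f_pm_012 t 14 30 3 = true :=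
  ⟨(a (b (a (b (a (l 16485304) (l 16479648)) (a (l 16475392) (l 16469768))) (b (a (l 16474040) (l 16468464)) (a (l 16464184) (l 16458600)))) (b (a (b (l 16465136) (a (c (l 16465736) (l 16460208)) (l 16457480))) (b (l 16453976) (a (l 16451896) (l 16446288)))) (a (a (c (l 16459472) (l 16453648)) (c (l 16453864) (l 16448152))) (c (a (l 16448232) (l 16442536)) (a (l 16442648) (l 16437104)))))) (b (a (b (a (l 16462872) (l 16457232)) (a (l 16452992) (l 16447304))) (b (a (l 16451584) (l 16446160)) (a (l 16441648) (l 16436864)))) (a (b (b (l 16442640) (a (l 16440608) (l 16434888))) (a (c (l 16436800) (l 16431528)) (b (c (l 16433136) (l 16428072)) (l 16427496)))) (b (a (l 16432368) (l 16428448)) (a (b (l 16426392) (l 16423416)) (b (l 16422616) (l 16419608))))))), by decide +kernel⟩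

def k12_pm_012 : ∃ t, chk3 f_pm_012 t 14 31 3 = true :=
  ⟨(a (b (a (b (a (c (l 16451352) (l 16445168)) (c (l 16445896) (l 16439840))) (a (c (l 16443312) (l 16436840)) (c (l 16437992) (l 16431672)))) (b (a (c (l 16440384) (l 16434488)) (c (l 16434856) (l 16429120))) (a (c (l 16432648) (l 16426504)) (c (l 16438296) (l 16421744))))) (a (b (a (c (l 16435264) (l 16428576)) (c (l 16430112) (l 16423600))) (a (b (l 16425856) (l 16421752)) (c (l 16422568) (l 16415808)))) (b (a (c (l 16425400) (l 16418976)) (c (l 16421272) (l 16414840))) (a (l 16415224) (l 16421752))))) (b (a (b (a (c (b (l 16431424) (l 16428216)) (l 16424216)) (c (l 16425640) (l 16419912))) (a (c (l 16423624) (l 16417528)) (c (l 16419552) (l 16413416)))) (b (c (a (l 16421616) (l 16417856)) (a (l 16415808) (l 16411952))) (a (c (l 16415504) (l 16409336)) (c (l 16411696) (l 16405480))))) (a (b (a (c (l 16417248) (l 16410808)) (c (l 16413160) (l 16406728))) (a (c (l 16410488) (l 16403808)) (l 16424144))) (b (a (l 16416456) (l 16412584))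 (a (l 16399048) (l 16395120)))))), by decide +kernel⟩

def k13_pm_012 : ∃ t, chk3 f_pm_012 t 30 14 1 = true :=
  ⟨(b (b (a (b (l 16516656) (l 16508272)) (b (l 16508656) (l 16500152))) (a (b (c (l 16501184) (l 16497120)) (c (l 16492768) (l 16487544))) (b (l 16491288) (c (l 16484720) (l 16478888))))) (b (a (c (b (l 16484024) (l 16474992)) (b (l 16477880) (l 16468128))) (b (c (a (l 16477688) (l 16474064)) (l 16469168)) (c (a (l 16468552) (l 16465568)) (a (l 16461416) (l 16457984))))) (a (b (c (a (l 16468080) (l 16463408)) (l 16458344)) (c (a (l 16458576) (l 16454656)) (a (l 16450928) (l 16446752)))) (b (c (a (l 16459936) (l 16457864)) (l 16450792)) (c (l 16451208) (l 16442416)))))), by decide +kernel⟩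

def k14_pm_012 : ∃ t, chk3 f_pm_012 t 30 15 1 = true :=
  ⟨(b (b (a (b (c (a (b (l 16451672) (l 16447536)) (l 16446816)) (a (l 16441656) (l 16438288))) (c (c (l 16442120) (l 16438512)) (l 16431600))) (c (b (l 16443672) (a (l 16437032) (l 16435344))) (b (l 16434248) (l 16426184)))) (b (a (c (a (l 16434080) (l 16431544)) (l 16423480)) (c (c (a (l 16431464) (l 16429984)) (l 16426280)) (l 16418216))) (c (c (a (b (a (b (l 16431168) (l 16429744)) (b (l 16428760) (l 16427184))) (a (l 16427888) (l 16425272))) (b (b (c (l 16426968) (l 16424936)) (a (l 16425080) (c (l 16424576) (l 16422456)))) (a (c (l 16424104) (l 16422056)) (l 141187428400611343)))) (a (a (b (l 16426544) (l 16423816)) (l 141046141158244367)) (b (l 141060709683986447) (l 140986286484340751)))) (a (b (a (l 16419200) (l 16416168)) (a (l 16416136) (l 16413032))) (b (c (l 141195606005973007) (l 16409280)) (a (l 16410336) (l 16408080))))))) (b (b (c (c (c (a (a (l 16424888) (l 141063252307640335)) (a (l 141061809193943055) (l 141061534312333327)))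 (a (l 140995632341139471) (l 140871868553838607))) (a (a (l 16419608) (l 16416688)) (l 140943061924298767))) (c (a (a (l 16414424) (l 16411360)) (l 141116372433207311)) (a (a (l 16408400) (l 16405192)) (a (l 16402368) (l 16399976))))) (a (a (c (c (l 140956324793597967) (l 16413608)) (c (l 16408200) (l 16401912))) (c (a (l 141111149765541903) (l 141004978171084815)) (b (l 16403600) (l 16400320)))) (c (c (a (l 140997487748775951) (l 141006833593286671)) (l 140879702553624591)) (c (l 140689143433084943) (a (l 16395816) (l 16393368)))))) (a (a (c (c (l 140951170812461071) (b (l 16407104) (l 16399992))) (b (c (l 16401608) (l 16395192)) (l 16391456))) (c (b (l 140981201219862543) (l 140965052127707151)) (b (b (l 16396960) (l 16393496)) (b (l 16389928) (l 16386224))))) (c (a (b (l 141004359677689871) (l 140929592871321615)) (c (b (l 141018378450468879) (l 140777241789972495)) (l 140758893689094159))) (a (c (l 140589706331422735) (b (l 16388984) (l 16381776))) (c (l 140570189994803215) (b (l 16386464)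 (l 16379152)))))))), by decide +kernel⟩

def k15_pm_012 : ∃ t, chk3 f_pm_012 t 31 14 1 = true :=
  ⟨(b (b (a (b (l 16502520) (l 16493864)) (b (l 16498504) (l 16489976))) (a (b (c (l 16487400) (l 16481656)) (a (l 16477096) (l 16474872))) (b (a (l 16481920) (l 16481320)) (l 16473512)))) (b (b (a (a (c (l 16471600) (l 16464256)) (l 16466752)) (l 16465648)) (a (c (l 16463424) (l 16454760)) (l 16478872))) (a (c (b (l 16456016) (l 16448624)) (b (l 16446528) (l 16438448))) (c (b (l 16455472) (l 16448224)) (b (l 16444344) (l 16436472)))))), by decide +kernel⟩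

def k16_pm_012 : ∃ t, chk3 f_pm_012 t 31 15 1 = true :=
  ⟨(c (a (b (b (b (a (l 16441632) (l 16440928)) (a (l 16434168) (l 16433528))) (b (b (a (l 16428560) (l 16427968)) (c (c (l 141240273691688975) (l 140981819734949903)) (l 16421864))) (c (b (c (a (a (l 141197324012175375) (l 141014598922895375)) (l 141010888070774799)) (a (l 141111905697628175) (l 140934540727189519))) (a (l 141098093078528015) (l 141099742344855567))) (b (l 140950277479792655) (l 140948559485976591))))) (b (b (c (c (a (l 141062290223939599) (l 140883757021937679)) (l 141023601152851983)) (l 140902311268384783)) (c (a (l 141017485108871183) (l 141029167417737231)) (l 140834691289301007))) (c (a (b (l 140945948118024207) (l 140982713020727311)) (b (l 140964777251782671) (l 140919147501092879))) (b (l 140760336800219151) (l 140679179081433103))))) (c (b (b (b (l 16443568) (b (l 16438168) (l 16439792))) (a (b (l 141223231263031311) (b (l 141151762996035599) (l 141101529051332623))) (b (l 141257934600470543) (b (l 141141729954119695)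 (a (l 141102559844499471) (l 141085105098555407)))))) (b (b (a (b (l 141052394618716175) (l 141008070549012495)) (c (l 141059610163986447) (l 140994051777740815))) (a (l 140951651847028751) (a (l 140961066415505423) (l 140949109227110415)))) (b (a (l 140894477225394191) (a (l 140909458070896655) (l 140901349172805647))) (a (l 140946704008757263) (a (l 140877503494619151) (l 140693472735625231)))))) (b (b (b (l 16438168) (l 16430792)) (b (b (l 16425264) (l 141070192973594639)) (a (b (l 140837646256521231) (l 140783976337981455)) (b (l 140841357109215247) (l 140789817494339599))))) (b (b (a (l 140706666916495375) (l 140717249716453391)) (l 140797857647263759)) (a (l 140729894060228623) (b (l 140577474268872719) (l 140536173845004303))))))) (b (a (b (c (l 141159940626513935) (l 16423288)) (b (l 141047171934994447) (c (c (l 140972473858293775) (l 140972817449238543)) (b (l 140804317285548047) (l 140767895955718159))))) (b (b (l 16428704) (l 16421024)) (b (l 141083455815958543) (a (l 140973435918827535)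 (a (l 140964364947718159) (l 140781708578848783)))))) (b (a (c (c (l 140874548583989263) (l 141052669461151759)) (b (l 140716493777109007) (l 140644888068587535))) (a (c (l 140679110386352143) (l 140677117506895887)) (c (l 140671757402112015) (l 140855238389858319)))) (a (a (c (l 140912825301516303) (l 140533425057202191)) (b (l 140754083308290063) (l 140853589094809615))) (a (b (l 140565929378873359) (l 140663785897590799)) (b (l 140558301516005391) (l 140654096450011151))))))), by decide +kernel⟩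

theorem s17_pm_012 : ∃ t, chk3 f_pm_012 t 31 7 1 = true := ex3_b k15_pm_012 k16_pm_012

theorem s18_pm_012 : ∃ t, chk3 f_pm_012 t 30 7 1 = true := ex3_b k13_pm_012 k14_pm_012

theorem s19_pm_012 : ∃ t, chk3 f_pm_012 t 15 7 1 = true := ex3_a s18_pm_012 s17_pm_012

theorem s20_pm_012 : ∃ t, chk3 f_pm_012 t 14 15 3 = true := ex3_b k11_pm_012 k12_pm_012

theorem s21_pm_012 : ∃ t, chk3 f_pm_012 t 14 15 2 = true := ex3_b k9_pm_012 k10_pm_012

theorem s22_pm_012 : ∃ t, chk3 f_pm_012 t 14 15 1 = true := ex3_c s21_pm_012 s20_pm_012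

theorem s23_pm_012 : ∃ t, chk3 f_pm_012 t 14 7 1 = true := ex3_b k8_pm_012 s22_pm_012

theorem s24_pm_012 : ∃ t, chk3 f_pm_012 t 7 7 1 = true := ex3_a s23_pm_012 s19_pm_012

theorem s25_pm_012 : ∃ t, chk3 f_pm_012 t 13 31 1 = true := ex3_a k6_pm_012 k7_pm_012

theorem s26_pm_012 : ∃ t, chk3 f_pm_012 t 13 15 1 = true := ex3_b k5_pm_012 s25_pm_012

theorem s27_pm_012 : ∃ t, chk3 f_pm_012 t 6 15 1 = true := ex3_a k4_pm_012 s26_pm_012

theorem s28_pm_012 : ∃ t, chk3 f_pm_012 t 6 7 1 = true := ex3_b k3_pm_012 s27_pm_012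

theorem s29_pm_012 : ∃ t, chk3 f_pm_012 t 3 7 1 = true := ex3_a s28_pm_012 s24_pm_012

theorem s30_pm_012 : ∃ t, chk3 f_pm_012 t 3 3 1 = true := ex3_b k2_pm_012 s29_pm_012

theorem s31_pm_012 : ∃ t, chk3 f_pm_012 t 1 3 1 = true := ex3_a k1_pm_012 s30_pm_012

theorem s32_pm_012 : ∃ t, chk3 f_pm_012 t 1 1 1 = true := ex3_b k0_pm_012 s31_pm_012

theorem c_pm_012 : CertB 0 536870912 536870912 536870912 649613803 48318383 3 eng mog cd0q0 cd0q1 pd2 true true false .pnp 0 1 2
    ndB0q0 ndB0q1 pcB2 cut_pm_012 xt_pm_012 :=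
  certB0 (fam := true) (s1 := true) (s2 := false) (a := 0) (b := 1) (c := 2) (cn := .pnp) (n1 := ndB0q0) (n2 := ndB0q1) (pc := pcB2) (cut := cut_pm_012) (xt := xt_pm_012) (P1 := 0) (W1 := 536870912) (P2 := 536870912) (W2 := 536870912) (P3 := 649613803) (W3 := 48318383) (N0 := 3) (En := eng) (mo := mog) (C1 := cd0q0) (C2 := cd0q1) (C3 := pd2)
    rfl s32_pm_012

noncomputable def cut_pm_022 : Cut := Cut.of [[⟨3, 0, 0, 1449551462⟩], [⟨4, 0, 0, 2845415833⟩], [⟨0, 0, 0, 67108864⟩, ⟨1, 1, 0, 67108864⟩, ⟨2, 1, 0, 67108864⟩]]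

noncomputable def xt_pm_022 : Ext := extD2 3 ⟨7, 3, 3, 10, 377, 200, 77, 100, 17, 50, 3, 16⟩ eng cd0q0 cd0q2 pd2 true true false .pp 0 2 2 rfl ndB0q0 ndB0q2 pcB2

noncomputable def f_pm_022 : ℕ → ℕ → ℕ → ℕ → Bool := onCell 1073741824 536870912 0 536870912 649613803 48318383
    (rowB 3 eng mog cd0q0 cd0q2 pd2 2 true true false .pp 0 2 2 (qsf 0 536870912 0 536870912 2) ndB0q0 ndB0q2 pcB2 cut_pm_022 xt_pm_022)

def k0_pm_022 : ∃ t, chk3 f_pm_022 t 4 1 1 = true :=
  ⟨(b (b (l 1) (a (l 1) (a (l 1) (b (l 1) (a (l 1) (a (l 1) (b (l 1) (c (c (l 258267947895) (l 16509672)) (b (l 16495048) (l 16506168)))))))))) (b (a (l 1) (b (a (l 1) (b (b (a (l 1) (c (a (l 16505256) (l 16528240)) (l 49962063687))) (a (c (l 16534928) (l 16522496)) (a (c (l 16537872) (l 16527336)) (c (l 16539232) (l 16530008))))) (a (a (b (l 1) (l 16553448)) (c (b (l 16547448) (l 16559040)) (l 62310147655))) (a (c (l 16554072) (l 16566072)) (b (l 16545632) (l 16556160)))))) (b (a (a (l 1) (b (a (l 1) (l 16565512)) (l 6))) (c (a (b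 (l 16507688) (l 16582200)) (l 16574640)) (a (b (l 16561688) (a (l 16574400) (l 16574480))) (a (l 16568648) (l 16568536))))) (a (l 6) (a (a (l 6) (l 16574696)) (b (l 16587624) (l 16594440))))))) (l 6))), by decide +kernel⟩

def k1_pm_022 : ∃ t, chk3 f_pm_022 t 10 4 1 = true :=
  ⟨(a (a (l 1) (a (b (l 1) (b (l 1) (l 16549512))) (c (b (b (l 16441304) (l 16443672)) (b (l 16450688) (c (l 16460080) (l 16461096)))) (b (l 16466744) (b (l 16454768) (l 16465232)))))) (b (a (a (c (b (l 16440320) (l 16441880)) (b (l 16441984) (l 16443816))) (c (b (l 16440008) (b (l 16440112) (a (l 16441600) (l 16441360)))) (b (l 16440312) (a (l 16441656) (l 16440904))))) (c (b (l 16447232) (b (l 16447128) (l 16448040))) (b (l 16447528) (l 16448016)))) (a (c (a (b (l 16448544) (l 16458136)) (a (b (l 16447200) (l 16456688)) (b (l 16446824) (a (l 16456056) (l 16456368))))) (b (a (l 16451104) (l 16448096)) (a (l 16461464) (a (l 16458904) (l 16457784))))) (c (b (l 16452656) (a (l 16459112) (l 16463152))) (b (l 16432648) (c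 (l 16461944) (l 16464392))))))), by decide +kernel⟩

def k2_pm_022 : ∃ t, chk3 f_pm_022 t 20 5 1 = true :=
  ⟨(a (a (b (l 1) (b (c (c (l 16498648) (l 16494360)) (b (l 16481336) (l 16489928))) (c (b (c (l 16511680) (l 16507712)) (l 16519576)) (b (l 16499480) (l 16509888))))) (b (b (c (l 16474688) (l 16465816)) (c (b (l 16482656) (l 16489008)) (l 16486784))) (b (c (c (l 16501600) (l 75731809463)) (b (l 16486496) (l 16494536))) (b (c (l 16512368) (l 16503464)) (c (l 16521440) (l 16471248)))))) (c (a (b (b (l 16517048) (l 16488584)) (b (l 16502480) (l 16474064))) (b (b (c (l 16471696) (l 16473168)) (c (b (l 16481352) (l 16488080)) (l 16486672))) (b (c (b (l 16494904) (l 16501736)) (l 16500368)) (c (l 16459360) (l 16513480))))) (a (b (b (l 16471880) (c (l 16484144) (l 16478792))) (b (c (l 16497448) (l 16492112)) (b (l 16507024) (l 16516104)))) (b (b (l 16477352) (l 16486456)) (b (l 16498904) (l 16514472)))))), by decide +kernel⟩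

def k3_pm_022 : ∃ t, chk3 f_pm_022 t 21 5 1 = true :=
  ⟨(a (a (b (b (c (c (l 16469680) (l 16470352)) (l 16474080)) (c (c (l 16493072) (b (l 16480200) (l 16486952))) (l 16488008))) (b (c (c (b (l 16492488) (l 16499168)) (b (l 16493704) (l 16500368))) (l 16501576)) (c (c (l 16508976) (l 16468024)) (l 16513968)))) (a (b (c (c (b (l 16468432) (l 16502152)) (b (l 16468496) (l 16481688))) (b (l 16471432) (l 16485248))) (b (c (b (l 16491080) (l 16497640)) (l 16498656)) (c (b (l 16504000) (l 16510088)) (l 16510840)))) (a (b (c (b (b (l 16464384) (l 16470608)) (b (l 16477104) (l 16483664))) (b (l 16470192) (l 16483944))) (b (c (b (l 16490240) (l 16496744)) (l 16497272)) (c (b (l 16503040) (l 16509064)) (l 16509352)))) (b (c (b (b (l 16464616) (l 16470784)) (b (l 16477232) (l 16483736))) (b (l 16470240) (l 16483888))) (b (c (b (l 16490256) (l 16496704)) (l 16497104)) (c (b (l 16502936) (l 16508896)) (l 16509072))))))) (b (b (b (c (a (l 16467032) (l 16470528)) (l 16471320)) (c (a (l 16472976) (l 16476112))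 (l 16477600))) (a (c (b (l 16479200) (l 16485488)) (l 16517376)) (c (c (l 16485032) (l 16485448)) (l 16488808)))) (b (a (c (b (l 16491792) (l 16498040)) (l 16498728)) (c (b (l 16493912) (l 16499832)) (l 16500960))) (c (b (a (l 16504080) (l 16505568)) (a (l 16509848) (l 16511048))) (c (l 16509832) (l 16512880)))))), by decide +kernel⟩

def k4_pm_022 : ∃ t, chk3 f_pm_022 t 10 3 1 = true :=
  ⟨(b (a (b (a (b (b (c (l 16530448) (c (l 16524808) (l 16498528))) (c (l 16538136) (l 16512248))) (b (l 16546912) (l 16554896))) (b (b (a (l 16527968) (c (l 16521648) (l 16526736))) (a (l 16533696) (a (l 16530216) (a (l 16528560) (c (b (l 16524616) (l 16527552)) (l 16530112)))))) (a (c (l 16541872) (l 16546368)) (a (c (l 16538576) (l 16542224)) (a (c (l 16537040) (l 16540264)) (c (l 16536096) (l 16539040))))))) (b (a (b (l 16561544) (l 16568160)) (a (c (l 16555368) (l 16558368)) (a (c (l 16551816) (l 16554064)) (a (a (l 16550920) (l 16545136)) (c (l 16549296) (l 16550984)))))) (a (c (l 16577000) (l 16579856))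 (a (c (l 16568624) (l 16570152)) (a (b (l 16561680) (l 16567824)) (a (l 16563024) (b (l 16579888) (l 16586048)))))))) (b (a (a (b (c (b (l 16518224) (l 16523920)) (l 16524776)) (c (l 16533552) (l 16535744))) (b (c (a (l 16518816) (b (l 16514672) (l 16520064))) (a (l 16521360) (l 16519520))) (c (l 16529840) (l 16530856)))) (b (c (b (l 16515832) (l 16520848)) (b (l 16518424) (l 16522736))) (c (b (l 16525960) (l 16531536)) (l 16535008)))) (b (a (c (l 16565216) (a (l 16547432) (l 16542064))) (c (l 16539720) (l 16539656))) (a (c (l 16577552) (l 16587416)) (b (l 16546744) (l 16551752)))))) (a (b (a (b (c (b (l 16587144) (l 6)) (l 16591888)) (l 6)) (a (b (b (l 16578216) (l 16584288)) (l 6)) (a (b (l 16577008) (l 6)) (a (b (l 16575160) (l 6)) (b (c (l 16595928) (l 16616192)) (b (l 16624824) (l 6))))))) (l 6)) (a (b (b (b (l 16585512) (l 16591208)) (b (l 16596608) (l 16601560))) (l 6)) (b (b (b (l 16556712) (l 16561512)) (b (l 16566008) (l 16570024))) (b (b (l 16573440) (l 6)) (l 6)))))), by decide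 +kernel⟩

def k5_pm_022 : ∃ t, chk3 f_pm_022 t 11 2 1 = true :=
  ⟨(a (a (b (b (c (b (l 16457560) (l 16457608)) (l 16458688)) (c (b (l 16461280) (a (l 16466736) (l 16459408))) (b (l 16462744) (l 16470664)))) (c (c (b (b (a (l 16476408) (l 16478776)) (a (l 16487128) (l 16488824))) (b (a (l 16498320) (l 16499384)) (a (l 16509248) (l 16509736)))) (b (b (l 16488328) (l 16509664)) (b (l 16499736) (l 16510208)))) (b (b (l 16480840) (b (l 16486224) (l 16490544))) (b (a (l 16499072) (l 16497360)) (b (l 16506536) (l 16512632)))))) (b (b (l 16533552) (b (c (l 16468200) (l 16470144)) (c (l 16473864) (l 16474232)))) (b (b (b (l 16522024) (a (l 16483576) (l 16483488))) (a (b (l 16487480) (l 16449832)) (c (l 16490928) (l 16486392)))) (b (c (b (l 16497640) (l 16502464)) (a (b (l 16493512) (l 16498512)) (l 16495192))) (a (b (l 16506560) (l 16511848)) (c (l 16509416) (l 16505200))))))) (a (b (b (l 16472712) (b (l 16473776) (l 16498072))) (b (b (c (l 16515408) (b (l 16478056) (l 16481000))) (c (b (l 16500032)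 (c (l 16494064) (l 16492832))) (b (l 16484400) (l 16488168)))) (b (c (a (c (l 16500408) (l 16499208)) (l 16500328)) (b (l 16492264) (l 16496624))) (c (b (a (l 16506512) (l 16506384)) (a (l 16510808) (l 16510296))) (b (l 16501168) (l 16505824)))))) (b (b (l 16476800) (b (l 16476768) (a (l 16478912) (l 16480576)))) (b (b (c (b (l 16485008) (a (l 16487528) (l 16489208))) (l 16481272)) (c (b (l 16491952) (l 16495672)) (b (l 16485720) (l 16489144)))) (b (b (a (l 16496448) (l 16497264)) (a (l 16500352) (l 16500888))) (c (b (l 16506768) (l 16510104)) (b (l 16500528) (l 16504432)))))))), by decide +kernel⟩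

def k6_pm_022 : ∃ t, chk3 f_pm_022 t 11 3 1 = true :=
  ⟨(a (a (b (c (b (b (b (l 16516896) (l 16521352)) (b (l 16525640) (l 16530176))) (b (l 16536880) (l 16545456))) (b (b (l 16522104) (l 16529408)) (b (l 16537320) (l 16544856)))) (b (b (b (l 16550592) (l 16554344)) (l 16580336)) (b (a (l 16608672) (l 16582088)) (b (l 16586304) (l 6))))) (b (b (b (b (b (l 16514888) (l 16517440)) (l 16521264)) (b (l 16524688) (l 16528056))) (b (l 16533064) (l 16539360))) (b (b (l 16545272) (l 16571056)) (b (b (l 16552160) (l 16552688)) (b (l 16552344) (b (l 16551256) (c (l 16553416) (l 16546584)))))))) (b (b (b (a (b (a (l 16513768) (l 16512568)) (l 16517272)) (c (b (l 16502680) (l 16515896)) (l 16531248))) (b (a (l 16521136) (l 16517448)) (l 16522056))) (b (l 16526120) (l 16530088))) (b (b (a (l 16537504) (l 16529512)) (b (l 16577240) (l 16535864))) (b (b (a (l 16541192) (l 16530328)) (a (l 16540752) (l 16529008))) (b (a (l 16539400) (l 16526760)) (a (b (l 16537568) (c (l 16539528) (l 16532048))) (b (l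 16524248) (c (l 16526168) (l 16517832))))))))), by decide +kernel⟩

def k7_pm_022 : ∃ t, chk3 f_pm_022 t 6 4 1 = true :=
  ⟨(a (b (a (a (l 16482368) (l 16489192)) (a (l 16497056) (l 16505880))) (a (b (a (l 16481256) (l 16487024)) (a (c (l 16485664) (l 16480248)) (l 16488848))) (b (l 16497744) (b (l 16498032) (l 16499040))))) (b (a (a (l 16515560) (b (l 16528760) (l 16523400))) (a (b (l 16540696) (l 16534664)) (b (l 16553216) (l 16546552)))) (a (b (a (l 16510568) (l 16520272)) (a (l 16510480) (b (l 16519408) (l 16519600)))) (b (a (l 16530864) (l 16542056)) (a (l 16529440) (l 16539912)))))), by decide +kernel⟩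

def k8_pm_022 : ∃ t, chk3 f_pm_022 t 6 5 1 = true :=
  ⟨(a (b (b (b (a (a (l 16486776) (l 16491528)) (l 16500584)) (a (a (l 16489544) (l 16494008)) (a (l 16499512) (l 16505984)))) (a (a (b (l 16492624) (a (l 16495024) (l 16496632))) (b (l 16496768) (a (l 16498504) (l 16500632)))) (a (b (l 16501936) (a (l 16503016) (l 16505640))) (b (l 16508064) (a (l 16508504) (l 16511592)))))) (a (b (a (b (a (l 16498368) (l 16499736)) (a (l 16501704) (l 16502792))) (b (a (l 16501368) (l 16503256)) (a (l 16504152) (l 16505768)))) (a (b (a (l 16504928) (l 16505688)) (b (l 16507416) (l 16508776))) (b (a (l 16506720) (l 16508016)) (b (l 16508928) (l 16509904))))) (b (a (b (a (l 16505400) (l 16507792)) (a (l 16507632) (l 16509744))) (b (a (l 16510408) (l 16513256)) (a (l 16512088) (l 16514648)))) (b (a (a (l 16509560) (l 16511344)) (a (l 16513360) (l 16515600))) (a (b (l 16511472) (l 16512048)) (b (l 16514960) (l 16515136))))))) (b (a (b (a (l 16512680) (b (l 16520344) (l 16521568))) (a (b (l 16515088) (l 16516632))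 (b (a (l 16520904) (l 16525024)) (a (l 16522112) (l 16526000))))) (b (a (l 16530224) (b (l 16539608) (l 16540096))) (a (b (l 16531488) (l 16532120)) (b (l 16540648) (l 16540808))))) (a (b (a (b (a (l 16516320) (l 16519592)) (a (l 16517432) (l 16520416))) (a (b (c (l 16527856) (l 16517384)) (c (l 16528192) (l 16518112))) (b (l 16526656) (l 16526872)))) (a (b (a (l 16518056) (l 16520688)) (b (l 16519264) (l 16519024))) (b (a (c (l 16527808) (l 16518368)) (l 16526448)) (a (c (l 16526592) (l 16518056)) (l 16525280))))) (b (a (b (a (l 16530432) (l 16534368)) (a (l 16530352) (l 16533984))) (b (l 16540544) (l 16539704))) (a (b (a (l 16529576) (l 16532864)) (a (l 16528016) (l 16530904))) (b (l 16538104) (l 16535512))))))), by decide +kernel⟩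

def k9_pm_022 : ∃ t, chk3 f_pm_022 t 7 2 1 = true :=
  ⟨(b (a (a (b (a (b (l 16566216) (l 16558928)) (b (l 16579664) (l 16571768))) (b (a (l 16553760) (l 16565952)) (a (l 16550920) (l 16562416)))) (b (a (b (l 16593352) (l 16584864)) (b (l 16606848) (l 16597752))) (a (b (l 16578352) (l 16574064)) (b (l 16590536) (l 16585448))))) (b (a (b (a (l 16619960) (l 16632584)) (a (l 16610264) (l 16622304))) (a (b (l 16644584) (l 16633736)) (b (a (l 16653064) (l 16658448)) (a (l 16641808) (l 16646920))))) (a (b (a (l 16602344) (l 16613704)) (a (l 16596480) (l 16607048))) (a (b (l 16624448) (a (l 16614592) (l 16619392))) (b (a (l 16632016) (b (l 16639112) (l 16634504))) (a (b (l 16625800) (l 16622184)) (b (l 16630304) (l 16647464)))))))) (a (b (a (b (a (b (l 16550088) (l 16550200)) (b (l 16561056) (l 16560752))) (a (l 16550376) (l 16560152))) (b (a (b (l 16572072) (l 16571312)) (l 16582368)) (a (l 16569968) (l 16579456)))) (a (b (a (b (l 16549272) (l 16547792)) (l 16557288)) (a (b (l 16545376) (l 16541920))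 (l 16550704))) (b (a (l 16565712) (l 16573880)) (a (l 16557400) (l 16563848))))) (b (a (b (a (l 16613504) (l 16623160)) (a (l 16588576) (b (l 16598656) (l 16595496)))) (b (a (a (l 16609064) (l 16613424)) (a (b (l 16618936) (l 16615984)) (b (c (l 16629120) (l 16617632)) (c (l 16625936) (l 16614472))))) (a (b (a (l 16604976) (l 16608976)) (l 16603232)) (b (a (l 16612776) (l 16647824)) (a (l 16608568) (b (l 16613104) (l 16610616))))))) (a (b (a (l 16581680) (l 16588992)) (a (l 16569928) (l 16575560))) (b (a (l 16648144) (b (a (l 16603376) (l 16606392)) (l 16598280))) (a (l 16601616) (b (l 16590040) (l 16580024)))))))), by decide +kernel⟩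

def k10_pm_022 : ∃ t, chk3 f_pm_022 t 6 6 1 = true :=
  ⟨(a (b (b (a (a (b (l 16510720) (c (l 16514816) (l 16510104))) (b (l 16511216) (l 16512600))) (b (a (l 16512728) (l 16515160)) (a (l 16513176) (l 16514640)))) (a (b (a (l 16514944) (l 16513520)) (l 16515048)) (b (l 16523648) (a (l 16512360) (l 16511528))))) (a (b (l 16516144) (l 16516864)) (b (l 16509344) (l 16504824)))) (b (a (b (a (b (l 16518360) (l 16516808)) (b (a (l 16521176) (l 16523304)) (a (l 16518824) (l 16520448)))) (a (b (l 16514440) (l 16511216)) (b (l 16537040) (a (l 16511288) (l 16511704))))) (b (a (b (l 16526792) (l 16523208)) (b (l 16531912) (l 16527184))) (b (a (l 16518480) (l 16521224)) (l 16576104)))) (a (b (a (l 16505472) (l 16503360)) (l 16536768)) (b (a (l 16501976) (l 16500744)) (l 16485896))))), by decide +kernel⟩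

def k11_pm_022 : ∃ t, chk3 f_pm_022 t 6 7 1 = true :=
  ⟨(a (b (a (b (l 16538592) (b (l 16538264) (l 16516376))) (b (l 16524392) (c (l 16565792) (l 16581984)))) (b (a (b (a (l 16519800) (l 16509848)) (a (l 16517688) (l 16507040))) (b (l 16517240) (a (l 16497192) (l 16488096)))) (a (b (a (l 16535632) (l 16524264)) (a (b (l 16511536) (a (l 16533128) (l 16516296))) (b (l 16520608) (a (c (l 16504736) (l 16494464)) (l 16514744))))) (b (a (l 16492752) (l 16503960)) (a (b (l 16488576) (a (l 16488064) (l 16482576))) (b (l 16499280) (a (c (l 16483240) (l 16471024)) (c (l 16478328) (l 16465704))))))))) (b (a (b (a (l 16494568) (l 16489392)) (a (l 16490048) (l 16483616))) (b (a (l 16483888) (l 16478400)) (a (l 16477064) (l 16470512)))) (b (a (b (a (l 16484480) (l 16477128)) (a (l 16479696) (a (l 16473744) (l 16469704)))) (a (b (l 16469712) (l 16463696)) (b (l 16462280) (l 16455608)))) (a (b (a (b (l 16475488) (l 16472304)) (a (b (l 16469168) (l 16465744)) (l 16463144))) (a (b (a (l 16471104) (l 16466496))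 (a (c (l 16473568) (l 16460584)) (c (l 16468928) (l 16455632)))) (a (b (l 16482936) (c (a (l 16465496) (l 16463104)) (a (l 16452024) (l 16449616)))) (b (l 16457368) (c (b (l 16460528) (l 16458416)) (l 16446048)))))) (b (a (a (l 16458816) (l 16454488)) (a (l 16450112) (l 16445664))) (a (b (a (l 16452792) (l 16448216)) (a (c (b (l 16455728) (l 16453528)) (l 16441344)) (c (b (l 16450872) (l 16448584)) (l 16436680)))) (c (b (l 16467752) (a (b (l 16445912) (l 16443528)) (b (l 16440808) (l 16438352)))) (b (l 16434952) (a (l 16432000) (l 16427304)))))))))), by decide +kernel⟩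

def k12_pm_022 : ∃ t, chk3 f_pm_022 t 7 6 1 = true :=
  ⟨(a (b (a (b (a (l 16534536) (l 16539192)) (a (l 16519752) (l 16521696))) (b (a (l 16543696) (l 16547944)) (a (l 16523504) (l 16525128)))) (a (b (l 16540896) (l 16476496)) (b (b (l 16504368) (l 16488632)) (l 16485760)))) (b (a (b (a (l 16551888) (l 16555472)) (a (l 16526576) (l 16527856))) (b (a (l 16558680) (l 16624448)) (a (l 16529008) (l 16530016)))) (a (b (a (l 16495360) (l 16494544)) (l 16494336)) (b (a (l 16493776) (l 16492960)) (a (l 16448400) (l 16446536)))))), by decide +kernel⟩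

def k13_pm_022 : ∃ t, chk3 f_pm_022 t 7 14 1 = true :=
  ⟨(a (a (b (b (l 16471952) (l 16468168)) (a (l 16463968) (l 16457648))) (a (b (l 16461184) (l 16450824)) (b (l 16453920) (l 16443024)))) (a (b (b (l 16442400) (l 16437856)) (b (a (l 16437304) (l 16426928)) (a (l 16430928) (l 16420712)))) (a (b (l 16422776) (l 16391920)) (b (l 16409360) (l 16401440))))), by decide +kernel⟩

def k14_pm_022 : ∃ t, chk3 f_pm_022 t 7 15 1 = true :=
  ⟨(a (b (a (b (a (l 16454840) (l 16447920)) (a (l 16447512) (l 16440224))) (a (b (l 16440536) (l 16432584)) (b (l 16432528) (l 16424400)))) (a (b (a (c (l 16443744) (l 16433816)) (c (l 16435744) (l 16426368))) (b (a (a (l 16434112) (l 16430032)) (c (l 16429048) (l 16418432))) (a (a (c (l 16455392) (l 16422600)) (c (l 16430160) (l 16418512))) (c (a (l 16426144) (l 16422072)) (a (l 16414624) (l 16410720)))))) (b (a (c (l 16427520) (l 16418864)) (c (l 16418552) (l 16410800))) (b (a (c (l 16420760) (l 16410680)) (c (l 16411880) (l 16402488))) (a (c (a (l 16417912)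 (l 16413576)) (a (l 16406768) (l 16402680))) (c (a (l 16409200) (l 16404856)) (a (l 16398568) (l 16394496)))))))) (a (b (b (a (l 16423400) (l 16413624)) (a (l 16415296) (l 16405920))) (b (a (c (l 16409352) (l 16402592)) (c (l 16400384) (l 16394648))) (b (a (c (l 16403104) (l 16394432)) (c (l 16395416) (l 16387432))) (a (a (a (l 16397208) (l 16395304)) (a (l 16393472) (l 16391720))) (a (c (l 16393536) (l 16383896)) (b (l 16387320) (c (l 16389616) (l 16379792)))))))) (c (b (b (l 16396704) (l 16393144)) (b (a (l 16392760) (l 16386664)) (b (a (l 16389144) (a (l 16385584) (l 16383848))) (a (c (a (l 16389384) (a (l 16387632) (l 16386616))) (l 140693610165682191)) (a (b (l 16384312) (a (l 140954400577896463) (l 140975016419622927))) (b (l 16383032) (c (a (l 140720273321574415) (l 140726595512729615)) (l 140441821994418191)))))))) (b (b (l 16399864) (l 16392648)) (b (a (l 16388040) (l 16382968)) (a (b (l 16381824) (a (l 140836477945151503) (l 140642001821876239))) (a (b (l 16378728) (l 140629494873997327))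 (b (l 16377272) (l 140707628916981775))))))))), by decide +kernel⟩

theorem s15_pm_022 : ∃ t, chk3 f_pm_022 t 7 7 1 = true := ex3_b k13_pm_022 k14_pm_022

theorem s16_pm_022 : ∃ t, chk3 f_pm_022 t 7 3 1 = true := ex3_b k12_pm_022 s15_pm_022

theorem s17_pm_022 : ∃ t, chk3 f_pm_022 t 6 3 1 = true := ex3_b k10_pm_022 k11_pm_022

theorem s18_pm_022 : ∃ t, chk3 f_pm_022 t 3 3 1 = true := ex3_a s17_pm_022 s16_pm_022

theorem s19_pm_022 : ∃ t, chk3 f_pm_022 t 6 2 1 = true := ex3_b k7_pm_022 k8_pm_022

theorem s20_pm_022 : ∃ t, chk3 f_pm_022 t 3 2 1 = true := ex3_a s19_pm_022 k9_pm_022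

theorem s21_pm_022 : ∃ t, chk3 f_pm_022 t 3 1 1 = true := ex3_b s20_pm_022 s18_pm_022

theorem s22_pm_022 : ∃ t, chk3 f_pm_022 t 11 1 1 = true := ex3_b k5_pm_022 k6_pm_022

theorem s23_pm_022 : ∃ t, chk3 f_pm_022 t 10 5 1 = true := ex3_a k2_pm_022 k3_pm_022

theorem s24_pm_022 : ∃ t, chk3 f_pm_022 t 10 2 1 = true := ex3_b k1_pm_022 s23_pm_022

theorem s25_pm_022 : ∃ t, chk3 f_pm_022 t 10 1 1 = true := ex3_b s24_pm_022 k4_pm_022

theorem s26_pm_022 : ∃ t, chk3 f_pm_022 t 5 1 1 = true := ex3_a s25_pm_022 s22_pm_022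

theorem s27_pm_022 : ∃ t, chk3 f_pm_022 t 2 1 1 = true := ex3_a k0_pm_022 s26_pm_022

theorem s28_pm_022 : ∃ t, chk3 f_pm_022 t 1 1 1 = true := ex3_a s27_pm_022 s21_pm_022

theorem c_pm_022 : CertB 0 536870912 0 536870912 649613803 48318383 3 eng mog cd0q0 cd0q2 pd2 true true false .pp 0 2 2
    ndB0q0 ndB0q2 pcB2 cut_pm_022 xt_pm_022 :=
  certB2 (fam := true) (s1 := true) (s2 := false) (a := 0) (b := 2) (c := 2) (cn := .pp) (n1 := ndB0q0) (n2 := ndB0q2) (pc := pcB2) (cut := cut_pm_022) (xt := xt_pm_022) (P1 := 0) (W1 := 536870912) (P2 := 0) (W2 := 536870912) (P3 := 649613803) (W3 := 48318383) (N0 := 3) (En := eng) (mo := mog) (C1 := cd0q0) (C2 := cd0q2) (C3 := pd2)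
    rfl (fun _ => rfl) s28_pm_022

noncomputable def cut_pm_023 : Cut := Cut.of [[⟨3, 0, 0, 1449551462⟩], [⟨4, 0, 0, 2845415833⟩]]

noncomputable def xt_pm_023 : Ext := extD2 3 ⟨7, 3, 3, 10, 377, 200, 77, 100, 17, 50, 3, 16⟩ eng cd0q0 cd0q2 pd3 true true false .up 0 2 3 rfl ndB0q0 ndB0q2 pcB3

noncomputable def f_pm_023 : ℕ → ℕ → ℕ → ℕ → Bool := onCell 1610612736 536870912 0 536870912 649613803 48318383
    (rowB 3 eng mog cd0q0 cd0q2 pd3 2 true true false .up 0 2 3 (qsf 0 536870912 0 536870912 3) ndB0q0 ndB0q2 pcB3 cut_pm_023 xt_pm_023)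

def k0_pm_023 : ∃ t, chk3 f_pm_023 t 4 1 1 = true :=
  ⟨(b (a (b (b (a (a (l 16657040) (l 16640344)) (b (l 16672952) (l 16655344))) (a (b (l 16639912) (l 16607552)) (b (l 16638848) (l 16623920)))) (b (a (b (a (l 16618688) (l 16617792)) (a (l 16598112) (l 16605800))) (b (l 16610896) (l 16595280))) (a (b (a (l 16591944) (l 16585552)) (l 16581424)) (b (l 16580872) (l 16570200))))) (b (b (a (b (l 16675368) (l 16661008)) (b (l 14) (l 16681800))) (a (b (l 16647192) (l 16635640)) (a (l 16658208) (l 16703184)))) (b (a (b (l 16625992) (l 16615904)) (b (l 16650696) (l 16622064))) (a (b (l 16606008) (l 16596120)) (b (l 16626232) (l 16666616)))))) (a (a (b (b (b (l 16530264) (l 16516144)) (b (l 16498424) (l 16524824))) (b (b (l 16469496) (b (l 16460856) (l 16455312))) (b (b (a (l 16445552) (l 16455176)) (a (b (l 16441560) (l 16439024)) (b (l 16451536) (l 16470240)))) (a (a (c (b (l 140870837816049679) (b (l 140843143861796879) (b (a (l 140816274541182991) (l 140841838192082959)) (c (l 140870013185359887)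 (l 140765765714296847))))) (b (l 140671551290753039) (b (l 140631831423156239) (b (l 140609291429740559) (l 140592730032439311))))) (b (c (l 140924576457900047) (l 140723778100887567)) (b (l 140972405184233487) (l 2)))) (b (c (l 141014873870155791) (l 189615464471)) (l 2)))))) (b (b (b (l 16557024) (l 16539832)) (b (l 16522152) (l 16505928))) (b (b (l 16493152) (b (l 16485072) (l 16480176))) (a (b (l 186394361623) (l 2)) (l 2))))) (b (b (a (b (l 16604920) (l 16590528)) (b (l 16613096) (l 16621640))) (a (b (l 16554792) (a (l 16532016) (l 16552160))) (b (l 16588152) (l 2)))) (b (a (b (l 192836965671) (l 2)) (l 2)) (l 2))))), by decide +kernel⟩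

def k1_pm_023 : ∃ t, chk3 f_pm_023 t 5 1 1 = true :=
  ⟨(b (a (b (b (l 14) (a (b (a (l 16689424) (l 14)) (l 16686624)) (l 2))) (a (b (b (l 16679792) (l 16674032)) (b (l 16667632) (a (l 16649984) (l 2)))) (l 2))) (l 2)) (b (l 2) (l 2))), by decide +kernel⟩

def k2_pm_023 : ∃ t, chk3 f_pm_023 t 3 1 1 = true :=
  ⟨(l 2), by decide +kernel⟩

theorem s3_pm_023 : ∃ t, chk3 f_pm_023 t 2 1 1 = true := ex3_a k0_pm_023 k1_pm_023

theorem s4_pm_023 : ∃ t, chk3 f_pm_023 t 1 1 1 = true := ex3_a s3_pm_023 k2_pm_023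

theorem c_pm_023 : CertB 0 536870912 0 536870912 649613803 48318383 3 eng mog cd0q0 cd0q2 pd3 true true false .up 0 2 3
    ndB0q0 ndB0q2 pcB3 cut_pm_023 xt_pm_023 :=
  certB2 (fam := true) (s1 := true) (s2 := false) (a := 0) (b := 2) (c := 3) (cn := .up) (n1 := ndB0q0) (n2 := ndB0q2) (pc := pcB3) (cut := cut_pm_023) (xt := xt_pm_023) (P1 := 0) (W1 := 536870912) (P2 := 0) (W2 := 536870912) (P3 := 649613803) (W3 := 48318383) (N0 := 3) (En := eng) (mo := mog) (C1 := cd0q0) (C2 := cd0q2) (C3 := pd3)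
    rfl (fun _ => rfl) s4_pm_023

noncomputable def cut_pm_101 : Cut := Cut.of [[⟨3, 0, 0, 1449551462⟩], [⟨4, 0, 0, 2845415833⟩], [⟨0, 1, 0, 67108864⟩, ⟨1, 0, 0, 67108864⟩, ⟨2, 1, 0, 67108864⟩]]

noncomputable def f_pm_101 : ℕ → ℕ → ℕ → ℕ → Bool := onCell 536870912 536870912 536870912 536870912 649613803 48318383
    (rowB 3 eng mog cd0q1 cd0q0 pd1 1 true true false .npn 1 0 1 (qsf 536870912 536870912 0 536870912 1) ndB0q1 ndB0q0 pcB1 cut_pm_101 Ext.none)

def k0_pm_101 : ∃ t, chk3 f_pm_101 t 1 1 1 = true :=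
  ⟨(l 6), by decide +kernel⟩

theorem c_pm_101 : CertB 536870912 536870912 0 536870912 649613803 48318383 3 eng mog cd0q1 cd0q0 pd1 true true false .npn 1 0 1
    ndB0q1 ndB0q0 pcB1 cut_pm_101 Ext.none :=
  certB1 (fam := true) (s1 := true) (s2 := false) (a := 1) (b := 0) (c := 1) (cn := .npn) (n1 := ndB0q1) (n2 := ndB0q0) (pc := pcB1) (cut := cut_pm_101) (xt := Ext.none) (P1 := 536870912) (W1 := 536870912) (P2 := 0) (W2 := 536870912) (P3 := 649613803) (W3 := 48318383) (N0 := 3) (En := eng) (mo := mog) (C1 := cd0q1) (C2 := cd0q0) (C3 := pd1)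
    rfl (fun _ => rfl) k0_pm_101

noncomputable def cut_pm_102 : Cut := Cut.of [[⟨3, 0, 0, 1449551462⟩], [⟨4, 0, 0, 2845415833⟩], [⟨0, 1, 0, 33554432⟩, ⟨1, 0, 0, 33554432⟩, ⟨2, 1, 0, 33554432⟩]]

noncomputable def xt_pm_102 : Ext := extD2 3 ⟨7, 3, 3, 10, 377, 200, 77, 100, 17, 50, 3, 16⟩ eng cd0q1 cd0q0 pd2 true true false .npp 1 0 2 rfl ndB0q1 ndB0q0 pcB2

noncomputable def f_pm_102 : ℕ → ℕ → ℕ → ℕ → Bool := onCell 536870912 536870912 0 536870912 649613803 48318383
    (rowB 3 eng mog cd0q1 cd0q0 pd2 0 true true false .npp 1 0 2 (qsf 536870912 536870912 0 536870912 2) ndB0q1 ndB0q0 pcB2 cut_pm_102 xt_pm_102)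

def k0_pm_102 : ∃ t, chk3 f_pm_102 t 2 1 1 = true :=
  ⟨(l 6), by decide +kernel⟩

def k1_pm_102 : ∃ t, chk3 f_pm_102 t 3 2 1 = true :=
  ⟨(a (l 6) (b (l 6) (a (l 6) (b (l 6) (a (l 6) (b (l 6) (a (l 6) (b (a (l 6) (c (l 16545192) (l 16537752))) (a (c (l 16543464) (l 16535944)) (c (b (l 16534680) (l 16527904)) (l 16522928))))))))))), by decide +kernel⟩

def k2_pm_102 : ∃ t, chk3 f_pm_102 t 6 3 1 = true :=
  ⟨(b (l 6) (a (l 6) (b (a (l 6) (b (l 6) (a (l 6) (b (l 6) (a (l 6) (l 16534040)))))) (a (b (l 6) (b (a (l 6) (c (l 16545032) (l 16551440))) (a (l 16572296) (l 16548400)))) (b (a (a (b (l 6) (l 16537192)) (b (l 16538632) (l 16531192))) (b (a (l 16531960) (l 16524584)) (l 16520584))) (a (b (a (l 16532568) (l 16525672)) (a (l 16531048) (l 16522200))) (b (l 16514704) (l 16510944)))))))), by decide +kernel⟩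

def k3_pm_102 : ∃ t, chk3 f_pm_102 t 14 6 1 = true :=
  ⟨(b (l 6) (a (l 6) (b (a (l 6) (b (l 6) (a (l 6) (b (c (l 16539592) (a (l 6) (l 16529704))) (c (l 16533064) (l 16525640)))))) (a (b (a (l 6) (a (l 6) (a (l 6) (b (l 6) (l 16532968))))) (a (b (l 6) (c (l 16535872) (l 16530760))) (c (b (l 16533096) (l 16527152)) (b (l 16526960) (l 16520848))))) (b (a (a (b (l 6) (l 16529376)) (b (a (l 16531944) (l 16529512)) (l 16524560))) (c (b (l 16526904) (l 16520904)) (b (l 16519208) (l 16513000)))) (a (c (b (l 16524136) (l 16518232)) (b (l 16516952) (l 16510928))) (c (b (l 16514976) (l 16509112)) (b (l 16506936) (l 16501008))))))))), by decide +kernel⟩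

def k4_pm_102 : ∃ t, chk3 f_pm_102 t 15 12 1 = true :=
  ⟨(a (b (a (l 6) (b (l 6) (a (l 6) (b (l 6) (l 16542040))))) (a (b (l 6) (b (l 6) (a (l 6) (l 16535456)))) (b (a (a (l 6) (b (l 6) (l 16535856))) (b (c (l 16538504) (l 16530752)) (c (l 16531840) (l 16523520)))) (a (a (b (l 16534168) (c (l 16531128) (l 16523080))) (b (l 16528928) (c (l 16526264) (l 16517704)))) (b (c (l 16525408) (l 16516536)) (c (l 16519136) (l 16509792))))))) (b (a (b (a (b (l 6) (l 16545400)) (b (l 16541000) (c (l 16537576) (l 16529544)))) (a (b (c (l 16541664) (l 16534016)) (c (l 16534832) (l 16526600))) (b (c (l 16530816) (l 16522208)) (c (l 16524288) (l 16515104))))) (b (a (b (c (l 16533024) (l 16524688)) (c (l 16526360) (l 16517448))) (b (c (l 16521352) (l 16512192)) (c (l 16515024) (l 16505288)))) (a (b (c (l 16519920) (l 16510432)) (c (l 16513712) (l 16503656))) (c (b (a (l 16511688) (l 16506136)) (l 16503016)) (b (l 16498608) (l 16492160)))))) (a (b (a (b (c (l 16528232) (l 16519424)) (c (l 16521856) (l 16512496)))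 (c (b (l 16517992) (l 16511888)) (b (l 16508240) (l 16501616)))) (a (b (c (l 16515664) (l 16505808)) (c (l 16509632) (l 16499360))) (c (b (l 16505952) (l 16500208)) (b (l 16495240) (l 16489088))))) (b (a (c (b (l 16507704) (l 16501880)) (b (l 16497112) (l 16490808))) (c (b (l 16497304) (l 16491792)) (b (l 16485944) (l 16479952)))) (a (b (c (l 16496248) (l 16484736)) (c (l 16490792) (l 16478880))) (b (c (l 16486464) (l 16474192)) (c (l 16481312) (l 16468648)))))))), by decide +kernel⟩

def k5_pm_102 : ∃ t, chk3 f_pm_102 t 30 13 1 = true :=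
  ⟨(b (a (b (a (b (c (l 16542768) (l 16535560)) (c (l 16536080) (l 16528472))) (b (c (l 16532368) (l 16524408)) (c (l 16526000) (l 16517624)))) (a (b (c (l 16529640) (l 16521680)) (c (l 16523464) (l 16515208))) (b (c (l 16519800) (l 16511112)) (c (l 16513736) (l 16504808))))) (b (a (a (b (c (l 16524776) (l 16516240)) (c (l 16518520) (l 16509640))) (b (l 16515728) (l 16509400))) (b (c (l 16512992) (l 16503280)) (c (l 16507000) (l 16496984)))) (a (a (b (c (l 16512392) (l 16503248)) (l 16509872)) (b (c (l 16507688) (l 16498176)) (c (l 16501688) (l 16492024)))) (c (b (l 16501128) (l 16495360)) (b (l 16490880) (l 16484936)))))) (a (b (a (c (b (l 16517432) (l 16511496)) (b (l 16508952) (l 16502856))) (c (b (l 16507792) (l 16501920)) (b (l 16498688) (l 16492704)))) (c (a (b (l 16505624) (l 16499792)) (b (l 16496088) (l 16490272))) (a (b (l 16496896) (l 16491048)) (b (l 16486840) (l 16481072))))) (b (a (a (c (l 16497544) (l 16488032)) (c (b (l 16495784) (l 16489944)) (b (l 16486024) (l 16480160))))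 (c (b (l 16489648) (l 16483976)) (b (l 16479136) (l 16473440)))) (a (b (a (l 16484432) (c (l 16484128) (l 16474400))) (a (l 16478688) (c (a (b (l 16480864) (l 16477952)) (l 16477272)) (a (l 16469872) (l 16467568))))) (c (b (a (b (l 16481664) (l 16478776)) (b (l 16477752) (l 16474896))) (a (b (l 16475872) (l 16472960)) (l 16470584))) (b (c (a (l 16472832) (l 16468576)) (l 16464752)) (c (l 16469008) (l 16459176)))))))), by decide +kernel⟩

def k6_pm_102 : ∃ t, chk3 f_pm_102 t 31 26 1 = true :=
  ⟨(a (b (a (b (c (l 16503768) (l 16493136)) (c (l 16498048) (l 16487120))) (b (c (l 16494624) (l 16483152)) (c (l 16489184) (l 16477416)))) (c (a (b (l 16492448) (l 16486936)) (b (l 16483856) (l 16478600))) (a (b (l 16481280) (l 16475600)) (b (l 16471848) (l 16466432))))) (a (b (b (c (l 16485504) (l 16473240)) (c (l 16480344) (l 16467784))) (b (c (l 16475288) (l 16462496)) (a (b (l 16467536) (c (l 16471112) (l 16458320))) (c (b (l 16469432) (l 16466920)) (c (l 16458536) (l 16451440)))))) (b (c (b (l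 16476320) (l 16471440)) (b (l 16463296) (l 16458128))) (b (b (a (l 16463616) (c (l 16465640) (l 16451976))) (c (a (l 16467616) (c (l 16466360) (l 16459984))) (a (l 16454216) (l 16449520)))) (c (a (b (c (l 16468184) (l 16461992)) (l 16462640)) (c (l 16462616) (l 16456304))) (c (a (l 16454024) (l 16449464)) (l 16444448))))))), by decide +kernel⟩

def k7_pm_102 : ∃ t, chk3 f_pm_102 t 31 27 1 = true :=
  ⟨(a (a (b (b (c (l 16481480) (l 16470048)) (b (a (l 16474096) (c (l 16475408) (l 16463752))) (c (a (l 16476624) (l 16472680)) (a (l 16465416) (l 16461056))))) (a (c (b (b (l 16473840) (l 16471008)) (l 16466744)) (b (a (l 16462392) (l 16460240)) (l 16455856))) (c (b (l 16468504) (l 16462896)) (b (l 16457016) (l 16451648))))) (b (b (a (b (l 16471000) (c (l 16474088) (l 16462024))) (c (b (l 16472656) (l 16470040)) (c (l 16462240) (l 16455424)))) (c (a (b (l 16471416) (l 16468696)) (l 16466032)) (c (l 16459160) (l 16452416)))) (c (b (c (l 16465168) (l 16459872)) (c (l 16459552) (l 16454448))) (b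 (c (l 16453888) (l 16447200)) (c (l 16448600) (l 16442008)))))) (b (a (a (b (c (b (l 16468544) (l 16465928)) (c (l 16457880) (l 16450904))) (c (l 16461976) (l 16449344))) (c (b (l 16463064) (l 16457880)) (b (l 16450000) (l 16444992)))) (c (b (c (l 16459704) (l 16453576)) (c (l 16454544) (l 16448584))) (b (c (l 16446856) (l 16439544)) (c (l 16441968) (l 16434704))))) (c (a (b (c (l 16457328) (l 16451776)) (c (l 16451816) (l 16446488))) (b (c (l 16449264) (l 16443520)) (c (l 16443848) (l 16438368)))) (a (b (c (l 16445520) (l 16438560)) (c (l 16440400) (l 16433568))) (b (c (l 16437064) (l 16429896)) (l 16428696)))))), by decide +kernel⟩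

def k8_pm_102 : ∃ t, chk3 f_pm_102 t 14 14 1 = true :=
  ⟨(a (b (a (b (l 6) (a (l 6) (c (l 16540096) (l 16538912)))) (b (a (l 6) (c (b (l 16538448) (l 16532680)) (b (l 16534520) (l 16528552)))) (a (c (b (l 16535144) (l 16529576)) (l 16529448)) (c (b (l 16527024) (l 16521440)) (b (l 16522728) (l 16517000)))))) (a (b (a (c (l 16536392) (l 16536632)) (c (l 16529088) (l 16527472))) (a (l 16526224) (c (l 16518544) (l 16516496)))) (b (a (b (l 16522912) (l 16517368)) (c (b (l 16515920) (l 16510416)) (l 16529488))) (a (c (l 16510648) (l 16507096)) (c (l 16502376) (l 16497552)))))) (b (a (b (a (c (b (l 16530008) (l 16524256)) (b (l 16524720) (l 16518824))) (c (b (l 16521320) (l 16515592)) (b (l 16514888) (l 16509056)))) (a (c (b (l 16518600) (l 16513016)) (b (l 16513048) (l 16507360))) (c (b (l 16509936) (l 16504336)) (b (l 16503328) (l 16497688))))) (b (c (a (b (l 16512432) (l 16506712)) (b (l 16503336) (l 16497616))) (a (b (l 16505048) (l 16499280)) (b (l 16495200) (l 16489488)))) (c (a (b (l 16501048)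 (l 16495424)) (b (l 16491944) (l 16486296))) (a (b (l 16493600) (l 16487992)) (l 16502024))))) (a (b (c (a (b (l 16507464) (l 16501920)) (b (l 16498760) (l 16493168))) (a (b (l 16501744) (l 16496152)) (b (l 16492088) (l 16486504)))) (c (a (l 16504280) (b (l 16487624) (l 16482328))) (a (l 16487936) (l 16478256)))) (b (c (a (b (l 16489808) (l 16484160)) (b (l 16480624) (l 16474904))) (a (b (l 16482408) (l 16476808)) (b (l 16472680) (l 16467064)))) (c (a (b (l 16478544) (l 16473160)) (b (l 16469192) (l 16463704))) (a (l 16468528) (l 16458728))))))), by decide +kernel⟩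

def k9_pm_102 : ∃ t, chk3 f_pm_102 t 14 15 1 = true :=
  ⟨(a (b (a (b (a (l 16516656) (l 16508272)) (a (l 16508656) (l 16500152))) (b (a (c (l 16501184) (l 16497120)) (c (l 16492768) (l 16487544))) (a (l 16491288) (c (l 16484720) (l 16478888))))) (a (b (a (l 16502520) (l 16493864)) (a (l 16498504) (l 16489976))) (b (a (c (l 16487400) (l 16481656)) (b (l 16477096) (l 16474872))) (a (l 16502544) (l 16473512))))) (b (a (b (c (a (l 16484024) (l 16474992)) (a (l 16477880) (l 16468128))) (a (c (b (l 16477688) (l 16474064)) (l 16469168)) (c (b (l 16468552) (l 16465568)) (b (l 16461416) (l 16457984))))) (b (a (c (b (l 16468080) (l 16463408)) (l 16458344)) (c (b (l 16458576) (l 16454656)) (b (l 16450928) (l 16446752)))) (a (c (b (l 16459936) (l 16457864)) (l 16450792)) (c (l 16451208) (l 16442416))))) (a (a (b (b (c (l 16471600) (l 16464256)) (l 16466752)) (l 16465648)) (b (c (l 16463424) (l 16454760)) (l 16457896))) (b (c (a (l 16456016) (l 16448624)) (l 16442472)) (c (a (l 16455472) (l 16448224))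 (l 16440384)))))), by decide +kernel⟩

def k10_pm_102 : ∃ t, chk3 f_pm_102 t 60 7 1 = true :=
  ⟨(b (b (b (c (a (b (l 16494024) (l 16488304)) (b (l 16484512) (l 16478776))) (a (b (l 16485304) (l 16479648)) (b (l 16475392) (l 16469768)))) (c (a (b (l 16482608) (l 16476904)) (b (l 16473040) (l 16467280))) (a (l 16481736) (b (l 16464184) (l 16458600))))) (b (c (a (b (l 16471176) (l 16465360)) (b (l 16461464) (l 16455552))) (a (b (l 16462872) (l 16457232)) (b (l 16452992) (l 16447304)))) (a (c (b (l 16459544) (l 16454008)) (b (l 16451584) (l 16446160))) (c (b (a (l 16452120) (l 16447192)) (a (l 16447000) (l 16442824))) (b (l 16441648) (l 16436864)))))) (b (b (a (b (c (l 16449680) (l 16441656)) (l 16442944)) (c (c (l 16442120) (l 16438512)) (l 16431600))) (c (a (l 16443672) (b (l 16437032) (l 16435344))) (a (l 16434248) (l 16426184)))) (b (c (a (l 16441208) (b (l 16434168) (l 16433528))) (c (l 141159940626513951) (l 16423288))) (c (a (l 16440960) (b (l 16433472) (l 16434032))) (a (l 16428704)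 (l 16421024)))))), by decide +kernel⟩

def k11_pm_102 : ∃ t, chk3 f_pm_102 t 61 7 2 = true :=
  ⟨(b (b (a (b (a (l 16474368) (b (a (l 16473600) (l 16471368)) (a (l 16467816) (l 16465504)))) (a (l 16462824) (a (l 16459104) (b (l 16459656) (l 16453760))))) (b (b (c (l 16468728) (l 16464496)) (c (l 16462816) (l 16458752))) (b (c (l 16456848) (l 16452968)) (c (l 16450784) (l 16447096))))) (b (a (b (c (a (l 16455608) (l 16450624)) (l 16449792)) (b (l 16447016) (l 16444072))) (b (c (a (l 16446360) (l 16442936)) (a (l 16442952) (l 16439360))) (a (c (b (l 16441760) (l 16439352)) (l 16437320)) (c (l 16438072) (l 16434504))))) (a (b (a (l 16442592) (l 16438384)) (l 16437008)) (a (b (c (l 16436584) (l 16433160)) (c (l 16433288) (l 16429656))) (c (b (l 16434336) (l 16430928)) (l 16428784)))))) (b (a (b (b (l 16434080) (l 16431544)) (b (l 16429448) (a (l 16429696) (l 16425928)))) (c (b (a (b (a (l 16431168) (l 16429744)) (a (l 16428760) (l 16427184))) (b (l 16427888) (l 16425272))) (a (a (a (l 16426448)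 (l 16425504)) (b (l 16425080) (a (l 16423952) (l 16423176)))) (b (c (l 16424104) (l 16422056)) (l 141187428400611359)))) (b (b (a (l 16426544) (l 16423816)) (l 141046141158244383)) (a (l 141060709683986463) (l 140986286484340767))))) (a (b (c (b (l 16429008) (a (l 16430432) (l 16426752))) (l 140983881315237919)) (b (c (l 141223231263031327) (l 16423280)) (c (l 141257934600470559) (l 140917979337015327)))) (a (b (c (c (b (b (l 16424808) (l 141014598922895391)) (l 141010888070774815)) (b (l 141111905697628191) (l 140934540727189535))) (l 140950277479792671)) (b (c (l 141151762996035615) (l 140837646256521247)) (a (l 141183030355673119) (l 141159528290893855)))) (c (b (b (l 141098093078528031) (l 141099742344855583)) (b (l 141101529051332639) (a (l 141106751734890527) (l 141082699914608671)))) (b (l 140948559485976607) (b (l 140783976337981471) (l 140789817494339615)))))))), by decide +kernel⟩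

def k12_pm_102 : ∃ t, chk3 f_pm_102 t 61 7 3 = true :=
  ⟨(b (b (a (a (b (l 16465136) (l 16453976)) (b (b (c (l 16465736) (l 16460208)) (l 16457480)) (b (l 16451896) (l 16446288)))) (b (b (c (l 16459472) (l 16453648)) (c (l 16453864) (l 16448152))) (c (b (l 16448232) (l 16442536)) (b (l 16442648) (l 16437104))))) (b (a (a (l 16442640) (b (l 16440608) (l 16434888))) (b (c (l 16436800) (l 16431528)) (a (c (l 16433136) (l 16428072)) (l 16427496)))) (a (b (l 16432368) (l 16428448)) (b (a (l 16426392) (l 16423416)) (a (l 16422616) (l 16419608)))))) (b (a (b (l 16423480) (l 16418216)) (b (b (a (l 16419200) (l 16416136)) (a (l 16416168) (l 16413032))) (b (a (l 16413560) (l 16410336)) (c (l 140990753240301599) (l 16406408))))) (a (b (l 141047171934994463) (l 141083455815958559)) (b (c (c (l 140972473858293791) (l 140972817449238559)) (a (l 140804317285548063) (l 140767895955718175))) (b (l 140973435918827551) (a (l 16407888) (l 140763635352502303))))))), by decide +kernel⟩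

def k13_pm_102 : ∃ t, chk3 f_pm_102 t 31 28 1 = true :=
  ⟨(a (b (c (a (b (c (l 16461352) (l 16456752)) (c (l 16455536) (l 16451128))) (b (c (l 16453880) (l 16448992)) (c (l 16448128) (l 16443480)))) (a (b (c (l 16451352) (l 16445168)) (c (l 16445896) (l 16439840))) (b (c (l 16443312) (l 16436840)) (c (l 16437992) (l 16431672))))) (c (a (b (c (l 16449632) (l 16445440)) (c (a (l 16445416) (l 16441896)) (a (l 16441504) (l 16437864)))) (b (c (a (l 16444128) (l 16440504)) (l 16437936)) (c (a (l 16438680) (l 16435720)) (a (l 16434488) (l 16431352))))) (a (b (c (l 16440384) (l 16434488)) (c (l 16434856) (l 16429120))) (b (c (l 16432648) (l 16426504)) (c (l 16427808) (l 16421744)))))) (b (c (a (b (c (l 16446232) (l 16441152)) (a (l 16440176) (l 16436368))) (b (c (l 16438392) (l 16433184)) (c (l 16433472) (l 16428456)))) (a (b (c (l 16435264) (l 16428576)) (c (l 16430112) (l 16423600))) (b (c (l 16427152) (l 16420288)) (c (l 16422568) (l 16415808))))) (c (a (b (a (b (l 16436048) (l 16433728)) (l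 16431696)) (c (l 16431432) (l 16426800))) (b (c (l 16429264) (l 16424328)) (c (l 16425184) (l 16420312)))) (a (b (c (l 16425400) (l 16418976)) (c (l 16421272) (l 16414840))) (b (l 16425712) (c (l 16414512) (l 16407792))))))), by decide +kernel⟩

def k14_pm_102 : ∃ t, chk3 f_pm_102 t 31 29 1 = true :=
  ⟨(a (b (c (a (b (a (b (l 16439192) (l 16436824)) (b (l 16436184) (l 16434208))) (c (a (l 16435680) (l 16433168)) (l 16430480))) (b (c (l 16443624) (l 16428832)) (c (l 16429160) (l 16424800)))) (a (b (c (a (l 16431424) (l 16428216)) (l 16424216)) (c (l 16425640) (l 16419912))) (b (c (l 16423624) (l 16417528)) (c (l 16419552) (l 16413416))))) (c (a (b (c (c (l 16431512) (l 16429696)) (l 16426560)) (c (c (l 16428016) (l 16426136)) (l 16422912))) (b (c (l 16425192) (l 16420792)) (c (l 16429360) (l 16417040)))) (c (a (b (l 16421616) (l 16417856)) (b (l 16415504) (l 16411696))) (a (l 16413840) (b (l 16409336) (l 16405480)))))) (b (c (a (b (c (l 16427408) (l 16422784)) (c (l 16423280) (l 16418680)))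 (b (c (l 16421032) (l 16416232)) (c (l 16416744) (l 16412032)))) (a (b (c (l 16417248) (l 16410808)) (c (l 16413160) (l 16406728))) (b (c (l 16410488) (l 16403808)) (l 16424144)))) (c (a (b (c (l 16419152) (l 16414568)) (a (l 16414712) (l 16411408))) (b (l 16420712) (a (l 16407944) (l 16404296)))) (a (b (l 16405976) (l 16402104)) (b (l 16399048) (l 16395120)))))), by decide +kernel⟩

def k15_pm_102 : ∃ t, chk3 f_pm_102 t 31 30 1 = true :=
  ⟨(a (a (c (c (c (b (b (l 16424888) (l 16422160)) (b (l 141061809193943071) (l 141061534312333343))) (b (l 140995632341139487) (l 140871868553838623))) (b (b (l 16419608) (l 16416688)) (l 140943061924298783))) (c (b (a (l 16414360) (l 16411304)) (l 141116372433207327)) (b (b (l 16408400) (l 16405192)) (b (l 16402368) (l 16399976))))) (b (c (b (c (l 140956324793597983) (l 16413608)) (b (l 141111149765541919) (l 141004978171084831))) (b (c (l 16408200) (l 16401912)) (a (l 16403600) (l 16400320)))) (c (c (b (l 140997487748775967) (l 141006833593286687)) (l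 140879702553624607)) (c (l 140689143433084959) (b (l 16395816) (l 16393368)))))) (b (b (c (c (l 140951170812461087) (a (l 16407104) (l 16399992))) (a (c (l 16401608) (l 16395192)) (l 16391456))) (c (a (l 140981201219862559) (l 140965052127707167)) (a (a (l 16396960) (l 16393496)) (a (l 16389928) (l 16386224))))) (c (b (a (l 141004359677689887) (l 140929592871321631)) (c (a (l 141018378450468895) (l 140777241789972511)) (l 140758893689094175))) (b (c (l 140589706331422751) (a (l 16388984) (l 16381776))) (c (l 140570189994803231) (a (l 16386464) (l 16379152))))))), by decide +kernel⟩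

def k16_pm_102 : ∃ t, chk3 f_pm_102 t 31 31 1 = true :=
  ⟨(a (c (a (c (b (c (b (l 141062290223939615) (l 140883757021937695)) (l 141023601152851999)) (b (a (l 141052394618716191) (l 141008070549012511)) (c (l 141059610163986463) (l 140994051777740831)))) (b (l 140902311268384799) (b (l 140706666916495391) (l 140717249716453407)))) (c (b (b (l 141017485108871199) (l 141029167417737247)) (b (l 140951651847028767) (b (l 140961066415505439) (l 140949109227110431)))) (b (l 140834691289301023) (l 140797857647263775)))) (b (c (c (l 140874548583989279) (l 141052669461151775)) (a (l 140716493777109023) (l 140644888068587551))) (a (c (l 140710790071959583) (l 140892140756074527)) (b (l 140643101366288415) (l 140637397649096735))))) (c (c (b (a (b (l 140945948118024223) (l 140964777251782687)) (b (l 140982713020727327) (l 140919147501092895))) (b (a (l 140894477225394207) (l 140946704008757279)) (b (a (l 140909458070896671) (l 140877503494619167)) (a (l 140901349172805663) (l 140693472735625247)))))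 (b (a (l 140760336800219167) (l 140679179081433119)) (b (l 140729894060228639) (a (l 140577474268872735) (l 140536173845004319))))) (b (b (c (l 140912825301516319) (l 140533425057202207)) (a (l 140754083308290079) (l 140853589094809631))) (a (c (l 140739171185836063) (l 140830774234316831)) (b (l 140663785897590815) (l 140654096450011167)))))), by decide +kernel⟩

theorem s17_pm_102 : ∃ t, chk3 f_pm_102 t 31 15 1 = true := ex3_b k15_pm_102 k16_pm_102

theorem s18_pm_102 : ∃ t, chk3 f_pm_102 t 31 14 1 = true := ex3_b k13_pm_102 k14_pm_102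

theorem s19_pm_102 : ∃ t, chk3 f_pm_102 t 31 7 1 = true := ex3_b s18_pm_102 s17_pm_102

theorem s20_pm_102 : ∃ t, chk3 f_pm_102 t 61 7 1 = true := ex3_c k11_pm_102 k12_pm_102

theorem s21_pm_102 : ∃ t, chk3 f_pm_102 t 30 7 1 = true := ex3_a k10_pm_102 s20_pm_102

theorem s22_pm_102 : ∃ t, chk3 f_pm_102 t 15 7 1 = true := ex3_a s21_pm_102 s19_pm_102

theorem s23_pm_102 : ∃ t, chk3 f_pm_102 t 14 7 1 = true := ex3_b k8_pm_102 k9_pm_102

theorem s24_pm_102 : ∃ t, chk3 f_pm_102 t 7 7 1 = true := ex3_a s23_pm_102 s22_pm_102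

theorem s25_pm_102 : ∃ t, chk3 f_pm_102 t 31 13 1 = true := ex3_b k6_pm_102 k7_pm_102

theorem s26_pm_102 : ∃ t, chk3 f_pm_102 t 15 13 1 = true := ex3_a k5_pm_102 s25_pm_102

theorem s27_pm_102 : ∃ t, chk3 f_pm_102 t 15 6 1 = true := ex3_b k4_pm_102 s26_pm_102

theorem s28_pm_102 : ∃ t, chk3 f_pm_102 t 7 6 1 = true := ex3_a k3_pm_102 s27_pm_102

theorem s29_pm_102 : ∃ t, chk3 f_pm_102 t 7 3 1 = true := ex3_b s28_pm_102 s24_pm_102

theorem s30_pm_102 : ∃ t, chk3 f_pm_102 t 3 3 1 = true := ex3_a k2_pm_102 s29_pm_102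

theorem s31_pm_102 : ∃ t, chk3 f_pm_102 t 3 1 1 = true := ex3_b k1_pm_102 s30_pm_102

theorem s32_pm_102 : ∃ t, chk3 f_pm_102 t 1 1 1 = true := ex3_a k0_pm_102 s31_pm_102

theorem c_pm_102 : CertB 536870912 536870912 0 536870912 649613803 48318383 3 eng mog cd0q1 cd0q0 pd2 true true false .npp 1 0 2
    ndB0q1 ndB0q0 pcB2 cut_pm_102 xt_pm_102 :=
  certB0 (fam := true) (s1 := true) (s2 := false) (a := 1) (b := 0) (c := 2) (cn := .npp) (n1 := ndB0q1) (n2 := ndB0q0) (pc := pcB2) (cut := cut_pm_102) (xt := xt_pm_102) (P1 := 536870912) (W1 := 536870912) (P2 := 0) (W2 := 536870912) (P3 := 649613803) (W3 := 48318383) (N0 := 3) (En := eng) (mo := mog) (C1 := cd0q1) (C2 := cd0q0) (C3 := pd2)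
    rfl s32_pm_102

noncomputable def cut_pm_112 : Cut := Cut.of [[⟨3, 0, 0, 1449551462⟩], [⟨4, 0, 0, 2845415833⟩]]

noncomputable def xt_pm_112 : Ext := extD2 3 ⟨7, 3, 3, 10, 377, 200, 77, 100, 17, 50, 3, 16⟩ eng cd0q1 cd0q1 pd2 true true false .dn 1 1 2 rfl ndB0q1 ndB0q1 pcB2

noncomputable def f_pm_112 : ℕ → ℕ → ℕ → ℕ → Bool := onCell 536870912 536870912 536870912 536870912 649613803 48318383
    (rowB 3 eng mog cd0q1 cd0q1 pd2 0 true true false .dn 1 1 2 (qsf 536870912 536870912 536870912 536870912 2) ndB0q1 ndB0q1 pcB2 cut_pm_112 xt_pm_112)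

def k0_pm_112 : ∃ t, chk3 f_pm_112 t 2 2 1 = true :=
  ⟨(a (b (l 6) (b (l 6) (a (l 6) (b (a (l 6) (l 16707256)) (a (l 16688912) (l 16691600)))))) (b (a (l 6) (b (l 6) (a (b (l 6) (l 16707256)) (b (l 16688912) (l 16691600))))) (a (b (b (a (l 6) (l 16715536)) (a (l 16715536) (l 16713552))) (b (a (l 16708536) (l 16713216)) (a (l 16699536) (l 16712168)))) (b (a (b (l 16708536) (l 16713216)) (b (l 16699536) (l 16712168))) (a (b (l 16720664) (l 16728880)) (b (l 16728880) (l 16748464))))))), by decide +kernel⟩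

def k1_pm_112 : ∃ t, chk3 f_pm_112 t 2 6 1 = true :=
  ⟨(a (b (a (b (a (l 6) (b (l 6) (l 16645816))) (a (b (l 16620720) (l 16597552)) (b (l 16624784) (l 16603088)))) (b (a (l 16659672) (l 16667824)) (a (b (l 16632232) (l 16612928)) (b (l 16643744) (l 16628120))))) (a (b (a (b (a (l 16573152) (l 16575360)) (a (l 16549536) (l 16552248))) (b (l 16581112) (l 16559256))) (a (b (a (l 16527064) (l 16529856)) (a (b (l 16513576) (l 16505576)) (b (l 16515096) (l 16507440)))) (b (l 16537848) (a (l 16515632) (l 16522728))))) (b (a (b (l 16593320) (l 16573896)) (b (l 16611704) (l 16595512))) (a (b (l 16555000) (a (l 16532336) (l 16544224))) (b (l 16579976) (a (l 16558080) (l 16595800))))))) (a (b (b (a (l 16683152) (l 16705152)) (a (b (l 16663920) (l 16649184)) (l 16687600))) (b (a (b (l 16637176) (l 16625168)) (b (l 16669880) (l 16663048))) (a (b (l 16614008) (c (a (l 16609744) (l 16633536)) (l 16588064))) (b (l 142908133479) (l 2))))) (b (b (a (l 16733288) (l 16767448)) (a (l 16728448) (l 16780200)))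 (b (a (b (l 16717672) (l 2)) (l 2)) (l 2))))), by decide +kernel⟩

def k2_pm_112 : ∃ t, chk3 f_pm_112 t 4 14 1 = true :=
  ⟨(a (b (a (b (a (b (l 16497496) (l 16489536)) (l 16495840)) (a (b (l 16481648) (l 16473856)) (l 16480528))) (b (a (l 16500680) (l 16507880)) (a (l 16485912) (l 16493792)))) (a (b (a (b (l 16466192) (l 16458648)) (b (l 16469336) (l 16462048))) (b (a (l 16451224) (l 16454888)) (a (a (l 16443352) (l 16444592)) (c (l 16455352) (l 16439608))))) (a (b (b (l 16475176) (l 16468208)) (c (l 141147296318799887) (l 16448672))) (b (l 141701381487640591) (c (l 141235875746267151) (l 16456704)))))) (a (a (b (b (l 16517632) (l 16504376)) (c (b (l 16502808) (l 141353111201906703)) (b (l 16480136) (l 16467608)))) (b (b (b (l 16533168) (l 16527056)) (l 16517928)) (c (b (l 141652590738620431) (l 64524682151)) (b (l 16493096) (l 16465960))))) (b (c (b (b (a (l 16561264) (l 11374624951)) (a (l 16556160) (c (l 46271225175) (l 16569664)))) (a (l 16569608) (l 104253270855))) (b (l 16540328) (l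 16529256))) (a (b (l 72577819319) (l 2)) (l 2))))), by decide +kernel⟩

def k3_pm_112 : ∃ t, chk3 f_pm_112 t 4 15 1 = true :=
  ⟨(a (b (b (a (a (c (b (c (l 16446312) (l 16440008)) (c (l 141413446796115983) (l 140942993245192207))) (l 141236081798430735)) (b (l 141322462212030479) (l 141204058539278351))) (a (a (l 141207631969861647) (l 141080569666240527)) (a (l 141207631989080079) (l 523464880034267985052844047)))) (a (b (c (a (b (l 141275183191539727) (l 141223849735094287)) (l 140840532509147151)) (a (l 140852077339836431) (l 140865889962328079))) (b (a (c (l 141175677374545935) (l 140794902724034575)) (l 140982919238172687)) (a (c (c (a (l 141041880550146063) (l 140980170464788495)) (l 140827750649561103)) (l 140756832126582799)) (c (l 140994326680076303) (l 140769682677071887))))) (a (b (c (l 140894133719121935) (l 140905678552956943)) (b (l 140848297799548943) (c (l 281679716111276454286835727) (l 140808990232264719)))) (b (l 1422905689827737015120609295) (l 2))))) (a (b (c (a (c (b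 (a (l 140979070937169935) (l 140741438990827535)) (a (l 140914268453945359) (l 140864240678322191))) (a (l 140825001850208271) (l 140821772037996559))) (b (c (l 140847816750497807) (l 140694778461388815)) (a (l 140765971825672207) (l 140775180242239503)))) (a (b (l 140701719095689231) (l 140623378877333519)) (b (l 140709553123917839) (l 140985118210080783)))) (a (c (c (b (a (l 140872555712970767) (l 140831530187948047)) (a (l 140851802410254351) (l 140820741208408079))) (b (l 140608604193538063) (l 140557889200275471))) (b (l 140720067165175823) (l 832949889855262790439125007))) (a (a (b (l 929663955424545137197334543) (l 2)) (l 2)) (l 2)))) (b (a (b (c (b (l 455765034135467014560022543) (l 2)) (l 745907230842970457309020175)) (l 2)) (l 2)) (l 2)))) (b (b (b (a (a (l 141234432623935503) (l 2)) (l 2)) (l 2)) (l 2)) (l 2))), by decide +kernel⟩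

def k4_pm_112 : ∃ t, chk3 f_pm_112 t 5 7 1 = true :=
  ⟨(b (a (b (a (a (b (b (l 117138249351) (l 2)) (l 2)) (l 2)) (l 2)) (l 2)) (l 2)) (l 2)), by decide +kernel⟩

def k5_pm_112 : ∃ t, chk3 f_pm_112 t 6 2 1 = true :=
  ⟨(b (a (b (a (b (l 6) (a (l 6) (l 16645816))) (b (a (l 16620720) (l 16597552)) (a (l 16624784) (l 16603088)))) (a (b (l 16659672) (l 16667824)) (b (a (l 16632232) (l 16612928)) (a (l 16643744) (l 16628120))))) (b (a (b (a (b (l 16573152) (l 16575360)) (b (l 16549536) (l 16552248))) (a (l 16581112) (l 16559256))) (b (a (b (l 16527064) (l 16529856)) (b (a (l 16513576) (l 16505576)) (a (l 16515096) (l 16507440)))) (a (l 16537848) (b (l 16515632) (l 16522728))))) (a (b (a (l 16593320) (l 16573896)) (a (l 16611704) (l 16595512))) (b (a (l 16555000) (b (l 16532336) (l 16544224))) (a (l 16579976) (b (l 16558080) (l 16595800))))))) (b (a (a (b (l 16683152) (l 16705152)) (b (a (l 16663920) (l 16649184)) (l 16687600))) (a (b (a (l 16637176) (l 16625168)) (a (l 16669880) (l 16663048)))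 (b (a (l 16614008) (c (b (l 16609744) (l 16633536)) (l 16588064))) (a (l 142908133479) (l 2))))) (a (a (b (l 16733288) (l 16767448)) (b (l 16728448) (l 16780200))) (a (b (a (l 16717672) (l 2)) (l 2)) (l 2))))), by decide +kernel⟩

def k6_pm_112 : ∃ t, chk3 f_pm_112 t 14 4 1 = true :=
  ⟨(b (a (b (a (b (a (l 16497496) (l 16489536)) (l 16495840)) (b (a (l 16481648) (l 16473856)) (l 16480528))) (a (b (l 16500680) (l 16507880)) (b (l 16485912) (l 16493792)))) (b (a (b (a (l 16466192) (l 16458648)) (a (l 16469336) (l 16462048))) (a (b (l 16451224) (l 16454888)) (b (b (l 16443352) (l 16444592)) (c (l 16455352) (l 16439608))))) (a (b (a (l 16475176) (l 16468208)) (l 141701381487640607)) (c (b (l 141147296318799903) (l 141235875746267167)) (b (l 16448672) (l 16456704)))))) (b (b (a (a (l 16517632) (l 16504376)) (c (a (l 16502808) (l 141353111201906719)) (a (l 16480136) (l 16467608)))) (a (a (c (l 16540936) (l 16518464)) (l 16517928)) (c (a (l 65061573255) (l 64524682151)) (a (l 16493096) (l 16481696)))))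 (a (c (a (a (b (l 16561264) (l 11374624951)) (b (l 16556160) (c (l 46271225175) (l 16569664)))) (b (l 16569608) (l 69356661575))) (a (l 16540328) (l 16529256))) (a (b (l 72040948407) (l 2)) (l 2))))), by decide +kernel⟩

def k7_pm_112 : ∃ t, chk3 f_pm_112 t 15 4 1 = true :=
  ⟨(b (b (b (a (c (a (a (l 16443256) (c (l 141413446796115999) (l 140942993245192223))) (a (a (l 141275183191539743) (l 141223849735094303)) (a (l 141175677374545951) (c (b (l 141041880550146079) (l 140980170464788511)) (l 140827750649561119))))) (a (l 141236081798430751) (a (l 140852077339836447) (a (l 140794902724034591) (l 140756832126582815))))) (c (c (a (a (b (l 140979070937169951) (l 140741438990827551)) (b (l 140914268453945375) (l 140864240678322207))) (a (b (l 140872555712970783) (l 140831530187948063)) (b (l 140851802410254367) (l 140820741208408095)))) (a (b (l 140825001850208287) (l 140821772037996575)) (a (l 140608604193538079) (l 140557889200275487)))) (a (a (l 140701719095689247) (l 140623378877333535))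 (a (l 140720067165175839) (l 832949889855262790439125023))))) (a (a (a (l 141322462212030495) (l 141204058539278367)) (a (c (l 140840532509147167) (l 140865889962328095)) (a (l 140982919238172703) (c (l 140994326680076319) (l 140769682677071903))))) (a (c (a (c (l 140847816750497823) (l 140694778461388831)) (b (l 140765971825672223) (l 140775180242239519))) (a (l 140709553123917855) (l 140985118210080799))) (a (a (b (l 140902173801644063) (l 2)) (l 2)) (l 2))))) (b (a (a (c (l 141186397674127391) (l 141021470891917343)) (a (a (l 140924988749217823) (l 140886711993860127)) (a (l 140848297799548959) (c (l 388065188237363821660979231) (l 140808990232264735))))) (a (a (c (a (l 455765034135467014560022559) (l 2)) (l 745907230842970457309020191)) (l 2)) (l 2))) (a (a (c (l 141089846832660511) (l 141086548254507039)) (a (l 1422905689827737015120609311) (l 2))) (l 2)))) (a (a (a (b (b (l 141234432623935519) (l 2)) (l 2)) (l 2)) (l 2)) (l 2))), by decide +kernel⟩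

def k8_pm_112 : ∃ t, chk3 f_pm_112 t 7 5 1 = true :=
  ⟨(a (b (a (b (a (a (b (l 117138249351) (l 2)) (l 2)) (l 2)) (l 2)) (l 2)) (l 2)) (l 2)), by decide +kernel⟩

def k9_pm_112 : ∃ t, chk3 f_pm_112 t 3 3 1 = true :=
  ⟨(a (b (b (a (a (b (l 16806592) (l 2)) (l 2)) (l 2)) (l 2)) (l 2)) (l 2)), by decide +kernel⟩

theorem s10_pm_112 : ∃ t, chk3 f_pm_112 t 7 4 1 = true := ex3_a k6_pm_112 k7_pm_112

theorem s11_pm_112 : ∃ t, chk3 f_pm_112 t 7 2 1 = true := ex3_b s10_pm_112 k8_pm_112

theorem s12_pm_112 : ∃ t, chk3 f_pm_112 t 3 2 1 = true := ex3_a k5_pm_112 s11_pm_112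

theorem s13_pm_112 : ∃ t, chk3 f_pm_112 t 3 1 1 = true := ex3_b s12_pm_112 k9_pm_112

theorem s14_pm_112 : ∃ t, chk3 f_pm_112 t 4 7 1 = true := ex3_b k2_pm_112 k3_pm_112

theorem s15_pm_112 : ∃ t, chk3 f_pm_112 t 2 7 1 = true := ex3_a s14_pm_112 k4_pm_112

theorem s16_pm_112 : ∃ t, chk3 f_pm_112 t 2 3 1 = true := ex3_b k1_pm_112 s15_pm_112

theorem s17_pm_112 : ∃ t, chk3 f_pm_112 t 2 1 1 = true := ex3_b k0_pm_112 s16_pm_112

theorem s18_pm_112 : ∃ t, chk3 f_pm_112 t 1 1 1 = true := ex3_a s17_pm_112 s13_pm_112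

theorem c_pm_112 : CertB 536870912 536870912 536870912 536870912 649613803 48318383 3 eng mog cd0q1 cd0q1 pd2 true true false .dn 1 1 2
    ndB0q1 ndB0q1 pcB2 cut_pm_112 xt_pm_112 :=
  certB0 (fam := true) (s1 := true) (s2 := false) (a := 1) (b := 1) (c := 2) (cn := .dn) (n1 := ndB0q1) (n2 := ndB0q1) (pc := pcB2) (cut := cut_pm_112) (xt := xt_pm_112) (P1 := 536870912) (W1 := 536870912) (P2 := 536870912) (W2 := 536870912) (P3 := 649613803) (W3 := 48318383) (N0 := 3) (En := eng) (mo := mog) (C1 := cd0q1) (C2 := cd0q1) (C3 := pd2)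
    rfl s18_pm_112

end Pool.Agent.Strip051.G.I6050_6500.Tab.C.BA00

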