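import Pool.Agent.Strip051.G.I6050_6500.Tab
import Pool.Agent.Strip051.PB.ExtD2

/-! # Certificates B3 (generated) -/

set_option linter.all false
set_option maxRecDepth 100000

namespace Pool.Agent.Strip051.G.I6050_6500.Tab.C.BA00

open Pool.Agent.Strip051.PB Pool.Agent.Strip051.PB.T
open Pool.Agent.Strip051.G.I6050_6500.Tab

noncomputable def cut_mm_202 : Cut := Cut.of [[⟨3, 0, 0, 1449551462⟩], [⟨4, 0, 0, 2845415833⟩], [⟨0, 1, 0, 53687091⟩, ⟨1, 0, 0, 53687091⟩, ⟨2, 1, 0, 53687091⟩]]

noncomputable def f_mm_202 : ℕ → ℕ → ℕ → ℕ → Bool := onCell 0 536870912 0 536870912 649613803 48318383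
    (rowB 3 eng mog cd0q2 cd0q0 pd2 0 true false false .pp 2 0 2 (qsf 0 536870912 0 536870912 2) ndB0q2 ndB0q0 pcB2 cut_mm_202 Ext.none)

def k0_mm_202 : ∃ t, chk3 f_mm_202 t 4 4 1 = true :=
  ⟨(b (b (a (a (b (c (l 16441472) (l 16442480)) (c (l 16447984) (l 16448024))) (b (c (l 16445288) (l 16446144)) (b (l 16468872) (l 16454016)))) (b (a (c (l 16451368) (l 16452120)) (c (l 16459488) (l 16460040))) (b (a (b (l 16452360) (l 16454552)) (a (l 16459024) (l 16463592))) (a (l 16459352) (l 16487096))))) (b (a (c (l 16461008) (l 16461640)) (a (l 16468296) (c (l 16476368) (l 16475760)))) (a (l 16470296) (a (l 16478824) (l 16486808))))) (b (a (l 16575488) (b (l 16492600) (l 16500832))) (a (b (l 16490848) (l 16498808)) (c (l 16565488) (l 16511096))))), by decide +kernel⟩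

def k1_mm_202 : ∃ t, chk3 f_mm_202 t 5 8 1 = true :=
  ⟨(a (b (a (b (c (l 16469576) (l 16480192)) (b (l 16471736) (a (l 16472320) (l 16477432)))) (b (b (l 16491208) (a (l 16478936) (l 16486040))) (a (l 16503232) (b (l 16488336) (l 16490992))))) (a (b (a (l 16481832) (l 16486544)) (l 16496272)) (b (a (b (l 16488488) (l 16495120)) (b (l 16515936) (l 16501376))) (a (l 16504536) (l 16511072))))) (b (a (b (a (b (l 16502544) (l 16494152)) (b (l 16500824) (l 16503136))) (a (b (l 16496600) (l 16499424)) (b (l 16505816) (l 16508832)))) (b (a (b (c (l 16510648) (l 16511248)) (l 16534184)) (b (c (l 16521368) (l 16522344)) (a (l 16521432) (l 16527264)))) (a (b (l 16526576) (c (l 16520480) (l 16518712))) (b (c (l 16527960) (l 16527424)) (c (l 16531744) (l 16530496)))))) (a (b (a (b (a (l 16500592) (l 16504912)) (l 16508472)) (b (l 16512168) (b (a (l 16512816) (l 16517560)) (l 16518304)))) (a (l 16518488) (b (l 16523488) (l 16530176)))) (b (a (b (c (l 16524392) (l 16521888)) (c (a (l 16526056)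 (l 16531416)) (b (l 16524472) (a (l 16523896) (l 16529320))))) (a (b (l 16531512) (c (l 16537168) (l 16534392))) (b (l 16537648) (c (l 16543224) (l 16540776))))) (a (a (b (l 16530376) (l 16537216)) (b (c (l 16537224) (l 16534056)) (l 16542264))) (b (a (b (c (l 16540872) (b (l 16536928) (l 16538400))) (l 16542344)) (b (c (l 16546744) (l 16543824)) (c (l 16549688) (l 16557184)))) (a (l 16547592) (l 16553200)))))))), by decide +kernel⟩

def k2_mm_202 : ∃ t, chk3 f_mm_202 t 5 9 1 = true :=
  ⟨(a (b (a (b (l 16507168) (l 16517120)) (b (a (l 16516152) (l 16523112)) (l 16530560))) (a (c (l 16551816) (l 16530064)) (l 16587696))) (b (a (b (a (l 16530968) (l 16539768)) (a (l 16542632) (l 16551888))) (b (a (b (l 16546384) (l 16552848)) (b (a (l 16554400) (l 16560104)) (l 16563912))) (a (b (l 16559120) (l 16565240)) (b (l 16570400) (l 16576736))))) (a (b (a (l 16553648) (l 16563392)) (l 16590296)) (a (b (l 16574168) (l 16585728)) (b (b (l 16582944) (l 16589048)) (l 14)))))), by decide +kernel⟩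

def k3_mm_202 : ∃ t, chk3 f_mm_202 t 2 5 1 = true :=
  ⟨(a (b (a (b (b (l 16507736) (a (l 16513264) (l 16521464))) (b (a (l 16523648) (l 16532248)) (c (a (l 16537600) (b (l 16542592) (l 16549112))) (l 16578224)))) (b (a (b (l 16520976) (l 16531288)) (b (l 16532064) (a (l 16539488) (l 16545512)))) (a (b (l 16542320) (c (c (b (l 16552040) (l 16579560)) (l 16575760)) (l 16551976))) (a (c (a (b (l 16549736) (b (l 16558208) (l 16564600))) (b (l 16552472) (b (l 16561128) (l 16567464)))) (b (l 16548976) (l 16560968))) (b (l 16556728) (a (l 16567056) (l 16570248))))))) (b (a (a (b (l 16547368) (l 16560424)) (c (b (l 16559472) (l 16594592)) (l 16580824))) (a (b (c (a (l 16566592) (a (l 16570224) (b (l 16569136) (l 16576576)))) (l 16585744)) (a (b (l 16574960) (l 16581984)) (a (b (a (l 16578400) (l 16579856)) (l 16586320)) (l 16585680)))) (a (b (b (l 16572456) (l 16579504)) (l 16590288)) (b (l 16582168) (l 16596584))))) (b (a (a (l 16573936) (c (l 16588040) (l 16580328))) (a (a (c (a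 (l 16594448) (b (l 16593472) (l 16601040))) (l 16589304)) (c (l 16601568) (l 16595600))) (c (l 16610552) (l 16605512)))) (a (a (l 16587848) (c (b (l 16598992) (l 16606272)) (l 16594616))) (a (a (b (l 16624824) (l 16611288)) (l 16613704)) (l 16623288)))))) (b (a (a (b (c (l 16571000) (l 16549128)) (b (l 16566648) (a (l 16575216) (l 16582096)))) (b (l 16586376) (l 16629880))) (a (b (b (l 16600848) (l 16632352)) (a (l 16633696) (l 14))) (a (b (b (l 16597032) (l 14)) (l 14)) (l 14)))) (a (b (a (b (a (l 16588608) (l 16595312)) (l 16606368)) (b (c (l 16606848) (l 16606496)) (l 14))) (a (b (l 16621224) (l 16636384)) (l 14))) (l 14)))), by decide +kernel⟩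

def k4_mm_202 : ∃ t, chk3 f_mm_202 t 6 8 1 = true :=
  ⟨(a (a (b (b (b (a (c (b (l 16532288) (l 16533856)) (l 16534504)) (c (l 16545696) (l 16547672))) (a (c (l 16536376) (a (l 16533872) (l 16540328))) (c (a (l 16545880) (l 16552512)) (l 16550488)))) (a (b (c (l 16540024) (l 16550536)) (c (l 16543984) (l 16553824))) (b (c (l 16563520) (a (l 16550144) (l 16557192))) (a (l 16553464) (l 16570952))))) (b (a (b (a (l 16554520) (l 16561160)) (a (c (l 16549520) (l 16547416)) (c (l 16556056) (l 16554320)))) (b (a (l 16568024) (l 16564640)) (a (c (l 16562816) (l 16561456)) (l 16579584)))) (a (b (b (a (l 16551520) (l 16558320)) (a (b (l 16553264) (a (l 16553112) (l 16556216))) (c (l 16562160) (l 16559680)))) (a (c (l 16560672) (l 16558000)) (b (b (a (l 16560976) (l 16564272)) (l 16564312)) (l 16567008)))) (b (a (c (l 16567752) (l 16565808)) (c (l 16574824) (l 16573288))) (a (b (b (l 16569576) (a (l 16569160) (l 16572648))) (c (l 16574856) (l 16572496))) (b (l 16577552) (b (a (l 16577656)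 (l 14)) (l 16588928)))))))) (a (b (b (b (c (l 16558672) (a (l 16553960) (l 16558240))) (c (l 16562920) (l 16564040))) (a (b (l 16563728) (c (l 16567624) (l 16568152))) (b (l 16571072) (l 16575152)))) (b (b (a (l 16582456) (c (l 16579544) (l 16579872))) (a (l 16587016) (l 16589416))) (b (a (c (l 16582128) (l 16580992)) (l 14)) (l 14)))) (b (c (b (b (l 16568088) (l 16575768)) (b (l 16581696) (l 16586200))) (b (b (a (l 16562640) (l 16567224)) (a (l 16570840) (l 16575616))) (b (l 16581152) (l 16587592)))) (a (b (b (l 16587288) (l 14)) (l 14)) (l 14))))) (b (a (b (a (b (c (l 16578240) (a (l 16572064) (l 16577152))) (c (l 16586328) (a (l 16580632) (l 14)))) (l 14)) (l 14)) (l 14)) (l 14))), by decide +kernel⟩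

def k5_mm_202 : ∃ t, chk3 f_mm_202 t 6 9 1 = true :=
  ⟨(a (b (a (b (a (b (a (l 16566080) (l 16572312)) (l 16583912)) (a (b (l 16578800) (l 16585800)) (l 14))) (a (b (l 16582736) (l 16589288)) (l 14))) (l 14)) (l 14)) (l 14)), by decide +kernel⟩

def k6_mm_202 : ∃ t, chk3 f_mm_202 t 7 4 1 = true :=
  ⟨(l 14), by decide +kernel⟩

def k7_mm_202 : ∃ t, chk3 f_mm_202 t 3 5 1 = true :=
  ⟨(l 14), by decide +kernel⟩

def k8_mm_202 : ∃ t, chk3 f_mm_202 t 1 3 1 = true :=
  ⟨(a (a (b (b (a (b (a (b (l 16602048) (l 16616112)) (a (b (l 16610376) (l 16624720)) (b (a (l 16614760) (l 16617872)) (l 16631000)))) (a (b (l 16629752) (l 16684776)) (b (l 16663032) (l 16655592)))) (b (a (b (l 16625712) (l 16640576)) (b (l 16638536) (l 16653600))) (a (b (l 16654984) (l 16668832)) (l 14)))) (a (b (a (b (a (l 16652280) (l 16658592)) (a (b (l 16661064) (l 16666672)) (l 16670368))) (b (l 16668448) (l 16680472))) (a (b (a (b (a (l 97274088983) (l 16673640)) (l 2)) (l 85999831943)) (l 2)) (l 14))) (l 14)))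 (l 2)) (l 14)) (l 14)), by decide +kernel⟩

theorem s9_mm_202 : ∃ t, chk3 f_mm_202 t 6 4 1 = true := ex3_b k4_mm_202 k5_mm_202

theorem s10_mm_202 : ∃ t, chk3 f_mm_202 t 3 4 1 = true := ex3_a s9_mm_202 k6_mm_202

theorem s11_mm_202 : ∃ t, chk3 f_mm_202 t 3 2 1 = true := ex3_b s10_mm_202 k7_mm_202

theorem s12_mm_202 : ∃ t, chk3 f_mm_202 t 5 4 1 = true := ex3_b k1_mm_202 k2_mm_202

theorem s13_mm_202 : ∃ t, chk3 f_mm_202 t 2 4 1 = true := ex3_a k0_mm_202 s12_mm_202

theorem s14_mm_202 : ∃ t, chk3 f_mm_202 t 2 2 1 = true := ex3_b s13_mm_202 k3_mm_202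

theorem s15_mm_202 : ∃ t, chk3 f_mm_202 t 1 2 1 = true := ex3_a s14_mm_202 s11_mm_202

theorem s16_mm_202 : ∃ t, chk3 f_mm_202 t 1 1 1 = true := ex3_b s15_mm_202 k8_mm_202

theorem c_mm_202 : CertB 0 536870912 0 536870912 649613803 48318383 3 eng mog cd0q2 cd0q0 pd2 true false false .pp 2 0 2
    ndB0q2 ndB0q0 pcB2 cut_mm_202 Ext.none :=
  certB0 (fam := true) (s1 := false) (s2 := false) (a := 2) (b := 0) (c := 2) (cn := .pp) (n1 := ndB0q2) (n2 := ndB0q0) (pc := pcB2) (cut := cut_mm_202) (xt := Ext.none) (P1 := 0) (W1 := 536870912) (P2 := 0) (W2 := 536870912) (P3 := 649613803) (W3 := 48318383) (N0 := 3) (En := eng) (mo := mog) (C1 := cd0q2) (C2 := cd0q0) (C3 := pd2)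
    rfl s16_mm_202

noncomputable def cut_mm_203 : Cut := Cut.of [[⟨3, 0, 0, 1449551462⟩], [⟨4, 0, 0, 2845415833⟩]]

noncomputable def f_mm_203 : ℕ → ℕ → ℕ → ℕ → Bool := onCell 0 536870912 1610612736 536870912 649613803 48318383
    (rowB 3 eng mog cd0q2 cd0q0 pd3 1 true false false .up 2 0 3 (qsf 0 536870912 0 536870912 3) ndB0q2 ndB0q0 pcB3 cut_mm_203 Ext.none)

def k0_mm_203 : ∃ t, chk3 f_mm_203 t 1 1 1 = true :=
  ⟨(a (b (b (a (b (a (b (b (l 16706328) (l 16692304)) (l 14)) (l 14)) (l 14)) (l 14)) (l 14)) (l 2)) (l 14)), by decide +kernel⟩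

theorem c_mm_203 : CertB 0 536870912 0 536870912 649613803 48318383 3 eng mog cd0q2 cd0q0 pd3 true false false .up 2 0 3
    ndB0q2 ndB0q0 pcB3 cut_mm_203 Ext.none :=
  certB1 (fam := true) (s1 := false) (s2 := false) (a := 2) (b := 0) (c := 3) (cn := .up) (n1 := ndB0q2) (n2 := ndB0q0) (pc := pcB3) (cut := cut_mm_203) (xt := Ext.none) (P1 := 0) (W1 := 536870912) (P2 := 0) (W2 := 536870912) (P3 := 649613803) (W3 := 48318383) (N0 := 3) (En := eng) (mo := mog) (C1 := cd0q2) (C2 := cd0q0) (C3 := pd3)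
    rfl (fun _ => rfl) k0_mm_203

noncomputable def cut_mm_213 : Cut := Cut.of [[⟨3, 0, 0, 1449551462⟩], [⟨4, 0, 0, 2845415833⟩]]

noncomputable def f_mm_213 : ℕ → ℕ → ℕ → ℕ → Bool := onCell 0 536870912 536870912 536870912 649613803 48318383
    (rowB 3 eng mog cd0q2 cd0q1 pd3 0 true false false .pnn 2 1 3 (qsf 0 536870912 536870912 536870912 3) ndB0q2 ndB0q1 pcB3 cut_mm_213 Ext.none)

def k0_mm_213 : ∃ t, chk3 f_mm_213 t 1 1 1 = true :=
  ⟨(a (l 14) (l 4)), by decide +kernel⟩

theorem c_mm_213 : CertB 0 536870912 536870912 536870912 649613803 48318383 3 eng mog cd0q2 cd0q1 pd3 true false false .pnn 2 1 3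
    ndB0q2 ndB0q1 pcB3 cut_mm_213 Ext.none :=
  certB0 (fam := true) (s1 := false) (s2 := false) (a := 2) (b := 1) (c := 3) (cn := .pnn) (n1 := ndB0q2) (n2 := ndB0q1) (pc := pcB3) (cut := cut_mm_213) (xt := Ext.none) (P1 := 0) (W1 := 536870912) (P2 := 536870912) (W2 := 536870912) (P3 := 649613803) (W3 := 48318383) (N0 := 3) (En := eng) (mo := mog) (C1 := cd0q2) (C2 := cd0q1) (C3 := pd3)
    rfl k0_mm_213

end Pool.Agent.Strip051.G.I6050_6500.Tab.C.BA00

namespace Pool.Agent.Strip051.G.I6050_6500.Tab.C.BA01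

open Pool.Agent.Strip051.PB Pool.Agent.Strip051.PB.T
open Pool.Agent.Strip051.G.I6050_6500.Tab

noncomputable def f_pp_001 : ℕ → ℕ → ℕ → ℕ → Bool := onCell 0 536870912 0 536870912 649613803 48318383
    (rowB 3 eng mog cd0q0 cd1q0 pd1 0 true true true .up 0 0 1 (qsf 0 536870912 0 536870912 1) ndB0q0 ndB1q0 pcB1 Cut.none Ext.none)

def k0_pp_001 : ∃ t, chk3 f_pp_001 t 1 1 1 = true :=
  ⟨(l 4), by decide +kernel⟩

theorem c_pp_001 : CertB 0 536870912 0 536870912 649613803 48318383 3 eng mog cd0q0 cd1q0 pd1 true true true .up 0 0 1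
    ndB0q0 ndB1q0 pcB1 Cut.none Ext.none :=
  certB0 (fam := true) (s1 := true) (s2 := true) (a := 0) (b := 0) (c := 1) (cn := .up) (n1 := ndB0q0) (n2 := ndB1q0) (pc := pcB1) (cut := Cut.none) (xt := Ext.none) (P1 := 0) (W1 := 536870912) (P2 := 0) (W2 := 536870912) (P3 := 649613803) (W3 := 48318383) (N0 := 3) (En := eng) (mo := mog) (C1 := cd0q0) (C2 := cd1q0) (C3 := pd1)
    rfl k0_pp_001

noncomputable def f_pp_011 : ℕ → ℕ → ℕ → ℕ → Bool := onCell 0 536870912 536870912 536870912 649613803 48318383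
    (rowB 3 eng mog cd0q0 cd1q1 pd1 0 true true true .pnn 0 1 1 (qsf 0 536870912 536870912 536870912 1) ndB0q0 ndB1q1 pcB1 Cut.none Ext.none)

def k0_pp_011 : ∃ t, chk3 f_pp_011 t 1 1 1 = true :=
  ⟨(l 4), by decide +kernel⟩

theorem c_pp_011 : CertB 0 536870912 536870912 536870912 649613803 48318383 3 eng mog cd0q0 cd1q1 pd1 true true true .pnn 0 1 1
    ndB0q0 ndB1q1 pcB1 Cut.none Ext.none :=
  certB0 (fam := true) (s1 := true) (s2 := true) (a := 0) (b := 1) (c := 1) (cn := .pnn) (n1 := ndB0q0) (n2 := ndB1q1) (pc := pcB1) (cut := Cut.none) (xt := Ext.none) (P1 := 0) (W1 := 536870912) (P2 := 536870912) (W2 := 536870912) (P3 := 649613803) (W3 := 48318383) (N0 := 3) (En := eng) (mo := mog) (C1 := cd0q0) (C2 := cd1q1) (C3 := pd1)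
    rfl k0_pp_011

noncomputable def f_pp_012 : ℕ → ℕ → ℕ → ℕ → Bool := onCell 0 536870912 536870912 536870912 649613803 48318383
    (rowB 3 eng mog cd0q0 cd1q1 pd2 0 true true true .pnp 0 1 2 (qsf 0 536870912 536870912 536870912 2) ndB0q0 ndB1q1 pcB2 Cut.none Ext.none)

def k0_pp_012 : ∃ t, chk3 f_pp_012 t 1 1 1 = true :=
  ⟨(l 4), by decide +kernel⟩

theorem c_pp_012 : CertB 0 536870912 536870912 536870912 649613803 48318383 3 eng mog cd0q0 cd1q1 pd2 true true true .pnp 0 1 2
    ndB0q0 ndB1q1 pcB2 Cut.none Ext.none :=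
  certB0 (fam := true) (s1 := true) (s2 := true) (a := 0) (b := 1) (c := 2) (cn := .pnp) (n1 := ndB0q0) (n2 := ndB1q1) (pc := pcB2) (cut := Cut.none) (xt := Ext.none) (P1 := 0) (W1 := 536870912) (P2 := 536870912) (W2 := 536870912) (P3 := 649613803) (W3 := 48318383) (N0 := 3) (En := eng) (mo := mog) (C1 := cd0q0) (C2 := cd1q1) (C3 := pd2)
    rfl k0_pp_012

noncomputable def cut_pp_022_a : Cut := Cut.of [[⟨0, 0, 0, 67108864⟩, ⟨1, 1, 0, 67108864⟩, ⟨2, 1, 0, 67108864⟩]]

noncomputable def f_pp_022_a : ℕ → ℕ → ℕ → ℕ → Bool := onCell 0 536870912 0 536870912 649613803 48318383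
    (rowB 3 eng mog cd0q0 cd1q2a pd2 0 true true true .pp 0 2 2 (qsf 0 536870912 0 536870912 2) ndB0q0 ndB1q2a pcB2 cut_pp_022_a Ext.none)

def k0_pp_022_a : ∃ t, chk3 f_pp_022_a t 4 4 1 = true :=
  ⟨(a (a (b (a (c (b (l 16443040) (l 16446512)) (b (l 16443704) (l 16446968))) (a (b (l 16446504) (l 16449856)) (l 16454528))) (a (c (b (l 16452072) (l 16459664)) (b (l 16452256) (l 16459416))) (b (a (l 16475960) (l 16460920)) (a (l 16483200) (l 16467192))))) (a (b (l 16463160) (c (l 16474472) (l 16473712))) (b (l 16473240) (l 16505872)))) (a (b (l 16485240) (a (l 16495008) (l 16504168))) (b (l 16531824) (b (l 16511680) (l 16584696))))), by decide +kernel⟩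

def k1_pp_022_a : ∃ t, chk3 f_pp_022_a t 4 5 1 = true :=
  ⟨(a (b (a (b (a (a (l 16467392) (l 16469360)) (a (l 16471744) (b (l 16472928) (l 16477744)))) (a (b (a (l 16476080) (l 16478392)) (l 16484256)) (b (l 16503488) (l 16510880)))) (b (a (b (l 16482624) (l 16487112)) (b (l 16494832) (l 16499672))) (a (a (b (l 16489288) (l 16516864)) (l 16499232)) (b (l 16505624) (l 16512304))))) (a (a (b (a (b (l 16490696) (l 16499632)) (b (l 16493360) (l 16502488))) (a (b (l 16509672) (c (l 16520616) (l 16520912))) (b (l 16512728) (l 16544760)))) (b (b (a (l 16496368) (l 16499704)) (a (l 16505688) (l 16509200))) (b (a (l 16516112) (l 16519808)) (a (c (l 16528120) (l 16527072)) (c (l 16532328) (l 16530648)))))) (a (b (b (a (b (l 16501408) (l 16505576)) (b (l 16507584) (l 16511272))) (a (l 16513024) (a (b (l 16513880) (l 16518800)) (l 16519544)))) (b (a (c (l 16525512) (l 16522648)) (a (l 16527000) (b (l 16526744) (l 16532128)))) (a (c (l 16536816) (l 16534528)) (c (l 16541576) (l 16538696)))))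 (b (b (a (l 16516272) (l 16522872)) (a (l 16524784) (l 16531568))) (b (a (b (l 16531920) (a (l 16535184) (l 16538728))) (l 16541400)) (a (a (b (a (l 16539800) (l 16541336)) (l 16562248)) (b (l 16544008) (a (l 16548656) (l 16550416)))) (b (l 16549312) (l 16554880)))))))) (b (a (b (a (l 16508680) (l 16519168)) (a (b (l 16517592) (l 16524680)) (l 16532584))) (b (l 16533800) (a (l 16543408) (l 16553832)))) (a (b (a (b (l 16532376) (l 16541368)) (b (l 16544440) (l 16553840))) (a (b (a (l 16548168) (l 16554760)) (a (l 16559040) (l 16565816))) (b (l 16564352) (a (l 16572440) (l 16578936))))) (b (a (b (l 16555952) (l 16565784)) (l 16582728)) (b (a (l 16576712) (l 16588736)) (a (a (l 16585320) (l 16591608)) (l 16600920))))))), by decide +kernel⟩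

def k2_pp_022_a : ∃ t, chk3 f_pp_022_a t 5 4 1 = true :=
  ⟨(a (b (a (a (l 16514400) (c (l 16526256) (l 16522216))) (b (a (l 16531936) (a (l 16540640) (l 16547000))) (a (l 16539576) (b (a (l 16546304) (l 16552808)) (c (a (l 16551288) (l 16558144)) (l 16551712)))))) (a (b (a (l 16526296) (b (l 16534616) (l 16539416))) (l 16541856)) (b (a (b (a (l 16543096) (l 16548984)) (l 16550920)) (c (a (a (l 16556568) (l 16559624)) (l 16564920)) (l 16559232))) (a (l 16558984) (l 16571400))))) (b (a (c (b (a (l 16559616) (l 16573984)) (a (b (l 16565160) (a (a (l 16563672) (l 16567416)) (l 16573088))) (b (a (l 16576128) (a (l 16581736) (l 16585528))) (l 16584464)))) (b (l 16560136) (a (l 16583520) (l 16576408)))) (b (a (a (l 16581360) (l 16588528)) (b (l 16597208) (a (l 16598072) (l 16605568)))) (a (c (b (a (l 16591256) (l 16598888)) (l 16599824)) (l 16590816)) (l 16609384)))) (a (a (b (c (l 16576240) (l 16572616)) (l 16585320)) (b (l 16589456) (l 16600104))) (b (a (l 16604472) (l 16619800))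 (a (l 16615272) (l 16630736)))))), by decide +kernel⟩

def k3_pp_022_a : ∃ t, chk3 f_pp_022_a t 5 5 1 = true :=
  ⟨(a (b (b (a (l 16553704) (a (l 16570736) (l 16583040))) (a (l 16611048) (c (l 16591968) (l 16612864)))) (a (a (b (l 16604360) (a (l 16624848) (l 16630856))) (b (l 16615504) (c (l 16640616) (l 16639552)))) (b (a (l 16645896) (c (l 16618440) (l 16639224))) (a (c (l 16652808) (l 16662360)) (b (l 16657896) (l 16677064)))))) (b (a (b (a (l 16596648) (l 16611416)) (a (c (l 16611800) (l 16611296)) (c (l 16627000) (l 16625504)))) (a (b (l 16647568) (c (l 16642688) (l 16661304))) (b (l 16642072) (c (l 16679440) (l 16676576))))) (a (b (a (b (l 16661304) (a (l 16633656) (l 16661448))) (b (l 16682016) (c (l 16651152) (l 16672376)))) (a (b (l 16671032) (c (l 16685808) (l 16685272))) (a (b (l 16686896) (b (l 16692064) (l 16699552))) (b (l 16689168) (c (l 16703152) (l 16703344)))))) (b (b (a (c (l 16655672) (l 16675616)) (c (l 16692424) (l 16690920))) (a (c (l 16666824) (l 16666344))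 (a (l 16678344) (l 16686160)))) (b (a (a (l 16696840) (l 16704616)) (a (c (l 16691688) (l 16691192)) (c (l 16699640) (l 16699024)))) (a (a (a (l 16708952) (l 16712832)) (c (l 16718648) (l 16718656))) (a (c (l 16726664) (l 16726488)) (c (l 16724184) (l 16723912))))))))), by decide +kernel⟩

def k4_pp_022_a : ∃ t, chk3 f_pp_022_a t 8 12 1 = true :=
  ⟨(a (b (a (b (a (c (l 16532184) (l 16532944)) (c (l 16535952) (l 16536056))) (a (l 16545200) (c (l 16548672) (l 16549312)))) (b (a (b (l 16536384) (l 16542752)) (c (l 16544408) (l 16543296))) (a (c (l 16552920) (l 16552976)) (b (l 16553560) (l 16560488))))) (a (a (b (l 16558976) (l 16568400)) (b (l 16562784) (l 16576256))) (a (b (l 16566920) (l 16581768)) (b (b (l 16567648) (l 16575056)) (l 16586384))))) (a (a (b (b (c (l 16549056) (l 16547376)) (b (l 16558056) (l 16565072))) (b (b (l 16572328) (l 16579824)) (l 16591280))) (b (b (c (l 16563136) (l 16562224)) (b (l 16562816) (l 16569920))) (b (b (l 16577264) (l 16584848)) (l 16601680))))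 (a (b (b (b (a (l 16552920) (b (l 16574936) (l 16557136))) (a (l 16559624) (l 16562160))) (b (l 16567840) (l 16575024))) (b (b (l 16582456) (l 16590128)) (b (l 16597960) (l 16605696)))) (b (b (b (l 16560728) (a (a (l 16564264) (l 16565952)) (l 16568672))) (b (a (a (l 16571104) (l 16572528)) (l 16575080)) (a (l 16579016) (c (l 16583296) (l 16580960))))) (b (b (c (l 16589016) (l 16587112)) (l 16595632)) (b (l 16603552) (l 16611368))))))), by decide +kernel⟩

def k5_pp_022_a : ∃ t, chk3 f_pp_022_a t 8 13 1 = true :=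
  ⟨(a (a (b (a (c (l 16580280) (b (l 16577232) (l 16587792))) (b (l 16586896) (l 16587528))) (b (a (b (l 16597784) (l 16604160)) (b (l 16606640) (l 16613152))) (a (c (l 16616264) (l 16612776)) (l 16639456)))) (b (b (a (l 16594744) (l 16601752)) (a (l 16606232) (l 16614152))) (b (a (b (l 16615144) (l 16621792)) (l 16626752)) (a (c (l 16633816) (l 16631152)) (b (l 16637336) (l 16644728)))))) (b (a (b (c (l 16609256) (l 16609872)) (c (l 16625512) (l 16624872))) (a (b (l 16617704) (l 16634504)) (b (l 16623488) (l 16640448)))) (a (a (b (l 16634784) (l 16654536)) (b (l 16642608) (l 16657352))) (a (b (l 16650280) (l 16665248)) (b (l 16657824) (l 16683512)))))), by decide +kernel⟩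

def k6_pp_022_a : ∃ t, chk3 f_pp_022_a t 9 6 1 = true :=
  ⟨(b (a (b (a (b (a (l 16591880) (l 16577864)) (a (c (l 16585192) (l 16582896)) (l 16590976))) (b (a (l 16584672) (l 16591352)) (a (l 16597960) (l 16604816)))) (a (a (a (b (b (l 16602920) (l 16599968)) (l 16622312)) (b (b (l 16596032) (l 16603320)) (b (l 16621456) (l 16618760)))) (b (l 16605112) (a (b (l 16614480) (l 16622000)) (l 16621872)))) (a (b (l 16612264) (l 16627344)) (b (l 16619296) (l 16645024))))) (b (a (b (a (l 16597936) (l 16604424)) (a (l 16611584) (l 16618264))) (b (a (l 16610856) (l 16617232)) (l 16628176))) (a (b (a (l 16626232) (l 16643584)) (b (l 16641296) (l 16649024))) (b (l 16643288) (a (l 16655648) (l 16662592)))))) (a (b (b (a (a (b (l 16625328) (l 16633640)) (a (b (l 16629952) (l 16638304)) (b (l 16633336) (l 16651992)))) (c (a (l 16664440) (l 16650736)) (b (l 16642136) (l 16658768)))) (a (a (l 16646592) (l 16652936)) (a (a (a (l 16657000) (l 16669184)) (a (l 16670936) (l 16662256))) (l 16666904))))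 (b (b (a (l 16673696) (a (l 16673096) (l 16690648))) (a (l 16682304) (a (l 16681816) (l 16708584)))) (a (a (l 16691200) (l 16698456)) (a (l 16705264) (b (l 16718296) (l 16706152)))))) (b (a (b (b (l 16656960) (l 16665152)) (a (l 16674296) (l 16681624))) (a (b (l 16671776) (l 16688912)) (b (l 16678888) (l 16696168)))) (a (a (b (l 16691888) (a (b (l 16702736) (l 16711512)) (b (l 16706504) (l 16736184)))) (b (l 16699336) (l 16727008))) (b (b (l 16716576) (l 16725280)) (a (c (l 16724120) (l 16734520)) (c (l 16742104) (l 16742016)))))))), by decide +kernel⟩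

def k7_pp_022_a : ∃ t, chk3 f_pp_022_a t 16 14 1 = true :=
  ⟨(b (b (a (a (a (l 16626624) (l 16631424)) (b (l 16634656) (l 16642192))) (a (b (l 16643640) (l 16651296)) (c (l 16657320) (l 16655024)))) (b (a (a (l 16640352) (l 16649920)) (a (l 16659144) (l 16668064))) (a (a (a (l 16645896) (l 16650824)) (l 16679016)) (a (l 16667376) (l 16697368))))) (b (a (a (a (l 6) (b (l 16659544) (l 6))) (a (b (l 16664408) (l 16673424)) (b (l 16669192) (l 16678232)))) (a (b (a (l 16673888) (l 16678504)) (a (l 16682968) (l 16687616))) (b (l 16695792) (a (l 16692200) (l 16696712))))) (a (a (l 6) (b (a (l 6) (l 16687536)) (l 6))) (a (b (a (l 16692296) (l 16696984)) (a (l 6) (l 16717088))) (b (c (l 16715208) (l 16713504)) (a (l 16721736) (l 16726320))))))), by decide +kernel⟩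

def k8_pp_022_a : ∃ t, chk3 f_pp_022_a t 17 14 1 = true :=
  ⟨(b (a (b (a (b (l 16660728) (l 16668624)) (b (a (l 16666912) (l 16670976)) (l 16697920))) (a (b (l 16676720) (l 16706128)) (b (l 16695640) (l 16704184)))) (c (b (a (l 16681728) (l 16689592)) (a (b (l 16694112) (l 16702736)) (l 16717000))) (b (b (l 16680320) (l 16688480)) (a (b (l 16692688) (l 16701352)) (b (l 16700976) (l 16730704)))))) (a (b (a (b (a (l 16691952) (l 16696312)) (a (l 16701168) (l 16705560))) (b (a (l 16700608) (l 16704864)) (b (l 16720176) (l 16724896)))) (b (a (a (l 16710632) (l 16725552)) (a (l 16729928) (l 16734256))) (a (a (l 16728224) (c (l 16725392) (l 16724232))) (a (c (l 16729736) (l 16728712)) (c (l 16734032) (l 16743632)))))) (b (a (b (b (l 16729840) (l 16723976)) (a (l 16728920) (l 16733136))) (a (b (l 16738392) (a (l 16736272) (l 16738352))) (c (l 16737160) (b (l 16721064) (l 16741072))))) (a (a (b (c (l 16728504) (l 16727568)) (b (l 16735416) (l 16750904))) (b (c (l 16743176) (l 16742352))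 (b (l 16750168) (c (l 16744992) (l 16744400))))) (a (c (b (b (l 16734408) (l 16739264)) (b (l 16744192) (l 16759672))) (b (l 16741376) (b (l 16743624) (l 16753952)))) (b (b (c (l 16738528) (l 16737896)) (c (l 16743400) (l 16742856))) (c (l 16756088) (b (l 16758368) (c (l 16758320) (l 16758128)))))))))), by decide +kernel⟩

def k9_pp_022_a : ∃ t, chk3 f_pp_022_a t 16 15 1 = true :=
  ⟨(b (a (l 6) (a (l 6) (b (b (a (c (l 16721880) (l 16720456)) (a (l 16735128) (l 16737416))) (a (l 6) (b (l 16733424) (c (l 16739184) (l 16738160))))) (l 6)))) (l 6)), by decide +kernel⟩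

def k10_pp_022_a : ∃ t, chk3 f_pp_022_a t 34 30 1 = true :=
  ⟨(b (b (b (a (a (l 16727816) (l 16732304)) (a (l 16736744) (l 16746376))) (a (a (l 16732872) (l 16747872)) (a (l 16747080) (c (l 16746576) (l 16745912))))) (a (a (b (l 16743248) (c (l 16743704) (l 16742824))) (b (l 16747768) (c (l 16748168) (l 16747440)))) (c (b (a (l 16747344) (l 16751712)) (a (l 16757832) (b (l 16755616) (l 16763552)))) (b (a (l 16746640) (l 16756384)) (a (l 16757240) (b (l 16755120) (l 16763136))))))) (a (a (b (b (a (l 16747624) (l 16755152)) (l 6)) (l 6)) (a (b (b (l 16757424) (c (l 16763224) (l 16762792))) (l 6)) (b (b (l 16759688) (b (l 16758624) (l 16766680))) (b (c (l 16768424) (l 16767896)) (l 6))))) (b (a (a (b (a (l 16756128) (l 16762496)) (b (l 16766120) (a (l 16763128) (l 16769496)))) (a (b (l 16763608) (b (l 16762552) (c (l 16765472) (l 16765272)))) (b (l 16764728) (l 16767704)))) (b (a (b (l 16759760) (c (l 16762680) (l 16762392))) (l 16766232)) (b (c (l 16769152) (l 16768984)) (a (l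 16770776) (a (l 16772432) (a (l 16773232) (l 16773080))))))) (a (b (b (a (l 16769152) (c (l 16768816) (l 16768720))) (a (c (l 16772048) (l 16771960)) (a (c (l 16772352) (l 16772312)) (b (l 16772728) (l 23857193431))))) (b (a (a (l 6) (b (l 16773320) (l 4))) (l 4)) (l 4))) (b (b (b (a (a (l 16769728) (l 16770816)) (a (l 16773112) (l 4))) (a (c (l 16773248) (l 16773208)) (l 4))) (a (a (b (l 16773360) (l 4)) (l 4)) (l 4))) (l 4)))))), by decide +kernel⟩

def k11_pp_022_a : ∃ t, chk3 f_pp_022_a t 35 30 1 = true :=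
  ⟨(b (b (a (b (a (c (l 16745784) (l 16745160)) (c (l 16760520) (l 16754776))) (a (b (l 16759808) (l 16757144)) (a (l 16759104) (a (l 16755472) (l 16761792))))) (a (c (a (b (l 16753192) (l 16763552)) (l 16763096)) (b (c (l 16759200) (l 16759000)) (a (l 16763232) (l 16765400)))) (b (b (c (l 16762384) (l 16762096)) (l 16762200)) (c (l 16766184) (l 16766008))))) (a (b (c (a (l 16758648) (b (l 16764248) (l 16766856))) (a (l 16758208) (b (l 16763912) (a (l 16760216) (l 16762408))))) (a (a (b (l 16758672) (l 16766656)) (b (l 16766104) (a (l 16763056) (l 16764144)))) (b (b (a (l 16762360) (l 16769768)) (l 16767424)) (c (l 16770872) (l 16770056))))) (b (b (a (l 16765760) (a (l 16766344) (a (l 16767928) (l 16770904)))) (a (b (l 16767736) (b (l 16768728) (l 16769384))) (a (c (c (l 16772928) (l 16772880)) (l 34057735399)) (a (l 84523601367) (l 4))))) (a (b (a (l 16772608) (b (l 30836509159) (b (l 51774475255) (l 67880603031)))) (a (a (c (l 16770880) (l 16770776)) (b (l 112440881911) (l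 4))) (l 4))) (b (a (c (l 78618022519) (l 83449860455)) (l 4)) (l 4)))))) (b (a (b (a (a (b (l 16769416) (l 16769576)) (a (l 16770488) (c (l 16770968) (l 16770848)))) (a (b (l 16771488) (a (c (l 16772344) (l 16772272)) (l 53921962999))) (b (b (c (l 16771304) (l 16771224)) (a (l 16773368) (l 4))) (l 4)))) (a (b (a (c (l 16772376) (l 16772304)) (a (c (l 26541546791) (l 30299643047)) (l 53385092791))) (a (a (b (l 16773848) (l 4)) (l 4)) (l 4))) (l 4))) (l 4)) (l 4))), by decide +kernel⟩

def k12_pp_022_a : ∃ t, chk3 f_pp_022_a t 17 31 1 = true :=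
  ⟨(a (a (l 6) (l 4)) (l 4)), by decide +kernel⟩

def k13_pp_022_a : ∃ t, chk3 f_pp_022_a t 18 28 1 = true :=
  ⟨(a (b (a (c (l 16697376) (l 16696488)) (c (l 16705072) (l 16704416))) (a (b (l 16709664) (l 16728968)) (b (l 16717640) (l 16731792)))) (b (a (a (l 16721056) (l 16724888)) (c (l 16730240) (l 16725144))) (a (b (l 16725504) (c (l 16734736) (l 16734240))) (b (l 16738528) (c (l 16753016) (l 16752672)))))), by decide +kernel⟩

def k14_pp_022_a : ∃ t, chk3 f_pp_022_a t 18 29 1 = true :=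
  ⟨(a (b (a (a (c (l 16741224) (b (l 16725232) (l 16745264))) (b (c (l 16751048) (l 16739856)) (l 16744472))) (a (b (l 16733800) (l 16748560)) (b (l 16737824) (a (l 16751600) (l 16753624))))) (b (a (a (a (b (l 16741336) (l 16756752)) (l 16751120)) (c (l 16754400) (l 16754032))) (b (a (l 16750616) (l 16759928)) (a (l 16759496) (c (l 16764960) (l 16759584))))) (a (a (c (a (l 16759192) (l 16761256)) (c (l 16760000) (l 16759848))) (b (l 16760064) (a (l 16763120) (l 16765192)))) (a (b (c (l 16765896) (l 16763144)) (a (a (l 16766752) (l 16767784)) (b (l 16765424) (a (l 16767448) (l 16769728))))) (a (b (c (l 16763696) (l 16763632)) (c (b (l 16770056) (l 29762768423)) (b (l 16767424) (l 28689026759)))) (b (b (l 16764440) (a (l 16766456) (l 16770056))) (b (c (l 16770640) (l 16770608)) (l 4)))))))) (b (a (b (c (l 16754480) (l 16748880)) (c (a (l 16756760) (l 16760728)) (a (l 16756512) (l 16760560)))) (a (b (l 16757632) (b (l 16762184) (a (l 16760816) (l 16768048)))) (b (c (l 16764272)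 (l 16758856)) (b (l 16765488) (a (c (l 16767392) (l 16767384)) (b (l 16768128) (a (l 16767384) (l 4)))))))) (b (b (a (a (b (l 16757496) (l 16765208)) (c (l 16766704) (l 16765352))) (b (a (c (c (l 16768104) (l 16768096)) (l 16767432)) (a (c (l 16768312) (l 16768288)) (l 4))) (a (a (a (l 16766440) (l 16767400)) (l 4)) (l 4)))) (a (a (a (l 16765320) (b (l 16763464) (l 16768584))) (a (b (l 16768096) (a (l 16770040) (l 16769656))) (b (a (l 16766928) (l 16770496)) (l 4)))) (l 4))) (a (b (a (a (c (b (l 16766456) (l 16770152)) (b (l 16766448) (l 16768824))) (b (a (l 16769208) (l 16770128)) (l 4))) (l 4)) (l 4)) (l 4))))), by decide +kernel⟩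

def k15_pp_022_a : ∃ t, chk3 f_pp_022_a t 19 14 1 = true :=
  ⟨(b (a (a (b (b (a (l 16720576) (l 16734712)) (l 16742160)) (b (c (l 16741088) (l 16740864)) (c (l 16760752) (l 16757912)))) (a (b (b (l 16738456) (a (l 16736296) (l 16748656))) (b (l 16746728) (a (l 16760240) (l 16762168)))) (b (b (l 16731776) (c (l 16751552) (l 16751480))) (b (a (l 16760072) (b (l 16749064) (l 16753792))) (a (l 16766720) (b (l 16758440) (l 16768344))))))) (b (a (b (l 16747952) (l 16754600)) (b (l 16755528) (c (l 16764904) (l 16760848)))) (a (b (b (l 16759088) (a (a (l 16766184) (l 16757600)) (l 16765696))) (a (a (b (l 16765600) (c (l 37278954503) (l 35668342567))) (b (b (l 16766352) (a (l 16762960) (l 16769152))) (a (l 64122501463) (l 4)))) (b (a (l 45332017079) (l 65196242231)) (l 4)))) (b (b (a (l 16759576) (a (l 16767664) (l 42647665415))) (a (b (l 16769624) (l 74859917703)) (l 4))) (l 4))))) (a (b (a (b (b (c (l 16762488) (l 16762368)) (a (l 16765248) (c (l 16768488) (l 16768112)))) (b (b (a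 (c (l 16763624) (l 16763600)) (a (l 16769088) (l 4))) (a (c (l 16768608) (l 16768584)) (l 4))) (a (b (a (l 16769336) (l 4)) (l 4)) (l 4)))) (b (a (a (b (l 16762048) (b (l 16765568) (l 4))) (b (l 16769200) (l 4))) (b (b (a (l 16764696) (l 27615286359)) (l 4)) (l 4))) (l 4))) (l 4)) (l 4))), by decide +kernel⟩

def k16_pp_022_a : ∃ t, chk3 f_pp_022_a t 9 15 1 = true :=
  ⟨(a (b (b (a (b (a (b (a (c (l 16765192) (l 16765040)) (a (b (l 16764344) (l 16769544)) (b (l 16769048) (a (l 16771056) (l 16770696))))) (b (a (c (l 16769040) (l 16768952)) (a (c (l 14193512423) (l 13119770807)) (l 4))) (a (a (l 16770136) (a (l 16877866487) (l 61975022807))) (l 4)))) (b (a (a (b (a (l 16770568) (l 16770208)) (l 4)) (l 4)) (l 4)) (l 4))) (a (b (a (b (a (b (l 41037057607) (l 4)) (l 4)) (l 4)) (l 4)) (l 4)) (l 4))) (l 4)) (l 4)) (l 4)) (l 4)), by decide +kernel⟩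

def k17_pp_022_a : ∃ t, chk3 f_pp_022_a t 10 12 1 = true :=
  ⟨(b (a (a (b (l 16647712) (l 16651768)) (b (l 16660416) (c (l 16654936) (l 16654136)))) (a (b (a (l 16649112) (l 16655656)) (c (l 16668192) (l 16688504))) (b (c (l 16687120) (l 16686416)) (a (l 16688488) (l 16695480))))) (a (a (b (c (l 16657272) (l 16656512)) (c (l 16673336) (l 16683288))) (b (c (l 16670712) (l 16680592)) (b (l 16693248) (l 16701504)))) (a (a (b (l 16680600) (c (l 16697712) (l 16697360))) (b (l 16690832) (c (l 16704840) (l 16715008)))) (b (c (a (l 16694896) (l 16702064)) (b (l 16693744) (l 16712848))) (a (c (l 16722560) (l 16722272)) (b (l 16714920) (l 16723608))))))), by decide +kernel⟩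

def k18_pp_022_a : ∃ t, chk3 f_pp_022_a t 10 13 1 = true :=
  ⟨(a (b (a (a (b (l 16685984) (l 16703424)) (b (l 16703576) (c (l 16710816) (l 16710632)))) (a (b (l 16710704) (b (l 16713416) (l 16722544))) (b (c (l 16707608) (l 16707304)) (c (l 16735920) (l 16730520))))) (a (b (b (c (l 16720840) (l 16731144)) (c (l 16740152) (l 16739952))) (a (b (l 16734608) (l 16753984)) (b (l 16752592) (c (l 16761616) (l 16756224))))) (b (b (a (l 16731800) (l 16749752)) (a (l 16751216) (l 16758768))) (a (b (c (l 16760184) (l 16760064)) (a (c (l 16762080) (l 16761904)) (b (l 16763520) (c (l 16766880) (l 16768064))))) (b (a (l 16763200) (a (l 16766064) (b (l 16757856) (l 16767608)))) (b (a (c (l 16767440) (l 16767304)) (l 4)) (l 4))))))) (b (a (b (c (b (l 16724568) (l 16733392)) (a (l 16725048) (l 16728456))) (b (a (l 16728112) (l 16746072)) (a (l 16737392) (l 16751504)))) (b (a (b (l 16735440) (l 16744432)) (b (l 16742968) (c (l 16741696) (l 16741448)))) (b (a (c (l 16743280) (l 16743072)) (b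 (l 16753760) (c (l 16758568) (l 16758360)))) (b (a (l 16750224) (a (l 16761280) (b (l 16763976) (l 4)))) (a (c (l 16760344) (l 16762800)) (a (c (l 46405751927) (l 47479503431)) (l 4))))))) (a (b (b (a (l 16754704) (a (l 16763072) (b (l 16754040) (a (l 16763128) (l 61975009143))))) (a (a (l 16764496) (c (l 5066700967) (l 15267243367))) (b (a (c (l 16764848) (l 16764608)) (l 93650391943)) (l 4)))) (a (b (a (b (l 15804115143) (l 4)) (l 4)) (l 4)) (l 4))) (b (b (a (b (a (c (l 16765896) (l 16763048)) (b (l 74859908471) (l 4))) (a (l 96334745287) (l 4))) (l 4)) (l 4)) (l 4))))), by decide +kernel⟩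

def k19_pp_022_a : ∃ t, chk3 f_pp_022_a t 22 12 1 = true :=
  ⟨(b (a (b (a (l 16697016) (l 16698864)) (a (b (l 16688000) (l 16696272)) (c (l 16710232) (l 16699232)))) (b (a (a (l 16709504) (l 16713152)) (b (a (l 16712760) (l 16695392)) (a (l 16720864) (l 16714072)))) (a (c (l 16717616) (l 16717128)) (b (a (l 16708200) (c (l 16712256) (l 16711832))) (l 16729128))))) (a (a (b (c (l 16709384) (l 16719488)) (b (l 16732888) (l 16741672))) (b (b (l 16712200) (l 16721032)) (b (l 16735264) (l 16744144)))) (b (a (b (l 16730240) (l 16733920)) (b (l 16732680) (c (l 16736608) (l 16736336)))) (a (b (c (l 16737896) (l 16737664)) (c (l 16757344) (l 16757104))) (b (c (l 16756232) (l 16750776)) (b (c (l 16760352) (l 16760144)) (a (l 16760168) (a (l 51237589751) (l 4))))))))), by decide +kernel⟩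

def k20_pp_022_a : ∃ t, chk3 f_pp_022_a t 23 12 1 = true :=
  ⟨(b (b (a (a (b (l 16711696) (c (l 16709360) (l 16709336))) (b (c (l 16708952) (l 16709096)) (c (l 16727472) (l 16717144)))) (a (b (c (l 16727480) (l 16716984)) (c (l 16735544) (l 16735552))) (b (c (l 16735536) (l 16724944)) (a (l 16741608) (l 16745632))))) (a (a (b (a (l 16726224) (l 16730008)) (a (b (l 16732704) (l 16737088)) (l 16738744))) (a (b (l 16733928) (l 16737392)) (b (l 16737912) (a (l 16735088) (l 16747552))))) (a (a (b (l 16736672) (a (l 16749536) (l 16746312))) (b (l 16740864) (c (l 16754616) (l 16744080)))) (a (b (c (l 16739512) (l 16739464)) (c (l 16753432) (l 16753368))) (b (a (l 16753016) (l 16755040)) (b (l 16755264) (c (l 26541520471) (l 16762392)))))))) (a (b (a (b (a (b (l 16741520) (l 16735520)) (c (c (l 16747928) (l 16747760)) (l 16742328))) (a (l 16742376) (b (c (l 16754648) (l 16743936)) (a (l 16747672) (l 16749672))))) (b (b (c (l 16746216) (l 16740760)) (c (l 16750776) (l 16750576))) (a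 (b (l 16748040) (a (l 16756928) (l 16758912))) (b (c (l 16762608) (l 16751976)) (a (l 53921942807) (l 4)))))) (a (b (b (c (l 16759592) (l 16759104)) (a (l 16759112) (l 96334735623))) (a (b (l 49626982215) (l 4)) (l 4))) (b (a (b (a (c (l 61975009431) (l 51774460391)) (l 4)) (l 4)) (l 4)) (l 4)))) (b (a (a (b (c (l 16753176) (l 16754344)) (b (a (l 20099073815) (l 80228612327)) (l 4))) (b (a (b (l 16749920) (l 16759696)) (b (l 16751952) (l 71101809303))) (l 4))) (b (a (b (c (l 25467779799) (l 20099075287)) (l 4)) (l 4)) (l 4))) (l 4)))), by decide +kernel⟩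

def k21_pp_022_a : ∃ t, chk3 f_pp_022_a t 11 13 1 = true :=
  ⟨(a (b (a (b (a (a (b (l 16738216) (l 16747368)) (b (l 16742088) (l 16755208))) (b (c (l 16758568) (l 16753056)) (a (b (l 16752888) (a (l 16756544) (l 26541526791))) (b (c (l 16762152) (l 16761928)) (l 4))))) (b (a (a (b (l 16754360) (c (l 15804115095) (l 15804114455))) (b (c (l 16763592) (l 16763736)) (l 4))) (l 4)) (l 4))) (b (b (a (a (c (l 16761824) (b (l 16751440) (l 16761264))) (b (c (l 16760856) (l 16760640)) (l 4))) (a (b (l 95797867719) (l 4)) (l 4))) (l 4)) (l 4))) (l 4)) (l 4)), by decide +kernel⟩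

def k22_pp_022_a : ∃ t, chk3 f_pp_022_a t 5 7 1 = true :=
  ⟨(a (b (a (b (a (b (b (b (a (l 16760800) (a (l 16756000) (l 16765064))) (a (l 16760176) (a (l 16765896) (b (l 16768592) (l 4))))) (a (a (a (l 16765680) (b (l 16758656) (l 17414730503))) (b (l 16767440) (b (l 52311340599) (l 4)))) (b (a (b (l 24930923863) (l 4)) (l 4)) (l 4)))) (b (a (b (a (l 92039786647) (l 4)) (l 4)) (l 4)) (l 4))) (b (b (a (b (a (b (l 16767752) (l 4)) (l 4)) (l 4)) (l 4)) (l 4)) (l 4))) (l 4)) (l 4)) (l 4)) (l 4)), by decide +kernel⟩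

def k23_pp_022_a : ∃ t, chk3 f_pp_022_a t 12 4 1 = true :=
  ⟨(a (a (b (b (b (l 16632864) (l 16616856)) (l 16624656)) (l 16685560)) (b (b (b (l 16626560) (l 16631656)) (l 16639744)) (l 16677344))) (a (b (b (l 16643432) (l 16654352)) (l 16692240)) (b (l 16662840) (l 16727536)))), by decide +kernel⟩

def k24_pp_022_a : ∃ t, chk3 f_pp_022_a t 12 5 1 = true :=
  ⟨(b (a (b (a (l 16678656) (l 16694088)) (a (c (l 16695168) (l 16713080)) (c (l 16731584) (l 16723264)))) (b (a (b (l 16685152) (l 16690960)) (b (l 16699592) (l 16726368))) (b (a (l 16719712) (l 16744656)) (a (c (l 16729712) (l 16727184)) (a (l 16718392) (l 16746448)))))) (a (b (b (a (a (l 16703432) (l 16711192)) (a (l 16718880) (l 16726480))) (a (a (l 16693992) (l 16722752)) (a (l 16730464) (c (l 16717632) (l 16716624))))) (b (a (a (c (l 16707560) (l 16706904)) (c (l 16715408) (l 16735728))) (c (a (l 16744144) (l 16751816)) (a (l 16743520) (l 16740760)))) (a (a (c (l 16732152) (l 16731848)) (c (l 16742672) (l 16742384)))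 (b (a (c (l 16733712) (l 16733376)) (c (l 16751904) (l 16751632))) (a (c (l 16751560) (l 16751408)) (a (l 16757312) (l 16759256))))))) (b (a (a (b (l 16733984) (c (l 16725128) (l 16724200))) (b (l 16738744) (c (l 16753472) (l 16752648)))) (b (a (c (l 16728360) (l 16726976)) (b (l 16753296) (l 16737136))) (a (c (l 16750200) (l 16749512)) (c (l 16759848) (b (l 16742888) (l 16760088)))))) (a (b (a (c (l 16748880) (l 16749712)) (b (l 16750000) (a (l 16747296) (l 16761520)))) (a (b (c (l 16759520) (l 16756720)) (a (b (l 16763168) (l 28689014727)) (b (l 29762756151) (l 4)))) (b (a (c (l 24394046455) (l 22246552343)) (b (l 31373368791) (l 4))) (l 4)))) (b (a (b (c (l 16760120) (l 16759800)) (a (c (l 23320304887) (l 22783433559)) (b (l 32983981639) (l 4)))) (b (a (c (l 16764368) (l 16765424)) (b (l 16764816) (l 4))) (l 4))) (l 4)))))), by decide +kernel⟩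

def k25_pp_022_a : ∃ t, chk3 f_pp_022_a t 13 2 1 = true :=
  ⟨(b (a (a (b (l 16676016) (l 16762104)) (b (b (l 16682328) (l 16694128)) (b (l 16705880) (l 16717640)))) (a (b (b (l 16693480) (l 16705528)) (b (l 16717488) (l 16750376))) (l 2))) (b (a (b (a (b (l 16713328) (l 16740104)) (b (l 16726184) (c (l 16754568) (l 16730480)))) (a (a (b (l 16723608) (l 16732376)) (b (l 16730288) (l 16760040))) (b (c (l 16762064) (l 16762280)) (a (b (l 16743272) (l 16747760)) (c (l 16762864) (l 16761536)))))) (a (b (b (l 16738024) (c (l 16766104) (l 16763528))) (b (a (l 16754408) (c (l 16776272) (l 16764072))) (a (b (l 16765824) (a (l 16763656) (a (l 16763368) (l 36205219239)))) (b (a (l 16770072) (c (l 16772280) (l 36205219335))) (c (l 60901273943) (l 59827530535)))))) (a (b (b (l 2) (l 37681615207)) (b (b (l 16770648) (a (l 16771008) (l 2))) (b (a (c (l 45332032679) (l 42647676407)) (l 4)) (l 4)))) (l 2)))) (b (a (a (b (a (c (l 16763120) (l 16751600)) (c (l 16760472) (l 16759672))) (a (b (l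 16759912) (a (c (l 16765816) (l 16765536)) (b (l 16767472) (l 4)))) (b (a (l 16765736) (b (l 16767424) (l 4))) (l 4)))) (b (a (b (l 16760808) (a (l 16763080) (c (l 23320312359) (l 19562215351)))) (b (a (l 19025341543) (c (l 32447119415) (l 28689022231))) (a (b (l 34057730103) (l 4)) (l 4)))) (l 4))) (a (a (b (b (c (l 58216917319) (l 57143174279)) (l 4)) (l 4)) (l 4)) (l 4))) (l 4)))), by decide +kernel⟩

def k26_pp_022_a : ∃ t, chk3 f_pp_022_a t 7 2 1 = true :=
  ⟨(b (l 2) (b (l 2) (l 4))), by decide +kernel⟩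

def k27_pp_022_a : ∃ t, chk3 f_pp_022_a t 3 3 1 = true :=
  ⟨(a (b (a (b (a (b (a (a (a (b (b (l 16741504) (l 16744400)) (b (c (l 16758096) (l 16747544)) (b (c (l 26541524951) (l 16759408)) (l 4)))) (b (b (l 16745496) (l 16748408)) (b (a (l 16758496) (b (l 16750464) (l 54458811063))) (l 4)))) (a (b (b (l 16749464) (l 16755016)) (b (b (c (l 27615264823) (l 16758800)) (l 4)) (l 4))) (b (b (l 16748176) (c (c (l 16761744) (l 16761712)) (l 16761664))) (l 4)))) (b (a (a (b (l 16752112) (b (l 22783422263) (l 94724122439))) (a (b (l 16755064) (l 94724124391)) (b (l 16758400) (l 4)))) (b (a (b (l 16757992) (a (l 16761320) (l 4))) (b (l 31373369847) (l 4))) (l 4))) (l 4))) (l 4)) (l 4)) (l 4)) (l 4)) (l 4)) (l 4)), by decide +kernel⟩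

theorem s28_pp_022_a : ∃ t, chk3 f_pp_022_a t 12 2 1 = true := ex3_b k23_pp_022_a k24_pp_022_a

theorem s29_pp_022_a : ∃ t, chk3 f_pp_022_a t 6 2 1 = true := ex3_a s28_pp_022_a k25_pp_022_a

theorem s30_pp_022_a : ∃ t, chk3 f_pp_022_a t 3 2 1 = true := ex3_a s29_pp_022_a k26_pp_022_a

theorem s31_pp_022_a : ∃ t, chk3 f_pp_022_a t 3 1 1 = true := ex3_b s30_pp_022_a k27_pp_022_a

theorem s32_pp_022_a : ∃ t, chk3 f_pp_022_a t 11 12 1 = true := ex3_a k19_pp_022_a k20_pp_022_a

theorem s33_pp_022_a : ∃ t, chk3 f_pp_022_a t 11 6 1 = true := ex3_b s32_pp_022_a k21_pp_022_a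

theorem s34_pp_022_a : ∃ t, chk3 f_pp_022_a t 10 6 1 = true := ex3_b k17_pp_022_a k18_pp_022_a

theorem s35_pp_022_a : ∃ t, chk3 f_pp_022_a t 5 6 1 = true := ex3_a s34_pp_022_a s33_pp_022_a

theorem s36_pp_022_a : ∃ t, chk3 f_pp_022_a t 5 3 1 = true := ex3_b s35_pp_022_a k22_pp_022_a

theorem s37_pp_022_a : ∃ t, chk3 f_pp_022_a t 18 14 1 = true := ex3_b k13_pp_022_a k14_pp_022_a

theorem s38_pp_022_a : ∃ t, chk3 f_pp_022_a t 9 14 1 = true := ex3_a s37_pp_022_a k15_pp_022_a

theorem s39_pp_022_a : ∃ t, chk3 f_pp_022_a t 9 7 1 = true := ex3_b s38_pp_022_a k16_pp_022_a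

theorem s40_pp_022_a : ∃ t, chk3 f_pp_022_a t 17 30 1 = true := ex3_a k10_pp_022_a k11_pp_022_a

theorem s41_pp_022_a : ∃ t, chk3 f_pp_022_a t 17 15 1 = true := ex3_b s40_pp_022_a k12_pp_022_a

theorem s42_pp_022_a : ∃ t, chk3 f_pp_022_a t 8 15 1 = true := ex3_a k9_pp_022_a s41_pp_022_a

theorem s43_pp_022_a : ∃ t, chk3 f_pp_022_a t 8 14 1 = true := ex3_a k7_pp_022_a k8_pp_022_a

theorem s44_pp_022_a : ∃ t, chk3 f_pp_022_a t 8 7 1 = true := ex3_b s43_pp_022_a s42_pp_022_a

theorem s45_pp_022_a : ∃ t, chk3 f_pp_022_a t 4 7 1 = true := ex3_a s44_pp_022_a s39_pp_022_a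

theorem s46_pp_022_a : ∃ t, chk3 f_pp_022_a t 8 6 1 = true := ex3_b k4_pp_022_a k5_pp_022_a

theorem s47_pp_022_a : ∃ t, chk3 f_pp_022_a t 4 6 1 = true := ex3_a s46_pp_022_a k6_pp_022_a

theorem s48_pp_022_a : ∃ t, chk3 f_pp_022_a t 4 3 1 = true := ex3_b s47_pp_022_a s45_pp_022_a

theorem s49_pp_022_a : ∃ t, chk3 f_pp_022_a t 2 3 1 = true := ex3_a s48_pp_022_a s36_pp_022_a

theorem s50_pp_022_a : ∃ t, chk3 f_pp_022_a t 5 2 1 = true := ex3_b k2_pp_022_a k3_pp_022_a

theorem s51_pp_022_a : ∃ t, chk3 f_pp_022_a t 4 2 1 = true := ex3_b k0_pp_022_a k1_pp_022_a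

theorem s52_pp_022_a : ∃ t, chk3 f_pp_022_a t 2 2 1 = true := ex3_a s51_pp_022_a s50_pp_022_a

theorem s53_pp_022_a : ∃ t, chk3 f_pp_022_a t 2 1 1 = true := ex3_b s52_pp_022_a s49_pp_022_a

theorem s54_pp_022_a : ∃ t, chk3 f_pp_022_a t 1 1 1 = true := ex3_a s53_pp_022_a s31_pp_022_a

theorem c_pp_022_a : CertB 0 536870912 0 536870912 649613803 48318383 3 eng mog cd0q0 cd1q2a pd2 true true true .pp 0 2 2
    ndB0q0 ndB1q2a pcB2 cut_pp_022_a Ext.none :=
  certB0 (fam := true) (s1 := true) (s2 := true) (a := 0) (b := 2) (c := 2) (cn := .pp) (n1 := ndB0q0) (n2 := ndB1q2a) (pc := pcB2) (cut := cut_pp_022_a) (xt := Ext.none) (P1 := 0) (W1 := 536870912) (P2 := 0) (W2 := 536870912) (P3 := 649613803) (W3 := 48318383) (N0 := 3) (En := eng) (mo := mog) (C1 := cd0q0) (C2 := cd1q2a) (C3 := pd2)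
    rfl s54_pp_022_a

noncomputable def cut_pp_022_b : Cut := Cut.of [[⟨0, 0, 0, 67108864⟩, ⟨1, 1, 0, 67108864⟩, ⟨2, 1, 0, 67108864⟩]]

noncomputable def f_pp_022_b : ℕ → ℕ → ℕ → ℕ → Bool := onCell 1073741824 536870912 1239849684 370763052 649613803 48318383
    (rowB 3 eng mog cd0q0 cd1q2b pd2 2 true true true .pp 0 2 2 (qsf 0 536870912 1239849684 370763052 2) ndB0q0 ndB1q2b pcB2 cut_pp_022_b Ext.none)

def k0_pp_022_b : ∃ t, chk3 f_pp_022_b t 2 1 1 = true :=
  ⟨(a (l 1) (b (b (b (b (a (a (a (l 1) (l 16470296)) (c (a (a (l 16416776) (b (l 16430240) (l 16405056))) (l 16425400)) (a (b (l 16420104) (l 16405960)) (l 16425960)))) (a (a (l 16436064) (l 16445288)) (l 16475552))) (a (a (l 1) (a (l 1) (l 16374488))) (a (l 16500224) (l 16401632)))) (a (l 1) (a (a (l 16305688) (l 16352864)) (b (l 16347960) (l 16293384))))) (a (l 1) (a (l 1) (b (l 16250144) (l 1))))) (l 1))), by decide +kernel⟩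

def k1_pp_022_b : ∃ t, chk3 f_pp_022_b t 6 1 1 = true :=
  ⟨(b (b (a (b (a (b (l 16469520) (l 16417424)) (b (a (l 16483592) (l 16494048)) (a (l 16432616) (l 16443752)))) (a (b (l 16364824) (l 16311696)) (b (l 16407416) (l 16334496)))) (a (b (a (b (l 16505216) (l 16455632)) (a (b (l 16514176) (l 16465072)) (b (l 16520680) (l 16471952)))) (a (b (l 16405216) (l 16354144)) (b (l 16418832) (l 16368520)))) (a (b (b (c (l 16555544) (l 16526344)) (l 16482656)) (b (l 16433816) (l 16384368))) (b (b (a (l 16541320) (l 16569472)) (l 16497608)) (b (l 16449488) (l 16400928)))))) (a (b (a (b (l 16257952) (l 16202976)) (a (l 16249128) (l 16262488))) (a (l 1) (l 16210856))) (a (b (a (l 16276464) (l 16333760)) (a (l 16171616) (l 16188488))) (b (a (l 16329904) (l 16327080)) (a (l 16207448) (l 16227168)))))) (b (a (l 1) (b (a (l 16198160) (l 16115000)) (a (l 1) (l 16008240)))) (l 1))), by decide +kernel⟩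

def k2_pp_022_b : ∃ t, chk3 f_pp_022_b t 7 1 1 = true :=
  ⟨(b (b (a (b (a (a (b (a (l 16555784) (l 16563168)) (l 16513144)) (b (a (l 16570648) (l 16578336)) (l 16529208))) (a (b (c (l 16615912) (l 16584592)) (l 16545632)) (b (a (l 16601272) (l 16608968)) (l 16583480)))) (b (a (a (l 16465912) (l 16482840)) (a (l 16500224) (l 16518192))) (a (l 16447848) (a (l 16454136) (l 16473000))))) (a (b (a (b (l 16641224) (l 16579408)) (b (l 16634848) (l 16596184))) (b (a (l 16536512) (l 16554776)) (l 16501880))) (b (b (a (l 16648760) (l 16682808)) (l 16641096)) (a (l 16552240) (l 16570504))))) (a (a (b (b (l 16379184) (l 16331088)) (b (l 16282584) (l 16233584))) (b (a (l 16384408) (l 16404472)) (l 16301376))) (b (a (a (l 16424832) (l 16445512)) (a (l 16466280) (l 16487736))) (a (l 16345528) (l 16389912))))) (a (b (a (b (l 16160000) (l 16060144)) (b (l 16207288) (l 16112848))) (a (l 1) (l 16154184))) (b (a (b (l 16255552) (l 16165064)) (b (l 16303032) (l 16215856))) (a (l 16027952) (l 16086224))))),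 by decide +kernel⟩

theorem s3_pp_022_b : ∃ t, chk3 f_pp_022_b t 3 1 1 = true := ex3_a k1_pp_022_b k2_pp_022_b

theorem s4_pp_022_b : ∃ t, chk3 f_pp_022_b t 1 1 1 = true := ex3_a k0_pp_022_b s3_pp_022_b

theorem c_pp_022_b : CertB 0 536870912 1239849684 370763052 649613803 48318383 3 eng mog cd0q0 cd1q2b pd2 true true true .pp 0 2 2
    ndB0q0 ndB1q2b pcB2 cut_pp_022_b Ext.none :=
  certB2 (fam := true) (s1 := true) (s2 := true) (a := 0) (b := 2) (c := 2) (cn := .pp) (n1 := ndB0q0) (n2 := ndB1q2b) (pc := pcB2) (cut := cut_pp_022_b) (xt := Ext.none) (P1 := 0) (W1 := 536870912) (P2 := 1239849684) (W2 := 370763052) (P3 := 649613803) (W3 := 48318383) (N0 := 3) (En := eng) (mo := mog) (C1 := cd0q0) (C2 := cd1q2b) (C3 := pd2)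
    rfl (fun _ => rfl) s4_pp_022_b

noncomputable def f_pp_023_a : ℕ → ℕ → ℕ → ℕ → Bool := onCell 1610612736 536870912 0 536870912 649613803 48318383
    (rowB 3 eng mog cd0q0 cd1q2a pd3 2 true true true .up 0 2 3 (qsf 0 536870912 0 536870912 3) ndB0q0 ndB1q2a pcB3 Cut.none Ext.none)

def k0_pp_023_a : ∃ t, chk3 f_pp_023_a t 8 2 1 = true :=
  ⟨(b (b (a (l 16746712) (a (l 16715752) (l 16721624))) (a (b (a (l 16720488) (l 16729808)) (a (l 16734856) (l 16770624))) (b (a (l 16738160) (l 16745736)) (a (b (l 16749512) (l 16772704)) (b (l 16778608) (a (l 16763368) (a (l 16776968) (l 58216940951)))))))) (b (a (b (a (b (l 16766680) (a (l 16761208) (b (l 16753592) (l 16757616)))) (b (a (l 16752984) (l 16757664)) (b (a (l 16758384) (a (l 16761920) (l 16769616))) (a (a (l 16761248) (l 39963321415)) (a (b (l 61438143543) (l 4)) (l 4)))))) (b (a (a (b (l 16757888) (a (l 30299640727) (l 39426452887))) (b (a (l 16772200) (l 37815838839)) (l 4))) (a (a (a (l 60901279959) (l 4)) (l 4)) (l 4)))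 (l 4))) (b (a (b (a (b (l 16760360) (l 16774600)) (b (l 16764808) (b (l 53921969847) (l 72712460087)))) (a (b (b (l 53385099287) (l 88818566247)) (l 4)) (l 4))) (b (b (a (b (l 16776120) (l 80228639943)) (l 95797896311)) (l 4)) (l 4))) (l 4))) (l 4))), by decide +kernel⟩

def k1_pp_023_a : ∃ t, chk3 f_pp_023_a t 9 2 1 = true :=
  ⟨(b (b (a (a (l 16726928) (l 16753800)) (a (l 16776408) (b (l 16738336) (a (l 16777072) (b (l 16755000) (l 16776432)))))) (a (b (a (l 16773840) (a (l 16779480) (b (l 16758000) (b (l 16764656) (l 66270001991))))) (a (b (a (l 16763440) (a (l 16766352) (l 60901294471))) (a (b (a (l 16768440) (l 68954356871)) (l 99019121751)) (b (l 98482250647) (l 4)))) (b (a (b (l 66806874375) (a (l 97408496295) (l 4))) (b (b (l 100092861031) (l 118883346791)) (l 4))) (l 4)))) (b (a (b (a (l 16762120) (l 49090132759)) (a (b (l 16779344) (b (l 83986745751) (l 117272733831))) (a (b (l 92039807271) (l 4)) (l 123715176727)))) (b (a (b (l 16768536) (a (l 83449872327) (l 105998439191)))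 (b (a (l 56069455559) (b (l 88818580423) (l 133378862679))) (l 4))) (l 4))) (l 4)))) (l 4)), by decide +kernel⟩

def k2_pp_023_a : ∃ t, chk3 f_pp_023_a t 5 2 1 = true :=
  ⟨(a (b (a (b (b (a (l 16769608) (a (l 16777624) (l 16774864))) (a (b (a (l 16759744) (l 16775408)) (a (b (l 16768280) (a (l 55532584327) (l 102777216535))) (b (a (l 55532584039) (b (l 87744838167) (l 129083895799))) (a (l 127473278823) (l 4))))) (b (a (b (l 16767408) (a (l 55532583703) (b (l 16778296) (l 126936412279)))) (b (a (l 52311358823) (b (l 16778224) (l 117809601671))) (a (b (l 118883346039) (l 4)) (l 4)))) (a (b (a (l 128010149975) (l 4)) (l 4)) (l 4))))) (b (a (a (a (b (l 151095604103) (l 4)) (l 4)) (l 4)) (l 4)) (l 4))) (b (l 2) (l 2))) (l 4)) (l 2)), by decide +kernel⟩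

def k3_pp_023_a : ∃ t, chk3 f_pp_023_a t 2 3 1 = true :=
  ⟨(l 4), by decide +kernel⟩

def k4_pp_023_a : ∃ t, chk3 f_pp_023_a t 3 1 1 = true :=
  ⟨(l 2), by decide +kernel⟩

theorem s5_pp_023_a : ∃ t, chk3 f_pp_023_a t 4 2 1 = true := ex3_a k0_pp_023_a k1_pp_023_a

theorem s6_pp_023_a : ∃ t, chk3 f_pp_023_a t 2 2 1 = true := ex3_a s5_pp_023_a k2_pp_023_a

theorem s7_pp_023_a : ∃ t, chk3 f_pp_023_a t 2 1 1 = true := ex3_b s6_pp_023_a k3_pp_023_a

theorem s8_pp_023_a : ∃ t, chk3 f_pp_023_a t 1 1 1 = true := ex3_a s7_pp_023_a k4_pp_023_a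

theorem c_pp_023_a : CertB 0 536870912 0 536870912 649613803 48318383 3 eng mog cd0q0 cd1q2a pd3 true true true .up 0 2 3
    ndB0q0 ndB1q2a pcB3 Cut.none Ext.none :=
  certB2 (fam := true) (s1 := true) (s2 := true) (a := 0) (b := 2) (c := 3) (cn := .up) (n1 := ndB0q0) (n2 := ndB1q2a) (pc := pcB3) (cut := Cut.none) (xt := Ext.none) (P1 := 0) (W1 := 536870912) (P2 := 0) (W2 := 536870912) (P3 := 649613803) (W3 := 48318383) (N0 := 3) (En := eng) (mo := mog) (C1 := cd0q0) (C2 := cd1q2a) (C3 := pd3)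
    rfl (fun _ => rfl) s8_pp_023_a

noncomputable def f_pp_023_b : ℕ → ℕ → ℕ → ℕ → Bool := onCell 0 536870912 1610612736 536870912 649613803 48318383
    (rowB 3 eng mog cd0q0 cd1q2b pd3 1 true true true .up 0 2 3 (qsf 0 536870912 1239849684 370763052 3) ndB0q0 ndB1q2b pcB3 Cut.none Ext.none)

def k0_pp_023_b : ∃ t, chk3 f_pp_023_b t 1 1 1 = true :=
  ⟨(b (b (a (a (b (a (l 16061032) (l 16184016)) (b (l 16098384) (l 16092944))) (b (a (l 16392304) (b (l 16446488) (l 16422400))) (a (l 16294936) (l 16521208)))) (a (b (a (b (l 16672552) (l 16543760)) (b (a (l 16646128) (l 272763857591)) (a (l 16622336) (l 16665592)))) (a (b (l 16522992) (l 16506808)) (b (l 16623952) (l 16607480)))) (b (a (a (b (l 379601179383) (l 287796299991)) (b (l 1) (l 385506778935))) (l 1)) (a (b (a (l 16680968) (a (l 16734496) (l 317324139831))) (a (l 16665392) (l 16717456))) (b (a (l 387117414759) (l 1)) (a (b (l 404297259735) (l 270079604407)) (b (l 1) (l 410739762759)))))))) (b (a (l 4) (b (a (a (l 16500208)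 (l 16598360)) (a (a (l 16655800) (l 16687496)) (a (b (l 16717064) (l 16714512)) (a (b (l 313029217399) (l 16733440)) (b (l 391412428295) (a (l 270079615671) (l 326451026823))))))) (a (l 4) (a (l 16669088) (a (l 16711360) (b (a (l 16732336) (l 16744688)) (l 16736736))))))) (l 4))) (l 4)), by decide +kernel⟩

theorem c_pp_023_b : CertB 0 536870912 1239849684 370763052 649613803 48318383 3 eng mog cd0q0 cd1q2b pd3 true true true .up 0 2 3
    ndB0q0 ndB1q2b pcB3 Cut.none Ext.none :=
  certB1 (fam := true) (s1 := true) (s2 := true) (a := 0) (b := 2) (c := 3) (cn := .up) (n1 := ndB0q0) (n2 := ndB1q2b) (pc := pcB3) (cut := Cut.none) (xt := Ext.none) (P1 := 0) (W1 := 536870912) (P2 := 1239849684) (W2 := 370763052) (P3 := 649613803) (W3 := 48318383) (N0 := 3) (En := eng) (mo := mog) (C1 := cd0q0) (C2 := cd1q2b) (C3 := pd3)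
    rfl (fun _ => rfl) k0_pp_023_b

noncomputable def f_pp_033 : ℕ → ℕ → ℕ → ℕ → Bool := onCell 0 536870912 1610612736 536870912 649613803 48318383
    (rowB 3 eng mog cd0q0 cd1q3 pd3 1 true true true .pnn 0 3 3 (qsf 0 536870912 1610612736 536870912 3) ndB0q0 ndB1q3 pcB3 Cut.none Ext.none)

def k0_pp_033 : ∃ t, chk3 f_pp_033 t 1 1 1 = true :=
  ⟨(b (b (a (a (b (a (l 16077520) (l 16194864)) (b (l 16119216) (l 16118968))) (b (l 1) (a (l 16286984) (l 1)))) (l 1)) (b (a (l 4) (l 1)) (l 4))) (l 4)), by decide +kernel⟩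

theorem c_pp_033 : CertB 0 536870912 1610612736 536870912 649613803 48318383 3 eng mog cd0q0 cd1q3 pd3 true true true .pnn 0 3 3
    ndB0q0 ndB1q3 pcB3 Cut.none Ext.none :=
  certB1 (fam := true) (s1 := true) (s2 := true) (a := 0) (b := 3) (c := 3) (cn := .pnn) (n1 := ndB0q0) (n2 := ndB1q3) (pc := pcB3) (cut := Cut.none) (xt := Ext.none) (P1 := 0) (W1 := 536870912) (P2 := 1610612736) (W2 := 536870912) (P3 := 649613803) (W3 := 48318383) (N0 := 3) (En := eng) (mo := mog) (C1 := cd0q0) (C2 := cd1q3) (C3 := pd3)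
    rfl (fun _ => rfl) k0_pp_033

noncomputable def f_pp_101 : ℕ → ℕ → ℕ → ℕ → Bool := onCell 536870912 536870912 0 536870912 649613803 48318383
    (rowB 3 eng mog cd0q1 cd1q0 pd1 0 true true true .npn 1 0 1 (qsf 536870912 536870912 0 536870912 1) ndB0q1 ndB1q0 pcB1 Cut.none Ext.none)

def k0_pp_101 : ∃ t, chk3 f_pp_101 t 1 1 1 = true :=
  ⟨(a (l 4) (l 5)), by decide +kernel⟩

theorem c_pp_101 : CertB 536870912 536870912 0 536870912 649613803 48318383 3 eng mog cd0q1 cd1q0 pd1 true true true .npn 1 0 1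
    ndB0q1 ndB1q0 pcB1 Cut.none Ext.none :=
  certB0 (fam := true) (s1 := true) (s2 := true) (a := 1) (b := 0) (c := 1) (cn := .npn) (n1 := ndB0q1) (n2 := ndB1q0) (pc := pcB1) (cut := Cut.none) (xt := Ext.none) (P1 := 536870912) (W1 := 536870912) (P2 := 0) (W2 := 536870912) (P3 := 649613803) (W3 := 48318383) (N0 := 3) (En := eng) (mo := mog) (C1 := cd0q1) (C2 := cd1q0) (C3 := pd1)
    rfl k0_pp_101

noncomputable def f_pp_102 : ℕ → ℕ → ℕ → ℕ → Bool := onCell 536870912 536870912 0 536870912 649613803 48318383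
    (rowB 3 eng mog cd0q1 cd1q0 pd2 0 true true true .npp 1 0 2 (qsf 536870912 536870912 0 536870912 2) ndB0q1 ndB1q0 pcB2 Cut.none Ext.none)

def k0_pp_102 : ∃ t, chk3 f_pp_102 t 1 1 1 = true :=
  ⟨(a (l 4) (l 5)), by decide +kernel⟩

theorem c_pp_102 : CertB 536870912 536870912 0 536870912 649613803 48318383 3 eng mog cd0q1 cd1q0 pd2 true true true .npp 1 0 2
    ndB0q1 ndB1q0 pcB2 Cut.none Ext.none :=
  certB0 (fam := true) (s1 := true) (s2 := true) (a := 1) (b := 0) (c := 2) (cn := .npp) (n1 := ndB0q1) (n2 := ndB1q0) (pc := pcB2) (cut := Cut.none) (xt := Ext.none) (P1 := 536870912) (W1 := 536870912) (P2 := 0) (W2 := 536870912) (P3 := 649613803) (W3 := 48318383) (N0 := 3) (En := eng) (mo := mog) (C1 := cd0q1) (C2 := cd1q0) (C3 := pd2)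
    rfl k0_pp_102

noncomputable def f_pp_112 : ℕ → ℕ → ℕ → ℕ → Bool := onCell 536870912 536870912 536870912 536870912 649613803 48318383
    (rowB 3 eng mog cd0q1 cd1q1 pd2 0 true true true .dn 1 1 2 (qsf 536870912 536870912 536870912 536870912 2) ndB0q1 ndB1q1 pcB2 Cut.none Ext.none)

def k0_pp_112 : ∃ t, chk3 f_pp_112 t 1 1 1 = true :=
  ⟨(l 4), by decide +kernel⟩

theorem c_pp_112 : CertB 536870912 536870912 536870912 536870912 649613803 48318383 3 eng mog cd0q1 cd1q1 pd2 true true true .dn 1 1 2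
    ndB0q1 ndB1q1 pcB2 Cut.none Ext.none :=
  certB0 (fam := true) (s1 := true) (s2 := true) (a := 1) (b := 1) (c := 2) (cn := .dn) (n1 := ndB0q1) (n2 := ndB1q1) (pc := pcB2) (cut := Cut.none) (xt := Ext.none) (P1 := 536870912) (W1 := 536870912) (P2 := 536870912) (W2 := 536870912) (P3 := 649613803) (W3 := 48318383) (N0 := 3) (En := eng) (mo := mog) (C1 := cd0q1) (C2 := cd1q1) (C3 := pd2)
    rfl k0_pp_112

noncomputable def f_pp_113 : ℕ → ℕ → ℕ → ℕ → Bool := onCell 536870912 536870912 536870912 536870912 649613803 48318383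
    (rowB 3 eng mog cd0q1 cd1q1 pd3 0 true true true .nn 1 1 3 (qsf 536870912 536870912 536870912 536870912 3) ndB0q1 ndB1q1 pcB3 Cut.none Ext.none)

def k0_pp_113 : ∃ t, chk3 f_pp_113 t 1 1 1 = true :=
  ⟨(l 4), by decide +kernel⟩

theorem c_pp_113 : CertB 536870912 536870912 536870912 536870912 649613803 48318383 3 eng mog cd0q1 cd1q1 pd3 true true true .nn 1 1 3
    ndB0q1 ndB1q1 pcB3 Cut.none Ext.none :=
  certB0 (fam := true) (s1 := true) (s2 := true) (a := 1) (b := 1) (c := 3) (cn := .nn) (n1 := ndB0q1) (n2 := ndB1q1) (pc := pcB3) (cut := Cut.none) (xt := Ext.none) (P1 := 536870912) (W1 := 536870912) (P2 := 536870912) (W2 := 536870912) (P3 := 649613803) (W3 := 48318383) (N0 := 3) (En := eng) (mo := mog) (C1 := cd0q1) (C2 := cd1q1) (C3 := pd3)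
    rfl k0_pp_113

noncomputable def f_pp_123_a : ℕ → ℕ → ℕ → ℕ → Bool := onCell 536870912 536870912 0 536870912 649613803 48318383
    (rowB 3 eng mog cd0q1 cd1q2a pd3 0 true true true .npn 1 2 3 (qsf 536870912 536870912 0 536870912 3) ndB0q1 ndB1q2a pcB3 Cut.none Ext.none)

def k0_pp_123_a : ∃ t, chk3 f_pp_123_a t 1 1 1 = true :=
  ⟨(a (b (a (a (b (b (a (b (a (b (a (l 16762000) (l 16777096)) (a (b (l 16767184) (a (l 16769928) (b (l 16771472) (a (l 16773584) (l 109219671431))))) (b (a (l 16770504) (b (l 16771760) (a (l 16773840) (b (l 16774576) (l 131231380455))))) (a (b (a (l 16773704) (l 109756537415)) (l 131231378711)) (b (l 133915733511) (l 4)))))) (b (a (b (l 16779752) (a (l 16771328) (b (l 16772520) (a (l 16776776) (b (l 16774952) (l 125862672055)))))) (b (a (l 16772192) (b (l 16773328) (a (l 31910264439) (b (l 16776688) (c (l 124252060199) (l 126936414519)))))) (a (b (a (l 16776960) (b (l 16777792) (l 126399543351))) (a (l 124788928375) (l 4))) (b (a (b (l 125325801719)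 (l 4)) (l 4)) (l 4))))) (a (b (a (b (a (l 16779232) (b (l 16774760) (l 125325800775))) (a (l 130157639511) (l 4))) (b (a (l 131231379015) (l 4)) (l 4))) (l 4)) (l 4)))) (a (b (a (b (a (b (a (l 16773480) (l 109219671159)) (l 138210702727)) (a (l 138210698007) (l 4))) (l 4)) (l 4)) (l 4)) (l 4))) (b (a (b (a (b (a (b (a (b (l 16774328) (l 57143197175)) (b (l 51774488567) (c (l 125325799735) (l 128010154087)))) (a (b (c (l 124788931287) (l 127473285623)) (l 4)) (l 4))) (b (a (a (b (l 121567703063) (l 4)) (l 165054249959)) (l 4)) (l 4))) (l 4)) (l 4)) (l 4)) (l 4)) (l 4))) (l 4)) (l 4)) (l 4)) (l 4)) (l 4)) (l 4)), by decide +kernel⟩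

theorem c_pp_123_a : CertB 536870912 536870912 0 536870912 649613803 48318383 3 eng mog cd0q1 cd1q2a pd3 true true true .npn 1 2 3
    ndB0q1 ndB1q2a pcB3 Cut.none Ext.none :=
  certB0 (fam := true) (s1 := true) (s2 := true) (a := 1) (b := 2) (c := 3) (cn := .npn) (n1 := ndB0q1) (n2 := ndB1q2a) (pc := pcB3) (cut := Cut.none) (xt := Ext.none) (P1 := 536870912) (W1 := 536870912) (P2 := 0) (W2 := 536870912) (P3 := 649613803) (W3 := 48318383) (N0 := 3) (En := eng) (mo := mog) (C1 := cd0q1) (C2 := cd1q2a) (C3 := pd3)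
    rfl k0_pp_123_a

noncomputable def f_pp_123_b : ℕ → ℕ → ℕ → ℕ → Bool := onCell 536870912 536870912 1239849684 370763052 649613803 48318383
    (rowB 3 eng mog cd0q1 cd1q2b pd3 0 true true true .npn 1 2 3 (qsf 536870912 536870912 1239849684 370763052 3) ndB0q1 ndB1q2b pcB3 Cut.none Ext.none)

def k0_pp_123_b : ∃ t, chk3 f_pp_123_b t 1 1 1 = true :=
  ⟨(a (b (a (b (a (b (a (a (b (b (a (l 16753304) (l 16778984)) (l 16756096)) (b (l 16774880) (l 4))) (b (a (b (b (l 16785888) (l 16764696)) (l 16763136)) (b (b (b (c (l 16781160) (l 16780400)) (l 16770256)) (l 72712455159)) (l 4))) (l 4))) (a (b (a (b (b (b (a (a (l 16773640) (l 16774944)) (a (a (a (l 16775544) (l 11509168855)) (l 157538057031)) (l 4))) (l 146800628935)) (l 4)) (l 4)) (l 4)) (l 4)) (l 4))) (l 4)) (l 4)) (l 4)) (l 4)) (l 4)) (l 4)), by decide +kernel⟩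

theorem c_pp_123_b : CertB 536870912 536870912 1239849684 370763052 649613803 48318383 3 eng mog cd0q1 cd1q2b pd3 true true true .npn 1 2 3
    ndB0q1 ndB1q2b pcB3 Cut.none Ext.none :=
  certB0 (fam := true) (s1 := true) (s2 := true) (a := 1) (b := 2) (c := 3) (cn := .npn) (n1 := ndB0q1) (n2 := ndB1q2b) (pc := pcB3) (cut := Cut.none) (xt := Ext.none) (P1 := 536870912) (W1 := 536870912) (P2 := 1239849684) (W2 := 370763052) (P3 := 649613803) (W3 := 48318383) (N0 := 3) (En := eng) (mo := mog) (C1 := cd0q1) (C2 := cd1q2b) (C3 := pd3)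
    rfl k0_pp_123_b

noncomputable def f_pp_133 : ℕ → ℕ → ℕ → ℕ → Bool := onCell 536870912 536870912 1610612736 536870912 649613803 48318383
    (rowB 3 eng mog cd0q1 cd1q3 pd3 0 true true true .dn 1 3 3 (qsf 536870912 536870912 1610612736 536870912 3) ndB0q1 ndB1q3 pcB3 Cut.none Ext.none)

def k0_pp_133 : ∃ t, chk3 f_pp_133 t 1 1 1 = true :=
  ⟨(l 4), by decide +kernel⟩

theorem c_pp_133 : CertB 536870912 536870912 1610612736 536870912 649613803 48318383 3 eng mog cd0q1 cd1q3 pd3 true true true .dn 1 3 3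
    ndB0q1 ndB1q3 pcB3 Cut.none Ext.none :=
  certB0 (fam := true) (s1 := true) (s2 := true) (a := 1) (b := 3) (c := 3) (cn := .dn) (n1 := ndB0q1) (n2 := ndB1q3) (pc := pcB3) (cut := Cut.none) (xt := Ext.none) (P1 := 536870912) (W1 := 536870912) (P2 := 1610612736) (W2 := 536870912) (P3 := 649613803) (W3 := 48318383) (N0 := 3) (En := eng) (mo := mog) (C1 := cd0q1) (C2 := cd1q3) (C3 := pd3)
    rfl k0_pp_133

noncomputable def f_pp_202 : ℕ → ℕ → ℕ → ℕ → Bool := onCell 0 536870912 0 536870912 649613803 48318383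
    (rowB 3 eng mog cd0q2 cd1q0 pd2 0 true true true .pp 2 0 2 (qsf 0 536870912 0 536870912 2) ndB0q2 ndB1q0 pcB2 Cut.none Ext.none)

def k0_pp_202 : ∃ t, chk3 f_pp_202 t 1 1 1 = true :=
  ⟨(l 5), by decide +kernel⟩

theorem c_pp_202 : CertB 0 536870912 0 536870912 649613803 48318383 3 eng mog cd0q2 cd1q0 pd2 true true true .pp 2 0 2
    ndB0q2 ndB1q0 pcB2 Cut.none Ext.none :=
  certB0 (fam := true) (s1 := true) (s2 := true) (a := 2) (b := 0) (c := 2) (cn := .pp) (n1 := ndB0q2) (n2 := ndB1q0) (pc := pcB2) (cut := Cut.none) (xt := Ext.none) (P1 := 0) (W1 := 536870912) (P2 := 0) (W2 := 536870912) (P3 := 649613803) (W3 := 48318383) (N0 := 3) (En := eng) (mo := mog) (C1 := cd0q2) (C2 := cd1q0) (C3 := pd2)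
    rfl k0_pp_202

noncomputable def f_pp_203 : ℕ → ℕ → ℕ → ℕ → Bool := onCell 0 536870912 0 536870912 649613803 48318383
    (rowB 3 eng mog cd0q2 cd1q0 pd3 0 true true true .up 2 0 3 (qsf 0 536870912 0 536870912 3) ndB0q2 ndB1q0 pcB3 Cut.none Ext.none)

def k0_pp_203 : ∃ t, chk3 f_pp_203 t 1 1 1 = true :=
  ⟨(l 5), by decide +kernel⟩

theorem c_pp_203 : CertB 0 536870912 0 536870912 649613803 48318383 3 eng mog cd0q2 cd1q0 pd3 true true true .up 2 0 3
    ndB0q2 ndB1q0 pcB3 Cut.none Ext.none :=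
  certB0 (fam := true) (s1 := true) (s2 := true) (a := 2) (b := 0) (c := 3) (cn := .up) (n1 := ndB0q2) (n2 := ndB1q0) (pc := pcB3) (cut := Cut.none) (xt := Ext.none) (P1 := 0) (W1 := 536870912) (P2 := 0) (W2 := 536870912) (P3 := 649613803) (W3 := 48318383) (N0 := 3) (En := eng) (mo := mog) (C1 := cd0q2) (C2 := cd1q0) (C3 := pd3)
    rfl k0_pp_203

noncomputable def f_pp_213 : ℕ → ℕ → ℕ → ℕ → Bool := onCell 0 536870912 536870912 536870912 649613803 48318383
    (rowB 3 eng mog cd0q2 cd1q1 pd3 0 true true true .pnn 2 1 3 (qsf 0 536870912 536870912 536870912 3) ndB0q2 ndB1q1 pcB3 Cut.none Ext.none)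

def k0_pp_213 : ∃ t, chk3 f_pp_213 t 1 1 1 = true :=
  ⟨(l 5), by decide +kernel⟩

theorem c_pp_213 : CertB 0 536870912 536870912 536870912 649613803 48318383 3 eng mog cd0q2 cd1q1 pd3 true true true .pnn 2 1 3
    ndB0q2 ndB1q1 pcB3 Cut.none Ext.none :=
  certB0 (fam := true) (s1 := true) (s2 := true) (a := 2) (b := 1) (c := 3) (cn := .pnn) (n1 := ndB0q2) (n2 := ndB1q1) (pc := pcB3) (cut := Cut.none) (xt := Ext.none) (P1 := 0) (W1 := 536870912) (P2 := 536870912) (W2 := 536870912) (P3 := 649613803) (W3 := 48318383) (N0 := 3) (En := eng) (mo := mog) (C1 := cd0q2) (C2 := cd1q1) (C3 := pd3)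
    rfl k0_pp_213

noncomputable def f_pm_001 : ℕ → ℕ → ℕ → ℕ → Bool := onCell 0 536870912 0 536870912 649613803 48318383
    (rowB 3 eng mog cd0q0 cd1q0 pd1 0 true true false .up 0 0 1 (qsf 0 536870912 0 536870912 1) ndB0q0 ndB1q0 pcB1 Cut.none Ext.none)

def k0_pm_001 : ∃ t, chk3 f_pm_001 t 1 1 1 = true :=
  ⟨(l 3), by decide +kernel⟩

theorem c_pm_001 : CertB 0 536870912 0 536870912 649613803 48318383 3 eng mog cd0q0 cd1q0 pd1 true true false .up 0 0 1
    ndB0q0 ndB1q0 pcB1 Cut.none Ext.none :=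
  certB0 (fam := true) (s1 := true) (s2 := false) (a := 0) (b := 0) (c := 1) (cn := .up) (n1 := ndB0q0) (n2 := ndB1q0) (pc := pcB1) (cut := Cut.none) (xt := Ext.none) (P1 := 0) (W1 := 536870912) (P2 := 0) (W2 := 536870912) (P3 := 649613803) (W3 := 48318383) (N0 := 3) (En := eng) (mo := mog) (C1 := cd0q0) (C2 := cd1q0) (C3 := pd1)
    rfl k0_pm_001

noncomputable def f_pm_011 : ℕ → ℕ → ℕ → ℕ → Bool := onCell 536870912 536870912 536870912 536870912 649613803 48318383
    (rowB 3 eng mog cd0q0 cd1q1 pd1 2 true true false .pnn 0 1 1 (qsf 0 536870912 536870912 536870912 1) ndB0q0 ndB1q1 pcB1 Cut.none Ext.none)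

def k0_pm_011 : ∃ t, chk3 f_pm_011 t 1 1 1 = true :=
  ⟨(a (l 3) (l 3)), by decide +kernel⟩

theorem c_pm_011 : CertB 0 536870912 536870912 536870912 649613803 48318383 3 eng mog cd0q0 cd1q1 pd1 true true false .pnn 0 1 1
    ndB0q0 ndB1q1 pcB1 Cut.none Ext.none :=
  certB2 (fam := true) (s1 := true) (s2 := false) (a := 0) (b := 1) (c := 1) (cn := .pnn) (n1 := ndB0q0) (n2 := ndB1q1) (pc := pcB1) (cut := Cut.none) (xt := Ext.none) (P1 := 0) (W1 := 536870912) (P2 := 536870912) (W2 := 536870912) (P3 := 649613803) (W3 := 48318383) (N0 := 3) (En := eng) (mo := mog) (C1 := cd0q0) (C2 := cd1q1) (C3 := pd1)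
    rfl (fun _ => rfl) k0_pm_011

noncomputable def f_pm_012 : ℕ → ℕ → ℕ → ℕ → Bool := onCell 1073741824 536870912 536870912 536870912 649613803 48318383
    (rowB 3 eng mog cd0q0 cd1q1 pd2 2 true true false .pnp 0 1 2 (qsf 0 536870912 536870912 536870912 2) ndB0q0 ndB1q1 pcB2 Cut.none Ext.none)

def k0_pm_012 : ∃ t, chk3 f_pm_012 t 4 2 1 = true :=
  ⟨(l 3), by decide +kernel⟩

def k1_pm_012 : ∃ t, chk3 f_pm_012 t 8 3 1 = true :=
  ⟨(b (l 3) (b (l 3) (a (l 3) (b (l 3) (a (l 3) (b (a (l 3) (b (l 3) (a (l 3) (c (l 203641740647) (l 178945681863))))) (a (b (a (l 3) (b (l 3) (l 178945683591))) (a (b (l 3) (l 127406079735)) (b (l 119353014375) (a (l 16727488) (l 16727528))))) (a (b (b (l 179482553719) (a (l 16726624) (l 112373690327))) (b (c (l 16725600) (l 16717016)) (l 16724120))) (b (b (a (l 16720168) (l 16728296)) (l 16728496)) (b (l 16712480) (l 16708880))))))))))), by decide +kernel⟩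

def k2_pm_012 : ∃ t, chk3 f_pm_012 t 9 6 1 = true :=
  ⟨(a (l 3) (b (l 3) (a (l 3) (b (l 3) (a (b (l 3) (a (l 3) (a (l 3) (b (l 3) (l 16720536))))) (b (a (b (l 3) (a (l 3) (l 16722768))) (b (a (l 3) (l 16720960)) (a (l 16719904) (l 16717000)))) (a (a (b (l 16721800) (l 16717640)) (b (l 16718920) (l 16714672))) (b (a (l 16715960) (l 16712992)) (a (l 16711768) (l 16709040)))))))))), by decide +kernel⟩

def k3_pm_012 : ∃ t, chk3 f_pm_012 t 18 14 1 = true :=
  ⟨(a (l 3) (b (l 3) (a (l 3) (b (l 3) (a (a (l 3) (b (l 3) (b (l 3) (l 16719528)))) (a (b (l 3) (b (l 16719480) (l 16716792))) (b (b (l 3) (l 16719400)) (b (l 16716712) (l 16713792))))))))), by decide +kernel⟩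

def k4_pm_012 : ∃ t, chk3 f_pm_012 t 18 30 1 = true :=
  ⟨(a (b (l 3) (a (b (l 3) (a (l 3) (l 271287476423))) (a (a (c (l 276656171959) (l 239612080023)) (b (l 3) (b (l 16721096) (l 16718304)))) (a (b (b (l 3) (l 16721360)) (b (l 16718704) (l 16715600))) (b (b (l 16721568) (l 16719024)) (b (l 16716096) (l 16713080))))))) (a (b (b (b (l 3) (a (l 3) (a (l 3) (l 16719536)))) (b (a (a (l 3) (l 16721792)) (a (l 16719504) (l 16716880))) (a (a (l 16721704) (l 16719440)) (a (l 16716896) (l 16713984))))) (a (b (a (b (l 16719272) (l 16716520)) (b (l 16716824) (l 16713992))) (b (a (l 16713560) (l 16710896)) (l 16708856))) (b (a (b (l 16714056) (l 16711120)) (b (l 16711096) (l 16707816))) (l 16704440)))) (b (b (b (a (a (l 16719544) (l 16716840)) (a (l 16713864) (l 16710824))) (a (a (l 16716864) (l 16713904)) (a (l 16710896) (l 16707912)))) (a (a (b (l 16713936) (l 16711032)) (b (l 16710968) (l 16707888))) (l 16704880))) (b (a (l 16704728) (l 16698824)) (a (l 16698304) (l 16713872)))))),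 by decide +kernel⟩

def k5_pm_012 : ∃ t, chk3 f_pm_012 t 18 31 1 = true :=
  ⟨(a (b (a (b (a (l 231559017175) (b (c (l 133311683799) (l 16720512)) (a (l 16719848) (l 16717192)))) (b (a (c (l 196125543879) (l 16719944)) (a (l 16716552) (l 16713992))) (a (a (l 16723496) (l 16716120)) (l 16712320)))) (b (b (a (a (l 16717808) (l 16715088)) (a (l 16712528) (l 16709664))) (a (a (l 16714560) (l 16711880)) (l 16707616))) (b (l 16706944) (l 16708544)))) (a (b (a (a (l 16724440) (l 16710824)) (l 16706552)) (a (l 16710424) (l 16700104))) (b (a (l 16701144) (l 16680392)) (a (l 16695040) (l 16690256))))) (b (a (a (b (l 16703648) (a (l 16719192) (l 16695704))) (b (c (l 16719224) (l 16718232)) (l 16691920))) (b (a (l 16692480) (l 16687448)) (l 16684496))) (a (c (a (l 16683416) (l 16662840)) (l 16685768)) (b (l 16678992) (l 16673576))))), by decide +kernel⟩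

def k6_pm_012 : ∃ t, chk3 f_pm_012 t 19 14 1 = true :=
  ⟨(a (b (a (l 3) (b (l 3) (a (b (l 3) (a (l 305647210311) (l 178945688999))) (b (a (l 258939456471) (l 16718272)) (a (l 16716240) (l 16713240)))))) (a (b (a (b (l 3) (a (l 3) (l 233169654759))) (b (a (l 3) (l 221358494407)) (a (l 16717568) (l 16714696)))) (a (b (a (b (l 16719280) (l 16716600)) (l 16715032)) (b (l 16722632) (l 16719856))) (b (a (l 16732984) (c (l 16720664) (l 16708360))) (a (l 16706512) (l 16703688))))) (b (a (b (a (l 16717016) (l 16714040)) (a (b (l 16713080) (l 16710376)) (b (l 16710040) (l 16707456)))) (b (a (b (l 16712336) (l 16709704)) (l 16708136)) (a (l 16705872) (l 16703104)))) (a (b (a (l 16706384) (l 16703448)) (l 16699472)) (l 16717760))))) (b (a (b (a (b (a (l 3) (l 16721824)) (a (l 16720136) (l 16717280))) (a (b (l 16719016) (l 16714304)) (b (l 16716088) (l 16711328)))) (a (b (a (l 16715344) (l 16712328)) (a (l 16721392) (l 16707472))) (b (a (l 16709448) (l 16706768)) (l 16703560)))) (b (a (a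 (b (l 16713096) (l 16708568)) (b (l 16710264) (l 16706048))) (a (b (l 16707656) (l 16703664)) (l 16703296))) (a (b (l 16703056) (l 16698744)) (b (l 16698392) (l 16694176))))) (a (b (a (b (a (l 16705360) (l 16702752)) (l 16699216)) (l 16717680)) (b (a (l 16694312) (l 16689552)) (a (l 16689304) (l 16684520)))) (b (a (b (l 16694328) (l 16689728)) (b (l 16710720) (l 16684936))) (a (b (l 16684792) (l 16679648)) (l 16698272)))))), by decide +kernel⟩

def k7_pm_012 : ∃ t, chk3 f_pm_012 t 19 15 1 = true :=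
  ⟨(a (b (a (b (a (b (a (l 16706472) (l 16703568)) (l 16699144)) (b (l 16699408) (a (l 16695048) (l 16692384)))) (b (a (b (l 16694736) (l 16691880)) (l 16688312)) (a (l 16687896) (l 16683032)))) (b (a (b (l 16693992) (b (l 16689968) (l 16687344))) (b (l 16709976) (l 16683808))) (b (l 16701952) (l 16696680)))) (b (a (b (l 16701120) (l 16674752)) (b (l 16670352) (a (l 16667448) (l 16662648)))) (a (b (a (l 16671728) (l 16667040)) (l 16664624)) (b (a (l 16641536) (l 16658288)) (l 16656328))))) (b (a (b (a (l 16702560) (l 16676704)) (c (l 16689944) (l 16689272))) (b (b (l 16692864) (l 16687536)) (a (b (l 16663728) (l 16658400)) (b (l 16658656) (l 16674632))))) (b (a (a (b (l 16662944) (l 16658088)) (b (l 16658168) (l 16653944))) (b (a (l 16653696) (l 16649624)) (l 16647752))) (a (b (l 16652056) (l 16648016)) (l 16654856))))), by decide +kernel⟩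

def k8_pm_012 : ∃ t, chk3 f_pm_012 t 10 2 1 = true :=
  ⟨(a (a (l 3) (b (l 2) (a (b (l 3) (a (l 3) (b (l 3) (a (a (l 3) (b (l 3) (l 16736560))) (a (b (l 3) (l 16735984)) (b (l 16738848) (l 16735336))))))) (a (b (l 3) (a (a (b (l 3) (b (l 16738304) (l 16734656))) (b (b (l 3) (l 16740496)) (b (l 16737680) (l 16733960)))) (a (b (b (l 3) (l 16739944)) (b (l 16737008) (l 16733352))) (b (b (l 16741312) (l 16739304)) (b (l 16736376) (l 16732776)))))) (b (a (a (b (l 3) (b (l 3) (l 16741808))) (a (b (l 3) (b (l 16741784) (l 16741352))) (b (b (l 2) (l 16741536)) (b (l 16741496) (l 16741056))))) (a (a (a (b (l 19964842071) (b (l 16741336) (l 16740896))) (a (b (l 20501712359) (b (l 16741304) (l 16740760))) (a (a (b (l 16751808) (l 16761968)) (b (l 16762320) (l 16761928))) (b (l 16762328) (l 16761912))))) (b (l 16762280) (l 16761776))) (b (l 16762168) (l 16761432)))) (b (a (a (b (l 16740696) (l 16738696)) (a (b (l 16740264) (l 16738280)) (b (l 16739920) (l 16737784)))) (a (a (a (b (l 16739600)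 (l 16737288)) (a (l 16759184) (b (l 16738992) (l 16736808)))) (l 16758672)) (l 16758168))) (a (a (b (l 16735840) (l 16732088)) (b (l 16734944) (l 16731240))) (a (a (a (b (l 16734304) (l 16730688)) (a (b (l 16734072) (l 16730504)) (b (l 16733936) (l 16730408)))) (l 16752968)) (l 16752384))))))))) (b (l 2) (b (b (a (b (l 2) (l 16738824)) (l 2)) (a (b (l 16737464) (l 16756528)) (l 16750560))) (b (a (b (l 16753984) (l 16730088)) (l 16763992)) (a (b (l 16726704) (l 16743792)) (l 16755064)))))), by decide +kernel⟩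

def k9_pm_012 : ∃ t, chk3 f_pm_012 t 11 2 1 = true :=
  ⟨(b (l 2) (b (a (b (l 2) (a (l 16723336) (l 2))) (l 2)) (b (a (a (l 16734720) (l 16706720)) (l 16719296)) (a (a (l 16702456) (l 16693040)) (l 16765472))))), by decide +kernel⟩

def k10_pm_012 : ∃ t, chk3 f_pm_012 t 40 6 1 = true :=
  ⟨(b (a (l 3) (b (l 3) (a (b (l 3) (a (b (l 3) (l 200420541159)) (b (l 167134550791) (l 16735736)))) (b (a (b (l 3) (l 144049101143)) (b (c (l 111299976231) (l 16728336)) (c (l 16729104) (l 16726096)))) (a (b (c (l 16728160) (l 16725592)) (l 16723016)) (b (l 16724752) (c (l 16722216) (l 16719256)))))))) (a (b (a (b (l 3) (b (a (l 3) (l 16733752)) (a (l 16722080) (l 16719352)))) (b (a (b (l 3) (l 255718236663)) (b (l 231022182471) (l 56539131191))) (b (a (l 16720640) (l 16717880)) (a (l 16716480) (l 16713648))))) (b (a (a (b (l 16718144) (l 16714048)) (b (l 16715232) (l 16711176))) (a (b (l 16712312) (l 16708552)) (b (l 16730768) (l 16706328)))) (a (b (a (l 16710144) (l 16707504)) (l 16705280))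 (l 16702224)))) (b (a (b (a (b (l 16734096) (l 16719536)) (b (l 16721248) (l 16738120))) (a (b (l 16715376) (l 16711496)) (b (l 16723752) (l 16709664)))) (b (a (b (l 16729424) (c (l 16716336) (l 16713760))) (b (c (l 16718344) (l 16715408)) (l 16713224))) (c (b (l 16711688) (l 16707824)) (l 16728448)))) (b (a (a (l 16727168) (l 16704240)) (a (l 16702160) (l 16699960))) (a (l 16697848) (b (a (l 16696360) (l 16693960)) (l 16685776))))))), by decide +kernel⟩

def k11_pm_012 : ∃ t, chk3 f_pm_012 t 40 7 1 = true :=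
  ⟨(b (b (a (b (a (l 16699752) (l 16715992)) (a (b (l 16693832) (l 16689504)) (b (l 16688944) (l 16684416)))) (a (b (b (l 16692072) (l 16688008)) (l 16681464)) (b (l 16695080) (l 16675928)))) (a (a (b (l 16682392) (l 16693208)) (b (l 16677200) (a (l 16668368) (l 16665744)))) (b (a (l 16671936) (l 16666440)) (a (b (l 16664352) (l 16659128)) (c (l 16677344) (l 16656760)))))) (b (a (b (a (l 16682624) (b (l 16659096) (l 16664328))) (a (b (l 16674720) (l 16649408)) (b (l 16659688) (l 16645344)))) (b (a (b (l 16674856) (a (l 16650152) (l 16648008))) (b (a (l 16650032) (l 16647768)) (l 16644968))) (c (a (l 16643320) (l 16639104)) (l 16638192)))) (a (b (a (l 16638320) (l 16639408)) (l 16643784)) (b (a (l 16635200) (l 16630904)) (l 16624600))))), by decide +kernel⟩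

def k12_pm_012 : ∃ t, chk3 f_pm_012 t 82 6 1 = true :=
  ⟨(b (a (b (a (b (l 3) (a (a (l 163913334071) (l 105394406967)) (b (l 16732344) (l 16730192)))) (a (b (l 3) (a (l 32916834295) (l 16751296))) (b (l 124721765527) (l 16750672)))) (b (a (a (a (l 16727632) (l 16727104)) (l 16742112)) (b (l 16726416) (a (l 16724224) (l 16723616)))) (a (a (b (l 16723032) (l 16719168)) (b (l 16732584) (l 16718448))) (b (c (l 16722984) (l 16719680)) (l 16717760))))) (b (a (a (b (c (l 16735168) (l 16731456)) (l 16728888)) (b (l 16732648) (b (l 16729280) (l 16726960)))) (a (b (l 16731896) (b (l 16728560) (l 16726408))) (b (l 16731176) (b (l 16727992) (l 16725864))))) (b (a (b (c (l 16737448) (l 16723128)) (l 16733312)) (b (l 16723992) (l 16721768))) (a (b (c (l 16722016) (l 16718648)) (l 16716656)) (b (l 16729664) (l 16715336)))))) (b (a (b (a (b (c (l 16716656) (l 16713600)) (l 16721904)) (c (l 16724072) (l 16710464))) (a (b (l 16707608) (l 16703704)) (b (l 16706160) (l 16702128)))) (b (a (c (l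 16722856) (l 16709016)) (b (l 16711288) (l 16707176))) (a (b (l 16704656) (c (l 16712336) (l 16698896))) (a (b (l 16703392) (l 16698968)) (b (l 16723392) (l 16697720)))))) (a (b (b (a (l 16699728) (l 16697984)) (a (l 16695664) (l 16693632))) (a (b (l 16691400) (l 16686944)) (b (l 16689080) (l 16684504)))) (b (a (b (c (l 16697232) (l 16694624)) (l 16691336)) (b (l 16693560) (l 16688752))) (b (a (l 16686632) (l 16683936)) (a (l 16681944) (l 16679152))))))), by decide +kernel⟩

def k13_pm_012 : ∃ t, chk3 f_pm_012 t 166 6 1 = true :=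
  ⟨(b (b (a (a (b (l 16730560) (l 16726376)) (b (l 16729984) (l 16725736))) (a (b (l 16729336) (l 16725072)) (b (l 16728680) (l 16724376)))) (a (b (a (l 16732440) (l 16721264)) (b (c (l 16719640) (l 16715824)) (l 16713840))) (a (b (l 16720560) (b (l 16716680) (l 16712624))) (b (l 16719824) (b (l 16736808) (c (l 16713672) (l 16709304))))))) (b (a (a (b (b (l 16710096) (c (l 16707696) (l 16703824))) (b (l 16701224) (l 16696376))) (b (b (l 16730208) (l 16704744)) (b (l 16699880) (l 16694984)))) (a (b (b (l 16729168) (l 16703336)) (b (l 16698408) (l 16693448))) (b (b (l 16706672) (l 16701720)) (c (b (l 16698456) (l 16693216)) (l 16692480))))) (a (b (c (b (l 16692040) (l 16686840)) (l 16707984)) (b (l 16691432) (l 16676080))) (a (b (b (l 16688464) (l 16683464)) (b (l 16678488) (l 16673552))) (b (b (l 16686672) (l 16681632)) (b (l 16676616) (l 16671648))))))), by decide +kernel⟩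

def k14_pm_012 : ∃ t, chk3 f_pm_012 t 167 12 1 = true :=
  ⟨(b (b (a (a (l 16727976) (l 16748144)) (a (a (a (l 16726664) (a (l 16726360) (a (a (l 16726136) (b (l 16727344) (l 16724480))) (l 16725816)))) (l 16725584)) (l 16724960))) (a (a (l 16723640) (a (l 16723056) (b (l 16723784) (l 16721344)))) (a (a (a (b (l 16723264) (l 16720376)) (a (b (l 16722520) (l 16719280)) (a (a (l 16720128) (b (l 16721272) (c (l 16720328) (l 16715624)))) (l 16719416)))) (l 16719168)) (l 16718496)))) (a (a (b (b (l 16720224) (c (l 16719992) (l 16715352))) (b (c (l 16716736) (l 16712328)) (c (l 16711872) (l 16707600)))) (a (b (b (l 16719496) (l 16716592)) (b (l 16712976) (l 16708120))) (a (b (l 16727768) (b (l 16711968) (l 16707080))) (b (l 16716480) (b (l 16711136) (l 16706232)))))) (a (a (a (b (b (l 16717112) (l 16713768)) (a (b (l 16710376) (l 16705464)) (b (l 16709736) (l 16704816)))) (a (b (b (l 16715984) (c (l 16714672) (l 16710448))) (a (b (l 16709136) (l 16704208)) (b (c (l 16710472) (l 16706632))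 (c (l 16705480) (l 16701752))))) (a (a (b (b (l 16715160) (l 16711736)) (b (b (l 16709072) (l 16706792)) (a (l 16703176) (l 16708120)))) (b (c (a (a (a (l 16715208) (a (l 16715072) (b (l 16716712) (l 16713088)))) (l 16714840)) (l 16714832)) (b (l 16712400) (l 16709112))) (b (a (a (a (l 16707552) (a (l 16707424) (c (b (l 16710256) (l 16707920)) (l 16705376)))) (l 16707160)) (l 16707144)) (a (a (a (l 16702616) (a (l 16702480) (a (l 16702368) (b (l 16703528) (l 16700992))))) (l 16702216)) (l 16702200))))) (b (c (l 16714792) (l 16710536)) (b (l 16707112) (l 16702160)))))) (b (c (l 16714520) (l 16710264)) (b (l 16706824) (l 16701864)))) (b (c (l 16713800) (l 16709528)) (b (l 16706056) (l 16701072)))))), by decide +kernel⟩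

def k15_pm_012 : ∃ t, chk3 f_pm_012 t 334 13 1 = true :=
  ⟨(a (b (b (a (b (l 16705336) (l 16700336)) (b (l 16704296) (l 16699272))) (c (b (l 16701672) (l 16696376)) (b (l 16692952) (l 16688072)))) (b (b (c (l 16685792) (l 16683216)) (l 16689984)) (b (l 16674440) (l 16669456)))) (a (b (b (c (b (l 16705040) (l 16699840)) (l 16698608)) (c (b (l 16694576) (l 16689248)) (l 16688752))) (b (b (l 16682704) (l 16677592)) (b (l 16672520) (l 16667536)))) (b (a (b (b (l 16702040) (l 16696952)) (b (l 16691840) (l 16686704))) (b (c (b (l 16703032) (l 16697808)) (l 16696736)) (b (l 16701424) (l 16685792)))) (b (b (c (l 16682208) (l 16679840)) (l 16675960)) (b (l 16670888) (l 16665904)))))), by decide +kernel⟩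

def k16_pm_012 : ∃ t, chk3 f_pm_012 t 335 13 1 = true :=
  ⟨(a (a (a (b (b (a (b (l 16700384) (l 16695280)) (c (b (l 16701536) (l 16696296)) (l 16695360))) (c (b (l 16699168) (l 16685944)) (l 16696184))) (b (b (l 16679472) (l 16674352)) (b (l 16669288) (l 16664328)))) (a (b (a (b (b (l 16699120) (l 16694000)) (b (l 16688848) (l 16683696))) (b (c (b (l 16700304) (l 16695056)) (l 16694240)) (b (l 16688280) (l 16683120)))) (b (b (l 16678216) (l 16673104)) (b (l 16668056) (l 16663120)))) (a (a (b (b (c (b (l 16702248) (l 16704864)) (l 16693632)) (b (l 16698120) (l 16682480))) (b (b (l 16677336) (l 16672232)) (l 16685768))) (a (a (b (a (b (b (l 16697528) (l 16692400)) (b (l 16687256) (l 16682104))) (a (b (b (l 16697392) (l 16692264)) (b (l 16687120) (l 16681968))) (b (a (b (l 16697280) (l 16692160)) (c (b (l 16698872) (l 16693624)) (l 16692928))) (c (b (l 16688352) (l 16682992)) (l 16703960))))) (b (a (l 16674408) (b (l 16676672) (l 16671568))) (b (l 16666600) (l 16661944)))) (b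 (b (b (l 16697112) (l 16691984)) (b (l 16686832) (l 16681672))) (b (l 16673984) (l 16664112)))) (b (b (b (l 16697104) (l 16691968)) (b (l 16686816) (l 16681664))) (b (l 16673968) (l 16664096))))) (b (b (b (l 16697056) (l 16691928)) (b (l 16686776) (l 16681616))) (b (l 16673920) (l 16664048)))))) (b (b (b (l 16696752) (l 16691608)) (b (l 16686448) (l 16681280))) (b (l 16673576) (l 16663680)))) (b (b (b (l 16695936) (l 16690768)) (b (l 16685584) (l 16680392))) (b (b (l 16675216) (l 16670088)) (l 16662704)))), by decide +kernel⟩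

def k17_pm_012 : ∃ t, chk3 f_pm_012 t 82 7 1 = true :=
  ⟨(b (b (a (b (c (l 16691912) (l 16678960)) (c (l 16690816) (l 16670816))) (b (b (l 16670624) (l 16671264)) (c (l 16685112) (l 16665016)))) (b (a (l 16681768) (a (l 16656584) (b (l 16655936) (l 16651288)))) (a (b (c (l 16653272) (l 16653728)) (c (l 16669704) (l 16617616))) (c (a (l 16647664) (l 16645624)) (l 16646824))))) (b (a (b (c (l 16642912) (l 16643216)) (l 16634872)) (b (l 16638800) (l 16630608))) (b (a (l 16626536) (l 16622048)) (a (l 16617872) (l 16613152))))), by decide +kernel⟩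

def k18_pm_012 : ∃ t, chk3 f_pm_012 t 83 7 1 = true :=
  ⟨(b (a (b (b (a (b (l 16671272) (l 16666576)) (b (l 16667728) (l 16662984))) (a (l 16680752) (a (l 16678176) (l 16679104)))) (b (a (b (l 16652904) (l 16648920)) (l 16648576)) (a (l 16643400) (l 16641168)))) (a (a (b (b (l 16662192) (l 16675520)) (l 16653704)) (b (b (b (l 16672256) (l 16673280)) (l 16671440)) (b (l 16645504) (l 16637896)))) (a (a (a (b (b (l 16679000) (l 16651528)) (l 16640816)) (a (b (b (l 16657552) (l 16651168)) (l 16650856)) (b (b (l 16678096) (b (l 16652376) (l 16669960))) (b (l 16664568) (l 16640992))))) (b (l 16675960) (l 16639400))) (b (b (l 16655696) (l 16649344)) (l 16638488))))) (a (b (b (l 16644176) (l 16636408)) (b (l 16617096) (l 16607920))) (a (a (b (b (l 16631248) (l 16622648)) (b (l 16613616) (l 16604224))) (b (b (l 16629696) (l 16620960)) (b (l 16611792) (l 16602256)))) (b (a (a (a (b (l 16628512) (l 16619664)) (a (b (l 16627960) (l 16619048)) (b (a (a (l 16627608) (l 16648264)) (l 16627184))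 (b (l 16662528) (l 16663152))))) (b (l 16626864) (l 16617856))) (b (l 16626008) (l 16617024))) (a (a (a (b (l 16610368) (l 16600712)) (a (b (l 16609680) (l 16599944)) (b (a (a (l 16609216) (l 16619312)) (l 16608688)) (b (c (l 16601936) (l 16601560)) (c (l 16596896) (l 16596640)))))) (b (l 16608392) (l 16598560))) (b (l 16607584) (l 16597776))))))), by decide +kernel⟩

def k19_pm_012 : ∃ t, chk3 f_pm_012 t 21 6 1 = true :=
  ⟨(b (b (a (b (b (l 16740448) (l 16737456)) (a (b (l 16716264) (l 16712768)) (b (l 16709568) (l 16705760)))) (b (l 16726328) (a (l 16701080) (l 16694704)))) (a (a (b (b (c (l 16711432) (l 16706904)) (c (l 16718080) (l 16703416))) (c (b (b (l 16704616) (l 16702192)) (a (l 16700272) (l 16696168))) (b (l 16699576) (l 16694488)))) (b (b (l 16701896) (l 16718920)) (a (b (l 16706088) (l 16700736)) (b (l 16691728) (l 16686232))))) (b (a (b (l 16694840) (l 16690608)) (l 16685784)) (c (b (a (l 16687968) (l 16680592)) (a (l 16682192) (l 16674504))) (b (l 16680200) (l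 16695360)))))) (b (b (a (c (b (a (a (l 16700216) (l 16690720)) (a (l 16686528) (l 16682384))) (a (a (l 16689600) (l 16685216)) (a (l 16680880) (l 16676592)))) (b (a (l 16689272) (l 16680752)) (a (l 16684072) (l 16675272)))) (a (a (b (l 16676488) (l 16681176)) (b (l 16672448) (l 16666504))) (c (b (l 16668272) (l 16661992)) (l 16661456)))) (a (b (b (c (a (l 16683280) (l 16674400)) (l 16696624)) (c (a (l 16680520) (l 16671504)) (l 16693984))) (a (a (l 16677440) (l 16672768)) (a (l 16668152) (l 16663592)))) (c (b (a (c (l 16664904) (l 16663488)) (l 16655680)) (a (l 16668624) (l 16649328))) (a (l 16672272) (l 16659960))))) (b (b (c (a (a (l 16670792) (l 16661320)) (a (l 16652040) (l 16642960))) (a (a (l 16668680) (l 16659104)) (l 16655656))) (c (a (a (l 16665248) (l 16655504)) (a (l 16645960) (l 16636608))) (a (a (l 16663688) (l 16653856)) (l 16650032)))) (b (a (a (l 16659320) (c (l 16649744) (l 16648736))) (c (a (l 16639928) (l 16630304)) (a (l 16638880) (l 16629248)))) (a (a (l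 16654496) (l 16644152)) (a (b (l 16635328) (l 16632688)) (c (l 16624112) (l 16623792)))))))), by decide +kernel⟩

def k20_pm_012 : ∃ t, chk3 f_pm_012 t 21 7 1 = true :=
  ⟨(b (b (a (a (b (l 16649600) (l 16653864)) (b (l 16639056) (c (l 16632424) (l 16632864)))) (a (b (l 16628640) (a (l 16624968) (l 16619816))) (b (c (l 16612920) (l 16618184)) (b (l 16613728) (l 16610560))))) (a (b (a (l 16636616) (l 16626392)) (l 16624248)) (b (a (l 16616000) (l 16616272)) (l 16604432)))) (b (b (a (a (l 16620856) (l 16611616)) (l 16597488)) (a (a (l 16654000) (l 16603216)) (l 16589768))) (b (a (a (l 16613272) (l 16594248)) (l 16581384)) (a (a (l 16603576) (l 16595296)) (l 16577712))))), by decide +kernel⟩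

def k21_pm_012 : ∃ t, chk3 f_pm_012 t 11 6 1 = true :=
  ⟨(b (b (a (a (b (l 16693432) (l 16706608)) (b (l 16682360) (l 16674096))) (b (l 16667968) (l 16700272))) (b (a (a (a (l 16679056) (l 16672512)) (l 16663168)) (a (l 16651576) (l 16641448))) (a (a (b (a (l 16671480) (l 16664536)) (a (l 16665160) (l 16657920))) (b (l 16654432) (l 16647424))) (a (l 16658880) (l 16625832))))) (a (b (a (b (a (c (b (l 16660480) (l 16653912)) (l 16653544)) (b (l 16651176) (l 16644440))) (c (b (a (l 16647312) (l 16639120)) (a (l 16640696) (l 16632216))) (a (l 16641000) (l 16632752)))) (b (c (a (l 16641904) (l 16634544)) (l 16634728)) (a (b (l 16629800) (l 16633328)) (b (l 16622056) (l 16614800))))) (a (a (b (c (b (l 16634056) (l 16627432)) (l 16628752)) (b (c (l 16620864) (l 16619848)) (l 16614448))) (b (c (b (l 16625320) (l 16618432)) (l 16619960)) (b (l 16616592) (l 16604984)))) (b (a (c (b (l 16616728) (l 16609576)) (l 16611376)) (b (l 16607616) (l 16600504))) (a (b (l 16602336) (l 16595712))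 (b (l 16593496) (l 16586600)))))) (a (b (b (c (l 16644632) (l 16620496)) (c (a (l 16611672) (l 16604000)) (l 16605504))) (b (a (b (l 16599464) (l 16592080)) (a (l 16589640) (l 16585608))) (a (b (l 16584792) (l 16577648)) (b (l 16576240) (l 16568816))))) (b (b (l 16629760) (c (l 16613536) (l 16590792))) (b (c (a (l 16579616) (l 16571568)) (l 16575088)) (c (a (l 16563128) (l 16554416)) (l 16559832))))))), by decide +kernel⟩

def k22_pm_012 : ∃ t, chk3 f_pm_012 t 11 7 1 = true :=
  ⟨(b (b (b (b (a (a (a (a (l 16612184) (l 16607144)) (a (l 16602152) (l 16597208))) (a (a (l 16592312) (l 16587464)) (a (l 16582664) (l 16577920)))) (a (c (a (l 16569936) (l 16560464)) (l 16566672)) (a (l 16552624) (l 16543752)))) (a (a (a (l 16606696) (l 16596688)) (a (l 16586784) (l 16576960))) (a (c (a (l 16566328) (l 16556304)) (l 16562560)) (c (a (l 16546216) (l 16536176)) (l 16543704))))) (a (a (c (a (b (l 16603432) (l 16600312)) (b (l 16593456) (l 16590424))) (a (l 16601848) (l 16591864))) (a (c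 (b (l 16583576) (c (l 16580360) (l 16580832))) (l 16582056)) (c (b (l 16573768) (c (l 16570656) (l 16571208))) (l 16572408)))) (a (c (b (a (l 16564000) (l 16554248)) (a (c (l 16561016) (l 16561680)) (l 16551912))) (b (l 16559688) (l 16556664))) (c (b (a (l 16544480) (l 16534648)) (a (l 16542408) (l 16532896))) (b (l 16541040) (l 16538240)))))) (b (a (b (a (a (l 16597328) (l 16587456)) (a (l 16577744) (l 16568200))) (a (l 16589160) (a (l 16574568) (l 16565056)))) (a (a (b (l 16558800) (l 16555720)) (b (l 16549528) (l 16546536))) (c (b (a (l 16540088) (l 16530840)) (l 16532992)) (l 16554736)))) (a (a (a (l 16589256) (l 16579384)) (b (l 16566560) (l 16563280))) (a (a (l 16550936) (l 16547072)) (b (l 16530016) (l 16526904)))))) (b (a (a (b (l 16577784) (l 16571336)) (b (l 16558344) (l 16551824))) (b (a (a (l 16544352) (l 16535288)) (a (l 16526424) (l 16517768))) (a (l 16533152) (b (l 16517080) (l 16513744))))) (b (a (l 16599600) (a (l 16526672) (l 16508808))) (a (a (l 16555912) (l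 16538992)) (a (l 16520456) (l 16502448)))))), by decide +kernel⟩

def k23_pm_012 : ∃ t, chk3 f_pm_012 t 3 2 1 = true :=
  ⟨(a (b (l 2) (a (b (l 2) (b (l 2) (a (l 16671664) (l 2)))) (l 2))) (l 2)), by decide +kernel⟩

def k24_pm_012 : ∃ t, chk3 f_pm_012 t 3 6 1 = true :=
  ⟨(a (a (b (b (a (l 16690240) (l 16640752)) (a (b (a (l 16632720) (l 16625520)) (a (l 16615272) (l 16607144))) (b (l 16618272) (l 16600168)))) (a (b (a (b (l 16596104) (c (l 16578200) (l 16576864))) (b (l 16586072) (l 16565944))) (a (a (b (l 16564048) (a (l 16549248) (l 16545120))) (b (l 16556320) (l 16533728))) (b (a (l 16549200) (l 16544880)) (a (c (l 16529440) (l 16532072)) (l 16526632))))) (b (b (l 16578024) (l 16556648)) (b (a (l 16539552) (l 16533488)) (a (l 16521064) (l 16514096)))))) (b (b (l 2) (a (l 16604656) (l 2))) (b (a (b (l 16571936) (l 16548792)) (l 16601040)) (a (b (l 16526784) (a (l 16508344) (l 16503952))) (b (l 16523176) (l 16500200)))))) (b (l 2) (a (b (l 2) (a (b (l 2) (l 16501584)) (l 2)))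 (l 2)))), by decide +kernel⟩

def k25_pm_012 : ∃ t, chk3 f_pm_012 t 6 14 1 = true :=
  ⟨(a (a (b (b (b (a (c (l 16528392) (l 16531848)) (c (l 16513472) (l 16517192))) (a (c (a (l 16526240) (l 16516400)) (l 16525416)) (a (c (l 16507280) (l 16512312)) (l 16505344)))) (a (a (c (b (l 16524704) (l 16523336)) (l 16525960)) (b (l 16516856) (l 16515192))) (a (c (b (l 16504936) (l 16504336)) (l 16508024)) (c (l 16498832) (l 16501656))))) (a (b (c (a (l 16520608) (l 16511480)) (l 16516080)) (b (l 16512608) (l 16509728))) (b (c (a (l 16502608) (l 16496528)) (l 16499896)) (a (l 16498712) (l 16492128))))) (b (b (a (a (l 16505528) (l 16501576)) (c (l 16495680) (l 16495688))) (a (c (b (l 16492104) (l 16490904)) (l 16493240)) (b (c (l 16483792) (l 16484584)) (l 16481920)))) (b (a (a (l 16491424) (l 16485920)) (c (l 16478576) (l 16476464))) (a (c (l 16484160) (l 16481128)) (c (l 16473520) (l 16469344)))))) (a (a (b (b (l 16489448) (b (c (l 16476864) (l 16475864)) (l 16472408))) (b (c (l 16469016)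 (l 16465816)) (c (l 16463496) (l 16458344)))) (b (b (l 16484048) (b (l 16470240) (l 16463752))) (b (c (l 16460424) (l 16456080)) (c (l 16453832) (l 16447816))))) (a (b (b (l 16480128) (a (l 16462640) (l 16460272))) (b (l 16450264) (l 16442040))) (b (b (l 16477816) (c (l 16460808) (l 16453808))) (b (l 16443512) (l 16433432)))))), by decide +kernel⟩

def k26_pm_012 : ∃ t, chk3 f_pm_012 t 6 15 1 = true :=
  ⟨(a (b (a (a (b (a (l 16509296) (l 16501000)) (l 16519600)) (b (a (l 16492984) (l 16486160)) (a (l 16486656) (l 16479560)))) (b (a (l 16497688) (b (l 16466728) (l 16463048))) (a (l 16469640) (l 16457344)))) (a (b (a (l 16491984) (a (l 16480040) (l 16472680))) (a (l 16485448) (l 16469608))) (b (a (l 16462288) (l 16449456)) (a (l 16455056) (l 16441680))))) (b (a (b (a (l 16474896) (l 16443528)) (a (l 16445872) (l 16435088))) (b (a (l 16433424) (l 16424072)) (a (l 16424784) (l 16414624)))) (a (b (a (l 16437576) (l 16426408)) (a (l 16429368) (l 16417880))) (b (a (l 16415800) (l 16405520))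 (a (l 16406968) (l 16396448)))))), by decide +kernel⟩

def k27_pm_012 : ∃ t, chk3 f_pm_012 t 7 7 1 = true :=
  ⟨(b (a (b (a (b (c (l 16483912) (l 16471688)) (a (c (l 16460104) (l 16450816)) (l 16456160))) (a (b (l 2) (l 16458816)) (l 2))) (a (b (a (l 16459752) (l 16457776)) (a (l 16426760) (l 16422904))) (b (c (b (l 16451112) (l 16440456)) (l 16431296)) (c (l 16480352) (l 16413728))))) (a (a (b (l 2) (b (l 2) (l 16425264))) (l 2)) (l 2))) (a (b (a (b (a (l 16415680) (l 16410224)) (a (l 16405640) (l 16398816))) (b (c (l 16412376) (l 16398472)) (l 16391928))) (a (b (a (l 16395832) (l 16388720)) (a (l 16386744) (l 16379112))) (b (l 16379656) (a (l 16372440) (l 16366264))))) (b (a (b (c (l 16438112) (l 16398872)) (a (l 16389680) (l 16391232))) (b (l 2) (l 4394992247))) (a (b (l 16395064) (l 16360224)) (b (l 16378416) (a (l 16358968) (l 16361336))))))), by decide +kernel⟩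

theorem s28_pm_012 : ∃ t, chk3 f_pm_012 t 6 7 1 = true := ex3_b k25_pm_012 k26_pm_012

theorem s29_pm_012 : ∃ t, chk3 f_pm_012 t 3 7 1 = true := ex3_a s28_pm_012 k27_pm_012

theorem s30_pm_012 : ∃ t, chk3 f_pm_012 t 3 3 1 = true := ex3_b k24_pm_012 s29_pm_012

theorem s31_pm_012 : ∃ t, chk3 f_pm_012 t 3 1 1 = true := ex3_b k23_pm_012 s30_pm_012

theorem s32_pm_012 : ∃ t, chk3 f_pm_012 t 11 3 1 = true := ex3_b k21_pm_012 k22_pm_012

theorem s33_pm_012 : ∃ t, chk3 f_pm_012 t 21 3 1 = true := ex3_b k19_pm_012 k20_pm_012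

theorem s34_pm_012 : ∃ t, chk3 f_pm_012 t 41 7 1 = true := ex3_a k17_pm_012 k18_pm_012

theorem s35_pm_012 : ∃ t, chk3 f_pm_012 t 167 13 1 = true := ex3_a k15_pm_012 k16_pm_012

theorem s36_pm_012 : ∃ t, chk3 f_pm_012 t 167 6 1 = true := ex3_b k14_pm_012 s35_pm_012

theorem s37_pm_012 : ∃ t, chk3 f_pm_012 t 83 6 1 = true := ex3_a k13_pm_012 s36_pm_012

theorem s38_pm_012 : ∃ t, chk3 f_pm_012 t 41 6 1 = true := ex3_a k12_pm_012 s37_pm_012

theorem s39_pm_012 : ∃ t, chk3 f_pm_012 t 41 3 1 = true := ex3_b s38_pm_012 s34_pm_012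

theorem s40_pm_012 : ∃ t, chk3 f_pm_012 t 40 3 1 = true := ex3_b k10_pm_012 k11_pm_012

theorem s41_pm_012 : ∃ t, chk3 f_pm_012 t 20 3 1 = true := ex3_a s40_pm_012 s39_pm_012

theorem s42_pm_012 : ∃ t, chk3 f_pm_012 t 10 3 1 = true := ex3_a s41_pm_012 s33_pm_012

theorem s43_pm_012 : ∃ t, chk3 f_pm_012 t 5 3 1 = true := ex3_a s42_pm_012 s32_pm_012

theorem s44_pm_012 : ∃ t, chk3 f_pm_012 t 5 2 1 = true := ex3_a k8_pm_012 k9_pm_012

theorem s45_pm_012 : ∃ t, chk3 f_pm_012 t 5 1 1 = true := ex3_b s44_pm_012 s43_pm_012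

theorem s46_pm_012 : ∃ t, chk3 f_pm_012 t 19 7 1 = true := ex3_b k6_pm_012 k7_pm_012

theorem s47_pm_012 : ∃ t, chk3 f_pm_012 t 18 15 1 = true := ex3_b k4_pm_012 k5_pm_012

theorem s48_pm_012 : ∃ t, chk3 f_pm_012 t 18 7 1 = true := ex3_b k3_pm_012 s47_pm_012

theorem s49_pm_012 : ∃ t, chk3 f_pm_012 t 9 7 1 = true := ex3_a s48_pm_012 s46_pm_012

theorem s50_pm_012 : ∃ t, chk3 f_pm_012 t 9 3 1 = true := ex3_b k2_pm_012 s49_pm_012

theorem s51_pm_012 : ∃ t, chk3 f_pm_012 t 4 3 1 = true := ex3_a k1_pm_012 s50_pm_012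

theorem s52_pm_012 : ∃ t, chk3 f_pm_012 t 4 1 1 = true := ex3_b k0_pm_012 s51_pm_012

theorem s53_pm_012 : ∃ t, chk3 f_pm_012 t 2 1 1 = true := ex3_a s52_pm_012 s45_pm_012

theorem s54_pm_012 : ∃ t, chk3 f_pm_012 t 1 1 1 = true := ex3_a s53_pm_012 s31_pm_012

theorem c_pm_012 : CertB 0 536870912 536870912 536870912 649613803 48318383 3 eng mog cd0q0 cd1q1 pd2 true true false .pnp 0 1 2
    ndB0q0 ndB1q1 pcB2 Cut.none Ext.none :=
  certB2 (fam := true) (s1 := true) (s2 := false) (a := 0) (b := 1) (c := 2) (cn := .pnp) (n1 := ndB0q0) (n2 := ndB1q1) (pc := pcB2) (cut := Cut.none) (xt := Ext.none) (P1 := 0) (W1 := 536870912) (P2 := 536870912) (W2 := 536870912) (P3 := 649613803) (W3 := 48318383) (N0 := 3) (En := eng) (mo := mog) (C1 := cd0q0) (C2 := cd1q1) (C3 := pd2)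
    rfl (fun _ => rfl) s54_pm_012

noncomputable def cut_pm_022_a : Cut := Cut.of [[⟨0, 0, 0, 67108864⟩, ⟨1, 1, 0, 67108864⟩, ⟨2, 1, 0, 67108864⟩]]

noncomputable def xt_pm_022_a : Ext := extD2 3 ⟨7, 3, 3, 10, 377, 200, 77, 100, 17, 50, 3, 16⟩ eng cd0q0 cd1q2a pd2 true true false .pp 0 2 2 rfl ndB0q0 ndB1q2a pcB2

noncomputable def f_pm_022_a : ℕ → ℕ → ℕ → ℕ → Bool := onCell 1073741824 536870912 0 536870912 649613803 48318383
    (rowB 3 eng mog cd0q0 cd1q2a pd2 2 true true false .pp 0 2 2 (qsf 0 536870912 0 536870912 2) ndB0q0 ndB1q2a pcB2 cut_pm_022_a xt_pm_022_a)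

def k0_pm_022_a : ∃ t, chk3 f_pm_022_a t 8 1 1 = true :=
  ⟨(b (l 1) (b (l 1) (b (a (l 1) (b (a (l 1) (a (l 1) (b (l 1) (b (l 16633648) (l 16641248))))) (a (l 6) (a (l 6) (a (l 6) (b (l 16651192) (l 16661240))))))) (a (l 6) (a (l 6) (a (l 6) (a (l 6) (a (l 6) (b (b (l 16678448) (l 16691464)) (b (l 16675928) (b (l 16700200) (l 16702024)))))))))))), by decide +kernel⟩

def k1_pm_022_a : ∃ t, chk3 f_pm_022_a t 9 2 1 = true :=
  ⟨(b (l 1) (a (l 1) (b (l 1) (a (l 1) (a (l 1) (b (l 1) (a (l 16525344) (b (l 16500608) (l 16511256))))))))), by decide +kernel⟩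

def k2_pm_022_a : ∃ t, chk3 f_pm_022_a t 9 6 1 = true :=
  ⟨(b (a (l 1) (a (b (b (l 1) (l 16525840)) (b (l 16139242311) (a (l 16550304) (l 16551376)))) (c (b (a (l 16529440) (b (l 16526064) (l 16535816))) (b (l 16524680) (l 16556128))) (b (b (l 16534552) (l 16524520)) (b (l 16535936) (l 16547472)))))) (a (a (a (l 1) (b (l 1) (b (l 16590928) (l 16604880)))) (a (b (b (l 1) (l 16576000)) (b (l 16590520) (l 16603656))) (b (b (l 16562352) (l 16576120)) (b (l 16589744) (c (l 16605440) (l 16598160)))))) (b (a (b (a (l 16562992) (l 16479384)) (a (l 16575912) (l 16512448))) (b (a (l 16521272) (l 16562848)) (l 16490080))) (a (c (b (l 16591208) (l 16602016)) (b (l 16584104) (l 16595928))) (c (l 16590768) (l 16587048)))))), by decide +kernel⟩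

def k3_pm_022_a : ∃ t, chk3 f_pm_022_a t 9 7 1 = true :=
  ⟨(b (a (b (a (b (a (l 16620488) (l 16618736)) (a (l 16647904) (c (l 16635384) (l 16629184)))) (b (c (l 16618528) (l 16612032)) (a (l 16608720) (l 16626624)))) (a (b (a (l 16659272) (l 16624440)) (a (c (l 16664152) (l 16659840)) (l 16658056))) (b (c (l 16641824) (l 16637688)) (l 16672544)))) (a (b (b (l 16610512) (l 16621656)) (b (l 16630656) (l 16657768))) (b (c (l 16625768) (l 16607904)) (c (b (l 16614656) (l 16641928)) (l 16619384))))) (a (b (a (b (c (l 16695208) (l 16671480)) (b (l 16701144) (l 16704000))) (b (c (l 16657904) (l 16659864)) (c (a (l 16668096) (l 16659752)) (l 16664744)))) (b (a (b (c (l 16685368) (l 16686120)) (a (l 16692448) (l 16683472))) (a (b (l 16672320) (l 16674544)) (l 16664728))) (a (b (a (l 16694536) (l 16685480)) (a (c (b (l 16696432) (l 16697416)) (l 16701056)) (c (l 16693224) (l 16686504)))) (b (a (l 16676464) (l 16667616)) (a (c (l 16679088) (l 16677224)) (c (l 16670368) (l 16668088)))))))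 (b (a (a (b (l 16646152) (l 16651408)) (b (l 16638000) (l 16643080))) (b (c (l 16626432) (l 16647208)) (a (l 16634952) (l 16627008)))) (b (a (a (l 16656080) (l 16647600)) (a (l 16639296) (l 16631168))) (a (a (b (l 16658840) (c (l 16661736) (l 16659016))) (b (l 16650240) (c (l 16653264) (l 16650096)))) (a (b (l 16641800) (c (l 16644952) (l 16641328))) (b (l 16633528) (c (l 16636808) (l 16632728))))))))), by decide +kernel⟩

def k4_pm_022_a : ∃ t, chk3 f_pm_022_a t 10 4 1 = true :=
  ⟨(a (a (l 1) (b (a (l 1) (c (b (l 16441656) (l 16446448)) (l 16448328))) (b (a (l 1) (c (l 16453816) (l 16459008))) (c (a (l 16466192) (l 16484376)) (l 16463432))))) (a (b (c (a (b (l 16439752) (l 16444328)) (b (b (l 16479864) (l 16438920)) (l 16463768))) (a (l 16444808) (b (l 16460192) (l 16444216)))) (c (a (b (l 16451576) (c (l 16460784) (l 16461640))) (b (a (l 16450160) (l 16449688)) (a (l 16459512) (a (l 16458840) (l 16459048))))) (b (a (l 16455272) (l 16452168)) (a (l 16465664) (l 16493888)))))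 (b (c (b (b (l 16444856) (l 16445184)) (l 16448320)) (b (a (l 16442752) (l 16448408)) (l 16449600))) (c (b (l 16454592) (a (l 16461344) (l 16464632))) (b (l 16456728) (l 16466160)))))), by decide +kernel⟩

def k5_pm_022_a : ∃ t, chk3 f_pm_022_a t 10 5 1 = true :=
  ⟨(a (b (a (a (l 1) (b (c (l 16472040) (l 16461464)) (c (l 138008809639) (l 16472512)))) (c (b (a (l 16476128) (l 16475048)) (b (l 16485352) (l 16491256))) (a (b (a (l 16465840) (l 16447608)) (l 16477544)) (b (l 16472432) (l 16482088))))) (a (c (b (a (l 16494592) (c (l 16499496) (l 16495520))) (b (a (l 16508064) (l 16510264)) (l 16518648))) (b (a (l 16482592) (l 16508112)) (a (l 16502240) (l 16505528)))) (c (b (b (l 16497680) (l 16504912)) (l 16494368)) (b (a (l 16512216) (l 16494936)) (a (l 16508456) (l 16511016)))))) (b (a (b (a (c (c (l 16471984) (l 16473432)) (l 16477104)) (c (a (l 16470888) (a (l 16470160) (l 16470272))) (l 16527424))) (c (a (c (l 16484304) (l 16486048)) (a (b (l 16480000) (l 16486288)) (a (l 16482392)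 (l 16482400)))) (a (l 16486160) (l 16487808)))) (b (c (c (a (l 16472040) (l 16474568)) (a (l 16472624) (l 16475328))) (l 16477880)) (c (c (b (l 16481624) (l 16487416)) (l 16485592)) (l 16487456)))) (a (c (b (a (c (l 16497304) (l 16499032)) (c (a (l 16495584) (l 16515744)) (a (l 16496776) (l 16516632)))) (a (l 16510264) (a (l 16508032) (a (l 16506984) (l 16506776))))) (a (b (l 16498216) (l 16513240)) (b (l 16500416) (l 16511616)))) (c (b (c (a (l 16495768) (l 16497048)) (l 16497512)) (c (l 16486792) (l 16508528))) (b (l 16498152) (l 16511208)))))), by decide +kernel⟩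

def k6_pm_022_a : ∃ t, chk3 f_pm_022_a t 11 2 1 = true :=
  ⟨(a (a (b (b (c (b (l 16454832) (l 16456672)) (b (l 16456024) (l 16458456))) (c (a (b (l 16460024) (l 16467472)) (b (l 16463096) (l 16469880))) (b (l 16464264) (l 16470656)))) (b (b (b (c (l 16475312) (l 16474352)) (c (l 16480312) (l 16477584))) (a (l 16540152) (c (l 16488368) (l 16483224)))) (b (c (l 16498752) (a (l 16494752) (l 16493040))) (b (l 16505416) (l 16511328))))) (b (b (b (l 16462848) (l 16463720)) (b (l 16488752) (b (l 16470808) (l 16473240)))) (b (b (c (l 16500728) (b (l 16452000) (l 16476152))) (c (a (l 16487952) (l 16487952)) (l 16482008))) (b (c (a (l 16497496) (l 16497088)) (l 16512216)) (c (l 16506920) (b (l 16498952) (l 16504472))))))) (b (b (b (l 16470464) (a (l 16468232) (l 16471312))) (b (a (l 16469496) (l 16472272)) (a (c (l 16474736) (l 16469768)) (c (b (l 16476512) (l 16479000)) (l 16471704))))) (a (b (b (c (c (b (l 16479680) (l 16483448)) (l 16480088)) (l 16474880)) (c (a (l 16456872) (l 16489056))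 (l 16481760))) (b (b (l 16492088) (a (l 16496496) (l 16496352))) (c (b (l 16503288) (l 16507448)) (l 16499328)))) (b (b (b (l 16479248) (l 16482416)) (b (l 16485664) (l 16489176))) (b (b (l 16495616) (l 16496712)) (b (l 16500368) (l 16504056))))))), by decide +kernel⟩

def k7_pm_022_a : ∃ t, chk3 f_pm_022_a t 5 6 1 = true :=
  ⟨(a (a (a (b (b (c (b (l 16528088) (l 16536912)) (a (l 16523008) (l 16525120))) (c (l 16550568) (a (l 16543384) (l 16544056)))) (b (c (l 16565256) (l 16563576)) (c (l 16578360) (l 16581928)))) (b (b (a (l 16614624) (a (l 16529432) (a (l 16527744) (b (l 16523408) (l 16529912))))) (a (l 16546224) (a (l 16542448) (b (l 16589432) (l 16597048))))) (a (b (l 16558824) (l 16570600)) (b (a (l 16554840) (a (l 16553064) (l 16552088))) (a (l 16566416) (a (l 16564592) (c (l 16584360) (l 16564728)))))))) (b (b (b (a (a (l 16520760) (c (l 16500256) (l 16519328))) (l 16516960)) (a (c (l 16523872) (l 16527368)) (l 16522176))) (a (b (l 16562680) (l 16558192)) (c (l 16529856)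 (l 16532040)))) (b (a (c (l 16566880) (l 16547536)) (c (l 16540632) (l 16541768))) (a (c (l 16578496) (l 16557856)) (c (l 16550616) (l 16550536)))))) (b (b (a (b (a (l 16517376) (l 16512816)) (l 16604272)) (a (b (l 16509616) (l 16513848)) (b (l 16507656) (l 16511000)))) (a (l 16590280) (a (l 16519480) (l 16515384)))) (a (b (l 16587504) (a (l 16544848) (l 16538728))) (a (l 16613928) (l 16596608))))), by decide +kernel⟩

def k8_pm_022_a : ∃ t, chk3 f_pm_022_a t 20 7 1 = true :=
  ⟨(a (b (b (c (c (l 16654496) (l 16591928)) (l 16593592)) (c (a (l 16607376) (l 16600704)) (b (l 16601584) (l 16606592)))) (b (b (a (l 16614720) (l 16607464)) (c (l 16637904) (l 16635616))) (b (a (l 16644248) (l 16636608)) (b (a (l 16625480) (l 16617680)) (a (c (l 16628864) (l 16624336)) (a (l 16620552) (l 16616664))))))) (b (a (b (c (l 16582568) (l 16583376)) (b (l 16591000) (l 16596240))) (a (b (l 16562552) (l 16589176)) (a (b (l 16597392) (l 16608240)) (b (b (l 16572744) (l 16641024)) (a (b (l 16605160)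 (l 16631280)) (l 16586112)))))) (a (b (b (l 16600600) (l 16604808)) (b (a (l 16610088) (l 16606584)) (c (a (l 16615008) (l 16611456)) (b (l 16607952) (a (l 16610272) (l 16606520)))))) (b (a (b (l 16595824) (l 16599912)) (a (b (l 16593888) (l 16597928)) (a (a (a (l 16595560) (b (l 16593712) (l 16618760))) (l 16595624)) (l 16594928)))) (b (a (l 16613824) (a (c (l 16603448) (l 16599280)) (a (a (a (l 16600800) (a (l 16600880) (l 16622120))) (l 16600896)) (l 16600160)))) (a (b (a (l 16605832) (l 16604256)) (a (l 16606568) (c (l 16607736) (l 16602216)))) (a (a (b (l 16603192) (l 16603880)) (b (l 16602672) (c (l 16606064) (l 16600640)))) (a (a (a (b (l 16602496) (l 16603176)) (a (b (l 16602584) (l 16603272)) (a (a (b (l 16602704) (l 16603400)) (b (l 16602888) (c (l 16606144) (l 16600952)))) (l 16603288)))) (b (l 16602608) (l 16603296))) (b (l 16601848) (l 16602520)))))))))), by decide +kernel⟩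

def k9_pm_022_a : ∃ t, chk3 f_pm_022_a t 21 7 1 = true :=
  ⟨(b (b (a (c (l 16590320) (l 16631464)) (b (l 16557624) (l 16561888))) (a (b (l 16597384) (l 16602224)) (b (l 16566416) (l 16570392)))) (a (b (b (l 16627120) (a (l 16592584) (l 16585240))) (b (a (l 16595776) (a (l 16589968) (l 16586216))) (b (a (l 16597320) (a (l 16591312) (l 16587416))) (a (c (l 16600608) (l 16595096)) (a (l 16591752) (a (l 16588696) (l 16586792))))))) (b (b (l 16573408) (l 16576200)) (b (l 16599216) (b (l 16578880) (a (l 16603352) (l 16575248))))))), by decide +kernel⟩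

def k10_pm_022_a : ∃ t, chk3 f_pm_022_a t 11 7 1 = true :=
  ⟨(b (a (a (b (l 16552680) (l 16580336)) (b (l 16544832) (l 16591648))) (b (l 16532344) (b (l 16534264) (l 16556032)))) (b (a (b (a (l 16562672) (l 16551592)) (a (l 16564392) (l 16552304))) (b (l 16597720) (a (l 16540192) (l 16528288)))) (a (b (a (l 16565312) (l 16552208)) (a (b (l 16565088) (a (l 16568056) (l 16560832))) (b (l 16551192) (c (l 16553368) (l 16546568))))) (b (a (l 16539160) (l 16526424)) (a (b (l 16537440) (c (l 16539456) (l 16532008))) (b (l 16524072) (c (l 16526088) (l 16517776)))))))), by decide +kernel⟩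

def k11_pm_022_a : ∃ t, chk3 f_pm_022_a t 6 4 1 = true :=
  ⟨(a (b (a (b (l 16480704) (a (l 16475856) (l 16481672))) (a (l 16490216) (l 16498400))) (a (b (a (c (l 16478712) (l 16472704)) (l 16481768)) (a (l 16479256) (l 16484144))) (b (a (l 16488176) (l 16495552)) (a (l 16490056) (l 16496936))))) (b (a (a (l 16507496) (a (l 16514880) (l 16520160))) (a (l 16549384) (b (l 16542672) (l 16537008)))) (a (b (a (l 16503864) (l 16534056)) (a (l 16504720) (l 16513376))) (b (a (l 16523144) (l 16533816)) (a (l 16522824) (l 16532880)))))), by decide +kernel⟩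

def k12_pm_022_a : ∃ t, chk3 f_pm_022_a t 6 5 1 = true :=
  ⟨(a (b (a (b (a (b (l 16482728) (c (l 16489232) (l 16480736))) (b (l 16487288) (c (l 16494072) (l 16484616)))) (a (b (a (l 16487752) (l 16489472)) (a (l 16490952) (l 16492456))) (b (a (l 16491440) (l 16493656)) (a (l 16494216) (l 16496224))))) (b (a (b (l 16492840) (l 16495296)) (b (l 16499352) (l 16501544))) (a (b (l 16497448) (l 16499704)) (b (l 16503328) (l 16505168))))) (a (b (a (b (a (l 16494432) (l 16495712)) (l 16498160)) (b (a (l 16497240) (l 16499032)) (l 16500648))) (a (b (l 16501120) (l 16504080)) (b (l 16502936) (l 16505160)))) (b (a (b (l 16502176) (l 16504144)) (b (l 16528160) (l 16508584))) (a (b (l 16505768) (l 16507256)) (b (l 16509536) (l 16510304)))))) (a (b (a (b (b (l 16506752) (l 16508680)) (b (l 16510096) (l 16511520))) (a (b (l 16534728) (b (l 16515712) (l 16516800))) (b (l 16517992) (l 16520160)))) (b (a (b (l 16513088) (l 16513912)) (a (b (l 16518016) (l 16518384)) (b (l 16521480) (l 16521552))))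 (a (b (l 16514176) (l 16514152)) (a (b (l 16518112) (l 16517496)) (b (l 16520928) (l 16519928)))))) (b (b (a (b (l 16523984) (l 16525288)) (l 16534096)) (a (a (l 16524160) (l 16528312)) (l 16534832))) (a (b (b (l 16526992) (l 16526600)) (b (l 16525456) (l 16523872))) (b (b (l 16534888) (l 16533888)) (l 16551992)))))), by decide +kernel⟩

def k13_pm_022_a : ∃ t, chk3 f_pm_022_a t 7 2 1 = true :=
  ⟨(b (a (a (b (a (b (l 16555000) (l 16548784)) (b (l 16567816) (l 16561064))) (b (a (l 16545016) (l 16556736)) (a (l 16543480) (l 16554616)))) (b (a (l 16619296) (l 16589976)) (b (a (l 16568696) (l 16580440)) (a (l 16565920) (l 16576968))))) (b (a (a (l 16602240) (l 16635016)) (a (b (l 16629872) (l 16620496)) (a (l 16654128) (b (l 16643112) (l 16633112))))) (a (a (b (l 16591832) (l 16587648)) (b (l 16602776) (l 16597872))) (a (b (l 16613112) (l 16607504)) (b (a (l 16620392) (l 16624984)) (a (l 16614248) (l 16639456))))))) (a (b (b (a (a (l 16544088) (l 16554560)) (l 16612192)) (a (a (l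 16544056) (l 16553568)) (l 16588744))) (b (a (a (l 16542648) (l 16551008)) (l 16626128)) (a (a (l 16537584) (l 16544240)) (l 16574800)))) (b (a (b (a (l 16585232) (l 16594656)) (l 16606456)) (b (a (b (l 16604416) (l 16602552)) (b (l 16612696) (a (l 16608520) (l 16612264)))) (a (l 16597400) (l 16604432)))) (b (a (l 16599240) (a (l 16588256) (l 16594064))) (a (l 16565456) (a (l 16572912) (l 16577240))))))), by decide +kernel⟩

def k14_pm_022_a : ∃ t, chk3 f_pm_022_a t 6 6 1 = true :=
  ⟨(a (b (b (a (a (l 16508192) (l 16508048)) (a (l 16508896) (l 16510648))) (a (a (l 16512368) (l 16499864)) (b (l 16509208) (l 16508376)))) (a (b (l 16513512) (l 16514488)) (b (l 16506768) (l 16502520)))) (b (a (b (a (l 16513136) (a (l 16515400) (l 16517160))) (a (l 16509072) (b (l 16511664) (l 16507640)))) (b (a (l 16541128) (l 16524448)) (a (l 16574424) (l 16513400)))) (a (b (l 16520240) (l 16511832)) (b (l 16498592) (l 16481016))))), by decide +kernel⟩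

def k15_pm_022_a : ∃ t, chk3 f_pm_022_a t 6 7 1 = true :=
  ⟨(a (b (a (b (l 16515576) (b (l 16515600) (l 16536008))) (b (l 16500664) (a (l 16502408) (l 16494656)))) (b (a (b (l 16597320) (a (l 16516824) (l 16506040))) (a (l 16539632) (b (l 16490440) (l 16486848)))) (a (b (a (l 16514232) (l 16502784)) (b (a (l 16511320) (l 16499384)) (a (a (l 16512080) (l 16505728)) (a (c (l 16504632) (l 16494384)) (l 16493672))))) (b (a (l 16492168) (l 16482328)) (a (b (l 16488272) (a (l 16487960) (l 16482456))) (b (l 16477976) (a (c (l 16483112) (l 16470912)) (c (l 16478192) (l 16465592))))))))) (b (a (b (a (l 16491384) (l 16485968)) (b (l 16527536) (l 16566672))) (b (l 16561352) (a (l 16474448) (l 16467784)))) (b (a (b (a (l 16482552) (l 16475072)) (a (l 16478344) (l 16491240))) (a (b (l 16467560) (l 16462184)) (b (l 16460056) (l 16454040)))) (a (b (a (b (l 16474640) (l 16471712)) (a (l 16466728) (l 16462360))) (a (b (a (l 16470744) (l 16466128)) (a (c (l 16473424) (l 16460464)) (c (l 16468784)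 (l 16455512)))) (a (b (l 16461576) (c (a (l 16465344) (l 16462944)) (b (l 16451816) (l 16449536)))) (b (l 16456968) (c (b (l 16460296) (l 16458336)) (l 16445912)))))) (b (a (a (l 16458008) (l 16453664)) (a (l 16449272) (l 16444816))) (a (b (a (l 16452384) (l 16447800)) (a (c (b (l 16455496) (l 16453448)) (l 16441208)) (c (b (l 16450640) (l 16448504)) (l 16436536)))) (c (b (l 16446320) (a (b (l 16445672) (l 16443448)) (b (l 16440576) (l 16438272)))) (b (l 16434560) (a (l 16431864) (l 16427152)))))))))), by decide +kernel⟩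

def k16_pm_022_a : ∃ t, chk3 f_pm_022_a t 7 6 1 = true :=
  ⟨(a (b (b (a (a (l 16528992) (l 16533432)) (l 16602672)) (a (a (l 16515288) (l 16517048)) (a (l 16518624) (l 16520080)))) (a (b (l 16495600) (l 16471480)) (b (l 16492400) (l 16460136)))) (b (a (b (l 16610088) (a (l 16521336) (l 16522400))) (b (a (l 16551760) (l 16554368)) (a (l 16523320) (l 16524088)))) (a (b (b (l 16499664) (l 16480232)) (l 16467216)) (b (a (l 16488992) (l 16467416)) (l 16502952))))), by decide +kernel⟩

def k17_pm_022_a : ∃ t, chk3 f_pm_022_a t 7 14 1 = true :=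
  ⟨(a (a (b (a (l 16469040) (l 16463696)) (a (l 16461192) (l 16454904))) (b (a (l 16457528) (l 16450456)) (a (l 16448160) (l 16440496)))) (a (a (b (l 16441992) (l 16431896)) (b (l 16432152) (l 16421816))) (b (l 16486032) (a (l 16411064) (l 16399960))))), by decide +kernel⟩

def k18_pm_022_a : ∃ t, chk3 f_pm_022_a t 7 15 1 = true :=
  ⟨(a (a (b (a (b (l 16452576) (l 16445920)) (b (l 16445672) (l 16438648))) (b (a (c (l 16442832) (l 16433000)) (c (l 16434856) (l 16425544))) (b (a (a (l 16433680) (l 16429592)) (c (l 16428600) (l 16418024))) (a (a (c (l 16434256) (l 16422456)) (c (l 16429992) (l 16418368))) (c (a (l 16425984) (l 16421912)) (a (l 16414472) (l 16410576))))))) (b (a (b (l 16438352) (l 16431056)) (b (l 16430440) (l 16422944))) (b (a (c (l 16426680) (l 16418056)) (c (l 16417776) (l 16410016))) (b (a (c (l 16420336) (l 16410280)) (c (l 16411488) (l 16402096))) (a (c (a (l 16417760) (l 16413424)) (a (l 16406624) (l 16402528))) (c (a (l 16409056) (l 16404720)) (a (l 16398424)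 (l 16394352)))))))) (a (b (b (a (l 16421440) (l 16411832)) (a (l 16413928) (l 16404680))) (b (a (c (l 16408664) (l 16401848)) (c (l 16399784) (l 16393960))) (b (a (c (l 16402760) (l 16394064)) (c (l 16395120) (l 16387088))) (a (a (a (l 16397072) (l 16395168)) (a (l 16393344) (l 16391600))) (a (c (l 16393424) (l 16383768)) (b (l 16387160) (c (l 16389560) (l 16379728)))))))) (c (a (b (l 16398488) (b (l 16392280) (b (l 16388904) (c (a (l 16389296) (a (l 16387552) (l 16386544))) (l 140690449069555727))))) (b (l 16389720) (b (l 16386312) (b (l 16384464) (b (a (l 16384216) (l 16382944)) (c (a (l 140873449036824591) (a (l 140718486615130127) (l 140724740086808591))) (a (l 140512809215737871) (l 140417495299588111)))))))) (b (b (l 16398184) (l 16391488)) (b (a (l 16387424) (l 16382424)) (a (b (l 16381512) (a (l 140835172274864143) (l 140640764871081999))) (a (b (l 16378456) (l 140448212894154767)) (b (l 16377024) (l 140706529405157391))))))))), by decide +kernel⟩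

theorem s19_pm_022_a : ∃ t, chk3 f_pm_022_a t 7 7 1 = true := ex3_b k17_pm_022_a k18_pm_022_a

theorem s20_pm_022_a : ∃ t, chk3 f_pm_022_a t 7 3 1 = true := ex3_b k16_pm_022_a s19_pm_022_a

theorem s21_pm_022_a : ∃ t, chk3 f_pm_022_a t 6 3 1 = true := ex3_b k14_pm_022_a k15_pm_022_a

theorem s22_pm_022_a : ∃ t, chk3 f_pm_022_a t 3 3 1 = true := ex3_a s21_pm_022_a s20_pm_022_a

theorem s23_pm_022_a : ∃ t, chk3 f_pm_022_a t 6 2 1 = true := ex3_b k11_pm_022_a k12_pm_022_a

theorem s24_pm_022_a : ∃ t, chk3 f_pm_022_a t 3 2 1 = true := ex3_a s23_pm_022_a k13_pm_022_a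

theorem s25_pm_022_a : ∃ t, chk3 f_pm_022_a t 3 1 1 = true := ex3_b s24_pm_022_a s22_pm_022_a

theorem s26_pm_022_a : ∃ t, chk3 f_pm_022_a t 10 7 1 = true := ex3_a k8_pm_022_a k9_pm_022_a

theorem s27_pm_022_a : ∃ t, chk3 f_pm_022_a t 5 7 1 = true := ex3_a s26_pm_022_a k10_pm_022_a

theorem s28_pm_022_a : ∃ t, chk3 f_pm_022_a t 5 3 1 = true := ex3_b k7_pm_022_a s27_pm_022_a

theorem s29_pm_022_a : ∃ t, chk3 f_pm_022_a t 10 2 1 = true := ex3_b k4_pm_022_a k5_pm_022_a

theorem s30_pm_022_a : ∃ t, chk3 f_pm_022_a t 5 2 1 = true := ex3_a s29_pm_022_a k6_pm_022_a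

theorem s31_pm_022_a : ∃ t, chk3 f_pm_022_a t 5 1 1 = true := ex3_b s30_pm_022_a s28_pm_022_a

theorem s32_pm_022_a : ∃ t, chk3 f_pm_022_a t 9 3 1 = true := ex3_b k2_pm_022_a k3_pm_022_a

theorem s33_pm_022_a : ∃ t, chk3 f_pm_022_a t 9 1 1 = true := ex3_b k1_pm_022_a s32_pm_022_a

theorem s34_pm_022_a : ∃ t, chk3 f_pm_022_a t 4 1 1 = true := ex3_a k0_pm_022_a s33_pm_022_a

theorem s35_pm_022_a : ∃ t, chk3 f_pm_022_a t 2 1 1 = true := ex3_a s34_pm_022_a s31_pm_022_a

theorem s36_pm_022_a : ∃ t, chk3 f_pm_022_a t 1 1 1 = true := ex3_a s35_pm_022_a s25_pm_022_a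

theorem c_pm_022_a : CertB 0 536870912 0 536870912 649613803 48318383 3 eng mog cd0q0 cd1q2a pd2 true true false .pp 0 2 2
    ndB0q0 ndB1q2a pcB2 cut_pm_022_a xt_pm_022_a :=
  certB2 (fam := true) (s1 := true) (s2 := false) (a := 0) (b := 2) (c := 2) (cn := .pp) (n1 := ndB0q0) (n2 := ndB1q2a) (pc := pcB2) (cut := cut_pm_022_a) (xt := xt_pm_022_a) (P1 := 0) (W1 := 536870912) (P2 := 0) (W2 := 536870912) (P3 := 649613803) (W3 := 48318383) (N0 := 3) (En := eng) (mo := mog) (C1 := cd0q0) (C2 := cd1q2a) (C3 := pd2)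
    rfl (fun _ => rfl) s36_pm_022_a

noncomputable def cut_pm_022_b : Cut := Cut.of [[⟨0, 0, 0, 67108864⟩, ⟨1, 1, 0, 67108864⟩, ⟨2, 1, 0, 67108864⟩]]

noncomputable def f_pm_022_b : ℕ → ℕ → ℕ → ℕ → Bool := onCell 1073741824 536870912 1239849684 370763052 649613803 48318383
    (rowB 3 eng mog cd0q0 cd1q2b pd2 2 true true false .pp 0 2 2 (qsf 0 536870912 1239849684 370763052 2) ndB0q0 ndB1q2b pcB2 cut_pm_022_b Ext.none)

def k0_pm_022_b : ∃ t, chk3 f_pm_022_b t 2 1 1 = true :=
  ⟨(b (a (l 1) (a (b (b (a (a (l 1) (b (a (l 1) (c (l 16375352) (l 16421640))) (l 1))) (a (b (b (a (c (l 16427544) (l 16429896)) (a (l 16426632) (l 16426360))) (a (l 1) (a (l 16340936) (l 16424616)))) (l 1)) (b (c (b (l 16433840) (l 16410688)) (b (l 16434704) (l 16412360))) (c (l 16332808) (l 16377696))))) (l 1)) (l 1)) (b (b (a (b (a (c (b (l 16443880) (l 16420568)) (l 16434200)) (l 16440640)) (a (l 16385496) (l 16390816))) (b (l 16509952) (l 16417752))) (a (b (l 16440040) (l 1)) (a (l 16372872) (l 16343368))))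 (a (l 1) (b (a (l 1) (l 16213144)) (l 1)))))) (l 1)), by decide +kernel⟩

def k1_pm_022_b : ∃ t, chk3 f_pm_022_b t 3 1 1 = true :=
  ⟨(a (b (b (a (b (a (b (a (l 16455488) (l 16462760)) (l 16410560)) (b (a (l 16471088) (l 16480368)) (l 16429560))) (a (b (l 16360992) (l 16310272)) (b (l 16382008) (l 16333552)))) (b (a (a (b (l 16490472) (l 16446128)) (b (l 16522472) (l 16458184))) (b (a (l 16513552) (l 16568184)) (a (l 16471264) (l 16485096)))) (a (a (l 16377080) (l 16390960)) (a (l 16405808) (l 16421280))))) (a (a (b (b (l 16258328) (l 16204560)) (l 1)) (b (l 16259072) (l 16155024))) (b (a (a (l 16281416) (l 16297616)) (a (l 16315024) (l 16333264))) (a (a (l 16182168) (l 16201048)) (l 16231712))))) (a (l 1) (b (a (b (l 16130176) (l 1)) (b (l 16136200) (l 16034552))) (l 1)))) (b (b (a (b (a (b (a (l 16560496) (l 16595368)) (a (l 16499520) (l 16514504))) (b (a (l 16588344) (l 16581488)) (a (l 16529888) (l 16545744)))) (a (b (l 16466192) (l 16424576)) (b (l 16499152) (l 16459744))))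 (b (a (b (a (l 16595560) (l 16609064)) (a (l 16561656) (l 16577504))) (b (a (l 16642912) (b (l 16640184) (l 16627800))) (l 16600168))) (a (b (l 16533960) (l 16496520)) (b (l 16568184) (l 16534368))))) (a (b (a (l 16361152) (l 16399696)) (a (l 16274136) (l 16317816))) (b (a (l 16439064) (l 16480168)) (a (l 16361656) (l 16405944))))) (b (a (b (a (l 16185128) (l 16234216)) (a (l 16092680) (l 16149096))) (b (a (l 16283400) (l 16331944)) (a (l 16203824) (l 16256920)))) (a (a (l 1) (l 16013008)) (a (l 16080936) (l 16144040)))))), by decide +kernel⟩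

theorem s2_pm_022_b : ∃ t, chk3 f_pm_022_b t 1 1 1 = true := ex3_a k0_pm_022_b k1_pm_022_b

theorem c_pm_022_b : CertB 0 536870912 1239849684 370763052 649613803 48318383 3 eng mog cd0q0 cd1q2b pd2 true true false .pp 0 2 2
    ndB0q0 ndB1q2b pcB2 cut_pm_022_b Ext.none :=
  certB2 (fam := true) (s1 := true) (s2 := false) (a := 0) (b := 2) (c := 2) (cn := .pp) (n1 := ndB0q0) (n2 := ndB1q2b) (pc := pcB2) (cut := cut_pm_022_b) (xt := Ext.none) (P1 := 0) (W1 := 536870912) (P2 := 1239849684) (W2 := 370763052) (P3 := 649613803) (W3 := 48318383) (N0 := 3) (En := eng) (mo := mog) (C1 := cd0q0) (C2 := cd1q2b) (C3 := pd2)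
    rfl (fun _ => rfl) s2_pm_022_b

end Pool.Agent.Strip051.G.I6050_6500.Tab.C.BA01

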