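import Pool.Agent.Strip051.G.I6050_6500.Tab
import Pool.Agent.Strip051.PB.ExtD2

/-! # Certificates B5 (generated) -/

set_option linter.all false
set_option maxRecDepth 100000

namespace Pool.Agent.Strip051.G.I6050_6500.Tab.C.BA01

open Pool.Agent.Strip051.PB Pool.Agent.Strip051.PB.T
open Pool.Agent.Strip051.G.I6050_6500.Tab

noncomputable def cut_pm_202 : Cut := Cut.of [[⟨0, 1, 0, 67108864⟩, ⟨1, 0, 0, 67108864⟩, ⟨2, 1, 0, 67108864⟩]]

noncomputable def f_pm_202 : ℕ → ℕ → ℕ → ℕ → Bool := onCell 0 536870912 1073741824 536870912 649613803 48318383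
    (rowB 3 eng mog cd0q2 cd1q0 pd2 1 true true false .pp 2 0 2 (qsf 0 536870912 0 536870912 2) ndB0q2 ndB1q0 pcB2 cut_pm_202 Ext.none)

def k0_pm_202 : ∃ t, chk3 f_pm_202 t 2 4 1 = true :=
  ⟨(a (l 1) (b (l 1) (b (l 1) (a (l 1) (b (l 1) (a (l 1) (b (l 1) (c (a (l 16506872) (b (l 16516608) (l 16496896))) (a (l 16495104) (l 16506176)))))))))), by decide +kernel⟩

def k1_pm_202 : ∃ t, chk3 f_pm_202 t 4 10 1 = true :=
  ⟨(b (b (l 1) (b (a (l 1) (a (l 1) (l 16549632))) (c (a (a (l 16441352) (l 16464680)) (a (l 16450648) (c (l 16459936) (l 16460944)))) (a (l 16477288) (a (l 16454720) (l 16465056)))))) (a (b (b (c (a (l 16440208) (l 16441720)) (a (l 16441848) (l 16443616))) (c (a (l 16439784) (a (l 16439880) (b (l 16441240) (l 16440928)))) (a (l 16440024) (l 16461872)))) (c (a (l 16446856) (b (l 16444328) (l 16449792))) (a (l 16447024) (l 16447424)))) (a (b (b (c (l 16448248) (l 16450752)) (b (l 16446576) (l 16466688))) (c (l 16451888) (l 16431664))) (b (c (b (l 16457752)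 (b (l 16456136) (c (l 16477168) (l 16455296)))) (b (l 16461000) (b (l 16458224) (l 16456952)))) (c (b (l 16458336) (l 16462264)) (l 16461888)))))), by decide +kernel⟩

def k2_pm_202 : ∃ t, chk3 f_pm_202 t 5 10 1 = true :=
  ⟨(b (b (b (a (l 1) (a (c (c (l 16498672) (l 16494384)) (a (l 16481384) (l 16489928))) (c (a (c (l 16511672) (l 16507704)) (l 16519584)) (a (l 16499464) (l 16509880))))) (a (a (c (l 16474792) (l 16465936)) (c (a (l 16482688) (l 16489008)) (l 16489424))) (a (c (a (l 16496080) (l 16503880)) (a (l 16486480) (l 16494520))) (c (a (l 16512392) (l 16521520)) (c (l 16448152) (l 16505480)))))) (a (c (b (a (l 16517008) (l 16488384)) (a (c (l 16471440) (l 16472880)) (a (l 16497424) (l 16501520)))) (a (b (l 16471880) (l 16477336)) (b (a (l 16478720) (l 16484496)) (l 16486496)))) (b (a (c (l 16502104) (a (l 16491184) (l 16498736))) (a (l 16448592) (l 16478400))) (c (a (c (l 16497896) (l 16499752)) (a (l 16508456) (l 16514744))) (a (l 16499048) (l 16514744))))))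 (a (a (b (c (b (a (l 16466128) (l 16472376)) (b (l 16478104) (a (l 16463768) (b (l 16469840) (l 16469984))))) (c (b (l 16471888) (b (l 16469288) (l 16468088))) (l 16520640))) (c (a (l 16467952) (l 16473680)) (c (l 16472176) (l 16474944)))) (b (b (c (c (l 16482008) (l 16483008)) (l 16487224)) (c (b (a (l 16477112) (l 16483648)) (b (l 16490120) (c (l 16479896) (l 16479872)))) (c (b (l 16482744) (l 16481440)) (l 16485344)))) (a (c (l 16490168) (l 16482816)) (c (l 16496232) (l 16489144))))) (a (b (b (c (c (l 16495232) (l 16496320)) (l 16500600)) (c (b (a (l 16490200) (l 16496688)) (a (b (l 16489288) (l 16489264)) (l 16516648))) (c (b (l 16495952) (l 16494504)) (l 16498504)))) (c (a (l 16502312) (l 16497832)) (c (l 16497000) (l 16500192)))) (b (b (c (a (l 16505176) (l 16511296)) (l 16512752)) (c (b (l 16506072) (a (l 16501856) (l 16507744))) (a (l 16505680) (l 16511184)))) (c (a (l 16503624) (l 16509144)) (l 16488512)))))), by decide +kernel⟩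

def k3_pm_202 : ∃ t, chk3 f_pm_202 t 2 11 1 = true :=
  ⟨(a (a (b (b (c (l 16457152) (l 16457904)) (l 16465064)) (l 16535632)) (a (b (c (b (l 16460376) (l 16467128)) (l 16528296)) (l 16557032)) (b (b (c (c (l 16467832) (l 16467272)) (l 16469264)) (l 16535984)) (l 16539176)))) (b (b (c (a (a (c (l 16476712) (l 16476664)) (c (b (l 16486144) (l 16487752)) (l 16487416))) (a (a (c (l 16473968) (l 16495504)) (l 16500416)) (a (l 16505600) (l 16510528)))) (a (a (l 16479360) (l 16488344)) (a (l 16497904) (l 16509144)))) (a (a (a (l 16478912) (l 16482760)) (a (l 16486520) (l 16490632))) (a (c (l 16498944) (l 16494416)) (a (l 16504544) (l 16509432))))) (a (a (b (c (l 16482288) (l 16477928)) (c (l 16484000) (l 16478288))) (b (c (l 16489784) (l 16484384)) (c (a (l 16489000) (l 16492552)) (l 16484128)))) (a (c (b (l 16497904) (l 16498080)) (b (l 16492136) (l 16490984))) (b (c (l 16505960) (l 16500664)) (c (a (l 16503392) (l 16507008)) (l 16499072))))))), by decide +kernel⟩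

def k4_pm_202 : ∃ t, chk3 f_pm_202 t 2 3 1 = true :=
  ⟨(b (a (b (a (b (b (l 16478760) (l 16484760)) (a (l 16501920) (l 16498208))) (b (a (b (l 16477472) (l 16482840)) (b (l 16479736) (l 16485176))) (a (l 16497008) (l 16498400)))) (b (b (a (l 16516536) (l 16512200)) (a (a (l 16530176) (l 16525032)) (a (l 16522136) (l 16521640)))) (a (b (l 16539376) (l 16551136)) (a (l 16538072) (l 16536336))))) (b (a (b (a (b (a (l 16482656) (l 16485416)) (l 16490056)) (b (a (l 16488624) (l 16492072)) (l 16496616))) (a (l 16502232) (b (l 16503728) (l 16511024)))) (a (b (b (a (l 16495760) (l 16499632)) (l 16503288)) (b (l 16509064) (l 16515024))) (b (a (l 16505584) (l 16508672)) (a (l 16514536) (l 16515568))))) (a (b (a (b (l 16514776) (l 16523384)) (b (l 16518464) (l 16526080))) (a (b (l 16532280) (l 16541296)) (l 16538016))) (b (a (b (l 16521120) (l 16527408)) (b (l 16521616) (l 16526160))) (a (b (l 16533960) (l 16541112)) (b (l 16531240) (l 16537048))))))) (a (b (a (b (b (l 16563000)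 (l 16575592)) (a (l 16598768) (l 16590056))) (b (a (l 16560144) (l 16557000)) (a (l 16583216) (l 16578520)))) (a (b (a (l 16644432) (l 16613664)) (a (b (l 16641296) (l 16652920)) (l 16636080))) (b (a (l 16605432) (l 16599216)) (a (l 16626528) (l 16639832))))) (b (a (b (a (l 16598000) (l 16555448)) (a (l 16575816) (l 16615232))) (a (b (l 16552728) (l 16567936)) (b (l 16546104) (l 16557944)))) (a (b (a (l 16594872) (b (l 16586296) (l 16594656))) (a (b (l 16608544) (l 16617200)) (b (l 16602728) (l 16610296)))) (a (b (l 16582472) (b (l 16592832) (l 16599120))) (b (l 16569280) (l 16579400))))))), by decide +kernel⟩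

def k5_pm_202 : ∃ t, chk3 f_pm_202 t 3 8 1 = true :=
  ⟨(a (l 1) (a (b (l 1) (a (a (l 1) (b (l 1) (b (l 1) (b (l 16639376) (l 16638392))))) (b (l 6) (b (l 6) (b (l 6) (a (l 16652832) (l 16666936))))))) (b (l 6) (b (l 6) (b (l 6) (a (a (l 16681736) (l 16693344)) (b (l 6) (a (l 16696192) (l 16700584))))))))), by decide +kernel⟩

def k6_pm_202 : ∃ t, chk3 f_pm_202 t 3 9 1 = true :=
  ⟨(a (a (b (l 1) (a (a (b (l 1) (c (b (l 16505280) (l 16528240)) (l 69289415879))) (c (b (l 16534952) (b (l 16537888) (l 16539336))) (b (l 16522552) (b (l 16527360) (l 16530112))))) (c (b (b (l 16552248) (a (l 16547456) (l 16559128))) (b (l 16554264) (l 16554752))) (b (a (l 16535416) (l 16548640)) (a (b (l 16539144) (l 16541256)) (l 16488968)))))) (b (a (b (l 1) (a (b (l 1) (l 16565496)) (b (l 16578624) (l 16578984)))) (b (b (l 1) (a (l 16592776) (l 16607152))) (a (b (l 16592616) (l 16529280)) (c (l 16608912) (l 16601744))))) (b (a (a (c (l 16507832) (l 16561824)) (b (l 16516184) (l 16578928)))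 (a (l 16517688) (l 16602784))) (a (b (l 16510112) (l 16572624)) (l 16610552))))) (a (b (a (b (a (b (l 16622568) (l 16621072)) (b (l 16647304) (c (l 16637280) (l 16631360)))) (a (c (l 16621144) (l 16573184)) (l 16630800))) (b (a (c (l 16651504) (b (l 16647808) (l 16645080))) (b (l 16664208) (l 16660440))) (c (l 16666992) (l 16646896)))) (b (a (l 16670352) (c (l 16630048) (l 16632168))) (a (c (l 16601752) (l 16604280)) (c (l 16636040) (l 16615912))))) (a (b (b (a (l 16705512) (c (l 16679032) (l 16680584))) (a (l 16656424) (c (l 16661776) (l 16662440)))) (b (a (c (l 16639472) (l 16640144)) (l 16665944)) (c (l 16668968) (l 16647128)))) (b (a (b (c (l 16705712) (l 16685112)) (c (l 16667344) (l 16666920))) (b (a (l 16688160) (l 16711064)) (b (l 16675648) (l 16666888)))) (b (a (l 16649880) (l 16675008)) (a (l 16633584) (b (l 16641560) (l 16633328)))))))), by decide +kernel⟩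

def k7_pm_202 : ∃ t, chk3 f_pm_202 t 6 5 1 = true :=
  ⟨(b (b (b (c (a (a (a (l 16530552) (l 16537504)) (l 16547968)) (a (l 16561672) (l 16575144))) (a (a (a (c (l 16524920) (l 16477656)) (l 16533504)) (l 16548992)) (a (l 16565864) (l 16577656)))) (a (b (a (a (l 16527144) (l 16532648)) (l 16552376)) (a (b (c (l 16524720) (l 16529512)) (c (l 16522752) (l 16526888))) (b (c (l 16536856) (l 16540096)) (b (c (l 16535192) (l 16537968)) (c (l 16555080) (l 16536584)))))) (b (a (l 16554320) (l 16566592)) (b (a (l 16550176) (l 16562280)) (a (c (b (l 16548072) (l 16547072)) (l 16549048)) (b (l 16560360) (l 16580304))))))) (a (b (a (c (b (l 16520008) (b (l 16517440) (a (l 16513320) (l 16518560)))) (a (b (l 16520648) (l 16516216)) (l 16523048))) (b (c (l 16531448) (l 16533136)) (c (a (l 16524496) (l 16530504)) (l 16517488)))) (a (c (l 16516944) (l 16518808)) (c (a (l 16523928) (l 16529048)) (l 16526936)))) (a (b (c (l 16541776) (l 16541736)) (l 16536200)) (b (l 16573864) (l 16546256)))))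 (b (b (a (a (c (l 16517464) (l 16519912)) (a (l 16523560) (l 16527280))) (a (l 16533520) (l 16541664))) (a (a (l 16600736) (l 16565464)) (a (l 16529952) (l 16536616)))) (a (a (a (b (l 16510008) (l 16508712)) (l 16555416)) (a (l 16517424) (l 16520952))) (a (l 16524768) (l 16529136))))), by decide +kernel⟩

def k8_pm_202 : ∃ t, chk3 f_pm_202 t 7 5 1 = true :=
  ⟨(b (b (b (a (a (c (l 16588448) (l 16589440)) (b (l 16604120) (l 16597120))) (a (c (l 16654472) (l 16631616)) (a (b (l 16621840) (l 16613800)) (b (l 16624576) (l 16615464))))) (a (b (a (l 16578808) (l 16590496)) (b (a (l 16574344) (l 16585880)) (b (a (l 16572408) (l 16583928)) (a (l 16592432) (l 16604032))))) (b (a (a (l 16598328) (l 16602728)) (a (l 16605552) (l 16606792))) (b (a (l 16616472) (a (l 16599664) (l 16600832))) (b (a (l 16614280) (a (l 16597232) (l 16598384))) (a (a (l 16611472) (l 16614808)) (b (b (b (l 16597352) (a (l 16596896) (c (l 16601408) (l 16594904)))) (l 16597352)) (l 16596536)))))))) (a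 (b (a (l 16585504) (a (l 16572848) (l 16577736))) (a (l 16556160) (l 16564776))) (b (a (a (l 16581704) (l 16584688)) (a (l 16607792) (b (l 16592016) (l 16583584)))) (a (l 16570600) (a (l 16572864) (l 16573008)))))) (a (a (b (b (l 16549512) (l 16542696)) (l 16532592)) (b (l 16551584) (l 16534496))) (a (b (a (l 16553976) (l 16554696)) (l 16554800)) (b (a (l 16554576) (b (l 16559776) (l 16546888))) (a (l 16531256) (b (l 16534344) (l 16522120))))))), by decide +kernel⟩

def k9_pm_202 : ∃ t, chk3 f_pm_202 t 3 3 1 = true :=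
  ⟨(b (a (b (b (a (a (a (l 16490408) (l 16513616)) (l 16515928)) (a (l 16517744) (l 16519000))) (a (a (a (l 16515976) (l 16515680)) (l 16513752)) (a (l 16510096) (l 16508800)))) (a (b (a (b (l 16519040) (l 16521456)) (b (l 16512648) (l 16512616))) (a (b (l 16524784) (l 16528584)) (l 16514136))) (b (a (l 16586408) (l 16499968)) (a (l 16497128) (l 16490808))))) (b (a (a (b (l 16519280) (l 16506672)) (b (l 16518032) (l 16503080))) (a (b (l 16535288) (l 16496896)) (b (a (l 16509456) (l 16504848)) (a (l 16490096) (l 16484200))))) (a (b (a (l 16496032) (l 16490216)) (l 16586712)) (a (b (l 16502632) (l 16467272)) (b (b (l 16474072) (l 16465848)) (b (l 16457728) (l 16449552))))))) (a (b (a (a (b (l 16534368) (l 16541912)) (b (l 16516496) (l 16518736))) (b (l 16630544) (l 16625352))) (a (a (b (l 16548936) (l 16554936)) (b (l 16520464) (l 16521752))) (a (l 16525800) (b (l 16454008) (l 16438688))))) (b (a (a (l 16486344) (a (l 16524392) (l 16519048))) (a (b (l 16453432) (l 16439976))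 (b (l 16438032) (l 16424392)))) (a (a (l 16519568) (l 16469504)) (a (b (l 16424912) (l 16408920)) (b (l 16410776) (l 16398128))))))), by decide +kernel⟩

theorem s10_pm_202 : ∃ t, chk3 f_pm_202 t 3 5 1 = true := ex3_a k7_pm_202 k8_pm_202

theorem s11_pm_202 : ∃ t, chk3 f_pm_202 t 3 4 1 = true := ex3_b k5_pm_202 k6_pm_202

theorem s12_pm_202 : ∃ t, chk3 f_pm_202 t 3 2 1 = true := ex3_b s11_pm_202 s10_pm_202

theorem s13_pm_202 : ∃ t, chk3 f_pm_202 t 3 1 1 = true := ex3_b s12_pm_202 k9_pm_202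

theorem s14_pm_202 : ∃ t, chk3 f_pm_202 t 2 10 1 = true := ex3_a k1_pm_202 k2_pm_202

theorem s15_pm_202 : ∃ t, chk3 f_pm_202 t 2 5 1 = true := ex3_b s14_pm_202 k3_pm_202

theorem s16_pm_202 : ∃ t, chk3 f_pm_202 t 2 2 1 = true := ex3_b k0_pm_202 s15_pm_202

theorem s17_pm_202 : ∃ t, chk3 f_pm_202 t 2 1 1 = true := ex3_b s16_pm_202 k4_pm_202

theorem s18_pm_202 : ∃ t, chk3 f_pm_202 t 1 1 1 = true := ex3_a s17_pm_202 s13_pm_202

theorem c_pm_202 : CertB 0 536870912 0 536870912 649613803 48318383 3 eng mog cd0q2 cd1q0 pd2 true true false .pp 2 0 2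
    ndB0q2 ndB1q0 pcB2 cut_pm_202 Ext.none :=
  certB1 (fam := true) (s1 := true) (s2 := false) (a := 2) (b := 0) (c := 2) (cn := .pp) (n1 := ndB0q2) (n2 := ndB1q0) (pc := pcB2) (cut := cut_pm_202) (xt := Ext.none) (P1 := 0) (W1 := 536870912) (P2 := 0) (W2 := 536870912) (P3 := 649613803) (W3 := 48318383) (N0 := 3) (En := eng) (mo := mog) (C1 := cd0q2) (C2 := cd1q0) (C3 := pd2)
    rfl (fun _ => rfl) s18_pm_202

noncomputable def f_pm_203 : ℕ → ℕ → ℕ → ℕ → Bool := onCell 0 536870912 1610612736 536870912 649613803 48318383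
    (rowB 3 eng mog cd0q2 cd1q0 pd3 1 true true false .up 2 0 3 (qsf 0 536870912 0 536870912 3) ndB0q2 ndB1q0 pcB3 Cut.none Ext.none)

def k0_pm_203 : ∃ t, chk3 f_pm_203 t 1 1 1 = true :=
  ⟨(b (a (b (b (a (a (b (a (l 16662288) (l 16647672)) (l 16654472)) (b (l 16628560) (l 16630736))) (a (b (l 16606608) (l 16613472)) (a (l 16676152) (l 16616840)))) (a (a (b (l 16691368) (l 16718424)) (b (l 16666592) (l 16693280))) (a (l 16662232) (b (l 16627752) (l 16656448))))) (b (a (a (b (l 16739352) (l 2)) (b (l 16715912) (l 2))) (a (b (l 16700720) (l 2)) (l 16715664))) (l 2))) (a (b (b (a (a (l 16563088) (l 16548568)) (b (l 16509872) (l 16538784))) (a (b (l 16601760) (l 16629288)) (b (l 16571056) (l 16598264)))) (l 2)) (b (b (a (a (l 16500544) (l 16488464)) (a (l 16476976) (a (l 16468256) (l 16462200)))) (a (b (l 176730897751) (l 2)) (l 2))) (l 2)))) (l 2)), by decide +kernel⟩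

theorem c_pm_203 : CertB 0 536870912 0 536870912 649613803 48318383 3 eng mog cd0q2 cd1q0 pd3 true true false .up 2 0 3
    ndB0q2 ndB1q0 pcB3 Cut.none Ext.none :=
  certB1 (fam := true) (s1 := true) (s2 := false) (a := 2) (b := 0) (c := 3) (cn := .up) (n1 := ndB0q2) (n2 := ndB1q0) (pc := pcB3) (cut := Cut.none) (xt := Ext.none) (P1 := 0) (W1 := 536870912) (P2 := 0) (W2 := 536870912) (P3 := 649613803) (W3 := 48318383) (N0 := 3) (En := eng) (mo := mog) (C1 := cd0q2) (C2 := cd1q0) (C3 := pd3)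
    rfl (fun _ => rfl) k0_pm_203

noncomputable def f_pm_213 : ℕ → ℕ → ℕ → ℕ → Bool := onCell 0 536870912 1610612736 536870912 649613803 48318383
    (rowB 3 eng mog cd0q2 cd1q1 pd3 1 true true false .pnn 2 1 3 (qsf 0 536870912 536870912 536870912 3) ndB0q2 ndB1q1 pcB3 Cut.none Ext.none)

def k0_pm_213 : ∃ t, chk3 f_pm_213 t 1 2 1 = true :=
  ⟨(b (a (b (l 1) (a (l 1) (a (l 1) (b (l 1) (l 16696864))))) (b (a (l 1) (a (a (l 16538960) (l 16523400)) (a (l 16552576) (b (l 16486328) (l 16519224))))) (a (a (b (l 1) (l 16667608)) (b (l 16608184) (l 16639240))) (a (b (a (l 16587632) (l 16577808)) (a (l 16627072) (l 16624072))) (b (a (l 16571400) (c (l 16595584) (l 16544760))) (a (l 16625496) (c (l 16661216) (l 16604976)))))))) (a (a (b (a (b (l 16769472) (l 16779656)) (b (l 16751960) (l 16769048))) (a (b (l 16805728) (b (l 81839304535) (l 118346424855))) (b (l 16784624) (l 16795656)))) (b (a (b (l 16737976) (l 16760912)) (l 16735824)) (a (b (l 16784728) (l 16805344)) (b (l 16786176)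 (l 16810424))))) (b (a (b (a (b (l 16690536) (l 16708336)) (b (l 16669848) (b (l 16689280) (l 16700712)))) (a (a (l 16742232) (l 16734936)) (b (a (l 16713088) (l 16708128)) (l 16731824)))) (b (a (b (c (l 16683608) (l 16650832)) (a (a (l 16696720) (l 16701016)) (b (l 16700984) (l 16716448)))) (a (b (l 16677968) (c (l 16719808) (c (l 16707744) (l 16683504)))) (b (l 16692232) (c (l 16724952) (b (l 16699184) (l 16706784)))))) (a (b (a (a (l 16706624) (l 16703664)) (b (l 16706872) (l 16697560))) (a (l 16715064) (l 16710256))) (b (a (b (l 16710256) (l 16705512)) (b (l 16697072) (l 16697904))) (a (l 16720072) (a (l 16731376) (l 16740072))))))) (a (a (b (l 16780240) (l 16798296)) (b (l 16759352) (l 16784608))) (a (b (a (l 16746936) (l 16744832)) (b (l 16752384) (l 16767608))) (b (a (l 16734376) (b (l 16781920) (l 16783280))) (a (l 16772408) (c (l 16813256) (l 16789568))))))))), by decide +kernel⟩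

def k1_pm_213 : ∃ t, chk3 f_pm_213 t 1 6 1 = true :=
  ⟨(a (b (a (a (l 4) (b (b (l 16786536) (l 16796176)) (a (l 4) (l 96871684583)))) (a (b (l 16816288) (l 16790096)) (b (l 16814528) (l 16820424)))) (a (l 4) (b (a (b (l 16770704) (l 100092899799)) (l 16805608)) (a (b (l 131768063271) (l 4)) (a (b (l 16770352) (l 16758608)) (l 16788400)))))) (a (b (a (b (l 16805968) (l 16812024)) (b (a (l 16799824) (l 16799328)) (l 16808512))) (a (b (l 16813000) (b (l 16812232) (l 16811112))) (a (l 16807328) (b (l 16811664) (l 16806888))))) (b (a (a (b (l 16802688) (l 16816344)) (b (l 16809760) (l 16826800))) (b (a (c (l 16820160) (l 16801808)) (c (l 16834600) (l 16823928))) (a (l 16755136) (c (l 16846096) (l 16863616))))) (a (a (b (l 16819904) (l 16814440)) (b (l 16728664) (l 16831624))) (b (a (b (l 16847576) (l 16853760)) (c (l 16857984) (l 16881472))) (a (l 16854200) (l 16872512))))))), by decide +kernel⟩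

def k2_pm_213 : ∃ t, chk3 f_pm_213 t 1 7 1 = true :=
  ⟨(b (a (a (l 4) (b (a (l 4) (b (a (l 90429024935) (l 16766864)) (a (l 4) (l 16714200)))) (l 4))) (a (b (a (a (b (l 16798280) (l 16782776)) (b (l 16803760) (l 16801960))) (a (b (l 16797552) (l 16797736)) (l 16802600))) (a (b (a (l 81302459511) (l 16797816)) (a (l 4) (l 68417603351))) (b (a (l 16799920) (l 16802056)) (a (l 16798352) (l 16801488))))) (b (a (a (b (l 16814432) (l 16813776)) (l 16828192)) (a (l 16846208) (l 16862624))) (a (b (a (l 16811416) (l 16823344)) (a (l 16807136) (l 16818392))) (a (l 16830864) (l 16930016)))))) (a (l 4) (a (b (a (l 4) (b (a (b (l 16787600) (l 16776696)) (b (l 16797088) (l 16792728))) (a (l 4) (b (l 16788256) (l 330410573447))))) (l 4)) (a (b (b (a (b (l 16803896) (l 16801184)) (l 16810936)) (a (b (l 16796208) (b (l 16790680) (l 16788048))) (b (l 16804176) (a (l 16797704) (l 16801432))))) (b (b (a (l 291755905895) (a (l 16789560) (l 16792440))) (a (l 4) (l 274039196119))) (b (b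 (l 390003162023) (l 4)) (l 4)))) (a (b (b (l 16819952) (l 16809968)) (b (b (l 16858168) (c (l 16884104) (l 16893608))) (b (b (l 173644336055) (l 371212778903)) (b (l 579518638119) (l 4))))) (b (a (l 16861528) (l 16908784)) (b (l 16797200) (b (a (c (l 16878792) (l 16888160)) (l 16869816)) (b (a (l 16773656) (l 16840984)) (b (l 662196773447) (l 4))))))))))), by decide +kernel⟩

theorem s3_pm_213 : ∃ t, chk3 f_pm_213 t 1 3 1 = true := ex3_b k1_pm_213 k2_pm_213

theorem s4_pm_213 : ∃ t, chk3 f_pm_213 t 1 1 1 = true := ex3_b k0_pm_213 s3_pm_213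

theorem c_pm_213 : CertB 0 536870912 536870912 536870912 649613803 48318383 3 eng mog cd0q2 cd1q1 pd3 true true false .pnn 2 1 3
    ndB0q2 ndB1q1 pcB3 Cut.none Ext.none :=
  certB1 (fam := true) (s1 := true) (s2 := false) (a := 2) (b := 1) (c := 3) (cn := .pnn) (n1 := ndB0q2) (n2 := ndB1q1) (pc := pcB3) (cut := Cut.none) (xt := Ext.none) (P1 := 0) (W1 := 536870912) (P2 := 536870912) (W2 := 536870912) (P3 := 649613803) (W3 := 48318383) (N0 := 3) (En := eng) (mo := mog) (C1 := cd0q2) (C2 := cd1q1) (C3 := pd3)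
    rfl (fun _ => rfl) s4_pm_213

noncomputable def f_mm_001 : ℕ → ℕ → ℕ → ℕ → Bool := onCell 0 536870912 0 536870912 649613803 48318383
    (rowB 3 eng mog cd0q0 cd1q0 pd1 0 true false false .up 0 0 1 (qsf 0 536870912 0 536870912 1) ndB0q0 ndB1q0 pcB1 Cut.none Ext.none)

def k0_mm_001 : ∃ t, chk3 f_mm_001 t 1 1 1 = true :=
  ⟨(l 4), by decide +kernel⟩

theorem c_mm_001 : CertB 0 536870912 0 536870912 649613803 48318383 3 eng mog cd0q0 cd1q0 pd1 true false false .up 0 0 1
    ndB0q0 ndB1q0 pcB1 Cut.none Ext.none :=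
  certB0 (fam := true) (s1 := false) (s2 := false) (a := 0) (b := 0) (c := 1) (cn := .up) (n1 := ndB0q0) (n2 := ndB1q0) (pc := pcB1) (cut := Cut.none) (xt := Ext.none) (P1 := 0) (W1 := 536870912) (P2 := 0) (W2 := 536870912) (P3 := 649613803) (W3 := 48318383) (N0 := 3) (En := eng) (mo := mog) (C1 := cd0q0) (C2 := cd1q0) (C3 := pd1)
    rfl k0_mm_001

noncomputable def f_mm_011 : ℕ → ℕ → ℕ → ℕ → Bool := onCell 0 536870912 536870912 536870912 649613803 48318383
    (rowB 3 eng mog cd0q0 cd1q1 pd1 0 true false false .pnn 0 1 1 (qsf 0 536870912 536870912 536870912 1) ndB0q0 ndB1q1 pcB1 Cut.none Ext.none)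

def k0_mm_011 : ∃ t, chk3 f_mm_011 t 1 1 1 = true :=
  ⟨(l 4), by decide +kernel⟩

theorem c_mm_011 : CertB 0 536870912 536870912 536870912 649613803 48318383 3 eng mog cd0q0 cd1q1 pd1 true false false .pnn 0 1 1
    ndB0q0 ndB1q1 pcB1 Cut.none Ext.none :=
  certB0 (fam := true) (s1 := false) (s2 := false) (a := 0) (b := 1) (c := 1) (cn := .pnn) (n1 := ndB0q0) (n2 := ndB1q1) (pc := pcB1) (cut := Cut.none) (xt := Ext.none) (P1 := 0) (W1 := 536870912) (P2 := 536870912) (W2 := 536870912) (P3 := 649613803) (W3 := 48318383) (N0 := 3) (En := eng) (mo := mog) (C1 := cd0q0) (C2 := cd1q1) (C3 := pd1)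
    rfl k0_mm_011

noncomputable def f_mm_012 : ℕ → ℕ → ℕ → ℕ → Bool := onCell 0 536870912 536870912 536870912 649613803 48318383
    (rowB 3 eng mog cd0q0 cd1q1 pd2 0 true false false .pnp 0 1 2 (qsf 0 536870912 536870912 536870912 2) ndB0q0 ndB1q1 pcB2 Cut.none Ext.none)

def k0_mm_012 : ∃ t, chk3 f_mm_012 t 1 1 1 = true :=
  ⟨(l 4), by decide +kernel⟩

theorem c_mm_012 : CertB 0 536870912 536870912 536870912 649613803 48318383 3 eng mog cd0q0 cd1q1 pd2 true false false .pnp 0 1 2
    ndB0q0 ndB1q1 pcB2 Cut.none Ext.none :=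
  certB0 (fam := true) (s1 := false) (s2 := false) (a := 0) (b := 1) (c := 2) (cn := .pnp) (n1 := ndB0q0) (n2 := ndB1q1) (pc := pcB2) (cut := Cut.none) (xt := Ext.none) (P1 := 0) (W1 := 536870912) (P2 := 536870912) (W2 := 536870912) (P3 := 649613803) (W3 := 48318383) (N0 := 3) (En := eng) (mo := mog) (C1 := cd0q0) (C2 := cd1q1) (C3 := pd2)
    rfl k0_mm_012

noncomputable def f_mm_022_a : ℕ → ℕ → ℕ → ℕ → Bool := onCell 0 536870912 0 536870912 649613803 48318383
    (rowB 3 eng mog cd0q0 cd1q2a pd2 0 true false false .pp 0 2 2 (qsf 0 536870912 0 536870912 2) ndB0q0 ndB1q2a pcB2 Cut.none Ext.none)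

def k0_mm_022_a : ∃ t, chk3 f_mm_022_a t 1 1 1 = true :=
  ⟨(l 5), by decide +kernel⟩

theorem c_mm_022_a : CertB 0 536870912 0 536870912 649613803 48318383 3 eng mog cd0q0 cd1q2a pd2 true false false .pp 0 2 2
    ndB0q0 ndB1q2a pcB2 Cut.none Ext.none :=
  certB0 (fam := true) (s1 := false) (s2 := false) (a := 0) (b := 2) (c := 2) (cn := .pp) (n1 := ndB0q0) (n2 := ndB1q2a) (pc := pcB2) (cut := Cut.none) (xt := Ext.none) (P1 := 0) (W1 := 536870912) (P2 := 0) (W2 := 536870912) (P3 := 649613803) (W3 := 48318383) (N0 := 3) (En := eng) (mo := mog) (C1 := cd0q0) (C2 := cd1q2a) (C3 := pd2)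
    rfl k0_mm_022_a

noncomputable def f_mm_022_b : ℕ → ℕ → ℕ → ℕ → Bool := onCell 0 536870912 1239849684 370763052 649613803 48318383
    (rowB 3 eng mog cd0q0 cd1q2b pd2 0 true false false .pp 0 2 2 (qsf 0 536870912 1239849684 370763052 2) ndB0q0 ndB1q2b pcB2 Cut.none Ext.none)

def k0_mm_022_b : ∃ t, chk3 f_mm_022_b t 1 1 1 = true :=
  ⟨(l 5), by decide +kernel⟩

theorem c_mm_022_b : CertB 0 536870912 1239849684 370763052 649613803 48318383 3 eng mog cd0q0 cd1q2b pd2 true false false .pp 0 2 2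
    ndB0q0 ndB1q2b pcB2 Cut.none Ext.none :=
  certB0 (fam := true) (s1 := false) (s2 := false) (a := 0) (b := 2) (c := 2) (cn := .pp) (n1 := ndB0q0) (n2 := ndB1q2b) (pc := pcB2) (cut := Cut.none) (xt := Ext.none) (P1 := 0) (W1 := 536870912) (P2 := 1239849684) (W2 := 370763052) (P3 := 649613803) (W3 := 48318383) (N0 := 3) (En := eng) (mo := mog) (C1 := cd0q0) (C2 := cd1q2b) (C3 := pd2)
    rfl k0_mm_022_b

noncomputable def f_mm_023_a : ℕ → ℕ → ℕ → ℕ → Bool := onCell 0 536870912 0 536870912 649613803 48318383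
    (rowB 3 eng mog cd0q0 cd1q2a pd3 0 true false false .up 0 2 3 (qsf 0 536870912 0 536870912 3) ndB0q0 ndB1q2a pcB3 Cut.none Ext.none)

def k0_mm_023_a : ∃ t, chk3 f_mm_023_a t 1 1 1 = true :=
  ⟨(l 5), by decide +kernel⟩

theorem c_mm_023_a : CertB 0 536870912 0 536870912 649613803 48318383 3 eng mog cd0q0 cd1q2a pd3 true false false .up 0 2 3
    ndB0q0 ndB1q2a pcB3 Cut.none Ext.none :=
  certB0 (fam := true) (s1 := false) (s2 := false) (a := 0) (b := 2) (c := 3) (cn := .up) (n1 := ndB0q0) (n2 := ndB1q2a) (pc := pcB3) (cut := Cut.none) (xt := Ext.none) (P1 := 0) (W1 := 536870912) (P2 := 0) (W2 := 536870912) (P3 := 649613803) (W3 := 48318383) (N0 := 3) (En := eng) (mo := mog) (C1 := cd0q0) (C2 := cd1q2a) (C3 := pd3)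
    rfl k0_mm_023_a

noncomputable def f_mm_023_b : ℕ → ℕ → ℕ → ℕ → Bool := onCell 0 536870912 1239849684 370763052 649613803 48318383
    (rowB 3 eng mog cd0q0 cd1q2b pd3 0 true false false .up 0 2 3 (qsf 0 536870912 1239849684 370763052 3) ndB0q0 ndB1q2b pcB3 Cut.none Ext.none)

def k0_mm_023_b : ∃ t, chk3 f_mm_023_b t 1 1 1 = true :=
  ⟨(l 5), by decide +kernel⟩

theorem c_mm_023_b : CertB 0 536870912 1239849684 370763052 649613803 48318383 3 eng mog cd0q0 cd1q2b pd3 true false false .up 0 2 3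
    ndB0q0 ndB1q2b pcB3 Cut.none Ext.none :=
  certB0 (fam := true) (s1 := false) (s2 := false) (a := 0) (b := 2) (c := 3) (cn := .up) (n1 := ndB0q0) (n2 := ndB1q2b) (pc := pcB3) (cut := Cut.none) (xt := Ext.none) (P1 := 0) (W1 := 536870912) (P2 := 1239849684) (W2 := 370763052) (P3 := 649613803) (W3 := 48318383) (N0 := 3) (En := eng) (mo := mog) (C1 := cd0q0) (C2 := cd1q2b) (C3 := pd3)
    rfl k0_mm_023_b

noncomputable def f_mm_033 : ℕ → ℕ → ℕ → ℕ → Bool := onCell 0 536870912 1610612736 536870912 649613803 48318383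
    (rowB 3 eng mog cd0q0 cd1q3 pd3 0 true false false .pnn 0 3 3 (qsf 0 536870912 1610612736 536870912 3) ndB0q0 ndB1q3 pcB3 Cut.none Ext.none)

def k0_mm_033 : ∃ t, chk3 f_mm_033 t 1 1 1 = true :=
  ⟨(l 5), by decide +kernel⟩

theorem c_mm_033 : CertB 0 536870912 1610612736 536870912 649613803 48318383 3 eng mog cd0q0 cd1q3 pd3 true false false .pnn 0 3 3
    ndB0q0 ndB1q3 pcB3 Cut.none Ext.none :=
  certB0 (fam := true) (s1 := false) (s2 := false) (a := 0) (b := 3) (c := 3) (cn := .pnn) (n1 := ndB0q0) (n2 := ndB1q3) (pc := pcB3) (cut := Cut.none) (xt := Ext.none) (P1 := 0) (W1 := 536870912) (P2 := 1610612736) (W2 := 536870912) (P3 := 649613803) (W3 := 48318383) (N0 := 3) (En := eng) (mo := mog) (C1 := cd0q0) (C2 := cd1q3) (C3 := pd3)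
    rfl k0_mm_033

noncomputable def cut_mm_101 : Cut := Cut.of [[⟨0, 1, 0, 67108864⟩, ⟨1, 0, 0, 67108864⟩, ⟨2, 1, 0, 67108864⟩]]

noncomputable def f_mm_101 : ℕ → ℕ → ℕ → ℕ → Bool := onCell 536870912 536870912 0 536870912 649613803 48318383
    (rowB 3 eng mog cd0q1 cd1q0 pd1 0 true false false .npn 1 0 1 (qsf 536870912 536870912 0 536870912 1) ndB0q1 ndB1q0 pcB1 cut_mm_101 Ext.none)

def k0_mm_101 : ∃ t, chk3 f_mm_101 t 1 1 1 = true :=
  ⟨(a (l 4) (b (a (l 4) (b (a (l 4) (b (a (l 4) (b (l 6) (l 4))) (l 4))) (l 4))) (l 4))), by decide +kernel⟩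

theorem c_mm_101 : CertB 536870912 536870912 0 536870912 649613803 48318383 3 eng mog cd0q1 cd1q0 pd1 true false false .npn 1 0 1
    ndB0q1 ndB1q0 pcB1 cut_mm_101 Ext.none :=
  certB0 (fam := true) (s1 := false) (s2 := false) (a := 1) (b := 0) (c := 1) (cn := .npn) (n1 := ndB0q1) (n2 := ndB1q0) (pc := pcB1) (cut := cut_mm_101) (xt := Ext.none) (P1 := 536870912) (W1 := 536870912) (P2 := 0) (W2 := 536870912) (P3 := 649613803) (W3 := 48318383) (N0 := 3) (En := eng) (mo := mog) (C1 := cd0q1) (C2 := cd1q0) (C3 := pd1)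
    rfl k0_mm_101

noncomputable def cut_mm_102 : Cut := Cut.of [[⟨0, 1, 0, 67108864⟩, ⟨1, 0, 0, 67108864⟩, ⟨2, 1, 0, 67108864⟩]]

noncomputable def f_mm_102 : ℕ → ℕ → ℕ → ℕ → Bool := onCell 536870912 536870912 0 536870912 649613803 48318383
    (rowB 3 eng mog cd0q1 cd1q0 pd2 0 true false false .npp 1 0 2 (qsf 536870912 536870912 0 536870912 2) ndB0q1 ndB1q0 pcB2 cut_mm_102 Ext.none)

def k0_mm_102 : ∃ t, chk3 f_mm_102 t 1 1 1 = true :=
  ⟨(a (l 4) (b (a (l 4) (b (a (l 4) (b (a (l 4) (b (l 6) (l 4))) (l 4))) (l 4))) (l 4))), by decide +kernel⟩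

theorem c_mm_102 : CertB 536870912 536870912 0 536870912 649613803 48318383 3 eng mog cd0q1 cd1q0 pd2 true false false .npp 1 0 2
    ndB0q1 ndB1q0 pcB2 cut_mm_102 Ext.none :=
  certB0 (fam := true) (s1 := false) (s2 := false) (a := 1) (b := 0) (c := 2) (cn := .npp) (n1 := ndB0q1) (n2 := ndB1q0) (pc := pcB2) (cut := cut_mm_102) (xt := Ext.none) (P1 := 536870912) (W1 := 536870912) (P2 := 0) (W2 := 536870912) (P3 := 649613803) (W3 := 48318383) (N0 := 3) (En := eng) (mo := mog) (C1 := cd0q1) (C2 := cd1q0) (C3 := pd2)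
    rfl k0_mm_102

noncomputable def f_mm_112 : ℕ → ℕ → ℕ → ℕ → Bool := onCell 536870912 536870912 536870912 536870912 649613803 48318383
    (rowB 3 eng mog cd0q1 cd1q1 pd2 0 true false false .dn 1 1 2 (qsf 536870912 536870912 536870912 536870912 2) ndB0q1 ndB1q1 pcB2 Cut.none Ext.none)

def k0_mm_112 : ∃ t, chk3 f_mm_112 t 1 1 1 = true :=
  ⟨(l 4), by decide +kernel⟩

theorem c_mm_112 : CertB 536870912 536870912 536870912 536870912 649613803 48318383 3 eng mog cd0q1 cd1q1 pd2 true false false .dn 1 1 2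
    ndB0q1 ndB1q1 pcB2 Cut.none Ext.none :=
  certB0 (fam := true) (s1 := false) (s2 := false) (a := 1) (b := 1) (c := 2) (cn := .dn) (n1 := ndB0q1) (n2 := ndB1q1) (pc := pcB2) (cut := Cut.none) (xt := Ext.none) (P1 := 536870912) (W1 := 536870912) (P2 := 536870912) (W2 := 536870912) (P3 := 649613803) (W3 := 48318383) (N0 := 3) (En := eng) (mo := mog) (C1 := cd0q1) (C2 := cd1q1) (C3 := pd2)
    rfl k0_mm_112

noncomputable def f_mm_113 : ℕ → ℕ → ℕ → ℕ → Bool := onCell 536870912 536870912 536870912 536870912 649613803 48318383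
    (rowB 3 eng mog cd0q1 cd1q1 pd3 0 true false false .nn 1 1 3 (qsf 536870912 536870912 536870912 536870912 3) ndB0q1 ndB1q1 pcB3 Cut.none Ext.none)

def k0_mm_113 : ∃ t, chk3 f_mm_113 t 1 1 1 = true :=
  ⟨(l 4), by decide +kernel⟩

theorem c_mm_113 : CertB 536870912 536870912 536870912 536870912 649613803 48318383 3 eng mog cd0q1 cd1q1 pd3 true false false .nn 1 1 3
    ndB0q1 ndB1q1 pcB3 Cut.none Ext.none :=
  certB0 (fam := true) (s1 := false) (s2 := false) (a := 1) (b := 1) (c := 3) (cn := .nn) (n1 := ndB0q1) (n2 := ndB1q1) (pc := pcB3) (cut := Cut.none) (xt := Ext.none) (P1 := 536870912) (W1 := 536870912) (P2 := 536870912) (W2 := 536870912) (P3 := 649613803) (W3 := 48318383) (N0 := 3) (En := eng) (mo := mog) (C1 := cd0q1) (C2 := cd1q1) (C3 := pd3)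
    rfl k0_mm_113

noncomputable def f_mm_123_a : ℕ → ℕ → ℕ → ℕ → Bool := onCell 536870912 536870912 0 536870912 649613803 48318383
    (rowB 3 eng mog cd0q1 cd1q2a pd3 0 true false false .npn 1 2 3 (qsf 536870912 536870912 0 536870912 3) ndB0q1 ndB1q2a pcB3 Cut.none Ext.none)

def k0_mm_123_a : ∃ t, chk3 f_mm_123_a t 1 1 1 = true :=
  ⟨(a (l 5) (l 4)), by decide +kernel⟩

theorem c_mm_123_a : CertB 536870912 536870912 0 536870912 649613803 48318383 3 eng mog cd0q1 cd1q2a pd3 true false false .npn 1 2 3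
    ndB0q1 ndB1q2a pcB3 Cut.none Ext.none :=
  certB0 (fam := true) (s1 := false) (s2 := false) (a := 1) (b := 2) (c := 3) (cn := .npn) (n1 := ndB0q1) (n2 := ndB1q2a) (pc := pcB3) (cut := Cut.none) (xt := Ext.none) (P1 := 536870912) (W1 := 536870912) (P2 := 0) (W2 := 536870912) (P3 := 649613803) (W3 := 48318383) (N0 := 3) (En := eng) (mo := mog) (C1 := cd0q1) (C2 := cd1q2a) (C3 := pd3)
    rfl k0_mm_123_a

noncomputable def f_mm_123_b : ℕ → ℕ → ℕ → ℕ → Bool := onCell 536870912 536870912 1239849684 370763052 649613803 48318383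
    (rowB 3 eng mog cd0q1 cd1q2b pd3 0 true false false .npn 1 2 3 (qsf 536870912 536870912 1239849684 370763052 3) ndB0q1 ndB1q2b pcB3 Cut.none Ext.none)

def k0_mm_123_b : ∃ t, chk3 f_mm_123_b t 1 1 1 = true :=
  ⟨(l 5), by decide +kernel⟩

theorem c_mm_123_b : CertB 536870912 536870912 1239849684 370763052 649613803 48318383 3 eng mog cd0q1 cd1q2b pd3 true false false .npn 1 2 3
    ndB0q1 ndB1q2b pcB3 Cut.none Ext.none :=
  certB0 (fam := true) (s1 := false) (s2 := false) (a := 1) (b := 2) (c := 3) (cn := .npn) (n1 := ndB0q1) (n2 := ndB1q2b) (pc := pcB3) (cut := Cut.none) (xt := Ext.none) (P1 := 536870912) (W1 := 536870912) (P2 := 1239849684) (W2 := 370763052) (P3 := 649613803) (W3 := 48318383) (N0 := 3) (En := eng) (mo := mog) (C1 := cd0q1) (C2 := cd1q2b) (C3 := pd3)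
    rfl k0_mm_123_b

noncomputable def f_mm_133 : ℕ → ℕ → ℕ → ℕ → Bool := onCell 536870912 536870912 1610612736 536870912 649613803 48318383
    (rowB 3 eng mog cd0q1 cd1q3 pd3 0 true false false .dn 1 3 3 (qsf 536870912 536870912 1610612736 536870912 3) ndB0q1 ndB1q3 pcB3 Cut.none Ext.none)

def k0_mm_133 : ∃ t, chk3 f_mm_133 t 1 1 1 = true :=
  ⟨(l 4), by decide +kernel⟩

theorem c_mm_133 : CertB 536870912 536870912 1610612736 536870912 649613803 48318383 3 eng mog cd0q1 cd1q3 pd3 true false false .dn 1 3 3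
    ndB0q1 ndB1q3 pcB3 Cut.none Ext.none :=
  certB0 (fam := true) (s1 := false) (s2 := false) (a := 1) (b := 3) (c := 3) (cn := .dn) (n1 := ndB0q1) (n2 := ndB1q3) (pc := pcB3) (cut := Cut.none) (xt := Ext.none) (P1 := 536870912) (W1 := 536870912) (P2 := 1610612736) (W2 := 536870912) (P3 := 649613803) (W3 := 48318383) (N0 := 3) (En := eng) (mo := mog) (C1 := cd0q1) (C2 := cd1q3) (C3 := pd3)
    rfl k0_mm_133

noncomputable def cut_mm_202 : Cut := Cut.of [[⟨0, 1, 0, 67108864⟩, ⟨1, 0, 0, 67108864⟩, ⟨2, 1, 0, 67108864⟩]]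

noncomputable def f_mm_202 : ℕ → ℕ → ℕ → ℕ → Bool := onCell 0 536870912 0 536870912 649613803 48318383
    (rowB 3 eng mog cd0q2 cd1q0 pd2 0 true false false .pp 2 0 2 (qsf 0 536870912 0 536870912 2) ndB0q2 ndB1q0 pcB2 cut_mm_202 Ext.none)

def k0_mm_202 : ∃ t, chk3 f_mm_202 t 2 4 1 = true :=
  ⟨(a (b (b (a (a (b (c (l 16441336) (l 16442304)) (c (l 16447632) (l 16447560))) (b (c (l 16445144) (l 16445968)) (c (l 16451448) (l 16472072)))) (b (a (c (l 16451224) (l 16451936)) (c (l 16459344) (l 16459864))) (b (a (l 16474224) (a (l 16458680) (l 16463248))) (a (l 16458888) (l 16465664))))) (a (b (c (l 16460480) (l 16460888)) (l 16469376)) (b (a (l 16467656) (l 16453928)) (l 16482080)))) (a (b (l 16479472) (l 16522208)) (b (l 16516240) (a (l 16503176) (l 16535096))))) (b (a (b (a (b (c (l 16469424) (l 16469528)) (b (l 16471384) (a (l 16471880) (l 16476984)))) (b (b (l 16501600) (a (l 16478696) (l 16485784))) (a (l 16481848) (l 16510184)))) (a (b (l 16483560) (l 16495360))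 (b (a (l 16512208) (b (l 16494416) (l 16500696))) (a (l 16503680) (l 16510200))))) (b (a (b (a (b (l 16512936) (l 16493880)) (b (l 16500728) (l 16502880))) (a (l 16497544) (b (l 16505416) (l 16508336)))) (b (a (b (c (l 16510560) (l 16511144)) (l 16512944)) (b (c (l 16521280) (l 16522240)) (l 16534568))) (a (b (l 16515688) (l 16518800)) (b (l 16527024) (l 16530328))))) (a (b (a (b (l 16502264) (l 16507816)) (b (l 16511608) (b (l 16514640) (l 16517640)))) (a (l 16517632) (l 16526032))) (b (a (b (l 16522256) (b (l 16525064) (l 16548328))) (b (l 16533976) (l 16537952))) (a (b (l 16532112) (l 16538848)) (b (a (l 16560952) (b (l 16544312) (l 16547184))) (l 16549544))))))) (a (b (a (l 16531608) (b (l 16518328) (l 16528640))) (a (l 16527016) (l 16542352))) (b (a (b (a (l 16529728) (l 16538576)) (l 16545448)) (b (a (l 16548488) (l 16559496)) (a (l 16560520) (l 16571992)))) (a (b (l 16555856) (l 16565584)) (b (l 16597336) (l 16609464))))))), by decide +kernel⟩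

def k1_mm_202 : ∃ t, chk3 f_mm_202 t 2 5 1 = true :=
  ⟨(a (b (a (b (l 16510944) (b (l 16528656) (a (l 16536056) (l 16544712)))) (b (a (l 16524416) (a (l 16532560) (l 16538624))) (b (a (l 16542512) (l 16554008)) (a (a (l 16551880) (l 16557352)) (l 16566272))))) (a (b (b (a (l 16548640) (l 16557728)) (a (l 16561336) (a (l 16568344) (l 16573400)))) (a (l 16601768) (b (a (l 16581416) (l 16586992)) (l 16598328)))) (b (a (a (b (l 16565280) (l 16579024)) (l 16577800)) (l 16586760)) (a (b (l 16595760) (l 16610176)) (l 16615224))))) (b (a (a (b (l 16548496) (l 16635840)) (b (l 16563952) (l 16589160))) (a (b (l 16584144) (l 16610688)) (b (b (l 16601256) (l 16615000)) (b (l 16628944) (l 16643008))))) (a (a (b (l 16620056) (l 16627712)) (b (l 16634416) (l 16641920))) (b (a (b (l 16630688) (l 16643248)) (b (l 16678056) (a (l 16663512) (l 16678216)))) (a (l 16726088) (b (l 16684056) (l 16698392))))))), by decide +kernel⟩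

def k2_mm_202 : ∃ t, chk3 f_mm_202 t 12 8 1 = true :=
  ⟨(b (b (a (a (b (c (l 16532968) (l 16534392)) (c (l 16536128) (l 16536792))) (b (c (l 16545600) (l 16547560)) (c (l 16548944) (l 16550176)))) (a (a (b (l 16555328) (l 16559776)) (b (l 16528288) (l 16567024))) (b (c (l 16568088) (a (l 16562640) (l 16567232))) (c (l 16575816) (l 16573280))))) (b (a (a (a (l 16536168) (l 16542592)) (c (l 16552648) (l 16553184))) (a (c (l 16566536) (l 16567720)) (l 16571544))) (a (a (l 16563856) (c (l 16556696) (l 16556560))) (a (a (l 16567120) (l 16574560)) (l 16586120))))) (a (b (a (b (l 16546728) (l 16550888)) (b (l 16570936) (l 16585768))) (a (b (a (l 16573040) (l 16558760)) (a (l 16558256) (l 16585448))) (b (l 16569448) (a (b (l 16569512) (l 16572632)) (b (l 16576784) (l 16579536)))))) (b (a (b (a (l 16571304) (l 16578840)) (a (l 16575800) (l 16583432))) (c (l 16592840) (l 16593248))) (b (a (l 16594936) (l 16600296)) (a (a (l 16585648) (l 16593464)) (a (l 16601488) (l 16609664))))))),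 by decide +kernel⟩

def k3_mm_202 : ∃ t, chk3 f_mm_202 t 13 8 1 = true :=
  ⟨(a (c (b (b (a (b (l 16578256) (l 16586400)) (b (l 16589336) (l 16597864))) (a (l 16597992) (l 16615272))) (b (a (l 16608592) (l 16624784)) (a (l 16619456) (l 16635976)))) (b (b (a (b (b (l 16572384) (l 16576832)) (a (l 16580696) (l 16585976))) (b (a (l 16582536) (l 16588160)) (l 16599656))) (a (b (l 16591688) (l 16599704)) (b (a (l 16600128) (l 16606088)) (l 16611472)))) (b (a (l 16609648) (l 16623432)) (a (l 16619608) (l 16636704))))) (b (b (a (b (c (l 16601376) (b (l 16594760) (l 16599552))) (c (l 16610256) (l 16606560))) (a (b (l 16609024) (l 16618392)) (b (l 16626376) (l 16625400)))) (a (b (a (l 16614008) (l 16620560)) (c (l 16627024) (l 16624256))) (b (c (l 16632576) (l 16629240)) (a (l 16636088) (l 16643376))))) (b (a (b (l 16633888) (l 16641752)) (b (l 16648176) (l 16656328))) (a (c (l 16652928) (l 16652248)) (b (l 16664216) (l 16671864)))))), by decide +kernel⟩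

def k4_mm_202 : ∃ t, chk3 f_mm_202 t 6 9 1 = true :=
  ⟨(a (b (a (b (a (b (l 16568224) (l 16574896)) (b (l 16581256) (l 16588136))) (a (l 16584520) (l 16619056))) (b (a (b (a (l 16591720) (a (l 16597248) (l 16601080))) (l 16602384)) (b (a (b (l 16605584) (l 16608512)) (l 16615240)) (a (l 16613688) (b (l 16619784) (l 16623288))))) (a (c (l 16613480) (l 16633160)) (l 16628128)))) (a (b (a (l 16596688) (l 16610712)) (l 16646960)) (b (a (l 16625704) (l 16641616)) (a (l 16638240) (l 16654600))))) (b (b (a (a (b (l 16627848) (a (l 16629680) (l 16638056))) (c (l 16648080) (l 16648136))) (a (c (l 16665360) (l 16665912)) (b (l 16679288) (l 16686504)))) (b (a (a (l 16640728) (c (l 16657800) (l 16657560))) (a (l 16675160) (l 16693232))) (a (a (l 16647816) (l 16664576)) (a (a (l 16677504) (l 16686392)) (l 16700048))))) (a (b (a (l 16658168) (l 16675216)) (a (l 16671568) (l 16688504))) (b (a (l 16692768) (b (c (l 16707008) (l 16706592)) (l 16713552))) (a (l 16705808) (l 16723560)))))),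 by decide +kernel⟩

def k5_mm_202 : ∃ t, chk3 f_mm_202 t 14 8 1 = true :=
  ⟨(b (a (b (a (b (b (c (l 16626472) (l 16622168)) (l 16639792)) (c (l 16638360) (l 16645128))) (b (b (a (l 16635976) (l 16644184)) (a (l 16641000) (l 16649256))) (b (a (l 16645936) (l 16654240)) (l 16665440)))) (a (b (c (l 16647488) (l 16644200)) (c (l 16656288) (l 16653408))) (b (b (l 16680712) (l 16685416)) (c (l 16672640) (l 16690920))))) (a (a (b (b (b (l 6) (l 16657848)) (b (l 16662880) (l 16667824))) (b (l 16685560) (l 16684456))) (b (b (l 6) (b (l 16671856) (l 16676840))) (b (b (l 16681736) (l 16686552)) (l 16704112)))) (b (b (l 6) (a (b (l 6) (l 16686208)) (l 6))) (b (a (b (l 16691144) (l 16696000)) (b (l 6) (l 16705800))) (a (b (l 16700768) (l 16705464)) (b (l 16710600) (l 16715328))))))) (a (b (a (b (a (l 16659592) (l 16667608)) (l 16672000)) (b (a (l 16675928) (l 16684560)) (a (l 16684480) (l 16672240)))) (a (b (l 16680128) (l 16688016)) (b (l 16697176) (l 16705256)))) (b (a (a (b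 (l 16693504) (b (l 16700088) (l 16704384))) (b (l 16723736) (b (l 16709416) (l 16713752)))) (a (b (b (l 16710072) (l 16714608)) (a (l 16718808) (l 16702752))) (b (c (l 16743960) (l 16721512)) (l 16731264)))) (a (a (a (l 16712512) (l 16717168)) (c (l 16724888) (l 16723664))) (b (c (l 16745880) (l 16744864)) (c (l 16754144) (l 16753352))))))), by decide +kernel⟩

def k6_mm_202 : ∃ t, chk3 f_mm_202 t 15 8 1 = true :=
  ⟨(b (a (b (l 6) (a (b (l 6) (b (a (l 16720800) (l 6)) (a (l 16725552) (a (l 16733456) (l 16738848))))) (l 6))) (l 6)) (a (a (b (b (a (b (l 16740720) (a (l 16732216) (l 16737456))) (b (b (l 16750168) (l 16752504)) (l 16745488))) (a (l 16748160) (b (l 16750040) (l 16754520)))) (b (a (l 16760840) (b (l 16758928) (l 16773600))) (a (b (l 16756728) (l 16760800)) (a (l 16771624) (l 25467805623))))) (b (b (a (b (l 16757120) (l 16756528)) (b (l 6) (a (l 16765040) (l 6)))) (a (b (l 16766344) (a (l 16762784) (l 16767952))) (a (b (l 16774392) (l 4)) (l 4)))) (a (a (b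 (a (l 16767536) (l 16775200)) (l 4)) (l 4)) (l 4)))) (b (b (l 6) (l 4)) (l 4)))), by decide +kernel⟩

def k7_mm_202 : ∃ t, chk3 f_mm_202 t 7 9 1 = true :=
  ⟨(a (b (a (b (a (b (l 16695680) (l 16703144)) (a (l 16712448) (l 16731968))) (a (b (l 16710424) (l 16717560)) (a (l 16727312) (l 16746992)))) (a (b (b (a (l 16726880) (l 16736448)) (a (l 16734640) (l 16744280))) (b (a (l 16742224) (l 16751912)) (a (l 16749640) (l 16759104)))) (b (b (a (l 16746320) (l 16766952)) (a (l 16754192) (b (l 16762192) (l 16765704)))) (a (b (l 16771992) (l 4)) (l 4))))) (a (b (b (a (l 16745536) (l 16742720)) (a (c (l 16752832) (l 16751776)) (a (l 16745080) (l 16754296)))) (a (b (l 16738136) (l 16745312)) (b (a (l 16751864) (b (l 16759208) (l 4))) (l 67343723655)))) (b (a (a (b (l 16756696) (l 16761936)) (l 4)) (l 4)) (l 4)))) (a (b (a (b (a (b (c (l 16771776) (l 16771304)) (l 4)) (l 4)) (l 4)) (l 4)) (l 4)) (l 4))), by decide +kernel⟩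

def k8_mm_202 : ∃ t, chk3 f_mm_202 t 3 5 1 = true :=
  ⟨(a (b (a (b (a (b (l 16649912) (l 16643288)) (b (a (l 16652136) (l 16668768)) (a (l 16666888) (l 16683752)))) (a (b (l 16657872) (l 16672608)) (b (a (l 16681920) (l 16699048)) (a (l 16697128) (l 16714528))))) (b (a (b (a (l 16685968) (l 16703600)) (a (l 16701152) (l 16718928))) (b (a (l 16721664) (l 16739968)) (a (l 16737072) (c (l 16777064) (l 16776448))))) (a (b (a (l 16716664) (l 16734568)) (a (l 16732344) (l 16760872))) (a (b (b (l 16748872) (l 16756840)) (l 4)) (l 4))))) (a (b (a (b (l 16687384) (b (l 16698400) (l 16768584))) (b (a (l 16712392) (l 16730056)) (a (l 16727560) (l 16745400)))) (a (b (a (l 16707904) (l 16724904)) (a (l 16722968) (l 16740168))) (b (a (b (l 16738752) (l 16746120)) (b (l 16756640) (l 4))) (a (l 51774509015) (l 4))))) (b (a (a (b (l 16748008) (l 51774501047)) (l 4)) (l 4)) (l 4)))) (b (a (a (b (a (b (b (l 16754016) (l 16783560)) (l 4)) (l 4)) (l 4)) (l 4)) (l 4)) (l 4))), by decide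 +kernel⟩

def k9_mm_202 : ∃ t, chk3 f_mm_202 t 1 3 1 = true :=
  ⟨(a (b (a (b (a (b (a (b (l 16600856) (l 16614184)) (b (l 16612424) (l 16626136))) (a (b (l 16627360) (l 16640120)) (l 16646208))) (a (b (l 16631728) (l 16659272)) (b (l 16644360) (l 16693272)))) (b (a (a (l 16658296) (l 16671472)) (a (l 16685032) (l 16698360))) (b (a (l 16703296) (l 16709568)) (l 2)))) (b (a (b (a (l 16656960) (l 16671048)) (a (l 16685064) (l 16720032))) (b (a (l 16752688) (b (l 16713328) (a (l 16720064) (l 16736408)))) (a (b (l 16711384) (l 16747376)) (b (a (l 16734960) (l 16771424)) (a (l 16769800) (l 4)))))) (a (b (a (l 16711072) (b (l 16718536) (l 16729992))) (a (l 16753640) (a (l 16788008) (l 40500276519)))) (b (a (b (l 16782992) (l 43721477527)) (l 4)) (l 4))))) (a (l 2) (a (l 2) (l 4)))) (b (a (b (a (b (a (b (a (l 16738208) (l 53921986967)) (a (l 16773608) (l 4))) (l 4)) (l 4)) (l 4)) (l 4)) (l 4)) (l 4))), by decide +kernel⟩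

theorem s10_mm_202 : ∃ t, chk3 f_mm_202 t 7 8 1 = true := ex3_a k5_mm_202 k6_mm_202

theorem s11_mm_202 : ∃ t, chk3 f_mm_202 t 7 4 1 = true := ex3_b s10_mm_202 k7_mm_202

theorem s12_mm_202 : ∃ t, chk3 f_mm_202 t 6 8 1 = true := ex3_a k2_mm_202 k3_mm_202

theorem s13_mm_202 : ∃ t, chk3 f_mm_202 t 6 4 1 = true := ex3_b s12_mm_202 k4_mm_202

theorem s14_mm_202 : ∃ t, chk3 f_mm_202 t 3 4 1 = true := ex3_a s13_mm_202 s11_mm_202

theorem s15_mm_202 : ∃ t, chk3 f_mm_202 t 3 2 1 = true := ex3_b s14_mm_202 k8_mm_202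

theorem s16_mm_202 : ∃ t, chk3 f_mm_202 t 2 2 1 = true := ex3_b k0_mm_202 k1_mm_202

theorem s17_mm_202 : ∃ t, chk3 f_mm_202 t 1 2 1 = true := ex3_a s16_mm_202 s15_mm_202

theorem s18_mm_202 : ∃ t, chk3 f_mm_202 t 1 1 1 = true := ex3_b s17_mm_202 k9_mm_202

theorem c_mm_202 : CertB 0 536870912 0 536870912 649613803 48318383 3 eng mog cd0q2 cd1q0 pd2 true false false .pp 2 0 2
    ndB0q2 ndB1q0 pcB2 cut_mm_202 Ext.none :=
  certB0 (fam := true) (s1 := false) (s2 := false) (a := 2) (b := 0) (c := 2) (cn := .pp) (n1 := ndB0q2) (n2 := ndB1q0) (pc := pcB2) (cut := cut_mm_202) (xt := Ext.none) (P1 := 0) (W1 := 536870912) (P2 := 0) (W2 := 536870912) (P3 := 649613803) (W3 := 48318383) (N0 := 3) (En := eng) (mo := mog) (C1 := cd0q2) (C2 := cd1q0) (C3 := pd2)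
    rfl s18_mm_202

noncomputable def f_mm_203 : ℕ → ℕ → ℕ → ℕ → Bool := onCell 0 536870912 1610612736 536870912 649613803 48318383
    (rowB 3 eng mog cd0q2 cd1q0 pd3 1 true false false .up 2 0 3 (qsf 0 536870912 0 536870912 3) ndB0q2 ndB1q0 pcB3 Cut.none Ext.none)

def k0_mm_203 : ∃ t, chk3 f_mm_203 t 1 1 1 = true :=
  ⟨(b (a (b (a (b (b (a (l 16684016) (l 16736856)) (a (l 16691392) (l 16757368))) (a (b (l 16725000) (l 16750296)) (a (b (l 16754112) (l 16772872)) (b (l 16792192) (l 4))))) (b (a (b (a (l 16762192) (b (l 16760832) (l 4))) (a (l 38889662903) (l 4))) (l 4)) (l 4))) (a (a (b (b (l 16766792) (l 2)) (l 2)) (l 4)) (l 4))) (l 4)) (l 2)), by decide +kernel⟩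

theorem c_mm_203 : CertB 0 536870912 0 536870912 649613803 48318383 3 eng mog cd0q2 cd1q0 pd3 true false false .up 2 0 3
    ndB0q2 ndB1q0 pcB3 Cut.none Ext.none :=
  certB1 (fam := true) (s1 := false) (s2 := false) (a := 2) (b := 0) (c := 3) (cn := .up) (n1 := ndB0q2) (n2 := ndB1q0) (pc := pcB3) (cut := Cut.none) (xt := Ext.none) (P1 := 0) (W1 := 536870912) (P2 := 0) (W2 := 536870912) (P3 := 649613803) (W3 := 48318383) (N0 := 3) (En := eng) (mo := mog) (C1 := cd0q2) (C2 := cd1q0) (C3 := pd3)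
    rfl (fun _ => rfl) k0_mm_203

noncomputable def f_mm_213 : ℕ → ℕ → ℕ → ℕ → Bool := onCell 0 536870912 536870912 536870912 649613803 48318383
    (rowB 3 eng mog cd0q2 cd1q1 pd3 0 true false false .pnn 2 1 3 (qsf 0 536870912 536870912 536870912 3) ndB0q2 ndB1q1 pcB3 Cut.none Ext.none)

def k0_mm_213 : ∃ t, chk3 f_mm_213 t 1 1 1 = true :=
  ⟨(a (b (b (a (b (a (b (a (l 16767728) (l 117809528519)) (l 165054259975)) (l 4)) (l 4)) (l 4)) (l 4)) (l 4)) (l 4)), by decide +kernel⟩

theorem c_mm_213 : CertB 0 536870912 536870912 536870912 649613803 48318383 3 eng mog cd0q2 cd1q1 pd3 true false false .pnn 2 1 3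
    ndB0q2 ndB1q1 pcB3 Cut.none Ext.none :=
  certB0 (fam := true) (s1 := false) (s2 := false) (a := 2) (b := 1) (c := 3) (cn := .pnn) (n1 := ndB0q2) (n2 := ndB1q1) (pc := pcB3) (cut := Cut.none) (xt := Ext.none) (P1 := 0) (W1 := 536870912) (P2 := 536870912) (W2 := 536870912) (P3 := 649613803) (W3 := 48318383) (N0 := 3) (En := eng) (mo := mog) (C1 := cd0q2) (C2 := cd1q1) (C3 := pd3)
    rfl k0_mm_213

end Pool.Agent.Strip051.G.I6050_6500.Tab.C.BA01

namespace Pool.Agent.Strip051.G.I6050_6500.Tab.C.BA02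

open Pool.Agent.Strip051.PB Pool.Agent.Strip051.PB.T
open Pool.Agent.Strip051.G.I6050_6500.Tab

noncomputable def f_pp_001 : ℕ → ℕ → ℕ → ℕ → Bool := onCell 0 536870912 0 536870912 649613803 48318383
    (rowB 3 eng mog cd0q0 cd2q0 pd1 0 true true true .up 0 0 1 (qsf 0 536870912 0 536870912 1) ndB0q0 ndB2q0 pcB1 Cut.none Ext.none)

def k0_pp_001 : ∃ t, chk3 f_pp_001 t 1 1 1 = true :=
  ⟨(l 4), by decide +kernel⟩

theorem c_pp_001 : CertB 0 536870912 0 536870912 649613803 48318383 3 eng mog cd0q0 cd2q0 pd1 true true true .up 0 0 1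
    ndB0q0 ndB2q0 pcB1 Cut.none Ext.none :=
  certB0 (fam := true) (s1 := true) (s2 := true) (a := 0) (b := 0) (c := 1) (cn := .up) (n1 := ndB0q0) (n2 := ndB2q0) (pc := pcB1) (cut := Cut.none) (xt := Ext.none) (P1 := 0) (W1 := 536870912) (P2 := 0) (W2 := 536870912) (P3 := 649613803) (W3 := 48318383) (N0 := 3) (En := eng) (mo := mog) (C1 := cd0q0) (C2 := cd2q0) (C3 := pd1)
    rfl k0_pp_001

noncomputable def f_pp_011 : ℕ → ℕ → ℕ → ℕ → Bool := onCell 0 536870912 536870912 536870912 649613803 48318383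
    (rowB 3 eng mog cd0q0 cd2q1 pd1 0 true true true .pnn 0 1 1 (qsf 0 536870912 536870912 536870912 1) ndB0q0 ndB2q1 pcB1 Cut.none Ext.none)

def k0_pp_011 : ∃ t, chk3 f_pp_011 t 1 1 1 = true :=
  ⟨(l 4), by decide +kernel⟩

theorem c_pp_011 : CertB 0 536870912 536870912 536870912 649613803 48318383 3 eng mog cd0q0 cd2q1 pd1 true true true .pnn 0 1 1
    ndB0q0 ndB2q1 pcB1 Cut.none Ext.none :=
  certB0 (fam := true) (s1 := true) (s2 := true) (a := 0) (b := 1) (c := 1) (cn := .pnn) (n1 := ndB0q0) (n2 := ndB2q1) (pc := pcB1) (cut := Cut.none) (xt := Ext.none) (P1 := 0) (W1 := 536870912) (P2 := 536870912) (W2 := 536870912) (P3 := 649613803) (W3 := 48318383) (N0 := 3) (En := eng) (mo := mog) (C1 := cd0q0) (C2 := cd2q1) (C3 := pd1)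
    rfl k0_pp_011

noncomputable def f_pp_012 : ℕ → ℕ → ℕ → ℕ → Bool := onCell 0 536870912 536870912 536870912 649613803 48318383
    (rowB 3 eng mog cd0q0 cd2q1 pd2 0 true true true .pnp 0 1 2 (qsf 0 536870912 536870912 536870912 2) ndB0q0 ndB2q1 pcB2 Cut.none Ext.none)

def k0_pp_012 : ∃ t, chk3 f_pp_012 t 1 1 1 = true :=
  ⟨(l 4), by decide +kernel⟩

theorem c_pp_012 : CertB 0 536870912 536870912 536870912 649613803 48318383 3 eng mog cd0q0 cd2q1 pd2 true true true .pnp 0 1 2
    ndB0q0 ndB2q1 pcB2 Cut.none Ext.none :=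
  certB0 (fam := true) (s1 := true) (s2 := true) (a := 0) (b := 1) (c := 2) (cn := .pnp) (n1 := ndB0q0) (n2 := ndB2q1) (pc := pcB2) (cut := Cut.none) (xt := Ext.none) (P1 := 0) (W1 := 536870912) (P2 := 536870912) (W2 := 536870912) (P3 := 649613803) (W3 := 48318383) (N0 := 3) (En := eng) (mo := mog) (C1 := cd0q0) (C2 := cd2q1) (C3 := pd2)
    rfl k0_pp_012

noncomputable def cut_pp_022_a : Cut := Cut.of [[⟨0, 0, 0, 67108864⟩, ⟨1, 1, 0, 67108864⟩, ⟨2, 1, 0, 67108864⟩]]

noncomputable def f_pp_022_a : ℕ → ℕ → ℕ → ℕ → Bool := onCell 0 536870912 0 536870912 649613803 48318383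
    (rowB 3 eng mog cd0q0 cd2q2a pd2 0 true true true .pp 0 2 2 (qsf 0 536870912 0 536870912 2) ndB0q0 ndB2q2a pcB2 cut_pp_022_a Ext.none)

def k0_pp_022_a : ∃ t, chk3 f_pp_022_a t 4 2 1 = true :=
  ⟨(b (a (a (b (a (b (l 16465392) (l 16447272)) (b (l 16453264) (l 16477080))) (a (b (b (l 16450760) (l 16453880)) (l 16459656)) (b (a (l 16457640) (l 16463968)) (a (l 16464800) (l 16470408))))) (b (a (l 16477648) (l 16478280)) (a (b (l 16473584) (l 16480392)) (l 16499720)))) (b (a (c (l 16493160) (l 16492648)) (b (l 16508376) (l 16513736))) (a (b (l 16501512) (l 16509888)) (l 16589064)))) (a (a (b (a (b (a (l 16467624) (l 16470992)) (a (l 16480568) (l 16484256))) (b (a (l 16474672) (b (l 16476664) (l 16481856))) (a (l 16488240) (b (l 16488608) (l 16496432))))) (a (b (a (b (l 16492320) (l 16501208)) (l 16521752)) (b (a (l 16510856) (l 16515072)) (a (l 16521200) (l 16525560)))) (b (a (l 16520792) (b (l 16504944) (l 16514272))) (b (a (l 16519576) (l 16524360)) (a (l 16530208)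 (l 16535128)))))) (b (a (b (l 16489248) (a (b (l 16494448) (l 16522648)) (l 16504928))) (b (l 16502256) (l 16536024))) (a (a (b (b (l 16541304) (l 16519168)) (b (l 16529392) (l 16540296))) (b (b (l 16516200) (a (l 16523232) (l 16526560))) (b (a (l 16533328) (l 16536224)) (l 16545704)))) (a (b (l 16527568) (b (l 16541384) (a (l 16550056) (l 16553416)))) (b (l 16534480) (l 16553680)))))) (a (b (b (a (l 16514504) (l 16526168)) (a (l 16548912) (l 16540296))) (a (b (b (l 16540008) (l 16549088)) (a (l 16560736) (l 16567664))) (a (b (l 16554368) (l 16574488)) (b (l 16560776) (l 16602192))))) (b (b (l 16542856) (l 16600048)) (b (a (l 16570240) (l 16582672)) (a (l 16612168) (l 16604336))))))), by decide +kernel⟩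

def k1_pp_022_a : ∃ t, chk3 f_pp_022_a t 5 2 1 = true :=
  ⟨(b (a (b (a (a (l 16526936) (l 16538440)) (a (l 16550720) (b (l 16560568) (l 16567264)))) (a (b (l 16543240) (l 16553032)) (a (l 16566992) (b (l 16575504) (l 16585480))))) (b (a (a (l 16599768) (l 16594152)) (a (l 16609872) (l 16625888))) (b (a (a (l 16590496) (l 16606160)) (l 16693232)) (a (a (l 16600416) (l 16616152)) (a (l 16632288) (l 16648688)))))) (a (b (b (a (l 16565112) (a (l 16583952) (l 16618512))) (a (l 16623192) (a (l 16600256) (l 16614000)))) (a (a (b (l 16594984) (l 16638368)) (b (l 16607344) (l 16651496))) (a (b (l 16641288) (l 16664864)) (b (l 16655288) (a (l 16675312) (l 16682640)))))) (a (b (a (b (l 16675200) (b (l 16623960) (l 16654392))) (b (l 16628008) (l 16656176))) (a (b (a (l 16645336) (b (l 16647384) (l 16658520))) (b (l 16666664) (l 16700320))) (b (a (b (l 16655256) (l 16666376)) (l 16681944)) (b (a (l 16699344) (l 16686416)) (a (c (l 16711416) (l 16691592)) (c (l 16719640) (l 16699656)))))))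 (a (b (b (l 16686096) (b (l 16676832) (l 16707328))) (b (a (l 16687472) (a (l 16683176) (l 16687312))) (b (a (l 16694608) (b (l 38889381927) (l 16706208))) (a (c (l 16728224) (l 27615213431)) (l 4))))) (b (b (l 16702512) (a (l 16693928) (l 16702216))) (b (a (a (l 16691464) (l 16737592)) (b (l 16696296) (b (l 16725640) (l 54458764087)))) (b (a (l 87744701303) (l 4)) (l 4)))))))), by decide +kernel⟩

def k2_pp_022_a : ∃ t, chk3 f_pp_022_a t 4 6 1 = true :=
  ⟨(a (b (a (a (a (b (l 16538232) (l 16563384)) (b (l 16555904) (l 16568224))) (b (b (a (l 16541576) (l 16546632)) (a (l 16553696) (l 16558888))) (b (l 16569168) (l 16582816)))) (a (b (b (a (l 16551936) (l 16557472)) (a (l 16564328) (l 16569992))) (b (a (l 16577440) (l 16583232)) (l 16594216))) (b (a (b (a (l 16561776) (l 16564792)) (l 16575872)) (b (l 16590944) (c (l 16604088) (l 16602552)))) (b (c (l 16593040) (l 16612888)) (c (l 16607016) (l 16606216)))))) (a (b (a (b (l 16586560) (l 16598936)) (b (l 16597216) (l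 16612376))) (a (a (b (l 16607128) (l 16588848)) (l 16638096)) (b (l 16627632) (l 16662512)))) (a (b (b (l 16608872) (l 16624296)) (b (l 16640440) (l 16678072))) (b (b (l 16621384) (l 16637056)) (b (l 16663936) (a (l 16666984) (l 16673792))))))) (b (a (b (a (b (l 16580792) (l 16592896)) (b (l 16594888) (l 16607272))) (a (a (b (c (l 16623992) (l 16622640)) (c (l 16637888) (l 16636752))) (b (l 16609488) (b (l 16619720) (l 16647816)))) (b (l 16641400) (l 16655360)))) (b (a (l 16625512) (l 16649800)) (c (a (b (l 16635312) (l 16649496)) (l 16656680)) (a (l 16641616) (l 16656064))))) (b (a (a (b (a (l 16631264) (b (a (l 16632456) (l 16636032)) (l 16662928))) (l 16661016)) (b (b (l 16645376) (l 16652984)) (a (b (l 16657080) (l 16665208)) (l 16668624)))) (a (a (l 16689200) (l 16696640)) (b (l 16678768) (l 16715816)))) (a (a (b (l 16677640) (a (l 16680760) (l 16687888))) (b (a (l 16677848) (b (l 16680984) (l 16710432))) (a (l 16695160) (a (l 16700704) (l 16725408))))) (a (b (l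 16712312) (a (b (l 16726656) (b (l 16733288) (l 16737792))) (l 16738776))) (b (b (l 16728408) (b (l 16734848) (l 16741832))) (a (c (l 16746776) (l 16746392)) (b (l 16739360) (l 4))))))))), by decide +kernel⟩

def k3_pp_022_a : ∃ t, chk3 f_pp_022_a t 8 14 1 = true :=
  ⟨(a (a (a (b (b (l 16655168) (c (l 16670984) (l 16668768))) (b (b (l 16661352) (l 6)) (l 6))) (b (b (b (l 16639576) (l 16646840)) (c (l 16680128) (l 16678272))) (b (a (l 16693904) (l 16698576)) (b (l 16699376) (l 6))))) (b (a (b (l 16651928) (b (l 16663216) (l 16671232))) (b (l 16660344) (l 16675944))) (b (b (a (l 16679952) (a (l 16686616) (l 16690976))) (a (l 16709912) (a (l 16695664) (l 16700064)))) (b (a (a (l 16695888) (l 16700456)) (a (l 16704960) (l 16730376))) (a (b (l 16715760) (l 16720576)) (a (l 16735488) (a (l 16717880) (l 16720104)))))))) (b (a (b (a (l 16668512) (l 16676496)) (a (l 16684400) (l 16703144))) (b (c (l 16708848) (l 16698536)) (a (l 16711256) (l 16719256)))) (b (a (c (a (l 16702384)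 (l 16721192)) (b (l 16711744) (b (l 16708160) (l 16723352)))) (a (a (l 16727136) (l 16731232)) (b (l 16722168) (l 16742008)))) (a (a (b (l 16715960) (l 16732168)) (b (l 16735000) (a (l 16732104) (l 16736368)))) (a (b (l 16738136) (a (l 16740600) (a (l 16743464) (l 16755824)))) (a (b (l 16738968) (c (l 16753648) (l 16753528))) (b (l 16747984) (c (l 16757480) (l 16757472))))))))), by decide +kernel⟩

def k4_pp_022_a : ∃ t, chk3 f_pp_022_a t 8 15 1 = true :=
  ⟨(a (b (a (l 6) (b (a (l 6) (a (b (b (l 16721848) (l 16726832)) (l 6)) (b (b (l 16726360) (l 16720872)) (l 16744248)))) (l 6))) (l 6)) (b (a (b (a (b (c (l 16740904) (l 16740640)) (a (b (l 16740904) (l 16746088)) (a (l 16752072) (l 16754280)))) (b (a (l 16747320) (b (l 16743840) (l 16748648))) (a (b (l 16749712) (c (l 16754600) (l 16754496))) (b (l 16756168) (l 4))))) (a (b (a (b (l 16751384) (l 6)) (b (c (l 16760840) (l 16755496)) (c (l 16762808) (l 16761872)))) (a (l 6) (l 4))) (a (a (b (b (l 16758568) (l 4)) (l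 4)) (l 4)) (l 4)))) (b (a (b (a (b (l 16747648) (l 16757800)) (b (l 16751640) (l 4))) (l 4)) (l 4)) (l 4))) (l 4))), by decide +kernel⟩

def k5_pp_022_a : ∃ t, chk3 f_pp_022_a t 9 7 1 = true :=
  ⟨(b (a (b (b (a (a (l 16698584) (l 16726784)) (a (l 16723680) (a (l 16718824) (l 16743600)))) (a (a (b (l 16712328) (l 16721056)) (c (l 16734856) (l 16734856))) (b (a (l 16727208) (l 16745504)) (a (c (l 16736616) (l 16736592)) (l 4))))) (a (b (a (b (l 16740696) (c (l 16749848) (l 16749768))) (a (b (l 16735944) (l 16750400)) (b (l 16739880) (l 4)))) (a (b (a (a (l 16756176) (l 16747760)) (l 4)) (l 4)) (l 4))) (b (a (b (b (l 16753656) (l 4)) (l 4)) (l 4)) (l 4)))) (b (a (b (b (a (a (l 16700800) (l 16746616)) (a (l 16750576) (l 4))) (a (l 16743720) (l 4))) (l 4)) (l 4)) (l 4))) (l 4)), by decide +kernel⟩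

def k6_pp_022_a : ∃ t, chk3 f_pp_022_a t 5 3 1 = true :=
  ⟨(b (a (b (a (b (b (a (l 16635912) (l 16649592)) (a (l 16649224) (l 16663256))) (a (b (l 16663256) (l 16678016)) (b (l 16677608) (l 16713640)))) (a (b (c (l 16691528) (l 16691704)) (b (l 16713208) (a (l 16724816) (l 43721330583)))) (b (b (l 16698800) (a (l 16688504) (l 16695952))) (b (a (l 16724392) (l 57143101111)) (l 4))))) (a (b (a (b (l 16714504) (a (l 16706080) (b (l 94187119655) (l 16738872)))) (a (b (l 16704712) (l 40500124759)) (b (l 19562133815) (l 4)))) (a (b (a (b (l 16739848) (l 4)) (l 4)) (l 4)) (l 4))) (b (a (b (a (l 37815769895) (l 4)) (l 4)) (l 4)) (l 4)))) (b (a (b (a (a (b (l 16688944) (l 16724400)) (b (l 16696744) (l 52848121351))) (b (a (l 1845372967) (b (c (l 16730120) (l 16730912)) (l 4))) (l 4))) (l 4)) (l 4)) (l 4))) (l 4)), by decide +kernel⟩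

def k7_pp_022_a : ∃ t, chk3 f_pp_022_a t 3 1 1 = true :=
  ⟨(b (b (a (a (a (b (a (l 16642072) (l 16658024)) (a (b (l 16654984) (l 16665224)) (b (l 16671216) (l 16681536)))) (b (c (l 16767928) (l 16740920)) (a (b (l 16686936) (l 16697344)) (b (l 16702032) (l 16733512))))) (a (b (a (l 16723320) (l 16757416)) (a (b (l 16716352) (a (l 16723432) (l 16751432))) (b (l 16750680) (a (l 16779288) (l 31910270599))))) (a (b (b (l 16722864) (l 16753072)) (b (a (l 16739024) (l 2)) (b (a (l 16768224) (l 4)) (l 4)))) (l 2)))) (l 2)) (a (a (b (a (a (b (l 16719040) (a (l 16710528) (l 16739760))) (b (l 16735336) (b (l 16747160) (a (l 16731968) (l 49090080727))))) (b (a (c (l 16751488) (l 16750792)) (b (l 16763264) (a (l 16745120) (l 16753024)))) (a (b (a (l 16738352) (l 50163832583)) (l 4)) (l 4)))) (a (b (a (b (a (l 16746656) (l 48016329895)) (a (b (l 54995639143) (l 4)) (l 4))) (b (l 4) (l 4))) (l 4)) (l 4))) (b (a (b (a (b (c (l 16767904) (l 16767528)) (l 4)) (l 4)) (l 4)) (l 4))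 (l 4))) (l 4))) (l 4)), by decide +kernel⟩

theorem s8_pp_022_a : ∃ t, chk3 f_pp_022_a t 8 7 1 = true := ex3_b k3_pp_022_a k4_pp_022_a

theorem s9_pp_022_a : ∃ t, chk3 f_pp_022_a t 4 7 1 = true := ex3_a s8_pp_022_a k5_pp_022_a

theorem s10_pp_022_a : ∃ t, chk3 f_pp_022_a t 4 3 1 = true := ex3_b k2_pp_022_a s9_pp_022_a

theorem s11_pp_022_a : ∃ t, chk3 f_pp_022_a t 2 3 1 = true := ex3_a s10_pp_022_a k6_pp_022_a

theorem s12_pp_022_a : ∃ t, chk3 f_pp_022_a t 2 2 1 = true := ex3_a k0_pp_022_a k1_pp_022_a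

theorem s13_pp_022_a : ∃ t, chk3 f_pp_022_a t 2 1 1 = true := ex3_b s12_pp_022_a s11_pp_022_a

theorem s14_pp_022_a : ∃ t, chk3 f_pp_022_a t 1 1 1 = true := ex3_a s13_pp_022_a k7_pp_022_a

theorem c_pp_022_a : CertB 0 536870912 0 536870912 649613803 48318383 3 eng mog cd0q0 cd2q2a pd2 true true true .pp 0 2 2
    ndB0q0 ndB2q2a pcB2 cut_pp_022_a Ext.none :=
  certB0 (fam := true) (s1 := true) (s2 := true) (a := 0) (b := 2) (c := 2) (cn := .pp) (n1 := ndB0q0) (n2 := ndB2q2a) (pc := pcB2) (cut := cut_pp_022_a) (xt := Ext.none) (P1 := 0) (W1 := 536870912) (P2 := 0) (W2 := 536870912) (P3 := 649613803) (W3 := 48318383) (N0 := 3) (En := eng) (mo := mog) (C1 := cd0q0) (C2 := cd2q2a) (C3 := pd2)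
    rfl s14_pp_022_a

noncomputable def cut_pp_022_b : Cut := Cut.of [[⟨0, 0, 0, 67108864⟩, ⟨1, 1, 0, 67108864⟩, ⟨2, 1, 0, 67108864⟩]]

noncomputable def f_pp_022_b : ℕ → ℕ → ℕ → ℕ → Bool := onCell 1073741824 536870912 1239849684 370763052 649613803 48318383
    (rowB 3 eng mog cd0q0 cd2q2b pd2 2 true true true .pp 0 2 2 (qsf 0 536870912 1239849684 370763052 2) ndB0q0 ndB2q2b pcB2 cut_pp_022_b Ext.none)

def k0_pp_022_b : ∃ t, chk3 f_pp_022_b t 2 1 1 = true :=
  ⟨(a (l 1) (b (b (b (a (a (b (a (l 1) (b (l 16427872) (l 1))) (l 1)) (a (b (a (b (l 16429736) (l 1)) (b (l 16431624) (l 16404560))) (l 1)) (b (b (l 16440200) (l 16413152)) (l 16372368)))) (a (b (a (l 16438592) (l 16449040)) (l 16463000)) (b (l 16482960) (l 16406376)))) (a (l 1) (a (b (l 16397776) (l 1)) (a (l 16382624) (l 16326968))))) (a (l 1) (a (l 1) (b (l 16315104) (l 1))))) (l 1))), by decide +kernel⟩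

def k1_pp_022_b : ∃ t, chk3 f_pp_022_b t 3 1 1 = true :=
  ⟨(a (b (b (a (b (a (b (a (l 16474640) (l 16484344)) (l 16460080)) (b (a (l 16494896) (l 16506264)) (a (l 16439184) (l 16450712)))) (a (b (l 16367704) (l 16312288)) (b (a (l 16383320) (l 16395064)) (l 16343896)))) (a (b (a (b (l 16518368) (l 16463040)) (b (c (l 16533536) (l 16529096)) (l 16476632))) (a (b (l 16407544) (l 16352056)) (b (l 16421440) (l 16366184)))) (b (b (a (l 16546560) (l 16562008)) (a (l 16491888) (l 16507928))) (a (b (l 16437072) (l 16382200)) (l 16468264))))) (a (a (b (b (l 16257032) (l 16201304)) (l 1)) (b (b (l 16278176) (l 16223160)) (b (l 16168152) (l 16112160)))) (a (b (a (l 16269056) (b (l 16310808) (l 16255936))) (a (l 16159936) (l 16174640))) (b (a (l 16320760) (l 16317504)) (a (l 16191832) (l 16210104)))))) (a (l 1) (b (a (b (a (l 16048600) (l 16065448)) (l 1)) (b (l 16177792) (l 15984280))) (l 1)))) (b (b (a (b (a (b (a (l 16577928) (l 16594336)) (a (l 16524544) (l 16541648))) (b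 (a (l 16610688) (l 16627072)) (a (l 16559056) (l 16576792)))) (a (a (l 16443768) (l 16461672)) (a (l 16501112) (l 16498944)))) (b (a (b (a (l 16643280) (l 16658800)) (l 16665976)) (b (a (l 16673568) (l 16687440)) (l 16699560))) (a (b (l 16574272) (l 16502072)) (b (l 16610568) (l 16541104))))) (a (b (a (a (l 16335872) (l 16354816)) (a (l 16374304) (l 16394208))) (a (l 16357176) (l 16280480))) (a (b (a (l 16414376) (l 16434792)) (l 16322768)) (b (a (l 16455168) (l 16475904)) (l 16386016))))) (a (b (a (b (l 16134544) (l 16029832)) (b (l 16177600) (l 16076048))) (a (l 1) (b (l 15973744) (l 1)))) (b (a (b (l 16222120) (l 16122440)) (b (l 16265896) (l 16167640))) (a (b (l 16024128) (l 15924552)) (b (l 16071696) (l 15976752))))))), by decide +kernel⟩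

theorem s2_pp_022_b : ∃ t, chk3 f_pp_022_b t 1 1 1 = true := ex3_a k0_pp_022_b k1_pp_022_b

theorem c_pp_022_b : CertB 0 536870912 1239849684 370763052 649613803 48318383 3 eng mog cd0q0 cd2q2b pd2 true true true .pp 0 2 2
    ndB0q0 ndB2q2b pcB2 cut_pp_022_b Ext.none :=
  certB2 (fam := true) (s1 := true) (s2 := true) (a := 0) (b := 2) (c := 2) (cn := .pp) (n1 := ndB0q0) (n2 := ndB2q2b) (pc := pcB2) (cut := cut_pp_022_b) (xt := Ext.none) (P1 := 0) (W1 := 536870912) (P2 := 1239849684) (W2 := 370763052) (P3 := 649613803) (W3 := 48318383) (N0 := 3) (En := eng) (mo := mog) (C1 := cd0q0) (C2 := cd2q2b) (C3 := pd2)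
    rfl (fun _ => rfl) s2_pp_022_b

noncomputable def f_pp_023_a : ℕ → ℕ → ℕ → ℕ → Bool := onCell 1610612736 536870912 0 536870912 649613803 48318383
    (rowB 3 eng mog cd0q0 cd2q2a pd3 2 true true true .up 0 2 3 (qsf 0 536870912 0 536870912 3) ndB0q0 ndB2q2a pcB3 Cut.none Ext.none)

def k0_pp_023_a : ∃ t, chk3 f_pp_023_a t 1 1 1 = true :=
  ⟨(b (a (b (a (a (a (b (a (l 16770816) (b (l 16733808) (l 16765512))) (b (a (b (l 16742520) (l 30836525607)) (a (l 37278977271) (l 54995728487))) (l 4))) (b (b (a (l 16743200) (l 16751880)) (a (a (l 16752120) (l 41573940583)) (b (l 55532603719) (l 4)))) (b (l 4) (l 4)))) (a (b (b (a (a (l 16758136) (b (l 16758944) (l 101166577031))) (b (a (l 16773640) (l 104387818919)) (l 4))) (l 4)) (l 4)) (l 4))) (l 4)) (l 4)) (l 2)) (l 4)), by decide +kernel⟩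

theorem c_pp_023_a : CertB 0 536870912 0 536870912 649613803 48318383 3 eng mog cd0q0 cd2q2a pd3 true true true .up 0 2 3
    ndB0q0 ndB2q2a pcB3 Cut.none Ext.none :=
  certB2 (fam := true) (s1 := true) (s2 := true) (a := 0) (b := 2) (c := 3) (cn := .up) (n1 := ndB0q0) (n2 := ndB2q2a) (pc := pcB3) (cut := Cut.none) (xt := Ext.none) (P1 := 0) (W1 := 536870912) (P2 := 0) (W2 := 536870912) (P3 := 649613803) (W3 := 48318383) (N0 := 3) (En := eng) (mo := mog) (C1 := cd0q0) (C2 := cd2q2a) (C3 := pd3)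
    rfl (fun _ => rfl) k0_pp_023_a

noncomputable def f_pp_023_b : ℕ → ℕ → ℕ → ℕ → Bool := onCell 1610612736 536870912 1239849684 370763052 649613803 48318383
    (rowB 3 eng mog cd0q0 cd2q2b pd3 2 true true true .up 0 2 3 (qsf 0 536870912 1239849684 370763052 3) ndB0q0 ndB2q2b pcB3 Cut.none Ext.none)

def k0_pp_023_b : ∃ t, chk3 f_pp_023_b t 1 1 1 = true :=
  ⟨(a (a (b (b (a (b (a (b (a (l 16699480) (l 16731080)) (l 16664512)) (b (a (l 16719800) (l 16749560)) (l 16707968))) (a (b (l 16621472) (l 16575880)) (b (l 16647760) (l 16605928)))) (b (a (b (a (b (l 16745400) (l 16728048)) (b (a (l 16751536) (l 16776976)) (l 16737048))) (a (l 16701504) (l 16711792))) (l 4)) (a (b (l 16734400) (l 16634064)) (l 4)))) (a (a (b (l 16545144) (l 16404032)) (b (b (l 16561576) (l 16514856)) (l 16443984))) (b (a (l 16573800) (l 4)) (l 4)))) (a (b (a (b (l 16305256) (l 16207776)) (b (l 16346176) (l 16249560))) (a (l 16064960) (l 16169976))) (l 4))) (l 4)) (l 4)), by decide +kernel⟩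

theorem c_pp_023_b : CertB 0 536870912 1239849684 370763052 649613803 48318383 3 eng mog cd0q0 cd2q2b pd3 true true true .up 0 2 3
    ndB0q0 ndB2q2b pcB3 Cut.none Ext.none :=
  certB2 (fam := true) (s1 := true) (s2 := true) (a := 0) (b := 2) (c := 3) (cn := .up) (n1 := ndB0q0) (n2 := ndB2q2b) (pc := pcB3) (cut := Cut.none) (xt := Ext.none) (P1 := 0) (W1 := 536870912) (P2 := 1239849684) (W2 := 370763052) (P3 := 649613803) (W3 := 48318383) (N0 := 3) (En := eng) (mo := mog) (C1 := cd0q0) (C2 := cd2q2b) (C3 := pd3)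
    rfl (fun _ => rfl) k0_pp_023_b

noncomputable def f_pp_033 : ℕ → ℕ → ℕ → ℕ → Bool := onCell 0 536870912 1610612736 536870912 649613803 48318383
    (rowB 3 eng mog cd0q0 cd2q3 pd3 1 true true true .pnn 0 3 3 (qsf 0 536870912 1610612736 536870912 3) ndB0q0 ndB2q3 pcB3 Cut.none Ext.none)

def k0_pp_033 : ∃ t, chk3 f_pp_033 t 1 1 1 = true :=
  ⟨(b (b (a (b (a (b (l 215317957303) (l 85932043815)) (l 1)) (l 4)) (l 1)) (l 4)) (l 4)), by decide +kernel⟩

theorem c_pp_033 : CertB 0 536870912 1610612736 536870912 649613803 48318383 3 eng mog cd0q0 cd2q3 pd3 true true true .pnn 0 3 3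
    ndB0q0 ndB2q3 pcB3 Cut.none Ext.none :=
  certB1 (fam := true) (s1 := true) (s2 := true) (a := 0) (b := 3) (c := 3) (cn := .pnn) (n1 := ndB0q0) (n2 := ndB2q3) (pc := pcB3) (cut := Cut.none) (xt := Ext.none) (P1 := 0) (W1 := 536870912) (P2 := 1610612736) (W2 := 536870912) (P3 := 649613803) (W3 := 48318383) (N0 := 3) (En := eng) (mo := mog) (C1 := cd0q0) (C2 := cd2q3) (C3 := pd3)
    rfl (fun _ => rfl) k0_pp_033

noncomputable def f_pp_101 : ℕ → ℕ → ℕ → ℕ → Bool := onCell 536870912 536870912 0 536870912 649613803 48318383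
    (rowB 3 eng mog cd0q1 cd2q0 pd1 0 true true true .npn 1 0 1 (qsf 536870912 536870912 0 536870912 1) ndB0q1 ndB2q0 pcB1 Cut.none Ext.none)

def k0_pp_101 : ∃ t, chk3 f_pp_101 t 1 1 1 = true :=
  ⟨(l 5), by decide +kernel⟩

theorem c_pp_101 : CertB 536870912 536870912 0 536870912 649613803 48318383 3 eng mog cd0q1 cd2q0 pd1 true true true .npn 1 0 1
    ndB0q1 ndB2q0 pcB1 Cut.none Ext.none :=
  certB0 (fam := true) (s1 := true) (s2 := true) (a := 1) (b := 0) (c := 1) (cn := .npn) (n1 := ndB0q1) (n2 := ndB2q0) (pc := pcB1) (cut := Cut.none) (xt := Ext.none) (P1 := 536870912) (W1 := 536870912) (P2 := 0) (W2 := 536870912) (P3 := 649613803) (W3 := 48318383) (N0 := 3) (En := eng) (mo := mog) (C1 := cd0q1) (C2 := cd2q0) (C3 := pd1)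
    rfl k0_pp_101

noncomputable def f_pp_102 : ℕ → ℕ → ℕ → ℕ → Bool := onCell 536870912 536870912 0 536870912 649613803 48318383
    (rowB 3 eng mog cd0q1 cd2q0 pd2 0 true true true .npp 1 0 2 (qsf 536870912 536870912 0 536870912 2) ndB0q1 ndB2q0 pcB2 Cut.none Ext.none)

def k0_pp_102 : ∃ t, chk3 f_pp_102 t 1 1 1 = true :=
  ⟨(l 5), by decide +kernel⟩

theorem c_pp_102 : CertB 536870912 536870912 0 536870912 649613803 48318383 3 eng mog cd0q1 cd2q0 pd2 true true true .npp 1 0 2
    ndB0q1 ndB2q0 pcB2 Cut.none Ext.none :=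
  certB0 (fam := true) (s1 := true) (s2 := true) (a := 1) (b := 0) (c := 2) (cn := .npp) (n1 := ndB0q1) (n2 := ndB2q0) (pc := pcB2) (cut := Cut.none) (xt := Ext.none) (P1 := 536870912) (W1 := 536870912) (P2 := 0) (W2 := 536870912) (P3 := 649613803) (W3 := 48318383) (N0 := 3) (En := eng) (mo := mog) (C1 := cd0q1) (C2 := cd2q0) (C3 := pd2)
    rfl k0_pp_102

noncomputable def f_pp_112 : ℕ → ℕ → ℕ → ℕ → Bool := onCell 536870912 536870912 536870912 536870912 649613803 48318383
    (rowB 3 eng mog cd0q1 cd2q1 pd2 0 true true true .dn 1 1 2 (qsf 536870912 536870912 536870912 536870912 2) ndB0q1 ndB2q1 pcB2 Cut.none Ext.none)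

def k0_pp_112 : ∃ t, chk3 f_pp_112 t 1 1 1 = true :=
  ⟨(l 4), by decide +kernel⟩

theorem c_pp_112 : CertB 536870912 536870912 536870912 536870912 649613803 48318383 3 eng mog cd0q1 cd2q1 pd2 true true true .dn 1 1 2
    ndB0q1 ndB2q1 pcB2 Cut.none Ext.none :=
  certB0 (fam := true) (s1 := true) (s2 := true) (a := 1) (b := 1) (c := 2) (cn := .dn) (n1 := ndB0q1) (n2 := ndB2q1) (pc := pcB2) (cut := Cut.none) (xt := Ext.none) (P1 := 536870912) (W1 := 536870912) (P2 := 536870912) (W2 := 536870912) (P3 := 649613803) (W3 := 48318383) (N0 := 3) (En := eng) (mo := mog) (C1 := cd0q1) (C2 := cd2q1) (C3 := pd2)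
    rfl k0_pp_112

noncomputable def f_pp_113 : ℕ → ℕ → ℕ → ℕ → Bool := onCell 536870912 536870912 536870912 536870912 649613803 48318383
    (rowB 3 eng mog cd0q1 cd2q1 pd3 0 true true true .nn 1 1 3 (qsf 536870912 536870912 536870912 536870912 3) ndB0q1 ndB2q1 pcB3 Cut.none Ext.none)

def k0_pp_113 : ∃ t, chk3 f_pp_113 t 1 1 1 = true :=
  ⟨(l 4), by decide +kernel⟩

theorem c_pp_113 : CertB 536870912 536870912 536870912 536870912 649613803 48318383 3 eng mog cd0q1 cd2q1 pd3 true true true .nn 1 1 3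
    ndB0q1 ndB2q1 pcB3 Cut.none Ext.none :=
  certB0 (fam := true) (s1 := true) (s2 := true) (a := 1) (b := 1) (c := 3) (cn := .nn) (n1 := ndB0q1) (n2 := ndB2q1) (pc := pcB3) (cut := Cut.none) (xt := Ext.none) (P1 := 536870912) (W1 := 536870912) (P2 := 536870912) (W2 := 536870912) (P3 := 649613803) (W3 := 48318383) (N0 := 3) (En := eng) (mo := mog) (C1 := cd0q1) (C2 := cd2q1) (C3 := pd3)
    rfl k0_pp_113

noncomputable def f_pp_123_a : ℕ → ℕ → ℕ → ℕ → Bool := onCell 536870912 536870912 0 536870912 649613803 48318383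
    (rowB 3 eng mog cd0q1 cd2q2a pd3 0 true true true .npn 1 2 3 (qsf 536870912 536870912 0 536870912 3) ndB0q1 ndB2q2a pcB3 Cut.none Ext.none)

def k0_pp_123_a : ∃ t, chk3 f_pp_123_a t 1 1 1 = true :=
  ⟨(a (l 4) (l 4)), by decide +kernel⟩

theorem c_pp_123_a : CertB 536870912 536870912 0 536870912 649613803 48318383 3 eng mog cd0q1 cd2q2a pd3 true true true .npn 1 2 3
    ndB0q1 ndB2q2a pcB3 Cut.none Ext.none :=
  certB0 (fam := true) (s1 := true) (s2 := true) (a := 1) (b := 2) (c := 3) (cn := .npn) (n1 := ndB0q1) (n2 := ndB2q2a) (pc := pcB3) (cut := Cut.none) (xt := Ext.none) (P1 := 536870912) (W1 := 536870912) (P2 := 0) (W2 := 536870912) (P3 := 649613803) (W3 := 48318383) (N0 := 3) (En := eng) (mo := mog) (C1 := cd0q1) (C2 := cd2q2a) (C3 := pd3)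
    rfl k0_pp_123_a

noncomputable def f_pp_123_b : ℕ → ℕ → ℕ → ℕ → Bool := onCell 536870912 536870912 1239849684 370763052 649613803 48318383
    (rowB 3 eng mog cd0q1 cd2q2b pd3 0 true true true .npn 1 2 3 (qsf 536870912 536870912 1239849684 370763052 3) ndB0q1 ndB2q2b pcB3 Cut.none Ext.none)

def k0_pp_123_b : ∃ t, chk3 f_pp_123_b t 1 1 1 = true :=
  ⟨(a (l 4) (l 4)), by decide +kernel⟩

theorem c_pp_123_b : CertB 536870912 536870912 1239849684 370763052 649613803 48318383 3 eng mog cd0q1 cd2q2b pd3 true true true .npn 1 2 3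
    ndB0q1 ndB2q2b pcB3 Cut.none Ext.none :=
  certB0 (fam := true) (s1 := true) (s2 := true) (a := 1) (b := 2) (c := 3) (cn := .npn) (n1 := ndB0q1) (n2 := ndB2q2b) (pc := pcB3) (cut := Cut.none) (xt := Ext.none) (P1 := 536870912) (W1 := 536870912) (P2 := 1239849684) (W2 := 370763052) (P3 := 649613803) (W3 := 48318383) (N0 := 3) (En := eng) (mo := mog) (C1 := cd0q1) (C2 := cd2q2b) (C3 := pd3)
    rfl k0_pp_123_b

noncomputable def f_pp_133 : ℕ → ℕ → ℕ → ℕ → Bool := onCell 536870912 536870912 1610612736 536870912 649613803 48318383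
    (rowB 3 eng mog cd0q1 cd2q3 pd3 0 true true true .dn 1 3 3 (qsf 536870912 536870912 1610612736 536870912 3) ndB0q1 ndB2q3 pcB3 Cut.none Ext.none)

def k0_pp_133 : ∃ t, chk3 f_pp_133 t 1 1 1 = true :=
  ⟨(l 4), by decide +kernel⟩

theorem c_pp_133 : CertB 536870912 536870912 1610612736 536870912 649613803 48318383 3 eng mog cd0q1 cd2q3 pd3 true true true .dn 1 3 3
    ndB0q1 ndB2q3 pcB3 Cut.none Ext.none :=
  certB0 (fam := true) (s1 := true) (s2 := true) (a := 1) (b := 3) (c := 3) (cn := .dn) (n1 := ndB0q1) (n2 := ndB2q3) (pc := pcB3) (cut := Cut.none) (xt := Ext.none) (P1 := 536870912) (W1 := 536870912) (P2 := 1610612736) (W2 := 536870912) (P3 := 649613803) (W3 := 48318383) (N0 := 3) (En := eng) (mo := mog) (C1 := cd0q1) (C2 := cd2q3) (C3 := pd3)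
    rfl k0_pp_133

noncomputable def f_pp_202 : ℕ → ℕ → ℕ → ℕ → Bool := onCell 0 536870912 0 536870912 649613803 48318383
    (rowB 3 eng mog cd0q2 cd2q0 pd2 0 true true true .pp 2 0 2 (qsf 0 536870912 0 536870912 2) ndB0q2 ndB2q0 pcB2 Cut.none Ext.none)

def k0_pp_202 : ∃ t, chk3 f_pp_202 t 1 1 1 = true :=
  ⟨(l 5), by decide +kernel⟩

theorem c_pp_202 : CertB 0 536870912 0 536870912 649613803 48318383 3 eng mog cd0q2 cd2q0 pd2 true true true .pp 2 0 2
    ndB0q2 ndB2q0 pcB2 Cut.none Ext.none :=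
  certB0 (fam := true) (s1 := true) (s2 := true) (a := 2) (b := 0) (c := 2) (cn := .pp) (n1 := ndB0q2) (n2 := ndB2q0) (pc := pcB2) (cut := Cut.none) (xt := Ext.none) (P1 := 0) (W1 := 536870912) (P2 := 0) (W2 := 536870912) (P3 := 649613803) (W3 := 48318383) (N0 := 3) (En := eng) (mo := mog) (C1 := cd0q2) (C2 := cd2q0) (C3 := pd2)
    rfl k0_pp_202

noncomputable def f_pp_203 : ℕ → ℕ → ℕ → ℕ → Bool := onCell 0 536870912 0 536870912 649613803 48318383
    (rowB 3 eng mog cd0q2 cd2q0 pd3 0 true true true .up 2 0 3 (qsf 0 536870912 0 536870912 3) ndB0q2 ndB2q0 pcB3 Cut.none Ext.none)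

def k0_pp_203 : ∃ t, chk3 f_pp_203 t 1 1 1 = true :=
  ⟨(l 5), by decide +kernel⟩

theorem c_pp_203 : CertB 0 536870912 0 536870912 649613803 48318383 3 eng mog cd0q2 cd2q0 pd3 true true true .up 2 0 3
    ndB0q2 ndB2q0 pcB3 Cut.none Ext.none :=
  certB0 (fam := true) (s1 := true) (s2 := true) (a := 2) (b := 0) (c := 3) (cn := .up) (n1 := ndB0q2) (n2 := ndB2q0) (pc := pcB3) (cut := Cut.none) (xt := Ext.none) (P1 := 0) (W1 := 536870912) (P2 := 0) (W2 := 536870912) (P3 := 649613803) (W3 := 48318383) (N0 := 3) (En := eng) (mo := mog) (C1 := cd0q2) (C2 := cd2q0) (C3 := pd3)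
    rfl k0_pp_203

noncomputable def f_pp_213 : ℕ → ℕ → ℕ → ℕ → Bool := onCell 0 536870912 536870912 536870912 649613803 48318383
    (rowB 3 eng mog cd0q2 cd2q1 pd3 0 true true true .pnn 2 1 3 (qsf 0 536870912 536870912 536870912 3) ndB0q2 ndB2q1 pcB3 Cut.none Ext.none)

def k0_pp_213 : ∃ t, chk3 f_pp_213 t 1 1 1 = true :=
  ⟨(l 5), by decide +kernel⟩

theorem c_pp_213 : CertB 0 536870912 536870912 536870912 649613803 48318383 3 eng mog cd0q2 cd2q1 pd3 true true true .pnn 2 1 3
    ndB0q2 ndB2q1 pcB3 Cut.none Ext.none :=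
  certB0 (fam := true) (s1 := true) (s2 := true) (a := 2) (b := 1) (c := 3) (cn := .pnn) (n1 := ndB0q2) (n2 := ndB2q1) (pc := pcB3) (cut := Cut.none) (xt := Ext.none) (P1 := 0) (W1 := 536870912) (P2 := 536870912) (W2 := 536870912) (P3 := 649613803) (W3 := 48318383) (N0 := 3) (En := eng) (mo := mog) (C1 := cd0q2) (C2 := cd2q1) (C3 := pd3)
    rfl k0_pp_213

noncomputable def f_pm_001 : ℕ → ℕ → ℕ → ℕ → Bool := onCell 0 536870912 0 536870912 649613803 48318383
    (rowB 3 eng mog cd0q0 cd2q0 pd1 0 true true false .up 0 0 1 (qsf 0 536870912 0 536870912 1) ndB0q0 ndB2q0 pcB1 Cut.none Ext.none)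

def k0_pm_001 : ∃ t, chk3 f_pm_001 t 1 1 1 = true :=
  ⟨(l 3), by decide +kernel⟩

theorem c_pm_001 : CertB 0 536870912 0 536870912 649613803 48318383 3 eng mog cd0q0 cd2q0 pd1 true true false .up 0 0 1
    ndB0q0 ndB2q0 pcB1 Cut.none Ext.none :=
  certB0 (fam := true) (s1 := true) (s2 := false) (a := 0) (b := 0) (c := 1) (cn := .up) (n1 := ndB0q0) (n2 := ndB2q0) (pc := pcB1) (cut := Cut.none) (xt := Ext.none) (P1 := 0) (W1 := 536870912) (P2 := 0) (W2 := 536870912) (P3 := 649613803) (W3 := 48318383) (N0 := 3) (En := eng) (mo := mog) (C1 := cd0q0) (C2 := cd2q0) (C3 := pd1)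
    rfl k0_pm_001

noncomputable def f_pm_011 : ℕ → ℕ → ℕ → ℕ → Bool := onCell 0 536870912 536870912 536870912 649613803 48318383
    (rowB 3 eng mog cd0q0 cd2q1 pd1 1 true true false .pnn 0 1 1 (qsf 0 536870912 536870912 536870912 1) ndB0q0 ndB2q1 pcB1 Cut.none Ext.none)

def k0_pm_011 : ∃ t, chk3 f_pm_011 t 1 1 1 = true :=
  ⟨(l 3), by decide +kernel⟩

theorem c_pm_011 : CertB 0 536870912 536870912 536870912 649613803 48318383 3 eng mog cd0q0 cd2q1 pd1 true true false .pnn 0 1 1
    ndB0q0 ndB2q1 pcB1 Cut.none Ext.none :=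
  certB1 (fam := true) (s1 := true) (s2 := false) (a := 0) (b := 1) (c := 1) (cn := .pnn) (n1 := ndB0q0) (n2 := ndB2q1) (pc := pcB1) (cut := Cut.none) (xt := Ext.none) (P1 := 0) (W1 := 536870912) (P2 := 536870912) (W2 := 536870912) (P3 := 649613803) (W3 := 48318383) (N0 := 3) (En := eng) (mo := mog) (C1 := cd0q0) (C2 := cd2q1) (C3 := pd1)
    rfl (fun _ => rfl) k0_pm_011

noncomputable def f_pm_012 : ℕ → ℕ → ℕ → ℕ → Bool := onCell 1073741824 536870912 536870912 536870912 649613803 48318383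
    (rowB 3 eng mog cd0q0 cd2q1 pd2 2 true true false .pnp 0 1 2 (qsf 0 536870912 536870912 536870912 2) ndB0q0 ndB2q1 pcB2 Cut.none Ext.none)

def k0_pm_012 : ∃ t, chk3 f_pm_012 t 4 1 1 = true :=
  ⟨(b (l 3) (a (l 3) (b (l 3) (a (l 3) (b (l 3) (a (l 3) (b (l 3) (a (l 3) (a (b (l 3) (a (l 3) (l 16603248))) (b (l 16608384) (b (l 16601640) (l 16597032)))))))))))), by decide +kernel⟩

def k1_pm_012 : ∃ t, chk3 f_pm_012 t 40 2 1 = true :=
  ⟨(b (b (l 2) (l 3)) (l 3)), by decide +kernel⟩

def k2_pm_012 : ∃ t, chk3 f_pm_012 t 82 2 1 = true :=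
  ⟨(b (l 2) (b (l 3) (l 3))), by decide +kernel⟩

def k3_pm_012 : ∃ t, chk3 f_pm_012 t 83 4 1 = true :=
  ⟨(l 2), by decide +kernel⟩

def k4_pm_012 : ∃ t, chk3 f_pm_012 t 166 5 1 = true :=
  ⟨(b (a (b (c (l 16689880) (l 26474274951)) (l 3)) (a (b (l 16666192) (l 16686784)) (b (l 16666120) (l 16686192)))) (l 3)), by decide +kernel⟩

def k5_pm_012 : ∃ t, chk3 f_pm_012 t 167 10 1 = true :=
  ⟨(a (a (b (l 16686624) (l 16685592)) (a (b (l 16665736) (l 16664352)) (b (l 16666128) (l 16685216)))) (b (b (l 2) (b (l 2) (l 16686656))) (c (a (b (l 16667048) (c (a (a (l 16667464) (a (l 16667552) (l 16667664))) (l 16667704)) (a (a (l 16664976) (a (l 16665104) (l 16665280))) (l 16665328)))) (l 16666880)) (a (b (l 16683776) (c (a (a (l 16662584) (a (l 16662744) (l 16662976))) (l 16663024)) (a (a (l 16660272) (a (l 16660464) (l 16660744))) (l 16660800)))) (l 16662440))))), by decide +kernel⟩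

def k6_pm_012 : ∃ t, chk3 f_pm_012 t 334 11 1 = true :=
  ⟨(a (b (l 153712684007) (l 3)) (a (b (l 16662976) (l 3)) (b (l 16662712) (l 764671778743)))), by decide +kernel⟩

def k7_pm_012 : ∃ t, chk3 f_pm_012 t 335 22 2 = true :=
  ⟨(a (b (c (a (b (a (l 16667088) (a (l 16667008) (l 16667072))) (c (a (l 16667520) (b (c (a (l 16667808) (a (a (l 16667776) (l 16667816)) (l 16667832))) (a (l 16667112) (a (a (l 16667080) (l 16667128)) (l 16667144)))) (a (l 16667320) (a (a (l 16667248) (l 16667232)) (l 16667248))))) (a (l 16666128) (b (c (a (l 16666424) (a (a (l 16666392) (l 16666448)) (l 16666464))) (a (l 16665736) (a (a (l 16665712) (l 16665768)) (l 16665792)))) (a (l 16665912) (a (a (l 16665840) (l 16665832)) (l 16665848))))))) (l 16666848)) (a (b (a (l 16664448) (a (l 16664376) (l 16664472))) (c (a (l 16664760) (b (c (a (l 16665056) (a (a (l 16665032) (l 16665096)) (l 16665120))) (a (l 16664376) (a (a (l 16664352) (l 16664424)) (l 16664456)))) (a (l 16664520) (b (l 16664480)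 (l 16664352))))) (a (l 16663400) (a (l 16663264) (a (a (l 16663232) (l 16663256)) (l 16663288)))))) (l 16664192))) (c (a (b (a (l 16666456) (a (l 16666344) (b (l 16666304) (l 16666096)))) (a (l 16665968) (a (l 16665872) (l 16665752)))) (l 16665848)) (a (b (a (l 16663592) (a (l 16663472) (b (l 16663464) (l 16663200)))) (a (l 16662976) (a (l 16662872) (l 16662744)))) (l 16662896)))) (l 16664720)), by decide +kernel⟩

def k8_pm_012 : ∃ t, chk3 f_pm_012 t 335 22 3 = true :=
  ⟨(a (b (c (a (b (a (l 16661888) (a (l 16661816) (l 16661952))) (c (a (l 16662064) (a (l 16661928) (a (a (l 16661896) (l 16661928)) (l 16661960)))) (a (l 16660752) (a (l 16660600) (a (a (l 16660576) (l 16660616)) (l 16660656)))))) (l 16661600)) (a (b (a (l 16659408) (a (l 16659344) (l 16659512))) (a (l 16658808) (a (l 16658656) (a (a (l 16658632) (l 16658680)) (l 16658720))))) (l 16659088))) (c (a (b (a (l 16660792) (a (l 16660664) (l 16665776))) (a (l 16660032) (a (l 16659912) (l 16659784)))) (l 16660000))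 (a (b (a (l 16658048) (a (l 16657912) (l 16657784))) (a (l 16657120) (a (l 16657000) (l 16656872)))) (l 16657160)))) (l 16659168)), by decide +kernel⟩

def k9_pm_012 : ∃ t, chk3 f_pm_012 t 335 23 1 = true :=
  ⟨(c (a (b (c (a (b (a (l 16665352) (a (l 16665264) (l 16665160))) (a (l 16664608) (a (l 16664528) (l 16664440)))) (l 16664672)) (a (b (a (l 16662216) (a (l 16662120) (l 16662016))) (a (l 16661312) (a (l 16661224) (l 16661128)))) (l 16661424))) (c (a (b (a (l 3) (a (l 16663616) (l 16663544))) (a (l 3) (a (l 16662504) (l 16662440)))) (l 16662808)) (a (b (a (l 3) (a (l 16660144) (l 16660064))) (a (l 3) (a (l 16658872) (l 16658800)))) (l 16659248)))) (l 16661712)) (a (b (c (a (b (a (l 16659104) (a (l 16659000) (l 16658888))) (a (l 16658016) (a (l 16657912) (l 16657816)))) (l 16658184)) (a (b (a (l 16656016) (a (l 16655904) (l 16655784))) (a (l 16654720) (a (l 16654608) (l 16654512)))) (l 16654960))) (c (a (b (a (l 3) (a (l 16656648) (l 16656560))) (a (l 3) (a (l 16655200)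 (l 16655128)))) (l 16655648)) (a (b (a (l 3) (a (l 16653128) (l 16653040))) (a (l 3) (a (l 16651488) (l 16651408)))) (l 16652024)))) (l 16654816))), by decide +kernel⟩

def k10_pm_012 : ∃ t, chk3 f_pm_012 t 21 2 1 = true :=
  ⟨(b (l 2) (b (b (a (l 16668128) (l 2)) (a (b (l 16664520) (l 16662160)) (l 16661488))) (b (a (b (l 16659728) (l 16657168)) (l 16652976)) (a (b (l 16654584) (l 16651568)) (l 16644480))))), by decide +kernel⟩

def k11_pm_012 : ∃ t, chk3 f_pm_012 t 11 2 1 = true :=
  ⟨(b (l 2) (b (a (b (l 2) (l 16659776)) (l 2)) (a (b (l 16647024) (l 16633976)) (b (l 16643272) (l 16625048))))), by decide +kernel⟩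

def k12_pm_012 : ∃ t, chk3 f_pm_012 t 40 3 1 = true :=
  ⟨(b (l 3) (b (a (l 3) (b (l 3) (a (l 3) (b (l 16622640) (l 16615488))))) (a (b (a (l 3) (b (l 3) (a (l 16608600) (l 16606272)))) (b (a (a (l 16604624) (l 16602136)) (a (b (l 16602168) (l 16597264)) (b (l 16599496) (l 16594680)))) (a (b (a (l 16597888) (l 16595112)) (a (l 16592976) (l 16590416))) (b (a (l 16592480) (l 16590264)) (l 16587088))))) (b (a (b (l 16611688) (a (l 16604136) (b (l 16604208) (l 16599584)))) (a (b (l 16608568) (l 16620872)) (b (l 16606312) (l 16597976)))) (b (a (a (b (l 16597160) (l 16592720)) (b (l 16595160) (l 16590920))) (l 16590192)) (a (l 16585416) (l 16581360))))))), by decide +kernel⟩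

def k13_pm_012 : ∃ t, chk3 f_pm_012 t 82 3 1 = true :=
  ⟨(b (b (l 3) (a (l 3) (b (l 3) (b (l 3) (l 425906240663))))) (b (b (a (l 334101266071) (b (l 16624560) (l 16619264))) (a (a (l 16616064) (l 16613952)) (b (l 16614288) (l 16607728)))) (b (a (b (a (l 16635816) (l 16602776)) (l 16595056)) (l 16595912)) (a (b (l 16586328) (l 16577000)) (b (l 16582528) (l 16572576)))))), by decide +kernel⟩

def k14_pm_012 : ∃ t, chk3 f_pm_012 t 166 6 1 = true :=
  ⟨(b (l 3) (b (a (l 3) (b (l 16662304) (l 16636352))) (a (b (l 16632624) (l 16627000)) (b (l 16630768) (l 16624928))))), by decide +kernel⟩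

def k15_pm_012 : ∃ t, chk3 f_pm_012 t 334 12 1 = true :=
  ⟨(b (l 3) (c (a (l 542944079991) (a (l 16671088) (b (l 16651872) (l 16647520)))) (a (l 539722841751) (a (l 16642000) (b (l 16643632) (l 16639424)))))), by decide +kernel⟩

def k16_pm_012 : ∃ t, chk3 f_pm_012 t 335 24 1 = true :=
  ⟨(c (a (b (c (a (b (a (l 3) (a (l 3) (l 16661136))) (a (l 3) (a (l 16659752) (l 16659664)))) (l 16660224)) (a (b (a (l 3) (a (l 3) (l 16657368))) (a (l 3) (a (l 16655888) (l 16655792)))) (l 16656384))) (c (a (b (a (l 16658272) (a (l 16658112) (l 16658032))) (a (l 16656480) (a (l 16656336) (l 16656264)))) (l 16656952)) (a (b (a (l 16654328) (a (l 16654160) (l 16654072))) (a (l 16652480) (a (l 16652320) (l 16652240)))) (l 16652944)))) (l 16656192)) (a (b (c (a (b (a (l 3) (a (l 3) (l 16653544))) (a (l 3) (a (l 16651944) (l 16651840)))) (l 16652480)) (a (b (a (l 3) (a (l 3) (l 16649656))) (a (l 3) (a (l 16647920) (l 16647816)))) (l 16648504))) (c (a (b (a (l 16650296) (a (l 16650128)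 (l 16650032))) (a (l 16648384) (a (l 16648216) (l 16648128)))) (l 16648848)) (a (b (a (l 16646176) (a (l 16646000) (l 16645896))) (a (l 16644200) (a (l 16644024) (l 16643928)))) (l 16644664)))) (l 16648096))), by decide +kernel⟩

def k17_pm_012 : ∃ t, chk3 f_pm_012 t 335 25 2 = true :=
  ⟨(a (b (c (a (b (a (l 16654560) (a (l 16654416) (l 16654360))) (a (l 16652504) (a (l 16652376) (b (l 16652848) (l 16651792))))) (l 16653136)) (a (b (a (l 16650528) (a (l 16650376) (l 16650304))) (a (l 16648464) (a (l 16648328) (l 16648264)))) (l 16649056))) (c (a (b (c (a (l 16651304) (b (a (l 16651752) (a (a (l 16651720) (l 16651720)) (l 16651696))) (c (a (l 16651112) (a (a (l 16651080) (l 16651064)) (l 16651016))) (a (l 16650128) (a (a (l 16650096) (l 16650080)) (l 16650024)))))) (a (l 16649328) (a (l 16649200) (a (a (l 16649168) (l 16649152)) (l 16649120))))) (c (a (l 16648976) (b (c (a (l 16649944) (b (a (a (l 16650200) (l 16650152)) (l 16650096)) (a (a (l 16649592) (l 16649528))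 (l 16649472)))) (a (l 16648968) (b (a (a (l 16649216) (l 16649168)) (l 16649112)) (a (a (l 16648616) (l 16648552)) (l 16648488))))) (a (l 16648248) (l 16648112)))) (a (l 16647032) (b (a (l 16647496) (a (a (l 16647432) (l 16647376)) (l 16647312))) (a (l 16646304) (l 16646152)))))) (l 16648696)) (a (b (a (l 16646312) (a (l 16646176) (c (a (a (l 16647152) (l 16647136)) (l 16647096)) (b (l 16645632) (c (l 16645040) (l 16644016)))))) (a (l 16644072) (a (l 16643928) (l 16643784)))) (l 16644656)))) (l 16648344)), by decide +kernel⟩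

def k18_pm_012 : ∃ t, chk3 f_pm_012 t 335 25 3 = true :=
  ⟨(a (b (c (a (b (a (l 16646392) (a (l 16646232) (l 16646152))) (a (l 16644328) (a (l 16644176) (l 16644104)))) (l 16644880)) (a (b (a (l 16642168) (a (l 16642000) (l 16641904))) (a (l 16640104) (a (l 16639936) (l 16639848)))) (l 16640608))) (c (a (b (a (l 16642208) (a (l 16642064) (a (a (l 16642008) (l 16641984)) (l 16641944)))) (a (l 16640032) (a (l 16639872) (l 16639720)))) (l 16640528)) (a (b (a (l 16638016) (a (l 16637848) (b (l 16638280) (l 16637216)))) (a (l 16635912) (a (l 16635728) (l 16635560)))) (l 16636312)))) (l 16639928)), by decide +kernel⟩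

def k19_pm_012 : ∃ t, chk3 f_pm_012 t 167 13 1 = true :=
  ⟨(a (a (b (b (l 16640184) (l 16635056)) (l 16647312)) (a (b (l 16636888) (l 16625496)) (b (b (l 16638936) (l 16633760)) (l 16624800)))) (b (b (c (a (c (a (a (l 16644256) (a (l 16644056) (l 16643880))) (l 16643552)) (a (a (l 16640488) (a (l 16640256) (l 16640048))) (l 16639696))) (l 16640944)) (a (c (a (a (l 16636632) (a (l 16636376) (l 16636136))) (l 16635760)) (a (a (l 16632680) (a (l 16632408) (l 16632152))) (l 16631744))) (l 16632976))) (c (l 16635896) (l 16628592))) (b (l 16668240) (l 16620240)))), by decide +kernel⟩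

def k20_pm_012 : ∃ t, chk3 f_pm_012 t 83 7 1 = true :=
  ⟨(a (b (b (a (l 16618488) (l 16610952)) (b (l 16609152) (l 16603456))) (b (b (l 16595872) (l 16587184)) (b (l 16598368) (l 16587920)))) (b (a (a (b (l 16614280) (l 16603232)) (b (l 16613000) (l 16601680))) (b (a (a (a (l 16612160) (b (l 16614840) (l 16608680))) (l 16611120)) (l 16610160)) (a (a (a (l 16600552) (l 16599744)) (l 16598784)) (l 16597808)))) (a (b (a (l 16588128) (l 16585920)) (b (l 16592936) (l 16582248))) (b (a (a (a (l 16584160) (b (l 16587440) (l 16598848))) (l 16581816)) (l 16580928)) (b (c (a (a (a (l 16571752) (l 16570504)) (l 16569648)) (l 16568760)) (a (a (a (l 16566560) (l 16585624)) (l 16563576)) (l 16562736))) (c (a (a (a (l 16561560) (a (l 16560752) (l 16559968))) (l 16559392)) (l 16558512)) (a (a (a (l 16555168) (a (l 16553984) (l 16552720))) (l 16552016)) (l 16551176)))))))), by decide +kernel⟩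

def k21_pm_012 : ∃ t, chk3 f_pm_012 t 21 3 1 = true :=
  ⟨(b (b (b (a (b (l 16647936) (l 16643808)) (l 16635104)) (a (b (l 16639272) (l 16634320)) (l 16665968))) (b (b (a (l 16628864) (l 16614584)) (l 16677944)) (b (a (l 16616328) (l 16599888)) (a (l 16609640) (l 16592112))))) (b (b (b (a (l 16602952) (l 16584328)) (a (l 16596008) (l 16576360))) (a (l 16627856) (b (l 16568080) (l 16560888)))) (b (b (l 16565224) (a (l 16566040) (l 16546936))) (a (b (l 16555904) (l 16545032)) (b (l 16537512) (l 16527048)))))), by decide +kernel⟩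

def k22_pm_012 : ∃ t, chk3 f_pm_012 t 11 3 1 = true :=
  ⟨(b (b (a (b (a (l 16625424) (l 16616912)) (a (l 16612408) (l 16601992))) (b (l 16606736) (l 16609544))) (a (b (b (l 16595600) (l 16587048)) (b (a (l 16584840) (l 16571152)) (l 16568456))) (b (b (l 16574400) (l 16564056)) (b (l 16553032) (l 16541672))))) (b (b (a (b (l 16580008) (a (l 16558120) (l 16541320))) (b (l 16572160) (a (l 16525944) (l 16511928)))) (a (b (a (l 16548592) (l 16530616)) (a (l 16539984) (l 16520520))) (b (a (l 16514176) (l 16499272)) (a (l 16502560) (l 16486120))))) (b (a (a (l 16614168) (b (l 16512040) (l 16505728))) (a (b (l 16492528) (l 16484656)) (b (l 16474480) (l 16464992)))) (b (a (a (l 16518904) (l 16499688)) (c (l 16511200) (l 16468096))) (a (a (l 16509280) (l 16449528)) (a (l 16473248) (l 16454248))))))), by decide +kernel⟩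

def k23_pm_012 : ∃ t, chk3 f_pm_012 t 3 2 1 = true :=
  ⟨(a (b (l 2) (a (b (l 2) (a (l 16738416) (l 2))) (l 2))) (l 2)), by decide +kernel⟩

def k24_pm_012 : ∃ t, chk3 f_pm_012 t 3 3 1 = true :=
  ⟨(b (a (a (b (a (b (l 16598776) (l 16575280)) (b (l 16597744) (l 16568888))) (a (b (l 16572840) (b (l 16532808) (l 16519504))) (b (l 16539728) (l 16509920)))) (b (b (l 2) (l 16658208)) (b (a (l 16535224) (l 16539528)) (a (l 16498888) (l 16496216))))) (a (b (l 2) (b (l 2) (l 16573960))) (l 2))) (a (a (b (b (a (b (l 16506480) (l 16493136)) (b (l 16487152) (l 16472016))) (a (b (a (l 16485688) (l 16473392)) (a (l 16471168) (l 16457920))) (b (l 16457344) (a (l 16446648) (l 16436408))))) (b (a (b (a (l 16457920) (l 16443232)) (a (l 16446744) (l 16451392))) (b (a (l 16431088) (l 16420200)) (a (l 16417016) (l 16405208)))) (a (a (b (l 16438384) (l 16433984)) (b (a (l 16424400) (l 16416240)) (l 16510608))) (b (a (l 16405136) (l 16391952)) (a (b (l 16398168) (l 16394664)) (b (l 16383608)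 (l 16379032))))))) (b (b (a (l 16484936) (l 16453640)) (a (b (l 16438672) (l 16463832)) (b (l 16423800) (l 16405568)))) (b (a (b (a (l 16410320) (l 16401184)) (a (l 16394648) (l 16385128))) (b (l 16388344) (a (l 16376392) (l 16368032)))) (a (b (a (l 16380392) (l 16370144)) (a (l 16368152) (l 16356800))) (b (a (l 16361000) (l 16352672)) (a (l 16346856) (c (l 16345448) (l 16329768)))))))) (a (b (b (a (l 16452520) (l 16462168)) (a (l 16404728) (l 16404496))) (b (a (b (l 16373560) (l 16356944)) (b (l 16365464) (l 16345456))) (a (b (a (l 16344760) (l 16337728)) (a (c (l 16338472) (l 16321032)) (l 16322832))) (b (l 16328456) (a (l 16316360) (l 16310416)))))) (a (b (b (l 2) (l 16416032)) (b (l 16375848) (b (l 16322008) (l 16346640)))) (b (l 2) (b (l 16366584) (b (l 16324328) (l 16304208)))))))), by decide +kernel⟩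

theorem s25_pm_012 : ∃ t, chk3 f_pm_012 t 3 1 1 = true := ex3_b k23_pm_012 k24_pm_012

theorem s26_pm_012 : ∃ t, chk3 f_pm_012 t 335 25 1 = true := ex3_c k17_pm_012 k18_pm_012

theorem s27_pm_012 : ∃ t, chk3 f_pm_012 t 335 12 1 = true := ex3_b k16_pm_012 s26_pm_012

theorem s28_pm_012 : ∃ t, chk3 f_pm_012 t 167 12 1 = true := ex3_a k15_pm_012 s27_pm_012

theorem s29_pm_012 : ∃ t, chk3 f_pm_012 t 167 6 1 = true := ex3_b s28_pm_012 k19_pm_012

theorem s30_pm_012 : ∃ t, chk3 f_pm_012 t 83 6 1 = true := ex3_a k14_pm_012 s29_pm_012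

theorem s31_pm_012 : ∃ t, chk3 f_pm_012 t 83 3 1 = true := ex3_b s30_pm_012 k20_pm_012

theorem s32_pm_012 : ∃ t, chk3 f_pm_012 t 41 3 1 = true := ex3_a k13_pm_012 s31_pm_012

theorem s33_pm_012 : ∃ t, chk3 f_pm_012 t 20 3 1 = true := ex3_a k12_pm_012 s32_pm_012

theorem s34_pm_012 : ∃ t, chk3 f_pm_012 t 10 3 1 = true := ex3_a s33_pm_012 k21_pm_012

theorem s35_pm_012 : ∃ t, chk3 f_pm_012 t 5 3 1 = true := ex3_a s34_pm_012 k22_pm_012

theorem s36_pm_012 : ∃ t, chk3 f_pm_012 t 335 22 1 = true := ex3_c k7_pm_012 k8_pm_012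

theorem s37_pm_012 : ∃ t, chk3 f_pm_012 t 335 11 1 = true := ex3_b s36_pm_012 k9_pm_012

theorem s38_pm_012 : ∃ t, chk3 f_pm_012 t 167 11 1 = true := ex3_a k6_pm_012 s37_pm_012

theorem s39_pm_012 : ∃ t, chk3 f_pm_012 t 167 5 1 = true := ex3_b k5_pm_012 s38_pm_012

theorem s40_pm_012 : ∃ t, chk3 f_pm_012 t 83 5 1 = true := ex3_a k4_pm_012 s39_pm_012

theorem s41_pm_012 : ∃ t, chk3 f_pm_012 t 83 2 1 = true := ex3_b k3_pm_012 s40_pm_012

theorem s42_pm_012 : ∃ t, chk3 f_pm_012 t 41 2 1 = true := ex3_a k2_pm_012 s41_pm_012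

theorem s43_pm_012 : ∃ t, chk3 f_pm_012 t 20 2 1 = true := ex3_a k1_pm_012 s42_pm_012

theorem s44_pm_012 : ∃ t, chk3 f_pm_012 t 10 2 1 = true := ex3_a s43_pm_012 k10_pm_012

theorem s45_pm_012 : ∃ t, chk3 f_pm_012 t 5 2 1 = true := ex3_a s44_pm_012 k11_pm_012

theorem s46_pm_012 : ∃ t, chk3 f_pm_012 t 5 1 1 = true := ex3_b s45_pm_012 s35_pm_012

theorem s47_pm_012 : ∃ t, chk3 f_pm_012 t 2 1 1 = true := ex3_a k0_pm_012 s46_pm_012

theorem s48_pm_012 : ∃ t, chk3 f_pm_012 t 1 1 1 = true := ex3_a s47_pm_012 s25_pm_012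

theorem c_pm_012 : CertB 0 536870912 536870912 536870912 649613803 48318383 3 eng mog cd0q0 cd2q1 pd2 true true false .pnp 0 1 2
    ndB0q0 ndB2q1 pcB2 Cut.none Ext.none :=
  certB2 (fam := true) (s1 := true) (s2 := false) (a := 0) (b := 1) (c := 2) (cn := .pnp) (n1 := ndB0q0) (n2 := ndB2q1) (pc := pcB2) (cut := Cut.none) (xt := Ext.none) (P1 := 0) (W1 := 536870912) (P2 := 536870912) (W2 := 536870912) (P3 := 649613803) (W3 := 48318383) (N0 := 3) (En := eng) (mo := mog) (C1 := cd0q0) (C2 := cd2q1) (C3 := pd2)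
    rfl (fun _ => rfl) s48_pm_012

noncomputable def cut_pm_022_a : Cut := Cut.of [[⟨0, 0, 0, 67108864⟩, ⟨1, 1, 0, 67108864⟩, ⟨2, 1, 0, 67108864⟩]]

noncomputable def xt_pm_022_a : Ext := extD2 3 ⟨7, 3, 3, 10, 377, 200, 77, 100, 17, 50, 3, 16⟩ eng cd0q0 cd2q2a pd2 true true false .pp 0 2 2 rfl ndB0q0 ndB2q2a pcB2

noncomputable def f_pm_022_a : ℕ → ℕ → ℕ → ℕ → Bool := onCell 1073741824 536870912 0 536870912 649613803 48318383
    (rowB 3 eng mog cd0q0 cd2q2a pd2 2 true true false .pp 0 2 2 (qsf 0 536870912 0 536870912 2) ndB0q0 ndB2q2a pcB2 cut_pm_022_a xt_pm_022_a)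

def k0_pm_022_a : ∃ t, chk3 f_pm_022_a t 8 1 1 = true :=
  ⟨(b (l 1) (b (l 1) (b (a (l 1) (b (a (l 1) (b (l 1) (a (l 1) (b (l 16629832) (l 16637784))))) (a (l 6) (a (l 6) (a (l 6) (b (l 16647968) (l 16662288))))))) (a (l 6) (a (l 6) (a (l 6) (a (l 6) (a (l 6) (b (b (l 16675856) (l 16689552)) (b (l 16697656) (b (l 16700504) (l 16702112)))))))))))), by decide +kernel⟩

def k1_pm_022_a : ∃ t, chk3 f_pm_022_a t 9 2 1 = true :=
  ⟨(b (l 1) (a (l 1) (b (l 1) (a (l 1) (b (l 1) (a (l 1) (l 16500944))))))), by decide +kernel⟩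

def k2_pm_022_a : ∃ t, chk3 f_pm_022_a t 9 6 1 = true :=
  ⟨(a (b (l 1) (a (b (l 1) (a (l 1) (b (l 16584064) (l 16598888)))) (b (a (l 16593736) (b (l 16555720) (l 16569048))) (b (a (l 16583424) (l 16582448)) (a (l 16597440) (l 16595696)))))) (b (a (b (b (l 1) (l 16520504)) (a (l 16537560) (l 55867682391))) (b (a (l 16517992) (l 16519520)) (a (l 16539144) (l 16539440)))) (b (a (b (a (l 16555984) (l 16555904)) (l 16589152)) (c (a (l 16565272) (l 16563872)) (l 16556176))) (a (b (l 16580464) (a (l 16593736) (l 16591536))) (a (b (l 16577976) (l 16589128)) (l 16581384)))))), by decide +kernel⟩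

def k3_pm_022_a : ∃ t, chk3 f_pm_022_a t 9 7 1 = true :=
  ⟨(b (a (b (a (b (a (l 16615720) (l 16613704)) (a (b (l 16627424) (l 16634944)) (l 16628360))) (b (a (l 16611456) (l 16608936)) (a (l 16625312) (l 16622032)))) (a (b (a (l 16645384) (l 16641800)) (a (l 16680128) (l 16654888))) (b (a (l 16638064) (l 16634128)) (l 16648192)))) (b (a (b (a (l 16606240) (l 16603344)) (l 16616792)) (c (l 16605808) (l 16601848))) (a (c (l 16655824) (l 16631872)) (c (l 16619856) (l 16622000))))) (a (a (b (b (a (l 16651824) (l 16667840)) (c (l 16682248) (l 16682168))) (b (b (l 16706536) (a (c (l 16692904) (l 16693344)) (l 16684040))) (b (a (l 16694848) (l 16685776)) (a (c (b (l 16696544) (l 16697448)) (l 16695920)) (c (l 16698536) (l 16686608)))))) (b (b (l 16681160) (c (l 16665192) (l 16666400))) (a (b (b (l 16673208) (l 16675104)) (b (l 16676760) (c (l 16679152) (l 16677328)))) (b (l 16675928) (b (l 16667904) (c (l 16670432) (l 16668184))))))) (b (a (b (l 16665064) (a (l 16652824)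 (l 16644456))) (b (c (l 16648944) (l 16628448)) (a (l 16636288) (l 16628296)))) (b (a (b (l 16672608) (l 16666464)) (a (l 16639944) (l 16631784))) (a (a (b (l 16659120) (c (l 16661792) (l 16659112))) (b (l 16650504) (c (l 16653312) (l 16650184)))) (a (b (l 16642048) (c (l 16645000) (l 16641416))) (b (l 16633760) (c (l 16636848) (l 16632808))))))))), by decide +kernel⟩

def k4_pm_022_a : ∃ t, chk3 f_pm_022_a t 5 4 1 = true :=
  ⟨(a (a (a (l 1) (b (a (l 1) (b (l 16514728) (l 16454472))) (a (c (l 16460144) (l 16450360)) (b (l 16457296) (l 16462592))))) (c (a (b (a (b (c (l 16446544) (l 16447632)) (l 16451232)) (b (a (l 16445440) (l 16444920)) (a (l 16449688) (l 16449080)))) (c (a (l 16461296) (b (l 16476328) (l 16463448))) (b (l 16499448) (l 16465960)))) (a (b (b (l 16447384) (l 16451152)) (b (l 16457008) (l 16464800))) (b (b (l 16450760) (l 16453960)) (l 16463056)))) (b (a (a (l 16454728) (l 16503944)) (l 16455016)) (a (a (l 16459840) (l 16463632)) (l 16461880))))) (a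 (b (c (a (a (l 16486600) (l 16457320)) (l 16480368)) (b (l 16510376) (a (l 16455016) (l 16453824)))) (a (b (l 16459984) (l 16422240)) (c (b (l 16461600) (l 16466080)) (l 16457096)))) (b (a (c (b (l 16460968) (l 16460888)) (l 16455160)) (b (c (l 16464368) (l 16457952)) (l 16460976))) (a (b (c (l 16421096) (l 16455440)) (l 16463640)) (b (l 16462232) (l 16465552)))))), by decide +kernel⟩

def k5_pm_022_a : ∃ t, chk3 f_pm_022_a t 5 5 1 = true :=
  ⟨(a (a (a (a (b (l 1) (b (l 16508256) (l 16503224))) (b (b (l 16462888) (l 16475272)) (b (b (l 16486280) (l 16493720)) (l 16505112)))) (b (b (c (l 16472744) (l 16463304)) (c (l 16483880) (l 16474704))) (a (b (c (l 16496472) (l 16487248)) (l 16506624)) (a (b (l 16493968) (l 16507520)) (a (b (l 16494632) (l 16507856)) (b (l 16494992) (l 16507992))))))) (b (c (a (b (l 16548392) (l 16485624)) (l 16522016)) (a (a (l 16474496) (l 16477344)) (l 16453888))) (b (a (a (l 16496008) (l 16497136)) (l 16493736)) (b (l 16566848) (l 16572816)))))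 (b (a (a (b (c (l 16473296) (l 16466392)) (l 16478984)) (b (c (l 16472528) (l 16464424)) (l 16476896))) (b (a (l 16469288) (l 16470728)) (a (l 16476304) (l 16476952)))) (a (b (a (l 16489112) (c (l 16489376) (l 16481744))) (a (l 16499960) (l 16496104))) (b (a (l 16484504) (l 16484096)) (a (l 16493432) (l 16491848)))))), by decide +kernel⟩

def k6_pm_022_a : ∃ t, chk3 f_pm_022_a t 5 6 1 = true :=
  ⟨(a (a (a (b (b (a (l 16520688) (l 16521512)) (c (l 16543008) (l 16534720))) (b (c (l 16561224) (l 16554528)) (c (l 16579608) (l 16574840)))) (b (a (b (l 16522000) (l 16538536)) (a (b (l 16522136) (l 16537848)) (b (a (l 16522040) (l 16521832)) (a (l 16537312) (l 16536736))))) (a (b (l 16555792) (l 16573288)) (a (l 16625864) (a (l 16603616) (b (l 16552280) (l 16567920))))))) (a (b (b (l 16521824) (l 16535760)) (c (l 16597952) (l 16619080))) (b (b (l 16517176) (l 16529840)) (l 16601808)))) (b (a (b (l 16529312) (l 16519304)) (b (l 16500768) (l 16509136))) (a (a (l 16582128) (l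 16531864)) (b (l 16517128) (l 16524152))))), by decide +kernel⟩

def k7_pm_022_a : ∃ t, chk3 f_pm_022_a t 5 14 1 = true :=
  ⟨(a (a (a (b (l 16648120) (c (l 16605728) (l 16606728))) (a (b (l 16585808) (l 16595696)) (b (a (l 16581328) (a (l 16579456) (l 16578632))) (a (l 16591024) (a (l 16589104) (b (l 16585776) (l 16590592))))))) (b (a (l 16571432) (l 16561696)) (a (b (l 16578192) (l 16624696)) (l 16548512)))) (a (b (l 16548792) (a (l 16559432) (l 16548968))) (b (l 16529696) (l 16553960)))), by decide +kernel⟩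

def k8_pm_022_a : ∃ t, chk3 f_pm_022_a t 5 15 1 = true :=
  ⟨(a (a (a (a (b (b (l 16616496) (l 16620536)) (b (l 16623856) (b (l 16625696) (c (l 16628896) (l 16624424))))) (b (b (l 16609168) (l 16613040)) (b (l 16616184) (b (l 16617880) (c (l 16621176) (l 16616280)))))) (a (b (b (l 16602224) (l 16605928)) (b (a (l 16610608) (l 16607080)) (a (b (l 16612192) (l 16612904)) (b (l 16608592) (c (l 16611944) (l 16606592)))))) (a (b (b (l 16597392) (l 16600992)) (b (l 16603824) (b (l 16605256) (a (l 16606608) (c (l 16607744) (l 16602288)))))) (b (a (b (l 16595440) (l 16599000)) (b (b (l 16614688) (l 16637520)) (b (l 16639344) (c (l 16642424) (l 16618672))))) (b (a (l 16601792) (a (a (a (l 16601280) (a (l 16601360) (l 16601640))) (l 16601384)) (l 16600648))) (a (a (b (l 16603352) (l 16603920)) (b (l 16602840) (a (l 16603472) (l 16603272)))) (a (a (b (a (l 16602656) (a (l 16602752) (l 16624008))) (a (l 16603216) (a (l 16603312) (a (a (l 16603440) (c (l 16606152) (l 16601024)))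 (l 16603624))))) (l 16603104)) (l 16602336)))))))) (b (a (a (l 16613040) (a (l 16586528) (l 16603944))) (b (l 16574320) (l 16576808))) (a (b (a (l 16596224) (l 16609440)) (b (a (l 16597464) (a (l 16591440) (l 16587512))) (a (b (l 16597840) (l 16597992)) (a (l 16591776) (a (l 16588720) (l 16586808)))))) (b (l 16578440) (b (l 16578896) (a (l 16582384) (l 16575232))))))) (b (a (b (l 16620120) (a (l 16564576) (l 16552096))) (b (l 16575744) (a (l 16539616) (l 16527368)))) (a (b (a (l 16565256) (l 16551912)) (a (b (l 16564984) (a (l 16568016) (l 16560776))) (b (l 16550968) (c (l 16553240) (l 16546512))))) (b (a (l 16538648) (l 16525704)) (a (b (l 16537112) (c (l 16539296) (l 16531920))) (b (l 16523632) (c (l 16525888) (l 16517648)))))))), by decide +kernel⟩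

def k9_pm_022_a : ∃ t, chk3 f_pm_022_a t 6 2 1 = true :=
  ⟨(b (a (a (b (b (a (l 16466080) (l 16471376)) (a (l 16464832) (l 16469792))) (a (b (l 16465744) (l 16468648)) (b (l 16470312) (l 16472760)))) (b (b (l 16481216) (a (l 16475736) (l 16482616))) (a (b (l 16475848) (l 16477816)) (b (l 16482304) (l 16483808))))) (a (b (a (l 16491904) (b (l 16502160) (l 16499048))) (a (b (l 16489656) (l 16490688)) (b (l 16497856) (l 16519368)))) (b (a (b (l 16512048) (l 16508496)) (b (l 16522592) (l 16518624))) (a (b (l 16506840) (l 16506840)) (l 16537328))))) (a (b (a (b (a (l 16473304) (l 16476864)) (a (l 16478696) (l 16481448))) (b (a (l 16481376) (l 16486824)) (a (l 16485152) (l 16489808)))) (a (b (a (l 16484776) (l 16486472)) (a (l 16491328) (l 16491824))) (b (a (l 16489168) (l 16492816)) (l 16515448)))) (a (b (a (b (l 16493160) (l 16495360)) (b (a (l 16498448) (l 16502184)) (a (l 16500040) (l 16503352)))) (a (b (l 16497352) (l 16499080)) (b (a (l 16501248) (l 16504024)) (l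 16503032)))) (b (a (b (l 16508112) (l 16508640)) (b (l 16516576) (l 16516264))) (a (b (l 16508504) (l 16507640)) (b (l 16515064) (l 16512912))))))), by decide +kernel⟩

def k10_pm_022_a : ∃ t, chk3 f_pm_022_a t 7 2 1 = true :=
  ⟨(b (a (a (b (b (a (l 16533696) (l 16545352)) (l 16534968)) (a (l 16526304) (l 16536824))) (b (a (b (l 16557328) (l 16552112)) (b (l 16569144) (l 16563512))) (a (l 16547576) (l 16558120)))) (a (b (b (l 16628176) (a (l 16574600) (l 16585264))) (l 16615224)) (b (a (b (l 16602176) (l 16595336)) (b (l 16611920) (l 16604664))) (b (a (l 16589616) (l 16598424)) (l 16588928))))) (a (b (a (a (b (l 16525656) (l 16524528)) (l 16534448)) (b (l 16549680) (l 16545944))) (a (a (l 16520736) (l 16527296)) (a (l 16533664) (l 16539792)))) (b (a (a (l 16561048) (l 16569128)) (b (l 16583904) (l 16575704))) (a (a (l 16545560) (l 16550888)) (a (l 16555624) (l 16559880)))))), by decide +kernel⟩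

def k11_pm_022_a : ∃ t, chk3 f_pm_022_a t 6 3 1 = true :=
  ⟨(b (a (b (b (a (l 16497368) (l 16497824)) (a (l 16502968) (l 16500344))) (a (b (l 16507792) (l 16511016)) (b (l 16501344) (l 16499856)))) (b (b (a (a (l 16500232) (l 16502592)) (a (l 16505712) (l 16509248))) (a (l 16500224) (l 16502136))) (a (b (l 16496640) (l 16488968)) (b (l 16492888) (l 16477944))))) (a (b (b (a (l 16511848) (l 16495200)) (a (l 16533344) (a (l 16498488) (l 16490264)))) (b (a (a (l 16537376) (l 16526568)) (a (l 16516544) (l 16486416))) (a (b (a (l 16513320) (l 16501696)) (b (a (l 16510784) (l 16498760)) (a (a (l 16511896) (l 16505528)) (a (b (l 16499984) (l 16498744)) (l 16493440))))) (b (a (l 16490912) (l 16480928)) (a (b (l 16487568) (a (l 16487712) (l 16482200))) (b (l 16477192) (a (l 16497864) (c (l 16477872) (l 16465336))))))))) (b (a (b (l 16502776) (a (l 16482912) (l 16475936))) (b (l 16491016) (c (l 16572360) (l 16546992)))) (b (a (a (l 16477952) (b (l 16471712) (l 16467816))) (a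 (b (l 16464000) (l 16459584)) (b (l 16456344) (l 16451336)))) (a (b (a (l 16492656) (a (l 16465104) (l 16460688))) (a (b (a (l 16469912) (l 16465264)) (a (c (l 16473096) (l 16460200)) (c (l 16468440) (l 16455240)))) (a (b (l 16460680) (b (l 16479168) (a (l 16457640) (l 16455232)))) (b (l 16456048) (c (b (l 16459768) (l 16458152)) (l 16445616)))))) (b (a (a (l 16456288) (l 16451904)) (a (l 16447488) (l 16443000))) (a (b (a (l 16451448) (l 16446840)) (a (c (b (l 16454960) (l 16453264)) (l 16440904)) (c (l 16459704) (l 16436224)))) (c (b (l 16445264) (a (b (l 16445128) (l 16443256)) (l 16460032))) (b (l 16433648) (a (l 16431544) (l 16426832))))))))))), by decide +kernel⟩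

def k12_pm_022_a : ∃ t, chk3 f_pm_022_a t 14 3 1 = true :=
  ⟨(b (b (a (b (l 16556880) (l 16504688)) (b (l 16522048) (l 16506616))) (a (b (l 16488888) (l 16465592)) (b (l 16483888) (l 16452136)))) (b (a (b (l 16542584) (a (l 16455384) (l 16449168))) (b (l 16478448) (a (l 16442608) (l 16435224)))) (b (a (a (b (l 16448776) (l 16443152)) (b (l 16441928) (l 16435920))) (a (b (l 16434736) (l 16428424)) (b (l 16427024) (l 16420456)))) (a (b (a (c (l 16440864) (l 16431296)) (c (l 16432952) (l 16423840))) (b (a (a (l 16432680) (l 16428600)) (c (l 16427568) (l 16417088))) (a (a (c (l 16433888) (l 16422128)) (c (l 16429624) (l 16418032))) (c (a (l 16425616) (l 16421560)) (a (l 16414144) (l 16410248)))))) (b (a (c (l 16424872) (l 16416368)) (c (l 16416104) (l 16408392))) (b (a (c (l 16419360) (l 16409352)) (c (l 16410584) (l 16401200))) (a (c (a (l 16417416) (l 16413088)) (a (l 16406296) (l 16402208))) (c (a (l 16408736) (l 16404416)) (a (l 16398104) (l 16394040)))))))))), by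 decide +kernel⟩

def k13_pm_022_a : ∃ t, chk3 f_pm_022_a t 15 3 1 = true :=
  ⟨(a (b (b (b (l 16527944) (l 16654968)) (b (l 16479232) (l 16439160))) (b (b (l 16557056) (a (l 16427008) (l 16417432))) (b (a (b (l 16418304) (l 16411648)) (b (l 16409048) (l 16402656))) (b (a (c (l 16407160) (l 16400312)) (l 16396088)) (a (b (c (l 16401936) (l 16393208)) (c (a (l 16400360) (l 16396600)) (a (l 16390232) (l 16386704)))) (a (b (l 16392592) (c (l 16393168) (l 16383488))) (b (l 16389320) (c (l 16390104) (b (l 16381680) (l 16379584)))))))))) (b (b (b (l 16532432) (c (l 16518440) (l 16501232))) (b (l 16475872) (l 16429920))) (b (b (l 16451664) (c (l 16461168) (l 16447352))) (a (b (b (l 16399720) (l 16394600)) (b (l 16410264) (b (c (l 16388312) (l 16380800)) (c (c (b (l 16388288) (a (l 16388632) (l 140836615400357903))) (l 140685226388881423)) (a (l 140832286056300559) (l 140638084810981391)))))) (c (b (l 16388472) (b (l 16385536) (b (l 16384008) (c (b (l 16384608) (a (l 140869394587533327)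 (a (l 140714226007425039) (l 140720410759643151)))) (a (l 140711133626286095) (a (l 140568334551908367) (l 140402926770618383))))))) (b (l 16389640) (b (l 16381320) (b (l 140808577834418191) (a (l 140445601553563663) (l 140614101708505103)))))))))), by decide +kernel⟩

theorem s14_pm_022_a : ∃ t, chk3 f_pm_022_a t 7 3 1 = true := ex3_a k12_pm_022_a k13_pm_022_a

theorem s15_pm_022_a : ∃ t, chk3 f_pm_022_a t 3 3 1 = true := ex3_a k11_pm_022_a s14_pm_022_a

theorem s16_pm_022_a : ∃ t, chk3 f_pm_022_a t 3 2 1 = true := ex3_a k9_pm_022_a k10_pm_022_a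

theorem s17_pm_022_a : ∃ t, chk3 f_pm_022_a t 3 1 1 = true := ex3_b s16_pm_022_a s15_pm_022_a

theorem s18_pm_022_a : ∃ t, chk3 f_pm_022_a t 5 7 1 = true := ex3_b k7_pm_022_a k8_pm_022_a

theorem s19_pm_022_a : ∃ t, chk3 f_pm_022_a t 5 3 1 = true := ex3_b k6_pm_022_a s18_pm_022_a

theorem s20_pm_022_a : ∃ t, chk3 f_pm_022_a t 5 2 1 = true := ex3_b k4_pm_022_a k5_pm_022_a

theorem s21_pm_022_a : ∃ t, chk3 f_pm_022_a t 5 1 1 = true := ex3_b s20_pm_022_a s19_pm_022_a

theorem s22_pm_022_a : ∃ t, chk3 f_pm_022_a t 9 3 1 = true := ex3_b k2_pm_022_a k3_pm_022_a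

theorem s23_pm_022_a : ∃ t, chk3 f_pm_022_a t 9 1 1 = true := ex3_b k1_pm_022_a s22_pm_022_a

theorem s24_pm_022_a : ∃ t, chk3 f_pm_022_a t 4 1 1 = true := ex3_a k0_pm_022_a s23_pm_022_a

theorem s25_pm_022_a : ∃ t, chk3 f_pm_022_a t 2 1 1 = true := ex3_a s24_pm_022_a s21_pm_022_a

theorem s26_pm_022_a : ∃ t, chk3 f_pm_022_a t 1 1 1 = true := ex3_a s25_pm_022_a s17_pm_022_a

theorem c_pm_022_a : CertB 0 536870912 0 536870912 649613803 48318383 3 eng mog cd0q0 cd2q2a pd2 true true false .pp 0 2 2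
    ndB0q0 ndB2q2a pcB2 cut_pm_022_a xt_pm_022_a :=
  certB2 (fam := true) (s1 := true) (s2 := false) (a := 0) (b := 2) (c := 2) (cn := .pp) (n1 := ndB0q0) (n2 := ndB2q2a) (pc := pcB2) (cut := cut_pm_022_a) (xt := xt_pm_022_a) (P1 := 0) (W1 := 536870912) (P2 := 0) (W2 := 536870912) (P3 := 649613803) (W3 := 48318383) (N0 := 3) (En := eng) (mo := mog) (C1 := cd0q0) (C2 := cd2q2a) (C3 := pd2)
    rfl (fun _ => rfl) s26_pm_022_a

noncomputable def cut_pm_022_b : Cut := Cut.of [[⟨0, 0, 0, 67108864⟩, ⟨1, 1, 0, 67108864⟩, ⟨2, 1, 0, 67108864⟩]]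

noncomputable def f_pm_022_b : ℕ → ℕ → ℕ → ℕ → Bool := onCell 1073741824 536870912 1239849684 370763052 649613803 48318383
    (rowB 3 eng mog cd0q0 cd2q2b pd2 2 true true false .pp 0 2 2 (qsf 0 536870912 1239849684 370763052 2) ndB0q0 ndB2q2b pcB2 cut_pm_022_b Ext.none)

def k0_pm_022_b : ∃ t, chk3 f_pm_022_b t 2 1 1 = true :=
  ⟨(b (a (l 1) (b (b (a (a (a (l 1) (b (b (l 16522032) (l 1)) (l 1))) (b (c (a (a (b (b (l 16398248) (l 16429592)) (l 1)) (b (a (l 16433576) (l 16433128)) (a (l 16412056) (l 16411704)))) (b (a (l 16435768) (l 16376464)) (l 16416144))) (a (a (l 16428400) (b (l 16437296) (l 16416896))) (l 16431336))) (a (l 1) (l 16423712)))) (a (a (b (b (l 16508216) (l 16421816)) (l 16403512)) (b (l 16434752) (l 16384680))) (b (a (l 16478728) (c (l 16443512) (l 16435816))) (a (l 16388312) (l 16393504))))) (a (l 1) (a (b (a (l 16327336) (l 16331944)) (l 1)) (b (l 16340936) (l 16288864))))) (a (l 1) (b (a (l 1) (b (l 16233944) (l 1))) (l 1))))) (l 1)), by decide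 +kernel⟩

def k1_pm_022_b : ∃ t, chk3 f_pm_022_b t 3 1 1 = true :=
  ⟨(a (b (b (a (b (a (b (a (l 16445560) (l 16451824)) (l 16403840)) (b (a (l 16459088) (l 16467280)) (l 16421656))) (a (b (l 16357328) (l 16309080)) (b (l 16378168) (l 16333288)))) (b (b (a (a (l 16476320) (l 16486232)) (a (l 16497016) (l 16508472))) (a (a (l 16437224) (l 16448496)) (l 16466952))) (a (a (l 16375136) (l 16388864)) (a (l 16403192) (l 16418048))))) (a (b (a (b (l 16259040) (l 16206656)) (l 16263256)) (a (l 1) (l 16163368))) (a (b (a (l 16287312) (l 16304360)) (a (l 16193992) (l 16214824))) (b (a (l 16322096) (l 16340440)) (l 16247296))))) (a (l 1) (b (a (b (a (l 16093064) (l 16119344)) (l 1)) (b (l 16159152) (l 16064040))) (l 1)))) (b (b (a (b (b (a (a (l 16520560) (l 16533336)) (a (l 16546200) (l 16559288))) (a (l 16514688) (l 16564864))) (a (a (l 16433456) (l 16449200)) (a (l 16465504) (l 16482200)))) (b (a (b (a (l 16572376) (l 16584920)) (l 16552728)) (b (a (l 16596872) (b (l 16612192)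 (l 16603776))) (l 16581968))) (a (b (l 16523704) (l 16492480)) (b (l 16556576) (l 16529104))))) (a (b (a (l 16368120) (l 16405928)) (a (l 16291032) (l 16335024))) (b (a (l 16444264) (l 16484272)) (a (l 16378488) (l 16421968))))) (b (a (a (b (l 16211240) (l 16127312)) (b (l 16262072) (l 16187280))) (b (a (l 16311904) (l 16360296)) (l 16375936))) (a (a (l 1) (b (l 16107888) (l 1))) (a (l 16137960) (l 16204552)))))), by decide +kernel⟩

theorem s2_pm_022_b : ∃ t, chk3 f_pm_022_b t 1 1 1 = true := ex3_a k0_pm_022_b k1_pm_022_b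

theorem c_pm_022_b : CertB 0 536870912 1239849684 370763052 649613803 48318383 3 eng mog cd0q0 cd2q2b pd2 true true false .pp 0 2 2
    ndB0q0 ndB2q2b pcB2 cut_pm_022_b Ext.none :=
  certB2 (fam := true) (s1 := true) (s2 := false) (a := 0) (b := 2) (c := 2) (cn := .pp) (n1 := ndB0q0) (n2 := ndB2q2b) (pc := pcB2) (cut := cut_pm_022_b) (xt := Ext.none) (P1 := 0) (W1 := 536870912) (P2 := 1239849684) (W2 := 370763052) (P3 := 649613803) (W3 := 48318383) (N0 := 3) (En := eng) (mo := mog) (C1 := cd0q0) (C2 := cd2q2b) (C3 := pd2)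
    rfl (fun _ => rfl) s2_pm_022_b

noncomputable def xt_pm_023_a : Ext := extD2 3 ⟨7, 3, 3, 10, 377, 200, 77, 100, 17, 50, 3, 16⟩ eng cd0q0 cd2q2a pd3 true true false .up 0 2 3 rfl ndB0q0 ndB2q2a pcB3

noncomputable def f_pm_023_a : ℕ → ℕ → ℕ → ℕ → Bool := onCell 1610612736 536870912 0 536870912 649613803 48318383
    (rowB 3 eng mog cd0q0 cd2q2a pd3 2 true true false .up 0 2 3 (qsf 0 536870912 0 536870912 3) ndB0q0 ndB2q2a pcB3 Cut.none xt_pm_023_a)

def k0_pm_023_a : ∃ t, chk3 f_pm_023_a t 1 1 1 = true :=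
  ⟨(a (b (a (a (b (b (a (l 16610888) (l 16607384)) (a (l 16572776) (l 16585992))) (b (a (l 16573672) (l 16556656)) (a (l 16531144) (l 16536464)))) (b (a (b (l 16607248) (l 16588600)) (b (l 16631808) (l 16615200))) (a (b (l 16578304) (l 16564576)) (b (l 16604248) (l 16592080))))) (a (b (a (b (l 16659856) (l 16645432)) (b (l 2) (l 2))) (a (a (b (l 16627944) (l 16617432)) (b (l 16645192) (l 2))) (l 2))) (l 2))) (b (a (a (b (a (l 16492144) (l 16519176)) (a (b (l 16479832) (l 16471312)) (l 16539616))) (a (b (l 16549072) (a (l 16522168) (l 16541104))) (b (l 16579720) (l 245450374823)))) (l 2)) (a (a (a (b (b (l 16459920) (l 16471824)) (b (b (l 16507808) (a (l 16436816) (l 16446624))) (b (b (a (l 16434096) (l 218069672407)) (a (a (l 140748379681570831) (l 140799438262173711)) (l 2))) (a (a (b (c (l 140832973377077263) (l 140620973743456271)) (c (b (l 140823490087829519) (c (l 140868226478587919) (l 140763910288031759))) (b (l 140603587711909903) (l 140590737167187983)))) (b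 (l 140781227597578255) (l 2))) (l 2))))) (b (b (l 16481712) (l 16474016)) (b (b (l 16511824) (l 2)) (l 2)))) (b (a (b (l 16516576) (l 2)) (l 2)) (l 2))) (l 2)))) (l 2)), by decide +kernel⟩

theorem c_pm_023_a : CertB 0 536870912 0 536870912 649613803 48318383 3 eng mog cd0q0 cd2q2a pd3 true true false .up 0 2 3
    ndB0q0 ndB2q2a pcB3 Cut.none xt_pm_023_a :=
  certB2 (fam := true) (s1 := true) (s2 := false) (a := 0) (b := 2) (c := 3) (cn := .up) (n1 := ndB0q0) (n2 := ndB2q2a) (pc := pcB3) (cut := Cut.none) (xt := xt_pm_023_a) (P1 := 0) (W1 := 536870912) (P2 := 0) (W2 := 536870912) (P3 := 649613803) (W3 := 48318383) (N0 := 3) (En := eng) (mo := mog) (C1 := cd0q0) (C2 := cd2q2a) (C3 := pd3)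
    rfl (fun _ => rfl) k0_pm_023_a

noncomputable def f_pm_023_b : ℕ → ℕ → ℕ → ℕ → Bool := onCell 0 536870912 1610612736 536870912 649613803 48318383
    (rowB 3 eng mog cd0q0 cd2q2b pd3 1 true true false .up 0 2 3 (qsf 0 536870912 1239849684 370763052 3) ndB0q0 ndB2q2b pcB3 Cut.none Ext.none)

def k0_pm_023_b : ∃ t, chk3 f_pm_023_b t 1 1 1 = true :=
  ⟨(a (b (b (a (b (a (l 16195048) (l 16286232)) (a (l 16197176) (l 16286072))) (b (a (l 16376864) (l 16467960)) (a (l 16373536) (l 16462136)))) (a (b (a (l 2) (l 16319048)) (l 2)) (b (a (l 16397624) (l 16478336)) (a (l 16464840) (l 16538248))))) (l 4)) (b (b (a (b (a (a (l 16535024) (l 16573576)) (a (l 16623840) (a (l 351683730407) (l 350609946823)))) (a (l 16549408) (l 16593064))) (b (a (a (l 472479636183) (l 533682951527)) (l 1)) (a (a (l 16631400) (b (l 471405893079) (l 16631424))) (a (b (l 545494153399) (l 474090295351)) (b (l 1) (l 547641689079)))))) (a (b (a (l 16560048) (l 16625992)) (a (l 16601720) (l 16654456)))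 (b (a (b (l 16651520) (l 16665864)) (b (a (l 16637240) (l 487512122135)) (a (l 16667632) (l 16667200)))) (a (l 16686792) (b (l 16691472) (l 16710080)))))) (b (b (a (a (l 4) (b (l 16689544) (l 4))) (a (b (l 16706792) (l 4)) (b (l 16718864) (l 16723576)))) (l 4)) (l 4)))), by decide +kernel⟩

theorem c_pm_023_b : CertB 0 536870912 1239849684 370763052 649613803 48318383 3 eng mog cd0q0 cd2q2b pd3 true true false .up 0 2 3
    ndB0q0 ndB2q2b pcB3 Cut.none Ext.none :=
  certB1 (fam := true) (s1 := true) (s2 := false) (a := 0) (b := 2) (c := 3) (cn := .up) (n1 := ndB0q0) (n2 := ndB2q2b) (pc := pcB3) (cut := Cut.none) (xt := Ext.none) (P1 := 0) (W1 := 536870912) (P2 := 1239849684) (W2 := 370763052) (P3 := 649613803) (W3 := 48318383) (N0 := 3) (En := eng) (mo := mog) (C1 := cd0q0) (C2 := cd2q2b) (C3 := pd3)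
    rfl (fun _ => rfl) k0_pm_023_b

noncomputable def f_pm_033 : ℕ → ℕ → ℕ → ℕ → Bool := onCell 1610612736 536870912 1610612736 536870912 649613803 48318383
    (rowB 3 eng mog cd0q0 cd2q3 pd3 2 true true false .pnn 0 3 3 (qsf 0 536870912 1610612736 536870912 3) ndB0q0 ndB2q3 pcB3 Cut.none Ext.none)

def k0_pm_033 : ∃ t, chk3 f_pm_033 t 1 1 1 = true :=
  ⟨(a (b (a (b (a (b (l 16092160) (l 15964824)) (b (l 16177064) (l 16063168))) (a (l 1) (b (l 15935328) (l 1)))) (b (a (b (l 16285312) (l 16194144)) (b (l 16439272) (l 16359040))) (a (b (l 16113720) (l 16024440)) (a (l 16212224) (l 4))))) (a (l 1) (a (l 1) (a (l 1) (l 4))))) (a (b (l 4) (l 4)) (l 4))), by decide +kernel⟩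

theorem c_pm_033 : CertB 0 536870912 1610612736 536870912 649613803 48318383 3 eng mog cd0q0 cd2q3 pd3 true true false .pnn 0 3 3
    ndB0q0 ndB2q3 pcB3 Cut.none Ext.none :=
  certB2 (fam := true) (s1 := true) (s2 := false) (a := 0) (b := 3) (c := 3) (cn := .pnn) (n1 := ndB0q0) (n2 := ndB2q3) (pc := pcB3) (cut := Cut.none) (xt := Ext.none) (P1 := 0) (W1 := 536870912) (P2 := 1610612736) (W2 := 536870912) (P3 := 649613803) (W3 := 48318383) (N0 := 3) (En := eng) (mo := mog) (C1 := cd0q0) (C2 := cd2q3) (C3 := pd3)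
    rfl (fun _ => rfl) k0_pm_033

noncomputable def cut_pm_101 : Cut := Cut.of [[⟨0, 1, 0, 67108864⟩, ⟨1, 0, 0, 67108864⟩, ⟨2, 1, 0, 67108864⟩]]

noncomputable def f_pm_101 : ℕ → ℕ → ℕ → ℕ → Bool := onCell 536870912 536870912 0 536870912 649613803 48318383
    (rowB 3 eng mog cd0q1 cd2q0 pd1 2 true true false .npn 1 0 1 (qsf 536870912 536870912 0 536870912 1) ndB0q1 ndB2q0 pcB1 cut_pm_101 Ext.none)

def k0_pm_101 : ∃ t, chk3 f_pm_101 t 1 1 1 = true :=
  ⟨(a (l 3) (b (a (l 3) (b (a (l 3) (b (a (l 3) (a (l 3) (b (l 6) (l 3)))) (l 3))) (l 3))) (l 3))), by decide +kernel⟩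

theorem c_pm_101 : CertB 536870912 536870912 0 536870912 649613803 48318383 3 eng mog cd0q1 cd2q0 pd1 true true false .npn 1 0 1
    ndB0q1 ndB2q0 pcB1 cut_pm_101 Ext.none :=
  certB2 (fam := true) (s1 := true) (s2 := false) (a := 1) (b := 0) (c := 1) (cn := .npn) (n1 := ndB0q1) (n2 := ndB2q0) (pc := pcB1) (cut := cut_pm_101) (xt := Ext.none) (P1 := 536870912) (W1 := 536870912) (P2 := 0) (W2 := 536870912) (P3 := 649613803) (W3 := 48318383) (N0 := 3) (En := eng) (mo := mog) (C1 := cd0q1) (C2 := cd2q0) (C3 := pd1)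
    rfl (fun _ => rfl) k0_pm_101

noncomputable def cut_pm_102 : Cut := Cut.of [[⟨0, 1, 0, 67108864⟩, ⟨1, 0, 0, 67108864⟩, ⟨2, 1, 0, 67108864⟩]]

noncomputable def xt_pm_102 : Ext := extD2 3 ⟨7, 3, 3, 10, 377, 200, 77, 100, 17, 50, 3, 16⟩ eng cd0q1 cd2q0 pd2 true true false .npp 1 0 2 rfl ndB0q1 ndB2q0 pcB2

noncomputable def f_pm_102 : ℕ → ℕ → ℕ → ℕ → Bool := onCell 536870912 536870912 1073741824 536870912 649613803 48318383
    (rowB 3 eng mog cd0q1 cd2q0 pd2 1 true true false .npp 1 0 2 (qsf 536870912 536870912 0 536870912 2) ndB0q1 ndB2q0 pcB2 cut_pm_102 xt_pm_102)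

def k0_pm_102 : ∃ t, chk3 f_pm_102 t 2 4 1 = true :=
  ⟨(b (l 3) (a (l 3) (b (l 3) (b (a (l 3) (b (l 3) (a (l 3) (b (l 3) (a (l 3) (l 179482618903)))))) (a (b (l 3) (a (l 3) (b (l 3) (a (l 3) (l 16718544))))) (b (a (b (l 3) (l 16738592)) (b (a (l 16757032) (l 16743000)) (a (l 16751528) (l 16737064)))) (a (b (a (l 16729840) (l 16737480)) (a (l 16725056) (l 16711752))) (b (a (l 16735432) (l 16731056)) (a (l 16719152) (l 16746104)))))))))), by decide +kernel⟩

def k1_pm_102 : ∃ t, chk3 f_pm_102 t 6 8 1 = true :=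
  ⟨(a (l 3) (l 3)), by decide +kernel⟩

def k2_pm_102 : ∃ t, chk3 f_pm_102 t 14 16 1 = true :=
  ⟨(l 3), by decide +kernel⟩

def k3_pm_102 : ∃ t, chk3 f_pm_102 t 14 34 1 = true :=
  ⟨(a (l 3) (b (a (l 3) (b (a (l 3) (a (l 3) (a (l 3) (b (l 3) (l 307257931207))))) (a (b (l 3) (c (l 252497100967) (l 208473761287))) (b (a (c (l 215989932871) (l 191830740807)) (c (l 138143648759) (b (l 16804104) (l 262160777831)))) (b (c (l 126332496935) (l 96804584887)) (c (l 16809848) (l 16791600))))))) (a (b (a (l 3) (c (b (l 3) (l 300278616679)) (l 186998916423))) (a (c (l 243370334599) (l 258402706343)) (b (l 260013279655) (a (l 16813216) (c (l 16788936) (l 16792240)))))) (b (a (c (a (l 304573574679) (b (l 16813904) (l 16768864))) (a (l 196662592839) (b (l 16796160) (l 16793016)))) (a (b (c (b (l 16789336) (l 16787888)) (l 16770544)) (l 16787816)) (l 16785456))) (a (b (a (c (l 16769656) (l 16794080)) (l 16767712)) (l 16787384)) (a (l 16784488) (l 16780680))))))), by decide +kernel⟩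

def k4_pm_102 : ∃ t, chk3 f_pm_102 t 14 35 1 = true :=
  ⟨(a (b (a (l 3) (a (b (l 3) (b (l 3) (a (l 3) (l 251423418983)))) (b (b (l 3) (l 264308280263)) (b (l 233169815319) (a (l 16805176) (c (l 16781016) (l 16783600))))))) (a (a (b (l 3) (b (a (l 3) (l 270213876023)) (a (l 256255231399) (l 16780848)))) (b (c (b (l 294373054935) (a (l 298668037223) (l 230485432487))) (b (l 305647350327) (l 278803833335))) (b (a (l 16781984) (l 16779584)) (a (l 16778496) (l 16776168))))) (b (a (b (c (l 217600537319) (l 190756999911)) (a (l 16780816) (l 16778664))) (b (c (l 16799176) (l 16759632)) (l 16775560))) (a (b (a (l 16777280) (l 16775344)) (l 16773264)) (l 16771456))))) (b (a (b (a (b (l 219211167415) (a (l 16809056) (c (l 16784880) (l 16787784)))) (b (c (l 16775512) (l 16768128)) (l 16762672))) (a (b (c (l 16766248) (l 16763720)) (l 16779432)) (l 16778928))) (b (a (a (l 16783968) (l 16782296)) (l 16776488)) (a (l 16775728) (l 16771808)))) (a (b (a (l 16774728) (l 16771528))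 (a (l 16768216) (l 16765352))) (a (l 16765904) (l 16767320))))), by decide +kernel⟩

def k5_pm_102 : ∃ t, chk3 f_pm_102 t 15 16 1 = true :=
  ⟨(a (b (l 3) (a (b (l 3) (b (a (l 3) (b (l 3) (a (l 3) (c (l 205252484935) (l 230485442055))))) (a (a (l 3) (a (l 3) (b (l 3) (l 195588827063)))) (b (a (c (l 207399970535) (l 233169798983)) (a (l 192904466263) (c (l 16795664) (l 169819017735)))) (a (a (l 195588823767) (b (l 16787424) (l 16785992))) (c (l 16793768) (l 16795280))))))) (b (a (b (l 3) (a (l 3) (b (l 3) (a (l 220284890903) (l 187535752183))))) (b (l 6) (b (l 6) (a (a (c (l 16793592) (l 164987178023)) (l 6)) (l 6))))) (b (a (b (a (a (l 218137409415) (l 189683238311)) (c (a (l 179482690791) (l 16793832)) (b (l 169819017927) (l 16795224)))) (b (a (a (l 16795456) (l 16796040)) (l 16793176)) (a (c (l 16794992) (l 16796320)) (l 16781768)))) (b (a (a (l 16782016) (l 16780696)) (l 6)) (a (a (l 16780048) (l 16778232)) (l 16775448)))) (a (a (b (a (l 16794328) (l 16782424)) (l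 16781064)) (b (l 16780128) (l 16777504))) (a (b (l 16776464) (l 16773856)) (l 16771656))))))) (b (l 6) (a (b (l 6) (a (b (l 6) (a (l 16769784) (l 6))) (l 6))) (l 6)))), by decide +kernel⟩

def k6_pm_102 : ∃ t, chk3 f_pm_102 t 15 17 1 = true :=
  ⟨(a (b (b (a (b (a (b (a (c (l 235317262039) (l 261623920423)) (a (l 220284888375) (b (l 16788456) (l 16787176)))) (a (a (l 222432374871) (b (l 16789648) (l 16788408))) (c (l 16806280) (c (l 16807680) (l 16808896))))) (a (b (a (c (l 16806096) (l 16797376)) (l 16805096)) (l 16783064)) (b (l 16781992) (l 16779808)))) (b (a (a (c (l 16807368) (b (l 16778800) (l 16787928))) (l 16784192)) (a (l 16780968) (l 16777248))) (a (a (l 16785360) (l 16782104)) (l 16775800)))) (a (b (a (b (l 16778632) (l 16776152)) (l 16773704)) (l 16770760)) (b (a (l 16770488) (l 16768840)) (l 16766024)))) (a (a (b (a (l 16782048) (l 16778232)) (l 16774176)) (b (l 16772776) (l 16769032))) (a (b (l 16768816) (l 16764360)) (l 16758704)))) (b (a (a (l 16768752)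 (l 16764944)) (l 16773976)) (a (a (l 16763128) (l 16755680)) (l 16764328)))) (b (a (b (a (l 16760288) (a (l 16753872) (l 6))) (a (l 16750248) (l 16741600))) (a (b (l 6) (l 16732712)) (l 6))) (a (b (a (l 16740328) (l 16731600)) (l 16747136)) (a (l 16738520) (b (l 16713112) (l 16702920)))))), by decide +kernel⟩

def k7_pm_102 : ∃ t, chk3 f_pm_102 t 12 18 1 = true :=
  ⟨(b (l 3) (a (l 3) (b (l 3) (a (b (l 3) (a (l 3) (l 322290353095))) (b (a (l 409263444855) (b (l 16791272) (l 16787600))) (a (b (l 16788912) (l 16785736)) (b (l 16784528) (l 16781856)))))))), by decide +kernel⟩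

def k8_pm_102 : ∃ t, chk3 f_pm_102 t 13 18 1 = true :=
  ⟨(b (a (b (l 3) (a (l 3) (b (l 3) (a (l 3) (c (b (a (l 3) (l 16786264)) (l 280414369959)) (l 261623932903)))))) (b (a (b (l 3) (a (l 3) (b (l 3) (a (l 3) (l 288467486615))))) (b (a (b (l 3) (a (l 3) (l 290078081175))) (b (a (l 3) (l 243370328439)) (a (l 246591552615) (l 16779064)))) (a (b (a (l 285246259959) (l 16781368)) (a (l 16780944) (l 16777968))) (b (a (l 16778432) (l 16775976)) (a (l 16775376) (l 16772752)))))) (a (b (a (b (l 3) (a (l 16788456) (l 16784360))) (b (a (l 16784320) (l 16780720)) (a (l 16780696) (l 16777472)))) (a (b (a (l 16784440) (l 16780864)) (a (l 16780880) (l 16777656))) (b (a (l 16777512) (l 16774328)) (a (l 16774264) (l 16771440))))) (b (a (b (a (l 16777648) (l 16774896)) (a (l 16774544) (l 16771808))) (c (l 16789080) (l 16749432))) (a (b (l 16748736) (l 16767576)) (l 16764376)))))) (b (a (a (b (a (l 3) (b (l 3) (l 16812048))) (a (b (l 3) (l 16789336)) (b (l 16787024) (l 16783528))))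 (b (a (b (a (l 16790160) (l 16786696)) (l 16784440)) (b (a (l 16783432) (l 16780344)) (l 16778336))) (a (b (l 16780984) (l 16778048)) (b (l 16775176) (l 16772832))))) (a (b (a (b (l 16775824) (l 16772576)) (l 16768728)) (l 16766408)) (b (a (l 16763760) (l 16759424)) (l 16756408)))) (a (a (b (a (b (l 16785760) (l 16782808)) (b (l 16780672) (l 16777768))) (a (b (l 16780032) (l 16777176)) (l 16773872))) (b (a (b (l 16775296) (l 16772872)) (l 16769128)) (l 16766416))) (a (b (l 16761616) (l 16756072)) (b (l 16751768) (l 16747904)))))), by decide +kernel⟩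

def k9_pm_102 : ∃ t, chk3 f_pm_102 t 6 19 1 = true :=
  ⟨(a (b (a (b (a (l 3) (b (l 386177988407) (b (l 257328960023) (l 74255969815)))) (b (a (b (l 381882991767) (l 16756096)) (a (l 16778584) (l 16756832))) (a (a (l 16771904) (l 16772896)) (l 16772344)))) (b (a (b (a (l 4132108451587234469673501039) (l 16764176)) (b (a (l 16783112) (l 16780648)) (a (l 16780304) (l 16777560)))) (a (b (b (l 16783024) (l 16780144)) (b (l 16777192) (l 16774296))) (b (b (l 16778904) (l 16776152)) (l 16771792)))) (a (b (b (l 16754760) (l 16773472)) (l 16769112)) (l 16765000)))) (a (b (a (b (l 16745656) (l 16760968)) (l 16763608)) (a (l 16751440) (l 16751232))) (b (a (l 16759800) (l 16753512)) (a (l 16748672) (l 16744544))))) (b (a (b (a (b (l 16770712) (l 16765096)) (b (l 16760928) (l 16755208))) (a (l 16756344) (l 16747912))) (b (a (l 16748632) (l 16745464)) (a (l 16743584) (l 16750016)))) (a (b (a (l 16746672) (l 16742696)) (l 16766624)) (b (a (l 16749816) (l 16745128)) (a (l 16746640)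 (l 16737840)))))), by decide +kernel⟩

def k10_pm_102 : ∃ t, chk3 f_pm_102 t 7 9 1 = true :=
  ⟨(b (a (b (a (a (b (b (a (b (a (l 16779872) (l 16777536)) (a (l 16776696) (l 16774240))) (b (a (l 16775152) (l 16773152)) (l 16771200))) (a (b (a (l 16773432) (l 16771352)) (l 16769536)) (l 16767040))) (b (a (l 16765488) (l 16761760)) (l 16758048))) (b (b (a (l 16768984) (l 16765672)) (a (l 16763512) (l 16760160))) (a (l 16755432) (l 16753648)))) (b (a (l 16801000) (l 16760664)) (a (l 16757904) (l 16750648)))) (a (b (a (b (l 16753088) (l 16749272)) (l 16753672)) (a (l 16749520) (l 16750176))) (a (b (l 16750440) (l 16741248)) (l 16735168)))) (a (b (a (b (l 16749600) (l 16739088)) (b (l 16733960) (l 16724504))) (a (l 16743880) (a (l 16713072) (l 16705688)))) (a (b (a (l 16716232) (l 16707200)) (l 16713848)) (a (b (l 16697824) (l 16678720)) (b (l 16687976) (l 16668584)))))) (a (b (a (a (b (l 16750104) (l 16743872)) (l 16779928)) (a (l 16727152) (l 16715312))) (a (a (l 16731832)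 (l 16720816)) (a (l 16709024) (l 16696616)))) (a (b (a (l 16723448) (l 16688576)) (a (l 16683464) (l 16668912))) (a (b (l 16673344) (l 16653392)) (b (l 16697096) (l 16657168)))))), by decide +kernel⟩

def k11_pm_102 : ∃ t, chk3 f_pm_102 t 2 5 1 = true :=
  ⟨(a (b (b (b (b (l 3) (l 2)) (l 2)) (l 2)) (l 2)) (b (b (b (a (b (a (b (l 3) (a (b (l 3) (l 120963618839)) (b (l 16703584) (l 16711656)))) (b (a (b (l 16709496) (l 16707488)) (b (l 16715008) (l 16713304))) (a (b (l 16705792) (l 16704304)) (b (l 16711640) (l 16709600))))) (a (b (a (b (l 65061932023) (l 91368600199)) (b (l 16698600) (l 16696032))) (a (b (l 16696760) (l 16694064)) (b (l 16693928) (l 16691744)))) (b (a (b (l 16702192) (l 16699784)) (l 16705528)) (l 16698448)))) (b (a (b (a (b (l 16722008) (l 16719920)) (l 16717120)) (l 16719368)) (b (l 16737104) (l 16732000))) (a (b (l 16714216) (l 16710480)) (b (l 16727776) (l 16725048))))) (b (a (a (b (a (b (l 16691008) (l 2)) (l 16688224)) (l 16702800)) (b (l 16694616)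 (l 16691080))) (a (b (l 16707952) (l 16706400)) (b (l 16723544) (l 16723216)))) (b (a (a (b (l 16700144) (l 16696688)) (l 16686896)) (a (l 16715352) (l 16734832))) (a (b (a (l 95126652615) (l 16731704)) (b (b (b (a (l 16706056) (l 16723456)) (a (l 69356846935) (c (l 16709432) (l 16747648)))) (l 66672534839)) (l 66135663015))) (b (a (l 16710256) (c (l 16747768) (l 16752024))) (b (b (b (a (l 16738496) (l 16748048)) (a (a (l 16739200) (l 16787008)) (l 16707400))) (a (l 16743600) (l 16749272))) (a (l 16744120) (l 16749616)))))))) (a (a (l 16731816) (l 16740104)) (a (l 16745736) (l 16747704)))) (a (a (l 2) (b (l 16733568) (l 2))) (a (b (l 16729352) (l 16707936)) (l 16838792))))), by decide +kernel⟩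

def k12_pm_102 : ∃ t, chk3 f_pm_102 t 6 5 1 = true :=
  ⟨(b (b (b (a (b (a (a (l 16740888) (l 16741856)) (l 16740648)) (a (l 16735768) (l 16705000))) (a (b (a (l 16750288) (l 16748360)) (l 16830400)) (b (l 16735376) (l 16728048)))) (b (a (a (b (l 16735456) (l 16744072)) (b (l 16751600) (l 16750704))) (a (l 16782624) (l 16720712))) (a (b (a (l 16780936) (l 16748960)) (b (a (l 16751040) (l 16747808)) (a (c (l 16838896) (l 16833728)) (a (l 16791680) (l 16786320))))) (b (a (l 16736096) (l 16715160)) (a (b (l 16733768) (a (l 16778576) (l 16768864))) (b (l 16712176) (a (l 16757560) (l 16745608)))))))) (a (a (l 16745080) (l 16734760)) (a (l 16716624) (l 16693096)))) (a (a (l 16770656) (l 16778920)) (a (l 16780192) (b (l 16664096) (l 16638144))))), by decide +kernel⟩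

def k13_pm_102 : ∃ t, chk3 f_pm_102 t 7 5 1 = true :=
  ⟨(b (a (a (b (b (b (l 16713800) (l 16705640)) (b (l 16697608) (b (l 16691560) (b (a (l 16694336) (l 16682400)) (b (b (b (l 16686928) (b (l 16686600) (l 16728216))) (l 16685904)) (l 16685136)))))) (a (l 16674536) (b (l 16670608) (l 16654992)))) (b (b (b (l 16710768) (a (l 16687840) (l 16675176))) (b (a (l 16679736) (l 16667040)) (b (a (l 16673688) (l 16661136)) (b (a (l 16670592) (l 16658264)) (l 16725376))))) (b (l 16653408) (l 16638072)))) (a (b (b (a (l 16665680) (l 16650800)) (b (l 16645760) (b (l 16639960) (b (l 16637296) (a (l 16643088) (l 16628400)))))) (b (a (l 16634224) (l 16619488)) (l 16612128))) (b (b (a (l 16634728) (l 16617160)) (b (a (l 16621896) (l 16603888)) (b (a (l 16616064) (l 16597920)) (b (a (l 16613520) (l 16595400)) (a (l 16612248) (l 16615192)))))) (b (a (l 16603184) (l 16584912)) (a (l 16588920) (l 16570952)))))) (a (a (b (l 16702072) (l 16613152)) (b (l 16616608) (l 16591072))) (a (b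 (a (l 16598416) (l 16584768)) (l 16567008)) (b (a (l 16569752) (l 16552952)) (a (l 16546480) (l 16531024)))))), by decide +kernel⟩

def k14_pm_102 : ∃ t, chk3 f_pm_102 t 1 3 1 = true :=
  ⟨(a (a (l 2) (b (a (l 2) (b (a (l 2) (l 16671112)) (l 2))) (l 2))) (a (b (a (b (a (l 16664464) (l 16672400)) (l 16689488)) (b (a (l 16652192) (l 16626952)) (a (l 16609616) (l 16577856)))) (a (l 2) (b (l 16592328) (l 2)))) (b (a (b (a (a (l 16586728) (l 16575344)) (l 16622016)) (a (b (l 16555480) (l 16542472)) (b (l 16534240) (l 16520272)))) (b (a (b (l 16545664) (l 16527456)) (b (l 16519152) (l 16502232))) (a (b (l 16512056) (l 16497960)) (b (l 16487944) (l 16474496))))) (a (b (a (l 16537824) (l 16510680)) (a (l 2) (l 16517608))) (b (a (l 16484424) (l 16458640)) (a (l 16480400) (l 16444864))))))), by decide +kernel⟩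

theorem s15_pm_102 : ∃ t, chk3 f_pm_102 t 3 5 1 = true := ex3_a k12_pm_102 k13_pm_102

theorem s16_pm_102 : ∃ t, chk3 f_pm_102 t 1 5 1 = true := ex3_a k11_pm_102 s15_pm_102

theorem s17_pm_102 : ∃ t, chk3 f_pm_102 t 6 18 1 = true := ex3_a k7_pm_102 k8_pm_102

theorem s18_pm_102 : ∃ t, chk3 f_pm_102 t 6 9 1 = true := ex3_b s17_pm_102 k9_pm_102

theorem s19_pm_102 : ∃ t, chk3 f_pm_102 t 3 9 1 = true := ex3_a s18_pm_102 k10_pm_102

theorem s20_pm_102 : ∃ t, chk3 f_pm_102 t 15 8 1 = true := ex3_b k5_pm_102 k6_pm_102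

theorem s21_pm_102 : ∃ t, chk3 f_pm_102 t 14 17 1 = true := ex3_b k3_pm_102 k4_pm_102

theorem s22_pm_102 : ∃ t, chk3 f_pm_102 t 14 8 1 = true := ex3_b k2_pm_102 s21_pm_102

theorem s23_pm_102 : ∃ t, chk3 f_pm_102 t 7 8 1 = true := ex3_a s22_pm_102 s20_pm_102

theorem s24_pm_102 : ∃ t, chk3 f_pm_102 t 3 8 1 = true := ex3_a k1_pm_102 s23_pm_102

theorem s25_pm_102 : ∃ t, chk3 f_pm_102 t 3 4 1 = true := ex3_b s24_pm_102 s19_pm_102

theorem s26_pm_102 : ∃ t, chk3 f_pm_102 t 1 4 1 = true := ex3_a k0_pm_102 s25_pm_102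

theorem s27_pm_102 : ∃ t, chk3 f_pm_102 t 1 2 1 = true := ex3_b s26_pm_102 s16_pm_102

theorem s28_pm_102 : ∃ t, chk3 f_pm_102 t 1 1 1 = true := ex3_b s27_pm_102 k14_pm_102

theorem c_pm_102 : CertB 536870912 536870912 0 536870912 649613803 48318383 3 eng mog cd0q1 cd2q0 pd2 true true false .npp 1 0 2
    ndB0q1 ndB2q0 pcB2 cut_pm_102 xt_pm_102 :=
  certB1 (fam := true) (s1 := true) (s2 := false) (a := 1) (b := 0) (c := 2) (cn := .npp) (n1 := ndB0q1) (n2 := ndB2q0) (pc := pcB2) (cut := cut_pm_102) (xt := xt_pm_102) (P1 := 536870912) (W1 := 536870912) (P2 := 0) (W2 := 536870912) (P3 := 649613803) (W3 := 48318383) (N0 := 3) (En := eng) (mo := mog) (C1 := cd0q1) (C2 := cd2q0) (C3 := pd2)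
    rfl (fun _ => rfl) s28_pm_102

noncomputable def f_pm_112 : ℕ → ℕ → ℕ → ℕ → Bool := onCell 536870912 536870912 1073741824 536870912 649613803 48318383
    (rowB 3 eng mog cd0q1 cd2q1 pd2 1 true true false .dn 1 1 2 (qsf 536870912 536870912 536870912 536870912 2) ndB0q1 ndB2q1 pcB2 Cut.none Ext.none)

def k0_pm_112 : ∃ t, chk3 f_pm_112 t 4 2 1 = true :=
  ⟨(b (l 3) (b (b (b (a (l 3) (b (l 3) (a (b (l 3) (b (l 3) (a (l 3) (l 16669824)))) (b (b (l 3) (a (l 3) (l 16668816))) (b (a (l 16669624) (l 16671024)) (a (l 16671176) (l 16673424))))))) (b (a (b (a (l 3) (b (l 3) (a (l 3) (l 16668400)))) (a (b (l 3) (a (l 3) (l 16666688))) (b (a (l 16667568) (l 16668384)) (a (l 16667424) (l 16668800))))) (b (a (b (a (l 16669272) (l 16670576)) (a (l 16669432) (l 16671584))) (b (a (l 16673096) (l 16675456)) (a (l 16674032) (l 16675080)))) (a (b (a (l 16670104) (l 16672256)) (a (l 16670480) (l 16671816))) (b (a (l 16673480) (l 16674264)) (l 16673392))))) (b (a (a (a (b (l 16665904)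 (l 16665864)) (b (l 16666488) (l 16666496))) (b (a (l 16667624) (l 16668920)) (b (l 16667872) (l 16667792)))) (b (a (a (l 16670160) (l 16671440)) (l 16673360)) (a (l 16670864) (l 16674080)))) (a (a (b (b (l 16686728) (b (l 16665904) (l 16666280))) (b (b (b (l 16666576) (l 16666776)) (l 16666976)) (l 16667048))) (b (a (l 16667928) (l 16669272)) (b (b (b (l 16669040) (b (l 16669240) (a (l 16668576) (l 16670208)))) (l 16669720)) (l 16669984)))) (b (b (a (l 16671104) (l 16675288)) (a (l 16693176) (c (l 16681352) (l 16675488)))) (b (b (b (a (l 16673296) (l 16682384)) (b (a (l 16674840) (l 16684640)) (a (l 16677000) (l 16686840)))) (a (l 16678136) (l 16687888))) (a (l 16678472) (l 16688288)))))))) (a (a (b (l 16667016) (l 16663664)) (b (l 16672112) (l 16671992))) (a (b (l 16681288) (l 16682608)) (l 16693832)))) (a (a (l 16665752) (l 16659840)) (a (a (l 16670528) (l 16677792)) (l 16730968))))), by decide +kernel⟩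

def k1_pm_112 : ∃ t, chk3 f_pm_112 t 4 3 1 = true :=
  ⟨(b (a (b (a (l 16597600) (l 16623104)) (a (l 16535664) (l 16574440))) (b (a (l 16730048) (b (l 16672376) (l 16659232))) (a (l 16609824) (l 16640136)))) (a (b (a (l 16455872) (l 16510968)) (a (b (l 16384288) (a (l 16325168) (l 16350632))) (a (l 16408616) (l 16445248)))) (b (a (l 16564424) (l 16612328)) (a (l 16500824) (l 16594088))))), by decide +kernel⟩

def k2_pm_112 : ∃ t, chk3 f_pm_112 t 5 1 1 = true :=
  ⟨(a (a (b (b (l 3) (b (b (b (b (a (a (l 3) (a (l 3) (l 1))) (l 1)) (b (a (b (a (l 16667088) (l 16667712)) (l 69423920343)) (l 1)) (b (a (l 16672920) (l 1)) (a (l 16674864) (l 16674384))))) (b (b (b (a (l 16676008) (l 16675416)) (l 16675216)) (l 16695976)) (b (b (l 16676104) (a (l 16676960) (l 16680000))) (b (a (l 16683104) (l 16686352)) (b (b (b (l 16690064) (c (l 16697352) (l 16710544))) (l 16695128)) (l 16695560)))))) (l 16701696)) (l 16698704))) (b (b (l 16743288) (l 16662912)) (b (l 16650808) (b (l 16642048)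 (l 16632568))))) (b (b (l 1) (b (b (b (l 1) (b (l 1) (b (l 1) (b (l 1) (b (l 1) (l 16699648)))))) (l 16705920)) (l 16723328))) (b (b (l 16727552) (l 16676856)) (b (l 16676840) (b (l 16683528) (l 16689256)))))) (b (b (l 1) (b (b (l 1) (b (l 1) (l 240014937079))) (a (b (l 16705600) (l 16695368)) (l 100965351767)))) (b (b (a (l 16702768) (l 16820776)) (a (l 16681480) (l 16677072))) (a (b (l 16691600) (l 16715088)) (b (l 16696544) (l 16731864)))))), by decide +kernel⟩

def k3_pm_112 : ∃ t, chk3 f_pm_112 t 3 1 1 = true :=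
  ⟨(b (b (l 1) (a (b (l 1) (a (a (l 192233325831) (l 1)) (l 1))) (l 1))) (a (b (a (b (b (l 85932918311) (l 16658664)) (l 16763288)) (b (a (l 180958957927) (l 1)) (l 67679301255))) (a (b (a (l 16689576) (l 16670568)) (a (l 16737264) (l 16726608))) (b (l 16621536) (l 16677384)))) (b (a (b (l 1) (a (l 197065093271) (l 1))) (l 1)) (a (b (a (l 16570296) (l 16547696)) (b (l 16576952) (l 16602928))) (b (a (l 135861588775) (l 1)) (a (l 16533000) (l 16503656))))))), by decide +kernel⟩

theorem s4_pm_112 : ∃ t, chk3 f_pm_112 t 4 1 1 = true := ex3_b k0_pm_112 k1_pm_112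

theorem s5_pm_112 : ∃ t, chk3 f_pm_112 t 2 1 1 = true := ex3_a s4_pm_112 k2_pm_112

theorem s6_pm_112 : ∃ t, chk3 f_pm_112 t 1 1 1 = true := ex3_a s5_pm_112 k3_pm_112

theorem c_pm_112 : CertB 536870912 536870912 536870912 536870912 649613803 48318383 3 eng mog cd0q1 cd2q1 pd2 true true false .dn 1 1 2
    ndB0q1 ndB2q1 pcB2 Cut.none Ext.none :=
  certB1 (fam := true) (s1 := true) (s2 := false) (a := 1) (b := 1) (c := 2) (cn := .dn) (n1 := ndB0q1) (n2 := ndB2q1) (pc := pcB2) (cut := Cut.none) (xt := Ext.none) (P1 := 536870912) (W1 := 536870912) (P2 := 536870912) (W2 := 536870912) (P3 := 649613803) (W3 := 48318383) (N0 := 3) (En := eng) (mo := mog) (C1 := cd0q1) (C2 := cd2q1) (C3 := pd2)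
    rfl (fun _ => rfl) s6_pm_112

end Pool.Agent.Strip051.G.I6050_6500.Tab.C.BA02

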