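import Pool.Agent.Strip051.G.I6050_6500.Tab
import Pool.Agent.Strip051.PB.ExtD2

/-! # Certificates B6 (generated) -/

set_option linter.all false
set_option maxRecDepth 100000

namespace Pool.Agent.Strip051.G.I6050_6500.Tab.C.BA02

open Pool.Agent.Strip051.PB Pool.Agent.Strip051.PB.T
open Pool.Agent.Strip051.G.I6050_6500.Tab

noncomputable def f_pm_113 : ℕ → ℕ → ℕ → ℕ → Bool := onCell 536870912 536870912 1610612736 536870912 649613803 48318383
    (rowB 3 eng mog cd0q1 cd2q1 pd3 1 true true false .nn 1 1 3 (qsf 536870912 536870912 536870912 536870912 3) ndB0q1 ndB2q1 pcB3 Cut.none Ext.none)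

def k0_pm_113 : ∃ t, chk3 f_pm_113 t 2 1 1 = true :=
  ⟨(b (b (a (b (a (a (b (l 16342168) (l 271756554327)) (l 142370837447)) (a (l 16456744) (l 16526856))) (a (b (a (l 2) (l 296989537527)) (l 2)) (b (l 16464952) (l 177804381639)))) (a (b (a (l 16596816) (l 16661728)) (b (l 16624880) (l 16618224))) (b (a (l 16717656) (l 16764048)) (a (l 16715448) (l 16765544))))) (b (a (b (a (l 2) (a (l 2) (l 339402550439))) (l 2)) (a (b (l 16601776) (a (l 216996015479) (l 16616360))) (b (l 16699792) (l 16678304)))) (a (l 2) (a (b (a (l 2) (l 16611008)) (l 2)) (a (b (l 16646264) (l 16684280)) (l 16797600)))))) (a (l 2) (b (b (a (l 2) (b (a (l 2) (l 16660984)) (l 2))) (l 2)) (l 2)))), by decide +kernel⟩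

def k1_pm_113 : ∃ t, chk3 f_pm_113 t 3 1 1 = true :=
  ⟨(b (b (a (a (b (a (l 16800736) (l 16820368)) (a (l 16824664) (l 16883160))) (b (a (l 16816712) (l 16788880)) (a (l 16974608) (l 16966808)))) (b (a (a (l 16746192) (l 16700752)) (l 16635248)) (a (a (l 16929344) (l 16882416)) (b (l 16756584) (l 16862496))))) (b (a (a (a (l 16758288) (b (l 16842432) (l 16805040))) (a (b (l 16935736) (l 16885800)) (b (l 17052640) (l 16984360)))) (a (a (b (l 17038400) (l 17077080)) (b (l 16984768) (l 16988408))) (b (b (l 16917920) (a (l 16951080) (l 16918608))) (a (b (l 16949632) (l 16959960)) (b (l 16906680) (l 16910800)))))) (a (a (a (l 16687400) (b (l 16772560) (l 16745336))) (a (b (l 16840592) (l 16803248)) (b (l 16920904) (l 16846672)))) (a (a (b (l 17004392) (l 16936048)) (l 16836576)) (a (l 16937216) (a (l 16960736) (l 16938760))))))) (a (b (b (a (a (l 16808456) (l 16779000)) (b (a (l 16772696) (l 16761312)) (a (l 16748424) (l 16792944)))) (a (a (l 2) (b (l 16701640) (l 2))) (a (b (l 16731208) (l 16721720))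 (b (l 16767280) (l 16746904))))) (b (a (l 2) (b (a (l 2) (l 16733720)) (l 2))) (l 2))) (a (b (b (a (b (l 16774104) (l 16838232)) (b (l 16943920) (l 16893376))) (a (b (l 16658112) (l 16776760)) (b (l 16850424) (l 16816920)))) (b (a (b (l 16712480) (l 16967520)) (b (l 16790232) (l 16767360))) (b (a (l 2) (l 16751920)) (l 2)))) (a (b (b (c (l 16989224) (l 16961168)) (b (l 16894616) (l 16856248))) (b (b (l 16826328) (l 16795128)) (b (l 16771208) (b (l 16759440) (l 2))))) (b (b (a (l 16989816) (l 16966040)) (b (l 16940952) (l 16898552))) (b (b (l 16865528) (l 16829208)) (b (b (l 16806720) (l 16794744)) (b (l 16772864) (b (l 16754656) (l 4)))))))))), by decide +kernel⟩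

theorem s2_pm_113 : ∃ t, chk3 f_pm_113 t 1 1 1 = true := ex3_a k0_pm_113 k1_pm_113

theorem c_pm_113 : CertB 536870912 536870912 536870912 536870912 649613803 48318383 3 eng mog cd0q1 cd2q1 pd3 true true false .nn 1 1 3
    ndB0q1 ndB2q1 pcB3 Cut.none Ext.none :=
  certB1 (fam := true) (s1 := true) (s2 := false) (a := 1) (b := 1) (c := 3) (cn := .nn) (n1 := ndB0q1) (n2 := ndB2q1) (pc := pcB3) (cut := Cut.none) (xt := Ext.none) (P1 := 536870912) (W1 := 536870912) (P2 := 536870912) (W2 := 536870912) (P3 := 649613803) (W3 := 48318383) (N0 := 3) (En := eng) (mo := mog) (C1 := cd0q1) (C2 := cd2q1) (C3 := pd3)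
    rfl (fun _ => rfl) s2_pm_113

noncomputable def cut_pm_123_a : Cut := Cut.of [[⟨0, 1, 0, 67108864⟩, ⟨1, 1, 0, 67108864⟩, ⟨2, 2, 0, 16777216⟩], [⟨0, 0, 1, 20971520⟩, ⟨1, 1, 0, 33554432⟩, ⟨2, 1, 1, 20971520⟩]]

noncomputable def xt_pm_123_a : Ext := extD2 3 ⟨7, 3, 3, 10, 377, 200, 77, 100, 17, 50, 3, 16⟩ eng cd0q1 cd2q2a pd3 true true false .npn 1 2 3 rfl ndB0q1 ndB2q2a pcB3

noncomputable def f_pm_123_a : ℕ → ℕ → ℕ → ℕ → Bool := onCell 1610612736 536870912 0 536870912 649613803 48318383
    (rowB 3 eng mog cd0q1 cd2q2a pd3 2 true true false .npn 1 2 3 (qsf 536870912 536870912 0 536870912 3) ndB0q1 ndB2q2a pcB3 cut_pm_123_a xt_pm_123_a)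

def k0_pm_123_a : ∃ t, chk3 f_pm_123_a t 4 2 1 = true :=
  ⟨(a (l 1) (b (l 1) (a (l 1) (b (l 1) (l 16591944))))), by decide +kernel⟩

def k1_pm_123_a : ∃ t, chk3 f_pm_123_a t 8 6 1 = true :=
  ⟨(l 1), by decide +kernel⟩

def k2_pm_123_a : ∃ t, chk3 f_pm_123_a t 8 14 1 = true :=
  ⟨(a (l 1) (b (l 16481616) (l 16515904))), by decide +kernel⟩

def k3_pm_123_a : ∃ t, chk3 f_pm_123_a t 8 15 1 = true :=
  ⟨(b (a (a (l 1) (b (l 16449880) (l 16446608))) (a (b (l 16462216) (l 16459816)) (a (l 141178426254540815) (l 141261714278907919)))) (a (b (a (a (l 1) (b (l 16436392) (l 140799369542696975))) (c (l 140992883632996367) (l 140779578325614607))) (b (a (a (c (l 140832904657584143) (l 140620973743439887)) (l 140781158878085135)) (c (l 140978040224645135) (l 140745837056213007))) (a (a (c (b (l 141003672555831311) (c (l 140958248993112079) (l 140763910288015375))) (b (l 140603587711909903) (l 140590737167187983))) (c (b (l 140877572327931919) (c (a (l 140910488966414351) (l 140940794262667279)) (l 140816686857469967)))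 (b (l 140649561050431503) (l 140817717607661583)))) (c (a (b (l 140938389078573071) (c (a (l 140972954985267215) (l 141007039853723663)) (l 140876129217937423))) (b (l 141006696254144527) (b (l 141184198662537231) (c (a (l 141042636551307279) (l 141080707150479375)) (l 140941481455239183))))) (a (a (l 140682202808287247) (l 140709828043489295)) (a (l 140739239985561615) (l 140950208785563663))))))) (b (a (c (l 141136438652698639) (l 140901074385387535)) (c (l 141309474335686671) (l 141047515621933071))) (b (a (c (l 141396473152847887) (l 140871868602843151)) (c (l 141482097662705679) (l 141021127339130895))) (a (c (a (b (l 141082012818243599) (c (b (l 141141386462511119) (a (c (l 141150388717387791) (l 141090053000822799)) (c (l 141192445047390223) (l 141130460062810127)))) (a (l 140997144243961871) (l 141035214842904591)))) (b (l 141164063892914191) (c (b (l 141226873512280079) (a (c (l 141236081925816335) (l 141172447673221135)) (c (b (l 141281368071995407) (l 141326516768522255)) (l 141216084551516175))))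 (a (l 141074728551268367) (l 141115754088546319))))) (c (b (l 140926225723686927) (a (l 140883413480833039) (l 140956462300938255))) (a (l 140748791992598543) (l 140816205813530639)))) (c (a (b (l 141252231002750991) (c (b (l 141318888914190351) (a (c (a (l 141316552452931599) (l 141340466836783119)) (l 141261301978251279)) (c (a (l 141364862257086479) (l 141434749971120143)) (l 141308237392363535)))) (a (l 141158291454771215) (l 141382591837405199)))) (b (l 141347063903698959) (c (b (l 141417913704677391) (a (b (l 141392487492485135) (c (a (l 141415164926787599) (l 141485945994280975)) (l 141356753355096079))) (c (c (a (l 141484915213500431) (l 141511853255180303)) (l 141462169059983375)) (l 141407330902327311)))) (b (l 141272571971731471) (a (l 141247489357283343) (l 141295043246718991)))))) (c (b (l 141083318483157007) (a (l 141215191148822543) (b (l 141121182924406799) (l 141118021828263951)))) (a (l 140888498718752783) (l 141146334212734991))))))))), by decide +kernel⟩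

def k4_pm_123_a : ∃ t, chk3 f_pm_123_a t 18 6 1 = true :=
  ⟨(b (l 1) (b (l 16535368) (l 16525544))), by decide +kernel⟩

def k5_pm_123_a : ∃ t, chk3 f_pm_123_a t 18 14 1 = true :=
  ⟨(b (l 16516544) (a (l 16500616) (l 16521920))), by decide +kernel⟩

def k6_pm_123_a : ∃ t, chk3 f_pm_123_a t 36 15 1 = true :=
  ⟨(b (b (l 16497720) (l 141387539671138319)) (b (c (l 141510066536316943) (l 141216977889673231)) (b (c (a (l 141451036495446031) (l 141559750734364687)) (l 141553291006296079)) (c (a (b (l 141448974912733199) (c (b (l 141524291481239567) (c (b (l 141562362082623503) (a (c (a (l 141539547211497487) (l 141567516045606927)) (l 141516182582444047)) (c (a (l 141595965916200975) (l 141624896823263247)) (l 141571982811643919)))) (a (l 141549648951656463) (l 141570058649796623)))) (b (l 141370840847400975) (a (l 141344315123564559) (l 141485396221837327))))) (b (l 141558376346812431) (c (b (l 141638503280328719) (b (a (l 141609641093431311) (l 141668877297369103)) (a (c (c (a (l 141654446205763599)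 (l 141684407905271823)) (l 141629844625702927)) (l 141569921225162767)) (b (l 141759243409686543) (c (a (l 141694990706901007) (l 141725777040326671)) (l 141628195356229647)))))) (a (a (l 141435368452259855) (l 141462237774299151)) (a (l 141489588132806671) (l 141517419527798799)))))) (a (b (l 141135888892919823) (c (b (l 141211823935619087) (l 141389051466039311)) (l 141044904283422735))) (b (l 141228797647257615) (c (a (l 141282811172372495) (l 141333251280470031)) (l 141134651940847631)))))))), by decide +kernel⟩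

def k7_pm_123_a : ∃ t, chk3 f_pm_123_a t 37 15 1 = true :=
  ⟨(b (b (l 16520144) (l 141769001533702159)) (b (b (l 141574731573510159) (a (l 141517144640716815) (l 141618024857387023))) (b (a (c (l 141676092837298191) (l 141338336517242895)) (c (b (l 141784738356674575) (l 141786799942991887)) (l 141616169385345039))) (a (c (b (a (l 141645581384564751) (l 141706054539247631)) (b (a (l 141645581385842703) (a (l 141691142410387471) (l 141902317370064911))) (c (b (a (l 141730312525152271) (a (l 141777935134605327) (l 141811264088915983))) (a (c (a (l 141756975690612751) (l 141788861535977487)) (l 141688393632972815)) (a (a (c (b (l 141812982078357519) (a (l 141809271225909263) (l 141817723723644943))) (l 141727288866635791)) (l 141787280986128399)) (a (l 141804667017871375) (l 141910769893801999))))) (a (c (l 141602906579763215) (l 141516388734631951)) (a (a (l 141686400741146639) (l 141701450310254607)) (l 141634173948051471)))))) (b (a (l 141302877260775439) (l 141354279441678351)) (a (c (l 141385478095454223)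 (l 141206188932956175)) (c (b (l 141440453689868303) (a (l 141424785646125071) (l 141452067285057551))) (b (l 141257522393972751) (l 141253330505662479)))))) (a (b (c (l 141761854768300047) (l 141403070282153999)) (c (b (l 141764397390561295) (b (l 141946022968426511) (c (c (a (l 141886992972693519) (l 141917160830271503)) (l 141902317394411535)) (l 141855794270830607)))) (a (l 141565248244400143) (l 141589643664719887)))) (b (l 141997700019306511) (c (b (l 141822259203981327) (a (c (c (c (l 14) (l 141924307656491023)) (l 141856000477511695)) (l 141717530693664783)) (c (b (l 141931591921696783) (c (l 14) (l 141887405286096911))) (l 141926644068384783)))) (c (l 141723234362294287) (l 141350568589049871))))))))), by decide +kernel⟩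

def k8_pm_123_a : ∃ t, chk3 f_pm_123_a t 19 6 1 = true :=
  ⟨(b (l 16579632) (a (l 16556784) (l 16575472))), by decide +kernel⟩

def k9_pm_123_a : ∃ t, chk3 f_pm_123_a t 19 14 1 = true :=
  ⟨(b (l 16575904) (a (l 16541944) (l 16564984))), by decide +kernel⟩

def k10_pm_123_a : ∃ t, chk3 f_pm_123_a t 38 15 1 = true :=
  ⟨(b (b (l 16541664) (b (l 16542312) (l 16543136))) (c (b (b (l 141939700809629711) (l 142128816814505999)) (b (a (l 141899499911495695) (l 142026149937152015)) (b (a (l 141909051922956303) (l 142040237435142159)) (c (c (l 14) (a (b (l 141961553618419727) (b (l 142055012108075023) (a (b (l 141934203260878863) (a (l 141919291131019279) (l 142041543087833103))) (l 14)))) (l 14))) (a (b (l 141819647860031503) (a (b (l 141790785673396239) (a (l 141776766897094671) (l 141897369586106383))) (b (l 141852976814735375) (c (a (l 141887267843735567) (l 141919840883474447)) (l 141895376719314959))))) (b (l 142129229176471567) (a (b (l 141918191613673487) (c (a (b (l 141952620081577999) (l 142043810827632655))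 (l 14)) (a (l 141853389130498063) (l 141886443206672399)))) (b (l 141986636228673551) (c (l 14) (a (l 141920253197238287) (b (l 141954406785138703) (l 142045460092223503)))))))))))) (b (b (l 141608816437510159) (l 141599401869836303)) (b (a (l 141537004572885007) (l 141649017346965519)) (a (b (l 141531094698770447) (b (l 141708665827229711) (c (a (l 141597821330980879) (b (l 141655889302667279) (l 141836140490555407))) (a (l 141399840466452495) (l 141453716549369871))))) (b (l 141646199850057743) (a (b (l 141614932481835023) (c (a (l 141701450326884367) (l 141912900164272143)) (l 141510478850899983))) (b (l 141676298989240335) (b (l 141856412738338831) (c (a (l 141765222016679951) (l 141978321121869839)) (l 141569852493266959))))))))))), by decide +kernel⟩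

def k11_pm_123_a : ∃ t, chk3 f_pm_123_a t 39 15 1 = true :=
  ⟨(b (b (l 16566680) (a (l 16562272) (l 16576760))) (a (b (l 142138093937573903) (a (b (l 141937295625846799) (b (c (l 142146958807531535) (l 141740414275076111)) (c (b (l 142156648257028111) (l 14)) (b (l 141740826593198095) (b (l 142011443893272591) (c (c (a (l 141885000094351375) (l 141920184474714127)) (l 141795458592342031)) (l 141632799548964879))))))) (b (l 142006358716121103) (c (l 14) (b (l 141807209622208527) (b (l 141808515293757455) (c (a (c (c (l 14) (l 141928293373968399)) (l 141846929492328463)) (c (l 14) (l 141882457470156815))) (a (l 141682277583716367) (l 141716087574249487))))))))) (b (b (l 142089234418663439) (l 142101054174183439)) (b (c (l 142316627231440911) (l 141909945261604879)) (b (c (l 142157816525881359) (l 141913793555546127)) (a (c (l 14) (b (l 141879571249348623) (c (b (l 141992339940327439) (c (l 14) (a (l 141919565996457999) (b (l 141956537083478031) (l 142047315512606735))))) (a (l 141930904666685455)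 (a (l 141777247922913295) (l 141975366178553871)))))) (c (b (l 142206263766220815) (a (l 14) (a (l 14) (c (c (l 142568759033004175) (l 14)) (l 14))))) (b (l 141954063179464719) (c (l 14) (b (l 141840882173034511) (c (a (l 141880464602480655) (l 141918397762453519)) (l 141782951639924751)))))))))))), by decide +kernel⟩

def k12_pm_123_a : ∃ t, chk3 f_pm_123_a t 10 2 1 = true :=
  ⟨(b (a (b (l 16659792) (l 16645360)) (b (l 16693704) (l 16681624))) (a (a (b (l 16627904) (l 16617400)) (b (l 16645176) (l 16637008))) (b (a (l 16664000) (l 16684984)) (a (l 16650640) (l 16672200))))), by decide +kernel⟩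

def k13_pm_123_a : ∃ t, chk3 f_pm_123_a t 10 6 1 = true :=
  ⟨(a (a (b (l 16607448) (l 16619688)) (b (a (l 16625520) (l 16634776)) (a (l 16620512) (b (l 16631368) (l 16629608))))) (a (b (l 16656888) (b (c (l 16642296) (l 16609368)) (a (l 16625680) (l 16621056)))) (b (l 16654864) (b (l 16642264) (l 16638384))))), by decide +kernel⟩

def k14_pm_123_a : ∃ t, chk3 f_pm_123_a t 10 14 1 = true :=
  ⟨(a (a (b (l 16591800) (l 16592664)) (a (b (l 16615632) (l 16618128)) (b (l 16628336) (a (l 16630536) (l 16631480))))) (a (b (a (l 16626808) (l 16625040)) (a (l 16632216) (a (l 16633264) (l 16613880)))) (b (l 16643528) (l 16632472)))), by decide +kernel⟩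

def k15_pm_123_a : ∃ t, chk3 f_pm_123_a t 20 30 1 = true :=
  ⟨(b (a (l 16596584) (a (l 16622672) (c (l 16626432) (l 16619376)))) (a (a (l 16592504) (l 16610024)) (a (l 16604472) (a (l 142651153692983311) (l 142513714703466511))))), by decide +kernel⟩

def k16_pm_123_a : ∃ t, chk3 f_pm_123_a t 40 31 1 = true :=
  ⟨(b (b (l 142319375998681103) (a (l 142254367361925135) (l 142414071459266575))) (b (a (b (l 142269416933015567) (l 142281099248271375)) (a (l 142392630937321487) (l 142287077834276879))) (c (a (c (b (l 142219938978873487) (b (a (l 142556526972485775) (l 142627101887496335)) (c (a (b (l 142610884090265743) (a (b (l 142596452997808271) (l 142598652021571727)) (l 142632736887963791))) (a (l 142665447364493455) (l 142699807108907151))) (a (l 14) (c (a (l 142593704215527567) (l 142628613715853455)) (l 14)))))) (l 14)) (b (b (l 142444789111111823) (l 142270928836493455)) (b (a (l 142242478925594767) (l 142311542011838607)) (c (a (b (l 142701937411145871) (c (l 142752721115381903) (a (l 142641326820507791)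 (l 142675549125918863)))) (a (b (l 142752446235410575) (l 142756088368529551)) (l 142787424433832079))) (c (a (a (l 14) (c (l 142602981343117455) (l 14))) (b (l 142629713223319695) (a (l 142615350839623823) (l 142649504436273295)))) (l 14)))))) (c (l 14) (b (a (l 141953719578099727) (l 142119814591430671)) (a (a (b (l 141916061297410063) (b (l 141917023370919951) (a (c (a (l 141947397388369935) (l 14)) (l 141838958026489871)) (c (l 14) (l 141877440942391311))))) (b (l 141995638469820431) (b (l 141996875421335567) (c (l 14) (a (l 142006908445671439) (b (l 141957086834196495) (l 14))))))) (b (a (l 142079270092193807) (l 14)) (l 14)))))))), by decide +kernel⟩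

def k17_pm_123_a : ∃ t, chk3 f_pm_123_a t 41 62 1 = true :=
  ⟨(b (a (l 142554053056987151) (a (l 142483203253141519) (l 142532337730158607))) (a (l 142384865708638223) (c (a (l 142830374128959631) (l 142887342585036943)) (a (l 142511515690057743) (l 142561062440943631))))), by decide +kernel⟩

def k18_pm_123_a : ∃ t, chk3 f_pm_123_a t 41 63 1 = true :=
  ⟨(b (a (c (l 142388645319540879) (l 142402320423190543)) (a (a (a (l 142296561198678031) (l 142403900938485775)) (a (l 142328721833525263) (l 142343084206604303))) (b (l 142375038768414735) (c (l 142912287761285263) (l 142388507837628431))))) (c (a (b (b (l 142581747052380303) (l 142406855985381519)) (b (a (l 142378955873288335) (c (l 142894145820950671) (l 142715268984979599))) (a (a (c (l 142820203651432591) (c (l 142681940034896015) (c (l 142612052312375439) (l 14)))) (c (l 142852501811150991) (c (l 142715406425915535) (a (l 142614251324489871) (l 142631225048957071))))) (c (b (l 142898750026989711) (l 142901911123656847)) (b (l 142718155203739791)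 (c (l 142765915228749967) (a (l 142657338454753423) (l 142690598687309967)))))))) (a (b (a (c (l 142932766173085839) (l 142759593054797967)) (l 142877584420208783)) (a (a (c (l 142936545745698959) (b (l 142756500678246543) (l 142760005372477583))) (b (l 142861435297923215) (c (l 142954962568855695) (a (l 142772168721973391) (c (l 142825220168925327) (l 142734922757488783)))))) (c (a (l 142967400796143759) (l 142982519083663503)) (b (l 142796357981716623) (c (l 142844805223219343) (a (l 142746948668014735) (l 142762891589386383))))))) (b (c (l 143008082732728463) (l 142836146565185679)) (c (b (l 143017016266801295) (a (l 143008082733629583) (l 143037838272249999))) (a (b (l 142827281751621775) (c (l 142875935151603855) (b (l 142785706459562127) (l 142787561885909135)))) (b (l 142857793204600975) (c (l 142906584043569295) (l 142817935899836559)))))))) (c (c (b (a (l 142360470290989199) (a (a (l 142627582912364687) (l 142659468755124367)) (l 142704961056571535))) (a (c (a (l 14) (a (l 14) (b (l 142618649379930255)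 (l 142620779684348047)))) (l 14)) (a (a (b (l 142629781936390287) (a (l 142622909977018511) (a (l 142635485654188175) (a (a (l 142640708335337615) (l 142642769920000143)) (l 142645793577500815))))) (b (l 142662286254538895) (a (a (l 142651978331488399) (l 142660087231152271)) (a (l 142668196130832527) (l 142676305030496399))))) (b (l 142709427823771791) (a (b (l 142695752645738639) (c (l 142719804467675279) (l 142674312153890959))) (a (l 142720354222751887) (l 142736228424646799))))))) (a (l 14) (a (l 14) (b (l 142616450352201871) (b (l 142574462752850063) (a (b (l 142604836759224463) (c (a (l 142620436083998863) (l 142636791322312847)) (l 14))) (a (c (l 142652459365679247) (l 14)) (a (l 142641807836135567) (l 142649848024367247))))))))) (l 14)))), by decide +kernel⟩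

def k19_pm_123_a : ∃ t, chk3 f_pm_123_a t 42 30 1 = true :=
  ⟨(a (b (l 16617336) (b (l 16620872) (l 142581334680305679))) (b (b (l 16620232) (l 16623328)) (b (l 142635760512450575) (c (l 143023750766395535) (l 16610936))))), by decide +kernel⟩

def k20_pm_123_a : ∃ t, chk3 f_pm_123_a t 42 62 1 = true :=
  ⟨(b (a (a (l 142758424816189455) (l 142803298641887247)) (a (l 142847210394763279) (l 142534742856286223))) (a (a (l 142415858143395855) (l 142465404894461967)) (a (l 142513783414210575) (a (l 142909538972598415) (l 142581266037981327))))), by decide +kernel⟩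

def k21_pm_123_a : ∃ t, chk3 f_pm_123_a t 42 126 1 = true :=
  ⟨(a (a (a (l 142493442434908175) (l 142492686525349903)) (b (l 142482378609360911) (c (l 143026018514993295) (l 142318551428989071)))) (a (c (c (l 143159334326239375) (l 142988497670291599)) (b (l 142717261838581903) (l 142371602874024079))) (c (b (l 143122294517858447) (l 143136175855353935)) (a (l 142762204384411791) (b (l 142789279862718607) (l 142807627967185039)))))), by decide +kernel⟩

def k22_pm_123_a : ∃ t, chk3 f_pm_123_a t 84 127 1 = true :=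
  ⟨(c (c (b (a (l 143066356859142287) (l 143123187876298895)) (a (a (l 143064226555723919) (l 143093226179952783)) (a (l 143121813487255695) (l 143150125916586127)))) (b (a (l 142895107886448783) (l 142952626098438287)) (a (b (l 142902873173082255) (a (c (l 142936889338085519) (l 142848790950281359)) (c (l 142966851035152527) (l 142879302403260559)))) (a (a (l 142942730492772495) (l 142957436463366287)) (a (l 142972073714450575) (l 142986573526565007)))))) (b (a (b (l 142269416909422735) (l 142272990355357839)) (b (l 142326728962818191) (l 142332295260569743))) (a (a (c (b (l 142711145809461391) (a (c (l 142751965187555471) (a (l 142657819485077647) (l 142665859665248399))) (c (l 142767633230971023) (b (l 142676854783361167) (l 142678710209708175))))) (l 14)) (b (c (l 142741725981917327) (l 142562024513355919)) (c (b (l 142745161956589711) (c (l 142792097369030799) (c (l 142725027145826447) (l 142680084598767759)))) (c (c (a (l 142625864920694927) (l 142641807842082959)) (l 14)) (l 14))))) (b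 (c (a (l 142771962556907663) (l 142801786814988431)) (a (l 142593017002721423) (l 142623597175160975))) (c (a (c (l 142821578029613199) (a (l 142725027145007247) (l 142740557749452943))) (c (l 142851883324129423) (a (l 142756019634405519) (l 142771344080404623)))) (a (c (a (b (l 142633973819588751) (c (l 142658850275360911) (l 142613632850428047))) (a (l 142647030522527887) (l 142654933263728783))) (l 14)) (a (c (a (l 142662767285436559) (l 142670601307160719)) (l 14)) (b (l 142635897963921551) (c (l 142683932888055951) (c (l 142616519067648143) (l 14))))))))))), by decide +kernel⟩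

def k23_pm_123_a : ∃ t, chk3 f_pm_123_a t 85 127 1 = true :=
  ⟨(c (c (a (b (l 143178644503674959) (a (l 143177957309513807) (l 143205513824469071))) (b (l 143233551375171663) (a (l 143232658022498511) (l 143260970451894479)))) (a (b (l 143008769920630927) (b (l 143019009125040271) (a (l 143011518701142159) (l 143040243447414927)))) (b (l 143065944535285903) (a (b (l 143061065452093583) (l 143068555876745359)) (a (l 143087728613982351) (l 143106489034555535)))))) (a (b (a (l 142372289983905935) (l 142400327535231119)) (b (c (a (l 142831198756126863) (l 142860335819309199)) (a (l 142653833750151311) (l 142683658008215695))) (c (c (a (l 142881845021196431) (l 142911394401337487)) (b (l 142807490531344527) (a (l 142795945657450639) (l 142826250951966863)))) (c (a (b (l 142703861539569807) (a (l 142699600931471503) (l 142715131535933583))) (a (l 142728669275095183) (l 142743925001584783))) (a (b (l 142614320043147407) (c (a (l 142632461989019791) (l 142648267471421583)) (l 14))) (b (l 142645243813052559)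 (a (c (l 142663935514853519) (l 142619199126421647)) (c (l 142679603558269071) (l 142635004608823439))))))))) (a (b (l 142428021489107087) (a (b (l 142794296387747983) (c (l 142890091358322831) (c (l 142759112008581263) (a (l 142666684293644431) (l 142674380876365967))))) (b (l 142808796199846031) (c (l 142904728609423503) (b (l 142727707200782479) (c (l 142776498039341199) (l 142688399641444495))))))) (b (c (l 142912287752339599) (l 142739045915672719)) (b (c (l 142925344455852175) (l 142753889325973647)) (b (c (l 142931941527093391) (a (l 142747842011136143) (l 142774848770588815))) (c (a (l 142925000858812559) (a (l 142942043292221583) (l 142953382007980175))) (a (c (l 142796220532752527) (a (l 142702212269490319) (l 142716299764875407))) (b (l 142778628342644879) (b (c (l 142822746255786127) (l 142738083843129487)) (a (l 142774986188325007) (c (l 142830442838655119) (a (l 142742825487974543) (l 142716093612834959)))))))))))))), by decide +kernel⟩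

def k24_pm_123_a : ∃ t, chk3 f_pm_123_a t 86 30 1 = true :=
  ⟨(b (l 16655088) (l 16619832)), by decide +kernel⟩

def k25_pm_123_a : ∃ t, chk3 f_pm_123_a t 86 62 1 = true :=
  ⟨(b (l 142653077903179855) (a (l 143003547234091087) (l 143083605439397967))), by decide +kernel⟩

def k26_pm_123_a : ∃ t, chk3 f_pm_123_a t 86 63 2 = true :=
  ⟨(a (b (l 143194449981849679) (b (a (l 143198573152174159) (b (l 143227916373885007) (a (l 143226748142878799) (l 143243446978658383)))) (a (b (a (l 143200909615267919) (b (l 143215615585878095) (l 143219395157885007))) (c (b (l 143292718855782607) (l 143296567147233487)) (a (b (l 143126967442440335) (l 143131090611896463)) (l 143148064325582927)))) (b (c (l 143317664029901007) (l 143167855538159695)) (c (l 143325498051707087) (l 143176376754962511)))))) (b (b (l 143252380510945359) (a (l 143249975329423439) (b (l 143278493917233231) (l 143285915622244431)))) (b (a (b (l 143260764289581135) (l 143268598311485519)) (l 143297529216106575)) (a (c (l 143351748896129231)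 (a (l 143199878820053071) (l 143217952045662415))) (c (l 143380817239720143) (c (l 143278768794665167) (l 143210392900698319))))))), by decide +kernel⟩

def k27_pm_123_a : ∃ t, chk3 f_pm_123_a t 86 63 3 = true :=
  ⟨(a (b (l 142872430445592719) (b (a (l 142875454104174735) (b (l 142919365857869967) (a (b (l 142914211896393871) (l 142918884821844111)) (b (l 142938401156710543) (l 142943280240590991))))) (a (b (a (l 142877103372419215) (b (l 142899231047991439) (c (l 142983962180485263) (a (l 142816698939621519) (l 142830099240075407))))) (a (b (a (l 142877996726026383) (c (l 142971523953049743) (b (l 142807146930684047) (l 142809758271357071)))) (b (a (c (l 142963552492388495) (a (l 142795395898130575) (l 142802199127589007))) (l 142894077086662799)) (c (l 142971730111660175) (c (l 142849409417724047) (a (l 142759867921350799) (l 142774024136179855)))))) (c (l 142991108995448975) (b (l 142828724850409615) (c (l 142874148433854607) (b (l 142792372239810703) (c (l 142815255830249615) (l 142774917489197199))))))))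 (b (a (c (l 143004303149236367) (b (l 142844942649671823) (l 142850234050478223))) (l 142950770665095311)) (b (c (l 143022651253014671) (l 142868788312768655)) (c (c (l 143065326056997007) (l 142989253580341391)) (a (c (l 142899849522905231) (c (l 142841231797239951) (a (l 142794846141137039) (l 142808933636489359)))) (c (l 142925207014523023) (b (l 142847691428905103) (c (l 142869406787993743) (a (l 142824326802194575) (l 142838208139100303)))))))))))) (b (b (l 142958742124249231) (a (b (l 142948709079269519) (l 142957917491200143)) (b (l 142995781929631887) (l 143005265219453071)))) (b (a (b (a (l 142955374870380687) (l 142979289252724879)) (l 142977090229305487)) (l 143019627593154703)) (c (b (l 143081612574687375) (a (c (l 143105183360712847) (a (l 143021483020812431) (l 143044091732852879))) (c (l 143146071456874639) (a (l 143066425566937231) (l 143088347084128399))))) (b (l 142939019630903439) (a (b (l 142920946405359759) (b (c (l 142961284746494095) (l 142888167208304783)) (a (c (l 142951389140074639)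 (c (l 142895932510994575) (a (l 142851952037036175) (l 142865695934972047)))) (c (l 142975990717350031) (c (l 142922045917069455) (a (l 142879233674461327) (l 142892771413934223))))))) (b (l 142971661388726415) (a (b (l 142962796574670991) (c (l 143000179977715855) (c (l 142947815725727887) (a (l 142906171714437263) (l 142919434575970447))))) (b (l 142987741749444751) (c (l 143024025640648847) (c (l 142973173217460367) (a (l 142932628718026895) (l 142945754140590223))))))))))))), by decide +kernel⟩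

def k28_pm_123_a : ∃ t, chk3 f_pm_123_a t 87 15 1 = true :=
  ⟨(b (b (l 16669688) (c (l 16690952) (l 16661336))) (a (b (b (l 143130678288367695) (a (l 143141673408020559) (c (l 16696600) (l 143046977947910287)))) (b (b (a (b (l 143160777426862159) (l 142988703858868303)) (l 143203177351856207)) (c (l 143330308411818063) (l 143069930258923663))) (b (c (l 143344876943868111) (c (l 143152531087409295) (l 143023682041790607))) (b (c (c (l 143419025275273423) (l 143292100374315215)) (c (l 143165038034960527) (l 143037906976669839))) (c (a (c (l 143412290765570255) (a (l 143274370746319055) (l 143291207021199567))) (c (l 143439091366183119) (a (l 143307768418140367) (l 143324054937125071)))) (b (c (l 143171291508736143) (c (l 143076458611196047) (l 143013305399148687))) (a (c (c (l 143187646748098703) (b (l 143121744756146319) (l 143123875060400271))) (a (c (l 143046359474798735) (c (l 142996950160916623) (a (l 142957505173323919) (l 142970424437424271)))) (b (l 143036395148279951) (c (l 143070617454755983)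 (a (l 143000592293724303) (l 143013030521405583)))))) (c (c (l 143225786064863439) (l 143164625717821583)) (a (c (l 143092264094040207) (a (l 143024231798227087) (l 143036463867478159))) (c (l 143114735367258255) (a (l 143048695936696463) (l 143060790566961295)))))))))))) (b (b (l 143205376373456975) (c (l 16700584) (b (l 16674032) (l 143122706825724047)))) (b (c (l 143384115771408463) (c (l 143207850275668111) (l 143090546104385679))) (b (c (l 143404113143431375) (c (l 143231627220074575) (l 143117690304004239))) (c (c (b (l 143471320806277327) (a (l 143464929894023375) (l 143489737629597903))) (a (c (l 143373739128733903) (l 143315327561056463)) (c (l 143403151070249167) (l 143347900599206095)))) (a (b (l 143166000106766415) (a (b (l 143161739498635343) (c (l 143224274235555919) (c (l 143136794323583119) (l 143078726353895567)))) (b (l 143182630223609935) (c (l 143243309534265551) (c (l 143158509682458767) (l 143102365858513039)))))) (b (l 143207369239789647) (a (c (l 143260077079036111) (c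 (l 143177819859124367) (l 143123394022457487))) (c (l 143278493913120975) (b (l 143170466873360527) (l 143174590042996879)))))))))))), by decide +kernel⟩

def k29_pm_123_a : ∃ t, chk3 f_pm_123_a t 11 2 1 = true :=
  ⟨(b (a (b (l 16725960) (l 16717136)) (b (b (l 16748240) (l 16744016)) (l 16741088))) (b (a (l 16713144) (l 16740008)) (a (l 16705328) (l 16737048)))), by decide +kernel⟩

def k30_pm_123_a : ∃ t, chk3 f_pm_123_a t 11 6 1 = true :=
  ⟨(b (a (l 16692400) (l 16730664)) (a (b (l 16683552) (l 16680008)) (a (l 16715048) (l 16732896)))), by decide +kernel⟩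

def k31_pm_123_a : ∃ t, chk3 f_pm_123_a t 11 14 1 = true :=
  ⟨(a (b (a (l 16671592) (l 16695840)) (b (l 16669728) (a (l 16683848) (l 16706968)))) (b (c (l 16730824) (l 16698312)) (b (l 16708896) (a (l 16726072) (l 16741504))))), by decide +kernel⟩

def k32_pm_123_a : ∃ t, chk3 f_pm_123_a t 22 30 1 = true :=
  ⟨(b (a (c (l 16701592) (l 16677624)) (c (l 16719688) (l 16705112))) (a (c (a (l 16701552) (l 16711208)) (a (l 16677320) (l 16692024))) (c (l 16724056) (a (l 16705520) (l 16717856))))), by decide +kernel⟩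

def k33_pm_123_a : ∃ t, chk3 f_pm_123_a t 44 31 1 = true :=
  ⟨(b (b (a (c (l 16705480) (l 16682896)) (c (l 16714912) (l 16697456))) (c (a (l 143443833006440527) (l 16717432)) (a (l 143240010994434127) (l 143389888202686543)))) (b (a (c (c (l 143518118777290959) (l 143418063197372623)) (c (l 143320000483164239) (l 143223930634633359))) (c (l 143564641870725327) (c (l 143451735746461903) (l 143381916743630927)))) (b (a (c (c (l 143534336577568975) (l 143436273863180495)) (a (l 143255472882368591) (l 143331064321884239))) (a (c (l 143556326813450447) (l 143401364361035855)) (a (l 143516950587900111) (l 143542445519257807)))) (a (c (a (b (l 143467884830081231) (a (c (l 143513583292399823) (b (l 143406861922173135) (l 143409954299396303))) (c (l 143536466882429135) (l 143436961058930895)))) (b (l 143517637740871887) (a (c (l 143558319680192783) (l 143464448855064783)) (c (l 143579210405183759) (l 143490768419963087))))) (a (c (a (b (l 143298422564913359) (a (l 143296567139057871) (l 143314365487038671)))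 (c (l 143361026021048527) (l 143313197255327951))) (b (l 143218020760404111) (a (c (l 143229771793825935) (l 143180018882543759)) (a (l 143236368864821391) (l 143256915992526991))))) (a (b (l 143323161581158479) (c (l 143374014004822223) (l 143287083848974415))) (b (l 143359101874847823) (c (l 143406380885016783) (l 143326047800344655)))))) (c (c (a (b (l 143604499177324815) (a (l 143599207776878863) (l 143618243075817743))) (b (l 143641264104964367) (a (l 143636316301967631) (l 143653496174838031)))) (a (a (b (l 143511040669335759) (l 143516057192579279)) (l 143537909990539471)) (a (l 143561205898117327) (l 143583402293936399)))) (a (a (c (l 143434693315084495) (l 143360338826133583)) (c (l 143464723732775119) (l 143396760156537039))) (b (l 143474756778688719) (c (l 143510078597497039) (l 143451804469625039))))))))), by decide +kernel⟩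

def k34_pm_123_a : ∃ t, chk3 f_pm_123_a t 45 31 1 = true :=
  ⟨(a (c (b (l 16724688) (b (l 602020012784508670928079) (c (b (l 602561597701017604597007) (c (a (b (l 16733760) (l 602699948290297802466575)) (l 16737120)) (a (l 602509139747406660117775) (l 603058939645113871537167)))) (b (l 602343407248683825587471) (a (b (l 602263855650228702045455) (l 602417482444359698048271)) (l 602949412102176213586959)))))) (b (b (l 16710744) (l 16714208)) (b (c (l 16720008) (l 601468627947593229819983)) (a (b (l 601710741471944447107279) (c (l 602147122295591726916815) (l 601988307311328002482383))) (b (l 602447458368501255266511) (c (l 602837866946605492687887) (l 602765809352567558050831))))))) (c (b (l 16732344) (b (l 16735712) (a (b (l 16735640) (c (a (l 16738136) (l 16739680)) (l 603542301985920293213199))) (c (c (l 16742344) (l 16740536)) (l 603972053476762502288399))))) (b (b (l 16722848) (l 16726168)) (b (l 603006625361182629568719) (a (c (l 603346593560513273173007) (l 603343134795999448028175)) (a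 (l 603863967085705601815567) (l 604208402385206902920207))))))), by decide +kernel⟩

def k35_pm_123_a : ∃ t, chk3 f_pm_123_a t 23 15 1 = true :=
  ⟨(a (c (a (b (l 16733112) (b (l 16739224) (b (l 16763264) (c (b (l 16745104) (a (l 16744768) (l 16747552))) (a (l 604534390940634499585039) (l 16745712)))))) (b (l 16739560) (b (l 16745232) (b (l 16748544) (a (c (l 16749744) (l 16749312)) (a (l 16751800) (l 16753440))))))) (b (a (l 16746976) (l 16736184)) (b (a (l 16735456) (l 16745104)) (a (b (l 604370676086980323136527) (c (b (l 16742488) (l 605118633913094023287823)) (l 605155239170865311519759))) (b (l 16749960) (a (l 606034053587751873909775) (l 606684877777102449464335))))))) (b (b (l 16766744) (c (l 16749464) (l 16752136))) (b (a (a (l 16771168) (l 16785256)) (b (l 16757496) (l 16792184))) (b (a (c (l 16754592) (l 16759520)) (c (l 16760936) (l 16769304))) (c (a (c (b (l 16756200) (l 16757696)) (l 16758640)) (c (l 16762960) (l 16766312))) (a (a (l 607330802050058446017551) (l 607972114636996015248399))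 (c (l 16771152) (c (l 16775760) (l 16779296))))))))), by decide +kernel⟩

def k36_pm_123_a : ∃ t, chk3 f_pm_123_a t 3 2 1 = true :=
  ⟨(a (a (b (b (a (a (l 16755072) (l 16759096)) (a (l 16763592) (b (l 16767088) (l 16765352)))) (a (l 16754528) (a (l 16762664) (l 16766032)))) (b (a (l 16756504) (l 16767160)) (a (l 16755976) (a (l 16764664) (l 16767200))))) (b (a (b (a (a (l 16767328) (l 16767808)) (b (a (l 16769656) (l 16771704)) (l 16767272))) (a (l 16766720) (l 16766232))) (b (a (b (a (l 82913006215) (l 146263760823)) (l 16769104)) (b (l 4) (a (l 68954351927) (l 111367129175)))) (a (b (l 16766232) (l 16765264)) (b (l 16767944) (l 16764896))))) (a (b (l 16788824) (a (l 16767584) (l 16765232))) (b (a (l 16764776) (l 16762912)) (a (l 16762352) (b (l 16758872) (l 16759352))))))) (a (a (b (b (l 4) (a (a (l 71638700311) (b (l 80765497015) (l 16769352))) (b (l 4) (a (l 16770496) (l 100092838135))))) (b (a (b (l 16743088) (l 16761272)) (a (l 16764432) (b (l 16770128) (l 16764384)))) (a (b (l 16758808)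 (l 16758008)) (b (l 16760920) (l 16738960))))) (b (l 4) (b (a (a (b (l 98482247319) (l 16767200)) (b (l 132305076407) (l 16769800))) (b (l 4) (a (l 117809562919) (l 4)))) (a (b (l 16764152) (l 16758544)) (b (a (l 16769192) (l 114588386967)) (l 16766928)))))) (a (b (l 4) (a (b (l 4) (a (b (l 188139732839) (l 16775056)) (b (l 4) (a (l 118346489575) (l 203172039991))))) (l 4))) (l 4)))), by decide +kernel⟩

def k37_pm_123_a : ∃ t, chk3 f_pm_123_a t 6 6 1 = true :=
  ⟨(a (b (a (l 16754392) (b (l 16764392) (l 16764864))) (a (b (l 16751904) (l 16729648)) (b (l 16764040) (a (l 16761880) (l 16767208))))) (a (b (b (a (l 16765336) (l 16763216)) (b (l 16763312) (l 16765456))) (b (b (l 16767616) (l 16706288)) (a (l 16771656) (a (l 16775360) (l 16777440))))) (b (b (l 16739352) (a (l 16762536) (l 16763560))) (b (a (l 16768368) (l 16852736)) (a (l 16756624) (c (l 16776080) (l 16782672))))))), by decide +kernel⟩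

def k38_pm_123_a : ∃ t, chk3 f_pm_123_a t 12 14 1 = true :=
  ⟨(a (a (b (l 16745320) (a (l 16748952) (l 16754064))) (b (l 16733472) (b (l 16758744) (l 16763288)))) (b (a (l 16741448) (b (l 16769368) (l 16771016))) (a (b (l 16766408) (l 16771520)) (b (l 16775488) (l 16802160))))), by decide +kernel⟩

def k39_pm_123_a : ∃ t, chk3 f_pm_123_a t 12 30 1 = true :=
  ⟨(a (a (b (c (l 16755272) (l 16761416)) (c (l 16760024) (l 16789744))) (a (b (l 16765992) (l 16793840)) (b (l 16770640) (l 16778024)))) (a (a (b (l 16775336) (l 16825000)) (b (l 16780232) (l 16851312))) (b (a (l 16785448) (l 16790912)) (c (l 16788696) (l 16848912))))), by decide +kernel⟩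

def k40_pm_123_a : ∃ t, chk3 f_pm_123_a t 24 31 1 = true :=
  ⟨(b (a (c (b (l 16763720) (l 16767064)) (a (l 16772048) (l 16802160))) (a (c (l 16774416) (c (l 16785496) (l 16794984))) (b (l 16784528) (b (l 16788152) (l 16811656))))) (a (b (c (c (l 16768472) (l 16794520)) (a (l 16779192) (b (l 16787688) (l 16790512)))) (c (a (c (l 16769144) (l 16774096)) (c (l 16775432) (b (l 16780704) (l 16783160)))) (b (a (b (l 16782472) (l 16783840)) (c (l 16788768) (l 16798552))) (a (a (l 16804288) (c (l 16784376) (l 16793224))) (a (c (l 16789192) (l 16798944)) (b (l 16819272) (c (l 16794720) (l 16815960)))))))) (c (a (b (l 16801616) (a (b (l 16782552) (l 16805936)) (c (l 16783152) (l 16791296)))) (b (l 16786112) (b (l 16789824) (a (l 16791048) (l 16793944))))) (b (a (a (l 16796504) (l 16800640)) (b (l 16803584) (l 16806720))) (b (a (a (l 16822056) (c (l 16799752) (l 16811424))) (c (l 16804256) (l 16816208))) (a (a (c (l 16798760) (c (l 16807224) (b (l 16812544) (l 16814344)))) (c (l 16802840) (b (l 16814048)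 (a (a (l 16814600) (l 16815456)) (l 16816656))))) (a (c (l 16805896) (c (l 16814928) (b (l 16820600) (l 16822472)))) (c (l 16809024) (a (l 16831120) (l 16822296)))))))))), by decide +kernel⟩

def k41_pm_123_a : ∃ t, chk3 f_pm_123_a t 25 31 1 = true :=
  ⟨(b (a (b (a (l 16789912) (l 16795568)) (c (l 16789384) (a (l 16805152) (l 16811568)))) (b (a (l 16801560) (l 16828760)) (c (l 16800912) (a (l 16818232) (l 16825056))))) (b (a (a (c (l 16791592) (b (l 16809808) (l 16813072))) (c (l 16797408) (b (l 16816360) (l 16819704)))) (c (a (l 16803424) (l 16809560)) (a (b (l 16823112) (l 16826504)) (b (l 16829968) (l 16833360))))) (a (c (c (a (l 16792904) (l 16798848)) (a (b (l 16800104) (l 16803096)) (l 16807856))) (c (a (a (l 16810576) (l 16813816)) (b (l 16817064) (l 16820472))) (a (b (l 16822848) (a (b (l 16823896) (l 16836248)) (b (l 16827304) (l 16829184)))) (b (l 16829728) (a (b (l 16830760) (l 16832648)) (l 16835192)))))) (c (a (b (l 16807816) (l 16831856)) (b (l 16814072) (l 16817192))) (a (b (c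 (l 16823736) (l 16836728)) (c (l 16827184) (a (l 16838696) (l 16842200)))) (c (l 16853152) (a (l 16864816) (l 16847320)))))))), by decide +kernel⟩

def k42_pm_123_a : ∃ t, chk3 f_pm_123_a t 13 7 1 = true :=
  ⟨(a (b (b (a (b (l 16776752) (l 16759376)) (b (l 16763216) (a (l 16788120) (l 16792784)))) (a (b (l 16785600) (a (l 16789192) (l 16794840))) (c (b (l 16787184) (l 16793904)) (b (l 16807816) (l 16794336))))) (b (b (a (a (l 16796720) (l 16802784)) (a (l 16789336) (b (l 16812672) (l 16817136)))) (a (c (l 16799816) (b (l 16817728) (l 16823280))) (c (a (l 16808392) (l 16813872)) (a (l 16830904) (l 16837304))))) (a (b (c (a (l 16807192) (l 16813128)) (a (b (l 16825688) (l 16831944)) (l 16877640))) (c (a (c (l 16814184) (l 16844848)) (b (l 16821728) (l 16827824))) (a (b (l 16859488) (a (c (l 16837136) (l 16850760)) (l 16867984))) (b (l 16845184) (a (l 16850240) (l 16853376)))))) (b (a (c (l 16818944) (l 16863336)) (a (l 16897168) (l 16899672))) (c (a (l 16851496) (l 16856776)) (a (b (l 16851528)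 (l 16878872)) (b (l 16857264) (l 16884328)))))))) (b (c (a (b (l 16804448) (l 16839248)) (b (l 16787024) (l 16865552))) (b (a (b (l 16794408) (l 16804056)) (l 16778512)) (a (b (l 16812824) (l 16821960)) (b (l 16814888) (l 16825472))))) (b (a (b (c (l 16810072) (l 16831568)) (b (l 16869512) (l 16895912))) (b (c (l 16816648) (l 16836056)) (c (l 16827088) (l 16847728)))) (a (c (b (l 16851776) (a (l 16840336) (l 16844008))) (b (a (l 16852320) (l 16855480)) (a (l 16885464) (l 16867584)))) (b (a (l 16888344) (l 16890784)) (c (l 16910960) (a (l 16869928) (l 16871448)))))))), by decide +kernel⟩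

def k43_pm_123_a : ∃ t, chk3 f_pm_123_a t 14 3 1 = true :=
  ⟨(b (a (b (a (b (l 16760816) (l 16764880)) (b (l 16762304) (l 16767552))) (b (a (a (l 16770504) (l 16772104)) (b (l 16772664) (l 16776816))) (a (c (l 16780112) (l 16763600)) (b (l 16782048) (l 16788320))))) (b (a (b (a (l 16764152) (l 16766488)) (l 16771080)) (b (a (l 16769048) (l 16770432)) (a (l 16773736) (l 16754704)))) (b (a (l 16758072) (l 16783024)) (a (b (l 16764632) (l 16791864)) (a (l 16770376) (l 16771792)))))) (b (a (b (a (a (l 16774008) (l 16775616)) (a (l 16777152) (l 16778928))) (a (b (a (l 16808832) (l 16810456)) (l 16861920)) (b (a (l 16811832) (l 16812576)) (c (l 16815872) (l 16807920))))) (a (b (c (l 16799248) (l 16762464)) (b (l 16771216) (l 16821800))) (b (l 16802384) (b (l 16811432) (l 16818624))))) (a (b (a (b (c (l 16822064) (l 16839376)) (c (l 16831856) (l 16787704))) (c (b (l 16824976) (l 16833624)) (b (l 16840040) (l 16850264)))) (b (c (a (l 16841632) (l 16831376)) (a (l 16861672) (l 16859864))) (c (a (b (l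 16848344) (l 16852624)) (a (l 16849864) (l 16848280))) (a (c (l 16865776) (l 16877816)) (a (l 16869472) (l 16866832)))))) (b (b (a (l 16830256) (a (l 16826616) (l 16822984))) (a (c (l 16810816) (l 16845960)) (c (l 16826584) (l 16838000)))) (b (a (c (l 16838512) (l 16854136)) (c (l 16831928) (l 16844840))) (a (c (c (l 16840912) (l 16848112)) (c (l 16856504) (l 16866112))) (c (c (l 16812456) (l 16839488)) (b (l 16849112) (l 16817936))))))))), by decide +kernel⟩

def k44_pm_123_a : ∃ t, chk3 f_pm_123_a t 30 3 1 = true :=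
  ⟨(b (a (b (b (a (l 16771280) (l 16772616)) (a (l 16777968) (l 16778392))) (b (a (l 16785280) (l 16785648)) (l 16793632))) (b (a (b (a (l 16771928) (l 179549806167)) (l 16776784)) (b (a (l 345442856071) (l 4)) (a (l 16775352) (b (l 313230636823) (l 16773768))))) (a (b (l 16786416) (l 16792576)) (b (l 16781216) (b (l 16788128) (l 16791552)))))) (b (a (b (a (l 16800952) (l 16799592)) (a (l 16811416) (l 16808128))) (a (b (l 16797696) (l 16804360)) (b (l 16794912) (l 16799736)))) (b (a (a (b (l 16818920) (l 16824864)) (b (l 16814424) (l 16819304))) (a (b (l 16809392) (l 16813152)) (b (l 16803776) (l 16837944)))) (a (a (b (l 16830000) (c (l 16828672) (l 16814200))) (b (l 16803016) (c (l 16822952) (b (l 16826544) (l 16825952))))) (a (b (c (l 16813968) (l 16818792)) (b (l 16783424) (c (l 16817384) (l 16785976)))) (c (b (l 16807792) (b (l 16809712) (l 16810784))) (b (l 16810688) (b (l 16788968) (a (l 16790360) (l 16786408)))))))))), by decide +kernel⟩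

def k45_pm_123_a : ∃ t, chk3 f_pm_123_a t 62 3 1 = true :=
  ⟨(b (b (a (b (l 4) (a (b (l 4) (l 277260284071)) (l 4))) (l 4)) (a (b (a (l 16775472) (b (l 299271991031) (l 16774440))) (a (l 16782744) (l 16778456))) (b (a (b (l 4) (l 270280964519)) (l 4)) (a (b (l 16774672) (l 16777232)) (b (a (l 16771688) (l 405035541863)) (l 16774816)))))) (b (b (a (b (l 16788640) (l 16791432)) (a (b (l 16781240) (l 16786768)) (b (l 16777976) (l 16782488)))) (a (b (l 16793816) (l 16796008)) (a (l 16822560) (l 16817872)))) (b (b (a (l 16797944) (l 16812552)) (a (a (l 16801624) (l 16798424)) (a (l 16795216) (l 16791936)))) (b (a (b (l 16802400) (c (l 16801856) (l 16802728))) (a (b (l 16796816) (l 16798272)) (b (l 16792944) (l 16794328)))) (c (b (a (l 16802928) (a (l 16797592) (l 16793928))) (a (b (l 16803584) (l 16783000)) (a (l 16798304) (a (l 16795488) (l 16793592))))) (a (b (b (l 16802384) (l 16781144)) (a (a (l 16783528) (l 16781648)) (b (l 16799976) (l 16778728)))) (a (b (l 16796712) (b (l 16796360) (a (l 16776016)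 (l 16784720)))) (b (l 16793152) (b (l 16777096) (a (l 16782960) (l 16778600))))))))))), by decide +kernel⟩

def k46_pm_123_a : ∃ t, chk3 f_pm_123_a t 63 3 1 = true :=
  ⟨(b (a (b (l 4) (b (l 4) (a (b (l 4) (a (l 16782192) (l 4))) (l 4)))) (l 4)) (b (b (a (a (b (a (l 16775752) (l 16774408)) (a (l 16779488) (l 16778304))) (b (a (l 320746832823) (l 4)) (a (l 16776696) (a (l 16775200) (l 299808871351))))) (l 4)) (b (a (a (l 16802736) (a (l 16778584) (a (l 16777816) (l 16777152)))) (a (a (a (l 16776224) (l 6)) (l 6)) (l 4))) (a (a (l 16784176) (l 6)) (l 6)))) (a (a (a (a (b (b (l 16788608) (l 16789752)) (b (l 16801680) (b (l 16792376) (b (l 16781824) (c (l 16792264) (l 16779920)))))) (l 6)) (l 6)) (l 6)) (l 6)))), by decide +kernel⟩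

theorem s47_pm_123_a : ∃ t, chk3 f_pm_123_a t 31 3 1 = true := ex3_a k45_pm_123_a k46_pm_123_a

theorem s48_pm_123_a : ∃ t, chk3 f_pm_123_a t 15 3 1 = true := ex3_a k44_pm_123_a s47_pm_123_a

theorem s49_pm_123_a : ∃ t, chk3 f_pm_123_a t 7 3 1 = true := ex3_a k43_pm_123_a s48_pm_123_a

theorem s50_pm_123_a : ∃ t, chk3 f_pm_123_a t 12 31 1 = true := ex3_a k40_pm_123_a k41_pm_123_a

theorem s51_pm_123_a : ∃ t, chk3 f_pm_123_a t 12 15 1 = true := ex3_b k39_pm_123_a s50_pm_123_a

theorem s52_pm_123_a : ∃ t, chk3 f_pm_123_a t 12 7 1 = true := ex3_b k38_pm_123_a s51_pm_123_a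

theorem s53_pm_123_a : ∃ t, chk3 f_pm_123_a t 6 7 1 = true := ex3_a s52_pm_123_a k42_pm_123_a

theorem s54_pm_123_a : ∃ t, chk3 f_pm_123_a t 6 3 1 = true := ex3_b k37_pm_123_a s53_pm_123_a

theorem s55_pm_123_a : ∃ t, chk3 f_pm_123_a t 3 3 1 = true := ex3_a s54_pm_123_a s49_pm_123_a

theorem s56_pm_123_a : ∃ t, chk3 f_pm_123_a t 3 1 1 = true := ex3_b k36_pm_123_a s55_pm_123_a

theorem s57_pm_123_a : ∃ t, chk3 f_pm_123_a t 22 31 1 = true := ex3_a k33_pm_123_a k34_pm_123_a

theorem s58_pm_123_a : ∃ t, chk3 f_pm_123_a t 22 15 1 = true := ex3_b k32_pm_123_a s57_pm_123_a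

theorem s59_pm_123_a : ∃ t, chk3 f_pm_123_a t 11 15 1 = true := ex3_a s58_pm_123_a k35_pm_123_a

theorem s60_pm_123_a : ∃ t, chk3 f_pm_123_a t 11 7 1 = true := ex3_b k31_pm_123_a s59_pm_123_a

theorem s61_pm_123_a : ∃ t, chk3 f_pm_123_a t 11 3 1 = true := ex3_b k30_pm_123_a s60_pm_123_a

theorem s62_pm_123_a : ∃ t, chk3 f_pm_123_a t 11 1 1 = true := ex3_b k29_pm_123_a s61_pm_123_a

theorem s63_pm_123_a : ∃ t, chk3 f_pm_123_a t 86 63 1 = true := ex3_c k26_pm_123_a k27_pm_123_a

theorem s64_pm_123_a : ∃ t, chk3 f_pm_123_a t 86 31 1 = true := ex3_b k25_pm_123_a s63_pm_123_a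

theorem s65_pm_123_a : ∃ t, chk3 f_pm_123_a t 86 15 1 = true := ex3_b k24_pm_123_a s64_pm_123_a

theorem s66_pm_123_a : ∃ t, chk3 f_pm_123_a t 43 15 1 = true := ex3_a s65_pm_123_a k28_pm_123_a

theorem s67_pm_123_a : ∃ t, chk3 f_pm_123_a t 42 127 1 = true := ex3_a k22_pm_123_a k23_pm_123_a

theorem s68_pm_123_a : ∃ t, chk3 f_pm_123_a t 42 63 1 = true := ex3_b k21_pm_123_a s67_pm_123_a

theorem s69_pm_123_a : ∃ t, chk3 f_pm_123_a t 42 31 1 = true := ex3_b k20_pm_123_a s68_pm_123_a

theorem s70_pm_123_a : ∃ t, chk3 f_pm_123_a t 42 15 1 = true := ex3_b k19_pm_123_a s69_pm_123_a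

theorem s71_pm_123_a : ∃ t, chk3 f_pm_123_a t 21 15 1 = true := ex3_a s70_pm_123_a s66_pm_123_a

theorem s72_pm_123_a : ∃ t, chk3 f_pm_123_a t 41 31 1 = true := ex3_b k17_pm_123_a k18_pm_123_a

theorem s73_pm_123_a : ∃ t, chk3 f_pm_123_a t 20 31 1 = true := ex3_a k16_pm_123_a s72_pm_123_a

theorem s74_pm_123_a : ∃ t, chk3 f_pm_123_a t 20 15 1 = true := ex3_b k15_pm_123_a s73_pm_123_a

theorem s75_pm_123_a : ∃ t, chk3 f_pm_123_a t 10 15 1 = true := ex3_a s74_pm_123_a s71_pm_123_a

theorem s76_pm_123_a : ∃ t, chk3 f_pm_123_a t 10 7 1 = true := ex3_b k14_pm_123_a s75_pm_123_a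

theorem s77_pm_123_a : ∃ t, chk3 f_pm_123_a t 10 3 1 = true := ex3_b k13_pm_123_a s76_pm_123_a

theorem s78_pm_123_a : ∃ t, chk3 f_pm_123_a t 10 1 1 = true := ex3_b k12_pm_123_a s77_pm_123_a

theorem s79_pm_123_a : ∃ t, chk3 f_pm_123_a t 5 1 1 = true := ex3_a s78_pm_123_a s62_pm_123_a

theorem s80_pm_123_a : ∃ t, chk3 f_pm_123_a t 19 15 1 = true := ex3_a k10_pm_123_a k11_pm_123_a

theorem s81_pm_123_a : ∃ t, chk3 f_pm_123_a t 19 7 1 = true := ex3_b k9_pm_123_a s80_pm_123_a

theorem s82_pm_123_a : ∃ t, chk3 f_pm_123_a t 19 3 1 = true := ex3_b k8_pm_123_a s81_pm_123_a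

theorem s83_pm_123_a : ∃ t, chk3 f_pm_123_a t 18 15 1 = true := ex3_a k6_pm_123_a k7_pm_123_a

theorem s84_pm_123_a : ∃ t, chk3 f_pm_123_a t 18 7 1 = true := ex3_b k5_pm_123_a s83_pm_123_a

theorem s85_pm_123_a : ∃ t, chk3 f_pm_123_a t 18 3 1 = true := ex3_b k4_pm_123_a s84_pm_123_a

theorem s86_pm_123_a : ∃ t, chk3 f_pm_123_a t 9 3 1 = true := ex3_a s85_pm_123_a s82_pm_123_a

theorem s87_pm_123_a : ∃ t, chk3 f_pm_123_a t 8 7 1 = true := ex3_b k2_pm_123_a k3_pm_123_a

theorem s88_pm_123_a : ∃ t, chk3 f_pm_123_a t 8 3 1 = true := ex3_b k1_pm_123_a s87_pm_123_a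

theorem s89_pm_123_a : ∃ t, chk3 f_pm_123_a t 4 3 1 = true := ex3_a s88_pm_123_a s86_pm_123_a

theorem s90_pm_123_a : ∃ t, chk3 f_pm_123_a t 4 1 1 = true := ex3_b k0_pm_123_a s89_pm_123_a

theorem s91_pm_123_a : ∃ t, chk3 f_pm_123_a t 2 1 1 = true := ex3_a s90_pm_123_a s79_pm_123_a

theorem s92_pm_123_a : ∃ t, chk3 f_pm_123_a t 1 1 1 = true := ex3_a s91_pm_123_a s56_pm_123_a

theorem c_pm_123_a : CertB 536870912 536870912 0 536870912 649613803 48318383 3 eng mog cd0q1 cd2q2a pd3 true true false .npn 1 2 3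
    ndB0q1 ndB2q2a pcB3 cut_pm_123_a xt_pm_123_a :=
  certB2 (fam := true) (s1 := true) (s2 := false) (a := 1) (b := 2) (c := 3) (cn := .npn) (n1 := ndB0q1) (n2 := ndB2q2a) (pc := pcB3) (cut := cut_pm_123_a) (xt := xt_pm_123_a) (P1 := 536870912) (W1 := 536870912) (P2 := 0) (W2 := 536870912) (P3 := 649613803) (W3 := 48318383) (N0 := 3) (En := eng) (mo := mog) (C1 := cd0q1) (C2 := cd2q2a) (C3 := pd3)
    rfl (fun _ => rfl) s92_pm_123_a

noncomputable def cut_pm_123_b : Cut := Cut.of [[⟨0, 1, 0, 67108864⟩, ⟨1, 1, 0, 67108864⟩, ⟨2, 2, 0, 16777216⟩], [⟨0, 0, 1, 20971520⟩, ⟨1, 1, 0, 33554432⟩, ⟨2, 1, 1, 20971520⟩]]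

noncomputable def f_pm_123_b : ℕ → ℕ → ℕ → ℕ → Bool := onCell 1610612736 536870912 1239849684 370763052 649613803 48318383
    (rowB 3 eng mog cd0q1 cd2q2b pd3 2 true true false .npn 1 2 3 (qsf 536870912 536870912 1239849684 370763052 3) ndB0q1 ndB2q2b pcB3 cut_pm_123_b Ext.none)

def k0_pm_123_b : ∃ t, chk3 f_pm_123_b t 1 1 1 = true :=
  ⟨(a (b (a (l 1) (b (a (b (a (b (l 16652056) (l 1)) (b (l 16688752) (l 16667424))) (l 1)) (b (a (b (l 16739616) (l 16697504)) (b (l 16759256) (l 16719400))) (a (l 16689040) (l 16715336)))) (a (l 1) (b (a (l 1) (l 16710888)) (l 1))))) (l 1)) (a (b (a (b (b (b (a (a (l 16747328) (l 16752248)) (a (l 16799280) (b (l 16764576) (l 16760176)))) (a (l 16736784) (l 16757848))) (a (l 16695896) (l 16749968))) (a (b (l 16727840) (l 1)) (b (l 16736848) (l 16726912)))) (b (a (b (b (a (b (a (l 16766888) (l 16769704)) (l 16768256)) (a (l 16776080) (l 42110819703))) (a (l 16763176) (l 4))) (a (l 16751912) (l 4))) (l 4)) (l 4))) (a (l 1) (l 4))) (l 4))), by decide +kernel⟩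

theorem c_pm_123_b : CertB 536870912 536870912 1239849684 370763052 649613803 48318383 3 eng mog cd0q1 cd2q2b pd3 true true false .npn 1 2 3
    ndB0q1 ndB2q2b pcB3 cut_pm_123_b Ext.none :=
  certB2 (fam := true) (s1 := true) (s2 := false) (a := 1) (b := 2) (c := 3) (cn := .npn) (n1 := ndB0q1) (n2 := ndB2q2b) (pc := pcB3) (cut := cut_pm_123_b) (xt := Ext.none) (P1 := 536870912) (W1 := 536870912) (P2 := 1239849684) (W2 := 370763052) (P3 := 649613803) (W3 := 48318383) (N0 := 3) (En := eng) (mo := mog) (C1 := cd0q1) (C2 := cd2q2b) (C3 := pd3)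
    rfl (fun _ => rfl) k0_pm_123_b

noncomputable def f_pm_133 : ℕ → ℕ → ℕ → ℕ → Bool := onCell 536870912 536870912 1610612736 536870912 649613803 48318383
    (rowB 3 eng mog cd0q1 cd2q3 pd3 0 true true false .dn 1 3 3 (qsf 536870912 536870912 1610612736 536870912 3) ndB0q1 ndB2q3 pcB3 Cut.none Ext.none)

def k0_pm_133 : ∃ t, chk3 f_pm_133 t 1 1 1 = true :=
  ⟨(l 4), by decide +kernel⟩

theorem c_pm_133 : CertB 536870912 536870912 1610612736 536870912 649613803 48318383 3 eng mog cd0q1 cd2q3 pd3 true true false .dn 1 3 3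
    ndB0q1 ndB2q3 pcB3 Cut.none Ext.none :=
  certB0 (fam := true) (s1 := true) (s2 := false) (a := 1) (b := 3) (c := 3) (cn := .dn) (n1 := ndB0q1) (n2 := ndB2q3) (pc := pcB3) (cut := Cut.none) (xt := Ext.none) (P1 := 536870912) (W1 := 536870912) (P2 := 1610612736) (W2 := 536870912) (P3 := 649613803) (W3 := 48318383) (N0 := 3) (En := eng) (mo := mog) (C1 := cd0q1) (C2 := cd2q3) (C3 := pd3)
    rfl k0_pm_133

noncomputable def cut_pm_202 : Cut := Cut.of [[⟨0, 1, 0, 67108864⟩, ⟨1, 0, 0, 67108864⟩, ⟨2, 1, 0, 67108864⟩]]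

noncomputable def f_pm_202 : ℕ → ℕ → ℕ → ℕ → Bool := onCell 0 536870912 1073741824 536870912 649613803 48318383
    (rowB 3 eng mog cd0q2 cd2q0 pd2 1 true true false .pp 2 0 2 (qsf 0 536870912 0 536870912 2) ndB0q2 ndB2q0 pcB2 cut_pm_202 Ext.none)

def k0_pm_202 : ∃ t, chk3 f_pm_202 t 2 4 1 = true :=
  ⟨(b (l 1) (a (l 1) (b (l 1) (a (l 1) (b (l 1) (a (l 1) (b (l 1) (a (b (l 1) (l 16523384)) (c (b (l 16516536) (l 16476104)) (l 16506232)))))))))), by decide +kernel⟩

def k1_pm_202 : ∃ t, chk3 f_pm_202 t 4 10 1 = true :=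
  ⟨(b (b (l 1) (b (a (l 1) (a (l 1) (l 16549832))) (c (a (a (l 16441416) (l 16464752)) (a (l 16450584) (c (l 16459744) (l 16460688)))) (a (l 16481976) (a (l 16454632) (l 16464720)))))) (a (a (b (c (b (l 16440080) (l 16439544)) (l 16435256)) (c (l 16446536) (l 16446184))) (b (c (b (l 16441496) (a (l 16439624) (l 16482536))) (b (l 16443248) (l 16440216))) (c (l 16446760) (l 16446504)))) (b (c (b (a (l 16447784) (l 16457136)) (a (l 16445608) (b (l 16455232) (l 16454464)))) (a (b (l 16450064) (l 16446176)) (b (l 16460080) (b (l 16456872) (l 16455328))))) (a (b (l 16447632) (l 16473240)) (c (l 16480088) (l 16438856)))))), by decide +kernel⟩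

def k2_pm_202 : ∃ t, chk3 f_pm_202 t 5 10 1 = true :=
  ⟨(a (b (b (b (l 1) (c (a (l 16474400) (a (l 16482544) (l 16489056))) (a (l 34392582583) (a (l 16473072) (l 16479432))))) (c (b (a (l 16516944) (l 16488048)) (a (c (l 16471064) (l 16472384)) (c (l 16483840) (l 16485440)))) (a (b (l 16471976) (l 16476968)) (b (a (l 16479096) (l 16485096)) (l 16487536))))) (b (c (a (b (l 16489504) (b (l 16466552) (a (l 16462576) (l 16468640)))) (b (l 16491792) (b (l 16479200) (b (l 16478240) (l 16478248))))) (a (b (l 16472256) (c (l 16467056) (l 16469680))) (b (l 16485640) (c (l 16501120) (l 16483088))))) (c (a (b (l 16467920) (l 16471160)) (b (l 16480032) (l 16482648))) (a (c (l 16470128) (l 16472496)) (l 16504552))))) (c (b (b (a (b (c (l 266857857463) (l 16494280)) (a (l 16496352) (l 16504400))) (b (a (c (l 16511944) (l 16507992)) (l 16520152)) (l 16476024))) (a (b (l 16501456) (c (l 16497056) (l 16498624))) (b (l 16514408) (c (l 16509928) (l 16511104))))) (b (a (b (l 16502152) (b (l 16492008) (a (l 16487672)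 (l 16493920)))) (b (l 16506672) (b (l 16504160) (a (l 16499928) (l 16505608))))) (a (a (l 16490272) (l 16496168)) (a (l 16501824) (l 16507168))))) (b (b (a (b (a (l 16481152) (l 16489944)) (a (l 16486776) (l 16495088))) (b (a (l 16499768) (l 16510504)) (a (l 16441440) (l 16514472)))) (a (a (b (l 16492040) (l 16496888)) (l 16439216)) (c (l 16516208) (l 16434184)))) (b (a (b (l 16498568) (b (l 16495072) (l 16493240))) (b (l 16510168) (c (l 16520160) (l 16506912)))) (a (l 16495544) (l 16506136)))))), by decide +kernel⟩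

def k3_pm_202 : ∃ t, chk3 f_pm_202 t 2 11 1 = true :=
  ⟨(a (a (b (b (c (l 16456928) (l 16456776)) (l 16464608)) (l 16474416)) (b (a (b (c (l 16459584) (l 16459608)) (l 16508264)) (b (c (l 16466312) (l 16466928)) (l 16471808))) (a (l 16474880) (l 16593976)))) (a (a (b (b (c (l 16475504) (l 16476936)) (l 16543056)) (l 16505504)) (b (b (c (b (l 16484984) (l 16487040)) (l 16488168)) (l 16510776)) (l 16491584))) (b (b (a (c (l 16496824) (l 16498976)) (c (l 16506984) (l 16508496))) (a (l 16499456) (l 16550192))) (a (l 16583296) (a (l 16505376) (l 16509456)))))), by decide +kernel⟩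

def k4_pm_202 : ∃ t, chk3 f_pm_202 t 2 3 1 = true :=
  ⟨(b (a (b (a (b (l 16484312) (l 16501600)) (b (a (l 16482824) (l 16485328)) (l 16499432))) (b (a (l 16584144) (l 16558744)) (a (l 16542856) (l 16535792)))) (b (a (b (a (l 16490312) (l 16496968)) (a (l 16503928) (l 16509160))) (a (b (l 16503928) (l 16513696)) (b (l 16510240) (l 16516208)))) (a (b (b (l 16517464) (l 16524952)) (a (l 16535904) (l 16537352))) (b (a (l 16524184) (l 16522792)) (a (l 16536088) (l 16531192)))))) (a (b (a (b (b (l 16559632) (l 16570880)) (a (l 16593248) (l 16604976))) (b (l 16555768) (l 16596784))) (a (b (l 16611576) (l 16631088)) (b (l 16594880) (a (l 16616208) (l 16609152))))) (b (a (b (l 16616536) (l 16591280)) (a (a (l 16557560) (l 16553744)) (l 16565408))) (a (b (l 16586168) (l 16600696)) (a (l 16579784) (l 16624528)))))), by decide +kernel⟩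

def k5_pm_202 : ∃ t, chk3 f_pm_202 t 3 8 1 = true :=
  ⟨(a (l 1) (a (b (l 1) (a (a (l 1) (b (l 1) (b (l 1) (b (l 16639112) (l 16638552))))) (b (l 6) (b (l 6) (b (l 6) (a (c (l 16656552) (l 16650808)) (l 16668952))))))) (b (l 6) (b (l 6) (b (l 6) (a (a (l 16684536) (l 16689568)) (a (l 16693592) (l 16696768)))))))), by decide +kernel⟩

def k6_pm_202 : ∃ t, chk3 f_pm_202 t 3 9 1 = true :=
  ⟨(b (a (a (l 1) (b (a (l 1) (b (l 1) (a (l 16592056) (l 181495612103)))) (a (b (a (l 1) (l 16588528)) (a (l 16565080) (b (l 16578952) (l 16516576)))) (a (b (l 190622386743) (l 16530240)) (b (c (l 16610544) (l 16603008)) (l 16606768)))))) (b (a (a (a (b (l 169147611847) (c (l 16625168) (l 16618080))) (b (c (l 16598712) (l 16634120)) (l 16615288))) (b (a (l 16610464) (l 16666896)) (l 16615376))) (a (a (l 16670048) (l 16674576)) (a (l 16699536) (l 16681712)))) (a (a (b (c (l 16630616) (l 16561984)) (l 16626600)) (c (l 16642160) (l 16644968))) (a (a (l 16650768) (l 16655200)) (a (l 16659104) (l 16662184)))))) (a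 (a (a (b (a (l 1) (a (l 1) (l 110628507511))) (b (c (a (b (l 16525432) (l 16526752)) (l 116533958295)) (a (l 16514576) (l 16527592))) (a (c (l 16528600) (l 16518416)) (c (l 16540168) (l 16468096))))) (b (c (b (l 148209499495) (a (l 16526496) (l 16559704))) (a (l 159483753847) (l 212633994231))) (b (a (b (l 16481704) (l 16545856)) (l 16557304)) (l 16469456)))) (a (b (b (a (b (l 16566392) (l 16504264)) (l 16496296)) (b (l 16490576) (l 16553928))) (b (l 16575416) (l 16570048))) (b (b (l 16516048) (l 16597760)) (l 16585704)))) (a (a (b (l 16655904) (c (l 16596968) (l 16598408))) (b (c (l 16603880) (l 16626064)) (c (l 16608720) (l 16608200)))) (a (b (a (l 16632408) (l 16636720)) (l 16617328)) (b (a (l 16640512) (l 16643496)) (a (l 16622952) (l 16625704))))))), by decide +kernel⟩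

def k7_pm_202 : ∃ t, chk3 f_pm_202 t 3 5 1 = true :=
  ⟨(a (b (b (b (a (b (a (c (l 16536104) (a (l 16522000) (l 16534000))) (l 16550936)) (a (a (l 16529560) (l 16536032)) (l 16544336))) (a (c (l 16558312) (l 16561504)) (l 16570760))) (a (c (a (b (l 16526216) (l 16500872)) (b (l 16537288) (b (l 16533512) (b (l 16531728) (l 16530624))))) (a (l 16528304) (b (l 16540360) (b (l 16535504) (b (l 16533176) (l 16531728)))))) (b (a (l 16549440) (l 16560440)) (b (a (l 16544808) (l 16555664)) (a (b (l 16542632) (l 16541296)) (b (l 16553488) (l 16552240))))))) (a (b (a (c (b (l 16517832) (b (l 16515048) (l 16513576))) (b (l 16519896) (l 16514896))) (c (b (l 16527816) (l 16523784)) (b (l 16527992) (l 16522528)))) (a (c (l 16514632) (l 16514824)) (c (l 16523240) (l 16521624)))) (b (a (l 16534776) (l 16545296)) (a (l 16529640) (l 16538752))))) (a (b (a (c (b (l 16515928) (l 16516144)) (l 16516440)) (c (l 16523056) (l 16521512))) (a (l 16598632) (l 16519544))) (b (a (b (l 16527856) (l 16525832)) (l 16533360))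 (a (l 16523136) (l 16526256))))) (b (b (a (b (a (c (l 16582640) (l 16582032)) (l 16592320)) (b (a (l 16571240) (l 16581368)) (b (l 16613680) (b (l 16590544) (a (l 16563032) (l 16573160)))))) (b (a (l 16601192) (a (l 16606184) (l 16607632))) (b (a (l 16589776) (l 16594080)) (b (a (l 16584408) (l 16588032)) (a (b (l 16582048) (l 16580888)) (b (l 16585488) (a (l 16583816) (l 16584448)))))))) (a (a (b (l 16555696) (l 16547608)) (b (l 16565168) (l 16555112))) (a (b (l 16571856) (l 16559928)) (b (l 16595920) (l 16561752))))) (a (b (a (l 16539344) (l 16543968)) (l 16593120)) (a (b (l 16546232) (l 16529592)) (b (l 16545592) (l 16525944)))))), by decide +kernel⟩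

def k8_pm_202 : ∃ t, chk3 f_pm_202 t 3 3 1 = true :=
  ⟨(b (a (b (a (a (l 16620120) (l 16559448)) (a (l 16517848) (b (l 16520008) (l 16514288)))) (a (b (a (l 16517064) (l 16515704)) (l 16536856)) (b (b (l 16512584) (l 16510824)) (l 16507368)))) (b (a (b (l 16519552) (l 16510280)) (a (l 16550088) (b (l 16508512) (l 16493568)))) (a (b (a (l 16505136) (l 16499136)) (l 16515504)) (b (a (l 16491208) (l 16480928)) (l 16475232))))) (a (b (a (b (l 16515448) (l 16515816)) (l 16564656)) (a (a (l 16531104) (l 16512992)) (l 16493048))) (b (a (b (l 16485472) (l 16475896)) (b (l 16464288) (l 16454080))) (a (b (l 16466248) (l 16457816)) (b (l 16443128) (l 16432272)))))), by decide +kernel⟩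

theorem s9_pm_202 : ∃ t, chk3 f_pm_202 t 3 4 1 = true := ex3_b k5_pm_202 k6_pm_202

theorem s10_pm_202 : ∃ t, chk3 f_pm_202 t 3 2 1 = true := ex3_b s9_pm_202 k7_pm_202

theorem s11_pm_202 : ∃ t, chk3 f_pm_202 t 3 1 1 = true := ex3_b s10_pm_202 k8_pm_202

theorem s12_pm_202 : ∃ t, chk3 f_pm_202 t 2 10 1 = true := ex3_a k1_pm_202 k2_pm_202

theorem s13_pm_202 : ∃ t, chk3 f_pm_202 t 2 5 1 = true := ex3_b s12_pm_202 k3_pm_202

theorem s14_pm_202 : ∃ t, chk3 f_pm_202 t 2 2 1 = true := ex3_b k0_pm_202 s13_pm_202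

theorem s15_pm_202 : ∃ t, chk3 f_pm_202 t 2 1 1 = true := ex3_b s14_pm_202 k4_pm_202

theorem s16_pm_202 : ∃ t, chk3 f_pm_202 t 1 1 1 = true := ex3_a s15_pm_202 s11_pm_202

theorem c_pm_202 : CertB 0 536870912 0 536870912 649613803 48318383 3 eng mog cd0q2 cd2q0 pd2 true true false .pp 2 0 2
    ndB0q2 ndB2q0 pcB2 cut_pm_202 Ext.none :=
  certB1 (fam := true) (s1 := true) (s2 := false) (a := 2) (b := 0) (c := 2) (cn := .pp) (n1 := ndB0q2) (n2 := ndB2q0) (pc := pcB2) (cut := cut_pm_202) (xt := Ext.none) (P1 := 0) (W1 := 536870912) (P2 := 0) (W2 := 536870912) (P3 := 649613803) (W3 := 48318383) (N0 := 3) (En := eng) (mo := mog) (C1 := cd0q2) (C2 := cd2q0) (C3 := pd2)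
    rfl (fun _ => rfl) s16_pm_202

noncomputable def f_pm_203 : ℕ → ℕ → ℕ → ℕ → Bool := onCell 0 536870912 1610612736 536870912 649613803 48318383
    (rowB 3 eng mog cd0q2 cd2q0 pd3 1 true true false .up 2 0 3 (qsf 0 536870912 0 536870912 3) ndB0q2 ndB2q0 pcB3 Cut.none Ext.none)

def k0_pm_203 : ∃ t, chk3 f_pm_203 t 1 1 1 = true :=
  ⟨(b (a (b (a (b (b (a (l 16647224) (l 16619968)) (a (l 16692712) (l 16667632))) (b (l 16717416) (l 16745952))) (b (a (l 16653504) (l 16618376)) (a (b (l 16691640) (l 16722712)) (l 16692640)))) (b (a (b (l 16767048) (l 16779544)) (a (l 16762336) (l 16754240))) (l 2))) (a (b (b (a (l 16596120) (l 16568992)) (a (l 16668872) (l 16645896))) (l 2)) (b (b (a (l 16545320) (l 16528512)) (a (l 16632496) (l 2))) (l 2)))) (l 2)), by decide +kernel⟩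

theorem c_pm_203 : CertB 0 536870912 0 536870912 649613803 48318383 3 eng mog cd0q2 cd2q0 pd3 true true false .up 2 0 3
    ndB0q2 ndB2q0 pcB3 Cut.none Ext.none :=
  certB1 (fam := true) (s1 := true) (s2 := false) (a := 2) (b := 0) (c := 3) (cn := .up) (n1 := ndB0q2) (n2 := ndB2q0) (pc := pcB3) (cut := Cut.none) (xt := Ext.none) (P1 := 0) (W1 := 536870912) (P2 := 0) (W2 := 536870912) (P3 := 649613803) (W3 := 48318383) (N0 := 3) (En := eng) (mo := mog) (C1 := cd0q2) (C2 := cd2q0) (C3 := pd3)
    rfl (fun _ => rfl) k0_pm_203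

noncomputable def f_pm_213 : ℕ → ℕ → ℕ → ℕ → Bool := onCell 0 536870912 1610612736 536870912 649613803 48318383
    (rowB 3 eng mog cd0q2 cd2q1 pd3 1 true true false .pnn 2 1 3 (qsf 0 536870912 536870912 536870912 3) ndB0q2 ndB2q1 pcB3 Cut.none Ext.none)

def k0_pm_213 : ∃ t, chk3 f_pm_213 t 1 1 1 = true :=
  ⟨(a (a (b (b (l 1) (b (a (b (l 16734336) (l 16728624)) (l 16869920)) (a (l 4) (l 68954655991)))) (l 4)) (b (b (b (l 1) (a (l 1) (l 16750952))) (b (a (l 16790512) (l 16798704)) (a (l 16763728) (l 16810640)))) (b (b (a (l 115125341639) (b (l 16772232) (l 16749144))) (b (l 135526375895) (l 4))) (l 4)))) (a (b (b (b (l 1) (a (l 16731968) (l 16712744))) (b (a (l 16802464) (b (l 16782752) (l 16842776))) (a (l 16892072) (l 16912544)))) (a (b (b (b (l 16848192) (l 16814000)) (b (l 16782832) (l 16747600))) (l 4)) (b (b (b (l 16913664) (l 16903072)) (b (l 16860560) (l 16822624))) (b (b (l 16782208) (l 16745912)) (l 4))))) (b (b (b (a (l 16615816) (l 16598040)) (a (b (l 16683128) (l 16737864)) (b (l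 16694624) (l 16774248)))) (b (b (a (c (l 16835784) (l 16779848)) (b (l 16849912) (b (l 16890032) (l 16893360)))) (a (b (l 16864168) (l 16886760)) (b (b (l 16882376) (l 16874592)) (l 16884384)))) (a (l 16911976) (b (l 16909136) (l 16930664))))) (b (b (a (b (l 16920296) (l 16917728)) (b (l 16939936) (l 16938960))) (a (b (l 16901768) (l 16882488)) (b (l 16929872) (a (l 16906072) (l 16918736))))) (b (b (a (a (l 16829328) (l 16850632)) (a (l 16867064) (l 16876080))) (a (l 16799200) (a (l 16848920) (l 16845424)))) (b (b (a (l 16766992) (l 16804168)) (a (l 4) (l 16787240))) (b (a (l 4) (l 16759872)) (l 4)))))))), by decide +kernel⟩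

theorem c_pm_213 : CertB 0 536870912 536870912 536870912 649613803 48318383 3 eng mog cd0q2 cd2q1 pd3 true true false .pnn 2 1 3
    ndB0q2 ndB2q1 pcB3 Cut.none Ext.none :=
  certB1 (fam := true) (s1 := true) (s2 := false) (a := 2) (b := 1) (c := 3) (cn := .pnn) (n1 := ndB0q2) (n2 := ndB2q1) (pc := pcB3) (cut := Cut.none) (xt := Ext.none) (P1 := 0) (W1 := 536870912) (P2 := 536870912) (W2 := 536870912) (P3 := 649613803) (W3 := 48318383) (N0 := 3) (En := eng) (mo := mog) (C1 := cd0q2) (C2 := cd2q1) (C3 := pd3)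
    rfl (fun _ => rfl) k0_pm_213

noncomputable def f_mm_001 : ℕ → ℕ → ℕ → ℕ → Bool := onCell 0 536870912 0 536870912 649613803 48318383
    (rowB 3 eng mog cd0q0 cd2q0 pd1 0 true false false .up 0 0 1 (qsf 0 536870912 0 536870912 1) ndB0q0 ndB2q0 pcB1 Cut.none Ext.none)

def k0_mm_001 : ∃ t, chk3 f_mm_001 t 1 1 1 = true :=
  ⟨(l 4), by decide +kernel⟩

theorem c_mm_001 : CertB 0 536870912 0 536870912 649613803 48318383 3 eng mog cd0q0 cd2q0 pd1 true false false .up 0 0 1
    ndB0q0 ndB2q0 pcB1 Cut.none Ext.none :=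
  certB0 (fam := true) (s1 := false) (s2 := false) (a := 0) (b := 0) (c := 1) (cn := .up) (n1 := ndB0q0) (n2 := ndB2q0) (pc := pcB1) (cut := Cut.none) (xt := Ext.none) (P1 := 0) (W1 := 536870912) (P2 := 0) (W2 := 536870912) (P3 := 649613803) (W3 := 48318383) (N0 := 3) (En := eng) (mo := mog) (C1 := cd0q0) (C2 := cd2q0) (C3 := pd1)
    rfl k0_mm_001

noncomputable def f_mm_011 : ℕ → ℕ → ℕ → ℕ → Bool := onCell 0 536870912 536870912 536870912 649613803 48318383
    (rowB 3 eng mog cd0q0 cd2q1 pd1 0 true false false .pnn 0 1 1 (qsf 0 536870912 536870912 536870912 1) ndB0q0 ndB2q1 pcB1 Cut.none Ext.none)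

def k0_mm_011 : ∃ t, chk3 f_mm_011 t 1 1 1 = true :=
  ⟨(l 4), by decide +kernel⟩

theorem c_mm_011 : CertB 0 536870912 536870912 536870912 649613803 48318383 3 eng mog cd0q0 cd2q1 pd1 true false false .pnn 0 1 1
    ndB0q0 ndB2q1 pcB1 Cut.none Ext.none :=
  certB0 (fam := true) (s1 := false) (s2 := false) (a := 0) (b := 1) (c := 1) (cn := .pnn) (n1 := ndB0q0) (n2 := ndB2q1) (pc := pcB1) (cut := Cut.none) (xt := Ext.none) (P1 := 0) (W1 := 536870912) (P2 := 536870912) (W2 := 536870912) (P3 := 649613803) (W3 := 48318383) (N0 := 3) (En := eng) (mo := mog) (C1 := cd0q0) (C2 := cd2q1) (C3 := pd1)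
    rfl k0_mm_011

noncomputable def f_mm_012 : ℕ → ℕ → ℕ → ℕ → Bool := onCell 0 536870912 536870912 536870912 649613803 48318383
    (rowB 3 eng mog cd0q0 cd2q1 pd2 0 true false false .pnp 0 1 2 (qsf 0 536870912 536870912 536870912 2) ndB0q0 ndB2q1 pcB2 Cut.none Ext.none)

def k0_mm_012 : ∃ t, chk3 f_mm_012 t 1 1 1 = true :=
  ⟨(l 4), by decide +kernel⟩

theorem c_mm_012 : CertB 0 536870912 536870912 536870912 649613803 48318383 3 eng mog cd0q0 cd2q1 pd2 true false false .pnp 0 1 2
    ndB0q0 ndB2q1 pcB2 Cut.none Ext.none :=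
  certB0 (fam := true) (s1 := false) (s2 := false) (a := 0) (b := 1) (c := 2) (cn := .pnp) (n1 := ndB0q0) (n2 := ndB2q1) (pc := pcB2) (cut := Cut.none) (xt := Ext.none) (P1 := 0) (W1 := 536870912) (P2 := 536870912) (W2 := 536870912) (P3 := 649613803) (W3 := 48318383) (N0 := 3) (En := eng) (mo := mog) (C1 := cd0q0) (C2 := cd2q1) (C3 := pd2)
    rfl k0_mm_012

noncomputable def f_mm_022_a : ℕ → ℕ → ℕ → ℕ → Bool := onCell 0 536870912 0 536870912 649613803 48318383
    (rowB 3 eng mog cd0q0 cd2q2a pd2 0 true false false .pp 0 2 2 (qsf 0 536870912 0 536870912 2) ndB0q0 ndB2q2a pcB2 Cut.none Ext.none)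

def k0_mm_022_a : ∃ t, chk3 f_mm_022_a t 1 1 1 = true :=
  ⟨(l 5), by decide +kernel⟩

theorem c_mm_022_a : CertB 0 536870912 0 536870912 649613803 48318383 3 eng mog cd0q0 cd2q2a pd2 true false false .pp 0 2 2
    ndB0q0 ndB2q2a pcB2 Cut.none Ext.none :=
  certB0 (fam := true) (s1 := false) (s2 := false) (a := 0) (b := 2) (c := 2) (cn := .pp) (n1 := ndB0q0) (n2 := ndB2q2a) (pc := pcB2) (cut := Cut.none) (xt := Ext.none) (P1 := 0) (W1 := 536870912) (P2 := 0) (W2 := 536870912) (P3 := 649613803) (W3 := 48318383) (N0 := 3) (En := eng) (mo := mog) (C1 := cd0q0) (C2 := cd2q2a) (C3 := pd2)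
    rfl k0_mm_022_a

noncomputable def f_mm_022_b : ℕ → ℕ → ℕ → ℕ → Bool := onCell 0 536870912 1239849684 370763052 649613803 48318383
    (rowB 3 eng mog cd0q0 cd2q2b pd2 0 true false false .pp 0 2 2 (qsf 0 536870912 1239849684 370763052 2) ndB0q0 ndB2q2b pcB2 Cut.none Ext.none)

def k0_mm_022_b : ∃ t, chk3 f_mm_022_b t 1 1 1 = true :=
  ⟨(l 5), by decide +kernel⟩

theorem c_mm_022_b : CertB 0 536870912 1239849684 370763052 649613803 48318383 3 eng mog cd0q0 cd2q2b pd2 true false false .pp 0 2 2
    ndB0q0 ndB2q2b pcB2 Cut.none Ext.none :=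
  certB0 (fam := true) (s1 := false) (s2 := false) (a := 0) (b := 2) (c := 2) (cn := .pp) (n1 := ndB0q0) (n2 := ndB2q2b) (pc := pcB2) (cut := Cut.none) (xt := Ext.none) (P1 := 0) (W1 := 536870912) (P2 := 1239849684) (W2 := 370763052) (P3 := 649613803) (W3 := 48318383) (N0 := 3) (En := eng) (mo := mog) (C1 := cd0q0) (C2 := cd2q2b) (C3 := pd2)
    rfl k0_mm_022_b

noncomputable def f_mm_023_a : ℕ → ℕ → ℕ → ℕ → Bool := onCell 0 536870912 0 536870912 649613803 48318383
    (rowB 3 eng mog cd0q0 cd2q2a pd3 0 true false false .up 0 2 3 (qsf 0 536870912 0 536870912 3) ndB0q0 ndB2q2a pcB3 Cut.none Ext.none)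

def k0_mm_023_a : ∃ t, chk3 f_mm_023_a t 1 1 1 = true :=
  ⟨(l 5), by decide +kernel⟩

theorem c_mm_023_a : CertB 0 536870912 0 536870912 649613803 48318383 3 eng mog cd0q0 cd2q2a pd3 true false false .up 0 2 3
    ndB0q0 ndB2q2a pcB3 Cut.none Ext.none :=
  certB0 (fam := true) (s1 := false) (s2 := false) (a := 0) (b := 2) (c := 3) (cn := .up) (n1 := ndB0q0) (n2 := ndB2q2a) (pc := pcB3) (cut := Cut.none) (xt := Ext.none) (P1 := 0) (W1 := 536870912) (P2 := 0) (W2 := 536870912) (P3 := 649613803) (W3 := 48318383) (N0 := 3) (En := eng) (mo := mog) (C1 := cd0q0) (C2 := cd2q2a) (C3 := pd3)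
    rfl k0_mm_023_a

noncomputable def f_mm_023_b : ℕ → ℕ → ℕ → ℕ → Bool := onCell 0 536870912 1239849684 370763052 649613803 48318383
    (rowB 3 eng mog cd0q0 cd2q2b pd3 0 true false false .up 0 2 3 (qsf 0 536870912 1239849684 370763052 3) ndB0q0 ndB2q2b pcB3 Cut.none Ext.none)

def k0_mm_023_b : ∃ t, chk3 f_mm_023_b t 1 1 1 = true :=
  ⟨(l 5), by decide +kernel⟩

theorem c_mm_023_b : CertB 0 536870912 1239849684 370763052 649613803 48318383 3 eng mog cd0q0 cd2q2b pd3 true false false .up 0 2 3
    ndB0q0 ndB2q2b pcB3 Cut.none Ext.none :=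
  certB0 (fam := true) (s1 := false) (s2 := false) (a := 0) (b := 2) (c := 3) (cn := .up) (n1 := ndB0q0) (n2 := ndB2q2b) (pc := pcB3) (cut := Cut.none) (xt := Ext.none) (P1 := 0) (W1 := 536870912) (P2 := 1239849684) (W2 := 370763052) (P3 := 649613803) (W3 := 48318383) (N0 := 3) (En := eng) (mo := mog) (C1 := cd0q0) (C2 := cd2q2b) (C3 := pd3)
    rfl k0_mm_023_b

noncomputable def f_mm_033 : ℕ → ℕ → ℕ → ℕ → Bool := onCell 0 536870912 1610612736 536870912 649613803 48318383
    (rowB 3 eng mog cd0q0 cd2q3 pd3 0 true false false .pnn 0 3 3 (qsf 0 536870912 1610612736 536870912 3) ndB0q0 ndB2q3 pcB3 Cut.none Ext.none)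

def k0_mm_033 : ∃ t, chk3 f_mm_033 t 1 1 1 = true :=
  ⟨(l 5), by decide +kernel⟩

theorem c_mm_033 : CertB 0 536870912 1610612736 536870912 649613803 48318383 3 eng mog cd0q0 cd2q3 pd3 true false false .pnn 0 3 3
    ndB0q0 ndB2q3 pcB3 Cut.none Ext.none :=
  certB0 (fam := true) (s1 := false) (s2 := false) (a := 0) (b := 3) (c := 3) (cn := .pnn) (n1 := ndB0q0) (n2 := ndB2q3) (pc := pcB3) (cut := Cut.none) (xt := Ext.none) (P1 := 0) (W1 := 536870912) (P2 := 1610612736) (W2 := 536870912) (P3 := 649613803) (W3 := 48318383) (N0 := 3) (En := eng) (mo := mog) (C1 := cd0q0) (C2 := cd2q3) (C3 := pd3)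
    rfl k0_mm_033

noncomputable def cut_mm_101 : Cut := Cut.of [[⟨0, 1, 0, 67108864⟩, ⟨1, 0, 0, 67108864⟩, ⟨2, 1, 0, 67108864⟩]]

noncomputable def f_mm_101 : ℕ → ℕ → ℕ → ℕ → Bool := onCell 536870912 536870912 0 536870912 649613803 48318383
    (rowB 3 eng mog cd0q1 cd2q0 pd1 0 true false false .npn 1 0 1 (qsf 536870912 536870912 0 536870912 1) ndB0q1 ndB2q0 pcB1 cut_mm_101 Ext.none)

def k0_mm_101 : ∃ t, chk3 f_mm_101 t 1 1 1 = true :=
  ⟨(a (l 4) (b (a (l 4) (b (a (l 4) (b (a (l 4) (b (l 6) (l 4))) (l 4))) (l 4))) (l 4))), by decide +kernel⟩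

theorem c_mm_101 : CertB 536870912 536870912 0 536870912 649613803 48318383 3 eng mog cd0q1 cd2q0 pd1 true false false .npn 1 0 1
    ndB0q1 ndB2q0 pcB1 cut_mm_101 Ext.none :=
  certB0 (fam := true) (s1 := false) (s2 := false) (a := 1) (b := 0) (c := 1) (cn := .npn) (n1 := ndB0q1) (n2 := ndB2q0) (pc := pcB1) (cut := cut_mm_101) (xt := Ext.none) (P1 := 536870912) (W1 := 536870912) (P2 := 0) (W2 := 536870912) (P3 := 649613803) (W3 := 48318383) (N0 := 3) (En := eng) (mo := mog) (C1 := cd0q1) (C2 := cd2q0) (C3 := pd1)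
    rfl k0_mm_101

noncomputable def cut_mm_102 : Cut := Cut.of [[⟨0, 1, 0, 67108864⟩, ⟨1, 0, 0, 67108864⟩, ⟨2, 1, 0, 67108864⟩]]

noncomputable def f_mm_102 : ℕ → ℕ → ℕ → ℕ → Bool := onCell 536870912 536870912 0 536870912 649613803 48318383
    (rowB 3 eng mog cd0q1 cd2q0 pd2 0 true false false .npp 1 0 2 (qsf 536870912 536870912 0 536870912 2) ndB0q1 ndB2q0 pcB2 cut_mm_102 Ext.none)

def k0_mm_102 : ∃ t, chk3 f_mm_102 t 1 1 1 = true :=
  ⟨(a (l 4) (b (a (l 4) (b (a (l 4) (b (a (l 4) (b (l 6) (l 4))) (l 4))) (l 4))) (l 4))), by decide +kernel⟩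

theorem c_mm_102 : CertB 536870912 536870912 0 536870912 649613803 48318383 3 eng mog cd0q1 cd2q0 pd2 true false false .npp 1 0 2
    ndB0q1 ndB2q0 pcB2 cut_mm_102 Ext.none :=
  certB0 (fam := true) (s1 := false) (s2 := false) (a := 1) (b := 0) (c := 2) (cn := .npp) (n1 := ndB0q1) (n2 := ndB2q0) (pc := pcB2) (cut := cut_mm_102) (xt := Ext.none) (P1 := 536870912) (W1 := 536870912) (P2 := 0) (W2 := 536870912) (P3 := 649613803) (W3 := 48318383) (N0 := 3) (En := eng) (mo := mog) (C1 := cd0q1) (C2 := cd2q0) (C3 := pd2)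
    rfl k0_mm_102

noncomputable def f_mm_112 : ℕ → ℕ → ℕ → ℕ → Bool := onCell 536870912 536870912 536870912 536870912 649613803 48318383
    (rowB 3 eng mog cd0q1 cd2q1 pd2 0 true false false .dn 1 1 2 (qsf 536870912 536870912 536870912 536870912 2) ndB0q1 ndB2q1 pcB2 Cut.none Ext.none)

def k0_mm_112 : ∃ t, chk3 f_mm_112 t 1 1 1 = true :=
  ⟨(l 4), by decide +kernel⟩

theorem c_mm_112 : CertB 536870912 536870912 536870912 536870912 649613803 48318383 3 eng mog cd0q1 cd2q1 pd2 true false false .dn 1 1 2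
    ndB0q1 ndB2q1 pcB2 Cut.none Ext.none :=
  certB0 (fam := true) (s1 := false) (s2 := false) (a := 1) (b := 1) (c := 2) (cn := .dn) (n1 := ndB0q1) (n2 := ndB2q1) (pc := pcB2) (cut := Cut.none) (xt := Ext.none) (P1 := 536870912) (W1 := 536870912) (P2 := 536870912) (W2 := 536870912) (P3 := 649613803) (W3 := 48318383) (N0 := 3) (En := eng) (mo := mog) (C1 := cd0q1) (C2 := cd2q1) (C3 := pd2)
    rfl k0_mm_112

noncomputable def f_mm_113 : ℕ → ℕ → ℕ → ℕ → Bool := onCell 536870912 536870912 536870912 536870912 649613803 48318383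
    (rowB 3 eng mog cd0q1 cd2q1 pd3 0 true false false .nn 1 1 3 (qsf 536870912 536870912 536870912 536870912 3) ndB0q1 ndB2q1 pcB3 Cut.none Ext.none)

def k0_mm_113 : ∃ t, chk3 f_mm_113 t 1 1 1 = true :=
  ⟨(l 4), by decide +kernel⟩

theorem c_mm_113 : CertB 536870912 536870912 536870912 536870912 649613803 48318383 3 eng mog cd0q1 cd2q1 pd3 true false false .nn 1 1 3
    ndB0q1 ndB2q1 pcB3 Cut.none Ext.none :=
  certB0 (fam := true) (s1 := false) (s2 := false) (a := 1) (b := 1) (c := 3) (cn := .nn) (n1 := ndB0q1) (n2 := ndB2q1) (pc := pcB3) (cut := Cut.none) (xt := Ext.none) (P1 := 536870912) (W1 := 536870912) (P2 := 536870912) (W2 := 536870912) (P3 := 649613803) (W3 := 48318383) (N0 := 3) (En := eng) (mo := mog) (C1 := cd0q1) (C2 := cd2q1) (C3 := pd3)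
    rfl k0_mm_113

noncomputable def f_mm_123_a : ℕ → ℕ → ℕ → ℕ → Bool := onCell 536870912 536870912 0 536870912 649613803 48318383
    (rowB 3 eng mog cd0q1 cd2q2a pd3 0 true false false .npn 1 2 3 (qsf 536870912 536870912 0 536870912 3) ndB0q1 ndB2q2a pcB3 Cut.none Ext.none)

def k0_mm_123_a : ∃ t, chk3 f_mm_123_a t 1 1 1 = true :=
  ⟨(a (l 4) (l 4)), by decide +kernel⟩

theorem c_mm_123_a : CertB 536870912 536870912 0 536870912 649613803 48318383 3 eng mog cd0q1 cd2q2a pd3 true false false .npn 1 2 3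
    ndB0q1 ndB2q2a pcB3 Cut.none Ext.none :=
  certB0 (fam := true) (s1 := false) (s2 := false) (a := 1) (b := 2) (c := 3) (cn := .npn) (n1 := ndB0q1) (n2 := ndB2q2a) (pc := pcB3) (cut := Cut.none) (xt := Ext.none) (P1 := 536870912) (W1 := 536870912) (P2 := 0) (W2 := 536870912) (P3 := 649613803) (W3 := 48318383) (N0 := 3) (En := eng) (mo := mog) (C1 := cd0q1) (C2 := cd2q2a) (C3 := pd3)
    rfl k0_mm_123_a

noncomputable def f_mm_123_b : ℕ → ℕ → ℕ → ℕ → Bool := onCell 536870912 536870912 1239849684 370763052 649613803 48318383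
    (rowB 3 eng mog cd0q1 cd2q2b pd3 0 true false false .npn 1 2 3 (qsf 536870912 536870912 1239849684 370763052 3) ndB0q1 ndB2q2b pcB3 Cut.none Ext.none)

def k0_mm_123_b : ∃ t, chk3 f_mm_123_b t 1 1 1 = true :=
  ⟨(l 5), by decide +kernel⟩

theorem c_mm_123_b : CertB 536870912 536870912 1239849684 370763052 649613803 48318383 3 eng mog cd0q1 cd2q2b pd3 true false false .npn 1 2 3
    ndB0q1 ndB2q2b pcB3 Cut.none Ext.none :=
  certB0 (fam := true) (s1 := false) (s2 := false) (a := 1) (b := 2) (c := 3) (cn := .npn) (n1 := ndB0q1) (n2 := ndB2q2b) (pc := pcB3) (cut := Cut.none) (xt := Ext.none) (P1 := 536870912) (W1 := 536870912) (P2 := 1239849684) (W2 := 370763052) (P3 := 649613803) (W3 := 48318383) (N0 := 3) (En := eng) (mo := mog) (C1 := cd0q1) (C2 := cd2q2b) (C3 := pd3)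
    rfl k0_mm_123_b

noncomputable def f_mm_133 : ℕ → ℕ → ℕ → ℕ → Bool := onCell 536870912 536870912 1610612736 536870912 649613803 48318383
    (rowB 3 eng mog cd0q1 cd2q3 pd3 0 true false false .dn 1 3 3 (qsf 536870912 536870912 1610612736 536870912 3) ndB0q1 ndB2q3 pcB3 Cut.none Ext.none)

def k0_mm_133 : ∃ t, chk3 f_mm_133 t 1 1 1 = true :=
  ⟨(l 4), by decide +kernel⟩

theorem c_mm_133 : CertB 536870912 536870912 1610612736 536870912 649613803 48318383 3 eng mog cd0q1 cd2q3 pd3 true false false .dn 1 3 3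
    ndB0q1 ndB2q3 pcB3 Cut.none Ext.none :=
  certB0 (fam := true) (s1 := false) (s2 := false) (a := 1) (b := 3) (c := 3) (cn := .dn) (n1 := ndB0q1) (n2 := ndB2q3) (pc := pcB3) (cut := Cut.none) (xt := Ext.none) (P1 := 536870912) (W1 := 536870912) (P2 := 1610612736) (W2 := 536870912) (P3 := 649613803) (W3 := 48318383) (N0 := 3) (En := eng) (mo := mog) (C1 := cd0q1) (C2 := cd2q3) (C3 := pd3)
    rfl k0_mm_133

noncomputable def cut_mm_202 : Cut := Cut.of [[⟨0, 1, 0, 67108864⟩, ⟨1, 0, 0, 67108864⟩, ⟨2, 1, 0, 67108864⟩]]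

noncomputable def f_mm_202 : ℕ → ℕ → ℕ → ℕ → Bool := onCell 0 536870912 0 536870912 649613803 48318383
    (rowB 3 eng mog cd0q2 cd2q0 pd2 0 true false false .pp 2 0 2 (qsf 0 536870912 0 536870912 2) ndB0q2 ndB2q0 pcB2 cut_mm_202 Ext.none)

def k0_mm_202 : ∃ t, chk3 f_mm_202 t 2 2 1 = true :=
  ⟨(b (a (b (b (a (b (a (c (l 16441176) (l 16441984)) (c (l 16444984) (l 16445648))) (b (a (l 16443344) (l 16447064)) (l 16451208))) (b (a (c (l 16451056) (l 16451608)) (c (l 16459152) (l 16459512))) (a (b (l 16452752) (l 16458264)) (b (l 16481552) (l 16465016))))) (a (b (l 16469840) (l 16468880)) (b (a (l 16466944) (l 16474136)) (l 16481448)))) (a (a (l 16599000) (l 16605504)) (b (l 16579296) (a (l 16505616) (l 16516560))))) (b (a (b (b (a (c (l 16469216) (l 16479640)) (a (l 16477552) (b (l 16483856) (l 16485320)))) (a (b (l 16470800) (l 16494840)) (a (b (l 16480024) (l 16482336)) (l 16488464)))) (a (b (l 16482712) (l 16494520)) (b (a (l 16490352) (l 16496656)) (l 16505888)))) (b (a (b (b (a (l 16491784)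 (l 16500528)) (a (l 16493368) (l 16502336))) (a (l 16496720) (l 16505960))) (b (a (b (l 16510376) (l 16512376)) (b (c (l 16521096) (l 16521968)) (l 16523472))) (a (b (l 16514848) (l 16517776)) (b (l 16526128) (l 16529232))))) (a (b (a (l 16525128) (a (l 16510472) (l 16515216))) (l 16520632)) (b (a (b (l 16521128) (l 16525096)) (l 16534680)) (b (a (l 16530888) (l 16541672)) (l 16542856)))))) (a (b (a (l 16510480) (l 16523040)) (l 16536552)) (b (a (b (l 16533056) (l 16544792)) (b (l 16552672) (l 16565224))) (a (l 16561504) (l 16583256)))))) (a (b (a (b (l 16533064) (a (l 16549712) (a (l 16597336) (l 16623208)))) (b (a (l 16525440) (l 16537320)) (a (l 16548480) (l 16562448)))) (a (b (a (l 16572616) (l 16561368)) (a (l 16577080) (l 16587296))) (b (l 16599584) (l 16604184)))) (b (a (b (l 16559640) (l 16638960)) (b (a (l 16586744) (l 16609824)) (a (l 16615272) (l 16639368)))) (a (b (l 16676408) (l 16639856)) (b (a (l 16644384) (l 16680088)) (a (l 16673312) (l 31910191431))))))), by decide +kernel⟩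

def k1_mm_202 : ∃ t, chk3 f_mm_202 t 6 4 1 = true :=
  ⟨(b (a (b (a (b (a (b (c (l 16532776) (l 16534112)) (c (l 16535608) (l 16536016))) (b (c (l 16545392) (l 16547264)) (l 16548672))) (a (b (l 16538424) (l 16541704)) (b (l 16556920) (l 16555136)))) (b (a (b (a (l 16555608) (l 16525960)) (l 16562664)) (b (b (a (l 16530936) (l 16567072)) (l 16535080)) (c (l 16576560) (l 16574184)))) (a (b (l 16565848) (l 16569472)) (b (l 16580848) (l 16584640))))) (a (b (a (l 16568384) (b (l 16559016) (l 16563288))) (a (b (l 16554064) (l 16559976)) (b (l 16567920) (l 16573216)))) (b (a (b (l 16573520) (l 16577960)) (l 16591104)) (a (b (l 16582768) (l 16587912)) (l 16601040))))) (b (b (a (b (a (a (c (l 16575904) (l 16572416)) (c (l 16581224) (l 16577520))) (c (l 16589672) (b (l 16583208) (l 16588192)))) (a (c (l 16587272) (l 16584304)) (c (l 16598800) (l 16595448)))) (b (a (c (l 16601736) (b (l 16594960) (l 16600136))) (b (c (l 16612360) (l 16607984)) (l 16615448))) (a (c (l 16611272) (l 16607680)) (c (l 16624808)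 (l 16621136))))) (a (a (b (l 16594520) (l 16600328)) (b (l 16606248) (l 16614840))) (a (b (l 16618960) (l 16627920)) (b (l 16590840) (l 16642096))))) (a (b (a (l 16607032) (l 16623312)) (a (l 16617296) (l 16633880))) (b (a (l 16639928) (l 16655328)) (a (l 16650792) (l 16667912)))))) (a (b (a (b (l 16618568) (l 16589944)) (b (a (b (l 16593904) (l 16600768)) (b (l 16609424) (l 16615928))) (a (l 16611096) (l 16626456)))) (a (b (l 16602824) (l 16636464)) (b (l 16569504) (l 16645856)))) (b (b (a (a (l 16628936) (l 16645752)) (l 16671760)) (a (a (l 16579552) (l 16659096)) (a (l 16676328) (l 16693976)))) (a (b (l 16665032) (l 16679128)) (b (b (l 16695984) (l 16703392)) (l 16714792)))))), by decide +kernel⟩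

def k2_mm_202 : ∃ t, chk3 f_mm_202 t 7 4 1 = true :=
  ⟨(b (a (b (b (a (b (a (b (c (l 16626680) (l 16622400)) (l 16629952)) (b (a (l 16636208) (l 16644424)) (a (l 16641688) (l 16649968)))) (a (b (l 16635208) (l 16640344)) (b (l 16651216) (l 16656496)))) (a (b (b (l 6) (c (l 16664744) (l 16682312))) (b (l 16684312) (l 16694960))) (b (l 6) (a (b (l 6) (l 16687960)) (l 6))))) (a (a (b (a (l 16643928) (l 16651776)) (l 16657464)) (b (a (l 16659952) (l 16668456)) (l 16674096))) (a (b (a (l 16677296) (l 16686464)) (l 16692016)) (b (a (l 16664520) (a (l 16703336) (l 16708368))) (l 16711272))))) (b (a (a (l 16671136) (l 16709128)) (a (b (l 16701720) (l 16710776)) (b (l 16721192) (l 16728160)))) (a (a (l 16685144) (l 16702472)) (a (l 16719896) (b (l 16734496) (l 16741912)))))) (b (a (b (l 6) (a (b (l 6) (a (l 16726592) (l 16737304))) (l 6))) (l 6)) (a (a (b (b (l 16755632) (a (l 16741432) (l 16751328))) (b (l 16775392) (l 4))) (a (b (b (l 16753936) (l 4)) (l 4)) (l 4))) (l 4)))) (a (b (a (b (a (l 16697928)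 (l 16715592)) (b (l 16717560) (l 16725216))) (b (a (l 16755200) (l 4)) (l 4))) (a (b (b (l 16796064) (l 4)) (l 4)) (l 4))) (l 4))), by decide +kernel⟩

def k3_mm_202 : ∃ t, chk3 f_mm_202 t 3 5 1 = true :=
  ⟨(a (b (b (a (a (l 16636968) (l 16667936)) (a (b (l 16694056) (l 16709848)) (b (l 16730432) (l 4)))) (a (a (l 16751296) (b (l 16691288) (l 16728232))) (l 4))) (a (b (a (b (l 16690720) (l 16706160)) (l 4)) (l 4)) (l 4))) (l 4)), by decide +kernel⟩

def k4_mm_202 : ∃ t, chk3 f_mm_202 t 1 3 1 = true :=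
  ⟨(a (b (a (b (a (b (l 16607792) (l 16631896)) (b (l 16630400) (l 16654408))) (b (a (l 16652504) (l 16685456)) (a (l 16676120) (l 16719080)))) (b (a (b (l 16710064) (a (l 16686400) (l 16706608))) (b (a (l 16701848) (l 4)) (l 4))) (a (b (l 8288049895) (l 4)) (l 4)))) (a (l 2) (l 4))) (l 4)), by decide +kernel⟩

theorem s5_mm_202 : ∃ t, chk3 f_mm_202 t 3 4 1 = true := ex3_a k1_mm_202 k2_mm_202

theorem s6_mm_202 : ∃ t, chk3 f_mm_202 t 3 2 1 = true := ex3_b s5_mm_202 k3_mm_202

theorem s7_mm_202 : ∃ t, chk3 f_mm_202 t 1 2 1 = true := ex3_a k0_mm_202 s6_mm_202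

theorem s8_mm_202 : ∃ t, chk3 f_mm_202 t 1 1 1 = true := ex3_b s7_mm_202 k4_mm_202

theorem c_mm_202 : CertB 0 536870912 0 536870912 649613803 48318383 3 eng mog cd0q2 cd2q0 pd2 true false false .pp 2 0 2
    ndB0q2 ndB2q0 pcB2 cut_mm_202 Ext.none :=
  certB0 (fam := true) (s1 := false) (s2 := false) (a := 2) (b := 0) (c := 2) (cn := .pp) (n1 := ndB0q2) (n2 := ndB2q0) (pc := pcB2) (cut := cut_mm_202) (xt := Ext.none) (P1 := 0) (W1 := 536870912) (P2 := 0) (W2 := 536870912) (P3 := 649613803) (W3 := 48318383) (N0 := 3) (En := eng) (mo := mog) (C1 := cd0q2) (C2 := cd2q0) (C3 := pd2)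
    rfl s8_mm_202

noncomputable def f_mm_203 : ℕ → ℕ → ℕ → ℕ → Bool := onCell 0 536870912 1610612736 536870912 649613803 48318383
    (rowB 3 eng mog cd0q2 cd2q0 pd3 1 true false false .up 2 0 3 (qsf 0 536870912 0 536870912 3) ndB0q2 ndB2q0 pcB3 Cut.none Ext.none)

def k0_mm_203 : ∃ t, chk3 f_mm_203 t 1 1 1 = true :=
  ⟨(b (a (b (a (b (b (a (l 16685504) (l 16726792)) (a (l 16724696) (l 16756088))) (b (l 16807096) (l 30836696055))) (l 4)) (l 4)) (l 4)) (l 2)), by decide +kernel⟩

theorem c_mm_203 : CertB 0 536870912 0 536870912 649613803 48318383 3 eng mog cd0q2 cd2q0 pd3 true false false .up 2 0 3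
    ndB0q2 ndB2q0 pcB3 Cut.none Ext.none :=
  certB1 (fam := true) (s1 := false) (s2 := false) (a := 2) (b := 0) (c := 3) (cn := .up) (n1 := ndB0q2) (n2 := ndB2q0) (pc := pcB3) (cut := Cut.none) (xt := Ext.none) (P1 := 0) (W1 := 536870912) (P2 := 0) (W2 := 536870912) (P3 := 649613803) (W3 := 48318383) (N0 := 3) (En := eng) (mo := mog) (C1 := cd0q2) (C2 := cd2q0) (C3 := pd3)
    rfl (fun _ => rfl) k0_mm_203

noncomputable def f_mm_213 : ℕ → ℕ → ℕ → ℕ → Bool := onCell 0 536870912 536870912 536870912 649613803 48318383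
    (rowB 3 eng mog cd0q2 cd2q1 pd3 0 true false false .pnn 2 1 3 (qsf 0 536870912 536870912 536870912 3) ndB0q2 ndB2q1 pcB3 Cut.none Ext.none)

def k0_mm_213 : ∃ t, chk3 f_mm_213 t 1 1 1 = true :=
  ⟨(a (b (l 4) (l 4)) (l 4)), by decide +kernel⟩

theorem c_mm_213 : CertB 0 536870912 536870912 536870912 649613803 48318383 3 eng mog cd0q2 cd2q1 pd3 true false false .pnn 2 1 3
    ndB0q2 ndB2q1 pcB3 Cut.none Ext.none :=
  certB0 (fam := true) (s1 := false) (s2 := false) (a := 2) (b := 1) (c := 3) (cn := .pnn) (n1 := ndB0q2) (n2 := ndB2q1) (pc := pcB3) (cut := Cut.none) (xt := Ext.none) (P1 := 0) (W1 := 536870912) (P2 := 536870912) (W2 := 536870912) (P3 := 649613803) (W3 := 48318383) (N0 := 3) (En := eng) (mo := mog) (C1 := cd0q2) (C2 := cd2q1) (C3 := pd3)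
    rfl k0_mm_213

end Pool.Agent.Strip051.G.I6050_6500.Tab.C.BA02

namespace Pool.Agent.Strip051.G.I6050_6500.Tab.C.BA03

open Pool.Agent.Strip051.PB Pool.Agent.Strip051.PB.T
open Pool.Agent.Strip051.G.I6050_6500.Tab

noncomputable def f_pp_001 : ℕ → ℕ → ℕ → ℕ → Bool := onCell 0 536870912 0 536870912 649613803 48318383
    (rowB 3 eng mog cd0q0 cd3q0 pd1 0 true true true .up 0 0 1 (qsf 0 536870912 0 536870912 1) ndB0q0 ndB3q0 pcB1 Cut.none Ext.none)

def k0_pp_001 : ∃ t, chk3 f_pp_001 t 1 1 1 = true :=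
  ⟨(l 4), by decide +kernel⟩

theorem c_pp_001 : CertB 0 536870912 0 536870912 649613803 48318383 3 eng mog cd0q0 cd3q0 pd1 true true true .up 0 0 1
    ndB0q0 ndB3q0 pcB1 Cut.none Ext.none :=
  certB0 (fam := true) (s1 := true) (s2 := true) (a := 0) (b := 0) (c := 1) (cn := .up) (n1 := ndB0q0) (n2 := ndB3q0) (pc := pcB1) (cut := Cut.none) (xt := Ext.none) (P1 := 0) (W1 := 536870912) (P2 := 0) (W2 := 536870912) (P3 := 649613803) (W3 := 48318383) (N0 := 3) (En := eng) (mo := mog) (C1 := cd0q0) (C2 := cd3q0) (C3 := pd1)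
    rfl k0_pp_001

noncomputable def f_pp_011 : ℕ → ℕ → ℕ → ℕ → Bool := onCell 0 536870912 536870912 536870912 649613803 48318383
    (rowB 3 eng mog cd0q0 cd3q1 pd1 0 true true true .pnn 0 1 1 (qsf 0 536870912 536870912 536870912 1) ndB0q0 ndB3q1 pcB1 Cut.none Ext.none)

def k0_pp_011 : ∃ t, chk3 f_pp_011 t 1 1 1 = true :=
  ⟨(l 4), by decide +kernel⟩

theorem c_pp_011 : CertB 0 536870912 536870912 536870912 649613803 48318383 3 eng mog cd0q0 cd3q1 pd1 true true true .pnn 0 1 1
    ndB0q0 ndB3q1 pcB1 Cut.none Ext.none :=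
  certB0 (fam := true) (s1 := true) (s2 := true) (a := 0) (b := 1) (c := 1) (cn := .pnn) (n1 := ndB0q0) (n2 := ndB3q1) (pc := pcB1) (cut := Cut.none) (xt := Ext.none) (P1 := 0) (W1 := 536870912) (P2 := 536870912) (W2 := 536870912) (P3 := 649613803) (W3 := 48318383) (N0 := 3) (En := eng) (mo := mog) (C1 := cd0q0) (C2 := cd3q1) (C3 := pd1)
    rfl k0_pp_011

noncomputable def f_pp_012 : ℕ → ℕ → ℕ → ℕ → Bool := onCell 0 536870912 536870912 536870912 649613803 48318383
    (rowB 3 eng mog cd0q0 cd3q1 pd2 0 true true true .pnp 0 1 2 (qsf 0 536870912 536870912 536870912 2) ndB0q0 ndB3q1 pcB2 Cut.none Ext.none)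

def k0_pp_012 : ∃ t, chk3 f_pp_012 t 1 1 1 = true :=
  ⟨(l 4), by decide +kernel⟩

theorem c_pp_012 : CertB 0 536870912 536870912 536870912 649613803 48318383 3 eng mog cd0q0 cd3q1 pd2 true true true .pnp 0 1 2
    ndB0q0 ndB3q1 pcB2 Cut.none Ext.none :=
  certB0 (fam := true) (s1 := true) (s2 := true) (a := 0) (b := 1) (c := 2) (cn := .pnp) (n1 := ndB0q0) (n2 := ndB3q1) (pc := pcB2) (cut := Cut.none) (xt := Ext.none) (P1 := 0) (W1 := 536870912) (P2 := 536870912) (W2 := 536870912) (P3 := 649613803) (W3 := 48318383) (N0 := 3) (En := eng) (mo := mog) (C1 := cd0q0) (C2 := cd3q1) (C3 := pd2)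
    rfl k0_pp_012

noncomputable def cut_pp_022_a : Cut := Cut.of [[⟨0, 0, 0, 67108864⟩, ⟨1, 1, 0, 67108864⟩, ⟨2, 1, 0, 67108864⟩]]

noncomputable def f_pp_022_a : ℕ → ℕ → ℕ → ℕ → Bool := onCell 0 536870912 0 536870912 649613803 48318383
    (rowB 3 eng mog cd0q0 cd3q2a pd2 0 true true true .pp 0 2 2 (qsf 0 536870912 0 536870912 2) ndB0q0 ndB3q2a pcB2 cut_pp_022_a Ext.none)

def k0_pp_022_a : ∃ t, chk3 f_pp_022_a t 4 2 1 = true :=
  ⟨(a (b (a (a (b (b (a (l 16434424) (l 16438624)) (l 16461488)) (b (c (l 16449224) (l 16445208)) (c (l 16457456) (l 16454488)))) (a (b (b (l 16444432) (l 16448520)) (b (l 16496776) (b (l 16461008) (l 16466080)))) (b (l 16453536) (b (l 16461720) (l 16470128))))) (b (a (b (l 16461448) (l 16465704)) (l 16497472)) (a (b (l 16472096) (l 16480728)) (b (l 16485376) (l 16494336))))) (a (b (b (a (a (l 16464168) (l 16469488)) (a (l 16475032) (b (l 16477984) (l 16484184)))) (a (a (l 16478064) (l 16483608)) (a (l 16489368) (b (l 16491344) (l 16499312))))) (a (b (a (l 16494720)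 (l 16500472)) (c (l 16538320) (l 16464800))) (b (a (l 16506432) (l 16512600)) (b (l 16524024) (l 16534624))))) (b (b (a (l 16512696) (l 16505696)) (a (a (b (l 16498088) (l 16505800)) (l 16509176)) (l 16519880))) (a (b (a (b (l 16514304) (l 16523632)) (b (l 16521344) (l 16551432))) (b (a (l 16533704) (l 16561384)) (l 16547784))) (b (l 16557824) (b (l 16624720) (a (l 16621152) (l 16565648)))))))) (b (a (a (b (l 16488848) (b (l 16498208) (l 16507544))) (b (l 16500824) (b (l 16510744) (l 16520480)))) (b (a (l 16533488) (l 16524024)) (a (l 16538704) (l 16540616)))) (a (b (b (a (l 16519288) (l 16532648)) (a (l 16533864) (l 16568616))) (a (b (b (l 16546536) (l 16555904)) (b (l 16565976) (l 16576744))) (b (l 16586376) (l 16585928)))) (b (a (b (l 16545840) (l 16561288)) (b (l 16558952) (l 16574880))) (b (a (l 16579488) (l 16593552)) (a (l 16600416) (l 16635984))))))), by decide +kernel⟩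

def k1_pp_022_a : ∃ t, chk3 f_pp_022_a t 5 2 1 = true :=
  ⟨(a (b (a (b (l 16562128) (c (l 16596160) (l 16601168))) (a (b (l 16558600) (l 16598848)) (b (l 16591488) (b (l 16584296) (l 16644064))))) (a (b (a (b (l 16572024) (l 16588472)) (c (l 16635248) (l 16615536))) (a (b (l 16628632) (l 16671552)) (b (l 16642608) (l 4)))) (b (a (b (l 16619400) (l 16636512)) (b (a (l 16608328) (l 16637144)) (l 4))) (l 4)))) (b (a (b (a (l 16584176) (l 16620728)) (a (b (l 16599192) (l 16633568)) (b (l 16626168) (l 4)))) (b (a (b (l 16611016) (l 16641632)) (b (l 16626992) (l 34057574983))) (a (b (l 82912780823) (l 4)) (l 4)))) (l 4))), by decide +kernel⟩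

def k2_pp_022_a : ∃ t, chk3 f_pp_022_a t 2 3 1 = true :=
  ⟨(a (b (a (b (a (a (a (b (l 16536232) (l 16561192)) (b (l 16542328) (l 16567432))) (b (b (l 16566864) (l 16599800)) (b (l 16570528) (l 16583880)))) (a (a (b (l 16582872) (l 16587464)) (b (l 16589744) (l 16594512))) (b (a (c (l 16639168) (l 16575728)) (b (l 16597976) (l 16589176))) (b (l 16598496) (l 16612152))))) (a (a (b (b (l 16584712) (l 16599336)) (b (l 16614664) (l 16649448))) (b (b (l 16597864) (l 16612584)) (a (l 16653448) (l 16660368)))) (a (b (b (l 16611824) (l 16626680)) (b (l 16642208) (l 16679080))) (b (c (l 16655048) (l 16654904)) (b (l 16683424) (a (l 16669488) (l 16677688))))))) (b (a (a (b (l 16594328) (a (b (l 16609632) (l 16623352)) (b (l 16617216) (l 16630968)))) (b (l 16609248) (b (l 16628640) (l 16642712)))) (b (a (l 16658352) (l 4)) (l 4))) (a (a (b (a (l 16666376) (b (l 16666512) (l 4))) (b (l 4) (l 4))) (l 4)) (l 4)))) (a (b (a (a (b (b (a (l 16638416) (l 16647200)) (a (l 16653440) (l 16662504))) (b (a (b (l 16665784)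 (l 6)) (l 16679392)) (a (l 6) (a (l 6) (l 16699672))))) (b (b (a (l 16655680) (l 16663848)) (b (l 16671440) (l 16700560))) (b (a (l 16698832) (l 16706808)) (a (c (l 16717048) (l 16716912)) (b (l 16710320) (l 16727088)))))) (b (a (b (a (l 16671048) (l 16678584)) (a (l 16708872) (l 16705792))) (b (a (l 16686728) (l 4)) (l 4))) (a (b (a (b (l 16700512) (l 16709024)) (l 4)) (l 4)) (l 4)))) (a (a (l 6) (a (b (l 6) (l 4)) (l 4))) (l 4))) (l 4))) (l 4)), by decide +kernel⟩

def k3_pp_022_a : ∃ t, chk3 f_pp_022_a t 3 1 1 = true :=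
  ⟨(b (a (a (b (a (b (b (a (l 28151987159) (l 28152026583)) (l 4)) (l 4)) (l 4)) (l 4)) (l 4)) (l 4)) (l 4)), by decide +kernel⟩

theorem s4_pp_022_a : ∃ t, chk3 f_pp_022_a t 2 2 1 = true := ex3_a k0_pp_022_a k1_pp_022_a

theorem s5_pp_022_a : ∃ t, chk3 f_pp_022_a t 2 1 1 = true := ex3_b s4_pp_022_a k2_pp_022_a

theorem s6_pp_022_a : ∃ t, chk3 f_pp_022_a t 1 1 1 = true := ex3_a s5_pp_022_a k3_pp_022_a

theorem c_pp_022_a : CertB 0 536870912 0 536870912 649613803 48318383 3 eng mog cd0q0 cd3q2a pd2 true true true .pp 0 2 2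
    ndB0q0 ndB3q2a pcB2 cut_pp_022_a Ext.none :=
  certB0 (fam := true) (s1 := true) (s2 := true) (a := 0) (b := 2) (c := 2) (cn := .pp) (n1 := ndB0q0) (n2 := ndB3q2a) (pc := pcB2) (cut := cut_pp_022_a) (xt := Ext.none) (P1 := 0) (W1 := 536870912) (P2 := 0) (W2 := 536870912) (P3 := 649613803) (W3 := 48318383) (N0 := 3) (En := eng) (mo := mog) (C1 := cd0q0) (C2 := cd3q2a) (C3 := pd2)
    rfl s6_pp_022_a

noncomputable def cut_pp_022_b : Cut := Cut.of [[⟨0, 0, 0, 67108864⟩, ⟨1, 1, 0, 67108864⟩, ⟨2, 1, 0, 67108864⟩]]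

noncomputable def f_pp_022_b : ℕ → ℕ → ℕ → ℕ → Bool := onCell 1073741824 536870912 1239849684 370763052 649613803 48318383
    (rowB 3 eng mog cd0q0 cd3q2b pd2 2 true true true .pp 0 2 2 (qsf 0 536870912 1239849684 370763052 2) ndB0q0 ndB3q2b pcB2 cut_pp_022_b Ext.none)

def k0_pp_022_b : ∃ t, chk3 f_pp_022_b t 2 1 1 = true :=
  ⟨(a (l 1) (b (b (b (a (a (a (l 1) (b (b (a (l 1) (l 16415112)) (l 1)) (l 1))) (b (a (b (a (b (l 16426448) (l 16411464)) (a (l 16421984) (l 16424248))) (a (l 1) (b (l 16400736) (l 16385880)))) (b (l 16453832) (a (l 16399616) (l 16406512)))) (a (l 1) (b (a (l 16370104) (l 16377080)) (l 16344368))))) (a (b (a (b (l 16446160) (l 16416368)) (l 16485600)) (a (b (l 16386960) (l 16357880)) (l 16384728))) (b (a (l 16476448) (l 16487816)) (a (l 16396256) (l 16407232))))) (a (l 1) (a (b (a (l 16314688) (b (l 16341544) (l 16313096))) (l 1)) (b (a (l 16338784) (l 16349456)) (a (l 16282632) (l 16293392)))))) (a (l 1) (b (a (l 1) (b (a (l 1) (l 16238408)) (l 1))) (l 1)))) (l 1))), by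 decide +kernel⟩

def k1_pp_022_b : ∃ t, chk3 f_pp_022_b t 3 1 1 = true :=
  ⟨(a (b (b (b (b (a (a (b (l 16498752) (l 16468144)) (l 16546704)) (a (a (l 16520832) (l 16552560)) (a (l 16544496) (l 16580664)))) (a (a (a (l 16417800) (l 16428144)) (l 16443088)) (a (l 16567320) (l 16549808)))) (b (a (a (l 16364448) (l 16383104)) (a (l 16484736) (l 16484336))) (a (a (l 16307880) (l 16325384)) (a (l 16404304) (l 16399848))))) (a (b (a (b (a (l 16248480) (l 16257528)) (a (l 16194760) (l 16204152))) (b (l 16269728) (l 16216048))) (a (l 1) (b (l 16162672) (l 16106984)))) (a (b (a (l 16294960) (l 16342736)) (a (l 16144352) (l 16148240))) (b (a (l 16347216) (l 16336160)) (l 16227640))))) (a (l 1) (b (a (b (l 16101912) (l 1)) (b (l 16086056) (l 15959832))) (l 1)))) (a (b (b (b (a (b (a (l 16596336) (l 16633240)) (a (l 16509328) (l 16525336))) (b (a (b (l 16644336) (l 16590848)) (l 4)) (a (l 50163451207) (l 4)))) (a (b (a (l 16443792) (l 16459568)) (a (l 16379224) (l 16394496))) (a (b (l 16482152) (l 16411128))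 (l 4)))) (a (b (b (l 16354688) (l 16285416)) (a (l 16185192) (l 16200176))) (a (a (b (l 16354576) (l 16212528)) (l 4)) (l 4)))) (b (a (b (l 16074808) (l 16080432)) (b (a (l 16121896) (l 4)) (l 19561171543))) (a (l 1) (b (l 16000592) (l 1))))) (b (l 4) (b (l 4) (a (b (l 4) (l 15890984)) (l 4)))))), by decide +kernel⟩

theorem s2_pp_022_b : ∃ t, chk3 f_pp_022_b t 1 1 1 = true := ex3_a k0_pp_022_b k1_pp_022_b

theorem c_pp_022_b : CertB 0 536870912 1239849684 370763052 649613803 48318383 3 eng mog cd0q0 cd3q2b pd2 true true true .pp 0 2 2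
    ndB0q0 ndB3q2b pcB2 cut_pp_022_b Ext.none :=
  certB2 (fam := true) (s1 := true) (s2 := true) (a := 0) (b := 2) (c := 2) (cn := .pp) (n1 := ndB0q0) (n2 := ndB3q2b) (pc := pcB2) (cut := cut_pp_022_b) (xt := Ext.none) (P1 := 0) (W1 := 536870912) (P2 := 1239849684) (W2 := 370763052) (P3 := 649613803) (W3 := 48318383) (N0 := 3) (En := eng) (mo := mog) (C1 := cd0q0) (C2 := cd3q2b) (C3 := pd2)
    rfl (fun _ => rfl) s2_pp_022_b

noncomputable def f_pp_023_a : ℕ → ℕ → ℕ → ℕ → Bool := onCell 1610612736 536870912 0 536870912 649613803 48318383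
    (rowB 3 eng mog cd0q0 cd3q2a pd3 2 true true true .up 0 2 3 (qsf 0 536870912 0 536870912 3) ndB0q0 ndB3q2a pcB3 Cut.none Ext.none)

def k0_pp_023_a : ∃ t, chk3 f_pp_023_a t 1 1 1 = true :=
  ⟨(a (l 4) (l 2)), by decide +kernel⟩

theorem c_pp_023_a : CertB 0 536870912 0 536870912 649613803 48318383 3 eng mog cd0q0 cd3q2a pd3 true true true .up 0 2 3
    ndB0q0 ndB3q2a pcB3 Cut.none Ext.none :=
  certB2 (fam := true) (s1 := true) (s2 := true) (a := 0) (b := 2) (c := 3) (cn := .up) (n1 := ndB0q0) (n2 := ndB3q2a) (pc := pcB3) (cut := Cut.none) (xt := Ext.none) (P1 := 0) (W1 := 536870912) (P2 := 0) (W2 := 536870912) (P3 := 649613803) (W3 := 48318383) (N0 := 3) (En := eng) (mo := mog) (C1 := cd0q0) (C2 := cd3q2a) (C3 := pd3)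
    rfl (fun _ => rfl) k0_pp_023_a

noncomputable def f_pp_023_b : ℕ → ℕ → ℕ → ℕ → Bool := onCell 1610612736 536870912 1239849684 370763052 649613803 48318383
    (rowB 3 eng mog cd0q0 cd3q2b pd3 2 true true true .up 0 2 3 (qsf 0 536870912 1239849684 370763052 3) ndB0q0 ndB3q2b pcB3 Cut.none Ext.none)

def k0_pp_023_b : ∃ t, chk3 f_pp_023_b t 1 1 1 = true :=
  ⟨(a (l 4) (l 4)), by decide +kernel⟩

theorem c_pp_023_b : CertB 0 536870912 1239849684 370763052 649613803 48318383 3 eng mog cd0q0 cd3q2b pd3 true true true .up 0 2 3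
    ndB0q0 ndB3q2b pcB3 Cut.none Ext.none :=
  certB2 (fam := true) (s1 := true) (s2 := true) (a := 0) (b := 2) (c := 3) (cn := .up) (n1 := ndB0q0) (n2 := ndB3q2b) (pc := pcB3) (cut := Cut.none) (xt := Ext.none) (P1 := 0) (W1 := 536870912) (P2 := 1239849684) (W2 := 370763052) (P3 := 649613803) (W3 := 48318383) (N0 := 3) (En := eng) (mo := mog) (C1 := cd0q0) (C2 := cd3q2b) (C3 := pd3)
    rfl (fun _ => rfl) k0_pp_023_b

noncomputable def f_pp_033 : ℕ → ℕ → ℕ → ℕ → Bool := onCell 0 536870912 1610612736 536870912 649613803 48318383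
    (rowB 3 eng mog cd0q0 cd3q3 pd3 0 true true true .pnn 0 3 3 (qsf 0 536870912 1610612736 536870912 3) ndB0q0 ndB3q3 pcB3 Cut.none Ext.none)

def k0_pp_033 : ∃ t, chk3 f_pp_033 t 1 1 1 = true :=
  ⟨(a (b (l 4) (l 4)) (l 4)), by decide +kernel⟩

theorem c_pp_033 : CertB 0 536870912 1610612736 536870912 649613803 48318383 3 eng mog cd0q0 cd3q3 pd3 true true true .pnn 0 3 3
    ndB0q0 ndB3q3 pcB3 Cut.none Ext.none :=
  certB0 (fam := true) (s1 := true) (s2 := true) (a := 0) (b := 3) (c := 3) (cn := .pnn) (n1 := ndB0q0) (n2 := ndB3q3) (pc := pcB3) (cut := Cut.none) (xt := Ext.none) (P1 := 0) (W1 := 536870912) (P2 := 1610612736) (W2 := 536870912) (P3 := 649613803) (W3 := 48318383) (N0 := 3) (En := eng) (mo := mog) (C1 := cd0q0) (C2 := cd3q3) (C3 := pd3)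
    rfl k0_pp_033

noncomputable def f_pp_101 : ℕ → ℕ → ℕ → ℕ → Bool := onCell 536870912 536870912 0 536870912 649613803 48318383
    (rowB 3 eng mog cd0q1 cd3q0 pd1 0 true true true .npn 1 0 1 (qsf 536870912 536870912 0 536870912 1) ndB0q1 ndB3q0 pcB1 Cut.none Ext.none)

def k0_pp_101 : ∃ t, chk3 f_pp_101 t 1 1 1 = true :=
  ⟨(l 5), by decide +kernel⟩

theorem c_pp_101 : CertB 536870912 536870912 0 536870912 649613803 48318383 3 eng mog cd0q1 cd3q0 pd1 true true true .npn 1 0 1
    ndB0q1 ndB3q0 pcB1 Cut.none Ext.none :=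
  certB0 (fam := true) (s1 := true) (s2 := true) (a := 1) (b := 0) (c := 1) (cn := .npn) (n1 := ndB0q1) (n2 := ndB3q0) (pc := pcB1) (cut := Cut.none) (xt := Ext.none) (P1 := 536870912) (W1 := 536870912) (P2 := 0) (W2 := 536870912) (P3 := 649613803) (W3 := 48318383) (N0 := 3) (En := eng) (mo := mog) (C1 := cd0q1) (C2 := cd3q0) (C3 := pd1)
    rfl k0_pp_101

noncomputable def f_pp_102 : ℕ → ℕ → ℕ → ℕ → Bool := onCell 536870912 536870912 0 536870912 649613803 48318383
    (rowB 3 eng mog cd0q1 cd3q0 pd2 0 true true true .npp 1 0 2 (qsf 536870912 536870912 0 536870912 2) ndB0q1 ndB3q0 pcB2 Cut.none Ext.none)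

def k0_pp_102 : ∃ t, chk3 f_pp_102 t 1 1 1 = true :=
  ⟨(l 5), by decide +kernel⟩

theorem c_pp_102 : CertB 536870912 536870912 0 536870912 649613803 48318383 3 eng mog cd0q1 cd3q0 pd2 true true true .npp 1 0 2
    ndB0q1 ndB3q0 pcB2 Cut.none Ext.none :=
  certB0 (fam := true) (s1 := true) (s2 := true) (a := 1) (b := 0) (c := 2) (cn := .npp) (n1 := ndB0q1) (n2 := ndB3q0) (pc := pcB2) (cut := Cut.none) (xt := Ext.none) (P1 := 536870912) (W1 := 536870912) (P2 := 0) (W2 := 536870912) (P3 := 649613803) (W3 := 48318383) (N0 := 3) (En := eng) (mo := mog) (C1 := cd0q1) (C2 := cd3q0) (C3 := pd2)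
    rfl k0_pp_102

noncomputable def f_pp_112 : ℕ → ℕ → ℕ → ℕ → Bool := onCell 536870912 536870912 536870912 536870912 649613803 48318383
    (rowB 3 eng mog cd0q1 cd3q1 pd2 0 true true true .dn 1 1 2 (qsf 536870912 536870912 536870912 536870912 2) ndB0q1 ndB3q1 pcB2 Cut.none Ext.none)

def k0_pp_112 : ∃ t, chk3 f_pp_112 t 1 1 1 = true :=
  ⟨(l 4), by decide +kernel⟩

theorem c_pp_112 : CertB 536870912 536870912 536870912 536870912 649613803 48318383 3 eng mog cd0q1 cd3q1 pd2 true true true .dn 1 1 2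
    ndB0q1 ndB3q1 pcB2 Cut.none Ext.none :=
  certB0 (fam := true) (s1 := true) (s2 := true) (a := 1) (b := 1) (c := 2) (cn := .dn) (n1 := ndB0q1) (n2 := ndB3q1) (pc := pcB2) (cut := Cut.none) (xt := Ext.none) (P1 := 536870912) (W1 := 536870912) (P2 := 536870912) (W2 := 536870912) (P3 := 649613803) (W3 := 48318383) (N0 := 3) (En := eng) (mo := mog) (C1 := cd0q1) (C2 := cd3q1) (C3 := pd2)
    rfl k0_pp_112

noncomputable def f_pp_113 : ℕ → ℕ → ℕ → ℕ → Bool := onCell 536870912 536870912 536870912 536870912 649613803 48318383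
    (rowB 3 eng mog cd0q1 cd3q1 pd3 0 true true true .nn 1 1 3 (qsf 536870912 536870912 536870912 536870912 3) ndB0q1 ndB3q1 pcB3 Cut.none Ext.none)

def k0_pp_113 : ∃ t, chk3 f_pp_113 t 1 1 1 = true :=
  ⟨(l 4), by decide +kernel⟩

theorem c_pp_113 : CertB 536870912 536870912 536870912 536870912 649613803 48318383 3 eng mog cd0q1 cd3q1 pd3 true true true .nn 1 1 3
    ndB0q1 ndB3q1 pcB3 Cut.none Ext.none :=
  certB0 (fam := true) (s1 := true) (s2 := true) (a := 1) (b := 1) (c := 3) (cn := .nn) (n1 := ndB0q1) (n2 := ndB3q1) (pc := pcB3) (cut := Cut.none) (xt := Ext.none) (P1 := 536870912) (W1 := 536870912) (P2 := 536870912) (W2 := 536870912) (P3 := 649613803) (W3 := 48318383) (N0 := 3) (En := eng) (mo := mog) (C1 := cd0q1) (C2 := cd3q1) (C3 := pd3)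
    rfl k0_pp_113

noncomputable def f_pp_123_a : ℕ → ℕ → ℕ → ℕ → Bool := onCell 536870912 536870912 0 536870912 649613803 48318383
    (rowB 3 eng mog cd0q1 cd3q2a pd3 0 true true true .npn 1 2 3 (qsf 536870912 536870912 0 536870912 3) ndB0q1 ndB3q2a pcB3 Cut.none Ext.none)

def k0_pp_123_a : ∃ t, chk3 f_pp_123_a t 1 1 1 = true :=
  ⟨(l 4), by decide +kernel⟩

theorem c_pp_123_a : CertB 536870912 536870912 0 536870912 649613803 48318383 3 eng mog cd0q1 cd3q2a pd3 true true true .npn 1 2 3
    ndB0q1 ndB3q2a pcB3 Cut.none Ext.none :=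
  certB0 (fam := true) (s1 := true) (s2 := true) (a := 1) (b := 2) (c := 3) (cn := .npn) (n1 := ndB0q1) (n2 := ndB3q2a) (pc := pcB3) (cut := Cut.none) (xt := Ext.none) (P1 := 536870912) (W1 := 536870912) (P2 := 0) (W2 := 536870912) (P3 := 649613803) (W3 := 48318383) (N0 := 3) (En := eng) (mo := mog) (C1 := cd0q1) (C2 := cd3q2a) (C3 := pd3)
    rfl k0_pp_123_a

noncomputable def f_pp_123_b : ℕ → ℕ → ℕ → ℕ → Bool := onCell 536870912 536870912 1239849684 370763052 649613803 48318383
    (rowB 3 eng mog cd0q1 cd3q2b pd3 0 true true true .npn 1 2 3 (qsf 536870912 536870912 1239849684 370763052 3) ndB0q1 ndB3q2b pcB3 Cut.none Ext.none)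

def k0_pp_123_b : ∃ t, chk3 f_pp_123_b t 1 1 1 = true :=
  ⟨(l 4), by decide +kernel⟩

theorem c_pp_123_b : CertB 536870912 536870912 1239849684 370763052 649613803 48318383 3 eng mog cd0q1 cd3q2b pd3 true true true .npn 1 2 3
    ndB0q1 ndB3q2b pcB3 Cut.none Ext.none :=
  certB0 (fam := true) (s1 := true) (s2 := true) (a := 1) (b := 2) (c := 3) (cn := .npn) (n1 := ndB0q1) (n2 := ndB3q2b) (pc := pcB3) (cut := Cut.none) (xt := Ext.none) (P1 := 536870912) (W1 := 536870912) (P2 := 1239849684) (W2 := 370763052) (P3 := 649613803) (W3 := 48318383) (N0 := 3) (En := eng) (mo := mog) (C1 := cd0q1) (C2 := cd3q2b) (C3 := pd3)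
    rfl k0_pp_123_b

noncomputable def f_pp_133 : ℕ → ℕ → ℕ → ℕ → Bool := onCell 536870912 536870912 1610612736 536870912 649613803 48318383
    (rowB 3 eng mog cd0q1 cd3q3 pd3 0 true true true .dn 1 3 3 (qsf 536870912 536870912 1610612736 536870912 3) ndB0q1 ndB3q3 pcB3 Cut.none Ext.none)

def k0_pp_133 : ∃ t, chk3 f_pp_133 t 1 1 1 = true :=
  ⟨(l 4), by decide +kernel⟩

theorem c_pp_133 : CertB 536870912 536870912 1610612736 536870912 649613803 48318383 3 eng mog cd0q1 cd3q3 pd3 true true true .dn 1 3 3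
    ndB0q1 ndB3q3 pcB3 Cut.none Ext.none :=
  certB0 (fam := true) (s1 := true) (s2 := true) (a := 1) (b := 3) (c := 3) (cn := .dn) (n1 := ndB0q1) (n2 := ndB3q3) (pc := pcB3) (cut := Cut.none) (xt := Ext.none) (P1 := 536870912) (W1 := 536870912) (P2 := 1610612736) (W2 := 536870912) (P3 := 649613803) (W3 := 48318383) (N0 := 3) (En := eng) (mo := mog) (C1 := cd0q1) (C2 := cd3q3) (C3 := pd3)
    rfl k0_pp_133

noncomputable def f_pp_202 : ℕ → ℕ → ℕ → ℕ → Bool := onCell 0 536870912 0 536870912 649613803 48318383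
    (rowB 3 eng mog cd0q2 cd3q0 pd2 0 true true true .pp 2 0 2 (qsf 0 536870912 0 536870912 2) ndB0q2 ndB3q0 pcB2 Cut.none Ext.none)

def k0_pp_202 : ∃ t, chk3 f_pp_202 t 1 1 1 = true :=
  ⟨(l 5), by decide +kernel⟩

theorem c_pp_202 : CertB 0 536870912 0 536870912 649613803 48318383 3 eng mog cd0q2 cd3q0 pd2 true true true .pp 2 0 2
    ndB0q2 ndB3q0 pcB2 Cut.none Ext.none :=
  certB0 (fam := true) (s1 := true) (s2 := true) (a := 2) (b := 0) (c := 2) (cn := .pp) (n1 := ndB0q2) (n2 := ndB3q0) (pc := pcB2) (cut := Cut.none) (xt := Ext.none) (P1 := 0) (W1 := 536870912) (P2 := 0) (W2 := 536870912) (P3 := 649613803) (W3 := 48318383) (N0 := 3) (En := eng) (mo := mog) (C1 := cd0q2) (C2 := cd3q0) (C3 := pd2)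
    rfl k0_pp_202

noncomputable def f_pp_203 : ℕ → ℕ → ℕ → ℕ → Bool := onCell 0 536870912 0 536870912 649613803 48318383
    (rowB 3 eng mog cd0q2 cd3q0 pd3 0 true true true .up 2 0 3 (qsf 0 536870912 0 536870912 3) ndB0q2 ndB3q0 pcB3 Cut.none Ext.none)

def k0_pp_203 : ∃ t, chk3 f_pp_203 t 1 1 1 = true :=
  ⟨(l 5), by decide +kernel⟩

theorem c_pp_203 : CertB 0 536870912 0 536870912 649613803 48318383 3 eng mog cd0q2 cd3q0 pd3 true true true .up 2 0 3
    ndB0q2 ndB3q0 pcB3 Cut.none Ext.none :=
  certB0 (fam := true) (s1 := true) (s2 := true) (a := 2) (b := 0) (c := 3) (cn := .up) (n1 := ndB0q2) (n2 := ndB3q0) (pc := pcB3) (cut := Cut.none) (xt := Ext.none) (P1 := 0) (W1 := 536870912) (P2 := 0) (W2 := 536870912) (P3 := 649613803) (W3 := 48318383) (N0 := 3) (En := eng) (mo := mog) (C1 := cd0q2) (C2 := cd3q0) (C3 := pd3)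
    rfl k0_pp_203

noncomputable def f_pp_213 : ℕ → ℕ → ℕ → ℕ → Bool := onCell 0 536870912 536870912 536870912 649613803 48318383
    (rowB 3 eng mog cd0q2 cd3q1 pd3 0 true true true .pnn 2 1 3 (qsf 0 536870912 536870912 536870912 3) ndB0q2 ndB3q1 pcB3 Cut.none Ext.none)

def k0_pp_213 : ∃ t, chk3 f_pp_213 t 1 1 1 = true :=
  ⟨(l 4), by decide +kernel⟩

theorem c_pp_213 : CertB 0 536870912 536870912 536870912 649613803 48318383 3 eng mog cd0q2 cd3q1 pd3 true true true .pnn 2 1 3
    ndB0q2 ndB3q1 pcB3 Cut.none Ext.none :=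
  certB0 (fam := true) (s1 := true) (s2 := true) (a := 2) (b := 1) (c := 3) (cn := .pnn) (n1 := ndB0q2) (n2 := ndB3q1) (pc := pcB3) (cut := Cut.none) (xt := Ext.none) (P1 := 0) (W1 := 536870912) (P2 := 536870912) (W2 := 536870912) (P3 := 649613803) (W3 := 48318383) (N0 := 3) (En := eng) (mo := mog) (C1 := cd0q2) (C2 := cd3q1) (C3 := pd3)
    rfl k0_pp_213

noncomputable def f_pm_001 : ℕ → ℕ → ℕ → ℕ → Bool := onCell 0 536870912 0 536870912 649613803 48318383
    (rowB 3 eng mog cd0q0 cd3q0 pd1 0 true true false .up 0 0 1 (qsf 0 536870912 0 536870912 1) ndB0q0 ndB3q0 pcB1 Cut.none Ext.none)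

def k0_pm_001 : ∃ t, chk3 f_pm_001 t 1 1 1 = true :=
  ⟨(l 3), by decide +kernel⟩

theorem c_pm_001 : CertB 0 536870912 0 536870912 649613803 48318383 3 eng mog cd0q0 cd3q0 pd1 true true false .up 0 0 1
    ndB0q0 ndB3q0 pcB1 Cut.none Ext.none :=
  certB0 (fam := true) (s1 := true) (s2 := false) (a := 0) (b := 0) (c := 1) (cn := .up) (n1 := ndB0q0) (n2 := ndB3q0) (pc := pcB1) (cut := Cut.none) (xt := Ext.none) (P1 := 0) (W1 := 536870912) (P2 := 0) (W2 := 536870912) (P3 := 649613803) (W3 := 48318383) (N0 := 3) (En := eng) (mo := mog) (C1 := cd0q0) (C2 := cd3q0) (C3 := pd1)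
    rfl k0_pm_001

noncomputable def f_pm_011 : ℕ → ℕ → ℕ → ℕ → Bool := onCell 0 536870912 536870912 536870912 649613803 48318383
    (rowB 3 eng mog cd0q0 cd3q1 pd1 1 true true false .pnn 0 1 1 (qsf 0 536870912 536870912 536870912 1) ndB0q0 ndB3q1 pcB1 Cut.none Ext.none)

def k0_pm_011 : ∃ t, chk3 f_pm_011 t 1 1 1 = true :=
  ⟨(l 3), by decide +kernel⟩

theorem c_pm_011 : CertB 0 536870912 536870912 536870912 649613803 48318383 3 eng mog cd0q0 cd3q1 pd1 true true false .pnn 0 1 1
    ndB0q0 ndB3q1 pcB1 Cut.none Ext.none :=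
  certB1 (fam := true) (s1 := true) (s2 := false) (a := 0) (b := 1) (c := 1) (cn := .pnn) (n1 := ndB0q0) (n2 := ndB3q1) (pc := pcB1) (cut := Cut.none) (xt := Ext.none) (P1 := 0) (W1 := 536870912) (P2 := 536870912) (W2 := 536870912) (P3 := 649613803) (W3 := 48318383) (N0 := 3) (En := eng) (mo := mog) (C1 := cd0q0) (C2 := cd3q1) (C3 := pd1)
    rfl (fun _ => rfl) k0_pm_011

noncomputable def f_pm_012 : ℕ → ℕ → ℕ → ℕ → Bool := onCell 0 536870912 1073741824 536870912 649613803 48318383
    (rowB 3 eng mog cd0q0 cd3q1 pd2 1 true true false .pnp 0 1 2 (qsf 0 536870912 536870912 536870912 2) ndB0q0 ndB3q1 pcB2 Cut.none Ext.none)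

def k0_pm_012 : ∃ t, chk3 f_pm_012 t 1 4 1 = true :=
  ⟨(a (l 3) (b (l 3) (a (l 3) (b (l 3) (b (l 3) (a (l 3) (b (l 3) (a (l 3) (b (l 16556496) (l 16560616)))))))))), by decide +kernel⟩

def k1_pm_012 : ∃ t, chk3 f_pm_012 t 2 5 1 = true :=
  ⟨(a (b (b (b (a (l 2) (l 3)) (l 2)) (l 2)) (l 2)) (b (b (b (l 3) (b (l 3) (b (a (l 3) (a (l 3) (b (l 3) (l 16533448)))) (a (b (a (l 3) (a (l 3) (l 1069077234311))) (b (a (a (l 2) (a (l 2) (l 247127889415))) (a (a (l 16513464) (l 16516096)) (l 16530232))) (a (l 16504768) (l 16515928)))) (a (b (a (l 16526144) (l 16529272)) (b (b (b (l 16526224) (l 16525888)) (l 16525376)) (l 16524304))) (b (b (l 16531048) (l 16529512)) (a (a (l 16556520) (l 16527320)) (l 16527112)))))))) (a (a (a (l 2) (l 16482792)) (b (l 16482488) (l 16479008))) (a (l 16500016) (l 16500512)))) (a (a (l 2) (b (l 16440880) (l 2))) (a (b (l 16465016) (l 16387672)) (b (l 16447096) (l 16391856)))))), by decide +kernel⟩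

def k2_pm_012 : ∃ t, chk3 f_pm_012 t 3 40 1 = true :=
  ⟨(a (a (l 3) (b (l 3) (a (l 3) (b (l 3) (a (l 16559960) (l 16582880)))))) (a (b (a (l 3) (b (l 3) (l 103783544295))) (a (b (a (l 16566840) (l 16567912)) (a (l 16584632) (b (l 16565792) (l 16564888)))) (b (a (l 16568560) (l 16569040)) (a (l 16608520) (l 16566968))))) (b (a (b (l 16567464) (l 16611000)) (b (l 16564400) (l 16587312))) (b (a (a (l 16568600) (l 16567552)) (l 16566064)) (a (l 16566648) (l 16565456)))))), by decide +kernel⟩

def k3_pm_012 : ∃ t, chk3 f_pm_012 t 3 41 1 = true :=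
  ⟨(b (a (a (b (l 3) (a (a (l 3) (l 16541216)) (b (l 16543992) (l 16541056)))) (b (a (b (a (l 3) (l 16553456)) (a (l 16548328) (l 16551032))) (b (a (l 16556008) (l 16558784)) (a (l 16553968) (l 16556840)))) (a (b (l 16568360) (a (l 16543296) (l 16546192))) (b (a (l 16551680) (l 16554296)) (l 16550024))))) (a (b (a (b (a (l 16561520) (l 16563544)) (a (l 16559208) (l 16561016))) (l 16563944)) (a (l 16556320) (l 16559768))) (b (a (l 16564584) (l 16565352)) (a (l 16562024) (l 16565584))))) (a (b (a (a (b (l 16536408) (l 16533456)) (b (l 16538312) (l 16535464))) (a (b (a (l 16540640) (l 16543472)) (l 16539512)) (l 16546656))) (a (b (a (b (l 16531160) (a (l 16529424) (l 16530320))) (l 16533040)) (a (a (l 16527432) (l 16528328)) (b (b (b (l 16531696) (a (l 16530576) (l 16532248))) (l 16530984)) (l 16530080)))) (b (a (c (l 16542448) (l 16552672)) (b (l 16543952) (l 16543528))) (b (b (b (a (l 16536008) (l 16544120)) (a (b (l 16536104) (l 16536472)) (c (l 16551648) (l 16539048)))) (a (l 16536520) (l 16545920)))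 (a (l 16535696) (l 16545216)))))) (b (a (a (b (l 16553032) (l 16551352)) (b (l 16557424) (l 16557096))) (a (l 16562576) (l 16568360))) (a (b (a (b (l 16550704) (l 16551856)) (l 16559504)) (b (b (b (a (l 16553280) (l 16562120)) (a (l 16555000) (l 16564360))) (l 16602520)) (l 16602080))) (b (a (l 16566872) (l 16574392)) (a (c (l 16578792) (l 16586984)) (a (l 16578904) (l 16583584)))))))), by decide +kernel⟩

def k4_pm_012 : ∃ t, chk3 f_pm_012 t 3 21 1 = true :=
  ⟨(a (a (a (a (l 16502584) (l 16504944)) (a (l 16507824) (l 16511112))) (a (b (l 16526296) (l 16507728)) (b (l 16536952) (l 16520232)))) (a (a (l 16542264) (l 16555768)) (a (l 16568976) (l 16581976)))), by decide +kernel⟩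

def k5_pm_012 : ∃ t, chk3 f_pm_012 t 3 11 1 = true :=
  ⟨(a (a (a (b (l 16454632) (l 16402456)) (b (l 16465656) (l 16418104))) (a (b (l 16478616) (l 16436408)) (b (l 16493760) (l 16456200)))) (a (a (b (l 16512128) (l 16478448)) (b (l 16532056) (l 16502896))) (a (l 16541040) (l 16563432)))), by decide +kernel⟩

def k6_pm_012 : ∃ t, chk3 f_pm_012 t 1 3 1 = true :=
  ⟨(a (b (a (l 2) (b (a (l 2) (a (l 2) (b (l 16336976) (l 2)))) (l 2))) (l 2)) (b (a (a (b (a (b (l 16348840) (l 16295616)) (b (l 16367928) (l 16316368))) (a (l 2) (b (l 16265056) (l 2)))) (b (a (b (l 16391240) (l 16343496)) (b (l 16416088) (l 16373136))) (a (b (l 16294328) (l 16245072)) (l 16305456)))) (a (b (a (b (l 16442416) (l 16403336)) (b (l 16470864) (l 16434600))) (a (l 16341608) (l 16378680))) (b (b (a (l 16500896) (l 16531944)) (l 16609584)) (a (l 16414416) (l 16451296))))) (a (b (a (l 2) (a (l 2) (l 16211648))) (l 2)) (a (b (a (l 16254192) (l 16297808)) (a (l 2) (l 16210576))) (b (a (l 16344136) (l 16388352)) (a (l 16432552)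 (a (l 16310160) (l 16340152)))))))), by decide +kernel⟩

theorem s7_pm_012 : ∃ t, chk3 f_pm_012 t 3 20 1 = true := ex3_b k2_pm_012 k3_pm_012

theorem s8_pm_012 : ∃ t, chk3 f_pm_012 t 3 10 1 = true := ex3_b s7_pm_012 k4_pm_012

theorem s9_pm_012 : ∃ t, chk3 f_pm_012 t 3 5 1 = true := ex3_b s8_pm_012 k5_pm_012

theorem s10_pm_012 : ∃ t, chk3 f_pm_012 t 1 5 1 = true := ex3_a k1_pm_012 s9_pm_012

theorem s11_pm_012 : ∃ t, chk3 f_pm_012 t 1 2 1 = true := ex3_b k0_pm_012 s10_pm_012

theorem s12_pm_012 : ∃ t, chk3 f_pm_012 t 1 1 1 = true := ex3_b s11_pm_012 k6_pm_012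

theorem c_pm_012 : CertB 0 536870912 536870912 536870912 649613803 48318383 3 eng mog cd0q0 cd3q1 pd2 true true false .pnp 0 1 2
    ndB0q0 ndB3q1 pcB2 Cut.none Ext.none :=
  certB1 (fam := true) (s1 := true) (s2 := false) (a := 0) (b := 1) (c := 2) (cn := .pnp) (n1 := ndB0q0) (n2 := ndB3q1) (pc := pcB2) (cut := Cut.none) (xt := Ext.none) (P1 := 0) (W1 := 536870912) (P2 := 536870912) (W2 := 536870912) (P3 := 649613803) (W3 := 48318383) (N0 := 3) (En := eng) (mo := mog) (C1 := cd0q0) (C2 := cd3q1) (C3 := pd2)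
    rfl (fun _ => rfl) s12_pm_012

noncomputable def cut_pm_022_a : Cut := Cut.of [[⟨0, 0, 0, 67108864⟩, ⟨1, 1, 0, 67108864⟩, ⟨2, 1, 0, 67108864⟩]]

noncomputable def xt_pm_022_a : Ext := extD2 3 ⟨7, 3, 3, 10, 377, 200, 77, 100, 17, 50, 3, 16⟩ eng cd0q0 cd3q2a pd2 true true false .pp 0 2 2 rfl ndB0q0 ndB3q2a pcB2

noncomputable def f_pm_022_a : ℕ → ℕ → ℕ → ℕ → Bool := onCell 1073741824 536870912 0 536870912 649613803 48318383
    (rowB 3 eng mog cd0q0 cd3q2a pd2 2 true true false .pp 0 2 2 (qsf 0 536870912 0 536870912 2) ndB0q0 ndB3q2a pcB2 cut_pm_022_a xt_pm_022_a)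

def k0_pm_022_a : ∃ t, chk3 f_pm_022_a t 8 1 1 = true :=
  ⟨(b (l 1) (b (l 1) (b (a (l 1) (b (a (l 1) (a (l 1) (b (l 1) (b (l 16626776) (l 49425424055))))) (a (l 6) (a (l 6) (a (l 6) (b (l 16644944) (l 16659648))))))) (a (l 6) (a (l 6) (a (l 6) (a (l 6) (b (b (l 16674280) (l 16688568)) (b (l 16699040) (b (l 16701736) (b (l 16702912) (l 16703624)))))))))))), by decide +kernel⟩

def k1_pm_022_a : ∃ t, chk3 f_pm_022_a t 9 2 1 = true :=
  ⟨(b (l 1) (a (l 1) (b (l 1) (a (l 1) (b (l 1) (a (l 1) (l 16488656))))))), by decide +kernel⟩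

def k2_pm_022_a : ∃ t, chk3 f_pm_022_a t 9 6 1 = true :=
  ⟨(a (b (l 1) (b (a (l 1) (a (b (l 1) (l 16564456)) (b (l 16549880) (l 16563376)))) (a (a (l 1) (b (l 16580168) (l 40835433415))) (b (a (l 26339870743) (l 16576912)) (a (l 16592672) (l 16590224)))))) (b (a (b (b (l 1) (l 16512200)) (b (l 19897307543) (a (l 16536576) (l 16536248)))) (b (a (l 16507920) (l 16508488)) (a (l 16530064) (l 16529480)))) (b (a (a (b (l 16549224) (l 16562040)) (l 16575408)) (a (l 16552912) (l 16551168))) (a (b (l 16594760) (l 16586160)) (b (l 16568912) (l 16580128)))))), by decide +kernel⟩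

def k3_pm_022_a : ∃ t, chk3 f_pm_022_a t 9 7 1 = true :=
  ⟨(b (a (b (a (b (a (b (l 16608328) (l 16616048)) (b (l 16605848) (l 16613200))) (a (b (l 16623768) (l 16631288)) (l 16624160))) (b (a (l 16606672) (l 16603552)) (a (l 16620600) (l 16616824)))) (a (b (a (l 16642000) (l 16637968)) (a (l 16656224) (l 16651568))) (b (a (l 16633800) (l 16629456)) (a (l 16646824) (l 16641928))))) (b (a (b (l 16598552) (a (l 16612944) (l 16608912))) (b (l 16570400) (l 16602600))) (a (b (l 16622728) (l 16634432)) (c (l 16619880) (l 16617416))))) (a (b (b (a (a (b (l 16666824) (l 16673872)) (l 16665128)) (l 16657064)) (a (c (l 16682200) (l 16680152)) (l 16687160))) (b (b (a (l 16686872) (a (l 16673504) (l 16664752))) (a (a (l 16693232) (l 16684232)) (a (l 16675272) (l 16666464)))) (b (a (a (l 16694936) (l 16685864)) (a (l 16676840) (l 16667968))) (c (a (a (b (l 16696568) (l 16697456)) (l 16688064)) (a (l 16679160) (l 16670432))) (a (a (l 16695944) (l 16686640)) (a (l 16677352) (l 16668216))))))) (b (b (a (l 16644904)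 (l 16628680)) (a (c (l 16648920) (l 16649528)) (c (l 16632896) (l 16632576)))) (b (a (b (l 16672824) (l 16674440)) (a (l 16640040) (l 16631840))) (a (b (a (l 16659168) (l 16650536)) (a (c (l 16661784) (l 16659136)) (c (l 16653296) (l 16650208)))) (a (b (l 16642064) (c (l 16644976) (l 16641432))) (b (l 16633752) (c (l 16636808) (l 16632816))))))))), by decide +kernel⟩

def k4_pm_022_a : ∃ t, chk3 f_pm_022_a t 5 2 1 = true :=
  ⟨(a (a (b (a (l 1) (a (b (l 1) (b (l 1) (l 16442008))) (b (a (l 1) (l 16435296)) (a (b (l 16438608) (l 16444672)) (a (b (l 16440080) (l 16445880)) (b (l 16441016) (l 16446592))))))) (a (b (b (l 16445944) (a (l 1) (l 16460104))) (b (a (l 16472680) (l 16474640)) (a (l 16489976) (l 16490960)))) (a (b (b (l 16451024) (l 16462560)) (b (l 16476208) (l 16491584))) (a (b (b (l 16453176) (l 16464120)) (b (l 16477112) (l 16491768))) (b (a (l 16459608) (b (l 16454576) (l 16464928))) (b (a (l 16477344) (l 16477280)) (a (l 16491624) (l 16491256)))))))) (b (b (a (a (l 16459400) (a (l 16441344)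 (l 16463864))) (l 16442176)) (b (a (a (l 16443288) (a (l 16445824) (l 16447136))) (l 16445968)) (a (l 16450032) (l 16450680)))) (b (a (b (l 16457424) (l 16467064)) (l 16461928)) (a (b (l 16478600) (l 16491712)) (l 16524784))))) (b (a (b (a (l 16441672) (l 16442608)) (b (a (l 16444720) (l 16444888)) (l 16448936))) (b (a (b (l 16444920) (l 16444592)) (b (l 16448672) (l 16447840))) (b (l 16447592) (l 16450880)))) (b (a (b (l 16454752) (l 16462384)) (b (l 16455488) (l 16461496))) (a (b (l 16471552) (l 16481952)) (b (l 16468720) (l 16476912)))))), by decide +kernel⟩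

def k5_pm_022_a : ∃ t, chk3 f_pm_022_a t 5 6 1 = true :=
  ⟨(a (a (a (b (b (a (l 16508744) (l 16508696)) (a (l 16528624) (l 16527520))) (b (a (l 16549208) (l 16547040)) (a (l 16570136) (l 16566912)))) (b (a (b (l 16508320) (l 16526120)) (a (b (l 16507776) (l 16524808)) (b (a (l 16507224) (l 16506544)) (a (l 16523848) (l 16522840))))) (a (b (l 16544592) (l 16563416)) (a (b (l 16542512) (l 16560504)) (a (b (l 16541128) (l 16558688)) (b (l 16560768) (l 16557008))))))) (b (a (b (l 16506080) (l 16521432)) (b (l 16501672) (l 16515608))) (a (b (l 16537336) (l 16553408)) (b (l 16530024) (l 16544384))))) (b (a (b (l 16493440) (l 16505456)) (b (l 16485856) (l 16495152))) (a (b (l 16517672) (l 16529752)) (b (l 16504464) (l 16513296))))), by decide +kernel⟩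

def k6_pm_022_a : ∃ t, chk3 f_pm_022_a t 10 7 1 = true :=
  ⟨(a (a (b (b (b (l 16583608) (l 16593688)) (l 16628072)) (b (b (l 16613312) (a (l 16620704) (l 16613120))) (b (a (l 16623856) (l 16616136)) (a (b (l 16625656) (c (l 16628848) (l 16624424))) (b (l 16617816) (c (l 16621120) (l 16616272))))))) (b (a (b (l 16582056) (l 16596512)) (a (b (l 16578264) (l 16591720)) (a (b (l 16575968) (l 16589776)) (b (l 16573936) (l 16589024))))) (a (b (b (l 16602448) (l 16605920)) (b (a (l 16610512) (l 16606960)) (a (b (l 16612104) (l 16612864)) (b (l 16608488) (c (l 16611872) (l 16606576)))))) (b (a (b (l 16597536) (l 16600920)) (a (b (l 16595560) (l 16598912)) (a (a (a (l 16596888) (b (l 16595440) (l 16619792))) (l 16596984)) (l 16596264)))) (b (a (l 16603680) (a (l 16601640) (a (a (a (l 16601136) (a (l 16601224) (l 16601504))) (l 16601248)) (l 16600504)))) (a (b (l 16605144) (a (l 16606560) (c (l 16607664) (l 16602264)))) (a (b (l 16613544) (a (l 16603872) (a (l 16603424) (l 16603224)))) (a (a (a (b (l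 16602544) (l 16603168)) (a (b (l 16602632) (l 16603264)) (a (a (l 16603128) (b (l 16602952) (c (l 16606072) (l 16601008)))) (l 16603312)))) (l 16603024)) (l 16602256))))))))) (b (a (b (l 16569104) (l 16580984)) (b (l 16558264) (l 16568784))) (b (a (b (l 16586480) (l 16642048)) (b (l 16573480) (l 16576032))) (a (b (a (l 16596024) (l 16588168)) (b (a (l 16597328) (l 16610256)) (a (l 16597872) (a (l 16591704) (a (l 16588640) (l 16586728)))))) (b (l 16577872) (b (l 16578576) (a (l 16582280) (l 16575096)))))))), by decide +kernel⟩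

def k7_pm_022_a : ∃ t, chk3 f_pm_022_a t 11 7 1 = true :=
  ⟨(b (a (b (l 16541248) (l 16551704)) (b (l 16521320) (l 16528256))) (b (a (b (l 16555080) (a (l 16563184) (l 16550128))) (b (l 16530160) (l 16593592))) (a (b (a (l 16564320) (l 16550632)) (a (b (l 16564472) (a (l 16567848) (l 16560576))) (b (l 16550280) (c (l 16552960) (l 16546312))))) (b (a (l 16537040) (l 16523792)) (a (b (l 16536264) (c (l 16538960) (l 16531664))) (b (l 16522632) (c (l 16525504) (l 16517344)))))))), by decide +kernel⟩

def k8_pm_022_a : ∃ t, chk3 f_pm_022_a t 3 2 1 = true :=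
  ⟨(a (a (b (b (b (a (a (l 16453376) (l 16458928)) (a (l 16465232) (l 16472312))) (a (a (l 16452032) (l 16457072)) (l 16466104))) (a (b (l 16454688) (l 16456640)) (b (l 16465216) (l 16465800)))) (b (a (b (l 16459960) (l 16464216)) (b (l 16467728) (l 16470272))) (a (b (l 16469424) (l 16475392)) (l 16517696)))) (b (a (b (a (l 16499696) (b (l 16488736) (l 16485016))) (a (l 16475240) (b (l 16482776) (l 16481856)))) (b (a (l 16495928) (l 16505496)) (a (l 16490336) (l 16498912)))) (b (a (a (l 16476712) (l 16524456)) (a (l 16488904) (l 16495976))) (a (a (l 16480152) (l 16483936)) (l 16511792))))) (b (a (a (b (l 16584056) (l 16534000)) (b (l 16543320) (l 16533096))) (a (b (l 16564888) (l 16552368)) (b (l 16584376) (l 16569592)))) (a (b (a (a (l 16503776) (l 16511968)) (l 16524392)) (a (l 16501296) (a (l 16509552) (l 16514664)))) (b (a (l 16539904) (l 16553200)) (a (b (l 16527056) (l 16515336)) (b (l 16536520) (l 16521488))))))), by decide +kernel⟩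

def k9_pm_022_a : ∃ t, chk3 f_pm_022_a t 6 3 1 = true :=
  ⟨(b (a (b (a (b (l 16481800) (l 16488320)) (b (l 16481176) (l 16484696))) (a (b (l 16494576) (l 16499840)) (b (l 16487296) (l 16488120)))) (b (a (a (l 16483552) (l 16484200)) (b (l 16487496) (l 16483224))) (a (b (l 16523400) (l 16476416)) (b (l 16475808) (l 16463728))))) (a (b (a (b (l 16503504) (l 16505784)) (a (l 16574160) (l 16565432))) (b (a (a (l 16575248) (b (l 16501080) (l 16500592))) (a (l 16490504) (l 16480912))) (a (b (a (l 16511120) (l 16499232)) (b (a (l 16509640) (l 16497480)) (a (a (l 16511512) (l 16505120)) (a (b (l 16499352) (l 16498528)) (l 16492992))))) (b (a (l 16488216) (l 16478008)) (b (a (l 16486168) (l 16475688)) (a (a (l 16487248) (l 16481712)) (a (l 16476384) (c (l 16477312) (l 16464848))))))))) (b (a (b (l 16468960) (b (l 16469824) (l 16532592))) (b (l 16456064) (a (l 16458864) (l 16451672)))) (b (a (a (l 16472048) (b (l 16464560) (l 16462520))) (a (b (l 16456544) (l 16454072)) (l 16468296))) (a (b (a (l 16468560)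 (a (l 16461848) (l 16457352))) (a (b (a (l 16468328) (l 16463624)) (a (c (l 16472520) (l 16459688)) (b (l 16462048) (l 16460904)))) (a (b (l 16459000) (b (l 16457344) (a (l 16457352) (l 16454944)))) (b (l 16454336) (c (l 16458360) (l 16445064)))))) (b (a (a (l 16452896) (l 16448456)) (a (l 16443992) (l 16439464))) (a (b (a (l 16449704) (l 16445064)) (a (c (l 16463984) (l 16440344)) (c (l 16448584) (l 16435648)))) (c (b (l 16443384) (a (b (l 16444176) (l 16442936)) (l 16438424))) (b (l 16431912) (a (l 16430960) (l 16426240))))))))))), by decide +kernel⟩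

def k10_pm_022_a : ∃ t, chk3 f_pm_022_a t 7 6 1 = true :=
  ⟨(a (b (a (b (l 16492528) (l 16482976)) (b (l 16496560) (l 16480920))) (a (b (l 16468880) (l 16448520)) (b (l 16459312) (l 16435024)))) (b (a (b (l 16499408) (l 16477760)) (l 16468008)) (a (b (l 16449000) (l 16422600)) (b (l 16439752) (l 16403720))))), by decide +kernel⟩

def k11_pm_022_a : ∃ t, chk3 f_pm_022_a t 7 7 1 = true :=
  ⟨(a (b (a (b (l 16444368) (a (l 16444792) (l 16438680))) (b (l 16433432) (a (l 16432384) (l 16425408)))) (b (a (a (b (l 16440976) (l 16437400)) (b (l 16434208) (l 16430224))) (a (b (l 16427192) (l 16422864)) (b (l 16419776) (l 16415112)))) (a (b (a (c (l 16437192) (l 16427832)) (c (l 16429368) (l 16420368))) (b (a (a (l 16430856) (l 16426768)) (c (l 16425736) (l 16415304))) (a (a (c (l 16433248) (l 16421528)) (c (l 16428992) (l 16417432))) (c (a (l 16424992) (l 16420944)) (a (l 16413544) (l 16409640)))))) (b (a (c (l 16421432) (l 16412936)) (c (l 16412864) (l 16405040))) (b (a (c (l 16417600) (l 16407600))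 (c (l 16408928) (l 16399488))) (a (c (a (l 16416808) (l 16412504)) (a (l 16405696) (l 16401616))) (c (a (l 16408160) (l 16403864)) (a (l 16397520) (l 16393464))))))))) (b (a (b (l 16419304) (a (l 16417768) (l 16408920))) (b (l 16400384) (a (l 16399680) (l 16390352)))) (b (a (a (b (l 16411464) (l 16406600)) (b (l 16402728) (l 16397984))) (a (l 16392248) (l 16385448))) (a (b (a (c (l 16404168) (l 16397080)) (l 16393208)) (a (b (l 16417480) (a (a (l 16396216) (l 16394328)) (a (l 16392520) (l 16390784)))) (a (b (l 16391088) (a (l 16389144) (l 16387584))) (b (l 16387880) (b (l 16386048) (c (l 16389208) (l 16379328))))))) (a (b (l 16386688) (c (b (l 16387112) (c (a (l 16388688) (l 141026281156100111)) (l 140635679645270031))) (b (l 16379344) (a (l 140826925936099343) (l 140632862129766415))))) (b (l 16381800) (c (b (l 16383024) (c (a (b (l 16384840) (l 140862041603194895)) (c (l 140771331893002255) (l 140685913580699663))) (a (l 140516863664766991) (a (l 140553834741579791) (l 140388152082432015)))))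 (a (l 140801293566443535) (b (l 16375136) (l 140609428783202319)))))))))), by decide +kernel⟩

theorem s12_pm_022_a : ∃ t, chk3 f_pm_022_a t 7 3 1 = true := ex3_b k10_pm_022_a k11_pm_022_a

theorem s13_pm_022_a : ∃ t, chk3 f_pm_022_a t 3 3 1 = true := ex3_a k9_pm_022_a s12_pm_022_a

theorem s14_pm_022_a : ∃ t, chk3 f_pm_022_a t 3 1 1 = true := ex3_b k8_pm_022_a s13_pm_022_a

theorem s15_pm_022_a : ∃ t, chk3 f_pm_022_a t 5 7 1 = true := ex3_a k6_pm_022_a k7_pm_022_a

theorem s16_pm_022_a : ∃ t, chk3 f_pm_022_a t 5 3 1 = true := ex3_b k5_pm_022_a s15_pm_022_a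

theorem s17_pm_022_a : ∃ t, chk3 f_pm_022_a t 5 1 1 = true := ex3_b k4_pm_022_a s16_pm_022_a

theorem s18_pm_022_a : ∃ t, chk3 f_pm_022_a t 9 3 1 = true := ex3_b k2_pm_022_a k3_pm_022_a

theorem s19_pm_022_a : ∃ t, chk3 f_pm_022_a t 9 1 1 = true := ex3_b k1_pm_022_a s18_pm_022_a

theorem s20_pm_022_a : ∃ t, chk3 f_pm_022_a t 4 1 1 = true := ex3_a k0_pm_022_a s19_pm_022_a

theorem s21_pm_022_a : ∃ t, chk3 f_pm_022_a t 2 1 1 = true := ex3_a s20_pm_022_a s17_pm_022_a

theorem s22_pm_022_a : ∃ t, chk3 f_pm_022_a t 1 1 1 = true := ex3_a s21_pm_022_a s14_pm_022_a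

theorem c_pm_022_a : CertB 0 536870912 0 536870912 649613803 48318383 3 eng mog cd0q0 cd3q2a pd2 true true false .pp 0 2 2
    ndB0q0 ndB3q2a pcB2 cut_pm_022_a xt_pm_022_a :=
  certB2 (fam := true) (s1 := true) (s2 := false) (a := 0) (b := 2) (c := 2) (cn := .pp) (n1 := ndB0q0) (n2 := ndB3q2a) (pc := pcB2) (cut := cut_pm_022_a) (xt := xt_pm_022_a) (P1 := 0) (W1 := 536870912) (P2 := 0) (W2 := 536870912) (P3 := 649613803) (W3 := 48318383) (N0 := 3) (En := eng) (mo := mog) (C1 := cd0q0) (C2 := cd3q2a) (C3 := pd2)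
    rfl (fun _ => rfl) s22_pm_022_a

noncomputable def cut_pm_022_b : Cut := Cut.of [[⟨0, 0, 0, 67108864⟩, ⟨1, 1, 0, 67108864⟩, ⟨2, 1, 0, 67108864⟩]]

noncomputable def f_pm_022_b : ℕ → ℕ → ℕ → ℕ → Bool := onCell 1073741824 536870912 1239849684 370763052 649613803 48318383
    (rowB 3 eng mog cd0q0 cd3q2b pd2 2 true true false .pp 0 2 2 (qsf 0 536870912 1239849684 370763052 2) ndB0q0 ndB3q2b pcB2 cut_pm_022_b Ext.none)

def k0_pm_022_b : ∃ t, chk3 f_pm_022_b t 2 1 1 = true :=
  ⟨(a (l 1) (b (a (b (b (a (a (l 1) (b (b (l 16436128) (l 1)) (l 1))) (a (b (a (b (l 16422992) (l 1)) (c (b (l 16433392) (l 16406160)) (l 16468528))) (l 1)) (b (b (l 16428560) (l 16401584)) (b (l 16373520) (l 16344336))))) (l 1)) (l 1)) (b (b (a (b (a (b (l 16429264) (l 16403912)) (l 16419440)) (a (b (l 16377600) (l 16350312)) (b (l 16382632) (l 16357032)))) (b (a (b (l 16434736) (l 16412080)) (b (l 16439360) (l 16417912))) (a (l 16376688) (l 16384448)))) (a (b (a (b (l 16321992) (l 1)) (b (l 16330544) (l 16303120))) (l 1))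 (b (a (b (l 16339696) (l 16314056)) (l 16337568)) (a (b (l 16287568) (l 16260200)) (b (l 16300688) (l 16275168)))))) (b (a (l 1) (b (a (l 1) (b (l 16248840) (l 1))) (l 1))) (l 1)))) (l 1))), by decide +kernel⟩

def k1_pm_022_b : ∃ t, chk3 f_pm_022_b t 3 2 1 = true :=
  ⟨(a (b (a (b (a (b (a (b (l 16444920) (l 16424760)) (b (l 16451304) (l 16432368))) (a (l 16393104) (l 16402600))) (b (a (b (l 16458408) (l 16440624)) (b (l 16466216) (l 16449520))) (a (l 16412664) (l 16423216)))) (a (b (a (l 16348856) (l 16360728)) (a (l 16302280) (l 16316856))) (b (a (l 16373184) (l 16386200)) (a (l 16331840) (l 16347168))))) (a (b (a (b (l 16466984) (l 16434272)) (b (a (l 16474192) (l 16479064)) (l 16445664))) (a (b (l 16399416) (l 16362824)) (b (l 16412880) (l 16378536)))) (b (a (b (l 16486736) (l 16457424)) (b (l 16497528) (l 16469824))) (a (l 16410472) (l 16425344))))) (a (b (a (b (a (b (l 16265760) (l 16240504)) (l 16271000)) (a (b (l 16214504) (l 1)) (b (l 16235000) (l 16209768)))) (b (a (l 16288752) (l 16306640))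 (a (l 16264304) (l 16263904)))) (a (l 1) (b (a (l 16194224) (l 16217264)) (l 16155816)))) (b (a (a (b (l 16324616) (l 16284280)) (b (l 16342656) (l 16304744))) (b (l 16369840) (l 16377264))) (a (a (b (l 16239808) (l 16193624)) (l 16240448)) (a (l 16264128) (l 16287296)))))) (b (a (b (a (b (a (l 16508992) (l 16521216)) (l 16489400)) (b (l 16539856) (l 16517712))) (a (a (l 16440560) (l 16455960)) (b (l 16492608) (l 16467040)))) (b (a (b (l 16565048) (l 16546712)) (b (l 16588024) (l 16575224))) (a (l 16618464) (l 16547064)))) (a (b (a (b (l 16405560) (l 16375352)) (l 16532736)) (a (a (l 16310104) (l 16332320)) (l 16365296))) (b (a (l 16465000) (l 16503296)) (a (l 16407664) (l 16449304)))))), by decide +kernel⟩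

def k2_pm_022_b : ∃ t, chk3 f_pm_022_b t 3 3 1 = true :=
  ⟨(a (a (l 1) (b (a (b (a (l 16120632) (l 6474868039)) (l 1)) (b (a (l 16178432) (l 16206400)) (a (l 1) (l 16119408)))) (l 1))) (a (b (a (b (a (l 16233456) (l 16259824)) (a (l 16152176) (l 16183616))) (b (l 16297968) (l 16249512))) (a (l 1) (b (l 158409413015) (l 1)))) (b (b (a (l 16346824) (l 16393368)) (a (l 16284416) (l 16336480))) (a (b (l 16219464) (l 16148424)) (b (l 16279456) (l 16219296)))))), by decide +kernel⟩

theorem s3_pm_022_b : ∃ t, chk3 f_pm_022_b t 3 1 1 = true := ex3_b k1_pm_022_b k2_pm_022_b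

theorem s4_pm_022_b : ∃ t, chk3 f_pm_022_b t 1 1 1 = true := ex3_a k0_pm_022_b s3_pm_022_b

theorem c_pm_022_b : CertB 0 536870912 1239849684 370763052 649613803 48318383 3 eng mog cd0q0 cd3q2b pd2 true true false .pp 0 2 2
    ndB0q0 ndB3q2b pcB2 cut_pm_022_b Ext.none :=
  certB2 (fam := true) (s1 := true) (s2 := false) (a := 0) (b := 2) (c := 2) (cn := .pp) (n1 := ndB0q0) (n2 := ndB3q2b) (pc := pcB2) (cut := cut_pm_022_b) (xt := Ext.none) (P1 := 0) (W1 := 536870912) (P2 := 1239849684) (W2 := 370763052) (P3 := 649613803) (W3 := 48318383) (N0 := 3) (En := eng) (mo := mog) (C1 := cd0q0) (C2 := cd3q2b) (C3 := pd2)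
    rfl (fun _ => rfl) s4_pm_022_b

noncomputable def xt_pm_023_a : Ext := extD2 3 ⟨7, 3, 3, 10, 377, 200, 77, 100, 17, 50, 3, 16⟩ eng cd0q0 cd3q2a pd3 true true false .up 0 2 3 rfl ndB0q0 ndB3q2a pcB3

noncomputable def f_pm_023_a : ℕ → ℕ → ℕ → ℕ → Bool := onCell 1610612736 536870912 0 536870912 649613803 48318383
    (rowB 3 eng mog cd0q0 cd3q2a pd3 2 true true false .up 0 2 3 (qsf 0 536870912 0 536870912 3) ndB0q0 ndB3q2a pcB3 Cut.none xt_pm_023_a)

def k0_pm_023_a : ∃ t, chk3 f_pm_023_a t 1 1 1 = true :=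
  ⟨(a (b (a (a (b (a (l 16585952) (l 16581376)) (b (l 16597624) (a (l 16495896) (l 16499384)))) (b (a (l 16564576) (l 16582536)) (a (b (l 16541672) (l 16530840)) (l 16563520)))) (a (a (a (b (l 16607224) (l 16588752)) (b (l 16625648) (l 294305612135))) (a (b (l 16644624) (l 2)) (l 2))) (l 2))) (b (a (a (b (a (l 16466712) (l 16490248)) (a (l 16521208) (l 16476496))) (a (b (l 16519328) (l 16506616)) (b (l 16549648) (l 16540240)))) (l 2)) (a (b (a (a (b (l 16447168) (l 16441504)) (b (l 16467008) (l 16463272))) (a (l 240081546119) (l 2))) (a (b (a (a (b (l 16434048) (l 16431928)) (l 15669345239)) (l 236860268823)) (a (b (a (b (l 16430608) (a (l 16427648) (l 16463616))) (l 243302607511)) (a (a (b (c (l 140819229478830095) (l 140605924174790671)) (c (b (l 140816618138697743) (c (l 140865958735380495) (l 140761505105838095))) (b (l 140595959848353807) (l 140588194545991695)))) (b (l 140766246748454927) (l 2))) (l 2))) (l 2))) (l 2))) (l 2)))) (l 2)), by decide +kernel⟩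

theorem c_pm_023_a : CertB 0 536870912 0 536870912 649613803 48318383 3 eng mog cd0q0 cd3q2a pd3 true true false .up 0 2 3
    ndB0q0 ndB3q2a pcB3 Cut.none xt_pm_023_a :=
  certB2 (fam := true) (s1 := true) (s2 := false) (a := 0) (b := 2) (c := 3) (cn := .up) (n1 := ndB0q0) (n2 := ndB3q2a) (pc := pcB3) (cut := Cut.none) (xt := xt_pm_023_a) (P1 := 0) (W1 := 536870912) (P2 := 0) (W2 := 536870912) (P3 := 649613803) (W3 := 48318383) (N0 := 3) (En := eng) (mo := mog) (C1 := cd0q0) (C2 := cd3q2a) (C3 := pd3)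
    rfl (fun _ => rfl) k0_pm_023_a

noncomputable def f_pm_023_b : ℕ → ℕ → ℕ → ℕ → Bool := onCell 1610612736 536870912 1239849684 370763052 649613803 48318383
    (rowB 3 eng mog cd0q0 cd3q2b pd3 2 true true false .up 0 2 3 (qsf 0 536870912 1239849684 370763052 3) ndB0q0 ndB3q2b pcB3 Cut.none Ext.none)

def k0_pm_023_b : ∃ t, chk3 f_pm_023_b t 1 1 1 = true :=
  ⟨(b (a (a (a (b (b (a (b (l 16610104) (l 16607680)) (l 16625792)) (a (l 16589112) (l 16621448))) (b (a (l 16548000) (l 16588816)) (l 16593920))) (b (b (a (l 16633512) (l 16637200)) (a (l 16647912) (l 16668008))) (b (a (l 16626928) (l 16659328)) (l 16593808)))) (a (b (b (a (l 16638088) (l 16661592)) (a (l 16685504) (l 16702048))) (b (l 16696344) (l 16666320))) (b (b (l 16775016) (l 16727248)) (b (l 16731840) (l 16714232))))) (a (b (l 2) (a (b (l 16867616) (l 16732416)) (a (l 16810208) (l 2)))) (l 2))) (a (a (a (b (b (l 16446304) (l 16382728)) (b (l 16317584) (l 16253280))) (b (b (l 16531576) (l 16465656)) (b (l 16398976) (l 16332336))))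 (a (b (b (l 16618976) (l 16559872)) (b (l 16495912) (l 16432056))) (b (b (l 16728152) (l 16652744)) (b (l 16605432) (l 16552440))))) (a (a (b (a (l 16859840) (l 16726640)) (a (b (l 16684312) (l 16650464)) (l 16716248))) (b (a (l 16730112) (l 16731264)) (a (b (l 16741024) (l 4)) (l 4)))) (l 4)))), by decide +kernel⟩

theorem c_pm_023_b : CertB 0 536870912 1239849684 370763052 649613803 48318383 3 eng mog cd0q0 cd3q2b pd3 true true false .up 0 2 3
    ndB0q0 ndB3q2b pcB3 Cut.none Ext.none :=
  certB2 (fam := true) (s1 := true) (s2 := false) (a := 0) (b := 2) (c := 3) (cn := .up) (n1 := ndB0q0) (n2 := ndB3q2b) (pc := pcB3) (cut := Cut.none) (xt := Ext.none) (P1 := 0) (W1 := 536870912) (P2 := 1239849684) (W2 := 370763052) (P3 := 649613803) (W3 := 48318383) (N0 := 3) (En := eng) (mo := mog) (C1 := cd0q0) (C2 := cd3q2b) (C3 := pd3)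
    rfl (fun _ => rfl) k0_pm_023_b

noncomputable def f_pm_033 : ℕ → ℕ → ℕ → ℕ → Bool := onCell 1610612736 536870912 1610612736 536870912 649613803 48318383
    (rowB 3 eng mog cd0q0 cd3q3 pd3 2 true true false .pnn 0 3 3 (qsf 0 536870912 1610612736 536870912 3) ndB0q0 ndB3q3 pcB3 Cut.none Ext.none)

def k0_pm_033 : ∃ t, chk3 f_pm_033 t 1 1 1 = true :=
  ⟨(a (a (b (b (a (b (l 16141216) (l 368862485815)) (b (l 16217352) (l 16105368))) (a (l 1) (b (l 15975024) (l 1)))) (l 1)) (b (b (a (b (l 16315256) (l 16219672)) (b (l 16448288) (l 16363272))) (a (b (l 16131928) (l 16030296)) (a (l 16209016) (l 16263880)))) (b (a (l 1) (b (a (l 1) (l 16170296)) (l 1))) (l 1)))) (a (b (a (b (b (a (l 16548896) (l 16608536)) (a (l 16465008) (l 4))) (a (b (l 16386656) (l 4)) (l 4))) (l 4)) (l 4)) (l 4))), by decide +kernel⟩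

theorem c_pm_033 : CertB 0 536870912 1610612736 536870912 649613803 48318383 3 eng mog cd0q0 cd3q3 pd3 true true false .pnn 0 3 3
    ndB0q0 ndB3q3 pcB3 Cut.none Ext.none :=
  certB2 (fam := true) (s1 := true) (s2 := false) (a := 0) (b := 3) (c := 3) (cn := .pnn) (n1 := ndB0q0) (n2 := ndB3q3) (pc := pcB3) (cut := Cut.none) (xt := Ext.none) (P1 := 0) (W1 := 536870912) (P2 := 1610612736) (W2 := 536870912) (P3 := 649613803) (W3 := 48318383) (N0 := 3) (En := eng) (mo := mog) (C1 := cd0q0) (C2 := cd3q3) (C3 := pd3)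
    rfl (fun _ => rfl) k0_pm_033

noncomputable def cut_pm_101 : Cut := Cut.of [[⟨0, 1, 0, 67108864⟩, ⟨1, 0, 0, 67108864⟩, ⟨2, 1, 0, 67108864⟩]]

noncomputable def f_pm_101 : ℕ → ℕ → ℕ → ℕ → Bool := onCell 536870912 536870912 0 536870912 649613803 48318383
    (rowB 3 eng mog cd0q1 cd3q0 pd1 2 true true false .npn 1 0 1 (qsf 536870912 536870912 0 536870912 1) ndB0q1 ndB3q0 pcB1 cut_pm_101 Ext.none)

def k0_pm_101 : ∃ t, chk3 f_pm_101 t 1 1 1 = true :=
  ⟨(a (l 3) (b (a (l 3) (b (a (l 3) (b (a (l 3) (a (l 3) (b (l 6) (l 3)))) (l 3))) (l 3))) (l 3))), by decide +kernel⟩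

theorem c_pm_101 : CertB 536870912 536870912 0 536870912 649613803 48318383 3 eng mog cd0q1 cd3q0 pd1 true true false .npn 1 0 1
    ndB0q1 ndB3q0 pcB1 cut_pm_101 Ext.none :=
  certB2 (fam := true) (s1 := true) (s2 := false) (a := 1) (b := 0) (c := 1) (cn := .npn) (n1 := ndB0q1) (n2 := ndB3q0) (pc := pcB1) (cut := cut_pm_101) (xt := Ext.none) (P1 := 536870912) (W1 := 536870912) (P2 := 0) (W2 := 536870912) (P3 := 649613803) (W3 := 48318383) (N0 := 3) (En := eng) (mo := mog) (C1 := cd0q1) (C2 := cd3q0) (C3 := pd1)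
    rfl (fun _ => rfl) k0_pm_101

noncomputable def cut_pm_102 : Cut := Cut.of [[⟨0, 1, 0, 67108864⟩, ⟨1, 0, 0, 67108864⟩, ⟨2, 1, 0, 67108864⟩]]

noncomputable def f_pm_102 : ℕ → ℕ → ℕ → ℕ → Bool := onCell 536870912 536870912 1073741824 536870912 649613803 48318383
    (rowB 3 eng mog cd0q1 cd3q0 pd2 1 true true false .npp 1 0 2 (qsf 536870912 536870912 0 536870912 2) ndB0q1 ndB3q0 pcB2 cut_pm_102 Ext.none)

def k0_pm_102 : ∃ t, chk3 f_pm_102 t 2 4 1 = true :=
  ⟨(b (l 3) (a (b (l 3) (a (l 2) (a (b (b (l 3) (l 2)) (l 2)) (b (b (l 16624568) (b (l 16620192) (l 16617584))) (b (a (l 16614576) (l 16612848)) (l 16606808)))))) (b (a (b (l 3) (b (a (l 3) (l 372219152183)) (a (l 16642328) (b (l 16668840) (l 16661912))))) (b (b (l 3) (a (l 323363966663) (a (l 332490801159) (b (l 335175168775) (l 16737832))))) (b (a (b (l 171966331879) (a (l 16698360) (l 16714120))) (a (b (l 16716640) (l 16729936)) (b (l 16750152) (l 16744064)))) (a (b (l 16677872) (l 16692224)) (b (l 16730520) (l 16723208)))))) (b (a (b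 (a (a (l 16628648) (l 16634696)) (a (l 16644992) (l 16659112))) (a (a (l 16619984) (l 16624936)) (l 16640472))) (a (b (a (l 16675472) (l 16691208)) (l 16668864)) (b (a (l 16706376) (l 16718440)) (l 16698088)))) (a (a (b (l 16612384) (l 16601856)) (b (l 16629448) (l 16619936))) (a (l 16652624) (l 16679144))))))), by decide +kernel⟩

def k1_pm_102 : ∃ t, chk3 f_pm_102 t 6 8 1 = true :=
  ⟨(b (l 3) (a (b (l 3) (a (l 3) (b (l 3) (a (b (l 3) (l 240685986727)) (b (l 210084365287) (a (l 16802224) (l 16798480))))))) (b (a (l 3) (b (a (l 3) (b (l 3) (l 249812814807))) (a (b (l 222969380231) (a (l 16798024) (b (l 16803704) (l 16799088)))) (b (a (l 16825480) (b (l 16800936) (l 16796112))) (c (b (l 16833496) (l 16786656)) (l 16775104)))))) (b (b (a (a (l 3) (b (l 16801160) (l 16785920))) (a (a (l 16798904) (l 16792328)) (a (l 16787376) (l 16782112)))) (a (a (a (l 16814472) (l 16788208)) (a (l 16802760) (l 16796256))) (a (a (l 16790624) (l 16784744)) (l 16775272)))) (a (a (b (a (l 16803944) (l 16778008)) (a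 (l 16794712) (l 16791064))) (b (a (l 16794112) (l 16788488)) (l 16783416))) (a (b (l 16757424) (l 16771184)) (l 16763720))))))), by decide +kernel⟩

def k2_pm_102 : ∃ t, chk3 f_pm_102 t 14 8 1 = true :=
  ⟨(b (b (l 3) (b (a (l 3) (a (l 3) (b (l 3) (a (l 198810109847) (b (c (l 163913488071) (l 172503426023)) (l 67276720199)))))) (b (a (l 3) (a (a (l 167134746263) (b (l 16804240) (a (l 16801800) (l 16798480)))) (a (c (l 16815048) (c (l 16817728) (l 16791288))) (b (a (l 16813592) (l 16790512)) (l 16777824))))) (a (a (l 3) (l 149954890823)) (a (a (c (a (l 16821648) (l 16818608)) (b (l 121500645639) (l 16781144))) (b (a (l 16797976) (l 16794936)) (l 16783456))) (b (a (l 16780552) (l 16784680)) (a (l 16787208) (l 16781904)))))))) (b (a (b (a (b (l 243370359575) (c (a (l 213842525223) (l 16836752)) (a (l 229411690711) (l 16779960)))) (b (c (c (l 65666146615) (l 62981795447)) (a (l 108615734567) (l 16779072))) (b (a (l 16794544) (l 16791504)) (l 16773520)))) (a (b (a (b (l 16795240) (l 16791488)) (l 16768672))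 (a (l 16785480) (l 16780976))) (c (l 16796816) (l 16774152)))) (a (b (a (b (b (a (l 16796152) (l 16794688)) (l 16792032)) (l 16785200)) (b (b (l 16790064) (l 16787248)) (l 16781800))) (b (l 16775680) (l 16767344))) (b (l 16818088) (a (l 16765080) (l 16759392))))) (a (b (a (b (l 16773920) (l 16766440)) (l 16761816)) (a (l 16754000) (l 16745744))) (a (b (l 16754184) (l 16739496)) (l 16783664))))), by decide +kernel⟩

def k3_pm_102 : ∃ t, chk3 f_pm_102 t 15 8 1 = true :=
  ⟨(b (a (b (b (l 3) (a (b (l 3) (a (l 3) (l 191293881271))) (a (b (l 3) (b (l 6) (a (l 100562692375) (l 6)))) (l 6)))) (b (b (a (a (b (l 3) (c (l 163376606615) (l 171966546119))) (b (c (l 95730862311) (l 89288416951)) (a (l 16812080) (l 16788648)))) (a (b (a (a (l 16810024) (l 16788160)) (l 6)) (l 16804616)) (l 6))) (a (a (b (l 79624740999) (l 16810552)) (c (l 16804904) (l 16807016))) (c (l 16775032) (l 16797448)))) (a (b (a (l 16804784) (l 16778304)) (l 16795144)) (a (l 16789224) (l 16783520))))) (b (l 6) (a (b (l 6) (a (l 16760376)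 (l 6))) (l 6)))) (a (b (a (b (l 16784464) (l 16751472)) (b (a (l 16755840) (l 16755664)) (l 16749560))) (a (l 16744744) (l 16734576))) (a (b (a (l 16745056) (l 16758464)) (l 16761072)) (b (a (b (l 6) (l 16723776)) (l 6)) (a (l 16706656) (l 16697880)))))), by decide +kernel⟩

def k4_pm_102 : ∃ t, chk3 f_pm_102 t 3 9 1 = true :=
  ⟨(a (b (a (b (a (b (a (l 365239997879) (b (l 363092528343) (l 256792067303))) (a (b (l 308868510663) (l 16766776)) (b (l 16779344) (l 16772640)))) (b (a (b (l 16785968) (l 16787512)) (b (l 16791568) (l 16784712))) (a (b (l 16780784) (l 16772856)) (b (l 16776568) (l 16768392))))) (a (b (a (b (l 16760088) (l 16753144)) (b (l 16765048) (l 16757096))) (a (l 16741360) (l 16745200))) (b (a (l 16760584) (l 16756032)) (l 16742688)))) (b (a (b (a (b (l 16785464) (l 16777264)) (b (l 16775640) (l 16767760))) (a (l 16764984) (l 16755656))) (a (b (l 16759776) (l 16744392)) (l 16718984))) (a (b (l 16743968) (l 16728536)) (b (l 16723616) (l 16710600))))) (a (b (a (b (l 16728512) (l 16714184))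 (b (l 16727504) (l 16712616))) (a (l 16672600) (l 16692880))) (b (a (l 16706984) (l 16674664)) (a (l 16685800) (l 16711792))))) (a (b (a (b (a (l 16731440) (l 16725024)) (l 16791280)) (b (a (l 16723336) (l 16732736)) (l 16740376))) (b (a (a (l 16703280) (l 16709728)) (l 16702936)) (a (l 16701088) (l 16686528)))) (a (b (a (l 16779920) (b (l 16714112) (l 16693320))) (a (l 16677456) (l 16662816))) (b (a (b (l 16697632) (l 16676960)) (b (l 16700808) (l 16658272))) (a (b (l 16656464) (l 16636416)) (b (l 16637776) (l 16617784))))))), by decide +kernel⟩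

def k5_pm_102 : ∃ t, chk3 f_pm_102 t 1 5 1 = true :=
  ⟨(a (b (a (b (b (a (l 2) (b (a (l 2) (l 16599984)) (l 2))) (l 2)) (l 2)) (b (b (a (b (l 16600072) (l 16595016)) (b (l 16651496) (l 16642176))) (b (a (l 16611992) (l 16634928)) (b (a (l 16595368) (l 16632008)) (a (b (l 16606792) (l 16620168)) (b (l 16633208) (l 16637208)))))) (a (l 16652744) (l 16666952)))) (a (l 2) (a (l 16686424) (l 16691528)))) (a (b (b (b (a (a (l 16671064) (l 16674392)) (a (l 16676288) (a (l 16694312) (l 16696184)))) (b (a (l 16643248) (a (l 16689024) (l 16693528))) (b (a (l 16664216) (a (l 16695120) (l 16692160))) (a (b (l 16751352) (a (l 16667128) (l 16715240))) (a (l 16701920) (l 16693560)))))) (a (a (l 16689776) (l 16701336)) (a (l 16697352) (l 16683240)))) (a (a (l 16696504) (l 16692560)) (a (l 16679400) (l 16659296)))) (a (b (b (b (a (l 16689864) (l 16671200)) (b (a (l 16681288) (l 16660592)) (a (b (l 16677400) (l 16718152)) (b (l 16655776) (l 16800312))))) (a (l 16663064) (l 16806808))) (a (l 16635480) (l 16609688)))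 (b (b (b (a (l 16643568) (a (l 16618008) (l 16598608))) (b (a (l 16631896) (l 16595720)) (a (b (l 16626616) (b (l 16624304) (l 16623096))) (b (l 16589984) (b (l 16587488) (l 16586208)))))) (a (b (l 16615200) (l 16603456)) (b (l 16577696) (l 16566040)))) (a (b (l 16588704) (l 16572336)) (b (l 16594448) (l 16537488))))))), by decide +kernel⟩

def k6_pm_102 : ∃ t, chk3 f_pm_102 t 1 3 1 = true :=
  ⟨(a (a (l 2) (b (a (l 2) (b (l 16690792) (l 2))) (l 2))) (a (b (a (b (l 16787264) (l 16678768)) (b (l 16669560) (l 16640192))) (a (l 2) (b (l 16646816) (l 2)))) (b (a (b (a (l 16610792) (l 16584016)) (l 16795488)) (b (a (l 16554832) (l 16521600)) (b (l 16613656) (l 16525032)))) (a (b (l 16584672) (l 16594720)) (b (a (l 16536576) (l 16504112)) (a (l 16536400) (l 16502728))))))), by decide +kernel⟩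

theorem s7_pm_102 : ∃ t, chk3 f_pm_102 t 7 8 1 = true := ex3_a k2_pm_102 k3_pm_102

theorem s8_pm_102 : ∃ t, chk3 f_pm_102 t 3 8 1 = true := ex3_a k1_pm_102 s7_pm_102

theorem s9_pm_102 : ∃ t, chk3 f_pm_102 t 3 4 1 = true := ex3_b s8_pm_102 k4_pm_102

theorem s10_pm_102 : ∃ t, chk3 f_pm_102 t 1 4 1 = true := ex3_a k0_pm_102 s9_pm_102

theorem s11_pm_102 : ∃ t, chk3 f_pm_102 t 1 2 1 = true := ex3_b s10_pm_102 k5_pm_102

theorem s12_pm_102 : ∃ t, chk3 f_pm_102 t 1 1 1 = true := ex3_b s11_pm_102 k6_pm_102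

theorem c_pm_102 : CertB 536870912 536870912 0 536870912 649613803 48318383 3 eng mog cd0q1 cd3q0 pd2 true true false .npp 1 0 2
    ndB0q1 ndB3q0 pcB2 cut_pm_102 Ext.none :=
  certB1 (fam := true) (s1 := true) (s2 := false) (a := 1) (b := 0) (c := 2) (cn := .npp) (n1 := ndB0q1) (n2 := ndB3q0) (pc := pcB2) (cut := cut_pm_102) (xt := Ext.none) (P1 := 536870912) (W1 := 536870912) (P2 := 0) (W2 := 536870912) (P3 := 649613803) (W3 := 48318383) (N0 := 3) (En := eng) (mo := mog) (C1 := cd0q1) (C2 := cd3q0) (C3 := pd2)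
    rfl (fun _ => rfl) s12_pm_102

noncomputable def f_pm_112 : ℕ → ℕ → ℕ → ℕ → Bool := onCell 536870912 536870912 1073741824 536870912 649613803 48318383
    (rowB 3 eng mog cd0q1 cd3q1 pd2 1 true true false .dn 1 1 2 (qsf 536870912 536870912 536870912 536870912 2) ndB0q1 ndB3q1 pcB2 Cut.none Ext.none)

def k0_pm_112 : ∃ t, chk3 f_pm_112 t 1 2 1 = true :=
  ⟨(b (a (b (l 3) (a (b (l 3) (b (a (l 3) (b (a (l 3) (l 75731743719)) (a (a (l 16502192) (l 16519240)) (b (l 16510624) (l 16523904))))) (a (b (a (l 16517728) (b (l 16525112) (l 16535408))) (a (b (l 16549200) (l 16555464)) (b (l 16543448) (l 16549376)))) (b (a (a (l 16525584) (l 16543648)) (a (l 16541064) (l 16520992))) (a (l 16540544) (l 16537776)))))) (b (l 1) (a (b (l 1) (a (b (l 1) (l 16538168)) (l 1))) (l 1))))) (l 1)) (a (b (a (b (b (a (b (a (b (l 16559536) (l 16562304)) (l 16555968)) (a (l 16564328) (l 16564264))) (b (a (l 16553080) (l 16553184)) (l 16567184))) (b (a (b (l 16569584) (l 16573056)) (b (l 16578032) (l 16583928))) (b (a (l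 16579472) (l 16589840)) (a (b (l 16628784) (b (b (b (l 16591480) (a (l 16591520) (l 16596304))) (l 16594592)) (l 16594864))) (b (l 16594088) (l 16661440)))))) (a (a (l 16594608) (l 16601656)) (l 16607816))) (a (b (b (a (b (l 16555424) (l 16572184)) (l 1)) (b (a (l 16584520) (l 1)) (b (l 16587488) (b (l 16591840) (a (l 16598696) (l 16597984)))))) (l 16611736)) (b (l 1) (l 16611448)))) (a (a (a (l 16584008) (l 16598568)) (l 16613464)) (a (l 16648328) (l 16655480)))) (a (b (l 1) (a (l 275448373111) (l 1))) (l 1)))), by decide +kernel⟩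

def k1_pm_112 : ∃ t, chk3 f_pm_112 t 1 3 1 = true :=
  ⟨(a (a (b (a (b (b (l 16719064) (a (l 16533968) (l 16562480))) (a (b (l 16503376) (l 16473872)) (b (l 16537928) (l 16512288)))) (b (b (l 16603512) (l 16589280)) (a (l 16554376) (l 16578192)))) (a (b (a (l 16453368) (b (l 16487520) (l 16464424))) (a (a (l 16368928) (l 16392512)) (c (l 16468080) (l 16395672)))) (b (a (b (b (l 16530872) (l 16521120)) (a (l 16497048) (l 16517104))) (b (l 16559816) (l 16546400))) (a (b (a (l 16478488) (l 16502112)) (c (l 16512032) (l 16435920))) (b (l 16597888) (l 16630688)))))) (b (a (b (l 16726832) (a (l 16599024) (l 16617528))) (b (l 16640568) (a (l 16633800) (l 16647008)))) (a (b (a (b (l 16590112) (l 16583304)) (l 16615696)) (a (b (a (l 16567000) (l 16587944)) (a (l 16562728) (l 16586496))) (b (l 16617200) (l 16704872)))) (b (a (l 16640008) (l 16659944)) (a (l 16656536) (l 16688504)))))) (a (b (a (b (l 16684576) (l 16674752)) (b (l 270079759463) (l 16633600))) (a (b (l 16676784) (a (l 16714712) (l 16731056)))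 (b (l 16662624) (l 16723536)))) (b (a (b (l 1) (l 281890928071)) (l 1)) (a (b (l 16621496) (l 16666064)) (b (l 287796486119) (l 16606616)))))), by decide +kernel⟩

theorem s2_pm_112 : ∃ t, chk3 f_pm_112 t 1 1 1 = true := ex3_b k0_pm_112 k1_pm_112

theorem c_pm_112 : CertB 536870912 536870912 536870912 536870912 649613803 48318383 3 eng mog cd0q1 cd3q1 pd2 true true false .dn 1 1 2
    ndB0q1 ndB3q1 pcB2 Cut.none Ext.none :=
  certB1 (fam := true) (s1 := true) (s2 := false) (a := 1) (b := 1) (c := 2) (cn := .dn) (n1 := ndB0q1) (n2 := ndB3q1) (pc := pcB2) (cut := Cut.none) (xt := Ext.none) (P1 := 536870912) (W1 := 536870912) (P2 := 536870912) (W2 := 536870912) (P3 := 649613803) (W3 := 48318383) (N0 := 3) (En := eng) (mo := mog) (C1 := cd0q1) (C2 := cd3q1) (C3 := pd2)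
    rfl (fun _ => rfl) s2_pm_112

noncomputable def f_pm_113 : ℕ → ℕ → ℕ → ℕ → Bool := onCell 536870912 536870912 1610612736 536870912 649613803 48318383
    (rowB 3 eng mog cd0q1 cd3q1 pd3 1 true true false .nn 1 1 3 (qsf 536870912 536870912 536870912 536870912 3) ndB0q1 ndB3q1 pcB3 Cut.none Ext.none)

def k0_pm_113 : ∃ t, chk3 f_pm_113 t 2 1 1 = true :=
  ⟨(b (b (a (a (a (b (l 16281248) (l 2)) (b (l 16346232) (l 16290168))) (a (b (l 16413664) (l 16367640)) (b (b (l 16487232) (l 16472752)) (l 16449576)))) (a (b (a (b (l 16542920) (l 16539008)) (b (l 16595480) (l 16601248))) (a (b (l 16535176) (l 16530296)) (c (l 16633176) (l 16567400)))) (b (a (b (l 16645312) (l 16659328)) (b (l 16693168) (l 16715656))) (a (b (l 16662128) (l 16644304)) (b (l 16700048) (l 16683432)))))) (a (b (a (l 2) (a (l 2) (l 16419864))) (l 2)) (b (a (a (b (l 16506584) (l 16481672)) (b (l 16573008) (l 16543264))) (b (a (l 16625960) (b (l 16671552) (l 16662688))) (a (l 16594016) (l 16614672)))) (b (a (a (l 2) (l 16641328))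 (a (l 16558888) (c (l 16635688) (l 16555704)))) (a (l 2) (a (l 16529520) (c (l 16609352) (l 16509224)))))))) (a (l 2) (b (b (a (l 2) (b (a (l 2) (c (l 16586960) (l 16470560))) (l 2))) (l 2)) (l 2)))), by decide +kernel⟩

def k1_pm_113 : ∃ t, chk3 f_pm_113 t 3 1 1 = true :=
  ⟨(b (b (a (b (a (a (l 16755752) (l 16805016)) (l 16850536)) (a (a (b (l 16738792) (l 16718408)) (b (l 16793984) (l 16768560))) (b (l 16907120) (l 16872920)))) (b (a (l 16835400) (l 16778216)) (a (b (l 17003456) (l 17018648)) (b (l 16957600) (l 17106136))))) (b (a (a (b (b (a (l 16705040) (l 16751104)) (a (l 16695448) (l 16739688))) (b (a (l 16683872) (l 16733368)) (l 16673296))) (b (b (l 16848504) (a (l 16797024) (l 16864296))) (b (a (l 16793688) (l 16863544)) (l 16818200)))) (b (a (b (l 16983272) (a (l 16929136) (l 16988200))) (b (l 17097832) (l 17067312))) (a (b (a (l 16931216) (l 16985256)) (l 16923280)) (a (l 17018048) (l 17051936))))) (a (a (a (b (l 16640376) (l 16606136)) (b (l 16694368) (l 16662400))) (a (l 16593208)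 (a (l 16788536) (l 16820440)))) (a (a (l 16693176) (l 16905304)) (b (l 16983944) (l 16940016)))))) (a (b (b (a (a (b (l 16596328) (l 16556312)) (b (l 16634008) (l 16613544))) (b (a (l 16696424) (l 16758008)) (a (l 16673464) (l 16731760)))) (a (a (l 2) (c (l 16640136) (l 191763618391))) (a (b (l 16653896) (l 16646016)) (b (l 16710736) (l 16702336))))) (b (a (l 2) (b (a (l 2) (l 16699344)) (l 2))) (l 2))) (a (a (b (b (l 16796128) (b (l 16763344) (l 16751136))) (b (b (l 16740096) (l 152035540279)) (l 2))) (b (b (l 16734440) (b (l 16802576) (l 16784568))) (b (b (l 16774448) (l 16755256)) (b (l 16842472) (l 2))))) (b (b (a (l 16766192) (l 16900800)) (b (l 16743296) (l 16715392))) (b (b (l 16582600) (l 16705904)) (b (b (l 16745640) (l 4)) (l 4))))))), by decide +kernel⟩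

theorem s2_pm_113 : ∃ t, chk3 f_pm_113 t 1 1 1 = true := ex3_a k0_pm_113 k1_pm_113

theorem c_pm_113 : CertB 536870912 536870912 536870912 536870912 649613803 48318383 3 eng mog cd0q1 cd3q1 pd3 true true false .nn 1 1 3
    ndB0q1 ndB3q1 pcB3 Cut.none Ext.none :=
  certB1 (fam := true) (s1 := true) (s2 := false) (a := 1) (b := 1) (c := 3) (cn := .nn) (n1 := ndB0q1) (n2 := ndB3q1) (pc := pcB3) (cut := Cut.none) (xt := Ext.none) (P1 := 536870912) (W1 := 536870912) (P2 := 536870912) (W2 := 536870912) (P3 := 649613803) (W3 := 48318383) (N0 := 3) (En := eng) (mo := mog) (C1 := cd0q1) (C2 := cd3q1) (C3 := pd3)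
    rfl (fun _ => rfl) s2_pm_113

end Pool.Agent.Strip051.G.I6050_6500.Tab.C.BA03

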