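import Pool.Agent.Strip051.G.I6050_6500.Tab
import Pool.Agent.Strip051.PB.ExtD2

/-! # Certificates B7 (generated) -/

set_option linter.all false
set_option maxRecDepth 100000

namespace Pool.Agent.Strip051.G.I6050_6500.Tab.C.BA03

open Pool.Agent.Strip051.PB Pool.Agent.Strip051.PB.T
open Pool.Agent.Strip051.G.I6050_6500.Tab

noncomputable def cut_pm_123_a : Cut := Cut.of [[⟨0, 1, 0, 67108864⟩, ⟨1, 1, 0, 67108864⟩, ⟨2, 2, 0, 16777216⟩], [⟨0, 0, 1, 20971520⟩, ⟨1, 1, 0, 33554432⟩, ⟨2, 1, 1, 20971520⟩]]

noncomputable def xt_pm_123_a : Ext := extD2 3 ⟨7, 3, 3, 10, 377, 200, 77, 100, 17, 50, 3, 16⟩ eng cd0q1 cd3q2a pd3 true true false .npn 1 2 3 rfl ndB0q1 ndB3q2a pcB3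

noncomputable def f_pm_123_a : ℕ → ℕ → ℕ → ℕ → Bool := onCell 536870912 536870912 0 536870912 649613803 48318383
    (rowB 3 eng mog cd0q1 cd3q2a pd3 0 true true false .npn 1 2 3 (qsf 536870912 536870912 0 536870912 3) ndB0q1 ndB3q2a pcB3 cut_pm_123_a xt_pm_123_a)

def k0_pm_123_a : ∃ t, chk3 f_pm_123_a t 2 2 1 = true :=
  ⟨(a (a (b (a (b (l 16660472) (a (l 16626168) (l 16647112))) (l 16692032)) (b (a (a (l 16608656) (b (l 16626336) (l 16614560))) (a (l 16641472) (l 16666952))) (a (a (b (l 16593080) (l 16578720)) (b (l 16607808) (l 16662048))) (b (a (l 16616368) (l 16641088)) (a (a (l 16606232) (l 16605488)) (l 16599448)))))) (b (a (l 16725488) (l 16748432)) (b (l 16716224) (l 16693224)))) (a (b (b (l 16768496) (l 16764096)) (b (a (l 16751592) (l 16762928)) (a (l 16741296) (l 16756360)))) (b (a (b (l 16771416) (l 16764592)) (b (a (l 16769672) (l 16771840)) (a (l 16760912) (l 16761536)))) (a (b (l 16762488) (l 16760112)) (b (a (l 16758208) (l 16755176)) (b (l 16755848) (l 16735088))))))), by decide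 +kernel⟩

def k1_pm_123_a : ∃ t, chk3 f_pm_123_a t 4 6 1 = true :=
  ⟨(a (b (a (b (l 16573616) (l 16555816)) (b (a (b (l 16603872) (l 16601272)) (c (l 16622656) (l 16587536))) (b (a (a (l 16589928) (l 16602368)) (c (l 16614464) (l 16588224))) (a (l 16585192) (l 16601432))))) (a (a (l 16562560) (b (l 16546616) (l 16528616))) (b (a (l 16568464) (c (l 16599496) (c (l 16587552) (l 16578192)))) (l 16558464)))) (b (a (a (b (l 16626496) (c (l 16627312) (b (l 16586032) (l 16580056)))) (l 16643528)) (l 16682304)) (a (b (a (b (l 16600472) (a (l 16603064) (l 16601360))) (a (a (l 16603560) (l 16608624)) (l 16619280))) (a (b (l 16599544) (a (l 16585432) (l 16599368))) (b (b (l 16605392) (l 16604928)) (a (l 16606192) (l 16606408))))) (b (l 16655496) (a (b (l 16627688) (a (l 16611976) (l 16625720))) (l 16652536)))))), by decide +kernel⟩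

def k2_pm_123_a : ∃ t, chk3 f_pm_123_a t 8 14 1 = true :=
  ⟨(a (b (l 16499232) (a (l 16470744) (l 16488792))) (b (a (l 16527856) (l 16548256)) (a (l 16508344) (l 16528784)))), by decide +kernel⟩

def k3_pm_123_a : ∃ t, chk3 f_pm_123_a t 8 15 1 = true :=
  ⟨(b (a (a (l 16494592) (l 141489175718363151)) (a (b (l 16492424) (l 16481576)) (b (l 16513936) (l 16545000)))) (b (a (a (c (l 140959211082301455) (l 140744256507084815)) (c (l 141098986529980431) (l 140862454031302671))) (a (c (l 141268105201975311) (l 141005528012816399)) (c (l 141464024477253647) (l 141171141989056527)))) (a (a (c (b (l 140899562564698127) (a (b (l 140842456667602959) (c (l 140874960988880911) (l 140769820164276239))) (c (a (l 140927531400331279) (l 140958730049994767)) (l 140834004169162767)))) (b (l 140675811895279631) (b (l 140641520869916687) (a (l 140595547531362319) (l 140823421325295631))))) (c (b (l 141031710148657167) (a (b (l 140963609132449807) (c (a (l 140981613641433103) (l 141016316985327631)) (l 140884100679057423)))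 (b (l 141035283563315215) (b (l 141018378568613903) (c (a (l 141047584354844687) (l 141085929832005647)) (l 140946016941752335)))))) (b (l 140788099542941711) (a (a (l 140694915913957391) (l 140723503222095887)) (c (l 140836065750745103) (l 140701169385373711)))))) (b (a (c (l 141192376323096591) (l 140924576453083151)) (c (l 141378949747490831) (l 141083043602055183))) (a (c (a (b (l 141113761224212495) (b (l 141276007905132559) (c (c (a (l 141155954996396047) (l 141198217484910607)) (l 141115479213326351)) (c (l 141052188558688271) (l 140987042477981711))))) (b (l 141198286200799247) (c (b (l 141244878019739663) (c (a (l 141242129241309199) (b (l 141290782642716687) (l 141374689122533391))) (a (l 141178220110692367) (l 141221994428022799)))) (a (l 141085311353241615) (l 141126749207527439))))) (a (c (l 141085242588545039) (l 140764803634003983)) (b (l 140920934320898063) (c (l 140966083029925903) (l 140819435629887503))))) (c (a (b (l 141289270810017807) (c (b (l 141338405250564111) (c (b (l 141362525794238479)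 (a (c (l 141348438298705935) (l 141315040623820815)) (a (l 141368366951464975) (l 141393243408269327)))) (a (l 141267486732730383) (l 141314628305354767)))) (a (l 141169767610204175) (l 141304457795321871)))) (b (l 141387127368826895) (c (b (l 141438941870014479) (c (b (l 141464505523208207) (a (a (l 141418600901525519) (l 141489519408005135)) (c (a (l 141488763505410063) (l 141515838986059791)) (l 141465948632350735)))) (a (l 141363556584865807) (l 141414271571279887)))) (b (l 141291538552094735) (a (l 141253674111746063) (l 141301502879170575)))))) (a (b (l 140998381188562959) (c (l 141045522763251727) (l 140892690608111631))) (c (a (l 141123381948088335) (l 141167980898975759)) (l 140986492714516495))))))))), by decide +kernel⟩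

def k4_pm_123_a : ∃ t, chk3 f_pm_123_a t 9 14 1 = true :=
  ⟨(a (b (a (l 16573728) (b (c (l 16617544) (l 16588928)) (a (l 16589464) (l 16604232)))) (a (l 16551160) (l 16578776))) (b (a (a (b (l 16610176) (l 16611904)) (b (l 16617104) (l 16614128))) (b (l 16639048) (a (l 16622464) (l 16636744)))) (a (a (b (l 16608432) (l 16596504)) (b (l 16616272) (b (l 16614824) (l 16610720)))) (b (c (l 16623056) (l 16606432)) (a (b (l 16621080) (l 16620888)) (l 16625896)))))), by decide +kernel⟩

def k5_pm_123_a : ∃ t, chk3 f_pm_123_a t 36 15 1 = true :=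
  ⟨(b (b (l 16535912) (l 141808102928351247)) (a (b (l 141830917760532495) (b (c (l 141537416899788815) (l 141217321490759695)) (c (b (l 141492130755231759) (c (b (l 141546968914493455) (a (c (c (a (l 141546900197261327) (l 141575006470357007)) (l 141523535568191503)) (l 141466841984073743)) (c (c (a (l 141603593779937295) (l 141632730845462543)) (l 141579610675363855)) (l 141566279080542223)))) (c (a (l 141397297853972495) (l 141449799547174927)) (l 141434200197840911)))) (c (a (l 141214160398286863) (l 141261989165514767)) (l 141071567446179855))))) (b (b (l 16523880) (l 141543807805718543)) (b (c (l 141651216381575183) (l 141314353414848527)) (c (b (l 141604899444654095) (c (b (l 141662967420485647) (a (c (c (a (l 141662348947472399) (l 141692448085966863)) (l 141637747367395343)) (l 141600226516221967)) (b (l 141681384245428239) (b (l 141675405649723407) (c (a (l 141697052291760143) (l 141727907344678927)) (l 141630256941056015)))))) (a (a (l 141449662107107343) (l 141476806307135503)) (a (l 141504431543631887)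 (l 141532606536073231))))) (b (l 141266593368752143) (c (a (l 141295867876212751) (l 141346789020794895)) (l 141146609132683279)))))))), by decide +kernel⟩

def k6_pm_123_a : ∃ t, chk3 f_pm_123_a t 37 15 1 = true :=
  ⟨(b (b (l 16561248) (l 141835041013678095)) (b (b (l 141752027869151247) (a (l 141643176193818639) (l 141752646346752015))) (b (a (c (l 141761442450128911) (l 141412141253918735)) (l 141876135234994191)) (a (c (a (b (l 141693616311402511) (b (l 141670182964969487) (c (b (l 141743231790202895) (c (a (l 141761305018810383) (l 141793328303161359)) (l 141692654241644559))) (c (l 141610878041145359) (l 141523947879038991))))) (b (l 141750172454879247) (b (c (l 141817792440549391) (l 141641320774926351)) (c (b (a (l 141791747752951823) (l 141823564878315535)) (a (a (a (a (l 141768658003476495) (l 141772781173096463)) (l 141779172085973007)) (l 141882182584680463)) (b (l 141818617074974735) (a (l 141897369592725519) (l 141913037637189647))))) (b (l 141630463095357455) (a (l 141607923101794319)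 (l 141637953520402447))))))) (b (a (l 141342322250252303) (l 141391456688160783)) (a (c (l 141399565591756815) (l 141218833319772175)) (c (a (l 141439903934464015) (l 141465948622553103)) (l 141267280562634767))))) (a (b (l 141805835194908687) (c (b (l 141787280982081551) (b (l 141957567843418127) (c (c (a (l 141891047422836751) (l 141921352719384591)) (l 141906234405584911)) (l 141859436404031503)))) (c (l 141504156661055503) (l 141314353415962639)))) (b (l 141861497984581647) (c (b (l 141846517185314831) (a (c (c (c (l 14) (l 141932760154226703)) (l 141864178097291279)) (l 141725227276992527)) (c (c (l 14) (l 141985055664259087)) (l 141934546810208271)))) (c (l 141737321858629647) (l 141363350415032335))))))))), by decide +kernel⟩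

def k7_pm_123_a : ∃ t, chk3 f_pm_123_a t 19 30 1 = true :=
  ⟨(a (b (l 16592080) (l 142092670391648271)) (b (c (a (l 16630424) (l 16620272)) (a (l 142305769524002831) (l 142423898332217359))) (a (l 16605368) (b (l 142512340322566159) (l 16617120))))), by decide +kernel⟩

def k8_pm_123_a : ∃ t, chk3 f_pm_123_a t 19 31 1 = true :=
  ⟨(b (b (a (l 141999486763089935) (l 142304601309691919)) (a (l 142119951994126351) (a (l 142154861538115599) (l 142315046674825231)))) (b (a (a (c (l 142001754517962767) (l 141623728574300175)) (l 142126068031258639)) (a (b (l 142105795822223375) (l 142073703820361743)) (b (l 142265225044885519) (l 142230727860928527)))) (a (b (a (c (l 141961347457613839) (l 141575006455480335)) (c (l 142098717723983887) (l 141695746605006863))) (a (c (a (b (l 141908708326670351) (b (l 142078651633532943) (c (c (l 14) (b (l 141940869051760655) (a (l 141921490154815503) (l 142043810831106063)))) (a (l 141780821347237903) (l 141901561475235855))))) (b (l 141973923125608463) (c (l 14) (b (l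 141866102238035983) (c (a (l 141891665891344399) (l 141924376370053135)) (l 141899637327937551)))))) (b (l 141730793504325647) (c (a (l 141605380475322383) (b (l 141667915214094351) (l 141840126221205519))) (a (l 141406712415862799) (l 141461000815738895))))) (c (c (l 14) (b (l 141977496535793679) (c (a (a (a (l 141952963679027215) (l 14)) (l 14)) (l 14)) (a (a (l 141861635469557775) (a (l 141886443206557711) (l 141903210762862607))) (c (l 14) (a (l 141903142042599439) (l 141937707947540495))))))) (b (c (l 141773811952582671) (l 141565660603351055)) (c (a (a (l 141709834105110543) (a (l 141733404891267087) (l 141749416533147663))) (b (l 141794290361974799) (a (l 141769620064288783) (l 141982856608448527)))) (a (l 141518244153704463) (l 141578442429775887))))))) (a (c (l 14) (b (l 141828993701838863) (a (b (l 141768039512621071) (b (l 141934959118991375) (c (c (a (l 141889810458902543) (l 141925063558758415)) (l 141800131517890575)) (l 141637197596540943)))) (b (l 141837240041963535) (a (c (c (a (l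 141956262208356367) (l 14)) (l 141856618940891151)) (l 141691348556857359)) (c (c (l 14) (l 141892421796675599)) (l 141725433425346575))))))) (b (c (l 142220557418971151) (l 141975503660351503)) (a (c (l 14) (b (l 141909876545847311) (c (c (l 14) (c (l 14) (a (l 141901149171597327) (l 141938395136671759)))) (b (l 141782882921218063) (a (l 141755532563415055) (l 141971380448215055)))))) (b (c (l 142237462414032911) (l 141985949024256015)) (c (a (l 14) (c (c (c (l 142594322694455439) (l 14)) (l 14)) (l 14))) (c (l 14) (b (l 141856275339493391) (c (a (l 141885687283941391) (l 141923689163423759)) (l 141787968162922511)))))))))))), by decide +kernel⟩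

def k9_pm_123_a : ∃ t, chk3 f_pm_123_a t 5 6 1 = true :=
  ⟨(a (b (a (l 16723248) (l 16748936)) (a (b (l 16702912) (l 16690432)) (b (l 16736768) (l 16727832)))) (b (a (l 16718856) (b (l 16758328) (l 16741256))) (a (b (l 16756264) (l 16750648)) (b (c (l 16760432) (l 16771416)) (c (l 16759592) (l 16771944)))))), by decide +kernel⟩

def k10_pm_123_a : ∃ t, chk3 f_pm_123_a t 10 14 1 = true :=
  ⟨(a (b (l 16676576) (a (b (l 16650704) (a (b (l 16636128) (l 16612336)) (l 16649232))) (l 16653880))) (b (l 16719176) (a (l 16678064) (l 16698216)))), by decide +kernel⟩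

def k11_pm_123_a : ∃ t, chk3 f_pm_123_a t 20 30 1 = true :=
  ⟨(b (b (a (a (l 16632304) (l 16621352)) (l 16664576)) (a (a (l 16611152) (l 16618648)) (a (l 16631264) (l 16667160)))) (b (a (a (l 142626483393167375) (l 16617664)) (a (l 142647648983564303) (l 16662640))) (a (a (a (l 142560512686194703) (l 142439841295384591)) (l 142512821348941839)) (a (c (l 142966232553472143) (l 16606624)) (c (a (l 16672176) (l 16678256)) (l 16619536)))))), by decide +kernel⟩

def k12_pm_123_a : ∃ t, chk3 f_pm_123_a t 40 31 1 = true :=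
  ⟨(a (b (b (a (l 16601232) (l 142570408294334479)) (l 142287765069856783)) (c (b (l 142225367813455887) (b (l 142365967857369103) (c (b (l 142261857867694223) (a (b (l 142217533797793935) (c (a (l 142602637741097103) (l 142637753410617487)) (l 14))) (b (l 142647923892895887) (a (c (l 142672456752464015) (a (l 142567728247980175) (l 142585320437121167))) (c (l 142706747777384591) (l 142611571271106703)))))) (l 14)))) (c (l 14) (c (l 14) (b (l 142027249431920655) (b (l 141961210001850383) (b (l 141929255438925839) (a (a (l 141849334669737999) (a (l 141878265576144911) (l 141897850631553039))) (a (a (l 141917710564900879) (l 141937776656744463)) (l 14)))))))))) (b (a (b (l 142453447713046543) (b (l 142414964800667663) (l 142562780433121295))) (b (l 142506774036054031) (b (l 142477499535409167) (l 142451935886475279)))) (b (a (l 142333669647269903) (a (l 142387683208511503) (b (l 142439360220839951) (l 142587175853293583)))) (c (b (l 142325629549166735) (a (b (l 142271684751163535) (c (b (l 142716368503750799)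 (c (l 142757462760095887) (a (l 142646205904191631) (l 142680359490125967)))) (c (a (b (l 142557420321046671) (l 14)) (c (l 142612670790992015) (l 14))) (l 14)))) (b (l 142339991923032207) (b (c (l 142783163846836367) (l 142236843967414415)) (c (a (l 142760829991764111) (l 142793815367843983)) (c (a (l 142620161203814543) (l 142654246080970895)) (l 14))))))) (l 14))))), by decide +kernel⟩

def k13_pm_123_a : ∃ t, chk3 f_pm_123_a t 41 62 1 = true :=
  ⟨(a (b (c (l 142933384639758479) (l 142408505203687439)) (a (l 142522167203348495) (b (l 142765228045762575) (l 142386927238316047)))) (c (b (a (l 143014817233862799) (l 143075977579151503)) (b (l 143017909612265615) (l 143000592302030991))) (b (l 142518662500958223) (b (l 142485814629580815) (l 142471795855065103))))), by decide +kernel⟩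

def k14_pm_123_a : ∃ t, chk3 f_pm_123_a t 82 63 1 = true :=
  ⟨(b (a (b (c (l 142837039919890575) (l 142315115379605519)) (b (c (l 142819035414478991) (l 142291269717590031)) (a (l 142614113893122063) (l 142288246054617103)))) (b (l 142366036514717711) (a (c (l 142859786071523471) (l 142331608057610255)) (l 142357034262577167)))) (c (a (b (l 142786462377853071) (a (b (l 142750384646881423) (c (l 142829343343411343) (c (l 142691285885304975) (c (l 142621466882277519) (l 14))))) (b (l 142783370001498255) (c (l 142861572783636623) (c (l 142724546117877903) (a (l 142623597174915215) (l 142640502179872911))))))) (b (c (b (l 142943555132375183) (l 142932216417190031)) (b (l 142770107136082063) (a (l 142740351597854863) (l 142772649757573263)))) (b (a (l 142815874319696015) (c (l 142936408306434191) (a (l 142750659521560719) (l 142766877320904847)))) (c (b (l 142912081607737487) (l 142906309170921615)) (b (l 142731692942966927) (c (l 142770382016970895) (a (l 142661942660464783) (l 142695134173528207))))))))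 (c (a (b (l 142516807094681743) (b (l 142490968567431311) (l 14))) (b (b (a (l 142577348964139151) (l 142609234806882447)) (l 142397097734029455)) (c (b (a (l 142589237437841551) (a (l 142614801087660175) (l 142631499923439759))) (b (l 142593979082834063) (c (a (l 142592192377061519) (l 142625864926560399)) (l 14)))) (l 14)))) (l 14)))), by decide +kernel⟩

def k15_pm_123_a : ∃ t, chk3 f_pm_123_a t 166 63 1 = true :=
  ⟨(b (c (b (l 142954275367583887) (l 142934071838802063)) (l 142417576137293839)) (b (c (c (l 142998462004101263) (l 142825288885698703)) (b (l 142385896454127631) (l 142371190483943439))) (c (c (a (b (l 142967125917892751) (b (l 142958673421107343) (c (l 142997293775814799) (a (l 142900605451567247) (l 142916204775506063))))) (b (l 142997362492932239) (c (l 143030210410791055) (l 142942318181105807)))) (a (b (b (l 142794021518852239) (l 142787287009165455)) (c (b (l 142825288888287375) (a (l 142810651637366927) (a (l 142822608817668239) (l 142830511569617039)))) (b (a (l 142727157455110287)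 (l 142743306534961295)) (a (b (l 142721591176659087) (l 142717880324358287)) (b (l 142737808976003215) (a (a (l 142728050808684687) (l 142732105258533007)) (l 142738152573534351))))))) (b (l 142821852911878287) (b (l 142812026025296015) (c (l 142850165343404175) (c (l 142782682802995343) (l 142737396658323599))))))) (c (c (b (a (l 142655895341940879) (l 142687781184684175)) (a (b (a (b (l 142638028275089551) (l 142633973825339535)) (l 142652390648283279)) (a (b (l 142629850656112783) (l 142625796206346383)) (b (a (l 142642357603057807) (l 142650535222214799)) (a (a (l 142636172849152143) (b (l 142641326810792079) (c (l 142662354975146127) (l 142616175477211279)))) (c (l 142669501801955471) (c (l 142635004617474191) (l 14))))))) (b (l 142676717347274895) (a (c (l 142683726736081039) (l 142637890835579023)) (a (l 142673143934042255) (l 142681252833722511)))))) (c (b (a (l 142587794326405263) (l 142620023766597775)) (a (l 14) (b (l 142608272734290063) (b (l 142602156699926671) (a (l 14) (l 142606348588826767))))))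 (l 14))) (l 14))))), by decide +kernel⟩

def k16_pm_123_a : ∃ t, chk3 f_pm_123_a t 167 63 1 = true :=
  ⟨(b (b (l 142478049281032335) (c (l 142991933648273551) (l 142283298330984591))) (b (c (c (l 143057217166950543) (l 142885212279832719)) (b (l 142266255898493071) (l 142253474009612431))) (b (c (c (l 143041961441099919) (c (l 142911738004766863) (l 142823777055932559))) (c (c (l 142734922753917071) (l 142645106379227279)) (l 142328515679060111))) (c (c (c (l 143074809358958735) (b (l 142990559262081167) (l 142984992983711887))) (a (c (l 142884456368160911) (c (l 142817661022650511) (l 142772855914397839))) (c (l 142915105260126351) (b (l 142829686932275343) (l 142823296020021391))))) (c (c (a (b (l 142708809348497551) (c (l 142724202514923663) (b (l 142680634357514383) (l 142676854785736847)))) (b (l 142740420313317519) (c (l 142756088357699727) (l 142710939652096143)))) (a (b (l 142617962181476495) (c (a (l 142624834131247247) (l 142641258089054351)) (l 14))) (b (l 142650260341162127) (a (b (l 142636585163063439)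 (c (l 142655620462248079) (l 142609853281321103))) (c (l 142673693687726223) (l 142628132665278607)))))) (l 14)))))), by decide +kernel⟩

def k17_pm_123_a : ∃ t, chk3 f_pm_123_a t 21 30 1 = true :=
  ⟨(a (b (l 143105733141921871) (c (l 16694088) (l 142888785712824463))) (c (b (l 16717688) (l 16713496)) (c (l 16705704) (l 143232245720531087)))), by decide +kernel⟩

def k18_pm_123_a : ∃ t, chk3 f_pm_123_a t 21 62 1 = true :=
  ⟨(a (b (c (l 143240148439089231) (l 142785706480484495)) (a (a (c (b (l 143105870558101647) (l 143084292639326351)) (b (l 142764403405832335) (l 142734716587294863))) (c (l 143160914869403791) (l 142841644112625807))) (c (l 143258084227186767) (l 142984237053673615)))) (a (c (l 143400402288263247) (b (l 16684664) (l 143162907726626959))) (c (l 143506780057764047) (b (l 16699088) (l 143322268223946831))))), by decide +kernel⟩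

def k19_pm_123_a : ∃ t, chk3 f_pm_123_a t 84 63 1 = true :=
  ⟨(b (c (c (b (l 143180018891620495) (l 143161395910983823)) (b (l 143011862295756943) (a (l 142962659142647951) (l 143019146562355343)))) (a (b (l 142715406411907215) (c (l 142788386512961679) (l 142610334312022159))) (b (c (l 142870987337629839) (l 142696920867012751)) (b (l 142761654628581519) (l 142391187928187023))))) (c (c (b (a (l 143114597940002959) (l 143170466884321423)) (c (a (l 143137756410396815) (l 143194106391117967)) (b (l 143086216790032527) (a (l 143047046681903247) (l 143104839771897999))))) (b (a (l 142943623845200015) (l 143000661020770447)) (a (b (l 142927887082930319) (a (c (l 142945341835165839) (b (l 142860404543717519) (l 142854288509436047))) (c (l 142975234812739727) (l 142887823619817615)))) (b (l 142986367367807119) (a (c (l 143004715473387663) (l 142917922755870863)) (c (l 143033783817109647) (l 142947609574981775))))))) (b (b (a (l 142325285939167375) (l 142382804151107727)) (a (l 142314359455056015) (l 142373801812689039)))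 (a (b (b (l 142395517177331855) (a (l 142283435707170959) (l 142314703063777423))) (c (b (a (c (l 142771687680671887) (l 142682077464428687)) (l 142758149939888271)) (c (a (c (l 142787561883533455) (l 142742756775362703)) (c (l 142818691811917967) (l 142774161581719695))) (b (a (l 142676923502919823) (l 142708671906709647)) (a (c (l 142695958802120847) (a (l 142642563757949071) (l 142658712837800079))) (c (l 142727844644880527) (l 142682833378345103)))))) (c (c (b (l 142630262967828623) (a (b (l 142608822487498895) (a (l 14) (l 142613289254355087))) (a (l 142631293760356495) (l 142647374120730767)))) (b (l 142584839384449167) (l 14))) (l 14)))) (a (b (b (l 142531306935713935) (l 142345558114189455)) (c (b (l 142788936270823567) (c (l 142827350466723983) (c (l 142760829999415439) (l 142716231049805967)))) (c (b (l 142655139422044303) (a (b (l 142642426316800143) (c (l 142661736493908111) (l 142616519068991631))) (c (l 142679259963490447) (l 142634248697020559)))) (l 14)))) (b (b (l 142741451100766351)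 (l 142376069561778319)) (b (c (l 142819379004309647) (c (l 142686406789398671) (l 142596521695543439))) (c (c (l 142857793200226447) (c (l 142791753769336975) (l 142747498417160335))) (b (c (l 142682077461774479) (l 142592054928949391)) (c (c (l 142701456358391951) (a (l 142648679789707407) (l 142664553991602319))) (c (a (l 14) (l 142619611444674703)) (l 14)))))))))))), by decide +kernel⟩

def k20_pm_123_a : ∃ t, chk3 f_pm_123_a t 170 63 1 = true :=
  ⟨(b (b (l 143035982833975375) (a (c (l 143149576155512911) (l 142453241626689679)) (l 142843637017051215))) (b (b (c (l 143058522849230927) (l 142449736847442063)) (c (c (l 143221319306182735) (l 143053849905299599)) (a (l 142777597551411343) (c (l 142898475135090831) (l 142724683542511759))))) (c (c (b (l 143212042175627343) (c (l 143244546496020687) (l 143161121033126031))) (b (a (l 143029248328745103) (l 143057698197061775)) (c (l 143076733497557135) (a (l 142976952796659855) (l 143005883701395599))))) (a (b (b (l 142771137919860879) (l 142406168692441231))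 (b (c (l 142849340701393039) (c (l 142717261839810703) (l 142627926501867663))) (c (c (l 142887892336279695) (c (l 142822333941825679) (l 142778353467605135))) (c (c (l 142734098115477647) (b (l 142691010994651279) (l 142688262215221391))) (c (a (l 142637066194747535) (l 142652871677149327)) (l 14)))))) (b (c (l 142886105627476111) (b (l 142712863790694543) (l 142707915987746959))) (c (c (l 142919984337387663) (a (l 142825632476430479) (l 142840544605487247))) (c (b (l 142747704573313167) (c (l 142764953165906063) (l 142720766533320847))) (b (l 142658987710742671) (a (b (l 142647580275802255) (c (l 142667302769836175) (l 142622566381420687))) (c (l 142684207763996815) (l 142639677534044303))))))))))), by decide +kernel⟩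

def k21_pm_123_a : ∃ t, chk3 f_pm_123_a t 171 63 1 = true :=
  ⟨(b (c (l 143243790574846031) (c (l 143027392896188559) (l 142880470624321679))) (b (c (c (l 143284541235822799) (l 143130197257633935)) (c (l 142973104500506767) (l 142452829308977295))) (c (c (b (l 143268804473405647) (a (l 143244134177259727) (l 143272996362584271))) (a (b (l 143090133795897487) (c (l 143119820616990863) (b (l 143038250580525199) (l 143032615582630031)))) (b (l 143126898722668687) (a (l 143102984340750479) (l 143121538602844303))))) (a (a (b (c (l 142911806716379279) (l 142738908477227151)) (c (b (l 142901086476386447) (c (l 142939569391796367) (l 142853188991533199))) (b (l 142726470228476047) (c (l 142765846518579343) (c (l 142699738368442511) (l 142655345577476239)))))) (b (l 142849409418068111) (a (c (b (l 142913868301336719) (l 142907546108559503)) (b (l 142740489025749135) (c (l 142777253953699983) (b (l 142690323797786767) (l 142688124774285455))))) (b (l 142839376372842639) (b (c (l 142917647873392783) (l 142744543475761295))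 (c (l 142914143179538575) (c (l 142784194622144655) (b (l 142697058307801231) (l 142695409040130191))))))))) (a (b (l 142874079714836623) (b (l 142677885563060367) (a (c (l 142926375248609423) (c (l 142797938519998607) (c (l 142732998601195663) (l 142689430444081295)))) (c (l 142937713964368015) (c (l 142810926503526543) (l 142725233298538639)))))) (c (b (l 142978464621215887) (a (l 142953863044317327) (l 142965133040599183))) (b (l 142818004609810575) (b (a (l 142793609191243919) (l 142807009491730575)) (a (c (l 142823845767577743) (l 142739320793923727)) (c (l 142836765031628943) (a (l 142749766156370063) (l 142756844263784591)))))))))))), by decide +kernel⟩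

def k22_pm_123_a : ∃ t, chk3 f_pm_123_a t 86 63 1 = true :=
  ⟨(b (c (c (l 143400883329007823) (l 143277944158208079)) (c (l 143154730110058639) (l 143031241184559247))) (a (b (c (l 143274095870279759) (c (l 143061683922305167) (l 142918060186091663))) (c (c (a (l 143308867935420623) (l 143339379388170447)) (c (l 143213347841245391) (a (l 143118995980222607) (l 143158097369432207)))) (c (b (l 143034883321872527) (a (c (l 143033165336019087) (b (l 142959360602357903) (l 142949396276543631))) (c (l 143076252455698575) (a (l 142989734616694927) (l 143012893084614799))))) (b (l 142884593795121295) (c (b (l 142906102996304015) (a (a (l 142856350086103183) (l 142882326053093519)) (b (l 142923282868764815) (c (l 142936958047633551) (l 142898681291227279))))) (b (l 142828724849655951) (c (a (a (l 142795121019781263) (l 142822608815587471)) (a (l 142849821733421199) (l 142876553614885007))) (b (l 142799931383316623) (a (a (l 142750796948373647) (l 142779521694990479)) (a (a (l 142800756017266831) (l 142814774793142415))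 (a (l 142828724849541263) (l 142842606186446991)))))))))))) (c (b (l 143337936275308751) (c (c (l 143416757533737167) (l 143349549870809295)) (b (l 143254854411092175) (c (l 143275951295693007) (a (l 143188677542199439) (l 143225511188431055)))))) (c (b (l 143146415052750991) (b (l 143121057561575567) (a (c (l 143117965185695887) (a (l 143035639235625103) (l 143058041789202575))) (c (l 143158372245471375) (a (l 143080169459466383) (l 143101884818194575)))))) (b (l 143018253202030735) (b (l 142986573517750415) (c (b (l 143004921622298767) (b (l 142997156320084111) (a (c (l 142985680165716111) (b (l 142950839383801999) (l 142948159323734159))) (c (l 143033027894083727) (l 142998805587640463))))) (b (l 142935858534039695) (a (b (l 142900880313893007) (a (c (l 142900124399861903) (c (l 142872430445101199) (l 142853944902107279))) (c (l 142926169086443663) (c (l 142899299765584015) (l 142881363978502287))))) (b (l 142953107126124687) (a (c (l 142951870175608975) (a (l 142910432317423759) (l 142923695184330895)))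 (c (l 142977158947864719) (a (l 142936820606910607) (l 142949877309980815)))))))))))))), by decide +kernel⟩

def k23_pm_123_a : ∃ t, chk3 f_pm_123_a t 87 63 1 = true :=
  ⟨(b (c (l 143454072211177679) (c (l 143307974572261455) (l 143213210394067087))) (b (c (c (l 143480254339350735) (l 143371196506194127)) (c (l 143263650502312015) (l 143157685047214223))) (a (c (c (b (l 143442252462375119) (a (l 143420193506738383) (l 143446719229411535))) (b (l 143321855913148623) (a (c (l 143324742132941007) (l 143261176603394255)) (c (l 143355872061587663) (l 143295536348168399))))) (c (b (l 143202009120391247) (b (l 143189777051467855) (c (a (l 143193625343688847) (l 143231558502006991)) (b (l 143152599807049871) (a (l 143127242315382927) (l 143168817606754447)))))) (b (l 143082643364610191) (a (b (l 143043679414059151) (b (l 143035776651395215) (a (c (l 143051169839120527) (c (l 143002104122687631) (a (l 142962865293574287) (l 142975784557674639)))) (c (l 143074259587711119) (c (l 143026636980600975) (l 142994888575893647))))))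 (b (l 143090614825746575) (a (c (l 143099410920980623) (c (l 143053437581656207) (l 143022857408299151))) (c (l 143121676035768463) (a (l 143056392519581839) (l 143068418430353551))))))))) (c (c (b (l 143492623847817423) (c (l 143512827378942159) (l 143456477395828943))) (c (a (l 143391400037482703) (l 143420124784165071)) (c (l 143364874313466063) (l 143337661384179919)))) (c (b (l 143277669278842959) (b (l 143266193124278351) (a (c (l 143268254709596367) (l 143211217532027023)) (c (l 143303713966440655) (l 143250112763445391))))) (b (l 143172872055193743) (b (l 143158440962539663) (c (a (a (l 143143666272583823) (l 143165244192505999)) (l 143196992597000335)) (a (c (l 143112192745717903) (l 143084017743806607)) (b (l 143146896088187023) (l 143141810835275919))))))))))), by decide +kernel⟩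

def k24_pm_123_a : ∃ t, chk3 f_pm_123_a t 22 14 1 = true :=
  ⟨(b (l 16725392) (a (l 16714568) (l 16727392))), by decide +kernel⟩

def k25_pm_123_a : ∃ t, chk3 f_pm_123_a t 22 30 1 = true :=
  ⟨(b (a (l 16730240) (l 16745128)) (a (a (l 16721288) (l 16730400)) (c (l 16742216) (l 16743664)))), by decide +kernel⟩

def k26_pm_123_a : ∃ t, chk3 f_pm_123_a t 22 31 2 = true :=
  ⟨(b (a (a (l 16721984) (l 16729800)) (b (l 16740672) (l 16739456))) (b (a (a (l 143551928764891343) (l 143633704959279311)) (a (l 16734552) (l 16741344))) (a (a (a (b (l 143503481525321935) (b (l 143490218664263887) (c (c (l 143557151449481487) (l 143506299025785039)) (b (l 143434074840236239) (c (l 143453659895513295) (l 143403769534136527)))))) (b (l 143550279498236111) (c (b (l 143581546867491087) (c (l 143597695948439823) (l 143552134925648143))) (a (c (l 143499770673201359) (l 143455515320893647)) (c (l 143524166092374287) (l 143482796958728399)))))) (b (c (l 143646899102695695) (l 143580722232819919)) (b (c (a (l 143620304660168975)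 (l 143655282881249551)) (l 143567665530110159)) (c (c (b (l 143653015138205967) (a (l 143633223925006607) (l 143666621597663503))) (a (l 143593985095450895) (l 143631986974146831))) (a (a (l 143523341469368527) (l 143547187122094287)) (a (l 143569933273809167) (l 143591717352718607))))))) (a (a (b (l 16731376) (c (b (l 16733512) (c (l 602778923417142943556879) (l 602665937078149226390799))) (a (l 602378283113065626019087) (l 602683951925740483007503)))) (b (l 16735080) (b (l 603206225367327417734159) (c (c (l 16737784) (l 16735192)) (l 603118315102601118618639))))) (c (a (b (l 16740296) (c (l 16740800) (l 16738752))) (c (l 16743728) (l 16742248))) (b (l 16739096) (a (l 603723310662143570596879) (l 604296024419557029843983)))))))), by decide +kernel⟩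

def k27_pm_123_a : ∃ t, chk3 f_pm_123_a t 22 31 3 = true :=
  ⟨(b (a (a (l 143486095488925775) (l 601777610993566129201359)) (c (l 16738704) (l 16739112))) (a (a (b (c (l 143440946786353359) (l 143372639612305487)) (c (b (l 143402051555918031) (a (b (l 143348244195410127) (a (c (l 143341372246982863) (l 143291619335520463)) (a (l 143342403039133903) (l 143359308033818831)))) (a (c (l 143412290761015503) (l 143369959554613455)) (c (l 143442527337005263) (l 143403288507728079))))) (b (l 143323367738884175) (a (b (l 143257328308994191) (a (b (l 143222899844563087) (c (l 143238086852280463) (l 143189158574882959))) (c (l 143282136045617295) (l 143237262218215567)))) (a (c (l 143328659140640975) (l 143288252080144527)) (b (l 143355047425032271) (l 143338142430756943))))))) (b (l 601467186809044052287695) (c (b (l 143520730117341391) (b (l 143502931769802959) (a (a (l 143446856665268431) (l 143476406046572751)) (b (l 143521417313534159) (l 143515507437502671))))) (b (l 143466991475720399) (a (c (l 143417650881708239)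 (l 143385696318619855)) (b (l 143477436839444687) (l 143462318551875791))))))) (a (b (l 602917850397700038698191) (c (a (c (l 602449764227659549254927) (l 602382894758608273761487)) (a (l 602927506593588677432335) (l 603263871442557730411535))) (b (l 602744912124386405770447) (a (l 602237338375701978293455) (l 603008499329287303566351))))) (b (l 604295447958804725191695) (c (c (l 604069763574277930112015) (l 604104639449792285807631)) (a (l 603812950309126746166287) (l 604540443778533678797839))))))), by decide +kernel⟩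

def k28_pm_123_a : ∃ t, chk3 f_pm_123_a t 23 7 1 = true :=
  ⟨(b (b (l 16762208) (a (l 16736536) (l 16765584))) (b (a (b (l 16820088) (b (l 16756208) (l 16797368))) (b (l 16809408) (c (l 16762880) (l 16775872)))) (c (c (a (b (l 16751168) (b (l 16750552) (a (b (l 16747280) (a (l 16750752) (l 16748280))) (a (l 16756504) (l 16754136))))) (b (l 16761400) (b (l 16761600) (a (b (l 16758616) (l 16758528)) (l 16764672))))) (b (a (l 16752648) (l 16765824)) (b (a (l 16751080) (l 16765312)) (a (a (a (l 604877673318631192630287) (l 605423293420686390350863)) (b (l 16753616) (l 606218521028488973751311))) (a (l 16760888) (l 16768616)))))) (c (b (a (l 16755440) (l 16771800)) (b (a (l 606080170447936151835663) (l 16770536)) (a (a (b (l 16746656) (l 605315207029629493580815)) (l 606576503155669404259343)) (a (l 16764600) (l 16774104))))) (b (a (l 16759552) (l 16779328)) (b (a (l 606448240638281893975055) (l 16777264)) (a (a (l 605599113950138933384207) (l 606981178603786414052367)) (a (l 608344796513360185545743)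 (b (l 16781560) (l 16780696)))))))))), by decide +kernel⟩

def k29_pm_123_a : ∃ t, chk3 f_pm_123_a t 3 2 1 = true :=
  ⟨(a (a (b (a (b (a (b (l 16763096) (l 16767376)) (b (l 4) (a (l 16761928) (l 16758128)))) (a (l 16765952) (b (l 106535363495) (l 16767592)))) (b (l 4) (a (a (b (l 16759312) (l 16763408)) (b (l 4) (l 160759201943))) (l 4)))) (a (b (b (a (l 16757072) (l 16760824)) (l 16786000)) (a (l 16733696) (l 16754336))) (b (a (b (l 16766448) (l 16760552)) (b (a (l 144653197943) (b (l 4) (l 16759992))) (a (l 16766664) (l 16764496)))) (a (b (l 16756416) (l 16756248)) (b (l 16761312) (l 16758712)))))) (b (l 4) (a (b (a (b (l 4) (a (b (l 16760120) (l 16762432)) (b (l 4) (l 222499377943)))) (l 4)) (a (b (a (l 16767152) (b (l 16762744) (l 16766432))) (a (l 16762464) (l 16764560))) (b (a (b (l 299272089399) (l 16763392)) (l 4)) (a (b (l 16767160) (l 16765984)) (b (a (l 16764360) (l 16763552)) (l 16768200)))))) (b (l 4) (a (b (l 4) (a (b (l 4) (a (l 16765504) (l 250953663447))) (l 4))) (l 4)))))) (l 4)),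 by decide +kernel⟩

def k30_pm_123_a : ∃ t, chk3 f_pm_123_a t 6 6 1 = true :=
  ⟨(a (b (a (b (a (l 16755360) (l 16756296)) (l 16738424)) (b (l 16759688) (a (l 16760608) (l 16763736)))) (a (b (a (l 16766960) (l 16766240)) (a (c (l 16766824) (l 16783288)) (b (l 16773008) (l 16779176)))) (b (a (l 16767224) (l 16769536)) (a (l 16776312) (l 16778416))))) (b (a (b (a (b (l 16763024) (l 16764728)) (b (l 16766944) (l 16767384))) (a (l 16767672) (l 16770576))) (a (b (a (b (l 16769608) (l 16769912)) (b (a (l 16766936) (l 276723493959)) (l 16771224))) (a (b (l 16771416) (l 16774152)) (b (l 16772544) (l 16774536)))) (b (b (l 4) (a (a (l 16768504) (b (l 4) (l 16767704))) (l 4))) (b (a (a (l 16771680) (l 16771968)) (a (b (l 16768456) (l 16771040)) (b (l 16808640) (l 16769192)))) (a (l 16775040) (a (l 16774064) (l 16773720))))))) (a (b (a (l 16751216) (l 16775840)) (a (l 16781264) (l 16784168))) (a (b (b (l 16777320) (l 16780656)) (l 16786456)) (b (b (a (l 16778576) (l 16777320)) (l 16781536)) (b (l 16785456) (l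 16789952))))))), by decide +kernel⟩

def k31_pm_123_a : ∃ t, chk3 f_pm_123_a t 24 7 1 = true :=
  ⟨(a (b (b (l 16774136) (l 16753608)) (b (b (l 16776952) (a (l 16798080) (l 16782120))) (b (b (a (l 16779240) (l 16784664)) (c (l 16775552) (a (l 16788928) (l 16796352)))) (c (b (c (l 16773360) (l 16800944)) (a (c (l 16770904) (l 16776440)) (b (l 16801376) (a (l 16778864) (l 16803416))))) (b (a (l 16809600) (a (l 16795952) (l 16800008))) (a (a (c (l 16781256) (l 16789680)) (b (l 16790664) (c (l 16785896) (l 16795088)))) (c (c (l 16811744) (b (l 16795712) (l 16795584))) (b (l 16824928) (a (l 16811288) (a (l 16805064) (l 16818376))))))))))) (b (b (a (l 16780928) (l 16784144)) (l 16774120)) (c (b (l 16780592) (b (l 16785312) (b (b (l 16787592) (l 16788552)) (a (c (b (l 16782848) (l 16783608)) (b (l 16790960) (a (l 16790208) (l 16793472)))) (c (l 16788776) (b (l 16796752) (l 16797888))))))) (a (b (l 16795456) (b (l 16801128) (b (l 16804744) (b (c (l 16800952) (a (l 16811184) (l 16814472))) (b (a (a (l 16804680)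 (l 16827856)) (l 16809288)) (a (c (l 16800256) (a (l 16810656) (b (l 16813424) (l 16813464)))) (c (l 16804104) (a (c (l 16812320) (l 16818904)) (l 16817176))))))))) (b (l 16801552) (b (l 16807296) (b (l 16810960) (c (c (l 16804968) (l 16810664)) (b (l 16819344) (a (c (l 16815952) (l 16822608)) (c (l 16819216) (l 16825960)))))))))))), by decide +kernel⟩

def k32_pm_123_a : ∃ t, chk3 f_pm_123_a t 25 7 1 = true :=
  ⟨(b (b (a (a (l 16791616) (l 16787784)) (b (l 16787816) (l 16792952))) (c (b (l 16787168) (l 16812032)) (a (l 16784832) (b (l 16809736) (l 16816744))))) (b (c (a (l 16791000) (b (l 16799800) (l 16803960))) (a (b (l 16809776) (l 16812896)) (b (l 16822000) (l 16868264)))) (c (b (a (l 16796432) (l 16808280)) (a (a (b (l 16796568) (c (l 16794568) (l 16803416))) (b (l 16802584) (c (l 16800576) (l 16809720)))) (a (b (l 16808712) (b (l 16810536) (l 16832768))) (c (l 16811568) (l 16821200))))) (a (c (b (l 16811248) (b (l 16814832) (a (a (l 16812544) (l 16815808)) (b (l 16820088) (l 16821488))))) (b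 (l 16823432) (b (l 16848328) (a (b (l 16826080) (c (l 16824248) (a (l 16829376) (l 16832848)))) (c (l 16830336) (a (l 16835544) (l 16839072))))))) (a (b (l 16827200) (b (l 16831016) (b (c (l 16826768) (l 16839984)) (c (l 16828200) (a (l 16839784) (l 16843280)))))) (b (l 16833960) (b (l 16837808) (c (l 16834160) (a (l 16845976) (l 16849416)))))))))), by decide +kernel⟩

def k33_pm_123_a : ∃ t, chk3 f_pm_123_a t 13 7 1 = true :=
  ⟨(b (a (b (a (b (l 16790168) (l 16796480)) (l 16797008)) (a (c (l 16799304) (l 16817264)) (b (l 16807816) (l 16815960)))) (b (a (l 16799336) (l 16798832)) (a (b (l 16810208) (l 16819616)) (b (l 16810920) (l 16820480))))) (a (a (b (b (l 16817968) (a (c (l 16811952) (l 16835176)) (l 16826816))) (b (c (a (l 16817072) (l 16822416)) (a (l 16861528) (l 16888224))) (b (c (l 16823816) (a (l 16844424) (l 16850720))) (c (a (l 16823584) (l 16829464)) (a (c (l 16840680) (l 16875440)) (b (l 16852888) (l 16854416))))))) (b (b (l 16823872) (l 16894832)) (a (b (b (l 16836056) (l 16881720))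 (b (c (l 16831928) (l 16856296)) (c (l 16835000) (a (l 16858112) (l 16860944))))) (b (l 16862600) (b (l 16847512) (c (l 16839920) (a (l 16863424) (l 16865504)))))))) (b (a (b (l 16849440) (l 16900384)) (c (l 16806480) (l 16844128))) (c (a (b (l 16836240) (l 16865032)) (b (l 16840424) (l 16849000))) (a (b (l 16858136) (b (l 16865240) (l 16890768))) (b (l 16818760) (c (l 16865008) (l 16877712)))))))), by decide +kernel⟩

def k34_pm_123_a : ∃ t, chk3 f_pm_123_a t 7 6 1 = true :=
  ⟨(a (a (b (a (b (l 4) (a (b (a (b (l 4) (l 366917761111)) (l 4)) (a (b (l 16769936) (l 16772984)) (b (l 357790958423) (l 16770736)))) (b (l 4) (a (b (l 4) (l 350274768935)) (l 4))))) (l 4)) (a (b (a (b (b (l 16773976) (l 16777360)) (b (l 16779064) (l 16781624))) (b (a (b (l 16771536) (l 16774896)) (b (l 347590419255) (l 16772352))) (b (a (l 16777880) (l 16775008)) (l 16779232)))) (b (a (l 16784408) (b (l 16781152) (l 16784064))) (l 16788464))) (b (a (b (a (b (l 4) (a (l 16771120) (l 394835032359))) (l 4)) (a (b (l 16773184)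 (l 16775968)) (b (a (l 16772048) (l 394835039879)) (a (l 16774720) (l 16773152))))) (b (l 4) (a (b (l 4) (a (l 16772672) (l 391613823655))) (l 4)))) (a (b (b (a (l 16779760) (l 16777704)) (l 16780744)) (l 16785432)) (b (a (b (a (l 16775480) (l 16773992)) (l 16778920)) (b (a (l 289071512663) (l 383560770647)) (b (l 16774736) (l 16776368)))) (b (a (l 16781568) (l 16779856)) (l 16783872))))))) (b (l 2) (b (l 4) (a (a (b (a (b (a (l 458722675015) (l 4)) (a (l 265986074295) (l 330947431351))) (b (l 4) (a (b (l 4) (l 16771952)) (l 4)))) (a (b (b (l 16775800) (l 16778224)) (l 16780464)) (b (a (l 184381708087) (b (l 16772624) (l 16773824))) (b (l 16776424) (l 16779352))))) (b (l 4) (a (b (a (b (l 4) (l 417383623671)) (l 4)) (a (b (l 16774248) (l 16776152)) (b (l 403961857927) (l 16774736)))) (b (l 4) (b (l 4) (a (l 342758581143) (l 502209214327))))))) (l 4))))) (l 2)), by decide +kernel⟩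

def k35_pm_123_a : ∃ t, chk3 f_pm_123_a t 14 14 1 = true :=
  ⟨(b (a (a (b (l 16793480) (l 16799768)) (b (a (l 16790552) (l 16787944)) (l 16793968))) (a (a (b (b (a (l 16783896) (l 16781016)) (l 16785504)) (l 16789728)) (b (a (b (b (l 16778208) (l 16779896)) (l 16781856)) (b (a (b (l 16775304) (l 16777600)) (b (l 325578719591) (l 16775768))) (b (l 16778944) (l 16780264)))) (l 16786432))) (b (a (a (b (b (a (l 483955611223) (l 4)) (a (l 16814056) (l 463017654199))) (b (a (l 16775816) (l 16817840)) (a (l 16778680) (l 16776296)))) (b (l 4) (a (b (b (l 508651663479) (l 16774096)) (l 16818416)) (b (l 4) (b (l 478050030775) (l 16774096)))))) (b (l 4) (a (l 4) (l 4)))) (a (b (a (b (l 16779208) (l 16781304)) (b (a (l 16777224) (l 16775328)) (l 16778136))) (a (l 16783728) (b (l 16779616) (l 16782184)))) (b (a (a (b (b (l 445300914919) (l 16774200)) (l 16775224)) (b (b (l 4) (l 514557252071)) (b (l 410404316215) (l 16774456)))) (b (l 4) (a (b (l 4) (c (l 460333301335) (l 492545554871))) (l 4)))) (a (b (a (l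 16777896) (l 16776128)) (a (l 16780224) (l 16778376))) (b (a (b (l 326652465623) (l 16774976)) (b (c (l 537105831623) (l 574686794247)) (c (l 423289218119) (l 455501471671)))) (a (l 16776936) (b (l 16818512) (l 16775280)))))))))) (b (a (a (l 16808528) (l 16802736)) (a (a (l 16797376) (l 16792424)) (a (l 16809168) (a (l 16784928) (b (b (a (l 16778936) (l 16777600)) (a (l 16781448) (l 16779736))) (l 16783808)))))) (a (a (l 16817376) (l 16812064)) (a (a (l 16806440) (l 16801824)) (a (l 16796384) (b (l 16788944) (l 16793176))))))), by decide +kernel⟩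

def k36_pm_123_a : ∃ t, chk3 f_pm_123_a t 14 15 1 = true :=
  ⟨(a (c (b (b (l 16820440) (l 16840560)) (a (b (l 16840856) (l 16829120)) (b (l 16795856) (b (l 16845160) (l 16850024))))) (a (b (l 16841176) (b (l 16859160) (c (l 16864880) (l 16876600)))) (b (l 16855496) (b (l 16853784) (a (l 16867568) (l 16864344)))))) (b (b (a (a (l 16816472) (l 16811104)) (a (l 16805736) (l 16842136))) (a (l 16825728) (a (l 16817656) (l 16811472)))) (b (a (c (l 16831400) (l 16844704)) (a (l 16829840) (l 16823872))) (a (c (c (l 16838408) (l 16845264)) (c (l 16853272) (l 16860104))) (c (c (l 16788152) (l 16835768)) (b (l 16841200) (l 16804480))))))), by decide +kernel⟩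

def k37_pm_123_a : ∃ t, chk3 f_pm_123_a t 15 14 1 = true :=
  ⟨(a (b (a (b (l 2) (a (b (l 4) (a (a (a (a (b (l 4) (l 16809608)) (l 6)) (l 6)) (l 4)) (l 4))) (l 2))) (l 2)) (a (b (a (a (a (b (b (b (l 16775136) (l 16776400)) (l 16778112)) (l 16781616)) (l 6)) (l 6)) (l 6)) (a (a (l 16786728) (l 16815632)) (b (l 6) (a (l 16783376) (l 6))))) (b (l 2) (a (l 6) (l 4))))) (l 2)), by decide +kernel⟩

def k38_pm_123_a : ∃ t, chk3 f_pm_123_a t 15 15 1 = true :=
  ⟨(a (a (b (a (b (b (l 16791712) (l 16796400)) (a (l 16806592) (l 16803048))) (b (b (a (l 16787344) (l 16784200)) (l 16790000)) (b (l 16795040) (l 16801040)))) (b (c (l 16836840) (a (l 16820640) (l 16812384))) (b (a (l 16826744) (l 16799024)) (c (l 16803504) (a (l 16832176) (l 16823320)))))) (b (b (a (a (a (l 16811744) (l 6)) (l 6)) (l 6)) (b (a (a (l 16790264) (l 16786816)) (l 6)) (a (a (l 16795584) (l 16791936)) (a (l 16788568) (l 6))))) (a (b (a (l 16826104) (l 16838096)) (b (c (l 16809512) (l 16810600)) (b (l 16778256) (a (l 16801560) (l 16776672)))))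 (c (b (b (l 16791344) (l 16797064)) (a (l 16828272) (a (l 16825688) (l 16823928)))) (b (b (l 16814520) (l 16798872)) (b (l 16781864) (a (l 16782680) (b (l 16803960) (l 16785064))))))))) (b (a (b (a (l 6) (l 2)) (l 6)) (l 2)) (a (b (a (b (a (a (l 16787640) (l 6)) (l 6)) (a (l 16792968) (l 16809864))) (l 6)) (b (a (c (l 16812600) (a (l 16797248) (l 16793680))) (a (b (l 16789584) (l 16792648)) (l 6))) (c (a (a (l 16803104) (l 16799448)) (a (a (l 16796656) (l 16794768)) (c (l 16796488) (l 16805072)))) (a (b (b (l 16797896) (l 16777920)) (a (l 16781272) (a (l 16778496) (l 16776688)))) (a (b (l 16793040) (a (l 16780144) (l 16778376))) (b (l 16779088) (b (l 16780520) (a (l 16782344) (l 16780608))))))))) (b (a (l 6) (l 2)) (a (b (l 6) (b (l 6) (a (b (l 6) (a (c (l 16791168) (l 16778888)) (l 6))) (l 6)))) (l 6)))))), by decide +kernel⟩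

theorem s39_pm_123_a : ∃ t, chk3 f_pm_123_a t 15 7 1 = true := ex3_b k37_pm_123_a k38_pm_123_a

theorem s40_pm_123_a : ∃ t, chk3 f_pm_123_a t 14 7 1 = true := ex3_b k35_pm_123_a k36_pm_123_a

theorem s41_pm_123_a : ∃ t, chk3 f_pm_123_a t 7 7 1 = true := ex3_a s40_pm_123_a s39_pm_123_a

theorem s42_pm_123_a : ∃ t, chk3 f_pm_123_a t 7 3 1 = true := ex3_b k34_pm_123_a s41_pm_123_a

theorem s43_pm_123_a : ∃ t, chk3 f_pm_123_a t 12 7 1 = true := ex3_a k31_pm_123_a k32_pm_123_a

theorem s44_pm_123_a : ∃ t, chk3 f_pm_123_a t 6 7 1 = true := ex3_a s43_pm_123_a k33_pm_123_a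

theorem s45_pm_123_a : ∃ t, chk3 f_pm_123_a t 6 3 1 = true := ex3_b k30_pm_123_a s44_pm_123_a

theorem s46_pm_123_a : ∃ t, chk3 f_pm_123_a t 3 3 1 = true := ex3_a s45_pm_123_a s42_pm_123_a

theorem s47_pm_123_a : ∃ t, chk3 f_pm_123_a t 3 1 1 = true := ex3_b k29_pm_123_a s46_pm_123_a

theorem s48_pm_123_a : ∃ t, chk3 f_pm_123_a t 22 31 1 = true := ex3_c k26_pm_123_a k27_pm_123_a

theorem s49_pm_123_a : ∃ t, chk3 f_pm_123_a t 22 15 1 = true := ex3_b k25_pm_123_a s48_pm_123_a

theorem s50_pm_123_a : ∃ t, chk3 f_pm_123_a t 22 7 1 = true := ex3_b k24_pm_123_a s49_pm_123_a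

theorem s51_pm_123_a : ∃ t, chk3 f_pm_123_a t 11 7 1 = true := ex3_a s50_pm_123_a k28_pm_123_a

theorem s52_pm_123_a : ∃ t, chk3 f_pm_123_a t 43 63 1 = true := ex3_a k22_pm_123_a k23_pm_123_a

theorem s53_pm_123_a : ∃ t, chk3 f_pm_123_a t 85 63 1 = true := ex3_a k20_pm_123_a k21_pm_123_a

theorem s54_pm_123_a : ∃ t, chk3 f_pm_123_a t 42 63 1 = true := ex3_a k19_pm_123_a s53_pm_123_a

theorem s55_pm_123_a : ∃ t, chk3 f_pm_123_a t 21 63 1 = true := ex3_a s54_pm_123_a s52_pm_123_a

theorem s56_pm_123_a : ∃ t, chk3 f_pm_123_a t 21 31 1 = true := ex3_b k18_pm_123_a s55_pm_123_a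

theorem s57_pm_123_a : ∃ t, chk3 f_pm_123_a t 21 15 1 = true := ex3_b k17_pm_123_a s56_pm_123_a

theorem s58_pm_123_a : ∃ t, chk3 f_pm_123_a t 83 63 1 = true := ex3_a k15_pm_123_a k16_pm_123_a

theorem s59_pm_123_a : ∃ t, chk3 f_pm_123_a t 41 63 1 = true := ex3_a k14_pm_123_a s58_pm_123_a

theorem s60_pm_123_a : ∃ t, chk3 f_pm_123_a t 41 31 1 = true := ex3_b k13_pm_123_a s59_pm_123_a

theorem s61_pm_123_a : ∃ t, chk3 f_pm_123_a t 20 31 1 = true := ex3_a k12_pm_123_a s60_pm_123_a

theorem s62_pm_123_a : ∃ t, chk3 f_pm_123_a t 20 15 1 = true := ex3_b k11_pm_123_a s61_pm_123_a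

theorem s63_pm_123_a : ∃ t, chk3 f_pm_123_a t 10 15 1 = true := ex3_a s62_pm_123_a s57_pm_123_a

theorem s64_pm_123_a : ∃ t, chk3 f_pm_123_a t 10 7 1 = true := ex3_b k10_pm_123_a s63_pm_123_a

theorem s65_pm_123_a : ∃ t, chk3 f_pm_123_a t 5 7 1 = true := ex3_a s64_pm_123_a s51_pm_123_a

theorem s66_pm_123_a : ∃ t, chk3 f_pm_123_a t 5 3 1 = true := ex3_b k9_pm_123_a s65_pm_123_a

theorem s67_pm_123_a : ∃ t, chk3 f_pm_123_a t 19 15 1 = true := ex3_b k7_pm_123_a k8_pm_123_a

theorem s68_pm_123_a : ∃ t, chk3 f_pm_123_a t 18 15 1 = true := ex3_a k5_pm_123_a k6_pm_123_a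

theorem s69_pm_123_a : ∃ t, chk3 f_pm_123_a t 9 15 1 = true := ex3_a s68_pm_123_a s67_pm_123_a

theorem s70_pm_123_a : ∃ t, chk3 f_pm_123_a t 9 7 1 = true := ex3_b k4_pm_123_a s69_pm_123_a

theorem s71_pm_123_a : ∃ t, chk3 f_pm_123_a t 8 7 1 = true := ex3_b k2_pm_123_a k3_pm_123_a

theorem s72_pm_123_a : ∃ t, chk3 f_pm_123_a t 4 7 1 = true := ex3_a s71_pm_123_a s70_pm_123_a

theorem s73_pm_123_a : ∃ t, chk3 f_pm_123_a t 4 3 1 = true := ex3_b k1_pm_123_a s72_pm_123_a

theorem s74_pm_123_a : ∃ t, chk3 f_pm_123_a t 2 3 1 = true := ex3_a s73_pm_123_a s66_pm_123_a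

theorem s75_pm_123_a : ∃ t, chk3 f_pm_123_a t 2 1 1 = true := ex3_b k0_pm_123_a s74_pm_123_a

theorem s76_pm_123_a : ∃ t, chk3 f_pm_123_a t 1 1 1 = true := ex3_a s75_pm_123_a s47_pm_123_a

theorem c_pm_123_a : CertB 536870912 536870912 0 536870912 649613803 48318383 3 eng mog cd0q1 cd3q2a pd3 true true false .npn 1 2 3
    ndB0q1 ndB3q2a pcB3 cut_pm_123_a xt_pm_123_a :=
  certB0 (fam := true) (s1 := true) (s2 := false) (a := 1) (b := 2) (c := 3) (cn := .npn) (n1 := ndB0q1) (n2 := ndB3q2a) (pc := pcB3) (cut := cut_pm_123_a) (xt := xt_pm_123_a) (P1 := 536870912) (W1 := 536870912) (P2 := 0) (W2 := 536870912) (P3 := 649613803) (W3 := 48318383) (N0 := 3) (En := eng) (mo := mog) (C1 := cd0q1) (C2 := cd3q2a) (C3 := pd3)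
    rfl s76_pm_123_a

noncomputable def cut_pm_123_b : Cut := Cut.of [[⟨0, 1, 0, 67108864⟩, ⟨1, 1, 0, 67108864⟩, ⟨2, 2, 0, 16777216⟩], [⟨0, 0, 1, 20971520⟩, ⟨1, 1, 0, 33554432⟩, ⟨2, 1, 1, 20971520⟩]]

noncomputable def f_pm_123_b : ℕ → ℕ → ℕ → ℕ → Bool := onCell 1610612736 536870912 1239849684 370763052 649613803 48318383
    (rowB 3 eng mog cd0q1 cd3q2b pd3 2 true true false .npn 1 2 3 (qsf 536870912 536870912 1239849684 370763052 3) ndB0q1 ndB3q2b pcB3 cut_pm_123_b Ext.none)

def k0_pm_123_b : ∃ t, chk3 f_pm_123_b t 1 1 1 = true :=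
  ⟨(a (b (a (l 1) (a (b (b (a (l 16638192) (l 16661416)) (l 1)) (l 1)) (b (b (l 16816952) (l 16727104)) (b (l 16731400) (l 1))))) (l 1)) (a (a (b (b (b (b (l 16760712) (l 16750592)) (l 16862376)) (a (l 16819440) (l 16861528))) (l 1)) (b (b (a (b (l 16770544) (l 16752168)) (b (l 16832040) (l 16740920))) (a (l 16852152) (a (l 16715392) (l 16769920)))) (b (a (b (l 16727280) (l 1)) (l 16773240)) (l 1)))) (a (b (b (a (b (a (l 16802344) (b (l 16760592) (l 16747512))) (a (l 16734544) (l 16729584))) (a (a (b (l 16811928) (l 4)) (l 4)) (l 4))) (a (b (a (l 16712208) (l 4)) (l 4)) (l 4))) (l 4)) (l 4)))), by decide +kernel⟩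

theorem c_pm_123_b : CertB 536870912 536870912 1239849684 370763052 649613803 48318383 3 eng mog cd0q1 cd3q2b pd3 true true false .npn 1 2 3
    ndB0q1 ndB3q2b pcB3 cut_pm_123_b Ext.none :=
  certB2 (fam := true) (s1 := true) (s2 := false) (a := 1) (b := 2) (c := 3) (cn := .npn) (n1 := ndB0q1) (n2 := ndB3q2b) (pc := pcB3) (cut := cut_pm_123_b) (xt := Ext.none) (P1 := 536870912) (W1 := 536870912) (P2 := 1239849684) (W2 := 370763052) (P3 := 649613803) (W3 := 48318383) (N0 := 3) (En := eng) (mo := mog) (C1 := cd0q1) (C2 := cd3q2b) (C3 := pd3)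
    rfl (fun _ => rfl) k0_pm_123_b

noncomputable def f_pm_133 : ℕ → ℕ → ℕ → ℕ → Bool := onCell 536870912 536870912 1610612736 536870912 649613803 48318383
    (rowB 3 eng mog cd0q1 cd3q3 pd3 0 true true false .dn 1 3 3 (qsf 536870912 536870912 1610612736 536870912 3) ndB0q1 ndB3q3 pcB3 Cut.none Ext.none)

def k0_pm_133 : ∃ t, chk3 f_pm_133 t 1 1 1 = true :=
  ⟨(l 4), by decide +kernel⟩

theorem c_pm_133 : CertB 536870912 536870912 1610612736 536870912 649613803 48318383 3 eng mog cd0q1 cd3q3 pd3 true true false .dn 1 3 3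
    ndB0q1 ndB3q3 pcB3 Cut.none Ext.none :=
  certB0 (fam := true) (s1 := true) (s2 := false) (a := 1) (b := 3) (c := 3) (cn := .dn) (n1 := ndB0q1) (n2 := ndB3q3) (pc := pcB3) (cut := Cut.none) (xt := Ext.none) (P1 := 536870912) (W1 := 536870912) (P2 := 1610612736) (W2 := 536870912) (P3 := 649613803) (W3 := 48318383) (N0 := 3) (En := eng) (mo := mog) (C1 := cd0q1) (C2 := cd3q3) (C3 := pd3)
    rfl k0_pm_133

noncomputable def cut_pm_202 : Cut := Cut.of [[⟨0, 1, 0, 67108864⟩, ⟨1, 0, 0, 67108864⟩, ⟨2, 1, 0, 67108864⟩]]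

noncomputable def f_pm_202 : ℕ → ℕ → ℕ → ℕ → Bool := onCell 0 536870912 1073741824 536870912 649613803 48318383
    (rowB 3 eng mog cd0q2 cd3q0 pd2 1 true true false .pp 2 0 2 (qsf 0 536870912 0 536870912 2) ndB0q2 ndB3q0 pcB2 cut_pm_202 Ext.none)

def k0_pm_202 : ∃ t, chk3 f_pm_202 t 4 1 1 = true :=
  ⟨(b (b (l 1) (b (b (b (l 1) (b (a (l 1) (a (l 1) (l 16550128))) (a (a (c (l 16441496) (l 16444728)) (c (l 16464848) (l 16447392))) (c (a (l 16450496) (c (l 16459456) (l 16460304))) (a (l 16454496) (l 16464216)))))) (a (a (b (c (b (l 16439896) (l 16439208)) (l 16418968)) (l 16444752)) (b (b (c (l 16441184) (l 16442736)) (b (l 16438992) (l 16438384))) (l 16444944))) (b (c (b (a (l 16447096) (l 16456224)) (a (b (l 16444848) (l 16443976)) (b (l 16453896) (l 16452864)))) (a (b (l 16449056) (l 16444416)) (b (l 16458728) (l 16453888)))) (a (c (a (l 16447928) (l 16450832)) (l 16448632)) (c (l 16457248) (l 16456760)))))) (a (b (b (c (l 16456648) (l 16455152)) (l 16464024)) (l 16475544)) (b (b (a (c (l 16458816)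 (l 16457328)) (c (l 16464736) (l 16463496))) (a (l 16465592) (c (l 16472000) (l 16469984)))) (b (l 16516784) (l 16480808)))))) (b (b (a (b (l 16488976) (l 16506192)) (b (l 16489000) (l 16503112))) (a (b (b (l 16522416) (l 16659448)) (a (l 16552624) (l 16545360))) (b (l 16541656) (l 16538408)))) (b (b (a (l 16570680) (l 16600432)) (a (l 16596936) (l 16580088))) (b (a (l 16626296) (l 16605408)) (l 16648608))))), by decide +kernel⟩

def k1_pm_202 : ∃ t, chk3 f_pm_202 t 5 4 1 = true :=
  ⟨(b (l 1) (b (l 1) (a (l 1) (b (l 1) (a (l 1) (b (l 1) (c (a (l 16506312) (b (l 16516424) (l 16455408))) (a (l 229813770151) (l 231424403895))))))))), by decide +kernel⟩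

def k2_pm_202 : ∃ t, chk3 f_pm_202 t 5 5 1 = true :=
  ⟨(b (b (b (b (a (l 1) (a (c (c (l 391948790151) (l 202433340759)) (a (l 16480792) (l 222834439239))) (a (c (b (l 16446592) (l 16511536)) (l 16521200)) (c (l 16521016) (b (l 16510192) (l 16512704)))))) (a (c (a (l 16473824) (b (l 292090773575) (l 16487040))) (a (l 171831543623) (a (l 16472840) (l 16479520)))) (a (a (c (l 16496768) (l 16487240)) (c (l 16505192) (b (l 16494496) (l 16497424)))) (c (l 16448368) (a (l 16442792) (l 16516344)))))) (c (b (a (a (l 16495880) (l 16487568)) (a (l 16500504) (l 16512856))) (a (a (c (l 16470512) (l 16471648)) (c (l 16482976) (l 16484280))) (a (c (l 16495808) (l 16496944)) (c (l 16508168) (l 16508752))))) (a (a (b (l 16472120) (l 16476000)) (b (b (l 16481240) (l 16484488)) (l 16488920))) (a (b (a (l 16493368) (l 16501648)) (l 16501328)) (b (l 16515944) (l 16512304)))))) (a (b (c (b (a (l 16467344) (l 16479768)) (a (b (l 16464952) (l 16484824)) (b (l 16477280) (l 16497064)))) (a (b (l 16470456) (b (l 16466560)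 (l 16464544))) (b (l 16483296) (b (l 16479328) (l 16477240))))) (c (a (l 16488544) (l 16479176)) (a (l 16467728) (l 16479784)))) (b (a (c (b (l 16492312) (b (l 16489664) (l 16509320))) (b (l 16495536) (b (l 16491448) (l 16489248)))) (c (b (l 16504104) (b (l 16501232) (l 16499744))) (b (l 16506272) (b (l 16501984) (l 16499648))))) (a (c (l 16490808) (l 16491176)) (a (l 16497976) (l 16502688)))))) (a (b (a (c (b (l 16473856) (l 16479760)) (l 16475832)) (c (b (l 16484392) (l 16489232)) (l 16486288))) (a (b (l 16483248) (l 16487984)) (l 16493720))) (b (a (c (b (l 16494992) (l 16498824)) (l 16496160)) (c (l 16506296) (l 16504528))) (a (l 16501728) (l 16508816))))), by decide +kernel⟩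

def k3_pm_202 : ∃ t, chk3 f_pm_202 t 5 3 1 = true :=
  ⟨(b (b (a (b (a (l 16495008) (l 16501624)) (l 16510088)) (b (a (l 16508392) (l 16514288)) (l 16562240))) (a (b (l 16565608) (l 16537496)) (b (a (l 16528280) (l 16530568)) (l 16540016)))) (b (a (b (l 16553632) (l 16573112)) (b (l 16552864) (l 16568080))) (a (b (l 16596536) (l 16620368)) (l 16596432)))), by decide +kernel⟩

def k4_pm_202 : ∃ t, chk3 f_pm_202 t 3 8 1 = true :=
  ⟨(a (l 1) (b (a (l 1) (l 6)) (b (a (a (l 1) (l 6)) (l 6)) (b (a (a (l 1) (l 6)) (l 6)) (a (a (a (l 1) (b (l 278132430999) (l 295849176983))) (a (b (l 6) (c (l 16658112) (l 16652408))) (l 16672320))) (b (l 6) (a (l 16679608) (l 16683984)))))))), by decide +kernel⟩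

def k5_pm_202 : ∃ t, chk3 f_pm_202 t 3 9 1 = true :=
  ⟨(a (a (b (l 1) (b (a (b (l 1) (a (l 1) (l 269005419047))) (c (b (a (l 1) (l 16557800)) (a (l 189011508535) (l 16560560))) (a (l 316250063879) (a (l 352757301271) (l 382822083239))))) (c (b (a (a (l 411813001271) (b (l 16516656) (l 16539280))) (l 16556920)) (a (a (l 16508176) (l 16541352)) (l 16552520))) (a (b (a (l 16535288) (l 16548920)) (a (l 16519016) (l 16532320))) (b (b (l 16463288) (l 16549176)) (l 16552064)))))) (b (b (a (l 1) (b (l 1) (a (l 246993827063) (c (l 16611080) (l 326987598135))))) (a (b (a (l 1) (l 263099933991)) (a (l 286722230663) (b (l 16589488) (l 105259699191)))) (a (b (c (b (l 16596624) (l 16597280)) (l 322692604791)) (l 16510728)) (c (l 16533432) (b (l 16604352) (l 16605768)))))) (a (b (a (b (c (l 16508744) (l 16562280)) (l 16528144)) (b (l 16497928) (l 16583744))) (b (l 16574336) (l 16565680))) (b (b (l 16603144) (l 16593552)) (l 16579816))))) (a (b (a (a (b (b (b (l 284574849175) (l 307123433863)) (c (l 16605400) (l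 16619344))) (b (l 16623640) (l 16620512))) (b (b (a (c (l 16616936) (l 16631088)) (l 16579960)) (l 16638816)) (l 16630456))) (b (b (a (l 16655008) (l 16666048)) (l 16632096)) (c (l 16636304) (l 16638264)))) (a (b (l 16607960) (l 16589008)) (b (c (l 16616880) (l 16616688)) (l 16597072)))) (b (a (b (a (l 16663960) (l 16666808)) (a (l 16642096) (l 16644824))) (b (a (l 16668984) (l 16670208)) (l 16668648))) (a (b (l 16622744) (l 16603200)) (b (l 16626704) (l 16607032)))))), by decide +kernel⟩

def k6_pm_202 : ∃ t, chk3 f_pm_202 t 3 5 1 = true :=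
  ⟨(a (b (b (b (a (a (a (b (l 16465528) (l 16528896)) (b (l 16540208) (l 16533616))) (c (l 16542416) (l 16546584))) (a (c (l 16553160) (l 16554872)) (c (l 16563640) (l 16562960)))) (a (a (c (b (l 16523912) (l 16519000)) (l 16524544)) (b (c (l 16533392) (l 16535024)) (b (l 16528712) (l 16525664)))) (b (a (l 16541896) (l 16550832)) (b (a (l 16536392) (l 16545264)) (a (b (l 16533760) (l 16532104)) (l 16541936)))))) (a (b (a (c (b (l 16514472) (l 16510472)) (b (l 16514904) (l 16509120))) (c (l 16562744) (l 16539048))) (a (l 16508936) (l 16515296))) (b (a (b (l 16528032) (l 16522112)) (l 16533088)) (a (l 16520504) (l 16526192))))) (a (b (a (c (l 16514120) (l 16510776)) (l 16516560)) (a (l 16514288) (l 16517672))) (b (a (l 16520128) (l 16523592)) (l 16520480)))) (b (b (a (b (a (l 16571480) (l 16579232)) (b (l 16563472) (b (l 16557792) (a (l 16550504) (l 16558208))))) (b (a (l 16585176) (l 16588304)) (b (a (l 16572608) (l 16575024)) (a (b (l 16566752) (l 16584696)) (b (l 16568856) (b (l 16566176) (l 16564800)))))))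 (b (a (a (l 16541344) (l 16548632)) (a (l 16553520) (l 16555672))) (a (l 16557544) (a (l 16542784) (l 16544280))))) (a (b (a (l 16527280) (l 16530888)) (l 16627120)) (b (a (l 16532608) (l 16532400)) (a (l 16521696) (l 16519424)))))), by decide +kernel⟩

def k7_pm_202 : ∃ t, chk3 f_pm_202 t 3 3 1 = true :=
  ⟨(b (a (b (a (b (l 16530120) (l 16524048)) (b (l 16519760) (l 16520144))) (a (b (l 16529840) (l 16537040)) (b (l 16522280) (l 16525672)))) (b (a (b (l 16517496) (l 16514376)) (b (l 16512056) (l 16506096))) (a (b (l 16513408) (l 16513376)) (b (l 16523632) (l 16499352))))) (a (b (a (b (l 16545392) (l 16555520)) (l 16701560)) (a (l 16577240) (l 16551424))) (b (a (l 16515760) (l 16685576)) (a (l 16528000) (l 16503888))))), by decide +kernel⟩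

theorem s8_pm_202 : ∃ t, chk3 f_pm_202 t 3 4 1 = true := ex3_b k4_pm_202 k5_pm_202

theorem s9_pm_202 : ∃ t, chk3 f_pm_202 t 3 2 1 = true := ex3_b s8_pm_202 k6_pm_202

theorem s10_pm_202 : ∃ t, chk3 f_pm_202 t 3 1 1 = true := ex3_b s9_pm_202 k7_pm_202

theorem s11_pm_202 : ∃ t, chk3 f_pm_202 t 5 2 1 = true := ex3_b k1_pm_202 k2_pm_202

theorem s12_pm_202 : ∃ t, chk3 f_pm_202 t 5 1 1 = true := ex3_b s11_pm_202 k3_pm_202

theorem s13_pm_202 : ∃ t, chk3 f_pm_202 t 2 1 1 = true := ex3_a k0_pm_202 s12_pm_202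

theorem s14_pm_202 : ∃ t, chk3 f_pm_202 t 1 1 1 = true := ex3_a s13_pm_202 s10_pm_202

theorem c_pm_202 : CertB 0 536870912 0 536870912 649613803 48318383 3 eng mog cd0q2 cd3q0 pd2 true true false .pp 2 0 2
    ndB0q2 ndB3q0 pcB2 cut_pm_202 Ext.none :=
  certB1 (fam := true) (s1 := true) (s2 := false) (a := 2) (b := 0) (c := 2) (cn := .pp) (n1 := ndB0q2) (n2 := ndB3q0) (pc := pcB2) (cut := cut_pm_202) (xt := Ext.none) (P1 := 0) (W1 := 536870912) (P2 := 0) (W2 := 536870912) (P3 := 649613803) (W3 := 48318383) (N0 := 3) (En := eng) (mo := mog) (C1 := cd0q2) (C2 := cd3q0) (C3 := pd2)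
    rfl (fun _ => rfl) s14_pm_202

noncomputable def f_pm_203 : ℕ → ℕ → ℕ → ℕ → Bool := onCell 0 536870912 1610612736 536870912 649613803 48318383
    (rowB 3 eng mog cd0q2 cd3q0 pd3 1 true true false .up 2 0 3 (qsf 0 536870912 0 536870912 3) ndB0q2 ndB3q0 pcB3 Cut.none Ext.none)

def k0_pm_203 : ∃ t, chk3 f_pm_203 t 1 1 1 = true :=
  ⟨(b (b (a (a (b (b (l 16686480) (l 16720088)) (b (l 16747016) (l 16765992))) (b (a (b (l 16661168) (l 16700744)) (b (l 16649584) (l 16688496))) (b (l 16729120) (l 16759064)))) (b (a (a (l 16649472) (l 16628256)) (a (l 16617696) (l 16618616))) (a (a (l 16728632) (l 16719824)) (a (l 16724288) (l 2))))) (a (a (l 4) (b (l 17024144) (l 2))) (a (l 2) (l 2)))) (l 2)), by decide +kernel⟩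

theorem c_pm_203 : CertB 0 536870912 0 536870912 649613803 48318383 3 eng mog cd0q2 cd3q0 pd3 true true false .up 2 0 3
    ndB0q2 ndB3q0 pcB3 Cut.none Ext.none :=
  certB1 (fam := true) (s1 := true) (s2 := false) (a := 2) (b := 0) (c := 3) (cn := .up) (n1 := ndB0q2) (n2 := ndB3q0) (pc := pcB3) (cut := Cut.none) (xt := Ext.none) (P1 := 0) (W1 := 536870912) (P2 := 0) (W2 := 536870912) (P3 := 649613803) (W3 := 48318383) (N0 := 3) (En := eng) (mo := mog) (C1 := cd0q2) (C2 := cd3q0) (C3 := pd3)
    rfl (fun _ => rfl) k0_pm_203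

noncomputable def f_pm_213 : ℕ → ℕ → ℕ → ℕ → Bool := onCell 0 536870912 1610612736 536870912 649613803 48318383
    (rowB 3 eng mog cd0q2 cd3q1 pd3 1 true true false .pnn 2 1 3 (qsf 0 536870912 536870912 536870912 3) ndB0q2 ndB3q1 pcB3 Cut.none Ext.none)

def k0_pm_213 : ∃ t, chk3 f_pm_213 t 1 1 1 = true :=
  ⟨(a (b (b (a (l 1) (b (l 1) (b (l 1) (l 16731032)))) (a (l 4) (b (b (l 16720136) (l 16705392)) (l 28151476439)))) (l 4)) (b (b (b (a (l 1) (a (l 16712784) (l 16731680))) (a (a (l 16785608) (l 16803040)) (a (l 16838616) (l 16921392)))) (b (a (a (l 16802048) (l 16903912)) (a (l 16996720) (b (l 17103152) (l 17039088)))) (a (b (l 16779224) (l 16771560)) (a (l 16903944) (l 16965264))))) (b (a (b (a (l 16637840) (l 16685552)) (l 4)) (b (b (l 16883152) (l 16846856)) (b (l 16852240) (l 16780816)))) (b (a (l 4) (b (a (l 4) (l 16773528)) (l 4))) (l 4))))), by decide +kernel⟩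

theorem c_pm_213 : CertB 0 536870912 536870912 536870912 649613803 48318383 3 eng mog cd0q2 cd3q1 pd3 true true false .pnn 2 1 3
    ndB0q2 ndB3q1 pcB3 Cut.none Ext.none :=
  certB1 (fam := true) (s1 := true) (s2 := false) (a := 2) (b := 1) (c := 3) (cn := .pnn) (n1 := ndB0q2) (n2 := ndB3q1) (pc := pcB3) (cut := Cut.none) (xt := Ext.none) (P1 := 0) (W1 := 536870912) (P2 := 536870912) (W2 := 536870912) (P3 := 649613803) (W3 := 48318383) (N0 := 3) (En := eng) (mo := mog) (C1 := cd0q2) (C2 := cd3q1) (C3 := pd3)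
    rfl (fun _ => rfl) k0_pm_213

noncomputable def f_mm_001 : ℕ → ℕ → ℕ → ℕ → Bool := onCell 0 536870912 0 536870912 649613803 48318383
    (rowB 3 eng mog cd0q0 cd3q0 pd1 0 true false false .up 0 0 1 (qsf 0 536870912 0 536870912 1) ndB0q0 ndB3q0 pcB1 Cut.none Ext.none)

def k0_mm_001 : ∃ t, chk3 f_mm_001 t 1 1 1 = true :=
  ⟨(l 4), by decide +kernel⟩

theorem c_mm_001 : CertB 0 536870912 0 536870912 649613803 48318383 3 eng mog cd0q0 cd3q0 pd1 true false false .up 0 0 1
    ndB0q0 ndB3q0 pcB1 Cut.none Ext.none :=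
  certB0 (fam := true) (s1 := false) (s2 := false) (a := 0) (b := 0) (c := 1) (cn := .up) (n1 := ndB0q0) (n2 := ndB3q0) (pc := pcB1) (cut := Cut.none) (xt := Ext.none) (P1 := 0) (W1 := 536870912) (P2 := 0) (W2 := 536870912) (P3 := 649613803) (W3 := 48318383) (N0 := 3) (En := eng) (mo := mog) (C1 := cd0q0) (C2 := cd3q0) (C3 := pd1)
    rfl k0_mm_001

noncomputable def f_mm_011 : ℕ → ℕ → ℕ → ℕ → Bool := onCell 0 536870912 536870912 536870912 649613803 48318383
    (rowB 3 eng mog cd0q0 cd3q1 pd1 0 true false false .pnn 0 1 1 (qsf 0 536870912 536870912 536870912 1) ndB0q0 ndB3q1 pcB1 Cut.none Ext.none)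

def k0_mm_011 : ∃ t, chk3 f_mm_011 t 1 1 1 = true :=
  ⟨(l 4), by decide +kernel⟩

theorem c_mm_011 : CertB 0 536870912 536870912 536870912 649613803 48318383 3 eng mog cd0q0 cd3q1 pd1 true false false .pnn 0 1 1
    ndB0q0 ndB3q1 pcB1 Cut.none Ext.none :=
  certB0 (fam := true) (s1 := false) (s2 := false) (a := 0) (b := 1) (c := 1) (cn := .pnn) (n1 := ndB0q0) (n2 := ndB3q1) (pc := pcB1) (cut := Cut.none) (xt := Ext.none) (P1 := 0) (W1 := 536870912) (P2 := 536870912) (W2 := 536870912) (P3 := 649613803) (W3 := 48318383) (N0 := 3) (En := eng) (mo := mog) (C1 := cd0q0) (C2 := cd3q1) (C3 := pd1)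
    rfl k0_mm_011

noncomputable def f_mm_012 : ℕ → ℕ → ℕ → ℕ → Bool := onCell 0 536870912 536870912 536870912 649613803 48318383
    (rowB 3 eng mog cd0q0 cd3q1 pd2 0 true false false .pnp 0 1 2 (qsf 0 536870912 536870912 536870912 2) ndB0q0 ndB3q1 pcB2 Cut.none Ext.none)

def k0_mm_012 : ∃ t, chk3 f_mm_012 t 1 1 1 = true :=
  ⟨(l 4), by decide +kernel⟩

theorem c_mm_012 : CertB 0 536870912 536870912 536870912 649613803 48318383 3 eng mog cd0q0 cd3q1 pd2 true false false .pnp 0 1 2
    ndB0q0 ndB3q1 pcB2 Cut.none Ext.none :=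
  certB0 (fam := true) (s1 := false) (s2 := false) (a := 0) (b := 1) (c := 2) (cn := .pnp) (n1 := ndB0q0) (n2 := ndB3q1) (pc := pcB2) (cut := Cut.none) (xt := Ext.none) (P1 := 0) (W1 := 536870912) (P2 := 536870912) (W2 := 536870912) (P3 := 649613803) (W3 := 48318383) (N0 := 3) (En := eng) (mo := mog) (C1 := cd0q0) (C2 := cd3q1) (C3 := pd2)
    rfl k0_mm_012

noncomputable def f_mm_022_a : ℕ → ℕ → ℕ → ℕ → Bool := onCell 0 536870912 0 536870912 649613803 48318383
    (rowB 3 eng mog cd0q0 cd3q2a pd2 0 true false false .pp 0 2 2 (qsf 0 536870912 0 536870912 2) ndB0q0 ndB3q2a pcB2 Cut.none Ext.none)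

def k0_mm_022_a : ∃ t, chk3 f_mm_022_a t 1 1 1 = true :=
  ⟨(l 5), by decide +kernel⟩

theorem c_mm_022_a : CertB 0 536870912 0 536870912 649613803 48318383 3 eng mog cd0q0 cd3q2a pd2 true false false .pp 0 2 2
    ndB0q0 ndB3q2a pcB2 Cut.none Ext.none :=
  certB0 (fam := true) (s1 := false) (s2 := false) (a := 0) (b := 2) (c := 2) (cn := .pp) (n1 := ndB0q0) (n2 := ndB3q2a) (pc := pcB2) (cut := Cut.none) (xt := Ext.none) (P1 := 0) (W1 := 536870912) (P2 := 0) (W2 := 536870912) (P3 := 649613803) (W3 := 48318383) (N0 := 3) (En := eng) (mo := mog) (C1 := cd0q0) (C2 := cd3q2a) (C3 := pd2)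
    rfl k0_mm_022_a

noncomputable def f_mm_022_b : ℕ → ℕ → ℕ → ℕ → Bool := onCell 0 536870912 1239849684 370763052 649613803 48318383
    (rowB 3 eng mog cd0q0 cd3q2b pd2 0 true false false .pp 0 2 2 (qsf 0 536870912 1239849684 370763052 2) ndB0q0 ndB3q2b pcB2 Cut.none Ext.none)

def k0_mm_022_b : ∃ t, chk3 f_mm_022_b t 1 1 1 = true :=
  ⟨(l 5), by decide +kernel⟩

theorem c_mm_022_b : CertB 0 536870912 1239849684 370763052 649613803 48318383 3 eng mog cd0q0 cd3q2b pd2 true false false .pp 0 2 2
    ndB0q0 ndB3q2b pcB2 Cut.none Ext.none :=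
  certB0 (fam := true) (s1 := false) (s2 := false) (a := 0) (b := 2) (c := 2) (cn := .pp) (n1 := ndB0q0) (n2 := ndB3q2b) (pc := pcB2) (cut := Cut.none) (xt := Ext.none) (P1 := 0) (W1 := 536870912) (P2 := 1239849684) (W2 := 370763052) (P3 := 649613803) (W3 := 48318383) (N0 := 3) (En := eng) (mo := mog) (C1 := cd0q0) (C2 := cd3q2b) (C3 := pd2)
    rfl k0_mm_022_b

noncomputable def f_mm_023_a : ℕ → ℕ → ℕ → ℕ → Bool := onCell 0 536870912 0 536870912 649613803 48318383
    (rowB 3 eng mog cd0q0 cd3q2a pd3 0 true false false .up 0 2 3 (qsf 0 536870912 0 536870912 3) ndB0q0 ndB3q2a pcB3 Cut.none Ext.none)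

def k0_mm_023_a : ∃ t, chk3 f_mm_023_a t 1 1 1 = true :=
  ⟨(l 5), by decide +kernel⟩

theorem c_mm_023_a : CertB 0 536870912 0 536870912 649613803 48318383 3 eng mog cd0q0 cd3q2a pd3 true false false .up 0 2 3
    ndB0q0 ndB3q2a pcB3 Cut.none Ext.none :=
  certB0 (fam := true) (s1 := false) (s2 := false) (a := 0) (b := 2) (c := 3) (cn := .up) (n1 := ndB0q0) (n2 := ndB3q2a) (pc := pcB3) (cut := Cut.none) (xt := Ext.none) (P1 := 0) (W1 := 536870912) (P2 := 0) (W2 := 536870912) (P3 := 649613803) (W3 := 48318383) (N0 := 3) (En := eng) (mo := mog) (C1 := cd0q0) (C2 := cd3q2a) (C3 := pd3)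
    rfl k0_mm_023_a

noncomputable def f_mm_023_b : ℕ → ℕ → ℕ → ℕ → Bool := onCell 0 536870912 1239849684 370763052 649613803 48318383
    (rowB 3 eng mog cd0q0 cd3q2b pd3 0 true false false .up 0 2 3 (qsf 0 536870912 1239849684 370763052 3) ndB0q0 ndB3q2b pcB3 Cut.none Ext.none)

def k0_mm_023_b : ∃ t, chk3 f_mm_023_b t 1 1 1 = true :=
  ⟨(l 5), by decide +kernel⟩

theorem c_mm_023_b : CertB 0 536870912 1239849684 370763052 649613803 48318383 3 eng mog cd0q0 cd3q2b pd3 true false false .up 0 2 3
    ndB0q0 ndB3q2b pcB3 Cut.none Ext.none :=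
  certB0 (fam := true) (s1 := false) (s2 := false) (a := 0) (b := 2) (c := 3) (cn := .up) (n1 := ndB0q0) (n2 := ndB3q2b) (pc := pcB3) (cut := Cut.none) (xt := Ext.none) (P1 := 0) (W1 := 536870912) (P2 := 1239849684) (W2 := 370763052) (P3 := 649613803) (W3 := 48318383) (N0 := 3) (En := eng) (mo := mog) (C1 := cd0q0) (C2 := cd3q2b) (C3 := pd3)
    rfl k0_mm_023_b

noncomputable def f_mm_033 : ℕ → ℕ → ℕ → ℕ → Bool := onCell 0 536870912 1610612736 536870912 649613803 48318383
    (rowB 3 eng mog cd0q0 cd3q3 pd3 0 true false false .pnn 0 3 3 (qsf 0 536870912 1610612736 536870912 3) ndB0q0 ndB3q3 pcB3 Cut.none Ext.none)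

def k0_mm_033 : ∃ t, chk3 f_mm_033 t 1 1 1 = true :=
  ⟨(l 5), by decide +kernel⟩

theorem c_mm_033 : CertB 0 536870912 1610612736 536870912 649613803 48318383 3 eng mog cd0q0 cd3q3 pd3 true false false .pnn 0 3 3
    ndB0q0 ndB3q3 pcB3 Cut.none Ext.none :=
  certB0 (fam := true) (s1 := false) (s2 := false) (a := 0) (b := 3) (c := 3) (cn := .pnn) (n1 := ndB0q0) (n2 := ndB3q3) (pc := pcB3) (cut := Cut.none) (xt := Ext.none) (P1 := 0) (W1 := 536870912) (P2 := 1610612736) (W2 := 536870912) (P3 := 649613803) (W3 := 48318383) (N0 := 3) (En := eng) (mo := mog) (C1 := cd0q0) (C2 := cd3q3) (C3 := pd3)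
    rfl k0_mm_033

noncomputable def cut_mm_101 : Cut := Cut.of [[⟨0, 1, 0, 67108864⟩, ⟨1, 0, 0, 67108864⟩, ⟨2, 1, 0, 67108864⟩]]

noncomputable def f_mm_101 : ℕ → ℕ → ℕ → ℕ → Bool := onCell 536870912 536870912 0 536870912 649613803 48318383
    (rowB 3 eng mog cd0q1 cd3q0 pd1 0 true false false .npn 1 0 1 (qsf 536870912 536870912 0 536870912 1) ndB0q1 ndB3q0 pcB1 cut_mm_101 Ext.none)

def k0_mm_101 : ∃ t, chk3 f_mm_101 t 1 1 1 = true :=
  ⟨(a (l 4) (b (a (l 4) (b (a (l 4) (b (a (l 4) (b (l 6) (l 4))) (l 4))) (l 4))) (l 4))), by decide +kernel⟩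

theorem c_mm_101 : CertB 536870912 536870912 0 536870912 649613803 48318383 3 eng mog cd0q1 cd3q0 pd1 true false false .npn 1 0 1
    ndB0q1 ndB3q0 pcB1 cut_mm_101 Ext.none :=
  certB0 (fam := true) (s1 := false) (s2 := false) (a := 1) (b := 0) (c := 1) (cn := .npn) (n1 := ndB0q1) (n2 := ndB3q0) (pc := pcB1) (cut := cut_mm_101) (xt := Ext.none) (P1 := 536870912) (W1 := 536870912) (P2 := 0) (W2 := 536870912) (P3 := 649613803) (W3 := 48318383) (N0 := 3) (En := eng) (mo := mog) (C1 := cd0q1) (C2 := cd3q0) (C3 := pd1)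
    rfl k0_mm_101

noncomputable def cut_mm_102 : Cut := Cut.of [[⟨0, 1, 0, 67108864⟩, ⟨1, 0, 0, 67108864⟩, ⟨2, 1, 0, 67108864⟩]]

noncomputable def f_mm_102 : ℕ → ℕ → ℕ → ℕ → Bool := onCell 536870912 536870912 0 536870912 649613803 48318383
    (rowB 3 eng mog cd0q1 cd3q0 pd2 0 true false false .npp 1 0 2 (qsf 536870912 536870912 0 536870912 2) ndB0q1 ndB3q0 pcB2 cut_mm_102 Ext.none)

def k0_mm_102 : ∃ t, chk3 f_mm_102 t 1 1 1 = true :=
  ⟨(a (l 4) (b (a (l 4) (b (a (l 4) (a (l 4) (b (b (l 6) (l 4)) (l 4)))) (l 4))) (l 4))), by decide +kernel⟩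

theorem c_mm_102 : CertB 536870912 536870912 0 536870912 649613803 48318383 3 eng mog cd0q1 cd3q0 pd2 true false false .npp 1 0 2
    ndB0q1 ndB3q0 pcB2 cut_mm_102 Ext.none :=
  certB0 (fam := true) (s1 := false) (s2 := false) (a := 1) (b := 0) (c := 2) (cn := .npp) (n1 := ndB0q1) (n2 := ndB3q0) (pc := pcB2) (cut := cut_mm_102) (xt := Ext.none) (P1 := 536870912) (W1 := 536870912) (P2 := 0) (W2 := 536870912) (P3 := 649613803) (W3 := 48318383) (N0 := 3) (En := eng) (mo := mog) (C1 := cd0q1) (C2 := cd3q0) (C3 := pd2)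
    rfl k0_mm_102

noncomputable def f_mm_112 : ℕ → ℕ → ℕ → ℕ → Bool := onCell 536870912 536870912 536870912 536870912 649613803 48318383
    (rowB 3 eng mog cd0q1 cd3q1 pd2 0 true false false .dn 1 1 2 (qsf 536870912 536870912 536870912 536870912 2) ndB0q1 ndB3q1 pcB2 Cut.none Ext.none)

def k0_mm_112 : ∃ t, chk3 f_mm_112 t 1 1 1 = true :=
  ⟨(l 4), by decide +kernel⟩

theorem c_mm_112 : CertB 536870912 536870912 536870912 536870912 649613803 48318383 3 eng mog cd0q1 cd3q1 pd2 true false false .dn 1 1 2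
    ndB0q1 ndB3q1 pcB2 Cut.none Ext.none :=
  certB0 (fam := true) (s1 := false) (s2 := false) (a := 1) (b := 1) (c := 2) (cn := .dn) (n1 := ndB0q1) (n2 := ndB3q1) (pc := pcB2) (cut := Cut.none) (xt := Ext.none) (P1 := 536870912) (W1 := 536870912) (P2 := 536870912) (W2 := 536870912) (P3 := 649613803) (W3 := 48318383) (N0 := 3) (En := eng) (mo := mog) (C1 := cd0q1) (C2 := cd3q1) (C3 := pd2)
    rfl k0_mm_112

noncomputable def f_mm_113 : ℕ → ℕ → ℕ → ℕ → Bool := onCell 536870912 536870912 536870912 536870912 649613803 48318383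
    (rowB 3 eng mog cd0q1 cd3q1 pd3 0 true false false .nn 1 1 3 (qsf 536870912 536870912 536870912 536870912 3) ndB0q1 ndB3q1 pcB3 Cut.none Ext.none)

def k0_mm_113 : ∃ t, chk3 f_mm_113 t 1 1 1 = true :=
  ⟨(l 4), by decide +kernel⟩

theorem c_mm_113 : CertB 536870912 536870912 536870912 536870912 649613803 48318383 3 eng mog cd0q1 cd3q1 pd3 true false false .nn 1 1 3
    ndB0q1 ndB3q1 pcB3 Cut.none Ext.none :=
  certB0 (fam := true) (s1 := false) (s2 := false) (a := 1) (b := 1) (c := 3) (cn := .nn) (n1 := ndB0q1) (n2 := ndB3q1) (pc := pcB3) (cut := Cut.none) (xt := Ext.none) (P1 := 536870912) (W1 := 536870912) (P2 := 536870912) (W2 := 536870912) (P3 := 649613803) (W3 := 48318383) (N0 := 3) (En := eng) (mo := mog) (C1 := cd0q1) (C2 := cd3q1) (C3 := pd3)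
    rfl k0_mm_113

noncomputable def f_mm_123_a : ℕ → ℕ → ℕ → ℕ → Bool := onCell 536870912 536870912 0 536870912 649613803 48318383
    (rowB 3 eng mog cd0q1 cd3q2a pd3 0 true false false .npn 1 2 3 (qsf 536870912 536870912 0 536870912 3) ndB0q1 ndB3q2a pcB3 Cut.none Ext.none)

def k0_mm_123_a : ∃ t, chk3 f_mm_123_a t 1 1 1 = true :=
  ⟨(l 4), by decide +kernel⟩

theorem c_mm_123_a : CertB 536870912 536870912 0 536870912 649613803 48318383 3 eng mog cd0q1 cd3q2a pd3 true false false .npn 1 2 3
    ndB0q1 ndB3q2a pcB3 Cut.none Ext.none :=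
  certB0 (fam := true) (s1 := false) (s2 := false) (a := 1) (b := 2) (c := 3) (cn := .npn) (n1 := ndB0q1) (n2 := ndB3q2a) (pc := pcB3) (cut := Cut.none) (xt := Ext.none) (P1 := 536870912) (W1 := 536870912) (P2 := 0) (W2 := 536870912) (P3 := 649613803) (W3 := 48318383) (N0 := 3) (En := eng) (mo := mog) (C1 := cd0q1) (C2 := cd3q2a) (C3 := pd3)
    rfl k0_mm_123_a

noncomputable def f_mm_123_b : ℕ → ℕ → ℕ → ℕ → Bool := onCell 536870912 536870912 1239849684 370763052 649613803 48318383
    (rowB 3 eng mog cd0q1 cd3q2b pd3 0 true false false .npn 1 2 3 (qsf 536870912 536870912 1239849684 370763052 3) ndB0q1 ndB3q2b pcB3 Cut.none Ext.none)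

def k0_mm_123_b : ∃ t, chk3 f_mm_123_b t 1 1 1 = true :=
  ⟨(l 4), by decide +kernel⟩

theorem c_mm_123_b : CertB 536870912 536870912 1239849684 370763052 649613803 48318383 3 eng mog cd0q1 cd3q2b pd3 true false false .npn 1 2 3
    ndB0q1 ndB3q2b pcB3 Cut.none Ext.none :=
  certB0 (fam := true) (s1 := false) (s2 := false) (a := 1) (b := 2) (c := 3) (cn := .npn) (n1 := ndB0q1) (n2 := ndB3q2b) (pc := pcB3) (cut := Cut.none) (xt := Ext.none) (P1 := 536870912) (W1 := 536870912) (P2 := 1239849684) (W2 := 370763052) (P3 := 649613803) (W3 := 48318383) (N0 := 3) (En := eng) (mo := mog) (C1 := cd0q1) (C2 := cd3q2b) (C3 := pd3)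
    rfl k0_mm_123_b

noncomputable def f_mm_133 : ℕ → ℕ → ℕ → ℕ → Bool := onCell 536870912 536870912 1610612736 536870912 649613803 48318383
    (rowB 3 eng mog cd0q1 cd3q3 pd3 0 true false false .dn 1 3 3 (qsf 536870912 536870912 1610612736 536870912 3) ndB0q1 ndB3q3 pcB3 Cut.none Ext.none)

def k0_mm_133 : ∃ t, chk3 f_mm_133 t 1 1 1 = true :=
  ⟨(l 4), by decide +kernel⟩

theorem c_mm_133 : CertB 536870912 536870912 1610612736 536870912 649613803 48318383 3 eng mog cd0q1 cd3q3 pd3 true false false .dn 1 3 3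
    ndB0q1 ndB3q3 pcB3 Cut.none Ext.none :=
  certB0 (fam := true) (s1 := false) (s2 := false) (a := 1) (b := 3) (c := 3) (cn := .dn) (n1 := ndB0q1) (n2 := ndB3q3) (pc := pcB3) (cut := Cut.none) (xt := Ext.none) (P1 := 536870912) (W1 := 536870912) (P2 := 1610612736) (W2 := 536870912) (P3 := 649613803) (W3 := 48318383) (N0 := 3) (En := eng) (mo := mog) (C1 := cd0q1) (C2 := cd3q3) (C3 := pd3)
    rfl k0_mm_133

noncomputable def cut_mm_202 : Cut := Cut.of [[⟨0, 1, 0, 67108864⟩, ⟨1, 0, 0, 67108864⟩, ⟨2, 1, 0, 67108864⟩]]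

noncomputable def f_mm_202 : ℕ → ℕ → ℕ → ℕ → Bool := onCell 0 536870912 0 536870912 649613803 48318383
    (rowB 3 eng mog cd0q2 cd3q0 pd2 0 true false false .pp 2 0 2 (qsf 0 536870912 0 536870912 2) ndB0q2 ndB3q0 pcB2 cut_mm_202 Ext.none)

def k0_mm_202 : ∃ t, chk3 f_mm_202 t 2 2 1 = true :=
  ⟨(b (a (b (b (b (c (a (a (l 16440944) (l 16444752)) (a (l 16450808) (l 16458888))) (a (a (l 16441528) (l 16445176)) (l 16465816))) (a (c (a (l 16446904) (l 16450712)) (l 16437096)) (a (b (l 16452024) (l 16457360)) (b (l 16459808) (l 16464072))))) (a (b (l 16458408) (l 16468224)) (b (l 16469648) (l 16480504)))) (a (b (l 16481512) (l 16497856)) (b (a (l 16491128) (l 16499976)) (l 16515336)))) (b (a (b (b (a (c (l 16468904) (l 16468600)) (a (l 16466600) (b (l 16483552) (l 16484656)))) (a (b (l 16469944) (l 16472832)) (b (l 16482688) (l 16484888)))) (a (b (l 16481496) (l 16493376)) (b (l 16492176) (l 16504392)))) (b (b (a (b (a (l 16491512) (l 16500224)) (a (l 16492616) (l 16501544))) (a (b (l 16510064) (l 16511528))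 (b (c (l 16520824) (l 16521576)) (l 16522568)))) (a (a (l 16495512) (l 16504664)) (a (l 16514864) (l 16547104)))) (a (b (b (l 16504504) (l 16509408)) (l 16518904)) (b (a (l 16521376) (l 16532808)) (b (l 16534448) (l 16540880)))))) (a (b (l 16505712) (l 16538680)) (b (a (l 16537592) (l 16599088)) (a (l 16562080) (l 16582856)))))) (a (b (a (b (a (l 16513776) (l 16522216)) (b (l 16536336) (l 16549032))) (b (l 16538496) (l 16565496))) (a (b (l 16567088) (l 16592504)) (b (l 16593224) (l 16621928)))) (b (a (b (l 16564320) (l 16593216)) (b (l 16746864) (l 16630600))) (a (b (l 16623208) (l 16653000)) (b (a (l 16650336) (l 4)) (l 4)))))), by decide +kernel⟩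

def k1_mm_202 : ∃ t, chk3 f_mm_202 t 6 4 1 = true :=
  ⟨(b (a (b (b (a (b (a (c (l 16532488) (l 16533696)) (c (l 16545080) (l 16546824))) (a (l 16534624) (l 16547648))) (a (b (a (l 16535024) (c (l 16561632) (l 16559008))) (l 16561568)) (b (b (a (l 16531168) (l 16535856)) (l 16569848)) (l 16576328)))) (a (a (b (l 16536992) (l 16539936)) (b (l 16550152) (l 16553232))) (a (l 16565736) (l 16580664)))) (a (b (a (l 16545360) (l 16558864)) (b (l 16558792) (l 16564424))) (b (a (l 16573240) (l 16588424)) (a (l 16582728) (l 16598168))))) (b (b (a (b (a (b (c (l 16576560) (l 16572824)) (l 16537984)) (b (c (l 16587568) (l 16583496)) (l 16601472))) (a (l 16587336) (c (l 16600216) (l 16597048)))) (b (a (b (c (l 16599552) (l 16595272)) (l 16603080)) (b (c (l 16612656) (l 16608312)) (l 16616360))) (a (l 16611200) (b (l 16622016) (l 16627536))))) (a (a (l 16596104) (l 16611888)) (a (l 16626488) (l 16640712)))) (a (b (l 16612152) (l 16622240)) (b (l 16644640) (l 16655112))))) (a (b (a (b (l 16574320) (l 16587760))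 (b (a (l 16594824) (l 16651904)) (l 16616128))) (a (l 16607880) (b (l 16629992) (l 16644256)))) (b (b (a (l 16634104) (l 16667456)) (a (l 16647648) (a (l 16672904) (l 16690952)))) (a (l 16691272) (l 4))))), by decide +kernel⟩

def k2_mm_202 : ∃ t, chk3 f_mm_202 t 7 4 1 = true :=
  ⟨(b (a (b (b (a (b (a (b (c (l 16626992) (l 16622752)) (l 16630936)) (b (a (l 16636568) (l 16644792)) (l 16646872))) (a (a (l 16635800) (l 16643560)) (a (l 16651672) (l 16660120)))) (a (b (b (l 6) (a (l 16659696) (l 6))) (b (l 16670416) (l 16655512))) (b (l 6) (b (l 6) (a (l 16690600) (l 6)))))) (a (b (a (l 16650808) (l 16667392)) (l 16669832)) (b (a (l 16685304) (l 16704600)) (a (l 16695808) (l 16712568))))) (b (a (a (l 16669288) (l 16685856)) (a (l 16702600) (a (l 16715704) (l 16725176)))) (a (a (l 16679984) (l 16697240)) (b (l 16753400) (l 4))))) (b (a (b (l 6) (a (b (l 6) (l 16740416)) (l 6))) (l 6)) (a (b (b (a (l 16736512) (l 4)) (l 4)) (l 4)) (l 4)))) (a (b (a (b (l 16724168) (l 4)) (l 4)) (l 4)) (l 4))), by decide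 +kernel⟩

def k3_mm_202 : ∃ t, chk3 f_mm_202 t 3 5 1 = true :=
  ⟨(a (b (a (b (a (l 16658056) (l 16668032)) (l 4)) (l 4)) (l 4)) (l 4)), by decide +kernel⟩

def k4_mm_202 : ∃ t, chk3 f_mm_202 t 1 3 1 = true :=
  ⟨(a (b (a (a (b (b (l 16621768) (l 16653768)) (b (l 16686280) (l 16717536))) (b (b (l 16652456) (l 16682488)) (l 4))) (a (l 4) (l 4))) (l 4)) (l 4)), by decide +kernel⟩

theorem s5_mm_202 : ∃ t, chk3 f_mm_202 t 3 4 1 = true := ex3_a k1_mm_202 k2_mm_202

theorem s6_mm_202 : ∃ t, chk3 f_mm_202 t 3 2 1 = true := ex3_b s5_mm_202 k3_mm_202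

theorem s7_mm_202 : ∃ t, chk3 f_mm_202 t 1 2 1 = true := ex3_a k0_mm_202 s6_mm_202

theorem s8_mm_202 : ∃ t, chk3 f_mm_202 t 1 1 1 = true := ex3_b s7_mm_202 k4_mm_202

theorem c_mm_202 : CertB 0 536870912 0 536870912 649613803 48318383 3 eng mog cd0q2 cd3q0 pd2 true false false .pp 2 0 2
    ndB0q2 ndB3q0 pcB2 cut_mm_202 Ext.none :=
  certB0 (fam := true) (s1 := false) (s2 := false) (a := 2) (b := 0) (c := 2) (cn := .pp) (n1 := ndB0q2) (n2 := ndB3q0) (pc := pcB2) (cut := cut_mm_202) (xt := Ext.none) (P1 := 0) (W1 := 536870912) (P2 := 0) (W2 := 536870912) (P3 := 649613803) (W3 := 48318383) (N0 := 3) (En := eng) (mo := mog) (C1 := cd0q2) (C2 := cd3q0) (C3 := pd2)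
    rfl s8_mm_202

noncomputable def f_mm_203 : ℕ → ℕ → ℕ → ℕ → Bool := onCell 0 536870912 1610612736 536870912 649613803 48318383
    (rowB 3 eng mog cd0q2 cd3q0 pd3 1 true false false .up 2 0 3 (qsf 0 536870912 0 536870912 3) ndB0q2 ndB3q0 pcB3 Cut.none Ext.none)

def k0_mm_203 : ∃ t, chk3 f_mm_203 t 1 1 1 = true :=
  ⟨(b (a (b (a (b (b (l 16733864) (l 4)) (l 4)) (l 4)) (l 4)) (l 4)) (l 2)), by decide +kernel⟩

theorem c_mm_203 : CertB 0 536870912 0 536870912 649613803 48318383 3 eng mog cd0q2 cd3q0 pd3 true false false .up 2 0 3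
    ndB0q2 ndB3q0 pcB3 Cut.none Ext.none :=
  certB1 (fam := true) (s1 := false) (s2 := false) (a := 2) (b := 0) (c := 3) (cn := .up) (n1 := ndB0q2) (n2 := ndB3q0) (pc := pcB3) (cut := Cut.none) (xt := Ext.none) (P1 := 0) (W1 := 536870912) (P2 := 0) (W2 := 536870912) (P3 := 649613803) (W3 := 48318383) (N0 := 3) (En := eng) (mo := mog) (C1 := cd0q2) (C2 := cd3q0) (C3 := pd3)
    rfl (fun _ => rfl) k0_mm_203

noncomputable def f_mm_213 : ℕ → ℕ → ℕ → ℕ → Bool := onCell 0 536870912 536870912 536870912 649613803 48318383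
    (rowB 3 eng mog cd0q2 cd3q1 pd3 0 true false false .pnn 2 1 3 (qsf 0 536870912 536870912 536870912 3) ndB0q2 ndB3q1 pcB3 Cut.none Ext.none)

def k0_mm_213 : ∃ t, chk3 f_mm_213 t 1 1 1 = true :=
  ⟨(l 4), by decide +kernel⟩

theorem c_mm_213 : CertB 0 536870912 536870912 536870912 649613803 48318383 3 eng mog cd0q2 cd3q1 pd3 true false false .pnn 2 1 3
    ndB0q2 ndB3q1 pcB3 Cut.none Ext.none :=
  certB0 (fam := true) (s1 := false) (s2 := false) (a := 2) (b := 1) (c := 3) (cn := .pnn) (n1 := ndB0q2) (n2 := ndB3q1) (pc := pcB3) (cut := Cut.none) (xt := Ext.none) (P1 := 0) (W1 := 536870912) (P2 := 536870912) (W2 := 536870912) (P3 := 649613803) (W3 := 48318383) (N0 := 3) (En := eng) (mo := mog) (C1 := cd0q2) (C2 := cd3q1) (C3 := pd3)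
    rfl k0_mm_213

end Pool.Agent.Strip051.G.I6050_6500.Tab.C.BA03

namespace Pool.Agent.Strip051.G.I6050_6500.Tab.C.BA04

open Pool.Agent.Strip051.PB Pool.Agent.Strip051.PB.T
open Pool.Agent.Strip051.G.I6050_6500.Tab

noncomputable def f_pp_001 : ℕ → ℕ → ℕ → ℕ → Bool := onCell 0 536870912 0 536870912 649613803 48318383
    (rowB 3 eng mog cd0q0 cd4q0 pd1 0 true true true .up 0 0 1 (qsf 0 536870912 0 536870912 1) ndB0q0 ndB4q0 pcB1 Cut.none Ext.none)

def k0_pp_001 : ∃ t, chk3 f_pp_001 t 1 1 1 = true :=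
  ⟨(l 4), by decide +kernel⟩

theorem c_pp_001 : CertB 0 536870912 0 536870912 649613803 48318383 3 eng mog cd0q0 cd4q0 pd1 true true true .up 0 0 1
    ndB0q0 ndB4q0 pcB1 Cut.none Ext.none :=
  certB0 (fam := true) (s1 := true) (s2 := true) (a := 0) (b := 0) (c := 1) (cn := .up) (n1 := ndB0q0) (n2 := ndB4q0) (pc := pcB1) (cut := Cut.none) (xt := Ext.none) (P1 := 0) (W1 := 536870912) (P2 := 0) (W2 := 536870912) (P3 := 649613803) (W3 := 48318383) (N0 := 3) (En := eng) (mo := mog) (C1 := cd0q0) (C2 := cd4q0) (C3 := pd1)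
    rfl k0_pp_001

noncomputable def f_pp_011 : ℕ → ℕ → ℕ → ℕ → Bool := onCell 0 536870912 536870912 536870912 649613803 48318383
    (rowB 3 eng mog cd0q0 cd4q1 pd1 0 true true true .pnn 0 1 1 (qsf 0 536870912 536870912 536870912 1) ndB0q0 ndB4q1 pcB1 Cut.none Ext.none)

def k0_pp_011 : ∃ t, chk3 f_pp_011 t 1 1 1 = true :=
  ⟨(l 4), by decide +kernel⟩

theorem c_pp_011 : CertB 0 536870912 536870912 536870912 649613803 48318383 3 eng mog cd0q0 cd4q1 pd1 true true true .pnn 0 1 1
    ndB0q0 ndB4q1 pcB1 Cut.none Ext.none :=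
  certB0 (fam := true) (s1 := true) (s2 := true) (a := 0) (b := 1) (c := 1) (cn := .pnn) (n1 := ndB0q0) (n2 := ndB4q1) (pc := pcB1) (cut := Cut.none) (xt := Ext.none) (P1 := 0) (W1 := 536870912) (P2 := 536870912) (W2 := 536870912) (P3 := 649613803) (W3 := 48318383) (N0 := 3) (En := eng) (mo := mog) (C1 := cd0q0) (C2 := cd4q1) (C3 := pd1)
    rfl k0_pp_011

noncomputable def f_pp_012 : ℕ → ℕ → ℕ → ℕ → Bool := onCell 0 536870912 536870912 536870912 649613803 48318383
    (rowB 3 eng mog cd0q0 cd4q1 pd2 0 true true true .pnp 0 1 2 (qsf 0 536870912 536870912 536870912 2) ndB0q0 ndB4q1 pcB2 Cut.none Ext.none)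

def k0_pp_012 : ∃ t, chk3 f_pp_012 t 1 1 1 = true :=
  ⟨(l 4), by decide +kernel⟩

theorem c_pp_012 : CertB 0 536870912 536870912 536870912 649613803 48318383 3 eng mog cd0q0 cd4q1 pd2 true true true .pnp 0 1 2
    ndB0q0 ndB4q1 pcB2 Cut.none Ext.none :=
  certB0 (fam := true) (s1 := true) (s2 := true) (a := 0) (b := 1) (c := 2) (cn := .pnp) (n1 := ndB0q0) (n2 := ndB4q1) (pc := pcB2) (cut := Cut.none) (xt := Ext.none) (P1 := 0) (W1 := 536870912) (P2 := 536870912) (W2 := 536870912) (P3 := 649613803) (W3 := 48318383) (N0 := 3) (En := eng) (mo := mog) (C1 := cd0q0) (C2 := cd4q1) (C3 := pd2)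
    rfl k0_pp_012

noncomputable def cut_pp_022_a : Cut := Cut.of [[⟨0, 0, 0, 67108864⟩, ⟨1, 1, 0, 67108864⟩, ⟨2, 1, 0, 67108864⟩]]

noncomputable def f_pp_022_a : ℕ → ℕ → ℕ → ℕ → Bool := onCell 0 536870912 0 536870912 649613803 48318383
    (rowB 3 eng mog cd0q0 cd4q2a pd2 0 true true true .pp 0 2 2 (qsf 0 536870912 0 536870912 2) ndB0q0 ndB4q2a pcB2 cut_pp_022_a Ext.none)

def k0_pp_022_a : ∃ t, chk3 f_pp_022_a t 1 1 1 = true :=
  ⟨(a (a (a (b (b (l 4) (l 4)) (b (l 4) (b (l 4) (a (b (l 4) (l 6)) (l 4))))) (l 4)) (l 4)) (l 4)), by decide +kernel⟩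

theorem c_pp_022_a : CertB 0 536870912 0 536870912 649613803 48318383 3 eng mog cd0q0 cd4q2a pd2 true true true .pp 0 2 2
    ndB0q0 ndB4q2a pcB2 cut_pp_022_a Ext.none :=
  certB0 (fam := true) (s1 := true) (s2 := true) (a := 0) (b := 2) (c := 2) (cn := .pp) (n1 := ndB0q0) (n2 := ndB4q2a) (pc := pcB2) (cut := cut_pp_022_a) (xt := Ext.none) (P1 := 0) (W1 := 536870912) (P2 := 0) (W2 := 536870912) (P3 := 649613803) (W3 := 48318383) (N0 := 3) (En := eng) (mo := mog) (C1 := cd0q0) (C2 := cd4q2a) (C3 := pd2)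
    rfl k0_pp_022_a

noncomputable def cut_pp_022_b : Cut := Cut.of [[⟨0, 0, 0, 67108864⟩, ⟨1, 1, 0, 67108864⟩, ⟨2, 1, 0, 67108864⟩]]

noncomputable def f_pp_022_b : ℕ → ℕ → ℕ → ℕ → Bool := onCell 0 536870912 1239849684 370763052 649613803 48318383
    (rowB 3 eng mog cd0q0 cd4q2b pd2 0 true true true .pp 0 2 2 (qsf 0 536870912 1239849684 370763052 2) ndB0q0 ndB4q2b pcB2 cut_pp_022_b Ext.none)

def k0_pp_022_b : ∃ t, chk3 f_pp_022_b t 1 1 1 = true :=
  ⟨(a (b (a (b (a (l 4) (l 4)) (l 4)) (l 4)) (l 4)) (l 4)), by decide +kernel⟩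

theorem c_pp_022_b : CertB 0 536870912 1239849684 370763052 649613803 48318383 3 eng mog cd0q0 cd4q2b pd2 true true true .pp 0 2 2
    ndB0q0 ndB4q2b pcB2 cut_pp_022_b Ext.none :=
  certB0 (fam := true) (s1 := true) (s2 := true) (a := 0) (b := 2) (c := 2) (cn := .pp) (n1 := ndB0q0) (n2 := ndB4q2b) (pc := pcB2) (cut := cut_pp_022_b) (xt := Ext.none) (P1 := 0) (W1 := 536870912) (P2 := 1239849684) (W2 := 370763052) (P3 := 649613803) (W3 := 48318383) (N0 := 3) (En := eng) (mo := mog) (C1 := cd0q0) (C2 := cd4q2b) (C3 := pd2)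
    rfl k0_pp_022_b

noncomputable def f_pp_023_a : ℕ → ℕ → ℕ → ℕ → Bool := onCell 1610612736 536870912 0 536870912 649613803 48318383
    (rowB 3 eng mog cd0q0 cd4q2a pd3 2 true true true .up 0 2 3 (qsf 0 536870912 0 536870912 3) ndB0q0 ndB4q2a pcB3 Cut.none Ext.none)

def k0_pp_023_a : ∃ t, chk3 f_pp_023_a t 1 1 1 = true :=
  ⟨(l 4), by decide +kernel⟩

theorem c_pp_023_a : CertB 0 536870912 0 536870912 649613803 48318383 3 eng mog cd0q0 cd4q2a pd3 true true true .up 0 2 3
    ndB0q0 ndB4q2a pcB3 Cut.none Ext.none :=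
  certB2 (fam := true) (s1 := true) (s2 := true) (a := 0) (b := 2) (c := 3) (cn := .up) (n1 := ndB0q0) (n2 := ndB4q2a) (pc := pcB3) (cut := Cut.none) (xt := Ext.none) (P1 := 0) (W1 := 536870912) (P2 := 0) (W2 := 536870912) (P3 := 649613803) (W3 := 48318383) (N0 := 3) (En := eng) (mo := mog) (C1 := cd0q0) (C2 := cd4q2a) (C3 := pd3)
    rfl (fun _ => rfl) k0_pp_023_a

noncomputable def f_pp_023_b : ℕ → ℕ → ℕ → ℕ → Bool := onCell 1610612736 536870912 1239849684 370763052 649613803 48318383
    (rowB 3 eng mog cd0q0 cd4q2b pd3 2 true true true .up 0 2 3 (qsf 0 536870912 1239849684 370763052 3) ndB0q0 ndB4q2b pcB3 Cut.none Ext.none)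

def k0_pp_023_b : ∃ t, chk3 f_pp_023_b t 1 1 1 = true :=
  ⟨(l 4), by decide +kernel⟩

theorem c_pp_023_b : CertB 0 536870912 1239849684 370763052 649613803 48318383 3 eng mog cd0q0 cd4q2b pd3 true true true .up 0 2 3
    ndB0q0 ndB4q2b pcB3 Cut.none Ext.none :=
  certB2 (fam := true) (s1 := true) (s2 := true) (a := 0) (b := 2) (c := 3) (cn := .up) (n1 := ndB0q0) (n2 := ndB4q2b) (pc := pcB3) (cut := Cut.none) (xt := Ext.none) (P1 := 0) (W1 := 536870912) (P2 := 1239849684) (W2 := 370763052) (P3 := 649613803) (W3 := 48318383) (N0 := 3) (En := eng) (mo := mog) (C1 := cd0q0) (C2 := cd4q2b) (C3 := pd3)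
    rfl (fun _ => rfl) k0_pp_023_b

noncomputable def f_pp_033 : ℕ → ℕ → ℕ → ℕ → Bool := onCell 0 536870912 1610612736 536870912 649613803 48318383
    (rowB 3 eng mog cd0q0 cd4q3 pd3 0 true true true .pnn 0 3 3 (qsf 0 536870912 1610612736 536870912 3) ndB0q0 ndB4q3 pcB3 Cut.none Ext.none)

def k0_pp_033 : ∃ t, chk3 f_pp_033 t 1 1 1 = true :=
  ⟨(l 4), by decide +kernel⟩

theorem c_pp_033 : CertB 0 536870912 1610612736 536870912 649613803 48318383 3 eng mog cd0q0 cd4q3 pd3 true true true .pnn 0 3 3
    ndB0q0 ndB4q3 pcB3 Cut.none Ext.none :=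
  certB0 (fam := true) (s1 := true) (s2 := true) (a := 0) (b := 3) (c := 3) (cn := .pnn) (n1 := ndB0q0) (n2 := ndB4q3) (pc := pcB3) (cut := Cut.none) (xt := Ext.none) (P1 := 0) (W1 := 536870912) (P2 := 1610612736) (W2 := 536870912) (P3 := 649613803) (W3 := 48318383) (N0 := 3) (En := eng) (mo := mog) (C1 := cd0q0) (C2 := cd4q3) (C3 := pd3)
    rfl k0_pp_033

noncomputable def f_pp_101 : ℕ → ℕ → ℕ → ℕ → Bool := onCell 536870912 536870912 0 536870912 649613803 48318383
    (rowB 3 eng mog cd0q1 cd4q0 pd1 0 true true true .npn 1 0 1 (qsf 536870912 536870912 0 536870912 1) ndB0q1 ndB4q0 pcB1 Cut.none Ext.none)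

def k0_pp_101 : ∃ t, chk3 f_pp_101 t 1 1 1 = true :=
  ⟨(l 5), by decide +kernel⟩

theorem c_pp_101 : CertB 536870912 536870912 0 536870912 649613803 48318383 3 eng mog cd0q1 cd4q0 pd1 true true true .npn 1 0 1
    ndB0q1 ndB4q0 pcB1 Cut.none Ext.none :=
  certB0 (fam := true) (s1 := true) (s2 := true) (a := 1) (b := 0) (c := 1) (cn := .npn) (n1 := ndB0q1) (n2 := ndB4q0) (pc := pcB1) (cut := Cut.none) (xt := Ext.none) (P1 := 536870912) (W1 := 536870912) (P2 := 0) (W2 := 536870912) (P3 := 649613803) (W3 := 48318383) (N0 := 3) (En := eng) (mo := mog) (C1 := cd0q1) (C2 := cd4q0) (C3 := pd1)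
    rfl k0_pp_101

noncomputable def f_pp_102 : ℕ → ℕ → ℕ → ℕ → Bool := onCell 536870912 536870912 0 536870912 649613803 48318383
    (rowB 3 eng mog cd0q1 cd4q0 pd2 0 true true true .npp 1 0 2 (qsf 536870912 536870912 0 536870912 2) ndB0q1 ndB4q0 pcB2 Cut.none Ext.none)

def k0_pp_102 : ∃ t, chk3 f_pp_102 t 1 1 1 = true :=
  ⟨(l 5), by decide +kernel⟩

theorem c_pp_102 : CertB 536870912 536870912 0 536870912 649613803 48318383 3 eng mog cd0q1 cd4q0 pd2 true true true .npp 1 0 2
    ndB0q1 ndB4q0 pcB2 Cut.none Ext.none :=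
  certB0 (fam := true) (s1 := true) (s2 := true) (a := 1) (b := 0) (c := 2) (cn := .npp) (n1 := ndB0q1) (n2 := ndB4q0) (pc := pcB2) (cut := Cut.none) (xt := Ext.none) (P1 := 536870912) (W1 := 536870912) (P2 := 0) (W2 := 536870912) (P3 := 649613803) (W3 := 48318383) (N0 := 3) (En := eng) (mo := mog) (C1 := cd0q1) (C2 := cd4q0) (C3 := pd2)
    rfl k0_pp_102

noncomputable def f_pp_112 : ℕ → ℕ → ℕ → ℕ → Bool := onCell 536870912 536870912 536870912 536870912 649613803 48318383
    (rowB 3 eng mog cd0q1 cd4q1 pd2 0 true true true .dn 1 1 2 (qsf 536870912 536870912 536870912 536870912 2) ndB0q1 ndB4q1 pcB2 Cut.none Ext.none)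

def k0_pp_112 : ∃ t, chk3 f_pp_112 t 1 1 1 = true :=
  ⟨(l 4), by decide +kernel⟩

theorem c_pp_112 : CertB 536870912 536870912 536870912 536870912 649613803 48318383 3 eng mog cd0q1 cd4q1 pd2 true true true .dn 1 1 2
    ndB0q1 ndB4q1 pcB2 Cut.none Ext.none :=
  certB0 (fam := true) (s1 := true) (s2 := true) (a := 1) (b := 1) (c := 2) (cn := .dn) (n1 := ndB0q1) (n2 := ndB4q1) (pc := pcB2) (cut := Cut.none) (xt := Ext.none) (P1 := 536870912) (W1 := 536870912) (P2 := 536870912) (W2 := 536870912) (P3 := 649613803) (W3 := 48318383) (N0 := 3) (En := eng) (mo := mog) (C1 := cd0q1) (C2 := cd4q1) (C3 := pd2)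
    rfl k0_pp_112

noncomputable def f_pp_113 : ℕ → ℕ → ℕ → ℕ → Bool := onCell 536870912 536870912 536870912 536870912 649613803 48318383
    (rowB 3 eng mog cd0q1 cd4q1 pd3 0 true true true .nn 1 1 3 (qsf 536870912 536870912 536870912 536870912 3) ndB0q1 ndB4q1 pcB3 Cut.none Ext.none)

def k0_pp_113 : ∃ t, chk3 f_pp_113 t 1 1 1 = true :=
  ⟨(l 4), by decide +kernel⟩

theorem c_pp_113 : CertB 536870912 536870912 536870912 536870912 649613803 48318383 3 eng mog cd0q1 cd4q1 pd3 true true true .nn 1 1 3
    ndB0q1 ndB4q1 pcB3 Cut.none Ext.none :=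
  certB0 (fam := true) (s1 := true) (s2 := true) (a := 1) (b := 1) (c := 3) (cn := .nn) (n1 := ndB0q1) (n2 := ndB4q1) (pc := pcB3) (cut := Cut.none) (xt := Ext.none) (P1 := 536870912) (W1 := 536870912) (P2 := 536870912) (W2 := 536870912) (P3 := 649613803) (W3 := 48318383) (N0 := 3) (En := eng) (mo := mog) (C1 := cd0q1) (C2 := cd4q1) (C3 := pd3)
    rfl k0_pp_113

noncomputable def f_pp_123_a : ℕ → ℕ → ℕ → ℕ → Bool := onCell 536870912 536870912 0 536870912 649613803 48318383
    (rowB 3 eng mog cd0q1 cd4q2a pd3 0 true true true .npn 1 2 3 (qsf 536870912 536870912 0 536870912 3) ndB0q1 ndB4q2a pcB3 Cut.none Ext.none)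

def k0_pp_123_a : ∃ t, chk3 f_pp_123_a t 1 1 1 = true :=
  ⟨(l 4), by decide +kernel⟩

theorem c_pp_123_a : CertB 536870912 536870912 0 536870912 649613803 48318383 3 eng mog cd0q1 cd4q2a pd3 true true true .npn 1 2 3
    ndB0q1 ndB4q2a pcB3 Cut.none Ext.none :=
  certB0 (fam := true) (s1 := true) (s2 := true) (a := 1) (b := 2) (c := 3) (cn := .npn) (n1 := ndB0q1) (n2 := ndB4q2a) (pc := pcB3) (cut := Cut.none) (xt := Ext.none) (P1 := 536870912) (W1 := 536870912) (P2 := 0) (W2 := 536870912) (P3 := 649613803) (W3 := 48318383) (N0 := 3) (En := eng) (mo := mog) (C1 := cd0q1) (C2 := cd4q2a) (C3 := pd3)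
    rfl k0_pp_123_a

noncomputable def f_pp_123_b : ℕ → ℕ → ℕ → ℕ → Bool := onCell 536870912 536870912 1239849684 370763052 649613803 48318383
    (rowB 3 eng mog cd0q1 cd4q2b pd3 0 true true true .npn 1 2 3 (qsf 536870912 536870912 1239849684 370763052 3) ndB0q1 ndB4q2b pcB3 Cut.none Ext.none)

def k0_pp_123_b : ∃ t, chk3 f_pp_123_b t 1 1 1 = true :=
  ⟨(l 4), by decide +kernel⟩

theorem c_pp_123_b : CertB 536870912 536870912 1239849684 370763052 649613803 48318383 3 eng mog cd0q1 cd4q2b pd3 true true true .npn 1 2 3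
    ndB0q1 ndB4q2b pcB3 Cut.none Ext.none :=
  certB0 (fam := true) (s1 := true) (s2 := true) (a := 1) (b := 2) (c := 3) (cn := .npn) (n1 := ndB0q1) (n2 := ndB4q2b) (pc := pcB3) (cut := Cut.none) (xt := Ext.none) (P1 := 536870912) (W1 := 536870912) (P2 := 1239849684) (W2 := 370763052) (P3 := 649613803) (W3 := 48318383) (N0 := 3) (En := eng) (mo := mog) (C1 := cd0q1) (C2 := cd4q2b) (C3 := pd3)
    rfl k0_pp_123_b

noncomputable def f_pp_133 : ℕ → ℕ → ℕ → ℕ → Bool := onCell 536870912 536870912 1610612736 536870912 649613803 48318383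
    (rowB 3 eng mog cd0q1 cd4q3 pd3 0 true true true .dn 1 3 3 (qsf 536870912 536870912 1610612736 536870912 3) ndB0q1 ndB4q3 pcB3 Cut.none Ext.none)

def k0_pp_133 : ∃ t, chk3 f_pp_133 t 1 1 1 = true :=
  ⟨(l 4), by decide +kernel⟩

theorem c_pp_133 : CertB 536870912 536870912 1610612736 536870912 649613803 48318383 3 eng mog cd0q1 cd4q3 pd3 true true true .dn 1 3 3
    ndB0q1 ndB4q3 pcB3 Cut.none Ext.none :=
  certB0 (fam := true) (s1 := true) (s2 := true) (a := 1) (b := 3) (c := 3) (cn := .dn) (n1 := ndB0q1) (n2 := ndB4q3) (pc := pcB3) (cut := Cut.none) (xt := Ext.none) (P1 := 536870912) (W1 := 536870912) (P2 := 1610612736) (W2 := 536870912) (P3 := 649613803) (W3 := 48318383) (N0 := 3) (En := eng) (mo := mog) (C1 := cd0q1) (C2 := cd4q3) (C3 := pd3)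
    rfl k0_pp_133

noncomputable def f_pp_202 : ℕ → ℕ → ℕ → ℕ → Bool := onCell 0 536870912 0 536870912 649613803 48318383
    (rowB 3 eng mog cd0q2 cd4q0 pd2 0 true true true .pp 2 0 2 (qsf 0 536870912 0 536870912 2) ndB0q2 ndB4q0 pcB2 Cut.none Ext.none)

def k0_pp_202 : ∃ t, chk3 f_pp_202 t 1 1 1 = true :=
  ⟨(l 5), by decide +kernel⟩

theorem c_pp_202 : CertB 0 536870912 0 536870912 649613803 48318383 3 eng mog cd0q2 cd4q0 pd2 true true true .pp 2 0 2
    ndB0q2 ndB4q0 pcB2 Cut.none Ext.none :=
  certB0 (fam := true) (s1 := true) (s2 := true) (a := 2) (b := 0) (c := 2) (cn := .pp) (n1 := ndB0q2) (n2 := ndB4q0) (pc := pcB2) (cut := Cut.none) (xt := Ext.none) (P1 := 0) (W1 := 536870912) (P2 := 0) (W2 := 536870912) (P3 := 649613803) (W3 := 48318383) (N0 := 3) (En := eng) (mo := mog) (C1 := cd0q2) (C2 := cd4q0) (C3 := pd2)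
    rfl k0_pp_202

noncomputable def f_pp_203 : ℕ → ℕ → ℕ → ℕ → Bool := onCell 0 536870912 0 536870912 649613803 48318383
    (rowB 3 eng mog cd0q2 cd4q0 pd3 0 true true true .up 2 0 3 (qsf 0 536870912 0 536870912 3) ndB0q2 ndB4q0 pcB3 Cut.none Ext.none)

def k0_pp_203 : ∃ t, chk3 f_pp_203 t 1 1 1 = true :=
  ⟨(l 5), by decide +kernel⟩

theorem c_pp_203 : CertB 0 536870912 0 536870912 649613803 48318383 3 eng mog cd0q2 cd4q0 pd3 true true true .up 2 0 3
    ndB0q2 ndB4q0 pcB3 Cut.none Ext.none :=
  certB0 (fam := true) (s1 := true) (s2 := true) (a := 2) (b := 0) (c := 3) (cn := .up) (n1 := ndB0q2) (n2 := ndB4q0) (pc := pcB3) (cut := Cut.none) (xt := Ext.none) (P1 := 0) (W1 := 536870912) (P2 := 0) (W2 := 536870912) (P3 := 649613803) (W3 := 48318383) (N0 := 3) (En := eng) (mo := mog) (C1 := cd0q2) (C2 := cd4q0) (C3 := pd3)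
    rfl k0_pp_203

noncomputable def f_pp_213 : ℕ → ℕ → ℕ → ℕ → Bool := onCell 0 536870912 536870912 536870912 649613803 48318383
    (rowB 3 eng mog cd0q2 cd4q1 pd3 0 true true true .pnn 2 1 3 (qsf 0 536870912 536870912 536870912 3) ndB0q2 ndB4q1 pcB3 Cut.none Ext.none)

def k0_pp_213 : ∃ t, chk3 f_pp_213 t 1 1 1 = true :=
  ⟨(l 4), by decide +kernel⟩

theorem c_pp_213 : CertB 0 536870912 536870912 536870912 649613803 48318383 3 eng mog cd0q2 cd4q1 pd3 true true true .pnn 2 1 3
    ndB0q2 ndB4q1 pcB3 Cut.none Ext.none :=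
  certB0 (fam := true) (s1 := true) (s2 := true) (a := 2) (b := 1) (c := 3) (cn := .pnn) (n1 := ndB0q2) (n2 := ndB4q1) (pc := pcB3) (cut := Cut.none) (xt := Ext.none) (P1 := 0) (W1 := 536870912) (P2 := 536870912) (W2 := 536870912) (P3 := 649613803) (W3 := 48318383) (N0 := 3) (En := eng) (mo := mog) (C1 := cd0q2) (C2 := cd4q1) (C3 := pd3)
    rfl k0_pp_213

noncomputable def f_pm_001 : ℕ → ℕ → ℕ → ℕ → Bool := onCell 0 536870912 536870912 536870912 649613803 48318383
    (rowB 3 eng mog cd0q0 cd4q0 pd1 1 true true false .up 0 0 1 (qsf 0 536870912 0 536870912 1) ndB0q0 ndB4q0 pcB1 Cut.none Ext.none)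

def k0_pm_001 : ∃ t, chk3 f_pm_001 t 1 1 1 = true :=
  ⟨(b (l 3) (l 3)), by decide +kernel⟩

theorem c_pm_001 : CertB 0 536870912 0 536870912 649613803 48318383 3 eng mog cd0q0 cd4q0 pd1 true true false .up 0 0 1
    ndB0q0 ndB4q0 pcB1 Cut.none Ext.none :=
  certB1 (fam := true) (s1 := true) (s2 := false) (a := 0) (b := 0) (c := 1) (cn := .up) (n1 := ndB0q0) (n2 := ndB4q0) (pc := pcB1) (cut := Cut.none) (xt := Ext.none) (P1 := 0) (W1 := 536870912) (P2 := 0) (W2 := 536870912) (P3 := 649613803) (W3 := 48318383) (N0 := 3) (En := eng) (mo := mog) (C1 := cd0q0) (C2 := cd4q0) (C3 := pd1)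
    rfl (fun _ => rfl) k0_pm_001

noncomputable def f_pm_011 : ℕ → ℕ → ℕ → ℕ → Bool := onCell 0 536870912 536870912 536870912 649613803 48318383
    (rowB 3 eng mog cd0q0 cd4q1 pd1 1 true true false .pnn 0 1 1 (qsf 0 536870912 536870912 536870912 1) ndB0q0 ndB4q1 pcB1 Cut.none Ext.none)

def k0_pm_011 : ∃ t, chk3 f_pm_011 t 1 1 1 = true :=
  ⟨(b (l 3) (l 3)), by decide +kernel⟩

theorem c_pm_011 : CertB 0 536870912 536870912 536870912 649613803 48318383 3 eng mog cd0q0 cd4q1 pd1 true true false .pnn 0 1 1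
    ndB0q0 ndB4q1 pcB1 Cut.none Ext.none :=
  certB1 (fam := true) (s1 := true) (s2 := false) (a := 0) (b := 1) (c := 1) (cn := .pnn) (n1 := ndB0q0) (n2 := ndB4q1) (pc := pcB1) (cut := Cut.none) (xt := Ext.none) (P1 := 0) (W1 := 536870912) (P2 := 536870912) (W2 := 536870912) (P3 := 649613803) (W3 := 48318383) (N0 := 3) (En := eng) (mo := mog) (C1 := cd0q0) (C2 := cd4q1) (C3 := pd1)
    rfl (fun _ => rfl) k0_pm_011

noncomputable def xt_pm_012 : Ext := extD2 3 ⟨7, 3, 3, 10, 377, 200, 77, 100, 17, 50, 3, 16⟩ eng cd0q0 cd4q1 pd2 true true false .pnp 0 1 2 rfl ndB0q0 ndB4q1 pcB2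

noncomputable def f_pm_012 : ℕ → ℕ → ℕ → ℕ → Bool := onCell 1073741824 536870912 536870912 536870912 649613803 48318383
    (rowB 3 eng mog cd0q0 cd4q1 pd2 2 true true false .pnp 0 1 2 (qsf 0 536870912 536870912 536870912 2) ndB0q0 ndB4q1 pcB2 Cut.none xt_pm_012)

def k0_pm_012 : ∃ t, chk3 f_pm_012 t 4 2 1 = true :=
  ⟨(a (a (l 3) (b (b (b (a (a (l 2604622414506603944668109359) (l 2)) (l 2)) (a (a (l 113446841959) (l 16357576)) (a (l 16344840) (l 16331152)))) (a (a (l 3) (b (l 16415568) (l 16408592))) (b (a (l 16361576) (l 16348408)) (c (l 16408304) (l 16410096))))) (b (a (b (l 80160938023) (l 3)) (b (a (l 16391288) (l 16389408)) (a (l 16419672) (a (l 16414832) (l 16414192))))) (a (l 3) (b (a (l 16442744) (l 16495424)) (b (l 16452680) (l 16472832))))))) (b (a (b (a (b (l 2) (l 16307488)) (l 2)) (a (b (l 16333904) (l 16362608)) (b (l 16337288) (l 16360480)))) (b (l 2) (a (b (l 16337056) (l 16355296)) (b (l 2) (l 16351272))))) (a (b (a (b (l 16379168) (a (l 16473808) (l 16409464))) (b (l 16383064) (l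 16465024))) (a (b (a (l 16449920) (l 16425336)) (a (l 16465864) (l 16438344))) (b (l 16437344) (l 16468800)))) (b (a (b (l 16373592) (l 16389688)) (b (l 16365168) (l 16377640))) (a (b (l 16401520) (l 16409816)) (b (l 16386984) (l 16392408))))))), by decide +kernel⟩

def k1_pm_012 : ∃ t, chk3 f_pm_012 t 4 3 1 = true :=
  ⟨(a (b (a (l 3) (a (l 3) (a (l 3) (b (b (l 16474992) (l 16509376)) (b (l 16528032) (l 3)))))) (l 3)) (b (a (b (a (b (a (a (l 16460792) (l 16457312)) (l 16491088)) (a (a (l 16497464) (l 16470928)) (a (l 16465520) (l 16459512)))) (b (l 16477680) (b (l 16442256) (l 16446560)))) (a (a (b (a (l 16494192) (l 16486024)) (l 16575168)) (b (b (l 16472008) (l 16479520)) (l 16524888))) (b (a (l 16482024) (l 16446616)) (a (l 16498104) (l 16460320))))) (b (a (b (l 16436496) (a (l 16426664) (l 16414216))) (b (l 16394944) (a (l 16401912) (l 16390120)))) (a (b (a (l 16432544) (l 16418368)) (a (l 16443792) (l 16427760))) (b (a (l 16404040) (l 16390192)) (a (l 16411688) (l 16395872)))))) (a (b (a (b (a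 (l 16531736) (l 16535864)) (a (l 311015567383) (l 16577656))) (b (a (l 16495304) (l 16476072)) (a (l 16556280) (l 16513256)))) (a (b (a (l 3) (l 16551336)) (b (l 221895070007) (l 3))) (b (a (a (l 16539400) (l 16526912)) (l 16508072)) (a (a (l 16557520) (l 16544344)) (b (l 16519464) (l 16526872)))))) (b (a (b (a (l 16457232) (l 16438904)) (l 16523560)) (b (a (l 16421032) (l 16403336)) (a (l 16430264) (l 16410736)))) (a (b (a (l 16484440) (l 16461536)) (a (b (l 16493712) (l 16499520)) (l 16471560))) (b (a (l 16439072) (l 16417328)) (a (l 16446896) (b (l 16421384) (l 16423728))))))))), by decide +kernel⟩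

def k2_pm_012 : ∃ t, chk3 f_pm_012 t 5 2 1 = true :=
  ⟨(b (a (a (a (b (l 2) (b (l 2) (l 16349672))) (l 2)) (l 2)) (l 2)) (a (a (a (b (a (l 16449648) (l 16468760)) (b (l 16396096) (l 16377608))) (b (a (l 16362008) (a (l 16362592) (a (l 16365184) (l 16369880)))) (a (b (l 16370016) (l 16369992)) (a (b (l 16368576) (l 16368840)) (a (l 16370056) (l 16498792)))))) (b (a (l 16365032) (l 16359720)) (b (l 16361656) (l 16462880)))) (b (a (l 16357600) (l 2)) (a (l 16427000) (l 16333352))))), by decide +kernel⟩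

def k3_pm_012 : ∃ t, chk3 f_pm_012 t 5 6 1 = true :=
  ⟨(a (a (a (b (b (l 16376824) (a (l 16379040) (l 16368936))) (b (a (l 16377064) (l 16364800)) (a (l 16380736) (l 16366288)))) (a (b (b (l 16366424) (l 16360368)) (b (l 16353840) (l 16353000))) (a (b (b (l 16363760) (l 16355824)) (b (l 16347136) (l 16344232))) (b (a (b (l 16364552) (l 16355488)) (a (a (b (l 16366872) (a (l 16356440) (l 16358120))) (l 16404664)) (l 16424856))) (a (b (l 16345408) (l 16341048)) (b (a (a (a (l 16345584) (l 16367856)) (l 16346712)) (l 16345776)) (b (l 16383144) (l 16339096)))))))) (b (b (a (l 16357680) (l 16343744)) (a (l 16347824) (l 16331480))) (b (a (l 16356168) (l 16316912)) (a (l 16327360) (l 16305864))))) (b (a (b (l 16326144) (l 16310440)) (b (l 16308160) (l 16288184))) (a (b (b (l 16296344) (l 16287680)) (a (l 16286608) (l 16269392))) (b (l 16265552) (l 16246744))))), by decide +kernel⟩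

def k4_pm_012 : ∃ t, chk3 f_pm_012 t 5 7 1 = true :=
  ⟨(a (a (a (b (b (a (l 16386128) (l 16369648)) (a (l 16391728) (l 16373232))) (b (a (l 16396496) (l 16376240)) (a (b (l 16399000) (l 16399960)) (l 16398752)))) (a (b (b (l 16354016) (l 16355400)) (b (l 16356424) (b (l 16356448) (l 16355904)))) (b (a (b (l 16343168) (l 16342576)) (a (b (l 16338552) (l 16336536)) (b (b (l 16358104) (l 16377280)) (b (l 16396576) (c (l 16344560) (l 16319560)))))) (a (b (l 16341800) (l 16340120)) (a (b (l 16334432) (l 16352544)) (a (a (a (b (l 16331592) (l 16328064)) (a (b (l 16331056) (l 16327288)) (b (l 16330632) (l 16326544)))) (b (l 16329880) (l 16325664))) (b (l 16328144) (l 16323736)))))))) (b (b (b (l 16309912) (l 16305824)) (b (l 16301640) (l 16297552))) (b (b (l 16293488) (l 16289320)) (b (l 16305912) (a (l 16300384) (l 16260952)))))) (b (b (a (b (l 16266208) (l 16258264)) (a (l 16234872) (l 16219224))) (a (b (l 16249984) (l 16241664)) (b (l 16209616) (l 16197656)))) (b (a (b (l 16233160) (a (l 16239672) (l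 16210360))) (b (l 16185168) (a (l 16184248) (l 16161360)))) (a (b (a (l 16232096) (l 16200616)) (a (l 16224336) (l 16190688))) (b (a (l 16172304) (l 16147312)) (a (l 16160200) (l 16133008))))))), by decide +kernel⟩

def k5_pm_012 : ∃ t, chk3 f_pm_012 t 3 1 1 = true :=
  ⟨(b (a (b (l 2) (a (b (l 2) (a (l 16331304) (l 2))) (l 2))) (l 2)) (b (a (a (a (b (l 16390240) (b (l 16245976) (l 16223432))) (b (l 16280568) (b (l 16233608) (l 16207544)))) (b (a (l 16285432) (l 2)) (a (b (l 16230368) (l 16199232)) (b (l 16239528) (l 16202544))))) (a (b (l 2) (a (b (l 2) (l 16216392)) (l 2))) (l 2))) (a (b (a (a (b (l 16220464) (a (l 16179272) (l 16165648))) (b (l 16180184) (b (l 16157632) (l 16141144)))) (a (b (l 16252408) (a (l 16137632) (l 16132432))) (b (l 16166024) (l 16212536)))) (a (b (a (b (a (l 16157136) (l 16141984)) (a (l 16141656) (l 16124928))) (b (l 16123624) (a (l 16111096) (l 16099688)))) (a (b (a (l 16125648) (l 16107200)) (a (l 16109248) (l 16088896))) (b (a (l 16091792) (l 16079448)) (a (l 16071776)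 (l 16057872))))) (b (a (a (l 16100688) (l 16094216)) (a (l 16089352) (l 16087168))) (a (a (b (l 16069512) (l 16047088)) (b (l 16061928) (l 16038744))) (a (b (l 16056672) (l 16032792)) (b (l 16053528) (l 16029152))))))) (a (b (a (b (l 16173528) (l 16129728)) (b (l 16191448) (l 16140464))) (a (b (a (l 16086120) (l 16084896)) (a (b (l 16051472) (l 16026960)) (l 16037048))) (b (l 16088920) (a (l 16036640) (l 16038440))))) (b (a (b (l 2) (l 16167944)) (l 2)) (b (a (b (l 16123112) (l 16092928)) (l 16146384)) (a (a (l 16043984) (l 16053512)) (a (l 16067608) (l 16087248))))))))), by decide +kernel⟩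

theorem s6_pm_012 : ∃ t, chk3 f_pm_012 t 5 3 1 = true := ex3_b k3_pm_012 k4_pm_012

theorem s7_pm_012 : ∃ t, chk3 f_pm_012 t 5 1 1 = true := ex3_b k2_pm_012 s6_pm_012

theorem s8_pm_012 : ∃ t, chk3 f_pm_012 t 4 1 1 = true := ex3_b k0_pm_012 k1_pm_012

theorem s9_pm_012 : ∃ t, chk3 f_pm_012 t 2 1 1 = true := ex3_a s8_pm_012 s7_pm_012

theorem s10_pm_012 : ∃ t, chk3 f_pm_012 t 1 1 1 = true := ex3_a s9_pm_012 k5_pm_012

theorem c_pm_012 : CertB 0 536870912 536870912 536870912 649613803 48318383 3 eng mog cd0q0 cd4q1 pd2 true true false .pnp 0 1 2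
    ndB0q0 ndB4q1 pcB2 Cut.none xt_pm_012 :=
  certB2 (fam := true) (s1 := true) (s2 := false) (a := 0) (b := 1) (c := 2) (cn := .pnp) (n1 := ndB0q0) (n2 := ndB4q1) (pc := pcB2) (cut := Cut.none) (xt := xt_pm_012) (P1 := 0) (W1 := 536870912) (P2 := 536870912) (W2 := 536870912) (P3 := 649613803) (W3 := 48318383) (N0 := 3) (En := eng) (mo := mog) (C1 := cd0q0) (C2 := cd4q1) (C3 := pd2)
    rfl (fun _ => rfl) s10_pm_012

noncomputable def cut_pm_022_a : Cut := Cut.of [[⟨0, 0, 0, 67108864⟩, ⟨1, 1, 0, 67108864⟩, ⟨2, 1, 0, 67108864⟩]]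

noncomputable def xt_pm_022_a : Ext := extD2 3 ⟨7, 3, 3, 10, 377, 200, 77, 100, 17, 50, 3, 16⟩ eng cd0q0 cd4q2a pd2 true true false .pp 0 2 2 rfl ndB0q0 ndB4q2a pcB2

noncomputable def f_pm_022_a : ℕ → ℕ → ℕ → ℕ → Bool := onCell 1073741824 536870912 0 536870912 649613803 48318383
    (rowB 3 eng mog cd0q0 cd4q2a pd2 2 true true false .pp 0 2 2 (qsf 0 536870912 0 536870912 2) ndB0q0 ndB4q2a pcB2 cut_pm_022_a xt_pm_022_a)

def k0_pm_022_a : ∃ t, chk3 f_pm_022_a t 8 1 1 = true :=
  ⟨(b (l 1) (b (l 1) (b (a (l 1) (b (a (l 1) (a (l 1) (b (l 1) (a (l 16631456) (l 16629368))))) (a (l 6) (a (l 6) (b (a (l 6) (l 16643712)) (l 16669912)))))) (a (l 6) (a (l 6) (a (l 6) (a (l 6) (b (b (l 16672616) (l 16687104)) (b (l 16698584) (b (l 16701432) (b (l 16702736) (l 16703560)))))))))))), by decide +kernel⟩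

def k1_pm_022_a : ∃ t, chk3 f_pm_022_a t 9 2 1 = true :=
  ⟨(b (l 1) (a (l 1) (b (l 1) (a (l 1) (a (l 1) (b (l 1) (b (l 16502248) (l 59625693719)))))))), by decide +kernel⟩

def k2_pm_022_a : ∃ t, chk3 f_pm_022_a t 9 6 1 = true :=
  ⟨(b (a (l 1) (a (b (a (l 1) (c (l 16514552) (l 16500840))) (a (b (l 1) (l 16536752)) (b (l 16523448) (l 16534192)))) (b (a (c (l 42445848391) (l 16499312)) (b (l 113849672919) (l 16508712))) (a (b (l 16521048) (l 16531376)) (l 16523448))))) (a (a (b (l 1) (a (l 1) (b (l 16581632) (l 16615808)))) (b (a (b (l 1) (l 16565800)) (b (l 16550816) (l 16583784))) (a (b (l 34929799591) (l 16591168)) (b (l 16574984) (l 16587256))))) (a (b (a (b (l 16548080) (l 16559624)) (b (l 16545088) (l 16556216))) (a (l 16598336) (l 16573344))) (b (a (l 16547304) (l 16543728)) (a (l 16569176) (l 16564880)))))), by decide +kernel⟩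

def k3_pm_022_a : ∃ t, chk3 f_pm_022_a t 9 7 1 = true :=
  ⟨(b (a (b (a (b (a (l 21508090279) (l 16608184)) (a (b (l 16622592) (l 16629584)) (l 16621648))) (a (a (l 16632728) (l 16609520)) (l 16627040))) (a (b (a (l 16640088) (l 16635168)) (a (l 16654144) (l 16648776))) (b (l 16648504) (a (l 16643344) (l 16637776))))) (b (a (b (l 16592920) (l 16604928)) (a (l 16591760) (l 16586808))) (a (b (l 16638024) (l 16629328)) (b (l 16606248) (l 16617768))))) (a (a (b (b (a (b (l 16664720) (l 16671816)) (l 16662496)) (c (l 16680272) (l 16678168))) (b (b (l 16686384) (a (l 16692808) (l 16683792))) (b (a (l 16694632) (l 16685552)) (a (a (l 16703824) (l 16694008)) (a (l 16689432) (l 16684864)))))) (b (b (l 16653648) (l 16665624)) (b (b (l 16668600) (a (l 16674816) (l 16665968))) (b (a (l 16676512) (l 16667624)) (a (c (l 16679016) (l 16677240)) (c (l 16670288) (l 16668096))))))) (b (b (a (l 16641696) (l 16627720)) (a (l 16648408) (l 16631728))) (a (b (a (l 16656360) (l 16647776)) (a (b (l 16658800) (c (l 16661624)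 (l 16659016))) (b (l 16650144) (c (l 16653128) (l 16650080))))) (b (a (l 16639352) (l 16631088)) (a (b (l 16641640) (c (l 16644792) (l 16641296))) (b (l 16633296) (c (l 16636616) (l 16632672))))))))), by decide +kernel⟩

def k4_pm_022_a : ∃ t, chk3 f_pm_022_a t 5 2 1 = true :=
  ⟨(a (a (a (b (l 1) (a (b (l 1) (b (c (b (l 16471472) (l 16478952)) (l 16460136)) (c (b (l 16486752) (l 16494888)) (l 16477120)))) (c (b (b (l 16448248) (l 52109426583)) (b (b (l 16470256) (l 16477384)) (l 16488784))) (b (l 38150759303) (b (l 16459192) (l 16475464)))))) (b (a (b (l 1) (b (l 1) (c (l 16438016) (l 16420528)))) (a (b (l 1) (b (l 16421328) (l 16450248))) (a (b (b (l 1530651791751) (l 16415312)) (b (l 16421072) (l 16428808))) (a (a (a (b (b (l 16411504) (l 16415112)) (l 16424768)) (a (b (b (l 16411368) (l 16414960)) (l 16424592)) (b (b (c (l 16420752) (l 16401416)) (l 16414712)) (b (l 16420360) (l 16427960))))) (b (b (l 16411176) (l 16414728)) (l 16424304))) (b (b (l 16411352) (l 16414864)) (l 16424368)))))) (a (b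 (a (b (c (l 16447984) (l 16431344)) (l 16472920)) (b (l 16460536) (l 16451368))) (b (c (l 16472104) (l 16457816)) (l 16501032))) (a (b (b (l 16439072) (l 16450560)) (b (l 16463592) (l 16478016))) (b (a (b (l 16438368) (l 16449608)) (a (a (a (l 16443648) (b (l 16437392) (l 16448496))) (l 16443056)) (l 16443024))) (a (b (l 16462392) (l 16476552)) (b (c (l 16468016) (l 16453816)) (l 16496000)))))))) (b (b (a (a (b (l 16412352) (l 16415640)) (b (l 16413912) (l 16416808))) (l 16414640)) (a (b (a (l 16420968) (l 16421704)) (l 16449344)) (l 16423288))) (b (a (b (l 16458144) (l 16447616)) (l 16439072)) (a (b (l 16459584) (l 16472920)) (l 16461104))))) (b (a (b (a (l 16413104) (l 16412352)) (a (l 16420392) (l 16418360))) (b (a (l 16412424) (l 16413280)) (l 16416880))) (a (b (b (l 16428448) (l 16436784)) (a (l 16455024) (l 16449888))) (b (l 16427432) (l 16443520))))), by decide +kernel⟩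

def k5_pm_022_a : ∃ t, chk3 f_pm_022_a t 10 6 1 = true :=
  ⟨(a (a (b (b (a (c (l 16507672) (l 16495416)) (l 16499160)) (a (l 16520392) (l 16517112))) (b (a (l 16539976) (l 16536032)) (a (l 16560456) (l 16555888)))) (a (b (b (l 16496232) (l 16513520)) (b (l 16531816) (l 16551040))) (a (b (b (l 16493696) (l 16510504)) (l 16558944)) (b (a (l 16521440) (b (l 16490264) (l 16506640))) (a (l 16556608) (b (l 16524056) (l 16542352))))))) (a (b (b (l 16487528) (l 16503304)) (b (l 16520056) (l 16537640))) (b (l 16488368) (l 16519704)))), by decide +kernel⟩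

def k6_pm_022_a : ∃ t, chk3 f_pm_022_a t 10 7 1 = true :=
  ⟨(a (a (b (b (a (l 16581720) (l 16576472)) (l 16600376)) (a (b (l 16628312) (b (l 16623032) (b (l 16625168) (c (l 16628640) (l 16624264))))) (b (l 16631128) (b (l 16615240) (b (l 16617288) (c (l 16620888) (l 16616104))))))) (b (a (b (l 16570944) (l 16591104)) (a (b (l 16566432) (l 16585984)) (a (b (l 16563680) (l 16582928)) (b (l 16624120) (l 16580256))))) (a (b (b (l 16600896) (l 16604608)) (b (l 16607816) (a (b (l 16611544) (l 16612664)) (a (l 16609368) (l 16607576))))) (b (a (l 16597816) (a (l 16595800) (b (l 16593136) (l 16604656)))) (a (b (l 16602648) (b (l 16604552) (a (l 16606352) (l 16604744)))) (a (b (l 16600592) (b (l 16602456) (a (l 16603656) (a (l 16603200) (l 16603000))))) (b (a (a (a (l 16600096) (a (l 16600192) (l 16600488))) (l 16600224)) (l 16599464)) (a (a (a (l 16602488) (a (l 16602584) (a (a (l 16602712) (b (l 16602368) (b (l 16603136) (l 16603584)))) (l 16602904)))) (l 16602616)) (l 16601840))))))))) (b (a (b (l 16555672)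 (l 16573784)) (l 16594944)) (b (a (b (l 16584448) (l 16587968)) (l 16572160)) (a (b (a (l 16594920) (l 16586912)) (a (b (l 16596696) (l 16597640)) (b (l 16588576) (a (l 16591456) (a (l 16588384) (l 16586456)))))) (b (l 16576240) (b (l 16577680) (a (l 16581984) (l 16574760)))))))), by decide +kernel⟩

def k7_pm_022_a : ∃ t, chk3 f_pm_022_a t 11 3 1 = true :=
  ⟨(b (b (a (b (l 16470000) (l 16483288)) (l 16464208)) (a (b (l 16497352) (l 16512000)) (b (l 16481528) (l 16493768)))) (b (a (b (l 16547816) (l 16541368)) (b (l 16505984) (l 16517200))) (b (a (b (l 16550224) (l 16553000)) (b (l 16523184) (l 16530736))) (a (b (a (l 16562176) (l 16548000)) (a (a (l 16588208) (l 16559968)) (b (l 16548888) (c (l 16552424) (l 16545872))))) (b (a (l 16533952) (l 16520280)) (a (b (l 16534640) (c (l 16538352) (l 16531152))) (b (l 16520792) (c (l 16524816) (l 16516760))))))))), by decide +kernel⟩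

def k8_pm_022_a : ∃ t, chk3 f_pm_022_a t 3 2 1 = true :=
  ⟨(a (a (b (a (b (l 16415752) (l 16417352)) (b (l 16421288) (l 16420552))) (a (b (l 16424944) (l 16437688)) (b (l 16425248) (l 16434752)))) (b (a (b (l 16429688) (l 16426608)) (l 16438576)) (a (b (l 16428520) (l 16434376)) (b (l 16434272) (l 16436160))))) (a (b (a (l 16451216) (l 16464504)) (b (a (l 16441864) (l 16448928)) (a (l 16438176) (l 16438104)))) (b (a (l 16477064) (l 16487224)) (a (b (l 16453736) (l 16434864)) (b (l 16456016) (l 16429144)))))), by decide +kernel⟩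

def k9_pm_022_a : ∃ t, chk3 f_pm_022_a t 6 3 1 = true :=
  ⟨(b (a (b (a (l 16454464) (l 16447496)) (a (b (l 16468504) (l 16478088)) (b (l 16457520) (l 16463656)))) (b (a (l 16442336) (l 16437920)) (a (l 16469432) (l 16434264)))) (a (b (a (b (l 16486896) (l 16493656)) (a (l 16495640) (l 16463592))) (b (a (b (l 16497792) (l 16583640)) (a (l 16481792) (l 16471584))) (a (b (a (l 16507216) (l 16494952)) (b (a (l 16507600) (l 16495256)) (a (a (l 16510832) (l 16504408)) (a (l 16498200) (l 16492216))))) (b (a (l 16483600) (l 16473072)) (b (a (l 16483776) (l 16473136)) (a (a (l 16486440) (l 16480880)) (a (l 16475528) (c (l 16476384) (l 16464008))))))))) (b (a (b (l 16446472) (l 16558480)) (b (l 16431928) (a (l 16441600) (l 16433952)))) (b (a (a (l 16462168) (b (l 16452632) (l 16453776))) (a (l 16465712) (l 16436328))) (a (b (a (l 16463344) (a (l 16456448) (l 16451848))) (a (b (l 16463264) (a (b (l 16465472) (l 16465288)) (b (l 16460664) (l 16460440)))) (a (b (l 16456216) (c (b (l 16462168) (l 16462208)) (l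 16459440))) (b (l 16451504) (c (l 16457352) (l 16444136)))))) (b (a (l 16445040) (l 16435960)) (a (b (a (l 16446824) (l 16442144)) (a (c (l 16452480) (l 16439392)) (c (l 16447560) (l 16434688)))) (c (b (l 16440328) (a (l 16463496) (l 16437384))) (b (l 16429024) (a (l 16429984) (l 16425248))))))))))), by decide +kernel⟩

def k10_pm_022_a : ∃ t, chk3 f_pm_022_a t 7 3 1 = true :=
  ⟨(b (a (b (a (l 16410976) (l 16421432)) (a (l 16479016) (l 16485272))) (a (b (l 16407344) (l 16435032)) (b (l 16391432) (l 16421048)))) (a (b (a (b (l 16419696) (a (l 16426824) (l 16420848))) (b (l 16409752) (a (l 16414904) (l 16408496)))) (b (a (a (b (l 16428144) (l 16428008)) (l 16421304)) (a (l 16414336) (l 16407112))) (a (b (a (c (l 16431240) (l 16422112)) (l 16419536)) (a (c (b (l 16430728) (a (l 16432208) (l 16427960))) (a (l 16421352) (l 16417280))) (c (b (l 16422744) (a (l 16423968) (l 16419936))) (a (l 16413432) (l 16409584))))) (b (a (l 16432992) (l 16404000)) (a (c (b (l 16414712) (a (l 16415824) (l 16411536))) (b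 (l 16404680) (a (l 16404704) (l 16400632)))) (c (b (l 16406184) (a (l 16407224) (l 16402944))) (b (l 16396632) (a (l 16396544) (l 16392504))))))))) (b (a (b (l 16397800) (a (l 16401632) (l 16393800))) (b (l 16382336) (l 16466216))) (b (a (a (l 16399152) (l 16391288)) (a (l 16383648) (l 16377728))) (b (a (a (l 16395960) (l 16388320)) (a (l 16382192) (l 16377760))) (a (a (a (c (l 16399400) (l 16389704)) (c (l 16395592) (l 16386120))) (b (l 16386928) (a (a (l 16388272) (l 16386728)) (c (l 16388880) (l 16379232))))) (c (a (b (l 16385024) (c (a (l 16387992) (l 140822115589390351)) (l 140627914342875151))) (b (l 16381216) (a (c (l 140854894776467471) (l 140492674407563279)) (b (l 16381376) (a (l 140969725017735183) (l 140977352879030287)))))) (b (a (l 16376864) (l 16373400)) (a (a (l 140817854963417103) (l 140624134754533391)) (a (l 140432269972520975) (l 140601319883390991))))))))))), by decide +kernel⟩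

theorem s11_pm_022_a : ∃ t, chk3 f_pm_022_a t 3 3 1 = true := ex3_a k9_pm_022_a k10_pm_022_a

theorem s12_pm_022_a : ∃ t, chk3 f_pm_022_a t 3 1 1 = true := ex3_b k8_pm_022_a s11_pm_022_a

theorem s13_pm_022_a : ∃ t, chk3 f_pm_022_a t 10 3 1 = true := ex3_b k5_pm_022_a k6_pm_022_a

theorem s14_pm_022_a : ∃ t, chk3 f_pm_022_a t 5 3 1 = true := ex3_a s13_pm_022_a k7_pm_022_a

theorem s15_pm_022_a : ∃ t, chk3 f_pm_022_a t 5 1 1 = true := ex3_b k4_pm_022_a s14_pm_022_a

theorem s16_pm_022_a : ∃ t, chk3 f_pm_022_a t 9 3 1 = true := ex3_b k2_pm_022_a k3_pm_022_a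

theorem s17_pm_022_a : ∃ t, chk3 f_pm_022_a t 9 1 1 = true := ex3_b k1_pm_022_a s16_pm_022_a

theorem s18_pm_022_a : ∃ t, chk3 f_pm_022_a t 4 1 1 = true := ex3_a k0_pm_022_a s17_pm_022_a

theorem s19_pm_022_a : ∃ t, chk3 f_pm_022_a t 2 1 1 = true := ex3_a s18_pm_022_a s15_pm_022_a

theorem s20_pm_022_a : ∃ t, chk3 f_pm_022_a t 1 1 1 = true := ex3_a s19_pm_022_a s12_pm_022_a

theorem c_pm_022_a : CertB 0 536870912 0 536870912 649613803 48318383 3 eng mog cd0q0 cd4q2a pd2 true true false .pp 0 2 2
    ndB0q0 ndB4q2a pcB2 cut_pm_022_a xt_pm_022_a :=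
  certB2 (fam := true) (s1 := true) (s2 := false) (a := 0) (b := 2) (c := 2) (cn := .pp) (n1 := ndB0q0) (n2 := ndB4q2a) (pc := pcB2) (cut := cut_pm_022_a) (xt := xt_pm_022_a) (P1 := 0) (W1 := 536870912) (P2 := 0) (W2 := 536870912) (P3 := 649613803) (W3 := 48318383) (N0 := 3) (En := eng) (mo := mog) (C1 := cd0q0) (C2 := cd4q2a) (C3 := pd2)
    rfl (fun _ => rfl) s20_pm_022_a

noncomputable def cut_pm_022_b : Cut := Cut.of [[⟨0, 0, 0, 67108864⟩, ⟨1, 1, 0, 67108864⟩, ⟨2, 1, 0, 67108864⟩]]

noncomputable def f_pm_022_b : ℕ → ℕ → ℕ → ℕ → Bool := onCell 0 536870912 1073741824 536870912 649613803 48318383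
    (rowB 3 eng mog cd0q0 cd4q2b pd2 1 true true false .pp 0 2 2 (qsf 0 536870912 1239849684 370763052 2) ndB0q0 ndB4q2b pcB2 cut_pm_022_b Ext.none)

def k0_pm_022_b : ∃ t, chk3 f_pm_022_b t 1 2 1 = true :=
  ⟨(b (l 1) (a (a (b (a (b (b (l 1) (b (l 1) (a (b (l 1) (b (l 1) (a (a (b (b (b (l 1) (b (l 1) (l 16418440))) (l 16417808)) (l 16416384)) (l 1)) (l 1)))) (l 1)))) (a (b (a (b (l 16416344) (b (l 16405232) (l 16397808))) (l 58551860615)) (a (l 16377432) (l 16409600))) (b (l 1) (a (l 16440104) (l 1))))) (l 1)) (a (a (b (a (b (a (l 16338768) (l 16355056)) (c (l 16334944) (l 16303840))) (b (l 16378696) (l 16350664))) (a (b (c (l 16312432) (l 16277200)) (c (l 16292800) (l 16253480))) (b (l 16325472) (l 16303104)))) (b (a (b (l 16408864) (l 16380400)) (l 16422920)) (a (l 16342880) (l 16370672)))) (a (b (a (l 16450248) (l 1)) (a (l 16397440) (l 16423016))) (b (l 1) (a (l 16447184) (l 1)))))) (l 1)) (l 1))), by decide +kernel⟩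

def k1_pm_022_b : ∃ t, chk3 f_pm_022_b t 1 3 1 = true :=
  ⟨(a (b (a (a (b (a (b (b (a (l 16254416) (l 16283528)) (a (l 16238464) (l 16266728))) (a (b (l 16225360) (l 16215088)) (l 16246680))) (b (b (l 16325040) (l 16307112)) (b (l 16291816) (l 16279128)))) (b (a (b (l 16241288) (a (l 16203296) (l 16227248))) (b (l 16269048) (l 16261760))) (a (a (c (l 16240984) (l 16166912)) (l 16225280)) (l 16256648)))) (b (a (b (a (l 16354768) (l 16379640)) (l 16334048)) (b (l 16414816) (l 16379928))) (b (a (b (l 16315512) (l 16306240)) (l 16353992)) (a (l 16297464) (l 16337208))))) (b (a (a (b (l 16456936) (l 16421696)) (b (l 1) (l 16458232))) (l 1)) (a (b (a (l 16394456) (l 16431320)) (a (l 16375208) (l 16411152))) (a (b (l 16462488) (l 16443664)) (b (l 1) (l 16468824)))))) (a (b (a (b (a (b (a (l 16210928) (l 16230368)) (a (l 16218072) (l 16237240))) (l 16260080)) (a (b (a (l 16226808) (l 16245704)) (l 16246320)) (b (l 16270280) (l 16279544)))) (a (b (l 16295216) (l 16303936)) (b (l 16330224) (l 16333208))))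 (a (b (a (c (l 16319696) (l 16208928)) (l 16357104)) (a (l 16291000) (l 16317424))) (b (a (l 16364040) (l 16346400)) (a (l 16343192) (l 16366600))))) (b (a (b (l 16486672) (l 16378392)) (b (l 16508376) (l 16439224))) (a (b (l 16383616) (l 16439312)) (a (l 16511616) (l 16454824)))))) (a (b (l 1) (a (b (a (b (l 16518464) (l 16475480)) (b (l 1) (l 16483304))) (a (l 16479664) (b (l 16491656) (l 16500888)))) (b (l 1) (a (b (l 16487968) (l 16505688)) (l 132103385367))))) (l 1))), by decide +kernel⟩

theorem s2_pm_022_b : ∃ t, chk3 f_pm_022_b t 1 1 1 = true := ex3_b k0_pm_022_b k1_pm_022_b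

theorem c_pm_022_b : CertB 0 536870912 1239849684 370763052 649613803 48318383 3 eng mog cd0q0 cd4q2b pd2 true true false .pp 0 2 2
    ndB0q0 ndB4q2b pcB2 cut_pm_022_b Ext.none :=
  certB1 (fam := true) (s1 := true) (s2 := false) (a := 0) (b := 2) (c := 2) (cn := .pp) (n1 := ndB0q0) (n2 := ndB4q2b) (pc := pcB2) (cut := cut_pm_022_b) (xt := Ext.none) (P1 := 0) (W1 := 536870912) (P2 := 1239849684) (W2 := 370763052) (P3 := 649613803) (W3 := 48318383) (N0 := 3) (En := eng) (mo := mog) (C1 := cd0q0) (C2 := cd4q2b) (C3 := pd2)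
    rfl (fun _ => rfl) s2_pm_022_b

noncomputable def xt_pm_023_a : Ext := extD2 3 ⟨7, 3, 3, 10, 377, 200, 77, 100, 17, 50, 3, 16⟩ eng cd0q0 cd4q2a pd3 true true false .up 0 2 3 rfl ndB0q0 ndB4q2a pcB3

noncomputable def f_pm_023_a : ℕ → ℕ → ℕ → ℕ → Bool := onCell 0 536870912 0 536870912 649613803 48318383
    (rowB 3 eng mog cd0q0 cd4q2a pd3 0 true true false .up 0 2 3 (qsf 0 536870912 0 536870912 3) ndB0q0 ndB4q2a pcB3 Cut.none xt_pm_023_a)

def k0_pm_023_a : ∃ t, chk3 f_pm_023_a t 1 1 1 = true :=
  ⟨(a (l 1) (a (b (a (l 1) (b (l 16490920) (a (l 1) (l 16408000)))) (b (l 1) (l 1))) (b (b (a (a (l 16435976) (l 16466832)) (a (l 16491080) (a (l 16510888) (b (l 16537856) (l 16522800))))) (a (b (l 16436856) (l 16428472)) (a (b (l 16472856) (l 16459944)) (b (l 16497728) (l 16483312))))) (b (a (a (l 165925917639) (l 16467528)) (b (a (l 16445712) (l 16470376)) (a (l 16432824) (l 16454072)))) (b (a (a (l 1) (l 16415928)) (a (l 16421840) (l 16437456))) (a (l 1) (b (a (l 234108660359) (a (l 16422368) (l 16430584)))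 (a (l 1) (a (b (l 241624818135) (l 1)) (a (b (l 16422856) (l 5503030331026741112513658895)) (b (l 140726664320679951) (a (b (l 140680553543696399) (l 5493358924469798721632944143)) (b (l 140704124328624143) (c (b (l 140792222719229967) (l 140781846076424207)) (l 140565791992299535))))))))))))))), by decide +kernel⟩

theorem c_pm_023_a : CertB 0 536870912 0 536870912 649613803 48318383 3 eng mog cd0q0 cd4q2a pd3 true true false .up 0 2 3
    ndB0q0 ndB4q2a pcB3 Cut.none xt_pm_023_a :=
  certB0 (fam := true) (s1 := true) (s2 := false) (a := 0) (b := 2) (c := 3) (cn := .up) (n1 := ndB0q0) (n2 := ndB4q2a) (pc := pcB3) (cut := Cut.none) (xt := xt_pm_023_a) (P1 := 0) (W1 := 536870912) (P2 := 0) (W2 := 536870912) (P3 := 649613803) (W3 := 48318383) (N0 := 3) (En := eng) (mo := mog) (C1 := cd0q0) (C2 := cd4q2a) (C3 := pd3)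
    rfl k0_pm_023_a

noncomputable def f_pm_023_b : ℕ → ℕ → ℕ → ℕ → Bool := onCell 1610612736 536870912 1239849684 370763052 649613803 48318383
    (rowB 3 eng mog cd0q0 cd4q2b pd3 2 true true false .up 0 2 3 (qsf 0 536870912 1239849684 370763052 3) ndB0q0 ndB4q2b pcB3 Cut.none Ext.none)

def k0_pm_023_b : ∃ t, chk3 f_pm_023_b t 1 1 1 = true :=
  ⟨(b (a (a (a (b (b (a (l 16506096) (l 16497848)) (a (l 16507304) (l 16523568))) (b (a (l 16480136) (l 16510320)) (a (l 16442624) (l 16478240)))) (b (a (b (l 16471072) (l 16527616)) (b (l 16486488) (l 16526520))) (b (a (l 16534792) (l 16554744)) (a (l 16512368) (l 16546640))))) (a (b (a (a (b (l 16506976) (l 16521336)) (b (l 16525752) (l 16514608))) (a (b (l 16536512) (l 16534704)) (l 16554096))) (a (a (l 16571192) (b (l 16570904) (l 16582624))) (b (l 16590240) (l 16607200)))) (b (b (l 16585128) (l 16611096)) (b (l 16613120) (l 16635704))))) (a (b (l 2) (a (a (l 16640464) (l 16687992)) (a (l 16713032) (l 2)))) (l 2))) (a (a (a (b (b (l 16422840) (l 16382256))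 (b (l 16333376) (l 16285424))) (b (a (b (l 16477256) (l 16434112)) (b (l 16517472) (l 16475968))) (a (l 16356576) (l 16397760)))) (a (b (a (b (l 16557552) (l 16519616)) (b (l 16598024) (l 16566384))) (a (b (l 16466520) (l 16415272)) (b (l 16514944) (l 16462544)))) (b (b (l 16641416) (l 16627800)) (b (l 16588120) (l 16542112))))) (a (a (b (a (l 16852160) (l 16710856)) (b (l 16683936) (l 16652080))) (b (a (l 16731408) (l 16740072)) (a (l 16755320) (b (l 16751240) (l 16768352))))) (a (b (a (l 16741464) (l 16729896)) (a (l 16767704) (l 4))) (l 4))))), by decide +kernel⟩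

theorem c_pm_023_b : CertB 0 536870912 1239849684 370763052 649613803 48318383 3 eng mog cd0q0 cd4q2b pd3 true true false .up 0 2 3
    ndB0q0 ndB4q2b pcB3 Cut.none Ext.none :=
  certB2 (fam := true) (s1 := true) (s2 := false) (a := 0) (b := 2) (c := 3) (cn := .up) (n1 := ndB0q0) (n2 := ndB4q2b) (pc := pcB3) (cut := Cut.none) (xt := Ext.none) (P1 := 0) (W1 := 536870912) (P2 := 1239849684) (W2 := 370763052) (P3 := 649613803) (W3 := 48318383) (N0 := 3) (En := eng) (mo := mog) (C1 := cd0q0) (C2 := cd4q2b) (C3 := pd3)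
    rfl (fun _ => rfl) k0_pm_023_b

noncomputable def f_pm_033 : ℕ → ℕ → ℕ → ℕ → Bool := onCell 1610612736 536870912 1610612736 536870912 649613803 48318383
    (rowB 3 eng mog cd0q0 cd4q3 pd3 2 true true false .pnn 0 3 3 (qsf 0 536870912 1610612736 536870912 3) ndB0q0 ndB4q3 pcB3 Cut.none Ext.none)

def k0_pm_033 : ∃ t, chk3 f_pm_033 t 1 1 1 = true :=
  ⟨(a (a (b (a (b (b (a (l 16166744) (l 16192680)) (a (l 1) (l 16104016))) (l 1)) (b (b (a (l 16222192) (l 16259096)) (a (l 16139520) (l 16180432))) (b (a (l 1) (l 16080088)) (l 1)))) (l 1)) (b (a (b (b (a (l 16300048) (l 16345792)) (l 16251152)) (b (a (l 16146672) (l 16209784)) (a (l 1) (l 16062920)))) (b (b (l 16433272) (l 16369160)) (b (a (l 16271400) (l 16332232)) (a (l 16160472) (l 16234336))))) (b (a (l 1) (b (a (l 1) (l 16136792)) (l 1))) (l 1)))) (a (b (b (a (b (a (l 16524880) (l 16581400)) (a (l 16458464) (l 16514672))) (b (a (l 16635080) (l 16681640)) (a (l 16569264) (l 16614808)))) (a (b (a (l 16393176) (l 16448944)) (a (l 16302496) (l 16360376)))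 (b (a (l 16497744) (l 4)) (l 4)))) (b (a (b (a (l 16216792) (l 16279240)) (a (l 1) (l 4))) (l 4)) (l 4))) (b (a (b (a (b (l 4) (l 4)) (l 4)) (l 4)) (l 4)) (l 4)))), by decide +kernel⟩

theorem c_pm_033 : CertB 0 536870912 1610612736 536870912 649613803 48318383 3 eng mog cd0q0 cd4q3 pd3 true true false .pnn 0 3 3
    ndB0q0 ndB4q3 pcB3 Cut.none Ext.none :=
  certB2 (fam := true) (s1 := true) (s2 := false) (a := 0) (b := 3) (c := 3) (cn := .pnn) (n1 := ndB0q0) (n2 := ndB4q3) (pc := pcB3) (cut := Cut.none) (xt := Ext.none) (P1 := 0) (W1 := 536870912) (P2 := 1610612736) (W2 := 536870912) (P3 := 649613803) (W3 := 48318383) (N0 := 3) (En := eng) (mo := mog) (C1 := cd0q0) (C2 := cd4q3) (C3 := pd3)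
    rfl (fun _ => rfl) k0_pm_033

noncomputable def cut_pm_101 : Cut := Cut.of [[⟨0, 1, 0, 67108864⟩, ⟨1, 0, 0, 67108864⟩, ⟨2, 1, 0, 67108864⟩]]

noncomputable def f_pm_101 : ℕ → ℕ → ℕ → ℕ → Bool := onCell 536870912 536870912 0 536870912 649613803 48318383
    (rowB 3 eng mog cd0q1 cd4q0 pd1 2 true true false .npn 1 0 1 (qsf 536870912 536870912 0 536870912 1) ndB0q1 ndB4q0 pcB1 cut_pm_101 Ext.none)

def k0_pm_101 : ∃ t, chk3 f_pm_101 t 1 1 1 = true :=
  ⟨(a (l 3) (b (a (l 3) (b (a (l 3) (b (a (l 3) (a (l 3) (b (l 6) (l 3)))) (l 3))) (l 3))) (l 3))), by decide +kernel⟩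

theorem c_pm_101 : CertB 536870912 536870912 0 536870912 649613803 48318383 3 eng mog cd0q1 cd4q0 pd1 true true false .npn 1 0 1
    ndB0q1 ndB4q0 pcB1 cut_pm_101 Ext.none :=
  certB2 (fam := true) (s1 := true) (s2 := false) (a := 1) (b := 0) (c := 1) (cn := .npn) (n1 := ndB0q1) (n2 := ndB4q0) (pc := pcB1) (cut := cut_pm_101) (xt := Ext.none) (P1 := 536870912) (W1 := 536870912) (P2 := 0) (W2 := 536870912) (P3 := 649613803) (W3 := 48318383) (N0 := 3) (En := eng) (mo := mog) (C1 := cd0q1) (C2 := cd4q0) (C3 := pd1)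
    rfl (fun _ => rfl) k0_pm_101

noncomputable def cut_pm_102 : Cut := Cut.of [[⟨0, 1, 0, 67108864⟩, ⟨1, 0, 0, 67108864⟩, ⟨2, 1, 0, 67108864⟩]]

noncomputable def xt_pm_102 : Ext := extD2 3 ⟨7, 3, 3, 10, 377, 200, 77, 100, 17, 50, 3, 16⟩ eng cd0q1 cd4q0 pd2 true true false .npp 1 0 2 rfl ndB0q1 ndB4q0 pcB2

noncomputable def f_pm_102 : ℕ → ℕ → ℕ → ℕ → Bool := onCell 536870912 536870912 1073741824 536870912 649613803 48318383
    (rowB 3 eng mog cd0q1 cd4q0 pd2 1 true true false .npp 1 0 2 (qsf 536870912 536870912 0 536870912 2) ndB0q1 ndB4q0 pcB2 cut_pm_102 xt_pm_102)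

def k0_pm_102 : ∃ t, chk3 f_pm_102 t 4 8 1 = true :=
  ⟨(b (a (l 3) (b (l 3) (b (l 3) (a (l 3) (a (l 2449283710681893572501897263) (b (l 3) (l 2545997776251034631900299311))))))) (a (b (a (b (b (l 3) (l 2)) (l 2)) (b (b (a (l 3) (a (c (l 203104538183) (l 205251930247)) (a (l 2110784481189816301235912751) (l 142449461830041647)))) (a (b (c (l 192904034119) (l 203104489303)) (c (l 16548280) (l 16503664))) (b (b (a (l 16530640) (l 16533328)) (l 16551816)) (c (l 16551656) (l 16507048))))) (b (a (l 16543952) (l 16526568)) (a (l 16520368) (l 16522440))))) (a (l 2) (b (l 16515568) (l 16508632)))) (b (b (a (a (b (l 142400533572173871) (b (l 142268042411065391) (l 16535704))) (b (b (l 142049858107539503) (l 142018315859787823)) (l 142332020259766319))) (b (a (l 1443457428762337174893854767) (l 142604149469855791)) (a (l 142053294091223087) (l 16576960)))) (a (b (b (l 16558320) (l 16534392)) (l 16530088)) (a (l 16547480) (l 16562864)))) (a (b (l 16521720) (l 16510784)) (b (l 16538472) (l 16522688)))))), by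 decide +kernel⟩

def k1_pm_102 : ∃ t, chk3 f_pm_102 t 5 8 1 = true :=
  ⟨(b (b (l 3) (b (a (l 3) (b (l 3) (a (a (l 3) (c (l 196125639831) (l 3368067333590156199710572783))) (a (a (l 3319710300805897587810517295) (b (l 16798456) (l 16791112))) (c (l 154249870039) (l 16792168)))))) (b (a (a (a (l 3) (l 4238493923711866633118548015)) (a (l 2642711841820538461606510703) (a (b (l 143091095891492975) (l 143026911885820015)) (a (l 3164967795894275143848001647) (l 3803280628650880230932201583))))) (a (a (c (l 2836139972959486747382137071) (a (l 143260214545907823) (l 143454965576679663))) (b (c (l 143892777452945711) (l 143973316648075503)) (l 143782551382360303))) (a (a (b (l 16771792) (l 16765568)) (l 144443289226068271)) (a (l 16792224) (l 16801744))))) (a (a (a (b (l 142740557710819375) (l 142504506294812719)) (b (l 142777597552001071) (l 142723996347891759))) (a (b (l 142811063969955951) (l 16635752)) (b (l 143042098890358895) (l 143172116128776303)))) (a (a (b (l 143370234449870959) (l 16702712)) (c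 (l 143745855178817839) (l 143800830722769135))) (a (l 16761488) (l 16783896))))))) (a (b (a (b (a (b (b (l 142454547223117871) (l 16607208)) (l 16598624)) (b (l 142658575390654511) (l 16621608))) (a (l 16581952) (l 16604480))) (b (a (b (l 142872292996120687) (l 16638048)) (a (l 16634280) (l 143100166816415855))) (l 16608648))) (a (b (l 16570120) (l 16548248)) (l 16597232))) (b (a (b (b (a (l 16692344) (l 16720816)) (l 16629848)) (a (l 16659096) (l 16686128))) (a (c (l 16796952) (l 16698408)) (l 16738536))) (a (l 16615064) (l 16663128))))), by decide +kernel⟩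

def k2_pm_102 : ∃ t, chk3 f_pm_102 t 2 9 1 = true :=
  ⟨(a (b (a (b (a (l 2) (l 16499336)) (l 2)) (b (l 16560328) (l 16475480))) (a (l 2) (b (l 16456320) (l 16438928)))) (a (b (b (a (l 16518224) (l 16555464)) (a (l 16481960) (l 16516248))) (l 16507392)) (a (b (b (l 16593128) (l 16556288)) (l 16506896)) (b (l 16613608) (l 16563024))))), by decide +kernel⟩

def k3_pm_102 : ∃ t, chk3 f_pm_102 t 6 8 1 = true :=
  ⟨(b (b (b (l 3) (a (a (l 3) (a (l 3) (c (l 16899728) (a (l 64055699847) (l 16918944))))) (b (a (l 3) (a (l 16881416) (c (l 16822712) (l 16833384)))) (a (a (c (l 16844112) (l 63518690871)) (a (l 16865264) (c (l 16831560) (l 16846688)))) (a (c (l 16822984) (l 16815000)) (a (l 16819712) (l 16814736))))))) (b (a (b (a (a (l 97878390375) (c (l 16864000) (a (l 16838848) (l 16852224)))) (a (c (a (l 16845680) (l 16844800)) (a (b (l 16872232) (l 16848448)) (c (l 16861736) (l 16854184)))) (a (b (l 16897344) (l 16871352)) (b (l 16872288) (l 16846408))))) (a (a (b (c (l 16825080) (l 16857776)) (l 16803152))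 (a (b (l 16818120) (l 16833360)) (l 16833192))) (a (c (l 16875952) (a (l 16834632) (l 16843160))) (a (l 16836640) (l 16838888))))) (a (b (a (c (l 16853968) (a (b (l 16857160) (l 16852248)) (l 16849208))) (b (l 16819264) (l 16828912))) (a (l 16821272) (l 16820752))) (a (l 16802120) (l 16844184)))) (a (a (a (b (l 16792624) (l 16800760)) (c (l 16812728) (l 16806176))) (a (b (a (l 16831392) (l 16833120)) (l 16819224)) (b (a (l 16831632) (l 16827888)) (l 16818400)))) (a (a (l 16815488) (l 16804880)) (a (l 16793064) (l 16781912)))))) (a (a (b (a (l 16745736) (l 16778984)) (l 16699592)) (b (b (a (l 16799400) (l 16800496)) (a (l 16773200) (l 16775952))) (l 16715784))) (a (b (a (c (l 16774928) (l 16771408)) (l 16772920)) (a (l 16737480) (l 16731232))) (b (a (l 16761976) (l 16751616)) (l 16716720))))), by decide +kernel⟩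

def k4_pm_102 : ∃ t, chk3 f_pm_102 t 7 8 1 = true :=
  ⟨(a (b (b (b (b (l 3) (a (a (l 3) (c (l 91435940247) (l 89825341687))) (a (a (c (l 91972804823) (l 16815512)) (c (l 91435935799) (l 16832512))) (a (c (l 93046541495) (l 16807592)) (c (l 94657150503) (l 16824728)))))) (a (a (b (a (c (l 16815512) (l 16824512)) (c (l 16831928) (l 16818896))) (a (l 16809488) (l 16805008))) (b (a (c (l 16827952) (l 16813848)) (b (c (l 16806088) (l 16811952)) (l 16804224))) (c (l 16795808) (l 16802160)))) (a (b (c (a (l 16821368) (l 16797648)) (a (l 16826248) (l 16801776))) (l 16812648)) (c (b (l 16793408) (l 16784224)) (l 16833832))))) (a (b (a (l 16834352) (b (l 16788736) (l 16778968))) (a (l 16772496) (l 16764448))) (a (b (l 16840112) (l 16758152)) (l 16825384)))) (a (b (l 16822896) (l 16702200)) (b (a (l 16730280) (l 16726400)) (l 16780192)))) (b (b (a (b (a (a (b (l 3) (c (l 16818552) (l 16820816))) (b (l 6) (c (l 16815080) (l 16816816)))) (l 6)) (a (b (l 16819544) (l 16779352)) (b (l 6) (l 16772640)))) (l 6))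 (a (a (l 16799176) (b (l 16759984) (l 16743592))) (a (b (l 6) (l 16745264)) (l 6)))) (a (a (b (l 16744840) (l 16705296)) (b (l 16727872) (l 16710512))) (a (b (l 16768120) (l 16700232)) (b (a (l 16717064) (l 6)) (a (l 16690040) (l 16682656))))))), by decide +kernel⟩

def k5_pm_102 : ∃ t, chk3 f_pm_102 t 3 9 1 = true :=
  ⟨(a (a (b (a (l 16626592) (l 16665576)) (a (l 16568952) (l 16587480))) (b (a (b (l 16690328) (l 16649032)) (b (l 16658912) (l 16646760))) (a (l 16597848) (l 16711592)))) (a (a (b (l 16783336) (b (l 16630616) (l 16625032))) (b (b (l 16675320) (l 16670200)) (l 16652704))) (a (b (a (l 16684296) (l 16718240)) (a (l 16646544) (l 16634688))) (b (a (b (l 16675096) (l 16651192)) (b (l 16659896) (l 16634648))) (a (l 16618824) (l 16642104)))))), by decide +kernel⟩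

def k6_pm_102 : ∃ t, chk3 f_pm_102 t 1 5 1 = true :=
  ⟨(a (a (b (b (b (a (l 2) (l 16423872)) (l 2)) (l 2)) (l 2)) (b (b (a (b (l 16405200) (b (l 16390744) (l 16389608))) (b (l 16485808) (b (l 16470000) (b (l 16463736) (l 16463512))))) (a (l 16373040) (l 16447056))) (a (l 16429232) (l 16449272)))) (a (b (a (b (b (l 16599504) (b (l 16521032) (a (l 16510400) (l 16525384)))) (a (l 16492152) (l 16511152))) (b (b (l 16652208) (b (l 16557240) (a (l 16544344) (l 16575424)))) (a (l 16532296) (l 16571576)))) (a (l 16614208) (a (l 16565656) (l 16586936)))) (b (a (b (b (a (l 16619128) (l 16631312)) (a (b (l 16611832) (l 16610008)) (b (l 16621160) (l 16742168)))) (a (l 16597232) (l 16621808))) (b (b (a (l 16614936) (l 16580904)) (a (b (l 16603608) (b (l 16598528) (l 16595968))) (b (l 16568552) (b (l 16563000) (l 16560016))))) (a (b (l 16587776) (l 16579352)) (b (l 16551408) (l 16543200))))) (a (a (l 16592960) (l 16587272)) (a (b (l 16571656) (l 16565736)) (b (l 16536776) (l 16532072))))))), by decide +kernel⟩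

def k7_pm_102 : ∃ t, chk3 f_pm_102 t 1 3 1 = true :=
  ⟨(a (a (l 2) (b (a (l 2) (b (l 16533592) (l 2))) (l 2))) (a (b (b (a (l 16573576) (l 16607264)) (a (l 16625504) (l 16639432))) (b (a (l 2) (l 16679152)) (l 2))) (b (b (a (a (l 16602896) (l 16589560)) (a (l 16567424) (l 16534400))) (a (b (l 16612168) (l 16624688)) (b (l 16565136) (l 16576696)))) (a (b (l 16648256) (l 16694784)) (b (l 16599784) (l 16651272)))))), by decide +kernel⟩

theorem s8_pm_102 : ∃ t, chk3 f_pm_102 t 3 8 1 = true := ex3_a k3_pm_102 k4_pm_102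

theorem s9_pm_102 : ∃ t, chk3 f_pm_102 t 3 4 1 = true := ex3_b s8_pm_102 k5_pm_102

theorem s10_pm_102 : ∃ t, chk3 f_pm_102 t 2 8 1 = true := ex3_a k0_pm_102 k1_pm_102

theorem s11_pm_102 : ∃ t, chk3 f_pm_102 t 2 4 1 = true := ex3_b s10_pm_102 k2_pm_102

theorem s12_pm_102 : ∃ t, chk3 f_pm_102 t 1 4 1 = true := ex3_a s11_pm_102 s9_pm_102

theorem s13_pm_102 : ∃ t, chk3 f_pm_102 t 1 2 1 = true := ex3_b s12_pm_102 k6_pm_102

theorem s14_pm_102 : ∃ t, chk3 f_pm_102 t 1 1 1 = true := ex3_b s13_pm_102 k7_pm_102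

theorem c_pm_102 : CertB 536870912 536870912 0 536870912 649613803 48318383 3 eng mog cd0q1 cd4q0 pd2 true true false .npp 1 0 2
    ndB0q1 ndB4q0 pcB2 cut_pm_102 xt_pm_102 :=
  certB1 (fam := true) (s1 := true) (s2 := false) (a := 1) (b := 0) (c := 2) (cn := .npp) (n1 := ndB0q1) (n2 := ndB4q0) (pc := pcB2) (cut := cut_pm_102) (xt := xt_pm_102) (P1 := 536870912) (W1 := 536870912) (P2 := 0) (W2 := 536870912) (P3 := 649613803) (W3 := 48318383) (N0 := 3) (En := eng) (mo := mog) (C1 := cd0q1) (C2 := cd4q0) (C3 := pd2)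
    rfl (fun _ => rfl) s14_pm_102

noncomputable def xt_pm_112 : Ext := extD2 3 ⟨7, 3, 3, 10, 377, 200, 77, 100, 17, 50, 3, 16⟩ eng cd0q1 cd4q1 pd2 true true false .dn 1 1 2 rfl ndB0q1 ndB4q1 pcB2

noncomputable def f_pm_112 : ℕ → ℕ → ℕ → ℕ → Bool := onCell 536870912 536870912 1073741824 536870912 649613803 48318383
    (rowB 3 eng mog cd0q1 cd4q1 pd2 1 true true false .dn 1 1 2 (qsf 536870912 536870912 536870912 536870912 2) ndB0q1 ndB4q1 pcB2 Cut.none xt_pm_112)

def k0_pm_112 : ∃ t, chk3 f_pm_112 t 1 1 1 = true :=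
  ⟨(b (b (a (b (a (b (a (l 3) (l 1)) (a (b (a (b (l 171965628327) (a (l 16350616) (l 16340720))) (b (l 2923777895865525810593667631) (l 33855617207))) (a (b (l 16337352) (l 16328776)) (l 29560635655))) (b (l 1) (b (l 1) (l 16339296))))) (l 1)) (a (b (a (b (a (l 16315048) (l 16291376)) (l 16320912)) (b (l 16306328) (l 16286312))) (a (b (a (l 16341712) (l 16324064)) (l 16446360)) (b (l 16367072) (l 16316888)))) (a (b (l 1) (a (l 16301368) (l 1))) (l 1)))) (l 1)) (a (a (b (b (b (a (a (l 16352672) (l 16342328)) (l 16327992)) (a (b (l 16351504) (b (l 16355056) (l 16428504))) (b (l 16335776) (b (l 16341504) (l 16354368))))) (a (l 16383192) (l 16357432))) (a (l 16349840) (l 16368896))) (b (b (a (b (l 16317776) (b (l 16326896) (b (l 16333384) (l 16346872)))) (l 1)) (a (l 16353944) (l 16355016))) (a (l 16385824) (l 16402600)))) (a (b (l 1) (a (l 16433400) (l 1))) (l 1)))) (a (a (b (b (a (l 16309496) (l 16358304)) (a (b (l 16268056) (l 16242464)) (l 16437136))) (a (b (b (a (l 16195272) (l 16238608)) (l 16233768))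 (a (b (l 16138168) (l 16195528)) (b (l 16198016) (l 16181448)))) (b (b (l 16310104) (l 16295224)) (a (l 16253112) (l 16316024))))) (b (a (b (l 16402768) (l 16404192)) (b (l 16443624) (l 16469616))) (a (b (l 16404512) (a (l 16380496) (l 16445056))) (b (l 16497592) (l 16535864))))) (a (b (b (a (l 16489768) (l 16528144)) (a (l 16535416) (l 16585616))) (b (a (l 16585880) (l 16649528)) (a (l 16649192) (l 16732576)))) (b (b (l 1) (a (l 386043806743) (l 1))) (b (a (l 16666744) (l 16667040)) (a (l 16759960) (l 16758656))))))), by decide +kernel⟩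

theorem c_pm_112 : CertB 536870912 536870912 536870912 536870912 649613803 48318383 3 eng mog cd0q1 cd4q1 pd2 true true false .dn 1 1 2
    ndB0q1 ndB4q1 pcB2 Cut.none xt_pm_112 :=
  certB1 (fam := true) (s1 := true) (s2 := false) (a := 1) (b := 1) (c := 2) (cn := .dn) (n1 := ndB0q1) (n2 := ndB4q1) (pc := pcB2) (cut := Cut.none) (xt := xt_pm_112) (P1 := 536870912) (W1 := 536870912) (P2 := 536870912) (W2 := 536870912) (P3 := 649613803) (W3 := 48318383) (N0 := 3) (En := eng) (mo := mog) (C1 := cd0q1) (C2 := cd4q1) (C3 := pd2)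
    rfl (fun _ => rfl) k0_pm_112

noncomputable def f_pm_113 : ℕ → ℕ → ℕ → ℕ → Bool := onCell 536870912 536870912 1610612736 536870912 649613803 48318383
    (rowB 3 eng mog cd0q1 cd4q1 pd3 1 true true false .nn 1 1 3 (qsf 536870912 536870912 536870912 536870912 3) ndB0q1 ndB4q1 pcB3 Cut.none Ext.none)

def k0_pm_113 : ∃ t, chk3 f_pm_113 t 2 1 1 = true :=
  ⟨(b (b (a (b (a (a (b (l 94588614375) (l 174045184807)) (a (l 89219894231) (l 87072490839))) (a (b (l 16159024) (l 16115168)) (l 16212008))) (a (b (a (l 2) (b (l 15999928) (l 2))) (l 2)) (b (b (l 97272696295) (c (l 105862800711) (l 100493859959))) (a (b (l 173508202583) (l 2)) (b (l 16127400) (l 152033497367)))))) (b (a (a (l 16286888) (l 16359824)) (a (l 16435176) (l 16492360))) (a (a (b (l 16234264) (b (l 16217352) (l 16207232))) (b (l 16313744) (l 16287048))) (b (l 16396992) (a (l 16346280) (l 16396944)))))) (b (a (b (a (l 2) (b (a (l 2) (l 181561353095)) (l 2))) (l 2)) (b (a (b (a (l 16130384) (l 16268360)) (b (a (l 16159040) (l 16256664)) (a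 (l 175655937911) (a (l 16236072) (l 16269944))))) (a (b (l 16328456) (a (l 16302176) (l 16329592))) (b (l 16379848) (l 16368560)))) (a (b (a (b (l 227195608039) (l 2)) (b (l 16261256) (l 216995473719))) (a (l 2) (l 16257552))) (b (a (a (l 16306000) (l 16330496)) (l 16365624)) (a (l 16310088) (l 16355424)))))) (a (l 2) (a (a (l 2) (b (l 257260661735) (l 2))) (a (b (l 16289104) (l 16268744)) (a (l 16315472) (l 16340968))))))) (b (a (l 2) (b (a (l 2) (a (l 2) (c (l 294305326903) (l 302358162055)))) (l 2))) (l 2))), by decide +kernel⟩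

def k1_pm_113 : ∃ t, chk3 f_pm_113 t 3 1 1 = true :=
  ⟨(a (b (b (b (a (l 16578248) (l 16724256)) (a (b (l 16514528) (l 16484920)) (l 16646440))) (b (a (b (b (l 16465072) (l 16453872)) (a (l 16410144) (l 16469424))) (b (l 16598136) (l 16570016))) (a (a (l 16383720) (l 16443816)) (a (l 16507672) (l 16570512))))) (b (b (a (b (l 16399240) (l 360340469095)) (b (l 16523328) (l 16513240))) (a (b (l 400068991351) (l 2)) (b (l 16500400) (l 16482832)))) (b (a (l 2) (l 4)) (l 2)))) (b (b (b (a (l 16868864) (l 16975928)) (a (l 16781512) (l 16876032))) (b (a (l 16711304) (l 16795968)) (a (b (l 16660752) (l 16636768)) (l 16727968)))) (b (b (a (l 16819336) (l 16661608)) (a (b (l 16575896) (l 4)) (l 4))) (l 4)))), by decide +kernel⟩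

theorem s2_pm_113 : ∃ t, chk3 f_pm_113 t 1 1 1 = true := ex3_a k0_pm_113 k1_pm_113

theorem c_pm_113 : CertB 536870912 536870912 536870912 536870912 649613803 48318383 3 eng mog cd0q1 cd4q1 pd3 true true false .nn 1 1 3
    ndB0q1 ndB4q1 pcB3 Cut.none Ext.none :=
  certB1 (fam := true) (s1 := true) (s2 := false) (a := 1) (b := 1) (c := 3) (cn := .nn) (n1 := ndB0q1) (n2 := ndB4q1) (pc := pcB3) (cut := Cut.none) (xt := Ext.none) (P1 := 536870912) (W1 := 536870912) (P2 := 536870912) (W2 := 536870912) (P3 := 649613803) (W3 := 48318383) (N0 := 3) (En := eng) (mo := mog) (C1 := cd0q1) (C2 := cd4q1) (C3 := pd3)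
    rfl (fun _ => rfl) s2_pm_113

end Pool.Agent.Strip051.G.I6050_6500.Tab.C.BA04

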