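import Pool.Agent.Strip051.G.I6050_6500.Tab
import Pool.Agent.Strip051.PB.ExtD2

/-! # Certificates B9 (generated) -/

set_option linter.all false
set_option maxRecDepth 100000

namespace Pool.Agent.Strip051.G.I6050_6500.Tab.C.BA06

open Pool.Agent.Strip051.PB Pool.Agent.Strip051.PB.T
open Pool.Agent.Strip051.G.I6050_6500.Tab

noncomputable def cut_pm_012 : Cut := Cut.of [[⟨0, 0, 0, 67108864⟩, ⟨1, 1, 0, 67108864⟩, ⟨2, 1, 0, 67108864⟩]]

noncomputable def f_pm_012 : ℕ → ℕ → ℕ → ℕ → Bool := onCell 1073741824 536870912 536870912 536870912 649613803 48318383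
    (rowB 3 eng mog cd0q0 cd6q1 pd2 2 true true false .pnp 0 1 2 (qsf 0 536870912 536870912 536870912 2) ndB0q0 ndB6q1 pcB2 cut_pm_012 Ext.none)

def k0_pm_012 : ∃ t, chk3 f_pm_012 t 4 2 1 = true :=
  ⟨(b (a (b (a (a (b (l 16255968) (l 16203088)) (b (l 16173584) (l 16185720))) (b (l 16107448) (l 16185704))) (a (b (a (l 16274880) (l 16216344)) (a (l 16289280) (l 16261568))) (b (l 16187736) (a (l 16232568) (l 16202608))))) (b (a (b (l 2) (l 16063632)) (l 2)) (a (b (l 16111392) (l 16157704)) (b (l 16055216) (l 16097824))))) (a (b (a (b (a (l 16336008) (l 16307072)) (a (l 16376656) (l 16429720))) (a (b (l 16339944) (l 16315016)) (b (l 16268024) (l 16284168)))) (a (b (a (l 16435504) (l 16444104)) (a (l 16493952) (l 16499408))) (a (b (l 16348256) (l 16400664)) (b (l 16315768) (l 16344744))))) (b (a (b (a (l 16216296) (l 16184840)) (a (l 16252824) (l 16221664))) (b (l 16221912) (a (l 16190040) (l 16158080)))) (a (b (a (l 16283760) (l 16252064)) (a (l 16310744) (l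 16277584))) (b (a (l 16220248) (l 16188880)) (l 16360568)))))), by decide +kernel⟩

def k1_pm_012 : ∃ t, chk3 f_pm_012 t 8 3 1 = true :=
  ⟨(b (b (a (a (b (b (l 16480424) (l 16499480)) (a (l 16536552) (l 16516944))) (b (l 16449904) (l 16484368))) (b (b (l 16468112) (l 16482840)) (a (l 16504632) (l 16400296)))) (a (a (b (b (l 16554768) (l 16593680)) (a (b (l 16598952) (l 16600160)) (l 16588832))) (b (l 16570616) (l 16595408))) (b (a (c (l 16516176) (l 16512720)) (l 16469880)) (a (c (l 16548616) (l 16545840)) (l 16500176))))) (b (a (a (b (a (a (b (l 16637496) (l 16654640)) (l 16642376)) (b (l 16614336) (l 16631440))) (a (b (a (l 16682440) (l 16662704)) (a (b (l 16685096) (l 16693936)) (b (l 16675808) (l 16684616)))) (b (l 16648664) (l 16666088)))) (b (b (l 16579384) (l 16596040)) (b (l 16633088) (a (l 16640992) (l 16614264))))) (b (a (a (l 16570952) (l 16525112)) (b (l 16480912) (l 16495480))) (a (b (l 16602200) (a (l 16587792) (l 16561584))) (b (l 16509464)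 (l 16522832))))) (a (b (a (b (a (a (b (l 16713360) (l 6)) (l 16697984)) (l 16694112)) (a (l 6) (a (l 6) (l 16691440)))) (b (a (l 16656112) (l 16649800)) (a (a (b (l 16673888) (l 6)) (l 16684464)) (b (l 16639304) (l 16646040))))) (a (l 6) (b (a (l 6) (b (l 16652568) (l 6))) (l 6)))) (b (a (b (a (l 16601824) (l 16575080)) (a (b (l 16611896) (l 16618392)) (l 16587904))) (b (l 16556504) (a (l 16560928) (l 16534256)))) (b (a (a (b (l 16624688) (l 16630760)) (b (l 16597032) (l 16602872))) (b (l 16577056) (a (l 16575256) (l 16547920)))) (a (b (a (l 6) (l 16608488)) (l 6)) (b (a (l 16580640) (l 16553056)) (a (l 16604144) (l 16557968))))))))), by decide +kernel⟩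

def k2_pm_012 : ∃ t, chk3 f_pm_012 t 9 3 1 = true :=
  ⟨(b (b (a (b (a (l 16335864) (l 16300368)) (a (l 16360352) (l 16321800))) (b (a (l 16266168) (l 16233216)) (a (l 16284968) (l 16249808)))) (a (a (b (l 16426656) (l 16433416)) (b (l 16364048) (l 16368000))) (b (b (l 16342472) (l 16393432)) (a (l 16325144) (l 16284192))))) (b (b (a (a (l 16482072) (l 16414248)) (a (l 16347888) (l 16304080))) (a (a (b (l 16459808) (l 16472144)) (b (l 16411312) (l 16422640))) (a (b (l 16364104) (l 16374352)) (b (l 16318392) (l 16327416))))) (b (a (a (b (l 16483808) (l 16515728)) (b (l 16433272) (l 16443176))) (a (b (l 16383952) (l 16392792)) (b (l 16335888) (l 16343632)))) (a (b (a (b (l 16502480) (l 16507400)) (b (l 16450080) (l 16454456))) (a (b (l 16533096) (a (l 16530352) (l 16503032))) (b (l 16479600) (a (l 16476032) (l 16449272))))) (b (a (b (l 16398896) (l 16402712)) (a (l 16363032) (l 16338208))) (a (b (l 16406312) (a (l 16422848) (l 16396696))) (a (l 16369392) (l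 16364944)))))))), by decide +kernel⟩

def k3_pm_012 : ∃ t, chk3 f_pm_012 t 5 2 1 = true :=
  ⟨(b (a (a (b (l 2) (a (l 16116120) (l 2))) (l 2)) (l 2)) (a (b (a (a (l 16276968) (a (l 16149040) (a (l 16075456) (l 16217672)))) (a (l 16175744) (l 16038992))) (a (a (b (l 16157552) (l 16182296)) (a (l 16252592) (a (l 16136944) (b (l 16118728) (l 16144344))))) (b (l 16089376) (l 16177168)))) (b (a (l 16089120) (l 2)) (a (l 16251856) (l 16079192))))), by decide +kernel⟩

def k4_pm_012 : ∃ t, chk3 f_pm_012 t 5 3 1 = true :=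
  ⟨(b (a (b (a (a (b (l 16201544) (l 16216424)) (a (b (l 16178688) (l 16192632)) (a (l 16196280) (a (l 16170616) (l 16273256))))) (b (l 16216368) (l 16291392))) (a (a (b (l 16229224) (l 16245400)) (a (b (l 16203768) (l 16217784)) (b (a (l 16191880) (a (l 16186568) (l 16183768))) (a (l 16204824) (a (l 16198888) (l 16195536)))))) (b (a (l 16165376) (l 16139120)) (a (l 16176024) (l 16146488))))) (b (a (b (l 16102744) (l 16108376)) (b (l 16083656) (l 16082408))) (b (a (l 16109224) (l 16076776)) (a (l 16110768) (l 16072120))))) (a (b (a (a (b (l 16325104) (b (l 16274392) (l 16282064))) (a (b (l 16232288) (l 16246056)) (b (a (l 16218040) (a (l 16211336) (l 16207312))) (a (l 16230464) (a (l 16222912) (l 16218088)))))) (b (a (l 16186368) (l 16152960)) (a (l 16216432) (l 16158048)))) (a (a (b (b (l 16289216) (l 16295728)) (b (a (l 16313664) (l 16289416)) (a (l 16339784) (l 16293920)))) (a (b (l 16300056) (b (l 16265400) (l 16311128))) (b (a (l 16241184) (a (l 16232744)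 (b (l 16225016) (l 16228880)))) (a (b (l 16247496) (l 16250624)) (a (b (l 16238376) (l 16241040)) (b (l 16231992) (c (a (l 16289872) (l 16245048)) (l 16221648)))))))) (b (a (b (l 16201264) (l 16204392)) (l 16161600)) (a (b (l 16206768) (a (l 16219688) (l 16196952))) (b (l 16162728) (l 16162528)))))) (b (b (a (b (l 16110968) (l 16110408)) (l 16106672)) (a (b (l 16109392) (l 16108008)) (b (l 16057208) (l 16051360)))) (b (a (b (l 16106160) (a (l 16122544) (l 16086160))) (b (l 16044944) (l 16142872))) (a (b (a (l 16120928) (l 16082280)) (a (l 16118656) (l 16077808))) (b (a (l 16046944) (l 16015144)) (a (l 16040208) (l 16047992)))))))), by decide +kernel⟩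

def k5_pm_012 : ∃ t, chk3 f_pm_012 t 3 1 1 = true :=
  ⟨(b (a (b (l 2) (a (b (l 2) (a (l 16083496) (l 2))) (l 2))) (l 2)) (b (a (a (b (a (l 16069720) (l 16066176)) (b (a (l 16052744) (l 16037456)) (a (l 16042448) (l 16021728)))) (b (a (l 16074496) (l 2)) (a (b (l 16033976) (l 16010776)) (b (l 16048768) (l 16017464))))) (a (b (l 2) (a (l 16059976) (l 2))) (l 2))) (a (b (a (b (a (l 16029552) (l 16003704)) (a (b (l 16017072) (l 16007584)) (l 15981760))) (a (b (l 15987616) (l 16023800)) (b (l 15985888) (l 15953432)))) (a (b (a (b (l 15997208) (a (l 15997760) (l 15975232))) (b (l 15962072) (l 15947584))) (a (b (a (l 15986944) (l 15962352)) (a (l 15996512) (l 15948752))) (b (a (l 15941280) (l 15923576)) (a (l 15946616) (l 15906136))))) (b (a (a (l 15935056) (l 15925624)) (b (l 15926848) (l 15907520))) (a (a (b (l 15909032) (l 15890056)) (b (l 15897784) (l 15877512))) (b (l 15950464) (a (l 15868680) (l 15862992))))))) (a (b (a (b (l 16000008) (l 15958456)) (b (l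 16029472) (l 15979760))) (a (b (a (l 15915752) (l 15917656)) (b (l 15882840) (a (l 15859992) (l 15858896)))) (b (l 15928752) (b (l 15889632) (a (l 15861072) (l 15866472)))))) (b (a (b (l 2) (l 16016944)) (l 2)) (a (b (c (l 16024488) (l 15895888)) (a (l 15891424) (l 15907552))) (b (l 16002864) (a (l 16011912) (l 15951328))))))))), by decide +kernel⟩

theorem s6_pm_012 : ∃ t, chk3 f_pm_012 t 5 1 1 = true := ex3_b k3_pm_012 k4_pm_012

theorem s7_pm_012 : ∃ t, chk3 f_pm_012 t 4 3 1 = true := ex3_a k1_pm_012 k2_pm_012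

theorem s8_pm_012 : ∃ t, chk3 f_pm_012 t 4 1 1 = true := ex3_b k0_pm_012 s7_pm_012

theorem s9_pm_012 : ∃ t, chk3 f_pm_012 t 2 1 1 = true := ex3_a s8_pm_012 s6_pm_012

theorem s10_pm_012 : ∃ t, chk3 f_pm_012 t 1 1 1 = true := ex3_a s9_pm_012 k5_pm_012

theorem c_pm_012 : CertB 0 536870912 536870912 536870912 649613803 48318383 3 eng mog cd0q0 cd6q1 pd2 true true false .pnp 0 1 2
    ndB0q0 ndB6q1 pcB2 cut_pm_012 Ext.none :=
  certB2 (fam := true) (s1 := true) (s2 := false) (a := 0) (b := 1) (c := 2) (cn := .pnp) (n1 := ndB0q0) (n2 := ndB6q1) (pc := pcB2) (cut := cut_pm_012) (xt := Ext.none) (P1 := 0) (W1 := 536870912) (P2 := 536870912) (W2 := 536870912) (P3 := 649613803) (W3 := 48318383) (N0 := 3) (En := eng) (mo := mog) (C1 := cd0q0) (C2 := cd6q1) (C3 := pd2)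
    rfl (fun _ => rfl) s10_pm_012

noncomputable def f_pm_022 : ℕ → ℕ → ℕ → ℕ → Bool := onCell 1073741824 536870912 1073741824 536870912 649613803 48318383
    (rowB 3 eng mog cd0q0 cd6q2 pd2 2 true true false .pp 0 2 2 (qsf 0 536870912 1073741824 536870912 2) ndB0q0 ndB6q2 pcB2 Cut.none Ext.none)

def k0_pm_022 : ∃ t, chk3 f_pm_022 t 4 1 1 = true :=
  ⟨(l 3), by decide +kernel⟩

def k1_pm_022 : ∃ t, chk3 f_pm_022 t 5 1 1 = true :=
  ⟨(b (a (a (a (l 3) (a (l 3) (b (a (l 3) (b (a (l 3) (a (a (a (l 3) (a (b (b (l 16509864) (l 3)) (l 16488944)) (b (b (a (a (l 16509792) (l 16509768)) (l 16509720)) (l 16500704)) (b (l 16492552) (l 16485288))))) (b (b (l 16509448) (l 16500376)) (l 16488424))) (b (b (l 16508720) (l 16499576)) (l 16487520)))) (a (b (l 3) (l 16576864)) (b (b (b (l 16500704) (l 16476816)) (l 16472928)) (c (l 16484768) (l 16466272)))))) (b (a (l 3) (a (b (a (l 3) (b (l 16453968) (a (l 219076245799) (l 219613116871)))) (l 1)) (a (b (c (a (a (l 260952145271)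 (b (l 16450896) (l 16442864))) (l 257730916167)) (b (l 16454656) (c (l 149819915383) (l 16447736)))) (l 1)) (b (b (l 16450224) (l 16441824)) (b (c (l 16433880) (l 16436472)) (l 1)))))) (l 1))))) (b (b (b (b (c (a (l 16506096) (l 16489632)) (l 16445856)) (a (l 16490432) (l 16472512))) (a (b (l 16481376) (l 16473272)) (l 16457184))) (b (l 16451312) (l 16455272))) (b (b (b (l 16419960) (c (l 16411056) (l 16413600))) (b (c (b (l 16405760) (l 16402712)) (l 16406040)) (b (c (l 16404152) (l 16406576)) (l 18823485335)))) (b (b (l 171294889111) (l 1)) (l 1))))) (b (b (a (b (c (l 16475704) (l 16446072)) (l 16425408)) (b (l 16401456) (l 16374248))) (b (l 16436688) (a (l 16377912) (l 16346728)))) (a (b (b (b (l 16363528) (l 16376080)) (b (c (l 16348336) (l 16348776)) (c (a (l 16363688) (l 16336512)) (l 16351808)))) (b (b (l 16353920) (l 352220114119)) (l 557841504055))) (b (b (b (l 16310808) (l 16301880)) (b (l 16315120) (l 16339136))) (b (l 16300192) (b (l 16286648) (l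 16273112))))))) (a (l 1) (b (b (b (a (l 1) (l 309270258983)) (l 1)) (l 1)) (l 1)))), by decide +kernel⟩

def k2_pm_022 : ∃ t, chk3 f_pm_022 t 3 1 1 = true :=
  ⟨(b (b (a (b (a (b (a (b (l 16365104) (l 16351056)) (l 16324624)) (a (l 16330016) (l 16294904))) (b (a (l 16301536) (l 16287584)) (a (l 16269416) (l 16253648)))) (a (b (a (l 16303184) (l 16265568)) (a (l 16278776) (l 16238560))) (b (a (l 16237712) (l 16219280)) (a (l 16206816) (l 16185456))))) (b (a (b (a (l 16281632) (l 16281240)) (a (l 16245688) (l 16244504))) (b (l 16381224) (l 16251568))) (a (b (a (l 16210008) (l 16207368)) (a (l 16173368) (l 16169944))) (b (a (l 16210400) (l 16216488)) (l 16237856))))) (a (b (a (b (a (l 16257664) (l 16214776)) (b (a (l 16244488) (l 16199616)) (a (l 16246472) (l 16201184)))) (b (a (l 16179224) (l 16152760)) (b (l 16165968) (l 16165984)))) (b (a (a (l 16250888) (l 16204984)) (l 16189400)) (a (a (l 16244600) (l 16208080)) (l 16151536)))) (b (a (b (a (l 16137304) (l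 16130992)) (a (l 16109632) (l 16100160))) (b (a (l 16132912) (l 16139416)) (a (l 16099720) (l 16107072)))) (a (b (l 16099944) (l 16078600)) (b (l 16286184) (l 16071952)))))) (a (b (b (a (b (a (l 16225160) (l 16201368)) (a (l 296385131943) (l 16183656))) (b (a (l 16177072) (l 16152576)) (l 16185232))) (a (b (a (l 1) (l 329671054407)) (l 1)) (b (a (l 249677474503) (l 16153464)) (a (l 366715107047) (l 266857356199))))) (a (l 1) (b (b (a (l 1) (l 397853610631)) (l 1)) (l 1)))) (b (b (a (b (l 16114808) (l 16138264)) (b (l 16054896) (l 16112248))) (a (b (l 16148480) (l 16195008)) (b (l 16143408) (l 16163608)))) (b (a (b (l 289406027287) (l 314638657511)) (b (l 16177120) (l 16186520))) (a (b (l 470868086023) (l 1)) (b (l 246456504807) (l 353293928439))))))), by decide +kernel⟩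

theorem s3_pm_022 : ∃ t, chk3 f_pm_022 t 2 1 1 = true := ex3_a k0_pm_022 k1_pm_022

theorem s4_pm_022 : ∃ t, chk3 f_pm_022 t 1 1 1 = true := ex3_a s3_pm_022 k2_pm_022

theorem c_pm_022 : CertB 0 536870912 1073741824 536870912 649613803 48318383 3 eng mog cd0q0 cd6q2 pd2 true true false .pp 0 2 2
    ndB0q0 ndB6q2 pcB2 Cut.none Ext.none :=
  certB2 (fam := true) (s1 := true) (s2 := false) (a := 0) (b := 2) (c := 2) (cn := .pp) (n1 := ndB0q0) (n2 := ndB6q2) (pc := pcB2) (cut := Cut.none) (xt := Ext.none) (P1 := 0) (W1 := 536870912) (P2 := 1073741824) (W2 := 536870912) (P3 := 649613803) (W3 := 48318383) (N0 := 3) (En := eng) (mo := mog) (C1 := cd0q0) (C2 := cd6q2) (C3 := pd2)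
    rfl (fun _ => rfl) s4_pm_022

noncomputable def f_pm_023 : ℕ → ℕ → ℕ → ℕ → Bool := onCell 0 536870912 1073741824 536870912 649613803 48318383
    (rowB 3 eng mog cd0q0 cd6q2 pd3 0 true true false .up 0 2 3 (qsf 0 536870912 1073741824 536870912 3) ndB0q0 ndB6q2 pcB3 Cut.none Ext.none)

def k0_pm_023 : ∃ t, chk3 f_pm_023 t 1 1 1 = true :=
  ⟨(a (b (a (l 1) (b (l 1) (b (l 1) (a (l 1) (l 433824027719))))) (a (b (a (l 1) (b (l 1) (l 291016492583))) (b (a (l 334503283607) (l 16177328)) (a (l 243772192359) (l 16242392)))) (b (b (a (l 16095432) (l 16028456)) (a (l 16133112) (l 16117496))) (b (a (l 16201816) (l 16225168)) (a (b (l 16265360) (l 16313224)) (a (l 16323640) (l 16360496))))))) (b (a (b (a (l 1) (b (l 1) (l 16270976))) (a (b (b (l 1) (l 16228432)) (l 16301880)) (b (l 194916902823) (l 16155072)))) (b (a (b (l 16254664) (l 16191312)) (b (l 16261960) (l 16207416))) (b (a (l 16335072) (l 16170616)) (a (l 16190288) (l 16226112))))) (b (a (a (b (l 16098424)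 (l 16069704)) (b (l 16185296) (l 16261376))) (a (b (l 16248088) (l 16403592)) (l 16433520))) (a (b (a (l 16286512) (l 16429432)) (a (b (l 16410224) (l 16466080)) (b (l 16517352) (l 16561472)))) (a (b (l 16527272) (l 16612712)) (b (l 16588936) (a (l 16647944) (b (l 16653536) (b (l 16677056) (a (l 16688160) (b (l 16698504) (a (l 16704616) (b (l 16708120) (l 16703576)))))))))))))), by decide +kernel⟩

theorem c_pm_023 : CertB 0 536870912 1073741824 536870912 649613803 48318383 3 eng mog cd0q0 cd6q2 pd3 true true false .up 0 2 3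
    ndB0q0 ndB6q2 pcB3 Cut.none Ext.none :=
  certB0 (fam := true) (s1 := true) (s2 := false) (a := 0) (b := 2) (c := 3) (cn := .up) (n1 := ndB0q0) (n2 := ndB6q2) (pc := pcB3) (cut := Cut.none) (xt := Ext.none) (P1 := 0) (W1 := 536870912) (P2 := 1073741824) (W2 := 536870912) (P3 := 649613803) (W3 := 48318383) (N0 := 3) (En := eng) (mo := mog) (C1 := cd0q0) (C2 := cd6q2) (C3 := pd3)
    rfl k0_pm_023

noncomputable def f_pm_033 : ℕ → ℕ → ℕ → ℕ → Bool := onCell 1610612736 536870912 0 1230186008 649613803 48318383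
    (rowB 3 eng mog cd0q0 cd6q3 pd3 2 true true false .pnn 0 3 3 (qsf 0 536870912 0 1230186008 3) ndB0q0 ndB6q3 pcB3 Cut.none Ext.none)

def k0_pm_033 : ∃ t, chk3 f_pm_033 t 1 1 1 = true :=
  ⟨(b (a (l 1) (a (l 1) (b (l 4) (l 4)))) (b (a (a (l 1) (a (l 1) (b (l 1) (b (l 1) (a (l 1) (l 16218496)))))) (a (b (a (l 1) (a (b (l 1) (l 16317968)) (l 16343824))) (a (a (b (l 16238136) (l 16255072)) (b (l 16283720) (l 16297336))) (a (b (l 16328720) (l 16341520)) (b (l 16373000) (l 16388136))))) (a (b (a (l 16376232) (l 4)) (a (b (l 16404680) (l 16433728)) (l 16576736))) (a (b (l 4) (l 16693200)) (l 4))))) (a (a (b (l 1) (a (b (l 1) (l 288869160903)) (b (a (l 304438362359) (l 16280072)) (b (l 16185824) (l 16214976))))) (a (b (a (b (l 1) (a (l 16145272) (l 220149242231))) (b (a (l 1) (l 314638845463)) (a (l 233571552887) (l 16207880)))) (b (a (b (l 16183928) (l 16206536)) (l 16225624)) (a (l 16240576) (l 16260688)))) (b (b (a (l 191158786023) (l 16342624)) (a (l 16226200)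 (l 16257008))) (b (b (l 16238424) (l 16276944)) (b (l 16299936) (l 16331416)))))) (a (b (a (b (a (l 16270928) (l 16311040)) (a (l 16294592) (l 16337848))) (b (a (l 16357784) (l 16408592)) (a (l 16383328) (l 16439136)))) (a (b (a (l 16328808) (l 16378688)) (a (l 16386016) (l 16442416))) (b (a (l 16431128) (l 16486704)) (a (l 16495952) (l 16545984))))) (a (b (a (b (l 16455816) (l 16496112)) (b (l 16507680) (l 16546848))) (b (a (l 16540016) (l 16590824)) (l 16603544))) (a (b (b (l 16548056) (l 16592560)) (a (l 16710760) (l 16648552))) (a (b (b (l 4) (l 16616080)) (l 16659192)) (b (l 4) (a (l 16665328) (b (l 4) (l 16669568))))))))))), by decide +kernel⟩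

theorem c_pm_033 : CertB 0 536870912 0 1230186008 649613803 48318383 3 eng mog cd0q0 cd6q3 pd3 true true false .pnn 0 3 3
    ndB0q0 ndB6q3 pcB3 Cut.none Ext.none :=
  certB2 (fam := true) (s1 := true) (s2 := false) (a := 0) (b := 3) (c := 3) (cn := .pnn) (n1 := ndB0q0) (n2 := ndB6q3) (pc := pcB3) (cut := Cut.none) (xt := Ext.none) (P1 := 0) (W1 := 536870912) (P2 := 0) (W2 := 1230186008) (P3 := 649613803) (W3 := 48318383) (N0 := 3) (En := eng) (mo := mog) (C1 := cd0q0) (C2 := cd6q3) (C3 := pd3)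
    rfl (fun _ => rfl) k0_pm_033

noncomputable def xt_pm_101 : Ext := extD2 3 ⟨7, 3, 3, 10, 377, 200, 77, 100, 17, 50, 3, 16⟩ eng cd0q1 cd6q0 pd1 true true false .npn 1 0 1 rfl ndB0q1 ndB6q0 pcB1

noncomputable def f_pm_101 : ℕ → ℕ → ℕ → ℕ → Bool := onCell 536870912 536870912 536870912 536870912 649613803 48318383
    (rowB 3 eng mog cd0q1 cd6q0 pd1 1 true true false .npn 1 0 1 (qsf 536870912 536870912 0 536870912 1) ndB0q1 ndB6q0 pcB1 Cut.none xt_pm_101)

def k0_pm_101 : ∃ t, chk3 f_pm_101 t 2 2 1 = true :=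
  ⟨(a (l 3) (b (a (b (l 1) (l 3)) (l 1)) (l 3))), by decide +kernel⟩

def k1_pm_101 : ∃ t, chk3 f_pm_101 t 2 6 1 = true :=
  ⟨(a (l 3) (b (l 3) (b (l 3) (b (a (l 3) (a (l 3) (b (l 3) (c (l 16900000) (a (l 164450414935) (l 140828121879)))))) (a (a (a (l 3) (l 71034807031)) (a (l 64055522775) (l 56002504071))) (a (a (l 16879712) (l 16910376)) (a (l 16948664) (l 17015608)))))))), by decide +kernel⟩

def k2_pm_101 : ∃ t, chk3 f_pm_101 t 4 7 1 = true :=
  ⟨(b (a (b (a (b (l 3) (a (b (l 3) (a (l 598365107969482889777711) (l 598895451861602050200111))) (b (l 115057750039) (l 16566856)))) (b (a (l 3) (b (l 3) (l 118815911031))) (a (b (l 601399020908855877718575) (l 16569984)) (a (l 389875691927883040321999407) (l 322176405484623917008802351))))) (a (b (a (b (l 597192298568921519559215) (l 16501688)) (a (l 597405589047273863893551) (l 597899904142373971038767))) (a (l 593224807441193044251183) (c (l 595152780427271909315119) (l 16456312)))) (a (b (l 16534032) (c (l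 596467687403276049044015) (l 16488240))) (b (l 599386884652940661232175) (l 16487344))))) (b (b (a (b (l 3) (a (l 58149507287) (l 16656896))) (a (b (l 16697256) (l 16668352)) (l 49559756103))) (a (a (b (l 16617776) (l 16589224)) (a (l 16611488) (l 16617184))) (a (l 16626192) (l 16617952)))) (a (a (b (l 16545960) (l 16490320)) (b (l 16557504) (l 16498936))) (b (b (l 16569680) (l 16541560)) (b (l 16512952) (l 16483600)))))) (a (b (a (a (b (l 16393848) (l 16338496)) (b (l 16404824) (l 16342592))) (b (a (b (l 16439984) (l 16404632)) (b (l 16450760) (l 16422064))) (l 16381408))) (a (b (l 16287576) (l 16241952)) (l 16347680))) (b (a (b (a (l 16437320) (l 16438928)) (l 16382344)) (a (l 16419632) (l 16435312))) (a (a (l 16280696) (l 16293216)) (b (l 16327344) (l 16271400)))))), by decide +kernel⟩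

def k3_pm_101 : ∃ t, chk3 f_pm_101 t 5 7 1 = true :=
  ⟨(b (a (a (a (b (b (l 16707896) (l 16652368)) (b (l 16597632) (l 16541504))) (b (b (l 16701096) (l 16666928)) (b (l 16612880) (l 16557424)))) (b (b (a (l 16737480) (l 16753736)) (a (l 16682616) (l 16699104))) (a (b (l 16629320) (l 16574544)) (b (l 16646328) (l 16592288))))) (b (a (b (a (l 16770632) (l 16787896)) (c (l 16723760) (l 16727256))) (b (a (l 16804848) (l 16819184)) (l 16736680))) (a (b (b (l 16685664) (l 16659264)) (l 16619608)) (a (l 16672656) (l 16687656))))) (a (a (b (l 16454912) (l 16331080)) (b (b (l 16527200) (l 16468904)) (l 16375352))) (a (b (l 16538792) (l 16422816)) (b (l 16577072) (l 16468024))))), by decide +kernel⟩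

def k4_pm_101 : ∃ t, chk3 f_pm_101 t 3 1 1 = true :=
  ⟨(b (a (b (l 1) (a (b (l 1) (l 3)) (l 1))) (l 1)) (a (b (b (l 3) (b (b (l 3) (b (l 3) (a (l 3) (a (a (l 3) (c (l 17002432) (c (l 204715967751) (l 352892414663)))) (a (a (c (l 16999816) (l 774201791207)) (l 1)) (l 1)))))) (a (a (b (c (l 16939672) (b (c (l 16994344) (l 96268074455)) (l 16968288))) (a (c (l 16870408) (l 16974520)) (l 16980024))) (b (c (l 16949200) (b (a (l 16990184) (l 75330115735)) (l 16970360))) (c (l 16883984) (l 17000896)))) (b (a (c (l 16947960) (b (a (l 70498280007) (l 16991456)) (l 16961080))) (a (b (l 24730049207) (l 16979864)) (b (l 1) (l 16954520)))) (a (c (l 16883392) (l 16992632)) (c (l 16878464) (l 16959240))))))) (b (a (b (a (b (c (l 16819304) (l 16850648)) (b (l 16793192) (l 16766728))) (b (l 16903592) (c (l 16777600) (l 16798672)))) (a (l 16702816) (l 16837672))) (b (a (b (l 16899792) (l 16783488)) (b (l 16849600) (l 16775208))) (a (b (l 16733576) (l 16686888)) (l 16703272))))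 (a (a (b (l 16604056) (l 16500752)) (b (l 16616656) (l 16518264))) (b (a (l 16660560) (l 16699264)) (a (l 16524112) (l 16524928)))))) (b (a (b (l 1) (b (l 1) (b (l 1) (a (l 203508067111) (l 1))))) (l 1)) (b (a (b (a (b (l 16823416) (l 16769912)) (b (l 1) (l 16769872))) (a (l 16698960) (l 16724464))) (b (l 1) (a (l 16747944) (l 1)))) (a (b (a (l 16614592) (l 16616992)) (a (l 16528416) (l 16536384))) (b (a (l 16623392) (l 16626568)) (a (l 16543984) (l 16551752)))))))), by decide +kernel⟩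

theorem s5_pm_101 : ∃ t, chk3 f_pm_101 t 2 7 1 = true := ex3_a k2_pm_101 k3_pm_101

theorem s6_pm_101 : ∃ t, chk3 f_pm_101 t 2 3 1 = true := ex3_b k1_pm_101 s5_pm_101

theorem s7_pm_101 : ∃ t, chk3 f_pm_101 t 2 1 1 = true := ex3_b k0_pm_101 s6_pm_101

theorem s8_pm_101 : ∃ t, chk3 f_pm_101 t 1 1 1 = true := ex3_a s7_pm_101 k4_pm_101

theorem c_pm_101 : CertB 536870912 536870912 0 536870912 649613803 48318383 3 eng mog cd0q1 cd6q0 pd1 true true false .npn 1 0 1
    ndB0q1 ndB6q0 pcB1 Cut.none xt_pm_101 :=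
  certB1 (fam := true) (s1 := true) (s2 := false) (a := 1) (b := 0) (c := 1) (cn := .npn) (n1 := ndB0q1) (n2 := ndB6q0) (pc := pcB1) (cut := Cut.none) (xt := xt_pm_101) (P1 := 536870912) (W1 := 536870912) (P2 := 0) (W2 := 536870912) (P3 := 649613803) (W3 := 48318383) (N0 := 3) (En := eng) (mo := mog) (C1 := cd0q1) (C2 := cd6q0) (C3 := pd1)
    rfl (fun _ => rfl) s8_pm_101

noncomputable def f_pm_102 : ℕ → ℕ → ℕ → ℕ → Bool := onCell 536870912 536870912 1073741824 536870912 649613803 48318383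
    (rowB 3 eng mog cd0q1 cd6q0 pd2 1 true true false .npp 1 0 2 (qsf 536870912 536870912 0 536870912 2) ndB0q1 ndB6q0 pcB2 Cut.none Ext.none)

def k0_pm_102 : ∃ t, chk3 f_pm_102 t 2 1 1 = true :=
  ⟨(b (b (a (a (b (b (a (l 16267168) (l 16201720)) (a (l 16119816) (l 16099544))) (a (l 2) (l 16115440))) (b (b (a (l 16176528) (b (l 16200408) (l 16147792))) (a (l 16071888) (l 16064352))) (b (l 16066552) (l 16015216)))) (a (b (a (b (l 16214752) (l 16099704)) (b (l 16247272) (l 16214000))) (a (l 16011848) (b (l 16095944) (l 16010256)))) (b (a (b (l 16296288) (l 16225288)) (b (l 16343072) (l 16270096))) (b (a (l 16164336) (l 16213648)) (a (l 16103632) (l 16166744)))))) (a (b (a (l 2) (b (b (l 15943952) (l 2)) (l 2))) (l 2)) (b (a (b (b (l 15889928) (b (l 15890584) (a (l 15863016) (l 15965912)))) (b (a (l 15874560) (l 15906448)) (l 15915736))) (b (b (l 16219872) (l 16064416)) (b (l 16036176) (l 16028728)))) (a (b (l 16040664) (l 2)) (l 16246280))))) (a (l 2) (b (b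 (a (l 2) (l 16179096)) (l 2)) (l 2)))), by decide +kernel⟩

def k1_pm_102 : ∃ t, chk3 f_pm_102 t 3 1 1 = true :=
  ⟨(b (a (b (b (a (b (a (l 16419216) (a (l 16392752) (l 16399656))) (a (l 16304224) (l 16325584))) (b (a (l 16511808) (b (l 16433640) (l 16394488))) (a (l 16337256) (l 16346104)))) (a (a (b (l 16248616) (l 16205848)) (l 16374600)) (b (a (l 16285072) (l 16298104)) (l 16379736)))) (b (a (b (l 16182872) (b (l 16177392) (l 16159248))) (b (l 16226416) (b (l 16209856) (l 16219136)))) (a (l 16225264) (b (l 16252744) (l 16295568))))) (b (a (b (b (a (b (l 16443504) (l 16405504)) (b (l 16458224) (l 16422064))) (a (l 16360128) (l 16381872))) (b (a (l 16317720) (l 16347472)) (a (l 16288720) (l 16324592)))) (b (b (a (b (l 16474968) (l 16442128)) (a (b (l 16492032) (l 16463416)) (a (l 16482544) (l 16485384)))) (a (b (l 16420112) (l 16405792)) (a (l 16447224) (l 16451328)))) (a (b (l 16391776) (l 16374016)) (b (a (l 16418696) (l 16417344)) (a (l 16395600) (l 16394512))))))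 (b (a (b (a (l 16266808) (l 16305792)) (b (l 16271240) (l 16284200))) (b (a (l 16359096) (a (l 16382672) (l 16384648))) (a (b (l 16344256) (l 16358096)) (b (a (l 16381392) (l 16388304)) (l 16401912))))) (a (a (l 16334928) (l 16379744)) (a (l 16431904) (b (l 16435544) (l 16479152))))))) (a (b (b (a (l 16253320) (l 16363552)) (a (l 16357288) (l 16457952))) (a (l 2) (b (l 16571464) (l 2)))) (b (b (a (l 16472512) (l 16535984)) (a (l 16563608) (b (l 16603304) (l 16651440)))) (b (a (l 16664376) (l 16736696)) (a (l 16743640) (l 16800400)))))), by decide +kernel⟩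

theorem s2_pm_102 : ∃ t, chk3 f_pm_102 t 1 1 1 = true := ex3_a k0_pm_102 k1_pm_102

theorem c_pm_102 : CertB 536870912 536870912 0 536870912 649613803 48318383 3 eng mog cd0q1 cd6q0 pd2 true true false .npp 1 0 2
    ndB0q1 ndB6q0 pcB2 Cut.none Ext.none :=
  certB1 (fam := true) (s1 := true) (s2 := false) (a := 1) (b := 0) (c := 2) (cn := .npp) (n1 := ndB0q1) (n2 := ndB6q0) (pc := pcB2) (cut := Cut.none) (xt := Ext.none) (P1 := 536870912) (W1 := 536870912) (P2 := 0) (W2 := 536870912) (P3 := 649613803) (W3 := 48318383) (N0 := 3) (En := eng) (mo := mog) (C1 := cd0q1) (C2 := cd6q0) (C3 := pd2)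
    rfl (fun _ => rfl) s2_pm_102

noncomputable def f_pm_112 : ℕ → ℕ → ℕ → ℕ → Bool := onCell 536870912 536870912 1073741824 536870912 649613803 48318383
    (rowB 3 eng mog cd0q1 cd6q1 pd2 1 true true false .dn 1 1 2 (qsf 536870912 536870912 536870912 536870912 2) ndB0q1 ndB6q1 pcB2 Cut.none Ext.none)

def k0_pm_112 : ∃ t, chk3 f_pm_112 t 1 1 1 = true :=
  ⟨(a (b (b (a (b (a (b (a (l 16218968) (l 16180200)) (a (l 16105496) (l 16066240))) (b (l 1) (l 152503606775))) (a (b (l 16106080) (l 16034784)) (b (l 16015000) (l 15970736)))) (a (b (l 1) (b (l 1) (l 126733372199))) (l 1))) (a (b (b (b (a (l 16084864) (l 15982776)) (a (b (l 16035360) (b (l 16031824) (l 16094832))) (b (l 15955768) (l 16100824)))) (a (l 16279864) (l 16060696))) (a (a (l 16075872) (l 16063680)) (b (l 16015792) (l 16062120)))) (b (b (a (b (a (l 15905976) (l 1)) (b (l 15924496) (a (l 15917952) (l 108479961591)))) (l 1)) (a (b (a (l 15886872) (l 15879160)) (l 15924408)) (b (l 1) (l 15996064))))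 (a (a (l 16024680) (l 16018096)) (l 16059560))))) (a (b (b (a (l 16080104) (l 16103000)) (a (a (l 16042224) (l 16072616)) (l 16121544))) (a (a (b (l 16012720) (b (l 15989904) (l 15971912))) (b (l 16057840) (l 16039176))) (b (l 16124632) (l 16123304)))) (b (b (a (l 16129160) (l 16160504)) (a (l 16182312) (l 16244728))) (a (b (l 16216144) (l 16236896)) (b (l 16305552) (l 16350160)))))) (b (b (l 1) (a (b (l 1) (a (l 16149856) (l 1))) (l 1))) (a (b (b (a (l 16239640) (l 16336880)) (a (l 16331464) (l 16444720))) (a (b (l 16413560) (l 16472104)) (l 16572776))) (b (b (l 1) (a (l 16547888) (l 1))) (b (a (l 16649504) (l 16716608)) (a (l 16704328) (l 16775560))))))), by decide +kernel⟩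

theorem c_pm_112 : CertB 536870912 536870912 536870912 536870912 649613803 48318383 3 eng mog cd0q1 cd6q1 pd2 true true false .dn 1 1 2
    ndB0q1 ndB6q1 pcB2 Cut.none Ext.none :=
  certB1 (fam := true) (s1 := true) (s2 := false) (a := 1) (b := 1) (c := 2) (cn := .dn) (n1 := ndB0q1) (n2 := ndB6q1) (pc := pcB2) (cut := Cut.none) (xt := Ext.none) (P1 := 536870912) (W1 := 536870912) (P2 := 536870912) (W2 := 536870912) (P3 := 649613803) (W3 := 48318383) (N0 := 3) (En := eng) (mo := mog) (C1 := cd0q1) (C2 := cd6q1) (C3 := pd2)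
    rfl (fun _ => rfl) k0_pm_112

noncomputable def f_pm_113 : ℕ → ℕ → ℕ → ℕ → Bool := onCell 536870912 536870912 1610612736 536870912 649613803 48318383
    (rowB 3 eng mog cd0q1 cd6q1 pd3 1 true true false .nn 1 1 3 (qsf 536870912 536870912 536870912 536870912 3) ndB0q1 ndB6q1 pcB3 Cut.none Ext.none)

def k0_pm_113 : ∃ t, chk3 f_pm_113 t 1 1 1 = true :=
  ⟨(a (b (b (a (b (a (b (l 226658661271) (l 222363546407)) (l 16004112)) (a (b (l 283566764055) (l 2)) (b (l 15933424) (l 237932846327)))) (b (a (l 16149080) (l 16284880)) (a (b (l 16106848) (l 16084608)) (l 16229616)))) (b (a (b (a (l 2) (b (l 301820456455) (l 2))) (l 2)) (a (b (l 278198336743) (l 308262982039)) (l 16191584))) (a (l 2) (a (l 354434110199) (b (l 16170056) (l 16164504)))))) (b (b (a (l 2) (a (l 2) (b (l 417248291511) (l 2)))) (l 2)) (l 2))) (b (b (a (a (l 16380224) (a (l 16486520) (l 16554264))) (b (a (l 16666056) (l 16744200)) (a (l 16615888) (l 16693040)))) (a (b (a (l 16313488) (l 16452880))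 (a (l 16292216) (l 16423952))) (b (a (l 16569720) (l 16651592)) (a (l 16529224) (l 4))))) (b (a (b (a (a (l 429596847975) (l 16307912)) (l 16398616)) (a (b (l 16261560) (l 2)) (l 4))) (l 4)) (l 4)))), by decide +kernel⟩

theorem c_pm_113 : CertB 536870912 536870912 536870912 536870912 649613803 48318383 3 eng mog cd0q1 cd6q1 pd3 true true false .nn 1 1 3
    ndB0q1 ndB6q1 pcB3 Cut.none Ext.none :=
  certB1 (fam := true) (s1 := true) (s2 := false) (a := 1) (b := 1) (c := 3) (cn := .nn) (n1 := ndB0q1) (n2 := ndB6q1) (pc := pcB3) (cut := Cut.none) (xt := Ext.none) (P1 := 536870912) (W1 := 536870912) (P2 := 536870912) (W2 := 536870912) (P3 := 649613803) (W3 := 48318383) (N0 := 3) (En := eng) (mo := mog) (C1 := cd0q1) (C2 := cd6q1) (C3 := pd3)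
    rfl (fun _ => rfl) k0_pm_113

noncomputable def f_pm_123 : ℕ → ℕ → ℕ → ℕ → Bool := onCell 1610612736 536870912 1073741824 536870912 649613803 48318383
    (rowB 3 eng mog cd0q1 cd6q2 pd3 2 true true false .npn 1 2 3 (qsf 536870912 536870912 1073741824 536870912 3) ndB0q1 ndB6q2 pcB3 Cut.none Ext.none)

def k0_pm_123 : ∃ t, chk3 f_pm_123 t 2 1 1 = true :=
  ⟨(b (a (b (b (a (b (l 16306088) (l 16255088)) (a (l 16327632) (l 16377344))) (a (b (l 16216024) (l 1)) (b (l 16254944) (l 16205800)))) (b (a (l 1) (b (l 16169456) (l 1))) (l 1))) (b (a (b (a (b (l 16484832) (l 16395072)) (b (l 16524696) (l 16445976))) (a (l 16283040) (l 16335072))) (b (a (a (l 16507864) (l 16517880)) (b (l 16550800) (l 16494208))) (a (l 16381464) (c (l 16457144) (l 16366304))))) (b (a (b (l 16215720) (l 16179056)) (b (l 16313320) (l 16271072))) (a (b (l 16198000) (l 1)) (l 16285744))))) (a (l 1) (b (b (a (l 1) (l 16314832)) (l 1)) (l 1)))), by decide +kernel⟩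

def k1_pm_123 : ∃ t, chk3 f_pm_123 t 3 2 1 = true :=
  ⟨(a (b (a (b (a (b (a (c (l 16611128) (l 16494792)) (l 16563768)) (a (l 16493280) (l 16495496))) (b (c (l 16642440) (l 16539104)) (c (l 16570136) (l 16463384)))) (a (b (l 16448312) (l 16405304)) (b (l 16605512) (l 16417464)))) (b (a (b (c (l 16674440) (l 16582368)) (l 16734136)) (b (l 16445832) (l 16607784))) (a (b (l 16543720) (l 16430240)) (b (l 16512928) (l 16455176))))) (b (a (b (a (l 16363096) (l 16382264)) (a (l 16331480) (l 16357824))) (a (b (l 16395112) (l 16375624)) (b (l 16411544) (l 16389880)))) (a (l 16375416) (b (l 16601288) (l 16443624))))) (a (b (b (a (b (a (l 16713520) (l 16730808)) (a (l 16624816) (l 16648384))) (a (b (l 16749152) (l 16666136)) (b (l 16748560) (l 16686872)))) (a (b (l 16784448) (l 16638928)) (b (l 16598264) (l 16532440)))) (a (b (b (l 16485416) (l 16410664)) (l 16558992)) (b (b (l 16718696) (a (l 16432568) (l 16446224))) (b (l 16465808) (l 16490112))))) (a (b (b (a (l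 16713680) (l 16708888)) (a (b (l 16627224) (l 16558184)) (b (l 16633632) (l 16573280)))) (b (a (l 16628304) (b (l 16520832) (l 16479880))) (b (l 16485648) (l 16515104)))) (b (a (b (l 4) (l 16724472)) (l 4)) (a (b (b (l 16522888) (l 16491440)) (l 16607376)) (a (b (l 16508568) (l 16526480)) (a (b (l 4) (l 16524712)) (l 4)))))))), by decide +kernel⟩

def k2_pm_123 : ∃ t, chk3 f_pm_123 t 3 3 1 = true :=
  ⟨(a (b (a (b (l 16414560) (l 16451360)) (b (l 16481816) (l 16524400))) (a (l 1) (b (l 16561272) (l 1)))) (a (b (b (a (l 16515424) (l 16638512)) (l 16575704)) (b (l 16614632) (l 16637136))) (a (b (b (l 16660056) (l 16625032)) (l 16889096)) (b (a (b (l 16572248) (l 16616832)) (a (b (l 16579888) (l 16625088)) (a (b (l 16582288) (l 16630248)) (b (a (l 16581400) (l 16576440)) (l 16631944))))) (a (l 16672168) (a (l 16679424) (a (l 16682968) (b (l 16671392) (l 16697024))))))))), by decide +kernel⟩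

theorem s3_pm_123 : ∃ t, chk3 f_pm_123 t 3 1 1 = true := ex3_b k1_pm_123 k2_pm_123

theorem s4_pm_123 : ∃ t, chk3 f_pm_123 t 1 1 1 = true := ex3_a k0_pm_123 s3_pm_123

theorem c_pm_123 : CertB 536870912 536870912 1073741824 536870912 649613803 48318383 3 eng mog cd0q1 cd6q2 pd3 true true false .npn 1 2 3
    ndB0q1 ndB6q2 pcB3 Cut.none Ext.none :=
  certB2 (fam := true) (s1 := true) (s2 := false) (a := 1) (b := 2) (c := 3) (cn := .npn) (n1 := ndB0q1) (n2 := ndB6q2) (pc := pcB3) (cut := Cut.none) (xt := Ext.none) (P1 := 536870912) (W1 := 536870912) (P2 := 1073741824) (W2 := 536870912) (P3 := 649613803) (W3 := 48318383) (N0 := 3) (En := eng) (mo := mog) (C1 := cd0q1) (C2 := cd6q2) (C3 := pd3)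
    rfl (fun _ => rfl) s4_pm_123

noncomputable def f_pm_133 : ℕ → ℕ → ℕ → ℕ → Bool := onCell 536870912 536870912 0 1230186008 649613803 48318383
    (rowB 3 eng mog cd0q1 cd6q3 pd3 0 true true false .dn 1 3 3 (qsf 536870912 536870912 0 1230186008 3) ndB0q1 ndB6q3 pcB3 Cut.none Ext.none)

def k0_pm_133 : ∃ t, chk3 f_pm_133 t 1 1 1 = true :=
  ⟨(b (l 2) (b (l 2) (a (b (l 2) (a (b (l 2) (l 4)) (l 2))) (l 2)))), by decide +kernel⟩

theorem c_pm_133 : CertB 536870912 536870912 0 1230186008 649613803 48318383 3 eng mog cd0q1 cd6q3 pd3 true true false .dn 1 3 3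
    ndB0q1 ndB6q3 pcB3 Cut.none Ext.none :=
  certB0 (fam := true) (s1 := true) (s2 := false) (a := 1) (b := 3) (c := 3) (cn := .dn) (n1 := ndB0q1) (n2 := ndB6q3) (pc := pcB3) (cut := Cut.none) (xt := Ext.none) (P1 := 536870912) (W1 := 536870912) (P2 := 0) (W2 := 1230186008) (P3 := 649613803) (W3 := 48318383) (N0 := 3) (En := eng) (mo := mog) (C1 := cd0q1) (C2 := cd6q3) (C3 := pd3)
    rfl k0_pm_133

noncomputable def f_pm_202 : ℕ → ℕ → ℕ → ℕ → Bool := onCell 0 536870912 1073741824 536870912 649613803 48318383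
    (rowB 3 eng mog cd0q2 cd6q0 pd2 1 true true false .pp 2 0 2 (qsf 0 536870912 0 536870912 2) ndB0q2 ndB6q0 pcB2 Cut.none Ext.none)

def k0_pm_202 : ∃ t, chk3 f_pm_202 t 2 1 1 = true :=
  ⟨(b (a (b (l 1) (b (b (a (l 16355048) (b (l 1) (l 16367104))) (a (l 16380368) (l 16381048))) (b (a (l 16410744) (l 16409296)) (l 16567696)))) (b (b (l 1) (a (l 1) (b (l 1) (b (l 1) (a (l 1) (l 16392032)))))) (b (b (a (b (a (l 16370656) (l 16378616)) (l 16419744)) (a (b (l 16384544) (l 16382904)) (l 16384456))) (a (b (l 16380976) (l 16392072)) (a (b (l 16383520) (l 16393456)) (b (l 16381248) (l 16390496))))) (a (b (l 16413792) (l 16441112)) (b (a (l 16414864) (l 16411368)) (l 16440104)))))) (b (b (b (a (l 16475128) (a (l 16467728) (l 16465592))) (a (l 16510056) (a (l 16495344) (l 16491264)))) (a (l 4) (b (a (l 16526304) (l 16518232)) (l 16764096)))) (a (l 4) (b (b (l 16585592) (l 4)) (l 4))))), by decide +kernel⟩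

def k1_pm_202 : ∃ t, chk3 f_pm_202 t 3 1 1 = true :=
  ⟨(b (b (a (b (l 1) (a (b (l 1) (b (a (l 16403416) (l 16403992)) (a (l 16393528) (l 16390696)))) (b (b (a (l 1) (l 16442736)) (a (l 16419952) (l 16418344))) (a (b (l 16401424) (l 16385104)) (l 16387312))))) (b (a (b (l 1) (a (b (l 1) (l 16466408)) (a (l 16466624) (l 16463216)))) (b (b (a (l 1) (a (c (l 16532848) (l 16495144)) (l 16506776))) (a (a (b (l 1) (l 16495744)) (b (b (l 1) (l 16499408)) (l 16489264))) (a (b (l 16493952) (l 16481640)) (l 16480824)))) (a (b (a (l 16475784) (l 16469112)) (l 16446648)) (b (l 16459328) (l 16436600))))) (a (b (a (b (l 16440528) (l 16414456)) (l 16420064)) (a (l 16381584) (l 16376968))) (b (a (l 16411720) (l 16407560)) (a (l 16373536) (l 16379032)))))) (a (b (a (b (a (l 16381552) (l 16375240)) (b (l 16434208) (l 16379464))) (b (a (l 16367120) (l 16359024)) (b (l 16351736) (l 16359472)))) (a (b (a (l 16405000) (l 16395472)) (l 16511232)) (b (l 16381928) (l 16410144))))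 (b (a (b (a (l 16352176) (l 16347968)) (b (a (l 16340392) (l 16337792)) (l 16347840))) (b (a (b (l 16353600) (l 16346080)) (b (l 16366416) (l 16363144))) (b (a (l 16343040) (l 16365232)) (l 16366016)))) (a (b (l 16373816) (l 16407680)) (b (l 16397952) (l 16439464)))))) (b (a (b (a (l 16486408) (b (l 16438336) (l 16467992))) (a (l 16523232) (l 16518504))) (b (a (l 16457976) (l 16502304)) (a (l 16536312) (l 16593208)))) (a (b (a (l 16589288) (l 16594952)) (b (l 16647064) (l 16683368))) (b (a (l 16624344) (l 16695200)) (l 16673280))))), by decide +kernel⟩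

theorem s2_pm_202 : ∃ t, chk3 f_pm_202 t 1 1 1 = true := ex3_a k0_pm_202 k1_pm_202

theorem c_pm_202 : CertB 0 536870912 0 536870912 649613803 48318383 3 eng mog cd0q2 cd6q0 pd2 true true false .pp 2 0 2
    ndB0q2 ndB6q0 pcB2 Cut.none Ext.none :=
  certB1 (fam := true) (s1 := true) (s2 := false) (a := 2) (b := 0) (c := 2) (cn := .pp) (n1 := ndB0q2) (n2 := ndB6q0) (pc := pcB2) (cut := Cut.none) (xt := Ext.none) (P1 := 0) (W1 := 536870912) (P2 := 0) (W2 := 536870912) (P3 := 649613803) (W3 := 48318383) (N0 := 3) (En := eng) (mo := mog) (C1 := cd0q2) (C2 := cd6q0) (C3 := pd2)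
    rfl (fun _ => rfl) s2_pm_202

noncomputable def f_pm_203 : ℕ → ℕ → ℕ → ℕ → Bool := onCell 0 536870912 1610612736 536870912 649613803 48318383
    (rowB 3 eng mog cd0q2 cd6q0 pd3 1 true true false .up 2 0 3 (qsf 0 536870912 0 536870912 3) ndB0q2 ndB6q0 pcB3 Cut.none Ext.none)

def k0_pm_203 : ∃ t, chk3 f_pm_203 t 1 1 1 = true :=
  ⟨(b (a (l 4) (b (a (l 4) (b (b (l 16761168) (l 16741424)) (l 16747152))) (l 4))) (l 2)), by decide +kernel⟩

theorem c_pm_203 : CertB 0 536870912 0 536870912 649613803 48318383 3 eng mog cd0q2 cd6q0 pd3 true true false .up 2 0 3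
    ndB0q2 ndB6q0 pcB3 Cut.none Ext.none :=
  certB1 (fam := true) (s1 := true) (s2 := false) (a := 2) (b := 0) (c := 3) (cn := .up) (n1 := ndB0q2) (n2 := ndB6q0) (pc := pcB3) (cut := Cut.none) (xt := Ext.none) (P1 := 0) (W1 := 536870912) (P2 := 0) (W2 := 536870912) (P3 := 649613803) (W3 := 48318383) (N0 := 3) (En := eng) (mo := mog) (C1 := cd0q2) (C2 := cd6q0) (C3 := pd3)
    rfl (fun _ => rfl) k0_pm_203

noncomputable def f_pm_213 : ℕ → ℕ → ℕ → ℕ → Bool := onCell 0 536870912 1610612736 536870912 649613803 48318383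
    (rowB 3 eng mog cd0q2 cd6q1 pd3 1 true true false .pnn 2 1 3 (qsf 0 536870912 536870912 536870912 3) ndB0q2 ndB6q1 pcB3 Cut.none Ext.none)

def k0_pm_213 : ∃ t, chk3 f_pm_213 t 1 1 1 = true :=
  ⟨(b (a (l 4) (b (a (l 4) (b (l 16702528) (l 16703552))) (l 4))) (l 4)), by decide +kernel⟩

theorem c_pm_213 : CertB 0 536870912 536870912 536870912 649613803 48318383 3 eng mog cd0q2 cd6q1 pd3 true true false .pnn 2 1 3
    ndB0q2 ndB6q1 pcB3 Cut.none Ext.none :=
  certB1 (fam := true) (s1 := true) (s2 := false) (a := 2) (b := 1) (c := 3) (cn := .pnn) (n1 := ndB0q2) (n2 := ndB6q1) (pc := pcB3) (cut := Cut.none) (xt := Ext.none) (P1 := 0) (W1 := 536870912) (P2 := 536870912) (W2 := 536870912) (P3 := 649613803) (W3 := 48318383) (N0 := 3) (En := eng) (mo := mog) (C1 := cd0q2) (C2 := cd6q1) (C3 := pd3)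
    rfl (fun _ => rfl) k0_pm_213

noncomputable def f_mm_001 : ℕ → ℕ → ℕ → ℕ → Bool := onCell 0 536870912 0 536870912 649613803 48318383
    (rowB 3 eng mog cd0q0 cd6q0 pd1 0 true false false .up 0 0 1 (qsf 0 536870912 0 536870912 1) ndB0q0 ndB6q0 pcB1 Cut.none Ext.none)

def k0_mm_001 : ∃ t, chk3 f_mm_001 t 1 1 1 = true :=
  ⟨(l 4), by decide +kernel⟩

theorem c_mm_001 : CertB 0 536870912 0 536870912 649613803 48318383 3 eng mog cd0q0 cd6q0 pd1 true false false .up 0 0 1
    ndB0q0 ndB6q0 pcB1 Cut.none Ext.none :=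
  certB0 (fam := true) (s1 := false) (s2 := false) (a := 0) (b := 0) (c := 1) (cn := .up) (n1 := ndB0q0) (n2 := ndB6q0) (pc := pcB1) (cut := Cut.none) (xt := Ext.none) (P1 := 0) (W1 := 536870912) (P2 := 0) (W2 := 536870912) (P3 := 649613803) (W3 := 48318383) (N0 := 3) (En := eng) (mo := mog) (C1 := cd0q0) (C2 := cd6q0) (C3 := pd1)
    rfl k0_mm_001

noncomputable def f_mm_011 : ℕ → ℕ → ℕ → ℕ → Bool := onCell 0 536870912 536870912 536870912 649613803 48318383
    (rowB 3 eng mog cd0q0 cd6q1 pd1 0 true false false .pnn 0 1 1 (qsf 0 536870912 536870912 536870912 1) ndB0q0 ndB6q1 pcB1 Cut.none Ext.none)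

def k0_mm_011 : ∃ t, chk3 f_mm_011 t 1 1 1 = true :=
  ⟨(l 4), by decide +kernel⟩

theorem c_mm_011 : CertB 0 536870912 536870912 536870912 649613803 48318383 3 eng mog cd0q0 cd6q1 pd1 true false false .pnn 0 1 1
    ndB0q0 ndB6q1 pcB1 Cut.none Ext.none :=
  certB0 (fam := true) (s1 := false) (s2 := false) (a := 0) (b := 1) (c := 1) (cn := .pnn) (n1 := ndB0q0) (n2 := ndB6q1) (pc := pcB1) (cut := Cut.none) (xt := Ext.none) (P1 := 0) (W1 := 536870912) (P2 := 536870912) (W2 := 536870912) (P3 := 649613803) (W3 := 48318383) (N0 := 3) (En := eng) (mo := mog) (C1 := cd0q0) (C2 := cd6q1) (C3 := pd1)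
    rfl k0_mm_011

noncomputable def f_mm_012 : ℕ → ℕ → ℕ → ℕ → Bool := onCell 0 536870912 536870912 536870912 649613803 48318383
    (rowB 3 eng mog cd0q0 cd6q1 pd2 0 true false false .pnp 0 1 2 (qsf 0 536870912 536870912 536870912 2) ndB0q0 ndB6q1 pcB2 Cut.none Ext.none)

def k0_mm_012 : ∃ t, chk3 f_mm_012 t 1 1 1 = true :=
  ⟨(l 4), by decide +kernel⟩

theorem c_mm_012 : CertB 0 536870912 536870912 536870912 649613803 48318383 3 eng mog cd0q0 cd6q1 pd2 true false false .pnp 0 1 2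
    ndB0q0 ndB6q1 pcB2 Cut.none Ext.none :=
  certB0 (fam := true) (s1 := false) (s2 := false) (a := 0) (b := 1) (c := 2) (cn := .pnp) (n1 := ndB0q0) (n2 := ndB6q1) (pc := pcB2) (cut := Cut.none) (xt := Ext.none) (P1 := 0) (W1 := 536870912) (P2 := 536870912) (W2 := 536870912) (P3 := 649613803) (W3 := 48318383) (N0 := 3) (En := eng) (mo := mog) (C1 := cd0q0) (C2 := cd6q1) (C3 := pd2)
    rfl k0_mm_012

noncomputable def f_mm_022 : ℕ → ℕ → ℕ → ℕ → Bool := onCell 0 536870912 1073741824 536870912 649613803 48318383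
    (rowB 3 eng mog cd0q0 cd6q2 pd2 0 true false false .pp 0 2 2 (qsf 0 536870912 1073741824 536870912 2) ndB0q0 ndB6q2 pcB2 Cut.none Ext.none)

def k0_mm_022 : ∃ t, chk3 f_mm_022 t 1 1 1 = true :=
  ⟨(l 4), by decide +kernel⟩

theorem c_mm_022 : CertB 0 536870912 1073741824 536870912 649613803 48318383 3 eng mog cd0q0 cd6q2 pd2 true false false .pp 0 2 2
    ndB0q0 ndB6q2 pcB2 Cut.none Ext.none :=
  certB0 (fam := true) (s1 := false) (s2 := false) (a := 0) (b := 2) (c := 2) (cn := .pp) (n1 := ndB0q0) (n2 := ndB6q2) (pc := pcB2) (cut := Cut.none) (xt := Ext.none) (P1 := 0) (W1 := 536870912) (P2 := 1073741824) (W2 := 536870912) (P3 := 649613803) (W3 := 48318383) (N0 := 3) (En := eng) (mo := mog) (C1 := cd0q0) (C2 := cd6q2) (C3 := pd2)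
    rfl k0_mm_022

noncomputable def f_mm_023 : ℕ → ℕ → ℕ → ℕ → Bool := onCell 0 536870912 1073741824 536870912 649613803 48318383
    (rowB 3 eng mog cd0q0 cd6q2 pd3 0 true false false .up 0 2 3 (qsf 0 536870912 1073741824 536870912 3) ndB0q0 ndB6q2 pcB3 Cut.none Ext.none)

def k0_mm_023 : ∃ t, chk3 f_mm_023 t 1 1 1 = true :=
  ⟨(l 4), by decide +kernel⟩

theorem c_mm_023 : CertB 0 536870912 1073741824 536870912 649613803 48318383 3 eng mog cd0q0 cd6q2 pd3 true false false .up 0 2 3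
    ndB0q0 ndB6q2 pcB3 Cut.none Ext.none :=
  certB0 (fam := true) (s1 := false) (s2 := false) (a := 0) (b := 2) (c := 3) (cn := .up) (n1 := ndB0q0) (n2 := ndB6q2) (pc := pcB3) (cut := Cut.none) (xt := Ext.none) (P1 := 0) (W1 := 536870912) (P2 := 1073741824) (W2 := 536870912) (P3 := 649613803) (W3 := 48318383) (N0 := 3) (En := eng) (mo := mog) (C1 := cd0q0) (C2 := cd6q2) (C3 := pd3)
    rfl k0_mm_023

noncomputable def f_mm_033 : ℕ → ℕ → ℕ → ℕ → Bool := onCell 0 536870912 0 1230186008 649613803 48318383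
    (rowB 3 eng mog cd0q0 cd6q3 pd3 0 true false false .pnn 0 3 3 (qsf 0 536870912 0 1230186008 3) ndB0q0 ndB6q3 pcB3 Cut.none Ext.none)

def k0_mm_033 : ∃ t, chk3 f_mm_033 t 1 1 1 = true :=
  ⟨(l 5), by decide +kernel⟩

theorem c_mm_033 : CertB 0 536870912 0 1230186008 649613803 48318383 3 eng mog cd0q0 cd6q3 pd3 true false false .pnn 0 3 3
    ndB0q0 ndB6q3 pcB3 Cut.none Ext.none :=
  certB0 (fam := true) (s1 := false) (s2 := false) (a := 0) (b := 3) (c := 3) (cn := .pnn) (n1 := ndB0q0) (n2 := ndB6q3) (pc := pcB3) (cut := Cut.none) (xt := Ext.none) (P1 := 0) (W1 := 536870912) (P2 := 0) (W2 := 1230186008) (P3 := 649613803) (W3 := 48318383) (N0 := 3) (En := eng) (mo := mog) (C1 := cd0q0) (C2 := cd6q3) (C3 := pd3)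
    rfl k0_mm_033

noncomputable def f_mm_101 : ℕ → ℕ → ℕ → ℕ → Bool := onCell 536870912 536870912 0 536870912 649613803 48318383
    (rowB 3 eng mog cd0q1 cd6q0 pd1 0 true false false .npn 1 0 1 (qsf 536870912 536870912 0 536870912 1) ndB0q1 ndB6q0 pcB1 Cut.none Ext.none)

def k0_mm_101 : ∃ t, chk3 f_mm_101 t 1 1 1 = true :=
  ⟨(l 4), by decide +kernel⟩

theorem c_mm_101 : CertB 536870912 536870912 0 536870912 649613803 48318383 3 eng mog cd0q1 cd6q0 pd1 true false false .npn 1 0 1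
    ndB0q1 ndB6q0 pcB1 Cut.none Ext.none :=
  certB0 (fam := true) (s1 := false) (s2 := false) (a := 1) (b := 0) (c := 1) (cn := .npn) (n1 := ndB0q1) (n2 := ndB6q0) (pc := pcB1) (cut := Cut.none) (xt := Ext.none) (P1 := 536870912) (W1 := 536870912) (P2 := 0) (W2 := 536870912) (P3 := 649613803) (W3 := 48318383) (N0 := 3) (En := eng) (mo := mog) (C1 := cd0q1) (C2 := cd6q0) (C3 := pd1)
    rfl k0_mm_101

noncomputable def f_mm_102 : ℕ → ℕ → ℕ → ℕ → Bool := onCell 536870912 536870912 0 536870912 649613803 48318383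
    (rowB 3 eng mog cd0q1 cd6q0 pd2 0 true false false .npp 1 0 2 (qsf 536870912 536870912 0 536870912 2) ndB0q1 ndB6q0 pcB2 Cut.none Ext.none)

def k0_mm_102 : ∃ t, chk3 f_mm_102 t 1 1 1 = true :=
  ⟨(l 4), by decide +kernel⟩

theorem c_mm_102 : CertB 536870912 536870912 0 536870912 649613803 48318383 3 eng mog cd0q1 cd6q0 pd2 true false false .npp 1 0 2
    ndB0q1 ndB6q0 pcB2 Cut.none Ext.none :=
  certB0 (fam := true) (s1 := false) (s2 := false) (a := 1) (b := 0) (c := 2) (cn := .npp) (n1 := ndB0q1) (n2 := ndB6q0) (pc := pcB2) (cut := Cut.none) (xt := Ext.none) (P1 := 536870912) (W1 := 536870912) (P2 := 0) (W2 := 536870912) (P3 := 649613803) (W3 := 48318383) (N0 := 3) (En := eng) (mo := mog) (C1 := cd0q1) (C2 := cd6q0) (C3 := pd2)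
    rfl k0_mm_102

noncomputable def f_mm_112 : ℕ → ℕ → ℕ → ℕ → Bool := onCell 536870912 536870912 536870912 536870912 649613803 48318383
    (rowB 3 eng mog cd0q1 cd6q1 pd2 0 true false false .dn 1 1 2 (qsf 536870912 536870912 536870912 536870912 2) ndB0q1 ndB6q1 pcB2 Cut.none Ext.none)

def k0_mm_112 : ∃ t, chk3 f_mm_112 t 1 1 1 = true :=
  ⟨(l 4), by decide +kernel⟩

theorem c_mm_112 : CertB 536870912 536870912 536870912 536870912 649613803 48318383 3 eng mog cd0q1 cd6q1 pd2 true false false .dn 1 1 2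
    ndB0q1 ndB6q1 pcB2 Cut.none Ext.none :=
  certB0 (fam := true) (s1 := false) (s2 := false) (a := 1) (b := 1) (c := 2) (cn := .dn) (n1 := ndB0q1) (n2 := ndB6q1) (pc := pcB2) (cut := Cut.none) (xt := Ext.none) (P1 := 536870912) (W1 := 536870912) (P2 := 536870912) (W2 := 536870912) (P3 := 649613803) (W3 := 48318383) (N0 := 3) (En := eng) (mo := mog) (C1 := cd0q1) (C2 := cd6q1) (C3 := pd2)
    rfl k0_mm_112

noncomputable def f_mm_113 : ℕ → ℕ → ℕ → ℕ → Bool := onCell 536870912 536870912 536870912 536870912 649613803 48318383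
    (rowB 3 eng mog cd0q1 cd6q1 pd3 0 true false false .nn 1 1 3 (qsf 536870912 536870912 536870912 536870912 3) ndB0q1 ndB6q1 pcB3 Cut.none Ext.none)

def k0_mm_113 : ∃ t, chk3 f_mm_113 t 1 1 1 = true :=
  ⟨(l 4), by decide +kernel⟩

theorem c_mm_113 : CertB 536870912 536870912 536870912 536870912 649613803 48318383 3 eng mog cd0q1 cd6q1 pd3 true false false .nn 1 1 3
    ndB0q1 ndB6q1 pcB3 Cut.none Ext.none :=
  certB0 (fam := true) (s1 := false) (s2 := false) (a := 1) (b := 1) (c := 3) (cn := .nn) (n1 := ndB0q1) (n2 := ndB6q1) (pc := pcB3) (cut := Cut.none) (xt := Ext.none) (P1 := 536870912) (W1 := 536870912) (P2 := 536870912) (W2 := 536870912) (P3 := 649613803) (W3 := 48318383) (N0 := 3) (En := eng) (mo := mog) (C1 := cd0q1) (C2 := cd6q1) (C3 := pd3)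
    rfl k0_mm_113

noncomputable def f_mm_123 : ℕ → ℕ → ℕ → ℕ → Bool := onCell 536870912 536870912 1073741824 536870912 649613803 48318383
    (rowB 3 eng mog cd0q1 cd6q2 pd3 0 true false false .npn 1 2 3 (qsf 536870912 536870912 1073741824 536870912 3) ndB0q1 ndB6q2 pcB3 Cut.none Ext.none)

def k0_mm_123 : ∃ t, chk3 f_mm_123 t 1 1 1 = true :=
  ⟨(l 4), by decide +kernel⟩

theorem c_mm_123 : CertB 536870912 536870912 1073741824 536870912 649613803 48318383 3 eng mog cd0q1 cd6q2 pd3 true false false .npn 1 2 3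
    ndB0q1 ndB6q2 pcB3 Cut.none Ext.none :=
  certB0 (fam := true) (s1 := false) (s2 := false) (a := 1) (b := 2) (c := 3) (cn := .npn) (n1 := ndB0q1) (n2 := ndB6q2) (pc := pcB3) (cut := Cut.none) (xt := Ext.none) (P1 := 536870912) (W1 := 536870912) (P2 := 1073741824) (W2 := 536870912) (P3 := 649613803) (W3 := 48318383) (N0 := 3) (En := eng) (mo := mog) (C1 := cd0q1) (C2 := cd6q2) (C3 := pd3)
    rfl k0_mm_123

noncomputable def f_mm_133 : ℕ → ℕ → ℕ → ℕ → Bool := onCell 536870912 536870912 0 1230186008 649613803 48318383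
    (rowB 3 eng mog cd0q1 cd6q3 pd3 0 true false false .dn 1 3 3 (qsf 536870912 536870912 0 1230186008 3) ndB0q1 ndB6q3 pcB3 Cut.none Ext.none)

def k0_mm_133 : ∃ t, chk3 f_mm_133 t 1 1 1 = true :=
  ⟨(l 4), by decide +kernel⟩

theorem c_mm_133 : CertB 536870912 536870912 0 1230186008 649613803 48318383 3 eng mog cd0q1 cd6q3 pd3 true false false .dn 1 3 3
    ndB0q1 ndB6q3 pcB3 Cut.none Ext.none :=
  certB0 (fam := true) (s1 := false) (s2 := false) (a := 1) (b := 3) (c := 3) (cn := .dn) (n1 := ndB0q1) (n2 := ndB6q3) (pc := pcB3) (cut := Cut.none) (xt := Ext.none) (P1 := 536870912) (W1 := 536870912) (P2 := 0) (W2 := 1230186008) (P3 := 649613803) (W3 := 48318383) (N0 := 3) (En := eng) (mo := mog) (C1 := cd0q1) (C2 := cd6q3) (C3 := pd3)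
    rfl k0_mm_133

noncomputable def f_mm_202 : ℕ → ℕ → ℕ → ℕ → Bool := onCell 0 536870912 0 536870912 649613803 48318383
    (rowB 3 eng mog cd0q2 cd6q0 pd2 0 true false false .pp 2 0 2 (qsf 0 536870912 0 536870912 2) ndB0q2 ndB6q0 pcB2 Cut.none Ext.none)

def k0_mm_202 : ∃ t, chk3 f_mm_202 t 1 1 1 = true :=
  ⟨(b (a (b (b (a (b (a (l 16385664) (l 4)) (l 16661088)) (l 4)) (l 4)) (l 4)) (l 4)) (l 4)), by decide +kernel⟩

theorem c_mm_202 : CertB 0 536870912 0 536870912 649613803 48318383 3 eng mog cd0q2 cd6q0 pd2 true false false .pp 2 0 2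
    ndB0q2 ndB6q0 pcB2 Cut.none Ext.none :=
  certB0 (fam := true) (s1 := false) (s2 := false) (a := 2) (b := 0) (c := 2) (cn := .pp) (n1 := ndB0q2) (n2 := ndB6q0) (pc := pcB2) (cut := Cut.none) (xt := Ext.none) (P1 := 0) (W1 := 536870912) (P2 := 0) (W2 := 536870912) (P3 := 649613803) (W3 := 48318383) (N0 := 3) (En := eng) (mo := mog) (C1 := cd0q2) (C2 := cd6q0) (C3 := pd2)
    rfl k0_mm_202

noncomputable def f_mm_203 : ℕ → ℕ → ℕ → ℕ → Bool := onCell 0 536870912 1610612736 536870912 649613803 48318383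
    (rowB 3 eng mog cd0q2 cd6q0 pd3 1 true false false .up 2 0 3 (qsf 0 536870912 0 536870912 3) ndB0q2 ndB6q0 pcB3 Cut.none Ext.none)

def k0_mm_203 : ∃ t, chk3 f_mm_203 t 1 1 1 = true :=
  ⟨(l 4), by decide +kernel⟩

theorem c_mm_203 : CertB 0 536870912 0 536870912 649613803 48318383 3 eng mog cd0q2 cd6q0 pd3 true false false .up 2 0 3
    ndB0q2 ndB6q0 pcB3 Cut.none Ext.none :=
  certB1 (fam := true) (s1 := false) (s2 := false) (a := 2) (b := 0) (c := 3) (cn := .up) (n1 := ndB0q2) (n2 := ndB6q0) (pc := pcB3) (cut := Cut.none) (xt := Ext.none) (P1 := 0) (W1 := 536870912) (P2 := 0) (W2 := 536870912) (P3 := 649613803) (W3 := 48318383) (N0 := 3) (En := eng) (mo := mog) (C1 := cd0q2) (C2 := cd6q0) (C3 := pd3)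
    rfl (fun _ => rfl) k0_mm_203

noncomputable def f_mm_213 : ℕ → ℕ → ℕ → ℕ → Bool := onCell 0 536870912 536870912 536870912 649613803 48318383
    (rowB 3 eng mog cd0q2 cd6q1 pd3 0 true false false .pnn 2 1 3 (qsf 0 536870912 536870912 536870912 3) ndB0q2 ndB6q1 pcB3 Cut.none Ext.none)

def k0_mm_213 : ∃ t, chk3 f_mm_213 t 1 1 1 = true :=
  ⟨(l 4), by decide +kernel⟩

theorem c_mm_213 : CertB 0 536870912 536870912 536870912 649613803 48318383 3 eng mog cd0q2 cd6q1 pd3 true false false .pnn 2 1 3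
    ndB0q2 ndB6q1 pcB3 Cut.none Ext.none :=
  certB0 (fam := true) (s1 := false) (s2 := false) (a := 2) (b := 1) (c := 3) (cn := .pnn) (n1 := ndB0q2) (n2 := ndB6q1) (pc := pcB3) (cut := Cut.none) (xt := Ext.none) (P1 := 0) (W1 := 536870912) (P2 := 536870912) (W2 := 536870912) (P3 := 649613803) (W3 := 48318383) (N0 := 3) (En := eng) (mo := mog) (C1 := cd0q2) (C2 := cd6q1) (C3 := pd3)
    rfl k0_mm_213

end Pool.Agent.Strip051.G.I6050_6500.Tab.C.BA06

namespace Pool.Agent.Strip051.G.I6050_6500.Tab.C.BA07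

open Pool.Agent.Strip051.PB Pool.Agent.Strip051.PB.T
open Pool.Agent.Strip051.G.I6050_6500.Tab

noncomputable def f_pp_001 : ℕ → ℕ → ℕ → ℕ → Bool := onCell 0 536870912 0 536870912 649613803 48318383
    (rowB 3 eng mog cd0q0 cd7q0 pd1 0 true true true .up 0 0 1 (qsf 0 536870912 0 536870912 1) ndB0q0 ndB7q0 pcB1 Cut.none Ext.none)

def k0_pp_001 : ∃ t, chk3 f_pp_001 t 1 1 1 = true :=
  ⟨(l 4), by decide +kernel⟩

theorem c_pp_001 : CertB 0 536870912 0 536870912 649613803 48318383 3 eng mog cd0q0 cd7q0 pd1 true true true .up 0 0 1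
    ndB0q0 ndB7q0 pcB1 Cut.none Ext.none :=
  certB0 (fam := true) (s1 := true) (s2 := true) (a := 0) (b := 0) (c := 1) (cn := .up) (n1 := ndB0q0) (n2 := ndB7q0) (pc := pcB1) (cut := Cut.none) (xt := Ext.none) (P1 := 0) (W1 := 536870912) (P2 := 0) (W2 := 536870912) (P3 := 649613803) (W3 := 48318383) (N0 := 3) (En := eng) (mo := mog) (C1 := cd0q0) (C2 := cd7q0) (C3 := pd1)
    rfl k0_pp_001

noncomputable def f_pp_011 : ℕ → ℕ → ℕ → ℕ → Bool := onCell 0 536870912 536870912 536870912 649613803 48318383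
    (rowB 3 eng mog cd0q0 cd7q1 pd1 0 true true true .pnn 0 1 1 (qsf 0 536870912 536870912 536870912 1) ndB0q0 ndB7q1 pcB1 Cut.none Ext.none)

def k0_pp_011 : ∃ t, chk3 f_pp_011 t 1 1 1 = true :=
  ⟨(l 4), by decide +kernel⟩

theorem c_pp_011 : CertB 0 536870912 536870912 536870912 649613803 48318383 3 eng mog cd0q0 cd7q1 pd1 true true true .pnn 0 1 1
    ndB0q0 ndB7q1 pcB1 Cut.none Ext.none :=
  certB0 (fam := true) (s1 := true) (s2 := true) (a := 0) (b := 1) (c := 1) (cn := .pnn) (n1 := ndB0q0) (n2 := ndB7q1) (pc := pcB1) (cut := Cut.none) (xt := Ext.none) (P1 := 0) (W1 := 536870912) (P2 := 536870912) (W2 := 536870912) (P3 := 649613803) (W3 := 48318383) (N0 := 3) (En := eng) (mo := mog) (C1 := cd0q0) (C2 := cd7q1) (C3 := pd1)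
    rfl k0_pp_011

noncomputable def f_pp_012 : ℕ → ℕ → ℕ → ℕ → Bool := onCell 0 536870912 536870912 536870912 649613803 48318383
    (rowB 3 eng mog cd0q0 cd7q1 pd2 0 true true true .pnp 0 1 2 (qsf 0 536870912 536870912 536870912 2) ndB0q0 ndB7q1 pcB2 Cut.none Ext.none)

def k0_pp_012 : ∃ t, chk3 f_pp_012 t 1 1 1 = true :=
  ⟨(l 4), by decide +kernel⟩

theorem c_pp_012 : CertB 0 536870912 536870912 536870912 649613803 48318383 3 eng mog cd0q0 cd7q1 pd2 true true true .pnp 0 1 2
    ndB0q0 ndB7q1 pcB2 Cut.none Ext.none :=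
  certB0 (fam := true) (s1 := true) (s2 := true) (a := 0) (b := 1) (c := 2) (cn := .pnp) (n1 := ndB0q0) (n2 := ndB7q1) (pc := pcB2) (cut := Cut.none) (xt := Ext.none) (P1 := 0) (W1 := 536870912) (P2 := 536870912) (W2 := 536870912) (P3 := 649613803) (W3 := 48318383) (N0 := 3) (En := eng) (mo := mog) (C1 := cd0q0) (C2 := cd7q1) (C3 := pd2)
    rfl k0_pp_012

noncomputable def f_pp_022 : ℕ → ℕ → ℕ → ℕ → Bool := onCell 0 536870912 1073741824 536870912 649613803 48318383
    (rowB 3 eng mog cd0q0 cd7q2 pd2 0 true true true .pp 0 2 2 (qsf 0 536870912 1073741824 536870912 2) ndB0q0 ndB7q2 pcB2 Cut.none Ext.none)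

def k0_pp_022 : ∃ t, chk3 f_pp_022 t 1 1 1 = true :=
  ⟨(l 4), by decide +kernel⟩

theorem c_pp_022 : CertB 0 536870912 1073741824 536870912 649613803 48318383 3 eng mog cd0q0 cd7q2 pd2 true true true .pp 0 2 2
    ndB0q0 ndB7q2 pcB2 Cut.none Ext.none :=
  certB0 (fam := true) (s1 := true) (s2 := true) (a := 0) (b := 2) (c := 2) (cn := .pp) (n1 := ndB0q0) (n2 := ndB7q2) (pc := pcB2) (cut := Cut.none) (xt := Ext.none) (P1 := 0) (W1 := 536870912) (P2 := 1073741824) (W2 := 536870912) (P3 := 649613803) (W3 := 48318383) (N0 := 3) (En := eng) (mo := mog) (C1 := cd0q0) (C2 := cd7q2) (C3 := pd2)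
    rfl k0_pp_022

noncomputable def f_pp_023 : ℕ → ℕ → ℕ → ℕ → Bool := onCell 0 536870912 1073741824 536870912 649613803 48318383
    (rowB 3 eng mog cd0q0 cd7q2 pd3 0 true true true .up 0 2 3 (qsf 0 536870912 1073741824 536870912 3) ndB0q0 ndB7q2 pcB3 Cut.none Ext.none)

def k0_pp_023 : ∃ t, chk3 f_pp_023 t 1 1 1 = true :=
  ⟨(l 4), by decide +kernel⟩

theorem c_pp_023 : CertB 0 536870912 1073741824 536870912 649613803 48318383 3 eng mog cd0q0 cd7q2 pd3 true true true .up 0 2 3
    ndB0q0 ndB7q2 pcB3 Cut.none Ext.none :=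
  certB0 (fam := true) (s1 := true) (s2 := true) (a := 0) (b := 2) (c := 3) (cn := .up) (n1 := ndB0q0) (n2 := ndB7q2) (pc := pcB3) (cut := Cut.none) (xt := Ext.none) (P1 := 0) (W1 := 536870912) (P2 := 1073741824) (W2 := 536870912) (P3 := 649613803) (W3 := 48318383) (N0 := 3) (En := eng) (mo := mog) (C1 := cd0q0) (C2 := cd7q2) (C3 := pd3)
    rfl k0_pp_023

noncomputable def f_pp_033 : ℕ → ℕ → ℕ → ℕ → Bool := onCell 0 536870912 0 1230186008 649613803 48318383
    (rowB 3 eng mog cd0q0 cd7q3 pd3 0 true true true .pnn 0 3 3 (qsf 0 536870912 0 1230186008 3) ndB0q0 ndB7q3 pcB3 Cut.none Ext.none)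

def k0_pp_033 : ∃ t, chk3 f_pp_033 t 1 1 1 = true :=
  ⟨(b (l 4) (l 4)), by decide +kernel⟩

theorem c_pp_033 : CertB 0 536870912 0 1230186008 649613803 48318383 3 eng mog cd0q0 cd7q3 pd3 true true true .pnn 0 3 3
    ndB0q0 ndB7q3 pcB3 Cut.none Ext.none :=
  certB0 (fam := true) (s1 := true) (s2 := true) (a := 0) (b := 3) (c := 3) (cn := .pnn) (n1 := ndB0q0) (n2 := ndB7q3) (pc := pcB3) (cut := Cut.none) (xt := Ext.none) (P1 := 0) (W1 := 536870912) (P2 := 0) (W2 := 1230186008) (P3 := 649613803) (W3 := 48318383) (N0 := 3) (En := eng) (mo := mog) (C1 := cd0q0) (C2 := cd7q3) (C3 := pd3)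
    rfl k0_pp_033

noncomputable def f_pp_101 : ℕ → ℕ → ℕ → ℕ → Bool := onCell 536870912 536870912 0 536870912 649613803 48318383
    (rowB 3 eng mog cd0q1 cd7q0 pd1 0 true true true .npn 1 0 1 (qsf 536870912 536870912 0 536870912 1) ndB0q1 ndB7q0 pcB1 Cut.none Ext.none)

def k0_pp_101 : ∃ t, chk3 f_pp_101 t 1 1 1 = true :=
  ⟨(l 4), by decide +kernel⟩

theorem c_pp_101 : CertB 536870912 536870912 0 536870912 649613803 48318383 3 eng mog cd0q1 cd7q0 pd1 true true true .npn 1 0 1
    ndB0q1 ndB7q0 pcB1 Cut.none Ext.none :=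
  certB0 (fam := true) (s1 := true) (s2 := true) (a := 1) (b := 0) (c := 1) (cn := .npn) (n1 := ndB0q1) (n2 := ndB7q0) (pc := pcB1) (cut := Cut.none) (xt := Ext.none) (P1 := 536870912) (W1 := 536870912) (P2 := 0) (W2 := 536870912) (P3 := 649613803) (W3 := 48318383) (N0 := 3) (En := eng) (mo := mog) (C1 := cd0q1) (C2 := cd7q0) (C3 := pd1)
    rfl k0_pp_101

noncomputable def f_pp_102 : ℕ → ℕ → ℕ → ℕ → Bool := onCell 536870912 536870912 0 536870912 649613803 48318383
    (rowB 3 eng mog cd0q1 cd7q0 pd2 0 true true true .npp 1 0 2 (qsf 536870912 536870912 0 536870912 2) ndB0q1 ndB7q0 pcB2 Cut.none Ext.none)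

def k0_pp_102 : ∃ t, chk3 f_pp_102 t 1 1 1 = true :=
  ⟨(l 4), by decide +kernel⟩

theorem c_pp_102 : CertB 536870912 536870912 0 536870912 649613803 48318383 3 eng mog cd0q1 cd7q0 pd2 true true true .npp 1 0 2
    ndB0q1 ndB7q0 pcB2 Cut.none Ext.none :=
  certB0 (fam := true) (s1 := true) (s2 := true) (a := 1) (b := 0) (c := 2) (cn := .npp) (n1 := ndB0q1) (n2 := ndB7q0) (pc := pcB2) (cut := Cut.none) (xt := Ext.none) (P1 := 536870912) (W1 := 536870912) (P2 := 0) (W2 := 536870912) (P3 := 649613803) (W3 := 48318383) (N0 := 3) (En := eng) (mo := mog) (C1 := cd0q1) (C2 := cd7q0) (C3 := pd2)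
    rfl k0_pp_102

noncomputable def f_pp_112 : ℕ → ℕ → ℕ → ℕ → Bool := onCell 536870912 536870912 536870912 536870912 649613803 48318383
    (rowB 3 eng mog cd0q1 cd7q1 pd2 0 true true true .dn 1 1 2 (qsf 536870912 536870912 536870912 536870912 2) ndB0q1 ndB7q1 pcB2 Cut.none Ext.none)

def k0_pp_112 : ∃ t, chk3 f_pp_112 t 1 1 1 = true :=
  ⟨(l 4), by decide +kernel⟩

theorem c_pp_112 : CertB 536870912 536870912 536870912 536870912 649613803 48318383 3 eng mog cd0q1 cd7q1 pd2 true true true .dn 1 1 2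
    ndB0q1 ndB7q1 pcB2 Cut.none Ext.none :=
  certB0 (fam := true) (s1 := true) (s2 := true) (a := 1) (b := 1) (c := 2) (cn := .dn) (n1 := ndB0q1) (n2 := ndB7q1) (pc := pcB2) (cut := Cut.none) (xt := Ext.none) (P1 := 536870912) (W1 := 536870912) (P2 := 536870912) (W2 := 536870912) (P3 := 649613803) (W3 := 48318383) (N0 := 3) (En := eng) (mo := mog) (C1 := cd0q1) (C2 := cd7q1) (C3 := pd2)
    rfl k0_pp_112

noncomputable def f_pp_113 : ℕ → ℕ → ℕ → ℕ → Bool := onCell 536870912 536870912 536870912 536870912 649613803 48318383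
    (rowB 3 eng mog cd0q1 cd7q1 pd3 0 true true true .nn 1 1 3 (qsf 536870912 536870912 536870912 536870912 3) ndB0q1 ndB7q1 pcB3 Cut.none Ext.none)

def k0_pp_113 : ∃ t, chk3 f_pp_113 t 1 1 1 = true :=
  ⟨(l 4), by decide +kernel⟩

theorem c_pp_113 : CertB 536870912 536870912 536870912 536870912 649613803 48318383 3 eng mog cd0q1 cd7q1 pd3 true true true .nn 1 1 3
    ndB0q1 ndB7q1 pcB3 Cut.none Ext.none :=
  certB0 (fam := true) (s1 := true) (s2 := true) (a := 1) (b := 1) (c := 3) (cn := .nn) (n1 := ndB0q1) (n2 := ndB7q1) (pc := pcB3) (cut := Cut.none) (xt := Ext.none) (P1 := 536870912) (W1 := 536870912) (P2 := 536870912) (W2 := 536870912) (P3 := 649613803) (W3 := 48318383) (N0 := 3) (En := eng) (mo := mog) (C1 := cd0q1) (C2 := cd7q1) (C3 := pd3)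
    rfl k0_pp_113

noncomputable def f_pp_123 : ℕ → ℕ → ℕ → ℕ → Bool := onCell 536870912 536870912 1073741824 536870912 649613803 48318383
    (rowB 3 eng mog cd0q1 cd7q2 pd3 0 true true true .npn 1 2 3 (qsf 536870912 536870912 1073741824 536870912 3) ndB0q1 ndB7q2 pcB3 Cut.none Ext.none)

def k0_pp_123 : ∃ t, chk3 f_pp_123 t 1 1 1 = true :=
  ⟨(l 4), by decide +kernel⟩

theorem c_pp_123 : CertB 536870912 536870912 1073741824 536870912 649613803 48318383 3 eng mog cd0q1 cd7q2 pd3 true true true .npn 1 2 3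
    ndB0q1 ndB7q2 pcB3 Cut.none Ext.none :=
  certB0 (fam := true) (s1 := true) (s2 := true) (a := 1) (b := 2) (c := 3) (cn := .npn) (n1 := ndB0q1) (n2 := ndB7q2) (pc := pcB3) (cut := Cut.none) (xt := Ext.none) (P1 := 536870912) (W1 := 536870912) (P2 := 1073741824) (W2 := 536870912) (P3 := 649613803) (W3 := 48318383) (N0 := 3) (En := eng) (mo := mog) (C1 := cd0q1) (C2 := cd7q2) (C3 := pd3)
    rfl k0_pp_123

noncomputable def f_pp_133 : ℕ → ℕ → ℕ → ℕ → Bool := onCell 536870912 536870912 0 1230186008 649613803 48318383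
    (rowB 3 eng mog cd0q1 cd7q3 pd3 0 true true true .dn 1 3 3 (qsf 536870912 536870912 0 1230186008 3) ndB0q1 ndB7q3 pcB3 Cut.none Ext.none)

def k0_pp_133 : ∃ t, chk3 f_pp_133 t 1 1 1 = true :=
  ⟨(l 4), by decide +kernel⟩

theorem c_pp_133 : CertB 536870912 536870912 0 1230186008 649613803 48318383 3 eng mog cd0q1 cd7q3 pd3 true true true .dn 1 3 3
    ndB0q1 ndB7q3 pcB3 Cut.none Ext.none :=
  certB0 (fam := true) (s1 := true) (s2 := true) (a := 1) (b := 3) (c := 3) (cn := .dn) (n1 := ndB0q1) (n2 := ndB7q3) (pc := pcB3) (cut := Cut.none) (xt := Ext.none) (P1 := 536870912) (W1 := 536870912) (P2 := 0) (W2 := 1230186008) (P3 := 649613803) (W3 := 48318383) (N0 := 3) (En := eng) (mo := mog) (C1 := cd0q1) (C2 := cd7q3) (C3 := pd3)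
    rfl k0_pp_133

noncomputable def f_pp_202 : ℕ → ℕ → ℕ → ℕ → Bool := onCell 0 536870912 0 536870912 649613803 48318383
    (rowB 3 eng mog cd0q2 cd7q0 pd2 0 true true true .pp 2 0 2 (qsf 0 536870912 0 536870912 2) ndB0q2 ndB7q0 pcB2 Cut.none Ext.none)

def k0_pp_202 : ∃ t, chk3 f_pp_202 t 1 1 1 = true :=
  ⟨(l 4), by decide +kernel⟩

theorem c_pp_202 : CertB 0 536870912 0 536870912 649613803 48318383 3 eng mog cd0q2 cd7q0 pd2 true true true .pp 2 0 2
    ndB0q2 ndB7q0 pcB2 Cut.none Ext.none :=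
  certB0 (fam := true) (s1 := true) (s2 := true) (a := 2) (b := 0) (c := 2) (cn := .pp) (n1 := ndB0q2) (n2 := ndB7q0) (pc := pcB2) (cut := Cut.none) (xt := Ext.none) (P1 := 0) (W1 := 536870912) (P2 := 0) (W2 := 536870912) (P3 := 649613803) (W3 := 48318383) (N0 := 3) (En := eng) (mo := mog) (C1 := cd0q2) (C2 := cd7q0) (C3 := pd2)
    rfl k0_pp_202

noncomputable def f_pp_203 : ℕ → ℕ → ℕ → ℕ → Bool := onCell 0 536870912 0 536870912 649613803 48318383
    (rowB 3 eng mog cd0q2 cd7q0 pd3 0 true true true .up 2 0 3 (qsf 0 536870912 0 536870912 3) ndB0q2 ndB7q0 pcB3 Cut.none Ext.none)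

def k0_pp_203 : ∃ t, chk3 f_pp_203 t 1 1 1 = true :=
  ⟨(l 4), by decide +kernel⟩

theorem c_pp_203 : CertB 0 536870912 0 536870912 649613803 48318383 3 eng mog cd0q2 cd7q0 pd3 true true true .up 2 0 3
    ndB0q2 ndB7q0 pcB3 Cut.none Ext.none :=
  certB0 (fam := true) (s1 := true) (s2 := true) (a := 2) (b := 0) (c := 3) (cn := .up) (n1 := ndB0q2) (n2 := ndB7q0) (pc := pcB3) (cut := Cut.none) (xt := Ext.none) (P1 := 0) (W1 := 536870912) (P2 := 0) (W2 := 536870912) (P3 := 649613803) (W3 := 48318383) (N0 := 3) (En := eng) (mo := mog) (C1 := cd0q2) (C2 := cd7q0) (C3 := pd3)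
    rfl k0_pp_203

noncomputable def f_pp_213 : ℕ → ℕ → ℕ → ℕ → Bool := onCell 0 536870912 536870912 536870912 649613803 48318383
    (rowB 3 eng mog cd0q2 cd7q1 pd3 0 true true true .pnn 2 1 3 (qsf 0 536870912 536870912 536870912 3) ndB0q2 ndB7q1 pcB3 Cut.none Ext.none)

def k0_pp_213 : ∃ t, chk3 f_pp_213 t 1 1 1 = true :=
  ⟨(l 4), by decide +kernel⟩

theorem c_pp_213 : CertB 0 536870912 536870912 536870912 649613803 48318383 3 eng mog cd0q2 cd7q1 pd3 true true true .pnn 2 1 3
    ndB0q2 ndB7q1 pcB3 Cut.none Ext.none :=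
  certB0 (fam := true) (s1 := true) (s2 := true) (a := 2) (b := 1) (c := 3) (cn := .pnn) (n1 := ndB0q2) (n2 := ndB7q1) (pc := pcB3) (cut := Cut.none) (xt := Ext.none) (P1 := 0) (W1 := 536870912) (P2 := 536870912) (W2 := 536870912) (P3 := 649613803) (W3 := 48318383) (N0 := 3) (En := eng) (mo := mog) (C1 := cd0q2) (C2 := cd7q1) (C3 := pd3)
    rfl k0_pp_213

noncomputable def f_pm_001 : ℕ → ℕ → ℕ → ℕ → Bool := onCell 0 536870912 536870912 536870912 649613803 48318383
    (rowB 3 eng mog cd0q0 cd7q0 pd1 1 true true false .up 0 0 1 (qsf 0 536870912 0 536870912 1) ndB0q0 ndB7q0 pcB1 Cut.none Ext.none)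

def k0_pm_001 : ∃ t, chk3 f_pm_001 t 1 2 1 = true :=
  ⟨(l 3), by decide +kernel⟩

def k1_pm_001 : ∃ t, chk3 f_pm_001 t 2 3 1 = true :=
  ⟨(b (l 3) (l 2)), by decide +kernel⟩

def k2_pm_001 : ∃ t, chk3 f_pm_001 t 3 6 1 = true :=
  ⟨(a (b (l 3) (a (l 3) (b (l 3) (b (l 3) (a (l 2) (b (a (l 3) (a (l 3) (c (l 16621488) (l 16604576)))) (a (l 2) (a (c (l 91368386231) (l 98347701831)) (c (l 16594280) (l 16587440)))))))))) (b (l 3) (a (b (a (l 3) (b (l 3) (a (l 3) (b (l 3) (l 16635304))))) (a (b (b (l 3) (a (l 108078525463) (l 16618504))) (a (b (a (l 16597832) (l 16588792)) (a (l 16580416) (l 16570776))) (b (l 16577400) (l 16558312)))) (b (a (b (l 16611752) (l 16588960)) (l 16608672)) (a (c (l 16560680) (l 16552352)) (l 16550840))))) (b (a (b (l 117205490759) (a (b (l 16657824) (l 16636784)) (l 16642488))) (b (a (l 16678152) (l 16673248)) (a (l 16638136) (l 16633136)))) (a (b (a (l 16620936) (l 16610328)) (a (l 16549256) (l 16551432))) (b (a (l 16594888) (l 16589808))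 (a (l 16551328) (l 16545600)))))))), by decide +kernel⟩

def k3_pm_001 : ∃ t, chk3 f_pm_001 t 3 7 1 = true :=
  ⟨(a (b (a (l 2) (b (a (l 2) (a (l 2) (b (a (l 2) (b (l 103716363911) (l 2))) (l 2)))) (l 2))) (l 2)) (b (a (b (a (b (a (b (a (l 16563896) (l 16553704)) (l 47881743207)) (a (l 16556904) (l 16527424))) (a (b (l 109621869383) (l 2)) (b (l 16506840) (l 16512376)))) (b (a (c (l 16520864) (l 16513264)) (l 16507640)) (a (b (l 16490232) (l 16494456)) (b (l 16478048) (l 16459616))))) (a (a (l 2) (b (c (l 16499592) (l 16465696)) (l 2))) (b (a (c (b (l 16461040) (l 16445976)) (l 16446400)) (c (b (l 16445664) (l 16428744)) (l 16430064))) (a (l 39291616439) (l 16401584))))) (b (a (b (a (l 16501936) (l 16500056)) (a (c (b (l 16473736) (l 16452984)) (l 16454512)) (b (l 16463952) (a (a (l 16443720) (l 16441992)) (l 16460752))))) (b (a (c (l 16510376) (l 16493776)) (b (l 16513976) (l 16490944))) (a (b (c (l 16469616) (l 16455360)) (l 16458008)) (a (l 16450400) (l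 16451880))))) (a (b (a (c (b (l 16433160) (l 16414272)) (l 16415920)) (l 16429752)) (l 16439664)) (b (a (l 16400848) (l 16396864)) (l 16352120))))) (a (b (a (l 2) (a (l 2) (l 16359104))) (l 2)) (a (b (b (l 16343576) (l 16314104)) (l 55397555975)) (b (l 16355584) (l 16292744)))))), by decide +kernel⟩

theorem s4_pm_001 : ∃ t, chk3 f_pm_001 t 3 3 1 = true := ex3_b k2_pm_001 k3_pm_001

theorem s5_pm_001 : ∃ t, chk3 f_pm_001 t 1 3 1 = true := ex3_a k1_pm_001 s4_pm_001

theorem s6_pm_001 : ∃ t, chk3 f_pm_001 t 1 1 1 = true := ex3_b k0_pm_001 s5_pm_001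

theorem c_pm_001 : CertB 0 536870912 0 536870912 649613803 48318383 3 eng mog cd0q0 cd7q0 pd1 true true false .up 0 0 1
    ndB0q0 ndB7q0 pcB1 Cut.none Ext.none :=
  certB1 (fam := true) (s1 := true) (s2 := false) (a := 0) (b := 0) (c := 1) (cn := .up) (n1 := ndB0q0) (n2 := ndB7q0) (pc := pcB1) (cut := Cut.none) (xt := Ext.none) (P1 := 0) (W1 := 536870912) (P2 := 0) (W2 := 536870912) (P3 := 649613803) (W3 := 48318383) (N0 := 3) (En := eng) (mo := mog) (C1 := cd0q0) (C2 := cd7q0) (C3 := pd1)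
    rfl (fun _ => rfl) s6_pm_001

noncomputable def cut_pm_011 : Cut := Cut.of [[⟨0, 0, 0, 67108864⟩, ⟨1, 1, 0, 67108864⟩, ⟨2, 1, 0, 67108864⟩]]

noncomputable def f_pm_011 : ℕ → ℕ → ℕ → ℕ → Bool := onCell 0 536870912 536870912 536870912 649613803 48318383
    (rowB 3 eng mog cd0q0 cd7q1 pd1 1 true true false .pnn 0 1 1 (qsf 0 536870912 536870912 536870912 1) ndB0q0 ndB7q1 pcB1 cut_pm_011 Ext.none)

def k0_pm_011 : ∃ t, chk3 f_pm_011 t 1 2 1 = true :=
  ⟨(l 3), by decide +kernel⟩

def k1_pm_011 : ∃ t, chk3 f_pm_011 t 2 6 1 = true :=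
  ⟨(l 3), by decide +kernel⟩

def k2_pm_011 : ∃ t, chk3 f_pm_011 t 4 14 1 = true :=
  ⟨(l 3), by decide +kernel⟩

def k3_pm_011 : ∃ t, chk3 f_pm_011 t 4 30 1 = true :=
  ⟨(b (l 3) (a (l 3) (a (a (l 3) (b (l 3) (b (l 3) (a (l 3) (b (l 3) (a (l 3) (b (l 3) (a (l 177335100727) (l 122037398487))))))))) (a (b (l 3) (b (a (l 3) (b (a (l 3) (c (l 199883669847) (l 225116599623))) (a (c (b (l 3) (l 177335089927)) (l 209010472727)) (b (l 152102156375) (l 16730416))))) (b (a (a (c (b (l 3) (l 174650744967)) (l 200957418631)) (a (b (l 3) (l 121500522247)) (b (l 153712776711) (l 16734032)))) (a (a (a (l 107005002263) (l 16732304)) (l 16730656)) (l 16727360))) (a (a (a (b (l 142975363479) (l 16739144)) (b (l 113447458839) (l 16734336))) (c (l 16738072) (l 16731200))) (c (l 16731472) (l 16724632)))))) (b (b (l 3) (b (a (l 3) (a (l 236390880135) (l 122037371799))) (a (a (l 3) (c (l 206862981927) (l 176798217735))) (a (l 111836825991) (l 16721864))))) (a (a (b (b (a (l 125795482103)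 (l 115058059175)) (l 16727024)) (l 16726168)) (b (c (l 68887155783) (l 16723824)) (l 16716512))) (a (b (l 16725448) (l 16712088)) (b (l 16715760) (l 16707648))))))))), by decide +kernel⟩

def k4_pm_011 : ∃ t, chk3 f_pm_011 t 8 31 1 = true :=
  ⟨(b (a (l 3) (b (l 3) (a (b (l 3) (a (l 3) (a (l 3) (a (l 3) (a (l 3) (b (l 3) (l 148344108327))))))) (b (a (l 3) (b (l 3) (b (a (l 3) (c (l 104320687863) (a (l 3) (l 127406129863)))) (a (c (l 141901649591) (l 157470903399)) (a (l 109152520775) (l 16749280)))))) (a (b (a (l 3) (b (l 3) (a (l 122574303239) (l 105931300567)))) (a (a (b (l 3) (l 89288307799)) (b (l 111300014791) (l 16754384))) (c (l 16757936) (b (l 66739723255) (l 16750424))))) (b (a (b (a (l 115058103159) (l 16754272)) (l 16755960)) (l 16752584)) (a (l 16747688) (l 16743296)))))))) (a (l 6) (b (a (b (a (l 6) (b (b (a (l 3) (a (l 6) (l 16759424))) (l 6)) (l 6))) (l 6)) (a (b (a (b (a (l 16753560) (l 16751352)) (l 16748416)) (a (l 16752368) (l 16744920)))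 (b (l 16747400) (l 16738104))) (b (a (l 16746856) (l 16737232)) (l 16736568)))) (a (l 6) (b (a (l 16737264) (l 16723224)) (a (l 6) (l 16715120))))))), by decide +kernel⟩

def k5_pm_011 : ∃ t, chk3 f_pm_011 t 9 31 1 = true :=
  ⟨(b (a (a (b (b (l 3) (a (a (l 3) (a (l 3) (b (l 3) (b (l 3) (l 129016736023))))) (b (a (l 3) (a (b (l 3) (l 129553599319)) (b (l 155860274439) (l 94656990647)))) (b (a (a (l 156397150343) (l 120426794135)) (l 72108412743)) (a (c (l 16751360) (l 88751414903)) (l 16741016)))))) (a (a (a (b (b (c (l 144049128135) (l 158544639911)) (c (l 16748792) (l 16752600))) (l 16742040)) (b (b (b (l 156397155351) (l 92509517223)) (l 16745920)) (l 16739856))) (b (b (b (a (l 119889930919) (l 16746624)) (l 16745688)) (l 16742648)) (l 16736584))) (b (a (b (l 16747584) (l 16738296)) (l 16741200)) (l 16737912)))) (b (b (a (b (l 3) (b (a (l 3) (a (l 138143533783) (l 113447469447))) (a (a (l 3) (l 129016728823)) (c (l 67813442535) (l 100025694663))))) (a (b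 (a (b (l 3) (l 121500532887)) (b (l 164987069975) (l 105931271655))) (c (l 16743064) (l 16741432))) (b (a (b (l 113984335063) (l 16736824)) (l 16739592)) (l 16737936)))) (b (a (a (a (b (l 120963665319) (l 16741800)) (l 16745872)) (l 16742608)) (c (l 16742072) (l 16729960))) (a (c (l 16741488) (l 16745128)) (l 16737264)))) (a (b (c (l 16735416) (l 16739072)) (l 16721344)) (b (l 16725960) (l 16712648))))) (b (a (a (b (a (b (l 16737624) (l 16728328)) (a (l 16737560) (l 16724880))) (c (l 16731312) (l 16719200))) (b (c (l 16725392) (l 16718544)) (l 16711320))) (a (b (l 16715856) (l 16702544)) (l 16702992))) (a (a (b (l 16712000) (l 16703944)) (l 16699240)) (a (l 16690488) (l 16681712))))) (a (a (b (a (b (l 16735920) (l 16722592)) (b (l 16721968) (l 16713896))) (b (l 16712768) (l 16704680))) (b (a (b (l 16713280) (l 16705208)) (l 16703176)) (b (l 16695432) (l 16690008)))) (b (a (a (l 16694496) (l 16683184)) (l 16670112)) (a (l 16676744) (l 16654192))))), by decide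 +kernel⟩

def k6_pm_011 : ∃ t, chk3 f_pm_011 t 5 14 1 = true :=
  ⟨(b (l 3) (a (a (l 3) (b (l 3) (a (l 3) (b (l 3) (b (l 3) (a (l 220284706599) (c (l 101636241591) (l 16716992)))))))) (a (b (l 3) (a (b (a (l 3) (b (l 3) (l 97878138103))) (a (b (l 93046303287) (l 16698112)) (c (l 48485999127) (l 16701280)))) (b (a (b (l 3) (l 64055250135)) (c (l 37748574263) (l 16697256))) (a (l 16692592) (l 16661304))))) (b (a (b (l 3) (a (c (l 72645195863) (l 40969807431)) (c (l 16694840) (l 16671488)))) (b (a (l 3) (l 57075882983)) (a (l 16671792) (l 16649656)))) (b (a (a (l 39359159927) (l 16656104)) (a (l 16644904) (l 16633352))) (a (a (l 16650752) (l 16639928)) (l 16612640))))))), by decide +kernel⟩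

def k7_pm_011 : ∃ t, chk3 f_pm_011 t 5 15 1 = true :=
  ⟨(a (b (a (b (b (l 3) (a (a (l 3) (b (l 3) (a (l 188072488519) (l 176798189399)))) (b (a (b (l 3) (l 188072476103)) (c (b (l 176261306839) (l 107004967303)) (l 125795454999))) (a (c (b (l 98415043511) (l 16712368)) (l 107541846215)) (l 16714296))))) (a (b (b (a (a (b (l 3) (l 141901595703)) (b (l 159081464071) (l 16720568))) (c (b (l 16723216) (l 16714008)) (l 16724816))) (a (a (a (l 16720544) (l 16720888)) (a (l 16715928) (l 16713520))) (l 16712672))) (a (b (l 16711664) (l 16700960)) (b (l 16699672) (l 16691848)))) (b (b (a (l 16705552) (l 16695928)) (a (l 16697736) (l 16688088))) (l 16691728)))) (b (b (a (a (b (l 3) (a (l 202567977095) (l 126869186711))) (b (c (l 198809875591) (l 130627287511)) (c (l 98951891399) (l 16699216)))) (b (a (c (l 100025631479) (l 16697616)) (l 16689328)) (c (l 16708376) (l 16705728)))) (a (a (b (c (l 16713808) (l 16700888)) (l 16694224)) (b (l 16692584) (l 16684624))) (a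 (l 16678968) (l 16669280)))) (a (b (a (l 16682384) (l 16672760)) (l 16661920)) (b (a (l 16663112) (l 16653416)) (l 16663568))))) (b (a (a (b (a (l 16688880) (l 16679944)) (l 16668464)) (b (l 16686808) (l 16650424))) (a (l 16659872) (l 16619544))) (a (a (b (l 16652592) (l 16636808)) (l 16648056)) (a (l 16628888) (l 16588784))))) (b (a (b (a (b (a (l 16696480) (l 16665576)) (a (l 16659488) (l 16649568))) (b (a (l 16655480) (l 16645200)) (l 16655384))) (a (b (l 16659680) (a (l 16627984) (l 16618128))) (l 16616088))) (a (b (b (l 16650328) (l 16592552)) (l 16590176)) (b (l 16609920) (l 16568712)))) (a (b (a (l 16600080) (l 16580280)) (a (l 16569368) (l 16549736))) (b (l 16570520) (l 16540592))))), by decide +kernel⟩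

def k8_pm_011 : ∃ t, chk3 f_pm_011 t 3 6 1 = true :=
  ⟨(a (b (l 3) (a (l 3) (a (l 3) (b (l 3) (b (l 3) (b (a (l 3) (a (l 3) (c (l 129955947719) (l 104186157639)))) (a (c (a (l 16603272) (l 16592984)) (l 16595472)) (c (a (b (l 16588080) (l 16578576)) (l 58015219831)) (l 40835390775))))))))) (b (l 1) (a (b (l 1) (a (a (a (b (l 1) (b (l 1) (b (l 1) (l 68752608695)))) (l 1)) (l 1)) (l 1))) (l 1)))), by decide +kernel⟩

def k9_pm_011 : ∃ t, chk3 f_pm_011 t 6 14 1 = true :=
  ⟨(a (b (a (b (l 3) (b (l 3) (a (a (l 3) (b (l 3) (l 16656104))) (a (b (l 3) (l 16643952)) (b (l 56002085591) (l 16631808)))))) (b (a (l 3) (a (l 3) (b (l 3) (b (l 3) (a (l 16621464) (l 16615328)))))) (a (b (b (a (l 3) (l 19494848343)) (a (l 36674727735) (c (l 16625784) (l 16624056)))) (a (b (l 31842871367) (l 16619680)) (c (l 16633488) (l 16611064)))) (b (a (b (a (l 16624680) (l 16618528)) (l 16612712)) (c (l 16626696) (l 16625096))) (c (l 16615144) (l 16624352)))))) (a (b (a (a (b (b (l 16659264)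 (l 16650544)) (l 16637896)) (b (b (l 16647264) (l 16638704)) (l 16626080))) (b (a (b (l 16635272) (l 16626768)) (l 16639936)) (l 16608184))) (a (b (l 16615600) (l 16599600)) (l 16604584))) (b (a (b (b (l 16626016) (l 16617552)) (l 16584048)) (b (l 16597472) (l 16559816))) (a (l 16581272) (l 16537600))))) (b (a (b (a (a (b (l 3) (c (l 16632672) (l 16620368))) (b (l 62444472519) (c (l 16599760) (l 16597936)))) (a (b (a (l 16608448) (l 16602680)) (l 16587232)) (b (l 16594216) (l 16575944)))) (a (b (a (l 16613856) (l 16581016)) (l 16590464)) (c (l 16597568) (l 16596144)))) (b (b (a (a (l 16583312) (l 16572912)) (c (a (l 16564504) (l 16555400)) (l 16556792))) (a (c (l 16560880) (l 16558624)) (c (l 16541376) (l 16538520)))) (a (b (l 16562840) (l 16545320)) (b (l 16553392) (l 16525248))))) (a (b (a (l 16565056) (l 16541800)) (l 16551536)) (a (b (l 16509280) (l 16467112)) (b (a (l 16472888) (l 16494672)) (l 16445232)))))), by decide +kernel⟩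

def k10_pm_011 : ∃ t, chk3 f_pm_011 t 6 15 1 = true :=
  ⟨(a (b (a (b (a (l 16576576) (l 16555216)) (l 16558224)) (b (l 16554080) (b (l 16502432) (l 16551800)))) (a (b (l 16529608) (l 16480032)) (b (a (l 16478048) (l 16458216)) (l 16462184)))) (b (a (b (l 16499512) (l 16452704)) (b (a (l 16443624) (l 16418688)) (l 16407880))) (a (b (l 16448672) (l 16402784)) (b (l 16426968) (l 16362648))))), by decide +kernel⟩

def k11_pm_011 : ∃ t, chk3 f_pm_011 t 7 7 1 = true :=
  ⟨(b (a (a (a (b (b (b (c (a (l 16546776) (l 78416248791)) (l 16538816)) (a (l 16547424) (l 53183276711))) (c (b (l 16526552) (l 16487520)) (l 16514416))) (b (c (l 16482008) (l 16479840)) (l 16447224))) (b (b (c (b (l 1) (l 124587068791)) (l 84858710567)) (b (a (l 42982678535) (l 121365820503)) (c (a (l 16475424) (l 89153527175)) (l 16468088)))) (b (a (l 16478784) (b (l 16469352) (l 16430816))) (l 16450720)))) (a (b (a (a (b (l 1) (b (l 1) (l 107407108295))) (l 1)) (l 1)) (b (a (b (l 87005994599)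 (l 16423576)) (b (l 125123792311) (a (l 107407043447) (l 156799161975)))) (c (l 16436840) (l 16392168)))) (b (l 1) (b (b (l 1) (l 204043761863)) (l 90764034503))))) (b (l 1) (a (b (l 1) (l 129955612951)) (l 1)))) (a (b (a (a (l 16403312) (l 16379896)) (b (l 16393800) (l 16318528))) (a (l 16349152) (l 16295904))) (b (a (b (l 68752254679) (l 16331016)) (b (l 1) (l 16321168))) (a (l 16323752) (b (l 16244552) (l 16190688)))))), by decide +kernel⟩

theorem s12_pm_011 : ∃ t, chk3 f_pm_011 t 6 7 1 = true := ex3_b k9_pm_011 k10_pm_011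

theorem s13_pm_011 : ∃ t, chk3 f_pm_011 t 3 7 1 = true := ex3_a s12_pm_011 k11_pm_011

theorem s14_pm_011 : ∃ t, chk3 f_pm_011 t 3 3 1 = true := ex3_b k8_pm_011 s13_pm_011

theorem s15_pm_011 : ∃ t, chk3 f_pm_011 t 5 7 1 = true := ex3_b k6_pm_011 k7_pm_011

theorem s16_pm_011 : ∃ t, chk3 f_pm_011 t 4 31 1 = true := ex3_a k4_pm_011 k5_pm_011

theorem s17_pm_011 : ∃ t, chk3 f_pm_011 t 4 15 1 = true := ex3_b k3_pm_011 s16_pm_011

theorem s18_pm_011 : ∃ t, chk3 f_pm_011 t 4 7 1 = true := ex3_b k2_pm_011 s17_pm_011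

theorem s19_pm_011 : ∃ t, chk3 f_pm_011 t 2 7 1 = true := ex3_a s18_pm_011 s15_pm_011

theorem s20_pm_011 : ∃ t, chk3 f_pm_011 t 2 3 1 = true := ex3_b k1_pm_011 s19_pm_011

theorem s21_pm_011 : ∃ t, chk3 f_pm_011 t 1 3 1 = true := ex3_a s20_pm_011 s14_pm_011

theorem s22_pm_011 : ∃ t, chk3 f_pm_011 t 1 1 1 = true := ex3_b k0_pm_011 s21_pm_011

theorem c_pm_011 : CertB 0 536870912 536870912 536870912 649613803 48318383 3 eng mog cd0q0 cd7q1 pd1 true true false .pnn 0 1 1
    ndB0q0 ndB7q1 pcB1 cut_pm_011 Ext.none :=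
  certB1 (fam := true) (s1 := true) (s2 := false) (a := 0) (b := 1) (c := 1) (cn := .pnn) (n1 := ndB0q0) (n2 := ndB7q1) (pc := pcB1) (cut := cut_pm_011) (xt := Ext.none) (P1 := 0) (W1 := 536870912) (P2 := 536870912) (W2 := 536870912) (P3 := 649613803) (W3 := 48318383) (N0 := 3) (En := eng) (mo := mog) (C1 := cd0q0) (C2 := cd7q1) (C3 := pd1)
    rfl (fun _ => rfl) s22_pm_011

noncomputable def cut_pm_012 : Cut := Cut.of [[⟨0, 0, 0, 67108864⟩, ⟨1, 1, 0, 67108864⟩, ⟨2, 1, 0, 67108864⟩]]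

noncomputable def f_pm_012 : ℕ → ℕ → ℕ → ℕ → Bool := onCell 1073741824 536870912 536870912 536870912 649613803 48318383
    (rowB 3 eng mog cd0q0 cd7q1 pd2 2 true true false .pnp 0 1 2 (qsf 0 536870912 536870912 536870912 2) ndB0q0 ndB7q1 pcB2 cut_pm_012 Ext.none)

def k0_pm_012 : ∃ t, chk3 f_pm_012 t 4 2 1 = true :=
  ⟨(b (a (b (b (a (a (l 16112824) (l 16088512)) (l 16015528)) (a (l 16212024) (l 16099304))) (a (b (a (l 16206096) (l 16169272)) (a (l 16262192) (l 16228264))) (b (l 16116720) (l 16178048)))) (b (a (b (l 2) (l 15985744)) (l 2)) (a (b (l 16045648) (l 16102120)) (b (l 15971136) (l 16027864))))) (a (b (a (b (a (l 16312208) (l 16340992)) (a (l 16455352) (l 16404336))) (b (c (l 16350664) (l 16351544)) (a (l 16285344) (l 16250248)))) (a (b (a (b (l 16386240) (l 16406304)) (l 16401056)) (a (l 16457368) (l 16459616))) (b (a (l 16322592) (l 16286624)) (a (l 16378912) (l 16320144))))) (b (a (b (l 16321456) (a (l 16214616) (l 16178952))) (b (l 16162744)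 (l 16292120))) (a (b (a (l 16251096) (l 16215768)) (a (l 16283312) (l 16247248))) (b (l 16330232) (l 16278312)))))), by decide +kernel⟩

def k1_pm_012 : ∃ t, chk3 f_pm_012 t 8 3 1 = true :=
  ⟨(b (b (a (a (b (l 16497704) (l 16537896)) (b (b (l 16424832) (l 16443568)) (l 16534464))) (a (b (l 16413696) (l 16469104)) (b (l 16352344) (l 16384040)))) (b (a (a (a (l 16567992) (l 16543880)) (l 16539520)) (a (b (l 16452544) (l 16469696)) (l 16436400))) (a (a (b (l 16585568) (l 16626096)) (l 16566592)) (a (b (l 16487752) (l 16505496)) (l 16490744))))) (b (a (a (b (a (b (l 16632880) (l 16650672)) (l 16641536)) (a (b (l 16670400) (b (l 16681776) (l 16689368))) (a (l 16673192) (l 16670208)))) (b (b (l 16573024) (l 16590600)) (b (l 16628536) (b (l 16619880) (l 16627880))))) (b (a (b (l 16522752) (l 16560384)) (b (l 16473464) (l 16489248))) (a (b (l 16576416) (a (l 16583984) (l 16557688))) (b (l 16504360) (l 16518792))))) (a (b (a (b (a (a (b (l 16704408) (l 6)) (l 16699312))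 (l 16691312)) (a (l 6) (b (l 16692616) (l 6)))) (b (a (a (l 16681112) (l 16646408)) (l 16646936)) (a (b (l 16685696) (l 16682584)) (b (l 16637064) (l 16644216))))) (a (l 6) (b (a (l 6) (b (l 16651160) (l 6))) (l 6)))) (b (a (b (a (l 16598912) (l 16572128)) (a (l 16628872) (l 16585832))) (b (l 16553456) (a (l 16558832) (l 16532128)))) (b (a (a (b (l 16623272) (l 16629760)) (b (l 16595608) (l 16601864))) (b (l 16575608) (a (l 16574248) (l 16546896)))) (a (b (a (l 6) (l 16607888)) (l 6)) (b (a (l 16580040) (l 16552448)) (a (l 16603944) (l 16557768))))))))), by decide +kernel⟩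

def k2_pm_012 : ∃ t, chk3 f_pm_012 t 9 3 1 = true :=
  ⟨(b (b (a (b (a (l 16313328) (l 16275552)) (a (l 16342392) (l 16302088))) (b (a (l 16238960) (l 16203440)) (a (l 16263432) (l 16226320)))) (a (b (a (l 16412920) (l 16328056)) (a (l 16402160) (l 16356816))) (b (a (l 16286864) (l 16247328)) (a (l 16313000) (l 16271000))))) (b (b (a (a (l 16474712) (l 16406312)) (a (l 16339320) (l 16294824))) (a (a (b (l 16454376) (l 16467872)) (b (l 16405504) (l 16418112))) (a (b (l 16357872) (l 16369528)) (b (l 16311696) (l 16322248))))) (b (a (a (b (l 16480624) (l 16513536)) (b (l 16429912) (l 16440896))) (a (b (l 16380400) (l 16390392)) (b (l 16332104) (l 16341096)))) (a (b (a (b (l 16500992) (l 16506360)) (b (l 16448544) (l 16453384))) (a (b (l 16532480) (a (l 16530152) (l 16502832))) (b (l 16478976) (a (l 16475832) (l 16449072))))) (b (a (b (l 16397288) (l 16401600)) (a (l 16361632) (l 16336768))) (a (b (l 16405664) (a (l 16422640) (l 16396488))) (a (l 16368952) (l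 16364496)))))))), by decide +kernel⟩

def k3_pm_012 : ∃ t, chk3 f_pm_012 t 5 2 1 = true :=
  ⟨(b (a (a (a (b (l 2) (b (l 2) (l 15970664))) (l 2)) (l 2)) (l 2)) (a (a (b (a (l 16213208) (a (l 16100800) (a (l 16044944) (l 16141392)))) (a (b (l 16108544) (l 16141912)) (a (l 16225424) (b (l 16065672) (l 16185608))))) (b (a (l 16115960) (l 16039624)) (b (l 16027000) (l 16126208)))) (b (a (b (l 2) (l 15983480)) (l 2)) (a (l 16194864) (l 16127616))))), by decide +kernel⟩

def k4_pm_012 : ∃ t, chk3 f_pm_012 t 5 3 1 = true :=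
  ⟨(b (a (b (a (a (b (l 16168920) (l 16190776)) (a (b (l 16143664) (l 16165176)) (a (l 16142936) (a (l 16137480) (l 16176504))))) (b (l 16175568) (l 16217656))) (a (a (b (l 16209824) (l 16231072)) (a (b (l 16183056) (l 16202520)) (b (a (l 16170408) (l 16205600)) (a (l 16189024) (l 16286328))))) (b (a (l 16141984) (l 16114704)) (a (l 16158880) (l 16128496))))) (b (b (a (l 16060928) (l 16041704)) (a (l 16075440) (l 16048968))) (b (a (l 16084176) (l 16051008)) (a (l 16092072) (l 16052624))))) (a (b (a (a (b (l 16294104) (b (l 16267176) (l 16276512))) (a (b (l 16221632) (l 16239312)) (b (a (l 16207032) (a (l 16200136) (l 16195944))) (a (l 16223520) (a (l 16215856) (l 16210960)))))) (b (a (l 16174472) (l 16140392)) (a (l 16208968) (l 16150080)))) (a (a (b (b (l 16285168) (l 16293040)) (b (a (l 16312184) (l 16287888)) (a (l 16339328) (l 16293456)))) (a (b (l 16296536) (b (l 16263840) (c (l 16279688) (l 16257432)))) (b (a (l 16237576) (a (l 16229088) (b (l 16220544)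 (l 16225936)))) (a (b (l 16245896) (l 16250144)) (a (b (l 16236760) (l 16240552)) (b (l 16230376) (c (a (l 16289408) (l 16244584)) (l 16221128)))))))) (b (a (b (l 16196592) (l 16201320)) (l 16157440)) (a (b (l 16205080) (a (l 16219192) (l 16196440))) (b (l 16160880) (l 16161968)))))) (b (b (a (b (l 16096416) (l 16098376)) (l 16050640)) (a (b (l 16099704) (l 16100480)) (b (l 16046760) (l 16043152)))) (b (a (b (l 16100632) (a (l 16118944) (l 16082312))) (b (l 16038824) (l 16117720))) (a (b (a (l 16118912) (l 16080104)) (a (l 16118032) (l 16077128))) (b (a (l 16044624) (l 16012680)) (a (l 16039480) (l 16047216)))))))), by decide +kernel⟩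

def k5_pm_012 : ∃ t, chk3 f_pm_012 t 3 1 1 = true :=
  ⟨(b (a (b (l 2) (a (b (l 2) (a (l 16032880) (l 2))) (l 2))) (l 2)) (b (a (a (b (a (l 16031896) (l 16028816)) (b (a (l 16026448) (l 16010824)) (a (l 16022280) (l 16001064)))) (b (a (l 16040736) (l 2)) (a (b (l 16006872) (l 15989856)) (b (l 16023808) (l 15996424))))) (a (b (l 2) (a (l 16036616) (l 2))) (l 2))) (a (b (a (b (a (l 16014784) (l 15988376)) (a (b (l 16005984) (l 15998792)) (l 15971336))) (a (b (l 15971928) (l 15992024)) (b (l 15970296) (l 15942552)))) (a (b (a (b (l 15990592) (l 16065368)) (b (l 15955040) (l 15942688))) (a (b (a (l 15984360) (l 15959648)) (a (l 15995680) (l 15947880))) (b (a (l 15938464) (l 15920664)) (a (l 15945712) (l 15905192))))) (b (a (a (l 15928872) (l 15919320)) (b (l 15919368) (l 15902240))) (a (a (b (l 15906032) (l 15889080)) (b (l 15894720) (l 15876504))) (b (l 15947328) (a (l 15867656) (l 15861952))))))) (a (b (a (b (l 15984208) (l 15947848)) (b (l 16012496) (l 15969256)))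 (b (a (a (l 15909392) (l 15911424)) (l 15923416)) (a (b (l 15879712) (a (l 15858944) (l 15857864))) (b (l 15886640) (a (l 15860064) (l 15865480)))))) (b (a (b (l 2) (l 16003432)) (l 2)) (b (a (c (l 16018432) (l 15889136)) (l 15994960)) (b (a (l 15911384) (l 15952224)) (a (l 15882360) (c (l 15996064) (l 15847840)))))))))), by decide +kernel⟩

theorem s6_pm_012 : ∃ t, chk3 f_pm_012 t 5 1 1 = true := ex3_b k3_pm_012 k4_pm_012

theorem s7_pm_012 : ∃ t, chk3 f_pm_012 t 4 3 1 = true := ex3_a k1_pm_012 k2_pm_012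

theorem s8_pm_012 : ∃ t, chk3 f_pm_012 t 4 1 1 = true := ex3_b k0_pm_012 s7_pm_012

theorem s9_pm_012 : ∃ t, chk3 f_pm_012 t 2 1 1 = true := ex3_a s8_pm_012 s6_pm_012

theorem s10_pm_012 : ∃ t, chk3 f_pm_012 t 1 1 1 = true := ex3_a s9_pm_012 k5_pm_012

theorem c_pm_012 : CertB 0 536870912 536870912 536870912 649613803 48318383 3 eng mog cd0q0 cd7q1 pd2 true true false .pnp 0 1 2
    ndB0q0 ndB7q1 pcB2 cut_pm_012 Ext.none :=
  certB2 (fam := true) (s1 := true) (s2 := false) (a := 0) (b := 1) (c := 2) (cn := .pnp) (n1 := ndB0q0) (n2 := ndB7q1) (pc := pcB2) (cut := cut_pm_012) (xt := Ext.none) (P1 := 0) (W1 := 536870912) (P2 := 536870912) (W2 := 536870912) (P3 := 649613803) (W3 := 48318383) (N0 := 3) (En := eng) (mo := mog) (C1 := cd0q0) (C2 := cd7q1) (C3 := pd2)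
    rfl (fun _ => rfl) s10_pm_012

noncomputable def f_pm_022 : ℕ → ℕ → ℕ → ℕ → Bool := onCell 1073741824 536870912 1073741824 536870912 649613803 48318383
    (rowB 3 eng mog cd0q0 cd7q2 pd2 2 true true false .pp 0 2 2 (qsf 0 536870912 1073741824 536870912 2) ndB0q0 ndB7q2 pcB2 Cut.none Ext.none)

def k0_pm_022 : ∃ t, chk3 f_pm_022 t 4 1 1 = true :=
  ⟨(b (a (l 3) (b (a (l 3) (a (l 3) (b (a (b (a (l 3) (b (l 16512080) (l 3))) (l 3)) (b (a (b (a (l 16482360) (l 16476160)) (a (l 16491592) (l 16485568))) (b (a (l 16470032) (l 16464144)) (a (l 16479504) (l 16473488)))) (a (b (l 16496328) (l 3)) (b (a (l 16487888) (l 16481944)) (l 16492000))))) (a (l 3) (b (a (l 3) (b (l 16498344) (l 3))) (l 3)))))) (l 3))) (l 1)), by decide +kernel⟩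

def k1_pm_022 : ∃ t, chk3 f_pm_022 t 20 4 1 = true :=
  ⟨(a (b (a (b (a (b (l 16455800) (a (l 16467680) (l 16462176))) (b (l 16445024) (l 16454200))) (a (b (a (l 16476024) (l 16470296)) (a (l 16483576) (l 16477736))) (a (l 16489600) (l 16463424)))) (b (a (b (l 16434608) (l 16444000)) (b (l 16423768) (l 16433520))) (a (l 16456064) (l 16445920)))) (a (a (b (b (a (l 16490192) (l 16484456)) (l 16492784)) (b (l 16497696) (l 3))) (b (a (b (l 16478656) (l 16484656)) (l 16497224)) (a (b (l 16489880) (l 16494320)) (l 16507696)))) (a (a (b (l 16471248) (l 16481384)) (b (l 16466432) (l 16476304))) (b (l 16459112) (a (l 16471432) (l 16466624)))))) (a (b (a (b (b (l 16412672) (l 16422712)) (b (l 16431608) (l 16439456))) (b (l 16428040) (l 16425328))) (a (b (l 16470304) (l 16480608)) (b (l 16460664) (l 16471504)))) (a (b (b (a (l 16398528) (l 16392488)) (a (l 16417032) (l 16411136))) (b (l 16470760) (a (l 16443184) (l 16437584)))) (b (a (a (b (l 16387608) (l 16406336))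 (b (b (c (l 16387016) (l 16369752)) (l 16388936)) (l 16402640))) (a (b (a (a (b (l 16375920) (l 16386232)) (a (b (l 16375136) (l 16385104)) (a (a (b (l 16374840) (l 16384504)) (b (l 16374656) (l 16384184))) (l 16379432)))) (l 16378712)) (a (a (l 16399944) (a (l 16398784) (b (l 16393376) (l 16401768)))) (l 16396664))) (b (b (l 16371912) (l 16381376)) (l 16394768)))) (a (b (l 16482240) (l 16473048)) (a (a (a (b (l 16414992) (l 16426848)) (a (b (l 16413840) (l 16425712)) (b (l 16412776) (l 16424680)))) (b (l 16411744) (l 16423656))) (b (l 16409864) (l 16421792)))))))), by decide +kernel⟩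

def k2_pm_022 : ∃ t, chk3 f_pm_022 t 21 4 1 = true :=
  ⟨(b (b (a (b (l 16361192) (l 16360232)) (b (c (l 16325200) (l 16300520)) (l 16322464))) (b (a (l 16369192) (l 16331184)) (a (l 16377696) (l 16339680)))) (b (b (l 16408032) (l 16414936)) (a (l 16401016) (l 16363376)))), by decide +kernel⟩

def k3_pm_022 : ∃ t, chk3 f_pm_022 t 11 4 1 = true :=
  ⟨(b (a (b (b (a (b (l 16275272) (l 16280376)) (b (l 16243368) (l 16248360))) (a (l 16287432) (l 16255256))) (b (a (l 16295872) (l 16263408)) (a (l 16304088) (l 16271096)))) (b (b (a (l 16238120) (l 16191752)) (a (l 16226104) (l 16200128))) (b (a (l 16233920) (l 16207456)) (a (l 16240952) (l 16213832))))) (a (b (b (l 16294856) (l 16301720)) (a (l 16327744) (l 16294232))) (b (a (l 16251232) (l 16223048)) (c (l 16258944) (l 16238152))))), by decide +kernel⟩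

def k4_pm_022 : ∃ t, chk3 f_pm_022 t 5 5 1 = true :=
  ⟨(b (b (a (a (a (a (a (l 3) (b (a (l 3) (l 16492800)) (l 1))) (a (a (b (l 16487568) (l 1)) (l 16486704)) (a (b (l 16477216) (l 1)) (l 16489768)))) (a (a (a (l 16490248) (l 16464984)) (l 16458456)) (a (a (l 16451536) (l 16467408)) (a (c (l 16441408) (l 16460608)) (a (a (a (l 16436016) (c (l 16457208) (l 16454024))) (l 16432888)) (l 16431056)))))) (a (l 16410496) (l 16373136))) (a (a (l 16337576) (l 16303904)) (a (l 16272184) (l 16242616)))) (a (a (a (l 1) (a (l 1) (a (l 1) (a (l 1) (a (l 1) (b (l 16436296) (l 1))))))) (b (a (l 16415976) (l 16378944)) (c (a (l 16423776) (l 16388496)) (l 16445896)))) (a (b (l 16326424) (l 16355640)) (b (l 16262632) (l 16271224))))) (a (a (l 1) (b (b (l 150893852023) (l 1)) (l 1))) (a (b (a (l 16466488) (b (l 16305720) (l 16331040))) (l 368326338183)) (b (b (l 16280408) (l 16306792)) (b (l 16286912) (l 16302040)))))), by decide +kernel⟩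

def k5_pm_022 : ∃ t, chk3 f_pm_022 t 5 3 1 = true :=
  ⟨(a (l 1) (b (b (b (a (l 1) (l 485363911047)) (l 1)) (l 1)) (l 1))), by decide +kernel⟩

def k6_pm_022 : ∃ t, chk3 f_pm_022 t 6 2 1 = true :=
  ⟨(b (a (b (a (b (a (b (b (l 16167800) (l 16171848)) (l 16177480)) (b (a (l 16155784) (l 16147312)) (l 16158256))) (a (b (l 16184152) (l 16189888)) (c (l 16189568) (l 16145024)))) (b (b (a (l 16135752) (l 16122632)) (a (l 16141840) (l 16128024))) (b (a (l 16147184) (l 16132608)) (a (l 16151704) (l 16136528))))) (a (b (a (b (l 16195096) (l 16200256)) (b (l 16215592) (l 16177832))) (a (l 16207320) (l 16204664))) (b (b (c (l 16169984) (l 16125640)) (c (l 16171040) (l 16130480))) (b (l 16152848) (l 16155200))))) (b (b (a (b (a (l 16112080) (l 16104016)) (a (l 16116688) (l 16107824))) (b (a (l 16098264) (l 16094616)) (l 16098912))) (a (b (a (l 16120616) (l 16111008)) (l 16160080)) (b (l 16100992) (l 16102464)))) (b (a (b (l 16120432) (a (l 16128032) (l 16116336))) (b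 (l 16103280) (l 16102984))) (a (b (l 16122656) (l 16122984)) (b (l 16102600) (l 16101136)))))) (b (a (b (a (a (l 16215152) (l 16190296)) (c (l 16173024) (l 16144720))) (a (b (c (l 16217232) (l 16197824)) (l 16278168)) (b (l 16160656) (l 16168368)))) (b (a (l 16206992) (l 16097712)) (a (b (l 16122784) (l 16129320)) (b (l 16094352) (l 16099128))))) (a (b (a (a (l 16241424) (l 16215680)) (l 16180696)) (a (l 16371360) (l 16185112))) (b (a (l 16140920) (l 16109136)) (a (l 16270176) (l 16111720)))))), by decide +kernel⟩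

def k7_pm_022 : ∃ t, chk3 f_pm_022 t 7 2 1 = true :=
  ⟨(b (a (b (a (b (a (b (l 16092632) (l 16094480)) (l 16092000)) (a (l 16096128) (l 16093840))) (b (b (l 16090256) (l 16091128)) (l 16134792))) (a (b (a (l 16095848) (l 16093016)) (a (l 16092280) (l 16089024))) (b (l 16091416) (l 16086848)))) (b (b (a (b (l 16093904) (l 16094144)) (a (l 16101232) (a (l 16107208) (l 16154096)))) (a (b (l 16094352) (l 16093920)) (b (l 16100736) (l 16099848)))) (a (b (l 16093688) (l 16088904)) (b (l 16202952) (l 16095136))))) (b (a (b (a (l 16167184) (l 16077936)) (a (l 16140616) (l 16069904))) (b (a (l 16080280) (l 16087024)) (a (l 16112728) (l 16079152)))) (a (b (a (l 16086840) (l 16075160)) (a (l 16087408) (l 16073048))) (b (a (l 16075312) (l 16083632)) (a (l 16069768) (l 16078688)))))), by decide +kernel⟩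

def k8_pm_022 : ∃ t, chk3 f_pm_022 t 3 3 1 = true :=
  ⟨(b (a (b (b (a (a (b (l 16224960) (l 301753913447)) (l 16173720)) (a (l 16132456) (l 16099216))) (a (a (l 503617312631) (l 326449833927)) (a (l 16123752) (l 16078888)))) (a (b (a (l 1) (l 306048705143)) (l 1)) (b (b (l 263098850535) (l 227128609671)) (a (l 316786159255) (l 16080296))))) (b (a (b (a (l 16074584) (l 16058536)) (l 16181392)) (b (l 16054264) (l 16002720))) (a (b (a (l 16045760) (l 16005160)) (a (l 16057856) (l 16032616))) (b (l 15970904) (l 15988616))))) (a (b (a (l 1) (b (l 366714973351) (l 1))) (l 1)) (b (a (b (l 197063865063) (l 348998417559)) (b (l 16025736) (l 16049576))) (a (a (l 1) (l 424697267223)) (l 373157660711))))), by decide +kernel⟩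

theorem s9_pm_022 : ∃ t, chk3 f_pm_022 t 3 2 1 = true := ex3_a k6_pm_022 k7_pm_022

theorem s10_pm_022 : ∃ t, chk3 f_pm_022 t 3 1 1 = true := ex3_b s9_pm_022 k8_pm_022

theorem s11_pm_022 : ∃ t, chk3 f_pm_022 t 10 4 1 = true := ex3_a k1_pm_022 k2_pm_022

theorem s12_pm_022 : ∃ t, chk3 f_pm_022 t 5 4 1 = true := ex3_a s11_pm_022 k3_pm_022

theorem s13_pm_022 : ∃ t, chk3 f_pm_022 t 5 2 1 = true := ex3_b s12_pm_022 k4_pm_022

theorem s14_pm_022 : ∃ t, chk3 f_pm_022 t 5 1 1 = true := ex3_b s13_pm_022 k5_pm_022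

theorem s15_pm_022 : ∃ t, chk3 f_pm_022 t 2 1 1 = true := ex3_a k0_pm_022 s14_pm_022

theorem s16_pm_022 : ∃ t, chk3 f_pm_022 t 1 1 1 = true := ex3_a s15_pm_022 s10_pm_022

theorem c_pm_022 : CertB 0 536870912 1073741824 536870912 649613803 48318383 3 eng mog cd0q0 cd7q2 pd2 true true false .pp 0 2 2
    ndB0q0 ndB7q2 pcB2 Cut.none Ext.none :=
  certB2 (fam := true) (s1 := true) (s2 := false) (a := 0) (b := 2) (c := 2) (cn := .pp) (n1 := ndB0q0) (n2 := ndB7q2) (pc := pcB2) (cut := Cut.none) (xt := Ext.none) (P1 := 0) (W1 := 536870912) (P2 := 1073741824) (W2 := 536870912) (P3 := 649613803) (W3 := 48318383) (N0 := 3) (En := eng) (mo := mog) (C1 := cd0q0) (C2 := cd7q2) (C3 := pd2)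
    rfl (fun _ => rfl) s16_pm_022

noncomputable def f_pm_023 : ℕ → ℕ → ℕ → ℕ → Bool := onCell 0 536870912 1073741824 536870912 649613803 48318383
    (rowB 3 eng mog cd0q0 cd7q2 pd3 0 true true false .up 0 2 3 (qsf 0 536870912 1073741824 536870912 3) ndB0q0 ndB7q2 pcB3 Cut.none Ext.none)

def k0_pm_023 : ∃ t, chk3 f_pm_023 t 1 1 1 = true :=
  ⟨(a (b (a (l 1) (b (l 1) (b (l 1) (a (l 1) (l 316786209495))))) (a (b (b (l 1) (a (l 1) (l 266320157447))) (a (l 324302658023) (l 272226189623))) (b (b (a (l 279741913239) (l 16177736)) (a (l 16059360) (l 15953160))) (a (l 16072256) (l 16080864))))) (b (a (b (a (l 1) (b (l 1) (a (l 1) (l 16144280)))) (b (a (a (l 1) (l 243235104087)) (a (l 193842926567) (l 16081800))) (a (l 180958158759) (l 16112632)))) (b (a (b (a (l 1) (l 99353600119)) (a (l 16082064) (l 16083888))) (b (a (l 95595499335) (a (l 16082784) (b (l 16085648) (l 16096776)))) (a (l 16090456) (b (l 16102144) (l 16114576))))) (a (b (b (l 16087600) (l 16096704))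 (b (l 16295080) (l 16155120))) (a (b (b (l 16103280) (l 16117632)) (l 16161264)) (b (b (a (l 16120944) (l 16137304)) (a (l 16136176) (l 16147872))) (b (l 16163000) (l 16213840))))))) (a (b (a (b (l 16080416) (l 16051320)) (b (l 16351696) (l 16159608))) (a (l 16270016) (l 16414304))) (b (a (b (a (l 16176720) (l 16199888)) (l 16310936)) (b (a (l 16253488) (l 16297904)) (a (l 16378112) (l 16415088)))) (a (b (l 16448392) (l 16551584)) (b (a (l 16498416) (l 16526712)) (b (l 16517544) (a (l 16606240) (a (l 16620992) (b (l 16623928) (a (l 16636472) (b (l 16638112) (b (l 16643616) (l 16814304)))))))))))))), by decide +kernel⟩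

theorem c_pm_023 : CertB 0 536870912 1073741824 536870912 649613803 48318383 3 eng mog cd0q0 cd7q2 pd3 true true false .up 0 2 3
    ndB0q0 ndB7q2 pcB3 Cut.none Ext.none :=
  certB0 (fam := true) (s1 := true) (s2 := false) (a := 0) (b := 2) (c := 3) (cn := .up) (n1 := ndB0q0) (n2 := ndB7q2) (pc := pcB3) (cut := Cut.none) (xt := Ext.none) (P1 := 0) (W1 := 536870912) (P2 := 1073741824) (W2 := 536870912) (P3 := 649613803) (W3 := 48318383) (N0 := 3) (En := eng) (mo := mog) (C1 := cd0q0) (C2 := cd7q2) (C3 := pd3)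
    rfl k0_pm_023

noncomputable def f_pm_033 : ℕ → ℕ → ℕ → ℕ → Bool := onCell 1610612736 536870912 0 1230186008 649613803 48318383
    (rowB 3 eng mog cd0q0 cd7q3 pd3 2 true true false .pnn 0 3 3 (qsf 0 536870912 0 1230186008 3) ndB0q0 ndB7q3 pcB3 Cut.none Ext.none)

def k0_pm_033 : ∃ t, chk3 f_pm_033 t 1 1 1 = true :=
  ⟨(a (b (l 1) (a (b (l 1) (b (l 1) (b (a (l 1) (l 16076776)) (a (l 299606482711) (l 16102720))))) (b (a (l 1) (b (l 1) (b (l 1) (a (l 1) (l 355978250311))))) (b (a (b (b (l 1) (l 404832855255)) (l 328597327063)) (b (a (l 374768738247) (l 16209784)) (a (l 16191264) (l 16221744)))) (b (a (l 16127248) (l 16221952)) (a (l 16130632) (l 16255928))))))) (b (a (l 1) (a (b (l 1) (b (l 4) (a (l 16365448) (l 4)))) (l 4))) (b (a (a (b (l 1) (b (a (l 397854345719) (l 16277528)) (a (l 16244816) (l 16278432)))) (b (a (b (l 1) (l 16318832)) (b (l 16360024) (l 16412576))) (b (a (l 16313312) (l 16359216)) (a (l 16312912) (l 16357688))))) (a (b (a (l 57478596551)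 (l 16412560)) (a (b (l 16395736) (l 16412816)) (b (l 16442712) (l 16453504)))) (a (b (l 16436200) (a (l 16477352) (l 16491128))) (a (b (l 4) (l 16503968)) (l 4))))) (b (a (a (b (a (l 16238328) (l 16279200)) (a (l 16255224) (l 16300120))) (b (a (l 16322160) (l 16371224)) (l 16584496))) (a (b (a (l 16424448) (l 16471200)) (a (l 16454440) (l 16509824))) (a (b (l 16525464) (l 16555216)) (a (b (l 16557352) (l 16590608)) (a (l 16581104) (b (l 4) (a (l 16604464) (l 16600664)))))))) (a (b (a (l 16321104) (l 16425056)) (a (l 16378648) (l 16486328))) (a (b (b (l 16512736) (l 16536680)) (l 16566888)) (a (b (l 16585344) (l 16608752)) (a (l 16615928) (a (l 16624288) (b (l 16623360) (l 16844192))))))))))), by decide +kernel⟩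

theorem c_pm_033 : CertB 0 536870912 0 1230186008 649613803 48318383 3 eng mog cd0q0 cd7q3 pd3 true true false .pnn 0 3 3
    ndB0q0 ndB7q3 pcB3 Cut.none Ext.none :=
  certB2 (fam := true) (s1 := true) (s2 := false) (a := 0) (b := 3) (c := 3) (cn := .pnn) (n1 := ndB0q0) (n2 := ndB7q3) (pc := pcB3) (cut := Cut.none) (xt := Ext.none) (P1 := 0) (W1 := 536870912) (P2 := 0) (W2 := 1230186008) (P3 := 649613803) (W3 := 48318383) (N0 := 3) (En := eng) (mo := mog) (C1 := cd0q0) (C2 := cd7q3) (C3 := pd3)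
    rfl (fun _ => rfl) k0_pm_033

noncomputable def f_pm_101 : ℕ → ℕ → ℕ → ℕ → Bool := onCell 536870912 536870912 536870912 536870912 649613803 48318383
    (rowB 3 eng mog cd0q1 cd7q0 pd1 1 true true false .npn 1 0 1 (qsf 536870912 536870912 0 536870912 1) ndB0q1 ndB7q0 pcB1 Cut.none Ext.none)

def k0_pm_101 : ∃ t, chk3 f_pm_101 t 2 2 1 = true :=
  ⟨(a (l 3) (b (a (b (l 1) (l 3)) (l 1)) (b (l 3) (b (l 3) (a (a (l 3) (b (l 3) (a (l 3) (b (l 3) (b (l 153176413863) (l 16967096)))))) (b (a (a (l 3) (c (l 163913798951) (l 248202485223))) (b (a (l 3) (l 1)) (c (l 16987232) (a (a (l 192367953735) (b (l 227264571351) (l 16995160))) (l 349536915495))))) (a (c (l 16922688) (b (a (l 140828360007) (l 62982086343)) (a (l 16949224) (l 16923024)))) (c (l 16922016) (a (l 16982680) (a (l 16950384) (l 16967160))))))))))), by decide +kernel⟩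

def k1_pm_101 : ∃ t, chk3 f_pm_101 t 2 6 1 = true :=
  ⟨(a (b (b (b (l 3) (a (l 3) (a (l 263234466823) (c (l 16813616) (b (l 16837320) (l 16825016)))))) (a (a (b (l 3) (a (l 101099415911) (l 16711688))) (b (a (l 3) (l 171966399159)) (a (l 16711096) (l 16710768)))) (a (b (a (l 16760544) (l 16764016)) (a (l 16712016) (l 16714728))) (b (l 16770864) (l 16720960))))) (a (b (a (b (l 16668040) (l 16623376)) (b (l 16664200) (l 16618224))) (a (b (a (l 16583792) (l 16575464)) (a (l 16539488) (l 16531992))) (b (l 16572432) (l 16525232)))) (b (a (b (l 16666336) (l 16620712)) (b (l 16673656) (l 16628280))) (a (b (l 16575368) (l 16528848)) (a (l 16558648) (l 16563360)))))) (b (a (b (a (b (c (a (l 197736301719) (l 151028522695)) (c (a (l 192367747383) (l 152639244823)) (a (b (l 3) (b (l 237464969671) (l 16895288))) (a (b (l 3) (b (l 144049435463) (l 16923408))) (b (l 234243823367) (l 16925992)))))) (c (a (l 16821656) (l 16826480)) (a (b (l 16874512) (l 16838616)) (b (c (l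 16870520) (l 16873424)) (l 16848928))))) (b (c (l 117205620295) (a (b (c (l 16920808) (l 140291327367)) (l 16862848)) (c (l 16900192) (l 16848544)))) (c (l 16867968) (a (b (l 16877496) (l 16851536)) (l 16857176))))) (a (b (l 16888592) (l 16732960)) (a (b (l 16857888) (l 16744992)) (b (l 16838616) (l 16752816))))) (b (a (b (c (l 16869896) (a (l 16820392) (l 16857416))) (l 16940064)) (a (b (c (l 16869168) (l 16895096)) (l 16832064)) (b (l 16940112) (l 16828024)))) (a (b (l 16824152) (a (l 16755712) (l 16754016))) (b (l 16788696) (l 16749984))))) (a (b (a (b (l 16684848) (l 16639712)) (l 16677800)) (a (l 16572776) (l 16588864))) (a (b (b (l 16713504) (l 16672112)) (l 16608104)) (b (b (l 16712680) (l 16678312)) (l 16665408)))))), by decide +kernel⟩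

def k2_pm_101 : ∃ t, chk3 f_pm_101 t 2 7 1 = true :=
  ⟨(a (b (a (b (a (b (a (l 16494536) (l 16486464)) (a (l 16470024) (l 16439904))) (a (l 16494088) (l 16450776))) (a (a (l 16390128) (l 16386792)) (c (l 16400880) (l 16339080)))) (a (b (l 16455776) (l 16346800)) (b (l 16466608) (l 16363944)))) (a (b (a (l 16287520) (l 16251712)) (a (l 16229936) (l 16155368))) (b (a (l 16229696) (l 16245456)) (a (l 16177392) (l 16105288))))) (a (b (a (b (l 16481616) (l 16382624)) (b (l 16500808) (l 16406168))) (a (b (l 16271864) (l 16140432)) (b (l 16299968) (l 16177256)))) (b (a (b (l 16523160) (l 16433608)) (b (l 16545016) (l 16459792))) (a (a (l 16267280) (l 16286168)) (l 16311560))))), by decide +kernel⟩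

def k3_pm_101 : ∃ t, chk3 f_pm_101 t 3 2 1 = true :=
  ⟨(a (b (l 1) (a (b (l 1) (b (l 1) (a (a (b (l 1) (b (l 1) (l 16954272))) (l 1)) (l 1)))) (l 1))) (l 1)), by decide +kernel⟩

def k4_pm_101 : ∃ t, chk3 f_pm_101 t 6 3 1 = true :=
  ⟨(b (b (a (b (b (a (a (l 16933720) (l 161095162839)) (l 1)) (a (a (l 16843272) (l 16857296)) (l 173979980567))) (a (a (l 16761664) (l 16754240)) (a (l 16766112) (l 59089469543)))) (a (a (b (l 1) (l 146599394471)) (l 1)) (l 1))) (a (a (b (l 16706568) (a (l 16624920) (l 16618832))) (b (a (l 16673040) (l 16662424)) (l 16605784))) (a (b (a (l 63384224487) (l 98817675815)) (b (l 16598192) (l 16569336))) (b (a (l 152504737863) (l 1)) (c (l 125124281463) (a (l 105796800551) (l 131029709895))))))) (b (b (a (a (l 16577000) (a (l 16552016) (l 16543032))) (a (l 16590248) (a (l 16509672) (l 16498448)))) (a (a (l 16477720) (l 16481040)) (a (a (l 16473504) (l 16463768)) (a (l 16453704) (l 16444392))))) (a (a (l 16337320) (a (l 16348512) (l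 16352656))) (a (b (l 16482152) (l 16305208)) (b (a (l 16391280) (l 16384056)) (a (l 16307712) (l 16307232))))))), by decide +kernel⟩

def k5_pm_101 : ∃ t, chk3 f_pm_101 t 7 3 1 = true :=
  ⟨(b (a (b (l 1) (b (l 1) (a (a (l 177737487703) (l 1)) (l 1)))) (l 1)) (a (b (a (b (a (b (l 16502432) (l 16475192)) (b (l 141766918423) (l 16467544))) (a (l 16436232) (b (l 16441232) (l 16415960)))) (b (a (c (l 111165368407) (l 127808274359)) (l 1)) (b (a (l 16435368) (l 107407031575)) (a (l 16409776) (l 16405672))))) (a (b (a (l 16378480) (l 16374288)) (a (l 16305952) (l 16304608))) (b (a (l 16371136) (b (l 16380592) (l 16355120))) (b (l 16324304) (l 16285600))))) (b (a (b (l 1) (a (b (l 1) (l 103111998935)) (l 1))) (l 1)) (b (a (a (b (l 16377992) (l 16353072)) (c (l 120292067927) (b (l 129418707895) (l 115459979879)))) (b (l 1) (a (c (l 16402080) (l 138008557431)) (l 1)))) (a (a (b (l 16326240) (l 16291480)) (b (l 16326608) (l 16294040))) (b (a (b (a (l 16331816) (l 16342144))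 (l 48887894007)) (c (l 16369608) (l 111164940231))) (a (l 16292040) (l 16290344)))))))), by decide +kernel⟩

theorem s6_pm_101 : ∃ t, chk3 f_pm_101 t 3 3 1 = true := ex3_a k4_pm_101 k5_pm_101

theorem s7_pm_101 : ∃ t, chk3 f_pm_101 t 3 1 1 = true := ex3_b k3_pm_101 s6_pm_101

theorem s8_pm_101 : ∃ t, chk3 f_pm_101 t 2 3 1 = true := ex3_b k1_pm_101 k2_pm_101

theorem s9_pm_101 : ∃ t, chk3 f_pm_101 t 2 1 1 = true := ex3_b k0_pm_101 s8_pm_101

theorem s10_pm_101 : ∃ t, chk3 f_pm_101 t 1 1 1 = true := ex3_a s9_pm_101 s7_pm_101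

theorem c_pm_101 : CertB 536870912 536870912 0 536870912 649613803 48318383 3 eng mog cd0q1 cd7q0 pd1 true true false .npn 1 0 1
    ndB0q1 ndB7q0 pcB1 Cut.none Ext.none :=
  certB1 (fam := true) (s1 := true) (s2 := false) (a := 1) (b := 0) (c := 1) (cn := .npn) (n1 := ndB0q1) (n2 := ndB7q0) (pc := pcB1) (cut := Cut.none) (xt := Ext.none) (P1 := 536870912) (W1 := 536870912) (P2 := 0) (W2 := 536870912) (P3 := 649613803) (W3 := 48318383) (N0 := 3) (En := eng) (mo := mog) (C1 := cd0q1) (C2 := cd7q0) (C3 := pd1)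
    rfl (fun _ => rfl) s10_pm_101

noncomputable def xt_pm_102 : Ext := extD2 3 ⟨7, 3, 3, 10, 377, 200, 77, 100, 17, 50, 3, 16⟩ eng cd0q1 cd7q0 pd2 true true false .npp 1 0 2 rfl ndB0q1 ndB7q0 pcB2

noncomputable def f_pm_102 : ℕ → ℕ → ℕ → ℕ → Bool := onCell 536870912 536870912 1073741824 536870912 649613803 48318383
    (rowB 3 eng mog cd0q1 cd7q0 pd2 1 true true false .npp 1 0 2 (qsf 536870912 536870912 0 536870912 2) ndB0q1 ndB7q0 pcB2 Cut.none xt_pm_102)

def k0_pm_102 : ∃ t, chk3 f_pm_102 t 2 1 1 = true :=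
  ⟨(b (a (b (a (b (a (b (l 16117432) (l 16088856)) (b (l 16066784) (l 16024168))) (a (l 2) (l 29090271159))) (b (b (a (l 16069104) (l 584735558172395751985199)) (a (l 15965880) (l 15921048))) (b (c (l 15942000) (l 15911408)) (l 15969752)))) (b (a (l 2) (b (a (l 2) (l 15803992)) (l 2))) (l 2))) (b (a (b (b (a (l 16007240) (l 16065384)) (a (l 15934600) (l 16010280))) (a (l 15868688) (l 15897040))) (b (a (c (l 16130944) (l 16045168)) (l 16320696)) (a (b (l 16023248) (l 15975720)) (l 16180224)))) (b (a (b (l 15801912) (b (l 15779144) (l 15787832))) (b (l 16088296) (b (l 15931136) (l 15932664)))) (a (l 124116341111) (l 16004136))))) (a (l 2) (b (b (a (l 2) (l 16104696)) (l 2)) (l 2)))), by decide +kernel⟩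

def k1_pm_102 : ∃ t, chk3 f_pm_102 t 3 1 1 = true :=
  ⟨(b (a (b (a (b (b (a (l 16189520) (l 16209584)) (l 16172632)) (b (l 16115888) (l 16087776))) (b (b (a (l 16221024) (l 16230792)) (a (l 16172544) (l 16183320))) (a (l 16123856) (l 16137640)))) (b (a (b (l 16061480) (a (l 16025904) (l 16063312))) (b (l 16098984) (b (l 16087992) (l 16103232)))) (a (l 16092288) (b (l 16146504) (l 16201072))))) (b (a (b (b (a (c (l 16280120) (l 16207992)) (b (l 16268040) (l 16248152))) (a (l 16200640) (b (l 16231544) (l 16216352)))) (a (b (l 16170080) (l 16147696)) (b (l 16195616) (l 16176584)))) (b (a (b (b (a (l 16277584) (l 16278560)) (a (l 16256592) (l 16257936))) (b (l 16243152) (l 16234384))) (b (c (b (l 16323272) (l 16304480)) (b (a (l 16236344) (l 16232160)) (a (l 16218168) (l 16214896)))) (a (l 16252872) (b (l 16262400) (l 16258824))))) (a (b (b (l 16227664) (l 16221688)) (l 16213864)) (b (a (l 16251336) (l 16260432)) (a (l 16250616) (b (l 16270288) (l 16279624)))))))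 (b (a (b (a (l 16131872) (l 16166432)) (b (l 16269800) (l 16164704))) (b (a (l 16209080) (a (l 16248840) (l 16281504))) (a (b (l 16209992) (l 16231560)) (b (l 16266424) (l 16287176))))) (a (l 16251360) (a (l 16315616) (l 16365384)))))) (a (b (b (a (l 16187224) (l 16283552)) (a (l 16309768) (l 16394208))) (a (l 2) (l 16585360))) (b (a (b (l 16378608) (l 16487608)) (b (l 16460168) (b (l 16541008) (l 16595040)))) (b (a (l 16592848) (l 16664784)) (a (l 16696776) (l 16724616)))))), by decide +kernel⟩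

theorem s2_pm_102 : ∃ t, chk3 f_pm_102 t 1 1 1 = true := ex3_a k0_pm_102 k1_pm_102

theorem c_pm_102 : CertB 536870912 536870912 0 536870912 649613803 48318383 3 eng mog cd0q1 cd7q0 pd2 true true false .npp 1 0 2
    ndB0q1 ndB7q0 pcB2 Cut.none xt_pm_102 :=
  certB1 (fam := true) (s1 := true) (s2 := false) (a := 1) (b := 0) (c := 2) (cn := .npp) (n1 := ndB0q1) (n2 := ndB7q0) (pc := pcB2) (cut := Cut.none) (xt := xt_pm_102) (P1 := 536870912) (W1 := 536870912) (P2 := 0) (W2 := 536870912) (P3 := 649613803) (W3 := 48318383) (N0 := 3) (En := eng) (mo := mog) (C1 := cd0q1) (C2 := cd7q0) (C3 := pd2)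
    rfl (fun _ => rfl) s2_pm_102

noncomputable def f_pm_112 : ℕ → ℕ → ℕ → ℕ → Bool := onCell 536870912 536870912 1073741824 536870912 649613803 48318383
    (rowB 3 eng mog cd0q1 cd7q1 pd2 1 true true false .dn 1 1 2 (qsf 536870912 536870912 536870912 536870912 2) ndB0q1 ndB7q1 pcB2 Cut.none Ext.none)

def k0_pm_112 : ∃ t, chk3 f_pm_112 t 1 1 1 = true :=
  ⟨(a (b (a (b (a (b (b (a (l 16091624) (l 16089680)) (l 50498114855)) (b (l 16007136) (l 15972832))) (b (b (l 1) (a (l 15963976) (l 1))) (b (l 110627408999) (l 15911520)))) (b (b (b (a (l 15957024) (l 15857912)) (a (b (l 15989592) (b (l 15963688) (l 16065656))) (l 15868824))) (a (b (a (l 15957208) (l 15904912)) (l 15987032)) (b (l 15899304) (l 15864328)))) (a (a (l 16014000) (l 15993040)) (l 16175432)))) (b (a (b (l 1) (b (l 1) (l 15825520))) (l 1)) (b (a (b (l 15759880) (b (l 15755216) (l 15792888))) (b (l 1) (b (l 1) (l 15919760)))) (a (l 16036920) (l 15964848))))) (a (b (b (a (l 16035624) (l 16047176))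 (a (b (l 16030008) (l 16026144)) (l 16078608))) (a (b (b (l 16020400) (l 16013360)) (a (b (l 15979776) (l 15966648)) (l 16026216))) (b (l 16093976) (l 16102520)))) (b (a (b (l 16061056) (l 16128080)) (b (l 16078888) (l 16180360))) (a (b (l 16173896) (l 16205520)) (b (l 16251840) (l 16310000)))))) (b (a (b (l 1) (b (l 1) (a (l 16081152) (l 1)))) (l 1)) (a (b (b (a (l 16174000) (l 16274816)) (a (l 16268568) (l 16381952))) (a (b (l 16359720) (l 16418104)) (l 16512280))) (b (a (b (l 1) (l 16477464)) (l 1)) (b (a (l 16577248) (l 16650248)) (a (l 16639544) (l 16703712))))))), by decide +kernel⟩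

theorem c_pm_112 : CertB 536870912 536870912 536870912 536870912 649613803 48318383 3 eng mog cd0q1 cd7q1 pd2 true true false .dn 1 1 2
    ndB0q1 ndB7q1 pcB2 Cut.none Ext.none :=
  certB1 (fam := true) (s1 := true) (s2 := false) (a := 1) (b := 1) (c := 2) (cn := .dn) (n1 := ndB0q1) (n2 := ndB7q1) (pc := pcB2) (cut := Cut.none) (xt := Ext.none) (P1 := 536870912) (W1 := 536870912) (P2 := 536870912) (W2 := 536870912) (P3 := 649613803) (W3 := 48318383) (N0 := 3) (En := eng) (mo := mog) (C1 := cd0q1) (C2 := cd7q1) (C3 := pd2)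
    rfl (fun _ => rfl) k0_pm_112

noncomputable def f_pm_113 : ℕ → ℕ → ℕ → ℕ → Bool := onCell 536870912 536870912 1610612736 536870912 649613803 48318383
    (rowB 3 eng mog cd0q1 cd7q1 pd3 1 true true false .nn 1 1 3 (qsf 536870912 536870912 536870912 536870912 3) ndB0q1 ndB7q1 pcB3 Cut.none Ext.none)

def k0_pm_113 : ∃ t, chk3 f_pm_113 t 1 1 1 = true :=
  ⟨(a (b (b (a (b (a (b (l 250280989799) (l 242227785287)) (l 15994912)) (a (b (l 288935502471) (l 2)) (b (l 15931232) (l 256723358199)))) (b (a (l 16130080) (l 16259712)) (a (b (l 16096240) (l 16078384)) (l 16213208)))) (b (a (b (a (l 2) (b (l 308799795943) (l 2))) (l 2)) (a (b (l 301283785447) (l 332422336839)) (l 16184328))) (a (l 2) (a (l 359802835079) (b (l 16168384) (l 384499073047)))))) (b (a (l 2) (b (a (l 2) (b (l 425301371719) (l 2))) (l 2))) (l 2))) (b (b (a (b (a (l 16375120) (l 16505072)) (a (l 16330176) (l 16467232))) (b (a (l 16620472) (l 16689248)) (a (l 16578896) (l 16654504)))) (a (b (a (l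 16300864) (l 16433640)) (a (l 16285632) (l 16412704))) (b (a (l 16544464) (l 16620768)) (a (l 16511840) (l 4))))) (b (a (b (a (b (l 16284704) (l 16283888)) (l 16392576)) (a (b (l 511201064935) (l 2)) (l 4))) (l 4)) (l 4)))), by decide +kernel⟩

theorem c_pm_113 : CertB 536870912 536870912 536870912 536870912 649613803 48318383 3 eng mog cd0q1 cd7q1 pd3 true true false .nn 1 1 3
    ndB0q1 ndB7q1 pcB3 Cut.none Ext.none :=
  certB1 (fam := true) (s1 := true) (s2 := false) (a := 1) (b := 1) (c := 3) (cn := .nn) (n1 := ndB0q1) (n2 := ndB7q1) (pc := pcB3) (cut := Cut.none) (xt := Ext.none) (P1 := 536870912) (W1 := 536870912) (P2 := 536870912) (W2 := 536870912) (P3 := 649613803) (W3 := 48318383) (N0 := 3) (En := eng) (mo := mog) (C1 := cd0q1) (C2 := cd7q1) (C3 := pd3)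
    rfl (fun _ => rfl) k0_pm_113

noncomputable def f_pm_123 : ℕ → ℕ → ℕ → ℕ → Bool := onCell 536870912 536870912 1610612736 536870912 649613803 48318383
    (rowB 3 eng mog cd0q1 cd7q2 pd3 1 true true false .npn 1 2 3 (qsf 536870912 536870912 1073741824 536870912 3) ndB0q1 ndB7q2 pcB3 Cut.none Ext.none)

def k0_pm_123 : ∃ t, chk3 f_pm_123 t 2 2 1 = true :=
  ⟨(b (a (b (a (a (b (l 111164730823) (a (l 16105080) (l 16112144))) (b (l 193842621335) (l 102574808327))) (a (b (l 1) (b (l 1) (l 207801194007))) (l 1))) (a (b (a (l 16122000) (b (l 16136752) (l 16144248))) (a (l 16137664) (l 16158464))) (b (a (l 114385857879) (b (l 1) (l 222833687111))) (a (b (l 16181040) (l 16192056)) (c (l 112238543143) (l 128344429767)))))) (b (l 1) (a (b (l 1) (a (b (l 1) (l 215317637511)) (l 1))) (l 1)))) (b (a (b (a (b (l 16160568) (a (l 16158104) (l 16181424))) (b (a (l 16202576) (l 16242472)) (a (l 16212064) (b (l 16247624) (l 16251736))))) (a (a (l 16161800) (l 16190144)) (b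 (a (l 16226384) (l 16266792)) (l 16230752)))) (b (a (a (b (l 99353499559) (b (l 16265352) (c (l 16344280) (l 16234528)))) (a (b (l 1) (b (l 1) (c (l 16373752) (l 254509359479)))) (l 1))) (l 1)) (a (b (c (a (b (l 16351232) (l 16357192)) (b (l 16391304) (l 16397992))) (a (l 16242192) (b (b (l 147672103159) (l 92911302599)) (b (l 91300729479) (l 89690171335))))) (a (l 16313872) (c (l 16395984) (l 16315096)))) (b (l 1) (a (a (l 282426864455) (l 1)) (l 1)))))) (b (a (a (a (l 16186336) (l 16201256)) (a (l 16232488) (l 16268496))) (a (a (l 16306520) (b (l 16347616) (l 16341560))) (a (b (c (l 16425080) (l 16340168)) (l 16373208)) (l 280816403895)))) (a (a (a (l 16233728) (l 16231064)) (a (l 16242128) (l 16269864))) (a (a (l 16302552) (l 16335064)) (a (l 16362512) (l 16390384))))))), by decide +kernel⟩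

def k1_pm_123 : ∃ t, chk3 f_pm_123 t 2 3 1 = true :=
  ⟨(b (a (b (a (b (l 16281496) (l 16336448)) (b (a (l 16272216) (l 16280208)) (l 16316936))) (a (b (l 16389496) (l 16443400)) (b (l 16364128) (l 16415464)))) (b (a (b (a (l 16304928) (l 16331296)) (a (l 16315744) (l 16334432))) (b (b (l 16369152) (l 16367648)) (l 16410216))) (a (b (a (l 16344104) (l 16347176)) (l 16390624)) (b (a (l 16364888) (l 16387840)) (a (l 16383720) (l 16396928)))))) (b (a (a (b (l 16496712) (l 16548192)) (b (l 16465472) (l 16510488))) (a (b (l 16444128) (l 16486392)) (b (a (l 16415960) (l 16412472)) (b (l 16444176) (l 16462000))))) (b (a (a (l 16591240) (l 16561720)) (a (b (l 16517920) (l 16539728)) (b (l 16478520) (l 16497080)))) (a (b (a (l 16619488) (l 16593376)) (b (l 16870664) (b (l 16624616) (l 16708536)))) (a (b (l 16551896) (l 4)) (l 4)))))), by decide +kernel⟩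

def k2_pm_123 : ∃ t, chk3 f_pm_123 t 3 1 1 = true :=
  ⟨(a (b (b (l 1) (b (l 1) (a (a (c (l 259341853607) (l 279742791015)) (l 1)) (l 1)))) (b (b (a (a (b (l 16422384) (l 16417832)) (a (l 182569318247) (l 16492384))) (a (l 16588664) (l 1))) (a (b (l 16438888) (a (l 16422320) (l 16461136))) (b (a (l 16524272) (l 16590440)) (a (l 16509168) (l 16567680))))) (b (a (b (a (l 16429520) (l 16455080)) (b (l 16439048) (l 16444608))) (b (l 16515896) (l 16493976))) (b (a (b (l 16447184) (l 4)) (l 4)) (l 4))))) (b (l 1) (b (a (b (l 1) (b (l 1) (l 16629976))) (l 1)) (b (b (a (l 16594136) (l 1)) (l 4)) (l 4))))), by decide +kernel⟩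

theorem s3_pm_123 : ∃ t, chk3 f_pm_123 t 2 1 1 = true := ex3_b k0_pm_123 k1_pm_123

theorem s4_pm_123 : ∃ t, chk3 f_pm_123 t 1 1 1 = true := ex3_a s3_pm_123 k2_pm_123

theorem c_pm_123 : CertB 536870912 536870912 1073741824 536870912 649613803 48318383 3 eng mog cd0q1 cd7q2 pd3 true true false .npn 1 2 3
    ndB0q1 ndB7q2 pcB3 Cut.none Ext.none :=
  certB1 (fam := true) (s1 := true) (s2 := false) (a := 1) (b := 2) (c := 3) (cn := .npn) (n1 := ndB0q1) (n2 := ndB7q2) (pc := pcB3) (cut := Cut.none) (xt := Ext.none) (P1 := 536870912) (W1 := 536870912) (P2 := 1073741824) (W2 := 536870912) (P3 := 649613803) (W3 := 48318383) (N0 := 3) (En := eng) (mo := mog) (C1 := cd0q1) (C2 := cd7q2) (C3 := pd3)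
    rfl (fun _ => rfl) s4_pm_123

noncomputable def f_pm_133 : ℕ → ℕ → ℕ → ℕ → Bool := onCell 536870912 536870912 0 1230186008 649613803 48318383
    (rowB 3 eng mog cd0q1 cd7q3 pd3 0 true true false .dn 1 3 3 (qsf 536870912 536870912 0 1230186008 3) ndB0q1 ndB7q3 pcB3 Cut.none Ext.none)

def k0_pm_133 : ∃ t, chk3 f_pm_133 t 1 1 1 = true :=
  ⟨(b (l 2) (b (l 2) (a (b (l 2) (a (b (l 2) (a (b (l 2) (l 4)) (l 2))) (l 2))) (l 2)))), by decide +kernel⟩

theorem c_pm_133 : CertB 536870912 536870912 0 1230186008 649613803 48318383 3 eng mog cd0q1 cd7q3 pd3 true true false .dn 1 3 3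
    ndB0q1 ndB7q3 pcB3 Cut.none Ext.none :=
  certB0 (fam := true) (s1 := true) (s2 := false) (a := 1) (b := 3) (c := 3) (cn := .dn) (n1 := ndB0q1) (n2 := ndB7q3) (pc := pcB3) (cut := Cut.none) (xt := Ext.none) (P1 := 536870912) (W1 := 536870912) (P2 := 0) (W2 := 1230186008) (P3 := 649613803) (W3 := 48318383) (N0 := 3) (En := eng) (mo := mog) (C1 := cd0q1) (C2 := cd7q3) (C3 := pd3)
    rfl k0_pm_133

noncomputable def f_pm_202 : ℕ → ℕ → ℕ → ℕ → Bool := onCell 0 536870912 0 536870912 649613803 48318383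
    (rowB 3 eng mog cd0q2 cd7q0 pd2 0 true true false .pp 2 0 2 (qsf 0 536870912 0 536870912 2) ndB0q2 ndB7q0 pcB2 Cut.none Ext.none)

def k0_pm_202 : ∃ t, chk3 f_pm_202 t 2 2 1 = true :=
  ⟨(b (a (b (l 4) (l 4)) (b (a (b (a (l 16274624) (l 16267952)) (l 16390824)) (b (a (l 16261680) (l 16253072)) (a (l 16289432) (l 16275976)))) (a (b (l 16345464) (l 4)) (b (l 16316712) (l 16353504))))) (a (l 4) (b (a (l 4) (b (l 16388928) (l 4))) (l 4)))), by decide +kernel⟩

def k1_pm_202 : ∃ t, chk3 f_pm_202 t 3 2 1 = true :=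
  ⟨(b (a (b (a (b (a (l 16242600) (b (l 16230008) (l 16233344))) (a (l 16259664) (l 16242584))) (b (a (b (a (l 16223528) (l 16220552)) (l 16222184)) (b (l 16217496) (l 16214368))) (a (l 16227608) (b (l 16215160) (l 16218576))))) (a (b (a (l 16290808) (l 16268800)) (l 16316792)) (b (a (l 16246728) (l 16228528)) (a (l 16284344) (l 16261608))))) (b (a (b (a (b (l 16218688) (l 16212568)) (b (a (l 16223520) (l 16228552)) (l 16216200))) (a (b (l 16209904) (l 16210856)) (b (l 16210688) (l 16209064)))) (b (a (b (a (b (l 16239120) (l 16231744)) (b (l 16248064) (l 16239840))) (a (l 16223072) (l 16230160))) (a (b (b (b (l 16261600) (l 16256720)) (l 16250128)) (c (l 16285264) (l 16195112))) (a (b (b (b (l 16271296) (l 16266248)) (l 16259680)) (l 16249792)) (b (b (c (l 16322112) (c (l 16253592) (l 16207592))) (l 16268120)) (l 16259184))))) (a (b (a (l 16215696) (l 16221872)) (l 16215136)) (a (b (l 16231296) (l 16227616)) (b (l 16246384) (l 16243296)))))) (a (b (a (b (l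 16214272) (l 16221264)) (l 16213344)) (a (b (l 16232328) (l 16251296)) (b (l 16224896) (l 16237712)))) (a (b (b (l 16215872) (l 16220392)) (b (l 16228400) (l 16239440))) (b (a (l 16230160) (l 16246704)) (b (l 16248936) (l 16260760))))))) (a (b (a (b (l 16350112) (l 16383984)) (b (l 16311352) (l 16348976))) (a (b (l 16422192) (l 16464312)) (b (l 16389136) (l 16432808)))) (a (b (b (a (l 16283880) (b (l 16256176) (l 16280104))) (l 16321472)) (l 16393824)) (b (b (a (b (l 16251928) (l 16272280)) (b (l 16273280) (a (l 16280336) (l 16299528)))) (a (l 16313048) (b (l 16396240) (l 16341632)))) (a (l 16397240) (b (l 16387720) (l 16448104))))))), by decide +kernel⟩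

def k2_pm_202 : ∃ t, chk3 f_pm_202 t 1 3 1 = true :=
  ⟨(a (l 4) (b (a (a (l 4) (a (b (l 16510672) (l 4)) (b (l 16501968) (l 16605904)))) (a (b (b (l 16471920) (l 16527264)) (b (l 16583376) (l 16639504))) (b (b (l 16494200) (l 16554440)) (b (l 16611168) (l 16660888))))) (a (l 4) (b (a (b (l 16692296) (l 16690656)) (l 16704776)) (a (l 4) (a (l 16710296) (l 16728064))))))), by decide +kernel⟩

theorem s3_pm_202 : ∃ t, chk3 f_pm_202 t 1 2 1 = true := ex3_a k0_pm_202 k1_pm_202

theorem s4_pm_202 : ∃ t, chk3 f_pm_202 t 1 1 1 = true := ex3_b s3_pm_202 k2_pm_202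

theorem c_pm_202 : CertB 0 536870912 0 536870912 649613803 48318383 3 eng mog cd0q2 cd7q0 pd2 true true false .pp 2 0 2
    ndB0q2 ndB7q0 pcB2 Cut.none Ext.none :=
  certB0 (fam := true) (s1 := true) (s2 := false) (a := 2) (b := 0) (c := 2) (cn := .pp) (n1 := ndB0q2) (n2 := ndB7q0) (pc := pcB2) (cut := Cut.none) (xt := Ext.none) (P1 := 0) (W1 := 536870912) (P2 := 0) (W2 := 536870912) (P3 := 649613803) (W3 := 48318383) (N0 := 3) (En := eng) (mo := mog) (C1 := cd0q2) (C2 := cd7q0) (C3 := pd2)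
    rfl s4_pm_202

noncomputable def f_pm_203 : ℕ → ℕ → ℕ → ℕ → Bool := onCell 0 536870912 1610612736 536870912 649613803 48318383
    (rowB 3 eng mog cd0q2 cd7q0 pd3 1 true true false .up 2 0 3 (qsf 0 536870912 0 536870912 3) ndB0q2 ndB7q0 pcB3 Cut.none Ext.none)

def k0_pm_203 : ∃ t, chk3 f_pm_203 t 1 1 1 = true :=
  ⟨(b (a (l 4) (b (a (l 4) (b (l 16732792) (l 4))) (l 4))) (l 2)), by decide +kernel⟩

theorem c_pm_203 : CertB 0 536870912 0 536870912 649613803 48318383 3 eng mog cd0q2 cd7q0 pd3 true true false .up 2 0 3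
    ndB0q2 ndB7q0 pcB3 Cut.none Ext.none :=
  certB1 (fam := true) (s1 := true) (s2 := false) (a := 2) (b := 0) (c := 3) (cn := .up) (n1 := ndB0q2) (n2 := ndB7q0) (pc := pcB3) (cut := Cut.none) (xt := Ext.none) (P1 := 0) (W1 := 536870912) (P2 := 0) (W2 := 536870912) (P3 := 649613803) (W3 := 48318383) (N0 := 3) (En := eng) (mo := mog) (C1 := cd0q2) (C2 := cd7q0) (C3 := pd3)
    rfl (fun _ => rfl) k0_pm_203

noncomputable def f_pm_213 : ℕ → ℕ → ℕ → ℕ → Bool := onCell 0 536870912 1610612736 536870912 649613803 48318383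
    (rowB 3 eng mog cd0q2 cd7q1 pd3 1 true true false .pnn 2 1 3 (qsf 0 536870912 536870912 536870912 3) ndB0q2 ndB7q1 pcB3 Cut.none Ext.none)

def k0_pm_213 : ∃ t, chk3 f_pm_213 t 1 1 1 = true :=
  ⟨(b (a (l 4) (b (a (l 4) (b (l 16711944) (l 4))) (l 4))) (l 4)), by decide +kernel⟩

theorem c_pm_213 : CertB 0 536870912 536870912 536870912 649613803 48318383 3 eng mog cd0q2 cd7q1 pd3 true true false .pnn 2 1 3
    ndB0q2 ndB7q1 pcB3 Cut.none Ext.none :=
  certB1 (fam := true) (s1 := true) (s2 := false) (a := 2) (b := 1) (c := 3) (cn := .pnn) (n1 := ndB0q2) (n2 := ndB7q1) (pc := pcB3) (cut := Cut.none) (xt := Ext.none) (P1 := 0) (W1 := 536870912) (P2 := 536870912) (W2 := 536870912) (P3 := 649613803) (W3 := 48318383) (N0 := 3) (En := eng) (mo := mog) (C1 := cd0q2) (C2 := cd7q1) (C3 := pd3)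
    rfl (fun _ => rfl) k0_pm_213

noncomputable def f_mm_001 : ℕ → ℕ → ℕ → ℕ → Bool := onCell 0 536870912 0 536870912 649613803 48318383
    (rowB 3 eng mog cd0q0 cd7q0 pd1 0 true false false .up 0 0 1 (qsf 0 536870912 0 536870912 1) ndB0q0 ndB7q0 pcB1 Cut.none Ext.none)

def k0_mm_001 : ∃ t, chk3 f_mm_001 t 1 1 1 = true :=
  ⟨(l 4), by decide +kernel⟩

theorem c_mm_001 : CertB 0 536870912 0 536870912 649613803 48318383 3 eng mog cd0q0 cd7q0 pd1 true false false .up 0 0 1
    ndB0q0 ndB7q0 pcB1 Cut.none Ext.none :=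
  certB0 (fam := true) (s1 := false) (s2 := false) (a := 0) (b := 0) (c := 1) (cn := .up) (n1 := ndB0q0) (n2 := ndB7q0) (pc := pcB1) (cut := Cut.none) (xt := Ext.none) (P1 := 0) (W1 := 536870912) (P2 := 0) (W2 := 536870912) (P3 := 649613803) (W3 := 48318383) (N0 := 3) (En := eng) (mo := mog) (C1 := cd0q0) (C2 := cd7q0) (C3 := pd1)
    rfl k0_mm_001

noncomputable def f_mm_011 : ℕ → ℕ → ℕ → ℕ → Bool := onCell 0 536870912 536870912 536870912 649613803 48318383
    (rowB 3 eng mog cd0q0 cd7q1 pd1 0 true false false .pnn 0 1 1 (qsf 0 536870912 536870912 536870912 1) ndB0q0 ndB7q1 pcB1 Cut.none Ext.none)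

def k0_mm_011 : ∃ t, chk3 f_mm_011 t 1 1 1 = true :=
  ⟨(l 4), by decide +kernel⟩

theorem c_mm_011 : CertB 0 536870912 536870912 536870912 649613803 48318383 3 eng mog cd0q0 cd7q1 pd1 true false false .pnn 0 1 1
    ndB0q0 ndB7q1 pcB1 Cut.none Ext.none :=
  certB0 (fam := true) (s1 := false) (s2 := false) (a := 0) (b := 1) (c := 1) (cn := .pnn) (n1 := ndB0q0) (n2 := ndB7q1) (pc := pcB1) (cut := Cut.none) (xt := Ext.none) (P1 := 0) (W1 := 536870912) (P2 := 536870912) (W2 := 536870912) (P3 := 649613803) (W3 := 48318383) (N0 := 3) (En := eng) (mo := mog) (C1 := cd0q0) (C2 := cd7q1) (C3 := pd1)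
    rfl k0_mm_011

noncomputable def f_mm_012 : ℕ → ℕ → ℕ → ℕ → Bool := onCell 0 536870912 536870912 536870912 649613803 48318383
    (rowB 3 eng mog cd0q0 cd7q1 pd2 0 true false false .pnp 0 1 2 (qsf 0 536870912 536870912 536870912 2) ndB0q0 ndB7q1 pcB2 Cut.none Ext.none)

def k0_mm_012 : ∃ t, chk3 f_mm_012 t 1 1 1 = true :=
  ⟨(l 4), by decide +kernel⟩

theorem c_mm_012 : CertB 0 536870912 536870912 536870912 649613803 48318383 3 eng mog cd0q0 cd7q1 pd2 true false false .pnp 0 1 2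
    ndB0q0 ndB7q1 pcB2 Cut.none Ext.none :=
  certB0 (fam := true) (s1 := false) (s2 := false) (a := 0) (b := 1) (c := 2) (cn := .pnp) (n1 := ndB0q0) (n2 := ndB7q1) (pc := pcB2) (cut := Cut.none) (xt := Ext.none) (P1 := 0) (W1 := 536870912) (P2 := 536870912) (W2 := 536870912) (P3 := 649613803) (W3 := 48318383) (N0 := 3) (En := eng) (mo := mog) (C1 := cd0q0) (C2 := cd7q1) (C3 := pd2)
    rfl k0_mm_012

noncomputable def f_mm_022 : ℕ → ℕ → ℕ → ℕ → Bool := onCell 0 536870912 1073741824 536870912 649613803 48318383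
    (rowB 3 eng mog cd0q0 cd7q2 pd2 0 true false false .pp 0 2 2 (qsf 0 536870912 1073741824 536870912 2) ndB0q0 ndB7q2 pcB2 Cut.none Ext.none)

def k0_mm_022 : ∃ t, chk3 f_mm_022 t 1 1 1 = true :=
  ⟨(l 4), by decide +kernel⟩

theorem c_mm_022 : CertB 0 536870912 1073741824 536870912 649613803 48318383 3 eng mog cd0q0 cd7q2 pd2 true false false .pp 0 2 2
    ndB0q0 ndB7q2 pcB2 Cut.none Ext.none :=
  certB0 (fam := true) (s1 := false) (s2 := false) (a := 0) (b := 2) (c := 2) (cn := .pp) (n1 := ndB0q0) (n2 := ndB7q2) (pc := pcB2) (cut := Cut.none) (xt := Ext.none) (P1 := 0) (W1 := 536870912) (P2 := 1073741824) (W2 := 536870912) (P3 := 649613803) (W3 := 48318383) (N0 := 3) (En := eng) (mo := mog) (C1 := cd0q0) (C2 := cd7q2) (C3 := pd2)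
    rfl k0_mm_022

noncomputable def f_mm_023 : ℕ → ℕ → ℕ → ℕ → Bool := onCell 0 536870912 1073741824 536870912 649613803 48318383
    (rowB 3 eng mog cd0q0 cd7q2 pd3 0 true false false .up 0 2 3 (qsf 0 536870912 1073741824 536870912 3) ndB0q0 ndB7q2 pcB3 Cut.none Ext.none)

def k0_mm_023 : ∃ t, chk3 f_mm_023 t 1 1 1 = true :=
  ⟨(l 4), by decide +kernel⟩

theorem c_mm_023 : CertB 0 536870912 1073741824 536870912 649613803 48318383 3 eng mog cd0q0 cd7q2 pd3 true false false .up 0 2 3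
    ndB0q0 ndB7q2 pcB3 Cut.none Ext.none :=
  certB0 (fam := true) (s1 := false) (s2 := false) (a := 0) (b := 2) (c := 3) (cn := .up) (n1 := ndB0q0) (n2 := ndB7q2) (pc := pcB3) (cut := Cut.none) (xt := Ext.none) (P1 := 0) (W1 := 536870912) (P2 := 1073741824) (W2 := 536870912) (P3 := 649613803) (W3 := 48318383) (N0 := 3) (En := eng) (mo := mog) (C1 := cd0q0) (C2 := cd7q2) (C3 := pd3)
    rfl k0_mm_023

noncomputable def f_mm_033 : ℕ → ℕ → ℕ → ℕ → Bool := onCell 0 536870912 0 1230186008 649613803 48318383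
    (rowB 3 eng mog cd0q0 cd7q3 pd3 0 true false false .pnn 0 3 3 (qsf 0 536870912 0 1230186008 3) ndB0q0 ndB7q3 pcB3 Cut.none Ext.none)

def k0_mm_033 : ∃ t, chk3 f_mm_033 t 1 1 1 = true :=
  ⟨(l 5), by decide +kernel⟩

theorem c_mm_033 : CertB 0 536870912 0 1230186008 649613803 48318383 3 eng mog cd0q0 cd7q3 pd3 true false false .pnn 0 3 3
    ndB0q0 ndB7q3 pcB3 Cut.none Ext.none :=
  certB0 (fam := true) (s1 := false) (s2 := false) (a := 0) (b := 3) (c := 3) (cn := .pnn) (n1 := ndB0q0) (n2 := ndB7q3) (pc := pcB3) (cut := Cut.none) (xt := Ext.none) (P1 := 0) (W1 := 536870912) (P2 := 0) (W2 := 1230186008) (P3 := 649613803) (W3 := 48318383) (N0 := 3) (En := eng) (mo := mog) (C1 := cd0q0) (C2 := cd7q3) (C3 := pd3)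
    rfl k0_mm_033

noncomputable def f_mm_101 : ℕ → ℕ → ℕ → ℕ → Bool := onCell 536870912 536870912 0 536870912 649613803 48318383
    (rowB 3 eng mog cd0q1 cd7q0 pd1 0 true false false .npn 1 0 1 (qsf 536870912 536870912 0 536870912 1) ndB0q1 ndB7q0 pcB1 Cut.none Ext.none)

def k0_mm_101 : ∃ t, chk3 f_mm_101 t 1 1 1 = true :=
  ⟨(l 4), by decide +kernel⟩

theorem c_mm_101 : CertB 536870912 536870912 0 536870912 649613803 48318383 3 eng mog cd0q1 cd7q0 pd1 true false false .npn 1 0 1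
    ndB0q1 ndB7q0 pcB1 Cut.none Ext.none :=
  certB0 (fam := true) (s1 := false) (s2 := false) (a := 1) (b := 0) (c := 1) (cn := .npn) (n1 := ndB0q1) (n2 := ndB7q0) (pc := pcB1) (cut := Cut.none) (xt := Ext.none) (P1 := 536870912) (W1 := 536870912) (P2 := 0) (W2 := 536870912) (P3 := 649613803) (W3 := 48318383) (N0 := 3) (En := eng) (mo := mog) (C1 := cd0q1) (C2 := cd7q0) (C3 := pd1)
    rfl k0_mm_101

noncomputable def f_mm_102 : ℕ → ℕ → ℕ → ℕ → Bool := onCell 536870912 536870912 0 536870912 649613803 48318383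
    (rowB 3 eng mog cd0q1 cd7q0 pd2 0 true false false .npp 1 0 2 (qsf 536870912 536870912 0 536870912 2) ndB0q1 ndB7q0 pcB2 Cut.none Ext.none)

def k0_mm_102 : ∃ t, chk3 f_mm_102 t 1 1 1 = true :=
  ⟨(l 4), by decide +kernel⟩

theorem c_mm_102 : CertB 536870912 536870912 0 536870912 649613803 48318383 3 eng mog cd0q1 cd7q0 pd2 true false false .npp 1 0 2
    ndB0q1 ndB7q0 pcB2 Cut.none Ext.none :=
  certB0 (fam := true) (s1 := false) (s2 := false) (a := 1) (b := 0) (c := 2) (cn := .npp) (n1 := ndB0q1) (n2 := ndB7q0) (pc := pcB2) (cut := Cut.none) (xt := Ext.none) (P1 := 536870912) (W1 := 536870912) (P2 := 0) (W2 := 536870912) (P3 := 649613803) (W3 := 48318383) (N0 := 3) (En := eng) (mo := mog) (C1 := cd0q1) (C2 := cd7q0) (C3 := pd2)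
    rfl k0_mm_102

noncomputable def f_mm_112 : ℕ → ℕ → ℕ → ℕ → Bool := onCell 536870912 536870912 536870912 536870912 649613803 48318383
    (rowB 3 eng mog cd0q1 cd7q1 pd2 0 true false false .dn 1 1 2 (qsf 536870912 536870912 536870912 536870912 2) ndB0q1 ndB7q1 pcB2 Cut.none Ext.none)

def k0_mm_112 : ∃ t, chk3 f_mm_112 t 1 1 1 = true :=
  ⟨(l 4), by decide +kernel⟩

theorem c_mm_112 : CertB 536870912 536870912 536870912 536870912 649613803 48318383 3 eng mog cd0q1 cd7q1 pd2 true false false .dn 1 1 2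
    ndB0q1 ndB7q1 pcB2 Cut.none Ext.none :=
  certB0 (fam := true) (s1 := false) (s2 := false) (a := 1) (b := 1) (c := 2) (cn := .dn) (n1 := ndB0q1) (n2 := ndB7q1) (pc := pcB2) (cut := Cut.none) (xt := Ext.none) (P1 := 536870912) (W1 := 536870912) (P2 := 536870912) (W2 := 536870912) (P3 := 649613803) (W3 := 48318383) (N0 := 3) (En := eng) (mo := mog) (C1 := cd0q1) (C2 := cd7q1) (C3 := pd2)
    rfl k0_mm_112

noncomputable def f_mm_113 : ℕ → ℕ → ℕ → ℕ → Bool := onCell 536870912 536870912 536870912 536870912 649613803 48318383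
    (rowB 3 eng mog cd0q1 cd7q1 pd3 0 true false false .nn 1 1 3 (qsf 536870912 536870912 536870912 536870912 3) ndB0q1 ndB7q1 pcB3 Cut.none Ext.none)

def k0_mm_113 : ∃ t, chk3 f_mm_113 t 1 1 1 = true :=
  ⟨(l 4), by decide +kernel⟩

theorem c_mm_113 : CertB 536870912 536870912 536870912 536870912 649613803 48318383 3 eng mog cd0q1 cd7q1 pd3 true false false .nn 1 1 3
    ndB0q1 ndB7q1 pcB3 Cut.none Ext.none :=
  certB0 (fam := true) (s1 := false) (s2 := false) (a := 1) (b := 1) (c := 3) (cn := .nn) (n1 := ndB0q1) (n2 := ndB7q1) (pc := pcB3) (cut := Cut.none) (xt := Ext.none) (P1 := 536870912) (W1 := 536870912) (P2 := 536870912) (W2 := 536870912) (P3 := 649613803) (W3 := 48318383) (N0 := 3) (En := eng) (mo := mog) (C1 := cd0q1) (C2 := cd7q1) (C3 := pd3)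
    rfl k0_mm_113

noncomputable def f_mm_123 : ℕ → ℕ → ℕ → ℕ → Bool := onCell 536870912 536870912 1073741824 536870912 649613803 48318383
    (rowB 3 eng mog cd0q1 cd7q2 pd3 0 true false false .npn 1 2 3 (qsf 536870912 536870912 1073741824 536870912 3) ndB0q1 ndB7q2 pcB3 Cut.none Ext.none)

def k0_mm_123 : ∃ t, chk3 f_mm_123 t 1 1 1 = true :=
  ⟨(l 4), by decide +kernel⟩

theorem c_mm_123 : CertB 536870912 536870912 1073741824 536870912 649613803 48318383 3 eng mog cd0q1 cd7q2 pd3 true false false .npn 1 2 3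
    ndB0q1 ndB7q2 pcB3 Cut.none Ext.none :=
  certB0 (fam := true) (s1 := false) (s2 := false) (a := 1) (b := 2) (c := 3) (cn := .npn) (n1 := ndB0q1) (n2 := ndB7q2) (pc := pcB3) (cut := Cut.none) (xt := Ext.none) (P1 := 536870912) (W1 := 536870912) (P2 := 1073741824) (W2 := 536870912) (P3 := 649613803) (W3 := 48318383) (N0 := 3) (En := eng) (mo := mog) (C1 := cd0q1) (C2 := cd7q2) (C3 := pd3)
    rfl k0_mm_123

noncomputable def f_mm_133 : ℕ → ℕ → ℕ → ℕ → Bool := onCell 536870912 536870912 0 1230186008 649613803 48318383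
    (rowB 3 eng mog cd0q1 cd7q3 pd3 0 true false false .dn 1 3 3 (qsf 536870912 536870912 0 1230186008 3) ndB0q1 ndB7q3 pcB3 Cut.none Ext.none)

def k0_mm_133 : ∃ t, chk3 f_mm_133 t 1 1 1 = true :=
  ⟨(l 4), by decide +kernel⟩

theorem c_mm_133 : CertB 536870912 536870912 0 1230186008 649613803 48318383 3 eng mog cd0q1 cd7q3 pd3 true false false .dn 1 3 3
    ndB0q1 ndB7q3 pcB3 Cut.none Ext.none :=
  certB0 (fam := true) (s1 := false) (s2 := false) (a := 1) (b := 3) (c := 3) (cn := .dn) (n1 := ndB0q1) (n2 := ndB7q3) (pc := pcB3) (cut := Cut.none) (xt := Ext.none) (P1 := 536870912) (W1 := 536870912) (P2 := 0) (W2 := 1230186008) (P3 := 649613803) (W3 := 48318383) (N0 := 3) (En := eng) (mo := mog) (C1 := cd0q1) (C2 := cd7q3) (C3 := pd3)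
    rfl k0_mm_133

noncomputable def f_mm_202 : ℕ → ℕ → ℕ → ℕ → Bool := onCell 0 536870912 0 536870912 649613803 48318383
    (rowB 3 eng mog cd0q2 cd7q0 pd2 0 true false false .pp 2 0 2 (qsf 0 536870912 0 536870912 2) ndB0q2 ndB7q0 pcB2 Cut.none Ext.none)

def k0_mm_202 : ∃ t, chk3 f_mm_202 t 1 1 1 = true :=
  ⟨(l 4), by decide +kernel⟩

theorem c_mm_202 : CertB 0 536870912 0 536870912 649613803 48318383 3 eng mog cd0q2 cd7q0 pd2 true false false .pp 2 0 2
    ndB0q2 ndB7q0 pcB2 Cut.none Ext.none :=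
  certB0 (fam := true) (s1 := false) (s2 := false) (a := 2) (b := 0) (c := 2) (cn := .pp) (n1 := ndB0q2) (n2 := ndB7q0) (pc := pcB2) (cut := Cut.none) (xt := Ext.none) (P1 := 0) (W1 := 536870912) (P2 := 0) (W2 := 536870912) (P3 := 649613803) (W3 := 48318383) (N0 := 3) (En := eng) (mo := mog) (C1 := cd0q2) (C2 := cd7q0) (C3 := pd2)
    rfl k0_mm_202

noncomputable def f_mm_203 : ℕ → ℕ → ℕ → ℕ → Bool := onCell 0 536870912 0 536870912 649613803 48318383
    (rowB 3 eng mog cd0q2 cd7q0 pd3 0 true false false .up 2 0 3 (qsf 0 536870912 0 536870912 3) ndB0q2 ndB7q0 pcB3 Cut.none Ext.none)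

def k0_mm_203 : ∃ t, chk3 f_mm_203 t 1 1 1 = true :=
  ⟨(l 4), by decide +kernel⟩

theorem c_mm_203 : CertB 0 536870912 0 536870912 649613803 48318383 3 eng mog cd0q2 cd7q0 pd3 true false false .up 2 0 3
    ndB0q2 ndB7q0 pcB3 Cut.none Ext.none :=
  certB0 (fam := true) (s1 := false) (s2 := false) (a := 2) (b := 0) (c := 3) (cn := .up) (n1 := ndB0q2) (n2 := ndB7q0) (pc := pcB3) (cut := Cut.none) (xt := Ext.none) (P1 := 0) (W1 := 536870912) (P2 := 0) (W2 := 536870912) (P3 := 649613803) (W3 := 48318383) (N0 := 3) (En := eng) (mo := mog) (C1 := cd0q2) (C2 := cd7q0) (C3 := pd3)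
    rfl k0_mm_203

noncomputable def f_mm_213 : ℕ → ℕ → ℕ → ℕ → Bool := onCell 0 536870912 536870912 536870912 649613803 48318383
    (rowB 3 eng mog cd0q2 cd7q1 pd3 0 true false false .pnn 2 1 3 (qsf 0 536870912 536870912 536870912 3) ndB0q2 ndB7q1 pcB3 Cut.none Ext.none)

def k0_mm_213 : ∃ t, chk3 f_mm_213 t 1 1 1 = true :=
  ⟨(l 4), by decide +kernel⟩

theorem c_mm_213 : CertB 0 536870912 536870912 536870912 649613803 48318383 3 eng mog cd0q2 cd7q1 pd3 true false false .pnn 2 1 3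
    ndB0q2 ndB7q1 pcB3 Cut.none Ext.none :=
  certB0 (fam := true) (s1 := false) (s2 := false) (a := 2) (b := 1) (c := 3) (cn := .pnn) (n1 := ndB0q2) (n2 := ndB7q1) (pc := pcB3) (cut := Cut.none) (xt := Ext.none) (P1 := 0) (W1 := 536870912) (P2 := 536870912) (W2 := 536870912) (P3 := 649613803) (W3 := 48318383) (N0 := 3) (En := eng) (mo := mog) (C1 := cd0q2) (C2 := cd7q1) (C3 := pd3)
    rfl k0_mm_213

end Pool.Agent.Strip051.G.I6050_6500.Tab.C.BA07

namespace Pool.Agent.Strip051.G.I6050_6500.Tab.C.BA08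

open Pool.Agent.Strip051.PB Pool.Agent.Strip051.PB.T
open Pool.Agent.Strip051.G.I6050_6500.Tab

noncomputable def cut_pp_001 : Cut := Cut.of [[⟨3, 0, 0, 1449551462⟩]]

noncomputable def f_pp_001 : ℕ → ℕ → ℕ → ℕ → Bool := onCell 0 536870912 0 536870912 649613803 48318383
    (rowB 3 eng mog cd0q0 cd8q0 pd1 0 true true true .up 0 0 1 (qsf 0 536870912 0 536870912 1) ndB0q0 ndB8q0 pcB1 cut_pp_001 Ext.none)

def k0_pp_001 : ∃ t, chk3 f_pp_001 t 1 1 1 = true :=
  ⟨(l 4), by decide +kernel⟩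

theorem c_pp_001 : CertB 0 536870912 0 536870912 649613803 48318383 3 eng mog cd0q0 cd8q0 pd1 true true true .up 0 0 1
    ndB0q0 ndB8q0 pcB1 cut_pp_001 Ext.none :=
  certB0 (fam := true) (s1 := true) (s2 := true) (a := 0) (b := 0) (c := 1) (cn := .up) (n1 := ndB0q0) (n2 := ndB8q0) (pc := pcB1) (cut := cut_pp_001) (xt := Ext.none) (P1 := 0) (W1 := 536870912) (P2 := 0) (W2 := 536870912) (P3 := 649613803) (W3 := 48318383) (N0 := 3) (En := eng) (mo := mog) (C1 := cd0q0) (C2 := cd8q0) (C3 := pd1)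
    rfl k0_pp_001

noncomputable def cut_pp_011 : Cut := Cut.of [[⟨3, 0, 0, 1449551462⟩]]

noncomputable def f_pp_011 : ℕ → ℕ → ℕ → ℕ → Bool := onCell 0 536870912 536870912 536870912 649613803 48318383
    (rowB 3 eng mog cd0q0 cd8q1 pd1 0 true true true .pnn 0 1 1 (qsf 0 536870912 536870912 536870912 1) ndB0q0 ndB8q1 pcB1 cut_pp_011 Ext.none)

def k0_pp_011 : ∃ t, chk3 f_pp_011 t 1 1 1 = true :=
  ⟨(l 4), by decide +kernel⟩

theorem c_pp_011 : CertB 0 536870912 536870912 536870912 649613803 48318383 3 eng mog cd0q0 cd8q1 pd1 true true true .pnn 0 1 1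
    ndB0q0 ndB8q1 pcB1 cut_pp_011 Ext.none :=
  certB0 (fam := true) (s1 := true) (s2 := true) (a := 0) (b := 1) (c := 1) (cn := .pnn) (n1 := ndB0q0) (n2 := ndB8q1) (pc := pcB1) (cut := cut_pp_011) (xt := Ext.none) (P1 := 0) (W1 := 536870912) (P2 := 536870912) (W2 := 536870912) (P3 := 649613803) (W3 := 48318383) (N0 := 3) (En := eng) (mo := mog) (C1 := cd0q0) (C2 := cd8q1) (C3 := pd1)
    rfl k0_pp_011

noncomputable def cut_pp_012 : Cut := Cut.of [[⟨3, 0, 0, 1449551462⟩]]

noncomputable def f_pp_012 : ℕ → ℕ → ℕ → ℕ → Bool := onCell 0 536870912 536870912 536870912 649613803 48318383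
    (rowB 3 eng mog cd0q0 cd8q1 pd2 0 true true true .pnp 0 1 2 (qsf 0 536870912 536870912 536870912 2) ndB0q0 ndB8q1 pcB2 cut_pp_012 Ext.none)

def k0_pp_012 : ∃ t, chk3 f_pp_012 t 1 1 1 = true :=
  ⟨(l 4), by decide +kernel⟩

theorem c_pp_012 : CertB 0 536870912 536870912 536870912 649613803 48318383 3 eng mog cd0q0 cd8q1 pd2 true true true .pnp 0 1 2
    ndB0q0 ndB8q1 pcB2 cut_pp_012 Ext.none :=
  certB0 (fam := true) (s1 := true) (s2 := true) (a := 0) (b := 1) (c := 2) (cn := .pnp) (n1 := ndB0q0) (n2 := ndB8q1) (pc := pcB2) (cut := cut_pp_012) (xt := Ext.none) (P1 := 0) (W1 := 536870912) (P2 := 536870912) (W2 := 536870912) (P3 := 649613803) (W3 := 48318383) (N0 := 3) (En := eng) (mo := mog) (C1 := cd0q0) (C2 := cd8q1) (C3 := pd2)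
    rfl k0_pp_012

noncomputable def cut_pp_022 : Cut := Cut.of [[⟨3, 0, 0, 1449551462⟩]]

noncomputable def f_pp_022 : ℕ → ℕ → ℕ → ℕ → Bool := onCell 0 536870912 1073741824 536870912 649613803 48318383
    (rowB 3 eng mog cd0q0 cd8q2 pd2 0 true true true .pp 0 2 2 (qsf 0 536870912 1073741824 536870912 2) ndB0q0 ndB8q2 pcB2 cut_pp_022 Ext.none)

def k0_pp_022 : ∃ t, chk3 f_pp_022 t 1 1 1 = true :=
  ⟨(l 4), by decide +kernel⟩

theorem c_pp_022 : CertB 0 536870912 1073741824 536870912 649613803 48318383 3 eng mog cd0q0 cd8q2 pd2 true true true .pp 0 2 2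
    ndB0q0 ndB8q2 pcB2 cut_pp_022 Ext.none :=
  certB0 (fam := true) (s1 := true) (s2 := true) (a := 0) (b := 2) (c := 2) (cn := .pp) (n1 := ndB0q0) (n2 := ndB8q2) (pc := pcB2) (cut := cut_pp_022) (xt := Ext.none) (P1 := 0) (W1 := 536870912) (P2 := 1073741824) (W2 := 536870912) (P3 := 649613803) (W3 := 48318383) (N0 := 3) (En := eng) (mo := mog) (C1 := cd0q0) (C2 := cd8q2) (C3 := pd2)
    rfl k0_pp_022

noncomputable def cut_pp_023 : Cut := Cut.of [[⟨3, 0, 0, 1449551462⟩]]

noncomputable def f_pp_023 : ℕ → ℕ → ℕ → ℕ → Bool := onCell 0 536870912 1073741824 536870912 649613803 48318383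
    (rowB 3 eng mog cd0q0 cd8q2 pd3 0 true true true .up 0 2 3 (qsf 0 536870912 1073741824 536870912 3) ndB0q0 ndB8q2 pcB3 cut_pp_023 Ext.none)

def k0_pp_023 : ∃ t, chk3 f_pp_023 t 1 1 1 = true :=
  ⟨(l 4), by decide +kernel⟩

theorem c_pp_023 : CertB 0 536870912 1073741824 536870912 649613803 48318383 3 eng mog cd0q0 cd8q2 pd3 true true true .up 0 2 3
    ndB0q0 ndB8q2 pcB3 cut_pp_023 Ext.none :=
  certB0 (fam := true) (s1 := true) (s2 := true) (a := 0) (b := 2) (c := 3) (cn := .up) (n1 := ndB0q0) (n2 := ndB8q2) (pc := pcB3) (cut := cut_pp_023) (xt := Ext.none) (P1 := 0) (W1 := 536870912) (P2 := 1073741824) (W2 := 536870912) (P3 := 649613803) (W3 := 48318383) (N0 := 3) (En := eng) (mo := mog) (C1 := cd0q0) (C2 := cd8q2) (C3 := pd3)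
    rfl k0_pp_023

noncomputable def cut_pp_033 : Cut := Cut.of [[⟨3, 0, 0, 1449551462⟩]]

noncomputable def f_pp_033 : ℕ → ℕ → ℕ → ℕ → Bool := onCell 0 536870912 0 1230186008 649613803 48318383
    (rowB 3 eng mog cd0q0 cd8q3 pd3 0 true true true .pnn 0 3 3 (qsf 0 536870912 0 1230186008 3) ndB0q0 ndB8q3 pcB3 cut_pp_033 Ext.none)

def k0_pp_033 : ∃ t, chk3 f_pp_033 t 1 1 1 = true :=
  ⟨(l 4), by decide +kernel⟩

theorem c_pp_033 : CertB 0 536870912 0 1230186008 649613803 48318383 3 eng mog cd0q0 cd8q3 pd3 true true true .pnn 0 3 3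
    ndB0q0 ndB8q3 pcB3 cut_pp_033 Ext.none :=
  certB0 (fam := true) (s1 := true) (s2 := true) (a := 0) (b := 3) (c := 3) (cn := .pnn) (n1 := ndB0q0) (n2 := ndB8q3) (pc := pcB3) (cut := cut_pp_033) (xt := Ext.none) (P1 := 0) (W1 := 536870912) (P2 := 0) (W2 := 1230186008) (P3 := 649613803) (W3 := 48318383) (N0 := 3) (En := eng) (mo := mog) (C1 := cd0q0) (C2 := cd8q3) (C3 := pd3)
    rfl k0_pp_033

noncomputable def cut_pp_101 : Cut := Cut.of [[⟨3, 0, 0, 1449551462⟩]]

noncomputable def f_pp_101 : ℕ → ℕ → ℕ → ℕ → Bool := onCell 536870912 536870912 0 536870912 649613803 48318383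
    (rowB 3 eng mog cd0q1 cd8q0 pd1 0 true true true .npn 1 0 1 (qsf 536870912 536870912 0 536870912 1) ndB0q1 ndB8q0 pcB1 cut_pp_101 Ext.none)

def k0_pp_101 : ∃ t, chk3 f_pp_101 t 1 1 1 = true :=
  ⟨(l 4), by decide +kernel⟩

theorem c_pp_101 : CertB 536870912 536870912 0 536870912 649613803 48318383 3 eng mog cd0q1 cd8q0 pd1 true true true .npn 1 0 1
    ndB0q1 ndB8q0 pcB1 cut_pp_101 Ext.none :=
  certB0 (fam := true) (s1 := true) (s2 := true) (a := 1) (b := 0) (c := 1) (cn := .npn) (n1 := ndB0q1) (n2 := ndB8q0) (pc := pcB1) (cut := cut_pp_101) (xt := Ext.none) (P1 := 536870912) (W1 := 536870912) (P2 := 0) (W2 := 536870912) (P3 := 649613803) (W3 := 48318383) (N0 := 3) (En := eng) (mo := mog) (C1 := cd0q1) (C2 := cd8q0) (C3 := pd1)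
    rfl k0_pp_101

noncomputable def cut_pp_102 : Cut := Cut.of [[⟨3, 0, 0, 1449551462⟩]]

noncomputable def f_pp_102 : ℕ → ℕ → ℕ → ℕ → Bool := onCell 536870912 536870912 0 536870912 649613803 48318383
    (rowB 3 eng mog cd0q1 cd8q0 pd2 0 true true true .npp 1 0 2 (qsf 536870912 536870912 0 536870912 2) ndB0q1 ndB8q0 pcB2 cut_pp_102 Ext.none)

def k0_pp_102 : ∃ t, chk3 f_pp_102 t 1 1 1 = true :=
  ⟨(l 4), by decide +kernel⟩

theorem c_pp_102 : CertB 536870912 536870912 0 536870912 649613803 48318383 3 eng mog cd0q1 cd8q0 pd2 true true true .npp 1 0 2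
    ndB0q1 ndB8q0 pcB2 cut_pp_102 Ext.none :=
  certB0 (fam := true) (s1 := true) (s2 := true) (a := 1) (b := 0) (c := 2) (cn := .npp) (n1 := ndB0q1) (n2 := ndB8q0) (pc := pcB2) (cut := cut_pp_102) (xt := Ext.none) (P1 := 536870912) (W1 := 536870912) (P2 := 0) (W2 := 536870912) (P3 := 649613803) (W3 := 48318383) (N0 := 3) (En := eng) (mo := mog) (C1 := cd0q1) (C2 := cd8q0) (C3 := pd2)
    rfl k0_pp_102

noncomputable def cut_pp_112 : Cut := Cut.of [[⟨3, 0, 0, 1449551462⟩]]

noncomputable def f_pp_112 : ℕ → ℕ → ℕ → ℕ → Bool := onCell 536870912 536870912 536870912 536870912 649613803 48318383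
    (rowB 3 eng mog cd0q1 cd8q1 pd2 0 true true true .dn 1 1 2 (qsf 536870912 536870912 536870912 536870912 2) ndB0q1 ndB8q1 pcB2 cut_pp_112 Ext.none)

def k0_pp_112 : ∃ t, chk3 f_pp_112 t 1 1 1 = true :=
  ⟨(l 4), by decide +kernel⟩

theorem c_pp_112 : CertB 536870912 536870912 536870912 536870912 649613803 48318383 3 eng mog cd0q1 cd8q1 pd2 true true true .dn 1 1 2
    ndB0q1 ndB8q1 pcB2 cut_pp_112 Ext.none :=
  certB0 (fam := true) (s1 := true) (s2 := true) (a := 1) (b := 1) (c := 2) (cn := .dn) (n1 := ndB0q1) (n2 := ndB8q1) (pc := pcB2) (cut := cut_pp_112) (xt := Ext.none) (P1 := 536870912) (W1 := 536870912) (P2 := 536870912) (W2 := 536870912) (P3 := 649613803) (W3 := 48318383) (N0 := 3) (En := eng) (mo := mog) (C1 := cd0q1) (C2 := cd8q1) (C3 := pd2)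
    rfl k0_pp_112

noncomputable def cut_pp_113 : Cut := Cut.of [[⟨3, 0, 0, 1449551462⟩]]

noncomputable def f_pp_113 : ℕ → ℕ → ℕ → ℕ → Bool := onCell 536870912 536870912 536870912 536870912 649613803 48318383
    (rowB 3 eng mog cd0q1 cd8q1 pd3 0 true true true .nn 1 1 3 (qsf 536870912 536870912 536870912 536870912 3) ndB0q1 ndB8q1 pcB3 cut_pp_113 Ext.none)

def k0_pp_113 : ∃ t, chk3 f_pp_113 t 1 1 1 = true :=
  ⟨(l 4), by decide +kernel⟩

theorem c_pp_113 : CertB 536870912 536870912 536870912 536870912 649613803 48318383 3 eng mog cd0q1 cd8q1 pd3 true true true .nn 1 1 3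
    ndB0q1 ndB8q1 pcB3 cut_pp_113 Ext.none :=
  certB0 (fam := true) (s1 := true) (s2 := true) (a := 1) (b := 1) (c := 3) (cn := .nn) (n1 := ndB0q1) (n2 := ndB8q1) (pc := pcB3) (cut := cut_pp_113) (xt := Ext.none) (P1 := 536870912) (W1 := 536870912) (P2 := 536870912) (W2 := 536870912) (P3 := 649613803) (W3 := 48318383) (N0 := 3) (En := eng) (mo := mog) (C1 := cd0q1) (C2 := cd8q1) (C3 := pd3)
    rfl k0_pp_113

noncomputable def cut_pp_123 : Cut := Cut.of [[⟨3, 0, 0, 1449551462⟩]]

noncomputable def f_pp_123 : ℕ → ℕ → ℕ → ℕ → Bool := onCell 536870912 536870912 1073741824 536870912 649613803 48318383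
    (rowB 3 eng mog cd0q1 cd8q2 pd3 0 true true true .npn 1 2 3 (qsf 536870912 536870912 1073741824 536870912 3) ndB0q1 ndB8q2 pcB3 cut_pp_123 Ext.none)

def k0_pp_123 : ∃ t, chk3 f_pp_123 t 1 1 1 = true :=
  ⟨(l 4), by decide +kernel⟩

theorem c_pp_123 : CertB 536870912 536870912 1073741824 536870912 649613803 48318383 3 eng mog cd0q1 cd8q2 pd3 true true true .npn 1 2 3
    ndB0q1 ndB8q2 pcB3 cut_pp_123 Ext.none :=
  certB0 (fam := true) (s1 := true) (s2 := true) (a := 1) (b := 2) (c := 3) (cn := .npn) (n1 := ndB0q1) (n2 := ndB8q2) (pc := pcB3) (cut := cut_pp_123) (xt := Ext.none) (P1 := 536870912) (W1 := 536870912) (P2 := 1073741824) (W2 := 536870912) (P3 := 649613803) (W3 := 48318383) (N0 := 3) (En := eng) (mo := mog) (C1 := cd0q1) (C2 := cd8q2) (C3 := pd3)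
    rfl k0_pp_123

noncomputable def cut_pp_133 : Cut := Cut.of [[⟨3, 0, 0, 1449551462⟩]]

noncomputable def f_pp_133 : ℕ → ℕ → ℕ → ℕ → Bool := onCell 536870912 536870912 0 1230186008 649613803 48318383
    (rowB 3 eng mog cd0q1 cd8q3 pd3 0 true true true .dn 1 3 3 (qsf 536870912 536870912 0 1230186008 3) ndB0q1 ndB8q3 pcB3 cut_pp_133 Ext.none)

def k0_pp_133 : ∃ t, chk3 f_pp_133 t 1 1 1 = true :=
  ⟨(l 4), by decide +kernel⟩

theorem c_pp_133 : CertB 536870912 536870912 0 1230186008 649613803 48318383 3 eng mog cd0q1 cd8q3 pd3 true true true .dn 1 3 3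
    ndB0q1 ndB8q3 pcB3 cut_pp_133 Ext.none :=
  certB0 (fam := true) (s1 := true) (s2 := true) (a := 1) (b := 3) (c := 3) (cn := .dn) (n1 := ndB0q1) (n2 := ndB8q3) (pc := pcB3) (cut := cut_pp_133) (xt := Ext.none) (P1 := 536870912) (W1 := 536870912) (P2 := 0) (W2 := 1230186008) (P3 := 649613803) (W3 := 48318383) (N0 := 3) (En := eng) (mo := mog) (C1 := cd0q1) (C2 := cd8q3) (C3 := pd3)
    rfl k0_pp_133

noncomputable def cut_pp_202 : Cut := Cut.of [[⟨3, 0, 0, 1449551462⟩]]

noncomputable def f_pp_202 : ℕ → ℕ → ℕ → ℕ → Bool := onCell 0 536870912 0 536870912 649613803 48318383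
    (rowB 3 eng mog cd0q2 cd8q0 pd2 0 true true true .pp 2 0 2 (qsf 0 536870912 0 536870912 2) ndB0q2 ndB8q0 pcB2 cut_pp_202 Ext.none)

def k0_pp_202 : ∃ t, chk3 f_pp_202 t 1 1 1 = true :=
  ⟨(l 4), by decide +kernel⟩

theorem c_pp_202 : CertB 0 536870912 0 536870912 649613803 48318383 3 eng mog cd0q2 cd8q0 pd2 true true true .pp 2 0 2
    ndB0q2 ndB8q0 pcB2 cut_pp_202 Ext.none :=
  certB0 (fam := true) (s1 := true) (s2 := true) (a := 2) (b := 0) (c := 2) (cn := .pp) (n1 := ndB0q2) (n2 := ndB8q0) (pc := pcB2) (cut := cut_pp_202) (xt := Ext.none) (P1 := 0) (W1 := 536870912) (P2 := 0) (W2 := 536870912) (P3 := 649613803) (W3 := 48318383) (N0 := 3) (En := eng) (mo := mog) (C1 := cd0q2) (C2 := cd8q0) (C3 := pd2)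
    rfl k0_pp_202

noncomputable def cut_pp_203 : Cut := Cut.of [[⟨3, 0, 0, 1449551462⟩]]

noncomputable def f_pp_203 : ℕ → ℕ → ℕ → ℕ → Bool := onCell 0 536870912 0 536870912 649613803 48318383
    (rowB 3 eng mog cd0q2 cd8q0 pd3 0 true true true .up 2 0 3 (qsf 0 536870912 0 536870912 3) ndB0q2 ndB8q0 pcB3 cut_pp_203 Ext.none)

def k0_pp_203 : ∃ t, chk3 f_pp_203 t 1 1 1 = true :=
  ⟨(l 4), by decide +kernel⟩

theorem c_pp_203 : CertB 0 536870912 0 536870912 649613803 48318383 3 eng mog cd0q2 cd8q0 pd3 true true true .up 2 0 3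
    ndB0q2 ndB8q0 pcB3 cut_pp_203 Ext.none :=
  certB0 (fam := true) (s1 := true) (s2 := true) (a := 2) (b := 0) (c := 3) (cn := .up) (n1 := ndB0q2) (n2 := ndB8q0) (pc := pcB3) (cut := cut_pp_203) (xt := Ext.none) (P1 := 0) (W1 := 536870912) (P2 := 0) (W2 := 536870912) (P3 := 649613803) (W3 := 48318383) (N0 := 3) (En := eng) (mo := mog) (C1 := cd0q2) (C2 := cd8q0) (C3 := pd3)
    rfl k0_pp_203

noncomputable def cut_pp_213 : Cut := Cut.of [[⟨3, 0, 0, 1449551462⟩]]

noncomputable def f_pp_213 : ℕ → ℕ → ℕ → ℕ → Bool := onCell 0 536870912 536870912 536870912 649613803 48318383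
    (rowB 3 eng mog cd0q2 cd8q1 pd3 0 true true true .pnn 2 1 3 (qsf 0 536870912 536870912 536870912 3) ndB0q2 ndB8q1 pcB3 cut_pp_213 Ext.none)

def k0_pp_213 : ∃ t, chk3 f_pp_213 t 1 1 1 = true :=
  ⟨(l 4), by decide +kernel⟩

theorem c_pp_213 : CertB 0 536870912 536870912 536870912 649613803 48318383 3 eng mog cd0q2 cd8q1 pd3 true true true .pnn 2 1 3
    ndB0q2 ndB8q1 pcB3 cut_pp_213 Ext.none :=
  certB0 (fam := true) (s1 := true) (s2 := true) (a := 2) (b := 1) (c := 3) (cn := .pnn) (n1 := ndB0q2) (n2 := ndB8q1) (pc := pcB3) (cut := cut_pp_213) (xt := Ext.none) (P1 := 0) (W1 := 536870912) (P2 := 536870912) (W2 := 536870912) (P3 := 649613803) (W3 := 48318383) (N0 := 3) (En := eng) (mo := mog) (C1 := cd0q2) (C2 := cd8q1) (C3 := pd3)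
    rfl k0_pp_213

noncomputable def cut_pm_001 : Cut := Cut.of [[⟨3, 0, 0, 1449551462⟩]]

noncomputable def f_pm_001 : ℕ → ℕ → ℕ → ℕ → Bool := onCell 0 536870912 536870912 536870912 649613803 48318383
    (rowB 3 eng mog cd0q0 cd8q0 pd1 1 true true false .up 0 0 1 (qsf 0 536870912 0 536870912 1) ndB0q0 ndB8q0 pcB1 cut_pm_001 Ext.none)

def k0_pm_001 : ∃ t, chk3 f_pm_001 t 1 1 1 = true :=
  ⟨(a (l 6) (b (l 6) (b (l 6) (a (l 6) (a (l 6) (b (l 6) (b (l 6) (a (l 6) (l 16217808))))))))), by decide +kernel⟩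

theorem c_pm_001 : CertB 0 536870912 0 536870912 649613803 48318383 3 eng mog cd0q0 cd8q0 pd1 true true false .up 0 0 1
    ndB0q0 ndB8q0 pcB1 cut_pm_001 Ext.none :=
  certB1 (fam := true) (s1 := true) (s2 := false) (a := 0) (b := 0) (c := 1) (cn := .up) (n1 := ndB0q0) (n2 := ndB8q0) (pc := pcB1) (cut := cut_pm_001) (xt := Ext.none) (P1 := 0) (W1 := 536870912) (P2 := 0) (W2 := 536870912) (P3 := 649613803) (W3 := 48318383) (N0 := 3) (En := eng) (mo := mog) (C1 := cd0q0) (C2 := cd8q0) (C3 := pd1)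
    rfl (fun _ => rfl) k0_pm_001

noncomputable def cut_pm_011 : Cut := Cut.of [[⟨3, 0, 0, 1449551462⟩], [⟨0, 0, 0, 53687091⟩, ⟨1, 1, 0, 53687091⟩, ⟨2, 1, 0, 53687091⟩]]

noncomputable def f_pm_011 : ℕ → ℕ → ℕ → ℕ → Bool := onCell 0 536870912 536870912 536870912 649613803 48318383
    (rowB 3 eng mog cd0q0 cd8q1 pd1 1 true true false .pnn 0 1 1 (qsf 0 536870912 536870912 536870912 1) ndB0q0 ndB8q1 pcB1 cut_pm_011 Ext.none)

def k0_pm_011 : ∃ t, chk3 f_pm_011 t 1 1 1 = true :=
  ⟨(b (l 6) (a (l 6) (b (l 6) (a (l 6) (a (l 6) (b (l 6) (b (l 6) (a (l 6) (l 16177328))))))))), by decide +kernel⟩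

theorem c_pm_011 : CertB 0 536870912 536870912 536870912 649613803 48318383 3 eng mog cd0q0 cd8q1 pd1 true true false .pnn 0 1 1
    ndB0q0 ndB8q1 pcB1 cut_pm_011 Ext.none :=
  certB1 (fam := true) (s1 := true) (s2 := false) (a := 0) (b := 1) (c := 1) (cn := .pnn) (n1 := ndB0q0) (n2 := ndB8q1) (pc := pcB1) (cut := cut_pm_011) (xt := Ext.none) (P1 := 0) (W1 := 536870912) (P2 := 536870912) (W2 := 536870912) (P3 := 649613803) (W3 := 48318383) (N0 := 3) (En := eng) (mo := mog) (C1 := cd0q0) (C2 := cd8q1) (C3 := pd1)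
    rfl (fun _ => rfl) k0_pm_011

noncomputable def cut_pm_012 : Cut := Cut.of [[⟨3, 0, 0, 1449551462⟩], [⟨0, 0, 0, 67108864⟩, ⟨1, 1, 0, 67108864⟩, ⟨2, 1, 0, 67108864⟩]]

noncomputable def f_pm_012 : ℕ → ℕ → ℕ → ℕ → Bool := onCell 0 536870912 1073741824 536870912 649613803 48318383
    (rowB 3 eng mog cd0q0 cd8q1 pd2 1 true true false .pnp 0 1 2 (qsf 0 536870912 536870912 536870912 2) ndB0q0 ndB8q1 pcB2 cut_pm_012 Ext.none)

def k0_pm_012 : ∃ t, chk3 f_pm_012 t 1 2 1 = true :=
  ⟨(b (a (l 6) (a (a (l 6) (b (l 6) (b (l 6) (a (l 16207560) (l 16175784))))) (a (b (a (l 6) (b (l 6) (l 16162112))) (a (b (l 16178704) (l 16140328)) (b (l 16132752) (l 16098376)))) (b (a (b (l 16136928) (l 16101008)) (b (l 16097816) (l 16038008))) (a (b (l 16077664) (l 16048096)) (b (l 16019120) (l 15993336))))))) (a (b (a (l 6) (a (l 6) (b (l 6) (a (l 6) (b (l 6) (l 16150952)))))) (a (l 2) (a (b (b (l 6) (l 2)) (l 2)) (a (b (a (b (l 16117184) (l 16071624)) (b (l 16117528) (l 16117240)))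 (a (l 2) (b (l 16031040) (l 2)))) (b (a (b (l 16116528) (l 16077560)) (l 16117696)) (a (b (l 40901456583) (l 15993736)) (b (l 16040888) (l 45196361799)))))))) (a (b (a (a (b (l 6) (b (l 16167784) (l 16139048))) (b (b (l 16199256) (b (l 16180048) (b (l 16170640) (l 16186472)))) (b (l 16148640) (l 16124672)))) (b (b (a (l 16172456) (l 16143272)) (b (a (l 16154960) (l 16127136)) (a (b (l 16146512) (l 16142184)) (l 16223432)))) (a (l 16117552) (l 16094592)))) (a (a (b (a (l 16095232) (l 16093032)) (a (b (l 16044056) (l 16007712)) (l 16029904))) (b (l 16088640) (a (l 16032872) (l 16035080)))) (a (b (l 16080448) (l 16037048)) (b (l 16069136) (l 16036672))))) (b (a (b (b (a (l 16110064) (l 16070432)) (b (l 16097280) (a (l 16086928) (l 16048320)))) (a (l 16066600) (l 16031616))) (b (b (l 16164616) (b (l 16109536) (a (l 16001576) (l 16096840)))) (a (l 15988632) (b (l 15935640) (l 15943352))))) (a (a (l 16043888) (l 16028392)) (a (l 16007152) (l 15981896))))))), by decide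 +kernel⟩

def k1_pm_012 : ∃ t, chk3 f_pm_012 t 1 3 1 = true :=
  ⟨(a (a (l 2) (a (l 2) (b (b (a (l 2) (b (a (l 2) (b (l 15959936) (l 2))) (l 2))) (l 2)) (l 2)))) (a (b (a (b (a (b (a (b (l 53249373239) (l 15929864)) (b (l 15978192) (l 15962656))) (a (l 2) (b (l 15903648) (l 2)))) (b (a (b (l 15985696) (l 15952352)) (l 15977184)) (a (b (l 15917520) (l 15881264)) (b (l 15930136) (l 15897040))))) (a (l 2) (b (b (a (l 2) (l 15862632)) (l 2)) (l 2)))) (b (a (b (l 16008232) (a (l 15926592) (l 15938080))) (b (l 15997328) (l 15952808))) (a (b (b (a (l 15880112) (l 15896016)) (a (l 87072075783) (l 132169271703))) (b (a (l 2) (l 128947985239)) (l 2))) (b (b (l 15916760) (a (l 15884064) (l 15899456))) (a (b (l 15878344) (l 169750170311)) (b (l 15875784) (l 15893040))))))) (a (l 2) (b (a (l 2) (b (a (l 2) (b (l 205183660039) (l 2))) (l 2))) (l 2)))) (b (a (b (a (b (l 16003112) (l 15968216)) (l 15991864)) (a (b (l 15929416) (a (l 15881544) (l 15897752))) (b (l 15948784)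 (l 15918872)))) (b (a (l 15993704) (l 15992344)) (a (l 16206040) (b (l 15977488) (l 15966800))))) (a (b (a (b (a (b (l 15847632) (l 233637822039)) (l 147201710295)) (a (l 2) (l 258870783415))) (b (a (l 15877048) (l 15895080)) (a (l 197130692439) (l 15861392)))) (a (l 2) (b (l 291619965975) (l 2)))) (b (a (b (l 15920736) (l 15895096)) (b (l 15953680) (l 15938360))) (a (b (l 148275540903) (l 212700023351)) (b (a (l 15909288) (l 15935856)) (a (l 161160518071) (l 162234387063))))))))), by decide +kernel⟩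

theorem s2_pm_012 : ∃ t, chk3 f_pm_012 t 1 1 1 = true := ex3_b k0_pm_012 k1_pm_012

theorem c_pm_012 : CertB 0 536870912 536870912 536870912 649613803 48318383 3 eng mog cd0q0 cd8q1 pd2 true true false .pnp 0 1 2
    ndB0q0 ndB8q1 pcB2 cut_pm_012 Ext.none :=
  certB1 (fam := true) (s1 := true) (s2 := false) (a := 0) (b := 1) (c := 2) (cn := .pnp) (n1 := ndB0q0) (n2 := ndB8q1) (pc := pcB2) (cut := cut_pm_012) (xt := Ext.none) (P1 := 0) (W1 := 536870912) (P2 := 536870912) (W2 := 536870912) (P3 := 649613803) (W3 := 48318383) (N0 := 3) (En := eng) (mo := mog) (C1 := cd0q0) (C2 := cd8q1) (C3 := pd2)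
    rfl (fun _ => rfl) s2_pm_012

noncomputable def cut_pm_022 : Cut := Cut.of [[⟨3, 0, 0, 1449551462⟩], [⟨0, 0, 0, 67108864⟩, ⟨1, 1, 0, 67108864⟩, ⟨2, 1, 0, 67108864⟩]]

noncomputable def f_pm_022 : ℕ → ℕ → ℕ → ℕ → Bool := onCell 1073741824 536870912 1073741824 536870912 649613803 48318383
    (rowB 3 eng mog cd0q0 cd8q2 pd2 2 true true false .pp 0 2 2 (qsf 0 536870912 1073741824 536870912 2) ndB0q0 ndB8q2 pcB2 cut_pm_022 Ext.none)

def k0_pm_022 : ∃ t, chk3 f_pm_022 t 2 1 1 = true :=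
  ⟨(a (l 6) (b (a (l 6) (a (b (b (b (b (a (l 16133440) (l 16133592)) (a (l 6) (l 16122232))) (b (l 16170560) (l 16196080))) (l 6)) (l 6)) (b (b (b (b (a (l 16052936) (l 16017528)) (a (l 16083584) (l 16048032))) (b (l 16093536) (l 16119376))) (b (l 16154280) (l 16194416))) (b (b (l 16227216) (l 6)) (l 6))))) (l 6))), by decide +kernel⟩

def k1_pm_022 : ∃ t, chk3 f_pm_022 t 3 2 1 = true :=
  ⟨(a (b (b (a (b (a (b (a (l 15985624) (l 15957360)) (a (l 16015768) (l 15986984))) (b (a (l 15932856) (l 15911992)) (l 16076272))) (a (b (l 16028528) (l 16053984)) (b (l 15976984) (l 16001432)))) (b (a (a (b (l 15894664) (l 15922176)) (b (l 15880984) (l 15907688))) (b (a (l 15871096) (l 15864400)) (l 15934736))) (a (a (l 15959288) (l 15943928)) (b (l 15916200) (l 15937776))))) (a (b (a (l 16088568) (l 16034528)) (a (l 16128696) (l 16073424))) (a (b (l 16056720) (l 16029952)) (b (l 16050472) (l 16000072))))) (a (b (b (a (l 16162048) (l 16106128)) (a (l 16188168) (l 16132344)))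 (b (a (l 16207776) (l 16151896)) (a (l 16219208) (l 16164336)))) (b (a (b (l 16060776) (l 16085824)) (b (l 16027408) (l 16049968))) (b (a (l 16104928) (l 16067384)) (a (l 16116960) (l 16078648)))))) (b (a (b (b (a (b (a (l 15860536) (l 15858808)) (l 15904104)) (b (a (l 15859624) (l 15863800)) (l 15882720))) (a (b (l 15905040) (l 15925256)) (l 15934232))) (b (a (l 15952176) (l 15947424)) (a (l 15982544) (l 15976016)))) (b (a (b (a (l 15881224) (l 15891496)) (l 15920832)) (b (a (l 15907048) (l 15989808)) (l 15941560))) (b (a (l 15952808) (l 15966672)) (a (l 15978928) (l 15991056))))) (b (a (a (b (l 16007272) (l 16025816)) (b (l 15997944) (l 16013968))) (b (a (l 15999656) (l 16009808)) (l 16120432))) (a (b (l 16030376) (l 16227320)) (a (l 16021448) (l 16027960)))))), by decide +kernel⟩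

def k2_pm_022 : ∃ t, chk3 f_pm_022 t 3 3 1 = true :=
  ⟨(b (a (b (a (b (a (l 16219936) (l 16167408)) (a (l 6) (l 16157336))) (b (a (l 16120920) (l 16081792)) (l 16093088))) (a (b (a (l 1) (l 341482357463)) (l 1)) (b (l 16174664) (l 359198929655)))) (b (a (b (l 16038672) (l 16113072)) (b (l 16015272) (l 16001080))) (a (b (l 16007216) (l 15971632)) (b (l 15974296) (l 15929016))))) (a (b (a (l 1) (b (l 490195213559) (l 1))) (l 1)) (b (a (b (l 200284819255) (a (l 307122209735) (l 15967368))) (b (l 15912432) (l 16080840))) (a (b (l 340944954663) (l 1)) (b (l 15943432) (l 266856870711)))))), by decide +kernel⟩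

theorem s3_pm_022 : ∃ t, chk3 f_pm_022 t 3 1 1 = true := ex3_b k1_pm_022 k2_pm_022

theorem s4_pm_022 : ∃ t, chk3 f_pm_022 t 1 1 1 = true := ex3_a k0_pm_022 s3_pm_022

theorem c_pm_022 : CertB 0 536870912 1073741824 536870912 649613803 48318383 3 eng mog cd0q0 cd8q2 pd2 true true false .pp 0 2 2
    ndB0q0 ndB8q2 pcB2 cut_pm_022 Ext.none :=
  certB2 (fam := true) (s1 := true) (s2 := false) (a := 0) (b := 2) (c := 2) (cn := .pp) (n1 := ndB0q0) (n2 := ndB8q2) (pc := pcB2) (cut := cut_pm_022) (xt := Ext.none) (P1 := 0) (W1 := 536870912) (P2 := 1073741824) (W2 := 536870912) (P3 := 649613803) (W3 := 48318383) (N0 := 3) (En := eng) (mo := mog) (C1 := cd0q0) (C2 := cd8q2) (C3 := pd2)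
    rfl (fun _ => rfl) s4_pm_022

noncomputable def cut_pm_023 : Cut := Cut.of [[⟨3, 0, 0, 1449551462⟩]]

noncomputable def f_pm_023 : ℕ → ℕ → ℕ → ℕ → Bool := onCell 0 536870912 1610612736 536870912 649613803 48318383
    (rowB 3 eng mog cd0q0 cd8q2 pd3 1 true true false .up 0 2 3 (qsf 0 536870912 1073741824 536870912 3) ndB0q0 ndB8q2 pcB3 cut_pm_023 Ext.none)

def k0_pm_023 : ∃ t, chk3 f_pm_023 t 1 1 1 = true :=
  ⟨(a (b (b (a (b (a (b (l 15983184) (l 15967624)) (a (l 16089040) (l 15914144))) (a (b (l 15983744) (l 2)) (b (l 15958760) (l 15976968)))) (b (a (a (l 15863688) (l 15907936)) (a (l 15962480) (l 15998864))) (a (b (l 15877504) (l 15914200)) (b (l 15944888) (l 15904752))))) (a (a (l 2) (b (l 16061096) (l 2))) (b (a (b (l 15956800) (l 16054448)) (b (l 15879968) (l 16022584))) (a (l 16251704) (a (l 16186520) (l 16188776)))))) (a (l 2) (b (b (a (l 2) (b (l 16298672) (l 2))) (l 2)) (l 2)))) (b (b (a (b (a (a (l 16021088) (l 16031008)) (l 16022160)) (a (a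 (l 16022312) (l 16052504)) (l 16063912))) (b (a (a (l 15992640) (l 15963440)) (a (l 15931560) (b (l 15888368) (l 15916352)))) (a (b (l 16016360) (l 16046792)) (b (l 15956664) (l 15992208))))) (b (a (a (b (l 16041456) (l 16020584)) (b (l 16097280) (l 16119392))) (b (a (l 16077864) (b (l 16020224) (l 16037448))) (a (l 16120176) (b (l 16075656) (l 16102064))))) (a (a (a (l 16186584) (l 16185888)) (l 16183608)) (a (a (l 16181792) (l 16173952)) (l 16183704))))) (a (b (b (a (b (l 16317544) (l 16377208)) (a (l 16350744) (l 16343080))) (a (l 16444840) (a (l 16461384) (l 16461832)))) (b (a (l 2) (l 16300520)) (l 2))) (a (b (b (l 16321280) (a (l 16452664) (l 16437832))) (b (b (l 16514328) (l 16546240)) (b (l 16573560) (l 2)))) (b (b (a (l 16297048) (l 16282736)) (b (l 16380360) (l 16439064))) (b (b (l 16494440) (l 16536248)) (b (l 16572528) (b (l 16594448) (b (l 16601368) (l 4)))))))))), by decide +kernel⟩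

theorem c_pm_023 : CertB 0 536870912 1073741824 536870912 649613803 48318383 3 eng mog cd0q0 cd8q2 pd3 true true false .up 0 2 3
    ndB0q0 ndB8q2 pcB3 cut_pm_023 Ext.none :=
  certB1 (fam := true) (s1 := true) (s2 := false) (a := 0) (b := 2) (c := 3) (cn := .up) (n1 := ndB0q0) (n2 := ndB8q2) (pc := pcB3) (cut := cut_pm_023) (xt := Ext.none) (P1 := 0) (W1 := 536870912) (P2 := 1073741824) (W2 := 536870912) (P3 := 649613803) (W3 := 48318383) (N0 := 3) (En := eng) (mo := mog) (C1 := cd0q0) (C2 := cd8q2) (C3 := pd3)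
    rfl (fun _ => rfl) k0_pm_023

noncomputable def cut_pm_033 : Cut := Cut.of [[⟨3, 0, 0, 1449551462⟩]]

noncomputable def f_pm_033 : ℕ → ℕ → ℕ → ℕ → Bool := onCell 1610612736 536870912 0 1230186008 649613803 48318383
    (rowB 3 eng mog cd0q0 cd8q3 pd3 2 true true false .pnn 0 3 3 (qsf 0 536870912 0 1230186008 3) ndB0q0 ndB8q3 pcB3 cut_pm_033 Ext.none)

def k0_pm_033 : ∃ t, chk3 f_pm_033 t 1 1 1 = true :=
  ⟨(a (b (l 1) (a (b (l 1) (b (l 1) (b (a (l 1) (l 15995616)) (a (b (l 15961400) (l 15968168)) (l 16006744))))) (b (a (l 1) (b (l 1) (b (l 1) (a (l 1) (l 16230896))))) (b (a (b (l 475700423367) (l 16105568)) (b (l 388727468039) (l 16197584))) (b (a (l 16062624) (l 16188184)) (a (b (l 16036928) (l 16016008)) (l 16190632))))))) (a (b (l 1) (b (b (a (l 1) (b (a (l 1) (l 16534632)) (a (l 16303520) (l 16337328)))) (a (b (a (l 411812985351) (l 16273416)) (a (l 16246656) (l 16273192))) (b (a (l 16302008) (l 16344056)) (a (l 16304392) (l 16340648))))) (b (a (b (l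 16273224) (l 16286208)) (b (l 16344672) (l 16378656))) (a (b (l 16307992) (b (l 16332016) (l 16346632))) (b (l 16419096) (b (l 16450768) (l 16462320))))))) (b (b (l 4) (a (b (a (l 1) (l 4)) (a (b (l 1) (l 16381648)) (l 16399480))) (a (b (l 4) (l 16408776)) (l 4)))) (b (a (b (a (b (l 16377128) (l 16383192)) (b (l 16411664) (l 16417424))) (b (a (l 16381496) (l 16417760)) (l 16413752))) (a (b (a (l 16434816) (l 16443560)) (b (l 16464328) (l 16476472))) (a (b (l 16453272) (l 16499352)) (b (l 4) (a (l 16508792) (a (l 16512352) (l 446911444327))))))) (a (b (b (a (l 16404928) (l 16450688)) (l 16470320)) (b (b (l 16505208) (l 16522632)) (a (l 16519232) (l 16546992)))) (a (b (b (l 16499632) (l 16536152)) (b (l 16566008) (l 16573968))) (b (a (b (l 16535800) (l 16565632)) (a (b (l 16551768) (l 16578392)) (b (a (l 16560192) (l 16561712)) (l 16732840)))) (a (l 16758344) (a (l 16599416) (a (b (l 16598072) (l 16601728)) (l 706757160119))))))))))), by decide +kernel⟩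

theorem c_pm_033 : CertB 0 536870912 0 1230186008 649613803 48318383 3 eng mog cd0q0 cd8q3 pd3 true true false .pnn 0 3 3
    ndB0q0 ndB8q3 pcB3 cut_pm_033 Ext.none :=
  certB2 (fam := true) (s1 := true) (s2 := false) (a := 0) (b := 3) (c := 3) (cn := .pnn) (n1 := ndB0q0) (n2 := ndB8q3) (pc := pcB3) (cut := cut_pm_033) (xt := Ext.none) (P1 := 0) (W1 := 536870912) (P2 := 0) (W2 := 1230186008) (P3 := 649613803) (W3 := 48318383) (N0 := 3) (En := eng) (mo := mog) (C1 := cd0q0) (C2 := cd8q3) (C3 := pd3)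
    rfl (fun _ => rfl) k0_pm_033

noncomputable def cut_pm_101 : Cut := Cut.of [[⟨3, 0, 0, 1449551462⟩]]

noncomputable def f_pm_101 : ℕ → ℕ → ℕ → ℕ → Bool := onCell 536870912 536870912 536870912 536870912 649613803 48318383
    (rowB 3 eng mog cd0q1 cd8q0 pd1 1 true true false .npn 1 0 1 (qsf 536870912 536870912 0 536870912 1) ndB0q1 ndB8q0 pcB1 cut_pm_101 Ext.none)

def k0_pm_101 : ∃ t, chk3 f_pm_101 t 1 1 1 = true :=
  ⟨(b (a (b (l 6) (a (l 6) (b (l 6) (a (l 6) (a (l 6) (l 16558960)))))) (a (b (l 1) (a (b (l 1) (l 128882555655)) (l 1))) (l 1))) (a (b (a (l 6) (a (b (a (l 6) (l 16516336)) (a (b (l 6) (l 16378640)) (l 16410312))) (b (a (l 16503920) (l 16487424)) (a (l 16405080) (l 16399200))))) (a (b (a (l 6) (b (l 16269024) (l 16221280))) (a (b (a (l 6) (l 16116024)) (a (l 16110856) (l 16057480))) (a (l 16120664) (l 15984192)))) (a (b (a (l 16249984) (l 16257368)) (a (l 16015272) (l 16043872))) (b (a (l 16266456) (l 16273600)) (a (l 16070688) (l 16092488))))))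 (a (b (a (b (a (l 16467448) (l 16445184)) (a (l 16386488) (l 16364272))) (a (b (l 16425296) (l 43519466183)) (b (l 1) (b (l 16332984) (l 16285816))))) (a (b (a (l 16273160) (l 16263024)) (a (l 16104472) (l 16103568))) (b (a (l 16245944) (b (l 16243688) (l 16193040))) (a (l 16090880) (l 16070352))))) (b (a (b (l 1) (b (l 1) (a (l 128881990903) (l 1)))) (l 1)) (a (b (a (b (l 16212304) (l 16161400)) (b (a (l 16193888) (l 1)) (a (l 16137776) (l 16126504)))) (a (b (l 16097312) (l 16000496)) (b (l 16075936) (l 15991000)))) (b (b (l 1) (a (a (l 115459830455) (l 1)) (l 1))) (a (b (a (l 16058696) (l 104185329159)) (l 16104432)) (b (a (l 106869571863) (l 1)) (a (l 15977544) (l 15976320)))))))))), by decide +kernel⟩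

theorem c_pm_101 : CertB 536870912 536870912 0 536870912 649613803 48318383 3 eng mog cd0q1 cd8q0 pd1 true true false .npn 1 0 1
    ndB0q1 ndB8q0 pcB1 cut_pm_101 Ext.none :=
  certB1 (fam := true) (s1 := true) (s2 := false) (a := 1) (b := 0) (c := 1) (cn := .npn) (n1 := ndB0q1) (n2 := ndB8q0) (pc := pcB1) (cut := cut_pm_101) (xt := Ext.none) (P1 := 536870912) (W1 := 536870912) (P2 := 0) (W2 := 536870912) (P3 := 649613803) (W3 := 48318383) (N0 := 3) (En := eng) (mo := mog) (C1 := cd0q1) (C2 := cd8q0) (C3 := pd1)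
    rfl (fun _ => rfl) k0_pm_101

noncomputable def cut_pm_102 : Cut := Cut.of [[⟨3, 0, 0, 1449551462⟩]]

noncomputable def f_pm_102 : ℕ → ℕ → ℕ → ℕ → Bool := onCell 536870912 536870912 1073741824 536870912 649613803 48318383
    (rowB 3 eng mog cd0q1 cd8q0 pd2 1 true true false .npp 1 0 2 (qsf 536870912 536870912 0 536870912 2) ndB0q1 ndB8q0 pcB2 cut_pm_102 Ext.none)

def k0_pm_102 : ∃ t, chk3 f_pm_102 t 2 1 1 = true :=
  ⟨(b (a (b (b (a (b (a (l 16076832) (l 15987568)) (a (l 16001760) (l 15928776))) (b (a (l 15931096) (l 15860064)) (a (l 15873680) (l 15829576)))) (a (b (a (l 2) (l 15907816)) (l 2)) (b (a (l 15853096) (l 15803568)) (a (l 15830160) (l 15776720))))) (b (a (l 2) (b (a (l 2) (l 15747584)) (l 2))) (l 2))) (b (a (b (b (l 15937184) (l 15867376)) (b (l 15847320) (a (l 15729280) (l 15785064)))) (b (a (l 15944472) (l 15965288)) (a (l 15869544) (l 15922360)))) (b (a (b (a (l 15695424) (l 15743648)) (b (l 15639384) (l 15684760))) (b (l 15938744) (a (l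 15799560) (l 15868552)))) (a (a (l 2) (l 15913296)) (a (l 15848424) (l 15925264)))))) (a (l 2) (b (a (l 2) (b (l 273903761879) (l 2))) (l 2)))), by decide +kernel⟩

def k1_pm_102 : ∃ t, chk3 f_pm_102 t 3 1 1 = true :=
  ⟨(b (a (b (a (b (a (l 15991840) (l 15997712)) (a (l 15955600) (l 15971568))) (b (a (l 15985088) (l 15968576)) (a (l 15976544) (l 15978656)))) (b (a (b (l 15942440) (b (l 15931760) (l 15946104))) (b (l 15983112) (b (l 15988880) (l 16011320)))) (a (a (l 15987160) (l 16037440)) (l 16093696)))) (b (a (b (a (b (l 15952936) (l 15965160)) (b (l 15944880) (l 15965264))) (a (l 15985504) (b (l 15986784) (l 16009912)))) (b (a (b (a (l 15942384) (l 15940664)) (l 15968504)) (b (a (l 15939008) (l 16000032)) (a (l 15971856) (l 16014560)))) (a (b (l 15997136) (l 16027024)) (b (a (l 16005456) (l 16010400)) (l 16043928))))) (a (b (b (l 16085192) (a (l 16041032) (l 16069512))) (a (l 16144256) (l 16174944))) (b (b (a (l 16058496) (l 16081544)) (a (l 16098104) (l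 16125408))) (a (l 16202848) (l 16226904)))))) (a (b (b (a (l 16112504) (l 16213328)) (a (l 16288816) (l 16318712))) (a (l 2) (b (l 16413248) (l 2)))) (b (b (a (l 16289784) (l 16346008)) (a (l 16406752) (l 16467856))) (a (b (l 16516464) (l 16576184)) (b (l 16575968) (l 16637520)))))), by decide +kernel⟩

theorem s2_pm_102 : ∃ t, chk3 f_pm_102 t 1 1 1 = true := ex3_a k0_pm_102 k1_pm_102

theorem c_pm_102 : CertB 536870912 536870912 0 536870912 649613803 48318383 3 eng mog cd0q1 cd8q0 pd2 true true false .npp 1 0 2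
    ndB0q1 ndB8q0 pcB2 cut_pm_102 Ext.none :=
  certB1 (fam := true) (s1 := true) (s2 := false) (a := 1) (b := 0) (c := 2) (cn := .npp) (n1 := ndB0q1) (n2 := ndB8q0) (pc := pcB2) (cut := cut_pm_102) (xt := Ext.none) (P1 := 536870912) (W1 := 536870912) (P2 := 0) (W2 := 536870912) (P3 := 649613803) (W3 := 48318383) (N0 := 3) (En := eng) (mo := mog) (C1 := cd0q1) (C2 := cd8q0) (C3 := pd2)
    rfl (fun _ => rfl) s2_pm_102

noncomputable def cut_pm_112 : Cut := Cut.of [[⟨3, 0, 0, 1449551462⟩]]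

noncomputable def f_pm_112 : ℕ → ℕ → ℕ → ℕ → Bool := onCell 536870912 536870912 1073741824 536870912 649613803 48318383
    (rowB 3 eng mog cd0q1 cd8q1 pd2 1 true true false .dn 1 1 2 (qsf 536870912 536870912 536870912 536870912 2) ndB0q1 ndB8q1 pcB2 cut_pm_112 Ext.none)

def k0_pm_112 : ∃ t, chk3 f_pm_112 t 1 1 1 = true :=
  ⟨(a (b (a (b (a (b (b (a (l 16036552) (l 15989392)) (l 16107000)) (b (a (l 15963064) (l 15906672)) (l 15913016))) (b (a (l 15999248) (l 1)) (a (l 15883232) (l 15789424)))) (b (a (b (a (l 15911152) (l 15858264)) (b (a (l 15886384) (l 15834936)) (l 15878032))) (b (l 15774408) (b (l 15731008) (l 15782344)))) (a (a (l 15958552) (l 15934792)) (a (l 15909440) (l 15882584))))) (b (a (b (l 1) (b (l 1) (l 15744576))) (l 1)) (b (a (b (l 15698488) (a (l 15689216) (l 15713640))) (b (l 1) (l 254508484599))) (a (a (l 15855856) (l 15829376)) (l 15933616))))) (a (b (b (a (l 15992360) (l 15991120)) (a (b (l 15997512) (l 16000208)) (l 16034616))) (a (b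 (b (l 15999168) (l 15996016)) (a (b (l 15969656) (l 15961568)) (l 16013232))) (b (l 16063080) (l 16082152)))) (b (a (b (l 15991904) (l 16071464)) (b (l 15994832) (l 16113920))) (a (b (l 16129072) (l 16172440)) (b (l 16199296) (l 16268672)))))) (b (a (b (l 1) (b (l 1) (a (l 16015072) (l 1)))) (l 1)) (b (a (b (a (l 16116040) (l 16216088)) (a (l 16209120) (l 16321912))) (a (b (l 1) (l 16409792)) (l 1))) (a (a (b (l 16300448) (l 16365184)) (b (l 16417560) (l 16477680))) (b (a (l 16520336) (l 16579720)) (a (l 16581440) (l 16642152))))))), by decide +kernel⟩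

theorem c_pm_112 : CertB 536870912 536870912 536870912 536870912 649613803 48318383 3 eng mog cd0q1 cd8q1 pd2 true true false .dn 1 1 2
    ndB0q1 ndB8q1 pcB2 cut_pm_112 Ext.none :=
  certB1 (fam := true) (s1 := true) (s2 := false) (a := 1) (b := 1) (c := 2) (cn := .dn) (n1 := ndB0q1) (n2 := ndB8q1) (pc := pcB2) (cut := cut_pm_112) (xt := Ext.none) (P1 := 536870912) (W1 := 536870912) (P2 := 536870912) (W2 := 536870912) (P3 := 649613803) (W3 := 48318383) (N0 := 3) (En := eng) (mo := mog) (C1 := cd0q1) (C2 := cd8q1) (C3 := pd2)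
    rfl (fun _ => rfl) k0_pm_112

noncomputable def cut_pm_113 : Cut := Cut.of [[⟨3, 0, 0, 1449551462⟩]]

noncomputable def f_pm_113 : ℕ → ℕ → ℕ → ℕ → Bool := onCell 536870912 536870912 1610612736 536870912 649613803 48318383
    (rowB 3 eng mog cd0q1 cd8q1 pd3 1 true true false .nn 1 1 3 (qsf 536870912 536870912 536870912 536870912 3) ndB0q1 ndB8q1 pcB3 cut_pm_113 Ext.none)

def k0_pm_113 : ∃ t, chk3 f_pm_113 t 1 1 1 = true :=
  ⟨(a (b (b (a (b (a (a (l 253502087911) (l 186393349975)) (a (l 15954056) (l 16016864))) (a (b (l 305041672167) (l 2)) (b (l 280345776935) (l 266387073751)))) (b (a (l 16112656) (l 16231968)) (a (a (l 16038648) (l 16114064)) (l 16197848)))) (b (a (b (a (l 2) (b (l 316852754055) (l 2))) (l 2)) (a (b (l 305578773111) (b (l 338864717143) (l 342085869591))) (a (l 16150768) (l 16202840)))) (a (l 2) (a (a (l 2) (l 382351372423)) (b (l 16166680) (l 395773456503)))))) (b (a (l 2) (b (a (l 2) (b (l 428522721319) (l 2))) (l 2))) (l 2))) (a (b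 (b (b (a (l 16340584) (l 16466056)) (a (l 16307936) (l 16437128))) (b (a (l 16288800) (l 16414960)) (a (b (l 16279936) (l 16280056)) (l 16401984)))) (b (b (a (b (l 16283232) (l 16284288)) (l 102240075943)) (a (b (l 524622965863) (l 2)) (l 4))) (l 4))) (b (a (b (b (l 16571656) (l 16542344)) (b (l 16523552) (l 16494512))) (b (b (l 16645040) (l 16619688)) (l 4))) (l 4)))), by decide +kernel⟩

theorem c_pm_113 : CertB 536870912 536870912 536870912 536870912 649613803 48318383 3 eng mog cd0q1 cd8q1 pd3 true true false .nn 1 1 3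
    ndB0q1 ndB8q1 pcB3 cut_pm_113 Ext.none :=
  certB1 (fam := true) (s1 := true) (s2 := false) (a := 1) (b := 1) (c := 3) (cn := .nn) (n1 := ndB0q1) (n2 := ndB8q1) (pc := pcB3) (cut := cut_pm_113) (xt := Ext.none) (P1 := 536870912) (W1 := 536870912) (P2 := 536870912) (W2 := 536870912) (P3 := 649613803) (W3 := 48318383) (N0 := 3) (En := eng) (mo := mog) (C1 := cd0q1) (C2 := cd8q1) (C3 := pd3)
    rfl (fun _ => rfl) k0_pm_113

noncomputable def cut_pm_123 : Cut := Cut.of [[⟨3, 0, 0, 1449551462⟩]]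

noncomputable def f_pm_123 : ℕ → ℕ → ℕ → ℕ → Bool := onCell 536870912 536870912 1610612736 536870912 649613803 48318383
    (rowB 3 eng mog cd0q1 cd8q2 pd3 1 true true false .npn 1 2 3 (qsf 536870912 536870912 1073741824 536870912 3) ndB0q1 ndB8q2 pcB3 cut_pm_123 Ext.none)

def k0_pm_123 : ∃ t, chk3 f_pm_123 t 1 1 1 = true :=
  ⟨(a (a (b (b (b (a (b (a (l 15856632) (l 374767873671)) (l 154114166327)) (b (l 1) (l 390337288439))) (a (b (a (l 15920880) (l 15903616)) (l 15955120)) (b (l 172904626503) (l 16026840)))) (b (b (a (b (l 15988928) (l 16010848)) (b (l 15985584) (l 16014544))) (a (b (l 16051000) (l 16082344)) (a (l 16066992) (l 16069216)))) (a (l 16153784) (b (l 16124544) (l 16180712))))) (b (b (a (b (l 16241984) (l 16299536)) (b (l 16237120) (l 16289664))) (a (b (l 16356840) (l 16413616)) (b (l 16341992) (l 16396136)))) (b (a (b (l 16464328) (l 16518712)) (b (l 16441136) (l 16483960))) (b (a (l 16557984) (l 16524896)) (b (a (l 16581184) (l 4)) (l 4))))))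 (b (b (b (l 1) (a (b (l 1) (l 407517170519)) (l 1))) (b (a (a (b (l 16019440) (l 16076976)) (l 274910136647)) (b (l 1) (l 438656079095))) (a (b (l 16133768) (l 16186224)) (b (l 16140488) (l 16190128))))) (b (b (a (b (l 16237984) (l 16285280)) (b (l 16236960) (l 16278216))) (a (b (l 16330408) (l 16369496)) (b (l 16313768) (l 16342312)))) (b (a (b (l 16410968) (l 16444896)) (b (l 16370312) (l 4))) (l 4))))) (a (b (b (l 1) (b (l 1) (a (a (l 460131017527) (l 1)) (l 1)))) (b (b (a (b (l 16267264) (l 16297976)) (b (l 1) (l 4))) (a (b (l 16310432) (l 4)) (l 4))) (l 4))) (b (l 1) (l 4)))), by decide +kernel⟩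

theorem c_pm_123 : CertB 536870912 536870912 1073741824 536870912 649613803 48318383 3 eng mog cd0q1 cd8q2 pd3 true true false .npn 1 2 3
    ndB0q1 ndB8q2 pcB3 cut_pm_123 Ext.none :=
  certB1 (fam := true) (s1 := true) (s2 := false) (a := 1) (b := 2) (c := 3) (cn := .npn) (n1 := ndB0q1) (n2 := ndB8q2) (pc := pcB3) (cut := cut_pm_123) (xt := Ext.none) (P1 := 536870912) (W1 := 536870912) (P2 := 1073741824) (W2 := 536870912) (P3 := 649613803) (W3 := 48318383) (N0 := 3) (En := eng) (mo := mog) (C1 := cd0q1) (C2 := cd8q2) (C3 := pd3)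
    rfl (fun _ => rfl) k0_pm_123

noncomputable def cut_pm_133 : Cut := Cut.of [[⟨3, 0, 0, 1449551462⟩]]

noncomputable def f_pm_133 : ℕ → ℕ → ℕ → ℕ → Bool := onCell 536870912 536870912 0 1230186008 649613803 48318383
    (rowB 3 eng mog cd0q1 cd8q3 pd3 0 true true false .dn 1 3 3 (qsf 536870912 536870912 0 1230186008 3) ndB0q1 ndB8q3 pcB3 cut_pm_133 Ext.none)

def k0_pm_133 : ∃ t, chk3 f_pm_133 t 1 1 1 = true :=
  ⟨(b (l 2) (b (l 2) (a (b (l 2) (l 4)) (l 2)))), by decide +kernel⟩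

theorem c_pm_133 : CertB 536870912 536870912 0 1230186008 649613803 48318383 3 eng mog cd0q1 cd8q3 pd3 true true false .dn 1 3 3
    ndB0q1 ndB8q3 pcB3 cut_pm_133 Ext.none :=
  certB0 (fam := true) (s1 := true) (s2 := false) (a := 1) (b := 3) (c := 3) (cn := .dn) (n1 := ndB0q1) (n2 := ndB8q3) (pc := pcB3) (cut := cut_pm_133) (xt := Ext.none) (P1 := 536870912) (W1 := 536870912) (P2 := 0) (W2 := 1230186008) (P3 := 649613803) (W3 := 48318383) (N0 := 3) (En := eng) (mo := mog) (C1 := cd0q1) (C2 := cd8q3) (C3 := pd3)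
    rfl k0_pm_133

end Pool.Agent.Strip051.G.I6050_6500.Tab.C.BA08

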