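import Pool.Agent.Strip051.G.I6050_6500.Tab

/-! # Certificates B10 (generated) -/

set_option linter.all false
set_option maxRecDepth 100000

namespace Pool.Agent.Strip051.G.I6050_6500.Tab.C.BA08

open Pool.Agent.Strip051.PB Pool.Agent.Strip051.PB.T
open Pool.Agent.Strip051.G.I6050_6500.Tab

noncomputable def cut_pm_202 : Cut := Cut.of [[⟨3, 0, 0, 1449551462⟩]]

noncomputable def f_pm_202 : ℕ → ℕ → ℕ → ℕ → Bool := onCell 0 536870912 0 536870912 649613803 48318383
    (rowB 3 eng mog cd0q2 cd8q0 pd2 0 true true false .pp 2 0 2 (qsf 0 536870912 0 536870912 2) ndB0q2 ndB8q0 pcB2 cut_pm_202 Ext.none)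

def k0_pm_202 : ∃ t, chk3 f_pm_202 t 1 1 1 = true :=
  ⟨(a (l 4) (a (b (a (b (b (b (a (l 4) (l 16017224)) (l 16162624)) (l 4)) (l 4)) (b (b (b (a (l 15991864) (l 15971360)) (l 16017944)) (b (a (l 16077592) (l 16051632)) (l 16118296))) (b (a (l 4) (l 16195616)) (l 4)))) (l 4)) (a (b (b (b (b (a (l 15953984) (b (l 15934768) (l 15947840))) (a (l 15987832) (l 15973488))) (b (l 16023704) (l 16162240))) (b (b (l 16143224) (l 16212424)) (b (l 16282936) (l 16354656)))) (b (b (b (l 16419560) (l 16472616)) (b (l 16523512) (l 4))) (l 4))) (b (b (b (a (b (b (a (l 15927592) (l 15923504)) (l 15938400)) (l 15966272)) (b (a (b (b (a (l 15919848) (l 15918672)) (l 15924760)) (l 15937032)) (b (a (b (b (l 15979744) (l 15919752)) (l 15925656)) (b (a (l 15919208) (l 15922712)) (l 15930936))) (a (l 15941536) (l 15950456)))) (a (l 15970784) (b (l 15973152) (l 15994856))))) (a (b (l 16015152) (l 16073224)) (b (a (l 16026880) (l 16024432)) (l 16073816)))) (b (a (b (l 16141160) (l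 16214408)) (b (l 16114472) (l 16167528))) (a (l 16300992) (l 16263600)))) (b (b (b (l 16370584) (l 16427784)) (a (l 16522152) (l 16502184))) (b (b (l 16589136) (l 16628056)) (b (l 16654536) (l 4)))))))), by decide +kernel⟩

theorem c_pm_202 : CertB 0 536870912 0 536870912 649613803 48318383 3 eng mog cd0q2 cd8q0 pd2 true true false .pp 2 0 2
    ndB0q2 ndB8q0 pcB2 cut_pm_202 Ext.none :=
  certB0 (fam := true) (s1 := true) (s2 := false) (a := 2) (b := 0) (c := 2) (cn := .pp) (n1 := ndB0q2) (n2 := ndB8q0) (pc := pcB2) (cut := cut_pm_202) (xt := Ext.none) (P1 := 0) (W1 := 536870912) (P2 := 0) (W2 := 536870912) (P3 := 649613803) (W3 := 48318383) (N0 := 3) (En := eng) (mo := mog) (C1 := cd0q2) (C2 := cd8q0) (C3 := pd2)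
    rfl k0_pm_202

noncomputable def cut_pm_203 : Cut := Cut.of [[⟨3, 0, 0, 1449551462⟩]]

noncomputable def f_pm_203 : ℕ → ℕ → ℕ → ℕ → Bool := onCell 0 536870912 1610612736 536870912 649613803 48318383
    (rowB 3 eng mog cd0q2 cd8q0 pd3 1 true true false .up 2 0 3 (qsf 0 536870912 0 536870912 3) ndB0q2 ndB8q0 pcB3 cut_pm_203 Ext.none)

def k0_pm_203 : ∃ t, chk3 f_pm_203 t 1 1 1 = true :=
  ⟨(a (l 4) (b (l 4) (l 2))), by decide +kernel⟩

theorem c_pm_203 : CertB 0 536870912 0 536870912 649613803 48318383 3 eng mog cd0q2 cd8q0 pd3 true true false .up 2 0 3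
    ndB0q2 ndB8q0 pcB3 cut_pm_203 Ext.none :=
  certB1 (fam := true) (s1 := true) (s2 := false) (a := 2) (b := 0) (c := 3) (cn := .up) (n1 := ndB0q2) (n2 := ndB8q0) (pc := pcB3) (cut := cut_pm_203) (xt := Ext.none) (P1 := 0) (W1 := 536870912) (P2 := 0) (W2 := 536870912) (P3 := 649613803) (W3 := 48318383) (N0 := 3) (En := eng) (mo := mog) (C1 := cd0q2) (C2 := cd8q0) (C3 := pd3)
    rfl (fun _ => rfl) k0_pm_203

noncomputable def cut_pm_213 : Cut := Cut.of [[⟨3, 0, 0, 1449551462⟩]]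

noncomputable def f_pm_213 : ℕ → ℕ → ℕ → ℕ → Bool := onCell 0 536870912 536870912 536870912 649613803 48318383
    (rowB 3 eng mog cd0q2 cd8q1 pd3 0 true true false .pnn 2 1 3 (qsf 0 536870912 536870912 536870912 3) ndB0q2 ndB8q1 pcB3 cut_pm_213 Ext.none)

def k0_pm_213 : ∃ t, chk3 f_pm_213 t 1 1 1 = true :=
  ⟨(a (l 4) (b (l 4) (l 4))), by decide +kernel⟩

theorem c_pm_213 : CertB 0 536870912 536870912 536870912 649613803 48318383 3 eng mog cd0q2 cd8q1 pd3 true true false .pnn 2 1 3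
    ndB0q2 ndB8q1 pcB3 cut_pm_213 Ext.none :=
  certB0 (fam := true) (s1 := true) (s2 := false) (a := 2) (b := 1) (c := 3) (cn := .pnn) (n1 := ndB0q2) (n2 := ndB8q1) (pc := pcB3) (cut := cut_pm_213) (xt := Ext.none) (P1 := 0) (W1 := 536870912) (P2 := 536870912) (W2 := 536870912) (P3 := 649613803) (W3 := 48318383) (N0 := 3) (En := eng) (mo := mog) (C1 := cd0q2) (C2 := cd8q1) (C3 := pd3)
    rfl k0_pm_213

noncomputable def cut_mm_001 : Cut := Cut.of [[⟨3, 0, 0, 1449551462⟩]]

noncomputable def f_mm_001 : ℕ → ℕ → ℕ → ℕ → Bool := onCell 0 536870912 0 536870912 649613803 48318383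
    (rowB 3 eng mog cd0q0 cd8q0 pd1 0 true false false .up 0 0 1 (qsf 0 536870912 0 536870912 1) ndB0q0 ndB8q0 pcB1 cut_mm_001 Ext.none)

def k0_mm_001 : ∃ t, chk3 f_mm_001 t 1 1 1 = true :=
  ⟨(l 4), by decide +kernel⟩

theorem c_mm_001 : CertB 0 536870912 0 536870912 649613803 48318383 3 eng mog cd0q0 cd8q0 pd1 true false false .up 0 0 1
    ndB0q0 ndB8q0 pcB1 cut_mm_001 Ext.none :=
  certB0 (fam := true) (s1 := false) (s2 := false) (a := 0) (b := 0) (c := 1) (cn := .up) (n1 := ndB0q0) (n2 := ndB8q0) (pc := pcB1) (cut := cut_mm_001) (xt := Ext.none) (P1 := 0) (W1 := 536870912) (P2 := 0) (W2 := 536870912) (P3 := 649613803) (W3 := 48318383) (N0 := 3) (En := eng) (mo := mog) (C1 := cd0q0) (C2 := cd8q0) (C3 := pd1)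
    rfl k0_mm_001

noncomputable def cut_mm_011 : Cut := Cut.of [[⟨3, 0, 0, 1449551462⟩]]

noncomputable def f_mm_011 : ℕ → ℕ → ℕ → ℕ → Bool := onCell 0 536870912 536870912 536870912 649613803 48318383
    (rowB 3 eng mog cd0q0 cd8q1 pd1 0 true false false .pnn 0 1 1 (qsf 0 536870912 536870912 536870912 1) ndB0q0 ndB8q1 pcB1 cut_mm_011 Ext.none)

def k0_mm_011 : ∃ t, chk3 f_mm_011 t 1 1 1 = true :=
  ⟨(l 4), by decide +kernel⟩

theorem c_mm_011 : CertB 0 536870912 536870912 536870912 649613803 48318383 3 eng mog cd0q0 cd8q1 pd1 true false false .pnn 0 1 1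
    ndB0q0 ndB8q1 pcB1 cut_mm_011 Ext.none :=
  certB0 (fam := true) (s1 := false) (s2 := false) (a := 0) (b := 1) (c := 1) (cn := .pnn) (n1 := ndB0q0) (n2 := ndB8q1) (pc := pcB1) (cut := cut_mm_011) (xt := Ext.none) (P1 := 0) (W1 := 536870912) (P2 := 536870912) (W2 := 536870912) (P3 := 649613803) (W3 := 48318383) (N0 := 3) (En := eng) (mo := mog) (C1 := cd0q0) (C2 := cd8q1) (C3 := pd1)
    rfl k0_mm_011

noncomputable def cut_mm_012 : Cut := Cut.of [[⟨3, 0, 0, 1449551462⟩]]

noncomputable def f_mm_012 : ℕ → ℕ → ℕ → ℕ → Bool := onCell 0 536870912 536870912 536870912 649613803 48318383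
    (rowB 3 eng mog cd0q0 cd8q1 pd2 0 true false false .pnp 0 1 2 (qsf 0 536870912 536870912 536870912 2) ndB0q0 ndB8q1 pcB2 cut_mm_012 Ext.none)

def k0_mm_012 : ∃ t, chk3 f_mm_012 t 1 1 1 = true :=
  ⟨(l 4), by decide +kernel⟩

theorem c_mm_012 : CertB 0 536870912 536870912 536870912 649613803 48318383 3 eng mog cd0q0 cd8q1 pd2 true false false .pnp 0 1 2
    ndB0q0 ndB8q1 pcB2 cut_mm_012 Ext.none :=
  certB0 (fam := true) (s1 := false) (s2 := false) (a := 0) (b := 1) (c := 2) (cn := .pnp) (n1 := ndB0q0) (n2 := ndB8q1) (pc := pcB2) (cut := cut_mm_012) (xt := Ext.none) (P1 := 0) (W1 := 536870912) (P2 := 536870912) (W2 := 536870912) (P3 := 649613803) (W3 := 48318383) (N0 := 3) (En := eng) (mo := mog) (C1 := cd0q0) (C2 := cd8q1) (C3 := pd2)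
    rfl k0_mm_012

noncomputable def cut_mm_022 : Cut := Cut.of [[⟨3, 0, 0, 1449551462⟩]]

noncomputable def f_mm_022 : ℕ → ℕ → ℕ → ℕ → Bool := onCell 0 536870912 1073741824 536870912 649613803 48318383
    (rowB 3 eng mog cd0q0 cd8q2 pd2 0 true false false .pp 0 2 2 (qsf 0 536870912 1073741824 536870912 2) ndB0q0 ndB8q2 pcB2 cut_mm_022 Ext.none)

def k0_mm_022 : ∃ t, chk3 f_mm_022 t 1 1 1 = true :=
  ⟨(l 4), by decide +kernel⟩

theorem c_mm_022 : CertB 0 536870912 1073741824 536870912 649613803 48318383 3 eng mog cd0q0 cd8q2 pd2 true false false .pp 0 2 2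
    ndB0q0 ndB8q2 pcB2 cut_mm_022 Ext.none :=
  certB0 (fam := true) (s1 := false) (s2 := false) (a := 0) (b := 2) (c := 2) (cn := .pp) (n1 := ndB0q0) (n2 := ndB8q2) (pc := pcB2) (cut := cut_mm_022) (xt := Ext.none) (P1 := 0) (W1 := 536870912) (P2 := 1073741824) (W2 := 536870912) (P3 := 649613803) (W3 := 48318383) (N0 := 3) (En := eng) (mo := mog) (C1 := cd0q0) (C2 := cd8q2) (C3 := pd2)
    rfl k0_mm_022

noncomputable def cut_mm_023 : Cut := Cut.of [[⟨3, 0, 0, 1449551462⟩]]

noncomputable def f_mm_023 : ℕ → ℕ → ℕ → ℕ → Bool := onCell 0 536870912 1073741824 536870912 649613803 48318383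
    (rowB 3 eng mog cd0q0 cd8q2 pd3 0 true false false .up 0 2 3 (qsf 0 536870912 1073741824 536870912 3) ndB0q0 ndB8q2 pcB3 cut_mm_023 Ext.none)

def k0_mm_023 : ∃ t, chk3 f_mm_023 t 1 1 1 = true :=
  ⟨(l 4), by decide +kernel⟩

theorem c_mm_023 : CertB 0 536870912 1073741824 536870912 649613803 48318383 3 eng mog cd0q0 cd8q2 pd3 true false false .up 0 2 3
    ndB0q0 ndB8q2 pcB3 cut_mm_023 Ext.none :=
  certB0 (fam := true) (s1 := false) (s2 := false) (a := 0) (b := 2) (c := 3) (cn := .up) (n1 := ndB0q0) (n2 := ndB8q2) (pc := pcB3) (cut := cut_mm_023) (xt := Ext.none) (P1 := 0) (W1 := 536870912) (P2 := 1073741824) (W2 := 536870912) (P3 := 649613803) (W3 := 48318383) (N0 := 3) (En := eng) (mo := mog) (C1 := cd0q0) (C2 := cd8q2) (C3 := pd3)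
    rfl k0_mm_023

noncomputable def cut_mm_033 : Cut := Cut.of [[⟨3, 0, 0, 1449551462⟩]]

noncomputable def f_mm_033 : ℕ → ℕ → ℕ → ℕ → Bool := onCell 0 536870912 0 1230186008 649613803 48318383
    (rowB 3 eng mog cd0q0 cd8q3 pd3 0 true false false .pnn 0 3 3 (qsf 0 536870912 0 1230186008 3) ndB0q0 ndB8q3 pcB3 cut_mm_033 Ext.none)

def k0_mm_033 : ∃ t, chk3 f_mm_033 t 1 1 1 = true :=
  ⟨(l 4), by decide +kernel⟩

theorem c_mm_033 : CertB 0 536870912 0 1230186008 649613803 48318383 3 eng mog cd0q0 cd8q3 pd3 true false false .pnn 0 3 3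
    ndB0q0 ndB8q3 pcB3 cut_mm_033 Ext.none :=
  certB0 (fam := true) (s1 := false) (s2 := false) (a := 0) (b := 3) (c := 3) (cn := .pnn) (n1 := ndB0q0) (n2 := ndB8q3) (pc := pcB3) (cut := cut_mm_033) (xt := Ext.none) (P1 := 0) (W1 := 536870912) (P2 := 0) (W2 := 1230186008) (P3 := 649613803) (W3 := 48318383) (N0 := 3) (En := eng) (mo := mog) (C1 := cd0q0) (C2 := cd8q3) (C3 := pd3)
    rfl k0_mm_033

noncomputable def cut_mm_101 : Cut := Cut.of [[⟨3, 0, 0, 1449551462⟩]]

noncomputable def f_mm_101 : ℕ → ℕ → ℕ → ℕ → Bool := onCell 536870912 536870912 0 536870912 649613803 48318383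
    (rowB 3 eng mog cd0q1 cd8q0 pd1 0 true false false .npn 1 0 1 (qsf 536870912 536870912 0 536870912 1) ndB0q1 ndB8q0 pcB1 cut_mm_101 Ext.none)

def k0_mm_101 : ∃ t, chk3 f_mm_101 t 1 1 1 = true :=
  ⟨(l 4), by decide +kernel⟩

theorem c_mm_101 : CertB 536870912 536870912 0 536870912 649613803 48318383 3 eng mog cd0q1 cd8q0 pd1 true false false .npn 1 0 1
    ndB0q1 ndB8q0 pcB1 cut_mm_101 Ext.none :=
  certB0 (fam := true) (s1 := false) (s2 := false) (a := 1) (b := 0) (c := 1) (cn := .npn) (n1 := ndB0q1) (n2 := ndB8q0) (pc := pcB1) (cut := cut_mm_101) (xt := Ext.none) (P1 := 536870912) (W1 := 536870912) (P2 := 0) (W2 := 536870912) (P3 := 649613803) (W3 := 48318383) (N0 := 3) (En := eng) (mo := mog) (C1 := cd0q1) (C2 := cd8q0) (C3 := pd1)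
    rfl k0_mm_101

noncomputable def cut_mm_102 : Cut := Cut.of [[⟨3, 0, 0, 1449551462⟩]]

noncomputable def f_mm_102 : ℕ → ℕ → ℕ → ℕ → Bool := onCell 536870912 536870912 0 536870912 649613803 48318383
    (rowB 3 eng mog cd0q1 cd8q0 pd2 0 true false false .npp 1 0 2 (qsf 536870912 536870912 0 536870912 2) ndB0q1 ndB8q0 pcB2 cut_mm_102 Ext.none)

def k0_mm_102 : ∃ t, chk3 f_mm_102 t 1 1 1 = true :=
  ⟨(l 4), by decide +kernel⟩

theorem c_mm_102 : CertB 536870912 536870912 0 536870912 649613803 48318383 3 eng mog cd0q1 cd8q0 pd2 true false false .npp 1 0 2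
    ndB0q1 ndB8q0 pcB2 cut_mm_102 Ext.none :=
  certB0 (fam := true) (s1 := false) (s2 := false) (a := 1) (b := 0) (c := 2) (cn := .npp) (n1 := ndB0q1) (n2 := ndB8q0) (pc := pcB2) (cut := cut_mm_102) (xt := Ext.none) (P1 := 536870912) (W1 := 536870912) (P2 := 0) (W2 := 536870912) (P3 := 649613803) (W3 := 48318383) (N0 := 3) (En := eng) (mo := mog) (C1 := cd0q1) (C2 := cd8q0) (C3 := pd2)
    rfl k0_mm_102

noncomputable def cut_mm_112 : Cut := Cut.of [[⟨3, 0, 0, 1449551462⟩]]

noncomputable def f_mm_112 : ℕ → ℕ → ℕ → ℕ → Bool := onCell 536870912 536870912 536870912 536870912 649613803 48318383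
    (rowB 3 eng mog cd0q1 cd8q1 pd2 0 true false false .dn 1 1 2 (qsf 536870912 536870912 536870912 536870912 2) ndB0q1 ndB8q1 pcB2 cut_mm_112 Ext.none)

def k0_mm_112 : ∃ t, chk3 f_mm_112 t 1 1 1 = true :=
  ⟨(l 4), by decide +kernel⟩

theorem c_mm_112 : CertB 536870912 536870912 536870912 536870912 649613803 48318383 3 eng mog cd0q1 cd8q1 pd2 true false false .dn 1 1 2
    ndB0q1 ndB8q1 pcB2 cut_mm_112 Ext.none :=
  certB0 (fam := true) (s1 := false) (s2 := false) (a := 1) (b := 1) (c := 2) (cn := .dn) (n1 := ndB0q1) (n2 := ndB8q1) (pc := pcB2) (cut := cut_mm_112) (xt := Ext.none) (P1 := 536870912) (W1 := 536870912) (P2 := 536870912) (W2 := 536870912) (P3 := 649613803) (W3 := 48318383) (N0 := 3) (En := eng) (mo := mog) (C1 := cd0q1) (C2 := cd8q1) (C3 := pd2)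
    rfl k0_mm_112

noncomputable def cut_mm_113 : Cut := Cut.of [[⟨3, 0, 0, 1449551462⟩]]

noncomputable def f_mm_113 : ℕ → ℕ → ℕ → ℕ → Bool := onCell 536870912 536870912 536870912 536870912 649613803 48318383
    (rowB 3 eng mog cd0q1 cd8q1 pd3 0 true false false .nn 1 1 3 (qsf 536870912 536870912 536870912 536870912 3) ndB0q1 ndB8q1 pcB3 cut_mm_113 Ext.none)

def k0_mm_113 : ∃ t, chk3 f_mm_113 t 1 1 1 = true :=
  ⟨(l 4), by decide +kernel⟩

theorem c_mm_113 : CertB 536870912 536870912 536870912 536870912 649613803 48318383 3 eng mog cd0q1 cd8q1 pd3 true false false .nn 1 1 3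
    ndB0q1 ndB8q1 pcB3 cut_mm_113 Ext.none :=
  certB0 (fam := true) (s1 := false) (s2 := false) (a := 1) (b := 1) (c := 3) (cn := .nn) (n1 := ndB0q1) (n2 := ndB8q1) (pc := pcB3) (cut := cut_mm_113) (xt := Ext.none) (P1 := 536870912) (W1 := 536870912) (P2 := 536870912) (W2 := 536870912) (P3 := 649613803) (W3 := 48318383) (N0 := 3) (En := eng) (mo := mog) (C1 := cd0q1) (C2 := cd8q1) (C3 := pd3)
    rfl k0_mm_113

noncomputable def cut_mm_123 : Cut := Cut.of [[⟨3, 0, 0, 1449551462⟩]]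

noncomputable def f_mm_123 : ℕ → ℕ → ℕ → ℕ → Bool := onCell 536870912 536870912 1073741824 536870912 649613803 48318383
    (rowB 3 eng mog cd0q1 cd8q2 pd3 0 true false false .npn 1 2 3 (qsf 536870912 536870912 1073741824 536870912 3) ndB0q1 ndB8q2 pcB3 cut_mm_123 Ext.none)

def k0_mm_123 : ∃ t, chk3 f_mm_123 t 1 1 1 = true :=
  ⟨(l 4), by decide +kernel⟩

theorem c_mm_123 : CertB 536870912 536870912 1073741824 536870912 649613803 48318383 3 eng mog cd0q1 cd8q2 pd3 true false false .npn 1 2 3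
    ndB0q1 ndB8q2 pcB3 cut_mm_123 Ext.none :=
  certB0 (fam := true) (s1 := false) (s2 := false) (a := 1) (b := 2) (c := 3) (cn := .npn) (n1 := ndB0q1) (n2 := ndB8q2) (pc := pcB3) (cut := cut_mm_123) (xt := Ext.none) (P1 := 536870912) (W1 := 536870912) (P2 := 1073741824) (W2 := 536870912) (P3 := 649613803) (W3 := 48318383) (N0 := 3) (En := eng) (mo := mog) (C1 := cd0q1) (C2 := cd8q2) (C3 := pd3)
    rfl k0_mm_123

noncomputable def cut_mm_133 : Cut := Cut.of [[⟨3, 0, 0, 1449551462⟩]]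

noncomputable def f_mm_133 : ℕ → ℕ → ℕ → ℕ → Bool := onCell 536870912 536870912 0 1230186008 649613803 48318383
    (rowB 3 eng mog cd0q1 cd8q3 pd3 0 true false false .dn 1 3 3 (qsf 536870912 536870912 0 1230186008 3) ndB0q1 ndB8q3 pcB3 cut_mm_133 Ext.none)

def k0_mm_133 : ∃ t, chk3 f_mm_133 t 1 1 1 = true :=
  ⟨(l 4), by decide +kernel⟩

theorem c_mm_133 : CertB 536870912 536870912 0 1230186008 649613803 48318383 3 eng mog cd0q1 cd8q3 pd3 true false false .dn 1 3 3
    ndB0q1 ndB8q3 pcB3 cut_mm_133 Ext.none :=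
  certB0 (fam := true) (s1 := false) (s2 := false) (a := 1) (b := 3) (c := 3) (cn := .dn) (n1 := ndB0q1) (n2 := ndB8q3) (pc := pcB3) (cut := cut_mm_133) (xt := Ext.none) (P1 := 536870912) (W1 := 536870912) (P2 := 0) (W2 := 1230186008) (P3 := 649613803) (W3 := 48318383) (N0 := 3) (En := eng) (mo := mog) (C1 := cd0q1) (C2 := cd8q3) (C3 := pd3)
    rfl k0_mm_133

noncomputable def cut_mm_202 : Cut := Cut.of [[⟨3, 0, 0, 1449551462⟩]]

noncomputable def f_mm_202 : ℕ → ℕ → ℕ → ℕ → Bool := onCell 0 536870912 0 536870912 649613803 48318383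
    (rowB 3 eng mog cd0q2 cd8q0 pd2 0 true false false .pp 2 0 2 (qsf 0 536870912 0 536870912 2) ndB0q2 ndB8q0 pcB2 cut_mm_202 Ext.none)

def k0_mm_202 : ∃ t, chk3 f_mm_202 t 1 1 1 = true :=
  ⟨(l 4), by decide +kernel⟩

theorem c_mm_202 : CertB 0 536870912 0 536870912 649613803 48318383 3 eng mog cd0q2 cd8q0 pd2 true false false .pp 2 0 2
    ndB0q2 ndB8q0 pcB2 cut_mm_202 Ext.none :=
  certB0 (fam := true) (s1 := false) (s2 := false) (a := 2) (b := 0) (c := 2) (cn := .pp) (n1 := ndB0q2) (n2 := ndB8q0) (pc := pcB2) (cut := cut_mm_202) (xt := Ext.none) (P1 := 0) (W1 := 536870912) (P2 := 0) (W2 := 536870912) (P3 := 649613803) (W3 := 48318383) (N0 := 3) (En := eng) (mo := mog) (C1 := cd0q2) (C2 := cd8q0) (C3 := pd2)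
    rfl k0_mm_202

noncomputable def cut_mm_203 : Cut := Cut.of [[⟨3, 0, 0, 1449551462⟩]]

noncomputable def f_mm_203 : ℕ → ℕ → ℕ → ℕ → Bool := onCell 0 536870912 0 536870912 649613803 48318383
    (rowB 3 eng mog cd0q2 cd8q0 pd3 0 true false false .up 2 0 3 (qsf 0 536870912 0 536870912 3) ndB0q2 ndB8q0 pcB3 cut_mm_203 Ext.none)

def k0_mm_203 : ∃ t, chk3 f_mm_203 t 1 1 1 = true :=
  ⟨(l 4), by decide +kernel⟩

theorem c_mm_203 : CertB 0 536870912 0 536870912 649613803 48318383 3 eng mog cd0q2 cd8q0 pd3 true false false .up 2 0 3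
    ndB0q2 ndB8q0 pcB3 cut_mm_203 Ext.none :=
  certB0 (fam := true) (s1 := false) (s2 := false) (a := 2) (b := 0) (c := 3) (cn := .up) (n1 := ndB0q2) (n2 := ndB8q0) (pc := pcB3) (cut := cut_mm_203) (xt := Ext.none) (P1 := 0) (W1 := 536870912) (P2 := 0) (W2 := 536870912) (P3 := 649613803) (W3 := 48318383) (N0 := 3) (En := eng) (mo := mog) (C1 := cd0q2) (C2 := cd8q0) (C3 := pd3)
    rfl k0_mm_203

noncomputable def cut_mm_213 : Cut := Cut.of [[⟨3, 0, 0, 1449551462⟩]]

noncomputable def f_mm_213 : ℕ → ℕ → ℕ → ℕ → Bool := onCell 0 536870912 536870912 536870912 649613803 48318383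
    (rowB 3 eng mog cd0q2 cd8q1 pd3 0 true false false .pnn 2 1 3 (qsf 0 536870912 536870912 536870912 3) ndB0q2 ndB8q1 pcB3 cut_mm_213 Ext.none)

def k0_mm_213 : ∃ t, chk3 f_mm_213 t 1 1 1 = true :=
  ⟨(l 4), by decide +kernel⟩

theorem c_mm_213 : CertB 0 536870912 536870912 536870912 649613803 48318383 3 eng mog cd0q2 cd8q1 pd3 true false false .pnn 2 1 3
    ndB0q2 ndB8q1 pcB3 cut_mm_213 Ext.none :=
  certB0 (fam := true) (s1 := false) (s2 := false) (a := 2) (b := 1) (c := 3) (cn := .pnn) (n1 := ndB0q2) (n2 := ndB8q1) (pc := pcB3) (cut := cut_mm_213) (xt := Ext.none) (P1 := 0) (W1 := 536870912) (P2 := 536870912) (W2 := 536870912) (P3 := 649613803) (W3 := 48318383) (N0 := 3) (En := eng) (mo := mog) (C1 := cd0q2) (C2 := cd8q1) (C3 := pd3)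
    rfl k0_mm_213

end Pool.Agent.Strip051.G.I6050_6500.Tab.C.BA08

namespace Pool.Agent.Strip051.G.I6050_6500.Tab.C.BA11

open Pool.Agent.Strip051.PB Pool.Agent.Strip051.PB.T
open Pool.Agent.Strip051.G.I6050_6500.Tab

noncomputable def f_pp_001 : ℕ → ℕ → ℕ → ℕ → Bool := onCell 0 536870912 0 536870912 649613803 48318383
    (rowB 3 eng mog cd1q0 cd1q0 pd1 0 true true true .up 0 0 1 (qsf 0 536870912 0 536870912 1) ndB1q0 ndB1q0 pcB1 Cut.none Ext.none)

def k0_pp_001 : ∃ t, chk3 f_pp_001 t 1 1 1 = true :=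
  ⟨(l 4), by decide +kernel⟩

theorem c_pp_001 : CertB 0 536870912 0 536870912 649613803 48318383 3 eng mog cd1q0 cd1q0 pd1 true true true .up 0 0 1
    ndB1q0 ndB1q0 pcB1 Cut.none Ext.none :=
  certB0 (fam := true) (s1 := true) (s2 := true) (a := 0) (b := 0) (c := 1) (cn := .up) (n1 := ndB1q0) (n2 := ndB1q0) (pc := pcB1) (cut := Cut.none) (xt := Ext.none) (P1 := 0) (W1 := 536870912) (P2 := 0) (W2 := 536870912) (P3 := 649613803) (W3 := 48318383) (N0 := 3) (En := eng) (mo := mog) (C1 := cd1q0) (C2 := cd1q0) (C3 := pd1)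
    rfl k0_pp_001

noncomputable def f_pp_011 : ℕ → ℕ → ℕ → ℕ → Bool := onCell 0 536870912 536870912 536870912 649613803 48318383
    (rowB 3 eng mog cd1q0 cd1q1 pd1 0 true true true .pnn 0 1 1 (qsf 0 536870912 536870912 536870912 1) ndB1q0 ndB1q1 pcB1 Cut.none Ext.none)

def k0_pp_011 : ∃ t, chk3 f_pp_011 t 1 1 1 = true :=
  ⟨(l 4), by decide +kernel⟩

theorem c_pp_011 : CertB 0 536870912 536870912 536870912 649613803 48318383 3 eng mog cd1q0 cd1q1 pd1 true true true .pnn 0 1 1
    ndB1q0 ndB1q1 pcB1 Cut.none Ext.none :=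
  certB0 (fam := true) (s1 := true) (s2 := true) (a := 0) (b := 1) (c := 1) (cn := .pnn) (n1 := ndB1q0) (n2 := ndB1q1) (pc := pcB1) (cut := Cut.none) (xt := Ext.none) (P1 := 0) (W1 := 536870912) (P2 := 536870912) (W2 := 536870912) (P3 := 649613803) (W3 := 48318383) (N0 := 3) (En := eng) (mo := mog) (C1 := cd1q0) (C2 := cd1q1) (C3 := pd1)
    rfl k0_pp_011

noncomputable def f_pp_012 : ℕ → ℕ → ℕ → ℕ → Bool := onCell 0 536870912 536870912 536870912 649613803 48318383
    (rowB 3 eng mog cd1q0 cd1q1 pd2 0 true true true .pnp 0 1 2 (qsf 0 536870912 536870912 536870912 2) ndB1q0 ndB1q1 pcB2 Cut.none Ext.none)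

def k0_pp_012 : ∃ t, chk3 f_pp_012 t 1 1 1 = true :=
  ⟨(l 4), by decide +kernel⟩

theorem c_pp_012 : CertB 0 536870912 536870912 536870912 649613803 48318383 3 eng mog cd1q0 cd1q1 pd2 true true true .pnp 0 1 2
    ndB1q0 ndB1q1 pcB2 Cut.none Ext.none :=
  certB0 (fam := true) (s1 := true) (s2 := true) (a := 0) (b := 1) (c := 2) (cn := .pnp) (n1 := ndB1q0) (n2 := ndB1q1) (pc := pcB2) (cut := Cut.none) (xt := Ext.none) (P1 := 0) (W1 := 536870912) (P2 := 536870912) (W2 := 536870912) (P3 := 649613803) (W3 := 48318383) (N0 := 3) (En := eng) (mo := mog) (C1 := cd1q0) (C2 := cd1q1) (C3 := pd2)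
    rfl k0_pp_012

noncomputable def cut_pp_022_a : Cut := Cut.of [[⟨0, 0, 0, 67108864⟩, ⟨1, 1, 0, 67108864⟩, ⟨2, 1, 0, 67108864⟩]]

noncomputable def f_pp_022_a : ℕ → ℕ → ℕ → ℕ → Bool := onCell 0 536870912 0 536870912 649613803 48318383
    (rowB 3 eng mog cd1q0 cd1q2a pd2 0 true true true .pp 0 2 2 (qsf 0 536870912 0 536870912 2) ndB1q0 ndB1q2a pcB2 cut_pp_022_a Ext.none)

def k0_pp_022_a : ∃ t, chk3 f_pp_022_a t 4 2 1 = true :=
  ⟨(b (a (a (b (a (c (b (l 16442896) (l 16446368)) (b (l 16443528) (l 16446792))) (a (b (l 16446152) (l 16449512)) (l 16454056))) (b (a (c (l 16451928) (l 16452080)) (a (l 16454648) (l 16460456))) (a (c (l 16459520) (l 16459232)) (a (l 16461880) (l 16466736))))) (b (a (l 16462512) (l 16472320)) (a (c (l 16473952) (l 16472976)) (l 16483968)))) (a (b (l 16483600) (a (l 16493600) (l 16502040))) (b (l 16496432) (b (l 16507824) (l 16518008))))) (a (a (b (b (a (b (l 16465552) (l 16470648)) (a (l 16471392) (b (l 16472480) (l 16477304))))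 (a (b (l 16487520) (l 16484080)) (b (l 16482096) (l 16489488)))) (b (a (b (a (l 16490608) (l 16493104)) (a (l 16499536) (l 16502232))) (b (l 16518536) (a (l 16505296) (l 16508712)))) (a (a (b (l 16509576) (c (l 16520520) (l 16520808))) (b (l 16512456) (l 16523520))) (b (a (l 16515704) (l 16519304)) (a (l 16526952) (l 16530728)))))) (b (b (a (b (l 16482000) (l 16486496)) (l 16475464)) (a (a (b (l 16488728) (l 16495336)) (l 16498560)) (l 16508104))) (a (b (a (b (l 16523976) (l 16512456)) (b (l 16508776) (a (l 16515792) (l 16518880)))) (b (a (l 16523232) (a (l 16526376) (l 16528840))) (a (l 16534824) (l 16539232)))) (b (b (l 16518744) (l 16527368)) (a (b (l 16533704) (a (l 16563896) (l 16546040))) (b (l 16540520) (l 16551248))))))) (b (a (b (l 16512368) (a (l 16519872) (l 16530664))) (a (l 16575384) (l 16563112))) (a (b (a (b (l 16531136) (l 16540168)) (l 16547360)) (a (b (l 16550328) (l 16561344)) (b (l 16562672) (l 16574104)))) (b (a (l 16558240) (l 16568528))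 (a (l 16632624) (l 16591464))))))), by decide +kernel⟩

def k1_pp_022_a : ∃ t, chk3 f_pp_022_a t 5 2 1 = true :=
  ⟨(b (a (b (a (a (l 16511624) (l 16523960)) (b (a (l 16532312) (l 16544568)) (a (l 16539776) (b (l 16550088) (l 16554472))))) (a (b (l 16550976) (l 16540248)) (a (l 16554192) (b (l 16561600) (l 16571904))))) (b (b (a (a (l 16557760) (b (l 16569264) (l 16573352))) (a (b (l 16582592) (l 16587064)) (l 16599216))) (a (a (l 16566280) (l 16580256)) (l 16601672))) (a (b (l 16582760) (l 16592936)) (b (l 16611736) (l 16622168))))) (a (b (a (b (l 16552104) (l 16568168)) (b (l 16576944) (l 16594584))) (a (b (l 16587912) (a (l 16604704) (l 16618944))) (b (l 16615552) (a (l 16633376) (l 16647920))))) (b (a (a (l 16667560) (l 16617984)) (b (l 16632736) (l 16646920))) (a (b (a (l 16636320) (l 16649528)) (a (l 16683424) (l 16760600))) (b (a (l 16662208) (l 16676280)) (a (l 16690536) (l 16726400))))))), by decide +kernel⟩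

def k2_pp_022_a : ∃ t, chk3 f_pp_022_a t 8 6 1 = true :=
  ⟨(b (a (b (a (b (c (a (l 16532096) (l 16535704)) (a (l 16532832) (l 16535744))) (a (l 16545096) (l 16548528))) (b (a (l 16539144) (l 16543096)) (a (b (l 16548912) (l 16555736)) (l 16556464)))) (a (b (a (l 16558872) (l 16562488)) (a (l 16568408) (l 16576304))) (b (a (l 16566456) (l 16570768)) (c (l 16583184) (l 16584056))))) (b (a (b (c (l 16571896) (l 16569744)) (a (l 16560912) (l 16565664))) (b (a (b (l 16574520) (l 16560160)) (b (l 16559912) (l 16566120))) (a (l 16570688) (b (l 16593688) (l 16579712))))) (a (b (a (l 16585888) (l 16580320)) (a (l 16590576) (l 16595664))) (b (a (l 16585520) (l 16611936)) (l 16603800))))) (a (a (b (a (c (l 16580304) (b (l 16577240) (l 16587816))) (b (l 16586968) (l 16598120))) (b (a (b (l 16597816) (l 16604200)) (b (l 16606768) (l 16613304))) (a (l 16635592) (l 16644880)))) (b (b (a (l 16594896) (l 16601112)) (a (l 16606432) (l 16614424))) (b (b (l 16619584) (l 16634200))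 (a (l 16653824) (b (l 16637744) (l 16645176)))))) (a (b (b (l 16608672) (l 16625168)) (b (a (l 16635168) (l 16642968)) (a (l 16649784) (l 16657832)))) (b (b (l 16619720) (l 16636552)) (b (l 16653992) (l 16669440)))))), by decide +kernel⟩

def k3_pp_022_a : ∃ t, chk3 f_pp_022_a t 9 6 1 = true :=
  ⟨(b (a (b (a (b (l 16573360) (l 16586440)) (b (l 16586520) (l 16600000))) (a (b (a (b (l 16593384) (l 16621816)) (l 16604120)) (a (b (l 16608616) (l 16616424)) (b (l 16615384) (l 16643904)))) (b (l 16635464) (l 16629776)))) (b (a (b (l 16599000) (l 16612896)) (l 16639104)) (a (b (l 16627792) (l 16643456)) (b (l 16640632) (l 16656696))))) (a (b (a (b (a (l 16628648) (l 16634968)) (l 16648880)) (a (b (l 16641896) (l 16658784)) (l 16657464))) (a (b (l 16666648) (l 16683736)) (a (b (l 16676648) (l 16693984)) (b (l 16704616) (l 16701008))))) (b (a (b (l 16659536) (l 16676656)) (b (l 16673168) (l 16690376))) (a (a (b (l 16690904) (l 16729216)) (l 16727328)) (b (l 16707624)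 (l 16745968)))))), by decide +kernel⟩

def k4_pp_022_a : ∃ t, chk3 f_pp_022_a t 8 7 1 = true :=
  ⟨(b (b (a (b (a (a (a (l 16626656) (l 16631520)) (c (l 16640120) (l 16637120))) (a (l 16663592) (b (l 16652808) (l 16660632)))) (a (a (a (b (l 16637936) (l 16645936)) (l 16667904)) (c (l 16676672) (l 16668496))) (a (c (l 16664960) (l 16683392)) (b (l 16668656) (l 16677040))))) (a (b (a (l 16665296) (l 16673568)) (a (b (l 16677408) (l 16685912)) (l 16690192))) (b (a (l 16681592) (l 16689376)) (a (l 16698440) (l 16706448))))) (b (a (a (a (a (l 6) (b (l 16659688) (l 6))) (a (b (l 16664656) (l 16673696)) (l 16684576))) (a (a (l 16699880) (l 16704624)) (b (l 16685992) (l 16716184)))) (a (a (b (l 16673984) (a (l 16702016) (l 16706464))) (l 16718792)) (a (l 16716712) (l 16745840)))) (a (a (a (l 6) (b (a (l 6) (l 16687952)) (l 6))) (a (b (a (l 16692832) (l 16697632)) (a (l 6) (l 16707304))) (b (l 16715168) (a (l 16712064) (l 16716744))))) (a (a (b (a (l 16711552) (l 16716040))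 (b (l 16700160) (l 16710376))) (b (l 16722624) (l 16732528))) (a (b (l 16731152) (l 16741128)) (b (l 16739408) (l 16749408))))))) (a (b (a (l 6) (a (l 6) (b (a (b (l 16722040) (l 6)) (b (l 16747728) (a (l 16756872) (l 16759232)))) (l 6)))) (l 6)) (b (a (b (a (b (l 16738944) (a (l 16741768) (l 16746376))) (b (l 16742688) (a (l 16750912) (l 16755312)))) (b (a (a (l 16752768) (l 16767840)) (a (b (l 16759056) (l 16764168)) (b (l 16763008) (l 4)))) (a (a (l 6) (b (l 16765320) (l 4))) (l 4)))) (b (a (b (l 16756576) (a (l 16769848) (l 16773544))) (b (a (l 16757328) (l 16760912)) (l 4))) (l 4))) (l 4)))), by decide +kernel⟩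

def k5_pp_022_a : ∃ t, chk3 f_pp_022_a t 9 7 1 = true :=
  ⟨(b (a (b (a (b (a (l 16696952) (l 16704336)) (a (l 16714248) (l 16721848))) (b (l 16727584) (a (l 16729280) (l 16757504)))) (b (a (a (l 16753776) (b (l 16735720) (l 16745296))) (a (a (l 16767016) (l 16760056)) (b (l 16750176) (l 4)))) (a (a (b (l 16747376) (l 16767384)) (b (l 16754672) (l 4))) (l 4)))) (b (a (b (a (l 16746592) (b (l 16727976) (l 16757880))) (a (l 16753960) (b (l 16745760) (l 4)))) (b (a (l 16739112) (l 16748712)) (l 4))) (l 4))) (l 4)), by decide +kernel⟩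

def k6_pp_022_a : ∃ t, chk3 f_pp_022_a t 5 3 1 = true :=
  ⟨(b (a (b (a (b (a (l 16631968) (l 16646728)) (a (l 16663008) (l 16678216))) (b (a (l 16661736) (l 16676888)) (a (l 16693720) (l 16719888)))) (a (a (b (l 16696632) (b (l 16723776) (l 16762320))) (b (b (l 16703264) (l 16721024)) (b (l 16760584) (l 4)))) (b (a (b (l 16719040) (l 16737048)) (a (l 25467792279) (l 35668361463))) (l 4)))) (b (a (b (a (l 16692064) (b (l 16699064) (l 16736088))) (a (b (l 16716536) (l 16733664)) (b (l 16731872) (l 4)))) (b (a (b (l 16713584) (a (l 16726184) (l 16733360))) (b (l 16749552) (l 4))) (l 4))) (l 4))) (a (l 4) (l 4))), by decide +kernel⟩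

def k7_pp_022_a : ∃ t, chk3 f_pp_022_a t 3 1 1 = true :=
  ⟨(b (b (a (a (a (b (a (l 16618608) (l 16632776)) (l 16657344)) (b (l 16695272) (l 16696312))) (b (a (l 16700096) (l 16785968)) (a (l 16743720) (a (l 16719368) (l 2))))) (l 2)) (a (a (b (a (b (l 16662424) (l 16697320)) (a (l 16732896) (b (l 16697688) (l 16711280)))) (a (b (a (l 16691104) (l 16706040)) (a (l 41573905527) (l 43184567495))) (b (a (l 16762312) (l 45332037335)) (l 4)))) (b (a (a (b (l 16710608) (l 16725080)) (a (l 16790736) (l 16797160))) (b (a (l 16733520) (l 16746864)) (l 4))) (l 4))) (l 4))) (a (b (l 4) (l 4)) (l 4))), by decide +kernel⟩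

theorem s8_pp_022_a : ∃ t, chk3 f_pp_022_a t 4 7 1 = true := ex3_a k4_pp_022_a k5_pp_022_a

theorem s9_pp_022_a : ∃ t, chk3 f_pp_022_a t 4 6 1 = true := ex3_a k2_pp_022_a k3_pp_022_a

theorem s10_pp_022_a : ∃ t, chk3 f_pp_022_a t 4 3 1 = true := ex3_b s9_pp_022_a s8_pp_022_a

theorem s11_pp_022_a : ∃ t, chk3 f_pp_022_a t 2 3 1 = true := ex3_a s10_pp_022_a k6_pp_022_a

theorem s12_pp_022_a : ∃ t, chk3 f_pp_022_a t 2 2 1 = true := ex3_a k0_pp_022_a k1_pp_022_a

theorem s13_pp_022_a : ∃ t, chk3 f_pp_022_a t 2 1 1 = true := ex3_b s12_pp_022_a s11_pp_022_a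

theorem s14_pp_022_a : ∃ t, chk3 f_pp_022_a t 1 1 1 = true := ex3_a s13_pp_022_a k7_pp_022_a

theorem c_pp_022_a : CertB 0 536870912 0 536870912 649613803 48318383 3 eng mog cd1q0 cd1q2a pd2 true true true .pp 0 2 2
    ndB1q0 ndB1q2a pcB2 cut_pp_022_a Ext.none :=
  certB0 (fam := true) (s1 := true) (s2 := true) (a := 0) (b := 2) (c := 2) (cn := .pp) (n1 := ndB1q0) (n2 := ndB1q2a) (pc := pcB2) (cut := cut_pp_022_a) (xt := Ext.none) (P1 := 0) (W1 := 536870912) (P2 := 0) (W2 := 536870912) (P3 := 649613803) (W3 := 48318383) (N0 := 3) (En := eng) (mo := mog) (C1 := cd1q0) (C2 := cd1q2a) (C3 := pd2)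
    rfl s14_pp_022_a

noncomputable def cut_pp_022_b : Cut := Cut.of [[⟨0, 0, 0, 67108864⟩, ⟨1, 1, 0, 67108864⟩, ⟨2, 1, 0, 67108864⟩]]

noncomputable def f_pp_022_b : ℕ → ℕ → ℕ → ℕ → Bool := onCell 1073741824 536870912 1239849684 370763052 649613803 48318383
    (rowB 3 eng mog cd1q0 cd1q2b pd2 2 true true true .pp 0 2 2 (qsf 0 536870912 1239849684 370763052 2) ndB1q0 ndB1q2b pcB2 cut_pp_022_b Ext.none)

def k0_pp_022_b : ∃ t, chk3 f_pp_022_b t 1 1 1 = true :=
  ⟨(a (b (a (l 1) (a (b (b (a (a (l 1) (b (l 16439392) (l 1))) (a (b (a (b (l 16418984) (l 1)) (b (l 16429504) (l 16386488))) (l 1)) (b (c (l 16425176) (l 16425656)) (l 16374744)))) (l 1)) (l 1)) (b (a (b (b (a (l 16435560) (l 16444568)) (l 16431792)) (a (l 16307472) (l 16311472))) (b (a (l 16424704) (l 16430360)) (b (l 16347672) (l 16293408)))) (a (l 1) (b (l 16210784) (l 1)))))) (l 1)) (b (a (a (b (a (b (l 16493504) (l 16358632)) (b (a (l 16454752) (l 16529128)) (l 16358280))) (b (a (b (l 16257704)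 (l 16203528)) (l 16255024)) (a (l 1) (l 16148816)))) (b (a (b (a (l 16500032) (b (l 16518176) (l 16467328))) (a (l 16375504) (b (l 16414352) (l 16363168)))) (b (a (b (l 16532144) (l 16483136)) (l 16564904)) (a (l 16426680) (l 16423600)))) (a (b (a (l 16274768) (l 16289080)) (a (l 16171208) (l 16187552))) (b (l 16418464) (l 16215280))))) (a (b (a (b (a (l 16600792) (b (l 16574608) (l 16530568))) (a (l 16442232) (l 16460880))) (b (a (l 16568336) (l 16583712)) (l 16488456))) (a (b (a (l 16340544) (l 16361008)) (l 16253848)) (b (l 16393904) (l 16296408)))) (b (a (b (l 16648424) (l 16524760)) (b (l 16677152) (l 16560208))) (a (l 16474808) (l 16477064))))) (a (b (a (l 1) (a (a (l 16013008) (l 16031760)) (b (l 16114752) (l 16012688)))) (l 1)) (a (b (a (b (l 16158312) (l 16060552)) (l 16158304)) (a (l 1) (l 15971888))) (b (a (l 16206656) (l 16255672)) (a (l 16029368) (l 16084928))))))), by decide +kernel⟩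

theorem c_pp_022_b : CertB 0 536870912 1239849684 370763052 649613803 48318383 3 eng mog cd1q0 cd1q2b pd2 true true true .pp 0 2 2
    ndB1q0 ndB1q2b pcB2 cut_pp_022_b Ext.none :=
  certB2 (fam := true) (s1 := true) (s2 := true) (a := 0) (b := 2) (c := 2) (cn := .pp) (n1 := ndB1q0) (n2 := ndB1q2b) (pc := pcB2) (cut := cut_pp_022_b) (xt := Ext.none) (P1 := 0) (W1 := 536870912) (P2 := 1239849684) (W2 := 370763052) (P3 := 649613803) (W3 := 48318383) (N0 := 3) (En := eng) (mo := mog) (C1 := cd1q0) (C2 := cd1q2b) (C3 := pd2)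
    rfl (fun _ => rfl) k0_pp_022_b

noncomputable def f_pp_023_a : ℕ → ℕ → ℕ → ℕ → Bool := onCell 1610612736 536870912 0 536870912 649613803 48318383
    (rowB 3 eng mog cd1q0 cd1q2a pd3 2 true true true .up 0 2 3 (qsf 0 536870912 0 536870912 3) ndB1q0 ndB1q2a pcB3 Cut.none Ext.none)

def k0_pp_023_a : ∃ t, chk3 f_pp_023_a t 1 1 1 = true :=
  ⟨(b (a (a (a (b (b (a (l 16699888) (l 16712112)) (a (l 16768856) (a (l 16742992) (l 16757320)))) (b (a (b (l 35668440567) (l 4)) (l 4)) (l 4))) (b (b (a (l 16743968) (l 16765920)) (a (b (l 16766792) (l 4)) (l 4))) (l 4))) (a (b (b (a (l 75933793079) (l 2)) (l 4)) (l 4)) (l 2))) (l 2)) (l 4)), by decide +kernel⟩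

theorem c_pp_023_a : CertB 0 536870912 0 536870912 649613803 48318383 3 eng mog cd1q0 cd1q2a pd3 true true true .up 0 2 3
    ndB1q0 ndB1q2a pcB3 Cut.none Ext.none :=
  certB2 (fam := true) (s1 := true) (s2 := true) (a := 0) (b := 2) (c := 3) (cn := .up) (n1 := ndB1q0) (n2 := ndB1q2a) (pc := pcB3) (cut := Cut.none) (xt := Ext.none) (P1 := 0) (W1 := 536870912) (P2 := 0) (W2 := 536870912) (P3 := 649613803) (W3 := 48318383) (N0 := 3) (En := eng) (mo := mog) (C1 := cd1q0) (C2 := cd1q2a) (C3 := pd3)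
    rfl (fun _ => rfl) k0_pp_023_a

noncomputable def f_pp_023_b : ℕ → ℕ → ℕ → ℕ → Bool := onCell 1610612736 536870912 1239849684 370763052 649613803 48318383
    (rowB 3 eng mog cd1q0 cd1q2b pd3 2 true true true .up 0 2 3 (qsf 0 536870912 1239849684 370763052 3) ndB1q0 ndB1q2b pcB3 Cut.none Ext.none)

def k0_pp_023_b : ∃ t, chk3 f_pp_023_b t 1 1 1 = true :=
  ⟨(a (a (b (a (b (a (b (l 16657968) (l 16590544)) (b (l 16673024) (l 16616120))) (a (l 16472560) (l 16507128))) (b (b (a (l 16682104) (l 16712344)) (l 16775616)) (a (l 16541424) (l 16575584)))) (a (b (a (l 16296792) (l 16337984)) (l 16164280)) (b (a (l 16381632) (l 16428464)) (a (l 16207840) (l 16261080))))) (b (a (b (a (b (l 16732744) (l 16685616)) (l 4)) (l 4)) (l 4)) (l 4))) (l 4)), by decide +kernel⟩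

theorem c_pp_023_b : CertB 0 536870912 1239849684 370763052 649613803 48318383 3 eng mog cd1q0 cd1q2b pd3 true true true .up 0 2 3
    ndB1q0 ndB1q2b pcB3 Cut.none Ext.none :=
  certB2 (fam := true) (s1 := true) (s2 := true) (a := 0) (b := 2) (c := 3) (cn := .up) (n1 := ndB1q0) (n2 := ndB1q2b) (pc := pcB3) (cut := Cut.none) (xt := Ext.none) (P1 := 0) (W1 := 536870912) (P2 := 1239849684) (W2 := 370763052) (P3 := 649613803) (W3 := 48318383) (N0 := 3) (En := eng) (mo := mog) (C1 := cd1q0) (C2 := cd1q2b) (C3 := pd3)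
    rfl (fun _ => rfl) k0_pp_023_b

noncomputable def f_pp_033 : ℕ → ℕ → ℕ → ℕ → Bool := onCell 0 536870912 1610612736 536870912 649613803 48318383
    (rowB 3 eng mog cd1q0 cd1q3 pd3 1 true true true .pnn 0 3 3 (qsf 0 536870912 1610612736 536870912 3) ndB1q0 ndB1q3 pcB3 Cut.none Ext.none)

def k0_pp_033 : ∃ t, chk3 f_pp_033 t 1 1 1 = true :=
  ⟨(b (b (a (b (a (l 252362098247) (l 1)) (a (b (l 16116376) (l 16117744)) (l 354367840055))) (l 1)) (a (l 4) (b (l 1) (l 4)))) (l 4)), by decide +kernel⟩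

theorem c_pp_033 : CertB 0 536870912 1610612736 536870912 649613803 48318383 3 eng mog cd1q0 cd1q3 pd3 true true true .pnn 0 3 3
    ndB1q0 ndB1q3 pcB3 Cut.none Ext.none :=
  certB1 (fam := true) (s1 := true) (s2 := true) (a := 0) (b := 3) (c := 3) (cn := .pnn) (n1 := ndB1q0) (n2 := ndB1q3) (pc := pcB3) (cut := Cut.none) (xt := Ext.none) (P1 := 0) (W1 := 536870912) (P2 := 1610612736) (W2 := 536870912) (P3 := 649613803) (W3 := 48318383) (N0 := 3) (En := eng) (mo := mog) (C1 := cd1q0) (C2 := cd1q3) (C3 := pd3)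
    rfl (fun _ => rfl) k0_pp_033

noncomputable def f_pp_101 : ℕ → ℕ → ℕ → ℕ → Bool := onCell 536870912 536870912 0 536870912 649613803 48318383
    (rowB 3 eng mog cd1q1 cd1q0 pd1 0 true true true .npn 1 0 1 (qsf 536870912 536870912 0 536870912 1) ndB1q1 ndB1q0 pcB1 Cut.none Ext.none)

def k0_pp_101 : ∃ t, chk3 f_pp_101 t 1 1 1 = true :=
  ⟨(l 4), by decide +kernel⟩

theorem c_pp_101 : CertB 536870912 536870912 0 536870912 649613803 48318383 3 eng mog cd1q1 cd1q0 pd1 true true true .npn 1 0 1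
    ndB1q1 ndB1q0 pcB1 Cut.none Ext.none :=
  certB0 (fam := true) (s1 := true) (s2 := true) (a := 1) (b := 0) (c := 1) (cn := .npn) (n1 := ndB1q1) (n2 := ndB1q0) (pc := pcB1) (cut := Cut.none) (xt := Ext.none) (P1 := 536870912) (W1 := 536870912) (P2 := 0) (W2 := 536870912) (P3 := 649613803) (W3 := 48318383) (N0 := 3) (En := eng) (mo := mog) (C1 := cd1q1) (C2 := cd1q0) (C3 := pd1)
    rfl k0_pp_101

noncomputable def f_pp_102 : ℕ → ℕ → ℕ → ℕ → Bool := onCell 536870912 536870912 0 536870912 649613803 48318383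
    (rowB 3 eng mog cd1q1 cd1q0 pd2 0 true true true .npp 1 0 2 (qsf 536870912 536870912 0 536870912 2) ndB1q1 ndB1q0 pcB2 Cut.none Ext.none)

def k0_pp_102 : ∃ t, chk3 f_pp_102 t 1 1 1 = true :=
  ⟨(l 4), by decide +kernel⟩

theorem c_pp_102 : CertB 536870912 536870912 0 536870912 649613803 48318383 3 eng mog cd1q1 cd1q0 pd2 true true true .npp 1 0 2
    ndB1q1 ndB1q0 pcB2 Cut.none Ext.none :=
  certB0 (fam := true) (s1 := true) (s2 := true) (a := 1) (b := 0) (c := 2) (cn := .npp) (n1 := ndB1q1) (n2 := ndB1q0) (pc := pcB2) (cut := Cut.none) (xt := Ext.none) (P1 := 536870912) (W1 := 536870912) (P2 := 0) (W2 := 536870912) (P3 := 649613803) (W3 := 48318383) (N0 := 3) (En := eng) (mo := mog) (C1 := cd1q1) (C2 := cd1q0) (C3 := pd2)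
    rfl k0_pp_102

noncomputable def f_pp_112 : ℕ → ℕ → ℕ → ℕ → Bool := onCell 536870912 536870912 536870912 536870912 649613803 48318383
    (rowB 3 eng mog cd1q1 cd1q1 pd2 0 true true true .dn 1 1 2 (qsf 536870912 536870912 536870912 536870912 2) ndB1q1 ndB1q1 pcB2 Cut.none Ext.none)

def k0_pp_112 : ∃ t, chk3 f_pp_112 t 1 1 1 = true :=
  ⟨(l 4), by decide +kernel⟩

theorem c_pp_112 : CertB 536870912 536870912 536870912 536870912 649613803 48318383 3 eng mog cd1q1 cd1q1 pd2 true true true .dn 1 1 2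
    ndB1q1 ndB1q1 pcB2 Cut.none Ext.none :=
  certB0 (fam := true) (s1 := true) (s2 := true) (a := 1) (b := 1) (c := 2) (cn := .dn) (n1 := ndB1q1) (n2 := ndB1q1) (pc := pcB2) (cut := Cut.none) (xt := Ext.none) (P1 := 536870912) (W1 := 536870912) (P2 := 536870912) (W2 := 536870912) (P3 := 649613803) (W3 := 48318383) (N0 := 3) (En := eng) (mo := mog) (C1 := cd1q1) (C2 := cd1q1) (C3 := pd2)
    rfl k0_pp_112

noncomputable def f_pp_113 : ℕ → ℕ → ℕ → ℕ → Bool := onCell 536870912 536870912 536870912 536870912 649613803 48318383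
    (rowB 3 eng mog cd1q1 cd1q1 pd3 0 true true true .nn 1 1 3 (qsf 536870912 536870912 536870912 536870912 3) ndB1q1 ndB1q1 pcB3 Cut.none Ext.none)

def k0_pp_113 : ∃ t, chk3 f_pp_113 t 1 1 1 = true :=
  ⟨(l 4), by decide +kernel⟩

theorem c_pp_113 : CertB 536870912 536870912 536870912 536870912 649613803 48318383 3 eng mog cd1q1 cd1q1 pd3 true true true .nn 1 1 3
    ndB1q1 ndB1q1 pcB3 Cut.none Ext.none :=
  certB0 (fam := true) (s1 := true) (s2 := true) (a := 1) (b := 1) (c := 3) (cn := .nn) (n1 := ndB1q1) (n2 := ndB1q1) (pc := pcB3) (cut := Cut.none) (xt := Ext.none) (P1 := 536870912) (W1 := 536870912) (P2 := 536870912) (W2 := 536870912) (P3 := 649613803) (W3 := 48318383) (N0 := 3) (En := eng) (mo := mog) (C1 := cd1q1) (C2 := cd1q1) (C3 := pd3)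
    rfl k0_pp_113

noncomputable def f_pp_123_a : ℕ → ℕ → ℕ → ℕ → Bool := onCell 536870912 536870912 0 536870912 649613803 48318383
    (rowB 3 eng mog cd1q1 cd1q2a pd3 0 true true true .npn 1 2 3 (qsf 536870912 536870912 0 536870912 3) ndB1q1 ndB1q2a pcB3 Cut.none Ext.none)

def k0_pp_123_a : ∃ t, chk3 f_pp_123_a t 1 1 1 = true :=
  ⟨(a (a (b (b (l 4) (l 4)) (l 4)) (l 4)) (l 4)), by decide +kernel⟩

theorem c_pp_123_a : CertB 536870912 536870912 0 536870912 649613803 48318383 3 eng mog cd1q1 cd1q2a pd3 true true true .npn 1 2 3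
    ndB1q1 ndB1q2a pcB3 Cut.none Ext.none :=
  certB0 (fam := true) (s1 := true) (s2 := true) (a := 1) (b := 2) (c := 3) (cn := .npn) (n1 := ndB1q1) (n2 := ndB1q2a) (pc := pcB3) (cut := Cut.none) (xt := Ext.none) (P1 := 536870912) (W1 := 536870912) (P2 := 0) (W2 := 536870912) (P3 := 649613803) (W3 := 48318383) (N0 := 3) (En := eng) (mo := mog) (C1 := cd1q1) (C2 := cd1q2a) (C3 := pd3)
    rfl k0_pp_123_a

noncomputable def f_pp_123_b : ℕ → ℕ → ℕ → ℕ → Bool := onCell 536870912 536870912 1239849684 370763052 649613803 48318383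
    (rowB 3 eng mog cd1q1 cd1q2b pd3 0 true true true .npn 1 2 3 (qsf 536870912 536870912 1239849684 370763052 3) ndB1q1 ndB1q2b pcB3 Cut.none Ext.none)

def k0_pp_123_b : ∃ t, chk3 f_pp_123_b t 1 1 1 = true :=
  ⟨(a (b (a (b (l 4) (l 4)) (l 4)) (l 4)) (l 4)), by decide +kernel⟩

theorem c_pp_123_b : CertB 536870912 536870912 1239849684 370763052 649613803 48318383 3 eng mog cd1q1 cd1q2b pd3 true true true .npn 1 2 3
    ndB1q1 ndB1q2b pcB3 Cut.none Ext.none :=
  certB0 (fam := true) (s1 := true) (s2 := true) (a := 1) (b := 2) (c := 3) (cn := .npn) (n1 := ndB1q1) (n2 := ndB1q2b) (pc := pcB3) (cut := Cut.none) (xt := Ext.none) (P1 := 536870912) (W1 := 536870912) (P2 := 1239849684) (W2 := 370763052) (P3 := 649613803) (W3 := 48318383) (N0 := 3) (En := eng) (mo := mog) (C1 := cd1q1) (C2 := cd1q2b) (C3 := pd3)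
    rfl k0_pp_123_b

noncomputable def f_pp_133 : ℕ → ℕ → ℕ → ℕ → Bool := onCell 536870912 536870912 1610612736 536870912 649613803 48318383
    (rowB 3 eng mog cd1q1 cd1q3 pd3 0 true true true .dn 1 3 3 (qsf 536870912 536870912 1610612736 536870912 3) ndB1q1 ndB1q3 pcB3 Cut.none Ext.none)

def k0_pp_133 : ∃ t, chk3 f_pp_133 t 1 1 1 = true :=
  ⟨(l 4), by decide +kernel⟩

theorem c_pp_133 : CertB 536870912 536870912 1610612736 536870912 649613803 48318383 3 eng mog cd1q1 cd1q3 pd3 true true true .dn 1 3 3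
    ndB1q1 ndB1q3 pcB3 Cut.none Ext.none :=
  certB0 (fam := true) (s1 := true) (s2 := true) (a := 1) (b := 3) (c := 3) (cn := .dn) (n1 := ndB1q1) (n2 := ndB1q3) (pc := pcB3) (cut := Cut.none) (xt := Ext.none) (P1 := 536870912) (W1 := 536870912) (P2 := 1610612736) (W2 := 536870912) (P3 := 649613803) (W3 := 48318383) (N0 := 3) (En := eng) (mo := mog) (C1 := cd1q1) (C2 := cd1q3) (C3 := pd3)
    rfl k0_pp_133

noncomputable def f_pp_202_a : ℕ → ℕ → ℕ → ℕ → Bool := onCell 0 536870912 0 536870912 649613803 48318383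
    (rowB 3 eng mog cd1q2a cd1q0 pd2 0 true true true .pp 2 0 2 (qsf 0 536870912 0 536870912 2) ndB1q2a ndB1q0 pcB2 Cut.none Ext.none)

def k0_pp_202_a : ∃ t, chk3 f_pp_202_a t 1 1 1 = true :=
  ⟨(l 5), by decide +kernel⟩

theorem c_pp_202_a : CertB 0 536870912 0 536870912 649613803 48318383 3 eng mog cd1q2a cd1q0 pd2 true true true .pp 2 0 2
    ndB1q2a ndB1q0 pcB2 Cut.none Ext.none :=
  certB0 (fam := true) (s1 := true) (s2 := true) (a := 2) (b := 0) (c := 2) (cn := .pp) (n1 := ndB1q2a) (n2 := ndB1q0) (pc := pcB2) (cut := Cut.none) (xt := Ext.none) (P1 := 0) (W1 := 536870912) (P2 := 0) (W2 := 536870912) (P3 := 649613803) (W3 := 48318383) (N0 := 3) (En := eng) (mo := mog) (C1 := cd1q2a) (C2 := cd1q0) (C3 := pd2)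
    rfl k0_pp_202_a

noncomputable def f_pp_202_b : ℕ → ℕ → ℕ → ℕ → Bool := onCell 1239849684 370763052 0 536870912 649613803 48318383
    (rowB 3 eng mog cd1q2b cd1q0 pd2 0 true true true .pp 2 0 2 (qsf 1239849684 370763052 0 536870912 2) ndB1q2b ndB1q0 pcB2 Cut.none Ext.none)

def k0_pp_202_b : ∃ t, chk3 f_pp_202_b t 1 1 1 = true :=
  ⟨(l 5), by decide +kernel⟩

theorem c_pp_202_b : CertB 1239849684 370763052 0 536870912 649613803 48318383 3 eng mog cd1q2b cd1q0 pd2 true true true .pp 2 0 2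
    ndB1q2b ndB1q0 pcB2 Cut.none Ext.none :=
  certB0 (fam := true) (s1 := true) (s2 := true) (a := 2) (b := 0) (c := 2) (cn := .pp) (n1 := ndB1q2b) (n2 := ndB1q0) (pc := pcB2) (cut := Cut.none) (xt := Ext.none) (P1 := 1239849684) (W1 := 370763052) (P2 := 0) (W2 := 536870912) (P3 := 649613803) (W3 := 48318383) (N0 := 3) (En := eng) (mo := mog) (C1 := cd1q2b) (C2 := cd1q0) (C3 := pd2)
    rfl k0_pp_202_b

noncomputable def f_pp_203_a : ℕ → ℕ → ℕ → ℕ → Bool := onCell 0 536870912 0 536870912 649613803 48318383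
    (rowB 3 eng mog cd1q2a cd1q0 pd3 0 true true true .up 2 0 3 (qsf 0 536870912 0 536870912 3) ndB1q2a ndB1q0 pcB3 Cut.none Ext.none)

def k0_pp_203_a : ∃ t, chk3 f_pp_203_a t 1 1 1 = true :=
  ⟨(l 5), by decide +kernel⟩

theorem c_pp_203_a : CertB 0 536870912 0 536870912 649613803 48318383 3 eng mog cd1q2a cd1q0 pd3 true true true .up 2 0 3
    ndB1q2a ndB1q0 pcB3 Cut.none Ext.none :=
  certB0 (fam := true) (s1 := true) (s2 := true) (a := 2) (b := 0) (c := 3) (cn := .up) (n1 := ndB1q2a) (n2 := ndB1q0) (pc := pcB3) (cut := Cut.none) (xt := Ext.none) (P1 := 0) (W1 := 536870912) (P2 := 0) (W2 := 536870912) (P3 := 649613803) (W3 := 48318383) (N0 := 3) (En := eng) (mo := mog) (C1 := cd1q2a) (C2 := cd1q0) (C3 := pd3)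
    rfl k0_pp_203_a

noncomputable def f_pp_203_b : ℕ → ℕ → ℕ → ℕ → Bool := onCell 1239849684 370763052 0 536870912 649613803 48318383
    (rowB 3 eng mog cd1q2b cd1q0 pd3 0 true true true .up 2 0 3 (qsf 1239849684 370763052 0 536870912 3) ndB1q2b ndB1q0 pcB3 Cut.none Ext.none)

def k0_pp_203_b : ∃ t, chk3 f_pp_203_b t 1 1 1 = true :=
  ⟨(l 5), by decide +kernel⟩

theorem c_pp_203_b : CertB 1239849684 370763052 0 536870912 649613803 48318383 3 eng mog cd1q2b cd1q0 pd3 true true true .up 2 0 3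
    ndB1q2b ndB1q0 pcB3 Cut.none Ext.none :=
  certB0 (fam := true) (s1 := true) (s2 := true) (a := 2) (b := 0) (c := 3) (cn := .up) (n1 := ndB1q2b) (n2 := ndB1q0) (pc := pcB3) (cut := Cut.none) (xt := Ext.none) (P1 := 1239849684) (W1 := 370763052) (P2 := 0) (W2 := 536870912) (P3 := 649613803) (W3 := 48318383) (N0 := 3) (En := eng) (mo := mog) (C1 := cd1q2b) (C2 := cd1q0) (C3 := pd3)
    rfl k0_pp_203_b

noncomputable def f_pp_213_a : ℕ → ℕ → ℕ → ℕ → Bool := onCell 0 536870912 536870912 536870912 649613803 48318383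
    (rowB 3 eng mog cd1q2a cd1q1 pd3 0 true true true .pnn 2 1 3 (qsf 0 536870912 536870912 536870912 3) ndB1q2a ndB1q1 pcB3 Cut.none Ext.none)

def k0_pp_213_a : ∃ t, chk3 f_pp_213_a t 1 1 1 = true :=
  ⟨(l 5), by decide +kernel⟩

theorem c_pp_213_a : CertB 0 536870912 536870912 536870912 649613803 48318383 3 eng mog cd1q2a cd1q1 pd3 true true true .pnn 2 1 3
    ndB1q2a ndB1q1 pcB3 Cut.none Ext.none :=
  certB0 (fam := true) (s1 := true) (s2 := true) (a := 2) (b := 1) (c := 3) (cn := .pnn) (n1 := ndB1q2a) (n2 := ndB1q1) (pc := pcB3) (cut := Cut.none) (xt := Ext.none) (P1 := 0) (W1 := 536870912) (P2 := 536870912) (W2 := 536870912) (P3 := 649613803) (W3 := 48318383) (N0 := 3) (En := eng) (mo := mog) (C1 := cd1q2a) (C2 := cd1q1) (C3 := pd3)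
    rfl k0_pp_213_a

noncomputable def f_pp_213_b : ℕ → ℕ → ℕ → ℕ → Bool := onCell 1239849684 370763052 536870912 536870912 649613803 48318383
    (rowB 3 eng mog cd1q2b cd1q1 pd3 0 true true true .pnn 2 1 3 (qsf 1239849684 370763052 536870912 536870912 3) ndB1q2b ndB1q1 pcB3 Cut.none Ext.none)

def k0_pp_213_b : ∃ t, chk3 f_pp_213_b t 1 1 1 = true :=
  ⟨(l 5), by decide +kernel⟩

theorem c_pp_213_b : CertB 1239849684 370763052 536870912 536870912 649613803 48318383 3 eng mog cd1q2b cd1q1 pd3 true true true .pnn 2 1 3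
    ndB1q2b ndB1q1 pcB3 Cut.none Ext.none :=
  certB0 (fam := true) (s1 := true) (s2 := true) (a := 2) (b := 1) (c := 3) (cn := .pnn) (n1 := ndB1q2b) (n2 := ndB1q1) (pc := pcB3) (cut := Cut.none) (xt := Ext.none) (P1 := 1239849684) (W1 := 370763052) (P2 := 536870912) (W2 := 536870912) (P3 := 649613803) (W3 := 48318383) (N0 := 3) (En := eng) (mo := mog) (C1 := cd1q2b) (C2 := cd1q1) (C3 := pd3)
    rfl k0_pp_213_b

noncomputable def f_pp_303 : ℕ → ℕ → ℕ → ℕ → Bool := onCell 1610612736 536870912 0 536870912 649613803 48318383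
    (rowB 3 eng mog cd1q3 cd1q0 pd3 0 true true true .npn 3 0 3 (qsf 1610612736 536870912 0 536870912 3) ndB1q3 ndB1q0 pcB3 Cut.none Ext.none)

def k0_pp_303 : ∃ t, chk3 f_pp_303 t 1 1 1 = true :=
  ⟨(l 5), by decide +kernel⟩

theorem c_pp_303 : CertB 1610612736 536870912 0 536870912 649613803 48318383 3 eng mog cd1q3 cd1q0 pd3 true true true .npn 3 0 3
    ndB1q3 ndB1q0 pcB3 Cut.none Ext.none :=
  certB0 (fam := true) (s1 := true) (s2 := true) (a := 3) (b := 0) (c := 3) (cn := .npn) (n1 := ndB1q3) (n2 := ndB1q0) (pc := pcB3) (cut := Cut.none) (xt := Ext.none) (P1 := 1610612736) (W1 := 536870912) (P2 := 0) (W2 := 536870912) (P3 := 649613803) (W3 := 48318383) (N0 := 3) (En := eng) (mo := mog) (C1 := cd1q3) (C2 := cd1q0) (C3 := pd3)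
    rfl k0_pp_303

noncomputable def f_pp_313 : ℕ → ℕ → ℕ → ℕ → Bool := onCell 1610612736 536870912 536870912 536870912 649613803 48318383
    (rowB 3 eng mog cd1q3 cd1q1 pd3 0 true true true .dn 3 1 3 (qsf 1610612736 536870912 536870912 536870912 3) ndB1q3 ndB1q1 pcB3 Cut.none Ext.none)

def k0_pp_313 : ∃ t, chk3 f_pp_313 t 1 1 1 = true :=
  ⟨(l 4), by decide +kernel⟩

theorem c_pp_313 : CertB 1610612736 536870912 536870912 536870912 649613803 48318383 3 eng mog cd1q3 cd1q1 pd3 true true true .dn 3 1 3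
    ndB1q3 ndB1q1 pcB3 Cut.none Ext.none :=
  certB0 (fam := true) (s1 := true) (s2 := true) (a := 3) (b := 1) (c := 3) (cn := .dn) (n1 := ndB1q3) (n2 := ndB1q1) (pc := pcB3) (cut := Cut.none) (xt := Ext.none) (P1 := 1610612736) (W1 := 536870912) (P2 := 536870912) (W2 := 536870912) (P3 := 649613803) (W3 := 48318383) (N0 := 3) (En := eng) (mo := mog) (C1 := cd1q3) (C2 := cd1q1) (C3 := pd3)
    rfl k0_pp_313

noncomputable def f_pm_001 : ℕ → ℕ → ℕ → ℕ → Bool := onCell 0 536870912 0 536870912 649613803 48318383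
    (rowB 3 eng mog cd1q0 cd1q0 pd1 0 true true false .up 0 0 1 (qsf 0 536870912 0 536870912 1) ndB1q0 ndB1q0 pcB1 Cut.none Ext.none)

def k0_pm_001 : ∃ t, chk3 f_pm_001 t 1 1 1 = true :=
  ⟨(l 3), by decide +kernel⟩

theorem c_pm_001 : CertB 0 536870912 0 536870912 649613803 48318383 3 eng mog cd1q0 cd1q0 pd1 true true false .up 0 0 1
    ndB1q0 ndB1q0 pcB1 Cut.none Ext.none :=
  certB0 (fam := true) (s1 := true) (s2 := false) (a := 0) (b := 0) (c := 1) (cn := .up) (n1 := ndB1q0) (n2 := ndB1q0) (pc := pcB1) (cut := Cut.none) (xt := Ext.none) (P1 := 0) (W1 := 536870912) (P2 := 0) (W2 := 536870912) (P3 := 649613803) (W3 := 48318383) (N0 := 3) (En := eng) (mo := mog) (C1 := cd1q0) (C2 := cd1q0) (C3 := pd1)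
    rfl k0_pm_001

noncomputable def f_pm_011 : ℕ → ℕ → ℕ → ℕ → Bool := onCell 0 536870912 536870912 536870912 649613803 48318383
    (rowB 3 eng mog cd1q0 cd1q1 pd1 1 true true false .pnn 0 1 1 (qsf 0 536870912 536870912 536870912 1) ndB1q0 ndB1q1 pcB1 Cut.none Ext.none)

def k0_pm_011 : ∃ t, chk3 f_pm_011 t 1 1 1 = true :=
  ⟨(a (a (l 3) (l 3)) (l 3)), by decide +kernel⟩

theorem c_pm_011 : CertB 0 536870912 536870912 536870912 649613803 48318383 3 eng mog cd1q0 cd1q1 pd1 true true false .pnn 0 1 1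
    ndB1q0 ndB1q1 pcB1 Cut.none Ext.none :=
  certB1 (fam := true) (s1 := true) (s2 := false) (a := 0) (b := 1) (c := 1) (cn := .pnn) (n1 := ndB1q0) (n2 := ndB1q1) (pc := pcB1) (cut := Cut.none) (xt := Ext.none) (P1 := 0) (W1 := 536870912) (P2 := 536870912) (W2 := 536870912) (P3 := 649613803) (W3 := 48318383) (N0 := 3) (En := eng) (mo := mog) (C1 := cd1q0) (C2 := cd1q1) (C3 := pd1)
    rfl (fun _ => rfl) k0_pm_011

noncomputable def f_pm_012 : ℕ → ℕ → ℕ → ℕ → Bool := onCell 1073741824 536870912 536870912 536870912 649613803 48318383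
    (rowB 3 eng mog cd1q0 cd1q1 pd2 2 true true false .pnp 0 1 2 (qsf 0 536870912 536870912 536870912 2) ndB1q0 ndB1q1 pcB2 Cut.none Ext.none)

def k0_pm_012 : ∃ t, chk3 f_pm_012 t 4 2 1 = true :=
  ⟨(l 3), by decide +kernel⟩

def k1_pm_012 : ∃ t, chk3 f_pm_012 t 8 3 1 = true :=
  ⟨(b (l 3) (b (l 3) (a (l 3) (b (l 3) (a (b (l 3) (a (l 3) (b (l 3) (a (l 3) (l 149954668583))))) (b (a (l 3) (b (l 218137270343) (a (l 186461884199) (a (l 16724568) (l 16722384))))) (a (b (a (l 3) (b (l 16727832) (l 16725176))) (a (b (l 16726304) (l 16722400)) (a (l 16720632) (l 16718248)))) (b (a (a (l 16723584) (l 16721056)) (a (l 16718880) (l 16716104))) (a (b (l 16717072) (l 16713800)) (l 16710888)))))))))), by decide +kernel⟩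

def k2_pm_012 : ∃ t, chk3 f_pm_012 t 18 3 1 = true :=
  ⟨(b (l 3) (b (a (l 3) (b (l 3) (a (b (l 3) (a (l 262160714007) (l 186998786663))) (b (a (l 219747933463) (l 224042883431)) (a (c (l 165523953591) (l 16743888)) (c (l 16744816) (l 16723352))))))) (b (a (b (a (l 3) (b (l 318532136535) (a (l 180556332919) (l 133311713255)))) (a (a (l 279877424183) (b (l 202568037783) (l 231559023383))) (b (b (a (l 208473619015) (a (l 16722824) (l 16720424))) (a (l 16723624) (a (l 16719736) (l 16717032)))) (b (a (a (l 16722392) (l 16719608)) (l 16694760)) (l 16720752))))) (a (b (a (b (l 186461888823) (c (l 16724592) (l 16721880))) (b (l 16732520) (l 16717904))) (a (b (a (b (l 16718272) (l 16714200)) (l 16713680)) (l 16707728)) (b (l 16709552) (l 16701952)))) (a (b (l 16731784) (b (l 16704264) (l 16697184))) (b (l 16710072) (l 16696480))))) (a (b (a (b (a (l 200420522583) (l 16719248)) (a (l 16718712) (l 16712600))) (b (a (l 16713232) (l 16707224)) (a (l 16685832) (l 16701552))))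 (a (b (a (l 16711712) (l 16706344)) (a (l 16705680) (l 16700496))) (b (a (l 16701112) (l 16696112)) (l 16693072)))) (b (a (b (a (l 16701744) (l 16696400)) (l 16693872)) (b (l 16688904) (l 16683656))) (a (l 16688800) (l 16681768))))))), by decide +kernel⟩

def k3_pm_012 : ∃ t, chk3 f_pm_012 t 19 3 1 = true :=
  ⟨(b (b (l 3) (a (a (l 3) (b (l 3) (a (l 3) (l 280414333943)))) (a (b (l 3) (a (l 111299977703) (b (l 16736392) (l 16727952)))) (b (a (b (l 3) (l 16738880)) (b (l 16741288) (l 16733328))) (a (a (l 16722752) (b (l 16729296) (l 16721096))) (b (a (l 16726600) (l 16723984)) (l 16717120))))))) (b (a (b (b (a (l 3) (a (l 16757272) (l 16751592))) (a (a (l 232095951079) (b (l 236390930583) (l 16751040))) (a (b (l 16750248) (l 16745544)) (l 16721416)))) (a (b (a (b (l 16730648) (l 16746768)) (a (l 16745160) (l 16721504))) (a (l 16718360) (l 16712528))) (b (a (l 16717432) (l 16711992)) (a (l 16707296) (l 16702400))))) (b (a (b (a (l 16725024) (l 16719472)) (a (l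 16715840) (l 16710480))) (b (l 16711464) (l 16702576))) (a (b (l 16703976) (l 16694752)) (b (l 16693368) (l 16684200))))) (a (b (b (a (a (l 16705120) (l 16700504)) (a (l 16695872) (l 16691248))) (a (l 16669064) (l 16681328))) (b (a (b (l 16679872) (a (l 16676048) (l 16671432))) (b (l 16629776) (l 16644768))) (a (l 16667416) (l 16658912)))) (a (b (b (l 16684112) (l 16672592)) (b (l 16661512) (l 16650976))) (b (b (l 16674440) (l 16664048)) (l 16679296)))))), by decide +kernel⟩

def k4_pm_012 : ∃ t, chk3 f_pm_012 t 40 1 1 = true :=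
  ⟨(a (b (l 3) (b (b (b (l 3) (a (l 104320745527) (b (l 16743752) (l 16759712)))) (b (a (b (l 16736096) (a (l 16729360) (l 16726816))) (b (a (l 16732072) (l 16729584)) (a (l 16724232) (l 16722056)))) (a (l 16716224) (b (l 16715416) (l 16707216))))) (b (b (b (l 16700920) (l 16691872)) (b (l 16682696) (l 16673672))) (b (b (l 16664840) (l 16655472)) (l 16660992))))) (b (a (l 3) (b (l 2) (b (l 3) (b (l 3) (l 16748032))))) (b (b (b (a (l 16745016) (a (l 16742416) (l 16740544))) (a (b (l 16739632) (a (l 16735280) (l 16733240))) (b (l 16756664) (l 16751512)))) (b (a (b (a (l 16727656) (l 16725832)) (l 16719088)) (l 16718920)) (a (b (l 16710976) (l 16702152)) (l 16701416)))) (b (b (l 16685472) (b (l 16671856) (l 16663184))) (b (l 16649848) (l 16629656)))))), by decide +kernel⟩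

def k5_pm_012 : ∃ t, chk3 f_pm_012 t 41 2 1 = true :=
  ⟨(b (l 2) (b (a (l 3) (a (a (l 16777664) (l 16776824)) (a (a (l 16755160) (b (l 16757216) (l 16752000))) (a (a (a (l 16754368) (a (l 16754240) (l 16780352))) (l 16753952)) (l 16753568))))) (a (a (b (l 3) (a (l 16746008) (l 16744880))) (b (l 16791784) (a (l 16743640) (l 16742624)))) (a (a (b (l 16748296) (l 16741544)) (b (l 16747320) (l 16740232))) (a (a (l 16764056) (b (l 16745816) (l 16738480))) (a (a (a (b (l 16745392) (l 16737920)) (a (b (l 16745256) (l 16737520)) (b (l 16745152) (l 16737048)))) (l 16782896)) (b (l 16744496) (l 16735968)))))))), by decide +kernel⟩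

def k6_pm_012 : ∃ t, chk3 f_pm_012 t 41 3 1 = true :=
  ⟨(a (b (b (a (b (a (b (l 16740960) (l 16736944)) (l 16758736)) (l 16750720)) (b (a (l 16736584) (l 16735128)) (l 16747760))) (b (a (b (l 16718928) (l 16710184)) (b (l 16715104) (l 16705600))) (a (l 16717056) (l 16690792)))) (b (b (a (l 16676968) (l 16671400)) (a (b (l 16663688) (l 16655496)) (l 16654672))) (b (a (l 16642144) (l 16637088)) (l 16651328)))) (a (b (a (b (b (l 16733776) (l 16724144)) (b (l 16706464) (l 16686224))) (b (b (l 16732224) (l 16721776)) (b (l 16703264) (l 16682632)))) (b (b (a (l 16666992) (l 16664200)) (l 16649656)) (b (l 16632120) (l 16613168)))) (a (b (a (b (b (l 16730896) (l 16719232)) (b (l 16700280) (l 16679512))) (b (b (l 16750360) (l 16716824)) (b (l 16697480) (l 16677176)))) (b (b (a (l 16662136) (l 16660792)) (l 16645688)) (b (l 16628480) (b (l 16614952) (l 16605864))))) (b (a (a (a (b (b (l 16727728) (l 16714680)) (b (l 16695064) (l 16675328))) (a (b (b (l 16726800) (l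 16713480)) (b (l 16693752) (l 16674648))) (b (b (l 16725872) (l 16712232)) (b (l 16692360) (l 16663520))))) (b (l 16781648) (b (l 16691568) (l 16673480)))) (b (l 16780896) (b (l 16690664) (l 16672504)))) (a (a (a (b (b (l 16659840) (l 16644032)) (b (l 16627152) (l 16609768))) (b (b (l 16669464) (l 16664320)) (b (l 16658368) (b (l 16614000) (c (l 16624344) (l 16646448)))))) (b (l 16650960) (b (l 16626448) (l 16608632)))) (b (l 16660480) (b (l 16625496) (l 16607856)))))))), by decide +kernel⟩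

def k7_pm_012 : ∃ t, chk3 f_pm_012 t 21 1 1 = true :=
  ⟨(b (b (l 2) (b (b (l 16748688) (l 16741888)) (b (l 16734176) (a (l 16729752) (l 16718464))))) (b (b (b (l 16730816) (b (l 16697992) (l 16688560))) (b (l 16650104) (l 16667152))) (b (b (l 16636600) (l 16620944)) (b (l 16646784) (b (l 16592560) (b (l 16586552) (l 16624072))))))), by decide +kernel⟩

def k8_pm_012 : ∃ t, chk3 f_pm_012 t 11 1 1 = true :=
  ⟨(b (b (l 2) (b (a (l 16732056) (l 2)) (a (b (l 16716152) (l 16702808)) (l 16777368)))) (b (b (b (a (l 16683960) (l 16662288)) (a (l 16683264) (l 16634784))) (b (a (l 16740264) (l 16665472)) (a (b (l 16678928) (l 16608464)) (b (l 16621112) (l 16570632))))) (b (b (a (c (l 16640640) (l 16596576)) (c (l 16645864) (l 16560216))) (a (l 16582456) (l 16630768))) (b (a (l 16566432) (l 16572928)) (b (l 16578080) (a (l 16546376) (l 16510880))))))), by decide +kernel⟩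

def k9_pm_012 : ∃ t, chk3 f_pm_012 t 3 1 1 = true :=
  ⟨(b (a (b (l 2) (a (b (l 2) (a (l 16682104) (l 2))) (l 2))) (l 2)) (b (a (b (a (a (b (l 16645984) (l 16612320)) (l 16724824)) (b (l 2) (l 16595160))) (a (a (b (l 16636712) (a (l 16610776) (l 16532928))) (b (l 16561280) (l 16523456))) (b (l 16553680) (a (l 16514856) (l 16510536))))) (b (l 2) (a (b (l 2) (l 16511720)) (l 2)))) (a (b (a (b (a (a (l 16535280) (l 16519744)) (l 16504992)) (a (a (l 16522136) (l 16507248)) (l 16490072))) (b (a (l 16489304) (l 16478272)) (a (l 16470704) (l 16454832)))) (b (a (a (l 16541056) (l 16472880)) (a (l 16450880) (l 16431864))) (b (a (l 16608792) (l 16424992)) (a (a (l 16478792) (l 16450704)) (a (l 16426648) (l 16405536)))))) (b (b (a (a (l 16473144) (l 16474480)) (l 2)) (a (l 16443032) (l 16448448))) (a (b (l 16414248) (a (l 16394024) (l 16384896))) (b (l 16412800) (b (l 16387496) (l 16371944)))))))), by decide +kernel⟩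

theorem s10_pm_012 : ∃ t, chk3 f_pm_012 t 41 1 1 = true := ex3_b k5_pm_012 k6_pm_012

theorem s11_pm_012 : ∃ t, chk3 f_pm_012 t 20 1 1 = true := ex3_a k4_pm_012 s10_pm_012

theorem s12_pm_012 : ∃ t, chk3 f_pm_012 t 10 1 1 = true := ex3_a s11_pm_012 k7_pm_012

theorem s13_pm_012 : ∃ t, chk3 f_pm_012 t 5 1 1 = true := ex3_a s12_pm_012 k8_pm_012

theorem s14_pm_012 : ∃ t, chk3 f_pm_012 t 9 3 1 = true := ex3_a k2_pm_012 k3_pm_012

theorem s15_pm_012 : ∃ t, chk3 f_pm_012 t 4 3 1 = true := ex3_a k1_pm_012 s14_pm_012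

theorem s16_pm_012 : ∃ t, chk3 f_pm_012 t 4 1 1 = true := ex3_b k0_pm_012 s15_pm_012

theorem s17_pm_012 : ∃ t, chk3 f_pm_012 t 2 1 1 = true := ex3_a s16_pm_012 s13_pm_012

theorem s18_pm_012 : ∃ t, chk3 f_pm_012 t 1 1 1 = true := ex3_a s17_pm_012 k9_pm_012

theorem c_pm_012 : CertB 0 536870912 536870912 536870912 649613803 48318383 3 eng mog cd1q0 cd1q1 pd2 true true false .pnp 0 1 2
    ndB1q0 ndB1q1 pcB2 Cut.none Ext.none :=
  certB2 (fam := true) (s1 := true) (s2 := false) (a := 0) (b := 1) (c := 2) (cn := .pnp) (n1 := ndB1q0) (n2 := ndB1q1) (pc := pcB2) (cut := Cut.none) (xt := Ext.none) (P1 := 0) (W1 := 536870912) (P2 := 536870912) (W2 := 536870912) (P3 := 649613803) (W3 := 48318383) (N0 := 3) (En := eng) (mo := mog) (C1 := cd1q0) (C2 := cd1q1) (C3 := pd2)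
    rfl (fun _ => rfl) s18_pm_012

noncomputable def cut_pm_022_a : Cut := Cut.of [[⟨0, 0, 0, 67108864⟩, ⟨1, 1, 0, 67108864⟩, ⟨2, 1, 0, 67108864⟩]]

noncomputable def f_pm_022_a : ℕ → ℕ → ℕ → ℕ → Bool := onCell 1073741824 536870912 0 536870912 649613803 48318383
    (rowB 3 eng mog cd1q0 cd1q2a pd2 2 true true false .pp 0 2 2 (qsf 0 536870912 0 536870912 2) ndB1q0 ndB1q2a pcB2 cut_pm_022_a Ext.none)

def k0_pm_022_a : ∃ t, chk3 f_pm_022_a t 2 4 1 = true :=
  ⟨(a (l 1) (a (a (a (l 1) (a (b (l 1) (b (l 1) (c (l 16466304) (l 16460568)))) (c (b (b (l 16441736) (l 16446488)) (b (l 16453776) (l 16463264))) (b (l 16448392) (l 16527200))))) (a (b (c (a (b (l 16439600) (l 16444104)) (b (a (l 16438296) (l 16479968)) (l 16442328))) (a (l 16444592) (b (l 16459776) (l 16443648)))) (c (a (b (l 16451288) (c (l 16460432) (l 16461240))) (b (a (l 16449696) (l 16449112)) (a (l 16458976) (l 16479272)))) (b (a (l 16454928) (l 16451528)) (a (l 16465200) (l 16482664))))) (b (c (b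 (b (l 16444488) (l 16444600)) (l 16447592)) (b (l 16445040) (l 16448672))) (c (b (l 16453840) (l 16483216)) (b (l 16455744) (l 16465104)))))) (a (a (c (b (b (l 16454216) (l 16455776)) (a (b (l 16459128) (l 16466552)) (l 16486656))) (b (l 16498352) (l 16530056))) (b (b (l 16461880) (l 16462440)) (b (l 16466416) (l 16471552)))) (b (c (l 16563480) (l 16487040)) (b (l 16468928) (a (l 16471624) (c (l 16475296) (l 16469040)))))))), by decide +kernel⟩

def k1_pm_022_a : ∃ t, chk3 f_pm_022_a t 4 5 1 = true :=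
  ⟨(a (l 1) (a (l 1) (b (l 1) (a (l 1) (a (l 1) (b (l 1) (a (l 16525384) (b (l 16500632) (l 16511240))))))))), by decide +kernel⟩

def k2_pm_022_a : ∃ t, chk3 f_pm_022_a t 5 5 1 = true :=
  ⟨(a (a (b (a (a (l 1) (b (c (l 16472144) (l 16461584)) (c (l 160557387319) (l 16472528)))) (c (b (a (l 16476128) (l 16474776)) (a (l 16486864) (l 16487312))) (b (b (l 16394512) (a (l 16448144) (l 16474208))) (a (l 16477528) (l 16482128))))) (a (c (b (a (l 16494616) (c (l 16499488) (l 16495520))) (b (c (l 16511048) (l 16465144)) (l 16518688))) (b (a (l 16482624) (l 16508104)) (a (l 16502232) (b (l 16500576) (l 16510464))))) (a (b (c (l 16500288) (a (l 16490280) (l 16492272))) (c (l 16516504) (l 16508616))) (b (c (l 16500416) (l 16495072)) (l 16441768))))) (c (b (b (a (a (c (l 16471536) (l 16472912)) (a (l 16470256) (a (l 16469448) (l 16469520)))) (c (l 16472584) (a (l 16471728) (l 16474328)))) (a (a (c (l 16483752) (l 16485392)) (a (l 16482456) (a (l 16481568) (l 16481544))))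 (c (l 16483736) (l 16484552)))) (a (b (a (l 16497248) (a (l 16495120) (a (l 16494136) (l 16494000)))) (a (l 16509344) (a (l 16506960) (l 16505720)))) (b (c (l 16495504) (l 16496328)) (l 16485744)))) (b (a (a (a (l 16501864) (l 16483000)) (b (l 16495104) (l 16486776))) (b (l 16476720) (l 16487704))) (b (a (b (l 16559416) (l 16524168)) (l 16498416)) (a (b (l 16509520) (l 16514840)) (l 16510480)))))) (b (a (a (b (c (l 16513560) (l 16476040)) (l 16549904)) (b (c (l 16479024) (l 16474008)) (c (l 16486984) (l 16481192)))) (b (c (a (l 16479416) (l 16439096)) (a (l 16473248) (l 16473576))) (a (c (l 16486784) (l 16479808)) (l 16484336)))) (a (a (b (b (l 16494112) (l 16499400)) (l 16507936)) (b (c (l 16496072) (l 16490096)) (l 16503552))) (b (a (c (l 16494952) (l 16487728)) (l 16501896)) (a (c (l 16502880) (l 16496408)) (b (l 16496800) (l 16500840))))))), by decide +kernel⟩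

def k3_pm_022_a : ∃ t, chk3 f_pm_022_a t 8 3 1 = true :=
  ⟨(b (l 1) (b (a (l 1) (b (a (l 1) (a (l 1) (b (l 1) (b (l 16633632) (l 16641272))))) (a (l 6) (a (l 6) (a (l 6) (b (l 16651392) (l 16655136))))))) (a (l 6) (a (l 6) (a (l 6) (b (b (l 16680896) (l 16693776)) (b (l 16698872) (b (l 16702072) (l 16703880))))))))), by decide +kernel⟩

def k4_pm_022_a : ∃ t, chk3 f_pm_022_a t 9 3 1 = true :=
  ⟨(b (a (b (l 1) (b (a (l 1) (a (l 16589752) (b (l 16562336) (l 16576160)))) (a (a (l 1) (b (l 16590912) (l 16604888))) (b (a (l 16590536) (l 16589912)) (a (l 16603808) (l 16560536)))))) (a (b (b (b (l 1) (l 16525872)) (b (l 56941431287) (a (l 16550296) (l 16551464)))) (b (a (b (l 16563056) (l 16513184)) (b (l 16500584) (l 16554800))) (b (c (l 16591704) (l 16542672)) (l 16600048)))) (b (c (b (a (l 16529448) (b (l 16526128) (l 16535976))) (a (l 16488152) (l 16551408))) (b (a (l 16517672) (l 16520648)) (b (l 16536160) (l 16547864)))) (b (a (l 16485632) (l 16569000))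 (l 16590928))))) (b (a (b (a (b (a (l 16620496) (l 16618880)) (a (l 16645752) (c (l 16635752) (l 16629528)))) (b (c (l 16619016) (l 16612512)) (a (l 16630312) (l 16627504)))) (a (b (a (c (l 16651752) (l 16646152)) (l 16646048)) (a (l 16662832) (l 16658984))) (b (l 16641016) (l 16651568)))) (a (b (b (l 16611504) (l 16622432)) (c (l 16630992) (l 16633448))) (b (l 16646160) (c (l 16605424) (l 16617144))))) (b (b (a (a (l 16705576) (l 16656952)) (a (l 16640080) (l 16645072))) (a (a (l 16701056) (c (l 16662136) (l 16662888))) (a (l 16666320) (l 16629192)))) (a (b (a (c (l 16706032) (l 16685496)) (c (l 16667648) (l 16667296))) (a (b (l 16688336) (l 16711112)) (a (l 16675752) (l 16666984)))) (a (b (l 16650208) (l 16675104)) (b (l 16633888) (a (l 16641648) (l 16633408)))))))), by decide +kernel⟩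

def k5_pm_022_a : ∃ t, chk3 f_pm_022_a t 5 6 1 = true :=
  ⟨(a (a (a (b (b (b (a (c (l 16527704) (l 16518136)) (l 16525392)) (l 16470976)) (c (l 16550344) (l 16523528))) (b (l 16565872) (l 16577728))) (b (a (b (l 16573256) (l 16544584)) (a (b (l 16528128) (l 16540584)) (a (b (l 16526352) (l 16538712)) (b (c (l 16523504) (l 16528248)) (l 16537576))))) (a (b (l 16556784) (l 16568224)) (a (b (l 16552600) (l 16563872)) (b (a (l 16550704) (l 16549632)) (a (l 16561952) (l 16560952))))))) (b (b (a (c (a (l 16521072) (a (l 16518336) (l 16516864))) (l 16564592)) (c (l 16496168) (l 16519792))) (a (c (l 16531456) (l 16533672)) (l 16527728))) (a (b (l 16554024) (c (l 16554880) (l 16554736))) (b (l 16537800) (l 16547128))))) (b (a (b (b (l 16513640) (l 16518752)) (l 16566304)) (b (a (l 16508840) (l 16507352)) (l 16558280))) (a (b (l 16532072) (l 16538992)) (l 16599592)))), by decide +kernel⟩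

def k6_pm_022_a : ∃ t, chk3 f_pm_022_a t 5 7 1 = true :=
  ⟨(a (a (a (b (b (c (l 16589544) (l 16591152)) (c (l 16601896) (l 16601896))) (b (b (l 16609136) (l 16634992)) (b (a (l 16622120) (l 16614064)) (a (l 16624648) (l 16615536))))) (a (b (b (l 16580128) (l 16591376)) (b (b (l 16598632) (l 16602968)) (b (l 16605792) (l 16606856)))) (b (a (b (l 16575624) (l 16586728)) (a (b (l 16573688) (l 16584776)) (b (l 16572760) (l 16625856)))) (b (a (l 16616744) (a (l 16614544) (b (l 16611760) (l 16615040)))) (a (b (l 16599896) (l 16600888)) (a (b (l 16597464) (l 16598440)) (a (a (a (l 16597464) (b (l 16597128) (c (l 16601440) (l 16594984)))) (l 16597472)) (l 16596648)))))))) (b (b (a (l 16586680) (l 16577840)) (a (c (l 16598512) (l 16617168)) (l 16565216))) (a (b (b (l 16581928) (l 16584872)) (b (l 16587016) (a (l 16592064) (l 16583624)))) (b (l 16570624) (b (l 16572960) (l 16573024)))))) (b (b (a (l 16535520) (l 16531512)) (a (l 16551456) (l 16533672))) (b (a (b (l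 16553568) (l 16554424)) (l 16554056)) (a (b (l 16554504) (a (l 16559744) (l 16546824))) (b (l 16530968) (l 16569984)))))), by decide +kernel⟩

def k7_pm_022_a : ∃ t, chk3 f_pm_022_a t 3 2 1 = true :=
  ⟨(a (b (a (b (a (a (l 16473304) (l 16478576)) (l 16493072)) (a (b (a (l 16472720) (l 16477616)) (a (l 16475320) (l 16480512))) (b (l 16491120) (l 16493360)))) (a (b (a (l 16508664) (l 16519304)) (b (a (l 16505456) (l 16515240)) (a (l 16506688) (l 16515792)))) (b (a (l 16530344) (l 16541440)) (b (l 16530400) (l 16550856))))) (a (b (a (b (a (l 16480200) (l 16485944)) (a (l 16486456) (l 16492368))) (b (l 16497928) (l 16502880))) (a (b (a (l 16493864) (l 16499152)) (a (l 16501368) (l 16504928))) (b (l 16507656) (l 16510680)))) (b (a (a (l 16538400) (b (l 16518584) (l 16521024))) (b (l 16531472) (l 16532480))) (a (b (a (l 16516456) (l 16522496)) (a (l 16516752) (l 16521032))) (b (l 16553216) (l 16549576)))))) (b (a (a (b (a (l 16552664) (l 16564640)) (a (l 16545320)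 (l 16556072))) (b (l 16624536) (b (l 16573616) (l 16570512)))) (a (b (l 16626624) (b (l 16594952) (l 16590504))) (b (a (l 16622200) (l 16632840)) (b (l 16615224) (l 16609496))))) (a (b (a (b (l 16550016) (l 16549368)) (b (l 16569328) (l 16566624))) (a (b (l 16546856) (l 16540000)) (b (l 16561568) (l 16551320)))) (b (a (b (l 16587912) (l 16583152)) (b (l 16605384) (l 16703696))) (a (b (l 16575720) (l 16562152)) (b (l 16588752) (l 16571760))))))), by decide +kernel⟩

def k8_pm_022_a : ∃ t, chk3 f_pm_022_a t 3 3 1 = true :=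
  ⟨(a (b (a (a (b (b (l 16508904) (l 16512728)) (l 16516392)) (b (b (l 16511936) (l 16510392)) (l 16527488))) (b (a (b (a (l 16514664) (l 16516864)) (l 16529944)) (b (l 16563672) (l 16510128))) (a (b (l 16499128) (l 16495680)) (l 16530736)))) (a (b (b (a (l 16517360) (l 16504032)) (a (l 16516608) (l 16501144))) (b (a (l 16513216) (l 16495488)) (a (b (l 16508992) (l 16504672)) (l 16528832)))) (b (b (a (l 16492800) (l 16481488)) (a (l 16487864) (l 16474904))) (b (a (l 16479992) (l 16465432)) (a (a (l 16473552) (l 16465296)) (a (l 16457152) (l 16448952))))))) (b (a (a (b (b (l 16528960) (l 16512160)) (l 16478736)) (b (l 16505480) (l 16574728))) (b (a (l 16509560) (l 16617680)) (b (l 16480872) (l 16617456)))) (a (b (a (b (l 16470328) (l 16462632)) (l 16454648)) (b (a (l 16451536) (l 16438184)) (a (l 16437424) (l 16423824)))) (b (a (l 16439080) (l 16419952)) (b (l 16541384) (a (l 16410280) (l 16397752))))))), by decide +kernel⟩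

theorem s9_pm_022_a : ∃ t, chk3 f_pm_022_a t 3 1 1 = true := ex3_b k7_pm_022_a k8_pm_022_a

theorem s10_pm_022_a : ∃ t, chk3 f_pm_022_a t 5 3 1 = true := ex3_b k5_pm_022_a k6_pm_022_a

theorem s11_pm_022_a : ∃ t, chk3 f_pm_022_a t 4 3 1 = true := ex3_a k3_pm_022_a k4_pm_022_a

theorem s12_pm_022_a : ∃ t, chk3 f_pm_022_a t 2 3 1 = true := ex3_a s11_pm_022_a s10_pm_022_a

theorem s13_pm_022_a : ∃ t, chk3 f_pm_022_a t 2 5 1 = true := ex3_a k1_pm_022_a k2_pm_022_a

theorem s14_pm_022_a : ∃ t, chk3 f_pm_022_a t 2 2 1 = true := ex3_b k0_pm_022_a s13_pm_022_a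

theorem s15_pm_022_a : ∃ t, chk3 f_pm_022_a t 2 1 1 = true := ex3_b s14_pm_022_a s12_pm_022_a

theorem s16_pm_022_a : ∃ t, chk3 f_pm_022_a t 1 1 1 = true := ex3_a s15_pm_022_a s9_pm_022_a

theorem c_pm_022_a : CertB 0 536870912 0 536870912 649613803 48318383 3 eng mog cd1q0 cd1q2a pd2 true true false .pp 0 2 2
    ndB1q0 ndB1q2a pcB2 cut_pm_022_a Ext.none :=
  certB2 (fam := true) (s1 := true) (s2 := false) (a := 0) (b := 2) (c := 2) (cn := .pp) (n1 := ndB1q0) (n2 := ndB1q2a) (pc := pcB2) (cut := cut_pm_022_a) (xt := Ext.none) (P1 := 0) (W1 := 536870912) (P2 := 0) (W2 := 536870912) (P3 := 649613803) (W3 := 48318383) (N0 := 3) (En := eng) (mo := mog) (C1 := cd1q0) (C2 := cd1q2a) (C3 := pd2)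
    rfl (fun _ => rfl) s16_pm_022_a

noncomputable def cut_pm_022_b : Cut := Cut.of [[⟨0, 0, 0, 67108864⟩, ⟨1, 1, 0, 67108864⟩, ⟨2, 1, 0, 67108864⟩]]

noncomputable def f_pm_022_b : ℕ → ℕ → ℕ → ℕ → Bool := onCell 1073741824 536870912 1239849684 370763052 649613803 48318383
    (rowB 3 eng mog cd1q0 cd1q2b pd2 2 true true false .pp 0 2 2 (qsf 0 536870912 1239849684 370763052 2) ndB1q0 ndB1q2b pcB2 cut_pm_022_b Ext.none)

def k0_pm_022_b : ∃ t, chk3 f_pm_022_b t 1 1 1 = true :=
  ⟨(a (b (a (l 1) (a (b (b (a (a (l 1) (b (a (l 1) (c (l 16375736) (l 16422048))) (l 1))) (a (b (a (c (b (l 16427544) (l 1)) (l 16397936)) (a (b (l 16426512) (l 16341064)) (b (l 16426160) (l 16424640)))) (l 1)) (b (c (b (l 16433536) (l 16410528)) (l 16402336)) (c (l 16333056) (l 16377960))))) (l 1)) (l 1)) (b (a (a (b (b (c (l 16405664) (l 16433600)) (l 16385336)) (l 16306520)) (b (l 16479560) (l 16309888))) (b (b (l 16445856) (l 16396208)) (a (l 16315184) (l 16322136)))) (a (l 1) (b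 (l 16209816) (l 1)))))) (l 1)) (b (a (a (b (b (a (b (l 16455680) (l 16408616)) (b (l 16473144) (l 16425688))) (a (l 16335128) (l 16355704))) (a (b (l 16231864) (l 1)) (b (l 16258328) (l 16155904)))) (b (a (b (a (l 16467264) (l 16501576)) (a (l 16372984) (l 16386752))) (b (a (l 16494392) (l 16508184)) (l 16453560))) (a (a (l 16231648) (l 16248416)) (b (l 16319888) (l 16229864))))) (a (b (b (a (b (l 16568608) (l 16509328)) (b (l 16574184) (l 16538960))) (a (l 16447104) (l 16482256))) (a (b (l 16357576) (l 16270024)) (b (l 16399336) (l 16312760)))) (b (b (a (l 16648104) (b (l 16625296) (l 16597952))) (a (l 16516976) (l 16551264))) (a (l 16401480) (l 16508432))))) (a (b (a (l 1) (a (a (l 16028640) (l 16051104)) (b (l 16135960) (l 16039008)))) (l 1)) (a (b (a (l 16139136) (l 16189864)) (a (l 1) (l 16019592))) (b (a (l 16239960) (l 16291024)) (a (l 16082400) (l 16142896))))))), by decide +kernel⟩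

theorem c_pm_022_b : CertB 0 536870912 1239849684 370763052 649613803 48318383 3 eng mog cd1q0 cd1q2b pd2 true true false .pp 0 2 2
    ndB1q0 ndB1q2b pcB2 cut_pm_022_b Ext.none :=
  certB2 (fam := true) (s1 := true) (s2 := false) (a := 0) (b := 2) (c := 2) (cn := .pp) (n1 := ndB1q0) (n2 := ndB1q2b) (pc := pcB2) (cut := cut_pm_022_b) (xt := Ext.none) (P1 := 0) (W1 := 536870912) (P2 := 1239849684) (W2 := 370763052) (P3 := 649613803) (W3 := 48318383) (N0 := 3) (En := eng) (mo := mog) (C1 := cd1q0) (C2 := cd1q2b) (C3 := pd2)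
    rfl (fun _ => rfl) k0_pm_022_b

noncomputable def f_pm_023_a : ℕ → ℕ → ℕ → ℕ → Bool := onCell 1610612736 536870912 0 536870912 649613803 48318383
    (rowB 3 eng mog cd1q0 cd1q2a pd3 2 true true false .up 0 2 3 (qsf 0 536870912 0 536870912 3) ndB1q0 ndB1q2a pcB3 Cut.none Ext.none)

def k0_pm_023_a : ∃ t, chk3 f_pm_023_a t 1 1 1 = true :=
  ⟨(a (b (a (a (b (b (a (l 16637448) (l 16636264)) (l 16701856)) (b (a (l 16598312) (l 16599560)) (a (l 16554848) (l 16585624)))) (b (b (a (l 16671440) (l 16699048)) (l 16665528)) (b (l 16649464) (a (l 16616912) (l 16645344))))) (a (b (b (l 16815160) (a (l 16702912) (l 2))) (b (l 16701296) (a (l 16672112) (l 2)))) (l 2))) (b (a (a (b (l 16547224) (l 16663840)) (b (a (l 16593912) (l 16621080)) (a (l 16565560) (l 16592832)))) (l 2)) (a (a (b (l 16596936) (b (l 16475208) (l 16464760))) (a (b (l 16539976) (l 2)) (l 2))) (l 2)))) (l 2)), by decide +kernel⟩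

theorem c_pm_023_a : CertB 0 536870912 0 536870912 649613803 48318383 3 eng mog cd1q0 cd1q2a pd3 true true false .up 0 2 3
    ndB1q0 ndB1q2a pcB3 Cut.none Ext.none :=
  certB2 (fam := true) (s1 := true) (s2 := false) (a := 0) (b := 2) (c := 3) (cn := .up) (n1 := ndB1q0) (n2 := ndB1q2a) (pc := pcB3) (cut := Cut.none) (xt := Ext.none) (P1 := 0) (W1 := 536870912) (P2 := 0) (W2 := 536870912) (P3 := 649613803) (W3 := 48318383) (N0 := 3) (En := eng) (mo := mog) (C1 := cd1q0) (C2 := cd1q2a) (C3 := pd3)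
    rfl (fun _ => rfl) k0_pm_023_a

noncomputable def f_pm_023_b : ℕ → ℕ → ℕ → ℕ → Bool := onCell 1610612736 536870912 1239849684 370763052 649613803 48318383
    (rowB 3 eng mog cd1q0 cd1q2b pd3 2 true true false .up 0 2 3 (qsf 0 536870912 1239849684 370763052 3) ndB1q0 ndB1q2b pcB3 Cut.none Ext.none)

def k0_pm_023_b : ∃ t, chk3 f_pm_023_b t 1 1 1 = true :=
  ⟨(a (a (b (a (b (a (b (l 16653304) (l 16580888)) (b (l 16641984) (l 16604432))) (a (l 16483096) (l 16516528))) (b (b (a (l 16643536) (l 16675888)) (l 16633656)) (l 16693168))) (a (b (l 16438648) (l 16201272)) (b (l 16439408) (l 16292448)))) (b (a (b (b (a (l 16701160) (l 16720416)) (l 16673528)) (l 16674808)) (b (a (l 16761536) (l 295379671511)) (l 47479602215))) (a (b (l 16534792) (l 16408680)) (l 4)))) (a (a (l 4) (l 4)) (l 4))), by decide +kernel⟩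

theorem c_pm_023_b : CertB 0 536870912 1239849684 370763052 649613803 48318383 3 eng mog cd1q0 cd1q2b pd3 true true false .up 0 2 3
    ndB1q0 ndB1q2b pcB3 Cut.none Ext.none :=
  certB2 (fam := true) (s1 := true) (s2 := false) (a := 0) (b := 2) (c := 3) (cn := .up) (n1 := ndB1q0) (n2 := ndB1q2b) (pc := pcB3) (cut := Cut.none) (xt := Ext.none) (P1 := 0) (W1 := 536870912) (P2 := 1239849684) (W2 := 370763052) (P3 := 649613803) (W3 := 48318383) (N0 := 3) (En := eng) (mo := mog) (C1 := cd1q0) (C2 := cd1q2b) (C3 := pd3)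
    rfl (fun _ => rfl) k0_pm_023_b

noncomputable def f_pm_033 : ℕ → ℕ → ℕ → ℕ → Bool := onCell 0 536870912 1610612736 536870912 649613803 48318383
    (rowB 3 eng mog cd1q0 cd1q3 pd3 1 true true false .pnn 0 3 3 (qsf 0 536870912 1610612736 536870912 3) ndB1q0 ndB1q3 pcB3 Cut.none Ext.none)

def k0_pm_033 : ∃ t, chk3 f_pm_033 t 1 1 1 = true :=
  ⟨(b (b (a (b (a (l 16166736) (l 1)) (a (l 16143976) (l 16432600))) (l 1)) (a (b (a (l 16178040) (l 16476848)) (l 4)) (b (l 1) (a (l 4) (l 1))))) (l 4)), by decide +kernel⟩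

theorem c_pm_033 : CertB 0 536870912 1610612736 536870912 649613803 48318383 3 eng mog cd1q0 cd1q3 pd3 true true false .pnn 0 3 3
    ndB1q0 ndB1q3 pcB3 Cut.none Ext.none :=
  certB1 (fam := true) (s1 := true) (s2 := false) (a := 0) (b := 3) (c := 3) (cn := .pnn) (n1 := ndB1q0) (n2 := ndB1q3) (pc := pcB3) (cut := Cut.none) (xt := Ext.none) (P1 := 0) (W1 := 536870912) (P2 := 1610612736) (W2 := 536870912) (P3 := 649613803) (W3 := 48318383) (N0 := 3) (En := eng) (mo := mog) (C1 := cd1q0) (C2 := cd1q3) (C3 := pd3)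
    rfl (fun _ => rfl) k0_pm_033

noncomputable def f_pm_101 : ℕ → ℕ → ℕ → ℕ → Bool := onCell 536870912 536870912 0 536870912 649613803 48318383
    (rowB 3 eng mog cd1q1 cd1q0 pd1 2 true true false .npn 1 0 1 (qsf 536870912 536870912 0 536870912 1) ndB1q1 ndB1q0 pcB1 Cut.none Ext.none)

def k0_pm_101 : ∃ t, chk3 f_pm_101 t 1 1 1 = true :=
  ⟨(a (l 3) (b (l 3) (l 3))), by decide +kernel⟩

theorem c_pm_101 : CertB 536870912 536870912 0 536870912 649613803 48318383 3 eng mog cd1q1 cd1q0 pd1 true true false .npn 1 0 1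
    ndB1q1 ndB1q0 pcB1 Cut.none Ext.none :=
  certB2 (fam := true) (s1 := true) (s2 := false) (a := 1) (b := 0) (c := 1) (cn := .npn) (n1 := ndB1q1) (n2 := ndB1q0) (pc := pcB1) (cut := Cut.none) (xt := Ext.none) (P1 := 536870912) (W1 := 536870912) (P2 := 0) (W2 := 536870912) (P3 := 649613803) (W3 := 48318383) (N0 := 3) (En := eng) (mo := mog) (C1 := cd1q1) (C2 := cd1q0) (C3 := pd1)
    rfl (fun _ => rfl) k0_pm_101

noncomputable def f_pm_102 : ℕ → ℕ → ℕ → ℕ → Bool := onCell 536870912 536870912 1073741824 536870912 649613803 48318383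
    (rowB 3 eng mog cd1q1 cd1q0 pd2 1 true true false .npp 1 0 2 (qsf 536870912 536870912 0 536870912 2) ndB1q1 ndB1q0 pcB2 Cut.none Ext.none)

def k0_pm_102 : ∃ t, chk3 f_pm_102 t 2 4 1 = true :=
  ⟨(l 3), by decide +kernel⟩

def k1_pm_102 : ∃ t, chk3 f_pm_102 t 3 8 1 = true :=
  ⟨(a (l 3) (a (l 3) (b (l 3) (a (l 3) (b (a (l 3) (b (l 3) (a (l 3) (b (l 3) (l 149954668583))))) (a (b (l 3) (a (l 218137270343) (b (l 186461884199) (b (l 16724568) (l 16722384))))) (b (a (b (l 3) (a (l 16727832) (l 16725176))) (a (b (l 16726304) (l 16721344)) (b (l 16722400) (l 16717544)))) (a (b (b (l 16723584) (l 16721056)) (b (l 16718880) (l 16716104))) (b (a (l 16717072) (l 16713800)) (l 16710888)))))))))), by decide +kernel⟩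

def k2_pm_102 : ∃ t, chk3 f_pm_102 t 3 18 1 = true :=
  ⟨(a (l 3) (a (b (l 3) (a (l 3) (b (a (l 3) (b (l 262160714007) (l 186998786663))) (a (b (l 219747933463) (l 224042883431)) (b (c (l 165523953591) (l 16743888)) (c (l 16744816) (l 16723352))))))) (a (b (a (b (l 3) (a (l 318532136535) (b (l 180556332919) (l 133311713255)))) (b (b (l 279877424183) (a (l 202568037783) (l 231559023383))) (a (a (b (l 208473619015) (b (l 16722824) (l 16720424))) (b (l 16723624) (b (l 16719736) (l 16717032)))) (a (b (b (l 16722392) (l 16719608)) (l 16694760)) (l 16720752))))) (b (a (a (b (l 186461888823) (l 16732520)) (b (c (l 16724592) (l 16721880)) (l 16717904))) (b (a (b (a (l 16718272) (l 16714200)) (l 16713680)) (l 16707728)) (a (l 16709552) (l 16701952)))) (b (a (l 16731784) (a (l 16704264) (l 16697184))) (a (l 16710072) (l 16696480))))) (b (a (b (a (b (l 200420522583) (l 16719248)) (b (l 16718712) (l 16712600))) (a (b (l 16713232) (l 16707224)) (b (l 16685832) (l 16701552))))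 (b (a (b (l 16711712) (l 16706344)) (b (l 16705680) (l 16700496))) (a (b (l 16701112) (l 16696112)) (l 16693072)))) (a (b (a (b (l 16701744) (l 16696400)) (l 16693872)) (a (l 16688904) (l 16683656))) (b (l 16688800) (l 16676528))))))), by decide +kernel⟩

def k3_pm_102 : ∃ t, chk3 f_pm_102 t 3 19 1 = true :=
  ⟨(a (a (l 3) (b (b (l 3) (a (l 3) (b (l 3) (l 280414333943)))) (b (a (l 3) (b (l 111299977703) (a (l 16736392) (l 16727952)))) (a (b (a (l 3) (l 16738880)) (a (l 16741288) (l 16733328))) (b (b (l 16722752) (a (l 16729296) (l 16721096))) (a (b (l 16726600) (l 16723984)) (l 16717120))))))) (a (b (a (a (b (l 3) (b (l 16757272) (l 16751592))) (b (b (l 232095951079) (a (l 236390930583) (l 16751040))) (b (a (l 16750248) (l 16745544)) (l 16721416)))) (b (a (b (a (l 16730648) (l 16746768)) (b (l 16745160) (l 16721504))) (b (l 16718360) (l 16712528))) (a (b (l 16717432) (l 16711992)) (b (l 16707296) (l 16702400))))) (a (b (a (b (l 16725024) (l 16719472)) (b (l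 16715840) (l 16710480))) (a (l 16711464) (l 16702576))) (b (a (l 16703976) (l 16694752)) (a (l 16693368) (l 16684200))))) (b (a (a (b (b (l 16705120) (l 16700504)) (b (l 16695872) (l 16691248))) (b (l 16669064) (l 16681328))) (a (b (a (l 16679872) (b (l 16676048) (l 16671432))) (a (l 16629776) (l 16644768))) (b (l 16667416) (l 16658912)))) (a (a (b (l 16684112) (l 16674440)) (b (l 16672592) (l 16664048))) (b (a (l 16661512) (l 16650976)) (a (l 16654312) (l 16643520))))))), by decide +kernel⟩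

def k4_pm_102 : ∃ t, chk3 f_pm_102 t 1 40 1 = true :=
  ⟨(b (a (l 3) (a (a (a (l 3) (b (l 104320745527) (a (l 16743752) (l 16759712)))) (a (b (a (l 16736096) (b (l 16729360) (l 16726816))) (a (b (l 16732072) (l 16729584)) (b (l 16724232) (l 16722056)))) (b (l 16716224) (a (l 16715416) (l 16707216))))) (a (a (a (l 16700920) (l 16691872)) (a (l 16682696) (l 16673672))) (a (a (l 16664840) (l 16655472)) (l 16660992))))) (a (a (l 2) (a (l 3) (a (l 3) (b (l 3) (l 16748032))))) (a (a (a (b (l 16745016) (b (l 16742416) (l 16740544))) (b (a (l 16739632) (b (l 16735280) (l 16733240))) (a (l 16756664) (l 16751512)))) (a (b (a (b (l 16727656) (l 16725832)) (l 16719088)) (l 16718920)) (b (a (l 16710976) (l 16702152)) (l 16701416)))) (a (a (l 16685472) (a (l 16671856) (l 16663184))) (a (l 16649848) (l 16629656)))))), by decide +kernel⟩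

def k5_pm_102 : ∃ t, chk3 f_pm_102 t 2 41 1 = true :=
  ⟨(a (l 2) (a (b (l 3) (b (b (l 16777664) (l 16776824)) (b (b (l 16755160) (a (l 16757216) (l 16752000))) (b (b (b (l 16754368) (b (l 16754240) (l 16780352))) (l 16753952)) (l 16753568))))) (b (b (a (l 3) (b (l 16746008) (l 16744880))) (a (l 16791784) (b (l 16743640) (l 16742624)))) (b (b (a (l 16748296) (l 16741544)) (a (l 16747320) (l 16740232))) (b (b (l 16764056) (a (l 16745816) (l 16738480))) (b (b (b (a (l 16745392) (l 16737920)) (b (a (l 16745256) (l 16737520)) (a (l 16745152) (l 16737048)))) (l 16782896)) (a (l 16744496) (l 16735968)))))))), by decide +kernel⟩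

def k6_pm_102 : ∃ t, chk3 f_pm_102 t 3 41 1 = true :=
  ⟨(b (a (a (b (a (b (a (l 16740960) (l 16736944)) (l 16758736)) (l 16750720)) (a (b (l 16736584) (l 16735128)) (l 16747760))) (a (b (a (l 16718928) (l 16710184)) (a (l 16715104) (l 16705600))) (b (l 16717056) (l 16690792)))) (a (a (b (l 16676968) (l 16671400)) (b (a (l 16663688) (l 16655496)) (l 16654672))) (a (b (l 16642144) (l 16637088)) (a (l 16624896) (l 16614640))))) (b (a (b (a (a (l 16733776) (l 16724144)) (a (l 16706464) (l 16686224))) (a (a (l 16732224) (l 16721776)) (a (l 16703264) (l 16682632)))) (a (a (b (l 16666992) (l 16664200)) (l 16649656)) (a (l 16632120) (l 16613168)))) (b (a (b (a (a (l 16730896) (l 16719232)) (a (l 16700280) (l 16679512))) (a (a (l 16750360) (l 16716824)) (a (l 16697480) (l 16677176)))) (a (a (a (l 16665168) (l 16657528)) (l 16645688)) (a (l 16628480) (a (l 16614952) (l 16605864))))) (a (b (b (b (a (a (l 16727728) (l 16714680)) (a (l 16695064) (l 16675328))) (b (a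 (a (l 16726800) (l 16713480)) (a (l 16693752) (l 16674648))) (a (a (l 16725872) (l 16712232)) (a (l 16692360) (l 16663520))))) (a (l 16781648) (a (l 16691568) (l 16673480)))) (a (l 16780896) (a (l 16690664) (l 16672504)))) (b (b (b (a (l 16665352) (a (l 16627152) (l 16609768))) (a (a (l 16669464) (l 16664320)) (a (l 16658368) (a (l 16614000) (a (l 16606136) (l 16621952)))))) (a (l 16650960) (a (l 16626448) (l 16608632)))) (a (l 16650000) (a (l 16625496) (l 16607856)))))))), by decide +kernel⟩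

def k7_pm_102 : ∃ t, chk3 f_pm_102 t 1 21 1 = true :=
  ⟨(a (a (l 2) (a (a (l 16748688) (l 16741888)) (a (l 16734176) (b (l 16729752) (l 16718464))))) (a (a (a (l 16730816) (a (l 16697992) (l 16688560))) (a (l 16650104) (l 16667152))) (a (a (l 16636600) (l 16620944)) (a (l 16646784) (a (l 16592560) (a (l 16586552) (l 16624072))))))), by decide +kernel⟩

def k8_pm_102 : ∃ t, chk3 f_pm_102 t 1 11 1 = true :=
  ⟨(a (a (l 2) (a (b (l 16732056) (l 2)) (b (a (l 16716152) (l 16702808)) (l 16777368)))) (a (a (b (a (l 16683960) (l 16683264)) (a (l 16662288) (l 16634784))) (a (b (l 16740264) (l 16665472)) (b (b (l 16663800) (l 16686672)) (a (l 16621112) (l 16570632))))) (a (a (b (c (l 16640640) (l 16596576)) (c (l 16645864) (l 16560216))) (b (l 16582456) (l 16630768))) (a (b (l 16566432) (l 16572928)) (a (l 16588568) (b (l 16546376) (l 16510880))))))), by decide +kernel⟩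

def k9_pm_102 : ∃ t, chk3 f_pm_102 t 1 3 1 = true :=
  ⟨(a (b (a (l 2) (b (a (l 2) (b (l 16682104) (l 2))) (l 2))) (l 2)) (a (b (a (b (b (a (l 16645984) (l 16612320)) (l 16724824)) (a (l 2) (l 16595160))) (b (b (a (l 16636712) (b (l 16610776) (l 16532928))) (a (l 16561280) (l 16523456))) (a (l 16553680) (b (l 16514856) (l 16510536))))) (a (l 2) (b (a (l 2) (l 16511720)) (l 2)))) (b (a (b (a (b (b (l 16535280) (l 16519744)) (l 16504992)) (b (b (l 16522136) (l 16507248)) (l 16490072))) (a (b (l 16489304) (l 16478272)) (b (l 16470704) (l 16454832)))) (a (b (b (l 16541056) (l 16472880)) (b (l 16450880) (l 16431864))) (a (b (l 16614040) (l 16424992)) (b (b (l 16478792) (l 16450704)) (b (l 16426648) (l 16405536)))))) (a (a (b (b (l 16473144) (l 16474480)) (l 2)) (b (l 16443032) (l 16448448))) (b (a (l 16414248) (b (l 16394024) (l 16384896))) (a (l 16412800) (a (l 16387496) (l 16371944)))))))), by decide +kernel⟩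

theorem s10_pm_102 : ∃ t, chk3 f_pm_102 t 1 41 1 = true := ex3_a k5_pm_102 k6_pm_102

theorem s11_pm_102 : ∃ t, chk3 f_pm_102 t 1 20 1 = true := ex3_b k4_pm_102 s10_pm_102

theorem s12_pm_102 : ∃ t, chk3 f_pm_102 t 1 10 1 = true := ex3_b s11_pm_102 k7_pm_102

theorem s13_pm_102 : ∃ t, chk3 f_pm_102 t 1 5 1 = true := ex3_b s12_pm_102 k8_pm_102

theorem s14_pm_102 : ∃ t, chk3 f_pm_102 t 3 9 1 = true := ex3_b k2_pm_102 k3_pm_102

theorem s15_pm_102 : ∃ t, chk3 f_pm_102 t 3 4 1 = true := ex3_b k1_pm_102 s14_pm_102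

theorem s16_pm_102 : ∃ t, chk3 f_pm_102 t 1 4 1 = true := ex3_a k0_pm_102 s15_pm_102

theorem s17_pm_102 : ∃ t, chk3 f_pm_102 t 1 2 1 = true := ex3_b s16_pm_102 s13_pm_102

theorem s18_pm_102 : ∃ t, chk3 f_pm_102 t 1 1 1 = true := ex3_b s17_pm_102 k9_pm_102

theorem c_pm_102 : CertB 536870912 536870912 0 536870912 649613803 48318383 3 eng mog cd1q1 cd1q0 pd2 true true false .npp 1 0 2
    ndB1q1 ndB1q0 pcB2 Cut.none Ext.none :=
  certB1 (fam := true) (s1 := true) (s2 := false) (a := 1) (b := 0) (c := 2) (cn := .npp) (n1 := ndB1q1) (n2 := ndB1q0) (pc := pcB2) (cut := Cut.none) (xt := Ext.none) (P1 := 536870912) (W1 := 536870912) (P2 := 0) (W2 := 536870912) (P3 := 649613803) (W3 := 48318383) (N0 := 3) (En := eng) (mo := mog) (C1 := cd1q1) (C2 := cd1q0) (C3 := pd2)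
    rfl (fun _ => rfl) s18_pm_102

noncomputable def f_pm_112 : ℕ → ℕ → ℕ → ℕ → Bool := onCell 536870912 536870912 1073741824 536870912 649613803 48318383
    (rowB 3 eng mog cd1q1 cd1q1 pd2 1 true true false .dn 1 1 2 (qsf 536870912 536870912 536870912 536870912 2) ndB1q1 ndB1q1 pcB2 Cut.none Ext.none)

def k0_pm_112 : ∃ t, chk3 f_pm_112 t 2 1 1 = true :=
  ⟨(b (b (l 3) (a (b (b (b (l 3) (b (l 3) (b (a (b (l 3) (l 16747848)) (l 3)) (a (b (b (l 16747072) (l 16809480)) (b (b (b (l 16746240) (b (l 16746144) (l 16746080))) (l 16745920)) (l 16745544))) (b (b (l 3) (l 16769368)) (b (b (b (l 16748104) (b (l 16748016) (l 16747960))) (l 16747808)) (l 16747464))))))) (a (a (l 16734688) (l 16738552)) (a (l 16739712) (l 16739152)))) (a (b (l 16719040) (l 16760736)) (b (l 16726080) (l 16712960)))) (a (b (b (b (l 3) (b (l 3) (b (b (l 16785232) (l 16763544)) (b (a (b (l 16744784) (l 16744400)) (l 1)) (b (b (b (l 16741480) (b (l 16741408) (l 36003899383))) (l 16741256))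 (l 16740992)))))) (a (l 16737024) (l 16731448))) (b (l 16722096) (l 16711120))) (b (b (l 1) (a (l 153041736231) (l 1))) (b (a (l 16709992) (l 138546197831)) (l 55331271031)))))) (b (a (b (a (b (a (l 16662344) (l 16681744)) (a (l 16627824) (l 16655808))) (b (l 16699688) (l 16684872))) (a (b (a (l 16588464) (l 16625472)) (a (l 16547240) (l 16590056))) (a (l 16642560) (l 16669776)))) (b (a (b (l 16702864) (l 16697152)) (b (l 16723512) (l 16677088))) (a (l 16691576) (l 16679648)))) (a (b (a (a (b (b (l 16518832) (l 16501904)) (a (l 16472312) (l 16488560))) (b (l 16552928) (b (l 16527648) (l 16512440)))) (a (b (l 16598840) (l 16567584)) (b (l 16640648) (l 16615792)))) (a (a (b (l 16453776) (l 16427952)) (b (b (l 16498448) (l 16486816)) (l 16469072))) (b (a (a (l 16528024) (l 16552912)) (l 16591504)) (a (c (a (l 16520760) (l 16548392)) (l 16500712)) (b (l 16576208) (l 16568864)))))) (a (b (a (l 16667072) (l 16693736)) (a (b (l 16641992) (l 16624112)) (l 16685832)))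 (b (l 16700832) (l 16735504)))))), by decide +kernel⟩

def k1_pm_112 : ∃ t, chk3 f_pm_112 t 3 1 1 = true :=
  ⟨(b (b (l 1) (b (l 1) (a (a (b (l 1) (l 119218820903)) (l 1)) (l 1)))) (a (b (b (a (b (a (l 16650416) (l 16684312)) (a (l 16643112) (l 16611760))) (a (b (l 1) (l 16574584)) (l 1))) (a (a (l 16642736) (l 16609312)) (a (l 16568008) (b (l 16531120) (l 16526960))))) (a (b (a (l 16667384) (l 16629240)) (a (l 16725680) (l 16687424))) (b (a (l 16582864) (l 16535376)) (a (l 16632232) (l 16579856))))) (b (a (b (l 1) (a (b (l 1) (l 16538728)) (l 1))) (l 1)) (a (a (a (b (l 13991782951) (l 16541296)) (b (l 16485872) (a (l 16521592) (l 16509544)))) (b (b (l 16466024) (l 16464296)) (l 16480704))) (b (a (l 66605045111) (l 1)) (a (l 16440056) (b (l 16408496) (l 16409456)))))))), by decide +kernel⟩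

theorem s2_pm_112 : ∃ t, chk3 f_pm_112 t 1 1 1 = true := ex3_a k0_pm_112 k1_pm_112

theorem c_pm_112 : CertB 536870912 536870912 536870912 536870912 649613803 48318383 3 eng mog cd1q1 cd1q1 pd2 true true false .dn 1 1 2
    ndB1q1 ndB1q1 pcB2 Cut.none Ext.none :=
  certB1 (fam := true) (s1 := true) (s2 := false) (a := 1) (b := 1) (c := 2) (cn := .dn) (n1 := ndB1q1) (n2 := ndB1q1) (pc := pcB2) (cut := Cut.none) (xt := Ext.none) (P1 := 536870912) (W1 := 536870912) (P2 := 536870912) (W2 := 536870912) (P3 := 649613803) (W3 := 48318383) (N0 := 3) (En := eng) (mo := mog) (C1 := cd1q1) (C2 := cd1q1) (C3 := pd2)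
    rfl (fun _ => rfl) s2_pm_112

noncomputable def f_pm_113 : ℕ → ℕ → ℕ → ℕ → Bool := onCell 536870912 536870912 536870912 536870912 649613803 48318383
    (rowB 3 eng mog cd1q1 cd1q1 pd3 0 true true false .nn 1 1 3 (qsf 536870912 536870912 536870912 536870912 3) ndB1q1 ndB1q1 pcB3 Cut.none Ext.none)

def k0_pm_113 : ∃ t, chk3 f_pm_113 t 2 1 1 = true :=
  ⟨(b (b (l 1) (a (l 1) (a (l 1) (l 105797158567)))) (a (b (b (l 1) (a (l 1) (a (l 1) (l 16618536)))) (b (b (a (l 1) (a (l 115997391399) (l 16594128))) (a (l 87006318871) (l 62310311095))) (a (b (l 51035869047) (a (l 16452328) (l 16478456))) (b (l 16554768) (a (l 16520992) (l 16581096)))))) (b (b (a (l 16687080) (l 16761280)) (a (b (l 16683752) (l 16681448)) (l 16819560))) (b (a (b (l 16683376) (l 16691152)) (b (l 16835416) (a (l 16769488) (l 16831128)))) (b (a (a (l 16657152) (b (l 16727840) (l 16715472))) (a (l 16768464) (l 16811800))) (a (b (a (l 16656728) (l 16704632)) (a (a (l 16635328) (l 16657944))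 (a (l 16684568) (l 16716584)))) (b (l 16659192) (c (l 16766128) (l 16746008))))))))), by decide +kernel⟩

def k1_pm_113 : ∃ t, chk3 f_pm_113 t 3 1 1 = true :=
  ⟨(b (a (b (a (l 1) (b (l 1) (b (l 1) (l 16618536)))) (a (b (l 16687080) (l 16761280)) (b (a (l 16683752) (l 16681448)) (l 16819560)))) (b (a (a (b (l 1) (b (l 115997391399) (l 16594128))) (b (l 87006318871) (l 62310311095))) (b (a (l 51035869047) (b (l 16452328) (l 16478456))) (a (l 16554768) (a (l 16548952) (l 16546608))))) (a (b (a (l 16683376) (l 16691152)) (a (l 16835416) (b (l 16769488) (l 16831128)))) (a (b (b (l 16657152) (a (l 16727840) (l 16715472))) (b (l 16768464) (l 16811800))) (b (a (b (l 16656728) (l 16704632)) (b (b (l 16635328) (l 16657944)) (b (l 16683528) (l 16716608)))) (a (l 16659192) (c (l 16766128) (l 16746008)))))))) (a (b (a (b (l 16873072) (l 16963800)) (b (l 16963800) (l 17046664))) (b (a (b (l 16904000) (a (l 16862696) (l 16886608))) (l 16946656)) (a (b (a (l 16845592) (l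 16720536)) (a (b (l 16841528) (l 16780200)) (c (l 16848640) (l 16809664)))) (a (b (l 16892104) (l 16876216)) (b (l 16907936) (l 16884512)))))) (b (a (b (a (l 16904000) (b (l 16862696) (l 16886608))) (l 16946656)) (b (a (b (l 16845592) (l 16720536)) (b (a (l 16841528) (l 16780200)) (c (l 16848640) (l 16809664)))) (a (b (l 16892104) (l 16907936)) (b (l 16876216) (l 16884512))))) (a (b (l 16968992) (b (l 16907800) (a (l 16882104) (l 16869024)))) (b (a (l 16907800) (a (l 16885016) (l 16868672))) (a (b (l 16880816) (b (l 16854624) (l 16837544))) (a (b (l 16854624) (l 17051632)) (b (l 16837544) (b (l 16811672) (b (l 16798944) (a (l 16793976) (b (l 16788040) (a (l 16785488) (b (l 16782600) (a (l 16781320) (a (l 16779904) (b (l 16779264) (a (l 16778560) (b (l 16778240) (l 16945544)))))))))))))))))))), by decide +kernel⟩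

theorem s2_pm_113 : ∃ t, chk3 f_pm_113 t 1 1 1 = true := ex3_a k0_pm_113 k1_pm_113

theorem c_pm_113 : CertB 536870912 536870912 536870912 536870912 649613803 48318383 3 eng mog cd1q1 cd1q1 pd3 true true false .nn 1 1 3
    ndB1q1 ndB1q1 pcB3 Cut.none Ext.none :=
  certB0 (fam := true) (s1 := true) (s2 := false) (a := 1) (b := 1) (c := 3) (cn := .nn) (n1 := ndB1q1) (n2 := ndB1q1) (pc := pcB3) (cut := Cut.none) (xt := Ext.none) (P1 := 536870912) (W1 := 536870912) (P2 := 536870912) (W2 := 536870912) (P3 := 649613803) (W3 := 48318383) (N0 := 3) (En := eng) (mo := mog) (C1 := cd1q1) (C2 := cd1q1) (C3 := pd3)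
    rfl s2_pm_113

noncomputable def f_pm_123_a : ℕ → ℕ → ℕ → ℕ → Bool := onCell 1610612736 536870912 0 536870912 649613803 48318383
    (rowB 3 eng mog cd1q1 cd1q2a pd3 2 true true false .npn 1 2 3 (qsf 536870912 536870912 0 536870912 3) ndB1q1 ndB1q2a pcB3 Cut.none Ext.none)

def k0_pm_123_a : ∃ t, chk3 f_pm_123_a t 2 1 1 = true :=
  ⟨(a (b (a (l 1) (a (l 1) (b (l 1) (l 93985937943)))) (a (b (l 1) (b (b (l 16535256) (l 16520880)) (b (l 16508880) (a (l 16485816) (l 16518616))))) (b (a (b (l 1) (l 16602872)) (b (l 16659864) (l 16634016))) (a (b (b (l 16583560) (l 16574576)) (b (l 16569168) (l 16569480))) (b (b (l 16622896) (l 16620576)) (b (l 16623104) (c (l 16660464) (l 16604152)))))))) (a (b (a (b (l 16770424) (b (l 16728288) (l 16711896))) (b (l 16766320) (l 16747528))) (a (b (a (b (l 16683224) (l 16664808)) (b (l 16701680) (l 16690104))) (a (b (l 16664200) (b (l 16675456) (l 16691384))) (b (a (l 16692432) (b (l 16702208) (l 16712856))) (a (c (l 16716800)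 (l 16690976)) (b (l 16713616) (c (l 16728720) (l 16705856))))))) (b (a (b (l 16719896) (l 16703648)) (b (l 16743096) (l 16723840))) (a (b (b (b (l 16700824) (l 16698200)) (c (l 16717008) (l 16682232))) (a (b (l 16708272) (l 16696464)) (b (l 16704072) (l 16697480)))) (a (b (l 16681016) (l 16678640)) (b (l 16714200) (l 16712736))))))) (b (b (a (l 16782424) (a (l 16791848) (l 16795944))) (b (l 16791864) (l 16794576))) (b (b (l 16783072) (b (l 16771392) (l 16763960))) (b (b (l 16677064) (a (l 16742568) (l 16759648))) (a (b (l 16733488) (c (l 16782048) (l 16741640))) (b (l 16771824) (b (l 16806480) (l 16795264))))))))), by decide +kernel⟩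

def k1_pm_123_a : ∃ t, chk3 f_pm_123_a t 6 1 1 = true :=
  ⟨(b (a (b (b (a (a (l 16771584) (l 108145803991)) (l 4)) (a (l 16803264) (l 59827680455))) (b (a (l 16811216) (l 16807112)) (a (l 16808920) (l 16815176)))) (b (a (a (l 194045254983) (l 208540745607)) (l 4)) (a (b (l 16776568) (l 16819504)) (b (a (l 16759896) (l 154853692807)) (a (l 16795352) (l 16779456)))))) (a (b (b (b (l 16807976) (l 16803192)) (a (l 16797000) (l 16807240))) (b (a (b (l 16801072) (l 16808912)) (l 16737560)) (a (b (c (l 16819512) (l 16801744)) (c (l 16834432) (l 16823968))) (b (l 16796512) (l 16749184))))) (b (a (b (l 16811184) (l 16811040)) (b (a (l 16809680) (l 16808184)) (l 16806840))) (b (a (b (l 16820528) (l 16750096)) (a (l 16719744) (l 16822272))) (a (b (c (l 16841352) (l 16862312)) (l 16868760)) (b (l 16854144) (l 16872624))))))), by decide +kernel⟩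

def k2_pm_123_a : ∃ t, chk3 f_pm_123_a t 7 1 1 = true :=
  ⟨(b (a (b (l 4) (b (l 4) (a (a (l 16786648) (l 137137013351)) (a (l 247195443543) (l 4))))) (l 4)) (b (b (a (a (a (l 16806464) (b (l 16792984) (l 16798688))) (a (b (l 16776680) (l 16799328)) (b (l 178476070631) (l 16783304)))) (a (a (b (l 4) (l 290682116151)) (l 4)) (l 4))) (a (a (b (l 16797016) (l 16802248)) (a (b (l 16798856) (l 16801144)) (b (l 16797512) (l 16800248)))) (a (a (b (a (l 16792288) (l 16781800)) (a (l 16797000) (l 16792528))) (a (b (l 16770488) (l 16788192)) (b (l 4) (l 311620115559)))) (l 4)))) (b (b (a (a (l 16814256) (l 16809176)) (a (a (a (l 16803512) (l 16800888)) (a (l 16796896) (l 16813176))) (a (a (l 276723539831) (l 343832339831)) (l 4)))) (a (a (l 16828584) (a (l 16823192) (l 16818256))) (a (a (l 16811416) (a (l 16804312) (l 16858616))) (a (a (b (l 16790184) (l 16792944)) (l 175791828823)) (a (l 389466382535) (l 4)))))) (b (a (a (l 16846112) (l 16832904)) (a (a (l 16819664)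 (l 16810416)) (a (a (b (l 16796624) (l 16798312)) (l 16874312)) (a (a (l 16842624) (l 16773696)) (a (l 563412518311) (l 4)))))) (a (a (l 16862608) (l 16888016)) (a (a (l 16829776) (l 16957816)) (a (l 16797352) (a (a (l 16808104) (l 16864752)) (a (c (l 266522998615) (l 204782840295)) (a (l 16767536) (l 4))))))))))), by decide +kernel⟩

theorem s3_pm_123_a : ∃ t, chk3 f_pm_123_a t 3 1 1 = true := ex3_a k1_pm_123_a k2_pm_123_a

theorem s4_pm_123_a : ∃ t, chk3 f_pm_123_a t 1 1 1 = true := ex3_a k0_pm_123_a s3_pm_123_a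

theorem c_pm_123_a : CertB 536870912 536870912 0 536870912 649613803 48318383 3 eng mog cd1q1 cd1q2a pd3 true true false .npn 1 2 3
    ndB1q1 ndB1q2a pcB3 Cut.none Ext.none :=
  certB2 (fam := true) (s1 := true) (s2 := false) (a := 1) (b := 2) (c := 3) (cn := .npn) (n1 := ndB1q1) (n2 := ndB1q2a) (pc := pcB3) (cut := Cut.none) (xt := Ext.none) (P1 := 536870912) (W1 := 536870912) (P2 := 0) (W2 := 536870912) (P3 := 649613803) (W3 := 48318383) (N0 := 3) (En := eng) (mo := mog) (C1 := cd1q1) (C2 := cd1q2a) (C3 := pd3)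
    rfl (fun _ => rfl) s4_pm_123_a

noncomputable def f_pm_123_b : ℕ → ℕ → ℕ → ℕ → Bool := onCell 1610612736 536870912 1239849684 370763052 649613803 48318383
    (rowB 3 eng mog cd1q1 cd1q2b pd3 2 true true false .npn 1 2 3 (qsf 536870912 536870912 1239849684 370763052 3) ndB1q1 ndB1q2b pcB3 Cut.none Ext.none)

def k0_pm_123_b : ∃ t, chk3 f_pm_123_b t 1 1 1 = true :=
  ⟨(a (a (l 1) (b (a (b (a (l 16734528) (l 16740432)) (l 1)) (b (a (l 16745400) (b (l 16777128) (l 4))) (l 85597415591))) (l 1))) (a (b (l 4) (l 4)) (l 4))), by decide +kernel⟩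

theorem c_pm_123_b : CertB 536870912 536870912 1239849684 370763052 649613803 48318383 3 eng mog cd1q1 cd1q2b pd3 true true false .npn 1 2 3
    ndB1q1 ndB1q2b pcB3 Cut.none Ext.none :=
  certB2 (fam := true) (s1 := true) (s2 := false) (a := 1) (b := 2) (c := 3) (cn := .npn) (n1 := ndB1q1) (n2 := ndB1q2b) (pc := pcB3) (cut := Cut.none) (xt := Ext.none) (P1 := 536870912) (W1 := 536870912) (P2 := 1239849684) (W2 := 370763052) (P3 := 649613803) (W3 := 48318383) (N0 := 3) (En := eng) (mo := mog) (C1 := cd1q1) (C2 := cd1q2b) (C3 := pd3)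
    rfl (fun _ => rfl) k0_pm_123_b

noncomputable def f_pm_133 : ℕ → ℕ → ℕ → ℕ → Bool := onCell 536870912 536870912 1610612736 536870912 649613803 48318383
    (rowB 3 eng mog cd1q1 cd1q3 pd3 0 true true false .dn 1 3 3 (qsf 536870912 536870912 1610612736 536870912 3) ndB1q1 ndB1q3 pcB3 Cut.none Ext.none)

def k0_pm_133 : ∃ t, chk3 f_pm_133 t 1 1 1 = true :=
  ⟨(l 4), by decide +kernel⟩

theorem c_pm_133 : CertB 536870912 536870912 1610612736 536870912 649613803 48318383 3 eng mog cd1q1 cd1q3 pd3 true true false .dn 1 3 3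
    ndB1q1 ndB1q3 pcB3 Cut.none Ext.none :=
  certB0 (fam := true) (s1 := true) (s2 := false) (a := 1) (b := 3) (c := 3) (cn := .dn) (n1 := ndB1q1) (n2 := ndB1q3) (pc := pcB3) (cut := Cut.none) (xt := Ext.none) (P1 := 536870912) (W1 := 536870912) (P2 := 1610612736) (W2 := 536870912) (P3 := 649613803) (W3 := 48318383) (N0 := 3) (En := eng) (mo := mog) (C1 := cd1q1) (C2 := cd1q3) (C3 := pd3)
    rfl k0_pm_133

noncomputable def cut_pm_202_a : Cut := Cut.of [[⟨0, 1, 0, 67108864⟩, ⟨1, 0, 0, 67108864⟩, ⟨2, 1, 0, 67108864⟩]]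

noncomputable def f_pm_202_a : ℕ → ℕ → ℕ → ℕ → Bool := onCell 0 536870912 1073741824 536870912 649613803 48318383
    (rowB 3 eng mog cd1q2a cd1q0 pd2 1 true true false .pp 2 0 2 (qsf 0 536870912 0 536870912 2) ndB1q2a ndB1q0 pcB2 cut_pm_202_a Ext.none)

def k0_pm_202_a : ∃ t, chk3 f_pm_202_a t 4 2 1 = true :=
  ⟨(b (l 1) (b (b (b (l 1) (a (b (l 1) (c (a (l 16441736) (l 16446488)) (l 16448392))) (a (b (l 1) (c (l 16453776) (l 16458968))) (c (b (l 16466304) (l 16484232)) (l 16463440))))) (b (a (c (a (b (l 16439600) (a (l 16437680) (l 16438512))) (b (l 16444104) (l 16442328))) (b (l 16444592) (a (l 16459776) (l 16443648)))) (c (b (a (l 16451288) (c (l 16460432) (l 16461240))) (a (b (l 16449696) (l 16449112)) (b (l 16458976) (l 16479272)))) (a (b (l 16454928) (l 16451528)) (b (l 16465200) (l 16482664))))) (a (c (a (a (l 16444488) (l 16444600)) (l 16447592)) (a (l 16445040) (l 16448672))) (c (a (l 16453840) (l 16472728)) (a (l 16455744) (l 16465104)))))) (b (b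 (c (a (a (l 16454216) (l 16455776)) (c (a (l 16461056) (l 16467888)) (l 16464536))) (a (a (l 16455160) (l 16457216)) (l 16530056))) (a (a (l 16461880) (l 16483416)) (a (l 16466416) (l 16471552)))) (a (c (l 16563480) (l 16487040)) (a (l 16468928) (b (l 16471624) (c (l 16475296) (l 16469040)))))))), by decide +kernel⟩

def k1_pm_202_a : ∃ t, chk3 f_pm_202_a t 5 4 1 = true :=
  ⟨(b (l 1) (b (l 1) (a (l 1) (b (l 1) (a (l 1) (b (l 1) (a (l 16499768) (c (l 16515824) (l 16504088))))))))), by decide +kernel⟩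

def k2_pm_202_a : ∃ t, chk3 f_pm_202_a t 5 5 1 = true :=
  ⟨(b (a (b (b (b (l 1) (a (c (l 16472144) (l 16461584)) (c (c (l 16485368) (l 16481232)) (l 16472528)))) (b (a (a (l 16428264) (c (l 16478320) (l 16448144))) (c (l 16486864) (l 16477528))) (a (a (l 16495360) (l 16520656)) (c (l 16487312) (l 16482128))))) (b (c (b (a (c (l 16471536) (l 16472912)) (c (l 16483752) (l 16485392))) (a (b (l 16470256) (b (l 16469448) (l 16469520))) (b (l 16482456) (b (l 16481568) (l 16481544))))) (a (b (l 16477160) (l 16516072)) (a (l 16558832) (l 16553600)))) (c (a (c (l 16472584) (b (l 16471728) (l 16474328))) (c (l 16483736) (l 16484552))) (a (l 16476720) (l 16487704))))) (c (b (b (a (b (l 16494616) (c (l 16499488) (l 16495520))) (a (c (l 16511048) (l 16465144)) (l 16518688))) (a (a (l 16497736) (l 16505016)) (l 16514688))) (b (a (b (l 16497248) (b (l 16495120) (b (l 16494136) (l 16494000)))) (b (l 16509344) (b (l 16506960) (l 16505720)))) (a (c (l 16495504) (l 16496328))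 (l 16485744)))) (b (b (a (b (l 16503600) (l 16508104)) (b (l 16502232) (a (l 16500576) (l 16510464)))) (a (b (a (l 16487288) (l 16495168)) (l 16495072)) (b (l 16508616) (l 16511296)))) (a (b (a (l 16559416) (l 16524168)) (l 16498416)) (b (a (l 16509520) (l 16514840)) (l 16510480)))))) (a (b (b (a (c (l 16517496) (l 16476040)) (l 16547280)) (a (c (l 16479024) (l 16474008)) (c (l 16486984) (l 16481192)))) (a (c (b (l 16479416) (l 16439096)) (b (l 16473248) (l 16473576))) (b (c (l 16486784) (l 16479808)) (l 16484336)))) (b (b (a (a (l 16494112) (l 16499400)) (l 16507936)) (a (c (l 16496072) (l 16490096)) (l 16503552))) (a (b (c (l 16494952) (l 16487728)) (l 16501896)) (b (c (l 16502880) (l 16496408)) (a (l 16496800) (l 16500840))))))), by decide +kernel⟩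

def k3_pm_202_a : ∃ t, chk3 f_pm_202_a t 2 3 1 = true :=
  ⟨(b (a (b (a (b (b (l 16473304) (l 16478576)) (l 16493072)) (b (a (b (l 16472720) (l 16477616)) (b (l 16475320) (l 16480512))) (a (l 16491120) (l 16493360)))) (b (a (b (l 16508664) (l 16519304)) (a (b (l 16505456) (l 16515240)) (b (l 16506688) (l 16515792)))) (a (b (l 16530344) (l 16541440)) (a (l 16530400) (l 16550856))))) (b (a (b (a (b (l 16480200) (l 16485944)) (b (l 16486456) (l 16492368))) (a (l 16497928) (l 16502880))) (b (a (b (l 16493864) (l 16499152)) (b (l 16501368) (l 16504928))) (a (l 16507656) (l 16510680)))) (a (b (b (l 16533160) (a (l 16518584) (l 16521024))) (a (l 16531472) (l 16532480))) (b (a (b (l 16516456) (l 16522496)) (b (l 16516752) (l 16521032))) (a (l 16553216) (l 16549576)))))) (a (b (b (a (b (l 16552664) (l 16564640)) (b (l 16545320) (l 16556072))) (a (l 16624536) (a (l 16573616) (l 16570512)))) (b (a (l 16626624) (a (l 16594952) (l 16590504))) (a (b (l 16622200) (l 16632840))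 (a (l 16615224) (l 16609496))))) (b (a (b (a (l 16550016) (l 16549368)) (a (l 16569328) (l 16566624))) (b (a (l 16546856) (l 16540000)) (a (l 16561568) (l 16551320)))) (a (b (a (l 16587912) (l 16583152)) (a (l 16605384) (l 16703696))) (b (a (l 16575720) (l 16562152)) (a (l 16588752) (l 16571760))))))), by decide +kernel⟩

def k4_pm_202_a : ∃ t, chk3 f_pm_202_a t 3 8 1 = true :=
  ⟨(a (l 1) (a (b (l 1) (b (a (l 1) (l 6)) (b (a (l 1) (l 6)) (a (a (l 1) (a (l 16633632) (l 16641272))) (b (l 6) (a (l 16651392) (l 16655136))))))) (b (l 6) (b (l 6) (b (l 6) (a (a (l 16680896) (l 16693776)) (a (l 16698872) (a (l 16702072) (l 16703880))))))))), by decide +kernel⟩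

def k5_pm_202_a : ∃ t, chk3 f_pm_202_a t 3 9 1 = true :=
  ⟨(a (a (b (l 1) (a (a (b (l 1) (c (b (l 16524128) (l 16526128)) (l 115997185495))) (b (l 16525872) (b (l 16529472) (l 16447600)))) (c (b (a (l 16543824) (l 16555872)) (b (l 16488152) (l 16551408))) (b (a (l 16531848) (l 110091637079)) (a (l 16536160) (l 16547864)))))) (b (a (b (l 1) (b (a (l 1) (l 16575984)) (a (l 16562336) (l 16576160)))) (b (b (l 1) (a (l 16590912) (l 16604888))) (a (b (l 16590536) (l 16589912)) (b (l 16603808) (l 16560536))))) (b (a (a (b (l 16563056) (l 16500584)) (b (l 16513184) (l 16554800))) (a (c (l 16591704) (l 16542672)) (l 16600048))) (a (b (l 16480392) (l 16569000)) (l 16590928))))) (a (b (a (b (a (b (l 16620496) (l 16618880)) (b (l 16645752) (c (l 16635752) (l 16629528)))) (a (c (l 16619016) (l 16612512)) (b (l 16630312) (l 16627504)))) (b (a (b (c (l 16651752) (l 16646152)) (l 16646048)) (b (l 16662832) (l 16658984))) (a (l 16641016) (l 16651568)))) (b (a (a (l 16611504)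 (l 16622432)) (c (l 16630992) (l 16633448))) (a (l 16646160) (c (l 16605424) (l 16617144))))) (a (a (b (b (l 16705576) (l 16656952)) (b (l 16640080) (l 16645072))) (b (b (l 16701056) (c (l 16662136) (l 16662888))) (b (l 16666320) (l 16629192)))) (b (a (b (c (l 16706032) (l 16685496)) (c (l 16667648) (l 16667296))) (b (a (l 16688336) (l 16711112)) (b (l 16675752) (l 16666984)))) (b (a (l 16650208) (l 16675104)) (a (l 16633888) (b (l 16641648) (l 16633408)))))))), by decide +kernel⟩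

def k6_pm_202_a : ∃ t, chk3 f_pm_202_a t 6 5 1 = true :=
  ⟨(b (b (b (a (a (a (b (c (l 16527704) (l 16518136)) (l 16525392)) (l 16470976)) (c (l 16550344) (l 16523528))) (a (l 16565872) (l 16577728))) (a (b (a (l 16594224) (l 16544584)) (a (b (l 16528128) (b (l 16526352) (a (l 16522192) (l 16528128)))) (b (l 16540584) (b (l 16538712) (l 16537576))))) (b (a (l 16556784) (l 16568224)) (b (a (l 16552600) (l 16563872)) (a (b (l 16550704) (l 16549632)) (b (l 16561952) (l 16560952))))))) (a (a (b (c (b (l 16521072) (b (l 16518336) (l 16516864))) (l 16564592)) (c (l 16496168) (l 16519792))) (b (c (l 16531456) (l 16533672)) (l 16527728))) (b (a (l 16554024) (c (l 16554880) (l 16554736))) (a (l 16537800) (l 16547128))))) (a (b (a (a (l 16513640) (l 16518752)) (l 16587280)) (a (b (l 16508840) (l 16507352)) (l 16558280))) (b (a (l 16532072) (l 16549480)) (a (l 16523328) (l 16527640))))), by decide +kernel⟩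

def k7_pm_202_a : ∃ t, chk3 f_pm_202_a t 7 5 1 = true :=
  ⟨(b (b (b (a (a (c (l 16589544) (l 16591152)) (c (l 16601896) (l 16601896))) (a (c (l 16654704) (l 16632048)) (a (b (l 16622120) (l 16614064)) (b (l 16624648) (l 16615536))))) (b (a (a (l 16580128) (l 16591376)) (a (a (l 16598632) (l 16602968)) (a (l 16605792) (l 16606856)))) (a (b (a (l 16575624) (l 16586728)) (b (a (l 16573688) (l 16584776)) (a (l 16572760) (l 16604888)))) (a (b (l 16616744) (b (l 16614544) (a (l 16611760) (l 16615040)))) (b (a (l 16599896) (l 16600888)) (b (a (l 16597464) (l 16598440)) (b (b (b (l 16597464) (a (l 16597128) (c (l 16601440) (l 16594984)))) (l 16597472)) (l 16596648)))))))) (a (a (b (l 16586680) (l 16577840)) (b (c (l 16598512) (l 16617168)) (l 16565216))) (b (a (a (l 16581928) (l 16584872)) (a (l 16587016) (b (l 16592064) (l 16583624)))) (a (l 16570624) (a (l 16572960) (l 16573024)))))) (a (a (b (l 16535520) (l 16531512)) (b (l 16551456) (l 16533672))) (a (b (a (l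 16553568) (l 16554424)) (l 16554056)) (b (a (l 16554504) (b (l 16559744) (l 16546824))) (a (l 16530968) (l 16569984)))))), by decide +kernel⟩

def k8_pm_202_a : ∃ t, chk3 f_pm_202_a t 3 3 1 = true :=
  ⟨(b (a (b (b (a (a (l 16508904) (l 16512728)) (l 16537360)) (a (a (l 16511936) (l 16510392)) (l 16527488))) (a (b (a (b (l 16514664) (l 16516864)) (l 16529944)) (a (l 16542704) (l 16510128))) (b (a (l 16499128) (l 16495680)) (l 16530736)))) (b (a (a (b (l 16517360) (l 16504032)) (b (l 16516608) (l 16501144))) (a (b (l 16534184) (l 16495488)) (b (a (l 16508992) (l 16504672)) (l 16544568)))) (a (a (b (l 16492800) (l 16481488)) (b (l 16487864) (l 16474904))) (a (b (l 16479992) (l 16465432)) (b (b (l 16473552) (l 16465296)) (b (l 16457152) (l 16448952))))))) (a (b (b (a (a (l 16528960) (l 16512160)) (l 16499704)) (a (l 16505480) (l 16574728))) (a (b (l 16509560) (l 16617680)) (b (l 16605168) (l 16563104)))) (b (a (b (a (l 16470328) (l 16462632)) (l 16454648)) (a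 (b (l 16451536) (l 16438184)) (b (l 16437424) (l 16423824)))) (a (b (l 16439080) (l 16419952)) (a (l 16541384) (b (l 16410280) (l 16397752))))))), by decide +kernel⟩

theorem s9_pm_202_a : ∃ t, chk3 f_pm_202_a t 3 5 1 = true := ex3_a k6_pm_202_a k7_pm_202_a

theorem s10_pm_202_a : ∃ t, chk3 f_pm_202_a t 3 4 1 = true := ex3_b k4_pm_202_a k5_pm_202_a

theorem s11_pm_202_a : ∃ t, chk3 f_pm_202_a t 3 2 1 = true := ex3_b s10_pm_202_a s9_pm_202_a

theorem s12_pm_202_a : ∃ t, chk3 f_pm_202_a t 3 1 1 = true := ex3_b s11_pm_202_a k8_pm_202_a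

theorem s13_pm_202_a : ∃ t, chk3 f_pm_202_a t 5 2 1 = true := ex3_b k1_pm_202_a k2_pm_202_a

theorem s14_pm_202_a : ∃ t, chk3 f_pm_202_a t 2 2 1 = true := ex3_a k0_pm_202_a s13_pm_202_a

theorem s15_pm_202_a : ∃ t, chk3 f_pm_202_a t 2 1 1 = true := ex3_b s14_pm_202_a k3_pm_202_a

theorem s16_pm_202_a : ∃ t, chk3 f_pm_202_a t 1 1 1 = true := ex3_a s15_pm_202_a s12_pm_202_a

theorem c_pm_202_a : CertB 0 536870912 0 536870912 649613803 48318383 3 eng mog cd1q2a cd1q0 pd2 true true false .pp 2 0 2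
    ndB1q2a ndB1q0 pcB2 cut_pm_202_a Ext.none :=
  certB1 (fam := true) (s1 := true) (s2 := false) (a := 2) (b := 0) (c := 2) (cn := .pp) (n1 := ndB1q2a) (n2 := ndB1q0) (pc := pcB2) (cut := cut_pm_202_a) (xt := Ext.none) (P1 := 0) (W1 := 536870912) (P2 := 0) (W2 := 536870912) (P3 := 649613803) (W3 := 48318383) (N0 := 3) (En := eng) (mo := mog) (C1 := cd1q2a) (C2 := cd1q0) (C3 := pd2)
    rfl (fun _ => rfl) s16_pm_202_a

noncomputable def cut_pm_202_b : Cut := Cut.of [[⟨0, 1, 0, 67108864⟩, ⟨1, 0, 0, 67108864⟩, ⟨2, 1, 0, 67108864⟩]]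

noncomputable def f_pm_202_b : ℕ → ℕ → ℕ → ℕ → Bool := onCell 1239849684 370763052 1073741824 536870912 649613803 48318383
    (rowB 3 eng mog cd1q2b cd1q0 pd2 1 true true false .pp 2 0 2 (qsf 1239849684 370763052 0 536870912 2) ndB1q2b ndB1q0 pcB2 cut_pm_202_b Ext.none)

def k0_pm_202_b : ∃ t, chk3 f_pm_202_b t 1 1 1 = true :=
  ⟨(b (a (b (l 1) (b (a (a (b (b (l 1) (a (b (l 1) (c (l 16375736) (l 16422048))) (l 1))) (b (a (b (c (a (l 16427544) (l 1)) (l 16397936)) (a (b (l 16426512) (l 16426160)) (b (l 16341064) (l 16424640)))) (l 1)) (a (c (a (l 16433536) (l 16410528)) (l 16402336)) (c (l 16343544) (l 16377960))))) (l 1)) (l 1)) (a (b (b (a (a (c (l 16405664) (l 16433600)) (l 16385336)) (l 16306520)) (a (l 16479560) (l 16330864))) (a (a (l 16445856) (l 16396208)) (b (l 16336160) (l 16322136)))) (b (l 1) (a (b (l 1) (l 16214680)) (l 1)))))) (l 1)) (a (b (b (a (a (b (a (l 16455680) (l 16408616)) (a (l 16473144) (l 16425688))) (b (l 16335128) (l 16355704)))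 (b (a (b (l 16225760) (l 16238064)) (l 1)) (a (l 16258328) (l 16155904)))) (a (b (a (b (l 16467264) (l 16501576)) (b (l 16372984) (l 16386752))) (a (b (l 16494392) (l 16508184)) (l 16453560))) (b (b (l 16231648) (l 16248416)) (a (l 16319888) (l 16229864))))) (b (a (a (b (a (l 16568608) (l 16509328)) (a (l 16574184) (l 16538960))) (b (l 16447104) (l 16482256))) (b (a (l 16357576) (l 16270024)) (a (l 16399336) (l 16312760)))) (a (a (b (l 16648104) (a (l 16625296) (l 16597952))) (b (l 16516976) (l 16551264))) (b (l 16401480) (l 16508432))))) (b (a (b (l 1) (b (b (l 16028640) (l 16051104)) (a (l 16135960) (l 16039008)))) (l 1)) (b (a (b (l 16139136) (l 16189864)) (b (l 1) (l 16019592))) (a (b (l 16239960) (l 16291024)) (b (l 16082400) (l 16142896))))))), by decide +kernel⟩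

theorem c_pm_202_b : CertB 1239849684 370763052 0 536870912 649613803 48318383 3 eng mog cd1q2b cd1q0 pd2 true true false .pp 2 0 2
    ndB1q2b ndB1q0 pcB2 cut_pm_202_b Ext.none :=
  certB1 (fam := true) (s1 := true) (s2 := false) (a := 2) (b := 0) (c := 2) (cn := .pp) (n1 := ndB1q2b) (n2 := ndB1q0) (pc := pcB2) (cut := cut_pm_202_b) (xt := Ext.none) (P1 := 1239849684) (W1 := 370763052) (P2 := 0) (W2 := 536870912) (P3 := 649613803) (W3 := 48318383) (N0 := 3) (En := eng) (mo := mog) (C1 := cd1q2b) (C2 := cd1q0) (C3 := pd2)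
    rfl (fun _ => rfl) k0_pm_202_b

noncomputable def f_pm_203_a : ℕ → ℕ → ℕ → ℕ → Bool := onCell 0 536870912 1610612736 536870912 649613803 48318383
    (rowB 3 eng mog cd1q2a cd1q0 pd3 1 true true false .up 2 0 3 (qsf 0 536870912 0 536870912 3) ndB1q2a ndB1q0 pcB3 Cut.none Ext.none)

def k0_pm_203_a : ∃ t, chk3 f_pm_203_a t 1 1 1 = true :=
  ⟨(b (a (b (b (a (a (b (l 16637448) (l 16636264)) (l 16701856)) (a (b (l 16598312) (l 16599560)) (b (l 16554848) (l 16585624)))) (a (a (b (l 16671440) (l 16699048)) (l 16665528)) (a (l 16649464) (b (l 16616912) (l 16645344))))) (b (a (a (l 16815160) (b (l 16702912) (l 2))) (a (l 16701296) (b (l 16672112) (l 2)))) (l 2))) (a (b (b (a (l 16547224) (l 16663840)) (a (b (l 16593912) (l 16621080)) (b (l 16565560) (l 16592832)))) (l 2)) (b (b (a (l 16596936) (a (l 16475208) (l 16464760))) (b (a (l 16539976) (l 2)) (l 2))) (l 2)))) (l 2)), by decide +kernel⟩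

theorem c_pm_203_a : CertB 0 536870912 0 536870912 649613803 48318383 3 eng mog cd1q2a cd1q0 pd3 true true false .up 2 0 3
    ndB1q2a ndB1q0 pcB3 Cut.none Ext.none :=
  certB1 (fam := true) (s1 := true) (s2 := false) (a := 2) (b := 0) (c := 3) (cn := .up) (n1 := ndB1q2a) (n2 := ndB1q0) (pc := pcB3) (cut := Cut.none) (xt := Ext.none) (P1 := 0) (W1 := 536870912) (P2 := 0) (W2 := 536870912) (P3 := 649613803) (W3 := 48318383) (N0 := 3) (En := eng) (mo := mog) (C1 := cd1q2a) (C2 := cd1q0) (C3 := pd3)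
    rfl (fun _ => rfl) k0_pm_203_a

noncomputable def f_pm_203_b : ℕ → ℕ → ℕ → ℕ → Bool := onCell 1239849684 370763052 1610612736 536870912 649613803 48318383
    (rowB 3 eng mog cd1q2b cd1q0 pd3 1 true true false .up 2 0 3 (qsf 1239849684 370763052 0 536870912 3) ndB1q2b ndB1q0 pcB3 Cut.none Ext.none)

def k0_pm_203_b : ∃ t, chk3 f_pm_203_b t 1 1 1 = true :=
  ⟨(b (b (a (b (a (b (a (l 16653304) (l 16580888)) (a (l 16641984) (l 16604432))) (b (l 16483096) (l 16516528))) (a (a (b (l 16643536) (l 16675888)) (l 16633656)) (l 16693168))) (b (a (l 16459616) (l 16201272)) (a (l 16439408) (l 16292448)))) (a (b (a (a (b (l 16701160) (l 16720416)) (l 16673528)) (l 16674808)) (a (b (l 16761536) (l 295379671511)) (l 47479602215))) (b (a (l 16534792) (l 16408680)) (l 4)))) (b (b (l 4) (l 4)) (l 4))), by decide +kernel⟩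

theorem c_pm_203_b : CertB 1239849684 370763052 0 536870912 649613803 48318383 3 eng mog cd1q2b cd1q0 pd3 true true false .up 2 0 3
    ndB1q2b ndB1q0 pcB3 Cut.none Ext.none :=
  certB1 (fam := true) (s1 := true) (s2 := false) (a := 2) (b := 0) (c := 3) (cn := .up) (n1 := ndB1q2b) (n2 := ndB1q0) (pc := pcB3) (cut := Cut.none) (xt := Ext.none) (P1 := 1239849684) (W1 := 370763052) (P2 := 0) (W2 := 536870912) (P3 := 649613803) (W3 := 48318383) (N0 := 3) (En := eng) (mo := mog) (C1 := cd1q2b) (C2 := cd1q0) (C3 := pd3)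
    rfl (fun _ => rfl) k0_pm_203_b

noncomputable def f_pm_213_a : ℕ → ℕ → ℕ → ℕ → Bool := onCell 0 536870912 1610612736 536870912 649613803 48318383
    (rowB 3 eng mog cd1q2a cd1q1 pd3 1 true true false .pnn 2 1 3 (qsf 0 536870912 536870912 536870912 3) ndB1q2a ndB1q1 pcB3 Cut.none Ext.none)

def k0_pm_213_a : ∃ t, chk3 f_pm_213_a t 1 2 1 = true :=
  ⟨(b (a (a (l 1) (b (l 1) (b (l 1) (l 93985937287)))) (b (a (l 1) (a (a (l 16535256) (l 16520880)) (a (l 16508880) (b (l 16485816) (l 16518616))))) (a (a (b (l 1) (l 16659864)) (b (l 16602872) (l 16634016))) (b (a (a (l 16583560) (l 16574576)) (a (l 16569168) (l 16569480))) (a (a (l 16622896) (l 16620576)) (a (l 16623104) (c (l 16660464) (l 16604152)))))))) (b (a (b (a (l 16770424) (a (l 16728288) (l 16711896))) (a (l 16766320) (l 16747528))) (b (a (b (a (l 16683224) (l 16664808)) (a (l 16701680) (l 16690104))) (b (a (l 16664200) (a (l 16675456) (l 16691384))) (a (b (l 16692432) (a (l 16702208) (l 16712856)))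 (b (c (l 16716800) (l 16690976)) (a (l 16713616) (c (l 16728720) (l 16705856))))))) (a (b (a (l 16719896) (l 16703648)) (a (l 16743096) (l 16723840))) (b (a (a (a (l 16700824) (l 16698200)) (c (l 16717008) (l 16682232))) (a (c (l 16723792) (l 16688432)) (b (l 16696464) (l 16697480)))) (a (a (l 16709288) (l 16707816)) (b (l 16678640) (l 16712736))))))) (a (a (a (b (l 16784112) (l 16790552)) (l 16840392)) (a (l 16791864) (l 16794576))) (a (a (l 16783072) (a (l 16771392) (l 16763960))) (a (a (l 16677064) (b (l 16742568) (l 16759648))) (b (a (l 16733488) (c (l 16782048) (l 16741640))) (a (l 16771824) (a (l 16806480) (l 16795264))))))))), by decide +kernel⟩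

def k1_pm_213_a : ∃ t, chk3 f_pm_213_a t 1 6 1 = true :=
  ⟨(a (b (a (a (b (b (l 16771584) (l 108145804327)) (l 4)) (b (l 16803264) (l 59827680455))) (a (b (l 16811216) (l 16807112)) (b (l 16808920) (l 16815176)))) (a (b (b (l 194045254983) (l 208540745607)) (l 4)) (b (a (l 16776568) (l 16819504)) (a (b (l 16759896) (l 154853692807)) (b (l 16795352) (l 16779456)))))) (b (a (a (a (l 16807976) (l 16803192)) (b (l 16797000) (l 16807240))) (a (b (a (l 16801072) (l 16808912)) (l 16737560)) (b (a (c (l 16819512) (l 16801744)) (c (l 16834432) (l 16823968))) (a (l 16796512) (l 16749184))))) (a (b (a (l 16811184) (l 16811040)) (a (b (l 16809680) (l 16808184)) (l 16806840))) (a (b (a (l 16820528) (l 16750096)) (b (l 16719744) (l 16822272))) (b (a (c (l 16841352) (l 16862312)) (l 16868760)) (a (l 16854144) (l 16872624))))))), by decide +kernel⟩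

def k2_pm_213_a : ∃ t, chk3 f_pm_213_a t 1 7 1 = true :=
  ⟨(a (b (a (l 4) (a (l 4) (b (b (l 16786648) (l 137137013351)) (b (a (l 4) (l 154853697751)) (l 4))))) (l 4)) (a (a (b (b (b (l 16806464) (a (l 16792984) (l 16798688))) (b (a (l 16776680) (l 16799328)) (a (l 178476070631) (l 16783304)))) (b (b (a (l 4) (l 290682116151)) (l 4)) (l 4))) (b (b (a (l 16797016) (l 16802248)) (b (a (l 16798856) (l 16801144)) (a (l 16797512) (l 16800248)))) (b (b (a (b (l 16792288) (l 16781800)) (b (l 16797000) (l 16792528))) (b (a (l 16770488) (l 16788192)) (a (l 4) (l 311620115559)))) (l 4)))) (a (a (b (b (l 16814256) (l 16809176)) (b (b (b (l 16803512) (l 16800888)) (b (l 16796896) (l 16813176))) (b (b (l 276723539831) (l 343832339831)) (l 4)))) (b (b (l 16828584) (b (l 16823192) (l 16818256))) (b (b (l 16811416) (b (l 16804312) (l 16858616))) (b (b (a (l 16790184) (l 16792944)) (l 175254957911)) (b (l 388929511623) (l 4)))))) (a (b (b (l 16846112) (l 16832904)) (b (b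 (l 16819664) (l 16810416)) (b (b (a (l 16796624) (l 16798312)) (l 16874312)) (b (b (l 16842624) (l 16773696)) (b (l 562875647399) (l 4)))))) (b (b (l 16862608) (l 16888016)) (b (b (l 16829776) (l 16957816)) (b (l 16797352) (b (b (l 16808104) (l 16864752)) (b (c (l 266522998615) (l 204245969383)) (b (l 16767536) (l 4))))))))))), by decide +kernel⟩

theorem s3_pm_213_a : ∃ t, chk3 f_pm_213_a t 1 3 1 = true := ex3_b k1_pm_213_a k2_pm_213_a

theorem s4_pm_213_a : ∃ t, chk3 f_pm_213_a t 1 1 1 = true := ex3_b k0_pm_213_a s3_pm_213_a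

theorem c_pm_213_a : CertB 0 536870912 536870912 536870912 649613803 48318383 3 eng mog cd1q2a cd1q1 pd3 true true false .pnn 2 1 3
    ndB1q2a ndB1q1 pcB3 Cut.none Ext.none :=
  certB1 (fam := true) (s1 := true) (s2 := false) (a := 2) (b := 1) (c := 3) (cn := .pnn) (n1 := ndB1q2a) (n2 := ndB1q1) (pc := pcB3) (cut := Cut.none) (xt := Ext.none) (P1 := 0) (W1 := 536870912) (P2 := 536870912) (W2 := 536870912) (P3 := 649613803) (W3 := 48318383) (N0 := 3) (En := eng) (mo := mog) (C1 := cd1q2a) (C2 := cd1q1) (C3 := pd3)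
    rfl (fun _ => rfl) s4_pm_213_a

noncomputable def f_pm_213_b : ℕ → ℕ → ℕ → ℕ → Bool := onCell 1239849684 370763052 1610612736 536870912 649613803 48318383
    (rowB 3 eng mog cd1q2b cd1q1 pd3 1 true true false .pnn 2 1 3 (qsf 1239849684 370763052 536870912 536870912 3) ndB1q2b ndB1q1 pcB3 Cut.none Ext.none)

def k0_pm_213_b : ∃ t, chk3 f_pm_213_b t 1 1 1 = true :=
  ⟨(b (b (l 1) (a (b (a (b (l 16734528) (l 16740432)) (l 1)) (a (b (l 16745400) (a (l 16777128) (l 4))) (l 85597415591))) (l 1))) (b (a (l 4) (l 4)) (l 4))), by decide +kernel⟩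

theorem c_pm_213_b : CertB 1239849684 370763052 536870912 536870912 649613803 48318383 3 eng mog cd1q2b cd1q1 pd3 true true false .pnn 2 1 3
    ndB1q2b ndB1q1 pcB3 Cut.none Ext.none :=
  certB1 (fam := true) (s1 := true) (s2 := false) (a := 2) (b := 1) (c := 3) (cn := .pnn) (n1 := ndB1q2b) (n2 := ndB1q1) (pc := pcB3) (cut := Cut.none) (xt := Ext.none) (P1 := 1239849684) (W1 := 370763052) (P2 := 536870912) (W2 := 536870912) (P3 := 649613803) (W3 := 48318383) (N0 := 3) (En := eng) (mo := mog) (C1 := cd1q2b) (C2 := cd1q1) (C3 := pd3)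
    rfl (fun _ => rfl) k0_pm_213_b

noncomputable def f_pm_303 : ℕ → ℕ → ℕ → ℕ → Bool := onCell 1610612736 536870912 0 536870912 649613803 48318383
    (rowB 3 eng mog cd1q3 cd1q0 pd3 2 true true false .npn 3 0 3 (qsf 1610612736 536870912 0 536870912 3) ndB1q3 ndB1q0 pcB3 Cut.none Ext.none)

def k0_pm_303 : ∃ t, chk3 f_pm_303 t 1 1 1 = true :=
  ⟨(a (a (b (a (b (l 16166736) (l 1)) (b (l 16143976) (l 16453576))) (l 1)) (b (a (b (l 16178040) (l 16476848)) (l 4)) (a (l 1) (b (l 4) (l 1))))) (l 4)), by decide +kernel⟩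

theorem c_pm_303 : CertB 1610612736 536870912 0 536870912 649613803 48318383 3 eng mog cd1q3 cd1q0 pd3 true true false .npn 3 0 3
    ndB1q3 ndB1q0 pcB3 Cut.none Ext.none :=
  certB2 (fam := true) (s1 := true) (s2 := false) (a := 3) (b := 0) (c := 3) (cn := .npn) (n1 := ndB1q3) (n2 := ndB1q0) (pc := pcB3) (cut := Cut.none) (xt := Ext.none) (P1 := 1610612736) (W1 := 536870912) (P2 := 0) (W2 := 536870912) (P3 := 649613803) (W3 := 48318383) (N0 := 3) (En := eng) (mo := mog) (C1 := cd1q3) (C2 := cd1q0) (C3 := pd3)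
    rfl (fun _ => rfl) k0_pm_303

noncomputable def f_pm_313 : ℕ → ℕ → ℕ → ℕ → Bool := onCell 1610612736 536870912 536870912 536870912 649613803 48318383
    (rowB 3 eng mog cd1q3 cd1q1 pd3 0 true true false .dn 3 1 3 (qsf 1610612736 536870912 536870912 536870912 3) ndB1q3 ndB1q1 pcB3 Cut.none Ext.none)

def k0_pm_313 : ∃ t, chk3 f_pm_313 t 1 1 1 = true :=
  ⟨(l 4), by decide +kernel⟩

theorem c_pm_313 : CertB 1610612736 536870912 536870912 536870912 649613803 48318383 3 eng mog cd1q3 cd1q1 pd3 true true false .dn 3 1 3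
    ndB1q3 ndB1q1 pcB3 Cut.none Ext.none :=
  certB0 (fam := true) (s1 := true) (s2 := false) (a := 3) (b := 1) (c := 3) (cn := .dn) (n1 := ndB1q3) (n2 := ndB1q1) (pc := pcB3) (cut := Cut.none) (xt := Ext.none) (P1 := 1610612736) (W1 := 536870912) (P2 := 536870912) (W2 := 536870912) (P3 := 649613803) (W3 := 48318383) (N0 := 3) (En := eng) (mo := mog) (C1 := cd1q3) (C2 := cd1q1) (C3 := pd3)
    rfl k0_pm_313

noncomputable def f_mm_001 : ℕ → ℕ → ℕ → ℕ → Bool := onCell 0 536870912 0 536870912 649613803 48318383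
    (rowB 3 eng mog cd1q0 cd1q0 pd1 0 true false false .up 0 0 1 (qsf 0 536870912 0 536870912 1) ndB1q0 ndB1q0 pcB1 Cut.none Ext.none)

def k0_mm_001 : ∃ t, chk3 f_mm_001 t 1 1 1 = true :=
  ⟨(l 4), by decide +kernel⟩

theorem c_mm_001 : CertB 0 536870912 0 536870912 649613803 48318383 3 eng mog cd1q0 cd1q0 pd1 true false false .up 0 0 1
    ndB1q0 ndB1q0 pcB1 Cut.none Ext.none :=
  certB0 (fam := true) (s1 := false) (s2 := false) (a := 0) (b := 0) (c := 1) (cn := .up) (n1 := ndB1q0) (n2 := ndB1q0) (pc := pcB1) (cut := Cut.none) (xt := Ext.none) (P1 := 0) (W1 := 536870912) (P2 := 0) (W2 := 536870912) (P3 := 649613803) (W3 := 48318383) (N0 := 3) (En := eng) (mo := mog) (C1 := cd1q0) (C2 := cd1q0) (C3 := pd1)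
    rfl k0_mm_001

noncomputable def f_mm_011 : ℕ → ℕ → ℕ → ℕ → Bool := onCell 0 536870912 536870912 536870912 649613803 48318383
    (rowB 3 eng mog cd1q0 cd1q1 pd1 0 true false false .pnn 0 1 1 (qsf 0 536870912 536870912 536870912 1) ndB1q0 ndB1q1 pcB1 Cut.none Ext.none)

def k0_mm_011 : ∃ t, chk3 f_mm_011 t 1 1 1 = true :=
  ⟨(l 4), by decide +kernel⟩

theorem c_mm_011 : CertB 0 536870912 536870912 536870912 649613803 48318383 3 eng mog cd1q0 cd1q1 pd1 true false false .pnn 0 1 1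
    ndB1q0 ndB1q1 pcB1 Cut.none Ext.none :=
  certB0 (fam := true) (s1 := false) (s2 := false) (a := 0) (b := 1) (c := 1) (cn := .pnn) (n1 := ndB1q0) (n2 := ndB1q1) (pc := pcB1) (cut := Cut.none) (xt := Ext.none) (P1 := 0) (W1 := 536870912) (P2 := 536870912) (W2 := 536870912) (P3 := 649613803) (W3 := 48318383) (N0 := 3) (En := eng) (mo := mog) (C1 := cd1q0) (C2 := cd1q1) (C3 := pd1)
    rfl k0_mm_011

noncomputable def f_mm_012 : ℕ → ℕ → ℕ → ℕ → Bool := onCell 0 536870912 536870912 536870912 649613803 48318383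
    (rowB 3 eng mog cd1q0 cd1q1 pd2 0 true false false .pnp 0 1 2 (qsf 0 536870912 536870912 536870912 2) ndB1q0 ndB1q1 pcB2 Cut.none Ext.none)

def k0_mm_012 : ∃ t, chk3 f_mm_012 t 1 1 1 = true :=
  ⟨(l 4), by decide +kernel⟩

theorem c_mm_012 : CertB 0 536870912 536870912 536870912 649613803 48318383 3 eng mog cd1q0 cd1q1 pd2 true false false .pnp 0 1 2
    ndB1q0 ndB1q1 pcB2 Cut.none Ext.none :=
  certB0 (fam := true) (s1 := false) (s2 := false) (a := 0) (b := 1) (c := 2) (cn := .pnp) (n1 := ndB1q0) (n2 := ndB1q1) (pc := pcB2) (cut := Cut.none) (xt := Ext.none) (P1 := 0) (W1 := 536870912) (P2 := 536870912) (W2 := 536870912) (P3 := 649613803) (W3 := 48318383) (N0 := 3) (En := eng) (mo := mog) (C1 := cd1q0) (C2 := cd1q1) (C3 := pd2)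
    rfl k0_mm_012

noncomputable def f_mm_022_a : ℕ → ℕ → ℕ → ℕ → Bool := onCell 0 536870912 0 536870912 649613803 48318383
    (rowB 3 eng mog cd1q0 cd1q2a pd2 0 true false false .pp 0 2 2 (qsf 0 536870912 0 536870912 2) ndB1q0 ndB1q2a pcB2 Cut.none Ext.none)

def k0_mm_022_a : ∃ t, chk3 f_mm_022_a t 1 1 1 = true :=
  ⟨(l 5), by decide +kernel⟩

theorem c_mm_022_a : CertB 0 536870912 0 536870912 649613803 48318383 3 eng mog cd1q0 cd1q2a pd2 true false false .pp 0 2 2
    ndB1q0 ndB1q2a pcB2 Cut.none Ext.none :=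
  certB0 (fam := true) (s1 := false) (s2 := false) (a := 0) (b := 2) (c := 2) (cn := .pp) (n1 := ndB1q0) (n2 := ndB1q2a) (pc := pcB2) (cut := Cut.none) (xt := Ext.none) (P1 := 0) (W1 := 536870912) (P2 := 0) (W2 := 536870912) (P3 := 649613803) (W3 := 48318383) (N0 := 3) (En := eng) (mo := mog) (C1 := cd1q0) (C2 := cd1q2a) (C3 := pd2)
    rfl k0_mm_022_a

noncomputable def f_mm_022_b : ℕ → ℕ → ℕ → ℕ → Bool := onCell 0 536870912 1239849684 370763052 649613803 48318383
    (rowB 3 eng mog cd1q0 cd1q2b pd2 0 true false false .pp 0 2 2 (qsf 0 536870912 1239849684 370763052 2) ndB1q0 ndB1q2b pcB2 Cut.none Ext.none)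

def k0_mm_022_b : ∃ t, chk3 f_mm_022_b t 1 1 1 = true :=
  ⟨(l 5), by decide +kernel⟩

theorem c_mm_022_b : CertB 0 536870912 1239849684 370763052 649613803 48318383 3 eng mog cd1q0 cd1q2b pd2 true false false .pp 0 2 2
    ndB1q0 ndB1q2b pcB2 Cut.none Ext.none :=
  certB0 (fam := true) (s1 := false) (s2 := false) (a := 0) (b := 2) (c := 2) (cn := .pp) (n1 := ndB1q0) (n2 := ndB1q2b) (pc := pcB2) (cut := Cut.none) (xt := Ext.none) (P1 := 0) (W1 := 536870912) (P2 := 1239849684) (W2 := 370763052) (P3 := 649613803) (W3 := 48318383) (N0 := 3) (En := eng) (mo := mog) (C1 := cd1q0) (C2 := cd1q2b) (C3 := pd2)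
    rfl k0_mm_022_b

noncomputable def f_mm_023_a : ℕ → ℕ → ℕ → ℕ → Bool := onCell 0 536870912 0 536870912 649613803 48318383
    (rowB 3 eng mog cd1q0 cd1q2a pd3 0 true false false .up 0 2 3 (qsf 0 536870912 0 536870912 3) ndB1q0 ndB1q2a pcB3 Cut.none Ext.none)

def k0_mm_023_a : ∃ t, chk3 f_mm_023_a t 1 1 1 = true :=
  ⟨(l 5), by decide +kernel⟩

theorem c_mm_023_a : CertB 0 536870912 0 536870912 649613803 48318383 3 eng mog cd1q0 cd1q2a pd3 true false false .up 0 2 3
    ndB1q0 ndB1q2a pcB3 Cut.none Ext.none :=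
  certB0 (fam := true) (s1 := false) (s2 := false) (a := 0) (b := 2) (c := 3) (cn := .up) (n1 := ndB1q0) (n2 := ndB1q2a) (pc := pcB3) (cut := Cut.none) (xt := Ext.none) (P1 := 0) (W1 := 536870912) (P2 := 0) (W2 := 536870912) (P3 := 649613803) (W3 := 48318383) (N0 := 3) (En := eng) (mo := mog) (C1 := cd1q0) (C2 := cd1q2a) (C3 := pd3)
    rfl k0_mm_023_a

noncomputable def f_mm_023_b : ℕ → ℕ → ℕ → ℕ → Bool := onCell 0 536870912 1239849684 370763052 649613803 48318383
    (rowB 3 eng mog cd1q0 cd1q2b pd3 0 true false false .up 0 2 3 (qsf 0 536870912 1239849684 370763052 3) ndB1q0 ndB1q2b pcB3 Cut.none Ext.none)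

def k0_mm_023_b : ∃ t, chk3 f_mm_023_b t 1 1 1 = true :=
  ⟨(l 5), by decide +kernel⟩

theorem c_mm_023_b : CertB 0 536870912 1239849684 370763052 649613803 48318383 3 eng mog cd1q0 cd1q2b pd3 true false false .up 0 2 3
    ndB1q0 ndB1q2b pcB3 Cut.none Ext.none :=
  certB0 (fam := true) (s1 := false) (s2 := false) (a := 0) (b := 2) (c := 3) (cn := .up) (n1 := ndB1q0) (n2 := ndB1q2b) (pc := pcB3) (cut := Cut.none) (xt := Ext.none) (P1 := 0) (W1 := 536870912) (P2 := 1239849684) (W2 := 370763052) (P3 := 649613803) (W3 := 48318383) (N0 := 3) (En := eng) (mo := mog) (C1 := cd1q0) (C2 := cd1q2b) (C3 := pd3)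
    rfl k0_mm_023_b

noncomputable def f_mm_033 : ℕ → ℕ → ℕ → ℕ → Bool := onCell 0 536870912 1610612736 536870912 649613803 48318383
    (rowB 3 eng mog cd1q0 cd1q3 pd3 0 true false false .pnn 0 3 3 (qsf 0 536870912 1610612736 536870912 3) ndB1q0 ndB1q3 pcB3 Cut.none Ext.none)

def k0_mm_033 : ∃ t, chk3 f_mm_033 t 1 1 1 = true :=
  ⟨(l 5), by decide +kernel⟩

theorem c_mm_033 : CertB 0 536870912 1610612736 536870912 649613803 48318383 3 eng mog cd1q0 cd1q3 pd3 true false false .pnn 0 3 3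
    ndB1q0 ndB1q3 pcB3 Cut.none Ext.none :=
  certB0 (fam := true) (s1 := false) (s2 := false) (a := 0) (b := 3) (c := 3) (cn := .pnn) (n1 := ndB1q0) (n2 := ndB1q3) (pc := pcB3) (cut := Cut.none) (xt := Ext.none) (P1 := 0) (W1 := 536870912) (P2 := 1610612736) (W2 := 536870912) (P3 := 649613803) (W3 := 48318383) (N0 := 3) (En := eng) (mo := mog) (C1 := cd1q0) (C2 := cd1q3) (C3 := pd3)
    rfl k0_mm_033

noncomputable def f_mm_101 : ℕ → ℕ → ℕ → ℕ → Bool := onCell 536870912 536870912 0 536870912 649613803 48318383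
    (rowB 3 eng mog cd1q1 cd1q0 pd1 0 true false false .npn 1 0 1 (qsf 536870912 536870912 0 536870912 1) ndB1q1 ndB1q0 pcB1 Cut.none Ext.none)

def k0_mm_101 : ∃ t, chk3 f_mm_101 t 1 1 1 = true :=
  ⟨(l 4), by decide +kernel⟩

theorem c_mm_101 : CertB 536870912 536870912 0 536870912 649613803 48318383 3 eng mog cd1q1 cd1q0 pd1 true false false .npn 1 0 1
    ndB1q1 ndB1q0 pcB1 Cut.none Ext.none :=
  certB0 (fam := true) (s1 := false) (s2 := false) (a := 1) (b := 0) (c := 1) (cn := .npn) (n1 := ndB1q1) (n2 := ndB1q0) (pc := pcB1) (cut := Cut.none) (xt := Ext.none) (P1 := 536870912) (W1 := 536870912) (P2 := 0) (W2 := 536870912) (P3 := 649613803) (W3 := 48318383) (N0 := 3) (En := eng) (mo := mog) (C1 := cd1q1) (C2 := cd1q0) (C3 := pd1)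
    rfl k0_mm_101

noncomputable def f_mm_102 : ℕ → ℕ → ℕ → ℕ → Bool := onCell 536870912 536870912 0 536870912 649613803 48318383
    (rowB 3 eng mog cd1q1 cd1q0 pd2 0 true false false .npp 1 0 2 (qsf 536870912 536870912 0 536870912 2) ndB1q1 ndB1q0 pcB2 Cut.none Ext.none)

def k0_mm_102 : ∃ t, chk3 f_mm_102 t 1 1 1 = true :=
  ⟨(l 4), by decide +kernel⟩

theorem c_mm_102 : CertB 536870912 536870912 0 536870912 649613803 48318383 3 eng mog cd1q1 cd1q0 pd2 true false false .npp 1 0 2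
    ndB1q1 ndB1q0 pcB2 Cut.none Ext.none :=
  certB0 (fam := true) (s1 := false) (s2 := false) (a := 1) (b := 0) (c := 2) (cn := .npp) (n1 := ndB1q1) (n2 := ndB1q0) (pc := pcB2) (cut := Cut.none) (xt := Ext.none) (P1 := 536870912) (W1 := 536870912) (P2 := 0) (W2 := 536870912) (P3 := 649613803) (W3 := 48318383) (N0 := 3) (En := eng) (mo := mog) (C1 := cd1q1) (C2 := cd1q0) (C3 := pd2)
    rfl k0_mm_102

noncomputable def f_mm_112 : ℕ → ℕ → ℕ → ℕ → Bool := onCell 536870912 536870912 536870912 536870912 649613803 48318383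
    (rowB 3 eng mog cd1q1 cd1q1 pd2 0 true false false .dn 1 1 2 (qsf 536870912 536870912 536870912 536870912 2) ndB1q1 ndB1q1 pcB2 Cut.none Ext.none)

def k0_mm_112 : ∃ t, chk3 f_mm_112 t 1 1 1 = true :=
  ⟨(l 4), by decide +kernel⟩

theorem c_mm_112 : CertB 536870912 536870912 536870912 536870912 649613803 48318383 3 eng mog cd1q1 cd1q1 pd2 true false false .dn 1 1 2
    ndB1q1 ndB1q1 pcB2 Cut.none Ext.none :=
  certB0 (fam := true) (s1 := false) (s2 := false) (a := 1) (b := 1) (c := 2) (cn := .dn) (n1 := ndB1q1) (n2 := ndB1q1) (pc := pcB2) (cut := Cut.none) (xt := Ext.none) (P1 := 536870912) (W1 := 536870912) (P2 := 536870912) (W2 := 536870912) (P3 := 649613803) (W3 := 48318383) (N0 := 3) (En := eng) (mo := mog) (C1 := cd1q1) (C2 := cd1q1) (C3 := pd2)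
    rfl k0_mm_112

noncomputable def f_mm_113 : ℕ → ℕ → ℕ → ℕ → Bool := onCell 536870912 536870912 536870912 536870912 649613803 48318383
    (rowB 3 eng mog cd1q1 cd1q1 pd3 0 true false false .nn 1 1 3 (qsf 536870912 536870912 536870912 536870912 3) ndB1q1 ndB1q1 pcB3 Cut.none Ext.none)

def k0_mm_113 : ∃ t, chk3 f_mm_113 t 1 1 1 = true :=
  ⟨(l 4), by decide +kernel⟩

theorem c_mm_113 : CertB 536870912 536870912 536870912 536870912 649613803 48318383 3 eng mog cd1q1 cd1q1 pd3 true false false .nn 1 1 3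
    ndB1q1 ndB1q1 pcB3 Cut.none Ext.none :=
  certB0 (fam := true) (s1 := false) (s2 := false) (a := 1) (b := 1) (c := 3) (cn := .nn) (n1 := ndB1q1) (n2 := ndB1q1) (pc := pcB3) (cut := Cut.none) (xt := Ext.none) (P1 := 536870912) (W1 := 536870912) (P2 := 536870912) (W2 := 536870912) (P3 := 649613803) (W3 := 48318383) (N0 := 3) (En := eng) (mo := mog) (C1 := cd1q1) (C2 := cd1q1) (C3 := pd3)
    rfl k0_mm_113

noncomputable def f_mm_123_a : ℕ → ℕ → ℕ → ℕ → Bool := onCell 536870912 536870912 0 536870912 649613803 48318383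
    (rowB 3 eng mog cd1q1 cd1q2a pd3 0 true false false .npn 1 2 3 (qsf 536870912 536870912 0 536870912 3) ndB1q1 ndB1q2a pcB3 Cut.none Ext.none)

def k0_mm_123_a : ∃ t, chk3 f_mm_123_a t 1 1 1 = true :=
  ⟨(l 5), by decide +kernel⟩

theorem c_mm_123_a : CertB 536870912 536870912 0 536870912 649613803 48318383 3 eng mog cd1q1 cd1q2a pd3 true false false .npn 1 2 3
    ndB1q1 ndB1q2a pcB3 Cut.none Ext.none :=
  certB0 (fam := true) (s1 := false) (s2 := false) (a := 1) (b := 2) (c := 3) (cn := .npn) (n1 := ndB1q1) (n2 := ndB1q2a) (pc := pcB3) (cut := Cut.none) (xt := Ext.none) (P1 := 536870912) (W1 := 536870912) (P2 := 0) (W2 := 536870912) (P3 := 649613803) (W3 := 48318383) (N0 := 3) (En := eng) (mo := mog) (C1 := cd1q1) (C2 := cd1q2a) (C3 := pd3)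
    rfl k0_mm_123_a

noncomputable def f_mm_123_b : ℕ → ℕ → ℕ → ℕ → Bool := onCell 536870912 536870912 1239849684 370763052 649613803 48318383
    (rowB 3 eng mog cd1q1 cd1q2b pd3 0 true false false .npn 1 2 3 (qsf 536870912 536870912 1239849684 370763052 3) ndB1q1 ndB1q2b pcB3 Cut.none Ext.none)

def k0_mm_123_b : ∃ t, chk3 f_mm_123_b t 1 1 1 = true :=
  ⟨(l 5), by decide +kernel⟩

theorem c_mm_123_b : CertB 536870912 536870912 1239849684 370763052 649613803 48318383 3 eng mog cd1q1 cd1q2b pd3 true false false .npn 1 2 3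
    ndB1q1 ndB1q2b pcB3 Cut.none Ext.none :=
  certB0 (fam := true) (s1 := false) (s2 := false) (a := 1) (b := 2) (c := 3) (cn := .npn) (n1 := ndB1q1) (n2 := ndB1q2b) (pc := pcB3) (cut := Cut.none) (xt := Ext.none) (P1 := 536870912) (W1 := 536870912) (P2 := 1239849684) (W2 := 370763052) (P3 := 649613803) (W3 := 48318383) (N0 := 3) (En := eng) (mo := mog) (C1 := cd1q1) (C2 := cd1q2b) (C3 := pd3)
    rfl k0_mm_123_b

noncomputable def f_mm_133 : ℕ → ℕ → ℕ → ℕ → Bool := onCell 536870912 536870912 1610612736 536870912 649613803 48318383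
    (rowB 3 eng mog cd1q1 cd1q3 pd3 0 true false false .dn 1 3 3 (qsf 536870912 536870912 1610612736 536870912 3) ndB1q1 ndB1q3 pcB3 Cut.none Ext.none)

def k0_mm_133 : ∃ t, chk3 f_mm_133 t 1 1 1 = true :=
  ⟨(l 4), by decide +kernel⟩

theorem c_mm_133 : CertB 536870912 536870912 1610612736 536870912 649613803 48318383 3 eng mog cd1q1 cd1q3 pd3 true false false .dn 1 3 3
    ndB1q1 ndB1q3 pcB3 Cut.none Ext.none :=
  certB0 (fam := true) (s1 := false) (s2 := false) (a := 1) (b := 3) (c := 3) (cn := .dn) (n1 := ndB1q1) (n2 := ndB1q3) (pc := pcB3) (cut := Cut.none) (xt := Ext.none) (P1 := 536870912) (W1 := 536870912) (P2 := 1610612736) (W2 := 536870912) (P3 := 649613803) (W3 := 48318383) (N0 := 3) (En := eng) (mo := mog) (C1 := cd1q1) (C2 := cd1q3) (C3 := pd3)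
    rfl k0_mm_133

noncomputable def cut_mm_202_a : Cut := Cut.of [[⟨0, 1, 0, 67108864⟩, ⟨1, 0, 0, 67108864⟩, ⟨2, 1, 0, 67108864⟩]]

noncomputable def f_mm_202_a : ℕ → ℕ → ℕ → ℕ → Bool := onCell 0 536870912 0 536870912 649613803 48318383
    (rowB 3 eng mog cd1q2a cd1q0 pd2 0 true false false .pp 2 0 2 (qsf 0 536870912 0 536870912 2) ndB1q2a ndB1q0 pcB2 cut_mm_202_a Ext.none)

def k0_mm_202_a : ∃ t, chk3 f_mm_202_a t 2 4 1 = true :=
  ⟨(a (b (b (a (b (a (c (l 16442896) (l 16443528)) (c (l 16446368) (l 16446792))) (b (a (l 16446152) (l 16449512)) (l 16454056))) (a (b (c (l 16451928) (l 16452080)) (b (l 16454648) (l 16460456))) (b (c (l 16459520) (l 16459232)) (b (l 16461880) (l 16466736))))) (a (b (l 16462512) (l 16472320)) (b (a (l 16469448) (l 16455200)) (l 16483968)))) (b (a (l 16483600) (b (l 16493600) (l 16502040))) (a (l 16496432) (a (l 16507824) (l 16518008))))) (b (a (b (a (b (a (l 16465552) (l 16470648)) (b (l 16471392) (a (l 16472480) (l 16477304))))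 (b (a (l 16492760) (l 16484080)) (a (l 16482096) (l 16489488)))) (a (b (a (l 16482000) (l 16486496)) (l 16475464)) (b (b (a (l 16488728) (l 16495336)) (l 16498560)) (l 16508104)))) (b (a (b (a (b (l 16490608) (l 16493104)) (b (l 16499536) (l 16502232))) (a (l 16518536) (b (l 16505296) (l 16508712)))) (b (a (b (l 16509576) (l 16512456)) (b (c (l 16520520) (l 16520808)) (l 16523520))) (a (b (l 16515704) (l 16519304)) (b (l 16526952) (l 16530728))))) (b (a (a (b (l 16523976) (l 16508776)) (b (l 16512456) (b (l 16515792) (l 16518880)))) (a (b (l 16523232) (b (l 16526376) (l 16528840))) (b (l 16534824) (l 16539232)))) (a (a (l 16518744) (l 16527368)) (b (a (l 16533704) (b (l 16563896) (l 16546040))) (a (l 16540520) (l 16551248))))))) (a (a (b (l 16512368) (l 16530184)) (b (b (l 16519872) (l 16530664)) (l 16545272))) (b (a (b (a (l 16531136) (l 16540168)) (l 16526392)) (b (a (l 16550328) (l 16561344)) (a (l 16562672) (l 16574104)))) (a (b (l 16558240) (l 16568528))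 (b (a (l 16574256) (l 16586144)) (l 16591464))))))), by decide +kernel⟩

def k1_mm_202_a : ∃ t, chk3 f_mm_202_a t 2 5 1 = true :=
  ⟨(a (b (a (b (b (l 16511624) (l 16523960)) (a (b (l 16532312) (l 16544568)) (b (l 16539776) (a (l 16550088) (l 16554472))))) (b (a (l 16550976) (l 16540248)) (b (l 16554192) (a (l 16561600) (l 16571904))))) (a (a (b (b (l 16557760) (a (l 16569264) (l 16573352))) (b (a (l 16582592) (l 16587064)) (l 16599216))) (b (b (l 16566280) (l 16580256)) (l 16601672))) (b (a (l 16582760) (l 16592936)) (a (l 16611736) (l 16622168))))) (b (a (b (a (l 16552104) (l 16568168)) (a (l 16576944) (l 16594584))) (b (a (l 16587912) (b (l 16604704) (l 16618944))) (a (l 16615552) (b (l 16633376) (l 16647920))))) (a (a (b (l 16603600) (l 16632736)) (b (l 16662128) (l 16646920))) (b (a (b (l 16636320) (l 16649528)) (b (l 16704400) (a (l 16669528) (l 16683880)))) (a (b (l 16662208) (l 16676280)) (b (l 16690536) (l 16726400))))))), by decide +kernel⟩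

def k2_mm_202_a : ∃ t, chk3 f_mm_202_a t 6 8 1 = true :=
  ⟨(a (b (a (b (a (c (b (l 16532096) (l 16535704)) (b (l 16532832) (l 16535744))) (b (l 16545096) (l 16548528))) (a (b (l 16539144) (l 16543096)) (b (a (l 16548912) (l 16555736)) (l 16556464)))) (b (a (b (l 16558872) (l 16562488)) (b (l 16568408) (l 16576304))) (a (b (l 16566456) (l 16570768)) (c (l 16583184) (l 16584056))))) (a (b (a (c (l 16571896) (l 16569744)) (b (l 16560912) (l 16565664))) (a (b (a (l 16574520) (l 16560160)) (a (l 16559912) (l 16566120))) (b (l 16570688) (a (l 16593688) (l 16579712))))) (b (a (b (l 16585888) (l 16580320)) (b (l 16590576) (l 16595664))) (a (b (l 16585520) (l 16611936)) (l 16603800))))) (b (b (a (b (a (c (l 16579984) (l 16577240)) (c (l 16590976) (l 16587816))) (a (l 16586968) (l 16598120))) (a (b (a (l 16597816) (l 16604200)) (a (l 16606768) (l 16613304))) (b (c (l 16616312) (l 16612832)) (l 16644880)))) (a (a (b (l 16594896) (l 16601112)) (b (l 16606432) (l 16614424)))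 (a (a (l 16619584) (l 16634200)) (b (l 16653824) (a (l 16637744) (l 16645176)))))) (b (a (a (l 16608672) (l 16625168)) (a (b (l 16635168) (l 16642968)) (b (l 16649784) (l 16657832)))) (a (a (l 16619720) (l 16636552)) (a (l 16653992) (l 16669440)))))), by decide +kernel⟩

def k3_mm_202_a : ∃ t, chk3 f_mm_202_a t 6 9 1 = true :=
  ⟨(a (b (a (b (a (l 16573360) (l 16586440)) (a (l 16586520) (l 16600000))) (b (a (b (a (l 16593384) (l 16621816)) (l 16604120)) (a (b (l 16608616) (l 16615384)) (b (l 16616424) (l 16643904)))) (a (l 16624976) (l 16629776)))) (a (b (a (l 16599000) (l 16612896)) (l 16639104)) (b (a (l 16627792) (l 16643456)) (a (l 16640632) (l 16656696))))) (b (a (b (a (b (l 16628648) (l 16634968)) (l 16648880)) (a (l 16645488) (b (l 16658784) (l 16665920)))) (b (a (l 16666648) (l 16683736)) (a (b (l 16676648) (l 16704616)) (b (l 16693984) (l 16701008))))) (b (a (a (l 16659536) (l 16676656)) (a (l 16694528) (b (l 16729216) (l 16714824)))) (a (a (l 16673168)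 (l 16690376)) (a (l 16707624) (l 16745968)))))), by decide +kernel⟩

def k4_mm_202_a : ∃ t, chk3 f_mm_202_a t 7 8 1 = true :=
  ⟨(a (b (a (a (b (b (b (l 16626656) (l 16631520)) (a (l 16634864) (l 16642424))) (b (l 16666216) (a (l 16652808) (l 16660632)))) (b (b (b (a (l 16637936) (l 16645936)) (l 16667904)) (b (l 16672808) (l 16677624))) (b (a (l 16659584) (l 16667848)) (a (l 16668656) (l 16677040))))) (a (b (b (b (l 6) (a (l 16659688) (l 6))) (b (a (l 16664656) (l 16673696)) (l 16689816))) (b (b (l 16689392) (l 16704624)) (a (l 16685992) (l 16716184)))) (b (b (l 6) (a (b (l 6) (l 16687952)) (l 6))) (b (a (b (l 16692832) (l 16697632)) (b (l 6) (l 16707304))) (a (b (l 16702352) (l 16706992)) (b (l 16712064) (l 16716744))))))) (a (b (a (b (l 16665296) (l 16673568)) (a (l 16692176) (a (l 16688008) (l 16692472)))) (a (b (l 16681592) (l 16689376)) (b (l 16698440) (l 16706448)))) (b (a (b (a (l 16673984) (b (l 16702016) (l 16706464))) (l 16718792)) (b (a (a (l 16711384)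 (l 16695256)) (b (l 16721344) (l 16704904))) (a (l 16722624) (l 16732528)))) (a (b (l 16727200) (l 16745840)) (b (a (l 16731152) (l 16741128)) (a (l 16739408) (l 16749408))))))) (b (a (a (b (l 6) (b (l 6) (b (a (l 16722040) (l 6)) (a (l 16747728) (b (l 16746384) (l 16759232)))))) (l 6)) (l 6)) (a (b (a (b (a (l 16738944) (b (l 16741768) (l 16746376))) (a (l 16742688) (b (l 16750912) (l 16755312)))) (a (b (b (l 16752768) (l 16767840)) (b (a (l 16759056) (l 16764168)) (a (l 16763008) (l 4)))) (b (b (l 6) (a (l 16765320) (l 4))) (l 4)))) (a (b (a (l 16756576) (b (l 16769848) (l 16773544))) (a (b (l 16757328) (l 16760912)) (l 4))) (l 4))) (l 4)))), by decide +kernel⟩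

def k5_mm_202_a : ∃ t, chk3 f_mm_202_a t 7 9 1 = true :=
  ⟨(a (b (a (b (a (b (l 16696952) (l 16704336)) (b (l 16714248) (l 16721848))) (a (b (l 16711560) (l 16718648)) (b (l 16729280) (l 16757504)))) (a (b (b (l 16753776) (a (l 16735720) (l 16745296))) (b (b (l 16767016) (l 16760056)) (a (l 16750176) (l 4)))) (b (b (a (l 16747376) (l 16767384)) (a (l 16754672) (l 4))) (l 4)))) (a (b (a (b (l 16746592) (a (l 16727976) (l 16757880))) (b (l 16753960) (a (l 16745760) (l 4)))) (a (b (l 16739112) (l 16748712)) (l 4))) (l 4))) (l 4)), by decide +kernel⟩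

def k6_mm_202_a : ∃ t, chk3 f_mm_202_a t 3 5 1 = true :=
  ⟨(a (b (a (b (a (b (l 16631968) (l 16646728)) (b (l 16663008) (l 16678216))) (a (b (l 16661736) (l 16676888)) (b (l 16693720) (l 16719888)))) (b (b (a (l 16696632) (a (l 16723776) (l 16762320))) (a (a (l 16703264) (l 16721024)) (a (l 16760584) (l 4)))) (a (b (a (l 16719040) (l 16737048)) (b (l 25467792279) (l 35668361463))) (l 4)))) (a (b (a (b (l 16692064) (a (l 16699064) (l 16736088))) (b (a (l 16716536) (l 16733664)) (a (l 16731872) (l 4)))) (a (b (a (l 16713584) (b (l 16726184) (l 16733360))) (a (l 16749552) (l 4))) (l 4))) (l 4))) (b (l 4) (l 4))), by decide +kernel⟩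

def k7_mm_202_a : ∃ t, chk3 f_mm_202_a t 1 3 1 = true :=
  ⟨(a (a (b (b (b (a (b (l 16618608) (l 16632776)) (l 16657344)) (a (l 16695272) (l 16696312))) (b (a (l 16700096) (l 16743720)) (a (l 16785968) (b (l 16719368) (l 2))))) (l 2)) (b (b (b (a (a (l 16662424) (l 16697320)) (a (b (l 16691104) (l 16706040)) (b (l 41573905527) (l 43184567495)))) (a (b (l 16732896) (a (l 16697688) (l 16711280))) (a (b (l 16762312) (l 45332037335)) (l 4)))) (a (b (a (b (l 16710608) (l 16722408)) (b (l 16725080) (l 16739336))) (a (b (l 16733520) (l 16746864)) (l 4))) (l 4))) (l 4))) (b (a (l 4) (l 4)) (l 4))), by decide +kernel⟩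

theorem s8_mm_202_a : ∃ t, chk3 f_mm_202_a t 7 4 1 = true := ex3_b k4_mm_202_a k5_mm_202_a

theorem s9_mm_202_a : ∃ t, chk3 f_mm_202_a t 6 4 1 = true := ex3_b k2_mm_202_a k3_mm_202_a

theorem s10_mm_202_a : ∃ t, chk3 f_mm_202_a t 3 4 1 = true := ex3_a s9_mm_202_a s8_mm_202_a

theorem s11_mm_202_a : ∃ t, chk3 f_mm_202_a t 3 2 1 = true := ex3_b s10_mm_202_a k6_mm_202_a

theorem s12_mm_202_a : ∃ t, chk3 f_mm_202_a t 2 2 1 = true := ex3_b k0_mm_202_a k1_mm_202_a

theorem s13_mm_202_a : ∃ t, chk3 f_mm_202_a t 1 2 1 = true := ex3_a s12_mm_202_a s11_mm_202_a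

theorem s14_mm_202_a : ∃ t, chk3 f_mm_202_a t 1 1 1 = true := ex3_b s13_mm_202_a k7_mm_202_a

theorem c_mm_202_a : CertB 0 536870912 0 536870912 649613803 48318383 3 eng mog cd1q2a cd1q0 pd2 true false false .pp 2 0 2
    ndB1q2a ndB1q0 pcB2 cut_mm_202_a Ext.none :=
  certB0 (fam := true) (s1 := false) (s2 := false) (a := 2) (b := 0) (c := 2) (cn := .pp) (n1 := ndB1q2a) (n2 := ndB1q0) (pc := pcB2) (cut := cut_mm_202_a) (xt := Ext.none) (P1 := 0) (W1 := 536870912) (P2 := 0) (W2 := 536870912) (P3 := 649613803) (W3 := 48318383) (N0 := 3) (En := eng) (mo := mog) (C1 := cd1q2a) (C2 := cd1q0) (C3 := pd2)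
    rfl s14_mm_202_a

noncomputable def cut_mm_202_b : Cut := Cut.of [[⟨0, 1, 0, 67108864⟩, ⟨1, 0, 0, 67108864⟩, ⟨2, 1, 0, 67108864⟩]]

noncomputable def f_mm_202_b : ℕ → ℕ → ℕ → ℕ → Bool := onCell 1239849684 370763052 1073741824 536870912 649613803 48318383
    (rowB 3 eng mog cd1q2b cd1q0 pd2 1 true false false .pp 2 0 2 (qsf 1239849684 370763052 0 536870912 2) ndB1q2b ndB1q0 pcB2 cut_mm_202_b Ext.none)

def k0_mm_202_b : ∃ t, chk3 f_mm_202_b t 1 1 1 = true :=
  ⟨(b (a (b (l 1) (b (a (a (b (b (l 1) (b (l 1) (l 16445544))) (b (a (b (c (l 16416920) (l 16397752)) (a (l 16429504) (l 16386488))) (l 1)) (a (c (l 16425176) (l 16425656)) (l 16374744)))) (l 1)) (l 1)) (a (b (a (a (b (l 16435560) (l 16444568)) (l 16452768)) (b (l 16307472) (l 16311472))) (a (b (l 16424704) (l 16430360)) (a (l 16347672) (l 16293408)))) (b (l 1) (a (l 16237000) (l 1)))))) (l 1)) (a (b (b (a (a (b (l 16493504) (b (l 16454752) (l 16529128))) (b (l 16358632) (l 16358280))) (b (a (b (l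 16225248) (l 16236464)) (l 1)) (a (l 16255024) (l 16148816)))) (a (b (a (b (l 16500032) (a (l 16518176) (l 16467328))) (b (l 16375504) (a (l 16414352) (l 16363168)))) (a (b (a (l 16532144) (l 16483136)) (l 16564904)) (b (l 16426680) (l 16423600)))) (b (a (b (l 16274768) (l 16289080)) (b (l 16171208) (l 16187552))) (a (l 16418464) (l 16215280))))) (b (a (b (a (b (l 16600792) (a (l 16574608) (l 16530568))) (b (l 16442232) (l 16460880))) (a (b (l 16568336) (l 16583712)) (l 16488456))) (b (a (b (l 16340544) (l 16361008)) (l 16253848)) (a (l 16393904) (l 16296408)))) (a (b (a (l 16648424) (l 16524760)) (a (l 16677152) (l 16560208))) (b (l 16474808) (l 16477064))))) (b (a (b (l 1) (b (a (l 16116512) (l 1)) (a (l 16114752) (l 16012688)))) (l 1)) (b (a (b (a (l 16158312) (l 16060552)) (l 16158304)) (b (l 1) (l 15971888))) (a (b (l 16206656) (l 16255672)) (b (l 16029368) (l 16084928))))))), by decide +kernel⟩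

theorem c_mm_202_b : CertB 1239849684 370763052 0 536870912 649613803 48318383 3 eng mog cd1q2b cd1q0 pd2 true false false .pp 2 0 2
    ndB1q2b ndB1q0 pcB2 cut_mm_202_b Ext.none :=
  certB1 (fam := true) (s1 := false) (s2 := false) (a := 2) (b := 0) (c := 2) (cn := .pp) (n1 := ndB1q2b) (n2 := ndB1q0) (pc := pcB2) (cut := cut_mm_202_b) (xt := Ext.none) (P1 := 1239849684) (W1 := 370763052) (P2 := 0) (W2 := 536870912) (P3 := 649613803) (W3 := 48318383) (N0 := 3) (En := eng) (mo := mog) (C1 := cd1q2b) (C2 := cd1q0) (C3 := pd2)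
    rfl (fun _ => rfl) k0_mm_202_b

noncomputable def f_mm_203_a : ℕ → ℕ → ℕ → ℕ → Bool := onCell 0 536870912 1610612736 536870912 649613803 48318383
    (rowB 3 eng mog cd1q2a cd1q0 pd3 1 true false false .up 2 0 3 (qsf 0 536870912 0 536870912 3) ndB1q2a ndB1q0 pcB3 Cut.none Ext.none)

def k0_mm_203_a : ∃ t, chk3 f_mm_203_a t 1 1 1 = true :=
  ⟨(a (b (b (b (a (a (b (l 16699888) (l 16712112)) (b (l 16768856) (b (l 16742992) (l 16757320)))) (a (b (a (l 35668440567) (l 4)) (l 4)) (l 4))) (a (a (b (l 16743968) (l 16765920)) (b (a (l 16766792) (l 4)) (l 4))) (l 4))) (b (a (a (b (l 75933793079) (l 2)) (l 4)) (l 4)) (l 2))) (l 2)) (l 4)), by decide +kernel⟩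

theorem c_mm_203_a : CertB 0 536870912 0 536870912 649613803 48318383 3 eng mog cd1q2a cd1q0 pd3 true false false .up 2 0 3
    ndB1q2a ndB1q0 pcB3 Cut.none Ext.none :=
  certB1 (fam := true) (s1 := false) (s2 := false) (a := 2) (b := 0) (c := 3) (cn := .up) (n1 := ndB1q2a) (n2 := ndB1q0) (pc := pcB3) (cut := Cut.none) (xt := Ext.none) (P1 := 0) (W1 := 536870912) (P2 := 0) (W2 := 536870912) (P3 := 649613803) (W3 := 48318383) (N0 := 3) (En := eng) (mo := mog) (C1 := cd1q2a) (C2 := cd1q0) (C3 := pd3)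
    rfl (fun _ => rfl) k0_mm_203_a

noncomputable def f_mm_203_b : ℕ → ℕ → ℕ → ℕ → Bool := onCell 1239849684 370763052 1610612736 536870912 649613803 48318383
    (rowB 3 eng mog cd1q2b cd1q0 pd3 1 true false false .up 2 0 3 (qsf 1239849684 370763052 0 536870912 3) ndB1q2b ndB1q0 pcB3 Cut.none Ext.none)

def k0_mm_203_b : ∃ t, chk3 f_mm_203_b t 1 1 1 = true :=
  ⟨(b (b (a (b (a (b (a (l 16657968) (l 16590544)) (a (l 16673024) (l 16616120))) (b (l 16472560) (l 16507128))) (a (a (b (l 16682104) (l 16712344)) (l 16775616)) (b (l 16541424) (l 16575584)))) (b (a (b (l 16296792) (l 16337984)) (l 16164280)) (a (b (l 16381632) (l 16428464)) (b (l 16207840) (l 16261080))))) (a (b (a (b (a (l 16732744) (l 16685616)) (l 4)) (l 4)) (l 4)) (l 4))) (l 4)), by decide +kernel⟩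

theorem c_mm_203_b : CertB 1239849684 370763052 0 536870912 649613803 48318383 3 eng mog cd1q2b cd1q0 pd3 true false false .up 2 0 3
    ndB1q2b ndB1q0 pcB3 Cut.none Ext.none :=
  certB1 (fam := true) (s1 := false) (s2 := false) (a := 2) (b := 0) (c := 3) (cn := .up) (n1 := ndB1q2b) (n2 := ndB1q0) (pc := pcB3) (cut := Cut.none) (xt := Ext.none) (P1 := 1239849684) (W1 := 370763052) (P2 := 0) (W2 := 536870912) (P3 := 649613803) (W3 := 48318383) (N0 := 3) (En := eng) (mo := mog) (C1 := cd1q2b) (C2 := cd1q0) (C3 := pd3)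
    rfl (fun _ => rfl) k0_mm_203_b

noncomputable def f_mm_213_a : ℕ → ℕ → ℕ → ℕ → Bool := onCell 0 536870912 536870912 536870912 649613803 48318383
    (rowB 3 eng mog cd1q2a cd1q1 pd3 0 true false false .pnn 2 1 3 (qsf 0 536870912 536870912 536870912 3) ndB1q2a ndB1q1 pcB3 Cut.none Ext.none)

def k0_mm_213_a : ∃ t, chk3 f_mm_213_a t 1 1 1 = true :=
  ⟨(a (a (b (b (l 4) (l 4)) (l 4)) (l 4)) (l 4)), by decide +kernel⟩

theorem c_mm_213_a : CertB 0 536870912 536870912 536870912 649613803 48318383 3 eng mog cd1q2a cd1q1 pd3 true false false .pnn 2 1 3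
    ndB1q2a ndB1q1 pcB3 Cut.none Ext.none :=
  certB0 (fam := true) (s1 := false) (s2 := false) (a := 2) (b := 1) (c := 3) (cn := .pnn) (n1 := ndB1q2a) (n2 := ndB1q1) (pc := pcB3) (cut := Cut.none) (xt := Ext.none) (P1 := 0) (W1 := 536870912) (P2 := 536870912) (W2 := 536870912) (P3 := 649613803) (W3 := 48318383) (N0 := 3) (En := eng) (mo := mog) (C1 := cd1q2a) (C2 := cd1q1) (C3 := pd3)
    rfl k0_mm_213_a

noncomputable def f_mm_213_b : ℕ → ℕ → ℕ → ℕ → Bool := onCell 1239849684 370763052 536870912 536870912 649613803 48318383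
    (rowB 3 eng mog cd1q2b cd1q1 pd3 0 true false false .pnn 2 1 3 (qsf 1239849684 370763052 536870912 536870912 3) ndB1q2b ndB1q1 pcB3 Cut.none Ext.none)

def k0_mm_213_b : ∃ t, chk3 f_mm_213_b t 1 1 1 = true :=
  ⟨(b (a (b (a (l 4) (l 4)) (l 4)) (l 4)) (l 4)), by decide +kernel⟩

theorem c_mm_213_b : CertB 1239849684 370763052 536870912 536870912 649613803 48318383 3 eng mog cd1q2b cd1q1 pd3 true false false .pnn 2 1 3
    ndB1q2b ndB1q1 pcB3 Cut.none Ext.none :=
  certB0 (fam := true) (s1 := false) (s2 := false) (a := 2) (b := 1) (c := 3) (cn := .pnn) (n1 := ndB1q2b) (n2 := ndB1q1) (pc := pcB3) (cut := Cut.none) (xt := Ext.none) (P1 := 1239849684) (W1 := 370763052) (P2 := 536870912) (W2 := 536870912) (P3 := 649613803) (W3 := 48318383) (N0 := 3) (En := eng) (mo := mog) (C1 := cd1q2b) (C2 := cd1q1) (C3 := pd3)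
    rfl k0_mm_213_b

noncomputable def f_mm_303 : ℕ → ℕ → ℕ → ℕ → Bool := onCell 1610612736 536870912 0 536870912 649613803 48318383
    (rowB 3 eng mog cd1q3 cd1q0 pd3 2 true false false .npn 3 0 3 (qsf 1610612736 536870912 0 536870912 3) ndB1q3 ndB1q0 pcB3 Cut.none Ext.none)

def k0_mm_303 : ∃ t, chk3 f_mm_303 t 1 1 1 = true :=
  ⟨(a (a (b (a (b (l 161630914119) (l 1)) (b (a (l 16116376) (l 16117744)) (l 354367840055))) (l 1)) (b (l 4) (a (l 1) (l 4)))) (l 4)), by decide +kernel⟩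

theorem c_mm_303 : CertB 1610612736 536870912 0 536870912 649613803 48318383 3 eng mog cd1q3 cd1q0 pd3 true false false .npn 3 0 3
    ndB1q3 ndB1q0 pcB3 Cut.none Ext.none :=
  certB2 (fam := true) (s1 := false) (s2 := false) (a := 3) (b := 0) (c := 3) (cn := .npn) (n1 := ndB1q3) (n2 := ndB1q0) (pc := pcB3) (cut := Cut.none) (xt := Ext.none) (P1 := 1610612736) (W1 := 536870912) (P2 := 0) (W2 := 536870912) (P3 := 649613803) (W3 := 48318383) (N0 := 3) (En := eng) (mo := mog) (C1 := cd1q3) (C2 := cd1q0) (C3 := pd3)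
    rfl (fun _ => rfl) k0_mm_303

noncomputable def f_mm_313 : ℕ → ℕ → ℕ → ℕ → Bool := onCell 1610612736 536870912 536870912 536870912 649613803 48318383
    (rowB 3 eng mog cd1q3 cd1q1 pd3 0 true false false .dn 3 1 3 (qsf 1610612736 536870912 536870912 536870912 3) ndB1q3 ndB1q1 pcB3 Cut.none Ext.none)

def k0_mm_313 : ∃ t, chk3 f_mm_313 t 1 1 1 = true :=
  ⟨(l 4), by decide +kernel⟩

theorem c_mm_313 : CertB 1610612736 536870912 536870912 536870912 649613803 48318383 3 eng mog cd1q3 cd1q1 pd3 true false false .dn 3 1 3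
    ndB1q3 ndB1q1 pcB3 Cut.none Ext.none :=
  certB0 (fam := true) (s1 := false) (s2 := false) (a := 3) (b := 1) (c := 3) (cn := .dn) (n1 := ndB1q3) (n2 := ndB1q1) (pc := pcB3) (cut := Cut.none) (xt := Ext.none) (P1 := 1610612736) (W1 := 536870912) (P2 := 536870912) (W2 := 536870912) (P3 := 649613803) (W3 := 48318383) (N0 := 3) (En := eng) (mo := mog) (C1 := cd1q3) (C2 := cd1q1) (C3 := pd3)
    rfl k0_mm_313

end Pool.Agent.Strip051.G.I6050_6500.Tab.C.BA11

namespace Pool.Agent.Strip051.G.I6050_6500.Tab.C.BA12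

open Pool.Agent.Strip051.PB Pool.Agent.Strip051.PB.T
open Pool.Agent.Strip051.G.I6050_6500.Tab

noncomputable def f_pp_001 : ℕ → ℕ → ℕ → ℕ → Bool := onCell 0 536870912 0 536870912 649613803 48318383
    (rowB 3 eng mog cd1q0 cd2q0 pd1 0 true true true .up 0 0 1 (qsf 0 536870912 0 536870912 1) ndB1q0 ndB2q0 pcB1 Cut.none Ext.none)

def k0_pp_001 : ∃ t, chk3 f_pp_001 t 1 1 1 = true :=
  ⟨(l 4), by decide +kernel⟩

theorem c_pp_001 : CertB 0 536870912 0 536870912 649613803 48318383 3 eng mog cd1q0 cd2q0 pd1 true true true .up 0 0 1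
    ndB1q0 ndB2q0 pcB1 Cut.none Ext.none :=
  certB0 (fam := true) (s1 := true) (s2 := true) (a := 0) (b := 0) (c := 1) (cn := .up) (n1 := ndB1q0) (n2 := ndB2q0) (pc := pcB1) (cut := Cut.none) (xt := Ext.none) (P1 := 0) (W1 := 536870912) (P2 := 0) (W2 := 536870912) (P3 := 649613803) (W3 := 48318383) (N0 := 3) (En := eng) (mo := mog) (C1 := cd1q0) (C2 := cd2q0) (C3 := pd1)
    rfl k0_pp_001

noncomputable def f_pp_011 : ℕ → ℕ → ℕ → ℕ → Bool := onCell 0 536870912 536870912 536870912 649613803 48318383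
    (rowB 3 eng mog cd1q0 cd2q1 pd1 0 true true true .pnn 0 1 1 (qsf 0 536870912 536870912 536870912 1) ndB1q0 ndB2q1 pcB1 Cut.none Ext.none)

def k0_pp_011 : ∃ t, chk3 f_pp_011 t 1 1 1 = true :=
  ⟨(l 4), by decide +kernel⟩

theorem c_pp_011 : CertB 0 536870912 536870912 536870912 649613803 48318383 3 eng mog cd1q0 cd2q1 pd1 true true true .pnn 0 1 1
    ndB1q0 ndB2q1 pcB1 Cut.none Ext.none :=
  certB0 (fam := true) (s1 := true) (s2 := true) (a := 0) (b := 1) (c := 1) (cn := .pnn) (n1 := ndB1q0) (n2 := ndB2q1) (pc := pcB1) (cut := Cut.none) (xt := Ext.none) (P1 := 0) (W1 := 536870912) (P2 := 536870912) (W2 := 536870912) (P3 := 649613803) (W3 := 48318383) (N0 := 3) (En := eng) (mo := mog) (C1 := cd1q0) (C2 := cd2q1) (C3 := pd1)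
    rfl k0_pp_011

noncomputable def f_pp_012 : ℕ → ℕ → ℕ → ℕ → Bool := onCell 0 536870912 536870912 536870912 649613803 48318383
    (rowB 3 eng mog cd1q0 cd2q1 pd2 0 true true true .pnp 0 1 2 (qsf 0 536870912 536870912 536870912 2) ndB1q0 ndB2q1 pcB2 Cut.none Ext.none)

def k0_pp_012 : ∃ t, chk3 f_pp_012 t 1 1 1 = true :=
  ⟨(l 4), by decide +kernel⟩

theorem c_pp_012 : CertB 0 536870912 536870912 536870912 649613803 48318383 3 eng mog cd1q0 cd2q1 pd2 true true true .pnp 0 1 2
    ndB1q0 ndB2q1 pcB2 Cut.none Ext.none :=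
  certB0 (fam := true) (s1 := true) (s2 := true) (a := 0) (b := 1) (c := 2) (cn := .pnp) (n1 := ndB1q0) (n2 := ndB2q1) (pc := pcB2) (cut := Cut.none) (xt := Ext.none) (P1 := 0) (W1 := 536870912) (P2 := 536870912) (W2 := 536870912) (P3 := 649613803) (W3 := 48318383) (N0 := 3) (En := eng) (mo := mog) (C1 := cd1q0) (C2 := cd2q1) (C3 := pd2)
    rfl k0_pp_012

noncomputable def cut_pp_022_a : Cut := Cut.of [[⟨0, 0, 0, 67108864⟩, ⟨1, 1, 0, 67108864⟩, ⟨2, 1, 0, 67108864⟩]]

noncomputable def f_pp_022_a : ℕ → ℕ → ℕ → ℕ → Bool := onCell 0 536870912 0 536870912 649613803 48318383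
    (rowB 3 eng mog cd1q0 cd2q2a pd2 0 true true true .pp 0 2 2 (qsf 0 536870912 0 536870912 2) ndB1q0 ndB2q2a pcB2 cut_pp_022_a Ext.none)

def k0_pp_022_a : ∃ t, chk3 f_pp_022_a t 2 2 1 = true :=
  ⟨(a (b (a (a (b (a (b (l 16444256) (l 16447112)) (a (l 16472144) (l 16457520))) (a (b (b (l 16450592) (l 16453720)) (l 16459496)) (b (a (l 16457288) (l 16463496)) (a (l 16464448) (l 16469944))))) (b (a (l 16466512) (l 16477376)) (a (b (l 16472936) (l 16479752)) (l 16488312)))) (b (a (l 16512392) (l 16507288)) (a (l 16546112) (l 16522360)))) (a (a (b (a (b (l 16490072) (a (l 16480480) (l 16484008))) (b (a (l 16474320) (l 16499904)) (a (l 16487872) (l 16513072)))) (a (b (a (l 16507184) (l 16500520)) (b (a (l 16510760) (l 16514808)) (a (l 16521104) (l 16525288)))) (b (b (l 16502232) (l 16511472)) (a (l 16545480) (l 16550224))))) (b (a (b (l 16488624) (a (b (l 16493896) (l 16501128)) (l 16504264))) (b (l 16501352) (l 16514176))) (a (b (a (b (l 16509304) (l 16518608))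 (b (l 16515552) (l 16524312))) (a (l 16534280) (b (l 16534168) (l 16545056)))) (b (l 16551176) (b (l 16565136) (a (l 16572040) (l 16558000))))))) (a (b (b (l 16518760) (a (l 16526656) (l 16538376))) (b (a (l 16564312) (l 16555784)) (a (l 16584056) (l 16576216)))) (b (b (l 16539256) (l 16554728)) (b (l 16620520) (a (l 16588784) (l 16600944))))))) (a (b (b (a (l 16530912) (l 16599808)) (a (l 16546576) (l 16657920))) (a (b (b (l 16563552) (l 16580304)) (b (l 16600144) (l 16643848))) (b (a (l 16593432) (l 16670608)) (b (l 16630272) (a (l 16646136) (l 16661768)))))) (b (a (b (l 16587032) (l 16603408)) (b (l 16617344) (l 16655328))) (a (a (b (l 16684432) (b (l 16652760) (b (l 16670800) (l 16683456)))) (b (l 16635024) (b (l 16667120) (c (l 16734216) (l 16733136))))) (b (a (l 16671440) (l 29225825271)) (b (a (l 16701408) (l 4)) (l 4))))))), by decide +kernel⟩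

def k1_pp_022_a : ∃ t, chk3 f_pp_022_a t 4 6 1 = true :=
  ⟨(a (a (b (b (a (b (l 16534304) (l 16546208)) (b (l 16554064) (l 16555744))) (a (b (l 16558840) (l 16572216)) (b (l 16568640) (l 16582264)))) (a (b (a (l 16589096) (l 16596296)) (a (b (l 16607168) (l 16599392)) (l 16643504))) (b (b (l 16596632) (l 16611768)) (b (l 16627608) (l 16641920))))) (b (a (b (b (l 16554024) (l 16566448)) (a (l 16583688) (l 16589488))) (b (a (b (l 16562576) (l 16575136)) (b (l 16569168) (l 16602352))) (b (a (l 16588472) (l 16594656)) (l 16626640)))) (a (b (b (l 16608088) (l 16623464)) (b (l 16639552) (l 16656160))) (b (b (l 16620536) (l 16636168)) (b (l 16652504) (l 16669352)))))) (b (a (b (a (b (l 16579744) (l 16591912)) (l 16599624)) (a (a (a (l 16619768) (l 16620576)) (l 16625920)) (l 16626168))) (a (b (l 16612904) (l 16640112)) (b (l 16625840) (l 16653752)))) (a (a (b (b (a (l 16630416) (l 16637272)) (l 16649680)) (a (l 16692280) (l 16699408))) (a (b (b (l 16644480) (l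 16660304)) (l 16722416)) (b (l 16659696) (b (l 16684400) (l 16701904))))) (a (b (l 16670552) (b (l 16695648) (a (l 16730664) (l 4)))) (b (l 16732120) (b (l 16730944) (l 4))))))), by decide +kernel⟩

def k2_pp_022_a : ∃ t, chk3 f_pp_022_a t 4 7 1 = true :=
  ⟨(a (b (a (a (a (b (b (l 16655232) (b (l 16645104) (l 16652872))) (b (c (l 16687840) (l 16680592)) (l 6))) (b (b (l 16611992) (b (l 16654544) (l 16662448))) (b (c (l 16697376) (l 16695736)) (b (l 16710216) (l 6))))) (b (b (a (l 16652312) (l 16660856)) (a (l 16667696) (l 16676560))) (b (a (b (l 16680464) (a (l 16687160) (l 16691800))) (l 16694072)) (b (a (a (l 16696416) (l 16701104)) (l 16707992)) (a (b (l 16684928) (l 16689768)) (l 16717624)))))) (b (a (b (l 16673160) (a (l 16685120) (l 16693400))) (b (l 16686928) (a (l 16701424) (l 16708688)))) (b (a (a (l 16702848) (l 16711320)) (a (l 16719056) (l 16747568))) (a (a (b (l 16716904) (l 16726624)) (b (l 16725192) (l 16734240))) (a (a (l 16745848) (l 16749944))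 (l 4)))))) (a (b (a (l 6) (b (a (l 6) (b (l 16727528) (l 16748208))) (l 6))) (l 6)) (b (a (b (a (b (l 16736376) (a (l 16743960) (l 16747872))) (b (l 16754456) (l 4))) (b (a (a (l 16754032) (l 4)) (l 4)) (l 4))) (l 4)) (l 4)))) (b (a (b (a (b (l 16722208) (b (l 16715256) (l 16745464))) (b (a (l 16712656) (l 16720328)) (l 4))) (a (b (a (l 16744656) (l 4)) (l 4)) (l 4))) (l 4)) (l 4))), by decide +kernel⟩

def k3_pp_022_a : ∃ t, chk3 f_pp_022_a t 5 3 1 = true :=
  ⟨(b (a (b (a (b (a (l 16640552) (l 16656240)) (a (l 16668800) (l 16705792))) (b (a (l 16672200) (l 16709104)) (a (l 39963243767) (l 4)))) (a (b (a (l 16747632) (l 4)) (l 4)) (l 4))) (l 4)) (l 4)), by decide +kernel⟩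

def k4_pp_022_a : ∃ t, chk3 f_pp_022_a t 3 1 1 = true :=
  ⟨(b (b (a (a (a (b (l 16690192) (l 16709056)) (b (l 16677736) (a (l 16688696) (l 16724744)))) (a (b (l 16725840) (a (l 39963300455) (l 45332001063))) (b (l 16813112) (l 4)))) (l 2)) (a (a (b (a (b (a (l 16674048) (l 16690328)) (b (l 37278958071) (l 4))) (b (a (l 16707064) (l 4)) (l 4))) (l 4)) (l 4)) (l 4))) (l 4)), by decide +kernel⟩

theorem s5_pp_022_a : ∃ t, chk3 f_pp_022_a t 4 3 1 = true := ex3_b k1_pp_022_a k2_pp_022_a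

theorem s6_pp_022_a : ∃ t, chk3 f_pp_022_a t 2 3 1 = true := ex3_a s5_pp_022_a k3_pp_022_a

theorem s7_pp_022_a : ∃ t, chk3 f_pp_022_a t 2 1 1 = true := ex3_b k0_pp_022_a s6_pp_022_a

theorem s8_pp_022_a : ∃ t, chk3 f_pp_022_a t 1 1 1 = true := ex3_a s7_pp_022_a k4_pp_022_a

theorem c_pp_022_a : CertB 0 536870912 0 536870912 649613803 48318383 3 eng mog cd1q0 cd2q2a pd2 true true true .pp 0 2 2
    ndB1q0 ndB2q2a pcB2 cut_pp_022_a Ext.none :=
  certB0 (fam := true) (s1 := true) (s2 := true) (a := 0) (b := 2) (c := 2) (cn := .pp) (n1 := ndB1q0) (n2 := ndB2q2a) (pc := pcB2) (cut := cut_pp_022_a) (xt := Ext.none) (P1 := 0) (W1 := 536870912) (P2 := 0) (W2 := 536870912) (P3 := 649613803) (W3 := 48318383) (N0 := 3) (En := eng) (mo := mog) (C1 := cd1q0) (C2 := cd2q2a) (C3 := pd2)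
    rfl s8_pp_022_a

noncomputable def cut_pp_022_b : Cut := Cut.of [[⟨0, 0, 0, 67108864⟩, ⟨1, 1, 0, 67108864⟩, ⟨2, 1, 0, 67108864⟩]]

noncomputable def f_pp_022_b : ℕ → ℕ → ℕ → ℕ → Bool := onCell 1073741824 536870912 1239849684 370763052 649613803 48318383
    (rowB 3 eng mog cd1q0 cd2q2b pd2 2 true true true .pp 0 2 2 (qsf 0 536870912 1239849684 370763052 2) ndB1q0 ndB2q2b pcB2 cut_pp_022_b Ext.none)

def k0_pp_022_b : ∃ t, chk3 f_pp_022_b t 1 1 1 = true :=
  ⟨(a (b (a (l 1) (a (b (b (a (a (l 1) (b (l 16446336) (l 1))) (a (b (a (l 16405864) (b (l 16431472) (l 16404640))) (l 1)) (b (l 16426424) (l 16372616)))) (l 1)) (l 1)) (b (b (a (b (l 16464376) (l 16410288)) (b (l 16460800) (l 16405784))) (a (b (l 16356128) (l 1)) (b (l 16350632) (l 16295416)))) (a (l 1) (b (l 16254784) (l 1)))))) (l 1)) (b (a (a (b (b (a (a (l 16444544) (l 16453200)) (b (l 16497928) (l 16440968))) (a (a (l 16334816) (l 16343848)) (l 16358920))) (a (b (b (l 16256784) (l 16201856)) (l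 1)) (b (b (l 16277144) (l 16222632)) (a (l 16135352) (l 16147000))))) (b (a (b (a (l 16489264) (l 16504224)) (a (l 16375752) (b (l 16417232) (l 16361168)))) (b (l 16528272) (a (l 16406368) (l 16424616)))) (a (b (a (l 16267488) (l 16280824)) (a (l 16159576) (l 16173840))) (b (a (l 16296048) (l 16312592)) (l 16199096))))) (a (b (a (b (b (l 16586352) (l 16534168)) (l 16453168)) (b (l 16677008) (l 16490584))) (b (a (l 16341512) (l 16383064)) (a (l 16235224) (l 16275344)))) (b (a (b (l 16687944) (l 16527376)) (b (l 16654800) (l 16562688))) (a (b (l 16424944) (l 16319440)) (b (l 16464448) (l 16363976)))))) (a (b (a (l 1) (a (b (a (l 16051584) (l 16066584)) (l 1)) (b (l 16093720) (l 15988440)))) (l 1)) (a (b (a (b (l 16132960) (l 16030296)) (l 16166736)) (a (l 1) (l 15927312))) (b (a (l 16231200) (l 16317272)) (a (l 15976312) (l 16023144))))))), by decide +kernel⟩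

theorem c_pp_022_b : CertB 0 536870912 1239849684 370763052 649613803 48318383 3 eng mog cd1q0 cd2q2b pd2 true true true .pp 0 2 2
    ndB1q0 ndB2q2b pcB2 cut_pp_022_b Ext.none :=
  certB2 (fam := true) (s1 := true) (s2 := true) (a := 0) (b := 2) (c := 2) (cn := .pp) (n1 := ndB1q0) (n2 := ndB2q2b) (pc := pcB2) (cut := cut_pp_022_b) (xt := Ext.none) (P1 := 0) (W1 := 536870912) (P2 := 1239849684) (W2 := 370763052) (P3 := 649613803) (W3 := 48318383) (N0 := 3) (En := eng) (mo := mog) (C1 := cd1q0) (C2 := cd2q2b) (C3 := pd2)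
    rfl (fun _ => rfl) k0_pp_022_b

noncomputable def f_pp_023_a : ℕ → ℕ → ℕ → ℕ → Bool := onCell 1610612736 536870912 0 536870912 649613803 48318383
    (rowB 3 eng mog cd1q0 cd2q2a pd3 2 true true true .up 0 2 3 (qsf 0 536870912 0 536870912 3) ndB1q0 ndB2q2a pcB3 Cut.none Ext.none)

def k0_pp_023_a : ∃ t, chk3 f_pp_023_a t 1 1 1 = true :=
  ⟨(a (a (b (a (b (b (a (l 16751168) (l 16793744)) (l 4)) (l 4)) (l 4)) (l 4)) (l 4)) (l 2)), by decide +kernel⟩

theorem c_pp_023_a : CertB 0 536870912 0 536870912 649613803 48318383 3 eng mog cd1q0 cd2q2a pd3 true true true .up 0 2 3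
    ndB1q0 ndB2q2a pcB3 Cut.none Ext.none :=
  certB2 (fam := true) (s1 := true) (s2 := true) (a := 0) (b := 2) (c := 3) (cn := .up) (n1 := ndB1q0) (n2 := ndB2q2a) (pc := pcB3) (cut := Cut.none) (xt := Ext.none) (P1 := 0) (W1 := 536870912) (P2 := 0) (W2 := 536870912) (P3 := 649613803) (W3 := 48318383) (N0 := 3) (En := eng) (mo := mog) (C1 := cd1q0) (C2 := cd2q2a) (C3 := pd3)
    rfl (fun _ => rfl) k0_pp_023_a

noncomputable def f_pp_023_b : ℕ → ℕ → ℕ → ℕ → Bool := onCell 1610612736 536870912 1239849684 370763052 649613803 48318383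
    (rowB 3 eng mog cd1q0 cd2q2b pd3 2 true true true .up 0 2 3 (qsf 0 536870912 1239849684 370763052 3) ndB1q0 ndB2q2b pcB3 Cut.none Ext.none)

def k0_pp_023_b : ∃ t, chk3 f_pp_023_b t 1 1 1 = true :=
  ⟨(a (a (b (a (b (a (b (l 16679440) (l 16593624)) (b (l 16742352) (l 16623016))) (a (l 16578664) (l 16512536))) (l 4)) (a (b (a (l 16253480) (l 4)) (a (l 16061712) (l 16105800))) (l 4))) (l 4)) (l 4)), by decide +kernel⟩

theorem c_pp_023_b : CertB 0 536870912 1239849684 370763052 649613803 48318383 3 eng mog cd1q0 cd2q2b pd3 true true true .up 0 2 3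
    ndB1q0 ndB2q2b pcB3 Cut.none Ext.none :=
  certB2 (fam := true) (s1 := true) (s2 := true) (a := 0) (b := 2) (c := 3) (cn := .up) (n1 := ndB1q0) (n2 := ndB2q2b) (pc := pcB3) (cut := Cut.none) (xt := Ext.none) (P1 := 0) (W1 := 536870912) (P2 := 1239849684) (W2 := 370763052) (P3 := 649613803) (W3 := 48318383) (N0 := 3) (En := eng) (mo := mog) (C1 := cd1q0) (C2 := cd2q2b) (C3 := pd3)
    rfl (fun _ => rfl) k0_pp_023_b

noncomputable def f_pp_033 : ℕ → ℕ → ℕ → ℕ → Bool := onCell 0 536870912 1610612736 536870912 649613803 48318383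
    (rowB 3 eng mog cd1q0 cd2q3 pd3 1 true true true .pnn 0 3 3 (qsf 0 536870912 1610612736 536870912 3) ndB1q0 ndB2q3 pcB3 Cut.none Ext.none)

def k0_pp_033 : ∃ t, chk3 f_pp_033 t 1 1 1 = true :=
  ⟨(b (b (a (b (a (b (l 16189744) (l 16096176)) (l 1)) (l 4)) (l 1)) (l 4)) (l 4)), by decide +kernel⟩

theorem c_pp_033 : CertB 0 536870912 1610612736 536870912 649613803 48318383 3 eng mog cd1q0 cd2q3 pd3 true true true .pnn 0 3 3
    ndB1q0 ndB2q3 pcB3 Cut.none Ext.none :=
  certB1 (fam := true) (s1 := true) (s2 := true) (a := 0) (b := 3) (c := 3) (cn := .pnn) (n1 := ndB1q0) (n2 := ndB2q3) (pc := pcB3) (cut := Cut.none) (xt := Ext.none) (P1 := 0) (W1 := 536870912) (P2 := 1610612736) (W2 := 536870912) (P3 := 649613803) (W3 := 48318383) (N0 := 3) (En := eng) (mo := mog) (C1 := cd1q0) (C2 := cd2q3) (C3 := pd3)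
    rfl (fun _ => rfl) k0_pp_033

noncomputable def f_pp_101 : ℕ → ℕ → ℕ → ℕ → Bool := onCell 536870912 536870912 0 536870912 649613803 48318383
    (rowB 3 eng mog cd1q1 cd2q0 pd1 0 true true true .npn 1 0 1 (qsf 536870912 536870912 0 536870912 1) ndB1q1 ndB2q0 pcB1 Cut.none Ext.none)

def k0_pp_101 : ∃ t, chk3 f_pp_101 t 1 1 1 = true :=
  ⟨(l 4), by decide +kernel⟩

theorem c_pp_101 : CertB 536870912 536870912 0 536870912 649613803 48318383 3 eng mog cd1q1 cd2q0 pd1 true true true .npn 1 0 1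
    ndB1q1 ndB2q0 pcB1 Cut.none Ext.none :=
  certB0 (fam := true) (s1 := true) (s2 := true) (a := 1) (b := 0) (c := 1) (cn := .npn) (n1 := ndB1q1) (n2 := ndB2q0) (pc := pcB1) (cut := Cut.none) (xt := Ext.none) (P1 := 536870912) (W1 := 536870912) (P2 := 0) (W2 := 536870912) (P3 := 649613803) (W3 := 48318383) (N0 := 3) (En := eng) (mo := mog) (C1 := cd1q1) (C2 := cd2q0) (C3 := pd1)
    rfl k0_pp_101

noncomputable def f_pp_102 : ℕ → ℕ → ℕ → ℕ → Bool := onCell 536870912 536870912 0 536870912 649613803 48318383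
    (rowB 3 eng mog cd1q1 cd2q0 pd2 0 true true true .npp 1 0 2 (qsf 536870912 536870912 0 536870912 2) ndB1q1 ndB2q0 pcB2 Cut.none Ext.none)

def k0_pp_102 : ∃ t, chk3 f_pp_102 t 1 1 1 = true :=
  ⟨(l 4), by decide +kernel⟩

theorem c_pp_102 : CertB 536870912 536870912 0 536870912 649613803 48318383 3 eng mog cd1q1 cd2q0 pd2 true true true .npp 1 0 2
    ndB1q1 ndB2q0 pcB2 Cut.none Ext.none :=
  certB0 (fam := true) (s1 := true) (s2 := true) (a := 1) (b := 0) (c := 2) (cn := .npp) (n1 := ndB1q1) (n2 := ndB2q0) (pc := pcB2) (cut := Cut.none) (xt := Ext.none) (P1 := 536870912) (W1 := 536870912) (P2 := 0) (W2 := 536870912) (P3 := 649613803) (W3 := 48318383) (N0 := 3) (En := eng) (mo := mog) (C1 := cd1q1) (C2 := cd2q0) (C3 := pd2)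
    rfl k0_pp_102

noncomputable def f_pp_112 : ℕ → ℕ → ℕ → ℕ → Bool := onCell 536870912 536870912 536870912 536870912 649613803 48318383
    (rowB 3 eng mog cd1q1 cd2q1 pd2 0 true true true .dn 1 1 2 (qsf 536870912 536870912 536870912 536870912 2) ndB1q1 ndB2q1 pcB2 Cut.none Ext.none)

def k0_pp_112 : ∃ t, chk3 f_pp_112 t 1 1 1 = true :=
  ⟨(l 4), by decide +kernel⟩

theorem c_pp_112 : CertB 536870912 536870912 536870912 536870912 649613803 48318383 3 eng mog cd1q1 cd2q1 pd2 true true true .dn 1 1 2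
    ndB1q1 ndB2q1 pcB2 Cut.none Ext.none :=
  certB0 (fam := true) (s1 := true) (s2 := true) (a := 1) (b := 1) (c := 2) (cn := .dn) (n1 := ndB1q1) (n2 := ndB2q1) (pc := pcB2) (cut := Cut.none) (xt := Ext.none) (P1 := 536870912) (W1 := 536870912) (P2 := 536870912) (W2 := 536870912) (P3 := 649613803) (W3 := 48318383) (N0 := 3) (En := eng) (mo := mog) (C1 := cd1q1) (C2 := cd2q1) (C3 := pd2)
    rfl k0_pp_112

noncomputable def f_pp_113 : ℕ → ℕ → ℕ → ℕ → Bool := onCell 536870912 536870912 536870912 536870912 649613803 48318383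
    (rowB 3 eng mog cd1q1 cd2q1 pd3 0 true true true .nn 1 1 3 (qsf 536870912 536870912 536870912 536870912 3) ndB1q1 ndB2q1 pcB3 Cut.none Ext.none)

def k0_pp_113 : ∃ t, chk3 f_pp_113 t 1 1 1 = true :=
  ⟨(l 4), by decide +kernel⟩

theorem c_pp_113 : CertB 536870912 536870912 536870912 536870912 649613803 48318383 3 eng mog cd1q1 cd2q1 pd3 true true true .nn 1 1 3
    ndB1q1 ndB2q1 pcB3 Cut.none Ext.none :=
  certB0 (fam := true) (s1 := true) (s2 := true) (a := 1) (b := 1) (c := 3) (cn := .nn) (n1 := ndB1q1) (n2 := ndB2q1) (pc := pcB3) (cut := Cut.none) (xt := Ext.none) (P1 := 536870912) (W1 := 536870912) (P2 := 536870912) (W2 := 536870912) (P3 := 649613803) (W3 := 48318383) (N0 := 3) (En := eng) (mo := mog) (C1 := cd1q1) (C2 := cd2q1) (C3 := pd3)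
    rfl k0_pp_113

noncomputable def f_pp_123_a : ℕ → ℕ → ℕ → ℕ → Bool := onCell 536870912 536870912 0 536870912 649613803 48318383
    (rowB 3 eng mog cd1q1 cd2q2a pd3 0 true true true .npn 1 2 3 (qsf 536870912 536870912 0 536870912 3) ndB1q1 ndB2q2a pcB3 Cut.none Ext.none)

def k0_pp_123_a : ∃ t, chk3 f_pp_123_a t 1 1 1 = true :=
  ⟨(a (l 4) (l 4)), by decide +kernel⟩

theorem c_pp_123_a : CertB 536870912 536870912 0 536870912 649613803 48318383 3 eng mog cd1q1 cd2q2a pd3 true true true .npn 1 2 3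
    ndB1q1 ndB2q2a pcB3 Cut.none Ext.none :=
  certB0 (fam := true) (s1 := true) (s2 := true) (a := 1) (b := 2) (c := 3) (cn := .npn) (n1 := ndB1q1) (n2 := ndB2q2a) (pc := pcB3) (cut := Cut.none) (xt := Ext.none) (P1 := 536870912) (W1 := 536870912) (P2 := 0) (W2 := 536870912) (P3 := 649613803) (W3 := 48318383) (N0 := 3) (En := eng) (mo := mog) (C1 := cd1q1) (C2 := cd2q2a) (C3 := pd3)
    rfl k0_pp_123_a

noncomputable def f_pp_123_b : ℕ → ℕ → ℕ → ℕ → Bool := onCell 536870912 536870912 1239849684 370763052 649613803 48318383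
    (rowB 3 eng mog cd1q1 cd2q2b pd3 0 true true true .npn 1 2 3 (qsf 536870912 536870912 1239849684 370763052 3) ndB1q1 ndB2q2b pcB3 Cut.none Ext.none)

def k0_pp_123_b : ∃ t, chk3 f_pp_123_b t 1 1 1 = true :=
  ⟨(a (l 4) (l 4)), by decide +kernel⟩

theorem c_pp_123_b : CertB 536870912 536870912 1239849684 370763052 649613803 48318383 3 eng mog cd1q1 cd2q2b pd3 true true true .npn 1 2 3
    ndB1q1 ndB2q2b pcB3 Cut.none Ext.none :=
  certB0 (fam := true) (s1 := true) (s2 := true) (a := 1) (b := 2) (c := 3) (cn := .npn) (n1 := ndB1q1) (n2 := ndB2q2b) (pc := pcB3) (cut := Cut.none) (xt := Ext.none) (P1 := 536870912) (W1 := 536870912) (P2 := 1239849684) (W2 := 370763052) (P3 := 649613803) (W3 := 48318383) (N0 := 3) (En := eng) (mo := mog) (C1 := cd1q1) (C2 := cd2q2b) (C3 := pd3)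
    rfl k0_pp_123_b

noncomputable def f_pp_133 : ℕ → ℕ → ℕ → ℕ → Bool := onCell 536870912 536870912 1610612736 536870912 649613803 48318383
    (rowB 3 eng mog cd1q1 cd2q3 pd3 0 true true true .dn 1 3 3 (qsf 536870912 536870912 1610612736 536870912 3) ndB1q1 ndB2q3 pcB3 Cut.none Ext.none)

def k0_pp_133 : ∃ t, chk3 f_pp_133 t 1 1 1 = true :=
  ⟨(l 4), by decide +kernel⟩

theorem c_pp_133 : CertB 536870912 536870912 1610612736 536870912 649613803 48318383 3 eng mog cd1q1 cd2q3 pd3 true true true .dn 1 3 3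
    ndB1q1 ndB2q3 pcB3 Cut.none Ext.none :=
  certB0 (fam := true) (s1 := true) (s2 := true) (a := 1) (b := 3) (c := 3) (cn := .dn) (n1 := ndB1q1) (n2 := ndB2q3) (pc := pcB3) (cut := Cut.none) (xt := Ext.none) (P1 := 536870912) (W1 := 536870912) (P2 := 1610612736) (W2 := 536870912) (P3 := 649613803) (W3 := 48318383) (N0 := 3) (En := eng) (mo := mog) (C1 := cd1q1) (C2 := cd2q3) (C3 := pd3)
    rfl k0_pp_133

noncomputable def f_pp_202_a : ℕ → ℕ → ℕ → ℕ → Bool := onCell 0 536870912 0 536870912 649613803 48318383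
    (rowB 3 eng mog cd1q2a cd2q0 pd2 0 true true true .pp 2 0 2 (qsf 0 536870912 0 536870912 2) ndB1q2a ndB2q0 pcB2 Cut.none Ext.none)

def k0_pp_202_a : ∃ t, chk3 f_pp_202_a t 1 1 1 = true :=
  ⟨(l 5), by decide +kernel⟩

theorem c_pp_202_a : CertB 0 536870912 0 536870912 649613803 48318383 3 eng mog cd1q2a cd2q0 pd2 true true true .pp 2 0 2
    ndB1q2a ndB2q0 pcB2 Cut.none Ext.none :=
  certB0 (fam := true) (s1 := true) (s2 := true) (a := 2) (b := 0) (c := 2) (cn := .pp) (n1 := ndB1q2a) (n2 := ndB2q0) (pc := pcB2) (cut := Cut.none) (xt := Ext.none) (P1 := 0) (W1 := 536870912) (P2 := 0) (W2 := 536870912) (P3 := 649613803) (W3 := 48318383) (N0 := 3) (En := eng) (mo := mog) (C1 := cd1q2a) (C2 := cd2q0) (C3 := pd2)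
    rfl k0_pp_202_a

noncomputable def f_pp_202_b : ℕ → ℕ → ℕ → ℕ → Bool := onCell 1239849684 370763052 0 536870912 649613803 48318383
    (rowB 3 eng mog cd1q2b cd2q0 pd2 0 true true true .pp 2 0 2 (qsf 1239849684 370763052 0 536870912 2) ndB1q2b ndB2q0 pcB2 Cut.none Ext.none)

def k0_pp_202_b : ∃ t, chk3 f_pp_202_b t 1 1 1 = true :=
  ⟨(l 5), by decide +kernel⟩

theorem c_pp_202_b : CertB 1239849684 370763052 0 536870912 649613803 48318383 3 eng mog cd1q2b cd2q0 pd2 true true true .pp 2 0 2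
    ndB1q2b ndB2q0 pcB2 Cut.none Ext.none :=
  certB0 (fam := true) (s1 := true) (s2 := true) (a := 2) (b := 0) (c := 2) (cn := .pp) (n1 := ndB1q2b) (n2 := ndB2q0) (pc := pcB2) (cut := Cut.none) (xt := Ext.none) (P1 := 1239849684) (W1 := 370763052) (P2 := 0) (W2 := 536870912) (P3 := 649613803) (W3 := 48318383) (N0 := 3) (En := eng) (mo := mog) (C1 := cd1q2b) (C2 := cd2q0) (C3 := pd2)
    rfl k0_pp_202_b

noncomputable def f_pp_203_a : ℕ → ℕ → ℕ → ℕ → Bool := onCell 0 536870912 0 536870912 649613803 48318383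
    (rowB 3 eng mog cd1q2a cd2q0 pd3 0 true true true .up 2 0 3 (qsf 0 536870912 0 536870912 3) ndB1q2a ndB2q0 pcB3 Cut.none Ext.none)

def k0_pp_203_a : ∃ t, chk3 f_pp_203_a t 1 1 1 = true :=
  ⟨(l 5), by decide +kernel⟩

theorem c_pp_203_a : CertB 0 536870912 0 536870912 649613803 48318383 3 eng mog cd1q2a cd2q0 pd3 true true true .up 2 0 3
    ndB1q2a ndB2q0 pcB3 Cut.none Ext.none :=
  certB0 (fam := true) (s1 := true) (s2 := true) (a := 2) (b := 0) (c := 3) (cn := .up) (n1 := ndB1q2a) (n2 := ndB2q0) (pc := pcB3) (cut := Cut.none) (xt := Ext.none) (P1 := 0) (W1 := 536870912) (P2 := 0) (W2 := 536870912) (P3 := 649613803) (W3 := 48318383) (N0 := 3) (En := eng) (mo := mog) (C1 := cd1q2a) (C2 := cd2q0) (C3 := pd3)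
    rfl k0_pp_203_a

noncomputable def f_pp_203_b : ℕ → ℕ → ℕ → ℕ → Bool := onCell 1239849684 370763052 0 536870912 649613803 48318383
    (rowB 3 eng mog cd1q2b cd2q0 pd3 0 true true true .up 2 0 3 (qsf 1239849684 370763052 0 536870912 3) ndB1q2b ndB2q0 pcB3 Cut.none Ext.none)

def k0_pp_203_b : ∃ t, chk3 f_pp_203_b t 1 1 1 = true :=
  ⟨(l 5), by decide +kernel⟩

theorem c_pp_203_b : CertB 1239849684 370763052 0 536870912 649613803 48318383 3 eng mog cd1q2b cd2q0 pd3 true true true .up 2 0 3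
    ndB1q2b ndB2q0 pcB3 Cut.none Ext.none :=
  certB0 (fam := true) (s1 := true) (s2 := true) (a := 2) (b := 0) (c := 3) (cn := .up) (n1 := ndB1q2b) (n2 := ndB2q0) (pc := pcB3) (cut := Cut.none) (xt := Ext.none) (P1 := 1239849684) (W1 := 370763052) (P2 := 0) (W2 := 536870912) (P3 := 649613803) (W3 := 48318383) (N0 := 3) (En := eng) (mo := mog) (C1 := cd1q2b) (C2 := cd2q0) (C3 := pd3)
    rfl k0_pp_203_b

noncomputable def f_pp_213_a : ℕ → ℕ → ℕ → ℕ → Bool := onCell 0 536870912 536870912 536870912 649613803 48318383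
    (rowB 3 eng mog cd1q2a cd2q1 pd3 0 true true true .pnn 2 1 3 (qsf 0 536870912 536870912 536870912 3) ndB1q2a ndB2q1 pcB3 Cut.none Ext.none)

def k0_pp_213_a : ∃ t, chk3 f_pp_213_a t 1 1 1 = true :=
  ⟨(l 5), by decide +kernel⟩

theorem c_pp_213_a : CertB 0 536870912 536870912 536870912 649613803 48318383 3 eng mog cd1q2a cd2q1 pd3 true true true .pnn 2 1 3
    ndB1q2a ndB2q1 pcB3 Cut.none Ext.none :=
  certB0 (fam := true) (s1 := true) (s2 := true) (a := 2) (b := 1) (c := 3) (cn := .pnn) (n1 := ndB1q2a) (n2 := ndB2q1) (pc := pcB3) (cut := Cut.none) (xt := Ext.none) (P1 := 0) (W1 := 536870912) (P2 := 536870912) (W2 := 536870912) (P3 := 649613803) (W3 := 48318383) (N0 := 3) (En := eng) (mo := mog) (C1 := cd1q2a) (C2 := cd2q1) (C3 := pd3)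
    rfl k0_pp_213_a

noncomputable def f_pp_213_b : ℕ → ℕ → ℕ → ℕ → Bool := onCell 1239849684 370763052 536870912 536870912 649613803 48318383
    (rowB 3 eng mog cd1q2b cd2q1 pd3 0 true true true .pnn 2 1 3 (qsf 1239849684 370763052 536870912 536870912 3) ndB1q2b ndB2q1 pcB3 Cut.none Ext.none)

def k0_pp_213_b : ∃ t, chk3 f_pp_213_b t 1 1 1 = true :=
  ⟨(l 5), by decide +kernel⟩

theorem c_pp_213_b : CertB 1239849684 370763052 536870912 536870912 649613803 48318383 3 eng mog cd1q2b cd2q1 pd3 true true true .pnn 2 1 3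
    ndB1q2b ndB2q1 pcB3 Cut.none Ext.none :=
  certB0 (fam := true) (s1 := true) (s2 := true) (a := 2) (b := 1) (c := 3) (cn := .pnn) (n1 := ndB1q2b) (n2 := ndB2q1) (pc := pcB3) (cut := Cut.none) (xt := Ext.none) (P1 := 1239849684) (W1 := 370763052) (P2 := 536870912) (W2 := 536870912) (P3 := 649613803) (W3 := 48318383) (N0 := 3) (En := eng) (mo := mog) (C1 := cd1q2b) (C2 := cd2q1) (C3 := pd3)
    rfl k0_pp_213_b

noncomputable def f_pp_303 : ℕ → ℕ → ℕ → ℕ → Bool := onCell 1610612736 536870912 0 536870912 649613803 48318383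
    (rowB 3 eng mog cd1q3 cd2q0 pd3 0 true true true .npn 3 0 3 (qsf 1610612736 536870912 0 536870912 3) ndB1q3 ndB2q0 pcB3 Cut.none Ext.none)

def k0_pp_303 : ∃ t, chk3 f_pp_303 t 1 1 1 = true :=
  ⟨(l 5), by decide +kernel⟩

theorem c_pp_303 : CertB 1610612736 536870912 0 536870912 649613803 48318383 3 eng mog cd1q3 cd2q0 pd3 true true true .npn 3 0 3
    ndB1q3 ndB2q0 pcB3 Cut.none Ext.none :=
  certB0 (fam := true) (s1 := true) (s2 := true) (a := 3) (b := 0) (c := 3) (cn := .npn) (n1 := ndB1q3) (n2 := ndB2q0) (pc := pcB3) (cut := Cut.none) (xt := Ext.none) (P1 := 1610612736) (W1 := 536870912) (P2 := 0) (W2 := 536870912) (P3 := 649613803) (W3 := 48318383) (N0 := 3) (En := eng) (mo := mog) (C1 := cd1q3) (C2 := cd2q0) (C3 := pd3)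
    rfl k0_pp_303

noncomputable def f_pp_313 : ℕ → ℕ → ℕ → ℕ → Bool := onCell 1610612736 536870912 536870912 536870912 649613803 48318383
    (rowB 3 eng mog cd1q3 cd2q1 pd3 0 true true true .dn 3 1 3 (qsf 1610612736 536870912 536870912 536870912 3) ndB1q3 ndB2q1 pcB3 Cut.none Ext.none)

def k0_pp_313 : ∃ t, chk3 f_pp_313 t 1 1 1 = true :=
  ⟨(l 4), by decide +kernel⟩

theorem c_pp_313 : CertB 1610612736 536870912 536870912 536870912 649613803 48318383 3 eng mog cd1q3 cd2q1 pd3 true true true .dn 3 1 3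
    ndB1q3 ndB2q1 pcB3 Cut.none Ext.none :=
  certB0 (fam := true) (s1 := true) (s2 := true) (a := 3) (b := 1) (c := 3) (cn := .dn) (n1 := ndB1q3) (n2 := ndB2q1) (pc := pcB3) (cut := Cut.none) (xt := Ext.none) (P1 := 1610612736) (W1 := 536870912) (P2 := 536870912) (W2 := 536870912) (P3 := 649613803) (W3 := 48318383) (N0 := 3) (En := eng) (mo := mog) (C1 := cd1q3) (C2 := cd2q1) (C3 := pd3)
    rfl k0_pp_313

noncomputable def f_pm_001 : ℕ → ℕ → ℕ → ℕ → Bool := onCell 0 536870912 0 536870912 649613803 48318383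
    (rowB 3 eng mog cd1q0 cd2q0 pd1 0 true true false .up 0 0 1 (qsf 0 536870912 0 536870912 1) ndB1q0 ndB2q0 pcB1 Cut.none Ext.none)

def k0_pm_001 : ∃ t, chk3 f_pm_001 t 1 1 1 = true :=
  ⟨(l 3), by decide +kernel⟩

theorem c_pm_001 : CertB 0 536870912 0 536870912 649613803 48318383 3 eng mog cd1q0 cd2q0 pd1 true true false .up 0 0 1
    ndB1q0 ndB2q0 pcB1 Cut.none Ext.none :=
  certB0 (fam := true) (s1 := true) (s2 := false) (a := 0) (b := 0) (c := 1) (cn := .up) (n1 := ndB1q0) (n2 := ndB2q0) (pc := pcB1) (cut := Cut.none) (xt := Ext.none) (P1 := 0) (W1 := 536870912) (P2 := 0) (W2 := 536870912) (P3 := 649613803) (W3 := 48318383) (N0 := 3) (En := eng) (mo := mog) (C1 := cd1q0) (C2 := cd2q0) (C3 := pd1)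
    rfl k0_pm_001

noncomputable def f_pm_011 : ℕ → ℕ → ℕ → ℕ → Bool := onCell 0 536870912 536870912 536870912 649613803 48318383
    (rowB 3 eng mog cd1q0 cd2q1 pd1 1 true true false .pnn 0 1 1 (qsf 0 536870912 536870912 536870912 1) ndB1q0 ndB2q1 pcB1 Cut.none Ext.none)

def k0_pm_011 : ∃ t, chk3 f_pm_011 t 1 1 1 = true :=
  ⟨(l 3), by decide +kernel⟩

theorem c_pm_011 : CertB 0 536870912 536870912 536870912 649613803 48318383 3 eng mog cd1q0 cd2q1 pd1 true true false .pnn 0 1 1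
    ndB1q0 ndB2q1 pcB1 Cut.none Ext.none :=
  certB1 (fam := true) (s1 := true) (s2 := false) (a := 0) (b := 1) (c := 1) (cn := .pnn) (n1 := ndB1q0) (n2 := ndB2q1) (pc := pcB1) (cut := Cut.none) (xt := Ext.none) (P1 := 0) (W1 := 536870912) (P2 := 536870912) (W2 := 536870912) (P3 := 649613803) (W3 := 48318383) (N0 := 3) (En := eng) (mo := mog) (C1 := cd1q0) (C2 := cd2q1) (C3 := pd1)
    rfl (fun _ => rfl) k0_pm_011

noncomputable def f_pm_012 : ℕ → ℕ → ℕ → ℕ → Bool := onCell 1073741824 536870912 536870912 536870912 649613803 48318383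
    (rowB 3 eng mog cd1q0 cd2q1 pd2 2 true true false .pnp 0 1 2 (qsf 0 536870912 536870912 536870912 2) ndB1q0 ndB2q1 pcB2 Cut.none Ext.none)

def k0_pm_012 : ∃ t, chk3 f_pm_012 t 4 1 1 = true :=
  ⟨(a (l 3) (b (l 3) (a (l 3) (b (l 3) (a (l 3) (b (l 3) (b (l 3) (a (b (l 3) (a (l 3) (l 16608920))) (b (a (l 16615936) (l 16611264)) (a (l 16604096) (l 16599416))))))))))), by decide +kernel⟩

def k1_pm_012 : ∃ t, chk3 f_pm_012 t 20 1 1 = true :=
  ⟨(a (b (b (l 3) (l 3)) (b (l 3) (b (a (l 3) (b (l 16657688) (a (l 16628112) (l 16623232)))) (a (b (a (l 16600784) (b (l 16621280) (l 16612008))) (b (a (l 16606464) (l 16633536)) (a (l 16595192) (l 16591224)))) (b (a (b (l 16616608) (l 16607912)) (b (l 16612264) (l 16603856))) (a (l 16593264) (l 16568328))))))) (b (b (l 2) (a (l 3) (a (b (l 3) (l 3)) (b (a (b (l 16688176) (l 16683824)) (a (a (a (l 16685856) (l 16685816)) (l 16685656)) (l 16685408))) (a (l 101099501127) (b (l 16677192) (l 16670048))))))) (a (b (b (l 3)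 (a (b (l 3) (l 16641080)) (b (l 16649168) (l 16637216)))) (b (a (b (l 16629024) (l 16660104)) (b (l 16624608) (l 16612904))) (b (a (l 16604136) (l 16600136)) (a (l 16585016) (l 16580648))))) (b (a (b (a (l 3) (l 16660160)) (b (a (l 16646624) (l 16644784)) (a (l 16634208) (l 16632232)))) (b (a (b (l 16663080) (l 16695624)) (a (a (a (l 16657664) (a (l 16657472) (l 16657320))) (l 16657032)) (l 16656384))) (a (a (l 16637264) (a (l 16636432) (l 16635776))) (a (a (a (l 16635312) (b (l 16641280) (l 16628136))) (l 16634384)) (l 16633552))))) (a (b (b (a (l 16621232) (l 16618760)) (a (l 16608824) (l 16606072))) (b (a (l 16596584) (l 16593544)) (l 16575048))) (b (a (a (a (l 16610632) (l 16613840)) (b (l 16615496) (l 16602128))) (a (a (a (b (l 16614456) (l 16600816)) (b (l 16586776) (l 16600008))) (l 16605616)) (l 16604592))) (b (a (l 16589616) (b (l 16589200) (l 16580224))) (a (c (l 16550712) (l 16567336)) (a (a (a (l 16566496) (a (l 16565616) (b (l 16570096) (l 16558976))))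 (l 16564160)) (l 16563304)))))))))), by decide +kernel⟩

def k2_pm_012 : ∃ t, chk3 f_pm_012 t 21 1 1 = true :=
  ⟨(b (b (l 2) (b (l 16680432) (l 16663880))) (b (b (l 16663808) (b (l 16623408) (l 16608136))) (b (b (l 16590896) (l 16575224)) (b (l 16562488) (b (l 16548992) (l 16559976)))))), by decide +kernel⟩

def k3_pm_012 : ∃ t, chk3 f_pm_012 t 11 1 1 = true :=
  ⟨(b (b (l 2) (b (l 16672464) (l 16643240))) (b (b (a (l 16620320) (l 16602824)) (b (l 16582936) (a (l 16576048) (l 16549144)))) (b (b (a (l 16554616) (l 16523768)) (a (l 16534072) (l 16497768))) (b (a (l 16519016) (l 16477480)) (a (b (l 16509800) (l 16502056)) (l 16487536)))))), by decide +kernel⟩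

def k4_pm_012 : ∃ t, chk3 f_pm_012 t 3 1 1 = true :=
  ⟨(b (a (b (l 2) (a (b (l 2) (l 16634024)) (l 2))) (l 2)) (a (b (b (a (l 16586184) (l 16584384)) (a (b (l 16546920) (l 16518016)) (l 16514088))) (b (a (a (b (l 16498080) (l 16466904)) (b (l 16478256) (l 16444264))) (b (l 16457024) (l 16419888))) (a (a (b (l 16440704) (l 16487768)) (b (l 16413496) (l 16432664))) (b (l 16384776) (a (b (l 16371408) (l 16359552)) (l 16346632)))))) (b (a (b (l 2) (l 16519656)) (l 2)) (b (a (b (l 16447184) (l 16402120)) (b (l 2) (l 16405216))) (b (a (l 16363824) (l 16360832)) (a (a (l 16333648) (l 16325728)) (l 16323904))))))), by decide +kernel⟩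

theorem s5_pm_012 : ∃ t, chk3 f_pm_012 t 10 1 1 = true := ex3_a k1_pm_012 k2_pm_012

theorem s6_pm_012 : ∃ t, chk3 f_pm_012 t 5 1 1 = true := ex3_a s5_pm_012 k3_pm_012

theorem s7_pm_012 : ∃ t, chk3 f_pm_012 t 2 1 1 = true := ex3_a k0_pm_012 s6_pm_012

theorem s8_pm_012 : ∃ t, chk3 f_pm_012 t 1 1 1 = true := ex3_a s7_pm_012 k4_pm_012

theorem c_pm_012 : CertB 0 536870912 536870912 536870912 649613803 48318383 3 eng mog cd1q0 cd2q1 pd2 true true false .pnp 0 1 2
    ndB1q0 ndB2q1 pcB2 Cut.none Ext.none :=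
  certB2 (fam := true) (s1 := true) (s2 := false) (a := 0) (b := 1) (c := 2) (cn := .pnp) (n1 := ndB1q0) (n2 := ndB2q1) (pc := pcB2) (cut := Cut.none) (xt := Ext.none) (P1 := 0) (W1 := 536870912) (P2 := 536870912) (W2 := 536870912) (P3 := 649613803) (W3 := 48318383) (N0 := 3) (En := eng) (mo := mog) (C1 := cd1q0) (C2 := cd2q1) (C3 := pd2)
    rfl (fun _ => rfl) s8_pm_012

end Pool.Agent.Strip051.G.I6050_6500.Tab.C.BA12

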