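import Pool.Agent.Strip051.G.I6050_6500.Tab
import Pool.Agent.Strip051.PB.ExtD2

/-! # Certificates B11 (generated) -/

set_option linter.all false
set_option maxRecDepth 100000

namespace Pool.Agent.Strip051.G.I6050_6500.Tab.C.BA12

open Pool.Agent.Strip051.PB Pool.Agent.Strip051.PB.T
open Pool.Agent.Strip051.G.I6050_6500.Tab

noncomputable def cut_pm_022_a : Cut := Cut.of [[⟨0, 0, 0, 67108864⟩, ⟨1, 1, 0, 67108864⟩, ⟨2, 1, 0, 67108864⟩]]

noncomputable def f_pm_022_a : ℕ → ℕ → ℕ → ℕ → Bool := onCell 1073741824 536870912 0 536870912 649613803 48318383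
    (rowB 3 eng mog cd1q0 cd2q2a pd2 2 true true false .pp 0 2 2 (qsf 0 536870912 0 536870912 2) ndB1q0 ndB2q2a pcB2 cut_pm_022_a Ext.none)

def k0_pm_022_a : ∃ t, chk3 f_pm_022_a t 2 2 1 = true :=
  ⟨(a (a (l 1) (b (l 1) (a (l 1) (b (l 1) (a (l 1) (b (l 1) (a (l 1) (l 16500952)))))))) (a (b (a (a (l 1) (b (a (l 1) (b (l 16493832) (l 16454488))) (c (a (l 16460216) (l 16463504)) (a (l 16450448) (l 16455344))))) (a (a (b (c (b (c (l 16446368) (l 16447440)) (l 16451016)) (l 16454488)) (b (l 16459832) (l 16466072))) (b (c (b (a (l 16445080) (l 16444440)) (a (l 16449304) (l 16448584))) (l 16492928)) (c (b (c (l 16475880) (l 16455840)) (l 16484336)) (l 16463688)))) (b (c (c (l 16450400) (b (l 16448744) (l 16452400))) (l 16454144)) (b (a (l 16353032) (l 16460160)) (l 16466800))))) (a (a (a (b (l 1) (b (l 16508272) (l 16503312))) (b (b (l 16462992) (l 16475288)) (b (b (l 16486280) (l 16493832)) (l 16505360)))) (b (b (c (l 16472736) (l 16463304)) (c (l 16483896)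 (l 16474728))) (a (b (c (l 16496560) (l 16487352)) (l 16507064)) (a (b (l 16494144) (l 16508104)) (a (b (l 16494856) (l 16508512)) (b (l 16495240) (l 16508712))))))) (b (c (a (b (l 16537368) (l 16484968)) (l 16479248)) (a (a (l 16474592) (l 16477544)) (l 16475112))) (a (b (b (l 16556616) (l 16563128)) (l 16509720)) (b (l 16494064) (l 16505984)))))) (b (a (a (b (c (a (l 16454360) (l 16456480)) (l 16455712)) (c (l 16464328) (l 16458680))) (b (b (l 16457536) (l 16456984)) (c (l 16463496) (l 16435744)))) (b (a (b (l 16458024) (l 16457280)) (c (l 16462200) (l 16455104))) (a (c (l 16443032) (l 16455968)) (l 16461680)))) (b (a (a (b (l 16470528) (l 16478888)) (b (l 16468536) (l 16476112))) (b (l 16467752) (l 16474056))) (b (a (a (l 16488928) (l 16485048)) (l 16481344)) (a (l 16497232) (a (l 16490840) (l 16488680)))))))), by decide +kernel⟩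

def k1_pm_022_a : ∃ t, chk3 f_pm_022_a t 4 3 1 = true :=
  ⟨(a (b (l 1) (b (a (l 1) (b (a (l 1) (a (l 1) (b (l 1) (b (l 16629816) (l 16637808))))) (a (l 6) (a (l 6) (a (l 6) (b (l 16648160) (l 16662744))))))) (a (l 6) (a (l 6) (a (l 6) (a (l 6) (a (l 6) (b (l 16669384) (b (l 16696152) (l 16699736)))))))))) (a (b (b (l 1) (a (b (l 1) (a (l 1) (b (l 16584048) (l 16598896)))) (b (a (l 16562288) (b (l 16555704) (l 16569088))) (b (a (l 16583440) (l 16582616)) (a (l 16597592) (l 16596064)))))) (a (b (b (b (a (l 16615728) (l 16613848)) (a (l 16641840) (l 16628720))) (b (a (l 16645752) (l 16642440)) (a (c (l 16662032) (l 16657272)) (l 16655816)))) (b (b (a (l 16673768) (l 16669056)) (l 16681592)) (b (c (l 16685704) (l 16686336)) (b (l 16688640) (l 16711200))))) (b (b (b (a (l 16611816) (l 16609552)) (a (l 16625928) (l 16622912))) (a (l 16624472) (l 16641408))) (b (b (l 16659040) (l 16663816)) (b (c (l 16668256) (l 16668136)) (a (l 16675944) (l 16667168))))))) (a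 (b (b (b (l 8623021703) (a (l 16537552) (l 92911767879))) (b (a (b (l 16556040) (l 16568760)) (l 16562256)) (a (l 16609056) (b (l 16580344) (l 16592400))))) (b (b (b (l 16605776) (l 16618016)) (l 16634432)) (b (b (l 16642088) (l 16646752)) (b (l 16650896) (l 16675280))))) (b (b (b (a (l 16518008) (l 16519648)) (a (l 16539344) (l 16539848))) (b (c (l 16565224) (l 16556880)) (a (l 16584640) (l 16582544)))) (b (b (l 16605432) (l 16618568)) (b (c (l 16649616) (l 16628536)) (b (l 16634520) (a (l 16641808) (l 16633560))))))))), by decide +kernel⟩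

def k2_pm_022_a : ∃ t, chk3 f_pm_022_a t 5 3 1 = true :=
  ⟨(b (a (a (a (b (b (c (l 16525800) (l 16516328)) (a (l 16477152) (l 16539976))) (b (l 16496408) (l 16578800))) (b (a (b (l 16522720) (l 16539528)) (a (l 16531296) (a (l 16531024) (l 16572616)))) (a (l 16566144) (a (l 16563976) (a (l 16562056) (l 16561080)))))) (b (b (l 16583184) (l 16575408)) (a (l 16575376) (l 16546480)))) (b (a (b (l 16507528) (l 16518032)) (b (l 16498952) (l 16508464))) (b (a (l 16529064) (l 16517984)) (l 16617136)))) (a (a (a (b (b (l 16593408) (l 16603728)) (a (b (l 16616816) (b (l 16622704) (l 16624784))) (b (l 16609472) (b (l 16614608) (l 16615664))))) (b (a (b (l 16583320) (l 16593328)) (a (b (l 16578720) (l 16588600)) (a (b (l 16576768) (l 16586632)) (b (l 16575872) (l 16585792))))) (a (b (b (l 16600264) (l 16604096)) (b (l 16606312) (l 16606968))) (b (a (l 16597120) (a (l 16594912) (b (l 16634304) (l 16616128)))) (a (b (l 16600384) (l 16600992)) (a (b (l 16597944) (l 16598552))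 (a (a (a (l 16597768) (b (l 16597632) (c (l 16601480) (l 16595152)))) (l 16597776)) (l 16596960)))))))) (b (b (a (l 16568544) (l 16558712)) (a (l 16585648) (l 16566200))) (a (b (b (l 16583360) (l 16585856)) (b (l 16587440) (a (l 16592160) (l 16583696)))) (b (l 16571432) (b (l 16573176) (l 16573032)))))) (b (b (a (l 16546112) (l 16529584)) (a (l 16551224) (l 16531984))) (b (a (l 16575216) (l 16532288)) (b (a (l 16554344) (l 16530368)) (a (a (l 16559672) (l 16546672)) (l 16569728))))))), by decide +kernel⟩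

def k3_pm_022_a : ∃ t, chk3 f_pm_022_a t 3 1 1 = true :=
  ⟨(b (a (b (a (a (b (a (l 16462112) (l 16466352)) (a (l 16463576) (l 16468008))) (b (l 16500352) (a (l 16475832) (l 16484192)))) (a (b (a (l 16493552) (l 16503176)) (a (l 16492640) (l 16501192))) (b (b (l 16519704) (l 16516032)) (l 16514264)))) (a (b (a (b (a (l 16469264) (l 16474216)) (l 16477544)) (b (l 16485008) (l 16489080))) (a (b (l 16484120) (l 16491424)) (l 16516456))) (a (b (a (l 16497480) (l 16504360)) (a (l 16501368) (l 16505472))) (b (a (l 16511360) (l 16518624)) (a (l 16509976) (l 16515136)))))) (b (a (a (b (b (l 16540520) (l 16536040)) (l 16532760)) (b (l 16623136) (l 16552312))) (b (a (l 16581168) (l 16601152)) (a (l 16613216) (b (l 16591776) (l 16586672))))) (a (a (b (l 16530784) (l 16523560)) (b (l 16547192) (l 16534608))) (b (a (l 16562992) (l 16577824)) (a (l 16545176) (l 16554552)))))) (a (b (a (b (b (a (l 16498704) (l 16500400)) (l 16503744)) (a (l 16512056) (l 16501408))) (b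 (a (b (l 16502760) (l 16500264)) (b (l 16507128) (l 16500448))) (a (l 16491016) (l 16482040)))) (a (b (b (l 16527144) (a (l 16513648) (l 16497104))) (b (a (l 16511648) (l 16493272)) (a (b (l 16508008) (l 16504280)) (l 16506960)))) (b (a (b (l 16486352) (l 16482936)) (l 16472504)) (b (a (l 16477240) (l 16462320)) (a (a (l 16472512) (l 16464176)) (a (l 16455968) (l 16447728))))))) (b (a (b (a (l 16508160) (l 16511520)) (a (l 16473432) (l 16464296))) (b (a (l 16514248) (l 16516240)) (b (l 16557936) (l 16431528)))) (a (b (a (l 16460416) (l 16448432)) (b (a (l 16448304) (l 16435160)) (a (l 16436184) (l 16422664)))) (b (a (l 16433776) (l 16416104)) (b (l 16497224) (a (l 16409296) (l 16397024)))))))), by decide +kernel⟩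

theorem s4_pm_022_a : ∃ t, chk3 f_pm_022_a t 2 3 1 = true := ex3_a k1_pm_022_a k2_pm_022_a

theorem s5_pm_022_a : ∃ t, chk3 f_pm_022_a t 2 1 1 = true := ex3_b k0_pm_022_a s4_pm_022_a

theorem s6_pm_022_a : ∃ t, chk3 f_pm_022_a t 1 1 1 = true := ex3_a s5_pm_022_a k3_pm_022_a

theorem c_pm_022_a : CertB 0 536870912 0 536870912 649613803 48318383 3 eng mog cd1q0 cd2q2a pd2 true true false .pp 0 2 2
    ndB1q0 ndB2q2a pcB2 cut_pm_022_a Ext.none :=
  certB2 (fam := true) (s1 := true) (s2 := false) (a := 0) (b := 2) (c := 2) (cn := .pp) (n1 := ndB1q0) (n2 := ndB2q2a) (pc := pcB2) (cut := cut_pm_022_a) (xt := Ext.none) (P1 := 0) (W1 := 536870912) (P2 := 0) (W2 := 536870912) (P3 := 649613803) (W3 := 48318383) (N0 := 3) (En := eng) (mo := mog) (C1 := cd1q0) (C2 := cd2q2a) (C3 := pd2)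
    rfl (fun _ => rfl) s6_pm_022_a

noncomputable def cut_pm_022_b : Cut := Cut.of [[⟨0, 0, 0, 67108864⟩, ⟨1, 1, 0, 67108864⟩, ⟨2, 1, 0, 67108864⟩]]

noncomputable def f_pm_022_b : ℕ → ℕ → ℕ → ℕ → Bool := onCell 1073741824 536870912 1239849684 370763052 649613803 48318383
    (rowB 3 eng mog cd1q0 cd2q2b pd2 2 true true false .pp 0 2 2 (qsf 0 536870912 1239849684 370763052 2) ndB1q0 ndB2q2b pcB2 cut_pm_022_b Ext.none)

def k0_pm_022_b : ∃ t, chk3 f_pm_022_b t 1 1 1 = true :=
  ⟨(a (b (a (l 1) (a (b (b (a (a (l 1) (b (l 16555456) (l 1))) (a (b (a (b (b (c (l 16398160) (l 16445224)) (l 16431776)) (l 1)) (c (b (a (l 16433384) (l 16432816)) (a (l 16412248) (l 16411744))) (b (l 16436992) (l 16417032)))) (l 1)) (b (b (b (c (l 16442272) (l 16445656)) (l 16307216)) (l 16354568)) (l 16382024)))) (l 1)) (l 1)) (b (a (b (b (a (c (l 16432560) (l 16431472)) (l 16434608)) (a (l 16382496) (l 16384560))) (b (a (l 16327912) (l 16331960)) (l 1))) (b (b (a (l 16436136) (l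 16438952)) (a (l 16388056) (l 16392816))) (b (l 16340728) (l 16288888)))) (a (l 1) (b (l 16207744) (l 1)))))) (l 1)) (b (a (a (b (b (a (b (a (l 16442856) (l 16447880)) (l 16401976)) (b (l 16460712) (l 16417816))) (a (l 16332808) (l 16353744))) (a (b (l 16254296) (l 1)) (b (l 16262488) (l 16164264)))) (b (a (b (a (l 16456088) (l 16468712)) (a (l 16371120) (l 16384792))) (b (l 16550856) (l 16409088))) (a (b (l 16293832) (a (l 16193584) (l 16213944))) (b (l 16327192) (l 16245528))))) (a (b (a (b (b (l 16528872) (l 16497000)) (l 16443568)) (b (b (l 16553208) (l 16524800)) (l 16477480))) (a (b (l 16364880) (l 16287080)) (b (l 16406248) (l 16330280)))) (b (b (a (l 16607792) (l 16632960)) (a (l 16510888) (l 16543920))) (a (l 16413256) (l 16456744))))) (a (b (a (l 1) (a (a (l 16047256) (l 39760681159)) (b (l 16158912) (l 16068520)))) (l 1)) (a (b (a (l 56403919943) (l 16223008)) (a (l 1) (l 16072096))) (b (a (l 16274528) (l 16326216)) (a (l 16139424) (l 16203264))))))),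 by decide +kernel⟩

theorem c_pm_022_b : CertB 0 536870912 1239849684 370763052 649613803 48318383 3 eng mog cd1q0 cd2q2b pd2 true true false .pp 0 2 2
    ndB1q0 ndB2q2b pcB2 cut_pm_022_b Ext.none :=
  certB2 (fam := true) (s1 := true) (s2 := false) (a := 0) (b := 2) (c := 2) (cn := .pp) (n1 := ndB1q0) (n2 := ndB2q2b) (pc := pcB2) (cut := cut_pm_022_b) (xt := Ext.none) (P1 := 0) (W1 := 536870912) (P2 := 1239849684) (W2 := 370763052) (P3 := 649613803) (W3 := 48318383) (N0 := 3) (En := eng) (mo := mog) (C1 := cd1q0) (C2 := cd2q2b) (C3 := pd2)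
    rfl (fun _ => rfl) k0_pm_022_b

noncomputable def f_pm_023_a : ℕ → ℕ → ℕ → ℕ → Bool := onCell 1610612736 536870912 0 536870912 649613803 48318383
    (rowB 3 eng mog cd1q0 cd2q2a pd3 2 true true false .up 0 2 3 (qsf 0 536870912 0 536870912 3) ndB1q0 ndB2q2a pcB3 Cut.none Ext.none)

def k0_pm_023_a : ∃ t, chk3 f_pm_023_a t 1 1 1 = true :=
  ⟨(a (b (a (a (b (b (l 16603056) (l 16583856)) (b (l 16555968) (l 16538512))) (b (l 16639288) (a (l 16597024) (l 16625856)))) (a (b (a (l 16680936) (l 16703336)) (b (l 16673536) (a (l 16645880) (l 2)))) (l 2))) (b (a (a (b (l 16525544) (l 16568400)) (a (b (l 16574192) (l 16554168)) (b (l 16601456) (l 16581832)))) (l 2)) (a (a (b (l 16485360) (b (l 16472288) (l 16463640))) (a (b (l 16531880) (l 2)) (l 2))) (l 2)))) (l 2)), by decide +kernel⟩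

theorem c_pm_023_a : CertB 0 536870912 0 536870912 649613803 48318383 3 eng mog cd1q0 cd2q2a pd3 true true false .up 0 2 3
    ndB1q0 ndB2q2a pcB3 Cut.none Ext.none :=
  certB2 (fam := true) (s1 := true) (s2 := false) (a := 0) (b := 2) (c := 3) (cn := .up) (n1 := ndB1q0) (n2 := ndB2q2a) (pc := pcB3) (cut := Cut.none) (xt := Ext.none) (P1 := 0) (W1 := 536870912) (P2 := 0) (W2 := 536870912) (P3 := 649613803) (W3 := 48318383) (N0 := 3) (En := eng) (mo := mog) (C1 := cd1q0) (C2 := cd2q2a) (C3 := pd3)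
    rfl (fun _ => rfl) k0_pm_023_a

noncomputable def f_pm_023_b : ℕ → ℕ → ℕ → ℕ → Bool := onCell 1610612736 536870912 1239849684 370763052 649613803 48318383
    (rowB 3 eng mog cd1q0 cd2q2b pd3 2 true true false .up 0 2 3 (qsf 0 536870912 1239849684 370763052 3) ndB1q0 ndB2q2b pcB3 Cut.none Ext.none)

def k0_pm_023_b : ∃ t, chk3 f_pm_023_b t 1 1 1 = true :=
  ⟨(a (a (b (b (a (b (a (l 16607992) (l 16615280)) (l 16585520)) (b (l 16619328) (l 16624328))) (a (l 16553296) (l 16600456))) (a (b (l 16387560) (l 16256928)) (b (l 16472432) (l 16346952)))) (b (a (b (a (l 16638352) (l 16674848)) (l 16642184)) (b (b (l 482210507511) (l 16706264)) (l 16700600))) (a (b (l 16563888) (l 16457280)) (b (l 16654840) (l 16585296))))) (a (a (b (b (l 2) (a (l 16727568) (l 4))) (l 4)) (b (l 4) (l 4))) (l 4))), by decide +kernel⟩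

theorem c_pm_023_b : CertB 0 536870912 1239849684 370763052 649613803 48318383 3 eng mog cd1q0 cd2q2b pd3 true true false .up 0 2 3
    ndB1q0 ndB2q2b pcB3 Cut.none Ext.none :=
  certB2 (fam := true) (s1 := true) (s2 := false) (a := 0) (b := 2) (c := 3) (cn := .up) (n1 := ndB1q0) (n2 := ndB2q2b) (pc := pcB3) (cut := Cut.none) (xt := Ext.none) (P1 := 0) (W1 := 536870912) (P2 := 1239849684) (W2 := 370763052) (P3 := 649613803) (W3 := 48318383) (N0 := 3) (En := eng) (mo := mog) (C1 := cd1q0) (C2 := cd2q2b) (C3 := pd3)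
    rfl (fun _ => rfl) k0_pm_023_b

noncomputable def f_pm_033 : ℕ → ℕ → ℕ → ℕ → Bool := onCell 0 536870912 1610612736 536870912 649613803 48318383
    (rowB 3 eng mog cd1q0 cd2q3 pd3 1 true true false .pnn 0 3 3 (qsf 0 536870912 1610612736 536870912 3) ndB1q0 ndB2q3 pcB3 Cut.none Ext.none)

def k0_pm_033 : ∃ t, chk3 f_pm_033 t 1 1 1 = true :=
  ⟨(a (b (b (b (a (l 16200016) (l 1)) (a (l 16174312) (l 16604760))) (b (a (l 16192072) (l 16391536)) (a (l 16286832) (l 46740955399)))) (l 4)) (b (b (l 1) (b (l 1) (a (l 124587346327) (l 1)))) (b (b (a (l 4) (l 1)) (l 4)) (l 4)))), by decide +kernel⟩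

theorem c_pm_033 : CertB 0 536870912 1610612736 536870912 649613803 48318383 3 eng mog cd1q0 cd2q3 pd3 true true false .pnn 0 3 3
    ndB1q0 ndB2q3 pcB3 Cut.none Ext.none :=
  certB1 (fam := true) (s1 := true) (s2 := false) (a := 0) (b := 3) (c := 3) (cn := .pnn) (n1 := ndB1q0) (n2 := ndB2q3) (pc := pcB3) (cut := Cut.none) (xt := Ext.none) (P1 := 0) (W1 := 536870912) (P2 := 1610612736) (W2 := 536870912) (P3 := 649613803) (W3 := 48318383) (N0 := 3) (En := eng) (mo := mog) (C1 := cd1q0) (C2 := cd2q3) (C3 := pd3)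
    rfl (fun _ => rfl) k0_pm_033

noncomputable def f_pm_101 : ℕ → ℕ → ℕ → ℕ → Bool := onCell 536870912 536870912 0 536870912 649613803 48318383
    (rowB 3 eng mog cd1q1 cd2q0 pd1 2 true true false .npn 1 0 1 (qsf 536870912 536870912 0 536870912 1) ndB1q1 ndB2q0 pcB1 Cut.none Ext.none)

def k0_pm_101 : ∃ t, chk3 f_pm_101 t 1 1 1 = true :=
  ⟨(a (l 3) (b (l 3) (l 3))), by decide +kernel⟩

theorem c_pm_101 : CertB 536870912 536870912 0 536870912 649613803 48318383 3 eng mog cd1q1 cd2q0 pd1 true true false .npn 1 0 1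
    ndB1q1 ndB2q0 pcB1 Cut.none Ext.none :=
  certB2 (fam := true) (s1 := true) (s2 := false) (a := 1) (b := 0) (c := 1) (cn := .npn) (n1 := ndB1q1) (n2 := ndB2q0) (pc := pcB1) (cut := Cut.none) (xt := Ext.none) (P1 := 536870912) (W1 := 536870912) (P2 := 0) (W2 := 536870912) (P3 := 649613803) (W3 := 48318383) (N0 := 3) (En := eng) (mo := mog) (C1 := cd1q1) (C2 := cd2q0) (C3 := pd1)
    rfl (fun _ => rfl) k0_pm_101

noncomputable def f_pm_102 : ℕ → ℕ → ℕ → ℕ → Bool := onCell 536870912 536870912 1073741824 536870912 649613803 48318383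
    (rowB 3 eng mog cd1q1 cd2q0 pd2 1 true true false .npp 1 0 2 (qsf 536870912 536870912 0 536870912 2) ndB1q1 ndB2q0 pcB2 Cut.none Ext.none)

def k0_pm_102 : ∃ t, chk3 f_pm_102 t 2 1 1 = true :=
  ⟨(a (b (b (l 3) (b (b (b (l 3) (l 2)) (l 2)) (l 2))) (l 2)) (b (b (b (l 3) (b (l 3) (b (l 3) (a (l 3) (b (l 3) (c (l 16789400) (l 18958276615))))))) (b (b (b (b (a (l 3) (b (l 16754312) (a (l 16732992) (l 16739304)))) (a (b (l 16748080) (l 16770280)) (b (a (l 16734664) (l 16738768)) (a (l 16734536) (l 16737688))))) (b (a (b (b (l 16771064) (l 16749264)) (a (l 16725520) (l 16728424))) (b (a (l 16775304) (l 16736080)) (a (l 16731776) (l 16734192)))) (b (a (b (l 16725920) (l 16726216)) (a (l 16731064) (l 16733512))) (a (b (b (l 16726400) (l 16790168)) (b (b (b (l 16728240) (a (l 39829112471) (l 16732032))) (l 16730872)) (l 16730880))) (b (a (l 16732344) (l 16733248)) (a (c (l 16759416) (l 16771176)) (l 16816600))))))) (a (a (l 16728104) (l 16729032)) (l 16787264)))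 (a (b (l 16720568) (l 2)) (b (l 16703880) (l 16684712))))) (b (b (a (l 2) (l 16855704)) (l 2)) (l 2)))), by decide +kernel⟩

def k1_pm_102 : ∃ t, chk3 f_pm_102 t 6 1 1 = true :=
  ⟨(b (b (b (l 3) (b (b (l 3) (a (l 3) (b (l 3) (a (l 3) (l 307794872343))))) (b (a (l 3) (b (a (l 16745528) (a (l 16754432) (b (l 16752744) (l 16748864)))) (a (b (l 16751568) (l 16753136)) (a (b (l 16750872) (l 16747384)) (b (l 16744696) (l 16740216)))))) (a (a (b (l 3) (b (l 16740512) (l 16743864))) (b (l 16790400) (b (l 16750592) (l 16749248)))) (b (a (b (l 16751328) (l 16748568)) (a (l 16741200) (l 16733104))) (a (b (l 16745136) (l 16741304)) (a (l 16732304) (l 16723520)))))))) (b (b (b (a (b (a (b (l 16744488) (l 16743528)) (b (l 16746904) (l 16743968))) (a (b (l 16741536) (l 16739384)) (b (l 16740880) (l 16737712)))) (b (a (b (l 16737360) (l 16733312)) (l 16718576)) (a (l 16726944) (l 16708824)))) (b (a (b (a (l 16737208) (l 16734304)) (l 16775456)) (a (l 16801736) (b (l 16701328)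 (l 16696624)))) (b (a (a (l 16732520) (l 16726440)) (a (l 16710432) (l 16692232))) (a (b (a (l 16730176) (l 16722296)) (b (b (b (l 16725064) (a (l 16727816) (l 16824288))) (l 16723552)) (l 16722808))) (b (a (l 16706632) (l 16688744)) (a (l 16766600) (l 16748520))))))) (a (a (l 16710976) (l 16700496)) (l 16759960))) (a (a (l 16750104) (l 16734448)) (a (l 16656336) (l 16637816))))) (b (a (b (b (l 16617920) (l 16610416)) (l 16613184)) (b (b (l 16583704) (l 16568304)) (l 16557536))) (a (l 2) (b (l 16564104) (l 2))))), by decide +kernel⟩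

def k2_pm_102 : ∃ t, chk3 f_pm_102 t 14 1 1 = true :=
  ⟨(b (b (b (l 3) (b (b (a (l 3) (b (l 160692189991) (a (l 184851361719) (b (l 147270370727) (a (l 16743584) (l 16738296)))))) (a (a (b (l 3) (b (l 16753808) (l 16749776))) (b (l 236391005159) (b (l 16745648) (l 16740848)))) (b (a (b (l 16745968) (l 16740816)) (b (l 16735688) (l 16730888))) (a (b (l 16735904) (l 16731032)) (b (l 16725840) (l 16720632)))))) (b (a (b (a (b (l 16745336) (l 16740840)) (b (l 16736088) (l 16731120))) (a (l 16733640) (l 16723576))) (b (a (b (l 16725936) (l 16720792)) (l 16712832)) (l 16707880))) (a (b (a (l 16723808) (l 16713568)) (l 16708792)) (b (l 16697720) (l 16708664)))))) (b (b (b (a (b (l 16698824) (l 16688968)) (b (l 16677824) (l 16668176))) (b (a (l 16679648) (l 16658704)) (b (a (l 16672776) (l 16651632)) (b (a (l 16669000) (l 16647912)) (a (l 16728752) (l 16749952)))))) (a (l 16646360) (l 16625344))) (a (l 16617496) (l 16616952)))) (b (b (a (l 16544224) (l 16521728))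 (b (l 16507560) (l 16495688))) (b (l 16493264) (l 16515616)))), by decide +kernel⟩

def k3_pm_102 : ∃ t, chk3 f_pm_102 t 15 1 1 = true :=
  ⟨(b (b (b (b (l 3) (b (a (l 3) (a (l 3) (b (l 3) (a (l 16735216) (b (l 16730064) (l 16725032)))))) (a (a (l 3) (b (l 3) (b (l 16742728) (l 16759016)))) (a (b (b (l 16738440) (l 16754472)) (b (l 16748832) (a (l 16726816) (l 16720408)))) (b (a (l 16745408) (b (l 16761488) (l 16715328))) (b (l 16732408) (l 16709176))))))) (b (b (a (a (b (c (l 84456510839) (l 16786880)) (a (l 16756888) (l 16752624))) (b (b (l 16732928) (l 16759672)) (l 16764000))) (a (b (c (l 16738224) (l 16717304)) (l 16708824)) (b (l 16703592) (l 16694296)))) (a (b (a (b (l 16725976) (l 16720712)) (l 16712752)) (a (l 16712808) (l 16702464))) (a (b (l 16699672) (l 16690280)) (b (l 16684592) (l 16674736))))) (a (b (b (a (l 16702280) (l 16691680)) (l 16686320)) (b (l 16675712) (l 16665192))) (b (a (l 16674232) (l 16659936)) (c (l 16660576) (l 16644664))))))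 (b (b (b (a (b (l 16655016) (l 16645184)) (b (l 16651184) (l 16662304))) (b (a (l 16635736) (a (l 16617528) (l 16604800))) (b (a (l 16628944) (l 16625912)) (b (a (l 16625744) (l 16644208)) (a (a (l 16671016) (l 16605312)) (a (l 16607080) (l 16594216))))))) (a (a (l 16609304) (l 16598600)) (b (l 16590056) (l 16571784)))) (a (a (l 16558464) (l 16589424)) (b (l 16546360) (l 16515624))))) (b (b (a (b (l 16510928) (l 16487896)) (l 16476824)) (a (l 16586144) (l 16501120))) (b (b (l 16431664) (l 16429360)) (l 16433856)))), by decide +kernel⟩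

theorem s4_pm_102 : ∃ t, chk3 f_pm_102 t 7 1 1 = true := ex3_a k2_pm_102 k3_pm_102

theorem s5_pm_102 : ∃ t, chk3 f_pm_102 t 3 1 1 = true := ex3_a k1_pm_102 s4_pm_102

theorem s6_pm_102 : ∃ t, chk3 f_pm_102 t 1 1 1 = true := ex3_a k0_pm_102 s5_pm_102

theorem c_pm_102 : CertB 536870912 536870912 0 536870912 649613803 48318383 3 eng mog cd1q1 cd2q0 pd2 true true false .npp 1 0 2
    ndB1q1 ndB2q0 pcB2 Cut.none Ext.none :=
  certB1 (fam := true) (s1 := true) (s2 := false) (a := 1) (b := 0) (c := 2) (cn := .npp) (n1 := ndB1q1) (n2 := ndB2q0) (pc := pcB2) (cut := Cut.none) (xt := Ext.none) (P1 := 536870912) (W1 := 536870912) (P2 := 0) (W2 := 536870912) (P3 := 649613803) (W3 := 48318383) (N0 := 3) (En := eng) (mo := mog) (C1 := cd1q1) (C2 := cd2q0) (C3 := pd2)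
    rfl (fun _ => rfl) s6_pm_102

noncomputable def f_pm_112 : ℕ → ℕ → ℕ → ℕ → Bool := onCell 536870912 536870912 1073741824 536870912 649613803 48318383
    (rowB 3 eng mog cd1q1 cd2q1 pd2 1 true true false .dn 1 1 2 (qsf 536870912 536870912 536870912 536870912 2) ndB1q1 ndB2q1 pcB2 Cut.none Ext.none)

def k0_pm_112 : ∃ t, chk3 f_pm_112 t 1 1 1 = true :=
  ⟨(a (a (b (b (l 3) (b (b (b (l 3) (a (b (l 3) (b (b (l 16691496) (l 16690304)) (b (b (l 16689544) (l 16689072)) (b (b (b (l 16688816) (a (l 16686280) (l 16690848))) (l 16688816)) (l 16688528))))) (b (a (b (l 3) (l 16696400)) (b (l 16698072) (l 16696256))) (b (b (l 16695472) (l 16694584)) (b (b (l 16694056) (l 16694120)) (b (b (b (l 16694240) (a (l 16693544) (l 16694640))) (l 16694536)) (l 16694480))))))) (a (l 16681592) (l 16755144))) (a (l 16760560) (a (l 16672768) (l 16680848))))) (b (a (b (l 16612584) (l 16559256)) (b (l 16651272) (l 16622888))) (b (a (a (l 16465816) (l 16515328)) (l 16588136)) (a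 (b (a (l 16404680) (l 16457200)) (a (l 16373560) (l 16418656))) (a (l 16502464) (l 16572312)))))) (a (b (b (l 3) (b (b (b (b (l 3) (b (l 80564093927) (l 84859075895))) (b (a (b (l 81100974343) (l 68216062455)) (l 1)) (b (b (l 46204355335) (l 16692624)) (b (a (l 16693952) (l 1)) (b (b (b (l 16694368) (b (l 16695240) (l 16696264))) (l 16696704)) (l 16696768)))))) (l 4328488423)) (b (l 16691456) (l 16683560)))) (b (b (b (l 16675592) (l 16668872)) (l 16662776)) (b (l 16661216) (l 16661080)))) (b (b (l 1) (b (b (l 1) (l 261489628247)) (b (l 16681872) (l 16672160)))) (b (b (b (l 16662824) (l 16659944)) (l 16663992)) (b (l 16684752) (l 16726680)))))) (b (b (l 1) (b (l 1) (a (a (b (l 1) (l 222834996503)) (l 1)) (l 1)))) (a (b (b (a (b (l 16668016) (l 16620984)) (l 186864526103)) (a (l 16627320) (l 16577888))) (a (b (l 16658136) (l 16720384)) (b (l 16595568) (l 16656648)))) (b (a (b (l 1) (l 99354496071)) (l 1)) (a (b (l 16529496) (l 16568248)) (b (l 146599099847)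 (l 16489184))))))), by decide +kernel⟩

theorem c_pm_112 : CertB 536870912 536870912 536870912 536870912 649613803 48318383 3 eng mog cd1q1 cd2q1 pd2 true true false .dn 1 1 2
    ndB1q1 ndB2q1 pcB2 Cut.none Ext.none :=
  certB1 (fam := true) (s1 := true) (s2 := false) (a := 1) (b := 1) (c := 2) (cn := .dn) (n1 := ndB1q1) (n2 := ndB2q1) (pc := pcB2) (cut := Cut.none) (xt := Ext.none) (P1 := 536870912) (W1 := 536870912) (P2 := 536870912) (W2 := 536870912) (P3 := 649613803) (W3 := 48318383) (N0 := 3) (En := eng) (mo := mog) (C1 := cd1q1) (C2 := cd2q1) (C3 := pd2)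
    rfl (fun _ => rfl) k0_pm_112

noncomputable def f_pm_113 : ℕ → ℕ → ℕ → ℕ → Bool := onCell 536870912 536870912 1610612736 536870912 649613803 48318383
    (rowB 3 eng mog cd1q1 cd2q1 pd3 1 true true false .nn 1 1 3 (qsf 536870912 536870912 536870912 536870912 3) ndB1q1 ndB2q1 pcB3 Cut.none Ext.none)

def k0_pm_113 : ∃ t, chk3 f_pm_113 t 1 1 1 = true :=
  ⟨(a (b (b (b (a (a (b (a (l 16380224) (l 16433784)) (l 278736103079)) (l 16522168)) (a (l 16655952) (l 16768488))) (a (a (b (a (l 2) (l 16400560)) (l 2)) (b (l 16507576) (l 309874702871))) (a (l 16670088) (l 16811512)))) (b (a (b (a (l 2) (b (l 320612092295) (l 2))) (l 2)) (a (b (l 16653904) (l 322222798407)) (l 16760296))) (a (l 2) (a (b (a (l 2) (l 16670344)) (l 2)) (a (l 185320701511) (l 16748856)))))) (b (b (a (l 2) (a (l 2) (b (a (l 2) (l 16741472)) (l 2)))) (l 2)) (l 2))) (b (b (a (a (b (l 16822088) (l 16944800)) (b (l 16792632) (l 16979744))) (b (a (l 16701680) (l 16600288)) (a (b (l 16831672)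 (l 16947720)) (l 16759256)))) (b (a (a (l 16864536) (b (l 17046344) (l 16988360))) (b (a (a (l 17020400) (l 16942312)) (b (l 16865408) (l 16882696))) (a (l 16810720) (b (l 16893904) (l 16911704))))) (a (a (l 16805544) (l 16933704)) (a (b (l 17061032) (l 17013872)) (b (l 16942128) (l 16972512)))))) (a (b (b (a (b (l 16775872) (l 16787552)) (l 16923528)) (a (b (a (l 2) (l 16766472)) (l 2)) (l 16627240))) (b (a (l 2) (b (l 284105601799) (l 2))) (l 2))) (a (b (b (b (l 16952336) (l 16902496)) (a (l 16786112) (l 16856688))) (b (a (l 16758600) (l 16790768)) (b (a (l 2) (l 16752584)) (l 2)))) (b (b (b (l 16991016) (l 16994976)) (a (l 16900776) (l 16951560))) (b (a (l 16824360) (l 17113720)) (b (l 16795192) (b (l 16771472) (b (l 16758016) (b (l 16749824) (b (l 16744008) (a (l 2) (l 4))))))))))))), by decide +kernel⟩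

theorem c_pm_113 : CertB 536870912 536870912 536870912 536870912 649613803 48318383 3 eng mog cd1q1 cd2q1 pd3 true true false .nn 1 1 3
    ndB1q1 ndB2q1 pcB3 Cut.none Ext.none :=
  certB1 (fam := true) (s1 := true) (s2 := false) (a := 1) (b := 1) (c := 3) (cn := .nn) (n1 := ndB1q1) (n2 := ndB2q1) (pc := pcB3) (cut := Cut.none) (xt := Ext.none) (P1 := 536870912) (W1 := 536870912) (P2 := 536870912) (W2 := 536870912) (P3 := 649613803) (W3 := 48318383) (N0 := 3) (En := eng) (mo := mog) (C1 := cd1q1) (C2 := cd2q1) (C3 := pd3)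
    rfl (fun _ => rfl) k0_pm_113

noncomputable def f_pm_123_a : ℕ → ℕ → ℕ → ℕ → Bool := onCell 1610612736 536870912 0 536870912 649613803 48318383
    (rowB 3 eng mog cd1q1 cd2q2a pd3 2 true true false .npn 1 2 3 (qsf 536870912 536870912 0 536870912 3) ndB1q1 ndB2q2a pcB3 Cut.none Ext.none)

def k0_pm_123_a : ∃ t, chk3 f_pm_123_a t 2 1 1 = true :=
  ⟨(a (a (b (l 1) (b (l 1) (b (l 16521848) (b (l 16505984) (a (l 16484800) (l 16517392)))))) (b (b (l 1) (a (l 1) (l 16670160))) (b (a (b (l 1) (l 16591904)) (b (l 16640976) (l 16623456))) (a (b (l 16571312) (b (l 16565264) (l 16567992))) (a (b (l 16602384) (l 16608904)) (b (l 16626280) (l 16641232))))))) (a (b (b (a (l 16722496) (l 16744248)) (a (b (l 16701888) (l 16687192)) (l 16807952))) (a (b (a (l 16660296) (b (l 16684128) (l 16680728))) (a (b (l 16656240) (c (l 16697632) (l 16653048))) (b (a (l 16684560) (c (l 16709096) (l 16680952))) (a (l 16704432) (b (l 16708976) (l 16694528)))))) (b (a (b (l 16697592)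 (l 16689992)) (l 16716176)) (a (b (a (l 16695424) (a (l 16689176) (l 16686584))) (a (c (l 16704768) (l 16695528)) (a (l 16688672) (l 16689072)))) (b (l 16701376) (b (l 16717272) (l 16734784))))))) (b (b (a (l 16767648) (l 16788864)) (b (l 16776240) (l 16771656))) (b (b (l 16765928) (l 16694608)) (b (a (a (l 16725144) (l 16725688)) (b (l 16771104) (l 16777304))) (a (b (l 16732432) (a (l 16760168) (l 16782680))) (b (l 16771440) (l 16748248)))))))), by decide +kernel⟩

def k1_pm_123_a : ∃ t, chk3 f_pm_123_a t 3 1 1 = true :=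
  ⟨(b (b (a (a (a (l 16794304) (a (l 16795928) (l 16798128))) (a (b (l 132842114295) (l 16794824)) (l 161833151831))) (l 4)) (a (a (b (l 16795344) (l 16796424)) (a (b (l 16803264) (l 16802288)) (a (l 16926200) (l 33521202695)))) (a (a (a (l 16844912) (a (l 16769528) (l 75933944135))) (b (l 4) (a (l 16809904) (l 259543611063)))) (l 4)))) (b (a (a (b (b (l 16795760) (l 16796816)) (a (l 16793920) (l 16806528))) (a (b (l 16804960) (l 16810920)) (b (l 16801312) (l 16807904)))) (a (a (b (b (l 16796224) (l 16794136)) (b (l 16798064) (l 16805248))) (a (b (b (l 16792216) (l 16793568)) (b (l 16796800) (l 16803944))) (b (l 16787272) (b (l 16797624) (l 16801144))))) (a (a (a (b (l 16789096) (l 16862888)) (b (l 250416797591) (l 16905496))) (b (l 4) (a (l 16782096) (l 198340390583)))) (a (b (l 4) (a (l 373360251095) (l 4))) (l 4))))) (b (a (a (a (b (l 16798248) (l 16806896)) (b (l 16815648) (l 16826608))) (a (l 16829184) (l 16826424))) (a (a (b (l 16814352) (l 16829776))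 (b (l 16811128) (l 16820464))) (a (a (b (l 16802064) (l 16811504)) (a (l 16890440) (b (l 16792832) (l 16793896)))) (b (a (a (l 16783752) (l 306788279271)) (l 4)) (a (a (l 16834688) (l 206930364999)) (a (l 359938502295) (l 4))))))) (b (a (a (a (l 16821096) (l 16838384)) (a (l 16850984) (l 16854680))) (a (a (l 16847592) (l 16833496)) (a (l 16899304) (a (a (l 16796528) (l 16812480)) (a (a (l 16781400) (l 16814368)) (a (l 543011429975) (l 4))))))) (a (a (a (c (l 16834136) (l 16845120)) (l 16791000)) (a (l 16868536) (l 16872832))) (a (a (l 16862664) (l 16846024)) (a (a (l 16829752) (l 16814664)) (a (l 16797600) (a (b (l 16847752) (l 16784376)) (a (l 151632624327) (a (l 16768216) (l 4)))))))))))), by decide +kernel⟩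

theorem s2_pm_123_a : ∃ t, chk3 f_pm_123_a t 1 1 1 = true := ex3_a k0_pm_123_a k1_pm_123_a

theorem c_pm_123_a : CertB 536870912 536870912 0 536870912 649613803 48318383 3 eng mog cd1q1 cd2q2a pd3 true true false .npn 1 2 3
    ndB1q1 ndB2q2a pcB3 Cut.none Ext.none :=
  certB2 (fam := true) (s1 := true) (s2 := false) (a := 1) (b := 2) (c := 3) (cn := .npn) (n1 := ndB1q1) (n2 := ndB2q2a) (pc := pcB3) (cut := Cut.none) (xt := Ext.none) (P1 := 536870912) (W1 := 536870912) (P2 := 0) (W2 := 536870912) (P3 := 649613803) (W3 := 48318383) (N0 := 3) (En := eng) (mo := mog) (C1 := cd1q1) (C2 := cd2q2a) (C3 := pd3)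
    rfl (fun _ => rfl) s2_pm_123_a

noncomputable def f_pm_123_b : ℕ → ℕ → ℕ → ℕ → Bool := onCell 1610612736 536870912 1239849684 370763052 649613803 48318383
    (rowB 3 eng mog cd1q1 cd2q2b pd3 2 true true false .npn 1 2 3 (qsf 536870912 536870912 1239849684 370763052 3) ndB1q1 ndB2q2b pcB3 Cut.none Ext.none)

def k0_pm_123_b : ∃ t, chk3 f_pm_123_b t 1 1 1 = true :=
  ⟨(a (a (l 1) (b (a (b (b (l 16709312) (l 1)) (l 1)) (b (b (l 16758512) (l 16723872)) (l 16727168))) (l 1))) (a (a (b (a (b (l 16857872) (l 16742512)) (b (b (l 16774720) (l 16761008)) (l 4))) (l 1)) (b (l 4) (l 4))) (l 4))), by decide +kernel⟩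

theorem c_pm_123_b : CertB 536870912 536870912 1239849684 370763052 649613803 48318383 3 eng mog cd1q1 cd2q2b pd3 true true false .npn 1 2 3
    ndB1q1 ndB2q2b pcB3 Cut.none Ext.none :=
  certB2 (fam := true) (s1 := true) (s2 := false) (a := 1) (b := 2) (c := 3) (cn := .npn) (n1 := ndB1q1) (n2 := ndB2q2b) (pc := pcB3) (cut := Cut.none) (xt := Ext.none) (P1 := 536870912) (W1 := 536870912) (P2 := 1239849684) (W2 := 370763052) (P3 := 649613803) (W3 := 48318383) (N0 := 3) (En := eng) (mo := mog) (C1 := cd1q1) (C2 := cd2q2b) (C3 := pd3)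
    rfl (fun _ => rfl) k0_pm_123_b

noncomputable def f_pm_133 : ℕ → ℕ → ℕ → ℕ → Bool := onCell 536870912 536870912 1610612736 536870912 649613803 48318383
    (rowB 3 eng mog cd1q1 cd2q3 pd3 0 true true false .dn 1 3 3 (qsf 536870912 536870912 1610612736 536870912 3) ndB1q1 ndB2q3 pcB3 Cut.none Ext.none)

def k0_pm_133 : ∃ t, chk3 f_pm_133 t 1 1 1 = true :=
  ⟨(l 4), by decide +kernel⟩

theorem c_pm_133 : CertB 536870912 536870912 1610612736 536870912 649613803 48318383 3 eng mog cd1q1 cd2q3 pd3 true true false .dn 1 3 3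
    ndB1q1 ndB2q3 pcB3 Cut.none Ext.none :=
  certB0 (fam := true) (s1 := true) (s2 := false) (a := 1) (b := 3) (c := 3) (cn := .dn) (n1 := ndB1q1) (n2 := ndB2q3) (pc := pcB3) (cut := Cut.none) (xt := Ext.none) (P1 := 536870912) (W1 := 536870912) (P2 := 1610612736) (W2 := 536870912) (P3 := 649613803) (W3 := 48318383) (N0 := 3) (En := eng) (mo := mog) (C1 := cd1q1) (C2 := cd2q3) (C3 := pd3)
    rfl k0_pm_133

noncomputable def cut_pm_202_a : Cut := Cut.of [[⟨0, 1, 0, 67108864⟩, ⟨1, 0, 0, 67108864⟩, ⟨2, 1, 0, 67108864⟩]]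

noncomputable def f_pm_202_a : ℕ → ℕ → ℕ → ℕ → Bool := onCell 0 536870912 1073741824 536870912 649613803 48318383
    (rowB 3 eng mog cd1q2a cd2q0 pd2 1 true true false .pp 2 0 2 (qsf 0 536870912 0 536870912 2) ndB1q2a ndB2q0 pcB2 cut_pm_202_a Ext.none)

def k0_pm_202_a : ∃ t, chk3 f_pm_202_a t 2 4 1 = true :=
  ⟨(b (l 1) (a (l 1) (b (l 1) (a (l 1) (b (l 1) (a (l 1) (b (l 1) (a (l 16520504) (c (l 16515872) (l 16504136)))))))))), by decide +kernel⟩

def k1_pm_202_a : ∃ t, chk3 f_pm_202_a t 3 4 1 = true :=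
  ⟨(b (a (l 1) (a (b (l 1) (b (a (l 1) (l 6)) (b (a (l 1) (l 6)) (a (a (l 1) (a (l 134251000983) (l 16641432))) (b (l 6) (a (l 16652448) (l 16667640))))))) (b (l 6) (b (l 6) (b (l 6) (a (a (l 16683704) (l 16690000)) (a (l 16693952) (l 16696872)))))))) (b (a (a (l 1) (a (b (l 1) (b (a (l 1) (l 16585888)) (a (l 16561920) (l 16586888)))) (b (b (l 1) (a (l 91838130599) (l 184179958375))) (a (b (l 173979388919) (c (l 16594704) (l 16586352))) (c (b (l 16608392) (l 16607480)) (l 16600328)))))) (b (a (b (a (a (l 171831959319) (a (l 16632200) (l 16639888))) (a (c (l 16653432) (l 16647872)) (l 16665520))) (a (a (c (l 16623192) (l 16615664)) (c (l 16637392) (l 16631224))) (l 16613816))) (a (a (l 16670600) (l 16675008)) (a (b (l 16683880) (l 16673952)) (l 16681808)))) (a (a (a (b (l 16576816) (l 16617576)) (l 16631920)) (c (l 16643184) (l 16646288))) (a (a (l 16651296) (l 16655616)) (a (l 16659448) (l 16662280)))))) (b (a (a (a (b (l 1) (l 110091620727)) (b (a (l 1)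 (l 16571048)) (a (l 16539232) (a (l 16548904) (l 16555168))))) (a (b (a (l 16563456) (l 16493296)) (b (l 16476752) (l 16487608))) (a (b (l 16590880) (l 16590600)) (l 16603064)))) (a (a (l 16657552) (l 16647248)) (a (a (l 16632904) (l 16637104)) (l 16663320)))) (a (a (a (b (a (l 16518328) (l 142840698807)) (c (b (l 16499880) (l 16532448)) (l 16537200))) (b (c (l 16468240) (l 16563432)) (b (l 16465256) (l 16549936)))) (a (b (l 16550944) (l 16572192)) (l 16587624))) (a (a (l 16598856) (c (l 16609600) (l 16609456))) (a (l 16617744) (l 16666584))))))), by decide +kernel⟩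

def k2_pm_202_a : ∃ t, chk3 f_pm_202_a t 1 20 1 = true :=
  ⟨(b (a (a (l 1) (b (a (l 1) (a (c (a (l 16490104) (l 16498800)) (l 154651824071)) (c (a (l 16471632) (l 16518392)) (l 16523664)))) (a (a (c (l 16471752) (l 16461168)) (c (c (l 16485328) (l 16481192)) (l 16472488))) (a (c (a (l 16493888) (l 16502112)) (l 213707628919)) (c (l 16515896) (a (l 16501440) (l 16511672))))))) (a (a (b (a (a (c (l 16528760) (l 16519296)) (l 16535024)) (l 16550952)) (a (l 16469264) (l 16547208))) (a (l 16562032) (l 16572568))) (a (a (c (l 16583808) (l 16583800)) (l 16593320)) (a (l 16601560) (a (l 16606464) (l 16607704)))))) (b (a (a (a (l 1) (b (l 1) (a (l 1) (l 16466264)))) (a (a (c (l 16476208) (a (l 16465200) (l 16427352))) (c (l 16487304) (l 16478024))) (a (c (l 16501192) (a (l 16488144) (l 16496312))) (l 16446632)))) (a (a (a (l 16529640) (l 16540920)) (a (l 16552008) (l 16562168))) (a (a (l 16572648) (l 16582312)) (a (l 16590096) (l 16594208))))) (a (a (c (a (a (l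 16441856) (l 16425568)) (a (l 16453720) (l 16463040))) (a (l 16448520) (l 16537472))) (a (a (b (l 16497160) (l 16549504)) (c (l 16486664) (l 16483176))) (a (c (l 16499472) (l 16496648)) (l 16429816)))) (b (a (a (a (l 16525600) (l 16536448)) (a (l 16547368) (l 16557376))) (a (l 16614984) (a (l 16584712) (l 16588152)))) (b (a (a (a (l 16523672) (l 16534320)) (a (l 16545216) (l 16555208))) (a (l 16591848) (a (l 16582352) (l 16585608)))) (a (a (a (l 16567056) (l 16532976)) (a (l 16543936) (l 16554008))) (a (a (l 16564448) (l 16574096)) (a (l 16581200) (l 16626384))))))))), by decide +kernel⟩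

def k3_pm_202_a : ∃ t, chk3 f_pm_202_a t 1 21 1 = true :=
  ⟨(a (a (b (b (a (c (a (l 16439384) (l 16443752)) (l 16465152)) (c (a (l 16450840) (c (l 16459944) (l 16460576))) (l 16511848))) (a (c (a (b (l 16437880) (l 16458496)) (l 16441592)) (a (l 16459040) (l 16442544))) (c (a (b (l 16448968) (l 16448208)) (b (l 16458128) (l 16457288))) (a (l 16450296) (l 16460256))))) (a (c (a (l 16444072) (l 16446576)) (a (l 16444000) (l 16446984))) (c (a (l 16452752) (l 16461112)) (a (l 16453920) (l 16463136))))) (a (b (b (a (c (c (l 16470904) (l 16472040)) (l 16476576)) (c (c (l 16482944) (l 16484272)) (l 16487888))) (c (a (b (l 16469256) (l 16489304)) (b (l 16481256) (l 16480224))) (a (l 16472432) (l 16484752)))) (c (a (l 16492424) (l 16482664)) (a (l 16474576) (l 16486176)))) (b (a (c (b (l 16496008) (b (l 16493664) (l 16492488))) (a (l 16517024) (l 16501696))) (c (b (l 16507720) (b (l 16505144) (l 16503792))) (l 16561960))) (a (c (l 16494272) (l 16497480)) (c (l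 16504952) (l 16507232)))))) (a (a (b (a (b (l 16519384) (c (l 16514952) (l 16516216))) (b (l 16529440) (c (l 16525000) (l 16524616)))) (a (l 16514472) (c (l 16523584) (l 16522768)))) (a (b (c (l 16538464) (l 16537360)) (l 16531528)) (b (l 16546944) (l 16539848)))) (a (a (b (l 16557008) (l 16548488)) (b (l 16566024) (l 16555664))) (a (b (l 16572112) (l 16560000)) (b (l 16575048) (l 16561784)))))), by decide +kernel⟩

def k4_pm_202_a : ∃ t, chk3 f_pm_202_a t 1 11 1 = true :=
  ⟨(b (a (b (a (c (a (a (l 16453976) (l 16454976)) (a (l 16459752) (l 16453800))) (a (l 16454848) (l 16464968))) (a (a (c (l 16476064) (l 16479072)) (l 16550000)) (a (l 16497520) (l 16506792)))) (a (a (a (l 16461432) (l 16461584)) (c (l 16468744) (l 16470056))) (a (b (l 16526328) (l 16484456)) (a (l 16497680) (l 16507088))))) (a (a (a (c (l 16515064) (l 16516016)) (l 16568328)) (a (l 16506384) (l 16533384))) (a (a (l 16539424) (l 16543960)) (a (l 16545952) (l 16545512))))) (a (a (a (l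 16554248) (a (l 16492664) (l 16475264))) (a (a (l 16480976) (l 16487968)) (a (l 16495880) (l 16504088)))) (a (a (a (l 16512384) (l 16517512)) (a (l 16521760) (l 16525064))) (a (l 16571528) (a (l 16528904) (l 16525720)))))), by decide +kernel⟩

def k5_pm_202_a : ∃ t, chk3 f_pm_202_a t 1 3 1 = true :=
  ⟨(a (b (b (a (a (b (l 16478568) (l 16494744)) (b (a (l 16478024) (l 16481168)) (l 16494344))) (a (b (a (l 16486696) (l 16493192)) (l 16481976)) (b (a (l 16500240) (l 16506456)) (l 16511296)))) (a (b (a (l 16513688) (l 16537488)) (a (l 16534320) (l 16529624))) (a (b (b (l 16513304) (l 16520544)) (a (l 16552616) (l 16532456))) (b (l 16519528) (l 16529320))))) (a (b (b (a (l 16555912) (l 16548872)) (a (l 16577656) (l 16568264))) (a (b (l 16597936) (l 16618440)) (b (l 16586832) (l 16604096)))) (b (a (b (a (l 16548816) (l 16547952)) (l 16564848)) (b (l 16539928) (l 16550136))) (a (b (l 16580384) (l 16594712)) (b (l 16560376) (l 16569544)))))) (b (a (b (b (a (l 16555752)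 (a (l 16517136) (l 16517704))) (a (l 16512264) (l 16512560))) (a (b (l 16594856) (l 16509912)) (b (l 16549680) (l 16502696)))) (b (a (b (l 16518208) (l 16508320)) (a (l 16527904) (b (l 16508176) (l 16493120)))) (a (b (l 16604944) (l 16491704)) (b (l 16527464) (l 16473984))))) (a (b (a (l 16553424) (l 16494464)) (a (l 16551584) (l 16485440))) (b (a (b (l 16482464) (l 16472560)) (b (l 16462992) (l 16452848))) (a (b (l 16462264) (l 16452800)) (b (l 16442048) (l 16430920))))))), by decide +kernel⟩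

theorem s6_pm_202_a : ∃ t, chk3 f_pm_202_a t 1 10 1 = true := ex3_b k2_pm_202_a k3_pm_202_a

theorem s7_pm_202_a : ∃ t, chk3 f_pm_202_a t 1 5 1 = true := ex3_b s6_pm_202_a k4_pm_202_a

theorem s8_pm_202_a : ∃ t, chk3 f_pm_202_a t 1 4 1 = true := ex3_a k0_pm_202_a k1_pm_202_a

theorem s9_pm_202_a : ∃ t, chk3 f_pm_202_a t 1 2 1 = true := ex3_b s8_pm_202_a s7_pm_202_a

theorem s10_pm_202_a : ∃ t, chk3 f_pm_202_a t 1 1 1 = true := ex3_b s9_pm_202_a k5_pm_202_a

theorem c_pm_202_a : CertB 0 536870912 0 536870912 649613803 48318383 3 eng mog cd1q2a cd2q0 pd2 true true false .pp 2 0 2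
    ndB1q2a ndB2q0 pcB2 cut_pm_202_a Ext.none :=
  certB1 (fam := true) (s1 := true) (s2 := false) (a := 2) (b := 0) (c := 2) (cn := .pp) (n1 := ndB1q2a) (n2 := ndB2q0) (pc := pcB2) (cut := cut_pm_202_a) (xt := Ext.none) (P1 := 0) (W1 := 536870912) (P2 := 0) (W2 := 536870912) (P3 := 649613803) (W3 := 48318383) (N0 := 3) (En := eng) (mo := mog) (C1 := cd1q2a) (C2 := cd2q0) (C3 := pd2)
    rfl (fun _ => rfl) s10_pm_202_a

noncomputable def cut_pm_202_b : Cut := Cut.of [[⟨0, 1, 0, 67108864⟩, ⟨1, 0, 0, 67108864⟩, ⟨2, 1, 0, 67108864⟩]]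

noncomputable def f_pm_202_b : ℕ → ℕ → ℕ → ℕ → Bool := onCell 1239849684 370763052 1073741824 536870912 649613803 48318383
    (rowB 3 eng mog cd1q2b cd2q0 pd2 1 true true false .pp 2 0 2 (qsf 1239849684 370763052 0 536870912 2) ndB1q2b ndB2q0 pcB2 cut_pm_202_b Ext.none)

def k0_pm_202_b : ∃ t, chk3 f_pm_202_b t 1 1 1 = true :=
  ⟨(b (a (b (l 1) (b (a (a (b (b (l 1) (a (b (l 1) (c (a (l 16429400) (l 1)) (l 16422792))) (l 1))) (b (a (b (c (a (l 16427552) (l 1)) (l 16398184)) (a (b (l 16426336) (l 16425896)) (b (l 16299272) (l 16424672)))) (l 1)) (a (c (b (l 16419176) (l 16424560)) (l 16401872)) (c (l 142840358471) (l 16378256))))) (l 1)) (l 1)) (a (b (b (a (a (c (l 16389808) (l 16432800)) (l 16385216)) (l 16348384)) (a (l 16416464) (l 16330872))) (a (b (l 16420760) (l 16425360)) (a (l 16345352) (l 16270912)))) (b (l 1) (a (b (l 1) (l 16214928)) (l 1)))))) (l 1)) (a (b (b (a (a (b (l 16434664) (l 16452344)) (b (l 16336000) (l 16356936))) (b (a (l 16294984)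 (l 1)) (a (l 16258464) (l 16156400)))) (a (b (a (l 16558720) (b (l 16374312) (l 16387944))) (a (l 16501072) (l 16412432))) (b (a (l 16287456) (l 16211640)) (a (l 16320048) (l 16228984))))) (b (a (a (b (l 16528024) (l 16555032)) (b (l 16447328) (l 16482200))) (b (a (l 16357576) (l 16268992)) (l 16356824))) (a (b (a (l 16581776) (l 16516632)) (l 16648776)) (b (l 16400480) (l 16444232))))) (b (a (b (l 1) (b (a (l 16112976) (l 1)) (a (l 16135712) (l 16042440)))) (l 1)) (b (a (b (a (l 16181920) (l 16093608)) (l 16187928)) (b (l 1) (l 153577322215))) (a (b (l 16236720) (l 16287672)) (b (l 16083688) (l 16141512))))))), by decide +kernel⟩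

theorem c_pm_202_b : CertB 1239849684 370763052 0 536870912 649613803 48318383 3 eng mog cd1q2b cd2q0 pd2 true true false .pp 2 0 2
    ndB1q2b ndB2q0 pcB2 cut_pm_202_b Ext.none :=
  certB1 (fam := true) (s1 := true) (s2 := false) (a := 2) (b := 0) (c := 2) (cn := .pp) (n1 := ndB1q2b) (n2 := ndB2q0) (pc := pcB2) (cut := cut_pm_202_b) (xt := Ext.none) (P1 := 1239849684) (W1 := 370763052) (P2 := 0) (W2 := 536870912) (P3 := 649613803) (W3 := 48318383) (N0 := 3) (En := eng) (mo := mog) (C1 := cd1q2b) (C2 := cd2q0) (C3 := pd2)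
    rfl (fun _ => rfl) k0_pm_202_b

noncomputable def f_pm_203_a : ℕ → ℕ → ℕ → ℕ → Bool := onCell 0 536870912 1610612736 536870912 649613803 48318383
    (rowB 3 eng mog cd1q2a cd2q0 pd3 1 true true false .up 2 0 3 (qsf 0 536870912 0 536870912 3) ndB1q2a ndB2q0 pcB3 Cut.none Ext.none)

def k0_pm_203_a : ∃ t, chk3 f_pm_203_a t 1 1 1 = true :=
  ⟨(b (a (b (b (a (b (a (l 16623392) (l 16604408)) (l 16662288)) (a (l 16618160) (l 16606560))) (a (b (l 16700840) (l 16732752)) (a (l 16697624) (l 16682464)))) (b (a (b (l 16757512) (l 16775480)) (a (l 16754928) (l 16746912))) (l 2))) (a (b (b (a (l 16588144) (l 16563048)) (a (l 16660928) (l 16640656))) (l 2)) (b (b (a (l 16541512) (l 16527152)) (b (l 209480189655) (l 2))) (l 2)))) (l 2)), by decide +kernel⟩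

theorem c_pm_203_a : CertB 0 536870912 0 536870912 649613803 48318383 3 eng mog cd1q2a cd2q0 pd3 true true false .up 2 0 3
    ndB1q2a ndB2q0 pcB3 Cut.none Ext.none :=
  certB1 (fam := true) (s1 := true) (s2 := false) (a := 2) (b := 0) (c := 3) (cn := .up) (n1 := ndB1q2a) (n2 := ndB2q0) (pc := pcB3) (cut := Cut.none) (xt := Ext.none) (P1 := 0) (W1 := 536870912) (P2 := 0) (W2 := 536870912) (P3 := 649613803) (W3 := 48318383) (N0 := 3) (En := eng) (mo := mog) (C1 := cd1q2a) (C2 := cd2q0) (C3 := pd3)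
    rfl (fun _ => rfl) k0_pm_203_a

noncomputable def f_pm_203_b : ℕ → ℕ → ℕ → ℕ → Bool := onCell 1239849684 370763052 1610612736 536870912 649613803 48318383
    (rowB 3 eng mog cd1q2b cd2q0 pd3 1 true true false .up 2 0 3 (qsf 1239849684 370763052 0 536870912 3) ndB1q2b ndB2q0 pcB3 Cut.none Ext.none)

def k0_pm_203_b : ∃ t, chk3 f_pm_203_b t 1 1 1 = true :=
  ⟨(b (b (a (b (a (b (l 16601672) (l 16613200)) (l 16559848)) (a (b (l 16630104) (l 16678072)) (l 16562880))) (b (a (l 16414040) (l 16197896)) (a (l 16436912) (l 16289888)))) (b (b (a (a (l 16712880) (l 16614776)) (l 16446320)) (l 4)) (l 4))) (l 4)), by decide +kernel⟩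

theorem c_pm_203_b : CertB 1239849684 370763052 0 536870912 649613803 48318383 3 eng mog cd1q2b cd2q0 pd3 true true false .up 2 0 3
    ndB1q2b ndB2q0 pcB3 Cut.none Ext.none :=
  certB1 (fam := true) (s1 := true) (s2 := false) (a := 2) (b := 0) (c := 3) (cn := .up) (n1 := ndB1q2b) (n2 := ndB2q0) (pc := pcB3) (cut := Cut.none) (xt := Ext.none) (P1 := 1239849684) (W1 := 370763052) (P2 := 0) (W2 := 536870912) (P3 := 649613803) (W3 := 48318383) (N0 := 3) (En := eng) (mo := mog) (C1 := cd1q2b) (C2 := cd2q0) (C3 := pd3)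
    rfl (fun _ => rfl) k0_pm_203_b

noncomputable def f_pm_213_a : ℕ → ℕ → ℕ → ℕ → Bool := onCell 0 536870912 1610612736 536870912 649613803 48318383
    (rowB 3 eng mog cd1q2a cd2q1 pd3 1 true true false .pnn 2 1 3 (qsf 0 536870912 536870912 536870912 3) ndB1q2a ndB2q1 pcB3 Cut.none Ext.none)

def k0_pm_213_a : ∃ t, chk3 f_pm_213_a t 1 1 1 = true :=
  ⟨(a (b (b (b (l 1) (a (l 1) (a (l 1) (l 16744504)))) (b (a (b (l 16774760) (l 16760400)) (a (l 16790072) (l 16795424))) (a (l 68417522935) (a (l 16778616) (l 16829744))))) (b (a (l 4) (b (a (l 92576820375) (l 16897392)) (b (l 16825792) (l 4)))) (l 4))) (a (b (b (b (l 1) (a (l 16725728) (l 16708136))) (a (b (l 16798016) (l 16891528)) (b (b (l 16778808) (l 16839056)) (l 16907880)))) (b (a (b (b (l 16861328) (l 16824080)) (b (l 16791848) (l 16756008))) (b (b (l 16911640) (l 16908168)) (b (l 16866960) (l 16823432)))) (b (b (b (l 16779616) (l 16742424)) (a (l 4) (l 16750640))) (l 4)))) (b (b (b (a (l 16612256)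 (l 16596704)) (b (a (l 16679992) (l 16693272)) (a (l 16734808) (l 16772864)))) (b (b (b (a (l 16785872) (l 16848568)) (a (l 16825784) (b (l 16888696) (l 16892016)))) (b (a (l 16860304) (b (l 16880744) (l 16872672))) (l 16819392))) (a (l 16909216) (l 16919896)))) (b (b (a (a (l 16912544) (l 16921424)) (b (l 16939352) (l 16938752))) (b (a (l 16907848) (l 16929568)) (a (l 16886216) (l 17035624)))) (a (b (b (l 16966704) (l 16901688)) (b (b (l 16769696) (l 4)) (l 4))) (b (b (a (l 16868400) (l 16876424)) (l 16962496)) (b (b (l 16805288) (l 16788280)) (b (l 16760816) (l 4))))))))), by decide +kernel⟩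

theorem c_pm_213_a : CertB 0 536870912 536870912 536870912 649613803 48318383 3 eng mog cd1q2a cd2q1 pd3 true true false .pnn 2 1 3
    ndB1q2a ndB2q1 pcB3 Cut.none Ext.none :=
  certB1 (fam := true) (s1 := true) (s2 := false) (a := 2) (b := 1) (c := 3) (cn := .pnn) (n1 := ndB1q2a) (n2 := ndB2q1) (pc := pcB3) (cut := Cut.none) (xt := Ext.none) (P1 := 0) (W1 := 536870912) (P2 := 536870912) (W2 := 536870912) (P3 := 649613803) (W3 := 48318383) (N0 := 3) (En := eng) (mo := mog) (C1 := cd1q2a) (C2 := cd2q1) (C3 := pd3)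
    rfl (fun _ => rfl) k0_pm_213_a

noncomputable def f_pm_213_b : ℕ → ℕ → ℕ → ℕ → Bool := onCell 1239849684 370763052 536870912 536870912 649613803 48318383
    (rowB 3 eng mog cd1q2b cd2q1 pd3 0 true true false .pnn 2 1 3 (qsf 1239849684 370763052 536870912 536870912 3) ndB1q2b ndB2q1 pcB3 Cut.none Ext.none)

def k0_pm_213_b : ∃ t, chk3 f_pm_213_b t 1 1 1 = true :=
  ⟨(b (a (b (l 4) (l 4)) (l 4)) (l 4)), by decide +kernel⟩

theorem c_pm_213_b : CertB 1239849684 370763052 536870912 536870912 649613803 48318383 3 eng mog cd1q2b cd2q1 pd3 true true false .pnn 2 1 3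
    ndB1q2b ndB2q1 pcB3 Cut.none Ext.none :=
  certB0 (fam := true) (s1 := true) (s2 := false) (a := 2) (b := 1) (c := 3) (cn := .pnn) (n1 := ndB1q2b) (n2 := ndB2q1) (pc := pcB3) (cut := Cut.none) (xt := Ext.none) (P1 := 1239849684) (W1 := 370763052) (P2 := 536870912) (W2 := 536870912) (P3 := 649613803) (W3 := 48318383) (N0 := 3) (En := eng) (mo := mog) (C1 := cd1q2b) (C2 := cd2q1) (C3 := pd3)
    rfl k0_pm_213_b

noncomputable def f_pm_303 : ℕ → ℕ → ℕ → ℕ → Bool := onCell 1610612736 536870912 0 536870912 649613803 48318383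
    (rowB 3 eng mog cd1q3 cd2q0 pd3 2 true true false .npn 3 0 3 (qsf 1610612736 536870912 0 536870912 3) ndB1q3 ndB2q0 pcB3 Cut.none Ext.none)

def k0_pm_303 : ∃ t, chk3 f_pm_303 t 1 1 1 = true :=
  ⟨(a (a (b (a (b (l 16163432) (l 1)) (b (l 16141632) (l 16472176))) (l 1)) (a (b (b (l 16179472) (l 16374968)) (l 1)) (l 4))) (l 4)), by decide +kernel⟩

theorem c_pm_303 : CertB 1610612736 536870912 0 536870912 649613803 48318383 3 eng mog cd1q3 cd2q0 pd3 true true false .npn 3 0 3
    ndB1q3 ndB2q0 pcB3 Cut.none Ext.none :=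
  certB2 (fam := true) (s1 := true) (s2 := false) (a := 3) (b := 0) (c := 3) (cn := .npn) (n1 := ndB1q3) (n2 := ndB2q0) (pc := pcB3) (cut := Cut.none) (xt := Ext.none) (P1 := 1610612736) (W1 := 536870912) (P2 := 0) (W2 := 536870912) (P3 := 649613803) (W3 := 48318383) (N0 := 3) (En := eng) (mo := mog) (C1 := cd1q3) (C2 := cd2q0) (C3 := pd3)
    rfl (fun _ => rfl) k0_pm_303

noncomputable def f_pm_313 : ℕ → ℕ → ℕ → ℕ → Bool := onCell 1610612736 536870912 536870912 536870912 649613803 48318383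
    (rowB 3 eng mog cd1q3 cd2q1 pd3 0 true true false .dn 3 1 3 (qsf 1610612736 536870912 536870912 536870912 3) ndB1q3 ndB2q1 pcB3 Cut.none Ext.none)

def k0_pm_313 : ∃ t, chk3 f_pm_313 t 1 1 1 = true :=
  ⟨(l 4), by decide +kernel⟩

theorem c_pm_313 : CertB 1610612736 536870912 536870912 536870912 649613803 48318383 3 eng mog cd1q3 cd2q1 pd3 true true false .dn 3 1 3
    ndB1q3 ndB2q1 pcB3 Cut.none Ext.none :=
  certB0 (fam := true) (s1 := true) (s2 := false) (a := 3) (b := 1) (c := 3) (cn := .dn) (n1 := ndB1q3) (n2 := ndB2q1) (pc := pcB3) (cut := Cut.none) (xt := Ext.none) (P1 := 1610612736) (W1 := 536870912) (P2 := 536870912) (W2 := 536870912) (P3 := 649613803) (W3 := 48318383) (N0 := 3) (En := eng) (mo := mog) (C1 := cd1q3) (C2 := cd2q1) (C3 := pd3)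
    rfl k0_pm_313

noncomputable def f_mm_001 : ℕ → ℕ → ℕ → ℕ → Bool := onCell 0 536870912 0 536870912 649613803 48318383
    (rowB 3 eng mog cd1q0 cd2q0 pd1 0 true false false .up 0 0 1 (qsf 0 536870912 0 536870912 1) ndB1q0 ndB2q0 pcB1 Cut.none Ext.none)

def k0_mm_001 : ∃ t, chk3 f_mm_001 t 1 1 1 = true :=
  ⟨(l 4), by decide +kernel⟩

theorem c_mm_001 : CertB 0 536870912 0 536870912 649613803 48318383 3 eng mog cd1q0 cd2q0 pd1 true false false .up 0 0 1
    ndB1q0 ndB2q0 pcB1 Cut.none Ext.none :=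
  certB0 (fam := true) (s1 := false) (s2 := false) (a := 0) (b := 0) (c := 1) (cn := .up) (n1 := ndB1q0) (n2 := ndB2q0) (pc := pcB1) (cut := Cut.none) (xt := Ext.none) (P1 := 0) (W1 := 536870912) (P2 := 0) (W2 := 536870912) (P3 := 649613803) (W3 := 48318383) (N0 := 3) (En := eng) (mo := mog) (C1 := cd1q0) (C2 := cd2q0) (C3 := pd1)
    rfl k0_mm_001

noncomputable def f_mm_011 : ℕ → ℕ → ℕ → ℕ → Bool := onCell 0 536870912 536870912 536870912 649613803 48318383
    (rowB 3 eng mog cd1q0 cd2q1 pd1 0 true false false .pnn 0 1 1 (qsf 0 536870912 536870912 536870912 1) ndB1q0 ndB2q1 pcB1 Cut.none Ext.none)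

def k0_mm_011 : ∃ t, chk3 f_mm_011 t 1 1 1 = true :=
  ⟨(l 4), by decide +kernel⟩

theorem c_mm_011 : CertB 0 536870912 536870912 536870912 649613803 48318383 3 eng mog cd1q0 cd2q1 pd1 true false false .pnn 0 1 1
    ndB1q0 ndB2q1 pcB1 Cut.none Ext.none :=
  certB0 (fam := true) (s1 := false) (s2 := false) (a := 0) (b := 1) (c := 1) (cn := .pnn) (n1 := ndB1q0) (n2 := ndB2q1) (pc := pcB1) (cut := Cut.none) (xt := Ext.none) (P1 := 0) (W1 := 536870912) (P2 := 536870912) (W2 := 536870912) (P3 := 649613803) (W3 := 48318383) (N0 := 3) (En := eng) (mo := mog) (C1 := cd1q0) (C2 := cd2q1) (C3 := pd1)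
    rfl k0_mm_011

noncomputable def f_mm_012 : ℕ → ℕ → ℕ → ℕ → Bool := onCell 0 536870912 536870912 536870912 649613803 48318383
    (rowB 3 eng mog cd1q0 cd2q1 pd2 0 true false false .pnp 0 1 2 (qsf 0 536870912 536870912 536870912 2) ndB1q0 ndB2q1 pcB2 Cut.none Ext.none)

def k0_mm_012 : ∃ t, chk3 f_mm_012 t 1 1 1 = true :=
  ⟨(l 4), by decide +kernel⟩

theorem c_mm_012 : CertB 0 536870912 536870912 536870912 649613803 48318383 3 eng mog cd1q0 cd2q1 pd2 true false false .pnp 0 1 2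
    ndB1q0 ndB2q1 pcB2 Cut.none Ext.none :=
  certB0 (fam := true) (s1 := false) (s2 := false) (a := 0) (b := 1) (c := 2) (cn := .pnp) (n1 := ndB1q0) (n2 := ndB2q1) (pc := pcB2) (cut := Cut.none) (xt := Ext.none) (P1 := 0) (W1 := 536870912) (P2 := 536870912) (W2 := 536870912) (P3 := 649613803) (W3 := 48318383) (N0 := 3) (En := eng) (mo := mog) (C1 := cd1q0) (C2 := cd2q1) (C3 := pd2)
    rfl k0_mm_012

noncomputable def f_mm_022_a : ℕ → ℕ → ℕ → ℕ → Bool := onCell 0 536870912 0 536870912 649613803 48318383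
    (rowB 3 eng mog cd1q0 cd2q2a pd2 0 true false false .pp 0 2 2 (qsf 0 536870912 0 536870912 2) ndB1q0 ndB2q2a pcB2 Cut.none Ext.none)

def k0_mm_022_a : ∃ t, chk3 f_mm_022_a t 1 1 1 = true :=
  ⟨(l 5), by decide +kernel⟩

theorem c_mm_022_a : CertB 0 536870912 0 536870912 649613803 48318383 3 eng mog cd1q0 cd2q2a pd2 true false false .pp 0 2 2
    ndB1q0 ndB2q2a pcB2 Cut.none Ext.none :=
  certB0 (fam := true) (s1 := false) (s2 := false) (a := 0) (b := 2) (c := 2) (cn := .pp) (n1 := ndB1q0) (n2 := ndB2q2a) (pc := pcB2) (cut := Cut.none) (xt := Ext.none) (P1 := 0) (W1 := 536870912) (P2 := 0) (W2 := 536870912) (P3 := 649613803) (W3 := 48318383) (N0 := 3) (En := eng) (mo := mog) (C1 := cd1q0) (C2 := cd2q2a) (C3 := pd2)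
    rfl k0_mm_022_a

noncomputable def f_mm_022_b : ℕ → ℕ → ℕ → ℕ → Bool := onCell 0 536870912 1239849684 370763052 649613803 48318383
    (rowB 3 eng mog cd1q0 cd2q2b pd2 0 true false false .pp 0 2 2 (qsf 0 536870912 1239849684 370763052 2) ndB1q0 ndB2q2b pcB2 Cut.none Ext.none)

def k0_mm_022_b : ∃ t, chk3 f_mm_022_b t 1 1 1 = true :=
  ⟨(l 5), by decide +kernel⟩

theorem c_mm_022_b : CertB 0 536870912 1239849684 370763052 649613803 48318383 3 eng mog cd1q0 cd2q2b pd2 true false false .pp 0 2 2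
    ndB1q0 ndB2q2b pcB2 Cut.none Ext.none :=
  certB0 (fam := true) (s1 := false) (s2 := false) (a := 0) (b := 2) (c := 2) (cn := .pp) (n1 := ndB1q0) (n2 := ndB2q2b) (pc := pcB2) (cut := Cut.none) (xt := Ext.none) (P1 := 0) (W1 := 536870912) (P2 := 1239849684) (W2 := 370763052) (P3 := 649613803) (W3 := 48318383) (N0 := 3) (En := eng) (mo := mog) (C1 := cd1q0) (C2 := cd2q2b) (C3 := pd2)
    rfl k0_mm_022_b

noncomputable def f_mm_023_a : ℕ → ℕ → ℕ → ℕ → Bool := onCell 0 536870912 0 536870912 649613803 48318383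
    (rowB 3 eng mog cd1q0 cd2q2a pd3 0 true false false .up 0 2 3 (qsf 0 536870912 0 536870912 3) ndB1q0 ndB2q2a pcB3 Cut.none Ext.none)

def k0_mm_023_a : ∃ t, chk3 f_mm_023_a t 1 1 1 = true :=
  ⟨(l 5), by decide +kernel⟩

theorem c_mm_023_a : CertB 0 536870912 0 536870912 649613803 48318383 3 eng mog cd1q0 cd2q2a pd3 true false false .up 0 2 3
    ndB1q0 ndB2q2a pcB3 Cut.none Ext.none :=
  certB0 (fam := true) (s1 := false) (s2 := false) (a := 0) (b := 2) (c := 3) (cn := .up) (n1 := ndB1q0) (n2 := ndB2q2a) (pc := pcB3) (cut := Cut.none) (xt := Ext.none) (P1 := 0) (W1 := 536870912) (P2 := 0) (W2 := 536870912) (P3 := 649613803) (W3 := 48318383) (N0 := 3) (En := eng) (mo := mog) (C1 := cd1q0) (C2 := cd2q2a) (C3 := pd3)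
    rfl k0_mm_023_a

noncomputable def f_mm_023_b : ℕ → ℕ → ℕ → ℕ → Bool := onCell 0 536870912 1239849684 370763052 649613803 48318383
    (rowB 3 eng mog cd1q0 cd2q2b pd3 0 true false false .up 0 2 3 (qsf 0 536870912 1239849684 370763052 3) ndB1q0 ndB2q2b pcB3 Cut.none Ext.none)

def k0_mm_023_b : ∃ t, chk3 f_mm_023_b t 1 1 1 = true :=
  ⟨(l 5), by decide +kernel⟩

theorem c_mm_023_b : CertB 0 536870912 1239849684 370763052 649613803 48318383 3 eng mog cd1q0 cd2q2b pd3 true false false .up 0 2 3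
    ndB1q0 ndB2q2b pcB3 Cut.none Ext.none :=
  certB0 (fam := true) (s1 := false) (s2 := false) (a := 0) (b := 2) (c := 3) (cn := .up) (n1 := ndB1q0) (n2 := ndB2q2b) (pc := pcB3) (cut := Cut.none) (xt := Ext.none) (P1 := 0) (W1 := 536870912) (P2 := 1239849684) (W2 := 370763052) (P3 := 649613803) (W3 := 48318383) (N0 := 3) (En := eng) (mo := mog) (C1 := cd1q0) (C2 := cd2q2b) (C3 := pd3)
    rfl k0_mm_023_b

noncomputable def f_mm_033 : ℕ → ℕ → ℕ → ℕ → Bool := onCell 0 536870912 1610612736 536870912 649613803 48318383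
    (rowB 3 eng mog cd1q0 cd2q3 pd3 0 true false false .pnn 0 3 3 (qsf 0 536870912 1610612736 536870912 3) ndB1q0 ndB2q3 pcB3 Cut.none Ext.none)

def k0_mm_033 : ∃ t, chk3 f_mm_033 t 1 1 1 = true :=
  ⟨(l 5), by decide +kernel⟩

theorem c_mm_033 : CertB 0 536870912 1610612736 536870912 649613803 48318383 3 eng mog cd1q0 cd2q3 pd3 true false false .pnn 0 3 3
    ndB1q0 ndB2q3 pcB3 Cut.none Ext.none :=
  certB0 (fam := true) (s1 := false) (s2 := false) (a := 0) (b := 3) (c := 3) (cn := .pnn) (n1 := ndB1q0) (n2 := ndB2q3) (pc := pcB3) (cut := Cut.none) (xt := Ext.none) (P1 := 0) (W1 := 536870912) (P2 := 1610612736) (W2 := 536870912) (P3 := 649613803) (W3 := 48318383) (N0 := 3) (En := eng) (mo := mog) (C1 := cd1q0) (C2 := cd2q3) (C3 := pd3)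
    rfl k0_mm_033

noncomputable def f_mm_101 : ℕ → ℕ → ℕ → ℕ → Bool := onCell 536870912 536870912 0 536870912 649613803 48318383
    (rowB 3 eng mog cd1q1 cd2q0 pd1 0 true false false .npn 1 0 1 (qsf 536870912 536870912 0 536870912 1) ndB1q1 ndB2q0 pcB1 Cut.none Ext.none)

def k0_mm_101 : ∃ t, chk3 f_mm_101 t 1 1 1 = true :=
  ⟨(l 4), by decide +kernel⟩

theorem c_mm_101 : CertB 536870912 536870912 0 536870912 649613803 48318383 3 eng mog cd1q1 cd2q0 pd1 true false false .npn 1 0 1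
    ndB1q1 ndB2q0 pcB1 Cut.none Ext.none :=
  certB0 (fam := true) (s1 := false) (s2 := false) (a := 1) (b := 0) (c := 1) (cn := .npn) (n1 := ndB1q1) (n2 := ndB2q0) (pc := pcB1) (cut := Cut.none) (xt := Ext.none) (P1 := 536870912) (W1 := 536870912) (P2 := 0) (W2 := 536870912) (P3 := 649613803) (W3 := 48318383) (N0 := 3) (En := eng) (mo := mog) (C1 := cd1q1) (C2 := cd2q0) (C3 := pd1)
    rfl k0_mm_101

noncomputable def f_mm_102 : ℕ → ℕ → ℕ → ℕ → Bool := onCell 536870912 536870912 0 536870912 649613803 48318383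
    (rowB 3 eng mog cd1q1 cd2q0 pd2 0 true false false .npp 1 0 2 (qsf 536870912 536870912 0 536870912 2) ndB1q1 ndB2q0 pcB2 Cut.none Ext.none)

def k0_mm_102 : ∃ t, chk3 f_mm_102 t 1 1 1 = true :=
  ⟨(l 4), by decide +kernel⟩

theorem c_mm_102 : CertB 536870912 536870912 0 536870912 649613803 48318383 3 eng mog cd1q1 cd2q0 pd2 true false false .npp 1 0 2
    ndB1q1 ndB2q0 pcB2 Cut.none Ext.none :=
  certB0 (fam := true) (s1 := false) (s2 := false) (a := 1) (b := 0) (c := 2) (cn := .npp) (n1 := ndB1q1) (n2 := ndB2q0) (pc := pcB2) (cut := Cut.none) (xt := Ext.none) (P1 := 536870912) (W1 := 536870912) (P2 := 0) (W2 := 536870912) (P3 := 649613803) (W3 := 48318383) (N0 := 3) (En := eng) (mo := mog) (C1 := cd1q1) (C2 := cd2q0) (C3 := pd2)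
    rfl k0_mm_102

noncomputable def f_mm_112 : ℕ → ℕ → ℕ → ℕ → Bool := onCell 536870912 536870912 536870912 536870912 649613803 48318383
    (rowB 3 eng mog cd1q1 cd2q1 pd2 0 true false false .dn 1 1 2 (qsf 536870912 536870912 536870912 536870912 2) ndB1q1 ndB2q1 pcB2 Cut.none Ext.none)

def k0_mm_112 : ∃ t, chk3 f_mm_112 t 1 1 1 = true :=
  ⟨(l 4), by decide +kernel⟩

theorem c_mm_112 : CertB 536870912 536870912 536870912 536870912 649613803 48318383 3 eng mog cd1q1 cd2q1 pd2 true false false .dn 1 1 2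
    ndB1q1 ndB2q1 pcB2 Cut.none Ext.none :=
  certB0 (fam := true) (s1 := false) (s2 := false) (a := 1) (b := 1) (c := 2) (cn := .dn) (n1 := ndB1q1) (n2 := ndB2q1) (pc := pcB2) (cut := Cut.none) (xt := Ext.none) (P1 := 536870912) (W1 := 536870912) (P2 := 536870912) (W2 := 536870912) (P3 := 649613803) (W3 := 48318383) (N0 := 3) (En := eng) (mo := mog) (C1 := cd1q1) (C2 := cd2q1) (C3 := pd2)
    rfl k0_mm_112

noncomputable def f_mm_113 : ℕ → ℕ → ℕ → ℕ → Bool := onCell 536870912 536870912 536870912 536870912 649613803 48318383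
    (rowB 3 eng mog cd1q1 cd2q1 pd3 0 true false false .nn 1 1 3 (qsf 536870912 536870912 536870912 536870912 3) ndB1q1 ndB2q1 pcB3 Cut.none Ext.none)

def k0_mm_113 : ∃ t, chk3 f_mm_113 t 1 1 1 = true :=
  ⟨(l 4), by decide +kernel⟩

theorem c_mm_113 : CertB 536870912 536870912 536870912 536870912 649613803 48318383 3 eng mog cd1q1 cd2q1 pd3 true false false .nn 1 1 3
    ndB1q1 ndB2q1 pcB3 Cut.none Ext.none :=
  certB0 (fam := true) (s1 := false) (s2 := false) (a := 1) (b := 1) (c := 3) (cn := .nn) (n1 := ndB1q1) (n2 := ndB2q1) (pc := pcB3) (cut := Cut.none) (xt := Ext.none) (P1 := 536870912) (W1 := 536870912) (P2 := 536870912) (W2 := 536870912) (P3 := 649613803) (W3 := 48318383) (N0 := 3) (En := eng) (mo := mog) (C1 := cd1q1) (C2 := cd2q1) (C3 := pd3)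
    rfl k0_mm_113

noncomputable def f_mm_123_a : ℕ → ℕ → ℕ → ℕ → Bool := onCell 536870912 536870912 0 536870912 649613803 48318383
    (rowB 3 eng mog cd1q1 cd2q2a pd3 0 true false false .npn 1 2 3 (qsf 536870912 536870912 0 536870912 3) ndB1q1 ndB2q2a pcB3 Cut.none Ext.none)

def k0_mm_123_a : ∃ t, chk3 f_mm_123_a t 1 1 1 = true :=
  ⟨(l 5), by decide +kernel⟩

theorem c_mm_123_a : CertB 536870912 536870912 0 536870912 649613803 48318383 3 eng mog cd1q1 cd2q2a pd3 true false false .npn 1 2 3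
    ndB1q1 ndB2q2a pcB3 Cut.none Ext.none :=
  certB0 (fam := true) (s1 := false) (s2 := false) (a := 1) (b := 2) (c := 3) (cn := .npn) (n1 := ndB1q1) (n2 := ndB2q2a) (pc := pcB3) (cut := Cut.none) (xt := Ext.none) (P1 := 536870912) (W1 := 536870912) (P2 := 0) (W2 := 536870912) (P3 := 649613803) (W3 := 48318383) (N0 := 3) (En := eng) (mo := mog) (C1 := cd1q1) (C2 := cd2q2a) (C3 := pd3)
    rfl k0_mm_123_a

noncomputable def f_mm_123_b : ℕ → ℕ → ℕ → ℕ → Bool := onCell 536870912 536870912 1239849684 370763052 649613803 48318383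
    (rowB 3 eng mog cd1q1 cd2q2b pd3 0 true false false .npn 1 2 3 (qsf 536870912 536870912 1239849684 370763052 3) ndB1q1 ndB2q2b pcB3 Cut.none Ext.none)

def k0_mm_123_b : ∃ t, chk3 f_mm_123_b t 1 1 1 = true :=
  ⟨(l 5), by decide +kernel⟩

theorem c_mm_123_b : CertB 536870912 536870912 1239849684 370763052 649613803 48318383 3 eng mog cd1q1 cd2q2b pd3 true false false .npn 1 2 3
    ndB1q1 ndB2q2b pcB3 Cut.none Ext.none :=
  certB0 (fam := true) (s1 := false) (s2 := false) (a := 1) (b := 2) (c := 3) (cn := .npn) (n1 := ndB1q1) (n2 := ndB2q2b) (pc := pcB3) (cut := Cut.none) (xt := Ext.none) (P1 := 536870912) (W1 := 536870912) (P2 := 1239849684) (W2 := 370763052) (P3 := 649613803) (W3 := 48318383) (N0 := 3) (En := eng) (mo := mog) (C1 := cd1q1) (C2 := cd2q2b) (C3 := pd3)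
    rfl k0_mm_123_b

noncomputable def f_mm_133 : ℕ → ℕ → ℕ → ℕ → Bool := onCell 536870912 536870912 1610612736 536870912 649613803 48318383
    (rowB 3 eng mog cd1q1 cd2q3 pd3 0 true false false .dn 1 3 3 (qsf 536870912 536870912 1610612736 536870912 3) ndB1q1 ndB2q3 pcB3 Cut.none Ext.none)

def k0_mm_133 : ∃ t, chk3 f_mm_133 t 1 1 1 = true :=
  ⟨(l 4), by decide +kernel⟩

theorem c_mm_133 : CertB 536870912 536870912 1610612736 536870912 649613803 48318383 3 eng mog cd1q1 cd2q3 pd3 true false false .dn 1 3 3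
    ndB1q1 ndB2q3 pcB3 Cut.none Ext.none :=
  certB0 (fam := true) (s1 := false) (s2 := false) (a := 1) (b := 3) (c := 3) (cn := .dn) (n1 := ndB1q1) (n2 := ndB2q3) (pc := pcB3) (cut := Cut.none) (xt := Ext.none) (P1 := 536870912) (W1 := 536870912) (P2 := 1610612736) (W2 := 536870912) (P3 := 649613803) (W3 := 48318383) (N0 := 3) (En := eng) (mo := mog) (C1 := cd1q1) (C2 := cd2q3) (C3 := pd3)
    rfl k0_mm_133

noncomputable def cut_mm_202_a : Cut := Cut.of [[⟨0, 1, 0, 67108864⟩, ⟨1, 0, 0, 67108864⟩, ⟨2, 1, 0, 67108864⟩]]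

noncomputable def f_mm_202_a : ℕ → ℕ → ℕ → ℕ → Bool := onCell 0 536870912 0 536870912 649613803 48318383
    (rowB 3 eng mog cd1q2a cd2q0 pd2 0 true false false .pp 2 0 2 (qsf 0 536870912 0 536870912 2) ndB1q2a ndB2q0 pcB2 cut_mm_202_a Ext.none)

def k0_mm_202_a : ∃ t, chk3 f_mm_202_a t 2 2 1 = true :=
  ⟨(b (b (a (b (b (a (c (a (l 16442744) (l 16446208)) (l 16455528)) (c (a (l 16451752) (l 16459328)) (l 16455552))) (a (b (a (l 16445672) (l 16449024)) (l 16453456)) (a (b (l 16454144) (l 16459840)) (b (l 16461344) (l 16466088))))) (a (b (l 16461848) (l 16471832)) (b (a (l 16468744) (l 16475376)) (l 16483280)))) (b (a (b (a (b (l 16467144) (l 16468672)) (a (b (l 16475832) (l 16477656)) (l 16483736))) (b (a (l 16470808) (l 16483688)) (a (a (l 16471784) (l 16476568)) (l 16486600)))) (a (b (a (b (l 16490408) (l 16492592)) (b (l 16499336) (l 16501688))) (a (l 16496744) (l 16506080))) (b (a (b (l 16509360) (l 16511880)) (b (c (l 16520336) (l 16520536)) (l 16522904)))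 (b (a (l 16514864) (l 16526048)) (l 16544936))))) (a (a (b (l 16483456) (l 16495512)) (b (b (l 16491256) (l 16497568)) (l 16507064))) (b (a (b (a (l 16502040) (l 16511416)) (a (l 16507728) (l 16516312))) (b (l 16548840) (a (l 16526488) (l 16537968)))) (a (l 16521880) (b (a (l 16532480) (l 16543272)) (l 16544560))))))) (a (b (a (l 16484600) (l 16582088)) (a (l 16519832) (l 16515488))) (a (b (a (l 16512064) (l 16524768)) (l 16539424)) (b (b (a (l 16534560) (l 16554528)) (a (l 16546656) (l 16567352))) (a (l 16564056) (l 16585936)))))) (b (a (a (b (c (l 16561096) (l 16517744)) (b (l 16556408) (l 16630608))) (b (l 16537040) (l 16583880))) (a (b (l 16563792) (l 16591856)) (b (a (l 16590320) (l 16676296)) (a (l 16619832) (l 16643808))))) (a (b (a (l 16566104) (l 16587680)) (a (l 16592888) (l 16611792))) (b (a (l 16620080) (a (l 16649888) (b (l 16667056) (l 16682336)))) (a (l 16647904) (a (l 16679144) (l 4))))))), by decide +kernel⟩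

def k1_mm_202_a : ∃ t, chk3 f_mm_202_a t 6 4 1 = true :=
  ⟨(b (a (b (a (b (a (b (c (l 16531896) (l 16532552)) (c (l 16535184) (l 16534976))) (b (l 16544840) (l 16547840))) (a (b (l 16538176) (l 16541912)) (b (l 16551296) (l 16555184)))) (b (a (b (l 16558592) (l 16561744)) (b (a (l 16566192) (l 16571208)) (l 16576344))) (a (l 16567320) (l 16582128)))) (a (a (b (l 16548256) (b (l 16555504) (l 16561624))) (b (l 16561760) (b (l 16569168) (l 16574776)))) (b (b (l 16581360) (l 16586248)) (a (l 16607512) (l 16601936))))) (b (b (a (b (a (c (l 16580296) (l 16577584)) (c (l 16591304) (l 16588192))) (a (l 16587896) (l 16599120))) (a (b (a (l 16598192) (l 16604592)) (l 16569176)) (b (b (l 16612440) (l 16617576)) (l 16646032)))) (a (a (l 16597272) (l 16612272)) (b (a (l 16620408) (l 16634656)) (l 16647088)))) (b (a (a (l 16606720) (l 16623032)) (a (l 16639920) (l 16656104))) (a (l 16625928) (l 16680600))))) (a (b (a (b (l 16578392) (l 16591912)) (b (a (b (l 16595552)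 (l 16602504)) (l 16614160)) (l 16641464))) (a (l 16622072) (l 16641168))) (b (b (a (a (l 16629848) (l 16646656)) (l 16672472)) (a (a (l 16601720) (l 16660376)) (b (l 16682808) (l 16731984)))) (b (a (l 16666344) (b (l 16718552) (l 16705280))) (a (l 16680768) (l 16717016)))))), by decide +kernel⟩

def k2_mm_202_a : ∃ t, chk3 f_mm_202_a t 7 4 1 = true :=
  ⟨(b (a (b (b (a (a (b (b (l 16626880) (l 16632176)) (l 16660872)) (b (b (a (l 16638168) (l 16646184)) (l 16668608)) (c (l 16656960) (l 16675136)))) (b (a (b (l 6) (l 16680672)) (l 6)) (a (a (l 16668528) (l 16698608)) (a (l 16700112) (l 6))))) (a (a (b (l 16607864) (l 16659280)) (b (a (l 16661640) (l 16669984)) (l 16675608))) (a (b (a (l 16678936) (l 16667184)) (l 16693584)) (b (a (l 16676664) (l 16707376)) (l 16712768))))) (b (a (a (l 16672760) (l 16689528)) (a (l 16728072) (b (l 16721464) (l 16727456)))) (a (a (l 16684768) (l 16702328)) (a (l 16745992) (b (l 16734616) (l 4)))))) (b (a (b (l 6) (a (b (l 6)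 (a (l 16727808) (l 16738128))) (l 6))) (l 6)) (a (b (a (b (a (l 16734728) (l 16744352)) (a (l 16741696) (l 4))) (a (b (l 16754568) (l 4)) (l 4))) (l 4)) (l 4)))) (a (b (a (b (a (l 16698008) (l 16716336)) (b (l 16718640) (l 16726712))) (a (b (l 16756288) (l 4)) (l 4))) (l 4)) (l 4))), by decide +kernel⟩

def k3_mm_202_a : ∃ t, chk3 f_mm_202_a t 3 5 1 = true :=
  ⟨(a (b (a (b (a (b (l 16632480) (l 16647752)) (l 16670680)) (a (b (l 16663384) (l 16679296)) (l 16723920))) (b (a (b (l 16696232) (l 4)) (l 4)) (l 4))) (a (b (b (l 49626999543) (l 4)) (l 4)) (l 4))) (l 4)), by decide +kernel⟩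

def k4_mm_202_a : ∃ t, chk3 f_mm_202_a t 1 3 1 = true :=
  ⟨(a (a (b (a (b (b (l 16619400) (l 16644088)) (b (l 16663944) (l 16700448))) (b (b (l 16638952) (l 16668464)) (b (l 16698808) (l 16729648)))) (l 2)) (b (b (a (b (a (l 16666856) (l 16685992)) (l 16808024)) (l 4)) (l 4)) (l 4))) (l 4)), by decide +kernel⟩

theorem s5_mm_202_a : ∃ t, chk3 f_mm_202_a t 3 4 1 = true := ex3_a k1_mm_202_a k2_mm_202_a

theorem s6_mm_202_a : ∃ t, chk3 f_mm_202_a t 3 2 1 = true := ex3_b s5_mm_202_a k3_mm_202_a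

theorem s7_mm_202_a : ∃ t, chk3 f_mm_202_a t 1 2 1 = true := ex3_a k0_mm_202_a s6_mm_202_a

theorem s8_mm_202_a : ∃ t, chk3 f_mm_202_a t 1 1 1 = true := ex3_b s7_mm_202_a k4_mm_202_a

theorem c_mm_202_a : CertB 0 536870912 0 536870912 649613803 48318383 3 eng mog cd1q2a cd2q0 pd2 true false false .pp 2 0 2
    ndB1q2a ndB2q0 pcB2 cut_mm_202_a Ext.none :=
  certB0 (fam := true) (s1 := false) (s2 := false) (a := 2) (b := 0) (c := 2) (cn := .pp) (n1 := ndB1q2a) (n2 := ndB2q0) (pc := pcB2) (cut := cut_mm_202_a) (xt := Ext.none) (P1 := 0) (W1 := 536870912) (P2 := 0) (W2 := 536870912) (P3 := 649613803) (W3 := 48318383) (N0 := 3) (En := eng) (mo := mog) (C1 := cd1q2a) (C2 := cd2q0) (C3 := pd2)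
    rfl s8_mm_202_a

noncomputable def cut_mm_202_b : Cut := Cut.of [[⟨0, 1, 0, 67108864⟩, ⟨1, 0, 0, 67108864⟩, ⟨2, 1, 0, 67108864⟩]]

noncomputable def f_mm_202_b : ℕ → ℕ → ℕ → ℕ → Bool := onCell 1073741824 536870912 0 536870912 649613803 48318383
    (rowB 3 eng mog cd1q2b cd2q0 pd2 2 true false false .pp 2 0 2 (qsf 1239849684 370763052 0 536870912 2) ndB1q2b ndB2q0 pcB2 cut_mm_202_b Ext.none)

def k0_mm_202_b : ∃ t, chk3 f_mm_202_b t 1 1 1 = true :=
  ⟨(a (b (a (l 1) (b (a (b (a (a (l 1) (a (l 1) (b (l 161094219399) (l 1)))) (a (b (c (a (l 16464232) (l 16468384)) (l 16450280)) (l 1)) (b (b (l 16388904) (l 131029344327)) (l 430066488407)))) (l 1)) (a (b (b (a (l 16402344) (l 16373144)) (a (l 98817190631) (l 16447480))) (b (l 316786876823) (l 1))) (b (b (l 16322608) (l 16401120)) (b (l 16476888) (l 163241900727))))) (l 1))) (l 1)) (a (b (b (a (b (b (a (l 16262264) (l 16209128)) (l 16332920)) (a (b (l 16416080) (l 16489808)) (l 16481712))) (b (a (b (l 16162552)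 (l 16237264)) (l 16162312)) (a (a (l 16401520) (l 16378160)) (b (l 16270128) (l 16341192))))) (a (b (b (a (l 185790527623) (l 16530216)) (a (l 1) (l 230887685895))) (l 1)) (b (a (b (l 16500912) (a (l 133177168999) (l 16613928))) (b (l 16415992) (l 16489328))) (a (b (a (l 1) (l 342019958311)) (l 1)) (b (a (l 117607980951) (l 16546800)) (l 348462475671)))))) (l 1)) (b (b (a (b (a (l 16133824) (l 16113032)) (a (l 16272456) (l 16245808))) (b (l 16093216) (l 16215976))) (a (b (a (l 16437824) (l 16385944)) (a (l 44056794535) (l 16521096))) (a (b (l 16360240) (l 16493056)) (l 16552176)))) (b (a (b (a (l 303902174823) (b (l 16607760) (l 300144198103))) (l 1)) (b (a (l 16629584) (l 16584728)) (a (l 315176673783) (l 194380702871)))) (l 1))))), by decide +kernel⟩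

theorem c_mm_202_b : CertB 1239849684 370763052 0 536870912 649613803 48318383 3 eng mog cd1q2b cd2q0 pd2 true false false .pp 2 0 2
    ndB1q2b ndB2q0 pcB2 cut_mm_202_b Ext.none :=
  certB2 (fam := true) (s1 := false) (s2 := false) (a := 2) (b := 0) (c := 2) (cn := .pp) (n1 := ndB1q2b) (n2 := ndB2q0) (pc := pcB2) (cut := cut_mm_202_b) (xt := Ext.none) (P1 := 1239849684) (W1 := 370763052) (P2 := 0) (W2 := 536870912) (P3 := 649613803) (W3 := 48318383) (N0 := 3) (En := eng) (mo := mog) (C1 := cd1q2b) (C2 := cd2q0) (C3 := pd2)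
    rfl (fun _ => rfl) k0_mm_202_b

noncomputable def f_mm_203_a : ℕ → ℕ → ℕ → ℕ → Bool := onCell 0 536870912 1610612736 536870912 649613803 48318383
    (rowB 3 eng mog cd1q2a cd2q0 pd3 1 true false false .up 2 0 3 (qsf 0 536870912 0 536870912 3) ndB1q2a ndB2q0 pcB3 Cut.none Ext.none)

def k0_mm_203_a : ∃ t, chk3 f_mm_203_a t 1 1 1 = true :=
  ⟨(b (b (a (a (b (b (a (l 16705480) (l 16736232)) (l 16752664)) (b (l 16772120) (l 4))) (l 4)) (l 4)) (l 4)) (l 2)), by decide +kernel⟩

theorem c_mm_203_a : CertB 0 536870912 0 536870912 649613803 48318383 3 eng mog cd1q2a cd2q0 pd3 true false false .up 2 0 3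
    ndB1q2a ndB2q0 pcB3 Cut.none Ext.none :=
  certB1 (fam := true) (s1 := false) (s2 := false) (a := 2) (b := 0) (c := 3) (cn := .up) (n1 := ndB1q2a) (n2 := ndB2q0) (pc := pcB3) (cut := Cut.none) (xt := Ext.none) (P1 := 0) (W1 := 536870912) (P2 := 0) (W2 := 536870912) (P3 := 649613803) (W3 := 48318383) (N0 := 3) (En := eng) (mo := mog) (C1 := cd1q2a) (C2 := cd2q0) (C3 := pd3)
    rfl (fun _ => rfl) k0_mm_203_a

noncomputable def f_mm_203_b : ℕ → ℕ → ℕ → ℕ → Bool := onCell 1239849684 370763052 1610612736 536870912 649613803 48318383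
    (rowB 3 eng mog cd1q2b cd2q0 pd3 1 true false false .up 2 0 3 (qsf 1239849684 370763052 0 536870912 3) ndB1q2b ndB2q0 pcB3 Cut.none Ext.none)

def k0_mm_203_b : ∃ t, chk3 f_mm_203_b t 1 1 1 = true :=
  ⟨(b (b (b (a (a (b (l 16616296) (l 16631672)) (b (l 16467816) (l 16501784))) (a (b (l 16292136) (l 16333920)) (b (l 16120960) (l 16159280)))) (b (a (a (l 16657432) (l 4)) (a (l 16380840) (l 16206560))) (l 4))) (l 4)) (l 4)), by decide +kernel⟩

theorem c_mm_203_b : CertB 1239849684 370763052 0 536870912 649613803 48318383 3 eng mog cd1q2b cd2q0 pd3 true false false .up 2 0 3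
    ndB1q2b ndB2q0 pcB3 Cut.none Ext.none :=
  certB1 (fam := true) (s1 := false) (s2 := false) (a := 2) (b := 0) (c := 3) (cn := .up) (n1 := ndB1q2b) (n2 := ndB2q0) (pc := pcB3) (cut := Cut.none) (xt := Ext.none) (P1 := 1239849684) (W1 := 370763052) (P2 := 0) (W2 := 536870912) (P3 := 649613803) (W3 := 48318383) (N0 := 3) (En := eng) (mo := mog) (C1 := cd1q2b) (C2 := cd2q0) (C3 := pd3)
    rfl (fun _ => rfl) k0_mm_203_b

noncomputable def f_mm_213_a : ℕ → ℕ → ℕ → ℕ → Bool := onCell 0 536870912 536870912 536870912 649613803 48318383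
    (rowB 3 eng mog cd1q2a cd2q1 pd3 0 true false false .pnn 2 1 3 (qsf 0 536870912 536870912 536870912 3) ndB1q2a ndB2q1 pcB3 Cut.none Ext.none)

def k0_mm_213_a : ∃ t, chk3 f_mm_213_a t 1 1 1 = true :=
  ⟨(a (l 4) (l 4)), by decide +kernel⟩

theorem c_mm_213_a : CertB 0 536870912 536870912 536870912 649613803 48318383 3 eng mog cd1q2a cd2q1 pd3 true false false .pnn 2 1 3
    ndB1q2a ndB2q1 pcB3 Cut.none Ext.none :=
  certB0 (fam := true) (s1 := false) (s2 := false) (a := 2) (b := 1) (c := 3) (cn := .pnn) (n1 := ndB1q2a) (n2 := ndB2q1) (pc := pcB3) (cut := Cut.none) (xt := Ext.none) (P1 := 0) (W1 := 536870912) (P2 := 536870912) (W2 := 536870912) (P3 := 649613803) (W3 := 48318383) (N0 := 3) (En := eng) (mo := mog) (C1 := cd1q2a) (C2 := cd2q1) (C3 := pd3)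
    rfl k0_mm_213_a

noncomputable def f_mm_213_b : ℕ → ℕ → ℕ → ℕ → Bool := onCell 1239849684 370763052 536870912 536870912 649613803 48318383
    (rowB 3 eng mog cd1q2b cd2q1 pd3 0 true false false .pnn 2 1 3 (qsf 1239849684 370763052 536870912 536870912 3) ndB1q2b ndB2q1 pcB3 Cut.none Ext.none)

def k0_mm_213_b : ∃ t, chk3 f_mm_213_b t 1 1 1 = true :=
  ⟨(b (l 4) (l 4)), by decide +kernel⟩

theorem c_mm_213_b : CertB 1239849684 370763052 536870912 536870912 649613803 48318383 3 eng mog cd1q2b cd2q1 pd3 true false false .pnn 2 1 3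
    ndB1q2b ndB2q1 pcB3 Cut.none Ext.none :=
  certB0 (fam := true) (s1 := false) (s2 := false) (a := 2) (b := 1) (c := 3) (cn := .pnn) (n1 := ndB1q2b) (n2 := ndB2q1) (pc := pcB3) (cut := Cut.none) (xt := Ext.none) (P1 := 1239849684) (W1 := 370763052) (P2 := 536870912) (W2 := 536870912) (P3 := 649613803) (W3 := 48318383) (N0 := 3) (En := eng) (mo := mog) (C1 := cd1q2b) (C2 := cd2q1) (C3 := pd3)
    rfl k0_mm_213_b

noncomputable def f_mm_303 : ℕ → ℕ → ℕ → ℕ → Bool := onCell 1610612736 536870912 0 536870912 649613803 48318383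
    (rowB 3 eng mog cd1q3 cd2q0 pd3 2 true false false .npn 3 0 3 (qsf 1610612736 536870912 0 536870912 3) ndB1q3 ndB2q0 pcB3 Cut.none Ext.none)

def k0_mm_303 : ∃ t, chk3 f_mm_303 t 1 1 1 = true :=
  ⟨(a (a (b (a (b (a (l 16139840) (l 16123344)) (l 1)) (b (a (l 16114864) (l 16119104)) (l 391411647495))) (l 1)) (l 4)) (l 4)), by decide +kernel⟩

theorem c_mm_303 : CertB 1610612736 536870912 0 536870912 649613803 48318383 3 eng mog cd1q3 cd2q0 pd3 true false false .npn 3 0 3
    ndB1q3 ndB2q0 pcB3 Cut.none Ext.none :=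
  certB2 (fam := true) (s1 := false) (s2 := false) (a := 3) (b := 0) (c := 3) (cn := .npn) (n1 := ndB1q3) (n2 := ndB2q0) (pc := pcB3) (cut := Cut.none) (xt := Ext.none) (P1 := 1610612736) (W1 := 536870912) (P2 := 0) (W2 := 536870912) (P3 := 649613803) (W3 := 48318383) (N0 := 3) (En := eng) (mo := mog) (C1 := cd1q3) (C2 := cd2q0) (C3 := pd3)
    rfl (fun _ => rfl) k0_mm_303

noncomputable def f_mm_313 : ℕ → ℕ → ℕ → ℕ → Bool := onCell 1610612736 536870912 536870912 536870912 649613803 48318383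
    (rowB 3 eng mog cd1q3 cd2q1 pd3 0 true false false .dn 3 1 3 (qsf 1610612736 536870912 536870912 536870912 3) ndB1q3 ndB2q1 pcB3 Cut.none Ext.none)

def k0_mm_313 : ∃ t, chk3 f_mm_313 t 1 1 1 = true :=
  ⟨(l 4), by decide +kernel⟩

theorem c_mm_313 : CertB 1610612736 536870912 536870912 536870912 649613803 48318383 3 eng mog cd1q3 cd2q1 pd3 true false false .dn 3 1 3
    ndB1q3 ndB2q1 pcB3 Cut.none Ext.none :=
  certB0 (fam := true) (s1 := false) (s2 := false) (a := 3) (b := 1) (c := 3) (cn := .dn) (n1 := ndB1q3) (n2 := ndB2q1) (pc := pcB3) (cut := Cut.none) (xt := Ext.none) (P1 := 1610612736) (W1 := 536870912) (P2 := 536870912) (W2 := 536870912) (P3 := 649613803) (W3 := 48318383) (N0 := 3) (En := eng) (mo := mog) (C1 := cd1q3) (C2 := cd2q1) (C3 := pd3)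
    rfl k0_mm_313

end Pool.Agent.Strip051.G.I6050_6500.Tab.C.BA12

namespace Pool.Agent.Strip051.G.I6050_6500.Tab.C.BA13

open Pool.Agent.Strip051.PB Pool.Agent.Strip051.PB.T
open Pool.Agent.Strip051.G.I6050_6500.Tab

noncomputable def f_pp_001 : ℕ → ℕ → ℕ → ℕ → Bool := onCell 0 536870912 0 536870912 649613803 48318383
    (rowB 3 eng mog cd1q0 cd3q0 pd1 0 true true true .up 0 0 1 (qsf 0 536870912 0 536870912 1) ndB1q0 ndB3q0 pcB1 Cut.none Ext.none)

def k0_pp_001 : ∃ t, chk3 f_pp_001 t 1 1 1 = true :=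
  ⟨(l 4), by decide +kernel⟩

theorem c_pp_001 : CertB 0 536870912 0 536870912 649613803 48318383 3 eng mog cd1q0 cd3q0 pd1 true true true .up 0 0 1
    ndB1q0 ndB3q0 pcB1 Cut.none Ext.none :=
  certB0 (fam := true) (s1 := true) (s2 := true) (a := 0) (b := 0) (c := 1) (cn := .up) (n1 := ndB1q0) (n2 := ndB3q0) (pc := pcB1) (cut := Cut.none) (xt := Ext.none) (P1 := 0) (W1 := 536870912) (P2 := 0) (W2 := 536870912) (P3 := 649613803) (W3 := 48318383) (N0 := 3) (En := eng) (mo := mog) (C1 := cd1q0) (C2 := cd3q0) (C3 := pd1)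
    rfl k0_pp_001

noncomputable def f_pp_011 : ℕ → ℕ → ℕ → ℕ → Bool := onCell 0 536870912 536870912 536870912 649613803 48318383
    (rowB 3 eng mog cd1q0 cd3q1 pd1 0 true true true .pnn 0 1 1 (qsf 0 536870912 536870912 536870912 1) ndB1q0 ndB3q1 pcB1 Cut.none Ext.none)

def k0_pp_011 : ∃ t, chk3 f_pp_011 t 1 1 1 = true :=
  ⟨(l 4), by decide +kernel⟩

theorem c_pp_011 : CertB 0 536870912 536870912 536870912 649613803 48318383 3 eng mog cd1q0 cd3q1 pd1 true true true .pnn 0 1 1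
    ndB1q0 ndB3q1 pcB1 Cut.none Ext.none :=
  certB0 (fam := true) (s1 := true) (s2 := true) (a := 0) (b := 1) (c := 1) (cn := .pnn) (n1 := ndB1q0) (n2 := ndB3q1) (pc := pcB1) (cut := Cut.none) (xt := Ext.none) (P1 := 0) (W1 := 536870912) (P2 := 536870912) (W2 := 536870912) (P3 := 649613803) (W3 := 48318383) (N0 := 3) (En := eng) (mo := mog) (C1 := cd1q0) (C2 := cd3q1) (C3 := pd1)
    rfl k0_pp_011

noncomputable def f_pp_012 : ℕ → ℕ → ℕ → ℕ → Bool := onCell 0 536870912 536870912 536870912 649613803 48318383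
    (rowB 3 eng mog cd1q0 cd3q1 pd2 0 true true true .pnp 0 1 2 (qsf 0 536870912 536870912 536870912 2) ndB1q0 ndB3q1 pcB2 Cut.none Ext.none)

def k0_pp_012 : ∃ t, chk3 f_pp_012 t 1 1 1 = true :=
  ⟨(l 4), by decide +kernel⟩

theorem c_pp_012 : CertB 0 536870912 536870912 536870912 649613803 48318383 3 eng mog cd1q0 cd3q1 pd2 true true true .pnp 0 1 2
    ndB1q0 ndB3q1 pcB2 Cut.none Ext.none :=
  certB0 (fam := true) (s1 := true) (s2 := true) (a := 0) (b := 1) (c := 2) (cn := .pnp) (n1 := ndB1q0) (n2 := ndB3q1) (pc := pcB2) (cut := Cut.none) (xt := Ext.none) (P1 := 0) (W1 := 536870912) (P2 := 536870912) (W2 := 536870912) (P3 := 649613803) (W3 := 48318383) (N0 := 3) (En := eng) (mo := mog) (C1 := cd1q0) (C2 := cd3q1) (C3 := pd2)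
    rfl k0_pp_012

noncomputable def cut_pp_022_a : Cut := Cut.of [[⟨0, 0, 0, 67108864⟩, ⟨1, 1, 0, 67108864⟩, ⟨2, 1, 0, 67108864⟩]]

noncomputable def f_pp_022_a : ℕ → ℕ → ℕ → ℕ → Bool := onCell 0 536870912 0 536870912 649613803 48318383
    (rowB 3 eng mog cd1q0 cd3q2a pd2 0 true true true .pp 0 2 2 (qsf 0 536870912 0 536870912 2) ndB1q0 ndB3q2a pcB2 cut_pp_022_a Ext.none)

def k0_pp_022_a : ∃ t, chk3 f_pp_022_a t 2 2 1 = true :=
  ⟨(a (a (b (a (a (b (b (l 16457296) (l 16440352)) (b (l 16446720) (c (l 16457304) (l 16454304)))) (b (a (b (l 16444080) (l 16448160)) (l 16453048)) (a (b (l 16454480) (l 16484216)) (b (l 16461240) (l 16469664))))) (b (a (l 16483944) (l 16475536)) (a (b (l 16471432) (l 16480072)) (b (l 16484416) (l 16493400))))) (a (b (a (b (c (l 16467968) (l 16466024)) (a (l 16477968) (l 16483352))) (b (a (l 16474672) (b (l 16477536) (l 16483728))) (a (l 16489000) (l 16515864)))) (a (b (a (l 16494624) (l 16500208)) (a (l 16534976) (l 16519768)))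 (b (a (l 16506048) (l 16512120)) (b (l 16523568) (l 16534152))))) (b (a (b (l 16491096) (a (b (l 16497528) (l 16505256)) (l 16508504))) (b (l 16504784) (l 16519000))) (a (b (a (b (l 16513752) (l 16523072)) (b (l 16520696) (l 16529832))) (b (a (l 16533128) (l 16539784)) (l 16547160))) (b (l 16536016) (c (a (l 16573952) (l 16560152)) (l 16555632))))))) (b (a (b (a (l 16487408) (l 16498640)) (a (l 16564464) (l 16513584))) (b (l 16514432) (a (l 16525064) (l 16536184)))) (a (b (a (b (l 16517944) (l 16532576)) (c (l 16580920) (l 16538136))) (b (a (l 16570984) (l 16563616)) (b (l 16582320) (l 16603728)))) (a (b (l 16571704) (b (l 16576856) (l 16598200))) (b (l 16583896) (b (l 16589944) (l 4))))))) (a (b (a (b (l 16540144) (l 16600048)) (b (l 16674272) (a (l 16581136) (l 16658832)))) (b (a (a (l 16619816) (l 16635744)) (a (l 16630312) (l 4))) (l 4))) (b (a (b (l 16680720) (b (l 36205027047) (l 4))) (b (b (l 16681232) (l 4)) (l 4))) (l 4)))), by decide +kernel⟩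

def k1_pp_022_a : ∃ t, chk3 f_pp_022_a t 2 3 1 = true :=
  ⟨(a (b (a (b (a (a (b (a (l 16536128) (l 16542048)) (l 16585024)) (b (l 16551392) (l 16576672))) (a (b (a (l 16582240) (l 16589064)) (l 16590232)) (b (a (l 16575088) (l 16603288)) (b (l 16597720) (l 16611352))))) (a (a (b (b (l 16584488) (l 16599096)) (b (l 16614416) (l 16628600))) (b (l 16615120) (b (l 16627328) (l 16643104)))) (a (b (l 16639424) (a (l 16645672) (l 16674080))) (a (b (l 16629384) (l 16682088)) (b (l 16637112) (l 4)))))) (a (b (b (a (l 16593320) (l 16608016)) (a (b (l 16644032) (a (l 16622600) (l 16630456))) (l 16635088))) (a (b (b (l 16693800) (l 4)) (l 4)) (l 4))) (b (l 4) (l 4)))) (a (b (a (b (b (a (l 16658736) (l 16659592)) (a (a (l 16653520) (l 16662768)) (a (l 16671704) (l 16680240)))) (a (a (a (l 6) (b (l 16651656) (l 6))) (b (l 16679712) (b (l 16693096) (l 6)))) (a (b (l 16688872) (b (l 16702328) (l 16711392))) (b (l 16697168) (b (l 16710080) (l 4)))))) (b (a (b (a (l 16670240)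 (l 16678416)) (a (l 16687880) (l 4))) (l 4)) (l 4))) (a (a (l 6) (a (a (l 6) (l 4)) (l 4))) (l 4))) (l 4))) (l 4)), by decide +kernel⟩

def k2_pp_022_a : ∃ t, chk3 f_pp_022_a t 3 1 1 = true :=
  ⟨(b (l 4) (l 4)), by decide +kernel⟩

theorem s3_pp_022_a : ∃ t, chk3 f_pp_022_a t 2 1 1 = true := ex3_b k0_pp_022_a k1_pp_022_a

theorem s4_pp_022_a : ∃ t, chk3 f_pp_022_a t 1 1 1 = true := ex3_a s3_pp_022_a k2_pp_022_a

theorem c_pp_022_a : CertB 0 536870912 0 536870912 649613803 48318383 3 eng mog cd1q0 cd3q2a pd2 true true true .pp 0 2 2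
    ndB1q0 ndB3q2a pcB2 cut_pp_022_a Ext.none :=
  certB0 (fam := true) (s1 := true) (s2 := true) (a := 0) (b := 2) (c := 2) (cn := .pp) (n1 := ndB1q0) (n2 := ndB3q2a) (pc := pcB2) (cut := cut_pp_022_a) (xt := Ext.none) (P1 := 0) (W1 := 536870912) (P2 := 0) (W2 := 536870912) (P3 := 649613803) (W3 := 48318383) (N0 := 3) (En := eng) (mo := mog) (C1 := cd1q0) (C2 := cd3q2a) (C3 := pd2)
    rfl s4_pp_022_a

noncomputable def cut_pp_022_b : Cut := Cut.of [[⟨0, 0, 0, 67108864⟩, ⟨1, 1, 0, 67108864⟩, ⟨2, 1, 0, 67108864⟩]]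

noncomputable def f_pp_022_b : ℕ → ℕ → ℕ → ℕ → Bool := onCell 1073741824 536870912 1239849684 370763052 649613803 48318383
    (rowB 3 eng mog cd1q0 cd3q2b pd2 2 true true true .pp 0 2 2 (qsf 0 536870912 1239849684 370763052 2) ndB1q0 ndB3q2b pcB2 cut_pp_022_b Ext.none)

def k0_pp_022_b : ∃ t, chk3 f_pp_022_b t 1 1 1 = true :=
  ⟨(a (b (a (l 1) (b (b (a (a (a (l 1) (a (l 1) (b (l 16442488) (l 1)))) (b (a (b (a (b (l 16426392) (l 16411536)) (l 16422952)) (a (l 1) (b (l 16400744) (l 16386024)))) (b (l 16432496) (a (l 16399512) (l 16406240)))) (a (l 1) (b (a (l 16370272) (l 16377040)) (l 16344800))))) (a (b (a (l 16451648) (l 16442856)) (a (b (l 16386664) (l 16357824)) (l 16384248))) (a (b (l 16454304) (l 16395536)) (b (l 16465072) (l 16406160))))) (a (l 1) (a (b (a (l 16315240) (l 16369192)) (l 1)) (b (a (l 16338392) (l 16348824)) (a (l 16282824) (l 16293096)))))) (a (l 1) (b (a (l 1) (b (l 16275936) (l 1))) (l 1))))) (l 1)) (b (a (a (b (b (a (b (l 16501104)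 (l 16420928)) (a (l 16528056) (l 16518376))) (a (b (l 16363344) (l 16307296)) (l 16393872))) (b (a (b (l 16231856) (a (l 16195752) (l 16204232))) (b (l 16268928) (l 16215664))) (a (l 1) (l 16136040)))) (b (b (a (a (l 16489168) (l 16523920)) (b (l 16556936) (l 16488376))) (a (b (l 16417664) (l 16336792)) (b (l 16419136) (l 16353680)))) (a (b (a (l 16251912) (l 16256776)) (l 16209288)) (b (l 16409544) (l 16162928))))) (a (a (b (a (b (l 16583824) (l 16409296)) (l 4)) (b (c (l 16390400) (l 16356400)) (l 16188752))) (l 4)) (l 4))) (a (b (a (l 1) (a (l 16199864) (b (l 16064896) (l 15964000)))) (l 1)) (a (b (a (b (l 16094216) (l 15997008)) (a (l 16220112) (l 16115328))) (a (l 1) (b (l 15939504) (l 1)))) (a (b (l 4) (b (l 4) (l 15893896))) (l 4)))))), by decide +kernel⟩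

theorem c_pp_022_b : CertB 0 536870912 1239849684 370763052 649613803 48318383 3 eng mog cd1q0 cd3q2b pd2 true true true .pp 0 2 2
    ndB1q0 ndB3q2b pcB2 cut_pp_022_b Ext.none :=
  certB2 (fam := true) (s1 := true) (s2 := true) (a := 0) (b := 2) (c := 2) (cn := .pp) (n1 := ndB1q0) (n2 := ndB3q2b) (pc := pcB2) (cut := cut_pp_022_b) (xt := Ext.none) (P1 := 0) (W1 := 536870912) (P2 := 1239849684) (W2 := 370763052) (P3 := 649613803) (W3 := 48318383) (N0 := 3) (En := eng) (mo := mog) (C1 := cd1q0) (C2 := cd3q2b) (C3 := pd2)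
    rfl (fun _ => rfl) k0_pp_022_b

noncomputable def f_pp_023_a : ℕ → ℕ → ℕ → ℕ → Bool := onCell 1610612736 536870912 0 536870912 649613803 48318383
    (rowB 3 eng mog cd1q0 cd3q2a pd3 2 true true true .up 0 2 3 (qsf 0 536870912 0 536870912 3) ndB1q0 ndB3q2a pcB3 Cut.none Ext.none)

def k0_pp_023_a : ∃ t, chk3 f_pp_023_a t 1 1 1 = true :=
  ⟨(a (l 4) (l 2)), by decide +kernel⟩

theorem c_pp_023_a : CertB 0 536870912 0 536870912 649613803 48318383 3 eng mog cd1q0 cd3q2a pd3 true true true .up 0 2 3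
    ndB1q0 ndB3q2a pcB3 Cut.none Ext.none :=
  certB2 (fam := true) (s1 := true) (s2 := true) (a := 0) (b := 2) (c := 3) (cn := .up) (n1 := ndB1q0) (n2 := ndB3q2a) (pc := pcB3) (cut := Cut.none) (xt := Ext.none) (P1 := 0) (W1 := 536870912) (P2 := 0) (W2 := 536870912) (P3 := 649613803) (W3 := 48318383) (N0 := 3) (En := eng) (mo := mog) (C1 := cd1q0) (C2 := cd3q2a) (C3 := pd3)
    rfl (fun _ => rfl) k0_pp_023_a

noncomputable def f_pp_023_b : ℕ → ℕ → ℕ → ℕ → Bool := onCell 0 536870912 1610612736 536870912 649613803 48318383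
    (rowB 3 eng mog cd1q0 cd3q2b pd3 1 true true true .up 0 2 3 (qsf 0 536870912 1239849684 370763052 3) ndB1q0 ndB3q2b pcB3 Cut.none Ext.none)

def k0_pp_023_b : ∃ t, chk3 f_pp_023_b t 1 1 1 = true :=
  ⟨(b (l 4) (l 4)), by decide +kernel⟩

theorem c_pp_023_b : CertB 0 536870912 1239849684 370763052 649613803 48318383 3 eng mog cd1q0 cd3q2b pd3 true true true .up 0 2 3
    ndB1q0 ndB3q2b pcB3 Cut.none Ext.none :=
  certB1 (fam := true) (s1 := true) (s2 := true) (a := 0) (b := 2) (c := 3) (cn := .up) (n1 := ndB1q0) (n2 := ndB3q2b) (pc := pcB3) (cut := Cut.none) (xt := Ext.none) (P1 := 0) (W1 := 536870912) (P2 := 1239849684) (W2 := 370763052) (P3 := 649613803) (W3 := 48318383) (N0 := 3) (En := eng) (mo := mog) (C1 := cd1q0) (C2 := cd3q2b) (C3 := pd3)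
    rfl (fun _ => rfl) k0_pp_023_b

noncomputable def f_pp_033 : ℕ → ℕ → ℕ → ℕ → Bool := onCell 0 536870912 1610612736 536870912 649613803 48318383
    (rowB 3 eng mog cd1q0 cd3q3 pd3 1 true true true .pnn 0 3 3 (qsf 0 536870912 1610612736 536870912 3) ndB1q0 ndB3q3 pcB3 Cut.none Ext.none)

def k0_pp_033 : ∃ t, chk3 f_pp_033 t 1 1 1 = true :=
  ⟨(b (l 4) (l 4)), by decide +kernel⟩

theorem c_pp_033 : CertB 0 536870912 1610612736 536870912 649613803 48318383 3 eng mog cd1q0 cd3q3 pd3 true true true .pnn 0 3 3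
    ndB1q0 ndB3q3 pcB3 Cut.none Ext.none :=
  certB1 (fam := true) (s1 := true) (s2 := true) (a := 0) (b := 3) (c := 3) (cn := .pnn) (n1 := ndB1q0) (n2 := ndB3q3) (pc := pcB3) (cut := Cut.none) (xt := Ext.none) (P1 := 0) (W1 := 536870912) (P2 := 1610612736) (W2 := 536870912) (P3 := 649613803) (W3 := 48318383) (N0 := 3) (En := eng) (mo := mog) (C1 := cd1q0) (C2 := cd3q3) (C3 := pd3)
    rfl (fun _ => rfl) k0_pp_033

noncomputable def f_pp_101 : ℕ → ℕ → ℕ → ℕ → Bool := onCell 536870912 536870912 0 536870912 649613803 48318383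
    (rowB 3 eng mog cd1q1 cd3q0 pd1 0 true true true .npn 1 0 1 (qsf 536870912 536870912 0 536870912 1) ndB1q1 ndB3q0 pcB1 Cut.none Ext.none)

def k0_pp_101 : ∃ t, chk3 f_pp_101 t 1 1 1 = true :=
  ⟨(l 5), by decide +kernel⟩

theorem c_pp_101 : CertB 536870912 536870912 0 536870912 649613803 48318383 3 eng mog cd1q1 cd3q0 pd1 true true true .npn 1 0 1
    ndB1q1 ndB3q0 pcB1 Cut.none Ext.none :=
  certB0 (fam := true) (s1 := true) (s2 := true) (a := 1) (b := 0) (c := 1) (cn := .npn) (n1 := ndB1q1) (n2 := ndB3q0) (pc := pcB1) (cut := Cut.none) (xt := Ext.none) (P1 := 536870912) (W1 := 536870912) (P2 := 0) (W2 := 536870912) (P3 := 649613803) (W3 := 48318383) (N0 := 3) (En := eng) (mo := mog) (C1 := cd1q1) (C2 := cd3q0) (C3 := pd1)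
    rfl k0_pp_101

noncomputable def f_pp_102 : ℕ → ℕ → ℕ → ℕ → Bool := onCell 536870912 536870912 0 536870912 649613803 48318383
    (rowB 3 eng mog cd1q1 cd3q0 pd2 0 true true true .npp 1 0 2 (qsf 536870912 536870912 0 536870912 2) ndB1q1 ndB3q0 pcB2 Cut.none Ext.none)

def k0_pp_102 : ∃ t, chk3 f_pp_102 t 1 1 1 = true :=
  ⟨(l 5), by decide +kernel⟩

theorem c_pp_102 : CertB 536870912 536870912 0 536870912 649613803 48318383 3 eng mog cd1q1 cd3q0 pd2 true true true .npp 1 0 2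
    ndB1q1 ndB3q0 pcB2 Cut.none Ext.none :=
  certB0 (fam := true) (s1 := true) (s2 := true) (a := 1) (b := 0) (c := 2) (cn := .npp) (n1 := ndB1q1) (n2 := ndB3q0) (pc := pcB2) (cut := Cut.none) (xt := Ext.none) (P1 := 536870912) (W1 := 536870912) (P2 := 0) (W2 := 536870912) (P3 := 649613803) (W3 := 48318383) (N0 := 3) (En := eng) (mo := mog) (C1 := cd1q1) (C2 := cd3q0) (C3 := pd2)
    rfl k0_pp_102

noncomputable def f_pp_112 : ℕ → ℕ → ℕ → ℕ → Bool := onCell 536870912 536870912 536870912 536870912 649613803 48318383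
    (rowB 3 eng mog cd1q1 cd3q1 pd2 0 true true true .dn 1 1 2 (qsf 536870912 536870912 536870912 536870912 2) ndB1q1 ndB3q1 pcB2 Cut.none Ext.none)

def k0_pp_112 : ∃ t, chk3 f_pp_112 t 1 1 1 = true :=
  ⟨(l 4), by decide +kernel⟩

theorem c_pp_112 : CertB 536870912 536870912 536870912 536870912 649613803 48318383 3 eng mog cd1q1 cd3q1 pd2 true true true .dn 1 1 2
    ndB1q1 ndB3q1 pcB2 Cut.none Ext.none :=
  certB0 (fam := true) (s1 := true) (s2 := true) (a := 1) (b := 1) (c := 2) (cn := .dn) (n1 := ndB1q1) (n2 := ndB3q1) (pc := pcB2) (cut := Cut.none) (xt := Ext.none) (P1 := 536870912) (W1 := 536870912) (P2 := 536870912) (W2 := 536870912) (P3 := 649613803) (W3 := 48318383) (N0 := 3) (En := eng) (mo := mog) (C1 := cd1q1) (C2 := cd3q1) (C3 := pd2)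
    rfl k0_pp_112

noncomputable def f_pp_113 : ℕ → ℕ → ℕ → ℕ → Bool := onCell 536870912 536870912 536870912 536870912 649613803 48318383
    (rowB 3 eng mog cd1q1 cd3q1 pd3 0 true true true .nn 1 1 3 (qsf 536870912 536870912 536870912 536870912 3) ndB1q1 ndB3q1 pcB3 Cut.none Ext.none)

def k0_pp_113 : ∃ t, chk3 f_pp_113 t 1 1 1 = true :=
  ⟨(l 4), by decide +kernel⟩

theorem c_pp_113 : CertB 536870912 536870912 536870912 536870912 649613803 48318383 3 eng mog cd1q1 cd3q1 pd3 true true true .nn 1 1 3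
    ndB1q1 ndB3q1 pcB3 Cut.none Ext.none :=
  certB0 (fam := true) (s1 := true) (s2 := true) (a := 1) (b := 1) (c := 3) (cn := .nn) (n1 := ndB1q1) (n2 := ndB3q1) (pc := pcB3) (cut := Cut.none) (xt := Ext.none) (P1 := 536870912) (W1 := 536870912) (P2 := 536870912) (W2 := 536870912) (P3 := 649613803) (W3 := 48318383) (N0 := 3) (En := eng) (mo := mog) (C1 := cd1q1) (C2 := cd3q1) (C3 := pd3)
    rfl k0_pp_113

noncomputable def f_pp_123_a : ℕ → ℕ → ℕ → ℕ → Bool := onCell 536870912 536870912 0 536870912 649613803 48318383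
    (rowB 3 eng mog cd1q1 cd3q2a pd3 0 true true true .npn 1 2 3 (qsf 536870912 536870912 0 536870912 3) ndB1q1 ndB3q2a pcB3 Cut.none Ext.none)

def k0_pp_123_a : ∃ t, chk3 f_pp_123_a t 1 1 1 = true :=
  ⟨(l 4), by decide +kernel⟩

theorem c_pp_123_a : CertB 536870912 536870912 0 536870912 649613803 48318383 3 eng mog cd1q1 cd3q2a pd3 true true true .npn 1 2 3
    ndB1q1 ndB3q2a pcB3 Cut.none Ext.none :=
  certB0 (fam := true) (s1 := true) (s2 := true) (a := 1) (b := 2) (c := 3) (cn := .npn) (n1 := ndB1q1) (n2 := ndB3q2a) (pc := pcB3) (cut := Cut.none) (xt := Ext.none) (P1 := 536870912) (W1 := 536870912) (P2 := 0) (W2 := 536870912) (P3 := 649613803) (W3 := 48318383) (N0 := 3) (En := eng) (mo := mog) (C1 := cd1q1) (C2 := cd3q2a) (C3 := pd3)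
    rfl k0_pp_123_a

noncomputable def f_pp_123_b : ℕ → ℕ → ℕ → ℕ → Bool := onCell 536870912 536870912 1239849684 370763052 649613803 48318383
    (rowB 3 eng mog cd1q1 cd3q2b pd3 0 true true true .npn 1 2 3 (qsf 536870912 536870912 1239849684 370763052 3) ndB1q1 ndB3q2b pcB3 Cut.none Ext.none)

def k0_pp_123_b : ∃ t, chk3 f_pp_123_b t 1 1 1 = true :=
  ⟨(l 4), by decide +kernel⟩

theorem c_pp_123_b : CertB 536870912 536870912 1239849684 370763052 649613803 48318383 3 eng mog cd1q1 cd3q2b pd3 true true true .npn 1 2 3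
    ndB1q1 ndB3q2b pcB3 Cut.none Ext.none :=
  certB0 (fam := true) (s1 := true) (s2 := true) (a := 1) (b := 2) (c := 3) (cn := .npn) (n1 := ndB1q1) (n2 := ndB3q2b) (pc := pcB3) (cut := Cut.none) (xt := Ext.none) (P1 := 536870912) (W1 := 536870912) (P2 := 1239849684) (W2 := 370763052) (P3 := 649613803) (W3 := 48318383) (N0 := 3) (En := eng) (mo := mog) (C1 := cd1q1) (C2 := cd3q2b) (C3 := pd3)
    rfl k0_pp_123_b

noncomputable def f_pp_133 : ℕ → ℕ → ℕ → ℕ → Bool := onCell 536870912 536870912 1610612736 536870912 649613803 48318383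
    (rowB 3 eng mog cd1q1 cd3q3 pd3 0 true true true .dn 1 3 3 (qsf 536870912 536870912 1610612736 536870912 3) ndB1q1 ndB3q3 pcB3 Cut.none Ext.none)

def k0_pp_133 : ∃ t, chk3 f_pp_133 t 1 1 1 = true :=
  ⟨(l 4), by decide +kernel⟩

theorem c_pp_133 : CertB 536870912 536870912 1610612736 536870912 649613803 48318383 3 eng mog cd1q1 cd3q3 pd3 true true true .dn 1 3 3
    ndB1q1 ndB3q3 pcB3 Cut.none Ext.none :=
  certB0 (fam := true) (s1 := true) (s2 := true) (a := 1) (b := 3) (c := 3) (cn := .dn) (n1 := ndB1q1) (n2 := ndB3q3) (pc := pcB3) (cut := Cut.none) (xt := Ext.none) (P1 := 536870912) (W1 := 536870912) (P2 := 1610612736) (W2 := 536870912) (P3 := 649613803) (W3 := 48318383) (N0 := 3) (En := eng) (mo := mog) (C1 := cd1q1) (C2 := cd3q3) (C3 := pd3)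
    rfl k0_pp_133

noncomputable def f_pp_202_a : ℕ → ℕ → ℕ → ℕ → Bool := onCell 0 536870912 0 536870912 649613803 48318383
    (rowB 3 eng mog cd1q2a cd3q0 pd2 0 true true true .pp 2 0 2 (qsf 0 536870912 0 536870912 2) ndB1q2a ndB3q0 pcB2 Cut.none Ext.none)

def k0_pp_202_a : ∃ t, chk3 f_pp_202_a t 1 1 1 = true :=
  ⟨(l 5), by decide +kernel⟩

theorem c_pp_202_a : CertB 0 536870912 0 536870912 649613803 48318383 3 eng mog cd1q2a cd3q0 pd2 true true true .pp 2 0 2
    ndB1q2a ndB3q0 pcB2 Cut.none Ext.none :=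
  certB0 (fam := true) (s1 := true) (s2 := true) (a := 2) (b := 0) (c := 2) (cn := .pp) (n1 := ndB1q2a) (n2 := ndB3q0) (pc := pcB2) (cut := Cut.none) (xt := Ext.none) (P1 := 0) (W1 := 536870912) (P2 := 0) (W2 := 536870912) (P3 := 649613803) (W3 := 48318383) (N0 := 3) (En := eng) (mo := mog) (C1 := cd1q2a) (C2 := cd3q0) (C3 := pd2)
    rfl k0_pp_202_a

noncomputable def f_pp_202_b : ℕ → ℕ → ℕ → ℕ → Bool := onCell 1239849684 370763052 0 536870912 649613803 48318383
    (rowB 3 eng mog cd1q2b cd3q0 pd2 0 true true true .pp 2 0 2 (qsf 1239849684 370763052 0 536870912 2) ndB1q2b ndB3q0 pcB2 Cut.none Ext.none)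

def k0_pp_202_b : ∃ t, chk3 f_pp_202_b t 1 1 1 = true :=
  ⟨(l 5), by decide +kernel⟩

theorem c_pp_202_b : CertB 1239849684 370763052 0 536870912 649613803 48318383 3 eng mog cd1q2b cd3q0 pd2 true true true .pp 2 0 2
    ndB1q2b ndB3q0 pcB2 Cut.none Ext.none :=
  certB0 (fam := true) (s1 := true) (s2 := true) (a := 2) (b := 0) (c := 2) (cn := .pp) (n1 := ndB1q2b) (n2 := ndB3q0) (pc := pcB2) (cut := Cut.none) (xt := Ext.none) (P1 := 1239849684) (W1 := 370763052) (P2 := 0) (W2 := 536870912) (P3 := 649613803) (W3 := 48318383) (N0 := 3) (En := eng) (mo := mog) (C1 := cd1q2b) (C2 := cd3q0) (C3 := pd2)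
    rfl k0_pp_202_b

noncomputable def f_pp_203_a : ℕ → ℕ → ℕ → ℕ → Bool := onCell 0 536870912 0 536870912 649613803 48318383
    (rowB 3 eng mog cd1q2a cd3q0 pd3 0 true true true .up 2 0 3 (qsf 0 536870912 0 536870912 3) ndB1q2a ndB3q0 pcB3 Cut.none Ext.none)

def k0_pp_203_a : ∃ t, chk3 f_pp_203_a t 1 1 1 = true :=
  ⟨(l 5), by decide +kernel⟩

theorem c_pp_203_a : CertB 0 536870912 0 536870912 649613803 48318383 3 eng mog cd1q2a cd3q0 pd3 true true true .up 2 0 3
    ndB1q2a ndB3q0 pcB3 Cut.none Ext.none :=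
  certB0 (fam := true) (s1 := true) (s2 := true) (a := 2) (b := 0) (c := 3) (cn := .up) (n1 := ndB1q2a) (n2 := ndB3q0) (pc := pcB3) (cut := Cut.none) (xt := Ext.none) (P1 := 0) (W1 := 536870912) (P2 := 0) (W2 := 536870912) (P3 := 649613803) (W3 := 48318383) (N0 := 3) (En := eng) (mo := mog) (C1 := cd1q2a) (C2 := cd3q0) (C3 := pd3)
    rfl k0_pp_203_a

noncomputable def f_pp_203_b : ℕ → ℕ → ℕ → ℕ → Bool := onCell 1239849684 370763052 0 536870912 649613803 48318383
    (rowB 3 eng mog cd1q2b cd3q0 pd3 0 true true true .up 2 0 3 (qsf 1239849684 370763052 0 536870912 3) ndB1q2b ndB3q0 pcB3 Cut.none Ext.none)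

def k0_pp_203_b : ∃ t, chk3 f_pp_203_b t 1 1 1 = true :=
  ⟨(l 5), by decide +kernel⟩

theorem c_pp_203_b : CertB 1239849684 370763052 0 536870912 649613803 48318383 3 eng mog cd1q2b cd3q0 pd3 true true true .up 2 0 3
    ndB1q2b ndB3q0 pcB3 Cut.none Ext.none :=
  certB0 (fam := true) (s1 := true) (s2 := true) (a := 2) (b := 0) (c := 3) (cn := .up) (n1 := ndB1q2b) (n2 := ndB3q0) (pc := pcB3) (cut := Cut.none) (xt := Ext.none) (P1 := 1239849684) (W1 := 370763052) (P2 := 0) (W2 := 536870912) (P3 := 649613803) (W3 := 48318383) (N0 := 3) (En := eng) (mo := mog) (C1 := cd1q2b) (C2 := cd3q0) (C3 := pd3)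
    rfl k0_pp_203_b

noncomputable def f_pp_213_a : ℕ → ℕ → ℕ → ℕ → Bool := onCell 0 536870912 536870912 536870912 649613803 48318383
    (rowB 3 eng mog cd1q2a cd3q1 pd3 0 true true true .pnn 2 1 3 (qsf 0 536870912 536870912 536870912 3) ndB1q2a ndB3q1 pcB3 Cut.none Ext.none)

def k0_pp_213_a : ∃ t, chk3 f_pp_213_a t 1 1 1 = true :=
  ⟨(l 4), by decide +kernel⟩

theorem c_pp_213_a : CertB 0 536870912 536870912 536870912 649613803 48318383 3 eng mog cd1q2a cd3q1 pd3 true true true .pnn 2 1 3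
    ndB1q2a ndB3q1 pcB3 Cut.none Ext.none :=
  certB0 (fam := true) (s1 := true) (s2 := true) (a := 2) (b := 1) (c := 3) (cn := .pnn) (n1 := ndB1q2a) (n2 := ndB3q1) (pc := pcB3) (cut := Cut.none) (xt := Ext.none) (P1 := 0) (W1 := 536870912) (P2 := 536870912) (W2 := 536870912) (P3 := 649613803) (W3 := 48318383) (N0 := 3) (En := eng) (mo := mog) (C1 := cd1q2a) (C2 := cd3q1) (C3 := pd3)
    rfl k0_pp_213_a

noncomputable def f_pp_213_b : ℕ → ℕ → ℕ → ℕ → Bool := onCell 1239849684 370763052 536870912 536870912 649613803 48318383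
    (rowB 3 eng mog cd1q2b cd3q1 pd3 0 true true true .pnn 2 1 3 (qsf 1239849684 370763052 536870912 536870912 3) ndB1q2b ndB3q1 pcB3 Cut.none Ext.none)

def k0_pp_213_b : ∃ t, chk3 f_pp_213_b t 1 1 1 = true :=
  ⟨(l 4), by decide +kernel⟩

theorem c_pp_213_b : CertB 1239849684 370763052 536870912 536870912 649613803 48318383 3 eng mog cd1q2b cd3q1 pd3 true true true .pnn 2 1 3
    ndB1q2b ndB3q1 pcB3 Cut.none Ext.none :=
  certB0 (fam := true) (s1 := true) (s2 := true) (a := 2) (b := 1) (c := 3) (cn := .pnn) (n1 := ndB1q2b) (n2 := ndB3q1) (pc := pcB3) (cut := Cut.none) (xt := Ext.none) (P1 := 1239849684) (W1 := 370763052) (P2 := 536870912) (W2 := 536870912) (P3 := 649613803) (W3 := 48318383) (N0 := 3) (En := eng) (mo := mog) (C1 := cd1q2b) (C2 := cd3q1) (C3 := pd3)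
    rfl k0_pp_213_b

noncomputable def f_pp_303 : ℕ → ℕ → ℕ → ℕ → Bool := onCell 1610612736 536870912 0 536870912 649613803 48318383
    (rowB 3 eng mog cd1q3 cd3q0 pd3 0 true true true .npn 3 0 3 (qsf 1610612736 536870912 0 536870912 3) ndB1q3 ndB3q0 pcB3 Cut.none Ext.none)

def k0_pp_303 : ∃ t, chk3 f_pp_303 t 1 1 1 = true :=
  ⟨(l 5), by decide +kernel⟩

theorem c_pp_303 : CertB 1610612736 536870912 0 536870912 649613803 48318383 3 eng mog cd1q3 cd3q0 pd3 true true true .npn 3 0 3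
    ndB1q3 ndB3q0 pcB3 Cut.none Ext.none :=
  certB0 (fam := true) (s1 := true) (s2 := true) (a := 3) (b := 0) (c := 3) (cn := .npn) (n1 := ndB1q3) (n2 := ndB3q0) (pc := pcB3) (cut := Cut.none) (xt := Ext.none) (P1 := 1610612736) (W1 := 536870912) (P2 := 0) (W2 := 536870912) (P3 := 649613803) (W3 := 48318383) (N0 := 3) (En := eng) (mo := mog) (C1 := cd1q3) (C2 := cd3q0) (C3 := pd3)
    rfl k0_pp_303

noncomputable def f_pp_313 : ℕ → ℕ → ℕ → ℕ → Bool := onCell 1610612736 536870912 536870912 536870912 649613803 48318383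
    (rowB 3 eng mog cd1q3 cd3q1 pd3 0 true true true .dn 3 1 3 (qsf 1610612736 536870912 536870912 536870912 3) ndB1q3 ndB3q1 pcB3 Cut.none Ext.none)

def k0_pp_313 : ∃ t, chk3 f_pp_313 t 1 1 1 = true :=
  ⟨(l 4), by decide +kernel⟩

theorem c_pp_313 : CertB 1610612736 536870912 536870912 536870912 649613803 48318383 3 eng mog cd1q3 cd3q1 pd3 true true true .dn 3 1 3
    ndB1q3 ndB3q1 pcB3 Cut.none Ext.none :=
  certB0 (fam := true) (s1 := true) (s2 := true) (a := 3) (b := 1) (c := 3) (cn := .dn) (n1 := ndB1q3) (n2 := ndB3q1) (pc := pcB3) (cut := Cut.none) (xt := Ext.none) (P1 := 1610612736) (W1 := 536870912) (P2 := 536870912) (W2 := 536870912) (P3 := 649613803) (W3 := 48318383) (N0 := 3) (En := eng) (mo := mog) (C1 := cd1q3) (C2 := cd3q1) (C3 := pd3)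
    rfl k0_pp_313

noncomputable def f_pm_001 : ℕ → ℕ → ℕ → ℕ → Bool := onCell 0 536870912 0 536870912 649613803 48318383
    (rowB 3 eng mog cd1q0 cd3q0 pd1 0 true true false .up 0 0 1 (qsf 0 536870912 0 536870912 1) ndB1q0 ndB3q0 pcB1 Cut.none Ext.none)

def k0_pm_001 : ∃ t, chk3 f_pm_001 t 1 1 1 = true :=
  ⟨(l 3), by decide +kernel⟩

theorem c_pm_001 : CertB 0 536870912 0 536870912 649613803 48318383 3 eng mog cd1q0 cd3q0 pd1 true true false .up 0 0 1
    ndB1q0 ndB3q0 pcB1 Cut.none Ext.none :=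
  certB0 (fam := true) (s1 := true) (s2 := false) (a := 0) (b := 0) (c := 1) (cn := .up) (n1 := ndB1q0) (n2 := ndB3q0) (pc := pcB1) (cut := Cut.none) (xt := Ext.none) (P1 := 0) (W1 := 536870912) (P2 := 0) (W2 := 536870912) (P3 := 649613803) (W3 := 48318383) (N0 := 3) (En := eng) (mo := mog) (C1 := cd1q0) (C2 := cd3q0) (C3 := pd1)
    rfl k0_pm_001

noncomputable def f_pm_011 : ℕ → ℕ → ℕ → ℕ → Bool := onCell 0 536870912 536870912 536870912 649613803 48318383
    (rowB 3 eng mog cd1q0 cd3q1 pd1 1 true true false .pnn 0 1 1 (qsf 0 536870912 536870912 536870912 1) ndB1q0 ndB3q1 pcB1 Cut.none Ext.none)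

def k0_pm_011 : ∃ t, chk3 f_pm_011 t 1 1 1 = true :=
  ⟨(l 3), by decide +kernel⟩

theorem c_pm_011 : CertB 0 536870912 536870912 536870912 649613803 48318383 3 eng mog cd1q0 cd3q1 pd1 true true false .pnn 0 1 1
    ndB1q0 ndB3q1 pcB1 Cut.none Ext.none :=
  certB1 (fam := true) (s1 := true) (s2 := false) (a := 0) (b := 1) (c := 1) (cn := .pnn) (n1 := ndB1q0) (n2 := ndB3q1) (pc := pcB1) (cut := Cut.none) (xt := Ext.none) (P1 := 0) (W1 := 536870912) (P2 := 536870912) (W2 := 536870912) (P3 := 649613803) (W3 := 48318383) (N0 := 3) (En := eng) (mo := mog) (C1 := cd1q0) (C2 := cd3q1) (C3 := pd1)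
    rfl (fun _ => rfl) k0_pm_011

noncomputable def f_pm_012 : ℕ → ℕ → ℕ → ℕ → Bool := onCell 1073741824 536870912 536870912 536870912 649613803 48318383
    (rowB 3 eng mog cd1q0 cd3q1 pd2 2 true true false .pnp 0 1 2 (qsf 0 536870912 536870912 536870912 2) ndB1q0 ndB3q1 pcB2 Cut.none Ext.none)

def k0_pm_012 : ∃ t, chk3 f_pm_012 t 1 1 1 = true :=
  ⟨(a (a (a (l 3) (b (a (l 3) (a (l 3) (b (b (l 2) (a (l 3) (l 16583704))) (l 3)))) (l 3))) (a (a (a (b (b (a (b (l 2) (l 16588824)) (l 2)) (a (b (l 16588712) (l 3)) (b (l 16587768) (l 16580328)))) (b (l 3) (l 3))) (b (b (l 2) (a (b (a (l 16585216) (l 16582944)) (a (l 16576352) (l 16572408))) (a (b (l 16582176) (l 16569952)) (b (a (l 16586816) (l 16592800)) (a (l 16569088) (l 16572312)))))) (a (b (a (b (l 16564912) (l 3)) (b (l 16560720) (l 16548504))) (l 3)) (b (a (b (a (l 16557184) (l 16555208)) (a (l 16544528) (l 16542096))) (b (a (l 16554136) (b (l 16557072) (l 16548384))) (a (b (l 16542112) (l 16537056))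 (l 16537688)))) (a (b (l 16578752) (l 3)) (b (a (b (l 16533352) (l 16531488)) (b (l 16530688) (l 16528344))) (a (b (l 16531472) (l 3)) (b (l 16528288) (l 16520496))))))))) (b (b (l 2) (b (l 16598152) (l 16570864))) (b (b (l 16564824) (l 16583960)) (b (b (l 16509024) (l 16502872)) (b (l 16499304) (l 16498808)))))) (b (b (l 2) (b (l 16610832) (l 16569928))) (b (b (a (l 16530432) (l 16524096)) (b (l 16514496) (l 16475936))) (b (b (l 16459344) (l 16443264)) (b (l 16408248) (l 16418768))))))) (b (a (b (l 2) (a (b (l 2) (l 16708168)) (l 2))) (l 2)) (a (b (a (b (a (l 16524592) (l 16526864)) (a (l 16466064) (l 16461672))) (b (l 16536480) (l 16466336))) (b (a (b (l 16420992) (l 16393656)) (l 16394824)) (a (b (l 16366504) (l 16341696)) (l 16319808)))) (b (a (b (l 2) (l 16490264)) (l 2)) (a (b (l 16411456) (l 16319056)) (b (l 16451984) (l 16350680))))))), by decide +kernel⟩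

theorem c_pm_012 : CertB 0 536870912 536870912 536870912 649613803 48318383 3 eng mog cd1q0 cd3q1 pd2 true true false .pnp 0 1 2
    ndB1q0 ndB3q1 pcB2 Cut.none Ext.none :=
  certB2 (fam := true) (s1 := true) (s2 := false) (a := 0) (b := 1) (c := 2) (cn := .pnp) (n1 := ndB1q0) (n2 := ndB3q1) (pc := pcB2) (cut := Cut.none) (xt := Ext.none) (P1 := 0) (W1 := 536870912) (P2 := 536870912) (W2 := 536870912) (P3 := 649613803) (W3 := 48318383) (N0 := 3) (En := eng) (mo := mog) (C1 := cd1q0) (C2 := cd3q1) (C3 := pd2)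
    rfl (fun _ => rfl) k0_pm_012

noncomputable def cut_pm_022_a : Cut := Cut.of [[⟨0, 0, 0, 67108864⟩, ⟨1, 1, 0, 67108864⟩, ⟨2, 1, 0, 67108864⟩]]

noncomputable def f_pm_022_a : ℕ → ℕ → ℕ → ℕ → Bool := onCell 1073741824 536870912 0 536870912 649613803 48318383
    (rowB 3 eng mog cd1q0 cd3q2a pd2 2 true true false .pp 0 2 2 (qsf 0 536870912 0 536870912 2) ndB1q0 ndB3q2a pcB2 cut_pm_022_a Ext.none)

def k0_pm_022_a : ∃ t, chk3 f_pm_022_a t 2 2 1 = true :=
  ⟨(a (a (l 1) (b (l 1) (a (l 1) (b (l 1) (a (l 1) (b (l 1) (a (l 1) (l 16488664)))))))) (a (a (b (a (l 1) (a (b (l 1) (b (l 1) (l 16442008))) (a (b (l 1) (b (l 16438616) (l 16444688))) (b (l 16435288) (a (l 16464192) (b (l 16441032) (l 16446664))))))) (a (b (b (l 16446040) (l 68215550759)) (b (a (l 16472680) (l 16474712)) (a (l 16490072) (l 16491208)))) (a (b (b (l 16451032) (l 16462640)) (b (l 16476440) (l 16492032))) (b (a (l 16479952) (a (l 16459800) (b (l 16454744) (l 16465240)))) (a (l 16506168) (a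 (l 16485320) (b (l 16477792) (l 16492008)))))))) (b (a (b (a (l 16438400) (a (l 16441328) (l 16463880))) (b (a (l 16443344) (a (l 16445936) (l 16447272))) (l 16450280))) (b (l 16442256) (b (l 16446144) (l 16451152)))) (b (a (b (l 16457784) (l 16467584)) (l 16462576)) (a (b (l 16479320) (l 16492632)) (l 16483624))))) (b (a (b (a (l 16441744) (l 16442376)) (b (l 16444608) (l 16449176))) (b (a (l 16443976) (l 16446400)) (b (l 16446024) (l 16449192)))) (a (b (l 16479984) (l 16497920)) (b (l 16456984) (l 16533944)))))), by decide +kernel⟩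

def k1_pm_022_a : ∃ t, chk3 f_pm_022_a t 2 6 1 = true :=
  ⟨(a (a (l 1) (b (a (l 1) (a (b (a (l 1) (l 16507040)) (b (l 71436890855) (a (l 16536568) (l 16536336)))) (b (a (l 59625687431) (l 16508616)) (a (l 16530264) (l 16529888))))) (a (a (b (l 1) (a (l 1) (b (l 16580152) (l 89153791271)))) (b (a (b (l 1) (l 16564432)) (b (l 16549864) (l 16563408))) (b (a (l 73047637511) (l 16577080)) (a (l 16592824) (l 16590592))))) (b (a (a (b (l 16549280) (l 16562240)) (l 16554768)) (a (l 16553472) (l 16551968))) (a (b (l 16574312) (l 16586920)) (b (l 16569912) (l 16581312))))))) (a (a (a (b (b (a (l 16509048) (l 16509224)) (l 16549768)) (b (l 16570136) (l 16569760))) (b (a (b (l 16509056) (l 16527144)) (a (l 16559544) (a (l 16537880) (b (l 16507544) (l 16524024))))) (a (b (l 16545808) (l 16564592)) (a (l 16553056) (a (l 16551416) (b (l 16540984) (l 16557984))))))) (a (b (a (l 16536600) (l 16514672)) (l 16588536)) (b (l 16509600) (l 16537488)))) (b (a (b (l 16492792)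 (l 16504328)) (b (l 16484248) (l 16494760))) (a (b (l 16516696) (l 16529776)) (l 16511408))))), by decide +kernel⟩

def k2_pm_022_a : ∃ t, chk3 f_pm_022_a t 4 7 1 = true :=
  ⟨(a (a (b (l 1) (l 6)) (a (b (b (l 1) (l 6)) (l 6)) (a (b (b (l 1) (l 6)) (l 6)) (b (b (b (l 1) (b (l 16626760) (l 93448836919))) (b (a (l 6) (l 16645136)) (l 16661144))) (a (l 6) (b (b (l 16675040) (l 16689656)) (b (l 16697568) (l 16700944)))))))) (b (a (b (a (b (a (a (l 16612840) (l 16611600)) (l 16609688)) (a (b (l 16623864) (l 16631480)) (l 16624520))) (b (a (l 16607032) (l 16604168)) (l 16640440))) (a (b (a (l 16642376) (l 16638608)) (a (l 16656880) (l 16652512))) (b (a (l 16634704) (l 16630600)) (l 16645648)))) (a (b (b (l 16599560) (l 16612136)) (l 16630136)) (b (l 16598464) (l 16619976)))) (b (b (a (a (a (l 16671352) (l 16666344)) (l 16658536)) (l 16687304)) (a (a (l 16682168) (l 16664328)) (a (l 16647176) (l 16630808)))) (a (b (a (a (l 16690696) (l 16681608)) (c (l 16668384)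 (l 16668424))) (a (b (l 16688728) (l 16711216)) (a (l 16675984) (l 16667200)))) (a (b (l 16651056) (l 16654328)) (b (l 16634600) (a (l 16641808) (l 16633536)))))))), by decide +kernel⟩

def k3_pm_022_a : ∃ t, chk3 f_pm_022_a t 5 7 1 = true :=
  ⟨(a (a (a (b (b (l 16590008) (l 16604832)) (b (c (l 16676784) (l 16613424)) (b (a (l 16622704) (l 16614560)) (a (l 16624752) (l 16615608))))) (a (b (l 16631976) (b (b (l 16600496) (l 16604096)) (b (l 16606208) (l 16606904)))) (a (b (l 16585224) (b (l 16597152) (b (l 16600248) (l 16600912)))) (a (b (l 16583232) (b (l 16594928) (b (l 16597808) (l 16598464)))) (b (l 16645304) (b (b (l 16592512) (l 16616072)) (a (a (a (l 16597640) (b (l 16597504) (c (l 16601328) (l 16595136)))) (l 16597656)) (l 16596832)))))))) (b (b (l 16647592) (a (l 16578176) (l 16565576))) (a (b (b (l 16583288) (l 16585640)) (b (l 16587208) (a (l 16592056) (l 16583560)))) (b (l 16570664) (b (l 16572624) (l 16572808)))))) (a (b (b (l 16542872) (l 16548816))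 (b (l 16552392) (b (l 16553256) (a (l 16559328) (l 16546208))))) (b (l 16589056) (b (l 16529136) (b (l 16528624) (l 16548128)))))), by decide +kernel⟩

def k4_pm_022_a : ∃ t, chk3 f_pm_022_a t 3 1 1 = true :=
  ⟨(b (a (a (b (a (b (a (l 16449488) (l 16453872)) (a (l 16450264) (l 16454488))) (b (l 16467352) (l 16466312))) (b (a (b (l 16457176) (l 16462264)) (l 16471240)) (a (l 16472632) (l 16478920)))) (b (a (b (a (l 16481720) (l 16491144)) (a (l 16478568) (l 16486624))) (b (l 16504984) (l 16498528))) (b (a (a (l 16480360) (l 16486408)) (l 16495584)) (a (l 16485280) (l 16492448))))) (a (b (a (b (l 16524024) (l 16515512)) (l 16560984)) (b (a (l 16509472) (l 16524168)) (a (l 16501400) (l 16510624)))) (b (a (l 16558888) (l 16576928)) (b (l 16691896) (a (l 16519440) (l 16526944)))))) (a (b (a (b (a (l 16487872) (l 16486544)) (a (l 16500544) (l 16489248))) (b (a (l 16485288) (l 16485424)) (a (l 16477760) (l 16466672)))) (a (b (a (l 16569688) (l 16489248)) (b (a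 (l 16507368) (l 16488032)) (a (b (l 16505688) (l 16503464)) (l 16484080)))) (b (a (l 16505776) (l 16460400)) (b (a (l 16471200) (l 16455744)) (a (a (l 16470392) (l 16461944)) (l 16470344)))))) (b (a (b (l 16486656) (l 16469072)) (b (a (l 16487384) (l 16487744)) (l 16464320))) (a (b (a (l 16447952) (l 16436560)) (b (a (l 16441544) (l 16428712)) (a (l 16433784) (l 16420384)))) (a (b (l 16423248) (l 16411552)) (b (l 16407688) (l 16398664))))))), by decide +kernel⟩

theorem s5_pm_022_a : ∃ t, chk3 f_pm_022_a t 2 7 1 = true := ex3_a k2_pm_022_a k3_pm_022_a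

theorem s6_pm_022_a : ∃ t, chk3 f_pm_022_a t 2 3 1 = true := ex3_b k1_pm_022_a s5_pm_022_a

theorem s7_pm_022_a : ∃ t, chk3 f_pm_022_a t 2 1 1 = true := ex3_b k0_pm_022_a s6_pm_022_a

theorem s8_pm_022_a : ∃ t, chk3 f_pm_022_a t 1 1 1 = true := ex3_a s7_pm_022_a k4_pm_022_a

theorem c_pm_022_a : CertB 0 536870912 0 536870912 649613803 48318383 3 eng mog cd1q0 cd3q2a pd2 true true false .pp 0 2 2
    ndB1q0 ndB3q2a pcB2 cut_pm_022_a Ext.none :=
  certB2 (fam := true) (s1 := true) (s2 := false) (a := 0) (b := 2) (c := 2) (cn := .pp) (n1 := ndB1q0) (n2 := ndB3q2a) (pc := pcB2) (cut := cut_pm_022_a) (xt := Ext.none) (P1 := 0) (W1 := 536870912) (P2 := 0) (W2 := 536870912) (P3 := 649613803) (W3 := 48318383) (N0 := 3) (En := eng) (mo := mog) (C1 := cd1q0) (C2 := cd3q2a) (C3 := pd2)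
    rfl (fun _ => rfl) s8_pm_022_a

noncomputable def cut_pm_022_b : Cut := Cut.of [[⟨0, 0, 0, 67108864⟩, ⟨1, 1, 0, 67108864⟩, ⟨2, 1, 0, 67108864⟩]]

noncomputable def f_pm_022_b : ℕ → ℕ → ℕ → ℕ → Bool := onCell 1073741824 536870912 1239849684 370763052 649613803 48318383
    (rowB 3 eng mog cd1q0 cd3q2b pd2 2 true true false .pp 0 2 2 (qsf 0 536870912 1239849684 370763052 2) ndB1q0 ndB3q2b pcB2 cut_pm_022_b Ext.none)

def k0_pm_022_b : ∃ t, chk3 f_pm_022_b t 2 1 1 = true :=
  ⟨(b (a (l 1) (a (b (b (a (a (l 1) (b (c (l 16408952) (l 16391016)) (l 1))) (a (b (a (l 16429632) (c (a (l 16419024) (l 16420816)) (l 16426600))) (l 1)) (b (b (l 16428584) (l 16401552)) (b (l 16373592) (l 16344784))))) (l 1)) (l 1)) (b (b (a (b (a (l 16416744) (l 16419400)) (a (b (l 16377520) (l 16350296)) (l 16369832))) (b (a (l 16423000) (l 16427392)) (a (l 16376512) (l 16383912)))) (a (b (a (l 16308016) (b (l 16330440) (l 16303248))) (l 1)) (b (a (l 16326784) (l 16337264)) (a (b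 (l 16287552) (l 16260616)) (l 30634143559))))) (b (a (l 1) (b (a (l 1) (l 16256880)) (l 1))) (l 1))))) (l 1)), by decide +kernel⟩

def k1_pm_022_b : ∃ t, chk3 f_pm_022_b t 3 1 1 = true :=
  ⟨(b (a (a (b (a (b (b (a (l 16432408) (l 16438136)) (l 16396024)) (b (l 16332920) (a (l 16301888) (l 16316224)))) (b (b (a (l 16446256) (l 16456936)) (l 16414248)) (b (l 16376832) (l 16337936)))) (b (a (b (a (l 30097291015) (l 16270552)) (b (a (l 16215088) (l 16234832)) (l 16220712))) (b (l 16296824) (a (l 16242904) (l 16263152)))) (a (l 1) (a (l 35465851879) (l 68215030663))))) (b (a (b (a (l 16450856) (l 16463832)) (a (l 16377480) (l 16392184))) (b (l 16482816) (a (l 16408224) (l 16425544)))) (a (b (a (l 16303176) (l 16321504)) (a (l 16216496) (l 16239600))) (b (b (l 16365160) (l 16331904)) (l 16274112))))) (a (b (a (b (l 16507656) (l 16452112)) (b (l 16532872) (l 16485632))) (b (a (l 16387976) (l 16429584)) (a (l 16317592) (l 16361128)))) (b (b (a (l 16558280) (l 16582752))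 (l 16534800)) (b (l 16489960) (l 16430416))))) (a (b (a (l 1) (a (b (a (l 16123880) (l 63383162999)) (l 1)) (b (a (l 16178480) (l 16205688)) (l 95595366247)))) (l 1)) (a (b (a (b (l 16245208) (l 91300531063)) (b (l 16294616) (l 16227056))) (a (l 1) (b (l 216391446327) (l 1)))) (b (a (l 16417312) (l 16362456)) (a (b (l 16218544) (l 16152736)) (l 16311864)))))), by decide +kernel⟩

theorem s2_pm_022_b : ∃ t, chk3 f_pm_022_b t 1 1 1 = true := ex3_a k0_pm_022_b k1_pm_022_b

theorem c_pm_022_b : CertB 0 536870912 1239849684 370763052 649613803 48318383 3 eng mog cd1q0 cd3q2b pd2 true true false .pp 0 2 2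
    ndB1q0 ndB3q2b pcB2 cut_pm_022_b Ext.none :=
  certB2 (fam := true) (s1 := true) (s2 := false) (a := 0) (b := 2) (c := 2) (cn := .pp) (n1 := ndB1q0) (n2 := ndB3q2b) (pc := pcB2) (cut := cut_pm_022_b) (xt := Ext.none) (P1 := 0) (W1 := 536870912) (P2 := 1239849684) (W2 := 370763052) (P3 := 649613803) (W3 := 48318383) (N0 := 3) (En := eng) (mo := mog) (C1 := cd1q0) (C2 := cd3q2b) (C3 := pd2)
    rfl (fun _ => rfl) s2_pm_022_b

noncomputable def f_pm_023_a : ℕ → ℕ → ℕ → ℕ → Bool := onCell 1610612736 536870912 0 536870912 649613803 48318383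
    (rowB 3 eng mog cd1q0 cd3q2a pd3 2 true true false .up 0 2 3 (qsf 0 536870912 0 536870912 3) ndB1q0 ndB3q2a pcB3 Cut.none Ext.none)

def k0_pm_023_a : ∃ t, chk3 f_pm_023_a t 1 1 1 = true :=
  ⟨(a (b (a (a (b (l 16579816) (l 16503672)) (b (a (l 16579336) (l 16613568)) (a (l 16561528) (l 16590968)))) (a (b (a (l 16644360) (l 16671712)) (a (a (l 16612696) (l 16627264)) (l 2))) (l 2))) (b (a (a (b (l 16493864) (l 16484496)) (a (l 16623480) (l 272293957191))) (l 2)) (a (a (b (l 16473464) (b (l 16465928) (l 16461408))) (a (l 229881029367) (l 2))) (l 2)))) (l 2)), by decide +kernel⟩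

theorem c_pm_023_a : CertB 0 536870912 0 536870912 649613803 48318383 3 eng mog cd1q0 cd3q2a pd3 true true false .up 0 2 3
    ndB1q0 ndB3q2a pcB3 Cut.none Ext.none :=
  certB2 (fam := true) (s1 := true) (s2 := false) (a := 0) (b := 2) (c := 3) (cn := .up) (n1 := ndB1q0) (n2 := ndB3q2a) (pc := pcB3) (cut := Cut.none) (xt := Ext.none) (P1 := 0) (W1 := 536870912) (P2 := 0) (W2 := 536870912) (P3 := 649613803) (W3 := 48318383) (N0 := 3) (En := eng) (mo := mog) (C1 := cd1q0) (C2 := cd3q2a) (C3 := pd3)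
    rfl (fun _ => rfl) k0_pm_023_a

noncomputable def f_pm_023_b : ℕ → ℕ → ℕ → ℕ → Bool := onCell 1610612736 536870912 1239849684 370763052 649613803 48318383
    (rowB 3 eng mog cd1q0 cd3q2b pd3 2 true true false .up 0 2 3 (qsf 0 536870912 1239849684 370763052 3) ndB1q0 ndB3q2b pcB3 Cut.none Ext.none)

def k0_pm_023_b : ∃ t, chk3 f_pm_023_b t 1 1 1 = true :=
  ⟨(b (b (a (a (a (b (l 16616224) (l 16604504)) (b (l 16631296) (l 16657232))) (a (l 16631728) (l 16669256))) (l 2)) (a (a (a (b (l 16570104) (l 16513792)) (l 16618384)) (a (l 16681448) (l 16726520))) (a (a (l 16736744) (l 115528304103)) (l 2)))) (a (a (a (b (l 16418800) (l 16283768)) (b (l 16501856) (l 16365968))) (a (b (l 16589432) (l 16467272)) (b (l 16669888) (l 16582472)))) (a (a (b (l 16722536) (a (l 16670168) (l 16715768))) (a (l 41573927287) (l 4))) (l 4)))), by decide +kernel⟩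

theorem c_pm_023_b : CertB 0 536870912 1239849684 370763052 649613803 48318383 3 eng mog cd1q0 cd3q2b pd3 true true false .up 0 2 3
    ndB1q0 ndB3q2b pcB3 Cut.none Ext.none :=
  certB2 (fam := true) (s1 := true) (s2 := false) (a := 0) (b := 2) (c := 3) (cn := .up) (n1 := ndB1q0) (n2 := ndB3q2b) (pc := pcB3) (cut := Cut.none) (xt := Ext.none) (P1 := 0) (W1 := 536870912) (P2 := 1239849684) (W2 := 370763052) (P3 := 649613803) (W3 := 48318383) (N0 := 3) (En := eng) (mo := mog) (C1 := cd1q0) (C2 := cd3q2b) (C3 := pd3)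
    rfl (fun _ => rfl) k0_pm_023_b

noncomputable def f_pm_033 : ℕ → ℕ → ℕ → ℕ → Bool := onCell 0 536870912 1610612736 536870912 649613803 48318383
    (rowB 3 eng mog cd1q0 cd3q3 pd3 1 true true false .pnn 0 3 3 (qsf 0 536870912 1610612736 536870912 3) ndB1q0 ndB3q3 pcB3 Cut.none Ext.none)

def k0_pm_033 : ∃ t, chk3 f_pm_033 t 1 1 1 = true :=
  ⟨(b (b (a (b (a (a (l 16192648) (l 16289560)) (l 1)) (a (l 16214136) (l 16572728))) (l 1)) (a (b (a (b (l 16207640) (l 16232144)) (a (l 16366256) (l 16470160))) (a (b (l 16267064) (l 16302800)) (l 16453120))) (b (l 1) (a (a (l 16581000) (l 1)) (l 1))))) (b (a (b (b (a (l 16331408) (l 16490328)) (l 4)) (l 4)) (b (a (b (l 16652600) (l 16670376)) (l 1)) (a (l 4) (b (l 1) (l 4))))) (l 4))), by decide +kernel⟩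

theorem c_pm_033 : CertB 0 536870912 1610612736 536870912 649613803 48318383 3 eng mog cd1q0 cd3q3 pd3 true true false .pnn 0 3 3
    ndB1q0 ndB3q3 pcB3 Cut.none Ext.none :=
  certB1 (fam := true) (s1 := true) (s2 := false) (a := 0) (b := 3) (c := 3) (cn := .pnn) (n1 := ndB1q0) (n2 := ndB3q3) (pc := pcB3) (cut := Cut.none) (xt := Ext.none) (P1 := 0) (W1 := 536870912) (P2 := 1610612736) (W2 := 536870912) (P3 := 649613803) (W3 := 48318383) (N0 := 3) (En := eng) (mo := mog) (C1 := cd1q0) (C2 := cd3q3) (C3 := pd3)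
    rfl (fun _ => rfl) k0_pm_033

noncomputable def f_pm_101 : ℕ → ℕ → ℕ → ℕ → Bool := onCell 536870912 536870912 0 536870912 649613803 48318383
    (rowB 3 eng mog cd1q1 cd3q0 pd1 2 true true false .npn 1 0 1 (qsf 536870912 536870912 0 536870912 1) ndB1q1 ndB3q0 pcB1 Cut.none Ext.none)

def k0_pm_101 : ∃ t, chk3 f_pm_101 t 1 1 1 = true :=
  ⟨(a (l 3) (b (l 3) (l 3))), by decide +kernel⟩

theorem c_pm_101 : CertB 536870912 536870912 0 536870912 649613803 48318383 3 eng mog cd1q1 cd3q0 pd1 true true false .npn 1 0 1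
    ndB1q1 ndB3q0 pcB1 Cut.none Ext.none :=
  certB2 (fam := true) (s1 := true) (s2 := false) (a := 1) (b := 0) (c := 1) (cn := .npn) (n1 := ndB1q1) (n2 := ndB3q0) (pc := pcB1) (cut := Cut.none) (xt := Ext.none) (P1 := 536870912) (W1 := 536870912) (P2 := 0) (W2 := 536870912) (P3 := 649613803) (W3 := 48318383) (N0 := 3) (En := eng) (mo := mog) (C1 := cd1q1) (C2 := cd3q0) (C3 := pd1)
    rfl (fun _ => rfl) k0_pm_101

noncomputable def f_pm_102 : ℕ → ℕ → ℕ → ℕ → Bool := onCell 536870912 536870912 1073741824 536870912 649613803 48318383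
    (rowB 3 eng mog cd1q1 cd3q0 pd2 1 true true false .npp 1 0 2 (qsf 536870912 536870912 0 536870912 2) ndB1q1 ndB3q0 pcB2 Cut.none Ext.none)

def k0_pm_102 : ∃ t, chk3 f_pm_102 t 1 8 1 = true :=
  ⟨(a (l 3) (a (l 3) (b (l 3) (a (b (l 3) (a (b (l 3) (l 16729272)) (b (l 312626446263) (b (l 178945563927) (l 16770096))))) (b (a (b (l 3) (a (l 3) (l 16751952))) (a (b (l 3) (a (l 16762304) (l 16755128))) (b (a (l 16760112) (l 45801734743)) (a (l 16735048) (b (b (l 16725088) (l 16723064)) (l 16718512)))))) (a (a (b (l 16753328) (b (l 16745240) (l 16740960))) (b (b (l 16742816) (l 16737192)) (b (l 16732528) (l 16728080)))) (a (b (b (l 16729912) (l 16724176)) (l 16738048)) (b (b (l 16674288) (l 16711496)) (a (l 16706656) (l 16699592)))))))))), by decide +kernel⟩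

def k1_pm_102 : ∃ t, chk3 f_pm_102 t 1 9 1 = true :=
  ⟨(a (b (a (l 3) (b (l 3) (a (l 3) (a (l 3) (l 16663136))))) (a (b (l 3) (a (l 2) (b (l 16590480) (l 16623736)))) (b (a (b (l 3) (l 16601136)) (b (l 16634888) (a (l 16635064) (l 16655024)))) (a (b (l 16594712) (a (l 16587368) (l 16600632))) (b (a (l 16627680) (l 16648976)) (l 16655160)))))) (b (a (b (a (l 3) (a (l 154249706359) (b (l 16743992) (l 65129071847)))) (a (b (l 16694560) (a (l 16695584) (l 16709264))) (a (b (l 16700752) (l 16689240)) (b (a (l 16719104) (l 16722368)) (l 16716440))))) (a (b (b (a (c (l 16778128) (l 16738840)) (b (a (l 16743912) (l 16745904)) (l 16744592))) (a (a (l 16686152) (l 16738920)) (l 16758664))) (a (b (l 16756752) (l 16733904)) (b (l 16728984) (l 16719248)))) (a (b (b (a (l 16733432) (l 16720960)) (l 16654176)) (b (l 16727272) (l 16695496))) (b (a (l 16722024) (l 16686616)) (a (l 16680048) (l 16664256)))))) (a (b (a (b (a (l 16682944) (l 16700440)) (a (l 16675280) (l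 16691648))) (a (b (l 16704616) (l 16702688)) (l 16747848))) (a (b (a (l 16668736) (l 16687904)) (l 16682160)) (a (b (l 16715424) (l 16718152)) (l 16719416)))) (a (b (a (b (l 16727264) (l 16719392)) (l 16745984)) (a (l 16706560) (l 16685096))) (b (a (l 16679224) (a (l 16658312) (l 16642952))) (a (l 16658696) (a (l 16637032) (l 16621712)))))))), by decide +kernel⟩

def k2_pm_102 : ∃ t, chk3 f_pm_102 t 1 5 1 = true :=
  ⟨(a (a (b (b (b (b (a (l 2) (l 115527632567)) (l 2)) (l 2)) (l 2)) (l 2)) (b (b (b (a (b (l 16680544) (l 40365745111)) (b (a (l 16639176) (l 16661624)) (l 16669768))) (b (a (l 16634584) (l 16723976)) (b (a (l 16668088) (l 16687216)) (a (b (l 16674688) (l 16679600)) (b (l 16689024) (l 16692488)))))) (a (l 16688352) (l 16695320))) (a (l 16691416) (l 16686080)))) (b (a (b (b (a (b (l 16697288) (l 16703872)) (b (l 16713856) (l 16708144))) (b (a (l 16704552) (l 16702480)) (b (a (l 16704136) (l 16698472)) (a (b (l 16704904) (l 16706752)) (b (l 16696800)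 (l 16695872)))))) (a (l 16700800) (l 16682232))) (b (b (a (a (l 16690032) (l 16667320)) (a (l 16703000) (l 16609184))) (a (b (a (l 16678328) (l 16655000)) (b (a (l 16672736) (l 16649120)) (b (a (l 16669976) (l 16646232)) (a (l 16668016) (l 16644344))))) (a (b (l 16626872) (b (l 16620768) (l 16617504))) (b (l 16595104) (b (l 16588736) (l 16648816)))))) (a (a (l 16651904) (l 16627624)) (a (l 16620232) (l 16629584))))) (a (a (l 16677248) (a (l 16657480) (l 16636856))) (a (a (l 16613696) (l 16588088)) (a (l 16558960) (l 16610280)))))), by decide +kernel⟩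

def k3_pm_102 : ∃ t, chk3 f_pm_102 t 1 3 1 = true :=
  ⟨(a (b (a (l 2) (b (a (l 2) (l 16670096)) (l 2))) (l 2)) (b (a (b (a (l 16652416) (l 16616120)) (a (l 16645840) (l 16602096))) (b (a (l 16566448) (a (l 16521992) (l 16489296))) (a (l 16548816) (l 16675040)))) (a (b (a (l 2) (l 16611888)) (l 2)) (b (a (l 16550216) (l 16479672)) (a (l 16572688) (l 16485456)))))), by decide +kernel⟩

theorem s4_pm_102 : ∃ t, chk3 f_pm_102 t 1 4 1 = true := ex3_b k0_pm_102 k1_pm_102

theorem s5_pm_102 : ∃ t, chk3 f_pm_102 t 1 2 1 = true := ex3_b s4_pm_102 k2_pm_102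

theorem s6_pm_102 : ∃ t, chk3 f_pm_102 t 1 1 1 = true := ex3_b s5_pm_102 k3_pm_102

theorem c_pm_102 : CertB 536870912 536870912 0 536870912 649613803 48318383 3 eng mog cd1q1 cd3q0 pd2 true true false .npp 1 0 2
    ndB1q1 ndB3q0 pcB2 Cut.none Ext.none :=
  certB1 (fam := true) (s1 := true) (s2 := false) (a := 1) (b := 0) (c := 2) (cn := .npp) (n1 := ndB1q1) (n2 := ndB3q0) (pc := pcB2) (cut := Cut.none) (xt := Ext.none) (P1 := 536870912) (W1 := 536870912) (P2 := 0) (W2 := 536870912) (P3 := 649613803) (W3 := 48318383) (N0 := 3) (En := eng) (mo := mog) (C1 := cd1q1) (C2 := cd3q0) (C3 := pd2)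
    rfl (fun _ => rfl) s6_pm_102

noncomputable def f_pm_112 : ℕ → ℕ → ℕ → ℕ → Bool := onCell 536870912 536870912 1073741824 536870912 649613803 48318383
    (rowB 3 eng mog cd1q1 cd3q1 pd2 1 true true false .dn 1 1 2 (qsf 536870912 536870912 536870912 536870912 2) ndB1q1 ndB3q1 pcB2 Cut.none Ext.none)

def k0_pm_112 : ∃ t, chk3 f_pm_112 t 1 1 1 = true :=
  ⟨(a (b (b (b (l 3) (b (a (l 3) (l 1)) (a (b (l 3) (b (a (l 3) (l 16600824)) (a (l 16590752) (a (l 16589152) (b (l 16588080) (l 16592544)))))) (b (l 1) (a (b (l 1) (a (l 304439076327) (l 1))) (l 1)))))) (a (b (b (b (b (a (b (l 16594136) (l 16595976)) (b (l 16595776) (l 16597664))) (a (b (l 16595568) (l 16594384)) (a (l 16598792) (l 16600688)))) (b (a (b (l 16593672) (l 16591968)) (b (l 16602608) (l 16604720))) (b (a (l 16592656) (l 16609344)) (a (b (l 16597792) (l 16603224)) (b (l 16615848) (a (l 16618488) (a (l 16644896) (a (l 16667848) (l 16689480))))))))) (a (l 16602664) (l 16625920))) (a (l 16586960)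 (l 16619904))) (a (b (b (b (a (b (l 16596072) (l 16602856)) (l 1)) (b (l 16612608) (b (l 16619760) (b (l 16623984) (l 16627352))))) (l 16633040)) (l 16635480)) (b (b (l 1) (l 16628344)) (l 16636464))))) (b (a (b (a (l 16574624) (l 16682960)) (a (l 16508672) (l 16571504))) (b (a (l 16623728) (l 16632984)) (l 16794192))) (a (a (b (l 16467824) (l 16430640)) (b (l 16546520) (l 16529968))) (a (b (l 16611168) (l 16660336)) (b (l 16651456) (l 16688112)))))) (b (b (l 1) (b (l 1) (a (a (l 16623928) (l 1)) (l 1)))) (b (a (b (a (l 16626984) (l 16745400)) (a (l 16634704) (l 16608032))) (b (l 1) (a (l 16570592) (l 1)))) (a (b (a (l 16663616) (l 16638064)) (a (l 16724064) (l 16709040))) (b (l 99891634791) (l 16610656)))))), by decide +kernel⟩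

theorem c_pm_112 : CertB 536870912 536870912 536870912 536870912 649613803 48318383 3 eng mog cd1q1 cd3q1 pd2 true true false .dn 1 1 2
    ndB1q1 ndB3q1 pcB2 Cut.none Ext.none :=
  certB1 (fam := true) (s1 := true) (s2 := false) (a := 1) (b := 1) (c := 2) (cn := .dn) (n1 := ndB1q1) (n2 := ndB3q1) (pc := pcB2) (cut := Cut.none) (xt := Ext.none) (P1 := 536870912) (W1 := 536870912) (P2 := 536870912) (W2 := 536870912) (P3 := 649613803) (W3 := 48318383) (N0 := 3) (En := eng) (mo := mog) (C1 := cd1q1) (C2 := cd3q1) (C3 := pd2)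
    rfl (fun _ => rfl) k0_pm_112

noncomputable def f_pm_113 : ℕ → ℕ → ℕ → ℕ → Bool := onCell 536870912 536870912 1610612736 536870912 649613803 48318383
    (rowB 3 eng mog cd1q1 cd3q1 pd3 1 true true false .nn 1 1 3 (qsf 536870912 536870912 536870912 536870912 3) ndB1q1 ndB3q1 pcB3 Cut.none Ext.none)

def k0_pm_113 : ∃ t, chk3 f_pm_113 t 1 1 1 = true :=
  ⟨(a (b (a (b (b (b (l 16422192) (l 16402848)) (a (l 16306968) (l 16454896))) (b (a (l 2) (l 16444240)) (l 2))) (b (a (b (l 16606632) (l 16621320)) (b (l 16721440) (l 16744792))) (b (a (a (l 16549584) (l 16608488)) (b (l 16708200) (l 16677024))) (a (a (l 2) (l 16568688)) (b (l 16646552) (l 16621240)))))) (a (l 2) (b (b (a (l 2) (b (l 16603024) (l 2))) (l 2)) (l 2)))) (b (b (b (a (a (l 16810160) (l 16849184)) (a (l 16817064) (l 16741448))) (a (a (l 16847512) (l 16973176)) (a (l 17053216) (l 16989208)))) (b (a (b (a (l 16808240) (l 16913048)) (a (l 16772616) (l 16731880))) (b (a (l 16893128) (b (l 17174928)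 (l 17156184))) (a (b (l 17017456) (l 16996248)) (c (l 17126200) (l 17137288))))) (a (a (c (l 16745832) (l 16676808)) (b (l 16834280) (l 16794296))) (a (l 17009528) (l 17031344))))) (a (b (b (a (a (l 16633336) (l 16603592)) (b (l 16759592) (l 16732848))) (a (b (l 16629776) (l 2)) (b (l 16709376) (l 16681736)))) (b (a (l 2) (b (a (l 2) (l 16708656)) (l 2))) (l 2))) (a (b (b (b (l 16858528) (l 16823320)) (b (l 16792872) (l 16775168))) (b (b (l 16724632) (l 16605528)) (b (l 291621558535) (l 2)))) (b (b (l 17075448) (b (l 16868040) (l 16840312))) (b (b (l 16821872) (l 16791360)) (b (l 16757120) (b (l 4) (l 4))))))))), by decide +kernel⟩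

theorem c_pm_113 : CertB 536870912 536870912 536870912 536870912 649613803 48318383 3 eng mog cd1q1 cd3q1 pd3 true true false .nn 1 1 3
    ndB1q1 ndB3q1 pcB3 Cut.none Ext.none :=
  certB1 (fam := true) (s1 := true) (s2 := false) (a := 1) (b := 1) (c := 3) (cn := .nn) (n1 := ndB1q1) (n2 := ndB3q1) (pc := pcB3) (cut := Cut.none) (xt := Ext.none) (P1 := 536870912) (W1 := 536870912) (P2 := 536870912) (W2 := 536870912) (P3 := 649613803) (W3 := 48318383) (N0 := 3) (En := eng) (mo := mog) (C1 := cd1q1) (C2 := cd3q1) (C3 := pd3)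
    rfl (fun _ => rfl) k0_pm_113

noncomputable def f_pm_123_a : ℕ → ℕ → ℕ → ℕ → Bool := onCell 1610612736 536870912 0 536870912 649613803 48318383
    (rowB 3 eng mog cd1q1 cd3q2a pd3 2 true true false .npn 1 2 3 (qsf 536870912 536870912 0 536870912 3) ndB1q1 ndB3q2a pcB3 Cut.none Ext.none)

def k0_pm_123_a : ∃ t, chk3 f_pm_123_a t 2 1 1 = true :=
  ⟨(a (a (b (l 1) (b (l 1) (b (l 16510008) (b (l 16499640) (a (l 16482712) (l 16515000)))))) (b (b (l 1) (a (l 1) (l 16637104))) (b (a (b (l 1) (l 16569568)) (b (l 16612696) (l 16600824))) (b (a (l 16556840) (l 16598288)) (a (b (l 16557440) (l 16565216)) (b (l 16610512) (l 16627800))))))) (a (b (b (a (l 16690992) (l 16717192)) (a (a (l 16655632) (l 16670864)) (l 16899280))) (a (b (a (l 16635264) (b (l 16657984) (a (l 16654608) (l 16665512)))) (b (a (l 16640288) (a (l 16668192) (l 16683384))) (a (c (l 16692160) (l 16646560)) (a (l 16698112) (a (l 16706352) (l 16706384)))))) (b (a (b (l 16663440) (a (l 16663504)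 (l 16661744))) (l 16680696)) (b (a (a (l 16681056) (l 16675696)) (l 16690184)) (a (b (l 16697208) (a (l 16692848) (l 16694816))) (b (l 16712760) (l 16733240))))))) (b (b (l 16762952) (l 16746464)) (b (b (l 16737080) (c (l 16745520) (l 16726032))) (b (a (l 16726448) (l 16766096)) (a (b (l 16749736) (a (l 16758816) (l 16781512))) (b (l 16789696) (l 16789256)))))))), by decide +kernel⟩

def k1_pm_123_a : ∃ t, chk3 f_pm_123_a t 3 1 1 = true :=
  ⟨(a (b (b (a (a (l 16788208) (l 16796552)) (a (l 16803864) (l 16796104))) (a (a (l 16778056) (l 16789744)) (a (l 16794536) (l 16873040)))) (a (a (b (l 16780152) (b (l 16754728) (a (l 16802064) (l 16834312)))) (b (l 16795976) (b (l 16796896) (b (l 16836616) (l 16853128))))) (b (a (a (l 16801776) (l 16803016)) (b (l 16795552) (l 16801728))) (b (a (l 16828880) (l 16825456)) (a (a (l 16750208) (l 16861536)) (l 16861800)))))) (b (b (a (a (a (l 16761872) (l 16758344)) (a (l 238605600887) (l 4))) (l 4)) (a (a (b (l 16794936)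 (l 16786920)) (a (l 16828176) (l 16938672))) (a (a (l 216057239943) (l 4)) (l 4)))) (b (b (a (a (l 16787312) (a (l 16782232) (l 16783136))) (a (a (l 16780376) (l 16810528)) (l 4))) (a (a (l 16797248) (a (l 16795248) (l 16786680))) (a (a (l 16848176) (l 16893640)) (a (a (l 16775952) (l 16848608)) (l 4))))) (b (a (a (l 16820512) (l 16895328)) (a (a (l 16805944) (b (l 16807032) (l 16801880))) (a (a (l 16829288) (l 16866440)) (a (l 316452032375) (l 4))))) (b (a (a (l 16846256) (l 16832008)) (a (l 16854824) (a (a (l 16800008) (l 16788424)) (a (l 16885688) (a (l 16769048) (l 4)))))) (a (a (l 16862336) (l 16845336)) (a (a (l 16829088) (l 16816392)) (a (l 16798704) (a (a (l 16786456) (l 16803768)) (a (l 16819056) (a (l 16769856) (l 4)))))))))))), by decide +kernel⟩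

theorem s2_pm_123_a : ∃ t, chk3 f_pm_123_a t 1 1 1 = true := ex3_a k0_pm_123_a k1_pm_123_a

theorem c_pm_123_a : CertB 536870912 536870912 0 536870912 649613803 48318383 3 eng mog cd1q1 cd3q2a pd3 true true false .npn 1 2 3
    ndB1q1 ndB3q2a pcB3 Cut.none Ext.none :=
  certB2 (fam := true) (s1 := true) (s2 := false) (a := 1) (b := 2) (c := 3) (cn := .npn) (n1 := ndB1q1) (n2 := ndB3q2a) (pc := pcB3) (cut := Cut.none) (xt := Ext.none) (P1 := 536870912) (W1 := 536870912) (P2 := 0) (W2 := 536870912) (P3 := 649613803) (W3 := 48318383) (N0 := 3) (En := eng) (mo := mog) (C1 := cd1q1) (C2 := cd3q2a) (C3 := pd3)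
    rfl (fun _ => rfl) s2_pm_123_a

noncomputable def f_pm_123_b : ℕ → ℕ → ℕ → ℕ → Bool := onCell 1610612736 536870912 1239849684 370763052 649613803 48318383
    (rowB 3 eng mog cd1q1 cd3q2b pd3 2 true true false .npn 1 2 3 (qsf 536870912 536870912 1239849684 370763052 3) ndB1q1 ndB3q2b pcB3 Cut.none Ext.none)

def k0_pm_123_b : ∃ t, chk3 f_pm_123_b t 1 1 1 = true :=
  ⟨(a (a (l 1) (b (a (b (l 16698864) (l 1)) (b (l 16740192) (l 16749440))) (l 1))) (a (b (a (b (a (l 16763472) (l 16775272)) (l 16738928)) (b (a (l 16762536) (b (l 16759384) (l 16737440))) (a (l 16714224) (l 16727376)))) (a (l 1) (a (l 16744896) (l 4)))) (a (b (a (b (a (l 16738184) (l 4)) (l 4)) (l 4)) (l 4)) (l 4)))), by decide +kernel⟩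

theorem c_pm_123_b : CertB 536870912 536870912 1239849684 370763052 649613803 48318383 3 eng mog cd1q1 cd3q2b pd3 true true false .npn 1 2 3
    ndB1q1 ndB3q2b pcB3 Cut.none Ext.none :=
  certB2 (fam := true) (s1 := true) (s2 := false) (a := 1) (b := 2) (c := 3) (cn := .npn) (n1 := ndB1q1) (n2 := ndB3q2b) (pc := pcB3) (cut := Cut.none) (xt := Ext.none) (P1 := 536870912) (W1 := 536870912) (P2 := 1239849684) (W2 := 370763052) (P3 := 649613803) (W3 := 48318383) (N0 := 3) (En := eng) (mo := mog) (C1 := cd1q1) (C2 := cd3q2b) (C3 := pd3)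
    rfl (fun _ => rfl) k0_pm_123_b

noncomputable def f_pm_133 : ℕ → ℕ → ℕ → ℕ → Bool := onCell 536870912 536870912 1610612736 536870912 649613803 48318383
    (rowB 3 eng mog cd1q1 cd3q3 pd3 0 true true false .dn 1 3 3 (qsf 536870912 536870912 1610612736 536870912 3) ndB1q1 ndB3q3 pcB3 Cut.none Ext.none)

def k0_pm_133 : ∃ t, chk3 f_pm_133 t 1 1 1 = true :=
  ⟨(l 4), by decide +kernel⟩

theorem c_pm_133 : CertB 536870912 536870912 1610612736 536870912 649613803 48318383 3 eng mog cd1q1 cd3q3 pd3 true true false .dn 1 3 3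
    ndB1q1 ndB3q3 pcB3 Cut.none Ext.none :=
  certB0 (fam := true) (s1 := true) (s2 := false) (a := 1) (b := 3) (c := 3) (cn := .dn) (n1 := ndB1q1) (n2 := ndB3q3) (pc := pcB3) (cut := Cut.none) (xt := Ext.none) (P1 := 536870912) (W1 := 536870912) (P2 := 1610612736) (W2 := 536870912) (P3 := 649613803) (W3 := 48318383) (N0 := 3) (En := eng) (mo := mog) (C1 := cd1q1) (C2 := cd3q3) (C3 := pd3)
    rfl k0_pm_133

noncomputable def cut_pm_202_a : Cut := Cut.of [[⟨0, 1, 0, 67108864⟩, ⟨1, 0, 0, 67108864⟩, ⟨2, 1, 0, 67108864⟩]]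

noncomputable def f_pm_202_a : ℕ → ℕ → ℕ → ℕ → Bool := onCell 0 536870912 1073741824 536870912 649613803 48318383
    (rowB 3 eng mog cd1q2a cd3q0 pd2 1 true true false .pp 2 0 2 (qsf 0 536870912 0 536870912 2) ndB1q2a ndB3q0 pcB2 cut_pm_202_a Ext.none)

def k0_pm_202_a : ∃ t, chk3 f_pm_202_a t 4 2 1 = true :=
  ⟨(b (l 1) (b (b (b (l 1) (b (a (l 1) (b (l 1) (a (l 1) (l 16466152)))) (c (a (a (l 16442040) (l 16425648)) (a (l 16453632) (l 16462720))) (a (l 16448704) (l 16537152))))) (b (a (c (b (a (l 16439088) (l 16443248)) (a (b (l 16437336) (l 16436936)) (l 16440496))) (a (b (l 16440920) (l 16437080)) (b (l 16445680) (l 16440928)))) (c (b (a (l 16450192) (l 16459216)) (a (l 16447376) (b (l 16456872) (l 16455784)))) (b (l 16479240) (a (l 16448472) (l 16458136))))) (a (a (b (l 16439544) (l 16444928)) (b (l 16441872) (l 16446176))) (c (a (l 16451112) (l 16459400)) (a (l 16451200) (l 16460208)))))) (b (a (b (c (a (l 16453688) (l 16454112)) (l 16452832)) (l 16460976))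 (b (c (l 16504024) (l 16461720)) (a (l 16463712) (l 16469952)))) (a (l 16471528) (b (l 16530248) (l 16477576)))))), by decide +kernel⟩

def k1_pm_202_a : ∃ t, chk3 f_pm_202_a t 5 2 1 = true :=
  ⟨(b (b (l 1) (b (l 1) (a (l 1) (b (l 1) (a (l 1) (b (l 1) (c (c (l 371547625911) (l 16528848)) (l 382822001319)))))))) (b (b (a (b (b (l 1) (c (a (l 246456716519) (b (l 16482128) (l 16484552))) (a (l 16460528) (l 16493384)))) (c (a (b (l 16476344) (l 16473752)) (b (l 16487984) (l 16485696))) (b (a (b (l 16465752) (l 16469136)) (b (l 16477216) (l 16480320))) (a (l 16474032) (l 16484808))))) (b (a (b (c (c (l 394633112231) (l 16502304)) (l 257731044743)) (c (a (l 16420904) (l 16502896)) (a (l 16483640) (l 16492712)))) (b (c (a (l 16424864) (l 16519256)) (l 303365104215)) (c (l 16517328) (l 16413872)))) (c (a (a (l 16497104) (l 16503112)) (l 16511776)) (a (a (b (l 16489480) (l 16494968)) (l 16500664)) (l 16514944))))) (a (b (c (a (b (c (l 16469968) (l 16470760)) (b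 (l 16467760) (l 16466616))) (b (c (l 16481736) (l 16482592)) (b (l 16479456) (l 16478208)))) (a (b (l 16474840) (l 16469920)) (b (l 16486776) (l 16481720)))) (c (a (l 16469624) (l 16480640)) (a (l 16471360) (l 16482544)))) (b (a (c (b (l 16473152) (b (l 16491448) (l 16490072))) (b (l 16498304) (l 16493064))) (c (b (l 16505256) (l 16501552)) (l 16505344))) (a (c (l 16491944) (l 16493272)) (c (l 16502112) (l 16502232)))))) (a (b (c (b (a (l 16474712) (l 16484768)) (l 16484216)) (b (l 16480976) (l 16484304))) (l 16551304)) (b (a (c (l 16465200) (l 16496776)) (c (l 16505512) (l 16504464))) (a (l 16499936) (l 16506704)))))), by decide +kernel⟩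

def k2_pm_202_a : ∃ t, chk3 f_pm_202_a t 2 3 1 = true :=
  ⟨(b (b (b (a (a (l 16483160) (l 16484440)) (a (l 16494992) (l 16508048))) (a (l 16581984) (a (l 16504672) (l 16514960)))) (a (b (a (l 16517392) (l 16511976)) (a (l 16537112) (l 16527496))) (a (b (l 16516368) (l 16528368)) (b (l 16523376) (l 16531880))))) (b (a (b (a (l 16556920) (l 16544992)) (a (l 16580160) (l 16567248))) (a (l 16635240) (l 16549576))) (a (b (l 16619240) (l 16629072)) (a (b (l 16581808) (l 16607568)) (l 16583840))))), by decide +kernel⟩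

def k3_pm_202_a : ∃ t, chk3 f_pm_202_a t 3 4 1 = true :=
  ⟨(b (a (l 1) (b (a (l 1) (l 6)) (b (a (a (l 1) (l 6)) (l 6)) (b (a (a (l 1) (l 6)) (l 6)) (a (a (a (l 1) (a (l 282427376823) (l 337188243623))) (a (c (b (l 6) (l 16656792)) (l 340946358055)) (l 16650056))) (b (l 6) (a (l 16680120) (l 16684184)))))))) (a (b (a (l 1) (b (a (l 1) (b (l 1) (a (l 248604440663) (l 333966950583)))) (a (b (a (l 1) (l 284574753239)) (a (l 290480307943) (c (l 16581272) (l 16571528)))) (b (a (l 329671953751) (c (l 16609664) (l 16601696))) (c (l 16519288) (a (l 16587832) (l 16602968))))))) (b (b (a (a (l 1) (a (l 1) (l 321081942231))) (a (a (c (l 16552968) (l 16558600)) (l 16494936)) (l 16537752))) (a (a (a (l 1) (l 273300371431)) (a (l 359736622951) (c (l 16494664) (l 16547400)))) (a (b (l 16468344) (l 16553232)) (l 16595568)))) (a (b (c (a (a (l 16523568) (l 16472328)) (l 16469832)) (a (l 277595326759) (a (l 16537304) (l 16550944)))) (a (a (c (l 307123093047) (l 16516488))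 (l 16429304)) (l 16468584))) (a (b (l 16575568) (l 16568480)) (l 16581792))))) (a (a (b (a (b (b (b (l 286722320327) (l 324303300151)) (c (l 16561488) (l 16616920))) (b (l 16621328) (l 16621464))) (b (b (a (l 16633088) (a (l 16597496) (l 16643440))) (l 16616152)) (l 16631808))) (b (l 16609632) (l 16590624))) (b (b (b (c (l 16600432) (l 16585664)) (l 16633304)) (c (l 16637344) (l 16639600))) (b (l 16617528) (l 16598184)))) (b (a (b (a (l 16664512) (l 16667240)) (a (l 16642632) (l 16645248))) (b (a (l 16669344) (l 16670312)) (l 16647872))) (a (b (l 16623216) (l 16603632)) (b (l 16626888) (l 16607200))))))), by decide +kernel⟩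

def k4_pm_202_a : ∃ t, chk3 f_pm_202_a t 3 5 1 = true :=
  ⟨(b (a (b (b (a (a (b (a (l 16463336) (l 16537832)) (l 16532896)) (a (l 16543760) (l 16548800))) (a (l 16556168) (l 16564624))) (a (b (a (l 16526536) (l 16535312)) (a (l 16520624) (b (l 16530240) (b (l 16527840) (l 16526360))))) (b (a (l 16544624) (l 16552696)) (b (l 16564728) (a (l 16535872) (l 16543904)))))) (a (b (a (c (b (l 16515328) (l 16511256)) (l 16513448)) (c (l 16542672) (l 16519688))) (a (l 16509576) (l 16515824))) (b (a (b (l 16530632) (l 16524048)) (l 16534976)) (a (l 16521520) (l 16527680))))) (b (b (a (a (l 16573040) (l 16580296)) (a (l 16585568) (l 16588456))) (a (b (l 16564904) (b (l 16559224) (a (l 16552096) (l 16559272)))) (b (a (l 16572976) (l 16575160)) (b (l 16631440) (a (l 16585072) (l 16691848)))))) (b (a (a (l 16542864) (l 16549624)) (a (l 16553840) (l 16555784))) (a (l 16537656) (l 16607024))))) (a (a (b (a (l 16511128) (l 16516104)) (a (l 16512312) (l 16515968))) (b (a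 (l 16520128) (l 16523328)) (a (l 16518416) (l 16519544)))) (a (b (l 16613848) (l 16521736)) (b (a (l 16532408) (l 16532328)) (l 16583504))))), by decide +kernel⟩

def k5_pm_202_a : ∃ t, chk3 f_pm_202_a t 3 3 1 = true :=
  ⟨(b (a (b (a (b (l 16516880) (l 16520136)) (b (l 16517992) (l 16517560))) (a (b (l 16524840) (l 16530704)) (b (l 16518928) (l 16521528)))) (b (a (b (l 16516280) (l 16512664)) (b (l 16511336) (l 16505160))) (a (b (l 16511216) (l 16510696)) (b (l 16501608) (l 16498160))))) (a (b (a (l 16542920) (l 16528016)) (a (l 16566960) (l 16545472))) (b (a (l 16512360) (l 16579232)) (a (l 16523424) (l 16502056))))), by decide +kernel⟩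

theorem s6_pm_202_a : ∃ t, chk3 f_pm_202_a t 3 2 1 = true := ex3_b k3_pm_202_a k4_pm_202_a

theorem s7_pm_202_a : ∃ t, chk3 f_pm_202_a t 3 1 1 = true := ex3_b s6_pm_202_a k5_pm_202_a

theorem s8_pm_202_a : ∃ t, chk3 f_pm_202_a t 2 2 1 = true := ex3_a k0_pm_202_a k1_pm_202_a

theorem s9_pm_202_a : ∃ t, chk3 f_pm_202_a t 2 1 1 = true := ex3_b s8_pm_202_a k2_pm_202_a

theorem s10_pm_202_a : ∃ t, chk3 f_pm_202_a t 1 1 1 = true := ex3_a s9_pm_202_a s7_pm_202_a

theorem c_pm_202_a : CertB 0 536870912 0 536870912 649613803 48318383 3 eng mog cd1q2a cd3q0 pd2 true true false .pp 2 0 2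
    ndB1q2a ndB3q0 pcB2 cut_pm_202_a Ext.none :=
  certB1 (fam := true) (s1 := true) (s2 := false) (a := 2) (b := 0) (c := 2) (cn := .pp) (n1 := ndB1q2a) (n2 := ndB3q0) (pc := pcB2) (cut := cut_pm_202_a) (xt := Ext.none) (P1 := 0) (W1 := 536870912) (P2 := 0) (W2 := 536870912) (P3 := 649613803) (W3 := 48318383) (N0 := 3) (En := eng) (mo := mog) (C1 := cd1q2a) (C2 := cd3q0) (C3 := pd2)
    rfl (fun _ => rfl) s10_pm_202_a

noncomputable def cut_pm_202_b : Cut := Cut.of [[⟨0, 1, 0, 67108864⟩, ⟨1, 0, 0, 67108864⟩, ⟨2, 1, 0, 67108864⟩]]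

noncomputable def f_pm_202_b : ℕ → ℕ → ℕ → ℕ → Bool := onCell 1073741824 536870912 0 536870912 649613803 48318383
    (rowB 3 eng mog cd1q2b cd3q0 pd2 2 true true false .pp 2 0 2 (qsf 1239849684 370763052 0 536870912 2) ndB1q2b ndB3q0 pcB2 cut_pm_202_b Ext.none)

def k0_pm_202_b : ∃ t, chk3 f_pm_202_b t 1 1 1 = true :=
  ⟨(a (b (a (l 1) (b (a (b (a (b (a (l 1) (c (b (l 16470504) (l 1)) (l 96132887191))) (l 1)) (a (b (c (a (l 16459344) (b (l 16426264) (l 16458120))) (b (l 16414792) (l 16486400))) (l 1)) (b (c (b (l 16408152) (l 16440960)) (l 72510395991)) (c (l 333429846471) (l 315713105863))))) (l 1)) (a (b (b (b (l 16369544) (l 16404944)) (a (c (l 153041147191) (l 16465424)) (l 16442288))) (b (l 395706828151) (l 1))) (b (b (l 16404760) (l 16398424)) (b (l 100964810679) (l 291553963063))))) (l 1))) (l 1)) (a (b (b (a (b (b (a (l 16262760) (l 16214232)) (a (l 16338912) (l 16288160))) (a (b (l 16412616) (l 16524488)) (l 16395864))) (b (a (b (l 16174448) (l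 16245488)) (l 16179624)) (a (l 16350488) (l 16314120)))) (a (b (b (a (l 277058487863) (l 16540816)) (b (l 317323831319) (l 1))) (l 1)) (b (a (a (b (l 16461720) (l 265784196759)) (l 100964980679)) (l 16550984)) (a (b (l 338261768903) (l 1)) (b (a (l 264710498807) (l 16526272)) (l 463889688935)))))) (l 1)) (b (b (a (b (a (l 16158632) (l 16146032)) (a (l 16285952) (l 16265960))) (b (a (l 16140376) (l 16143712)) (l 16248088))) (a (b (a (l 16416128) (l 16391776)) (a (b (l 16502968) (l 16562384)) (l 16506448))) (b (l 16365720) (l 16499840)))) (b (a (b (a (b (l 403760300679) (l 1)) (l 253436326487)) (l 1)) (b (a (l 16575232) (l 16560552)) (a (l 388191143751) (l 173979800727)))) (l 1))))), by decide +kernel⟩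

theorem c_pm_202_b : CertB 1239849684 370763052 0 536870912 649613803 48318383 3 eng mog cd1q2b cd3q0 pd2 true true false .pp 2 0 2
    ndB1q2b ndB3q0 pcB2 cut_pm_202_b Ext.none :=
  certB2 (fam := true) (s1 := true) (s2 := false) (a := 2) (b := 0) (c := 2) (cn := .pp) (n1 := ndB1q2b) (n2 := ndB3q0) (pc := pcB2) (cut := cut_pm_202_b) (xt := Ext.none) (P1 := 1239849684) (W1 := 370763052) (P2 := 0) (W2 := 536870912) (P3 := 649613803) (W3 := 48318383) (N0 := 3) (En := eng) (mo := mog) (C1 := cd1q2b) (C2 := cd3q0) (C3 := pd2)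
    rfl (fun _ => rfl) k0_pm_202_b

noncomputable def f_pm_203_a : ℕ → ℕ → ℕ → ℕ → Bool := onCell 0 536870912 1610612736 536870912 649613803 48318383
    (rowB 3 eng mog cd1q2a cd3q0 pd3 1 true true false .up 2 0 3 (qsf 0 536870912 0 536870912 3) ndB1q2a ndB3q0 pcB3 Cut.none Ext.none)

def k0_pm_203_a : ∃ t, chk3 f_pm_203_a t 1 1 1 = true :=
  ⟨(b (b (a (b (a (b (l 16670552) (l 16707904)) (b (l 16644440) (l 16684096))) (a (b (l 16738008) (l 16761216)) (b (l 16719776) (l 16752216)))) (b (a (l 16634984) (l 16617648)) (a (a (l 16722624) (l 16714920)) (a (l 16720888) (l 2))))) (a (b (a (l 16781912) (l 16791008)) (l 2)) (a (l 2) (l 2)))) (l 2)), by decide +kernel⟩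

theorem c_pm_203_a : CertB 0 536870912 0 536870912 649613803 48318383 3 eng mog cd1q2a cd3q0 pd3 true true false .up 2 0 3
    ndB1q2a ndB3q0 pcB3 Cut.none Ext.none :=
  certB1 (fam := true) (s1 := true) (s2 := false) (a := 2) (b := 0) (c := 3) (cn := .up) (n1 := ndB1q2a) (n2 := ndB3q0) (pc := pcB3) (cut := Cut.none) (xt := Ext.none) (P1 := 0) (W1 := 536870912) (P2 := 0) (W2 := 536870912) (P3 := 649613803) (W3 := 48318383) (N0 := 3) (En := eng) (mo := mog) (C1 := cd1q2a) (C2 := cd3q0) (C3 := pd3)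
    rfl (fun _ => rfl) k0_pm_203_a

noncomputable def f_pm_203_b : ℕ → ℕ → ℕ → ℕ → Bool := onCell 1239849684 370763052 1610612736 536870912 649613803 48318383
    (rowB 3 eng mog cd1q2b cd3q0 pd3 1 true true false .up 2 0 3 (qsf 1239849684 370763052 0 536870912 3) ndB1q2b ndB3q0 pcB3 Cut.none Ext.none)

def k0_pm_203_b : ∃ t, chk3 f_pm_203_b t 1 1 1 = true :=
  ⟨(b (b (a (b (a (b (l 16587048) (l 16639816)) (b (l 16474600) (l 16507280))) (a (l 4) (l 16668936))) (b (a (b (l 16323768) (l 16364816)) (b (l 16175088) (l 16212496))) (b (a (l 16410928) (l 16258776)) (l 16393392)))) (l 4)) (l 4)), by decide +kernel⟩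

theorem c_pm_203_b : CertB 1239849684 370763052 0 536870912 649613803 48318383 3 eng mog cd1q2b cd3q0 pd3 true true false .up 2 0 3
    ndB1q2b ndB3q0 pcB3 Cut.none Ext.none :=
  certB1 (fam := true) (s1 := true) (s2 := false) (a := 2) (b := 0) (c := 3) (cn := .up) (n1 := ndB1q2b) (n2 := ndB3q0) (pc := pcB3) (cut := Cut.none) (xt := Ext.none) (P1 := 1239849684) (W1 := 370763052) (P2 := 0) (W2 := 536870912) (P3 := 649613803) (W3 := 48318383) (N0 := 3) (En := eng) (mo := mog) (C1 := cd1q2b) (C2 := cd3q0) (C3 := pd3)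
    rfl (fun _ => rfl) k0_pm_203_b

noncomputable def f_pm_213_a : ℕ → ℕ → ℕ → ℕ → Bool := onCell 0 536870912 1610612736 536870912 649613803 48318383
    (rowB 3 eng mog cd1q2a cd3q1 pd3 1 true true false .pnn 2 1 3 (qsf 0 536870912 536870912 536870912 3) ndB1q2a ndB3q1 pcB3 Cut.none Ext.none)

def k0_pm_213_a : ∃ t, chk3 f_pm_213_a t 1 1 1 = true :=
  ⟨(a (b (b (b (l 1) (b (l 1) (l 346315690375))) (b (a (l 16559432) (b (l 16732120) (l 16718152))) (l 61438428519))) (l 4)) (b (b (b (a (l 1) (l 16720376)) (a (b (l 16773040) (l 16816152)) (a (l 16835808) (l 16920032)))) (b (a (l 17000576) (a (l 17004336) (b (l 17106680) (l 17042048)))) (a (l 16789176) (l 17043528)))) (b (b (a (l 16882256) (b (l 16883384) (l 16847072))) (a (l 92040038231) (b (l 16810504) (a (l 16754720) (l 16808144))))) (b (a (l 4) (b (a (l 4) (l 16774808)) (l 4))) (l 4))))), by decide +kernel⟩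

theorem c_pm_213_a : CertB 0 536870912 536870912 536870912 649613803 48318383 3 eng mog cd1q2a cd3q1 pd3 true true false .pnn 2 1 3
    ndB1q2a ndB3q1 pcB3 Cut.none Ext.none :=
  certB1 (fam := true) (s1 := true) (s2 := false) (a := 2) (b := 1) (c := 3) (cn := .pnn) (n1 := ndB1q2a) (n2 := ndB3q1) (pc := pcB3) (cut := Cut.none) (xt := Ext.none) (P1 := 0) (W1 := 536870912) (P2 := 536870912) (W2 := 536870912) (P3 := 649613803) (W3 := 48318383) (N0 := 3) (En := eng) (mo := mog) (C1 := cd1q2a) (C2 := cd3q1) (C3 := pd3)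
    rfl (fun _ => rfl) k0_pm_213_a

noncomputable def f_pm_213_b : ℕ → ℕ → ℕ → ℕ → Bool := onCell 1239849684 370763052 536870912 536870912 649613803 48318383
    (rowB 3 eng mog cd1q2b cd3q1 pd3 0 true true false .pnn 2 1 3 (qsf 1239849684 370763052 536870912 536870912 3) ndB1q2b ndB3q1 pcB3 Cut.none Ext.none)

def k0_pm_213_b : ∃ t, chk3 f_pm_213_b t 1 1 1 = true :=
  ⟨(l 4), by decide +kernel⟩

theorem c_pm_213_b : CertB 1239849684 370763052 536870912 536870912 649613803 48318383 3 eng mog cd1q2b cd3q1 pd3 true true false .pnn 2 1 3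
    ndB1q2b ndB3q1 pcB3 Cut.none Ext.none :=
  certB0 (fam := true) (s1 := true) (s2 := false) (a := 2) (b := 1) (c := 3) (cn := .pnn) (n1 := ndB1q2b) (n2 := ndB3q1) (pc := pcB3) (cut := Cut.none) (xt := Ext.none) (P1 := 1239849684) (W1 := 370763052) (P2 := 536870912) (W2 := 536870912) (P3 := 649613803) (W3 := 48318383) (N0 := 3) (En := eng) (mo := mog) (C1 := cd1q2b) (C2 := cd3q1) (C3 := pd3)
    rfl k0_pm_213_b

noncomputable def f_pm_303 : ℕ → ℕ → ℕ → ℕ → Bool := onCell 1610612736 536870912 0 536870912 649613803 48318383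
    (rowB 3 eng mog cd1q3 cd3q0 pd3 2 true true false .npn 3 0 3 (qsf 1610612736 536870912 0 536870912 3) ndB1q3 ndB3q0 pcB3 Cut.none Ext.none)

def k0_pm_303 : ∃ t, chk3 f_pm_303 t 1 1 1 = true :=
  ⟨(a (a (b (b (a (b (l 16104904) (l 16211768)) (a (l 16139864) (l 16138360))) (a (l 1) (l 399464873895))) (l 1)) (b (a (b (a (l 16153440) (l 4)) (l 4)) (l 4)) (l 4))) (l 4)), by decide +kernel⟩

theorem c_pm_303 : CertB 1610612736 536870912 0 536870912 649613803 48318383 3 eng mog cd1q3 cd3q0 pd3 true true false .npn 3 0 3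
    ndB1q3 ndB3q0 pcB3 Cut.none Ext.none :=
  certB2 (fam := true) (s1 := true) (s2 := false) (a := 3) (b := 0) (c := 3) (cn := .npn) (n1 := ndB1q3) (n2 := ndB3q0) (pc := pcB3) (cut := Cut.none) (xt := Ext.none) (P1 := 1610612736) (W1 := 536870912) (P2 := 0) (W2 := 536870912) (P3 := 649613803) (W3 := 48318383) (N0 := 3) (En := eng) (mo := mog) (C1 := cd1q3) (C2 := cd3q0) (C3 := pd3)
    rfl (fun _ => rfl) k0_pm_303

noncomputable def f_pm_313 : ℕ → ℕ → ℕ → ℕ → Bool := onCell 1610612736 536870912 536870912 536870912 649613803 48318383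
    (rowB 3 eng mog cd1q3 cd3q1 pd3 0 true true false .dn 3 1 3 (qsf 1610612736 536870912 536870912 536870912 3) ndB1q3 ndB3q1 pcB3 Cut.none Ext.none)

def k0_pm_313 : ∃ t, chk3 f_pm_313 t 1 1 1 = true :=
  ⟨(l 4), by decide +kernel⟩

theorem c_pm_313 : CertB 1610612736 536870912 536870912 536870912 649613803 48318383 3 eng mog cd1q3 cd3q1 pd3 true true false .dn 3 1 3
    ndB1q3 ndB3q1 pcB3 Cut.none Ext.none :=
  certB0 (fam := true) (s1 := true) (s2 := false) (a := 3) (b := 1) (c := 3) (cn := .dn) (n1 := ndB1q3) (n2 := ndB3q1) (pc := pcB3) (cut := Cut.none) (xt := Ext.none) (P1 := 1610612736) (W1 := 536870912) (P2 := 536870912) (W2 := 536870912) (P3 := 649613803) (W3 := 48318383) (N0 := 3) (En := eng) (mo := mog) (C1 := cd1q3) (C2 := cd3q1) (C3 := pd3)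
    rfl k0_pm_313

noncomputable def f_mm_001 : ℕ → ℕ → ℕ → ℕ → Bool := onCell 0 536870912 0 536870912 649613803 48318383
    (rowB 3 eng mog cd1q0 cd3q0 pd1 0 true false false .up 0 0 1 (qsf 0 536870912 0 536870912 1) ndB1q0 ndB3q0 pcB1 Cut.none Ext.none)

def k0_mm_001 : ∃ t, chk3 f_mm_001 t 1 1 1 = true :=
  ⟨(l 4), by decide +kernel⟩

theorem c_mm_001 : CertB 0 536870912 0 536870912 649613803 48318383 3 eng mog cd1q0 cd3q0 pd1 true false false .up 0 0 1
    ndB1q0 ndB3q0 pcB1 Cut.none Ext.none :=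
  certB0 (fam := true) (s1 := false) (s2 := false) (a := 0) (b := 0) (c := 1) (cn := .up) (n1 := ndB1q0) (n2 := ndB3q0) (pc := pcB1) (cut := Cut.none) (xt := Ext.none) (P1 := 0) (W1 := 536870912) (P2 := 0) (W2 := 536870912) (P3 := 649613803) (W3 := 48318383) (N0 := 3) (En := eng) (mo := mog) (C1 := cd1q0) (C2 := cd3q0) (C3 := pd1)
    rfl k0_mm_001

noncomputable def f_mm_011 : ℕ → ℕ → ℕ → ℕ → Bool := onCell 0 536870912 536870912 536870912 649613803 48318383
    (rowB 3 eng mog cd1q0 cd3q1 pd1 0 true false false .pnn 0 1 1 (qsf 0 536870912 536870912 536870912 1) ndB1q0 ndB3q1 pcB1 Cut.none Ext.none)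

def k0_mm_011 : ∃ t, chk3 f_mm_011 t 1 1 1 = true :=
  ⟨(l 4), by decide +kernel⟩

theorem c_mm_011 : CertB 0 536870912 536870912 536870912 649613803 48318383 3 eng mog cd1q0 cd3q1 pd1 true false false .pnn 0 1 1
    ndB1q0 ndB3q1 pcB1 Cut.none Ext.none :=
  certB0 (fam := true) (s1 := false) (s2 := false) (a := 0) (b := 1) (c := 1) (cn := .pnn) (n1 := ndB1q0) (n2 := ndB3q1) (pc := pcB1) (cut := Cut.none) (xt := Ext.none) (P1 := 0) (W1 := 536870912) (P2 := 536870912) (W2 := 536870912) (P3 := 649613803) (W3 := 48318383) (N0 := 3) (En := eng) (mo := mog) (C1 := cd1q0) (C2 := cd3q1) (C3 := pd1)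
    rfl k0_mm_011

noncomputable def f_mm_012 : ℕ → ℕ → ℕ → ℕ → Bool := onCell 0 536870912 536870912 536870912 649613803 48318383
    (rowB 3 eng mog cd1q0 cd3q1 pd2 0 true false false .pnp 0 1 2 (qsf 0 536870912 536870912 536870912 2) ndB1q0 ndB3q1 pcB2 Cut.none Ext.none)

def k0_mm_012 : ∃ t, chk3 f_mm_012 t 1 1 1 = true :=
  ⟨(l 4), by decide +kernel⟩

theorem c_mm_012 : CertB 0 536870912 536870912 536870912 649613803 48318383 3 eng mog cd1q0 cd3q1 pd2 true false false .pnp 0 1 2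
    ndB1q0 ndB3q1 pcB2 Cut.none Ext.none :=
  certB0 (fam := true) (s1 := false) (s2 := false) (a := 0) (b := 1) (c := 2) (cn := .pnp) (n1 := ndB1q0) (n2 := ndB3q1) (pc := pcB2) (cut := Cut.none) (xt := Ext.none) (P1 := 0) (W1 := 536870912) (P2 := 536870912) (W2 := 536870912) (P3 := 649613803) (W3 := 48318383) (N0 := 3) (En := eng) (mo := mog) (C1 := cd1q0) (C2 := cd3q1) (C3 := pd2)
    rfl k0_mm_012

noncomputable def f_mm_022_a : ℕ → ℕ → ℕ → ℕ → Bool := onCell 0 536870912 0 536870912 649613803 48318383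
    (rowB 3 eng mog cd1q0 cd3q2a pd2 0 true false false .pp 0 2 2 (qsf 0 536870912 0 536870912 2) ndB1q0 ndB3q2a pcB2 Cut.none Ext.none)

def k0_mm_022_a : ∃ t, chk3 f_mm_022_a t 1 1 1 = true :=
  ⟨(l 5), by decide +kernel⟩

theorem c_mm_022_a : CertB 0 536870912 0 536870912 649613803 48318383 3 eng mog cd1q0 cd3q2a pd2 true false false .pp 0 2 2
    ndB1q0 ndB3q2a pcB2 Cut.none Ext.none :=
  certB0 (fam := true) (s1 := false) (s2 := false) (a := 0) (b := 2) (c := 2) (cn := .pp) (n1 := ndB1q0) (n2 := ndB3q2a) (pc := pcB2) (cut := Cut.none) (xt := Ext.none) (P1 := 0) (W1 := 536870912) (P2 := 0) (W2 := 536870912) (P3 := 649613803) (W3 := 48318383) (N0 := 3) (En := eng) (mo := mog) (C1 := cd1q0) (C2 := cd3q2a) (C3 := pd2)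
    rfl k0_mm_022_a

noncomputable def f_mm_022_b : ℕ → ℕ → ℕ → ℕ → Bool := onCell 0 536870912 1239849684 370763052 649613803 48318383
    (rowB 3 eng mog cd1q0 cd3q2b pd2 0 true false false .pp 0 2 2 (qsf 0 536870912 1239849684 370763052 2) ndB1q0 ndB3q2b pcB2 Cut.none Ext.none)

def k0_mm_022_b : ∃ t, chk3 f_mm_022_b t 1 1 1 = true :=
  ⟨(l 5), by decide +kernel⟩

theorem c_mm_022_b : CertB 0 536870912 1239849684 370763052 649613803 48318383 3 eng mog cd1q0 cd3q2b pd2 true false false .pp 0 2 2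
    ndB1q0 ndB3q2b pcB2 Cut.none Ext.none :=
  certB0 (fam := true) (s1 := false) (s2 := false) (a := 0) (b := 2) (c := 2) (cn := .pp) (n1 := ndB1q0) (n2 := ndB3q2b) (pc := pcB2) (cut := Cut.none) (xt := Ext.none) (P1 := 0) (W1 := 536870912) (P2 := 1239849684) (W2 := 370763052) (P3 := 649613803) (W3 := 48318383) (N0 := 3) (En := eng) (mo := mog) (C1 := cd1q0) (C2 := cd3q2b) (C3 := pd2)
    rfl k0_mm_022_b

noncomputable def f_mm_023_a : ℕ → ℕ → ℕ → ℕ → Bool := onCell 0 536870912 0 536870912 649613803 48318383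
    (rowB 3 eng mog cd1q0 cd3q2a pd3 0 true false false .up 0 2 3 (qsf 0 536870912 0 536870912 3) ndB1q0 ndB3q2a pcB3 Cut.none Ext.none)

def k0_mm_023_a : ∃ t, chk3 f_mm_023_a t 1 1 1 = true :=
  ⟨(l 5), by decide +kernel⟩

theorem c_mm_023_a : CertB 0 536870912 0 536870912 649613803 48318383 3 eng mog cd1q0 cd3q2a pd3 true false false .up 0 2 3
    ndB1q0 ndB3q2a pcB3 Cut.none Ext.none :=
  certB0 (fam := true) (s1 := false) (s2 := false) (a := 0) (b := 2) (c := 3) (cn := .up) (n1 := ndB1q0) (n2 := ndB3q2a) (pc := pcB3) (cut := Cut.none) (xt := Ext.none) (P1 := 0) (W1 := 536870912) (P2 := 0) (W2 := 536870912) (P3 := 649613803) (W3 := 48318383) (N0 := 3) (En := eng) (mo := mog) (C1 := cd1q0) (C2 := cd3q2a) (C3 := pd3)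
    rfl k0_mm_023_a

noncomputable def f_mm_023_b : ℕ → ℕ → ℕ → ℕ → Bool := onCell 0 536870912 1239849684 370763052 649613803 48318383
    (rowB 3 eng mog cd1q0 cd3q2b pd3 0 true false false .up 0 2 3 (qsf 0 536870912 1239849684 370763052 3) ndB1q0 ndB3q2b pcB3 Cut.none Ext.none)

def k0_mm_023_b : ∃ t, chk3 f_mm_023_b t 1 1 1 = true :=
  ⟨(l 5), by decide +kernel⟩

theorem c_mm_023_b : CertB 0 536870912 1239849684 370763052 649613803 48318383 3 eng mog cd1q0 cd3q2b pd3 true false false .up 0 2 3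
    ndB1q0 ndB3q2b pcB3 Cut.none Ext.none :=
  certB0 (fam := true) (s1 := false) (s2 := false) (a := 0) (b := 2) (c := 3) (cn := .up) (n1 := ndB1q0) (n2 := ndB3q2b) (pc := pcB3) (cut := Cut.none) (xt := Ext.none) (P1 := 0) (W1 := 536870912) (P2 := 1239849684) (W2 := 370763052) (P3 := 649613803) (W3 := 48318383) (N0 := 3) (En := eng) (mo := mog) (C1 := cd1q0) (C2 := cd3q2b) (C3 := pd3)
    rfl k0_mm_023_b

noncomputable def f_mm_033 : ℕ → ℕ → ℕ → ℕ → Bool := onCell 0 536870912 1610612736 536870912 649613803 48318383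
    (rowB 3 eng mog cd1q0 cd3q3 pd3 0 true false false .pnn 0 3 3 (qsf 0 536870912 1610612736 536870912 3) ndB1q0 ndB3q3 pcB3 Cut.none Ext.none)

def k0_mm_033 : ∃ t, chk3 f_mm_033 t 1 1 1 = true :=
  ⟨(l 5), by decide +kernel⟩

theorem c_mm_033 : CertB 0 536870912 1610612736 536870912 649613803 48318383 3 eng mog cd1q0 cd3q3 pd3 true false false .pnn 0 3 3
    ndB1q0 ndB3q3 pcB3 Cut.none Ext.none :=
  certB0 (fam := true) (s1 := false) (s2 := false) (a := 0) (b := 3) (c := 3) (cn := .pnn) (n1 := ndB1q0) (n2 := ndB3q3) (pc := pcB3) (cut := Cut.none) (xt := Ext.none) (P1 := 0) (W1 := 536870912) (P2 := 1610612736) (W2 := 536870912) (P3 := 649613803) (W3 := 48318383) (N0 := 3) (En := eng) (mo := mog) (C1 := cd1q0) (C2 := cd3q3) (C3 := pd3)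
    rfl k0_mm_033

noncomputable def f_mm_101 : ℕ → ℕ → ℕ → ℕ → Bool := onCell 536870912 536870912 0 536870912 649613803 48318383
    (rowB 3 eng mog cd1q1 cd3q0 pd1 0 true false false .npn 1 0 1 (qsf 536870912 536870912 0 536870912 1) ndB1q1 ndB3q0 pcB1 Cut.none Ext.none)

def k0_mm_101 : ∃ t, chk3 f_mm_101 t 1 1 1 = true :=
  ⟨(a (l 4) (l 4)), by decide +kernel⟩

theorem c_mm_101 : CertB 536870912 536870912 0 536870912 649613803 48318383 3 eng mog cd1q1 cd3q0 pd1 true false false .npn 1 0 1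
    ndB1q1 ndB3q0 pcB1 Cut.none Ext.none :=
  certB0 (fam := true) (s1 := false) (s2 := false) (a := 1) (b := 0) (c := 1) (cn := .npn) (n1 := ndB1q1) (n2 := ndB3q0) (pc := pcB1) (cut := Cut.none) (xt := Ext.none) (P1 := 536870912) (W1 := 536870912) (P2 := 0) (W2 := 536870912) (P3 := 649613803) (W3 := 48318383) (N0 := 3) (En := eng) (mo := mog) (C1 := cd1q1) (C2 := cd3q0) (C3 := pd1)
    rfl k0_mm_101

noncomputable def f_mm_102 : ℕ → ℕ → ℕ → ℕ → Bool := onCell 536870912 536870912 0 536870912 649613803 48318383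
    (rowB 3 eng mog cd1q1 cd3q0 pd2 0 true false false .npp 1 0 2 (qsf 536870912 536870912 0 536870912 2) ndB1q1 ndB3q0 pcB2 Cut.none Ext.none)

def k0_mm_102 : ∃ t, chk3 f_mm_102 t 1 1 1 = true :=
  ⟨(b (l 4) (l 4)), by decide +kernel⟩

theorem c_mm_102 : CertB 536870912 536870912 0 536870912 649613803 48318383 3 eng mog cd1q1 cd3q0 pd2 true false false .npp 1 0 2
    ndB1q1 ndB3q0 pcB2 Cut.none Ext.none :=
  certB0 (fam := true) (s1 := false) (s2 := false) (a := 1) (b := 0) (c := 2) (cn := .npp) (n1 := ndB1q1) (n2 := ndB3q0) (pc := pcB2) (cut := Cut.none) (xt := Ext.none) (P1 := 536870912) (W1 := 536870912) (P2 := 0) (W2 := 536870912) (P3 := 649613803) (W3 := 48318383) (N0 := 3) (En := eng) (mo := mog) (C1 := cd1q1) (C2 := cd3q0) (C3 := pd2)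
    rfl k0_mm_102

noncomputable def f_mm_112 : ℕ → ℕ → ℕ → ℕ → Bool := onCell 536870912 536870912 536870912 536870912 649613803 48318383
    (rowB 3 eng mog cd1q1 cd3q1 pd2 0 true false false .dn 1 1 2 (qsf 536870912 536870912 536870912 536870912 2) ndB1q1 ndB3q1 pcB2 Cut.none Ext.none)

def k0_mm_112 : ∃ t, chk3 f_mm_112 t 1 1 1 = true :=
  ⟨(l 4), by decide +kernel⟩

theorem c_mm_112 : CertB 536870912 536870912 536870912 536870912 649613803 48318383 3 eng mog cd1q1 cd3q1 pd2 true false false .dn 1 1 2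
    ndB1q1 ndB3q1 pcB2 Cut.none Ext.none :=
  certB0 (fam := true) (s1 := false) (s2 := false) (a := 1) (b := 1) (c := 2) (cn := .dn) (n1 := ndB1q1) (n2 := ndB3q1) (pc := pcB2) (cut := Cut.none) (xt := Ext.none) (P1 := 536870912) (W1 := 536870912) (P2 := 536870912) (W2 := 536870912) (P3 := 649613803) (W3 := 48318383) (N0 := 3) (En := eng) (mo := mog) (C1 := cd1q1) (C2 := cd3q1) (C3 := pd2)
    rfl k0_mm_112

noncomputable def f_mm_113 : ℕ → ℕ → ℕ → ℕ → Bool := onCell 536870912 536870912 536870912 536870912 649613803 48318383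
    (rowB 3 eng mog cd1q1 cd3q1 pd3 0 true false false .nn 1 1 3 (qsf 536870912 536870912 536870912 536870912 3) ndB1q1 ndB3q1 pcB3 Cut.none Ext.none)

def k0_mm_113 : ∃ t, chk3 f_mm_113 t 1 1 1 = true :=
  ⟨(l 4), by decide +kernel⟩

theorem c_mm_113 : CertB 536870912 536870912 536870912 536870912 649613803 48318383 3 eng mog cd1q1 cd3q1 pd3 true false false .nn 1 1 3
    ndB1q1 ndB3q1 pcB3 Cut.none Ext.none :=
  certB0 (fam := true) (s1 := false) (s2 := false) (a := 1) (b := 1) (c := 3) (cn := .nn) (n1 := ndB1q1) (n2 := ndB3q1) (pc := pcB3) (cut := Cut.none) (xt := Ext.none) (P1 := 536870912) (W1 := 536870912) (P2 := 536870912) (W2 := 536870912) (P3 := 649613803) (W3 := 48318383) (N0 := 3) (En := eng) (mo := mog) (C1 := cd1q1) (C2 := cd3q1) (C3 := pd3)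
    rfl k0_mm_113

noncomputable def f_mm_123_a : ℕ → ℕ → ℕ → ℕ → Bool := onCell 536870912 536870912 0 536870912 649613803 48318383
    (rowB 3 eng mog cd1q1 cd3q2a pd3 0 true false false .npn 1 2 3 (qsf 536870912 536870912 0 536870912 3) ndB1q1 ndB3q2a pcB3 Cut.none Ext.none)

def k0_mm_123_a : ∃ t, chk3 f_mm_123_a t 1 1 1 = true :=
  ⟨(l 4), by decide +kernel⟩

theorem c_mm_123_a : CertB 536870912 536870912 0 536870912 649613803 48318383 3 eng mog cd1q1 cd3q2a pd3 true false false .npn 1 2 3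
    ndB1q1 ndB3q2a pcB3 Cut.none Ext.none :=
  certB0 (fam := true) (s1 := false) (s2 := false) (a := 1) (b := 2) (c := 3) (cn := .npn) (n1 := ndB1q1) (n2 := ndB3q2a) (pc := pcB3) (cut := Cut.none) (xt := Ext.none) (P1 := 536870912) (W1 := 536870912) (P2 := 0) (W2 := 536870912) (P3 := 649613803) (W3 := 48318383) (N0 := 3) (En := eng) (mo := mog) (C1 := cd1q1) (C2 := cd3q2a) (C3 := pd3)
    rfl k0_mm_123_a

noncomputable def f_mm_123_b : ℕ → ℕ → ℕ → ℕ → Bool := onCell 536870912 536870912 1239849684 370763052 649613803 48318383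
    (rowB 3 eng mog cd1q1 cd3q2b pd3 0 true false false .npn 1 2 3 (qsf 536870912 536870912 1239849684 370763052 3) ndB1q1 ndB3q2b pcB3 Cut.none Ext.none)

def k0_mm_123_b : ∃ t, chk3 f_mm_123_b t 1 1 1 = true :=
  ⟨(l 4), by decide +kernel⟩

theorem c_mm_123_b : CertB 536870912 536870912 1239849684 370763052 649613803 48318383 3 eng mog cd1q1 cd3q2b pd3 true false false .npn 1 2 3
    ndB1q1 ndB3q2b pcB3 Cut.none Ext.none :=
  certB0 (fam := true) (s1 := false) (s2 := false) (a := 1) (b := 2) (c := 3) (cn := .npn) (n1 := ndB1q1) (n2 := ndB3q2b) (pc := pcB3) (cut := Cut.none) (xt := Ext.none) (P1 := 536870912) (W1 := 536870912) (P2 := 1239849684) (W2 := 370763052) (P3 := 649613803) (W3 := 48318383) (N0 := 3) (En := eng) (mo := mog) (C1 := cd1q1) (C2 := cd3q2b) (C3 := pd3)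
    rfl k0_mm_123_b

noncomputable def f_mm_133 : ℕ → ℕ → ℕ → ℕ → Bool := onCell 536870912 536870912 1610612736 536870912 649613803 48318383
    (rowB 3 eng mog cd1q1 cd3q3 pd3 0 true false false .dn 1 3 3 (qsf 536870912 536870912 1610612736 536870912 3) ndB1q1 ndB3q3 pcB3 Cut.none Ext.none)

def k0_mm_133 : ∃ t, chk3 f_mm_133 t 1 1 1 = true :=
  ⟨(l 4), by decide +kernel⟩

theorem c_mm_133 : CertB 536870912 536870912 1610612736 536870912 649613803 48318383 3 eng mog cd1q1 cd3q3 pd3 true false false .dn 1 3 3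
    ndB1q1 ndB3q3 pcB3 Cut.none Ext.none :=
  certB0 (fam := true) (s1 := false) (s2 := false) (a := 1) (b := 3) (c := 3) (cn := .dn) (n1 := ndB1q1) (n2 := ndB3q3) (pc := pcB3) (cut := Cut.none) (xt := Ext.none) (P1 := 536870912) (W1 := 536870912) (P2 := 1610612736) (W2 := 536870912) (P3 := 649613803) (W3 := 48318383) (N0 := 3) (En := eng) (mo := mog) (C1 := cd1q1) (C2 := cd3q3) (C3 := pd3)
    rfl k0_mm_133

noncomputable def cut_mm_202_a : Cut := Cut.of [[⟨0, 1, 0, 67108864⟩, ⟨1, 0, 0, 67108864⟩, ⟨2, 1, 0, 67108864⟩]]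

noncomputable def f_mm_202_a : ℕ → ℕ → ℕ → ℕ → Bool := onCell 0 536870912 0 536870912 649613803 48318383
    (rowB 3 eng mog cd1q2a cd3q0 pd2 0 true false false .pp 2 0 2 (qsf 0 536870912 0 536870912 2) ndB1q2a ndB3q0 pcB2 cut_mm_202_a Ext.none)

def k0_mm_202_a : ∃ t, chk3 f_mm_202_a t 2 2 1 = true :=
  ⟨(b (b (a (b (b (a (a (c (l 16442520) (l 16442752)) (l 16445408)) (c (a (l 16451512) (l 16459064)) (l 16455056))) (a (c (l 16472208) (l 16512472)) (a (b (l 16453424) (l 16458944)) (b (l 16460576) (l 16465136))))) (a (l 16466192) (b (a (l 16467736) (l 16474288)) (l 16482456)))) (b (a (b (a (b (a (l 16464328) (l 16469304)) (l 16489048)) (b (a (l 16475584) (l 16482512)) (l 16480584))) (a (b (l 16469968) (l 16473320)) (b (l 16482696) (l 16485424)))) (b (a (a (b (l 16490128) (l 16491840)) (b (l 16499032) (l 16500888))) (b (a (l 16509048) (c (l 16520072) (l 16520136))) (a (l 16511032) (l 16522000)))) (a (b (l 16498768) (l 16501704)) (b (l 16540152) (l 16522384)))))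 (a (a (l 16551208) (b (l 16493088) (l 16505552))) (b (b (a (l 16505312) (l 16526120)) (a (l 16510496) (l 16530464))) (a (l 16520144) (b (l 16536056) (l 16542584))))))) (a (a (b (l 16485312) (l 16524448)) (b (l 16498544) (l 16519304))) (a (b (a (l 16511608) (l 16523792)) (l 16541328)) (a (b (l 16539216) (l 16564472)) (b (l 16580080) (l 16585440)))))) (b (a (b (a (l 16525560) (l 16543976)) (a (l 16551736) (l 16572312))) (a (b (l 16568080) (l 16598008)) (b (l 16771520) (l 16635360)))) (a (b (a (l 16578096) (l 16601528)) (a (l 16605664) (l 16631120))) (a (b (l 16628744) (l 16658640)) (l 4))))), by decide +kernel⟩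

def k1_mm_202_a : ∃ t, chk3 f_mm_202_a t 3 4 1 = true :=
  ⟨(a (b (a (b (b (a (b (a (c (l 16531608) (l 16532128)) (l 16544456)) (a (l 16533912) (l 16546808))) (b (a (l 16537216) (c (l 16570192) (l 16567928))) (a (l 16560640) (l 16575160)))) (a (a (b (l 16536744) (l 16540144)) (l 16540960)) (a (l 16565440) (l 16580096)))) (a (b (a (l 16546208) (l 16559520)) (b (l 16560152) (l 16566040))) (b (l 16581176) (b (l 16588768) (l 16594368))))) (b (b (a (b (b (a (l 16577008) (l 16587704)) (l 16587576)) (a (l 16589312) (l 16600640))) (b (a (b (l 16599192) (l 16604720)) (b (l 16612752) (l 16618488))) (a (l 16612752) (l 16626816)))) (a (b (l 16601160) (l 16605000)) (b (l 16630224) (l 16637288)))) (b (a (l 16611760) (l 16644248)) (a (l 16622488) (l 16655280))))) (a (b (b (a (l 16576088) (l 16603976)) (a (l 16589704) (l 16617816))) (a (l 16652208) (l 16639720))) (a (b (b (l 16634920) (l 16649112)) (l 16672704)) (b (b (l 16668680) (l 16726232)) (l 4))))) (b (a (b (b (a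 (a (b (b (l 16627216) (l 16633152)) (l 16641776)) (b (b (a (l 16638528) (l 16646544)) (l 16648688)) (c (l 16616912) (l 16614344)))) (a (b (b (l 6) (l 16687040)) (b (l 16693200) (l 16657264))) (b (l 6) (b (l 6) (l 16697216))))) (b (a (a (l 16652760) (l 16669000)) (a (l 16686976) (l 16706192))) (a (l 16669832) (a (l 16694656) (l 16711392))))) (b (a (a (l 16668384) (l 16685248)) (b (a (l 16699192) (l 16717000)) (l 16754408))) (a (a (l 16679912) (l 16698152)) (b (l 16744016) (l 4))))) (b (a (b (l 6) (a (b (l 6) (l 16750936)) (l 6))) (l 6)) (l 4))) (a (b (a (b (l 16704776) (l 4)) (l 4)) (l 4)) (l 4)))), by decide +kernel⟩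

def k2_mm_202_a : ∃ t, chk3 f_mm_202_a t 3 5 1 = true :=
  ⟨(a (b (a (b (a (l 16682776) (l 4)) (l 4)) (l 4)) (l 4)) (l 4)), by decide +kernel⟩

def k3_mm_202_a : ∃ t, chk3 f_mm_202_a t 1 3 1 = true :=
  ⟨(a (a (b (b (b (a (l 16636616) (l 16661200)) (a (l 16667896) (l 4))) (b (a (l 16698728) (l 4)) (l 4))) (l 2)) (l 4)) (l 4)), by decide +kernel⟩

theorem s4_mm_202_a : ∃ t, chk3 f_mm_202_a t 3 2 1 = true := ex3_b k1_mm_202_a k2_mm_202_a

theorem s5_mm_202_a : ∃ t, chk3 f_mm_202_a t 1 2 1 = true := ex3_a k0_mm_202_a s4_mm_202_a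

theorem s6_mm_202_a : ∃ t, chk3 f_mm_202_a t 1 1 1 = true := ex3_b s5_mm_202_a k3_mm_202_a

theorem c_mm_202_a : CertB 0 536870912 0 536870912 649613803 48318383 3 eng mog cd1q2a cd3q0 pd2 true false false .pp 2 0 2
    ndB1q2a ndB3q0 pcB2 cut_mm_202_a Ext.none :=
  certB0 (fam := true) (s1 := false) (s2 := false) (a := 2) (b := 0) (c := 2) (cn := .pp) (n1 := ndB1q2a) (n2 := ndB3q0) (pc := pcB2) (cut := cut_mm_202_a) (xt := Ext.none) (P1 := 0) (W1 := 536870912) (P2 := 0) (W2 := 536870912) (P3 := 649613803) (W3 := 48318383) (N0 := 3) (En := eng) (mo := mog) (C1 := cd1q2a) (C2 := cd3q0) (C3 := pd2)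
    rfl s6_mm_202_a

noncomputable def cut_mm_202_b : Cut := Cut.of [[⟨0, 1, 0, 67108864⟩, ⟨1, 0, 0, 67108864⟩, ⟨2, 1, 0, 67108864⟩]]

noncomputable def f_mm_202_b : ℕ → ℕ → ℕ → ℕ → Bool := onCell 1073741824 536870912 0 536870912 649613803 48318383
    (rowB 3 eng mog cd1q2b cd3q0 pd2 2 true false false .pp 2 0 2 (qsf 1239849684 370763052 0 536870912 2) ndB1q2b ndB3q0 pcB2 cut_mm_202_b Ext.none)

def k0_mm_202_b : ∃ t, chk3 f_mm_202_b t 1 1 1 = true :=
  ⟨(a (b (a (l 1) (b (a (b (a (a (l 1) (a (l 1) (b (l 115997040471) (l 1)))) (a (b (c (b (l 16438056) (l 16472400)) (l 16433664)) (l 1)) (b (b (l 16388640) (l 16410304)) (l 287258722647)))) (l 1)) (a (b (b (a (l 16402008) (l 16373784)) (a (l 16440848) (l 16447080))) (b (l 381748177575) (l 1))) (b (b (l 16323096) (l 16403152)) (b (l 16477960) (l 249678011415))))) (l 1))) (l 1)) (a (b (b (a (b (b (a (l 16262488) (l 16209016)) (l 16312944)) (b (l 16452920) (a (l 16494504) (l 16437048)))) (b (a (b (l 16162032)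 (l 16236680)) (b (l 16124944) (l 16197248))) (a (b (l 16311728) (l 16385592)) (l 16306824)))) (a (b (a (b (l 262026089655) (l 1)) (b (l 16546760) (l 280279865623))) (l 1)) (b (a (b (l 16459344) (l 132103388311)) (l 16452528)) (a (b (l 352757464471) (l 1)) (b (l 16564944) (l 385506597367)))))) (l 1)) (b (b (a (b (a (l 16132816) (l 16110992)) (a (l 16272288) (l 16244256))) (b (l 16257664) (l 16211640))) (a (b (l 16461944) (a (l 16547720) (l 16513904))) (a (l 16612416) (l 16502808)))) (b (a (b (a (l 389264614279) (l 186327538119)) (l 1)) (a (b (l 16612320) (l 437583020519)) (b (l 16566552) (l 282427369831)))) (l 1))))), by decide +kernel⟩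

theorem c_mm_202_b : CertB 1239849684 370763052 0 536870912 649613803 48318383 3 eng mog cd1q2b cd3q0 pd2 true false false .pp 2 0 2
    ndB1q2b ndB3q0 pcB2 cut_mm_202_b Ext.none :=
  certB2 (fam := true) (s1 := false) (s2 := false) (a := 2) (b := 0) (c := 2) (cn := .pp) (n1 := ndB1q2b) (n2 := ndB3q0) (pc := pcB2) (cut := cut_mm_202_b) (xt := Ext.none) (P1 := 1239849684) (W1 := 370763052) (P2 := 0) (W2 := 536870912) (P3 := 649613803) (W3 := 48318383) (N0 := 3) (En := eng) (mo := mog) (C1 := cd1q2b) (C2 := cd3q0) (C3 := pd2)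
    rfl (fun _ => rfl) k0_mm_202_b

noncomputable def f_mm_203_a : ℕ → ℕ → ℕ → ℕ → Bool := onCell 0 536870912 1610612736 536870912 649613803 48318383
    (rowB 3 eng mog cd1q2a cd3q0 pd3 1 true false false .up 2 0 3 (qsf 0 536870912 0 536870912 3) ndB1q2a ndB3q0 pcB3 Cut.none Ext.none)

def k0_mm_203_a : ∃ t, chk3 f_mm_203_a t 1 1 1 = true :=
  ⟨(a (b (l 4) (l 2)) (l 4)), by decide +kernel⟩

theorem c_mm_203_a : CertB 0 536870912 0 536870912 649613803 48318383 3 eng mog cd1q2a cd3q0 pd3 true false false .up 2 0 3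
    ndB1q2a ndB3q0 pcB3 Cut.none Ext.none :=
  certB1 (fam := true) (s1 := false) (s2 := false) (a := 2) (b := 0) (c := 3) (cn := .up) (n1 := ndB1q2a) (n2 := ndB3q0) (pc := pcB3) (cut := Cut.none) (xt := Ext.none) (P1 := 0) (W1 := 536870912) (P2 := 0) (W2 := 536870912) (P3 := 649613803) (W3 := 48318383) (N0 := 3) (En := eng) (mo := mog) (C1 := cd1q2a) (C2 := cd3q0) (C3 := pd3)
    rfl (fun _ => rfl) k0_mm_203_a

noncomputable def f_mm_203_b : ℕ → ℕ → ℕ → ℕ → Bool := onCell 1610612736 536870912 0 536870912 649613803 48318383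
    (rowB 3 eng mog cd1q2b cd3q0 pd3 2 true false false .up 2 0 3 (qsf 1239849684 370763052 0 536870912 3) ndB1q2b ndB3q0 pcB3 Cut.none Ext.none)

def k0_mm_203_b : ∃ t, chk3 f_mm_203_b t 1 1 1 = true :=
  ⟨(a (b (a (b (a (a (l 16123264) (l 16104704)) (a (l 16095080) (l 16095928))) (a (a (l 16375264) (l 16358176)) (l 4))) (l 4)) (l 4)) (l 4)), by decide +kernel⟩

theorem c_mm_203_b : CertB 1239849684 370763052 0 536870912 649613803 48318383 3 eng mog cd1q2b cd3q0 pd3 true false false .up 2 0 3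
    ndB1q2b ndB3q0 pcB3 Cut.none Ext.none :=
  certB2 (fam := true) (s1 := false) (s2 := false) (a := 2) (b := 0) (c := 3) (cn := .up) (n1 := ndB1q2b) (n2 := ndB3q0) (pc := pcB3) (cut := Cut.none) (xt := Ext.none) (P1 := 1239849684) (W1 := 370763052) (P2 := 0) (W2 := 536870912) (P3 := 649613803) (W3 := 48318383) (N0 := 3) (En := eng) (mo := mog) (C1 := cd1q2b) (C2 := cd3q0) (C3 := pd3)
    rfl (fun _ => rfl) k0_mm_203_b

noncomputable def f_mm_213_a : ℕ → ℕ → ℕ → ℕ → Bool := onCell 0 536870912 536870912 536870912 649613803 48318383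
    (rowB 3 eng mog cd1q2a cd3q1 pd3 0 true false false .pnn 2 1 3 (qsf 0 536870912 536870912 536870912 3) ndB1q2a ndB3q1 pcB3 Cut.none Ext.none)

def k0_mm_213_a : ∃ t, chk3 f_mm_213_a t 1 1 1 = true :=
  ⟨(l 4), by decide +kernel⟩

theorem c_mm_213_a : CertB 0 536870912 536870912 536870912 649613803 48318383 3 eng mog cd1q2a cd3q1 pd3 true false false .pnn 2 1 3
    ndB1q2a ndB3q1 pcB3 Cut.none Ext.none :=
  certB0 (fam := true) (s1 := false) (s2 := false) (a := 2) (b := 1) (c := 3) (cn := .pnn) (n1 := ndB1q2a) (n2 := ndB3q1) (pc := pcB3) (cut := Cut.none) (xt := Ext.none) (P1 := 0) (W1 := 536870912) (P2 := 536870912) (W2 := 536870912) (P3 := 649613803) (W3 := 48318383) (N0 := 3) (En := eng) (mo := mog) (C1 := cd1q2a) (C2 := cd3q1) (C3 := pd3)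
    rfl k0_mm_213_a

noncomputable def f_mm_213_b : ℕ → ℕ → ℕ → ℕ → Bool := onCell 1239849684 370763052 536870912 536870912 649613803 48318383
    (rowB 3 eng mog cd1q2b cd3q1 pd3 0 true false false .pnn 2 1 3 (qsf 1239849684 370763052 536870912 536870912 3) ndB1q2b ndB3q1 pcB3 Cut.none Ext.none)

def k0_mm_213_b : ∃ t, chk3 f_mm_213_b t 1 1 1 = true :=
  ⟨(l 4), by decide +kernel⟩

theorem c_mm_213_b : CertB 1239849684 370763052 536870912 536870912 649613803 48318383 3 eng mog cd1q2b cd3q1 pd3 true false false .pnn 2 1 3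
    ndB1q2b ndB3q1 pcB3 Cut.none Ext.none :=
  certB0 (fam := true) (s1 := false) (s2 := false) (a := 2) (b := 1) (c := 3) (cn := .pnn) (n1 := ndB1q2b) (n2 := ndB3q1) (pc := pcB3) (cut := Cut.none) (xt := Ext.none) (P1 := 1239849684) (W1 := 370763052) (P2 := 536870912) (W2 := 536870912) (P3 := 649613803) (W3 := 48318383) (N0 := 3) (En := eng) (mo := mog) (C1 := cd1q2b) (C2 := cd3q1) (C3 := pd3)
    rfl k0_mm_213_b

noncomputable def f_mm_303 : ℕ → ℕ → ℕ → ℕ → Bool := onCell 1610612736 536870912 0 536870912 649613803 48318383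
    (rowB 3 eng mog cd1q3 cd3q0 pd3 2 true false false .npn 3 0 3 (qsf 1610612736 536870912 0 536870912 3) ndB1q3 ndB3q0 pcB3 Cut.none Ext.none)

def k0_mm_303 : ∃ t, chk3 f_mm_303 t 1 1 1 = true :=
  ⟨(a (b (a (a (b (a (l 16135016) (l 16120848)) (l 1)) (b (a (l 16116008) (l 16121984)) (l 4))) (l 4)) (l 4)) (l 4)), by decide +kernel⟩

theorem c_mm_303 : CertB 1610612736 536870912 0 536870912 649613803 48318383 3 eng mog cd1q3 cd3q0 pd3 true false false .npn 3 0 3
    ndB1q3 ndB3q0 pcB3 Cut.none Ext.none :=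
  certB2 (fam := true) (s1 := false) (s2 := false) (a := 3) (b := 0) (c := 3) (cn := .npn) (n1 := ndB1q3) (n2 := ndB3q0) (pc := pcB3) (cut := Cut.none) (xt := Ext.none) (P1 := 1610612736) (W1 := 536870912) (P2 := 0) (W2 := 536870912) (P3 := 649613803) (W3 := 48318383) (N0 := 3) (En := eng) (mo := mog) (C1 := cd1q3) (C2 := cd3q0) (C3 := pd3)
    rfl (fun _ => rfl) k0_mm_303

noncomputable def f_mm_313 : ℕ → ℕ → ℕ → ℕ → Bool := onCell 1610612736 536870912 536870912 536870912 649613803 48318383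
    (rowB 3 eng mog cd1q3 cd3q1 pd3 0 true false false .dn 3 1 3 (qsf 1610612736 536870912 536870912 536870912 3) ndB1q3 ndB3q1 pcB3 Cut.none Ext.none)

def k0_mm_313 : ∃ t, chk3 f_mm_313 t 1 1 1 = true :=
  ⟨(l 4), by decide +kernel⟩

theorem c_mm_313 : CertB 1610612736 536870912 536870912 536870912 649613803 48318383 3 eng mog cd1q3 cd3q1 pd3 true false false .dn 3 1 3
    ndB1q3 ndB3q1 pcB3 Cut.none Ext.none :=
  certB0 (fam := true) (s1 := false) (s2 := false) (a := 3) (b := 1) (c := 3) (cn := .dn) (n1 := ndB1q3) (n2 := ndB3q1) (pc := pcB3) (cut := Cut.none) (xt := Ext.none) (P1 := 1610612736) (W1 := 536870912) (P2 := 536870912) (W2 := 536870912) (P3 := 649613803) (W3 := 48318383) (N0 := 3) (En := eng) (mo := mog) (C1 := cd1q3) (C2 := cd3q1) (C3 := pd3)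
    rfl k0_mm_313

end Pool.Agent.Strip051.G.I6050_6500.Tab.C.BA13

namespace Pool.Agent.Strip051.G.I6050_6500.Tab.C.BA14

open Pool.Agent.Strip051.PB Pool.Agent.Strip051.PB.T
open Pool.Agent.Strip051.G.I6050_6500.Tab

noncomputable def f_pp_001 : ℕ → ℕ → ℕ → ℕ → Bool := onCell 0 536870912 0 536870912 649613803 48318383
    (rowB 3 eng mog cd1q0 cd4q0 pd1 0 true true true .up 0 0 1 (qsf 0 536870912 0 536870912 1) ndB1q0 ndB4q0 pcB1 Cut.none Ext.none)

def k0_pp_001 : ∃ t, chk3 f_pp_001 t 1 1 1 = true :=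
  ⟨(l 4), by decide +kernel⟩

theorem c_pp_001 : CertB 0 536870912 0 536870912 649613803 48318383 3 eng mog cd1q0 cd4q0 pd1 true true true .up 0 0 1
    ndB1q0 ndB4q0 pcB1 Cut.none Ext.none :=
  certB0 (fam := true) (s1 := true) (s2 := true) (a := 0) (b := 0) (c := 1) (cn := .up) (n1 := ndB1q0) (n2 := ndB4q0) (pc := pcB1) (cut := Cut.none) (xt := Ext.none) (P1 := 0) (W1 := 536870912) (P2 := 0) (W2 := 536870912) (P3 := 649613803) (W3 := 48318383) (N0 := 3) (En := eng) (mo := mog) (C1 := cd1q0) (C2 := cd4q0) (C3 := pd1)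
    rfl k0_pp_001

noncomputable def f_pp_011 : ℕ → ℕ → ℕ → ℕ → Bool := onCell 0 536870912 536870912 536870912 649613803 48318383
    (rowB 3 eng mog cd1q0 cd4q1 pd1 0 true true true .pnn 0 1 1 (qsf 0 536870912 536870912 536870912 1) ndB1q0 ndB4q1 pcB1 Cut.none Ext.none)

def k0_pp_011 : ∃ t, chk3 f_pp_011 t 1 1 1 = true :=
  ⟨(l 4), by decide +kernel⟩

theorem c_pp_011 : CertB 0 536870912 536870912 536870912 649613803 48318383 3 eng mog cd1q0 cd4q1 pd1 true true true .pnn 0 1 1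
    ndB1q0 ndB4q1 pcB1 Cut.none Ext.none :=
  certB0 (fam := true) (s1 := true) (s2 := true) (a := 0) (b := 1) (c := 1) (cn := .pnn) (n1 := ndB1q0) (n2 := ndB4q1) (pc := pcB1) (cut := Cut.none) (xt := Ext.none) (P1 := 0) (W1 := 536870912) (P2 := 536870912) (W2 := 536870912) (P3 := 649613803) (W3 := 48318383) (N0 := 3) (En := eng) (mo := mog) (C1 := cd1q0) (C2 := cd4q1) (C3 := pd1)
    rfl k0_pp_011

noncomputable def f_pp_012 : ℕ → ℕ → ℕ → ℕ → Bool := onCell 0 536870912 536870912 536870912 649613803 48318383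
    (rowB 3 eng mog cd1q0 cd4q1 pd2 0 true true true .pnp 0 1 2 (qsf 0 536870912 536870912 536870912 2) ndB1q0 ndB4q1 pcB2 Cut.none Ext.none)

def k0_pp_012 : ∃ t, chk3 f_pp_012 t 1 1 1 = true :=
  ⟨(l 4), by decide +kernel⟩

theorem c_pp_012 : CertB 0 536870912 536870912 536870912 649613803 48318383 3 eng mog cd1q0 cd4q1 pd2 true true true .pnp 0 1 2
    ndB1q0 ndB4q1 pcB2 Cut.none Ext.none :=
  certB0 (fam := true) (s1 := true) (s2 := true) (a := 0) (b := 1) (c := 2) (cn := .pnp) (n1 := ndB1q0) (n2 := ndB4q1) (pc := pcB2) (cut := Cut.none) (xt := Ext.none) (P1 := 0) (W1 := 536870912) (P2 := 536870912) (W2 := 536870912) (P3 := 649613803) (W3 := 48318383) (N0 := 3) (En := eng) (mo := mog) (C1 := cd1q0) (C2 := cd4q1) (C3 := pd2)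
    rfl k0_pp_012

noncomputable def cut_pp_022_a : Cut := Cut.of [[⟨0, 0, 0, 67108864⟩, ⟨1, 1, 0, 67108864⟩, ⟨2, 1, 0, 67108864⟩]]

noncomputable def f_pp_022_a : ℕ → ℕ → ℕ → ℕ → Bool := onCell 0 536870912 0 536870912 649613803 48318383
    (rowB 3 eng mog cd1q0 cd4q2a pd2 0 true true true .pp 0 2 2 (qsf 0 536870912 0 536870912 2) ndB1q0 ndB4q2a pcB2 cut_pp_022_a Ext.none)

def k0_pp_022_a : ∃ t, chk3 f_pp_022_a t 1 1 1 = true :=
  ⟨(a (a (a (b (b (l 4) (l 4)) (b (l 4) (b (l 4) (a (b (l 4) (l 6)) (l 4))))) (l 4)) (l 4)) (l 4)), by decide +kernel⟩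

theorem c_pp_022_a : CertB 0 536870912 0 536870912 649613803 48318383 3 eng mog cd1q0 cd4q2a pd2 true true true .pp 0 2 2
    ndB1q0 ndB4q2a pcB2 cut_pp_022_a Ext.none :=
  certB0 (fam := true) (s1 := true) (s2 := true) (a := 0) (b := 2) (c := 2) (cn := .pp) (n1 := ndB1q0) (n2 := ndB4q2a) (pc := pcB2) (cut := cut_pp_022_a) (xt := Ext.none) (P1 := 0) (W1 := 536870912) (P2 := 0) (W2 := 536870912) (P3 := 649613803) (W3 := 48318383) (N0 := 3) (En := eng) (mo := mog) (C1 := cd1q0) (C2 := cd4q2a) (C3 := pd2)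
    rfl k0_pp_022_a

noncomputable def cut_pp_022_b : Cut := Cut.of [[⟨0, 0, 0, 67108864⟩, ⟨1, 1, 0, 67108864⟩, ⟨2, 1, 0, 67108864⟩]]

noncomputable def f_pp_022_b : ℕ → ℕ → ℕ → ℕ → Bool := onCell 0 536870912 1239849684 370763052 649613803 48318383
    (rowB 3 eng mog cd1q0 cd4q2b pd2 0 true true true .pp 0 2 2 (qsf 0 536870912 1239849684 370763052 2) ndB1q0 ndB4q2b pcB2 cut_pp_022_b Ext.none)

def k0_pp_022_b : ∃ t, chk3 f_pp_022_b t 1 1 1 = true :=
  ⟨(a (b (a (b (a (l 4) (l 4)) (l 4)) (l 4)) (l 4)) (l 4)), by decide +kernel⟩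

theorem c_pp_022_b : CertB 0 536870912 1239849684 370763052 649613803 48318383 3 eng mog cd1q0 cd4q2b pd2 true true true .pp 0 2 2
    ndB1q0 ndB4q2b pcB2 cut_pp_022_b Ext.none :=
  certB0 (fam := true) (s1 := true) (s2 := true) (a := 0) (b := 2) (c := 2) (cn := .pp) (n1 := ndB1q0) (n2 := ndB4q2b) (pc := pcB2) (cut := cut_pp_022_b) (xt := Ext.none) (P1 := 0) (W1 := 536870912) (P2 := 1239849684) (W2 := 370763052) (P3 := 649613803) (W3 := 48318383) (N0 := 3) (En := eng) (mo := mog) (C1 := cd1q0) (C2 := cd4q2b) (C3 := pd2)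
    rfl k0_pp_022_b

noncomputable def f_pp_023_a : ℕ → ℕ → ℕ → ℕ → Bool := onCell 1610612736 536870912 0 536870912 649613803 48318383
    (rowB 3 eng mog cd1q0 cd4q2a pd3 2 true true true .up 0 2 3 (qsf 0 536870912 0 536870912 3) ndB1q0 ndB4q2a pcB3 Cut.none Ext.none)

def k0_pp_023_a : ∃ t, chk3 f_pp_023_a t 1 1 1 = true :=
  ⟨(l 4), by decide +kernel⟩

theorem c_pp_023_a : CertB 0 536870912 0 536870912 649613803 48318383 3 eng mog cd1q0 cd4q2a pd3 true true true .up 0 2 3
    ndB1q0 ndB4q2a pcB3 Cut.none Ext.none :=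
  certB2 (fam := true) (s1 := true) (s2 := true) (a := 0) (b := 2) (c := 3) (cn := .up) (n1 := ndB1q0) (n2 := ndB4q2a) (pc := pcB3) (cut := Cut.none) (xt := Ext.none) (P1 := 0) (W1 := 536870912) (P2 := 0) (W2 := 536870912) (P3 := 649613803) (W3 := 48318383) (N0 := 3) (En := eng) (mo := mog) (C1 := cd1q0) (C2 := cd4q2a) (C3 := pd3)
    rfl (fun _ => rfl) k0_pp_023_a

noncomputable def f_pp_023_b : ℕ → ℕ → ℕ → ℕ → Bool := onCell 1610612736 536870912 1239849684 370763052 649613803 48318383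
    (rowB 3 eng mog cd1q0 cd4q2b pd3 2 true true true .up 0 2 3 (qsf 0 536870912 1239849684 370763052 3) ndB1q0 ndB4q2b pcB3 Cut.none Ext.none)

def k0_pp_023_b : ∃ t, chk3 f_pp_023_b t 1 1 1 = true :=
  ⟨(l 4), by decide +kernel⟩

theorem c_pp_023_b : CertB 0 536870912 1239849684 370763052 649613803 48318383 3 eng mog cd1q0 cd4q2b pd3 true true true .up 0 2 3
    ndB1q0 ndB4q2b pcB3 Cut.none Ext.none :=
  certB2 (fam := true) (s1 := true) (s2 := true) (a := 0) (b := 2) (c := 3) (cn := .up) (n1 := ndB1q0) (n2 := ndB4q2b) (pc := pcB3) (cut := Cut.none) (xt := Ext.none) (P1 := 0) (W1 := 536870912) (P2 := 1239849684) (W2 := 370763052) (P3 := 649613803) (W3 := 48318383) (N0 := 3) (En := eng) (mo := mog) (C1 := cd1q0) (C2 := cd4q2b) (C3 := pd3)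
    rfl (fun _ => rfl) k0_pp_023_b

noncomputable def f_pp_033 : ℕ → ℕ → ℕ → ℕ → Bool := onCell 0 536870912 1610612736 536870912 649613803 48318383
    (rowB 3 eng mog cd1q0 cd4q3 pd3 0 true true true .pnn 0 3 3 (qsf 0 536870912 1610612736 536870912 3) ndB1q0 ndB4q3 pcB3 Cut.none Ext.none)

def k0_pp_033 : ∃ t, chk3 f_pp_033 t 1 1 1 = true :=
  ⟨(l 4), by decide +kernel⟩

theorem c_pp_033 : CertB 0 536870912 1610612736 536870912 649613803 48318383 3 eng mog cd1q0 cd4q3 pd3 true true true .pnn 0 3 3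
    ndB1q0 ndB4q3 pcB3 Cut.none Ext.none :=
  certB0 (fam := true) (s1 := true) (s2 := true) (a := 0) (b := 3) (c := 3) (cn := .pnn) (n1 := ndB1q0) (n2 := ndB4q3) (pc := pcB3) (cut := Cut.none) (xt := Ext.none) (P1 := 0) (W1 := 536870912) (P2 := 1610612736) (W2 := 536870912) (P3 := 649613803) (W3 := 48318383) (N0 := 3) (En := eng) (mo := mog) (C1 := cd1q0) (C2 := cd4q3) (C3 := pd3)
    rfl k0_pp_033

noncomputable def f_pp_101 : ℕ → ℕ → ℕ → ℕ → Bool := onCell 536870912 536870912 0 536870912 649613803 48318383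
    (rowB 3 eng mog cd1q1 cd4q0 pd1 0 true true true .npn 1 0 1 (qsf 536870912 536870912 0 536870912 1) ndB1q1 ndB4q0 pcB1 Cut.none Ext.none)

def k0_pp_101 : ∃ t, chk3 f_pp_101 t 1 1 1 = true :=
  ⟨(l 5), by decide +kernel⟩

theorem c_pp_101 : CertB 536870912 536870912 0 536870912 649613803 48318383 3 eng mog cd1q1 cd4q0 pd1 true true true .npn 1 0 1
    ndB1q1 ndB4q0 pcB1 Cut.none Ext.none :=
  certB0 (fam := true) (s1 := true) (s2 := true) (a := 1) (b := 0) (c := 1) (cn := .npn) (n1 := ndB1q1) (n2 := ndB4q0) (pc := pcB1) (cut := Cut.none) (xt := Ext.none) (P1 := 536870912) (W1 := 536870912) (P2 := 0) (W2 := 536870912) (P3 := 649613803) (W3 := 48318383) (N0 := 3) (En := eng) (mo := mog) (C1 := cd1q1) (C2 := cd4q0) (C3 := pd1)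
    rfl k0_pp_101

noncomputable def f_pp_102 : ℕ → ℕ → ℕ → ℕ → Bool := onCell 536870912 536870912 0 536870912 649613803 48318383
    (rowB 3 eng mog cd1q1 cd4q0 pd2 0 true true true .npp 1 0 2 (qsf 536870912 536870912 0 536870912 2) ndB1q1 ndB4q0 pcB2 Cut.none Ext.none)

def k0_pp_102 : ∃ t, chk3 f_pp_102 t 1 1 1 = true :=
  ⟨(l 5), by decide +kernel⟩

theorem c_pp_102 : CertB 536870912 536870912 0 536870912 649613803 48318383 3 eng mog cd1q1 cd4q0 pd2 true true true .npp 1 0 2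
    ndB1q1 ndB4q0 pcB2 Cut.none Ext.none :=
  certB0 (fam := true) (s1 := true) (s2 := true) (a := 1) (b := 0) (c := 2) (cn := .npp) (n1 := ndB1q1) (n2 := ndB4q0) (pc := pcB2) (cut := Cut.none) (xt := Ext.none) (P1 := 536870912) (W1 := 536870912) (P2 := 0) (W2 := 536870912) (P3 := 649613803) (W3 := 48318383) (N0 := 3) (En := eng) (mo := mog) (C1 := cd1q1) (C2 := cd4q0) (C3 := pd2)
    rfl k0_pp_102

noncomputable def f_pp_112 : ℕ → ℕ → ℕ → ℕ → Bool := onCell 536870912 536870912 536870912 536870912 649613803 48318383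
    (rowB 3 eng mog cd1q1 cd4q1 pd2 0 true true true .dn 1 1 2 (qsf 536870912 536870912 536870912 536870912 2) ndB1q1 ndB4q1 pcB2 Cut.none Ext.none)

def k0_pp_112 : ∃ t, chk3 f_pp_112 t 1 1 1 = true :=
  ⟨(l 4), by decide +kernel⟩

theorem c_pp_112 : CertB 536870912 536870912 536870912 536870912 649613803 48318383 3 eng mog cd1q1 cd4q1 pd2 true true true .dn 1 1 2
    ndB1q1 ndB4q1 pcB2 Cut.none Ext.none :=
  certB0 (fam := true) (s1 := true) (s2 := true) (a := 1) (b := 1) (c := 2) (cn := .dn) (n1 := ndB1q1) (n2 := ndB4q1) (pc := pcB2) (cut := Cut.none) (xt := Ext.none) (P1 := 536870912) (W1 := 536870912) (P2 := 536870912) (W2 := 536870912) (P3 := 649613803) (W3 := 48318383) (N0 := 3) (En := eng) (mo := mog) (C1 := cd1q1) (C2 := cd4q1) (C3 := pd2)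
    rfl k0_pp_112

noncomputable def f_pp_113 : ℕ → ℕ → ℕ → ℕ → Bool := onCell 536870912 536870912 536870912 536870912 649613803 48318383
    (rowB 3 eng mog cd1q1 cd4q1 pd3 0 true true true .nn 1 1 3 (qsf 536870912 536870912 536870912 536870912 3) ndB1q1 ndB4q1 pcB3 Cut.none Ext.none)

def k0_pp_113 : ∃ t, chk3 f_pp_113 t 1 1 1 = true :=
  ⟨(l 4), by decide +kernel⟩

theorem c_pp_113 : CertB 536870912 536870912 536870912 536870912 649613803 48318383 3 eng mog cd1q1 cd4q1 pd3 true true true .nn 1 1 3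
    ndB1q1 ndB4q1 pcB3 Cut.none Ext.none :=
  certB0 (fam := true) (s1 := true) (s2 := true) (a := 1) (b := 1) (c := 3) (cn := .nn) (n1 := ndB1q1) (n2 := ndB4q1) (pc := pcB3) (cut := Cut.none) (xt := Ext.none) (P1 := 536870912) (W1 := 536870912) (P2 := 536870912) (W2 := 536870912) (P3 := 649613803) (W3 := 48318383) (N0 := 3) (En := eng) (mo := mog) (C1 := cd1q1) (C2 := cd4q1) (C3 := pd3)
    rfl k0_pp_113

noncomputable def f_pp_123_a : ℕ → ℕ → ℕ → ℕ → Bool := onCell 536870912 536870912 0 536870912 649613803 48318383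
    (rowB 3 eng mog cd1q1 cd4q2a pd3 0 true true true .npn 1 2 3 (qsf 536870912 536870912 0 536870912 3) ndB1q1 ndB4q2a pcB3 Cut.none Ext.none)

def k0_pp_123_a : ∃ t, chk3 f_pp_123_a t 1 1 1 = true :=
  ⟨(l 4), by decide +kernel⟩

theorem c_pp_123_a : CertB 536870912 536870912 0 536870912 649613803 48318383 3 eng mog cd1q1 cd4q2a pd3 true true true .npn 1 2 3
    ndB1q1 ndB4q2a pcB3 Cut.none Ext.none :=
  certB0 (fam := true) (s1 := true) (s2 := true) (a := 1) (b := 2) (c := 3) (cn := .npn) (n1 := ndB1q1) (n2 := ndB4q2a) (pc := pcB3) (cut := Cut.none) (xt := Ext.none) (P1 := 536870912) (W1 := 536870912) (P2 := 0) (W2 := 536870912) (P3 := 649613803) (W3 := 48318383) (N0 := 3) (En := eng) (mo := mog) (C1 := cd1q1) (C2 := cd4q2a) (C3 := pd3)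
    rfl k0_pp_123_a

noncomputable def f_pp_123_b : ℕ → ℕ → ℕ → ℕ → Bool := onCell 536870912 536870912 1239849684 370763052 649613803 48318383
    (rowB 3 eng mog cd1q1 cd4q2b pd3 0 true true true .npn 1 2 3 (qsf 536870912 536870912 1239849684 370763052 3) ndB1q1 ndB4q2b pcB3 Cut.none Ext.none)

def k0_pp_123_b : ∃ t, chk3 f_pp_123_b t 1 1 1 = true :=
  ⟨(l 4), by decide +kernel⟩

theorem c_pp_123_b : CertB 536870912 536870912 1239849684 370763052 649613803 48318383 3 eng mog cd1q1 cd4q2b pd3 true true true .npn 1 2 3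
    ndB1q1 ndB4q2b pcB3 Cut.none Ext.none :=
  certB0 (fam := true) (s1 := true) (s2 := true) (a := 1) (b := 2) (c := 3) (cn := .npn) (n1 := ndB1q1) (n2 := ndB4q2b) (pc := pcB3) (cut := Cut.none) (xt := Ext.none) (P1 := 536870912) (W1 := 536870912) (P2 := 1239849684) (W2 := 370763052) (P3 := 649613803) (W3 := 48318383) (N0 := 3) (En := eng) (mo := mog) (C1 := cd1q1) (C2 := cd4q2b) (C3 := pd3)
    rfl k0_pp_123_b

noncomputable def f_pp_133 : ℕ → ℕ → ℕ → ℕ → Bool := onCell 536870912 536870912 1610612736 536870912 649613803 48318383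
    (rowB 3 eng mog cd1q1 cd4q3 pd3 0 true true true .dn 1 3 3 (qsf 536870912 536870912 1610612736 536870912 3) ndB1q1 ndB4q3 pcB3 Cut.none Ext.none)

def k0_pp_133 : ∃ t, chk3 f_pp_133 t 1 1 1 = true :=
  ⟨(l 4), by decide +kernel⟩

theorem c_pp_133 : CertB 536870912 536870912 1610612736 536870912 649613803 48318383 3 eng mog cd1q1 cd4q3 pd3 true true true .dn 1 3 3
    ndB1q1 ndB4q3 pcB3 Cut.none Ext.none :=
  certB0 (fam := true) (s1 := true) (s2 := true) (a := 1) (b := 3) (c := 3) (cn := .dn) (n1 := ndB1q1) (n2 := ndB4q3) (pc := pcB3) (cut := Cut.none) (xt := Ext.none) (P1 := 536870912) (W1 := 536870912) (P2 := 1610612736) (W2 := 536870912) (P3 := 649613803) (W3 := 48318383) (N0 := 3) (En := eng) (mo := mog) (C1 := cd1q1) (C2 := cd4q3) (C3 := pd3)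
    rfl k0_pp_133

noncomputable def f_pp_202_a : ℕ → ℕ → ℕ → ℕ → Bool := onCell 0 536870912 0 536870912 649613803 48318383
    (rowB 3 eng mog cd1q2a cd4q0 pd2 0 true true true .pp 2 0 2 (qsf 0 536870912 0 536870912 2) ndB1q2a ndB4q0 pcB2 Cut.none Ext.none)

def k0_pp_202_a : ∃ t, chk3 f_pp_202_a t 1 1 1 = true :=
  ⟨(l 5), by decide +kernel⟩

theorem c_pp_202_a : CertB 0 536870912 0 536870912 649613803 48318383 3 eng mog cd1q2a cd4q0 pd2 true true true .pp 2 0 2
    ndB1q2a ndB4q0 pcB2 Cut.none Ext.none :=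
  certB0 (fam := true) (s1 := true) (s2 := true) (a := 2) (b := 0) (c := 2) (cn := .pp) (n1 := ndB1q2a) (n2 := ndB4q0) (pc := pcB2) (cut := Cut.none) (xt := Ext.none) (P1 := 0) (W1 := 536870912) (P2 := 0) (W2 := 536870912) (P3 := 649613803) (W3 := 48318383) (N0 := 3) (En := eng) (mo := mog) (C1 := cd1q2a) (C2 := cd4q0) (C3 := pd2)
    rfl k0_pp_202_a

noncomputable def f_pp_202_b : ℕ → ℕ → ℕ → ℕ → Bool := onCell 1239849684 370763052 0 536870912 649613803 48318383
    (rowB 3 eng mog cd1q2b cd4q0 pd2 0 true true true .pp 2 0 2 (qsf 1239849684 370763052 0 536870912 2) ndB1q2b ndB4q0 pcB2 Cut.none Ext.none)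

def k0_pp_202_b : ∃ t, chk3 f_pp_202_b t 1 1 1 = true :=
  ⟨(l 5), by decide +kernel⟩

theorem c_pp_202_b : CertB 1239849684 370763052 0 536870912 649613803 48318383 3 eng mog cd1q2b cd4q0 pd2 true true true .pp 2 0 2
    ndB1q2b ndB4q0 pcB2 Cut.none Ext.none :=
  certB0 (fam := true) (s1 := true) (s2 := true) (a := 2) (b := 0) (c := 2) (cn := .pp) (n1 := ndB1q2b) (n2 := ndB4q0) (pc := pcB2) (cut := Cut.none) (xt := Ext.none) (P1 := 1239849684) (W1 := 370763052) (P2 := 0) (W2 := 536870912) (P3 := 649613803) (W3 := 48318383) (N0 := 3) (En := eng) (mo := mog) (C1 := cd1q2b) (C2 := cd4q0) (C3 := pd2)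
    rfl k0_pp_202_b

noncomputable def f_pp_203_a : ℕ → ℕ → ℕ → ℕ → Bool := onCell 0 536870912 0 536870912 649613803 48318383
    (rowB 3 eng mog cd1q2a cd4q0 pd3 0 true true true .up 2 0 3 (qsf 0 536870912 0 536870912 3) ndB1q2a ndB4q0 pcB3 Cut.none Ext.none)

def k0_pp_203_a : ∃ t, chk3 f_pp_203_a t 1 1 1 = true :=
  ⟨(l 5), by decide +kernel⟩

theorem c_pp_203_a : CertB 0 536870912 0 536870912 649613803 48318383 3 eng mog cd1q2a cd4q0 pd3 true true true .up 2 0 3
    ndB1q2a ndB4q0 pcB3 Cut.none Ext.none :=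
  certB0 (fam := true) (s1 := true) (s2 := true) (a := 2) (b := 0) (c := 3) (cn := .up) (n1 := ndB1q2a) (n2 := ndB4q0) (pc := pcB3) (cut := Cut.none) (xt := Ext.none) (P1 := 0) (W1 := 536870912) (P2 := 0) (W2 := 536870912) (P3 := 649613803) (W3 := 48318383) (N0 := 3) (En := eng) (mo := mog) (C1 := cd1q2a) (C2 := cd4q0) (C3 := pd3)
    rfl k0_pp_203_a

noncomputable def f_pp_203_b : ℕ → ℕ → ℕ → ℕ → Bool := onCell 1239849684 370763052 0 536870912 649613803 48318383
    (rowB 3 eng mog cd1q2b cd4q0 pd3 0 true true true .up 2 0 3 (qsf 1239849684 370763052 0 536870912 3) ndB1q2b ndB4q0 pcB3 Cut.none Ext.none)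

def k0_pp_203_b : ∃ t, chk3 f_pp_203_b t 1 1 1 = true :=
  ⟨(l 5), by decide +kernel⟩

theorem c_pp_203_b : CertB 1239849684 370763052 0 536870912 649613803 48318383 3 eng mog cd1q2b cd4q0 pd3 true true true .up 2 0 3
    ndB1q2b ndB4q0 pcB3 Cut.none Ext.none :=
  certB0 (fam := true) (s1 := true) (s2 := true) (a := 2) (b := 0) (c := 3) (cn := .up) (n1 := ndB1q2b) (n2 := ndB4q0) (pc := pcB3) (cut := Cut.none) (xt := Ext.none) (P1 := 1239849684) (W1 := 370763052) (P2 := 0) (W2 := 536870912) (P3 := 649613803) (W3 := 48318383) (N0 := 3) (En := eng) (mo := mog) (C1 := cd1q2b) (C2 := cd4q0) (C3 := pd3)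
    rfl k0_pp_203_b

noncomputable def f_pp_213_a : ℕ → ℕ → ℕ → ℕ → Bool := onCell 0 536870912 536870912 536870912 649613803 48318383
    (rowB 3 eng mog cd1q2a cd4q1 pd3 0 true true true .pnn 2 1 3 (qsf 0 536870912 536870912 536870912 3) ndB1q2a ndB4q1 pcB3 Cut.none Ext.none)

def k0_pp_213_a : ∃ t, chk3 f_pp_213_a t 1 1 1 = true :=
  ⟨(l 4), by decide +kernel⟩

theorem c_pp_213_a : CertB 0 536870912 536870912 536870912 649613803 48318383 3 eng mog cd1q2a cd4q1 pd3 true true true .pnn 2 1 3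
    ndB1q2a ndB4q1 pcB3 Cut.none Ext.none :=
  certB0 (fam := true) (s1 := true) (s2 := true) (a := 2) (b := 1) (c := 3) (cn := .pnn) (n1 := ndB1q2a) (n2 := ndB4q1) (pc := pcB3) (cut := Cut.none) (xt := Ext.none) (P1 := 0) (W1 := 536870912) (P2 := 536870912) (W2 := 536870912) (P3 := 649613803) (W3 := 48318383) (N0 := 3) (En := eng) (mo := mog) (C1 := cd1q2a) (C2 := cd4q1) (C3 := pd3)
    rfl k0_pp_213_a

noncomputable def f_pp_213_b : ℕ → ℕ → ℕ → ℕ → Bool := onCell 1239849684 370763052 536870912 536870912 649613803 48318383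
    (rowB 3 eng mog cd1q2b cd4q1 pd3 0 true true true .pnn 2 1 3 (qsf 1239849684 370763052 536870912 536870912 3) ndB1q2b ndB4q1 pcB3 Cut.none Ext.none)

def k0_pp_213_b : ∃ t, chk3 f_pp_213_b t 1 1 1 = true :=
  ⟨(l 4), by decide +kernel⟩

theorem c_pp_213_b : CertB 1239849684 370763052 536870912 536870912 649613803 48318383 3 eng mog cd1q2b cd4q1 pd3 true true true .pnn 2 1 3
    ndB1q2b ndB4q1 pcB3 Cut.none Ext.none :=
  certB0 (fam := true) (s1 := true) (s2 := true) (a := 2) (b := 1) (c := 3) (cn := .pnn) (n1 := ndB1q2b) (n2 := ndB4q1) (pc := pcB3) (cut := Cut.none) (xt := Ext.none) (P1 := 1239849684) (W1 := 370763052) (P2 := 536870912) (W2 := 536870912) (P3 := 649613803) (W3 := 48318383) (N0 := 3) (En := eng) (mo := mog) (C1 := cd1q2b) (C2 := cd4q1) (C3 := pd3)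
    rfl k0_pp_213_b

noncomputable def f_pp_303 : ℕ → ℕ → ℕ → ℕ → Bool := onCell 1610612736 536870912 0 536870912 649613803 48318383
    (rowB 3 eng mog cd1q3 cd4q0 pd3 0 true true true .npn 3 0 3 (qsf 1610612736 536870912 0 536870912 3) ndB1q3 ndB4q0 pcB3 Cut.none Ext.none)

def k0_pp_303 : ∃ t, chk3 f_pp_303 t 1 1 1 = true :=
  ⟨(l 5), by decide +kernel⟩

theorem c_pp_303 : CertB 1610612736 536870912 0 536870912 649613803 48318383 3 eng mog cd1q3 cd4q0 pd3 true true true .npn 3 0 3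
    ndB1q3 ndB4q0 pcB3 Cut.none Ext.none :=
  certB0 (fam := true) (s1 := true) (s2 := true) (a := 3) (b := 0) (c := 3) (cn := .npn) (n1 := ndB1q3) (n2 := ndB4q0) (pc := pcB3) (cut := Cut.none) (xt := Ext.none) (P1 := 1610612736) (W1 := 536870912) (P2 := 0) (W2 := 536870912) (P3 := 649613803) (W3 := 48318383) (N0 := 3) (En := eng) (mo := mog) (C1 := cd1q3) (C2 := cd4q0) (C3 := pd3)
    rfl k0_pp_303

noncomputable def f_pp_313 : ℕ → ℕ → ℕ → ℕ → Bool := onCell 1610612736 536870912 536870912 536870912 649613803 48318383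
    (rowB 3 eng mog cd1q3 cd4q1 pd3 0 true true true .dn 3 1 3 (qsf 1610612736 536870912 536870912 536870912 3) ndB1q3 ndB4q1 pcB3 Cut.none Ext.none)

def k0_pp_313 : ∃ t, chk3 f_pp_313 t 1 1 1 = true :=
  ⟨(l 4), by decide +kernel⟩

theorem c_pp_313 : CertB 1610612736 536870912 536870912 536870912 649613803 48318383 3 eng mog cd1q3 cd4q1 pd3 true true true .dn 3 1 3
    ndB1q3 ndB4q1 pcB3 Cut.none Ext.none :=
  certB0 (fam := true) (s1 := true) (s2 := true) (a := 3) (b := 1) (c := 3) (cn := .dn) (n1 := ndB1q3) (n2 := ndB4q1) (pc := pcB3) (cut := Cut.none) (xt := Ext.none) (P1 := 1610612736) (W1 := 536870912) (P2 := 536870912) (W2 := 536870912) (P3 := 649613803) (W3 := 48318383) (N0 := 3) (En := eng) (mo := mog) (C1 := cd1q3) (C2 := cd4q1) (C3 := pd3)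
    rfl k0_pp_313

noncomputable def f_pm_001 : ℕ → ℕ → ℕ → ℕ → Bool := onCell 0 536870912 0 536870912 649613803 48318383
    (rowB 3 eng mog cd1q0 cd4q0 pd1 0 true true false .up 0 0 1 (qsf 0 536870912 0 536870912 1) ndB1q0 ndB4q0 pcB1 Cut.none Ext.none)

def k0_pm_001 : ∃ t, chk3 f_pm_001 t 1 1 1 = true :=
  ⟨(a (l 3) (l 3)), by decide +kernel⟩

theorem c_pm_001 : CertB 0 536870912 0 536870912 649613803 48318383 3 eng mog cd1q0 cd4q0 pd1 true true false .up 0 0 1
    ndB1q0 ndB4q0 pcB1 Cut.none Ext.none :=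
  certB0 (fam := true) (s1 := true) (s2 := false) (a := 0) (b := 0) (c := 1) (cn := .up) (n1 := ndB1q0) (n2 := ndB4q0) (pc := pcB1) (cut := Cut.none) (xt := Ext.none) (P1 := 0) (W1 := 536870912) (P2 := 0) (W2 := 536870912) (P3 := 649613803) (W3 := 48318383) (N0 := 3) (En := eng) (mo := mog) (C1 := cd1q0) (C2 := cd4q0) (C3 := pd1)
    rfl k0_pm_001

noncomputable def f_pm_011 : ℕ → ℕ → ℕ → ℕ → Bool := onCell 0 536870912 536870912 536870912 649613803 48318383
    (rowB 3 eng mog cd1q0 cd4q1 pd1 1 true true false .pnn 0 1 1 (qsf 0 536870912 536870912 536870912 1) ndB1q0 ndB4q1 pcB1 Cut.none Ext.none)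

def k0_pm_011 : ∃ t, chk3 f_pm_011 t 1 1 1 = true :=
  ⟨(b (l 3) (l 3)), by decide +kernel⟩

theorem c_pm_011 : CertB 0 536870912 536870912 536870912 649613803 48318383 3 eng mog cd1q0 cd4q1 pd1 true true false .pnn 0 1 1
    ndB1q0 ndB4q1 pcB1 Cut.none Ext.none :=
  certB1 (fam := true) (s1 := true) (s2 := false) (a := 0) (b := 1) (c := 1) (cn := .pnn) (n1 := ndB1q0) (n2 := ndB4q1) (pc := pcB1) (cut := Cut.none) (xt := Ext.none) (P1 := 0) (W1 := 536870912) (P2 := 536870912) (W2 := 536870912) (P3 := 649613803) (W3 := 48318383) (N0 := 3) (En := eng) (mo := mog) (C1 := cd1q0) (C2 := cd4q1) (C3 := pd1)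
    rfl (fun _ => rfl) k0_pm_011

noncomputable def xt_pm_012 : Ext := extD2 3 ⟨7, 3, 3, 10, 377, 200, 77, 100, 17, 50, 3, 16⟩ eng cd1q0 cd4q1 pd2 true true false .pnp 0 1 2 rfl ndB1q0 ndB4q1 pcB2

noncomputable def f_pm_012 : ℕ → ℕ → ℕ → ℕ → Bool := onCell 1073741824 536870912 536870912 536870912 649613803 48318383
    (rowB 3 eng mog cd1q0 cd4q1 pd2 2 true true false .pnp 0 1 2 (qsf 0 536870912 536870912 536870912 2) ndB1q0 ndB4q1 pcB2 Cut.none xt_pm_012)

def k0_pm_012 : ∃ t, chk3 f_pm_012 t 4 1 1 = true :=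
  ⟨(a (a (l 3) (b (a (l 3) (b (b (l 16335712) (l 16390808)) (b (l 16430504) (l 3)))) (l 3))) (b (a (b (a (b (l 16343424) (l 589556787674286269405247)) (b (l 2) (l 16401528))) (a (b (a (l 16444008) (l 16424064)) (c (l 16586480) (l 16547200))) (b (l 16566696) (a (l 16459440) (l 16434752))))) (b (b (l 2) (a (l 16404232) (l 16401632))) (a (b (l 16419968) (l 16426600)) (b (l 16412384) (l 16414144))))) (a (b (a (b (b (l 16484280) (l 16537896)) (b (a (l 3) (l 16542136)) (l 16504224))) (b (a (b (l 16449536) (l 16456136)) (l 16443432)) (a (b (l 16463776) (l 16477664)) (b (l 16451080) (l 16462152))))) (b (a (b (l 16524472) (l 16567896)) (a (b (l 16494176) (l 16512960)) (b (l 16475368) (l 16490640)))) (a (l 3) (a (b (l 16575400) (l 16551680)) (b (l 16508824) (l 16556896)))))) (b (b (a (l 16470752) (b (l 16411160) (l 16408120))) (a (b (l 16430784) (l 16438240)) (b (l 16468160) (l 16408128)))) (b (a (a (l 16525720) (l 16464464)) (b (l 16434064) (l 16418632))) (a (b (a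 (l 16483536) (l 16459792)) (a (l 16519240) (l 16472408))) (b (l 16425568) (a (l 16447136) (l 16422032))))))))), by decide +kernel⟩

def k1_pm_012 : ∃ t, chk3 f_pm_012 t 5 1 1 = true :=
  ⟨(b (b (a (a (a (b (l 2) (l 16401240)) (l 2)) (l 2)) (l 2)) (a (a (a (b (l 16405672) (l 16401184)) (a (b (l 16404272) (l 16394224)) (a (l 16401408) (b (a (l 16412288) (l 16419456)) (a (l 16395784) (l 16400352)))))) (b (l 16414960) (l 16392824))) (b (l 16405392) (l 16374624)))) (a (a (a (b (b (l 16515856) (b (l 16380008) (l 16379216))) (b (a (b (l 16388368) (l 16390504)) (l 16456224)) (b (a (l 16393120) (l 16372896)) (a (l 16397304) (l 16374136))))) (b (a (b (l 16377384) (l 16402824)) (a (b (l 16372952) (l 16352784)) (b (a (l 16372608) (l 16374400)) (a (l 16349888) (b (l 16353128) (l 16345216)))))) (a (b (b (l 16356880) (l 16355184)) (b (l 16353392) (l 16352360))) (b (a (l 16344328) (a (l 16338984) (b (l 16338872) (l 16353968)))) (a (b (l 16339104) (l 16336224)) (a (b (l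 16331936) (l 16327792)) (b (c (l 16340056) (l 16335008)) (b (l 16406648) (c (l 16374504) (l 16391872)))))))))) (b (b (l 16361192) (b (l 16334016) (l 16321984))) (b (b (l 16311264) (l 16300600)) (b (l 16289904) (l 16300128))))) (b (b (a (l 16339664) (l 16324072)) (b (l 16375192) (l 16291432))) (b (b (a (l 16267296) (l 16233808)) (a (l 16248568) (l 16208104))) (b (a (l 16229312) (l 16180992)) (a (b (l 16214576) (l 16204552)) (b (l 16159872) (l 16145520)))))))), by decide +kernel⟩

def k2_pm_012 : ∃ t, chk3 f_pm_012 t 3 1 1 = true :=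
  ⟨(b (a (b (l 2) (a (b (l 2) (l 16365992)) (l 2))) (l 2)) (a (b (a (b (l 16309392) (a (l 16252616) (l 16241992))) (b (l 16315584) (a (l 16238208) (l 16243472)))) (a (b (a (b (l 16209920) (l 16178632)) (b (l 16194288) (l 16158688))) (b (a (l 16144904) (l 16119696)) (a (l 16150992) (l 16077536)))) (b (a (l 16272656) (l 16166336)) (a (b (l 16105064) (l 16057976)) (b (l 16100416) (l 16049592)))))) (b (a (b (l 2) (l 16261960)) (l 2)) (a (b (l 16175240) (a (b (l 16100784) (l 16049096)) (l 16079160))) (b (l 16219160) (a (l 16093288) (l 16119800))))))), by decide +kernel⟩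

theorem s3_pm_012 : ∃ t, chk3 f_pm_012 t 2 1 1 = true := ex3_a k0_pm_012 k1_pm_012

theorem s4_pm_012 : ∃ t, chk3 f_pm_012 t 1 1 1 = true := ex3_a s3_pm_012 k2_pm_012

theorem c_pm_012 : CertB 0 536870912 536870912 536870912 649613803 48318383 3 eng mog cd1q0 cd4q1 pd2 true true false .pnp 0 1 2
    ndB1q0 ndB4q1 pcB2 Cut.none xt_pm_012 :=
  certB2 (fam := true) (s1 := true) (s2 := false) (a := 0) (b := 1) (c := 2) (cn := .pnp) (n1 := ndB1q0) (n2 := ndB4q1) (pc := pcB2) (cut := Cut.none) (xt := xt_pm_012) (P1 := 0) (W1 := 536870912) (P2 := 536870912) (W2 := 536870912) (P3 := 649613803) (W3 := 48318383) (N0 := 3) (En := eng) (mo := mog) (C1 := cd1q0) (C2 := cd4q1) (C3 := pd2)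
    rfl (fun _ => rfl) s4_pm_012

noncomputable def cut_pm_022_a : Cut := Cut.of [[⟨0, 0, 0, 67108864⟩, ⟨1, 1, 0, 67108864⟩, ⟨2, 1, 0, 67108864⟩]]

noncomputable def f_pm_022_a : ℕ → ℕ → ℕ → ℕ → Bool := onCell 1073741824 536870912 0 536870912 649613803 48318383
    (rowB 3 eng mog cd1q0 cd4q2a pd2 2 true true false .pp 0 2 2 (qsf 0 536870912 0 536870912 2) ndB1q0 ndB4q2a pcB2 cut_pm_022_a Ext.none)

def k0_pm_022_a : ∃ t, chk3 f_pm_022_a t 2 2 1 = true :=
  ⟨(a (a (l 1) (b (l 1) (a (l 1) (b (l 1) (a (l 1) (b (l 1) (a (l 1) (c (l 88079834295) (l 16478456))))))))) (a (a (b (a (l 1) (a (b (l 1) (c (b (l 1) (l 98817161703)) (l 16416336))) (a (b (l 1) (b (l 16421328) (l 16450264))) (a (b (b (l 1575212076711) (l 16415312)) (b (l 16421088) (l 16428856))) (a (a (b (a (b (l 16411504) (l 16415112)) (a (b (l 16411368) (l 16414968)) (b (c (l 16420752) (l 16401424)) (l 16414720)))) (a (l 16424808) (b (l 16420384) (l 16428032)))) (b (b (l 16411176) (l 16414736)) (l 16424352)))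 (b (b (l 16411352) (l 16414880)) (l 16424432))))))) (b (a (a (l 1) (c (b (l 16448272) (l 106870257319)) (l 89153488679))) (a (a (b (l 63383695127) (l 16451992)) (b (l 16439592) (l 16451480))) (a (b (l 16439152) (l 16450744)) (a (b (l 16438496) (l 16449864)) (b (c (l 16445640) (l 16429256)) (l 16469752)))))) (a (b (a (c (l 89153544871) (l 16460136)) (c (l 171294793719) (l 16459272))) (a (c (b (l 16486800) (l 16495008)) (l 16477208)) (l 16482568))) (a (b (c (l 16472304) (l 16458056)) (l 16480520)) (a (b (l 16463968) (l 16478632)) (a (l 16470256) (b (l 16461584) (l 16475808)))))))) (b (a (b (a (b (l 16412392) (l 16415696)) (b (l 16414080) (l 16416992))) (b (l 16421520) (l 16428624))) (b (l 16415016) (l 16423776))) (b (a (b (l 16437552) (l 16448160)) (l 16439768)) (a (b (l 16460328) (l 16473888)) (l 16461960))))) (b (a (b (l 16413040) (l 16419680)) (b (l 16411800) (l 16415680))) (b (a (l 16433104) (l 16425736)) (a (l 16452312) (l 16441552)))))), by decide +kernel⟩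

def k1_pm_022_a : ∃ t, chk3 f_pm_022_a t 4 3 1 = true :=
  ⟨(a (b (l 1) (a (b (l 1) (l 6)) (a (b (b (l 1) (l 6)) (l 6)) (a (b (b (l 1) (l 6)) (l 6)) (b (b (b (l 1) (a (l 16631440) (l 16629392))) (b (a (l 6) (l 16643912)) (l 16659816))) (a (l 6) (b (b (l 16673376) (l 16688192)) (b (l 16697112) (l 16700728))))))))) (b (a (b (l 1) (a (b (l 1) (a (l 1) (b (l 16581616) (l 81100724279)))) (b (a (b (l 1) (l 16565784)) (b (l 16550800) (l 100428016391))) (a (b (l 82174437271) (l 16591320)) (b (l 16575152) (l 16587632)))))) (b (a (b (a (l 1) (c (l 16514560) (l 16500872))) (a (b (l 1) (l 16557720)) (b (l 91838007607) (l 16534280)))) (b (a (c (l 93448580631) (l 16499328)) (c (l 164315538615) (l 16497632))) (a (b (l 16521176) (l 16531640)) (l 16523856)))) (a (b (a (b (l 16548136) (l 16559824)) (l 16551048)) (a (l 16577872) (l 16574112))) (b (a (l 16547872) (l 16544536)) (l 16568096))))) (b (a (a (b (a (b (l 69826468935) (l 16647224)) (b (l 16608328) (l 16622016))) (b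 (a (l 16640464) (l 16635808)) (a (l 16654808) (l 16649720)))) (b (a (l 16632104) (l 16606832)) (b (l 16628576) (l 16641824)))) (b (a (b (l 16593936) (l 16606168)) (l 16590624)) (a (l 16624736) (l 16613464)))) (a (b (a (b (a (l 16669264) (l 16663720)) (l 16680704)) (l 16703672)) (b (a (l 16704040) (l 16667752)) (a (b (l 16688416) (l 16711096)) (a (l 16675752) (l 16666960))))) (a (b (l 16644448) (b (l 16650448) (l 16654056))) (b (l 16627904) (b (l 16633880) (a (l 16641504) (l 16633224))))))))), by decide +kernel⟩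

def k2_pm_022_a : ∃ t, chk3 f_pm_022_a t 5 3 1 = true :=
  ⟨(a (b (a (a (b (b (a (l 16502056) (l 16499688)) (a (l 16521032) (l 16517976))) (b (l 16539024) (l 16559400))) (a (b (b (l 16496976) (l 16514560)) (l 16563936)) (a (b (l 16503352) (l 16539192)) (b (a (l 16501576) (l 16562736)) (a (l 16536824) (l 16597568)))))) (b (a (l 16496816) (l 16489104)) (a (l 16571976) (l 16519688)))) (a (a (b (b (l 16580280) (l 16601328)) (b (l 16633216) (b (a (l 16621888) (l 16613664)) (a (l 16624408) (l 16615240))))) (b (a (l 16582136) (a (l 16577104) (a (l 16574112) (l 16571512)))) (a (b (l 16600928) (b (l 16605240) (l 16606504))) (b (a (l 16595592) (a (l 16593344) (l 16623864))) (a (l 16600000) (a (b (l 16596776) (l 16598048)) (a (a (a (l 16596888) (b (l 16596496) (l 16639712))) (l 16596912)) (l 16596080)))))))) (b (b (a (l 16555912) (l 16544112)) (l 16652376)) (b (a (b (l 16581296) (l 16584024)) (l 16567960)) (b (a (l 16586040) (l 16571016)) (a (a (l 16591624) (l 16583072))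 (l 16572200))))))) (a (b (b (l 16476096) (b (l 16496464) (l 16512176))) (b (l 16579344) (b (l 16548184) (b (l 16550888) (l 16572832))))) (b (b (l 16463672) (l 16490264)) (b (l 16514728) (b (l 16523104) (b (l 16525344) (l 16525984))))))), by decide +kernel⟩

def k3_pm_022_a : ∃ t, chk3 f_pm_022_a t 3 1 1 = true :=
  ⟨(b (a (a (b (a (b (l 16412360) (l 16414328)) (l 16421952)) (b (a (l 16422912) (l 16427240)) (l 16479768))) (b (a (l 16432320) (l 16442096)) (a (l 16435536) (l 16437712)))) (a (b (l 16458696) (a (l 16440560) (l 16442648))) (b (l 16480824) (l 16443520)))) (a (b (a (b (a (l 16456936) (l 16450488)) (l 16469600)) (b (l 16419104) (l 16459368))) (a (b (b (l 16478040) (l 16505672)) (b (a (l 16499752) (l 16479056)) (a (b (l 16501608) (l 16502024)) (l 16480832)))) (b (a (l 16454888) (l 16439472)) (b (a (l 16461104) (l 16444896)) (a (a (l 16466848) (l 16458240)) (l 16445504)))))) (b (a (b (l 16423416) (l 16408536)) (b (l 16397768) (l 16389480))) (a (a (b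 (l 16426496) (a (l 16433872) (l 16427336))) (b (l 16415904) (l 16417528))) (b (l 16418848) (a (l 16404888) (l 16393016))))))), by decide +kernel⟩

theorem s4_pm_022_a : ∃ t, chk3 f_pm_022_a t 2 3 1 = true := ex3_a k1_pm_022_a k2_pm_022_a

theorem s5_pm_022_a : ∃ t, chk3 f_pm_022_a t 2 1 1 = true := ex3_b k0_pm_022_a s4_pm_022_a

theorem s6_pm_022_a : ∃ t, chk3 f_pm_022_a t 1 1 1 = true := ex3_a s5_pm_022_a k3_pm_022_a

theorem c_pm_022_a : CertB 0 536870912 0 536870912 649613803 48318383 3 eng mog cd1q0 cd4q2a pd2 true true false .pp 0 2 2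
    ndB1q0 ndB4q2a pcB2 cut_pm_022_a Ext.none :=
  certB2 (fam := true) (s1 := true) (s2 := false) (a := 0) (b := 2) (c := 2) (cn := .pp) (n1 := ndB1q0) (n2 := ndB4q2a) (pc := pcB2) (cut := cut_pm_022_a) (xt := Ext.none) (P1 := 0) (W1 := 536870912) (P2 := 0) (W2 := 536870912) (P3 := 649613803) (W3 := 48318383) (N0 := 3) (En := eng) (mo := mog) (C1 := cd1q0) (C2 := cd4q2a) (C3 := pd2)
    rfl (fun _ => rfl) s6_pm_022_a

noncomputable def cut_pm_022_b : Cut := Cut.of [[⟨0, 0, 0, 67108864⟩, ⟨1, 1, 0, 67108864⟩, ⟨2, 1, 0, 67108864⟩]]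

noncomputable def f_pm_022_b : ℕ → ℕ → ℕ → ℕ → Bool := onCell 0 536870912 1073741824 536870912 649613803 48318383
    (rowB 3 eng mog cd1q0 cd4q2b pd2 1 true true false .pp 0 2 2 (qsf 0 536870912 1239849684 370763052 2) ndB1q0 ndB4q2b pcB2 cut_pm_022_b Ext.none)

def k0_pm_022_b : ∃ t, chk3 f_pm_022_b t 1 2 1 = true :=
  ⟨(b (l 1) (a (a (a (b (b (b (l 1) (b (l 1) (a (b (l 1) (a (a (b (l 1) (b (b (b (l 1) (b (l 1) (l 16418464))) (l 16417840)) (l 16416416))) (l 1)) (l 1))) (l 1)))) (a (a (b (b (l 16416432) (l 16401576)) (l 16377456)) (b (l 16441800) (l 16409912))) (b (l 1) (l 16455624)))) (a (b (a (b (c (l 16360320) (l 16333416)) (a (l 16311352) (l 16327312))) (b (l 16378848) (l 16350664))) (a (b (a (l 16286920) (l 16302504)) (l 16273032)) (b (l 16325328) (l 16302832)))) (b (a (l 16394624) (l 16423336)) (a (l 16342760) (l 16370512))))) (b (l 1) (a (b (l 16484280) (l 16409552)) (b (l 1) (l 16456200))))) (l 1)) (l 1))), by decide +kernel⟩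

def k1_pm_022_b : ∃ t, chk3 f_pm_022_b t 1 3 1 = true :=
  ⟨(a (b (a (b (a (a (a (b (b (l 16254192) (l 16238200)) (b (l 16225056) (l 16214744))) (b (l 16274320) (l 16246000))) (b (l 16315216) (l 16284208))) (a (b (l 16365792) (l 16331936)) (b (l 16411352) (l 16375584)))) (a (b (a (b (l 16219720) (a (l 16202904) (l 16226352))) (l 16263800)) (a (b (l 16234304) (l 16236128)) (l 16255144))) (b (a (l 16307928) (l 16348888)) (l 16334368)))) (b (a (b (a (l 16457312) (l 1)) (l 16506056)) (l 1)) (a (b (l 16499296) (l 16395104)) (b (a (l 16466064) (l 1)) (a (l 16447792) (l 16470408)))))) (a (b (a (b (a (a (b (l 16210488) (l 16217632)) (l 16232296)) (l 16258464)) (a (b (a (l 16226400) (l 16244640)) (l 16245248)) (b (l 16268696) (l 16277832)))) (b (l 16329288) (a (l 16300520) (l 16326944)))) (a (b (a (c (l 16318584) (l 16207872)) (l 16291848)) (a (l 16289808) (l 16314688))) (b (a (l 16317832) (l 16339704)) (l 16348336)))) (b (a (b (l 16383000) (l 16379368)) (b (l 16449448)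 (l 16443384))) (a (b (l 16384424) (l 16397504)) (b (l 16443104) (l 16449144)))))) (b (l 1) (a (b (a (b (l 16476992) (l 16481112)) (l 1)) (a (b (l 16485984) (l 16492808)) (b (l 16474992) (l 16499992)))) (l 1)))), by decide +kernel⟩

theorem s2_pm_022_b : ∃ t, chk3 f_pm_022_b t 1 1 1 = true := ex3_b k0_pm_022_b k1_pm_022_b

theorem c_pm_022_b : CertB 0 536870912 1239849684 370763052 649613803 48318383 3 eng mog cd1q0 cd4q2b pd2 true true false .pp 0 2 2
    ndB1q0 ndB4q2b pcB2 cut_pm_022_b Ext.none :=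
  certB1 (fam := true) (s1 := true) (s2 := false) (a := 0) (b := 2) (c := 2) (cn := .pp) (n1 := ndB1q0) (n2 := ndB4q2b) (pc := pcB2) (cut := cut_pm_022_b) (xt := Ext.none) (P1 := 0) (W1 := 536870912) (P2 := 1239849684) (W2 := 370763052) (P3 := 649613803) (W3 := 48318383) (N0 := 3) (En := eng) (mo := mog) (C1 := cd1q0) (C2 := cd4q2b) (C3 := pd2)
    rfl (fun _ => rfl) s2_pm_022_b

end Pool.Agent.Strip051.G.I6050_6500.Tab.C.BA14

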