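import Pool.Agent.Strip051.G.I6050_6500.Tab
import Pool.Agent.Strip051.PB.ExtD2

/-! # Certificates B12 (generated) -/

set_option linter.all false
set_option maxRecDepth 100000

namespace Pool.Agent.Strip051.G.I6050_6500.Tab.C.BA14

open Pool.Agent.Strip051.PB Pool.Agent.Strip051.PB.T
open Pool.Agent.Strip051.G.I6050_6500.Tab

noncomputable def f_pm_023_a : ℕ → ℕ → ℕ → ℕ → Bool := onCell 1610612736 536870912 0 536870912 649613803 48318383
    (rowB 3 eng mog cd1q0 cd4q2a pd3 2 true true false .up 0 2 3 (qsf 0 536870912 0 536870912 3) ndB1q0 ndB4q2a pcB3 Cut.none Ext.none)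

def k0_pm_023_a : ∃ t, chk3 f_pm_023_a t 1 1 1 = true :=
  ⟨(a (b (a (a (b (l 16435712) (l 16436200)) (a (l 16492656) (l 16541888))) (a (a (a (l 16543016) (b (l 16563064) (l 16551824))) (a (l 421007265463) (l 2))) (l 2))) (b (a (a (l 16447000) (a (l 16487960) (l 16513192))) (l 2)) (a (a (b (l 16452416) (b (l 16455320) (l 16457696))) (b (l 191226260455) (l 2))) (l 2)))) (l 2)), by decide +kernel⟩

theorem c_pm_023_a : CertB 0 536870912 0 536870912 649613803 48318383 3 eng mog cd1q0 cd4q2a pd3 true true false .up 0 2 3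
    ndB1q0 ndB4q2a pcB3 Cut.none Ext.none :=
  certB2 (fam := true) (s1 := true) (s2 := false) (a := 0) (b := 2) (c := 3) (cn := .up) (n1 := ndB1q0) (n2 := ndB4q2a) (pc := pcB3) (cut := Cut.none) (xt := Ext.none) (P1 := 0) (W1 := 536870912) (P2 := 0) (W2 := 536870912) (P3 := 649613803) (W3 := 48318383) (N0 := 3) (En := eng) (mo := mog) (C1 := cd1q0) (C2 := cd4q2a) (C3 := pd3)
    rfl (fun _ => rfl) k0_pm_023_a

noncomputable def f_pm_023_b : ℕ → ℕ → ℕ → ℕ → Bool := onCell 1610612736 536870912 1239849684 370763052 649613803 48318383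
    (rowB 3 eng mog cd1q0 cd4q2b pd3 2 true true false .up 0 2 3 (qsf 0 536870912 1239849684 370763052 3) ndB1q0 ndB4q2b pcB3 Cut.none Ext.none)

def k0_pm_023_b : ∃ t, chk3 f_pm_023_b t 1 1 1 = true :=
  ⟨(b (b (a (a (a (a (l 16508952) (l 16512840)) (a (l 16500616) (l 16481144))) (a (a (a (l 16510392) (l 16534976)) (a (l 16552312) (l 16574088))) (l 16627504))) (l 2)) (a (a (a (l 16712312) (a (l 16523872) (l 16550240))) (a (a (a (l 16567688) (l 16577728)) (l 16597496)) (l 16622432))) (a (a (l 16681392) (l 16725616)) (l 2)))) (a (a (a (b (b (l 16425008) (l 16380496)) (a (l 16292952) (l 16321336))) (b (a (l 16459016) (l 16499072)) (a (l 16355496) (l 16397560)))) (a (a (b (l 16538744) (l 16443144)) (b (l 16579344) (l 16491560))) (b (l 16634504) (l 16567552)))) (a (a (b (l 16703416) (a (l 16648552) (l 16696072))) (a (b (l 16733840) (l 16737176)) (l 16747304))) (a (a (l 16747800) (l 16740528)) (l 4))))), by decide +kernel⟩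

theorem c_pm_023_b : CertB 0 536870912 1239849684 370763052 649613803 48318383 3 eng mog cd1q0 cd4q2b pd3 true true false .up 0 2 3
    ndB1q0 ndB4q2b pcB3 Cut.none Ext.none :=
  certB2 (fam := true) (s1 := true) (s2 := false) (a := 0) (b := 2) (c := 3) (cn := .up) (n1 := ndB1q0) (n2 := ndB4q2b) (pc := pcB3) (cut := Cut.none) (xt := Ext.none) (P1 := 0) (W1 := 536870912) (P2 := 1239849684) (W2 := 370763052) (P3 := 649613803) (W3 := 48318383) (N0 := 3) (En := eng) (mo := mog) (C1 := cd1q0) (C2 := cd4q2b) (C3 := pd3)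
    rfl (fun _ => rfl) k0_pm_023_b

noncomputable def f_pm_033 : ℕ → ℕ → ℕ → ℕ → Bool := onCell 1610612736 536870912 1610612736 536870912 649613803 48318383
    (rowB 3 eng mog cd1q0 cd4q3 pd3 2 true true false .pnn 0 3 3 (qsf 0 536870912 1610612736 536870912 3) ndB1q0 ndB4q3 pcB3 Cut.none Ext.none)

def k0_pm_033 : ∃ t, chk3 f_pm_033 t 1 1 1 = true :=
  ⟨(a (b (a (b (a (b (l 212096607735) (l 401611648887)) (a (b (l 16220320) (l 16142480)) (b (l 16255256) (l 16180320)))) (a (l 1) (b (a (l 1) (l 16088984)) (l 1)))) (a (b (a (b (l 16296560) (l 16221936)) (l 16311328)) (b (l 16179720) (l 372620461607))) (b (b (l 16437144) (l 16369840)) (b (a (l 16270128) (l 16330504)) (a (l 16161896) (l 16234528)))))) (a (l 1) (b (a (l 1) (b (a (l 1) (l 16142216)) (l 1))) (l 1)))) (b (a (a (b (a (l 16497568) (l 16555560)) (b (a (l 16392544) (l 16450592)) (a (l 16302400) (l 16358968)))) (b (a (l 16603144) (l 16642128)) (b (a (l 16501576) (l 4)) (l 4)))) (a (l 4) (l 4)))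 (a (b (a (b (a (l 16218096) (l 16279368)) (a (l 1) (l 4))) (l 4)) (a (l 1) (b (l 4) (l 1)))) (l 4)))), by decide +kernel⟩

theorem c_pm_033 : CertB 0 536870912 1610612736 536870912 649613803 48318383 3 eng mog cd1q0 cd4q3 pd3 true true false .pnn 0 3 3
    ndB1q0 ndB4q3 pcB3 Cut.none Ext.none :=
  certB2 (fam := true) (s1 := true) (s2 := false) (a := 0) (b := 3) (c := 3) (cn := .pnn) (n1 := ndB1q0) (n2 := ndB4q3) (pc := pcB3) (cut := Cut.none) (xt := Ext.none) (P1 := 0) (W1 := 536870912) (P2 := 1610612736) (W2 := 536870912) (P3 := 649613803) (W3 := 48318383) (N0 := 3) (En := eng) (mo := mog) (C1 := cd1q0) (C2 := cd4q3) (C3 := pd3)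
    rfl (fun _ => rfl) k0_pm_033

noncomputable def f_pm_101 : ℕ → ℕ → ℕ → ℕ → Bool := onCell 536870912 536870912 0 536870912 649613803 48318383
    (rowB 3 eng mog cd1q1 cd4q0 pd1 2 true true false .npn 1 0 1 (qsf 536870912 536870912 0 536870912 1) ndB1q1 ndB4q0 pcB1 Cut.none Ext.none)

def k0_pm_101 : ∃ t, chk3 f_pm_101 t 1 1 1 = true :=
  ⟨(a (l 3) (a (l 3) (b (l 3) (l 3)))), by decide +kernel⟩

theorem c_pm_101 : CertB 536870912 536870912 0 536870912 649613803 48318383 3 eng mog cd1q1 cd4q0 pd1 true true false .npn 1 0 1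
    ndB1q1 ndB4q0 pcB1 Cut.none Ext.none :=
  certB2 (fam := true) (s1 := true) (s2 := false) (a := 1) (b := 0) (c := 1) (cn := .npn) (n1 := ndB1q1) (n2 := ndB4q0) (pc := pcB1) (cut := Cut.none) (xt := Ext.none) (P1 := 536870912) (W1 := 536870912) (P2 := 0) (W2 := 536870912) (P3 := 649613803) (W3 := 48318383) (N0 := 3) (En := eng) (mo := mog) (C1 := cd1q1) (C2 := cd4q0) (C3 := pd1)
    rfl (fun _ => rfl) k0_pm_101

noncomputable def f_pm_102 : ℕ → ℕ → ℕ → ℕ → Bool := onCell 536870912 536870912 1073741824 536870912 649613803 48318383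
    (rowB 3 eng mog cd1q1 cd4q0 pd2 1 true true false .npp 1 0 2 (qsf 536870912 536870912 0 536870912 2) ndB1q1 ndB4q0 pcB2 Cut.none Ext.none)

def k0_pm_102 : ∃ t, chk3 f_pm_102 t 1 4 1 = true :=
  ⟨(b (b (a (l 3) (a (l 3) (a (l 3) (b (l 3) (b (l 3) (a (l 226727233799) (a (l 16750312) (a (l 16743200) (l 16743296))))))))) (b (a (a (l 3) (a (l 3) (a (l 16623408) (l 16667096)))) (a (a (a (l 16727480) (c (l 16730640) (l 64055442647))) (a (b (l 3) (l 16748640)) (l 227264136311))) (a (a (b (l 16753456) (l 16734296)) (b (l 16744408) (l 16729000))) (a (b (a (l 16739704) (l 16744544)) (l 16778368)) (a (b (l 16788960) (l 16724960)) (b (a (l 16749344) (l 16745104)) (l 16713816))))))) (a (a (a (l 16537576) (l 16497240)) (a (b (l 16554328) (l 16533304)) (a (b (l 16605800) (l 16585656)) (l 16615176)))) (a (a (a (b (l 16687624) (l 16666176)) (b (l 16720968) (l 16698704))) (a (b (l 16729152) (l 16710456)) (l 16693912))) (a (a (l 16711600) (l 16753104)) (a (b (l 16726712)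 (l 16715488)) (a (l 16705328) (b (l 16700344) (l 16686760))))))))) (a (b (a (a (b (l 16485912) (l 2)) (b (l 16476400) (l 16458576))) (a (b (l 16506672) (l 16476232)) (b (l 16559056) (l 16546592)))) (a (a (l 2) (l 16429456)) (a (l 16436072) (b (l 16518208) (l 16497696))))) (a (b (a (b (l 16630368) (l 16613184)) (b (a (l 16680600) (l 16684800)) (a (l 16645840) (l 16657872)))) (a (b (l 16601984) (l 16558312)) (b (l 16816984) (l 16615160)))) (b (a (b (a (l 16686296) (l 16707280)) (a (l 16675520) (l 16692864))) (a (b (l 16698248) (l 16675832)) (b (a (l 16679896) (l 16666840)) (l 16648288)))) (a (a (l 16670832) (l 16667392)) (a (l 16644896) (b (l 16624584) (l 16602672)))))))), by decide +kernel⟩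

def k1_pm_102 : ∃ t, chk3 f_pm_102 t 1 5 1 = true :=
  ⟨(a (b (b (b (a (l 16477488) (a (l 16409176) (l 16483248))) (a (l 2) (b (l 16450592) (a (l 16473512) (l 16507392))))) (a (l 2) (l 16674896))) (a (l 2) (a (l 16537752) (l 16560960)))) (a (b (b (a (b (l 16543816) (b (l 16540752) (b (l 16550104) (l 16563704)))) (b (l 16620848) (b (l 16619784) (l 16708600)))) (a (l 16571984) (l 16615728))) (a (l 16592544) (l 16610256))) (b (a (b (b (l 16649632) (b (l 16639048) (b (l 16634256) (l 16716376)))) (a (l 16622176) (l 16609160))) (b (b (a (l 16617328) (l 16582824)) (b (l 16609344) (a (l 16599264) (l 16688536)))) (a (l 16582016) (l 16544080)))) (a (b (l 16599664) (l 16588864)) (a (l 16555272) (l 16706352)))))), by decide +kernel⟩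

def k2_pm_102 : ∃ t, chk3 f_pm_102 t 1 3 1 = true :=
  ⟨(a (b (a (l 2) (b (l 16585880) (l 2))) (l 2)) (b (a (b (a (l 16611216) (l 16613776)) (l 16847200)) (b (a (l 16584816) (a (l 16542624) (l 16504752))) (a (l 16595240) (b (l 16531392) (l 16537504))))) (a (b (l 16672584) (l 2)) (b (a (l 16616960) (l 16552712)) (a (l 16653888) (l 16594312)))))), by decide +kernel⟩

theorem s3_pm_102 : ∃ t, chk3 f_pm_102 t 1 2 1 = true := ex3_b k0_pm_102 k1_pm_102

theorem s4_pm_102 : ∃ t, chk3 f_pm_102 t 1 1 1 = true := ex3_b s3_pm_102 k2_pm_102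

theorem c_pm_102 : CertB 536870912 536870912 0 536870912 649613803 48318383 3 eng mog cd1q1 cd4q0 pd2 true true false .npp 1 0 2
    ndB1q1 ndB4q0 pcB2 Cut.none Ext.none :=
  certB1 (fam := true) (s1 := true) (s2 := false) (a := 1) (b := 0) (c := 2) (cn := .npp) (n1 := ndB1q1) (n2 := ndB4q0) (pc := pcB2) (cut := Cut.none) (xt := Ext.none) (P1 := 536870912) (W1 := 536870912) (P2 := 0) (W2 := 536870912) (P3 := 649613803) (W3 := 48318383) (N0 := 3) (En := eng) (mo := mog) (C1 := cd1q1) (C2 := cd4q0) (C3 := pd2)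
    rfl (fun _ => rfl) s4_pm_102

noncomputable def f_pm_112 : ℕ → ℕ → ℕ → ℕ → Bool := onCell 536870912 536870912 1073741824 536870912 649613803 48318383
    (rowB 3 eng mog cd1q1 cd4q1 pd2 1 true true false .dn 1 1 2 (qsf 536870912 536870912 536870912 536870912 2) ndB1q1 ndB4q1 pcB2 Cut.none Ext.none)

def k0_pm_112 : ∃ t, chk3 f_pm_112 t 1 1 1 = true :=
  ⟨(a (a (b (b (b (b (l 3) (b (l 3) (a (l 94119383943) (l 310344233623)))) (b (a (b (l 16458920) (l 16400168)) (b (l 16423808) (l 16386432))) (b (a (l 16409024) (l 16399312)) (l 16575376)))) (b (b (b (a (l 16411496) (l 16413648)) (b (l 16541920) (b (l 16421792) (a (b (l 16422984) (l 16429512)) (l 16438248))))) (a (l 16422736) (l 16437128))) (a (l 16395536) (l 16428104)))) (b (b (a (l 16345152) (l 16401560)) (a (l 16289384) (l 16368392))) (b (a (l 16237352) (l 16335128)) (a (l 16190304) (l 16313848))))) (b (b (b (l 1) (b (l 1) (b (l 1) (l 371547960551)))) (b (b (a (b (l 16419952) (b (l 16429360) (l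 16447648))) (l 1)) (l 16456312)) (l 16470024))) (b (b (l 16475864) (l 16477664)) (b (l 16484792) (a (l 16441208) (l 16568592)))))) (b (b (l 1) (a (b (l 1) (l 368863832103)) (l 1))) (b (a (b (l 16543128) (l 16580952)) (b (l 1) (l 422014207047))) (a (b (l 16631568) (l 16710192)) (b (l 131030282743) (l 16723688)))))), by decide +kernel⟩

theorem c_pm_112 : CertB 536870912 536870912 536870912 536870912 649613803 48318383 3 eng mog cd1q1 cd4q1 pd2 true true false .dn 1 1 2
    ndB1q1 ndB4q1 pcB2 Cut.none Ext.none :=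
  certB1 (fam := true) (s1 := true) (s2 := false) (a := 1) (b := 1) (c := 2) (cn := .dn) (n1 := ndB1q1) (n2 := ndB4q1) (pc := pcB2) (cut := Cut.none) (xt := Ext.none) (P1 := 536870912) (W1 := 536870912) (P2 := 536870912) (W2 := 536870912) (P3 := 649613803) (W3 := 48318383) (N0 := 3) (En := eng) (mo := mog) (C1 := cd1q1) (C2 := cd4q1) (C3 := pd2)
    rfl (fun _ => rfl) k0_pm_112

noncomputable def f_pm_113 : ℕ → ℕ → ℕ → ℕ → Bool := onCell 1610612736 536870912 536870912 536870912 649613803 48318383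
    (rowB 3 eng mog cd1q1 cd4q1 pd3 2 true true false .nn 1 1 3 (qsf 536870912 536870912 536870912 536870912 3) ndB1q1 ndB4q1 pcB3 Cut.none Ext.none)

def k0_pm_113 : ∃ t, chk3 f_pm_113 t 1 1 1 = true :=
  ⟨(b (a (a (a (b (l 17014288) (b (l 16878928) (l 16736376))) (b (a (l 17034224) (l 16970032)) (a (l 16770960) (l 16815872)))) (a (b (b (l 2) (l 16921312)) (a (b (l 16899248) (l 16798384)) (l 16839688))) (b (l 2) (l 16894744)))) (a (a (b (l 2) (b (l 2) (l 16705080))) (l 2)) (l 2))) (a (a (a (b (b (l 16608520) (l 16448456)) (b (l 16294440) (l 16146224))) (b (a (b (l 16625096) (l 16506576)) (b (l 16652464) (l 16531896))) (a (b (l 16387136) (l 16212960)) (b (l 16422392) (l 16287968))))) (a (a (b (b (l 16679952) (l 16411960)) (a (l 16367112) (b (l 16461120) (l 16319296)))) (a (b (l 16537776) (b (l 16488488) (b (l 16413264) (l 16355336)))) (b (l 16653840) (l 16457728)))) (b (b (l 16725120) (a (l 16616968) (l 16641320))) (b (a (l 16517152) (l 16547208))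 (b (l 16458744) (l 16409584)))))) (a (a (b (a (l 16774432) (l 16683400)) (a (b (l 16584584) (l 16482552)) (b (l 16603536) (l 16524216)))) (b (a (l 16651032) (l 4)) (a (l 16578632) (l 16583400)))) (a (b (l 4) (a (l 4) (l 4))) (l 4))))), by decide +kernel⟩

theorem c_pm_113 : CertB 536870912 536870912 536870912 536870912 649613803 48318383 3 eng mog cd1q1 cd4q1 pd3 true true false .nn 1 1 3
    ndB1q1 ndB4q1 pcB3 Cut.none Ext.none :=
  certB2 (fam := true) (s1 := true) (s2 := false) (a := 1) (b := 1) (c := 3) (cn := .nn) (n1 := ndB1q1) (n2 := ndB4q1) (pc := pcB3) (cut := Cut.none) (xt := Ext.none) (P1 := 536870912) (W1 := 536870912) (P2 := 536870912) (W2 := 536870912) (P3 := 649613803) (W3 := 48318383) (N0 := 3) (En := eng) (mo := mog) (C1 := cd1q1) (C2 := cd4q1) (C3 := pd3)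
    rfl (fun _ => rfl) k0_pm_113

noncomputable def f_pm_123_a : ℕ → ℕ → ℕ → ℕ → Bool := onCell 1610612736 536870912 0 536870912 649613803 48318383
    (rowB 3 eng mog cd1q1 cd4q2a pd3 2 true true false .npn 1 2 3 (qsf 536870912 536870912 0 536870912 3) ndB1q1 ndB4q2a pcB3 Cut.none Ext.none)

def k0_pm_123_a : ∃ t, chk3 f_pm_123_a t 1 2 1 = true :=
  ⟨(a (a (a (l 1) (a (l 1) (l 16612712))) (a (a (a (l 16588320) (b (l 16609312) (l 16596664))) (a (b (l 16604520) (l 16591664)) (l 16612040))) (b (l 16677280) (l 16670072)))) (a (a (b (l 16739032) (l 16736072)) (b (l 16758112) (l 16797328))) (a (a (b (l 16755528) (l 16750888)) (b (l 16748024) (a (l 16744544) (l 16741536)))) (a (a (b (l 16752768) (l 16740840)) (b (l 16762000) (l 16751328))) (a (c (l 265986399063) (l 263301999079)) (l 4)))))), by decide +kernel⟩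

def k1_pm_123_a : ∃ t, chk3 f_pm_123_a t 1 3 1 = true :=
  ⟨(b (a (a (a (l 1) (a (l 16528464) (l 16554552))) (a (a (a (l 16582320) (l 16606888)) (a (l 16611928) (l 16628944))) (b (l 16680672) (l 16702096)))) (a (a (a (l 16746416) (l 16770776)) (a (l 16762672) (l 16779504))) (a (a (l 16770264) (l 16765760)) (a (a (l 16802696) (l 16775320)) (a (a (l 16758360) (l 16761288)) (a (l 16770432) (l 4))))))) (a (a (a (b (l 16488968) (a (b (l 16478032) (l 16479200)) (l 16506984))) (b (a (l 16532024) (l 16572232)) (a (b (l 16544760) (l 16560736)) (a (l 16594096) (l 16626120))))) (a (a (a (b (l 16613376) (l 16663840)) (b (l 16647776) (a (l 16688080) (c (l 16688120) (l 16684808))))) (a (b (l 16656872) (a (l 16698072) (b (l 16687248) (l 16691664)))) (b (l 16673488) (l 16696696)))) (b (a (l 16711616) (l 16753568)) (a (b (l 16742848) (l 16747200)) (b (l 16784120) (l 16787352)))))) (a (a (a (b (l 16785448) (a (l 16798816) (l 16831232))) (b (l 16806240) (b (l 16831576)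 (l 16851424)))) (b (a (l 16756192) (l 16818952)) (a (a (l 16767432) (l 16858216)) (l 16859632)))) (a (a (b (l 16813168) (b (l 16841632) (l 16861416))) (b (l 16803832) (b (l 16828696) (l 16843848)))) (a (b (l 16833128) (b (l 16807624) (l 16947112))) (a (b (a (l 16778448) (l 16772184)) (l 16838608)) (a (b (l 16797072) (a (l 16892416) (b (l 16780432) (l 16785256)))) (a (b (l 16773496) (b (l 16778408) (l 16800848))) (b (l 4) (a (l 16769880) (b (l 4) (l 4)))))))))))), by decide +kernel⟩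

theorem s2_pm_123_a : ∃ t, chk3 f_pm_123_a t 1 1 1 = true := ex3_b k0_pm_123_a k1_pm_123_a

theorem c_pm_123_a : CertB 536870912 536870912 0 536870912 649613803 48318383 3 eng mog cd1q1 cd4q2a pd3 true true false .npn 1 2 3
    ndB1q1 ndB4q2a pcB3 Cut.none Ext.none :=
  certB2 (fam := true) (s1 := true) (s2 := false) (a := 1) (b := 2) (c := 3) (cn := .npn) (n1 := ndB1q1) (n2 := ndB4q2a) (pc := pcB3) (cut := Cut.none) (xt := Ext.none) (P1 := 536870912) (W1 := 536870912) (P2 := 0) (W2 := 536870912) (P3 := 649613803) (W3 := 48318383) (N0 := 3) (En := eng) (mo := mog) (C1 := cd1q1) (C2 := cd4q2a) (C3 := pd3)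
    rfl (fun _ => rfl) s2_pm_123_a

noncomputable def f_pm_123_b : ℕ → ℕ → ℕ → ℕ → Bool := onCell 1610612736 536870912 1239849684 370763052 649613803 48318383
    (rowB 3 eng mog cd1q1 cd4q2b pd3 2 true true false .npn 1 2 3 (qsf 536870912 536870912 1239849684 370763052 3) ndB1q1 ndB4q2b pcB3 Cut.none Ext.none)

def k0_pm_123_b : ∃ t, chk3 f_pm_123_b t 1 1 1 = true :=
  ⟨(b (a (a (l 1) (b (a (b (a (l 16607736) (l 16611760)) (l 1)) (l 16662784)) (a (l 1) (l 16657352)))) (a (a (b (l 16715968) (l 16699744)) (b (b (l 16754888) (l 16735488)) (l 16869736))) (a (a (b (l 16748808) (l 16750960)) (b (l 16785816) (l 16736888))) (a (a (l 16846344) (l 247195882951)) (l 4))))) (a (l 1) (a (a (l 1) (a (l 16750288) (l 16750792))) (a (a (l 16742104) (l 16729328)) (l 4))))), by decide +kernel⟩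

theorem c_pm_123_b : CertB 536870912 536870912 1239849684 370763052 649613803 48318383 3 eng mog cd1q1 cd4q2b pd3 true true false .npn 1 2 3
    ndB1q1 ndB4q2b pcB3 Cut.none Ext.none :=
  certB2 (fam := true) (s1 := true) (s2 := false) (a := 1) (b := 2) (c := 3) (cn := .npn) (n1 := ndB1q1) (n2 := ndB4q2b) (pc := pcB3) (cut := Cut.none) (xt := Ext.none) (P1 := 536870912) (W1 := 536870912) (P2 := 1239849684) (W2 := 370763052) (P3 := 649613803) (W3 := 48318383) (N0 := 3) (En := eng) (mo := mog) (C1 := cd1q1) (C2 := cd4q2b) (C3 := pd3)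
    rfl (fun _ => rfl) k0_pm_123_b

noncomputable def f_pm_133 : ℕ → ℕ → ℕ → ℕ → Bool := onCell 536870912 536870912 1610612736 536870912 649613803 48318383
    (rowB 3 eng mog cd1q1 cd4q3 pd3 0 true true false .dn 1 3 3 (qsf 536870912 536870912 1610612736 536870912 3) ndB1q1 ndB4q3 pcB3 Cut.none Ext.none)

def k0_pm_133 : ∃ t, chk3 f_pm_133 t 1 1 1 = true :=
  ⟨(a (l 4) (l 2)), by decide +kernel⟩

theorem c_pm_133 : CertB 536870912 536870912 1610612736 536870912 649613803 48318383 3 eng mog cd1q1 cd4q3 pd3 true true false .dn 1 3 3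
    ndB1q1 ndB4q3 pcB3 Cut.none Ext.none :=
  certB0 (fam := true) (s1 := true) (s2 := false) (a := 1) (b := 3) (c := 3) (cn := .dn) (n1 := ndB1q1) (n2 := ndB4q3) (pc := pcB3) (cut := Cut.none) (xt := Ext.none) (P1 := 536870912) (W1 := 536870912) (P2 := 1610612736) (W2 := 536870912) (P3 := 649613803) (W3 := 48318383) (N0 := 3) (En := eng) (mo := mog) (C1 := cd1q1) (C2 := cd4q3) (C3 := pd3)
    rfl k0_pm_133

noncomputable def cut_pm_202_a : Cut := Cut.of [[⟨0, 1, 0, 67108864⟩, ⟨1, 0, 0, 67108864⟩, ⟨2, 1, 0, 67108864⟩]]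

noncomputable def f_pm_202_a : ℕ → ℕ → ℕ → ℕ → Bool := onCell 0 536870912 1073741824 536870912 649613803 48318383
    (rowB 3 eng mog cd1q2a cd4q0 pd2 1 true true false .pp 2 0 2 (qsf 0 536870912 0 536870912 2) ndB1q2a ndB4q0 pcB2 cut_pm_202_a Ext.none)

def k0_pm_202_a : ∃ t, chk3 f_pm_202_a t 4 2 1 = true :=
  ⟨(b (l 1) (b (b (b (l 1) (a (b (l 1) (b (l 1) (c (a (l 16441224) (l 16445640)) (l 16447272)))) (b (a (l 1) (a (l 16462240) (l 179347684071))) (c (a (l 16453512) (l 16462280)) (l 16547200))))) (b (a (c (b (a (l 16438704) (l 16442536)) (a (l 16457512) (b (l 16439688) (l 16438472)))) (b (a (l 16440280) (l 16444624)) (a (l 16435888) (l 16438848)))) (c (b (a (l 16449280) (l 16458008)) (a (l 16445672) (l 16454360))) (b (l 16456656) (a (l 16445904) (l 16455128))))) (a (a (l 16441160) (b (c (l 16441328) (l 16439864)) (l 16444144))) (a (c (l 16448840) (l 16447440)) (l 16476544))))) (b (a (b (l 16472248) (l 16460264)) (c (b (a (l 16456704) (l 16463256))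 (l 16468272)) (b (l 16583344) (l 16463872)))) (a (l 16473152) (c (l 16481048) (l 16474040)))))), by decide +kernel⟩

def k1_pm_202_a : ∃ t, chk3 f_pm_202_a t 5 2 1 = true :=
  ⟨(b (b (l 1) (b (l 1) (a (l 1) (b (l 1) (a (l 1) (b (l 1) (c (a (l 481069368903) (b (l 16514912) (l 16517200))) (l 533145856727)))))))) (b (b (a (b (b (l 1) (a (c (l 440267116407) (l 246993573399)) (c (b (a (l 1) (l 16485416)) (l 16411320)) (l 347925328695)))) (b (c (a (l 16476528) (l 16488968)) (a (b (l 16465672) (l 16469672)) (b (l 16478056) (l 16481816)))) (a (c (l 16472896) (l 16475528)) (c (l 16484328) (l 16487312))))) (c (a (c (b (b (l 581464204103) (l 342019874423)) (l 16497904)) (b (b (l 391948772551) (a (l 16450816) (l 16502056))) (l 16499544))) (b (b (a (l 249140951495) (l 16520512)) (l 16517752)) (l 16509256))) (b (a (b (a (l 291017023991) (l 361884004279)) (a (l 16484344) (l 16410176))) (b (a (l 16498376) (l 16447552)) (l 16447808))) (a (b (l 16433328) (l 16501008))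 (l 16513592))))) (a (a (b (c (b (l 16468584) (l 16485848)) (b (l 16472392) (l 16466336))) (c (l 16466904) (l 16466712))) (b (c (b (l 16479896) (l 16476048)) (b (l 16483536) (l 16477368))) (l 16476504))) (b (c (a (b (l 16491392) (l 16487320)) (b (l 16501608) (l 16497176))) (a (b (l 16494064) (l 16487696)) (l 16499216))) (a (l 16486800) (l 16495264))))) (a (b (c (b (l 16477608) (l 16483352)) (b (l 16475608) (l 16479456))) (b (l 16465016) (l 16492208))) (b (c (a (l 16494560) (l 16502648)) (l 16452224)) (a (l 16499976) (l 16505616)))))), by decide +kernel⟩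

def k2_pm_202_a : ∃ t, chk3 f_pm_202_a t 2 3 1 = true :=
  ⟨(b (b (a (b (a (l 16490752) (l 16492160)) (a (l 16510160) (l 16508936))) (a (b (l 16502224) (l 16516472)) (b (l 16491672) (l 16524160)))) (a (b (a (b (l 16526680) (l 16538504)) (b (l 16523392) (l 16534056))) (a (l 16556800) (b (l 16544920) (l 16555944)))) (b (a (l 16533320) (l 16537848)) (a (l 16552600) (l 16554864))))) (b (a (b (a (l 16584352) (l 16576040)) (l 16613960)) (a (b (l 16577496) (l 16606624)) (b (l 16577544) (l 16604264)))) (a (b (l 16648520) (l 16723912)) (b (l 16676880) (l 16665760))))), by decide +kernel⟩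

def k3_pm_202_a : ∃ t, chk3 f_pm_202_a t 3 8 1 = true :=
  ⟨(a (l 1) (b (a (l 1) (l 6)) (b (a (a (l 1) (l 6)) (l 6)) (b (a (a (l 1) (l 6)) (l 6)) (a (a (a (l 1) (a (l 492343891127) (b (l 6) (l 16642464)))) (a (b (l 6) (a (l 16651680) (l 16660984))) (l 16653688))) (a (a (l 16675448) (l 16675800)) (l 16674472))))))), by decide +kernel⟩

def k4_pm_202_a : ∃ t, chk3 f_pm_202_a t 3 9 1 = true :=
  ⟨(a (b (a (l 1) (b (a (l 1) (b (l 1) (a (l 467110868631) (b (l 513281823319) (l 527240477223))))) (a (b (a (l 1) (l 486438192823)) (a (l 508449874455) (b (l 593812415351) (a (l 16574008) (l 16540584))))) (a (b (b (l 512208065543) (c (l 16533136) (l 16587128))) (b (l 16509736) (l 16595272))) (b (c (l 16590528) (l 16540768)) (l 16610704)))))) (a (b (a (b (l 1) (a (l 1) (l 495564901159))) (b (a (l 1) (l 539588386087)) (a (c (l 855268441351) (l 569653132631)) (c (l 16474920) (l 16548776))))) (b (a (c (a (l 559452554503) (b (l 16534504) (l 16537040))) (l 507912962487))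 (b (a (l 16438496) (l 16557872)) (l 16437848))) (a (a (c (b (l 16527128) (l 16529384)) (l 16517560)) (b (l 16535096) (l 16537920))) (l 16554672)))) (b (a (a (b (b (l 595423000855) (l 16482184)) (l 16506416)) (b (l 16476352) (l 16584728))) (b (l 16600824) (l 16589504))) (a (b (l 16572512) (l 16562216)) (l 16573208))))) (b (a (a (b (b (a (b (l 497712574903) (l 536367313799)) (a (b (l 16633896) (l 16613904)) (a (l 16620488) (l 16645952)))) (a (b (c (l 16562744) (l 16618088)) (l 16581408)) (l 16640864))) (b (b (l 16612488) (l 16627680)) (l 16618576))) (b (a (b (l 16657296) (l 16646792)) (l 16654984)) (l 16649800))) (a (b (a (l 16655560) (l 16655728)) (l 16629904)) (a (l 16725848) (l 16702872)))) (a (a (b (l 16600848) (l 16557376)) (b (c (l 16606072) (l 16603984)) (l 16581584))) (a (b (l 16605240) (l 16582128)) (b (l 16603456) (l 16580632)))))), by decide +kernel⟩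

def k5_pm_202_a : ∃ t, chk3 f_pm_202_a t 3 5 1 = true :=
  ⟨(b (a (b (b (a (a (b (a (l 16528504) (l 16539200)) (l 16529648)) (b (l 16545096) (l 16536456))) (a (l 16547504) (l 16521248))) (a (b (a (l 16522408) (l 16528584)) (a (l 16515520) (l 16521248))) (b (a (l 16533664) (l 16538256)) (b (l 16550960) (a (l 16523864) (l 16526912)))))) (a (b (c (a (l 16507992) (l 16514496)) (a (l 16505616) (l 16509376))) (a (l 16501984) (l 16506280))) (b (a (l 16514664) (l 16517064)) (l 16510384)))) (b (b (a (a (l 16557344) (l 16560280)) (a (l 16560856) (l 16560056))) (a (b (l 16544544) (b (l 16537544) (l 16533288))) (b (l 16546544) (a (l 16558928) (l 16601608))))) (a (b (a (l 16520056) (l 16523296)) (l 16513712)) (b (l 16568072) (l 16517088))))) (a (a (b (a (l 16504480) (l 16507560)) (l 16510904)) (b (l 16509952) (l 16510888))) (a (b (l 16510952) (l 16509488)) (b (a (l 16510800) (l 16512208)) (l 16529760))))), by decide +kernel⟩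

def k6_pm_202_a : ∃ t, chk3 f_pm_202_a t 3 3 1 = true :=
  ⟨(b (a (b (a (b (l 16516880) (l 16524984)) (b (l 16513768) (l 16518952))) (a (b (l 16535760) (l 16550856)) (b (l 16527808) (l 16541136)))) (b (a (b (l 16510312) (l 16514152)) (b (l 16508952) (l 16513536))) (a (b (l 16522464) (l 16535168)) (b (l 16523304) (l 16536728))))) (a (b (a (l 16581568) (l 16568168)) (a (b (l 16619672) (l 16644688)) (l 16614792))) (b (a (l 16559912) (l 16562712)) (a (l 16605592) (l 16611520))))), by decide +kernel⟩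

theorem s7_pm_202_a : ∃ t, chk3 f_pm_202_a t 3 4 1 = true := ex3_b k3_pm_202_a k4_pm_202_a

theorem s8_pm_202_a : ∃ t, chk3 f_pm_202_a t 3 2 1 = true := ex3_b s7_pm_202_a k5_pm_202_a

theorem s9_pm_202_a : ∃ t, chk3 f_pm_202_a t 3 1 1 = true := ex3_b s8_pm_202_a k6_pm_202_a

theorem s10_pm_202_a : ∃ t, chk3 f_pm_202_a t 2 2 1 = true := ex3_a k0_pm_202_a k1_pm_202_a

theorem s11_pm_202_a : ∃ t, chk3 f_pm_202_a t 2 1 1 = true := ex3_b s10_pm_202_a k2_pm_202_a

theorem s12_pm_202_a : ∃ t, chk3 f_pm_202_a t 1 1 1 = true := ex3_a s11_pm_202_a s9_pm_202_a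

theorem c_pm_202_a : CertB 0 536870912 0 536870912 649613803 48318383 3 eng mog cd1q2a cd4q0 pd2 true true false .pp 2 0 2
    ndB1q2a ndB4q0 pcB2 cut_pm_202_a Ext.none :=
  certB1 (fam := true) (s1 := true) (s2 := false) (a := 2) (b := 0) (c := 2) (cn := .pp) (n1 := ndB1q2a) (n2 := ndB4q0) (pc := pcB2) (cut := cut_pm_202_a) (xt := Ext.none) (P1 := 0) (W1 := 536870912) (P2 := 0) (W2 := 536870912) (P3 := 649613803) (W3 := 48318383) (N0 := 3) (En := eng) (mo := mog) (C1 := cd1q2a) (C2 := cd4q0) (C3 := pd2)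
    rfl (fun _ => rfl) s12_pm_202_a

noncomputable def cut_pm_202_b : Cut := Cut.of [[⟨0, 1, 0, 67108864⟩, ⟨1, 0, 0, 67108864⟩, ⟨2, 1, 0, 67108864⟩]]

noncomputable def f_pm_202_b : ℕ → ℕ → ℕ → ℕ → Bool := onCell 1073741824 536870912 0 536870912 649613803 48318383
    (rowB 3 eng mog cd1q2b cd4q0 pd2 2 true true false .pp 2 0 2 (qsf 1239849684 370763052 0 536870912 2) ndB1q2b ndB4q0 pcB2 cut_pm_202_b Ext.none)

def k0_pm_202_b : ∃ t, chk3 f_pm_202_b t 1 1 1 = true :=
  ⟨(a (b (a (l 1) (b (a (b (a (b (a (l 1) (c (b (l 16470040) (l 1)) (l 25265934087))) (l 1)) (a (b (c (b (a (l 16443128) (l 16426000)) (l 16465488)) (b (l 16414160) (l 16463504))) (l 1)) (b (c (b (l 16407976) (l 16440408)) (l 16403056)) (l 342019543703)))) (l 1)) (a (b (b (b (l 16265176) (l 16404552)) (a (l 219076200823) (l 16441904))) (b (l 413423492359) (l 1))) (b (b (b (l 16301448) (l 16341832)) (l 16402000)) (b (l 176663529367) (l 359736426647))))) (l 1))) (l 1)) (a (b (b (a (b (b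 (b (l 16218432) (l 16256752)) (l 16314768)) (b (l 16390496) (a (l 236793072855) (l 16437832)))) (a (b (b (l 16173928) (l 16245800)) (b (l 16318312) (l 16387784))) (b (l 16241384) (l 16316560)))) (a (b (a (b (l 362957851095) (l 1)) (b (l 222297550679) (l 317860673303))) (l 1)) (b (a (a (l 153041238135) (l 16487512)) (l 16443096)) (a (b (l 355978681959) (l 1)) (b (l 16560232) (l 468184784215)))))) (l 1)) (b (b (b (a (b (l 16118824) (l 16178248)) (b (l 16112264) (l 16161448))) (a (a (l 16288224) (l 16266424)) (l 16245816))) (a (b (l 16401776) (a (l 16595288) (l 16500456))) (b (l 16361176) (a (l 16472688) (l 16458592))))) (b (a (b (a (l 359199838967) (l 286185422023)) (l 1)) (b (a (l 16628504) (l 4)) (l 4))) (l 1))))), by decide +kernel⟩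

theorem c_pm_202_b : CertB 1239849684 370763052 0 536870912 649613803 48318383 3 eng mog cd1q2b cd4q0 pd2 true true false .pp 2 0 2
    ndB1q2b ndB4q0 pcB2 cut_pm_202_b Ext.none :=
  certB2 (fam := true) (s1 := true) (s2 := false) (a := 2) (b := 0) (c := 2) (cn := .pp) (n1 := ndB1q2b) (n2 := ndB4q0) (pc := pcB2) (cut := cut_pm_202_b) (xt := Ext.none) (P1 := 1239849684) (W1 := 370763052) (P2 := 0) (W2 := 536870912) (P3 := 649613803) (W3 := 48318383) (N0 := 3) (En := eng) (mo := mog) (C1 := cd1q2b) (C2 := cd4q0) (C3 := pd2)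
    rfl (fun _ => rfl) k0_pm_202_b

noncomputable def f_pm_203_a : ℕ → ℕ → ℕ → ℕ → Bool := onCell 0 536870912 1610612736 536870912 649613803 48318383
    (rowB 3 eng mog cd1q2a cd4q0 pd3 1 true true false .up 2 0 3 (qsf 0 536870912 0 536870912 3) ndB1q2a ndB4q0 pcB3 Cut.none Ext.none)

def k0_pm_203_a : ∃ t, chk3 f_pm_203_a t 1 1 1 = true :=
  ⟨(b (b (a (b (b (a (l 16710216) (l 16695552)) (a (l 4) (l 16723648))) (a (l 4) (l 16760792))) (b (a (b (l 16675928) (l 16719112)) (l 16725816)) (a (l 16783104) (l 16870432)))) (a (l 4) (a (l 2) (l 2)))) (l 2)), by decide +kernel⟩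

theorem c_pm_203_a : CertB 0 536870912 0 536870912 649613803 48318383 3 eng mog cd1q2a cd4q0 pd3 true true false .up 2 0 3
    ndB1q2a ndB4q0 pcB3 Cut.none Ext.none :=
  certB1 (fam := true) (s1 := true) (s2 := false) (a := 2) (b := 0) (c := 3) (cn := .up) (n1 := ndB1q2a) (n2 := ndB4q0) (pc := pcB3) (cut := Cut.none) (xt := Ext.none) (P1 := 0) (W1 := 536870912) (P2 := 0) (W2 := 536870912) (P3 := 649613803) (W3 := 48318383) (N0 := 3) (En := eng) (mo := mog) (C1 := cd1q2a) (C2 := cd4q0) (C3 := pd3)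
    rfl (fun _ => rfl) k0_pm_203_a

noncomputable def f_pm_203_b : ℕ → ℕ → ℕ → ℕ → Bool := onCell 1239849684 370763052 1610612736 536870912 649613803 48318383
    (rowB 3 eng mog cd1q2b cd4q0 pd3 1 true true false .up 2 0 3 (qsf 1239849684 370763052 0 536870912 3) ndB1q2b ndB4q0 pcB3 Cut.none Ext.none)

def k0_pm_203_b : ∃ t, chk3 f_pm_203_b t 1 1 1 = true :=
  ⟨(b (b (a (b (a (l 4) (b (l 16470920) (l 4))) (l 4)) (b (a (b (l 16319624) (l 16367032)) (b (l 16169912) (l 16210160))) (a (l 4) (l 16419888)))) (l 4)) (l 4)), by decide +kernel⟩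

theorem c_pm_203_b : CertB 1239849684 370763052 0 536870912 649613803 48318383 3 eng mog cd1q2b cd4q0 pd3 true true false .up 2 0 3
    ndB1q2b ndB4q0 pcB3 Cut.none Ext.none :=
  certB1 (fam := true) (s1 := true) (s2 := false) (a := 2) (b := 0) (c := 3) (cn := .up) (n1 := ndB1q2b) (n2 := ndB4q0) (pc := pcB3) (cut := Cut.none) (xt := Ext.none) (P1 := 1239849684) (W1 := 370763052) (P2 := 0) (W2 := 536870912) (P3 := 649613803) (W3 := 48318383) (N0 := 3) (En := eng) (mo := mog) (C1 := cd1q2b) (C2 := cd4q0) (C3 := pd3)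
    rfl (fun _ => rfl) k0_pm_203_b

noncomputable def f_pm_213_a : ℕ → ℕ → ℕ → ℕ → Bool := onCell 0 536870912 1610612736 536870912 649613803 48318383
    (rowB 3 eng mog cd1q2a cd4q1 pd3 1 true true false .pnn 2 1 3 (qsf 0 536870912 536870912 536870912 3) ndB1q2a ndB4q1 pcB3 Cut.none Ext.none)

def k0_pm_213_a : ∃ t, chk3 f_pm_213_a t 1 1 1 = true :=
  ⟨(a (b (b (b (l 1) (a (l 1) (l 482680218583))) (l 4)) (l 4)) (b (b (b (a (l 1) (l 16852592)) (a (l 344167426919) (l 16864968))) (b (a (l 16686408) (l 16789840)) (a (l 4) (l 16722144)))) (b (l 4) (l 4)))), by decide +kernel⟩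

theorem c_pm_213_a : CertB 0 536870912 536870912 536870912 649613803 48318383 3 eng mog cd1q2a cd4q1 pd3 true true false .pnn 2 1 3
    ndB1q2a ndB4q1 pcB3 Cut.none Ext.none :=
  certB1 (fam := true) (s1 := true) (s2 := false) (a := 2) (b := 1) (c := 3) (cn := .pnn) (n1 := ndB1q2a) (n2 := ndB4q1) (pc := pcB3) (cut := Cut.none) (xt := Ext.none) (P1 := 0) (W1 := 536870912) (P2 := 536870912) (W2 := 536870912) (P3 := 649613803) (W3 := 48318383) (N0 := 3) (En := eng) (mo := mog) (C1 := cd1q2a) (C2 := cd4q1) (C3 := pd3)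
    rfl (fun _ => rfl) k0_pm_213_a

noncomputable def f_pm_213_b : ℕ → ℕ → ℕ → ℕ → Bool := onCell 1239849684 370763052 536870912 536870912 649613803 48318383
    (rowB 3 eng mog cd1q2b cd4q1 pd3 0 true true false .pnn 2 1 3 (qsf 1239849684 370763052 536870912 536870912 3) ndB1q2b ndB4q1 pcB3 Cut.none Ext.none)

def k0_pm_213_b : ∃ t, chk3 f_pm_213_b t 1 1 1 = true :=
  ⟨(l 4), by decide +kernel⟩

theorem c_pm_213_b : CertB 1239849684 370763052 536870912 536870912 649613803 48318383 3 eng mog cd1q2b cd4q1 pd3 true true false .pnn 2 1 3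
    ndB1q2b ndB4q1 pcB3 Cut.none Ext.none :=
  certB0 (fam := true) (s1 := true) (s2 := false) (a := 2) (b := 1) (c := 3) (cn := .pnn) (n1 := ndB1q2b) (n2 := ndB4q1) (pc := pcB3) (cut := Cut.none) (xt := Ext.none) (P1 := 1239849684) (W1 := 370763052) (P2 := 536870912) (W2 := 536870912) (P3 := 649613803) (W3 := 48318383) (N0 := 3) (En := eng) (mo := mog) (C1 := cd1q2b) (C2 := cd4q1) (C3 := pd3)
    rfl k0_pm_213_b

noncomputable def f_pm_303 : ℕ → ℕ → ℕ → ℕ → Bool := onCell 1610612736 536870912 0 536870912 649613803 48318383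
    (rowB 3 eng mog cd1q3 cd4q0 pd3 2 true true false .npn 3 0 3 (qsf 1610612736 536870912 0 536870912 3) ndB1q3 ndB4q0 pcB3 Cut.none Ext.none)

def k0_pm_303 : ∃ t, chk3 f_pm_303 t 1 1 1 = true :=
  ⟨(b (a (a (b (a (b (l 16100456) (l 16207776)) (b (l 16083640) (l 16196896))) (a (l 1) (l 4))) (b (a (b (l 16157984) (l 4)) (l 4)) (l 4))) (l 4)) (l 4)), by decide +kernel⟩

theorem c_pm_303 : CertB 1610612736 536870912 0 536870912 649613803 48318383 3 eng mog cd1q3 cd4q0 pd3 true true false .npn 3 0 3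
    ndB1q3 ndB4q0 pcB3 Cut.none Ext.none :=
  certB2 (fam := true) (s1 := true) (s2 := false) (a := 3) (b := 0) (c := 3) (cn := .npn) (n1 := ndB1q3) (n2 := ndB4q0) (pc := pcB3) (cut := Cut.none) (xt := Ext.none) (P1 := 1610612736) (W1 := 536870912) (P2 := 0) (W2 := 536870912) (P3 := 649613803) (W3 := 48318383) (N0 := 3) (En := eng) (mo := mog) (C1 := cd1q3) (C2 := cd4q0) (C3 := pd3)
    rfl (fun _ => rfl) k0_pm_303

noncomputable def f_pm_313 : ℕ → ℕ → ℕ → ℕ → Bool := onCell 1610612736 536870912 536870912 536870912 649613803 48318383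
    (rowB 3 eng mog cd1q3 cd4q1 pd3 0 true true false .dn 3 1 3 (qsf 1610612736 536870912 536870912 536870912 3) ndB1q3 ndB4q1 pcB3 Cut.none Ext.none)

def k0_pm_313 : ∃ t, chk3 f_pm_313 t 1 1 1 = true :=
  ⟨(l 4), by decide +kernel⟩

theorem c_pm_313 : CertB 1610612736 536870912 536870912 536870912 649613803 48318383 3 eng mog cd1q3 cd4q1 pd3 true true false .dn 3 1 3
    ndB1q3 ndB4q1 pcB3 Cut.none Ext.none :=
  certB0 (fam := true) (s1 := true) (s2 := false) (a := 3) (b := 1) (c := 3) (cn := .dn) (n1 := ndB1q3) (n2 := ndB4q1) (pc := pcB3) (cut := Cut.none) (xt := Ext.none) (P1 := 1610612736) (W1 := 536870912) (P2 := 536870912) (W2 := 536870912) (P3 := 649613803) (W3 := 48318383) (N0 := 3) (En := eng) (mo := mog) (C1 := cd1q3) (C2 := cd4q1) (C3 := pd3)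
    rfl k0_pm_313

noncomputable def f_mm_001 : ℕ → ℕ → ℕ → ℕ → Bool := onCell 0 536870912 0 536870912 649613803 48318383
    (rowB 3 eng mog cd1q0 cd4q0 pd1 0 true false false .up 0 0 1 (qsf 0 536870912 0 536870912 1) ndB1q0 ndB4q0 pcB1 Cut.none Ext.none)

def k0_mm_001 : ∃ t, chk3 f_mm_001 t 1 1 1 = true :=
  ⟨(l 4), by decide +kernel⟩

theorem c_mm_001 : CertB 0 536870912 0 536870912 649613803 48318383 3 eng mog cd1q0 cd4q0 pd1 true false false .up 0 0 1
    ndB1q0 ndB4q0 pcB1 Cut.none Ext.none :=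
  certB0 (fam := true) (s1 := false) (s2 := false) (a := 0) (b := 0) (c := 1) (cn := .up) (n1 := ndB1q0) (n2 := ndB4q0) (pc := pcB1) (cut := Cut.none) (xt := Ext.none) (P1 := 0) (W1 := 536870912) (P2 := 0) (W2 := 536870912) (P3 := 649613803) (W3 := 48318383) (N0 := 3) (En := eng) (mo := mog) (C1 := cd1q0) (C2 := cd4q0) (C3 := pd1)
    rfl k0_mm_001

noncomputable def f_mm_011 : ℕ → ℕ → ℕ → ℕ → Bool := onCell 0 536870912 536870912 536870912 649613803 48318383
    (rowB 3 eng mog cd1q0 cd4q1 pd1 0 true false false .pnn 0 1 1 (qsf 0 536870912 536870912 536870912 1) ndB1q0 ndB4q1 pcB1 Cut.none Ext.none)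

def k0_mm_011 : ∃ t, chk3 f_mm_011 t 1 1 1 = true :=
  ⟨(l 4), by decide +kernel⟩

theorem c_mm_011 : CertB 0 536870912 536870912 536870912 649613803 48318383 3 eng mog cd1q0 cd4q1 pd1 true false false .pnn 0 1 1
    ndB1q0 ndB4q1 pcB1 Cut.none Ext.none :=
  certB0 (fam := true) (s1 := false) (s2 := false) (a := 0) (b := 1) (c := 1) (cn := .pnn) (n1 := ndB1q0) (n2 := ndB4q1) (pc := pcB1) (cut := Cut.none) (xt := Ext.none) (P1 := 0) (W1 := 536870912) (P2 := 536870912) (W2 := 536870912) (P3 := 649613803) (W3 := 48318383) (N0 := 3) (En := eng) (mo := mog) (C1 := cd1q0) (C2 := cd4q1) (C3 := pd1)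
    rfl k0_mm_011

noncomputable def f_mm_012 : ℕ → ℕ → ℕ → ℕ → Bool := onCell 0 536870912 536870912 536870912 649613803 48318383
    (rowB 3 eng mog cd1q0 cd4q1 pd2 0 true false false .pnp 0 1 2 (qsf 0 536870912 536870912 536870912 2) ndB1q0 ndB4q1 pcB2 Cut.none Ext.none)

def k0_mm_012 : ∃ t, chk3 f_mm_012 t 1 1 1 = true :=
  ⟨(l 4), by decide +kernel⟩

theorem c_mm_012 : CertB 0 536870912 536870912 536870912 649613803 48318383 3 eng mog cd1q0 cd4q1 pd2 true false false .pnp 0 1 2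
    ndB1q0 ndB4q1 pcB2 Cut.none Ext.none :=
  certB0 (fam := true) (s1 := false) (s2 := false) (a := 0) (b := 1) (c := 2) (cn := .pnp) (n1 := ndB1q0) (n2 := ndB4q1) (pc := pcB2) (cut := Cut.none) (xt := Ext.none) (P1 := 0) (W1 := 536870912) (P2 := 536870912) (W2 := 536870912) (P3 := 649613803) (W3 := 48318383) (N0 := 3) (En := eng) (mo := mog) (C1 := cd1q0) (C2 := cd4q1) (C3 := pd2)
    rfl k0_mm_012

noncomputable def f_mm_022_a : ℕ → ℕ → ℕ → ℕ → Bool := onCell 0 536870912 0 536870912 649613803 48318383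
    (rowB 3 eng mog cd1q0 cd4q2a pd2 0 true false false .pp 0 2 2 (qsf 0 536870912 0 536870912 2) ndB1q0 ndB4q2a pcB2 Cut.none Ext.none)

def k0_mm_022_a : ∃ t, chk3 f_mm_022_a t 1 1 1 = true :=
  ⟨(l 5), by decide +kernel⟩

theorem c_mm_022_a : CertB 0 536870912 0 536870912 649613803 48318383 3 eng mog cd1q0 cd4q2a pd2 true false false .pp 0 2 2
    ndB1q0 ndB4q2a pcB2 Cut.none Ext.none :=
  certB0 (fam := true) (s1 := false) (s2 := false) (a := 0) (b := 2) (c := 2) (cn := .pp) (n1 := ndB1q0) (n2 := ndB4q2a) (pc := pcB2) (cut := Cut.none) (xt := Ext.none) (P1 := 0) (W1 := 536870912) (P2 := 0) (W2 := 536870912) (P3 := 649613803) (W3 := 48318383) (N0 := 3) (En := eng) (mo := mog) (C1 := cd1q0) (C2 := cd4q2a) (C3 := pd2)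
    rfl k0_mm_022_a

noncomputable def f_mm_022_b : ℕ → ℕ → ℕ → ℕ → Bool := onCell 0 536870912 1239849684 370763052 649613803 48318383
    (rowB 3 eng mog cd1q0 cd4q2b pd2 0 true false false .pp 0 2 2 (qsf 0 536870912 1239849684 370763052 2) ndB1q0 ndB4q2b pcB2 Cut.none Ext.none)

def k0_mm_022_b : ∃ t, chk3 f_mm_022_b t 1 1 1 = true :=
  ⟨(l 5), by decide +kernel⟩

theorem c_mm_022_b : CertB 0 536870912 1239849684 370763052 649613803 48318383 3 eng mog cd1q0 cd4q2b pd2 true false false .pp 0 2 2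
    ndB1q0 ndB4q2b pcB2 Cut.none Ext.none :=
  certB0 (fam := true) (s1 := false) (s2 := false) (a := 0) (b := 2) (c := 2) (cn := .pp) (n1 := ndB1q0) (n2 := ndB4q2b) (pc := pcB2) (cut := Cut.none) (xt := Ext.none) (P1 := 0) (W1 := 536870912) (P2 := 1239849684) (W2 := 370763052) (P3 := 649613803) (W3 := 48318383) (N0 := 3) (En := eng) (mo := mog) (C1 := cd1q0) (C2 := cd4q2b) (C3 := pd2)
    rfl k0_mm_022_b

noncomputable def f_mm_023_a : ℕ → ℕ → ℕ → ℕ → Bool := onCell 0 536870912 0 536870912 649613803 48318383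
    (rowB 3 eng mog cd1q0 cd4q2a pd3 0 true false false .up 0 2 3 (qsf 0 536870912 0 536870912 3) ndB1q0 ndB4q2a pcB3 Cut.none Ext.none)

def k0_mm_023_a : ∃ t, chk3 f_mm_023_a t 1 1 1 = true :=
  ⟨(l 5), by decide +kernel⟩

theorem c_mm_023_a : CertB 0 536870912 0 536870912 649613803 48318383 3 eng mog cd1q0 cd4q2a pd3 true false false .up 0 2 3
    ndB1q0 ndB4q2a pcB3 Cut.none Ext.none :=
  certB0 (fam := true) (s1 := false) (s2 := false) (a := 0) (b := 2) (c := 3) (cn := .up) (n1 := ndB1q0) (n2 := ndB4q2a) (pc := pcB3) (cut := Cut.none) (xt := Ext.none) (P1 := 0) (W1 := 536870912) (P2 := 0) (W2 := 536870912) (P3 := 649613803) (W3 := 48318383) (N0 := 3) (En := eng) (mo := mog) (C1 := cd1q0) (C2 := cd4q2a) (C3 := pd3)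
    rfl k0_mm_023_a

noncomputable def f_mm_023_b : ℕ → ℕ → ℕ → ℕ → Bool := onCell 0 536870912 1239849684 370763052 649613803 48318383
    (rowB 3 eng mog cd1q0 cd4q2b pd3 0 true false false .up 0 2 3 (qsf 0 536870912 1239849684 370763052 3) ndB1q0 ndB4q2b pcB3 Cut.none Ext.none)

def k0_mm_023_b : ∃ t, chk3 f_mm_023_b t 1 1 1 = true :=
  ⟨(l 5), by decide +kernel⟩

theorem c_mm_023_b : CertB 0 536870912 1239849684 370763052 649613803 48318383 3 eng mog cd1q0 cd4q2b pd3 true false false .up 0 2 3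
    ndB1q0 ndB4q2b pcB3 Cut.none Ext.none :=
  certB0 (fam := true) (s1 := false) (s2 := false) (a := 0) (b := 2) (c := 3) (cn := .up) (n1 := ndB1q0) (n2 := ndB4q2b) (pc := pcB3) (cut := Cut.none) (xt := Ext.none) (P1 := 0) (W1 := 536870912) (P2 := 1239849684) (W2 := 370763052) (P3 := 649613803) (W3 := 48318383) (N0 := 3) (En := eng) (mo := mog) (C1 := cd1q0) (C2 := cd4q2b) (C3 := pd3)
    rfl k0_mm_023_b

noncomputable def f_mm_033 : ℕ → ℕ → ℕ → ℕ → Bool := onCell 0 536870912 1610612736 536870912 649613803 48318383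
    (rowB 3 eng mog cd1q0 cd4q3 pd3 0 true false false .pnn 0 3 3 (qsf 0 536870912 1610612736 536870912 3) ndB1q0 ndB4q3 pcB3 Cut.none Ext.none)

def k0_mm_033 : ∃ t, chk3 f_mm_033 t 1 1 1 = true :=
  ⟨(l 4), by decide +kernel⟩

theorem c_mm_033 : CertB 0 536870912 1610612736 536870912 649613803 48318383 3 eng mog cd1q0 cd4q3 pd3 true false false .pnn 0 3 3
    ndB1q0 ndB4q3 pcB3 Cut.none Ext.none :=
  certB0 (fam := true) (s1 := false) (s2 := false) (a := 0) (b := 3) (c := 3) (cn := .pnn) (n1 := ndB1q0) (n2 := ndB4q3) (pc := pcB3) (cut := Cut.none) (xt := Ext.none) (P1 := 0) (W1 := 536870912) (P2 := 1610612736) (W2 := 536870912) (P3 := 649613803) (W3 := 48318383) (N0 := 3) (En := eng) (mo := mog) (C1 := cd1q0) (C2 := cd4q3) (C3 := pd3)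
    rfl k0_mm_033

noncomputable def f_mm_101 : ℕ → ℕ → ℕ → ℕ → Bool := onCell 536870912 536870912 0 536870912 649613803 48318383
    (rowB 3 eng mog cd1q1 cd4q0 pd1 0 true false false .npn 1 0 1 (qsf 536870912 536870912 0 536870912 1) ndB1q1 ndB4q0 pcB1 Cut.none Ext.none)

def k0_mm_101 : ∃ t, chk3 f_mm_101 t 1 1 1 = true :=
  ⟨(a (l 4) (l 4)), by decide +kernel⟩

theorem c_mm_101 : CertB 536870912 536870912 0 536870912 649613803 48318383 3 eng mog cd1q1 cd4q0 pd1 true false false .npn 1 0 1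
    ndB1q1 ndB4q0 pcB1 Cut.none Ext.none :=
  certB0 (fam := true) (s1 := false) (s2 := false) (a := 1) (b := 0) (c := 1) (cn := .npn) (n1 := ndB1q1) (n2 := ndB4q0) (pc := pcB1) (cut := Cut.none) (xt := Ext.none) (P1 := 536870912) (W1 := 536870912) (P2 := 0) (W2 := 536870912) (P3 := 649613803) (W3 := 48318383) (N0 := 3) (En := eng) (mo := mog) (C1 := cd1q1) (C2 := cd4q0) (C3 := pd1)
    rfl k0_mm_101

noncomputable def f_mm_102 : ℕ → ℕ → ℕ → ℕ → Bool := onCell 536870912 536870912 0 536870912 649613803 48318383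
    (rowB 3 eng mog cd1q1 cd4q0 pd2 0 true false false .npp 1 0 2 (qsf 536870912 536870912 0 536870912 2) ndB1q1 ndB4q0 pcB2 Cut.none Ext.none)

def k0_mm_102 : ∃ t, chk3 f_mm_102 t 1 1 1 = true :=
  ⟨(b (l 4) (l 4)), by decide +kernel⟩

theorem c_mm_102 : CertB 536870912 536870912 0 536870912 649613803 48318383 3 eng mog cd1q1 cd4q0 pd2 true false false .npp 1 0 2
    ndB1q1 ndB4q0 pcB2 Cut.none Ext.none :=
  certB0 (fam := true) (s1 := false) (s2 := false) (a := 1) (b := 0) (c := 2) (cn := .npp) (n1 := ndB1q1) (n2 := ndB4q0) (pc := pcB2) (cut := Cut.none) (xt := Ext.none) (P1 := 536870912) (W1 := 536870912) (P2 := 0) (W2 := 536870912) (P3 := 649613803) (W3 := 48318383) (N0 := 3) (En := eng) (mo := mog) (C1 := cd1q1) (C2 := cd4q0) (C3 := pd2)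
    rfl k0_mm_102

noncomputable def f_mm_112 : ℕ → ℕ → ℕ → ℕ → Bool := onCell 536870912 536870912 536870912 536870912 649613803 48318383
    (rowB 3 eng mog cd1q1 cd4q1 pd2 0 true false false .dn 1 1 2 (qsf 536870912 536870912 536870912 536870912 2) ndB1q1 ndB4q1 pcB2 Cut.none Ext.none)

def k0_mm_112 : ∃ t, chk3 f_mm_112 t 1 1 1 = true :=
  ⟨(l 4), by decide +kernel⟩

theorem c_mm_112 : CertB 536870912 536870912 536870912 536870912 649613803 48318383 3 eng mog cd1q1 cd4q1 pd2 true false false .dn 1 1 2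
    ndB1q1 ndB4q1 pcB2 Cut.none Ext.none :=
  certB0 (fam := true) (s1 := false) (s2 := false) (a := 1) (b := 1) (c := 2) (cn := .dn) (n1 := ndB1q1) (n2 := ndB4q1) (pc := pcB2) (cut := Cut.none) (xt := Ext.none) (P1 := 536870912) (W1 := 536870912) (P2 := 536870912) (W2 := 536870912) (P3 := 649613803) (W3 := 48318383) (N0 := 3) (En := eng) (mo := mog) (C1 := cd1q1) (C2 := cd4q1) (C3 := pd2)
    rfl k0_mm_112

noncomputable def f_mm_113 : ℕ → ℕ → ℕ → ℕ → Bool := onCell 536870912 536870912 536870912 536870912 649613803 48318383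
    (rowB 3 eng mog cd1q1 cd4q1 pd3 0 true false false .nn 1 1 3 (qsf 536870912 536870912 536870912 536870912 3) ndB1q1 ndB4q1 pcB3 Cut.none Ext.none)

def k0_mm_113 : ∃ t, chk3 f_mm_113 t 1 1 1 = true :=
  ⟨(l 4), by decide +kernel⟩

theorem c_mm_113 : CertB 536870912 536870912 536870912 536870912 649613803 48318383 3 eng mog cd1q1 cd4q1 pd3 true false false .nn 1 1 3
    ndB1q1 ndB4q1 pcB3 Cut.none Ext.none :=
  certB0 (fam := true) (s1 := false) (s2 := false) (a := 1) (b := 1) (c := 3) (cn := .nn) (n1 := ndB1q1) (n2 := ndB4q1) (pc := pcB3) (cut := Cut.none) (xt := Ext.none) (P1 := 536870912) (W1 := 536870912) (P2 := 536870912) (W2 := 536870912) (P3 := 649613803) (W3 := 48318383) (N0 := 3) (En := eng) (mo := mog) (C1 := cd1q1) (C2 := cd4q1) (C3 := pd3)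
    rfl k0_mm_113

noncomputable def f_mm_123_a : ℕ → ℕ → ℕ → ℕ → Bool := onCell 536870912 536870912 0 536870912 649613803 48318383
    (rowB 3 eng mog cd1q1 cd4q2a pd3 0 true false false .npn 1 2 3 (qsf 536870912 536870912 0 536870912 3) ndB1q1 ndB4q2a pcB3 Cut.none Ext.none)

def k0_mm_123_a : ∃ t, chk3 f_mm_123_a t 1 1 1 = true :=
  ⟨(l 4), by decide +kernel⟩

theorem c_mm_123_a : CertB 536870912 536870912 0 536870912 649613803 48318383 3 eng mog cd1q1 cd4q2a pd3 true false false .npn 1 2 3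
    ndB1q1 ndB4q2a pcB3 Cut.none Ext.none :=
  certB0 (fam := true) (s1 := false) (s2 := false) (a := 1) (b := 2) (c := 3) (cn := .npn) (n1 := ndB1q1) (n2 := ndB4q2a) (pc := pcB3) (cut := Cut.none) (xt := Ext.none) (P1 := 536870912) (W1 := 536870912) (P2 := 0) (W2 := 536870912) (P3 := 649613803) (W3 := 48318383) (N0 := 3) (En := eng) (mo := mog) (C1 := cd1q1) (C2 := cd4q2a) (C3 := pd3)
    rfl k0_mm_123_a

noncomputable def f_mm_123_b : ℕ → ℕ → ℕ → ℕ → Bool := onCell 536870912 536870912 1239849684 370763052 649613803 48318383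
    (rowB 3 eng mog cd1q1 cd4q2b pd3 0 true false false .npn 1 2 3 (qsf 536870912 536870912 1239849684 370763052 3) ndB1q1 ndB4q2b pcB3 Cut.none Ext.none)

def k0_mm_123_b : ∃ t, chk3 f_mm_123_b t 1 1 1 = true :=
  ⟨(l 4), by decide +kernel⟩

theorem c_mm_123_b : CertB 536870912 536870912 1239849684 370763052 649613803 48318383 3 eng mog cd1q1 cd4q2b pd3 true false false .npn 1 2 3
    ndB1q1 ndB4q2b pcB3 Cut.none Ext.none :=
  certB0 (fam := true) (s1 := false) (s2 := false) (a := 1) (b := 2) (c := 3) (cn := .npn) (n1 := ndB1q1) (n2 := ndB4q2b) (pc := pcB3) (cut := Cut.none) (xt := Ext.none) (P1 := 536870912) (W1 := 536870912) (P2 := 1239849684) (W2 := 370763052) (P3 := 649613803) (W3 := 48318383) (N0 := 3) (En := eng) (mo := mog) (C1 := cd1q1) (C2 := cd4q2b) (C3 := pd3)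
    rfl k0_mm_123_b

noncomputable def f_mm_133 : ℕ → ℕ → ℕ → ℕ → Bool := onCell 536870912 536870912 1610612736 536870912 649613803 48318383
    (rowB 3 eng mog cd1q1 cd4q3 pd3 0 true false false .dn 1 3 3 (qsf 536870912 536870912 1610612736 536870912 3) ndB1q1 ndB4q3 pcB3 Cut.none Ext.none)

def k0_mm_133 : ∃ t, chk3 f_mm_133 t 1 1 1 = true :=
  ⟨(l 4), by decide +kernel⟩

theorem c_mm_133 : CertB 536870912 536870912 1610612736 536870912 649613803 48318383 3 eng mog cd1q1 cd4q3 pd3 true false false .dn 1 3 3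
    ndB1q1 ndB4q3 pcB3 Cut.none Ext.none :=
  certB0 (fam := true) (s1 := false) (s2 := false) (a := 1) (b := 3) (c := 3) (cn := .dn) (n1 := ndB1q1) (n2 := ndB4q3) (pc := pcB3) (cut := Cut.none) (xt := Ext.none) (P1 := 536870912) (W1 := 536870912) (P2 := 1610612736) (W2 := 536870912) (P3 := 649613803) (W3 := 48318383) (N0 := 3) (En := eng) (mo := mog) (C1 := cd1q1) (C2 := cd4q3) (C3 := pd3)
    rfl k0_mm_133

noncomputable def cut_mm_202_a : Cut := Cut.of [[⟨0, 1, 0, 67108864⟩, ⟨1, 0, 0, 67108864⟩, ⟨2, 1, 0, 67108864⟩]]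

noncomputable def f_mm_202_a : ℕ → ℕ → ℕ → ℕ → Bool := onCell 0 536870912 0 536870912 649613803 48318383
    (rowB 3 eng mog cd1q2a cd4q0 pd2 0 true false false .pp 2 0 2 (qsf 0 536870912 0 536870912 2) ndB1q2a ndB4q0 pcB2 cut_mm_202_a Ext.none)

def k0_mm_202_a : ∃ t, chk3 f_mm_202_a t 2 2 1 = true :=
  ⟨(b (b (a (b (b (c (a (a (l 16442216) (l 16445672)) (a (l 16451176) (l 16458688))) (a (l 16454424) (l 16456984))) (a (b (l 16466856) (l 16451456)) (a (l 16476128) (a (l 16459792) (l 16505488))))) (a (b (l 16459704) (l 16470288)) (a (l 16451048) (l 16520376)))) (b (b (a (a (b (a (l 16464008) (l 16468992)) (l 16488232)) (b (a (l 16475288) (l 16482136)) (l 16479624))) (a (b (a (l 16489728) (l 16498616)) (l 16495296)) (b (a (l 16508600) (c (l 16519688) (l 16519568))) (a (l 16509832) (l 16520720))))) (a (a (b (l 16468760) (l 16471872)) (l 16503448)) (a (b (l 16497176) (l 16499784)) (b (l 16517344) (l 16520136))))) (a (b (a (l 16480424) (l 16491152)) (l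 16498032)) (a (b (l 16568760) (l 16517640)) (b (a (l 16520104) (l 16531176)) (l 16536520)))))) (a (b (a (l 16486576) (l 16498680)) (l 16496264)) (b (a (l 16558544) (b (l 16540072) (l 16553200))) (a (l 16542912) (l 16784472))))) (b (a (b (l 16543736) (a (l 16563176) (l 16581216))) (b (a (l 16572168) (l 16732576)) (a (l 16604176) (l 4)))) (a (b (a (l 16593040) (l 16612544)) (a (l 16624264) (l 4))) (l 4)))), by decide +kernel⟩

def k1_mm_202_a : ∃ t, chk3 f_mm_202_a t 3 2 1 = true :=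
  ⟨(b (a (b (b (a (b (a (b (a (c (l 16531200) (l 16531528)) (l 16543920)) (a (l 16532544) (l 16545336))) (b (a (l 16526160) (b (l 16567120) (l 16572288))) (l 16566280))) (a (b (l 16562104) (l 16544064)) (a (l 16562736) (l 16577168)))) (b (b (a (b (a (l 16577376) (l 16588104)) (l 16588696)) (b (a (l 16599616) (l 16613208)) (a (l 16605968) (l 16619816)))) (a (l 16596000) (a (l 16615152) (l 16629384)))) (a (l 16599664) (b (l 16629896) (l 16632824))))) (a (b (a (l 16549744) (b (l 16575280) (l 16579672))) (a (l 16664696) (l 16587400))) (b (a (l 16607144) (l 16638632)) (a (l 16659328) (l 16650592))))) (a (b (b (a (l 16572520) (l 16725824)) (l 16768328)) (b (l 16700272) (l 4))) (b (b (a (l 16631344) (l 4)) (l 4)) (l 4)))) (b (a (b (b (b (a (a (b (l 16648672) (l 16634576)) (b (b (l 16662216) (l 16644864)) (l 16650208))) (a (b (l 6) (l 16688672)) (l 6))) (a (a (l 16644528) (l 16660560)) (a (l 16678416) (l 16708024)))) (a (b (l 16661752) (l 16664448)) (b (a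 (l 16686040) (l 16702488)) (l 16729840)))) (b (a (b (l 16668440) (l 16674552)) (b (l 16704976) (l 4))) (l 4))) (b (a (b (l 6) (b (l 6) (l 4))) (l 6)) (l 4))) (l 4))) (l 4)), by decide +kernel⟩

def k2_mm_202_a : ∃ t, chk3 f_mm_202_a t 1 3 1 = true :=
  ⟨(a (l 4) (l 4)), by decide +kernel⟩

theorem s3_mm_202_a : ∃ t, chk3 f_mm_202_a t 1 2 1 = true := ex3_a k0_mm_202_a k1_mm_202_a

theorem s4_mm_202_a : ∃ t, chk3 f_mm_202_a t 1 1 1 = true := ex3_b s3_mm_202_a k2_mm_202_a

theorem c_mm_202_a : CertB 0 536870912 0 536870912 649613803 48318383 3 eng mog cd1q2a cd4q0 pd2 true false false .pp 2 0 2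
    ndB1q2a ndB4q0 pcB2 cut_mm_202_a Ext.none :=
  certB0 (fam := true) (s1 := false) (s2 := false) (a := 2) (b := 0) (c := 2) (cn := .pp) (n1 := ndB1q2a) (n2 := ndB4q0) (pc := pcB2) (cut := cut_mm_202_a) (xt := Ext.none) (P1 := 0) (W1 := 536870912) (P2 := 0) (W2 := 536870912) (P3 := 649613803) (W3 := 48318383) (N0 := 3) (En := eng) (mo := mog) (C1 := cd1q2a) (C2 := cd4q0) (C3 := pd2)
    rfl s4_mm_202_a

noncomputable def cut_mm_202_b : Cut := Cut.of [[⟨0, 1, 0, 67108864⟩, ⟨1, 0, 0, 67108864⟩, ⟨2, 1, 0, 67108864⟩]]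

noncomputable def f_mm_202_b : ℕ → ℕ → ℕ → ℕ → Bool := onCell 1073741824 536870912 0 536870912 649613803 48318383
    (rowB 3 eng mog cd1q2b cd4q0 pd2 2 true false false .pp 2 0 2 (qsf 1239849684 370763052 0 536870912 2) ndB1q2b ndB4q0 pcB2 cut_mm_202_b Ext.none)

def k0_mm_202_b : ∃ t, chk3 f_mm_202_b t 1 1 1 = true :=
  ⟨(a (b (a (l 1) (b (a (b (b (a (b (a (l 1) (l 16472640)) (l 1)) (a (c (b (l 16437768) (l 16471496)) (l 16432432)) (c (l 16343808) (l 16405592)))) (a (l 1) (a (l 1) (l 276521537079)))) (l 1)) (a (b (b (a (l 16401592) (l 16373864)) (a (l 16407960) (l 16446672))) (b (l 325913527047) (l 1))) (b (b (l 16323944) (l 16405376)) (b (l 136398158615) (l 361347150471))))) (l 1))) (l 1)) (a (b (b (a (b (b (a (l 16262976) (l 16209024)) (b (l 16294880) (l 16334888))) (b (a (l 16424896) (l 16366352)) (a (l 16501392) (l 16448472)))) (b (a (b (l 16161472) (l 16237200)) (b (l 16123920) (l 16196864))) (a (l 16352784) (l 16309480)))) (a (b (a (l 369937185879)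 (l 165926192711)) (l 1)) (b (a (l 16515496) (l 16459240)) (a (b (l 16617328) (l 1)) (l 186327410071))))) (l 1)) (b (b (a (b (b (a (l 16096752) (l 16076440)) (l 16152048)) (l 16320672)) (b (a (l 16092440) (l 16080040)) (a (l 16218776) (l 16197440)))) (a (b (l 16457760) (a (l 16575824) (l 16521056))) (b (a (l 16352128) (l 16330976)) (l 4)))) (a (a (a (l 1) (l 4)) (l 4)) (l 4))))), by decide +kernel⟩

theorem c_mm_202_b : CertB 1239849684 370763052 0 536870912 649613803 48318383 3 eng mog cd1q2b cd4q0 pd2 true false false .pp 2 0 2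
    ndB1q2b ndB4q0 pcB2 cut_mm_202_b Ext.none :=
  certB2 (fam := true) (s1 := false) (s2 := false) (a := 2) (b := 0) (c := 2) (cn := .pp) (n1 := ndB1q2b) (n2 := ndB4q0) (pc := pcB2) (cut := cut_mm_202_b) (xt := Ext.none) (P1 := 1239849684) (W1 := 370763052) (P2 := 0) (W2 := 536870912) (P3 := 649613803) (W3 := 48318383) (N0 := 3) (En := eng) (mo := mog) (C1 := cd1q2b) (C2 := cd4q0) (C3 := pd2)
    rfl (fun _ => rfl) k0_mm_202_b

noncomputable def f_mm_203_a : ℕ → ℕ → ℕ → ℕ → Bool := onCell 0 536870912 1610612736 536870912 649613803 48318383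
    (rowB 3 eng mog cd1q2a cd4q0 pd3 1 true false false .up 2 0 3 (qsf 0 536870912 0 536870912 3) ndB1q2a ndB4q0 pcB3 Cut.none Ext.none)

def k0_mm_203_a : ∃ t, chk3 f_mm_203_a t 1 1 1 = true :=
  ⟨(l 4), by decide +kernel⟩

theorem c_mm_203_a : CertB 0 536870912 0 536870912 649613803 48318383 3 eng mog cd1q2a cd4q0 pd3 true false false .up 2 0 3
    ndB1q2a ndB4q0 pcB3 Cut.none Ext.none :=
  certB1 (fam := true) (s1 := false) (s2 := false) (a := 2) (b := 0) (c := 3) (cn := .up) (n1 := ndB1q2a) (n2 := ndB4q0) (pc := pcB3) (cut := Cut.none) (xt := Ext.none) (P1 := 0) (W1 := 536870912) (P2 := 0) (W2 := 536870912) (P3 := 649613803) (W3 := 48318383) (N0 := 3) (En := eng) (mo := mog) (C1 := cd1q2a) (C2 := cd4q0) (C3 := pd3)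
    rfl (fun _ => rfl) k0_mm_203_a

noncomputable def f_mm_203_b : ℕ → ℕ → ℕ → ℕ → Bool := onCell 1239849684 370763052 1610612736 536870912 649613803 48318383
    (rowB 3 eng mog cd1q2b cd4q0 pd3 1 true false false .up 2 0 3 (qsf 1239849684 370763052 0 536870912 3) ndB1q2b ndB4q0 pcB3 Cut.none Ext.none)

def k0_mm_203_b : ∃ t, chk3 f_mm_203_b t 1 1 1 = true :=
  ⟨(b (b (a (l 4) (b (a (b (l 16291800) (l 4)) (b (a (l 16152240) (l 16070536)) (l 16161896))) (l 4))) (l 4)) (l 4)), by decide +kernel⟩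

theorem c_mm_203_b : CertB 1239849684 370763052 0 536870912 649613803 48318383 3 eng mog cd1q2b cd4q0 pd3 true false false .up 2 0 3
    ndB1q2b ndB4q0 pcB3 Cut.none Ext.none :=
  certB1 (fam := true) (s1 := false) (s2 := false) (a := 2) (b := 0) (c := 3) (cn := .up) (n1 := ndB1q2b) (n2 := ndB4q0) (pc := pcB3) (cut := Cut.none) (xt := Ext.none) (P1 := 1239849684) (W1 := 370763052) (P2 := 0) (W2 := 536870912) (P3 := 649613803) (W3 := 48318383) (N0 := 3) (En := eng) (mo := mog) (C1 := cd1q2b) (C2 := cd4q0) (C3 := pd3)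
    rfl (fun _ => rfl) k0_mm_203_b

noncomputable def f_mm_213_a : ℕ → ℕ → ℕ → ℕ → Bool := onCell 0 536870912 536870912 536870912 649613803 48318383
    (rowB 3 eng mog cd1q2a cd4q1 pd3 0 true false false .pnn 2 1 3 (qsf 0 536870912 536870912 536870912 3) ndB1q2a ndB4q1 pcB3 Cut.none Ext.none)

def k0_mm_213_a : ∃ t, chk3 f_mm_213_a t 1 1 1 = true :=
  ⟨(l 4), by decide +kernel⟩

theorem c_mm_213_a : CertB 0 536870912 536870912 536870912 649613803 48318383 3 eng mog cd1q2a cd4q1 pd3 true false false .pnn 2 1 3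
    ndB1q2a ndB4q1 pcB3 Cut.none Ext.none :=
  certB0 (fam := true) (s1 := false) (s2 := false) (a := 2) (b := 1) (c := 3) (cn := .pnn) (n1 := ndB1q2a) (n2 := ndB4q1) (pc := pcB3) (cut := Cut.none) (xt := Ext.none) (P1 := 0) (W1 := 536870912) (P2 := 536870912) (W2 := 536870912) (P3 := 649613803) (W3 := 48318383) (N0 := 3) (En := eng) (mo := mog) (C1 := cd1q2a) (C2 := cd4q1) (C3 := pd3)
    rfl k0_mm_213_a

noncomputable def f_mm_213_b : ℕ → ℕ → ℕ → ℕ → Bool := onCell 1239849684 370763052 536870912 536870912 649613803 48318383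
    (rowB 3 eng mog cd1q2b cd4q1 pd3 0 true false false .pnn 2 1 3 (qsf 1239849684 370763052 536870912 536870912 3) ndB1q2b ndB4q1 pcB3 Cut.none Ext.none)

def k0_mm_213_b : ∃ t, chk3 f_mm_213_b t 1 1 1 = true :=
  ⟨(l 4), by decide +kernel⟩

theorem c_mm_213_b : CertB 1239849684 370763052 536870912 536870912 649613803 48318383 3 eng mog cd1q2b cd4q1 pd3 true false false .pnn 2 1 3
    ndB1q2b ndB4q1 pcB3 Cut.none Ext.none :=
  certB0 (fam := true) (s1 := false) (s2 := false) (a := 2) (b := 1) (c := 3) (cn := .pnn) (n1 := ndB1q2b) (n2 := ndB4q1) (pc := pcB3) (cut := Cut.none) (xt := Ext.none) (P1 := 1239849684) (W1 := 370763052) (P2 := 536870912) (W2 := 536870912) (P3 := 649613803) (W3 := 48318383) (N0 := 3) (En := eng) (mo := mog) (C1 := cd1q2b) (C2 := cd4q1) (C3 := pd3)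
    rfl k0_mm_213_b

noncomputable def f_mm_303 : ℕ → ℕ → ℕ → ℕ → Bool := onCell 1610612736 536870912 0 536870912 649613803 48318383
    (rowB 3 eng mog cd1q3 cd4q0 pd3 2 true false false .npn 3 0 3 (qsf 1610612736 536870912 0 536870912 3) ndB1q3 ndB4q0 pcB3 Cut.none Ext.none)

def k0_mm_303 : ∃ t, chk3 f_mm_303 t 1 1 1 = true :=
  ⟨(b (a (a (b (a (b (a (l 16074456) (l 16061176)) (l 347924870263)) (b (a (l 16058176) (l 16067032)) (l 4))) (l 4)) (l 4)) (l 4)) (l 4)), by decide +kernel⟩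

theorem c_mm_303 : CertB 1610612736 536870912 0 536870912 649613803 48318383 3 eng mog cd1q3 cd4q0 pd3 true false false .npn 3 0 3
    ndB1q3 ndB4q0 pcB3 Cut.none Ext.none :=
  certB2 (fam := true) (s1 := false) (s2 := false) (a := 3) (b := 0) (c := 3) (cn := .npn) (n1 := ndB1q3) (n2 := ndB4q0) (pc := pcB3) (cut := Cut.none) (xt := Ext.none) (P1 := 1610612736) (W1 := 536870912) (P2 := 0) (W2 := 536870912) (P3 := 649613803) (W3 := 48318383) (N0 := 3) (En := eng) (mo := mog) (C1 := cd1q3) (C2 := cd4q0) (C3 := pd3)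
    rfl (fun _ => rfl) k0_mm_303

noncomputable def f_mm_313 : ℕ → ℕ → ℕ → ℕ → Bool := onCell 1610612736 536870912 536870912 536870912 649613803 48318383
    (rowB 3 eng mog cd1q3 cd4q1 pd3 0 true false false .dn 3 1 3 (qsf 1610612736 536870912 536870912 536870912 3) ndB1q3 ndB4q1 pcB3 Cut.none Ext.none)

def k0_mm_313 : ∃ t, chk3 f_mm_313 t 1 1 1 = true :=
  ⟨(l 4), by decide +kernel⟩

theorem c_mm_313 : CertB 1610612736 536870912 536870912 536870912 649613803 48318383 3 eng mog cd1q3 cd4q1 pd3 true false false .dn 3 1 3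
    ndB1q3 ndB4q1 pcB3 Cut.none Ext.none :=
  certB0 (fam := true) (s1 := false) (s2 := false) (a := 3) (b := 1) (c := 3) (cn := .dn) (n1 := ndB1q3) (n2 := ndB4q1) (pc := pcB3) (cut := Cut.none) (xt := Ext.none) (P1 := 1610612736) (W1 := 536870912) (P2 := 536870912) (W2 := 536870912) (P3 := 649613803) (W3 := 48318383) (N0 := 3) (En := eng) (mo := mog) (C1 := cd1q3) (C2 := cd4q1) (C3 := pd3)
    rfl k0_mm_313

end Pool.Agent.Strip051.G.I6050_6500.Tab.C.BA14

namespace Pool.Agent.Strip051.G.I6050_6500.Tab.C.BA15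

open Pool.Agent.Strip051.PB Pool.Agent.Strip051.PB.T
open Pool.Agent.Strip051.G.I6050_6500.Tab

noncomputable def f_pp_001 : ℕ → ℕ → ℕ → ℕ → Bool := onCell 0 536870912 0 536870912 649613803 48318383
    (rowB 3 eng mog cd1q0 cd5q0 pd1 0 true true true .up 0 0 1 (qsf 0 536870912 0 536870912 1) ndB1q0 ndB5q0 pcB1 Cut.none Ext.none)

def k0_pp_001 : ∃ t, chk3 f_pp_001 t 1 1 1 = true :=
  ⟨(l 4), by decide +kernel⟩

theorem c_pp_001 : CertB 0 536870912 0 536870912 649613803 48318383 3 eng mog cd1q0 cd5q0 pd1 true true true .up 0 0 1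
    ndB1q0 ndB5q0 pcB1 Cut.none Ext.none :=
  certB0 (fam := true) (s1 := true) (s2 := true) (a := 0) (b := 0) (c := 1) (cn := .up) (n1 := ndB1q0) (n2 := ndB5q0) (pc := pcB1) (cut := Cut.none) (xt := Ext.none) (P1 := 0) (W1 := 536870912) (P2 := 0) (W2 := 536870912) (P3 := 649613803) (W3 := 48318383) (N0 := 3) (En := eng) (mo := mog) (C1 := cd1q0) (C2 := cd5q0) (C3 := pd1)
    rfl k0_pp_001

noncomputable def f_pp_011 : ℕ → ℕ → ℕ → ℕ → Bool := onCell 0 536870912 536870912 536870912 649613803 48318383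
    (rowB 3 eng mog cd1q0 cd5q1 pd1 0 true true true .pnn 0 1 1 (qsf 0 536870912 536870912 536870912 1) ndB1q0 ndB5q1 pcB1 Cut.none Ext.none)

def k0_pp_011 : ∃ t, chk3 f_pp_011 t 1 1 1 = true :=
  ⟨(l 4), by decide +kernel⟩

theorem c_pp_011 : CertB 0 536870912 536870912 536870912 649613803 48318383 3 eng mog cd1q0 cd5q1 pd1 true true true .pnn 0 1 1
    ndB1q0 ndB5q1 pcB1 Cut.none Ext.none :=
  certB0 (fam := true) (s1 := true) (s2 := true) (a := 0) (b := 1) (c := 1) (cn := .pnn) (n1 := ndB1q0) (n2 := ndB5q1) (pc := pcB1) (cut := Cut.none) (xt := Ext.none) (P1 := 0) (W1 := 536870912) (P2 := 536870912) (W2 := 536870912) (P3 := 649613803) (W3 := 48318383) (N0 := 3) (En := eng) (mo := mog) (C1 := cd1q0) (C2 := cd5q1) (C3 := pd1)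
    rfl k0_pp_011

noncomputable def f_pp_012 : ℕ → ℕ → ℕ → ℕ → Bool := onCell 0 536870912 536870912 536870912 649613803 48318383
    (rowB 3 eng mog cd1q0 cd5q1 pd2 0 true true true .pnp 0 1 2 (qsf 0 536870912 536870912 536870912 2) ndB1q0 ndB5q1 pcB2 Cut.none Ext.none)

def k0_pp_012 : ∃ t, chk3 f_pp_012 t 1 1 1 = true :=
  ⟨(l 4), by decide +kernel⟩

theorem c_pp_012 : CertB 0 536870912 536870912 536870912 649613803 48318383 3 eng mog cd1q0 cd5q1 pd2 true true true .pnp 0 1 2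
    ndB1q0 ndB5q1 pcB2 Cut.none Ext.none :=
  certB0 (fam := true) (s1 := true) (s2 := true) (a := 0) (b := 1) (c := 2) (cn := .pnp) (n1 := ndB1q0) (n2 := ndB5q1) (pc := pcB2) (cut := Cut.none) (xt := Ext.none) (P1 := 0) (W1 := 536870912) (P2 := 536870912) (W2 := 536870912) (P3 := 649613803) (W3 := 48318383) (N0 := 3) (En := eng) (mo := mog) (C1 := cd1q0) (C2 := cd5q1) (C3 := pd2)
    rfl k0_pp_012

noncomputable def f_pp_022 : ℕ → ℕ → ℕ → ℕ → Bool := onCell 0 536870912 1073741824 536870912 649613803 48318383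
    (rowB 3 eng mog cd1q0 cd5q2 pd2 0 true true true .pp 0 2 2 (qsf 0 536870912 1073741824 536870912 2) ndB1q0 ndB5q2 pcB2 Cut.none Ext.none)

def k0_pp_022 : ∃ t, chk3 f_pp_022 t 1 1 1 = true :=
  ⟨(l 4), by decide +kernel⟩

theorem c_pp_022 : CertB 0 536870912 1073741824 536870912 649613803 48318383 3 eng mog cd1q0 cd5q2 pd2 true true true .pp 0 2 2
    ndB1q0 ndB5q2 pcB2 Cut.none Ext.none :=
  certB0 (fam := true) (s1 := true) (s2 := true) (a := 0) (b := 2) (c := 2) (cn := .pp) (n1 := ndB1q0) (n2 := ndB5q2) (pc := pcB2) (cut := Cut.none) (xt := Ext.none) (P1 := 0) (W1 := 536870912) (P2 := 1073741824) (W2 := 536870912) (P3 := 649613803) (W3 := 48318383) (N0 := 3) (En := eng) (mo := mog) (C1 := cd1q0) (C2 := cd5q2) (C3 := pd2)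
    rfl k0_pp_022

noncomputable def f_pp_023 : ℕ → ℕ → ℕ → ℕ → Bool := onCell 0 536870912 1073741824 536870912 649613803 48318383
    (rowB 3 eng mog cd1q0 cd5q2 pd3 0 true true true .up 0 2 3 (qsf 0 536870912 1073741824 536870912 3) ndB1q0 ndB5q2 pcB3 Cut.none Ext.none)

def k0_pp_023 : ∃ t, chk3 f_pp_023 t 1 1 1 = true :=
  ⟨(l 4), by decide +kernel⟩

theorem c_pp_023 : CertB 0 536870912 1073741824 536870912 649613803 48318383 3 eng mog cd1q0 cd5q2 pd3 true true true .up 0 2 3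
    ndB1q0 ndB5q2 pcB3 Cut.none Ext.none :=
  certB0 (fam := true) (s1 := true) (s2 := true) (a := 0) (b := 2) (c := 3) (cn := .up) (n1 := ndB1q0) (n2 := ndB5q2) (pc := pcB3) (cut := Cut.none) (xt := Ext.none) (P1 := 0) (W1 := 536870912) (P2 := 1073741824) (W2 := 536870912) (P3 := 649613803) (W3 := 48318383) (N0 := 3) (En := eng) (mo := mog) (C1 := cd1q0) (C2 := cd5q2) (C3 := pd3)
    rfl k0_pp_023

noncomputable def f_pp_033 : ℕ → ℕ → ℕ → ℕ → Bool := onCell 0 536870912 0 1230186008 649613803 48318383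
    (rowB 3 eng mog cd1q0 cd5q3 pd3 0 true true true .pnn 0 3 3 (qsf 0 536870912 0 1230186008 3) ndB1q0 ndB5q3 pcB3 Cut.none Ext.none)

def k0_pp_033 : ∃ t, chk3 f_pp_033 t 1 1 1 = true :=
  ⟨(b (l 4) (l 4)), by decide +kernel⟩

theorem c_pp_033 : CertB 0 536870912 0 1230186008 649613803 48318383 3 eng mog cd1q0 cd5q3 pd3 true true true .pnn 0 3 3
    ndB1q0 ndB5q3 pcB3 Cut.none Ext.none :=
  certB0 (fam := true) (s1 := true) (s2 := true) (a := 0) (b := 3) (c := 3) (cn := .pnn) (n1 := ndB1q0) (n2 := ndB5q3) (pc := pcB3) (cut := Cut.none) (xt := Ext.none) (P1 := 0) (W1 := 536870912) (P2 := 0) (W2 := 1230186008) (P3 := 649613803) (W3 := 48318383) (N0 := 3) (En := eng) (mo := mog) (C1 := cd1q0) (C2 := cd5q3) (C3 := pd3)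
    rfl k0_pp_033

noncomputable def f_pp_101 : ℕ → ℕ → ℕ → ℕ → Bool := onCell 536870912 536870912 0 536870912 649613803 48318383
    (rowB 3 eng mog cd1q1 cd5q0 pd1 0 true true true .npn 1 0 1 (qsf 536870912 536870912 0 536870912 1) ndB1q1 ndB5q0 pcB1 Cut.none Ext.none)

def k0_pp_101 : ∃ t, chk3 f_pp_101 t 1 1 1 = true :=
  ⟨(l 4), by decide +kernel⟩

theorem c_pp_101 : CertB 536870912 536870912 0 536870912 649613803 48318383 3 eng mog cd1q1 cd5q0 pd1 true true true .npn 1 0 1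
    ndB1q1 ndB5q0 pcB1 Cut.none Ext.none :=
  certB0 (fam := true) (s1 := true) (s2 := true) (a := 1) (b := 0) (c := 1) (cn := .npn) (n1 := ndB1q1) (n2 := ndB5q0) (pc := pcB1) (cut := Cut.none) (xt := Ext.none) (P1 := 536870912) (W1 := 536870912) (P2 := 0) (W2 := 536870912) (P3 := 649613803) (W3 := 48318383) (N0 := 3) (En := eng) (mo := mog) (C1 := cd1q1) (C2 := cd5q0) (C3 := pd1)
    rfl k0_pp_101

noncomputable def f_pp_102 : ℕ → ℕ → ℕ → ℕ → Bool := onCell 536870912 536870912 0 536870912 649613803 48318383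
    (rowB 3 eng mog cd1q1 cd5q0 pd2 0 true true true .npp 1 0 2 (qsf 536870912 536870912 0 536870912 2) ndB1q1 ndB5q0 pcB2 Cut.none Ext.none)

def k0_pp_102 : ∃ t, chk3 f_pp_102 t 1 1 1 = true :=
  ⟨(l 4), by decide +kernel⟩

theorem c_pp_102 : CertB 536870912 536870912 0 536870912 649613803 48318383 3 eng mog cd1q1 cd5q0 pd2 true true true .npp 1 0 2
    ndB1q1 ndB5q0 pcB2 Cut.none Ext.none :=
  certB0 (fam := true) (s1 := true) (s2 := true) (a := 1) (b := 0) (c := 2) (cn := .npp) (n1 := ndB1q1) (n2 := ndB5q0) (pc := pcB2) (cut := Cut.none) (xt := Ext.none) (P1 := 536870912) (W1 := 536870912) (P2 := 0) (W2 := 536870912) (P3 := 649613803) (W3 := 48318383) (N0 := 3) (En := eng) (mo := mog) (C1 := cd1q1) (C2 := cd5q0) (C3 := pd2)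
    rfl k0_pp_102

noncomputable def f_pp_112 : ℕ → ℕ → ℕ → ℕ → Bool := onCell 536870912 536870912 536870912 536870912 649613803 48318383
    (rowB 3 eng mog cd1q1 cd5q1 pd2 0 true true true .dn 1 1 2 (qsf 536870912 536870912 536870912 536870912 2) ndB1q1 ndB5q1 pcB2 Cut.none Ext.none)

def k0_pp_112 : ∃ t, chk3 f_pp_112 t 1 1 1 = true :=
  ⟨(l 4), by decide +kernel⟩

theorem c_pp_112 : CertB 536870912 536870912 536870912 536870912 649613803 48318383 3 eng mog cd1q1 cd5q1 pd2 true true true .dn 1 1 2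
    ndB1q1 ndB5q1 pcB2 Cut.none Ext.none :=
  certB0 (fam := true) (s1 := true) (s2 := true) (a := 1) (b := 1) (c := 2) (cn := .dn) (n1 := ndB1q1) (n2 := ndB5q1) (pc := pcB2) (cut := Cut.none) (xt := Ext.none) (P1 := 536870912) (W1 := 536870912) (P2 := 536870912) (W2 := 536870912) (P3 := 649613803) (W3 := 48318383) (N0 := 3) (En := eng) (mo := mog) (C1 := cd1q1) (C2 := cd5q1) (C3 := pd2)
    rfl k0_pp_112

noncomputable def f_pp_113 : ℕ → ℕ → ℕ → ℕ → Bool := onCell 536870912 536870912 536870912 536870912 649613803 48318383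
    (rowB 3 eng mog cd1q1 cd5q1 pd3 0 true true true .nn 1 1 3 (qsf 536870912 536870912 536870912 536870912 3) ndB1q1 ndB5q1 pcB3 Cut.none Ext.none)

def k0_pp_113 : ∃ t, chk3 f_pp_113 t 1 1 1 = true :=
  ⟨(l 4), by decide +kernel⟩

theorem c_pp_113 : CertB 536870912 536870912 536870912 536870912 649613803 48318383 3 eng mog cd1q1 cd5q1 pd3 true true true .nn 1 1 3
    ndB1q1 ndB5q1 pcB3 Cut.none Ext.none :=
  certB0 (fam := true) (s1 := true) (s2 := true) (a := 1) (b := 1) (c := 3) (cn := .nn) (n1 := ndB1q1) (n2 := ndB5q1) (pc := pcB3) (cut := Cut.none) (xt := Ext.none) (P1 := 536870912) (W1 := 536870912) (P2 := 536870912) (W2 := 536870912) (P3 := 649613803) (W3 := 48318383) (N0 := 3) (En := eng) (mo := mog) (C1 := cd1q1) (C2 := cd5q1) (C3 := pd3)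
    rfl k0_pp_113

noncomputable def f_pp_123 : ℕ → ℕ → ℕ → ℕ → Bool := onCell 536870912 536870912 1073741824 536870912 649613803 48318383
    (rowB 3 eng mog cd1q1 cd5q2 pd3 0 true true true .npn 1 2 3 (qsf 536870912 536870912 1073741824 536870912 3) ndB1q1 ndB5q2 pcB3 Cut.none Ext.none)

def k0_pp_123 : ∃ t, chk3 f_pp_123 t 1 1 1 = true :=
  ⟨(l 4), by decide +kernel⟩

theorem c_pp_123 : CertB 536870912 536870912 1073741824 536870912 649613803 48318383 3 eng mog cd1q1 cd5q2 pd3 true true true .npn 1 2 3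
    ndB1q1 ndB5q2 pcB3 Cut.none Ext.none :=
  certB0 (fam := true) (s1 := true) (s2 := true) (a := 1) (b := 2) (c := 3) (cn := .npn) (n1 := ndB1q1) (n2 := ndB5q2) (pc := pcB3) (cut := Cut.none) (xt := Ext.none) (P1 := 536870912) (W1 := 536870912) (P2 := 1073741824) (W2 := 536870912) (P3 := 649613803) (W3 := 48318383) (N0 := 3) (En := eng) (mo := mog) (C1 := cd1q1) (C2 := cd5q2) (C3 := pd3)
    rfl k0_pp_123

noncomputable def f_pp_133 : ℕ → ℕ → ℕ → ℕ → Bool := onCell 536870912 536870912 0 1230186008 649613803 48318383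
    (rowB 3 eng mog cd1q1 cd5q3 pd3 0 true true true .dn 1 3 3 (qsf 536870912 536870912 0 1230186008 3) ndB1q1 ndB5q3 pcB3 Cut.none Ext.none)

def k0_pp_133 : ∃ t, chk3 f_pp_133 t 1 1 1 = true :=
  ⟨(l 4), by decide +kernel⟩

theorem c_pp_133 : CertB 536870912 536870912 0 1230186008 649613803 48318383 3 eng mog cd1q1 cd5q3 pd3 true true true .dn 1 3 3
    ndB1q1 ndB5q3 pcB3 Cut.none Ext.none :=
  certB0 (fam := true) (s1 := true) (s2 := true) (a := 1) (b := 3) (c := 3) (cn := .dn) (n1 := ndB1q1) (n2 := ndB5q3) (pc := pcB3) (cut := Cut.none) (xt := Ext.none) (P1 := 536870912) (W1 := 536870912) (P2 := 0) (W2 := 1230186008) (P3 := 649613803) (W3 := 48318383) (N0 := 3) (En := eng) (mo := mog) (C1 := cd1q1) (C2 := cd5q3) (C3 := pd3)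
    rfl k0_pp_133

noncomputable def f_pp_202_a : ℕ → ℕ → ℕ → ℕ → Bool := onCell 0 536870912 0 536870912 649613803 48318383
    (rowB 3 eng mog cd1q2a cd5q0 pd2 0 true true true .pp 2 0 2 (qsf 0 536870912 0 536870912 2) ndB1q2a ndB5q0 pcB2 Cut.none Ext.none)

def k0_pp_202_a : ∃ t, chk3 f_pp_202_a t 1 1 1 = true :=
  ⟨(l 5), by decide +kernel⟩

theorem c_pp_202_a : CertB 0 536870912 0 536870912 649613803 48318383 3 eng mog cd1q2a cd5q0 pd2 true true true .pp 2 0 2
    ndB1q2a ndB5q0 pcB2 Cut.none Ext.none :=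
  certB0 (fam := true) (s1 := true) (s2 := true) (a := 2) (b := 0) (c := 2) (cn := .pp) (n1 := ndB1q2a) (n2 := ndB5q0) (pc := pcB2) (cut := Cut.none) (xt := Ext.none) (P1 := 0) (W1 := 536870912) (P2 := 0) (W2 := 536870912) (P3 := 649613803) (W3 := 48318383) (N0 := 3) (En := eng) (mo := mog) (C1 := cd1q2a) (C2 := cd5q0) (C3 := pd2)
    rfl k0_pp_202_a

noncomputable def f_pp_202_b : ℕ → ℕ → ℕ → ℕ → Bool := onCell 1239849684 370763052 0 536870912 649613803 48318383
    (rowB 3 eng mog cd1q2b cd5q0 pd2 0 true true true .pp 2 0 2 (qsf 1239849684 370763052 0 536870912 2) ndB1q2b ndB5q0 pcB2 Cut.none Ext.none)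

def k0_pp_202_b : ∃ t, chk3 f_pp_202_b t 1 1 1 = true :=
  ⟨(l 5), by decide +kernel⟩

theorem c_pp_202_b : CertB 1239849684 370763052 0 536870912 649613803 48318383 3 eng mog cd1q2b cd5q0 pd2 true true true .pp 2 0 2
    ndB1q2b ndB5q0 pcB2 Cut.none Ext.none :=
  certB0 (fam := true) (s1 := true) (s2 := true) (a := 2) (b := 0) (c := 2) (cn := .pp) (n1 := ndB1q2b) (n2 := ndB5q0) (pc := pcB2) (cut := Cut.none) (xt := Ext.none) (P1 := 1239849684) (W1 := 370763052) (P2 := 0) (W2 := 536870912) (P3 := 649613803) (W3 := 48318383) (N0 := 3) (En := eng) (mo := mog) (C1 := cd1q2b) (C2 := cd5q0) (C3 := pd2)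
    rfl k0_pp_202_b

noncomputable def f_pp_203_a : ℕ → ℕ → ℕ → ℕ → Bool := onCell 0 536870912 0 536870912 649613803 48318383
    (rowB 3 eng mog cd1q2a cd5q0 pd3 0 true true true .up 2 0 3 (qsf 0 536870912 0 536870912 3) ndB1q2a ndB5q0 pcB3 Cut.none Ext.none)

def k0_pp_203_a : ∃ t, chk3 f_pp_203_a t 1 1 1 = true :=
  ⟨(l 5), by decide +kernel⟩

theorem c_pp_203_a : CertB 0 536870912 0 536870912 649613803 48318383 3 eng mog cd1q2a cd5q0 pd3 true true true .up 2 0 3
    ndB1q2a ndB5q0 pcB3 Cut.none Ext.none :=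
  certB0 (fam := true) (s1 := true) (s2 := true) (a := 2) (b := 0) (c := 3) (cn := .up) (n1 := ndB1q2a) (n2 := ndB5q0) (pc := pcB3) (cut := Cut.none) (xt := Ext.none) (P1 := 0) (W1 := 536870912) (P2 := 0) (W2 := 536870912) (P3 := 649613803) (W3 := 48318383) (N0 := 3) (En := eng) (mo := mog) (C1 := cd1q2a) (C2 := cd5q0) (C3 := pd3)
    rfl k0_pp_203_a

noncomputable def f_pp_203_b : ℕ → ℕ → ℕ → ℕ → Bool := onCell 1239849684 370763052 0 536870912 649613803 48318383
    (rowB 3 eng mog cd1q2b cd5q0 pd3 0 true true true .up 2 0 3 (qsf 1239849684 370763052 0 536870912 3) ndB1q2b ndB5q0 pcB3 Cut.none Ext.none)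

def k0_pp_203_b : ∃ t, chk3 f_pp_203_b t 1 1 1 = true :=
  ⟨(l 5), by decide +kernel⟩

theorem c_pp_203_b : CertB 1239849684 370763052 0 536870912 649613803 48318383 3 eng mog cd1q2b cd5q0 pd3 true true true .up 2 0 3
    ndB1q2b ndB5q0 pcB3 Cut.none Ext.none :=
  certB0 (fam := true) (s1 := true) (s2 := true) (a := 2) (b := 0) (c := 3) (cn := .up) (n1 := ndB1q2b) (n2 := ndB5q0) (pc := pcB3) (cut := Cut.none) (xt := Ext.none) (P1 := 1239849684) (W1 := 370763052) (P2 := 0) (W2 := 536870912) (P3 := 649613803) (W3 := 48318383) (N0 := 3) (En := eng) (mo := mog) (C1 := cd1q2b) (C2 := cd5q0) (C3 := pd3)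
    rfl k0_pp_203_b

noncomputable def f_pp_213_a : ℕ → ℕ → ℕ → ℕ → Bool := onCell 0 536870912 536870912 536870912 649613803 48318383
    (rowB 3 eng mog cd1q2a cd5q1 pd3 0 true true true .pnn 2 1 3 (qsf 0 536870912 536870912 536870912 3) ndB1q2a ndB5q1 pcB3 Cut.none Ext.none)

def k0_pp_213_a : ∃ t, chk3 f_pp_213_a t 1 1 1 = true :=
  ⟨(l 4), by decide +kernel⟩

theorem c_pp_213_a : CertB 0 536870912 536870912 536870912 649613803 48318383 3 eng mog cd1q2a cd5q1 pd3 true true true .pnn 2 1 3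
    ndB1q2a ndB5q1 pcB3 Cut.none Ext.none :=
  certB0 (fam := true) (s1 := true) (s2 := true) (a := 2) (b := 1) (c := 3) (cn := .pnn) (n1 := ndB1q2a) (n2 := ndB5q1) (pc := pcB3) (cut := Cut.none) (xt := Ext.none) (P1 := 0) (W1 := 536870912) (P2 := 536870912) (W2 := 536870912) (P3 := 649613803) (W3 := 48318383) (N0 := 3) (En := eng) (mo := mog) (C1 := cd1q2a) (C2 := cd5q1) (C3 := pd3)
    rfl k0_pp_213_a

noncomputable def f_pp_213_b : ℕ → ℕ → ℕ → ℕ → Bool := onCell 1239849684 370763052 536870912 536870912 649613803 48318383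
    (rowB 3 eng mog cd1q2b cd5q1 pd3 0 true true true .pnn 2 1 3 (qsf 1239849684 370763052 536870912 536870912 3) ndB1q2b ndB5q1 pcB3 Cut.none Ext.none)

def k0_pp_213_b : ∃ t, chk3 f_pp_213_b t 1 1 1 = true :=
  ⟨(l 4), by decide +kernel⟩

theorem c_pp_213_b : CertB 1239849684 370763052 536870912 536870912 649613803 48318383 3 eng mog cd1q2b cd5q1 pd3 true true true .pnn 2 1 3
    ndB1q2b ndB5q1 pcB3 Cut.none Ext.none :=
  certB0 (fam := true) (s1 := true) (s2 := true) (a := 2) (b := 1) (c := 3) (cn := .pnn) (n1 := ndB1q2b) (n2 := ndB5q1) (pc := pcB3) (cut := Cut.none) (xt := Ext.none) (P1 := 1239849684) (W1 := 370763052) (P2 := 536870912) (W2 := 536870912) (P3 := 649613803) (W3 := 48318383) (N0 := 3) (En := eng) (mo := mog) (C1 := cd1q2b) (C2 := cd5q1) (C3 := pd3)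
    rfl k0_pp_213_b

noncomputable def f_pp_303 : ℕ → ℕ → ℕ → ℕ → Bool := onCell 1610612736 536870912 0 536870912 649613803 48318383
    (rowB 3 eng mog cd1q3 cd5q0 pd3 0 true true true .npn 3 0 3 (qsf 1610612736 536870912 0 536870912 3) ndB1q3 ndB5q0 pcB3 Cut.none Ext.none)

def k0_pp_303 : ∃ t, chk3 f_pp_303 t 1 1 1 = true :=
  ⟨(l 5), by decide +kernel⟩

theorem c_pp_303 : CertB 1610612736 536870912 0 536870912 649613803 48318383 3 eng mog cd1q3 cd5q0 pd3 true true true .npn 3 0 3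
    ndB1q3 ndB5q0 pcB3 Cut.none Ext.none :=
  certB0 (fam := true) (s1 := true) (s2 := true) (a := 3) (b := 0) (c := 3) (cn := .npn) (n1 := ndB1q3) (n2 := ndB5q0) (pc := pcB3) (cut := Cut.none) (xt := Ext.none) (P1 := 1610612736) (W1 := 536870912) (P2 := 0) (W2 := 536870912) (P3 := 649613803) (W3 := 48318383) (N0 := 3) (En := eng) (mo := mog) (C1 := cd1q3) (C2 := cd5q0) (C3 := pd3)
    rfl k0_pp_303

noncomputable def f_pp_313 : ℕ → ℕ → ℕ → ℕ → Bool := onCell 1610612736 536870912 536870912 536870912 649613803 48318383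
    (rowB 3 eng mog cd1q3 cd5q1 pd3 0 true true true .dn 3 1 3 (qsf 1610612736 536870912 536870912 536870912 3) ndB1q3 ndB5q1 pcB3 Cut.none Ext.none)

def k0_pp_313 : ∃ t, chk3 f_pp_313 t 1 1 1 = true :=
  ⟨(l 4), by decide +kernel⟩

theorem c_pp_313 : CertB 1610612736 536870912 536870912 536870912 649613803 48318383 3 eng mog cd1q3 cd5q1 pd3 true true true .dn 3 1 3
    ndB1q3 ndB5q1 pcB3 Cut.none Ext.none :=
  certB0 (fam := true) (s1 := true) (s2 := true) (a := 3) (b := 1) (c := 3) (cn := .dn) (n1 := ndB1q3) (n2 := ndB5q1) (pc := pcB3) (cut := Cut.none) (xt := Ext.none) (P1 := 1610612736) (W1 := 536870912) (P2 := 536870912) (W2 := 536870912) (P3 := 649613803) (W3 := 48318383) (N0 := 3) (En := eng) (mo := mog) (C1 := cd1q3) (C2 := cd5q1) (C3 := pd3)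
    rfl k0_pp_313

noncomputable def f_pm_001 : ℕ → ℕ → ℕ → ℕ → Bool := onCell 0 536870912 536870912 536870912 649613803 48318383
    (rowB 3 eng mog cd1q0 cd5q0 pd1 1 true true false .up 0 0 1 (qsf 0 536870912 0 536870912 1) ndB1q0 ndB5q0 pcB1 Cut.none Ext.none)

def k0_pm_001 : ∃ t, chk3 f_pm_001 t 1 1 1 = true :=
  ⟨(b (l 3) (b (l 3) (b (l 3) (a (l 2) (a (l 2) (b (l 3) (a (l 2) (b (l 16452896) (l 16391192))))))))), by decide +kernel⟩

theorem c_pm_001 : CertB 0 536870912 0 536870912 649613803 48318383 3 eng mog cd1q0 cd5q0 pd1 true true false .up 0 0 1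
    ndB1q0 ndB5q0 pcB1 Cut.none Ext.none :=
  certB1 (fam := true) (s1 := true) (s2 := false) (a := 0) (b := 0) (c := 1) (cn := .up) (n1 := ndB1q0) (n2 := ndB5q0) (pc := pcB1) (cut := Cut.none) (xt := Ext.none) (P1 := 0) (W1 := 536870912) (P2 := 0) (W2 := 536870912) (P3 := 649613803) (W3 := 48318383) (N0 := 3) (En := eng) (mo := mog) (C1 := cd1q0) (C2 := cd5q0) (C3 := pd1)
    rfl (fun _ => rfl) k0_pm_001

noncomputable def cut_pm_011 : Cut := Cut.of [[⟨0, 0, 0, 67108864⟩, ⟨1, 1, 0, 67108864⟩, ⟨2, 1, 0, 67108864⟩]]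

noncomputable def f_pm_011 : ℕ → ℕ → ℕ → ℕ → Bool := onCell 0 536870912 536870912 536870912 649613803 48318383
    (rowB 3 eng mog cd1q0 cd5q1 pd1 1 true true false .pnn 0 1 1 (qsf 0 536870912 536870912 536870912 1) ndB1q0 ndB5q1 pcB1 cut_pm_011 Ext.none)

def k0_pm_011 : ∃ t, chk3 f_pm_011 t 1 1 1 = true :=
  ⟨(b (l 3) (b (l 3) (b (l 3) (a (b (l 3) (b (l 3) (b (a (l 3) (l 3)) (a (b (l 3) (a (a (l 6) (a (l 6) (l 75329609223))) (a (a (l 16698208) (l 16680624)) (l 16691688)))) (a (a (a (l 16637392) (l 16623840)) (l 16601360)) (l 16594296)))))) (b (l 3) (a (b (l 3) (a (l 16535872) (l 16466032))) (a (b (l 3) (l 16359328)) (l 16428376)))))))), by decide +kernel⟩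

theorem c_pm_011 : CertB 0 536870912 536870912 536870912 649613803 48318383 3 eng mog cd1q0 cd5q1 pd1 true true false .pnn 0 1 1
    ndB1q0 ndB5q1 pcB1 cut_pm_011 Ext.none :=
  certB1 (fam := true) (s1 := true) (s2 := false) (a := 0) (b := 1) (c := 1) (cn := .pnn) (n1 := ndB1q0) (n2 := ndB5q1) (pc := pcB1) (cut := cut_pm_011) (xt := Ext.none) (P1 := 0) (W1 := 536870912) (P2 := 536870912) (W2 := 536870912) (P3 := 649613803) (W3 := 48318383) (N0 := 3) (En := eng) (mo := mog) (C1 := cd1q0) (C2 := cd5q1) (C3 := pd1)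
    rfl (fun _ => rfl) k0_pm_011

noncomputable def cut_pm_012 : Cut := Cut.of [[⟨0, 0, 0, 67108864⟩, ⟨1, 1, 0, 67108864⟩, ⟨2, 1, 0, 67108864⟩]]

noncomputable def f_pm_012 : ℕ → ℕ → ℕ → ℕ → Bool := onCell 1073741824 536870912 536870912 536870912 649613803 48318383
    (rowB 3 eng mog cd1q0 cd5q1 pd2 2 true true false .pnp 0 1 2 (qsf 0 536870912 536870912 536870912 2) ndB1q0 ndB5q1 pcB2 cut_pm_012 Ext.none)

def k0_pm_012 : ∃ t, chk3 f_pm_012 t 8 1 1 = true :=
  ⟨(b (b (b (l 16353152) (a (l 16319088) (l 16287024))) (c (b (a (l 16451144) (l 16429376)) (a (l 16532208) (l 16497136))) (b (a (l 16427776) (l 16423696)) (a (l 16509000) (l 16468816))))) (b (a (b (b (l 16555152) (l 16627288)) (a (b (l 16596000) (a (l 16613808) (l 16597360))) (a (l 16599168) (l 16576008)))) (b (b (l 16421304) (l 16506072)) (b (a (l 16486456) (l 16444320)) (a (l 16514008) (l 16468248))))) (a (b (a (a (b (b (l 16644536) (l 16649992)) (b (l 16667208) (a (l 16689264) (l 16680184))))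 (b (l 16625024) (l 16657680))) (b (l 16637264) (l 16667968))) (a (b (a (b (a (l 16717648) (l 16698008)) (l 6)) (b (l 16684112) (l 16720848))) (l 6)) (b (b (l 16666528) (a (l 16671912) (l 16644280))) (b (a (l 6) (b (l 16653136) (l 6))) (l 6))))) (b (b (a (l 16543968) (l 16494208)) (a (b (l 16567136) (l 16601688)) (b (l 16514712) (l 16528424)))) (b (a (b (l 16613280) (a (l 16616952) (l 16589952))) (b (l 16540272) (l 16550104))) (a (b (b (l 16632440) (l 16637712)) (b (a (l 6) (l 16607856)) (l 6))) (b (l 16590888) (b (l 16566176) (a (l 16584552) (l 16556688)))))))))), by decide +kernel⟩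

def k1_pm_012 : ∃ t, chk3 f_pm_012 t 9 1 1 = true :=
  ⟨(b (b (b (l 16170664) (a (l 16252968) (l 16218240))) (b (a (l 16299104) (l 16257232)) (a (l 16459312) (l 16303784)))) (b (b (a (b (l 16355496) (l 16369608)) (b (l 16296032) (l 16303208))) (a (b (l 16426008) (l 16465872)) (b (l 16310344) (l 16364288)))) (b (a (b (a (l 16446440) (l 16400696)) (a (l 16469864) (l 16420128))) (b (a (l 16357000) (l 16315280)) (a (l 16372544) (l 16327160)))) (a (b (a (b (l 16487944) (l 16498032)) (b (l 16435520) (l 16445736))) (b (a (l 16506096) (l 16454032)) (a (b (l 16511792) (l 16515456)) (l 16481264)))) (b (a (l 16389064) (l 16339528)) (b (a (l 16401728) (l 16349352)) (a (l 16429136) (a (l 16369200) (l 16342792))))))))), by decide +kernel⟩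

def k2_pm_012 : ∃ t, chk3 f_pm_012 t 5 1 1 = true :=
  ⟨(b (a (b (a (a (l 16187616) (l 2)) (l 2)) (a (a (b (l 16227584) (l 16248104)) (a (b (l 16214368) (l 16232552)) (b (l 16213856) (l 16333936)))) (b (l 16192792) (l 16204640)))) (b (l 2) (b (l 16189880) (l 16182912)))) (b (a (a (a (b (l 16257368) (b (l 16260568) (l 16267352))) (b (a (l 16238408) (a (l 16230056) (l 16227624))) (a (l 16240080) (a (l 16229136) (a (l 16224376) (l 16222024)))))) (b (l 16223008) (b (l 16193184) (l 16190856)))) (b (l 16161336) (b (l 16137304) (l 16124096)))) (a (a (a (b (b (l 16275688) (l 16284032)) (b (l 16313208) (b (l 16298688) (l 16303200)))) (b (a (b (l 16247624) (l 16253216)) (a (l 16278312) (b (l 16247800) (a (l 16231224) (l 16226664))))) (a (b (l 16258272) (b (l 16262120) (l 16264800))) (b (a (l 16241728) (a (l 16233488) (l 16227912))) (a (l 16244952) (a (l 16235472) (b (l 16228528) (l 16228928)))))))) (b (b (l 16189168) (a (l 16205240) (l 16169744))) (b (a (l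 16204648) (l 16165024)) (a (b (l 16203600) (l 16202800)) (l 16159200))))) (b (b (l 16194288) (a (l 16122800) (l 16071064))) (b (a (l 16111032) (l 16050384)) (a (b (l 16101584) (l 16094864)) (b (l 16033960) (l 16022616)))))))), by decide +kernel⟩

def k3_pm_012 : ∃ t, chk3 f_pm_012 t 3 1 1 = true :=
  ⟨(b (a (b (l 2) (a (b (l 2) (l 16181304)) (l 2))) (l 2)) (a (b (a (b (l 16137032) (l 16167528)) (b (l 16148720) (l 16075440))) (a (b (b (l 16044880) (l 16141736)) (b (a (l 16002888) (l 15968344)) (a (b (l 15979984) (l 15964096)) (l 15929840)))) (b (a (l 16004976) (l 16003296)) (a (b (l 15945896) (a (l 15907192) (l 15896392))) (b (l 15936624) (l 15886728)))))) (b (a (b (l 2) (l 16117000)) (l 2)) (a (b (l 16021784) (a (b (l 15938648) (l 15884160)) (l 15922960))) (b (l 16176256) (a (l 15949024) (l 15991680))))))), by decide +kernel⟩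

theorem s4_pm_012 : ∃ t, chk3 f_pm_012 t 4 1 1 = true := ex3_a k0_pm_012 k1_pm_012

theorem s5_pm_012 : ∃ t, chk3 f_pm_012 t 2 1 1 = true := ex3_a s4_pm_012 k2_pm_012

theorem s6_pm_012 : ∃ t, chk3 f_pm_012 t 1 1 1 = true := ex3_a s5_pm_012 k3_pm_012

theorem c_pm_012 : CertB 0 536870912 536870912 536870912 649613803 48318383 3 eng mog cd1q0 cd5q1 pd2 true true false .pnp 0 1 2
    ndB1q0 ndB5q1 pcB2 cut_pm_012 Ext.none :=
  certB2 (fam := true) (s1 := true) (s2 := false) (a := 0) (b := 1) (c := 2) (cn := .pnp) (n1 := ndB1q0) (n2 := ndB5q1) (pc := pcB2) (cut := cut_pm_012) (xt := Ext.none) (P1 := 0) (W1 := 536870912) (P2 := 536870912) (W2 := 536870912) (P3 := 649613803) (W3 := 48318383) (N0 := 3) (En := eng) (mo := mog) (C1 := cd1q0) (C2 := cd5q1) (C3 := pd2)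
    rfl (fun _ => rfl) s6_pm_012

noncomputable def f_pm_022 : ℕ → ℕ → ℕ → ℕ → Bool := onCell 0 536870912 1073741824 536870912 649613803 48318383
    (rowB 3 eng mog cd1q0 cd5q2 pd2 1 true true false .pp 0 2 2 (qsf 0 536870912 1073741824 536870912 2) ndB1q0 ndB5q2 pcB2 Cut.none Ext.none)

def k0_pm_022 : ∃ t, chk3 f_pm_022 t 4 4 1 = true :=
  ⟨(b (l 3) (b (l 3) (b (l 3) (a (b (a (c (b (l 16548168) (l 16538872)) (b (l 16538848) (l 16529024))) (b (c (l 16570824) (l 16564336)) (c (l 16561664) (l 16554688)))) (b (a (c (l 16529704) (l 16519456)) (c (l 16552424) (l 16544976))) (a (l 16516616) (l 16540568)))) (b (b (l 3) (a (c (l 16583552) (l 16578968)) (a (l 16598072) (b (l 3) (l 16606600))))) (b (a (c (l 16595272) (l 16569208)) (a (l 16588600) (c (l 16600592) (l 16597864)))) (a (l 16584344) (a (l 16579720) (a (l 16587632) (l 16593280)))))))))), by decide +kernel⟩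

def k1_pm_022 : ∃ t, chk3 f_pm_022 t 4 5 1 = true :=
  ⟨(b (b (b (a (b (a (b (l 16508416) (l 16500320)) (b (l 16532384) (l 16524352))) (a (c (l 16491856) (l 16481928)) (b (l 16516080) (l 16507248)))) (b (a (b (l 16555200) (l 16547192)) (b (l 16576952) (l 16568968))) (a (b (l 16539152) (l 16530416)) (b (l 16561120) (l 16552528))))) (b (b (a (a (l 16474048) (l 16498392)) (a (l 16521616) (l 16606696))) (a (a (l 16465168) (l 16489584)) (a (l 16512872) (l 16535128)))) (b (a (a (b (l 16458032) (l 16452856)) (l 16500800)) (a (l 16503176) (a (l 16519912) (l 16530952)))) (a (b (b (a (l 16449032) (l 16473192)) (a (l 16446984) (l 16470856))) (b (b (b (a (l 16445664) (l 16469552)) (b (a (l 16445184) (l 16469080)) (a (l 16444664) (l 16468560)))) (l 16456200)) (l 16454688))) (b (b (a (l 16496424) (l 16518752)) (a (l 16493672) (l 16536600))) (b (b (b (a (l 16492264) (l 16513904)) (b (a (l 16491808) (l 16513464)) (a (l 16491296) (l 16533936)))) (a (l 16490696) (l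 16512368))) (a (l 16489176) (l 16510848)))))))) (a (a (b (a (l 16419272) (l 16431544)) (a (b (l 16394736) (l 16377480)) (l 16400136))) (b (l 16449384) (l 16418000))) (a (b (l 16472128) (l 16440712)) (b (l 16493784) (l 16462336))))) (a (a (b (b (a (l 16351432) (l 16368384)) (l 16328744)) (b (l 16300624) (l 16276200))) (b (b (l 16387512) (a (l 16351600) (l 16363672))) (b (l 16371584) (l 16304408)))) (a (b (l 16395296) (b (l 16351800) (l 16324792))) (b (l 16416872) (l 16359216))))), by decide +kernel⟩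

def k2_pm_022 : ∃ t, chk3 f_pm_022 t 4 3 1 = true :=
  ⟨(b (b (a (a (a (b (b (l 16247424) (l 16230472)) (l 16273256)) (b (l 16253592) (l 16223800))) (b (l 16293920) (l 16241544))) (b (a (b (l 16301048) (l 16281664)) (c (l 16373296) (l 16343552))) (a (l 16258728) (l 16308856)))) (a (a (b (a (b (l 16196648) (l 16191520)) (l 16205056)) (a (b (l 16190408) (l 16193408)) (l 16199032))) (b (l 16220616) (l 16231696))) (a (l 16228944) (l 16236520)))) (a (b (b (a (a (b (l 16199632) (l 16207432)) (l 16207072)) (l 16213168)) (a (a (b (l 16217800) (l 16230472)) (l 16224792)) (l 16226536))) (b (a (c (a (l 16313320) (l 16306072)) (l 16200352)) (l 16251080)) (a (c (a (l 16368960) (l 16356784)) (l 16235048)) (l 16286440)))) (b (a (b (l 16221184) (l 16228696)) (l 16374264)) (b (l 16372304) (l 16274088))))), by decide +kernel⟩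

def k3_pm_022 : ∃ t, chk3 f_pm_022 t 5 1 1 = true :=
  ⟨(a (b (b (b (l 1) (b (l 1) (b (l 1) (b (l 1) (a (b (l 1) (a (l 50499079799) (l 1))) (l 1)))))) (b (a (b (b (b (a (b (l 16595520) (l 16587552)) (l 1)) (b (b (l 42982959255) (l 33319276983)) (l 29561179591))) (b (b (l 16569472) (l 16560944)) (b (l 16593416) (b (b (l 16544864) (l 16541576)) (b (b (b (l 16539448) (b (l 16538952) (a (l 16531696) (l 16544896)))) (l 16537888)) (l 16536376)))))) (a (l 16538664) (l 16510008))) (b (b (l 1) (b (l 1) (b (l 1) (b (l 1) (b (l 1) (l 16559952)))))) (l 55330932343))) (b (a (l 16484496) (l 16466720)) (l 16418928)))) (b (b (b (l 16553464) (a (l 16427624) (l 16303176))) (a (b (l 16247632) (l 16235400)) (b (l 16253880) (l 16227664)))) (b (a (l 16233080) (l 16229456)) (b (l 16247824) (l 16267856))))) (b (b (l 1) (b (b (l 1) (a (l 269542347207) (l 1))) (b (a (l 16485208) (l 292090807399)) (l 16519784)))) (b (b (b (l 16382496) (l 16330184)) (b (l 16276696) (l 16247376)))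 (b (b (l 16344408) (l 16194232)) (l 16227232))))), by decide +kernel⟩

def k4_pm_022 : ∃ t, chk3 f_pm_022 t 3 1 1 = true :=
  ⟨(b (b (l 1) (b (l 1) (a (a (b (l 1) (l 322692371255)) (l 1)) (l 1)))) (b (a (b (a (b (a (l 16397160) (l 242698451751)) (l 16355832)) (b (l 1) (l 181495183735))) (a (a (l 16285128) (l 16302744)) (a (l 78415923495) (l 82174132215)))) (b (l 1) (a (b (l 1) (l 179884581863)) (l 1)))) (a (b (a (b (l 16237064) (l 16202696)) (b (l 16277904) (l 16253032))) (a (b (a (l 16157200) (l 16187032)) (l 16151000)) (a (l 16289720) (l 16230968)))) (b (a (b (l 82710930775) (l 16279968)) (l 183105744199)) (a (b (l 16264272) (l 16249992)) (l 79489741511)))))), by decide +kernel⟩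

theorem s5_pm_022 : ∃ t, chk3 f_pm_022 t 4 2 1 = true := ex3_b k0_pm_022 k1_pm_022

theorem s6_pm_022 : ∃ t, chk3 f_pm_022 t 4 1 1 = true := ex3_b s5_pm_022 k2_pm_022

theorem s7_pm_022 : ∃ t, chk3 f_pm_022 t 2 1 1 = true := ex3_a s6_pm_022 k3_pm_022

theorem s8_pm_022 : ∃ t, chk3 f_pm_022 t 1 1 1 = true := ex3_a s7_pm_022 k4_pm_022

theorem c_pm_022 : CertB 0 536870912 1073741824 536870912 649613803 48318383 3 eng mog cd1q0 cd5q2 pd2 true true false .pp 0 2 2
    ndB1q0 ndB5q2 pcB2 Cut.none Ext.none :=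
  certB1 (fam := true) (s1 := true) (s2 := false) (a := 0) (b := 2) (c := 2) (cn := .pp) (n1 := ndB1q0) (n2 := ndB5q2) (pc := pcB2) (cut := Cut.none) (xt := Ext.none) (P1 := 0) (W1 := 536870912) (P2 := 1073741824) (W2 := 536870912) (P3 := 649613803) (W3 := 48318383) (N0 := 3) (En := eng) (mo := mog) (C1 := cd1q0) (C2 := cd5q2) (C3 := pd2)
    rfl (fun _ => rfl) s8_pm_022

noncomputable def f_pm_023 : ℕ → ℕ → ℕ → ℕ → Bool := onCell 1610612736 536870912 1073741824 536870912 649613803 48318383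
    (rowB 3 eng mog cd1q0 cd5q2 pd3 2 true true false .up 0 2 3 (qsf 0 536870912 1073741824 536870912 3) ndB1q0 ndB5q2 pcB3 Cut.none Ext.none)

def k0_pm_023 : ∃ t, chk3 f_pm_023 t 1 1 1 = true :=
  ⟨(a (a (b (b (a (b (l 16309696) (l 16272232)) (b (l 16360800) (l 16309280))) (b (a (b (l 16240304) (l 16219120)) (l 16263496)) (a (l 16192976) (l 16246360)))) (b (a (b (l 16232120) (l 16286304)) (b (l 16198944) (l 16321944))) (a (b (l 16300920) (a (b (l 16291856) (l 16299128)) (l 16324448))) (b (l 16363584) (a (l 16354960) (l 16392192)))))) (a (b (b (b (l 2) (l 16372944)) (b (l 16313496) (a (l 16283976) (l 16321872)))) (b (b (a (l 16224632) (l 16317048)) (a (l 16339392) (l 16343888))) (a (b (l 16412072) (l 16432232)) (b (l 16446440) (l 16481424))))) (b (b (l 2) (b (l 16416312) (l 16423728))) (b (b (l 16432776) (l 16444432)) (b (l 16486424) (l 16536136)))))) (b (a (b (l 2) (a (b (l 2) (l 16512976)) (l 2))) (l 2)) (b (a (a (b (l 16536176) (l 16549168)) (l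 188542494375)) (a (l 458051740919) (l 2))) (a (a (b (l 16573616) (l 16603016)) (b (l 16557696) (l 16680024))) (a (a (l 16705968) (l 16737936)) (a (l 16778176) (a (l 16776400) (l 4)))))))), by decide +kernel⟩

theorem c_pm_023 : CertB 0 536870912 1073741824 536870912 649613803 48318383 3 eng mog cd1q0 cd5q2 pd3 true true false .up 0 2 3
    ndB1q0 ndB5q2 pcB3 Cut.none Ext.none :=
  certB2 (fam := true) (s1 := true) (s2 := false) (a := 0) (b := 2) (c := 3) (cn := .up) (n1 := ndB1q0) (n2 := ndB5q2) (pc := pcB3) (cut := Cut.none) (xt := Ext.none) (P1 := 0) (W1 := 536870912) (P2 := 1073741824) (W2 := 536870912) (P3 := 649613803) (W3 := 48318383) (N0 := 3) (En := eng) (mo := mog) (C1 := cd1q0) (C2 := cd5q2) (C3 := pd3)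
    rfl (fun _ => rfl) k0_pm_023

noncomputable def f_pm_033 : ℕ → ℕ → ℕ → ℕ → Bool := onCell 1610612736 536870912 0 1230186008 649613803 48318383
    (rowB 3 eng mog cd1q0 cd5q3 pd3 2 true true false .pnn 0 3 3 (qsf 0 536870912 0 1230186008 3) ndB1q0 ndB5q3 pcB3 Cut.none Ext.none)

def k0_pm_033 : ∃ t, chk3 f_pm_033 t 2 1 1 = true :=
  ⟨(b (l 1) (b (b (l 1) (a (l 1) (a (l 1) (b (l 1) (a (l 1) (l 16204712)))))) (b (a (l 1) (a (b (a (l 1) (a (l 1) (l 16189304))) (a (b (l 1) (a (b (l 1) (l 16132616)) (b (a (l 237865919079) (c (l 16222992) (l 16084624))) (a (l 16146232) (l 16162568))))) (b (a (b (l 1) (c (l 301217358583) (l 16157688))) (b (l 16235288) (l 16242848))) (a (b (c (l 198138132327) (l 16141776)) (l 16185576)) (b (l 16245080) (l 16234120)))))) (b (a (l 16214792) (l 16258056)) (b (b (l 16274768) (a (l 16264080) (l 16300640))) (b (a (l 16247576) (l 16286504)) (l 16275096)))))) (a (b (a (l 1) (b (a (l 1) (b (l 277057476919) (l 16144304))) (a (l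 260951495511) (l 16171256)))) (a (a (l 273299674631) (l 225518400055)) (a (l 16226104) (l 16253344)))) (a (b (a (b (a (l 16156176) (a (l 16168688) (l 16184152))) (a (l 16190584) (l 16202024))) (b (a (b (l 16222128) (l 16234144)) (l 16257080)) (a (l 16251768) (l 16281696)))) (a (a (l 16274568) (l 16288720)) (a (l 16325608) (l 16352256)))) (b (b (a (l 16278200) (l 16316704)) (l 16330152)) (l 16401936))))))), by decide +kernel⟩

def k1_pm_033 : ∃ t, chk3 f_pm_033 t 3 1 1 = true :=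
  ⟨(a (b (l 1) (b (a (b (l 1) (a (b (l 16218344) (l 16260312)) (b (l 16272896) (l 16313080)))) (b (a (l 16279544) (l 16314464)) (a (l 16567768) (l 16379912)))) (b (b (a (a (l 16307744) (l 16355536)) (a (l 16405144) (l 16453072))) (a (b (b (l 16363080) (a (l 16344848) (l 16394424))) (b (a (l 16333840) (l 16389144)) (l 16373424))) (b (a (l 16444840) (l 16497720)) (a (l 16452352) (l 16506632))))) (b (a (b (l 16397792) (l 16427896)) (a (b (l 16479192) (l 16505904)) (b (l 16533320) (l 16558616)))) (a (l 16490776) (a (l 16563952) (l 16610480))))))) (b (b (l 4) (l 4)) (b (a (b (l 4) (a (l 16413184) (l 4))) (l 4)) (b (a (b (a (l 16495560) (l 4)) (a (b (l 16542160) (l 16555248)) (b (l 16578248) (l 16593432)))) (l 4)) (a (b (a (b (l 16582216) (l 16608048)) (b (l 16622800) (l 16650312))) (a (l 16659424) (l 16693056))) (a (b (l 4) (l 16723704)) (l 4))))))), by decide +kernel⟩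

theorem s2_pm_033 : ∃ t, chk3 f_pm_033 t 1 1 1 = true := ex3_a k0_pm_033 k1_pm_033

theorem c_pm_033 : CertB 0 536870912 0 1230186008 649613803 48318383 3 eng mog cd1q0 cd5q3 pd3 true true false .pnn 0 3 3
    ndB1q0 ndB5q3 pcB3 Cut.none Ext.none :=
  certB2 (fam := true) (s1 := true) (s2 := false) (a := 0) (b := 3) (c := 3) (cn := .pnn) (n1 := ndB1q0) (n2 := ndB5q3) (pc := pcB3) (cut := Cut.none) (xt := Ext.none) (P1 := 0) (W1 := 536870912) (P2 := 0) (W2 := 1230186008) (P3 := 649613803) (W3 := 48318383) (N0 := 3) (En := eng) (mo := mog) (C1 := cd1q0) (C2 := cd5q3) (C3 := pd3)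
    rfl (fun _ => rfl) s2_pm_033

noncomputable def f_pm_101 : ℕ → ℕ → ℕ → ℕ → Bool := onCell 536870912 536870912 0 536870912 649613803 48318383
    (rowB 3 eng mog cd1q1 cd5q0 pd1 2 true true false .npn 1 0 1 (qsf 536870912 536870912 0 536870912 1) ndB1q1 ndB5q0 pcB1 Cut.none Ext.none)

def k0_pm_101 : ∃ t, chk3 f_pm_101 t 1 1 1 = true :=
  ⟨(a (l 3) (a (l 3) (a (b (l 3) (l 3)) (a (b (a (b (l 3) (l 3)) (b (b (b (l 16768872) (l 16775136)) (b (l 16780088) (l 16805024))) (a (l 3) (b (b (l 16773304) (b (l 16771648) (l 16759104))) (l 3))))) (b (l 3) (l 3))) (b (a (b (b (b (l 16723136) (l 16728264)) (b (l 16731832) (l 16734288))) (b (b (l 16756704) (b (l 16734472) (l 16725520))) (b (a (l 16712536) (l 16692056)) (a (l 16674720) (l 16653928))))) (b (b (b (l 16680568) (l 16684968)) (b (l 16687216) (l 16687952))) (b (b (l 16687648) (l 16682240)) (b (l 16660208) (l 16622624))))) (b (b (b (a (a (l 16631280) (l 16609952)) (l 16577904)) (a (l 90361742599) (l 16527016)))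 (b (b (l 105930784023) (a (l 87140378551) (l 16469248))) (a (b (l 89824693287) (l 16486208)) (b (l 16466512) (l 16437416))))) (a (a (l 3) (b (b (b (l 16445992) (l 16425480)) (l 93045822535)) (l 16395184))) (b (b (b (l 16408744) (l 16387848)) (l 16399704)) (l 16382720))))))))), by decide +kernel⟩

theorem c_pm_101 : CertB 536870912 536870912 0 536870912 649613803 48318383 3 eng mog cd1q1 cd5q0 pd1 true true false .npn 1 0 1
    ndB1q1 ndB5q0 pcB1 Cut.none Ext.none :=
  certB2 (fam := true) (s1 := true) (s2 := false) (a := 1) (b := 0) (c := 1) (cn := .npn) (n1 := ndB1q1) (n2 := ndB5q0) (pc := pcB1) (cut := Cut.none) (xt := Ext.none) (P1 := 536870912) (W1 := 536870912) (P2 := 0) (W2 := 536870912) (P3 := 649613803) (W3 := 48318383) (N0 := 3) (En := eng) (mo := mog) (C1 := cd1q1) (C2 := cd5q0) (C3 := pd1)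
    rfl (fun _ => rfl) k0_pm_101

noncomputable def f_pm_102 : ℕ → ℕ → ℕ → ℕ → Bool := onCell 1073741824 536870912 0 536870912 649613803 48318383
    (rowB 3 eng mog cd1q1 cd5q0 pd2 2 true true false .npp 1 0 2 (qsf 536870912 536870912 0 536870912 2) ndB1q1 ndB5q0 pcB2 Cut.none Ext.none)

def k0_pm_102 : ∃ t, chk3 f_pm_102 t 2 2 1 = true :=
  ⟨(a (b (a (b (a (b (a (l 16679288) (l 16604720)) (a (l 16634744) (l 16698000))) (b (a (l 16592616) (l 2)) (a (l 16584208) (l 16553520)))) (a (b (a (l 16635920) (l 16599608)) (l 16615488)) (b (l 16590856) (l 16561384)))) (b (a (b (l 2) (a (l 16523624) (l 2))) (l 2)) (a (b (b (l 16511728) (l 16532528)) (l 16553672)) (b (b (l 2) (l 16448584)) (l 16484504))))) (a (b (a (b (l 16613936) (l 16649616)) (b (l 16547608) (l 16536168))) (a (b (l 16591376) (l 16562976)) (l 16573136))) (b (a (b (l 16548000) (l 16507072)) (b (l 16519856) (l 16523624))) (a (l 16466752) (l 16463880))))) (b (a (b (l 2) (a (a (b (l 2) (l 16427112))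 (l 2)) (l 2))) (l 2)) (a (a (b (a (b (l 16474528) (l 16502792)) (b (a (l 16450120) (l 16434056)) (a (l 16486744) (l 16475688)))) (a (l 16486448) (a (l 16487960) (l 16487344)))) (a (b (a (l 16506416) (l 75262357511)) (l 16482496)) (b (l 48955696375) (l 16482056)))) (b (b (l 2) (a (l 16413152) (l 2))) (a (l 16475336) (l 16455424)))))), by decide +kernel⟩

def k1_pm_102 : ∃ t, chk3 f_pm_102 t 2 3 1 = true :=
  ⟨(a (b (b (a (a (b (l 16521272) (l 16472872)) (l 16449992)) (a (l 16414536) (l 16397376))) (a (b (b (a (l 16432672) (l 16393024)) (a (l 16396680) (l 16379216))) (b (a (l 16414480) (l 16375304)) (l 16440592))) (b (b (l 16361712) (l 16349040)) (b (l 16343184) (l 16322256))))) (b (a (b (b (l 16373600) (l 16397264)) (b (l 16406208) (l 16315288))) (b (l 16280624) (l 16206144))) (a (a (l 16348832) (l 16170656)) (a (l 16144344) (l 16157104))))) (b (b (a (a (a (l 16400256) (l 16434808)) (l 16651696)) (a (l 16489096) (l 16509048))) (a (a (b (a (l 16353352)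 (l 16507624)) (a (l 16330992) (l 16412720))) (b (l 16378584) (l 16352480))) (b (l 16482800) (l 16461568)))) (b (a (a (a (b (l 16284592) (l 16221888)) (b (l 16295616) (l 16237232))) (b (l 16311952) (l 16258016))) (b (l 16419784) (l 16372384))) (a (a (a (l 16164880) (l 16267720)) (l 16194224)) (l 16302448))))), by decide +kernel⟩

def k2_pm_102 : ∃ t, chk3 f_pm_102 t 3 1 1 = true :=
  ⟨(b (a (b (l 2) (a (b (l 2) (a (l 16434832) (l 2))) (l 2))) (l 2)) (b (a (b (a (l 16508416) (a (l 16497296) (l 2))) (a (b (l 16539072) (l 16548000)) (b (l 16631816) (l 16571328)))) (b (l 2) (a (b (l 2) (a (l 16574528) (l 2))) (l 2)))) (a (b (a (b (l 16539960) (l 16516384)) (b (l 16590016) (l 16596344))) (a (l 16448392) (l 16572240))) (b (a (b (l 16614840) (l 16645816)) (a (l 16676896) (l 2))) (a (l 16673248) (a (l 16749376) (l 16819976))))))), by decide +kernel⟩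

theorem s3_pm_102 : ∃ t, chk3 f_pm_102 t 2 1 1 = true := ex3_b k0_pm_102 k1_pm_102

theorem s4_pm_102 : ∃ t, chk3 f_pm_102 t 1 1 1 = true := ex3_a s3_pm_102 k2_pm_102

theorem c_pm_102 : CertB 536870912 536870912 0 536870912 649613803 48318383 3 eng mog cd1q1 cd5q0 pd2 true true false .npp 1 0 2
    ndB1q1 ndB5q0 pcB2 Cut.none Ext.none :=
  certB2 (fam := true) (s1 := true) (s2 := false) (a := 1) (b := 0) (c := 2) (cn := .npp) (n1 := ndB1q1) (n2 := ndB5q0) (pc := pcB2) (cut := Cut.none) (xt := Ext.none) (P1 := 536870912) (W1 := 536870912) (P2 := 0) (W2 := 536870912) (P3 := 649613803) (W3 := 48318383) (N0 := 3) (En := eng) (mo := mog) (C1 := cd1q1) (C2 := cd5q0) (C3 := pd2)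
    rfl (fun _ => rfl) s4_pm_102

noncomputable def f_pm_112 : ℕ → ℕ → ℕ → ℕ → Bool := onCell 536870912 536870912 1073741824 536870912 649613803 48318383
    (rowB 3 eng mog cd1q1 cd5q1 pd2 1 true true false .dn 1 1 2 (qsf 536870912 536870912 536870912 536870912 2) ndB1q1 ndB5q1 pcB2 Cut.none Ext.none)

def k0_pm_112 : ∃ t, chk3 f_pm_112 t 1 1 1 = true :=
  ⟨(a (b (a (b (b (a (b (l 16203576) (l 16226152)) (l 311417576903)) (a (b (l 16231432) (l 16224784)) (b (l 16191520) (l 16193656)))) (b (b (b (l 16283912) (b (l 16196040) (a (l 16212472) (l 16193480)))) (a (l 16201128) (l 16188744))) (a (l 16199976) (l 16215264)))) (b (b (l 1) (b (l 1) (l 16284272))) (b (b (b (l 16177872) (b (l 16176848) (l 16372888))) (l 16206704)) (l 16287296)))) (b (a (b (a (l 16171592) (l 16221064)) (a (l 16126920) (l 16207040))) (b (l 16296640) (l 16494600))) (a (b (a (l 16088368) (l 16196512)) (a (l 16060104) (l 16193736))) (b (l 16360776) (l 16392928))))) (b (a (b (l 1) (b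 (l 1) (l 392485802183))) (l 1)) (b (a (b (l 16420160) (l 16493584)) (b (l 1) (l 16673240))) (a (b (l 16566088) (l 16652880)) (b (l 16680808) (l 16804056)))))), by decide +kernel⟩

theorem c_pm_112 : CertB 536870912 536870912 536870912 536870912 649613803 48318383 3 eng mog cd1q1 cd5q1 pd2 true true false .dn 1 1 2
    ndB1q1 ndB5q1 pcB2 Cut.none Ext.none :=
  certB1 (fam := true) (s1 := true) (s2 := false) (a := 1) (b := 1) (c := 2) (cn := .dn) (n1 := ndB1q1) (n2 := ndB5q1) (pc := pcB2) (cut := Cut.none) (xt := Ext.none) (P1 := 536870912) (W1 := 536870912) (P2 := 536870912) (W2 := 536870912) (P3 := 649613803) (W3 := 48318383) (N0 := 3) (En := eng) (mo := mog) (C1 := cd1q1) (C2 := cd5q1) (C3 := pd2)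
    rfl (fun _ => rfl) k0_pm_112

noncomputable def f_pm_113 : ℕ → ℕ → ℕ → ℕ → Bool := onCell 536870912 536870912 1610612736 536870912 649613803 48318383
    (rowB 3 eng mog cd1q1 cd5q1 pd3 1 true true false .nn 1 1 3 (qsf 536870912 536870912 536870912 536870912 3) ndB1q1 ndB5q1 pcB3 Cut.none Ext.none)

def k0_pm_113 : ∃ t, chk3 f_pm_113 t 1 1 1 = true :=
  ⟨(a (b (b (b (a (a (l 15915528) (l 16070392)) (l 16317952)) (a (b (l 233101194135) (l 233637789847)) (a (l 16175160) (l 16325520)))) (b (b (a (b (l 319537074119) (l 2)) (a (l 16133416) (l 16287256))) (a (l 2) (a (l 283567550503) (l 16263824)))) (a (l 2) (b (l 16171480) (l 16157096))))) (b (b (a (l 2) (b (l 376983033095) (l 2))) (l 2)) (l 2))) (b (b (b (a (l 16589328) (a (l 16781912) (l 16892216))) (a (l 16518872) (a (l 16702504) (l 16799960)))) (a (b (a (l 16395704) (l 16519120)) (a (l 16359040) (l 16473200))) (b (l 16681168) (l 16617800)))) (b (b (a (b (l 16397472) (l 16386560)) (l 16557552)) (a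 (b (l 16366744) (l 16342840)) (l 4))) (l 4)))), by decide +kernel⟩

theorem c_pm_113 : CertB 536870912 536870912 536870912 536870912 649613803 48318383 3 eng mog cd1q1 cd5q1 pd3 true true false .nn 1 1 3
    ndB1q1 ndB5q1 pcB3 Cut.none Ext.none :=
  certB1 (fam := true) (s1 := true) (s2 := false) (a := 1) (b := 1) (c := 3) (cn := .nn) (n1 := ndB1q1) (n2 := ndB5q1) (pc := pcB3) (cut := Cut.none) (xt := Ext.none) (P1 := 536870912) (W1 := 536870912) (P2 := 536870912) (W2 := 536870912) (P3 := 649613803) (W3 := 48318383) (N0 := 3) (En := eng) (mo := mog) (C1 := cd1q1) (C2 := cd5q1) (C3 := pd3)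
    rfl (fun _ => rfl) k0_pm_113

noncomputable def f_pm_123 : ℕ → ℕ → ℕ → ℕ → Bool := onCell 1610612736 536870912 1073741824 536870912 649613803 48318383
    (rowB 3 eng mog cd1q1 cd5q2 pd3 2 true true false .npn 1 2 3 (qsf 536870912 536870912 1073741824 536870912 3) ndB1q1 ndB5q2 pcB3 Cut.none Ext.none)

def k0_pm_123 : ∃ t, chk3 f_pm_123 t 1 1 1 = true :=
  ⟨(a (a (b (b (a (b (l 16343488) (l 16321928)) (b (l 16419272) (l 16349208))) (b (l 147135842103) (l 1))) (l 1)) (a (b (b (b (l 16559280) (l 16437440)) (b (l 16359320) (l 170221293703))) (l 1)) (b (b (b (l 16647808) (l 16548696)) (b (l 16468408) (l 16461544))) (b (b (l 16485136) (l 1)) (l 1))))) (b (a (b (b (a (l 16697592) (l 16781960)) (a (l 16614088) (l 16644400))) (a (b (l 16553736) (l 16554216)) (b (l 16591440) (l 16599880)))) (a (b (b (b (a (l 16741184) (a (l 16733344) (l 16728368))) (l 16699808)) (l 16693800)) (b (b (l 16611728) (l 16596232)) (a (l 16611904) (l 16613832)))) (a (b (b (b (l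 16731064) (a (l 16689936) (l 16692496))) (b (l 16681176) (l 16637512))) (b (b (l 16613912) (l 16593200)) (l 16614160))) (a (b (b (l 16718200) (l 16793768)) (b (l 16732680) (l 16621464))) (b (a (b (l 16716008) (l 16693512)) (a (b (l 16711952) (l 16658896)) (b (a (l 16706064) (l 16714128)) (a (l 16663024) (a (l 16663808) (l 16661264)))))) (a (b (l 16611240) (l 16626944)) (a (b (l 16615040) (l 16631088)) (b (a (l 16617160) (a (l 16618448) (b (l 16732320) (l 16610568)))) (a (l 16634368) (l 16702720)))))))))) (b (a (a (l 16701536) (b (l 16616032) (l 16634104))) (a (b (l 16637424) (l 16666744)) (a (b (l 16652496) (l 16694024)) (a (l 16688856) (a (l 16699600) (a (l 16703760) (b (l 4) (l 4)))))))) (a (a (l 1) (l 16944816)) (a (a (l 16729456) (l 16760800)) (a (l 16768848) (a (l 16759784) (l 4)))))))), by decide +kernel⟩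

theorem c_pm_123 : CertB 536870912 536870912 1073741824 536870912 649613803 48318383 3 eng mog cd1q1 cd5q2 pd3 true true false .npn 1 2 3
    ndB1q1 ndB5q2 pcB3 Cut.none Ext.none :=
  certB2 (fam := true) (s1 := true) (s2 := false) (a := 1) (b := 2) (c := 3) (cn := .npn) (n1 := ndB1q1) (n2 := ndB5q2) (pc := pcB3) (cut := Cut.none) (xt := Ext.none) (P1 := 536870912) (W1 := 536870912) (P2 := 1073741824) (W2 := 536870912) (P3 := 649613803) (W3 := 48318383) (N0 := 3) (En := eng) (mo := mog) (C1 := cd1q1) (C2 := cd5q2) (C3 := pd3)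
    rfl (fun _ => rfl) k0_pm_123

noncomputable def f_pm_133 : ℕ → ℕ → ℕ → ℕ → Bool := onCell 536870912 536870912 0 1230186008 649613803 48318383
    (rowB 3 eng mog cd1q1 cd5q3 pd3 0 true true false .dn 1 3 3 (qsf 536870912 536870912 0 1230186008 3) ndB1q1 ndB5q3 pcB3 Cut.none Ext.none)

def k0_pm_133 : ∃ t, chk3 f_pm_133 t 1 1 1 = true :=
  ⟨(b (l 2) (b (l 2) (a (l 4) (l 2)))), by decide +kernel⟩

theorem c_pm_133 : CertB 536870912 536870912 0 1230186008 649613803 48318383 3 eng mog cd1q1 cd5q3 pd3 true true false .dn 1 3 3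
    ndB1q1 ndB5q3 pcB3 Cut.none Ext.none :=
  certB0 (fam := true) (s1 := true) (s2 := false) (a := 1) (b := 3) (c := 3) (cn := .dn) (n1 := ndB1q1) (n2 := ndB5q3) (pc := pcB3) (cut := Cut.none) (xt := Ext.none) (P1 := 536870912) (W1 := 536870912) (P2 := 0) (W2 := 1230186008) (P3 := 649613803) (W3 := 48318383) (N0 := 3) (En := eng) (mo := mog) (C1 := cd1q1) (C2 := cd5q3) (C3 := pd3)
    rfl k0_pm_133

noncomputable def f_pm_202_a : ℕ → ℕ → ℕ → ℕ → Bool := onCell 0 536870912 0 536870912 649613803 48318383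
    (rowB 3 eng mog cd1q2a cd5q0 pd2 0 true true false .pp 2 0 2 (qsf 0 536870912 0 536870912 2) ndB1q2a ndB5q0 pcB2 Cut.none Ext.none)

def k0_pm_202_a : ∃ t, chk3 f_pm_202_a t 2 1 1 = true :=
  ⟨(a (b (b (b (b (a (b (l 16414864) (l 16422160)) (b (l 16420832) (a (l 16421736) (l 16423640)))) (a (l 16464128) (l 16442440))) (b (a (l 16469664) (l 16467944)) (a (l 16495864) (l 16493168)))) (b (b (l 16520560) (a (l 16552488) (l 16544968))) (b (a (l 16585296) (l 16574616)) (a (l 16618688) (l 16604712))))) (b (b (b (l 16725952) (l 4)) (l 4)) (l 2))) (b (b (b (b (a (b (l 16479160) (a (l 16428048) (l 16434080))) (b (a (l 16454072) (l 16467608)) (a (l 16442384) (l 16452200)))) (a (b (a (l 16437080) (l 16437240)) (l 16450616)) (b (a (l 16563904) (b (l 16442344) (l 16438040))) (a (l 16447912) (l 16442096))))) (a (b (l 16469632) (l 16492736)) (b (l 16464024) (l 16487144)))) (b (a (b (l 16516288) (l 16582200)) (b (l 16508552) (l 16529176))) (b (a (l 16567416) (l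 16762688)) (a (l 16595752) (l 16579264))))) (b (b (a (b (l 16622648) (l 16648616)) (l 16619192)) (b (a (l 16673128) (l 16657088)) (a (l 4) (l 16682656)))) (l 4)))), by decide +kernel⟩

def k1_pm_202_a : ∃ t, chk3 f_pm_202_a t 3 2 1 = true :=
  ⟨(b (a (b (b (a (a (l 16557272) (b (l 16496160) (l 16477608))) (a (l 16585000) (b (l 16526864) (l 16506088)))) (a (b (l 16580760) (a (b (l 16438432) (l 16437032)) (l 16443408))) (a (l 16463656) (l 16476688)))) (b (a (a (l 16451216) (b (b (l 16435216) (l 16436152)) (l 16444312))) (a (b (l 16439216) (l 16434744)) (b (l 16449912) (l 16435496)))) (a (l 16468816) (a (l 16447976) (b (l 16432840) (l 16440352)))))) (b (a (b (a (b (l 16545000) (l 16523352)) (b (l 16563768) (l 16541848))) (a (l 16492456) (l 16509720))) (b (a (b (a (l 16579576) (l 16592456)) (l 16560984)) (a (b (l 16627200) (l 16578712)) (b (l 16620384) (l 16592344)))) (a (l 16653560) (b (l 16664800) (l 16536672))))) (b (a (a (l 16455520) (l 16471064))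 (a (l 16487840) (l 16632872))) (a (a (b (l 16434152) (l 16432544)) (b (l 16446424) (l 16434616))) (a (l 16455032) (l 16495016)))))) (a (b (a (b (l 16489840) (l 16509472)) (b (l 16462176) (l 16482064))) (a (b (l 16528672) (l 16551984)) (b (l 16501312) (l 16522216)))) (b (a (b (a (l 16444240) (b (l 16433480) (l 16440872))) (a (l 16462528) (l 16453376))) (b (a (b (l 16626600) (l 16646736)) (b (l 16455696) (a (l 16442512) (l 16452704)))) (a (l 16448072) (b (a (l 16444200) (l 16470536)) (l 16453360))))) (a (b (l 16477232) (l 16498880)) (b (l 16465944) (l 16487872)))))), by decide +kernel⟩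

def k2_pm_202_a : ∃ t, chk3 f_pm_202_a t 3 3 1 = true :=
  ⟨(b (b (a (a (b (l 16579072) (l 16606408)) (b (l 16546656) (l 16575344))) (a (b (l 16523320) (l 16551872)) (b (l 16513472) (l 16542976)))) (a (b (a (l 16634568) (l 16606112)) (a (l 16662728) (l 16636664))) (a (b (l 16583696) (l 16615592)) (b (l 16575752) (l 16607464))))) (a (b (a (b (l 16693656) (l 2)) (b (l 16673904) (l 16718408))) (l 2)) (b (a (b (l 16655280) (l 16706440)) (b (l 16649288) (l 16705264))) (a (l 16816088) (l 16743280))))), by decide +kernel⟩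

theorem s3_pm_202_a : ∃ t, chk3 f_pm_202_a t 3 1 1 = true := ex3_b k1_pm_202_a k2_pm_202_a

theorem s4_pm_202_a : ∃ t, chk3 f_pm_202_a t 1 1 1 = true := ex3_a k0_pm_202_a s3_pm_202_a

theorem c_pm_202_a : CertB 0 536870912 0 536870912 649613803 48318383 3 eng mog cd1q2a cd5q0 pd2 true true false .pp 2 0 2
    ndB1q2a ndB5q0 pcB2 Cut.none Ext.none :=
  certB0 (fam := true) (s1 := true) (s2 := false) (a := 2) (b := 0) (c := 2) (cn := .pp) (n1 := ndB1q2a) (n2 := ndB5q0) (pc := pcB2) (cut := Cut.none) (xt := Ext.none) (P1 := 0) (W1 := 536870912) (P2 := 0) (W2 := 536870912) (P3 := 649613803) (W3 := 48318383) (N0 := 3) (En := eng) (mo := mog) (C1 := cd1q2a) (C2 := cd5q0) (C3 := pd2)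
    rfl s4_pm_202_a

noncomputable def f_pm_202_b : ℕ → ℕ → ℕ → ℕ → Bool := onCell 1073741824 536870912 0 536870912 649613803 48318383
    (rowB 3 eng mog cd1q2b cd5q0 pd2 2 true true false .pp 2 0 2 (qsf 1239849684 370763052 0 536870912 2) ndB1q2b ndB5q0 pcB2 Cut.none Ext.none)

def k0_pm_202_b : ∃ t, chk3 f_pm_202_b t 1 1 1 = true :=
  ⟨(a (b (a (l 1) (b (a (b (a (b (l 190622393943) (l 1)) (b (a (l 16424840) (l 16410704)) (l 287796091159))) (l 1)) (b (b (a (l 16393144) (l 16362200)) (a (l 16444112) (l 16420904))) (a (l 372084741303) (l 16493072)))) (l 1))) (l 1)) (a (b (b (a (b (l 16316280) (a (l 16475496) (l 16452744))) (a (b (l 16261152) (l 16423328)) (l 16295032))) (a (b (a (l 382285301031) (l 16546112)) (l 1)) (a (b (b (l 16513096) (l 16557528)) (l 404833702855)) (b (l 16523816) (l 4))))) (l 1)) (b (b (a (b (l 16167544) (l 16298720)) (b (l 16139312) (l 4))) (a (b (l 4) (l 4)) (l 4))) (l 4)))), by decide +kernel⟩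

theorem c_pm_202_b : CertB 1239849684 370763052 0 536870912 649613803 48318383 3 eng mog cd1q2b cd5q0 pd2 true true false .pp 2 0 2
    ndB1q2b ndB5q0 pcB2 Cut.none Ext.none :=
  certB2 (fam := true) (s1 := true) (s2 := false) (a := 2) (b := 0) (c := 2) (cn := .pp) (n1 := ndB1q2b) (n2 := ndB5q0) (pc := pcB2) (cut := Cut.none) (xt := Ext.none) (P1 := 1239849684) (W1 := 370763052) (P2 := 0) (W2 := 536870912) (P3 := 649613803) (W3 := 48318383) (N0 := 3) (En := eng) (mo := mog) (C1 := cd1q2b) (C2 := cd5q0) (C3 := pd2)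
    rfl (fun _ => rfl) k0_pm_202_b

noncomputable def f_pm_203_a : ℕ → ℕ → ℕ → ℕ → Bool := onCell 0 536870912 1610612736 536870912 649613803 48318383
    (rowB 3 eng mog cd1q2a cd5q0 pd3 1 true true false .up 2 0 3 (qsf 0 536870912 0 536870912 3) ndB1q2a ndB5q0 pcB3 Cut.none Ext.none)

def k0_pm_203_a : ∃ t, chk3 f_pm_203_a t 1 1 1 = true :=
  ⟨(b (a (b (l 4) (l 4)) (a (b (b (b (a (l 16711024) (l 16735080)) (l 54459287255)) (l 16661400)) (l 2)) (b (b (l 16826848) (l 16770040)) (l 2)))) (l 2)), by decide +kernel⟩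

theorem c_pm_203_a : CertB 0 536870912 0 536870912 649613803 48318383 3 eng mog cd1q2a cd5q0 pd3 true true false .up 2 0 3
    ndB1q2a ndB5q0 pcB3 Cut.none Ext.none :=
  certB1 (fam := true) (s1 := true) (s2 := false) (a := 2) (b := 0) (c := 3) (cn := .up) (n1 := ndB1q2a) (n2 := ndB5q0) (pc := pcB3) (cut := Cut.none) (xt := Ext.none) (P1 := 0) (W1 := 536870912) (P2 := 0) (W2 := 536870912) (P3 := 649613803) (W3 := 48318383) (N0 := 3) (En := eng) (mo := mog) (C1 := cd1q2a) (C2 := cd5q0) (C3 := pd3)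
    rfl (fun _ => rfl) k0_pm_203_a

noncomputable def f_pm_203_b : ℕ → ℕ → ℕ → ℕ → Bool := onCell 1610612736 536870912 0 536870912 649613803 48318383
    (rowB 3 eng mog cd1q2b cd5q0 pd3 2 true true false .up 2 0 3 (qsf 1239849684 370763052 0 536870912 3) ndB1q2b ndB5q0 pcB3 Cut.none Ext.none)

def k0_pm_203_b : ∃ t, chk3 f_pm_203_b t 1 1 1 = true :=
  ⟨(a (b (a (b (l 4) (l 4)) (l 4)) (l 4)) (l 4)), by decide +kernel⟩

theorem c_pm_203_b : CertB 1239849684 370763052 0 536870912 649613803 48318383 3 eng mog cd1q2b cd5q0 pd3 true true false .up 2 0 3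
    ndB1q2b ndB5q0 pcB3 Cut.none Ext.none :=
  certB2 (fam := true) (s1 := true) (s2 := false) (a := 2) (b := 0) (c := 3) (cn := .up) (n1 := ndB1q2b) (n2 := ndB5q0) (pc := pcB3) (cut := Cut.none) (xt := Ext.none) (P1 := 1239849684) (W1 := 370763052) (P2 := 0) (W2 := 536870912) (P3 := 649613803) (W3 := 48318383) (N0 := 3) (En := eng) (mo := mog) (C1 := cd1q2b) (C2 := cd5q0) (C3 := pd3)
    rfl (fun _ => rfl) k0_pm_203_b

noncomputable def f_pm_213_a : ℕ → ℕ → ℕ → ℕ → Bool := onCell 0 536870912 1610612736 536870912 649613803 48318383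
    (rowB 3 eng mog cd1q2a cd5q1 pd3 1 true true false .pnn 2 1 3 (qsf 0 536870912 536870912 536870912 3) ndB1q2a ndB5q1 pcB3 Cut.none Ext.none)

def k0_pm_213_a : ∃ t, chk3 f_pm_213_a t 1 1 1 = true :=
  ⟨(b (b (a (l 4) (b (a (l 1) (l 16657080)) (a (l 16649656) (l 16741024)))) (a (l 4) (a (l 4) (b (l 16683112) (l 4))))) (l 4)), by decide +kernel⟩

theorem c_pm_213_a : CertB 0 536870912 536870912 536870912 649613803 48318383 3 eng mog cd1q2a cd5q1 pd3 true true false .pnn 2 1 3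
    ndB1q2a ndB5q1 pcB3 Cut.none Ext.none :=
  certB1 (fam := true) (s1 := true) (s2 := false) (a := 2) (b := 1) (c := 3) (cn := .pnn) (n1 := ndB1q2a) (n2 := ndB5q1) (pc := pcB3) (cut := Cut.none) (xt := Ext.none) (P1 := 0) (W1 := 536870912) (P2 := 536870912) (W2 := 536870912) (P3 := 649613803) (W3 := 48318383) (N0 := 3) (En := eng) (mo := mog) (C1 := cd1q2a) (C2 := cd5q1) (C3 := pd3)
    rfl (fun _ => rfl) k0_pm_213_a

noncomputable def f_pm_213_b : ℕ → ℕ → ℕ → ℕ → Bool := onCell 1239849684 370763052 536870912 536870912 649613803 48318383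
    (rowB 3 eng mog cd1q2b cd5q1 pd3 0 true true false .pnn 2 1 3 (qsf 1239849684 370763052 536870912 536870912 3) ndB1q2b ndB5q1 pcB3 Cut.none Ext.none)

def k0_pm_213_b : ∃ t, chk3 f_pm_213_b t 1 1 1 = true :=
  ⟨(l 4), by decide +kernel⟩

theorem c_pm_213_b : CertB 1239849684 370763052 536870912 536870912 649613803 48318383 3 eng mog cd1q2b cd5q1 pd3 true true false .pnn 2 1 3
    ndB1q2b ndB5q1 pcB3 Cut.none Ext.none :=
  certB0 (fam := true) (s1 := true) (s2 := false) (a := 2) (b := 1) (c := 3) (cn := .pnn) (n1 := ndB1q2b) (n2 := ndB5q1) (pc := pcB3) (cut := Cut.none) (xt := Ext.none) (P1 := 1239849684) (W1 := 370763052) (P2 := 536870912) (W2 := 536870912) (P3 := 649613803) (W3 := 48318383) (N0 := 3) (En := eng) (mo := mog) (C1 := cd1q2b) (C2 := cd5q1) (C3 := pd3)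
    rfl k0_pm_213_b

noncomputable def f_pm_303 : ℕ → ℕ → ℕ → ℕ → Bool := onCell 1610612736 536870912 0 536870912 649613803 48318383
    (rowB 3 eng mog cd1q3 cd5q0 pd3 2 true true false .npn 3 0 3 (qsf 1610612736 536870912 0 536870912 3) ndB1q3 ndB5q0 pcB3 Cut.none Ext.none)

def k0_pm_303 : ∃ t, chk3 f_pm_303 t 1 1 1 = true :=
  ⟨(a (b (a (b (l 4) (l 4)) (l 4)) (l 4)) (l 4)), by decide +kernel⟩

theorem c_pm_303 : CertB 1610612736 536870912 0 536870912 649613803 48318383 3 eng mog cd1q3 cd5q0 pd3 true true false .npn 3 0 3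
    ndB1q3 ndB5q0 pcB3 Cut.none Ext.none :=
  certB2 (fam := true) (s1 := true) (s2 := false) (a := 3) (b := 0) (c := 3) (cn := .npn) (n1 := ndB1q3) (n2 := ndB5q0) (pc := pcB3) (cut := Cut.none) (xt := Ext.none) (P1 := 1610612736) (W1 := 536870912) (P2 := 0) (W2 := 536870912) (P3 := 649613803) (W3 := 48318383) (N0 := 3) (En := eng) (mo := mog) (C1 := cd1q3) (C2 := cd5q0) (C3 := pd3)
    rfl (fun _ => rfl) k0_pm_303

noncomputable def f_pm_313 : ℕ → ℕ → ℕ → ℕ → Bool := onCell 1610612736 536870912 536870912 536870912 649613803 48318383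
    (rowB 3 eng mog cd1q3 cd5q1 pd3 0 true true false .dn 3 1 3 (qsf 1610612736 536870912 536870912 536870912 3) ndB1q3 ndB5q1 pcB3 Cut.none Ext.none)

def k0_pm_313 : ∃ t, chk3 f_pm_313 t 1 1 1 = true :=
  ⟨(l 4), by decide +kernel⟩

theorem c_pm_313 : CertB 1610612736 536870912 536870912 536870912 649613803 48318383 3 eng mog cd1q3 cd5q1 pd3 true true false .dn 3 1 3
    ndB1q3 ndB5q1 pcB3 Cut.none Ext.none :=
  certB0 (fam := true) (s1 := true) (s2 := false) (a := 3) (b := 1) (c := 3) (cn := .dn) (n1 := ndB1q3) (n2 := ndB5q1) (pc := pcB3) (cut := Cut.none) (xt := Ext.none) (P1 := 1610612736) (W1 := 536870912) (P2 := 536870912) (W2 := 536870912) (P3 := 649613803) (W3 := 48318383) (N0 := 3) (En := eng) (mo := mog) (C1 := cd1q3) (C2 := cd5q1) (C3 := pd3)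
    rfl k0_pm_313

noncomputable def f_mm_001 : ℕ → ℕ → ℕ → ℕ → Bool := onCell 0 536870912 0 536870912 649613803 48318383
    (rowB 3 eng mog cd1q0 cd5q0 pd1 0 true false false .up 0 0 1 (qsf 0 536870912 0 536870912 1) ndB1q0 ndB5q0 pcB1 Cut.none Ext.none)

def k0_mm_001 : ∃ t, chk3 f_mm_001 t 1 1 1 = true :=
  ⟨(l 4), by decide +kernel⟩

theorem c_mm_001 : CertB 0 536870912 0 536870912 649613803 48318383 3 eng mog cd1q0 cd5q0 pd1 true false false .up 0 0 1
    ndB1q0 ndB5q0 pcB1 Cut.none Ext.none :=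
  certB0 (fam := true) (s1 := false) (s2 := false) (a := 0) (b := 0) (c := 1) (cn := .up) (n1 := ndB1q0) (n2 := ndB5q0) (pc := pcB1) (cut := Cut.none) (xt := Ext.none) (P1 := 0) (W1 := 536870912) (P2 := 0) (W2 := 536870912) (P3 := 649613803) (W3 := 48318383) (N0 := 3) (En := eng) (mo := mog) (C1 := cd1q0) (C2 := cd5q0) (C3 := pd1)
    rfl k0_mm_001

noncomputable def f_mm_011 : ℕ → ℕ → ℕ → ℕ → Bool := onCell 0 536870912 536870912 536870912 649613803 48318383
    (rowB 3 eng mog cd1q0 cd5q1 pd1 0 true false false .pnn 0 1 1 (qsf 0 536870912 536870912 536870912 1) ndB1q0 ndB5q1 pcB1 Cut.none Ext.none)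

def k0_mm_011 : ∃ t, chk3 f_mm_011 t 1 1 1 = true :=
  ⟨(l 4), by decide +kernel⟩

theorem c_mm_011 : CertB 0 536870912 536870912 536870912 649613803 48318383 3 eng mog cd1q0 cd5q1 pd1 true false false .pnn 0 1 1
    ndB1q0 ndB5q1 pcB1 Cut.none Ext.none :=
  certB0 (fam := true) (s1 := false) (s2 := false) (a := 0) (b := 1) (c := 1) (cn := .pnn) (n1 := ndB1q0) (n2 := ndB5q1) (pc := pcB1) (cut := Cut.none) (xt := Ext.none) (P1 := 0) (W1 := 536870912) (P2 := 536870912) (W2 := 536870912) (P3 := 649613803) (W3 := 48318383) (N0 := 3) (En := eng) (mo := mog) (C1 := cd1q0) (C2 := cd5q1) (C3 := pd1)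
    rfl k0_mm_011

noncomputable def f_mm_012 : ℕ → ℕ → ℕ → ℕ → Bool := onCell 0 536870912 536870912 536870912 649613803 48318383
    (rowB 3 eng mog cd1q0 cd5q1 pd2 0 true false false .pnp 0 1 2 (qsf 0 536870912 536870912 536870912 2) ndB1q0 ndB5q1 pcB2 Cut.none Ext.none)

def k0_mm_012 : ∃ t, chk3 f_mm_012 t 1 1 1 = true :=
  ⟨(l 4), by decide +kernel⟩

theorem c_mm_012 : CertB 0 536870912 536870912 536870912 649613803 48318383 3 eng mog cd1q0 cd5q1 pd2 true false false .pnp 0 1 2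
    ndB1q0 ndB5q1 pcB2 Cut.none Ext.none :=
  certB0 (fam := true) (s1 := false) (s2 := false) (a := 0) (b := 1) (c := 2) (cn := .pnp) (n1 := ndB1q0) (n2 := ndB5q1) (pc := pcB2) (cut := Cut.none) (xt := Ext.none) (P1 := 0) (W1 := 536870912) (P2 := 536870912) (W2 := 536870912) (P3 := 649613803) (W3 := 48318383) (N0 := 3) (En := eng) (mo := mog) (C1 := cd1q0) (C2 := cd5q1) (C3 := pd2)
    rfl k0_mm_012

noncomputable def f_mm_022 : ℕ → ℕ → ℕ → ℕ → Bool := onCell 0 536870912 1073741824 536870912 649613803 48318383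
    (rowB 3 eng mog cd1q0 cd5q2 pd2 0 true false false .pp 0 2 2 (qsf 0 536870912 1073741824 536870912 2) ndB1q0 ndB5q2 pcB2 Cut.none Ext.none)

def k0_mm_022 : ∃ t, chk3 f_mm_022 t 1 1 1 = true :=
  ⟨(l 4), by decide +kernel⟩

theorem c_mm_022 : CertB 0 536870912 1073741824 536870912 649613803 48318383 3 eng mog cd1q0 cd5q2 pd2 true false false .pp 0 2 2
    ndB1q0 ndB5q2 pcB2 Cut.none Ext.none :=
  certB0 (fam := true) (s1 := false) (s2 := false) (a := 0) (b := 2) (c := 2) (cn := .pp) (n1 := ndB1q0) (n2 := ndB5q2) (pc := pcB2) (cut := Cut.none) (xt := Ext.none) (P1 := 0) (W1 := 536870912) (P2 := 1073741824) (W2 := 536870912) (P3 := 649613803) (W3 := 48318383) (N0 := 3) (En := eng) (mo := mog) (C1 := cd1q0) (C2 := cd5q2) (C3 := pd2)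
    rfl k0_mm_022

noncomputable def f_mm_023 : ℕ → ℕ → ℕ → ℕ → Bool := onCell 0 536870912 1073741824 536870912 649613803 48318383
    (rowB 3 eng mog cd1q0 cd5q2 pd3 0 true false false .up 0 2 3 (qsf 0 536870912 1073741824 536870912 3) ndB1q0 ndB5q2 pcB3 Cut.none Ext.none)

def k0_mm_023 : ∃ t, chk3 f_mm_023 t 1 1 1 = true :=
  ⟨(l 4), by decide +kernel⟩

theorem c_mm_023 : CertB 0 536870912 1073741824 536870912 649613803 48318383 3 eng mog cd1q0 cd5q2 pd3 true false false .up 0 2 3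
    ndB1q0 ndB5q2 pcB3 Cut.none Ext.none :=
  certB0 (fam := true) (s1 := false) (s2 := false) (a := 0) (b := 2) (c := 3) (cn := .up) (n1 := ndB1q0) (n2 := ndB5q2) (pc := pcB3) (cut := Cut.none) (xt := Ext.none) (P1 := 0) (W1 := 536870912) (P2 := 1073741824) (W2 := 536870912) (P3 := 649613803) (W3 := 48318383) (N0 := 3) (En := eng) (mo := mog) (C1 := cd1q0) (C2 := cd5q2) (C3 := pd3)
    rfl k0_mm_023

noncomputable def f_mm_033 : ℕ → ℕ → ℕ → ℕ → Bool := onCell 0 536870912 0 1230186008 649613803 48318383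
    (rowB 3 eng mog cd1q0 cd5q3 pd3 0 true false false .pnn 0 3 3 (qsf 0 536870912 0 1230186008 3) ndB1q0 ndB5q3 pcB3 Cut.none Ext.none)

def k0_mm_033 : ∃ t, chk3 f_mm_033 t 1 1 1 = true :=
  ⟨(l 5), by decide +kernel⟩

theorem c_mm_033 : CertB 0 536870912 0 1230186008 649613803 48318383 3 eng mog cd1q0 cd5q3 pd3 true false false .pnn 0 3 3
    ndB1q0 ndB5q3 pcB3 Cut.none Ext.none :=
  certB0 (fam := true) (s1 := false) (s2 := false) (a := 0) (b := 3) (c := 3) (cn := .pnn) (n1 := ndB1q0) (n2 := ndB5q3) (pc := pcB3) (cut := Cut.none) (xt := Ext.none) (P1 := 0) (W1 := 536870912) (P2 := 0) (W2 := 1230186008) (P3 := 649613803) (W3 := 48318383) (N0 := 3) (En := eng) (mo := mog) (C1 := cd1q0) (C2 := cd5q3) (C3 := pd3)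
    rfl k0_mm_033

noncomputable def f_mm_101 : ℕ → ℕ → ℕ → ℕ → Bool := onCell 536870912 536870912 0 536870912 649613803 48318383
    (rowB 3 eng mog cd1q1 cd5q0 pd1 0 true false false .npn 1 0 1 (qsf 536870912 536870912 0 536870912 1) ndB1q1 ndB5q0 pcB1 Cut.none Ext.none)

def k0_mm_101 : ∃ t, chk3 f_mm_101 t 1 1 1 = true :=
  ⟨(l 4), by decide +kernel⟩

theorem c_mm_101 : CertB 536870912 536870912 0 536870912 649613803 48318383 3 eng mog cd1q1 cd5q0 pd1 true false false .npn 1 0 1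
    ndB1q1 ndB5q0 pcB1 Cut.none Ext.none :=
  certB0 (fam := true) (s1 := false) (s2 := false) (a := 1) (b := 0) (c := 1) (cn := .npn) (n1 := ndB1q1) (n2 := ndB5q0) (pc := pcB1) (cut := Cut.none) (xt := Ext.none) (P1 := 536870912) (W1 := 536870912) (P2 := 0) (W2 := 536870912) (P3 := 649613803) (W3 := 48318383) (N0 := 3) (En := eng) (mo := mog) (C1 := cd1q1) (C2 := cd5q0) (C3 := pd1)
    rfl k0_mm_101

noncomputable def f_mm_102 : ℕ → ℕ → ℕ → ℕ → Bool := onCell 536870912 536870912 0 536870912 649613803 48318383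
    (rowB 3 eng mog cd1q1 cd5q0 pd2 0 true false false .npp 1 0 2 (qsf 536870912 536870912 0 536870912 2) ndB1q1 ndB5q0 pcB2 Cut.none Ext.none)

def k0_mm_102 : ∃ t, chk3 f_mm_102 t 1 1 1 = true :=
  ⟨(l 4), by decide +kernel⟩

theorem c_mm_102 : CertB 536870912 536870912 0 536870912 649613803 48318383 3 eng mog cd1q1 cd5q0 pd2 true false false .npp 1 0 2
    ndB1q1 ndB5q0 pcB2 Cut.none Ext.none :=
  certB0 (fam := true) (s1 := false) (s2 := false) (a := 1) (b := 0) (c := 2) (cn := .npp) (n1 := ndB1q1) (n2 := ndB5q0) (pc := pcB2) (cut := Cut.none) (xt := Ext.none) (P1 := 536870912) (W1 := 536870912) (P2 := 0) (W2 := 536870912) (P3 := 649613803) (W3 := 48318383) (N0 := 3) (En := eng) (mo := mog) (C1 := cd1q1) (C2 := cd5q0) (C3 := pd2)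
    rfl k0_mm_102

noncomputable def f_mm_112 : ℕ → ℕ → ℕ → ℕ → Bool := onCell 536870912 536870912 536870912 536870912 649613803 48318383
    (rowB 3 eng mog cd1q1 cd5q1 pd2 0 true false false .dn 1 1 2 (qsf 536870912 536870912 536870912 536870912 2) ndB1q1 ndB5q1 pcB2 Cut.none Ext.none)

def k0_mm_112 : ∃ t, chk3 f_mm_112 t 1 1 1 = true :=
  ⟨(l 4), by decide +kernel⟩

theorem c_mm_112 : CertB 536870912 536870912 536870912 536870912 649613803 48318383 3 eng mog cd1q1 cd5q1 pd2 true false false .dn 1 1 2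
    ndB1q1 ndB5q1 pcB2 Cut.none Ext.none :=
  certB0 (fam := true) (s1 := false) (s2 := false) (a := 1) (b := 1) (c := 2) (cn := .dn) (n1 := ndB1q1) (n2 := ndB5q1) (pc := pcB2) (cut := Cut.none) (xt := Ext.none) (P1 := 536870912) (W1 := 536870912) (P2 := 536870912) (W2 := 536870912) (P3 := 649613803) (W3 := 48318383) (N0 := 3) (En := eng) (mo := mog) (C1 := cd1q1) (C2 := cd5q1) (C3 := pd2)
    rfl k0_mm_112

noncomputable def f_mm_113 : ℕ → ℕ → ℕ → ℕ → Bool := onCell 536870912 536870912 536870912 536870912 649613803 48318383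
    (rowB 3 eng mog cd1q1 cd5q1 pd3 0 true false false .nn 1 1 3 (qsf 536870912 536870912 536870912 536870912 3) ndB1q1 ndB5q1 pcB3 Cut.none Ext.none)

def k0_mm_113 : ∃ t, chk3 f_mm_113 t 1 1 1 = true :=
  ⟨(l 4), by decide +kernel⟩

theorem c_mm_113 : CertB 536870912 536870912 536870912 536870912 649613803 48318383 3 eng mog cd1q1 cd5q1 pd3 true false false .nn 1 1 3
    ndB1q1 ndB5q1 pcB3 Cut.none Ext.none :=
  certB0 (fam := true) (s1 := false) (s2 := false) (a := 1) (b := 1) (c := 3) (cn := .nn) (n1 := ndB1q1) (n2 := ndB5q1) (pc := pcB3) (cut := Cut.none) (xt := Ext.none) (P1 := 536870912) (W1 := 536870912) (P2 := 536870912) (W2 := 536870912) (P3 := 649613803) (W3 := 48318383) (N0 := 3) (En := eng) (mo := mog) (C1 := cd1q1) (C2 := cd5q1) (C3 := pd3)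
    rfl k0_mm_113

noncomputable def f_mm_123 : ℕ → ℕ → ℕ → ℕ → Bool := onCell 536870912 536870912 1073741824 536870912 649613803 48318383
    (rowB 3 eng mog cd1q1 cd5q2 pd3 0 true false false .npn 1 2 3 (qsf 536870912 536870912 1073741824 536870912 3) ndB1q1 ndB5q2 pcB3 Cut.none Ext.none)

def k0_mm_123 : ∃ t, chk3 f_mm_123 t 1 1 1 = true :=
  ⟨(l 4), by decide +kernel⟩

theorem c_mm_123 : CertB 536870912 536870912 1073741824 536870912 649613803 48318383 3 eng mog cd1q1 cd5q2 pd3 true false false .npn 1 2 3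
    ndB1q1 ndB5q2 pcB3 Cut.none Ext.none :=
  certB0 (fam := true) (s1 := false) (s2 := false) (a := 1) (b := 2) (c := 3) (cn := .npn) (n1 := ndB1q1) (n2 := ndB5q2) (pc := pcB3) (cut := Cut.none) (xt := Ext.none) (P1 := 536870912) (W1 := 536870912) (P2 := 1073741824) (W2 := 536870912) (P3 := 649613803) (W3 := 48318383) (N0 := 3) (En := eng) (mo := mog) (C1 := cd1q1) (C2 := cd5q2) (C3 := pd3)
    rfl k0_mm_123

noncomputable def f_mm_133 : ℕ → ℕ → ℕ → ℕ → Bool := onCell 536870912 536870912 0 1230186008 649613803 48318383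
    (rowB 3 eng mog cd1q1 cd5q3 pd3 0 true false false .dn 1 3 3 (qsf 536870912 536870912 0 1230186008 3) ndB1q1 ndB5q3 pcB3 Cut.none Ext.none)

def k0_mm_133 : ∃ t, chk3 f_mm_133 t 1 1 1 = true :=
  ⟨(l 4), by decide +kernel⟩

theorem c_mm_133 : CertB 536870912 536870912 0 1230186008 649613803 48318383 3 eng mog cd1q1 cd5q3 pd3 true false false .dn 1 3 3
    ndB1q1 ndB5q3 pcB3 Cut.none Ext.none :=
  certB0 (fam := true) (s1 := false) (s2 := false) (a := 1) (b := 3) (c := 3) (cn := .dn) (n1 := ndB1q1) (n2 := ndB5q3) (pc := pcB3) (cut := Cut.none) (xt := Ext.none) (P1 := 536870912) (W1 := 536870912) (P2 := 0) (W2 := 1230186008) (P3 := 649613803) (W3 := 48318383) (N0 := 3) (En := eng) (mo := mog) (C1 := cd1q1) (C2 := cd5q3) (C3 := pd3)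
    rfl k0_mm_133

noncomputable def f_mm_202_a : ℕ → ℕ → ℕ → ℕ → Bool := onCell 0 536870912 0 536870912 649613803 48318383
    (rowB 3 eng mog cd1q2a cd5q0 pd2 0 true false false .pp 2 0 2 (qsf 0 536870912 0 536870912 2) ndB1q2a ndB5q0 pcB2 Cut.none Ext.none)

def k0_mm_202_a : ∃ t, chk3 f_mm_202_a t 1 1 1 = true :=
  ⟨(b (a (b (b (a (b (a (l 16426400) (l 16433080)) (l 16583440)) (b (a (l 16653056) (b (l 16458720) (l 16475680))) (a (l 16474648) (l 4)))) (a (b (l 16719640) (l 16649112)) (l 4))) (b (a (l 4) (l 4)) (l 4))) (b (a (l 4) (l 4)) (l 4))) (l 4)), by decide +kernel⟩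

theorem c_mm_202_a : CertB 0 536870912 0 536870912 649613803 48318383 3 eng mog cd1q2a cd5q0 pd2 true false false .pp 2 0 2
    ndB1q2a ndB5q0 pcB2 Cut.none Ext.none :=
  certB0 (fam := true) (s1 := false) (s2 := false) (a := 2) (b := 0) (c := 2) (cn := .pp) (n1 := ndB1q2a) (n2 := ndB5q0) (pc := pcB2) (cut := Cut.none) (xt := Ext.none) (P1 := 0) (W1 := 536870912) (P2 := 0) (W2 := 536870912) (P3 := 649613803) (W3 := 48318383) (N0 := 3) (En := eng) (mo := mog) (C1 := cd1q2a) (C2 := cd5q0) (C3 := pd2)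
    rfl k0_mm_202_a

noncomputable def f_mm_202_b : ℕ → ℕ → ℕ → ℕ → Bool := onCell 1073741824 536870912 0 536870912 649613803 48318383
    (rowB 3 eng mog cd1q2b cd5q0 pd2 2 true false false .pp 2 0 2 (qsf 1239849684 370763052 0 536870912 2) ndB1q2b ndB5q0 pcB2 Cut.none Ext.none)

def k0_mm_202_b : ∃ t, chk3 f_mm_202_b t 1 1 1 = true :=
  ⟨(a (b (a (l 1) (b (b (a (a (b (l 16460904) (l 1)) (b (l 16421912) (l 16472800))) (a (l 16421720) (l 16390944))) (a (l 1) (a (l 16582224) (l 16502144)))) (l 1))) (l 1)) (b (a (a (b (b (a (l 16355064) (l 16313784)) (a (l 16481016) (l 16456288))) (b (a (l 350609845959) (l 4)) (l 1))) (b (a (b (l 16265648) (l 16426264)) (l 16300912)) (l 4))) (b (a (b (l 16143656) (l 4)) (l 4)) (l 4))) (l 4))), by decide +kernel⟩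

theorem c_mm_202_b : CertB 1239849684 370763052 0 536870912 649613803 48318383 3 eng mog cd1q2b cd5q0 pd2 true false false .pp 2 0 2
    ndB1q2b ndB5q0 pcB2 Cut.none Ext.none :=
  certB2 (fam := true) (s1 := false) (s2 := false) (a := 2) (b := 0) (c := 2) (cn := .pp) (n1 := ndB1q2b) (n2 := ndB5q0) (pc := pcB2) (cut := Cut.none) (xt := Ext.none) (P1 := 1239849684) (W1 := 370763052) (P2 := 0) (W2 := 536870912) (P3 := 649613803) (W3 := 48318383) (N0 := 3) (En := eng) (mo := mog) (C1 := cd1q2b) (C2 := cd5q0) (C3 := pd2)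
    rfl (fun _ => rfl) k0_mm_202_b

noncomputable def f_mm_203_a : ℕ → ℕ → ℕ → ℕ → Bool := onCell 0 536870912 1610612736 536870912 649613803 48318383
    (rowB 3 eng mog cd1q2a cd5q0 pd3 1 true false false .up 2 0 3 (qsf 0 536870912 0 536870912 3) ndB1q2a ndB5q0 pcB3 Cut.none Ext.none)

def k0_mm_203_a : ∃ t, chk3 f_mm_203_a t 1 1 1 = true :=
  ⟨(l 4), by decide +kernel⟩

theorem c_mm_203_a : CertB 0 536870912 0 536870912 649613803 48318383 3 eng mog cd1q2a cd5q0 pd3 true false false .up 2 0 3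
    ndB1q2a ndB5q0 pcB3 Cut.none Ext.none :=
  certB1 (fam := true) (s1 := false) (s2 := false) (a := 2) (b := 0) (c := 3) (cn := .up) (n1 := ndB1q2a) (n2 := ndB5q0) (pc := pcB3) (cut := Cut.none) (xt := Ext.none) (P1 := 0) (W1 := 536870912) (P2 := 0) (W2 := 536870912) (P3 := 649613803) (W3 := 48318383) (N0 := 3) (En := eng) (mo := mog) (C1 := cd1q2a) (C2 := cd5q0) (C3 := pd3)
    rfl (fun _ => rfl) k0_mm_203_a

noncomputable def f_mm_203_b : ℕ → ℕ → ℕ → ℕ → Bool := onCell 1239849684 370763052 1610612736 536870912 649613803 48318383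
    (rowB 3 eng mog cd1q2b cd5q0 pd3 1 true false false .up 2 0 3 (qsf 1239849684 370763052 0 536870912 3) ndB1q2b ndB5q0 pcB3 Cut.none Ext.none)

def k0_mm_203_b : ∃ t, chk3 f_mm_203_b t 1 1 1 = true :=
  ⟨(b (l 4) (l 4)), by decide +kernel⟩

theorem c_mm_203_b : CertB 1239849684 370763052 0 536870912 649613803 48318383 3 eng mog cd1q2b cd5q0 pd3 true false false .up 2 0 3
    ndB1q2b ndB5q0 pcB3 Cut.none Ext.none :=
  certB1 (fam := true) (s1 := false) (s2 := false) (a := 2) (b := 0) (c := 3) (cn := .up) (n1 := ndB1q2b) (n2 := ndB5q0) (pc := pcB3) (cut := Cut.none) (xt := Ext.none) (P1 := 1239849684) (W1 := 370763052) (P2 := 0) (W2 := 536870912) (P3 := 649613803) (W3 := 48318383) (N0 := 3) (En := eng) (mo := mog) (C1 := cd1q2b) (C2 := cd5q0) (C3 := pd3)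
    rfl (fun _ => rfl) k0_mm_203_b

noncomputable def f_mm_213_a : ℕ → ℕ → ℕ → ℕ → Bool := onCell 0 536870912 536870912 536870912 649613803 48318383
    (rowB 3 eng mog cd1q2a cd5q1 pd3 0 true false false .pnn 2 1 3 (qsf 0 536870912 536870912 536870912 3) ndB1q2a ndB5q1 pcB3 Cut.none Ext.none)

def k0_mm_213_a : ∃ t, chk3 f_mm_213_a t 1 1 1 = true :=
  ⟨(l 4), by decide +kernel⟩

theorem c_mm_213_a : CertB 0 536870912 536870912 536870912 649613803 48318383 3 eng mog cd1q2a cd5q1 pd3 true false false .pnn 2 1 3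
    ndB1q2a ndB5q1 pcB3 Cut.none Ext.none :=
  certB0 (fam := true) (s1 := false) (s2 := false) (a := 2) (b := 1) (c := 3) (cn := .pnn) (n1 := ndB1q2a) (n2 := ndB5q1) (pc := pcB3) (cut := Cut.none) (xt := Ext.none) (P1 := 0) (W1 := 536870912) (P2 := 536870912) (W2 := 536870912) (P3 := 649613803) (W3 := 48318383) (N0 := 3) (En := eng) (mo := mog) (C1 := cd1q2a) (C2 := cd5q1) (C3 := pd3)
    rfl k0_mm_213_a

noncomputable def f_mm_213_b : ℕ → ℕ → ℕ → ℕ → Bool := onCell 1239849684 370763052 536870912 536870912 649613803 48318383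
    (rowB 3 eng mog cd1q2b cd5q1 pd3 0 true false false .pnn 2 1 3 (qsf 1239849684 370763052 536870912 536870912 3) ndB1q2b ndB5q1 pcB3 Cut.none Ext.none)

def k0_mm_213_b : ∃ t, chk3 f_mm_213_b t 1 1 1 = true :=
  ⟨(l 4), by decide +kernel⟩

theorem c_mm_213_b : CertB 1239849684 370763052 536870912 536870912 649613803 48318383 3 eng mog cd1q2b cd5q1 pd3 true false false .pnn 2 1 3
    ndB1q2b ndB5q1 pcB3 Cut.none Ext.none :=
  certB0 (fam := true) (s1 := false) (s2 := false) (a := 2) (b := 1) (c := 3) (cn := .pnn) (n1 := ndB1q2b) (n2 := ndB5q1) (pc := pcB3) (cut := Cut.none) (xt := Ext.none) (P1 := 1239849684) (W1 := 370763052) (P2 := 536870912) (W2 := 536870912) (P3 := 649613803) (W3 := 48318383) (N0 := 3) (En := eng) (mo := mog) (C1 := cd1q2b) (C2 := cd5q1) (C3 := pd3)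
    rfl k0_mm_213_b

noncomputable def f_mm_303 : ℕ → ℕ → ℕ → ℕ → Bool := onCell 1610612736 536870912 0 536870912 649613803 48318383
    (rowB 3 eng mog cd1q3 cd5q0 pd3 2 true false false .npn 3 0 3 (qsf 1610612736 536870912 0 536870912 3) ndB1q3 ndB5q0 pcB3 Cut.none Ext.none)

def k0_mm_303 : ∃ t, chk3 f_mm_303 t 1 1 1 = true :=
  ⟨(a (l 4) (l 4)), by decide +kernel⟩

theorem c_mm_303 : CertB 1610612736 536870912 0 536870912 649613803 48318383 3 eng mog cd1q3 cd5q0 pd3 true false false .npn 3 0 3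
    ndB1q3 ndB5q0 pcB3 Cut.none Ext.none :=
  certB2 (fam := true) (s1 := false) (s2 := false) (a := 3) (b := 0) (c := 3) (cn := .npn) (n1 := ndB1q3) (n2 := ndB5q0) (pc := pcB3) (cut := Cut.none) (xt := Ext.none) (P1 := 1610612736) (W1 := 536870912) (P2 := 0) (W2 := 536870912) (P3 := 649613803) (W3 := 48318383) (N0 := 3) (En := eng) (mo := mog) (C1 := cd1q3) (C2 := cd5q0) (C3 := pd3)
    rfl (fun _ => rfl) k0_mm_303

noncomputable def f_mm_313 : ℕ → ℕ → ℕ → ℕ → Bool := onCell 1610612736 536870912 536870912 536870912 649613803 48318383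
    (rowB 3 eng mog cd1q3 cd5q1 pd3 0 true false false .dn 3 1 3 (qsf 1610612736 536870912 536870912 536870912 3) ndB1q3 ndB5q1 pcB3 Cut.none Ext.none)

def k0_mm_313 : ∃ t, chk3 f_mm_313 t 1 1 1 = true :=
  ⟨(l 4), by decide +kernel⟩

theorem c_mm_313 : CertB 1610612736 536870912 536870912 536870912 649613803 48318383 3 eng mog cd1q3 cd5q1 pd3 true false false .dn 3 1 3
    ndB1q3 ndB5q1 pcB3 Cut.none Ext.none :=
  certB0 (fam := true) (s1 := false) (s2 := false) (a := 3) (b := 1) (c := 3) (cn := .dn) (n1 := ndB1q3) (n2 := ndB5q1) (pc := pcB3) (cut := Cut.none) (xt := Ext.none) (P1 := 1610612736) (W1 := 536870912) (P2 := 536870912) (W2 := 536870912) (P3 := 649613803) (W3 := 48318383) (N0 := 3) (En := eng) (mo := mog) (C1 := cd1q3) (C2 := cd5q1) (C3 := pd3)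
    rfl k0_mm_313

end Pool.Agent.Strip051.G.I6050_6500.Tab.C.BA15

namespace Pool.Agent.Strip051.G.I6050_6500.Tab.C.BA16

open Pool.Agent.Strip051.PB Pool.Agent.Strip051.PB.T
open Pool.Agent.Strip051.G.I6050_6500.Tab

noncomputable def f_pp_001 : ℕ → ℕ → ℕ → ℕ → Bool := onCell 0 536870912 0 536870912 649613803 48318383
    (rowB 3 eng mog cd1q0 cd6q0 pd1 0 true true true .up 0 0 1 (qsf 0 536870912 0 536870912 1) ndB1q0 ndB6q0 pcB1 Cut.none Ext.none)

def k0_pp_001 : ∃ t, chk3 f_pp_001 t 1 1 1 = true :=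
  ⟨(l 4), by decide +kernel⟩

theorem c_pp_001 : CertB 0 536870912 0 536870912 649613803 48318383 3 eng mog cd1q0 cd6q0 pd1 true true true .up 0 0 1
    ndB1q0 ndB6q0 pcB1 Cut.none Ext.none :=
  certB0 (fam := true) (s1 := true) (s2 := true) (a := 0) (b := 0) (c := 1) (cn := .up) (n1 := ndB1q0) (n2 := ndB6q0) (pc := pcB1) (cut := Cut.none) (xt := Ext.none) (P1 := 0) (W1 := 536870912) (P2 := 0) (W2 := 536870912) (P3 := 649613803) (W3 := 48318383) (N0 := 3) (En := eng) (mo := mog) (C1 := cd1q0) (C2 := cd6q0) (C3 := pd1)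
    rfl k0_pp_001

noncomputable def f_pp_011 : ℕ → ℕ → ℕ → ℕ → Bool := onCell 0 536870912 536870912 536870912 649613803 48318383
    (rowB 3 eng mog cd1q0 cd6q1 pd1 0 true true true .pnn 0 1 1 (qsf 0 536870912 536870912 536870912 1) ndB1q0 ndB6q1 pcB1 Cut.none Ext.none)

def k0_pp_011 : ∃ t, chk3 f_pp_011 t 1 1 1 = true :=
  ⟨(l 4), by decide +kernel⟩

theorem c_pp_011 : CertB 0 536870912 536870912 536870912 649613803 48318383 3 eng mog cd1q0 cd6q1 pd1 true true true .pnn 0 1 1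
    ndB1q0 ndB6q1 pcB1 Cut.none Ext.none :=
  certB0 (fam := true) (s1 := true) (s2 := true) (a := 0) (b := 1) (c := 1) (cn := .pnn) (n1 := ndB1q0) (n2 := ndB6q1) (pc := pcB1) (cut := Cut.none) (xt := Ext.none) (P1 := 0) (W1 := 536870912) (P2 := 536870912) (W2 := 536870912) (P3 := 649613803) (W3 := 48318383) (N0 := 3) (En := eng) (mo := mog) (C1 := cd1q0) (C2 := cd6q1) (C3 := pd1)
    rfl k0_pp_011

noncomputable def f_pp_012 : ℕ → ℕ → ℕ → ℕ → Bool := onCell 0 536870912 536870912 536870912 649613803 48318383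
    (rowB 3 eng mog cd1q0 cd6q1 pd2 0 true true true .pnp 0 1 2 (qsf 0 536870912 536870912 536870912 2) ndB1q0 ndB6q1 pcB2 Cut.none Ext.none)

def k0_pp_012 : ∃ t, chk3 f_pp_012 t 1 1 1 = true :=
  ⟨(l 4), by decide +kernel⟩

theorem c_pp_012 : CertB 0 536870912 536870912 536870912 649613803 48318383 3 eng mog cd1q0 cd6q1 pd2 true true true .pnp 0 1 2
    ndB1q0 ndB6q1 pcB2 Cut.none Ext.none :=
  certB0 (fam := true) (s1 := true) (s2 := true) (a := 0) (b := 1) (c := 2) (cn := .pnp) (n1 := ndB1q0) (n2 := ndB6q1) (pc := pcB2) (cut := Cut.none) (xt := Ext.none) (P1 := 0) (W1 := 536870912) (P2 := 536870912) (W2 := 536870912) (P3 := 649613803) (W3 := 48318383) (N0 := 3) (En := eng) (mo := mog) (C1 := cd1q0) (C2 := cd6q1) (C3 := pd2)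
    rfl k0_pp_012

noncomputable def f_pp_022 : ℕ → ℕ → ℕ → ℕ → Bool := onCell 0 536870912 1073741824 536870912 649613803 48318383
    (rowB 3 eng mog cd1q0 cd6q2 pd2 0 true true true .pp 0 2 2 (qsf 0 536870912 1073741824 536870912 2) ndB1q0 ndB6q2 pcB2 Cut.none Ext.none)

def k0_pp_022 : ∃ t, chk3 f_pp_022 t 1 1 1 = true :=
  ⟨(l 4), by decide +kernel⟩

theorem c_pp_022 : CertB 0 536870912 1073741824 536870912 649613803 48318383 3 eng mog cd1q0 cd6q2 pd2 true true true .pp 0 2 2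
    ndB1q0 ndB6q2 pcB2 Cut.none Ext.none :=
  certB0 (fam := true) (s1 := true) (s2 := true) (a := 0) (b := 2) (c := 2) (cn := .pp) (n1 := ndB1q0) (n2 := ndB6q2) (pc := pcB2) (cut := Cut.none) (xt := Ext.none) (P1 := 0) (W1 := 536870912) (P2 := 1073741824) (W2 := 536870912) (P3 := 649613803) (W3 := 48318383) (N0 := 3) (En := eng) (mo := mog) (C1 := cd1q0) (C2 := cd6q2) (C3 := pd2)
    rfl k0_pp_022

noncomputable def f_pp_023 : ℕ → ℕ → ℕ → ℕ → Bool := onCell 0 536870912 1073741824 536870912 649613803 48318383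
    (rowB 3 eng mog cd1q0 cd6q2 pd3 0 true true true .up 0 2 3 (qsf 0 536870912 1073741824 536870912 3) ndB1q0 ndB6q2 pcB3 Cut.none Ext.none)

def k0_pp_023 : ∃ t, chk3 f_pp_023 t 1 1 1 = true :=
  ⟨(l 4), by decide +kernel⟩

theorem c_pp_023 : CertB 0 536870912 1073741824 536870912 649613803 48318383 3 eng mog cd1q0 cd6q2 pd3 true true true .up 0 2 3
    ndB1q0 ndB6q2 pcB3 Cut.none Ext.none :=
  certB0 (fam := true) (s1 := true) (s2 := true) (a := 0) (b := 2) (c := 3) (cn := .up) (n1 := ndB1q0) (n2 := ndB6q2) (pc := pcB3) (cut := Cut.none) (xt := Ext.none) (P1 := 0) (W1 := 536870912) (P2 := 1073741824) (W2 := 536870912) (P3 := 649613803) (W3 := 48318383) (N0 := 3) (En := eng) (mo := mog) (C1 := cd1q0) (C2 := cd6q2) (C3 := pd3)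
    rfl k0_pp_023

noncomputable def f_pp_033 : ℕ → ℕ → ℕ → ℕ → Bool := onCell 0 536870912 0 1230186008 649613803 48318383
    (rowB 3 eng mog cd1q0 cd6q3 pd3 0 true true true .pnn 0 3 3 (qsf 0 536870912 0 1230186008 3) ndB1q0 ndB6q3 pcB3 Cut.none Ext.none)

def k0_pp_033 : ∃ t, chk3 f_pp_033 t 1 1 1 = true :=
  ⟨(b (l 4) (l 4)), by decide +kernel⟩

theorem c_pp_033 : CertB 0 536870912 0 1230186008 649613803 48318383 3 eng mog cd1q0 cd6q3 pd3 true true true .pnn 0 3 3
    ndB1q0 ndB6q3 pcB3 Cut.none Ext.none :=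
  certB0 (fam := true) (s1 := true) (s2 := true) (a := 0) (b := 3) (c := 3) (cn := .pnn) (n1 := ndB1q0) (n2 := ndB6q3) (pc := pcB3) (cut := Cut.none) (xt := Ext.none) (P1 := 0) (W1 := 536870912) (P2 := 0) (W2 := 1230186008) (P3 := 649613803) (W3 := 48318383) (N0 := 3) (En := eng) (mo := mog) (C1 := cd1q0) (C2 := cd6q3) (C3 := pd3)
    rfl k0_pp_033

noncomputable def f_pp_101 : ℕ → ℕ → ℕ → ℕ → Bool := onCell 536870912 536870912 0 536870912 649613803 48318383
    (rowB 3 eng mog cd1q1 cd6q0 pd1 0 true true true .npn 1 0 1 (qsf 536870912 536870912 0 536870912 1) ndB1q1 ndB6q0 pcB1 Cut.none Ext.none)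

def k0_pp_101 : ∃ t, chk3 f_pp_101 t 1 1 1 = true :=
  ⟨(l 4), by decide +kernel⟩

theorem c_pp_101 : CertB 536870912 536870912 0 536870912 649613803 48318383 3 eng mog cd1q1 cd6q0 pd1 true true true .npn 1 0 1
    ndB1q1 ndB6q0 pcB1 Cut.none Ext.none :=
  certB0 (fam := true) (s1 := true) (s2 := true) (a := 1) (b := 0) (c := 1) (cn := .npn) (n1 := ndB1q1) (n2 := ndB6q0) (pc := pcB1) (cut := Cut.none) (xt := Ext.none) (P1 := 536870912) (W1 := 536870912) (P2 := 0) (W2 := 536870912) (P3 := 649613803) (W3 := 48318383) (N0 := 3) (En := eng) (mo := mog) (C1 := cd1q1) (C2 := cd6q0) (C3 := pd1)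
    rfl k0_pp_101

noncomputable def f_pp_102 : ℕ → ℕ → ℕ → ℕ → Bool := onCell 536870912 536870912 0 536870912 649613803 48318383
    (rowB 3 eng mog cd1q1 cd6q0 pd2 0 true true true .npp 1 0 2 (qsf 536870912 536870912 0 536870912 2) ndB1q1 ndB6q0 pcB2 Cut.none Ext.none)

def k0_pp_102 : ∃ t, chk3 f_pp_102 t 1 1 1 = true :=
  ⟨(l 4), by decide +kernel⟩

theorem c_pp_102 : CertB 536870912 536870912 0 536870912 649613803 48318383 3 eng mog cd1q1 cd6q0 pd2 true true true .npp 1 0 2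
    ndB1q1 ndB6q0 pcB2 Cut.none Ext.none :=
  certB0 (fam := true) (s1 := true) (s2 := true) (a := 1) (b := 0) (c := 2) (cn := .npp) (n1 := ndB1q1) (n2 := ndB6q0) (pc := pcB2) (cut := Cut.none) (xt := Ext.none) (P1 := 536870912) (W1 := 536870912) (P2 := 0) (W2 := 536870912) (P3 := 649613803) (W3 := 48318383) (N0 := 3) (En := eng) (mo := mog) (C1 := cd1q1) (C2 := cd6q0) (C3 := pd2)
    rfl k0_pp_102

noncomputable def f_pp_112 : ℕ → ℕ → ℕ → ℕ → Bool := onCell 536870912 536870912 536870912 536870912 649613803 48318383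
    (rowB 3 eng mog cd1q1 cd6q1 pd2 0 true true true .dn 1 1 2 (qsf 536870912 536870912 536870912 536870912 2) ndB1q1 ndB6q1 pcB2 Cut.none Ext.none)

def k0_pp_112 : ∃ t, chk3 f_pp_112 t 1 1 1 = true :=
  ⟨(l 4), by decide +kernel⟩

theorem c_pp_112 : CertB 536870912 536870912 536870912 536870912 649613803 48318383 3 eng mog cd1q1 cd6q1 pd2 true true true .dn 1 1 2
    ndB1q1 ndB6q1 pcB2 Cut.none Ext.none :=
  certB0 (fam := true) (s1 := true) (s2 := true) (a := 1) (b := 1) (c := 2) (cn := .dn) (n1 := ndB1q1) (n2 := ndB6q1) (pc := pcB2) (cut := Cut.none) (xt := Ext.none) (P1 := 536870912) (W1 := 536870912) (P2 := 536870912) (W2 := 536870912) (P3 := 649613803) (W3 := 48318383) (N0 := 3) (En := eng) (mo := mog) (C1 := cd1q1) (C2 := cd6q1) (C3 := pd2)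
    rfl k0_pp_112

noncomputable def f_pp_113 : ℕ → ℕ → ℕ → ℕ → Bool := onCell 536870912 536870912 536870912 536870912 649613803 48318383
    (rowB 3 eng mog cd1q1 cd6q1 pd3 0 true true true .nn 1 1 3 (qsf 536870912 536870912 536870912 536870912 3) ndB1q1 ndB6q1 pcB3 Cut.none Ext.none)

def k0_pp_113 : ∃ t, chk3 f_pp_113 t 1 1 1 = true :=
  ⟨(l 4), by decide +kernel⟩

theorem c_pp_113 : CertB 536870912 536870912 536870912 536870912 649613803 48318383 3 eng mog cd1q1 cd6q1 pd3 true true true .nn 1 1 3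
    ndB1q1 ndB6q1 pcB3 Cut.none Ext.none :=
  certB0 (fam := true) (s1 := true) (s2 := true) (a := 1) (b := 1) (c := 3) (cn := .nn) (n1 := ndB1q1) (n2 := ndB6q1) (pc := pcB3) (cut := Cut.none) (xt := Ext.none) (P1 := 536870912) (W1 := 536870912) (P2 := 536870912) (W2 := 536870912) (P3 := 649613803) (W3 := 48318383) (N0 := 3) (En := eng) (mo := mog) (C1 := cd1q1) (C2 := cd6q1) (C3 := pd3)
    rfl k0_pp_113

noncomputable def f_pp_123 : ℕ → ℕ → ℕ → ℕ → Bool := onCell 536870912 536870912 1073741824 536870912 649613803 48318383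
    (rowB 3 eng mog cd1q1 cd6q2 pd3 0 true true true .npn 1 2 3 (qsf 536870912 536870912 1073741824 536870912 3) ndB1q1 ndB6q2 pcB3 Cut.none Ext.none)

def k0_pp_123 : ∃ t, chk3 f_pp_123 t 1 1 1 = true :=
  ⟨(l 4), by decide +kernel⟩

theorem c_pp_123 : CertB 536870912 536870912 1073741824 536870912 649613803 48318383 3 eng mog cd1q1 cd6q2 pd3 true true true .npn 1 2 3
    ndB1q1 ndB6q2 pcB3 Cut.none Ext.none :=
  certB0 (fam := true) (s1 := true) (s2 := true) (a := 1) (b := 2) (c := 3) (cn := .npn) (n1 := ndB1q1) (n2 := ndB6q2) (pc := pcB3) (cut := Cut.none) (xt := Ext.none) (P1 := 536870912) (W1 := 536870912) (P2 := 1073741824) (W2 := 536870912) (P3 := 649613803) (W3 := 48318383) (N0 := 3) (En := eng) (mo := mog) (C1 := cd1q1) (C2 := cd6q2) (C3 := pd3)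
    rfl k0_pp_123

noncomputable def f_pp_133 : ℕ → ℕ → ℕ → ℕ → Bool := onCell 536870912 536870912 0 1230186008 649613803 48318383
    (rowB 3 eng mog cd1q1 cd6q3 pd3 0 true true true .dn 1 3 3 (qsf 536870912 536870912 0 1230186008 3) ndB1q1 ndB6q3 pcB3 Cut.none Ext.none)

def k0_pp_133 : ∃ t, chk3 f_pp_133 t 1 1 1 = true :=
  ⟨(l 4), by decide +kernel⟩

theorem c_pp_133 : CertB 536870912 536870912 0 1230186008 649613803 48318383 3 eng mog cd1q1 cd6q3 pd3 true true true .dn 1 3 3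
    ndB1q1 ndB6q3 pcB3 Cut.none Ext.none :=
  certB0 (fam := true) (s1 := true) (s2 := true) (a := 1) (b := 3) (c := 3) (cn := .dn) (n1 := ndB1q1) (n2 := ndB6q3) (pc := pcB3) (cut := Cut.none) (xt := Ext.none) (P1 := 536870912) (W1 := 536870912) (P2 := 0) (W2 := 1230186008) (P3 := 649613803) (W3 := 48318383) (N0 := 3) (En := eng) (mo := mog) (C1 := cd1q1) (C2 := cd6q3) (C3 := pd3)
    rfl k0_pp_133

noncomputable def f_pp_202_a : ℕ → ℕ → ℕ → ℕ → Bool := onCell 0 536870912 0 536870912 649613803 48318383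
    (rowB 3 eng mog cd1q2a cd6q0 pd2 0 true true true .pp 2 0 2 (qsf 0 536870912 0 536870912 2) ndB1q2a ndB6q0 pcB2 Cut.none Ext.none)

def k0_pp_202_a : ∃ t, chk3 f_pp_202_a t 1 1 1 = true :=
  ⟨(l 5), by decide +kernel⟩

theorem c_pp_202_a : CertB 0 536870912 0 536870912 649613803 48318383 3 eng mog cd1q2a cd6q0 pd2 true true true .pp 2 0 2
    ndB1q2a ndB6q0 pcB2 Cut.none Ext.none :=
  certB0 (fam := true) (s1 := true) (s2 := true) (a := 2) (b := 0) (c := 2) (cn := .pp) (n1 := ndB1q2a) (n2 := ndB6q0) (pc := pcB2) (cut := Cut.none) (xt := Ext.none) (P1 := 0) (W1 := 536870912) (P2 := 0) (W2 := 536870912) (P3 := 649613803) (W3 := 48318383) (N0 := 3) (En := eng) (mo := mog) (C1 := cd1q2a) (C2 := cd6q0) (C3 := pd2)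
    rfl k0_pp_202_a

noncomputable def f_pp_202_b : ℕ → ℕ → ℕ → ℕ → Bool := onCell 1239849684 370763052 0 536870912 649613803 48318383
    (rowB 3 eng mog cd1q2b cd6q0 pd2 0 true true true .pp 2 0 2 (qsf 1239849684 370763052 0 536870912 2) ndB1q2b ndB6q0 pcB2 Cut.none Ext.none)

def k0_pp_202_b : ∃ t, chk3 f_pp_202_b t 1 1 1 = true :=
  ⟨(l 5), by decide +kernel⟩

theorem c_pp_202_b : CertB 1239849684 370763052 0 536870912 649613803 48318383 3 eng mog cd1q2b cd6q0 pd2 true true true .pp 2 0 2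
    ndB1q2b ndB6q0 pcB2 Cut.none Ext.none :=
  certB0 (fam := true) (s1 := true) (s2 := true) (a := 2) (b := 0) (c := 2) (cn := .pp) (n1 := ndB1q2b) (n2 := ndB6q0) (pc := pcB2) (cut := Cut.none) (xt := Ext.none) (P1 := 1239849684) (W1 := 370763052) (P2 := 0) (W2 := 536870912) (P3 := 649613803) (W3 := 48318383) (N0 := 3) (En := eng) (mo := mog) (C1 := cd1q2b) (C2 := cd6q0) (C3 := pd2)
    rfl k0_pp_202_b

noncomputable def f_pp_203_a : ℕ → ℕ → ℕ → ℕ → Bool := onCell 0 536870912 0 536870912 649613803 48318383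
    (rowB 3 eng mog cd1q2a cd6q0 pd3 0 true true true .up 2 0 3 (qsf 0 536870912 0 536870912 3) ndB1q2a ndB6q0 pcB3 Cut.none Ext.none)

def k0_pp_203_a : ∃ t, chk3 f_pp_203_a t 1 1 1 = true :=
  ⟨(l 5), by decide +kernel⟩

theorem c_pp_203_a : CertB 0 536870912 0 536870912 649613803 48318383 3 eng mog cd1q2a cd6q0 pd3 true true true .up 2 0 3
    ndB1q2a ndB6q0 pcB3 Cut.none Ext.none :=
  certB0 (fam := true) (s1 := true) (s2 := true) (a := 2) (b := 0) (c := 3) (cn := .up) (n1 := ndB1q2a) (n2 := ndB6q0) (pc := pcB3) (cut := Cut.none) (xt := Ext.none) (P1 := 0) (W1 := 536870912) (P2 := 0) (W2 := 536870912) (P3 := 649613803) (W3 := 48318383) (N0 := 3) (En := eng) (mo := mog) (C1 := cd1q2a) (C2 := cd6q0) (C3 := pd3)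
    rfl k0_pp_203_a

noncomputable def f_pp_203_b : ℕ → ℕ → ℕ → ℕ → Bool := onCell 1239849684 370763052 0 536870912 649613803 48318383
    (rowB 3 eng mog cd1q2b cd6q0 pd3 0 true true true .up 2 0 3 (qsf 1239849684 370763052 0 536870912 3) ndB1q2b ndB6q0 pcB3 Cut.none Ext.none)

def k0_pp_203_b : ∃ t, chk3 f_pp_203_b t 1 1 1 = true :=
  ⟨(l 5), by decide +kernel⟩

theorem c_pp_203_b : CertB 1239849684 370763052 0 536870912 649613803 48318383 3 eng mog cd1q2b cd6q0 pd3 true true true .up 2 0 3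
    ndB1q2b ndB6q0 pcB3 Cut.none Ext.none :=
  certB0 (fam := true) (s1 := true) (s2 := true) (a := 2) (b := 0) (c := 3) (cn := .up) (n1 := ndB1q2b) (n2 := ndB6q0) (pc := pcB3) (cut := Cut.none) (xt := Ext.none) (P1 := 1239849684) (W1 := 370763052) (P2 := 0) (W2 := 536870912) (P3 := 649613803) (W3 := 48318383) (N0 := 3) (En := eng) (mo := mog) (C1 := cd1q2b) (C2 := cd6q0) (C3 := pd3)
    rfl k0_pp_203_b

noncomputable def f_pp_213_a : ℕ → ℕ → ℕ → ℕ → Bool := onCell 0 536870912 536870912 536870912 649613803 48318383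
    (rowB 3 eng mog cd1q2a cd6q1 pd3 0 true true true .pnn 2 1 3 (qsf 0 536870912 536870912 536870912 3) ndB1q2a ndB6q1 pcB3 Cut.none Ext.none)

def k0_pp_213_a : ∃ t, chk3 f_pp_213_a t 1 1 1 = true :=
  ⟨(l 4), by decide +kernel⟩

theorem c_pp_213_a : CertB 0 536870912 536870912 536870912 649613803 48318383 3 eng mog cd1q2a cd6q1 pd3 true true true .pnn 2 1 3
    ndB1q2a ndB6q1 pcB3 Cut.none Ext.none :=
  certB0 (fam := true) (s1 := true) (s2 := true) (a := 2) (b := 1) (c := 3) (cn := .pnn) (n1 := ndB1q2a) (n2 := ndB6q1) (pc := pcB3) (cut := Cut.none) (xt := Ext.none) (P1 := 0) (W1 := 536870912) (P2 := 536870912) (W2 := 536870912) (P3 := 649613803) (W3 := 48318383) (N0 := 3) (En := eng) (mo := mog) (C1 := cd1q2a) (C2 := cd6q1) (C3 := pd3)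
    rfl k0_pp_213_a

noncomputable def f_pp_213_b : ℕ → ℕ → ℕ → ℕ → Bool := onCell 1239849684 370763052 536870912 536870912 649613803 48318383
    (rowB 3 eng mog cd1q2b cd6q1 pd3 0 true true true .pnn 2 1 3 (qsf 1239849684 370763052 536870912 536870912 3) ndB1q2b ndB6q1 pcB3 Cut.none Ext.none)

def k0_pp_213_b : ∃ t, chk3 f_pp_213_b t 1 1 1 = true :=
  ⟨(l 4), by decide +kernel⟩

theorem c_pp_213_b : CertB 1239849684 370763052 536870912 536870912 649613803 48318383 3 eng mog cd1q2b cd6q1 pd3 true true true .pnn 2 1 3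
    ndB1q2b ndB6q1 pcB3 Cut.none Ext.none :=
  certB0 (fam := true) (s1 := true) (s2 := true) (a := 2) (b := 1) (c := 3) (cn := .pnn) (n1 := ndB1q2b) (n2 := ndB6q1) (pc := pcB3) (cut := Cut.none) (xt := Ext.none) (P1 := 1239849684) (W1 := 370763052) (P2 := 536870912) (W2 := 536870912) (P3 := 649613803) (W3 := 48318383) (N0 := 3) (En := eng) (mo := mog) (C1 := cd1q2b) (C2 := cd6q1) (C3 := pd3)
    rfl k0_pp_213_b

noncomputable def f_pp_303 : ℕ → ℕ → ℕ → ℕ → Bool := onCell 1610612736 536870912 0 536870912 649613803 48318383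
    (rowB 3 eng mog cd1q3 cd6q0 pd3 0 true true true .npn 3 0 3 (qsf 1610612736 536870912 0 536870912 3) ndB1q3 ndB6q0 pcB3 Cut.none Ext.none)

def k0_pp_303 : ∃ t, chk3 f_pp_303 t 1 1 1 = true :=
  ⟨(l 4), by decide +kernel⟩

theorem c_pp_303 : CertB 1610612736 536870912 0 536870912 649613803 48318383 3 eng mog cd1q3 cd6q0 pd3 true true true .npn 3 0 3
    ndB1q3 ndB6q0 pcB3 Cut.none Ext.none :=
  certB0 (fam := true) (s1 := true) (s2 := true) (a := 3) (b := 0) (c := 3) (cn := .npn) (n1 := ndB1q3) (n2 := ndB6q0) (pc := pcB3) (cut := Cut.none) (xt := Ext.none) (P1 := 1610612736) (W1 := 536870912) (P2 := 0) (W2 := 536870912) (P3 := 649613803) (W3 := 48318383) (N0 := 3) (En := eng) (mo := mog) (C1 := cd1q3) (C2 := cd6q0) (C3 := pd3)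
    rfl k0_pp_303

noncomputable def f_pp_313 : ℕ → ℕ → ℕ → ℕ → Bool := onCell 1610612736 536870912 536870912 536870912 649613803 48318383
    (rowB 3 eng mog cd1q3 cd6q1 pd3 0 true true true .dn 3 1 3 (qsf 1610612736 536870912 536870912 536870912 3) ndB1q3 ndB6q1 pcB3 Cut.none Ext.none)

def k0_pp_313 : ∃ t, chk3 f_pp_313 t 1 1 1 = true :=
  ⟨(l 4), by decide +kernel⟩

theorem c_pp_313 : CertB 1610612736 536870912 536870912 536870912 649613803 48318383 3 eng mog cd1q3 cd6q1 pd3 true true true .dn 3 1 3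
    ndB1q3 ndB6q1 pcB3 Cut.none Ext.none :=
  certB0 (fam := true) (s1 := true) (s2 := true) (a := 3) (b := 1) (c := 3) (cn := .dn) (n1 := ndB1q3) (n2 := ndB6q1) (pc := pcB3) (cut := Cut.none) (xt := Ext.none) (P1 := 1610612736) (W1 := 536870912) (P2 := 536870912) (W2 := 536870912) (P3 := 649613803) (W3 := 48318383) (N0 := 3) (En := eng) (mo := mog) (C1 := cd1q3) (C2 := cd6q1) (C3 := pd3)
    rfl k0_pp_313

noncomputable def f_pm_001 : ℕ → ℕ → ℕ → ℕ → Bool := onCell 0 536870912 536870912 536870912 649613803 48318383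
    (rowB 3 eng mog cd1q0 cd6q0 pd1 1 true true false .up 0 0 1 (qsf 0 536870912 0 536870912 1) ndB1q0 ndB6q0 pcB1 Cut.none Ext.none)

def k0_pm_001 : ∃ t, chk3 f_pm_001 t 1 1 1 = true :=
  ⟨(b (l 3) (b (l 3) (a (l 2) (b (a (l 3) (b (l 3) (a (l 3) (a (l 16497824) (l 16566400))))) (a (l 2) (a (b (b (l 26943770823) (l 2)) (l 2)) (b (b (l 16405504) (l 16365640)) (a (l 16331672) (l 16280392))))))))), by decide +kernel⟩

theorem c_pm_001 : CertB 0 536870912 0 536870912 649613803 48318383 3 eng mog cd1q0 cd6q0 pd1 true true false .up 0 0 1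
    ndB1q0 ndB6q0 pcB1 Cut.none Ext.none :=
  certB1 (fam := true) (s1 := true) (s2 := false) (a := 0) (b := 0) (c := 1) (cn := .up) (n1 := ndB1q0) (n2 := ndB6q0) (pc := pcB1) (cut := Cut.none) (xt := Ext.none) (P1 := 0) (W1 := 536870912) (P2 := 0) (W2 := 536870912) (P3 := 649613803) (W3 := 48318383) (N0 := 3) (En := eng) (mo := mog) (C1 := cd1q0) (C2 := cd6q0) (C3 := pd1)
    rfl (fun _ => rfl) k0_pm_001

noncomputable def cut_pm_011 : Cut := Cut.of [[⟨0, 0, 0, 67108864⟩, ⟨1, 1, 0, 67108864⟩, ⟨2, 1, 0, 67108864⟩]]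

noncomputable def f_pm_011 : ℕ → ℕ → ℕ → ℕ → Bool := onCell 0 536870912 536870912 536870912 649613803 48318383
    (rowB 3 eng mog cd1q0 cd6q1 pd1 1 true true false .pnn 0 1 1 (qsf 0 536870912 536870912 536870912 1) ndB1q0 ndB6q1 pcB1 cut_pm_011 Ext.none)

def k0_pm_011 : ∃ t, chk3 f_pm_011 t 1 1 1 = true :=
  ⟨(b (l 3) (b (l 3) (a (b (l 3) (a (b (l 3) (a (b (l 3) (a (l 6) (b (l 3) (a (l 6) (b (a (l 16730768) (l 16721800)) (l 16739096)))))) (b (l 3) (b (a (a (b (l 3) (l 16716976)) (l 16724568)) (a (l 16686008) (l 16668808))) (a (a (b (l 16708496) (l 16700416)) (l 16686888)) (a (l 16669456) (l 16652360))))))) (b (a (l 3) (a (l 3) (l 3))) (a (b (a (a (l 774335443239) (l 50633451287)) (l 16663488)) (a (b (l 16646776) (l 16630864)) (l 16648808))) (b (a (l 16601144) (l 16564368)) (a (l 16570960) (l 16534824))))))) (b (a (l 3) (b (l 3) (a (l 3) (l 89824479351)))) (a (b (a (b (l 3) (a (l 16556760) (l 16515848))) (a (l 16553528) (l 16512864))) (a (a (l 16575504)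 (l 16518120)) (a (l 16460856) (l 16402640)))) (b (a (a (l 16454696) (l 16400912)) (l 61773047463)) (a (l 16404888) (l 16333824)))))))), by decide +kernel⟩

theorem c_pm_011 : CertB 0 536870912 536870912 536870912 649613803 48318383 3 eng mog cd1q0 cd6q1 pd1 true true false .pnn 0 1 1
    ndB1q0 ndB6q1 pcB1 cut_pm_011 Ext.none :=
  certB1 (fam := true) (s1 := true) (s2 := false) (a := 0) (b := 1) (c := 1) (cn := .pnn) (n1 := ndB1q0) (n2 := ndB6q1) (pc := pcB1) (cut := cut_pm_011) (xt := Ext.none) (P1 := 0) (W1 := 536870912) (P2 := 536870912) (W2 := 536870912) (P3 := 649613803) (W3 := 48318383) (N0 := 3) (En := eng) (mo := mog) (C1 := cd1q0) (C2 := cd6q1) (C3 := pd1)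
    rfl (fun _ => rfl) k0_pm_011

noncomputable def cut_pm_012 : Cut := Cut.of [[⟨0, 0, 0, 67108864⟩, ⟨1, 1, 0, 67108864⟩, ⟨2, 1, 0, 67108864⟩]]

noncomputable def f_pm_012 : ℕ → ℕ → ℕ → ℕ → Bool := onCell 1073741824 536870912 536870912 536870912 649613803 48318383
    (rowB 3 eng mog cd1q0 cd6q1 pd2 2 true true false .pnp 0 1 2 (qsf 0 536870912 536870912 536870912 2) ndB1q0 ndB6q1 pcB2 cut_pm_012 Ext.none)

def k0_pm_012 : ∃ t, chk3 f_pm_012 t 8 1 1 = true :=
  ⟨(b (b (b (l 16277688) (a (l 16286064) (l 16240376))) (b (a (a (l 16375760) (l 16411568)) (l 16454896)) (a (l 16504496) (b (l 16350208) (l 16376352))))) (b (b (a (b (l 16498664) (l 16583736)) (b (l 16402080) (l 16469560))) (a (b (c (l 16606432) (l 16604824)) (a (l 16634896) (l 16553480))) (b (a (l 16474904) (l 16431600)) (a (l 16505152) (l 16458584))))) (a (b (a (b (a (b (l 16634168) (l 16650776)) (l 16624736)) (a (c (l 16688848) (l 16684016)) (l 16658520))) (b (l 16610256) (l 16672896))) (a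 (b (a (b (b (l 16699648) (l 16708632)) (l 6)) (b (l 16683432) (l 16718752))) (l 6)) (b (b (l 16663568) (a (b (l 16666416) (l 16673160)) (l 16642152))) (b (a (l 6) (b (l 16651648) (l 6))) (l 6))))) (b (b (a (l 16558408) (l 16487176)) (a (a (l 16624560) (l 16577304)) (b (l 16509448) (l 16524248)))) (b (a (b (l 16589256) (a (l 16614816) (l 16587792))) (b (l 16537104) (l 16547896))) (a (b (b (l 16630952) (l 16636648)) (b (a (l 6) (l 16607224)) (l 6))) (b (b (l 16555616) (l 16560632)) (b (l 16565544) (a (l 16584336) (l 16556480)))))))))), by decide +kernel⟩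

def k1_pm_012 : ∃ t, chk3 f_pm_012 t 9 1 1 = true :=
  ⟨(b (b (b (l 16096264) (a (l 16214032) (l 16144240))) (b (a (l 16255288) (l 16203600)) (a (l 16427808) (l 16265776)))) (b (b (a (b (l 16331896) (l 16350736)) (b (l 16267848) (l 16280800))) (a (b (l 16411472) (l 16454936)) (b (l 16293176) (l 16351480)))) (b (a (b (a (l 16438880) (l 16392568)) (a (l 16464864) (l 16414808))) (b (a (l 16348256) (l 16305864)) (a (l 16366872) (l 16321096)))) (a (b (a (b (l 16484632) (l 16495752)) (b (l 16432040) (l 16443360))) (b (a (l 16504776) (l 16452664)) (a (b (l 16511144) (l 16515248)) (l 16480824)))) (b (a (l 16385984) (l 16336272)) (b (a (l 16400312) (l 16347864)) (a (l 16428688) (a (l 16368744) (l 16342320))))))))), by decide +kernel⟩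

def k2_pm_012 : ∃ t, chk3 f_pm_012 t 5 1 1 = true :=
  ⟨(b (a (b (a (a (l 16128472) (l 2)) (l 2)) (a (a (b (l 16165760) (l 16204680)) (b (a (l 16147792) (l 16141944)) (a (l 16186000) (l 16242064)))) (b (l 16115488) (l 16150912)))) (b (l 2) (b (l 16114768) (l 16129168)))) (b (a (a (a (b (l 16228784) (b (l 16241208) (l 16252936))) (b (a (l 16207912) (a (l 16198464) (l 16194904))) (a (l 16222200) (a (l 16210656) (a (l 16205544) (l 16202888)))))) (b (l 16209000) (b (l 16169648) (l 16173368)))) (b (l 16125184) (b (l 16112248) (l 16105056)))) (a (a (a (b (b (l 16265536) (l 16277528)) (b (l 16309744) (b (l 16297120) (l 16302712)))) (b (a (b (l 16236856) (l 16246352)) (a (l 16269312) (b (l 16215440) (a (l 16224056) (l 16219416))))) (a (b (l 16254648) (b (l 16260496) (l 16264304))) (b (a (l 16238008) (a (l 16229728) (l 16224128))) (a (l 16243888) (a (l 16234400) (b (l 16226856) (l 16228416)))))))) (b (b (l 16176888) (a (l 16197680) (l 16161672))) (b (a (l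 16200704) (l 16160768)) (a (b (l 16201848) (l 16202272)) (l 16157976))))) (b (b (l 16180528) (a (l 16114104) (l 16061632))) (b (a (l 16106320) (l 16045152)) (a (b (l 16099432) (l 16094184)) (b (l 16031512) (l 16021840)))))))), by decide +kernel⟩

def k3_pm_012 : ∃ t, chk3 f_pm_012 t 3 1 1 = true :=
  ⟨(b (a (b (l 2) (a (b (l 2) (l 16129416)) (l 2))) (l 2)) (a (b (a (b (l 16100664) (l 16123376)) (b (l 16114104) (l 16052144))) (a (b (b (l 16029736) (l 16131424)) (b (a (l 15997200) (l 15962280)) (a (b (l 15977272) (l 15963224)) (l 15927912)))) (b (a (l 15991656) (l 15989976)) (a (b (l 15939536) (a (l 15905168) (l 15894312))) (b (l 15930136) (l 15884608)))))) (b (a (b (l 2) (l 16093136)) (l 2)) (a (b (l 16009296) (a (b (l 15932224) (l 15882032)) (l 15918888))) (b (a (l 16058648) (l 2)) (a (l 15945272) (l 15987456))))))), by decide +kernel⟩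

theorem s4_pm_012 : ∃ t, chk3 f_pm_012 t 4 1 1 = true := ex3_a k0_pm_012 k1_pm_012

theorem s5_pm_012 : ∃ t, chk3 f_pm_012 t 2 1 1 = true := ex3_a s4_pm_012 k2_pm_012

theorem s6_pm_012 : ∃ t, chk3 f_pm_012 t 1 1 1 = true := ex3_a s5_pm_012 k3_pm_012

theorem c_pm_012 : CertB 0 536870912 536870912 536870912 649613803 48318383 3 eng mog cd1q0 cd6q1 pd2 true true false .pnp 0 1 2
    ndB1q0 ndB6q1 pcB2 cut_pm_012 Ext.none :=
  certB2 (fam := true) (s1 := true) (s2 := false) (a := 0) (b := 1) (c := 2) (cn := .pnp) (n1 := ndB1q0) (n2 := ndB6q1) (pc := pcB2) (cut := cut_pm_012) (xt := Ext.none) (P1 := 0) (W1 := 536870912) (P2 := 536870912) (W2 := 536870912) (P3 := 649613803) (W3 := 48318383) (N0 := 3) (En := eng) (mo := mog) (C1 := cd1q0) (C2 := cd6q1) (C3 := pd2)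
    rfl (fun _ => rfl) s6_pm_012

noncomputable def f_pm_022 : ℕ → ℕ → ℕ → ℕ → Bool := onCell 1073741824 536870912 1073741824 536870912 649613803 48318383
    (rowB 3 eng mog cd1q0 cd6q2 pd2 2 true true false .pp 0 2 2 (qsf 0 536870912 1073741824 536870912 2) ndB1q0 ndB6q2 pcB2 Cut.none Ext.none)

def k0_pm_022 : ∃ t, chk3 f_pm_022 t 2 1 1 = true :=
  ⟨(b (a (b (l 3) (a (l 1) (b (l 3) (l 1)))) (a (a (a (l 3) (a (l 3) (b (a (l 3) (b (a (l 3) (b (c (a (a (a (l 3) (l 16511352)) (l 16511016)) (l 16510328)) (l 16501632)) (c (a (b (l 16493896) (l 16486264)) (l 16488728)) (l 16483176)))) (a (b (l 16477560) (l 16552536)) (a (b (l 16467560) (c (l 16516488) (l 16466960))) (l 16469776))))) (b (a (l 3) (a (b (a (l 3) (b (l 16453552) (a (l 238403596263) (l 238940467319)))) (l 1)) (a (b (c (a (a (l 16446984) (b (l 16450504) (l 16442736))) (l 16445824)) (b (l 16454184) (c (l 154651752471) (l 16447576)))) (l 1)) (b (c (l 16444448) (l 16448072)) (b (c (l 16434112)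 (l 16436704)) (l 1)))))) (l 1))))) (b (b (b (a (l 16455392) (l 16480968)) (l 16466616)) (b (l 16449872) (l 16433432))) (b (b (c (b (l 16418504) (l 16410728)) (l 16417232)) (b (c (l 77342342087) (l 74657948519)) (c (b (l 16404288) (l 16406696)) (l 16408736)))) (b (l 280279154487) (l 1))))) (b (b (b (l 16425368) (l 16398816)) (b (l 16373328) (l 16434136))) (b (c (b (a (l 16358544) (l 16305376)) (b (l 16383824) (a (l 16349744) (l 16296384)))) (b (l 16331832) (b (l 16341472) (l 16323880)))) (a (b (l 175589795159) (l 574484508023)) (b (l 16299824) (l 508986158055))))))) (a (l 1) (b (a (l 1) (b (b (l 348461745671) (l 1)) (l 1))) (l 1)))), by decide +kernel⟩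

def k1_pm_022 : ∃ t, chk3 f_pm_022 t 3 1 1 = true :=
  ⟨(b (b (a (b (a (b (l 16340320) (l 16312440)) (l 16274656)) (a (b (l 16285424) (l 16259512)) (l 16254472))) (a (b (l 16256064) (l 16184296)) (b (l 16267832) (l 16183984)))) (a (b (a (b (l 16361144) (b (l 16387040) (l 16272960))) (b (l 16168672) (l 16399728))) (a (b (l 16246288) (b (l 16226776) (l 16223856))) (b (l 16146720) (l 16150944)))) (b (b (l 16292904) (a (l 16106176) (l 16095704))) (a (l 16118656) (l 16088392))))) (a (b (b (a (b (l 263636121335) (l 308733155927)) (b (l 16163456) (l 16163912))) (a (b (a (l 1) (l 362957056279)) (l 1)) (b (l 273836685255) (l 325376058071)))) (a (l 1) (b (b (l 416107213911) (l 1)) (l 1)))) (b (b (a (b (l 16116912) (l 16137808)) (l 16093976)) (a (b (l 16146904) (l 16152640)) (l 16155456))) (a (b (a (l 354367093463) (l 262025661607)) (a (l 1) (l 497174797671))) (b (l 16181120) (b (l 288332414023) (l 398390626743))))))), by decide +kernel⟩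

theorem s2_pm_022 : ∃ t, chk3 f_pm_022 t 1 1 1 = true := ex3_a k0_pm_022 k1_pm_022

theorem c_pm_022 : CertB 0 536870912 1073741824 536870912 649613803 48318383 3 eng mog cd1q0 cd6q2 pd2 true true false .pp 0 2 2
    ndB1q0 ndB6q2 pcB2 Cut.none Ext.none :=
  certB2 (fam := true) (s1 := true) (s2 := false) (a := 0) (b := 2) (c := 2) (cn := .pp) (n1 := ndB1q0) (n2 := ndB6q2) (pc := pcB2) (cut := Cut.none) (xt := Ext.none) (P1 := 0) (W1 := 536870912) (P2 := 1073741824) (W2 := 536870912) (P3 := 649613803) (W3 := 48318383) (N0 := 3) (En := eng) (mo := mog) (C1 := cd1q0) (C2 := cd6q2) (C3 := pd2)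
    rfl (fun _ => rfl) s2_pm_022

noncomputable def f_pm_023 : ℕ → ℕ → ℕ → ℕ → Bool := onCell 1610612736 536870912 1073741824 536870912 649613803 48318383
    (rowB 3 eng mog cd1q0 cd6q2 pd3 2 true true false .up 0 2 3 (qsf 0 536870912 1073741824 536870912 3) ndB1q0 ndB6q2 pcB3 Cut.none Ext.none)

def k0_pm_023 : ∃ t, chk3 f_pm_023 t 1 1 1 = true :=
  ⟨(a (a (b (b (b (l 16308448) (l 16219200)) (b (a (l 16133872) (l 16165408)) (l 16376016))) (b (b (l 16097240) (l 16374400)) (b (a (l 16190984) (l 16219664)) (a (l 16219608) (l 16265608))))) (b (b (a (l 16343000) (l 2)) (b (a (l 16211168) (l 16284256)) (l 16247408))) (a (b (l 16176256) (b (l 16236408) (l 16320424))) (b (l 16333320) (b (l 16360256) (l 16389408)))))) (b (a (b (l 2) (a (b (l 2) (l 16373160)) (l 2))) (l 2)) (b (a (b (l 16459600) (a (l 16461680) (l 16535720))) (a (l 527307936471) (l 2))) (a (a (b (l 16482688) (l 16489208)) (b (l 16569208) (l 16579440))) (a (l 16633176) (a (l 16661152) (a (l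 16673976) (a (l 16679840) (l 308264879191))))))))), by decide +kernel⟩

theorem c_pm_023 : CertB 0 536870912 1073741824 536870912 649613803 48318383 3 eng mog cd1q0 cd6q2 pd3 true true false .up 0 2 3
    ndB1q0 ndB6q2 pcB3 Cut.none Ext.none :=
  certB2 (fam := true) (s1 := true) (s2 := false) (a := 0) (b := 2) (c := 3) (cn := .up) (n1 := ndB1q0) (n2 := ndB6q2) (pc := pcB3) (cut := Cut.none) (xt := Ext.none) (P1 := 0) (W1 := 536870912) (P2 := 1073741824) (W2 := 536870912) (P3 := 649613803) (W3 := 48318383) (N0 := 3) (En := eng) (mo := mog) (C1 := cd1q0) (C2 := cd6q2) (C3 := pd3)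
    rfl (fun _ => rfl) k0_pm_023

noncomputable def f_pm_033 : ℕ → ℕ → ℕ → ℕ → Bool := onCell 1610612736 536870912 0 1230186008 649613803 48318383
    (rowB 3 eng mog cd1q0 cd6q3 pd3 2 true true false .pnn 0 3 3 (qsf 0 536870912 0 1230186008 3) ndB1q0 ndB6q3 pcB3 Cut.none Ext.none)

def k0_pm_033 : ∃ t, chk3 f_pm_033 t 1 1 1 = true :=
  ⟨(b (a (l 1) (a (l 1) (b (l 4) (l 4)))) (b (b (a (l 1) (a (a (l 1) (a (l 16333440) (l 16344272))) (a (a (l 16375864) (l 4)) (l 4)))) (a (a (l 1) (a (l 1) (a (l 1) (b (l 1) (l 16220752))))) (a (a (a (b (l 16241288) (l 16255240)) (b (l 16284104) (l 16297560))) (a (b (l 16328968) (l 16341248)) (l 16383328))) (a (a (l 16439984) (l 16457536)) (l 4))))) (b (a (a (l 1) (a (a (b (l 1) (a (l 16149072) (l 280815658183))) (a (b (l 1) (l 287258536791)) (b (l 374231404359) (l 16207664)))) (b (a (l 250214379671) (l 16237784)) (a (l 16225904) (l 16256176))))) (a (a (b (a (l 16270616) (l 16310144)) (a (l 16294360) (l 16338872))) (a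 (b (l 16358504) (l 16389784)) (b (l 16411568) (l 16449176)))) (a (a (b (l 16470936) (l 16501968)) (l 16716848)) (a (l 16612808) (l 4))))) (a (a (a (b (l 1) (l 342556244391)) (b (l 356514867511) (l 16199640))) (a (a (b (l 330208187639) (l 16241120)) (b (l 16222616) (l 16261632))) (b (l 16269376) (l 16320752)))) (a (a (b (l 16360696) (l 16419776)) (b (a (l 16437704) (l 16491344)) (l 16358112))) (a (b (a (l 16549760) (l 16591976)) (l 16355008)) (a (l 16666424) (a (l 16662288) (a (l 16670824) (l 16683928)))))))))), by decide +kernel⟩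

theorem c_pm_033 : CertB 0 536870912 0 1230186008 649613803 48318383 3 eng mog cd1q0 cd6q3 pd3 true true false .pnn 0 3 3
    ndB1q0 ndB6q3 pcB3 Cut.none Ext.none :=
  certB2 (fam := true) (s1 := true) (s2 := false) (a := 0) (b := 3) (c := 3) (cn := .pnn) (n1 := ndB1q0) (n2 := ndB6q3) (pc := pcB3) (cut := Cut.none) (xt := Ext.none) (P1 := 0) (W1 := 536870912) (P2 := 0) (W2 := 1230186008) (P3 := 649613803) (W3 := 48318383) (N0 := 3) (En := eng) (mo := mog) (C1 := cd1q0) (C2 := cd6q3) (C3 := pd3)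
    rfl (fun _ => rfl) k0_pm_033

noncomputable def f_pm_101 : ℕ → ℕ → ℕ → ℕ → Bool := onCell 536870912 536870912 0 536870912 649613803 48318383
    (rowB 3 eng mog cd1q1 cd6q0 pd1 2 true true false .npn 1 0 1 (qsf 536870912 536870912 0 536870912 1) ndB1q1 ndB6q0 pcB1 Cut.none Ext.none)

def k0_pm_101 : ∃ t, chk3 f_pm_101 t 1 1 1 = true :=
  ⟨(a (l 3) (a (b (a (l 3) (b (l 3) (l 3))) (l 3)) (b (a (a (a (b (b (b (l 16824304) (l 16821792)) (a (l 3) (b (l 16804248) (l 398526193783)))) (l 3)) (b (b (b (l 16772360) (l 16769560)) (b (l 16766264) (b (l 16761016) (l 16752528)))) (b (b (l 102710227207) (l 82845929047)) (b (l 16705016) (l 16655160))))) (b (b (a (l 16871352) (l 16680160)) (a (b (l 16719488) (l 16713632)) (b (l 16674616) (l 16670328)))) (b (a (c (l 16682808) (l 16687664)) (c (l 16647992) (l 16647096))) (a (b (l 16644496) (l 16615024)) (l 16592224))))) (b (b (a (b (l 16623112) (l 16616432)) (a (l 16562488) (l 16526352))) (a (b (l 16611088) (l 16604848))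 (b (l 16531800) (l 16520736)))) (a (b (b (l 16595432) (l 16576936)) (a (l 16553920) (l 16514392))) (b (l 16689640) (l 16453216))))) (a (b (a (l 3) (b (b (l 16543112) (l 109688981815)) (a (l 231558726087) (l 117742019415)))) (a (l 3) (a (l 3) (b (b (l 16443672) (l 16409528)) (l 201359486871))))) (b (a (b (a (l 16487352) (l 16444840)) (b (l 16408856) (l 16370192))) (b (l 16378824) (b (l 16315024) (l 16268968)))) (a (b (b (l 16370032) (l 16339392)) (b (l 16362744) (l 16364344))) (b (b (l 16261248) (l 16238088)) (l 16335024)))))))), by decide +kernel⟩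

theorem c_pm_101 : CertB 536870912 536870912 0 536870912 649613803 48318383 3 eng mog cd1q1 cd6q0 pd1 true true false .npn 1 0 1
    ndB1q1 ndB6q0 pcB1 Cut.none Ext.none :=
  certB2 (fam := true) (s1 := true) (s2 := false) (a := 1) (b := 0) (c := 1) (cn := .npn) (n1 := ndB1q1) (n2 := ndB6q0) (pc := pcB1) (cut := Cut.none) (xt := Ext.none) (P1 := 536870912) (W1 := 536870912) (P2 := 0) (W2 := 536870912) (P3 := 649613803) (W3 := 48318383) (N0 := 3) (En := eng) (mo := mog) (C1 := cd1q1) (C2 := cd6q0) (C3 := pd1)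
    rfl (fun _ => rfl) k0_pm_101

noncomputable def f_pm_102 : ℕ → ℕ → ℕ → ℕ → Bool := onCell 536870912 536870912 1073741824 536870912 649613803 48318383
    (rowB 3 eng mog cd1q1 cd6q0 pd2 1 true true false .npp 1 0 2 (qsf 536870912 536870912 0 536870912 2) ndB1q1 ndB6q0 pcB2 Cut.none Ext.none)

def k0_pm_102 : ∃ t, chk3 f_pm_102 t 1 1 1 = true :=
  ⟨(b (a (b (a (b (a (b (l 16167256) (l 16141000)) (b (l 16191120) (l 16041672))) (a (l 24795519767) (b (l 16076768) (l 16081648)))) (b (a (b (l 16186424) (l 16099336)) (b (l 16277928) (l 16215192))) (a (b (l 16031752) (l 16026840)) (b (l 16166504) (l 16116528))))) (a (b (b (b (l 16120048) (l 2)) (l 2)) (l 2)) (b (b (b (a (l 16032720) (l 16091976)) (a (l 16100296) (l 16112768))) (a (l 16041096) (l 16067688))) (a (l 16140416) (l 16148680))))) (b (a (b (a (b (l 16351968) (l 16286488)) (b (l 16392896) (l 16329176))) (a (b (l 16239488) (l 16206856)) (b (l 16287088) (l 16261256)))) (b (a (b (a (l 16413920) (l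 16596192)) (a (l 16356344) (l 16380800))) (b (a (b (l 16460664) (l 16433040)) (b (l 16481640) (l 16459496))) (a (l 16392656) (l 16534792)))) (a (b (l 16341040) (l 16327464)) (a (b (l 16405232) (l 16389904)) (b (l 16417472) (l 16396504)))))) (a (b (a (b (b (l 16189544) (b (l 16182248) (l 16177288))) (b (l 16166192) (l 16174544))) (b (l 16245344) (l 16244224))) (a (l 16214744) (l 16315120))) (b (a (b (l 16319232) (l 16322616)) (b (a (l 16378520) (l 16386048)) (b (l 16384696) (l 16397136)))) (a (l 16401640) (l 16444960)))))) (a (b (a (l 2) (b (l 128412278599) (l 2))) (l 2)) (b (a (b (a (l 16324312) (l 16415816)) (l 149887450359)) (b (a (l 16490424) (l 16521904)) (a (l 16569776) (l 16602736)))) (a (b (l 16563144) (l 2)) (b (a (l 16663688) (l 16702568)) (a (l 16788408) (l 16847552))))))), by decide +kernel⟩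

theorem c_pm_102 : CertB 536870912 536870912 0 536870912 649613803 48318383 3 eng mog cd1q1 cd6q0 pd2 true true false .npp 1 0 2
    ndB1q1 ndB6q0 pcB2 Cut.none Ext.none :=
  certB1 (fam := true) (s1 := true) (s2 := false) (a := 1) (b := 0) (c := 2) (cn := .npp) (n1 := ndB1q1) (n2 := ndB6q0) (pc := pcB2) (cut := Cut.none) (xt := Ext.none) (P1 := 536870912) (W1 := 536870912) (P2 := 0) (W2 := 536870912) (P3 := 649613803) (W3 := 48318383) (N0 := 3) (En := eng) (mo := mog) (C1 := cd1q1) (C2 := cd6q0) (C3 := pd2)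
    rfl (fun _ => rfl) k0_pm_102

noncomputable def f_pm_112 : ℕ → ℕ → ℕ → ℕ → Bool := onCell 536870912 536870912 1073741824 536870912 649613803 48318383
    (rowB 3 eng mog cd1q1 cd6q1 pd2 1 true true false .dn 1 1 2 (qsf 536870912 536870912 536870912 536870912 2) ndB1q1 ndB6q1 pcB2 Cut.none Ext.none)

def k0_pm_112 : ∃ t, chk3 f_pm_112 t 1 1 1 = true :=
  ⟨(b (a (b (a (b (a (a (l 16176032) (l 16132480)) (l 16148272)) (a (b (l 16156912) (l 16146616)) (l 16262264))) (b (l 1) (a (l 16112816) (l 1)))) (b (a (b (b (l 16211728) (a (b (l 16127048) (l 16128160)) (l 16230896))) (a (l 16119512) (l 16078992))) (a (b (b (l 16041032) (l 16083784)) (l 16042312)) (b (l 1) (l 16030496)))) (a (a (l 16137776) (l 16132536)) (a (l 16128464) (l 16141816))))) (b (l 1) (b (l 1) (a (l 376916340791) (l 1))))) (a (b (a (b (a (l 16128600) (l 16163344)) (a (l 16098224) (l 16166496))) (b (l 16222352) (l 16528272))) (a (b (a (l 16071872) (l 16168528)) (a (l 16052408) (l 16176768)))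 (b (l 16319240) (l 16358512)))) (b (a (b (l 16351040) (l 16443400)) (b (l 1) (l 16585440))) (a (b (l 16528496) (l 16623136)) (b (l 16692016) (a (l 16791504) (l 16860816))))))), by decide +kernel⟩

theorem c_pm_112 : CertB 536870912 536870912 536870912 536870912 649613803 48318383 3 eng mog cd1q1 cd6q1 pd2 true true false .dn 1 1 2
    ndB1q1 ndB6q1 pcB2 Cut.none Ext.none :=
  certB1 (fam := true) (s1 := true) (s2 := false) (a := 1) (b := 1) (c := 2) (cn := .dn) (n1 := ndB1q1) (n2 := ndB6q1) (pc := pcB2) (cut := Cut.none) (xt := Ext.none) (P1 := 536870912) (W1 := 536870912) (P2 := 536870912) (W2 := 536870912) (P3 := 649613803) (W3 := 48318383) (N0 := 3) (En := eng) (mo := mog) (C1 := cd1q1) (C2 := cd6q1) (C3 := pd2)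
    rfl (fun _ => rfl) k0_pm_112

noncomputable def f_pm_113 : ℕ → ℕ → ℕ → ℕ → Bool := onCell 1610612736 536870912 536870912 536870912 649613803 48318383
    (rowB 3 eng mog cd1q1 cd6q1 pd3 2 true true false .nn 1 1 3 (qsf 536870912 536870912 536870912 536870912 3) ndB1q1 ndB6q1 pcB3 Cut.none Ext.none)

def k0_pm_113 : ∃ t, chk3 f_pm_113 t 1 1 1 = true :=
  ⟨(a (a (b (a (b (a (l 16792328) (l 16814816)) (b (l 16671424) (l 16553776))) (b (l 16789488) (a (l 16634608) (l 16666024)))) (a (b (b (l 16433512) (l 16291032)) (b (l 16132592) (l 15988080))) (b (a (l 16419576) (l 16434384)) (a (l 16124864) (l 16191504))))) (b (b (a (b (l 2) (l 16739496)) (l 2)) (a (l 16684832) (l 16642024))) (a (a (b (l 16476656) (a (l 16231448) (l 16256240))) (b (l 16513392) (b (l 16346544) (l 16225640)))) (b (l 16656824) (a (l 16338240) (l 16379992)))))) (a (b (a (l 4) (l 2)) (a (b (l 16556048) (a (l 16417384) (l 16447032))) (b (l 4) (a (l 16458512) (l 4))))) (b (l 2) (b (l 4)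 (l 4))))), by decide +kernel⟩

theorem c_pm_113 : CertB 536870912 536870912 536870912 536870912 649613803 48318383 3 eng mog cd1q1 cd6q1 pd3 true true false .nn 1 1 3
    ndB1q1 ndB6q1 pcB3 Cut.none Ext.none :=
  certB2 (fam := true) (s1 := true) (s2 := false) (a := 1) (b := 1) (c := 3) (cn := .nn) (n1 := ndB1q1) (n2 := ndB6q1) (pc := pcB3) (cut := Cut.none) (xt := Ext.none) (P1 := 536870912) (W1 := 536870912) (P2 := 536870912) (W2 := 536870912) (P3 := 649613803) (W3 := 48318383) (N0 := 3) (En := eng) (mo := mog) (C1 := cd1q1) (C2 := cd6q1) (C3 := pd3)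
    rfl (fun _ => rfl) k0_pm_113

noncomputable def f_pm_123 : ℕ → ℕ → ℕ → ℕ → Bool := onCell 1610612736 536870912 1073741824 536870912 649613803 48318383
    (rowB 3 eng mog cd1q1 cd6q2 pd3 2 true true false .npn 1 2 3 (qsf 536870912 536870912 1073741824 536870912 3) ndB1q1 ndB6q2 pcB3 Cut.none Ext.none)

def k0_pm_123 : ∃ t, chk3 f_pm_123 t 1 1 1 = true :=
  ⟨(a (a (b (b (b (a (l 16319864) (l 16392560)) (l 16259456)) (b (l 228203079143) (l 1))) (l 1)) (b (b (b (a (l 16514576) (l 16576080)) (l 16403168)) (b (a (l 16255104) (l 16335640)) (l 16301536))) (a (l 1) (b (l 16408984) (l 1))))) (b (a (b (a (b (a (l 16597064) (l 16607408)) (l 16484144)) (b (a (l 16584432) (b (l 16697992) (l 16613736))) (a (l 16502312) (l 16515800)))) (a (b (b (l 16413368) (l 16382808)) (l 16412064)) (b (b (l 16442720) (l 16417592)) (l 16458216)))) (a (b (a (b (b (l 16726120) (l 16651080)) (b (l 16578800) (l 16512504))) (b (b (l 16753368) (l 16681176)) (a (l 16568560) (l 16578112))))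 (b (a (l 16449528) (b (l 16493992) (l 16458120))) (a (l 16478936) (l 16494576)))) (a (b (b (a (l 16729648) (l 16721296)) (a (l 16597840) (l 16607296))) (b (l 16709032) (l 16516424))) (a (b (b (l 16707352) (l 16608248)) (b (l 16543048) (l 16537648))) (b (a (l 16634648) (l 4)) (b (a (l 16525968) (l 4)) (a (l 16547760) (a (l 16549152) (l 16709984))))))))) (a (b (b (l 16486216) (a (l 16503464) (l 16558200))) (a (l 1) (l 16621856))) (a (b (b (l 16547896) (l 16600336)) (l 16653840)) (a (b (l 16618216) (l 16676984)) (a (b (l 16608792) (l 16691192)) (b (a (l 16615128) (a (l 16618624) (b (a (l 16600776) (l 16598944)) (l 16644856)))) (a (l 16698784) (a (l 16701904) (l 16702104)))))))))), by decide +kernel⟩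

theorem c_pm_123 : CertB 536870912 536870912 1073741824 536870912 649613803 48318383 3 eng mog cd1q1 cd6q2 pd3 true true false .npn 1 2 3
    ndB1q1 ndB6q2 pcB3 Cut.none Ext.none :=
  certB2 (fam := true) (s1 := true) (s2 := false) (a := 1) (b := 2) (c := 3) (cn := .npn) (n1 := ndB1q1) (n2 := ndB6q2) (pc := pcB3) (cut := Cut.none) (xt := Ext.none) (P1 := 536870912) (W1 := 536870912) (P2 := 1073741824) (W2 := 536870912) (P3 := 649613803) (W3 := 48318383) (N0 := 3) (En := eng) (mo := mog) (C1 := cd1q1) (C2 := cd6q2) (C3 := pd3)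
    rfl (fun _ => rfl) k0_pm_123

noncomputable def f_pm_133 : ℕ → ℕ → ℕ → ℕ → Bool := onCell 536870912 536870912 0 1230186008 649613803 48318383
    (rowB 3 eng mog cd1q1 cd6q3 pd3 0 true true false .dn 1 3 3 (qsf 536870912 536870912 0 1230186008 3) ndB1q1 ndB6q3 pcB3 Cut.none Ext.none)

def k0_pm_133 : ∃ t, chk3 f_pm_133 t 1 1 1 = true :=
  ⟨(b (l 2) (b (l 2) (a (b (l 2) (a (l 4) (l 2))) (l 2)))), by decide +kernel⟩

theorem c_pm_133 : CertB 536870912 536870912 0 1230186008 649613803 48318383 3 eng mog cd1q1 cd6q3 pd3 true true false .dn 1 3 3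
    ndB1q1 ndB6q3 pcB3 Cut.none Ext.none :=
  certB0 (fam := true) (s1 := true) (s2 := false) (a := 1) (b := 3) (c := 3) (cn := .dn) (n1 := ndB1q1) (n2 := ndB6q3) (pc := pcB3) (cut := Cut.none) (xt := Ext.none) (P1 := 536870912) (W1 := 536870912) (P2 := 0) (W2 := 1230186008) (P3 := 649613803) (W3 := 48318383) (N0 := 3) (En := eng) (mo := mog) (C1 := cd1q1) (C2 := cd6q3) (C3 := pd3)
    rfl k0_pm_133

noncomputable def f_pm_202_a : ℕ → ℕ → ℕ → ℕ → Bool := onCell 0 536870912 1073741824 536870912 649613803 48318383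
    (rowB 3 eng mog cd1q2a cd6q0 pd2 1 true true false .pp 2 0 2 (qsf 0 536870912 0 536870912 2) ndB1q2a ndB6q0 pcB2 Cut.none Ext.none)

def k0_pm_202_a : ∃ t, chk3 f_pm_202_a t 2 1 1 = true :=
  ⟨(b (a (b (l 1) (b (b (a (l 16356376) (b (l 1) (l 16368224))) (a (l 16378168) (l 16380184))) (b (l 16407896) (l 16437112)))) (b (b (l 1) (a (l 1) (b (l 1) (b (l 1) (l 16392296))))) (b (b (a (b (a (l 16373960) (l 16381320)) (l 16379080)) (b (l 16387160) (l 16383304))) (a (b (l 16381096) (l 16391712)) (b (l 16381568) (l 16390840)))) (a (b (l 16413664) (l 16441120)) (b (l 16412600) (l 16439064)))))) (b (b (a (b (l 16468256) (l 16501432)) (a (l 16480840) (l 16477224))) (a (b (l 16536016) (l 4)) (b (l 16519088) (l 16550104)))) (b (a (l 4) (b (l 16581152) (l 16610960))) (l 4)))), by decide +kernel⟩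

def k1_pm_202_a : ∃ t, chk3 f_pm_202_a t 3 1 1 = true :=
  ⟨(b (b (a (b (l 1) (a (b (l 1) (b (a (l 16406560) (l 16406616)) (l 16394344))) (b (b (a (l 1) (l 16445608)) (a (l 16423376) (l 16420680))) (b (l 16401528) (l 16383656))))) (b (b (a (l 1) (a (b (l 1) (a (b (l 1) (l 16495176)) (b (b (l 1) (l 16499008)) (l 16488896)))) (a (b (c (l 16532592) (l 16495016)) (b (l 16493800) (l 16481528))) (b (l 16506688) (l 16480760))))) (b (a (a (l 1) (b (l 16490232) (l 16477416))) (a (l 16471992) (l 16459248))) (a (a (l 16466464) (l 16458080)) (a (l 16446408) (l 16436560))))) (a (b (a (b (l 16441744) (l 16416144)) (l 16420368)) (a (l 16382680) (l 16377392))) (b (a (l 16411640) (l 16407560)) (a (l 16373624) (l 16379072)))))) (b (a (b (a (a (l 16381784) (l 16375416)) (a (l 16367616) (l 16359008))) (a (b (l 16370544) (l 16378472)) (b (l 16351416) (l 16359008)))) (b (a (a (l 16352312) (l 16348040)) (a (l 16538456) (b (l 16366432) (l 16363072)))) (a (b (l 16568968)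 (l 16347512)) (b (a (l 16342592) (l 16365088)) (l 16365632))))) (a (a (b (l 16483632) (l 16426512)) (b (l 16381624) (l 16410288))) (a (b (l 16373552) (l 16407448)) (b (l 16397552) (l 16439016)))))) (b (b (a (a (l 16506736) (b (l 16437984) (l 16467600))) (a (l 16457664) (l 16501736))) (a (b (l 16504144) (l 16538872)) (b (l 16580320) (l 16583800)))) (a (b (b (l 16574136) (l 16609976)) (b (l 16646792) (l 16683064))) (b (a (l 16623032) (l 16694128)) (l 16777248))))), by decide +kernel⟩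

theorem s2_pm_202_a : ∃ t, chk3 f_pm_202_a t 1 1 1 = true := ex3_a k0_pm_202_a k1_pm_202_a

theorem c_pm_202_a : CertB 0 536870912 0 536870912 649613803 48318383 3 eng mog cd1q2a cd6q0 pd2 true true false .pp 2 0 2
    ndB1q2a ndB6q0 pcB2 Cut.none Ext.none :=
  certB1 (fam := true) (s1 := true) (s2 := false) (a := 2) (b := 0) (c := 2) (cn := .pp) (n1 := ndB1q2a) (n2 := ndB6q0) (pc := pcB2) (cut := Cut.none) (xt := Ext.none) (P1 := 0) (W1 := 536870912) (P2 := 0) (W2 := 536870912) (P3 := 649613803) (W3 := 48318383) (N0 := 3) (En := eng) (mo := mog) (C1 := cd1q2a) (C2 := cd6q0) (C3 := pd2)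
    rfl (fun _ => rfl) s2_pm_202_a

noncomputable def f_pm_202_b : ℕ → ℕ → ℕ → ℕ → Bool := onCell 1239849684 370763052 0 536870912 649613803 48318383
    (rowB 3 eng mog cd1q2b cd6q0 pd2 0 true true false .pp 2 0 2 (qsf 1239849684 370763052 0 536870912 2) ndB1q2b ndB6q0 pcB2 Cut.none Ext.none)

def k0_pm_202_b : ∃ t, chk3 f_pm_202_b t 1 1 1 = true :=
  ⟨(b (a (b (a (b (a (b (a (l 16376544) (l 16373488)) (l 16407464)) (b (l 16366464) (l 16407080))) (a (b (l 16444360) (l 4)) (l 4))) (b (b (a (l 16353416) (l 4)) (l 4)) (l 4))) (l 4)) (l 4)) (l 4)), by decide +kernel⟩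

theorem c_pm_202_b : CertB 1239849684 370763052 0 536870912 649613803 48318383 3 eng mog cd1q2b cd6q0 pd2 true true false .pp 2 0 2
    ndB1q2b ndB6q0 pcB2 Cut.none Ext.none :=
  certB0 (fam := true) (s1 := true) (s2 := false) (a := 2) (b := 0) (c := 2) (cn := .pp) (n1 := ndB1q2b) (n2 := ndB6q0) (pc := pcB2) (cut := Cut.none) (xt := Ext.none) (P1 := 1239849684) (W1 := 370763052) (P2 := 0) (W2 := 536870912) (P3 := 649613803) (W3 := 48318383) (N0 := 3) (En := eng) (mo := mog) (C1 := cd1q2b) (C2 := cd6q0) (C3 := pd2)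
    rfl k0_pm_202_b

noncomputable def f_pm_203_a : ℕ → ℕ → ℕ → ℕ → Bool := onCell 0 536870912 1610612736 536870912 649613803 48318383
    (rowB 3 eng mog cd1q2a cd6q0 pd3 1 true true false .up 2 0 3 (qsf 0 536870912 0 536870912 3) ndB1q2a ndB6q0 pcB3 Cut.none Ext.none)

def k0_pm_203_a : ∃ t, chk3 f_pm_203_a t 1 1 1 = true :=
  ⟨(a (l 4) (b (b (b (a (l 16709840) (l 16687544)) (a (l 4) (l 16747376))) (l 4)) (l 2))), by decide +kernel⟩

theorem c_pm_203_a : CertB 0 536870912 0 536870912 649613803 48318383 3 eng mog cd1q2a cd6q0 pd3 true true false .up 2 0 3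
    ndB1q2a ndB6q0 pcB3 Cut.none Ext.none :=
  certB1 (fam := true) (s1 := true) (s2 := false) (a := 2) (b := 0) (c := 3) (cn := .up) (n1 := ndB1q2a) (n2 := ndB6q0) (pc := pcB3) (cut := Cut.none) (xt := Ext.none) (P1 := 0) (W1 := 536870912) (P2 := 0) (W2 := 536870912) (P3 := 649613803) (W3 := 48318383) (N0 := 3) (En := eng) (mo := mog) (C1 := cd1q2a) (C2 := cd6q0) (C3 := pd3)
    rfl (fun _ => rfl) k0_pm_203_a

noncomputable def f_pm_203_b : ℕ → ℕ → ℕ → ℕ → Bool := onCell 1239849684 370763052 1610612736 536870912 649613803 48318383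
    (rowB 3 eng mog cd1q2b cd6q0 pd3 1 true true false .up 2 0 3 (qsf 1239849684 370763052 0 536870912 3) ndB1q2b ndB6q0 pcB3 Cut.none Ext.none)

def k0_pm_203_b : ∃ t, chk3 f_pm_203_b t 1 1 1 = true :=
  ⟨(l 4), by decide +kernel⟩

theorem c_pm_203_b : CertB 1239849684 370763052 0 536870912 649613803 48318383 3 eng mog cd1q2b cd6q0 pd3 true true false .up 2 0 3
    ndB1q2b ndB6q0 pcB3 Cut.none Ext.none :=
  certB1 (fam := true) (s1 := true) (s2 := false) (a := 2) (b := 0) (c := 3) (cn := .up) (n1 := ndB1q2b) (n2 := ndB6q0) (pc := pcB3) (cut := Cut.none) (xt := Ext.none) (P1 := 1239849684) (W1 := 370763052) (P2 := 0) (W2 := 536870912) (P3 := 649613803) (W3 := 48318383) (N0 := 3) (En := eng) (mo := mog) (C1 := cd1q2b) (C2 := cd6q0) (C3 := pd3)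
    rfl (fun _ => rfl) k0_pm_203_b

noncomputable def f_pm_213_a : ℕ → ℕ → ℕ → ℕ → Bool := onCell 0 536870912 1610612736 536870912 649613803 48318383
    (rowB 3 eng mog cd1q2a cd6q1 pd3 1 true true false .pnn 2 1 3 (qsf 0 536870912 536870912 536870912 3) ndB1q2a ndB6q1 pcB3 Cut.none Ext.none)

def k0_pm_213_a : ∃ t, chk3 f_pm_213_a t 1 1 1 = true :=
  ⟨(a (l 4) (b (b (b (a (l 1) (l 16744696)) (a (l 4) (l 16703752))) (l 4)) (l 4))), by decide +kernel⟩

theorem c_pm_213_a : CertB 0 536870912 536870912 536870912 649613803 48318383 3 eng mog cd1q2a cd6q1 pd3 true true false .pnn 2 1 3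
    ndB1q2a ndB6q1 pcB3 Cut.none Ext.none :=
  certB1 (fam := true) (s1 := true) (s2 := false) (a := 2) (b := 1) (c := 3) (cn := .pnn) (n1 := ndB1q2a) (n2 := ndB6q1) (pc := pcB3) (cut := Cut.none) (xt := Ext.none) (P1 := 0) (W1 := 536870912) (P2 := 536870912) (W2 := 536870912) (P3 := 649613803) (W3 := 48318383) (N0 := 3) (En := eng) (mo := mog) (C1 := cd1q2a) (C2 := cd6q1) (C3 := pd3)
    rfl (fun _ => rfl) k0_pm_213_a

noncomputable def f_pm_213_b : ℕ → ℕ → ℕ → ℕ → Bool := onCell 1239849684 370763052 536870912 536870912 649613803 48318383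
    (rowB 3 eng mog cd1q2b cd6q1 pd3 0 true true false .pnn 2 1 3 (qsf 1239849684 370763052 536870912 536870912 3) ndB1q2b ndB6q1 pcB3 Cut.none Ext.none)

def k0_pm_213_b : ∃ t, chk3 f_pm_213_b t 1 1 1 = true :=
  ⟨(l 4), by decide +kernel⟩

theorem c_pm_213_b : CertB 1239849684 370763052 536870912 536870912 649613803 48318383 3 eng mog cd1q2b cd6q1 pd3 true true false .pnn 2 1 3
    ndB1q2b ndB6q1 pcB3 Cut.none Ext.none :=
  certB0 (fam := true) (s1 := true) (s2 := false) (a := 2) (b := 1) (c := 3) (cn := .pnn) (n1 := ndB1q2b) (n2 := ndB6q1) (pc := pcB3) (cut := Cut.none) (xt := Ext.none) (P1 := 1239849684) (W1 := 370763052) (P2 := 536870912) (W2 := 536870912) (P3 := 649613803) (W3 := 48318383) (N0 := 3) (En := eng) (mo := mog) (C1 := cd1q2b) (C2 := cd6q1) (C3 := pd3)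
    rfl k0_pm_213_b

noncomputable def f_pm_303 : ℕ → ℕ → ℕ → ℕ → Bool := onCell 1610612736 536870912 0 536870912 649613803 48318383
    (rowB 3 eng mog cd1q3 cd6q0 pd3 0 true true false .npn 3 0 3 (qsf 1610612736 536870912 0 536870912 3) ndB1q3 ndB6q0 pcB3 Cut.none Ext.none)

def k0_pm_303 : ∃ t, chk3 f_pm_303 t 1 1 1 = true :=
  ⟨(l 4), by decide +kernel⟩

theorem c_pm_303 : CertB 1610612736 536870912 0 536870912 649613803 48318383 3 eng mog cd1q3 cd6q0 pd3 true true false .npn 3 0 3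
    ndB1q3 ndB6q0 pcB3 Cut.none Ext.none :=
  certB0 (fam := true) (s1 := true) (s2 := false) (a := 3) (b := 0) (c := 3) (cn := .npn) (n1 := ndB1q3) (n2 := ndB6q0) (pc := pcB3) (cut := Cut.none) (xt := Ext.none) (P1 := 1610612736) (W1 := 536870912) (P2 := 0) (W2 := 536870912) (P3 := 649613803) (W3 := 48318383) (N0 := 3) (En := eng) (mo := mog) (C1 := cd1q3) (C2 := cd6q0) (C3 := pd3)
    rfl k0_pm_303

noncomputable def f_pm_313 : ℕ → ℕ → ℕ → ℕ → Bool := onCell 1610612736 536870912 536870912 536870912 649613803 48318383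
    (rowB 3 eng mog cd1q3 cd6q1 pd3 0 true true false .dn 3 1 3 (qsf 1610612736 536870912 536870912 536870912 3) ndB1q3 ndB6q1 pcB3 Cut.none Ext.none)

def k0_pm_313 : ∃ t, chk3 f_pm_313 t 1 1 1 = true :=
  ⟨(l 4), by decide +kernel⟩

theorem c_pm_313 : CertB 1610612736 536870912 536870912 536870912 649613803 48318383 3 eng mog cd1q3 cd6q1 pd3 true true false .dn 3 1 3
    ndB1q3 ndB6q1 pcB3 Cut.none Ext.none :=
  certB0 (fam := true) (s1 := true) (s2 := false) (a := 3) (b := 1) (c := 3) (cn := .dn) (n1 := ndB1q3) (n2 := ndB6q1) (pc := pcB3) (cut := Cut.none) (xt := Ext.none) (P1 := 1610612736) (W1 := 536870912) (P2 := 536870912) (W2 := 536870912) (P3 := 649613803) (W3 := 48318383) (N0 := 3) (En := eng) (mo := mog) (C1 := cd1q3) (C2 := cd6q1) (C3 := pd3)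
    rfl k0_pm_313

noncomputable def f_mm_001 : ℕ → ℕ → ℕ → ℕ → Bool := onCell 0 536870912 0 536870912 649613803 48318383
    (rowB 3 eng mog cd1q0 cd6q0 pd1 0 true false false .up 0 0 1 (qsf 0 536870912 0 536870912 1) ndB1q0 ndB6q0 pcB1 Cut.none Ext.none)

def k0_mm_001 : ∃ t, chk3 f_mm_001 t 1 1 1 = true :=
  ⟨(l 4), by decide +kernel⟩

theorem c_mm_001 : CertB 0 536870912 0 536870912 649613803 48318383 3 eng mog cd1q0 cd6q0 pd1 true false false .up 0 0 1
    ndB1q0 ndB6q0 pcB1 Cut.none Ext.none :=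
  certB0 (fam := true) (s1 := false) (s2 := false) (a := 0) (b := 0) (c := 1) (cn := .up) (n1 := ndB1q0) (n2 := ndB6q0) (pc := pcB1) (cut := Cut.none) (xt := Ext.none) (P1 := 0) (W1 := 536870912) (P2 := 0) (W2 := 536870912) (P3 := 649613803) (W3 := 48318383) (N0 := 3) (En := eng) (mo := mog) (C1 := cd1q0) (C2 := cd6q0) (C3 := pd1)
    rfl k0_mm_001

noncomputable def f_mm_011 : ℕ → ℕ → ℕ → ℕ → Bool := onCell 0 536870912 536870912 536870912 649613803 48318383
    (rowB 3 eng mog cd1q0 cd6q1 pd1 0 true false false .pnn 0 1 1 (qsf 0 536870912 536870912 536870912 1) ndB1q0 ndB6q1 pcB1 Cut.none Ext.none)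

def k0_mm_011 : ∃ t, chk3 f_mm_011 t 1 1 1 = true :=
  ⟨(l 4), by decide +kernel⟩

theorem c_mm_011 : CertB 0 536870912 536870912 536870912 649613803 48318383 3 eng mog cd1q0 cd6q1 pd1 true false false .pnn 0 1 1
    ndB1q0 ndB6q1 pcB1 Cut.none Ext.none :=
  certB0 (fam := true) (s1 := false) (s2 := false) (a := 0) (b := 1) (c := 1) (cn := .pnn) (n1 := ndB1q0) (n2 := ndB6q1) (pc := pcB1) (cut := Cut.none) (xt := Ext.none) (P1 := 0) (W1 := 536870912) (P2 := 536870912) (W2 := 536870912) (P3 := 649613803) (W3 := 48318383) (N0 := 3) (En := eng) (mo := mog) (C1 := cd1q0) (C2 := cd6q1) (C3 := pd1)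
    rfl k0_mm_011

noncomputable def f_mm_012 : ℕ → ℕ → ℕ → ℕ → Bool := onCell 0 536870912 536870912 536870912 649613803 48318383
    (rowB 3 eng mog cd1q0 cd6q1 pd2 0 true false false .pnp 0 1 2 (qsf 0 536870912 536870912 536870912 2) ndB1q0 ndB6q1 pcB2 Cut.none Ext.none)

def k0_mm_012 : ∃ t, chk3 f_mm_012 t 1 1 1 = true :=
  ⟨(l 4), by decide +kernel⟩

theorem c_mm_012 : CertB 0 536870912 536870912 536870912 649613803 48318383 3 eng mog cd1q0 cd6q1 pd2 true false false .pnp 0 1 2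
    ndB1q0 ndB6q1 pcB2 Cut.none Ext.none :=
  certB0 (fam := true) (s1 := false) (s2 := false) (a := 0) (b := 1) (c := 2) (cn := .pnp) (n1 := ndB1q0) (n2 := ndB6q1) (pc := pcB2) (cut := Cut.none) (xt := Ext.none) (P1 := 0) (W1 := 536870912) (P2 := 536870912) (W2 := 536870912) (P3 := 649613803) (W3 := 48318383) (N0 := 3) (En := eng) (mo := mog) (C1 := cd1q0) (C2 := cd6q1) (C3 := pd2)
    rfl k0_mm_012

noncomputable def f_mm_022 : ℕ → ℕ → ℕ → ℕ → Bool := onCell 0 536870912 1073741824 536870912 649613803 48318383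
    (rowB 3 eng mog cd1q0 cd6q2 pd2 0 true false false .pp 0 2 2 (qsf 0 536870912 1073741824 536870912 2) ndB1q0 ndB6q2 pcB2 Cut.none Ext.none)

def k0_mm_022 : ∃ t, chk3 f_mm_022 t 1 1 1 = true :=
  ⟨(l 4), by decide +kernel⟩

theorem c_mm_022 : CertB 0 536870912 1073741824 536870912 649613803 48318383 3 eng mog cd1q0 cd6q2 pd2 true false false .pp 0 2 2
    ndB1q0 ndB6q2 pcB2 Cut.none Ext.none :=
  certB0 (fam := true) (s1 := false) (s2 := false) (a := 0) (b := 2) (c := 2) (cn := .pp) (n1 := ndB1q0) (n2 := ndB6q2) (pc := pcB2) (cut := Cut.none) (xt := Ext.none) (P1 := 0) (W1 := 536870912) (P2 := 1073741824) (W2 := 536870912) (P3 := 649613803) (W3 := 48318383) (N0 := 3) (En := eng) (mo := mog) (C1 := cd1q0) (C2 := cd6q2) (C3 := pd2)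
    rfl k0_mm_022

noncomputable def f_mm_023 : ℕ → ℕ → ℕ → ℕ → Bool := onCell 0 536870912 1073741824 536870912 649613803 48318383
    (rowB 3 eng mog cd1q0 cd6q2 pd3 0 true false false .up 0 2 3 (qsf 0 536870912 1073741824 536870912 3) ndB1q0 ndB6q2 pcB3 Cut.none Ext.none)

def k0_mm_023 : ∃ t, chk3 f_mm_023 t 1 1 1 = true :=
  ⟨(l 4), by decide +kernel⟩

theorem c_mm_023 : CertB 0 536870912 1073741824 536870912 649613803 48318383 3 eng mog cd1q0 cd6q2 pd3 true false false .up 0 2 3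
    ndB1q0 ndB6q2 pcB3 Cut.none Ext.none :=
  certB0 (fam := true) (s1 := false) (s2 := false) (a := 0) (b := 2) (c := 3) (cn := .up) (n1 := ndB1q0) (n2 := ndB6q2) (pc := pcB3) (cut := Cut.none) (xt := Ext.none) (P1 := 0) (W1 := 536870912) (P2 := 1073741824) (W2 := 536870912) (P3 := 649613803) (W3 := 48318383) (N0 := 3) (En := eng) (mo := mog) (C1 := cd1q0) (C2 := cd6q2) (C3 := pd3)
    rfl k0_mm_023

noncomputable def f_mm_033 : ℕ → ℕ → ℕ → ℕ → Bool := onCell 0 536870912 0 1230186008 649613803 48318383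
    (rowB 3 eng mog cd1q0 cd6q3 pd3 0 true false false .pnn 0 3 3 (qsf 0 536870912 0 1230186008 3) ndB1q0 ndB6q3 pcB3 Cut.none Ext.none)

def k0_mm_033 : ∃ t, chk3 f_mm_033 t 1 1 1 = true :=
  ⟨(l 5), by decide +kernel⟩

theorem c_mm_033 : CertB 0 536870912 0 1230186008 649613803 48318383 3 eng mog cd1q0 cd6q3 pd3 true false false .pnn 0 3 3
    ndB1q0 ndB6q3 pcB3 Cut.none Ext.none :=
  certB0 (fam := true) (s1 := false) (s2 := false) (a := 0) (b := 3) (c := 3) (cn := .pnn) (n1 := ndB1q0) (n2 := ndB6q3) (pc := pcB3) (cut := Cut.none) (xt := Ext.none) (P1 := 0) (W1 := 536870912) (P2 := 0) (W2 := 1230186008) (P3 := 649613803) (W3 := 48318383) (N0 := 3) (En := eng) (mo := mog) (C1 := cd1q0) (C2 := cd6q3) (C3 := pd3)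
    rfl k0_mm_033

noncomputable def f_mm_101 : ℕ → ℕ → ℕ → ℕ → Bool := onCell 536870912 536870912 0 536870912 649613803 48318383
    (rowB 3 eng mog cd1q1 cd6q0 pd1 0 true false false .npn 1 0 1 (qsf 536870912 536870912 0 536870912 1) ndB1q1 ndB6q0 pcB1 Cut.none Ext.none)

def k0_mm_101 : ∃ t, chk3 f_mm_101 t 1 1 1 = true :=
  ⟨(l 4), by decide +kernel⟩

theorem c_mm_101 : CertB 536870912 536870912 0 536870912 649613803 48318383 3 eng mog cd1q1 cd6q0 pd1 true false false .npn 1 0 1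
    ndB1q1 ndB6q0 pcB1 Cut.none Ext.none :=
  certB0 (fam := true) (s1 := false) (s2 := false) (a := 1) (b := 0) (c := 1) (cn := .npn) (n1 := ndB1q1) (n2 := ndB6q0) (pc := pcB1) (cut := Cut.none) (xt := Ext.none) (P1 := 536870912) (W1 := 536870912) (P2 := 0) (W2 := 536870912) (P3 := 649613803) (W3 := 48318383) (N0 := 3) (En := eng) (mo := mog) (C1 := cd1q1) (C2 := cd6q0) (C3 := pd1)
    rfl k0_mm_101

noncomputable def f_mm_102 : ℕ → ℕ → ℕ → ℕ → Bool := onCell 536870912 536870912 0 536870912 649613803 48318383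
    (rowB 3 eng mog cd1q1 cd6q0 pd2 0 true false false .npp 1 0 2 (qsf 536870912 536870912 0 536870912 2) ndB1q1 ndB6q0 pcB2 Cut.none Ext.none)

def k0_mm_102 : ∃ t, chk3 f_mm_102 t 1 1 1 = true :=
  ⟨(l 4), by decide +kernel⟩

theorem c_mm_102 : CertB 536870912 536870912 0 536870912 649613803 48318383 3 eng mog cd1q1 cd6q0 pd2 true false false .npp 1 0 2
    ndB1q1 ndB6q0 pcB2 Cut.none Ext.none :=
  certB0 (fam := true) (s1 := false) (s2 := false) (a := 1) (b := 0) (c := 2) (cn := .npp) (n1 := ndB1q1) (n2 := ndB6q0) (pc := pcB2) (cut := Cut.none) (xt := Ext.none) (P1 := 536870912) (W1 := 536870912) (P2 := 0) (W2 := 536870912) (P3 := 649613803) (W3 := 48318383) (N0 := 3) (En := eng) (mo := mog) (C1 := cd1q1) (C2 := cd6q0) (C3 := pd2)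
    rfl k0_mm_102

noncomputable def f_mm_112 : ℕ → ℕ → ℕ → ℕ → Bool := onCell 536870912 536870912 536870912 536870912 649613803 48318383
    (rowB 3 eng mog cd1q1 cd6q1 pd2 0 true false false .dn 1 1 2 (qsf 536870912 536870912 536870912 536870912 2) ndB1q1 ndB6q1 pcB2 Cut.none Ext.none)

def k0_mm_112 : ∃ t, chk3 f_mm_112 t 1 1 1 = true :=
  ⟨(l 4), by decide +kernel⟩

theorem c_mm_112 : CertB 536870912 536870912 536870912 536870912 649613803 48318383 3 eng mog cd1q1 cd6q1 pd2 true false false .dn 1 1 2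
    ndB1q1 ndB6q1 pcB2 Cut.none Ext.none :=
  certB0 (fam := true) (s1 := false) (s2 := false) (a := 1) (b := 1) (c := 2) (cn := .dn) (n1 := ndB1q1) (n2 := ndB6q1) (pc := pcB2) (cut := Cut.none) (xt := Ext.none) (P1 := 536870912) (W1 := 536870912) (P2 := 536870912) (W2 := 536870912) (P3 := 649613803) (W3 := 48318383) (N0 := 3) (En := eng) (mo := mog) (C1 := cd1q1) (C2 := cd6q1) (C3 := pd2)
    rfl k0_mm_112

noncomputable def f_mm_113 : ℕ → ℕ → ℕ → ℕ → Bool := onCell 536870912 536870912 536870912 536870912 649613803 48318383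
    (rowB 3 eng mog cd1q1 cd6q1 pd3 0 true false false .nn 1 1 3 (qsf 536870912 536870912 536870912 536870912 3) ndB1q1 ndB6q1 pcB3 Cut.none Ext.none)

def k0_mm_113 : ∃ t, chk3 f_mm_113 t 1 1 1 = true :=
  ⟨(l 4), by decide +kernel⟩

theorem c_mm_113 : CertB 536870912 536870912 536870912 536870912 649613803 48318383 3 eng mog cd1q1 cd6q1 pd3 true false false .nn 1 1 3
    ndB1q1 ndB6q1 pcB3 Cut.none Ext.none :=
  certB0 (fam := true) (s1 := false) (s2 := false) (a := 1) (b := 1) (c := 3) (cn := .nn) (n1 := ndB1q1) (n2 := ndB6q1) (pc := pcB3) (cut := Cut.none) (xt := Ext.none) (P1 := 536870912) (W1 := 536870912) (P2 := 536870912) (W2 := 536870912) (P3 := 649613803) (W3 := 48318383) (N0 := 3) (En := eng) (mo := mog) (C1 := cd1q1) (C2 := cd6q1) (C3 := pd3)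
    rfl k0_mm_113

noncomputable def f_mm_123 : ℕ → ℕ → ℕ → ℕ → Bool := onCell 536870912 536870912 1073741824 536870912 649613803 48318383
    (rowB 3 eng mog cd1q1 cd6q2 pd3 0 true false false .npn 1 2 3 (qsf 536870912 536870912 1073741824 536870912 3) ndB1q1 ndB6q2 pcB3 Cut.none Ext.none)

def k0_mm_123 : ∃ t, chk3 f_mm_123 t 1 1 1 = true :=
  ⟨(l 4), by decide +kernel⟩

theorem c_mm_123 : CertB 536870912 536870912 1073741824 536870912 649613803 48318383 3 eng mog cd1q1 cd6q2 pd3 true false false .npn 1 2 3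
    ndB1q1 ndB6q2 pcB3 Cut.none Ext.none :=
  certB0 (fam := true) (s1 := false) (s2 := false) (a := 1) (b := 2) (c := 3) (cn := .npn) (n1 := ndB1q1) (n2 := ndB6q2) (pc := pcB3) (cut := Cut.none) (xt := Ext.none) (P1 := 536870912) (W1 := 536870912) (P2 := 1073741824) (W2 := 536870912) (P3 := 649613803) (W3 := 48318383) (N0 := 3) (En := eng) (mo := mog) (C1 := cd1q1) (C2 := cd6q2) (C3 := pd3)
    rfl k0_mm_123

noncomputable def f_mm_133 : ℕ → ℕ → ℕ → ℕ → Bool := onCell 536870912 536870912 0 1230186008 649613803 48318383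
    (rowB 3 eng mog cd1q1 cd6q3 pd3 0 true false false .dn 1 3 3 (qsf 536870912 536870912 0 1230186008 3) ndB1q1 ndB6q3 pcB3 Cut.none Ext.none)

def k0_mm_133 : ∃ t, chk3 f_mm_133 t 1 1 1 = true :=
  ⟨(l 4), by decide +kernel⟩

theorem c_mm_133 : CertB 536870912 536870912 0 1230186008 649613803 48318383 3 eng mog cd1q1 cd6q3 pd3 true false false .dn 1 3 3
    ndB1q1 ndB6q3 pcB3 Cut.none Ext.none :=
  certB0 (fam := true) (s1 := false) (s2 := false) (a := 1) (b := 3) (c := 3) (cn := .dn) (n1 := ndB1q1) (n2 := ndB6q3) (pc := pcB3) (cut := Cut.none) (xt := Ext.none) (P1 := 536870912) (W1 := 536870912) (P2 := 0) (W2 := 1230186008) (P3 := 649613803) (W3 := 48318383) (N0 := 3) (En := eng) (mo := mog) (C1 := cd1q1) (C2 := cd6q3) (C3 := pd3)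
    rfl k0_mm_133

noncomputable def f_mm_202_a : ℕ → ℕ → ℕ → ℕ → Bool := onCell 0 536870912 0 536870912 649613803 48318383
    (rowB 3 eng mog cd1q2a cd6q0 pd2 0 true false false .pp 2 0 2 (qsf 0 536870912 0 536870912 2) ndB1q2a ndB6q0 pcB2 Cut.none Ext.none)

def k0_mm_202_a : ∃ t, chk3 f_mm_202_a t 1 1 1 = true :=
  ⟨(b (a (b (b (b (a (a (l 16393008) (l 4)) (l 4)) (l 4)) (l 4)) (l 4)) (l 4)) (l 4)), by decide +kernel⟩

theorem c_mm_202_a : CertB 0 536870912 0 536870912 649613803 48318383 3 eng mog cd1q2a cd6q0 pd2 true false false .pp 2 0 2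
    ndB1q2a ndB6q0 pcB2 Cut.none Ext.none :=
  certB0 (fam := true) (s1 := false) (s2 := false) (a := 2) (b := 0) (c := 2) (cn := .pp) (n1 := ndB1q2a) (n2 := ndB6q0) (pc := pcB2) (cut := Cut.none) (xt := Ext.none) (P1 := 0) (W1 := 536870912) (P2 := 0) (W2 := 536870912) (P3 := 649613803) (W3 := 48318383) (N0 := 3) (En := eng) (mo := mog) (C1 := cd1q2a) (C2 := cd6q0) (C3 := pd2)
    rfl k0_mm_202_a

noncomputable def f_mm_202_b : ℕ → ℕ → ℕ → ℕ → Bool := onCell 1073741824 536870912 0 536870912 649613803 48318383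
    (rowB 3 eng mog cd1q2b cd6q0 pd2 2 true false false .pp 2 0 2 (qsf 1239849684 370763052 0 536870912 2) ndB1q2b ndB6q0 pcB2 Cut.none Ext.none)

def k0_mm_202_b : ∃ t, chk3 f_mm_202_b t 1 1 1 = true :=
  ⟨(a (a (l 1) (b (b (a (b (a (l 355978655063) (l 167000169287)) (l 1)) (l 4)) (l 1)) (l 1))) (l 4)), by decide +kernel⟩

theorem c_mm_202_b : CertB 1239849684 370763052 0 536870912 649613803 48318383 3 eng mog cd1q2b cd6q0 pd2 true false false .pp 2 0 2
    ndB1q2b ndB6q0 pcB2 Cut.none Ext.none :=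
  certB2 (fam := true) (s1 := false) (s2 := false) (a := 2) (b := 0) (c := 2) (cn := .pp) (n1 := ndB1q2b) (n2 := ndB6q0) (pc := pcB2) (cut := Cut.none) (xt := Ext.none) (P1 := 1239849684) (W1 := 370763052) (P2 := 0) (W2 := 536870912) (P3 := 649613803) (W3 := 48318383) (N0 := 3) (En := eng) (mo := mog) (C1 := cd1q2b) (C2 := cd6q0) (C3 := pd2)
    rfl (fun _ => rfl) k0_mm_202_b

noncomputable def f_mm_203_a : ℕ → ℕ → ℕ → ℕ → Bool := onCell 0 536870912 1610612736 536870912 649613803 48318383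
    (rowB 3 eng mog cd1q2a cd6q0 pd3 1 true false false .up 2 0 3 (qsf 0 536870912 0 536870912 3) ndB1q2a ndB6q0 pcB3 Cut.none Ext.none)

def k0_mm_203_a : ∃ t, chk3 f_mm_203_a t 1 1 1 = true :=
  ⟨(l 4), by decide +kernel⟩

theorem c_mm_203_a : CertB 0 536870912 0 536870912 649613803 48318383 3 eng mog cd1q2a cd6q0 pd3 true false false .up 2 0 3
    ndB1q2a ndB6q0 pcB3 Cut.none Ext.none :=
  certB1 (fam := true) (s1 := false) (s2 := false) (a := 2) (b := 0) (c := 3) (cn := .up) (n1 := ndB1q2a) (n2 := ndB6q0) (pc := pcB3) (cut := Cut.none) (xt := Ext.none) (P1 := 0) (W1 := 536870912) (P2 := 0) (W2 := 536870912) (P3 := 649613803) (W3 := 48318383) (N0 := 3) (En := eng) (mo := mog) (C1 := cd1q2a) (C2 := cd6q0) (C3 := pd3)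
    rfl (fun _ => rfl) k0_mm_203_a

noncomputable def f_mm_203_b : ℕ → ℕ → ℕ → ℕ → Bool := onCell 1239849684 370763052 1610612736 536870912 649613803 48318383
    (rowB 3 eng mog cd1q2b cd6q0 pd3 1 true false false .up 2 0 3 (qsf 1239849684 370763052 0 536870912 3) ndB1q2b ndB6q0 pcB3 Cut.none Ext.none)

def k0_mm_203_b : ∃ t, chk3 f_mm_203_b t 1 1 1 = true :=
  ⟨(l 4), by decide +kernel⟩

theorem c_mm_203_b : CertB 1239849684 370763052 0 536870912 649613803 48318383 3 eng mog cd1q2b cd6q0 pd3 true false false .up 2 0 3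
    ndB1q2b ndB6q0 pcB3 Cut.none Ext.none :=
  certB1 (fam := true) (s1 := false) (s2 := false) (a := 2) (b := 0) (c := 3) (cn := .up) (n1 := ndB1q2b) (n2 := ndB6q0) (pc := pcB3) (cut := Cut.none) (xt := Ext.none) (P1 := 1239849684) (W1 := 370763052) (P2 := 0) (W2 := 536870912) (P3 := 649613803) (W3 := 48318383) (N0 := 3) (En := eng) (mo := mog) (C1 := cd1q2b) (C2 := cd6q0) (C3 := pd3)
    rfl (fun _ => rfl) k0_mm_203_b

noncomputable def f_mm_213_a : ℕ → ℕ → ℕ → ℕ → Bool := onCell 0 536870912 536870912 536870912 649613803 48318383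
    (rowB 3 eng mog cd1q2a cd6q1 pd3 0 true false false .pnn 2 1 3 (qsf 0 536870912 536870912 536870912 3) ndB1q2a ndB6q1 pcB3 Cut.none Ext.none)

def k0_mm_213_a : ∃ t, chk3 f_mm_213_a t 1 1 1 = true :=
  ⟨(l 4), by decide +kernel⟩

theorem c_mm_213_a : CertB 0 536870912 536870912 536870912 649613803 48318383 3 eng mog cd1q2a cd6q1 pd3 true false false .pnn 2 1 3
    ndB1q2a ndB6q1 pcB3 Cut.none Ext.none :=
  certB0 (fam := true) (s1 := false) (s2 := false) (a := 2) (b := 1) (c := 3) (cn := .pnn) (n1 := ndB1q2a) (n2 := ndB6q1) (pc := pcB3) (cut := Cut.none) (xt := Ext.none) (P1 := 0) (W1 := 536870912) (P2 := 536870912) (W2 := 536870912) (P3 := 649613803) (W3 := 48318383) (N0 := 3) (En := eng) (mo := mog) (C1 := cd1q2a) (C2 := cd6q1) (C3 := pd3)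
    rfl k0_mm_213_a

noncomputable def f_mm_213_b : ℕ → ℕ → ℕ → ℕ → Bool := onCell 1239849684 370763052 536870912 536870912 649613803 48318383
    (rowB 3 eng mog cd1q2b cd6q1 pd3 0 true false false .pnn 2 1 3 (qsf 1239849684 370763052 536870912 536870912 3) ndB1q2b ndB6q1 pcB3 Cut.none Ext.none)

def k0_mm_213_b : ∃ t, chk3 f_mm_213_b t 1 1 1 = true :=
  ⟨(l 4), by decide +kernel⟩

theorem c_mm_213_b : CertB 1239849684 370763052 536870912 536870912 649613803 48318383 3 eng mog cd1q2b cd6q1 pd3 true false false .pnn 2 1 3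
    ndB1q2b ndB6q1 pcB3 Cut.none Ext.none :=
  certB0 (fam := true) (s1 := false) (s2 := false) (a := 2) (b := 1) (c := 3) (cn := .pnn) (n1 := ndB1q2b) (n2 := ndB6q1) (pc := pcB3) (cut := Cut.none) (xt := Ext.none) (P1 := 1239849684) (W1 := 370763052) (P2 := 536870912) (W2 := 536870912) (P3 := 649613803) (W3 := 48318383) (N0 := 3) (En := eng) (mo := mog) (C1 := cd1q2b) (C2 := cd6q1) (C3 := pd3)
    rfl k0_mm_213_b

noncomputable def f_mm_303 : ℕ → ℕ → ℕ → ℕ → Bool := onCell 1610612736 536870912 0 536870912 649613803 48318383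
    (rowB 3 eng mog cd1q3 cd6q0 pd3 0 true false false .npn 3 0 3 (qsf 1610612736 536870912 0 536870912 3) ndB1q3 ndB6q0 pcB3 Cut.none Ext.none)

def k0_mm_303 : ∃ t, chk3 f_mm_303 t 1 1 1 = true :=
  ⟨(l 4), by decide +kernel⟩

theorem c_mm_303 : CertB 1610612736 536870912 0 536870912 649613803 48318383 3 eng mog cd1q3 cd6q0 pd3 true false false .npn 3 0 3
    ndB1q3 ndB6q0 pcB3 Cut.none Ext.none :=
  certB0 (fam := true) (s1 := false) (s2 := false) (a := 3) (b := 0) (c := 3) (cn := .npn) (n1 := ndB1q3) (n2 := ndB6q0) (pc := pcB3) (cut := Cut.none) (xt := Ext.none) (P1 := 1610612736) (W1 := 536870912) (P2 := 0) (W2 := 536870912) (P3 := 649613803) (W3 := 48318383) (N0 := 3) (En := eng) (mo := mog) (C1 := cd1q3) (C2 := cd6q0) (C3 := pd3)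
    rfl k0_mm_303

noncomputable def f_mm_313 : ℕ → ℕ → ℕ → ℕ → Bool := onCell 1610612736 536870912 536870912 536870912 649613803 48318383
    (rowB 3 eng mog cd1q3 cd6q1 pd3 0 true false false .dn 3 1 3 (qsf 1610612736 536870912 536870912 536870912 3) ndB1q3 ndB6q1 pcB3 Cut.none Ext.none)

def k0_mm_313 : ∃ t, chk3 f_mm_313 t 1 1 1 = true :=
  ⟨(l 4), by decide +kernel⟩

theorem c_mm_313 : CertB 1610612736 536870912 536870912 536870912 649613803 48318383 3 eng mog cd1q3 cd6q1 pd3 true false false .dn 3 1 3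
    ndB1q3 ndB6q1 pcB3 Cut.none Ext.none :=
  certB0 (fam := true) (s1 := false) (s2 := false) (a := 3) (b := 1) (c := 3) (cn := .dn) (n1 := ndB1q3) (n2 := ndB6q1) (pc := pcB3) (cut := Cut.none) (xt := Ext.none) (P1 := 1610612736) (W1 := 536870912) (P2 := 536870912) (W2 := 536870912) (P3 := 649613803) (W3 := 48318383) (N0 := 3) (En := eng) (mo := mog) (C1 := cd1q3) (C2 := cd6q1) (C3 := pd3)
    rfl k0_mm_313

end Pool.Agent.Strip051.G.I6050_6500.Tab.C.BA16

namespace Pool.Agent.Strip051.G.I6050_6500.Tab.C.BA17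

open Pool.Agent.Strip051.PB Pool.Agent.Strip051.PB.T
open Pool.Agent.Strip051.G.I6050_6500.Tab

noncomputable def f_pp_001 : ℕ → ℕ → ℕ → ℕ → Bool := onCell 0 536870912 0 536870912 649613803 48318383
    (rowB 3 eng mog cd1q0 cd7q0 pd1 0 true true true .up 0 0 1 (qsf 0 536870912 0 536870912 1) ndB1q0 ndB7q0 pcB1 Cut.none Ext.none)

def k0_pp_001 : ∃ t, chk3 f_pp_001 t 1 1 1 = true :=
  ⟨(l 4), by decide +kernel⟩

theorem c_pp_001 : CertB 0 536870912 0 536870912 649613803 48318383 3 eng mog cd1q0 cd7q0 pd1 true true true .up 0 0 1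
    ndB1q0 ndB7q0 pcB1 Cut.none Ext.none :=
  certB0 (fam := true) (s1 := true) (s2 := true) (a := 0) (b := 0) (c := 1) (cn := .up) (n1 := ndB1q0) (n2 := ndB7q0) (pc := pcB1) (cut := Cut.none) (xt := Ext.none) (P1 := 0) (W1 := 536870912) (P2 := 0) (W2 := 536870912) (P3 := 649613803) (W3 := 48318383) (N0 := 3) (En := eng) (mo := mog) (C1 := cd1q0) (C2 := cd7q0) (C3 := pd1)
    rfl k0_pp_001

noncomputable def f_pp_011 : ℕ → ℕ → ℕ → ℕ → Bool := onCell 0 536870912 536870912 536870912 649613803 48318383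
    (rowB 3 eng mog cd1q0 cd7q1 pd1 0 true true true .pnn 0 1 1 (qsf 0 536870912 536870912 536870912 1) ndB1q0 ndB7q1 pcB1 Cut.none Ext.none)

def k0_pp_011 : ∃ t, chk3 f_pp_011 t 1 1 1 = true :=
  ⟨(l 4), by decide +kernel⟩

theorem c_pp_011 : CertB 0 536870912 536870912 536870912 649613803 48318383 3 eng mog cd1q0 cd7q1 pd1 true true true .pnn 0 1 1
    ndB1q0 ndB7q1 pcB1 Cut.none Ext.none :=
  certB0 (fam := true) (s1 := true) (s2 := true) (a := 0) (b := 1) (c := 1) (cn := .pnn) (n1 := ndB1q0) (n2 := ndB7q1) (pc := pcB1) (cut := Cut.none) (xt := Ext.none) (P1 := 0) (W1 := 536870912) (P2 := 536870912) (W2 := 536870912) (P3 := 649613803) (W3 := 48318383) (N0 := 3) (En := eng) (mo := mog) (C1 := cd1q0) (C2 := cd7q1) (C3 := pd1)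
    rfl k0_pp_011

noncomputable def f_pp_012 : ℕ → ℕ → ℕ → ℕ → Bool := onCell 0 536870912 536870912 536870912 649613803 48318383
    (rowB 3 eng mog cd1q0 cd7q1 pd2 0 true true true .pnp 0 1 2 (qsf 0 536870912 536870912 536870912 2) ndB1q0 ndB7q1 pcB2 Cut.none Ext.none)

def k0_pp_012 : ∃ t, chk3 f_pp_012 t 1 1 1 = true :=
  ⟨(l 4), by decide +kernel⟩

theorem c_pp_012 : CertB 0 536870912 536870912 536870912 649613803 48318383 3 eng mog cd1q0 cd7q1 pd2 true true true .pnp 0 1 2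
    ndB1q0 ndB7q1 pcB2 Cut.none Ext.none :=
  certB0 (fam := true) (s1 := true) (s2 := true) (a := 0) (b := 1) (c := 2) (cn := .pnp) (n1 := ndB1q0) (n2 := ndB7q1) (pc := pcB2) (cut := Cut.none) (xt := Ext.none) (P1 := 0) (W1 := 536870912) (P2 := 536870912) (W2 := 536870912) (P3 := 649613803) (W3 := 48318383) (N0 := 3) (En := eng) (mo := mog) (C1 := cd1q0) (C2 := cd7q1) (C3 := pd2)
    rfl k0_pp_012

noncomputable def f_pp_022 : ℕ → ℕ → ℕ → ℕ → Bool := onCell 0 536870912 1073741824 536870912 649613803 48318383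
    (rowB 3 eng mog cd1q0 cd7q2 pd2 0 true true true .pp 0 2 2 (qsf 0 536870912 1073741824 536870912 2) ndB1q0 ndB7q2 pcB2 Cut.none Ext.none)

def k0_pp_022 : ∃ t, chk3 f_pp_022 t 1 1 1 = true :=
  ⟨(l 4), by decide +kernel⟩

theorem c_pp_022 : CertB 0 536870912 1073741824 536870912 649613803 48318383 3 eng mog cd1q0 cd7q2 pd2 true true true .pp 0 2 2
    ndB1q0 ndB7q2 pcB2 Cut.none Ext.none :=
  certB0 (fam := true) (s1 := true) (s2 := true) (a := 0) (b := 2) (c := 2) (cn := .pp) (n1 := ndB1q0) (n2 := ndB7q2) (pc := pcB2) (cut := Cut.none) (xt := Ext.none) (P1 := 0) (W1 := 536870912) (P2 := 1073741824) (W2 := 536870912) (P3 := 649613803) (W3 := 48318383) (N0 := 3) (En := eng) (mo := mog) (C1 := cd1q0) (C2 := cd7q2) (C3 := pd2)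
    rfl k0_pp_022

noncomputable def f_pp_023 : ℕ → ℕ → ℕ → ℕ → Bool := onCell 0 536870912 1073741824 536870912 649613803 48318383
    (rowB 3 eng mog cd1q0 cd7q2 pd3 0 true true true .up 0 2 3 (qsf 0 536870912 1073741824 536870912 3) ndB1q0 ndB7q2 pcB3 Cut.none Ext.none)

def k0_pp_023 : ∃ t, chk3 f_pp_023 t 1 1 1 = true :=
  ⟨(l 4), by decide +kernel⟩

theorem c_pp_023 : CertB 0 536870912 1073741824 536870912 649613803 48318383 3 eng mog cd1q0 cd7q2 pd3 true true true .up 0 2 3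
    ndB1q0 ndB7q2 pcB3 Cut.none Ext.none :=
  certB0 (fam := true) (s1 := true) (s2 := true) (a := 0) (b := 2) (c := 3) (cn := .up) (n1 := ndB1q0) (n2 := ndB7q2) (pc := pcB3) (cut := Cut.none) (xt := Ext.none) (P1 := 0) (W1 := 536870912) (P2 := 1073741824) (W2 := 536870912) (P3 := 649613803) (W3 := 48318383) (N0 := 3) (En := eng) (mo := mog) (C1 := cd1q0) (C2 := cd7q2) (C3 := pd3)
    rfl k0_pp_023

noncomputable def f_pp_033 : ℕ → ℕ → ℕ → ℕ → Bool := onCell 0 536870912 0 1230186008 649613803 48318383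
    (rowB 3 eng mog cd1q0 cd7q3 pd3 0 true true true .pnn 0 3 3 (qsf 0 536870912 0 1230186008 3) ndB1q0 ndB7q3 pcB3 Cut.none Ext.none)

def k0_pp_033 : ∃ t, chk3 f_pp_033 t 1 1 1 = true :=
  ⟨(b (l 4) (l 4)), by decide +kernel⟩

theorem c_pp_033 : CertB 0 536870912 0 1230186008 649613803 48318383 3 eng mog cd1q0 cd7q3 pd3 true true true .pnn 0 3 3
    ndB1q0 ndB7q3 pcB3 Cut.none Ext.none :=
  certB0 (fam := true) (s1 := true) (s2 := true) (a := 0) (b := 3) (c := 3) (cn := .pnn) (n1 := ndB1q0) (n2 := ndB7q3) (pc := pcB3) (cut := Cut.none) (xt := Ext.none) (P1 := 0) (W1 := 536870912) (P2 := 0) (W2 := 1230186008) (P3 := 649613803) (W3 := 48318383) (N0 := 3) (En := eng) (mo := mog) (C1 := cd1q0) (C2 := cd7q3) (C3 := pd3)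
    rfl k0_pp_033

noncomputable def f_pp_101 : ℕ → ℕ → ℕ → ℕ → Bool := onCell 536870912 536870912 0 536870912 649613803 48318383
    (rowB 3 eng mog cd1q1 cd7q0 pd1 0 true true true .npn 1 0 1 (qsf 536870912 536870912 0 536870912 1) ndB1q1 ndB7q0 pcB1 Cut.none Ext.none)

def k0_pp_101 : ∃ t, chk3 f_pp_101 t 1 1 1 = true :=
  ⟨(l 4), by decide +kernel⟩

theorem c_pp_101 : CertB 536870912 536870912 0 536870912 649613803 48318383 3 eng mog cd1q1 cd7q0 pd1 true true true .npn 1 0 1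
    ndB1q1 ndB7q0 pcB1 Cut.none Ext.none :=
  certB0 (fam := true) (s1 := true) (s2 := true) (a := 1) (b := 0) (c := 1) (cn := .npn) (n1 := ndB1q1) (n2 := ndB7q0) (pc := pcB1) (cut := Cut.none) (xt := Ext.none) (P1 := 536870912) (W1 := 536870912) (P2 := 0) (W2 := 536870912) (P3 := 649613803) (W3 := 48318383) (N0 := 3) (En := eng) (mo := mog) (C1 := cd1q1) (C2 := cd7q0) (C3 := pd1)
    rfl k0_pp_101

noncomputable def f_pp_102 : ℕ → ℕ → ℕ → ℕ → Bool := onCell 536870912 536870912 0 536870912 649613803 48318383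
    (rowB 3 eng mog cd1q1 cd7q0 pd2 0 true true true .npp 1 0 2 (qsf 536870912 536870912 0 536870912 2) ndB1q1 ndB7q0 pcB2 Cut.none Ext.none)

def k0_pp_102 : ∃ t, chk3 f_pp_102 t 1 1 1 = true :=
  ⟨(l 4), by decide +kernel⟩

theorem c_pp_102 : CertB 536870912 536870912 0 536870912 649613803 48318383 3 eng mog cd1q1 cd7q0 pd2 true true true .npp 1 0 2
    ndB1q1 ndB7q0 pcB2 Cut.none Ext.none :=
  certB0 (fam := true) (s1 := true) (s2 := true) (a := 1) (b := 0) (c := 2) (cn := .npp) (n1 := ndB1q1) (n2 := ndB7q0) (pc := pcB2) (cut := Cut.none) (xt := Ext.none) (P1 := 536870912) (W1 := 536870912) (P2 := 0) (W2 := 536870912) (P3 := 649613803) (W3 := 48318383) (N0 := 3) (En := eng) (mo := mog) (C1 := cd1q1) (C2 := cd7q0) (C3 := pd2)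
    rfl k0_pp_102

noncomputable def f_pp_112 : ℕ → ℕ → ℕ → ℕ → Bool := onCell 536870912 536870912 536870912 536870912 649613803 48318383
    (rowB 3 eng mog cd1q1 cd7q1 pd2 0 true true true .dn 1 1 2 (qsf 536870912 536870912 536870912 536870912 2) ndB1q1 ndB7q1 pcB2 Cut.none Ext.none)

def k0_pp_112 : ∃ t, chk3 f_pp_112 t 1 1 1 = true :=
  ⟨(l 4), by decide +kernel⟩

theorem c_pp_112 : CertB 536870912 536870912 536870912 536870912 649613803 48318383 3 eng mog cd1q1 cd7q1 pd2 true true true .dn 1 1 2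
    ndB1q1 ndB7q1 pcB2 Cut.none Ext.none :=
  certB0 (fam := true) (s1 := true) (s2 := true) (a := 1) (b := 1) (c := 2) (cn := .dn) (n1 := ndB1q1) (n2 := ndB7q1) (pc := pcB2) (cut := Cut.none) (xt := Ext.none) (P1 := 536870912) (W1 := 536870912) (P2 := 536870912) (W2 := 536870912) (P3 := 649613803) (W3 := 48318383) (N0 := 3) (En := eng) (mo := mog) (C1 := cd1q1) (C2 := cd7q1) (C3 := pd2)
    rfl k0_pp_112

noncomputable def f_pp_113 : ℕ → ℕ → ℕ → ℕ → Bool := onCell 536870912 536870912 536870912 536870912 649613803 48318383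
    (rowB 3 eng mog cd1q1 cd7q1 pd3 0 true true true .nn 1 1 3 (qsf 536870912 536870912 536870912 536870912 3) ndB1q1 ndB7q1 pcB3 Cut.none Ext.none)

def k0_pp_113 : ∃ t, chk3 f_pp_113 t 1 1 1 = true :=
  ⟨(l 4), by decide +kernel⟩

theorem c_pp_113 : CertB 536870912 536870912 536870912 536870912 649613803 48318383 3 eng mog cd1q1 cd7q1 pd3 true true true .nn 1 1 3
    ndB1q1 ndB7q1 pcB3 Cut.none Ext.none :=
  certB0 (fam := true) (s1 := true) (s2 := true) (a := 1) (b := 1) (c := 3) (cn := .nn) (n1 := ndB1q1) (n2 := ndB7q1) (pc := pcB3) (cut := Cut.none) (xt := Ext.none) (P1 := 536870912) (W1 := 536870912) (P2 := 536870912) (W2 := 536870912) (P3 := 649613803) (W3 := 48318383) (N0 := 3) (En := eng) (mo := mog) (C1 := cd1q1) (C2 := cd7q1) (C3 := pd3)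
    rfl k0_pp_113

noncomputable def f_pp_123 : ℕ → ℕ → ℕ → ℕ → Bool := onCell 536870912 536870912 1073741824 536870912 649613803 48318383
    (rowB 3 eng mog cd1q1 cd7q2 pd3 0 true true true .npn 1 2 3 (qsf 536870912 536870912 1073741824 536870912 3) ndB1q1 ndB7q2 pcB3 Cut.none Ext.none)

def k0_pp_123 : ∃ t, chk3 f_pp_123 t 1 1 1 = true :=
  ⟨(l 4), by decide +kernel⟩

theorem c_pp_123 : CertB 536870912 536870912 1073741824 536870912 649613803 48318383 3 eng mog cd1q1 cd7q2 pd3 true true true .npn 1 2 3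
    ndB1q1 ndB7q2 pcB3 Cut.none Ext.none :=
  certB0 (fam := true) (s1 := true) (s2 := true) (a := 1) (b := 2) (c := 3) (cn := .npn) (n1 := ndB1q1) (n2 := ndB7q2) (pc := pcB3) (cut := Cut.none) (xt := Ext.none) (P1 := 536870912) (W1 := 536870912) (P2 := 1073741824) (W2 := 536870912) (P3 := 649613803) (W3 := 48318383) (N0 := 3) (En := eng) (mo := mog) (C1 := cd1q1) (C2 := cd7q2) (C3 := pd3)
    rfl k0_pp_123

noncomputable def f_pp_133 : ℕ → ℕ → ℕ → ℕ → Bool := onCell 536870912 536870912 0 1230186008 649613803 48318383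
    (rowB 3 eng mog cd1q1 cd7q3 pd3 0 true true true .dn 1 3 3 (qsf 536870912 536870912 0 1230186008 3) ndB1q1 ndB7q3 pcB3 Cut.none Ext.none)

def k0_pp_133 : ∃ t, chk3 f_pp_133 t 1 1 1 = true :=
  ⟨(l 4), by decide +kernel⟩

theorem c_pp_133 : CertB 536870912 536870912 0 1230186008 649613803 48318383 3 eng mog cd1q1 cd7q3 pd3 true true true .dn 1 3 3
    ndB1q1 ndB7q3 pcB3 Cut.none Ext.none :=
  certB0 (fam := true) (s1 := true) (s2 := true) (a := 1) (b := 3) (c := 3) (cn := .dn) (n1 := ndB1q1) (n2 := ndB7q3) (pc := pcB3) (cut := Cut.none) (xt := Ext.none) (P1 := 536870912) (W1 := 536870912) (P2 := 0) (W2 := 1230186008) (P3 := 649613803) (W3 := 48318383) (N0 := 3) (En := eng) (mo := mog) (C1 := cd1q1) (C2 := cd7q3) (C3 := pd3)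
    rfl k0_pp_133

noncomputable def f_pp_202_a : ℕ → ℕ → ℕ → ℕ → Bool := onCell 0 536870912 0 536870912 649613803 48318383
    (rowB 3 eng mog cd1q2a cd7q0 pd2 0 true true true .pp 2 0 2 (qsf 0 536870912 0 536870912 2) ndB1q2a ndB7q0 pcB2 Cut.none Ext.none)

def k0_pp_202_a : ∃ t, chk3 f_pp_202_a t 1 1 1 = true :=
  ⟨(l 4), by decide +kernel⟩

theorem c_pp_202_a : CertB 0 536870912 0 536870912 649613803 48318383 3 eng mog cd1q2a cd7q0 pd2 true true true .pp 2 0 2
    ndB1q2a ndB7q0 pcB2 Cut.none Ext.none :=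
  certB0 (fam := true) (s1 := true) (s2 := true) (a := 2) (b := 0) (c := 2) (cn := .pp) (n1 := ndB1q2a) (n2 := ndB7q0) (pc := pcB2) (cut := Cut.none) (xt := Ext.none) (P1 := 0) (W1 := 536870912) (P2 := 0) (W2 := 536870912) (P3 := 649613803) (W3 := 48318383) (N0 := 3) (En := eng) (mo := mog) (C1 := cd1q2a) (C2 := cd7q0) (C3 := pd2)
    rfl k0_pp_202_a

noncomputable def f_pp_202_b : ℕ → ℕ → ℕ → ℕ → Bool := onCell 1239849684 370763052 0 536870912 649613803 48318383
    (rowB 3 eng mog cd1q2b cd7q0 pd2 0 true true true .pp 2 0 2 (qsf 1239849684 370763052 0 536870912 2) ndB1q2b ndB7q0 pcB2 Cut.none Ext.none)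

def k0_pp_202_b : ∃ t, chk3 f_pp_202_b t 1 1 1 = true :=
  ⟨(l 4), by decide +kernel⟩

theorem c_pp_202_b : CertB 1239849684 370763052 0 536870912 649613803 48318383 3 eng mog cd1q2b cd7q0 pd2 true true true .pp 2 0 2
    ndB1q2b ndB7q0 pcB2 Cut.none Ext.none :=
  certB0 (fam := true) (s1 := true) (s2 := true) (a := 2) (b := 0) (c := 2) (cn := .pp) (n1 := ndB1q2b) (n2 := ndB7q0) (pc := pcB2) (cut := Cut.none) (xt := Ext.none) (P1 := 1239849684) (W1 := 370763052) (P2 := 0) (W2 := 536870912) (P3 := 649613803) (W3 := 48318383) (N0 := 3) (En := eng) (mo := mog) (C1 := cd1q2b) (C2 := cd7q0) (C3 := pd2)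
    rfl k0_pp_202_b

noncomputable def f_pp_203_a : ℕ → ℕ → ℕ → ℕ → Bool := onCell 0 536870912 0 536870912 649613803 48318383
    (rowB 3 eng mog cd1q2a cd7q0 pd3 0 true true true .up 2 0 3 (qsf 0 536870912 0 536870912 3) ndB1q2a ndB7q0 pcB3 Cut.none Ext.none)

def k0_pp_203_a : ∃ t, chk3 f_pp_203_a t 1 1 1 = true :=
  ⟨(l 4), by decide +kernel⟩

theorem c_pp_203_a : CertB 0 536870912 0 536870912 649613803 48318383 3 eng mog cd1q2a cd7q0 pd3 true true true .up 2 0 3
    ndB1q2a ndB7q0 pcB3 Cut.none Ext.none :=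
  certB0 (fam := true) (s1 := true) (s2 := true) (a := 2) (b := 0) (c := 3) (cn := .up) (n1 := ndB1q2a) (n2 := ndB7q0) (pc := pcB3) (cut := Cut.none) (xt := Ext.none) (P1 := 0) (W1 := 536870912) (P2 := 0) (W2 := 536870912) (P3 := 649613803) (W3 := 48318383) (N0 := 3) (En := eng) (mo := mog) (C1 := cd1q2a) (C2 := cd7q0) (C3 := pd3)
    rfl k0_pp_203_a

noncomputable def f_pp_203_b : ℕ → ℕ → ℕ → ℕ → Bool := onCell 1239849684 370763052 0 536870912 649613803 48318383
    (rowB 3 eng mog cd1q2b cd7q0 pd3 0 true true true .up 2 0 3 (qsf 1239849684 370763052 0 536870912 3) ndB1q2b ndB7q0 pcB3 Cut.none Ext.none)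

def k0_pp_203_b : ∃ t, chk3 f_pp_203_b t 1 1 1 = true :=
  ⟨(l 4), by decide +kernel⟩

theorem c_pp_203_b : CertB 1239849684 370763052 0 536870912 649613803 48318383 3 eng mog cd1q2b cd7q0 pd3 true true true .up 2 0 3
    ndB1q2b ndB7q0 pcB3 Cut.none Ext.none :=
  certB0 (fam := true) (s1 := true) (s2 := true) (a := 2) (b := 0) (c := 3) (cn := .up) (n1 := ndB1q2b) (n2 := ndB7q0) (pc := pcB3) (cut := Cut.none) (xt := Ext.none) (P1 := 1239849684) (W1 := 370763052) (P2 := 0) (W2 := 536870912) (P3 := 649613803) (W3 := 48318383) (N0 := 3) (En := eng) (mo := mog) (C1 := cd1q2b) (C2 := cd7q0) (C3 := pd3)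
    rfl k0_pp_203_b

noncomputable def f_pp_213_a : ℕ → ℕ → ℕ → ℕ → Bool := onCell 0 536870912 536870912 536870912 649613803 48318383
    (rowB 3 eng mog cd1q2a cd7q1 pd3 0 true true true .pnn 2 1 3 (qsf 0 536870912 536870912 536870912 3) ndB1q2a ndB7q1 pcB3 Cut.none Ext.none)

def k0_pp_213_a : ∃ t, chk3 f_pp_213_a t 1 1 1 = true :=
  ⟨(l 4), by decide +kernel⟩

theorem c_pp_213_a : CertB 0 536870912 536870912 536870912 649613803 48318383 3 eng mog cd1q2a cd7q1 pd3 true true true .pnn 2 1 3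
    ndB1q2a ndB7q1 pcB3 Cut.none Ext.none :=
  certB0 (fam := true) (s1 := true) (s2 := true) (a := 2) (b := 1) (c := 3) (cn := .pnn) (n1 := ndB1q2a) (n2 := ndB7q1) (pc := pcB3) (cut := Cut.none) (xt := Ext.none) (P1 := 0) (W1 := 536870912) (P2 := 536870912) (W2 := 536870912) (P3 := 649613803) (W3 := 48318383) (N0 := 3) (En := eng) (mo := mog) (C1 := cd1q2a) (C2 := cd7q1) (C3 := pd3)
    rfl k0_pp_213_a

noncomputable def f_pp_213_b : ℕ → ℕ → ℕ → ℕ → Bool := onCell 1239849684 370763052 536870912 536870912 649613803 48318383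
    (rowB 3 eng mog cd1q2b cd7q1 pd3 0 true true true .pnn 2 1 3 (qsf 1239849684 370763052 536870912 536870912 3) ndB1q2b ndB7q1 pcB3 Cut.none Ext.none)

def k0_pp_213_b : ∃ t, chk3 f_pp_213_b t 1 1 1 = true :=
  ⟨(l 4), by decide +kernel⟩

theorem c_pp_213_b : CertB 1239849684 370763052 536870912 536870912 649613803 48318383 3 eng mog cd1q2b cd7q1 pd3 true true true .pnn 2 1 3
    ndB1q2b ndB7q1 pcB3 Cut.none Ext.none :=
  certB0 (fam := true) (s1 := true) (s2 := true) (a := 2) (b := 1) (c := 3) (cn := .pnn) (n1 := ndB1q2b) (n2 := ndB7q1) (pc := pcB3) (cut := Cut.none) (xt := Ext.none) (P1 := 1239849684) (W1 := 370763052) (P2 := 536870912) (W2 := 536870912) (P3 := 649613803) (W3 := 48318383) (N0 := 3) (En := eng) (mo := mog) (C1 := cd1q2b) (C2 := cd7q1) (C3 := pd3)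
    rfl k0_pp_213_b

noncomputable def f_pp_303 : ℕ → ℕ → ℕ → ℕ → Bool := onCell 1610612736 536870912 0 536870912 649613803 48318383
    (rowB 3 eng mog cd1q3 cd7q0 pd3 0 true true true .npn 3 0 3 (qsf 1610612736 536870912 0 536870912 3) ndB1q3 ndB7q0 pcB3 Cut.none Ext.none)

def k0_pp_303 : ∃ t, chk3 f_pp_303 t 1 1 1 = true :=
  ⟨(l 4), by decide +kernel⟩

theorem c_pp_303 : CertB 1610612736 536870912 0 536870912 649613803 48318383 3 eng mog cd1q3 cd7q0 pd3 true true true .npn 3 0 3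
    ndB1q3 ndB7q0 pcB3 Cut.none Ext.none :=
  certB0 (fam := true) (s1 := true) (s2 := true) (a := 3) (b := 0) (c := 3) (cn := .npn) (n1 := ndB1q3) (n2 := ndB7q0) (pc := pcB3) (cut := Cut.none) (xt := Ext.none) (P1 := 1610612736) (W1 := 536870912) (P2 := 0) (W2 := 536870912) (P3 := 649613803) (W3 := 48318383) (N0 := 3) (En := eng) (mo := mog) (C1 := cd1q3) (C2 := cd7q0) (C3 := pd3)
    rfl k0_pp_303

noncomputable def f_pp_313 : ℕ → ℕ → ℕ → ℕ → Bool := onCell 1610612736 536870912 536870912 536870912 649613803 48318383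
    (rowB 3 eng mog cd1q3 cd7q1 pd3 0 true true true .dn 3 1 3 (qsf 1610612736 536870912 536870912 536870912 3) ndB1q3 ndB7q1 pcB3 Cut.none Ext.none)

def k0_pp_313 : ∃ t, chk3 f_pp_313 t 1 1 1 = true :=
  ⟨(l 4), by decide +kernel⟩

theorem c_pp_313 : CertB 1610612736 536870912 536870912 536870912 649613803 48318383 3 eng mog cd1q3 cd7q1 pd3 true true true .dn 3 1 3
    ndB1q3 ndB7q1 pcB3 Cut.none Ext.none :=
  certB0 (fam := true) (s1 := true) (s2 := true) (a := 3) (b := 1) (c := 3) (cn := .dn) (n1 := ndB1q3) (n2 := ndB7q1) (pc := pcB3) (cut := Cut.none) (xt := Ext.none) (P1 := 1610612736) (W1 := 536870912) (P2 := 536870912) (W2 := 536870912) (P3 := 649613803) (W3 := 48318383) (N0 := 3) (En := eng) (mo := mog) (C1 := cd1q3) (C2 := cd7q1) (C3 := pd3)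
    rfl k0_pp_313

noncomputable def f_pm_001 : ℕ → ℕ → ℕ → ℕ → Bool := onCell 0 536870912 536870912 536870912 649613803 48318383
    (rowB 3 eng mog cd1q0 cd7q0 pd1 1 true true false .up 0 0 1 (qsf 0 536870912 0 536870912 1) ndB1q0 ndB7q0 pcB1 Cut.none Ext.none)

def k0_pm_001 : ∃ t, chk3 f_pm_001 t 1 1 1 = true :=
  ⟨(b (l 3) (b (a (l 3) (a (l 3) (b (l 3) (a (l 3) (b (l 3) (a (l 16607808) (l 16580144))))))) (a (l 2) (b (a (b (b (l 3) (l 2)) (l 2)) (a (b (a (b (l 16545272) (l 16513432)) (b (l 16509624) (l 16472520))) (a (l 16556024) (l 16446088))) (b (a (l 16489136) (l 16463568)) (a (l 16388160) (l 16367160))))) (a (l 2) (a (b (a (l 2) (l 16414192)) (l 2)) (b (l 16388456) (l 16250928)))))))), by decide +kernel⟩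

theorem c_pm_001 : CertB 0 536870912 0 536870912 649613803 48318383 3 eng mog cd1q0 cd7q0 pd1 true true false .up 0 0 1
    ndB1q0 ndB7q0 pcB1 Cut.none Ext.none :=
  certB1 (fam := true) (s1 := true) (s2 := false) (a := 0) (b := 0) (c := 1) (cn := .up) (n1 := ndB1q0) (n2 := ndB7q0) (pc := pcB1) (cut := Cut.none) (xt := Ext.none) (P1 := 0) (W1 := 536870912) (P2 := 0) (W2 := 536870912) (P3 := 649613803) (W3 := 48318383) (N0 := 3) (En := eng) (mo := mog) (C1 := cd1q0) (C2 := cd7q0) (C3 := pd1)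
    rfl (fun _ => rfl) k0_pm_001

noncomputable def cut_pm_011 : Cut := Cut.of [[⟨0, 0, 0, 67108864⟩, ⟨1, 1, 0, 67108864⟩, ⟨2, 1, 0, 67108864⟩]]

noncomputable def f_pm_011 : ℕ → ℕ → ℕ → ℕ → Bool := onCell 0 536870912 536870912 536870912 649613803 48318383
    (rowB 3 eng mog cd1q0 cd7q1 pd1 1 true true false .pnn 0 1 1 (qsf 0 536870912 536870912 536870912 1) ndB1q0 ndB7q1 pcB1 cut_pm_011 Ext.none)

def k0_pm_011 : ∃ t, chk3 f_pm_011 t 1 1 1 = true :=
  ⟨(b (l 3) (b (a (l 3) (a (l 3) (a (l 3) (l 1)))) (a (b (a (l 3) (b (l 3) (a (l 3) (a (l 3) (b (l 3) (l 16688048)))))) (a (b (a (l 3) (l 3)) (a (b (l 3) (a (l 6) (b (a (b (l 3) (l 6)) (b (a (l 606294946103) (l 16740440)) (l 16741864))) (a (l 6) (b (l 16728504) (l 16720376)))))) (b (a (b (l 3) (a (a (l 599315598679) (l 248738873719)) (a (l 16736776) (l 16717336)))) (a (b (b (l 3) (l 16716472)) (l 16724992)) (b (l 16702936) (l 16686464)))) (a (b (a (l 16733576) (b (l 16709512) (l 16701400))) (a (l 16706864)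 (l 16689224))) (b (l 16694712) (l 16683712)))))) (b (a (b (a (l 3) (a (l 3) (l 16707544))) (a (a (b (l 3) (l 16703144)) (l 16714016)) (l 16706248))) (a (b (l 16698032) (l 16624552)) (b (l 16635760) (l 16584816)))) (a (a (b (a (l 16699664) (l 16660920)) (l 16678024)) (b (l 16652672) (l 16619848))) (a (a (l 16628872) (l 16589040)) (l 16595640)))))) (b (a (b (a (l 3) (a (l 3) (b (l 3) (l 16529824)))) (a (a (b (l 3) (l 16623808)) (a (l 16626368) (l 16603744))) (a (l 16590752) (l 16523264)))) (b (a (b (a (l 16527192) (l 1)) (l 40835233175)) (l 1)) (a (c (l 40835210103) (l 16504240)) (b (l 1) (l 16360080))))) (a (b (a (b (a (l 16573752) (l 16532552)) (l 16577544)) (a (l 16498712) (l 16435528))) (a (b (l 16517800) (a (l 16487176) (l 16450080))) (b (l 16419792) (a (l 16413560) (l 16376448))))) (b (a (b (l 16396328) (l 16354032)) (l 16391056)) (a (l 16346664) (l 16223088)))))))), by decide +kernel⟩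

theorem c_pm_011 : CertB 0 536870912 536870912 536870912 649613803 48318383 3 eng mog cd1q0 cd7q1 pd1 true true false .pnn 0 1 1
    ndB1q0 ndB7q1 pcB1 cut_pm_011 Ext.none :=
  certB1 (fam := true) (s1 := true) (s2 := false) (a := 0) (b := 1) (c := 1) (cn := .pnn) (n1 := ndB1q0) (n2 := ndB7q1) (pc := pcB1) (cut := cut_pm_011) (xt := Ext.none) (P1 := 0) (W1 := 536870912) (P2 := 536870912) (W2 := 536870912) (P3 := 649613803) (W3 := 48318383) (N0 := 3) (En := eng) (mo := mog) (C1 := cd1q0) (C2 := cd7q1) (C3 := pd1)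
    rfl (fun _ => rfl) k0_pm_011

noncomputable def cut_pm_012 : Cut := Cut.of [[⟨0, 0, 0, 67108864⟩, ⟨1, 1, 0, 67108864⟩, ⟨2, 1, 0, 67108864⟩]]

noncomputable def xt_pm_012 : Ext := extD2 3 ⟨7, 3, 3, 10, 377, 200, 77, 100, 17, 50, 3, 16⟩ eng cd1q0 cd7q1 pd2 true true false .pnp 0 1 2 rfl ndB1q0 ndB7q1 pcB2

noncomputable def f_pm_012 : ℕ → ℕ → ℕ → ℕ → Bool := onCell 1073741824 536870912 536870912 536870912 649613803 48318383
    (rowB 3 eng mog cd1q0 cd7q1 pd2 2 true true false .pnp 0 1 2 (qsf 0 536870912 536870912 536870912 2) ndB1q0 ndB7q1 pcB2 cut_pm_012 xt_pm_012)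

def k0_pm_012 : ∃ t, chk3 f_pm_012 t 8 1 1 = true :=
  ⟨(b (b (b (l 16221256) (a (l 16252080) (l 16193488))) (b (a (b (l 16317440) (l 16376416)) (l 16420224)) (a (c (l 591993199043896908256319) (l 590563428932781769564287)) (b (l 16322440) (l 16352904))))) (b (b (a (b (l 16462728) (l 16550448)) (b (l 16382688) (l 16453976))) (b (a (a (l 16556720) (l 16509312)) (a (l 16463448) (l 16419008))) (a (a (l 16596264) (l 16587456)) (a (l 16496424) (l 16449080))))) (a (b (a (b (a (l 16663880) (l 16623136)) (a (l 16696928) (l 16657216))) (b (l 16604336) (c (l 16639248) (l 16638040)))) (a (b (b (a (l 16716048) (l 16680632)) (a (l 6) (l 16706256))) (l 6)) (b (b (a (l 16653304) (l 16626288)) (a (b (l 16664200) (l 16671344)) (l 16640120))) (b (a (l 6) (b (l 16650240) (l 6))) (l 6))))) (b (b (a (l 16552032) (l 16480312)) (a (a (l 16620296) (l 16572920)) (b (l 16504336) (l 16520200)))) (b (a (b (l 16586320) (a (l 16612768) (l 16585720))) (b (l 16534056) (l 16545784)))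 (a (b (b (l 16629528) (l 16640880)) (b (a (l 6) (l 16606624)) (l 6))) (b (b (l 16554168) (l 16559616)) (b (l 16564944) (a (l 16584144) (l 16556280)))))))))), by decide +kernel⟩

def k1_pm_012 : ∃ t, chk3 f_pm_012 t 9 1 1 = true :=
  ⟨(b (b (b (l 16032968) (a (l 16174912) (l 16090608))) (b (a (l 16211408) (l 16149688)) (a (l 16354144) (l 16206440)))) (b (b (a (b (l 16308168) (l 16331872)) (b (l 16239480) (l 16258384))) (a (b (l 16376104) (l 16444184)) (b (l 16276168) (l 16317880)))) (b (a (b (a (l 16431496) (l 16384616)) (a (l 16460016) (l 16409640))) (b (a (l 16339696) (l 16296624)) (a (l 16361360) (l 16315192)))) (a (b (a (b (l 16481448) (l 16493568)) (b (l 16428680) (l 16441072))) (b (a (l 16503512) (l 16451368)) (a (b (l 16510536) (l 16515048)) (l 16480416)))) (b (a (l 16383024) (l 16333128)) (b (a (l 16398952) (l 16346440)) (a (l 16428256) (a (l 16368304) (l 16341880))))))))), by decide +kernel⟩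

def k2_pm_012 : ∃ t, chk3 f_pm_012 t 5 1 1 = true :=
  ⟨(b (a (b (a (a (b (l 2) (l 16019440)) (l 2)) (l 2)) (a (a (b (l 16103328) (l 16160728)) (b (a (l 16080368) (l 16068744)) (a (l 16138792) (l 16149312)))) (b (l 16036544) (l 16096112)))) (b (l 2) (b (l 16037120) (l 16074248)))) (b (a (a (a (b (l 16200008) (l 16335312)) (b (a (l 16177176) (a (l 16166592) (l 16161848))) (a (l 16204456) (a (l 16192304) (a (l 16186832) (l 16183872)))))) (b (l 16173592) (b (l 16146128) (l 16156024)))) (b (l 16088608) (b (l 16087248) (l 16086176)))) (a (a (a (b (b (l 16255560) (l 16271184)) (b (l 16306408) (b (l 16295624) (l 16302256)))) (b (a (b (l 16226272) (l 16239640)) (a (l 16260488) (b (l 16204232) (a (l 16217048) (l 16212328))))) (a (b (l 16251136) (b (l 16258928) (l 16263824))) (b (a (l 16234408) (a (l 16226080) (l 16220464))) (a (l 16242864) (a (l 16233376) (b (l 16225240) (l 16227920)))))))) (b (b (l 16164776) (a (l 16190272) (l 16153768))) (b (a (l 16196872)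 (l 16156624)) (a (b (l 16200168) (l 16201760)) (l 16156800))))) (b (b (l 16145968) (a (l 16105568) (l 16052368))) (b (a (l 16101736) (l 16040032)) (a (b (l 16097336) (l 16093536)) (b (l 16029120) (l 16021080)))))))), by decide +kernel⟩

def k3_pm_012 : ∃ t, chk3 f_pm_012 t 3 1 1 = true :=
  ⟨(b (a (b (l 2) (a (b (l 2) (l 16075520)) (l 2))) (l 2)) (a (b (a (b (l 16063888) (l 16058384)) (b (l 16077536) (l 16029008))) (a (b (b (l 16014800) (l 16079328)) (b (a (l 15991632) (l 15956336)) (a (b (l 15974624) (l 15962376)) (l 15926032)))) (b (a (l 15978536) (l 15976848)) (a (b (l 15933304) (a (l 15903192) (l 15892288))) (b (l 15923776) (l 15882528)))))) (b (a (b (l 2) (l 16071456)) (l 2)) (a (b (l 16124744) (a (b (l 15925936) (l 15879952)) (l 15914904))) (b (a (l 16046720) (l 2)) (b (l 15990104) (l 15930160))))))), by decide +kernel⟩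

theorem s4_pm_012 : ∃ t, chk3 f_pm_012 t 4 1 1 = true := ex3_a k0_pm_012 k1_pm_012

theorem s5_pm_012 : ∃ t, chk3 f_pm_012 t 2 1 1 = true := ex3_a s4_pm_012 k2_pm_012

theorem s6_pm_012 : ∃ t, chk3 f_pm_012 t 1 1 1 = true := ex3_a s5_pm_012 k3_pm_012

theorem c_pm_012 : CertB 0 536870912 536870912 536870912 649613803 48318383 3 eng mog cd1q0 cd7q1 pd2 true true false .pnp 0 1 2
    ndB1q0 ndB7q1 pcB2 cut_pm_012 xt_pm_012 :=
  certB2 (fam := true) (s1 := true) (s2 := false) (a := 0) (b := 1) (c := 2) (cn := .pnp) (n1 := ndB1q0) (n2 := ndB7q1) (pc := pcB2) (cut := cut_pm_012) (xt := xt_pm_012) (P1 := 0) (W1 := 536870912) (P2 := 536870912) (W2 := 536870912) (P3 := 649613803) (W3 := 48318383) (N0 := 3) (En := eng) (mo := mog) (C1 := cd1q0) (C2 := cd7q1) (C3 := pd2)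
    rfl (fun _ => rfl) s6_pm_012

noncomputable def f_pm_022 : ℕ → ℕ → ℕ → ℕ → Bool := onCell 1073741824 536870912 1073741824 536870912 649613803 48318383
    (rowB 3 eng mog cd1q0 cd7q2 pd2 2 true true false .pp 0 2 2 (qsf 0 536870912 1073741824 536870912 2) ndB1q0 ndB7q2 pcB2 Cut.none Ext.none)

def k0_pm_022 : ∃ t, chk3 f_pm_022 t 2 4 1 = true :=
  ⟨(a (a (l 3) (a (l 3) (a (l 3) (b (a (l 3) (a (b (l 16484312) (l 3)) (b (b (l 16468576) (l 16476960)) (l 16487784)))) (l 3))))) (b (b (a (a (a (a (a (b (l 16456640) (l 16465272)) (b (l 16445408) (l 16454296))) (b (l 16429232) (l 16439288))) (a (a (l 16460240) (l 16407480)) (a (l 16395744) (a (l 16385760) (a (a (a (l 16381304) (a (l 16380152) (l 16379096))) (l 16378032)) (l 16376056)))))) (b (l 16328416) (l 16340000))) (a (b (l 16258512) (l 16268952)) (b (l 16202608) (l 16211336)))) (a (a (a (a (a (l 16476528) (a (l 16468000) (l 16462592))) (l 16450400)) (a (a (l 16435496) (l 16425584)) (a (l 16414616)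 (a (l 16405112) (a (a (a (l 16400808) (l 16399000)) (l 16397592)) (l 16395696)))))) (a (l 16374320) (l 16335976))) (a (l 16283264) (l 16223672)))) (a (a (a (a (a (b (l 16489256) (l 3)) (b (a (l 16481168) (l 16475512)) (a (l 16491832) (l 16486400)))) (a (b (b (l 16464872) (l 16470656)) (a (l 16481016) (l 16475808))) (b (l 16458128) (b (l 16466064) (l 16470632))))) (a (a (b (l 16448496) (l 16459024)) (b (l 16439096) (l 16449976))) (a (a (l 16458384) (l 16431784)) (a (b (l 16419112) (l 16430776)) (a (a (a (l 16421024) (b (l 16413048) (l 16424800))) (l 16417832)) (l 16415968)))))) (b (l 16390744) (l 16381736))) (a (b (l 16319568) (l 16310440)) (b (l 16237520) (l 16247872)))))), by decide +kernel⟩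

def k1_pm_022 : ∃ t, chk3 f_pm_022 t 2 5 1 = true :=
  ⟨(a (a (l 1) (b (l 3) (l 1))) (b (b (a (a (a (a (a (l 3) (b (l 16495432) (l 1))) (a (b (l 16484904) (l 1)) (a (l 16479016) (l 16474040)))) (a (a (b (l 16465312) (l 16468752)) (l 16458336)) (a (a (l 16451408) (l 16446320)) (a (c (l 16441280) (l 16439496)) (a (a (a (l 16435880) (l 17212833255)) (l 16432760)) (l 16430920)))))) (l 16433384)) (a (l 16320296) (l 16256328))) (a (a (a (l 1) (a (l 1) (a (l 1) (a (l 1) (a (l 1) (b (l 16436432) (l 1))))))) (b (l 16460120) (c (a (l 16424168) (l 16388520)) (l 16425080)))) (a (b (l 16326304) (l 16334552)) (b (l 16262192) (l 16270944))))) (a (a (l 1) (b (l 405906927431) (l 1))) (a (b (c (l 16409496) (l 16345384)) (l 426845226551)) (b (b (l 16280208) (l 16285624)) (l 183642748535)))))), by decide +kernel⟩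

def k2_pm_022 : ∃ t, chk3 f_pm_022 t 2 3 1 = true :=
  ⟨(a (l 1) (b (a (l 1) (b (b (l 545493418007) (l 1)) (l 1))) (l 1))), by decide +kernel⟩

def k3_pm_022 : ∃ t, chk3 f_pm_022 t 3 1 1 = true :=
  ⟨(b (a (b (a (b (a (b (a (l 16173528) (l 16155488)) (a (l 16187224) (l 16167152))) (b (l 16133096) (l 16163616))) (a (b (l 16187952) (l 16196272)) (b (l 16150304) (l 16156312)))) (b (b (a (l 16111376) (l 16099032)) (a (l 16118056) (l 16102296))) (b (a (l 16122344) (l 16103816)) (l 16113216)))) (b (a (b (a (l 16264544) (l 16159232)) (a (b (l 16205016) (l 16213920)) (l 16288696))) (b (l 16112544) (b (l 16110440) (l 16115008)))) (a (b (a (a (l 16240880) (l 16214504)) (l 16177944)) (a (l 16274000) (l 16183608))) (b (l 16144560) (a (l 16140152) (l 16107208)))))) (b (b (a (a (l 16136608) (l 16094512)) (l 16148200)) (a (a (l 16092280) (l 16088616)) (b (l 16097040) (l 16090784)))) (b (a (b (l 16080352) (l 16076120)) (b (l 16080856) (l 16073064))) (a (b (l 16085280)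 (l 16083240)) (l 16082072))))) (a (b (b (b (a (a (l 220149701735) (l 16173472)) (l 16111544)) (a (a (l 504691060423) (l 361346411687)) (l 16164544))) (a (b (a (l 1) (l 319470483735)) (l 1)) (b (a (l 249677243655) (l 16040232)) (l 286184378535)))) (a (l 1) (b (l 440803258391) (l 1)))) (b (b (a (b (l 16064648) (l 16029928)) (b (l 16063552) (l 16028488))) (a (b (l 16025856) (l 16066816)) (l 16179376))) (b (a (l 250750939575) (l 16040312)) (a (l 444561215031) (l 415033597175)))))), by decide +kernel⟩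

theorem s4_pm_022 : ∃ t, chk3 f_pm_022 t 2 2 1 = true := ex3_b k0_pm_022 k1_pm_022

theorem s5_pm_022 : ∃ t, chk3 f_pm_022 t 2 1 1 = true := ex3_b s4_pm_022 k2_pm_022

theorem s6_pm_022 : ∃ t, chk3 f_pm_022 t 1 1 1 = true := ex3_a s5_pm_022 k3_pm_022

theorem c_pm_022 : CertB 0 536870912 1073741824 536870912 649613803 48318383 3 eng mog cd1q0 cd7q2 pd2 true true false .pp 0 2 2
    ndB1q0 ndB7q2 pcB2 Cut.none Ext.none :=
  certB2 (fam := true) (s1 := true) (s2 := false) (a := 0) (b := 2) (c := 2) (cn := .pp) (n1 := ndB1q0) (n2 := ndB7q2) (pc := pcB2) (cut := Cut.none) (xt := Ext.none) (P1 := 0) (W1 := 536870912) (P2 := 1073741824) (W2 := 536870912) (P3 := 649613803) (W3 := 48318383) (N0 := 3) (En := eng) (mo := mog) (C1 := cd1q0) (C2 := cd7q2) (C3 := pd2)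
    rfl (fun _ => rfl) s6_pm_022

noncomputable def f_pm_023 : ℕ → ℕ → ℕ → ℕ → Bool := onCell 0 536870912 1073741824 536870912 649613803 48318383
    (rowB 3 eng mog cd1q0 cd7q2 pd3 0 true true false .up 0 2 3 (qsf 0 536870912 1073741824 536870912 3) ndB1q0 ndB7q2 pcB3 Cut.none Ext.none)

def k0_pm_023 : ∃ t, chk3 f_pm_023 t 1 1 1 = true :=
  ⟨(a (b (b (l 1) (a (l 1) (b (l 1) (a (l 1) (l 322691858071))))) (b (a (b (l 1) (l 307122402343)) (b (l 182031539415) (l 261488507335))) (a (a (l 368326072647) (l 274373668679)) (b (l 16022656) (l 16134880))))) (b (b (a (b (l 1) (a (l 1) (l 205117355719))) (b (a (l 138008290055) (l 16095528)) (a (l 16088584) (l 16112936)))) (a (b (a (l 252361927255) (l 173441960663)) (a (l 16078064) (l 16108224))) (a (b (l 16097712) (b (l 16131544) (l 16158352))) (b (b (l 16127128) (l 16139560)) (l 16288512))))) (b (a (b (l 16295200) (l 16097376)) (b (a (l 16189304) (l 16293320)) (a (l 16316864) (l 16409632)))) (a (b (l 16259784)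 (l 16416136)) (a (l 16507768) (b (l 16521192) (a (l 16594936) (b (l 16597976) (a (l 16627664) (b (l 16628816) (a (l 16642024) (b (l 16642544) (b (l 16648040) (l 16651560)))))))))))))), by decide +kernel⟩

theorem c_pm_023 : CertB 0 536870912 1073741824 536870912 649613803 48318383 3 eng mog cd1q0 cd7q2 pd3 true true false .up 0 2 3
    ndB1q0 ndB7q2 pcB3 Cut.none Ext.none :=
  certB0 (fam := true) (s1 := true) (s2 := false) (a := 0) (b := 2) (c := 3) (cn := .up) (n1 := ndB1q0) (n2 := ndB7q2) (pc := pcB3) (cut := Cut.none) (xt := Ext.none) (P1 := 0) (W1 := 536870912) (P2 := 1073741824) (W2 := 536870912) (P3 := 649613803) (W3 := 48318383) (N0 := 3) (En := eng) (mo := mog) (C1 := cd1q0) (C2 := cd7q2) (C3 := pd3)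
    rfl k0_pm_023

noncomputable def f_pm_033 : ℕ → ℕ → ℕ → ℕ → Bool := onCell 1610612736 536870912 0 1230186008 649613803 48318383
    (rowB 3 eng mog cd1q0 cd7q3 pd3 2 true true false .pnn 0 3 3 (qsf 0 536870912 0 1230186008 3) ndB1q0 ndB7q3 pcB3 Cut.none Ext.none)

def k0_pm_033 : ∃ t, chk3 f_pm_033 t 1 1 1 = true :=
  ⟨(a (b (l 1) (b (b (l 1) (a (l 1) (a (l 1) (b (l 1) (a (l 1) (l 418792019111)))))) (b (a (l 1) (a (b (a (l 1) (l 451004427911)) (l 380673811255)) (b (a (l 433287496167) (l 16209840)) (l 16184472)))) (b (a (l 449393073511) (a (l 16126944) (l 16222328))) (a (l 332892642087) (l 16202344)))))) (a (b (l 1) (b (b (a (l 1) (a (b (l 1) (l 16319320)) (b (l 16360416) (l 16349672)))) (a (b (a (l 449393854231) (l 16277880)) (a (l 16245056) (l 16278744))) (b (a (l 16313920) (l 16358656)) (a (l 16312416) (l 16357408))))) (b (a (b (a (l 16238552) (l 16278096)) (a (l 16251992) (l 16299168))) (b (a (l 16320928) (l 16373784)) (l 16379984))) (a (b (l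 16322952) (l 16380424)) (b (l 16428136) (l 16485672)))))) (b (b (l 4) (a (a (l 16353448) (l 16369664)) (l 4))) (a (b (b (a (l 16389808) (l 16411304)) (a (b (l 16393824) (l 16412256)) (b (l 16440360) (l 16460272)))) (b (b (l 16661488) (l 16489808)) (l 16567360))) (a (b (b (l 16434448) (l 16509464)) (b (b (l 16530088) (l 16557464)) (l 16597552))) (b (a (l 96871559623) (l 4)) (a (b (l 16574088) (b (l 16612056) (l 16628808))) (b (a (l 16584680) (a (l 16586456) (l 4))) (a (l 16396176) (a (l 16547864) (l 16634248))))))))))), by decide +kernel⟩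

theorem c_pm_033 : CertB 0 536870912 0 1230186008 649613803 48318383 3 eng mog cd1q0 cd7q3 pd3 true true false .pnn 0 3 3
    ndB1q0 ndB7q3 pcB3 Cut.none Ext.none :=
  certB2 (fam := true) (s1 := true) (s2 := false) (a := 0) (b := 3) (c := 3) (cn := .pnn) (n1 := ndB1q0) (n2 := ndB7q3) (pc := pcB3) (cut := Cut.none) (xt := Ext.none) (P1 := 0) (W1 := 536870912) (P2 := 0) (W2 := 1230186008) (P3 := 649613803) (W3 := 48318383) (N0 := 3) (En := eng) (mo := mog) (C1 := cd1q0) (C2 := cd7q3) (C3 := pd3)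
    rfl (fun _ => rfl) k0_pm_033

noncomputable def f_pm_101 : ℕ → ℕ → ℕ → ℕ → Bool := onCell 536870912 536870912 0 536870912 649613803 48318383
    (rowB 3 eng mog cd1q1 cd7q0 pd1 2 true true false .npn 1 0 1 (qsf 536870912 536870912 0 536870912 1) ndB1q1 ndB7q0 pcB1 Cut.none Ext.none)

def k0_pm_101 : ∃ t, chk3 f_pm_101 t 1 1 1 = true :=
  ⟨(b (a (l 3) (a (a (b (a (b (a (l 3) (b (l 62981963863) (l 81772447463))) (l 3)) (b (a (b (l 16767328) (l 16794712)) (b (l 16722072) (l 16729024))) (a (b (l 62445036695) (b (l 16847584) (l 110226522423))) (b (l 16735592) (c (l 16735000) (l 83919616487)))))) (a (l 3) (b (a (l 3) (b (l 16743808) (l 16714960))) (l 3)))) (b (b (a (a (b (l 16677440) (l 16686600)) (l 16660584)) (b (l 16572440) (l 16587840))) (a (b (a (l 16693224) (l 16654056)) (a (l 16699688) (l 16659904))) (b (l 16598552) (l 16605152)))) (a (b (a (b (l 16691992) (l 16676032)) (l 16665704)) (b (l 16640392) (l 77476955831))) (b (a (l 16607488) (l 16571432))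 (a (l 16575448) (l 16538376)))))) (b (a (b (a (b (l 16499720) (l 16514088)) (b (l 16433584) (l 16443904))) (a (b (l 16526704) (l 16535016)) (b (l 16454360) (l 16464536)))) (b (a (b (l 16380992) (l 16376928)) (b (l 16314352) (l 16305216))) (a (b (l 16381488) (l 16387664)) (b (l 16305328) (l 16303544))))) (a (b (a (l 16518264) (l 16449040)) (a (b (l 16491784) (l 16473152)) (l 16406152))) (b (a (l 16456512) (l 16284720)) (a (l 16327048) (l 16237984))))))) (a (l 3) (a (a (l 3) (b (a (b (a (l 3) (l 16590920)) (l 3)) (b (b (l 16533088) (l 16521072)) (a (l 95059379191) (l 16500400)))) (b (a (l 1) (a (l 1) (l 167000011383))) (l 1)))) (b (a (a (b (b (l 16453072) (l 16434928)) (a (l 16433224) (l 16386464))) (b (l 16359264) (a (l 16337432) (l 16287552)))) (b (a (l 16270680) (l 16174088)) (a (l 16211040) (l 16103512)))) (a (a (b (b (l 16483216) (l 196527754359)) (l 1)) (b (b (l 16319128) (l 16318368)) (l 216391813943))) (b (a (l 16230928) (l 16118136)) (a (b (l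 16233312) (l 16283320)) (l 16174368)))))))), by decide +kernel⟩

theorem c_pm_101 : CertB 536870912 536870912 0 536870912 649613803 48318383 3 eng mog cd1q1 cd7q0 pd1 true true false .npn 1 0 1
    ndB1q1 ndB7q0 pcB1 Cut.none Ext.none :=
  certB2 (fam := true) (s1 := true) (s2 := false) (a := 1) (b := 0) (c := 1) (cn := .npn) (n1 := ndB1q1) (n2 := ndB7q0) (pc := pcB1) (cut := Cut.none) (xt := Ext.none) (P1 := 536870912) (W1 := 536870912) (P2 := 0) (W2 := 536870912) (P3 := 649613803) (W3 := 48318383) (N0 := 3) (En := eng) (mo := mog) (C1 := cd1q1) (C2 := cd7q0) (C3 := pd1)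
    rfl (fun _ => rfl) k0_pm_101

noncomputable def f_pm_102 : ℕ → ℕ → ℕ → ℕ → Bool := onCell 536870912 536870912 1073741824 536870912 649613803 48318383
    (rowB 3 eng mog cd1q1 cd7q0 pd2 1 true true false .npp 1 0 2 (qsf 536870912 536870912 0 536870912 2) ndB1q1 ndB7q0 pcB2 Cut.none Ext.none)

def k0_pm_102 : ∃ t, chk3 f_pm_102 t 1 1 1 = true :=
  ⟨(b (a (b (a (b (a (l 16213984) (a (l 15991800) (l 15932176))) (a (l 16069064) (l 15976176))) (b (a (b (l 15991168) (l 15930112)) (b (l 16077792) (l 16044408))) (a (b (l 15898520) (l 15906176)) (b (l 16015904) (l 15982656))))) (a (b (b (b (l 16072600) (l 2)) (l 2)) (l 2)) (b (b (a (b (l 15900096) (a (l 16008968) (l 15884800))) (l 15956592)) (b (l 139685794487) (l 15938392))) (a (l 16043968) (l 16044944))))) (b (a (b (a (b (l 16150232) (l 16114112)) (b (l 16199944) (l 16162616))) (a (l 16060960) (l 16174304))) (b (a (b (a (l 16231112) (l 16246752)) (a (l 16198320) (l 16224592))) (b (a (b (l 16269176) (l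 16257224)) (c (l 16329872) (l 16244984))) (a (l 16252008) (b (l 16282072) (l 16277536))))) (a (b (l 16194016) (l 16183264)) (b (a (l 16249912) (l 16272512)) (a (l 16244128) (l 16272984)))))) (a (b (b (a (l 16061424) (l 16117912)) (a (l 16052632) (l 16123064))) (a (l 16120616) (l 16208416))) (b (a (b (l 16175664) (l 16181856)) (b (a (l 16236136) (l 16284232)) (b (l 16260632) (l 16284144)))) (a (l 16285576) (l 16380000)))))) (a (b (a (l 2) (b (l 16243640) (l 2))) (l 2)) (b (a (b (l 16390112) (l 16578952)) (b (a (l 16429376) (l 16504232)) (a (l 16540432) (l 16615552)))) (a (b (l 16543120) (l 2)) (a (l 16722464) (b (l 16737488) (l 16819616))))))), by decide +kernel⟩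

theorem c_pm_102 : CertB 536870912 536870912 0 536870912 649613803 48318383 3 eng mog cd1q1 cd7q0 pd2 true true false .npp 1 0 2
    ndB1q1 ndB7q0 pcB2 Cut.none Ext.none :=
  certB1 (fam := true) (s1 := true) (s2 := false) (a := 1) (b := 0) (c := 2) (cn := .npp) (n1 := ndB1q1) (n2 := ndB7q0) (pc := pcB2) (cut := Cut.none) (xt := Ext.none) (P1 := 536870912) (W1 := 536870912) (P2 := 0) (W2 := 536870912) (P3 := 649613803) (W3 := 48318383) (N0 := 3) (En := eng) (mo := mog) (C1 := cd1q1) (C2 := cd7q0) (C3 := pd2)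
    rfl (fun _ => rfl) k0_pm_102

noncomputable def f_pm_112 : ℕ → ℕ → ℕ → ℕ → Bool := onCell 536870912 536870912 1073741824 536870912 649613803 48318383
    (rowB 3 eng mog cd1q1 cd7q1 pd2 1 true true false .dn 1 1 2 (qsf 536870912 536870912 536870912 536870912 2) ndB1q1 ndB7q1 pcB2 Cut.none Ext.none)

def k0_pm_112 : ∃ t, chk3 f_pm_112 t 1 1 1 = true :=
  ⟨(b (b (a (a (b (a (l 16128784) (l 16026760)) (a (b (l 16081368) (l 16067408)) (b (l 15990392) (l 15983048)))) (b (l 1) (a (l 170757076119) (l 1)))) (l 1)) (a (b (a (b (b (l 16158384) (b (l 16109272) (a (l 16041808) (l 15963512)))) (a (l 16035744) (l 16111688))) (b (b (l 15935040) (a (a (l 16080176) (l 15889768)) (l 1))) (b (l 15960152) (l 15909152)))) (a (a (l 16073928) (l 16046656)) (a (l 16031216) (l 16039952)))) (a (b (l 1) (l 16153416)) (l 1)))) (a (b (a (b (a (l 16084744) (l 16104464)) (a (l 16069424) (l 16126936))) (b (l 16150424) (l 16219512))) (a (b (a (l 16055016) (l 16141992)) (a (l 16107888)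 (l 16156328))) (b (l 16274240) (l 16324048)))) (b (a (b (l 16278336) (l 16388632)) (b (l 1) (l 16577448))) (a (b (l 16488168) (l 16573392)) (a (l 16694176) (l 16664784)))))), by decide +kernel⟩

theorem c_pm_112 : CertB 536870912 536870912 536870912 536870912 649613803 48318383 3 eng mog cd1q1 cd7q1 pd2 true true false .dn 1 1 2
    ndB1q1 ndB7q1 pcB2 Cut.none Ext.none :=
  certB1 (fam := true) (s1 := true) (s2 := false) (a := 1) (b := 1) (c := 2) (cn := .dn) (n1 := ndB1q1) (n2 := ndB7q1) (pc := pcB2) (cut := Cut.none) (xt := Ext.none) (P1 := 536870912) (W1 := 536870912) (P2 := 536870912) (W2 := 536870912) (P3 := 649613803) (W3 := 48318383) (N0 := 3) (En := eng) (mo := mog) (C1 := cd1q1) (C2 := cd7q1) (C3 := pd2)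
    rfl (fun _ => rfl) k0_pm_112

noncomputable def f_pm_113 : ℕ → ℕ → ℕ → ℕ → Bool := onCell 1610612736 536870912 536870912 536870912 649613803 48318383
    (rowB 3 eng mog cd1q1 cd7q1 pd3 2 true true false .nn 1 1 3 (qsf 536870912 536870912 536870912 536870912 3) ndB1q1 ndB7q1 pcB3 Cut.none Ext.none)

def k0_pm_113 : ∃ t, chk3 f_pm_113 t 1 1 1 = true :=
  ⟨(a (a (b (a (b (a (l 16752960) (l 16775768)) (b (l 16612472) (l 16517600))) (b (l 16551088) (a (l 16603456) (l 16635032)))) (a (b (b (l 16404432) (l 16271864)) (b (l 16119136) (l 15984064))) (b (b (l 16459152) (l 16353344)) (a (l 16116024) (l 16183280))))) (b (b (a (b (l 2) (l 16700936)) (l 2)) (a (l 16652752) (l 16609384))) (a (b (b (l 16534944) (l 16425248)) (a (a (l 16223864) (l 16248936)) (b (l 16336592) (l 16222016)))) (b (l 16532792) (a (l 16332088) (l 16373984)))))) (a (b (l 4) (b (a (l 16537664) (l 4)) (a (a (l 16411344) (l 16440944)) (a (l 16452376) (l 4))))) (b (l 2) (b (l 4) (l 4))))),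 by decide +kernel⟩

theorem c_pm_113 : CertB 536870912 536870912 536870912 536870912 649613803 48318383 3 eng mog cd1q1 cd7q1 pd3 true true false .nn 1 1 3
    ndB1q1 ndB7q1 pcB3 Cut.none Ext.none :=
  certB2 (fam := true) (s1 := true) (s2 := false) (a := 1) (b := 1) (c := 3) (cn := .nn) (n1 := ndB1q1) (n2 := ndB7q1) (pc := pcB3) (cut := Cut.none) (xt := Ext.none) (P1 := 536870912) (W1 := 536870912) (P2 := 536870912) (W2 := 536870912) (P3 := 649613803) (W3 := 48318383) (N0 := 3) (En := eng) (mo := mog) (C1 := cd1q1) (C2 := cd7q1) (C3 := pd3)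
    rfl (fun _ => rfl) k0_pm_113

noncomputable def f_pm_123 : ℕ → ℕ → ℕ → ℕ → Bool := onCell 1610612736 536870912 1073741824 536870912 649613803 48318383
    (rowB 3 eng mog cd1q1 cd7q2 pd3 2 true true false .npn 1 2 3 (qsf 536870912 536870912 1073741824 536870912 3) ndB1q1 ndB7q2 pcB3 Cut.none Ext.none)

def k0_pm_123 : ∃ t, chk3 f_pm_123 t 1 1 1 = true :=
  ⟨(b (b (a (a (a (b (l 16143744) (l 16143144)) (b (c (l 16336064) (l 16184904)) (l 16298256))) (a (a (b (a (l 16302608) (l 16332360)) (l 16235304)) (b (a (l 16357176) (l 16374520)) (l 16281824))) (b (a (l 16391408) (l 16415952)) (l 16320624)))) (a (a (b (a (l 16438872) (l 16536936)) (a (l 16362200) (l 16388872))) (a (b (c (l 16539312) (l 16665440)) (a (l 16410408) (l 16427736))) (b (a (l 16527352) (l 16546920)) (l 16452336)))) (a (a (b (l 16556160) (l 16537808)) (b (l 16561936) (l 16500808))) (a (a (l 16527504) (l 4)) (l 4))))) (a (a (a (l 1) (b (l 16166768) (l 1))) (a (b (a (l 16191840) (l 16216736))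 (l 16229648)) (b (a (l 16243904) (l 16273872)) (l 16260352)))) (a (a (b (a (l 16304096) (l 16336824)) (a (l 16307168) (l 16342488))) (b (a (l 16364992) (l 16546720)) (a (l 16375192) (l 16412712)))) (a (a (b (l 16433792) (l 16439488)) (b (l 16465096) (l 16477792))) (a (b (l 16476696) (l 16498792)) (a (l 16486928) (l 4))))))) (a (b (a (l 1) (a (l 1) (b (l 16296976) (l 1)))) (l 1)) (a (b (a (b (l 16359576) (l 16409832)) (b (a (l 16404552) (l 16436936)) (l 16463776))) (l 196528319303)) (a (b (b (l 16527752) (a (l 16501368) (l 16533816))) (l 16587840)) (a (b (b (l 16530224) (l 16556648)) (l 16614224)) (a (b (l 16642848) (l 16629080)) (b (a (l 16561560) (a (l 16559568) (l 4))) (a (l 16469752) (a (l 16641816) (l 16641688)))))))))), by decide +kernel⟩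

theorem c_pm_123 : CertB 536870912 536870912 1073741824 536870912 649613803 48318383 3 eng mog cd1q1 cd7q2 pd3 true true false .npn 1 2 3
    ndB1q1 ndB7q2 pcB3 Cut.none Ext.none :=
  certB2 (fam := true) (s1 := true) (s2 := false) (a := 1) (b := 2) (c := 3) (cn := .npn) (n1 := ndB1q1) (n2 := ndB7q2) (pc := pcB3) (cut := Cut.none) (xt := Ext.none) (P1 := 536870912) (W1 := 536870912) (P2 := 1073741824) (W2 := 536870912) (P3 := 649613803) (W3 := 48318383) (N0 := 3) (En := eng) (mo := mog) (C1 := cd1q1) (C2 := cd7q2) (C3 := pd3)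
    rfl (fun _ => rfl) k0_pm_123

noncomputable def f_pm_133 : ℕ → ℕ → ℕ → ℕ → Bool := onCell 536870912 536870912 0 1230186008 649613803 48318383
    (rowB 3 eng mog cd1q1 cd7q3 pd3 0 true true false .dn 1 3 3 (qsf 536870912 536870912 0 1230186008 3) ndB1q1 ndB7q3 pcB3 Cut.none Ext.none)

def k0_pm_133 : ∃ t, chk3 f_pm_133 t 1 1 1 = true :=
  ⟨(b (l 2) (b (l 2) (a (b (l 2) (a (b (l 2) (a (b (l 2) (l 16688600)) (l 2))) (l 2))) (l 2)))), by decide +kernel⟩

theorem c_pm_133 : CertB 536870912 536870912 0 1230186008 649613803 48318383 3 eng mog cd1q1 cd7q3 pd3 true true false .dn 1 3 3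
    ndB1q1 ndB7q3 pcB3 Cut.none Ext.none :=
  certB0 (fam := true) (s1 := true) (s2 := false) (a := 1) (b := 3) (c := 3) (cn := .dn) (n1 := ndB1q1) (n2 := ndB7q3) (pc := pcB3) (cut := Cut.none) (xt := Ext.none) (P1 := 536870912) (W1 := 536870912) (P2 := 0) (W2 := 1230186008) (P3 := 649613803) (W3 := 48318383) (N0 := 3) (En := eng) (mo := mog) (C1 := cd1q1) (C2 := cd7q3) (C3 := pd3)
    rfl k0_pm_133

noncomputable def f_pm_202_a : ℕ → ℕ → ℕ → ℕ → Bool := onCell 0 536870912 0 536870912 649613803 48318383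
    (rowB 3 eng mog cd1q2a cd7q0 pd2 0 true true false .pp 2 0 2 (qsf 0 536870912 0 536870912 2) ndB1q2a ndB7q0 pcB2 Cut.none Ext.none)

def k0_pm_202_a : ∃ t, chk3 f_pm_202_a t 2 2 1 = true :=
  ⟨(b (b (a (b (a (l 4) (b (l 16273496) (l 16292568))) (l 4)) (b (a (b (l 16264464) (l 16278160)) (a (l 16262904) (l 16254000))) (a (l 16303712) (a (l 16289184) (l 16275168))))) (a (l 4) (a (b (l 16340576) (l 16380264)) (b (l 16315544) (l 16351048))))) (b (a (l 4) (a (l 4) (b (l 16385256) (l 16420328)))) (l 4))), by decide +kernel⟩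

def k1_pm_202_a : ∃ t, chk3 f_pm_202_a t 3 2 1 = true :=
  ⟨(b (a (b (a (b (a (l 16243864) (l 16254008)) (a (l 16259128) (l 16242624))) (b (a (b (l 16224624) (l 16224728)) (b (l 16220048) (l 16216640))) (a (l 16228568) (b (l 16215952) (l 16218888))))) (a (b (l 16405488) (l 16316960)) (b (a (l 16246656) (b (l 16224344) (l 16232928))) (a (l 16284384) (l 16261168))))) (b (a (b (a (b (l 16221360) (l 16214680)) (b (a (l 16225888) (l 16230768)) (l 16218112))) (a (l 16211192) (b (l 16212208) (l 16210200)))) (b (b (b (a (a (l 16240776) (l 16249432)) (a (b (l 16262632) (l 16257720)) (a (b (l 16271840) (l 16266776)) (c (l 16322280) (c (l 16253768) (l 16207776)))))) (a (a (l 16233248) (l 16241088)) (a (l 16251072) (a (l 16260184) (l 16268280))))) (a (a (l 16224344) (l 16231248)) (a (l 16240728) (a (l 16250240) (l 16259320))))) (a (b (l 16219448) (l 16215840)) (a (b (l 16231992) (l 16228168)) (b (l 16246616) (l 16243480)))))) (a (b (a (l 16280704) (l 16213952))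 (a (b (l 16232096) (l 16251128)) (b (l 16225024) (l 16237720)))) (b (a (b (l 16216352) (l 16220648)) (a (l 16230520) (l 16246808))) (a (b (l 16228448) (l 16239304)) (b (l 16249032) (l 16260776))))))) (a (b (a (b (l 16350584) (l 16383560)) (b (l 16311800) (l 16349584))) (a (b (l 16420864) (l 16462472)) (b (l 16389752) (l 16433184)))) (a (b (b (a (l 16283816) (b (l 16255960) (l 16279920))) (l 16321752)) (l 16393904)) (a (b (b (b (l 16251640) (l 16271928)) (l 16312704)) (l 16396832)) (b (b (b (l 16273232) (a (l 16280240) (l 16299472))) (b (l 16312216) (l 16341480))) (l 16417456)))))), by decide +kernel⟩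

def k2_pm_202_a : ∃ t, chk3 f_pm_202_a t 1 3 1 = true :=
  ⟨(a (l 4) (b (a (b (a (b (l 16506304) (l 4)) (b (l 16480768) (l 16530544))) (a (l 4) (b (l 16581288) (l 16630600)))) (a (b (b (l 16471728) (l 16526904)) (b (l 16582792) (l 16638640))) (b (b (l 16493688) (l 16553824)) (b (l 16613472) (l 16663448))))) (a (l 4) (b (a (b (l 16695536) (l 16694656)) (l 16707456)) (a (b (l 16689344) (l 2)) (a (l 16713240) (l 16729232))))))), by decide +kernel⟩

theorem s3_pm_202_a : ∃ t, chk3 f_pm_202_a t 1 2 1 = true := ex3_a k0_pm_202_a k1_pm_202_a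

theorem s4_pm_202_a : ∃ t, chk3 f_pm_202_a t 1 1 1 = true := ex3_b s3_pm_202_a k2_pm_202_a

theorem c_pm_202_a : CertB 0 536870912 0 536870912 649613803 48318383 3 eng mog cd1q2a cd7q0 pd2 true true false .pp 2 0 2
    ndB1q2a ndB7q0 pcB2 Cut.none Ext.none :=
  certB0 (fam := true) (s1 := true) (s2 := false) (a := 2) (b := 0) (c := 2) (cn := .pp) (n1 := ndB1q2a) (n2 := ndB7q0) (pc := pcB2) (cut := Cut.none) (xt := Ext.none) (P1 := 0) (W1 := 536870912) (P2 := 0) (W2 := 536870912) (P3 := 649613803) (W3 := 48318383) (N0 := 3) (En := eng) (mo := mog) (C1 := cd1q2a) (C2 := cd7q0) (C3 := pd2)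
    rfl s4_pm_202_a

noncomputable def f_pm_202_b : ℕ → ℕ → ℕ → ℕ → Bool := onCell 1239849684 370763052 0 536870912 649613803 48318383
    (rowB 3 eng mog cd1q2b cd7q0 pd2 0 true true false .pp 2 0 2 (qsf 1239849684 370763052 0 536870912 2) ndB1q2b ndB7q0 pcB2 Cut.none Ext.none)

def k0_pm_202_b : ∃ t, chk3 f_pm_202_b t 1 1 1 = true :=
  ⟨(l 4), by decide +kernel⟩

theorem c_pm_202_b : CertB 1239849684 370763052 0 536870912 649613803 48318383 3 eng mog cd1q2b cd7q0 pd2 true true false .pp 2 0 2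
    ndB1q2b ndB7q0 pcB2 Cut.none Ext.none :=
  certB0 (fam := true) (s1 := true) (s2 := false) (a := 2) (b := 0) (c := 2) (cn := .pp) (n1 := ndB1q2b) (n2 := ndB7q0) (pc := pcB2) (cut := Cut.none) (xt := Ext.none) (P1 := 1239849684) (W1 := 370763052) (P2 := 0) (W2 := 536870912) (P3 := 649613803) (W3 := 48318383) (N0 := 3) (En := eng) (mo := mog) (C1 := cd1q2b) (C2 := cd7q0) (C3 := pd2)
    rfl k0_pm_202_b

noncomputable def f_pm_203_a : ℕ → ℕ → ℕ → ℕ → Bool := onCell 0 536870912 1610612736 536870912 649613803 48318383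
    (rowB 3 eng mog cd1q2a cd7q0 pd3 1 true true false .up 2 0 3 (qsf 0 536870912 0 536870912 3) ndB1q2a ndB7q0 pcB3 Cut.none Ext.none)

def k0_pm_203_a : ∃ t, chk3 f_pm_203_a t 1 1 1 = true :=
  ⟨(b (b (a (l 4) (b (a (l 4) (l 16733008)) (l 4))) (l 4)) (l 2)), by decide +kernel⟩

theorem c_pm_203_a : CertB 0 536870912 0 536870912 649613803 48318383 3 eng mog cd1q2a cd7q0 pd3 true true false .up 2 0 3
    ndB1q2a ndB7q0 pcB3 Cut.none Ext.none :=
  certB1 (fam := true) (s1 := true) (s2 := false) (a := 2) (b := 0) (c := 3) (cn := .up) (n1 := ndB1q2a) (n2 := ndB7q0) (pc := pcB3) (cut := Cut.none) (xt := Ext.none) (P1 := 0) (W1 := 536870912) (P2 := 0) (W2 := 536870912) (P3 := 649613803) (W3 := 48318383) (N0 := 3) (En := eng) (mo := mog) (C1 := cd1q2a) (C2 := cd7q0) (C3 := pd3)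
    rfl (fun _ => rfl) k0_pm_203_a

noncomputable def f_pm_203_b : ℕ → ℕ → ℕ → ℕ → Bool := onCell 1239849684 370763052 0 536870912 649613803 48318383
    (rowB 3 eng mog cd1q2b cd7q0 pd3 0 true true false .up 2 0 3 (qsf 1239849684 370763052 0 536870912 3) ndB1q2b ndB7q0 pcB3 Cut.none Ext.none)

def k0_pm_203_b : ∃ t, chk3 f_pm_203_b t 1 1 1 = true :=
  ⟨(l 4), by decide +kernel⟩

theorem c_pm_203_b : CertB 1239849684 370763052 0 536870912 649613803 48318383 3 eng mog cd1q2b cd7q0 pd3 true true false .up 2 0 3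
    ndB1q2b ndB7q0 pcB3 Cut.none Ext.none :=
  certB0 (fam := true) (s1 := true) (s2 := false) (a := 2) (b := 0) (c := 3) (cn := .up) (n1 := ndB1q2b) (n2 := ndB7q0) (pc := pcB3) (cut := Cut.none) (xt := Ext.none) (P1 := 1239849684) (W1 := 370763052) (P2 := 0) (W2 := 536870912) (P3 := 649613803) (W3 := 48318383) (N0 := 3) (En := eng) (mo := mog) (C1 := cd1q2b) (C2 := cd7q0) (C3 := pd3)
    rfl k0_pm_203_b

noncomputable def f_pm_213_a : ℕ → ℕ → ℕ → ℕ → Bool := onCell 0 536870912 1610612736 536870912 649613803 48318383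
    (rowB 3 eng mog cd1q2a cd7q1 pd3 1 true true false .pnn 2 1 3 (qsf 0 536870912 536870912 536870912 3) ndB1q2a ndB7q1 pcB3 Cut.none Ext.none)

def k0_pm_213_a : ∃ t, chk3 f_pm_213_a t 1 1 1 = true :=
  ⟨(b (b (a (l 4) (a (l 4) (b (l 16712144) (l 4)))) (l 4)) (l 4)), by decide +kernel⟩

theorem c_pm_213_a : CertB 0 536870912 536870912 536870912 649613803 48318383 3 eng mog cd1q2a cd7q1 pd3 true true false .pnn 2 1 3
    ndB1q2a ndB7q1 pcB3 Cut.none Ext.none :=
  certB1 (fam := true) (s1 := true) (s2 := false) (a := 2) (b := 1) (c := 3) (cn := .pnn) (n1 := ndB1q2a) (n2 := ndB7q1) (pc := pcB3) (cut := Cut.none) (xt := Ext.none) (P1 := 0) (W1 := 536870912) (P2 := 536870912) (W2 := 536870912) (P3 := 649613803) (W3 := 48318383) (N0 := 3) (En := eng) (mo := mog) (C1 := cd1q2a) (C2 := cd7q1) (C3 := pd3)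
    rfl (fun _ => rfl) k0_pm_213_a

noncomputable def f_pm_213_b : ℕ → ℕ → ℕ → ℕ → Bool := onCell 1239849684 370763052 536870912 536870912 649613803 48318383
    (rowB 3 eng mog cd1q2b cd7q1 pd3 0 true true false .pnn 2 1 3 (qsf 1239849684 370763052 536870912 536870912 3) ndB1q2b ndB7q1 pcB3 Cut.none Ext.none)

def k0_pm_213_b : ∃ t, chk3 f_pm_213_b t 1 1 1 = true :=
  ⟨(l 4), by decide +kernel⟩

theorem c_pm_213_b : CertB 1239849684 370763052 536870912 536870912 649613803 48318383 3 eng mog cd1q2b cd7q1 pd3 true true false .pnn 2 1 3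
    ndB1q2b ndB7q1 pcB3 Cut.none Ext.none :=
  certB0 (fam := true) (s1 := true) (s2 := false) (a := 2) (b := 1) (c := 3) (cn := .pnn) (n1 := ndB1q2b) (n2 := ndB7q1) (pc := pcB3) (cut := Cut.none) (xt := Ext.none) (P1 := 1239849684) (W1 := 370763052) (P2 := 536870912) (W2 := 536870912) (P3 := 649613803) (W3 := 48318383) (N0 := 3) (En := eng) (mo := mog) (C1 := cd1q2b) (C2 := cd7q1) (C3 := pd3)
    rfl k0_pm_213_b

noncomputable def f_pm_303 : ℕ → ℕ → ℕ → ℕ → Bool := onCell 1610612736 536870912 0 536870912 649613803 48318383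
    (rowB 3 eng mog cd1q3 cd7q0 pd3 0 true true false .npn 3 0 3 (qsf 1610612736 536870912 0 536870912 3) ndB1q3 ndB7q0 pcB3 Cut.none Ext.none)

def k0_pm_303 : ∃ t, chk3 f_pm_303 t 1 1 1 = true :=
  ⟨(l 4), by decide +kernel⟩

theorem c_pm_303 : CertB 1610612736 536870912 0 536870912 649613803 48318383 3 eng mog cd1q3 cd7q0 pd3 true true false .npn 3 0 3
    ndB1q3 ndB7q0 pcB3 Cut.none Ext.none :=
  certB0 (fam := true) (s1 := true) (s2 := false) (a := 3) (b := 0) (c := 3) (cn := .npn) (n1 := ndB1q3) (n2 := ndB7q0) (pc := pcB3) (cut := Cut.none) (xt := Ext.none) (P1 := 1610612736) (W1 := 536870912) (P2 := 0) (W2 := 536870912) (P3 := 649613803) (W3 := 48318383) (N0 := 3) (En := eng) (mo := mog) (C1 := cd1q3) (C2 := cd7q0) (C3 := pd3)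
    rfl k0_pm_303

noncomputable def f_pm_313 : ℕ → ℕ → ℕ → ℕ → Bool := onCell 1610612736 536870912 536870912 536870912 649613803 48318383
    (rowB 3 eng mog cd1q3 cd7q1 pd3 0 true true false .dn 3 1 3 (qsf 1610612736 536870912 536870912 536870912 3) ndB1q3 ndB7q1 pcB3 Cut.none Ext.none)

def k0_pm_313 : ∃ t, chk3 f_pm_313 t 1 1 1 = true :=
  ⟨(l 4), by decide +kernel⟩

theorem c_pm_313 : CertB 1610612736 536870912 536870912 536870912 649613803 48318383 3 eng mog cd1q3 cd7q1 pd3 true true false .dn 3 1 3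
    ndB1q3 ndB7q1 pcB3 Cut.none Ext.none :=
  certB0 (fam := true) (s1 := true) (s2 := false) (a := 3) (b := 1) (c := 3) (cn := .dn) (n1 := ndB1q3) (n2 := ndB7q1) (pc := pcB3) (cut := Cut.none) (xt := Ext.none) (P1 := 1610612736) (W1 := 536870912) (P2 := 536870912) (W2 := 536870912) (P3 := 649613803) (W3 := 48318383) (N0 := 3) (En := eng) (mo := mog) (C1 := cd1q3) (C2 := cd7q1) (C3 := pd3)
    rfl k0_pm_313

noncomputable def f_mm_001 : ℕ → ℕ → ℕ → ℕ → Bool := onCell 0 536870912 0 536870912 649613803 48318383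
    (rowB 3 eng mog cd1q0 cd7q0 pd1 0 true false false .up 0 0 1 (qsf 0 536870912 0 536870912 1) ndB1q0 ndB7q0 pcB1 Cut.none Ext.none)

def k0_mm_001 : ∃ t, chk3 f_mm_001 t 1 1 1 = true :=
  ⟨(l 4), by decide +kernel⟩

theorem c_mm_001 : CertB 0 536870912 0 536870912 649613803 48318383 3 eng mog cd1q0 cd7q0 pd1 true false false .up 0 0 1
    ndB1q0 ndB7q0 pcB1 Cut.none Ext.none :=
  certB0 (fam := true) (s1 := false) (s2 := false) (a := 0) (b := 0) (c := 1) (cn := .up) (n1 := ndB1q0) (n2 := ndB7q0) (pc := pcB1) (cut := Cut.none) (xt := Ext.none) (P1 := 0) (W1 := 536870912) (P2 := 0) (W2 := 536870912) (P3 := 649613803) (W3 := 48318383) (N0 := 3) (En := eng) (mo := mog) (C1 := cd1q0) (C2 := cd7q0) (C3 := pd1)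
    rfl k0_mm_001

noncomputable def f_mm_011 : ℕ → ℕ → ℕ → ℕ → Bool := onCell 0 536870912 536870912 536870912 649613803 48318383
    (rowB 3 eng mog cd1q0 cd7q1 pd1 0 true false false .pnn 0 1 1 (qsf 0 536870912 536870912 536870912 1) ndB1q0 ndB7q1 pcB1 Cut.none Ext.none)

def k0_mm_011 : ∃ t, chk3 f_mm_011 t 1 1 1 = true :=
  ⟨(l 4), by decide +kernel⟩

theorem c_mm_011 : CertB 0 536870912 536870912 536870912 649613803 48318383 3 eng mog cd1q0 cd7q1 pd1 true false false .pnn 0 1 1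
    ndB1q0 ndB7q1 pcB1 Cut.none Ext.none :=
  certB0 (fam := true) (s1 := false) (s2 := false) (a := 0) (b := 1) (c := 1) (cn := .pnn) (n1 := ndB1q0) (n2 := ndB7q1) (pc := pcB1) (cut := Cut.none) (xt := Ext.none) (P1 := 0) (W1 := 536870912) (P2 := 536870912) (W2 := 536870912) (P3 := 649613803) (W3 := 48318383) (N0 := 3) (En := eng) (mo := mog) (C1 := cd1q0) (C2 := cd7q1) (C3 := pd1)
    rfl k0_mm_011

noncomputable def f_mm_012 : ℕ → ℕ → ℕ → ℕ → Bool := onCell 0 536870912 536870912 536870912 649613803 48318383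
    (rowB 3 eng mog cd1q0 cd7q1 pd2 0 true false false .pnp 0 1 2 (qsf 0 536870912 536870912 536870912 2) ndB1q0 ndB7q1 pcB2 Cut.none Ext.none)

def k0_mm_012 : ∃ t, chk3 f_mm_012 t 1 1 1 = true :=
  ⟨(l 4), by decide +kernel⟩

theorem c_mm_012 : CertB 0 536870912 536870912 536870912 649613803 48318383 3 eng mog cd1q0 cd7q1 pd2 true false false .pnp 0 1 2
    ndB1q0 ndB7q1 pcB2 Cut.none Ext.none :=
  certB0 (fam := true) (s1 := false) (s2 := false) (a := 0) (b := 1) (c := 2) (cn := .pnp) (n1 := ndB1q0) (n2 := ndB7q1) (pc := pcB2) (cut := Cut.none) (xt := Ext.none) (P1 := 0) (W1 := 536870912) (P2 := 536870912) (W2 := 536870912) (P3 := 649613803) (W3 := 48318383) (N0 := 3) (En := eng) (mo := mog) (C1 := cd1q0) (C2 := cd7q1) (C3 := pd2)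
    rfl k0_mm_012

noncomputable def f_mm_022 : ℕ → ℕ → ℕ → ℕ → Bool := onCell 0 536870912 1073741824 536870912 649613803 48318383
    (rowB 3 eng mog cd1q0 cd7q2 pd2 0 true false false .pp 0 2 2 (qsf 0 536870912 1073741824 536870912 2) ndB1q0 ndB7q2 pcB2 Cut.none Ext.none)

def k0_mm_022 : ∃ t, chk3 f_mm_022 t 1 1 1 = true :=
  ⟨(l 4), by decide +kernel⟩

theorem c_mm_022 : CertB 0 536870912 1073741824 536870912 649613803 48318383 3 eng mog cd1q0 cd7q2 pd2 true false false .pp 0 2 2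
    ndB1q0 ndB7q2 pcB2 Cut.none Ext.none :=
  certB0 (fam := true) (s1 := false) (s2 := false) (a := 0) (b := 2) (c := 2) (cn := .pp) (n1 := ndB1q0) (n2 := ndB7q2) (pc := pcB2) (cut := Cut.none) (xt := Ext.none) (P1 := 0) (W1 := 536870912) (P2 := 1073741824) (W2 := 536870912) (P3 := 649613803) (W3 := 48318383) (N0 := 3) (En := eng) (mo := mog) (C1 := cd1q0) (C2 := cd7q2) (C3 := pd2)
    rfl k0_mm_022

noncomputable def f_mm_023 : ℕ → ℕ → ℕ → ℕ → Bool := onCell 0 536870912 1073741824 536870912 649613803 48318383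
    (rowB 3 eng mog cd1q0 cd7q2 pd3 0 true false false .up 0 2 3 (qsf 0 536870912 1073741824 536870912 3) ndB1q0 ndB7q2 pcB3 Cut.none Ext.none)

def k0_mm_023 : ∃ t, chk3 f_mm_023 t 1 1 1 = true :=
  ⟨(l 4), by decide +kernel⟩

theorem c_mm_023 : CertB 0 536870912 1073741824 536870912 649613803 48318383 3 eng mog cd1q0 cd7q2 pd3 true false false .up 0 2 3
    ndB1q0 ndB7q2 pcB3 Cut.none Ext.none :=
  certB0 (fam := true) (s1 := false) (s2 := false) (a := 0) (b := 2) (c := 3) (cn := .up) (n1 := ndB1q0) (n2 := ndB7q2) (pc := pcB3) (cut := Cut.none) (xt := Ext.none) (P1 := 0) (W1 := 536870912) (P2 := 1073741824) (W2 := 536870912) (P3 := 649613803) (W3 := 48318383) (N0 := 3) (En := eng) (mo := mog) (C1 := cd1q0) (C2 := cd7q2) (C3 := pd3)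
    rfl k0_mm_023

noncomputable def f_mm_033 : ℕ → ℕ → ℕ → ℕ → Bool := onCell 0 536870912 0 1230186008 649613803 48318383
    (rowB 3 eng mog cd1q0 cd7q3 pd3 0 true false false .pnn 0 3 3 (qsf 0 536870912 0 1230186008 3) ndB1q0 ndB7q3 pcB3 Cut.none Ext.none)

def k0_mm_033 : ∃ t, chk3 f_mm_033 t 1 1 1 = true :=
  ⟨(l 5), by decide +kernel⟩

theorem c_mm_033 : CertB 0 536870912 0 1230186008 649613803 48318383 3 eng mog cd1q0 cd7q3 pd3 true false false .pnn 0 3 3
    ndB1q0 ndB7q3 pcB3 Cut.none Ext.none :=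
  certB0 (fam := true) (s1 := false) (s2 := false) (a := 0) (b := 3) (c := 3) (cn := .pnn) (n1 := ndB1q0) (n2 := ndB7q3) (pc := pcB3) (cut := Cut.none) (xt := Ext.none) (P1 := 0) (W1 := 536870912) (P2 := 0) (W2 := 1230186008) (P3 := 649613803) (W3 := 48318383) (N0 := 3) (En := eng) (mo := mog) (C1 := cd1q0) (C2 := cd7q3) (C3 := pd3)
    rfl k0_mm_033

noncomputable def f_mm_101 : ℕ → ℕ → ℕ → ℕ → Bool := onCell 536870912 536870912 0 536870912 649613803 48318383
    (rowB 3 eng mog cd1q1 cd7q0 pd1 0 true false false .npn 1 0 1 (qsf 536870912 536870912 0 536870912 1) ndB1q1 ndB7q0 pcB1 Cut.none Ext.none)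

def k0_mm_101 : ∃ t, chk3 f_mm_101 t 1 1 1 = true :=
  ⟨(l 4), by decide +kernel⟩

theorem c_mm_101 : CertB 536870912 536870912 0 536870912 649613803 48318383 3 eng mog cd1q1 cd7q0 pd1 true false false .npn 1 0 1
    ndB1q1 ndB7q0 pcB1 Cut.none Ext.none :=
  certB0 (fam := true) (s1 := false) (s2 := false) (a := 1) (b := 0) (c := 1) (cn := .npn) (n1 := ndB1q1) (n2 := ndB7q0) (pc := pcB1) (cut := Cut.none) (xt := Ext.none) (P1 := 536870912) (W1 := 536870912) (P2 := 0) (W2 := 536870912) (P3 := 649613803) (W3 := 48318383) (N0 := 3) (En := eng) (mo := mog) (C1 := cd1q1) (C2 := cd7q0) (C3 := pd1)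
    rfl k0_mm_101

noncomputable def f_mm_102 : ℕ → ℕ → ℕ → ℕ → Bool := onCell 536870912 536870912 0 536870912 649613803 48318383
    (rowB 3 eng mog cd1q1 cd7q0 pd2 0 true false false .npp 1 0 2 (qsf 536870912 536870912 0 536870912 2) ndB1q1 ndB7q0 pcB2 Cut.none Ext.none)

def k0_mm_102 : ∃ t, chk3 f_mm_102 t 1 1 1 = true :=
  ⟨(l 4), by decide +kernel⟩

theorem c_mm_102 : CertB 536870912 536870912 0 536870912 649613803 48318383 3 eng mog cd1q1 cd7q0 pd2 true false false .npp 1 0 2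
    ndB1q1 ndB7q0 pcB2 Cut.none Ext.none :=
  certB0 (fam := true) (s1 := false) (s2 := false) (a := 1) (b := 0) (c := 2) (cn := .npp) (n1 := ndB1q1) (n2 := ndB7q0) (pc := pcB2) (cut := Cut.none) (xt := Ext.none) (P1 := 536870912) (W1 := 536870912) (P2 := 0) (W2 := 536870912) (P3 := 649613803) (W3 := 48318383) (N0 := 3) (En := eng) (mo := mog) (C1 := cd1q1) (C2 := cd7q0) (C3 := pd2)
    rfl k0_mm_102

noncomputable def f_mm_112 : ℕ → ℕ → ℕ → ℕ → Bool := onCell 536870912 536870912 536870912 536870912 649613803 48318383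
    (rowB 3 eng mog cd1q1 cd7q1 pd2 0 true false false .dn 1 1 2 (qsf 536870912 536870912 536870912 536870912 2) ndB1q1 ndB7q1 pcB2 Cut.none Ext.none)

def k0_mm_112 : ∃ t, chk3 f_mm_112 t 1 1 1 = true :=
  ⟨(l 4), by decide +kernel⟩

theorem c_mm_112 : CertB 536870912 536870912 536870912 536870912 649613803 48318383 3 eng mog cd1q1 cd7q1 pd2 true false false .dn 1 1 2
    ndB1q1 ndB7q1 pcB2 Cut.none Ext.none :=
  certB0 (fam := true) (s1 := false) (s2 := false) (a := 1) (b := 1) (c := 2) (cn := .dn) (n1 := ndB1q1) (n2 := ndB7q1) (pc := pcB2) (cut := Cut.none) (xt := Ext.none) (P1 := 536870912) (W1 := 536870912) (P2 := 536870912) (W2 := 536870912) (P3 := 649613803) (W3 := 48318383) (N0 := 3) (En := eng) (mo := mog) (C1 := cd1q1) (C2 := cd7q1) (C3 := pd2)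
    rfl k0_mm_112

noncomputable def f_mm_113 : ℕ → ℕ → ℕ → ℕ → Bool := onCell 536870912 536870912 536870912 536870912 649613803 48318383
    (rowB 3 eng mog cd1q1 cd7q1 pd3 0 true false false .nn 1 1 3 (qsf 536870912 536870912 536870912 536870912 3) ndB1q1 ndB7q1 pcB3 Cut.none Ext.none)

def k0_mm_113 : ∃ t, chk3 f_mm_113 t 1 1 1 = true :=
  ⟨(l 4), by decide +kernel⟩

theorem c_mm_113 : CertB 536870912 536870912 536870912 536870912 649613803 48318383 3 eng mog cd1q1 cd7q1 pd3 true false false .nn 1 1 3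
    ndB1q1 ndB7q1 pcB3 Cut.none Ext.none :=
  certB0 (fam := true) (s1 := false) (s2 := false) (a := 1) (b := 1) (c := 3) (cn := .nn) (n1 := ndB1q1) (n2 := ndB7q1) (pc := pcB3) (cut := Cut.none) (xt := Ext.none) (P1 := 536870912) (W1 := 536870912) (P2 := 536870912) (W2 := 536870912) (P3 := 649613803) (W3 := 48318383) (N0 := 3) (En := eng) (mo := mog) (C1 := cd1q1) (C2 := cd7q1) (C3 := pd3)
    rfl k0_mm_113

noncomputable def f_mm_123 : ℕ → ℕ → ℕ → ℕ → Bool := onCell 536870912 536870912 1073741824 536870912 649613803 48318383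
    (rowB 3 eng mog cd1q1 cd7q2 pd3 0 true false false .npn 1 2 3 (qsf 536870912 536870912 1073741824 536870912 3) ndB1q1 ndB7q2 pcB3 Cut.none Ext.none)

def k0_mm_123 : ∃ t, chk3 f_mm_123 t 1 1 1 = true :=
  ⟨(l 4), by decide +kernel⟩

theorem c_mm_123 : CertB 536870912 536870912 1073741824 536870912 649613803 48318383 3 eng mog cd1q1 cd7q2 pd3 true false false .npn 1 2 3
    ndB1q1 ndB7q2 pcB3 Cut.none Ext.none :=
  certB0 (fam := true) (s1 := false) (s2 := false) (a := 1) (b := 2) (c := 3) (cn := .npn) (n1 := ndB1q1) (n2 := ndB7q2) (pc := pcB3) (cut := Cut.none) (xt := Ext.none) (P1 := 536870912) (W1 := 536870912) (P2 := 1073741824) (W2 := 536870912) (P3 := 649613803) (W3 := 48318383) (N0 := 3) (En := eng) (mo := mog) (C1 := cd1q1) (C2 := cd7q2) (C3 := pd3)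
    rfl k0_mm_123

noncomputable def f_mm_133 : ℕ → ℕ → ℕ → ℕ → Bool := onCell 536870912 536870912 0 1230186008 649613803 48318383
    (rowB 3 eng mog cd1q1 cd7q3 pd3 0 true false false .dn 1 3 3 (qsf 536870912 536870912 0 1230186008 3) ndB1q1 ndB7q3 pcB3 Cut.none Ext.none)

def k0_mm_133 : ∃ t, chk3 f_mm_133 t 1 1 1 = true :=
  ⟨(l 4), by decide +kernel⟩

theorem c_mm_133 : CertB 536870912 536870912 0 1230186008 649613803 48318383 3 eng mog cd1q1 cd7q3 pd3 true false false .dn 1 3 3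
    ndB1q1 ndB7q3 pcB3 Cut.none Ext.none :=
  certB0 (fam := true) (s1 := false) (s2 := false) (a := 1) (b := 3) (c := 3) (cn := .dn) (n1 := ndB1q1) (n2 := ndB7q3) (pc := pcB3) (cut := Cut.none) (xt := Ext.none) (P1 := 536870912) (W1 := 536870912) (P2 := 0) (W2 := 1230186008) (P3 := 649613803) (W3 := 48318383) (N0 := 3) (En := eng) (mo := mog) (C1 := cd1q1) (C2 := cd7q3) (C3 := pd3)
    rfl k0_mm_133

noncomputable def f_mm_202_a : ℕ → ℕ → ℕ → ℕ → Bool := onCell 0 536870912 0 536870912 649613803 48318383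
    (rowB 3 eng mog cd1q2a cd7q0 pd2 0 true false false .pp 2 0 2 (qsf 0 536870912 0 536870912 2) ndB1q2a ndB7q0 pcB2 Cut.none Ext.none)

def k0_mm_202_a : ∃ t, chk3 f_mm_202_a t 1 1 1 = true :=
  ⟨(l 4), by decide +kernel⟩

theorem c_mm_202_a : CertB 0 536870912 0 536870912 649613803 48318383 3 eng mog cd1q2a cd7q0 pd2 true false false .pp 2 0 2
    ndB1q2a ndB7q0 pcB2 Cut.none Ext.none :=
  certB0 (fam := true) (s1 := false) (s2 := false) (a := 2) (b := 0) (c := 2) (cn := .pp) (n1 := ndB1q2a) (n2 := ndB7q0) (pc := pcB2) (cut := Cut.none) (xt := Ext.none) (P1 := 0) (W1 := 536870912) (P2 := 0) (W2 := 536870912) (P3 := 649613803) (W3 := 48318383) (N0 := 3) (En := eng) (mo := mog) (C1 := cd1q2a) (C2 := cd7q0) (C3 := pd2)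
    rfl k0_mm_202_a

noncomputable def f_mm_202_b : ℕ → ℕ → ℕ → ℕ → Bool := onCell 1239849684 370763052 0 536870912 649613803 48318383
    (rowB 3 eng mog cd1q2b cd7q0 pd2 0 true false false .pp 2 0 2 (qsf 1239849684 370763052 0 536870912 2) ndB1q2b ndB7q0 pcB2 Cut.none Ext.none)

def k0_mm_202_b : ∃ t, chk3 f_mm_202_b t 1 1 1 = true :=
  ⟨(l 4), by decide +kernel⟩

theorem c_mm_202_b : CertB 1239849684 370763052 0 536870912 649613803 48318383 3 eng mog cd1q2b cd7q0 pd2 true false false .pp 2 0 2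
    ndB1q2b ndB7q0 pcB2 Cut.none Ext.none :=
  certB0 (fam := true) (s1 := false) (s2 := false) (a := 2) (b := 0) (c := 2) (cn := .pp) (n1 := ndB1q2b) (n2 := ndB7q0) (pc := pcB2) (cut := Cut.none) (xt := Ext.none) (P1 := 1239849684) (W1 := 370763052) (P2 := 0) (W2 := 536870912) (P3 := 649613803) (W3 := 48318383) (N0 := 3) (En := eng) (mo := mog) (C1 := cd1q2b) (C2 := cd7q0) (C3 := pd2)
    rfl k0_mm_202_b

noncomputable def f_mm_203_a : ℕ → ℕ → ℕ → ℕ → Bool := onCell 0 536870912 0 536870912 649613803 48318383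
    (rowB 3 eng mog cd1q2a cd7q0 pd3 0 true false false .up 2 0 3 (qsf 0 536870912 0 536870912 3) ndB1q2a ndB7q0 pcB3 Cut.none Ext.none)

def k0_mm_203_a : ∃ t, chk3 f_mm_203_a t 1 1 1 = true :=
  ⟨(l 4), by decide +kernel⟩

theorem c_mm_203_a : CertB 0 536870912 0 536870912 649613803 48318383 3 eng mog cd1q2a cd7q0 pd3 true false false .up 2 0 3
    ndB1q2a ndB7q0 pcB3 Cut.none Ext.none :=
  certB0 (fam := true) (s1 := false) (s2 := false) (a := 2) (b := 0) (c := 3) (cn := .up) (n1 := ndB1q2a) (n2 := ndB7q0) (pc := pcB3) (cut := Cut.none) (xt := Ext.none) (P1 := 0) (W1 := 536870912) (P2 := 0) (W2 := 536870912) (P3 := 649613803) (W3 := 48318383) (N0 := 3) (En := eng) (mo := mog) (C1 := cd1q2a) (C2 := cd7q0) (C3 := pd3)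
    rfl k0_mm_203_a

noncomputable def f_mm_203_b : ℕ → ℕ → ℕ → ℕ → Bool := onCell 1239849684 370763052 0 536870912 649613803 48318383
    (rowB 3 eng mog cd1q2b cd7q0 pd3 0 true false false .up 2 0 3 (qsf 1239849684 370763052 0 536870912 3) ndB1q2b ndB7q0 pcB3 Cut.none Ext.none)

def k0_mm_203_b : ∃ t, chk3 f_mm_203_b t 1 1 1 = true :=
  ⟨(l 4), by decide +kernel⟩

theorem c_mm_203_b : CertB 1239849684 370763052 0 536870912 649613803 48318383 3 eng mog cd1q2b cd7q0 pd3 true false false .up 2 0 3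
    ndB1q2b ndB7q0 pcB3 Cut.none Ext.none :=
  certB0 (fam := true) (s1 := false) (s2 := false) (a := 2) (b := 0) (c := 3) (cn := .up) (n1 := ndB1q2b) (n2 := ndB7q0) (pc := pcB3) (cut := Cut.none) (xt := Ext.none) (P1 := 1239849684) (W1 := 370763052) (P2 := 0) (W2 := 536870912) (P3 := 649613803) (W3 := 48318383) (N0 := 3) (En := eng) (mo := mog) (C1 := cd1q2b) (C2 := cd7q0) (C3 := pd3)
    rfl k0_mm_203_b

noncomputable def f_mm_213_a : ℕ → ℕ → ℕ → ℕ → Bool := onCell 0 536870912 536870912 536870912 649613803 48318383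
    (rowB 3 eng mog cd1q2a cd7q1 pd3 0 true false false .pnn 2 1 3 (qsf 0 536870912 536870912 536870912 3) ndB1q2a ndB7q1 pcB3 Cut.none Ext.none)

def k0_mm_213_a : ∃ t, chk3 f_mm_213_a t 1 1 1 = true :=
  ⟨(l 4), by decide +kernel⟩

theorem c_mm_213_a : CertB 0 536870912 536870912 536870912 649613803 48318383 3 eng mog cd1q2a cd7q1 pd3 true false false .pnn 2 1 3
    ndB1q2a ndB7q1 pcB3 Cut.none Ext.none :=
  certB0 (fam := true) (s1 := false) (s2 := false) (a := 2) (b := 1) (c := 3) (cn := .pnn) (n1 := ndB1q2a) (n2 := ndB7q1) (pc := pcB3) (cut := Cut.none) (xt := Ext.none) (P1 := 0) (W1 := 536870912) (P2 := 536870912) (W2 := 536870912) (P3 := 649613803) (W3 := 48318383) (N0 := 3) (En := eng) (mo := mog) (C1 := cd1q2a) (C2 := cd7q1) (C3 := pd3)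
    rfl k0_mm_213_a

noncomputable def f_mm_213_b : ℕ → ℕ → ℕ → ℕ → Bool := onCell 1239849684 370763052 536870912 536870912 649613803 48318383
    (rowB 3 eng mog cd1q2b cd7q1 pd3 0 true false false .pnn 2 1 3 (qsf 1239849684 370763052 536870912 536870912 3) ndB1q2b ndB7q1 pcB3 Cut.none Ext.none)

def k0_mm_213_b : ∃ t, chk3 f_mm_213_b t 1 1 1 = true :=
  ⟨(l 4), by decide +kernel⟩

theorem c_mm_213_b : CertB 1239849684 370763052 536870912 536870912 649613803 48318383 3 eng mog cd1q2b cd7q1 pd3 true false false .pnn 2 1 3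
    ndB1q2b ndB7q1 pcB3 Cut.none Ext.none :=
  certB0 (fam := true) (s1 := false) (s2 := false) (a := 2) (b := 1) (c := 3) (cn := .pnn) (n1 := ndB1q2b) (n2 := ndB7q1) (pc := pcB3) (cut := Cut.none) (xt := Ext.none) (P1 := 1239849684) (W1 := 370763052) (P2 := 536870912) (W2 := 536870912) (P3 := 649613803) (W3 := 48318383) (N0 := 3) (En := eng) (mo := mog) (C1 := cd1q2b) (C2 := cd7q1) (C3 := pd3)
    rfl k0_mm_213_b

noncomputable def f_mm_303 : ℕ → ℕ → ℕ → ℕ → Bool := onCell 1610612736 536870912 0 536870912 649613803 48318383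
    (rowB 3 eng mog cd1q3 cd7q0 pd3 0 true false false .npn 3 0 3 (qsf 1610612736 536870912 0 536870912 3) ndB1q3 ndB7q0 pcB3 Cut.none Ext.none)

def k0_mm_303 : ∃ t, chk3 f_mm_303 t 1 1 1 = true :=
  ⟨(l 4), by decide +kernel⟩

theorem c_mm_303 : CertB 1610612736 536870912 0 536870912 649613803 48318383 3 eng mog cd1q3 cd7q0 pd3 true false false .npn 3 0 3
    ndB1q3 ndB7q0 pcB3 Cut.none Ext.none :=
  certB0 (fam := true) (s1 := false) (s2 := false) (a := 3) (b := 0) (c := 3) (cn := .npn) (n1 := ndB1q3) (n2 := ndB7q0) (pc := pcB3) (cut := Cut.none) (xt := Ext.none) (P1 := 1610612736) (W1 := 536870912) (P2 := 0) (W2 := 536870912) (P3 := 649613803) (W3 := 48318383) (N0 := 3) (En := eng) (mo := mog) (C1 := cd1q3) (C2 := cd7q0) (C3 := pd3)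
    rfl k0_mm_303

noncomputable def f_mm_313 : ℕ → ℕ → ℕ → ℕ → Bool := onCell 1610612736 536870912 536870912 536870912 649613803 48318383
    (rowB 3 eng mog cd1q3 cd7q1 pd3 0 true false false .dn 3 1 3 (qsf 1610612736 536870912 536870912 536870912 3) ndB1q3 ndB7q1 pcB3 Cut.none Ext.none)

def k0_mm_313 : ∃ t, chk3 f_mm_313 t 1 1 1 = true :=
  ⟨(l 4), by decide +kernel⟩

theorem c_mm_313 : CertB 1610612736 536870912 536870912 536870912 649613803 48318383 3 eng mog cd1q3 cd7q1 pd3 true false false .dn 3 1 3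
    ndB1q3 ndB7q1 pcB3 Cut.none Ext.none :=
  certB0 (fam := true) (s1 := false) (s2 := false) (a := 3) (b := 1) (c := 3) (cn := .dn) (n1 := ndB1q3) (n2 := ndB7q1) (pc := pcB3) (cut := Cut.none) (xt := Ext.none) (P1 := 1610612736) (W1 := 536870912) (P2 := 536870912) (W2 := 536870912) (P3 := 649613803) (W3 := 48318383) (N0 := 3) (En := eng) (mo := mog) (C1 := cd1q3) (C2 := cd7q1) (C3 := pd3)
    rfl k0_mm_313

end Pool.Agent.Strip051.G.I6050_6500.Tab.C.BA17

namespace Pool.Agent.Strip051.G.I6050_6500.Tab.C.BA18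

open Pool.Agent.Strip051.PB Pool.Agent.Strip051.PB.T
open Pool.Agent.Strip051.G.I6050_6500.Tab

noncomputable def f_pp_001 : ℕ → ℕ → ℕ → ℕ → Bool := onCell 0 536870912 0 536870912 649613803 48318383
    (rowB 3 eng mog cd1q0 cd8q0 pd1 0 true true true .up 0 0 1 (qsf 0 536870912 0 536870912 1) ndB1q0 ndB8q0 pcB1 Cut.none Ext.none)

def k0_pp_001 : ∃ t, chk3 f_pp_001 t 1 1 1 = true :=
  ⟨(l 4), by decide +kernel⟩

theorem c_pp_001 : CertB 0 536870912 0 536870912 649613803 48318383 3 eng mog cd1q0 cd8q0 pd1 true true true .up 0 0 1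
    ndB1q0 ndB8q0 pcB1 Cut.none Ext.none :=
  certB0 (fam := true) (s1 := true) (s2 := true) (a := 0) (b := 0) (c := 1) (cn := .up) (n1 := ndB1q0) (n2 := ndB8q0) (pc := pcB1) (cut := Cut.none) (xt := Ext.none) (P1 := 0) (W1 := 536870912) (P2 := 0) (W2 := 536870912) (P3 := 649613803) (W3 := 48318383) (N0 := 3) (En := eng) (mo := mog) (C1 := cd1q0) (C2 := cd8q0) (C3 := pd1)
    rfl k0_pp_001

noncomputable def f_pp_011 : ℕ → ℕ → ℕ → ℕ → Bool := onCell 0 536870912 536870912 536870912 649613803 48318383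
    (rowB 3 eng mog cd1q0 cd8q1 pd1 0 true true true .pnn 0 1 1 (qsf 0 536870912 536870912 536870912 1) ndB1q0 ndB8q1 pcB1 Cut.none Ext.none)

def k0_pp_011 : ∃ t, chk3 f_pp_011 t 1 1 1 = true :=
  ⟨(l 4), by decide +kernel⟩

theorem c_pp_011 : CertB 0 536870912 536870912 536870912 649613803 48318383 3 eng mog cd1q0 cd8q1 pd1 true true true .pnn 0 1 1
    ndB1q0 ndB8q1 pcB1 Cut.none Ext.none :=
  certB0 (fam := true) (s1 := true) (s2 := true) (a := 0) (b := 1) (c := 1) (cn := .pnn) (n1 := ndB1q0) (n2 := ndB8q1) (pc := pcB1) (cut := Cut.none) (xt := Ext.none) (P1 := 0) (W1 := 536870912) (P2 := 536870912) (W2 := 536870912) (P3 := 649613803) (W3 := 48318383) (N0 := 3) (En := eng) (mo := mog) (C1 := cd1q0) (C2 := cd8q1) (C3 := pd1)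
    rfl k0_pp_011

noncomputable def f_pp_012 : ℕ → ℕ → ℕ → ℕ → Bool := onCell 0 536870912 536870912 536870912 649613803 48318383
    (rowB 3 eng mog cd1q0 cd8q1 pd2 0 true true true .pnp 0 1 2 (qsf 0 536870912 536870912 536870912 2) ndB1q0 ndB8q1 pcB2 Cut.none Ext.none)

def k0_pp_012 : ∃ t, chk3 f_pp_012 t 1 1 1 = true :=
  ⟨(l 4), by decide +kernel⟩

theorem c_pp_012 : CertB 0 536870912 536870912 536870912 649613803 48318383 3 eng mog cd1q0 cd8q1 pd2 true true true .pnp 0 1 2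
    ndB1q0 ndB8q1 pcB2 Cut.none Ext.none :=
  certB0 (fam := true) (s1 := true) (s2 := true) (a := 0) (b := 1) (c := 2) (cn := .pnp) (n1 := ndB1q0) (n2 := ndB8q1) (pc := pcB2) (cut := Cut.none) (xt := Ext.none) (P1 := 0) (W1 := 536870912) (P2 := 536870912) (W2 := 536870912) (P3 := 649613803) (W3 := 48318383) (N0 := 3) (En := eng) (mo := mog) (C1 := cd1q0) (C2 := cd8q1) (C3 := pd2)
    rfl k0_pp_012

noncomputable def f_pp_022 : ℕ → ℕ → ℕ → ℕ → Bool := onCell 0 536870912 1073741824 536870912 649613803 48318383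
    (rowB 3 eng mog cd1q0 cd8q2 pd2 0 true true true .pp 0 2 2 (qsf 0 536870912 1073741824 536870912 2) ndB1q0 ndB8q2 pcB2 Cut.none Ext.none)

def k0_pp_022 : ∃ t, chk3 f_pp_022 t 1 1 1 = true :=
  ⟨(l 4), by decide +kernel⟩

theorem c_pp_022 : CertB 0 536870912 1073741824 536870912 649613803 48318383 3 eng mog cd1q0 cd8q2 pd2 true true true .pp 0 2 2
    ndB1q0 ndB8q2 pcB2 Cut.none Ext.none :=
  certB0 (fam := true) (s1 := true) (s2 := true) (a := 0) (b := 2) (c := 2) (cn := .pp) (n1 := ndB1q0) (n2 := ndB8q2) (pc := pcB2) (cut := Cut.none) (xt := Ext.none) (P1 := 0) (W1 := 536870912) (P2 := 1073741824) (W2 := 536870912) (P3 := 649613803) (W3 := 48318383) (N0 := 3) (En := eng) (mo := mog) (C1 := cd1q0) (C2 := cd8q2) (C3 := pd2)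
    rfl k0_pp_022

noncomputable def f_pp_023 : ℕ → ℕ → ℕ → ℕ → Bool := onCell 0 536870912 1073741824 536870912 649613803 48318383
    (rowB 3 eng mog cd1q0 cd8q2 pd3 0 true true true .up 0 2 3 (qsf 0 536870912 1073741824 536870912 3) ndB1q0 ndB8q2 pcB3 Cut.none Ext.none)

def k0_pp_023 : ∃ t, chk3 f_pp_023 t 1 1 1 = true :=
  ⟨(l 4), by decide +kernel⟩

theorem c_pp_023 : CertB 0 536870912 1073741824 536870912 649613803 48318383 3 eng mog cd1q0 cd8q2 pd3 true true true .up 0 2 3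
    ndB1q0 ndB8q2 pcB3 Cut.none Ext.none :=
  certB0 (fam := true) (s1 := true) (s2 := true) (a := 0) (b := 2) (c := 3) (cn := .up) (n1 := ndB1q0) (n2 := ndB8q2) (pc := pcB3) (cut := Cut.none) (xt := Ext.none) (P1 := 0) (W1 := 536870912) (P2 := 1073741824) (W2 := 536870912) (P3 := 649613803) (W3 := 48318383) (N0 := 3) (En := eng) (mo := mog) (C1 := cd1q0) (C2 := cd8q2) (C3 := pd3)
    rfl k0_pp_023

noncomputable def f_pp_033 : ℕ → ℕ → ℕ → ℕ → Bool := onCell 0 536870912 0 1230186008 649613803 48318383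
    (rowB 3 eng mog cd1q0 cd8q3 pd3 0 true true true .pnn 0 3 3 (qsf 0 536870912 0 1230186008 3) ndB1q0 ndB8q3 pcB3 Cut.none Ext.none)

def k0_pp_033 : ∃ t, chk3 f_pp_033 t 1 1 1 = true :=
  ⟨(l 4), by decide +kernel⟩

theorem c_pp_033 : CertB 0 536870912 0 1230186008 649613803 48318383 3 eng mog cd1q0 cd8q3 pd3 true true true .pnn 0 3 3
    ndB1q0 ndB8q3 pcB3 Cut.none Ext.none :=
  certB0 (fam := true) (s1 := true) (s2 := true) (a := 0) (b := 3) (c := 3) (cn := .pnn) (n1 := ndB1q0) (n2 := ndB8q3) (pc := pcB3) (cut := Cut.none) (xt := Ext.none) (P1 := 0) (W1 := 536870912) (P2 := 0) (W2 := 1230186008) (P3 := 649613803) (W3 := 48318383) (N0 := 3) (En := eng) (mo := mog) (C1 := cd1q0) (C2 := cd8q3) (C3 := pd3)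
    rfl k0_pp_033

noncomputable def f_pp_101 : ℕ → ℕ → ℕ → ℕ → Bool := onCell 536870912 536870912 0 536870912 649613803 48318383
    (rowB 3 eng mog cd1q1 cd8q0 pd1 0 true true true .npn 1 0 1 (qsf 536870912 536870912 0 536870912 1) ndB1q1 ndB8q0 pcB1 Cut.none Ext.none)

def k0_pp_101 : ∃ t, chk3 f_pp_101 t 1 1 1 = true :=
  ⟨(l 4), by decide +kernel⟩

theorem c_pp_101 : CertB 536870912 536870912 0 536870912 649613803 48318383 3 eng mog cd1q1 cd8q0 pd1 true true true .npn 1 0 1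
    ndB1q1 ndB8q0 pcB1 Cut.none Ext.none :=
  certB0 (fam := true) (s1 := true) (s2 := true) (a := 1) (b := 0) (c := 1) (cn := .npn) (n1 := ndB1q1) (n2 := ndB8q0) (pc := pcB1) (cut := Cut.none) (xt := Ext.none) (P1 := 536870912) (W1 := 536870912) (P2 := 0) (W2 := 536870912) (P3 := 649613803) (W3 := 48318383) (N0 := 3) (En := eng) (mo := mog) (C1 := cd1q1) (C2 := cd8q0) (C3 := pd1)
    rfl k0_pp_101

noncomputable def f_pp_102 : ℕ → ℕ → ℕ → ℕ → Bool := onCell 536870912 536870912 0 536870912 649613803 48318383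
    (rowB 3 eng mog cd1q1 cd8q0 pd2 0 true true true .npp 1 0 2 (qsf 536870912 536870912 0 536870912 2) ndB1q1 ndB8q0 pcB2 Cut.none Ext.none)

def k0_pp_102 : ∃ t, chk3 f_pp_102 t 1 1 1 = true :=
  ⟨(l 4), by decide +kernel⟩

theorem c_pp_102 : CertB 536870912 536870912 0 536870912 649613803 48318383 3 eng mog cd1q1 cd8q0 pd2 true true true .npp 1 0 2
    ndB1q1 ndB8q0 pcB2 Cut.none Ext.none :=
  certB0 (fam := true) (s1 := true) (s2 := true) (a := 1) (b := 0) (c := 2) (cn := .npp) (n1 := ndB1q1) (n2 := ndB8q0) (pc := pcB2) (cut := Cut.none) (xt := Ext.none) (P1 := 536870912) (W1 := 536870912) (P2 := 0) (W2 := 536870912) (P3 := 649613803) (W3 := 48318383) (N0 := 3) (En := eng) (mo := mog) (C1 := cd1q1) (C2 := cd8q0) (C3 := pd2)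
    rfl k0_pp_102

noncomputable def f_pp_112 : ℕ → ℕ → ℕ → ℕ → Bool := onCell 536870912 536870912 536870912 536870912 649613803 48318383
    (rowB 3 eng mog cd1q1 cd8q1 pd2 0 true true true .dn 1 1 2 (qsf 536870912 536870912 536870912 536870912 2) ndB1q1 ndB8q1 pcB2 Cut.none Ext.none)

def k0_pp_112 : ∃ t, chk3 f_pp_112 t 1 1 1 = true :=
  ⟨(l 4), by decide +kernel⟩

theorem c_pp_112 : CertB 536870912 536870912 536870912 536870912 649613803 48318383 3 eng mog cd1q1 cd8q1 pd2 true true true .dn 1 1 2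
    ndB1q1 ndB8q1 pcB2 Cut.none Ext.none :=
  certB0 (fam := true) (s1 := true) (s2 := true) (a := 1) (b := 1) (c := 2) (cn := .dn) (n1 := ndB1q1) (n2 := ndB8q1) (pc := pcB2) (cut := Cut.none) (xt := Ext.none) (P1 := 536870912) (W1 := 536870912) (P2 := 536870912) (W2 := 536870912) (P3 := 649613803) (W3 := 48318383) (N0 := 3) (En := eng) (mo := mog) (C1 := cd1q1) (C2 := cd8q1) (C3 := pd2)
    rfl k0_pp_112

noncomputable def f_pp_113 : ℕ → ℕ → ℕ → ℕ → Bool := onCell 536870912 536870912 536870912 536870912 649613803 48318383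
    (rowB 3 eng mog cd1q1 cd8q1 pd3 0 true true true .nn 1 1 3 (qsf 536870912 536870912 536870912 536870912 3) ndB1q1 ndB8q1 pcB3 Cut.none Ext.none)

def k0_pp_113 : ∃ t, chk3 f_pp_113 t 1 1 1 = true :=
  ⟨(l 4), by decide +kernel⟩

theorem c_pp_113 : CertB 536870912 536870912 536870912 536870912 649613803 48318383 3 eng mog cd1q1 cd8q1 pd3 true true true .nn 1 1 3
    ndB1q1 ndB8q1 pcB3 Cut.none Ext.none :=
  certB0 (fam := true) (s1 := true) (s2 := true) (a := 1) (b := 1) (c := 3) (cn := .nn) (n1 := ndB1q1) (n2 := ndB8q1) (pc := pcB3) (cut := Cut.none) (xt := Ext.none) (P1 := 536870912) (W1 := 536870912) (P2 := 536870912) (W2 := 536870912) (P3 := 649613803) (W3 := 48318383) (N0 := 3) (En := eng) (mo := mog) (C1 := cd1q1) (C2 := cd8q1) (C3 := pd3)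
    rfl k0_pp_113

noncomputable def f_pp_123 : ℕ → ℕ → ℕ → ℕ → Bool := onCell 536870912 536870912 1073741824 536870912 649613803 48318383
    (rowB 3 eng mog cd1q1 cd8q2 pd3 0 true true true .npn 1 2 3 (qsf 536870912 536870912 1073741824 536870912 3) ndB1q1 ndB8q2 pcB3 Cut.none Ext.none)

def k0_pp_123 : ∃ t, chk3 f_pp_123 t 1 1 1 = true :=
  ⟨(l 4), by decide +kernel⟩

theorem c_pp_123 : CertB 536870912 536870912 1073741824 536870912 649613803 48318383 3 eng mog cd1q1 cd8q2 pd3 true true true .npn 1 2 3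
    ndB1q1 ndB8q2 pcB3 Cut.none Ext.none :=
  certB0 (fam := true) (s1 := true) (s2 := true) (a := 1) (b := 2) (c := 3) (cn := .npn) (n1 := ndB1q1) (n2 := ndB8q2) (pc := pcB3) (cut := Cut.none) (xt := Ext.none) (P1 := 536870912) (W1 := 536870912) (P2 := 1073741824) (W2 := 536870912) (P3 := 649613803) (W3 := 48318383) (N0 := 3) (En := eng) (mo := mog) (C1 := cd1q1) (C2 := cd8q2) (C3 := pd3)
    rfl k0_pp_123

noncomputable def f_pp_133 : ℕ → ℕ → ℕ → ℕ → Bool := onCell 536870912 536870912 0 1230186008 649613803 48318383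
    (rowB 3 eng mog cd1q1 cd8q3 pd3 0 true true true .dn 1 3 3 (qsf 536870912 536870912 0 1230186008 3) ndB1q1 ndB8q3 pcB3 Cut.none Ext.none)

def k0_pp_133 : ∃ t, chk3 f_pp_133 t 1 1 1 = true :=
  ⟨(l 4), by decide +kernel⟩

theorem c_pp_133 : CertB 536870912 536870912 0 1230186008 649613803 48318383 3 eng mog cd1q1 cd8q3 pd3 true true true .dn 1 3 3
    ndB1q1 ndB8q3 pcB3 Cut.none Ext.none :=
  certB0 (fam := true) (s1 := true) (s2 := true) (a := 1) (b := 3) (c := 3) (cn := .dn) (n1 := ndB1q1) (n2 := ndB8q3) (pc := pcB3) (cut := Cut.none) (xt := Ext.none) (P1 := 536870912) (W1 := 536870912) (P2 := 0) (W2 := 1230186008) (P3 := 649613803) (W3 := 48318383) (N0 := 3) (En := eng) (mo := mog) (C1 := cd1q1) (C2 := cd8q3) (C3 := pd3)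
    rfl k0_pp_133

noncomputable def f_pp_202_a : ℕ → ℕ → ℕ → ℕ → Bool := onCell 0 536870912 0 536870912 649613803 48318383
    (rowB 3 eng mog cd1q2a cd8q0 pd2 0 true true true .pp 2 0 2 (qsf 0 536870912 0 536870912 2) ndB1q2a ndB8q0 pcB2 Cut.none Ext.none)

def k0_pp_202_a : ∃ t, chk3 f_pp_202_a t 1 1 1 = true :=
  ⟨(l 4), by decide +kernel⟩

theorem c_pp_202_a : CertB 0 536870912 0 536870912 649613803 48318383 3 eng mog cd1q2a cd8q0 pd2 true true true .pp 2 0 2
    ndB1q2a ndB8q0 pcB2 Cut.none Ext.none :=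
  certB0 (fam := true) (s1 := true) (s2 := true) (a := 2) (b := 0) (c := 2) (cn := .pp) (n1 := ndB1q2a) (n2 := ndB8q0) (pc := pcB2) (cut := Cut.none) (xt := Ext.none) (P1 := 0) (W1 := 536870912) (P2 := 0) (W2 := 536870912) (P3 := 649613803) (W3 := 48318383) (N0 := 3) (En := eng) (mo := mog) (C1 := cd1q2a) (C2 := cd8q0) (C3 := pd2)
    rfl k0_pp_202_a

noncomputable def f_pp_202_b : ℕ → ℕ → ℕ → ℕ → Bool := onCell 1239849684 370763052 0 536870912 649613803 48318383
    (rowB 3 eng mog cd1q2b cd8q0 pd2 0 true true true .pp 2 0 2 (qsf 1239849684 370763052 0 536870912 2) ndB1q2b ndB8q0 pcB2 Cut.none Ext.none)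

def k0_pp_202_b : ∃ t, chk3 f_pp_202_b t 1 1 1 = true :=
  ⟨(l 4), by decide +kernel⟩

theorem c_pp_202_b : CertB 1239849684 370763052 0 536870912 649613803 48318383 3 eng mog cd1q2b cd8q0 pd2 true true true .pp 2 0 2
    ndB1q2b ndB8q0 pcB2 Cut.none Ext.none :=
  certB0 (fam := true) (s1 := true) (s2 := true) (a := 2) (b := 0) (c := 2) (cn := .pp) (n1 := ndB1q2b) (n2 := ndB8q0) (pc := pcB2) (cut := Cut.none) (xt := Ext.none) (P1 := 1239849684) (W1 := 370763052) (P2 := 0) (W2 := 536870912) (P3 := 649613803) (W3 := 48318383) (N0 := 3) (En := eng) (mo := mog) (C1 := cd1q2b) (C2 := cd8q0) (C3 := pd2)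
    rfl k0_pp_202_b

noncomputable def f_pp_203_a : ℕ → ℕ → ℕ → ℕ → Bool := onCell 0 536870912 0 536870912 649613803 48318383
    (rowB 3 eng mog cd1q2a cd8q0 pd3 0 true true true .up 2 0 3 (qsf 0 536870912 0 536870912 3) ndB1q2a ndB8q0 pcB3 Cut.none Ext.none)

def k0_pp_203_a : ∃ t, chk3 f_pp_203_a t 1 1 1 = true :=
  ⟨(l 4), by decide +kernel⟩

theorem c_pp_203_a : CertB 0 536870912 0 536870912 649613803 48318383 3 eng mog cd1q2a cd8q0 pd3 true true true .up 2 0 3
    ndB1q2a ndB8q0 pcB3 Cut.none Ext.none :=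
  certB0 (fam := true) (s1 := true) (s2 := true) (a := 2) (b := 0) (c := 3) (cn := .up) (n1 := ndB1q2a) (n2 := ndB8q0) (pc := pcB3) (cut := Cut.none) (xt := Ext.none) (P1 := 0) (W1 := 536870912) (P2 := 0) (W2 := 536870912) (P3 := 649613803) (W3 := 48318383) (N0 := 3) (En := eng) (mo := mog) (C1 := cd1q2a) (C2 := cd8q0) (C3 := pd3)
    rfl k0_pp_203_a

noncomputable def f_pp_203_b : ℕ → ℕ → ℕ → ℕ → Bool := onCell 1239849684 370763052 0 536870912 649613803 48318383
    (rowB 3 eng mog cd1q2b cd8q0 pd3 0 true true true .up 2 0 3 (qsf 1239849684 370763052 0 536870912 3) ndB1q2b ndB8q0 pcB3 Cut.none Ext.none)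

def k0_pp_203_b : ∃ t, chk3 f_pp_203_b t 1 1 1 = true :=
  ⟨(l 4), by decide +kernel⟩

theorem c_pp_203_b : CertB 1239849684 370763052 0 536870912 649613803 48318383 3 eng mog cd1q2b cd8q0 pd3 true true true .up 2 0 3
    ndB1q2b ndB8q0 pcB3 Cut.none Ext.none :=
  certB0 (fam := true) (s1 := true) (s2 := true) (a := 2) (b := 0) (c := 3) (cn := .up) (n1 := ndB1q2b) (n2 := ndB8q0) (pc := pcB3) (cut := Cut.none) (xt := Ext.none) (P1 := 1239849684) (W1 := 370763052) (P2 := 0) (W2 := 536870912) (P3 := 649613803) (W3 := 48318383) (N0 := 3) (En := eng) (mo := mog) (C1 := cd1q2b) (C2 := cd8q0) (C3 := pd3)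
    rfl k0_pp_203_b

noncomputable def f_pp_213_a : ℕ → ℕ → ℕ → ℕ → Bool := onCell 0 536870912 536870912 536870912 649613803 48318383
    (rowB 3 eng mog cd1q2a cd8q1 pd3 0 true true true .pnn 2 1 3 (qsf 0 536870912 536870912 536870912 3) ndB1q2a ndB8q1 pcB3 Cut.none Ext.none)

def k0_pp_213_a : ∃ t, chk3 f_pp_213_a t 1 1 1 = true :=
  ⟨(l 4), by decide +kernel⟩

theorem c_pp_213_a : CertB 0 536870912 536870912 536870912 649613803 48318383 3 eng mog cd1q2a cd8q1 pd3 true true true .pnn 2 1 3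
    ndB1q2a ndB8q1 pcB3 Cut.none Ext.none :=
  certB0 (fam := true) (s1 := true) (s2 := true) (a := 2) (b := 1) (c := 3) (cn := .pnn) (n1 := ndB1q2a) (n2 := ndB8q1) (pc := pcB3) (cut := Cut.none) (xt := Ext.none) (P1 := 0) (W1 := 536870912) (P2 := 536870912) (W2 := 536870912) (P3 := 649613803) (W3 := 48318383) (N0 := 3) (En := eng) (mo := mog) (C1 := cd1q2a) (C2 := cd8q1) (C3 := pd3)
    rfl k0_pp_213_a

noncomputable def f_pp_213_b : ℕ → ℕ → ℕ → ℕ → Bool := onCell 1239849684 370763052 536870912 536870912 649613803 48318383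
    (rowB 3 eng mog cd1q2b cd8q1 pd3 0 true true true .pnn 2 1 3 (qsf 1239849684 370763052 536870912 536870912 3) ndB1q2b ndB8q1 pcB3 Cut.none Ext.none)

def k0_pp_213_b : ∃ t, chk3 f_pp_213_b t 1 1 1 = true :=
  ⟨(l 4), by decide +kernel⟩

theorem c_pp_213_b : CertB 1239849684 370763052 536870912 536870912 649613803 48318383 3 eng mog cd1q2b cd8q1 pd3 true true true .pnn 2 1 3
    ndB1q2b ndB8q1 pcB3 Cut.none Ext.none :=
  certB0 (fam := true) (s1 := true) (s2 := true) (a := 2) (b := 1) (c := 3) (cn := .pnn) (n1 := ndB1q2b) (n2 := ndB8q1) (pc := pcB3) (cut := Cut.none) (xt := Ext.none) (P1 := 1239849684) (W1 := 370763052) (P2 := 536870912) (W2 := 536870912) (P3 := 649613803) (W3 := 48318383) (N0 := 3) (En := eng) (mo := mog) (C1 := cd1q2b) (C2 := cd8q1) (C3 := pd3)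
    rfl k0_pp_213_b

noncomputable def f_pp_303 : ℕ → ℕ → ℕ → ℕ → Bool := onCell 1610612736 536870912 0 536870912 649613803 48318383
    (rowB 3 eng mog cd1q3 cd8q0 pd3 0 true true true .npn 3 0 3 (qsf 1610612736 536870912 0 536870912 3) ndB1q3 ndB8q0 pcB3 Cut.none Ext.none)

def k0_pp_303 : ∃ t, chk3 f_pp_303 t 1 1 1 = true :=
  ⟨(l 4), by decide +kernel⟩

theorem c_pp_303 : CertB 1610612736 536870912 0 536870912 649613803 48318383 3 eng mog cd1q3 cd8q0 pd3 true true true .npn 3 0 3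
    ndB1q3 ndB8q0 pcB3 Cut.none Ext.none :=
  certB0 (fam := true) (s1 := true) (s2 := true) (a := 3) (b := 0) (c := 3) (cn := .npn) (n1 := ndB1q3) (n2 := ndB8q0) (pc := pcB3) (cut := Cut.none) (xt := Ext.none) (P1 := 1610612736) (W1 := 536870912) (P2 := 0) (W2 := 536870912) (P3 := 649613803) (W3 := 48318383) (N0 := 3) (En := eng) (mo := mog) (C1 := cd1q3) (C2 := cd8q0) (C3 := pd3)
    rfl k0_pp_303

noncomputable def f_pp_313 : ℕ → ℕ → ℕ → ℕ → Bool := onCell 1610612736 536870912 536870912 536870912 649613803 48318383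
    (rowB 3 eng mog cd1q3 cd8q1 pd3 0 true true true .dn 3 1 3 (qsf 1610612736 536870912 536870912 536870912 3) ndB1q3 ndB8q1 pcB3 Cut.none Ext.none)

def k0_pp_313 : ∃ t, chk3 f_pp_313 t 1 1 1 = true :=
  ⟨(l 4), by decide +kernel⟩

theorem c_pp_313 : CertB 1610612736 536870912 536870912 536870912 649613803 48318383 3 eng mog cd1q3 cd8q1 pd3 true true true .dn 3 1 3
    ndB1q3 ndB8q1 pcB3 Cut.none Ext.none :=
  certB0 (fam := true) (s1 := true) (s2 := true) (a := 3) (b := 1) (c := 3) (cn := .dn) (n1 := ndB1q3) (n2 := ndB8q1) (pc := pcB3) (cut := Cut.none) (xt := Ext.none) (P1 := 1610612736) (W1 := 536870912) (P2 := 536870912) (W2 := 536870912) (P3 := 649613803) (W3 := 48318383) (N0 := 3) (En := eng) (mo := mog) (C1 := cd1q3) (C2 := cd8q1) (C3 := pd3)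
    rfl k0_pp_313

noncomputable def f_pm_001 : ℕ → ℕ → ℕ → ℕ → Bool := onCell 0 536870912 536870912 536870912 649613803 48318383
    (rowB 3 eng mog cd1q0 cd8q0 pd1 1 true true false .up 0 0 1 (qsf 0 536870912 0 536870912 1) ndB1q0 ndB8q0 pcB1 Cut.none Ext.none)

def k0_pm_001 : ∃ t, chk3 f_pm_001 t 1 1 1 = true :=
  ⟨(a (b (l 3) (a (l 2) (b (l 3) (l 2)))) (b (b (l 3) (a (l 3) (b (l 3) (a (l 3) (b (l 3) (b (a (l 3) (l 16720088)) (a (l 16722464) (l 16698704)))))))) (b (a (b (a (l 3) (b (l 3) (a (l 3) (b (l 3) (a (l 3) (l 16707808)))))) (a (b (l 3) (l 2)) (b (a (b (l 3) (a (l 16750800) (l 16682224))) (b (a (l 16694928) (l 16667704)) (l 16693336))) (a (b (a (l 2) (l 16643168)) (l 2)) (b (l 16643800) (l 16588576)))))) (b (a (b (a (l 3) (b (l 3) (l 16720584))) (b (a (l 16772192) (l 16659128)) (a (l 16711360) (l 16613336)))) (b (b (a (l 16696216) (l 16671672)) (l 16776544)) (a (l 16657088) (l 16587432)))) (a (b (a (b (l 16625400) (l 16590224)) (l 16646720))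 (a (b (l 16554360) (l 16518512)) (l 16557480))) (b (a (l 16559288) (l 16499040)) (a (l 16472880) (l 16406088)))))) (a (b (a (l 2) (b (a (l 2) (b (l 16558672) (l 2))) (l 2))) (l 2)) (b (a (b (a (a (l 16525200) (l 16497008)) (l 16508792)) (a (l 16471280) (l 16380704))) (b (a (l 16384608) (l 16341888)) (a (l 16317144) (l 16277144)))) (a (a (l 2) (b (l 16319632) (l 2))) (a (b (l 16260200) (l 16229872)) (l 16332336)))))))), by decide +kernel⟩

theorem c_pm_001 : CertB 0 536870912 0 536870912 649613803 48318383 3 eng mog cd1q0 cd8q0 pd1 true true false .up 0 0 1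
    ndB1q0 ndB8q0 pcB1 Cut.none Ext.none :=
  certB1 (fam := true) (s1 := true) (s2 := false) (a := 0) (b := 0) (c := 1) (cn := .up) (n1 := ndB1q0) (n2 := ndB8q0) (pc := pcB1) (cut := Cut.none) (xt := Ext.none) (P1 := 0) (W1 := 536870912) (P2 := 0) (W2 := 536870912) (P3 := 649613803) (W3 := 48318383) (N0 := 3) (En := eng) (mo := mog) (C1 := cd1q0) (C2 := cd8q0) (C3 := pd1)
    rfl (fun _ => rfl) k0_pm_001

end Pool.Agent.Strip051.G.I6050_6500.Tab.C.BA18

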