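import Pool.Agent.Strip051.G.I6050_6500.Tab
import Pool.Agent.Strip051.PB.ExtD2

/-! # Certificates B13 (generated) -/

set_option linter.all false
set_option maxRecDepth 100000

namespace Pool.Agent.Strip051.G.I6050_6500.Tab.C.BA18

open Pool.Agent.Strip051.PB Pool.Agent.Strip051.PB.T
open Pool.Agent.Strip051.G.I6050_6500.Tab

noncomputable def cut_pm_011 : Cut := Cut.of [[⟨0, 0, 0, 67108864⟩, ⟨1, 1, 0, 67108864⟩, ⟨2, 1, 0, 67108864⟩]]

noncomputable def xt_pm_011 : Ext := extD2 3 ⟨7, 3, 3, 10, 377, 200, 77, 100, 17, 50, 3, 16⟩ eng cd1q0 cd8q1 pd1 true true false .pnn 0 1 1 rfl ndB1q0 ndB8q1 pcB1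

noncomputable def f_pm_011 : ℕ → ℕ → ℕ → ℕ → Bool := onCell 0 536870912 536870912 536870912 649613803 48318383
    (rowB 3 eng mog cd1q0 cd8q1 pd1 1 true true false .pnn 0 1 1 (qsf 0 536870912 536870912 536870912 1) ndB1q0 ndB8q1 pcB1 cut_pm_011 xt_pm_011)

def k0_pm_011 : ∃ t, chk3 f_pm_011 t 1 2 1 = true :=
  ⟨(a (l 3) (a (l 3) (l 1))), by decide +kernel⟩

def k1_pm_011 : ∃ t, chk3 f_pm_011 t 2 6 1 = true :=
  ⟨(a (l 3) (l 3)), by decide +kernel⟩

def k2_pm_011 : ∃ t, chk3 f_pm_011 t 4 7 1 = true :=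
  ⟨(b (l 3) (a (b (l 3) (a (b (l 3) (l 6)) (b (a (b (l 3) (a (l 3) (b (l 3) (a (l 16774808) (l 16765408))))) (a (b (l 3) (b (l 16772264) (l 16759064))) (b (b (l 3) (l 16766592)) (l 16765048)))) (b (a (b (a (l 6) (l 16759528)) (l 6)) (b (l 16757192) (l 16738640))) (a (l 6) (b (l 16730584) (l 16722496))))))) (b (a (b (l 3) (b (l 3) (a (a (l 3) (b (l 3) (l 16765816))) (b (l 16770880) (l 16752000))))) (b (a (l 3) (b (l 3) (a (l 16756688) (l 16747208)))) (b (a (b (l 16758328) (l 16749888)) (l 16735312)) (a (l 16737544) (l 16718984))))) (b (a (b (a (b (a (l 16766192) (l 16757544)) (l 16764384)) (l 16750240)) (a (a (l 16746008) (l 16737208)) (l 16723616))) (a (b (l 16721320) (l 16705200)) (l 16715696))) (a (b (b (l 16741560) (l 16733456)) (a (l 16709184) (l 16691336))) (b (l 16700928) (l 16684960))))))), by decide +kernel⟩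

def k3_pm_011 : ∃ t, chk3 f_pm_011 t 5 7 1 = true :=
  ⟨(b (a (b (l 3) (a (b (l 3) (a (l 3) (b (l 3) (l 16744896)))) (b (a (l 3) (b (l 3) (l 16734928))) (a (l 16749952) (b (l 16718472) (l 16702224)))))) (b (a (b (l 3) (a (l 3) (l 122574267447))) (b (a (l 3) (l 16734312)) (a (l 16721600) (l 16689928)))) (a (b (a (b (l 16730224) (l 16713712)) (l 16742768)) (a (l 16710384) (l 16668640))) (b (a (l 16700640) (l 16657832)) (b (l 16666032) (l 16629368)))))) (b (a (a (b (b (a (l 16750040) (l 16728376)) (l 16748968)) (b (l 16727368) (l 16690088))) (b (a (b (l 16707032) (l 16690760)) (l 16698888)) (a (l 16687368) (l 16645600)))) (b (a (a (l 16657224) (l 16636736)) (l 16647824)) (a (l 16656928) (l 16595560)))) (a (b (a (l 16707616) (a (l 16634056) (l 16613448))) (a (l 16654192) (l 597520158957820886443903))) (a (b (l 16583160) (b (l 16559504) (l 16543648))) (b (l 16564496) (l 16512512)))))), by decide +kernel⟩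

def k4_pm_011 : ∃ t, chk3 f_pm_011 t 3 3 1 = true :=
  ⟨(b (a (b (a (l 3) (a (l 3) (l 1))) (a (b (l 3) (a (b (l 3) (a (l 139754156071) (l 16752896))) (b (a (l 44728038039) (l 16717512)) (c (l 16736680) (l 16735344))))) (b (a (b (l 3) (a (l 16729560) (l 16681920))) (b (l 1) (l 16682008))) (a (b (l 16698392) (l 16620960)) (b (l 16622008) (l 16566840)))))) (b (l 1) (a (b (l 1) (a (l 16618400) (l 1))) (l 1)))) (a (b (a (b (a (b (a (l 16700296) (l 16676440)) (l 16666288)) (b (l 16660896) (l 16609128))) (a (b (l 16666656) (l 16615336)) (b (l 16600784) (l 16551104)))) (b (a (b (l 16589456) (l 16560584)) (b (l 16537024) (l 16510192))) (a (b (l 16554424) (l 16506320)) (l 16492016)))) (a (a (b (b (l 16564128) (l 16533928)) (b (l 16503600) (l 16474024))) (b (b (l 16522256) (l 16492936)) (l 16513352))) (b (a (l 16549472) (l 16483888)) (a (l 16412024) (l 16393504))))) (b (a (b (a (b (l 16484136) (l 16454576)) (l 16468432)) (a (l 16417720) (l 16358280))) (b (l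 1) (l 16382440))) (a (b (a (l 16372568) (l 16318528)) (a (l 16330096) (l 16282328))) (b (l 16276096) (l 16221056)))))), by decide +kernel⟩

theorem s5_pm_011 : ∃ t, chk3 f_pm_011 t 2 7 1 = true := ex3_a k2_pm_011 k3_pm_011

theorem s6_pm_011 : ∃ t, chk3 f_pm_011 t 2 3 1 = true := ex3_b k1_pm_011 s5_pm_011

theorem s7_pm_011 : ∃ t, chk3 f_pm_011 t 1 3 1 = true := ex3_a s6_pm_011 k4_pm_011

theorem s8_pm_011 : ∃ t, chk3 f_pm_011 t 1 1 1 = true := ex3_b k0_pm_011 s7_pm_011

theorem c_pm_011 : CertB 0 536870912 536870912 536870912 649613803 48318383 3 eng mog cd1q0 cd8q1 pd1 true true false .pnn 0 1 1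
    ndB1q0 ndB8q1 pcB1 cut_pm_011 xt_pm_011 :=
  certB1 (fam := true) (s1 := true) (s2 := false) (a := 0) (b := 1) (c := 1) (cn := .pnn) (n1 := ndB1q0) (n2 := ndB8q1) (pc := pcB1) (cut := cut_pm_011) (xt := xt_pm_011) (P1 := 0) (W1 := 536870912) (P2 := 536870912) (W2 := 536870912) (P3 := 649613803) (W3 := 48318383) (N0 := 3) (En := eng) (mo := mog) (C1 := cd1q0) (C2 := cd8q1) (C3 := pd1)
    rfl (fun _ => rfl) s8_pm_011

noncomputable def cut_pm_012 : Cut := Cut.of [[⟨0, 0, 0, 67108864⟩, ⟨1, 1, 0, 67108864⟩, ⟨2, 1, 0, 67108864⟩]]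

noncomputable def f_pm_012 : ℕ → ℕ → ℕ → ℕ → Bool := onCell 1073741824 536870912 536870912 536870912 649613803 48318383
    (rowB 3 eng mog cd1q0 cd8q1 pd2 2 true true false .pnp 0 1 2 (qsf 0 536870912 536870912 536870912 2) ndB1q0 ndB8q1 pcB2 cut_pm_012 Ext.none)

def k0_pm_012 : ∃ t, chk3 f_pm_012 t 4 2 1 = true :=
  ⟨(b (a (b (a (l 16096240) (l 16024312)) (a (l 16196680) (l 16146584))) (b (a (l 15948456) (l 2)) (a (l 16072848) (l 15995632)))) (a (b (a (b (l 16289496) (l 16351896)) (l 16469312)) (a (b (l 16370032) (l 16450344)) (b (l 16294328) (l 16328632)))) (b (a (l 16167568) (l 16095728)) (a (b (l 16221952) (l 16253528)) (l 16230224))))), by decide +kernel⟩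

def k1_pm_012 : ∃ t, chk3 f_pm_012 t 4 3 1 = true :=
  ⟨(a (b (b (a (b (a (l 16468872) (l 16425336)) (a (l 16508832) (l 16463048))) (b (l 16362528) (l 16417624))) (a (a (a (l 16624072) (l 16577808)) (b (l 16500680) (l 16559864))) (b (l 16535712) (a (l 16489128) (l 16441080))))) (a (a (b (b (b (l 16621784) (l 16640928)) (b (l 16658200) (l 16706568))) (b (b (a (l 16726616) (a (l 16684872) (l 16671112))) (a (l 6) (a (l 6) (l 16686976)))) (l 6))) (b (b (l 16598952) (b (l 16605720) (l 16674024))) (b (b (a (l 16650616) (l 16623568)) (a (b (l 16662200) (l 16669800)) (l 16638336))) (b (a (l 6) (b (l 16649120) (l 6))) (l 6))))) (b (b (a (l 16525240) (l 16474040)) (a (b (l 16573712) (l 16569144)) (b (l 16499408) (l 16516264)))) (b (a (b (l 16583536) (a (l 16610960) (l 16583896))) (b (l 16531160) (l 16543920))) (a (b (b (l 16628400) (l 16640160)) (b (a (l 6) (l 16606248)) (l 6))) (b (b (l 16553024) (l 16558880)) (b (l 16564568) (a (l 16584040) (l 16556176)))))))))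 (b (b (a (b (l 16283632) (l 16313280)) (b (l 16210176) (l 16236240))) (a (b (l 16342864) (l 16414040)) (b (l 16261424) (l 16285952)))) (b (a (b (a (l 16424720) (l 16377296)) (a (l 16455280) (l 16404592))) (b (a (l 16331768) (l 16288040)) (a (l 16355960) (l 16309400)))) (a (b (a (b (l 16478408) (l 16491624)) (b (l 16425472) (l 16439040))) (b (a (l 16502544) (l 16450352)) (a (b (l 16510152) (l 16514944)) (l 16501136)))) (b (a (l 16380240) (l 16351144)) (b (a (l 16397888) (l 16345312)) (a (l 16428000) (a (l 16368032) (l 16341592))))))))), by decide +kernel⟩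

def k2_pm_012 : ∃ t, chk3 f_pm_012 t 5 1 1 = true :=
  ⟨(b (a (b (b (l 2) (a (a (l 15935336) (l 2)) (l 2))) (a (a (b (l 16040632) (l 16115824)) (b (a (l 16012496) (l 16079032)) (a (l 16090512) (l 16118216)))) (b (a (l 15963760) (l 15949672)) (l 16039856)))) (b (l 2) (b (l 15969528) (l 16016632)))) (b (a (a (a (b (l 16170648) (l 16215704)) (b (a (l 16145784) (a (l 16134016) (l 16128024))) (a (l 16188648) (a (l 16175888) (l 16315800))))) (b (l 16137344) (b (l 16125032) (l 16140448)))) (b (l 16051104) (b (l 16064920) (l 16069216)))) (a (b (a (a (b (l 16246240) (l 16264960)) (a (b (l 16216344) (l 16233048)) (a (b (l 16202088) (l 16217632)) (b (l 16193680) (a (l 16210152) (l 16205360)))))) (b (l 16153336) (a (l 16182976) (l 16145968)))) (b (a (a (l 16324216) (a (l 16247808) (a (l 16230992) (a (l 16222624) (l 16216976))))) (a (l 16193224) (l 16152664))) (a (a (b (l 16294416) (l 16301952)) (a (b (l 16257664) (l 16263504)) (a (l 16242080) (a (l 16232584)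 (b (l 16223920) (l 16227600)))))) (a (b (l 16198784) (l 16201416)) (l 16155864))))) (b (b (l 16133096) (a (l 16097152) (l 16043224))) (b (a (l 16097328) (l 16035104)) (a (b (l 16095552) (l 16093048)) (b (l 16027032) (l 16020488)))))))), by decide +kernel⟩

def k3_pm_012 : ∃ t, chk3 f_pm_012 t 3 1 1 = true :=
  ⟨(b (a (b (l 2) (a (b (l 2) (l 16025744)) (l 2))) (l 2)) (a (b (a (b (l 16025048) (l 16016728)) (b (l 16042808) (a (l 16004936) (l 16014232)))) (a (b (b (l 16000600) (l 16069312)) (b (a (l 15986256) (l 15950584)) (a (b (l 15972288) (l 15961696)) (l 15924384)))) (b (a (l 15965680) (l 15964000)) (a (b (l 15927256) (a (l 15901456) (l 15890496))) (b (l 15917608) (l 15880696)))))) (b (a (b (l 2) (l 16051640)) (l 2)) (a (b (a (l 15974976) (l 15997632)) (a (b (l 15919840) (l 15878112)) (l 15911088))) (b (a (l 16034472) (l 2)) (a (l 15938112) (l 15979416))))))), by decide +kernel⟩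

theorem s4_pm_012 : ∃ t, chk3 f_pm_012 t 4 1 1 = true := ex3_b k0_pm_012 k1_pm_012

theorem s5_pm_012 : ∃ t, chk3 f_pm_012 t 2 1 1 = true := ex3_a s4_pm_012 k2_pm_012

theorem s6_pm_012 : ∃ t, chk3 f_pm_012 t 1 1 1 = true := ex3_a s5_pm_012 k3_pm_012

theorem c_pm_012 : CertB 0 536870912 536870912 536870912 649613803 48318383 3 eng mog cd1q0 cd8q1 pd2 true true false .pnp 0 1 2
    ndB1q0 ndB8q1 pcB2 cut_pm_012 Ext.none :=
  certB2 (fam := true) (s1 := true) (s2 := false) (a := 0) (b := 1) (c := 2) (cn := .pnp) (n1 := ndB1q0) (n2 := ndB8q1) (pc := pcB2) (cut := cut_pm_012) (xt := Ext.none) (P1 := 0) (W1 := 536870912) (P2 := 536870912) (W2 := 536870912) (P3 := 649613803) (W3 := 48318383) (N0 := 3) (En := eng) (mo := mog) (C1 := cd1q0) (C2 := cd8q1) (C3 := pd2)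
    rfl (fun _ => rfl) s6_pm_012

noncomputable def cut_pm_022 : Cut := Cut.of [[⟨0, 0, 0, 67108864⟩, ⟨1, 1, 0, 67108864⟩, ⟨2, 1, 0, 67108864⟩]]

noncomputable def f_pm_022 : ℕ → ℕ → ℕ → ℕ → Bool := onCell 1073741824 536870912 1073741824 536870912 649613803 48318383
    (rowB 3 eng mog cd1q0 cd8q2 pd2 2 true true false .pp 0 2 2 (qsf 0 536870912 1073741824 536870912 2) ndB1q0 ndB8q2 pcB2 cut_pm_022 Ext.none)

def k0_pm_022 : ∃ t, chk3 f_pm_022 t 4 2 1 = true :=
  ⟨(b (a (b (a (b (l 6) (b (l 6) (l 1))) (b (a (l 6) (a (l 6) (b (l 16573536) (l 16601560)))) (a (b (l 6) (a (l 1) (l 641594111447))) (b (a (l 6) (l 16627608)) (a (b (l 6) (l 548715409655)) (b (l 16645872) (l 510597487063))))))) (a (l 1) (b (b (a (l 1) (l 608308023799)) (l 1)) (l 1)))) (a (b (b (a (b (b (l 16524712) (l 16539232)) (l 16591448)) (b (l 16477944) (l 16505920))) (a (b (b (l 16579736) (l 16613176)) (l 16631024)) (b (l 16552824) (l 16597960)))) (b (b (a (a (l 434898710535) (l 16618560))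 (l 16578176)) (a (l 620119161159) (a (l 410739471895) (l 16585272)))) (a (l 1) (l 606160452839)))) (b (b (a (b (l 16425192) (l 16453144)) (b (l 16394568) (l 16401624))) (a (b (l 16479120) (l 16503192)) (b (l 16427600) (l 16451840)))) (a (b (b (l 16546560) (l 16546048)) (b (l 250751912311) (l 564284457799))) (a (b (l 16518480) (l 155188903975)) (b (l 16493008) (l 16509976))))))) (a (l 1) (b (a (l 1) (a (l 1) (b (l 550325748983) (l 1)))) (l 1)))), by decide +kernel⟩

def k1_pm_022 : ∃ t, chk3 f_pm_022 t 5 2 1 = true :=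
  ⟨(a (a (b (a (b (b (b (a (l 16335104) (l 16309016)) (l 16351160)) (l 16431384)) (a (b (l 16446736) (l 16485016)) (b (l 16421744) (l 16481200)))) (a (b (b (b (l 16282784) (l 16313480)) (l 16352272)) (b (l 16396984) (b (l 16426000) (l 16443680)))) (b (b (a (l 16278968) (a (l 16268752) (b (l 16245560) (l 16276424)))) (a (l 16333504) (a (l 16323576) (l 16316184)))) (a (b (l 16378152) (l 16415904)) (b (a (l 16368152) (l 16360640)) (a (l 16405944) (l 16419304))))))) (b (b (a (b (l 124050331191) (l 424697969735)) (a (l 16508480) (a (l 16447592) (a (b (l 16429656) (l 16443760)) (a (a (a (l 16432504) (a (l 16431416) (b (l 16423432) (l 16436864)))) (l 16429312)) (l 16427184)))))) (a (l 1) (a (l 1) (a (l 1) (a (l 1) (a (l 1) (l 16493240))))))) (l 1))) (b (b (b (a (b (l 16218776) (l 16249584)) (l 16188016)) (a (l 16311000) (l 16244416))) (a (b (l 16335000) (l 16372808)) (b (l 16290456) (l 16328800)))) (b (b (a (b (l 16396496) (l 16410016)) (l 16360096)) (b (l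 16421864) (l 85395470935))) (b (l 413960314471) (l 1))))) (b (b (b (a (b (l 16107632) (l 16138360)) (b (l 16032888) (l 16063240))) (a (l 16179888) (l 16104488))) (b (a (l 16227120) (l 16151976)) (a (l 16266384) (l 16191376)))) (b (b (a (l 16298848) (l 16224088)) (a (l 16325088) (l 16251400))) (b (a (l 16406200) (l 16271112)) (a (l 336651001751) (l 16281384)))))), by decide +kernel⟩

def k2_pm_022 : ∃ t, chk3 f_pm_022 t 2 3 1 = true :=
  ⟨(a (l 1) (a (l 1) (b (b (b (l 482142693287) (l 1)) (l 1)) (l 1)))), by decide +kernel⟩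

def k3_pm_022 : ∃ t, chk3 f_pm_022 t 3 1 1 = true :=
  ⟨(b (a (b (b (a (b (a (b (l 15971528) (l 16000992)) (l 15938512)) (a (l 16041288) (l 15990760))) (a (b (l 15946376) (l 15953480)) (b (l 15884864) (l 15929784)))) (a (b (a (l 16088304) (l 16036048)) (l 16099976)) (a (b (l 15996024) (l 16032912)) (l 15986552)))) (a (b (b (l 16194576) (a (l 16185312) (l 16129496))) (b (l 16239728) (a (l 16218632) (l 16162888)))) (b (a (l 16076168) (l 16043888)) (b (l 16210656) (l 16094408))))) (b (a (b (a (b (l 15877632) (l 15918552)) (l 16045656)) (a (l 15969728) (l 15962984))) (b (a (l 15912336) (l 15939328)) (l 16202096))) (b (a (a (l 16021760) (l 16009128)) (l 16009320)) (a (a (l 16049848) (l 16034360)) (l 16028440))))) (a (b (b (a (b (a (l 16220152) (l 16166952)) (l 235719082663)) (b (l 16098024) (l 16092464))) (a (b (l 443487889575) (l 1)) (a (l 313565140887) (l 200285387655)))) (a (l 1) (b (b (l 498785162839) (l 1)) (l 1)))) (b (b (a (b (l 16039080) (l 16026800))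 (l 16017680)) (a (b (l 16003992) (l 15970648)) (l 15956552))) (b (a (b (l 16169528) (l 279204866231)) (b (l 15910376) (l 15933312))) (a (b (l 351682384743) (l 1)) (b (l 15943112) (l 15941184))))))), by decide +kernel⟩

theorem s4_pm_022 : ∃ t, chk3 f_pm_022 t 2 2 1 = true := ex3_a k0_pm_022 k1_pm_022

theorem s5_pm_022 : ∃ t, chk3 f_pm_022 t 2 1 1 = true := ex3_b s4_pm_022 k2_pm_022

theorem s6_pm_022 : ∃ t, chk3 f_pm_022 t 1 1 1 = true := ex3_a s5_pm_022 k3_pm_022

theorem c_pm_022 : CertB 0 536870912 1073741824 536870912 649613803 48318383 3 eng mog cd1q0 cd8q2 pd2 true true false .pp 0 2 2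
    ndB1q0 ndB8q2 pcB2 cut_pm_022 Ext.none :=
  certB2 (fam := true) (s1 := true) (s2 := false) (a := 0) (b := 2) (c := 2) (cn := .pp) (n1 := ndB1q0) (n2 := ndB8q2) (pc := pcB2) (cut := cut_pm_022) (xt := Ext.none) (P1 := 0) (W1 := 536870912) (P2 := 1073741824) (W2 := 536870912) (P3 := 649613803) (W3 := 48318383) (N0 := 3) (En := eng) (mo := mog) (C1 := cd1q0) (C2 := cd8q2) (C3 := pd2)
    rfl (fun _ => rfl) s6_pm_022

noncomputable def f_pm_023 : ℕ → ℕ → ℕ → ℕ → Bool := onCell 1610612736 536870912 1073741824 536870912 649613803 48318383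
    (rowB 3 eng mog cd1q0 cd8q2 pd3 2 true true false .up 0 2 3 (qsf 0 536870912 1073741824 536870912 3) ndB1q0 ndB8q2 pcB3 Cut.none Ext.none)

def k0_pm_023 : ∃ t, chk3 f_pm_023 t 1 1 1 = true :=
  ⟨(b (a (a (a (b (b (l 15905872) (l 15961224)) (b (l 16005440) (l 16029256))) (a (b (a (l 199815340871) (l 193909714935)) (l 16032624)) (b (l 182098455287) (l 16046464)))) (a (b (a (a (l 164918484599) (l 2)) (l 2)) (a (b (l 16044408) (l 16082704)) (b (l 16091136) (l 16116168)))) (b (l 2) (b (l 16159144) (l 16173792))))) (a (b (l 2) (a (b (l 2) (l 16260992)) (l 2))) (l 2))) (b (a (a (a (b (l 16019104) (l 15951488)) (b (l 16059528) (l 16005584))) (a (b (a (l 16099912) (l 16127984)) (a (l 16065976) (l 16102080))) (b (l 16183768) (l 16179616)))) (a (a (b (l 16285904) (l 16314568)) (b (l 16362120) (l 16397112))) (a (a (b (l 2) (l 16451752)) (l 2)) (l 2)))) (a (a (b (a (l 15891312) (l 15841088)) (a (l 15953032) (l 15943976))) (a (b (a (l 15920472) (l 16016840))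 (l 15983768)) (b (l 16182600) (l 16191248)))) (a (a (b (l 16335040) (l 16350112)) (b (l 16435408) (l 16457160))) (a (b (l 16500904) (l 16529344)) (a (b (l 16547328) (l 16574176)) (a (l 16572896) (a (l 16573864) (l 4))))))))), by decide +kernel⟩

theorem c_pm_023 : CertB 0 536870912 1073741824 536870912 649613803 48318383 3 eng mog cd1q0 cd8q2 pd3 true true false .up 0 2 3
    ndB1q0 ndB8q2 pcB3 Cut.none Ext.none :=
  certB2 (fam := true) (s1 := true) (s2 := false) (a := 0) (b := 2) (c := 3) (cn := .up) (n1 := ndB1q0) (n2 := ndB8q2) (pc := pcB3) (cut := Cut.none) (xt := Ext.none) (P1 := 0) (W1 := 536870912) (P2 := 1073741824) (W2 := 536870912) (P3 := 649613803) (W3 := 48318383) (N0 := 3) (En := eng) (mo := mog) (C1 := cd1q0) (C2 := cd8q2) (C3 := pd3)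
    rfl (fun _ => rfl) k0_pm_023

noncomputable def f_pm_033 : ℕ → ℕ → ℕ → ℕ → Bool := onCell 1610612736 536870912 0 1230186008 649613803 48318383
    (rowB 3 eng mog cd1q0 cd8q3 pd3 2 true true false .pnn 0 3 3 (qsf 0 536870912 0 1230186008 3) ndB1q0 ndB8q3 pcB3 Cut.none Ext.none)

def k0_pm_033 : ∃ t, chk3 f_pm_033 t 1 1 1 = true :=
  ⟨(a (b (l 1) (b (b (l 1) (a (l 1) (a (l 1) (b (l 1) (l 560526190087))))) (b (a (l 1) (a (l 488584907543) (b (l 16212704) (l 16196272)))) (a (b (l 477847569671) (a (l 139618825015) (l 15985760))) (b (l 16129496) (a (l 16025960) (l 16194376))))))) (a (b (l 1) (b (b (a (l 1) (b (a (l 1) (l 16472456)) (a (l 16304072) (l 16337320)))) (a (b (a (l 475700629303) (l 16273768)) (l 437582817783)) (b (a (l 16302160) (l 16343944)) (l 16321592)))) (b (b (a (l 16270760) (l 16343328)) (l 16339072)) (b (a (l 16310160) (l 16420824)) (a (l 16340424) (l 16453784)))))) (b (b (l 4) (a (b (a (l 1) (l 4)) (a (l 613139840343) (l 16399608)))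 (a (b (l 4) (l 16408200)) (l 4)))) (b (a (b (a (b (l 16377248) (l 16382904)) (b (l 16411080) (l 16415624))) (b (a (l 16375728) (l 16416128)) (l 16415840))) (a (b (a (l 16432872) (l 16441096)) (b (l 16466192) (l 16483320))) (a (b (l 16450912) (l 16506040)) (b (l 4) (a (l 16516728) (b (l 4) (l 596698470679))))))) (a (b (b (l 16433048) (l 16471520)) (b (l 16512840) (l 16617120))) (a (b (b (l 16503664) (l 16533832)) (l 16573136)) (b (a (l 16715088) (a (l 16646072) (a (l 16569264) (l 16804120)))) (a (b (l 16586096) (l 16596216)) (a (b (l 16595064) (l 16605008)) (a (l 16605592) (l 16607856))))))))))), by decide +kernel⟩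

theorem c_pm_033 : CertB 0 536870912 0 1230186008 649613803 48318383 3 eng mog cd1q0 cd8q3 pd3 true true false .pnn 0 3 3
    ndB1q0 ndB8q3 pcB3 Cut.none Ext.none :=
  certB2 (fam := true) (s1 := true) (s2 := false) (a := 0) (b := 3) (c := 3) (cn := .pnn) (n1 := ndB1q0) (n2 := ndB8q3) (pc := pcB3) (cut := Cut.none) (xt := Ext.none) (P1 := 0) (W1 := 536870912) (P2 := 0) (W2 := 1230186008) (P3 := 649613803) (W3 := 48318383) (N0 := 3) (En := eng) (mo := mog) (C1 := cd1q0) (C2 := cd8q3) (C3 := pd3)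
    rfl (fun _ => rfl) k0_pm_033

noncomputable def f_pm_101 : ℕ → ℕ → ℕ → ℕ → Bool := onCell 536870912 536870912 536870912 536870912 649613803 48318383
    (rowB 3 eng mog cd1q1 cd8q0 pd1 1 true true false .npn 1 0 1 (qsf 536870912 536870912 0 536870912 1) ndB1q1 ndB8q0 pcB1 Cut.none Ext.none)

def k0_pm_101 : ∃ t, chk3 f_pm_101 t 1 2 1 = true :=
  ⟨(a (b (a (b (l 3) (a (l 3) (b (l 3) (a (l 3) (l 190756924151))))) (a (b (l 1) (b (l 1) (b (l 1) (l 142841184023)))) (l 1))) (a (b (a (b (l 3) (a (l 3) (b (l 3) (l 177335117639)))) (b (a (l 188072567959) (b (l 16710336) (l 16699216))) (a (b (l 16706872) (l 16693816)) (b (l 16686984) (l 16673784))))) (a (b (a (b (l 205789281319) (l 16700456)) (b (l 16698440) (l 16681808))) (a (b (l 16681600) (l 16657928)) (l 16651296))) (b (a (l 16670776) (l 16650640)) (a (l 16632168) (l 16615208))))) (b (b (a (a (l 16686088) (l 16670848)) (l 1)) (a (a (l 16659976) (l 16640624)) (l 16620312))) (a (b (a (l 16632408) (l 16610976))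 (l 16588480)) (l 16567816))))) (b (l 1) (a (a (b (l 1) (l 144988629991)) (l 1)) (l 1)))), by decide +kernel⟩

def k1_pm_101 : ∃ t, chk3 f_pm_101 t 1 3 1 = true :=
  ⟨(a (b (a (b (a (b (a (l 16615352) (l 16600128)) (a (b (l 16566488) (l 16529720)) (l 16539712))) (b (a (l 16585912) (l 16570872)) (l 16522440))) (a (b (a (l 16463480) (l 16460552)) (l 16403448)) (b (l 16452064) (l 16369464)))) (b (a (l 16546488) (l 16639240)) (a (b (l 16441984) (l 16371008)) (b (l 16424512) (l 16365536))))) (a (b (a (a (l 16347512) (l 16250288)) (a (l 16207136) (l 16223064))) (a (b (l 16198560) (a (l 16137760) (l 16082432))) (a (l 16092392) (l 16014328)))) (b (a (b (l 16287600) (l 16188992)) (l 16251184)) (a (b (l 16069584) (l 15963896)) (l 16043888))))) (a (b (b (a (a (l 16464744) (l 16449544)) (a (l 16434136) (l 1))) (a (l 16371032) (b (l 16355696) (l 16308168)))) (b (a (l 16254544) (l 16234632)) (a (l 16072776) (l 16080352)))) (b (a (b (l 1) (b (l 1) (a (l 16282840)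 (l 1)))) (l 1)) (b (a (a (l 16212728) (b (a (l 16222648) (l 1)) (a (l 16169936) (l 16160776)))) (b (l 1) (a (b (l 1) (l 199211274167)) (l 1)))) (a (a (l 16081048) (b (l 16110296) (l 16023912))) (b (a (l 180957580375) (l 177736393111)) (l 169146360503))))))), by decide +kernel⟩

theorem s2_pm_101 : ∃ t, chk3 f_pm_101 t 1 1 1 = true := ex3_b k0_pm_101 k1_pm_101

theorem c_pm_101 : CertB 536870912 536870912 0 536870912 649613803 48318383 3 eng mog cd1q1 cd8q0 pd1 true true false .npn 1 0 1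
    ndB1q1 ndB8q0 pcB1 Cut.none Ext.none :=
  certB1 (fam := true) (s1 := true) (s2 := false) (a := 1) (b := 0) (c := 1) (cn := .npn) (n1 := ndB1q1) (n2 := ndB8q0) (pc := pcB1) (cut := Cut.none) (xt := Ext.none) (P1 := 536870912) (W1 := 536870912) (P2 := 0) (W2 := 536870912) (P3 := 649613803) (W3 := 48318383) (N0 := 3) (En := eng) (mo := mog) (C1 := cd1q1) (C2 := cd8q0) (C3 := pd1)
    rfl (fun _ => rfl) s2_pm_101

noncomputable def f_pm_102 : ℕ → ℕ → ℕ → ℕ → Bool := onCell 536870912 536870912 1073741824 536870912 649613803 48318383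
    (rowB 3 eng mog cd1q1 cd8q0 pd2 1 true true false .npp 1 0 2 (qsf 536870912 536870912 0 536870912 2) ndB1q1 ndB8q0 pcB2 Cut.none Ext.none)

def k0_pm_102 : ∃ t, chk3 f_pm_102 t 1 1 1 = true :=
  ⟨(a (b (b (a (b (a (b (a (l 16056072) (l 16000320)) (a (l 16048680) (l 15992896))) (b (l 15987520) (l 15953224))) (a (b (a (l 2) (l 15959960)) (l 2)) (b (l 15896296) (a (l 15919688) (l 15879392))))) (b (a (b (l 15908048) (l 15880984)) (a (l 15895176) (l 15913312))) (a (b (l 15855176) (l 15808904)) (a (l 15848208) (l 15896616))))) (a (b (a (l 2) (b (a (l 2) (l 15857584)) (l 2))) (l 2)) (b (a (b (l 15824672) (b (l 15783016) (l 15817112))) (b (l 15849592) (l 15841680))) (a (b (l 15899952) (l 2)) (l 16083760))))) (a (l 2) (b (b (a (l 2) (l 16094168)) (l 2)) (l 2)))) (b (b (a (b (a (a (l 15943184) (l 15967440)) (b (l 16002824) (l 15985760))) (a (l 15946984) (l 16092840))) (b (a (b (l 15993336) (l 15996568)) (a (l 15991184) (l 15994056))) (a (l 16016080) (b (l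 16034504) (l 16063248))))) (a (b (a (b (l 15941224) (l 15944328)) (b (l 15992136) (l 16006904))) (a (l 16030520) (l 16113904))) (b (b (a (l 16041344) (l 16092952)) (a (l 16070400) (l 16132336))) (a (l 16185672) (l 16248288))))) (b (a (b (a (l 16154448) (l 16254664)) (a (l 16273920) (l 16379920))) (b (a (l 16336008) (l 16394120)) (a (l 16466256) (l 16529688)))) (a (b (a (l 2) (l 16486696)) (l 2)) (a (b (l 16578640) (l 16642576)) (b (l 16652208) (l 16716560))))))), by decide +kernel⟩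

theorem c_pm_102 : CertB 536870912 536870912 0 536870912 649613803 48318383 3 eng mog cd1q1 cd8q0 pd2 true true false .npp 1 0 2
    ndB1q1 ndB8q0 pcB2 Cut.none Ext.none :=
  certB1 (fam := true) (s1 := true) (s2 := false) (a := 1) (b := 0) (c := 2) (cn := .npp) (n1 := ndB1q1) (n2 := ndB8q0) (pc := pcB2) (cut := Cut.none) (xt := Ext.none) (P1 := 536870912) (W1 := 536870912) (P2 := 0) (W2 := 536870912) (P3 := 649613803) (W3 := 48318383) (N0 := 3) (En := eng) (mo := mog) (C1 := cd1q1) (C2 := cd8q0) (C3 := pd2)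
    rfl (fun _ => rfl) k0_pm_102

noncomputable def f_pm_112 : ℕ → ℕ → ℕ → ℕ → Bool := onCell 536870912 536870912 1073741824 536870912 649613803 48318383
    (rowB 3 eng mog cd1q1 cd8q1 pd2 1 true true false .dn 1 1 2 (qsf 536870912 536870912 536870912 536870912 2) ndB1q1 ndB8q1 pcB2 Cut.none Ext.none)

def k0_pm_112 : ∃ t, chk3 f_pm_112 t 1 1 1 = true :=
  ⟨(b (a (b (a (b (a (b (l 16089008) (l 15998944)) (b (l 1) (l 15929552))) (a (b (a (l 16034352) (l 15980208)) (l 16094232)) (b (l 15915240) (l 15919000)))) (b (l 1) (a (b (l 1) (l 15828184)) (l 1)))) (a (b (b (a (b (l 15971456) (b (l 15961504) (l 16123808))) (l 15876776)) (a (b (l 15944384) (l 15956696)) (b (l 15858480) (l 15883032)))) (a (a (l 16018928) (l 15998408)) (l 16058376))) (b (b (a (l 15802448) (l 1)) (a (l 15884240) (l 15844336))) (a (l 15945632) (l 15938008))))) (b (l 1) (b (l 1) (a (a (l 16033856) (l 1)) (l 1))))) (a (b (a (b (a (l 16038432) (l 16048808)) (a (l 16039872) (l 16083544)))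 (b (a (l 16066056) (l 16097496)) (a (l 16131488) (l 16194848)))) (a (b (a (l 16059568) (l 16111264)) (a (a (l 16011264) (l 16065224)) (l 16136464))) (b (l 16226152) (l 16283976)))) (b (a (b (a (l 16157808) (l 16257408)) (a (l 16278024) (l 16383200))) (b (l 1) (a (l 16469480) (l 1)))) (a (b (l 16443672) (l 16513368)) (b (a (l 16582808) (l 16656424)) (a (l 16648264) (l 16721784))))))), by decide +kernel⟩

theorem c_pm_112 : CertB 536870912 536870912 536870912 536870912 649613803 48318383 3 eng mog cd1q1 cd8q1 pd2 true true false .dn 1 1 2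
    ndB1q1 ndB8q1 pcB2 Cut.none Ext.none :=
  certB1 (fam := true) (s1 := true) (s2 := false) (a := 1) (b := 1) (c := 2) (cn := .dn) (n1 := ndB1q1) (n2 := ndB8q1) (pc := pcB2) (cut := Cut.none) (xt := Ext.none) (P1 := 536870912) (W1 := 536870912) (P2 := 536870912) (W2 := 536870912) (P3 := 649613803) (W3 := 48318383) (N0 := 3) (En := eng) (mo := mog) (C1 := cd1q1) (C2 := cd8q1) (C3 := pd2)
    rfl (fun _ => rfl) k0_pm_112

noncomputable def f_pm_113 : ℕ → ℕ → ℕ → ℕ → Bool := onCell 1610612736 536870912 536870912 536870912 649613803 48318383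
    (rowB 3 eng mog cd1q1 cd8q1 pd3 2 true true false .nn 1 1 3 (qsf 536870912 536870912 536870912 536870912 3) ndB1q1 ndB8q1 pcB3 Cut.none Ext.none)

def k0_pm_113 : ∃ t, chk3 f_pm_113 t 1 1 1 = true :=
  ⟨(b (a (a (a (b (b (l 16755016) (l 16693072)) (b (l 16576456) (l 16472504))) (b (b (l 16735712) (l 16707960)) (b (l 16644240) (l 16543096)))) (b (a (b (l 2) (l 4)) (l 2)) (a (l 16614520) (l 16575192)))) (l 4)) (b (a (a (a (b (l 16375296) (l 16251496)) (a (l 16380936) (l 16395792))) (a (b (l 16514232) (l 16413392)) (l 16515240))) (a (a (l 16519376) (l 4)) (l 4))) (a (a (a (b (l 16105968) (b (l 16013608) (l 15947888))) (b (l 16217712) (a (l 16028920) (l 16103528)))) (a (a (b (l 16287184) (l 16163016)) (b (l 16326648) (l 16218560))) (b (l 16395040) (a (l 16266632) (l 16314872))))) (a (a (b (l 16458744) (a (l 16359696) (l 16398984))) (a (l 16446064) (l 4))) (l 4))))), by decide +kernel⟩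

theorem c_pm_113 : CertB 536870912 536870912 536870912 536870912 649613803 48318383 3 eng mog cd1q1 cd8q1 pd3 true true false .nn 1 1 3
    ndB1q1 ndB8q1 pcB3 Cut.none Ext.none :=
  certB2 (fam := true) (s1 := true) (s2 := false) (a := 1) (b := 1) (c := 3) (cn := .nn) (n1 := ndB1q1) (n2 := ndB8q1) (pc := pcB3) (cut := Cut.none) (xt := Ext.none) (P1 := 536870912) (W1 := 536870912) (P2 := 536870912) (W2 := 536870912) (P3 := 649613803) (W3 := 48318383) (N0 := 3) (En := eng) (mo := mog) (C1 := cd1q1) (C2 := cd8q1) (C3 := pd3)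
    rfl (fun _ => rfl) k0_pm_113

noncomputable def f_pm_123 : ℕ → ℕ → ℕ → ℕ → Bool := onCell 536870912 536870912 1610612736 536870912 649613803 48318383
    (rowB 3 eng mog cd1q1 cd8q2 pd3 1 true true false .npn 1 2 3 (qsf 536870912 536870912 1073741824 536870912 3) ndB1q1 ndB8q2 pcB3 Cut.none Ext.none)

def k0_pm_123 : ∃ t, chk3 f_pm_123 t 1 1 1 = true :=
  ⟨(a (a (b (b (b (a (l 272762755719) (l 427918029815)) (a (b (l 15967936) (l 16013688)) (a (l 266320080903) (l 271152014903)))) (b (b (a (b (l 16048696) (l 16070832)) (b (l 16050064) (l 16077784))) (a (b (l 16117120) (l 16149680)) (l 16134088))) (a (l 16203328) (l 16198272)))) (b (b (a (l 16300104) (l 16289832)) (a (b (l 16376328) (l 16432176)) (b (l 16359824) (l 16406792)))) (b (a (l 16507720) (b (l 16459048) (l 16501824))) (b (a (l 16576832) (l 16537944)) (b (a (l 16597664) (l 4)) (b (l 16586864) (l 4))))))) (b (b (b (l 1) (a (b (l 1) (l 16047136)) (l 1))) (b (a (b (l 147134762263) (l 16145264))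 (b (l 1) (l 16179920))) (a (l 16290112) (l 16235072)))) (b (b (a (l 16288088) (b (l 16288752) (l 16320360))) (a (b (l 16350816) (l 16392496)) (b (l 16351160) (l 16380912)))) (b (b (l 16536784) (l 16466304)) (b (l 16724064) (l 4)))))) (b (b (l 1) (a (b (l 1) (a (l 490733074423) (l 1))) (l 1))) (b (a (b (a (b (l 16325496) (l 16348376)) (b (l 1) (l 16408056))) (b (l 16547600) (l 16531712))) (b (l 1) (l 4))) (a (a (l 4) (l 4)) (l 4))))), by decide +kernel⟩

theorem c_pm_123 : CertB 536870912 536870912 1073741824 536870912 649613803 48318383 3 eng mog cd1q1 cd8q2 pd3 true true false .npn 1 2 3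
    ndB1q1 ndB8q2 pcB3 Cut.none Ext.none :=
  certB1 (fam := true) (s1 := true) (s2 := false) (a := 1) (b := 2) (c := 3) (cn := .npn) (n1 := ndB1q1) (n2 := ndB8q2) (pc := pcB3) (cut := Cut.none) (xt := Ext.none) (P1 := 536870912) (W1 := 536870912) (P2 := 1073741824) (W2 := 536870912) (P3 := 649613803) (W3 := 48318383) (N0 := 3) (En := eng) (mo := mog) (C1 := cd1q1) (C2 := cd8q2) (C3 := pd3)
    rfl (fun _ => rfl) k0_pm_123

noncomputable def f_pm_133 : ℕ → ℕ → ℕ → ℕ → Bool := onCell 536870912 536870912 0 1230186008 649613803 48318383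
    (rowB 3 eng mog cd1q1 cd8q3 pd3 0 true true false .dn 1 3 3 (qsf 536870912 536870912 0 1230186008 3) ndB1q1 ndB8q3 pcB3 Cut.none Ext.none)

def k0_pm_133 : ∃ t, chk3 f_pm_133 t 1 1 1 = true :=
  ⟨(b (l 2) (b (l 2) (a (b (l 2) (a (l 4) (l 2))) (l 2)))), by decide +kernel⟩

theorem c_pm_133 : CertB 536870912 536870912 0 1230186008 649613803 48318383 3 eng mog cd1q1 cd8q3 pd3 true true false .dn 1 3 3
    ndB1q1 ndB8q3 pcB3 Cut.none Ext.none :=
  certB0 (fam := true) (s1 := true) (s2 := false) (a := 1) (b := 3) (c := 3) (cn := .dn) (n1 := ndB1q1) (n2 := ndB8q3) (pc := pcB3) (cut := Cut.none) (xt := Ext.none) (P1 := 536870912) (W1 := 536870912) (P2 := 0) (W2 := 1230186008) (P3 := 649613803) (W3 := 48318383) (N0 := 3) (En := eng) (mo := mog) (C1 := cd1q1) (C2 := cd8q3) (C3 := pd3)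
    rfl k0_pm_133

noncomputable def f_pm_202_a : ℕ → ℕ → ℕ → ℕ → Bool := onCell 0 536870912 0 536870912 649613803 48318383
    (rowB 3 eng mog cd1q2a cd8q0 pd2 0 true true false .pp 2 0 2 (qsf 0 536870912 0 536870912 2) ndB1q2a ndB8q0 pcB2 Cut.none Ext.none)

def k0_pm_202_a : ∃ t, chk3 f_pm_202_a t 1 1 1 = true :=
  ⟨(b (a (l 4) (b (a (b (a (b (l 16031712) (l 16075368)) (b (a (l 15994392) (l 15973536)) (l 16019432))) (a (b (l 16123152) (l 4)) (b (l 16064192) (l 16117664)))) (a (b (b (a (l 15956280) (b (l 15936904) (l 15949680))) (a (l 15989344) (l 15974904))) (b (l 16024704) (l 16078872))) (b (a (b (b (a (l 15928976) (l 15924656)) (l 15939520)) (l 15967136)) (b (a (b (b (a (l 15920856) (l 15919440)) (l 15925608)) (l 15937800)) (b (a (b (b (l 15917376) (l 15920168)) (l 15926008)) (b (a (l 15919488) (l 15922800)) (l 15931104))) (a (l 15941960) (l 15950608)))) (a (l 15971400) (b (l 15973336) (l 15995136))))) (a (b (l 16015664) (l 16073384)) (b (l 16036040)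 (l 16074272)))))) (a (a (l 4) (b (l 16206136) (b (l 16300792) (l 4)))) (b (a (b (l 16143704) (l 16213032)) (b (a (l 16141064) (l 16114864)) (a (l 16215824) (l 16167928)))) (a (l 16318640) (a (l 16302912) (l 16264168))))))) (a (l 4) (a (l 4) (a (b (b (b (l 16422000) (l 16475000)) (b (l 16525896) (l 4))) (l 4)) (b (b (b (l 16372104) (l 16429448)) (b (l 16487088) (l 16541480))) (b (b (l 16590568) (l 16629464)) (b (l 16655944) (l 4)))))))), by decide +kernel⟩

theorem c_pm_202_a : CertB 0 536870912 0 536870912 649613803 48318383 3 eng mog cd1q2a cd8q0 pd2 true true false .pp 2 0 2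
    ndB1q2a ndB8q0 pcB2 Cut.none Ext.none :=
  certB0 (fam := true) (s1 := true) (s2 := false) (a := 2) (b := 0) (c := 2) (cn := .pp) (n1 := ndB1q2a) (n2 := ndB8q0) (pc := pcB2) (cut := Cut.none) (xt := Ext.none) (P1 := 0) (W1 := 536870912) (P2 := 0) (W2 := 536870912) (P3 := 649613803) (W3 := 48318383) (N0 := 3) (En := eng) (mo := mog) (C1 := cd1q2a) (C2 := cd8q0) (C3 := pd2)
    rfl k0_pm_202_a

noncomputable def f_pm_202_b : ℕ → ℕ → ℕ → ℕ → Bool := onCell 1239849684 370763052 0 536870912 649613803 48318383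
    (rowB 3 eng mog cd1q2b cd8q0 pd2 0 true true false .pp 2 0 2 (qsf 1239849684 370763052 0 536870912 2) ndB1q2b ndB8q0 pcB2 Cut.none Ext.none)

def k0_pm_202_b : ∃ t, chk3 f_pm_202_b t 1 1 1 = true :=
  ⟨(l 4), by decide +kernel⟩

theorem c_pm_202_b : CertB 1239849684 370763052 0 536870912 649613803 48318383 3 eng mog cd1q2b cd8q0 pd2 true true false .pp 2 0 2
    ndB1q2b ndB8q0 pcB2 Cut.none Ext.none :=
  certB0 (fam := true) (s1 := true) (s2 := false) (a := 2) (b := 0) (c := 2) (cn := .pp) (n1 := ndB1q2b) (n2 := ndB8q0) (pc := pcB2) (cut := Cut.none) (xt := Ext.none) (P1 := 1239849684) (W1 := 370763052) (P2 := 0) (W2 := 536870912) (P3 := 649613803) (W3 := 48318383) (N0 := 3) (En := eng) (mo := mog) (C1 := cd1q2b) (C2 := cd8q0) (C3 := pd2)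
    rfl k0_pm_202_b

noncomputable def f_pm_203_a : ℕ → ℕ → ℕ → ℕ → Bool := onCell 0 536870912 1610612736 536870912 649613803 48318383
    (rowB 3 eng mog cd1q2a cd8q0 pd3 1 true true false .up 2 0 3 (qsf 0 536870912 0 536870912 3) ndB1q2a ndB8q0 pcB3 Cut.none Ext.none)

def k0_pm_203_a : ∃ t, chk3 f_pm_203_a t 1 1 1 = true :=
  ⟨(a (l 4) (b (l 4) (l 2))), by decide +kernel⟩

theorem c_pm_203_a : CertB 0 536870912 0 536870912 649613803 48318383 3 eng mog cd1q2a cd8q0 pd3 true true false .up 2 0 3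
    ndB1q2a ndB8q0 pcB3 Cut.none Ext.none :=
  certB1 (fam := true) (s1 := true) (s2 := false) (a := 2) (b := 0) (c := 3) (cn := .up) (n1 := ndB1q2a) (n2 := ndB8q0) (pc := pcB3) (cut := Cut.none) (xt := Ext.none) (P1 := 0) (W1 := 536870912) (P2 := 0) (W2 := 536870912) (P3 := 649613803) (W3 := 48318383) (N0 := 3) (En := eng) (mo := mog) (C1 := cd1q2a) (C2 := cd8q0) (C3 := pd3)
    rfl (fun _ => rfl) k0_pm_203_a

noncomputable def f_pm_203_b : ℕ → ℕ → ℕ → ℕ → Bool := onCell 1239849684 370763052 0 536870912 649613803 48318383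
    (rowB 3 eng mog cd1q2b cd8q0 pd3 0 true true false .up 2 0 3 (qsf 1239849684 370763052 0 536870912 3) ndB1q2b ndB8q0 pcB3 Cut.none Ext.none)

def k0_pm_203_b : ∃ t, chk3 f_pm_203_b t 1 1 1 = true :=
  ⟨(l 4), by decide +kernel⟩

theorem c_pm_203_b : CertB 1239849684 370763052 0 536870912 649613803 48318383 3 eng mog cd1q2b cd8q0 pd3 true true false .up 2 0 3
    ndB1q2b ndB8q0 pcB3 Cut.none Ext.none :=
  certB0 (fam := true) (s1 := true) (s2 := false) (a := 2) (b := 0) (c := 3) (cn := .up) (n1 := ndB1q2b) (n2 := ndB8q0) (pc := pcB3) (cut := Cut.none) (xt := Ext.none) (P1 := 1239849684) (W1 := 370763052) (P2 := 0) (W2 := 536870912) (P3 := 649613803) (W3 := 48318383) (N0 := 3) (En := eng) (mo := mog) (C1 := cd1q2b) (C2 := cd8q0) (C3 := pd3)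
    rfl k0_pm_203_b

noncomputable def f_pm_213_a : ℕ → ℕ → ℕ → ℕ → Bool := onCell 0 536870912 536870912 536870912 649613803 48318383
    (rowB 3 eng mog cd1q2a cd8q1 pd3 0 true true false .pnn 2 1 3 (qsf 0 536870912 536870912 536870912 3) ndB1q2a ndB8q1 pcB3 Cut.none Ext.none)

def k0_pm_213_a : ∃ t, chk3 f_pm_213_a t 1 1 1 = true :=
  ⟨(a (l 4) (b (l 4) (l 4))), by decide +kernel⟩

theorem c_pm_213_a : CertB 0 536870912 536870912 536870912 649613803 48318383 3 eng mog cd1q2a cd8q1 pd3 true true false .pnn 2 1 3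
    ndB1q2a ndB8q1 pcB3 Cut.none Ext.none :=
  certB0 (fam := true) (s1 := true) (s2 := false) (a := 2) (b := 1) (c := 3) (cn := .pnn) (n1 := ndB1q2a) (n2 := ndB8q1) (pc := pcB3) (cut := Cut.none) (xt := Ext.none) (P1 := 0) (W1 := 536870912) (P2 := 536870912) (W2 := 536870912) (P3 := 649613803) (W3 := 48318383) (N0 := 3) (En := eng) (mo := mog) (C1 := cd1q2a) (C2 := cd8q1) (C3 := pd3)
    rfl k0_pm_213_a

noncomputable def f_pm_213_b : ℕ → ℕ → ℕ → ℕ → Bool := onCell 1239849684 370763052 536870912 536870912 649613803 48318383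
    (rowB 3 eng mog cd1q2b cd8q1 pd3 0 true true false .pnn 2 1 3 (qsf 1239849684 370763052 536870912 536870912 3) ndB1q2b ndB8q1 pcB3 Cut.none Ext.none)

def k0_pm_213_b : ∃ t, chk3 f_pm_213_b t 1 1 1 = true :=
  ⟨(l 4), by decide +kernel⟩

theorem c_pm_213_b : CertB 1239849684 370763052 536870912 536870912 649613803 48318383 3 eng mog cd1q2b cd8q1 pd3 true true false .pnn 2 1 3
    ndB1q2b ndB8q1 pcB3 Cut.none Ext.none :=
  certB0 (fam := true) (s1 := true) (s2 := false) (a := 2) (b := 1) (c := 3) (cn := .pnn) (n1 := ndB1q2b) (n2 := ndB8q1) (pc := pcB3) (cut := Cut.none) (xt := Ext.none) (P1 := 1239849684) (W1 := 370763052) (P2 := 536870912) (W2 := 536870912) (P3 := 649613803) (W3 := 48318383) (N0 := 3) (En := eng) (mo := mog) (C1 := cd1q2b) (C2 := cd8q1) (C3 := pd3)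
    rfl k0_pm_213_b

noncomputable def f_pm_303 : ℕ → ℕ → ℕ → ℕ → Bool := onCell 1610612736 536870912 0 536870912 649613803 48318383
    (rowB 3 eng mog cd1q3 cd8q0 pd3 0 true true false .npn 3 0 3 (qsf 1610612736 536870912 0 536870912 3) ndB1q3 ndB8q0 pcB3 Cut.none Ext.none)

def k0_pm_303 : ∃ t, chk3 f_pm_303 t 1 1 1 = true :=
  ⟨(l 4), by decide +kernel⟩

theorem c_pm_303 : CertB 1610612736 536870912 0 536870912 649613803 48318383 3 eng mog cd1q3 cd8q0 pd3 true true false .npn 3 0 3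
    ndB1q3 ndB8q0 pcB3 Cut.none Ext.none :=
  certB0 (fam := true) (s1 := true) (s2 := false) (a := 3) (b := 0) (c := 3) (cn := .npn) (n1 := ndB1q3) (n2 := ndB8q0) (pc := pcB3) (cut := Cut.none) (xt := Ext.none) (P1 := 1610612736) (W1 := 536870912) (P2 := 0) (W2 := 536870912) (P3 := 649613803) (W3 := 48318383) (N0 := 3) (En := eng) (mo := mog) (C1 := cd1q3) (C2 := cd8q0) (C3 := pd3)
    rfl k0_pm_303

noncomputable def f_pm_313 : ℕ → ℕ → ℕ → ℕ → Bool := onCell 1610612736 536870912 536870912 536870912 649613803 48318383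
    (rowB 3 eng mog cd1q3 cd8q1 pd3 0 true true false .dn 3 1 3 (qsf 1610612736 536870912 536870912 536870912 3) ndB1q3 ndB8q1 pcB3 Cut.none Ext.none)

def k0_pm_313 : ∃ t, chk3 f_pm_313 t 1 1 1 = true :=
  ⟨(l 4), by decide +kernel⟩

theorem c_pm_313 : CertB 1610612736 536870912 536870912 536870912 649613803 48318383 3 eng mog cd1q3 cd8q1 pd3 true true false .dn 3 1 3
    ndB1q3 ndB8q1 pcB3 Cut.none Ext.none :=
  certB0 (fam := true) (s1 := true) (s2 := false) (a := 3) (b := 1) (c := 3) (cn := .dn) (n1 := ndB1q3) (n2 := ndB8q1) (pc := pcB3) (cut := Cut.none) (xt := Ext.none) (P1 := 1610612736) (W1 := 536870912) (P2 := 536870912) (W2 := 536870912) (P3 := 649613803) (W3 := 48318383) (N0 := 3) (En := eng) (mo := mog) (C1 := cd1q3) (C2 := cd8q1) (C3 := pd3)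
    rfl k0_pm_313

noncomputable def f_mm_001 : ℕ → ℕ → ℕ → ℕ → Bool := onCell 0 536870912 0 536870912 649613803 48318383
    (rowB 3 eng mog cd1q0 cd8q0 pd1 0 true false false .up 0 0 1 (qsf 0 536870912 0 536870912 1) ndB1q0 ndB8q0 pcB1 Cut.none Ext.none)

def k0_mm_001 : ∃ t, chk3 f_mm_001 t 1 1 1 = true :=
  ⟨(l 4), by decide +kernel⟩

theorem c_mm_001 : CertB 0 536870912 0 536870912 649613803 48318383 3 eng mog cd1q0 cd8q0 pd1 true false false .up 0 0 1
    ndB1q0 ndB8q0 pcB1 Cut.none Ext.none :=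
  certB0 (fam := true) (s1 := false) (s2 := false) (a := 0) (b := 0) (c := 1) (cn := .up) (n1 := ndB1q0) (n2 := ndB8q0) (pc := pcB1) (cut := Cut.none) (xt := Ext.none) (P1 := 0) (W1 := 536870912) (P2 := 0) (W2 := 536870912) (P3 := 649613803) (W3 := 48318383) (N0 := 3) (En := eng) (mo := mog) (C1 := cd1q0) (C2 := cd8q0) (C3 := pd1)
    rfl k0_mm_001

noncomputable def f_mm_011 : ℕ → ℕ → ℕ → ℕ → Bool := onCell 0 536870912 536870912 536870912 649613803 48318383
    (rowB 3 eng mog cd1q0 cd8q1 pd1 0 true false false .pnn 0 1 1 (qsf 0 536870912 536870912 536870912 1) ndB1q0 ndB8q1 pcB1 Cut.none Ext.none)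

def k0_mm_011 : ∃ t, chk3 f_mm_011 t 1 1 1 = true :=
  ⟨(l 4), by decide +kernel⟩

theorem c_mm_011 : CertB 0 536870912 536870912 536870912 649613803 48318383 3 eng mog cd1q0 cd8q1 pd1 true false false .pnn 0 1 1
    ndB1q0 ndB8q1 pcB1 Cut.none Ext.none :=
  certB0 (fam := true) (s1 := false) (s2 := false) (a := 0) (b := 1) (c := 1) (cn := .pnn) (n1 := ndB1q0) (n2 := ndB8q1) (pc := pcB1) (cut := Cut.none) (xt := Ext.none) (P1 := 0) (W1 := 536870912) (P2 := 536870912) (W2 := 536870912) (P3 := 649613803) (W3 := 48318383) (N0 := 3) (En := eng) (mo := mog) (C1 := cd1q0) (C2 := cd8q1) (C3 := pd1)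
    rfl k0_mm_011

noncomputable def f_mm_012 : ℕ → ℕ → ℕ → ℕ → Bool := onCell 0 536870912 536870912 536870912 649613803 48318383
    (rowB 3 eng mog cd1q0 cd8q1 pd2 0 true false false .pnp 0 1 2 (qsf 0 536870912 536870912 536870912 2) ndB1q0 ndB8q1 pcB2 Cut.none Ext.none)

def k0_mm_012 : ∃ t, chk3 f_mm_012 t 1 1 1 = true :=
  ⟨(l 4), by decide +kernel⟩

theorem c_mm_012 : CertB 0 536870912 536870912 536870912 649613803 48318383 3 eng mog cd1q0 cd8q1 pd2 true false false .pnp 0 1 2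
    ndB1q0 ndB8q1 pcB2 Cut.none Ext.none :=
  certB0 (fam := true) (s1 := false) (s2 := false) (a := 0) (b := 1) (c := 2) (cn := .pnp) (n1 := ndB1q0) (n2 := ndB8q1) (pc := pcB2) (cut := Cut.none) (xt := Ext.none) (P1 := 0) (W1 := 536870912) (P2 := 536870912) (W2 := 536870912) (P3 := 649613803) (W3 := 48318383) (N0 := 3) (En := eng) (mo := mog) (C1 := cd1q0) (C2 := cd8q1) (C3 := pd2)
    rfl k0_mm_012

noncomputable def f_mm_022 : ℕ → ℕ → ℕ → ℕ → Bool := onCell 0 536870912 1073741824 536870912 649613803 48318383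
    (rowB 3 eng mog cd1q0 cd8q2 pd2 0 true false false .pp 0 2 2 (qsf 0 536870912 1073741824 536870912 2) ndB1q0 ndB8q2 pcB2 Cut.none Ext.none)

def k0_mm_022 : ∃ t, chk3 f_mm_022 t 1 1 1 = true :=
  ⟨(l 4), by decide +kernel⟩

theorem c_mm_022 : CertB 0 536870912 1073741824 536870912 649613803 48318383 3 eng mog cd1q0 cd8q2 pd2 true false false .pp 0 2 2
    ndB1q0 ndB8q2 pcB2 Cut.none Ext.none :=
  certB0 (fam := true) (s1 := false) (s2 := false) (a := 0) (b := 2) (c := 2) (cn := .pp) (n1 := ndB1q0) (n2 := ndB8q2) (pc := pcB2) (cut := Cut.none) (xt := Ext.none) (P1 := 0) (W1 := 536870912) (P2 := 1073741824) (W2 := 536870912) (P3 := 649613803) (W3 := 48318383) (N0 := 3) (En := eng) (mo := mog) (C1 := cd1q0) (C2 := cd8q2) (C3 := pd2)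
    rfl k0_mm_022

noncomputable def f_mm_023 : ℕ → ℕ → ℕ → ℕ → Bool := onCell 0 536870912 1073741824 536870912 649613803 48318383
    (rowB 3 eng mog cd1q0 cd8q2 pd3 0 true false false .up 0 2 3 (qsf 0 536870912 1073741824 536870912 3) ndB1q0 ndB8q2 pcB3 Cut.none Ext.none)

def k0_mm_023 : ∃ t, chk3 f_mm_023 t 1 1 1 = true :=
  ⟨(l 4), by decide +kernel⟩

theorem c_mm_023 : CertB 0 536870912 1073741824 536870912 649613803 48318383 3 eng mog cd1q0 cd8q2 pd3 true false false .up 0 2 3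
    ndB1q0 ndB8q2 pcB3 Cut.none Ext.none :=
  certB0 (fam := true) (s1 := false) (s2 := false) (a := 0) (b := 2) (c := 3) (cn := .up) (n1 := ndB1q0) (n2 := ndB8q2) (pc := pcB3) (cut := Cut.none) (xt := Ext.none) (P1 := 0) (W1 := 536870912) (P2 := 1073741824) (W2 := 536870912) (P3 := 649613803) (W3 := 48318383) (N0 := 3) (En := eng) (mo := mog) (C1 := cd1q0) (C2 := cd8q2) (C3 := pd3)
    rfl k0_mm_023

noncomputable def f_mm_033 : ℕ → ℕ → ℕ → ℕ → Bool := onCell 0 536870912 0 1230186008 649613803 48318383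
    (rowB 3 eng mog cd1q0 cd8q3 pd3 0 true false false .pnn 0 3 3 (qsf 0 536870912 0 1230186008 3) ndB1q0 ndB8q3 pcB3 Cut.none Ext.none)

def k0_mm_033 : ∃ t, chk3 f_mm_033 t 1 1 1 = true :=
  ⟨(l 4), by decide +kernel⟩

theorem c_mm_033 : CertB 0 536870912 0 1230186008 649613803 48318383 3 eng mog cd1q0 cd8q3 pd3 true false false .pnn 0 3 3
    ndB1q0 ndB8q3 pcB3 Cut.none Ext.none :=
  certB0 (fam := true) (s1 := false) (s2 := false) (a := 0) (b := 3) (c := 3) (cn := .pnn) (n1 := ndB1q0) (n2 := ndB8q3) (pc := pcB3) (cut := Cut.none) (xt := Ext.none) (P1 := 0) (W1 := 536870912) (P2 := 0) (W2 := 1230186008) (P3 := 649613803) (W3 := 48318383) (N0 := 3) (En := eng) (mo := mog) (C1 := cd1q0) (C2 := cd8q3) (C3 := pd3)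
    rfl k0_mm_033

noncomputable def f_mm_101 : ℕ → ℕ → ℕ → ℕ → Bool := onCell 536870912 536870912 0 536870912 649613803 48318383
    (rowB 3 eng mog cd1q1 cd8q0 pd1 0 true false false .npn 1 0 1 (qsf 536870912 536870912 0 536870912 1) ndB1q1 ndB8q0 pcB1 Cut.none Ext.none)

def k0_mm_101 : ∃ t, chk3 f_mm_101 t 1 1 1 = true :=
  ⟨(l 4), by decide +kernel⟩

theorem c_mm_101 : CertB 536870912 536870912 0 536870912 649613803 48318383 3 eng mog cd1q1 cd8q0 pd1 true false false .npn 1 0 1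
    ndB1q1 ndB8q0 pcB1 Cut.none Ext.none :=
  certB0 (fam := true) (s1 := false) (s2 := false) (a := 1) (b := 0) (c := 1) (cn := .npn) (n1 := ndB1q1) (n2 := ndB8q0) (pc := pcB1) (cut := Cut.none) (xt := Ext.none) (P1 := 536870912) (W1 := 536870912) (P2 := 0) (W2 := 536870912) (P3 := 649613803) (W3 := 48318383) (N0 := 3) (En := eng) (mo := mog) (C1 := cd1q1) (C2 := cd8q0) (C3 := pd1)
    rfl k0_mm_101

noncomputable def f_mm_102 : ℕ → ℕ → ℕ → ℕ → Bool := onCell 536870912 536870912 0 536870912 649613803 48318383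
    (rowB 3 eng mog cd1q1 cd8q0 pd2 0 true false false .npp 1 0 2 (qsf 536870912 536870912 0 536870912 2) ndB1q1 ndB8q0 pcB2 Cut.none Ext.none)

def k0_mm_102 : ∃ t, chk3 f_mm_102 t 1 1 1 = true :=
  ⟨(l 4), by decide +kernel⟩

theorem c_mm_102 : CertB 536870912 536870912 0 536870912 649613803 48318383 3 eng mog cd1q1 cd8q0 pd2 true false false .npp 1 0 2
    ndB1q1 ndB8q0 pcB2 Cut.none Ext.none :=
  certB0 (fam := true) (s1 := false) (s2 := false) (a := 1) (b := 0) (c := 2) (cn := .npp) (n1 := ndB1q1) (n2 := ndB8q0) (pc := pcB2) (cut := Cut.none) (xt := Ext.none) (P1 := 536870912) (W1 := 536870912) (P2 := 0) (W2 := 536870912) (P3 := 649613803) (W3 := 48318383) (N0 := 3) (En := eng) (mo := mog) (C1 := cd1q1) (C2 := cd8q0) (C3 := pd2)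
    rfl k0_mm_102

noncomputable def f_mm_112 : ℕ → ℕ → ℕ → ℕ → Bool := onCell 536870912 536870912 536870912 536870912 649613803 48318383
    (rowB 3 eng mog cd1q1 cd8q1 pd2 0 true false false .dn 1 1 2 (qsf 536870912 536870912 536870912 536870912 2) ndB1q1 ndB8q1 pcB2 Cut.none Ext.none)

def k0_mm_112 : ∃ t, chk3 f_mm_112 t 1 1 1 = true :=
  ⟨(l 4), by decide +kernel⟩

theorem c_mm_112 : CertB 536870912 536870912 536870912 536870912 649613803 48318383 3 eng mog cd1q1 cd8q1 pd2 true false false .dn 1 1 2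
    ndB1q1 ndB8q1 pcB2 Cut.none Ext.none :=
  certB0 (fam := true) (s1 := false) (s2 := false) (a := 1) (b := 1) (c := 2) (cn := .dn) (n1 := ndB1q1) (n2 := ndB8q1) (pc := pcB2) (cut := Cut.none) (xt := Ext.none) (P1 := 536870912) (W1 := 536870912) (P2 := 536870912) (W2 := 536870912) (P3 := 649613803) (W3 := 48318383) (N0 := 3) (En := eng) (mo := mog) (C1 := cd1q1) (C2 := cd8q1) (C3 := pd2)
    rfl k0_mm_112

noncomputable def f_mm_113 : ℕ → ℕ → ℕ → ℕ → Bool := onCell 536870912 536870912 536870912 536870912 649613803 48318383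
    (rowB 3 eng mog cd1q1 cd8q1 pd3 0 true false false .nn 1 1 3 (qsf 536870912 536870912 536870912 536870912 3) ndB1q1 ndB8q1 pcB3 Cut.none Ext.none)

def k0_mm_113 : ∃ t, chk3 f_mm_113 t 1 1 1 = true :=
  ⟨(l 4), by decide +kernel⟩

theorem c_mm_113 : CertB 536870912 536870912 536870912 536870912 649613803 48318383 3 eng mog cd1q1 cd8q1 pd3 true false false .nn 1 1 3
    ndB1q1 ndB8q1 pcB3 Cut.none Ext.none :=
  certB0 (fam := true) (s1 := false) (s2 := false) (a := 1) (b := 1) (c := 3) (cn := .nn) (n1 := ndB1q1) (n2 := ndB8q1) (pc := pcB3) (cut := Cut.none) (xt := Ext.none) (P1 := 536870912) (W1 := 536870912) (P2 := 536870912) (W2 := 536870912) (P3 := 649613803) (W3 := 48318383) (N0 := 3) (En := eng) (mo := mog) (C1 := cd1q1) (C2 := cd8q1) (C3 := pd3)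
    rfl k0_mm_113

noncomputable def f_mm_123 : ℕ → ℕ → ℕ → ℕ → Bool := onCell 536870912 536870912 1073741824 536870912 649613803 48318383
    (rowB 3 eng mog cd1q1 cd8q2 pd3 0 true false false .npn 1 2 3 (qsf 536870912 536870912 1073741824 536870912 3) ndB1q1 ndB8q2 pcB3 Cut.none Ext.none)

def k0_mm_123 : ∃ t, chk3 f_mm_123 t 1 1 1 = true :=
  ⟨(l 4), by decide +kernel⟩

theorem c_mm_123 : CertB 536870912 536870912 1073741824 536870912 649613803 48318383 3 eng mog cd1q1 cd8q2 pd3 true false false .npn 1 2 3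
    ndB1q1 ndB8q2 pcB3 Cut.none Ext.none :=
  certB0 (fam := true) (s1 := false) (s2 := false) (a := 1) (b := 2) (c := 3) (cn := .npn) (n1 := ndB1q1) (n2 := ndB8q2) (pc := pcB3) (cut := Cut.none) (xt := Ext.none) (P1 := 536870912) (W1 := 536870912) (P2 := 1073741824) (W2 := 536870912) (P3 := 649613803) (W3 := 48318383) (N0 := 3) (En := eng) (mo := mog) (C1 := cd1q1) (C2 := cd8q2) (C3 := pd3)
    rfl k0_mm_123

noncomputable def f_mm_133 : ℕ → ℕ → ℕ → ℕ → Bool := onCell 536870912 536870912 0 1230186008 649613803 48318383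
    (rowB 3 eng mog cd1q1 cd8q3 pd3 0 true false false .dn 1 3 3 (qsf 536870912 536870912 0 1230186008 3) ndB1q1 ndB8q3 pcB3 Cut.none Ext.none)

def k0_mm_133 : ∃ t, chk3 f_mm_133 t 1 1 1 = true :=
  ⟨(l 4), by decide +kernel⟩

theorem c_mm_133 : CertB 536870912 536870912 0 1230186008 649613803 48318383 3 eng mog cd1q1 cd8q3 pd3 true false false .dn 1 3 3
    ndB1q1 ndB8q3 pcB3 Cut.none Ext.none :=
  certB0 (fam := true) (s1 := false) (s2 := false) (a := 1) (b := 3) (c := 3) (cn := .dn) (n1 := ndB1q1) (n2 := ndB8q3) (pc := pcB3) (cut := Cut.none) (xt := Ext.none) (P1 := 536870912) (W1 := 536870912) (P2 := 0) (W2 := 1230186008) (P3 := 649613803) (W3 := 48318383) (N0 := 3) (En := eng) (mo := mog) (C1 := cd1q1) (C2 := cd8q3) (C3 := pd3)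
    rfl k0_mm_133

noncomputable def f_mm_202_a : ℕ → ℕ → ℕ → ℕ → Bool := onCell 0 536870912 0 536870912 649613803 48318383
    (rowB 3 eng mog cd1q2a cd8q0 pd2 0 true false false .pp 2 0 2 (qsf 0 536870912 0 536870912 2) ndB1q2a ndB8q0 pcB2 Cut.none Ext.none)

def k0_mm_202_a : ∃ t, chk3 f_mm_202_a t 1 1 1 = true :=
  ⟨(l 4), by decide +kernel⟩

theorem c_mm_202_a : CertB 0 536870912 0 536870912 649613803 48318383 3 eng mog cd1q2a cd8q0 pd2 true false false .pp 2 0 2
    ndB1q2a ndB8q0 pcB2 Cut.none Ext.none :=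
  certB0 (fam := true) (s1 := false) (s2 := false) (a := 2) (b := 0) (c := 2) (cn := .pp) (n1 := ndB1q2a) (n2 := ndB8q0) (pc := pcB2) (cut := Cut.none) (xt := Ext.none) (P1 := 0) (W1 := 536870912) (P2 := 0) (W2 := 536870912) (P3 := 649613803) (W3 := 48318383) (N0 := 3) (En := eng) (mo := mog) (C1 := cd1q2a) (C2 := cd8q0) (C3 := pd2)
    rfl k0_mm_202_a

noncomputable def f_mm_202_b : ℕ → ℕ → ℕ → ℕ → Bool := onCell 1239849684 370763052 0 536870912 649613803 48318383
    (rowB 3 eng mog cd1q2b cd8q0 pd2 0 true false false .pp 2 0 2 (qsf 1239849684 370763052 0 536870912 2) ndB1q2b ndB8q0 pcB2 Cut.none Ext.none)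

def k0_mm_202_b : ∃ t, chk3 f_mm_202_b t 1 1 1 = true :=
  ⟨(l 4), by decide +kernel⟩

theorem c_mm_202_b : CertB 1239849684 370763052 0 536870912 649613803 48318383 3 eng mog cd1q2b cd8q0 pd2 true false false .pp 2 0 2
    ndB1q2b ndB8q0 pcB2 Cut.none Ext.none :=
  certB0 (fam := true) (s1 := false) (s2 := false) (a := 2) (b := 0) (c := 2) (cn := .pp) (n1 := ndB1q2b) (n2 := ndB8q0) (pc := pcB2) (cut := Cut.none) (xt := Ext.none) (P1 := 1239849684) (W1 := 370763052) (P2 := 0) (W2 := 536870912) (P3 := 649613803) (W3 := 48318383) (N0 := 3) (En := eng) (mo := mog) (C1 := cd1q2b) (C2 := cd8q0) (C3 := pd2)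
    rfl k0_mm_202_b

noncomputable def f_mm_203_a : ℕ → ℕ → ℕ → ℕ → Bool := onCell 0 536870912 0 536870912 649613803 48318383
    (rowB 3 eng mog cd1q2a cd8q0 pd3 0 true false false .up 2 0 3 (qsf 0 536870912 0 536870912 3) ndB1q2a ndB8q0 pcB3 Cut.none Ext.none)

def k0_mm_203_a : ∃ t, chk3 f_mm_203_a t 1 1 1 = true :=
  ⟨(l 4), by decide +kernel⟩

theorem c_mm_203_a : CertB 0 536870912 0 536870912 649613803 48318383 3 eng mog cd1q2a cd8q0 pd3 true false false .up 2 0 3
    ndB1q2a ndB8q0 pcB3 Cut.none Ext.none :=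
  certB0 (fam := true) (s1 := false) (s2 := false) (a := 2) (b := 0) (c := 3) (cn := .up) (n1 := ndB1q2a) (n2 := ndB8q0) (pc := pcB3) (cut := Cut.none) (xt := Ext.none) (P1 := 0) (W1 := 536870912) (P2 := 0) (W2 := 536870912) (P3 := 649613803) (W3 := 48318383) (N0 := 3) (En := eng) (mo := mog) (C1 := cd1q2a) (C2 := cd8q0) (C3 := pd3)
    rfl k0_mm_203_a

noncomputable def f_mm_203_b : ℕ → ℕ → ℕ → ℕ → Bool := onCell 1239849684 370763052 0 536870912 649613803 48318383
    (rowB 3 eng mog cd1q2b cd8q0 pd3 0 true false false .up 2 0 3 (qsf 1239849684 370763052 0 536870912 3) ndB1q2b ndB8q0 pcB3 Cut.none Ext.none)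

def k0_mm_203_b : ∃ t, chk3 f_mm_203_b t 1 1 1 = true :=
  ⟨(l 4), by decide +kernel⟩

theorem c_mm_203_b : CertB 1239849684 370763052 0 536870912 649613803 48318383 3 eng mog cd1q2b cd8q0 pd3 true false false .up 2 0 3
    ndB1q2b ndB8q0 pcB3 Cut.none Ext.none :=
  certB0 (fam := true) (s1 := false) (s2 := false) (a := 2) (b := 0) (c := 3) (cn := .up) (n1 := ndB1q2b) (n2 := ndB8q0) (pc := pcB3) (cut := Cut.none) (xt := Ext.none) (P1 := 1239849684) (W1 := 370763052) (P2 := 0) (W2 := 536870912) (P3 := 649613803) (W3 := 48318383) (N0 := 3) (En := eng) (mo := mog) (C1 := cd1q2b) (C2 := cd8q0) (C3 := pd3)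
    rfl k0_mm_203_b

noncomputable def f_mm_213_a : ℕ → ℕ → ℕ → ℕ → Bool := onCell 0 536870912 536870912 536870912 649613803 48318383
    (rowB 3 eng mog cd1q2a cd8q1 pd3 0 true false false .pnn 2 1 3 (qsf 0 536870912 536870912 536870912 3) ndB1q2a ndB8q1 pcB3 Cut.none Ext.none)

def k0_mm_213_a : ∃ t, chk3 f_mm_213_a t 1 1 1 = true :=
  ⟨(l 4), by decide +kernel⟩

theorem c_mm_213_a : CertB 0 536870912 536870912 536870912 649613803 48318383 3 eng mog cd1q2a cd8q1 pd3 true false false .pnn 2 1 3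
    ndB1q2a ndB8q1 pcB3 Cut.none Ext.none :=
  certB0 (fam := true) (s1 := false) (s2 := false) (a := 2) (b := 1) (c := 3) (cn := .pnn) (n1 := ndB1q2a) (n2 := ndB8q1) (pc := pcB3) (cut := Cut.none) (xt := Ext.none) (P1 := 0) (W1 := 536870912) (P2 := 536870912) (W2 := 536870912) (P3 := 649613803) (W3 := 48318383) (N0 := 3) (En := eng) (mo := mog) (C1 := cd1q2a) (C2 := cd8q1) (C3 := pd3)
    rfl k0_mm_213_a

noncomputable def f_mm_213_b : ℕ → ℕ → ℕ → ℕ → Bool := onCell 1239849684 370763052 536870912 536870912 649613803 48318383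
    (rowB 3 eng mog cd1q2b cd8q1 pd3 0 true false false .pnn 2 1 3 (qsf 1239849684 370763052 536870912 536870912 3) ndB1q2b ndB8q1 pcB3 Cut.none Ext.none)

def k0_mm_213_b : ∃ t, chk3 f_mm_213_b t 1 1 1 = true :=
  ⟨(l 4), by decide +kernel⟩

theorem c_mm_213_b : CertB 1239849684 370763052 536870912 536870912 649613803 48318383 3 eng mog cd1q2b cd8q1 pd3 true false false .pnn 2 1 3
    ndB1q2b ndB8q1 pcB3 Cut.none Ext.none :=
  certB0 (fam := true) (s1 := false) (s2 := false) (a := 2) (b := 1) (c := 3) (cn := .pnn) (n1 := ndB1q2b) (n2 := ndB8q1) (pc := pcB3) (cut := Cut.none) (xt := Ext.none) (P1 := 1239849684) (W1 := 370763052) (P2 := 536870912) (W2 := 536870912) (P3 := 649613803) (W3 := 48318383) (N0 := 3) (En := eng) (mo := mog) (C1 := cd1q2b) (C2 := cd8q1) (C3 := pd3)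
    rfl k0_mm_213_b

noncomputable def f_mm_303 : ℕ → ℕ → ℕ → ℕ → Bool := onCell 1610612736 536870912 0 536870912 649613803 48318383
    (rowB 3 eng mog cd1q3 cd8q0 pd3 0 true false false .npn 3 0 3 (qsf 1610612736 536870912 0 536870912 3) ndB1q3 ndB8q0 pcB3 Cut.none Ext.none)

def k0_mm_303 : ∃ t, chk3 f_mm_303 t 1 1 1 = true :=
  ⟨(l 4), by decide +kernel⟩

theorem c_mm_303 : CertB 1610612736 536870912 0 536870912 649613803 48318383 3 eng mog cd1q3 cd8q0 pd3 true false false .npn 3 0 3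
    ndB1q3 ndB8q0 pcB3 Cut.none Ext.none :=
  certB0 (fam := true) (s1 := false) (s2 := false) (a := 3) (b := 0) (c := 3) (cn := .npn) (n1 := ndB1q3) (n2 := ndB8q0) (pc := pcB3) (cut := Cut.none) (xt := Ext.none) (P1 := 1610612736) (W1 := 536870912) (P2 := 0) (W2 := 536870912) (P3 := 649613803) (W3 := 48318383) (N0 := 3) (En := eng) (mo := mog) (C1 := cd1q3) (C2 := cd8q0) (C3 := pd3)
    rfl k0_mm_303

noncomputable def f_mm_313 : ℕ → ℕ → ℕ → ℕ → Bool := onCell 1610612736 536870912 536870912 536870912 649613803 48318383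
    (rowB 3 eng mog cd1q3 cd8q1 pd3 0 true false false .dn 3 1 3 (qsf 1610612736 536870912 536870912 536870912 3) ndB1q3 ndB8q1 pcB3 Cut.none Ext.none)

def k0_mm_313 : ∃ t, chk3 f_mm_313 t 1 1 1 = true :=
  ⟨(l 4), by decide +kernel⟩

theorem c_mm_313 : CertB 1610612736 536870912 536870912 536870912 649613803 48318383 3 eng mog cd1q3 cd8q1 pd3 true false false .dn 3 1 3
    ndB1q3 ndB8q1 pcB3 Cut.none Ext.none :=
  certB0 (fam := true) (s1 := false) (s2 := false) (a := 3) (b := 1) (c := 3) (cn := .dn) (n1 := ndB1q3) (n2 := ndB8q1) (pc := pcB3) (cut := Cut.none) (xt := Ext.none) (P1 := 1610612736) (W1 := 536870912) (P2 := 536870912) (W2 := 536870912) (P3 := 649613803) (W3 := 48318383) (N0 := 3) (En := eng) (mo := mog) (C1 := cd1q3) (C2 := cd8q1) (C3 := pd3)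
    rfl k0_mm_313

end Pool.Agent.Strip051.G.I6050_6500.Tab.C.BA18

namespace Pool.Agent.Strip051.G.I6050_6500.Tab.C.BA22

open Pool.Agent.Strip051.PB Pool.Agent.Strip051.PB.T
open Pool.Agent.Strip051.G.I6050_6500.Tab

noncomputable def f_pp_001 : ℕ → ℕ → ℕ → ℕ → Bool := onCell 0 536870912 0 536870912 649613803 48318383
    (rowB 3 eng mog cd2q0 cd2q0 pd1 0 true true true .up 0 0 1 (qsf 0 536870912 0 536870912 1) ndB2q0 ndB2q0 pcB1 Cut.none Ext.none)

def k0_pp_001 : ∃ t, chk3 f_pp_001 t 1 1 1 = true :=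
  ⟨(l 4), by decide +kernel⟩

theorem c_pp_001 : CertB 0 536870912 0 536870912 649613803 48318383 3 eng mog cd2q0 cd2q0 pd1 true true true .up 0 0 1
    ndB2q0 ndB2q0 pcB1 Cut.none Ext.none :=
  certB0 (fam := true) (s1 := true) (s2 := true) (a := 0) (b := 0) (c := 1) (cn := .up) (n1 := ndB2q0) (n2 := ndB2q0) (pc := pcB1) (cut := Cut.none) (xt := Ext.none) (P1 := 0) (W1 := 536870912) (P2 := 0) (W2 := 536870912) (P3 := 649613803) (W3 := 48318383) (N0 := 3) (En := eng) (mo := mog) (C1 := cd2q0) (C2 := cd2q0) (C3 := pd1)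
    rfl k0_pp_001

noncomputable def f_pp_011 : ℕ → ℕ → ℕ → ℕ → Bool := onCell 0 536870912 536870912 536870912 649613803 48318383
    (rowB 3 eng mog cd2q0 cd2q1 pd1 0 true true true .pnn 0 1 1 (qsf 0 536870912 536870912 536870912 1) ndB2q0 ndB2q1 pcB1 Cut.none Ext.none)

def k0_pp_011 : ∃ t, chk3 f_pp_011 t 1 1 1 = true :=
  ⟨(l 4), by decide +kernel⟩

theorem c_pp_011 : CertB 0 536870912 536870912 536870912 649613803 48318383 3 eng mog cd2q0 cd2q1 pd1 true true true .pnn 0 1 1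
    ndB2q0 ndB2q1 pcB1 Cut.none Ext.none :=
  certB0 (fam := true) (s1 := true) (s2 := true) (a := 0) (b := 1) (c := 1) (cn := .pnn) (n1 := ndB2q0) (n2 := ndB2q1) (pc := pcB1) (cut := Cut.none) (xt := Ext.none) (P1 := 0) (W1 := 536870912) (P2 := 536870912) (W2 := 536870912) (P3 := 649613803) (W3 := 48318383) (N0 := 3) (En := eng) (mo := mog) (C1 := cd2q0) (C2 := cd2q1) (C3 := pd1)
    rfl k0_pp_011

noncomputable def f_pp_012 : ℕ → ℕ → ℕ → ℕ → Bool := onCell 0 536870912 536870912 536870912 649613803 48318383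
    (rowB 3 eng mog cd2q0 cd2q1 pd2 0 true true true .pnp 0 1 2 (qsf 0 536870912 536870912 536870912 2) ndB2q0 ndB2q1 pcB2 Cut.none Ext.none)

def k0_pp_012 : ∃ t, chk3 f_pp_012 t 1 1 1 = true :=
  ⟨(l 4), by decide +kernel⟩

theorem c_pp_012 : CertB 0 536870912 536870912 536870912 649613803 48318383 3 eng mog cd2q0 cd2q1 pd2 true true true .pnp 0 1 2
    ndB2q0 ndB2q1 pcB2 Cut.none Ext.none :=
  certB0 (fam := true) (s1 := true) (s2 := true) (a := 0) (b := 1) (c := 2) (cn := .pnp) (n1 := ndB2q0) (n2 := ndB2q1) (pc := pcB2) (cut := Cut.none) (xt := Ext.none) (P1 := 0) (W1 := 536870912) (P2 := 536870912) (W2 := 536870912) (P3 := 649613803) (W3 := 48318383) (N0 := 3) (En := eng) (mo := mog) (C1 := cd2q0) (C2 := cd2q1) (C3 := pd2)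
    rfl k0_pp_012

noncomputable def cut_pp_022_a : Cut := Cut.of [[⟨0, 0, 0, 67108864⟩, ⟨1, 1, 0, 67108864⟩, ⟨2, 1, 0, 67108864⟩]]

noncomputable def f_pp_022_a : ℕ → ℕ → ℕ → ℕ → Bool := onCell 0 536870912 0 536870912 649613803 48318383
    (rowB 3 eng mog cd2q0 cd2q2a pd2 0 true true true .pp 0 2 2 (qsf 0 536870912 0 536870912 2) ndB2q0 ndB2q2a pcB2 cut_pp_022_a Ext.none)

def k0_pp_022_a : ∃ t, chk3 f_pp_022_a t 2 2 1 = true :=
  ⟨(a (b (a (a (b (a (b (l 16464992) (l 16446872)) (b (l 16452320) (a (l 16451952) (l 16458256)))) (b (a (a (l 16450816) (l 16453184)) (l 16480864)) (a (l 16459216) (a (l 16463912) (l 16469288))))) (b (a (l 16465864) (l 16476920)) (a (l 16496672) (l 16487624)))) (a (b (l 16491856) (l 16504240)) (l 16622616))) (a (a (b (a (b (a (l 16467368) (l 16470328)) (a (l 16480296) (l 16483536))) (a (b (l 16473728) (l 16487208)) (b (l 16478224) (l 16491320)))) (a (b (a (b (l 16492032) (l 16500904)) (l 16500000)) (b (a (l 16510544) (l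 16514232)) (l 16522720))) (b (a (l 16503928) (l 16508248)) (a (l 16523648) (l 16528208))))) (b (b (a (l 16487768) (l 16500480)) (a (a (l 16496720) (l 16503304)) (l 16513176))) (a (b (a (l 16534016) (l 16539928)) (a (l 16533136) (b (l 16533048) (l 16543832)))) (b (l 16529096) (a (l 16565688) (l 16551576)))))) (a (b (a (l 16498320) (l 16531224)) (b (l 16653656) (a (l 16561864) (l 16575288)))) (b (l 16548568) (b (l 16574016) (l 16595056)))))) (a (b (a (l 16541504) (b (l 16559032) (l 16578544))) (b (a (l 16575680) (b (l 16597880) (l 16614720))) (a (b (l 16602632) (l 16624608)) (b (l 16634480) (l 16657104))))) (b (a (l 16701368) (b (l 16611512) (l 16634768))) (b (a (a (l 16629408) (l 16644024)) (a (l 16657720) (l 4))) (l 4))))), by decide +kernel⟩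

def k1_pp_022_a : ∃ t, chk3 f_pp_022_a t 2 3 1 = true :=
  ⟨(a (b (a (a (b (b (a (b (l 16533848) (l 16545712)) (b (l 16542504) (l 16512640))) (a (a (l 16562992) (l 16567144)) (l 16574152))) (b (a (a (l 16589432) (l 16595392)) (l 16602656)) (a (a (b (l 16607552) (l 16620768)) (l 16623640)) (b (l 16625840) (l 16642064))))) (b (a (b (b (l 16552688) (l 16564976)) (l 16584840)) (b (a (l 16609408) (l 16668296)) (l 16596840))) (a (b (l 16613712) (l 16666312)) (b (l 16626104) (l 16658096))))) (b (b (a (a (l 16584400) (l 16598352)) (l 16618992)) (a (a (b (l 16666264) (l 16617168)) (l 16624560)) (a (l 16575984) (l 16653608)))) (a (a (b (b (l 16631864) (l 16647408)) (b (l 16621784) (l 16680936))) (a (b (l 16650464) (l 16684120)) (b (l 16616064) (l 4)))) (a (b (l 16669656) (l 4)) (l 4))))) (a (b (b (b (a (a (a (b (l 16631112) (l 16638248)) (l 16644688)) (l 16658880)) (a (l 16670552) (l 16683760))) (a (a (a (b (l 16645568) (l 16653352)) (l 16659848)) (a (l 16669784)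 (l 16679296))) (a (l 16688208) (l 16723400)))) (b (a (a (a (b (l 16661944) (l 6)) (l 16677032)) (a (l 16687248) (l 16696272))) (a (a (l 16702104) (l 16708888)) (l 16742216))) (a (a (a (l 6) (a (l 6) (l 16698184))) (a (l 16705992) (l 16713408))) (a (a (l 16719952) (l 16727992)) (l 4))))) (a (b (a (l 6) (b (a (l 6) (b (l 16726880) (l 16736696))) (l 6))) (l 6)) (b (b (l 4) (l 4)) (l 4)))) (b (a (b (a (a (l 16705040) (l 4)) (l 4)) (l 4)) (l 4)) (l 4)))) (b (a (b (a (b (l 16649616) (l 4)) (l 4)) (l 4)) (l 4)) (l 4))), by decide +kernel⟩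

def k2_pp_022_a : ∃ t, chk3 f_pp_022_a t 3 1 1 = true :=
  ⟨(b (b (a (a (a (b (l 16639240) (l 16662144)) (b (l 16667432) (l 4))) (a (b (l 16696200) (l 4)) (l 4))) (l 2)) (l 4)) (l 4)), by decide +kernel⟩

theorem s3_pp_022_a : ∃ t, chk3 f_pp_022_a t 2 1 1 = true := ex3_b k0_pp_022_a k1_pp_022_a

theorem s4_pp_022_a : ∃ t, chk3 f_pp_022_a t 1 1 1 = true := ex3_a s3_pp_022_a k2_pp_022_a

theorem c_pp_022_a : CertB 0 536870912 0 536870912 649613803 48318383 3 eng mog cd2q0 cd2q2a pd2 true true true .pp 0 2 2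
    ndB2q0 ndB2q2a pcB2 cut_pp_022_a Ext.none :=
  certB0 (fam := true) (s1 := true) (s2 := true) (a := 0) (b := 2) (c := 2) (cn := .pp) (n1 := ndB2q0) (n2 := ndB2q2a) (pc := pcB2) (cut := cut_pp_022_a) (xt := Ext.none) (P1 := 0) (W1 := 536870912) (P2 := 0) (W2 := 536870912) (P3 := 649613803) (W3 := 48318383) (N0 := 3) (En := eng) (mo := mog) (C1 := cd2q0) (C2 := cd2q2a) (C3 := pd2)
    rfl s4_pp_022_a

noncomputable def cut_pp_022_b : Cut := Cut.of [[⟨0, 0, 0, 67108864⟩, ⟨1, 1, 0, 67108864⟩, ⟨2, 1, 0, 67108864⟩]]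

noncomputable def f_pp_022_b : ℕ → ℕ → ℕ → ℕ → Bool := onCell 0 536870912 1073741824 536870912 649613803 48318383
    (rowB 3 eng mog cd2q0 cd2q2b pd2 1 true true true .pp 0 2 2 (qsf 0 536870912 1239849684 370763052 2) ndB2q0 ndB2q2b pcB2 cut_pp_022_b Ext.none)

def k0_pp_022_b : ∃ t, chk3 f_pp_022_b t 1 1 1 = true :=
  ⟨(b (a (b (l 1) (a (b (a (b (a (b (l 1) (a (l 27950298519) (l 1))) (l 1)) (a (b (a (b (l 16448712) (l 16431104)) (l 114386517575)) (a (l 16410320) (l 16448880))) (b (l 1) (l 331819240007)))) (l 1)) (a (a (b (l 16387984) (l 16325016)) (b (l 16465912) (l 16405784))) (b (a (l 324303117367) (l 1)) (a (l 16485008) (l 16563384))))) (l 1))) (l 1)) (b (a (a (b (b (a (a (l 16261440) (l 16341568)) (a (l 16421760) (l 16501552))) (a (a (l 16244656) (l 16281864)) (l 16401184))) (a (b (a (l 16149424) (b (l 16240152) (l 16214760))) (l 16185792)) (b (a (l 16305592) (l 16384144)) (a (l 16258008) (l 16334760))))) (b (a (b (a (l 16585056) (l 1)) (a (l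 16523376) (l 16609792))) (l 1)) (a (b (a (l 16466768) (l 16548560)) (l 16458016)) (b (a (l 16635520) (l 1)) (a (l 16574848) (l 16660464)))))) (l 1)) (a (a (b (a (b (l 16106968) (l 16076376)) (b (l 16255096) (l 16219432))) (a (b (l 16050768) (l 16027544)) (b (l 16188288) (l 16159216)))) (b (a (b (l 16413088) (l 16373080)) (b (l 16567680) (l 16526360))) (b (a (l 16337392) (l 16487592)) (a (l 16304736) (l 16452304))))) (a (b (a (b (l 205118090039) (l 16691216)) (l 1)) (a (b (l 16625688) (l 16590704)) (b (l 322692896727) (l 182569631687)))) (l 1))))), by decide +kernel⟩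

theorem c_pp_022_b : CertB 0 536870912 1239849684 370763052 649613803 48318383 3 eng mog cd2q0 cd2q2b pd2 true true true .pp 0 2 2
    ndB2q0 ndB2q2b pcB2 cut_pp_022_b Ext.none :=
  certB1 (fam := true) (s1 := true) (s2 := true) (a := 0) (b := 2) (c := 2) (cn := .pp) (n1 := ndB2q0) (n2 := ndB2q2b) (pc := pcB2) (cut := cut_pp_022_b) (xt := Ext.none) (P1 := 0) (W1 := 536870912) (P2 := 1239849684) (W2 := 370763052) (P3 := 649613803) (W3 := 48318383) (N0 := 3) (En := eng) (mo := mog) (C1 := cd2q0) (C2 := cd2q2b) (C3 := pd2)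
    rfl (fun _ => rfl) k0_pp_022_b

noncomputable def f_pp_023_a : ℕ → ℕ → ℕ → ℕ → Bool := onCell 1610612736 536870912 0 536870912 649613803 48318383
    (rowB 3 eng mog cd2q0 cd2q2a pd3 2 true true true .up 0 2 3 (qsf 0 536870912 0 536870912 3) ndB2q0 ndB2q2a pcB3 Cut.none Ext.none)

def k0_pp_023_a : ∃ t, chk3 f_pp_023_a t 1 1 1 = true :=
  ⟨(a (b (l 4) (l 4)) (l 2)), by decide +kernel⟩

theorem c_pp_023_a : CertB 0 536870912 0 536870912 649613803 48318383 3 eng mog cd2q0 cd2q2a pd3 true true true .up 0 2 3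
    ndB2q0 ndB2q2a pcB3 Cut.none Ext.none :=
  certB2 (fam := true) (s1 := true) (s2 := true) (a := 0) (b := 2) (c := 3) (cn := .up) (n1 := ndB2q0) (n2 := ndB2q2a) (pc := pcB3) (cut := Cut.none) (xt := Ext.none) (P1 := 0) (W1 := 536870912) (P2 := 0) (W2 := 536870912) (P3 := 649613803) (W3 := 48318383) (N0 := 3) (En := eng) (mo := mog) (C1 := cd2q0) (C2 := cd2q2a) (C3 := pd3)
    rfl (fun _ => rfl) k0_pp_023_a

noncomputable def f_pp_023_b : ℕ → ℕ → ℕ → ℕ → Bool := onCell 1610612736 536870912 1239849684 370763052 649613803 48318383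
    (rowB 3 eng mog cd2q0 cd2q2b pd3 2 true true true .up 0 2 3 (qsf 0 536870912 1239849684 370763052 3) ndB2q0 ndB2q2b pcB3 Cut.none Ext.none)

def k0_pp_023_b : ∃ t, chk3 f_pp_023_b t 1 1 1 = true :=
  ⟨(a (a (b (l 4) (a (a (b (l 16253144) (l 16060160)) (b (l 4) (l 16107792))) (l 4))) (l 4)) (l 4)), by decide +kernel⟩

theorem c_pp_023_b : CertB 0 536870912 1239849684 370763052 649613803 48318383 3 eng mog cd2q0 cd2q2b pd3 true true true .up 0 2 3
    ndB2q0 ndB2q2b pcB3 Cut.none Ext.none :=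
  certB2 (fam := true) (s1 := true) (s2 := true) (a := 0) (b := 2) (c := 3) (cn := .up) (n1 := ndB2q0) (n2 := ndB2q2b) (pc := pcB3) (cut := Cut.none) (xt := Ext.none) (P1 := 0) (W1 := 536870912) (P2 := 1239849684) (W2 := 370763052) (P3 := 649613803) (W3 := 48318383) (N0 := 3) (En := eng) (mo := mog) (C1 := cd2q0) (C2 := cd2q2b) (C3 := pd3)
    rfl (fun _ => rfl) k0_pp_023_b

noncomputable def f_pp_033 : ℕ → ℕ → ℕ → ℕ → Bool := onCell 0 536870912 1610612736 536870912 649613803 48318383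
    (rowB 3 eng mog cd2q0 cd2q3 pd3 1 true true true .pnn 0 3 3 (qsf 0 536870912 1610612736 536870912 3) ndB2q0 ndB2q3 pcB3 Cut.none Ext.none)

def k0_pp_033 : ∃ t, chk3 f_pp_033 t 1 1 1 = true :=
  ⟨(b (b (a (b (a (b (a (l 16043968) (l 1)) (l 16097488)) (l 1)) (l 4)) (l 1)) (l 4)) (l 4)), by decide +kernel⟩

theorem c_pp_033 : CertB 0 536870912 1610612736 536870912 649613803 48318383 3 eng mog cd2q0 cd2q3 pd3 true true true .pnn 0 3 3
    ndB2q0 ndB2q3 pcB3 Cut.none Ext.none :=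
  certB1 (fam := true) (s1 := true) (s2 := true) (a := 0) (b := 3) (c := 3) (cn := .pnn) (n1 := ndB2q0) (n2 := ndB2q3) (pc := pcB3) (cut := Cut.none) (xt := Ext.none) (P1 := 0) (W1 := 536870912) (P2 := 1610612736) (W2 := 536870912) (P3 := 649613803) (W3 := 48318383) (N0 := 3) (En := eng) (mo := mog) (C1 := cd2q0) (C2 := cd2q3) (C3 := pd3)
    rfl (fun _ => rfl) k0_pp_033

noncomputable def f_pp_101 : ℕ → ℕ → ℕ → ℕ → Bool := onCell 536870912 536870912 0 536870912 649613803 48318383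
    (rowB 3 eng mog cd2q1 cd2q0 pd1 0 true true true .npn 1 0 1 (qsf 536870912 536870912 0 536870912 1) ndB2q1 ndB2q0 pcB1 Cut.none Ext.none)

def k0_pp_101 : ∃ t, chk3 f_pp_101 t 1 1 1 = true :=
  ⟨(l 4), by decide +kernel⟩

theorem c_pp_101 : CertB 536870912 536870912 0 536870912 649613803 48318383 3 eng mog cd2q1 cd2q0 pd1 true true true .npn 1 0 1
    ndB2q1 ndB2q0 pcB1 Cut.none Ext.none :=
  certB0 (fam := true) (s1 := true) (s2 := true) (a := 1) (b := 0) (c := 1) (cn := .npn) (n1 := ndB2q1) (n2 := ndB2q0) (pc := pcB1) (cut := Cut.none) (xt := Ext.none) (P1 := 536870912) (W1 := 536870912) (P2 := 0) (W2 := 536870912) (P3 := 649613803) (W3 := 48318383) (N0 := 3) (En := eng) (mo := mog) (C1 := cd2q1) (C2 := cd2q0) (C3 := pd1)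
    rfl k0_pp_101

noncomputable def f_pp_102 : ℕ → ℕ → ℕ → ℕ → Bool := onCell 536870912 536870912 0 536870912 649613803 48318383
    (rowB 3 eng mog cd2q1 cd2q0 pd2 0 true true true .npp 1 0 2 (qsf 536870912 536870912 0 536870912 2) ndB2q1 ndB2q0 pcB2 Cut.none Ext.none)

def k0_pp_102 : ∃ t, chk3 f_pp_102 t 1 1 1 = true :=
  ⟨(l 4), by decide +kernel⟩

theorem c_pp_102 : CertB 536870912 536870912 0 536870912 649613803 48318383 3 eng mog cd2q1 cd2q0 pd2 true true true .npp 1 0 2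
    ndB2q1 ndB2q0 pcB2 Cut.none Ext.none :=
  certB0 (fam := true) (s1 := true) (s2 := true) (a := 1) (b := 0) (c := 2) (cn := .npp) (n1 := ndB2q1) (n2 := ndB2q0) (pc := pcB2) (cut := Cut.none) (xt := Ext.none) (P1 := 536870912) (W1 := 536870912) (P2 := 0) (W2 := 536870912) (P3 := 649613803) (W3 := 48318383) (N0 := 3) (En := eng) (mo := mog) (C1 := cd2q1) (C2 := cd2q0) (C3 := pd2)
    rfl k0_pp_102

noncomputable def f_pp_112 : ℕ → ℕ → ℕ → ℕ → Bool := onCell 536870912 536870912 536870912 536870912 649613803 48318383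
    (rowB 3 eng mog cd2q1 cd2q1 pd2 0 true true true .dn 1 1 2 (qsf 536870912 536870912 536870912 536870912 2) ndB2q1 ndB2q1 pcB2 Cut.none Ext.none)

def k0_pp_112 : ∃ t, chk3 f_pp_112 t 1 1 1 = true :=
  ⟨(l 4), by decide +kernel⟩

theorem c_pp_112 : CertB 536870912 536870912 536870912 536870912 649613803 48318383 3 eng mog cd2q1 cd2q1 pd2 true true true .dn 1 1 2
    ndB2q1 ndB2q1 pcB2 Cut.none Ext.none :=
  certB0 (fam := true) (s1 := true) (s2 := true) (a := 1) (b := 1) (c := 2) (cn := .dn) (n1 := ndB2q1) (n2 := ndB2q1) (pc := pcB2) (cut := Cut.none) (xt := Ext.none) (P1 := 536870912) (W1 := 536870912) (P2 := 536870912) (W2 := 536870912) (P3 := 649613803) (W3 := 48318383) (N0 := 3) (En := eng) (mo := mog) (C1 := cd2q1) (C2 := cd2q1) (C3 := pd2)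
    rfl k0_pp_112

noncomputable def f_pp_113 : ℕ → ℕ → ℕ → ℕ → Bool := onCell 536870912 536870912 536870912 536870912 649613803 48318383
    (rowB 3 eng mog cd2q1 cd2q1 pd3 0 true true true .nn 1 1 3 (qsf 536870912 536870912 536870912 536870912 3) ndB2q1 ndB2q1 pcB3 Cut.none Ext.none)

def k0_pp_113 : ∃ t, chk3 f_pp_113 t 1 1 1 = true :=
  ⟨(l 4), by decide +kernel⟩

theorem c_pp_113 : CertB 536870912 536870912 536870912 536870912 649613803 48318383 3 eng mog cd2q1 cd2q1 pd3 true true true .nn 1 1 3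
    ndB2q1 ndB2q1 pcB3 Cut.none Ext.none :=
  certB0 (fam := true) (s1 := true) (s2 := true) (a := 1) (b := 1) (c := 3) (cn := .nn) (n1 := ndB2q1) (n2 := ndB2q1) (pc := pcB3) (cut := Cut.none) (xt := Ext.none) (P1 := 536870912) (W1 := 536870912) (P2 := 536870912) (W2 := 536870912) (P3 := 649613803) (W3 := 48318383) (N0 := 3) (En := eng) (mo := mog) (C1 := cd2q1) (C2 := cd2q1) (C3 := pd3)
    rfl k0_pp_113

noncomputable def f_pp_123_a : ℕ → ℕ → ℕ → ℕ → Bool := onCell 536870912 536870912 0 536870912 649613803 48318383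
    (rowB 3 eng mog cd2q1 cd2q2a pd3 0 true true true .npn 1 2 3 (qsf 536870912 536870912 0 536870912 3) ndB2q1 ndB2q2a pcB3 Cut.none Ext.none)

def k0_pp_123_a : ∃ t, chk3 f_pp_123_a t 1 1 1 = true :=
  ⟨(l 4), by decide +kernel⟩

theorem c_pp_123_a : CertB 536870912 536870912 0 536870912 649613803 48318383 3 eng mog cd2q1 cd2q2a pd3 true true true .npn 1 2 3
    ndB2q1 ndB2q2a pcB3 Cut.none Ext.none :=
  certB0 (fam := true) (s1 := true) (s2 := true) (a := 1) (b := 2) (c := 3) (cn := .npn) (n1 := ndB2q1) (n2 := ndB2q2a) (pc := pcB3) (cut := Cut.none) (xt := Ext.none) (P1 := 536870912) (W1 := 536870912) (P2 := 0) (W2 := 536870912) (P3 := 649613803) (W3 := 48318383) (N0 := 3) (En := eng) (mo := mog) (C1 := cd2q1) (C2 := cd2q2a) (C3 := pd3)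
    rfl k0_pp_123_a

noncomputable def f_pp_123_b : ℕ → ℕ → ℕ → ℕ → Bool := onCell 536870912 536870912 1239849684 370763052 649613803 48318383
    (rowB 3 eng mog cd2q1 cd2q2b pd3 0 true true true .npn 1 2 3 (qsf 536870912 536870912 1239849684 370763052 3) ndB2q1 ndB2q2b pcB3 Cut.none Ext.none)

def k0_pp_123_b : ∃ t, chk3 f_pp_123_b t 1 1 1 = true :=
  ⟨(l 4), by decide +kernel⟩

theorem c_pp_123_b : CertB 536870912 536870912 1239849684 370763052 649613803 48318383 3 eng mog cd2q1 cd2q2b pd3 true true true .npn 1 2 3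
    ndB2q1 ndB2q2b pcB3 Cut.none Ext.none :=
  certB0 (fam := true) (s1 := true) (s2 := true) (a := 1) (b := 2) (c := 3) (cn := .npn) (n1 := ndB2q1) (n2 := ndB2q2b) (pc := pcB3) (cut := Cut.none) (xt := Ext.none) (P1 := 536870912) (W1 := 536870912) (P2 := 1239849684) (W2 := 370763052) (P3 := 649613803) (W3 := 48318383) (N0 := 3) (En := eng) (mo := mog) (C1 := cd2q1) (C2 := cd2q2b) (C3 := pd3)
    rfl k0_pp_123_b

noncomputable def f_pp_133 : ℕ → ℕ → ℕ → ℕ → Bool := onCell 536870912 536870912 1610612736 536870912 649613803 48318383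
    (rowB 3 eng mog cd2q1 cd2q3 pd3 0 true true true .dn 1 3 3 (qsf 536870912 536870912 1610612736 536870912 3) ndB2q1 ndB2q3 pcB3 Cut.none Ext.none)

def k0_pp_133 : ∃ t, chk3 f_pp_133 t 1 1 1 = true :=
  ⟨(l 4), by decide +kernel⟩

theorem c_pp_133 : CertB 536870912 536870912 1610612736 536870912 649613803 48318383 3 eng mog cd2q1 cd2q3 pd3 true true true .dn 1 3 3
    ndB2q1 ndB2q3 pcB3 Cut.none Ext.none :=
  certB0 (fam := true) (s1 := true) (s2 := true) (a := 1) (b := 3) (c := 3) (cn := .dn) (n1 := ndB2q1) (n2 := ndB2q3) (pc := pcB3) (cut := Cut.none) (xt := Ext.none) (P1 := 536870912) (W1 := 536870912) (P2 := 1610612736) (W2 := 536870912) (P3 := 649613803) (W3 := 48318383) (N0 := 3) (En := eng) (mo := mog) (C1 := cd2q1) (C2 := cd2q3) (C3 := pd3)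
    rfl k0_pp_133

noncomputable def f_pp_202_a : ℕ → ℕ → ℕ → ℕ → Bool := onCell 0 536870912 0 536870912 649613803 48318383
    (rowB 3 eng mog cd2q2a cd2q0 pd2 0 true true true .pp 2 0 2 (qsf 0 536870912 0 536870912 2) ndB2q2a ndB2q0 pcB2 Cut.none Ext.none)

def k0_pp_202_a : ∃ t, chk3 f_pp_202_a t 1 1 1 = true :=
  ⟨(l 5), by decide +kernel⟩

theorem c_pp_202_a : CertB 0 536870912 0 536870912 649613803 48318383 3 eng mog cd2q2a cd2q0 pd2 true true true .pp 2 0 2
    ndB2q2a ndB2q0 pcB2 Cut.none Ext.none :=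
  certB0 (fam := true) (s1 := true) (s2 := true) (a := 2) (b := 0) (c := 2) (cn := .pp) (n1 := ndB2q2a) (n2 := ndB2q0) (pc := pcB2) (cut := Cut.none) (xt := Ext.none) (P1 := 0) (W1 := 536870912) (P2 := 0) (W2 := 536870912) (P3 := 649613803) (W3 := 48318383) (N0 := 3) (En := eng) (mo := mog) (C1 := cd2q2a) (C2 := cd2q0) (C3 := pd2)
    rfl k0_pp_202_a

noncomputable def f_pp_202_b : ℕ → ℕ → ℕ → ℕ → Bool := onCell 1239849684 370763052 0 536870912 649613803 48318383
    (rowB 3 eng mog cd2q2b cd2q0 pd2 0 true true true .pp 2 0 2 (qsf 1239849684 370763052 0 536870912 2) ndB2q2b ndB2q0 pcB2 Cut.none Ext.none)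

def k0_pp_202_b : ∃ t, chk3 f_pp_202_b t 1 1 1 = true :=
  ⟨(l 5), by decide +kernel⟩

theorem c_pp_202_b : CertB 1239849684 370763052 0 536870912 649613803 48318383 3 eng mog cd2q2b cd2q0 pd2 true true true .pp 2 0 2
    ndB2q2b ndB2q0 pcB2 Cut.none Ext.none :=
  certB0 (fam := true) (s1 := true) (s2 := true) (a := 2) (b := 0) (c := 2) (cn := .pp) (n1 := ndB2q2b) (n2 := ndB2q0) (pc := pcB2) (cut := Cut.none) (xt := Ext.none) (P1 := 1239849684) (W1 := 370763052) (P2 := 0) (W2 := 536870912) (P3 := 649613803) (W3 := 48318383) (N0 := 3) (En := eng) (mo := mog) (C1 := cd2q2b) (C2 := cd2q0) (C3 := pd2)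
    rfl k0_pp_202_b

noncomputable def f_pp_203_a : ℕ → ℕ → ℕ → ℕ → Bool := onCell 0 536870912 0 536870912 649613803 48318383
    (rowB 3 eng mog cd2q2a cd2q0 pd3 0 true true true .up 2 0 3 (qsf 0 536870912 0 536870912 3) ndB2q2a ndB2q0 pcB3 Cut.none Ext.none)

def k0_pp_203_a : ∃ t, chk3 f_pp_203_a t 1 1 1 = true :=
  ⟨(l 5), by decide +kernel⟩

theorem c_pp_203_a : CertB 0 536870912 0 536870912 649613803 48318383 3 eng mog cd2q2a cd2q0 pd3 true true true .up 2 0 3
    ndB2q2a ndB2q0 pcB3 Cut.none Ext.none :=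
  certB0 (fam := true) (s1 := true) (s2 := true) (a := 2) (b := 0) (c := 3) (cn := .up) (n1 := ndB2q2a) (n2 := ndB2q0) (pc := pcB3) (cut := Cut.none) (xt := Ext.none) (P1 := 0) (W1 := 536870912) (P2 := 0) (W2 := 536870912) (P3 := 649613803) (W3 := 48318383) (N0 := 3) (En := eng) (mo := mog) (C1 := cd2q2a) (C2 := cd2q0) (C3 := pd3)
    rfl k0_pp_203_a

noncomputable def f_pp_203_b : ℕ → ℕ → ℕ → ℕ → Bool := onCell 1239849684 370763052 0 536870912 649613803 48318383
    (rowB 3 eng mog cd2q2b cd2q0 pd3 0 true true true .up 2 0 3 (qsf 1239849684 370763052 0 536870912 3) ndB2q2b ndB2q0 pcB3 Cut.none Ext.none)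

def k0_pp_203_b : ∃ t, chk3 f_pp_203_b t 1 1 1 = true :=
  ⟨(l 5), by decide +kernel⟩

theorem c_pp_203_b : CertB 1239849684 370763052 0 536870912 649613803 48318383 3 eng mog cd2q2b cd2q0 pd3 true true true .up 2 0 3
    ndB2q2b ndB2q0 pcB3 Cut.none Ext.none :=
  certB0 (fam := true) (s1 := true) (s2 := true) (a := 2) (b := 0) (c := 3) (cn := .up) (n1 := ndB2q2b) (n2 := ndB2q0) (pc := pcB3) (cut := Cut.none) (xt := Ext.none) (P1 := 1239849684) (W1 := 370763052) (P2 := 0) (W2 := 536870912) (P3 := 649613803) (W3 := 48318383) (N0 := 3) (En := eng) (mo := mog) (C1 := cd2q2b) (C2 := cd2q0) (C3 := pd3)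
    rfl k0_pp_203_b

noncomputable def f_pp_213_a : ℕ → ℕ → ℕ → ℕ → Bool := onCell 0 536870912 536870912 536870912 649613803 48318383
    (rowB 3 eng mog cd2q2a cd2q1 pd3 0 true true true .pnn 2 1 3 (qsf 0 536870912 536870912 536870912 3) ndB2q2a ndB2q1 pcB3 Cut.none Ext.none)

def k0_pp_213_a : ∃ t, chk3 f_pp_213_a t 1 1 1 = true :=
  ⟨(l 4), by decide +kernel⟩

theorem c_pp_213_a : CertB 0 536870912 536870912 536870912 649613803 48318383 3 eng mog cd2q2a cd2q1 pd3 true true true .pnn 2 1 3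
    ndB2q2a ndB2q1 pcB3 Cut.none Ext.none :=
  certB0 (fam := true) (s1 := true) (s2 := true) (a := 2) (b := 1) (c := 3) (cn := .pnn) (n1 := ndB2q2a) (n2 := ndB2q1) (pc := pcB3) (cut := Cut.none) (xt := Ext.none) (P1 := 0) (W1 := 536870912) (P2 := 536870912) (W2 := 536870912) (P3 := 649613803) (W3 := 48318383) (N0 := 3) (En := eng) (mo := mog) (C1 := cd2q2a) (C2 := cd2q1) (C3 := pd3)
    rfl k0_pp_213_a

noncomputable def f_pp_213_b : ℕ → ℕ → ℕ → ℕ → Bool := onCell 1239849684 370763052 536870912 536870912 649613803 48318383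
    (rowB 3 eng mog cd2q2b cd2q1 pd3 0 true true true .pnn 2 1 3 (qsf 1239849684 370763052 536870912 536870912 3) ndB2q2b ndB2q1 pcB3 Cut.none Ext.none)

def k0_pp_213_b : ∃ t, chk3 f_pp_213_b t 1 1 1 = true :=
  ⟨(l 4), by decide +kernel⟩

theorem c_pp_213_b : CertB 1239849684 370763052 536870912 536870912 649613803 48318383 3 eng mog cd2q2b cd2q1 pd3 true true true .pnn 2 1 3
    ndB2q2b ndB2q1 pcB3 Cut.none Ext.none :=
  certB0 (fam := true) (s1 := true) (s2 := true) (a := 2) (b := 1) (c := 3) (cn := .pnn) (n1 := ndB2q2b) (n2 := ndB2q1) (pc := pcB3) (cut := Cut.none) (xt := Ext.none) (P1 := 1239849684) (W1 := 370763052) (P2 := 536870912) (W2 := 536870912) (P3 := 649613803) (W3 := 48318383) (N0 := 3) (En := eng) (mo := mog) (C1 := cd2q2b) (C2 := cd2q1) (C3 := pd3)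
    rfl k0_pp_213_b

noncomputable def f_pp_303 : ℕ → ℕ → ℕ → ℕ → Bool := onCell 1610612736 536870912 0 536870912 649613803 48318383
    (rowB 3 eng mog cd2q3 cd2q0 pd3 0 true true true .npn 3 0 3 (qsf 1610612736 536870912 0 536870912 3) ndB2q3 ndB2q0 pcB3 Cut.none Ext.none)

def k0_pp_303 : ∃ t, chk3 f_pp_303 t 1 1 1 = true :=
  ⟨(l 5), by decide +kernel⟩

theorem c_pp_303 : CertB 1610612736 536870912 0 536870912 649613803 48318383 3 eng mog cd2q3 cd2q0 pd3 true true true .npn 3 0 3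
    ndB2q3 ndB2q0 pcB3 Cut.none Ext.none :=
  certB0 (fam := true) (s1 := true) (s2 := true) (a := 3) (b := 0) (c := 3) (cn := .npn) (n1 := ndB2q3) (n2 := ndB2q0) (pc := pcB3) (cut := Cut.none) (xt := Ext.none) (P1 := 1610612736) (W1 := 536870912) (P2 := 0) (W2 := 536870912) (P3 := 649613803) (W3 := 48318383) (N0 := 3) (En := eng) (mo := mog) (C1 := cd2q3) (C2 := cd2q0) (C3 := pd3)
    rfl k0_pp_303

noncomputable def f_pp_313 : ℕ → ℕ → ℕ → ℕ → Bool := onCell 1610612736 536870912 536870912 536870912 649613803 48318383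
    (rowB 3 eng mog cd2q3 cd2q1 pd3 0 true true true .dn 3 1 3 (qsf 1610612736 536870912 536870912 536870912 3) ndB2q3 ndB2q1 pcB3 Cut.none Ext.none)

def k0_pp_313 : ∃ t, chk3 f_pp_313 t 1 1 1 = true :=
  ⟨(l 4), by decide +kernel⟩

theorem c_pp_313 : CertB 1610612736 536870912 536870912 536870912 649613803 48318383 3 eng mog cd2q3 cd2q1 pd3 true true true .dn 3 1 3
    ndB2q3 ndB2q1 pcB3 Cut.none Ext.none :=
  certB0 (fam := true) (s1 := true) (s2 := true) (a := 3) (b := 1) (c := 3) (cn := .dn) (n1 := ndB2q3) (n2 := ndB2q1) (pc := pcB3) (cut := Cut.none) (xt := Ext.none) (P1 := 1610612736) (W1 := 536870912) (P2 := 536870912) (W2 := 536870912) (P3 := 649613803) (W3 := 48318383) (N0 := 3) (En := eng) (mo := mog) (C1 := cd2q3) (C2 := cd2q1) (C3 := pd3)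
    rfl k0_pp_313

noncomputable def f_pm_001 : ℕ → ℕ → ℕ → ℕ → Bool := onCell 0 536870912 0 536870912 649613803 48318383
    (rowB 3 eng mog cd2q0 cd2q0 pd1 0 true true false .up 0 0 1 (qsf 0 536870912 0 536870912 1) ndB2q0 ndB2q0 pcB1 Cut.none Ext.none)

def k0_pm_001 : ∃ t, chk3 f_pm_001 t 1 1 1 = true :=
  ⟨(l 3), by decide +kernel⟩

theorem c_pm_001 : CertB 0 536870912 0 536870912 649613803 48318383 3 eng mog cd2q0 cd2q0 pd1 true true false .up 0 0 1
    ndB2q0 ndB2q0 pcB1 Cut.none Ext.none :=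
  certB0 (fam := true) (s1 := true) (s2 := false) (a := 0) (b := 0) (c := 1) (cn := .up) (n1 := ndB2q0) (n2 := ndB2q0) (pc := pcB1) (cut := Cut.none) (xt := Ext.none) (P1 := 0) (W1 := 536870912) (P2 := 0) (W2 := 536870912) (P3 := 649613803) (W3 := 48318383) (N0 := 3) (En := eng) (mo := mog) (C1 := cd2q0) (C2 := cd2q0) (C3 := pd1)
    rfl k0_pm_001

noncomputable def f_pm_011 : ℕ → ℕ → ℕ → ℕ → Bool := onCell 0 536870912 536870912 536870912 649613803 48318383
    (rowB 3 eng mog cd2q0 cd2q1 pd1 1 true true false .pnn 0 1 1 (qsf 0 536870912 536870912 536870912 1) ndB2q0 ndB2q1 pcB1 Cut.none Ext.none)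

def k0_pm_011 : ∃ t, chk3 f_pm_011 t 1 1 1 = true :=
  ⟨(l 3), by decide +kernel⟩

theorem c_pm_011 : CertB 0 536870912 536870912 536870912 649613803 48318383 3 eng mog cd2q0 cd2q1 pd1 true true false .pnn 0 1 1
    ndB2q0 ndB2q1 pcB1 Cut.none Ext.none :=
  certB1 (fam := true) (s1 := true) (s2 := false) (a := 0) (b := 1) (c := 1) (cn := .pnn) (n1 := ndB2q0) (n2 := ndB2q1) (pc := pcB1) (cut := Cut.none) (xt := Ext.none) (P1 := 0) (W1 := 536870912) (P2 := 536870912) (W2 := 536870912) (P3 := 649613803) (W3 := 48318383) (N0 := 3) (En := eng) (mo := mog) (C1 := cd2q0) (C2 := cd2q1) (C3 := pd1)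
    rfl (fun _ => rfl) k0_pm_011

noncomputable def f_pm_012 : ℕ → ℕ → ℕ → ℕ → Bool := onCell 1073741824 536870912 536870912 536870912 649613803 48318383
    (rowB 3 eng mog cd2q0 cd2q1 pd2 2 true true false .pnp 0 1 2 (qsf 0 536870912 536870912 536870912 2) ndB2q0 ndB2q1 pcB2 Cut.none Ext.none)

def k0_pm_012 : ∃ t, chk3 f_pm_012 t 4 1 1 = true :=
  ⟨(a (l 3) (b (l 3) (a (l 3) (b (l 3) (a (b (l 3) (b (l 3) (a (l 3) (l 16637168)))) (b (a (l 3) (b (l 3) (l 16650344))) (b (a (l 16649000) (l 16680720)) (a (b (l 16632656) (l 16557832)) (b (l 16622784) (l 16611152)))))))))), by decide +kernel⟩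

def k1_pm_012 : ∃ t, chk3 f_pm_012 t 5 1 1 = true :=
  ⟨(a (a (a (b (l 3) (b (a (l 3) (b (l 3) (b (l 16668088) (a (l 16657432) (l 16652512))))) (b (a (b (l 16651768) (l 16659832)) (b (a (l 16643544) (l 16638424)) (a (l 16630128) (l 16624584)))) (a (b (a (l 16629952) (l 16623920)) (b (l 16613832) (l 16602576))) (b (l 16614944) (b (l 16604656) (l 16593352))))))) (b (b (l 2) (b (a (l 3) (a (l 16700800) (a (l 16699240) (l 16698320)))) (a (l 3) (a (l 16708968) (a (l 16728192) (b (l 16688504) (l 16680920))))))) (a (b (b (a (l 16677760) (l 16737424)) (a (b (l 16661728) (l 16648120)) (b (l 16658320) (l 16644064)))) (b (a (b (l 16633432) (l 16619128)) (b (l 16628832) (l 16613760))) (b (a (l 16606152) (l 16600416)) (l 16588912)))) (b (a (b (a (l 16672376) (l 16670840)) (b (l 16654544) (l 16639800))) (b (a (l 16668824) (a (b (l 16672616) (b (l 16664936) (l 16722016))) (l 16666416))) (a (b (l 16651312) (l 16656848)) (a (b (b (l 16694432) (l 16644744)) (l 16695104))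 (l 16638624))))) (a (b (b (l 16623744) (l 16608064)) (b (l 16594840) (l 16580288))) (b (a (b (l 16618896) (l 16603296)) (b (c (l 16660200) (l 16716360)) (l 16620576))) (a (b (l 16590768) (l 16575440)) (b (b (l 16632392) (b (l 16649416) (l 16658472))) (l 16571936))))))))) (b (b (l 2) (b (l 16690408) (l 16673696))) (b (b (b (l 16658216) (l 16645240)) (b (l 16629088) (l 16610616))) (b (b (l 16592056) (l 16575592)) (b (l 16563568) (l 16551648)))))) (b (b (l 2) (b (l 16674280) (l 16649000))) (b (b (b (l 16625992) (l 16607560)) (a (l 16587256) (l 16558920))) (b (b (l 16577048) (l 16513040)) (a (l 16619544) (l 16514584)))))), by decide +kernel⟩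

def k2_pm_012 : ∃ t, chk3 f_pm_012 t 3 1 1 = true :=
  ⟨(b (a (b (l 2) (a (b (l 2) (l 16633056)) (l 2))) (l 2)) (a (b (a (b (l 16587744) (a (l 16535600) (l 16521576))) (b (l 16581408) (l 16512304))) (b (a (a (l 16472120) (l 16451344)) (l 16435408)) (a (b (l 16424728) (l 16411808)) (b (l 16386104) (l 16362704))))) (b (b (l 2) (a (l 16518144) (l 2))) (b (a (l 16436144) (l 16461728)) (a (l 16359704) (l 16375448)))))), by decide +kernel⟩

theorem s3_pm_012 : ∃ t, chk3 f_pm_012 t 2 1 1 = true := ex3_a k0_pm_012 k1_pm_012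

theorem s4_pm_012 : ∃ t, chk3 f_pm_012 t 1 1 1 = true := ex3_a s3_pm_012 k2_pm_012

theorem c_pm_012 : CertB 0 536870912 536870912 536870912 649613803 48318383 3 eng mog cd2q0 cd2q1 pd2 true true false .pnp 0 1 2
    ndB2q0 ndB2q1 pcB2 Cut.none Ext.none :=
  certB2 (fam := true) (s1 := true) (s2 := false) (a := 0) (b := 1) (c := 2) (cn := .pnp) (n1 := ndB2q0) (n2 := ndB2q1) (pc := pcB2) (cut := Cut.none) (xt := Ext.none) (P1 := 0) (W1 := 536870912) (P2 := 536870912) (W2 := 536870912) (P3 := 649613803) (W3 := 48318383) (N0 := 3) (En := eng) (mo := mog) (C1 := cd2q0) (C2 := cd2q1) (C3 := pd2)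
    rfl (fun _ => rfl) s4_pm_012

noncomputable def cut_pm_022_a : Cut := Cut.of [[⟨0, 0, 0, 67108864⟩, ⟨1, 1, 0, 67108864⟩, ⟨2, 1, 0, 67108864⟩]]

noncomputable def f_pm_022_a : ℕ → ℕ → ℕ → ℕ → Bool := onCell 1073741824 536870912 0 536870912 649613803 48318383
    (rowB 3 eng mog cd2q0 cd2q2a pd2 2 true true false .pp 0 2 2 (qsf 0 536870912 0 536870912 2) ndB2q0 ndB2q2a pcB2 cut_pm_022_a Ext.none)

def k0_pm_022_a : ∃ t, chk3 f_pm_022_a t 2 2 1 = true :=
  ⟨(a (a (l 1) (b (l 1) (a (l 1) (b (l 1) (a (l 1) (a (l 1) (b (l 1) (l 16500816)))))))) (a (a (b (a (l 1) (b (a (l 1) (b (l 16514936) (l 16454424))) (c (a (l 16459936) (l 16463688)) (a (l 16450144) (l 16455552))))) (a (a (b (l 1) (b (l 171831699255) (l 16503952))) (b (b (l 16462592) (c (l 16480288) (l 16469056))) (b (c (l 16495272) (l 16484792)) (c (l 16511064) (l 16501392))))) (b (c (b (l 16473064) (l 16484592)) (a (b (l 16461248) (l 16473424)) (b (l 16465976) (l 16477480)))) (a (b (c (l 16497552)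 (l 16488464)) (l 16509224)) (a (b (l 16495640) (l 16510808)) (b (a (l 16496568) (l 16497192)) (l 16553688))))))) (b (a (a (b (c (b (c (l 16446144) (l 16447136)) (l 16450712)) (l 16454040)) (b (l 16501264) (l 16466872))) (b (c (a (l 16446792) (b (l 16443736) (l 16447864))) (l 16449992)) (c (b (c (l 16454344) (l 16455016)) (l 16473048)) (l 16463200)))) (b (c (b (l 16447584) (l 16419632)) (l 16452576)) (b (a (l 16351816) (l 16458832)) (l 16465432)))) (c (b (a (b (l 16536568) (l 16483968)) (l 16478232)) (a (b (l 16494696) (l 16506184)) (l 16498480))) (b (a (b (l 16472296) (l 16482840)) (l 16477712)) (a (b (l 16496048) (l 16509752)) (l 16501024)))))) (b (a (b (a (b (l 16453952) (l 16456736)) (l 16459568)) (a (l 16506624) (l 16463712))) (b (l 16503376) (l 16464448))) (a (b (b (l 16472448) (l 16480768)) (b (l 16490640) (l 16501616))) (b (b (l 16471584) (l 16478208)) (l 16511584)))))), by decide +kernel⟩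

def k1_pm_022_a : ∃ t, chk3 f_pm_022_a t 4 3 1 = true :=
  ⟨(a (b (l 1) (a (b (l 1) (l 6)) (a (b (b (l 1) (l 6)) (l 6)) (a (b (b (l 1) (l 6)) (l 6)) (b (b (b (l 1) (b (l 141230316183) (l 195454301687))) (a (l 6) (b (l 16649216) (l 16664760)))) (b (b (l 16681160) (l 16691512)) (b (l 16694712) (l 16697072)))))))) (b (b (a (l 1) (a (b (a (l 1) (l 16515336)) (a (l 148746332791) (l 205654673447))) (b (a (l 156262500279) (l 16520456)) (a (l 16540464) (l 16457896))))) (a (a (b (l 1) (a (l 1) (b (l 16583328) (l 189548629959)))) (b (a (l 111165415335) (b (l 16555288) (l 16569328))) (a (b (l 146598930039) (l 16598472)) (b (l 16583584) (l 16597808))))) (b (a (a (b (l 16556448) (l 16569840)) (l 16584816)) (c (l 16567880) (l 16475912))) (a (a (b (l 16583416) (l 16596952)) (l 16589544)) (l 16587872))))) (b (a (b (a (b (a (l 177200637671) (l 16614680)) (a (b (l 16628104) (l 16636168)) (c (l 16633528) (l 16626832)))) (b (a (l 16613512) (l 16612120)) (a (l 16628504)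 (l 16626360)))) (a (b (a (c (l 16650272) (l 16644280)) (l 16645056)) (a (l 16662512) (l 16659408))) (a (l 16649432) (l 16642376)))) (a (b (a (l 16617408) (l 16615136)) (l 16628768)) (b (l 16602584) (l 16611536)))) (a (b (a (b (l 16672744) (l 16676512)) (b (l 16653400) (l 16657088))) (b (a (a (l 16684632) (l 16674704)) (l 16660176)) (a (l 16682008) (l 16662464)))) (b (a (b (l 16634936) (l 16638528)) (l 16619392)) (a (l 16684744) (b (l 16623896) (l 16625944)))))))), by decide +kernel⟩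

def k2_pm_022_a : ∃ t, chk3 f_pm_022_a t 5 3 1 = true :=
  ⟨(a (b (a (a (b (a (b (l 16438704) (l 16542784)) (b (l 16524400) (l 16543456))) (b (l 16563696) (l 16578224))) (b (a (b (l 16525832) (l 16543720)) (a (l 16535480) (a (l 16533792) (l 16532544)))) (a (l 16563192) (a (l 16558416) (a (l 16556280) (l 16555128)))))) (b (a (l 16547208) (l 16520640)) (a (l 16569000) (l 16540280)))) (a (a (b (b (l 16586904) (l 16595520)) (b (l 16603104) (b (l 16607048) (l 16607840)))) (b (a (b (l 16576024) (l 16584384)) (a (b (l 16571048) (l 16579320)) (b (a (l 16568896) (l 16567824)) (a (l 16577160) (l 16576144))))) (a (b (l 16591552) (l 16594536)) (a (b (l 16586128) (l 16588472)) (b (a (l 16583768) (l 16582632)) (a (l 16585920) (l 16605736))))))) (b (b (a (l 16560160) (l 16550720)) (a (l 16567904) (l 16556888))) (b (a (l 16573440) (l 16560928)) (a (l 16575328) (l 16561920)))))) (a (b (b (b (l 16511312) (l 16520328)) (l 16571856)) (b (b (l 16539960) (l 16543984))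 (b (l 16546152) (l 16545400)))) (b (b (l 16509360) (l 16522616)) (b (b (l 16526704) (l 16528344)) (b (l 16528224) (l 16525312)))))), by decide +kernel⟩

def k3_pm_022_a : ∃ t, chk3 f_pm_022_a t 3 1 1 = true :=
  ⟨(b (a (a (b (a (b (b (l 16467800) (l 16466664)) (l 16448648)) (b (l 16481720) (l 16482768))) (b (a (b (l 16475936) (l 16481712)) (l 16490288)) (a (l 16492032) (l 16497744)))) (b (a (b (a (l 16494888) (l 16503936)) (l 16498376)) (b (l 16518192) (l 16515024))) (a (b (l 16502624) (l 16503960)) (b (l 16515968) (l 16511640))))) (a (b (a (b (l 16537752) (l 16532728)) (b (l 16557640) (l 16550512))) (b (a (l 16530280) (l 16544432)) (l 16524592))) (b (b (l 16585936) (l 16554688)) (b (a (l 16558520) (l 16571616)) (l 16539160))))) (a (b (a (b (l 16650384) (a (l 16514120) (l 16506664))) (a (b (l 16499184) (l 16500240)) (b (l 16498560) (l 16492976)))) (a (b (b (l 16509584) (l 16508160)) (b (l 16505144) (a (l 16507504) (l 16492232)))) (b (a (l 16494728)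 (l 16485256)) (a (l 16483688) (l 16471904))))) (b (a (a (l 16677816) (l 16484464)) (b (l 16495224) (l 16469664))) (a (b (a (l 16475784) (l 16465832)) (a (l 16460832) (l 16450824))) (b (a (l 16454672) (l 16443360)) (l 16476808)))))), by decide +kernel⟩

theorem s4_pm_022_a : ∃ t, chk3 f_pm_022_a t 2 3 1 = true := ex3_a k1_pm_022_a k2_pm_022_a

theorem s5_pm_022_a : ∃ t, chk3 f_pm_022_a t 2 1 1 = true := ex3_b k0_pm_022_a s4_pm_022_a

theorem s6_pm_022_a : ∃ t, chk3 f_pm_022_a t 1 1 1 = true := ex3_a s5_pm_022_a k3_pm_022_a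

theorem c_pm_022_a : CertB 0 536870912 0 536870912 649613803 48318383 3 eng mog cd2q0 cd2q2a pd2 true true false .pp 0 2 2
    ndB2q0 ndB2q2a pcB2 cut_pm_022_a Ext.none :=
  certB2 (fam := true) (s1 := true) (s2 := false) (a := 0) (b := 2) (c := 2) (cn := .pp) (n1 := ndB2q0) (n2 := ndB2q2a) (pc := pcB2) (cut := cut_pm_022_a) (xt := Ext.none) (P1 := 0) (W1 := 536870912) (P2 := 0) (W2 := 536870912) (P3 := 649613803) (W3 := 48318383) (N0 := 3) (En := eng) (mo := mog) (C1 := cd2q0) (C2 := cd2q2a) (C3 := pd2)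
    rfl (fun _ => rfl) s6_pm_022_a

noncomputable def cut_pm_022_b : Cut := Cut.of [[⟨0, 0, 0, 67108864⟩, ⟨1, 1, 0, 67108864⟩, ⟨2, 1, 0, 67108864⟩]]

noncomputable def f_pm_022_b : ℕ → ℕ → ℕ → ℕ → Bool := onCell 1073741824 536870912 1239849684 370763052 649613803 48318383
    (rowB 3 eng mog cd2q0 cd2q2b pd2 2 true true false .pp 0 2 2 (qsf 0 536870912 1239849684 370763052 2) ndB2q0 ndB2q2b pcB2 cut_pm_022_b Ext.none)

def k0_pm_022_b : ∃ t, chk3 f_pm_022_b t 1 1 1 = true :=
  ⟨(a (b (a (l 1) (a (b (b (a (a (l 1) (c (b (l 16427056) (l 1)) (l 16493608))) (a (b (c (a (b (b (l 16377056) (l 16429816)) (l 1)) (b (a (l 16433112) (l 16432368)) (a (l 16412480) (l 16369848)))) (a (l 16428232) (b (l 16436432) (l 16417248)))) (l 1)) (b (b (c (l 16436424) (l 16439560)) (l 16293864)) (l 16381704)))) (l 1)) (l 1)) (b (b (a (b (a (c (l 16432088) (l 16433080)) (l 16436560)) (a (l 16382880) (l 16385504))) (b (l 16439880) (l 16391912))) (a (b (a (l 16327496) (l 16332072))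 (l 1)) (b (l 16341472) (l 16289040)))) (b (a (l 1) (a (l 1) (l 16213832))) (l 1))))) (l 1)) (b (a (a (b (b (a (b (l 16448184) (l 16404144)) (b (l 16463288) (l 16420448))) (a (b (l 16357688) (l 16309152)) (l 16355256))) (b (a (b (l 16258928) (l 16207416)) (l 16262672)) (a (l 1) (l 109554069031)))) (b (a (b (a (l 16458304) (l 16470432)) (a (l 16373048) (l 16386840))) (b (l 16489312) (l 16411056))) (a (b (l 16294200) (a (l 16193408) (l 16213448))) (b (l 16328032) (l 16244896))))) (a (b (b (a (l 16514592) (l 16539928)) (a (l 16445400) (l 16479504))) (a (b (l 16366000) (l 16286632)) (l 16370360))) (b (b (a (l 16564880) (l 16588784)) (l 16529440)) (a (l 16413840) (l 16457464))))) (a (b (a (l 1) (a (b (a (l 16098216) (l 16142592)) (l 1)) (b (l 192769106487) (l 206727636999)))) (l 1)) (a (b (a (b (l 16208248) (l 16128240)) (l 16221312)) (a (l 1) (l 343092953863))) (b (a (l 16272272) (l 16323632)) (a (l 189547973527) (l 16201408))))))), by decide +kernel⟩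

theorem c_pm_022_b : CertB 0 536870912 1239849684 370763052 649613803 48318383 3 eng mog cd2q0 cd2q2b pd2 true true false .pp 0 2 2
    ndB2q0 ndB2q2b pcB2 cut_pm_022_b Ext.none :=
  certB2 (fam := true) (s1 := true) (s2 := false) (a := 0) (b := 2) (c := 2) (cn := .pp) (n1 := ndB2q0) (n2 := ndB2q2b) (pc := pcB2) (cut := cut_pm_022_b) (xt := Ext.none) (P1 := 0) (W1 := 536870912) (P2 := 1239849684) (W2 := 370763052) (P3 := 649613803) (W3 := 48318383) (N0 := 3) (En := eng) (mo := mog) (C1 := cd2q0) (C2 := cd2q2b) (C3 := pd2)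
    rfl (fun _ => rfl) k0_pm_022_b

noncomputable def f_pm_023_a : ℕ → ℕ → ℕ → ℕ → Bool := onCell 1610612736 536870912 0 536870912 649613803 48318383
    (rowB 3 eng mog cd2q0 cd2q2a pd3 2 true true false .up 0 2 3 (qsf 0 536870912 0 536870912 3) ndB2q0 ndB2q2a pcB3 Cut.none Ext.none)

def k0_pm_023_a : ∃ t, chk3 f_pm_023_a t 1 1 1 = true :=
  ⟨(a (b (a (a (b (a (l 16578032) (l 16627584)) (b (l 16586160) (l 16577624))) (b (a (l 16668656) (l 16702400)) (l 16661200))) (a (b (a (l 16732096) (l 16757352)) (a (l 16712616) (l 2))) (l 2))) (b (a (a (l 16560688) (a (l 16619056) (l 16656648))) (l 2)) (a (a (b (l 16532936) (l 16524848)) (a (l 16664592) (l 2))) (l 2)))) (l 2)), by decide +kernel⟩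

theorem c_pm_023_a : CertB 0 536870912 0 536870912 649613803 48318383 3 eng mog cd2q0 cd2q2a pd3 true true false .up 0 2 3
    ndB2q0 ndB2q2a pcB3 Cut.none Ext.none :=
  certB2 (fam := true) (s1 := true) (s2 := false) (a := 0) (b := 2) (c := 3) (cn := .up) (n1 := ndB2q0) (n2 := ndB2q2a) (pc := pcB3) (cut := Cut.none) (xt := Ext.none) (P1 := 0) (W1 := 536870912) (P2 := 0) (W2 := 536870912) (P3 := 649613803) (W3 := 48318383) (N0 := 3) (En := eng) (mo := mog) (C1 := cd2q0) (C2 := cd2q2a) (C3 := pd3)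
    rfl (fun _ => rfl) k0_pm_023_a

noncomputable def f_pm_023_b : ℕ → ℕ → ℕ → ℕ → Bool := onCell 1610612736 536870912 1239849684 370763052 649613803 48318383
    (rowB 3 eng mog cd2q0 cd2q2b pd3 2 true true false .up 0 2 3 (qsf 0 536870912 1239849684 370763052 3) ndB2q0 ndB2q2b pcB3 Cut.none Ext.none)

def k0_pm_023_b : ∃ t, chk3 f_pm_023_b t 1 1 1 = true :=
  ⟨(a (a (b (a (b (a (l 16589608) (l 16600600)) (l 16552920)) (b (a (l 16600752) (l 16646616)) (l 16576968))) (a (b (l 16385944) (l 16253480)) (b (l 16470784) (l 16343976)))) (b (a (b (l 16704592) (l 16643280)) (b (l 16889728) (l 16711824))) (a (b (l 16564240) (l 16457872)) (b (l 16659248) (l 4))))) (a (l 4) (l 4))), by decide +kernel⟩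

theorem c_pm_023_b : CertB 0 536870912 1239849684 370763052 649613803 48318383 3 eng mog cd2q0 cd2q2b pd3 true true false .up 0 2 3
    ndB2q0 ndB2q2b pcB3 Cut.none Ext.none :=
  certB2 (fam := true) (s1 := true) (s2 := false) (a := 0) (b := 2) (c := 3) (cn := .up) (n1 := ndB2q0) (n2 := ndB2q2b) (pc := pcB3) (cut := Cut.none) (xt := Ext.none) (P1 := 0) (W1 := 536870912) (P2 := 1239849684) (W2 := 370763052) (P3 := 649613803) (W3 := 48318383) (N0 := 3) (En := eng) (mo := mog) (C1 := cd2q0) (C2 := cd2q2b) (C3 := pd3)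
    rfl (fun _ => rfl) k0_pm_023_b

noncomputable def f_pm_033 : ℕ → ℕ → ℕ → ℕ → Bool := onCell 0 536870912 1610612736 536870912 649613803 48318383
    (rowB 3 eng mog cd2q0 cd2q3 pd3 1 true true false .pnn 0 3 3 (qsf 0 536870912 1610612736 536870912 3) ndB2q0 ndB2q3 pcB3 Cut.none Ext.none)

def k0_pm_033 : ∃ t, chk3 f_pm_033 t 1 1 1 = true :=
  ⟨(b (b (a (a (b (a (l 16143488) (l 16247808)) (l 16170376)) (b (l 1) (l 16392440))) (l 1)) (a (b (a (l 16191640) (l 16391744)) (a (l 16288648) (l 4))) (b (l 1) (a (l 16607736) (l 1))))) (l 4)), by decide +kernel⟩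

theorem c_pm_033 : CertB 0 536870912 1610612736 536870912 649613803 48318383 3 eng mog cd2q0 cd2q3 pd3 true true false .pnn 0 3 3
    ndB2q0 ndB2q3 pcB3 Cut.none Ext.none :=
  certB1 (fam := true) (s1 := true) (s2 := false) (a := 0) (b := 3) (c := 3) (cn := .pnn) (n1 := ndB2q0) (n2 := ndB2q3) (pc := pcB3) (cut := Cut.none) (xt := Ext.none) (P1 := 0) (W1 := 536870912) (P2 := 1610612736) (W2 := 536870912) (P3 := 649613803) (W3 := 48318383) (N0 := 3) (En := eng) (mo := mog) (C1 := cd2q0) (C2 := cd2q3) (C3 := pd3)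
    rfl (fun _ => rfl) k0_pm_033

noncomputable def f_pm_101 : ℕ → ℕ → ℕ → ℕ → Bool := onCell 536870912 536870912 0 536870912 649613803 48318383
    (rowB 3 eng mog cd2q1 cd2q0 pd1 2 true true false .npn 1 0 1 (qsf 536870912 536870912 0 536870912 1) ndB2q1 ndB2q0 pcB1 Cut.none Ext.none)

def k0_pm_101 : ∃ t, chk3 f_pm_101 t 1 1 1 = true :=
  ⟨(l 3), by decide +kernel⟩

theorem c_pm_101 : CertB 536870912 536870912 0 536870912 649613803 48318383 3 eng mog cd2q1 cd2q0 pd1 true true false .npn 1 0 1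
    ndB2q1 ndB2q0 pcB1 Cut.none Ext.none :=
  certB2 (fam := true) (s1 := true) (s2 := false) (a := 1) (b := 0) (c := 1) (cn := .npn) (n1 := ndB2q1) (n2 := ndB2q0) (pc := pcB1) (cut := Cut.none) (xt := Ext.none) (P1 := 536870912) (W1 := 536870912) (P2 := 0) (W2 := 536870912) (P3 := 649613803) (W3 := 48318383) (N0 := 3) (En := eng) (mo := mog) (C1 := cd2q1) (C2 := cd2q0) (C3 := pd1)
    rfl (fun _ => rfl) k0_pm_101

noncomputable def f_pm_102 : ℕ → ℕ → ℕ → ℕ → Bool := onCell 536870912 536870912 1073741824 536870912 649613803 48318383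
    (rowB 3 eng mog cd2q1 cd2q0 pd2 1 true true false .npp 1 0 2 (qsf 536870912 536870912 0 536870912 2) ndB2q1 ndB2q0 pcB2 Cut.none Ext.none)

def k0_pm_102 : ∃ t, chk3 f_pm_102 t 1 4 1 = true :=
  ⟨(b (l 3) (a (l 3) (b (l 3) (a (l 3) (b (a (l 3) (a (l 3) (b (l 3) (l 16637168)))) (a (b (l 3) (a (l 3) (l 16650344))) (a (b (l 16649000) (l 16680720)) (b (a (l 16632656) (l 16557832)) (a (l 16622784) (l 16611152)))))))))), by decide +kernel⟩

def k1_pm_102 : ∃ t, chk3 f_pm_102 t 1 5 1 = true :=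
  ⟨(b (b (b (a (l 3) (a (b (l 3) (a (l 3) (a (l 16668088) (b (l 16657432) (l 16652512))))) (a (b (a (l 16651768) (l 16659832)) (a (b (l 16643544) (l 16638424)) (b (l 16630128) (l 16624584)))) (b (a (b (l 16629952) (l 16623920)) (a (l 16613832) (l 16602576))) (a (l 16614944) (a (l 16604656) (l 16593352))))))) (a (a (l 2) (a (b (l 3) (b (l 16700800) (b (l 16699240) (l 16698320)))) (b (l 3) (b (l 16708968) (b (l 16728192) (a (l 16688504) (l 16680920))))))) (b (a (a (b (l 16677760) (l 16737424)) (b (a (l 16661728) (l 16648120)) (a (l 16658320) (l 16644064)))) (a (b (a (l 16633432) (l 16619128)) (a (l 16628832) (l 16613760))) (a (b (l 16606152) (l 16600416)) (l 16588912)))) (a (b (a (b (l 16672376) (l 16670840)) (a (l 16654544) (l 16639800))) (a (b (l 16668824) (a (l 16672200) (a (l 16664472) (a (l 16660192) (l 16657056))))) (b (a (l 16651312) (l 16656848)) (b (a (a (l 16694432) (l 16644744)) (l 16695104)) (l 16638624))))) (b (a (a (l 16623744) (l 16608064))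 (a (l 16594840) (l 16580288))) (a (b (a (l 16618896) (l 16603296)) (a (c (l 16660200) (l 16716360)) (l 16620576))) (b (a (l 16590768) (l 16575440)) (a (a (l 16632392) (a (l 16649416) (l 16658472))) (l 16571936))))))))) (a (a (l 2) (a (l 16690408) (l 16673696))) (a (a (a (l 16658216) (l 16645240)) (a (l 16629088) (l 16610616))) (a (a (l 16592056) (l 16575592)) (a (l 16563568) (l 16551648)))))) (a (a (l 2) (a (l 16674280) (l 16649000))) (a (a (a (l 16625992) (l 16607560)) (b (l 16587256) (l 16558920))) (a (a (l 16577048) (l 16513040)) (a (l 16497864) (l 16488576)))))), by decide +kernel⟩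

def k2_pm_102 : ∃ t, chk3 f_pm_102 t 1 3 1 = true :=
  ⟨(a (b (a (l 2) (b (a (l 2) (l 16633056)) (l 2))) (l 2)) (b (a (b (a (l 16587744) (b (l 16535600) (l 16521576))) (a (l 16581408) (l 16512304))) (a (b (b (l 16472120) (l 16451344)) (l 16435408)) (b (a (l 16424728) (l 16411808)) (a (l 16386104) (l 16362704))))) (a (a (l 2) (b (l 16518144) (l 2))) (a (b (l 16436144) (l 16461728)) (b (l 16359704) (l 16375448)))))), by decide +kernel⟩

theorem s3_pm_102 : ∃ t, chk3 f_pm_102 t 1 2 1 = true := ex3_b k0_pm_102 k1_pm_102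

theorem s4_pm_102 : ∃ t, chk3 f_pm_102 t 1 1 1 = true := ex3_b s3_pm_102 k2_pm_102

theorem c_pm_102 : CertB 536870912 536870912 0 536870912 649613803 48318383 3 eng mog cd2q1 cd2q0 pd2 true true false .npp 1 0 2
    ndB2q1 ndB2q0 pcB2 Cut.none Ext.none :=
  certB1 (fam := true) (s1 := true) (s2 := false) (a := 1) (b := 0) (c := 2) (cn := .npp) (n1 := ndB2q1) (n2 := ndB2q0) (pc := pcB2) (cut := Cut.none) (xt := Ext.none) (P1 := 536870912) (W1 := 536870912) (P2 := 0) (W2 := 536870912) (P3 := 649613803) (W3 := 48318383) (N0 := 3) (En := eng) (mo := mog) (C1 := cd2q1) (C2 := cd2q0) (C3 := pd2)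
    rfl (fun _ => rfl) s4_pm_102

noncomputable def f_pm_112 : ℕ → ℕ → ℕ → ℕ → Bool := onCell 536870912 536870912 1073741824 536870912 649613803 48318383
    (rowB 3 eng mog cd2q1 cd2q1 pd2 1 true true false .dn 1 1 2 (qsf 536870912 536870912 536870912 536870912 2) ndB2q1 ndB2q1 pcB2 Cut.none Ext.none)

def k0_pm_112 : ∃ t, chk3 f_pm_112 t 1 1 1 = true :=
  ⟨(a (b (b (l 3) (b (b (b (l 3) (a (b (l 3) (b (l 3) (b (l 16786848) (a (l 16677576) (l 16680952))))) (a (b (l 3) (b (l 16672024) (b (l 16671112) (l 117071280135)))) (l 1)))) (a (l 16736408) (l 115997775815))) (a (a (l 16644152) (l 16656384)) (a (l 16651968) (l 16632400))))) (b (a (b (a (l 16607136) (l 16635216)) (a (l 16561672) (l 16614472))) (b (l 16803040) (l 16641432))) (a (b (a (l 16531032) (l 16588896)) (a (b (l 16478856) (l 16458600)) (l 16560024))) (b (l 16663992) (a (l 16663072) (l 16719928)))))) (b (b (l 1) (b (l 1) (a (a (l 264710849751) (l 1)) (l 1)))) (b (a (b (a (l 16587224) (l 250752148311))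 (a (l 16590344) (l 16530824))) (a (b (l 1) (l 16468232)) (l 1))) (a (a (b (l 16623560) (l 16699216)) (l 16637576)) (a (l 16635672) (b (l 16412856) (l 16431024))))))), by decide +kernel⟩

theorem c_pm_112 : CertB 536870912 536870912 536870912 536870912 649613803 48318383 3 eng mog cd2q1 cd2q1 pd2 true true false .dn 1 1 2
    ndB2q1 ndB2q1 pcB2 Cut.none Ext.none :=
  certB1 (fam := true) (s1 := true) (s2 := false) (a := 1) (b := 1) (c := 2) (cn := .dn) (n1 := ndB2q1) (n2 := ndB2q1) (pc := pcB2) (cut := Cut.none) (xt := Ext.none) (P1 := 536870912) (W1 := 536870912) (P2 := 536870912) (W2 := 536870912) (P3 := 649613803) (W3 := 48318383) (N0 := 3) (En := eng) (mo := mog) (C1 := cd2q1) (C2 := cd2q1) (C3 := pd2)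
    rfl (fun _ => rfl) k0_pm_112

noncomputable def f_pm_113 : ℕ → ℕ → ℕ → ℕ → Bool := onCell 536870912 536870912 536870912 536870912 649613803 48318383
    (rowB 3 eng mog cd2q1 cd2q1 pd3 0 true true false .nn 1 1 3 (qsf 536870912 536870912 536870912 536870912 3) ndB2q1 ndB2q1 pcB3 Cut.none Ext.none)

def k0_pm_113 : ∃ t, chk3 f_pm_113 t 1 1 1 = true :=
  ⟨(a (b (a (l 1) (b (l 1) (l 148210029383))) (b (a (b (l 1) (l 16586320)) (b (l 16705616) (l 16769240))) (a (b (l 149283616023) (b (l 16531472) (l 16535176))) (b (l 16861976) (a (b (l 16803432) (l 16790160)) (b (l 16893104) (l 16875816))))))) (b (a (b (a (l 1) (l 16586320)) (a (l 16705616) (l 16769240))) (b (a (l 149283616023) (a (l 16531472) (l 16535176))) (a (l 16861976) (b (a (l 16803432) (l 16790160)) (a (l 16893104) (l 16875816)))))) (a (b (l 17144280) (b (l 17002368) (a (l 17056992) (l 16938712)))) (b (a (l 17002368) (b (l 17056992) (l 16938712))) (a (b (l 17004864) (l 16915504)) (b (l 16915504)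 (a (l 16876680) (b (l 16855752) (a (l 16828704) (b (l 16818536) (b (l 16802976) (a (l 16797672) (b (l 16790080) (a (l 16787368) (b (l 16783648) (a (l 16782272) (l 16779808))))))))))))))))), by decide +kernel⟩

theorem c_pm_113 : CertB 536870912 536870912 536870912 536870912 649613803 48318383 3 eng mog cd2q1 cd2q1 pd3 true true false .nn 1 1 3
    ndB2q1 ndB2q1 pcB3 Cut.none Ext.none :=
  certB0 (fam := true) (s1 := true) (s2 := false) (a := 1) (b := 1) (c := 3) (cn := .nn) (n1 := ndB2q1) (n2 := ndB2q1) (pc := pcB3) (cut := Cut.none) (xt := Ext.none) (P1 := 536870912) (W1 := 536870912) (P2 := 536870912) (W2 := 536870912) (P3 := 649613803) (W3 := 48318383) (N0 := 3) (En := eng) (mo := mog) (C1 := cd2q1) (C2 := cd2q1) (C3 := pd3)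
    rfl k0_pm_113

noncomputable def f_pm_123_a : ℕ → ℕ → ℕ → ℕ → Bool := onCell 1610612736 536870912 0 536870912 649613803 48318383
    (rowB 3 eng mog cd2q1 cd2q2a pd3 2 true true false .npn 1 2 3 (qsf 536870912 536870912 0 536870912 3) ndB2q1 ndB2q2a pcB3 Cut.none Ext.none)

def k0_pm_123_a : ∃ t, chk3 f_pm_123_a t 1 1 1 = true :=
  ⟨(b (a (b (a (l 1) (a (a (l 16774376) (l 16790056)) (l 16782056))) (a (a (l 1) (l 16730992)) (a (a (l 16768192) (l 16797376)) (l 16840944)))) (a (a (a (b (l 16747984) (l 16809560)) (l 72176039223)) (a (l 80765926343) (l 103314331607))) (l 4))) (a (a (a (b (l 1) (b (l 16604256) (l 16594440))) (b (b (l 16709912) (l 16698520)) (a (b (l 16673288) (l 16690968)) (b (l 16728280) (l 16770496))))) (a (b (a (l 16914272) (l 16819296)) (a (a (l 16809680) (b (l 16820040) (a (l 16886464) (l 16889776)))) (a (b (l 16852024) (a (l 16877896) (l 16869208))) (l 16875344)))) (b (a (l 16882984) (l 16907032)) (b (l 16902896) (l 16917920)))))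 (a (a (b (b (l 16880080) (l 16907248)) (b (l 16916392) (l 16939776))) (a (b (l 16845616) (b (l 16906880) (l 16929656))) (b (l 16803992) (b (l 16887104) (l 16913872))))) (a (b (a (l 16791560) (l 25468009783)) (b (a (l 16848000) (l 16845320)) (a (l 16909616) (l 16880064)))) (b (l 4) (a (a (b (l 16775512) (l 16806792)) (l 16911720)) (a (l 211762256759) (l 4)))))))), by decide +kernel⟩

theorem c_pm_123_a : CertB 536870912 536870912 0 536870912 649613803 48318383 3 eng mog cd2q1 cd2q2a pd3 true true false .npn 1 2 3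
    ndB2q1 ndB2q2a pcB3 Cut.none Ext.none :=
  certB2 (fam := true) (s1 := true) (s2 := false) (a := 1) (b := 2) (c := 3) (cn := .npn) (n1 := ndB2q1) (n2 := ndB2q2a) (pc := pcB3) (cut := Cut.none) (xt := Ext.none) (P1 := 536870912) (W1 := 536870912) (P2 := 0) (W2 := 536870912) (P3 := 649613803) (W3 := 48318383) (N0 := 3) (En := eng) (mo := mog) (C1 := cd2q1) (C2 := cd2q2a) (C3 := pd3)
    rfl (fun _ => rfl) k0_pm_123_a

noncomputable def f_pm_123_b : ℕ → ℕ → ℕ → ℕ → Bool := onCell 1610612736 536870912 1239849684 370763052 649613803 48318383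
    (rowB 3 eng mog cd2q1 cd2q2b pd3 2 true true false .npn 1 2 3 (qsf 536870912 536870912 1239849684 370763052 3) ndB2q1 ndB2q2b pcB3 Cut.none Ext.none)

def k0_pm_123_b : ∃ t, chk3 f_pm_123_b t 1 1 1 = true :=
  ⟨(a (a (l 1) (b (a (l 105260784055) (b (l 16832440) (l 16760712))) (l 1))) (a (l 4) (l 4))), by decide +kernel⟩

theorem c_pm_123_b : CertB 536870912 536870912 1239849684 370763052 649613803 48318383 3 eng mog cd2q1 cd2q2b pd3 true true false .npn 1 2 3
    ndB2q1 ndB2q2b pcB3 Cut.none Ext.none :=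
  certB2 (fam := true) (s1 := true) (s2 := false) (a := 1) (b := 2) (c := 3) (cn := .npn) (n1 := ndB2q1) (n2 := ndB2q2b) (pc := pcB3) (cut := Cut.none) (xt := Ext.none) (P1 := 536870912) (W1 := 536870912) (P2 := 1239849684) (W2 := 370763052) (P3 := 649613803) (W3 := 48318383) (N0 := 3) (En := eng) (mo := mog) (C1 := cd2q1) (C2 := cd2q2b) (C3 := pd3)
    rfl (fun _ => rfl) k0_pm_123_b

noncomputable def f_pm_133 : ℕ → ℕ → ℕ → ℕ → Bool := onCell 536870912 536870912 1610612736 536870912 649613803 48318383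
    (rowB 3 eng mog cd2q1 cd2q3 pd3 0 true true false .dn 1 3 3 (qsf 536870912 536870912 1610612736 536870912 3) ndB2q1 ndB2q3 pcB3 Cut.none Ext.none)

def k0_pm_133 : ∃ t, chk3 f_pm_133 t 1 1 1 = true :=
  ⟨(l 4), by decide +kernel⟩

theorem c_pm_133 : CertB 536870912 536870912 1610612736 536870912 649613803 48318383 3 eng mog cd2q1 cd2q3 pd3 true true false .dn 1 3 3
    ndB2q1 ndB2q3 pcB3 Cut.none Ext.none :=
  certB0 (fam := true) (s1 := true) (s2 := false) (a := 1) (b := 3) (c := 3) (cn := .dn) (n1 := ndB2q1) (n2 := ndB2q3) (pc := pcB3) (cut := Cut.none) (xt := Ext.none) (P1 := 536870912) (W1 := 536870912) (P2 := 1610612736) (W2 := 536870912) (P3 := 649613803) (W3 := 48318383) (N0 := 3) (En := eng) (mo := mog) (C1 := cd2q1) (C2 := cd2q3) (C3 := pd3)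
    rfl k0_pm_133

noncomputable def cut_pm_202_a : Cut := Cut.of [[⟨0, 1, 0, 67108864⟩, ⟨1, 0, 0, 67108864⟩, ⟨2, 1, 0, 67108864⟩]]

noncomputable def f_pm_202_a : ℕ → ℕ → ℕ → ℕ → Bool := onCell 0 536870912 1073741824 536870912 649613803 48318383
    (rowB 3 eng mog cd2q2a cd2q0 pd2 1 true true false .pp 2 0 2 (qsf 0 536870912 0 536870912 2) ndB2q2a ndB2q0 pcB2 cut_pm_202_a Ext.none)

def k0_pm_202_a : ∃ t, chk3 f_pm_202_a t 2 2 1 = true :=
  ⟨(a (b (l 1) (b (b (b (l 1) (a (b (l 1) (a (l 16535912) (l 16454424))) (b (c (l 16459936) (l 16450144)) (a (l 16457368) (l 16462880))))) (b (b (a (c (a (c (l 16446144) (l 16447136)) (l 16450712)) (l 16454040)) (a (l 16501264) (l 16466872))) (c (a (b (l 16446792) (a (l 16443736) (l 16447864))) (a (c (l 16454344) (l 16455016)) (l 16473048))) (a (l 16470968) (l 16463200)))) (a (c (a (l 16447584) (l 16419632)) (l 16452576)) (a (b (l 16351816) (l 16458832)) (l 16465432))))) (b (a (b (a (l 16474920) (l 16456736)) (l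 16459568)) (a (l 16524648) (l 16466016))) (a (l 16524352) (l 16464448))))) (b (b (l 1) (a (l 1) (b (l 1) (b (l 1) (a (l 1) (b (l 1) (l 16500816))))))) (b (b (b (b (a (l 1) (a (l 173979182903) (l 16503952))) (a (a (l 16462592) (c (l 16480288) (l 16469056))) (a (c (l 16495272) (l 16484792)) (c (l 16511064) (l 16501392))))) (a (c (a (l 16473064) (l 16484592)) (b (a (l 16461248) (l 16473424)) (a (l 16465976) (l 16477480)))) (b (a (c (l 16497552) (l 16488464)) (l 16509224)) (b (a (l 16495640) (l 16510808)) (a (b (l 16496568) (l 16497192)) (l 16553688)))))) (c (a (b (a (l 16536568) (l 16483968)) (l 16478232)) (b (a (l 16494696) (l 16506184)) (l 16498480))) (a (b (a (l 16472296) (l 16482840)) (l 16477712)) (b (a (l 16496048) (l 16509752)) (l 16501024))))) (b (a (a (l 16472448) (l 16480768)) (a (l 16490640) (l 16501616))) (a (a (l 16471584) (l 16478208)) (l 16511584)))))), by decide +kernel⟩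

def k1_pm_202_a : ∃ t, chk3 f_pm_202_a t 2 3 1 = true :=
  ⟨(b (b (a (b (a (a (l 16467800) (l 16466664)) (l 16448648)) (a (l 16481720) (l 16482768))) (a (b (a (l 16475936) (l 16481712)) (l 16490288)) (b (l 16492032) (l 16497744)))) (a (b (a (b (l 16494888) (l 16503936)) (l 16498376)) (a (l 16518192) (l 16515024))) (b (a (l 16502624) (l 16503960)) (a (l 16515968) (l 16511640))))) (a (b (b (a (l 16537752) (l 16532728)) (a (l 16557640) (l 16550512))) (a (l 16585936) (l 16554688))) (b (a (b (l 16530280) (l 16544432)) (l 16524592)) (a (b (l 16558520) (l 16571616)) (l 16539160))))), by decide +kernel⟩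

def k2_pm_202_a : ∃ t, chk3 f_pm_202_a t 3 4 1 = true :=
  ⟨(b (a (l 1) (a (b (l 1) (b (a (l 1) (l 6)) (b (a (l 1) (l 6)) (a (a (l 1) (a (l 143914670743) (l 195454301687))) (b (l 6) (a (l 16649216) (l 16664760))))))) (b (l 6) (b (l 6) (b (l 6) (a (a (l 16681160) (l 16691512)) (a (l 16694712) (l 16697072)))))))) (a (a (b (l 1) (b (a (b (l 1) (l 118681523527)) (b (a (l 1) (l 16543344)) (a (l 16532712) (l 16544880)))) (a (b (l 156262500279) (l 16520456)) (b (l 16540464) (l 16457896))))) (b (b (a (l 1) (b (l 1) (a (l 99891150071) (l 189548630279)))) (a (b (a (l 1) (l 115997252151)) (a (l 16555288) (l 16569328))) (b (a (l 146598930119) (l 16598472)) (a (l 16583584) (l 16597808))))) (a (b (b (a (l 16556448) (l 16569840)) (l 16584816)) (a (l 16463880) (l 16570016))) (b (a (b (l 16583416) (l 16583016)) (l 16575440)) (l 16587872))))) (a (b (a (b (a (b (b (l 16615928) (l 16615448)) (l 16614680)) (b (a (l 16628104) (l 16636168)) (c (l 16633528) (l 16626832))))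 (a (b (l 16613512) (l 16612120)) (b (l 16628504) (l 16626360)))) (b (a (b (c (l 16650272) (l 16644280)) (l 16645056)) (b (l 16662512) (l 16659408))) (b (l 16649432) (l 16642376)))) (a (b (a (l 16609632) (l 16621440)) (l 16602584)) (b (l 16628768) (l 16611536)))) (b (b (a (a (l 16672744) (l 16676512)) (a (b (l 16684632) (l 16674704)) (l 16682008))) (a (a (l 16653400) (l 16657088)) (a (l 16660176) (l 16662464)))) (b (a (a (l 16634936) (l 16638528)) (l 16663768)) (a (l 16619392) (l 16666992))))))), by decide +kernel⟩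

def k3_pm_202_a : ∃ t, chk3 f_pm_202_a t 3 5 1 = true :=
  ⟨(b (a (b (b (a (a (b (l 16438704) (l 16524400)) (c (l 16546560) (l 16538768))) (a (l 16563696) (l 16578224))) (a (b (a (l 16525832) (l 16543720)) (b (l 16535480) (a (l 16526656) (l 16539056)))) (b (l 16563192) (b (l 16558416) (b (l 16556280) (l 16555128)))))) (a (b (l 16547208) (l 16520640)) (b (l 16548024) (l 16540280)))) (b (b (a (a (l 16586904) (l 16595520)) (a (l 16603104) (a (l 16607048) (l 16607840)))) (a (b (a (l 16576024) (l 16584384)) (b (a (l 16571048) (l 16579320)) (a (b (l 16568896) (l 16567824)) (b (l 16577160) (l 16576144))))) (b (a (l 16591552) (l 16594536)) (b (a (l 16586128) (l 16588472)) (a (b (l 16583768) (l 16582632)) (b (l 16585920) (l 16626704))))))) (a (a (b (l 16560160) (l 16550720)) (b (l 16567904) (l 16556888))) (a (b (l 16573440) (l 16560928)) (b (l 16575328) (l 16561920)))))) (b (a (a (a (l 16511312) (l 16520328)) (l 16563992)) (a (a (l 16539960) (l 16543984))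 (a (l 16546152) (l 16545400)))) (a (a (l 16509360) (l 16522616)) (a (a (l 16526704) (l 16528344)) (a (l 16528224) (l 16525312)))))), by decide +kernel⟩

def k4_pm_202_a : ∃ t, chk3 f_pm_202_a t 3 3 1 = true :=
  ⟨(b (a (b (a (l 16629416) (b (l 16514120) (l 16506664))) (b (a (l 16499184) (l 16500240)) (a (l 16498560) (l 16492976)))) (b (a (a (l 16509584) (l 16508160)) (a (l 16505144) (b (l 16507504) (l 16492232)))) (a (b (l 16494728) (l 16485256)) (b (l 16483688) (l 16471904))))) (a (b (b (l 16656848) (l 16484464)) (a (l 16495224) (l 16469664))) (b (a (b (l 16475784) (l 16465832)) (b (l 16460832) (l 16450824))) (a (b (l 16454672) (l 16443360)) (l 16476808))))), by decide +kernel⟩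

theorem s5_pm_202_a : ∃ t, chk3 f_pm_202_a t 3 2 1 = true := ex3_b k2_pm_202_a k3_pm_202_a

theorem s6_pm_202_a : ∃ t, chk3 f_pm_202_a t 3 1 1 = true := ex3_b s5_pm_202_a k4_pm_202_a

theorem s7_pm_202_a : ∃ t, chk3 f_pm_202_a t 2 1 1 = true := ex3_b k0_pm_202_a k1_pm_202_a

theorem s8_pm_202_a : ∃ t, chk3 f_pm_202_a t 1 1 1 = true := ex3_a s7_pm_202_a s6_pm_202_a

theorem c_pm_202_a : CertB 0 536870912 0 536870912 649613803 48318383 3 eng mog cd2q2a cd2q0 pd2 true true false .pp 2 0 2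
    ndB2q2a ndB2q0 pcB2 cut_pm_202_a Ext.none :=
  certB1 (fam := true) (s1 := true) (s2 := false) (a := 2) (b := 0) (c := 2) (cn := .pp) (n1 := ndB2q2a) (n2 := ndB2q0) (pc := pcB2) (cut := cut_pm_202_a) (xt := Ext.none) (P1 := 0) (W1 := 536870912) (P2 := 0) (W2 := 536870912) (P3 := 649613803) (W3 := 48318383) (N0 := 3) (En := eng) (mo := mog) (C1 := cd2q2a) (C2 := cd2q0) (C3 := pd2)
    rfl (fun _ => rfl) s8_pm_202_a

noncomputable def cut_pm_202_b : Cut := Cut.of [[⟨0, 1, 0, 67108864⟩, ⟨1, 0, 0, 67108864⟩, ⟨2, 1, 0, 67108864⟩]]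

noncomputable def f_pm_202_b : ℕ → ℕ → ℕ → ℕ → Bool := onCell 1239849684 370763052 1073741824 536870912 649613803 48318383
    (rowB 3 eng mog cd2q2b cd2q0 pd2 1 true true false .pp 2 0 2 (qsf 1239849684 370763052 0 536870912 2) ndB2q2b ndB2q0 pcB2 cut_pm_202_b Ext.none)

def k0_pm_202_b : ∃ t, chk3 f_pm_202_b t 1 1 1 = true :=
  ⟨(b (a (b (l 1) (b (a (a (b (b (l 1) (b (l 1) (a (l 16426392) (l 1)))) (b (a (c (b (a (a (l 16377056) (l 16429816)) (l 1)) (a (b (l 16433112) (l 16432368)) (b (l 16412480) (l 16369848)))) (b (l 16428232) (a (l 16436432) (l 16417248)))) (l 1)) (a (a (c (l 16436424) (l 16439560)) (l 16293864)) (l 16381704)))) (l 1)) (l 1)) (a (b (a (a (b (c (l 16432088) (l 16433080)) (l 16436560)) (b (l 16382880) (l 16385504))) (a (b (l 16327496) (l 16332072)) (l 1))) (a (a (l 16439880) (l 16391912)) (a (l 16341472) (l 16289040)))) (a (b (l 1) (a (l 16235136) (l 1))) (l 1))))) (l 1)) (a (b (b (a (a (b (a (l 16448184) (l 16404144)) (l 16474304))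 (b (a (l 16357688) (l 16309152)) (l 16355256))) (a (b (a (l 16258928) (l 16207416)) (l 16262672)) (b (l 1) (l 112238426215)))) (a (b (a (b (l 16458304) (l 16470432)) (b (l 16373048) (l 16386840))) (a (l 16489312) (l 16411056))) (b (a (l 16294200) (b (l 16193408) (l 16213448))) (a (l 16328032) (l 16244896))))) (b (a (a (b (l 16514592) (l 16539928)) (b (l 16445400) (l 16479504))) (b (a (l 16366000) (l 16286632)) (l 16370360))) (a (a (b (l 16564880) (l 16588784)) (l 16529440)) (b (l 16413840) (l 16457464))))) (b (a (b (l 1) (b (a (b (l 16098216) (l 153577440727)) (l 1)) (a (l 193305978055) (l 208338252359)))) (l 1)) (b (a (b (a (l 16208248) (l 16128240)) (l 16221312)) (b (l 1) (l 345240442743))) (a (b (l 16272272) (l 16323632)) (b (l 190084847063) (l 16201408))))))), by decide +kernel⟩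

theorem c_pm_202_b : CertB 1239849684 370763052 0 536870912 649613803 48318383 3 eng mog cd2q2b cd2q0 pd2 true true false .pp 2 0 2
    ndB2q2b ndB2q0 pcB2 cut_pm_202_b Ext.none :=
  certB1 (fam := true) (s1 := true) (s2 := false) (a := 2) (b := 0) (c := 2) (cn := .pp) (n1 := ndB2q2b) (n2 := ndB2q0) (pc := pcB2) (cut := cut_pm_202_b) (xt := Ext.none) (P1 := 1239849684) (W1 := 370763052) (P2 := 0) (W2 := 536870912) (P3 := 649613803) (W3 := 48318383) (N0 := 3) (En := eng) (mo := mog) (C1 := cd2q2b) (C2 := cd2q0) (C3 := pd2)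
    rfl (fun _ => rfl) k0_pm_202_b

noncomputable def f_pm_203_a : ℕ → ℕ → ℕ → ℕ → Bool := onCell 0 536870912 1610612736 536870912 649613803 48318383
    (rowB 3 eng mog cd2q2a cd2q0 pd3 1 true true false .up 2 0 3 (qsf 0 536870912 0 536870912 3) ndB2q2a ndB2q0 pcB3 Cut.none Ext.none)

def k0_pm_203_a : ∃ t, chk3 f_pm_203_a t 1 1 1 = true :=
  ⟨(b (a (b (b (a (b (l 16578032) (l 16627584)) (a (l 16586160) (l 16577624))) (a (b (l 16668656) (l 16702400)) (l 16661200))) (b (a (b (l 16732096) (l 16757352)) (b (l 16712616) (l 2))) (l 2))) (a (b (b (l 16560688) (b (l 16619056) (l 16656648))) (l 2)) (b (b (a (l 16532936) (l 16524848)) (b (l 16643616) (l 2))) (l 2)))) (l 2)), by decide +kernel⟩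

theorem c_pm_203_a : CertB 0 536870912 0 536870912 649613803 48318383 3 eng mog cd2q2a cd2q0 pd3 true true false .up 2 0 3
    ndB2q2a ndB2q0 pcB3 Cut.none Ext.none :=
  certB1 (fam := true) (s1 := true) (s2 := false) (a := 2) (b := 0) (c := 3) (cn := .up) (n1 := ndB2q2a) (n2 := ndB2q0) (pc := pcB3) (cut := Cut.none) (xt := Ext.none) (P1 := 0) (W1 := 536870912) (P2 := 0) (W2 := 536870912) (P3 := 649613803) (W3 := 48318383) (N0 := 3) (En := eng) (mo := mog) (C1 := cd2q2a) (C2 := cd2q0) (C3 := pd3)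
    rfl (fun _ => rfl) k0_pm_203_a

noncomputable def f_pm_203_b : ℕ → ℕ → ℕ → ℕ → Bool := onCell 1239849684 370763052 1610612736 536870912 649613803 48318383
    (rowB 3 eng mog cd2q2b cd2q0 pd3 1 true true false .up 2 0 3 (qsf 1239849684 370763052 0 536870912 3) ndB2q2b ndB2q0 pcB3 Cut.none Ext.none)

def k0_pm_203_b : ∃ t, chk3 f_pm_203_b t 1 1 1 = true :=
  ⟨(b (b (a (b (a (b (l 16589608) (l 16600600)) (l 16552920)) (a (b (l 16600752) (l 16646616)) (l 16576968))) (b (a (l 16385944) (l 16253480)) (a (l 16470784) (l 16343976)))) (a (b (a (l 16704592) (l 16643280)) (a (l 16889728) (l 16711824))) (b (a (l 16564240) (l 16457872)) (a (l 16659248) (l 4))))) (b (l 4) (l 4))), by decide +kernel⟩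

theorem c_pm_203_b : CertB 1239849684 370763052 0 536870912 649613803 48318383 3 eng mog cd2q2b cd2q0 pd3 true true false .up 2 0 3
    ndB2q2b ndB2q0 pcB3 Cut.none Ext.none :=
  certB1 (fam := true) (s1 := true) (s2 := false) (a := 2) (b := 0) (c := 3) (cn := .up) (n1 := ndB2q2b) (n2 := ndB2q0) (pc := pcB3) (cut := Cut.none) (xt := Ext.none) (P1 := 1239849684) (W1 := 370763052) (P2 := 0) (W2 := 536870912) (P3 := 649613803) (W3 := 48318383) (N0 := 3) (En := eng) (mo := mog) (C1 := cd2q2b) (C2 := cd2q0) (C3 := pd3)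
    rfl (fun _ => rfl) k0_pm_203_b

noncomputable def f_pm_213_a : ℕ → ℕ → ℕ → ℕ → Bool := onCell 0 536870912 1610612736 536870912 649613803 48318383
    (rowB 3 eng mog cd2q2a cd2q1 pd3 1 true true false .pnn 2 1 3 (qsf 0 536870912 536870912 536870912 3) ndB2q2a ndB2q1 pcB3 Cut.none Ext.none)

def k0_pm_213_a : ∃ t, chk3 f_pm_213_a t 1 1 1 = true :=
  ⟨(a (b (a (b (l 1) (b (b (l 16774376) (l 16790056)) (l 16782056))) (b (b (l 1) (l 16730992)) (b (b (l 16768192) (l 16797376)) (l 16840944)))) (b (b (b (a (l 16747984) (l 16809560)) (l 72176039223)) (b (l 80229055431) (l 102777460695))) (l 4))) (b (b (b (a (l 1) (a (l 16604256) (l 16594440))) (a (b (l 16688624) (l 16723832)) (b (a (l 16673288) (l 16690968)) (a (l 16728280) (l 16770496))))) (b (a (b (l 16914272) (l 16819296)) (b (b (l 16809680) (a (l 16820040) (b (l 16886464) (l 16889776)))) (b (a (l 16852024) (b (l 16877896) (l 16869208))) (l 16875344)))) (a (b (l 16882984) (l 16907032)) (a (l 16902896)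 (l 16917920))))) (b (b (a (a (l 16880080) (l 16907248)) (a (l 16916392) (l 16939776))) (b (a (l 16845616) (a (l 16906880) (l 16929656))) (a (l 16803992) (a (l 16887104) (l 16913872))))) (b (a (b (l 16791560) (l 24931144119)) (a (b (l 16848000) (l 16845320)) (b (l 16909616) (l 16880064)))) (a (l 4) (b (b (a (l 16775512) (l 16806792)) (l 16911720)) (b (l 211762256759) (l 4)))))))), by decide +kernel⟩

theorem c_pm_213_a : CertB 0 536870912 536870912 536870912 649613803 48318383 3 eng mog cd2q2a cd2q1 pd3 true true false .pnn 2 1 3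
    ndB2q2a ndB2q1 pcB3 Cut.none Ext.none :=
  certB1 (fam := true) (s1 := true) (s2 := false) (a := 2) (b := 1) (c := 3) (cn := .pnn) (n1 := ndB2q2a) (n2 := ndB2q1) (pc := pcB3) (cut := Cut.none) (xt := Ext.none) (P1 := 0) (W1 := 536870912) (P2 := 536870912) (W2 := 536870912) (P3 := 649613803) (W3 := 48318383) (N0 := 3) (En := eng) (mo := mog) (C1 := cd2q2a) (C2 := cd2q1) (C3 := pd3)
    rfl (fun _ => rfl) k0_pm_213_a

noncomputable def f_pm_213_b : ℕ → ℕ → ℕ → ℕ → Bool := onCell 1239849684 370763052 1610612736 536870912 649613803 48318383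
    (rowB 3 eng mog cd2q2b cd2q1 pd3 1 true true false .pnn 2 1 3 (qsf 1239849684 370763052 536870912 536870912 3) ndB2q2b ndB2q1 pcB3 Cut.none Ext.none)

def k0_pm_213_b : ∃ t, chk3 f_pm_213_b t 1 1 1 = true :=
  ⟨(b (a (b (l 1) (b (l 105260784055) (a (l 16832440) (l 16760712)))) (l 1)) (b (l 4) (l 4))), by decide +kernel⟩

theorem c_pm_213_b : CertB 1239849684 370763052 536870912 536870912 649613803 48318383 3 eng mog cd2q2b cd2q1 pd3 true true false .pnn 2 1 3
    ndB2q2b ndB2q1 pcB3 Cut.none Ext.none :=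
  certB1 (fam := true) (s1 := true) (s2 := false) (a := 2) (b := 1) (c := 3) (cn := .pnn) (n1 := ndB2q2b) (n2 := ndB2q1) (pc := pcB3) (cut := Cut.none) (xt := Ext.none) (P1 := 1239849684) (W1 := 370763052) (P2 := 536870912) (W2 := 536870912) (P3 := 649613803) (W3 := 48318383) (N0 := 3) (En := eng) (mo := mog) (C1 := cd2q2b) (C2 := cd2q1) (C3 := pd3)
    rfl (fun _ => rfl) k0_pm_213_b

noncomputable def f_pm_303 : ℕ → ℕ → ℕ → ℕ → Bool := onCell 1610612736 536870912 0 536870912 649613803 48318383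
    (rowB 3 eng mog cd2q3 cd2q0 pd3 2 true true false .npn 3 0 3 (qsf 1610612736 536870912 0 536870912 3) ndB2q3 ndB2q0 pcB3 Cut.none Ext.none)

def k0_pm_303 : ∃ t, chk3 f_pm_303 t 1 1 1 = true :=
  ⟨(a (a (b (b (a (b (l 16143488) (l 16247808)) (l 16170376)) (a (l 1) (l 16392440))) (l 1)) (b (a (b (l 16191640) (l 16391744)) (b (l 16288648) (l 4))) (a (l 1) (b (l 16607736) (l 1))))) (l 4)), by decide +kernel⟩

theorem c_pm_303 : CertB 1610612736 536870912 0 536870912 649613803 48318383 3 eng mog cd2q3 cd2q0 pd3 true true false .npn 3 0 3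
    ndB2q3 ndB2q0 pcB3 Cut.none Ext.none :=
  certB2 (fam := true) (s1 := true) (s2 := false) (a := 3) (b := 0) (c := 3) (cn := .npn) (n1 := ndB2q3) (n2 := ndB2q0) (pc := pcB3) (cut := Cut.none) (xt := Ext.none) (P1 := 1610612736) (W1 := 536870912) (P2 := 0) (W2 := 536870912) (P3 := 649613803) (W3 := 48318383) (N0 := 3) (En := eng) (mo := mog) (C1 := cd2q3) (C2 := cd2q0) (C3 := pd3)
    rfl (fun _ => rfl) k0_pm_303

noncomputable def f_pm_313 : ℕ → ℕ → ℕ → ℕ → Bool := onCell 1610612736 536870912 536870912 536870912 649613803 48318383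
    (rowB 3 eng mog cd2q3 cd2q1 pd3 0 true true false .dn 3 1 3 (qsf 1610612736 536870912 536870912 536870912 3) ndB2q3 ndB2q1 pcB3 Cut.none Ext.none)

def k0_pm_313 : ∃ t, chk3 f_pm_313 t 1 1 1 = true :=
  ⟨(l 4), by decide +kernel⟩

theorem c_pm_313 : CertB 1610612736 536870912 536870912 536870912 649613803 48318383 3 eng mog cd2q3 cd2q1 pd3 true true false .dn 3 1 3
    ndB2q3 ndB2q1 pcB3 Cut.none Ext.none :=
  certB0 (fam := true) (s1 := true) (s2 := false) (a := 3) (b := 1) (c := 3) (cn := .dn) (n1 := ndB2q3) (n2 := ndB2q1) (pc := pcB3) (cut := Cut.none) (xt := Ext.none) (P1 := 1610612736) (W1 := 536870912) (P2 := 536870912) (W2 := 536870912) (P3 := 649613803) (W3 := 48318383) (N0 := 3) (En := eng) (mo := mog) (C1 := cd2q3) (C2 := cd2q1) (C3 := pd3)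
    rfl k0_pm_313

noncomputable def f_mm_001 : ℕ → ℕ → ℕ → ℕ → Bool := onCell 0 536870912 0 536870912 649613803 48318383
    (rowB 3 eng mog cd2q0 cd2q0 pd1 0 true false false .up 0 0 1 (qsf 0 536870912 0 536870912 1) ndB2q0 ndB2q0 pcB1 Cut.none Ext.none)

def k0_mm_001 : ∃ t, chk3 f_mm_001 t 1 1 1 = true :=
  ⟨(l 4), by decide +kernel⟩

theorem c_mm_001 : CertB 0 536870912 0 536870912 649613803 48318383 3 eng mog cd2q0 cd2q0 pd1 true false false .up 0 0 1
    ndB2q0 ndB2q0 pcB1 Cut.none Ext.none :=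
  certB0 (fam := true) (s1 := false) (s2 := false) (a := 0) (b := 0) (c := 1) (cn := .up) (n1 := ndB2q0) (n2 := ndB2q0) (pc := pcB1) (cut := Cut.none) (xt := Ext.none) (P1 := 0) (W1 := 536870912) (P2 := 0) (W2 := 536870912) (P3 := 649613803) (W3 := 48318383) (N0 := 3) (En := eng) (mo := mog) (C1 := cd2q0) (C2 := cd2q0) (C3 := pd1)
    rfl k0_mm_001

noncomputable def f_mm_011 : ℕ → ℕ → ℕ → ℕ → Bool := onCell 0 536870912 536870912 536870912 649613803 48318383
    (rowB 3 eng mog cd2q0 cd2q1 pd1 0 true false false .pnn 0 1 1 (qsf 0 536870912 536870912 536870912 1) ndB2q0 ndB2q1 pcB1 Cut.none Ext.none)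

def k0_mm_011 : ∃ t, chk3 f_mm_011 t 1 1 1 = true :=
  ⟨(l 4), by decide +kernel⟩

theorem c_mm_011 : CertB 0 536870912 536870912 536870912 649613803 48318383 3 eng mog cd2q0 cd2q1 pd1 true false false .pnn 0 1 1
    ndB2q0 ndB2q1 pcB1 Cut.none Ext.none :=
  certB0 (fam := true) (s1 := false) (s2 := false) (a := 0) (b := 1) (c := 1) (cn := .pnn) (n1 := ndB2q0) (n2 := ndB2q1) (pc := pcB1) (cut := Cut.none) (xt := Ext.none) (P1 := 0) (W1 := 536870912) (P2 := 536870912) (W2 := 536870912) (P3 := 649613803) (W3 := 48318383) (N0 := 3) (En := eng) (mo := mog) (C1 := cd2q0) (C2 := cd2q1) (C3 := pd1)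
    rfl k0_mm_011

noncomputable def f_mm_012 : ℕ → ℕ → ℕ → ℕ → Bool := onCell 0 536870912 536870912 536870912 649613803 48318383
    (rowB 3 eng mog cd2q0 cd2q1 pd2 0 true false false .pnp 0 1 2 (qsf 0 536870912 536870912 536870912 2) ndB2q0 ndB2q1 pcB2 Cut.none Ext.none)

def k0_mm_012 : ∃ t, chk3 f_mm_012 t 1 1 1 = true :=
  ⟨(l 4), by decide +kernel⟩

theorem c_mm_012 : CertB 0 536870912 536870912 536870912 649613803 48318383 3 eng mog cd2q0 cd2q1 pd2 true false false .pnp 0 1 2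
    ndB2q0 ndB2q1 pcB2 Cut.none Ext.none :=
  certB0 (fam := true) (s1 := false) (s2 := false) (a := 0) (b := 1) (c := 2) (cn := .pnp) (n1 := ndB2q0) (n2 := ndB2q1) (pc := pcB2) (cut := Cut.none) (xt := Ext.none) (P1 := 0) (W1 := 536870912) (P2 := 536870912) (W2 := 536870912) (P3 := 649613803) (W3 := 48318383) (N0 := 3) (En := eng) (mo := mog) (C1 := cd2q0) (C2 := cd2q1) (C3 := pd2)
    rfl k0_mm_012

noncomputable def f_mm_022_a : ℕ → ℕ → ℕ → ℕ → Bool := onCell 0 536870912 0 536870912 649613803 48318383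
    (rowB 3 eng mog cd2q0 cd2q2a pd2 0 true false false .pp 0 2 2 (qsf 0 536870912 0 536870912 2) ndB2q0 ndB2q2a pcB2 Cut.none Ext.none)

def k0_mm_022_a : ∃ t, chk3 f_mm_022_a t 1 1 1 = true :=
  ⟨(l 5), by decide +kernel⟩

theorem c_mm_022_a : CertB 0 536870912 0 536870912 649613803 48318383 3 eng mog cd2q0 cd2q2a pd2 true false false .pp 0 2 2
    ndB2q0 ndB2q2a pcB2 Cut.none Ext.none :=
  certB0 (fam := true) (s1 := false) (s2 := false) (a := 0) (b := 2) (c := 2) (cn := .pp) (n1 := ndB2q0) (n2 := ndB2q2a) (pc := pcB2) (cut := Cut.none) (xt := Ext.none) (P1 := 0) (W1 := 536870912) (P2 := 0) (W2 := 536870912) (P3 := 649613803) (W3 := 48318383) (N0 := 3) (En := eng) (mo := mog) (C1 := cd2q0) (C2 := cd2q2a) (C3 := pd2)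
    rfl k0_mm_022_a

noncomputable def f_mm_022_b : ℕ → ℕ → ℕ → ℕ → Bool := onCell 0 536870912 1239849684 370763052 649613803 48318383
    (rowB 3 eng mog cd2q0 cd2q2b pd2 0 true false false .pp 0 2 2 (qsf 0 536870912 1239849684 370763052 2) ndB2q0 ndB2q2b pcB2 Cut.none Ext.none)

def k0_mm_022_b : ∃ t, chk3 f_mm_022_b t 1 1 1 = true :=
  ⟨(l 5), by decide +kernel⟩

theorem c_mm_022_b : CertB 0 536870912 1239849684 370763052 649613803 48318383 3 eng mog cd2q0 cd2q2b pd2 true false false .pp 0 2 2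
    ndB2q0 ndB2q2b pcB2 Cut.none Ext.none :=
  certB0 (fam := true) (s1 := false) (s2 := false) (a := 0) (b := 2) (c := 2) (cn := .pp) (n1 := ndB2q0) (n2 := ndB2q2b) (pc := pcB2) (cut := Cut.none) (xt := Ext.none) (P1 := 0) (W1 := 536870912) (P2 := 1239849684) (W2 := 370763052) (P3 := 649613803) (W3 := 48318383) (N0 := 3) (En := eng) (mo := mog) (C1 := cd2q0) (C2 := cd2q2b) (C3 := pd2)
    rfl k0_mm_022_b

noncomputable def f_mm_023_a : ℕ → ℕ → ℕ → ℕ → Bool := onCell 0 536870912 0 536870912 649613803 48318383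
    (rowB 3 eng mog cd2q0 cd2q2a pd3 0 true false false .up 0 2 3 (qsf 0 536870912 0 536870912 3) ndB2q0 ndB2q2a pcB3 Cut.none Ext.none)

def k0_mm_023_a : ∃ t, chk3 f_mm_023_a t 1 1 1 = true :=
  ⟨(l 5), by decide +kernel⟩

theorem c_mm_023_a : CertB 0 536870912 0 536870912 649613803 48318383 3 eng mog cd2q0 cd2q2a pd3 true false false .up 0 2 3
    ndB2q0 ndB2q2a pcB3 Cut.none Ext.none :=
  certB0 (fam := true) (s1 := false) (s2 := false) (a := 0) (b := 2) (c := 3) (cn := .up) (n1 := ndB2q0) (n2 := ndB2q2a) (pc := pcB3) (cut := Cut.none) (xt := Ext.none) (P1 := 0) (W1 := 536870912) (P2 := 0) (W2 := 536870912) (P3 := 649613803) (W3 := 48318383) (N0 := 3) (En := eng) (mo := mog) (C1 := cd2q0) (C2 := cd2q2a) (C3 := pd3)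
    rfl k0_mm_023_a

noncomputable def f_mm_023_b : ℕ → ℕ → ℕ → ℕ → Bool := onCell 0 536870912 1239849684 370763052 649613803 48318383
    (rowB 3 eng mog cd2q0 cd2q2b pd3 0 true false false .up 0 2 3 (qsf 0 536870912 1239849684 370763052 3) ndB2q0 ndB2q2b pcB3 Cut.none Ext.none)

def k0_mm_023_b : ∃ t, chk3 f_mm_023_b t 1 1 1 = true :=
  ⟨(l 5), by decide +kernel⟩

theorem c_mm_023_b : CertB 0 536870912 1239849684 370763052 649613803 48318383 3 eng mog cd2q0 cd2q2b pd3 true false false .up 0 2 3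
    ndB2q0 ndB2q2b pcB3 Cut.none Ext.none :=
  certB0 (fam := true) (s1 := false) (s2 := false) (a := 0) (b := 2) (c := 3) (cn := .up) (n1 := ndB2q0) (n2 := ndB2q2b) (pc := pcB3) (cut := Cut.none) (xt := Ext.none) (P1 := 0) (W1 := 536870912) (P2 := 1239849684) (W2 := 370763052) (P3 := 649613803) (W3 := 48318383) (N0 := 3) (En := eng) (mo := mog) (C1 := cd2q0) (C2 := cd2q2b) (C3 := pd3)
    rfl k0_mm_023_b

noncomputable def f_mm_033 : ℕ → ℕ → ℕ → ℕ → Bool := onCell 0 536870912 1610612736 536870912 649613803 48318383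
    (rowB 3 eng mog cd2q0 cd2q3 pd3 0 true false false .pnn 0 3 3 (qsf 0 536870912 1610612736 536870912 3) ndB2q0 ndB2q3 pcB3 Cut.none Ext.none)

def k0_mm_033 : ∃ t, chk3 f_mm_033 t 1 1 1 = true :=
  ⟨(l 5), by decide +kernel⟩

theorem c_mm_033 : CertB 0 536870912 1610612736 536870912 649613803 48318383 3 eng mog cd2q0 cd2q3 pd3 true false false .pnn 0 3 3
    ndB2q0 ndB2q3 pcB3 Cut.none Ext.none :=
  certB0 (fam := true) (s1 := false) (s2 := false) (a := 0) (b := 3) (c := 3) (cn := .pnn) (n1 := ndB2q0) (n2 := ndB2q3) (pc := pcB3) (cut := Cut.none) (xt := Ext.none) (P1 := 0) (W1 := 536870912) (P2 := 1610612736) (W2 := 536870912) (P3 := 649613803) (W3 := 48318383) (N0 := 3) (En := eng) (mo := mog) (C1 := cd2q0) (C2 := cd2q3) (C3 := pd3)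
    rfl k0_mm_033

noncomputable def f_mm_101 : ℕ → ℕ → ℕ → ℕ → Bool := onCell 536870912 536870912 0 536870912 649613803 48318383
    (rowB 3 eng mog cd2q1 cd2q0 pd1 0 true false false .npn 1 0 1 (qsf 536870912 536870912 0 536870912 1) ndB2q1 ndB2q0 pcB1 Cut.none Ext.none)

def k0_mm_101 : ∃ t, chk3 f_mm_101 t 1 1 1 = true :=
  ⟨(l 4), by decide +kernel⟩

theorem c_mm_101 : CertB 536870912 536870912 0 536870912 649613803 48318383 3 eng mog cd2q1 cd2q0 pd1 true false false .npn 1 0 1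
    ndB2q1 ndB2q0 pcB1 Cut.none Ext.none :=
  certB0 (fam := true) (s1 := false) (s2 := false) (a := 1) (b := 0) (c := 1) (cn := .npn) (n1 := ndB2q1) (n2 := ndB2q0) (pc := pcB1) (cut := Cut.none) (xt := Ext.none) (P1 := 536870912) (W1 := 536870912) (P2 := 0) (W2 := 536870912) (P3 := 649613803) (W3 := 48318383) (N0 := 3) (En := eng) (mo := mog) (C1 := cd2q1) (C2 := cd2q0) (C3 := pd1)
    rfl k0_mm_101

noncomputable def f_mm_102 : ℕ → ℕ → ℕ → ℕ → Bool := onCell 536870912 536870912 0 536870912 649613803 48318383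
    (rowB 3 eng mog cd2q1 cd2q0 pd2 0 true false false .npp 1 0 2 (qsf 536870912 536870912 0 536870912 2) ndB2q1 ndB2q0 pcB2 Cut.none Ext.none)

def k0_mm_102 : ∃ t, chk3 f_mm_102 t 1 1 1 = true :=
  ⟨(l 4), by decide +kernel⟩

theorem c_mm_102 : CertB 536870912 536870912 0 536870912 649613803 48318383 3 eng mog cd2q1 cd2q0 pd2 true false false .npp 1 0 2
    ndB2q1 ndB2q0 pcB2 Cut.none Ext.none :=
  certB0 (fam := true) (s1 := false) (s2 := false) (a := 1) (b := 0) (c := 2) (cn := .npp) (n1 := ndB2q1) (n2 := ndB2q0) (pc := pcB2) (cut := Cut.none) (xt := Ext.none) (P1 := 536870912) (W1 := 536870912) (P2 := 0) (W2 := 536870912) (P3 := 649613803) (W3 := 48318383) (N0 := 3) (En := eng) (mo := mog) (C1 := cd2q1) (C2 := cd2q0) (C3 := pd2)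
    rfl k0_mm_102

noncomputable def f_mm_112 : ℕ → ℕ → ℕ → ℕ → Bool := onCell 536870912 536870912 536870912 536870912 649613803 48318383
    (rowB 3 eng mog cd2q1 cd2q1 pd2 0 true false false .dn 1 1 2 (qsf 536870912 536870912 536870912 536870912 2) ndB2q1 ndB2q1 pcB2 Cut.none Ext.none)

def k0_mm_112 : ∃ t, chk3 f_mm_112 t 1 1 1 = true :=
  ⟨(l 4), by decide +kernel⟩

theorem c_mm_112 : CertB 536870912 536870912 536870912 536870912 649613803 48318383 3 eng mog cd2q1 cd2q1 pd2 true false false .dn 1 1 2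
    ndB2q1 ndB2q1 pcB2 Cut.none Ext.none :=
  certB0 (fam := true) (s1 := false) (s2 := false) (a := 1) (b := 1) (c := 2) (cn := .dn) (n1 := ndB2q1) (n2 := ndB2q1) (pc := pcB2) (cut := Cut.none) (xt := Ext.none) (P1 := 536870912) (W1 := 536870912) (P2 := 536870912) (W2 := 536870912) (P3 := 649613803) (W3 := 48318383) (N0 := 3) (En := eng) (mo := mog) (C1 := cd2q1) (C2 := cd2q1) (C3 := pd2)
    rfl k0_mm_112

noncomputable def f_mm_113 : ℕ → ℕ → ℕ → ℕ → Bool := onCell 536870912 536870912 536870912 536870912 649613803 48318383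
    (rowB 3 eng mog cd2q1 cd2q1 pd3 0 true false false .nn 1 1 3 (qsf 536870912 536870912 536870912 536870912 3) ndB2q1 ndB2q1 pcB3 Cut.none Ext.none)

def k0_mm_113 : ∃ t, chk3 f_mm_113 t 1 1 1 = true :=
  ⟨(l 4), by decide +kernel⟩

theorem c_mm_113 : CertB 536870912 536870912 536870912 536870912 649613803 48318383 3 eng mog cd2q1 cd2q1 pd3 true false false .nn 1 1 3
    ndB2q1 ndB2q1 pcB3 Cut.none Ext.none :=
  certB0 (fam := true) (s1 := false) (s2 := false) (a := 1) (b := 1) (c := 3) (cn := .nn) (n1 := ndB2q1) (n2 := ndB2q1) (pc := pcB3) (cut := Cut.none) (xt := Ext.none) (P1 := 536870912) (W1 := 536870912) (P2 := 536870912) (W2 := 536870912) (P3 := 649613803) (W3 := 48318383) (N0 := 3) (En := eng) (mo := mog) (C1 := cd2q1) (C2 := cd2q1) (C3 := pd3)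
    rfl k0_mm_113

noncomputable def f_mm_123_a : ℕ → ℕ → ℕ → ℕ → Bool := onCell 536870912 536870912 0 536870912 649613803 48318383
    (rowB 3 eng mog cd2q1 cd2q2a pd3 0 true false false .npn 1 2 3 (qsf 536870912 536870912 0 536870912 3) ndB2q1 ndB2q2a pcB3 Cut.none Ext.none)

def k0_mm_123_a : ∃ t, chk3 f_mm_123_a t 1 1 1 = true :=
  ⟨(l 4), by decide +kernel⟩

theorem c_mm_123_a : CertB 536870912 536870912 0 536870912 649613803 48318383 3 eng mog cd2q1 cd2q2a pd3 true false false .npn 1 2 3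
    ndB2q1 ndB2q2a pcB3 Cut.none Ext.none :=
  certB0 (fam := true) (s1 := false) (s2 := false) (a := 1) (b := 2) (c := 3) (cn := .npn) (n1 := ndB2q1) (n2 := ndB2q2a) (pc := pcB3) (cut := Cut.none) (xt := Ext.none) (P1 := 536870912) (W1 := 536870912) (P2 := 0) (W2 := 536870912) (P3 := 649613803) (W3 := 48318383) (N0 := 3) (En := eng) (mo := mog) (C1 := cd2q1) (C2 := cd2q2a) (C3 := pd3)
    rfl k0_mm_123_a

noncomputable def f_mm_123_b : ℕ → ℕ → ℕ → ℕ → Bool := onCell 536870912 536870912 1239849684 370763052 649613803 48318383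
    (rowB 3 eng mog cd2q1 cd2q2b pd3 0 true false false .npn 1 2 3 (qsf 536870912 536870912 1239849684 370763052 3) ndB2q1 ndB2q2b pcB3 Cut.none Ext.none)

def k0_mm_123_b : ∃ t, chk3 f_mm_123_b t 1 1 1 = true :=
  ⟨(l 4), by decide +kernel⟩

theorem c_mm_123_b : CertB 536870912 536870912 1239849684 370763052 649613803 48318383 3 eng mog cd2q1 cd2q2b pd3 true false false .npn 1 2 3
    ndB2q1 ndB2q2b pcB3 Cut.none Ext.none :=
  certB0 (fam := true) (s1 := false) (s2 := false) (a := 1) (b := 2) (c := 3) (cn := .npn) (n1 := ndB2q1) (n2 := ndB2q2b) (pc := pcB3) (cut := Cut.none) (xt := Ext.none) (P1 := 536870912) (W1 := 536870912) (P2 := 1239849684) (W2 := 370763052) (P3 := 649613803) (W3 := 48318383) (N0 := 3) (En := eng) (mo := mog) (C1 := cd2q1) (C2 := cd2q2b) (C3 := pd3)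
    rfl k0_mm_123_b

noncomputable def f_mm_133 : ℕ → ℕ → ℕ → ℕ → Bool := onCell 536870912 536870912 1610612736 536870912 649613803 48318383
    (rowB 3 eng mog cd2q1 cd2q3 pd3 0 true false false .dn 1 3 3 (qsf 536870912 536870912 1610612736 536870912 3) ndB2q1 ndB2q3 pcB3 Cut.none Ext.none)

def k0_mm_133 : ∃ t, chk3 f_mm_133 t 1 1 1 = true :=
  ⟨(l 4), by decide +kernel⟩

theorem c_mm_133 : CertB 536870912 536870912 1610612736 536870912 649613803 48318383 3 eng mog cd2q1 cd2q3 pd3 true false false .dn 1 3 3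
    ndB2q1 ndB2q3 pcB3 Cut.none Ext.none :=
  certB0 (fam := true) (s1 := false) (s2 := false) (a := 1) (b := 3) (c := 3) (cn := .dn) (n1 := ndB2q1) (n2 := ndB2q3) (pc := pcB3) (cut := Cut.none) (xt := Ext.none) (P1 := 536870912) (W1 := 536870912) (P2 := 1610612736) (W2 := 536870912) (P3 := 649613803) (W3 := 48318383) (N0 := 3) (En := eng) (mo := mog) (C1 := cd2q1) (C2 := cd2q3) (C3 := pd3)
    rfl k0_mm_133

noncomputable def cut_mm_202_a : Cut := Cut.of [[⟨0, 1, 0, 67108864⟩, ⟨1, 0, 0, 67108864⟩, ⟨2, 1, 0, 67108864⟩]]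

noncomputable def f_mm_202_a : ℕ → ℕ → ℕ → ℕ → Bool := onCell 0 536870912 0 536870912 649613803 48318383
    (rowB 3 eng mog cd2q2a cd2q0 pd2 0 true false false .pp 2 0 2 (qsf 0 536870912 0 536870912 2) ndB2q2a ndB2q0 pcB2 cut_mm_202_a Ext.none)

def k0_mm_202_a : ∃ t, chk3 f_mm_202_a t 2 2 1 = true :=
  ⟨(b (a (b (b (a (b (a (l 16464992) (l 16446872)) (a (l 16452320) (b (l 16451952) (l 16458256)))) (a (b (b (l 16450816) (l 16453184)) (l 16480864)) (b (l 16459216) (b (l 16463912) (l 16469288))))) (a (b (l 16465864) (l 16476920)) (b (l 16496672) (l 16487624)))) (b (a (l 16491856) (l 16504240)) (a (l 16509592) (l 16524712)))) (b (b (a (b (a (b (l 16467368) (l 16470328)) (b (l 16480296) (l 16483536))) (a (b (l 16473728) (l 16478224)) (b (l 16487208) (l 16491320)))) (b (a (b (a (l 16492032) (l 16500904)) (l 16500000)) (a (b (l 16510544) (l 16514232)) (l 16522720))) (a (b (l 16503928) (l 16508248)) (b (l 16523648) (l 16528208))))) (a (a (b (l 16487768)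 (l 16500480)) (b (b (l 16496720) (l 16503304)) (l 16513176))) (b (a (b (l 16534016) (l 16539928)) (b (l 16533136) (a (l 16533048) (l 16543832)))) (a (l 16529096) (b (l 16565688) (l 16551576)))))) (b (a (b (l 16498320) (l 16531224)) (a (l 16643168) (b (l 16561864) (l 16575288)))) (a (l 16548568) (a (l 16574016) (l 16595056)))))) (b (a (b (l 16562472) (a (l 16559032) (l 16578544))) (a (b (l 16575680) (a (l 16597880) (l 16614720))) (b (a (l 16602632) (l 16624608)) (a (l 16634480) (l 16657104))))) (a (b (l 16711856) (a (l 16611512) (l 16634768))) (a (b (b (l 16629408) (l 16644024)) (b (l 16657720) (l 4))) (l 4))))), by decide +kernel⟩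

def k1_mm_202_a : ∃ t, chk3 f_mm_202_a t 3 2 1 = true :=
  ⟨(b (a (b (b (a (b (a (a (l 16533848) (l 16545712)) (b (l 16562992) (l 16567144))) (a (a (l 16542504) (l 16512640)) (l 16574152))) (a (b (b (l 16589432) (l 16595392)) (l 16602656)) (b (b (a (l 16607552) (l 16620768)) (l 16623640)) (a (l 16625840) (l 16642064))))) (a (b (a (a (l 16552688) (l 16564976)) (l 16584840)) (a (a (b (l 16561232) (l 16567824)) (b (l 16573640) (l 16579928))) (l 16596840))) (b (a (l 16613712) (l 16666312)) (a (l 16626104) (l 16658096))))) (a (b (a (b (l 16584400) (l 16598352)) (b (a (l 16666264) (l 16617168)) (l 16624560))) (a (l 16618992) (b (l 16575984) (l 16653608)))) (b (b (a (a (l 16631864) (l 16647408)) (a (l 16621784) (l 16680936))) (a (b (l 16650464) (l 16616064)) (a (l 16700208) (l 4)))) (b (a (l 16669656) (l 4)) (l 4))))) (b (a (a (a (b (b (b (a (l 16631112) (l 16638248)) (l 16644688)) (l 16658880)) (b (l 16670552) (l 16683760))) (b (b (b (a (l 16645568) (l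 16653352)) (l 16659848)) (b (l 16669784) (l 16679296))) (b (l 16688208) (l 16723400)))) (a (b (b (b (a (l 16661944) (l 6)) (l 16687520)) (b (l 16687248) (l 16696272))) (b (b (l 16702104) (l 16708888)) (l 16742216))) (b (b (b (l 6) (b (l 6) (l 16698184))) (b (l 16705992) (l 16713408))) (b (b (l 16719952) (l 16727992)) (l 4))))) (b (a (b (l 6) (a (b (l 6) (a (l 16726880) (l 16736696))) (l 6))) (l 6)) (a (a (l 4) (l 4)) (l 4)))) (a (b (a (b (b (l 16705040) (l 4)) (l 4)) (l 4)) (l 4)) (l 4)))) (a (b (a (b (a (l 16649616) (l 4)) (l 4)) (l 4)) (l 4)) (l 4))), by decide +kernel⟩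

def k2_mm_202_a : ∃ t, chk3 f_mm_202_a t 1 3 1 = true :=
  ⟨(a (a (b (b (b (a (l 16639240) (l 16662144)) (a (l 16667432) (l 4))) (b (a (l 16696200) (l 4)) (l 4))) (l 2)) (l 4)) (l 4)), by decide +kernel⟩

theorem s3_mm_202_a : ∃ t, chk3 f_mm_202_a t 1 2 1 = true := ex3_a k0_mm_202_a k1_mm_202_a

theorem s4_mm_202_a : ∃ t, chk3 f_mm_202_a t 1 1 1 = true := ex3_b s3_mm_202_a k2_mm_202_a

theorem c_mm_202_a : CertB 0 536870912 0 536870912 649613803 48318383 3 eng mog cd2q2a cd2q0 pd2 true false false .pp 2 0 2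
    ndB2q2a ndB2q0 pcB2 cut_mm_202_a Ext.none :=
  certB0 (fam := true) (s1 := false) (s2 := false) (a := 2) (b := 0) (c := 2) (cn := .pp) (n1 := ndB2q2a) (n2 := ndB2q0) (pc := pcB2) (cut := cut_mm_202_a) (xt := Ext.none) (P1 := 0) (W1 := 536870912) (P2 := 0) (W2 := 536870912) (P3 := 649613803) (W3 := 48318383) (N0 := 3) (En := eng) (mo := mog) (C1 := cd2q2a) (C2 := cd2q0) (C3 := pd2)
    rfl s4_mm_202_a

noncomputable def cut_mm_202_b : Cut := Cut.of [[⟨0, 1, 0, 67108864⟩, ⟨1, 0, 0, 67108864⟩, ⟨2, 1, 0, 67108864⟩]]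

noncomputable def f_mm_202_b : ℕ → ℕ → ℕ → ℕ → Bool := onCell 1073741824 536870912 0 536870912 649613803 48318383
    (rowB 3 eng mog cd2q2b cd2q0 pd2 2 true false false .pp 2 0 2 (qsf 1239849684 370763052 0 536870912 2) ndB2q2b ndB2q0 pcB2 cut_mm_202_b Ext.none)

def k0_mm_202_b : ∃ t, chk3 f_mm_202_b t 1 1 1 = true :=
  ⟨(a (b (a (l 1) (b (a (b (a (b (a (l 1) (b (l 27950298519) (l 1))) (l 1)) (b (a (b (a (l 16448712) (l 16431104)) (l 114386517575)) (b (l 16410320) (l 16448880))) (a (l 1) (l 331819240007)))) (l 1)) (b (b (a (l 16387984) (l 16325016)) (a (l 16465912) (l 16405784))) (a (b (l 324303117367) (l 1)) (b (l 16485008) (l 16563384))))) (l 1))) (l 1)) (a (b (b (a (a (b (b (l 16261440) (l 16341568)) (b (l 16421760) (l 16501552))) (b (b (l 16244656) (l 16281864)) (l 16401184))) (b (a (b (l 16149424) (a (l 16240152) (l 16214760))) (l 16206768)) (a (b (l 16305592) (l 16384144)) (b (l 16258008) (l 16334760))))) (a (b (a (b (l 16585056) (l 1)) (b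 (l 16523376) (l 16609792))) (l 1)) (b (a (b (l 16466768) (l 16548560)) (l 16458016)) (a (b (l 16635520) (l 1)) (b (l 16574848) (l 16660464)))))) (l 1)) (b (b (a (b (a (l 16106968) (l 16076376)) (a (l 16255096) (l 16219432))) (b (a (l 16050768) (l 16027544)) (a (l 16188288) (l 16159216)))) (a (b (a (l 16413088) (l 16373080)) (a (l 16567680) (l 16526360))) (a (b (l 16337392) (l 16487592)) (b (l 16304736) (l 16452304))))) (b (a (b (a (l 205118090039) (l 16691216)) (l 1)) (b (a (l 16625688) (l 16590704)) (a (l 322692896727) (l 182569631687)))) (l 1))))), by decide +kernel⟩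

theorem c_mm_202_b : CertB 1239849684 370763052 0 536870912 649613803 48318383 3 eng mog cd2q2b cd2q0 pd2 true false false .pp 2 0 2
    ndB2q2b ndB2q0 pcB2 cut_mm_202_b Ext.none :=
  certB2 (fam := true) (s1 := false) (s2 := false) (a := 2) (b := 0) (c := 2) (cn := .pp) (n1 := ndB2q2b) (n2 := ndB2q0) (pc := pcB2) (cut := cut_mm_202_b) (xt := Ext.none) (P1 := 1239849684) (W1 := 370763052) (P2 := 0) (W2 := 536870912) (P3 := 649613803) (W3 := 48318383) (N0 := 3) (En := eng) (mo := mog) (C1 := cd2q2b) (C2 := cd2q0) (C3 := pd2)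
    rfl (fun _ => rfl) k0_mm_202_b

noncomputable def f_mm_203_a : ℕ → ℕ → ℕ → ℕ → Bool := onCell 0 536870912 1610612736 536870912 649613803 48318383
    (rowB 3 eng mog cd2q2a cd2q0 pd3 1 true false false .up 2 0 3 (qsf 0 536870912 0 536870912 3) ndB2q2a ndB2q0 pcB3 Cut.none Ext.none)

def k0_mm_203_a : ∃ t, chk3 f_mm_203_a t 1 1 1 = true :=
  ⟨(a (b (l 4) (l 2)) (l 4)), by decide +kernel⟩

theorem c_mm_203_a : CertB 0 536870912 0 536870912 649613803 48318383 3 eng mog cd2q2a cd2q0 pd3 true false false .up 2 0 3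
    ndB2q2a ndB2q0 pcB3 Cut.none Ext.none :=
  certB1 (fam := true) (s1 := false) (s2 := false) (a := 2) (b := 0) (c := 3) (cn := .up) (n1 := ndB2q2a) (n2 := ndB2q0) (pc := pcB3) (cut := Cut.none) (xt := Ext.none) (P1 := 0) (W1 := 536870912) (P2 := 0) (W2 := 536870912) (P3 := 649613803) (W3 := 48318383) (N0 := 3) (En := eng) (mo := mog) (C1 := cd2q2a) (C2 := cd2q0) (C3 := pd3)
    rfl (fun _ => rfl) k0_mm_203_a

noncomputable def f_mm_203_b : ℕ → ℕ → ℕ → ℕ → Bool := onCell 1239849684 370763052 1610612736 536870912 649613803 48318383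
    (rowB 3 eng mog cd2q2b cd2q0 pd3 1 true false false .up 2 0 3 (qsf 1239849684 370763052 0 536870912 3) ndB2q2b ndB2q0 pcB3 Cut.none Ext.none)

def k0_mm_203_b : ∃ t, chk3 f_mm_203_b t 1 1 1 = true :=
  ⟨(b (b (a (l 4) (b (a (b (l 16253144) (l 4)) (b (l 16060160) (l 16107792))) (l 4))) (l 4)) (l 4)), by decide +kernel⟩

theorem c_mm_203_b : CertB 1239849684 370763052 0 536870912 649613803 48318383 3 eng mog cd2q2b cd2q0 pd3 true false false .up 2 0 3
    ndB2q2b ndB2q0 pcB3 Cut.none Ext.none :=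
  certB1 (fam := true) (s1 := false) (s2 := false) (a := 2) (b := 0) (c := 3) (cn := .up) (n1 := ndB2q2b) (n2 := ndB2q0) (pc := pcB3) (cut := Cut.none) (xt := Ext.none) (P1 := 1239849684) (W1 := 370763052) (P2 := 0) (W2 := 536870912) (P3 := 649613803) (W3 := 48318383) (N0 := 3) (En := eng) (mo := mog) (C1 := cd2q2b) (C2 := cd2q0) (C3 := pd3)
    rfl (fun _ => rfl) k0_mm_203_b

noncomputable def f_mm_213_a : ℕ → ℕ → ℕ → ℕ → Bool := onCell 0 536870912 536870912 536870912 649613803 48318383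
    (rowB 3 eng mog cd2q2a cd2q1 pd3 0 true false false .pnn 2 1 3 (qsf 0 536870912 536870912 536870912 3) ndB2q2a ndB2q1 pcB3 Cut.none Ext.none)

def k0_mm_213_a : ∃ t, chk3 f_mm_213_a t 1 1 1 = true :=
  ⟨(l 4), by decide +kernel⟩

theorem c_mm_213_a : CertB 0 536870912 536870912 536870912 649613803 48318383 3 eng mog cd2q2a cd2q1 pd3 true false false .pnn 2 1 3
    ndB2q2a ndB2q1 pcB3 Cut.none Ext.none :=
  certB0 (fam := true) (s1 := false) (s2 := false) (a := 2) (b := 1) (c := 3) (cn := .pnn) (n1 := ndB2q2a) (n2 := ndB2q1) (pc := pcB3) (cut := Cut.none) (xt := Ext.none) (P1 := 0) (W1 := 536870912) (P2 := 536870912) (W2 := 536870912) (P3 := 649613803) (W3 := 48318383) (N0 := 3) (En := eng) (mo := mog) (C1 := cd2q2a) (C2 := cd2q1) (C3 := pd3)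
    rfl k0_mm_213_a

noncomputable def f_mm_213_b : ℕ → ℕ → ℕ → ℕ → Bool := onCell 1239849684 370763052 536870912 536870912 649613803 48318383
    (rowB 3 eng mog cd2q2b cd2q1 pd3 0 true false false .pnn 2 1 3 (qsf 1239849684 370763052 536870912 536870912 3) ndB2q2b ndB2q1 pcB3 Cut.none Ext.none)

def k0_mm_213_b : ∃ t, chk3 f_mm_213_b t 1 1 1 = true :=
  ⟨(l 4), by decide +kernel⟩

theorem c_mm_213_b : CertB 1239849684 370763052 536870912 536870912 649613803 48318383 3 eng mog cd2q2b cd2q1 pd3 true false false .pnn 2 1 3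
    ndB2q2b ndB2q1 pcB3 Cut.none Ext.none :=
  certB0 (fam := true) (s1 := false) (s2 := false) (a := 2) (b := 1) (c := 3) (cn := .pnn) (n1 := ndB2q2b) (n2 := ndB2q1) (pc := pcB3) (cut := Cut.none) (xt := Ext.none) (P1 := 1239849684) (W1 := 370763052) (P2 := 536870912) (W2 := 536870912) (P3 := 649613803) (W3 := 48318383) (N0 := 3) (En := eng) (mo := mog) (C1 := cd2q2b) (C2 := cd2q1) (C3 := pd3)
    rfl k0_mm_213_b

noncomputable def f_mm_303 : ℕ → ℕ → ℕ → ℕ → Bool := onCell 1610612736 536870912 0 536870912 649613803 48318383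
    (rowB 3 eng mog cd2q3 cd2q0 pd3 2 true false false .npn 3 0 3 (qsf 1610612736 536870912 0 536870912 3) ndB2q3 ndB2q0 pcB3 Cut.none Ext.none)

def k0_mm_303 : ∃ t, chk3 f_mm_303 t 1 1 1 = true :=
  ⟨(a (a (b (a (b (a (b (l 16043968) (l 1)) (l 16097488)) (l 1)) (l 4)) (l 1)) (l 4)) (l 4)), by decide +kernel⟩

theorem c_mm_303 : CertB 1610612736 536870912 0 536870912 649613803 48318383 3 eng mog cd2q3 cd2q0 pd3 true false false .npn 3 0 3
    ndB2q3 ndB2q0 pcB3 Cut.none Ext.none :=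
  certB2 (fam := true) (s1 := false) (s2 := false) (a := 3) (b := 0) (c := 3) (cn := .npn) (n1 := ndB2q3) (n2 := ndB2q0) (pc := pcB3) (cut := Cut.none) (xt := Ext.none) (P1 := 1610612736) (W1 := 536870912) (P2 := 0) (W2 := 536870912) (P3 := 649613803) (W3 := 48318383) (N0 := 3) (En := eng) (mo := mog) (C1 := cd2q3) (C2 := cd2q0) (C3 := pd3)
    rfl (fun _ => rfl) k0_mm_303

noncomputable def f_mm_313 : ℕ → ℕ → ℕ → ℕ → Bool := onCell 1610612736 536870912 536870912 536870912 649613803 48318383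
    (rowB 3 eng mog cd2q3 cd2q1 pd3 0 true false false .dn 3 1 3 (qsf 1610612736 536870912 536870912 536870912 3) ndB2q3 ndB2q1 pcB3 Cut.none Ext.none)

def k0_mm_313 : ∃ t, chk3 f_mm_313 t 1 1 1 = true :=
  ⟨(l 4), by decide +kernel⟩

theorem c_mm_313 : CertB 1610612736 536870912 536870912 536870912 649613803 48318383 3 eng mog cd2q3 cd2q1 pd3 true false false .dn 3 1 3
    ndB2q3 ndB2q1 pcB3 Cut.none Ext.none :=
  certB0 (fam := true) (s1 := false) (s2 := false) (a := 3) (b := 1) (c := 3) (cn := .dn) (n1 := ndB2q3) (n2 := ndB2q1) (pc := pcB3) (cut := Cut.none) (xt := Ext.none) (P1 := 1610612736) (W1 := 536870912) (P2 := 536870912) (W2 := 536870912) (P3 := 649613803) (W3 := 48318383) (N0 := 3) (En := eng) (mo := mog) (C1 := cd2q3) (C2 := cd2q1) (C3 := pd3)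
    rfl k0_mm_313

end Pool.Agent.Strip051.G.I6050_6500.Tab.C.BA22

namespace Pool.Agent.Strip051.G.I6050_6500.Tab.C.BA23

open Pool.Agent.Strip051.PB Pool.Agent.Strip051.PB.T
open Pool.Agent.Strip051.G.I6050_6500.Tab

noncomputable def f_pp_001 : ℕ → ℕ → ℕ → ℕ → Bool := onCell 0 536870912 0 536870912 649613803 48318383
    (rowB 3 eng mog cd2q0 cd3q0 pd1 0 true true true .up 0 0 1 (qsf 0 536870912 0 536870912 1) ndB2q0 ndB3q0 pcB1 Cut.none Ext.none)

def k0_pp_001 : ∃ t, chk3 f_pp_001 t 1 1 1 = true :=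
  ⟨(l 4), by decide +kernel⟩

theorem c_pp_001 : CertB 0 536870912 0 536870912 649613803 48318383 3 eng mog cd2q0 cd3q0 pd1 true true true .up 0 0 1
    ndB2q0 ndB3q0 pcB1 Cut.none Ext.none :=
  certB0 (fam := true) (s1 := true) (s2 := true) (a := 0) (b := 0) (c := 1) (cn := .up) (n1 := ndB2q0) (n2 := ndB3q0) (pc := pcB1) (cut := Cut.none) (xt := Ext.none) (P1 := 0) (W1 := 536870912) (P2 := 0) (W2 := 536870912) (P3 := 649613803) (W3 := 48318383) (N0 := 3) (En := eng) (mo := mog) (C1 := cd2q0) (C2 := cd3q0) (C3 := pd1)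
    rfl k0_pp_001

noncomputable def f_pp_011 : ℕ → ℕ → ℕ → ℕ → Bool := onCell 0 536870912 536870912 536870912 649613803 48318383
    (rowB 3 eng mog cd2q0 cd3q1 pd1 0 true true true .pnn 0 1 1 (qsf 0 536870912 536870912 536870912 1) ndB2q0 ndB3q1 pcB1 Cut.none Ext.none)

def k0_pp_011 : ∃ t, chk3 f_pp_011 t 1 1 1 = true :=
  ⟨(l 4), by decide +kernel⟩

theorem c_pp_011 : CertB 0 536870912 536870912 536870912 649613803 48318383 3 eng mog cd2q0 cd3q1 pd1 true true true .pnn 0 1 1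
    ndB2q0 ndB3q1 pcB1 Cut.none Ext.none :=
  certB0 (fam := true) (s1 := true) (s2 := true) (a := 0) (b := 1) (c := 1) (cn := .pnn) (n1 := ndB2q0) (n2 := ndB3q1) (pc := pcB1) (cut := Cut.none) (xt := Ext.none) (P1 := 0) (W1 := 536870912) (P2 := 536870912) (W2 := 536870912) (P3 := 649613803) (W3 := 48318383) (N0 := 3) (En := eng) (mo := mog) (C1 := cd2q0) (C2 := cd3q1) (C3 := pd1)
    rfl k0_pp_011

noncomputable def f_pp_012 : ℕ → ℕ → ℕ → ℕ → Bool := onCell 0 536870912 536870912 536870912 649613803 48318383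
    (rowB 3 eng mog cd2q0 cd3q1 pd2 0 true true true .pnp 0 1 2 (qsf 0 536870912 536870912 536870912 2) ndB2q0 ndB3q1 pcB2 Cut.none Ext.none)

def k0_pp_012 : ∃ t, chk3 f_pp_012 t 1 1 1 = true :=
  ⟨(l 4), by decide +kernel⟩

theorem c_pp_012 : CertB 0 536870912 536870912 536870912 649613803 48318383 3 eng mog cd2q0 cd3q1 pd2 true true true .pnp 0 1 2
    ndB2q0 ndB3q1 pcB2 Cut.none Ext.none :=
  certB0 (fam := true) (s1 := true) (s2 := true) (a := 0) (b := 1) (c := 2) (cn := .pnp) (n1 := ndB2q0) (n2 := ndB3q1) (pc := pcB2) (cut := Cut.none) (xt := Ext.none) (P1 := 0) (W1 := 536870912) (P2 := 536870912) (W2 := 536870912) (P3 := 649613803) (W3 := 48318383) (N0 := 3) (En := eng) (mo := mog) (C1 := cd2q0) (C2 := cd3q1) (C3 := pd2)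
    rfl k0_pp_012

noncomputable def cut_pp_022_a : Cut := Cut.of [[⟨0, 0, 0, 67108864⟩, ⟨1, 1, 0, 67108864⟩, ⟨2, 1, 0, 67108864⟩]]

noncomputable def f_pp_022_a : ℕ → ℕ → ℕ → ℕ → Bool := onCell 0 536870912 0 536870912 649613803 48318383
    (rowB 3 eng mog cd2q0 cd3q2a pd2 0 true true true .pp 0 2 2 (qsf 0 536870912 0 536870912 2) ndB2q0 ndB3q2a pcB2 cut_pp_022_a Ext.none)

def k0_pp_022_a : ∃ t, chk3 f_pp_022_a t 2 2 1 = true :=
  ⟨(b (a (a (a (a (b (a (l 16478176) (b (l 16438032) (l 16442216))) (b (l 16467424) (c (l 16457104) (l 16453936)))) (b (b (l 16446920) (l 16471992)) (a (b (l 16453952) (l 16462696)) (b (l 16460560) (l 16468976))))) (b (a (l 16462152) (l 16474728)) (a (l 16495952) (l 16488128)))) (a (b (l 16513864) (a (l 16500960) (l 16513584))) (b (l 16558208) (l 16532304)))) (a (a (b (l 16586080) (l 16561648)) (b (l 16575128) (l 4))) (l 4))) (a (a (a (b (a (b (c (l 16467744) (l 16465640)) (a (l 16477792) (l 16482880))) (b (a (l 16474072)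 (l 16500952)) (a (l 16488328) (l 16494112)))) (a (b (a (l 16494424) (l 16499680)) (a (l 16534752) (l 16519176))) (b (a (l 16505296) (l 16511224)) (a (l 16524920) (l 16530992))))) (b (b (a (l 16490216) (l 16503848)) (a (a (l 16500568) (l 16507552)) (l 16517984))) (a (a (b (l 16538464) (l 16537368)) (b (l 16545248) (l 16606944))) (b (l 16534920) (a (l 16613976) (l 16558272)))))) (a (b (a (l 16608392) (l 16621792)) (a (b (l 16548984) (l 16569192)) (l 16615728))) (b (a (l 16551376) (l 16564920)) (l 4)))) (l 4))), by decide +kernel⟩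

def k1_pp_022_a : ∃ t, chk3 f_pp_022_a t 2 3 1 = true :=
  ⟨(a (b (a (b (a (a (b (l 16538568) (l 16563504)) (b (l 16550264) (l 16575352))) (a (b (l 16647136) (l 16588528)) (b (b (l 16571288) (l 16583384)) (l 16634784)))) (b (a (a (a (l 16588456) (l 16594008)) (l 16603072)) (a (l 16648128) (l 16632560))) (a (a (a (l 16617928) (l 16624376)) (b (l 16625560) (l 16641200))) (a (a (l 16643968) (l 4)) (l 4))))) (b (a (a (b (l 16592632) (l 4)) (l 4)) (l 4)) (l 4))) (a (a (a (b (b (a (b (l 16638920) (l 16653992)) (b (l 16648584) (l 16664096))) (a (b (l 16681232) (l 6)) (b (l 16681144) (a (l 6) (l 16701456))))) (l 6)) (b (b (b (l 16678768) (a (l 16671528) (l 16679048))) (a (b (l 16688920) (l 16707328)) (l 4))) (l 4))) (l 4)) (l 4))) (l 4)), by decide +kernel⟩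

def k2_pp_022_a : ∃ t, chk3 f_pp_022_a t 3 1 1 = true :=
  ⟨(l 4), by decide +kernel⟩

theorem s3_pp_022_a : ∃ t, chk3 f_pp_022_a t 2 1 1 = true := ex3_b k0_pp_022_a k1_pp_022_a

theorem s4_pp_022_a : ∃ t, chk3 f_pp_022_a t 1 1 1 = true := ex3_a s3_pp_022_a k2_pp_022_a

theorem c_pp_022_a : CertB 0 536870912 0 536870912 649613803 48318383 3 eng mog cd2q0 cd3q2a pd2 true true true .pp 0 2 2
    ndB2q0 ndB3q2a pcB2 cut_pp_022_a Ext.none :=
  certB0 (fam := true) (s1 := true) (s2 := true) (a := 0) (b := 2) (c := 2) (cn := .pp) (n1 := ndB2q0) (n2 := ndB3q2a) (pc := pcB2) (cut := cut_pp_022_a) (xt := Ext.none) (P1 := 0) (W1 := 536870912) (P2 := 0) (W2 := 536870912) (P3 := 649613803) (W3 := 48318383) (N0 := 3) (En := eng) (mo := mog) (C1 := cd2q0) (C2 := cd3q2a) (C3 := pd2)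
    rfl s4_pp_022_a

noncomputable def cut_pp_022_b : Cut := Cut.of [[⟨0, 0, 0, 67108864⟩, ⟨1, 1, 0, 67108864⟩, ⟨2, 1, 0, 67108864⟩]]

noncomputable def f_pp_022_b : ℕ → ℕ → ℕ → ℕ → Bool := onCell 0 536870912 1073741824 536870912 649613803 48318383
    (rowB 3 eng mog cd2q0 cd3q2b pd2 1 true true true .pp 0 2 2 (qsf 0 536870912 1239849684 370763052 2) ndB2q0 ndB3q2b pcB2 cut_pp_022_b Ext.none)

def k0_pp_022_b : ∃ t, chk3 f_pp_022_b t 1 1 1 = true :=
  ⟨(b (b (l 1) (a (a (b (a (b (a (a (b (l 1) (b (l 1) (l 65531240343))) (l 1)) (l 1)) (b (a (a (b (l 16440104) (l 16443520)) (b (l 1) (l 88616716871))) (l 1)) (a (a (l 16420968) (l 16442520)) (a (l 248604291959) (l 1))))) (l 1)) (a (a (b (b (a (l 16370856) (l 16412656)) (l 16403936)) (b (l 16332200) (l 16302320))) (b (b (a (l 16455376) (l 16498960)) (l 16488032)) (b (l 16415040) (l 16383968)))) (a (b (b (l 1) (l 137472116359)) (a (l 16484464) (l 16591072))) (b (l 1) (l 245383220343))))) (l 1)) (l 1)))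 (b (a (a (b (a (b (a (b (l 16272344) (a (l 16223056) (l 16261696))) (l 16337304)) (a (l 16196752) (l 16274736))) (b (a (l 16420896) (l 16528752)) (a (l 16356240) (l 16441216)))) (a (b (a (l 16129448) (l 16231272)) (l 16111800)) (b (a (l 16311272) (l 16373368)) (a (l 16219920) (l 16301824))))) (b (a (b (a (l 271689896375) (l 1)) (a (l 16534856) (l 308734007399))) (l 1)) (a (b (a (l 16467496) (l 78416348007)) (a (l 16396080) (l 16495904))) (b (a (l 218539792583) (l 1)) (l 4))))) (l 1)) (a (b (a (a (b (l 16070272) (a (l 16003640) (l 4))) (b (a (l 16173960) (l 4)) (l 4))) (l 4)) (l 4)) (l 4)))), by decide +kernel⟩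

theorem c_pp_022_b : CertB 0 536870912 1239849684 370763052 649613803 48318383 3 eng mog cd2q0 cd3q2b pd2 true true true .pp 0 2 2
    ndB2q0 ndB3q2b pcB2 cut_pp_022_b Ext.none :=
  certB1 (fam := true) (s1 := true) (s2 := true) (a := 0) (b := 2) (c := 2) (cn := .pp) (n1 := ndB2q0) (n2 := ndB3q2b) (pc := pcB2) (cut := cut_pp_022_b) (xt := Ext.none) (P1 := 0) (W1 := 536870912) (P2 := 1239849684) (W2 := 370763052) (P3 := 649613803) (W3 := 48318383) (N0 := 3) (En := eng) (mo := mog) (C1 := cd2q0) (C2 := cd3q2b) (C3 := pd2)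
    rfl (fun _ => rfl) k0_pp_022_b

noncomputable def f_pp_023_a : ℕ → ℕ → ℕ → ℕ → Bool := onCell 1610612736 536870912 0 536870912 649613803 48318383
    (rowB 3 eng mog cd2q0 cd3q2a pd3 2 true true true .up 0 2 3 (qsf 0 536870912 0 536870912 3) ndB2q0 ndB3q2a pcB3 Cut.none Ext.none)

def k0_pp_023_a : ∃ t, chk3 f_pp_023_a t 1 1 1 = true :=
  ⟨(l 4), by decide +kernel⟩

theorem c_pp_023_a : CertB 0 536870912 0 536870912 649613803 48318383 3 eng mog cd2q0 cd3q2a pd3 true true true .up 0 2 3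
    ndB2q0 ndB3q2a pcB3 Cut.none Ext.none :=
  certB2 (fam := true) (s1 := true) (s2 := true) (a := 0) (b := 2) (c := 3) (cn := .up) (n1 := ndB2q0) (n2 := ndB3q2a) (pc := pcB3) (cut := Cut.none) (xt := Ext.none) (P1 := 0) (W1 := 536870912) (P2 := 0) (W2 := 536870912) (P3 := 649613803) (W3 := 48318383) (N0 := 3) (En := eng) (mo := mog) (C1 := cd2q0) (C2 := cd3q2a) (C3 := pd3)
    rfl (fun _ => rfl) k0_pp_023_a

noncomputable def f_pp_023_b : ℕ → ℕ → ℕ → ℕ → Bool := onCell 0 536870912 1610612736 536870912 649613803 48318383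
    (rowB 3 eng mog cd2q0 cd3q2b pd3 1 true true true .up 0 2 3 (qsf 0 536870912 1239849684 370763052 3) ndB2q0 ndB3q2b pcB3 Cut.none Ext.none)

def k0_pp_023_b : ∃ t, chk3 f_pp_023_b t 1 1 1 = true :=
  ⟨(b (l 4) (l 4)), by decide +kernel⟩

theorem c_pp_023_b : CertB 0 536870912 1239849684 370763052 649613803 48318383 3 eng mog cd2q0 cd3q2b pd3 true true true .up 0 2 3
    ndB2q0 ndB3q2b pcB3 Cut.none Ext.none :=
  certB1 (fam := true) (s1 := true) (s2 := true) (a := 0) (b := 2) (c := 3) (cn := .up) (n1 := ndB2q0) (n2 := ndB3q2b) (pc := pcB3) (cut := Cut.none) (xt := Ext.none) (P1 := 0) (W1 := 536870912) (P2 := 1239849684) (W2 := 370763052) (P3 := 649613803) (W3 := 48318383) (N0 := 3) (En := eng) (mo := mog) (C1 := cd2q0) (C2 := cd3q2b) (C3 := pd3)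
    rfl (fun _ => rfl) k0_pp_023_b

noncomputable def f_pp_033 : ℕ → ℕ → ℕ → ℕ → Bool := onCell 0 536870912 1610612736 536870912 649613803 48318383
    (rowB 3 eng mog cd2q0 cd3q3 pd3 1 true true true .pnn 0 3 3 (qsf 0 536870912 1610612736 536870912 3) ndB2q0 ndB3q3 pcB3 Cut.none Ext.none)

def k0_pp_033 : ∃ t, chk3 f_pp_033 t 1 1 1 = true :=
  ⟨(b (l 4) (l 4)), by decide +kernel⟩

theorem c_pp_033 : CertB 0 536870912 1610612736 536870912 649613803 48318383 3 eng mog cd2q0 cd3q3 pd3 true true true .pnn 0 3 3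
    ndB2q0 ndB3q3 pcB3 Cut.none Ext.none :=
  certB1 (fam := true) (s1 := true) (s2 := true) (a := 0) (b := 3) (c := 3) (cn := .pnn) (n1 := ndB2q0) (n2 := ndB3q3) (pc := pcB3) (cut := Cut.none) (xt := Ext.none) (P1 := 0) (W1 := 536870912) (P2 := 1610612736) (W2 := 536870912) (P3 := 649613803) (W3 := 48318383) (N0 := 3) (En := eng) (mo := mog) (C1 := cd2q0) (C2 := cd3q3) (C3 := pd3)
    rfl (fun _ => rfl) k0_pp_033

noncomputable def f_pp_101 : ℕ → ℕ → ℕ → ℕ → Bool := onCell 536870912 536870912 0 536870912 649613803 48318383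
    (rowB 3 eng mog cd2q1 cd3q0 pd1 0 true true true .npn 1 0 1 (qsf 536870912 536870912 0 536870912 1) ndB2q1 ndB3q0 pcB1 Cut.none Ext.none)

def k0_pp_101 : ∃ t, chk3 f_pp_101 t 1 1 1 = true :=
  ⟨(l 4), by decide +kernel⟩

theorem c_pp_101 : CertB 536870912 536870912 0 536870912 649613803 48318383 3 eng mog cd2q1 cd3q0 pd1 true true true .npn 1 0 1
    ndB2q1 ndB3q0 pcB1 Cut.none Ext.none :=
  certB0 (fam := true) (s1 := true) (s2 := true) (a := 1) (b := 0) (c := 1) (cn := .npn) (n1 := ndB2q1) (n2 := ndB3q0) (pc := pcB1) (cut := Cut.none) (xt := Ext.none) (P1 := 536870912) (W1 := 536870912) (P2 := 0) (W2 := 536870912) (P3 := 649613803) (W3 := 48318383) (N0 := 3) (En := eng) (mo := mog) (C1 := cd2q1) (C2 := cd3q0) (C3 := pd1)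
    rfl k0_pp_101

noncomputable def f_pp_102 : ℕ → ℕ → ℕ → ℕ → Bool := onCell 536870912 536870912 0 536870912 649613803 48318383
    (rowB 3 eng mog cd2q1 cd3q0 pd2 0 true true true .npp 1 0 2 (qsf 536870912 536870912 0 536870912 2) ndB2q1 ndB3q0 pcB2 Cut.none Ext.none)

def k0_pp_102 : ∃ t, chk3 f_pp_102 t 1 1 1 = true :=
  ⟨(l 4), by decide +kernel⟩

theorem c_pp_102 : CertB 536870912 536870912 0 536870912 649613803 48318383 3 eng mog cd2q1 cd3q0 pd2 true true true .npp 1 0 2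
    ndB2q1 ndB3q0 pcB2 Cut.none Ext.none :=
  certB0 (fam := true) (s1 := true) (s2 := true) (a := 1) (b := 0) (c := 2) (cn := .npp) (n1 := ndB2q1) (n2 := ndB3q0) (pc := pcB2) (cut := Cut.none) (xt := Ext.none) (P1 := 536870912) (W1 := 536870912) (P2 := 0) (W2 := 536870912) (P3 := 649613803) (W3 := 48318383) (N0 := 3) (En := eng) (mo := mog) (C1 := cd2q1) (C2 := cd3q0) (C3 := pd2)
    rfl k0_pp_102

noncomputable def f_pp_112 : ℕ → ℕ → ℕ → ℕ → Bool := onCell 536870912 536870912 536870912 536870912 649613803 48318383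
    (rowB 3 eng mog cd2q1 cd3q1 pd2 0 true true true .dn 1 1 2 (qsf 536870912 536870912 536870912 536870912 2) ndB2q1 ndB3q1 pcB2 Cut.none Ext.none)

def k0_pp_112 : ∃ t, chk3 f_pp_112 t 1 1 1 = true :=
  ⟨(l 4), by decide +kernel⟩

theorem c_pp_112 : CertB 536870912 536870912 536870912 536870912 649613803 48318383 3 eng mog cd2q1 cd3q1 pd2 true true true .dn 1 1 2
    ndB2q1 ndB3q1 pcB2 Cut.none Ext.none :=
  certB0 (fam := true) (s1 := true) (s2 := true) (a := 1) (b := 1) (c := 2) (cn := .dn) (n1 := ndB2q1) (n2 := ndB3q1) (pc := pcB2) (cut := Cut.none) (xt := Ext.none) (P1 := 536870912) (W1 := 536870912) (P2 := 536870912) (W2 := 536870912) (P3 := 649613803) (W3 := 48318383) (N0 := 3) (En := eng) (mo := mog) (C1 := cd2q1) (C2 := cd3q1) (C3 := pd2)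
    rfl k0_pp_112

noncomputable def f_pp_113 : ℕ → ℕ → ℕ → ℕ → Bool := onCell 536870912 536870912 536870912 536870912 649613803 48318383
    (rowB 3 eng mog cd2q1 cd3q1 pd3 0 true true true .nn 1 1 3 (qsf 536870912 536870912 536870912 536870912 3) ndB2q1 ndB3q1 pcB3 Cut.none Ext.none)

def k0_pp_113 : ∃ t, chk3 f_pp_113 t 1 1 1 = true :=
  ⟨(l 4), by decide +kernel⟩

theorem c_pp_113 : CertB 536870912 536870912 536870912 536870912 649613803 48318383 3 eng mog cd2q1 cd3q1 pd3 true true true .nn 1 1 3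
    ndB2q1 ndB3q1 pcB3 Cut.none Ext.none :=
  certB0 (fam := true) (s1 := true) (s2 := true) (a := 1) (b := 1) (c := 3) (cn := .nn) (n1 := ndB2q1) (n2 := ndB3q1) (pc := pcB3) (cut := Cut.none) (xt := Ext.none) (P1 := 536870912) (W1 := 536870912) (P2 := 536870912) (W2 := 536870912) (P3 := 649613803) (W3 := 48318383) (N0 := 3) (En := eng) (mo := mog) (C1 := cd2q1) (C2 := cd3q1) (C3 := pd3)
    rfl k0_pp_113

noncomputable def f_pp_123_a : ℕ → ℕ → ℕ → ℕ → Bool := onCell 536870912 536870912 0 536870912 649613803 48318383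
    (rowB 3 eng mog cd2q1 cd3q2a pd3 0 true true true .npn 1 2 3 (qsf 536870912 536870912 0 536870912 3) ndB2q1 ndB3q2a pcB3 Cut.none Ext.none)

def k0_pp_123_a : ∃ t, chk3 f_pp_123_a t 1 1 1 = true :=
  ⟨(l 4), by decide +kernel⟩

theorem c_pp_123_a : CertB 536870912 536870912 0 536870912 649613803 48318383 3 eng mog cd2q1 cd3q2a pd3 true true true .npn 1 2 3
    ndB2q1 ndB3q2a pcB3 Cut.none Ext.none :=
  certB0 (fam := true) (s1 := true) (s2 := true) (a := 1) (b := 2) (c := 3) (cn := .npn) (n1 := ndB2q1) (n2 := ndB3q2a) (pc := pcB3) (cut := Cut.none) (xt := Ext.none) (P1 := 536870912) (W1 := 536870912) (P2 := 0) (W2 := 536870912) (P3 := 649613803) (W3 := 48318383) (N0 := 3) (En := eng) (mo := mog) (C1 := cd2q1) (C2 := cd3q2a) (C3 := pd3)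
    rfl k0_pp_123_a

noncomputable def f_pp_123_b : ℕ → ℕ → ℕ → ℕ → Bool := onCell 536870912 536870912 1239849684 370763052 649613803 48318383
    (rowB 3 eng mog cd2q1 cd3q2b pd3 0 true true true .npn 1 2 3 (qsf 536870912 536870912 1239849684 370763052 3) ndB2q1 ndB3q2b pcB3 Cut.none Ext.none)

def k0_pp_123_b : ∃ t, chk3 f_pp_123_b t 1 1 1 = true :=
  ⟨(l 4), by decide +kernel⟩

theorem c_pp_123_b : CertB 536870912 536870912 1239849684 370763052 649613803 48318383 3 eng mog cd2q1 cd3q2b pd3 true true true .npn 1 2 3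
    ndB2q1 ndB3q2b pcB3 Cut.none Ext.none :=
  certB0 (fam := true) (s1 := true) (s2 := true) (a := 1) (b := 2) (c := 3) (cn := .npn) (n1 := ndB2q1) (n2 := ndB3q2b) (pc := pcB3) (cut := Cut.none) (xt := Ext.none) (P1 := 536870912) (W1 := 536870912) (P2 := 1239849684) (W2 := 370763052) (P3 := 649613803) (W3 := 48318383) (N0 := 3) (En := eng) (mo := mog) (C1 := cd2q1) (C2 := cd3q2b) (C3 := pd3)
    rfl k0_pp_123_b

noncomputable def f_pp_133 : ℕ → ℕ → ℕ → ℕ → Bool := onCell 536870912 536870912 1610612736 536870912 649613803 48318383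
    (rowB 3 eng mog cd2q1 cd3q3 pd3 0 true true true .dn 1 3 3 (qsf 536870912 536870912 1610612736 536870912 3) ndB2q1 ndB3q3 pcB3 Cut.none Ext.none)

def k0_pp_133 : ∃ t, chk3 f_pp_133 t 1 1 1 = true :=
  ⟨(l 4), by decide +kernel⟩

theorem c_pp_133 : CertB 536870912 536870912 1610612736 536870912 649613803 48318383 3 eng mog cd2q1 cd3q3 pd3 true true true .dn 1 3 3
    ndB2q1 ndB3q3 pcB3 Cut.none Ext.none :=
  certB0 (fam := true) (s1 := true) (s2 := true) (a := 1) (b := 3) (c := 3) (cn := .dn) (n1 := ndB2q1) (n2 := ndB3q3) (pc := pcB3) (cut := Cut.none) (xt := Ext.none) (P1 := 536870912) (W1 := 536870912) (P2 := 1610612736) (W2 := 536870912) (P3 := 649613803) (W3 := 48318383) (N0 := 3) (En := eng) (mo := mog) (C1 := cd2q1) (C2 := cd3q3) (C3 := pd3)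
    rfl k0_pp_133

noncomputable def f_pp_202_a : ℕ → ℕ → ℕ → ℕ → Bool := onCell 0 536870912 0 536870912 649613803 48318383
    (rowB 3 eng mog cd2q2a cd3q0 pd2 0 true true true .pp 2 0 2 (qsf 0 536870912 0 536870912 2) ndB2q2a ndB3q0 pcB2 Cut.none Ext.none)

def k0_pp_202_a : ∃ t, chk3 f_pp_202_a t 1 1 1 = true :=
  ⟨(l 5), by decide +kernel⟩

theorem c_pp_202_a : CertB 0 536870912 0 536870912 649613803 48318383 3 eng mog cd2q2a cd3q0 pd2 true true true .pp 2 0 2
    ndB2q2a ndB3q0 pcB2 Cut.none Ext.none :=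
  certB0 (fam := true) (s1 := true) (s2 := true) (a := 2) (b := 0) (c := 2) (cn := .pp) (n1 := ndB2q2a) (n2 := ndB3q0) (pc := pcB2) (cut := Cut.none) (xt := Ext.none) (P1 := 0) (W1 := 536870912) (P2 := 0) (W2 := 536870912) (P3 := 649613803) (W3 := 48318383) (N0 := 3) (En := eng) (mo := mog) (C1 := cd2q2a) (C2 := cd3q0) (C3 := pd2)
    rfl k0_pp_202_a

noncomputable def f_pp_202_b : ℕ → ℕ → ℕ → ℕ → Bool := onCell 1239849684 370763052 0 536870912 649613803 48318383
    (rowB 3 eng mog cd2q2b cd3q0 pd2 0 true true true .pp 2 0 2 (qsf 1239849684 370763052 0 536870912 2) ndB2q2b ndB3q0 pcB2 Cut.none Ext.none)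

def k0_pp_202_b : ∃ t, chk3 f_pp_202_b t 1 1 1 = true :=
  ⟨(l 5), by decide +kernel⟩

theorem c_pp_202_b : CertB 1239849684 370763052 0 536870912 649613803 48318383 3 eng mog cd2q2b cd3q0 pd2 true true true .pp 2 0 2
    ndB2q2b ndB3q0 pcB2 Cut.none Ext.none :=
  certB0 (fam := true) (s1 := true) (s2 := true) (a := 2) (b := 0) (c := 2) (cn := .pp) (n1 := ndB2q2b) (n2 := ndB3q0) (pc := pcB2) (cut := Cut.none) (xt := Ext.none) (P1 := 1239849684) (W1 := 370763052) (P2 := 0) (W2 := 536870912) (P3 := 649613803) (W3 := 48318383) (N0 := 3) (En := eng) (mo := mog) (C1 := cd2q2b) (C2 := cd3q0) (C3 := pd2)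
    rfl k0_pp_202_b

noncomputable def f_pp_203_a : ℕ → ℕ → ℕ → ℕ → Bool := onCell 0 536870912 0 536870912 649613803 48318383
    (rowB 3 eng mog cd2q2a cd3q0 pd3 0 true true true .up 2 0 3 (qsf 0 536870912 0 536870912 3) ndB2q2a ndB3q0 pcB3 Cut.none Ext.none)

def k0_pp_203_a : ∃ t, chk3 f_pp_203_a t 1 1 1 = true :=
  ⟨(l 5), by decide +kernel⟩

theorem c_pp_203_a : CertB 0 536870912 0 536870912 649613803 48318383 3 eng mog cd2q2a cd3q0 pd3 true true true .up 2 0 3
    ndB2q2a ndB3q0 pcB3 Cut.none Ext.none :=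
  certB0 (fam := true) (s1 := true) (s2 := true) (a := 2) (b := 0) (c := 3) (cn := .up) (n1 := ndB2q2a) (n2 := ndB3q0) (pc := pcB3) (cut := Cut.none) (xt := Ext.none) (P1 := 0) (W1 := 536870912) (P2 := 0) (W2 := 536870912) (P3 := 649613803) (W3 := 48318383) (N0 := 3) (En := eng) (mo := mog) (C1 := cd2q2a) (C2 := cd3q0) (C3 := pd3)
    rfl k0_pp_203_a

noncomputable def f_pp_203_b : ℕ → ℕ → ℕ → ℕ → Bool := onCell 1239849684 370763052 0 536870912 649613803 48318383
    (rowB 3 eng mog cd2q2b cd3q0 pd3 0 true true true .up 2 0 3 (qsf 1239849684 370763052 0 536870912 3) ndB2q2b ndB3q0 pcB3 Cut.none Ext.none)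

def k0_pp_203_b : ∃ t, chk3 f_pp_203_b t 1 1 1 = true :=
  ⟨(l 5), by decide +kernel⟩

theorem c_pp_203_b : CertB 1239849684 370763052 0 536870912 649613803 48318383 3 eng mog cd2q2b cd3q0 pd3 true true true .up 2 0 3
    ndB2q2b ndB3q0 pcB3 Cut.none Ext.none :=
  certB0 (fam := true) (s1 := true) (s2 := true) (a := 2) (b := 0) (c := 3) (cn := .up) (n1 := ndB2q2b) (n2 := ndB3q0) (pc := pcB3) (cut := Cut.none) (xt := Ext.none) (P1 := 1239849684) (W1 := 370763052) (P2 := 0) (W2 := 536870912) (P3 := 649613803) (W3 := 48318383) (N0 := 3) (En := eng) (mo := mog) (C1 := cd2q2b) (C2 := cd3q0) (C3 := pd3)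
    rfl k0_pp_203_b

noncomputable def f_pp_213_a : ℕ → ℕ → ℕ → ℕ → Bool := onCell 0 536870912 536870912 536870912 649613803 48318383
    (rowB 3 eng mog cd2q2a cd3q1 pd3 0 true true true .pnn 2 1 3 (qsf 0 536870912 536870912 536870912 3) ndB2q2a ndB3q1 pcB3 Cut.none Ext.none)

def k0_pp_213_a : ∃ t, chk3 f_pp_213_a t 1 1 1 = true :=
  ⟨(l 4), by decide +kernel⟩

theorem c_pp_213_a : CertB 0 536870912 536870912 536870912 649613803 48318383 3 eng mog cd2q2a cd3q1 pd3 true true true .pnn 2 1 3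
    ndB2q2a ndB3q1 pcB3 Cut.none Ext.none :=
  certB0 (fam := true) (s1 := true) (s2 := true) (a := 2) (b := 1) (c := 3) (cn := .pnn) (n1 := ndB2q2a) (n2 := ndB3q1) (pc := pcB3) (cut := Cut.none) (xt := Ext.none) (P1 := 0) (W1 := 536870912) (P2 := 536870912) (W2 := 536870912) (P3 := 649613803) (W3 := 48318383) (N0 := 3) (En := eng) (mo := mog) (C1 := cd2q2a) (C2 := cd3q1) (C3 := pd3)
    rfl k0_pp_213_a

noncomputable def f_pp_213_b : ℕ → ℕ → ℕ → ℕ → Bool := onCell 1239849684 370763052 536870912 536870912 649613803 48318383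
    (rowB 3 eng mog cd2q2b cd3q1 pd3 0 true true true .pnn 2 1 3 (qsf 1239849684 370763052 536870912 536870912 3) ndB2q2b ndB3q1 pcB3 Cut.none Ext.none)

def k0_pp_213_b : ∃ t, chk3 f_pp_213_b t 1 1 1 = true :=
  ⟨(l 4), by decide +kernel⟩

theorem c_pp_213_b : CertB 1239849684 370763052 536870912 536870912 649613803 48318383 3 eng mog cd2q2b cd3q1 pd3 true true true .pnn 2 1 3
    ndB2q2b ndB3q1 pcB3 Cut.none Ext.none :=
  certB0 (fam := true) (s1 := true) (s2 := true) (a := 2) (b := 1) (c := 3) (cn := .pnn) (n1 := ndB2q2b) (n2 := ndB3q1) (pc := pcB3) (cut := Cut.none) (xt := Ext.none) (P1 := 1239849684) (W1 := 370763052) (P2 := 536870912) (W2 := 536870912) (P3 := 649613803) (W3 := 48318383) (N0 := 3) (En := eng) (mo := mog) (C1 := cd2q2b) (C2 := cd3q1) (C3 := pd3)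
    rfl k0_pp_213_b

noncomputable def f_pp_303 : ℕ → ℕ → ℕ → ℕ → Bool := onCell 1610612736 536870912 0 536870912 649613803 48318383
    (rowB 3 eng mog cd2q3 cd3q0 pd3 0 true true true .npn 3 0 3 (qsf 1610612736 536870912 0 536870912 3) ndB2q3 ndB3q0 pcB3 Cut.none Ext.none)

def k0_pp_303 : ∃ t, chk3 f_pp_303 t 1 1 1 = true :=
  ⟨(l 5), by decide +kernel⟩

theorem c_pp_303 : CertB 1610612736 536870912 0 536870912 649613803 48318383 3 eng mog cd2q3 cd3q0 pd3 true true true .npn 3 0 3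
    ndB2q3 ndB3q0 pcB3 Cut.none Ext.none :=
  certB0 (fam := true) (s1 := true) (s2 := true) (a := 3) (b := 0) (c := 3) (cn := .npn) (n1 := ndB2q3) (n2 := ndB3q0) (pc := pcB3) (cut := Cut.none) (xt := Ext.none) (P1 := 1610612736) (W1 := 536870912) (P2 := 0) (W2 := 536870912) (P3 := 649613803) (W3 := 48318383) (N0 := 3) (En := eng) (mo := mog) (C1 := cd2q3) (C2 := cd3q0) (C3 := pd3)
    rfl k0_pp_303

noncomputable def f_pp_313 : ℕ → ℕ → ℕ → ℕ → Bool := onCell 1610612736 536870912 536870912 536870912 649613803 48318383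
    (rowB 3 eng mog cd2q3 cd3q1 pd3 0 true true true .dn 3 1 3 (qsf 1610612736 536870912 536870912 536870912 3) ndB2q3 ndB3q1 pcB3 Cut.none Ext.none)

def k0_pp_313 : ∃ t, chk3 f_pp_313 t 1 1 1 = true :=
  ⟨(l 4), by decide +kernel⟩

theorem c_pp_313 : CertB 1610612736 536870912 536870912 536870912 649613803 48318383 3 eng mog cd2q3 cd3q1 pd3 true true true .dn 3 1 3
    ndB2q3 ndB3q1 pcB3 Cut.none Ext.none :=
  certB0 (fam := true) (s1 := true) (s2 := true) (a := 3) (b := 1) (c := 3) (cn := .dn) (n1 := ndB2q3) (n2 := ndB3q1) (pc := pcB3) (cut := Cut.none) (xt := Ext.none) (P1 := 1610612736) (W1 := 536870912) (P2 := 536870912) (W2 := 536870912) (P3 := 649613803) (W3 := 48318383) (N0 := 3) (En := eng) (mo := mog) (C1 := cd2q3) (C2 := cd3q1) (C3 := pd3)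
    rfl k0_pp_313

noncomputable def f_pm_001 : ℕ → ℕ → ℕ → ℕ → Bool := onCell 0 536870912 0 536870912 649613803 48318383
    (rowB 3 eng mog cd2q0 cd3q0 pd1 0 true true false .up 0 0 1 (qsf 0 536870912 0 536870912 1) ndB2q0 ndB3q0 pcB1 Cut.none Ext.none)

def k0_pm_001 : ∃ t, chk3 f_pm_001 t 1 1 1 = true :=
  ⟨(l 3), by decide +kernel⟩

theorem c_pm_001 : CertB 0 536870912 0 536870912 649613803 48318383 3 eng mog cd2q0 cd3q0 pd1 true true false .up 0 0 1
    ndB2q0 ndB3q0 pcB1 Cut.none Ext.none :=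
  certB0 (fam := true) (s1 := true) (s2 := false) (a := 0) (b := 0) (c := 1) (cn := .up) (n1 := ndB2q0) (n2 := ndB3q0) (pc := pcB1) (cut := Cut.none) (xt := Ext.none) (P1 := 0) (W1 := 536870912) (P2 := 0) (W2 := 536870912) (P3 := 649613803) (W3 := 48318383) (N0 := 3) (En := eng) (mo := mog) (C1 := cd2q0) (C2 := cd3q0) (C3 := pd1)
    rfl k0_pm_001

noncomputable def f_pm_011 : ℕ → ℕ → ℕ → ℕ → Bool := onCell 0 536870912 536870912 536870912 649613803 48318383
    (rowB 3 eng mog cd2q0 cd3q1 pd1 1 true true false .pnn 0 1 1 (qsf 0 536870912 536870912 536870912 1) ndB2q0 ndB3q1 pcB1 Cut.none Ext.none)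

def k0_pm_011 : ∃ t, chk3 f_pm_011 t 1 1 1 = true :=
  ⟨(l 3), by decide +kernel⟩

theorem c_pm_011 : CertB 0 536870912 536870912 536870912 649613803 48318383 3 eng mog cd2q0 cd3q1 pd1 true true false .pnn 0 1 1
    ndB2q0 ndB3q1 pcB1 Cut.none Ext.none :=
  certB1 (fam := true) (s1 := true) (s2 := false) (a := 0) (b := 1) (c := 1) (cn := .pnn) (n1 := ndB2q0) (n2 := ndB3q1) (pc := pcB1) (cut := Cut.none) (xt := Ext.none) (P1 := 0) (W1 := 536870912) (P2 := 536870912) (W2 := 536870912) (P3 := 649613803) (W3 := 48318383) (N0 := 3) (En := eng) (mo := mog) (C1 := cd2q0) (C2 := cd3q1) (C3 := pd1)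
    rfl (fun _ => rfl) k0_pm_011

noncomputable def f_pm_012 : ℕ → ℕ → ℕ → ℕ → Bool := onCell 1073741824 536870912 536870912 536870912 649613803 48318383
    (rowB 3 eng mog cd2q0 cd3q1 pd2 2 true true false .pnp 0 1 2 (qsf 0 536870912 536870912 536870912 2) ndB2q0 ndB3q1 pcB2 Cut.none Ext.none)

def k0_pm_012 : ∃ t, chk3 f_pm_012 t 1 1 1 = true :=
  ⟨(b (a (a (l 3) (b (a (a (a (a (l 3) (l 2)) (l 2)) (l 2)) (l 2)) (a (a (a (l 3) (a (b (l 16609608) (l 3)) (a (l 16639912) (a (l 16616824) (l 16637520))))) (l 16631400)) (b (l 16597384) (l 16563136))))) (a (b (l 2) (a (b (l 2) (l 16565064)) (l 2))) (l 2))) (a (a (l 3) (a (a (a (l 3) (a (l 3) (b (a (b (l 16571296) (l 3)) (b (a (l 16568592) (l 16566840)) (a (l 16549792) (l 16547672)))) (a (l 3) (b (a (l 16536040) (l 16533152)) (a (l 16529520) (l 16525944))))))) (b (b (l 16554256) (l 16529744)) (b (l 16509808) (l 16496272)))) (b (b (l 16527848) (l 16489976)) (b (l 16454992) (b (l 16430600) (l 16417904))))))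 (b (a (a (b (l 16515680) (l 16461824)) (b (l 16530336) (l 16463064))) (a (b (l 2) (l 16495448)) (l 2))) (a (b (a (l 16408224) (l 16392376)) (a (l 16354728) (l 16317536))) (b (l 16430504) (l 16323856)))))), by decide +kernel⟩

theorem c_pm_012 : CertB 0 536870912 536870912 536870912 649613803 48318383 3 eng mog cd2q0 cd3q1 pd2 true true false .pnp 0 1 2
    ndB2q0 ndB3q1 pcB2 Cut.none Ext.none :=
  certB2 (fam := true) (s1 := true) (s2 := false) (a := 0) (b := 1) (c := 2) (cn := .pnp) (n1 := ndB2q0) (n2 := ndB3q1) (pc := pcB2) (cut := Cut.none) (xt := Ext.none) (P1 := 0) (W1 := 536870912) (P2 := 536870912) (W2 := 536870912) (P3 := 649613803) (W3 := 48318383) (N0 := 3) (En := eng) (mo := mog) (C1 := cd2q0) (C2 := cd3q1) (C3 := pd2)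
    rfl (fun _ => rfl) k0_pm_012

noncomputable def cut_pm_022_a : Cut := Cut.of [[⟨0, 0, 0, 67108864⟩, ⟨1, 1, 0, 67108864⟩, ⟨2, 1, 0, 67108864⟩]]

noncomputable def f_pm_022_a : ℕ → ℕ → ℕ → ℕ → Bool := onCell 1073741824 536870912 0 536870912 649613803 48318383
    (rowB 3 eng mog cd2q0 cd3q2a pd2 2 true true false .pp 0 2 2 (qsf 0 536870912 0 536870912 2) ndB2q0 ndB3q2a pcB2 cut_pm_022_a Ext.none)

def k0_pm_022_a : ∃ t, chk3 f_pm_022_a t 2 2 1 = true :=
  ⟨(a (a (l 1) (b (l 1) (a (l 1) (b (l 1) (a (l 1) (b (l 1) (a (l 1) (l 198675227287)))))))) (a (a (a (b (l 1) (b (b (l 141229985271) (a (l 1) (l 16460040))) (b (a (l 196527712615) (l 16475312)) (a (l 16490712) (l 16492632))))) (b (a (b (l 1) (b (l 1) (l 16441720))) (b (a (l 1) (l 16435320)) (a (b (l 16438552) (l 16444936)) (a (l 16464560) (b (l 16441384) (l 16447376)))))) (b (a (b (l 16451168) (l 16463312)) (a (l 16480912) (a (l 16461040) (b (l 16455888) (l 16466968))))) (a (b (l 16477800) (l 16494224))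 (a (l 16487544) (a (l 16487968) (b (l 16480224) (l 16495304)))))))) (b (a (b (a (l 16459776) (c (l 16448184) (l 16436408))) (a (b (l 16444048) (l 16449904)) (c (l 16560672) (l 16486824)))) (b (l 16443800) (b (l 16447976) (l 16453776)))) (b (a (b (l 16459728) (l 16470096)) (l 16465912)) (a (b (l 16482536) (l 16496680)) (l 16488264))))) (b (a (b (l 16465544) (a (l 16450128) (l 16450288))) (b (l 16448912) (l 16451928))) (b (a (b (l 16459192) (l 16467232)) (l 16462016)) (a (l 16482504) (l 16477144)))))), by decide +kernel⟩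

def k1_pm_022_a : ∃ t, chk3 f_pm_022_a t 4 3 1 = true :=
  ⟨(a (b (l 1) (a (b (l 1) (l 6)) (a (b (b (l 1) (l 6)) (l 6)) (a (b (b (l 1) (l 6)) (l 6)) (b (b (b (l 1) (b (l 138545977783) (l 190622474935))) (b (a (l 6) (l 16646200)) (l 16683912))) (a (l 6) (b (l 16665080) (b (l 16692432) (l 16694584))))))))) (b (a (b (l 1) (a (b (l 1) (a (l 1) (b (l 110091732871) (a (l 157336392455) (l 16605096))))) (b (a (b (l 1) (l 125124087063)) (b (l 147672636567) (l 189548596279))) (b (a (l 179884952503) (l 16578048)) (a (l 16593704) (l 16592336)))))) (b (a (b (a (l 1) (l 126197683255)) (a (b (l 1) (l 178274255783)) (b (l 16524368) (l 16536936)))) (b (a (l 168610487191) (l 16509432)) (a (l 16531392) (l 16531832)))) (b (a (a (b (l 16549688) (l 16563328)) (l 16556360)) (a (l 16555904) (l 16555216))) (a (b (l 16576568) (a (l 16590824) (l 16589088))) (a (l 16580984) (l 16579080)))))) (b (a (b (a (a (b (a (l 142840912039) (l 194380518615)) (b (l 16624456) (l 16632512)))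 (b (l 251825714823) (l 16626216))) (b (a (l 16608728) (l 16606744)) (a (l 16623800) (l 16621168)))) (a (b (a (l 16644104) (l 16641224)) (a (l 16659584) (l 16656104))) (a (l 16645464) (l 16641928)))) (a (b (a (l 16611616) (l 16608920)) (l 16630472)) (b (l 16604360) (l 16613016)))) (a (b (b (a (l 16673016) (l 16654368)) (a (l 16677096) (l 16657616))) (b (a (c (l 16679992) (l 16680224)) (l 16660400)) (a (l 16682064) (l 16662504)))) (b (a (l 16647992) (c (l 16620832) (l 16619504))) (a (l 16663848) (b (l 16623992) (l 16625936)))))))), by decide +kernel⟩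

def k2_pm_022_a : ∃ t, chk3 f_pm_022_a t 5 3 1 = true :=
  ⟨(a (b (a (a (b (b (a (l 16510664) (l 16511624)) (l 16550304)) (b (l 16553608) (l 16575600))) (b (a (b (l 16512232) (l 16531440)) (a (l 16521920) (a (l 16521528) (l 16541936)))) (a (l 16561816) (a (l 16559744) (a (l 16558392) (l 16557128)))))) (b (a (l 16583632) (l 16515888)) (a (l 16550232) (l 16540480)))) (a (a (b (b (l 16588992) (l 16596736)) (b (l 16603424) (b (l 16607048) (l 16607800)))) (b (a (l 16603064) (a (l 16576968) (a (l 16574792) (l 16594776)))) (a (b (l 16591728) (l 16594448)) (a (b (l 16586248) (l 16588360)) (b (a (l 16583872) (l 16582768)) (a (l 16585800) (l 16605624))))))) (b (b (l 16597968) (a (l 16568552) (l 16556560))) (b (a (l 16573400) (l 16560288)) (a (l 16575152) (l 16561536)))))) (b (b (a (l 16505760) (l 16496512)) (a (l 16529056) (l 16514856))) (b (b (l 16529112) (a (l 16541888) (l 16524112))) (b (a (l 16544440) (l 16525216)) (a (l 16544648) (l 16524128)))))), by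 decide +kernel⟩

def k3_pm_022_a : ∃ t, chk3 f_pm_022_a t 3 1 1 = true :=
  ⟨(b (a (a (b (a (b (l 16456512) (l 16457488)) (b (l 16472040) (l 16470896))) (b (a (l 16465384) (l 16475568)) (a (l 16477968) (l 16482448)))) (a (b (b (l 16490624) (l 16486560)) (b (l 16486792) (l 16487184))) (b (l 16506632) (b (l 16498520) (l 16492984))))) (a (b (a (l 16524400) (l 16542584)) (b (l 16580624) (l 16503248))) (b (b (l 16617784) (l 16560152)) (l 16530112)))) (a (b (a (b (l 16490048) (l 16497208)) (b (l 16649984) (l 16478536))) (a (b (b (l 16500304) (l 16501224)) (b (l 16500496) (l 16623648))) (b (a (l 16484032) (l 16473408)) (a (l 16479568) (l 16467416))))) (b (a (b (l 16478840) (l 16460296)) (b (l 16472152) (l 16440656))) (a (b (l 16458104) (a (l 16456216) (l 16446416))) (b (l 16436728) (l 16431240)))))), by decide +kernel⟩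

theorem s4_pm_022_a : ∃ t, chk3 f_pm_022_a t 2 3 1 = true := ex3_a k1_pm_022_a k2_pm_022_a

theorem s5_pm_022_a : ∃ t, chk3 f_pm_022_a t 2 1 1 = true := ex3_b k0_pm_022_a s4_pm_022_a

theorem s6_pm_022_a : ∃ t, chk3 f_pm_022_a t 1 1 1 = true := ex3_a s5_pm_022_a k3_pm_022_a

theorem c_pm_022_a : CertB 0 536870912 0 536870912 649613803 48318383 3 eng mog cd2q0 cd3q2a pd2 true true false .pp 0 2 2
    ndB2q0 ndB3q2a pcB2 cut_pm_022_a Ext.none :=
  certB2 (fam := true) (s1 := true) (s2 := false) (a := 0) (b := 2) (c := 2) (cn := .pp) (n1 := ndB2q0) (n2 := ndB3q2a) (pc := pcB2) (cut := cut_pm_022_a) (xt := Ext.none) (P1 := 0) (W1 := 536870912) (P2 := 0) (W2 := 536870912) (P3 := 649613803) (W3 := 48318383) (N0 := 3) (En := eng) (mo := mog) (C1 := cd2q0) (C2 := cd3q2a) (C3 := pd2)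
    rfl (fun _ => rfl) s6_pm_022_a

noncomputable def cut_pm_022_b : Cut := Cut.of [[⟨0, 0, 0, 67108864⟩, ⟨1, 1, 0, 67108864⟩, ⟨2, 1, 0, 67108864⟩]]

noncomputable def f_pm_022_b : ℕ → ℕ → ℕ → ℕ → Bool := onCell 1073741824 536870912 1239849684 370763052 649613803 48318383
    (rowB 3 eng mog cd2q0 cd3q2b pd2 2 true true false .pp 0 2 2 (qsf 0 536870912 1239849684 370763052 2) ndB2q0 ndB3q2b pcB2 cut_pm_022_b Ext.none)

def k0_pm_022_b : ∃ t, chk3 f_pm_022_b t 2 1 1 = true :=
  ⟨(b (a (l 1) (a (b (b (a (a (l 1) (b (c (l 16408088) (l 16432016)) (l 1))) (a (b (b (a (l 16423016) (c (a (l 16432888) (l 16434696)) (l 16420608))) (a (l 1) (l 96132745847))) (l 1)) (b (b (l 16429728) (l 16402048)) (b (l 16373504) (l 16344232))))) (l 1)) (l 1)) (b (b (a (b (a (l 16418320) (l 16421648)) (a (b (l 16378176) (l 16350424)) (l 16370856))) (b (l 16428304) (a (l 16378136) (l 16386112)))) (a (b (a (l 11843775399) (b (l 16330720) (l 16303176))) (l 1)) (b (a (b (l 16340272)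 (l 16314232)) (l 16338320)) (a (b (l 16287608) (l 16260520)) (b (l 16300792) (l 16275136)))))) (b (a (l 1) (b (a (l 1) (b (l 16249040) (l 1))) (l 1))) (l 1))))) (l 1)), by decide +kernel⟩

def k1_pm_022_b : ∃ t, chk3 f_pm_022_b t 3 1 1 = true :=
  ⟨(b (a (a (b (b (a (b (l 16439616) (l 16399136)) (b (l 16456680) (l 16418560))) (a (b (l 16355736) (a (l 16302464) (l 16317184))) (b (l 16379904) (l 16339664)))) (b (a (b (a (b (l 16265608) (l 16240544)) (l 16270760)) (a (b (l 131565898535) (l 1)) (b (l 16234832) (l 16210176)))) (b (l 16297472) (a (l 16242872) (l 16263184)))) (a (l 1) (b (a (l 175589249335) (l 16216800)) (l 185789652711))))) (b (b (a (l 16483184) (l 16487960)) (a (a (l 16380856) (l 16396112)) (l 16421784))) (b (a (a (l 16303920) (l 16322752)) (l 16351200)) (a (a (l 172368060887) (l 16239208)) (l 16273840))))) (b (a (b (l 16568328) (l 16475056)) (a (l 16609832) (l 16575208))) (a (b (a (l 16391336) (l 16433864)) (a (l 16318064) (l 16362568)))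 (a (l 16443144) (l 16486208))))) (a (b (a (l 1) (a (b (a (l 202432585975) (l 190621602551)) (l 1)) (b (a (l 207801508775) (l 223370823495)) (a (l 1) (l 233571096807))))) (l 1)) (a (b (a (b (l 16244040) (a (l 210485839639) (l 220149579063))) (b (l 16293472) (l 16225520))) (a (l 1) (b (l 350072354503) (l 1)))) (b (a (b (l 16340960) (l 16278704)) (l 16361120)) (a (b (l 16279576) (l 397317041319)) (b (l 16273456) (l 16219024))))))), by decide +kernel⟩

theorem s2_pm_022_b : ∃ t, chk3 f_pm_022_b t 1 1 1 = true := ex3_a k0_pm_022_b k1_pm_022_b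

theorem c_pm_022_b : CertB 0 536870912 1239849684 370763052 649613803 48318383 3 eng mog cd2q0 cd3q2b pd2 true true false .pp 0 2 2
    ndB2q0 ndB3q2b pcB2 cut_pm_022_b Ext.none :=
  certB2 (fam := true) (s1 := true) (s2 := false) (a := 0) (b := 2) (c := 2) (cn := .pp) (n1 := ndB2q0) (n2 := ndB3q2b) (pc := pcB2) (cut := cut_pm_022_b) (xt := Ext.none) (P1 := 0) (W1 := 536870912) (P2 := 1239849684) (W2 := 370763052) (P3 := 649613803) (W3 := 48318383) (N0 := 3) (En := eng) (mo := mog) (C1 := cd2q0) (C2 := cd3q2b) (C3 := pd2)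
    rfl (fun _ => rfl) s2_pm_022_b

noncomputable def f_pm_023_a : ℕ → ℕ → ℕ → ℕ → Bool := onCell 1610612736 536870912 0 536870912 649613803 48318383
    (rowB 3 eng mog cd2q0 cd3q2a pd3 2 true true false .up 0 2 3 (qsf 0 536870912 0 536870912 3) ndB2q0 ndB3q2a pcB3 Cut.none Ext.none)

def k0_pm_023_a : ∃ t, chk3 f_pm_023_a t 1 1 1 = true :=
  ⟨(a (b (a (a (b (l 16561112) (l 16544440)) (b (l 16648464) (l 16626648))) (a (b (l 16720688) (a (l 16681728) (l 2))) (l 2))) (b (a (a (l 16532864) (a (l 16593264) (l 16631408))) (l 2)) (a (a (b (l 16518680) (l 16519800)) (a (l 16592448) (l 2))) (l 2)))) (l 2)), by decide +kernel⟩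

theorem c_pm_023_a : CertB 0 536870912 0 536870912 649613803 48318383 3 eng mog cd2q0 cd3q2a pd3 true true false .up 0 2 3
    ndB2q0 ndB3q2a pcB3 Cut.none Ext.none :=
  certB2 (fam := true) (s1 := true) (s2 := false) (a := 0) (b := 2) (c := 3) (cn := .up) (n1 := ndB2q0) (n2 := ndB3q2a) (pc := pcB3) (cut := Cut.none) (xt := Ext.none) (P1 := 0) (W1 := 536870912) (P2 := 0) (W2 := 536870912) (P3 := 649613803) (W3 := 48318383) (N0 := 3) (En := eng) (mo := mog) (C1 := cd2q0) (C2 := cd3q2a) (C3 := pd3)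
    rfl (fun _ => rfl) k0_pm_023_a

noncomputable def f_pm_023_b : ℕ → ℕ → ℕ → ℕ → Bool := onCell 1610612736 536870912 1239849684 370763052 649613803 48318383
    (rowB 3 eng mog cd2q0 cd3q2b pd3 2 true true false .up 0 2 3 (qsf 0 536870912 1239849684 370763052 3) ndB2q0 ndB3q2b pcB3 Cut.none Ext.none)

def k0_pm_023_b : ∃ t, chk3 f_pm_023_b t 1 1 1 = true :=
  ⟨(a (a (b (b (a (b (l 16612864) (l 16607168)) (l 16645824)) (a (l 16546472) (l 16620640))) (b (a (l 16417960) (l 16501872)) (a (l 16281648) (l 16363992)))) (b (a (b (l 16689896) (l 16686768)) (b (l 16749656) (l 16736128))) (a (b (l 16590264) (l 16468232)) (b (l 16674312) (l 16587544))))) (a (b (b (l 2) (a (l 16738080) (l 4))) (a (a (l 16698920) (l 4)) (l 4))) (l 4))), by decide +kernel⟩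

theorem c_pm_023_b : CertB 0 536870912 1239849684 370763052 649613803 48318383 3 eng mog cd2q0 cd3q2b pd3 true true false .up 0 2 3
    ndB2q0 ndB3q2b pcB3 Cut.none Ext.none :=
  certB2 (fam := true) (s1 := true) (s2 := false) (a := 0) (b := 2) (c := 3) (cn := .up) (n1 := ndB2q0) (n2 := ndB3q2b) (pc := pcB3) (cut := Cut.none) (xt := Ext.none) (P1 := 0) (W1 := 536870912) (P2 := 1239849684) (W2 := 370763052) (P3 := 649613803) (W3 := 48318383) (N0 := 3) (En := eng) (mo := mog) (C1 := cd2q0) (C2 := cd3q2b) (C3 := pd3)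
    rfl (fun _ => rfl) k0_pm_023_b

noncomputable def f_pm_033 : ℕ → ℕ → ℕ → ℕ → Bool := onCell 0 536870912 1610612736 536870912 649613803 48318383
    (rowB 3 eng mog cd2q0 cd3q3 pd3 1 true true false .pnn 0 3 3 (qsf 0 536870912 1610612736 536870912 3) ndB2q0 ndB3q3 pcB3 Cut.none Ext.none)

def k0_pm_033 : ∃ t, chk3 f_pm_033 t 1 1 1 = true :=
  ⟨(b (b (a (a (b (a (l 16190648) (l 16287488)) (l 16211712)) (b (l 1) (l 16424848))) (l 1)) (a (b (a (l 16322064) (l 16421120)) (a (b (l 16268872) (l 16305336)) (l 16458992))) (b (l 1) (a (l 16621848) (l 1))))) (b (a (a (l 4) (l 4)) (b (a (l 16660304) (l 1)) (l 4))) (l 4))), by decide +kernel⟩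

theorem c_pm_033 : CertB 0 536870912 1610612736 536870912 649613803 48318383 3 eng mog cd2q0 cd3q3 pd3 true true false .pnn 0 3 3
    ndB2q0 ndB3q3 pcB3 Cut.none Ext.none :=
  certB1 (fam := true) (s1 := true) (s2 := false) (a := 0) (b := 3) (c := 3) (cn := .pnn) (n1 := ndB2q0) (n2 := ndB3q3) (pc := pcB3) (cut := Cut.none) (xt := Ext.none) (P1 := 0) (W1 := 536870912) (P2 := 1610612736) (W2 := 536870912) (P3 := 649613803) (W3 := 48318383) (N0 := 3) (En := eng) (mo := mog) (C1 := cd2q0) (C2 := cd3q3) (C3 := pd3)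
    rfl (fun _ => rfl) k0_pm_033

noncomputable def f_pm_101 : ℕ → ℕ → ℕ → ℕ → Bool := onCell 536870912 536870912 0 536870912 649613803 48318383
    (rowB 3 eng mog cd2q1 cd3q0 pd1 2 true true false .npn 1 0 1 (qsf 536870912 536870912 0 536870912 1) ndB2q1 ndB3q0 pcB1 Cut.none Ext.none)

def k0_pm_101 : ∃ t, chk3 f_pm_101 t 1 1 1 = true :=
  ⟨(l 3), by decide +kernel⟩

theorem c_pm_101 : CertB 536870912 536870912 0 536870912 649613803 48318383 3 eng mog cd2q1 cd3q0 pd1 true true false .npn 1 0 1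
    ndB2q1 ndB3q0 pcB1 Cut.none Ext.none :=
  certB2 (fam := true) (s1 := true) (s2 := false) (a := 1) (b := 0) (c := 1) (cn := .npn) (n1 := ndB2q1) (n2 := ndB3q0) (pc := pcB1) (cut := Cut.none) (xt := Ext.none) (P1 := 536870912) (W1 := 536870912) (P2 := 0) (W2 := 536870912) (P3 := 649613803) (W3 := 48318383) (N0 := 3) (En := eng) (mo := mog) (C1 := cd2q1) (C2 := cd3q0) (C3 := pd1)
    rfl (fun _ => rfl) k0_pm_101

noncomputable def f_pm_102 : ℕ → ℕ → ℕ → ℕ → Bool := onCell 536870912 536870912 1073741824 536870912 649613803 48318383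
    (rowB 3 eng mog cd2q1 cd3q0 pd2 1 true true false .npp 1 0 2 (qsf 536870912 536870912 0 536870912 2) ndB2q1 ndB3q0 pcB2 Cut.none Ext.none)

def k0_pm_102 : ∃ t, chk3 f_pm_102 t 1 4 1 = true :=
  ⟨(b (l 3) (a (l 3) (b (a (l 3) (l 3)) (a (b (l 3) (a (b (l 3) (l 16694040)) (b (l 16693392) (a (l 16688560) (l 16678328))))) (a (b (b (l 3) (l 269676731543)) (a (b (l 16674920) (l 16664264)) (b (l 16659056) (l 16648064)))) (b (a (b (l 3) (l 16654736)) (b (l 16651352) (l 16640712))) (a (b (l 16643408) (l 16632096)) (b (l 16629896) (l 16618616))))))))), by decide +kernel⟩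

def k1_pm_102 : ∃ t, chk3 f_pm_102 t 1 5 1 = true :=
  ⟨(b (b (b (a (a (b (l 3) (l 2)) (b (a (l 3) (l 16686896)) (a (l 16679464) (l 16682800)))) (a (b (a (b (l 16689312) (l 16686048)) (a (l 16679792) (l 16668472))) (a (b (l 16682624) (l 16679240)) (a (l 16671328) (l 16659080)))) (a (a (b (l 16653816) (l 16643584)) (b (l 16658176) (l 16626528))) (b (a (l 16621040) (l 16607384)) (l 16603056))))) (a (a (l 2) (b (a (b (l 16677240) (l 16675040)) (b (l 16679200) (l 16676720))) (b (a (l 16673520) (l 16674616)) (a (b (l 16673136) (l 16674504)) (b (l 16673824) (l 16673432)))))) (a (b (a (b (l 16675904) (l 16672632)) (b (l 16659056) (l 16654584))) (b (a (l 16669368) (l 16649680)) (a (b (l 16666608) (a (l 16667584) (l 16659872))) (b (l 16645216) (b (b (b (l 16643048) (a (l 16649088) (l 16634416))) (l 16641528)) (l 16640656)))))) (b (a (a (l 16633240) (l 16615864)) (a (l 16599504) (l 16585688))) (b (a (a (l 16625024) (l 16607768)) (l 16584080)) (a (b (a (l 16620576)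 (l 16603744)) (a (l 16617544) (l 16642920))) (b (l 16580008) (l 16598672)))))))) (a (a (l 2) (a (l 16670336) (l 16663824))) (a (a (l 16648552) (l 16684824)) (a (a (l 16596792) (l 16579304)) (l 16575792))))) (a (a (l 2) (a (l 16656944) (l 16637272))) (a (a (l 16628624) (b (l 16587960) (l 16558104))) (a (b (l 16551288) (l 16518776)) (a (l 16525656) (l 16486656)))))), by decide +kernel⟩

def k2_pm_102 : ∃ t, chk3 f_pm_102 t 1 3 1 = true :=
  ⟨(a (b (a (l 2) (b (a (l 2) (l 16614408)) (l 2))) (l 2)) (a (b (b (a (l 16569872) (l 16527688)) (a (l 16573144) (l 16522248))) (a (l 2) (l 16564968))) (b (a (b (l 16482352) (l 16462680)) (b (l 16643992) (l 16399520))) (a (l 16489608) (b (l 16393576) (l 16423504)))))), by decide +kernel⟩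

theorem s3_pm_102 : ∃ t, chk3 f_pm_102 t 1 2 1 = true := ex3_b k0_pm_102 k1_pm_102

theorem s4_pm_102 : ∃ t, chk3 f_pm_102 t 1 1 1 = true := ex3_b s3_pm_102 k2_pm_102

theorem c_pm_102 : CertB 536870912 536870912 0 536870912 649613803 48318383 3 eng mog cd2q1 cd3q0 pd2 true true false .npp 1 0 2
    ndB2q1 ndB3q0 pcB2 Cut.none Ext.none :=
  certB1 (fam := true) (s1 := true) (s2 := false) (a := 1) (b := 0) (c := 2) (cn := .npp) (n1 := ndB2q1) (n2 := ndB3q0) (pc := pcB2) (cut := Cut.none) (xt := Ext.none) (P1 := 536870912) (W1 := 536870912) (P2 := 0) (W2 := 536870912) (P3 := 649613803) (W3 := 48318383) (N0 := 3) (En := eng) (mo := mog) (C1 := cd2q1) (C2 := cd3q0) (C3 := pd2)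
    rfl (fun _ => rfl) s4_pm_102

noncomputable def f_pm_112 : ℕ → ℕ → ℕ → ℕ → Bool := onCell 536870912 536870912 1073741824 536870912 649613803 48318383
    (rowB 3 eng mog cd2q1 cd3q1 pd2 1 true true false .dn 1 1 2 (qsf 536870912 536870912 536870912 536870912 2) ndB2q1 ndB3q1 pcB2 Cut.none Ext.none)

def k0_pm_112 : ∃ t, chk3 f_pm_112 t 1 1 1 = true :=
  ⟨(a (b (b (l 3) (b (a (b (b (b (l 3) (l 16638808)) (b (b (l 16614808) (l 16612400)) (b (a (l 16601824) (l 16614544)) (b (l 16608880) (a (l 16599408) (l 16614344)))))) (l 16602952)) (b (a (b (b (l 3) (l 155189061911)) (b (b (l 16618200) (l 16616640)) (b (l 16615744) (b (l 16615896) (l 16617928))))) (l 1)) (l 129956298599))) (a (a (l 16568104) (l 16594912)) (a (l 16607712) (l 16601072))))) (b (a (b (a (l 16536768) (l 16574560)) (l 16536440)) (b (l 16660872) (l 16604304))) (a (a (l 16467136) (l 16558624)) (a (l 16630744) (l 16666136))))) (b (b (l 1) (b (l 1) (a (a (l 397317892855) (l 1)) (l 1)))) (b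 (a (b (a (l 16565544) (l 16533088)) (l 16562400)) (b (l 1) (l 304976137303))) (a (a (l 16660664) (l 16618056)) (a (l 16551520) (l 118145071847)))))), by decide +kernel⟩

theorem c_pm_112 : CertB 536870912 536870912 536870912 536870912 649613803 48318383 3 eng mog cd2q1 cd3q1 pd2 true true false .dn 1 1 2
    ndB2q1 ndB3q1 pcB2 Cut.none Ext.none :=
  certB1 (fam := true) (s1 := true) (s2 := false) (a := 1) (b := 1) (c := 2) (cn := .dn) (n1 := ndB2q1) (n2 := ndB3q1) (pc := pcB2) (cut := Cut.none) (xt := Ext.none) (P1 := 536870912) (W1 := 536870912) (P2 := 536870912) (W2 := 536870912) (P3 := 649613803) (W3 := 48318383) (N0 := 3) (En := eng) (mo := mog) (C1 := cd2q1) (C2 := cd3q1) (C3 := pd2)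
    rfl (fun _ => rfl) k0_pm_112

noncomputable def f_pm_113 : ℕ → ℕ → ℕ → ℕ → Bool := onCell 536870912 536870912 1610612736 536870912 649613803 48318383
    (rowB 3 eng mog cd2q1 cd3q1 pd3 1 true true false .nn 1 1 3 (qsf 536870912 536870912 536870912 536870912 3) ndB2q1 ndB3q1 pcB3 Cut.none Ext.none)

def k0_pm_113 : ∃ t, chk3 f_pm_113 t 1 1 1 = true :=
  ⟨(a (b (b (a (b (l 16483984) (l 16488256)) (b (l 16732512) (l 16821984))) (a (a (l 2) (b (l 16604760) (l 2))) (b (l 16778472) (l 16727056)))) (a (l 2) (b (b (a (l 2) (l 16755160)) (l 2)) (l 2)))) (b (b (a (a (l 16923080) (l 16935928)) (b (l 16718192) (l 16958376))) (b (a (l 16984416) (b (l 17120296) (l 17141336))) (a (l 16892728) (a (l 17033032) (l 17117384))))) (a (b (b (l 17076280) (a (l 16767384) (l 16787256))) (b (a (l 2) (l 16749120)) (l 2))) (b (b (a (l 16915584) (l 17016384)) (a (l 16837792) (l 16909912))) (b (a (l 16782144) (l 16837248)) (b (a (l 16752728) (l 16796248)) (b (l 16744056) (b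 (l 16940944) (a (l 2) (l 16722120)))))))))), by decide +kernel⟩

theorem c_pm_113 : CertB 536870912 536870912 536870912 536870912 649613803 48318383 3 eng mog cd2q1 cd3q1 pd3 true true false .nn 1 1 3
    ndB2q1 ndB3q1 pcB3 Cut.none Ext.none :=
  certB1 (fam := true) (s1 := true) (s2 := false) (a := 1) (b := 1) (c := 3) (cn := .nn) (n1 := ndB2q1) (n2 := ndB3q1) (pc := pcB3) (cut := Cut.none) (xt := Ext.none) (P1 := 536870912) (W1 := 536870912) (P2 := 536870912) (W2 := 536870912) (P3 := 649613803) (W3 := 48318383) (N0 := 3) (En := eng) (mo := mog) (C1 := cd2q1) (C2 := cd3q1) (C3 := pd3)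
    rfl (fun _ => rfl) k0_pm_113

noncomputable def f_pm_123_a : ℕ → ℕ → ℕ → ℕ → Bool := onCell 1610612736 536870912 0 536870912 649613803 48318383
    (rowB 3 eng mog cd2q1 cd3q2a pd3 2 true true false .npn 1 2 3 (qsf 536870912 536870912 0 536870912 3) ndB2q1 ndB3q2a pcB3 Cut.none Ext.none)

def k0_pm_123_a : ∃ t, chk3 f_pm_123_a t 1 1 1 = true :=
  ⟨(b (a (a (a (l 1) (b (l 1) (l 16705280))) (a (b (l 16773600) (a (l 16746536) (l 16780928))) (b (l 16815048) (l 16838528)))) (a (a (a (l 16822304) (l 16784248)) (a (l 16814872) (l 16750488))) (a (a (l 63049011687) (l 4)) (l 4)))) (a (a (a (b (l 1) (b (l 16590648) (l 16589464))) (b (l 16703376) (a (l 16734336) (b (l 16715736) (l 16765576))))) (a (a (b (l 16789392) (a (l 16800992) (b (l 16808832) (a (l 16881672) (l 16884984))))) (b (l 16799864) (a (b (l 16837048) (l 16783768)) (l 16862672)))) (b (l 16876928) (a (l 16888856) (l 16912560))))) (a (a (a (b (l 16891472) (l 16923032)) (b (l 16892872) (l 16921696)))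 (a (b (l 16881368) (c (l 16914632) (l 17135264))) (b (l 16843768) (l 17135600)))) (a (a (b (l 16862864) (a (l 17000256) (l 16957456))) (b (l 16763920) (c (l 16998936) (l 17037168)))) (a (b (a (l 16735944) (l 4)) (a (l 16922608) (l 16835960))) (a (b (l 4) (l 16855792)) (l 4))))))), by decide +kernel⟩

theorem c_pm_123_a : CertB 536870912 536870912 0 536870912 649613803 48318383 3 eng mog cd2q1 cd3q2a pd3 true true false .npn 1 2 3
    ndB2q1 ndB3q2a pcB3 Cut.none Ext.none :=
  certB2 (fam := true) (s1 := true) (s2 := false) (a := 1) (b := 2) (c := 3) (cn := .npn) (n1 := ndB2q1) (n2 := ndB3q2a) (pc := pcB3) (cut := Cut.none) (xt := Ext.none) (P1 := 536870912) (W1 := 536870912) (P2 := 0) (W2 := 536870912) (P3 := 649613803) (W3 := 48318383) (N0 := 3) (En := eng) (mo := mog) (C1 := cd2q1) (C2 := cd3q2a) (C3 := pd3)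
    rfl (fun _ => rfl) k0_pm_123_a

noncomputable def f_pm_123_b : ℕ → ℕ → ℕ → ℕ → Bool := onCell 1610612736 536870912 1239849684 370763052 649613803 48318383
    (rowB 3 eng mog cd2q1 cd3q2b pd3 2 true true false .npn 1 2 3 (qsf 536870912 536870912 1239849684 370763052 3) ndB2q1 ndB3q2b pcB3 Cut.none Ext.none)

def k0_pm_123_b : ∃ t, chk3 f_pm_123_b t 1 1 1 = true :=
  ⟨(a (a (l 1) (b (a (l 16999928) (l 16997048)) (l 1))) (a (a (b (b (l 16834096) (l 16734648)) (l 1)) (b (b (a (l 4) (l 4)) (l 4)) (l 4))) (l 4))), by decide +kernel⟩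

theorem c_pm_123_b : CertB 536870912 536870912 1239849684 370763052 649613803 48318383 3 eng mog cd2q1 cd3q2b pd3 true true false .npn 1 2 3
    ndB2q1 ndB3q2b pcB3 Cut.none Ext.none :=
  certB2 (fam := true) (s1 := true) (s2 := false) (a := 1) (b := 2) (c := 3) (cn := .npn) (n1 := ndB2q1) (n2 := ndB3q2b) (pc := pcB3) (cut := Cut.none) (xt := Ext.none) (P1 := 536870912) (W1 := 536870912) (P2 := 1239849684) (W2 := 370763052) (P3 := 649613803) (W3 := 48318383) (N0 := 3) (En := eng) (mo := mog) (C1 := cd2q1) (C2 := cd3q2b) (C3 := pd3)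
    rfl (fun _ => rfl) k0_pm_123_b

noncomputable def f_pm_133 : ℕ → ℕ → ℕ → ℕ → Bool := onCell 536870912 536870912 1610612736 536870912 649613803 48318383
    (rowB 3 eng mog cd2q1 cd3q3 pd3 0 true true false .dn 1 3 3 (qsf 536870912 536870912 1610612736 536870912 3) ndB2q1 ndB3q3 pcB3 Cut.none Ext.none)

def k0_pm_133 : ∃ t, chk3 f_pm_133 t 1 1 1 = true :=
  ⟨(l 4), by decide +kernel⟩

theorem c_pm_133 : CertB 536870912 536870912 1610612736 536870912 649613803 48318383 3 eng mog cd2q1 cd3q3 pd3 true true false .dn 1 3 3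
    ndB2q1 ndB3q3 pcB3 Cut.none Ext.none :=
  certB0 (fam := true) (s1 := true) (s2 := false) (a := 1) (b := 3) (c := 3) (cn := .dn) (n1 := ndB2q1) (n2 := ndB3q3) (pc := pcB3) (cut := Cut.none) (xt := Ext.none) (P1 := 536870912) (W1 := 536870912) (P2 := 1610612736) (W2 := 536870912) (P3 := 649613803) (W3 := 48318383) (N0 := 3) (En := eng) (mo := mog) (C1 := cd2q1) (C2 := cd3q3) (C3 := pd3)
    rfl k0_pm_133

noncomputable def cut_pm_202_a : Cut := Cut.of [[⟨0, 1, 0, 67108864⟩, ⟨1, 0, 0, 67108864⟩, ⟨2, 1, 0, 67108864⟩]]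

noncomputable def f_pm_202_a : ℕ → ℕ → ℕ → ℕ → Bool := onCell 0 536870912 1073741824 536870912 649613803 48318383
    (rowB 3 eng mog cd2q2a cd3q0 pd2 1 true true false .pp 2 0 2 (qsf 0 536870912 0 536870912 2) ndB2q2a ndB3q0 pcB2 cut_pm_202_a Ext.none)

def k0_pm_202_a : ∃ t, chk3 f_pm_202_a t 4 1 1 = true :=
  ⟨(b (b (l 1) (b (b (b (l 1) (a (b (l 1) (a (l 16536104) (l 16496272))) (b (c (l 232498064567) (l 16470648)) (a (l 16457496) (l 16442368))))) (c (b (a (b (a (c (l 16445816) (l 16446688)) (l 16450264)) (a (l 16443224) (l 16468328))) (b (a (l 16456456) (l 16464480)) (a (b (l 16454048) (l 16452880)) (l 16461376)))) (a (a (l 16446256) (l 16449792)) (a (l 16455328) (l 16462704)))) (b (a (b (l 16453384) (l 16448536)) (a (l 16548744) (l 16508656))) (a (l 16450264) (l 16461960))))) (a (b (b (c (l 16417008) (l 16454984)) (l 16458232)) (l 16548536)) (b (b (l 16505072) (l 16466056)) (l 16469624))))) (b (b (b (a (l 16472024) (l 16474680)) (a (l 16483784)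 (l 16484896))) (b (a (l 16497040) (l 16496720)) (l 16511104))) (b (b (l 16525168) (l 16539936)) (b (l 16564104) (l 16588952))))), by decide +kernel⟩

def k1_pm_202_a : ∃ t, chk3 f_pm_202_a t 5 1 1 = true :=
  ⟨(a (b (b (l 1) (b (b (a (b (b (l 1) (l 16482944)) (b (c (l 16471544) (l 16461400)) (l 16471880))) (b (c (l 455836358871) (l 252362303399)) (b (c (l 16483920) (l 16474184)) (l 16483840)))) (c (b (a (l 16530128) (l 16482456)) (l 16455672)) (b (a (l 16474560) (l 16485784)) (l 16479160)))) (b (b (l 16478928) (l 16480296)) (l 16481152)))) (b (b (l 16530288) (b (l 16499936) (l 16509696))) (b (l 16523808) (l 16558296)))) (b (b (b (l 1) (b (l 1) (b (l 1) (b (l 1) (a (l 1) (l 356515326791)))))) (b (b (b (a (b (a (l 16482632) (l 16491136)) (c (l 528850878231) (l 16485552))) (b (c (l 16509840) (l 16498968)) (l 16508896))) (b (a (l 16495208) (l 16512520)) (a (l 16498664) (b (l 16513104) (l 16573248))))) (b (b (l 16501464) (a (l 16491360) (l 16500936))) (l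 16495568))) (b (l 16517080) (l 16495648)))) (b (b (l 16498152) (b (l 16505192) (l 16510912))) (b (l 16524208) (l 16552312))))), by decide +kernel⟩

def k2_pm_202_a : ∃ t, chk3 f_pm_202_a t 3 4 1 = true :=
  ⟨(b (a (l 1) (a (b (l 1) (a (b (l 1) (b (l 1) (a (l 1) (b (l 280279910519) (l 306049708615))))) (b (l 6) (b (l 6) (b (l 6) (a (l 16650816) (l 16667816))))))) (b (l 6) (b (l 6) (b (l 6) (b (l 6) (a (l 16681968) (l 16684680)))))))) (a (a (b (l 1) (b (a (b (l 1) (l 280816544839)) (b (a (l 1) (l 326450617239)) (a (l 361884079815) (l 16545784)))) (a (b (l 323229368871) (a (l 16516064) (l 16527136))) (a (b (l 16535824) (l 16538664)) (b (l 16506376) (l 16550576)))))) (b (b (a (l 1) (b (l 1) (a (l 256657467031) (b (l 304439004823) (l 16599184))))) (a (b (a (l 1) (l 273300440967)) (a (l 296385864887) (l 339872435879))) (b (a (l 304438987351) (l 16599792)) (a (l 16585040) (l 16537528))))) (a (b (b (a (l 16567544) (l 16571480)) (c (l 16507600) (l 16561208)))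 (b (l 16567856) (l 16569160))) (b (a (b (l 16565208) (l 16587064)) (l 16601016)) (l 16587808))))) (a (b (a (a (c (b (b (l 342556900167) (l 16619728)) (l 16619240)) (b (b (l 316250188039) (l 16611616)) (l 16528400))) (b (b (a (l 16629000) (l 16637728)) (c (l 16636008) (l 16608456))) (l 16632024))) (b (a (b (b (l 16629368) (l 16649832)) (l 16649024)) (l 16601120)) (b (l 16646064) (l 16635464)))) (a (b (l 16613600) (l 16594480)) (b (l 16620088) (l 16600640)))) (b (b (a (a (l 16666680) (l 16668760)) (a (l 16670104) (l 16670512))) (a (a (l 16644768) (l 16646744)) (l 16648344))) (a (b (l 16624984) (l 16605344)) (b (l 16627336) (l 16607624))))))), by decide +kernel⟩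

def k3_pm_202_a : ∃ t, chk3 f_pm_202_a t 3 5 1 = true :=
  ⟨(b (a (b (b (a (a (c (l 16530440) (l 16416736)) (l 16547880)) (a (l 16562216) (l 16570528))) (b (a (l 16535776) (l 16555136)) (a (b (l 16530600) (a (l 16521560) (l 16532480))) (b (l 16549648) (a (l 16542096) (l 16549960)))))) (a (b (a (l 16534608) (l 16524192)) (l 16513672)) (b (a (l 16533392) (l 16540872)) (l 16529816)))) (b (b (a (a (l 16576776) (l 16582640)) (a (l 16587192) (l 16588832))) (a (b (l 16567896) (b (l 16562192) (b (l 16559648) (l 16558272)))) (b (a (l 16574528) (l 16575504)) (b (l 16569496) (a (l 16565680) (l 16650248)))))) (b (a (a (l 16546464) (l 16551808)) (a (l 16555312) (l 16556080))) (a (l 16539864) (l 16544752))))) (a (a (b (l 16511904) (l 16509320)) (b (a (l 16520864) (l 16525952)) (l 16518408))) (a (b (l 16530768) (l 16520936)) (b (a (l 16532784) (l 16532240)) (l 16520168))))), by decide +kernel⟩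

def k4_pm_202_a : ∃ t, chk3 f_pm_202_a t 3 3 1 = true :=
  ⟨(b (a (b (a (l 16508768) (b (l 16514776) (l 16512544))) (b (a (l 16511552) (l 16512272)) (l 16516680))) (b (a (b (l 16513696) (l 16508976)) (b (l 16510400) (l 16503720))) (a (b (l 16506456) (l 16504952)) (b (l 16499952) (l 16496224))))) (a (b (a (l 16524720) (l 16517256)) (a (l 16544032) (l 16533056))) (b (a (l 16505072) (l 16534728)) (a (l 16514200) (l 16498760))))), by decide +kernel⟩

theorem s5_pm_202_a : ∃ t, chk3 f_pm_202_a t 3 2 1 = true := ex3_b k2_pm_202_a k3_pm_202_a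

theorem s6_pm_202_a : ∃ t, chk3 f_pm_202_a t 3 1 1 = true := ex3_b s5_pm_202_a k4_pm_202_a

theorem s7_pm_202_a : ∃ t, chk3 f_pm_202_a t 2 1 1 = true := ex3_a k0_pm_202_a k1_pm_202_a

theorem s8_pm_202_a : ∃ t, chk3 f_pm_202_a t 1 1 1 = true := ex3_a s7_pm_202_a s6_pm_202_a

theorem c_pm_202_a : CertB 0 536870912 0 536870912 649613803 48318383 3 eng mog cd2q2a cd3q0 pd2 true true false .pp 2 0 2
    ndB2q2a ndB3q0 pcB2 cut_pm_202_a Ext.none :=
  certB1 (fam := true) (s1 := true) (s2 := false) (a := 2) (b := 0) (c := 2) (cn := .pp) (n1 := ndB2q2a) (n2 := ndB3q0) (pc := pcB2) (cut := cut_pm_202_a) (xt := Ext.none) (P1 := 0) (W1 := 536870912) (P2 := 0) (W2 := 536870912) (P3 := 649613803) (W3 := 48318383) (N0 := 3) (En := eng) (mo := mog) (C1 := cd2q2a) (C2 := cd3q0) (C3 := pd2)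
    rfl (fun _ => rfl) s8_pm_202_a

noncomputable def cut_pm_202_b : Cut := Cut.of [[⟨0, 1, 0, 67108864⟩, ⟨1, 0, 0, 67108864⟩, ⟨2, 1, 0, 67108864⟩]]

noncomputable def f_pm_202_b : ℕ → ℕ → ℕ → ℕ → Bool := onCell 1073741824 536870912 0 536870912 649613803 48318383
    (rowB 3 eng mog cd2q2b cd3q0 pd2 2 true true false .pp 2 0 2 (qsf 1239849684 370763052 0 536870912 2) ndB2q2b ndB3q0 pcB2 cut_pm_202_b Ext.none)

def k0_pm_202_b : ∃ t, chk3 f_pm_202_b t 1 1 1 = true :=
  ⟨(a (b (a (l 1) (b (a (b (a (a (l 1) (b (b (c (l 339872262503) (l 16537152)) (l 1)) (l 1))) (b (a (c (b (a (l 240550993319) (a (l 16436104) (l 16428080))) (a (l 1) (l 219076307815))) (b (l 82711111671) (l 360810190215))) (b (a (c (l 16314368) (l 16423096)) (l 16408616)) (c (a (l 16447568) (l 16331992)) (l 213707249031)))) (a (l 1) (c (l 463352560951) (l 594349059895))))) (l 1)) (a (b (b (a (b (l 16382280) (l 16419704)) (b (l 16346320) (l 16385880))) (a (c (b (l 376379355703) (l 453152020871))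 (l 238403274711)) (b (l 16424328) (l 174516071655)))) (b (a (l 1) (l 557841865319)) (l 1))) (b (b (b (l 16298192) (l 16336904)) (b (l 16374824) (l 16411592))) (b (b (l 16572384) (l 338261817223)) (l 455836436935))))) (l 1))) (l 1)) (a (b (b (a (b (b (a (l 16263320) (l 16220384)) (a (b (l 16318608) (l 16354640)) (l 16291000))) (a (b (l 16406680) (l 135861606775)) (b (l 16359272) (l 16423384)))) (a (b (b (l 16188232) (l 16255304)) (b (l 16321104) (l 16383944))) (b (l 16241312) (l 16323584)))) (a (b (a (b (l 400002004391) (l 1)) (b (l 16608960) (l 394633294775))) (l 1)) (b (a (a (l 153578442407) (l 16569944)) (l 16443560)) (a (b (l 420403042599) (l 1)) (b (l 229814080343) (l 452078459255)))))) (l 1)) (b (a (b (b (b (l 16156992) (l 16211632)) (l 16295672)) (b (l 16410392) (a (b (l 16495768) (l 16591992)) (l 16502136)))) (b (b (l 16194456) (l 16285360)) (b (l 16387648) (a (l 16490968) (l 16483720))))) (b (a (b (a (l 501470668791) (l 328598364103)) (l 1))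 (b (a (l 185790813479) (l 16558512)) (a (l 576095805911) (l 381748440967)))) (l 1))))), by decide +kernel⟩

theorem c_pm_202_b : CertB 1239849684 370763052 0 536870912 649613803 48318383 3 eng mog cd2q2b cd3q0 pd2 true true false .pp 2 0 2
    ndB2q2b ndB3q0 pcB2 cut_pm_202_b Ext.none :=
  certB2 (fam := true) (s1 := true) (s2 := false) (a := 2) (b := 0) (c := 2) (cn := .pp) (n1 := ndB2q2b) (n2 := ndB3q0) (pc := pcB2) (cut := cut_pm_202_b) (xt := Ext.none) (P1 := 1239849684) (W1 := 370763052) (P2 := 0) (W2 := 536870912) (P3 := 649613803) (W3 := 48318383) (N0 := 3) (En := eng) (mo := mog) (C1 := cd2q2b) (C2 := cd3q0) (C3 := pd2)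
    rfl (fun _ => rfl) k0_pm_202_b

noncomputable def f_pm_203_a : ℕ → ℕ → ℕ → ℕ → Bool := onCell 0 536870912 1610612736 536870912 649613803 48318383
    (rowB 3 eng mog cd2q2a cd3q0 pd3 1 true true false .up 2 0 3 (qsf 0 536870912 0 536870912 3) ndB2q2a ndB3q0 pcB3 Cut.none Ext.none)

def k0_pm_203_a : ∃ t, chk3 f_pm_203_a t 1 1 1 = true :=
  ⟨(b (a (b (b (a (b (l 16633264) (l 16677936)) (l 16638792)) (a (b (l 16715016) (l 16745760)) (l 16715408))) (b (a (l 16778512) (l 16778984)) (l 2))) (a (b (b (l 16617752) (l 16706520)) (l 2)) (b (b (l 16612024) (l 16730864)) (l 2)))) (l 2)), by decide +kernel⟩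

theorem c_pm_203_a : CertB 0 536870912 0 536870912 649613803 48318383 3 eng mog cd2q2a cd3q0 pd3 true true false .up 2 0 3
    ndB2q2a ndB3q0 pcB3 Cut.none Ext.none :=
  certB1 (fam := true) (s1 := true) (s2 := false) (a := 2) (b := 0) (c := 3) (cn := .up) (n1 := ndB2q2a) (n2 := ndB3q0) (pc := pcB3) (cut := Cut.none) (xt := Ext.none) (P1 := 0) (W1 := 536870912) (P2 := 0) (W2 := 536870912) (P3 := 649613803) (W3 := 48318383) (N0 := 3) (En := eng) (mo := mog) (C1 := cd2q2a) (C2 := cd3q0) (C3 := pd3)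
    rfl (fun _ => rfl) k0_pm_203_a

noncomputable def f_pm_203_b : ℕ → ℕ → ℕ → ℕ → Bool := onCell 1239849684 370763052 1610612736 536870912 649613803 48318383
    (rowB 3 eng mog cd2q2b cd3q0 pd3 1 true true false .up 2 0 3 (qsf 1239849684 370763052 0 536870912 3) ndB2q2b ndB3q0 pcB3 Cut.none Ext.none)

def k0_pm_203_b : ∃ t, chk3 f_pm_203_b t 1 1 1 = true :=
  ⟨(b (b (a (b (a (b (l 16572704) (l 16608376)) (l 16655744)) (a (b (l 16663088) (l 16707704)) (l 16574800))) (b (a (b (l 16361992) (l 16401216)) (b (l 16231320) (l 16270152))) (a (l 16469560) (l 16341728)))) (a (l 4) (b (a (l 16570872) (l 16462256)) (l 4)))) (l 4)), by decide +kernel⟩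

theorem c_pm_203_b : CertB 1239849684 370763052 0 536870912 649613803 48318383 3 eng mog cd2q2b cd3q0 pd3 true true false .up 2 0 3
    ndB2q2b ndB3q0 pcB3 Cut.none Ext.none :=
  certB1 (fam := true) (s1 := true) (s2 := false) (a := 2) (b := 0) (c := 3) (cn := .up) (n1 := ndB2q2b) (n2 := ndB3q0) (pc := pcB3) (cut := Cut.none) (xt := Ext.none) (P1 := 1239849684) (W1 := 370763052) (P2 := 0) (W2 := 536870912) (P3 := 649613803) (W3 := 48318383) (N0 := 3) (En := eng) (mo := mog) (C1 := cd2q2b) (C2 := cd3q0) (C3 := pd3)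
    rfl (fun _ => rfl) k0_pm_203_b

noncomputable def f_pm_213_a : ℕ → ℕ → ℕ → ℕ → Bool := onCell 0 536870912 1610612736 536870912 649613803 48318383
    (rowB 3 eng mog cd2q2a cd3q1 pd3 1 true true false .pnn 2 1 3 (qsf 0 536870912 536870912 536870912 3) ndB2q2a ndB3q1 pcB3 Cut.none Ext.none)

def k0_pm_213_a : ∃ t, chk3 f_pm_213_a t 1 1 1 = true :=
  ⟨(a (b (b (b (l 1) (b (l 1) (l 446710629511))) (b (a (l 16711680) (l 16770384)) (a (l 4) (l 16722744)))) (b (b (l 117273024679) (l 4)) (l 4))) (a (b (b (b (l 1) (l 16784688)) (b (l 16889496) (l 16817232))) (b (b (l 16757784) (l 84523827095)) (l 4))) (b (b (b (l 16715248) (l 16870480)) (b (b (l 17035944) (l 17017680)) (l 16945800))) (b (b (b (l 16889368) (l 16747640)) (b (a (l 16802528) (l 16844368)) (l 16638608))) (b (b (a (l 4) (l 16776552)) (l 4)) (l 4)))))), by decide +kernel⟩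

theorem c_pm_213_a : CertB 0 536870912 536870912 536870912 649613803 48318383 3 eng mog cd2q2a cd3q1 pd3 true true false .pnn 2 1 3
    ndB2q2a ndB3q1 pcB3 Cut.none Ext.none :=
  certB1 (fam := true) (s1 := true) (s2 := false) (a := 2) (b := 1) (c := 3) (cn := .pnn) (n1 := ndB2q2a) (n2 := ndB3q1) (pc := pcB3) (cut := Cut.none) (xt := Ext.none) (P1 := 0) (W1 := 536870912) (P2 := 536870912) (W2 := 536870912) (P3 := 649613803) (W3 := 48318383) (N0 := 3) (En := eng) (mo := mog) (C1 := cd2q2a) (C2 := cd3q1) (C3 := pd3)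
    rfl (fun _ => rfl) k0_pm_213_a

noncomputable def f_pm_213_b : ℕ → ℕ → ℕ → ℕ → Bool := onCell 1239849684 370763052 536870912 536870912 649613803 48318383
    (rowB 3 eng mog cd2q2b cd3q1 pd3 0 true true false .pnn 2 1 3 (qsf 1239849684 370763052 536870912 536870912 3) ndB2q2b ndB3q1 pcB3 Cut.none Ext.none)

def k0_pm_213_b : ∃ t, chk3 f_pm_213_b t 1 1 1 = true :=
  ⟨(b (l 4) (l 4)), by decide +kernel⟩

theorem c_pm_213_b : CertB 1239849684 370763052 536870912 536870912 649613803 48318383 3 eng mog cd2q2b cd3q1 pd3 true true false .pnn 2 1 3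
    ndB2q2b ndB3q1 pcB3 Cut.none Ext.none :=
  certB0 (fam := true) (s1 := true) (s2 := false) (a := 2) (b := 1) (c := 3) (cn := .pnn) (n1 := ndB2q2b) (n2 := ndB3q1) (pc := pcB3) (cut := Cut.none) (xt := Ext.none) (P1 := 1239849684) (W1 := 370763052) (P2 := 536870912) (W2 := 536870912) (P3 := 649613803) (W3 := 48318383) (N0 := 3) (En := eng) (mo := mog) (C1 := cd2q2b) (C2 := cd3q1) (C3 := pd3)
    rfl k0_pm_213_b

noncomputable def f_pm_303 : ℕ → ℕ → ℕ → ℕ → Bool := onCell 1610612736 536870912 0 536870912 649613803 48318383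
    (rowB 3 eng mog cd2q3 cd3q0 pd3 2 true true false .npn 3 0 3 (qsf 1610612736 536870912 0 536870912 3) ndB2q3 ndB3q0 pcB3 Cut.none Ext.none)

def k0_pm_303 : ∃ t, chk3 f_pm_303 t 1 1 1 = true :=
  ⟨(a (a (b (a (b (b (l 16140944) (l 16246608)) (l 1)) (b (b (l 16114136) (l 16219056)) (l 16389832))) (l 1)) (b (a (b (a (l 16170640) (l 16218968)) (l 16395512)) (b (l 16288496) (l 4))) (a (l 1) (l 4)))) (l 4)), by decide +kernel⟩

theorem c_pm_303 : CertB 1610612736 536870912 0 536870912 649613803 48318383 3 eng mog cd2q3 cd3q0 pd3 true true false .npn 3 0 3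
    ndB2q3 ndB3q0 pcB3 Cut.none Ext.none :=
  certB2 (fam := true) (s1 := true) (s2 := false) (a := 3) (b := 0) (c := 3) (cn := .npn) (n1 := ndB2q3) (n2 := ndB3q0) (pc := pcB3) (cut := Cut.none) (xt := Ext.none) (P1 := 1610612736) (W1 := 536870912) (P2 := 0) (W2 := 536870912) (P3 := 649613803) (W3 := 48318383) (N0 := 3) (En := eng) (mo := mog) (C1 := cd2q3) (C2 := cd3q0) (C3 := pd3)
    rfl (fun _ => rfl) k0_pm_303

noncomputable def f_pm_313 : ℕ → ℕ → ℕ → ℕ → Bool := onCell 1610612736 536870912 536870912 536870912 649613803 48318383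
    (rowB 3 eng mog cd2q3 cd3q1 pd3 0 true true false .dn 3 1 3 (qsf 1610612736 536870912 536870912 536870912 3) ndB2q3 ndB3q1 pcB3 Cut.none Ext.none)

def k0_pm_313 : ∃ t, chk3 f_pm_313 t 1 1 1 = true :=
  ⟨(l 4), by decide +kernel⟩

theorem c_pm_313 : CertB 1610612736 536870912 536870912 536870912 649613803 48318383 3 eng mog cd2q3 cd3q1 pd3 true true false .dn 3 1 3
    ndB2q3 ndB3q1 pcB3 Cut.none Ext.none :=
  certB0 (fam := true) (s1 := true) (s2 := false) (a := 3) (b := 1) (c := 3) (cn := .dn) (n1 := ndB2q3) (n2 := ndB3q1) (pc := pcB3) (cut := Cut.none) (xt := Ext.none) (P1 := 1610612736) (W1 := 536870912) (P2 := 536870912) (W2 := 536870912) (P3 := 649613803) (W3 := 48318383) (N0 := 3) (En := eng) (mo := mog) (C1 := cd2q3) (C2 := cd3q1) (C3 := pd3)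
    rfl k0_pm_313

noncomputable def f_mm_001 : ℕ → ℕ → ℕ → ℕ → Bool := onCell 0 536870912 0 536870912 649613803 48318383
    (rowB 3 eng mog cd2q0 cd3q0 pd1 0 true false false .up 0 0 1 (qsf 0 536870912 0 536870912 1) ndB2q0 ndB3q0 pcB1 Cut.none Ext.none)

def k0_mm_001 : ∃ t, chk3 f_mm_001 t 1 1 1 = true :=
  ⟨(l 4), by decide +kernel⟩

theorem c_mm_001 : CertB 0 536870912 0 536870912 649613803 48318383 3 eng mog cd2q0 cd3q0 pd1 true false false .up 0 0 1
    ndB2q0 ndB3q0 pcB1 Cut.none Ext.none :=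
  certB0 (fam := true) (s1 := false) (s2 := false) (a := 0) (b := 0) (c := 1) (cn := .up) (n1 := ndB2q0) (n2 := ndB3q0) (pc := pcB1) (cut := Cut.none) (xt := Ext.none) (P1 := 0) (W1 := 536870912) (P2 := 0) (W2 := 536870912) (P3 := 649613803) (W3 := 48318383) (N0 := 3) (En := eng) (mo := mog) (C1 := cd2q0) (C2 := cd3q0) (C3 := pd1)
    rfl k0_mm_001

noncomputable def f_mm_011 : ℕ → ℕ → ℕ → ℕ → Bool := onCell 0 536870912 536870912 536870912 649613803 48318383
    (rowB 3 eng mog cd2q0 cd3q1 pd1 0 true false false .pnn 0 1 1 (qsf 0 536870912 536870912 536870912 1) ndB2q0 ndB3q1 pcB1 Cut.none Ext.none)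

def k0_mm_011 : ∃ t, chk3 f_mm_011 t 1 1 1 = true :=
  ⟨(l 4), by decide +kernel⟩

theorem c_mm_011 : CertB 0 536870912 536870912 536870912 649613803 48318383 3 eng mog cd2q0 cd3q1 pd1 true false false .pnn 0 1 1
    ndB2q0 ndB3q1 pcB1 Cut.none Ext.none :=
  certB0 (fam := true) (s1 := false) (s2 := false) (a := 0) (b := 1) (c := 1) (cn := .pnn) (n1 := ndB2q0) (n2 := ndB3q1) (pc := pcB1) (cut := Cut.none) (xt := Ext.none) (P1 := 0) (W1 := 536870912) (P2 := 536870912) (W2 := 536870912) (P3 := 649613803) (W3 := 48318383) (N0 := 3) (En := eng) (mo := mog) (C1 := cd2q0) (C2 := cd3q1) (C3 := pd1)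
    rfl k0_mm_011

noncomputable def f_mm_012 : ℕ → ℕ → ℕ → ℕ → Bool := onCell 0 536870912 536870912 536870912 649613803 48318383
    (rowB 3 eng mog cd2q0 cd3q1 pd2 0 true false false .pnp 0 1 2 (qsf 0 536870912 536870912 536870912 2) ndB2q0 ndB3q1 pcB2 Cut.none Ext.none)

def k0_mm_012 : ∃ t, chk3 f_mm_012 t 1 1 1 = true :=
  ⟨(l 4), by decide +kernel⟩

theorem c_mm_012 : CertB 0 536870912 536870912 536870912 649613803 48318383 3 eng mog cd2q0 cd3q1 pd2 true false false .pnp 0 1 2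
    ndB2q0 ndB3q1 pcB2 Cut.none Ext.none :=
  certB0 (fam := true) (s1 := false) (s2 := false) (a := 0) (b := 1) (c := 2) (cn := .pnp) (n1 := ndB2q0) (n2 := ndB3q1) (pc := pcB2) (cut := Cut.none) (xt := Ext.none) (P1 := 0) (W1 := 536870912) (P2 := 536870912) (W2 := 536870912) (P3 := 649613803) (W3 := 48318383) (N0 := 3) (En := eng) (mo := mog) (C1 := cd2q0) (C2 := cd3q1) (C3 := pd2)
    rfl k0_mm_012

noncomputable def f_mm_022_a : ℕ → ℕ → ℕ → ℕ → Bool := onCell 0 536870912 0 536870912 649613803 48318383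
    (rowB 3 eng mog cd2q0 cd3q2a pd2 0 true false false .pp 0 2 2 (qsf 0 536870912 0 536870912 2) ndB2q0 ndB3q2a pcB2 Cut.none Ext.none)

def k0_mm_022_a : ∃ t, chk3 f_mm_022_a t 1 1 1 = true :=
  ⟨(l 5), by decide +kernel⟩

theorem c_mm_022_a : CertB 0 536870912 0 536870912 649613803 48318383 3 eng mog cd2q0 cd3q2a pd2 true false false .pp 0 2 2
    ndB2q0 ndB3q2a pcB2 Cut.none Ext.none :=
  certB0 (fam := true) (s1 := false) (s2 := false) (a := 0) (b := 2) (c := 2) (cn := .pp) (n1 := ndB2q0) (n2 := ndB3q2a) (pc := pcB2) (cut := Cut.none) (xt := Ext.none) (P1 := 0) (W1 := 536870912) (P2 := 0) (W2 := 536870912) (P3 := 649613803) (W3 := 48318383) (N0 := 3) (En := eng) (mo := mog) (C1 := cd2q0) (C2 := cd3q2a) (C3 := pd2)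
    rfl k0_mm_022_a

noncomputable def f_mm_022_b : ℕ → ℕ → ℕ → ℕ → Bool := onCell 0 536870912 1239849684 370763052 649613803 48318383
    (rowB 3 eng mog cd2q0 cd3q2b pd2 0 true false false .pp 0 2 2 (qsf 0 536870912 1239849684 370763052 2) ndB2q0 ndB3q2b pcB2 Cut.none Ext.none)

def k0_mm_022_b : ∃ t, chk3 f_mm_022_b t 1 1 1 = true :=
  ⟨(l 5), by decide +kernel⟩

theorem c_mm_022_b : CertB 0 536870912 1239849684 370763052 649613803 48318383 3 eng mog cd2q0 cd3q2b pd2 true false false .pp 0 2 2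
    ndB2q0 ndB3q2b pcB2 Cut.none Ext.none :=
  certB0 (fam := true) (s1 := false) (s2 := false) (a := 0) (b := 2) (c := 2) (cn := .pp) (n1 := ndB2q0) (n2 := ndB3q2b) (pc := pcB2) (cut := Cut.none) (xt := Ext.none) (P1 := 0) (W1 := 536870912) (P2 := 1239849684) (W2 := 370763052) (P3 := 649613803) (W3 := 48318383) (N0 := 3) (En := eng) (mo := mog) (C1 := cd2q0) (C2 := cd3q2b) (C3 := pd2)
    rfl k0_mm_022_b

noncomputable def f_mm_023_a : ℕ → ℕ → ℕ → ℕ → Bool := onCell 0 536870912 0 536870912 649613803 48318383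
    (rowB 3 eng mog cd2q0 cd3q2a pd3 0 true false false .up 0 2 3 (qsf 0 536870912 0 536870912 3) ndB2q0 ndB3q2a pcB3 Cut.none Ext.none)

def k0_mm_023_a : ∃ t, chk3 f_mm_023_a t 1 1 1 = true :=
  ⟨(l 5), by decide +kernel⟩

theorem c_mm_023_a : CertB 0 536870912 0 536870912 649613803 48318383 3 eng mog cd2q0 cd3q2a pd3 true false false .up 0 2 3
    ndB2q0 ndB3q2a pcB3 Cut.none Ext.none :=
  certB0 (fam := true) (s1 := false) (s2 := false) (a := 0) (b := 2) (c := 3) (cn := .up) (n1 := ndB2q0) (n2 := ndB3q2a) (pc := pcB3) (cut := Cut.none) (xt := Ext.none) (P1 := 0) (W1 := 536870912) (P2 := 0) (W2 := 536870912) (P3 := 649613803) (W3 := 48318383) (N0 := 3) (En := eng) (mo := mog) (C1 := cd2q0) (C2 := cd3q2a) (C3 := pd3)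
    rfl k0_mm_023_a

noncomputable def f_mm_023_b : ℕ → ℕ → ℕ → ℕ → Bool := onCell 0 536870912 1239849684 370763052 649613803 48318383
    (rowB 3 eng mog cd2q0 cd3q2b pd3 0 true false false .up 0 2 3 (qsf 0 536870912 1239849684 370763052 3) ndB2q0 ndB3q2b pcB3 Cut.none Ext.none)

def k0_mm_023_b : ∃ t, chk3 f_mm_023_b t 1 1 1 = true :=
  ⟨(l 5), by decide +kernel⟩

theorem c_mm_023_b : CertB 0 536870912 1239849684 370763052 649613803 48318383 3 eng mog cd2q0 cd3q2b pd3 true false false .up 0 2 3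
    ndB2q0 ndB3q2b pcB3 Cut.none Ext.none :=
  certB0 (fam := true) (s1 := false) (s2 := false) (a := 0) (b := 2) (c := 3) (cn := .up) (n1 := ndB2q0) (n2 := ndB3q2b) (pc := pcB3) (cut := Cut.none) (xt := Ext.none) (P1 := 0) (W1 := 536870912) (P2 := 1239849684) (W2 := 370763052) (P3 := 649613803) (W3 := 48318383) (N0 := 3) (En := eng) (mo := mog) (C1 := cd2q0) (C2 := cd3q2b) (C3 := pd3)
    rfl k0_mm_023_b

noncomputable def f_mm_033 : ℕ → ℕ → ℕ → ℕ → Bool := onCell 0 536870912 1610612736 536870912 649613803 48318383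
    (rowB 3 eng mog cd2q0 cd3q3 pd3 0 true false false .pnn 0 3 3 (qsf 0 536870912 1610612736 536870912 3) ndB2q0 ndB3q3 pcB3 Cut.none Ext.none)

def k0_mm_033 : ∃ t, chk3 f_mm_033 t 1 1 1 = true :=
  ⟨(l 5), by decide +kernel⟩

theorem c_mm_033 : CertB 0 536870912 1610612736 536870912 649613803 48318383 3 eng mog cd2q0 cd3q3 pd3 true false false .pnn 0 3 3
    ndB2q0 ndB3q3 pcB3 Cut.none Ext.none :=
  certB0 (fam := true) (s1 := false) (s2 := false) (a := 0) (b := 3) (c := 3) (cn := .pnn) (n1 := ndB2q0) (n2 := ndB3q3) (pc := pcB3) (cut := Cut.none) (xt := Ext.none) (P1 := 0) (W1 := 536870912) (P2 := 1610612736) (W2 := 536870912) (P3 := 649613803) (W3 := 48318383) (N0 := 3) (En := eng) (mo := mog) (C1 := cd2q0) (C2 := cd3q3) (C3 := pd3)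
    rfl k0_mm_033

noncomputable def f_mm_101 : ℕ → ℕ → ℕ → ℕ → Bool := onCell 536870912 536870912 0 536870912 649613803 48318383
    (rowB 3 eng mog cd2q1 cd3q0 pd1 0 true false false .npn 1 0 1 (qsf 536870912 536870912 0 536870912 1) ndB2q1 ndB3q0 pcB1 Cut.none Ext.none)

def k0_mm_101 : ∃ t, chk3 f_mm_101 t 1 1 1 = true :=
  ⟨(l 4), by decide +kernel⟩

theorem c_mm_101 : CertB 536870912 536870912 0 536870912 649613803 48318383 3 eng mog cd2q1 cd3q0 pd1 true false false .npn 1 0 1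
    ndB2q1 ndB3q0 pcB1 Cut.none Ext.none :=
  certB0 (fam := true) (s1 := false) (s2 := false) (a := 1) (b := 0) (c := 1) (cn := .npn) (n1 := ndB2q1) (n2 := ndB3q0) (pc := pcB1) (cut := Cut.none) (xt := Ext.none) (P1 := 536870912) (W1 := 536870912) (P2 := 0) (W2 := 536870912) (P3 := 649613803) (W3 := 48318383) (N0 := 3) (En := eng) (mo := mog) (C1 := cd2q1) (C2 := cd3q0) (C3 := pd1)
    rfl k0_mm_101

noncomputable def f_mm_102 : ℕ → ℕ → ℕ → ℕ → Bool := onCell 536870912 536870912 0 536870912 649613803 48318383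
    (rowB 3 eng mog cd2q1 cd3q0 pd2 0 true false false .npp 1 0 2 (qsf 536870912 536870912 0 536870912 2) ndB2q1 ndB3q0 pcB2 Cut.none Ext.none)

def k0_mm_102 : ∃ t, chk3 f_mm_102 t 1 1 1 = true :=
  ⟨(l 4), by decide +kernel⟩

theorem c_mm_102 : CertB 536870912 536870912 0 536870912 649613803 48318383 3 eng mog cd2q1 cd3q0 pd2 true false false .npp 1 0 2
    ndB2q1 ndB3q0 pcB2 Cut.none Ext.none :=
  certB0 (fam := true) (s1 := false) (s2 := false) (a := 1) (b := 0) (c := 2) (cn := .npp) (n1 := ndB2q1) (n2 := ndB3q0) (pc := pcB2) (cut := Cut.none) (xt := Ext.none) (P1 := 536870912) (W1 := 536870912) (P2 := 0) (W2 := 536870912) (P3 := 649613803) (W3 := 48318383) (N0 := 3) (En := eng) (mo := mog) (C1 := cd2q1) (C2 := cd3q0) (C3 := pd2)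
    rfl k0_mm_102

noncomputable def f_mm_112 : ℕ → ℕ → ℕ → ℕ → Bool := onCell 536870912 536870912 536870912 536870912 649613803 48318383
    (rowB 3 eng mog cd2q1 cd3q1 pd2 0 true false false .dn 1 1 2 (qsf 536870912 536870912 536870912 536870912 2) ndB2q1 ndB3q1 pcB2 Cut.none Ext.none)

def k0_mm_112 : ∃ t, chk3 f_mm_112 t 1 1 1 = true :=
  ⟨(l 4), by decide +kernel⟩

theorem c_mm_112 : CertB 536870912 536870912 536870912 536870912 649613803 48318383 3 eng mog cd2q1 cd3q1 pd2 true false false .dn 1 1 2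
    ndB2q1 ndB3q1 pcB2 Cut.none Ext.none :=
  certB0 (fam := true) (s1 := false) (s2 := false) (a := 1) (b := 1) (c := 2) (cn := .dn) (n1 := ndB2q1) (n2 := ndB3q1) (pc := pcB2) (cut := Cut.none) (xt := Ext.none) (P1 := 536870912) (W1 := 536870912) (P2 := 536870912) (W2 := 536870912) (P3 := 649613803) (W3 := 48318383) (N0 := 3) (En := eng) (mo := mog) (C1 := cd2q1) (C2 := cd3q1) (C3 := pd2)
    rfl k0_mm_112

noncomputable def f_mm_113 : ℕ → ℕ → ℕ → ℕ → Bool := onCell 536870912 536870912 536870912 536870912 649613803 48318383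
    (rowB 3 eng mog cd2q1 cd3q1 pd3 0 true false false .nn 1 1 3 (qsf 536870912 536870912 536870912 536870912 3) ndB2q1 ndB3q1 pcB3 Cut.none Ext.none)

def k0_mm_113 : ∃ t, chk3 f_mm_113 t 1 1 1 = true :=
  ⟨(l 4), by decide +kernel⟩

theorem c_mm_113 : CertB 536870912 536870912 536870912 536870912 649613803 48318383 3 eng mog cd2q1 cd3q1 pd3 true false false .nn 1 1 3
    ndB2q1 ndB3q1 pcB3 Cut.none Ext.none :=
  certB0 (fam := true) (s1 := false) (s2 := false) (a := 1) (b := 1) (c := 3) (cn := .nn) (n1 := ndB2q1) (n2 := ndB3q1) (pc := pcB3) (cut := Cut.none) (xt := Ext.none) (P1 := 536870912) (W1 := 536870912) (P2 := 536870912) (W2 := 536870912) (P3 := 649613803) (W3 := 48318383) (N0 := 3) (En := eng) (mo := mog) (C1 := cd2q1) (C2 := cd3q1) (C3 := pd3)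
    rfl k0_mm_113

noncomputable def f_mm_123_a : ℕ → ℕ → ℕ → ℕ → Bool := onCell 536870912 536870912 0 536870912 649613803 48318383
    (rowB 3 eng mog cd2q1 cd3q2a pd3 0 true false false .npn 1 2 3 (qsf 536870912 536870912 0 536870912 3) ndB2q1 ndB3q2a pcB3 Cut.none Ext.none)

def k0_mm_123_a : ∃ t, chk3 f_mm_123_a t 1 1 1 = true :=
  ⟨(l 4), by decide +kernel⟩

theorem c_mm_123_a : CertB 536870912 536870912 0 536870912 649613803 48318383 3 eng mog cd2q1 cd3q2a pd3 true false false .npn 1 2 3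
    ndB2q1 ndB3q2a pcB3 Cut.none Ext.none :=
  certB0 (fam := true) (s1 := false) (s2 := false) (a := 1) (b := 2) (c := 3) (cn := .npn) (n1 := ndB2q1) (n2 := ndB3q2a) (pc := pcB3) (cut := Cut.none) (xt := Ext.none) (P1 := 536870912) (W1 := 536870912) (P2 := 0) (W2 := 536870912) (P3 := 649613803) (W3 := 48318383) (N0 := 3) (En := eng) (mo := mog) (C1 := cd2q1) (C2 := cd3q2a) (C3 := pd3)
    rfl k0_mm_123_a

noncomputable def f_mm_123_b : ℕ → ℕ → ℕ → ℕ → Bool := onCell 536870912 536870912 1239849684 370763052 649613803 48318383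
    (rowB 3 eng mog cd2q1 cd3q2b pd3 0 true false false .npn 1 2 3 (qsf 536870912 536870912 1239849684 370763052 3) ndB2q1 ndB3q2b pcB3 Cut.none Ext.none)

def k0_mm_123_b : ∃ t, chk3 f_mm_123_b t 1 1 1 = true :=
  ⟨(l 4), by decide +kernel⟩

theorem c_mm_123_b : CertB 536870912 536870912 1239849684 370763052 649613803 48318383 3 eng mog cd2q1 cd3q2b pd3 true false false .npn 1 2 3
    ndB2q1 ndB3q2b pcB3 Cut.none Ext.none :=
  certB0 (fam := true) (s1 := false) (s2 := false) (a := 1) (b := 2) (c := 3) (cn := .npn) (n1 := ndB2q1) (n2 := ndB3q2b) (pc := pcB3) (cut := Cut.none) (xt := Ext.none) (P1 := 536870912) (W1 := 536870912) (P2 := 1239849684) (W2 := 370763052) (P3 := 649613803) (W3 := 48318383) (N0 := 3) (En := eng) (mo := mog) (C1 := cd2q1) (C2 := cd3q2b) (C3 := pd3)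
    rfl k0_mm_123_b

noncomputable def f_mm_133 : ℕ → ℕ → ℕ → ℕ → Bool := onCell 536870912 536870912 1610612736 536870912 649613803 48318383
    (rowB 3 eng mog cd2q1 cd3q3 pd3 0 true false false .dn 1 3 3 (qsf 536870912 536870912 1610612736 536870912 3) ndB2q1 ndB3q3 pcB3 Cut.none Ext.none)

def k0_mm_133 : ∃ t, chk3 f_mm_133 t 1 1 1 = true :=
  ⟨(l 4), by decide +kernel⟩

theorem c_mm_133 : CertB 536870912 536870912 1610612736 536870912 649613803 48318383 3 eng mog cd2q1 cd3q3 pd3 true false false .dn 1 3 3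
    ndB2q1 ndB3q3 pcB3 Cut.none Ext.none :=
  certB0 (fam := true) (s1 := false) (s2 := false) (a := 1) (b := 3) (c := 3) (cn := .dn) (n1 := ndB2q1) (n2 := ndB3q3) (pc := pcB3) (cut := Cut.none) (xt := Ext.none) (P1 := 536870912) (W1 := 536870912) (P2 := 1610612736) (W2 := 536870912) (P3 := 649613803) (W3 := 48318383) (N0 := 3) (En := eng) (mo := mog) (C1 := cd2q1) (C2 := cd3q3) (C3 := pd3)
    rfl k0_mm_133

noncomputable def cut_mm_202_a : Cut := Cut.of [[⟨0, 1, 0, 67108864⟩, ⟨1, 0, 0, 67108864⟩, ⟨2, 1, 0, 67108864⟩]]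

noncomputable def f_mm_202_a : ℕ → ℕ → ℕ → ℕ → Bool := onCell 0 536870912 0 536870912 649613803 48318383
    (rowB 3 eng mog cd2q2a cd3q0 pd2 0 true false false .pp 2 0 2 (qsf 0 536870912 0 536870912 2) ndB2q2a ndB3q0 pcB2 cut_mm_202_a Ext.none)

def k0_mm_202_a : ∃ t, chk3 f_mm_202_a t 2 2 1 = true :=
  ⟨(b (b (a (b (a (b (b (l 16444592) (a (l 16444384) (l 16447408))) (a (l 16451552) (l 16496312))) (b (a (b (l 16450624) (l 16452664)) (l 16458816)) (a (l 16459056) (l 16528768)))) (a (b (l 16464976) (l 16476232)) (b (l 16474608) (l 16486656)))) (b (a (b (a (b (l 16467128) (l 16469712)) (b (l 16480040) (l 16482856))) (b (a (l 16472856) (l 16486232)) (a (l 16477200) (l 16490176)))) (b (a (b (a (l 16491752) (l 16500608)) (l 16499232)) (b (a (l 16510224) (l 16520536)) (l 16539584))) (a (b (l 16502816) (l 16506920)) (b (l 16522368) (l 16526656))))) (a (b (a (l 16486536) (l 16519688)) (l 16505536)) (b (a (b (l 16511616) (l 16517440)) (b (l 16531424) (l 16536736)))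 (a (l 16527448) (l 16588264)))))) (a (b (a (l 16492432) (l 16504336)) (l 16521632)) (b (a (b (l 16518232) (l 16530936)) (b (l 16550440) (l 16563976))) (a (l 16550336) (a (l 16574608) (l 16700144)))))) (b (a (b (l 16548408) (a (l 16569352) (l 16586936))) (b (a (l 16579792) (l 16616640)) (a (l 16612072) (l 4)))) (a (b (a (l 16599456) (l 16617832)) (a (l 16629048) (l 4))) (l 4)))), by decide +kernel⟩

def k1_mm_202_a : ∃ t, chk3 f_mm_202_a t 3 2 1 = true :=
  ⟨(b (a (b (b (a (b (a (b (l 16537512) (l 16540840)) (b (l 16562568) (l 16565984))) (a (l 16546888) (l 16572176))) (b (a (b (l 16589952) (l 16594048)) (b (a (l 16608120) (l 16621384)) (l 16624960))) (a (l 16600320) (b (l 16628968) (l 16633568))))) (a (b (a (l 16556720) (a (l 16575512) (l 16588960))) (a (b (l 16565312) (l 16571776)) (l 16657032))) (b (a (l 16610536) (l 16641472)) (a (a (l 16615136) (l 16630144)) (l 16654896))))) (a (b (b (a (l 16582176) (l 16607720)) (l 16609704)) (b (l 16625160) (l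 4))) (b (b (a (l 16658264) (l 4)) (l 4)) (l 4)))) (b (a (b (b (a (b (a (b (l 16632464) (l 16638216)) (a (l 16604320) (l 16675048))) (a (l 16646568) (l 16661864))) (b (a (b (l 6) (a (l 16665736) (l 6))) (l 6)) (a (l 16679200) (l 16708352)))) (a (b (l 16662336) (l 16666856)) (b (a (l 16687632) (l 16704528)) (a (l 16692256) (l 16710464))))) (b (a (a (l 16666488) (l 16684848)) (a (l 16703336) (l 4))) (l 4))) (b (a (b (l 6) (b (l 6) (l 4))) (l 6)) (l 4))) (l 4))) (l 4)), by decide +kernel⟩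

def k2_mm_202_a : ∃ t, chk3 f_mm_202_a t 1 3 1 = true :=
  ⟨(a (b (b (l 4) (l 4)) (l 4)) (l 4)), by decide +kernel⟩

theorem s3_mm_202_a : ∃ t, chk3 f_mm_202_a t 1 2 1 = true := ex3_a k0_mm_202_a k1_mm_202_a

theorem s4_mm_202_a : ∃ t, chk3 f_mm_202_a t 1 1 1 = true := ex3_b s3_mm_202_a k2_mm_202_a

theorem c_mm_202_a : CertB 0 536870912 0 536870912 649613803 48318383 3 eng mog cd2q2a cd3q0 pd2 true false false .pp 2 0 2
    ndB2q2a ndB3q0 pcB2 cut_mm_202_a Ext.none :=
  certB0 (fam := true) (s1 := false) (s2 := false) (a := 2) (b := 0) (c := 2) (cn := .pp) (n1 := ndB2q2a) (n2 := ndB3q0) (pc := pcB2) (cut := cut_mm_202_a) (xt := Ext.none) (P1 := 0) (W1 := 536870912) (P2 := 0) (W2 := 536870912) (P3 := 649613803) (W3 := 48318383) (N0 := 3) (En := eng) (mo := mog) (C1 := cd2q2a) (C2 := cd3q0) (C3 := pd2)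
    rfl s4_mm_202_a

noncomputable def cut_mm_202_b : Cut := Cut.of [[⟨0, 1, 0, 67108864⟩, ⟨1, 0, 0, 67108864⟩, ⟨2, 1, 0, 67108864⟩]]

noncomputable def f_mm_202_b : ℕ → ℕ → ℕ → ℕ → Bool := onCell 1073741824 536870912 0 536870912 649613803 48318383
    (rowB 3 eng mog cd2q2b cd3q0 pd2 2 true false false .pp 2 0 2 (qsf 1239849684 370763052 0 536870912 2) ndB2q2b ndB3q0 pcB2 cut_mm_202_b Ext.none)

def k0_mm_202_b : ∃ t, chk3 f_mm_202_b t 1 1 1 = true :=
  ⟨(a (b (a (l 1) (b (b (a (b (b (a (a (l 1) (l 16475608)) (a (a (l 16448360) (l 16430800)) (l 16410064))) (a (l 1) (a (l 16498136) (l 16448128)))) (a (l 1) (a (l 1) (l 16505040)))) (a (b (b (l 16368288) (l 16407040)) (a (l 16478832) (l 16451040))) (b (l 16325512) (l 16406432)))) (a (l 1) (b (a (l 16499752) (l 16485912)) (l 186864183767)))) (l 1))) (l 1)) (a (b (b (a (b (b (a (l 16261672) (l 16202656)) (l 16375000)) (b (l 16393192) (l 16475768))) (a (b (a (l 16201136) (l 16175864)) (l 16346320)) (b (b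 (l 16105056) (l 16180760)) (l 16296824)))) (a (b (a (l 204580908967) (l 16573680)) (l 1)) (b (a (l 16515272) (l 16455472)) (a (l 218002771351) (l 52646625463))))) (l 1)) (b (a (b (b (a (l 16105520) (l 16074216)) (a (l 16295944) (l 16216832))) (b (a (l 16409744) (l 16368688)) (a (l 16574088) (l 16518200)))) (b (b (a (l 16047800) (l 16023600)) (a (l 16184232) (l 16157120))) (b (a (l 16334496) (l 4)) (l 4)))) (a (b (b (a (l 280816748519) (l 4)) (l 1)) (l 1)) (l 4))))), by decide +kernel⟩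

theorem c_mm_202_b : CertB 1239849684 370763052 0 536870912 649613803 48318383 3 eng mog cd2q2b cd3q0 pd2 true false false .pp 2 0 2
    ndB2q2b ndB3q0 pcB2 cut_mm_202_b Ext.none :=
  certB2 (fam := true) (s1 := false) (s2 := false) (a := 2) (b := 0) (c := 2) (cn := .pp) (n1 := ndB2q2b) (n2 := ndB3q0) (pc := pcB2) (cut := cut_mm_202_b) (xt := Ext.none) (P1 := 1239849684) (W1 := 370763052) (P2 := 0) (W2 := 536870912) (P3 := 649613803) (W3 := 48318383) (N0 := 3) (En := eng) (mo := mog) (C1 := cd2q2b) (C2 := cd3q0) (C3 := pd2)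
    rfl (fun _ => rfl) k0_mm_202_b

noncomputable def f_mm_203_a : ℕ → ℕ → ℕ → ℕ → Bool := onCell 0 536870912 1610612736 536870912 649613803 48318383
    (rowB 3 eng mog cd2q2a cd3q0 pd3 1 true false false .up 2 0 3 (qsf 0 536870912 0 536870912 3) ndB2q2a ndB3q0 pcB3 Cut.none Ext.none)

def k0_mm_203_a : ∃ t, chk3 f_mm_203_a t 1 1 1 = true :=
  ⟨(b (l 4) (l 2)), by decide +kernel⟩

theorem c_mm_203_a : CertB 0 536870912 0 536870912 649613803 48318383 3 eng mog cd2q2a cd3q0 pd3 true false false .up 2 0 3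
    ndB2q2a ndB3q0 pcB3 Cut.none Ext.none :=
  certB1 (fam := true) (s1 := false) (s2 := false) (a := 2) (b := 0) (c := 3) (cn := .up) (n1 := ndB2q2a) (n2 := ndB3q0) (pc := pcB3) (cut := Cut.none) (xt := Ext.none) (P1 := 0) (W1 := 536870912) (P2 := 0) (W2 := 536870912) (P3 := 649613803) (W3 := 48318383) (N0 := 3) (En := eng) (mo := mog) (C1 := cd2q2a) (C2 := cd3q0) (C3 := pd3)
    rfl (fun _ => rfl) k0_mm_203_a

noncomputable def f_mm_203_b : ℕ → ℕ → ℕ → ℕ → Bool := onCell 1239849684 370763052 1610612736 536870912 649613803 48318383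
    (rowB 3 eng mog cd2q2b cd3q0 pd3 1 true false false .up 2 0 3 (qsf 1239849684 370763052 0 536870912 3) ndB2q2b ndB3q0 pcB3 Cut.none Ext.none)

def k0_mm_203_b : ∃ t, chk3 f_mm_203_b t 1 1 1 = true :=
  ⟨(b (b (a (l 4) (b (a (l 4) (b (l 16186792) (l 4))) (l 4))) (l 4)) (l 4)), by decide +kernel⟩

theorem c_mm_203_b : CertB 1239849684 370763052 0 536870912 649613803 48318383 3 eng mog cd2q2b cd3q0 pd3 true false false .up 2 0 3
    ndB2q2b ndB3q0 pcB3 Cut.none Ext.none :=
  certB1 (fam := true) (s1 := false) (s2 := false) (a := 2) (b := 0) (c := 3) (cn := .up) (n1 := ndB2q2b) (n2 := ndB3q0) (pc := pcB3) (cut := Cut.none) (xt := Ext.none) (P1 := 1239849684) (W1 := 370763052) (P2 := 0) (W2 := 536870912) (P3 := 649613803) (W3 := 48318383) (N0 := 3) (En := eng) (mo := mog) (C1 := cd2q2b) (C2 := cd3q0) (C3 := pd3)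
    rfl (fun _ => rfl) k0_mm_203_b

noncomputable def f_mm_213_a : ℕ → ℕ → ℕ → ℕ → Bool := onCell 0 536870912 536870912 536870912 649613803 48318383
    (rowB 3 eng mog cd2q2a cd3q1 pd3 0 true false false .pnn 2 1 3 (qsf 0 536870912 536870912 536870912 3) ndB2q2a ndB3q1 pcB3 Cut.none Ext.none)

def k0_mm_213_a : ∃ t, chk3 f_mm_213_a t 1 1 1 = true :=
  ⟨(l 4), by decide +kernel⟩

theorem c_mm_213_a : CertB 0 536870912 536870912 536870912 649613803 48318383 3 eng mog cd2q2a cd3q1 pd3 true false false .pnn 2 1 3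
    ndB2q2a ndB3q1 pcB3 Cut.none Ext.none :=
  certB0 (fam := true) (s1 := false) (s2 := false) (a := 2) (b := 1) (c := 3) (cn := .pnn) (n1 := ndB2q2a) (n2 := ndB3q1) (pc := pcB3) (cut := Cut.none) (xt := Ext.none) (P1 := 0) (W1 := 536870912) (P2 := 536870912) (W2 := 536870912) (P3 := 649613803) (W3 := 48318383) (N0 := 3) (En := eng) (mo := mog) (C1 := cd2q2a) (C2 := cd3q1) (C3 := pd3)
    rfl k0_mm_213_a

noncomputable def f_mm_213_b : ℕ → ℕ → ℕ → ℕ → Bool := onCell 1239849684 370763052 536870912 536870912 649613803 48318383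
    (rowB 3 eng mog cd2q2b cd3q1 pd3 0 true false false .pnn 2 1 3 (qsf 1239849684 370763052 536870912 536870912 3) ndB2q2b ndB3q1 pcB3 Cut.none Ext.none)

def k0_mm_213_b : ∃ t, chk3 f_mm_213_b t 1 1 1 = true :=
  ⟨(l 4), by decide +kernel⟩

theorem c_mm_213_b : CertB 1239849684 370763052 536870912 536870912 649613803 48318383 3 eng mog cd2q2b cd3q1 pd3 true false false .pnn 2 1 3
    ndB2q2b ndB3q1 pcB3 Cut.none Ext.none :=
  certB0 (fam := true) (s1 := false) (s2 := false) (a := 2) (b := 1) (c := 3) (cn := .pnn) (n1 := ndB2q2b) (n2 := ndB3q1) (pc := pcB3) (cut := Cut.none) (xt := Ext.none) (P1 := 1239849684) (W1 := 370763052) (P2 := 536870912) (W2 := 536870912) (P3 := 649613803) (W3 := 48318383) (N0 := 3) (En := eng) (mo := mog) (C1 := cd2q2b) (C2 := cd3q1) (C3 := pd3)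
    rfl k0_mm_213_b

noncomputable def f_mm_303 : ℕ → ℕ → ℕ → ℕ → Bool := onCell 1610612736 536870912 0 536870912 649613803 48318383
    (rowB 3 eng mog cd2q3 cd3q0 pd3 2 true false false .npn 3 0 3 (qsf 1610612736 536870912 0 536870912 3) ndB2q3 ndB3q0 pcB3 Cut.none Ext.none)

def k0_mm_303 : ∃ t, chk3 f_mm_303 t 1 1 1 = true :=
  ⟨(a (a (b (a (b (b (a (l 16042664) (l 16038416)) (l 4)) (l 1)) (l 4)) (l 1)) (l 4)) (l 4)), by decide +kernel⟩

theorem c_mm_303 : CertB 1610612736 536870912 0 536870912 649613803 48318383 3 eng mog cd2q3 cd3q0 pd3 true false false .npn 3 0 3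
    ndB2q3 ndB3q0 pcB3 Cut.none Ext.none :=
  certB2 (fam := true) (s1 := false) (s2 := false) (a := 3) (b := 0) (c := 3) (cn := .npn) (n1 := ndB2q3) (n2 := ndB3q0) (pc := pcB3) (cut := Cut.none) (xt := Ext.none) (P1 := 1610612736) (W1 := 536870912) (P2 := 0) (W2 := 536870912) (P3 := 649613803) (W3 := 48318383) (N0 := 3) (En := eng) (mo := mog) (C1 := cd2q3) (C2 := cd3q0) (C3 := pd3)
    rfl (fun _ => rfl) k0_mm_303

noncomputable def f_mm_313 : ℕ → ℕ → ℕ → ℕ → Bool := onCell 1610612736 536870912 536870912 536870912 649613803 48318383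
    (rowB 3 eng mog cd2q3 cd3q1 pd3 0 true false false .dn 3 1 3 (qsf 1610612736 536870912 536870912 536870912 3) ndB2q3 ndB3q1 pcB3 Cut.none Ext.none)

def k0_mm_313 : ∃ t, chk3 f_mm_313 t 1 1 1 = true :=
  ⟨(l 4), by decide +kernel⟩

theorem c_mm_313 : CertB 1610612736 536870912 536870912 536870912 649613803 48318383 3 eng mog cd2q3 cd3q1 pd3 true false false .dn 3 1 3
    ndB2q3 ndB3q1 pcB3 Cut.none Ext.none :=
  certB0 (fam := true) (s1 := false) (s2 := false) (a := 3) (b := 1) (c := 3) (cn := .dn) (n1 := ndB2q3) (n2 := ndB3q1) (pc := pcB3) (cut := Cut.none) (xt := Ext.none) (P1 := 1610612736) (W1 := 536870912) (P2 := 536870912) (W2 := 536870912) (P3 := 649613803) (W3 := 48318383) (N0 := 3) (En := eng) (mo := mog) (C1 := cd2q3) (C2 := cd3q1) (C3 := pd3)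
    rfl k0_mm_313

end Pool.Agent.Strip051.G.I6050_6500.Tab.C.BA23

namespace Pool.Agent.Strip051.G.I6050_6500.Tab.C.BA24

open Pool.Agent.Strip051.PB Pool.Agent.Strip051.PB.T
open Pool.Agent.Strip051.G.I6050_6500.Tab

noncomputable def f_pp_001 : ℕ → ℕ → ℕ → ℕ → Bool := onCell 0 536870912 0 536870912 649613803 48318383
    (rowB 3 eng mog cd2q0 cd4q0 pd1 0 true true true .up 0 0 1 (qsf 0 536870912 0 536870912 1) ndB2q0 ndB4q0 pcB1 Cut.none Ext.none)

def k0_pp_001 : ∃ t, chk3 f_pp_001 t 1 1 1 = true :=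
  ⟨(l 4), by decide +kernel⟩

theorem c_pp_001 : CertB 0 536870912 0 536870912 649613803 48318383 3 eng mog cd2q0 cd4q0 pd1 true true true .up 0 0 1
    ndB2q0 ndB4q0 pcB1 Cut.none Ext.none :=
  certB0 (fam := true) (s1 := true) (s2 := true) (a := 0) (b := 0) (c := 1) (cn := .up) (n1 := ndB2q0) (n2 := ndB4q0) (pc := pcB1) (cut := Cut.none) (xt := Ext.none) (P1 := 0) (W1 := 536870912) (P2 := 0) (W2 := 536870912) (P3 := 649613803) (W3 := 48318383) (N0 := 3) (En := eng) (mo := mog) (C1 := cd2q0) (C2 := cd4q0) (C3 := pd1)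
    rfl k0_pp_001

noncomputable def f_pp_011 : ℕ → ℕ → ℕ → ℕ → Bool := onCell 0 536870912 536870912 536870912 649613803 48318383
    (rowB 3 eng mog cd2q0 cd4q1 pd1 0 true true true .pnn 0 1 1 (qsf 0 536870912 536870912 536870912 1) ndB2q0 ndB4q1 pcB1 Cut.none Ext.none)

def k0_pp_011 : ∃ t, chk3 f_pp_011 t 1 1 1 = true :=
  ⟨(l 4), by decide +kernel⟩

theorem c_pp_011 : CertB 0 536870912 536870912 536870912 649613803 48318383 3 eng mog cd2q0 cd4q1 pd1 true true true .pnn 0 1 1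
    ndB2q0 ndB4q1 pcB1 Cut.none Ext.none :=
  certB0 (fam := true) (s1 := true) (s2 := true) (a := 0) (b := 1) (c := 1) (cn := .pnn) (n1 := ndB2q0) (n2 := ndB4q1) (pc := pcB1) (cut := Cut.none) (xt := Ext.none) (P1 := 0) (W1 := 536870912) (P2 := 536870912) (W2 := 536870912) (P3 := 649613803) (W3 := 48318383) (N0 := 3) (En := eng) (mo := mog) (C1 := cd2q0) (C2 := cd4q1) (C3 := pd1)
    rfl k0_pp_011

noncomputable def f_pp_012 : ℕ → ℕ → ℕ → ℕ → Bool := onCell 0 536870912 536870912 536870912 649613803 48318383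
    (rowB 3 eng mog cd2q0 cd4q1 pd2 0 true true true .pnp 0 1 2 (qsf 0 536870912 536870912 536870912 2) ndB2q0 ndB4q1 pcB2 Cut.none Ext.none)

def k0_pp_012 : ∃ t, chk3 f_pp_012 t 1 1 1 = true :=
  ⟨(l 4), by decide +kernel⟩

theorem c_pp_012 : CertB 0 536870912 536870912 536870912 649613803 48318383 3 eng mog cd2q0 cd4q1 pd2 true true true .pnp 0 1 2
    ndB2q0 ndB4q1 pcB2 Cut.none Ext.none :=
  certB0 (fam := true) (s1 := true) (s2 := true) (a := 0) (b := 1) (c := 2) (cn := .pnp) (n1 := ndB2q0) (n2 := ndB4q1) (pc := pcB2) (cut := Cut.none) (xt := Ext.none) (P1 := 0) (W1 := 536870912) (P2 := 536870912) (W2 := 536870912) (P3 := 649613803) (W3 := 48318383) (N0 := 3) (En := eng) (mo := mog) (C1 := cd2q0) (C2 := cd4q1) (C3 := pd2)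
    rfl k0_pp_012

noncomputable def cut_pp_022_a : Cut := Cut.of [[⟨0, 0, 0, 67108864⟩, ⟨1, 1, 0, 67108864⟩, ⟨2, 1, 0, 67108864⟩]]

noncomputable def f_pp_022_a : ℕ → ℕ → ℕ → ℕ → Bool := onCell 0 536870912 0 536870912 649613803 48318383
    (rowB 3 eng mog cd2q0 cd4q2a pd2 0 true true true .pp 0 2 2 (qsf 0 536870912 0 536870912 2) ndB2q0 ndB4q2a pcB2 cut_pp_022_a Ext.none)

def k0_pp_022_a : ∃ t, chk3 f_pp_022_a t 1 1 1 = true :=
  ⟨(a (a (a (b (b (l 4) (l 4)) (b (l 4) (b (l 4) (a (b (l 4) (l 6)) (l 4))))) (l 4)) (l 4)) (l 4)), by decide +kernel⟩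

theorem c_pp_022_a : CertB 0 536870912 0 536870912 649613803 48318383 3 eng mog cd2q0 cd4q2a pd2 true true true .pp 0 2 2
    ndB2q0 ndB4q2a pcB2 cut_pp_022_a Ext.none :=
  certB0 (fam := true) (s1 := true) (s2 := true) (a := 0) (b := 2) (c := 2) (cn := .pp) (n1 := ndB2q0) (n2 := ndB4q2a) (pc := pcB2) (cut := cut_pp_022_a) (xt := Ext.none) (P1 := 0) (W1 := 536870912) (P2 := 0) (W2 := 536870912) (P3 := 649613803) (W3 := 48318383) (N0 := 3) (En := eng) (mo := mog) (C1 := cd2q0) (C2 := cd4q2a) (C3 := pd2)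
    rfl k0_pp_022_a

noncomputable def cut_pp_022_b : Cut := Cut.of [[⟨0, 0, 0, 67108864⟩, ⟨1, 1, 0, 67108864⟩, ⟨2, 1, 0, 67108864⟩]]

noncomputable def f_pp_022_b : ℕ → ℕ → ℕ → ℕ → Bool := onCell 0 536870912 1239849684 370763052 649613803 48318383
    (rowB 3 eng mog cd2q0 cd4q2b pd2 0 true true true .pp 0 2 2 (qsf 0 536870912 1239849684 370763052 2) ndB2q0 ndB4q2b pcB2 cut_pp_022_b Ext.none)

def k0_pp_022_b : ∃ t, chk3 f_pp_022_b t 1 1 1 = true :=
  ⟨(a (b (a (b (a (l 4) (l 4)) (l 4)) (l 4)) (l 4)) (l 4)), by decide +kernel⟩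

theorem c_pp_022_b : CertB 0 536870912 1239849684 370763052 649613803 48318383 3 eng mog cd2q0 cd4q2b pd2 true true true .pp 0 2 2
    ndB2q0 ndB4q2b pcB2 cut_pp_022_b Ext.none :=
  certB0 (fam := true) (s1 := true) (s2 := true) (a := 0) (b := 2) (c := 2) (cn := .pp) (n1 := ndB2q0) (n2 := ndB4q2b) (pc := pcB2) (cut := cut_pp_022_b) (xt := Ext.none) (P1 := 0) (W1 := 536870912) (P2 := 1239849684) (W2 := 370763052) (P3 := 649613803) (W3 := 48318383) (N0 := 3) (En := eng) (mo := mog) (C1 := cd2q0) (C2 := cd4q2b) (C3 := pd2)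
    rfl k0_pp_022_b

noncomputable def f_pp_023_a : ℕ → ℕ → ℕ → ℕ → Bool := onCell 1610612736 536870912 0 536870912 649613803 48318383
    (rowB 3 eng mog cd2q0 cd4q2a pd3 2 true true true .up 0 2 3 (qsf 0 536870912 0 536870912 3) ndB2q0 ndB4q2a pcB3 Cut.none Ext.none)

def k0_pp_023_a : ∃ t, chk3 f_pp_023_a t 1 1 1 = true :=
  ⟨(l 4), by decide +kernel⟩

theorem c_pp_023_a : CertB 0 536870912 0 536870912 649613803 48318383 3 eng mog cd2q0 cd4q2a pd3 true true true .up 0 2 3
    ndB2q0 ndB4q2a pcB3 Cut.none Ext.none :=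
  certB2 (fam := true) (s1 := true) (s2 := true) (a := 0) (b := 2) (c := 3) (cn := .up) (n1 := ndB2q0) (n2 := ndB4q2a) (pc := pcB3) (cut := Cut.none) (xt := Ext.none) (P1 := 0) (W1 := 536870912) (P2 := 0) (W2 := 536870912) (P3 := 649613803) (W3 := 48318383) (N0 := 3) (En := eng) (mo := mog) (C1 := cd2q0) (C2 := cd4q2a) (C3 := pd3)
    rfl (fun _ => rfl) k0_pp_023_a

noncomputable def f_pp_023_b : ℕ → ℕ → ℕ → ℕ → Bool := onCell 1610612736 536870912 1239849684 370763052 649613803 48318383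
    (rowB 3 eng mog cd2q0 cd4q2b pd3 2 true true true .up 0 2 3 (qsf 0 536870912 1239849684 370763052 3) ndB2q0 ndB4q2b pcB3 Cut.none Ext.none)

def k0_pp_023_b : ∃ t, chk3 f_pp_023_b t 1 1 1 = true :=
  ⟨(l 4), by decide +kernel⟩

theorem c_pp_023_b : CertB 0 536870912 1239849684 370763052 649613803 48318383 3 eng mog cd2q0 cd4q2b pd3 true true true .up 0 2 3
    ndB2q0 ndB4q2b pcB3 Cut.none Ext.none :=
  certB2 (fam := true) (s1 := true) (s2 := true) (a := 0) (b := 2) (c := 3) (cn := .up) (n1 := ndB2q0) (n2 := ndB4q2b) (pc := pcB3) (cut := Cut.none) (xt := Ext.none) (P1 := 0) (W1 := 536870912) (P2 := 1239849684) (W2 := 370763052) (P3 := 649613803) (W3 := 48318383) (N0 := 3) (En := eng) (mo := mog) (C1 := cd2q0) (C2 := cd4q2b) (C3 := pd3)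
    rfl (fun _ => rfl) k0_pp_023_b

noncomputable def f_pp_033 : ℕ → ℕ → ℕ → ℕ → Bool := onCell 0 536870912 1610612736 536870912 649613803 48318383
    (rowB 3 eng mog cd2q0 cd4q3 pd3 0 true true true .pnn 0 3 3 (qsf 0 536870912 1610612736 536870912 3) ndB2q0 ndB4q3 pcB3 Cut.none Ext.none)

def k0_pp_033 : ∃ t, chk3 f_pp_033 t 1 1 1 = true :=
  ⟨(l 4), by decide +kernel⟩

theorem c_pp_033 : CertB 0 536870912 1610612736 536870912 649613803 48318383 3 eng mog cd2q0 cd4q3 pd3 true true true .pnn 0 3 3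
    ndB2q0 ndB4q3 pcB3 Cut.none Ext.none :=
  certB0 (fam := true) (s1 := true) (s2 := true) (a := 0) (b := 3) (c := 3) (cn := .pnn) (n1 := ndB2q0) (n2 := ndB4q3) (pc := pcB3) (cut := Cut.none) (xt := Ext.none) (P1 := 0) (W1 := 536870912) (P2 := 1610612736) (W2 := 536870912) (P3 := 649613803) (W3 := 48318383) (N0 := 3) (En := eng) (mo := mog) (C1 := cd2q0) (C2 := cd4q3) (C3 := pd3)
    rfl k0_pp_033

noncomputable def f_pp_101 : ℕ → ℕ → ℕ → ℕ → Bool := onCell 536870912 536870912 0 536870912 649613803 48318383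
    (rowB 3 eng mog cd2q1 cd4q0 pd1 0 true true true .npn 1 0 1 (qsf 536870912 536870912 0 536870912 1) ndB2q1 ndB4q0 pcB1 Cut.none Ext.none)

def k0_pp_101 : ∃ t, chk3 f_pp_101 t 1 1 1 = true :=
  ⟨(l 4), by decide +kernel⟩

theorem c_pp_101 : CertB 536870912 536870912 0 536870912 649613803 48318383 3 eng mog cd2q1 cd4q0 pd1 true true true .npn 1 0 1
    ndB2q1 ndB4q0 pcB1 Cut.none Ext.none :=
  certB0 (fam := true) (s1 := true) (s2 := true) (a := 1) (b := 0) (c := 1) (cn := .npn) (n1 := ndB2q1) (n2 := ndB4q0) (pc := pcB1) (cut := Cut.none) (xt := Ext.none) (P1 := 536870912) (W1 := 536870912) (P2 := 0) (W2 := 536870912) (P3 := 649613803) (W3 := 48318383) (N0 := 3) (En := eng) (mo := mog) (C1 := cd2q1) (C2 := cd4q0) (C3 := pd1)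
    rfl k0_pp_101

noncomputable def f_pp_102 : ℕ → ℕ → ℕ → ℕ → Bool := onCell 536870912 536870912 0 536870912 649613803 48318383
    (rowB 3 eng mog cd2q1 cd4q0 pd2 0 true true true .npp 1 0 2 (qsf 536870912 536870912 0 536870912 2) ndB2q1 ndB4q0 pcB2 Cut.none Ext.none)

def k0_pp_102 : ∃ t, chk3 f_pp_102 t 1 1 1 = true :=
  ⟨(l 4), by decide +kernel⟩

theorem c_pp_102 : CertB 536870912 536870912 0 536870912 649613803 48318383 3 eng mog cd2q1 cd4q0 pd2 true true true .npp 1 0 2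
    ndB2q1 ndB4q0 pcB2 Cut.none Ext.none :=
  certB0 (fam := true) (s1 := true) (s2 := true) (a := 1) (b := 0) (c := 2) (cn := .npp) (n1 := ndB2q1) (n2 := ndB4q0) (pc := pcB2) (cut := Cut.none) (xt := Ext.none) (P1 := 536870912) (W1 := 536870912) (P2 := 0) (W2 := 536870912) (P3 := 649613803) (W3 := 48318383) (N0 := 3) (En := eng) (mo := mog) (C1 := cd2q1) (C2 := cd4q0) (C3 := pd2)
    rfl k0_pp_102

noncomputable def f_pp_112 : ℕ → ℕ → ℕ → ℕ → Bool := onCell 536870912 536870912 536870912 536870912 649613803 48318383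
    (rowB 3 eng mog cd2q1 cd4q1 pd2 0 true true true .dn 1 1 2 (qsf 536870912 536870912 536870912 536870912 2) ndB2q1 ndB4q1 pcB2 Cut.none Ext.none)

def k0_pp_112 : ∃ t, chk3 f_pp_112 t 1 1 1 = true :=
  ⟨(l 4), by decide +kernel⟩

theorem c_pp_112 : CertB 536870912 536870912 536870912 536870912 649613803 48318383 3 eng mog cd2q1 cd4q1 pd2 true true true .dn 1 1 2
    ndB2q1 ndB4q1 pcB2 Cut.none Ext.none :=
  certB0 (fam := true) (s1 := true) (s2 := true) (a := 1) (b := 1) (c := 2) (cn := .dn) (n1 := ndB2q1) (n2 := ndB4q1) (pc := pcB2) (cut := Cut.none) (xt := Ext.none) (P1 := 536870912) (W1 := 536870912) (P2 := 536870912) (W2 := 536870912) (P3 := 649613803) (W3 := 48318383) (N0 := 3) (En := eng) (mo := mog) (C1 := cd2q1) (C2 := cd4q1) (C3 := pd2)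
    rfl k0_pp_112

noncomputable def f_pp_113 : ℕ → ℕ → ℕ → ℕ → Bool := onCell 536870912 536870912 536870912 536870912 649613803 48318383
    (rowB 3 eng mog cd2q1 cd4q1 pd3 0 true true true .nn 1 1 3 (qsf 536870912 536870912 536870912 536870912 3) ndB2q1 ndB4q1 pcB3 Cut.none Ext.none)

def k0_pp_113 : ∃ t, chk3 f_pp_113 t 1 1 1 = true :=
  ⟨(l 4), by decide +kernel⟩

theorem c_pp_113 : CertB 536870912 536870912 536870912 536870912 649613803 48318383 3 eng mog cd2q1 cd4q1 pd3 true true true .nn 1 1 3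
    ndB2q1 ndB4q1 pcB3 Cut.none Ext.none :=
  certB0 (fam := true) (s1 := true) (s2 := true) (a := 1) (b := 1) (c := 3) (cn := .nn) (n1 := ndB2q1) (n2 := ndB4q1) (pc := pcB3) (cut := Cut.none) (xt := Ext.none) (P1 := 536870912) (W1 := 536870912) (P2 := 536870912) (W2 := 536870912) (P3 := 649613803) (W3 := 48318383) (N0 := 3) (En := eng) (mo := mog) (C1 := cd2q1) (C2 := cd4q1) (C3 := pd3)
    rfl k0_pp_113

noncomputable def f_pp_123_a : ℕ → ℕ → ℕ → ℕ → Bool := onCell 536870912 536870912 0 536870912 649613803 48318383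
    (rowB 3 eng mog cd2q1 cd4q2a pd3 0 true true true .npn 1 2 3 (qsf 536870912 536870912 0 536870912 3) ndB2q1 ndB4q2a pcB3 Cut.none Ext.none)

def k0_pp_123_a : ∃ t, chk3 f_pp_123_a t 1 1 1 = true :=
  ⟨(l 4), by decide +kernel⟩

theorem c_pp_123_a : CertB 536870912 536870912 0 536870912 649613803 48318383 3 eng mog cd2q1 cd4q2a pd3 true true true .npn 1 2 3
    ndB2q1 ndB4q2a pcB3 Cut.none Ext.none :=
  certB0 (fam := true) (s1 := true) (s2 := true) (a := 1) (b := 2) (c := 3) (cn := .npn) (n1 := ndB2q1) (n2 := ndB4q2a) (pc := pcB3) (cut := Cut.none) (xt := Ext.none) (P1 := 536870912) (W1 := 536870912) (P2 := 0) (W2 := 536870912) (P3 := 649613803) (W3 := 48318383) (N0 := 3) (En := eng) (mo := mog) (C1 := cd2q1) (C2 := cd4q2a) (C3 := pd3)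
    rfl k0_pp_123_a

noncomputable def f_pp_123_b : ℕ → ℕ → ℕ → ℕ → Bool := onCell 536870912 536870912 1239849684 370763052 649613803 48318383
    (rowB 3 eng mog cd2q1 cd4q2b pd3 0 true true true .npn 1 2 3 (qsf 536870912 536870912 1239849684 370763052 3) ndB2q1 ndB4q2b pcB3 Cut.none Ext.none)

def k0_pp_123_b : ∃ t, chk3 f_pp_123_b t 1 1 1 = true :=
  ⟨(l 4), by decide +kernel⟩

theorem c_pp_123_b : CertB 536870912 536870912 1239849684 370763052 649613803 48318383 3 eng mog cd2q1 cd4q2b pd3 true true true .npn 1 2 3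
    ndB2q1 ndB4q2b pcB3 Cut.none Ext.none :=
  certB0 (fam := true) (s1 := true) (s2 := true) (a := 1) (b := 2) (c := 3) (cn := .npn) (n1 := ndB2q1) (n2 := ndB4q2b) (pc := pcB3) (cut := Cut.none) (xt := Ext.none) (P1 := 536870912) (W1 := 536870912) (P2 := 1239849684) (W2 := 370763052) (P3 := 649613803) (W3 := 48318383) (N0 := 3) (En := eng) (mo := mog) (C1 := cd2q1) (C2 := cd4q2b) (C3 := pd3)
    rfl k0_pp_123_b

noncomputable def f_pp_133 : ℕ → ℕ → ℕ → ℕ → Bool := onCell 536870912 536870912 1610612736 536870912 649613803 48318383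
    (rowB 3 eng mog cd2q1 cd4q3 pd3 0 true true true .dn 1 3 3 (qsf 536870912 536870912 1610612736 536870912 3) ndB2q1 ndB4q3 pcB3 Cut.none Ext.none)

def k0_pp_133 : ∃ t, chk3 f_pp_133 t 1 1 1 = true :=
  ⟨(l 4), by decide +kernel⟩

theorem c_pp_133 : CertB 536870912 536870912 1610612736 536870912 649613803 48318383 3 eng mog cd2q1 cd4q3 pd3 true true true .dn 1 3 3
    ndB2q1 ndB4q3 pcB3 Cut.none Ext.none :=
  certB0 (fam := true) (s1 := true) (s2 := true) (a := 1) (b := 3) (c := 3) (cn := .dn) (n1 := ndB2q1) (n2 := ndB4q3) (pc := pcB3) (cut := Cut.none) (xt := Ext.none) (P1 := 536870912) (W1 := 536870912) (P2 := 1610612736) (W2 := 536870912) (P3 := 649613803) (W3 := 48318383) (N0 := 3) (En := eng) (mo := mog) (C1 := cd2q1) (C2 := cd4q3) (C3 := pd3)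
    rfl k0_pp_133

noncomputable def f_pp_202_a : ℕ → ℕ → ℕ → ℕ → Bool := onCell 0 536870912 0 536870912 649613803 48318383
    (rowB 3 eng mog cd2q2a cd4q0 pd2 0 true true true .pp 2 0 2 (qsf 0 536870912 0 536870912 2) ndB2q2a ndB4q0 pcB2 Cut.none Ext.none)

def k0_pp_202_a : ∃ t, chk3 f_pp_202_a t 1 1 1 = true :=
  ⟨(l 5), by decide +kernel⟩

theorem c_pp_202_a : CertB 0 536870912 0 536870912 649613803 48318383 3 eng mog cd2q2a cd4q0 pd2 true true true .pp 2 0 2
    ndB2q2a ndB4q0 pcB2 Cut.none Ext.none :=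
  certB0 (fam := true) (s1 := true) (s2 := true) (a := 2) (b := 0) (c := 2) (cn := .pp) (n1 := ndB2q2a) (n2 := ndB4q0) (pc := pcB2) (cut := Cut.none) (xt := Ext.none) (P1 := 0) (W1 := 536870912) (P2 := 0) (W2 := 536870912) (P3 := 649613803) (W3 := 48318383) (N0 := 3) (En := eng) (mo := mog) (C1 := cd2q2a) (C2 := cd4q0) (C3 := pd2)
    rfl k0_pp_202_a

noncomputable def f_pp_202_b : ℕ → ℕ → ℕ → ℕ → Bool := onCell 1239849684 370763052 0 536870912 649613803 48318383
    (rowB 3 eng mog cd2q2b cd4q0 pd2 0 true true true .pp 2 0 2 (qsf 1239849684 370763052 0 536870912 2) ndB2q2b ndB4q0 pcB2 Cut.none Ext.none)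

def k0_pp_202_b : ∃ t, chk3 f_pp_202_b t 1 1 1 = true :=
  ⟨(l 5), by decide +kernel⟩

theorem c_pp_202_b : CertB 1239849684 370763052 0 536870912 649613803 48318383 3 eng mog cd2q2b cd4q0 pd2 true true true .pp 2 0 2
    ndB2q2b ndB4q0 pcB2 Cut.none Ext.none :=
  certB0 (fam := true) (s1 := true) (s2 := true) (a := 2) (b := 0) (c := 2) (cn := .pp) (n1 := ndB2q2b) (n2 := ndB4q0) (pc := pcB2) (cut := Cut.none) (xt := Ext.none) (P1 := 1239849684) (W1 := 370763052) (P2 := 0) (W2 := 536870912) (P3 := 649613803) (W3 := 48318383) (N0 := 3) (En := eng) (mo := mog) (C1 := cd2q2b) (C2 := cd4q0) (C3 := pd2)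
    rfl k0_pp_202_b

noncomputable def f_pp_203_a : ℕ → ℕ → ℕ → ℕ → Bool := onCell 0 536870912 0 536870912 649613803 48318383
    (rowB 3 eng mog cd2q2a cd4q0 pd3 0 true true true .up 2 0 3 (qsf 0 536870912 0 536870912 3) ndB2q2a ndB4q0 pcB3 Cut.none Ext.none)

def k0_pp_203_a : ∃ t, chk3 f_pp_203_a t 1 1 1 = true :=
  ⟨(l 5), by decide +kernel⟩

theorem c_pp_203_a : CertB 0 536870912 0 536870912 649613803 48318383 3 eng mog cd2q2a cd4q0 pd3 true true true .up 2 0 3
    ndB2q2a ndB4q0 pcB3 Cut.none Ext.none :=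
  certB0 (fam := true) (s1 := true) (s2 := true) (a := 2) (b := 0) (c := 3) (cn := .up) (n1 := ndB2q2a) (n2 := ndB4q0) (pc := pcB3) (cut := Cut.none) (xt := Ext.none) (P1 := 0) (W1 := 536870912) (P2 := 0) (W2 := 536870912) (P3 := 649613803) (W3 := 48318383) (N0 := 3) (En := eng) (mo := mog) (C1 := cd2q2a) (C2 := cd4q0) (C3 := pd3)
    rfl k0_pp_203_a

noncomputable def f_pp_203_b : ℕ → ℕ → ℕ → ℕ → Bool := onCell 1239849684 370763052 0 536870912 649613803 48318383
    (rowB 3 eng mog cd2q2b cd4q0 pd3 0 true true true .up 2 0 3 (qsf 1239849684 370763052 0 536870912 3) ndB2q2b ndB4q0 pcB3 Cut.none Ext.none)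

def k0_pp_203_b : ∃ t, chk3 f_pp_203_b t 1 1 1 = true :=
  ⟨(l 5), by decide +kernel⟩

theorem c_pp_203_b : CertB 1239849684 370763052 0 536870912 649613803 48318383 3 eng mog cd2q2b cd4q0 pd3 true true true .up 2 0 3
    ndB2q2b ndB4q0 pcB3 Cut.none Ext.none :=
  certB0 (fam := true) (s1 := true) (s2 := true) (a := 2) (b := 0) (c := 3) (cn := .up) (n1 := ndB2q2b) (n2 := ndB4q0) (pc := pcB3) (cut := Cut.none) (xt := Ext.none) (P1 := 1239849684) (W1 := 370763052) (P2 := 0) (W2 := 536870912) (P3 := 649613803) (W3 := 48318383) (N0 := 3) (En := eng) (mo := mog) (C1 := cd2q2b) (C2 := cd4q0) (C3 := pd3)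
    rfl k0_pp_203_b

noncomputable def f_pp_213_a : ℕ → ℕ → ℕ → ℕ → Bool := onCell 0 536870912 536870912 536870912 649613803 48318383
    (rowB 3 eng mog cd2q2a cd4q1 pd3 0 true true true .pnn 2 1 3 (qsf 0 536870912 536870912 536870912 3) ndB2q2a ndB4q1 pcB3 Cut.none Ext.none)

def k0_pp_213_a : ∃ t, chk3 f_pp_213_a t 1 1 1 = true :=
  ⟨(l 4), by decide +kernel⟩

theorem c_pp_213_a : CertB 0 536870912 536870912 536870912 649613803 48318383 3 eng mog cd2q2a cd4q1 pd3 true true true .pnn 2 1 3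
    ndB2q2a ndB4q1 pcB3 Cut.none Ext.none :=
  certB0 (fam := true) (s1 := true) (s2 := true) (a := 2) (b := 1) (c := 3) (cn := .pnn) (n1 := ndB2q2a) (n2 := ndB4q1) (pc := pcB3) (cut := Cut.none) (xt := Ext.none) (P1 := 0) (W1 := 536870912) (P2 := 536870912) (W2 := 536870912) (P3 := 649613803) (W3 := 48318383) (N0 := 3) (En := eng) (mo := mog) (C1 := cd2q2a) (C2 := cd4q1) (C3 := pd3)
    rfl k0_pp_213_a

noncomputable def f_pp_213_b : ℕ → ℕ → ℕ → ℕ → Bool := onCell 1239849684 370763052 536870912 536870912 649613803 48318383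
    (rowB 3 eng mog cd2q2b cd4q1 pd3 0 true true true .pnn 2 1 3 (qsf 1239849684 370763052 536870912 536870912 3) ndB2q2b ndB4q1 pcB3 Cut.none Ext.none)

def k0_pp_213_b : ∃ t, chk3 f_pp_213_b t 1 1 1 = true :=
  ⟨(l 4), by decide +kernel⟩

theorem c_pp_213_b : CertB 1239849684 370763052 536870912 536870912 649613803 48318383 3 eng mog cd2q2b cd4q1 pd3 true true true .pnn 2 1 3
    ndB2q2b ndB4q1 pcB3 Cut.none Ext.none :=
  certB0 (fam := true) (s1 := true) (s2 := true) (a := 2) (b := 1) (c := 3) (cn := .pnn) (n1 := ndB2q2b) (n2 := ndB4q1) (pc := pcB3) (cut := Cut.none) (xt := Ext.none) (P1 := 1239849684) (W1 := 370763052) (P2 := 536870912) (W2 := 536870912) (P3 := 649613803) (W3 := 48318383) (N0 := 3) (En := eng) (mo := mog) (C1 := cd2q2b) (C2 := cd4q1) (C3 := pd3)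
    rfl k0_pp_213_b

noncomputable def f_pp_303 : ℕ → ℕ → ℕ → ℕ → Bool := onCell 1610612736 536870912 0 536870912 649613803 48318383
    (rowB 3 eng mog cd2q3 cd4q0 pd3 0 true true true .npn 3 0 3 (qsf 1610612736 536870912 0 536870912 3) ndB2q3 ndB4q0 pcB3 Cut.none Ext.none)

def k0_pp_303 : ∃ t, chk3 f_pp_303 t 1 1 1 = true :=
  ⟨(l 5), by decide +kernel⟩

theorem c_pp_303 : CertB 1610612736 536870912 0 536870912 649613803 48318383 3 eng mog cd2q3 cd4q0 pd3 true true true .npn 3 0 3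
    ndB2q3 ndB4q0 pcB3 Cut.none Ext.none :=
  certB0 (fam := true) (s1 := true) (s2 := true) (a := 3) (b := 0) (c := 3) (cn := .npn) (n1 := ndB2q3) (n2 := ndB4q0) (pc := pcB3) (cut := Cut.none) (xt := Ext.none) (P1 := 1610612736) (W1 := 536870912) (P2 := 0) (W2 := 536870912) (P3 := 649613803) (W3 := 48318383) (N0 := 3) (En := eng) (mo := mog) (C1 := cd2q3) (C2 := cd4q0) (C3 := pd3)
    rfl k0_pp_303

noncomputable def f_pp_313 : ℕ → ℕ → ℕ → ℕ → Bool := onCell 1610612736 536870912 536870912 536870912 649613803 48318383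
    (rowB 3 eng mog cd2q3 cd4q1 pd3 0 true true true .dn 3 1 3 (qsf 1610612736 536870912 536870912 536870912 3) ndB2q3 ndB4q1 pcB3 Cut.none Ext.none)

def k0_pp_313 : ∃ t, chk3 f_pp_313 t 1 1 1 = true :=
  ⟨(l 4), by decide +kernel⟩

theorem c_pp_313 : CertB 1610612736 536870912 536870912 536870912 649613803 48318383 3 eng mog cd2q3 cd4q1 pd3 true true true .dn 3 1 3
    ndB2q3 ndB4q1 pcB3 Cut.none Ext.none :=
  certB0 (fam := true) (s1 := true) (s2 := true) (a := 3) (b := 1) (c := 3) (cn := .dn) (n1 := ndB2q3) (n2 := ndB4q1) (pc := pcB3) (cut := Cut.none) (xt := Ext.none) (P1 := 1610612736) (W1 := 536870912) (P2 := 536870912) (W2 := 536870912) (P3 := 649613803) (W3 := 48318383) (N0 := 3) (En := eng) (mo := mog) (C1 := cd2q3) (C2 := cd4q1) (C3 := pd3)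
    rfl k0_pp_313

noncomputable def f_pm_001 : ℕ → ℕ → ℕ → ℕ → Bool := onCell 0 536870912 0 536870912 649613803 48318383
    (rowB 3 eng mog cd2q0 cd4q0 pd1 0 true true false .up 0 0 1 (qsf 0 536870912 0 536870912 1) ndB2q0 ndB4q0 pcB1 Cut.none Ext.none)

def k0_pm_001 : ∃ t, chk3 f_pm_001 t 1 1 1 = true :=
  ⟨(l 3), by decide +kernel⟩

theorem c_pm_001 : CertB 0 536870912 0 536870912 649613803 48318383 3 eng mog cd2q0 cd4q0 pd1 true true false .up 0 0 1
    ndB2q0 ndB4q0 pcB1 Cut.none Ext.none :=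
  certB0 (fam := true) (s1 := true) (s2 := false) (a := 0) (b := 0) (c := 1) (cn := .up) (n1 := ndB2q0) (n2 := ndB4q0) (pc := pcB1) (cut := Cut.none) (xt := Ext.none) (P1 := 0) (W1 := 536870912) (P2 := 0) (W2 := 536870912) (P3 := 649613803) (W3 := 48318383) (N0 := 3) (En := eng) (mo := mog) (C1 := cd2q0) (C2 := cd4q0) (C3 := pd1)
    rfl k0_pm_001

noncomputable def f_pm_011 : ℕ → ℕ → ℕ → ℕ → Bool := onCell 0 536870912 536870912 536870912 649613803 48318383
    (rowB 3 eng mog cd2q0 cd4q1 pd1 1 true true false .pnn 0 1 1 (qsf 0 536870912 536870912 536870912 1) ndB2q0 ndB4q1 pcB1 Cut.none Ext.none)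

def k0_pm_011 : ∃ t, chk3 f_pm_011 t 1 1 1 = true :=
  ⟨(b (l 3) (l 3)), by decide +kernel⟩

theorem c_pm_011 : CertB 0 536870912 536870912 536870912 649613803 48318383 3 eng mog cd2q0 cd4q1 pd1 true true false .pnn 0 1 1
    ndB2q0 ndB4q1 pcB1 Cut.none Ext.none :=
  certB1 (fam := true) (s1 := true) (s2 := false) (a := 0) (b := 1) (c := 1) (cn := .pnn) (n1 := ndB2q0) (n2 := ndB4q1) (pc := pcB1) (cut := Cut.none) (xt := Ext.none) (P1 := 0) (W1 := 536870912) (P2 := 536870912) (W2 := 536870912) (P3 := 649613803) (W3 := 48318383) (N0 := 3) (En := eng) (mo := mog) (C1 := cd2q0) (C2 := cd4q1) (C3 := pd1)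
    rfl (fun _ => rfl) k0_pm_011

noncomputable def f_pm_012 : ℕ → ℕ → ℕ → ℕ → Bool := onCell 1073741824 536870912 536870912 536870912 649613803 48318383
    (rowB 3 eng mog cd2q0 cd4q1 pd2 2 true true false .pnp 0 1 2 (qsf 0 536870912 536870912 536870912 2) ndB2q0 ndB4q1 pcB2 Cut.none Ext.none)

def k0_pm_012 : ∃ t, chk3 f_pm_012 t 2 1 1 = true :=
  ⟨(a (a (b (l 3) (l 3)) (b (a (a (l 3) (a (l 3) (b (l 16466256) (l 16501520)))) (b (a (l 16600360) (l 16487136)) (a (b (l 16460728) (l 16451360)) (b (l 16461872) (l 16444200))))) (a (a (l 3) (a (l 3) (b (b (l 16456648) (l 16461048)) (b (l 16481096) (b (l 16503112) (l 16518152)))))) (b (a (b (l 16526712) (a (l 16446520) (l 16433280))) (b (l 16426552) (a (l 16419976) (l 16407136)))) (a (b (a (l 16461328) (l 16442320)) (b (a (l 16478752) (l 16454640)) (a (l 16513056) (l 16465400)))) (b (a (l 16423968) (l 16406288)) (b (a (l 16431832) (l 16409968)) (a (l 16440008) (l 16415360))))))))) (b (b (a (a (a (l 16498144)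 (l 2)) (l 2)) (l 2)) (a (a (a (b (l 16463272) (l 16438152)) (a (l 16448496) (a (l 16445728) (b (l 16464920) (l 16661848))))) (l 16444864)) (l 16526728))) (a (a (a (b (b (l 16412096) (l 16410744)) (b (b (l 16382880) (l 16379928)) (b (l 16378320) (a (l 16390944) (l 16367056))))) (a (b (b (l 16402112) (l 16373592)) (b (l 16399912) (b (l 16348592) (l 16344120)))) (b (a (b (l 16396016) (l 16364992)) (b (a (l 16393928) (l 16393984)) (a (l 16361312) (l 16359808)))) (a (b (l 16346624) (b (l 16334856) (l 16328496))) (b (a (l 16341224) (l 16379936)) (a (b (l 16328032) (l 16320616)) (b (l 16323296) (l 16335720)))))))) (b (b (l 16381648) (l 16339912)) (b (l 16309504) (b (l 16287408) (l 16273288))))) (b (b (l 16358096) (l 16424288)) (b (b (l 16260000) (l 16233384)) (b (l 16205752) (a (l 16205920) (l 16152408)))))))), by decide +kernel⟩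

def k1_pm_012 : ∃ t, chk3 f_pm_012 t 3 1 1 = true :=
  ⟨(b (a (b (l 2) (a (l 16455104) (l 2))) (l 2)) (a (b (a (b (l 16350264) (l 16273456)) (b (l 16367528) (l 16277464))) (b (a (a (l 16209840) (l 16194992)) (l 16189712)) (a (b (l 16140616) (a (l 16112768) (l 16084616))) (b (l 16115872) (l 16062376))))) (b (a (b (l 2) (l 16311856)) (l 2)) (a (b (l 16213032) (l 16098800)) (b (l 16264736) (l 16139688)))))), by decide +kernel⟩

theorem s2_pm_012 : ∃ t, chk3 f_pm_012 t 1 1 1 = true := ex3_a k0_pm_012 k1_pm_012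

theorem c_pm_012 : CertB 0 536870912 536870912 536870912 649613803 48318383 3 eng mog cd2q0 cd4q1 pd2 true true false .pnp 0 1 2
    ndB2q0 ndB4q1 pcB2 Cut.none Ext.none :=
  certB2 (fam := true) (s1 := true) (s2 := false) (a := 0) (b := 1) (c := 2) (cn := .pnp) (n1 := ndB2q0) (n2 := ndB4q1) (pc := pcB2) (cut := Cut.none) (xt := Ext.none) (P1 := 0) (W1 := 536870912) (P2 := 536870912) (W2 := 536870912) (P3 := 649613803) (W3 := 48318383) (N0 := 3) (En := eng) (mo := mog) (C1 := cd2q0) (C2 := cd4q1) (C3 := pd2)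
    rfl (fun _ => rfl) s2_pm_012

end Pool.Agent.Strip051.G.I6050_6500.Tab.C.BA24

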