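import Pool.Agent.Strip051.G.I6050_6500.AsmH
import Pool.Agent.Strip051.G.I6050_6500.TrB16
import Pool.Agent.Strip051.G.I6050_6500.TrB17
import Pool.Agent.Strip051.G.I6050_6500.CrnE_0
import Pool.Agent.Strip051.G.I6050_6500.CrnE_1

/-! # Rows from certificates (generated) -/

set_option linter.all false
set_option maxRecDepth 100000

namespace Pool.Agent.Strip051.G.I6050_6500.Tab

open Pool.Agent.Strip051.PB Pool.Agent.StripNear Pool.Agent.Strip051.LC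

theorem BA46_pp_001 {κ x : ℝ} (hκ : κ * h0 = ken x) (hx : ((649613803 : ℕ) : ℝ) / S ≤ x) (hx' : x ≤ (((649613803 : ℕ) : ℝ) + (48318383 : ℕ)) / S) :
    TriA PP.cur (VE (h0 * 0) 3 κ (h0 * x) (eng.v x) (h0 * (3 / 40)) (tnt (h0 * x) (3 / 10)) (tbl tK x) (tbl tL x) (tbl (smT h0⁻¹ tC) x)) 0 0 1 4 6 1 1 :=
  (sideB hx hx').bothA (thrB hx hx') (en_pos (hx1 hx).le) (Or.inl rfl) (Or.inl rfl) fun y y' F =>
    bothA_cert (s1 := true) (s2 := true) rfl hκ (en_pos (hx1 hx).le) (esg_rng (hx1 hx).le (hx2 hx').le).1 (mo_v x) covB40 covB60 hx hx'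
        Pool.Agent.Strip051.G.I6050_6500.Tab.C.BA46.c_pp_001 noCut_EA noExt_EA F trivial trivial

theorem BA46_pp_011 {κ x : ℝ} (hκ : κ * h0 = ken x) (hx : ((649613803 : ℕ) : ℝ) / S ≤ x) (hx' : x ≤ (((649613803 : ℕ) : ℝ) + (48318383 : ℕ)) / S) :
    TriA PP.cur (VE (h0 * 0) 3 κ (h0 * x) (eng.v x) (h0 * (3 / 40)) (tnt (h0 * x) (3 / 10)) (tbl tK x) (tbl tL x) (tbl (smT h0⁻¹ tC) x)) 0 1 1 4 6 1 1 :=
  (sideB hx hx').bothA (thrB hx hx') (en_pos (hx1 hx).le) (Or.inl rfl) (Or.inl rfl) fun y y' F =>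
    bothA_cert (s1 := true) (s2 := true) rfl hκ (en_pos (hx1 hx).le) (esg_rng (hx1 hx).le (hx2 hx').le).1 (mo_v x) covB40 covB61 hx hx'
        Pool.Agent.Strip051.G.I6050_6500.Tab.C.BA46.c_pp_011 noCut_EA noExt_EA F trivial trivial

theorem BA46_pp_012 {κ x : ℝ} (hκ : κ * h0 = ken x) (hx : ((649613803 : ℕ) : ℝ) / S ≤ x) (hx' : x ≤ (((649613803 : ℕ) : ℝ) + (48318383 : ℕ)) / S) :
    TriA PP.cur (VE (h0 * 0) 3 κ (h0 * x) (eng.v x) (h0 * (3 / 40)) (tnt (h0 * x) (3 / 10)) (tbl tK x) (tbl tL x) (tbl (smT h0⁻¹ tC) x)) 0 1 2 4 6 1 1 :=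
  (sideB hx hx').bothA (thrB hx hx') (en_pos (hx1 hx).le) (Or.inl rfl) (Or.inl rfl) fun y y' F =>
    bothA_cert (s1 := true) (s2 := true) rfl hκ (en_pos (hx1 hx).le) (esg_rng (hx1 hx).le (hx2 hx').le).1 (mo_v x) covB40 covB61 hx hx'
        Pool.Agent.Strip051.G.I6050_6500.Tab.C.BA46.c_pp_012 noCut_EA noExt_EA F trivial trivial

theorem BA46_pp_022 {κ x : ℝ} (hκ : κ * h0 = ken x) (hx : ((649613803 : ℕ) : ℝ) / S ≤ x) (hx' : x ≤ (((649613803 : ℕ) : ℝ) + (48318383 : ℕ)) / S) :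
    TriA PP.cur (VE (h0 * 0) 3 κ (h0 * x) (eng.v x) (h0 * (3 / 40)) (tnt (h0 * x) (3 / 10)) (tbl tK x) (tbl tL x) (tbl (smT h0⁻¹ tC) x)) 0 2 2 4 6 1 1 :=
  (sideB hx hx').bothA (thrB hx hx') (en_pos (hx1 hx).le) (Or.inl rfl) (Or.inl rfl) fun y y' F =>
    bothA_cert (s1 := true) (s2 := true) rfl hκ (en_pos (hx1 hx).le) (esg_rng (hx1 hx).le (hx2 hx').le).1 (mo_v x) covB40 covB62 hx hx'
        Pool.Agent.Strip051.G.I6050_6500.Tab.C.BA46.c_pp_022 noCut_EA noExt_EA F trivial trivial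

theorem BA46_pp_023 {κ x : ℝ} (hκ : κ * h0 = ken x) (hx : ((649613803 : ℕ) : ℝ) / S ≤ x) (hx' : x ≤ (((649613803 : ℕ) : ℝ) + (48318383 : ℕ)) / S) :
    TriA PP.cur (VE (h0 * 0) 3 κ (h0 * x) (eng.v x) (h0 * (3 / 40)) (tnt (h0 * x) (3 / 10)) (tbl tK x) (tbl tL x) (tbl (smT h0⁻¹ tC) x)) 0 2 3 4 6 1 1 :=
  (sideB hx hx').bothA (thrB hx hx') (en_pos (hx1 hx).le) (Or.inl rfl) (Or.inl rfl) fun y y' F =>
    bothA_cert (s1 := true) (s2 := true) rfl hκ (en_pos (hx1 hx).le) (esg_rng (hx1 hx).le (hx2 hx').le).1 (mo_v x) covB40 covB62 hx hx'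
        Pool.Agent.Strip051.G.I6050_6500.Tab.C.BA46.c_pp_023 noCut_EA noExt_EA F trivial trivial

theorem BA46_pp_033 {κ x : ℝ} (hκ : κ * h0 = ken x) (hx : ((649613803 : ℕ) : ℝ) / S ≤ x) (hx' : x ≤ (((649613803 : ℕ) : ℝ) + (48318383 : ℕ)) / S) :
    TriA PP.cur (VE (h0 * 0) 3 κ (h0 * x) (eng.v x) (h0 * (3 / 40)) (tnt (h0 * x) (3 / 10)) (tbl tK x) (tbl tL x) (tbl (smT h0⁻¹ tC) x)) 0 3 3 4 6 1 1 :=
  (sideB hx hx').bothA (thrB hx hx') (en_pos (hx1 hx).le) (Or.inl rfl) (Or.inl rfl) fun y y' F =>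
    bothA_cert (s1 := true) (s2 := true) rfl hκ (en_pos (hx1 hx).le) (esg_rng (hx1 hx).le (hx2 hx').le).1 (mo_v x) covB40 covB63 hx hx'
        Pool.Agent.Strip051.G.I6050_6500.Tab.C.BA46.c_pp_033 noCut_EA noExt_EA F trivial trivial

theorem BA46_pp_101 {κ x : ℝ} (hκ : κ * h0 = ken x) (hx : ((649613803 : ℕ) : ℝ) / S ≤ x) (hx' : x ≤ (((649613803 : ℕ) : ℝ) + (48318383 : ℕ)) / S) :
    TriA PP.cur (VE (h0 * 0) 3 κ (h0 * x) (eng.v x) (h0 * (3 / 40)) (tnt (h0 * x) (3 / 10)) (tbl tK x) (tbl tL x) (tbl (smT h0⁻¹ tC) x)) 1 0 1 4 6 1 1 :=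
  (sideB hx hx').bothA (thrB hx hx') (en_pos (hx1 hx).le) (Or.inl rfl) (Or.inl rfl) fun y y' F =>
    bothA_cert (s1 := true) (s2 := true) rfl hκ (en_pos (hx1 hx).le) (esg_rng (hx1 hx).le (hx2 hx').le).1 (mo_v x) covB41 covB60 hx hx'
        Pool.Agent.Strip051.G.I6050_6500.Tab.C.BA46.c_pp_101 noCut_EA noExt_EA F trivial trivial

theorem BA46_pp_102 {κ x : ℝ} (hκ : κ * h0 = ken x) (hx : ((649613803 : ℕ) : ℝ) / S ≤ x) (hx' : x ≤ (((649613803 : ℕ) : ℝ) + (48318383 : ℕ)) / S) :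
    TriA PP.cur (VE (h0 * 0) 3 κ (h0 * x) (eng.v x) (h0 * (3 / 40)) (tnt (h0 * x) (3 / 10)) (tbl tK x) (tbl tL x) (tbl (smT h0⁻¹ tC) x)) 1 0 2 4 6 1 1 :=
  (sideB hx hx').bothA (thrB hx hx') (en_pos (hx1 hx).le) (Or.inl rfl) (Or.inl rfl) fun y y' F =>
    bothA_cert (s1 := true) (s2 := true) rfl hκ (en_pos (hx1 hx).le) (esg_rng (hx1 hx).le (hx2 hx').le).1 (mo_v x) covB41 covB60 hx hx'
        Pool.Agent.Strip051.G.I6050_6500.Tab.C.BA46.c_pp_102 noCut_EA noExt_EA F trivial trivial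

theorem BA46_pp_112 {κ x : ℝ} (hκ : κ * h0 = ken x) (hx : ((649613803 : ℕ) : ℝ) / S ≤ x) (hx' : x ≤ (((649613803 : ℕ) : ℝ) + (48318383 : ℕ)) / S) :
    TriA PP.cur (VE (h0 * 0) 3 κ (h0 * x) (eng.v x) (h0 * (3 / 40)) (tnt (h0 * x) (3 / 10)) (tbl tK x) (tbl tL x) (tbl (smT h0⁻¹ tC) x)) 1 1 2 4 6 1 1 :=
  (sideB hx hx').bothA (thrB hx hx') (en_pos (hx1 hx).le) (Or.inl rfl) (Or.inl rfl) fun y y' F =>
    bothA_cert (s1 := true) (s2 := true) rfl hκ (en_pos (hx1 hx).le) (esg_rng (hx1 hx).le (hx2 hx').le).1 (mo_v x) covB41 covB61 hx hx'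
        Pool.Agent.Strip051.G.I6050_6500.Tab.C.BA46.c_pp_112 noCut_EA noExt_EA F trivial trivial

theorem BA46_pp_113 {κ x : ℝ} (hκ : κ * h0 = ken x) (hx : ((649613803 : ℕ) : ℝ) / S ≤ x) (hx' : x ≤ (((649613803 : ℕ) : ℝ) + (48318383 : ℕ)) / S) :
    TriA PP.cur (VE (h0 * 0) 3 κ (h0 * x) (eng.v x) (h0 * (3 / 40)) (tnt (h0 * x) (3 / 10)) (tbl tK x) (tbl tL x) (tbl (smT h0⁻¹ tC) x)) 1 1 3 4 6 1 1 :=
  (sideB hx hx').bothA (thrB hx hx') (en_pos (hx1 hx).le) (Or.inl rfl) (Or.inl rfl) fun y y' F =>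
    bothA_cert (s1 := true) (s2 := true) rfl hκ (en_pos (hx1 hx).le) (esg_rng (hx1 hx).le (hx2 hx').le).1 (mo_v x) covB41 covB61 hx hx'
        Pool.Agent.Strip051.G.I6050_6500.Tab.C.BA46.c_pp_113 noCut_EA noExt_EA F trivial trivial

theorem BA46_pp_123 {κ x : ℝ} (hκ : κ * h0 = ken x) (hx : ((649613803 : ℕ) : ℝ) / S ≤ x) (hx' : x ≤ (((649613803 : ℕ) : ℝ) + (48318383 : ℕ)) / S) :
    TriA PP.cur (VE (h0 * 0) 3 κ (h0 * x) (eng.v x) (h0 * (3 / 40)) (tnt (h0 * x) (3 / 10)) (tbl tK x) (tbl tL x) (tbl (smT h0⁻¹ tC) x)) 1 2 3 4 6 1 1 :=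
  (sideB hx hx').bothA (thrB hx hx') (en_pos (hx1 hx).le) (Or.inl rfl) (Or.inl rfl) fun y y' F =>
    bothA_cert (s1 := true) (s2 := true) rfl hκ (en_pos (hx1 hx).le) (esg_rng (hx1 hx).le (hx2 hx').le).1 (mo_v x) covB41 covB62 hx hx'
        Pool.Agent.Strip051.G.I6050_6500.Tab.C.BA46.c_pp_123 noCut_EA noExt_EA F trivial trivial

theorem BA46_pp_133 {κ x : ℝ} (hκ : κ * h0 = ken x) (hx : ((649613803 : ℕ) : ℝ) / S ≤ x) (hx' : x ≤ (((649613803 : ℕ) : ℝ) + (48318383 : ℕ)) / S) :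
    TriA PP.cur (VE (h0 * 0) 3 κ (h0 * x) (eng.v x) (h0 * (3 / 40)) (tnt (h0 * x) (3 / 10)) (tbl tK x) (tbl tL x) (tbl (smT h0⁻¹ tC) x)) 1 3 3 4 6 1 1 :=
  (sideB hx hx').bothA (thrB hx hx') (en_pos (hx1 hx).le) (Or.inl rfl) (Or.inl rfl) fun y y' F =>
    bothA_cert (s1 := true) (s2 := true) rfl hκ (en_pos (hx1 hx).le) (esg_rng (hx1 hx).le (hx2 hx').le).1 (mo_v x) covB41 covB63 hx hx'
        Pool.Agent.Strip051.G.I6050_6500.Tab.C.BA46.c_pp_133 noCut_EA noExt_EA F trivial trivial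

theorem BA46_pp_202 {κ x : ℝ} (hκ : κ * h0 = ken x) (hx : ((649613803 : ℕ) : ℝ) / S ≤ x) (hx' : x ≤ (((649613803 : ℕ) : ℝ) + (48318383 : ℕ)) / S) :
    TriA PP.cur (VE (h0 * 0) 3 κ (h0 * x) (eng.v x) (h0 * (3 / 40)) (tnt (h0 * x) (3 / 10)) (tbl tK x) (tbl tL x) (tbl (smT h0⁻¹ tC) x)) 2 0 2 4 6 1 1 :=
  (sideB hx hx').bothA (thrB hx hx') (en_pos (hx1 hx).le) (Or.inl rfl) (Or.inl rfl) fun y y' F =>
    (lt_or_ge (h0 * y) 1).elim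
      (fun h => bothA_cert (s1 := true) (s2 := true) rfl hκ (en_pos (hx1 hx).le) (esg_rng (hx1 hx).le (hx2 hx').le).1 (mo_v x) covB42a covB60 hx hx'
        Pool.Agent.Strip051.G.I6050_6500.Tab.C.BA46.c_pp_202_a noCut_EA noExt_EA F h trivial)
      (fun h => bothA_cert (s1 := true) (s2 := true) rfl hκ (en_pos (hx1 hx).le) (esg_rng (hx1 hx).le (hx2 hx').le).1 (mo_v x) covB42b covB60 hx hx'
        Pool.Agent.Strip051.G.I6050_6500.Tab.C.BA46.c_pp_202_b noCut_EA noExt_EA F h trivial)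

theorem BA46_pp_203 {κ x : ℝ} (hκ : κ * h0 = ken x) (hx : ((649613803 : ℕ) : ℝ) / S ≤ x) (hx' : x ≤ (((649613803 : ℕ) : ℝ) + (48318383 : ℕ)) / S) :
    TriA PP.cur (VE (h0 * 0) 3 κ (h0 * x) (eng.v x) (h0 * (3 / 40)) (tnt (h0 * x) (3 / 10)) (tbl tK x) (tbl tL x) (tbl (smT h0⁻¹ tC) x)) 2 0 3 4 6 1 1 :=
  (sideB hx hx').bothA (thrB hx hx') (en_pos (hx1 hx).le) (Or.inl rfl) (Or.inl rfl) fun y y' F =>
    (lt_or_ge (h0 * y) 1).elim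
      (fun h => bothA_cert (s1 := true) (s2 := true) rfl hκ (en_pos (hx1 hx).le) (esg_rng (hx1 hx).le (hx2 hx').le).1 (mo_v x) covB42a covB60 hx hx'
        Pool.Agent.Strip051.G.I6050_6500.Tab.C.BA46.c_pp_203_a noCut_EA noExt_EA F h trivial)
      (fun h => bothA_cert (s1 := true) (s2 := true) rfl hκ (en_pos (hx1 hx).le) (esg_rng (hx1 hx).le (hx2 hx').le).1 (mo_v x) covB42b covB60 hx hx'
        Pool.Agent.Strip051.G.I6050_6500.Tab.C.BA46.c_pp_203_b noCut_EA noExt_EA F h trivial)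

theorem BA46_pp_213 {κ x : ℝ} (hκ : κ * h0 = ken x) (hx : ((649613803 : ℕ) : ℝ) / S ≤ x) (hx' : x ≤ (((649613803 : ℕ) : ℝ) + (48318383 : ℕ)) / S) :
    TriA PP.cur (VE (h0 * 0) 3 κ (h0 * x) (eng.v x) (h0 * (3 / 40)) (tnt (h0 * x) (3 / 10)) (tbl tK x) (tbl tL x) (tbl (smT h0⁻¹ tC) x)) 2 1 3 4 6 1 1 :=
  (sideB hx hx').bothA (thrB hx hx') (en_pos (hx1 hx).le) (Or.inl rfl) (Or.inl rfl) fun y y' F =>
    (lt_or_ge (h0 * y) 1).elim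
      (fun h => bothA_cert (s1 := true) (s2 := true) rfl hκ (en_pos (hx1 hx).le) (esg_rng (hx1 hx).le (hx2 hx').le).1 (mo_v x) covB42a covB61 hx hx'
        Pool.Agent.Strip051.G.I6050_6500.Tab.C.BA46.c_pp_213_a noCut_EA noExt_EA F h trivial)
      (fun h => bothA_cert (s1 := true) (s2 := true) rfl hκ (en_pos (hx1 hx).le) (esg_rng (hx1 hx).le (hx2 hx').le).1 (mo_v x) covB42b covB61 hx hx'
        Pool.Agent.Strip051.G.I6050_6500.Tab.C.BA46.c_pp_213_b noCut_EA noExt_EA F h trivial)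

theorem BA46_pp_303 {κ x : ℝ} (hκ : κ * h0 = ken x) (hx : ((649613803 : ℕ) : ℝ) / S ≤ x) (hx' : x ≤ (((649613803 : ℕ) : ℝ) + (48318383 : ℕ)) / S) :
    TriA PP.cur (VE (h0 * 0) 3 κ (h0 * x) (eng.v x) (h0 * (3 / 40)) (tnt (h0 * x) (3 / 10)) (tbl tK x) (tbl tL x) (tbl (smT h0⁻¹ tC) x)) 3 0 3 4 6 1 1 :=
  (sideB hx hx').bothA (thrB hx hx') (en_pos (hx1 hx).le) (Or.inl rfl) (Or.inl rfl) fun y y' F =>
    bothA_cert (s1 := true) (s2 := true) rfl hκ (en_pos (hx1 hx).le) (esg_rng (hx1 hx).le (hx2 hx').le).1 (mo_v x) covB43 covB60 hx hx'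
        Pool.Agent.Strip051.G.I6050_6500.Tab.C.BA46.c_pp_303 noCut_EA noExt_EA F trivial trivial

theorem BA46_pp_313 {κ x : ℝ} (hκ : κ * h0 = ken x) (hx : ((649613803 : ℕ) : ℝ) / S ≤ x) (hx' : x ≤ (((649613803 : ℕ) : ℝ) + (48318383 : ℕ)) / S) :
    TriA PP.cur (VE (h0 * 0) 3 κ (h0 * x) (eng.v x) (h0 * (3 / 40)) (tnt (h0 * x) (3 / 10)) (tbl tK x) (tbl tL x) (tbl (smT h0⁻¹ tC) x)) 3 1 3 4 6 1 1 :=
  (sideB hx hx').bothA (thrB hx hx') (en_pos (hx1 hx).le) (Or.inl rfl) (Or.inl rfl) fun y y' F =>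
    bothA_cert (s1 := true) (s2 := true) rfl hκ (en_pos (hx1 hx).le) (esg_rng (hx1 hx).le (hx2 hx').le).1 (mo_v x) covB43 covB61 hx hx'
        Pool.Agent.Strip051.G.I6050_6500.Tab.C.BA46.c_pp_313 noCut_EA noExt_EA F trivial trivial

theorem BA46_pm_001 {κ x : ℝ} (hκ : κ * h0 = ken x) (hx : ((649613803 : ℕ) : ℝ) / S ≤ x) (hx' : x ≤ (((649613803 : ℕ) : ℝ) + (48318383 : ℕ)) / S) :
    TriA PP.cur (VE (h0 * 0) 3 κ (h0 * x) (eng.v x) (h0 * (3 / 40)) (tnt (h0 * x) (3 / 10)) (tbl tK x) (tbl tL x) (tbl (smT h0⁻¹ tC) x)) 0 0 1 4 6 1 (-1) :=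
  (sideB hx hx').bothA (thrB hx hx') (en_pos (hx1 hx).le) (Or.inl rfl) (Or.inr rfl) fun y y' F =>
    bothA_cert (s1 := true) (s2 := false) rfl hκ (en_pos (hx1 hx).le) (esg_rng (hx1 hx).le (hx2 hx').le).1 (mo_v x) covB40 covB60 hx hx'
        Pool.Agent.Strip051.G.I6050_6500.Tab.C.BA46.c_pm_001 noCut_EA noExt_EA F trivial trivial

theorem BA46_pm_011 {κ x : ℝ} (hκ : κ * h0 = ken x) (hx : ((649613803 : ℕ) : ℝ) / S ≤ x) (hx' : x ≤ (((649613803 : ℕ) : ℝ) + (48318383 : ℕ)) / S) :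
    TriA PP.cur (VE (h0 * 0) 3 κ (h0 * x) (eng.v x) (h0 * (3 / 40)) (tnt (h0 * x) (3 / 10)) (tbl tK x) (tbl tL x) (tbl (smT h0⁻¹ tC) x)) 0 1 1 4 6 1 (-1) :=
  (sideB hx hx').bothA (thrB hx hx') (en_pos (hx1 hx).le) (Or.inl rfl) (Or.inr rfl) fun y y' F =>
    bothA_cert (s1 := true) (s2 := false) rfl hκ (en_pos (hx1 hx).le) (esg_rng (hx1 hx).le (hx2 hx').le).1 (mo_v x) covB40 covB61 hx hx'
        Pool.Agent.Strip051.G.I6050_6500.Tab.C.BA46.c_pm_011 (cutEA_cons (Pool.Agent.Strip051.G.I6050_6500.Tab.altB_A011R_46 hκ hx hx') cutEA_nil) noExt_EA F trivial trivial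

theorem BA46_pm_012 {κ x : ℝ} (hκ : κ * h0 = ken x) (hx : ((649613803 : ℕ) : ℝ) / S ≤ x) (hx' : x ≤ (((649613803 : ℕ) : ℝ) + (48318383 : ℕ)) / S) :
    TriA PP.cur (VE (h0 * 0) 3 κ (h0 * x) (eng.v x) (h0 * (3 / 40)) (tnt (h0 * x) (3 / 10)) (tbl tK x) (tbl tL x) (tbl (smT h0⁻¹ tC) x)) 0 1 2 4 6 1 (-1) :=
  (sideB hx hx').bothA (thrB hx hx') (en_pos (hx1 hx).le) (Or.inl rfl) (Or.inr rfl) fun y y' F =>
    bothA_cert (s1 := true) (s2 := false) rfl hκ (en_pos (hx1 hx).le) (esg_rng (hx1 hx).le (hx2 hx').le).1 (mo_v x) covB40 covB61 hx hx'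
        Pool.Agent.Strip051.G.I6050_6500.Tab.C.BA46.c_pm_012 (cutEA_cons (Pool.Agent.Strip051.G.I6050_6500.Tab.altB_A012R_46 hκ hx hx') cutEA_nil) noExt_EA F trivial trivial

theorem BA46_pm_022 {κ x : ℝ} (hκ : κ * h0 = ken x) (hx : ((649613803 : ℕ) : ℝ) / S ≤ x) (hx' : x ≤ (((649613803 : ℕ) : ℝ) + (48318383 : ℕ)) / S) :
    TriA PP.cur (VE (h0 * 0) 3 κ (h0 * x) (eng.v x) (h0 * (3 / 40)) (tnt (h0 * x) (3 / 10)) (tbl tK x) (tbl tL x) (tbl (smT h0⁻¹ tC) x)) 0 2 2 4 6 1 (-1) :=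
  (sideB hx hx').bothA (thrB hx hx') (en_pos (hx1 hx).le) (Or.inl rfl) (Or.inr rfl) fun y y' F =>
    bothA_cert (s1 := true) (s2 := false) rfl hκ (en_pos (hx1 hx).le) (esg_rng (hx1 hx).le (hx2 hx').le).1 (mo_v x) covB40 covB62 hx hx'
        Pool.Agent.Strip051.G.I6050_6500.Tab.C.BA46.c_pm_022 noCut_EA noExt_EA F trivial trivial

theorem BA46_pm_023 {κ x : ℝ} (hκ : κ * h0 = ken x) (hx : ((649613803 : ℕ) : ℝ) / S ≤ x) (hx' : x ≤ (((649613803 : ℕ) : ℝ) + (48318383 : ℕ)) / S) :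
    TriA PP.cur (VE (h0 * 0) 3 κ (h0 * x) (eng.v x) (h0 * (3 / 40)) (tnt (h0 * x) (3 / 10)) (tbl tK x) (tbl tL x) (tbl (smT h0⁻¹ tC) x)) 0 2 3 4 6 1 (-1) :=
  (sideB hx hx').bothA (thrB hx hx') (en_pos (hx1 hx).le) (Or.inl rfl) (Or.inr rfl) fun y y' F =>
    bothA_cert (s1 := true) (s2 := false) rfl hκ (en_pos (hx1 hx).le) (esg_rng (hx1 hx).le (hx2 hx').le).1 (mo_v x) covB40 covB62 hx hx'
        Pool.Agent.Strip051.G.I6050_6500.Tab.C.BA46.c_pm_023 noCut_EA noExt_EA F trivial trivial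

theorem BA46_pm_033 {κ x : ℝ} (hκ : κ * h0 = ken x) (hx : ((649613803 : ℕ) : ℝ) / S ≤ x) (hx' : x ≤ (((649613803 : ℕ) : ℝ) + (48318383 : ℕ)) / S) :
    TriA PP.cur (VE (h0 * 0) 3 κ (h0 * x) (eng.v x) (h0 * (3 / 40)) (tnt (h0 * x) (3 / 10)) (tbl tK x) (tbl tL x) (tbl (smT h0⁻¹ tC) x)) 0 3 3 4 6 1 (-1) :=
  (sideB hx hx').bothA (thrB hx hx') (en_pos (hx1 hx).le) (Or.inl rfl) (Or.inr rfl) fun y y' F =>
    bothA_cert (s1 := true) (s2 := false) rfl hκ (en_pos (hx1 hx).le) (esg_rng (hx1 hx).le (hx2 hx').le).1 (mo_v x) covB40 covB63 hx hx'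
        Pool.Agent.Strip051.G.I6050_6500.Tab.C.BA46.c_pm_033 noCut_EA noExt_EA F trivial trivial

theorem BA46_pm_101 {κ x : ℝ} (hκ : κ * h0 = ken x) (hx : ((649613803 : ℕ) : ℝ) / S ≤ x) (hx' : x ≤ (((649613803 : ℕ) : ℝ) + (48318383 : ℕ)) / S) :
    TriA PP.cur (VE (h0 * 0) 3 κ (h0 * x) (eng.v x) (h0 * (3 / 40)) (tnt (h0 * x) (3 / 10)) (tbl tK x) (tbl tL x) (tbl (smT h0⁻¹ tC) x)) 1 0 1 4 6 1 (-1) :=
  (sideB hx hx').bothA (thrB hx hx') (en_pos (hx1 hx).le) (Or.inl rfl) (Or.inr rfl) fun y y' F =>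
    bothA_cert (s1 := true) (s2 := false) rfl hκ (en_pos (hx1 hx).le) (esg_rng (hx1 hx).le (hx2 hx').le).1 (mo_v x) covB41 covB60 hx hx'
        Pool.Agent.Strip051.G.I6050_6500.Tab.C.BA46.c_pm_101 noCut_EA noExt_EA F trivial trivial

theorem BA46_pm_102 {κ x : ℝ} (hκ : κ * h0 = ken x) (hx : ((649613803 : ℕ) : ℝ) / S ≤ x) (hx' : x ≤ (((649613803 : ℕ) : ℝ) + (48318383 : ℕ)) / S) :
    TriA PP.cur (VE (h0 * 0) 3 κ (h0 * x) (eng.v x) (h0 * (3 / 40)) (tnt (h0 * x) (3 / 10)) (tbl tK x) (tbl tL x) (tbl (smT h0⁻¹ tC) x)) 1 0 2 4 6 1 (-1) :=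
  (sideB hx hx').bothA (thrB hx hx') (en_pos (hx1 hx).le) (Or.inl rfl) (Or.inr rfl) fun y y' F =>
    bothA_cert (s1 := true) (s2 := false) rfl hκ (en_pos (hx1 hx).le) (esg_rng (hx1 hx).le (hx2 hx').le).1 (mo_v x) covB41 covB60 hx hx'
        Pool.Agent.Strip051.G.I6050_6500.Tab.C.BA46.c_pm_102 noCut_EA noExt_EA F trivial trivial

theorem BA46_pm_112 {κ x : ℝ} (hκ : κ * h0 = ken x) (hx : ((649613803 : ℕ) : ℝ) / S ≤ x) (hx' : x ≤ (((649613803 : ℕ) : ℝ) + (48318383 : ℕ)) / S) :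
    TriA PP.cur (VE (h0 * 0) 3 κ (h0 * x) (eng.v x) (h0 * (3 / 40)) (tnt (h0 * x) (3 / 10)) (tbl tK x) (tbl tL x) (tbl (smT h0⁻¹ tC) x)) 1 1 2 4 6 1 (-1) :=
  (sideB hx hx').bothA (thrB hx hx') (en_pos (hx1 hx).le) (Or.inl rfl) (Or.inr rfl) fun y y' F =>
    bothA_cert (s1 := true) (s2 := false) rfl hκ (en_pos (hx1 hx).le) (esg_rng (hx1 hx).le (hx2 hx').le).1 (mo_v x) covB41 covB61 hx hx'
        Pool.Agent.Strip051.G.I6050_6500.Tab.C.BA46.c_pm_112 noCut_EA noExt_EA F trivial trivial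

theorem BA46_pm_113 {κ x : ℝ} (hκ : κ * h0 = ken x) (hx : ((649613803 : ℕ) : ℝ) / S ≤ x) (hx' : x ≤ (((649613803 : ℕ) : ℝ) + (48318383 : ℕ)) / S) :
    TriA PP.cur (VE (h0 * 0) 3 κ (h0 * x) (eng.v x) (h0 * (3 / 40)) (tnt (h0 * x) (3 / 10)) (tbl tK x) (tbl tL x) (tbl (smT h0⁻¹ tC) x)) 1 1 3 4 6 1 (-1) :=
  (sideB hx hx').bothA (thrB hx hx') (en_pos (hx1 hx).le) (Or.inl rfl) (Or.inr rfl) fun y y' F =>
    bothA_cert (s1 := true) (s2 := false) rfl hκ (en_pos (hx1 hx).le) (esg_rng (hx1 hx).le (hx2 hx').le).1 (mo_v x) covB41 covB61 hx hx'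
        Pool.Agent.Strip051.G.I6050_6500.Tab.C.BA46.c_pm_113 noCut_EA noExt_EA F trivial trivial

theorem BA46_pm_123 {κ x : ℝ} (hκ : κ * h0 = ken x) (hx : ((649613803 : ℕ) : ℝ) / S ≤ x) (hx' : x ≤ (((649613803 : ℕ) : ℝ) + (48318383 : ℕ)) / S) :
    TriA PP.cur (VE (h0 * 0) 3 κ (h0 * x) (eng.v x) (h0 * (3 / 40)) (tnt (h0 * x) (3 / 10)) (tbl tK x) (tbl tL x) (tbl (smT h0⁻¹ tC) x)) 1 2 3 4 6 1 (-1) :=
  (sideB hx hx').bothA (thrB hx hx') (en_pos (hx1 hx).le) (Or.inl rfl) (Or.inr rfl) fun y y' F =>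
    bothA_cert (s1 := true) (s2 := false) rfl hκ (en_pos (hx1 hx).le) (esg_rng (hx1 hx).le (hx2 hx').le).1 (mo_v x) covB41 covB62 hx hx'
        Pool.Agent.Strip051.G.I6050_6500.Tab.C.BA46.c_pm_123 noCut_EA noExt_EA F trivial trivial

theorem BA46_pm_133 {κ x : ℝ} (hκ : κ * h0 = ken x) (hx : ((649613803 : ℕ) : ℝ) / S ≤ x) (hx' : x ≤ (((649613803 : ℕ) : ℝ) + (48318383 : ℕ)) / S) :
    TriA PP.cur (VE (h0 * 0) 3 κ (h0 * x) (eng.v x) (h0 * (3 / 40)) (tnt (h0 * x) (3 / 10)) (tbl tK x) (tbl tL x) (tbl (smT h0⁻¹ tC) x)) 1 3 3 4 6 1 (-1) :=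
  (sideB hx hx').bothA (thrB hx hx') (en_pos (hx1 hx).le) (Or.inl rfl) (Or.inr rfl) fun y y' F =>
    bothA_cert (s1 := true) (s2 := false) rfl hκ (en_pos (hx1 hx).le) (esg_rng (hx1 hx).le (hx2 hx').le).1 (mo_v x) covB41 covB63 hx hx'
        Pool.Agent.Strip051.G.I6050_6500.Tab.C.BA46.c_pm_133 noCut_EA noExt_EA F trivial trivial

theorem BA46_pm_202 {κ x : ℝ} (hκ : κ * h0 = ken x) (hx : ((649613803 : ℕ) : ℝ) / S ≤ x) (hx' : x ≤ (((649613803 : ℕ) : ℝ) + (48318383 : ℕ)) / S) :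
    TriA PP.cur (VE (h0 * 0) 3 κ (h0 * x) (eng.v x) (h0 * (3 / 40)) (tnt (h0 * x) (3 / 10)) (tbl tK x) (tbl tL x) (tbl (smT h0⁻¹ tC) x)) 2 0 2 4 6 1 (-1) :=
  (sideB hx hx').bothA (thrB hx hx') (en_pos (hx1 hx).le) (Or.inl rfl) (Or.inr rfl) fun y y' F =>
    (lt_or_ge (h0 * y) 1).elim
      (fun h => bothA_cert (s1 := true) (s2 := false) rfl hκ (en_pos (hx1 hx).le) (esg_rng (hx1 hx).le (hx2 hx').le).1 (mo_v x) covB42a covB60 hx hx'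
        Pool.Agent.Strip051.G.I6050_6500.Tab.C.BA46.c_pm_202_a noCut_EA noExt_EA F h trivial)
      (fun h => bothA_cert (s1 := true) (s2 := false) rfl hκ (en_pos (hx1 hx).le) (esg_rng (hx1 hx).le (hx2 hx').le).1 (mo_v x) covB42b covB60 hx hx'
        Pool.Agent.Strip051.G.I6050_6500.Tab.C.BA46.c_pm_202_b noCut_EA noExt_EA F h trivial)

theorem BA46_pm_203 {κ x : ℝ} (hκ : κ * h0 = ken x) (hx : ((649613803 : ℕ) : ℝ) / S ≤ x) (hx' : x ≤ (((649613803 : ℕ) : ℝ) + (48318383 : ℕ)) / S) :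
    TriA PP.cur (VE (h0 * 0) 3 κ (h0 * x) (eng.v x) (h0 * (3 / 40)) (tnt (h0 * x) (3 / 10)) (tbl tK x) (tbl tL x) (tbl (smT h0⁻¹ tC) x)) 2 0 3 4 6 1 (-1) :=
  (sideB hx hx').bothA (thrB hx hx') (en_pos (hx1 hx).le) (Or.inl rfl) (Or.inr rfl) fun y y' F =>
    (lt_or_ge (h0 * y) 1).elim
      (fun h => bothA_cert (s1 := true) (s2 := false) rfl hκ (en_pos (hx1 hx).le) (esg_rng (hx1 hx).le (hx2 hx').le).1 (mo_v x) covB42a covB60 hx hx'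
        Pool.Agent.Strip051.G.I6050_6500.Tab.C.BA46.c_pm_203_a noCut_EA noExt_EA F h trivial)
      (fun h => bothA_cert (s1 := true) (s2 := false) rfl hκ (en_pos (hx1 hx).le) (esg_rng (hx1 hx).le (hx2 hx').le).1 (mo_v x) covB42b covB60 hx hx'
        Pool.Agent.Strip051.G.I6050_6500.Tab.C.BA46.c_pm_203_b noCut_EA noExt_EA F h trivial)

theorem BA46_pm_213 {κ x : ℝ} (hκ : κ * h0 = ken x) (hx : ((649613803 : ℕ) : ℝ) / S ≤ x) (hx' : x ≤ (((649613803 : ℕ) : ℝ) + (48318383 : ℕ)) / S) :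
    TriA PP.cur (VE (h0 * 0) 3 κ (h0 * x) (eng.v x) (h0 * (3 / 40)) (tnt (h0 * x) (3 / 10)) (tbl tK x) (tbl tL x) (tbl (smT h0⁻¹ tC) x)) 2 1 3 4 6 1 (-1) :=
  (sideB hx hx').bothA (thrB hx hx') (en_pos (hx1 hx).le) (Or.inl rfl) (Or.inr rfl) fun y y' F =>
    (lt_or_ge (h0 * y) 1).elim
      (fun h => bothA_cert (s1 := true) (s2 := false) rfl hκ (en_pos (hx1 hx).le) (esg_rng (hx1 hx).le (hx2 hx').le).1 (mo_v x) covB42a covB61 hx hx'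
        Pool.Agent.Strip051.G.I6050_6500.Tab.C.BA46.c_pm_213_a noCut_EA noExt_EA F h trivial)
      (fun h => bothA_cert (s1 := true) (s2 := false) rfl hκ (en_pos (hx1 hx).le) (esg_rng (hx1 hx).le (hx2 hx').le).1 (mo_v x) covB42b covB61 hx hx'
        Pool.Agent.Strip051.G.I6050_6500.Tab.C.BA46.c_pm_213_b noCut_EA noExt_EA F h trivial)

theorem BA46_pm_303 {κ x : ℝ} (hκ : κ * h0 = ken x) (hx : ((649613803 : ℕ) : ℝ) / S ≤ x) (hx' : x ≤ (((649613803 : ℕ) : ℝ) + (48318383 : ℕ)) / S) :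
    TriA PP.cur (VE (h0 * 0) 3 κ (h0 * x) (eng.v x) (h0 * (3 / 40)) (tnt (h0 * x) (3 / 10)) (tbl tK x) (tbl tL x) (tbl (smT h0⁻¹ tC) x)) 3 0 3 4 6 1 (-1) :=
  (sideB hx hx').bothA (thrB hx hx') (en_pos (hx1 hx).le) (Or.inl rfl) (Or.inr rfl) fun y y' F =>
    bothA_cert (s1 := true) (s2 := false) rfl hκ (en_pos (hx1 hx).le) (esg_rng (hx1 hx).le (hx2 hx').le).1 (mo_v x) covB43 covB60 hx hx'
        Pool.Agent.Strip051.G.I6050_6500.Tab.C.BA46.c_pm_303 noCut_EA noExt_EA F trivial trivial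

theorem BA46_pm_313 {κ x : ℝ} (hκ : κ * h0 = ken x) (hx : ((649613803 : ℕ) : ℝ) / S ≤ x) (hx' : x ≤ (((649613803 : ℕ) : ℝ) + (48318383 : ℕ)) / S) :
    TriA PP.cur (VE (h0 * 0) 3 κ (h0 * x) (eng.v x) (h0 * (3 / 40)) (tnt (h0 * x) (3 / 10)) (tbl tK x) (tbl tL x) (tbl (smT h0⁻¹ tC) x)) 3 1 3 4 6 1 (-1) :=
  (sideB hx hx').bothA (thrB hx hx') (en_pos (hx1 hx).le) (Or.inl rfl) (Or.inr rfl) fun y y' F =>
    bothA_cert (s1 := true) (s2 := false) rfl hκ (en_pos (hx1 hx).le) (esg_rng (hx1 hx).le (hx2 hx').le).1 (mo_v x) covB43 covB61 hx hx'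
        Pool.Agent.Strip051.G.I6050_6500.Tab.C.BA46.c_pm_313 noCut_EA noExt_EA F trivial trivial

theorem BA46_mm_001 {κ x : ℝ} (hκ : κ * h0 = ken x) (hx : ((649613803 : ℕ) : ℝ) / S ≤ x) (hx' : x ≤ (((649613803 : ℕ) : ℝ) + (48318383 : ℕ)) / S) :
    TriA PP.cur (VE (h0 * 0) 3 κ (h0 * x) (eng.v x) (h0 * (3 / 40)) (tnt (h0 * x) (3 / 10)) (tbl tK x) (tbl tL x) (tbl (smT h0⁻¹ tC) x)) 0 0 1 4 6 (-1) (-1) :=
  (sideB hx hx').bothA (thrB hx hx') (en_pos (hx1 hx).le) (Or.inr rfl) (Or.inr rfl) fun y y' F =>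
    bothA_cert (s1 := false) (s2 := false) rfl hκ (en_pos (hx1 hx).le) (esg_rng (hx1 hx).le (hx2 hx').le).1 (mo_v x) covB40 covB60 hx hx'
        Pool.Agent.Strip051.G.I6050_6500.Tab.C.BA46.c_mm_001 noCut_EA noExt_EA F trivial trivial

theorem BA46_mm_011 {κ x : ℝ} (hκ : κ * h0 = ken x) (hx : ((649613803 : ℕ) : ℝ) / S ≤ x) (hx' : x ≤ (((649613803 : ℕ) : ℝ) + (48318383 : ℕ)) / S) :
    TriA PP.cur (VE (h0 * 0) 3 κ (h0 * x) (eng.v x) (h0 * (3 / 40)) (tnt (h0 * x) (3 / 10)) (tbl tK x) (tbl tL x) (tbl (smT h0⁻¹ tC) x)) 0 1 1 4 6 (-1) (-1) :=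
  (sideB hx hx').bothA (thrB hx hx') (en_pos (hx1 hx).le) (Or.inr rfl) (Or.inr rfl) fun y y' F =>
    bothA_cert (s1 := false) (s2 := false) rfl hκ (en_pos (hx1 hx).le) (esg_rng (hx1 hx).le (hx2 hx').le).1 (mo_v x) covB40 covB61 hx hx'
        Pool.Agent.Strip051.G.I6050_6500.Tab.C.BA46.c_mm_011 noCut_EA noExt_EA F trivial trivial

theorem BA46_mm_012 {κ x : ℝ} (hκ : κ * h0 = ken x) (hx : ((649613803 : ℕ) : ℝ) / S ≤ x) (hx' : x ≤ (((649613803 : ℕ) : ℝ) + (48318383 : ℕ)) / S) :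
    TriA PP.cur (VE (h0 * 0) 3 κ (h0 * x) (eng.v x) (h0 * (3 / 40)) (tnt (h0 * x) (3 / 10)) (tbl tK x) (tbl tL x) (tbl (smT h0⁻¹ tC) x)) 0 1 2 4 6 (-1) (-1) :=
  (sideB hx hx').bothA (thrB hx hx') (en_pos (hx1 hx).le) (Or.inr rfl) (Or.inr rfl) fun y y' F =>
    bothA_cert (s1 := false) (s2 := false) rfl hκ (en_pos (hx1 hx).le) (esg_rng (hx1 hx).le (hx2 hx').le).1 (mo_v x) covB40 covB61 hx hx'
        Pool.Agent.Strip051.G.I6050_6500.Tab.C.BA46.c_mm_012 noCut_EA noExt_EA F trivial trivial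

theorem BA46_mm_022 {κ x : ℝ} (hκ : κ * h0 = ken x) (hx : ((649613803 : ℕ) : ℝ) / S ≤ x) (hx' : x ≤ (((649613803 : ℕ) : ℝ) + (48318383 : ℕ)) / S) :
    TriA PP.cur (VE (h0 * 0) 3 κ (h0 * x) (eng.v x) (h0 * (3 / 40)) (tnt (h0 * x) (3 / 10)) (tbl tK x) (tbl tL x) (tbl (smT h0⁻¹ tC) x)) 0 2 2 4 6 (-1) (-1) :=
  (sideB hx hx').bothA (thrB hx hx') (en_pos (hx1 hx).le) (Or.inr rfl) (Or.inr rfl) fun y y' F =>
    bothA_cert (s1 := false) (s2 := false) rfl hκ (en_pos (hx1 hx).le) (esg_rng (hx1 hx).le (hx2 hx').le).1 (mo_v x) covB40 covB62 hx hx'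
        Pool.Agent.Strip051.G.I6050_6500.Tab.C.BA46.c_mm_022 noCut_EA noExt_EA F trivial trivial

theorem BA46_mm_023 {κ x : ℝ} (hκ : κ * h0 = ken x) (hx : ((649613803 : ℕ) : ℝ) / S ≤ x) (hx' : x ≤ (((649613803 : ℕ) : ℝ) + (48318383 : ℕ)) / S) :
    TriA PP.cur (VE (h0 * 0) 3 κ (h0 * x) (eng.v x) (h0 * (3 / 40)) (tnt (h0 * x) (3 / 10)) (tbl tK x) (tbl tL x) (tbl (smT h0⁻¹ tC) x)) 0 2 3 4 6 (-1) (-1) :=
  (sideB hx hx').bothA (thrB hx hx') (en_pos (hx1 hx).le) (Or.inr rfl) (Or.inr rfl) fun y y' F =>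
    bothA_cert (s1 := false) (s2 := false) rfl hκ (en_pos (hx1 hx).le) (esg_rng (hx1 hx).le (hx2 hx').le).1 (mo_v x) covB40 covB62 hx hx'
        Pool.Agent.Strip051.G.I6050_6500.Tab.C.BA46.c_mm_023 noCut_EA noExt_EA F trivial trivial

theorem BA46_mm_033 {κ x : ℝ} (hκ : κ * h0 = ken x) (hx : ((649613803 : ℕ) : ℝ) / S ≤ x) (hx' : x ≤ (((649613803 : ℕ) : ℝ) + (48318383 : ℕ)) / S) :
    TriA PP.cur (VE (h0 * 0) 3 κ (h0 * x) (eng.v x) (h0 * (3 / 40)) (tnt (h0 * x) (3 / 10)) (tbl tK x) (tbl tL x) (tbl (smT h0⁻¹ tC) x)) 0 3 3 4 6 (-1) (-1) :=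
  (sideB hx hx').bothA (thrB hx hx') (en_pos (hx1 hx).le) (Or.inr rfl) (Or.inr rfl) fun y y' F =>
    bothA_cert (s1 := false) (s2 := false) rfl hκ (en_pos (hx1 hx).le) (esg_rng (hx1 hx).le (hx2 hx').le).1 (mo_v x) covB40 covB63 hx hx'
        Pool.Agent.Strip051.G.I6050_6500.Tab.C.BA46.c_mm_033 noCut_EA noExt_EA F trivial trivial

theorem BA46_mm_101 {κ x : ℝ} (hκ : κ * h0 = ken x) (hx : ((649613803 : ℕ) : ℝ) / S ≤ x) (hx' : x ≤ (((649613803 : ℕ) : ℝ) + (48318383 : ℕ)) / S) :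
    TriA PP.cur (VE (h0 * 0) 3 κ (h0 * x) (eng.v x) (h0 * (3 / 40)) (tnt (h0 * x) (3 / 10)) (tbl tK x) (tbl tL x) (tbl (smT h0⁻¹ tC) x)) 1 0 1 4 6 (-1) (-1) :=
  (sideB hx hx').bothA (thrB hx hx') (en_pos (hx1 hx).le) (Or.inr rfl) (Or.inr rfl) fun y y' F =>
    bothA_cert (s1 := false) (s2 := false) rfl hκ (en_pos (hx1 hx).le) (esg_rng (hx1 hx).le (hx2 hx').le).1 (mo_v x) covB41 covB60 hx hx'
        Pool.Agent.Strip051.G.I6050_6500.Tab.C.BA46.c_mm_101 noCut_EA noExt_EA F trivial trivial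

theorem BA46_mm_102 {κ x : ℝ} (hκ : κ * h0 = ken x) (hx : ((649613803 : ℕ) : ℝ) / S ≤ x) (hx' : x ≤ (((649613803 : ℕ) : ℝ) + (48318383 : ℕ)) / S) :
    TriA PP.cur (VE (h0 * 0) 3 κ (h0 * x) (eng.v x) (h0 * (3 / 40)) (tnt (h0 * x) (3 / 10)) (tbl tK x) (tbl tL x) (tbl (smT h0⁻¹ tC) x)) 1 0 2 4 6 (-1) (-1) :=
  (sideB hx hx').bothA (thrB hx hx') (en_pos (hx1 hx).le) (Or.inr rfl) (Or.inr rfl) fun y y' F =>
    bothA_cert (s1 := false) (s2 := false) rfl hκ (en_pos (hx1 hx).le) (esg_rng (hx1 hx).le (hx2 hx').le).1 (mo_v x) covB41 covB60 hx hx'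
        Pool.Agent.Strip051.G.I6050_6500.Tab.C.BA46.c_mm_102 noCut_EA noExt_EA F trivial trivial

theorem BA46_mm_112 {κ x : ℝ} (hκ : κ * h0 = ken x) (hx : ((649613803 : ℕ) : ℝ) / S ≤ x) (hx' : x ≤ (((649613803 : ℕ) : ℝ) + (48318383 : ℕ)) / S) :
    TriA PP.cur (VE (h0 * 0) 3 κ (h0 * x) (eng.v x) (h0 * (3 / 40)) (tnt (h0 * x) (3 / 10)) (tbl tK x) (tbl tL x) (tbl (smT h0⁻¹ tC) x)) 1 1 2 4 6 (-1) (-1) :=
  (sideB hx hx').bothA (thrB hx hx') (en_pos (hx1 hx).le) (Or.inr rfl) (Or.inr rfl) fun y y' F =>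
    bothA_cert (s1 := false) (s2 := false) rfl hκ (en_pos (hx1 hx).le) (esg_rng (hx1 hx).le (hx2 hx').le).1 (mo_v x) covB41 covB61 hx hx'
        Pool.Agent.Strip051.G.I6050_6500.Tab.C.BA46.c_mm_112 noCut_EA noExt_EA F trivial trivial

theorem BA46_mm_113 {κ x : ℝ} (hκ : κ * h0 = ken x) (hx : ((649613803 : ℕ) : ℝ) / S ≤ x) (hx' : x ≤ (((649613803 : ℕ) : ℝ) + (48318383 : ℕ)) / S) :
    TriA PP.cur (VE (h0 * 0) 3 κ (h0 * x) (eng.v x) (h0 * (3 / 40)) (tnt (h0 * x) (3 / 10)) (tbl tK x) (tbl tL x) (tbl (smT h0⁻¹ tC) x)) 1 1 3 4 6 (-1) (-1) :=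
  (sideB hx hx').bothA (thrB hx hx') (en_pos (hx1 hx).le) (Or.inr rfl) (Or.inr rfl) fun y y' F =>
    bothA_cert (s1 := false) (s2 := false) rfl hκ (en_pos (hx1 hx).le) (esg_rng (hx1 hx).le (hx2 hx').le).1 (mo_v x) covB41 covB61 hx hx'
        Pool.Agent.Strip051.G.I6050_6500.Tab.C.BA46.c_mm_113 noCut_EA noExt_EA F trivial trivial

theorem BA46_mm_123 {κ x : ℝ} (hκ : κ * h0 = ken x) (hx : ((649613803 : ℕ) : ℝ) / S ≤ x) (hx' : x ≤ (((649613803 : ℕ) : ℝ) + (48318383 : ℕ)) / S) :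
    TriA PP.cur (VE (h0 * 0) 3 κ (h0 * x) (eng.v x) (h0 * (3 / 40)) (tnt (h0 * x) (3 / 10)) (tbl tK x) (tbl tL x) (tbl (smT h0⁻¹ tC) x)) 1 2 3 4 6 (-1) (-1) :=
  (sideB hx hx').bothA (thrB hx hx') (en_pos (hx1 hx).le) (Or.inr rfl) (Or.inr rfl) fun y y' F =>
    bothA_cert (s1 := false) (s2 := false) rfl hκ (en_pos (hx1 hx).le) (esg_rng (hx1 hx).le (hx2 hx').le).1 (mo_v x) covB41 covB62 hx hx'
        Pool.Agent.Strip051.G.I6050_6500.Tab.C.BA46.c_mm_123 noCut_EA noExt_EA F trivial trivial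

theorem BA46_mm_133 {κ x : ℝ} (hκ : κ * h0 = ken x) (hx : ((649613803 : ℕ) : ℝ) / S ≤ x) (hx' : x ≤ (((649613803 : ℕ) : ℝ) + (48318383 : ℕ)) / S) :
    TriA PP.cur (VE (h0 * 0) 3 κ (h0 * x) (eng.v x) (h0 * (3 / 40)) (tnt (h0 * x) (3 / 10)) (tbl tK x) (tbl tL x) (tbl (smT h0⁻¹ tC) x)) 1 3 3 4 6 (-1) (-1) :=
  (sideB hx hx').bothA (thrB hx hx') (en_pos (hx1 hx).le) (Or.inr rfl) (Or.inr rfl) fun y y' F =>
    bothA_cert (s1 := false) (s2 := false) rfl hκ (en_pos (hx1 hx).le) (esg_rng (hx1 hx).le (hx2 hx').le).1 (mo_v x) covB41 covB63 hx hx'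
        Pool.Agent.Strip051.G.I6050_6500.Tab.C.BA46.c_mm_133 noCut_EA noExt_EA F trivial trivial

theorem BA46_mm_202 {κ x : ℝ} (hκ : κ * h0 = ken x) (hx : ((649613803 : ℕ) : ℝ) / S ≤ x) (hx' : x ≤ (((649613803 : ℕ) : ℝ) + (48318383 : ℕ)) / S) :
    TriA PP.cur (VE (h0 * 0) 3 κ (h0 * x) (eng.v x) (h0 * (3 / 40)) (tnt (h0 * x) (3 / 10)) (tbl tK x) (tbl tL x) (tbl (smT h0⁻¹ tC) x)) 2 0 2 4 6 (-1) (-1) :=
  (sideB hx hx').bothA (thrB hx hx') (en_pos (hx1 hx).le) (Or.inr rfl) (Or.inr rfl) fun y y' F =>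
    (lt_or_ge (h0 * y) 1).elim
      (fun h => bothA_cert (s1 := false) (s2 := false) rfl hκ (en_pos (hx1 hx).le) (esg_rng (hx1 hx).le (hx2 hx').le).1 (mo_v x) covB42a covB60 hx hx'
        Pool.Agent.Strip051.G.I6050_6500.Tab.C.BA46.c_mm_202_a noCut_EA noExt_EA F h trivial)
      (fun h => bothA_cert (s1 := false) (s2 := false) rfl hκ (en_pos (hx1 hx).le) (esg_rng (hx1 hx).le (hx2 hx').le).1 (mo_v x) covB42b covB60 hx hx'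
        Pool.Agent.Strip051.G.I6050_6500.Tab.C.BA46.c_mm_202_b noCut_EA noExt_EA F h trivial)

theorem BA46_mm_203 {κ x : ℝ} (hκ : κ * h0 = ken x) (hx : ((649613803 : ℕ) : ℝ) / S ≤ x) (hx' : x ≤ (((649613803 : ℕ) : ℝ) + (48318383 : ℕ)) / S) :
    TriA PP.cur (VE (h0 * 0) 3 κ (h0 * x) (eng.v x) (h0 * (3 / 40)) (tnt (h0 * x) (3 / 10)) (tbl tK x) (tbl tL x) (tbl (smT h0⁻¹ tC) x)) 2 0 3 4 6 (-1) (-1) :=
  (sideB hx hx').bothA (thrB hx hx') (en_pos (hx1 hx).le) (Or.inr rfl) (Or.inr rfl) fun y y' F =>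
    (lt_or_ge (h0 * y) 1).elim
      (fun h => bothA_cert (s1 := false) (s2 := false) rfl hκ (en_pos (hx1 hx).le) (esg_rng (hx1 hx).le (hx2 hx').le).1 (mo_v x) covB42a covB60 hx hx'
        Pool.Agent.Strip051.G.I6050_6500.Tab.C.BA46.c_mm_203_a noCut_EA noExt_EA F h trivial)
      (fun h => bothA_cert (s1 := false) (s2 := false) rfl hκ (en_pos (hx1 hx).le) (esg_rng (hx1 hx).le (hx2 hx').le).1 (mo_v x) covB42b covB60 hx hx'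
        Pool.Agent.Strip051.G.I6050_6500.Tab.C.BA46.c_mm_203_b noCut_EA noExt_EA F h trivial)

theorem BA46_mm_213 {κ x : ℝ} (hκ : κ * h0 = ken x) (hx : ((649613803 : ℕ) : ℝ) / S ≤ x) (hx' : x ≤ (((649613803 : ℕ) : ℝ) + (48318383 : ℕ)) / S) :
    TriA PP.cur (VE (h0 * 0) 3 κ (h0 * x) (eng.v x) (h0 * (3 / 40)) (tnt (h0 * x) (3 / 10)) (tbl tK x) (tbl tL x) (tbl (smT h0⁻¹ tC) x)) 2 1 3 4 6 (-1) (-1) :=
  (sideB hx hx').bothA (thrB hx hx') (en_pos (hx1 hx).le) (Or.inr rfl) (Or.inr rfl) fun y y' F =>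
    (lt_or_ge (h0 * y) 1).elim
      (fun h => bothA_cert (s1 := false) (s2 := false) rfl hκ (en_pos (hx1 hx).le) (esg_rng (hx1 hx).le (hx2 hx').le).1 (mo_v x) covB42a covB61 hx hx'
        Pool.Agent.Strip051.G.I6050_6500.Tab.C.BA46.c_mm_213_a noCut_EA noExt_EA F h trivial)
      (fun h => bothA_cert (s1 := false) (s2 := false) rfl hκ (en_pos (hx1 hx).le) (esg_rng (hx1 hx).le (hx2 hx').le).1 (mo_v x) covB42b covB61 hx hx'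
        Pool.Agent.Strip051.G.I6050_6500.Tab.C.BA46.c_mm_213_b noCut_EA noExt_EA F h trivial)

theorem BA46_mm_303 {κ x : ℝ} (hκ : κ * h0 = ken x) (hx : ((649613803 : ℕ) : ℝ) / S ≤ x) (hx' : x ≤ (((649613803 : ℕ) : ℝ) + (48318383 : ℕ)) / S) :
    TriA PP.cur (VE (h0 * 0) 3 κ (h0 * x) (eng.v x) (h0 * (3 / 40)) (tnt (h0 * x) (3 / 10)) (tbl tK x) (tbl tL x) (tbl (smT h0⁻¹ tC) x)) 3 0 3 4 6 (-1) (-1) :=
  (sideB hx hx').bothA (thrB hx hx') (en_pos (hx1 hx).le) (Or.inr rfl) (Or.inr rfl) fun y y' F =>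
    bothA_cert (s1 := false) (s2 := false) rfl hκ (en_pos (hx1 hx).le) (esg_rng (hx1 hx).le (hx2 hx').le).1 (mo_v x) covB43 covB60 hx hx'
        Pool.Agent.Strip051.G.I6050_6500.Tab.C.BA46.c_mm_303 noCut_EA noExt_EA F trivial trivial

theorem BA46_mm_313 {κ x : ℝ} (hκ : κ * h0 = ken x) (hx : ((649613803 : ℕ) : ℝ) / S ≤ x) (hx' : x ≤ (((649613803 : ℕ) : ℝ) + (48318383 : ℕ)) / S) :
    TriA PP.cur (VE (h0 * 0) 3 κ (h0 * x) (eng.v x) (h0 * (3 / 40)) (tnt (h0 * x) (3 / 10)) (tbl tK x) (tbl tL x) (tbl (smT h0⁻¹ tC) x)) 3 1 3 4 6 (-1) (-1) :=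
  (sideB hx hx').bothA (thrB hx hx') (en_pos (hx1 hx).le) (Or.inr rfl) (Or.inr rfl) fun y y' F =>
    bothA_cert (s1 := false) (s2 := false) rfl hκ (en_pos (hx1 hx).le) (esg_rng (hx1 hx).le (hx2 hx').le).1 (mo_v x) covB43 covB61 hx hx'
        Pool.Agent.Strip051.G.I6050_6500.Tab.C.BA46.c_mm_313 noCut_EA noExt_EA F trivial trivial

theorem BA46 {κ x : ℝ} (hκ : κ * h0 = ken x) (hx : ((649613803 : ℕ) : ℝ) / S ≤ x) (hx' : x ≤ (((649613803 : ℕ) : ℝ) + (48318383 : ℕ)) / S) : AllTA PP.cur (VE (h0 * 0) 3 κ (h0 * x) (eng.v x) (h0 * (3 / 40)) (tnt (h0 * x) (3 / 10)) (tbl tK x) (tbl tL x) (tbl (smT h0⁻¹ tC) x)) 4 6 where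
  pp := all17 (Q := fun a b c => TriA PP.cur (VE (h0 * 0) 3 κ (h0 * x) (eng.v x) (h0 * (3 / 40)) (tnt (h0 * x) (3 / 10)) (tbl tK x) (tbl tL x) (tbl (smT h0⁻¹ tC) x)) a b c 4 6 1 1)
    (BA46_pp_001 hκ hx hx') (BA46_pp_011 hκ hx hx') (BA46_pp_012 hκ hx hx') (BA46_pp_022 hκ hx hx') (BA46_pp_023 hκ hx hx') (BA46_pp_033 hκ hx hx') (BA46_pp_101 hκ hx hx') (BA46_pp_102 hκ hx hx') (BA46_pp_112 hκ hx hx') (BA46_pp_113 hκ hx hx') (BA46_pp_123 hκ hx hx') (BA46_pp_133 hκ hx hx') (BA46_pp_202 hκ hx hx') (BA46_pp_203 hκ hx hx') (BA46_pp_213 hκ hx hx') (BA46_pp_303 hκ hx hx') (BA46_pp_313 hκ hx hx')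
  pm := all17 (Q := fun a b c => TriA PP.cur (VE (h0 * 0) 3 κ (h0 * x) (eng.v x) (h0 * (3 / 40)) (tnt (h0 * x) (3 / 10)) (tbl tK x) (tbl tL x) (tbl (smT h0⁻¹ tC) x)) a b c 4 6 1 (-1))
    (BA46_pm_001 hκ hx hx') (BA46_pm_011 hκ hx hx') (BA46_pm_012 hκ hx hx') (BA46_pm_022 hκ hx hx') (BA46_pm_023 hκ hx hx') (BA46_pm_033 hκ hx hx') (BA46_pm_101 hκ hx hx') (BA46_pm_102 hκ hx hx') (BA46_pm_112 hκ hx hx') (BA46_pm_113 hκ hx hx') (BA46_pm_123 hκ hx hx') (BA46_pm_133 hκ hx hx') (BA46_pm_202 hκ hx hx') (BA46_pm_203 hκ hx hx') (BA46_pm_213 hκ hx hx') (BA46_pm_303 hκ hx hx') (BA46_pm_313 hκ hx hx')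
  mm := all17 (Q := fun a b c => TriA PP.cur (VE (h0 * 0) 3 κ (h0 * x) (eng.v x) (h0 * (3 / 40)) (tnt (h0 * x) (3 / 10)) (tbl tK x) (tbl tL x) (tbl (smT h0⁻¹ tC) x)) a b c 4 6 (-1) (-1))
    (BA46_mm_001 hκ hx hx') (BA46_mm_011 hκ hx hx') (BA46_mm_012 hκ hx hx') (BA46_mm_022 hκ hx hx') (BA46_mm_023 hκ hx hx') (BA46_mm_033 hκ hx hx') (BA46_mm_101 hκ hx hx') (BA46_mm_102 hκ hx hx') (BA46_mm_112 hκ hx hx') (BA46_mm_113 hκ hx hx') (BA46_mm_123 hκ hx hx') (BA46_mm_133 hκ hx hx') (BA46_mm_202 hκ hx hx') (BA46_mm_203 hκ hx hx') (BA46_mm_213 hκ hx hx') (BA46_mm_303 hκ hx hx') (BA46_mm_313 hκ hx hx')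

theorem BA47_pp_001 {κ x : ℝ} (hκ : κ * h0 = ken x) (hx : ((649613803 : ℕ) : ℝ) / S ≤ x) (hx' : x ≤ (((649613803 : ℕ) : ℝ) + (48318383 : ℕ)) / S) :
    TriA PP.cur (VE (h0 * 0) 3 κ (h0 * x) (eng.v x) (h0 * (3 / 40)) (tnt (h0 * x) (3 / 10)) (tbl tK x) (tbl tL x) (tbl (smT h0⁻¹ tC) x)) 0 0 1 4 7 1 1 :=
  (sideB hx hx').bothA (thrB hx hx') (en_pos (hx1 hx).le) (Or.inl rfl) (Or.inl rfl) fun y y' F =>
    bothA_cert (s1 := true) (s2 := true) rfl hκ (en_pos (hx1 hx).le) (esg_rng (hx1 hx).le (hx2 hx').le).1 (mo_v x) covB40 covB70 hx hx'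
        Pool.Agent.Strip051.G.I6050_6500.Tab.C.BA47.c_pp_001 noCut_EA noExt_EA F trivial trivial

theorem BA47_pp_011 {κ x : ℝ} (hκ : κ * h0 = ken x) (hx : ((649613803 : ℕ) : ℝ) / S ≤ x) (hx' : x ≤ (((649613803 : ℕ) : ℝ) + (48318383 : ℕ)) / S) :
    TriA PP.cur (VE (h0 * 0) 3 κ (h0 * x) (eng.v x) (h0 * (3 / 40)) (tnt (h0 * x) (3 / 10)) (tbl tK x) (tbl tL x) (tbl (smT h0⁻¹ tC) x)) 0 1 1 4 7 1 1 :=
  (sideB hx hx').bothA (thrB hx hx') (en_pos (hx1 hx).le) (Or.inl rfl) (Or.inl rfl) fun y y' F =>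
    bothA_cert (s1 := true) (s2 := true) rfl hκ (en_pos (hx1 hx).le) (esg_rng (hx1 hx).le (hx2 hx').le).1 (mo_v x) covB40 covB71 hx hx'
        Pool.Agent.Strip051.G.I6050_6500.Tab.C.BA47.c_pp_011 noCut_EA noExt_EA F trivial trivial

theorem BA47_pp_012 {κ x : ℝ} (hκ : κ * h0 = ken x) (hx : ((649613803 : ℕ) : ℝ) / S ≤ x) (hx' : x ≤ (((649613803 : ℕ) : ℝ) + (48318383 : ℕ)) / S) :
    TriA PP.cur (VE (h0 * 0) 3 κ (h0 * x) (eng.v x) (h0 * (3 / 40)) (tnt (h0 * x) (3 / 10)) (tbl tK x) (tbl tL x) (tbl (smT h0⁻¹ tC) x)) 0 1 2 4 7 1 1 :=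
  (sideB hx hx').bothA (thrB hx hx') (en_pos (hx1 hx).le) (Or.inl rfl) (Or.inl rfl) fun y y' F =>
    bothA_cert (s1 := true) (s2 := true) rfl hκ (en_pos (hx1 hx).le) (esg_rng (hx1 hx).le (hx2 hx').le).1 (mo_v x) covB40 covB71 hx hx'
        Pool.Agent.Strip051.G.I6050_6500.Tab.C.BA47.c_pp_012 noCut_EA noExt_EA F trivial trivial

theorem BA47_pp_022 {κ x : ℝ} (hκ : κ * h0 = ken x) (hx : ((649613803 : ℕ) : ℝ) / S ≤ x) (hx' : x ≤ (((649613803 : ℕ) : ℝ) + (48318383 : ℕ)) / S) :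
    TriA PP.cur (VE (h0 * 0) 3 κ (h0 * x) (eng.v x) (h0 * (3 / 40)) (tnt (h0 * x) (3 / 10)) (tbl tK x) (tbl tL x) (tbl (smT h0⁻¹ tC) x)) 0 2 2 4 7 1 1 :=
  (sideB hx hx').bothA (thrB hx hx') (en_pos (hx1 hx).le) (Or.inl rfl) (Or.inl rfl) fun y y' F =>
    bothA_cert (s1 := true) (s2 := true) rfl hκ (en_pos (hx1 hx).le) (esg_rng (hx1 hx).le (hx2 hx').le).1 (mo_v x) covB40 covB72 hx hx'
        Pool.Agent.Strip051.G.I6050_6500.Tab.C.BA47.c_pp_022 noCut_EA noExt_EA F trivial trivial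

theorem BA47_pp_023 {κ x : ℝ} (hκ : κ * h0 = ken x) (hx : ((649613803 : ℕ) : ℝ) / S ≤ x) (hx' : x ≤ (((649613803 : ℕ) : ℝ) + (48318383 : ℕ)) / S) :
    TriA PP.cur (VE (h0 * 0) 3 κ (h0 * x) (eng.v x) (h0 * (3 / 40)) (tnt (h0 * x) (3 / 10)) (tbl tK x) (tbl tL x) (tbl (smT h0⁻¹ tC) x)) 0 2 3 4 7 1 1 :=
  (sideB hx hx').bothA (thrB hx hx') (en_pos (hx1 hx).le) (Or.inl rfl) (Or.inl rfl) fun y y' F =>
    bothA_cert (s1 := true) (s2 := true) rfl hκ (en_pos (hx1 hx).le) (esg_rng (hx1 hx).le (hx2 hx').le).1 (mo_v x) covB40 covB72 hx hx'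
        Pool.Agent.Strip051.G.I6050_6500.Tab.C.BA47.c_pp_023 noCut_EA noExt_EA F trivial trivial

theorem BA47_pp_033 {κ x : ℝ} (hκ : κ * h0 = ken x) (hx : ((649613803 : ℕ) : ℝ) / S ≤ x) (hx' : x ≤ (((649613803 : ℕ) : ℝ) + (48318383 : ℕ)) / S) :
    TriA PP.cur (VE (h0 * 0) 3 κ (h0 * x) (eng.v x) (h0 * (3 / 40)) (tnt (h0 * x) (3 / 10)) (tbl tK x) (tbl tL x) (tbl (smT h0⁻¹ tC) x)) 0 3 3 4 7 1 1 :=
  (sideB hx hx').bothA (thrB hx hx') (en_pos (hx1 hx).le) (Or.inl rfl) (Or.inl rfl) fun y y' F =>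
    bothA_cert (s1 := true) (s2 := true) rfl hκ (en_pos (hx1 hx).le) (esg_rng (hx1 hx).le (hx2 hx').le).1 (mo_v x) covB40 covB73 hx hx'
        Pool.Agent.Strip051.G.I6050_6500.Tab.C.BA47.c_pp_033 noCut_EA noExt_EA F trivial trivial

theorem BA47_pp_101 {κ x : ℝ} (hκ : κ * h0 = ken x) (hx : ((649613803 : ℕ) : ℝ) / S ≤ x) (hx' : x ≤ (((649613803 : ℕ) : ℝ) + (48318383 : ℕ)) / S) :
    TriA PP.cur (VE (h0 * 0) 3 κ (h0 * x) (eng.v x) (h0 * (3 / 40)) (tnt (h0 * x) (3 / 10)) (tbl tK x) (tbl tL x) (tbl (smT h0⁻¹ tC) x)) 1 0 1 4 7 1 1 :=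
  (sideB hx hx').bothA (thrB hx hx') (en_pos (hx1 hx).le) (Or.inl rfl) (Or.inl rfl) fun y y' F =>
    bothA_cert (s1 := true) (s2 := true) rfl hκ (en_pos (hx1 hx).le) (esg_rng (hx1 hx).le (hx2 hx').le).1 (mo_v x) covB41 covB70 hx hx'
        Pool.Agent.Strip051.G.I6050_6500.Tab.C.BA47.c_pp_101 noCut_EA noExt_EA F trivial trivial

theorem BA47_pp_102 {κ x : ℝ} (hκ : κ * h0 = ken x) (hx : ((649613803 : ℕ) : ℝ) / S ≤ x) (hx' : x ≤ (((649613803 : ℕ) : ℝ) + (48318383 : ℕ)) / S) :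
    TriA PP.cur (VE (h0 * 0) 3 κ (h0 * x) (eng.v x) (h0 * (3 / 40)) (tnt (h0 * x) (3 / 10)) (tbl tK x) (tbl tL x) (tbl (smT h0⁻¹ tC) x)) 1 0 2 4 7 1 1 :=
  (sideB hx hx').bothA (thrB hx hx') (en_pos (hx1 hx).le) (Or.inl rfl) (Or.inl rfl) fun y y' F =>
    bothA_cert (s1 := true) (s2 := true) rfl hκ (en_pos (hx1 hx).le) (esg_rng (hx1 hx).le (hx2 hx').le).1 (mo_v x) covB41 covB70 hx hx'
        Pool.Agent.Strip051.G.I6050_6500.Tab.C.BA47.c_pp_102 noCut_EA noExt_EA F trivial trivial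

theorem BA47_pp_112 {κ x : ℝ} (hκ : κ * h0 = ken x) (hx : ((649613803 : ℕ) : ℝ) / S ≤ x) (hx' : x ≤ (((649613803 : ℕ) : ℝ) + (48318383 : ℕ)) / S) :
    TriA PP.cur (VE (h0 * 0) 3 κ (h0 * x) (eng.v x) (h0 * (3 / 40)) (tnt (h0 * x) (3 / 10)) (tbl tK x) (tbl tL x) (tbl (smT h0⁻¹ tC) x)) 1 1 2 4 7 1 1 :=
  (sideB hx hx').bothA (thrB hx hx') (en_pos (hx1 hx).le) (Or.inl rfl) (Or.inl rfl) fun y y' F =>
    bothA_cert (s1 := true) (s2 := true) rfl hκ (en_pos (hx1 hx).le) (esg_rng (hx1 hx).le (hx2 hx').le).1 (mo_v x) covB41 covB71 hx hx'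
        Pool.Agent.Strip051.G.I6050_6500.Tab.C.BA47.c_pp_112 noCut_EA noExt_EA F trivial trivial

theorem BA47_pp_113 {κ x : ℝ} (hκ : κ * h0 = ken x) (hx : ((649613803 : ℕ) : ℝ) / S ≤ x) (hx' : x ≤ (((649613803 : ℕ) : ℝ) + (48318383 : ℕ)) / S) :
    TriA PP.cur (VE (h0 * 0) 3 κ (h0 * x) (eng.v x) (h0 * (3 / 40)) (tnt (h0 * x) (3 / 10)) (tbl tK x) (tbl tL x) (tbl (smT h0⁻¹ tC) x)) 1 1 3 4 7 1 1 :=
  (sideB hx hx').bothA (thrB hx hx') (en_pos (hx1 hx).le) (Or.inl rfl) (Or.inl rfl) fun y y' F =>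
    bothA_cert (s1 := true) (s2 := true) rfl hκ (en_pos (hx1 hx).le) (esg_rng (hx1 hx).le (hx2 hx').le).1 (mo_v x) covB41 covB71 hx hx'
        Pool.Agent.Strip051.G.I6050_6500.Tab.C.BA47.c_pp_113 noCut_EA noExt_EA F trivial trivial

theorem BA47_pp_123 {κ x : ℝ} (hκ : κ * h0 = ken x) (hx : ((649613803 : ℕ) : ℝ) / S ≤ x) (hx' : x ≤ (((649613803 : ℕ) : ℝ) + (48318383 : ℕ)) / S) :
    TriA PP.cur (VE (h0 * 0) 3 κ (h0 * x) (eng.v x) (h0 * (3 / 40)) (tnt (h0 * x) (3 / 10)) (tbl tK x) (tbl tL x) (tbl (smT h0⁻¹ tC) x)) 1 2 3 4 7 1 1 :=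
  (sideB hx hx').bothA (thrB hx hx') (en_pos (hx1 hx).le) (Or.inl rfl) (Or.inl rfl) fun y y' F =>
    bothA_cert (s1 := true) (s2 := true) rfl hκ (en_pos (hx1 hx).le) (esg_rng (hx1 hx).le (hx2 hx').le).1 (mo_v x) covB41 covB72 hx hx'
        Pool.Agent.Strip051.G.I6050_6500.Tab.C.BA47.c_pp_123 noCut_EA noExt_EA F trivial trivial

theorem BA47_pp_133 {κ x : ℝ} (hκ : κ * h0 = ken x) (hx : ((649613803 : ℕ) : ℝ) / S ≤ x) (hx' : x ≤ (((649613803 : ℕ) : ℝ) + (48318383 : ℕ)) / S) :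
    TriA PP.cur (VE (h0 * 0) 3 κ (h0 * x) (eng.v x) (h0 * (3 / 40)) (tnt (h0 * x) (3 / 10)) (tbl tK x) (tbl tL x) (tbl (smT h0⁻¹ tC) x)) 1 3 3 4 7 1 1 :=
  (sideB hx hx').bothA (thrB hx hx') (en_pos (hx1 hx).le) (Or.inl rfl) (Or.inl rfl) fun y y' F =>
    bothA_cert (s1 := true) (s2 := true) rfl hκ (en_pos (hx1 hx).le) (esg_rng (hx1 hx).le (hx2 hx').le).1 (mo_v x) covB41 covB73 hx hx'
        Pool.Agent.Strip051.G.I6050_6500.Tab.C.BA47.c_pp_133 noCut_EA noExt_EA F trivial trivial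

theorem BA47_pp_202 {κ x : ℝ} (hκ : κ * h0 = ken x) (hx : ((649613803 : ℕ) : ℝ) / S ≤ x) (hx' : x ≤ (((649613803 : ℕ) : ℝ) + (48318383 : ℕ)) / S) :
    TriA PP.cur (VE (h0 * 0) 3 κ (h0 * x) (eng.v x) (h0 * (3 / 40)) (tnt (h0 * x) (3 / 10)) (tbl tK x) (tbl tL x) (tbl (smT h0⁻¹ tC) x)) 2 0 2 4 7 1 1 :=
  (sideB hx hx').bothA (thrB hx hx') (en_pos (hx1 hx).le) (Or.inl rfl) (Or.inl rfl) fun y y' F =>
    (lt_or_ge (h0 * y) 1).elim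
      (fun h => bothA_cert (s1 := true) (s2 := true) rfl hκ (en_pos (hx1 hx).le) (esg_rng (hx1 hx).le (hx2 hx').le).1 (mo_v x) covB42a covB70 hx hx'
        Pool.Agent.Strip051.G.I6050_6500.Tab.C.BA47.c_pp_202_a noCut_EA noExt_EA F h trivial)
      (fun h => bothA_cert (s1 := true) (s2 := true) rfl hκ (en_pos (hx1 hx).le) (esg_rng (hx1 hx).le (hx2 hx').le).1 (mo_v x) covB42b covB70 hx hx'
        Pool.Agent.Strip051.G.I6050_6500.Tab.C.BA47.c_pp_202_b noCut_EA noExt_EA F h trivial)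

theorem BA47_pp_203 {κ x : ℝ} (hκ : κ * h0 = ken x) (hx : ((649613803 : ℕ) : ℝ) / S ≤ x) (hx' : x ≤ (((649613803 : ℕ) : ℝ) + (48318383 : ℕ)) / S) :
    TriA PP.cur (VE (h0 * 0) 3 κ (h0 * x) (eng.v x) (h0 * (3 / 40)) (tnt (h0 * x) (3 / 10)) (tbl tK x) (tbl tL x) (tbl (smT h0⁻¹ tC) x)) 2 0 3 4 7 1 1 :=
  (sideB hx hx').bothA (thrB hx hx') (en_pos (hx1 hx).le) (Or.inl rfl) (Or.inl rfl) fun y y' F =>
    (lt_or_ge (h0 * y) 1).elim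
      (fun h => bothA_cert (s1 := true) (s2 := true) rfl hκ (en_pos (hx1 hx).le) (esg_rng (hx1 hx).le (hx2 hx').le).1 (mo_v x) covB42a covB70 hx hx'
        Pool.Agent.Strip051.G.I6050_6500.Tab.C.BA47.c_pp_203_a noCut_EA noExt_EA F h trivial)
      (fun h => bothA_cert (s1 := true) (s2 := true) rfl hκ (en_pos (hx1 hx).le) (esg_rng (hx1 hx).le (hx2 hx').le).1 (mo_v x) covB42b covB70 hx hx'
        Pool.Agent.Strip051.G.I6050_6500.Tab.C.BA47.c_pp_203_b noCut_EA noExt_EA F h trivial)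

theorem BA47_pp_213 {κ x : ℝ} (hκ : κ * h0 = ken x) (hx : ((649613803 : ℕ) : ℝ) / S ≤ x) (hx' : x ≤ (((649613803 : ℕ) : ℝ) + (48318383 : ℕ)) / S) :
    TriA PP.cur (VE (h0 * 0) 3 κ (h0 * x) (eng.v x) (h0 * (3 / 40)) (tnt (h0 * x) (3 / 10)) (tbl tK x) (tbl tL x) (tbl (smT h0⁻¹ tC) x)) 2 1 3 4 7 1 1 :=
  (sideB hx hx').bothA (thrB hx hx') (en_pos (hx1 hx).le) (Or.inl rfl) (Or.inl rfl) fun y y' F =>
    (lt_or_ge (h0 * y) 1).elim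
      (fun h => bothA_cert (s1 := true) (s2 := true) rfl hκ (en_pos (hx1 hx).le) (esg_rng (hx1 hx).le (hx2 hx').le).1 (mo_v x) covB42a covB71 hx hx'
        Pool.Agent.Strip051.G.I6050_6500.Tab.C.BA47.c_pp_213_a noCut_EA noExt_EA F h trivial)
      (fun h => bothA_cert (s1 := true) (s2 := true) rfl hκ (en_pos (hx1 hx).le) (esg_rng (hx1 hx).le (hx2 hx').le).1 (mo_v x) covB42b covB71 hx hx'
        Pool.Agent.Strip051.G.I6050_6500.Tab.C.BA47.c_pp_213_b noCut_EA noExt_EA F h trivial)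

theorem BA47_pp_303 {κ x : ℝ} (hκ : κ * h0 = ken x) (hx : ((649613803 : ℕ) : ℝ) / S ≤ x) (hx' : x ≤ (((649613803 : ℕ) : ℝ) + (48318383 : ℕ)) / S) :
    TriA PP.cur (VE (h0 * 0) 3 κ (h0 * x) (eng.v x) (h0 * (3 / 40)) (tnt (h0 * x) (3 / 10)) (tbl tK x) (tbl tL x) (tbl (smT h0⁻¹ tC) x)) 3 0 3 4 7 1 1 :=
  (sideB hx hx').bothA (thrB hx hx') (en_pos (hx1 hx).le) (Or.inl rfl) (Or.inl rfl) fun y y' F =>
    bothA_cert (s1 := true) (s2 := true) rfl hκ (en_pos (hx1 hx).le) (esg_rng (hx1 hx).le (hx2 hx').le).1 (mo_v x) covB43 covB70 hx hx'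
        Pool.Agent.Strip051.G.I6050_6500.Tab.C.BA47.c_pp_303 noCut_EA noExt_EA F trivial trivial

theorem BA47_pp_313 {κ x : ℝ} (hκ : κ * h0 = ken x) (hx : ((649613803 : ℕ) : ℝ) / S ≤ x) (hx' : x ≤ (((649613803 : ℕ) : ℝ) + (48318383 : ℕ)) / S) :
    TriA PP.cur (VE (h0 * 0) 3 κ (h0 * x) (eng.v x) (h0 * (3 / 40)) (tnt (h0 * x) (3 / 10)) (tbl tK x) (tbl tL x) (tbl (smT h0⁻¹ tC) x)) 3 1 3 4 7 1 1 :=
  (sideB hx hx').bothA (thrB hx hx') (en_pos (hx1 hx).le) (Or.inl rfl) (Or.inl rfl) fun y y' F =>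
    bothA_cert (s1 := true) (s2 := true) rfl hκ (en_pos (hx1 hx).le) (esg_rng (hx1 hx).le (hx2 hx').le).1 (mo_v x) covB43 covB71 hx hx'
        Pool.Agent.Strip051.G.I6050_6500.Tab.C.BA47.c_pp_313 noCut_EA noExt_EA F trivial trivial

theorem BA47_pm_001 {κ x : ℝ} (hκ : κ * h0 = ken x) (hx : ((649613803 : ℕ) : ℝ) / S ≤ x) (hx' : x ≤ (((649613803 : ℕ) : ℝ) + (48318383 : ℕ)) / S) :
    TriA PP.cur (VE (h0 * 0) 3 κ (h0 * x) (eng.v x) (h0 * (3 / 40)) (tnt (h0 * x) (3 / 10)) (tbl tK x) (tbl tL x) (tbl (smT h0⁻¹ tC) x)) 0 0 1 4 7 1 (-1) :=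
  (sideB hx hx').bothA (thrB hx hx') (en_pos (hx1 hx).le) (Or.inl rfl) (Or.inr rfl) fun y y' F =>
    bothA_cert (s1 := true) (s2 := false) rfl hκ (en_pos (hx1 hx).le) (esg_rng (hx1 hx).le (hx2 hx').le).1 (mo_v x) covB40 covB70 hx hx'
        Pool.Agent.Strip051.G.I6050_6500.Tab.C.BA47.c_pm_001 noCut_EA noExt_EA F trivial trivial

theorem BA47_pm_011 {κ x : ℝ} (hκ : κ * h0 = ken x) (hx : ((649613803 : ℕ) : ℝ) / S ≤ x) (hx' : x ≤ (((649613803 : ℕ) : ℝ) + (48318383 : ℕ)) / S) :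
    TriA PP.cur (VE (h0 * 0) 3 κ (h0 * x) (eng.v x) (h0 * (3 / 40)) (tnt (h0 * x) (3 / 10)) (tbl tK x) (tbl tL x) (tbl (smT h0⁻¹ tC) x)) 0 1 1 4 7 1 (-1) :=
  (sideB hx hx').bothA (thrB hx hx') (en_pos (hx1 hx).le) (Or.inl rfl) (Or.inr rfl) fun y y' F =>
    bothA_cert (s1 := true) (s2 := false) rfl hκ (en_pos (hx1 hx).le) (esg_rng (hx1 hx).le (hx2 hx').le).1 (mo_v x) covB40 covB71 hx hx'
        Pool.Agent.Strip051.G.I6050_6500.Tab.C.BA47.c_pm_011 (cutEA_cons (Pool.Agent.Strip051.G.I6050_6500.Tab.altB_A011R_47 hκ hx hx') cutEA_nil) noExt_EA F trivial trivial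

theorem BA47_pm_012 {κ x : ℝ} (hκ : κ * h0 = ken x) (hx : ((649613803 : ℕ) : ℝ) / S ≤ x) (hx' : x ≤ (((649613803 : ℕ) : ℝ) + (48318383 : ℕ)) / S) :
    TriA PP.cur (VE (h0 * 0) 3 κ (h0 * x) (eng.v x) (h0 * (3 / 40)) (tnt (h0 * x) (3 / 10)) (tbl tK x) (tbl tL x) (tbl (smT h0⁻¹ tC) x)) 0 1 2 4 7 1 (-1) :=
  (sideB hx hx').bothA (thrB hx hx') (en_pos (hx1 hx).le) (Or.inl rfl) (Or.inr rfl) fun y y' F =>
    bothA_cert (s1 := true) (s2 := false) rfl hκ (en_pos (hx1 hx).le) (esg_rng (hx1 hx).le (hx2 hx').le).1 (mo_v x) covB40 covB71 hx hx'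
        Pool.Agent.Strip051.G.I6050_6500.Tab.C.BA47.c_pm_012 (cutEA_cons (Pool.Agent.Strip051.G.I6050_6500.Tab.altB_A012R_47 hκ hx hx') cutEA_nil) noExt_EA F trivial trivial

theorem BA47_pm_022 {κ x : ℝ} (hκ : κ * h0 = ken x) (hx : ((649613803 : ℕ) : ℝ) / S ≤ x) (hx' : x ≤ (((649613803 : ℕ) : ℝ) + (48318383 : ℕ)) / S) :
    TriA PP.cur (VE (h0 * 0) 3 κ (h0 * x) (eng.v x) (h0 * (3 / 40)) (tnt (h0 * x) (3 / 10)) (tbl tK x) (tbl tL x) (tbl (smT h0⁻¹ tC) x)) 0 2 2 4 7 1 (-1) :=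
  (sideB hx hx').bothA (thrB hx hx') (en_pos (hx1 hx).le) (Or.inl rfl) (Or.inr rfl) fun y y' F =>
    bothA_cert (s1 := true) (s2 := false) rfl hκ (en_pos (hx1 hx).le) (esg_rng (hx1 hx).le (hx2 hx').le).1 (mo_v x) covB40 covB72 hx hx'
        Pool.Agent.Strip051.G.I6050_6500.Tab.C.BA47.c_pm_022 noCut_EA noExt_EA F trivial trivial

theorem BA47_pm_023 {κ x : ℝ} (hκ : κ * h0 = ken x) (hx : ((649613803 : ℕ) : ℝ) / S ≤ x) (hx' : x ≤ (((649613803 : ℕ) : ℝ) + (48318383 : ℕ)) / S) :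
    TriA PP.cur (VE (h0 * 0) 3 κ (h0 * x) (eng.v x) (h0 * (3 / 40)) (tnt (h0 * x) (3 / 10)) (tbl tK x) (tbl tL x) (tbl (smT h0⁻¹ tC) x)) 0 2 3 4 7 1 (-1) :=
  (sideB hx hx').bothA (thrB hx hx') (en_pos (hx1 hx).le) (Or.inl rfl) (Or.inr rfl) fun y y' F =>
    bothA_cert (s1 := true) (s2 := false) rfl hκ (en_pos (hx1 hx).le) (esg_rng (hx1 hx).le (hx2 hx').le).1 (mo_v x) covB40 covB72 hx hx'
        Pool.Agent.Strip051.G.I6050_6500.Tab.C.BA47.c_pm_023 noCut_EA noExt_EA F trivial trivial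

theorem BA47_pm_033 {κ x : ℝ} (hκ : κ * h0 = ken x) (hx : ((649613803 : ℕ) : ℝ) / S ≤ x) (hx' : x ≤ (((649613803 : ℕ) : ℝ) + (48318383 : ℕ)) / S) :
    TriA PP.cur (VE (h0 * 0) 3 κ (h0 * x) (eng.v x) (h0 * (3 / 40)) (tnt (h0 * x) (3 / 10)) (tbl tK x) (tbl tL x) (tbl (smT h0⁻¹ tC) x)) 0 3 3 4 7 1 (-1) :=
  (sideB hx hx').bothA (thrB hx hx') (en_pos (hx1 hx).le) (Or.inl rfl) (Or.inr rfl) fun y y' F =>
    bothA_cert (s1 := true) (s2 := false) rfl hκ (en_pos (hx1 hx).le) (esg_rng (hx1 hx).le (hx2 hx').le).1 (mo_v x) covB40 covB73 hx hx'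
        Pool.Agent.Strip051.G.I6050_6500.Tab.C.BA47.c_pm_033 noCut_EA noExt_EA F trivial trivial

theorem BA47_pm_101 {κ x : ℝ} (hκ : κ * h0 = ken x) (hx : ((649613803 : ℕ) : ℝ) / S ≤ x) (hx' : x ≤ (((649613803 : ℕ) : ℝ) + (48318383 : ℕ)) / S) :
    TriA PP.cur (VE (h0 * 0) 3 κ (h0 * x) (eng.v x) (h0 * (3 / 40)) (tnt (h0 * x) (3 / 10)) (tbl tK x) (tbl tL x) (tbl (smT h0⁻¹ tC) x)) 1 0 1 4 7 1 (-1) :=
  (sideB hx hx').bothA (thrB hx hx') (en_pos (hx1 hx).le) (Or.inl rfl) (Or.inr rfl) fun y y' F =>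
    bothA_cert (s1 := true) (s2 := false) rfl hκ (en_pos (hx1 hx).le) (esg_rng (hx1 hx).le (hx2 hx').le).1 (mo_v x) covB41 covB70 hx hx'
        Pool.Agent.Strip051.G.I6050_6500.Tab.C.BA47.c_pm_101 noCut_EA noExt_EA F trivial trivial

theorem BA47_pm_102 {κ x : ℝ} (hκ : κ * h0 = ken x) (hx : ((649613803 : ℕ) : ℝ) / S ≤ x) (hx' : x ≤ (((649613803 : ℕ) : ℝ) + (48318383 : ℕ)) / S) :
    TriA PP.cur (VE (h0 * 0) 3 κ (h0 * x) (eng.v x) (h0 * (3 / 40)) (tnt (h0 * x) (3 / 10)) (tbl tK x) (tbl tL x) (tbl (smT h0⁻¹ tC) x)) 1 0 2 4 7 1 (-1) :=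
  (sideB hx hx').bothA (thrB hx hx') (en_pos (hx1 hx).le) (Or.inl rfl) (Or.inr rfl) fun y y' F =>
    bothA_cert (s1 := true) (s2 := false) rfl hκ (en_pos (hx1 hx).le) (esg_rng (hx1 hx).le (hx2 hx').le).1 (mo_v x) covB41 covB70 hx hx'
        Pool.Agent.Strip051.G.I6050_6500.Tab.C.BA47.c_pm_102 noCut_EA noExt_EA F trivial trivial

theorem BA47_pm_112 {κ x : ℝ} (hκ : κ * h0 = ken x) (hx : ((649613803 : ℕ) : ℝ) / S ≤ x) (hx' : x ≤ (((649613803 : ℕ) : ℝ) + (48318383 : ℕ)) / S) :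
    TriA PP.cur (VE (h0 * 0) 3 κ (h0 * x) (eng.v x) (h0 * (3 / 40)) (tnt (h0 * x) (3 / 10)) (tbl tK x) (tbl tL x) (tbl (smT h0⁻¹ tC) x)) 1 1 2 4 7 1 (-1) :=
  (sideB hx hx').bothA (thrB hx hx') (en_pos (hx1 hx).le) (Or.inl rfl) (Or.inr rfl) fun y y' F =>
    bothA_cert (s1 := true) (s2 := false) rfl hκ (en_pos (hx1 hx).le) (esg_rng (hx1 hx).le (hx2 hx').le).1 (mo_v x) covB41 covB71 hx hx'
        Pool.Agent.Strip051.G.I6050_6500.Tab.C.BA47.c_pm_112 noCut_EA noExt_EA F trivial trivial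

theorem BA47_pm_113 {κ x : ℝ} (hκ : κ * h0 = ken x) (hx : ((649613803 : ℕ) : ℝ) / S ≤ x) (hx' : x ≤ (((649613803 : ℕ) : ℝ) + (48318383 : ℕ)) / S) :
    TriA PP.cur (VE (h0 * 0) 3 κ (h0 * x) (eng.v x) (h0 * (3 / 40)) (tnt (h0 * x) (3 / 10)) (tbl tK x) (tbl tL x) (tbl (smT h0⁻¹ tC) x)) 1 1 3 4 7 1 (-1) :=
  (sideB hx hx').bothA (thrB hx hx') (en_pos (hx1 hx).le) (Or.inl rfl) (Or.inr rfl) fun y y' F =>
    bothA_cert (s1 := true) (s2 := false) rfl hκ (en_pos (hx1 hx).le) (esg_rng (hx1 hx).le (hx2 hx').le).1 (mo_v x) covB41 covB71 hx hx'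
        Pool.Agent.Strip051.G.I6050_6500.Tab.C.BA47.c_pm_113 noCut_EA noExt_EA F trivial trivial

theorem BA47_pm_123 {κ x : ℝ} (hκ : κ * h0 = ken x) (hx : ((649613803 : ℕ) : ℝ) / S ≤ x) (hx' : x ≤ (((649613803 : ℕ) : ℝ) + (48318383 : ℕ)) / S) :
    TriA PP.cur (VE (h0 * 0) 3 κ (h0 * x) (eng.v x) (h0 * (3 / 40)) (tnt (h0 * x) (3 / 10)) (tbl tK x) (tbl tL x) (tbl (smT h0⁻¹ tC) x)) 1 2 3 4 7 1 (-1) :=
  (sideB hx hx').bothA (thrB hx hx') (en_pos (hx1 hx).le) (Or.inl rfl) (Or.inr rfl) fun y y' F =>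
    bothA_cert (s1 := true) (s2 := false) rfl hκ (en_pos (hx1 hx).le) (esg_rng (hx1 hx).le (hx2 hx').le).1 (mo_v x) covB41 covB72 hx hx'
        Pool.Agent.Strip051.G.I6050_6500.Tab.C.BA47.c_pm_123 noCut_EA noExt_EA F trivial trivial

theorem BA47_pm_133 {κ x : ℝ} (hκ : κ * h0 = ken x) (hx : ((649613803 : ℕ) : ℝ) / S ≤ x) (hx' : x ≤ (((649613803 : ℕ) : ℝ) + (48318383 : ℕ)) / S) :
    TriA PP.cur (VE (h0 * 0) 3 κ (h0 * x) (eng.v x) (h0 * (3 / 40)) (tnt (h0 * x) (3 / 10)) (tbl tK x) (tbl tL x) (tbl (smT h0⁻¹ tC) x)) 1 3 3 4 7 1 (-1) :=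
  (sideB hx hx').bothA (thrB hx hx') (en_pos (hx1 hx).le) (Or.inl rfl) (Or.inr rfl) fun y y' F =>
    bothA_cert (s1 := true) (s2 := false) rfl hκ (en_pos (hx1 hx).le) (esg_rng (hx1 hx).le (hx2 hx').le).1 (mo_v x) covB41 covB73 hx hx'
        Pool.Agent.Strip051.G.I6050_6500.Tab.C.BA47.c_pm_133 noCut_EA noExt_EA F trivial trivial

theorem BA47_pm_202 {κ x : ℝ} (hκ : κ * h0 = ken x) (hx : ((649613803 : ℕ) : ℝ) / S ≤ x) (hx' : x ≤ (((649613803 : ℕ) : ℝ) + (48318383 : ℕ)) / S) :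
    TriA PP.cur (VE (h0 * 0) 3 κ (h0 * x) (eng.v x) (h0 * (3 / 40)) (tnt (h0 * x) (3 / 10)) (tbl tK x) (tbl tL x) (tbl (smT h0⁻¹ tC) x)) 2 0 2 4 7 1 (-1) :=
  (sideB hx hx').bothA (thrB hx hx') (en_pos (hx1 hx).le) (Or.inl rfl) (Or.inr rfl) fun y y' F =>
    (lt_or_ge (h0 * y) 1).elim
      (fun h => bothA_cert (s1 := true) (s2 := false) rfl hκ (en_pos (hx1 hx).le) (esg_rng (hx1 hx).le (hx2 hx').le).1 (mo_v x) covB42a covB70 hx hx'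
        Pool.Agent.Strip051.G.I6050_6500.Tab.C.BA47.c_pm_202_a noCut_EA noExt_EA F h trivial)
      (fun h => bothA_cert (s1 := true) (s2 := false) rfl hκ (en_pos (hx1 hx).le) (esg_rng (hx1 hx).le (hx2 hx').le).1 (mo_v x) covB42b covB70 hx hx'
        Pool.Agent.Strip051.G.I6050_6500.Tab.C.BA47.c_pm_202_b noCut_EA noExt_EA F h trivial)

theorem BA47_pm_203 {κ x : ℝ} (hκ : κ * h0 = ken x) (hx : ((649613803 : ℕ) : ℝ) / S ≤ x) (hx' : x ≤ (((649613803 : ℕ) : ℝ) + (48318383 : ℕ)) / S) :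
    TriA PP.cur (VE (h0 * 0) 3 κ (h0 * x) (eng.v x) (h0 * (3 / 40)) (tnt (h0 * x) (3 / 10)) (tbl tK x) (tbl tL x) (tbl (smT h0⁻¹ tC) x)) 2 0 3 4 7 1 (-1) :=
  (sideB hx hx').bothA (thrB hx hx') (en_pos (hx1 hx).le) (Or.inl rfl) (Or.inr rfl) fun y y' F =>
    (lt_or_ge (h0 * y) 1).elim
      (fun h => bothA_cert (s1 := true) (s2 := false) rfl hκ (en_pos (hx1 hx).le) (esg_rng (hx1 hx).le (hx2 hx').le).1 (mo_v x) covB42a covB70 hx hx'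
        Pool.Agent.Strip051.G.I6050_6500.Tab.C.BA47.c_pm_203_a noCut_EA noExt_EA F h trivial)
      (fun h => bothA_cert (s1 := true) (s2 := false) rfl hκ (en_pos (hx1 hx).le) (esg_rng (hx1 hx).le (hx2 hx').le).1 (mo_v x) covB42b covB70 hx hx'
        Pool.Agent.Strip051.G.I6050_6500.Tab.C.BA47.c_pm_203_b noCut_EA noExt_EA F h trivial)

theorem BA47_pm_213 {κ x : ℝ} (hκ : κ * h0 = ken x) (hx : ((649613803 : ℕ) : ℝ) / S ≤ x) (hx' : x ≤ (((649613803 : ℕ) : ℝ) + (48318383 : ℕ)) / S) :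
    TriA PP.cur (VE (h0 * 0) 3 κ (h0 * x) (eng.v x) (h0 * (3 / 40)) (tnt (h0 * x) (3 / 10)) (tbl tK x) (tbl tL x) (tbl (smT h0⁻¹ tC) x)) 2 1 3 4 7 1 (-1) :=
  (sideB hx hx').bothA (thrB hx hx') (en_pos (hx1 hx).le) (Or.inl rfl) (Or.inr rfl) fun y y' F =>
    (lt_or_ge (h0 * y) 1).elim
      (fun h => bothA_cert (s1 := true) (s2 := false) rfl hκ (en_pos (hx1 hx).le) (esg_rng (hx1 hx).le (hx2 hx').le).1 (mo_v x) covB42a covB71 hx hx'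
        Pool.Agent.Strip051.G.I6050_6500.Tab.C.BA47.c_pm_213_a noCut_EA noExt_EA F h trivial)
      (fun h => bothA_cert (s1 := true) (s2 := false) rfl hκ (en_pos (hx1 hx).le) (esg_rng (hx1 hx).le (hx2 hx').le).1 (mo_v x) covB42b covB71 hx hx'
        Pool.Agent.Strip051.G.I6050_6500.Tab.C.BA47.c_pm_213_b noCut_EA noExt_EA F h trivial)

theorem BA47_pm_303 {κ x : ℝ} (hκ : κ * h0 = ken x) (hx : ((649613803 : ℕ) : ℝ) / S ≤ x) (hx' : x ≤ (((649613803 : ℕ) : ℝ) + (48318383 : ℕ)) / S) :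
    TriA PP.cur (VE (h0 * 0) 3 κ (h0 * x) (eng.v x) (h0 * (3 / 40)) (tnt (h0 * x) (3 / 10)) (tbl tK x) (tbl tL x) (tbl (smT h0⁻¹ tC) x)) 3 0 3 4 7 1 (-1) :=
  (sideB hx hx').bothA (thrB hx hx') (en_pos (hx1 hx).le) (Or.inl rfl) (Or.inr rfl) fun y y' F =>
    bothA_cert (s1 := true) (s2 := false) rfl hκ (en_pos (hx1 hx).le) (esg_rng (hx1 hx).le (hx2 hx').le).1 (mo_v x) covB43 covB70 hx hx'
        Pool.Agent.Strip051.G.I6050_6500.Tab.C.BA47.c_pm_303 noCut_EA noExt_EA F trivial trivial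

theorem BA47_pm_313 {κ x : ℝ} (hκ : κ * h0 = ken x) (hx : ((649613803 : ℕ) : ℝ) / S ≤ x) (hx' : x ≤ (((649613803 : ℕ) : ℝ) + (48318383 : ℕ)) / S) :
    TriA PP.cur (VE (h0 * 0) 3 κ (h0 * x) (eng.v x) (h0 * (3 / 40)) (tnt (h0 * x) (3 / 10)) (tbl tK x) (tbl tL x) (tbl (smT h0⁻¹ tC) x)) 3 1 3 4 7 1 (-1) :=
  (sideB hx hx').bothA (thrB hx hx') (en_pos (hx1 hx).le) (Or.inl rfl) (Or.inr rfl) fun y y' F =>
    bothA_cert (s1 := true) (s2 := false) rfl hκ (en_pos (hx1 hx).le) (esg_rng (hx1 hx).le (hx2 hx').le).1 (mo_v x) covB43 covB71 hx hx'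
        Pool.Agent.Strip051.G.I6050_6500.Tab.C.BA47.c_pm_313 noCut_EA noExt_EA F trivial trivial

theorem BA47_mm_001 {κ x : ℝ} (hκ : κ * h0 = ken x) (hx : ((649613803 : ℕ) : ℝ) / S ≤ x) (hx' : x ≤ (((649613803 : ℕ) : ℝ) + (48318383 : ℕ)) / S) :
    TriA PP.cur (VE (h0 * 0) 3 κ (h0 * x) (eng.v x) (h0 * (3 / 40)) (tnt (h0 * x) (3 / 10)) (tbl tK x) (tbl tL x) (tbl (smT h0⁻¹ tC) x)) 0 0 1 4 7 (-1) (-1) :=
  (sideB hx hx').bothA (thrB hx hx') (en_pos (hx1 hx).le) (Or.inr rfl) (Or.inr rfl) fun y y' F =>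
    bothA_cert (s1 := false) (s2 := false) rfl hκ (en_pos (hx1 hx).le) (esg_rng (hx1 hx).le (hx2 hx').le).1 (mo_v x) covB40 covB70 hx hx'
        Pool.Agent.Strip051.G.I6050_6500.Tab.C.BA47.c_mm_001 noCut_EA noExt_EA F trivial trivial

theorem BA47_mm_011 {κ x : ℝ} (hκ : κ * h0 = ken x) (hx : ((649613803 : ℕ) : ℝ) / S ≤ x) (hx' : x ≤ (((649613803 : ℕ) : ℝ) + (48318383 : ℕ)) / S) :
    TriA PP.cur (VE (h0 * 0) 3 κ (h0 * x) (eng.v x) (h0 * (3 / 40)) (tnt (h0 * x) (3 / 10)) (tbl tK x) (tbl tL x) (tbl (smT h0⁻¹ tC) x)) 0 1 1 4 7 (-1) (-1) :=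
  (sideB hx hx').bothA (thrB hx hx') (en_pos (hx1 hx).le) (Or.inr rfl) (Or.inr rfl) fun y y' F =>
    bothA_cert (s1 := false) (s2 := false) rfl hκ (en_pos (hx1 hx).le) (esg_rng (hx1 hx).le (hx2 hx').le).1 (mo_v x) covB40 covB71 hx hx'
        Pool.Agent.Strip051.G.I6050_6500.Tab.C.BA47.c_mm_011 noCut_EA noExt_EA F trivial trivial

theorem BA47_mm_012 {κ x : ℝ} (hκ : κ * h0 = ken x) (hx : ((649613803 : ℕ) : ℝ) / S ≤ x) (hx' : x ≤ (((649613803 : ℕ) : ℝ) + (48318383 : ℕ)) / S) :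
    TriA PP.cur (VE (h0 * 0) 3 κ (h0 * x) (eng.v x) (h0 * (3 / 40)) (tnt (h0 * x) (3 / 10)) (tbl tK x) (tbl tL x) (tbl (smT h0⁻¹ tC) x)) 0 1 2 4 7 (-1) (-1) :=
  (sideB hx hx').bothA (thrB hx hx') (en_pos (hx1 hx).le) (Or.inr rfl) (Or.inr rfl) fun y y' F =>
    bothA_cert (s1 := false) (s2 := false) rfl hκ (en_pos (hx1 hx).le) (esg_rng (hx1 hx).le (hx2 hx').le).1 (mo_v x) covB40 covB71 hx hx'
        Pool.Agent.Strip051.G.I6050_6500.Tab.C.BA47.c_mm_012 noCut_EA noExt_EA F trivial trivial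

theorem BA47_mm_022 {κ x : ℝ} (hκ : κ * h0 = ken x) (hx : ((649613803 : ℕ) : ℝ) / S ≤ x) (hx' : x ≤ (((649613803 : ℕ) : ℝ) + (48318383 : ℕ)) / S) :
    TriA PP.cur (VE (h0 * 0) 3 κ (h0 * x) (eng.v x) (h0 * (3 / 40)) (tnt (h0 * x) (3 / 10)) (tbl tK x) (tbl tL x) (tbl (smT h0⁻¹ tC) x)) 0 2 2 4 7 (-1) (-1) :=
  (sideB hx hx').bothA (thrB hx hx') (en_pos (hx1 hx).le) (Or.inr rfl) (Or.inr rfl) fun y y' F =>
    bothA_cert (s1 := false) (s2 := false) rfl hκ (en_pos (hx1 hx).le) (esg_rng (hx1 hx).le (hx2 hx').le).1 (mo_v x) covB40 covB72 hx hx'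
        Pool.Agent.Strip051.G.I6050_6500.Tab.C.BA47.c_mm_022 noCut_EA noExt_EA F trivial trivial

theorem BA47_mm_023 {κ x : ℝ} (hκ : κ * h0 = ken x) (hx : ((649613803 : ℕ) : ℝ) / S ≤ x) (hx' : x ≤ (((649613803 : ℕ) : ℝ) + (48318383 : ℕ)) / S) :
    TriA PP.cur (VE (h0 * 0) 3 κ (h0 * x) (eng.v x) (h0 * (3 / 40)) (tnt (h0 * x) (3 / 10)) (tbl tK x) (tbl tL x) (tbl (smT h0⁻¹ tC) x)) 0 2 3 4 7 (-1) (-1) :=
  (sideB hx hx').bothA (thrB hx hx') (en_pos (hx1 hx).le) (Or.inr rfl) (Or.inr rfl) fun y y' F =>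
    bothA_cert (s1 := false) (s2 := false) rfl hκ (en_pos (hx1 hx).le) (esg_rng (hx1 hx).le (hx2 hx').le).1 (mo_v x) covB40 covB72 hx hx'
        Pool.Agent.Strip051.G.I6050_6500.Tab.C.BA47.c_mm_023 noCut_EA noExt_EA F trivial trivial

theorem BA47_mm_033 {κ x : ℝ} (hκ : κ * h0 = ken x) (hx : ((649613803 : ℕ) : ℝ) / S ≤ x) (hx' : x ≤ (((649613803 : ℕ) : ℝ) + (48318383 : ℕ)) / S) :
    TriA PP.cur (VE (h0 * 0) 3 κ (h0 * x) (eng.v x) (h0 * (3 / 40)) (tnt (h0 * x) (3 / 10)) (tbl tK x) (tbl tL x) (tbl (smT h0⁻¹ tC) x)) 0 3 3 4 7 (-1) (-1) :=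
  (sideB hx hx').bothA (thrB hx hx') (en_pos (hx1 hx).le) (Or.inr rfl) (Or.inr rfl) fun y y' F =>
    bothA_cert (s1 := false) (s2 := false) rfl hκ (en_pos (hx1 hx).le) (esg_rng (hx1 hx).le (hx2 hx').le).1 (mo_v x) covB40 covB73 hx hx'
        Pool.Agent.Strip051.G.I6050_6500.Tab.C.BA47.c_mm_033 noCut_EA noExt_EA F trivial trivial

theorem BA47_mm_101 {κ x : ℝ} (hκ : κ * h0 = ken x) (hx : ((649613803 : ℕ) : ℝ) / S ≤ x) (hx' : x ≤ (((649613803 : ℕ) : ℝ) + (48318383 : ℕ)) / S) :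
    TriA PP.cur (VE (h0 * 0) 3 κ (h0 * x) (eng.v x) (h0 * (3 / 40)) (tnt (h0 * x) (3 / 10)) (tbl tK x) (tbl tL x) (tbl (smT h0⁻¹ tC) x)) 1 0 1 4 7 (-1) (-1) :=
  (sideB hx hx').bothA (thrB hx hx') (en_pos (hx1 hx).le) (Or.inr rfl) (Or.inr rfl) fun y y' F =>
    bothA_cert (s1 := false) (s2 := false) rfl hκ (en_pos (hx1 hx).le) (esg_rng (hx1 hx).le (hx2 hx').le).1 (mo_v x) covB41 covB70 hx hx'
        Pool.Agent.Strip051.G.I6050_6500.Tab.C.BA47.c_mm_101 noCut_EA noExt_EA F trivial trivial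

theorem BA47_mm_102 {κ x : ℝ} (hκ : κ * h0 = ken x) (hx : ((649613803 : ℕ) : ℝ) / S ≤ x) (hx' : x ≤ (((649613803 : ℕ) : ℝ) + (48318383 : ℕ)) / S) :
    TriA PP.cur (VE (h0 * 0) 3 κ (h0 * x) (eng.v x) (h0 * (3 / 40)) (tnt (h0 * x) (3 / 10)) (tbl tK x) (tbl tL x) (tbl (smT h0⁻¹ tC) x)) 1 0 2 4 7 (-1) (-1) :=
  (sideB hx hx').bothA (thrB hx hx') (en_pos (hx1 hx).le) (Or.inr rfl) (Or.inr rfl) fun y y' F =>
    bothA_cert (s1 := false) (s2 := false) rfl hκ (en_pos (hx1 hx).le) (esg_rng (hx1 hx).le (hx2 hx').le).1 (mo_v x) covB41 covB70 hx hx'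
        Pool.Agent.Strip051.G.I6050_6500.Tab.C.BA47.c_mm_102 noCut_EA noExt_EA F trivial trivial

theorem BA47_mm_112 {κ x : ℝ} (hκ : κ * h0 = ken x) (hx : ((649613803 : ℕ) : ℝ) / S ≤ x) (hx' : x ≤ (((649613803 : ℕ) : ℝ) + (48318383 : ℕ)) / S) :
    TriA PP.cur (VE (h0 * 0) 3 κ (h0 * x) (eng.v x) (h0 * (3 / 40)) (tnt (h0 * x) (3 / 10)) (tbl tK x) (tbl tL x) (tbl (smT h0⁻¹ tC) x)) 1 1 2 4 7 (-1) (-1) :=
  (sideB hx hx').bothA (thrB hx hx') (en_pos (hx1 hx).le) (Or.inr rfl) (Or.inr rfl) fun y y' F =>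
    bothA_cert (s1 := false) (s2 := false) rfl hκ (en_pos (hx1 hx).le) (esg_rng (hx1 hx).le (hx2 hx').le).1 (mo_v x) covB41 covB71 hx hx'
        Pool.Agent.Strip051.G.I6050_6500.Tab.C.BA47.c_mm_112 noCut_EA noExt_EA F trivial trivial

theorem BA47_mm_113 {κ x : ℝ} (hκ : κ * h0 = ken x) (hx : ((649613803 : ℕ) : ℝ) / S ≤ x) (hx' : x ≤ (((649613803 : ℕ) : ℝ) + (48318383 : ℕ)) / S) :
    TriA PP.cur (VE (h0 * 0) 3 κ (h0 * x) (eng.v x) (h0 * (3 / 40)) (tnt (h0 * x) (3 / 10)) (tbl tK x) (tbl tL x) (tbl (smT h0⁻¹ tC) x)) 1 1 3 4 7 (-1) (-1) :=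
  (sideB hx hx').bothA (thrB hx hx') (en_pos (hx1 hx).le) (Or.inr rfl) (Or.inr rfl) fun y y' F =>
    bothA_cert (s1 := false) (s2 := false) rfl hκ (en_pos (hx1 hx).le) (esg_rng (hx1 hx).le (hx2 hx').le).1 (mo_v x) covB41 covB71 hx hx'
        Pool.Agent.Strip051.G.I6050_6500.Tab.C.BA47.c_mm_113 noCut_EA noExt_EA F trivial trivial

theorem BA47_mm_123 {κ x : ℝ} (hκ : κ * h0 = ken x) (hx : ((649613803 : ℕ) : ℝ) / S ≤ x) (hx' : x ≤ (((649613803 : ℕ) : ℝ) + (48318383 : ℕ)) / S) :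
    TriA PP.cur (VE (h0 * 0) 3 κ (h0 * x) (eng.v x) (h0 * (3 / 40)) (tnt (h0 * x) (3 / 10)) (tbl tK x) (tbl tL x) (tbl (smT h0⁻¹ tC) x)) 1 2 3 4 7 (-1) (-1) :=
  (sideB hx hx').bothA (thrB hx hx') (en_pos (hx1 hx).le) (Or.inr rfl) (Or.inr rfl) fun y y' F =>
    bothA_cert (s1 := false) (s2 := false) rfl hκ (en_pos (hx1 hx).le) (esg_rng (hx1 hx).le (hx2 hx').le).1 (mo_v x) covB41 covB72 hx hx'
        Pool.Agent.Strip051.G.I6050_6500.Tab.C.BA47.c_mm_123 noCut_EA noExt_EA F trivial trivial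

theorem BA47_mm_133 {κ x : ℝ} (hκ : κ * h0 = ken x) (hx : ((649613803 : ℕ) : ℝ) / S ≤ x) (hx' : x ≤ (((649613803 : ℕ) : ℝ) + (48318383 : ℕ)) / S) :
    TriA PP.cur (VE (h0 * 0) 3 κ (h0 * x) (eng.v x) (h0 * (3 / 40)) (tnt (h0 * x) (3 / 10)) (tbl tK x) (tbl tL x) (tbl (smT h0⁻¹ tC) x)) 1 3 3 4 7 (-1) (-1) :=
  (sideB hx hx').bothA (thrB hx hx') (en_pos (hx1 hx).le) (Or.inr rfl) (Or.inr rfl) fun y y' F =>
    bothA_cert (s1 := false) (s2 := false) rfl hκ (en_pos (hx1 hx).le) (esg_rng (hx1 hx).le (hx2 hx').le).1 (mo_v x) covB41 covB73 hx hx'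
        Pool.Agent.Strip051.G.I6050_6500.Tab.C.BA47.c_mm_133 noCut_EA noExt_EA F trivial trivial

theorem BA47_mm_202 {κ x : ℝ} (hκ : κ * h0 = ken x) (hx : ((649613803 : ℕ) : ℝ) / S ≤ x) (hx' : x ≤ (((649613803 : ℕ) : ℝ) + (48318383 : ℕ)) / S) :
    TriA PP.cur (VE (h0 * 0) 3 κ (h0 * x) (eng.v x) (h0 * (3 / 40)) (tnt (h0 * x) (3 / 10)) (tbl tK x) (tbl tL x) (tbl (smT h0⁻¹ tC) x)) 2 0 2 4 7 (-1) (-1) :=
  (sideB hx hx').bothA (thrB hx hx') (en_pos (hx1 hx).le) (Or.inr rfl) (Or.inr rfl) fun y y' F =>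
    (lt_or_ge (h0 * y) 1).elim
      (fun h => bothA_cert (s1 := false) (s2 := false) rfl hκ (en_pos (hx1 hx).le) (esg_rng (hx1 hx).le (hx2 hx').le).1 (mo_v x) covB42a covB70 hx hx'
        Pool.Agent.Strip051.G.I6050_6500.Tab.C.BA47.c_mm_202_a noCut_EA noExt_EA F h trivial)
      (fun h => bothA_cert (s1 := false) (s2 := false) rfl hκ (en_pos (hx1 hx).le) (esg_rng (hx1 hx).le (hx2 hx').le).1 (mo_v x) covB42b covB70 hx hx'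
        Pool.Agent.Strip051.G.I6050_6500.Tab.C.BA47.c_mm_202_b noCut_EA noExt_EA F h trivial)

theorem BA47_mm_203 {κ x : ℝ} (hκ : κ * h0 = ken x) (hx : ((649613803 : ℕ) : ℝ) / S ≤ x) (hx' : x ≤ (((649613803 : ℕ) : ℝ) + (48318383 : ℕ)) / S) :
    TriA PP.cur (VE (h0 * 0) 3 κ (h0 * x) (eng.v x) (h0 * (3 / 40)) (tnt (h0 * x) (3 / 10)) (tbl tK x) (tbl tL x) (tbl (smT h0⁻¹ tC) x)) 2 0 3 4 7 (-1) (-1) :=
  (sideB hx hx').bothA (thrB hx hx') (en_pos (hx1 hx).le) (Or.inr rfl) (Or.inr rfl) fun y y' F =>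
    (lt_or_ge (h0 * y) 1).elim
      (fun h => bothA_cert (s1 := false) (s2 := false) rfl hκ (en_pos (hx1 hx).le) (esg_rng (hx1 hx).le (hx2 hx').le).1 (mo_v x) covB42a covB70 hx hx'
        Pool.Agent.Strip051.G.I6050_6500.Tab.C.BA47.c_mm_203_a noCut_EA noExt_EA F h trivial)
      (fun h => bothA_cert (s1 := false) (s2 := false) rfl hκ (en_pos (hx1 hx).le) (esg_rng (hx1 hx).le (hx2 hx').le).1 (mo_v x) covB42b covB70 hx hx'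
        Pool.Agent.Strip051.G.I6050_6500.Tab.C.BA47.c_mm_203_b noCut_EA noExt_EA F h trivial)

theorem BA47_mm_213 {κ x : ℝ} (hκ : κ * h0 = ken x) (hx : ((649613803 : ℕ) : ℝ) / S ≤ x) (hx' : x ≤ (((649613803 : ℕ) : ℝ) + (48318383 : ℕ)) / S) :
    TriA PP.cur (VE (h0 * 0) 3 κ (h0 * x) (eng.v x) (h0 * (3 / 40)) (tnt (h0 * x) (3 / 10)) (tbl tK x) (tbl tL x) (tbl (smT h0⁻¹ tC) x)) 2 1 3 4 7 (-1) (-1) :=
  (sideB hx hx').bothA (thrB hx hx') (en_pos (hx1 hx).le) (Or.inr rfl) (Or.inr rfl) fun y y' F =>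
    (lt_or_ge (h0 * y) 1).elim
      (fun h => bothA_cert (s1 := false) (s2 := false) rfl hκ (en_pos (hx1 hx).le) (esg_rng (hx1 hx).le (hx2 hx').le).1 (mo_v x) covB42a covB71 hx hx'
        Pool.Agent.Strip051.G.I6050_6500.Tab.C.BA47.c_mm_213_a noCut_EA noExt_EA F h trivial)
      (fun h => bothA_cert (s1 := false) (s2 := false) rfl hκ (en_pos (hx1 hx).le) (esg_rng (hx1 hx).le (hx2 hx').le).1 (mo_v x) covB42b covB71 hx hx'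
        Pool.Agent.Strip051.G.I6050_6500.Tab.C.BA47.c_mm_213_b noCut_EA noExt_EA F h trivial)

theorem BA47_mm_303 {κ x : ℝ} (hκ : κ * h0 = ken x) (hx : ((649613803 : ℕ) : ℝ) / S ≤ x) (hx' : x ≤ (((649613803 : ℕ) : ℝ) + (48318383 : ℕ)) / S) :
    TriA PP.cur (VE (h0 * 0) 3 κ (h0 * x) (eng.v x) (h0 * (3 / 40)) (tnt (h0 * x) (3 / 10)) (tbl tK x) (tbl tL x) (tbl (smT h0⁻¹ tC) x)) 3 0 3 4 7 (-1) (-1) :=
  (sideB hx hx').bothA (thrB hx hx') (en_pos (hx1 hx).le) (Or.inr rfl) (Or.inr rfl) fun y y' F =>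
    bothA_cert (s1 := false) (s2 := false) rfl hκ (en_pos (hx1 hx).le) (esg_rng (hx1 hx).le (hx2 hx').le).1 (mo_v x) covB43 covB70 hx hx'
        Pool.Agent.Strip051.G.I6050_6500.Tab.C.BA47.c_mm_303 noCut_EA noExt_EA F trivial trivial

theorem BA47_mm_313 {κ x : ℝ} (hκ : κ * h0 = ken x) (hx : ((649613803 : ℕ) : ℝ) / S ≤ x) (hx' : x ≤ (((649613803 : ℕ) : ℝ) + (48318383 : ℕ)) / S) :
    TriA PP.cur (VE (h0 * 0) 3 κ (h0 * x) (eng.v x) (h0 * (3 / 40)) (tnt (h0 * x) (3 / 10)) (tbl tK x) (tbl tL x) (tbl (smT h0⁻¹ tC) x)) 3 1 3 4 7 (-1) (-1) :=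
  (sideB hx hx').bothA (thrB hx hx') (en_pos (hx1 hx).le) (Or.inr rfl) (Or.inr rfl) fun y y' F =>
    bothA_cert (s1 := false) (s2 := false) rfl hκ (en_pos (hx1 hx).le) (esg_rng (hx1 hx).le (hx2 hx').le).1 (mo_v x) covB43 covB71 hx hx'
        Pool.Agent.Strip051.G.I6050_6500.Tab.C.BA47.c_mm_313 noCut_EA noExt_EA F trivial trivial

theorem BA47 {κ x : ℝ} (hκ : κ * h0 = ken x) (hx : ((649613803 : ℕ) : ℝ) / S ≤ x) (hx' : x ≤ (((649613803 : ℕ) : ℝ) + (48318383 : ℕ)) / S) : AllTA PP.cur (VE (h0 * 0) 3 κ (h0 * x) (eng.v x) (h0 * (3 / 40)) (tnt (h0 * x) (3 / 10)) (tbl tK x) (tbl tL x) (tbl (smT h0⁻¹ tC) x)) 4 7 where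
  pp := all17 (Q := fun a b c => TriA PP.cur (VE (h0 * 0) 3 κ (h0 * x) (eng.v x) (h0 * (3 / 40)) (tnt (h0 * x) (3 / 10)) (tbl tK x) (tbl tL x) (tbl (smT h0⁻¹ tC) x)) a b c 4 7 1 1)
    (BA47_pp_001 hκ hx hx') (BA47_pp_011 hκ hx hx') (BA47_pp_012 hκ hx hx') (BA47_pp_022 hκ hx hx') (BA47_pp_023 hκ hx hx') (BA47_pp_033 hκ hx hx') (BA47_pp_101 hκ hx hx') (BA47_pp_102 hκ hx hx') (BA47_pp_112 hκ hx hx') (BA47_pp_113 hκ hx hx') (BA47_pp_123 hκ hx hx') (BA47_pp_133 hκ hx hx') (BA47_pp_202 hκ hx hx') (BA47_pp_203 hκ hx hx') (BA47_pp_213 hκ hx hx') (BA47_pp_303 hκ hx hx') (BA47_pp_313 hκ hx hx')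
  pm := all17 (Q := fun a b c => TriA PP.cur (VE (h0 * 0) 3 κ (h0 * x) (eng.v x) (h0 * (3 / 40)) (tnt (h0 * x) (3 / 10)) (tbl tK x) (tbl tL x) (tbl (smT h0⁻¹ tC) x)) a b c 4 7 1 (-1))
    (BA47_pm_001 hκ hx hx') (BA47_pm_011 hκ hx hx') (BA47_pm_012 hκ hx hx') (BA47_pm_022 hκ hx hx') (BA47_pm_023 hκ hx hx') (BA47_pm_033 hκ hx hx') (BA47_pm_101 hκ hx hx') (BA47_pm_102 hκ hx hx') (BA47_pm_112 hκ hx hx') (BA47_pm_113 hκ hx hx') (BA47_pm_123 hκ hx hx') (BA47_pm_133 hκ hx hx') (BA47_pm_202 hκ hx hx') (BA47_pm_203 hκ hx hx') (BA47_pm_213 hκ hx hx') (BA47_pm_303 hκ hx hx') (BA47_pm_313 hκ hx hx')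
  mm := all17 (Q := fun a b c => TriA PP.cur (VE (h0 * 0) 3 κ (h0 * x) (eng.v x) (h0 * (3 / 40)) (tnt (h0 * x) (3 / 10)) (tbl tK x) (tbl tL x) (tbl (smT h0⁻¹ tC) x)) a b c 4 7 (-1) (-1))
    (BA47_mm_001 hκ hx hx') (BA47_mm_011 hκ hx hx') (BA47_mm_012 hκ hx hx') (BA47_mm_022 hκ hx hx') (BA47_mm_023 hκ hx hx') (BA47_mm_033 hκ hx hx') (BA47_mm_101 hκ hx hx') (BA47_mm_102 hκ hx hx') (BA47_mm_112 hκ hx hx') (BA47_mm_113 hκ hx hx') (BA47_mm_123 hκ hx hx') (BA47_mm_133 hκ hx hx') (BA47_mm_202 hκ hx hx') (BA47_mm_203 hκ hx hx') (BA47_mm_213 hκ hx hx') (BA47_mm_303 hκ hx hx') (BA47_mm_313 hκ hx hx')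

theorem BA48_pp_001 {κ x : ℝ} (hκ : κ * h0 = ken x) (hx : ((649613803 : ℕ) : ℝ) / S ≤ x) (hx' : x ≤ (((649613803 : ℕ) : ℝ) + (48318383 : ℕ)) / S) :
    TriA PP.cur (VE (h0 * 0) 3 κ (h0 * x) (eng.v x) (h0 * (3 / 40)) (tnt (h0 * x) (3 / 10)) (tbl tK x) (tbl tL x) (tbl (smT h0⁻¹ tC) x)) 0 0 1 4 8 1 1 :=
  (sideB hx hx').bothA (thrB hx hx') (en_pos (hx1 hx).le) (Or.inl rfl) (Or.inl rfl) fun y y' F =>
    bothA_cert (s1 := true) (s2 := true) rfl hκ (en_pos (hx1 hx).le) (esg_rng (hx1 hx).le (hx2 hx').le).1 (mo_v x) covB40 covB80 hx hx'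
        Pool.Agent.Strip051.G.I6050_6500.Tab.C.BA48.c_pp_001 noCut_EA noExt_EA F trivial trivial

theorem BA48_pp_011 {κ x : ℝ} (hκ : κ * h0 = ken x) (hx : ((649613803 : ℕ) : ℝ) / S ≤ x) (hx' : x ≤ (((649613803 : ℕ) : ℝ) + (48318383 : ℕ)) / S) :
    TriA PP.cur (VE (h0 * 0) 3 κ (h0 * x) (eng.v x) (h0 * (3 / 40)) (tnt (h0 * x) (3 / 10)) (tbl tK x) (tbl tL x) (tbl (smT h0⁻¹ tC) x)) 0 1 1 4 8 1 1 :=
  (sideB hx hx').bothA (thrB hx hx') (en_pos (hx1 hx).le) (Or.inl rfl) (Or.inl rfl) fun y y' F =>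
    bothA_cert (s1 := true) (s2 := true) rfl hκ (en_pos (hx1 hx).le) (esg_rng (hx1 hx).le (hx2 hx').le).1 (mo_v x) covB40 covB81 hx hx'
        Pool.Agent.Strip051.G.I6050_6500.Tab.C.BA48.c_pp_011 noCut_EA noExt_EA F trivial trivial

theorem BA48_pp_012 {κ x : ℝ} (hκ : κ * h0 = ken x) (hx : ((649613803 : ℕ) : ℝ) / S ≤ x) (hx' : x ≤ (((649613803 : ℕ) : ℝ) + (48318383 : ℕ)) / S) :
    TriA PP.cur (VE (h0 * 0) 3 κ (h0 * x) (eng.v x) (h0 * (3 / 40)) (tnt (h0 * x) (3 / 10)) (tbl tK x) (tbl tL x) (tbl (smT h0⁻¹ tC) x)) 0 1 2 4 8 1 1 :=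
  (sideB hx hx').bothA (thrB hx hx') (en_pos (hx1 hx).le) (Or.inl rfl) (Or.inl rfl) fun y y' F =>
    bothA_cert (s1 := true) (s2 := true) rfl hκ (en_pos (hx1 hx).le) (esg_rng (hx1 hx).le (hx2 hx').le).1 (mo_v x) covB40 covB81 hx hx'
        Pool.Agent.Strip051.G.I6050_6500.Tab.C.BA48.c_pp_012 noCut_EA noExt_EA F trivial trivial

theorem BA48_pp_022 {κ x : ℝ} (hκ : κ * h0 = ken x) (hx : ((649613803 : ℕ) : ℝ) / S ≤ x) (hx' : x ≤ (((649613803 : ℕ) : ℝ) + (48318383 : ℕ)) / S) :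
    TriA PP.cur (VE (h0 * 0) 3 κ (h0 * x) (eng.v x) (h0 * (3 / 40)) (tnt (h0 * x) (3 / 10)) (tbl tK x) (tbl tL x) (tbl (smT h0⁻¹ tC) x)) 0 2 2 4 8 1 1 :=
  (sideB hx hx').bothA (thrB hx hx') (en_pos (hx1 hx).le) (Or.inl rfl) (Or.inl rfl) fun y y' F =>
    bothA_cert (s1 := true) (s2 := true) rfl hκ (en_pos (hx1 hx).le) (esg_rng (hx1 hx).le (hx2 hx').le).1 (mo_v x) covB40 covB82 hx hx'
        Pool.Agent.Strip051.G.I6050_6500.Tab.C.BA48.c_pp_022 noCut_EA noExt_EA F trivial trivial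

theorem BA48_pp_023 {κ x : ℝ} (hκ : κ * h0 = ken x) (hx : ((649613803 : ℕ) : ℝ) / S ≤ x) (hx' : x ≤ (((649613803 : ℕ) : ℝ) + (48318383 : ℕ)) / S) :
    TriA PP.cur (VE (h0 * 0) 3 κ (h0 * x) (eng.v x) (h0 * (3 / 40)) (tnt (h0 * x) (3 / 10)) (tbl tK x) (tbl tL x) (tbl (smT h0⁻¹ tC) x)) 0 2 3 4 8 1 1 :=
  (sideB hx hx').bothA (thrB hx hx') (en_pos (hx1 hx).le) (Or.inl rfl) (Or.inl rfl) fun y y' F =>
    bothA_cert (s1 := true) (s2 := true) rfl hκ (en_pos (hx1 hx).le) (esg_rng (hx1 hx).le (hx2 hx').le).1 (mo_v x) covB40 covB82 hx hx'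
        Pool.Agent.Strip051.G.I6050_6500.Tab.C.BA48.c_pp_023 noCut_EA noExt_EA F trivial trivial

theorem BA48_pp_033 {κ x : ℝ} (hκ : κ * h0 = ken x) (hx : ((649613803 : ℕ) : ℝ) / S ≤ x) (hx' : x ≤ (((649613803 : ℕ) : ℝ) + (48318383 : ℕ)) / S) :
    TriA PP.cur (VE (h0 * 0) 3 κ (h0 * x) (eng.v x) (h0 * (3 / 40)) (tnt (h0 * x) (3 / 10)) (tbl tK x) (tbl tL x) (tbl (smT h0⁻¹ tC) x)) 0 3 3 4 8 1 1 :=
  (sideB hx hx').bothA (thrB hx hx') (en_pos (hx1 hx).le) (Or.inl rfl) (Or.inl rfl) fun y y' F =>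
    bothA_cert (s1 := true) (s2 := true) rfl hκ (en_pos (hx1 hx).le) (esg_rng (hx1 hx).le (hx2 hx').le).1 (mo_v x) covB40 covB83 hx hx'
        Pool.Agent.Strip051.G.I6050_6500.Tab.C.BA48.c_pp_033 noCut_EA noExt_EA F trivial trivial

theorem BA48_pp_101 {κ x : ℝ} (hκ : κ * h0 = ken x) (hx : ((649613803 : ℕ) : ℝ) / S ≤ x) (hx' : x ≤ (((649613803 : ℕ) : ℝ) + (48318383 : ℕ)) / S) :
    TriA PP.cur (VE (h0 * 0) 3 κ (h0 * x) (eng.v x) (h0 * (3 / 40)) (tnt (h0 * x) (3 / 10)) (tbl tK x) (tbl tL x) (tbl (smT h0⁻¹ tC) x)) 1 0 1 4 8 1 1 :=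
  (sideB hx hx').bothA (thrB hx hx') (en_pos (hx1 hx).le) (Or.inl rfl) (Or.inl rfl) fun y y' F =>
    bothA_cert (s1 := true) (s2 := true) rfl hκ (en_pos (hx1 hx).le) (esg_rng (hx1 hx).le (hx2 hx').le).1 (mo_v x) covB41 covB80 hx hx'
        Pool.Agent.Strip051.G.I6050_6500.Tab.C.BA48.c_pp_101 noCut_EA noExt_EA F trivial trivial

theorem BA48_pp_102 {κ x : ℝ} (hκ : κ * h0 = ken x) (hx : ((649613803 : ℕ) : ℝ) / S ≤ x) (hx' : x ≤ (((649613803 : ℕ) : ℝ) + (48318383 : ℕ)) / S) :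
    TriA PP.cur (VE (h0 * 0) 3 κ (h0 * x) (eng.v x) (h0 * (3 / 40)) (tnt (h0 * x) (3 / 10)) (tbl tK x) (tbl tL x) (tbl (smT h0⁻¹ tC) x)) 1 0 2 4 8 1 1 :=
  (sideB hx hx').bothA (thrB hx hx') (en_pos (hx1 hx).le) (Or.inl rfl) (Or.inl rfl) fun y y' F =>
    bothA_cert (s1 := true) (s2 := true) rfl hκ (en_pos (hx1 hx).le) (esg_rng (hx1 hx).le (hx2 hx').le).1 (mo_v x) covB41 covB80 hx hx'
        Pool.Agent.Strip051.G.I6050_6500.Tab.C.BA48.c_pp_102 noCut_EA noExt_EA F trivial trivial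

theorem BA48_pp_112 {κ x : ℝ} (hκ : κ * h0 = ken x) (hx : ((649613803 : ℕ) : ℝ) / S ≤ x) (hx' : x ≤ (((649613803 : ℕ) : ℝ) + (48318383 : ℕ)) / S) :
    TriA PP.cur (VE (h0 * 0) 3 κ (h0 * x) (eng.v x) (h0 * (3 / 40)) (tnt (h0 * x) (3 / 10)) (tbl tK x) (tbl tL x) (tbl (smT h0⁻¹ tC) x)) 1 1 2 4 8 1 1 :=
  (sideB hx hx').bothA (thrB hx hx') (en_pos (hx1 hx).le) (Or.inl rfl) (Or.inl rfl) fun y y' F =>
    bothA_cert (s1 := true) (s2 := true) rfl hκ (en_pos (hx1 hx).le) (esg_rng (hx1 hx).le (hx2 hx').le).1 (mo_v x) covB41 covB81 hx hx'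
        Pool.Agent.Strip051.G.I6050_6500.Tab.C.BA48.c_pp_112 noCut_EA noExt_EA F trivial trivial

theorem BA48_pp_113 {κ x : ℝ} (hκ : κ * h0 = ken x) (hx : ((649613803 : ℕ) : ℝ) / S ≤ x) (hx' : x ≤ (((649613803 : ℕ) : ℝ) + (48318383 : ℕ)) / S) :
    TriA PP.cur (VE (h0 * 0) 3 κ (h0 * x) (eng.v x) (h0 * (3 / 40)) (tnt (h0 * x) (3 / 10)) (tbl tK x) (tbl tL x) (tbl (smT h0⁻¹ tC) x)) 1 1 3 4 8 1 1 :=
  (sideB hx hx').bothA (thrB hx hx') (en_pos (hx1 hx).le) (Or.inl rfl) (Or.inl rfl) fun y y' F =>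
    bothA_cert (s1 := true) (s2 := true) rfl hκ (en_pos (hx1 hx).le) (esg_rng (hx1 hx).le (hx2 hx').le).1 (mo_v x) covB41 covB81 hx hx'
        Pool.Agent.Strip051.G.I6050_6500.Tab.C.BA48.c_pp_113 noCut_EA noExt_EA F trivial trivial

theorem BA48_pp_123 {κ x : ℝ} (hκ : κ * h0 = ken x) (hx : ((649613803 : ℕ) : ℝ) / S ≤ x) (hx' : x ≤ (((649613803 : ℕ) : ℝ) + (48318383 : ℕ)) / S) :
    TriA PP.cur (VE (h0 * 0) 3 κ (h0 * x) (eng.v x) (h0 * (3 / 40)) (tnt (h0 * x) (3 / 10)) (tbl tK x) (tbl tL x) (tbl (smT h0⁻¹ tC) x)) 1 2 3 4 8 1 1 :=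
  (sideB hx hx').bothA (thrB hx hx') (en_pos (hx1 hx).le) (Or.inl rfl) (Or.inl rfl) fun y y' F =>
    bothA_cert (s1 := true) (s2 := true) rfl hκ (en_pos (hx1 hx).le) (esg_rng (hx1 hx).le (hx2 hx').le).1 (mo_v x) covB41 covB82 hx hx'
        Pool.Agent.Strip051.G.I6050_6500.Tab.C.BA48.c_pp_123 noCut_EA noExt_EA F trivial trivial

theorem BA48_pp_133 {κ x : ℝ} (hκ : κ * h0 = ken x) (hx : ((649613803 : ℕ) : ℝ) / S ≤ x) (hx' : x ≤ (((649613803 : ℕ) : ℝ) + (48318383 : ℕ)) / S) :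
    TriA PP.cur (VE (h0 * 0) 3 κ (h0 * x) (eng.v x) (h0 * (3 / 40)) (tnt (h0 * x) (3 / 10)) (tbl tK x) (tbl tL x) (tbl (smT h0⁻¹ tC) x)) 1 3 3 4 8 1 1 :=
  (sideB hx hx').bothA (thrB hx hx') (en_pos (hx1 hx).le) (Or.inl rfl) (Or.inl rfl) fun y y' F =>
    bothA_cert (s1 := true) (s2 := true) rfl hκ (en_pos (hx1 hx).le) (esg_rng (hx1 hx).le (hx2 hx').le).1 (mo_v x) covB41 covB83 hx hx'
        Pool.Agent.Strip051.G.I6050_6500.Tab.C.BA48.c_pp_133 noCut_EA noExt_EA F trivial trivial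

theorem BA48_pp_202 {κ x : ℝ} (hκ : κ * h0 = ken x) (hx : ((649613803 : ℕ) : ℝ) / S ≤ x) (hx' : x ≤ (((649613803 : ℕ) : ℝ) + (48318383 : ℕ)) / S) :
    TriA PP.cur (VE (h0 * 0) 3 κ (h0 * x) (eng.v x) (h0 * (3 / 40)) (tnt (h0 * x) (3 / 10)) (tbl tK x) (tbl tL x) (tbl (smT h0⁻¹ tC) x)) 2 0 2 4 8 1 1 :=
  (sideB hx hx').bothA (thrB hx hx') (en_pos (hx1 hx).le) (Or.inl rfl) (Or.inl rfl) fun y y' F =>
    (lt_or_ge (h0 * y) 1).elim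
      (fun h => bothA_cert (s1 := true) (s2 := true) rfl hκ (en_pos (hx1 hx).le) (esg_rng (hx1 hx).le (hx2 hx').le).1 (mo_v x) covB42a covB80 hx hx'
        Pool.Agent.Strip051.G.I6050_6500.Tab.C.BA48.c_pp_202_a noCut_EA noExt_EA F h trivial)
      (fun h => bothA_cert (s1 := true) (s2 := true) rfl hκ (en_pos (hx1 hx).le) (esg_rng (hx1 hx).le (hx2 hx').le).1 (mo_v x) covB42b covB80 hx hx'
        Pool.Agent.Strip051.G.I6050_6500.Tab.C.BA48.c_pp_202_b noCut_EA noExt_EA F h trivial)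

theorem BA48_pp_203 {κ x : ℝ} (hκ : κ * h0 = ken x) (hx : ((649613803 : ℕ) : ℝ) / S ≤ x) (hx' : x ≤ (((649613803 : ℕ) : ℝ) + (48318383 : ℕ)) / S) :
    TriA PP.cur (VE (h0 * 0) 3 κ (h0 * x) (eng.v x) (h0 * (3 / 40)) (tnt (h0 * x) (3 / 10)) (tbl tK x) (tbl tL x) (tbl (smT h0⁻¹ tC) x)) 2 0 3 4 8 1 1 :=
  (sideB hx hx').bothA (thrB hx hx') (en_pos (hx1 hx).le) (Or.inl rfl) (Or.inl rfl) fun y y' F =>
    (lt_or_ge (h0 * y) 1).elim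
      (fun h => bothA_cert (s1 := true) (s2 := true) rfl hκ (en_pos (hx1 hx).le) (esg_rng (hx1 hx).le (hx2 hx').le).1 (mo_v x) covB42a covB80 hx hx'
        Pool.Agent.Strip051.G.I6050_6500.Tab.C.BA48.c_pp_203_a noCut_EA noExt_EA F h trivial)
      (fun h => bothA_cert (s1 := true) (s2 := true) rfl hκ (en_pos (hx1 hx).le) (esg_rng (hx1 hx).le (hx2 hx').le).1 (mo_v x) covB42b covB80 hx hx'
        Pool.Agent.Strip051.G.I6050_6500.Tab.C.BA48.c_pp_203_b noCut_EA noExt_EA F h trivial)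

theorem BA48_pp_213 {κ x : ℝ} (hκ : κ * h0 = ken x) (hx : ((649613803 : ℕ) : ℝ) / S ≤ x) (hx' : x ≤ (((649613803 : ℕ) : ℝ) + (48318383 : ℕ)) / S) :
    TriA PP.cur (VE (h0 * 0) 3 κ (h0 * x) (eng.v x) (h0 * (3 / 40)) (tnt (h0 * x) (3 / 10)) (tbl tK x) (tbl tL x) (tbl (smT h0⁻¹ tC) x)) 2 1 3 4 8 1 1 :=
  (sideB hx hx').bothA (thrB hx hx') (en_pos (hx1 hx).le) (Or.inl rfl) (Or.inl rfl) fun y y' F =>
    (lt_or_ge (h0 * y) 1).elim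
      (fun h => bothA_cert (s1 := true) (s2 := true) rfl hκ (en_pos (hx1 hx).le) (esg_rng (hx1 hx).le (hx2 hx').le).1 (mo_v x) covB42a covB81 hx hx'
        Pool.Agent.Strip051.G.I6050_6500.Tab.C.BA48.c_pp_213_a noCut_EA noExt_EA F h trivial)
      (fun h => bothA_cert (s1 := true) (s2 := true) rfl hκ (en_pos (hx1 hx).le) (esg_rng (hx1 hx).le (hx2 hx').le).1 (mo_v x) covB42b covB81 hx hx'
        Pool.Agent.Strip051.G.I6050_6500.Tab.C.BA48.c_pp_213_b noCut_EA noExt_EA F h trivial)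

theorem BA48_pp_303 {κ x : ℝ} (hκ : κ * h0 = ken x) (hx : ((649613803 : ℕ) : ℝ) / S ≤ x) (hx' : x ≤ (((649613803 : ℕ) : ℝ) + (48318383 : ℕ)) / S) :
    TriA PP.cur (VE (h0 * 0) 3 κ (h0 * x) (eng.v x) (h0 * (3 / 40)) (tnt (h0 * x) (3 / 10)) (tbl tK x) (tbl tL x) (tbl (smT h0⁻¹ tC) x)) 3 0 3 4 8 1 1 :=
  (sideB hx hx').bothA (thrB hx hx') (en_pos (hx1 hx).le) (Or.inl rfl) (Or.inl rfl) fun y y' F =>
    bothA_cert (s1 := true) (s2 := true) rfl hκ (en_pos (hx1 hx).le) (esg_rng (hx1 hx).le (hx2 hx').le).1 (mo_v x) covB43 covB80 hx hx'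
        Pool.Agent.Strip051.G.I6050_6500.Tab.C.BA48.c_pp_303 noCut_EA noExt_EA F trivial trivial

theorem BA48_pp_313 {κ x : ℝ} (hκ : κ * h0 = ken x) (hx : ((649613803 : ℕ) : ℝ) / S ≤ x) (hx' : x ≤ (((649613803 : ℕ) : ℝ) + (48318383 : ℕ)) / S) :
    TriA PP.cur (VE (h0 * 0) 3 κ (h0 * x) (eng.v x) (h0 * (3 / 40)) (tnt (h0 * x) (3 / 10)) (tbl tK x) (tbl tL x) (tbl (smT h0⁻¹ tC) x)) 3 1 3 4 8 1 1 :=
  (sideB hx hx').bothA (thrB hx hx') (en_pos (hx1 hx).le) (Or.inl rfl) (Or.inl rfl) fun y y' F =>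
    bothA_cert (s1 := true) (s2 := true) rfl hκ (en_pos (hx1 hx).le) (esg_rng (hx1 hx).le (hx2 hx').le).1 (mo_v x) covB43 covB81 hx hx'
        Pool.Agent.Strip051.G.I6050_6500.Tab.C.BA48.c_pp_313 noCut_EA noExt_EA F trivial trivial

theorem BA48_pm_001 {κ x : ℝ} (hκ : κ * h0 = ken x) (hx : ((649613803 : ℕ) : ℝ) / S ≤ x) (hx' : x ≤ (((649613803 : ℕ) : ℝ) + (48318383 : ℕ)) / S) :
    TriA PP.cur (VE (h0 * 0) 3 κ (h0 * x) (eng.v x) (h0 * (3 / 40)) (tnt (h0 * x) (3 / 10)) (tbl tK x) (tbl tL x) (tbl (smT h0⁻¹ tC) x)) 0 0 1 4 8 1 (-1) :=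
  (sideB hx hx').bothA (thrB hx hx') (en_pos (hx1 hx).le) (Or.inl rfl) (Or.inr rfl) fun y y' F =>
    bothA_cert (s1 := true) (s2 := false) rfl hκ (en_pos (hx1 hx).le) (esg_rng (hx1 hx).le (hx2 hx').le).1 (mo_v x) covB40 covB80 hx hx'
        Pool.Agent.Strip051.G.I6050_6500.Tab.C.BA48.c_pm_001 noCut_EA noExt_EA F trivial trivial

theorem BA48_pm_011 {κ x : ℝ} (hκ : κ * h0 = ken x) (hx : ((649613803 : ℕ) : ℝ) / S ≤ x) (hx' : x ≤ (((649613803 : ℕ) : ℝ) + (48318383 : ℕ)) / S) :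
    TriA PP.cur (VE (h0 * 0) 3 κ (h0 * x) (eng.v x) (h0 * (3 / 40)) (tnt (h0 * x) (3 / 10)) (tbl tK x) (tbl tL x) (tbl (smT h0⁻¹ tC) x)) 0 1 1 4 8 1 (-1) :=
  (sideB hx hx').bothA (thrB hx hx') (en_pos (hx1 hx).le) (Or.inl rfl) (Or.inr rfl) fun y y' F =>
    bothA_cert (s1 := true) (s2 := false) rfl hκ (en_pos (hx1 hx).le) (esg_rng (hx1 hx).le (hx2 hx').le).1 (mo_v x) covB40 covB81 hx hx'
        Pool.Agent.Strip051.G.I6050_6500.Tab.C.BA48.c_pm_011 (cutEA_cons (Pool.Agent.Strip051.G.I6050_6500.Tab.altB_A011R_48 hκ hx hx') cutEA_nil) noExt_EA F trivial trivial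

theorem BA48_pm_012 {κ x : ℝ} (hκ : κ * h0 = ken x) (hx : ((649613803 : ℕ) : ℝ) / S ≤ x) (hx' : x ≤ (((649613803 : ℕ) : ℝ) + (48318383 : ℕ)) / S) :
    TriA PP.cur (VE (h0 * 0) 3 κ (h0 * x) (eng.v x) (h0 * (3 / 40)) (tnt (h0 * x) (3 / 10)) (tbl tK x) (tbl tL x) (tbl (smT h0⁻¹ tC) x)) 0 1 2 4 8 1 (-1) :=
  (sideB hx hx').bothA (thrB hx hx') (en_pos (hx1 hx).le) (Or.inl rfl) (Or.inr rfl) fun y y' F =>
    bothA_cert (s1 := true) (s2 := false) rfl hκ (en_pos (hx1 hx).le) (esg_rng (hx1 hx).le (hx2 hx').le).1 (mo_v x) covB40 covB81 hx hx'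
        Pool.Agent.Strip051.G.I6050_6500.Tab.C.BA48.c_pm_012 (cutEA_cons (Pool.Agent.Strip051.G.I6050_6500.Tab.altB_A012R_48 hκ hx hx') cutEA_nil) noExt_EA F trivial trivial

theorem BA48_pm_022 {κ x : ℝ} (hκ : κ * h0 = ken x) (hx : ((649613803 : ℕ) : ℝ) / S ≤ x) (hx' : x ≤ (((649613803 : ℕ) : ℝ) + (48318383 : ℕ)) / S) :
    TriA PP.cur (VE (h0 * 0) 3 κ (h0 * x) (eng.v x) (h0 * (3 / 40)) (tnt (h0 * x) (3 / 10)) (tbl tK x) (tbl tL x) (tbl (smT h0⁻¹ tC) x)) 0 2 2 4 8 1 (-1) :=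
  (sideB hx hx').bothA (thrB hx hx') (en_pos (hx1 hx).le) (Or.inl rfl) (Or.inr rfl) fun y y' F =>
    bothA_cert (s1 := true) (s2 := false) rfl hκ (en_pos (hx1 hx).le) (esg_rng (hx1 hx).le (hx2 hx').le).1 (mo_v x) covB40 covB82 hx hx'
        Pool.Agent.Strip051.G.I6050_6500.Tab.C.BA48.c_pm_022 (cutEA_cons (Pool.Agent.Strip051.G.I6050_6500.Tab.altB_A022R_48 hκ hx hx') cutEA_nil) noExt_EA F trivial trivial

theorem BA48_pm_023 {κ x : ℝ} (hκ : κ * h0 = ken x) (hx : ((649613803 : ℕ) : ℝ) / S ≤ x) (hx' : x ≤ (((649613803 : ℕ) : ℝ) + (48318383 : ℕ)) / S) :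
    TriA PP.cur (VE (h0 * 0) 3 κ (h0 * x) (eng.v x) (h0 * (3 / 40)) (tnt (h0 * x) (3 / 10)) (tbl tK x) (tbl tL x) (tbl (smT h0⁻¹ tC) x)) 0 2 3 4 8 1 (-1) :=
  (sideB hx hx').bothA (thrB hx hx') (en_pos (hx1 hx).le) (Or.inl rfl) (Or.inr rfl) fun y y' F =>
    bothA_cert (s1 := true) (s2 := false) rfl hκ (en_pos (hx1 hx).le) (esg_rng (hx1 hx).le (hx2 hx').le).1 (mo_v x) covB40 covB82 hx hx'
        Pool.Agent.Strip051.G.I6050_6500.Tab.C.BA48.c_pm_023 noCut_EA noExt_EA F trivial trivial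

theorem BA48_pm_033 {κ x : ℝ} (hκ : κ * h0 = ken x) (hx : ((649613803 : ℕ) : ℝ) / S ≤ x) (hx' : x ≤ (((649613803 : ℕ) : ℝ) + (48318383 : ℕ)) / S) :
    TriA PP.cur (VE (h0 * 0) 3 κ (h0 * x) (eng.v x) (h0 * (3 / 40)) (tnt (h0 * x) (3 / 10)) (tbl tK x) (tbl tL x) (tbl (smT h0⁻¹ tC) x)) 0 3 3 4 8 1 (-1) :=
  (sideB hx hx').bothA (thrB hx hx') (en_pos (hx1 hx).le) (Or.inl rfl) (Or.inr rfl) fun y y' F =>
    bothA_cert (s1 := true) (s2 := false) rfl hκ (en_pos (hx1 hx).le) (esg_rng (hx1 hx).le (hx2 hx').le).1 (mo_v x) covB40 covB83 hx hx'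
        Pool.Agent.Strip051.G.I6050_6500.Tab.C.BA48.c_pm_033 noCut_EA noExt_EA F trivial trivial

theorem BA48_pm_101 {κ x : ℝ} (hκ : κ * h0 = ken x) (hx : ((649613803 : ℕ) : ℝ) / S ≤ x) (hx' : x ≤ (((649613803 : ℕ) : ℝ) + (48318383 : ℕ)) / S) :
    TriA PP.cur (VE (h0 * 0) 3 κ (h0 * x) (eng.v x) (h0 * (3 / 40)) (tnt (h0 * x) (3 / 10)) (tbl tK x) (tbl tL x) (tbl (smT h0⁻¹ tC) x)) 1 0 1 4 8 1 (-1) :=
  (sideB hx hx').bothA (thrB hx hx') (en_pos (hx1 hx).le) (Or.inl rfl) (Or.inr rfl) fun y y' F =>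
    bothA_cert (s1 := true) (s2 := false) rfl hκ (en_pos (hx1 hx).le) (esg_rng (hx1 hx).le (hx2 hx').le).1 (mo_v x) covB41 covB80 hx hx'
        Pool.Agent.Strip051.G.I6050_6500.Tab.C.BA48.c_pm_101 noCut_EA noExt_EA F trivial trivial

theorem BA48_pm_102 {κ x : ℝ} (hκ : κ * h0 = ken x) (hx : ((649613803 : ℕ) : ℝ) / S ≤ x) (hx' : x ≤ (((649613803 : ℕ) : ℝ) + (48318383 : ℕ)) / S) :
    TriA PP.cur (VE (h0 * 0) 3 κ (h0 * x) (eng.v x) (h0 * (3 / 40)) (tnt (h0 * x) (3 / 10)) (tbl tK x) (tbl tL x) (tbl (smT h0⁻¹ tC) x)) 1 0 2 4 8 1 (-1) :=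
  (sideB hx hx').bothA (thrB hx hx') (en_pos (hx1 hx).le) (Or.inl rfl) (Or.inr rfl) fun y y' F =>
    bothA_cert (s1 := true) (s2 := false) rfl hκ (en_pos (hx1 hx).le) (esg_rng (hx1 hx).le (hx2 hx').le).1 (mo_v x) covB41 covB80 hx hx'
        Pool.Agent.Strip051.G.I6050_6500.Tab.C.BA48.c_pm_102 noCut_EA noExt_EA F trivial trivial

theorem BA48_pm_112 {κ x : ℝ} (hκ : κ * h0 = ken x) (hx : ((649613803 : ℕ) : ℝ) / S ≤ x) (hx' : x ≤ (((649613803 : ℕ) : ℝ) + (48318383 : ℕ)) / S) :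
    TriA PP.cur (VE (h0 * 0) 3 κ (h0 * x) (eng.v x) (h0 * (3 / 40)) (tnt (h0 * x) (3 / 10)) (tbl tK x) (tbl tL x) (tbl (smT h0⁻¹ tC) x)) 1 1 2 4 8 1 (-1) :=
  (sideB hx hx').bothA (thrB hx hx') (en_pos (hx1 hx).le) (Or.inl rfl) (Or.inr rfl) fun y y' F =>
    bothA_cert (s1 := true) (s2 := false) rfl hκ (en_pos (hx1 hx).le) (esg_rng (hx1 hx).le (hx2 hx').le).1 (mo_v x) covB41 covB81 hx hx'
        Pool.Agent.Strip051.G.I6050_6500.Tab.C.BA48.c_pm_112 noCut_EA noExt_EA F trivial trivial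

theorem BA48_pm_113 {κ x : ℝ} (hκ : κ * h0 = ken x) (hx : ((649613803 : ℕ) : ℝ) / S ≤ x) (hx' : x ≤ (((649613803 : ℕ) : ℝ) + (48318383 : ℕ)) / S) :
    TriA PP.cur (VE (h0 * 0) 3 κ (h0 * x) (eng.v x) (h0 * (3 / 40)) (tnt (h0 * x) (3 / 10)) (tbl tK x) (tbl tL x) (tbl (smT h0⁻¹ tC) x)) 1 1 3 4 8 1 (-1) :=
  (sideB hx hx').bothA (thrB hx hx') (en_pos (hx1 hx).le) (Or.inl rfl) (Or.inr rfl) fun y y' F =>
    bothA_cert (s1 := true) (s2 := false) rfl hκ (en_pos (hx1 hx).le) (esg_rng (hx1 hx).le (hx2 hx').le).1 (mo_v x) covB41 covB81 hx hx'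
        Pool.Agent.Strip051.G.I6050_6500.Tab.C.BA48.c_pm_113 noCut_EA noExt_EA F trivial trivial

theorem BA48_pm_123 {κ x : ℝ} (hκ : κ * h0 = ken x) (hx : ((649613803 : ℕ) : ℝ) / S ≤ x) (hx' : x ≤ (((649613803 : ℕ) : ℝ) + (48318383 : ℕ)) / S) :
    TriA PP.cur (VE (h0 * 0) 3 κ (h0 * x) (eng.v x) (h0 * (3 / 40)) (tnt (h0 * x) (3 / 10)) (tbl tK x) (tbl tL x) (tbl (smT h0⁻¹ tC) x)) 1 2 3 4 8 1 (-1) :=
  (sideB hx hx').bothA (thrB hx hx') (en_pos (hx1 hx).le) (Or.inl rfl) (Or.inr rfl) fun y y' F =>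
    bothA_cert (s1 := true) (s2 := false) rfl hκ (en_pos (hx1 hx).le) (esg_rng (hx1 hx).le (hx2 hx').le).1 (mo_v x) covB41 covB82 hx hx'
        Pool.Agent.Strip051.G.I6050_6500.Tab.C.BA48.c_pm_123 noCut_EA noExt_EA F trivial trivial

theorem BA48_pm_133 {κ x : ℝ} (hκ : κ * h0 = ken x) (hx : ((649613803 : ℕ) : ℝ) / S ≤ x) (hx' : x ≤ (((649613803 : ℕ) : ℝ) + (48318383 : ℕ)) / S) :
    TriA PP.cur (VE (h0 * 0) 3 κ (h0 * x) (eng.v x) (h0 * (3 / 40)) (tnt (h0 * x) (3 / 10)) (tbl tK x) (tbl tL x) (tbl (smT h0⁻¹ tC) x)) 1 3 3 4 8 1 (-1) :=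
  (sideB hx hx').bothA (thrB hx hx') (en_pos (hx1 hx).le) (Or.inl rfl) (Or.inr rfl) fun y y' F =>
    bothA_cert (s1 := true) (s2 := false) rfl hκ (en_pos (hx1 hx).le) (esg_rng (hx1 hx).le (hx2 hx').le).1 (mo_v x) covB41 covB83 hx hx'
        Pool.Agent.Strip051.G.I6050_6500.Tab.C.BA48.c_pm_133 noCut_EA noExt_EA F trivial trivial

theorem BA48_pm_202 {κ x : ℝ} (hκ : κ * h0 = ken x) (hx : ((649613803 : ℕ) : ℝ) / S ≤ x) (hx' : x ≤ (((649613803 : ℕ) : ℝ) + (48318383 : ℕ)) / S) :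
    TriA PP.cur (VE (h0 * 0) 3 κ (h0 * x) (eng.v x) (h0 * (3 / 40)) (tnt (h0 * x) (3 / 10)) (tbl tK x) (tbl tL x) (tbl (smT h0⁻¹ tC) x)) 2 0 2 4 8 1 (-1) :=
  (sideB hx hx').bothA (thrB hx hx') (en_pos (hx1 hx).le) (Or.inl rfl) (Or.inr rfl) fun y y' F =>
    (lt_or_ge (h0 * y) 1).elim
      (fun h => bothA_cert (s1 := true) (s2 := false) rfl hκ (en_pos (hx1 hx).le) (esg_rng (hx1 hx).le (hx2 hx').le).1 (mo_v x) covB42a covB80 hx hx'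
        Pool.Agent.Strip051.G.I6050_6500.Tab.C.BA48.c_pm_202_a noCut_EA noExt_EA F h trivial)
      (fun h => bothA_cert (s1 := true) (s2 := false) rfl hκ (en_pos (hx1 hx).le) (esg_rng (hx1 hx).le (hx2 hx').le).1 (mo_v x) covB42b covB80 hx hx'
        Pool.Agent.Strip051.G.I6050_6500.Tab.C.BA48.c_pm_202_b noCut_EA noExt_EA F h trivial)

theorem BA48_pm_203 {κ x : ℝ} (hκ : κ * h0 = ken x) (hx : ((649613803 : ℕ) : ℝ) / S ≤ x) (hx' : x ≤ (((649613803 : ℕ) : ℝ) + (48318383 : ℕ)) / S) :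
    TriA PP.cur (VE (h0 * 0) 3 κ (h0 * x) (eng.v x) (h0 * (3 / 40)) (tnt (h0 * x) (3 / 10)) (tbl tK x) (tbl tL x) (tbl (smT h0⁻¹ tC) x)) 2 0 3 4 8 1 (-1) :=
  (sideB hx hx').bothA (thrB hx hx') (en_pos (hx1 hx).le) (Or.inl rfl) (Or.inr rfl) fun y y' F =>
    (lt_or_ge (h0 * y) 1).elim
      (fun h => bothA_cert (s1 := true) (s2 := false) rfl hκ (en_pos (hx1 hx).le) (esg_rng (hx1 hx).le (hx2 hx').le).1 (mo_v x) covB42a covB80 hx hx'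
        Pool.Agent.Strip051.G.I6050_6500.Tab.C.BA48.c_pm_203_a noCut_EA noExt_EA F h trivial)
      (fun h => bothA_cert (s1 := true) (s2 := false) rfl hκ (en_pos (hx1 hx).le) (esg_rng (hx1 hx).le (hx2 hx').le).1 (mo_v x) covB42b covB80 hx hx'
        Pool.Agent.Strip051.G.I6050_6500.Tab.C.BA48.c_pm_203_b noCut_EA noExt_EA F h trivial)

theorem BA48_pm_213 {κ x : ℝ} (hκ : κ * h0 = ken x) (hx : ((649613803 : ℕ) : ℝ) / S ≤ x) (hx' : x ≤ (((649613803 : ℕ) : ℝ) + (48318383 : ℕ)) / S) :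
    TriA PP.cur (VE (h0 * 0) 3 κ (h0 * x) (eng.v x) (h0 * (3 / 40)) (tnt (h0 * x) (3 / 10)) (tbl tK x) (tbl tL x) (tbl (smT h0⁻¹ tC) x)) 2 1 3 4 8 1 (-1) :=
  (sideB hx hx').bothA (thrB hx hx') (en_pos (hx1 hx).le) (Or.inl rfl) (Or.inr rfl) fun y y' F =>
    (lt_or_ge (h0 * y) 1).elim
      (fun h => bothA_cert (s1 := true) (s2 := false) rfl hκ (en_pos (hx1 hx).le) (esg_rng (hx1 hx).le (hx2 hx').le).1 (mo_v x) covB42a covB81 hx hx'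
        Pool.Agent.Strip051.G.I6050_6500.Tab.C.BA48.c_pm_213_a noCut_EA noExt_EA F h trivial)
      (fun h => bothA_cert (s1 := true) (s2 := false) rfl hκ (en_pos (hx1 hx).le) (esg_rng (hx1 hx).le (hx2 hx').le).1 (mo_v x) covB42b covB81 hx hx'
        Pool.Agent.Strip051.G.I6050_6500.Tab.C.BA48.c_pm_213_b noCut_EA noExt_EA F h trivial)

theorem BA48_pm_303 {κ x : ℝ} (hκ : κ * h0 = ken x) (hx : ((649613803 : ℕ) : ℝ) / S ≤ x) (hx' : x ≤ (((649613803 : ℕ) : ℝ) + (48318383 : ℕ)) / S) :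
    TriA PP.cur (VE (h0 * 0) 3 κ (h0 * x) (eng.v x) (h0 * (3 / 40)) (tnt (h0 * x) (3 / 10)) (tbl tK x) (tbl tL x) (tbl (smT h0⁻¹ tC) x)) 3 0 3 4 8 1 (-1) :=
  (sideB hx hx').bothA (thrB hx hx') (en_pos (hx1 hx).le) (Or.inl rfl) (Or.inr rfl) fun y y' F =>
    bothA_cert (s1 := true) (s2 := false) rfl hκ (en_pos (hx1 hx).le) (esg_rng (hx1 hx).le (hx2 hx').le).1 (mo_v x) covB43 covB80 hx hx'
        Pool.Agent.Strip051.G.I6050_6500.Tab.C.BA48.c_pm_303 noCut_EA noExt_EA F trivial trivial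

theorem BA48_pm_313 {κ x : ℝ} (hκ : κ * h0 = ken x) (hx : ((649613803 : ℕ) : ℝ) / S ≤ x) (hx' : x ≤ (((649613803 : ℕ) : ℝ) + (48318383 : ℕ)) / S) :
    TriA PP.cur (VE (h0 * 0) 3 κ (h0 * x) (eng.v x) (h0 * (3 / 40)) (tnt (h0 * x) (3 / 10)) (tbl tK x) (tbl tL x) (tbl (smT h0⁻¹ tC) x)) 3 1 3 4 8 1 (-1) :=
  (sideB hx hx').bothA (thrB hx hx') (en_pos (hx1 hx).le) (Or.inl rfl) (Or.inr rfl) fun y y' F =>
    bothA_cert (s1 := true) (s2 := false) rfl hκ (en_pos (hx1 hx).le) (esg_rng (hx1 hx).le (hx2 hx').le).1 (mo_v x) covB43 covB81 hx hx'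
        Pool.Agent.Strip051.G.I6050_6500.Tab.C.BA48.c_pm_313 noCut_EA noExt_EA F trivial trivial

theorem BA48_mm_001 {κ x : ℝ} (hκ : κ * h0 = ken x) (hx : ((649613803 : ℕ) : ℝ) / S ≤ x) (hx' : x ≤ (((649613803 : ℕ) : ℝ) + (48318383 : ℕ)) / S) :
    TriA PP.cur (VE (h0 * 0) 3 κ (h0 * x) (eng.v x) (h0 * (3 / 40)) (tnt (h0 * x) (3 / 10)) (tbl tK x) (tbl tL x) (tbl (smT h0⁻¹ tC) x)) 0 0 1 4 8 (-1) (-1) :=
  (sideB hx hx').bothA (thrB hx hx') (en_pos (hx1 hx).le) (Or.inr rfl) (Or.inr rfl) fun y y' F =>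
    bothA_cert (s1 := false) (s2 := false) rfl hκ (en_pos (hx1 hx).le) (esg_rng (hx1 hx).le (hx2 hx').le).1 (mo_v x) covB40 covB80 hx hx'
        Pool.Agent.Strip051.G.I6050_6500.Tab.C.BA48.c_mm_001 noCut_EA noExt_EA F trivial trivial

theorem BA48_mm_011 {κ x : ℝ} (hκ : κ * h0 = ken x) (hx : ((649613803 : ℕ) : ℝ) / S ≤ x) (hx' : x ≤ (((649613803 : ℕ) : ℝ) + (48318383 : ℕ)) / S) :
    TriA PP.cur (VE (h0 * 0) 3 κ (h0 * x) (eng.v x) (h0 * (3 / 40)) (tnt (h0 * x) (3 / 10)) (tbl tK x) (tbl tL x) (tbl (smT h0⁻¹ tC) x)) 0 1 1 4 8 (-1) (-1) :=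
  (sideB hx hx').bothA (thrB hx hx') (en_pos (hx1 hx).le) (Or.inr rfl) (Or.inr rfl) fun y y' F =>
    bothA_cert (s1 := false) (s2 := false) rfl hκ (en_pos (hx1 hx).le) (esg_rng (hx1 hx).le (hx2 hx').le).1 (mo_v x) covB40 covB81 hx hx'
        Pool.Agent.Strip051.G.I6050_6500.Tab.C.BA48.c_mm_011 noCut_EA noExt_EA F trivial trivial

theorem BA48_mm_012 {κ x : ℝ} (hκ : κ * h0 = ken x) (hx : ((649613803 : ℕ) : ℝ) / S ≤ x) (hx' : x ≤ (((649613803 : ℕ) : ℝ) + (48318383 : ℕ)) / S) :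
    TriA PP.cur (VE (h0 * 0) 3 κ (h0 * x) (eng.v x) (h0 * (3 / 40)) (tnt (h0 * x) (3 / 10)) (tbl tK x) (tbl tL x) (tbl (smT h0⁻¹ tC) x)) 0 1 2 4 8 (-1) (-1) :=
  (sideB hx hx').bothA (thrB hx hx') (en_pos (hx1 hx).le) (Or.inr rfl) (Or.inr rfl) fun y y' F =>
    bothA_cert (s1 := false) (s2 := false) rfl hκ (en_pos (hx1 hx).le) (esg_rng (hx1 hx).le (hx2 hx').le).1 (mo_v x) covB40 covB81 hx hx'
        Pool.Agent.Strip051.G.I6050_6500.Tab.C.BA48.c_mm_012 noCut_EA noExt_EA F trivial trivial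

theorem BA48_mm_022 {κ x : ℝ} (hκ : κ * h0 = ken x) (hx : ((649613803 : ℕ) : ℝ) / S ≤ x) (hx' : x ≤ (((649613803 : ℕ) : ℝ) + (48318383 : ℕ)) / S) :
    TriA PP.cur (VE (h0 * 0) 3 κ (h0 * x) (eng.v x) (h0 * (3 / 40)) (tnt (h0 * x) (3 / 10)) (tbl tK x) (tbl tL x) (tbl (smT h0⁻¹ tC) x)) 0 2 2 4 8 (-1) (-1) :=
  (sideB hx hx').bothA (thrB hx hx') (en_pos (hx1 hx).le) (Or.inr rfl) (Or.inr rfl) fun y y' F =>
    bothA_cert (s1 := false) (s2 := false) rfl hκ (en_pos (hx1 hx).le) (esg_rng (hx1 hx).le (hx2 hx').le).1 (mo_v x) covB40 covB82 hx hx'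
        Pool.Agent.Strip051.G.I6050_6500.Tab.C.BA48.c_mm_022 noCut_EA noExt_EA F trivial trivial

theorem BA48_mm_023 {κ x : ℝ} (hκ : κ * h0 = ken x) (hx : ((649613803 : ℕ) : ℝ) / S ≤ x) (hx' : x ≤ (((649613803 : ℕ) : ℝ) + (48318383 : ℕ)) / S) :
    TriA PP.cur (VE (h0 * 0) 3 κ (h0 * x) (eng.v x) (h0 * (3 / 40)) (tnt (h0 * x) (3 / 10)) (tbl tK x) (tbl tL x) (tbl (smT h0⁻¹ tC) x)) 0 2 3 4 8 (-1) (-1) :=
  (sideB hx hx').bothA (thrB hx hx') (en_pos (hx1 hx).le) (Or.inr rfl) (Or.inr rfl) fun y y' F =>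
    bothA_cert (s1 := false) (s2 := false) rfl hκ (en_pos (hx1 hx).le) (esg_rng (hx1 hx).le (hx2 hx').le).1 (mo_v x) covB40 covB82 hx hx'
        Pool.Agent.Strip051.G.I6050_6500.Tab.C.BA48.c_mm_023 noCut_EA noExt_EA F trivial trivial

theorem BA48_mm_033 {κ x : ℝ} (hκ : κ * h0 = ken x) (hx : ((649613803 : ℕ) : ℝ) / S ≤ x) (hx' : x ≤ (((649613803 : ℕ) : ℝ) + (48318383 : ℕ)) / S) :
    TriA PP.cur (VE (h0 * 0) 3 κ (h0 * x) (eng.v x) (h0 * (3 / 40)) (tnt (h0 * x) (3 / 10)) (tbl tK x) (tbl tL x) (tbl (smT h0⁻¹ tC) x)) 0 3 3 4 8 (-1) (-1) :=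
  (sideB hx hx').bothA (thrB hx hx') (en_pos (hx1 hx).le) (Or.inr rfl) (Or.inr rfl) fun y y' F =>
    bothA_cert (s1 := false) (s2 := false) rfl hκ (en_pos (hx1 hx).le) (esg_rng (hx1 hx).le (hx2 hx').le).1 (mo_v x) covB40 covB83 hx hx'
        Pool.Agent.Strip051.G.I6050_6500.Tab.C.BA48.c_mm_033 noCut_EA noExt_EA F trivial trivial

theorem BA48_mm_101 {κ x : ℝ} (hκ : κ * h0 = ken x) (hx : ((649613803 : ℕ) : ℝ) / S ≤ x) (hx' : x ≤ (((649613803 : ℕ) : ℝ) + (48318383 : ℕ)) / S) :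
    TriA PP.cur (VE (h0 * 0) 3 κ (h0 * x) (eng.v x) (h0 * (3 / 40)) (tnt (h0 * x) (3 / 10)) (tbl tK x) (tbl tL x) (tbl (smT h0⁻¹ tC) x)) 1 0 1 4 8 (-1) (-1) :=
  (sideB hx hx').bothA (thrB hx hx') (en_pos (hx1 hx).le) (Or.inr rfl) (Or.inr rfl) fun y y' F =>
    bothA_cert (s1 := false) (s2 := false) rfl hκ (en_pos (hx1 hx).le) (esg_rng (hx1 hx).le (hx2 hx').le).1 (mo_v x) covB41 covB80 hx hx'
        Pool.Agent.Strip051.G.I6050_6500.Tab.C.BA48.c_mm_101 noCut_EA noExt_EA F trivial trivial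

theorem BA48_mm_102 {κ x : ℝ} (hκ : κ * h0 = ken x) (hx : ((649613803 : ℕ) : ℝ) / S ≤ x) (hx' : x ≤ (((649613803 : ℕ) : ℝ) + (48318383 : ℕ)) / S) :
    TriA PP.cur (VE (h0 * 0) 3 κ (h0 * x) (eng.v x) (h0 * (3 / 40)) (tnt (h0 * x) (3 / 10)) (tbl tK x) (tbl tL x) (tbl (smT h0⁻¹ tC) x)) 1 0 2 4 8 (-1) (-1) :=
  (sideB hx hx').bothA (thrB hx hx') (en_pos (hx1 hx).le) (Or.inr rfl) (Or.inr rfl) fun y y' F =>
    bothA_cert (s1 := false) (s2 := false) rfl hκ (en_pos (hx1 hx).le) (esg_rng (hx1 hx).le (hx2 hx').le).1 (mo_v x) covB41 covB80 hx hx'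
        Pool.Agent.Strip051.G.I6050_6500.Tab.C.BA48.c_mm_102 noCut_EA noExt_EA F trivial trivial

theorem BA48_mm_112 {κ x : ℝ} (hκ : κ * h0 = ken x) (hx : ((649613803 : ℕ) : ℝ) / S ≤ x) (hx' : x ≤ (((649613803 : ℕ) : ℝ) + (48318383 : ℕ)) / S) :
    TriA PP.cur (VE (h0 * 0) 3 κ (h0 * x) (eng.v x) (h0 * (3 / 40)) (tnt (h0 * x) (3 / 10)) (tbl tK x) (tbl tL x) (tbl (smT h0⁻¹ tC) x)) 1 1 2 4 8 (-1) (-1) :=
  (sideB hx hx').bothA (thrB hx hx') (en_pos (hx1 hx).le) (Or.inr rfl) (Or.inr rfl) fun y y' F =>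
    bothA_cert (s1 := false) (s2 := false) rfl hκ (en_pos (hx1 hx).le) (esg_rng (hx1 hx).le (hx2 hx').le).1 (mo_v x) covB41 covB81 hx hx'
        Pool.Agent.Strip051.G.I6050_6500.Tab.C.BA48.c_mm_112 noCut_EA noExt_EA F trivial trivial

theorem BA48_mm_113 {κ x : ℝ} (hκ : κ * h0 = ken x) (hx : ((649613803 : ℕ) : ℝ) / S ≤ x) (hx' : x ≤ (((649613803 : ℕ) : ℝ) + (48318383 : ℕ)) / S) :
    TriA PP.cur (VE (h0 * 0) 3 κ (h0 * x) (eng.v x) (h0 * (3 / 40)) (tnt (h0 * x) (3 / 10)) (tbl tK x) (tbl tL x) (tbl (smT h0⁻¹ tC) x)) 1 1 3 4 8 (-1) (-1) :=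
  (sideB hx hx').bothA (thrB hx hx') (en_pos (hx1 hx).le) (Or.inr rfl) (Or.inr rfl) fun y y' F =>
    bothA_cert (s1 := false) (s2 := false) rfl hκ (en_pos (hx1 hx).le) (esg_rng (hx1 hx).le (hx2 hx').le).1 (mo_v x) covB41 covB81 hx hx'
        Pool.Agent.Strip051.G.I6050_6500.Tab.C.BA48.c_mm_113 noCut_EA noExt_EA F trivial trivial

theorem BA48_mm_123 {κ x : ℝ} (hκ : κ * h0 = ken x) (hx : ((649613803 : ℕ) : ℝ) / S ≤ x) (hx' : x ≤ (((649613803 : ℕ) : ℝ) + (48318383 : ℕ)) / S) :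
    TriA PP.cur (VE (h0 * 0) 3 κ (h0 * x) (eng.v x) (h0 * (3 / 40)) (tnt (h0 * x) (3 / 10)) (tbl tK x) (tbl tL x) (tbl (smT h0⁻¹ tC) x)) 1 2 3 4 8 (-1) (-1) :=
  (sideB hx hx').bothA (thrB hx hx') (en_pos (hx1 hx).le) (Or.inr rfl) (Or.inr rfl) fun y y' F =>
    bothA_cert (s1 := false) (s2 := false) rfl hκ (en_pos (hx1 hx).le) (esg_rng (hx1 hx).le (hx2 hx').le).1 (mo_v x) covB41 covB82 hx hx'
        Pool.Agent.Strip051.G.I6050_6500.Tab.C.BA48.c_mm_123 noCut_EA noExt_EA F trivial trivial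

theorem BA48_mm_133 {κ x : ℝ} (hκ : κ * h0 = ken x) (hx : ((649613803 : ℕ) : ℝ) / S ≤ x) (hx' : x ≤ (((649613803 : ℕ) : ℝ) + (48318383 : ℕ)) / S) :
    TriA PP.cur (VE (h0 * 0) 3 κ (h0 * x) (eng.v x) (h0 * (3 / 40)) (tnt (h0 * x) (3 / 10)) (tbl tK x) (tbl tL x) (tbl (smT h0⁻¹ tC) x)) 1 3 3 4 8 (-1) (-1) :=
  (sideB hx hx').bothA (thrB hx hx') (en_pos (hx1 hx).le) (Or.inr rfl) (Or.inr rfl) fun y y' F =>
    bothA_cert (s1 := false) (s2 := false) rfl hκ (en_pos (hx1 hx).le) (esg_rng (hx1 hx).le (hx2 hx').le).1 (mo_v x) covB41 covB83 hx hx'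
        Pool.Agent.Strip051.G.I6050_6500.Tab.C.BA48.c_mm_133 noCut_EA noExt_EA F trivial trivial

theorem BA48_mm_202 {κ x : ℝ} (hκ : κ * h0 = ken x) (hx : ((649613803 : ℕ) : ℝ) / S ≤ x) (hx' : x ≤ (((649613803 : ℕ) : ℝ) + (48318383 : ℕ)) / S) :
    TriA PP.cur (VE (h0 * 0) 3 κ (h0 * x) (eng.v x) (h0 * (3 / 40)) (tnt (h0 * x) (3 / 10)) (tbl tK x) (tbl tL x) (tbl (smT h0⁻¹ tC) x)) 2 0 2 4 8 (-1) (-1) :=
  (sideB hx hx').bothA (thrB hx hx') (en_pos (hx1 hx).le) (Or.inr rfl) (Or.inr rfl) fun y y' F =>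
    (lt_or_ge (h0 * y) 1).elim
      (fun h => bothA_cert (s1 := false) (s2 := false) rfl hκ (en_pos (hx1 hx).le) (esg_rng (hx1 hx).le (hx2 hx').le).1 (mo_v x) covB42a covB80 hx hx'
        Pool.Agent.Strip051.G.I6050_6500.Tab.C.BA48.c_mm_202_a noCut_EA noExt_EA F h trivial)
      (fun h => bothA_cert (s1 := false) (s2 := false) rfl hκ (en_pos (hx1 hx).le) (esg_rng (hx1 hx).le (hx2 hx').le).1 (mo_v x) covB42b covB80 hx hx'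
        Pool.Agent.Strip051.G.I6050_6500.Tab.C.BA48.c_mm_202_b noCut_EA noExt_EA F h trivial)

theorem BA48_mm_203 {κ x : ℝ} (hκ : κ * h0 = ken x) (hx : ((649613803 : ℕ) : ℝ) / S ≤ x) (hx' : x ≤ (((649613803 : ℕ) : ℝ) + (48318383 : ℕ)) / S) :
    TriA PP.cur (VE (h0 * 0) 3 κ (h0 * x) (eng.v x) (h0 * (3 / 40)) (tnt (h0 * x) (3 / 10)) (tbl tK x) (tbl tL x) (tbl (smT h0⁻¹ tC) x)) 2 0 3 4 8 (-1) (-1) :=
  (sideB hx hx').bothA (thrB hx hx') (en_pos (hx1 hx).le) (Or.inr rfl) (Or.inr rfl) fun y y' F =>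
    (lt_or_ge (h0 * y) 1).elim
      (fun h => bothA_cert (s1 := false) (s2 := false) rfl hκ (en_pos (hx1 hx).le) (esg_rng (hx1 hx).le (hx2 hx').le).1 (mo_v x) covB42a covB80 hx hx'
        Pool.Agent.Strip051.G.I6050_6500.Tab.C.BA48.c_mm_203_a noCut_EA noExt_EA F h trivial)
      (fun h => bothA_cert (s1 := false) (s2 := false) rfl hκ (en_pos (hx1 hx).le) (esg_rng (hx1 hx).le (hx2 hx').le).1 (mo_v x) covB42b covB80 hx hx'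
        Pool.Agent.Strip051.G.I6050_6500.Tab.C.BA48.c_mm_203_b noCut_EA noExt_EA F h trivial)

theorem BA48_mm_213 {κ x : ℝ} (hκ : κ * h0 = ken x) (hx : ((649613803 : ℕ) : ℝ) / S ≤ x) (hx' : x ≤ (((649613803 : ℕ) : ℝ) + (48318383 : ℕ)) / S) :
    TriA PP.cur (VE (h0 * 0) 3 κ (h0 * x) (eng.v x) (h0 * (3 / 40)) (tnt (h0 * x) (3 / 10)) (tbl tK x) (tbl tL x) (tbl (smT h0⁻¹ tC) x)) 2 1 3 4 8 (-1) (-1) :=
  (sideB hx hx').bothA (thrB hx hx') (en_pos (hx1 hx).le) (Or.inr rfl) (Or.inr rfl) fun y y' F =>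
    (lt_or_ge (h0 * y) 1).elim
      (fun h => bothA_cert (s1 := false) (s2 := false) rfl hκ (en_pos (hx1 hx).le) (esg_rng (hx1 hx).le (hx2 hx').le).1 (mo_v x) covB42a covB81 hx hx'
        Pool.Agent.Strip051.G.I6050_6500.Tab.C.BA48.c_mm_213_a noCut_EA noExt_EA F h trivial)
      (fun h => bothA_cert (s1 := false) (s2 := false) rfl hκ (en_pos (hx1 hx).le) (esg_rng (hx1 hx).le (hx2 hx').le).1 (mo_v x) covB42b covB81 hx hx'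
        Pool.Agent.Strip051.G.I6050_6500.Tab.C.BA48.c_mm_213_b noCut_EA noExt_EA F h trivial)

theorem BA48_mm_303 {κ x : ℝ} (hκ : κ * h0 = ken x) (hx : ((649613803 : ℕ) : ℝ) / S ≤ x) (hx' : x ≤ (((649613803 : ℕ) : ℝ) + (48318383 : ℕ)) / S) :
    TriA PP.cur (VE (h0 * 0) 3 κ (h0 * x) (eng.v x) (h0 * (3 / 40)) (tnt (h0 * x) (3 / 10)) (tbl tK x) (tbl tL x) (tbl (smT h0⁻¹ tC) x)) 3 0 3 4 8 (-1) (-1) :=
  (sideB hx hx').bothA (thrB hx hx') (en_pos (hx1 hx).le) (Or.inr rfl) (Or.inr rfl) fun y y' F =>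
    bothA_cert (s1 := false) (s2 := false) rfl hκ (en_pos (hx1 hx).le) (esg_rng (hx1 hx).le (hx2 hx').le).1 (mo_v x) covB43 covB80 hx hx'
        Pool.Agent.Strip051.G.I6050_6500.Tab.C.BA48.c_mm_303 noCut_EA noExt_EA F trivial trivial

theorem BA48_mm_313 {κ x : ℝ} (hκ : κ * h0 = ken x) (hx : ((649613803 : ℕ) : ℝ) / S ≤ x) (hx' : x ≤ (((649613803 : ℕ) : ℝ) + (48318383 : ℕ)) / S) :
    TriA PP.cur (VE (h0 * 0) 3 κ (h0 * x) (eng.v x) (h0 * (3 / 40)) (tnt (h0 * x) (3 / 10)) (tbl tK x) (tbl tL x) (tbl (smT h0⁻¹ tC) x)) 3 1 3 4 8 (-1) (-1) :=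
  (sideB hx hx').bothA (thrB hx hx') (en_pos (hx1 hx).le) (Or.inr rfl) (Or.inr rfl) fun y y' F =>
    bothA_cert (s1 := false) (s2 := false) rfl hκ (en_pos (hx1 hx).le) (esg_rng (hx1 hx).le (hx2 hx').le).1 (mo_v x) covB43 covB81 hx hx'
        Pool.Agent.Strip051.G.I6050_6500.Tab.C.BA48.c_mm_313 noCut_EA noExt_EA F trivial trivial

theorem BA48 {κ x : ℝ} (hκ : κ * h0 = ken x) (hx : ((649613803 : ℕ) : ℝ) / S ≤ x) (hx' : x ≤ (((649613803 : ℕ) : ℝ) + (48318383 : ℕ)) / S) : AllTA PP.cur (VE (h0 * 0) 3 κ (h0 * x) (eng.v x) (h0 * (3 / 40)) (tnt (h0 * x) (3 / 10)) (tbl tK x) (tbl tL x) (tbl (smT h0⁻¹ tC) x)) 4 8 where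
  pp := all17 (Q := fun a b c => TriA PP.cur (VE (h0 * 0) 3 κ (h0 * x) (eng.v x) (h0 * (3 / 40)) (tnt (h0 * x) (3 / 10)) (tbl tK x) (tbl tL x) (tbl (smT h0⁻¹ tC) x)) a b c 4 8 1 1)
    (BA48_pp_001 hκ hx hx') (BA48_pp_011 hκ hx hx') (BA48_pp_012 hκ hx hx') (BA48_pp_022 hκ hx hx') (BA48_pp_023 hκ hx hx') (BA48_pp_033 hκ hx hx') (BA48_pp_101 hκ hx hx') (BA48_pp_102 hκ hx hx') (BA48_pp_112 hκ hx hx') (BA48_pp_113 hκ hx hx') (BA48_pp_123 hκ hx hx') (BA48_pp_133 hκ hx hx') (BA48_pp_202 hκ hx hx') (BA48_pp_203 hκ hx hx') (BA48_pp_213 hκ hx hx') (BA48_pp_303 hκ hx hx') (BA48_pp_313 hκ hx hx')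
  pm := all17 (Q := fun a b c => TriA PP.cur (VE (h0 * 0) 3 κ (h0 * x) (eng.v x) (h0 * (3 / 40)) (tnt (h0 * x) (3 / 10)) (tbl tK x) (tbl tL x) (tbl (smT h0⁻¹ tC) x)) a b c 4 8 1 (-1))
    (BA48_pm_001 hκ hx hx') (BA48_pm_011 hκ hx hx') (BA48_pm_012 hκ hx hx') (BA48_pm_022 hκ hx hx') (BA48_pm_023 hκ hx hx') (BA48_pm_033 hκ hx hx') (BA48_pm_101 hκ hx hx') (BA48_pm_102 hκ hx hx') (BA48_pm_112 hκ hx hx') (BA48_pm_113 hκ hx hx') (BA48_pm_123 hκ hx hx') (BA48_pm_133 hκ hx hx') (BA48_pm_202 hκ hx hx') (BA48_pm_203 hκ hx hx') (BA48_pm_213 hκ hx hx') (BA48_pm_303 hκ hx hx') (BA48_pm_313 hκ hx hx')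
  mm := all17 (Q := fun a b c => TriA PP.cur (VE (h0 * 0) 3 κ (h0 * x) (eng.v x) (h0 * (3 / 40)) (tnt (h0 * x) (3 / 10)) (tbl tK x) (tbl tL x) (tbl (smT h0⁻¹ tC) x)) a b c 4 8 (-1) (-1))
    (BA48_mm_001 hκ hx hx') (BA48_mm_011 hκ hx hx') (BA48_mm_012 hκ hx hx') (BA48_mm_022 hκ hx hx') (BA48_mm_023 hκ hx hx') (BA48_mm_033 hκ hx hx') (BA48_mm_101 hκ hx hx') (BA48_mm_102 hκ hx hx') (BA48_mm_112 hκ hx hx') (BA48_mm_113 hκ hx hx') (BA48_mm_123 hκ hx hx') (BA48_mm_133 hκ hx hx') (BA48_mm_202 hκ hx hx') (BA48_mm_203 hκ hx hx') (BA48_mm_213 hκ hx hx') (BA48_mm_303 hκ hx hx') (BA48_mm_313 hκ hx hx')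

theorem BA55_pp_001 {κ x : ℝ} (hκ : κ * h0 = ken x) (hx : ((649613803 : ℕ) : ℝ) / S ≤ x) (hx' : x ≤ (((649613803 : ℕ) : ℝ) + (48318383 : ℕ)) / S) :
    TriA PP.cur (VE (h0 * 0) 3 κ (h0 * x) (eng.v x) (h0 * (3 / 40)) (tnt (h0 * x) (3 / 10)) (tbl tK x) (tbl tL x) (tbl (smT h0⁻¹ tC) x)) 0 0 1 5 5 1 1 :=
  (sideB hx hx').bothA (thrB hx hx') (en_pos (hx1 hx).le) (Or.inl rfl) (Or.inl rfl) fun y y' F =>
    bothA_cert (s1 := true) (s2 := true) rfl hκ (en_pos (hx1 hx).le) (esg_rng (hx1 hx).le (hx2 hx').le).1 (mo_v x) covB50 covB50 hx hx'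
        Pool.Agent.Strip051.G.I6050_6500.Tab.C.BA55.c_pp_001 noCut_EA noExt_EA F trivial trivial

theorem BA55_pp_011 {κ x : ℝ} (hκ : κ * h0 = ken x) (hx : ((649613803 : ℕ) : ℝ) / S ≤ x) (hx' : x ≤ (((649613803 : ℕ) : ℝ) + (48318383 : ℕ)) / S) :
    TriA PP.cur (VE (h0 * 0) 3 κ (h0 * x) (eng.v x) (h0 * (3 / 40)) (tnt (h0 * x) (3 / 10)) (tbl tK x) (tbl tL x) (tbl (smT h0⁻¹ tC) x)) 0 1 1 5 5 1 1 :=
  (sideB hx hx').bothA (thrB hx hx') (en_pos (hx1 hx).le) (Or.inl rfl) (Or.inl rfl) fun y y' F =>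
    bothA_cert (s1 := true) (s2 := true) rfl hκ (en_pos (hx1 hx).le) (esg_rng (hx1 hx).le (hx2 hx').le).1 (mo_v x) covB50 covB51 hx hx'
        Pool.Agent.Strip051.G.I6050_6500.Tab.C.BA55.c_pp_011 noCut_EA noExt_EA F trivial trivial

theorem BA55_pp_012 {κ x : ℝ} (hκ : κ * h0 = ken x) (hx : ((649613803 : ℕ) : ℝ) / S ≤ x) (hx' : x ≤ (((649613803 : ℕ) : ℝ) + (48318383 : ℕ)) / S) :
    TriA PP.cur (VE (h0 * 0) 3 κ (h0 * x) (eng.v x) (h0 * (3 / 40)) (tnt (h0 * x) (3 / 10)) (tbl tK x) (tbl tL x) (tbl (smT h0⁻¹ tC) x)) 0 1 2 5 5 1 1 :=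
  (sideB hx hx').bothA (thrB hx hx') (en_pos (hx1 hx).le) (Or.inl rfl) (Or.inl rfl) fun y y' F =>
    bothA_cert (s1 := true) (s2 := true) rfl hκ (en_pos (hx1 hx).le) (esg_rng (hx1 hx).le (hx2 hx').le).1 (mo_v x) covB50 covB51 hx hx'
        Pool.Agent.Strip051.G.I6050_6500.Tab.C.BA55.c_pp_012 noCut_EA noExt_EA F trivial trivial

theorem BA55_pp_022 {κ x : ℝ} (hκ : κ * h0 = ken x) (hx : ((649613803 : ℕ) : ℝ) / S ≤ x) (hx' : x ≤ (((649613803 : ℕ) : ℝ) + (48318383 : ℕ)) / S) :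
    TriA PP.cur (VE (h0 * 0) 3 κ (h0 * x) (eng.v x) (h0 * (3 / 40)) (tnt (h0 * x) (3 / 10)) (tbl tK x) (tbl tL x) (tbl (smT h0⁻¹ tC) x)) 0 2 2 5 5 1 1 :=
  (sideB hx hx').bothA (thrB hx hx') (en_pos (hx1 hx).le) (Or.inl rfl) (Or.inl rfl) fun y y' F =>
    bothA_cert (s1 := true) (s2 := true) rfl hκ (en_pos (hx1 hx).le) (esg_rng (hx1 hx).le (hx2 hx').le).1 (mo_v x) covB50 covB52 hx hx'
        Pool.Agent.Strip051.G.I6050_6500.Tab.C.BA55.c_pp_022 noCut_EA noExt_EA F trivial trivial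

theorem BA55_pp_023 {κ x : ℝ} (hκ : κ * h0 = ken x) (hx : ((649613803 : ℕ) : ℝ) / S ≤ x) (hx' : x ≤ (((649613803 : ℕ) : ℝ) + (48318383 : ℕ)) / S) :
    TriA PP.cur (VE (h0 * 0) 3 κ (h0 * x) (eng.v x) (h0 * (3 / 40)) (tnt (h0 * x) (3 / 10)) (tbl tK x) (tbl tL x) (tbl (smT h0⁻¹ tC) x)) 0 2 3 5 5 1 1 :=
  (sideB hx hx').bothA (thrB hx hx') (en_pos (hx1 hx).le) (Or.inl rfl) (Or.inl rfl) fun y y' F =>
    bothA_cert (s1 := true) (s2 := true) rfl hκ (en_pos (hx1 hx).le) (esg_rng (hx1 hx).le (hx2 hx').le).1 (mo_v x) covB50 covB52 hx hx'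
        Pool.Agent.Strip051.G.I6050_6500.Tab.C.BA55.c_pp_023 noCut_EA noExt_EA F trivial trivial

theorem BA55_pp_033 {κ x : ℝ} (hκ : κ * h0 = ken x) (hx : ((649613803 : ℕ) : ℝ) / S ≤ x) (hx' : x ≤ (((649613803 : ℕ) : ℝ) + (48318383 : ℕ)) / S) :
    TriA PP.cur (VE (h0 * 0) 3 κ (h0 * x) (eng.v x) (h0 * (3 / 40)) (tnt (h0 * x) (3 / 10)) (tbl tK x) (tbl tL x) (tbl (smT h0⁻¹ tC) x)) 0 3 3 5 5 1 1 :=
  (sideB hx hx').bothA (thrB hx hx') (en_pos (hx1 hx).le) (Or.inl rfl) (Or.inl rfl) fun y y' F =>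
    bothA_cert (s1 := true) (s2 := true) rfl hκ (en_pos (hx1 hx).le) (esg_rng (hx1 hx).le (hx2 hx').le).1 (mo_v x) covB50 covB53 hx hx'
        Pool.Agent.Strip051.G.I6050_6500.Tab.C.BA55.c_pp_033 noCut_EA noExt_EA F trivial trivial

theorem BA55_pp_101 {κ x : ℝ} (hκ : κ * h0 = ken x) (hx : ((649613803 : ℕ) : ℝ) / S ≤ x) (hx' : x ≤ (((649613803 : ℕ) : ℝ) + (48318383 : ℕ)) / S) :
    TriA PP.cur (VE (h0 * 0) 3 κ (h0 * x) (eng.v x) (h0 * (3 / 40)) (tnt (h0 * x) (3 / 10)) (tbl tK x) (tbl tL x) (tbl (smT h0⁻¹ tC) x)) 1 0 1 5 5 1 1 :=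
  (sideB hx hx').bothA (thrB hx hx') (en_pos (hx1 hx).le) (Or.inl rfl) (Or.inl rfl) fun y y' F =>
    bothA_cert (s1 := true) (s2 := true) rfl hκ (en_pos (hx1 hx).le) (esg_rng (hx1 hx).le (hx2 hx').le).1 (mo_v x) covB51 covB50 hx hx'
        Pool.Agent.Strip051.G.I6050_6500.Tab.C.BA55.c_pp_101 noCut_EA noExt_EA F trivial trivial

theorem BA55_pp_102 {κ x : ℝ} (hκ : κ * h0 = ken x) (hx : ((649613803 : ℕ) : ℝ) / S ≤ x) (hx' : x ≤ (((649613803 : ℕ) : ℝ) + (48318383 : ℕ)) / S) :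
    TriA PP.cur (VE (h0 * 0) 3 κ (h0 * x) (eng.v x) (h0 * (3 / 40)) (tnt (h0 * x) (3 / 10)) (tbl tK x) (tbl tL x) (tbl (smT h0⁻¹ tC) x)) 1 0 2 5 5 1 1 :=
  (sideB hx hx').bothA (thrB hx hx') (en_pos (hx1 hx).le) (Or.inl rfl) (Or.inl rfl) fun y y' F =>
    bothA_cert (s1 := true) (s2 := true) rfl hκ (en_pos (hx1 hx).le) (esg_rng (hx1 hx).le (hx2 hx').le).1 (mo_v x) covB51 covB50 hx hx'
        Pool.Agent.Strip051.G.I6050_6500.Tab.C.BA55.c_pp_102 noCut_EA noExt_EA F trivial trivial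

theorem BA55_pp_112 {κ x : ℝ} (hκ : κ * h0 = ken x) (hx : ((649613803 : ℕ) : ℝ) / S ≤ x) (hx' : x ≤ (((649613803 : ℕ) : ℝ) + (48318383 : ℕ)) / S) :
    TriA PP.cur (VE (h0 * 0) 3 κ (h0 * x) (eng.v x) (h0 * (3 / 40)) (tnt (h0 * x) (3 / 10)) (tbl tK x) (tbl tL x) (tbl (smT h0⁻¹ tC) x)) 1 1 2 5 5 1 1 :=
  (sideB hx hx').bothA (thrB hx hx') (en_pos (hx1 hx).le) (Or.inl rfl) (Or.inl rfl) fun y y' F =>
    bothA_cert (s1 := true) (s2 := true) rfl hκ (en_pos (hx1 hx).le) (esg_rng (hx1 hx).le (hx2 hx').le).1 (mo_v x) covB51 covB51 hx hx'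
        Pool.Agent.Strip051.G.I6050_6500.Tab.C.BA55.c_pp_112 noCut_EA noExt_EA F trivial trivial

theorem BA55_pp_113 {κ x : ℝ} (hκ : κ * h0 = ken x) (hx : ((649613803 : ℕ) : ℝ) / S ≤ x) (hx' : x ≤ (((649613803 : ℕ) : ℝ) + (48318383 : ℕ)) / S) :
    TriA PP.cur (VE (h0 * 0) 3 κ (h0 * x) (eng.v x) (h0 * (3 / 40)) (tnt (h0 * x) (3 / 10)) (tbl tK x) (tbl tL x) (tbl (smT h0⁻¹ tC) x)) 1 1 3 5 5 1 1 :=
  (sideB hx hx').bothA (thrB hx hx') (en_pos (hx1 hx).le) (Or.inl rfl) (Or.inl rfl) fun y y' F =>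
    bothA_cert (s1 := true) (s2 := true) rfl hκ (en_pos (hx1 hx).le) (esg_rng (hx1 hx).le (hx2 hx').le).1 (mo_v x) covB51 covB51 hx hx'
        Pool.Agent.Strip051.G.I6050_6500.Tab.C.BA55.c_pp_113 noCut_EA noExt_EA F trivial trivial

theorem BA55_pp_123 {κ x : ℝ} (hκ : κ * h0 = ken x) (hx : ((649613803 : ℕ) : ℝ) / S ≤ x) (hx' : x ≤ (((649613803 : ℕ) : ℝ) + (48318383 : ℕ)) / S) :
    TriA PP.cur (VE (h0 * 0) 3 κ (h0 * x) (eng.v x) (h0 * (3 / 40)) (tnt (h0 * x) (3 / 10)) (tbl tK x) (tbl tL x) (tbl (smT h0⁻¹ tC) x)) 1 2 3 5 5 1 1 :=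
  (sideB hx hx').bothA (thrB hx hx') (en_pos (hx1 hx).le) (Or.inl rfl) (Or.inl rfl) fun y y' F =>
    bothA_cert (s1 := true) (s2 := true) rfl hκ (en_pos (hx1 hx).le) (esg_rng (hx1 hx).le (hx2 hx').le).1 (mo_v x) covB51 covB52 hx hx'
        Pool.Agent.Strip051.G.I6050_6500.Tab.C.BA55.c_pp_123 noCut_EA noExt_EA F trivial trivial

theorem BA55_pp_133 {κ x : ℝ} (hκ : κ * h0 = ken x) (hx : ((649613803 : ℕ) : ℝ) / S ≤ x) (hx' : x ≤ (((649613803 : ℕ) : ℝ) + (48318383 : ℕ)) / S) :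
    TriA PP.cur (VE (h0 * 0) 3 κ (h0 * x) (eng.v x) (h0 * (3 / 40)) (tnt (h0 * x) (3 / 10)) (tbl tK x) (tbl tL x) (tbl (smT h0⁻¹ tC) x)) 1 3 3 5 5 1 1 :=
  (sideB hx hx').bothA (thrB hx hx') (en_pos (hx1 hx).le) (Or.inl rfl) (Or.inl rfl) fun y y' F =>
    bothA_cert (s1 := true) (s2 := true) rfl hκ (en_pos (hx1 hx).le) (esg_rng (hx1 hx).le (hx2 hx').le).1 (mo_v x) covB51 covB53 hx hx'
        Pool.Agent.Strip051.G.I6050_6500.Tab.C.BA55.c_pp_133 noCut_EA noExt_EA F trivial trivial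

theorem BA55_pp_202 {κ x : ℝ} (hκ : κ * h0 = ken x) (hx : ((649613803 : ℕ) : ℝ) / S ≤ x) (hx' : x ≤ (((649613803 : ℕ) : ℝ) + (48318383 : ℕ)) / S) :
    TriA PP.cur (VE (h0 * 0) 3 κ (h0 * x) (eng.v x) (h0 * (3 / 40)) (tnt (h0 * x) (3 / 10)) (tbl tK x) (tbl tL x) (tbl (smT h0⁻¹ tC) x)) 2 0 2 5 5 1 1 :=
  (sideB hx hx').bothA (thrB hx hx') (en_pos (hx1 hx).le) (Or.inl rfl) (Or.inl rfl) fun y y' F =>
    bothA_cert (s1 := true) (s2 := true) rfl hκ (en_pos (hx1 hx).le) (esg_rng (hx1 hx).le (hx2 hx').le).1 (mo_v x) covB52 covB50 hx hx'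
        Pool.Agent.Strip051.G.I6050_6500.Tab.C.BA55.c_pp_202 noCut_EA noExt_EA F trivial trivial

theorem BA55_pp_203 {κ x : ℝ} (hκ : κ * h0 = ken x) (hx : ((649613803 : ℕ) : ℝ) / S ≤ x) (hx' : x ≤ (((649613803 : ℕ) : ℝ) + (48318383 : ℕ)) / S) :
    TriA PP.cur (VE (h0 * 0) 3 κ (h0 * x) (eng.v x) (h0 * (3 / 40)) (tnt (h0 * x) (3 / 10)) (tbl tK x) (tbl tL x) (tbl (smT h0⁻¹ tC) x)) 2 0 3 5 5 1 1 :=
  (sideB hx hx').bothA (thrB hx hx') (en_pos (hx1 hx).le) (Or.inl rfl) (Or.inl rfl) fun y y' F =>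
    bothA_cert (s1 := true) (s2 := true) rfl hκ (en_pos (hx1 hx).le) (esg_rng (hx1 hx).le (hx2 hx').le).1 (mo_v x) covB52 covB50 hx hx'
        Pool.Agent.Strip051.G.I6050_6500.Tab.C.BA55.c_pp_203 noCut_EA noExt_EA F trivial trivial

theorem BA55_pp_213 {κ x : ℝ} (hκ : κ * h0 = ken x) (hx : ((649613803 : ℕ) : ℝ) / S ≤ x) (hx' : x ≤ (((649613803 : ℕ) : ℝ) + (48318383 : ℕ)) / S) :
    TriA PP.cur (VE (h0 * 0) 3 κ (h0 * x) (eng.v x) (h0 * (3 / 40)) (tnt (h0 * x) (3 / 10)) (tbl tK x) (tbl tL x) (tbl (smT h0⁻¹ tC) x)) 2 1 3 5 5 1 1 :=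
  (sideB hx hx').bothA (thrB hx hx') (en_pos (hx1 hx).le) (Or.inl rfl) (Or.inl rfl) fun y y' F =>
    bothA_cert (s1 := true) (s2 := true) rfl hκ (en_pos (hx1 hx).le) (esg_rng (hx1 hx).le (hx2 hx').le).1 (mo_v x) covB52 covB51 hx hx'
        Pool.Agent.Strip051.G.I6050_6500.Tab.C.BA55.c_pp_213 noCut_EA noExt_EA F trivial trivial

theorem BA55_pp_303 {κ x : ℝ} (hκ : κ * h0 = ken x) (hx : ((649613803 : ℕ) : ℝ) / S ≤ x) (hx' : x ≤ (((649613803 : ℕ) : ℝ) + (48318383 : ℕ)) / S) :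
    TriA PP.cur (VE (h0 * 0) 3 κ (h0 * x) (eng.v x) (h0 * (3 / 40)) (tnt (h0 * x) (3 / 10)) (tbl tK x) (tbl tL x) (tbl (smT h0⁻¹ tC) x)) 3 0 3 5 5 1 1 :=
  (sideB hx hx').bothA (thrB hx hx') (en_pos (hx1 hx).le) (Or.inl rfl) (Or.inl rfl) fun y y' F =>
    bothA_cert (s1 := true) (s2 := true) rfl hκ (en_pos (hx1 hx).le) (esg_rng (hx1 hx).le (hx2 hx').le).1 (mo_v x) covB53 covB50 hx hx'
        Pool.Agent.Strip051.G.I6050_6500.Tab.C.BA55.c_pp_303 noCut_EA noExt_EA F trivial trivial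

theorem BA55_pp_313 {κ x : ℝ} (hκ : κ * h0 = ken x) (hx : ((649613803 : ℕ) : ℝ) / S ≤ x) (hx' : x ≤ (((649613803 : ℕ) : ℝ) + (48318383 : ℕ)) / S) :
    TriA PP.cur (VE (h0 * 0) 3 κ (h0 * x) (eng.v x) (h0 * (3 / 40)) (tnt (h0 * x) (3 / 10)) (tbl tK x) (tbl tL x) (tbl (smT h0⁻¹ tC) x)) 3 1 3 5 5 1 1 :=
  (sideB hx hx').bothA (thrB hx hx') (en_pos (hx1 hx).le) (Or.inl rfl) (Or.inl rfl) fun y y' F =>
    bothA_cert (s1 := true) (s2 := true) rfl hκ (en_pos (hx1 hx).le) (esg_rng (hx1 hx).le (hx2 hx').le).1 (mo_v x) covB53 covB51 hx hx'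
        Pool.Agent.Strip051.G.I6050_6500.Tab.C.BA55.c_pp_313 noCut_EA noExt_EA F trivial trivial

theorem BA55_pm_001 {κ x : ℝ} (hκ : κ * h0 = ken x) (hx : ((649613803 : ℕ) : ℝ) / S ≤ x) (hx' : x ≤ (((649613803 : ℕ) : ℝ) + (48318383 : ℕ)) / S) :
    TriA PP.cur (VE (h0 * 0) 3 κ (h0 * x) (eng.v x) (h0 * (3 / 40)) (tnt (h0 * x) (3 / 10)) (tbl tK x) (tbl tL x) (tbl (smT h0⁻¹ tC) x)) 0 0 1 5 5 1 (-1) :=
  (sideB hx hx').bothA (thrB hx hx') (en_pos (hx1 hx).le) (Or.inl rfl) (Or.inr rfl) fun y y' F =>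
    bothA_cert (s1 := true) (s2 := false) rfl hκ (en_pos (hx1 hx).le) (esg_rng (hx1 hx).le (hx2 hx').le).1 (mo_v x) covB50 covB50 hx hx'
        Pool.Agent.Strip051.G.I6050_6500.Tab.C.BA55.c_pm_001 noCut_EA noExt_EA F trivial trivial

theorem BA55_pm_011 {κ x : ℝ} (hκ : κ * h0 = ken x) (hx : ((649613803 : ℕ) : ℝ) / S ≤ x) (hx' : x ≤ (((649613803 : ℕ) : ℝ) + (48318383 : ℕ)) / S) :
    TriA PP.cur (VE (h0 * 0) 3 κ (h0 * x) (eng.v x) (h0 * (3 / 40)) (tnt (h0 * x) (3 / 10)) (tbl tK x) (tbl tL x) (tbl (smT h0⁻¹ tC) x)) 0 1 1 5 5 1 (-1) :=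
  (sideB hx hx').bothA (thrB hx hx') (en_pos (hx1 hx).le) (Or.inl rfl) (Or.inr rfl) fun y y' F =>
    bothA_cert (s1 := true) (s2 := false) rfl hκ (en_pos (hx1 hx).le) (esg_rng (hx1 hx).le (hx2 hx').le).1 (mo_v x) covB50 covB51 hx hx'
        Pool.Agent.Strip051.G.I6050_6500.Tab.C.BA55.c_pm_011 noCut_EA noExt_EA F trivial trivial

theorem BA55_pm_012 {κ x : ℝ} (hκ : κ * h0 = ken x) (hx : ((649613803 : ℕ) : ℝ) / S ≤ x) (hx' : x ≤ (((649613803 : ℕ) : ℝ) + (48318383 : ℕ)) / S) :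
    TriA PP.cur (VE (h0 * 0) 3 κ (h0 * x) (eng.v x) (h0 * (3 / 40)) (tnt (h0 * x) (3 / 10)) (tbl tK x) (tbl tL x) (tbl (smT h0⁻¹ tC) x)) 0 1 2 5 5 1 (-1) :=
  (sideB hx hx').bothA (thrB hx hx') (en_pos (hx1 hx).le) (Or.inl rfl) (Or.inr rfl) fun y y' F =>
    bothA_cert (s1 := true) (s2 := false) rfl hκ (en_pos (hx1 hx).le) (esg_rng (hx1 hx).le (hx2 hx').le).1 (mo_v x) covB50 covB51 hx hx'
        Pool.Agent.Strip051.G.I6050_6500.Tab.C.BA55.c_pm_012 noCut_EA noExt_EA F trivial trivial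

theorem BA55_pm_022 {κ x : ℝ} (hκ : κ * h0 = ken x) (hx : ((649613803 : ℕ) : ℝ) / S ≤ x) (hx' : x ≤ (((649613803 : ℕ) : ℝ) + (48318383 : ℕ)) / S) :
    TriA PP.cur (VE (h0 * 0) 3 κ (h0 * x) (eng.v x) (h0 * (3 / 40)) (tnt (h0 * x) (3 / 10)) (tbl tK x) (tbl tL x) (tbl (smT h0⁻¹ tC) x)) 0 2 2 5 5 1 (-1) :=
  (sideB hx hx').bothA (thrB hx hx') (en_pos (hx1 hx).le) (Or.inl rfl) (Or.inr rfl) fun y y' F =>
    bothA_cert (s1 := true) (s2 := false) rfl hκ (en_pos (hx1 hx).le) (esg_rng (hx1 hx).le (hx2 hx').le).1 (mo_v x) covB50 covB52 hx hx'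
        Pool.Agent.Strip051.G.I6050_6500.Tab.C.BA55.c_pm_022 noCut_EA noExt_EA F trivial trivial

theorem BA55_pm_023 {κ x : ℝ} (hκ : κ * h0 = ken x) (hx : ((649613803 : ℕ) : ℝ) / S ≤ x) (hx' : x ≤ (((649613803 : ℕ) : ℝ) + (48318383 : ℕ)) / S) :
    TriA PP.cur (VE (h0 * 0) 3 κ (h0 * x) (eng.v x) (h0 * (3 / 40)) (tnt (h0 * x) (3 / 10)) (tbl tK x) (tbl tL x) (tbl (smT h0⁻¹ tC) x)) 0 2 3 5 5 1 (-1) :=
  (sideB hx hx').bothA (thrB hx hx') (en_pos (hx1 hx).le) (Or.inl rfl) (Or.inr rfl) fun y y' F =>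
    bothA_cert (s1 := true) (s2 := false) rfl hκ (en_pos (hx1 hx).le) (esg_rng (hx1 hx).le (hx2 hx').le).1 (mo_v x) covB50 covB52 hx hx'
        Pool.Agent.Strip051.G.I6050_6500.Tab.C.BA55.c_pm_023 noCut_EA noExt_EA F trivial trivial

theorem BA55_pm_033 {κ x : ℝ} (hκ : κ * h0 = ken x) (hx : ((649613803 : ℕ) : ℝ) / S ≤ x) (hx' : x ≤ (((649613803 : ℕ) : ℝ) + (48318383 : ℕ)) / S) :
    TriA PP.cur (VE (h0 * 0) 3 κ (h0 * x) (eng.v x) (h0 * (3 / 40)) (tnt (h0 * x) (3 / 10)) (tbl tK x) (tbl tL x) (tbl (smT h0⁻¹ tC) x)) 0 3 3 5 5 1 (-1) :=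
  (sideB hx hx').bothA (thrB hx hx') (en_pos (hx1 hx).le) (Or.inl rfl) (Or.inr rfl) fun y y' F =>
    bothA_cert (s1 := true) (s2 := false) rfl hκ (en_pos (hx1 hx).le) (esg_rng (hx1 hx).le (hx2 hx').le).1 (mo_v x) covB50 covB53 hx hx'
        Pool.Agent.Strip051.G.I6050_6500.Tab.C.BA55.c_pm_033 noCut_EA noExt_EA F trivial trivial

theorem BA55_pm_101 {κ x : ℝ} (hκ : κ * h0 = ken x) (hx : ((649613803 : ℕ) : ℝ) / S ≤ x) (hx' : x ≤ (((649613803 : ℕ) : ℝ) + (48318383 : ℕ)) / S) :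
    TriA PP.cur (VE (h0 * 0) 3 κ (h0 * x) (eng.v x) (h0 * (3 / 40)) (tnt (h0 * x) (3 / 10)) (tbl tK x) (tbl tL x) (tbl (smT h0⁻¹ tC) x)) 1 0 1 5 5 1 (-1) :=
  (sideB hx hx').bothA (thrB hx hx') (en_pos (hx1 hx).le) (Or.inl rfl) (Or.inr rfl) fun y y' F =>
    bothA_cert (s1 := true) (s2 := false) rfl hκ (en_pos (hx1 hx).le) (esg_rng (hx1 hx).le (hx2 hx').le).1 (mo_v x) covB51 covB50 hx hx'
        Pool.Agent.Strip051.G.I6050_6500.Tab.C.BA55.c_pm_101 noCut_EA noExt_EA F trivial trivial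

theorem BA55_pm_102 {κ x : ℝ} (hκ : κ * h0 = ken x) (hx : ((649613803 : ℕ) : ℝ) / S ≤ x) (hx' : x ≤ (((649613803 : ℕ) : ℝ) + (48318383 : ℕ)) / S) :
    TriA PP.cur (VE (h0 * 0) 3 κ (h0 * x) (eng.v x) (h0 * (3 / 40)) (tnt (h0 * x) (3 / 10)) (tbl tK x) (tbl tL x) (tbl (smT h0⁻¹ tC) x)) 1 0 2 5 5 1 (-1) :=
  (sideB hx hx').bothA (thrB hx hx') (en_pos (hx1 hx).le) (Or.inl rfl) (Or.inr rfl) fun y y' F =>
    bothA_cert (s1 := true) (s2 := false) rfl hκ (en_pos (hx1 hx).le) (esg_rng (hx1 hx).le (hx2 hx').le).1 (mo_v x) covB51 covB50 hx hx'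
        Pool.Agent.Strip051.G.I6050_6500.Tab.C.BA55.c_pm_102 noCut_EA noExt_EA F trivial trivial

theorem BA55_pm_112 {κ x : ℝ} (hκ : κ * h0 = ken x) (hx : ((649613803 : ℕ) : ℝ) / S ≤ x) (hx' : x ≤ (((649613803 : ℕ) : ℝ) + (48318383 : ℕ)) / S) :
    TriA PP.cur (VE (h0 * 0) 3 κ (h0 * x) (eng.v x) (h0 * (3 / 40)) (tnt (h0 * x) (3 / 10)) (tbl tK x) (tbl tL x) (tbl (smT h0⁻¹ tC) x)) 1 1 2 5 5 1 (-1) :=
  (sideB hx hx').bothA (thrB hx hx') (en_pos (hx1 hx).le) (Or.inl rfl) (Or.inr rfl) fun y y' F =>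
    bothA_cert (s1 := true) (s2 := false) rfl hκ (en_pos (hx1 hx).le) (esg_rng (hx1 hx).le (hx2 hx').le).1 (mo_v x) covB51 covB51 hx hx'
        Pool.Agent.Strip051.G.I6050_6500.Tab.C.BA55.c_pm_112 noCut_EA noExt_EA F trivial trivial

theorem BA55_pm_113 {κ x : ℝ} (hκ : κ * h0 = ken x) (hx : ((649613803 : ℕ) : ℝ) / S ≤ x) (hx' : x ≤ (((649613803 : ℕ) : ℝ) + (48318383 : ℕ)) / S) :
    TriA PP.cur (VE (h0 * 0) 3 κ (h0 * x) (eng.v x) (h0 * (3 / 40)) (tnt (h0 * x) (3 / 10)) (tbl tK x) (tbl tL x) (tbl (smT h0⁻¹ tC) x)) 1 1 3 5 5 1 (-1) :=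
  (sideB hx hx').bothA (thrB hx hx') (en_pos (hx1 hx).le) (Or.inl rfl) (Or.inr rfl) fun y y' F =>
    bothA_cert (s1 := true) (s2 := false) rfl hκ (en_pos (hx1 hx).le) (esg_rng (hx1 hx).le (hx2 hx').le).1 (mo_v x) covB51 covB51 hx hx'
        Pool.Agent.Strip051.G.I6050_6500.Tab.C.BA55.c_pm_113 noCut_EA noExt_EA F trivial trivial

theorem BA55_pm_123 {κ x : ℝ} (hκ : κ * h0 = ken x) (hx : ((649613803 : ℕ) : ℝ) / S ≤ x) (hx' : x ≤ (((649613803 : ℕ) : ℝ) + (48318383 : ℕ)) / S) :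
    TriA PP.cur (VE (h0 * 0) 3 κ (h0 * x) (eng.v x) (h0 * (3 / 40)) (tnt (h0 * x) (3 / 10)) (tbl tK x) (tbl tL x) (tbl (smT h0⁻¹ tC) x)) 1 2 3 5 5 1 (-1) :=
  (sideB hx hx').bothA (thrB hx hx') (en_pos (hx1 hx).le) (Or.inl rfl) (Or.inr rfl) fun y y' F =>
    bothA_cert (s1 := true) (s2 := false) rfl hκ (en_pos (hx1 hx).le) (esg_rng (hx1 hx).le (hx2 hx').le).1 (mo_v x) covB51 covB52 hx hx'
        Pool.Agent.Strip051.G.I6050_6500.Tab.C.BA55.c_pm_123 noCut_EA noExt_EA F trivial trivial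

theorem BA55_pm_133 {κ x : ℝ} (hκ : κ * h0 = ken x) (hx : ((649613803 : ℕ) : ℝ) / S ≤ x) (hx' : x ≤ (((649613803 : ℕ) : ℝ) + (48318383 : ℕ)) / S) :
    TriA PP.cur (VE (h0 * 0) 3 κ (h0 * x) (eng.v x) (h0 * (3 / 40)) (tnt (h0 * x) (3 / 10)) (tbl tK x) (tbl tL x) (tbl (smT h0⁻¹ tC) x)) 1 3 3 5 5 1 (-1) :=
  (sideB hx hx').bothA (thrB hx hx') (en_pos (hx1 hx).le) (Or.inl rfl) (Or.inr rfl) fun y y' F =>
    bothA_cert (s1 := true) (s2 := false) rfl hκ (en_pos (hx1 hx).le) (esg_rng (hx1 hx).le (hx2 hx').le).1 (mo_v x) covB51 covB53 hx hx'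
        Pool.Agent.Strip051.G.I6050_6500.Tab.C.BA55.c_pm_133 noCut_EA noExt_EA F trivial trivial

theorem BA55_pm_202 {κ x : ℝ} (hκ : κ * h0 = ken x) (hx : ((649613803 : ℕ) : ℝ) / S ≤ x) (hx' : x ≤ (((649613803 : ℕ) : ℝ) + (48318383 : ℕ)) / S) :
    TriA PP.cur (VE (h0 * 0) 3 κ (h0 * x) (eng.v x) (h0 * (3 / 40)) (tnt (h0 * x) (3 / 10)) (tbl tK x) (tbl tL x) (tbl (smT h0⁻¹ tC) x)) 2 0 2 5 5 1 (-1) :=
  (sideB hx hx').bothA (thrB hx hx') (en_pos (hx1 hx).le) (Or.inl rfl) (Or.inr rfl) fun y y' F =>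
    bothA_cert (s1 := true) (s2 := false) rfl hκ (en_pos (hx1 hx).le) (esg_rng (hx1 hx).le (hx2 hx').le).1 (mo_v x) covB52 covB50 hx hx'
        Pool.Agent.Strip051.G.I6050_6500.Tab.C.BA55.c_pm_202 noCut_EA noExt_EA F trivial trivial

theorem BA55_pm_203 {κ x : ℝ} (hκ : κ * h0 = ken x) (hx : ((649613803 : ℕ) : ℝ) / S ≤ x) (hx' : x ≤ (((649613803 : ℕ) : ℝ) + (48318383 : ℕ)) / S) :
    TriA PP.cur (VE (h0 * 0) 3 κ (h0 * x) (eng.v x) (h0 * (3 / 40)) (tnt (h0 * x) (3 / 10)) (tbl tK x) (tbl tL x) (tbl (smT h0⁻¹ tC) x)) 2 0 3 5 5 1 (-1) :=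
  (sideB hx hx').bothA (thrB hx hx') (en_pos (hx1 hx).le) (Or.inl rfl) (Or.inr rfl) fun y y' F =>
    bothA_cert (s1 := true) (s2 := false) rfl hκ (en_pos (hx1 hx).le) (esg_rng (hx1 hx).le (hx2 hx').le).1 (mo_v x) covB52 covB50 hx hx'
        Pool.Agent.Strip051.G.I6050_6500.Tab.C.BA55.c_pm_203 noCut_EA noExt_EA F trivial trivial

theorem BA55_pm_213 {κ x : ℝ} (hκ : κ * h0 = ken x) (hx : ((649613803 : ℕ) : ℝ) / S ≤ x) (hx' : x ≤ (((649613803 : ℕ) : ℝ) + (48318383 : ℕ)) / S) :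
    TriA PP.cur (VE (h0 * 0) 3 κ (h0 * x) (eng.v x) (h0 * (3 / 40)) (tnt (h0 * x) (3 / 10)) (tbl tK x) (tbl tL x) (tbl (smT h0⁻¹ tC) x)) 2 1 3 5 5 1 (-1) :=
  (sideB hx hx').bothA (thrB hx hx') (en_pos (hx1 hx).le) (Or.inl rfl) (Or.inr rfl) fun y y' F =>
    bothA_cert (s1 := true) (s2 := false) rfl hκ (en_pos (hx1 hx).le) (esg_rng (hx1 hx).le (hx2 hx').le).1 (mo_v x) covB52 covB51 hx hx'
        Pool.Agent.Strip051.G.I6050_6500.Tab.C.BA55.c_pm_213 noCut_EA noExt_EA F trivial trivial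

theorem BA55_pm_303 {κ x : ℝ} (hκ : κ * h0 = ken x) (hx : ((649613803 : ℕ) : ℝ) / S ≤ x) (hx' : x ≤ (((649613803 : ℕ) : ℝ) + (48318383 : ℕ)) / S) :
    TriA PP.cur (VE (h0 * 0) 3 κ (h0 * x) (eng.v x) (h0 * (3 / 40)) (tnt (h0 * x) (3 / 10)) (tbl tK x) (tbl tL x) (tbl (smT h0⁻¹ tC) x)) 3 0 3 5 5 1 (-1) :=
  (sideB hx hx').bothA (thrB hx hx') (en_pos (hx1 hx).le) (Or.inl rfl) (Or.inr rfl) fun y y' F =>
    bothA_cert (s1 := true) (s2 := false) rfl hκ (en_pos (hx1 hx).le) (esg_rng (hx1 hx).le (hx2 hx').le).1 (mo_v x) covB53 covB50 hx hx'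
        Pool.Agent.Strip051.G.I6050_6500.Tab.C.BA55.c_pm_303 noCut_EA noExt_EA F trivial trivial

theorem BA55_pm_313 {κ x : ℝ} (hκ : κ * h0 = ken x) (hx : ((649613803 : ℕ) : ℝ) / S ≤ x) (hx' : x ≤ (((649613803 : ℕ) : ℝ) + (48318383 : ℕ)) / S) :
    TriA PP.cur (VE (h0 * 0) 3 κ (h0 * x) (eng.v x) (h0 * (3 / 40)) (tnt (h0 * x) (3 / 10)) (tbl tK x) (tbl tL x) (tbl (smT h0⁻¹ tC) x)) 3 1 3 5 5 1 (-1) :=
  (sideB hx hx').bothA (thrB hx hx') (en_pos (hx1 hx).le) (Or.inl rfl) (Or.inr rfl) fun y y' F =>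
    bothA_cert (s1 := true) (s2 := false) rfl hκ (en_pos (hx1 hx).le) (esg_rng (hx1 hx).le (hx2 hx').le).1 (mo_v x) covB53 covB51 hx hx'
        Pool.Agent.Strip051.G.I6050_6500.Tab.C.BA55.c_pm_313 noCut_EA noExt_EA F trivial trivial

theorem BA55_mm_001 {κ x : ℝ} (hκ : κ * h0 = ken x) (hx : ((649613803 : ℕ) : ℝ) / S ≤ x) (hx' : x ≤ (((649613803 : ℕ) : ℝ) + (48318383 : ℕ)) / S) :
    TriA PP.cur (VE (h0 * 0) 3 κ (h0 * x) (eng.v x) (h0 * (3 / 40)) (tnt (h0 * x) (3 / 10)) (tbl tK x) (tbl tL x) (tbl (smT h0⁻¹ tC) x)) 0 0 1 5 5 (-1) (-1) :=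
  (sideB hx hx').bothA (thrB hx hx') (en_pos (hx1 hx).le) (Or.inr rfl) (Or.inr rfl) fun y y' F =>
    bothA_cert (s1 := false) (s2 := false) rfl hκ (en_pos (hx1 hx).le) (esg_rng (hx1 hx).le (hx2 hx').le).1 (mo_v x) covB50 covB50 hx hx'
        Pool.Agent.Strip051.G.I6050_6500.Tab.C.BA55.c_mm_001 noCut_EA noExt_EA F trivial trivial

theorem BA55_mm_011 {κ x : ℝ} (hκ : κ * h0 = ken x) (hx : ((649613803 : ℕ) : ℝ) / S ≤ x) (hx' : x ≤ (((649613803 : ℕ) : ℝ) + (48318383 : ℕ)) / S) :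
    TriA PP.cur (VE (h0 * 0) 3 κ (h0 * x) (eng.v x) (h0 * (3 / 40)) (tnt (h0 * x) (3 / 10)) (tbl tK x) (tbl tL x) (tbl (smT h0⁻¹ tC) x)) 0 1 1 5 5 (-1) (-1) :=
  (sideB hx hx').bothA (thrB hx hx') (en_pos (hx1 hx).le) (Or.inr rfl) (Or.inr rfl) fun y y' F =>
    bothA_cert (s1 := false) (s2 := false) rfl hκ (en_pos (hx1 hx).le) (esg_rng (hx1 hx).le (hx2 hx').le).1 (mo_v x) covB50 covB51 hx hx'
        Pool.Agent.Strip051.G.I6050_6500.Tab.C.BA55.c_mm_011 noCut_EA noExt_EA F trivial trivial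

theorem BA55_mm_012 {κ x : ℝ} (hκ : κ * h0 = ken x) (hx : ((649613803 : ℕ) : ℝ) / S ≤ x) (hx' : x ≤ (((649613803 : ℕ) : ℝ) + (48318383 : ℕ)) / S) :
    TriA PP.cur (VE (h0 * 0) 3 κ (h0 * x) (eng.v x) (h0 * (3 / 40)) (tnt (h0 * x) (3 / 10)) (tbl tK x) (tbl tL x) (tbl (smT h0⁻¹ tC) x)) 0 1 2 5 5 (-1) (-1) :=
  (sideB hx hx').bothA (thrB hx hx') (en_pos (hx1 hx).le) (Or.inr rfl) (Or.inr rfl) fun y y' F =>
    bothA_cert (s1 := false) (s2 := false) rfl hκ (en_pos (hx1 hx).le) (esg_rng (hx1 hx).le (hx2 hx').le).1 (mo_v x) covB50 covB51 hx hx'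
        Pool.Agent.Strip051.G.I6050_6500.Tab.C.BA55.c_mm_012 noCut_EA noExt_EA F trivial trivial

theorem BA55_mm_022 {κ x : ℝ} (hκ : κ * h0 = ken x) (hx : ((649613803 : ℕ) : ℝ) / S ≤ x) (hx' : x ≤ (((649613803 : ℕ) : ℝ) + (48318383 : ℕ)) / S) :
    TriA PP.cur (VE (h0 * 0) 3 κ (h0 * x) (eng.v x) (h0 * (3 / 40)) (tnt (h0 * x) (3 / 10)) (tbl tK x) (tbl tL x) (tbl (smT h0⁻¹ tC) x)) 0 2 2 5 5 (-1) (-1) :=
  (sideB hx hx').bothA (thrB hx hx') (en_pos (hx1 hx).le) (Or.inr rfl) (Or.inr rfl) fun y y' F =>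
    bothA_cert (s1 := false) (s2 := false) rfl hκ (en_pos (hx1 hx).le) (esg_rng (hx1 hx).le (hx2 hx').le).1 (mo_v x) covB50 covB52 hx hx'
        Pool.Agent.Strip051.G.I6050_6500.Tab.C.BA55.c_mm_022 noCut_EA noExt_EA F trivial trivial

theorem BA55_mm_023 {κ x : ℝ} (hκ : κ * h0 = ken x) (hx : ((649613803 : ℕ) : ℝ) / S ≤ x) (hx' : x ≤ (((649613803 : ℕ) : ℝ) + (48318383 : ℕ)) / S) :
    TriA PP.cur (VE (h0 * 0) 3 κ (h0 * x) (eng.v x) (h0 * (3 / 40)) (tnt (h0 * x) (3 / 10)) (tbl tK x) (tbl tL x) (tbl (smT h0⁻¹ tC) x)) 0 2 3 5 5 (-1) (-1) :=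
  (sideB hx hx').bothA (thrB hx hx') (en_pos (hx1 hx).le) (Or.inr rfl) (Or.inr rfl) fun y y' F =>
    bothA_cert (s1 := false) (s2 := false) rfl hκ (en_pos (hx1 hx).le) (esg_rng (hx1 hx).le (hx2 hx').le).1 (mo_v x) covB50 covB52 hx hx'
        Pool.Agent.Strip051.G.I6050_6500.Tab.C.BA55.c_mm_023 noCut_EA noExt_EA F trivial trivial

theorem BA55_mm_033 {κ x : ℝ} (hκ : κ * h0 = ken x) (hx : ((649613803 : ℕ) : ℝ) / S ≤ x) (hx' : x ≤ (((649613803 : ℕ) : ℝ) + (48318383 : ℕ)) / S) :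
    TriA PP.cur (VE (h0 * 0) 3 κ (h0 * x) (eng.v x) (h0 * (3 / 40)) (tnt (h0 * x) (3 / 10)) (tbl tK x) (tbl tL x) (tbl (smT h0⁻¹ tC) x)) 0 3 3 5 5 (-1) (-1) :=
  (sideB hx hx').bothA (thrB hx hx') (en_pos (hx1 hx).le) (Or.inr rfl) (Or.inr rfl) fun y y' F =>
    bothA_cert (s1 := false) (s2 := false) rfl hκ (en_pos (hx1 hx).le) (esg_rng (hx1 hx).le (hx2 hx').le).1 (mo_v x) covB50 covB53 hx hx'
        Pool.Agent.Strip051.G.I6050_6500.Tab.C.BA55.c_mm_033 noCut_EA noExt_EA F trivial trivial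

theorem BA55_mm_101 {κ x : ℝ} (hκ : κ * h0 = ken x) (hx : ((649613803 : ℕ) : ℝ) / S ≤ x) (hx' : x ≤ (((649613803 : ℕ) : ℝ) + (48318383 : ℕ)) / S) :
    TriA PP.cur (VE (h0 * 0) 3 κ (h0 * x) (eng.v x) (h0 * (3 / 40)) (tnt (h0 * x) (3 / 10)) (tbl tK x) (tbl tL x) (tbl (smT h0⁻¹ tC) x)) 1 0 1 5 5 (-1) (-1) :=
  (sideB hx hx').bothA (thrB hx hx') (en_pos (hx1 hx).le) (Or.inr rfl) (Or.inr rfl) fun y y' F =>
    bothA_cert (s1 := false) (s2 := false) rfl hκ (en_pos (hx1 hx).le) (esg_rng (hx1 hx).le (hx2 hx').le).1 (mo_v x) covB51 covB50 hx hx'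
        Pool.Agent.Strip051.G.I6050_6500.Tab.C.BA55.c_mm_101 noCut_EA noExt_EA F trivial trivial

theorem BA55_mm_102 {κ x : ℝ} (hκ : κ * h0 = ken x) (hx : ((649613803 : ℕ) : ℝ) / S ≤ x) (hx' : x ≤ (((649613803 : ℕ) : ℝ) + (48318383 : ℕ)) / S) :
    TriA PP.cur (VE (h0 * 0) 3 κ (h0 * x) (eng.v x) (h0 * (3 / 40)) (tnt (h0 * x) (3 / 10)) (tbl tK x) (tbl tL x) (tbl (smT h0⁻¹ tC) x)) 1 0 2 5 5 (-1) (-1) :=
  (sideB hx hx').bothA (thrB hx hx') (en_pos (hx1 hx).le) (Or.inr rfl) (Or.inr rfl) fun y y' F =>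
    bothA_cert (s1 := false) (s2 := false) rfl hκ (en_pos (hx1 hx).le) (esg_rng (hx1 hx).le (hx2 hx').le).1 (mo_v x) covB51 covB50 hx hx'
        Pool.Agent.Strip051.G.I6050_6500.Tab.C.BA55.c_mm_102 noCut_EA noExt_EA F trivial trivial

theorem BA55_mm_112 {κ x : ℝ} (hκ : κ * h0 = ken x) (hx : ((649613803 : ℕ) : ℝ) / S ≤ x) (hx' : x ≤ (((649613803 : ℕ) : ℝ) + (48318383 : ℕ)) / S) :
    TriA PP.cur (VE (h0 * 0) 3 κ (h0 * x) (eng.v x) (h0 * (3 / 40)) (tnt (h0 * x) (3 / 10)) (tbl tK x) (tbl tL x) (tbl (smT h0⁻¹ tC) x)) 1 1 2 5 5 (-1) (-1) :=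
  (sideB hx hx').bothA (thrB hx hx') (en_pos (hx1 hx).le) (Or.inr rfl) (Or.inr rfl) fun y y' F =>
    bothA_cert (s1 := false) (s2 := false) rfl hκ (en_pos (hx1 hx).le) (esg_rng (hx1 hx).le (hx2 hx').le).1 (mo_v x) covB51 covB51 hx hx'
        Pool.Agent.Strip051.G.I6050_6500.Tab.C.BA55.c_mm_112 noCut_EA noExt_EA F trivial trivial

theorem BA55_mm_113 {κ x : ℝ} (hκ : κ * h0 = ken x) (hx : ((649613803 : ℕ) : ℝ) / S ≤ x) (hx' : x ≤ (((649613803 : ℕ) : ℝ) + (48318383 : ℕ)) / S) :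
    TriA PP.cur (VE (h0 * 0) 3 κ (h0 * x) (eng.v x) (h0 * (3 / 40)) (tnt (h0 * x) (3 / 10)) (tbl tK x) (tbl tL x) (tbl (smT h0⁻¹ tC) x)) 1 1 3 5 5 (-1) (-1) :=
  (sideB hx hx').bothA (thrB hx hx') (en_pos (hx1 hx).le) (Or.inr rfl) (Or.inr rfl) fun y y' F =>
    bothA_cert (s1 := false) (s2 := false) rfl hκ (en_pos (hx1 hx).le) (esg_rng (hx1 hx).le (hx2 hx').le).1 (mo_v x) covB51 covB51 hx hx'
        Pool.Agent.Strip051.G.I6050_6500.Tab.C.BA55.c_mm_113 noCut_EA noExt_EA F trivial trivial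

theorem BA55_mm_123 {κ x : ℝ} (hκ : κ * h0 = ken x) (hx : ((649613803 : ℕ) : ℝ) / S ≤ x) (hx' : x ≤ (((649613803 : ℕ) : ℝ) + (48318383 : ℕ)) / S) :
    TriA PP.cur (VE (h0 * 0) 3 κ (h0 * x) (eng.v x) (h0 * (3 / 40)) (tnt (h0 * x) (3 / 10)) (tbl tK x) (tbl tL x) (tbl (smT h0⁻¹ tC) x)) 1 2 3 5 5 (-1) (-1) :=
  (sideB hx hx').bothA (thrB hx hx') (en_pos (hx1 hx).le) (Or.inr rfl) (Or.inr rfl) fun y y' F =>
    bothA_cert (s1 := false) (s2 := false) rfl hκ (en_pos (hx1 hx).le) (esg_rng (hx1 hx).le (hx2 hx').le).1 (mo_v x) covB51 covB52 hx hx'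
        Pool.Agent.Strip051.G.I6050_6500.Tab.C.BA55.c_mm_123 noCut_EA noExt_EA F trivial trivial

theorem BA55_mm_133 {κ x : ℝ} (hκ : κ * h0 = ken x) (hx : ((649613803 : ℕ) : ℝ) / S ≤ x) (hx' : x ≤ (((649613803 : ℕ) : ℝ) + (48318383 : ℕ)) / S) :
    TriA PP.cur (VE (h0 * 0) 3 κ (h0 * x) (eng.v x) (h0 * (3 / 40)) (tnt (h0 * x) (3 / 10)) (tbl tK x) (tbl tL x) (tbl (smT h0⁻¹ tC) x)) 1 3 3 5 5 (-1) (-1) :=
  (sideB hx hx').bothA (thrB hx hx') (en_pos (hx1 hx).le) (Or.inr rfl) (Or.inr rfl) fun y y' F =>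
    bothA_cert (s1 := false) (s2 := false) rfl hκ (en_pos (hx1 hx).le) (esg_rng (hx1 hx).le (hx2 hx').le).1 (mo_v x) covB51 covB53 hx hx'
        Pool.Agent.Strip051.G.I6050_6500.Tab.C.BA55.c_mm_133 noCut_EA noExt_EA F trivial trivial

theorem BA55_mm_202 {κ x : ℝ} (hκ : κ * h0 = ken x) (hx : ((649613803 : ℕ) : ℝ) / S ≤ x) (hx' : x ≤ (((649613803 : ℕ) : ℝ) + (48318383 : ℕ)) / S) :
    TriA PP.cur (VE (h0 * 0) 3 κ (h0 * x) (eng.v x) (h0 * (3 / 40)) (tnt (h0 * x) (3 / 10)) (tbl tK x) (tbl tL x) (tbl (smT h0⁻¹ tC) x)) 2 0 2 5 5 (-1) (-1) :=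
  (sideB hx hx').bothA (thrB hx hx') (en_pos (hx1 hx).le) (Or.inr rfl) (Or.inr rfl) fun y y' F =>
    bothA_cert (s1 := false) (s2 := false) rfl hκ (en_pos (hx1 hx).le) (esg_rng (hx1 hx).le (hx2 hx').le).1 (mo_v x) covB52 covB50 hx hx'
        Pool.Agent.Strip051.G.I6050_6500.Tab.C.BA55.c_mm_202 noCut_EA noExt_EA F trivial trivial

theorem BA55_mm_203 {κ x : ℝ} (hκ : κ * h0 = ken x) (hx : ((649613803 : ℕ) : ℝ) / S ≤ x) (hx' : x ≤ (((649613803 : ℕ) : ℝ) + (48318383 : ℕ)) / S) :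
    TriA PP.cur (VE (h0 * 0) 3 κ (h0 * x) (eng.v x) (h0 * (3 / 40)) (tnt (h0 * x) (3 / 10)) (tbl tK x) (tbl tL x) (tbl (smT h0⁻¹ tC) x)) 2 0 3 5 5 (-1) (-1) :=
  (sideB hx hx').bothA (thrB hx hx') (en_pos (hx1 hx).le) (Or.inr rfl) (Or.inr rfl) fun y y' F =>
    bothA_cert (s1 := false) (s2 := false) rfl hκ (en_pos (hx1 hx).le) (esg_rng (hx1 hx).le (hx2 hx').le).1 (mo_v x) covB52 covB50 hx hx'
        Pool.Agent.Strip051.G.I6050_6500.Tab.C.BA55.c_mm_203 noCut_EA noExt_EA F trivial trivial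

theorem BA55_mm_213 {κ x : ℝ} (hκ : κ * h0 = ken x) (hx : ((649613803 : ℕ) : ℝ) / S ≤ x) (hx' : x ≤ (((649613803 : ℕ) : ℝ) + (48318383 : ℕ)) / S) :
    TriA PP.cur (VE (h0 * 0) 3 κ (h0 * x) (eng.v x) (h0 * (3 / 40)) (tnt (h0 * x) (3 / 10)) (tbl tK x) (tbl tL x) (tbl (smT h0⁻¹ tC) x)) 2 1 3 5 5 (-1) (-1) :=
  (sideB hx hx').bothA (thrB hx hx') (en_pos (hx1 hx).le) (Or.inr rfl) (Or.inr rfl) fun y y' F =>
    bothA_cert (s1 := false) (s2 := false) rfl hκ (en_pos (hx1 hx).le) (esg_rng (hx1 hx).le (hx2 hx').le).1 (mo_v x) covB52 covB51 hx hx'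
        Pool.Agent.Strip051.G.I6050_6500.Tab.C.BA55.c_mm_213 noCut_EA noExt_EA F trivial trivial

theorem BA55_mm_303 {κ x : ℝ} (hκ : κ * h0 = ken x) (hx : ((649613803 : ℕ) : ℝ) / S ≤ x) (hx' : x ≤ (((649613803 : ℕ) : ℝ) + (48318383 : ℕ)) / S) :
    TriA PP.cur (VE (h0 * 0) 3 κ (h0 * x) (eng.v x) (h0 * (3 / 40)) (tnt (h0 * x) (3 / 10)) (tbl tK x) (tbl tL x) (tbl (smT h0⁻¹ tC) x)) 3 0 3 5 5 (-1) (-1) :=
  (sideB hx hx').bothA (thrB hx hx') (en_pos (hx1 hx).le) (Or.inr rfl) (Or.inr rfl) fun y y' F =>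
    bothA_cert (s1 := false) (s2 := false) rfl hκ (en_pos (hx1 hx).le) (esg_rng (hx1 hx).le (hx2 hx').le).1 (mo_v x) covB53 covB50 hx hx'
        Pool.Agent.Strip051.G.I6050_6500.Tab.C.BA55.c_mm_303 noCut_EA noExt_EA F trivial trivial

theorem BA55_mm_313 {κ x : ℝ} (hκ : κ * h0 = ken x) (hx : ((649613803 : ℕ) : ℝ) / S ≤ x) (hx' : x ≤ (((649613803 : ℕ) : ℝ) + (48318383 : ℕ)) / S) :
    TriA PP.cur (VE (h0 * 0) 3 κ (h0 * x) (eng.v x) (h0 * (3 / 40)) (tnt (h0 * x) (3 / 10)) (tbl tK x) (tbl tL x) (tbl (smT h0⁻¹ tC) x)) 3 1 3 5 5 (-1) (-1) :=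
  (sideB hx hx').bothA (thrB hx hx') (en_pos (hx1 hx).le) (Or.inr rfl) (Or.inr rfl) fun y y' F =>
    bothA_cert (s1 := false) (s2 := false) rfl hκ (en_pos (hx1 hx).le) (esg_rng (hx1 hx).le (hx2 hx').le).1 (mo_v x) covB53 covB51 hx hx'
        Pool.Agent.Strip051.G.I6050_6500.Tab.C.BA55.c_mm_313 noCut_EA noExt_EA F trivial trivial

theorem BA55 {κ x : ℝ} (hκ : κ * h0 = ken x) (hx : ((649613803 : ℕ) : ℝ) / S ≤ x) (hx' : x ≤ (((649613803 : ℕ) : ℝ) + (48318383 : ℕ)) / S) : AllTA PP.cur (VE (h0 * 0) 3 κ (h0 * x) (eng.v x) (h0 * (3 / 40)) (tnt (h0 * x) (3 / 10)) (tbl tK x) (tbl tL x) (tbl (smT h0⁻¹ tC) x)) 5 5 where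
  pp := all17 (Q := fun a b c => TriA PP.cur (VE (h0 * 0) 3 κ (h0 * x) (eng.v x) (h0 * (3 / 40)) (tnt (h0 * x) (3 / 10)) (tbl tK x) (tbl tL x) (tbl (smT h0⁻¹ tC) x)) a b c 5 5 1 1)
    (BA55_pp_001 hκ hx hx') (BA55_pp_011 hκ hx hx') (BA55_pp_012 hκ hx hx') (BA55_pp_022 hκ hx hx') (BA55_pp_023 hκ hx hx') (BA55_pp_033 hκ hx hx') (BA55_pp_101 hκ hx hx') (BA55_pp_102 hκ hx hx') (BA55_pp_112 hκ hx hx') (BA55_pp_113 hκ hx hx') (BA55_pp_123 hκ hx hx') (BA55_pp_133 hκ hx hx') (BA55_pp_202 hκ hx hx') (BA55_pp_203 hκ hx hx') (BA55_pp_213 hκ hx hx') (BA55_pp_303 hκ hx hx') (BA55_pp_313 hκ hx hx')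
  pm := all17 (Q := fun a b c => TriA PP.cur (VE (h0 * 0) 3 κ (h0 * x) (eng.v x) (h0 * (3 / 40)) (tnt (h0 * x) (3 / 10)) (tbl tK x) (tbl tL x) (tbl (smT h0⁻¹ tC) x)) a b c 5 5 1 (-1))
    (BA55_pm_001 hκ hx hx') (BA55_pm_011 hκ hx hx') (BA55_pm_012 hκ hx hx') (BA55_pm_022 hκ hx hx') (BA55_pm_023 hκ hx hx') (BA55_pm_033 hκ hx hx') (BA55_pm_101 hκ hx hx') (BA55_pm_102 hκ hx hx') (BA55_pm_112 hκ hx hx') (BA55_pm_113 hκ hx hx') (BA55_pm_123 hκ hx hx') (BA55_pm_133 hκ hx hx') (BA55_pm_202 hκ hx hx') (BA55_pm_203 hκ hx hx') (BA55_pm_213 hκ hx hx') (BA55_pm_303 hκ hx hx') (BA55_pm_313 hκ hx hx')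
  mm := all17 (Q := fun a b c => TriA PP.cur (VE (h0 * 0) 3 κ (h0 * x) (eng.v x) (h0 * (3 / 40)) (tnt (h0 * x) (3 / 10)) (tbl tK x) (tbl tL x) (tbl (smT h0⁻¹ tC) x)) a b c 5 5 (-1) (-1))
    (BA55_mm_001 hκ hx hx') (BA55_mm_011 hκ hx hx') (BA55_mm_012 hκ hx hx') (BA55_mm_022 hκ hx hx') (BA55_mm_023 hκ hx hx') (BA55_mm_033 hκ hx hx') (BA55_mm_101 hκ hx hx') (BA55_mm_102 hκ hx hx') (BA55_mm_112 hκ hx hx') (BA55_mm_113 hκ hx hx') (BA55_mm_123 hκ hx hx') (BA55_mm_133 hκ hx hx') (BA55_mm_202 hκ hx hx') (BA55_mm_203 hκ hx hx') (BA55_mm_213 hκ hx hx') (BA55_mm_303 hκ hx hx') (BA55_mm_313 hκ hx hx')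

theorem BA56_pp_001 {κ x : ℝ} (hκ : κ * h0 = ken x) (hx : ((649613803 : ℕ) : ℝ) / S ≤ x) (hx' : x ≤ (((649613803 : ℕ) : ℝ) + (48318383 : ℕ)) / S) :
    TriA PP.cur (VE (h0 * 0) 3 κ (h0 * x) (eng.v x) (h0 * (3 / 40)) (tnt (h0 * x) (3 / 10)) (tbl tK x) (tbl tL x) (tbl (smT h0⁻¹ tC) x)) 0 0 1 5 6 1 1 :=
  (sideB hx hx').bothA (thrB hx hx') (en_pos (hx1 hx).le) (Or.inl rfl) (Or.inl rfl) fun y y' F =>
    bothA_cert (s1 := true) (s2 := true) rfl hκ (en_pos (hx1 hx).le) (esg_rng (hx1 hx).le (hx2 hx').le).1 (mo_v x) covB50 covB60 hx hx'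
        Pool.Agent.Strip051.G.I6050_6500.Tab.C.BA56.c_pp_001 noCut_EA noExt_EA F trivial trivial

theorem BA56_pp_011 {κ x : ℝ} (hκ : κ * h0 = ken x) (hx : ((649613803 : ℕ) : ℝ) / S ≤ x) (hx' : x ≤ (((649613803 : ℕ) : ℝ) + (48318383 : ℕ)) / S) :
    TriA PP.cur (VE (h0 * 0) 3 κ (h0 * x) (eng.v x) (h0 * (3 / 40)) (tnt (h0 * x) (3 / 10)) (tbl tK x) (tbl tL x) (tbl (smT h0⁻¹ tC) x)) 0 1 1 5 6 1 1 :=
  (sideB hx hx').bothA (thrB hx hx') (en_pos (hx1 hx).le) (Or.inl rfl) (Or.inl rfl) fun y y' F =>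
    bothA_cert (s1 := true) (s2 := true) rfl hκ (en_pos (hx1 hx).le) (esg_rng (hx1 hx).le (hx2 hx').le).1 (mo_v x) covB50 covB61 hx hx'
        Pool.Agent.Strip051.G.I6050_6500.Tab.C.BA56.c_pp_011 noCut_EA noExt_EA F trivial trivial

theorem BA56_pp_012 {κ x : ℝ} (hκ : κ * h0 = ken x) (hx : ((649613803 : ℕ) : ℝ) / S ≤ x) (hx' : x ≤ (((649613803 : ℕ) : ℝ) + (48318383 : ℕ)) / S) :
    TriA PP.cur (VE (h0 * 0) 3 κ (h0 * x) (eng.v x) (h0 * (3 / 40)) (tnt (h0 * x) (3 / 10)) (tbl tK x) (tbl tL x) (tbl (smT h0⁻¹ tC) x)) 0 1 2 5 6 1 1 :=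
  (sideB hx hx').bothA (thrB hx hx') (en_pos (hx1 hx).le) (Or.inl rfl) (Or.inl rfl) fun y y' F =>
    bothA_cert (s1 := true) (s2 := true) rfl hκ (en_pos (hx1 hx).le) (esg_rng (hx1 hx).le (hx2 hx').le).1 (mo_v x) covB50 covB61 hx hx'
        Pool.Agent.Strip051.G.I6050_6500.Tab.C.BA56.c_pp_012 noCut_EA noExt_EA F trivial trivial

theorem BA56_pp_022 {κ x : ℝ} (hκ : κ * h0 = ken x) (hx : ((649613803 : ℕ) : ℝ) / S ≤ x) (hx' : x ≤ (((649613803 : ℕ) : ℝ) + (48318383 : ℕ)) / S) :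
    TriA PP.cur (VE (h0 * 0) 3 κ (h0 * x) (eng.v x) (h0 * (3 / 40)) (tnt (h0 * x) (3 / 10)) (tbl tK x) (tbl tL x) (tbl (smT h0⁻¹ tC) x)) 0 2 2 5 6 1 1 :=
  (sideB hx hx').bothA (thrB hx hx') (en_pos (hx1 hx).le) (Or.inl rfl) (Or.inl rfl) fun y y' F =>
    bothA_cert (s1 := true) (s2 := true) rfl hκ (en_pos (hx1 hx).le) (esg_rng (hx1 hx).le (hx2 hx').le).1 (mo_v x) covB50 covB62 hx hx'
        Pool.Agent.Strip051.G.I6050_6500.Tab.C.BA56.c_pp_022 noCut_EA noExt_EA F trivial trivial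

theorem BA56_pp_023 {κ x : ℝ} (hκ : κ * h0 = ken x) (hx : ((649613803 : ℕ) : ℝ) / S ≤ x) (hx' : x ≤ (((649613803 : ℕ) : ℝ) + (48318383 : ℕ)) / S) :
    TriA PP.cur (VE (h0 * 0) 3 κ (h0 * x) (eng.v x) (h0 * (3 / 40)) (tnt (h0 * x) (3 / 10)) (tbl tK x) (tbl tL x) (tbl (smT h0⁻¹ tC) x)) 0 2 3 5 6 1 1 :=
  (sideB hx hx').bothA (thrB hx hx') (en_pos (hx1 hx).le) (Or.inl rfl) (Or.inl rfl) fun y y' F =>
    bothA_cert (s1 := true) (s2 := true) rfl hκ (en_pos (hx1 hx).le) (esg_rng (hx1 hx).le (hx2 hx').le).1 (mo_v x) covB50 covB62 hx hx'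
        Pool.Agent.Strip051.G.I6050_6500.Tab.C.BA56.c_pp_023 noCut_EA noExt_EA F trivial trivial

theorem BA56_pp_033 {κ x : ℝ} (hκ : κ * h0 = ken x) (hx : ((649613803 : ℕ) : ℝ) / S ≤ x) (hx' : x ≤ (((649613803 : ℕ) : ℝ) + (48318383 : ℕ)) / S) :
    TriA PP.cur (VE (h0 * 0) 3 κ (h0 * x) (eng.v x) (h0 * (3 / 40)) (tnt (h0 * x) (3 / 10)) (tbl tK x) (tbl tL x) (tbl (smT h0⁻¹ tC) x)) 0 3 3 5 6 1 1 :=
  (sideB hx hx').bothA (thrB hx hx') (en_pos (hx1 hx).le) (Or.inl rfl) (Or.inl rfl) fun y y' F =>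
    bothA_cert (s1 := true) (s2 := true) rfl hκ (en_pos (hx1 hx).le) (esg_rng (hx1 hx).le (hx2 hx').le).1 (mo_v x) covB50 covB63 hx hx'
        Pool.Agent.Strip051.G.I6050_6500.Tab.C.BA56.c_pp_033 noCut_EA noExt_EA F trivial trivial

theorem BA56_pp_101 {κ x : ℝ} (hκ : κ * h0 = ken x) (hx : ((649613803 : ℕ) : ℝ) / S ≤ x) (hx' : x ≤ (((649613803 : ℕ) : ℝ) + (48318383 : ℕ)) / S) :
    TriA PP.cur (VE (h0 * 0) 3 κ (h0 * x) (eng.v x) (h0 * (3 / 40)) (tnt (h0 * x) (3 / 10)) (tbl tK x) (tbl tL x) (tbl (smT h0⁻¹ tC) x)) 1 0 1 5 6 1 1 :=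
  (sideB hx hx').bothA (thrB hx hx') (en_pos (hx1 hx).le) (Or.inl rfl) (Or.inl rfl) fun y y' F =>
    bothA_cert (s1 := true) (s2 := true) rfl hκ (en_pos (hx1 hx).le) (esg_rng (hx1 hx).le (hx2 hx').le).1 (mo_v x) covB51 covB60 hx hx'
        Pool.Agent.Strip051.G.I6050_6500.Tab.C.BA56.c_pp_101 noCut_EA noExt_EA F trivial trivial

theorem BA56_pp_102 {κ x : ℝ} (hκ : κ * h0 = ken x) (hx : ((649613803 : ℕ) : ℝ) / S ≤ x) (hx' : x ≤ (((649613803 : ℕ) : ℝ) + (48318383 : ℕ)) / S) :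
    TriA PP.cur (VE (h0 * 0) 3 κ (h0 * x) (eng.v x) (h0 * (3 / 40)) (tnt (h0 * x) (3 / 10)) (tbl tK x) (tbl tL x) (tbl (smT h0⁻¹ tC) x)) 1 0 2 5 6 1 1 :=
  (sideB hx hx').bothA (thrB hx hx') (en_pos (hx1 hx).le) (Or.inl rfl) (Or.inl rfl) fun y y' F =>
    bothA_cert (s1 := true) (s2 := true) rfl hκ (en_pos (hx1 hx).le) (esg_rng (hx1 hx).le (hx2 hx').le).1 (mo_v x) covB51 covB60 hx hx'
        Pool.Agent.Strip051.G.I6050_6500.Tab.C.BA56.c_pp_102 noCut_EA noExt_EA F trivial trivial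

theorem BA56_pp_112 {κ x : ℝ} (hκ : κ * h0 = ken x) (hx : ((649613803 : ℕ) : ℝ) / S ≤ x) (hx' : x ≤ (((649613803 : ℕ) : ℝ) + (48318383 : ℕ)) / S) :
    TriA PP.cur (VE (h0 * 0) 3 κ (h0 * x) (eng.v x) (h0 * (3 / 40)) (tnt (h0 * x) (3 / 10)) (tbl tK x) (tbl tL x) (tbl (smT h0⁻¹ tC) x)) 1 1 2 5 6 1 1 :=
  (sideB hx hx').bothA (thrB hx hx') (en_pos (hx1 hx).le) (Or.inl rfl) (Or.inl rfl) fun y y' F =>
    bothA_cert (s1 := true) (s2 := true) rfl hκ (en_pos (hx1 hx).le) (esg_rng (hx1 hx).le (hx2 hx').le).1 (mo_v x) covB51 covB61 hx hx'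
        Pool.Agent.Strip051.G.I6050_6500.Tab.C.BA56.c_pp_112 noCut_EA noExt_EA F trivial trivial

theorem BA56_pp_113 {κ x : ℝ} (hκ : κ * h0 = ken x) (hx : ((649613803 : ℕ) : ℝ) / S ≤ x) (hx' : x ≤ (((649613803 : ℕ) : ℝ) + (48318383 : ℕ)) / S) :
    TriA PP.cur (VE (h0 * 0) 3 κ (h0 * x) (eng.v x) (h0 * (3 / 40)) (tnt (h0 * x) (3 / 10)) (tbl tK x) (tbl tL x) (tbl (smT h0⁻¹ tC) x)) 1 1 3 5 6 1 1 :=
  (sideB hx hx').bothA (thrB hx hx') (en_pos (hx1 hx).le) (Or.inl rfl) (Or.inl rfl) fun y y' F =>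
    bothA_cert (s1 := true) (s2 := true) rfl hκ (en_pos (hx1 hx).le) (esg_rng (hx1 hx).le (hx2 hx').le).1 (mo_v x) covB51 covB61 hx hx'
        Pool.Agent.Strip051.G.I6050_6500.Tab.C.BA56.c_pp_113 noCut_EA noExt_EA F trivial trivial

theorem BA56_pp_123 {κ x : ℝ} (hκ : κ * h0 = ken x) (hx : ((649613803 : ℕ) : ℝ) / S ≤ x) (hx' : x ≤ (((649613803 : ℕ) : ℝ) + (48318383 : ℕ)) / S) :
    TriA PP.cur (VE (h0 * 0) 3 κ (h0 * x) (eng.v x) (h0 * (3 / 40)) (tnt (h0 * x) (3 / 10)) (tbl tK x) (tbl tL x) (tbl (smT h0⁻¹ tC) x)) 1 2 3 5 6 1 1 :=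
  (sideB hx hx').bothA (thrB hx hx') (en_pos (hx1 hx).le) (Or.inl rfl) (Or.inl rfl) fun y y' F =>
    bothA_cert (s1 := true) (s2 := true) rfl hκ (en_pos (hx1 hx).le) (esg_rng (hx1 hx).le (hx2 hx').le).1 (mo_v x) covB51 covB62 hx hx'
        Pool.Agent.Strip051.G.I6050_6500.Tab.C.BA56.c_pp_123 noCut_EA noExt_EA F trivial trivial

theorem BA56_pp_133 {κ x : ℝ} (hκ : κ * h0 = ken x) (hx : ((649613803 : ℕ) : ℝ) / S ≤ x) (hx' : x ≤ (((649613803 : ℕ) : ℝ) + (48318383 : ℕ)) / S) :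
    TriA PP.cur (VE (h0 * 0) 3 κ (h0 * x) (eng.v x) (h0 * (3 / 40)) (tnt (h0 * x) (3 / 10)) (tbl tK x) (tbl tL x) (tbl (smT h0⁻¹ tC) x)) 1 3 3 5 6 1 1 :=
  (sideB hx hx').bothA (thrB hx hx') (en_pos (hx1 hx).le) (Or.inl rfl) (Or.inl rfl) fun y y' F =>
    bothA_cert (s1 := true) (s2 := true) rfl hκ (en_pos (hx1 hx).le) (esg_rng (hx1 hx).le (hx2 hx').le).1 (mo_v x) covB51 covB63 hx hx'
        Pool.Agent.Strip051.G.I6050_6500.Tab.C.BA56.c_pp_133 noCut_EA noExt_EA F trivial trivial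

theorem BA56_pp_202 {κ x : ℝ} (hκ : κ * h0 = ken x) (hx : ((649613803 : ℕ) : ℝ) / S ≤ x) (hx' : x ≤ (((649613803 : ℕ) : ℝ) + (48318383 : ℕ)) / S) :
    TriA PP.cur (VE (h0 * 0) 3 κ (h0 * x) (eng.v x) (h0 * (3 / 40)) (tnt (h0 * x) (3 / 10)) (tbl tK x) (tbl tL x) (tbl (smT h0⁻¹ tC) x)) 2 0 2 5 6 1 1 :=
  (sideB hx hx').bothA (thrB hx hx') (en_pos (hx1 hx).le) (Or.inl rfl) (Or.inl rfl) fun y y' F =>
    bothA_cert (s1 := true) (s2 := true) rfl hκ (en_pos (hx1 hx).le) (esg_rng (hx1 hx).le (hx2 hx').le).1 (mo_v x) covB52 covB60 hx hx'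
        Pool.Agent.Strip051.G.I6050_6500.Tab.C.BA56.c_pp_202 noCut_EA noExt_EA F trivial trivial

theorem BA56_pp_203 {κ x : ℝ} (hκ : κ * h0 = ken x) (hx : ((649613803 : ℕ) : ℝ) / S ≤ x) (hx' : x ≤ (((649613803 : ℕ) : ℝ) + (48318383 : ℕ)) / S) :
    TriA PP.cur (VE (h0 * 0) 3 κ (h0 * x) (eng.v x) (h0 * (3 / 40)) (tnt (h0 * x) (3 / 10)) (tbl tK x) (tbl tL x) (tbl (smT h0⁻¹ tC) x)) 2 0 3 5 6 1 1 :=
  (sideB hx hx').bothA (thrB hx hx') (en_pos (hx1 hx).le) (Or.inl rfl) (Or.inl rfl) fun y y' F =>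
    bothA_cert (s1 := true) (s2 := true) rfl hκ (en_pos (hx1 hx).le) (esg_rng (hx1 hx).le (hx2 hx').le).1 (mo_v x) covB52 covB60 hx hx'
        Pool.Agent.Strip051.G.I6050_6500.Tab.C.BA56.c_pp_203 noCut_EA noExt_EA F trivial trivial

theorem BA56_pp_213 {κ x : ℝ} (hκ : κ * h0 = ken x) (hx : ((649613803 : ℕ) : ℝ) / S ≤ x) (hx' : x ≤ (((649613803 : ℕ) : ℝ) + (48318383 : ℕ)) / S) :
    TriA PP.cur (VE (h0 * 0) 3 κ (h0 * x) (eng.v x) (h0 * (3 / 40)) (tnt (h0 * x) (3 / 10)) (tbl tK x) (tbl tL x) (tbl (smT h0⁻¹ tC) x)) 2 1 3 5 6 1 1 :=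
  (sideB hx hx').bothA (thrB hx hx') (en_pos (hx1 hx).le) (Or.inl rfl) (Or.inl rfl) fun y y' F =>
    bothA_cert (s1 := true) (s2 := true) rfl hκ (en_pos (hx1 hx).le) (esg_rng (hx1 hx).le (hx2 hx').le).1 (mo_v x) covB52 covB61 hx hx'
        Pool.Agent.Strip051.G.I6050_6500.Tab.C.BA56.c_pp_213 noCut_EA noExt_EA F trivial trivial

theorem BA56_pp_303 {κ x : ℝ} (hκ : κ * h0 = ken x) (hx : ((649613803 : ℕ) : ℝ) / S ≤ x) (hx' : x ≤ (((649613803 : ℕ) : ℝ) + (48318383 : ℕ)) / S) :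
    TriA PP.cur (VE (h0 * 0) 3 κ (h0 * x) (eng.v x) (h0 * (3 / 40)) (tnt (h0 * x) (3 / 10)) (tbl tK x) (tbl tL x) (tbl (smT h0⁻¹ tC) x)) 3 0 3 5 6 1 1 :=
  (sideB hx hx').bothA (thrB hx hx') (en_pos (hx1 hx).le) (Or.inl rfl) (Or.inl rfl) fun y y' F =>
    bothA_cert (s1 := true) (s2 := true) rfl hκ (en_pos (hx1 hx).le) (esg_rng (hx1 hx).le (hx2 hx').le).1 (mo_v x) covB53 covB60 hx hx'
        Pool.Agent.Strip051.G.I6050_6500.Tab.C.BA56.c_pp_303 noCut_EA noExt_EA F trivial trivial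

theorem BA56_pp_313 {κ x : ℝ} (hκ : κ * h0 = ken x) (hx : ((649613803 : ℕ) : ℝ) / S ≤ x) (hx' : x ≤ (((649613803 : ℕ) : ℝ) + (48318383 : ℕ)) / S) :
    TriA PP.cur (VE (h0 * 0) 3 κ (h0 * x) (eng.v x) (h0 * (3 / 40)) (tnt (h0 * x) (3 / 10)) (tbl tK x) (tbl tL x) (tbl (smT h0⁻¹ tC) x)) 3 1 3 5 6 1 1 :=
  (sideB hx hx').bothA (thrB hx hx') (en_pos (hx1 hx).le) (Or.inl rfl) (Or.inl rfl) fun y y' F =>
    bothA_cert (s1 := true) (s2 := true) rfl hκ (en_pos (hx1 hx).le) (esg_rng (hx1 hx).le (hx2 hx').le).1 (mo_v x) covB53 covB61 hx hx'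
        Pool.Agent.Strip051.G.I6050_6500.Tab.C.BA56.c_pp_313 noCut_EA noExt_EA F trivial trivial

theorem BA56_pm_001 {κ x : ℝ} (hκ : κ * h0 = ken x) (hx : ((649613803 : ℕ) : ℝ) / S ≤ x) (hx' : x ≤ (((649613803 : ℕ) : ℝ) + (48318383 : ℕ)) / S) :
    TriA PP.cur (VE (h0 * 0) 3 κ (h0 * x) (eng.v x) (h0 * (3 / 40)) (tnt (h0 * x) (3 / 10)) (tbl tK x) (tbl tL x) (tbl (smT h0⁻¹ tC) x)) 0 0 1 5 6 1 (-1) :=
  (sideB hx hx').bothA (thrB hx hx') (en_pos (hx1 hx).le) (Or.inl rfl) (Or.inr rfl) fun y y' F =>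
    bothA_cert (s1 := true) (s2 := false) rfl hκ (en_pos (hx1 hx).le) (esg_rng (hx1 hx).le (hx2 hx').le).1 (mo_v x) covB50 covB60 hx hx'
        Pool.Agent.Strip051.G.I6050_6500.Tab.C.BA56.c_pm_001 noCut_EA noExt_EA F trivial trivial

theorem BA56_pm_011 {κ x : ℝ} (hκ : κ * h0 = ken x) (hx : ((649613803 : ℕ) : ℝ) / S ≤ x) (hx' : x ≤ (((649613803 : ℕ) : ℝ) + (48318383 : ℕ)) / S) :
    TriA PP.cur (VE (h0 * 0) 3 κ (h0 * x) (eng.v x) (h0 * (3 / 40)) (tnt (h0 * x) (3 / 10)) (tbl tK x) (tbl tL x) (tbl (smT h0⁻¹ tC) x)) 0 1 1 5 6 1 (-1) :=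
  (sideB hx hx').bothA (thrB hx hx') (en_pos (hx1 hx).le) (Or.inl rfl) (Or.inr rfl) fun y y' F =>
    bothA_cert (s1 := true) (s2 := false) rfl hκ (en_pos (hx1 hx).le) (esg_rng (hx1 hx).le (hx2 hx').le).1 (mo_v x) covB50 covB61 hx hx'
        Pool.Agent.Strip051.G.I6050_6500.Tab.C.BA56.c_pm_011 noCut_EA noExt_EA F trivial trivial

theorem BA56_pm_012 {κ x : ℝ} (hκ : κ * h0 = ken x) (hx : ((649613803 : ℕ) : ℝ) / S ≤ x) (hx' : x ≤ (((649613803 : ℕ) : ℝ) + (48318383 : ℕ)) / S) :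
    TriA PP.cur (VE (h0 * 0) 3 κ (h0 * x) (eng.v x) (h0 * (3 / 40)) (tnt (h0 * x) (3 / 10)) (tbl tK x) (tbl tL x) (tbl (smT h0⁻¹ tC) x)) 0 1 2 5 6 1 (-1) :=
  (sideB hx hx').bothA (thrB hx hx') (en_pos (hx1 hx).le) (Or.inl rfl) (Or.inr rfl) fun y y' F =>
    bothA_cert (s1 := true) (s2 := false) rfl hκ (en_pos (hx1 hx).le) (esg_rng (hx1 hx).le (hx2 hx').le).1 (mo_v x) covB50 covB61 hx hx'
        Pool.Agent.Strip051.G.I6050_6500.Tab.C.BA56.c_pm_012 noCut_EA noExt_EA F trivial trivial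

theorem BA56_pm_022 {κ x : ℝ} (hκ : κ * h0 = ken x) (hx : ((649613803 : ℕ) : ℝ) / S ≤ x) (hx' : x ≤ (((649613803 : ℕ) : ℝ) + (48318383 : ℕ)) / S) :
    TriA PP.cur (VE (h0 * 0) 3 κ (h0 * x) (eng.v x) (h0 * (3 / 40)) (tnt (h0 * x) (3 / 10)) (tbl tK x) (tbl tL x) (tbl (smT h0⁻¹ tC) x)) 0 2 2 5 6 1 (-1) :=
  (sideB hx hx').bothA (thrB hx hx') (en_pos (hx1 hx).le) (Or.inl rfl) (Or.inr rfl) fun y y' F =>
    bothA_cert (s1 := true) (s2 := false) rfl hκ (en_pos (hx1 hx).le) (esg_rng (hx1 hx).le (hx2 hx').le).1 (mo_v x) covB50 covB62 hx hx'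
        Pool.Agent.Strip051.G.I6050_6500.Tab.C.BA56.c_pm_022 noCut_EA noExt_EA F trivial trivial

theorem BA56_pm_023 {κ x : ℝ} (hκ : κ * h0 = ken x) (hx : ((649613803 : ℕ) : ℝ) / S ≤ x) (hx' : x ≤ (((649613803 : ℕ) : ℝ) + (48318383 : ℕ)) / S) :
    TriA PP.cur (VE (h0 * 0) 3 κ (h0 * x) (eng.v x) (h0 * (3 / 40)) (tnt (h0 * x) (3 / 10)) (tbl tK x) (tbl tL x) (tbl (smT h0⁻¹ tC) x)) 0 2 3 5 6 1 (-1) :=
  (sideB hx hx').bothA (thrB hx hx') (en_pos (hx1 hx).le) (Or.inl rfl) (Or.inr rfl) fun y y' F =>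
    bothA_cert (s1 := true) (s2 := false) rfl hκ (en_pos (hx1 hx).le) (esg_rng (hx1 hx).le (hx2 hx').le).1 (mo_v x) covB50 covB62 hx hx'
        Pool.Agent.Strip051.G.I6050_6500.Tab.C.BA56.c_pm_023 noCut_EA noExt_EA F trivial trivial

theorem BA56_pm_033 {κ x : ℝ} (hκ : κ * h0 = ken x) (hx : ((649613803 : ℕ) : ℝ) / S ≤ x) (hx' : x ≤ (((649613803 : ℕ) : ℝ) + (48318383 : ℕ)) / S) :
    TriA PP.cur (VE (h0 * 0) 3 κ (h0 * x) (eng.v x) (h0 * (3 / 40)) (tnt (h0 * x) (3 / 10)) (tbl tK x) (tbl tL x) (tbl (smT h0⁻¹ tC) x)) 0 3 3 5 6 1 (-1) :=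
  (sideB hx hx').bothA (thrB hx hx') (en_pos (hx1 hx).le) (Or.inl rfl) (Or.inr rfl) fun y y' F =>
    bothA_cert (s1 := true) (s2 := false) rfl hκ (en_pos (hx1 hx).le) (esg_rng (hx1 hx).le (hx2 hx').le).1 (mo_v x) covB50 covB63 hx hx'
        Pool.Agent.Strip051.G.I6050_6500.Tab.C.BA56.c_pm_033 noCut_EA noExt_EA F trivial trivial

theorem BA56_pm_101 {κ x : ℝ} (hκ : κ * h0 = ken x) (hx : ((649613803 : ℕ) : ℝ) / S ≤ x) (hx' : x ≤ (((649613803 : ℕ) : ℝ) + (48318383 : ℕ)) / S) :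
    TriA PP.cur (VE (h0 * 0) 3 κ (h0 * x) (eng.v x) (h0 * (3 / 40)) (tnt (h0 * x) (3 / 10)) (tbl tK x) (tbl tL x) (tbl (smT h0⁻¹ tC) x)) 1 0 1 5 6 1 (-1) :=
  (sideB hx hx').bothA (thrB hx hx') (en_pos (hx1 hx).le) (Or.inl rfl) (Or.inr rfl) fun y y' F =>
    bothA_cert (s1 := true) (s2 := false) rfl hκ (en_pos (hx1 hx).le) (esg_rng (hx1 hx).le (hx2 hx').le).1 (mo_v x) covB51 covB60 hx hx'
        Pool.Agent.Strip051.G.I6050_6500.Tab.C.BA56.c_pm_101 noCut_EA noExt_EA F trivial trivial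

theorem BA56_pm_102 {κ x : ℝ} (hκ : κ * h0 = ken x) (hx : ((649613803 : ℕ) : ℝ) / S ≤ x) (hx' : x ≤ (((649613803 : ℕ) : ℝ) + (48318383 : ℕ)) / S) :
    TriA PP.cur (VE (h0 * 0) 3 κ (h0 * x) (eng.v x) (h0 * (3 / 40)) (tnt (h0 * x) (3 / 10)) (tbl tK x) (tbl tL x) (tbl (smT h0⁻¹ tC) x)) 1 0 2 5 6 1 (-1) :=
  (sideB hx hx').bothA (thrB hx hx') (en_pos (hx1 hx).le) (Or.inl rfl) (Or.inr rfl) fun y y' F =>
    bothA_cert (s1 := true) (s2 := false) rfl hκ (en_pos (hx1 hx).le) (esg_rng (hx1 hx).le (hx2 hx').le).1 (mo_v x) covB51 covB60 hx hx'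
        Pool.Agent.Strip051.G.I6050_6500.Tab.C.BA56.c_pm_102 noCut_EA noExt_EA F trivial trivial

theorem BA56_pm_112 {κ x : ℝ} (hκ : κ * h0 = ken x) (hx : ((649613803 : ℕ) : ℝ) / S ≤ x) (hx' : x ≤ (((649613803 : ℕ) : ℝ) + (48318383 : ℕ)) / S) :
    TriA PP.cur (VE (h0 * 0) 3 κ (h0 * x) (eng.v x) (h0 * (3 / 40)) (tnt (h0 * x) (3 / 10)) (tbl tK x) (tbl tL x) (tbl (smT h0⁻¹ tC) x)) 1 1 2 5 6 1 (-1) :=
  (sideB hx hx').bothA (thrB hx hx') (en_pos (hx1 hx).le) (Or.inl rfl) (Or.inr rfl) fun y y' F =>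
    bothA_cert (s1 := true) (s2 := false) rfl hκ (en_pos (hx1 hx).le) (esg_rng (hx1 hx).le (hx2 hx').le).1 (mo_v x) covB51 covB61 hx hx'
        Pool.Agent.Strip051.G.I6050_6500.Tab.C.BA56.c_pm_112 noCut_EA noExt_EA F trivial trivial

theorem BA56_pm_113 {κ x : ℝ} (hκ : κ * h0 = ken x) (hx : ((649613803 : ℕ) : ℝ) / S ≤ x) (hx' : x ≤ (((649613803 : ℕ) : ℝ) + (48318383 : ℕ)) / S) :
    TriA PP.cur (VE (h0 * 0) 3 κ (h0 * x) (eng.v x) (h0 * (3 / 40)) (tnt (h0 * x) (3 / 10)) (tbl tK x) (tbl tL x) (tbl (smT h0⁻¹ tC) x)) 1 1 3 5 6 1 (-1) :=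
  (sideB hx hx').bothA (thrB hx hx') (en_pos (hx1 hx).le) (Or.inl rfl) (Or.inr rfl) fun y y' F =>
    bothA_cert (s1 := true) (s2 := false) rfl hκ (en_pos (hx1 hx).le) (esg_rng (hx1 hx).le (hx2 hx').le).1 (mo_v x) covB51 covB61 hx hx'
        Pool.Agent.Strip051.G.I6050_6500.Tab.C.BA56.c_pm_113 noCut_EA noExt_EA F trivial trivial

theorem BA56_pm_123 {κ x : ℝ} (hκ : κ * h0 = ken x) (hx : ((649613803 : ℕ) : ℝ) / S ≤ x) (hx' : x ≤ (((649613803 : ℕ) : ℝ) + (48318383 : ℕ)) / S) :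
    TriA PP.cur (VE (h0 * 0) 3 κ (h0 * x) (eng.v x) (h0 * (3 / 40)) (tnt (h0 * x) (3 / 10)) (tbl tK x) (tbl tL x) (tbl (smT h0⁻¹ tC) x)) 1 2 3 5 6 1 (-1) :=
  (sideB hx hx').bothA (thrB hx hx') (en_pos (hx1 hx).le) (Or.inl rfl) (Or.inr rfl) fun y y' F =>
    bothA_cert (s1 := true) (s2 := false) rfl hκ (en_pos (hx1 hx).le) (esg_rng (hx1 hx).le (hx2 hx').le).1 (mo_v x) covB51 covB62 hx hx'
        Pool.Agent.Strip051.G.I6050_6500.Tab.C.BA56.c_pm_123 noCut_EA noExt_EA F trivial trivial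

theorem BA56_pm_133 {κ x : ℝ} (hκ : κ * h0 = ken x) (hx : ((649613803 : ℕ) : ℝ) / S ≤ x) (hx' : x ≤ (((649613803 : ℕ) : ℝ) + (48318383 : ℕ)) / S) :
    TriA PP.cur (VE (h0 * 0) 3 κ (h0 * x) (eng.v x) (h0 * (3 / 40)) (tnt (h0 * x) (3 / 10)) (tbl tK x) (tbl tL x) (tbl (smT h0⁻¹ tC) x)) 1 3 3 5 6 1 (-1) :=
  (sideB hx hx').bothA (thrB hx hx') (en_pos (hx1 hx).le) (Or.inl rfl) (Or.inr rfl) fun y y' F =>
    bothA_cert (s1 := true) (s2 := false) rfl hκ (en_pos (hx1 hx).le) (esg_rng (hx1 hx).le (hx2 hx').le).1 (mo_v x) covB51 covB63 hx hx'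
        Pool.Agent.Strip051.G.I6050_6500.Tab.C.BA56.c_pm_133 noCut_EA noExt_EA F trivial trivial

theorem BA56_pm_202 {κ x : ℝ} (hκ : κ * h0 = ken x) (hx : ((649613803 : ℕ) : ℝ) / S ≤ x) (hx' : x ≤ (((649613803 : ℕ) : ℝ) + (48318383 : ℕ)) / S) :
    TriA PP.cur (VE (h0 * 0) 3 κ (h0 * x) (eng.v x) (h0 * (3 / 40)) (tnt (h0 * x) (3 / 10)) (tbl tK x) (tbl tL x) (tbl (smT h0⁻¹ tC) x)) 2 0 2 5 6 1 (-1) :=
  (sideB hx hx').bothA (thrB hx hx') (en_pos (hx1 hx).le) (Or.inl rfl) (Or.inr rfl) fun y y' F =>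
    bothA_cert (s1 := true) (s2 := false) rfl hκ (en_pos (hx1 hx).le) (esg_rng (hx1 hx).le (hx2 hx').le).1 (mo_v x) covB52 covB60 hx hx'
        Pool.Agent.Strip051.G.I6050_6500.Tab.C.BA56.c_pm_202 noCut_EA noExt_EA F trivial trivial

theorem BA56_pm_203 {κ x : ℝ} (hκ : κ * h0 = ken x) (hx : ((649613803 : ℕ) : ℝ) / S ≤ x) (hx' : x ≤ (((649613803 : ℕ) : ℝ) + (48318383 : ℕ)) / S) :
    TriA PP.cur (VE (h0 * 0) 3 κ (h0 * x) (eng.v x) (h0 * (3 / 40)) (tnt (h0 * x) (3 / 10)) (tbl tK x) (tbl tL x) (tbl (smT h0⁻¹ tC) x)) 2 0 3 5 6 1 (-1) :=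
  (sideB hx hx').bothA (thrB hx hx') (en_pos (hx1 hx).le) (Or.inl rfl) (Or.inr rfl) fun y y' F =>
    bothA_cert (s1 := true) (s2 := false) rfl hκ (en_pos (hx1 hx).le) (esg_rng (hx1 hx).le (hx2 hx').le).1 (mo_v x) covB52 covB60 hx hx'
        Pool.Agent.Strip051.G.I6050_6500.Tab.C.BA56.c_pm_203 noCut_EA noExt_EA F trivial trivial

theorem BA56_pm_213 {κ x : ℝ} (hκ : κ * h0 = ken x) (hx : ((649613803 : ℕ) : ℝ) / S ≤ x) (hx' : x ≤ (((649613803 : ℕ) : ℝ) + (48318383 : ℕ)) / S) :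
    TriA PP.cur (VE (h0 * 0) 3 κ (h0 * x) (eng.v x) (h0 * (3 / 40)) (tnt (h0 * x) (3 / 10)) (tbl tK x) (tbl tL x) (tbl (smT h0⁻¹ tC) x)) 2 1 3 5 6 1 (-1) :=
  (sideB hx hx').bothA (thrB hx hx') (en_pos (hx1 hx).le) (Or.inl rfl) (Or.inr rfl) fun y y' F =>
    bothA_cert (s1 := true) (s2 := false) rfl hκ (en_pos (hx1 hx).le) (esg_rng (hx1 hx).le (hx2 hx').le).1 (mo_v x) covB52 covB61 hx hx'
        Pool.Agent.Strip051.G.I6050_6500.Tab.C.BA56.c_pm_213 noCut_EA noExt_EA F trivial trivial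

theorem BA56_pm_303 {κ x : ℝ} (hκ : κ * h0 = ken x) (hx : ((649613803 : ℕ) : ℝ) / S ≤ x) (hx' : x ≤ (((649613803 : ℕ) : ℝ) + (48318383 : ℕ)) / S) :
    TriA PP.cur (VE (h0 * 0) 3 κ (h0 * x) (eng.v x) (h0 * (3 / 40)) (tnt (h0 * x) (3 / 10)) (tbl tK x) (tbl tL x) (tbl (smT h0⁻¹ tC) x)) 3 0 3 5 6 1 (-1) :=
  (sideB hx hx').bothA (thrB hx hx') (en_pos (hx1 hx).le) (Or.inl rfl) (Or.inr rfl) fun y y' F =>
    bothA_cert (s1 := true) (s2 := false) rfl hκ (en_pos (hx1 hx).le) (esg_rng (hx1 hx).le (hx2 hx').le).1 (mo_v x) covB53 covB60 hx hx'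
        Pool.Agent.Strip051.G.I6050_6500.Tab.C.BA56.c_pm_303 noCut_EA noExt_EA F trivial trivial

theorem BA56_pm_313 {κ x : ℝ} (hκ : κ * h0 = ken x) (hx : ((649613803 : ℕ) : ℝ) / S ≤ x) (hx' : x ≤ (((649613803 : ℕ) : ℝ) + (48318383 : ℕ)) / S) :
    TriA PP.cur (VE (h0 * 0) 3 κ (h0 * x) (eng.v x) (h0 * (3 / 40)) (tnt (h0 * x) (3 / 10)) (tbl tK x) (tbl tL x) (tbl (smT h0⁻¹ tC) x)) 3 1 3 5 6 1 (-1) :=
  (sideB hx hx').bothA (thrB hx hx') (en_pos (hx1 hx).le) (Or.inl rfl) (Or.inr rfl) fun y y' F =>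
    bothA_cert (s1 := true) (s2 := false) rfl hκ (en_pos (hx1 hx).le) (esg_rng (hx1 hx).le (hx2 hx').le).1 (mo_v x) covB53 covB61 hx hx'
        Pool.Agent.Strip051.G.I6050_6500.Tab.C.BA56.c_pm_313 noCut_EA noExt_EA F trivial trivial

theorem BA56_mm_001 {κ x : ℝ} (hκ : κ * h0 = ken x) (hx : ((649613803 : ℕ) : ℝ) / S ≤ x) (hx' : x ≤ (((649613803 : ℕ) : ℝ) + (48318383 : ℕ)) / S) :
    TriA PP.cur (VE (h0 * 0) 3 κ (h0 * x) (eng.v x) (h0 * (3 / 40)) (tnt (h0 * x) (3 / 10)) (tbl tK x) (tbl tL x) (tbl (smT h0⁻¹ tC) x)) 0 0 1 5 6 (-1) (-1) :=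
  (sideB hx hx').bothA (thrB hx hx') (en_pos (hx1 hx).le) (Or.inr rfl) (Or.inr rfl) fun y y' F =>
    bothA_cert (s1 := false) (s2 := false) rfl hκ (en_pos (hx1 hx).le) (esg_rng (hx1 hx).le (hx2 hx').le).1 (mo_v x) covB50 covB60 hx hx'
        Pool.Agent.Strip051.G.I6050_6500.Tab.C.BA56.c_mm_001 noCut_EA noExt_EA F trivial trivial

theorem BA56_mm_011 {κ x : ℝ} (hκ : κ * h0 = ken x) (hx : ((649613803 : ℕ) : ℝ) / S ≤ x) (hx' : x ≤ (((649613803 : ℕ) : ℝ) + (48318383 : ℕ)) / S) :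
    TriA PP.cur (VE (h0 * 0) 3 κ (h0 * x) (eng.v x) (h0 * (3 / 40)) (tnt (h0 * x) (3 / 10)) (tbl tK x) (tbl tL x) (tbl (smT h0⁻¹ tC) x)) 0 1 1 5 6 (-1) (-1) :=
  (sideB hx hx').bothA (thrB hx hx') (en_pos (hx1 hx).le) (Or.inr rfl) (Or.inr rfl) fun y y' F =>
    bothA_cert (s1 := false) (s2 := false) rfl hκ (en_pos (hx1 hx).le) (esg_rng (hx1 hx).le (hx2 hx').le).1 (mo_v x) covB50 covB61 hx hx'
        Pool.Agent.Strip051.G.I6050_6500.Tab.C.BA56.c_mm_011 noCut_EA noExt_EA F trivial trivial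

theorem BA56_mm_012 {κ x : ℝ} (hκ : κ * h0 = ken x) (hx : ((649613803 : ℕ) : ℝ) / S ≤ x) (hx' : x ≤ (((649613803 : ℕ) : ℝ) + (48318383 : ℕ)) / S) :
    TriA PP.cur (VE (h0 * 0) 3 κ (h0 * x) (eng.v x) (h0 * (3 / 40)) (tnt (h0 * x) (3 / 10)) (tbl tK x) (tbl tL x) (tbl (smT h0⁻¹ tC) x)) 0 1 2 5 6 (-1) (-1) :=
  (sideB hx hx').bothA (thrB hx hx') (en_pos (hx1 hx).le) (Or.inr rfl) (Or.inr rfl) fun y y' F =>
    bothA_cert (s1 := false) (s2 := false) rfl hκ (en_pos (hx1 hx).le) (esg_rng (hx1 hx).le (hx2 hx').le).1 (mo_v x) covB50 covB61 hx hx'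
        Pool.Agent.Strip051.G.I6050_6500.Tab.C.BA56.c_mm_012 noCut_EA noExt_EA F trivial trivial

theorem BA56_mm_022 {κ x : ℝ} (hκ : κ * h0 = ken x) (hx : ((649613803 : ℕ) : ℝ) / S ≤ x) (hx' : x ≤ (((649613803 : ℕ) : ℝ) + (48318383 : ℕ)) / S) :
    TriA PP.cur (VE (h0 * 0) 3 κ (h0 * x) (eng.v x) (h0 * (3 / 40)) (tnt (h0 * x) (3 / 10)) (tbl tK x) (tbl tL x) (tbl (smT h0⁻¹ tC) x)) 0 2 2 5 6 (-1) (-1) :=
  (sideB hx hx').bothA (thrB hx hx') (en_pos (hx1 hx).le) (Or.inr rfl) (Or.inr rfl) fun y y' F =>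
    bothA_cert (s1 := false) (s2 := false) rfl hκ (en_pos (hx1 hx).le) (esg_rng (hx1 hx).le (hx2 hx').le).1 (mo_v x) covB50 covB62 hx hx'
        Pool.Agent.Strip051.G.I6050_6500.Tab.C.BA56.c_mm_022 noCut_EA noExt_EA F trivial trivial

theorem BA56_mm_023 {κ x : ℝ} (hκ : κ * h0 = ken x) (hx : ((649613803 : ℕ) : ℝ) / S ≤ x) (hx' : x ≤ (((649613803 : ℕ) : ℝ) + (48318383 : ℕ)) / S) :
    TriA PP.cur (VE (h0 * 0) 3 κ (h0 * x) (eng.v x) (h0 * (3 / 40)) (tnt (h0 * x) (3 / 10)) (tbl tK x) (tbl tL x) (tbl (smT h0⁻¹ tC) x)) 0 2 3 5 6 (-1) (-1) :=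
  (sideB hx hx').bothA (thrB hx hx') (en_pos (hx1 hx).le) (Or.inr rfl) (Or.inr rfl) fun y y' F =>
    bothA_cert (s1 := false) (s2 := false) rfl hκ (en_pos (hx1 hx).le) (esg_rng (hx1 hx).le (hx2 hx').le).1 (mo_v x) covB50 covB62 hx hx'
        Pool.Agent.Strip051.G.I6050_6500.Tab.C.BA56.c_mm_023 noCut_EA noExt_EA F trivial trivial

theorem BA56_mm_033 {κ x : ℝ} (hκ : κ * h0 = ken x) (hx : ((649613803 : ℕ) : ℝ) / S ≤ x) (hx' : x ≤ (((649613803 : ℕ) : ℝ) + (48318383 : ℕ)) / S) :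
    TriA PP.cur (VE (h0 * 0) 3 κ (h0 * x) (eng.v x) (h0 * (3 / 40)) (tnt (h0 * x) (3 / 10)) (tbl tK x) (tbl tL x) (tbl (smT h0⁻¹ tC) x)) 0 3 3 5 6 (-1) (-1) :=
  (sideB hx hx').bothA (thrB hx hx') (en_pos (hx1 hx).le) (Or.inr rfl) (Or.inr rfl) fun y y' F =>
    bothA_cert (s1 := false) (s2 := false) rfl hκ (en_pos (hx1 hx).le) (esg_rng (hx1 hx).le (hx2 hx').le).1 (mo_v x) covB50 covB63 hx hx'
        Pool.Agent.Strip051.G.I6050_6500.Tab.C.BA56.c_mm_033 noCut_EA noExt_EA F trivial trivial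

theorem BA56_mm_101 {κ x : ℝ} (hκ : κ * h0 = ken x) (hx : ((649613803 : ℕ) : ℝ) / S ≤ x) (hx' : x ≤ (((649613803 : ℕ) : ℝ) + (48318383 : ℕ)) / S) :
    TriA PP.cur (VE (h0 * 0) 3 κ (h0 * x) (eng.v x) (h0 * (3 / 40)) (tnt (h0 * x) (3 / 10)) (tbl tK x) (tbl tL x) (tbl (smT h0⁻¹ tC) x)) 1 0 1 5 6 (-1) (-1) :=
  (sideB hx hx').bothA (thrB hx hx') (en_pos (hx1 hx).le) (Or.inr rfl) (Or.inr rfl) fun y y' F =>
    bothA_cert (s1 := false) (s2 := false) rfl hκ (en_pos (hx1 hx).le) (esg_rng (hx1 hx).le (hx2 hx').le).1 (mo_v x) covB51 covB60 hx hx'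
        Pool.Agent.Strip051.G.I6050_6500.Tab.C.BA56.c_mm_101 noCut_EA noExt_EA F trivial trivial

theorem BA56_mm_102 {κ x : ℝ} (hκ : κ * h0 = ken x) (hx : ((649613803 : ℕ) : ℝ) / S ≤ x) (hx' : x ≤ (((649613803 : ℕ) : ℝ) + (48318383 : ℕ)) / S) :
    TriA PP.cur (VE (h0 * 0) 3 κ (h0 * x) (eng.v x) (h0 * (3 / 40)) (tnt (h0 * x) (3 / 10)) (tbl tK x) (tbl tL x) (tbl (smT h0⁻¹ tC) x)) 1 0 2 5 6 (-1) (-1) :=
  (sideB hx hx').bothA (thrB hx hx') (en_pos (hx1 hx).le) (Or.inr rfl) (Or.inr rfl) fun y y' F =>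
    bothA_cert (s1 := false) (s2 := false) rfl hκ (en_pos (hx1 hx).le) (esg_rng (hx1 hx).le (hx2 hx').le).1 (mo_v x) covB51 covB60 hx hx'
        Pool.Agent.Strip051.G.I6050_6500.Tab.C.BA56.c_mm_102 noCut_EA noExt_EA F trivial trivial

theorem BA56_mm_112 {κ x : ℝ} (hκ : κ * h0 = ken x) (hx : ((649613803 : ℕ) : ℝ) / S ≤ x) (hx' : x ≤ (((649613803 : ℕ) : ℝ) + (48318383 : ℕ)) / S) :
    TriA PP.cur (VE (h0 * 0) 3 κ (h0 * x) (eng.v x) (h0 * (3 / 40)) (tnt (h0 * x) (3 / 10)) (tbl tK x) (tbl tL x) (tbl (smT h0⁻¹ tC) x)) 1 1 2 5 6 (-1) (-1) :=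
  (sideB hx hx').bothA (thrB hx hx') (en_pos (hx1 hx).le) (Or.inr rfl) (Or.inr rfl) fun y y' F =>
    bothA_cert (s1 := false) (s2 := false) rfl hκ (en_pos (hx1 hx).le) (esg_rng (hx1 hx).le (hx2 hx').le).1 (mo_v x) covB51 covB61 hx hx'
        Pool.Agent.Strip051.G.I6050_6500.Tab.C.BA56.c_mm_112 noCut_EA noExt_EA F trivial trivial

theorem BA56_mm_113 {κ x : ℝ} (hκ : κ * h0 = ken x) (hx : ((649613803 : ℕ) : ℝ) / S ≤ x) (hx' : x ≤ (((649613803 : ℕ) : ℝ) + (48318383 : ℕ)) / S) :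
    TriA PP.cur (VE (h0 * 0) 3 κ (h0 * x) (eng.v x) (h0 * (3 / 40)) (tnt (h0 * x) (3 / 10)) (tbl tK x) (tbl tL x) (tbl (smT h0⁻¹ tC) x)) 1 1 3 5 6 (-1) (-1) :=
  (sideB hx hx').bothA (thrB hx hx') (en_pos (hx1 hx).le) (Or.inr rfl) (Or.inr rfl) fun y y' F =>
    bothA_cert (s1 := false) (s2 := false) rfl hκ (en_pos (hx1 hx).le) (esg_rng (hx1 hx).le (hx2 hx').le).1 (mo_v x) covB51 covB61 hx hx'
        Pool.Agent.Strip051.G.I6050_6500.Tab.C.BA56.c_mm_113 noCut_EA noExt_EA F trivial trivial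

theorem BA56_mm_123 {κ x : ℝ} (hκ : κ * h0 = ken x) (hx : ((649613803 : ℕ) : ℝ) / S ≤ x) (hx' : x ≤ (((649613803 : ℕ) : ℝ) + (48318383 : ℕ)) / S) :
    TriA PP.cur (VE (h0 * 0) 3 κ (h0 * x) (eng.v x) (h0 * (3 / 40)) (tnt (h0 * x) (3 / 10)) (tbl tK x) (tbl tL x) (tbl (smT h0⁻¹ tC) x)) 1 2 3 5 6 (-1) (-1) :=
  (sideB hx hx').bothA (thrB hx hx') (en_pos (hx1 hx).le) (Or.inr rfl) (Or.inr rfl) fun y y' F =>
    bothA_cert (s1 := false) (s2 := false) rfl hκ (en_pos (hx1 hx).le) (esg_rng (hx1 hx).le (hx2 hx').le).1 (mo_v x) covB51 covB62 hx hx'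
        Pool.Agent.Strip051.G.I6050_6500.Tab.C.BA56.c_mm_123 noCut_EA noExt_EA F trivial trivial

theorem BA56_mm_133 {κ x : ℝ} (hκ : κ * h0 = ken x) (hx : ((649613803 : ℕ) : ℝ) / S ≤ x) (hx' : x ≤ (((649613803 : ℕ) : ℝ) + (48318383 : ℕ)) / S) :
    TriA PP.cur (VE (h0 * 0) 3 κ (h0 * x) (eng.v x) (h0 * (3 / 40)) (tnt (h0 * x) (3 / 10)) (tbl tK x) (tbl tL x) (tbl (smT h0⁻¹ tC) x)) 1 3 3 5 6 (-1) (-1) :=
  (sideB hx hx').bothA (thrB hx hx') (en_pos (hx1 hx).le) (Or.inr rfl) (Or.inr rfl) fun y y' F =>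
    bothA_cert (s1 := false) (s2 := false) rfl hκ (en_pos (hx1 hx).le) (esg_rng (hx1 hx).le (hx2 hx').le).1 (mo_v x) covB51 covB63 hx hx'
        Pool.Agent.Strip051.G.I6050_6500.Tab.C.BA56.c_mm_133 noCut_EA noExt_EA F trivial trivial

theorem BA56_mm_202 {κ x : ℝ} (hκ : κ * h0 = ken x) (hx : ((649613803 : ℕ) : ℝ) / S ≤ x) (hx' : x ≤ (((649613803 : ℕ) : ℝ) + (48318383 : ℕ)) / S) :
    TriA PP.cur (VE (h0 * 0) 3 κ (h0 * x) (eng.v x) (h0 * (3 / 40)) (tnt (h0 * x) (3 / 10)) (tbl tK x) (tbl tL x) (tbl (smT h0⁻¹ tC) x)) 2 0 2 5 6 (-1) (-1) :=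
  (sideB hx hx').bothA (thrB hx hx') (en_pos (hx1 hx).le) (Or.inr rfl) (Or.inr rfl) fun y y' F =>
    bothA_cert (s1 := false) (s2 := false) rfl hκ (en_pos (hx1 hx).le) (esg_rng (hx1 hx).le (hx2 hx').le).1 (mo_v x) covB52 covB60 hx hx'
        Pool.Agent.Strip051.G.I6050_6500.Tab.C.BA56.c_mm_202 noCut_EA noExt_EA F trivial trivial

theorem BA56_mm_203 {κ x : ℝ} (hκ : κ * h0 = ken x) (hx : ((649613803 : ℕ) : ℝ) / S ≤ x) (hx' : x ≤ (((649613803 : ℕ) : ℝ) + (48318383 : ℕ)) / S) :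
    TriA PP.cur (VE (h0 * 0) 3 κ (h0 * x) (eng.v x) (h0 * (3 / 40)) (tnt (h0 * x) (3 / 10)) (tbl tK x) (tbl tL x) (tbl (smT h0⁻¹ tC) x)) 2 0 3 5 6 (-1) (-1) :=
  (sideB hx hx').bothA (thrB hx hx') (en_pos (hx1 hx).le) (Or.inr rfl) (Or.inr rfl) fun y y' F =>
    bothA_cert (s1 := false) (s2 := false) rfl hκ (en_pos (hx1 hx).le) (esg_rng (hx1 hx).le (hx2 hx').le).1 (mo_v x) covB52 covB60 hx hx'
        Pool.Agent.Strip051.G.I6050_6500.Tab.C.BA56.c_mm_203 noCut_EA noExt_EA F trivial trivial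

theorem BA56_mm_213 {κ x : ℝ} (hκ : κ * h0 = ken x) (hx : ((649613803 : ℕ) : ℝ) / S ≤ x) (hx' : x ≤ (((649613803 : ℕ) : ℝ) + (48318383 : ℕ)) / S) :
    TriA PP.cur (VE (h0 * 0) 3 κ (h0 * x) (eng.v x) (h0 * (3 / 40)) (tnt (h0 * x) (3 / 10)) (tbl tK x) (tbl tL x) (tbl (smT h0⁻¹ tC) x)) 2 1 3 5 6 (-1) (-1) :=
  (sideB hx hx').bothA (thrB hx hx') (en_pos (hx1 hx).le) (Or.inr rfl) (Or.inr rfl) fun y y' F =>
    bothA_cert (s1 := false) (s2 := false) rfl hκ (en_pos (hx1 hx).le) (esg_rng (hx1 hx).le (hx2 hx').le).1 (mo_v x) covB52 covB61 hx hx'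
        Pool.Agent.Strip051.G.I6050_6500.Tab.C.BA56.c_mm_213 noCut_EA noExt_EA F trivial trivial

theorem BA56_mm_303 {κ x : ℝ} (hκ : κ * h0 = ken x) (hx : ((649613803 : ℕ) : ℝ) / S ≤ x) (hx' : x ≤ (((649613803 : ℕ) : ℝ) + (48318383 : ℕ)) / S) :
    TriA PP.cur (VE (h0 * 0) 3 κ (h0 * x) (eng.v x) (h0 * (3 / 40)) (tnt (h0 * x) (3 / 10)) (tbl tK x) (tbl tL x) (tbl (smT h0⁻¹ tC) x)) 3 0 3 5 6 (-1) (-1) :=
  (sideB hx hx').bothA (thrB hx hx') (en_pos (hx1 hx).le) (Or.inr rfl) (Or.inr rfl) fun y y' F =>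
    bothA_cert (s1 := false) (s2 := false) rfl hκ (en_pos (hx1 hx).le) (esg_rng (hx1 hx).le (hx2 hx').le).1 (mo_v x) covB53 covB60 hx hx'
        Pool.Agent.Strip051.G.I6050_6500.Tab.C.BA56.c_mm_303 noCut_EA noExt_EA F trivial trivial

theorem BA56_mm_313 {κ x : ℝ} (hκ : κ * h0 = ken x) (hx : ((649613803 : ℕ) : ℝ) / S ≤ x) (hx' : x ≤ (((649613803 : ℕ) : ℝ) + (48318383 : ℕ)) / S) :
    TriA PP.cur (VE (h0 * 0) 3 κ (h0 * x) (eng.v x) (h0 * (3 / 40)) (tnt (h0 * x) (3 / 10)) (tbl tK x) (tbl tL x) (tbl (smT h0⁻¹ tC) x)) 3 1 3 5 6 (-1) (-1) :=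
  (sideB hx hx').bothA (thrB hx hx') (en_pos (hx1 hx).le) (Or.inr rfl) (Or.inr rfl) fun y y' F =>
    bothA_cert (s1 := false) (s2 := false) rfl hκ (en_pos (hx1 hx).le) (esg_rng (hx1 hx).le (hx2 hx').le).1 (mo_v x) covB53 covB61 hx hx'
        Pool.Agent.Strip051.G.I6050_6500.Tab.C.BA56.c_mm_313 noCut_EA noExt_EA F trivial trivial

theorem BA56 {κ x : ℝ} (hκ : κ * h0 = ken x) (hx : ((649613803 : ℕ) : ℝ) / S ≤ x) (hx' : x ≤ (((649613803 : ℕ) : ℝ) + (48318383 : ℕ)) / S) : AllTA PP.cur (VE (h0 * 0) 3 κ (h0 * x) (eng.v x) (h0 * (3 / 40)) (tnt (h0 * x) (3 / 10)) (tbl tK x) (tbl tL x) (tbl (smT h0⁻¹ tC) x)) 5 6 where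
  pp := all17 (Q := fun a b c => TriA PP.cur (VE (h0 * 0) 3 κ (h0 * x) (eng.v x) (h0 * (3 / 40)) (tnt (h0 * x) (3 / 10)) (tbl tK x) (tbl tL x) (tbl (smT h0⁻¹ tC) x)) a b c 5 6 1 1)
    (BA56_pp_001 hκ hx hx') (BA56_pp_011 hκ hx hx') (BA56_pp_012 hκ hx hx') (BA56_pp_022 hκ hx hx') (BA56_pp_023 hκ hx hx') (BA56_pp_033 hκ hx hx') (BA56_pp_101 hκ hx hx') (BA56_pp_102 hκ hx hx') (BA56_pp_112 hκ hx hx') (BA56_pp_113 hκ hx hx') (BA56_pp_123 hκ hx hx') (BA56_pp_133 hκ hx hx') (BA56_pp_202 hκ hx hx') (BA56_pp_203 hκ hx hx') (BA56_pp_213 hκ hx hx') (BA56_pp_303 hκ hx hx') (BA56_pp_313 hκ hx hx')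
  pm := all17 (Q := fun a b c => TriA PP.cur (VE (h0 * 0) 3 κ (h0 * x) (eng.v x) (h0 * (3 / 40)) (tnt (h0 * x) (3 / 10)) (tbl tK x) (tbl tL x) (tbl (smT h0⁻¹ tC) x)) a b c 5 6 1 (-1))
    (BA56_pm_001 hκ hx hx') (BA56_pm_011 hκ hx hx') (BA56_pm_012 hκ hx hx') (BA56_pm_022 hκ hx hx') (BA56_pm_023 hκ hx hx') (BA56_pm_033 hκ hx hx') (BA56_pm_101 hκ hx hx') (BA56_pm_102 hκ hx hx') (BA56_pm_112 hκ hx hx') (BA56_pm_113 hκ hx hx') (BA56_pm_123 hκ hx hx') (BA56_pm_133 hκ hx hx') (BA56_pm_202 hκ hx hx') (BA56_pm_203 hκ hx hx') (BA56_pm_213 hκ hx hx') (BA56_pm_303 hκ hx hx') (BA56_pm_313 hκ hx hx')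
  mm := all17 (Q := fun a b c => TriA PP.cur (VE (h0 * 0) 3 κ (h0 * x) (eng.v x) (h0 * (3 / 40)) (tnt (h0 * x) (3 / 10)) (tbl tK x) (tbl tL x) (tbl (smT h0⁻¹ tC) x)) a b c 5 6 (-1) (-1))
    (BA56_mm_001 hκ hx hx') (BA56_mm_011 hκ hx hx') (BA56_mm_012 hκ hx hx') (BA56_mm_022 hκ hx hx') (BA56_mm_023 hκ hx hx') (BA56_mm_033 hκ hx hx') (BA56_mm_101 hκ hx hx') (BA56_mm_102 hκ hx hx') (BA56_mm_112 hκ hx hx') (BA56_mm_113 hκ hx hx') (BA56_mm_123 hκ hx hx') (BA56_mm_133 hκ hx hx') (BA56_mm_202 hκ hx hx') (BA56_mm_203 hκ hx hx') (BA56_mm_213 hκ hx hx') (BA56_mm_303 hκ hx hx') (BA56_mm_313 hκ hx hx')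

theorem BA57_pp_001 {κ x : ℝ} (hκ : κ * h0 = ken x) (hx : ((649613803 : ℕ) : ℝ) / S ≤ x) (hx' : x ≤ (((649613803 : ℕ) : ℝ) + (48318383 : ℕ)) / S) :
    TriA PP.cur (VE (h0 * 0) 3 κ (h0 * x) (eng.v x) (h0 * (3 / 40)) (tnt (h0 * x) (3 / 10)) (tbl tK x) (tbl tL x) (tbl (smT h0⁻¹ tC) x)) 0 0 1 5 7 1 1 :=
  (sideB hx hx').bothA (thrB hx hx') (en_pos (hx1 hx).le) (Or.inl rfl) (Or.inl rfl) fun y y' F =>
    bothA_cert (s1 := true) (s2 := true) rfl hκ (en_pos (hx1 hx).le) (esg_rng (hx1 hx).le (hx2 hx').le).1 (mo_v x) covB50 covB70 hx hx'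
        Pool.Agent.Strip051.G.I6050_6500.Tab.C.BA57.c_pp_001 noCut_EA noExt_EA F trivial trivial

theorem BA57_pp_011 {κ x : ℝ} (hκ : κ * h0 = ken x) (hx : ((649613803 : ℕ) : ℝ) / S ≤ x) (hx' : x ≤ (((649613803 : ℕ) : ℝ) + (48318383 : ℕ)) / S) :
    TriA PP.cur (VE (h0 * 0) 3 κ (h0 * x) (eng.v x) (h0 * (3 / 40)) (tnt (h0 * x) (3 / 10)) (tbl tK x) (tbl tL x) (tbl (smT h0⁻¹ tC) x)) 0 1 1 5 7 1 1 :=
  (sideB hx hx').bothA (thrB hx hx') (en_pos (hx1 hx).le) (Or.inl rfl) (Or.inl rfl) fun y y' F =>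
    bothA_cert (s1 := true) (s2 := true) rfl hκ (en_pos (hx1 hx).le) (esg_rng (hx1 hx).le (hx2 hx').le).1 (mo_v x) covB50 covB71 hx hx'
        Pool.Agent.Strip051.G.I6050_6500.Tab.C.BA57.c_pp_011 noCut_EA noExt_EA F trivial trivial

theorem BA57_pp_012 {κ x : ℝ} (hκ : κ * h0 = ken x) (hx : ((649613803 : ℕ) : ℝ) / S ≤ x) (hx' : x ≤ (((649613803 : ℕ) : ℝ) + (48318383 : ℕ)) / S) :
    TriA PP.cur (VE (h0 * 0) 3 κ (h0 * x) (eng.v x) (h0 * (3 / 40)) (tnt (h0 * x) (3 / 10)) (tbl tK x) (tbl tL x) (tbl (smT h0⁻¹ tC) x)) 0 1 2 5 7 1 1 :=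
  (sideB hx hx').bothA (thrB hx hx') (en_pos (hx1 hx).le) (Or.inl rfl) (Or.inl rfl) fun y y' F =>
    bothA_cert (s1 := true) (s2 := true) rfl hκ (en_pos (hx1 hx).le) (esg_rng (hx1 hx).le (hx2 hx').le).1 (mo_v x) covB50 covB71 hx hx'
        Pool.Agent.Strip051.G.I6050_6500.Tab.C.BA57.c_pp_012 noCut_EA noExt_EA F trivial trivial

theorem BA57_pp_022 {κ x : ℝ} (hκ : κ * h0 = ken x) (hx : ((649613803 : ℕ) : ℝ) / S ≤ x) (hx' : x ≤ (((649613803 : ℕ) : ℝ) + (48318383 : ℕ)) / S) :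
    TriA PP.cur (VE (h0 * 0) 3 κ (h0 * x) (eng.v x) (h0 * (3 / 40)) (tnt (h0 * x) (3 / 10)) (tbl tK x) (tbl tL x) (tbl (smT h0⁻¹ tC) x)) 0 2 2 5 7 1 1 :=
  (sideB hx hx').bothA (thrB hx hx') (en_pos (hx1 hx).le) (Or.inl rfl) (Or.inl rfl) fun y y' F =>
    bothA_cert (s1 := true) (s2 := true) rfl hκ (en_pos (hx1 hx).le) (esg_rng (hx1 hx).le (hx2 hx').le).1 (mo_v x) covB50 covB72 hx hx'
        Pool.Agent.Strip051.G.I6050_6500.Tab.C.BA57.c_pp_022 noCut_EA noExt_EA F trivial trivial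

theorem BA57_pp_023 {κ x : ℝ} (hκ : κ * h0 = ken x) (hx : ((649613803 : ℕ) : ℝ) / S ≤ x) (hx' : x ≤ (((649613803 : ℕ) : ℝ) + (48318383 : ℕ)) / S) :
    TriA PP.cur (VE (h0 * 0) 3 κ (h0 * x) (eng.v x) (h0 * (3 / 40)) (tnt (h0 * x) (3 / 10)) (tbl tK x) (tbl tL x) (tbl (smT h0⁻¹ tC) x)) 0 2 3 5 7 1 1 :=
  (sideB hx hx').bothA (thrB hx hx') (en_pos (hx1 hx).le) (Or.inl rfl) (Or.inl rfl) fun y y' F =>
    bothA_cert (s1 := true) (s2 := true) rfl hκ (en_pos (hx1 hx).le) (esg_rng (hx1 hx).le (hx2 hx').le).1 (mo_v x) covB50 covB72 hx hx'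
        Pool.Agent.Strip051.G.I6050_6500.Tab.C.BA57.c_pp_023 noCut_EA noExt_EA F trivial trivial

theorem BA57_pp_033 {κ x : ℝ} (hκ : κ * h0 = ken x) (hx : ((649613803 : ℕ) : ℝ) / S ≤ x) (hx' : x ≤ (((649613803 : ℕ) : ℝ) + (48318383 : ℕ)) / S) :
    TriA PP.cur (VE (h0 * 0) 3 κ (h0 * x) (eng.v x) (h0 * (3 / 40)) (tnt (h0 * x) (3 / 10)) (tbl tK x) (tbl tL x) (tbl (smT h0⁻¹ tC) x)) 0 3 3 5 7 1 1 :=
  (sideB hx hx').bothA (thrB hx hx') (en_pos (hx1 hx).le) (Or.inl rfl) (Or.inl rfl) fun y y' F =>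
    bothA_cert (s1 := true) (s2 := true) rfl hκ (en_pos (hx1 hx).le) (esg_rng (hx1 hx).le (hx2 hx').le).1 (mo_v x) covB50 covB73 hx hx'
        Pool.Agent.Strip051.G.I6050_6500.Tab.C.BA57.c_pp_033 noCut_EA noExt_EA F trivial trivial

theorem BA57_pp_101 {κ x : ℝ} (hκ : κ * h0 = ken x) (hx : ((649613803 : ℕ) : ℝ) / S ≤ x) (hx' : x ≤ (((649613803 : ℕ) : ℝ) + (48318383 : ℕ)) / S) :
    TriA PP.cur (VE (h0 * 0) 3 κ (h0 * x) (eng.v x) (h0 * (3 / 40)) (tnt (h0 * x) (3 / 10)) (tbl tK x) (tbl tL x) (tbl (smT h0⁻¹ tC) x)) 1 0 1 5 7 1 1 :=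
  (sideB hx hx').bothA (thrB hx hx') (en_pos (hx1 hx).le) (Or.inl rfl) (Or.inl rfl) fun y y' F =>
    bothA_cert (s1 := true) (s2 := true) rfl hκ (en_pos (hx1 hx).le) (esg_rng (hx1 hx).le (hx2 hx').le).1 (mo_v x) covB51 covB70 hx hx'
        Pool.Agent.Strip051.G.I6050_6500.Tab.C.BA57.c_pp_101 noCut_EA noExt_EA F trivial trivial

theorem BA57_pp_102 {κ x : ℝ} (hκ : κ * h0 = ken x) (hx : ((649613803 : ℕ) : ℝ) / S ≤ x) (hx' : x ≤ (((649613803 : ℕ) : ℝ) + (48318383 : ℕ)) / S) :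
    TriA PP.cur (VE (h0 * 0) 3 κ (h0 * x) (eng.v x) (h0 * (3 / 40)) (tnt (h0 * x) (3 / 10)) (tbl tK x) (tbl tL x) (tbl (smT h0⁻¹ tC) x)) 1 0 2 5 7 1 1 :=
  (sideB hx hx').bothA (thrB hx hx') (en_pos (hx1 hx).le) (Or.inl rfl) (Or.inl rfl) fun y y' F =>
    bothA_cert (s1 := true) (s2 := true) rfl hκ (en_pos (hx1 hx).le) (esg_rng (hx1 hx).le (hx2 hx').le).1 (mo_v x) covB51 covB70 hx hx'
        Pool.Agent.Strip051.G.I6050_6500.Tab.C.BA57.c_pp_102 noCut_EA noExt_EA F trivial trivial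

theorem BA57_pp_112 {κ x : ℝ} (hκ : κ * h0 = ken x) (hx : ((649613803 : ℕ) : ℝ) / S ≤ x) (hx' : x ≤ (((649613803 : ℕ) : ℝ) + (48318383 : ℕ)) / S) :
    TriA PP.cur (VE (h0 * 0) 3 κ (h0 * x) (eng.v x) (h0 * (3 / 40)) (tnt (h0 * x) (3 / 10)) (tbl tK x) (tbl tL x) (tbl (smT h0⁻¹ tC) x)) 1 1 2 5 7 1 1 :=
  (sideB hx hx').bothA (thrB hx hx') (en_pos (hx1 hx).le) (Or.inl rfl) (Or.inl rfl) fun y y' F =>
    bothA_cert (s1 := true) (s2 := true) rfl hκ (en_pos (hx1 hx).le) (esg_rng (hx1 hx).le (hx2 hx').le).1 (mo_v x) covB51 covB71 hx hx'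
        Pool.Agent.Strip051.G.I6050_6500.Tab.C.BA57.c_pp_112 noCut_EA noExt_EA F trivial trivial

theorem BA57_pp_113 {κ x : ℝ} (hκ : κ * h0 = ken x) (hx : ((649613803 : ℕ) : ℝ) / S ≤ x) (hx' : x ≤ (((649613803 : ℕ) : ℝ) + (48318383 : ℕ)) / S) :
    TriA PP.cur (VE (h0 * 0) 3 κ (h0 * x) (eng.v x) (h0 * (3 / 40)) (tnt (h0 * x) (3 / 10)) (tbl tK x) (tbl tL x) (tbl (smT h0⁻¹ tC) x)) 1 1 3 5 7 1 1 :=
  (sideB hx hx').bothA (thrB hx hx') (en_pos (hx1 hx).le) (Or.inl rfl) (Or.inl rfl) fun y y' F =>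
    bothA_cert (s1 := true) (s2 := true) rfl hκ (en_pos (hx1 hx).le) (esg_rng (hx1 hx).le (hx2 hx').le).1 (mo_v x) covB51 covB71 hx hx'
        Pool.Agent.Strip051.G.I6050_6500.Tab.C.BA57.c_pp_113 noCut_EA noExt_EA F trivial trivial

theorem BA57_pp_123 {κ x : ℝ} (hκ : κ * h0 = ken x) (hx : ((649613803 : ℕ) : ℝ) / S ≤ x) (hx' : x ≤ (((649613803 : ℕ) : ℝ) + (48318383 : ℕ)) / S) :
    TriA PP.cur (VE (h0 * 0) 3 κ (h0 * x) (eng.v x) (h0 * (3 / 40)) (tnt (h0 * x) (3 / 10)) (tbl tK x) (tbl tL x) (tbl (smT h0⁻¹ tC) x)) 1 2 3 5 7 1 1 :=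
  (sideB hx hx').bothA (thrB hx hx') (en_pos (hx1 hx).le) (Or.inl rfl) (Or.inl rfl) fun y y' F =>
    bothA_cert (s1 := true) (s2 := true) rfl hκ (en_pos (hx1 hx).le) (esg_rng (hx1 hx).le (hx2 hx').le).1 (mo_v x) covB51 covB72 hx hx'
        Pool.Agent.Strip051.G.I6050_6500.Tab.C.BA57.c_pp_123 noCut_EA noExt_EA F trivial trivial

theorem BA57_pp_133 {κ x : ℝ} (hκ : κ * h0 = ken x) (hx : ((649613803 : ℕ) : ℝ) / S ≤ x) (hx' : x ≤ (((649613803 : ℕ) : ℝ) + (48318383 : ℕ)) / S) :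
    TriA PP.cur (VE (h0 * 0) 3 κ (h0 * x) (eng.v x) (h0 * (3 / 40)) (tnt (h0 * x) (3 / 10)) (tbl tK x) (tbl tL x) (tbl (smT h0⁻¹ tC) x)) 1 3 3 5 7 1 1 :=
  (sideB hx hx').bothA (thrB hx hx') (en_pos (hx1 hx).le) (Or.inl rfl) (Or.inl rfl) fun y y' F =>
    bothA_cert (s1 := true) (s2 := true) rfl hκ (en_pos (hx1 hx).le) (esg_rng (hx1 hx).le (hx2 hx').le).1 (mo_v x) covB51 covB73 hx hx'
        Pool.Agent.Strip051.G.I6050_6500.Tab.C.BA57.c_pp_133 noCut_EA noExt_EA F trivial trivial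

theorem BA57_pp_202 {κ x : ℝ} (hκ : κ * h0 = ken x) (hx : ((649613803 : ℕ) : ℝ) / S ≤ x) (hx' : x ≤ (((649613803 : ℕ) : ℝ) + (48318383 : ℕ)) / S) :
    TriA PP.cur (VE (h0 * 0) 3 κ (h0 * x) (eng.v x) (h0 * (3 / 40)) (tnt (h0 * x) (3 / 10)) (tbl tK x) (tbl tL x) (tbl (smT h0⁻¹ tC) x)) 2 0 2 5 7 1 1 :=
  (sideB hx hx').bothA (thrB hx hx') (en_pos (hx1 hx).le) (Or.inl rfl) (Or.inl rfl) fun y y' F =>
    bothA_cert (s1 := true) (s2 := true) rfl hκ (en_pos (hx1 hx).le) (esg_rng (hx1 hx).le (hx2 hx').le).1 (mo_v x) covB52 covB70 hx hx'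
        Pool.Agent.Strip051.G.I6050_6500.Tab.C.BA57.c_pp_202 noCut_EA noExt_EA F trivial trivial

theorem BA57_pp_203 {κ x : ℝ} (hκ : κ * h0 = ken x) (hx : ((649613803 : ℕ) : ℝ) / S ≤ x) (hx' : x ≤ (((649613803 : ℕ) : ℝ) + (48318383 : ℕ)) / S) :
    TriA PP.cur (VE (h0 * 0) 3 κ (h0 * x) (eng.v x) (h0 * (3 / 40)) (tnt (h0 * x) (3 / 10)) (tbl tK x) (tbl tL x) (tbl (smT h0⁻¹ tC) x)) 2 0 3 5 7 1 1 :=
  (sideB hx hx').bothA (thrB hx hx') (en_pos (hx1 hx).le) (Or.inl rfl) (Or.inl rfl) fun y y' F =>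
    bothA_cert (s1 := true) (s2 := true) rfl hκ (en_pos (hx1 hx).le) (esg_rng (hx1 hx).le (hx2 hx').le).1 (mo_v x) covB52 covB70 hx hx'
        Pool.Agent.Strip051.G.I6050_6500.Tab.C.BA57.c_pp_203 noCut_EA noExt_EA F trivial trivial

theorem BA57_pp_213 {κ x : ℝ} (hκ : κ * h0 = ken x) (hx : ((649613803 : ℕ) : ℝ) / S ≤ x) (hx' : x ≤ (((649613803 : ℕ) : ℝ) + (48318383 : ℕ)) / S) :
    TriA PP.cur (VE (h0 * 0) 3 κ (h0 * x) (eng.v x) (h0 * (3 / 40)) (tnt (h0 * x) (3 / 10)) (tbl tK x) (tbl tL x) (tbl (smT h0⁻¹ tC) x)) 2 1 3 5 7 1 1 :=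
  (sideB hx hx').bothA (thrB hx hx') (en_pos (hx1 hx).le) (Or.inl rfl) (Or.inl rfl) fun y y' F =>
    bothA_cert (s1 := true) (s2 := true) rfl hκ (en_pos (hx1 hx).le) (esg_rng (hx1 hx).le (hx2 hx').le).1 (mo_v x) covB52 covB71 hx hx'
        Pool.Agent.Strip051.G.I6050_6500.Tab.C.BA57.c_pp_213 noCut_EA noExt_EA F trivial trivial

theorem BA57_pp_303 {κ x : ℝ} (hκ : κ * h0 = ken x) (hx : ((649613803 : ℕ) : ℝ) / S ≤ x) (hx' : x ≤ (((649613803 : ℕ) : ℝ) + (48318383 : ℕ)) / S) :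
    TriA PP.cur (VE (h0 * 0) 3 κ (h0 * x) (eng.v x) (h0 * (3 / 40)) (tnt (h0 * x) (3 / 10)) (tbl tK x) (tbl tL x) (tbl (smT h0⁻¹ tC) x)) 3 0 3 5 7 1 1 :=
  (sideB hx hx').bothA (thrB hx hx') (en_pos (hx1 hx).le) (Or.inl rfl) (Or.inl rfl) fun y y' F =>
    bothA_cert (s1 := true) (s2 := true) rfl hκ (en_pos (hx1 hx).le) (esg_rng (hx1 hx).le (hx2 hx').le).1 (mo_v x) covB53 covB70 hx hx'
        Pool.Agent.Strip051.G.I6050_6500.Tab.C.BA57.c_pp_303 noCut_EA noExt_EA F trivial trivial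

theorem BA57_pp_313 {κ x : ℝ} (hκ : κ * h0 = ken x) (hx : ((649613803 : ℕ) : ℝ) / S ≤ x) (hx' : x ≤ (((649613803 : ℕ) : ℝ) + (48318383 : ℕ)) / S) :
    TriA PP.cur (VE (h0 * 0) 3 κ (h0 * x) (eng.v x) (h0 * (3 / 40)) (tnt (h0 * x) (3 / 10)) (tbl tK x) (tbl tL x) (tbl (smT h0⁻¹ tC) x)) 3 1 3 5 7 1 1 :=
  (sideB hx hx').bothA (thrB hx hx') (en_pos (hx1 hx).le) (Or.inl rfl) (Or.inl rfl) fun y y' F =>
    bothA_cert (s1 := true) (s2 := true) rfl hκ (en_pos (hx1 hx).le) (esg_rng (hx1 hx).le (hx2 hx').le).1 (mo_v x) covB53 covB71 hx hx'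
        Pool.Agent.Strip051.G.I6050_6500.Tab.C.BA57.c_pp_313 noCut_EA noExt_EA F trivial trivial

theorem BA57_pm_001 {κ x : ℝ} (hκ : κ * h0 = ken x) (hx : ((649613803 : ℕ) : ℝ) / S ≤ x) (hx' : x ≤ (((649613803 : ℕ) : ℝ) + (48318383 : ℕ)) / S) :
    TriA PP.cur (VE (h0 * 0) 3 κ (h0 * x) (eng.v x) (h0 * (3 / 40)) (tnt (h0 * x) (3 / 10)) (tbl tK x) (tbl tL x) (tbl (smT h0⁻¹ tC) x)) 0 0 1 5 7 1 (-1) :=
  (sideB hx hx').bothA (thrB hx hx') (en_pos (hx1 hx).le) (Or.inl rfl) (Or.inr rfl) fun y y' F =>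
    bothA_cert (s1 := true) (s2 := false) rfl hκ (en_pos (hx1 hx).le) (esg_rng (hx1 hx).le (hx2 hx').le).1 (mo_v x) covB50 covB70 hx hx'
        Pool.Agent.Strip051.G.I6050_6500.Tab.C.BA57.c_pm_001 noCut_EA noExt_EA F trivial trivial

theorem BA57_pm_011 {κ x : ℝ} (hκ : κ * h0 = ken x) (hx : ((649613803 : ℕ) : ℝ) / S ≤ x) (hx' : x ≤ (((649613803 : ℕ) : ℝ) + (48318383 : ℕ)) / S) :
    TriA PP.cur (VE (h0 * 0) 3 κ (h0 * x) (eng.v x) (h0 * (3 / 40)) (tnt (h0 * x) (3 / 10)) (tbl tK x) (tbl tL x) (tbl (smT h0⁻¹ tC) x)) 0 1 1 5 7 1 (-1) :=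
  (sideB hx hx').bothA (thrB hx hx') (en_pos (hx1 hx).le) (Or.inl rfl) (Or.inr rfl) fun y y' F =>
    bothA_cert (s1 := true) (s2 := false) rfl hκ (en_pos (hx1 hx).le) (esg_rng (hx1 hx).le (hx2 hx').le).1 (mo_v x) covB50 covB71 hx hx'
        Pool.Agent.Strip051.G.I6050_6500.Tab.C.BA57.c_pm_011 noCut_EA noExt_EA F trivial trivial

theorem BA57_pm_012 {κ x : ℝ} (hκ : κ * h0 = ken x) (hx : ((649613803 : ℕ) : ℝ) / S ≤ x) (hx' : x ≤ (((649613803 : ℕ) : ℝ) + (48318383 : ℕ)) / S) :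
    TriA PP.cur (VE (h0 * 0) 3 κ (h0 * x) (eng.v x) (h0 * (3 / 40)) (tnt (h0 * x) (3 / 10)) (tbl tK x) (tbl tL x) (tbl (smT h0⁻¹ tC) x)) 0 1 2 5 7 1 (-1) :=
  (sideB hx hx').bothA (thrB hx hx') (en_pos (hx1 hx).le) (Or.inl rfl) (Or.inr rfl) fun y y' F =>
    bothA_cert (s1 := true) (s2 := false) rfl hκ (en_pos (hx1 hx).le) (esg_rng (hx1 hx).le (hx2 hx').le).1 (mo_v x) covB50 covB71 hx hx'
        Pool.Agent.Strip051.G.I6050_6500.Tab.C.BA57.c_pm_012 noCut_EA noExt_EA F trivial trivial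

theorem BA57_pm_022 {κ x : ℝ} (hκ : κ * h0 = ken x) (hx : ((649613803 : ℕ) : ℝ) / S ≤ x) (hx' : x ≤ (((649613803 : ℕ) : ℝ) + (48318383 : ℕ)) / S) :
    TriA PP.cur (VE (h0 * 0) 3 κ (h0 * x) (eng.v x) (h0 * (3 / 40)) (tnt (h0 * x) (3 / 10)) (tbl tK x) (tbl tL x) (tbl (smT h0⁻¹ tC) x)) 0 2 2 5 7 1 (-1) :=
  (sideB hx hx').bothA (thrB hx hx') (en_pos (hx1 hx).le) (Or.inl rfl) (Or.inr rfl) fun y y' F =>
    bothA_cert (s1 := true) (s2 := false) rfl hκ (en_pos (hx1 hx).le) (esg_rng (hx1 hx).le (hx2 hx').le).1 (mo_v x) covB50 covB72 hx hx'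
        Pool.Agent.Strip051.G.I6050_6500.Tab.C.BA57.c_pm_022 noCut_EA noExt_EA F trivial trivial

theorem BA57_pm_023 {κ x : ℝ} (hκ : κ * h0 = ken x) (hx : ((649613803 : ℕ) : ℝ) / S ≤ x) (hx' : x ≤ (((649613803 : ℕ) : ℝ) + (48318383 : ℕ)) / S) :
    TriA PP.cur (VE (h0 * 0) 3 κ (h0 * x) (eng.v x) (h0 * (3 / 40)) (tnt (h0 * x) (3 / 10)) (tbl tK x) (tbl tL x) (tbl (smT h0⁻¹ tC) x)) 0 2 3 5 7 1 (-1) :=
  (sideB hx hx').bothA (thrB hx hx') (en_pos (hx1 hx).le) (Or.inl rfl) (Or.inr rfl) fun y y' F =>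
    bothA_cert (s1 := true) (s2 := false) rfl hκ (en_pos (hx1 hx).le) (esg_rng (hx1 hx).le (hx2 hx').le).1 (mo_v x) covB50 covB72 hx hx'
        Pool.Agent.Strip051.G.I6050_6500.Tab.C.BA57.c_pm_023 noCut_EA noExt_EA F trivial trivial

theorem BA57_pm_033 {κ x : ℝ} (hκ : κ * h0 = ken x) (hx : ((649613803 : ℕ) : ℝ) / S ≤ x) (hx' : x ≤ (((649613803 : ℕ) : ℝ) + (48318383 : ℕ)) / S) :
    TriA PP.cur (VE (h0 * 0) 3 κ (h0 * x) (eng.v x) (h0 * (3 / 40)) (tnt (h0 * x) (3 / 10)) (tbl tK x) (tbl tL x) (tbl (smT h0⁻¹ tC) x)) 0 3 3 5 7 1 (-1) :=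
  (sideB hx hx').bothA (thrB hx hx') (en_pos (hx1 hx).le) (Or.inl rfl) (Or.inr rfl) fun y y' F =>
    bothA_cert (s1 := true) (s2 := false) rfl hκ (en_pos (hx1 hx).le) (esg_rng (hx1 hx).le (hx2 hx').le).1 (mo_v x) covB50 covB73 hx hx'
        Pool.Agent.Strip051.G.I6050_6500.Tab.C.BA57.c_pm_033 noCut_EA noExt_EA F trivial trivial

theorem BA57_pm_101 {κ x : ℝ} (hκ : κ * h0 = ken x) (hx : ((649613803 : ℕ) : ℝ) / S ≤ x) (hx' : x ≤ (((649613803 : ℕ) : ℝ) + (48318383 : ℕ)) / S) :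
    TriA PP.cur (VE (h0 * 0) 3 κ (h0 * x) (eng.v x) (h0 * (3 / 40)) (tnt (h0 * x) (3 / 10)) (tbl tK x) (tbl tL x) (tbl (smT h0⁻¹ tC) x)) 1 0 1 5 7 1 (-1) :=
  (sideB hx hx').bothA (thrB hx hx') (en_pos (hx1 hx).le) (Or.inl rfl) (Or.inr rfl) fun y y' F =>
    bothA_cert (s1 := true) (s2 := false) rfl hκ (en_pos (hx1 hx).le) (esg_rng (hx1 hx).le (hx2 hx').le).1 (mo_v x) covB51 covB70 hx hx'
        Pool.Agent.Strip051.G.I6050_6500.Tab.C.BA57.c_pm_101 noCut_EA noExt_EA F trivial trivial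

theorem BA57_pm_102 {κ x : ℝ} (hκ : κ * h0 = ken x) (hx : ((649613803 : ℕ) : ℝ) / S ≤ x) (hx' : x ≤ (((649613803 : ℕ) : ℝ) + (48318383 : ℕ)) / S) :
    TriA PP.cur (VE (h0 * 0) 3 κ (h0 * x) (eng.v x) (h0 * (3 / 40)) (tnt (h0 * x) (3 / 10)) (tbl tK x) (tbl tL x) (tbl (smT h0⁻¹ tC) x)) 1 0 2 5 7 1 (-1) :=
  (sideB hx hx').bothA (thrB hx hx') (en_pos (hx1 hx).le) (Or.inl rfl) (Or.inr rfl) fun y y' F =>
    bothA_cert (s1 := true) (s2 := false) rfl hκ (en_pos (hx1 hx).le) (esg_rng (hx1 hx).le (hx2 hx').le).1 (mo_v x) covB51 covB70 hx hx'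
        Pool.Agent.Strip051.G.I6050_6500.Tab.C.BA57.c_pm_102 noCut_EA noExt_EA F trivial trivial

theorem BA57_pm_112 {κ x : ℝ} (hκ : κ * h0 = ken x) (hx : ((649613803 : ℕ) : ℝ) / S ≤ x) (hx' : x ≤ (((649613803 : ℕ) : ℝ) + (48318383 : ℕ)) / S) :
    TriA PP.cur (VE (h0 * 0) 3 κ (h0 * x) (eng.v x) (h0 * (3 / 40)) (tnt (h0 * x) (3 / 10)) (tbl tK x) (tbl tL x) (tbl (smT h0⁻¹ tC) x)) 1 1 2 5 7 1 (-1) :=
  (sideB hx hx').bothA (thrB hx hx') (en_pos (hx1 hx).le) (Or.inl rfl) (Or.inr rfl) fun y y' F =>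
    bothA_cert (s1 := true) (s2 := false) rfl hκ (en_pos (hx1 hx).le) (esg_rng (hx1 hx).le (hx2 hx').le).1 (mo_v x) covB51 covB71 hx hx'
        Pool.Agent.Strip051.G.I6050_6500.Tab.C.BA57.c_pm_112 noCut_EA noExt_EA F trivial trivial

theorem BA57_pm_113 {κ x : ℝ} (hκ : κ * h0 = ken x) (hx : ((649613803 : ℕ) : ℝ) / S ≤ x) (hx' : x ≤ (((649613803 : ℕ) : ℝ) + (48318383 : ℕ)) / S) :
    TriA PP.cur (VE (h0 * 0) 3 κ (h0 * x) (eng.v x) (h0 * (3 / 40)) (tnt (h0 * x) (3 / 10)) (tbl tK x) (tbl tL x) (tbl (smT h0⁻¹ tC) x)) 1 1 3 5 7 1 (-1) :=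
  (sideB hx hx').bothA (thrB hx hx') (en_pos (hx1 hx).le) (Or.inl rfl) (Or.inr rfl) fun y y' F =>
    bothA_cert (s1 := true) (s2 := false) rfl hκ (en_pos (hx1 hx).le) (esg_rng (hx1 hx).le (hx2 hx').le).1 (mo_v x) covB51 covB71 hx hx'
        Pool.Agent.Strip051.G.I6050_6500.Tab.C.BA57.c_pm_113 noCut_EA noExt_EA F trivial trivial

theorem BA57_pm_123 {κ x : ℝ} (hκ : κ * h0 = ken x) (hx : ((649613803 : ℕ) : ℝ) / S ≤ x) (hx' : x ≤ (((649613803 : ℕ) : ℝ) + (48318383 : ℕ)) / S) :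
    TriA PP.cur (VE (h0 * 0) 3 κ (h0 * x) (eng.v x) (h0 * (3 / 40)) (tnt (h0 * x) (3 / 10)) (tbl tK x) (tbl tL x) (tbl (smT h0⁻¹ tC) x)) 1 2 3 5 7 1 (-1) :=
  (sideB hx hx').bothA (thrB hx hx') (en_pos (hx1 hx).le) (Or.inl rfl) (Or.inr rfl) fun y y' F =>
    bothA_cert (s1 := true) (s2 := false) rfl hκ (en_pos (hx1 hx).le) (esg_rng (hx1 hx).le (hx2 hx').le).1 (mo_v x) covB51 covB72 hx hx'
        Pool.Agent.Strip051.G.I6050_6500.Tab.C.BA57.c_pm_123 noCut_EA noExt_EA F trivial trivial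

theorem BA57_pm_133 {κ x : ℝ} (hκ : κ * h0 = ken x) (hx : ((649613803 : ℕ) : ℝ) / S ≤ x) (hx' : x ≤ (((649613803 : ℕ) : ℝ) + (48318383 : ℕ)) / S) :
    TriA PP.cur (VE (h0 * 0) 3 κ (h0 * x) (eng.v x) (h0 * (3 / 40)) (tnt (h0 * x) (3 / 10)) (tbl tK x) (tbl tL x) (tbl (smT h0⁻¹ tC) x)) 1 3 3 5 7 1 (-1) :=
  (sideB hx hx').bothA (thrB hx hx') (en_pos (hx1 hx).le) (Or.inl rfl) (Or.inr rfl) fun y y' F =>
    bothA_cert (s1 := true) (s2 := false) rfl hκ (en_pos (hx1 hx).le) (esg_rng (hx1 hx).le (hx2 hx').le).1 (mo_v x) covB51 covB73 hx hx'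
        Pool.Agent.Strip051.G.I6050_6500.Tab.C.BA57.c_pm_133 noCut_EA noExt_EA F trivial trivial

theorem BA57_pm_202 {κ x : ℝ} (hκ : κ * h0 = ken x) (hx : ((649613803 : ℕ) : ℝ) / S ≤ x) (hx' : x ≤ (((649613803 : ℕ) : ℝ) + (48318383 : ℕ)) / S) :
    TriA PP.cur (VE (h0 * 0) 3 κ (h0 * x) (eng.v x) (h0 * (3 / 40)) (tnt (h0 * x) (3 / 10)) (tbl tK x) (tbl tL x) (tbl (smT h0⁻¹ tC) x)) 2 0 2 5 7 1 (-1) :=
  (sideB hx hx').bothA (thrB hx hx') (en_pos (hx1 hx).le) (Or.inl rfl) (Or.inr rfl) fun y y' F =>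
    bothA_cert (s1 := true) (s2 := false) rfl hκ (en_pos (hx1 hx).le) (esg_rng (hx1 hx).le (hx2 hx').le).1 (mo_v x) covB52 covB70 hx hx'
        Pool.Agent.Strip051.G.I6050_6500.Tab.C.BA57.c_pm_202 noCut_EA noExt_EA F trivial trivial

theorem BA57_pm_203 {κ x : ℝ} (hκ : κ * h0 = ken x) (hx : ((649613803 : ℕ) : ℝ) / S ≤ x) (hx' : x ≤ (((649613803 : ℕ) : ℝ) + (48318383 : ℕ)) / S) :
    TriA PP.cur (VE (h0 * 0) 3 κ (h0 * x) (eng.v x) (h0 * (3 / 40)) (tnt (h0 * x) (3 / 10)) (tbl tK x) (tbl tL x) (tbl (smT h0⁻¹ tC) x)) 2 0 3 5 7 1 (-1) :=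
  (sideB hx hx').bothA (thrB hx hx') (en_pos (hx1 hx).le) (Or.inl rfl) (Or.inr rfl) fun y y' F =>
    bothA_cert (s1 := true) (s2 := false) rfl hκ (en_pos (hx1 hx).le) (esg_rng (hx1 hx).le (hx2 hx').le).1 (mo_v x) covB52 covB70 hx hx'
        Pool.Agent.Strip051.G.I6050_6500.Tab.C.BA57.c_pm_203 noCut_EA noExt_EA F trivial trivial

theorem BA57_pm_213 {κ x : ℝ} (hκ : κ * h0 = ken x) (hx : ((649613803 : ℕ) : ℝ) / S ≤ x) (hx' : x ≤ (((649613803 : ℕ) : ℝ) + (48318383 : ℕ)) / S) :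
    TriA PP.cur (VE (h0 * 0) 3 κ (h0 * x) (eng.v x) (h0 * (3 / 40)) (tnt (h0 * x) (3 / 10)) (tbl tK x) (tbl tL x) (tbl (smT h0⁻¹ tC) x)) 2 1 3 5 7 1 (-1) :=
  (sideB hx hx').bothA (thrB hx hx') (en_pos (hx1 hx).le) (Or.inl rfl) (Or.inr rfl) fun y y' F =>
    bothA_cert (s1 := true) (s2 := false) rfl hκ (en_pos (hx1 hx).le) (esg_rng (hx1 hx).le (hx2 hx').le).1 (mo_v x) covB52 covB71 hx hx'
        Pool.Agent.Strip051.G.I6050_6500.Tab.C.BA57.c_pm_213 noCut_EA noExt_EA F trivial trivial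

theorem BA57_pm_303 {κ x : ℝ} (hκ : κ * h0 = ken x) (hx : ((649613803 : ℕ) : ℝ) / S ≤ x) (hx' : x ≤ (((649613803 : ℕ) : ℝ) + (48318383 : ℕ)) / S) :
    TriA PP.cur (VE (h0 * 0) 3 κ (h0 * x) (eng.v x) (h0 * (3 / 40)) (tnt (h0 * x) (3 / 10)) (tbl tK x) (tbl tL x) (tbl (smT h0⁻¹ tC) x)) 3 0 3 5 7 1 (-1) :=
  (sideB hx hx').bothA (thrB hx hx') (en_pos (hx1 hx).le) (Or.inl rfl) (Or.inr rfl) fun y y' F =>
    bothA_cert (s1 := true) (s2 := false) rfl hκ (en_pos (hx1 hx).le) (esg_rng (hx1 hx).le (hx2 hx').le).1 (mo_v x) covB53 covB70 hx hx'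
        Pool.Agent.Strip051.G.I6050_6500.Tab.C.BA57.c_pm_303 noCut_EA noExt_EA F trivial trivial

theorem BA57_pm_313 {κ x : ℝ} (hκ : κ * h0 = ken x) (hx : ((649613803 : ℕ) : ℝ) / S ≤ x) (hx' : x ≤ (((649613803 : ℕ) : ℝ) + (48318383 : ℕ)) / S) :
    TriA PP.cur (VE (h0 * 0) 3 κ (h0 * x) (eng.v x) (h0 * (3 / 40)) (tnt (h0 * x) (3 / 10)) (tbl tK x) (tbl tL x) (tbl (smT h0⁻¹ tC) x)) 3 1 3 5 7 1 (-1) :=
  (sideB hx hx').bothA (thrB hx hx') (en_pos (hx1 hx).le) (Or.inl rfl) (Or.inr rfl) fun y y' F =>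
    bothA_cert (s1 := true) (s2 := false) rfl hκ (en_pos (hx1 hx).le) (esg_rng (hx1 hx).le (hx2 hx').le).1 (mo_v x) covB53 covB71 hx hx'
        Pool.Agent.Strip051.G.I6050_6500.Tab.C.BA57.c_pm_313 noCut_EA noExt_EA F trivial trivial

theorem BA57_mm_001 {κ x : ℝ} (hκ : κ * h0 = ken x) (hx : ((649613803 : ℕ) : ℝ) / S ≤ x) (hx' : x ≤ (((649613803 : ℕ) : ℝ) + (48318383 : ℕ)) / S) :
    TriA PP.cur (VE (h0 * 0) 3 κ (h0 * x) (eng.v x) (h0 * (3 / 40)) (tnt (h0 * x) (3 / 10)) (tbl tK x) (tbl tL x) (tbl (smT h0⁻¹ tC) x)) 0 0 1 5 7 (-1) (-1) :=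
  (sideB hx hx').bothA (thrB hx hx') (en_pos (hx1 hx).le) (Or.inr rfl) (Or.inr rfl) fun y y' F =>
    bothA_cert (s1 := false) (s2 := false) rfl hκ (en_pos (hx1 hx).le) (esg_rng (hx1 hx).le (hx2 hx').le).1 (mo_v x) covB50 covB70 hx hx'
        Pool.Agent.Strip051.G.I6050_6500.Tab.C.BA57.c_mm_001 noCut_EA noExt_EA F trivial trivial

theorem BA57_mm_011 {κ x : ℝ} (hκ : κ * h0 = ken x) (hx : ((649613803 : ℕ) : ℝ) / S ≤ x) (hx' : x ≤ (((649613803 : ℕ) : ℝ) + (48318383 : ℕ)) / S) :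
    TriA PP.cur (VE (h0 * 0) 3 κ (h0 * x) (eng.v x) (h0 * (3 / 40)) (tnt (h0 * x) (3 / 10)) (tbl tK x) (tbl tL x) (tbl (smT h0⁻¹ tC) x)) 0 1 1 5 7 (-1) (-1) :=
  (sideB hx hx').bothA (thrB hx hx') (en_pos (hx1 hx).le) (Or.inr rfl) (Or.inr rfl) fun y y' F =>
    bothA_cert (s1 := false) (s2 := false) rfl hκ (en_pos (hx1 hx).le) (esg_rng (hx1 hx).le (hx2 hx').le).1 (mo_v x) covB50 covB71 hx hx'
        Pool.Agent.Strip051.G.I6050_6500.Tab.C.BA57.c_mm_011 noCut_EA noExt_EA F trivial trivial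

theorem BA57_mm_012 {κ x : ℝ} (hκ : κ * h0 = ken x) (hx : ((649613803 : ℕ) : ℝ) / S ≤ x) (hx' : x ≤ (((649613803 : ℕ) : ℝ) + (48318383 : ℕ)) / S) :
    TriA PP.cur (VE (h0 * 0) 3 κ (h0 * x) (eng.v x) (h0 * (3 / 40)) (tnt (h0 * x) (3 / 10)) (tbl tK x) (tbl tL x) (tbl (smT h0⁻¹ tC) x)) 0 1 2 5 7 (-1) (-1) :=
  (sideB hx hx').bothA (thrB hx hx') (en_pos (hx1 hx).le) (Or.inr rfl) (Or.inr rfl) fun y y' F =>
    bothA_cert (s1 := false) (s2 := false) rfl hκ (en_pos (hx1 hx).le) (esg_rng (hx1 hx).le (hx2 hx').le).1 (mo_v x) covB50 covB71 hx hx'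
        Pool.Agent.Strip051.G.I6050_6500.Tab.C.BA57.c_mm_012 noCut_EA noExt_EA F trivial trivial

theorem BA57_mm_022 {κ x : ℝ} (hκ : κ * h0 = ken x) (hx : ((649613803 : ℕ) : ℝ) / S ≤ x) (hx' : x ≤ (((649613803 : ℕ) : ℝ) + (48318383 : ℕ)) / S) :
    TriA PP.cur (VE (h0 * 0) 3 κ (h0 * x) (eng.v x) (h0 * (3 / 40)) (tnt (h0 * x) (3 / 10)) (tbl tK x) (tbl tL x) (tbl (smT h0⁻¹ tC) x)) 0 2 2 5 7 (-1) (-1) :=
  (sideB hx hx').bothA (thrB hx hx') (en_pos (hx1 hx).le) (Or.inr rfl) (Or.inr rfl) fun y y' F =>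
    bothA_cert (s1 := false) (s2 := false) rfl hκ (en_pos (hx1 hx).le) (esg_rng (hx1 hx).le (hx2 hx').le).1 (mo_v x) covB50 covB72 hx hx'
        Pool.Agent.Strip051.G.I6050_6500.Tab.C.BA57.c_mm_022 noCut_EA noExt_EA F trivial trivial

theorem BA57_mm_023 {κ x : ℝ} (hκ : κ * h0 = ken x) (hx : ((649613803 : ℕ) : ℝ) / S ≤ x) (hx' : x ≤ (((649613803 : ℕ) : ℝ) + (48318383 : ℕ)) / S) :
    TriA PP.cur (VE (h0 * 0) 3 κ (h0 * x) (eng.v x) (h0 * (3 / 40)) (tnt (h0 * x) (3 / 10)) (tbl tK x) (tbl tL x) (tbl (smT h0⁻¹ tC) x)) 0 2 3 5 7 (-1) (-1) :=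
  (sideB hx hx').bothA (thrB hx hx') (en_pos (hx1 hx).le) (Or.inr rfl) (Or.inr rfl) fun y y' F =>
    bothA_cert (s1 := false) (s2 := false) rfl hκ (en_pos (hx1 hx).le) (esg_rng (hx1 hx).le (hx2 hx').le).1 (mo_v x) covB50 covB72 hx hx'
        Pool.Agent.Strip051.G.I6050_6500.Tab.C.BA57.c_mm_023 noCut_EA noExt_EA F trivial trivial

theorem BA57_mm_033 {κ x : ℝ} (hκ : κ * h0 = ken x) (hx : ((649613803 : ℕ) : ℝ) / S ≤ x) (hx' : x ≤ (((649613803 : ℕ) : ℝ) + (48318383 : ℕ)) / S) :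
    TriA PP.cur (VE (h0 * 0) 3 κ (h0 * x) (eng.v x) (h0 * (3 / 40)) (tnt (h0 * x) (3 / 10)) (tbl tK x) (tbl tL x) (tbl (smT h0⁻¹ tC) x)) 0 3 3 5 7 (-1) (-1) :=
  (sideB hx hx').bothA (thrB hx hx') (en_pos (hx1 hx).le) (Or.inr rfl) (Or.inr rfl) fun y y' F =>
    bothA_cert (s1 := false) (s2 := false) rfl hκ (en_pos (hx1 hx).le) (esg_rng (hx1 hx).le (hx2 hx').le).1 (mo_v x) covB50 covB73 hx hx'
        Pool.Agent.Strip051.G.I6050_6500.Tab.C.BA57.c_mm_033 noCut_EA noExt_EA F trivial trivial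

theorem BA57_mm_101 {κ x : ℝ} (hκ : κ * h0 = ken x) (hx : ((649613803 : ℕ) : ℝ) / S ≤ x) (hx' : x ≤ (((649613803 : ℕ) : ℝ) + (48318383 : ℕ)) / S) :
    TriA PP.cur (VE (h0 * 0) 3 κ (h0 * x) (eng.v x) (h0 * (3 / 40)) (tnt (h0 * x) (3 / 10)) (tbl tK x) (tbl tL x) (tbl (smT h0⁻¹ tC) x)) 1 0 1 5 7 (-1) (-1) :=
  (sideB hx hx').bothA (thrB hx hx') (en_pos (hx1 hx).le) (Or.inr rfl) (Or.inr rfl) fun y y' F =>
    bothA_cert (s1 := false) (s2 := false) rfl hκ (en_pos (hx1 hx).le) (esg_rng (hx1 hx).le (hx2 hx').le).1 (mo_v x) covB51 covB70 hx hx'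
        Pool.Agent.Strip051.G.I6050_6500.Tab.C.BA57.c_mm_101 noCut_EA noExt_EA F trivial trivial

theorem BA57_mm_102 {κ x : ℝ} (hκ : κ * h0 = ken x) (hx : ((649613803 : ℕ) : ℝ) / S ≤ x) (hx' : x ≤ (((649613803 : ℕ) : ℝ) + (48318383 : ℕ)) / S) :
    TriA PP.cur (VE (h0 * 0) 3 κ (h0 * x) (eng.v x) (h0 * (3 / 40)) (tnt (h0 * x) (3 / 10)) (tbl tK x) (tbl tL x) (tbl (smT h0⁻¹ tC) x)) 1 0 2 5 7 (-1) (-1) :=
  (sideB hx hx').bothA (thrB hx hx') (en_pos (hx1 hx).le) (Or.inr rfl) (Or.inr rfl) fun y y' F =>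
    bothA_cert (s1 := false) (s2 := false) rfl hκ (en_pos (hx1 hx).le) (esg_rng (hx1 hx).le (hx2 hx').le).1 (mo_v x) covB51 covB70 hx hx'
        Pool.Agent.Strip051.G.I6050_6500.Tab.C.BA57.c_mm_102 noCut_EA noExt_EA F trivial trivial

theorem BA57_mm_112 {κ x : ℝ} (hκ : κ * h0 = ken x) (hx : ((649613803 : ℕ) : ℝ) / S ≤ x) (hx' : x ≤ (((649613803 : ℕ) : ℝ) + (48318383 : ℕ)) / S) :
    TriA PP.cur (VE (h0 * 0) 3 κ (h0 * x) (eng.v x) (h0 * (3 / 40)) (tnt (h0 * x) (3 / 10)) (tbl tK x) (tbl tL x) (tbl (smT h0⁻¹ tC) x)) 1 1 2 5 7 (-1) (-1) :=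
  (sideB hx hx').bothA (thrB hx hx') (en_pos (hx1 hx).le) (Or.inr rfl) (Or.inr rfl) fun y y' F =>
    bothA_cert (s1 := false) (s2 := false) rfl hκ (en_pos (hx1 hx).le) (esg_rng (hx1 hx).le (hx2 hx').le).1 (mo_v x) covB51 covB71 hx hx'
        Pool.Agent.Strip051.G.I6050_6500.Tab.C.BA57.c_mm_112 noCut_EA noExt_EA F trivial trivial

theorem BA57_mm_113 {κ x : ℝ} (hκ : κ * h0 = ken x) (hx : ((649613803 : ℕ) : ℝ) / S ≤ x) (hx' : x ≤ (((649613803 : ℕ) : ℝ) + (48318383 : ℕ)) / S) :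
    TriA PP.cur (VE (h0 * 0) 3 κ (h0 * x) (eng.v x) (h0 * (3 / 40)) (tnt (h0 * x) (3 / 10)) (tbl tK x) (tbl tL x) (tbl (smT h0⁻¹ tC) x)) 1 1 3 5 7 (-1) (-1) :=
  (sideB hx hx').bothA (thrB hx hx') (en_pos (hx1 hx).le) (Or.inr rfl) (Or.inr rfl) fun y y' F =>
    bothA_cert (s1 := false) (s2 := false) rfl hκ (en_pos (hx1 hx).le) (esg_rng (hx1 hx).le (hx2 hx').le).1 (mo_v x) covB51 covB71 hx hx'
        Pool.Agent.Strip051.G.I6050_6500.Tab.C.BA57.c_mm_113 noCut_EA noExt_EA F trivial trivial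

theorem BA57_mm_123 {κ x : ℝ} (hκ : κ * h0 = ken x) (hx : ((649613803 : ℕ) : ℝ) / S ≤ x) (hx' : x ≤ (((649613803 : ℕ) : ℝ) + (48318383 : ℕ)) / S) :
    TriA PP.cur (VE (h0 * 0) 3 κ (h0 * x) (eng.v x) (h0 * (3 / 40)) (tnt (h0 * x) (3 / 10)) (tbl tK x) (tbl tL x) (tbl (smT h0⁻¹ tC) x)) 1 2 3 5 7 (-1) (-1) :=
  (sideB hx hx').bothA (thrB hx hx') (en_pos (hx1 hx).le) (Or.inr rfl) (Or.inr rfl) fun y y' F =>
    bothA_cert (s1 := false) (s2 := false) rfl hκ (en_pos (hx1 hx).le) (esg_rng (hx1 hx).le (hx2 hx').le).1 (mo_v x) covB51 covB72 hx hx'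
        Pool.Agent.Strip051.G.I6050_6500.Tab.C.BA57.c_mm_123 noCut_EA noExt_EA F trivial trivial

theorem BA57_mm_133 {κ x : ℝ} (hκ : κ * h0 = ken x) (hx : ((649613803 : ℕ) : ℝ) / S ≤ x) (hx' : x ≤ (((649613803 : ℕ) : ℝ) + (48318383 : ℕ)) / S) :
    TriA PP.cur (VE (h0 * 0) 3 κ (h0 * x) (eng.v x) (h0 * (3 / 40)) (tnt (h0 * x) (3 / 10)) (tbl tK x) (tbl tL x) (tbl (smT h0⁻¹ tC) x)) 1 3 3 5 7 (-1) (-1) :=
  (sideB hx hx').bothA (thrB hx hx') (en_pos (hx1 hx).le) (Or.inr rfl) (Or.inr rfl) fun y y' F =>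
    bothA_cert (s1 := false) (s2 := false) rfl hκ (en_pos (hx1 hx).le) (esg_rng (hx1 hx).le (hx2 hx').le).1 (mo_v x) covB51 covB73 hx hx'
        Pool.Agent.Strip051.G.I6050_6500.Tab.C.BA57.c_mm_133 noCut_EA noExt_EA F trivial trivial

theorem BA57_mm_202 {κ x : ℝ} (hκ : κ * h0 = ken x) (hx : ((649613803 : ℕ) : ℝ) / S ≤ x) (hx' : x ≤ (((649613803 : ℕ) : ℝ) + (48318383 : ℕ)) / S) :
    TriA PP.cur (VE (h0 * 0) 3 κ (h0 * x) (eng.v x) (h0 * (3 / 40)) (tnt (h0 * x) (3 / 10)) (tbl tK x) (tbl tL x) (tbl (smT h0⁻¹ tC) x)) 2 0 2 5 7 (-1) (-1) :=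
  (sideB hx hx').bothA (thrB hx hx') (en_pos (hx1 hx).le) (Or.inr rfl) (Or.inr rfl) fun y y' F =>
    bothA_cert (s1 := false) (s2 := false) rfl hκ (en_pos (hx1 hx).le) (esg_rng (hx1 hx).le (hx2 hx').le).1 (mo_v x) covB52 covB70 hx hx'
        Pool.Agent.Strip051.G.I6050_6500.Tab.C.BA57.c_mm_202 noCut_EA noExt_EA F trivial trivial

theorem BA57_mm_203 {κ x : ℝ} (hκ : κ * h0 = ken x) (hx : ((649613803 : ℕ) : ℝ) / S ≤ x) (hx' : x ≤ (((649613803 : ℕ) : ℝ) + (48318383 : ℕ)) / S) :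
    TriA PP.cur (VE (h0 * 0) 3 κ (h0 * x) (eng.v x) (h0 * (3 / 40)) (tnt (h0 * x) (3 / 10)) (tbl tK x) (tbl tL x) (tbl (smT h0⁻¹ tC) x)) 2 0 3 5 7 (-1) (-1) :=
  (sideB hx hx').bothA (thrB hx hx') (en_pos (hx1 hx).le) (Or.inr rfl) (Or.inr rfl) fun y y' F =>
    bothA_cert (s1 := false) (s2 := false) rfl hκ (en_pos (hx1 hx).le) (esg_rng (hx1 hx).le (hx2 hx').le).1 (mo_v x) covB52 covB70 hx hx'
        Pool.Agent.Strip051.G.I6050_6500.Tab.C.BA57.c_mm_203 noCut_EA noExt_EA F trivial trivial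

theorem BA57_mm_213 {κ x : ℝ} (hκ : κ * h0 = ken x) (hx : ((649613803 : ℕ) : ℝ) / S ≤ x) (hx' : x ≤ (((649613803 : ℕ) : ℝ) + (48318383 : ℕ)) / S) :
    TriA PP.cur (VE (h0 * 0) 3 κ (h0 * x) (eng.v x) (h0 * (3 / 40)) (tnt (h0 * x) (3 / 10)) (tbl tK x) (tbl tL x) (tbl (smT h0⁻¹ tC) x)) 2 1 3 5 7 (-1) (-1) :=
  (sideB hx hx').bothA (thrB hx hx') (en_pos (hx1 hx).le) (Or.inr rfl) (Or.inr rfl) fun y y' F =>
    bothA_cert (s1 := false) (s2 := false) rfl hκ (en_pos (hx1 hx).le) (esg_rng (hx1 hx).le (hx2 hx').le).1 (mo_v x) covB52 covB71 hx hx'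
        Pool.Agent.Strip051.G.I6050_6500.Tab.C.BA57.c_mm_213 noCut_EA noExt_EA F trivial trivial

theorem BA57_mm_303 {κ x : ℝ} (hκ : κ * h0 = ken x) (hx : ((649613803 : ℕ) : ℝ) / S ≤ x) (hx' : x ≤ (((649613803 : ℕ) : ℝ) + (48318383 : ℕ)) / S) :
    TriA PP.cur (VE (h0 * 0) 3 κ (h0 * x) (eng.v x) (h0 * (3 / 40)) (tnt (h0 * x) (3 / 10)) (tbl tK x) (tbl tL x) (tbl (smT h0⁻¹ tC) x)) 3 0 3 5 7 (-1) (-1) :=
  (sideB hx hx').bothA (thrB hx hx') (en_pos (hx1 hx).le) (Or.inr rfl) (Or.inr rfl) fun y y' F =>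
    bothA_cert (s1 := false) (s2 := false) rfl hκ (en_pos (hx1 hx).le) (esg_rng (hx1 hx).le (hx2 hx').le).1 (mo_v x) covB53 covB70 hx hx'
        Pool.Agent.Strip051.G.I6050_6500.Tab.C.BA57.c_mm_303 noCut_EA noExt_EA F trivial trivial

theorem BA57_mm_313 {κ x : ℝ} (hκ : κ * h0 = ken x) (hx : ((649613803 : ℕ) : ℝ) / S ≤ x) (hx' : x ≤ (((649613803 : ℕ) : ℝ) + (48318383 : ℕ)) / S) :
    TriA PP.cur (VE (h0 * 0) 3 κ (h0 * x) (eng.v x) (h0 * (3 / 40)) (tnt (h0 * x) (3 / 10)) (tbl tK x) (tbl tL x) (tbl (smT h0⁻¹ tC) x)) 3 1 3 5 7 (-1) (-1) :=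
  (sideB hx hx').bothA (thrB hx hx') (en_pos (hx1 hx).le) (Or.inr rfl) (Or.inr rfl) fun y y' F =>
    bothA_cert (s1 := false) (s2 := false) rfl hκ (en_pos (hx1 hx).le) (esg_rng (hx1 hx).le (hx2 hx').le).1 (mo_v x) covB53 covB71 hx hx'
        Pool.Agent.Strip051.G.I6050_6500.Tab.C.BA57.c_mm_313 noCut_EA noExt_EA F trivial trivial

theorem BA57 {κ x : ℝ} (hκ : κ * h0 = ken x) (hx : ((649613803 : ℕ) : ℝ) / S ≤ x) (hx' : x ≤ (((649613803 : ℕ) : ℝ) + (48318383 : ℕ)) / S) : AllTA PP.cur (VE (h0 * 0) 3 κ (h0 * x) (eng.v x) (h0 * (3 / 40)) (tnt (h0 * x) (3 / 10)) (tbl tK x) (tbl tL x) (tbl (smT h0⁻¹ tC) x)) 5 7 where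
  pp := all17 (Q := fun a b c => TriA PP.cur (VE (h0 * 0) 3 κ (h0 * x) (eng.v x) (h0 * (3 / 40)) (tnt (h0 * x) (3 / 10)) (tbl tK x) (tbl tL x) (tbl (smT h0⁻¹ tC) x)) a b c 5 7 1 1)
    (BA57_pp_001 hκ hx hx') (BA57_pp_011 hκ hx hx') (BA57_pp_012 hκ hx hx') (BA57_pp_022 hκ hx hx') (BA57_pp_023 hκ hx hx') (BA57_pp_033 hκ hx hx') (BA57_pp_101 hκ hx hx') (BA57_pp_102 hκ hx hx') (BA57_pp_112 hκ hx hx') (BA57_pp_113 hκ hx hx') (BA57_pp_123 hκ hx hx') (BA57_pp_133 hκ hx hx') (BA57_pp_202 hκ hx hx') (BA57_pp_203 hκ hx hx') (BA57_pp_213 hκ hx hx') (BA57_pp_303 hκ hx hx') (BA57_pp_313 hκ hx hx')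
  pm := all17 (Q := fun a b c => TriA PP.cur (VE (h0 * 0) 3 κ (h0 * x) (eng.v x) (h0 * (3 / 40)) (tnt (h0 * x) (3 / 10)) (tbl tK x) (tbl tL x) (tbl (smT h0⁻¹ tC) x)) a b c 5 7 1 (-1))
    (BA57_pm_001 hκ hx hx') (BA57_pm_011 hκ hx hx') (BA57_pm_012 hκ hx hx') (BA57_pm_022 hκ hx hx') (BA57_pm_023 hκ hx hx') (BA57_pm_033 hκ hx hx') (BA57_pm_101 hκ hx hx') (BA57_pm_102 hκ hx hx') (BA57_pm_112 hκ hx hx') (BA57_pm_113 hκ hx hx') (BA57_pm_123 hκ hx hx') (BA57_pm_133 hκ hx hx') (BA57_pm_202 hκ hx hx') (BA57_pm_203 hκ hx hx') (BA57_pm_213 hκ hx hx') (BA57_pm_303 hκ hx hx') (BA57_pm_313 hκ hx hx')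
  mm := all17 (Q := fun a b c => TriA PP.cur (VE (h0 * 0) 3 κ (h0 * x) (eng.v x) (h0 * (3 / 40)) (tnt (h0 * x) (3 / 10)) (tbl tK x) (tbl tL x) (tbl (smT h0⁻¹ tC) x)) a b c 5 7 (-1) (-1))
    (BA57_mm_001 hκ hx hx') (BA57_mm_011 hκ hx hx') (BA57_mm_012 hκ hx hx') (BA57_mm_022 hκ hx hx') (BA57_mm_023 hκ hx hx') (BA57_mm_033 hκ hx hx') (BA57_mm_101 hκ hx hx') (BA57_mm_102 hκ hx hx') (BA57_mm_112 hκ hx hx') (BA57_mm_113 hκ hx hx') (BA57_mm_123 hκ hx hx') (BA57_mm_133 hκ hx hx') (BA57_mm_202 hκ hx hx') (BA57_mm_203 hκ hx hx') (BA57_mm_213 hκ hx hx') (BA57_mm_303 hκ hx hx') (BA57_mm_313 hκ hx hx')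

theorem BA58_pp_001 {κ x : ℝ} (hκ : κ * h0 = ken x) (hx : ((649613803 : ℕ) : ℝ) / S ≤ x) (hx' : x ≤ (((649613803 : ℕ) : ℝ) + (48318383 : ℕ)) / S) :
    TriA PP.cur (VE (h0 * 0) 3 κ (h0 * x) (eng.v x) (h0 * (3 / 40)) (tnt (h0 * x) (3 / 10)) (tbl tK x) (tbl tL x) (tbl (smT h0⁻¹ tC) x)) 0 0 1 5 8 1 1 :=
  (sideB hx hx').bothA (thrB hx hx') (en_pos (hx1 hx).le) (Or.inl rfl) (Or.inl rfl) fun y y' F =>
    bothA_cert (s1 := true) (s2 := true) rfl hκ (en_pos (hx1 hx).le) (esg_rng (hx1 hx).le (hx2 hx').le).1 (mo_v x) covB50 covB80 hx hx'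
        Pool.Agent.Strip051.G.I6050_6500.Tab.C.BA58.c_pp_001 noCut_EA noExt_EA F trivial trivial

theorem BA58_pp_011 {κ x : ℝ} (hκ : κ * h0 = ken x) (hx : ((649613803 : ℕ) : ℝ) / S ≤ x) (hx' : x ≤ (((649613803 : ℕ) : ℝ) + (48318383 : ℕ)) / S) :
    TriA PP.cur (VE (h0 * 0) 3 κ (h0 * x) (eng.v x) (h0 * (3 / 40)) (tnt (h0 * x) (3 / 10)) (tbl tK x) (tbl tL x) (tbl (smT h0⁻¹ tC) x)) 0 1 1 5 8 1 1 :=
  (sideB hx hx').bothA (thrB hx hx') (en_pos (hx1 hx).le) (Or.inl rfl) (Or.inl rfl) fun y y' F =>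
    bothA_cert (s1 := true) (s2 := true) rfl hκ (en_pos (hx1 hx).le) (esg_rng (hx1 hx).le (hx2 hx').le).1 (mo_v x) covB50 covB81 hx hx'
        Pool.Agent.Strip051.G.I6050_6500.Tab.C.BA58.c_pp_011 noCut_EA noExt_EA F trivial trivial

theorem BA58_pp_012 {κ x : ℝ} (hκ : κ * h0 = ken x) (hx : ((649613803 : ℕ) : ℝ) / S ≤ x) (hx' : x ≤ (((649613803 : ℕ) : ℝ) + (48318383 : ℕ)) / S) :
    TriA PP.cur (VE (h0 * 0) 3 κ (h0 * x) (eng.v x) (h0 * (3 / 40)) (tnt (h0 * x) (3 / 10)) (tbl tK x) (tbl tL x) (tbl (smT h0⁻¹ tC) x)) 0 1 2 5 8 1 1 :=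
  (sideB hx hx').bothA (thrB hx hx') (en_pos (hx1 hx).le) (Or.inl rfl) (Or.inl rfl) fun y y' F =>
    bothA_cert (s1 := true) (s2 := true) rfl hκ (en_pos (hx1 hx).le) (esg_rng (hx1 hx).le (hx2 hx').le).1 (mo_v x) covB50 covB81 hx hx'
        Pool.Agent.Strip051.G.I6050_6500.Tab.C.BA58.c_pp_012 noCut_EA noExt_EA F trivial trivial

theorem BA58_pp_022 {κ x : ℝ} (hκ : κ * h0 = ken x) (hx : ((649613803 : ℕ) : ℝ) / S ≤ x) (hx' : x ≤ (((649613803 : ℕ) : ℝ) + (48318383 : ℕ)) / S) :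
    TriA PP.cur (VE (h0 * 0) 3 κ (h0 * x) (eng.v x) (h0 * (3 / 40)) (tnt (h0 * x) (3 / 10)) (tbl tK x) (tbl tL x) (tbl (smT h0⁻¹ tC) x)) 0 2 2 5 8 1 1 :=
  (sideB hx hx').bothA (thrB hx hx') (en_pos (hx1 hx).le) (Or.inl rfl) (Or.inl rfl) fun y y' F =>
    bothA_cert (s1 := true) (s2 := true) rfl hκ (en_pos (hx1 hx).le) (esg_rng (hx1 hx).le (hx2 hx').le).1 (mo_v x) covB50 covB82 hx hx'
        Pool.Agent.Strip051.G.I6050_6500.Tab.C.BA58.c_pp_022 noCut_EA noExt_EA F trivial trivial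

theorem BA58_pp_023 {κ x : ℝ} (hκ : κ * h0 = ken x) (hx : ((649613803 : ℕ) : ℝ) / S ≤ x) (hx' : x ≤ (((649613803 : ℕ) : ℝ) + (48318383 : ℕ)) / S) :
    TriA PP.cur (VE (h0 * 0) 3 κ (h0 * x) (eng.v x) (h0 * (3 / 40)) (tnt (h0 * x) (3 / 10)) (tbl tK x) (tbl tL x) (tbl (smT h0⁻¹ tC) x)) 0 2 3 5 8 1 1 :=
  (sideB hx hx').bothA (thrB hx hx') (en_pos (hx1 hx).le) (Or.inl rfl) (Or.inl rfl) fun y y' F =>
    bothA_cert (s1 := true) (s2 := true) rfl hκ (en_pos (hx1 hx).le) (esg_rng (hx1 hx).le (hx2 hx').le).1 (mo_v x) covB50 covB82 hx hx'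
        Pool.Agent.Strip051.G.I6050_6500.Tab.C.BA58.c_pp_023 noCut_EA noExt_EA F trivial trivial

theorem BA58_pp_033 {κ x : ℝ} (hκ : κ * h0 = ken x) (hx : ((649613803 : ℕ) : ℝ) / S ≤ x) (hx' : x ≤ (((649613803 : ℕ) : ℝ) + (48318383 : ℕ)) / S) :
    TriA PP.cur (VE (h0 * 0) 3 κ (h0 * x) (eng.v x) (h0 * (3 / 40)) (tnt (h0 * x) (3 / 10)) (tbl tK x) (tbl tL x) (tbl (smT h0⁻¹ tC) x)) 0 3 3 5 8 1 1 :=
  (sideB hx hx').bothA (thrB hx hx') (en_pos (hx1 hx).le) (Or.inl rfl) (Or.inl rfl) fun y y' F =>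
    bothA_cert (s1 := true) (s2 := true) rfl hκ (en_pos (hx1 hx).le) (esg_rng (hx1 hx).le (hx2 hx').le).1 (mo_v x) covB50 covB83 hx hx'
        Pool.Agent.Strip051.G.I6050_6500.Tab.C.BA58.c_pp_033 noCut_EA noExt_EA F trivial trivial

theorem BA58_pp_101 {κ x : ℝ} (hκ : κ * h0 = ken x) (hx : ((649613803 : ℕ) : ℝ) / S ≤ x) (hx' : x ≤ (((649613803 : ℕ) : ℝ) + (48318383 : ℕ)) / S) :
    TriA PP.cur (VE (h0 * 0) 3 κ (h0 * x) (eng.v x) (h0 * (3 / 40)) (tnt (h0 * x) (3 / 10)) (tbl tK x) (tbl tL x) (tbl (smT h0⁻¹ tC) x)) 1 0 1 5 8 1 1 :=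
  (sideB hx hx').bothA (thrB hx hx') (en_pos (hx1 hx).le) (Or.inl rfl) (Or.inl rfl) fun y y' F =>
    bothA_cert (s1 := true) (s2 := true) rfl hκ (en_pos (hx1 hx).le) (esg_rng (hx1 hx).le (hx2 hx').le).1 (mo_v x) covB51 covB80 hx hx'
        Pool.Agent.Strip051.G.I6050_6500.Tab.C.BA58.c_pp_101 noCut_EA noExt_EA F trivial trivial

theorem BA58_pp_102 {κ x : ℝ} (hκ : κ * h0 = ken x) (hx : ((649613803 : ℕ) : ℝ) / S ≤ x) (hx' : x ≤ (((649613803 : ℕ) : ℝ) + (48318383 : ℕ)) / S) :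
    TriA PP.cur (VE (h0 * 0) 3 κ (h0 * x) (eng.v x) (h0 * (3 / 40)) (tnt (h0 * x) (3 / 10)) (tbl tK x) (tbl tL x) (tbl (smT h0⁻¹ tC) x)) 1 0 2 5 8 1 1 :=
  (sideB hx hx').bothA (thrB hx hx') (en_pos (hx1 hx).le) (Or.inl rfl) (Or.inl rfl) fun y y' F =>
    bothA_cert (s1 := true) (s2 := true) rfl hκ (en_pos (hx1 hx).le) (esg_rng (hx1 hx).le (hx2 hx').le).1 (mo_v x) covB51 covB80 hx hx'
        Pool.Agent.Strip051.G.I6050_6500.Tab.C.BA58.c_pp_102 noCut_EA noExt_EA F trivial trivial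

theorem BA58_pp_112 {κ x : ℝ} (hκ : κ * h0 = ken x) (hx : ((649613803 : ℕ) : ℝ) / S ≤ x) (hx' : x ≤ (((649613803 : ℕ) : ℝ) + (48318383 : ℕ)) / S) :
    TriA PP.cur (VE (h0 * 0) 3 κ (h0 * x) (eng.v x) (h0 * (3 / 40)) (tnt (h0 * x) (3 / 10)) (tbl tK x) (tbl tL x) (tbl (smT h0⁻¹ tC) x)) 1 1 2 5 8 1 1 :=
  (sideB hx hx').bothA (thrB hx hx') (en_pos (hx1 hx).le) (Or.inl rfl) (Or.inl rfl) fun y y' F =>
    bothA_cert (s1 := true) (s2 := true) rfl hκ (en_pos (hx1 hx).le) (esg_rng (hx1 hx).le (hx2 hx').le).1 (mo_v x) covB51 covB81 hx hx'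
        Pool.Agent.Strip051.G.I6050_6500.Tab.C.BA58.c_pp_112 noCut_EA noExt_EA F trivial trivial

theorem BA58_pp_113 {κ x : ℝ} (hκ : κ * h0 = ken x) (hx : ((649613803 : ℕ) : ℝ) / S ≤ x) (hx' : x ≤ (((649613803 : ℕ) : ℝ) + (48318383 : ℕ)) / S) :
    TriA PP.cur (VE (h0 * 0) 3 κ (h0 * x) (eng.v x) (h0 * (3 / 40)) (tnt (h0 * x) (3 / 10)) (tbl tK x) (tbl tL x) (tbl (smT h0⁻¹ tC) x)) 1 1 3 5 8 1 1 :=
  (sideB hx hx').bothA (thrB hx hx') (en_pos (hx1 hx).le) (Or.inl rfl) (Or.inl rfl) fun y y' F =>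
    bothA_cert (s1 := true) (s2 := true) rfl hκ (en_pos (hx1 hx).le) (esg_rng (hx1 hx).le (hx2 hx').le).1 (mo_v x) covB51 covB81 hx hx'
        Pool.Agent.Strip051.G.I6050_6500.Tab.C.BA58.c_pp_113 noCut_EA noExt_EA F trivial trivial

theorem BA58_pp_123 {κ x : ℝ} (hκ : κ * h0 = ken x) (hx : ((649613803 : ℕ) : ℝ) / S ≤ x) (hx' : x ≤ (((649613803 : ℕ) : ℝ) + (48318383 : ℕ)) / S) :
    TriA PP.cur (VE (h0 * 0) 3 κ (h0 * x) (eng.v x) (h0 * (3 / 40)) (tnt (h0 * x) (3 / 10)) (tbl tK x) (tbl tL x) (tbl (smT h0⁻¹ tC) x)) 1 2 3 5 8 1 1 :=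
  (sideB hx hx').bothA (thrB hx hx') (en_pos (hx1 hx).le) (Or.inl rfl) (Or.inl rfl) fun y y' F =>
    bothA_cert (s1 := true) (s2 := true) rfl hκ (en_pos (hx1 hx).le) (esg_rng (hx1 hx).le (hx2 hx').le).1 (mo_v x) covB51 covB82 hx hx'
        Pool.Agent.Strip051.G.I6050_6500.Tab.C.BA58.c_pp_123 noCut_EA noExt_EA F trivial trivial

theorem BA58_pp_133 {κ x : ℝ} (hκ : κ * h0 = ken x) (hx : ((649613803 : ℕ) : ℝ) / S ≤ x) (hx' : x ≤ (((649613803 : ℕ) : ℝ) + (48318383 : ℕ)) / S) :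
    TriA PP.cur (VE (h0 * 0) 3 κ (h0 * x) (eng.v x) (h0 * (3 / 40)) (tnt (h0 * x) (3 / 10)) (tbl tK x) (tbl tL x) (tbl (smT h0⁻¹ tC) x)) 1 3 3 5 8 1 1 :=
  (sideB hx hx').bothA (thrB hx hx') (en_pos (hx1 hx).le) (Or.inl rfl) (Or.inl rfl) fun y y' F =>
    bothA_cert (s1 := true) (s2 := true) rfl hκ (en_pos (hx1 hx).le) (esg_rng (hx1 hx).le (hx2 hx').le).1 (mo_v x) covB51 covB83 hx hx'
        Pool.Agent.Strip051.G.I6050_6500.Tab.C.BA58.c_pp_133 noCut_EA noExt_EA F trivial trivial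

theorem BA58_pp_202 {κ x : ℝ} (hκ : κ * h0 = ken x) (hx : ((649613803 : ℕ) : ℝ) / S ≤ x) (hx' : x ≤ (((649613803 : ℕ) : ℝ) + (48318383 : ℕ)) / S) :
    TriA PP.cur (VE (h0 * 0) 3 κ (h0 * x) (eng.v x) (h0 * (3 / 40)) (tnt (h0 * x) (3 / 10)) (tbl tK x) (tbl tL x) (tbl (smT h0⁻¹ tC) x)) 2 0 2 5 8 1 1 :=
  (sideB hx hx').bothA (thrB hx hx') (en_pos (hx1 hx).le) (Or.inl rfl) (Or.inl rfl) fun y y' F =>
    bothA_cert (s1 := true) (s2 := true) rfl hκ (en_pos (hx1 hx).le) (esg_rng (hx1 hx).le (hx2 hx').le).1 (mo_v x) covB52 covB80 hx hx'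
        Pool.Agent.Strip051.G.I6050_6500.Tab.C.BA58.c_pp_202 noCut_EA noExt_EA F trivial trivial

theorem BA58_pp_203 {κ x : ℝ} (hκ : κ * h0 = ken x) (hx : ((649613803 : ℕ) : ℝ) / S ≤ x) (hx' : x ≤ (((649613803 : ℕ) : ℝ) + (48318383 : ℕ)) / S) :
    TriA PP.cur (VE (h0 * 0) 3 κ (h0 * x) (eng.v x) (h0 * (3 / 40)) (tnt (h0 * x) (3 / 10)) (tbl tK x) (tbl tL x) (tbl (smT h0⁻¹ tC) x)) 2 0 3 5 8 1 1 :=
  (sideB hx hx').bothA (thrB hx hx') (en_pos (hx1 hx).le) (Or.inl rfl) (Or.inl rfl) fun y y' F =>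
    bothA_cert (s1 := true) (s2 := true) rfl hκ (en_pos (hx1 hx).le) (esg_rng (hx1 hx).le (hx2 hx').le).1 (mo_v x) covB52 covB80 hx hx'
        Pool.Agent.Strip051.G.I6050_6500.Tab.C.BA58.c_pp_203 noCut_EA noExt_EA F trivial trivial

theorem BA58_pp_213 {κ x : ℝ} (hκ : κ * h0 = ken x) (hx : ((649613803 : ℕ) : ℝ) / S ≤ x) (hx' : x ≤ (((649613803 : ℕ) : ℝ) + (48318383 : ℕ)) / S) :
    TriA PP.cur (VE (h0 * 0) 3 κ (h0 * x) (eng.v x) (h0 * (3 / 40)) (tnt (h0 * x) (3 / 10)) (tbl tK x) (tbl tL x) (tbl (smT h0⁻¹ tC) x)) 2 1 3 5 8 1 1 :=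
  (sideB hx hx').bothA (thrB hx hx') (en_pos (hx1 hx).le) (Or.inl rfl) (Or.inl rfl) fun y y' F =>
    bothA_cert (s1 := true) (s2 := true) rfl hκ (en_pos (hx1 hx).le) (esg_rng (hx1 hx).le (hx2 hx').le).1 (mo_v x) covB52 covB81 hx hx'
        Pool.Agent.Strip051.G.I6050_6500.Tab.C.BA58.c_pp_213 noCut_EA noExt_EA F trivial trivial

theorem BA58_pp_303 {κ x : ℝ} (hκ : κ * h0 = ken x) (hx : ((649613803 : ℕ) : ℝ) / S ≤ x) (hx' : x ≤ (((649613803 : ℕ) : ℝ) + (48318383 : ℕ)) / S) :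
    TriA PP.cur (VE (h0 * 0) 3 κ (h0 * x) (eng.v x) (h0 * (3 / 40)) (tnt (h0 * x) (3 / 10)) (tbl tK x) (tbl tL x) (tbl (smT h0⁻¹ tC) x)) 3 0 3 5 8 1 1 :=
  (sideB hx hx').bothA (thrB hx hx') (en_pos (hx1 hx).le) (Or.inl rfl) (Or.inl rfl) fun y y' F =>
    bothA_cert (s1 := true) (s2 := true) rfl hκ (en_pos (hx1 hx).le) (esg_rng (hx1 hx).le (hx2 hx').le).1 (mo_v x) covB53 covB80 hx hx'
        Pool.Agent.Strip051.G.I6050_6500.Tab.C.BA58.c_pp_303 noCut_EA noExt_EA F trivial trivial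

theorem BA58_pp_313 {κ x : ℝ} (hκ : κ * h0 = ken x) (hx : ((649613803 : ℕ) : ℝ) / S ≤ x) (hx' : x ≤ (((649613803 : ℕ) : ℝ) + (48318383 : ℕ)) / S) :
    TriA PP.cur (VE (h0 * 0) 3 κ (h0 * x) (eng.v x) (h0 * (3 / 40)) (tnt (h0 * x) (3 / 10)) (tbl tK x) (tbl tL x) (tbl (smT h0⁻¹ tC) x)) 3 1 3 5 8 1 1 :=
  (sideB hx hx').bothA (thrB hx hx') (en_pos (hx1 hx).le) (Or.inl rfl) (Or.inl rfl) fun y y' F =>
    bothA_cert (s1 := true) (s2 := true) rfl hκ (en_pos (hx1 hx).le) (esg_rng (hx1 hx).le (hx2 hx').le).1 (mo_v x) covB53 covB81 hx hx'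
        Pool.Agent.Strip051.G.I6050_6500.Tab.C.BA58.c_pp_313 noCut_EA noExt_EA F trivial trivial

theorem BA58_pm_001 {κ x : ℝ} (hκ : κ * h0 = ken x) (hx : ((649613803 : ℕ) : ℝ) / S ≤ x) (hx' : x ≤ (((649613803 : ℕ) : ℝ) + (48318383 : ℕ)) / S) :
    TriA PP.cur (VE (h0 * 0) 3 κ (h0 * x) (eng.v x) (h0 * (3 / 40)) (tnt (h0 * x) (3 / 10)) (tbl tK x) (tbl tL x) (tbl (smT h0⁻¹ tC) x)) 0 0 1 5 8 1 (-1) :=
  (sideB hx hx').bothA (thrB hx hx') (en_pos (hx1 hx).le) (Or.inl rfl) (Or.inr rfl) fun y y' F =>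
    bothA_cert (s1 := true) (s2 := false) rfl hκ (en_pos (hx1 hx).le) (esg_rng (hx1 hx).le (hx2 hx').le).1 (mo_v x) covB50 covB80 hx hx'
        Pool.Agent.Strip051.G.I6050_6500.Tab.C.BA58.c_pm_001 noCut_EA noExt_EA F trivial trivial

theorem BA58_pm_011 {κ x : ℝ} (hκ : κ * h0 = ken x) (hx : ((649613803 : ℕ) : ℝ) / S ≤ x) (hx' : x ≤ (((649613803 : ℕ) : ℝ) + (48318383 : ℕ)) / S) :
    TriA PP.cur (VE (h0 * 0) 3 κ (h0 * x) (eng.v x) (h0 * (3 / 40)) (tnt (h0 * x) (3 / 10)) (tbl tK x) (tbl tL x) (tbl (smT h0⁻¹ tC) x)) 0 1 1 5 8 1 (-1) :=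
  (sideB hx hx').bothA (thrB hx hx') (en_pos (hx1 hx).le) (Or.inl rfl) (Or.inr rfl) fun y y' F =>
    bothA_cert (s1 := true) (s2 := false) rfl hκ (en_pos (hx1 hx).le) (esg_rng (hx1 hx).le (hx2 hx').le).1 (mo_v x) covB50 covB81 hx hx'
        Pool.Agent.Strip051.G.I6050_6500.Tab.C.BA58.c_pm_011 noCut_EA noExt_EA F trivial trivial

theorem BA58_pm_012 {κ x : ℝ} (hκ : κ * h0 = ken x) (hx : ((649613803 : ℕ) : ℝ) / S ≤ x) (hx' : x ≤ (((649613803 : ℕ) : ℝ) + (48318383 : ℕ)) / S) :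
    TriA PP.cur (VE (h0 * 0) 3 κ (h0 * x) (eng.v x) (h0 * (3 / 40)) (tnt (h0 * x) (3 / 10)) (tbl tK x) (tbl tL x) (tbl (smT h0⁻¹ tC) x)) 0 1 2 5 8 1 (-1) :=
  (sideB hx hx').bothA (thrB hx hx') (en_pos (hx1 hx).le) (Or.inl rfl) (Or.inr rfl) fun y y' F =>
    bothA_cert (s1 := true) (s2 := false) rfl hκ (en_pos (hx1 hx).le) (esg_rng (hx1 hx).le (hx2 hx').le).1 (mo_v x) covB50 covB81 hx hx'
        Pool.Agent.Strip051.G.I6050_6500.Tab.C.BA58.c_pm_012 noCut_EA noExt_EA F trivial trivial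

theorem BA58_pm_022 {κ x : ℝ} (hκ : κ * h0 = ken x) (hx : ((649613803 : ℕ) : ℝ) / S ≤ x) (hx' : x ≤ (((649613803 : ℕ) : ℝ) + (48318383 : ℕ)) / S) :
    TriA PP.cur (VE (h0 * 0) 3 κ (h0 * x) (eng.v x) (h0 * (3 / 40)) (tnt (h0 * x) (3 / 10)) (tbl tK x) (tbl tL x) (tbl (smT h0⁻¹ tC) x)) 0 2 2 5 8 1 (-1) :=
  (sideB hx hx').bothA (thrB hx hx') (en_pos (hx1 hx).le) (Or.inl rfl) (Or.inr rfl) fun y y' F =>
    bothA_cert (s1 := true) (s2 := false) rfl hκ (en_pos (hx1 hx).le) (esg_rng (hx1 hx).le (hx2 hx').le).1 (mo_v x) covB50 covB82 hx hx'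
        Pool.Agent.Strip051.G.I6050_6500.Tab.C.BA58.c_pm_022 noCut_EA noExt_EA F trivial trivial

theorem BA58_pm_023 {κ x : ℝ} (hκ : κ * h0 = ken x) (hx : ((649613803 : ℕ) : ℝ) / S ≤ x) (hx' : x ≤ (((649613803 : ℕ) : ℝ) + (48318383 : ℕ)) / S) :
    TriA PP.cur (VE (h0 * 0) 3 κ (h0 * x) (eng.v x) (h0 * (3 / 40)) (tnt (h0 * x) (3 / 10)) (tbl tK x) (tbl tL x) (tbl (smT h0⁻¹ tC) x)) 0 2 3 5 8 1 (-1) :=
  (sideB hx hx').bothA (thrB hx hx') (en_pos (hx1 hx).le) (Or.inl rfl) (Or.inr rfl) fun y y' F =>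
    bothA_cert (s1 := true) (s2 := false) rfl hκ (en_pos (hx1 hx).le) (esg_rng (hx1 hx).le (hx2 hx').le).1 (mo_v x) covB50 covB82 hx hx'
        Pool.Agent.Strip051.G.I6050_6500.Tab.C.BA58.c_pm_023 noCut_EA noExt_EA F trivial trivial

theorem BA58_pm_033 {κ x : ℝ} (hκ : κ * h0 = ken x) (hx : ((649613803 : ℕ) : ℝ) / S ≤ x) (hx' : x ≤ (((649613803 : ℕ) : ℝ) + (48318383 : ℕ)) / S) :
    TriA PP.cur (VE (h0 * 0) 3 κ (h0 * x) (eng.v x) (h0 * (3 / 40)) (tnt (h0 * x) (3 / 10)) (tbl tK x) (tbl tL x) (tbl (smT h0⁻¹ tC) x)) 0 3 3 5 8 1 (-1) :=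
  (sideB hx hx').bothA (thrB hx hx') (en_pos (hx1 hx).le) (Or.inl rfl) (Or.inr rfl) fun y y' F =>
    bothA_cert (s1 := true) (s2 := false) rfl hκ (en_pos (hx1 hx).le) (esg_rng (hx1 hx).le (hx2 hx').le).1 (mo_v x) covB50 covB83 hx hx'
        Pool.Agent.Strip051.G.I6050_6500.Tab.C.BA58.c_pm_033 noCut_EA noExt_EA F trivial trivial

theorem BA58_pm_101 {κ x : ℝ} (hκ : κ * h0 = ken x) (hx : ((649613803 : ℕ) : ℝ) / S ≤ x) (hx' : x ≤ (((649613803 : ℕ) : ℝ) + (48318383 : ℕ)) / S) :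
    TriA PP.cur (VE (h0 * 0) 3 κ (h0 * x) (eng.v x) (h0 * (3 / 40)) (tnt (h0 * x) (3 / 10)) (tbl tK x) (tbl tL x) (tbl (smT h0⁻¹ tC) x)) 1 0 1 5 8 1 (-1) :=
  (sideB hx hx').bothA (thrB hx hx') (en_pos (hx1 hx).le) (Or.inl rfl) (Or.inr rfl) fun y y' F =>
    bothA_cert (s1 := true) (s2 := false) rfl hκ (en_pos (hx1 hx).le) (esg_rng (hx1 hx).le (hx2 hx').le).1 (mo_v x) covB51 covB80 hx hx'
        Pool.Agent.Strip051.G.I6050_6500.Tab.C.BA58.c_pm_101 noCut_EA noExt_EA F trivial trivial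

theorem BA58_pm_102 {κ x : ℝ} (hκ : κ * h0 = ken x) (hx : ((649613803 : ℕ) : ℝ) / S ≤ x) (hx' : x ≤ (((649613803 : ℕ) : ℝ) + (48318383 : ℕ)) / S) :
    TriA PP.cur (VE (h0 * 0) 3 κ (h0 * x) (eng.v x) (h0 * (3 / 40)) (tnt (h0 * x) (3 / 10)) (tbl tK x) (tbl tL x) (tbl (smT h0⁻¹ tC) x)) 1 0 2 5 8 1 (-1) :=
  (sideB hx hx').bothA (thrB hx hx') (en_pos (hx1 hx).le) (Or.inl rfl) (Or.inr rfl) fun y y' F =>
    bothA_cert (s1 := true) (s2 := false) rfl hκ (en_pos (hx1 hx).le) (esg_rng (hx1 hx).le (hx2 hx').le).1 (mo_v x) covB51 covB80 hx hx'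
        Pool.Agent.Strip051.G.I6050_6500.Tab.C.BA58.c_pm_102 noCut_EA noExt_EA F trivial trivial

theorem BA58_pm_112 {κ x : ℝ} (hκ : κ * h0 = ken x) (hx : ((649613803 : ℕ) : ℝ) / S ≤ x) (hx' : x ≤ (((649613803 : ℕ) : ℝ) + (48318383 : ℕ)) / S) :
    TriA PP.cur (VE (h0 * 0) 3 κ (h0 * x) (eng.v x) (h0 * (3 / 40)) (tnt (h0 * x) (3 / 10)) (tbl tK x) (tbl tL x) (tbl (smT h0⁻¹ tC) x)) 1 1 2 5 8 1 (-1) :=
  (sideB hx hx').bothA (thrB hx hx') (en_pos (hx1 hx).le) (Or.inl rfl) (Or.inr rfl) fun y y' F =>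
    bothA_cert (s1 := true) (s2 := false) rfl hκ (en_pos (hx1 hx).le) (esg_rng (hx1 hx).le (hx2 hx').le).1 (mo_v x) covB51 covB81 hx hx'
        Pool.Agent.Strip051.G.I6050_6500.Tab.C.BA58.c_pm_112 noCut_EA noExt_EA F trivial trivial

theorem BA58_pm_113 {κ x : ℝ} (hκ : κ * h0 = ken x) (hx : ((649613803 : ℕ) : ℝ) / S ≤ x) (hx' : x ≤ (((649613803 : ℕ) : ℝ) + (48318383 : ℕ)) / S) :
    TriA PP.cur (VE (h0 * 0) 3 κ (h0 * x) (eng.v x) (h0 * (3 / 40)) (tnt (h0 * x) (3 / 10)) (tbl tK x) (tbl tL x) (tbl (smT h0⁻¹ tC) x)) 1 1 3 5 8 1 (-1) :=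
  (sideB hx hx').bothA (thrB hx hx') (en_pos (hx1 hx).le) (Or.inl rfl) (Or.inr rfl) fun y y' F =>
    bothA_cert (s1 := true) (s2 := false) rfl hκ (en_pos (hx1 hx).le) (esg_rng (hx1 hx).le (hx2 hx').le).1 (mo_v x) covB51 covB81 hx hx'
        Pool.Agent.Strip051.G.I6050_6500.Tab.C.BA58.c_pm_113 noCut_EA noExt_EA F trivial trivial

theorem BA58_pm_123 {κ x : ℝ} (hκ : κ * h0 = ken x) (hx : ((649613803 : ℕ) : ℝ) / S ≤ x) (hx' : x ≤ (((649613803 : ℕ) : ℝ) + (48318383 : ℕ)) / S) :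
    TriA PP.cur (VE (h0 * 0) 3 κ (h0 * x) (eng.v x) (h0 * (3 / 40)) (tnt (h0 * x) (3 / 10)) (tbl tK x) (tbl tL x) (tbl (smT h0⁻¹ tC) x)) 1 2 3 5 8 1 (-1) :=
  (sideB hx hx').bothA (thrB hx hx') (en_pos (hx1 hx).le) (Or.inl rfl) (Or.inr rfl) fun y y' F =>
    bothA_cert (s1 := true) (s2 := false) rfl hκ (en_pos (hx1 hx).le) (esg_rng (hx1 hx).le (hx2 hx').le).1 (mo_v x) covB51 covB82 hx hx'
        Pool.Agent.Strip051.G.I6050_6500.Tab.C.BA58.c_pm_123 noCut_EA noExt_EA F trivial trivial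

theorem BA58_pm_133 {κ x : ℝ} (hκ : κ * h0 = ken x) (hx : ((649613803 : ℕ) : ℝ) / S ≤ x) (hx' : x ≤ (((649613803 : ℕ) : ℝ) + (48318383 : ℕ)) / S) :
    TriA PP.cur (VE (h0 * 0) 3 κ (h0 * x) (eng.v x) (h0 * (3 / 40)) (tnt (h0 * x) (3 / 10)) (tbl tK x) (tbl tL x) (tbl (smT h0⁻¹ tC) x)) 1 3 3 5 8 1 (-1) :=
  (sideB hx hx').bothA (thrB hx hx') (en_pos (hx1 hx).le) (Or.inl rfl) (Or.inr rfl) fun y y' F =>
    bothA_cert (s1 := true) (s2 := false) rfl hκ (en_pos (hx1 hx).le) (esg_rng (hx1 hx).le (hx2 hx').le).1 (mo_v x) covB51 covB83 hx hx'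
        Pool.Agent.Strip051.G.I6050_6500.Tab.C.BA58.c_pm_133 noCut_EA noExt_EA F trivial trivial

theorem BA58_pm_202 {κ x : ℝ} (hκ : κ * h0 = ken x) (hx : ((649613803 : ℕ) : ℝ) / S ≤ x) (hx' : x ≤ (((649613803 : ℕ) : ℝ) + (48318383 : ℕ)) / S) :
    TriA PP.cur (VE (h0 * 0) 3 κ (h0 * x) (eng.v x) (h0 * (3 / 40)) (tnt (h0 * x) (3 / 10)) (tbl tK x) (tbl tL x) (tbl (smT h0⁻¹ tC) x)) 2 0 2 5 8 1 (-1) :=
  (sideB hx hx').bothA (thrB hx hx') (en_pos (hx1 hx).le) (Or.inl rfl) (Or.inr rfl) fun y y' F =>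
    bothA_cert (s1 := true) (s2 := false) rfl hκ (en_pos (hx1 hx).le) (esg_rng (hx1 hx).le (hx2 hx').le).1 (mo_v x) covB52 covB80 hx hx'
        Pool.Agent.Strip051.G.I6050_6500.Tab.C.BA58.c_pm_202 noCut_EA noExt_EA F trivial trivial

theorem BA58_pm_203 {κ x : ℝ} (hκ : κ * h0 = ken x) (hx : ((649613803 : ℕ) : ℝ) / S ≤ x) (hx' : x ≤ (((649613803 : ℕ) : ℝ) + (48318383 : ℕ)) / S) :
    TriA PP.cur (VE (h0 * 0) 3 κ (h0 * x) (eng.v x) (h0 * (3 / 40)) (tnt (h0 * x) (3 / 10)) (tbl tK x) (tbl tL x) (tbl (smT h0⁻¹ tC) x)) 2 0 3 5 8 1 (-1) :=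
  (sideB hx hx').bothA (thrB hx hx') (en_pos (hx1 hx).le) (Or.inl rfl) (Or.inr rfl) fun y y' F =>
    bothA_cert (s1 := true) (s2 := false) rfl hκ (en_pos (hx1 hx).le) (esg_rng (hx1 hx).le (hx2 hx').le).1 (mo_v x) covB52 covB80 hx hx'
        Pool.Agent.Strip051.G.I6050_6500.Tab.C.BA58.c_pm_203 noCut_EA noExt_EA F trivial trivial

theorem BA58_pm_213 {κ x : ℝ} (hκ : κ * h0 = ken x) (hx : ((649613803 : ℕ) : ℝ) / S ≤ x) (hx' : x ≤ (((649613803 : ℕ) : ℝ) + (48318383 : ℕ)) / S) :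
    TriA PP.cur (VE (h0 * 0) 3 κ (h0 * x) (eng.v x) (h0 * (3 / 40)) (tnt (h0 * x) (3 / 10)) (tbl tK x) (tbl tL x) (tbl (smT h0⁻¹ tC) x)) 2 1 3 5 8 1 (-1) :=
  (sideB hx hx').bothA (thrB hx hx') (en_pos (hx1 hx).le) (Or.inl rfl) (Or.inr rfl) fun y y' F =>
    bothA_cert (s1 := true) (s2 := false) rfl hκ (en_pos (hx1 hx).le) (esg_rng (hx1 hx).le (hx2 hx').le).1 (mo_v x) covB52 covB81 hx hx'
        Pool.Agent.Strip051.G.I6050_6500.Tab.C.BA58.c_pm_213 noCut_EA noExt_EA F trivial trivial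

theorem BA58_pm_303 {κ x : ℝ} (hκ : κ * h0 = ken x) (hx : ((649613803 : ℕ) : ℝ) / S ≤ x) (hx' : x ≤ (((649613803 : ℕ) : ℝ) + (48318383 : ℕ)) / S) :
    TriA PP.cur (VE (h0 * 0) 3 κ (h0 * x) (eng.v x) (h0 * (3 / 40)) (tnt (h0 * x) (3 / 10)) (tbl tK x) (tbl tL x) (tbl (smT h0⁻¹ tC) x)) 3 0 3 5 8 1 (-1) :=
  (sideB hx hx').bothA (thrB hx hx') (en_pos (hx1 hx).le) (Or.inl rfl) (Or.inr rfl) fun y y' F =>
    bothA_cert (s1 := true) (s2 := false) rfl hκ (en_pos (hx1 hx).le) (esg_rng (hx1 hx).le (hx2 hx').le).1 (mo_v x) covB53 covB80 hx hx'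
        Pool.Agent.Strip051.G.I6050_6500.Tab.C.BA58.c_pm_303 noCut_EA noExt_EA F trivial trivial

theorem BA58_pm_313 {κ x : ℝ} (hκ : κ * h0 = ken x) (hx : ((649613803 : ℕ) : ℝ) / S ≤ x) (hx' : x ≤ (((649613803 : ℕ) : ℝ) + (48318383 : ℕ)) / S) :
    TriA PP.cur (VE (h0 * 0) 3 κ (h0 * x) (eng.v x) (h0 * (3 / 40)) (tnt (h0 * x) (3 / 10)) (tbl tK x) (tbl tL x) (tbl (smT h0⁻¹ tC) x)) 3 1 3 5 8 1 (-1) :=
  (sideB hx hx').bothA (thrB hx hx') (en_pos (hx1 hx).le) (Or.inl rfl) (Or.inr rfl) fun y y' F =>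
    bothA_cert (s1 := true) (s2 := false) rfl hκ (en_pos (hx1 hx).le) (esg_rng (hx1 hx).le (hx2 hx').le).1 (mo_v x) covB53 covB81 hx hx'
        Pool.Agent.Strip051.G.I6050_6500.Tab.C.BA58.c_pm_313 noCut_EA noExt_EA F trivial trivial

theorem BA58_mm_001 {κ x : ℝ} (hκ : κ * h0 = ken x) (hx : ((649613803 : ℕ) : ℝ) / S ≤ x) (hx' : x ≤ (((649613803 : ℕ) : ℝ) + (48318383 : ℕ)) / S) :
    TriA PP.cur (VE (h0 * 0) 3 κ (h0 * x) (eng.v x) (h0 * (3 / 40)) (tnt (h0 * x) (3 / 10)) (tbl tK x) (tbl tL x) (tbl (smT h0⁻¹ tC) x)) 0 0 1 5 8 (-1) (-1) :=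
  (sideB hx hx').bothA (thrB hx hx') (en_pos (hx1 hx).le) (Or.inr rfl) (Or.inr rfl) fun y y' F =>
    bothA_cert (s1 := false) (s2 := false) rfl hκ (en_pos (hx1 hx).le) (esg_rng (hx1 hx).le (hx2 hx').le).1 (mo_v x) covB50 covB80 hx hx'
        Pool.Agent.Strip051.G.I6050_6500.Tab.C.BA58.c_mm_001 noCut_EA noExt_EA F trivial trivial

theorem BA58_mm_011 {κ x : ℝ} (hκ : κ * h0 = ken x) (hx : ((649613803 : ℕ) : ℝ) / S ≤ x) (hx' : x ≤ (((649613803 : ℕ) : ℝ) + (48318383 : ℕ)) / S) :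
    TriA PP.cur (VE (h0 * 0) 3 κ (h0 * x) (eng.v x) (h0 * (3 / 40)) (tnt (h0 * x) (3 / 10)) (tbl tK x) (tbl tL x) (tbl (smT h0⁻¹ tC) x)) 0 1 1 5 8 (-1) (-1) :=
  (sideB hx hx').bothA (thrB hx hx') (en_pos (hx1 hx).le) (Or.inr rfl) (Or.inr rfl) fun y y' F =>
    bothA_cert (s1 := false) (s2 := false) rfl hκ (en_pos (hx1 hx).le) (esg_rng (hx1 hx).le (hx2 hx').le).1 (mo_v x) covB50 covB81 hx hx'
        Pool.Agent.Strip051.G.I6050_6500.Tab.C.BA58.c_mm_011 noCut_EA noExt_EA F trivial trivial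

theorem BA58_mm_012 {κ x : ℝ} (hκ : κ * h0 = ken x) (hx : ((649613803 : ℕ) : ℝ) / S ≤ x) (hx' : x ≤ (((649613803 : ℕ) : ℝ) + (48318383 : ℕ)) / S) :
    TriA PP.cur (VE (h0 * 0) 3 κ (h0 * x) (eng.v x) (h0 * (3 / 40)) (tnt (h0 * x) (3 / 10)) (tbl tK x) (tbl tL x) (tbl (smT h0⁻¹ tC) x)) 0 1 2 5 8 (-1) (-1) :=
  (sideB hx hx').bothA (thrB hx hx') (en_pos (hx1 hx).le) (Or.inr rfl) (Or.inr rfl) fun y y' F =>
    bothA_cert (s1 := false) (s2 := false) rfl hκ (en_pos (hx1 hx).le) (esg_rng (hx1 hx).le (hx2 hx').le).1 (mo_v x) covB50 covB81 hx hx'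
        Pool.Agent.Strip051.G.I6050_6500.Tab.C.BA58.c_mm_012 noCut_EA noExt_EA F trivial trivial

theorem BA58_mm_022 {κ x : ℝ} (hκ : κ * h0 = ken x) (hx : ((649613803 : ℕ) : ℝ) / S ≤ x) (hx' : x ≤ (((649613803 : ℕ) : ℝ) + (48318383 : ℕ)) / S) :
    TriA PP.cur (VE (h0 * 0) 3 κ (h0 * x) (eng.v x) (h0 * (3 / 40)) (tnt (h0 * x) (3 / 10)) (tbl tK x) (tbl tL x) (tbl (smT h0⁻¹ tC) x)) 0 2 2 5 8 (-1) (-1) :=
  (sideB hx hx').bothA (thrB hx hx') (en_pos (hx1 hx).le) (Or.inr rfl) (Or.inr rfl) fun y y' F =>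
    bothA_cert (s1 := false) (s2 := false) rfl hκ (en_pos (hx1 hx).le) (esg_rng (hx1 hx).le (hx2 hx').le).1 (mo_v x) covB50 covB82 hx hx'
        Pool.Agent.Strip051.G.I6050_6500.Tab.C.BA58.c_mm_022 noCut_EA noExt_EA F trivial trivial

theorem BA58_mm_023 {κ x : ℝ} (hκ : κ * h0 = ken x) (hx : ((649613803 : ℕ) : ℝ) / S ≤ x) (hx' : x ≤ (((649613803 : ℕ) : ℝ) + (48318383 : ℕ)) / S) :
    TriA PP.cur (VE (h0 * 0) 3 κ (h0 * x) (eng.v x) (h0 * (3 / 40)) (tnt (h0 * x) (3 / 10)) (tbl tK x) (tbl tL x) (tbl (smT h0⁻¹ tC) x)) 0 2 3 5 8 (-1) (-1) :=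
  (sideB hx hx').bothA (thrB hx hx') (en_pos (hx1 hx).le) (Or.inr rfl) (Or.inr rfl) fun y y' F =>
    bothA_cert (s1 := false) (s2 := false) rfl hκ (en_pos (hx1 hx).le) (esg_rng (hx1 hx).le (hx2 hx').le).1 (mo_v x) covB50 covB82 hx hx'
        Pool.Agent.Strip051.G.I6050_6500.Tab.C.BA58.c_mm_023 noCut_EA noExt_EA F trivial trivial

theorem BA58_mm_033 {κ x : ℝ} (hκ : κ * h0 = ken x) (hx : ((649613803 : ℕ) : ℝ) / S ≤ x) (hx' : x ≤ (((649613803 : ℕ) : ℝ) + (48318383 : ℕ)) / S) :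
    TriA PP.cur (VE (h0 * 0) 3 κ (h0 * x) (eng.v x) (h0 * (3 / 40)) (tnt (h0 * x) (3 / 10)) (tbl tK x) (tbl tL x) (tbl (smT h0⁻¹ tC) x)) 0 3 3 5 8 (-1) (-1) :=
  (sideB hx hx').bothA (thrB hx hx') (en_pos (hx1 hx).le) (Or.inr rfl) (Or.inr rfl) fun y y' F =>
    bothA_cert (s1 := false) (s2 := false) rfl hκ (en_pos (hx1 hx).le) (esg_rng (hx1 hx).le (hx2 hx').le).1 (mo_v x) covB50 covB83 hx hx'
        Pool.Agent.Strip051.G.I6050_6500.Tab.C.BA58.c_mm_033 noCut_EA noExt_EA F trivial trivial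

theorem BA58_mm_101 {κ x : ℝ} (hκ : κ * h0 = ken x) (hx : ((649613803 : ℕ) : ℝ) / S ≤ x) (hx' : x ≤ (((649613803 : ℕ) : ℝ) + (48318383 : ℕ)) / S) :
    TriA PP.cur (VE (h0 * 0) 3 κ (h0 * x) (eng.v x) (h0 * (3 / 40)) (tnt (h0 * x) (3 / 10)) (tbl tK x) (tbl tL x) (tbl (smT h0⁻¹ tC) x)) 1 0 1 5 8 (-1) (-1) :=
  (sideB hx hx').bothA (thrB hx hx') (en_pos (hx1 hx).le) (Or.inr rfl) (Or.inr rfl) fun y y' F =>
    bothA_cert (s1 := false) (s2 := false) rfl hκ (en_pos (hx1 hx).le) (esg_rng (hx1 hx).le (hx2 hx').le).1 (mo_v x) covB51 covB80 hx hx'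
        Pool.Agent.Strip051.G.I6050_6500.Tab.C.BA58.c_mm_101 noCut_EA noExt_EA F trivial trivial

theorem BA58_mm_102 {κ x : ℝ} (hκ : κ * h0 = ken x) (hx : ((649613803 : ℕ) : ℝ) / S ≤ x) (hx' : x ≤ (((649613803 : ℕ) : ℝ) + (48318383 : ℕ)) / S) :
    TriA PP.cur (VE (h0 * 0) 3 κ (h0 * x) (eng.v x) (h0 * (3 / 40)) (tnt (h0 * x) (3 / 10)) (tbl tK x) (tbl tL x) (tbl (smT h0⁻¹ tC) x)) 1 0 2 5 8 (-1) (-1) :=
  (sideB hx hx').bothA (thrB hx hx') (en_pos (hx1 hx).le) (Or.inr rfl) (Or.inr rfl) fun y y' F =>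
    bothA_cert (s1 := false) (s2 := false) rfl hκ (en_pos (hx1 hx).le) (esg_rng (hx1 hx).le (hx2 hx').le).1 (mo_v x) covB51 covB80 hx hx'
        Pool.Agent.Strip051.G.I6050_6500.Tab.C.BA58.c_mm_102 noCut_EA noExt_EA F trivial trivial

theorem BA58_mm_112 {κ x : ℝ} (hκ : κ * h0 = ken x) (hx : ((649613803 : ℕ) : ℝ) / S ≤ x) (hx' : x ≤ (((649613803 : ℕ) : ℝ) + (48318383 : ℕ)) / S) :
    TriA PP.cur (VE (h0 * 0) 3 κ (h0 * x) (eng.v x) (h0 * (3 / 40)) (tnt (h0 * x) (3 / 10)) (tbl tK x) (tbl tL x) (tbl (smT h0⁻¹ tC) x)) 1 1 2 5 8 (-1) (-1) :=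
  (sideB hx hx').bothA (thrB hx hx') (en_pos (hx1 hx).le) (Or.inr rfl) (Or.inr rfl) fun y y' F =>
    bothA_cert (s1 := false) (s2 := false) rfl hκ (en_pos (hx1 hx).le) (esg_rng (hx1 hx).le (hx2 hx').le).1 (mo_v x) covB51 covB81 hx hx'
        Pool.Agent.Strip051.G.I6050_6500.Tab.C.BA58.c_mm_112 noCut_EA noExt_EA F trivial trivial

theorem BA58_mm_113 {κ x : ℝ} (hκ : κ * h0 = ken x) (hx : ((649613803 : ℕ) : ℝ) / S ≤ x) (hx' : x ≤ (((649613803 : ℕ) : ℝ) + (48318383 : ℕ)) / S) :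
    TriA PP.cur (VE (h0 * 0) 3 κ (h0 * x) (eng.v x) (h0 * (3 / 40)) (tnt (h0 * x) (3 / 10)) (tbl tK x) (tbl tL x) (tbl (smT h0⁻¹ tC) x)) 1 1 3 5 8 (-1) (-1) :=
  (sideB hx hx').bothA (thrB hx hx') (en_pos (hx1 hx).le) (Or.inr rfl) (Or.inr rfl) fun y y' F =>
    bothA_cert (s1 := false) (s2 := false) rfl hκ (en_pos (hx1 hx).le) (esg_rng (hx1 hx).le (hx2 hx').le).1 (mo_v x) covB51 covB81 hx hx'
        Pool.Agent.Strip051.G.I6050_6500.Tab.C.BA58.c_mm_113 noCut_EA noExt_EA F trivial trivial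

theorem BA58_mm_123 {κ x : ℝ} (hκ : κ * h0 = ken x) (hx : ((649613803 : ℕ) : ℝ) / S ≤ x) (hx' : x ≤ (((649613803 : ℕ) : ℝ) + (48318383 : ℕ)) / S) :
    TriA PP.cur (VE (h0 * 0) 3 κ (h0 * x) (eng.v x) (h0 * (3 / 40)) (tnt (h0 * x) (3 / 10)) (tbl tK x) (tbl tL x) (tbl (smT h0⁻¹ tC) x)) 1 2 3 5 8 (-1) (-1) :=
  (sideB hx hx').bothA (thrB hx hx') (en_pos (hx1 hx).le) (Or.inr rfl) (Or.inr rfl) fun y y' F =>
    bothA_cert (s1 := false) (s2 := false) rfl hκ (en_pos (hx1 hx).le) (esg_rng (hx1 hx).le (hx2 hx').le).1 (mo_v x) covB51 covB82 hx hx'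
        Pool.Agent.Strip051.G.I6050_6500.Tab.C.BA58.c_mm_123 noCut_EA noExt_EA F trivial trivial

theorem BA58_mm_133 {κ x : ℝ} (hκ : κ * h0 = ken x) (hx : ((649613803 : ℕ) : ℝ) / S ≤ x) (hx' : x ≤ (((649613803 : ℕ) : ℝ) + (48318383 : ℕ)) / S) :
    TriA PP.cur (VE (h0 * 0) 3 κ (h0 * x) (eng.v x) (h0 * (3 / 40)) (tnt (h0 * x) (3 / 10)) (tbl tK x) (tbl tL x) (tbl (smT h0⁻¹ tC) x)) 1 3 3 5 8 (-1) (-1) :=
  (sideB hx hx').bothA (thrB hx hx') (en_pos (hx1 hx).le) (Or.inr rfl) (Or.inr rfl) fun y y' F =>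
    bothA_cert (s1 := false) (s2 := false) rfl hκ (en_pos (hx1 hx).le) (esg_rng (hx1 hx).le (hx2 hx').le).1 (mo_v x) covB51 covB83 hx hx'
        Pool.Agent.Strip051.G.I6050_6500.Tab.C.BA58.c_mm_133 noCut_EA noExt_EA F trivial trivial

theorem BA58_mm_202 {κ x : ℝ} (hκ : κ * h0 = ken x) (hx : ((649613803 : ℕ) : ℝ) / S ≤ x) (hx' : x ≤ (((649613803 : ℕ) : ℝ) + (48318383 : ℕ)) / S) :
    TriA PP.cur (VE (h0 * 0) 3 κ (h0 * x) (eng.v x) (h0 * (3 / 40)) (tnt (h0 * x) (3 / 10)) (tbl tK x) (tbl tL x) (tbl (smT h0⁻¹ tC) x)) 2 0 2 5 8 (-1) (-1) :=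
  (sideB hx hx').bothA (thrB hx hx') (en_pos (hx1 hx).le) (Or.inr rfl) (Or.inr rfl) fun y y' F =>
    bothA_cert (s1 := false) (s2 := false) rfl hκ (en_pos (hx1 hx).le) (esg_rng (hx1 hx).le (hx2 hx').le).1 (mo_v x) covB52 covB80 hx hx'
        Pool.Agent.Strip051.G.I6050_6500.Tab.C.BA58.c_mm_202 noCut_EA noExt_EA F trivial trivial

theorem BA58_mm_203 {κ x : ℝ} (hκ : κ * h0 = ken x) (hx : ((649613803 : ℕ) : ℝ) / S ≤ x) (hx' : x ≤ (((649613803 : ℕ) : ℝ) + (48318383 : ℕ)) / S) :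
    TriA PP.cur (VE (h0 * 0) 3 κ (h0 * x) (eng.v x) (h0 * (3 / 40)) (tnt (h0 * x) (3 / 10)) (tbl tK x) (tbl tL x) (tbl (smT h0⁻¹ tC) x)) 2 0 3 5 8 (-1) (-1) :=
  (sideB hx hx').bothA (thrB hx hx') (en_pos (hx1 hx).le) (Or.inr rfl) (Or.inr rfl) fun y y' F =>
    bothA_cert (s1 := false) (s2 := false) rfl hκ (en_pos (hx1 hx).le) (esg_rng (hx1 hx).le (hx2 hx').le).1 (mo_v x) covB52 covB80 hx hx'
        Pool.Agent.Strip051.G.I6050_6500.Tab.C.BA58.c_mm_203 noCut_EA noExt_EA F trivial trivial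

theorem BA58_mm_213 {κ x : ℝ} (hκ : κ * h0 = ken x) (hx : ((649613803 : ℕ) : ℝ) / S ≤ x) (hx' : x ≤ (((649613803 : ℕ) : ℝ) + (48318383 : ℕ)) / S) :
    TriA PP.cur (VE (h0 * 0) 3 κ (h0 * x) (eng.v x) (h0 * (3 / 40)) (tnt (h0 * x) (3 / 10)) (tbl tK x) (tbl tL x) (tbl (smT h0⁻¹ tC) x)) 2 1 3 5 8 (-1) (-1) :=
  (sideB hx hx').bothA (thrB hx hx') (en_pos (hx1 hx).le) (Or.inr rfl) (Or.inr rfl) fun y y' F =>
    bothA_cert (s1 := false) (s2 := false) rfl hκ (en_pos (hx1 hx).le) (esg_rng (hx1 hx).le (hx2 hx').le).1 (mo_v x) covB52 covB81 hx hx'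
        Pool.Agent.Strip051.G.I6050_6500.Tab.C.BA58.c_mm_213 noCut_EA noExt_EA F trivial trivial

theorem BA58_mm_303 {κ x : ℝ} (hκ : κ * h0 = ken x) (hx : ((649613803 : ℕ) : ℝ) / S ≤ x) (hx' : x ≤ (((649613803 : ℕ) : ℝ) + (48318383 : ℕ)) / S) :
    TriA PP.cur (VE (h0 * 0) 3 κ (h0 * x) (eng.v x) (h0 * (3 / 40)) (tnt (h0 * x) (3 / 10)) (tbl tK x) (tbl tL x) (tbl (smT h0⁻¹ tC) x)) 3 0 3 5 8 (-1) (-1) :=
  (sideB hx hx').bothA (thrB hx hx') (en_pos (hx1 hx).le) (Or.inr rfl) (Or.inr rfl) fun y y' F =>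
    bothA_cert (s1 := false) (s2 := false) rfl hκ (en_pos (hx1 hx).le) (esg_rng (hx1 hx).le (hx2 hx').le).1 (mo_v x) covB53 covB80 hx hx'
        Pool.Agent.Strip051.G.I6050_6500.Tab.C.BA58.c_mm_303 noCut_EA noExt_EA F trivial trivial

theorem BA58_mm_313 {κ x : ℝ} (hκ : κ * h0 = ken x) (hx : ((649613803 : ℕ) : ℝ) / S ≤ x) (hx' : x ≤ (((649613803 : ℕ) : ℝ) + (48318383 : ℕ)) / S) :
    TriA PP.cur (VE (h0 * 0) 3 κ (h0 * x) (eng.v x) (h0 * (3 / 40)) (tnt (h0 * x) (3 / 10)) (tbl tK x) (tbl tL x) (tbl (smT h0⁻¹ tC) x)) 3 1 3 5 8 (-1) (-1) :=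
  (sideB hx hx').bothA (thrB hx hx') (en_pos (hx1 hx).le) (Or.inr rfl) (Or.inr rfl) fun y y' F =>
    bothA_cert (s1 := false) (s2 := false) rfl hκ (en_pos (hx1 hx).le) (esg_rng (hx1 hx).le (hx2 hx').le).1 (mo_v x) covB53 covB81 hx hx'
        Pool.Agent.Strip051.G.I6050_6500.Tab.C.BA58.c_mm_313 noCut_EA noExt_EA F trivial trivial

theorem BA58 {κ x : ℝ} (hκ : κ * h0 = ken x) (hx : ((649613803 : ℕ) : ℝ) / S ≤ x) (hx' : x ≤ (((649613803 : ℕ) : ℝ) + (48318383 : ℕ)) / S) : AllTA PP.cur (VE (h0 * 0) 3 κ (h0 * x) (eng.v x) (h0 * (3 / 40)) (tnt (h0 * x) (3 / 10)) (tbl tK x) (tbl tL x) (tbl (smT h0⁻¹ tC) x)) 5 8 where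
  pp := all17 (Q := fun a b c => TriA PP.cur (VE (h0 * 0) 3 κ (h0 * x) (eng.v x) (h0 * (3 / 40)) (tnt (h0 * x) (3 / 10)) (tbl tK x) (tbl tL x) (tbl (smT h0⁻¹ tC) x)) a b c 5 8 1 1)
    (BA58_pp_001 hκ hx hx') (BA58_pp_011 hκ hx hx') (BA58_pp_012 hκ hx hx') (BA58_pp_022 hκ hx hx') (BA58_pp_023 hκ hx hx') (BA58_pp_033 hκ hx hx') (BA58_pp_101 hκ hx hx') (BA58_pp_102 hκ hx hx') (BA58_pp_112 hκ hx hx') (BA58_pp_113 hκ hx hx') (BA58_pp_123 hκ hx hx') (BA58_pp_133 hκ hx hx') (BA58_pp_202 hκ hx hx') (BA58_pp_203 hκ hx hx') (BA58_pp_213 hκ hx hx') (BA58_pp_303 hκ hx hx') (BA58_pp_313 hκ hx hx')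
  pm := all17 (Q := fun a b c => TriA PP.cur (VE (h0 * 0) 3 κ (h0 * x) (eng.v x) (h0 * (3 / 40)) (tnt (h0 * x) (3 / 10)) (tbl tK x) (tbl tL x) (tbl (smT h0⁻¹ tC) x)) a b c 5 8 1 (-1))
    (BA58_pm_001 hκ hx hx') (BA58_pm_011 hκ hx hx') (BA58_pm_012 hκ hx hx') (BA58_pm_022 hκ hx hx') (BA58_pm_023 hκ hx hx') (BA58_pm_033 hκ hx hx') (BA58_pm_101 hκ hx hx') (BA58_pm_102 hκ hx hx') (BA58_pm_112 hκ hx hx') (BA58_pm_113 hκ hx hx') (BA58_pm_123 hκ hx hx') (BA58_pm_133 hκ hx hx') (BA58_pm_202 hκ hx hx') (BA58_pm_203 hκ hx hx') (BA58_pm_213 hκ hx hx') (BA58_pm_303 hκ hx hx') (BA58_pm_313 hκ hx hx')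
  mm := all17 (Q := fun a b c => TriA PP.cur (VE (h0 * 0) 3 κ (h0 * x) (eng.v x) (h0 * (3 / 40)) (tnt (h0 * x) (3 / 10)) (tbl tK x) (tbl tL x) (tbl (smT h0⁻¹ tC) x)) a b c 5 8 (-1) (-1))
    (BA58_mm_001 hκ hx hx') (BA58_mm_011 hκ hx hx') (BA58_mm_012 hκ hx hx') (BA58_mm_022 hκ hx hx') (BA58_mm_023 hκ hx hx') (BA58_mm_033 hκ hx hx') (BA58_mm_101 hκ hx hx') (BA58_mm_102 hκ hx hx') (BA58_mm_112 hκ hx hx') (BA58_mm_113 hκ hx hx') (BA58_mm_123 hκ hx hx') (BA58_mm_133 hκ hx hx') (BA58_mm_202 hκ hx hx') (BA58_mm_203 hκ hx hx') (BA58_mm_213 hκ hx hx') (BA58_mm_303 hκ hx hx') (BA58_mm_313 hκ hx hx')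

theorem BA66_pp_001 {κ x : ℝ} (hκ : κ * h0 = ken x) (hx : ((649613803 : ℕ) : ℝ) / S ≤ x) (hx' : x ≤ (((649613803 : ℕ) : ℝ) + (48318383 : ℕ)) / S) :
    TriA PP.cur (VE (h0 * 0) 3 κ (h0 * x) (eng.v x) (h0 * (3 / 40)) (tnt (h0 * x) (3 / 10)) (tbl tK x) (tbl tL x) (tbl (smT h0⁻¹ tC) x)) 0 0 1 6 6 1 1 :=
  (sideB hx hx').bothA (thrB hx hx') (en_pos (hx1 hx).le) (Or.inl rfl) (Or.inl rfl) fun y y' F =>
    bothA_cert (s1 := true) (s2 := true) rfl hκ (en_pos (hx1 hx).le) (esg_rng (hx1 hx).le (hx2 hx').le).1 (mo_v x) covB60 covB60 hx hx'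
        Pool.Agent.Strip051.G.I6050_6500.Tab.C.BA66.c_pp_001 noCut_EA noExt_EA F trivial trivial

theorem BA66_pp_011 {κ x : ℝ} (hκ : κ * h0 = ken x) (hx : ((649613803 : ℕ) : ℝ) / S ≤ x) (hx' : x ≤ (((649613803 : ℕ) : ℝ) + (48318383 : ℕ)) / S) :
    TriA PP.cur (VE (h0 * 0) 3 κ (h0 * x) (eng.v x) (h0 * (3 / 40)) (tnt (h0 * x) (3 / 10)) (tbl tK x) (tbl tL x) (tbl (smT h0⁻¹ tC) x)) 0 1 1 6 6 1 1 :=
  (sideB hx hx').bothA (thrB hx hx') (en_pos (hx1 hx).le) (Or.inl rfl) (Or.inl rfl) fun y y' F =>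
    bothA_cert (s1 := true) (s2 := true) rfl hκ (en_pos (hx1 hx).le) (esg_rng (hx1 hx).le (hx2 hx').le).1 (mo_v x) covB60 covB61 hx hx'
        Pool.Agent.Strip051.G.I6050_6500.Tab.C.BA66.c_pp_011 noCut_EA noExt_EA F trivial trivial

theorem BA66_pp_012 {κ x : ℝ} (hκ : κ * h0 = ken x) (hx : ((649613803 : ℕ) : ℝ) / S ≤ x) (hx' : x ≤ (((649613803 : ℕ) : ℝ) + (48318383 : ℕ)) / S) :
    TriA PP.cur (VE (h0 * 0) 3 κ (h0 * x) (eng.v x) (h0 * (3 / 40)) (tnt (h0 * x) (3 / 10)) (tbl tK x) (tbl tL x) (tbl (smT h0⁻¹ tC) x)) 0 1 2 6 6 1 1 :=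
  (sideB hx hx').bothA (thrB hx hx') (en_pos (hx1 hx).le) (Or.inl rfl) (Or.inl rfl) fun y y' F =>
    bothA_cert (s1 := true) (s2 := true) rfl hκ (en_pos (hx1 hx).le) (esg_rng (hx1 hx).le (hx2 hx').le).1 (mo_v x) covB60 covB61 hx hx'
        Pool.Agent.Strip051.G.I6050_6500.Tab.C.BA66.c_pp_012 noCut_EA noExt_EA F trivial trivial

theorem BA66_pp_022 {κ x : ℝ} (hκ : κ * h0 = ken x) (hx : ((649613803 : ℕ) : ℝ) / S ≤ x) (hx' : x ≤ (((649613803 : ℕ) : ℝ) + (48318383 : ℕ)) / S) :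
    TriA PP.cur (VE (h0 * 0) 3 κ (h0 * x) (eng.v x) (h0 * (3 / 40)) (tnt (h0 * x) (3 / 10)) (tbl tK x) (tbl tL x) (tbl (smT h0⁻¹ tC) x)) 0 2 2 6 6 1 1 :=
  (sideB hx hx').bothA (thrB hx hx') (en_pos (hx1 hx).le) (Or.inl rfl) (Or.inl rfl) fun y y' F =>
    bothA_cert (s1 := true) (s2 := true) rfl hκ (en_pos (hx1 hx).le) (esg_rng (hx1 hx).le (hx2 hx').le).1 (mo_v x) covB60 covB62 hx hx'
        Pool.Agent.Strip051.G.I6050_6500.Tab.C.BA66.c_pp_022 noCut_EA noExt_EA F trivial trivial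

theorem BA66_pp_023 {κ x : ℝ} (hκ : κ * h0 = ken x) (hx : ((649613803 : ℕ) : ℝ) / S ≤ x) (hx' : x ≤ (((649613803 : ℕ) : ℝ) + (48318383 : ℕ)) / S) :
    TriA PP.cur (VE (h0 * 0) 3 κ (h0 * x) (eng.v x) (h0 * (3 / 40)) (tnt (h0 * x) (3 / 10)) (tbl tK x) (tbl tL x) (tbl (smT h0⁻¹ tC) x)) 0 2 3 6 6 1 1 :=
  (sideB hx hx').bothA (thrB hx hx') (en_pos (hx1 hx).le) (Or.inl rfl) (Or.inl rfl) fun y y' F =>
    bothA_cert (s1 := true) (s2 := true) rfl hκ (en_pos (hx1 hx).le) (esg_rng (hx1 hx).le (hx2 hx').le).1 (mo_v x) covB60 covB62 hx hx'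
        Pool.Agent.Strip051.G.I6050_6500.Tab.C.BA66.c_pp_023 noCut_EA noExt_EA F trivial trivial

theorem BA66_pp_033 {κ x : ℝ} (hκ : κ * h0 = ken x) (hx : ((649613803 : ℕ) : ℝ) / S ≤ x) (hx' : x ≤ (((649613803 : ℕ) : ℝ) + (48318383 : ℕ)) / S) :
    TriA PP.cur (VE (h0 * 0) 3 κ (h0 * x) (eng.v x) (h0 * (3 / 40)) (tnt (h0 * x) (3 / 10)) (tbl tK x) (tbl tL x) (tbl (smT h0⁻¹ tC) x)) 0 3 3 6 6 1 1 :=
  (sideB hx hx').bothA (thrB hx hx') (en_pos (hx1 hx).le) (Or.inl rfl) (Or.inl rfl) fun y y' F =>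
    bothA_cert (s1 := true) (s2 := true) rfl hκ (en_pos (hx1 hx).le) (esg_rng (hx1 hx).le (hx2 hx').le).1 (mo_v x) covB60 covB63 hx hx'
        Pool.Agent.Strip051.G.I6050_6500.Tab.C.BA66.c_pp_033 noCut_EA noExt_EA F trivial trivial

theorem BA66_pp_101 {κ x : ℝ} (hκ : κ * h0 = ken x) (hx : ((649613803 : ℕ) : ℝ) / S ≤ x) (hx' : x ≤ (((649613803 : ℕ) : ℝ) + (48318383 : ℕ)) / S) :
    TriA PP.cur (VE (h0 * 0) 3 κ (h0 * x) (eng.v x) (h0 * (3 / 40)) (tnt (h0 * x) (3 / 10)) (tbl tK x) (tbl tL x) (tbl (smT h0⁻¹ tC) x)) 1 0 1 6 6 1 1 :=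
  (sideB hx hx').bothA (thrB hx hx') (en_pos (hx1 hx).le) (Or.inl rfl) (Or.inl rfl) fun y y' F =>
    bothA_cert (s1 := true) (s2 := true) rfl hκ (en_pos (hx1 hx).le) (esg_rng (hx1 hx).le (hx2 hx').le).1 (mo_v x) covB61 covB60 hx hx'
        Pool.Agent.Strip051.G.I6050_6500.Tab.C.BA66.c_pp_101 noCut_EA noExt_EA F trivial trivial

theorem BA66_pp_102 {κ x : ℝ} (hκ : κ * h0 = ken x) (hx : ((649613803 : ℕ) : ℝ) / S ≤ x) (hx' : x ≤ (((649613803 : ℕ) : ℝ) + (48318383 : ℕ)) / S) :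
    TriA PP.cur (VE (h0 * 0) 3 κ (h0 * x) (eng.v x) (h0 * (3 / 40)) (tnt (h0 * x) (3 / 10)) (tbl tK x) (tbl tL x) (tbl (smT h0⁻¹ tC) x)) 1 0 2 6 6 1 1 :=
  (sideB hx hx').bothA (thrB hx hx') (en_pos (hx1 hx).le) (Or.inl rfl) (Or.inl rfl) fun y y' F =>
    bothA_cert (s1 := true) (s2 := true) rfl hκ (en_pos (hx1 hx).le) (esg_rng (hx1 hx).le (hx2 hx').le).1 (mo_v x) covB61 covB60 hx hx'
        Pool.Agent.Strip051.G.I6050_6500.Tab.C.BA66.c_pp_102 noCut_EA noExt_EA F trivial trivial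

theorem BA66_pp_112 {κ x : ℝ} (hκ : κ * h0 = ken x) (hx : ((649613803 : ℕ) : ℝ) / S ≤ x) (hx' : x ≤ (((649613803 : ℕ) : ℝ) + (48318383 : ℕ)) / S) :
    TriA PP.cur (VE (h0 * 0) 3 κ (h0 * x) (eng.v x) (h0 * (3 / 40)) (tnt (h0 * x) (3 / 10)) (tbl tK x) (tbl tL x) (tbl (smT h0⁻¹ tC) x)) 1 1 2 6 6 1 1 :=
  (sideB hx hx').bothA (thrB hx hx') (en_pos (hx1 hx).le) (Or.inl rfl) (Or.inl rfl) fun y y' F =>
    bothA_cert (s1 := true) (s2 := true) rfl hκ (en_pos (hx1 hx).le) (esg_rng (hx1 hx).le (hx2 hx').le).1 (mo_v x) covB61 covB61 hx hx'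
        Pool.Agent.Strip051.G.I6050_6500.Tab.C.BA66.c_pp_112 noCut_EA noExt_EA F trivial trivial

theorem BA66_pp_113 {κ x : ℝ} (hκ : κ * h0 = ken x) (hx : ((649613803 : ℕ) : ℝ) / S ≤ x) (hx' : x ≤ (((649613803 : ℕ) : ℝ) + (48318383 : ℕ)) / S) :
    TriA PP.cur (VE (h0 * 0) 3 κ (h0 * x) (eng.v x) (h0 * (3 / 40)) (tnt (h0 * x) (3 / 10)) (tbl tK x) (tbl tL x) (tbl (smT h0⁻¹ tC) x)) 1 1 3 6 6 1 1 :=
  (sideB hx hx').bothA (thrB hx hx') (en_pos (hx1 hx).le) (Or.inl rfl) (Or.inl rfl) fun y y' F =>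
    bothA_cert (s1 := true) (s2 := true) rfl hκ (en_pos (hx1 hx).le) (esg_rng (hx1 hx).le (hx2 hx').le).1 (mo_v x) covB61 covB61 hx hx'
        Pool.Agent.Strip051.G.I6050_6500.Tab.C.BA66.c_pp_113 noCut_EA noExt_EA F trivial trivial

theorem BA66_pp_123 {κ x : ℝ} (hκ : κ * h0 = ken x) (hx : ((649613803 : ℕ) : ℝ) / S ≤ x) (hx' : x ≤ (((649613803 : ℕ) : ℝ) + (48318383 : ℕ)) / S) :
    TriA PP.cur (VE (h0 * 0) 3 κ (h0 * x) (eng.v x) (h0 * (3 / 40)) (tnt (h0 * x) (3 / 10)) (tbl tK x) (tbl tL x) (tbl (smT h0⁻¹ tC) x)) 1 2 3 6 6 1 1 :=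
  (sideB hx hx').bothA (thrB hx hx') (en_pos (hx1 hx).le) (Or.inl rfl) (Or.inl rfl) fun y y' F =>
    bothA_cert (s1 := true) (s2 := true) rfl hκ (en_pos (hx1 hx).le) (esg_rng (hx1 hx).le (hx2 hx').le).1 (mo_v x) covB61 covB62 hx hx'
        Pool.Agent.Strip051.G.I6050_6500.Tab.C.BA66.c_pp_123 noCut_EA noExt_EA F trivial trivial

theorem BA66_pp_133 {κ x : ℝ} (hκ : κ * h0 = ken x) (hx : ((649613803 : ℕ) : ℝ) / S ≤ x) (hx' : x ≤ (((649613803 : ℕ) : ℝ) + (48318383 : ℕ)) / S) :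
    TriA PP.cur (VE (h0 * 0) 3 κ (h0 * x) (eng.v x) (h0 * (3 / 40)) (tnt (h0 * x) (3 / 10)) (tbl tK x) (tbl tL x) (tbl (smT h0⁻¹ tC) x)) 1 3 3 6 6 1 1 :=
  (sideB hx hx').bothA (thrB hx hx') (en_pos (hx1 hx).le) (Or.inl rfl) (Or.inl rfl) fun y y' F =>
    bothA_cert (s1 := true) (s2 := true) rfl hκ (en_pos (hx1 hx).le) (esg_rng (hx1 hx).le (hx2 hx').le).1 (mo_v x) covB61 covB63 hx hx'
        Pool.Agent.Strip051.G.I6050_6500.Tab.C.BA66.c_pp_133 noCut_EA noExt_EA F trivial trivial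

theorem BA66_pp_202 {κ x : ℝ} (hκ : κ * h0 = ken x) (hx : ((649613803 : ℕ) : ℝ) / S ≤ x) (hx' : x ≤ (((649613803 : ℕ) : ℝ) + (48318383 : ℕ)) / S) :
    TriA PP.cur (VE (h0 * 0) 3 κ (h0 * x) (eng.v x) (h0 * (3 / 40)) (tnt (h0 * x) (3 / 10)) (tbl tK x) (tbl tL x) (tbl (smT h0⁻¹ tC) x)) 2 0 2 6 6 1 1 :=
  (sideB hx hx').bothA (thrB hx hx') (en_pos (hx1 hx).le) (Or.inl rfl) (Or.inl rfl) fun y y' F =>
    bothA_cert (s1 := true) (s2 := true) rfl hκ (en_pos (hx1 hx).le) (esg_rng (hx1 hx).le (hx2 hx').le).1 (mo_v x) covB62 covB60 hx hx'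
        Pool.Agent.Strip051.G.I6050_6500.Tab.C.BA66.c_pp_202 noCut_EA noExt_EA F trivial trivial

theorem BA66_pp_203 {κ x : ℝ} (hκ : κ * h0 = ken x) (hx : ((649613803 : ℕ) : ℝ) / S ≤ x) (hx' : x ≤ (((649613803 : ℕ) : ℝ) + (48318383 : ℕ)) / S) :
    TriA PP.cur (VE (h0 * 0) 3 κ (h0 * x) (eng.v x) (h0 * (3 / 40)) (tnt (h0 * x) (3 / 10)) (tbl tK x) (tbl tL x) (tbl (smT h0⁻¹ tC) x)) 2 0 3 6 6 1 1 :=
  (sideB hx hx').bothA (thrB hx hx') (en_pos (hx1 hx).le) (Or.inl rfl) (Or.inl rfl) fun y y' F =>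
    bothA_cert (s1 := true) (s2 := true) rfl hκ (en_pos (hx1 hx).le) (esg_rng (hx1 hx).le (hx2 hx').le).1 (mo_v x) covB62 covB60 hx hx'
        Pool.Agent.Strip051.G.I6050_6500.Tab.C.BA66.c_pp_203 noCut_EA noExt_EA F trivial trivial

theorem BA66_pp_213 {κ x : ℝ} (hκ : κ * h0 = ken x) (hx : ((649613803 : ℕ) : ℝ) / S ≤ x) (hx' : x ≤ (((649613803 : ℕ) : ℝ) + (48318383 : ℕ)) / S) :
    TriA PP.cur (VE (h0 * 0) 3 κ (h0 * x) (eng.v x) (h0 * (3 / 40)) (tnt (h0 * x) (3 / 10)) (tbl tK x) (tbl tL x) (tbl (smT h0⁻¹ tC) x)) 2 1 3 6 6 1 1 :=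
  (sideB hx hx').bothA (thrB hx hx') (en_pos (hx1 hx).le) (Or.inl rfl) (Or.inl rfl) fun y y' F =>
    bothA_cert (s1 := true) (s2 := true) rfl hκ (en_pos (hx1 hx).le) (esg_rng (hx1 hx).le (hx2 hx').le).1 (mo_v x) covB62 covB61 hx hx'
        Pool.Agent.Strip051.G.I6050_6500.Tab.C.BA66.c_pp_213 noCut_EA noExt_EA F trivial trivial

theorem BA66_pp_303 {κ x : ℝ} (hκ : κ * h0 = ken x) (hx : ((649613803 : ℕ) : ℝ) / S ≤ x) (hx' : x ≤ (((649613803 : ℕ) : ℝ) + (48318383 : ℕ)) / S) :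
    TriA PP.cur (VE (h0 * 0) 3 κ (h0 * x) (eng.v x) (h0 * (3 / 40)) (tnt (h0 * x) (3 / 10)) (tbl tK x) (tbl tL x) (tbl (smT h0⁻¹ tC) x)) 3 0 3 6 6 1 1 :=
  (sideB hx hx').bothA (thrB hx hx') (en_pos (hx1 hx).le) (Or.inl rfl) (Or.inl rfl) fun y y' F =>
    bothA_cert (s1 := true) (s2 := true) rfl hκ (en_pos (hx1 hx).le) (esg_rng (hx1 hx).le (hx2 hx').le).1 (mo_v x) covB63 covB60 hx hx'
        Pool.Agent.Strip051.G.I6050_6500.Tab.C.BA66.c_pp_303 noCut_EA noExt_EA F trivial trivial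

theorem BA66_pp_313 {κ x : ℝ} (hκ : κ * h0 = ken x) (hx : ((649613803 : ℕ) : ℝ) / S ≤ x) (hx' : x ≤ (((649613803 : ℕ) : ℝ) + (48318383 : ℕ)) / S) :
    TriA PP.cur (VE (h0 * 0) 3 κ (h0 * x) (eng.v x) (h0 * (3 / 40)) (tnt (h0 * x) (3 / 10)) (tbl tK x) (tbl tL x) (tbl (smT h0⁻¹ tC) x)) 3 1 3 6 6 1 1 :=
  (sideB hx hx').bothA (thrB hx hx') (en_pos (hx1 hx).le) (Or.inl rfl) (Or.inl rfl) fun y y' F =>
    bothA_cert (s1 := true) (s2 := true) rfl hκ (en_pos (hx1 hx).le) (esg_rng (hx1 hx).le (hx2 hx').le).1 (mo_v x) covB63 covB61 hx hx'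
        Pool.Agent.Strip051.G.I6050_6500.Tab.C.BA66.c_pp_313 noCut_EA noExt_EA F trivial trivial

theorem BA66_pm_001 {κ x : ℝ} (hκ : κ * h0 = ken x) (hx : ((649613803 : ℕ) : ℝ) / S ≤ x) (hx' : x ≤ (((649613803 : ℕ) : ℝ) + (48318383 : ℕ)) / S) :
    TriA PP.cur (VE (h0 * 0) 3 κ (h0 * x) (eng.v x) (h0 * (3 / 40)) (tnt (h0 * x) (3 / 10)) (tbl tK x) (tbl tL x) (tbl (smT h0⁻¹ tC) x)) 0 0 1 6 6 1 (-1) :=
  (sideB hx hx').bothA (thrB hx hx') (en_pos (hx1 hx).le) (Or.inl rfl) (Or.inr rfl) fun y y' F =>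
    bothA_cert (s1 := true) (s2 := false) rfl hκ (en_pos (hx1 hx).le) (esg_rng (hx1 hx).le (hx2 hx').le).1 (mo_v x) covB60 covB60 hx hx'
        Pool.Agent.Strip051.G.I6050_6500.Tab.C.BA66.c_pm_001 noCut_EA noExt_EA F trivial trivial

theorem BA66_pm_011 {κ x : ℝ} (hκ : κ * h0 = ken x) (hx : ((649613803 : ℕ) : ℝ) / S ≤ x) (hx' : x ≤ (((649613803 : ℕ) : ℝ) + (48318383 : ℕ)) / S) :
    TriA PP.cur (VE (h0 * 0) 3 κ (h0 * x) (eng.v x) (h0 * (3 / 40)) (tnt (h0 * x) (3 / 10)) (tbl tK x) (tbl tL x) (tbl (smT h0⁻¹ tC) x)) 0 1 1 6 6 1 (-1) :=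
  (sideB hx hx').bothA (thrB hx hx') (en_pos (hx1 hx).le) (Or.inl rfl) (Or.inr rfl) fun y y' F =>
    bothA_cert (s1 := true) (s2 := false) rfl hκ (en_pos (hx1 hx).le) (esg_rng (hx1 hx).le (hx2 hx').le).1 (mo_v x) covB60 covB61 hx hx'
        Pool.Agent.Strip051.G.I6050_6500.Tab.C.BA66.c_pm_011 noCut_EA noExt_EA F trivial trivial

theorem BA66_pm_012 {κ x : ℝ} (hκ : κ * h0 = ken x) (hx : ((649613803 : ℕ) : ℝ) / S ≤ x) (hx' : x ≤ (((649613803 : ℕ) : ℝ) + (48318383 : ℕ)) / S) :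
    TriA PP.cur (VE (h0 * 0) 3 κ (h0 * x) (eng.v x) (h0 * (3 / 40)) (tnt (h0 * x) (3 / 10)) (tbl tK x) (tbl tL x) (tbl (smT h0⁻¹ tC) x)) 0 1 2 6 6 1 (-1) :=
  (sideB hx hx').bothA (thrB hx hx') (en_pos (hx1 hx).le) (Or.inl rfl) (Or.inr rfl) fun y y' F =>
    bothA_cert (s1 := true) (s2 := false) rfl hκ (en_pos (hx1 hx).le) (esg_rng (hx1 hx).le (hx2 hx').le).1 (mo_v x) covB60 covB61 hx hx'
        Pool.Agent.Strip051.G.I6050_6500.Tab.C.BA66.c_pm_012 noCut_EA noExt_EA F trivial trivial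

theorem BA66_pm_022 {κ x : ℝ} (hκ : κ * h0 = ken x) (hx : ((649613803 : ℕ) : ℝ) / S ≤ x) (hx' : x ≤ (((649613803 : ℕ) : ℝ) + (48318383 : ℕ)) / S) :
    TriA PP.cur (VE (h0 * 0) 3 κ (h0 * x) (eng.v x) (h0 * (3 / 40)) (tnt (h0 * x) (3 / 10)) (tbl tK x) (tbl tL x) (tbl (smT h0⁻¹ tC) x)) 0 2 2 6 6 1 (-1) :=
  (sideB hx hx').bothA (thrB hx hx') (en_pos (hx1 hx).le) (Or.inl rfl) (Or.inr rfl) fun y y' F =>
    bothA_cert (s1 := true) (s2 := false) rfl hκ (en_pos (hx1 hx).le) (esg_rng (hx1 hx).le (hx2 hx').le).1 (mo_v x) covB60 covB62 hx hx'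
        Pool.Agent.Strip051.G.I6050_6500.Tab.C.BA66.c_pm_022 noCut_EA noExt_EA F trivial trivial

theorem BA66_pm_023 {κ x : ℝ} (hκ : κ * h0 = ken x) (hx : ((649613803 : ℕ) : ℝ) / S ≤ x) (hx' : x ≤ (((649613803 : ℕ) : ℝ) + (48318383 : ℕ)) / S) :
    TriA PP.cur (VE (h0 * 0) 3 κ (h0 * x) (eng.v x) (h0 * (3 / 40)) (tnt (h0 * x) (3 / 10)) (tbl tK x) (tbl tL x) (tbl (smT h0⁻¹ tC) x)) 0 2 3 6 6 1 (-1) :=
  (sideB hx hx').bothA (thrB hx hx') (en_pos (hx1 hx).le) (Or.inl rfl) (Or.inr rfl) fun y y' F =>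
    bothA_cert (s1 := true) (s2 := false) rfl hκ (en_pos (hx1 hx).le) (esg_rng (hx1 hx).le (hx2 hx').le).1 (mo_v x) covB60 covB62 hx hx'
        Pool.Agent.Strip051.G.I6050_6500.Tab.C.BA66.c_pm_023 noCut_EA noExt_EA F trivial trivial

theorem BA66_pm_033 {κ x : ℝ} (hκ : κ * h0 = ken x) (hx : ((649613803 : ℕ) : ℝ) / S ≤ x) (hx' : x ≤ (((649613803 : ℕ) : ℝ) + (48318383 : ℕ)) / S) :
    TriA PP.cur (VE (h0 * 0) 3 κ (h0 * x) (eng.v x) (h0 * (3 / 40)) (tnt (h0 * x) (3 / 10)) (tbl tK x) (tbl tL x) (tbl (smT h0⁻¹ tC) x)) 0 3 3 6 6 1 (-1) :=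
  (sideB hx hx').bothA (thrB hx hx') (en_pos (hx1 hx).le) (Or.inl rfl) (Or.inr rfl) fun y y' F =>
    bothA_cert (s1 := true) (s2 := false) rfl hκ (en_pos (hx1 hx).le) (esg_rng (hx1 hx).le (hx2 hx').le).1 (mo_v x) covB60 covB63 hx hx'
        Pool.Agent.Strip051.G.I6050_6500.Tab.C.BA66.c_pm_033 noCut_EA noExt_EA F trivial trivial

theorem BA66_pm_101 {κ x : ℝ} (hκ : κ * h0 = ken x) (hx : ((649613803 : ℕ) : ℝ) / S ≤ x) (hx' : x ≤ (((649613803 : ℕ) : ℝ) + (48318383 : ℕ)) / S) :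
    TriA PP.cur (VE (h0 * 0) 3 κ (h0 * x) (eng.v x) (h0 * (3 / 40)) (tnt (h0 * x) (3 / 10)) (tbl tK x) (tbl tL x) (tbl (smT h0⁻¹ tC) x)) 1 0 1 6 6 1 (-1) :=
  (sideB hx hx').bothA (thrB hx hx') (en_pos (hx1 hx).le) (Or.inl rfl) (Or.inr rfl) fun y y' F =>
    bothA_cert (s1 := true) (s2 := false) rfl hκ (en_pos (hx1 hx).le) (esg_rng (hx1 hx).le (hx2 hx').le).1 (mo_v x) covB61 covB60 hx hx'
        Pool.Agent.Strip051.G.I6050_6500.Tab.C.BA66.c_pm_101 noCut_EA noExt_EA F trivial trivial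

theorem BA66_pm_102 {κ x : ℝ} (hκ : κ * h0 = ken x) (hx : ((649613803 : ℕ) : ℝ) / S ≤ x) (hx' : x ≤ (((649613803 : ℕ) : ℝ) + (48318383 : ℕ)) / S) :
    TriA PP.cur (VE (h0 * 0) 3 κ (h0 * x) (eng.v x) (h0 * (3 / 40)) (tnt (h0 * x) (3 / 10)) (tbl tK x) (tbl tL x) (tbl (smT h0⁻¹ tC) x)) 1 0 2 6 6 1 (-1) :=
  (sideB hx hx').bothA (thrB hx hx') (en_pos (hx1 hx).le) (Or.inl rfl) (Or.inr rfl) fun y y' F =>
    bothA_cert (s1 := true) (s2 := false) rfl hκ (en_pos (hx1 hx).le) (esg_rng (hx1 hx).le (hx2 hx').le).1 (mo_v x) covB61 covB60 hx hx'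
        Pool.Agent.Strip051.G.I6050_6500.Tab.C.BA66.c_pm_102 noCut_EA noExt_EA F trivial trivial

theorem BA66_pm_112 {κ x : ℝ} (hκ : κ * h0 = ken x) (hx : ((649613803 : ℕ) : ℝ) / S ≤ x) (hx' : x ≤ (((649613803 : ℕ) : ℝ) + (48318383 : ℕ)) / S) :
    TriA PP.cur (VE (h0 * 0) 3 κ (h0 * x) (eng.v x) (h0 * (3 / 40)) (tnt (h0 * x) (3 / 10)) (tbl tK x) (tbl tL x) (tbl (smT h0⁻¹ tC) x)) 1 1 2 6 6 1 (-1) :=
  (sideB hx hx').bothA (thrB hx hx') (en_pos (hx1 hx).le) (Or.inl rfl) (Or.inr rfl) fun y y' F =>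
    bothA_cert (s1 := true) (s2 := false) rfl hκ (en_pos (hx1 hx).le) (esg_rng (hx1 hx).le (hx2 hx').le).1 (mo_v x) covB61 covB61 hx hx'
        Pool.Agent.Strip051.G.I6050_6500.Tab.C.BA66.c_pm_112 noCut_EA noExt_EA F trivial trivial

theorem BA66_pm_113 {κ x : ℝ} (hκ : κ * h0 = ken x) (hx : ((649613803 : ℕ) : ℝ) / S ≤ x) (hx' : x ≤ (((649613803 : ℕ) : ℝ) + (48318383 : ℕ)) / S) :
    TriA PP.cur (VE (h0 * 0) 3 κ (h0 * x) (eng.v x) (h0 * (3 / 40)) (tnt (h0 * x) (3 / 10)) (tbl tK x) (tbl tL x) (tbl (smT h0⁻¹ tC) x)) 1 1 3 6 6 1 (-1) :=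
  (sideB hx hx').bothA (thrB hx hx') (en_pos (hx1 hx).le) (Or.inl rfl) (Or.inr rfl) fun y y' F =>
    bothA_cert (s1 := true) (s2 := false) rfl hκ (en_pos (hx1 hx).le) (esg_rng (hx1 hx).le (hx2 hx').le).1 (mo_v x) covB61 covB61 hx hx'
        Pool.Agent.Strip051.G.I6050_6500.Tab.C.BA66.c_pm_113 noCut_EA noExt_EA F trivial trivial

theorem BA66_pm_123 {κ x : ℝ} (hκ : κ * h0 = ken x) (hx : ((649613803 : ℕ) : ℝ) / S ≤ x) (hx' : x ≤ (((649613803 : ℕ) : ℝ) + (48318383 : ℕ)) / S) :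
    TriA PP.cur (VE (h0 * 0) 3 κ (h0 * x) (eng.v x) (h0 * (3 / 40)) (tnt (h0 * x) (3 / 10)) (tbl tK x) (tbl tL x) (tbl (smT h0⁻¹ tC) x)) 1 2 3 6 6 1 (-1) :=
  (sideB hx hx').bothA (thrB hx hx') (en_pos (hx1 hx).le) (Or.inl rfl) (Or.inr rfl) fun y y' F =>
    bothA_cert (s1 := true) (s2 := false) rfl hκ (en_pos (hx1 hx).le) (esg_rng (hx1 hx).le (hx2 hx').le).1 (mo_v x) covB61 covB62 hx hx'
        Pool.Agent.Strip051.G.I6050_6500.Tab.C.BA66.c_pm_123 noCut_EA noExt_EA F trivial trivial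

theorem BA66_pm_133 {κ x : ℝ} (hκ : κ * h0 = ken x) (hx : ((649613803 : ℕ) : ℝ) / S ≤ x) (hx' : x ≤ (((649613803 : ℕ) : ℝ) + (48318383 : ℕ)) / S) :
    TriA PP.cur (VE (h0 * 0) 3 κ (h0 * x) (eng.v x) (h0 * (3 / 40)) (tnt (h0 * x) (3 / 10)) (tbl tK x) (tbl tL x) (tbl (smT h0⁻¹ tC) x)) 1 3 3 6 6 1 (-1) :=
  (sideB hx hx').bothA (thrB hx hx') (en_pos (hx1 hx).le) (Or.inl rfl) (Or.inr rfl) fun y y' F =>
    bothA_cert (s1 := true) (s2 := false) rfl hκ (en_pos (hx1 hx).le) (esg_rng (hx1 hx).le (hx2 hx').le).1 (mo_v x) covB61 covB63 hx hx'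
        Pool.Agent.Strip051.G.I6050_6500.Tab.C.BA66.c_pm_133 noCut_EA noExt_EA F trivial trivial

theorem BA66_pm_202 {κ x : ℝ} (hκ : κ * h0 = ken x) (hx : ((649613803 : ℕ) : ℝ) / S ≤ x) (hx' : x ≤ (((649613803 : ℕ) : ℝ) + (48318383 : ℕ)) / S) :
    TriA PP.cur (VE (h0 * 0) 3 κ (h0 * x) (eng.v x) (h0 * (3 / 40)) (tnt (h0 * x) (3 / 10)) (tbl tK x) (tbl tL x) (tbl (smT h0⁻¹ tC) x)) 2 0 2 6 6 1 (-1) :=
  (sideB hx hx').bothA (thrB hx hx') (en_pos (hx1 hx).le) (Or.inl rfl) (Or.inr rfl) fun y y' F =>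
    bothA_cert (s1 := true) (s2 := false) rfl hκ (en_pos (hx1 hx).le) (esg_rng (hx1 hx).le (hx2 hx').le).1 (mo_v x) covB62 covB60 hx hx'
        Pool.Agent.Strip051.G.I6050_6500.Tab.C.BA66.c_pm_202 noCut_EA noExt_EA F trivial trivial

theorem BA66_pm_203 {κ x : ℝ} (hκ : κ * h0 = ken x) (hx : ((649613803 : ℕ) : ℝ) / S ≤ x) (hx' : x ≤ (((649613803 : ℕ) : ℝ) + (48318383 : ℕ)) / S) :
    TriA PP.cur (VE (h0 * 0) 3 κ (h0 * x) (eng.v x) (h0 * (3 / 40)) (tnt (h0 * x) (3 / 10)) (tbl tK x) (tbl tL x) (tbl (smT h0⁻¹ tC) x)) 2 0 3 6 6 1 (-1) :=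
  (sideB hx hx').bothA (thrB hx hx') (en_pos (hx1 hx).le) (Or.inl rfl) (Or.inr rfl) fun y y' F =>
    bothA_cert (s1 := true) (s2 := false) rfl hκ (en_pos (hx1 hx).le) (esg_rng (hx1 hx).le (hx2 hx').le).1 (mo_v x) covB62 covB60 hx hx'
        Pool.Agent.Strip051.G.I6050_6500.Tab.C.BA66.c_pm_203 noCut_EA noExt_EA F trivial trivial

theorem BA66_pm_213 {κ x : ℝ} (hκ : κ * h0 = ken x) (hx : ((649613803 : ℕ) : ℝ) / S ≤ x) (hx' : x ≤ (((649613803 : ℕ) : ℝ) + (48318383 : ℕ)) / S) :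
    TriA PP.cur (VE (h0 * 0) 3 κ (h0 * x) (eng.v x) (h0 * (3 / 40)) (tnt (h0 * x) (3 / 10)) (tbl tK x) (tbl tL x) (tbl (smT h0⁻¹ tC) x)) 2 1 3 6 6 1 (-1) :=
  (sideB hx hx').bothA (thrB hx hx') (en_pos (hx1 hx).le) (Or.inl rfl) (Or.inr rfl) fun y y' F =>
    bothA_cert (s1 := true) (s2 := false) rfl hκ (en_pos (hx1 hx).le) (esg_rng (hx1 hx).le (hx2 hx').le).1 (mo_v x) covB62 covB61 hx hx'
        Pool.Agent.Strip051.G.I6050_6500.Tab.C.BA66.c_pm_213 noCut_EA noExt_EA F trivial trivial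

theorem BA66_pm_303 {κ x : ℝ} (hκ : κ * h0 = ken x) (hx : ((649613803 : ℕ) : ℝ) / S ≤ x) (hx' : x ≤ (((649613803 : ℕ) : ℝ) + (48318383 : ℕ)) / S) :
    TriA PP.cur (VE (h0 * 0) 3 κ (h0 * x) (eng.v x) (h0 * (3 / 40)) (tnt (h0 * x) (3 / 10)) (tbl tK x) (tbl tL x) (tbl (smT h0⁻¹ tC) x)) 3 0 3 6 6 1 (-1) :=
  (sideB hx hx').bothA (thrB hx hx') (en_pos (hx1 hx).le) (Or.inl rfl) (Or.inr rfl) fun y y' F =>
    bothA_cert (s1 := true) (s2 := false) rfl hκ (en_pos (hx1 hx).le) (esg_rng (hx1 hx).le (hx2 hx').le).1 (mo_v x) covB63 covB60 hx hx'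
        Pool.Agent.Strip051.G.I6050_6500.Tab.C.BA66.c_pm_303 noCut_EA noExt_EA F trivial trivial

theorem BA66_pm_313 {κ x : ℝ} (hκ : κ * h0 = ken x) (hx : ((649613803 : ℕ) : ℝ) / S ≤ x) (hx' : x ≤ (((649613803 : ℕ) : ℝ) + (48318383 : ℕ)) / S) :
    TriA PP.cur (VE (h0 * 0) 3 κ (h0 * x) (eng.v x) (h0 * (3 / 40)) (tnt (h0 * x) (3 / 10)) (tbl tK x) (tbl tL x) (tbl (smT h0⁻¹ tC) x)) 3 1 3 6 6 1 (-1) :=
  (sideB hx hx').bothA (thrB hx hx') (en_pos (hx1 hx).le) (Or.inl rfl) (Or.inr rfl) fun y y' F =>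
    bothA_cert (s1 := true) (s2 := false) rfl hκ (en_pos (hx1 hx).le) (esg_rng (hx1 hx).le (hx2 hx').le).1 (mo_v x) covB63 covB61 hx hx'
        Pool.Agent.Strip051.G.I6050_6500.Tab.C.BA66.c_pm_313 noCut_EA noExt_EA F trivial trivial

theorem BA66_mm_001 {κ x : ℝ} (hκ : κ * h0 = ken x) (hx : ((649613803 : ℕ) : ℝ) / S ≤ x) (hx' : x ≤ (((649613803 : ℕ) : ℝ) + (48318383 : ℕ)) / S) :
    TriA PP.cur (VE (h0 * 0) 3 κ (h0 * x) (eng.v x) (h0 * (3 / 40)) (tnt (h0 * x) (3 / 10)) (tbl tK x) (tbl tL x) (tbl (smT h0⁻¹ tC) x)) 0 0 1 6 6 (-1) (-1) :=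
  (sideB hx hx').bothA (thrB hx hx') (en_pos (hx1 hx).le) (Or.inr rfl) (Or.inr rfl) fun y y' F =>
    bothA_cert (s1 := false) (s2 := false) rfl hκ (en_pos (hx1 hx).le) (esg_rng (hx1 hx).le (hx2 hx').le).1 (mo_v x) covB60 covB60 hx hx'
        Pool.Agent.Strip051.G.I6050_6500.Tab.C.BA66.c_mm_001 noCut_EA noExt_EA F trivial trivial

theorem BA66_mm_011 {κ x : ℝ} (hκ : κ * h0 = ken x) (hx : ((649613803 : ℕ) : ℝ) / S ≤ x) (hx' : x ≤ (((649613803 : ℕ) : ℝ) + (48318383 : ℕ)) / S) :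
    TriA PP.cur (VE (h0 * 0) 3 κ (h0 * x) (eng.v x) (h0 * (3 / 40)) (tnt (h0 * x) (3 / 10)) (tbl tK x) (tbl tL x) (tbl (smT h0⁻¹ tC) x)) 0 1 1 6 6 (-1) (-1) :=
  (sideB hx hx').bothA (thrB hx hx') (en_pos (hx1 hx).le) (Or.inr rfl) (Or.inr rfl) fun y y' F =>
    bothA_cert (s1 := false) (s2 := false) rfl hκ (en_pos (hx1 hx).le) (esg_rng (hx1 hx).le (hx2 hx').le).1 (mo_v x) covB60 covB61 hx hx'
        Pool.Agent.Strip051.G.I6050_6500.Tab.C.BA66.c_mm_011 noCut_EA noExt_EA F trivial trivial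

theorem BA66_mm_012 {κ x : ℝ} (hκ : κ * h0 = ken x) (hx : ((649613803 : ℕ) : ℝ) / S ≤ x) (hx' : x ≤ (((649613803 : ℕ) : ℝ) + (48318383 : ℕ)) / S) :
    TriA PP.cur (VE (h0 * 0) 3 κ (h0 * x) (eng.v x) (h0 * (3 / 40)) (tnt (h0 * x) (3 / 10)) (tbl tK x) (tbl tL x) (tbl (smT h0⁻¹ tC) x)) 0 1 2 6 6 (-1) (-1) :=
  (sideB hx hx').bothA (thrB hx hx') (en_pos (hx1 hx).le) (Or.inr rfl) (Or.inr rfl) fun y y' F =>
    bothA_cert (s1 := false) (s2 := false) rfl hκ (en_pos (hx1 hx).le) (esg_rng (hx1 hx).le (hx2 hx').le).1 (mo_v x) covB60 covB61 hx hx'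
        Pool.Agent.Strip051.G.I6050_6500.Tab.C.BA66.c_mm_012 noCut_EA noExt_EA F trivial trivial

theorem BA66_mm_022 {κ x : ℝ} (hκ : κ * h0 = ken x) (hx : ((649613803 : ℕ) : ℝ) / S ≤ x) (hx' : x ≤ (((649613803 : ℕ) : ℝ) + (48318383 : ℕ)) / S) :
    TriA PP.cur (VE (h0 * 0) 3 κ (h0 * x) (eng.v x) (h0 * (3 / 40)) (tnt (h0 * x) (3 / 10)) (tbl tK x) (tbl tL x) (tbl (smT h0⁻¹ tC) x)) 0 2 2 6 6 (-1) (-1) :=
  (sideB hx hx').bothA (thrB hx hx') (en_pos (hx1 hx).le) (Or.inr rfl) (Or.inr rfl) fun y y' F =>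
    bothA_cert (s1 := false) (s2 := false) rfl hκ (en_pos (hx1 hx).le) (esg_rng (hx1 hx).le (hx2 hx').le).1 (mo_v x) covB60 covB62 hx hx'
        Pool.Agent.Strip051.G.I6050_6500.Tab.C.BA66.c_mm_022 noCut_EA noExt_EA F trivial trivial

theorem BA66_mm_023 {κ x : ℝ} (hκ : κ * h0 = ken x) (hx : ((649613803 : ℕ) : ℝ) / S ≤ x) (hx' : x ≤ (((649613803 : ℕ) : ℝ) + (48318383 : ℕ)) / S) :
    TriA PP.cur (VE (h0 * 0) 3 κ (h0 * x) (eng.v x) (h0 * (3 / 40)) (tnt (h0 * x) (3 / 10)) (tbl tK x) (tbl tL x) (tbl (smT h0⁻¹ tC) x)) 0 2 3 6 6 (-1) (-1) :=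
  (sideB hx hx').bothA (thrB hx hx') (en_pos (hx1 hx).le) (Or.inr rfl) (Or.inr rfl) fun y y' F =>
    bothA_cert (s1 := false) (s2 := false) rfl hκ (en_pos (hx1 hx).le) (esg_rng (hx1 hx).le (hx2 hx').le).1 (mo_v x) covB60 covB62 hx hx'
        Pool.Agent.Strip051.G.I6050_6500.Tab.C.BA66.c_mm_023 noCut_EA noExt_EA F trivial trivial

theorem BA66_mm_033 {κ x : ℝ} (hκ : κ * h0 = ken x) (hx : ((649613803 : ℕ) : ℝ) / S ≤ x) (hx' : x ≤ (((649613803 : ℕ) : ℝ) + (48318383 : ℕ)) / S) :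
    TriA PP.cur (VE (h0 * 0) 3 κ (h0 * x) (eng.v x) (h0 * (3 / 40)) (tnt (h0 * x) (3 / 10)) (tbl tK x) (tbl tL x) (tbl (smT h0⁻¹ tC) x)) 0 3 3 6 6 (-1) (-1) :=
  (sideB hx hx').bothA (thrB hx hx') (en_pos (hx1 hx).le) (Or.inr rfl) (Or.inr rfl) fun y y' F =>
    bothA_cert (s1 := false) (s2 := false) rfl hκ (en_pos (hx1 hx).le) (esg_rng (hx1 hx).le (hx2 hx').le).1 (mo_v x) covB60 covB63 hx hx'
        Pool.Agent.Strip051.G.I6050_6500.Tab.C.BA66.c_mm_033 noCut_EA noExt_EA F trivial trivial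

theorem BA66_mm_101 {κ x : ℝ} (hκ : κ * h0 = ken x) (hx : ((649613803 : ℕ) : ℝ) / S ≤ x) (hx' : x ≤ (((649613803 : ℕ) : ℝ) + (48318383 : ℕ)) / S) :
    TriA PP.cur (VE (h0 * 0) 3 κ (h0 * x) (eng.v x) (h0 * (3 / 40)) (tnt (h0 * x) (3 / 10)) (tbl tK x) (tbl tL x) (tbl (smT h0⁻¹ tC) x)) 1 0 1 6 6 (-1) (-1) :=
  (sideB hx hx').bothA (thrB hx hx') (en_pos (hx1 hx).le) (Or.inr rfl) (Or.inr rfl) fun y y' F =>
    bothA_cert (s1 := false) (s2 := false) rfl hκ (en_pos (hx1 hx).le) (esg_rng (hx1 hx).le (hx2 hx').le).1 (mo_v x) covB61 covB60 hx hx'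
        Pool.Agent.Strip051.G.I6050_6500.Tab.C.BA66.c_mm_101 noCut_EA noExt_EA F trivial trivial

theorem BA66_mm_102 {κ x : ℝ} (hκ : κ * h0 = ken x) (hx : ((649613803 : ℕ) : ℝ) / S ≤ x) (hx' : x ≤ (((649613803 : ℕ) : ℝ) + (48318383 : ℕ)) / S) :
    TriA PP.cur (VE (h0 * 0) 3 κ (h0 * x) (eng.v x) (h0 * (3 / 40)) (tnt (h0 * x) (3 / 10)) (tbl tK x) (tbl tL x) (tbl (smT h0⁻¹ tC) x)) 1 0 2 6 6 (-1) (-1) :=
  (sideB hx hx').bothA (thrB hx hx') (en_pos (hx1 hx).le) (Or.inr rfl) (Or.inr rfl) fun y y' F =>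
    bothA_cert (s1 := false) (s2 := false) rfl hκ (en_pos (hx1 hx).le) (esg_rng (hx1 hx).le (hx2 hx').le).1 (mo_v x) covB61 covB60 hx hx'
        Pool.Agent.Strip051.G.I6050_6500.Tab.C.BA66.c_mm_102 noCut_EA noExt_EA F trivial trivial

theorem BA66_mm_112 {κ x : ℝ} (hκ : κ * h0 = ken x) (hx : ((649613803 : ℕ) : ℝ) / S ≤ x) (hx' : x ≤ (((649613803 : ℕ) : ℝ) + (48318383 : ℕ)) / S) :
    TriA PP.cur (VE (h0 * 0) 3 κ (h0 * x) (eng.v x) (h0 * (3 / 40)) (tnt (h0 * x) (3 / 10)) (tbl tK x) (tbl tL x) (tbl (smT h0⁻¹ tC) x)) 1 1 2 6 6 (-1) (-1) :=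
  (sideB hx hx').bothA (thrB hx hx') (en_pos (hx1 hx).le) (Or.inr rfl) (Or.inr rfl) fun y y' F =>
    bothA_cert (s1 := false) (s2 := false) rfl hκ (en_pos (hx1 hx).le) (esg_rng (hx1 hx).le (hx2 hx').le).1 (mo_v x) covB61 covB61 hx hx'
        Pool.Agent.Strip051.G.I6050_6500.Tab.C.BA66.c_mm_112 noCut_EA noExt_EA F trivial trivial

theorem BA66_mm_113 {κ x : ℝ} (hκ : κ * h0 = ken x) (hx : ((649613803 : ℕ) : ℝ) / S ≤ x) (hx' : x ≤ (((649613803 : ℕ) : ℝ) + (48318383 : ℕ)) / S) :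
    TriA PP.cur (VE (h0 * 0) 3 κ (h0 * x) (eng.v x) (h0 * (3 / 40)) (tnt (h0 * x) (3 / 10)) (tbl tK x) (tbl tL x) (tbl (smT h0⁻¹ tC) x)) 1 1 3 6 6 (-1) (-1) :=
  (sideB hx hx').bothA (thrB hx hx') (en_pos (hx1 hx).le) (Or.inr rfl) (Or.inr rfl) fun y y' F =>
    bothA_cert (s1 := false) (s2 := false) rfl hκ (en_pos (hx1 hx).le) (esg_rng (hx1 hx).le (hx2 hx').le).1 (mo_v x) covB61 covB61 hx hx'
        Pool.Agent.Strip051.G.I6050_6500.Tab.C.BA66.c_mm_113 noCut_EA noExt_EA F trivial trivial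

theorem BA66_mm_123 {κ x : ℝ} (hκ : κ * h0 = ken x) (hx : ((649613803 : ℕ) : ℝ) / S ≤ x) (hx' : x ≤ (((649613803 : ℕ) : ℝ) + (48318383 : ℕ)) / S) :
    TriA PP.cur (VE (h0 * 0) 3 κ (h0 * x) (eng.v x) (h0 * (3 / 40)) (tnt (h0 * x) (3 / 10)) (tbl tK x) (tbl tL x) (tbl (smT h0⁻¹ tC) x)) 1 2 3 6 6 (-1) (-1) :=
  (sideB hx hx').bothA (thrB hx hx') (en_pos (hx1 hx).le) (Or.inr rfl) (Or.inr rfl) fun y y' F =>
    bothA_cert (s1 := false) (s2 := false) rfl hκ (en_pos (hx1 hx).le) (esg_rng (hx1 hx).le (hx2 hx').le).1 (mo_v x) covB61 covB62 hx hx'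
        Pool.Agent.Strip051.G.I6050_6500.Tab.C.BA66.c_mm_123 noCut_EA noExt_EA F trivial trivial

theorem BA66_mm_133 {κ x : ℝ} (hκ : κ * h0 = ken x) (hx : ((649613803 : ℕ) : ℝ) / S ≤ x) (hx' : x ≤ (((649613803 : ℕ) : ℝ) + (48318383 : ℕ)) / S) :
    TriA PP.cur (VE (h0 * 0) 3 κ (h0 * x) (eng.v x) (h0 * (3 / 40)) (tnt (h0 * x) (3 / 10)) (tbl tK x) (tbl tL x) (tbl (smT h0⁻¹ tC) x)) 1 3 3 6 6 (-1) (-1) :=
  (sideB hx hx').bothA (thrB hx hx') (en_pos (hx1 hx).le) (Or.inr rfl) (Or.inr rfl) fun y y' F =>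
    bothA_cert (s1 := false) (s2 := false) rfl hκ (en_pos (hx1 hx).le) (esg_rng (hx1 hx).le (hx2 hx').le).1 (mo_v x) covB61 covB63 hx hx'
        Pool.Agent.Strip051.G.I6050_6500.Tab.C.BA66.c_mm_133 noCut_EA noExt_EA F trivial trivial

theorem BA66_mm_202 {κ x : ℝ} (hκ : κ * h0 = ken x) (hx : ((649613803 : ℕ) : ℝ) / S ≤ x) (hx' : x ≤ (((649613803 : ℕ) : ℝ) + (48318383 : ℕ)) / S) :
    TriA PP.cur (VE (h0 * 0) 3 κ (h0 * x) (eng.v x) (h0 * (3 / 40)) (tnt (h0 * x) (3 / 10)) (tbl tK x) (tbl tL x) (tbl (smT h0⁻¹ tC) x)) 2 0 2 6 6 (-1) (-1) :=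
  (sideB hx hx').bothA (thrB hx hx') (en_pos (hx1 hx).le) (Or.inr rfl) (Or.inr rfl) fun y y' F =>
    bothA_cert (s1 := false) (s2 := false) rfl hκ (en_pos (hx1 hx).le) (esg_rng (hx1 hx).le (hx2 hx').le).1 (mo_v x) covB62 covB60 hx hx'
        Pool.Agent.Strip051.G.I6050_6500.Tab.C.BA66.c_mm_202 noCut_EA noExt_EA F trivial trivial

theorem BA66_mm_203 {κ x : ℝ} (hκ : κ * h0 = ken x) (hx : ((649613803 : ℕ) : ℝ) / S ≤ x) (hx' : x ≤ (((649613803 : ℕ) : ℝ) + (48318383 : ℕ)) / S) :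
    TriA PP.cur (VE (h0 * 0) 3 κ (h0 * x) (eng.v x) (h0 * (3 / 40)) (tnt (h0 * x) (3 / 10)) (tbl tK x) (tbl tL x) (tbl (smT h0⁻¹ tC) x)) 2 0 3 6 6 (-1) (-1) :=
  (sideB hx hx').bothA (thrB hx hx') (en_pos (hx1 hx).le) (Or.inr rfl) (Or.inr rfl) fun y y' F =>
    bothA_cert (s1 := false) (s2 := false) rfl hκ (en_pos (hx1 hx).le) (esg_rng (hx1 hx).le (hx2 hx').le).1 (mo_v x) covB62 covB60 hx hx'
        Pool.Agent.Strip051.G.I6050_6500.Tab.C.BA66.c_mm_203 noCut_EA noExt_EA F trivial trivial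

theorem BA66_mm_213 {κ x : ℝ} (hκ : κ * h0 = ken x) (hx : ((649613803 : ℕ) : ℝ) / S ≤ x) (hx' : x ≤ (((649613803 : ℕ) : ℝ) + (48318383 : ℕ)) / S) :
    TriA PP.cur (VE (h0 * 0) 3 κ (h0 * x) (eng.v x) (h0 * (3 / 40)) (tnt (h0 * x) (3 / 10)) (tbl tK x) (tbl tL x) (tbl (smT h0⁻¹ tC) x)) 2 1 3 6 6 (-1) (-1) :=
  (sideB hx hx').bothA (thrB hx hx') (en_pos (hx1 hx).le) (Or.inr rfl) (Or.inr rfl) fun y y' F =>
    bothA_cert (s1 := false) (s2 := false) rfl hκ (en_pos (hx1 hx).le) (esg_rng (hx1 hx).le (hx2 hx').le).1 (mo_v x) covB62 covB61 hx hx'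
        Pool.Agent.Strip051.G.I6050_6500.Tab.C.BA66.c_mm_213 noCut_EA noExt_EA F trivial trivial

theorem BA66_mm_303 {κ x : ℝ} (hκ : κ * h0 = ken x) (hx : ((649613803 : ℕ) : ℝ) / S ≤ x) (hx' : x ≤ (((649613803 : ℕ) : ℝ) + (48318383 : ℕ)) / S) :
    TriA PP.cur (VE (h0 * 0) 3 κ (h0 * x) (eng.v x) (h0 * (3 / 40)) (tnt (h0 * x) (3 / 10)) (tbl tK x) (tbl tL x) (tbl (smT h0⁻¹ tC) x)) 3 0 3 6 6 (-1) (-1) :=
  (sideB hx hx').bothA (thrB hx hx') (en_pos (hx1 hx).le) (Or.inr rfl) (Or.inr rfl) fun y y' F =>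
    bothA_cert (s1 := false) (s2 := false) rfl hκ (en_pos (hx1 hx).le) (esg_rng (hx1 hx).le (hx2 hx').le).1 (mo_v x) covB63 covB60 hx hx'
        Pool.Agent.Strip051.G.I6050_6500.Tab.C.BA66.c_mm_303 noCut_EA noExt_EA F trivial trivial

theorem BA66_mm_313 {κ x : ℝ} (hκ : κ * h0 = ken x) (hx : ((649613803 : ℕ) : ℝ) / S ≤ x) (hx' : x ≤ (((649613803 : ℕ) : ℝ) + (48318383 : ℕ)) / S) :
    TriA PP.cur (VE (h0 * 0) 3 κ (h0 * x) (eng.v x) (h0 * (3 / 40)) (tnt (h0 * x) (3 / 10)) (tbl tK x) (tbl tL x) (tbl (smT h0⁻¹ tC) x)) 3 1 3 6 6 (-1) (-1) :=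
  (sideB hx hx').bothA (thrB hx hx') (en_pos (hx1 hx).le) (Or.inr rfl) (Or.inr rfl) fun y y' F =>
    bothA_cert (s1 := false) (s2 := false) rfl hκ (en_pos (hx1 hx).le) (esg_rng (hx1 hx).le (hx2 hx').le).1 (mo_v x) covB63 covB61 hx hx'
        Pool.Agent.Strip051.G.I6050_6500.Tab.C.BA66.c_mm_313 noCut_EA noExt_EA F trivial trivial

theorem BA66 {κ x : ℝ} (hκ : κ * h0 = ken x) (hx : ((649613803 : ℕ) : ℝ) / S ≤ x) (hx' : x ≤ (((649613803 : ℕ) : ℝ) + (48318383 : ℕ)) / S) : AllTA PP.cur (VE (h0 * 0) 3 κ (h0 * x) (eng.v x) (h0 * (3 / 40)) (tnt (h0 * x) (3 / 10)) (tbl tK x) (tbl tL x) (tbl (smT h0⁻¹ tC) x)) 6 6 where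
  pp := all17 (Q := fun a b c => TriA PP.cur (VE (h0 * 0) 3 κ (h0 * x) (eng.v x) (h0 * (3 / 40)) (tnt (h0 * x) (3 / 10)) (tbl tK x) (tbl tL x) (tbl (smT h0⁻¹ tC) x)) a b c 6 6 1 1)
    (BA66_pp_001 hκ hx hx') (BA66_pp_011 hκ hx hx') (BA66_pp_012 hκ hx hx') (BA66_pp_022 hκ hx hx') (BA66_pp_023 hκ hx hx') (BA66_pp_033 hκ hx hx') (BA66_pp_101 hκ hx hx') (BA66_pp_102 hκ hx hx') (BA66_pp_112 hκ hx hx') (BA66_pp_113 hκ hx hx') (BA66_pp_123 hκ hx hx') (BA66_pp_133 hκ hx hx') (BA66_pp_202 hκ hx hx') (BA66_pp_203 hκ hx hx') (BA66_pp_213 hκ hx hx') (BA66_pp_303 hκ hx hx') (BA66_pp_313 hκ hx hx')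
  pm := all17 (Q := fun a b c => TriA PP.cur (VE (h0 * 0) 3 κ (h0 * x) (eng.v x) (h0 * (3 / 40)) (tnt (h0 * x) (3 / 10)) (tbl tK x) (tbl tL x) (tbl (smT h0⁻¹ tC) x)) a b c 6 6 1 (-1))
    (BA66_pm_001 hκ hx hx') (BA66_pm_011 hκ hx hx') (BA66_pm_012 hκ hx hx') (BA66_pm_022 hκ hx hx') (BA66_pm_023 hκ hx hx') (BA66_pm_033 hκ hx hx') (BA66_pm_101 hκ hx hx') (BA66_pm_102 hκ hx hx') (BA66_pm_112 hκ hx hx') (BA66_pm_113 hκ hx hx') (BA66_pm_123 hκ hx hx') (BA66_pm_133 hκ hx hx') (BA66_pm_202 hκ hx hx') (BA66_pm_203 hκ hx hx') (BA66_pm_213 hκ hx hx') (BA66_pm_303 hκ hx hx') (BA66_pm_313 hκ hx hx')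
  mm := all17 (Q := fun a b c => TriA PP.cur (VE (h0 * 0) 3 κ (h0 * x) (eng.v x) (h0 * (3 / 40)) (tnt (h0 * x) (3 / 10)) (tbl tK x) (tbl tL x) (tbl (smT h0⁻¹ tC) x)) a b c 6 6 (-1) (-1))
    (BA66_mm_001 hκ hx hx') (BA66_mm_011 hκ hx hx') (BA66_mm_012 hκ hx hx') (BA66_mm_022 hκ hx hx') (BA66_mm_023 hκ hx hx') (BA66_mm_033 hκ hx hx') (BA66_mm_101 hκ hx hx') (BA66_mm_102 hκ hx hx') (BA66_mm_112 hκ hx hx') (BA66_mm_113 hκ hx hx') (BA66_mm_123 hκ hx hx') (BA66_mm_133 hκ hx hx') (BA66_mm_202 hκ hx hx') (BA66_mm_203 hκ hx hx') (BA66_mm_213 hκ hx hx') (BA66_mm_303 hκ hx hx') (BA66_mm_313 hκ hx hx')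

end Pool.Agent.Strip051.G.I6050_6500.Tab
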