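import Pool.Agent.Strip051.G.I6050_6500.CrnB
import Pool.Agent.Strip051.G.I6050_6500.CG_1
import Pool.Agent.Strip051.G.I6050_6500.CG_2
import Pool.Agent.Strip051.G.I6050_6500.CW_1
import Pool.Agent.Strip051.G.I6050_6500.CW_2

/-! # Aligned corners: the alternatives (generated) -/

set_option linter.all false

namespace Pool.Agent.Strip051.G.I6050_6500.Tab

open Pool.Agent.Strip051.PB Pool.Agent.StripNear Pool.Agent.Strip051.LC

theorem altB_B012E_41 {κ x : ℝ} (hκ : κ * h0 = ken x) (hx : ((649613803 : ℕ) : ℝ) / S ≤ x) (hx' : x ≤ (((649613803 : ℕ) : ℝ) + (48318383 : ℕ)) / S) :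
    AltEB 3 κ (eng.v x) (3 / 40) (tnt (h0 * x) (3 / 10)) PP tK tL tC pcB (scP esg pd) [⟨0, 0, 0, 26843545⟩, ⟨1, 1, 0, 26843545⟩, ⟨2, 1, 0, 26843545⟩] 0 1 2 4 1 (sgb true) (sgb true) x := by
  have X : XR 26843545 x := XR.of hx hx' (by norm_num) (by norm_num) (by norm_num) (by norm_num)
  have hen : 0 < eng.v x := en_pos X.x0.le
  refine CornW.altB (C := cB012E) (j := (4 : Fin 9)) (k := (1 : Fin 9)) (Ef := esg) (pd := pd) (o := 3 / 40)
    (cornW_of (C := cB012E) (C0 := c0B) (En := eng) (mo := mog) (j := (4 : Fin 9)) (k := (1 : Fin 9)) (lo := 0) (hi := 0) (W := 26843545) (N0 := 3) cB012E_q (sideB hx hx') gokB (pinU hx hx') dokB X (by norm_num) (by norm_num) (l := (0 : Fin 9)) rfl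
      (gatB40 x) (gatB12 x) (gatB01 x) (datB40 x) (datB12 x) (datB01 x) ?_)
    (cornS_of (C := cB012E) (C0 := c0B) (j := (4 : Fin 9)) (k := (1 : Fin 9)) (lo := 0) (hi := 0) (W := 26843545) (N0 := 3) cB012E_q (sideB hx hx') gokB X (by norm_num) (by norm_num) (l := (0 : Fin 9)) rfl
      (gatB40 x) (gatB12 x) (gatB01 x) ?_)
    (thU (pinU hx hx')) rfl hκ (fun j q y => tC_eq j q y x) (esg_rng X.x0.le (by linarith [X.b, X.p0])).1 (mo_v x) le_rfl le_rfl
  · intro ρ a B hρ hd i h1 h2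
    fin_cases i
    · exact corW_cert (G1 := gB4q0) (G2 := gB1q2) (Ga := gB0q1) (Gb := gB1q1) (D1 := dB4q0) (D2 := dB1q2) (Da := dB0q1) (Db := dB1q1) cB012E_ok B hρ hen (gatB40 x) (gatB12 x) (fun _ => gatB01 x) (fun h => absurd h (by decide)) (datB40 x) (datB12 x) (fun _ => datB01 x) (fun h => absurd h (by decide)) hd hx hx' CW.B012E_410
    · exact absurd h2 (by norm_num)
    · exact absurd h2 (by norm_num)
    · exact absurd h2 (by norm_num)
    · exact absurd h2 (by norm_num)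
    · exact absurd h2 (by norm_num)
    · exact absurd h2 (by norm_num)
    · exact absurd h2 (by norm_num)
  · intro ρ a B hρ hd i h1 h2
    fin_cases i
    · exact corT_cert (G1 := gB4q0) (G2 := gB1q2) (Ga := gB0q1) (Gb := gB1q1) cB012E_ok B hρ (gatB40 x) (gatB12 x) (fun _ => gatB01 x) (fun h => absurd h (by decide)) hd hx hx' CG.B012E_410
    · exact absurd h2 (by norm_num)
    · exact absurd h2 (by norm_num)
    · exact absurd h2 (by norm_num)
    · exact absurd h2 (by norm_num)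
    · exact absurd h2 (by norm_num)
    · exact absurd h2 (by norm_num)
    · exact absurd h2 (by norm_num)

theorem altB_B012E_42 {κ x : ℝ} (hκ : κ * h0 = ken x) (hx : ((649613803 : ℕ) : ℝ) / S ≤ x) (hx' : x ≤ (((649613803 : ℕ) : ℝ) + (48318383 : ℕ)) / S) :
    AltEB 3 κ (eng.v x) (3 / 40) (tnt (h0 * x) (3 / 10)) PP tK tL tC pcB (scP esg pd) [⟨0, 0, 0, 33554432⟩, ⟨1, 1, 0, 33554432⟩, ⟨2, 1, 0, 33554432⟩] 0 1 2 4 2 (sgb true) (sgb true) x := by
  have X : XR 33554432 x := XR.of hx hx' (by norm_num) (by norm_num) (by norm_num) (by norm_num)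
  have hen : 0 < eng.v x := en_pos X.x0.le
  refine CornW.altB (C := cB012E) (j := (4 : Fin 9)) (k := (2 : Fin 9)) (Ef := esg) (pd := pd) (o := 3 / 40)
    (cornW_of (C := cB012E) (C0 := c0B) (En := eng) (mo := mog) (j := (4 : Fin 9)) (k := (2 : Fin 9)) (lo := 0) (hi := 0) (W := 33554432) (N0 := 3) cB012E_q (sideB hx hx') gokB (pinU hx hx') dokB X (by norm_num) (by norm_num) (l := (0 : Fin 9)) rfl
      (gatB40 x) (gatB22 x) (gatB01 x) (datB40 x) (datB22 x) (datB01 x) ?_)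
    (cornS_of (C := cB012E) (C0 := c0B) (j := (4 : Fin 9)) (k := (2 : Fin 9)) (lo := 0) (hi := 0) (W := 33554432) (N0 := 3) cB012E_q (sideB hx hx') gokB X (by norm_num) (by norm_num) (l := (0 : Fin 9)) rfl
      (gatB40 x) (gatB22 x) (gatB01 x) ?_)
    (thU (pinU hx hx')) rfl hκ (fun j q y => tC_eq j q y x) (esg_rng X.x0.le (by linarith [X.b, X.p0])).1 (mo_v x) le_rfl le_rfl
  · intro ρ a B hρ hd i h1 h2
    fin_cases i
    · exact corW_cert (G1 := gB4q0) (G2 := gB2q2) (Ga := gB0q1) (Gb := gB1q1) (D1 := dB4q0) (D2 := dB2q2) (Da := dB0q1) (Db := dB1q1) cB012E_ok B hρ hen (gatB40 x) (gatB22 x) (fun _ => gatB01 x) (fun h => absurd h (by decide)) (datB40 x) (datB22 x) (fun _ => datB01 x) (fun h => absurd h (by decide)) hd hx hx' CW.B012E_420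
    · exact absurd h2 (by norm_num)
    · exact absurd h2 (by norm_num)
    · exact absurd h2 (by norm_num)
    · exact absurd h2 (by norm_num)
    · exact absurd h2 (by norm_num)
    · exact absurd h2 (by norm_num)
    · exact absurd h2 (by norm_num)
  · intro ρ a B hρ hd i h1 h2
    fin_cases i
    · exact corT_cert (G1 := gB4q0) (G2 := gB2q2) (Ga := gB0q1) (Gb := gB1q1) cB012E_ok B hρ (gatB40 x) (gatB22 x) (fun _ => gatB01 x) (fun h => absurd h (by decide)) hd hx hx' CG.B012E_420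
    · exact absurd h2 (by norm_num)
    · exact absurd h2 (by norm_num)
    · exact absurd h2 (by norm_num)
    · exact absurd h2 (by norm_num)
    · exact absurd h2 (by norm_num)
    · exact absurd h2 (by norm_num)
    · exact absurd h2 (by norm_num)

theorem altB_B012E_43 {κ x : ℝ} (hκ : κ * h0 = ken x) (hx : ((649613803 : ℕ) : ℝ) / S ≤ x) (hx' : x ≤ (((649613803 : ℕ) : ℝ) + (48318383 : ℕ)) / S) :
    AltEB 3 κ (eng.v x) (3 / 40) (tnt (h0 * x) (3 / 10)) PP tK tL tC pcB (scP esg pd) [⟨0, 0, 0, 33554432⟩, ⟨1, 1, 0, 33554432⟩, ⟨2, 1, 0, 33554432⟩] 0 1 2 4 3 (sgb true) (sgb true) x := by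
  have X : XR 33554432 x := XR.of hx hx' (by norm_num) (by norm_num) (by norm_num) (by norm_num)
  have hen : 0 < eng.v x := en_pos X.x0.le
  refine CornW.altB (C := cB012E) (j := (4 : Fin 9)) (k := (3 : Fin 9)) (Ef := esg) (pd := pd) (o := 3 / 40)
    (cornW_of (C := cB012E) (C0 := c0B) (En := eng) (mo := mog) (j := (4 : Fin 9)) (k := (3 : Fin 9)) (lo := 0) (hi := 0) (W := 33554432) (N0 := 3) cB012E_q (sideB hx hx') gokB (pinU hx hx') dokB X (by norm_num) (by norm_num) (l := (0 : Fin 9)) rfl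
      (gatB40 x) (gatB32 x) (gatB01 x) (datB40 x) (datB32 x) (datB01 x) ?_)
    (cornS_of (C := cB012E) (C0 := c0B) (j := (4 : Fin 9)) (k := (3 : Fin 9)) (lo := 0) (hi := 0) (W := 33554432) (N0 := 3) cB012E_q (sideB hx hx') gokB X (by norm_num) (by norm_num) (l := (0 : Fin 9)) rfl
      (gatB40 x) (gatB32 x) (gatB01 x) ?_)
    (thU (pinU hx hx')) rfl hκ (fun j q y => tC_eq j q y x) (esg_rng X.x0.le (by linarith [X.b, X.p0])).1 (mo_v x) le_rfl le_rfl
  · intro ρ a B hρ hd i h1 h2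
    fin_cases i
    · exact corW_cert (G1 := gB4q0) (G2 := gB3q2) (Ga := gB0q1) (Gb := gB1q1) (D1 := dB4q0) (D2 := dB3q2) (Da := dB0q1) (Db := dB1q1) cB012E_ok B hρ hen (gatB40 x) (gatB32 x) (fun _ => gatB01 x) (fun h => absurd h (by decide)) (datB40 x) (datB32 x) (fun _ => datB01 x) (fun h => absurd h (by decide)) hd hx hx' CW.B012E_430
    · exact absurd h2 (by norm_num)
    · exact absurd h2 (by norm_num)
    · exact absurd h2 (by norm_num)
    · exact absurd h2 (by norm_num)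
    · exact absurd h2 (by norm_num)
    · exact absurd h2 (by norm_num)
    · exact absurd h2 (by norm_num)
  · intro ρ a B hρ hd i h1 h2
    fin_cases i
    · exact corT_cert (G1 := gB4q0) (G2 := gB3q2) (Ga := gB0q1) (Gb := gB1q1) cB012E_ok B hρ (gatB40 x) (gatB32 x) (fun _ => gatB01 x) (fun h => absurd h (by decide)) hd hx hx' CG.B012E_430
    · exact absurd h2 (by norm_num)
    · exact absurd h2 (by norm_num)
    · exact absurd h2 (by norm_num)
    · exact absurd h2 (by norm_num)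
    · exact absurd h2 (by norm_num)
    · exact absurd h2 (by norm_num)
    · exact absurd h2 (by norm_num)

theorem altB_B012E_44 {κ x : ℝ} (hκ : κ * h0 = ken x) (hx : ((649613803 : ℕ) : ℝ) / S ≤ x) (hx' : x ≤ (((649613803 : ℕ) : ℝ) + (48318383 : ℕ)) / S) :
    AltEB 3 κ (eng.v x) (3 / 40) (tnt (h0 * x) (3 / 10)) PP tK tL tC pcB (scP esg pd) [⟨0, 0, 0, 53687091⟩, ⟨1, 1, 0, 53687091⟩, ⟨2, 1, 0, 53687091⟩] 0 1 2 4 4 (sgb true) (sgb true) x := by
  have X : XR 53687091 x := XR.of hx hx' (by norm_num) (by norm_num) (by norm_num) (by norm_num)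
  have hen : 0 < eng.v x := en_pos X.x0.le
  refine CornW.altB (C := cB012E) (j := (4 : Fin 9)) (k := (4 : Fin 9)) (Ef := esg) (pd := pd) (o := 3 / 40)
    (cornW_of (C := cB012E) (C0 := c0B) (En := eng) (mo := mog) (j := (4 : Fin 9)) (k := (4 : Fin 9)) (lo := 0) (hi := 0) (W := 53687091) (N0 := 3) cB012E_q (sideB hx hx') gokB (pinU hx hx') dokB X (by norm_num) (by norm_num) (l := (0 : Fin 9)) rfl
      (gatB40 x) (gatB42 x) (gatB01 x) (datB40 x) (datB42 x) (datB01 x) ?_)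
    (cornS_of (C := cB012E) (C0 := c0B) (j := (4 : Fin 9)) (k := (4 : Fin 9)) (lo := 0) (hi := 0) (W := 53687091) (N0 := 3) cB012E_q (sideB hx hx') gokB X (by norm_num) (by norm_num) (l := (0 : Fin 9)) rfl
      (gatB40 x) (gatB42 x) (gatB01 x) ?_)
    (thU (pinU hx hx')) rfl hκ (fun j q y => tC_eq j q y x) (esg_rng X.x0.le (by linarith [X.b, X.p0])).1 (mo_v x) le_rfl le_rfl
  · intro ρ a B hρ hd i h1 h2
    fin_cases i
    · exact corW_cert (G1 := gB4q0) (G2 := gB4q2) (Ga := gB0q1) (Gb := gB1q1) (D1 := dB4q0) (D2 := dB4q2) (Da := dB0q1) (Db := dB1q1) cB012E_ok B hρ hen (gatB40 x) (gatB42 x) (fun _ => gatB01 x) (fun h => absurd h (by decide)) (datB40 x) (datB42 x) (fun _ => datB01 x) (fun h => absurd h (by decide)) hd hx hx' CW.B012E_440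
    · exact absurd h2 (by norm_num)
    · exact absurd h2 (by norm_num)
    · exact absurd h2 (by norm_num)
    · exact absurd h2 (by norm_num)
    · exact absurd h2 (by norm_num)
    · exact absurd h2 (by norm_num)
    · exact absurd h2 (by norm_num)
  · intro ρ a B hρ hd i h1 h2
    fin_cases i
    · exact corT_cert (G1 := gB4q0) (G2 := gB4q2) (Ga := gB0q1) (Gb := gB1q1) cB012E_ok B hρ (gatB40 x) (gatB42 x) (fun _ => gatB01 x) (fun h => absurd h (by decide)) hd hx hx' CG.B012E_440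
    · exact absurd h2 (by norm_num)
    · exact absurd h2 (by norm_num)
    · exact absurd h2 (by norm_num)
    · exact absurd h2 (by norm_num)
    · exact absurd h2 (by norm_num)
    · exact absurd h2 (by norm_num)
    · exact absurd h2 (by norm_num)

theorem altB_B012L_08 {κ x : ℝ} (hκ : κ * h0 = ken x) (hx : ((649613803 : ℕ) : ℝ) / S ≤ x) (hx' : x ≤ (((649613803 : ℕ) : ℝ) + (48318383 : ℕ)) / S) :
    AltEB 3 κ (eng.v x) (3 / 40) (tnt (h0 * x) (3 / 10)) PP tK tL tC pcB (scP esg pd) [⟨0, 0, 0, 67108864⟩, ⟨1, 1, 0, 67108864⟩, ⟨2, 1, 0, 67108864⟩] 0 1 2 0 8 (sgb true) (sgb true) x := by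
  have X : XR 67108864 x := XR.of hx hx' (by norm_num) (by norm_num) (by norm_num) (by norm_num)
  have hen : 0 < eng.v x := en_pos X.x0.le
  refine CornW.altB (C := cB012L) (j := (0 : Fin 9)) (k := (8 : Fin 9)) (Ef := esg) (pd := pd) (o := 3 / 40)
    (cornW_of (C := cB012L) (C0 := c0B) (En := eng) (mo := mog) (j := (0 : Fin 9)) (k := (8 : Fin 9)) (lo := 0) (hi := 0) (W := 67108864) (N0 := 3) cB012L_q (sideB hx hx') gokB (pinU hx hx') dokB X (by norm_num) (by norm_num) (l := (0 : Fin 9)) rfl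
      (gatB00 x) (gatB82 x) (gatB01 x) (datB00 x) (datB82 x) (datB01 x) ?_)
    (cornS_of (C := cB012L) (C0 := c0B) (j := (0 : Fin 9)) (k := (8 : Fin 9)) (lo := 0) (hi := 0) (W := 67108864) (N0 := 3) cB012L_q (sideB hx hx') gokB X (by norm_num) (by norm_num) (l := (0 : Fin 9)) rfl
      (gatB00 x) (gatB82 x) (gatB01 x) ?_)
    (thU (pinU hx hx')) rfl hκ (fun j q y => tC_eq j q y x) (esg_rng X.x0.le (by linarith [X.b, X.p0])).1 (mo_v x) le_rfl le_rfl
  · intro ρ a B hρ hd i h1 h2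
    fin_cases i
    · exact corW_cert (G1 := gB0q0) (G2 := gB8q2) (Ga := gB0q1) (Gb := gB1q1) (D1 := dB0q0) (D2 := dB8q2) (Da := dB0q1) (Db := dB1q1) cB012L_ok B hρ hen (gatB00 x) (gatB82 x) (fun _ => gatB01 x) (fun h => absurd h (by decide)) (datB00 x) (datB82 x) (fun _ => datB01 x) (fun h => absurd h (by decide)) hd hx hx' CW.B012L_080
    · exact absurd h2 (by norm_num)
    · exact absurd h2 (by norm_num)
    · exact absurd h2 (by norm_num)
    · exact absurd h2 (by norm_num)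
    · exact absurd h2 (by norm_num)
    · exact absurd h2 (by norm_num)
    · exact absurd h2 (by norm_num)
  · intro ρ a B hρ hd i h1 h2
    fin_cases i
    · exact corT_cert (G1 := gB0q0) (G2 := gB8q2) (Ga := gB0q1) (Gb := gB1q1) cB012L_ok B hρ (gatB00 x) (gatB82 x) (fun _ => gatB01 x) (fun h => absurd h (by decide)) hd hx hx' CG.B012L_080
    · exact absurd h2 (by norm_num)
    · exact absurd h2 (by norm_num)
    · exact absurd h2 (by norm_num)
    · exact absurd h2 (by norm_num)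
    · exact absurd h2 (by norm_num)
    · exact absurd h2 (by norm_num)
    · exact absurd h2 (by norm_num)

theorem altB_B012L_18 {κ x : ℝ} (hκ : κ * h0 = ken x) (hx : ((649613803 : ℕ) : ℝ) / S ≤ x) (hx' : x ≤ (((649613803 : ℕ) : ℝ) + (48318383 : ℕ)) / S) :
    AltEB 3 κ (eng.v x) (3 / 40) (tnt (h0 * x) (3 / 10)) PP tK tL tC pcB (scP esg pd) [⟨0, 0, 0, 67108864⟩, ⟨1, 1, 0, 67108864⟩, ⟨2, 1, 0, 67108864⟩] 0 1 2 1 8 (sgb true) (sgb true) x := by
  have X : XR 67108864 x := XR.of hx hx' (by norm_num) (by norm_num) (by norm_num) (by norm_num)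
  have hen : 0 < eng.v x := en_pos X.x0.le
  refine CornW.altB (C := cB012L) (j := (1 : Fin 9)) (k := (8 : Fin 9)) (Ef := esg) (pd := pd) (o := 3 / 40)
    (cornW_of (C := cB012L) (C0 := c0B) (En := eng) (mo := mog) (j := (1 : Fin 9)) (k := (8 : Fin 9)) (lo := 0) (hi := 0) (W := 67108864) (N0 := 3) cB012L_q (sideB hx hx') gokB (pinU hx hx') dokB X (by norm_num) (by norm_num) (l := (0 : Fin 9)) rfl
      (gatB10 x) (gatB82 x) (gatB01 x) (datB10 x) (datB82 x) (datB01 x) ?_)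
    (cornS_of (C := cB012L) (C0 := c0B) (j := (1 : Fin 9)) (k := (8 : Fin 9)) (lo := 0) (hi := 0) (W := 67108864) (N0 := 3) cB012L_q (sideB hx hx') gokB X (by norm_num) (by norm_num) (l := (0 : Fin 9)) rfl
      (gatB10 x) (gatB82 x) (gatB01 x) ?_)
    (thU (pinU hx hx')) rfl hκ (fun j q y => tC_eq j q y x) (esg_rng X.x0.le (by linarith [X.b, X.p0])).1 (mo_v x) le_rfl le_rfl
  · intro ρ a B hρ hd i h1 h2
    fin_cases i
    · exact corW_cert (G1 := gB1q0) (G2 := gB8q2) (Ga := gB0q1) (Gb := gB1q1) (D1 := dB1q0) (D2 := dB8q2) (Da := dB0q1) (Db := dB1q1) cB012L_ok B hρ hen (gatB10 x) (gatB82 x) (fun _ => gatB01 x) (fun h => absurd h (by decide)) (datB10 x) (datB82 x) (fun _ => datB01 x) (fun h => absurd h (by decide)) hd hx hx' CW.B012L_180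
    · exact absurd h2 (by norm_num)
    · exact absurd h2 (by norm_num)
    · exact absurd h2 (by norm_num)
    · exact absurd h2 (by norm_num)
    · exact absurd h2 (by norm_num)
    · exact absurd h2 (by norm_num)
    · exact absurd h2 (by norm_num)
  · intro ρ a B hρ hd i h1 h2
    fin_cases i
    · exact corT_cert (G1 := gB1q0) (G2 := gB8q2) (Ga := gB0q1) (Gb := gB1q1) cB012L_ok B hρ (gatB10 x) (gatB82 x) (fun _ => gatB01 x) (fun h => absurd h (by decide)) hd hx hx' CG.B012L_180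
    · exact absurd h2 (by norm_num)
    · exact absurd h2 (by norm_num)
    · exact absurd h2 (by norm_num)
    · exact absurd h2 (by norm_num)
    · exact absurd h2 (by norm_num)
    · exact absurd h2 (by norm_num)
    · exact absurd h2 (by norm_num)

theorem altB_B012L_28 {κ x : ℝ} (hκ : κ * h0 = ken x) (hx : ((649613803 : ℕ) : ℝ) / S ≤ x) (hx' : x ≤ (((649613803 : ℕ) : ℝ) + (48318383 : ℕ)) / S) :
    AltEB 3 κ (eng.v x) (3 / 40) (tnt (h0 * x) (3 / 10)) PP tK tL tC pcB (scP esg pd) [⟨0, 0, 0, 67108864⟩, ⟨1, 1, 0, 67108864⟩, ⟨2, 1, 0, 67108864⟩] 0 1 2 2 8 (sgb true) (sgb true) x := by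
  have X : XR 67108864 x := XR.of hx hx' (by norm_num) (by norm_num) (by norm_num) (by norm_num)
  have hen : 0 < eng.v x := en_pos X.x0.le
  refine CornW.altB (C := cB012L) (j := (2 : Fin 9)) (k := (8 : Fin 9)) (Ef := esg) (pd := pd) (o := 3 / 40)
    (cornW_of (C := cB012L) (C0 := c0B) (En := eng) (mo := mog) (j := (2 : Fin 9)) (k := (8 : Fin 9)) (lo := 0) (hi := 0) (W := 67108864) (N0 := 3) cB012L_q (sideB hx hx') gokB (pinU hx hx') dokB X (by norm_num) (by norm_num) (l := (0 : Fin 9)) rfl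
      (gatB20 x) (gatB82 x) (gatB01 x) (datB20 x) (datB82 x) (datB01 x) ?_)
    (cornS_of (C := cB012L) (C0 := c0B) (j := (2 : Fin 9)) (k := (8 : Fin 9)) (lo := 0) (hi := 0) (W := 67108864) (N0 := 3) cB012L_q (sideB hx hx') gokB X (by norm_num) (by norm_num) (l := (0 : Fin 9)) rfl
      (gatB20 x) (gatB82 x) (gatB01 x) ?_)
    (thU (pinU hx hx')) rfl hκ (fun j q y => tC_eq j q y x) (esg_rng X.x0.le (by linarith [X.b, X.p0])).1 (mo_v x) le_rfl le_rfl
  · intro ρ a B hρ hd i h1 h2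
    fin_cases i
    · exact corW_cert (G1 := gB2q0) (G2 := gB8q2) (Ga := gB0q1) (Gb := gB1q1) (D1 := dB2q0) (D2 := dB8q2) (Da := dB0q1) (Db := dB1q1) cB012L_ok B hρ hen (gatB20 x) (gatB82 x) (fun _ => gatB01 x) (fun h => absurd h (by decide)) (datB20 x) (datB82 x) (fun _ => datB01 x) (fun h => absurd h (by decide)) hd hx hx' CW.B012L_280
    · exact absurd h2 (by norm_num)
    · exact absurd h2 (by norm_num)
    · exact absurd h2 (by norm_num)
    · exact absurd h2 (by norm_num)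
    · exact absurd h2 (by norm_num)
    · exact absurd h2 (by norm_num)
    · exact absurd h2 (by norm_num)
  · intro ρ a B hρ hd i h1 h2
    fin_cases i
    · exact corT_cert (G1 := gB2q0) (G2 := gB8q2) (Ga := gB0q1) (Gb := gB1q1) cB012L_ok B hρ (gatB20 x) (gatB82 x) (fun _ => gatB01 x) (fun h => absurd h (by decide)) hd hx hx' CG.B012L_280
    · exact absurd h2 (by norm_num)
    · exact absurd h2 (by norm_num)
    · exact absurd h2 (by norm_num)
    · exact absurd h2 (by norm_num)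
    · exact absurd h2 (by norm_num)
    · exact absurd h2 (by norm_num)
    · exact absurd h2 (by norm_num)

theorem altB_B012L_38 {κ x : ℝ} (hκ : κ * h0 = ken x) (hx : ((649613803 : ℕ) : ℝ) / S ≤ x) (hx' : x ≤ (((649613803 : ℕ) : ℝ) + (48318383 : ℕ)) / S) :
    AltEB 3 κ (eng.v x) (3 / 40) (tnt (h0 * x) (3 / 10)) PP tK tL tC pcB (scP esg pd) [⟨0, 0, 0, 67108864⟩, ⟨1, 1, 0, 67108864⟩, ⟨2, 1, 0, 67108864⟩] 0 1 2 3 8 (sgb true) (sgb true) x := by
  have X : XR 67108864 x := XR.of hx hx' (by norm_num) (by norm_num) (by norm_num) (by norm_num)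
  have hen : 0 < eng.v x := en_pos X.x0.le
  refine CornW.altB (C := cB012L) (j := (3 : Fin 9)) (k := (8 : Fin 9)) (Ef := esg) (pd := pd) (o := 3 / 40)
    (cornW_of (C := cB012L) (C0 := c0B) (En := eng) (mo := mog) (j := (3 : Fin 9)) (k := (8 : Fin 9)) (lo := 0) (hi := 0) (W := 67108864) (N0 := 3) cB012L_q (sideB hx hx') gokB (pinU hx hx') dokB X (by norm_num) (by norm_num) (l := (0 : Fin 9)) rfl
      (gatB30 x) (gatB82 x) (gatB01 x) (datB30 x) (datB82 x) (datB01 x) ?_)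
    (cornS_of (C := cB012L) (C0 := c0B) (j := (3 : Fin 9)) (k := (8 : Fin 9)) (lo := 0) (hi := 0) (W := 67108864) (N0 := 3) cB012L_q (sideB hx hx') gokB X (by norm_num) (by norm_num) (l := (0 : Fin 9)) rfl
      (gatB30 x) (gatB82 x) (gatB01 x) ?_)
    (thU (pinU hx hx')) rfl hκ (fun j q y => tC_eq j q y x) (esg_rng X.x0.le (by linarith [X.b, X.p0])).1 (mo_v x) le_rfl le_rfl
  · intro ρ a B hρ hd i h1 h2
    fin_cases i
    · exact corW_cert (G1 := gB3q0) (G2 := gB8q2) (Ga := gB0q1) (Gb := gB1q1) (D1 := dB3q0) (D2 := dB8q2) (Da := dB0q1) (Db := dB1q1) cB012L_ok B hρ hen (gatB30 x) (gatB82 x) (fun _ => gatB01 x) (fun h => absurd h (by decide)) (datB30 x) (datB82 x) (fun _ => datB01 x) (fun h => absurd h (by decide)) hd hx hx' CW.B012L_380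
    · exact absurd h2 (by norm_num)
    · exact absurd h2 (by norm_num)
    · exact absurd h2 (by norm_num)
    · exact absurd h2 (by norm_num)
    · exact absurd h2 (by norm_num)
    · exact absurd h2 (by norm_num)
    · exact absurd h2 (by norm_num)
  · intro ρ a B hρ hd i h1 h2
    fin_cases i
    · exact corT_cert (G1 := gB3q0) (G2 := gB8q2) (Ga := gB0q1) (Gb := gB1q1) cB012L_ok B hρ (gatB30 x) (gatB82 x) (fun _ => gatB01 x) (fun h => absurd h (by decide)) hd hx hx' CG.B012L_380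
    · exact absurd h2 (by norm_num)
    · exact absurd h2 (by norm_num)
    · exact absurd h2 (by norm_num)
    · exact absurd h2 (by norm_num)
    · exact absurd h2 (by norm_num)
    · exact absurd h2 (by norm_num)
    · exact absurd h2 (by norm_num)

theorem altB_B012L_48 {κ x : ℝ} (hκ : κ * h0 = ken x) (hx : ((649613803 : ℕ) : ℝ) / S ≤ x) (hx' : x ≤ (((649613803 : ℕ) : ℝ) + (48318383 : ℕ)) / S) :
    AltEB 3 κ (eng.v x) (3 / 40) (tnt (h0 * x) (3 / 10)) PP tK tL tC pcB (scP esg pd) [⟨0, 0, 0, 67108864⟩, ⟨1, 1, 0, 67108864⟩, ⟨2, 1, 0, 67108864⟩] 0 1 2 4 8 (sgb true) (sgb true) x := by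
  have X : XR 67108864 x := XR.of hx hx' (by norm_num) (by norm_num) (by norm_num) (by norm_num)
  have hen : 0 < eng.v x := en_pos X.x0.le
  refine CornW.altB (C := cB012L) (j := (4 : Fin 9)) (k := (8 : Fin 9)) (Ef := esg) (pd := pd) (o := 3 / 40)
    (cornW_of (C := cB012L) (C0 := c0B) (En := eng) (mo := mog) (j := (4 : Fin 9)) (k := (8 : Fin 9)) (lo := 0) (hi := 0) (W := 67108864) (N0 := 3) cB012L_q (sideB hx hx') gokB (pinU hx hx') dokB X (by norm_num) (by norm_num) (l := (0 : Fin 9)) rfl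
      (gatB40 x) (gatB82 x) (gatB01 x) (datB40 x) (datB82 x) (datB01 x) ?_)
    (cornS_of (C := cB012L) (C0 := c0B) (j := (4 : Fin 9)) (k := (8 : Fin 9)) (lo := 0) (hi := 0) (W := 67108864) (N0 := 3) cB012L_q (sideB hx hx') gokB X (by norm_num) (by norm_num) (l := (0 : Fin 9)) rfl
      (gatB40 x) (gatB82 x) (gatB01 x) ?_)
    (thU (pinU hx hx')) rfl hκ (fun j q y => tC_eq j q y x) (esg_rng X.x0.le (by linarith [X.b, X.p0])).1 (mo_v x) le_rfl le_rfl
  · intro ρ a B hρ hd i h1 h2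
    fin_cases i
    · exact corW_cert (G1 := gB4q0) (G2 := gB8q2) (Ga := gB0q1) (Gb := gB1q1) (D1 := dB4q0) (D2 := dB8q2) (Da := dB0q1) (Db := dB1q1) cB012L_ok B hρ hen (gatB40 x) (gatB82 x) (fun _ => gatB01 x) (fun h => absurd h (by decide)) (datB40 x) (datB82 x) (fun _ => datB01 x) (fun h => absurd h (by decide)) hd hx hx' CW.B012L_480
    · exact absurd h2 (by norm_num)
    · exact absurd h2 (by norm_num)
    · exact absurd h2 (by norm_num)
    · exact absurd h2 (by norm_num)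
    · exact absurd h2 (by norm_num)
    · exact absurd h2 (by norm_num)
    · exact absurd h2 (by norm_num)
  · intro ρ a B hρ hd i h1 h2
    fin_cases i
    · exact corT_cert (G1 := gB4q0) (G2 := gB8q2) (Ga := gB0q1) (Gb := gB1q1) cB012L_ok B hρ (gatB40 x) (gatB82 x) (fun _ => gatB01 x) (fun h => absurd h (by decide)) hd hx hx' CG.B012L_480
    · exact absurd h2 (by norm_num)
    · exact absurd h2 (by norm_num)
    · exact absurd h2 (by norm_num)
    · exact absurd h2 (by norm_num)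
    · exact absurd h2 (by norm_num)
    · exact absurd h2 (by norm_num)
    · exact absurd h2 (by norm_num)

theorem altB_B012R_00 {κ x : ℝ} (hκ : κ * h0 = ken x) (hx : ((649613803 : ℕ) : ℝ) / S ≤ x) (hx' : x ≤ (((649613803 : ℕ) : ℝ) + (48318383 : ℕ)) / S) :
    AltEB 3 κ (eng.v x) (3 / 40) (tnt (h0 * x) (3 / 10)) PP tK tL tC pcB (scP esg pd) [⟨0, 0, 0, 67108864⟩, ⟨1, 1, 0, 67108864⟩, ⟨2, 1, 0, 67108864⟩] 0 1 2 0 0 (sgb true) (sgb false) x := by
  have X : XR 67108864 x := XR.of hx hx' (by norm_num) (by norm_num) (by norm_num) (by norm_num)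
  have hen : 0 < eng.v x := en_pos X.x0.le
  refine CornW.altB (C := cB012R) (j := (0 : Fin 9)) (k := (0 : Fin 9)) (Ef := esg) (pd := pd) (o := 3 / 40)
    (cornW_of (C := cB012R) (C0 := c0B) (En := eng) (mo := mog) (j := (0 : Fin 9)) (k := (0 : Fin 9)) (lo := 5) (hi := 8) (W := 67108864) (N0 := 3) cB012R_q (sideB hx hx') gokB (pinU hx hx') dokB X (by norm_num) (by norm_num) (l := (5 : Fin 9)) rfl
      (gatB00 x) (gatB02 x) (gatB51 x) (datB00 x) (datB02 x) (datB51 x) ?_)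
    (cornS_of (C := cB012R) (C0 := c0B) (j := (0 : Fin 9)) (k := (0 : Fin 9)) (lo := 5) (hi := 8) (W := 67108864) (N0 := 3) cB012R_q (sideB hx hx') gokB X (by norm_num) (by norm_num) (l := (5 : Fin 9)) rfl
      (gatB00 x) (gatB02 x) (gatB51 x) ?_)
    (thU (pinU hx hx')) rfl hκ (fun j q y => tC_eq j q y x) (esg_rng X.x0.le (by linarith [X.b, X.p0])).1 (mo_v x) le_rfl le_rfl
  · intro ρ a B hρ hd i h1 h2
    fin_cases i
    · exact absurd h1 (by norm_num)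
    · exact absurd h1 (by norm_num)
    · exact absurd h1 (by norm_num)
    · exact absurd h1 (by norm_num)
    · exact corW_cert (G1 := gB0q0) (G2 := gB0q2) (Ga := gB4q1) (Gb := gB5q1) (D1 := dB0q0) (D2 := dB0q2) (Da := dB4q1) (Db := dB5q1) cB012R_ok B hρ hen (gatB00 x) (gatB02 x) (fun h => absurd h (by decide)) (fun _ => gatB51 x) (datB00 x) (datB02 x) (fun h => absurd h (by decide)) (fun _ => datB51 x) hd hx hx' CW.B012R_004
    · exact corW_cert (G1 := gB0q0) (G2 := gB0q2) (Ga := gB5q1) (Gb := gB6q1) (D1 := dB0q0) (D2 := dB0q2) (Da := dB5q1) (Db := dB6q1) cB012R_ok B hρ hen (gatB00 x) (gatB02 x) (fun _ => gatB51 x) (fun _ => gatB61 x) (datB00 x) (datB02 x) (fun _ => datB51 x) (fun _ => datB61 x) hd hx hx' CW.B012R_005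
    · exact corW_cert (G1 := gB0q0) (G2 := gB0q2) (Ga := gB6q1) (Gb := gB7q1) (D1 := dB0q0) (D2 := dB0q2) (Da := dB6q1) (Db := dB7q1) cB012R_ok B hρ hen (gatB00 x) (gatB02 x) (fun _ => gatB61 x) (fun _ => gatB71 x) (datB00 x) (datB02 x) (fun _ => datB61 x) (fun _ => datB71 x) hd hx hx' CW.B012R_006
    · exact corW_cert (G1 := gB0q0) (G2 := gB0q2) (Ga := gB7q1) (Gb := gB8q1) (D1 := dB0q0) (D2 := dB0q2) (Da := dB7q1) (Db := dB8q1) cB012R_ok B hρ hen (gatB00 x) (gatB02 x) (fun _ => gatB71 x) (fun _ => gatB81 x) (datB00 x) (datB02 x) (fun _ => datB71 x) (fun _ => datB81 x) hd hx hx' CW.B012R_007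
  · intro ρ a B hρ hd i h1 h2
    fin_cases i
    · exact absurd h1 (by norm_num)
    · exact absurd h1 (by norm_num)
    · exact absurd h1 (by norm_num)
    · exact absurd h1 (by norm_num)
    · exact corT_cert (G1 := gB0q0) (G2 := gB0q2) (Ga := gB4q1) (Gb := gB5q1) cB012R_ok B hρ (gatB00 x) (gatB02 x) (fun h => absurd h (by decide)) (fun _ => gatB51 x) hd hx hx' CG.B012R_004
    · exact corT_cert (G1 := gB0q0) (G2 := gB0q2) (Ga := gB5q1) (Gb := gB6q1) cB012R_ok B hρ (gatB00 x) (gatB02 x) (fun _ => gatB51 x) (fun _ => gatB61 x) hd hx hx' CG.B012R_005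
    · exact corT_cert (G1 := gB0q0) (G2 := gB0q2) (Ga := gB6q1) (Gb := gB7q1) cB012R_ok B hρ (gatB00 x) (gatB02 x) (fun _ => gatB61 x) (fun _ => gatB71 x) hd hx hx' CG.B012R_006
    · exact corT_cert (G1 := gB0q0) (G2 := gB0q2) (Ga := gB7q1) (Gb := gB8q1) cB012R_ok B hρ (gatB00 x) (gatB02 x) (fun _ => gatB71 x) (fun _ => gatB81 x) hd hx hx' CG.B012R_007

theorem altB_B012R_01 {κ x : ℝ} (hκ : κ * h0 = ken x) (hx : ((649613803 : ℕ) : ℝ) / S ≤ x) (hx' : x ≤ (((649613803 : ℕ) : ℝ) + (48318383 : ℕ)) / S) :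
    AltEB 3 κ (eng.v x) (3 / 40) (tnt (h0 * x) (3 / 10)) PP tK tL tC pcB (scP esg pd) [⟨0, 0, 0, 67108864⟩, ⟨1, 1, 0, 67108864⟩, ⟨2, 1, 0, 67108864⟩] 0 1 2 0 1 (sgb true) (sgb false) x := by
  have X : XR 67108864 x := XR.of hx hx' (by norm_num) (by norm_num) (by norm_num) (by norm_num)
  have hen : 0 < eng.v x := en_pos X.x0.le
  refine CornW.altB (C := cB012R) (j := (0 : Fin 9)) (k := (1 : Fin 9)) (Ef := esg) (pd := pd) (o := 3 / 40)
    (cornW_of (C := cB012R) (C0 := c0B) (En := eng) (mo := mog) (j := (0 : Fin 9)) (k := (1 : Fin 9)) (lo := 5) (hi := 8) (W := 67108864) (N0 := 3) cB012R_q (sideB hx hx') gokB (pinU hx hx') dokB X (by norm_num) (by norm_num) (l := (5 : Fin 9)) rfl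
      (gatB00 x) (gatB12 x) (gatB51 x) (datB00 x) (datB12 x) (datB51 x) ?_)
    (cornS_of (C := cB012R) (C0 := c0B) (j := (0 : Fin 9)) (k := (1 : Fin 9)) (lo := 5) (hi := 8) (W := 67108864) (N0 := 3) cB012R_q (sideB hx hx') gokB X (by norm_num) (by norm_num) (l := (5 : Fin 9)) rfl
      (gatB00 x) (gatB12 x) (gatB51 x) ?_)
    (thU (pinU hx hx')) rfl hκ (fun j q y => tC_eq j q y x) (esg_rng X.x0.le (by linarith [X.b, X.p0])).1 (mo_v x) le_rfl le_rfl
  · intro ρ a B hρ hd i h1 h2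
    fin_cases i
    · exact absurd h1 (by norm_num)
    · exact absurd h1 (by norm_num)
    · exact absurd h1 (by norm_num)
    · exact absurd h1 (by norm_num)
    · exact corW_cert (G1 := gB0q0) (G2 := gB1q2) (Ga := gB4q1) (Gb := gB5q1) (D1 := dB0q0) (D2 := dB1q2) (Da := dB4q1) (Db := dB5q1) cB012R_ok B hρ hen (gatB00 x) (gatB12 x) (fun h => absurd h (by decide)) (fun _ => gatB51 x) (datB00 x) (datB12 x) (fun h => absurd h (by decide)) (fun _ => datB51 x) hd hx hx' CW.B012R_014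
    · exact corW_cert (G1 := gB0q0) (G2 := gB1q2) (Ga := gB5q1) (Gb := gB6q1) (D1 := dB0q0) (D2 := dB1q2) (Da := dB5q1) (Db := dB6q1) cB012R_ok B hρ hen (gatB00 x) (gatB12 x) (fun _ => gatB51 x) (fun _ => gatB61 x) (datB00 x) (datB12 x) (fun _ => datB51 x) (fun _ => datB61 x) hd hx hx' CW.B012R_015
    · exact corW_cert (G1 := gB0q0) (G2 := gB1q2) (Ga := gB6q1) (Gb := gB7q1) (D1 := dB0q0) (D2 := dB1q2) (Da := dB6q1) (Db := dB7q1) cB012R_ok B hρ hen (gatB00 x) (gatB12 x) (fun _ => gatB61 x) (fun _ => gatB71 x) (datB00 x) (datB12 x) (fun _ => datB61 x) (fun _ => datB71 x) hd hx hx' CW.B012R_016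
    · exact corW_cert (G1 := gB0q0) (G2 := gB1q2) (Ga := gB7q1) (Gb := gB8q1) (D1 := dB0q0) (D2 := dB1q2) (Da := dB7q1) (Db := dB8q1) cB012R_ok B hρ hen (gatB00 x) (gatB12 x) (fun _ => gatB71 x) (fun _ => gatB81 x) (datB00 x) (datB12 x) (fun _ => datB71 x) (fun _ => datB81 x) hd hx hx' CW.B012R_017
  · intro ρ a B hρ hd i h1 h2
    fin_cases i
    · exact absurd h1 (by norm_num)
    · exact absurd h1 (by norm_num)
    · exact absurd h1 (by norm_num)
    · exact absurd h1 (by norm_num)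
    · exact corT_cert (G1 := gB0q0) (G2 := gB1q2) (Ga := gB4q1) (Gb := gB5q1) cB012R_ok B hρ (gatB00 x) (gatB12 x) (fun h => absurd h (by decide)) (fun _ => gatB51 x) hd hx hx' CG.B012R_014
    · exact corT_cert (G1 := gB0q0) (G2 := gB1q2) (Ga := gB5q1) (Gb := gB6q1) cB012R_ok B hρ (gatB00 x) (gatB12 x) (fun _ => gatB51 x) (fun _ => gatB61 x) hd hx hx' CG.B012R_015
    · exact corT_cert (G1 := gB0q0) (G2 := gB1q2) (Ga := gB6q1) (Gb := gB7q1) cB012R_ok B hρ (gatB00 x) (gatB12 x) (fun _ => gatB61 x) (fun _ => gatB71 x) hd hx hx' CG.B012R_016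
    · exact corT_cert (G1 := gB0q0) (G2 := gB1q2) (Ga := gB7q1) (Gb := gB8q1) cB012R_ok B hρ (gatB00 x) (gatB12 x) (fun _ => gatB71 x) (fun _ => gatB81 x) hd hx hx' CG.B012R_017

theorem altB_B012R_02 {κ x : ℝ} (hκ : κ * h0 = ken x) (hx : ((649613803 : ℕ) : ℝ) / S ≤ x) (hx' : x ≤ (((649613803 : ℕ) : ℝ) + (48318383 : ℕ)) / S) :
    AltEB 3 κ (eng.v x) (3 / 40) (tnt (h0 * x) (3 / 10)) PP tK tL tC pcB (scP esg pd) [⟨0, 0, 0, 67108864⟩, ⟨1, 1, 0, 67108864⟩, ⟨2, 1, 0, 67108864⟩] 0 1 2 0 2 (sgb true) (sgb false) x := by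
  have X : XR 67108864 x := XR.of hx hx' (by norm_num) (by norm_num) (by norm_num) (by norm_num)
  have hen : 0 < eng.v x := en_pos X.x0.le
  refine CornW.altB (C := cB012R) (j := (0 : Fin 9)) (k := (2 : Fin 9)) (Ef := esg) (pd := pd) (o := 3 / 40)
    (cornW_of (C := cB012R) (C0 := c0B) (En := eng) (mo := mog) (j := (0 : Fin 9)) (k := (2 : Fin 9)) (lo := 5) (hi := 8) (W := 67108864) (N0 := 3) cB012R_q (sideB hx hx') gokB (pinU hx hx') dokB X (by norm_num) (by norm_num) (l := (5 : Fin 9)) rfl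
      (gatB00 x) (gatB22 x) (gatB51 x) (datB00 x) (datB22 x) (datB51 x) ?_)
    (cornS_of (C := cB012R) (C0 := c0B) (j := (0 : Fin 9)) (k := (2 : Fin 9)) (lo := 5) (hi := 8) (W := 67108864) (N0 := 3) cB012R_q (sideB hx hx') gokB X (by norm_num) (by norm_num) (l := (5 : Fin 9)) rfl
      (gatB00 x) (gatB22 x) (gatB51 x) ?_)
    (thU (pinU hx hx')) rfl hκ (fun j q y => tC_eq j q y x) (esg_rng X.x0.le (by linarith [X.b, X.p0])).1 (mo_v x) le_rfl le_rfl
  · intro ρ a B hρ hd i h1 h2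
    fin_cases i
    · exact absurd h1 (by norm_num)
    · exact absurd h1 (by norm_num)
    · exact absurd h1 (by norm_num)
    · exact absurd h1 (by norm_num)
    · exact corW_cert (G1 := gB0q0) (G2 := gB2q2) (Ga := gB4q1) (Gb := gB5q1) (D1 := dB0q0) (D2 := dB2q2) (Da := dB4q1) (Db := dB5q1) cB012R_ok B hρ hen (gatB00 x) (gatB22 x) (fun h => absurd h (by decide)) (fun _ => gatB51 x) (datB00 x) (datB22 x) (fun h => absurd h (by decide)) (fun _ => datB51 x) hd hx hx' CW.B012R_024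
    · exact corW_cert (G1 := gB0q0) (G2 := gB2q2) (Ga := gB5q1) (Gb := gB6q1) (D1 := dB0q0) (D2 := dB2q2) (Da := dB5q1) (Db := dB6q1) cB012R_ok B hρ hen (gatB00 x) (gatB22 x) (fun _ => gatB51 x) (fun _ => gatB61 x) (datB00 x) (datB22 x) (fun _ => datB51 x) (fun _ => datB61 x) hd hx hx' CW.B012R_025
    · exact corW_cert (G1 := gB0q0) (G2 := gB2q2) (Ga := gB6q1) (Gb := gB7q1) (D1 := dB0q0) (D2 := dB2q2) (Da := dB6q1) (Db := dB7q1) cB012R_ok B hρ hen (gatB00 x) (gatB22 x) (fun _ => gatB61 x) (fun _ => gatB71 x) (datB00 x) (datB22 x) (fun _ => datB61 x) (fun _ => datB71 x) hd hx hx' CW.B012R_026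
    · exact corW_cert (G1 := gB0q0) (G2 := gB2q2) (Ga := gB7q1) (Gb := gB8q1) (D1 := dB0q0) (D2 := dB2q2) (Da := dB7q1) (Db := dB8q1) cB012R_ok B hρ hen (gatB00 x) (gatB22 x) (fun _ => gatB71 x) (fun _ => gatB81 x) (datB00 x) (datB22 x) (fun _ => datB71 x) (fun _ => datB81 x) hd hx hx' CW.B012R_027
  · intro ρ a B hρ hd i h1 h2
    fin_cases i
    · exact absurd h1 (by norm_num)
    · exact absurd h1 (by norm_num)
    · exact absurd h1 (by norm_num)
    · exact absurd h1 (by norm_num)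
    · exact corT_cert (G1 := gB0q0) (G2 := gB2q2) (Ga := gB4q1) (Gb := gB5q1) cB012R_ok B hρ (gatB00 x) (gatB22 x) (fun h => absurd h (by decide)) (fun _ => gatB51 x) hd hx hx' CG.B012R_024
    · exact corT_cert (G1 := gB0q0) (G2 := gB2q2) (Ga := gB5q1) (Gb := gB6q1) cB012R_ok B hρ (gatB00 x) (gatB22 x) (fun _ => gatB51 x) (fun _ => gatB61 x) hd hx hx' CG.B012R_025
    · exact corT_cert (G1 := gB0q0) (G2 := gB2q2) (Ga := gB6q1) (Gb := gB7q1) cB012R_ok B hρ (gatB00 x) (gatB22 x) (fun _ => gatB61 x) (fun _ => gatB71 x) hd hx hx' CG.B012R_026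
    · exact corT_cert (G1 := gB0q0) (G2 := gB2q2) (Ga := gB7q1) (Gb := gB8q1) cB012R_ok B hρ (gatB00 x) (gatB22 x) (fun _ => gatB71 x) (fun _ => gatB81 x) hd hx hx' CG.B012R_027

theorem altB_B012R_03 {κ x : ℝ} (hκ : κ * h0 = ken x) (hx : ((649613803 : ℕ) : ℝ) / S ≤ x) (hx' : x ≤ (((649613803 : ℕ) : ℝ) + (48318383 : ℕ)) / S) :
    AltEB 3 κ (eng.v x) (3 / 40) (tnt (h0 * x) (3 / 10)) PP tK tL tC pcB (scP esg pd) [⟨0, 0, 0, 67108864⟩, ⟨1, 1, 0, 67108864⟩, ⟨2, 1, 0, 67108864⟩] 0 1 2 0 3 (sgb true) (sgb false) x := by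
  have X : XR 67108864 x := XR.of hx hx' (by norm_num) (by norm_num) (by norm_num) (by norm_num)
  have hen : 0 < eng.v x := en_pos X.x0.le
  refine CornW.altB (C := cB012R) (j := (0 : Fin 9)) (k := (3 : Fin 9)) (Ef := esg) (pd := pd) (o := 3 / 40)
    (cornW_of (C := cB012R) (C0 := c0B) (En := eng) (mo := mog) (j := (0 : Fin 9)) (k := (3 : Fin 9)) (lo := 5) (hi := 8) (W := 67108864) (N0 := 3) cB012R_q (sideB hx hx') gokB (pinU hx hx') dokB X (by norm_num) (by norm_num) (l := (5 : Fin 9)) rfl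
      (gatB00 x) (gatB32 x) (gatB51 x) (datB00 x) (datB32 x) (datB51 x) ?_)
    (cornS_of (C := cB012R) (C0 := c0B) (j := (0 : Fin 9)) (k := (3 : Fin 9)) (lo := 5) (hi := 8) (W := 67108864) (N0 := 3) cB012R_q (sideB hx hx') gokB X (by norm_num) (by norm_num) (l := (5 : Fin 9)) rfl
      (gatB00 x) (gatB32 x) (gatB51 x) ?_)
    (thU (pinU hx hx')) rfl hκ (fun j q y => tC_eq j q y x) (esg_rng X.x0.le (by linarith [X.b, X.p0])).1 (mo_v x) le_rfl le_rfl
  · intro ρ a B hρ hd i h1 h2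
    fin_cases i
    · exact absurd h1 (by norm_num)
    · exact absurd h1 (by norm_num)
    · exact absurd h1 (by norm_num)
    · exact absurd h1 (by norm_num)
    · exact corW_cert (G1 := gB0q0) (G2 := gB3q2) (Ga := gB4q1) (Gb := gB5q1) (D1 := dB0q0) (D2 := dB3q2) (Da := dB4q1) (Db := dB5q1) cB012R_ok B hρ hen (gatB00 x) (gatB32 x) (fun h => absurd h (by decide)) (fun _ => gatB51 x) (datB00 x) (datB32 x) (fun h => absurd h (by decide)) (fun _ => datB51 x) hd hx hx' CW.B012R_034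
    · exact corW_cert (G1 := gB0q0) (G2 := gB3q2) (Ga := gB5q1) (Gb := gB6q1) (D1 := dB0q0) (D2 := dB3q2) (Da := dB5q1) (Db := dB6q1) cB012R_ok B hρ hen (gatB00 x) (gatB32 x) (fun _ => gatB51 x) (fun _ => gatB61 x) (datB00 x) (datB32 x) (fun _ => datB51 x) (fun _ => datB61 x) hd hx hx' CW.B012R_035
    · exact corW_cert (G1 := gB0q0) (G2 := gB3q2) (Ga := gB6q1) (Gb := gB7q1) (D1 := dB0q0) (D2 := dB3q2) (Da := dB6q1) (Db := dB7q1) cB012R_ok B hρ hen (gatB00 x) (gatB32 x) (fun _ => gatB61 x) (fun _ => gatB71 x) (datB00 x) (datB32 x) (fun _ => datB61 x) (fun _ => datB71 x) hd hx hx' CW.B012R_036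
    · exact corW_cert (G1 := gB0q0) (G2 := gB3q2) (Ga := gB7q1) (Gb := gB8q1) (D1 := dB0q0) (D2 := dB3q2) (Da := dB7q1) (Db := dB8q1) cB012R_ok B hρ hen (gatB00 x) (gatB32 x) (fun _ => gatB71 x) (fun _ => gatB81 x) (datB00 x) (datB32 x) (fun _ => datB71 x) (fun _ => datB81 x) hd hx hx' CW.B012R_037
  · intro ρ a B hρ hd i h1 h2
    fin_cases i
    · exact absurd h1 (by norm_num)
    · exact absurd h1 (by norm_num)
    · exact absurd h1 (by norm_num)
    · exact absurd h1 (by norm_num)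
    · exact corT_cert (G1 := gB0q0) (G2 := gB3q2) (Ga := gB4q1) (Gb := gB5q1) cB012R_ok B hρ (gatB00 x) (gatB32 x) (fun h => absurd h (by decide)) (fun _ => gatB51 x) hd hx hx' CG.B012R_034
    · exact corT_cert (G1 := gB0q0) (G2 := gB3q2) (Ga := gB5q1) (Gb := gB6q1) cB012R_ok B hρ (gatB00 x) (gatB32 x) (fun _ => gatB51 x) (fun _ => gatB61 x) hd hx hx' CG.B012R_035
    · exact corT_cert (G1 := gB0q0) (G2 := gB3q2) (Ga := gB6q1) (Gb := gB7q1) cB012R_ok B hρ (gatB00 x) (gatB32 x) (fun _ => gatB61 x) (fun _ => gatB71 x) hd hx hx' CG.B012R_036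
    · exact corT_cert (G1 := gB0q0) (G2 := gB3q2) (Ga := gB7q1) (Gb := gB8q1) cB012R_ok B hρ (gatB00 x) (gatB32 x) (fun _ => gatB71 x) (fun _ => gatB81 x) hd hx hx' CG.B012R_037

theorem altB_B012R_04 {κ x : ℝ} (hκ : κ * h0 = ken x) (hx : ((649613803 : ℕ) : ℝ) / S ≤ x) (hx' : x ≤ (((649613803 : ℕ) : ℝ) + (48318383 : ℕ)) / S) :
    AltEB 3 κ (eng.v x) (3 / 40) (tnt (h0 * x) (3 / 10)) PP tK tL tC pcB (scP esg pd) [⟨0, 0, 0, 67108864⟩, ⟨1, 1, 0, 67108864⟩, ⟨2, 1, 0, 67108864⟩] 0 1 2 0 4 (sgb true) (sgb false) x := by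
  have X : XR 67108864 x := XR.of hx hx' (by norm_num) (by norm_num) (by norm_num) (by norm_num)
  have hen : 0 < eng.v x := en_pos X.x0.le
  refine CornW.altB (C := cB012R) (j := (0 : Fin 9)) (k := (4 : Fin 9)) (Ef := esg) (pd := pd) (o := 3 / 40)
    (cornW_of (C := cB012R) (C0 := c0B) (En := eng) (mo := mog) (j := (0 : Fin 9)) (k := (4 : Fin 9)) (lo := 5) (hi := 8) (W := 67108864) (N0 := 3) cB012R_q (sideB hx hx') gokB (pinU hx hx') dokB X (by norm_num) (by norm_num) (l := (5 : Fin 9)) rfl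
      (gatB00 x) (gatB42 x) (gatB51 x) (datB00 x) (datB42 x) (datB51 x) ?_)
    (cornS_of (C := cB012R) (C0 := c0B) (j := (0 : Fin 9)) (k := (4 : Fin 9)) (lo := 5) (hi := 8) (W := 67108864) (N0 := 3) cB012R_q (sideB hx hx') gokB X (by norm_num) (by norm_num) (l := (5 : Fin 9)) rfl
      (gatB00 x) (gatB42 x) (gatB51 x) ?_)
    (thU (pinU hx hx')) rfl hκ (fun j q y => tC_eq j q y x) (esg_rng X.x0.le (by linarith [X.b, X.p0])).1 (mo_v x) le_rfl le_rfl
  · intro ρ a B hρ hd i h1 h2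
    fin_cases i
    · exact absurd h1 (by norm_num)
    · exact absurd h1 (by norm_num)
    · exact absurd h1 (by norm_num)
    · exact absurd h1 (by norm_num)
    · exact corW_cert (G1 := gB0q0) (G2 := gB4q2) (Ga := gB4q1) (Gb := gB5q1) (D1 := dB0q0) (D2 := dB4q2) (Da := dB4q1) (Db := dB5q1) cB012R_ok B hρ hen (gatB00 x) (gatB42 x) (fun h => absurd h (by decide)) (fun _ => gatB51 x) (datB00 x) (datB42 x) (fun h => absurd h (by decide)) (fun _ => datB51 x) hd hx hx' CW.B012R_044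
    · exact corW_cert (G1 := gB0q0) (G2 := gB4q2) (Ga := gB5q1) (Gb := gB6q1) (D1 := dB0q0) (D2 := dB4q2) (Da := dB5q1) (Db := dB6q1) cB012R_ok B hρ hen (gatB00 x) (gatB42 x) (fun _ => gatB51 x) (fun _ => gatB61 x) (datB00 x) (datB42 x) (fun _ => datB51 x) (fun _ => datB61 x) hd hx hx' CW.B012R_045
    · exact corW_cert (G1 := gB0q0) (G2 := gB4q2) (Ga := gB6q1) (Gb := gB7q1) (D1 := dB0q0) (D2 := dB4q2) (Da := dB6q1) (Db := dB7q1) cB012R_ok B hρ hen (gatB00 x) (gatB42 x) (fun _ => gatB61 x) (fun _ => gatB71 x) (datB00 x) (datB42 x) (fun _ => datB61 x) (fun _ => datB71 x) hd hx hx' CW.B012R_046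
    · exact corW_cert (G1 := gB0q0) (G2 := gB4q2) (Ga := gB7q1) (Gb := gB8q1) (D1 := dB0q0) (D2 := dB4q2) (Da := dB7q1) (Db := dB8q1) cB012R_ok B hρ hen (gatB00 x) (gatB42 x) (fun _ => gatB71 x) (fun _ => gatB81 x) (datB00 x) (datB42 x) (fun _ => datB71 x) (fun _ => datB81 x) hd hx hx' CW.B012R_047
  · intro ρ a B hρ hd i h1 h2
    fin_cases i
    · exact absurd h1 (by norm_num)
    · exact absurd h1 (by norm_num)
    · exact absurd h1 (by norm_num)
    · exact absurd h1 (by norm_num)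
    · exact corT_cert (G1 := gB0q0) (G2 := gB4q2) (Ga := gB4q1) (Gb := gB5q1) cB012R_ok B hρ (gatB00 x) (gatB42 x) (fun h => absurd h (by decide)) (fun _ => gatB51 x) hd hx hx' CG.B012R_044
    · exact corT_cert (G1 := gB0q0) (G2 := gB4q2) (Ga := gB5q1) (Gb := gB6q1) cB012R_ok B hρ (gatB00 x) (gatB42 x) (fun _ => gatB51 x) (fun _ => gatB61 x) hd hx hx' CG.B012R_045
    · exact corT_cert (G1 := gB0q0) (G2 := gB4q2) (Ga := gB6q1) (Gb := gB7q1) cB012R_ok B hρ (gatB00 x) (gatB42 x) (fun _ => gatB61 x) (fun _ => gatB71 x) hd hx hx' CG.B012R_046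
    · exact corT_cert (G1 := gB0q0) (G2 := gB4q2) (Ga := gB7q1) (Gb := gB8q1) cB012R_ok B hρ (gatB00 x) (gatB42 x) (fun _ => gatB71 x) (fun _ => gatB81 x) hd hx hx' CG.B012R_047

theorem altB_B012R_10 {κ x : ℝ} (hκ : κ * h0 = ken x) (hx : ((649613803 : ℕ) : ℝ) / S ≤ x) (hx' : x ≤ (((649613803 : ℕ) : ℝ) + (48318383 : ℕ)) / S) :
    AltEB 3 κ (eng.v x) (3 / 40) (tnt (h0 * x) (3 / 10)) PP tK tL tC pcB (scP esg pd) [⟨0, 0, 0, 67108864⟩, ⟨1, 1, 0, 67108864⟩, ⟨2, 1, 0, 67108864⟩] 0 1 2 1 0 (sgb true) (sgb false) x := by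
  have X : XR 67108864 x := XR.of hx hx' (by norm_num) (by norm_num) (by norm_num) (by norm_num)
  have hen : 0 < eng.v x := en_pos X.x0.le
  refine CornW.altB (C := cB012R) (j := (1 : Fin 9)) (k := (0 : Fin 9)) (Ef := esg) (pd := pd) (o := 3 / 40)
    (cornW_of (C := cB012R) (C0 := c0B) (En := eng) (mo := mog) (j := (1 : Fin 9)) (k := (0 : Fin 9)) (lo := 5) (hi := 8) (W := 67108864) (N0 := 3) cB012R_q (sideB hx hx') gokB (pinU hx hx') dokB X (by norm_num) (by norm_num) (l := (5 : Fin 9)) rfl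
      (gatB10 x) (gatB02 x) (gatB51 x) (datB10 x) (datB02 x) (datB51 x) ?_)
    (cornS_of (C := cB012R) (C0 := c0B) (j := (1 : Fin 9)) (k := (0 : Fin 9)) (lo := 5) (hi := 8) (W := 67108864) (N0 := 3) cB012R_q (sideB hx hx') gokB X (by norm_num) (by norm_num) (l := (5 : Fin 9)) rfl
      (gatB10 x) (gatB02 x) (gatB51 x) ?_)
    (thU (pinU hx hx')) rfl hκ (fun j q y => tC_eq j q y x) (esg_rng X.x0.le (by linarith [X.b, X.p0])).1 (mo_v x) le_rfl le_rfl
  · intro ρ a B hρ hd i h1 h2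
    fin_cases i
    · exact absurd h1 (by norm_num)
    · exact absurd h1 (by norm_num)
    · exact absurd h1 (by norm_num)
    · exact absurd h1 (by norm_num)
    · exact corW_cert (G1 := gB1q0) (G2 := gB0q2) (Ga := gB4q1) (Gb := gB5q1) (D1 := dB1q0) (D2 := dB0q2) (Da := dB4q1) (Db := dB5q1) cB012R_ok B hρ hen (gatB10 x) (gatB02 x) (fun h => absurd h (by decide)) (fun _ => gatB51 x) (datB10 x) (datB02 x) (fun h => absurd h (by decide)) (fun _ => datB51 x) hd hx hx' CW.B012R_104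
    · exact corW_cert (G1 := gB1q0) (G2 := gB0q2) (Ga := gB5q1) (Gb := gB6q1) (D1 := dB1q0) (D2 := dB0q2) (Da := dB5q1) (Db := dB6q1) cB012R_ok B hρ hen (gatB10 x) (gatB02 x) (fun _ => gatB51 x) (fun _ => gatB61 x) (datB10 x) (datB02 x) (fun _ => datB51 x) (fun _ => datB61 x) hd hx hx' CW.B012R_105
    · exact corW_cert (G1 := gB1q0) (G2 := gB0q2) (Ga := gB6q1) (Gb := gB7q1) (D1 := dB1q0) (D2 := dB0q2) (Da := dB6q1) (Db := dB7q1) cB012R_ok B hρ hen (gatB10 x) (gatB02 x) (fun _ => gatB61 x) (fun _ => gatB71 x) (datB10 x) (datB02 x) (fun _ => datB61 x) (fun _ => datB71 x) hd hx hx' CW.B012R_106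
    · exact corW_cert (G1 := gB1q0) (G2 := gB0q2) (Ga := gB7q1) (Gb := gB8q1) (D1 := dB1q0) (D2 := dB0q2) (Da := dB7q1) (Db := dB8q1) cB012R_ok B hρ hen (gatB10 x) (gatB02 x) (fun _ => gatB71 x) (fun _ => gatB81 x) (datB10 x) (datB02 x) (fun _ => datB71 x) (fun _ => datB81 x) hd hx hx' CW.B012R_107
  · intro ρ a B hρ hd i h1 h2
    fin_cases i
    · exact absurd h1 (by norm_num)
    · exact absurd h1 (by norm_num)
    · exact absurd h1 (by norm_num)
    · exact absurd h1 (by norm_num)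
    · exact corT_cert (G1 := gB1q0) (G2 := gB0q2) (Ga := gB4q1) (Gb := gB5q1) cB012R_ok B hρ (gatB10 x) (gatB02 x) (fun h => absurd h (by decide)) (fun _ => gatB51 x) hd hx hx' CG.B012R_104
    · exact corT_cert (G1 := gB1q0) (G2 := gB0q2) (Ga := gB5q1) (Gb := gB6q1) cB012R_ok B hρ (gatB10 x) (gatB02 x) (fun _ => gatB51 x) (fun _ => gatB61 x) hd hx hx' CG.B012R_105
    · exact corT_cert (G1 := gB1q0) (G2 := gB0q2) (Ga := gB6q1) (Gb := gB7q1) cB012R_ok B hρ (gatB10 x) (gatB02 x) (fun _ => gatB61 x) (fun _ => gatB71 x) hd hx hx' CG.B012R_106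
    · exact corT_cert (G1 := gB1q0) (G2 := gB0q2) (Ga := gB7q1) (Gb := gB8q1) cB012R_ok B hρ (gatB10 x) (gatB02 x) (fun _ => gatB71 x) (fun _ => gatB81 x) hd hx hx' CG.B012R_107

theorem altB_B012R_11 {κ x : ℝ} (hκ : κ * h0 = ken x) (hx : ((649613803 : ℕ) : ℝ) / S ≤ x) (hx' : x ≤ (((649613803 : ℕ) : ℝ) + (48318383 : ℕ)) / S) :
    AltEB 3 κ (eng.v x) (3 / 40) (tnt (h0 * x) (3 / 10)) PP tK tL tC pcB (scP esg pd) [⟨0, 0, 0, 67108864⟩, ⟨1, 1, 0, 67108864⟩, ⟨2, 1, 0, 67108864⟩] 0 1 2 1 1 (sgb true) (sgb false) x := by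
  have X : XR 67108864 x := XR.of hx hx' (by norm_num) (by norm_num) (by norm_num) (by norm_num)
  have hen : 0 < eng.v x := en_pos X.x0.le
  refine CornW.altB (C := cB012R) (j := (1 : Fin 9)) (k := (1 : Fin 9)) (Ef := esg) (pd := pd) (o := 3 / 40)
    (cornW_of (C := cB012R) (C0 := c0B) (En := eng) (mo := mog) (j := (1 : Fin 9)) (k := (1 : Fin 9)) (lo := 5) (hi := 8) (W := 67108864) (N0 := 3) cB012R_q (sideB hx hx') gokB (pinU hx hx') dokB X (by norm_num) (by norm_num) (l := (5 : Fin 9)) rfl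
      (gatB10 x) (gatB12 x) (gatB51 x) (datB10 x) (datB12 x) (datB51 x) ?_)
    (cornS_of (C := cB012R) (C0 := c0B) (j := (1 : Fin 9)) (k := (1 : Fin 9)) (lo := 5) (hi := 8) (W := 67108864) (N0 := 3) cB012R_q (sideB hx hx') gokB X (by norm_num) (by norm_num) (l := (5 : Fin 9)) rfl
      (gatB10 x) (gatB12 x) (gatB51 x) ?_)
    (thU (pinU hx hx')) rfl hκ (fun j q y => tC_eq j q y x) (esg_rng X.x0.le (by linarith [X.b, X.p0])).1 (mo_v x) le_rfl le_rfl
  · intro ρ a B hρ hd i h1 h2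
    fin_cases i
    · exact absurd h1 (by norm_num)
    · exact absurd h1 (by norm_num)
    · exact absurd h1 (by norm_num)
    · exact absurd h1 (by norm_num)
    · exact corW_cert (G1 := gB1q0) (G2 := gB1q2) (Ga := gB4q1) (Gb := gB5q1) (D1 := dB1q0) (D2 := dB1q2) (Da := dB4q1) (Db := dB5q1) cB012R_ok B hρ hen (gatB10 x) (gatB12 x) (fun h => absurd h (by decide)) (fun _ => gatB51 x) (datB10 x) (datB12 x) (fun h => absurd h (by decide)) (fun _ => datB51 x) hd hx hx' CW.B012R_114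
    · exact corW_cert (G1 := gB1q0) (G2 := gB1q2) (Ga := gB5q1) (Gb := gB6q1) (D1 := dB1q0) (D2 := dB1q2) (Da := dB5q1) (Db := dB6q1) cB012R_ok B hρ hen (gatB10 x) (gatB12 x) (fun _ => gatB51 x) (fun _ => gatB61 x) (datB10 x) (datB12 x) (fun _ => datB51 x) (fun _ => datB61 x) hd hx hx' CW.B012R_115
    · exact corW_cert (G1 := gB1q0) (G2 := gB1q2) (Ga := gB6q1) (Gb := gB7q1) (D1 := dB1q0) (D2 := dB1q2) (Da := dB6q1) (Db := dB7q1) cB012R_ok B hρ hen (gatB10 x) (gatB12 x) (fun _ => gatB61 x) (fun _ => gatB71 x) (datB10 x) (datB12 x) (fun _ => datB61 x) (fun _ => datB71 x) hd hx hx' CW.B012R_116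
    · exact corW_cert (G1 := gB1q0) (G2 := gB1q2) (Ga := gB7q1) (Gb := gB8q1) (D1 := dB1q0) (D2 := dB1q2) (Da := dB7q1) (Db := dB8q1) cB012R_ok B hρ hen (gatB10 x) (gatB12 x) (fun _ => gatB71 x) (fun _ => gatB81 x) (datB10 x) (datB12 x) (fun _ => datB71 x) (fun _ => datB81 x) hd hx hx' CW.B012R_117
  · intro ρ a B hρ hd i h1 h2
    fin_cases i
    · exact absurd h1 (by norm_num)
    · exact absurd h1 (by norm_num)
    · exact absurd h1 (by norm_num)
    · exact absurd h1 (by norm_num)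
    · exact corT_cert (G1 := gB1q0) (G2 := gB1q2) (Ga := gB4q1) (Gb := gB5q1) cB012R_ok B hρ (gatB10 x) (gatB12 x) (fun h => absurd h (by decide)) (fun _ => gatB51 x) hd hx hx' CG.B012R_114
    · exact corT_cert (G1 := gB1q0) (G2 := gB1q2) (Ga := gB5q1) (Gb := gB6q1) cB012R_ok B hρ (gatB10 x) (gatB12 x) (fun _ => gatB51 x) (fun _ => gatB61 x) hd hx hx' CG.B012R_115
    · exact corT_cert (G1 := gB1q0) (G2 := gB1q2) (Ga := gB6q1) (Gb := gB7q1) cB012R_ok B hρ (gatB10 x) (gatB12 x) (fun _ => gatB61 x) (fun _ => gatB71 x) hd hx hx' CG.B012R_116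
    · exact corT_cert (G1 := gB1q0) (G2 := gB1q2) (Ga := gB7q1) (Gb := gB8q1) cB012R_ok B hρ (gatB10 x) (gatB12 x) (fun _ => gatB71 x) (fun _ => gatB81 x) hd hx hx' CG.B012R_117

theorem altB_B012R_12 {κ x : ℝ} (hκ : κ * h0 = ken x) (hx : ((649613803 : ℕ) : ℝ) / S ≤ x) (hx' : x ≤ (((649613803 : ℕ) : ℝ) + (48318383 : ℕ)) / S) :
    AltEB 3 κ (eng.v x) (3 / 40) (tnt (h0 * x) (3 / 10)) PP tK tL tC pcB (scP esg pd) [⟨0, 0, 0, 67108864⟩, ⟨1, 1, 0, 67108864⟩, ⟨2, 1, 0, 67108864⟩] 0 1 2 1 2 (sgb true) (sgb false) x := by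
  have X : XR 67108864 x := XR.of hx hx' (by norm_num) (by norm_num) (by norm_num) (by norm_num)
  have hen : 0 < eng.v x := en_pos X.x0.le
  refine CornW.altB (C := cB012R) (j := (1 : Fin 9)) (k := (2 : Fin 9)) (Ef := esg) (pd := pd) (o := 3 / 40)
    (cornW_of (C := cB012R) (C0 := c0B) (En := eng) (mo := mog) (j := (1 : Fin 9)) (k := (2 : Fin 9)) (lo := 5) (hi := 8) (W := 67108864) (N0 := 3) cB012R_q (sideB hx hx') gokB (pinU hx hx') dokB X (by norm_num) (by norm_num) (l := (5 : Fin 9)) rfl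
      (gatB10 x) (gatB22 x) (gatB51 x) (datB10 x) (datB22 x) (datB51 x) ?_)
    (cornS_of (C := cB012R) (C0 := c0B) (j := (1 : Fin 9)) (k := (2 : Fin 9)) (lo := 5) (hi := 8) (W := 67108864) (N0 := 3) cB012R_q (sideB hx hx') gokB X (by norm_num) (by norm_num) (l := (5 : Fin 9)) rfl
      (gatB10 x) (gatB22 x) (gatB51 x) ?_)
    (thU (pinU hx hx')) rfl hκ (fun j q y => tC_eq j q y x) (esg_rng X.x0.le (by linarith [X.b, X.p0])).1 (mo_v x) le_rfl le_rfl
  · intro ρ a B hρ hd i h1 h2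
    fin_cases i
    · exact absurd h1 (by norm_num)
    · exact absurd h1 (by norm_num)
    · exact absurd h1 (by norm_num)
    · exact absurd h1 (by norm_num)
    · exact corW_cert (G1 := gB1q0) (G2 := gB2q2) (Ga := gB4q1) (Gb := gB5q1) (D1 := dB1q0) (D2 := dB2q2) (Da := dB4q1) (Db := dB5q1) cB012R_ok B hρ hen (gatB10 x) (gatB22 x) (fun h => absurd h (by decide)) (fun _ => gatB51 x) (datB10 x) (datB22 x) (fun h => absurd h (by decide)) (fun _ => datB51 x) hd hx hx' CW.B012R_124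
    · exact corW_cert (G1 := gB1q0) (G2 := gB2q2) (Ga := gB5q1) (Gb := gB6q1) (D1 := dB1q0) (D2 := dB2q2) (Da := dB5q1) (Db := dB6q1) cB012R_ok B hρ hen (gatB10 x) (gatB22 x) (fun _ => gatB51 x) (fun _ => gatB61 x) (datB10 x) (datB22 x) (fun _ => datB51 x) (fun _ => datB61 x) hd hx hx' CW.B012R_125
    · exact corW_cert (G1 := gB1q0) (G2 := gB2q2) (Ga := gB6q1) (Gb := gB7q1) (D1 := dB1q0) (D2 := dB2q2) (Da := dB6q1) (Db := dB7q1) cB012R_ok B hρ hen (gatB10 x) (gatB22 x) (fun _ => gatB61 x) (fun _ => gatB71 x) (datB10 x) (datB22 x) (fun _ => datB61 x) (fun _ => datB71 x) hd hx hx' CW.B012R_126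
    · exact corW_cert (G1 := gB1q0) (G2 := gB2q2) (Ga := gB7q1) (Gb := gB8q1) (D1 := dB1q0) (D2 := dB2q2) (Da := dB7q1) (Db := dB8q1) cB012R_ok B hρ hen (gatB10 x) (gatB22 x) (fun _ => gatB71 x) (fun _ => gatB81 x) (datB10 x) (datB22 x) (fun _ => datB71 x) (fun _ => datB81 x) hd hx hx' CW.B012R_127
  · intro ρ a B hρ hd i h1 h2
    fin_cases i
    · exact absurd h1 (by norm_num)
    · exact absurd h1 (by norm_num)
    · exact absurd h1 (by norm_num)
    · exact absurd h1 (by norm_num)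
    · exact corT_cert (G1 := gB1q0) (G2 := gB2q2) (Ga := gB4q1) (Gb := gB5q1) cB012R_ok B hρ (gatB10 x) (gatB22 x) (fun h => absurd h (by decide)) (fun _ => gatB51 x) hd hx hx' CG.B012R_124
    · exact corT_cert (G1 := gB1q0) (G2 := gB2q2) (Ga := gB5q1) (Gb := gB6q1) cB012R_ok B hρ (gatB10 x) (gatB22 x) (fun _ => gatB51 x) (fun _ => gatB61 x) hd hx hx' CG.B012R_125
    · exact corT_cert (G1 := gB1q0) (G2 := gB2q2) (Ga := gB6q1) (Gb := gB7q1) cB012R_ok B hρ (gatB10 x) (gatB22 x) (fun _ => gatB61 x) (fun _ => gatB71 x) hd hx hx' CG.B012R_126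
    · exact corT_cert (G1 := gB1q0) (G2 := gB2q2) (Ga := gB7q1) (Gb := gB8q1) cB012R_ok B hρ (gatB10 x) (gatB22 x) (fun _ => gatB71 x) (fun _ => gatB81 x) hd hx hx' CG.B012R_127

theorem altB_B012R_13 {κ x : ℝ} (hκ : κ * h0 = ken x) (hx : ((649613803 : ℕ) : ℝ) / S ≤ x) (hx' : x ≤ (((649613803 : ℕ) : ℝ) + (48318383 : ℕ)) / S) :
    AltEB 3 κ (eng.v x) (3 / 40) (tnt (h0 * x) (3 / 10)) PP tK tL tC pcB (scP esg pd) [⟨0, 0, 0, 67108864⟩, ⟨1, 1, 0, 67108864⟩, ⟨2, 1, 0, 67108864⟩] 0 1 2 1 3 (sgb true) (sgb false) x := by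
  have X : XR 67108864 x := XR.of hx hx' (by norm_num) (by norm_num) (by norm_num) (by norm_num)
  have hen : 0 < eng.v x := en_pos X.x0.le
  refine CornW.altB (C := cB012R) (j := (1 : Fin 9)) (k := (3 : Fin 9)) (Ef := esg) (pd := pd) (o := 3 / 40)
    (cornW_of (C := cB012R) (C0 := c0B) (En := eng) (mo := mog) (j := (1 : Fin 9)) (k := (3 : Fin 9)) (lo := 5) (hi := 8) (W := 67108864) (N0 := 3) cB012R_q (sideB hx hx') gokB (pinU hx hx') dokB X (by norm_num) (by norm_num) (l := (5 : Fin 9)) rfl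
      (gatB10 x) (gatB32 x) (gatB51 x) (datB10 x) (datB32 x) (datB51 x) ?_)
    (cornS_of (C := cB012R) (C0 := c0B) (j := (1 : Fin 9)) (k := (3 : Fin 9)) (lo := 5) (hi := 8) (W := 67108864) (N0 := 3) cB012R_q (sideB hx hx') gokB X (by norm_num) (by norm_num) (l := (5 : Fin 9)) rfl
      (gatB10 x) (gatB32 x) (gatB51 x) ?_)
    (thU (pinU hx hx')) rfl hκ (fun j q y => tC_eq j q y x) (esg_rng X.x0.le (by linarith [X.b, X.p0])).1 (mo_v x) le_rfl le_rfl
  · intro ρ a B hρ hd i h1 h2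
    fin_cases i
    · exact absurd h1 (by norm_num)
    · exact absurd h1 (by norm_num)
    · exact absurd h1 (by norm_num)
    · exact absurd h1 (by norm_num)
    · exact corW_cert (G1 := gB1q0) (G2 := gB3q2) (Ga := gB4q1) (Gb := gB5q1) (D1 := dB1q0) (D2 := dB3q2) (Da := dB4q1) (Db := dB5q1) cB012R_ok B hρ hen (gatB10 x) (gatB32 x) (fun h => absurd h (by decide)) (fun _ => gatB51 x) (datB10 x) (datB32 x) (fun h => absurd h (by decide)) (fun _ => datB51 x) hd hx hx' CW.B012R_134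
    · exact corW_cert (G1 := gB1q0) (G2 := gB3q2) (Ga := gB5q1) (Gb := gB6q1) (D1 := dB1q0) (D2 := dB3q2) (Da := dB5q1) (Db := dB6q1) cB012R_ok B hρ hen (gatB10 x) (gatB32 x) (fun _ => gatB51 x) (fun _ => gatB61 x) (datB10 x) (datB32 x) (fun _ => datB51 x) (fun _ => datB61 x) hd hx hx' CW.B012R_135
    · exact corW_cert (G1 := gB1q0) (G2 := gB3q2) (Ga := gB6q1) (Gb := gB7q1) (D1 := dB1q0) (D2 := dB3q2) (Da := dB6q1) (Db := dB7q1) cB012R_ok B hρ hen (gatB10 x) (gatB32 x) (fun _ => gatB61 x) (fun _ => gatB71 x) (datB10 x) (datB32 x) (fun _ => datB61 x) (fun _ => datB71 x) hd hx hx' CW.B012R_136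
    · exact corW_cert (G1 := gB1q0) (G2 := gB3q2) (Ga := gB7q1) (Gb := gB8q1) (D1 := dB1q0) (D2 := dB3q2) (Da := dB7q1) (Db := dB8q1) cB012R_ok B hρ hen (gatB10 x) (gatB32 x) (fun _ => gatB71 x) (fun _ => gatB81 x) (datB10 x) (datB32 x) (fun _ => datB71 x) (fun _ => datB81 x) hd hx hx' CW.B012R_137
  · intro ρ a B hρ hd i h1 h2
    fin_cases i
    · exact absurd h1 (by norm_num)
    · exact absurd h1 (by norm_num)
    · exact absurd h1 (by norm_num)
    · exact absurd h1 (by norm_num)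
    · exact corT_cert (G1 := gB1q0) (G2 := gB3q2) (Ga := gB4q1) (Gb := gB5q1) cB012R_ok B hρ (gatB10 x) (gatB32 x) (fun h => absurd h (by decide)) (fun _ => gatB51 x) hd hx hx' CG.B012R_134
    · exact corT_cert (G1 := gB1q0) (G2 := gB3q2) (Ga := gB5q1) (Gb := gB6q1) cB012R_ok B hρ (gatB10 x) (gatB32 x) (fun _ => gatB51 x) (fun _ => gatB61 x) hd hx hx' CG.B012R_135
    · exact corT_cert (G1 := gB1q0) (G2 := gB3q2) (Ga := gB6q1) (Gb := gB7q1) cB012R_ok B hρ (gatB10 x) (gatB32 x) (fun _ => gatB61 x) (fun _ => gatB71 x) hd hx hx' CG.B012R_136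
    · exact corT_cert (G1 := gB1q0) (G2 := gB3q2) (Ga := gB7q1) (Gb := gB8q1) cB012R_ok B hρ (gatB10 x) (gatB32 x) (fun _ => gatB71 x) (fun _ => gatB81 x) hd hx hx' CG.B012R_137

theorem altB_B012R_14 {κ x : ℝ} (hκ : κ * h0 = ken x) (hx : ((649613803 : ℕ) : ℝ) / S ≤ x) (hx' : x ≤ (((649613803 : ℕ) : ℝ) + (48318383 : ℕ)) / S) :
    AltEB 3 κ (eng.v x) (3 / 40) (tnt (h0 * x) (3 / 10)) PP tK tL tC pcB (scP esg pd) [⟨0, 0, 0, 67108864⟩, ⟨1, 1, 0, 67108864⟩, ⟨2, 1, 0, 67108864⟩] 0 1 2 1 4 (sgb true) (sgb false) x := by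
  have X : XR 67108864 x := XR.of hx hx' (by norm_num) (by norm_num) (by norm_num) (by norm_num)
  have hen : 0 < eng.v x := en_pos X.x0.le
  refine CornW.altB (C := cB012R) (j := (1 : Fin 9)) (k := (4 : Fin 9)) (Ef := esg) (pd := pd) (o := 3 / 40)
    (cornW_of (C := cB012R) (C0 := c0B) (En := eng) (mo := mog) (j := (1 : Fin 9)) (k := (4 : Fin 9)) (lo := 5) (hi := 8) (W := 67108864) (N0 := 3) cB012R_q (sideB hx hx') gokB (pinU hx hx') dokB X (by norm_num) (by norm_num) (l := (5 : Fin 9)) rfl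
      (gatB10 x) (gatB42 x) (gatB51 x) (datB10 x) (datB42 x) (datB51 x) ?_)
    (cornS_of (C := cB012R) (C0 := c0B) (j := (1 : Fin 9)) (k := (4 : Fin 9)) (lo := 5) (hi := 8) (W := 67108864) (N0 := 3) cB012R_q (sideB hx hx') gokB X (by norm_num) (by norm_num) (l := (5 : Fin 9)) rfl
      (gatB10 x) (gatB42 x) (gatB51 x) ?_)
    (thU (pinU hx hx')) rfl hκ (fun j q y => tC_eq j q y x) (esg_rng X.x0.le (by linarith [X.b, X.p0])).1 (mo_v x) le_rfl le_rfl
  · intro ρ a B hρ hd i h1 h2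
    fin_cases i
    · exact absurd h1 (by norm_num)
    · exact absurd h1 (by norm_num)
    · exact absurd h1 (by norm_num)
    · exact absurd h1 (by norm_num)
    · exact corW_cert (G1 := gB1q0) (G2 := gB4q2) (Ga := gB4q1) (Gb := gB5q1) (D1 := dB1q0) (D2 := dB4q2) (Da := dB4q1) (Db := dB5q1) cB012R_ok B hρ hen (gatB10 x) (gatB42 x) (fun h => absurd h (by decide)) (fun _ => gatB51 x) (datB10 x) (datB42 x) (fun h => absurd h (by decide)) (fun _ => datB51 x) hd hx hx' CW.B012R_144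
    · exact corW_cert (G1 := gB1q0) (G2 := gB4q2) (Ga := gB5q1) (Gb := gB6q1) (D1 := dB1q0) (D2 := dB4q2) (Da := dB5q1) (Db := dB6q1) cB012R_ok B hρ hen (gatB10 x) (gatB42 x) (fun _ => gatB51 x) (fun _ => gatB61 x) (datB10 x) (datB42 x) (fun _ => datB51 x) (fun _ => datB61 x) hd hx hx' CW.B012R_145
    · exact corW_cert (G1 := gB1q0) (G2 := gB4q2) (Ga := gB6q1) (Gb := gB7q1) (D1 := dB1q0) (D2 := dB4q2) (Da := dB6q1) (Db := dB7q1) cB012R_ok B hρ hen (gatB10 x) (gatB42 x) (fun _ => gatB61 x) (fun _ => gatB71 x) (datB10 x) (datB42 x) (fun _ => datB61 x) (fun _ => datB71 x) hd hx hx' CW.B012R_146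
    · exact corW_cert (G1 := gB1q0) (G2 := gB4q2) (Ga := gB7q1) (Gb := gB8q1) (D1 := dB1q0) (D2 := dB4q2) (Da := dB7q1) (Db := dB8q1) cB012R_ok B hρ hen (gatB10 x) (gatB42 x) (fun _ => gatB71 x) (fun _ => gatB81 x) (datB10 x) (datB42 x) (fun _ => datB71 x) (fun _ => datB81 x) hd hx hx' CW.B012R_147
  · intro ρ a B hρ hd i h1 h2
    fin_cases i
    · exact absurd h1 (by norm_num)
    · exact absurd h1 (by norm_num)
    · exact absurd h1 (by norm_num)
    · exact absurd h1 (by norm_num)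
    · exact corT_cert (G1 := gB1q0) (G2 := gB4q2) (Ga := gB4q1) (Gb := gB5q1) cB012R_ok B hρ (gatB10 x) (gatB42 x) (fun h => absurd h (by decide)) (fun _ => gatB51 x) hd hx hx' CG.B012R_144
    · exact corT_cert (G1 := gB1q0) (G2 := gB4q2) (Ga := gB5q1) (Gb := gB6q1) cB012R_ok B hρ (gatB10 x) (gatB42 x) (fun _ => gatB51 x) (fun _ => gatB61 x) hd hx hx' CG.B012R_145
    · exact corT_cert (G1 := gB1q0) (G2 := gB4q2) (Ga := gB6q1) (Gb := gB7q1) cB012R_ok B hρ (gatB10 x) (gatB42 x) (fun _ => gatB61 x) (fun _ => gatB71 x) hd hx hx' CG.B012R_146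
    · exact corT_cert (G1 := gB1q0) (G2 := gB4q2) (Ga := gB7q1) (Gb := gB8q1) cB012R_ok B hρ (gatB10 x) (gatB42 x) (fun _ => gatB71 x) (fun _ => gatB81 x) hd hx hx' CG.B012R_147

theorem altB_B012R_20 {κ x : ℝ} (hκ : κ * h0 = ken x) (hx : ((649613803 : ℕ) : ℝ) / S ≤ x) (hx' : x ≤ (((649613803 : ℕ) : ℝ) + (48318383 : ℕ)) / S) :
    AltEB 3 κ (eng.v x) (3 / 40) (tnt (h0 * x) (3 / 10)) PP tK tL tC pcB (scP esg pd) [⟨0, 0, 0, 67108864⟩, ⟨1, 1, 0, 67108864⟩, ⟨2, 1, 0, 67108864⟩] 0 1 2 2 0 (sgb true) (sgb false) x := by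
  have X : XR 67108864 x := XR.of hx hx' (by norm_num) (by norm_num) (by norm_num) (by norm_num)
  have hen : 0 < eng.v x := en_pos X.x0.le
  refine CornW.altB (C := cB012R) (j := (2 : Fin 9)) (k := (0 : Fin 9)) (Ef := esg) (pd := pd) (o := 3 / 40)
    (cornW_of (C := cB012R) (C0 := c0B) (En := eng) (mo := mog) (j := (2 : Fin 9)) (k := (0 : Fin 9)) (lo := 5) (hi := 8) (W := 67108864) (N0 := 3) cB012R_q (sideB hx hx') gokB (pinU hx hx') dokB X (by norm_num) (by norm_num) (l := (5 : Fin 9)) rfl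
      (gatB20 x) (gatB02 x) (gatB51 x) (datB20 x) (datB02 x) (datB51 x) ?_)
    (cornS_of (C := cB012R) (C0 := c0B) (j := (2 : Fin 9)) (k := (0 : Fin 9)) (lo := 5) (hi := 8) (W := 67108864) (N0 := 3) cB012R_q (sideB hx hx') gokB X (by norm_num) (by norm_num) (l := (5 : Fin 9)) rfl
      (gatB20 x) (gatB02 x) (gatB51 x) ?_)
    (thU (pinU hx hx')) rfl hκ (fun j q y => tC_eq j q y x) (esg_rng X.x0.le (by linarith [X.b, X.p0])).1 (mo_v x) le_rfl le_rfl
  · intro ρ a B hρ hd i h1 h2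
    fin_cases i
    · exact absurd h1 (by norm_num)
    · exact absurd h1 (by norm_num)
    · exact absurd h1 (by norm_num)
    · exact absurd h1 (by norm_num)
    · exact corW_cert (G1 := gB2q0) (G2 := gB0q2) (Ga := gB4q1) (Gb := gB5q1) (D1 := dB2q0) (D2 := dB0q2) (Da := dB4q1) (Db := dB5q1) cB012R_ok B hρ hen (gatB20 x) (gatB02 x) (fun h => absurd h (by decide)) (fun _ => gatB51 x) (datB20 x) (datB02 x) (fun h => absurd h (by decide)) (fun _ => datB51 x) hd hx hx' CW.B012R_204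
    · exact corW_cert (G1 := gB2q0) (G2 := gB0q2) (Ga := gB5q1) (Gb := gB6q1) (D1 := dB2q0) (D2 := dB0q2) (Da := dB5q1) (Db := dB6q1) cB012R_ok B hρ hen (gatB20 x) (gatB02 x) (fun _ => gatB51 x) (fun _ => gatB61 x) (datB20 x) (datB02 x) (fun _ => datB51 x) (fun _ => datB61 x) hd hx hx' CW.B012R_205
    · exact corW_cert (G1 := gB2q0) (G2 := gB0q2) (Ga := gB6q1) (Gb := gB7q1) (D1 := dB2q0) (D2 := dB0q2) (Da := dB6q1) (Db := dB7q1) cB012R_ok B hρ hen (gatB20 x) (gatB02 x) (fun _ => gatB61 x) (fun _ => gatB71 x) (datB20 x) (datB02 x) (fun _ => datB61 x) (fun _ => datB71 x) hd hx hx' CW.B012R_206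
    · exact corW_cert (G1 := gB2q0) (G2 := gB0q2) (Ga := gB7q1) (Gb := gB8q1) (D1 := dB2q0) (D2 := dB0q2) (Da := dB7q1) (Db := dB8q1) cB012R_ok B hρ hen (gatB20 x) (gatB02 x) (fun _ => gatB71 x) (fun _ => gatB81 x) (datB20 x) (datB02 x) (fun _ => datB71 x) (fun _ => datB81 x) hd hx hx' CW.B012R_207
  · intro ρ a B hρ hd i h1 h2
    fin_cases i
    · exact absurd h1 (by norm_num)
    · exact absurd h1 (by norm_num)
    · exact absurd h1 (by norm_num)
    · exact absurd h1 (by norm_num)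
    · exact corT_cert (G1 := gB2q0) (G2 := gB0q2) (Ga := gB4q1) (Gb := gB5q1) cB012R_ok B hρ (gatB20 x) (gatB02 x) (fun h => absurd h (by decide)) (fun _ => gatB51 x) hd hx hx' CG.B012R_204
    · exact corT_cert (G1 := gB2q0) (G2 := gB0q2) (Ga := gB5q1) (Gb := gB6q1) cB012R_ok B hρ (gatB20 x) (gatB02 x) (fun _ => gatB51 x) (fun _ => gatB61 x) hd hx hx' CG.B012R_205
    · exact corT_cert (G1 := gB2q0) (G2 := gB0q2) (Ga := gB6q1) (Gb := gB7q1) cB012R_ok B hρ (gatB20 x) (gatB02 x) (fun _ => gatB61 x) (fun _ => gatB71 x) hd hx hx' CG.B012R_206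
    · exact corT_cert (G1 := gB2q0) (G2 := gB0q2) (Ga := gB7q1) (Gb := gB8q1) cB012R_ok B hρ (gatB20 x) (gatB02 x) (fun _ => gatB71 x) (fun _ => gatB81 x) hd hx hx' CG.B012R_207

theorem altB_B012R_21 {κ x : ℝ} (hκ : κ * h0 = ken x) (hx : ((649613803 : ℕ) : ℝ) / S ≤ x) (hx' : x ≤ (((649613803 : ℕ) : ℝ) + (48318383 : ℕ)) / S) :
    AltEB 3 κ (eng.v x) (3 / 40) (tnt (h0 * x) (3 / 10)) PP tK tL tC pcB (scP esg pd) [⟨0, 0, 0, 67108864⟩, ⟨1, 1, 0, 67108864⟩, ⟨2, 1, 0, 67108864⟩] 0 1 2 2 1 (sgb true) (sgb false) x := by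
  have X : XR 67108864 x := XR.of hx hx' (by norm_num) (by norm_num) (by norm_num) (by norm_num)
  have hen : 0 < eng.v x := en_pos X.x0.le
  refine CornW.altB (C := cB012R) (j := (2 : Fin 9)) (k := (1 : Fin 9)) (Ef := esg) (pd := pd) (o := 3 / 40)
    (cornW_of (C := cB012R) (C0 := c0B) (En := eng) (mo := mog) (j := (2 : Fin 9)) (k := (1 : Fin 9)) (lo := 5) (hi := 8) (W := 67108864) (N0 := 3) cB012R_q (sideB hx hx') gokB (pinU hx hx') dokB X (by norm_num) (by norm_num) (l := (5 : Fin 9)) rfl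
      (gatB20 x) (gatB12 x) (gatB51 x) (datB20 x) (datB12 x) (datB51 x) ?_)
    (cornS_of (C := cB012R) (C0 := c0B) (j := (2 : Fin 9)) (k := (1 : Fin 9)) (lo := 5) (hi := 8) (W := 67108864) (N0 := 3) cB012R_q (sideB hx hx') gokB X (by norm_num) (by norm_num) (l := (5 : Fin 9)) rfl
      (gatB20 x) (gatB12 x) (gatB51 x) ?_)
    (thU (pinU hx hx')) rfl hκ (fun j q y => tC_eq j q y x) (esg_rng X.x0.le (by linarith [X.b, X.p0])).1 (mo_v x) le_rfl le_rfl
  · intro ρ a B hρ hd i h1 h2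
    fin_cases i
    · exact absurd h1 (by norm_num)
    · exact absurd h1 (by norm_num)
    · exact absurd h1 (by norm_num)
    · exact absurd h1 (by norm_num)
    · exact corW_cert (G1 := gB2q0) (G2 := gB1q2) (Ga := gB4q1) (Gb := gB5q1) (D1 := dB2q0) (D2 := dB1q2) (Da := dB4q1) (Db := dB5q1) cB012R_ok B hρ hen (gatB20 x) (gatB12 x) (fun h => absurd h (by decide)) (fun _ => gatB51 x) (datB20 x) (datB12 x) (fun h => absurd h (by decide)) (fun _ => datB51 x) hd hx hx' CW.B012R_214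
    · exact corW_cert (G1 := gB2q0) (G2 := gB1q2) (Ga := gB5q1) (Gb := gB6q1) (D1 := dB2q0) (D2 := dB1q2) (Da := dB5q1) (Db := dB6q1) cB012R_ok B hρ hen (gatB20 x) (gatB12 x) (fun _ => gatB51 x) (fun _ => gatB61 x) (datB20 x) (datB12 x) (fun _ => datB51 x) (fun _ => datB61 x) hd hx hx' CW.B012R_215
    · exact corW_cert (G1 := gB2q0) (G2 := gB1q2) (Ga := gB6q1) (Gb := gB7q1) (D1 := dB2q0) (D2 := dB1q2) (Da := dB6q1) (Db := dB7q1) cB012R_ok B hρ hen (gatB20 x) (gatB12 x) (fun _ => gatB61 x) (fun _ => gatB71 x) (datB20 x) (datB12 x) (fun _ => datB61 x) (fun _ => datB71 x) hd hx hx' CW.B012R_216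
    · exact corW_cert (G1 := gB2q0) (G2 := gB1q2) (Ga := gB7q1) (Gb := gB8q1) (D1 := dB2q0) (D2 := dB1q2) (Da := dB7q1) (Db := dB8q1) cB012R_ok B hρ hen (gatB20 x) (gatB12 x) (fun _ => gatB71 x) (fun _ => gatB81 x) (datB20 x) (datB12 x) (fun _ => datB71 x) (fun _ => datB81 x) hd hx hx' CW.B012R_217
  · intro ρ a B hρ hd i h1 h2
    fin_cases i
    · exact absurd h1 (by norm_num)
    · exact absurd h1 (by norm_num)
    · exact absurd h1 (by norm_num)
    · exact absurd h1 (by norm_num)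
    · exact corT_cert (G1 := gB2q0) (G2 := gB1q2) (Ga := gB4q1) (Gb := gB5q1) cB012R_ok B hρ (gatB20 x) (gatB12 x) (fun h => absurd h (by decide)) (fun _ => gatB51 x) hd hx hx' CG.B012R_214
    · exact corT_cert (G1 := gB2q0) (G2 := gB1q2) (Ga := gB5q1) (Gb := gB6q1) cB012R_ok B hρ (gatB20 x) (gatB12 x) (fun _ => gatB51 x) (fun _ => gatB61 x) hd hx hx' CG.B012R_215
    · exact corT_cert (G1 := gB2q0) (G2 := gB1q2) (Ga := gB6q1) (Gb := gB7q1) cB012R_ok B hρ (gatB20 x) (gatB12 x) (fun _ => gatB61 x) (fun _ => gatB71 x) hd hx hx' CG.B012R_216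
    · exact corT_cert (G1 := gB2q0) (G2 := gB1q2) (Ga := gB7q1) (Gb := gB8q1) cB012R_ok B hρ (gatB20 x) (gatB12 x) (fun _ => gatB71 x) (fun _ => gatB81 x) hd hx hx' CG.B012R_217

theorem altB_B012R_22 {κ x : ℝ} (hκ : κ * h0 = ken x) (hx : ((649613803 : ℕ) : ℝ) / S ≤ x) (hx' : x ≤ (((649613803 : ℕ) : ℝ) + (48318383 : ℕ)) / S) :
    AltEB 3 κ (eng.v x) (3 / 40) (tnt (h0 * x) (3 / 10)) PP tK tL tC pcB (scP esg pd) [⟨0, 0, 0, 67108864⟩, ⟨1, 1, 0, 67108864⟩, ⟨2, 1, 0, 67108864⟩] 0 1 2 2 2 (sgb true) (sgb false) x := by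
  have X : XR 67108864 x := XR.of hx hx' (by norm_num) (by norm_num) (by norm_num) (by norm_num)
  have hen : 0 < eng.v x := en_pos X.x0.le
  refine CornW.altB (C := cB012R) (j := (2 : Fin 9)) (k := (2 : Fin 9)) (Ef := esg) (pd := pd) (o := 3 / 40)
    (cornW_of (C := cB012R) (C0 := c0B) (En := eng) (mo := mog) (j := (2 : Fin 9)) (k := (2 : Fin 9)) (lo := 5) (hi := 8) (W := 67108864) (N0 := 3) cB012R_q (sideB hx hx') gokB (pinU hx hx') dokB X (by norm_num) (by norm_num) (l := (5 : Fin 9)) rfl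
      (gatB20 x) (gatB22 x) (gatB51 x) (datB20 x) (datB22 x) (datB51 x) ?_)
    (cornS_of (C := cB012R) (C0 := c0B) (j := (2 : Fin 9)) (k := (2 : Fin 9)) (lo := 5) (hi := 8) (W := 67108864) (N0 := 3) cB012R_q (sideB hx hx') gokB X (by norm_num) (by norm_num) (l := (5 : Fin 9)) rfl
      (gatB20 x) (gatB22 x) (gatB51 x) ?_)
    (thU (pinU hx hx')) rfl hκ (fun j q y => tC_eq j q y x) (esg_rng X.x0.le (by linarith [X.b, X.p0])).1 (mo_v x) le_rfl le_rfl
  · intro ρ a B hρ hd i h1 h2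
    fin_cases i
    · exact absurd h1 (by norm_num)
    · exact absurd h1 (by norm_num)
    · exact absurd h1 (by norm_num)
    · exact absurd h1 (by norm_num)
    · exact corW_cert (G1 := gB2q0) (G2 := gB2q2) (Ga := gB4q1) (Gb := gB5q1) (D1 := dB2q0) (D2 := dB2q2) (Da := dB4q1) (Db := dB5q1) cB012R_ok B hρ hen (gatB20 x) (gatB22 x) (fun h => absurd h (by decide)) (fun _ => gatB51 x) (datB20 x) (datB22 x) (fun h => absurd h (by decide)) (fun _ => datB51 x) hd hx hx' CW.B012R_224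
    · exact corW_cert (G1 := gB2q0) (G2 := gB2q2) (Ga := gB5q1) (Gb := gB6q1) (D1 := dB2q0) (D2 := dB2q2) (Da := dB5q1) (Db := dB6q1) cB012R_ok B hρ hen (gatB20 x) (gatB22 x) (fun _ => gatB51 x) (fun _ => gatB61 x) (datB20 x) (datB22 x) (fun _ => datB51 x) (fun _ => datB61 x) hd hx hx' CW.B012R_225
    · exact corW_cert (G1 := gB2q0) (G2 := gB2q2) (Ga := gB6q1) (Gb := gB7q1) (D1 := dB2q0) (D2 := dB2q2) (Da := dB6q1) (Db := dB7q1) cB012R_ok B hρ hen (gatB20 x) (gatB22 x) (fun _ => gatB61 x) (fun _ => gatB71 x) (datB20 x) (datB22 x) (fun _ => datB61 x) (fun _ => datB71 x) hd hx hx' CW.B012R_226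
    · exact corW_cert (G1 := gB2q0) (G2 := gB2q2) (Ga := gB7q1) (Gb := gB8q1) (D1 := dB2q0) (D2 := dB2q2) (Da := dB7q1) (Db := dB8q1) cB012R_ok B hρ hen (gatB20 x) (gatB22 x) (fun _ => gatB71 x) (fun _ => gatB81 x) (datB20 x) (datB22 x) (fun _ => datB71 x) (fun _ => datB81 x) hd hx hx' CW.B012R_227
  · intro ρ a B hρ hd i h1 h2
    fin_cases i
    · exact absurd h1 (by norm_num)
    · exact absurd h1 (by norm_num)
    · exact absurd h1 (by norm_num)
    · exact absurd h1 (by norm_num)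
    · exact corT_cert (G1 := gB2q0) (G2 := gB2q2) (Ga := gB4q1) (Gb := gB5q1) cB012R_ok B hρ (gatB20 x) (gatB22 x) (fun h => absurd h (by decide)) (fun _ => gatB51 x) hd hx hx' CG.B012R_224
    · exact corT_cert (G1 := gB2q0) (G2 := gB2q2) (Ga := gB5q1) (Gb := gB6q1) cB012R_ok B hρ (gatB20 x) (gatB22 x) (fun _ => gatB51 x) (fun _ => gatB61 x) hd hx hx' CG.B012R_225
    · exact corT_cert (G1 := gB2q0) (G2 := gB2q2) (Ga := gB6q1) (Gb := gB7q1) cB012R_ok B hρ (gatB20 x) (gatB22 x) (fun _ => gatB61 x) (fun _ => gatB71 x) hd hx hx' CG.B012R_226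
    · exact corT_cert (G1 := gB2q0) (G2 := gB2q2) (Ga := gB7q1) (Gb := gB8q1) cB012R_ok B hρ (gatB20 x) (gatB22 x) (fun _ => gatB71 x) (fun _ => gatB81 x) hd hx hx' CG.B012R_227

theorem altB_B012R_23 {κ x : ℝ} (hκ : κ * h0 = ken x) (hx : ((649613803 : ℕ) : ℝ) / S ≤ x) (hx' : x ≤ (((649613803 : ℕ) : ℝ) + (48318383 : ℕ)) / S) :
    AltEB 3 κ (eng.v x) (3 / 40) (tnt (h0 * x) (3 / 10)) PP tK tL tC pcB (scP esg pd) [⟨0, 0, 0, 67108864⟩, ⟨1, 1, 0, 67108864⟩, ⟨2, 1, 0, 67108864⟩] 0 1 2 2 3 (sgb true) (sgb false) x := by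
  have X : XR 67108864 x := XR.of hx hx' (by norm_num) (by norm_num) (by norm_num) (by norm_num)
  have hen : 0 < eng.v x := en_pos X.x0.le
  refine CornW.altB (C := cB012R) (j := (2 : Fin 9)) (k := (3 : Fin 9)) (Ef := esg) (pd := pd) (o := 3 / 40)
    (cornW_of (C := cB012R) (C0 := c0B) (En := eng) (mo := mog) (j := (2 : Fin 9)) (k := (3 : Fin 9)) (lo := 5) (hi := 8) (W := 67108864) (N0 := 3) cB012R_q (sideB hx hx') gokB (pinU hx hx') dokB X (by norm_num) (by norm_num) (l := (5 : Fin 9)) rfl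
      (gatB20 x) (gatB32 x) (gatB51 x) (datB20 x) (datB32 x) (datB51 x) ?_)
    (cornS_of (C := cB012R) (C0 := c0B) (j := (2 : Fin 9)) (k := (3 : Fin 9)) (lo := 5) (hi := 8) (W := 67108864) (N0 := 3) cB012R_q (sideB hx hx') gokB X (by norm_num) (by norm_num) (l := (5 : Fin 9)) rfl
      (gatB20 x) (gatB32 x) (gatB51 x) ?_)
    (thU (pinU hx hx')) rfl hκ (fun j q y => tC_eq j q y x) (esg_rng X.x0.le (by linarith [X.b, X.p0])).1 (mo_v x) le_rfl le_rfl
  · intro ρ a B hρ hd i h1 h2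
    fin_cases i
    · exact absurd h1 (by norm_num)
    · exact absurd h1 (by norm_num)
    · exact absurd h1 (by norm_num)
    · exact absurd h1 (by norm_num)
    · exact corW_cert (G1 := gB2q0) (G2 := gB3q2) (Ga := gB4q1) (Gb := gB5q1) (D1 := dB2q0) (D2 := dB3q2) (Da := dB4q1) (Db := dB5q1) cB012R_ok B hρ hen (gatB20 x) (gatB32 x) (fun h => absurd h (by decide)) (fun _ => gatB51 x) (datB20 x) (datB32 x) (fun h => absurd h (by decide)) (fun _ => datB51 x) hd hx hx' CW.B012R_234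
    · exact corW_cert (G1 := gB2q0) (G2 := gB3q2) (Ga := gB5q1) (Gb := gB6q1) (D1 := dB2q0) (D2 := dB3q2) (Da := dB5q1) (Db := dB6q1) cB012R_ok B hρ hen (gatB20 x) (gatB32 x) (fun _ => gatB51 x) (fun _ => gatB61 x) (datB20 x) (datB32 x) (fun _ => datB51 x) (fun _ => datB61 x) hd hx hx' CW.B012R_235
    · exact corW_cert (G1 := gB2q0) (G2 := gB3q2) (Ga := gB6q1) (Gb := gB7q1) (D1 := dB2q0) (D2 := dB3q2) (Da := dB6q1) (Db := dB7q1) cB012R_ok B hρ hen (gatB20 x) (gatB32 x) (fun _ => gatB61 x) (fun _ => gatB71 x) (datB20 x) (datB32 x) (fun _ => datB61 x) (fun _ => datB71 x) hd hx hx' CW.B012R_236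
    · exact corW_cert (G1 := gB2q0) (G2 := gB3q2) (Ga := gB7q1) (Gb := gB8q1) (D1 := dB2q0) (D2 := dB3q2) (Da := dB7q1) (Db := dB8q1) cB012R_ok B hρ hen (gatB20 x) (gatB32 x) (fun _ => gatB71 x) (fun _ => gatB81 x) (datB20 x) (datB32 x) (fun _ => datB71 x) (fun _ => datB81 x) hd hx hx' CW.B012R_237
  · intro ρ a B hρ hd i h1 h2
    fin_cases i
    · exact absurd h1 (by norm_num)
    · exact absurd h1 (by norm_num)
    · exact absurd h1 (by norm_num)
    · exact absurd h1 (by norm_num)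
    · exact corT_cert (G1 := gB2q0) (G2 := gB3q2) (Ga := gB4q1) (Gb := gB5q1) cB012R_ok B hρ (gatB20 x) (gatB32 x) (fun h => absurd h (by decide)) (fun _ => gatB51 x) hd hx hx' CG.B012R_234
    · exact corT_cert (G1 := gB2q0) (G2 := gB3q2) (Ga := gB5q1) (Gb := gB6q1) cB012R_ok B hρ (gatB20 x) (gatB32 x) (fun _ => gatB51 x) (fun _ => gatB61 x) hd hx hx' CG.B012R_235
    · exact corT_cert (G1 := gB2q0) (G2 := gB3q2) (Ga := gB6q1) (Gb := gB7q1) cB012R_ok B hρ (gatB20 x) (gatB32 x) (fun _ => gatB61 x) (fun _ => gatB71 x) hd hx hx' CG.B012R_236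
    · exact corT_cert (G1 := gB2q0) (G2 := gB3q2) (Ga := gB7q1) (Gb := gB8q1) cB012R_ok B hρ (gatB20 x) (gatB32 x) (fun _ => gatB71 x) (fun _ => gatB81 x) hd hx hx' CG.B012R_237

theorem altB_B012R_24 {κ x : ℝ} (hκ : κ * h0 = ken x) (hx : ((649613803 : ℕ) : ℝ) / S ≤ x) (hx' : x ≤ (((649613803 : ℕ) : ℝ) + (48318383 : ℕ)) / S) :
    AltEB 3 κ (eng.v x) (3 / 40) (tnt (h0 * x) (3 / 10)) PP tK tL tC pcB (scP esg pd) [⟨0, 0, 0, 67108864⟩, ⟨1, 1, 0, 67108864⟩, ⟨2, 1, 0, 67108864⟩] 0 1 2 2 4 (sgb true) (sgb false) x := by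
  have X : XR 67108864 x := XR.of hx hx' (by norm_num) (by norm_num) (by norm_num) (by norm_num)
  have hen : 0 < eng.v x := en_pos X.x0.le
  refine CornW.altB (C := cB012R) (j := (2 : Fin 9)) (k := (4 : Fin 9)) (Ef := esg) (pd := pd) (o := 3 / 40)
    (cornW_of (C := cB012R) (C0 := c0B) (En := eng) (mo := mog) (j := (2 : Fin 9)) (k := (4 : Fin 9)) (lo := 5) (hi := 8) (W := 67108864) (N0 := 3) cB012R_q (sideB hx hx') gokB (pinU hx hx') dokB X (by norm_num) (by norm_num) (l := (5 : Fin 9)) rfl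
      (gatB20 x) (gatB42 x) (gatB51 x) (datB20 x) (datB42 x) (datB51 x) ?_)
    (cornS_of (C := cB012R) (C0 := c0B) (j := (2 : Fin 9)) (k := (4 : Fin 9)) (lo := 5) (hi := 8) (W := 67108864) (N0 := 3) cB012R_q (sideB hx hx') gokB X (by norm_num) (by norm_num) (l := (5 : Fin 9)) rfl
      (gatB20 x) (gatB42 x) (gatB51 x) ?_)
    (thU (pinU hx hx')) rfl hκ (fun j q y => tC_eq j q y x) (esg_rng X.x0.le (by linarith [X.b, X.p0])).1 (mo_v x) le_rfl le_rfl
  · intro ρ a B hρ hd i h1 h2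
    fin_cases i
    · exact absurd h1 (by norm_num)
    · exact absurd h1 (by norm_num)
    · exact absurd h1 (by norm_num)
    · exact absurd h1 (by norm_num)
    · exact corW_cert (G1 := gB2q0) (G2 := gB4q2) (Ga := gB4q1) (Gb := gB5q1) (D1 := dB2q0) (D2 := dB4q2) (Da := dB4q1) (Db := dB5q1) cB012R_ok B hρ hen (gatB20 x) (gatB42 x) (fun h => absurd h (by decide)) (fun _ => gatB51 x) (datB20 x) (datB42 x) (fun h => absurd h (by decide)) (fun _ => datB51 x) hd hx hx' CW.B012R_244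
    · exact corW_cert (G1 := gB2q0) (G2 := gB4q2) (Ga := gB5q1) (Gb := gB6q1) (D1 := dB2q0) (D2 := dB4q2) (Da := dB5q1) (Db := dB6q1) cB012R_ok B hρ hen (gatB20 x) (gatB42 x) (fun _ => gatB51 x) (fun _ => gatB61 x) (datB20 x) (datB42 x) (fun _ => datB51 x) (fun _ => datB61 x) hd hx hx' CW.B012R_245
    · exact corW_cert (G1 := gB2q0) (G2 := gB4q2) (Ga := gB6q1) (Gb := gB7q1) (D1 := dB2q0) (D2 := dB4q2) (Da := dB6q1) (Db := dB7q1) cB012R_ok B hρ hen (gatB20 x) (gatB42 x) (fun _ => gatB61 x) (fun _ => gatB71 x) (datB20 x) (datB42 x) (fun _ => datB61 x) (fun _ => datB71 x) hd hx hx' CW.B012R_246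
    · exact corW_cert (G1 := gB2q0) (G2 := gB4q2) (Ga := gB7q1) (Gb := gB8q1) (D1 := dB2q0) (D2 := dB4q2) (Da := dB7q1) (Db := dB8q1) cB012R_ok B hρ hen (gatB20 x) (gatB42 x) (fun _ => gatB71 x) (fun _ => gatB81 x) (datB20 x) (datB42 x) (fun _ => datB71 x) (fun _ => datB81 x) hd hx hx' CW.B012R_247
  · intro ρ a B hρ hd i h1 h2
    fin_cases i
    · exact absurd h1 (by norm_num)
    · exact absurd h1 (by norm_num)
    · exact absurd h1 (by norm_num)
    · exact absurd h1 (by norm_num)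
    · exact corT_cert (G1 := gB2q0) (G2 := gB4q2) (Ga := gB4q1) (Gb := gB5q1) cB012R_ok B hρ (gatB20 x) (gatB42 x) (fun h => absurd h (by decide)) (fun _ => gatB51 x) hd hx hx' CG.B012R_244
    · exact corT_cert (G1 := gB2q0) (G2 := gB4q2) (Ga := gB5q1) (Gb := gB6q1) cB012R_ok B hρ (gatB20 x) (gatB42 x) (fun _ => gatB51 x) (fun _ => gatB61 x) hd hx hx' CG.B012R_245
    · exact corT_cert (G1 := gB2q0) (G2 := gB4q2) (Ga := gB6q1) (Gb := gB7q1) cB012R_ok B hρ (gatB20 x) (gatB42 x) (fun _ => gatB61 x) (fun _ => gatB71 x) hd hx hx' CG.B012R_246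
    · exact corT_cert (G1 := gB2q0) (G2 := gB4q2) (Ga := gB7q1) (Gb := gB8q1) cB012R_ok B hρ (gatB20 x) (gatB42 x) (fun _ => gatB71 x) (fun _ => gatB81 x) hd hx hx' CG.B012R_247

theorem altB_B012R_30 {κ x : ℝ} (hκ : κ * h0 = ken x) (hx : ((649613803 : ℕ) : ℝ) / S ≤ x) (hx' : x ≤ (((649613803 : ℕ) : ℝ) + (48318383 : ℕ)) / S) :
    AltEB 3 κ (eng.v x) (3 / 40) (tnt (h0 * x) (3 / 10)) PP tK tL tC pcB (scP esg pd) [⟨0, 0, 0, 67108864⟩, ⟨1, 1, 0, 67108864⟩, ⟨2, 1, 0, 67108864⟩] 0 1 2 3 0 (sgb true) (sgb false) x := by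
  have X : XR 67108864 x := XR.of hx hx' (by norm_num) (by norm_num) (by norm_num) (by norm_num)
  have hen : 0 < eng.v x := en_pos X.x0.le
  refine CornW.altB (C := cB012R) (j := (3 : Fin 9)) (k := (0 : Fin 9)) (Ef := esg) (pd := pd) (o := 3 / 40)
    (cornW_of (C := cB012R) (C0 := c0B) (En := eng) (mo := mog) (j := (3 : Fin 9)) (k := (0 : Fin 9)) (lo := 5) (hi := 8) (W := 67108864) (N0 := 3) cB012R_q (sideB hx hx') gokB (pinU hx hx') dokB X (by norm_num) (by norm_num) (l := (5 : Fin 9)) rfl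
      (gatB30 x) (gatB02 x) (gatB51 x) (datB30 x) (datB02 x) (datB51 x) ?_)
    (cornS_of (C := cB012R) (C0 := c0B) (j := (3 : Fin 9)) (k := (0 : Fin 9)) (lo := 5) (hi := 8) (W := 67108864) (N0 := 3) cB012R_q (sideB hx hx') gokB X (by norm_num) (by norm_num) (l := (5 : Fin 9)) rfl
      (gatB30 x) (gatB02 x) (gatB51 x) ?_)
    (thU (pinU hx hx')) rfl hκ (fun j q y => tC_eq j q y x) (esg_rng X.x0.le (by linarith [X.b, X.p0])).1 (mo_v x) le_rfl le_rfl
  · intro ρ a B hρ hd i h1 h2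
    fin_cases i
    · exact absurd h1 (by norm_num)
    · exact absurd h1 (by norm_num)
    · exact absurd h1 (by norm_num)
    · exact absurd h1 (by norm_num)
    · exact corW_cert (G1 := gB3q0) (G2 := gB0q2) (Ga := gB4q1) (Gb := gB5q1) (D1 := dB3q0) (D2 := dB0q2) (Da := dB4q1) (Db := dB5q1) cB012R_ok B hρ hen (gatB30 x) (gatB02 x) (fun h => absurd h (by decide)) (fun _ => gatB51 x) (datB30 x) (datB02 x) (fun h => absurd h (by decide)) (fun _ => datB51 x) hd hx hx' CW.B012R_304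
    · exact corW_cert (G1 := gB3q0) (G2 := gB0q2) (Ga := gB5q1) (Gb := gB6q1) (D1 := dB3q0) (D2 := dB0q2) (Da := dB5q1) (Db := dB6q1) cB012R_ok B hρ hen (gatB30 x) (gatB02 x) (fun _ => gatB51 x) (fun _ => gatB61 x) (datB30 x) (datB02 x) (fun _ => datB51 x) (fun _ => datB61 x) hd hx hx' CW.B012R_305
    · exact corW_cert (G1 := gB3q0) (G2 := gB0q2) (Ga := gB6q1) (Gb := gB7q1) (D1 := dB3q0) (D2 := dB0q2) (Da := dB6q1) (Db := dB7q1) cB012R_ok B hρ hen (gatB30 x) (gatB02 x) (fun _ => gatB61 x) (fun _ => gatB71 x) (datB30 x) (datB02 x) (fun _ => datB61 x) (fun _ => datB71 x) hd hx hx' CW.B012R_306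
    · exact corW_cert (G1 := gB3q0) (G2 := gB0q2) (Ga := gB7q1) (Gb := gB8q1) (D1 := dB3q0) (D2 := dB0q2) (Da := dB7q1) (Db := dB8q1) cB012R_ok B hρ hen (gatB30 x) (gatB02 x) (fun _ => gatB71 x) (fun _ => gatB81 x) (datB30 x) (datB02 x) (fun _ => datB71 x) (fun _ => datB81 x) hd hx hx' CW.B012R_307
  · intro ρ a B hρ hd i h1 h2
    fin_cases i
    · exact absurd h1 (by norm_num)
    · exact absurd h1 (by norm_num)
    · exact absurd h1 (by norm_num)
    · exact absurd h1 (by norm_num)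
    · exact corT_cert (G1 := gB3q0) (G2 := gB0q2) (Ga := gB4q1) (Gb := gB5q1) cB012R_ok B hρ (gatB30 x) (gatB02 x) (fun h => absurd h (by decide)) (fun _ => gatB51 x) hd hx hx' CG.B012R_304
    · exact corT_cert (G1 := gB3q0) (G2 := gB0q2) (Ga := gB5q1) (Gb := gB6q1) cB012R_ok B hρ (gatB30 x) (gatB02 x) (fun _ => gatB51 x) (fun _ => gatB61 x) hd hx hx' CG.B012R_305
    · exact corT_cert (G1 := gB3q0) (G2 := gB0q2) (Ga := gB6q1) (Gb := gB7q1) cB012R_ok B hρ (gatB30 x) (gatB02 x) (fun _ => gatB61 x) (fun _ => gatB71 x) hd hx hx' CG.B012R_306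
    · exact corT_cert (G1 := gB3q0) (G2 := gB0q2) (Ga := gB7q1) (Gb := gB8q1) cB012R_ok B hρ (gatB30 x) (gatB02 x) (fun _ => gatB71 x) (fun _ => gatB81 x) hd hx hx' CG.B012R_307

theorem altB_B012R_31 {κ x : ℝ} (hκ : κ * h0 = ken x) (hx : ((649613803 : ℕ) : ℝ) / S ≤ x) (hx' : x ≤ (((649613803 : ℕ) : ℝ) + (48318383 : ℕ)) / S) :
    AltEB 3 κ (eng.v x) (3 / 40) (tnt (h0 * x) (3 / 10)) PP tK tL tC pcB (scP esg pd) [⟨0, 0, 0, 67108864⟩, ⟨1, 1, 0, 67108864⟩, ⟨2, 1, 0, 67108864⟩] 0 1 2 3 1 (sgb true) (sgb false) x := by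
  have X : XR 67108864 x := XR.of hx hx' (by norm_num) (by norm_num) (by norm_num) (by norm_num)
  have hen : 0 < eng.v x := en_pos X.x0.le
  refine CornW.altB (C := cB012R) (j := (3 : Fin 9)) (k := (1 : Fin 9)) (Ef := esg) (pd := pd) (o := 3 / 40)
    (cornW_of (C := cB012R) (C0 := c0B) (En := eng) (mo := mog) (j := (3 : Fin 9)) (k := (1 : Fin 9)) (lo := 5) (hi := 8) (W := 67108864) (N0 := 3) cB012R_q (sideB hx hx') gokB (pinU hx hx') dokB X (by norm_num) (by norm_num) (l := (5 : Fin 9)) rfl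
      (gatB30 x) (gatB12 x) (gatB51 x) (datB30 x) (datB12 x) (datB51 x) ?_)
    (cornS_of (C := cB012R) (C0 := c0B) (j := (3 : Fin 9)) (k := (1 : Fin 9)) (lo := 5) (hi := 8) (W := 67108864) (N0 := 3) cB012R_q (sideB hx hx') gokB X (by norm_num) (by norm_num) (l := (5 : Fin 9)) rfl
      (gatB30 x) (gatB12 x) (gatB51 x) ?_)
    (thU (pinU hx hx')) rfl hκ (fun j q y => tC_eq j q y x) (esg_rng X.x0.le (by linarith [X.b, X.p0])).1 (mo_v x) le_rfl le_rfl
  · intro ρ a B hρ hd i h1 h2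
    fin_cases i
    · exact absurd h1 (by norm_num)
    · exact absurd h1 (by norm_num)
    · exact absurd h1 (by norm_num)
    · exact absurd h1 (by norm_num)
    · exact corW_cert (G1 := gB3q0) (G2 := gB1q2) (Ga := gB4q1) (Gb := gB5q1) (D1 := dB3q0) (D2 := dB1q2) (Da := dB4q1) (Db := dB5q1) cB012R_ok B hρ hen (gatB30 x) (gatB12 x) (fun h => absurd h (by decide)) (fun _ => gatB51 x) (datB30 x) (datB12 x) (fun h => absurd h (by decide)) (fun _ => datB51 x) hd hx hx' CW.B012R_314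
    · exact corW_cert (G1 := gB3q0) (G2 := gB1q2) (Ga := gB5q1) (Gb := gB6q1) (D1 := dB3q0) (D2 := dB1q2) (Da := dB5q1) (Db := dB6q1) cB012R_ok B hρ hen (gatB30 x) (gatB12 x) (fun _ => gatB51 x) (fun _ => gatB61 x) (datB30 x) (datB12 x) (fun _ => datB51 x) (fun _ => datB61 x) hd hx hx' CW.B012R_315
    · exact corW_cert (G1 := gB3q0) (G2 := gB1q2) (Ga := gB6q1) (Gb := gB7q1) (D1 := dB3q0) (D2 := dB1q2) (Da := dB6q1) (Db := dB7q1) cB012R_ok B hρ hen (gatB30 x) (gatB12 x) (fun _ => gatB61 x) (fun _ => gatB71 x) (datB30 x) (datB12 x) (fun _ => datB61 x) (fun _ => datB71 x) hd hx hx' CW.B012R_316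
    · exact corW_cert (G1 := gB3q0) (G2 := gB1q2) (Ga := gB7q1) (Gb := gB8q1) (D1 := dB3q0) (D2 := dB1q2) (Da := dB7q1) (Db := dB8q1) cB012R_ok B hρ hen (gatB30 x) (gatB12 x) (fun _ => gatB71 x) (fun _ => gatB81 x) (datB30 x) (datB12 x) (fun _ => datB71 x) (fun _ => datB81 x) hd hx hx' CW.B012R_317
  · intro ρ a B hρ hd i h1 h2
    fin_cases i
    · exact absurd h1 (by norm_num)
    · exact absurd h1 (by norm_num)
    · exact absurd h1 (by norm_num)
    · exact absurd h1 (by norm_num)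
    · exact corT_cert (G1 := gB3q0) (G2 := gB1q2) (Ga := gB4q1) (Gb := gB5q1) cB012R_ok B hρ (gatB30 x) (gatB12 x) (fun h => absurd h (by decide)) (fun _ => gatB51 x) hd hx hx' CG.B012R_314
    · exact corT_cert (G1 := gB3q0) (G2 := gB1q2) (Ga := gB5q1) (Gb := gB6q1) cB012R_ok B hρ (gatB30 x) (gatB12 x) (fun _ => gatB51 x) (fun _ => gatB61 x) hd hx hx' CG.B012R_315
    · exact corT_cert (G1 := gB3q0) (G2 := gB1q2) (Ga := gB6q1) (Gb := gB7q1) cB012R_ok B hρ (gatB30 x) (gatB12 x) (fun _ => gatB61 x) (fun _ => gatB71 x) hd hx hx' CG.B012R_316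
    · exact corT_cert (G1 := gB3q0) (G2 := gB1q2) (Ga := gB7q1) (Gb := gB8q1) cB012R_ok B hρ (gatB30 x) (gatB12 x) (fun _ => gatB71 x) (fun _ => gatB81 x) hd hx hx' CG.B012R_317

theorem altB_B012R_32 {κ x : ℝ} (hκ : κ * h0 = ken x) (hx : ((649613803 : ℕ) : ℝ) / S ≤ x) (hx' : x ≤ (((649613803 : ℕ) : ℝ) + (48318383 : ℕ)) / S) :
    AltEB 3 κ (eng.v x) (3 / 40) (tnt (h0 * x) (3 / 10)) PP tK tL tC pcB (scP esg pd) [⟨0, 0, 0, 67108864⟩, ⟨1, 1, 0, 67108864⟩, ⟨2, 1, 0, 67108864⟩] 0 1 2 3 2 (sgb true) (sgb false) x := by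
  have X : XR 67108864 x := XR.of hx hx' (by norm_num) (by norm_num) (by norm_num) (by norm_num)
  have hen : 0 < eng.v x := en_pos X.x0.le
  refine CornW.altB (C := cB012R) (j := (3 : Fin 9)) (k := (2 : Fin 9)) (Ef := esg) (pd := pd) (o := 3 / 40)
    (cornW_of (C := cB012R) (C0 := c0B) (En := eng) (mo := mog) (j := (3 : Fin 9)) (k := (2 : Fin 9)) (lo := 5) (hi := 8) (W := 67108864) (N0 := 3) cB012R_q (sideB hx hx') gokB (pinU hx hx') dokB X (by norm_num) (by norm_num) (l := (5 : Fin 9)) rfl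
      (gatB30 x) (gatB22 x) (gatB51 x) (datB30 x) (datB22 x) (datB51 x) ?_)
    (cornS_of (C := cB012R) (C0 := c0B) (j := (3 : Fin 9)) (k := (2 : Fin 9)) (lo := 5) (hi := 8) (W := 67108864) (N0 := 3) cB012R_q (sideB hx hx') gokB X (by norm_num) (by norm_num) (l := (5 : Fin 9)) rfl
      (gatB30 x) (gatB22 x) (gatB51 x) ?_)
    (thU (pinU hx hx')) rfl hκ (fun j q y => tC_eq j q y x) (esg_rng X.x0.le (by linarith [X.b, X.p0])).1 (mo_v x) le_rfl le_rfl
  · intro ρ a B hρ hd i h1 h2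
    fin_cases i
    · exact absurd h1 (by norm_num)
    · exact absurd h1 (by norm_num)
    · exact absurd h1 (by norm_num)
    · exact absurd h1 (by norm_num)
    · exact corW_cert (G1 := gB3q0) (G2 := gB2q2) (Ga := gB4q1) (Gb := gB5q1) (D1 := dB3q0) (D2 := dB2q2) (Da := dB4q1) (Db := dB5q1) cB012R_ok B hρ hen (gatB30 x) (gatB22 x) (fun h => absurd h (by decide)) (fun _ => gatB51 x) (datB30 x) (datB22 x) (fun h => absurd h (by decide)) (fun _ => datB51 x) hd hx hx' CW.B012R_324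
    · exact corW_cert (G1 := gB3q0) (G2 := gB2q2) (Ga := gB5q1) (Gb := gB6q1) (D1 := dB3q0) (D2 := dB2q2) (Da := dB5q1) (Db := dB6q1) cB012R_ok B hρ hen (gatB30 x) (gatB22 x) (fun _ => gatB51 x) (fun _ => gatB61 x) (datB30 x) (datB22 x) (fun _ => datB51 x) (fun _ => datB61 x) hd hx hx' CW.B012R_325
    · exact corW_cert (G1 := gB3q0) (G2 := gB2q2) (Ga := gB6q1) (Gb := gB7q1) (D1 := dB3q0) (D2 := dB2q2) (Da := dB6q1) (Db := dB7q1) cB012R_ok B hρ hen (gatB30 x) (gatB22 x) (fun _ => gatB61 x) (fun _ => gatB71 x) (datB30 x) (datB22 x) (fun _ => datB61 x) (fun _ => datB71 x) hd hx hx' CW.B012R_326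
    · exact corW_cert (G1 := gB3q0) (G2 := gB2q2) (Ga := gB7q1) (Gb := gB8q1) (D1 := dB3q0) (D2 := dB2q2) (Da := dB7q1) (Db := dB8q1) cB012R_ok B hρ hen (gatB30 x) (gatB22 x) (fun _ => gatB71 x) (fun _ => gatB81 x) (datB30 x) (datB22 x) (fun _ => datB71 x) (fun _ => datB81 x) hd hx hx' CW.B012R_327
  · intro ρ a B hρ hd i h1 h2
    fin_cases i
    · exact absurd h1 (by norm_num)
    · exact absurd h1 (by norm_num)
    · exact absurd h1 (by norm_num)
    · exact absurd h1 (by norm_num)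
    · exact corT_cert (G1 := gB3q0) (G2 := gB2q2) (Ga := gB4q1) (Gb := gB5q1) cB012R_ok B hρ (gatB30 x) (gatB22 x) (fun h => absurd h (by decide)) (fun _ => gatB51 x) hd hx hx' CG.B012R_324
    · exact corT_cert (G1 := gB3q0) (G2 := gB2q2) (Ga := gB5q1) (Gb := gB6q1) cB012R_ok B hρ (gatB30 x) (gatB22 x) (fun _ => gatB51 x) (fun _ => gatB61 x) hd hx hx' CG.B012R_325
    · exact corT_cert (G1 := gB3q0) (G2 := gB2q2) (Ga := gB6q1) (Gb := gB7q1) cB012R_ok B hρ (gatB30 x) (gatB22 x) (fun _ => gatB61 x) (fun _ => gatB71 x) hd hx hx' CG.B012R_326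
    · exact corT_cert (G1 := gB3q0) (G2 := gB2q2) (Ga := gB7q1) (Gb := gB8q1) cB012R_ok B hρ (gatB30 x) (gatB22 x) (fun _ => gatB71 x) (fun _ => gatB81 x) hd hx hx' CG.B012R_327

theorem altB_B012R_33 {κ x : ℝ} (hκ : κ * h0 = ken x) (hx : ((649613803 : ℕ) : ℝ) / S ≤ x) (hx' : x ≤ (((649613803 : ℕ) : ℝ) + (48318383 : ℕ)) / S) :
    AltEB 3 κ (eng.v x) (3 / 40) (tnt (h0 * x) (3 / 10)) PP tK tL tC pcB (scP esg pd) [⟨0, 0, 0, 67108864⟩, ⟨1, 1, 0, 67108864⟩, ⟨2, 1, 0, 67108864⟩] 0 1 2 3 3 (sgb true) (sgb false) x := by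
  have X : XR 67108864 x := XR.of hx hx' (by norm_num) (by norm_num) (by norm_num) (by norm_num)
  have hen : 0 < eng.v x := en_pos X.x0.le
  refine CornW.altB (C := cB012R) (j := (3 : Fin 9)) (k := (3 : Fin 9)) (Ef := esg) (pd := pd) (o := 3 / 40)
    (cornW_of (C := cB012R) (C0 := c0B) (En := eng) (mo := mog) (j := (3 : Fin 9)) (k := (3 : Fin 9)) (lo := 5) (hi := 8) (W := 67108864) (N0 := 3) cB012R_q (sideB hx hx') gokB (pinU hx hx') dokB X (by norm_num) (by norm_num) (l := (5 : Fin 9)) rfl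
      (gatB30 x) (gatB32 x) (gatB51 x) (datB30 x) (datB32 x) (datB51 x) ?_)
    (cornS_of (C := cB012R) (C0 := c0B) (j := (3 : Fin 9)) (k := (3 : Fin 9)) (lo := 5) (hi := 8) (W := 67108864) (N0 := 3) cB012R_q (sideB hx hx') gokB X (by norm_num) (by norm_num) (l := (5 : Fin 9)) rfl
      (gatB30 x) (gatB32 x) (gatB51 x) ?_)
    (thU (pinU hx hx')) rfl hκ (fun j q y => tC_eq j q y x) (esg_rng X.x0.le (by linarith [X.b, X.p0])).1 (mo_v x) le_rfl le_rfl
  · intro ρ a B hρ hd i h1 h2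
    fin_cases i
    · exact absurd h1 (by norm_num)
    · exact absurd h1 (by norm_num)
    · exact absurd h1 (by norm_num)
    · exact absurd h1 (by norm_num)
    · exact corW_cert (G1 := gB3q0) (G2 := gB3q2) (Ga := gB4q1) (Gb := gB5q1) (D1 := dB3q0) (D2 := dB3q2) (Da := dB4q1) (Db := dB5q1) cB012R_ok B hρ hen (gatB30 x) (gatB32 x) (fun h => absurd h (by decide)) (fun _ => gatB51 x) (datB30 x) (datB32 x) (fun h => absurd h (by decide)) (fun _ => datB51 x) hd hx hx' CW.B012R_334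
    · exact corW_cert (G1 := gB3q0) (G2 := gB3q2) (Ga := gB5q1) (Gb := gB6q1) (D1 := dB3q0) (D2 := dB3q2) (Da := dB5q1) (Db := dB6q1) cB012R_ok B hρ hen (gatB30 x) (gatB32 x) (fun _ => gatB51 x) (fun _ => gatB61 x) (datB30 x) (datB32 x) (fun _ => datB51 x) (fun _ => datB61 x) hd hx hx' CW.B012R_335
    · exact corW_cert (G1 := gB3q0) (G2 := gB3q2) (Ga := gB6q1) (Gb := gB7q1) (D1 := dB3q0) (D2 := dB3q2) (Da := dB6q1) (Db := dB7q1) cB012R_ok B hρ hen (gatB30 x) (gatB32 x) (fun _ => gatB61 x) (fun _ => gatB71 x) (datB30 x) (datB32 x) (fun _ => datB61 x) (fun _ => datB71 x) hd hx hx' CW.B012R_336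
    · exact corW_cert (G1 := gB3q0) (G2 := gB3q2) (Ga := gB7q1) (Gb := gB8q1) (D1 := dB3q0) (D2 := dB3q2) (Da := dB7q1) (Db := dB8q1) cB012R_ok B hρ hen (gatB30 x) (gatB32 x) (fun _ => gatB71 x) (fun _ => gatB81 x) (datB30 x) (datB32 x) (fun _ => datB71 x) (fun _ => datB81 x) hd hx hx' CW.B012R_337
  · intro ρ a B hρ hd i h1 h2
    fin_cases i
    · exact absurd h1 (by norm_num)
    · exact absurd h1 (by norm_num)
    · exact absurd h1 (by norm_num)
    · exact absurd h1 (by norm_num)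
    · exact corT_cert (G1 := gB3q0) (G2 := gB3q2) (Ga := gB4q1) (Gb := gB5q1) cB012R_ok B hρ (gatB30 x) (gatB32 x) (fun h => absurd h (by decide)) (fun _ => gatB51 x) hd hx hx' CG.B012R_334
    · exact corT_cert (G1 := gB3q0) (G2 := gB3q2) (Ga := gB5q1) (Gb := gB6q1) cB012R_ok B hρ (gatB30 x) (gatB32 x) (fun _ => gatB51 x) (fun _ => gatB61 x) hd hx hx' CG.B012R_335
    · exact corT_cert (G1 := gB3q0) (G2 := gB3q2) (Ga := gB6q1) (Gb := gB7q1) cB012R_ok B hρ (gatB30 x) (gatB32 x) (fun _ => gatB61 x) (fun _ => gatB71 x) hd hx hx' CG.B012R_336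
    · exact corT_cert (G1 := gB3q0) (G2 := gB3q2) (Ga := gB7q1) (Gb := gB8q1) cB012R_ok B hρ (gatB30 x) (gatB32 x) (fun _ => gatB71 x) (fun _ => gatB81 x) hd hx hx' CG.B012R_337

theorem altB_B012R_34 {κ x : ℝ} (hκ : κ * h0 = ken x) (hx : ((649613803 : ℕ) : ℝ) / S ≤ x) (hx' : x ≤ (((649613803 : ℕ) : ℝ) + (48318383 : ℕ)) / S) :
    AltEB 3 κ (eng.v x) (3 / 40) (tnt (h0 * x) (3 / 10)) PP tK tL tC pcB (scP esg pd) [⟨0, 0, 0, 67108864⟩, ⟨1, 1, 0, 67108864⟩, ⟨2, 1, 0, 67108864⟩] 0 1 2 3 4 (sgb true) (sgb false) x := by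
  have X : XR 67108864 x := XR.of hx hx' (by norm_num) (by norm_num) (by norm_num) (by norm_num)
  have hen : 0 < eng.v x := en_pos X.x0.le
  refine CornW.altB (C := cB012R) (j := (3 : Fin 9)) (k := (4 : Fin 9)) (Ef := esg) (pd := pd) (o := 3 / 40)
    (cornW_of (C := cB012R) (C0 := c0B) (En := eng) (mo := mog) (j := (3 : Fin 9)) (k := (4 : Fin 9)) (lo := 5) (hi := 8) (W := 67108864) (N0 := 3) cB012R_q (sideB hx hx') gokB (pinU hx hx') dokB X (by norm_num) (by norm_num) (l := (5 : Fin 9)) rfl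
      (gatB30 x) (gatB42 x) (gatB51 x) (datB30 x) (datB42 x) (datB51 x) ?_)
    (cornS_of (C := cB012R) (C0 := c0B) (j := (3 : Fin 9)) (k := (4 : Fin 9)) (lo := 5) (hi := 8) (W := 67108864) (N0 := 3) cB012R_q (sideB hx hx') gokB X (by norm_num) (by norm_num) (l := (5 : Fin 9)) rfl
      (gatB30 x) (gatB42 x) (gatB51 x) ?_)
    (thU (pinU hx hx')) rfl hκ (fun j q y => tC_eq j q y x) (esg_rng X.x0.le (by linarith [X.b, X.p0])).1 (mo_v x) le_rfl le_rfl
  · intro ρ a B hρ hd i h1 h2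
    fin_cases i
    · exact absurd h1 (by norm_num)
    · exact absurd h1 (by norm_num)
    · exact absurd h1 (by norm_num)
    · exact absurd h1 (by norm_num)
    · exact corW_cert (G1 := gB3q0) (G2 := gB4q2) (Ga := gB4q1) (Gb := gB5q1) (D1 := dB3q0) (D2 := dB4q2) (Da := dB4q1) (Db := dB5q1) cB012R_ok B hρ hen (gatB30 x) (gatB42 x) (fun h => absurd h (by decide)) (fun _ => gatB51 x) (datB30 x) (datB42 x) (fun h => absurd h (by decide)) (fun _ => datB51 x) hd hx hx' CW.B012R_344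
    · exact corW_cert (G1 := gB3q0) (G2 := gB4q2) (Ga := gB5q1) (Gb := gB6q1) (D1 := dB3q0) (D2 := dB4q2) (Da := dB5q1) (Db := dB6q1) cB012R_ok B hρ hen (gatB30 x) (gatB42 x) (fun _ => gatB51 x) (fun _ => gatB61 x) (datB30 x) (datB42 x) (fun _ => datB51 x) (fun _ => datB61 x) hd hx hx' CW.B012R_345
    · exact corW_cert (G1 := gB3q0) (G2 := gB4q2) (Ga := gB6q1) (Gb := gB7q1) (D1 := dB3q0) (D2 := dB4q2) (Da := dB6q1) (Db := dB7q1) cB012R_ok B hρ hen (gatB30 x) (gatB42 x) (fun _ => gatB61 x) (fun _ => gatB71 x) (datB30 x) (datB42 x) (fun _ => datB61 x) (fun _ => datB71 x) hd hx hx' CW.B012R_346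
    · exact corW_cert (G1 := gB3q0) (G2 := gB4q2) (Ga := gB7q1) (Gb := gB8q1) (D1 := dB3q0) (D2 := dB4q2) (Da := dB7q1) (Db := dB8q1) cB012R_ok B hρ hen (gatB30 x) (gatB42 x) (fun _ => gatB71 x) (fun _ => gatB81 x) (datB30 x) (datB42 x) (fun _ => datB71 x) (fun _ => datB81 x) hd hx hx' CW.B012R_347
  · intro ρ a B hρ hd i h1 h2
    fin_cases i
    · exact absurd h1 (by norm_num)
    · exact absurd h1 (by norm_num)
    · exact absurd h1 (by norm_num)
    · exact absurd h1 (by norm_num)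
    · exact corT_cert (G1 := gB3q0) (G2 := gB4q2) (Ga := gB4q1) (Gb := gB5q1) cB012R_ok B hρ (gatB30 x) (gatB42 x) (fun h => absurd h (by decide)) (fun _ => gatB51 x) hd hx hx' CG.B012R_344
    · exact corT_cert (G1 := gB3q0) (G2 := gB4q2) (Ga := gB5q1) (Gb := gB6q1) cB012R_ok B hρ (gatB30 x) (gatB42 x) (fun _ => gatB51 x) (fun _ => gatB61 x) hd hx hx' CG.B012R_345
    · exact corT_cert (G1 := gB3q0) (G2 := gB4q2) (Ga := gB6q1) (Gb := gB7q1) cB012R_ok B hρ (gatB30 x) (gatB42 x) (fun _ => gatB61 x) (fun _ => gatB71 x) hd hx hx' CG.B012R_346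
    · exact corT_cert (G1 := gB3q0) (G2 := gB4q2) (Ga := gB7q1) (Gb := gB8q1) cB012R_ok B hρ (gatB30 x) (gatB42 x) (fun _ => gatB71 x) (fun _ => gatB81 x) hd hx hx' CG.B012R_347

theorem altB_B012R_40 {κ x : ℝ} (hκ : κ * h0 = ken x) (hx : ((649613803 : ℕ) : ℝ) / S ≤ x) (hx' : x ≤ (((649613803 : ℕ) : ℝ) + (48318383 : ℕ)) / S) :
    AltEB 3 κ (eng.v x) (3 / 40) (tnt (h0 * x) (3 / 10)) PP tK tL tC pcB (scP esg pd) [⟨0, 0, 0, 67108864⟩, ⟨1, 1, 0, 67108864⟩, ⟨2, 1, 0, 67108864⟩] 0 1 2 4 0 (sgb true) (sgb false) x := by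
  have X : XR 67108864 x := XR.of hx hx' (by norm_num) (by norm_num) (by norm_num) (by norm_num)
  have hen : 0 < eng.v x := en_pos X.x0.le
  refine CornW.altB (C := cB012R) (j := (4 : Fin 9)) (k := (0 : Fin 9)) (Ef := esg) (pd := pd) (o := 3 / 40)
    (cornW_of (C := cB012R) (C0 := c0B) (En := eng) (mo := mog) (j := (4 : Fin 9)) (k := (0 : Fin 9)) (lo := 5) (hi := 8) (W := 67108864) (N0 := 3) cB012R_q (sideB hx hx') gokB (pinU hx hx') dokB X (by norm_num) (by norm_num) (l := (5 : Fin 9)) rfl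
      (gatB40 x) (gatB02 x) (gatB51 x) (datB40 x) (datB02 x) (datB51 x) ?_)
    (cornS_of (C := cB012R) (C0 := c0B) (j := (4 : Fin 9)) (k := (0 : Fin 9)) (lo := 5) (hi := 8) (W := 67108864) (N0 := 3) cB012R_q (sideB hx hx') gokB X (by norm_num) (by norm_num) (l := (5 : Fin 9)) rfl
      (gatB40 x) (gatB02 x) (gatB51 x) ?_)
    (thU (pinU hx hx')) rfl hκ (fun j q y => tC_eq j q y x) (esg_rng X.x0.le (by linarith [X.b, X.p0])).1 (mo_v x) le_rfl le_rfl
  · intro ρ a B hρ hd i h1 h2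
    fin_cases i
    · exact absurd h1 (by norm_num)
    · exact absurd h1 (by norm_num)
    · exact absurd h1 (by norm_num)
    · exact absurd h1 (by norm_num)
    · exact corW_cert (G1 := gB4q0) (G2 := gB0q2) (Ga := gB4q1) (Gb := gB5q1) (D1 := dB4q0) (D2 := dB0q2) (Da := dB4q1) (Db := dB5q1) cB012R_ok B hρ hen (gatB40 x) (gatB02 x) (fun h => absurd h (by decide)) (fun _ => gatB51 x) (datB40 x) (datB02 x) (fun h => absurd h (by decide)) (fun _ => datB51 x) hd hx hx' CW.B012R_404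
    · exact corW_cert (G1 := gB4q0) (G2 := gB0q2) (Ga := gB5q1) (Gb := gB6q1) (D1 := dB4q0) (D2 := dB0q2) (Da := dB5q1) (Db := dB6q1) cB012R_ok B hρ hen (gatB40 x) (gatB02 x) (fun _ => gatB51 x) (fun _ => gatB61 x) (datB40 x) (datB02 x) (fun _ => datB51 x) (fun _ => datB61 x) hd hx hx' CW.B012R_405
    · exact corW_cert (G1 := gB4q0) (G2 := gB0q2) (Ga := gB6q1) (Gb := gB7q1) (D1 := dB4q0) (D2 := dB0q2) (Da := dB6q1) (Db := dB7q1) cB012R_ok B hρ hen (gatB40 x) (gatB02 x) (fun _ => gatB61 x) (fun _ => gatB71 x) (datB40 x) (datB02 x) (fun _ => datB61 x) (fun _ => datB71 x) hd hx hx' CW.B012R_406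
    · exact corW_cert (G1 := gB4q0) (G2 := gB0q2) (Ga := gB7q1) (Gb := gB8q1) (D1 := dB4q0) (D2 := dB0q2) (Da := dB7q1) (Db := dB8q1) cB012R_ok B hρ hen (gatB40 x) (gatB02 x) (fun _ => gatB71 x) (fun _ => gatB81 x) (datB40 x) (datB02 x) (fun _ => datB71 x) (fun _ => datB81 x) hd hx hx' CW.B012R_407
  · intro ρ a B hρ hd i h1 h2
    fin_cases i
    · exact absurd h1 (by norm_num)
    · exact absurd h1 (by norm_num)
    · exact absurd h1 (by norm_num)
    · exact absurd h1 (by norm_num)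
    · exact corT_cert (G1 := gB4q0) (G2 := gB0q2) (Ga := gB4q1) (Gb := gB5q1) cB012R_ok B hρ (gatB40 x) (gatB02 x) (fun h => absurd h (by decide)) (fun _ => gatB51 x) hd hx hx' CG.B012R_404
    · exact corT_cert (G1 := gB4q0) (G2 := gB0q2) (Ga := gB5q1) (Gb := gB6q1) cB012R_ok B hρ (gatB40 x) (gatB02 x) (fun _ => gatB51 x) (fun _ => gatB61 x) hd hx hx' CG.B012R_405
    · exact corT_cert (G1 := gB4q0) (G2 := gB0q2) (Ga := gB6q1) (Gb := gB7q1) cB012R_ok B hρ (gatB40 x) (gatB02 x) (fun _ => gatB61 x) (fun _ => gatB71 x) hd hx hx' CG.B012R_406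
    · exact corT_cert (G1 := gB4q0) (G2 := gB0q2) (Ga := gB7q1) (Gb := gB8q1) cB012R_ok B hρ (gatB40 x) (gatB02 x) (fun _ => gatB71 x) (fun _ => gatB81 x) hd hx hx' CG.B012R_407

theorem altB_B012R_41 {κ x : ℝ} (hκ : κ * h0 = ken x) (hx : ((649613803 : ℕ) : ℝ) / S ≤ x) (hx' : x ≤ (((649613803 : ℕ) : ℝ) + (48318383 : ℕ)) / S) :
    AltEB 3 κ (eng.v x) (3 / 40) (tnt (h0 * x) (3 / 10)) PP tK tL tC pcB (scP esg pd) [⟨0, 0, 0, 67108864⟩, ⟨1, 1, 0, 67108864⟩, ⟨2, 1, 0, 67108864⟩] 0 1 2 4 1 (sgb true) (sgb false) x := by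
  have X : XR 67108864 x := XR.of hx hx' (by norm_num) (by norm_num) (by norm_num) (by norm_num)
  have hen : 0 < eng.v x := en_pos X.x0.le
  refine CornW.altB (C := cB012R) (j := (4 : Fin 9)) (k := (1 : Fin 9)) (Ef := esg) (pd := pd) (o := 3 / 40)
    (cornW_of (C := cB012R) (C0 := c0B) (En := eng) (mo := mog) (j := (4 : Fin 9)) (k := (1 : Fin 9)) (lo := 5) (hi := 8) (W := 67108864) (N0 := 3) cB012R_q (sideB hx hx') gokB (pinU hx hx') dokB X (by norm_num) (by norm_num) (l := (5 : Fin 9)) rfl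
      (gatB40 x) (gatB12 x) (gatB51 x) (datB40 x) (datB12 x) (datB51 x) ?_)
    (cornS_of (C := cB012R) (C0 := c0B) (j := (4 : Fin 9)) (k := (1 : Fin 9)) (lo := 5) (hi := 8) (W := 67108864) (N0 := 3) cB012R_q (sideB hx hx') gokB X (by norm_num) (by norm_num) (l := (5 : Fin 9)) rfl
      (gatB40 x) (gatB12 x) (gatB51 x) ?_)
    (thU (pinU hx hx')) rfl hκ (fun j q y => tC_eq j q y x) (esg_rng X.x0.le (by linarith [X.b, X.p0])).1 (mo_v x) le_rfl le_rfl
  · intro ρ a B hρ hd i h1 h2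
    fin_cases i
    · exact absurd h1 (by norm_num)
    · exact absurd h1 (by norm_num)
    · exact absurd h1 (by norm_num)
    · exact absurd h1 (by norm_num)
    · exact corW_cert (G1 := gB4q0) (G2 := gB1q2) (Ga := gB4q1) (Gb := gB5q1) (D1 := dB4q0) (D2 := dB1q2) (Da := dB4q1) (Db := dB5q1) cB012R_ok B hρ hen (gatB40 x) (gatB12 x) (fun h => absurd h (by decide)) (fun _ => gatB51 x) (datB40 x) (datB12 x) (fun h => absurd h (by decide)) (fun _ => datB51 x) hd hx hx' CW.B012R_414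
    · exact corW_cert (G1 := gB4q0) (G2 := gB1q2) (Ga := gB5q1) (Gb := gB6q1) (D1 := dB4q0) (D2 := dB1q2) (Da := dB5q1) (Db := dB6q1) cB012R_ok B hρ hen (gatB40 x) (gatB12 x) (fun _ => gatB51 x) (fun _ => gatB61 x) (datB40 x) (datB12 x) (fun _ => datB51 x) (fun _ => datB61 x) hd hx hx' CW.B012R_415
    · exact corW_cert (G1 := gB4q0) (G2 := gB1q2) (Ga := gB6q1) (Gb := gB7q1) (D1 := dB4q0) (D2 := dB1q2) (Da := dB6q1) (Db := dB7q1) cB012R_ok B hρ hen (gatB40 x) (gatB12 x) (fun _ => gatB61 x) (fun _ => gatB71 x) (datB40 x) (datB12 x) (fun _ => datB61 x) (fun _ => datB71 x) hd hx hx' CW.B012R_416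
    · exact corW_cert (G1 := gB4q0) (G2 := gB1q2) (Ga := gB7q1) (Gb := gB8q1) (D1 := dB4q0) (D2 := dB1q2) (Da := dB7q1) (Db := dB8q1) cB012R_ok B hρ hen (gatB40 x) (gatB12 x) (fun _ => gatB71 x) (fun _ => gatB81 x) (datB40 x) (datB12 x) (fun _ => datB71 x) (fun _ => datB81 x) hd hx hx' CW.B012R_417
  · intro ρ a B hρ hd i h1 h2
    fin_cases i
    · exact absurd h1 (by norm_num)
    · exact absurd h1 (by norm_num)
    · exact absurd h1 (by norm_num)
    · exact absurd h1 (by norm_num)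
    · exact corT_cert (G1 := gB4q0) (G2 := gB1q2) (Ga := gB4q1) (Gb := gB5q1) cB012R_ok B hρ (gatB40 x) (gatB12 x) (fun h => absurd h (by decide)) (fun _ => gatB51 x) hd hx hx' CG.B012R_414
    · exact corT_cert (G1 := gB4q0) (G2 := gB1q2) (Ga := gB5q1) (Gb := gB6q1) cB012R_ok B hρ (gatB40 x) (gatB12 x) (fun _ => gatB51 x) (fun _ => gatB61 x) hd hx hx' CG.B012R_415
    · exact corT_cert (G1 := gB4q0) (G2 := gB1q2) (Ga := gB6q1) (Gb := gB7q1) cB012R_ok B hρ (gatB40 x) (gatB12 x) (fun _ => gatB61 x) (fun _ => gatB71 x) hd hx hx' CG.B012R_416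
    · exact corT_cert (G1 := gB4q0) (G2 := gB1q2) (Ga := gB7q1) (Gb := gB8q1) cB012R_ok B hρ (gatB40 x) (gatB12 x) (fun _ => gatB71 x) (fun _ => gatB81 x) hd hx hx' CG.B012R_417

theorem altB_B012R_42 {κ x : ℝ} (hκ : κ * h0 = ken x) (hx : ((649613803 : ℕ) : ℝ) / S ≤ x) (hx' : x ≤ (((649613803 : ℕ) : ℝ) + (48318383 : ℕ)) / S) :
    AltEB 3 κ (eng.v x) (3 / 40) (tnt (h0 * x) (3 / 10)) PP tK tL tC pcB (scP esg pd) [⟨0, 0, 0, 67108864⟩, ⟨1, 1, 0, 67108864⟩, ⟨2, 1, 0, 67108864⟩] 0 1 2 4 2 (sgb true) (sgb false) x := by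
  have X : XR 67108864 x := XR.of hx hx' (by norm_num) (by norm_num) (by norm_num) (by norm_num)
  have hen : 0 < eng.v x := en_pos X.x0.le
  refine CornW.altB (C := cB012R) (j := (4 : Fin 9)) (k := (2 : Fin 9)) (Ef := esg) (pd := pd) (o := 3 / 40)
    (cornW_of (C := cB012R) (C0 := c0B) (En := eng) (mo := mog) (j := (4 : Fin 9)) (k := (2 : Fin 9)) (lo := 5) (hi := 8) (W := 67108864) (N0 := 3) cB012R_q (sideB hx hx') gokB (pinU hx hx') dokB X (by norm_num) (by norm_num) (l := (5 : Fin 9)) rfl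
      (gatB40 x) (gatB22 x) (gatB51 x) (datB40 x) (datB22 x) (datB51 x) ?_)
    (cornS_of (C := cB012R) (C0 := c0B) (j := (4 : Fin 9)) (k := (2 : Fin 9)) (lo := 5) (hi := 8) (W := 67108864) (N0 := 3) cB012R_q (sideB hx hx') gokB X (by norm_num) (by norm_num) (l := (5 : Fin 9)) rfl
      (gatB40 x) (gatB22 x) (gatB51 x) ?_)
    (thU (pinU hx hx')) rfl hκ (fun j q y => tC_eq j q y x) (esg_rng X.x0.le (by linarith [X.b, X.p0])).1 (mo_v x) le_rfl le_rfl
  · intro ρ a B hρ hd i h1 h2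
    fin_cases i
    · exact absurd h1 (by norm_num)
    · exact absurd h1 (by norm_num)
    · exact absurd h1 (by norm_num)
    · exact absurd h1 (by norm_num)
    · exact corW_cert (G1 := gB4q0) (G2 := gB2q2) (Ga := gB4q1) (Gb := gB5q1) (D1 := dB4q0) (D2 := dB2q2) (Da := dB4q1) (Db := dB5q1) cB012R_ok B hρ hen (gatB40 x) (gatB22 x) (fun h => absurd h (by decide)) (fun _ => gatB51 x) (datB40 x) (datB22 x) (fun h => absurd h (by decide)) (fun _ => datB51 x) hd hx hx' CW.B012R_424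
    · exact corW_cert (G1 := gB4q0) (G2 := gB2q2) (Ga := gB5q1) (Gb := gB6q1) (D1 := dB4q0) (D2 := dB2q2) (Da := dB5q1) (Db := dB6q1) cB012R_ok B hρ hen (gatB40 x) (gatB22 x) (fun _ => gatB51 x) (fun _ => gatB61 x) (datB40 x) (datB22 x) (fun _ => datB51 x) (fun _ => datB61 x) hd hx hx' CW.B012R_425
    · exact corW_cert (G1 := gB4q0) (G2 := gB2q2) (Ga := gB6q1) (Gb := gB7q1) (D1 := dB4q0) (D2 := dB2q2) (Da := dB6q1) (Db := dB7q1) cB012R_ok B hρ hen (gatB40 x) (gatB22 x) (fun _ => gatB61 x) (fun _ => gatB71 x) (datB40 x) (datB22 x) (fun _ => datB61 x) (fun _ => datB71 x) hd hx hx' CW.B012R_426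
    · exact corW_cert (G1 := gB4q0) (G2 := gB2q2) (Ga := gB7q1) (Gb := gB8q1) (D1 := dB4q0) (D2 := dB2q2) (Da := dB7q1) (Db := dB8q1) cB012R_ok B hρ hen (gatB40 x) (gatB22 x) (fun _ => gatB71 x) (fun _ => gatB81 x) (datB40 x) (datB22 x) (fun _ => datB71 x) (fun _ => datB81 x) hd hx hx' CW.B012R_427
  · intro ρ a B hρ hd i h1 h2
    fin_cases i
    · exact absurd h1 (by norm_num)
    · exact absurd h1 (by norm_num)
    · exact absurd h1 (by norm_num)
    · exact absurd h1 (by norm_num)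
    · exact corT_cert (G1 := gB4q0) (G2 := gB2q2) (Ga := gB4q1) (Gb := gB5q1) cB012R_ok B hρ (gatB40 x) (gatB22 x) (fun h => absurd h (by decide)) (fun _ => gatB51 x) hd hx hx' CG.B012R_424
    · exact corT_cert (G1 := gB4q0) (G2 := gB2q2) (Ga := gB5q1) (Gb := gB6q1) cB012R_ok B hρ (gatB40 x) (gatB22 x) (fun _ => gatB51 x) (fun _ => gatB61 x) hd hx hx' CG.B012R_425
    · exact corT_cert (G1 := gB4q0) (G2 := gB2q2) (Ga := gB6q1) (Gb := gB7q1) cB012R_ok B hρ (gatB40 x) (gatB22 x) (fun _ => gatB61 x) (fun _ => gatB71 x) hd hx hx' CG.B012R_426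
    · exact corT_cert (G1 := gB4q0) (G2 := gB2q2) (Ga := gB7q1) (Gb := gB8q1) cB012R_ok B hρ (gatB40 x) (gatB22 x) (fun _ => gatB71 x) (fun _ => gatB81 x) hd hx hx' CG.B012R_427

theorem altB_B012R_43 {κ x : ℝ} (hκ : κ * h0 = ken x) (hx : ((649613803 : ℕ) : ℝ) / S ≤ x) (hx' : x ≤ (((649613803 : ℕ) : ℝ) + (48318383 : ℕ)) / S) :
    AltEB 3 κ (eng.v x) (3 / 40) (tnt (h0 * x) (3 / 10)) PP tK tL tC pcB (scP esg pd) [⟨0, 0, 0, 67108864⟩, ⟨1, 1, 0, 67108864⟩, ⟨2, 1, 0, 67108864⟩] 0 1 2 4 3 (sgb true) (sgb false) x := by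
  have X : XR 67108864 x := XR.of hx hx' (by norm_num) (by norm_num) (by norm_num) (by norm_num)
  have hen : 0 < eng.v x := en_pos X.x0.le
  refine CornW.altB (C := cB012R) (j := (4 : Fin 9)) (k := (3 : Fin 9)) (Ef := esg) (pd := pd) (o := 3 / 40)
    (cornW_of (C := cB012R) (C0 := c0B) (En := eng) (mo := mog) (j := (4 : Fin 9)) (k := (3 : Fin 9)) (lo := 5) (hi := 8) (W := 67108864) (N0 := 3) cB012R_q (sideB hx hx') gokB (pinU hx hx') dokB X (by norm_num) (by norm_num) (l := (5 : Fin 9)) rfl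
      (gatB40 x) (gatB32 x) (gatB51 x) (datB40 x) (datB32 x) (datB51 x) ?_)
    (cornS_of (C := cB012R) (C0 := c0B) (j := (4 : Fin 9)) (k := (3 : Fin 9)) (lo := 5) (hi := 8) (W := 67108864) (N0 := 3) cB012R_q (sideB hx hx') gokB X (by norm_num) (by norm_num) (l := (5 : Fin 9)) rfl
      (gatB40 x) (gatB32 x) (gatB51 x) ?_)
    (thU (pinU hx hx')) rfl hκ (fun j q y => tC_eq j q y x) (esg_rng X.x0.le (by linarith [X.b, X.p0])).1 (mo_v x) le_rfl le_rfl
  · intro ρ a B hρ hd i h1 h2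
    fin_cases i
    · exact absurd h1 (by norm_num)
    · exact absurd h1 (by norm_num)
    · exact absurd h1 (by norm_num)
    · exact absurd h1 (by norm_num)
    · exact corW_cert (G1 := gB4q0) (G2 := gB3q2) (Ga := gB4q1) (Gb := gB5q1) (D1 := dB4q0) (D2 := dB3q2) (Da := dB4q1) (Db := dB5q1) cB012R_ok B hρ hen (gatB40 x) (gatB32 x) (fun h => absurd h (by decide)) (fun _ => gatB51 x) (datB40 x) (datB32 x) (fun h => absurd h (by decide)) (fun _ => datB51 x) hd hx hx' CW.B012R_434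
    · exact corW_cert (G1 := gB4q0) (G2 := gB3q2) (Ga := gB5q1) (Gb := gB6q1) (D1 := dB4q0) (D2 := dB3q2) (Da := dB5q1) (Db := dB6q1) cB012R_ok B hρ hen (gatB40 x) (gatB32 x) (fun _ => gatB51 x) (fun _ => gatB61 x) (datB40 x) (datB32 x) (fun _ => datB51 x) (fun _ => datB61 x) hd hx hx' CW.B012R_435
    · exact corW_cert (G1 := gB4q0) (G2 := gB3q2) (Ga := gB6q1) (Gb := gB7q1) (D1 := dB4q0) (D2 := dB3q2) (Da := dB6q1) (Db := dB7q1) cB012R_ok B hρ hen (gatB40 x) (gatB32 x) (fun _ => gatB61 x) (fun _ => gatB71 x) (datB40 x) (datB32 x) (fun _ => datB61 x) (fun _ => datB71 x) hd hx hx' CW.B012R_436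
    · exact corW_cert (G1 := gB4q0) (G2 := gB3q2) (Ga := gB7q1) (Gb := gB8q1) (D1 := dB4q0) (D2 := dB3q2) (Da := dB7q1) (Db := dB8q1) cB012R_ok B hρ hen (gatB40 x) (gatB32 x) (fun _ => gatB71 x) (fun _ => gatB81 x) (datB40 x) (datB32 x) (fun _ => datB71 x) (fun _ => datB81 x) hd hx hx' CW.B012R_437
  · intro ρ a B hρ hd i h1 h2
    fin_cases i
    · exact absurd h1 (by norm_num)
    · exact absurd h1 (by norm_num)
    · exact absurd h1 (by norm_num)
    · exact absurd h1 (by norm_num)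
    · exact corT_cert (G1 := gB4q0) (G2 := gB3q2) (Ga := gB4q1) (Gb := gB5q1) cB012R_ok B hρ (gatB40 x) (gatB32 x) (fun h => absurd h (by decide)) (fun _ => gatB51 x) hd hx hx' CG.B012R_434
    · exact corT_cert (G1 := gB4q0) (G2 := gB3q2) (Ga := gB5q1) (Gb := gB6q1) cB012R_ok B hρ (gatB40 x) (gatB32 x) (fun _ => gatB51 x) (fun _ => gatB61 x) hd hx hx' CG.B012R_435
    · exact corT_cert (G1 := gB4q0) (G2 := gB3q2) (Ga := gB6q1) (Gb := gB7q1) cB012R_ok B hρ (gatB40 x) (gatB32 x) (fun _ => gatB61 x) (fun _ => gatB71 x) hd hx hx' CG.B012R_436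
    · exact corT_cert (G1 := gB4q0) (G2 := gB3q2) (Ga := gB7q1) (Gb := gB8q1) cB012R_ok B hρ (gatB40 x) (gatB32 x) (fun _ => gatB71 x) (fun _ => gatB81 x) hd hx hx' CG.B012R_437

theorem altB_B012R_44 {κ x : ℝ} (hκ : κ * h0 = ken x) (hx : ((649613803 : ℕ) : ℝ) / S ≤ x) (hx' : x ≤ (((649613803 : ℕ) : ℝ) + (48318383 : ℕ)) / S) :
    AltEB 3 κ (eng.v x) (3 / 40) (tnt (h0 * x) (3 / 10)) PP tK tL tC pcB (scP esg pd) [⟨0, 0, 0, 67108864⟩, ⟨1, 1, 0, 67108864⟩, ⟨2, 1, 0, 67108864⟩] 0 1 2 4 4 (sgb true) (sgb false) x := by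
  have X : XR 67108864 x := XR.of hx hx' (by norm_num) (by norm_num) (by norm_num) (by norm_num)
  have hen : 0 < eng.v x := en_pos X.x0.le
  refine CornW.altB (C := cB012R) (j := (4 : Fin 9)) (k := (4 : Fin 9)) (Ef := esg) (pd := pd) (o := 3 / 40)
    (cornW_of (C := cB012R) (C0 := c0B) (En := eng) (mo := mog) (j := (4 : Fin 9)) (k := (4 : Fin 9)) (lo := 5) (hi := 8) (W := 67108864) (N0 := 3) cB012R_q (sideB hx hx') gokB (pinU hx hx') dokB X (by norm_num) (by norm_num) (l := (5 : Fin 9)) rfl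
      (gatB40 x) (gatB42 x) (gatB51 x) (datB40 x) (datB42 x) (datB51 x) ?_)
    (cornS_of (C := cB012R) (C0 := c0B) (j := (4 : Fin 9)) (k := (4 : Fin 9)) (lo := 5) (hi := 8) (W := 67108864) (N0 := 3) cB012R_q (sideB hx hx') gokB X (by norm_num) (by norm_num) (l := (5 : Fin 9)) rfl
      (gatB40 x) (gatB42 x) (gatB51 x) ?_)
    (thU (pinU hx hx')) rfl hκ (fun j q y => tC_eq j q y x) (esg_rng X.x0.le (by linarith [X.b, X.p0])).1 (mo_v x) le_rfl le_rfl
  · intro ρ a B hρ hd i h1 h2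
    fin_cases i
    · exact absurd h1 (by norm_num)
    · exact absurd h1 (by norm_num)
    · exact absurd h1 (by norm_num)
    · exact absurd h1 (by norm_num)
    · exact corW_cert (G1 := gB4q0) (G2 := gB4q2) (Ga := gB4q1) (Gb := gB5q1) (D1 := dB4q0) (D2 := dB4q2) (Da := dB4q1) (Db := dB5q1) cB012R_ok B hρ hen (gatB40 x) (gatB42 x) (fun h => absurd h (by decide)) (fun _ => gatB51 x) (datB40 x) (datB42 x) (fun h => absurd h (by decide)) (fun _ => datB51 x) hd hx hx' CW.B012R_444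
    · exact corW_cert (G1 := gB4q0) (G2 := gB4q2) (Ga := gB5q1) (Gb := gB6q1) (D1 := dB4q0) (D2 := dB4q2) (Da := dB5q1) (Db := dB6q1) cB012R_ok B hρ hen (gatB40 x) (gatB42 x) (fun _ => gatB51 x) (fun _ => gatB61 x) (datB40 x) (datB42 x) (fun _ => datB51 x) (fun _ => datB61 x) hd hx hx' CW.B012R_445
    · exact corW_cert (G1 := gB4q0) (G2 := gB4q2) (Ga := gB6q1) (Gb := gB7q1) (D1 := dB4q0) (D2 := dB4q2) (Da := dB6q1) (Db := dB7q1) cB012R_ok B hρ hen (gatB40 x) (gatB42 x) (fun _ => gatB61 x) (fun _ => gatB71 x) (datB40 x) (datB42 x) (fun _ => datB61 x) (fun _ => datB71 x) hd hx hx' CW.B012R_446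
    · exact corW_cert (G1 := gB4q0) (G2 := gB4q2) (Ga := gB7q1) (Gb := gB8q1) (D1 := dB4q0) (D2 := dB4q2) (Da := dB7q1) (Db := dB8q1) cB012R_ok B hρ hen (gatB40 x) (gatB42 x) (fun _ => gatB71 x) (fun _ => gatB81 x) (datB40 x) (datB42 x) (fun _ => datB71 x) (fun _ => datB81 x) hd hx hx' CW.B012R_447
  · intro ρ a B hρ hd i h1 h2
    fin_cases i
    · exact absurd h1 (by norm_num)
    · exact absurd h1 (by norm_num)
    · exact absurd h1 (by norm_num)
    · exact absurd h1 (by norm_num)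
    · exact corT_cert (G1 := gB4q0) (G2 := gB4q2) (Ga := gB4q1) (Gb := gB5q1) cB012R_ok B hρ (gatB40 x) (gatB42 x) (fun h => absurd h (by decide)) (fun _ => gatB51 x) hd hx hx' CG.B012R_444
    · exact corT_cert (G1 := gB4q0) (G2 := gB4q2) (Ga := gB5q1) (Gb := gB6q1) cB012R_ok B hρ (gatB40 x) (gatB42 x) (fun _ => gatB51 x) (fun _ => gatB61 x) hd hx hx' CG.B012R_445
    · exact corT_cert (G1 := gB4q0) (G2 := gB4q2) (Ga := gB6q1) (Gb := gB7q1) cB012R_ok B hρ (gatB40 x) (gatB42 x) (fun _ => gatB61 x) (fun _ => gatB71 x) hd hx hx' CG.B012R_446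
    · exact corT_cert (G1 := gB4q0) (G2 := gB4q2) (Ga := gB7q1) (Gb := gB8q1) cB012R_ok B hρ (gatB40 x) (gatB42 x) (fun _ => gatB71 x) (fun _ => gatB81 x) hd hx hx' CG.B012R_447

theorem altB_B022E_00 {κ x : ℝ} (hκ : κ * h0 = ken x) (hx : ((649613803 : ℕ) : ℝ) / S ≤ x) (hx' : x ≤ (((649613803 : ℕ) : ℝ) + (48318383 : ℕ)) / S) :
    AltEB 3 κ (eng.v x) (3 / 40) (tnt (h0 * x) (3 / 10)) PP tK tL tC pcB (scP esg pd) [⟨0, 0, 0, 67108864⟩, ⟨1, 1, 0, 67108864⟩, ⟨2, 1, 0, 67108864⟩] 0 2 2 0 0 (sgb true) (sgb true) x := by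
  have X : XR 67108864 x := XR.of hx hx' (by norm_num) (by norm_num) (by norm_num) (by norm_num)
  have hen : 0 < eng.v x := en_pos X.x0.le
  refine CornW.altB (C := cB022E) (j := (0 : Fin 9)) (k := (0 : Fin 9)) (Ef := esg) (pd := pd) (o := 3 / 40)
    (cornW_of (C := cB022E) (C0 := c0B) (En := eng) (mo := mog) (j := (0 : Fin 9)) (k := (0 : Fin 9)) (lo := 0) (hi := 4) (W := 67108864) (N0 := 3) cB022E_q (sideB hx hx') gokB (pinU hx hx') dokB X (by norm_num) (by norm_num) (l := (0 : Fin 9)) rfl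
      (gatB00 x) (gatB02 x) (gatB02 x) (datB00 x) (datB02 x) (datB02 x) ?_)
    (cornS_of (C := cB022E) (C0 := c0B) (j := (0 : Fin 9)) (k := (0 : Fin 9)) (lo := 0) (hi := 4) (W := 67108864) (N0 := 3) cB022E_q (sideB hx hx') gokB X (by norm_num) (by norm_num) (l := (0 : Fin 9)) rfl
      (gatB00 x) (gatB02 x) (gatB02 x) ?_)
    (thU (pinU hx hx')) rfl hκ (fun j q y => tC_eq j q y x) (esg_rng X.x0.le (by linarith [X.b, X.p0])).1 (mo_v x) le_rfl le_rfl
  · intro ρ a B hρ hd i h1 h2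
    fin_cases i
    · exact corW_cert (G1 := gB0q0) (G2 := gB0q2) (Ga := gB0q2) (Gb := gB1q2) (D1 := dB0q0) (D2 := dB0q2) (Da := dB0q2) (Db := dB1q2) cB022E_ok B hρ hen (gatB00 x) (gatB02 x) (fun _ => gatB02 x) (fun _ => gatB12 x) (datB00 x) (datB02 x) (fun _ => datB02 x) (fun _ => datB12 x) hd hx hx' CW.B022E_000
    · exact corW_cert (G1 := gB0q0) (G2 := gB0q2) (Ga := gB1q2) (Gb := gB2q2) (D1 := dB0q0) (D2 := dB0q2) (Da := dB1q2) (Db := dB2q2) cB022E_ok B hρ hen (gatB00 x) (gatB02 x) (fun _ => gatB12 x) (fun _ => gatB22 x) (datB00 x) (datB02 x) (fun _ => datB12 x) (fun _ => datB22 x) hd hx hx' CW.B022E_001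
    · exact corW_cert (G1 := gB0q0) (G2 := gB0q2) (Ga := gB2q2) (Gb := gB3q2) (D1 := dB0q0) (D2 := dB0q2) (Da := dB2q2) (Db := dB3q2) cB022E_ok B hρ hen (gatB00 x) (gatB02 x) (fun _ => gatB22 x) (fun _ => gatB32 x) (datB00 x) (datB02 x) (fun _ => datB22 x) (fun _ => datB32 x) hd hx hx' CW.B022E_002
    · exact corW_cert (G1 := gB0q0) (G2 := gB0q2) (Ga := gB3q2) (Gb := gB4q2) (D1 := dB0q0) (D2 := dB0q2) (Da := dB3q2) (Db := dB4q2) cB022E_ok B hρ hen (gatB00 x) (gatB02 x) (fun _ => gatB32 x) (fun _ => gatB42 x) (datB00 x) (datB02 x) (fun _ => datB32 x) (fun _ => datB42 x) hd hx hx' CW.B022E_003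
    · exact corW_cert (G1 := gB0q0) (G2 := gB0q2) (Ga := gB4q2) (Gb := gB5q2) (D1 := dB0q0) (D2 := dB0q2) (Da := dB4q2) (Db := dB5q2) cB022E_ok B hρ hen (gatB00 x) (gatB02 x) (fun _ => gatB42 x) (fun h => absurd h (by decide)) (datB00 x) (datB02 x) (fun _ => datB42 x) (fun h => absurd h (by decide)) hd hx hx' CW.B022E_004
    · exact absurd h2 (by norm_num)
    · exact absurd h2 (by norm_num)
    · exact absurd h2 (by norm_num)
  · intro ρ a B hρ hd i h1 h2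
    fin_cases i
    · exact corT_cert (G1 := gB0q0) (G2 := gB0q2) (Ga := gB0q2) (Gb := gB1q2) cB022E_ok B hρ (gatB00 x) (gatB02 x) (fun _ => gatB02 x) (fun _ => gatB12 x) hd hx hx' CG.B022E_000
    · exact corT_cert (G1 := gB0q0) (G2 := gB0q2) (Ga := gB1q2) (Gb := gB2q2) cB022E_ok B hρ (gatB00 x) (gatB02 x) (fun _ => gatB12 x) (fun _ => gatB22 x) hd hx hx' CG.B022E_001
    · exact corT_cert (G1 := gB0q0) (G2 := gB0q2) (Ga := gB2q2) (Gb := gB3q2) cB022E_ok B hρ (gatB00 x) (gatB02 x) (fun _ => gatB22 x) (fun _ => gatB32 x) hd hx hx' CG.B022E_002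
    · exact corT_cert (G1 := gB0q0) (G2 := gB0q2) (Ga := gB3q2) (Gb := gB4q2) cB022E_ok B hρ (gatB00 x) (gatB02 x) (fun _ => gatB32 x) (fun _ => gatB42 x) hd hx hx' CG.B022E_003
    · exact corT_cert (G1 := gB0q0) (G2 := gB0q2) (Ga := gB4q2) (Gb := gB5q2) cB022E_ok B hρ (gatB00 x) (gatB02 x) (fun _ => gatB42 x) (fun h => absurd h (by decide)) hd hx hx' CG.B022E_004
    · exact absurd h2 (by norm_num)
    · exact absurd h2 (by norm_num)
    · exact absurd h2 (by norm_num)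

theorem altB_B022E_01 {κ x : ℝ} (hκ : κ * h0 = ken x) (hx : ((649613803 : ℕ) : ℝ) / S ≤ x) (hx' : x ≤ (((649613803 : ℕ) : ℝ) + (48318383 : ℕ)) / S) :
    AltEB 3 κ (eng.v x) (3 / 40) (tnt (h0 * x) (3 / 10)) PP tK tL tC pcB (scP esg pd) [⟨0, 0, 0, 67108864⟩, ⟨1, 1, 0, 67108864⟩, ⟨2, 1, 0, 67108864⟩] 0 2 2 0 1 (sgb true) (sgb true) x := by
  have X : XR 67108864 x := XR.of hx hx' (by norm_num) (by norm_num) (by norm_num) (by norm_num)
  have hen : 0 < eng.v x := en_pos X.x0.le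
  refine CornW.altB (C := cB022E) (j := (0 : Fin 9)) (k := (1 : Fin 9)) (Ef := esg) (pd := pd) (o := 3 / 40)
    (cornW_of (C := cB022E) (C0 := c0B) (En := eng) (mo := mog) (j := (0 : Fin 9)) (k := (1 : Fin 9)) (lo := 0) (hi := 4) (W := 67108864) (N0 := 3) cB022E_q (sideB hx hx') gokB (pinU hx hx') dokB X (by norm_num) (by norm_num) (l := (0 : Fin 9)) rfl
      (gatB00 x) (gatB12 x) (gatB02 x) (datB00 x) (datB12 x) (datB02 x) ?_)
    (cornS_of (C := cB022E) (C0 := c0B) (j := (0 : Fin 9)) (k := (1 : Fin 9)) (lo := 0) (hi := 4) (W := 67108864) (N0 := 3) cB022E_q (sideB hx hx') gokB X (by norm_num) (by norm_num) (l := (0 : Fin 9)) rfl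
      (gatB00 x) (gatB12 x) (gatB02 x) ?_)
    (thU (pinU hx hx')) rfl hκ (fun j q y => tC_eq j q y x) (esg_rng X.x0.le (by linarith [X.b, X.p0])).1 (mo_v x) le_rfl le_rfl
  · intro ρ a B hρ hd i h1 h2
    fin_cases i
    · exact corW_cert (G1 := gB0q0) (G2 := gB1q2) (Ga := gB0q2) (Gb := gB1q2) (D1 := dB0q0) (D2 := dB1q2) (Da := dB0q2) (Db := dB1q2) cB022E_ok B hρ hen (gatB00 x) (gatB12 x) (fun _ => gatB02 x) (fun _ => gatB12 x) (datB00 x) (datB12 x) (fun _ => datB02 x) (fun _ => datB12 x) hd hx hx' CW.B022E_010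
    · exact corW_cert (G1 := gB0q0) (G2 := gB1q2) (Ga := gB1q2) (Gb := gB2q2) (D1 := dB0q0) (D2 := dB1q2) (Da := dB1q2) (Db := dB2q2) cB022E_ok B hρ hen (gatB00 x) (gatB12 x) (fun _ => gatB12 x) (fun _ => gatB22 x) (datB00 x) (datB12 x) (fun _ => datB12 x) (fun _ => datB22 x) hd hx hx' CW.B022E_011
    · exact corW_cert (G1 := gB0q0) (G2 := gB1q2) (Ga := gB2q2) (Gb := gB3q2) (D1 := dB0q0) (D2 := dB1q2) (Da := dB2q2) (Db := dB3q2) cB022E_ok B hρ hen (gatB00 x) (gatB12 x) (fun _ => gatB22 x) (fun _ => gatB32 x) (datB00 x) (datB12 x) (fun _ => datB22 x) (fun _ => datB32 x) hd hx hx' CW.B022E_012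
    · exact corW_cert (G1 := gB0q0) (G2 := gB1q2) (Ga := gB3q2) (Gb := gB4q2) (D1 := dB0q0) (D2 := dB1q2) (Da := dB3q2) (Db := dB4q2) cB022E_ok B hρ hen (gatB00 x) (gatB12 x) (fun _ => gatB32 x) (fun _ => gatB42 x) (datB00 x) (datB12 x) (fun _ => datB32 x) (fun _ => datB42 x) hd hx hx' CW.B022E_013
    · exact corW_cert (G1 := gB0q0) (G2 := gB1q2) (Ga := gB4q2) (Gb := gB5q2) (D1 := dB0q0) (D2 := dB1q2) (Da := dB4q2) (Db := dB5q2) cB022E_ok B hρ hen (gatB00 x) (gatB12 x) (fun _ => gatB42 x) (fun h => absurd h (by decide)) (datB00 x) (datB12 x) (fun _ => datB42 x) (fun h => absurd h (by decide)) hd hx hx' CW.B022E_014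
    · exact absurd h2 (by norm_num)
    · exact absurd h2 (by norm_num)
    · exact absurd h2 (by norm_num)
  · intro ρ a B hρ hd i h1 h2
    fin_cases i
    · exact corT_cert (G1 := gB0q0) (G2 := gB1q2) (Ga := gB0q2) (Gb := gB1q2) cB022E_ok B hρ (gatB00 x) (gatB12 x) (fun _ => gatB02 x) (fun _ => gatB12 x) hd hx hx' CG.B022E_010
    · exact corT_cert (G1 := gB0q0) (G2 := gB1q2) (Ga := gB1q2) (Gb := gB2q2) cB022E_ok B hρ (gatB00 x) (gatB12 x) (fun _ => gatB12 x) (fun _ => gatB22 x) hd hx hx' CG.B022E_011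
    · exact corT_cert (G1 := gB0q0) (G2 := gB1q2) (Ga := gB2q2) (Gb := gB3q2) cB022E_ok B hρ (gatB00 x) (gatB12 x) (fun _ => gatB22 x) (fun _ => gatB32 x) hd hx hx' CG.B022E_012
    · exact corT_cert (G1 := gB0q0) (G2 := gB1q2) (Ga := gB3q2) (Gb := gB4q2) cB022E_ok B hρ (gatB00 x) (gatB12 x) (fun _ => gatB32 x) (fun _ => gatB42 x) hd hx hx' CG.B022E_013
    · exact corT_cert (G1 := gB0q0) (G2 := gB1q2) (Ga := gB4q2) (Gb := gB5q2) cB022E_ok B hρ (gatB00 x) (gatB12 x) (fun _ => gatB42 x) (fun h => absurd h (by decide)) hd hx hx' CG.B022E_014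
    · exact absurd h2 (by norm_num)
    · exact absurd h2 (by norm_num)
    · exact absurd h2 (by norm_num)

theorem altB_B022E_02 {κ x : ℝ} (hκ : κ * h0 = ken x) (hx : ((649613803 : ℕ) : ℝ) / S ≤ x) (hx' : x ≤ (((649613803 : ℕ) : ℝ) + (48318383 : ℕ)) / S) :
    AltEB 3 κ (eng.v x) (3 / 40) (tnt (h0 * x) (3 / 10)) PP tK tL tC pcB (scP esg pd) [⟨0, 0, 0, 67108864⟩, ⟨1, 1, 0, 67108864⟩, ⟨2, 1, 0, 67108864⟩] 0 2 2 0 2 (sgb true) (sgb true) x := by
  have X : XR 67108864 x := XR.of hx hx' (by norm_num) (by norm_num) (by norm_num) (by norm_num)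
  have hen : 0 < eng.v x := en_pos X.x0.le
  refine CornW.altB (C := cB022E) (j := (0 : Fin 9)) (k := (2 : Fin 9)) (Ef := esg) (pd := pd) (o := 3 / 40)
    (cornW_of (C := cB022E) (C0 := c0B) (En := eng) (mo := mog) (j := (0 : Fin 9)) (k := (2 : Fin 9)) (lo := 0) (hi := 4) (W := 67108864) (N0 := 3) cB022E_q (sideB hx hx') gokB (pinU hx hx') dokB X (by norm_num) (by norm_num) (l := (0 : Fin 9)) rfl
      (gatB00 x) (gatB22 x) (gatB02 x) (datB00 x) (datB22 x) (datB02 x) ?_)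
    (cornS_of (C := cB022E) (C0 := c0B) (j := (0 : Fin 9)) (k := (2 : Fin 9)) (lo := 0) (hi := 4) (W := 67108864) (N0 := 3) cB022E_q (sideB hx hx') gokB X (by norm_num) (by norm_num) (l := (0 : Fin 9)) rfl
      (gatB00 x) (gatB22 x) (gatB02 x) ?_)
    (thU (pinU hx hx')) rfl hκ (fun j q y => tC_eq j q y x) (esg_rng X.x0.le (by linarith [X.b, X.p0])).1 (mo_v x) le_rfl le_rfl
  · intro ρ a B hρ hd i h1 h2
    fin_cases i
    · exact corW_cert (G1 := gB0q0) (G2 := gB2q2) (Ga := gB0q2) (Gb := gB1q2) (D1 := dB0q0) (D2 := dB2q2) (Da := dB0q2) (Db := dB1q2) cB022E_ok B hρ hen (gatB00 x) (gatB22 x) (fun _ => gatB02 x) (fun _ => gatB12 x) (datB00 x) (datB22 x) (fun _ => datB02 x) (fun _ => datB12 x) hd hx hx' CW.B022E_020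
    · exact corW_cert (G1 := gB0q0) (G2 := gB2q2) (Ga := gB1q2) (Gb := gB2q2) (D1 := dB0q0) (D2 := dB2q2) (Da := dB1q2) (Db := dB2q2) cB022E_ok B hρ hen (gatB00 x) (gatB22 x) (fun _ => gatB12 x) (fun _ => gatB22 x) (datB00 x) (datB22 x) (fun _ => datB12 x) (fun _ => datB22 x) hd hx hx' CW.B022E_021
    · exact corW_cert (G1 := gB0q0) (G2 := gB2q2) (Ga := gB2q2) (Gb := gB3q2) (D1 := dB0q0) (D2 := dB2q2) (Da := dB2q2) (Db := dB3q2) cB022E_ok B hρ hen (gatB00 x) (gatB22 x) (fun _ => gatB22 x) (fun _ => gatB32 x) (datB00 x) (datB22 x) (fun _ => datB22 x) (fun _ => datB32 x) hd hx hx' CW.B022E_022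
    · exact corW_cert (G1 := gB0q0) (G2 := gB2q2) (Ga := gB3q2) (Gb := gB4q2) (D1 := dB0q0) (D2 := dB2q2) (Da := dB3q2) (Db := dB4q2) cB022E_ok B hρ hen (gatB00 x) (gatB22 x) (fun _ => gatB32 x) (fun _ => gatB42 x) (datB00 x) (datB22 x) (fun _ => datB32 x) (fun _ => datB42 x) hd hx hx' CW.B022E_023
    · exact corW_cert (G1 := gB0q0) (G2 := gB2q2) (Ga := gB4q2) (Gb := gB5q2) (D1 := dB0q0) (D2 := dB2q2) (Da := dB4q2) (Db := dB5q2) cB022E_ok B hρ hen (gatB00 x) (gatB22 x) (fun _ => gatB42 x) (fun h => absurd h (by decide)) (datB00 x) (datB22 x) (fun _ => datB42 x) (fun h => absurd h (by decide)) hd hx hx' CW.B022E_024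
    · exact absurd h2 (by norm_num)
    · exact absurd h2 (by norm_num)
    · exact absurd h2 (by norm_num)
  · intro ρ a B hρ hd i h1 h2
    fin_cases i
    · exact corT_cert (G1 := gB0q0) (G2 := gB2q2) (Ga := gB0q2) (Gb := gB1q2) cB022E_ok B hρ (gatB00 x) (gatB22 x) (fun _ => gatB02 x) (fun _ => gatB12 x) hd hx hx' CG.B022E_020
    · exact corT_cert (G1 := gB0q0) (G2 := gB2q2) (Ga := gB1q2) (Gb := gB2q2) cB022E_ok B hρ (gatB00 x) (gatB22 x) (fun _ => gatB12 x) (fun _ => gatB22 x) hd hx hx' CG.B022E_021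
    · exact corT_cert (G1 := gB0q0) (G2 := gB2q2) (Ga := gB2q2) (Gb := gB3q2) cB022E_ok B hρ (gatB00 x) (gatB22 x) (fun _ => gatB22 x) (fun _ => gatB32 x) hd hx hx' CG.B022E_022
    · exact corT_cert (G1 := gB0q0) (G2 := gB2q2) (Ga := gB3q2) (Gb := gB4q2) cB022E_ok B hρ (gatB00 x) (gatB22 x) (fun _ => gatB32 x) (fun _ => gatB42 x) hd hx hx' CG.B022E_023
    · exact corT_cert (G1 := gB0q0) (G2 := gB2q2) (Ga := gB4q2) (Gb := gB5q2) cB022E_ok B hρ (gatB00 x) (gatB22 x) (fun _ => gatB42 x) (fun h => absurd h (by decide)) hd hx hx' CG.B022E_024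
    · exact absurd h2 (by norm_num)
    · exact absurd h2 (by norm_num)
    · exact absurd h2 (by norm_num)

theorem altB_B022E_03 {κ x : ℝ} (hκ : κ * h0 = ken x) (hx : ((649613803 : ℕ) : ℝ) / S ≤ x) (hx' : x ≤ (((649613803 : ℕ) : ℝ) + (48318383 : ℕ)) / S) :
    AltEB 3 κ (eng.v x) (3 / 40) (tnt (h0 * x) (3 / 10)) PP tK tL tC pcB (scP esg pd) [⟨0, 0, 0, 67108864⟩, ⟨1, 1, 0, 67108864⟩, ⟨2, 1, 0, 67108864⟩] 0 2 2 0 3 (sgb true) (sgb true) x := by
  have X : XR 67108864 x := XR.of hx hx' (by norm_num) (by norm_num) (by norm_num) (by norm_num)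
  have hen : 0 < eng.v x := en_pos X.x0.le
  refine CornW.altB (C := cB022E) (j := (0 : Fin 9)) (k := (3 : Fin 9)) (Ef := esg) (pd := pd) (o := 3 / 40)
    (cornW_of (C := cB022E) (C0 := c0B) (En := eng) (mo := mog) (j := (0 : Fin 9)) (k := (3 : Fin 9)) (lo := 0) (hi := 4) (W := 67108864) (N0 := 3) cB022E_q (sideB hx hx') gokB (pinU hx hx') dokB X (by norm_num) (by norm_num) (l := (0 : Fin 9)) rfl
      (gatB00 x) (gatB32 x) (gatB02 x) (datB00 x) (datB32 x) (datB02 x) ?_)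
    (cornS_of (C := cB022E) (C0 := c0B) (j := (0 : Fin 9)) (k := (3 : Fin 9)) (lo := 0) (hi := 4) (W := 67108864) (N0 := 3) cB022E_q (sideB hx hx') gokB X (by norm_num) (by norm_num) (l := (0 : Fin 9)) rfl
      (gatB00 x) (gatB32 x) (gatB02 x) ?_)
    (thU (pinU hx hx')) rfl hκ (fun j q y => tC_eq j q y x) (esg_rng X.x0.le (by linarith [X.b, X.p0])).1 (mo_v x) le_rfl le_rfl
  · intro ρ a B hρ hd i h1 h2
    fin_cases i
    · exact corW_cert (G1 := gB0q0) (G2 := gB3q2) (Ga := gB0q2) (Gb := gB1q2) (D1 := dB0q0) (D2 := dB3q2) (Da := dB0q2) (Db := dB1q2) cB022E_ok B hρ hen (gatB00 x) (gatB32 x) (fun _ => gatB02 x) (fun _ => gatB12 x) (datB00 x) (datB32 x) (fun _ => datB02 x) (fun _ => datB12 x) hd hx hx' CW.B022E_030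
    · exact corW_cert (G1 := gB0q0) (G2 := gB3q2) (Ga := gB1q2) (Gb := gB2q2) (D1 := dB0q0) (D2 := dB3q2) (Da := dB1q2) (Db := dB2q2) cB022E_ok B hρ hen (gatB00 x) (gatB32 x) (fun _ => gatB12 x) (fun _ => gatB22 x) (datB00 x) (datB32 x) (fun _ => datB12 x) (fun _ => datB22 x) hd hx hx' CW.B022E_031
    · exact corW_cert (G1 := gB0q0) (G2 := gB3q2) (Ga := gB2q2) (Gb := gB3q2) (D1 := dB0q0) (D2 := dB3q2) (Da := dB2q2) (Db := dB3q2) cB022E_ok B hρ hen (gatB00 x) (gatB32 x) (fun _ => gatB22 x) (fun _ => gatB32 x) (datB00 x) (datB32 x) (fun _ => datB22 x) (fun _ => datB32 x) hd hx hx' CW.B022E_032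
    · exact corW_cert (G1 := gB0q0) (G2 := gB3q2) (Ga := gB3q2) (Gb := gB4q2) (D1 := dB0q0) (D2 := dB3q2) (Da := dB3q2) (Db := dB4q2) cB022E_ok B hρ hen (gatB00 x) (gatB32 x) (fun _ => gatB32 x) (fun _ => gatB42 x) (datB00 x) (datB32 x) (fun _ => datB32 x) (fun _ => datB42 x) hd hx hx' CW.B022E_033
    · exact corW_cert (G1 := gB0q0) (G2 := gB3q2) (Ga := gB4q2) (Gb := gB5q2) (D1 := dB0q0) (D2 := dB3q2) (Da := dB4q2) (Db := dB5q2) cB022E_ok B hρ hen (gatB00 x) (gatB32 x) (fun _ => gatB42 x) (fun h => absurd h (by decide)) (datB00 x) (datB32 x) (fun _ => datB42 x) (fun h => absurd h (by decide)) hd hx hx' CW.B022E_034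
    · exact absurd h2 (by norm_num)
    · exact absurd h2 (by norm_num)
    · exact absurd h2 (by norm_num)
  · intro ρ a B hρ hd i h1 h2
    fin_cases i
    · exact corT_cert (G1 := gB0q0) (G2 := gB3q2) (Ga := gB0q2) (Gb := gB1q2) cB022E_ok B hρ (gatB00 x) (gatB32 x) (fun _ => gatB02 x) (fun _ => gatB12 x) hd hx hx' CG.B022E_030
    · exact corT_cert (G1 := gB0q0) (G2 := gB3q2) (Ga := gB1q2) (Gb := gB2q2) cB022E_ok B hρ (gatB00 x) (gatB32 x) (fun _ => gatB12 x) (fun _ => gatB22 x) hd hx hx' CG.B022E_031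
    · exact corT_cert (G1 := gB0q0) (G2 := gB3q2) (Ga := gB2q2) (Gb := gB3q2) cB022E_ok B hρ (gatB00 x) (gatB32 x) (fun _ => gatB22 x) (fun _ => gatB32 x) hd hx hx' CG.B022E_032
    · exact corT_cert (G1 := gB0q0) (G2 := gB3q2) (Ga := gB3q2) (Gb := gB4q2) cB022E_ok B hρ (gatB00 x) (gatB32 x) (fun _ => gatB32 x) (fun _ => gatB42 x) hd hx hx' CG.B022E_033
    · exact corT_cert (G1 := gB0q0) (G2 := gB3q2) (Ga := gB4q2) (Gb := gB5q2) cB022E_ok B hρ (gatB00 x) (gatB32 x) (fun _ => gatB42 x) (fun h => absurd h (by decide)) hd hx hx' CG.B022E_034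
    · exact absurd h2 (by norm_num)
    · exact absurd h2 (by norm_num)
    · exact absurd h2 (by norm_num)

theorem altB_B022E_04 {κ x : ℝ} (hκ : κ * h0 = ken x) (hx : ((649613803 : ℕ) : ℝ) / S ≤ x) (hx' : x ≤ (((649613803 : ℕ) : ℝ) + (48318383 : ℕ)) / S) :
    AltEB 3 κ (eng.v x) (3 / 40) (tnt (h0 * x) (3 / 10)) PP tK tL tC pcB (scP esg pd) [⟨0, 0, 0, 67108864⟩, ⟨1, 1, 0, 67108864⟩, ⟨2, 1, 0, 67108864⟩] 0 2 2 0 4 (sgb true) (sgb true) x := by
  have X : XR 67108864 x := XR.of hx hx' (by norm_num) (by norm_num) (by norm_num) (by norm_num)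
  have hen : 0 < eng.v x := en_pos X.x0.le
  refine CornW.altB (C := cB022E) (j := (0 : Fin 9)) (k := (4 : Fin 9)) (Ef := esg) (pd := pd) (o := 3 / 40)
    (cornW_of (C := cB022E) (C0 := c0B) (En := eng) (mo := mog) (j := (0 : Fin 9)) (k := (4 : Fin 9)) (lo := 0) (hi := 4) (W := 67108864) (N0 := 3) cB022E_q (sideB hx hx') gokB (pinU hx hx') dokB X (by norm_num) (by norm_num) (l := (0 : Fin 9)) rfl
      (gatB00 x) (gatB42 x) (gatB02 x) (datB00 x) (datB42 x) (datB02 x) ?_)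
    (cornS_of (C := cB022E) (C0 := c0B) (j := (0 : Fin 9)) (k := (4 : Fin 9)) (lo := 0) (hi := 4) (W := 67108864) (N0 := 3) cB022E_q (sideB hx hx') gokB X (by norm_num) (by norm_num) (l := (0 : Fin 9)) rfl
      (gatB00 x) (gatB42 x) (gatB02 x) ?_)
    (thU (pinU hx hx')) rfl hκ (fun j q y => tC_eq j q y x) (esg_rng X.x0.le (by linarith [X.b, X.p0])).1 (mo_v x) le_rfl le_rfl
  · intro ρ a B hρ hd i h1 h2
    fin_cases i
    · exact corW_cert (G1 := gB0q0) (G2 := gB4q2) (Ga := gB0q2) (Gb := gB1q2) (D1 := dB0q0) (D2 := dB4q2) (Da := dB0q2) (Db := dB1q2) cB022E_ok B hρ hen (gatB00 x) (gatB42 x) (fun _ => gatB02 x) (fun _ => gatB12 x) (datB00 x) (datB42 x) (fun _ => datB02 x) (fun _ => datB12 x) hd hx hx' CW.B022E_040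
    · exact corW_cert (G1 := gB0q0) (G2 := gB4q2) (Ga := gB1q2) (Gb := gB2q2) (D1 := dB0q0) (D2 := dB4q2) (Da := dB1q2) (Db := dB2q2) cB022E_ok B hρ hen (gatB00 x) (gatB42 x) (fun _ => gatB12 x) (fun _ => gatB22 x) (datB00 x) (datB42 x) (fun _ => datB12 x) (fun _ => datB22 x) hd hx hx' CW.B022E_041
    · exact corW_cert (G1 := gB0q0) (G2 := gB4q2) (Ga := gB2q2) (Gb := gB3q2) (D1 := dB0q0) (D2 := dB4q2) (Da := dB2q2) (Db := dB3q2) cB022E_ok B hρ hen (gatB00 x) (gatB42 x) (fun _ => gatB22 x) (fun _ => gatB32 x) (datB00 x) (datB42 x) (fun _ => datB22 x) (fun _ => datB32 x) hd hx hx' CW.B022E_042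
    · exact corW_cert (G1 := gB0q0) (G2 := gB4q2) (Ga := gB3q2) (Gb := gB4q2) (D1 := dB0q0) (D2 := dB4q2) (Da := dB3q2) (Db := dB4q2) cB022E_ok B hρ hen (gatB00 x) (gatB42 x) (fun _ => gatB32 x) (fun _ => gatB42 x) (datB00 x) (datB42 x) (fun _ => datB32 x) (fun _ => datB42 x) hd hx hx' CW.B022E_043
    · exact corW_cert (G1 := gB0q0) (G2 := gB4q2) (Ga := gB4q2) (Gb := gB5q2) (D1 := dB0q0) (D2 := dB4q2) (Da := dB4q2) (Db := dB5q2) cB022E_ok B hρ hen (gatB00 x) (gatB42 x) (fun _ => gatB42 x) (fun h => absurd h (by decide)) (datB00 x) (datB42 x) (fun _ => datB42 x) (fun h => absurd h (by decide)) hd hx hx' CW.B022E_044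
    · exact absurd h2 (by norm_num)
    · exact absurd h2 (by norm_num)
    · exact absurd h2 (by norm_num)
  · intro ρ a B hρ hd i h1 h2
    fin_cases i
    · exact corT_cert (G1 := gB0q0) (G2 := gB4q2) (Ga := gB0q2) (Gb := gB1q2) cB022E_ok B hρ (gatB00 x) (gatB42 x) (fun _ => gatB02 x) (fun _ => gatB12 x) hd hx hx' CG.B022E_040
    · exact corT_cert (G1 := gB0q0) (G2 := gB4q2) (Ga := gB1q2) (Gb := gB2q2) cB022E_ok B hρ (gatB00 x) (gatB42 x) (fun _ => gatB12 x) (fun _ => gatB22 x) hd hx hx' CG.B022E_041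
    · exact corT_cert (G1 := gB0q0) (G2 := gB4q2) (Ga := gB2q2) (Gb := gB3q2) cB022E_ok B hρ (gatB00 x) (gatB42 x) (fun _ => gatB22 x) (fun _ => gatB32 x) hd hx hx' CG.B022E_042
    · exact corT_cert (G1 := gB0q0) (G2 := gB4q2) (Ga := gB3q2) (Gb := gB4q2) cB022E_ok B hρ (gatB00 x) (gatB42 x) (fun _ => gatB32 x) (fun _ => gatB42 x) hd hx hx' CG.B022E_043
    · exact corT_cert (G1 := gB0q0) (G2 := gB4q2) (Ga := gB4q2) (Gb := gB5q2) cB022E_ok B hρ (gatB00 x) (gatB42 x) (fun _ => gatB42 x) (fun h => absurd h (by decide)) hd hx hx' CG.B022E_044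
    · exact absurd h2 (by norm_num)
    · exact absurd h2 (by norm_num)
    · exact absurd h2 (by norm_num)

theorem altB_B022E_10 {κ x : ℝ} (hκ : κ * h0 = ken x) (hx : ((649613803 : ℕ) : ℝ) / S ≤ x) (hx' : x ≤ (((649613803 : ℕ) : ℝ) + (48318383 : ℕ)) / S) :
    AltEB 3 κ (eng.v x) (3 / 40) (tnt (h0 * x) (3 / 10)) PP tK tL tC pcB (scP esg pd) [⟨0, 0, 0, 67108864⟩, ⟨1, 1, 0, 67108864⟩, ⟨2, 1, 0, 67108864⟩] 0 2 2 1 0 (sgb true) (sgb true) x := by
  have X : XR 67108864 x := XR.of hx hx' (by norm_num) (by norm_num) (by norm_num) (by norm_num)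
  have hen : 0 < eng.v x := en_pos X.x0.le
  refine CornW.altB (C := cB022E) (j := (1 : Fin 9)) (k := (0 : Fin 9)) (Ef := esg) (pd := pd) (o := 3 / 40)
    (cornW_of (C := cB022E) (C0 := c0B) (En := eng) (mo := mog) (j := (1 : Fin 9)) (k := (0 : Fin 9)) (lo := 0) (hi := 4) (W := 67108864) (N0 := 3) cB022E_q (sideB hx hx') gokB (pinU hx hx') dokB X (by norm_num) (by norm_num) (l := (0 : Fin 9)) rfl
      (gatB10 x) (gatB02 x) (gatB02 x) (datB10 x) (datB02 x) (datB02 x) ?_)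
    (cornS_of (C := cB022E) (C0 := c0B) (j := (1 : Fin 9)) (k := (0 : Fin 9)) (lo := 0) (hi := 4) (W := 67108864) (N0 := 3) cB022E_q (sideB hx hx') gokB X (by norm_num) (by norm_num) (l := (0 : Fin 9)) rfl
      (gatB10 x) (gatB02 x) (gatB02 x) ?_)
    (thU (pinU hx hx')) rfl hκ (fun j q y => tC_eq j q y x) (esg_rng X.x0.le (by linarith [X.b, X.p0])).1 (mo_v x) le_rfl le_rfl
  · intro ρ a B hρ hd i h1 h2
    fin_cases i
    · exact corW_cert (G1 := gB1q0) (G2 := gB0q2) (Ga := gB0q2) (Gb := gB1q2) (D1 := dB1q0) (D2 := dB0q2) (Da := dB0q2) (Db := dB1q2) cB022E_ok B hρ hen (gatB10 x) (gatB02 x) (fun _ => gatB02 x) (fun _ => gatB12 x) (datB10 x) (datB02 x) (fun _ => datB02 x) (fun _ => datB12 x) hd hx hx' CW.B022E_100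
    · exact corW_cert (G1 := gB1q0) (G2 := gB0q2) (Ga := gB1q2) (Gb := gB2q2) (D1 := dB1q0) (D2 := dB0q2) (Da := dB1q2) (Db := dB2q2) cB022E_ok B hρ hen (gatB10 x) (gatB02 x) (fun _ => gatB12 x) (fun _ => gatB22 x) (datB10 x) (datB02 x) (fun _ => datB12 x) (fun _ => datB22 x) hd hx hx' CW.B022E_101
    · exact corW_cert (G1 := gB1q0) (G2 := gB0q2) (Ga := gB2q2) (Gb := gB3q2) (D1 := dB1q0) (D2 := dB0q2) (Da := dB2q2) (Db := dB3q2) cB022E_ok B hρ hen (gatB10 x) (gatB02 x) (fun _ => gatB22 x) (fun _ => gatB32 x) (datB10 x) (datB02 x) (fun _ => datB22 x) (fun _ => datB32 x) hd hx hx' CW.B022E_102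
    · exact corW_cert (G1 := gB1q0) (G2 := gB0q2) (Ga := gB3q2) (Gb := gB4q2) (D1 := dB1q0) (D2 := dB0q2) (Da := dB3q2) (Db := dB4q2) cB022E_ok B hρ hen (gatB10 x) (gatB02 x) (fun _ => gatB32 x) (fun _ => gatB42 x) (datB10 x) (datB02 x) (fun _ => datB32 x) (fun _ => datB42 x) hd hx hx' CW.B022E_103
    · exact corW_cert (G1 := gB1q0) (G2 := gB0q2) (Ga := gB4q2) (Gb := gB5q2) (D1 := dB1q0) (D2 := dB0q2) (Da := dB4q2) (Db := dB5q2) cB022E_ok B hρ hen (gatB10 x) (gatB02 x) (fun _ => gatB42 x) (fun h => absurd h (by decide)) (datB10 x) (datB02 x) (fun _ => datB42 x) (fun h => absurd h (by decide)) hd hx hx' CW.B022E_104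
    · exact absurd h2 (by norm_num)
    · exact absurd h2 (by norm_num)
    · exact absurd h2 (by norm_num)
  · intro ρ a B hρ hd i h1 h2
    fin_cases i
    · exact corT_cert (G1 := gB1q0) (G2 := gB0q2) (Ga := gB0q2) (Gb := gB1q2) cB022E_ok B hρ (gatB10 x) (gatB02 x) (fun _ => gatB02 x) (fun _ => gatB12 x) hd hx hx' CG.B022E_100
    · exact corT_cert (G1 := gB1q0) (G2 := gB0q2) (Ga := gB1q2) (Gb := gB2q2) cB022E_ok B hρ (gatB10 x) (gatB02 x) (fun _ => gatB12 x) (fun _ => gatB22 x) hd hx hx' CG.B022E_101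
    · exact corT_cert (G1 := gB1q0) (G2 := gB0q2) (Ga := gB2q2) (Gb := gB3q2) cB022E_ok B hρ (gatB10 x) (gatB02 x) (fun _ => gatB22 x) (fun _ => gatB32 x) hd hx hx' CG.B022E_102
    · exact corT_cert (G1 := gB1q0) (G2 := gB0q2) (Ga := gB3q2) (Gb := gB4q2) cB022E_ok B hρ (gatB10 x) (gatB02 x) (fun _ => gatB32 x) (fun _ => gatB42 x) hd hx hx' CG.B022E_103
    · exact corT_cert (G1 := gB1q0) (G2 := gB0q2) (Ga := gB4q2) (Gb := gB5q2) cB022E_ok B hρ (gatB10 x) (gatB02 x) (fun _ => gatB42 x) (fun h => absurd h (by decide)) hd hx hx' CG.B022E_104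
    · exact absurd h2 (by norm_num)
    · exact absurd h2 (by norm_num)
    · exact absurd h2 (by norm_num)

theorem altB_B022E_11 {κ x : ℝ} (hκ : κ * h0 = ken x) (hx : ((649613803 : ℕ) : ℝ) / S ≤ x) (hx' : x ≤ (((649613803 : ℕ) : ℝ) + (48318383 : ℕ)) / S) :
    AltEB 3 κ (eng.v x) (3 / 40) (tnt (h0 * x) (3 / 10)) PP tK tL tC pcB (scP esg pd) [⟨0, 0, 0, 67108864⟩, ⟨1, 1, 0, 67108864⟩, ⟨2, 1, 0, 67108864⟩] 0 2 2 1 1 (sgb true) (sgb true) x := by
  have X : XR 67108864 x := XR.of hx hx' (by norm_num) (by norm_num) (by norm_num) (by norm_num)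
  have hen : 0 < eng.v x := en_pos X.x0.le
  refine CornW.altB (C := cB022E) (j := (1 : Fin 9)) (k := (1 : Fin 9)) (Ef := esg) (pd := pd) (o := 3 / 40)
    (cornW_of (C := cB022E) (C0 := c0B) (En := eng) (mo := mog) (j := (1 : Fin 9)) (k := (1 : Fin 9)) (lo := 0) (hi := 4) (W := 67108864) (N0 := 3) cB022E_q (sideB hx hx') gokB (pinU hx hx') dokB X (by norm_num) (by norm_num) (l := (0 : Fin 9)) rfl
      (gatB10 x) (gatB12 x) (gatB02 x) (datB10 x) (datB12 x) (datB02 x) ?_)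
    (cornS_of (C := cB022E) (C0 := c0B) (j := (1 : Fin 9)) (k := (1 : Fin 9)) (lo := 0) (hi := 4) (W := 67108864) (N0 := 3) cB022E_q (sideB hx hx') gokB X (by norm_num) (by norm_num) (l := (0 : Fin 9)) rfl
      (gatB10 x) (gatB12 x) (gatB02 x) ?_)
    (thU (pinU hx hx')) rfl hκ (fun j q y => tC_eq j q y x) (esg_rng X.x0.le (by linarith [X.b, X.p0])).1 (mo_v x) le_rfl le_rfl
  · intro ρ a B hρ hd i h1 h2
    fin_cases i
    · exact corW_cert (G1 := gB1q0) (G2 := gB1q2) (Ga := gB0q2) (Gb := gB1q2) (D1 := dB1q0) (D2 := dB1q2) (Da := dB0q2) (Db := dB1q2) cB022E_ok B hρ hen (gatB10 x) (gatB12 x) (fun _ => gatB02 x) (fun _ => gatB12 x) (datB10 x) (datB12 x) (fun _ => datB02 x) (fun _ => datB12 x) hd hx hx' CW.B022E_110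
    · exact corW_cert (G1 := gB1q0) (G2 := gB1q2) (Ga := gB1q2) (Gb := gB2q2) (D1 := dB1q0) (D2 := dB1q2) (Da := dB1q2) (Db := dB2q2) cB022E_ok B hρ hen (gatB10 x) (gatB12 x) (fun _ => gatB12 x) (fun _ => gatB22 x) (datB10 x) (datB12 x) (fun _ => datB12 x) (fun _ => datB22 x) hd hx hx' CW.B022E_111
    · exact corW_cert (G1 := gB1q0) (G2 := gB1q2) (Ga := gB2q2) (Gb := gB3q2) (D1 := dB1q0) (D2 := dB1q2) (Da := dB2q2) (Db := dB3q2) cB022E_ok B hρ hen (gatB10 x) (gatB12 x) (fun _ => gatB22 x) (fun _ => gatB32 x) (datB10 x) (datB12 x) (fun _ => datB22 x) (fun _ => datB32 x) hd hx hx' CW.B022E_112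
    · exact corW_cert (G1 := gB1q0) (G2 := gB1q2) (Ga := gB3q2) (Gb := gB4q2) (D1 := dB1q0) (D2 := dB1q2) (Da := dB3q2) (Db := dB4q2) cB022E_ok B hρ hen (gatB10 x) (gatB12 x) (fun _ => gatB32 x) (fun _ => gatB42 x) (datB10 x) (datB12 x) (fun _ => datB32 x) (fun _ => datB42 x) hd hx hx' CW.B022E_113
    · exact corW_cert (G1 := gB1q0) (G2 := gB1q2) (Ga := gB4q2) (Gb := gB5q2) (D1 := dB1q0) (D2 := dB1q2) (Da := dB4q2) (Db := dB5q2) cB022E_ok B hρ hen (gatB10 x) (gatB12 x) (fun _ => gatB42 x) (fun h => absurd h (by decide)) (datB10 x) (datB12 x) (fun _ => datB42 x) (fun h => absurd h (by decide)) hd hx hx' CW.B022E_114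
    · exact absurd h2 (by norm_num)
    · exact absurd h2 (by norm_num)
    · exact absurd h2 (by norm_num)
  · intro ρ a B hρ hd i h1 h2
    fin_cases i
    · exact corT_cert (G1 := gB1q0) (G2 := gB1q2) (Ga := gB0q2) (Gb := gB1q2) cB022E_ok B hρ (gatB10 x) (gatB12 x) (fun _ => gatB02 x) (fun _ => gatB12 x) hd hx hx' CG.B022E_110
    · exact corT_cert (G1 := gB1q0) (G2 := gB1q2) (Ga := gB1q2) (Gb := gB2q2) cB022E_ok B hρ (gatB10 x) (gatB12 x) (fun _ => gatB12 x) (fun _ => gatB22 x) hd hx hx' CG.B022E_111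
    · exact corT_cert (G1 := gB1q0) (G2 := gB1q2) (Ga := gB2q2) (Gb := gB3q2) cB022E_ok B hρ (gatB10 x) (gatB12 x) (fun _ => gatB22 x) (fun _ => gatB32 x) hd hx hx' CG.B022E_112
    · exact corT_cert (G1 := gB1q0) (G2 := gB1q2) (Ga := gB3q2) (Gb := gB4q2) cB022E_ok B hρ (gatB10 x) (gatB12 x) (fun _ => gatB32 x) (fun _ => gatB42 x) hd hx hx' CG.B022E_113
    · exact corT_cert (G1 := gB1q0) (G2 := gB1q2) (Ga := gB4q2) (Gb := gB5q2) cB022E_ok B hρ (gatB10 x) (gatB12 x) (fun _ => gatB42 x) (fun h => absurd h (by decide)) hd hx hx' CG.B022E_114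
    · exact absurd h2 (by norm_num)
    · exact absurd h2 (by norm_num)
    · exact absurd h2 (by norm_num)

theorem altB_B022E_12 {κ x : ℝ} (hκ : κ * h0 = ken x) (hx : ((649613803 : ℕ) : ℝ) / S ≤ x) (hx' : x ≤ (((649613803 : ℕ) : ℝ) + (48318383 : ℕ)) / S) :
    AltEB 3 κ (eng.v x) (3 / 40) (tnt (h0 * x) (3 / 10)) PP tK tL tC pcB (scP esg pd) [⟨0, 0, 0, 67108864⟩, ⟨1, 1, 0, 67108864⟩, ⟨2, 1, 0, 67108864⟩] 0 2 2 1 2 (sgb true) (sgb true) x := by
  have X : XR 67108864 x := XR.of hx hx' (by norm_num) (by norm_num) (by norm_num) (by norm_num)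
  have hen : 0 < eng.v x := en_pos X.x0.le
  refine CornW.altB (C := cB022E) (j := (1 : Fin 9)) (k := (2 : Fin 9)) (Ef := esg) (pd := pd) (o := 3 / 40)
    (cornW_of (C := cB022E) (C0 := c0B) (En := eng) (mo := mog) (j := (1 : Fin 9)) (k := (2 : Fin 9)) (lo := 0) (hi := 4) (W := 67108864) (N0 := 3) cB022E_q (sideB hx hx') gokB (pinU hx hx') dokB X (by norm_num) (by norm_num) (l := (0 : Fin 9)) rfl
      (gatB10 x) (gatB22 x) (gatB02 x) (datB10 x) (datB22 x) (datB02 x) ?_)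
    (cornS_of (C := cB022E) (C0 := c0B) (j := (1 : Fin 9)) (k := (2 : Fin 9)) (lo := 0) (hi := 4) (W := 67108864) (N0 := 3) cB022E_q (sideB hx hx') gokB X (by norm_num) (by norm_num) (l := (0 : Fin 9)) rfl
      (gatB10 x) (gatB22 x) (gatB02 x) ?_)
    (thU (pinU hx hx')) rfl hκ (fun j q y => tC_eq j q y x) (esg_rng X.x0.le (by linarith [X.b, X.p0])).1 (mo_v x) le_rfl le_rfl
  · intro ρ a B hρ hd i h1 h2
    fin_cases i
    · exact corW_cert (G1 := gB1q0) (G2 := gB2q2) (Ga := gB0q2) (Gb := gB1q2) (D1 := dB1q0) (D2 := dB2q2) (Da := dB0q2) (Db := dB1q2) cB022E_ok B hρ hen (gatB10 x) (gatB22 x) (fun _ => gatB02 x) (fun _ => gatB12 x) (datB10 x) (datB22 x) (fun _ => datB02 x) (fun _ => datB12 x) hd hx hx' CW.B022E_120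
    · exact corW_cert (G1 := gB1q0) (G2 := gB2q2) (Ga := gB1q2) (Gb := gB2q2) (D1 := dB1q0) (D2 := dB2q2) (Da := dB1q2) (Db := dB2q2) cB022E_ok B hρ hen (gatB10 x) (gatB22 x) (fun _ => gatB12 x) (fun _ => gatB22 x) (datB10 x) (datB22 x) (fun _ => datB12 x) (fun _ => datB22 x) hd hx hx' CW.B022E_121
    · exact corW_cert (G1 := gB1q0) (G2 := gB2q2) (Ga := gB2q2) (Gb := gB3q2) (D1 := dB1q0) (D2 := dB2q2) (Da := dB2q2) (Db := dB3q2) cB022E_ok B hρ hen (gatB10 x) (gatB22 x) (fun _ => gatB22 x) (fun _ => gatB32 x) (datB10 x) (datB22 x) (fun _ => datB22 x) (fun _ => datB32 x) hd hx hx' CW.B022E_122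
    · exact corW_cert (G1 := gB1q0) (G2 := gB2q2) (Ga := gB3q2) (Gb := gB4q2) (D1 := dB1q0) (D2 := dB2q2) (Da := dB3q2) (Db := dB4q2) cB022E_ok B hρ hen (gatB10 x) (gatB22 x) (fun _ => gatB32 x) (fun _ => gatB42 x) (datB10 x) (datB22 x) (fun _ => datB32 x) (fun _ => datB42 x) hd hx hx' CW.B022E_123
    · exact corW_cert (G1 := gB1q0) (G2 := gB2q2) (Ga := gB4q2) (Gb := gB5q2) (D1 := dB1q0) (D2 := dB2q2) (Da := dB4q2) (Db := dB5q2) cB022E_ok B hρ hen (gatB10 x) (gatB22 x) (fun _ => gatB42 x) (fun h => absurd h (by decide)) (datB10 x) (datB22 x) (fun _ => datB42 x) (fun h => absurd h (by decide)) hd hx hx' CW.B022E_124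
    · exact absurd h2 (by norm_num)
    · exact absurd h2 (by norm_num)
    · exact absurd h2 (by norm_num)
  · intro ρ a B hρ hd i h1 h2
    fin_cases i
    · exact corT_cert (G1 := gB1q0) (G2 := gB2q2) (Ga := gB0q2) (Gb := gB1q2) cB022E_ok B hρ (gatB10 x) (gatB22 x) (fun _ => gatB02 x) (fun _ => gatB12 x) hd hx hx' CG.B022E_120
    · exact corT_cert (G1 := gB1q0) (G2 := gB2q2) (Ga := gB1q2) (Gb := gB2q2) cB022E_ok B hρ (gatB10 x) (gatB22 x) (fun _ => gatB12 x) (fun _ => gatB22 x) hd hx hx' CG.B022E_121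
    · exact corT_cert (G1 := gB1q0) (G2 := gB2q2) (Ga := gB2q2) (Gb := gB3q2) cB022E_ok B hρ (gatB10 x) (gatB22 x) (fun _ => gatB22 x) (fun _ => gatB32 x) hd hx hx' CG.B022E_122
    · exact corT_cert (G1 := gB1q0) (G2 := gB2q2) (Ga := gB3q2) (Gb := gB4q2) cB022E_ok B hρ (gatB10 x) (gatB22 x) (fun _ => gatB32 x) (fun _ => gatB42 x) hd hx hx' CG.B022E_123
    · exact corT_cert (G1 := gB1q0) (G2 := gB2q2) (Ga := gB4q2) (Gb := gB5q2) cB022E_ok B hρ (gatB10 x) (gatB22 x) (fun _ => gatB42 x) (fun h => absurd h (by decide)) hd hx hx' CG.B022E_124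
    · exact absurd h2 (by norm_num)
    · exact absurd h2 (by norm_num)
    · exact absurd h2 (by norm_num)

theorem altB_B022E_13 {κ x : ℝ} (hκ : κ * h0 = ken x) (hx : ((649613803 : ℕ) : ℝ) / S ≤ x) (hx' : x ≤ (((649613803 : ℕ) : ℝ) + (48318383 : ℕ)) / S) :
    AltEB 3 κ (eng.v x) (3 / 40) (tnt (h0 * x) (3 / 10)) PP tK tL tC pcB (scP esg pd) [⟨0, 0, 0, 67108864⟩, ⟨1, 1, 0, 67108864⟩, ⟨2, 1, 0, 67108864⟩] 0 2 2 1 3 (sgb true) (sgb true) x := by
  have X : XR 67108864 x := XR.of hx hx' (by norm_num) (by norm_num) (by norm_num) (by norm_num)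
  have hen : 0 < eng.v x := en_pos X.x0.le
  refine CornW.altB (C := cB022E) (j := (1 : Fin 9)) (k := (3 : Fin 9)) (Ef := esg) (pd := pd) (o := 3 / 40)
    (cornW_of (C := cB022E) (C0 := c0B) (En := eng) (mo := mog) (j := (1 : Fin 9)) (k := (3 : Fin 9)) (lo := 0) (hi := 4) (W := 67108864) (N0 := 3) cB022E_q (sideB hx hx') gokB (pinU hx hx') dokB X (by norm_num) (by norm_num) (l := (0 : Fin 9)) rfl
      (gatB10 x) (gatB32 x) (gatB02 x) (datB10 x) (datB32 x) (datB02 x) ?_)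
    (cornS_of (C := cB022E) (C0 := c0B) (j := (1 : Fin 9)) (k := (3 : Fin 9)) (lo := 0) (hi := 4) (W := 67108864) (N0 := 3) cB022E_q (sideB hx hx') gokB X (by norm_num) (by norm_num) (l := (0 : Fin 9)) rfl
      (gatB10 x) (gatB32 x) (gatB02 x) ?_)
    (thU (pinU hx hx')) rfl hκ (fun j q y => tC_eq j q y x) (esg_rng X.x0.le (by linarith [X.b, X.p0])).1 (mo_v x) le_rfl le_rfl
  · intro ρ a B hρ hd i h1 h2
    fin_cases i
    · exact corW_cert (G1 := gB1q0) (G2 := gB3q2) (Ga := gB0q2) (Gb := gB1q2) (D1 := dB1q0) (D2 := dB3q2) (Da := dB0q2) (Db := dB1q2) cB022E_ok B hρ hen (gatB10 x) (gatB32 x) (fun _ => gatB02 x) (fun _ => gatB12 x) (datB10 x) (datB32 x) (fun _ => datB02 x) (fun _ => datB12 x) hd hx hx' CW.B022E_130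
    · exact corW_cert (G1 := gB1q0) (G2 := gB3q2) (Ga := gB1q2) (Gb := gB2q2) (D1 := dB1q0) (D2 := dB3q2) (Da := dB1q2) (Db := dB2q2) cB022E_ok B hρ hen (gatB10 x) (gatB32 x) (fun _ => gatB12 x) (fun _ => gatB22 x) (datB10 x) (datB32 x) (fun _ => datB12 x) (fun _ => datB22 x) hd hx hx' CW.B022E_131
    · exact corW_cert (G1 := gB1q0) (G2 := gB3q2) (Ga := gB2q2) (Gb := gB3q2) (D1 := dB1q0) (D2 := dB3q2) (Da := dB2q2) (Db := dB3q2) cB022E_ok B hρ hen (gatB10 x) (gatB32 x) (fun _ => gatB22 x) (fun _ => gatB32 x) (datB10 x) (datB32 x) (fun _ => datB22 x) (fun _ => datB32 x) hd hx hx' CW.B022E_132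
    · exact corW_cert (G1 := gB1q0) (G2 := gB3q2) (Ga := gB3q2) (Gb := gB4q2) (D1 := dB1q0) (D2 := dB3q2) (Da := dB3q2) (Db := dB4q2) cB022E_ok B hρ hen (gatB10 x) (gatB32 x) (fun _ => gatB32 x) (fun _ => gatB42 x) (datB10 x) (datB32 x) (fun _ => datB32 x) (fun _ => datB42 x) hd hx hx' CW.B022E_133
    · exact corW_cert (G1 := gB1q0) (G2 := gB3q2) (Ga := gB4q2) (Gb := gB5q2) (D1 := dB1q0) (D2 := dB3q2) (Da := dB4q2) (Db := dB5q2) cB022E_ok B hρ hen (gatB10 x) (gatB32 x) (fun _ => gatB42 x) (fun h => absurd h (by decide)) (datB10 x) (datB32 x) (fun _ => datB42 x) (fun h => absurd h (by decide)) hd hx hx' CW.B022E_134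
    · exact absurd h2 (by norm_num)
    · exact absurd h2 (by norm_num)
    · exact absurd h2 (by norm_num)
  · intro ρ a B hρ hd i h1 h2
    fin_cases i
    · exact corT_cert (G1 := gB1q0) (G2 := gB3q2) (Ga := gB0q2) (Gb := gB1q2) cB022E_ok B hρ (gatB10 x) (gatB32 x) (fun _ => gatB02 x) (fun _ => gatB12 x) hd hx hx' CG.B022E_130
    · exact corT_cert (G1 := gB1q0) (G2 := gB3q2) (Ga := gB1q2) (Gb := gB2q2) cB022E_ok B hρ (gatB10 x) (gatB32 x) (fun _ => gatB12 x) (fun _ => gatB22 x) hd hx hx' CG.B022E_131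
    · exact corT_cert (G1 := gB1q0) (G2 := gB3q2) (Ga := gB2q2) (Gb := gB3q2) cB022E_ok B hρ (gatB10 x) (gatB32 x) (fun _ => gatB22 x) (fun _ => gatB32 x) hd hx hx' CG.B022E_132
    · exact corT_cert (G1 := gB1q0) (G2 := gB3q2) (Ga := gB3q2) (Gb := gB4q2) cB022E_ok B hρ (gatB10 x) (gatB32 x) (fun _ => gatB32 x) (fun _ => gatB42 x) hd hx hx' CG.B022E_133
    · exact corT_cert (G1 := gB1q0) (G2 := gB3q2) (Ga := gB4q2) (Gb := gB5q2) cB022E_ok B hρ (gatB10 x) (gatB32 x) (fun _ => gatB42 x) (fun h => absurd h (by decide)) hd hx hx' CG.B022E_134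
    · exact absurd h2 (by norm_num)
    · exact absurd h2 (by norm_num)
    · exact absurd h2 (by norm_num)

theorem altB_B022E_14 {κ x : ℝ} (hκ : κ * h0 = ken x) (hx : ((649613803 : ℕ) : ℝ) / S ≤ x) (hx' : x ≤ (((649613803 : ℕ) : ℝ) + (48318383 : ℕ)) / S) :
    AltEB 3 κ (eng.v x) (3 / 40) (tnt (h0 * x) (3 / 10)) PP tK tL tC pcB (scP esg pd) [⟨0, 0, 0, 67108864⟩, ⟨1, 1, 0, 67108864⟩, ⟨2, 1, 0, 67108864⟩] 0 2 2 1 4 (sgb true) (sgb true) x := by
  have X : XR 67108864 x := XR.of hx hx' (by norm_num) (by norm_num) (by norm_num) (by norm_num)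
  have hen : 0 < eng.v x := en_pos X.x0.le
  refine CornW.altB (C := cB022E) (j := (1 : Fin 9)) (k := (4 : Fin 9)) (Ef := esg) (pd := pd) (o := 3 / 40)
    (cornW_of (C := cB022E) (C0 := c0B) (En := eng) (mo := mog) (j := (1 : Fin 9)) (k := (4 : Fin 9)) (lo := 0) (hi := 4) (W := 67108864) (N0 := 3) cB022E_q (sideB hx hx') gokB (pinU hx hx') dokB X (by norm_num) (by norm_num) (l := (0 : Fin 9)) rfl
      (gatB10 x) (gatB42 x) (gatB02 x) (datB10 x) (datB42 x) (datB02 x) ?_)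
    (cornS_of (C := cB022E) (C0 := c0B) (j := (1 : Fin 9)) (k := (4 : Fin 9)) (lo := 0) (hi := 4) (W := 67108864) (N0 := 3) cB022E_q (sideB hx hx') gokB X (by norm_num) (by norm_num) (l := (0 : Fin 9)) rfl
      (gatB10 x) (gatB42 x) (gatB02 x) ?_)
    (thU (pinU hx hx')) rfl hκ (fun j q y => tC_eq j q y x) (esg_rng X.x0.le (by linarith [X.b, X.p0])).1 (mo_v x) le_rfl le_rfl
  · intro ρ a B hρ hd i h1 h2
    fin_cases i
    · exact corW_cert (G1 := gB1q0) (G2 := gB4q2) (Ga := gB0q2) (Gb := gB1q2) (D1 := dB1q0) (D2 := dB4q2) (Da := dB0q2) (Db := dB1q2) cB022E_ok B hρ hen (gatB10 x) (gatB42 x) (fun _ => gatB02 x) (fun _ => gatB12 x) (datB10 x) (datB42 x) (fun _ => datB02 x) (fun _ => datB12 x) hd hx hx' CW.B022E_140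
    · exact corW_cert (G1 := gB1q0) (G2 := gB4q2) (Ga := gB1q2) (Gb := gB2q2) (D1 := dB1q0) (D2 := dB4q2) (Da := dB1q2) (Db := dB2q2) cB022E_ok B hρ hen (gatB10 x) (gatB42 x) (fun _ => gatB12 x) (fun _ => gatB22 x) (datB10 x) (datB42 x) (fun _ => datB12 x) (fun _ => datB22 x) hd hx hx' CW.B022E_141
    · exact corW_cert (G1 := gB1q0) (G2 := gB4q2) (Ga := gB2q2) (Gb := gB3q2) (D1 := dB1q0) (D2 := dB4q2) (Da := dB2q2) (Db := dB3q2) cB022E_ok B hρ hen (gatB10 x) (gatB42 x) (fun _ => gatB22 x) (fun _ => gatB32 x) (datB10 x) (datB42 x) (fun _ => datB22 x) (fun _ => datB32 x) hd hx hx' CW.B022E_142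
    · exact corW_cert (G1 := gB1q0) (G2 := gB4q2) (Ga := gB3q2) (Gb := gB4q2) (D1 := dB1q0) (D2 := dB4q2) (Da := dB3q2) (Db := dB4q2) cB022E_ok B hρ hen (gatB10 x) (gatB42 x) (fun _ => gatB32 x) (fun _ => gatB42 x) (datB10 x) (datB42 x) (fun _ => datB32 x) (fun _ => datB42 x) hd hx hx' CW.B022E_143
    · exact corW_cert (G1 := gB1q0) (G2 := gB4q2) (Ga := gB4q2) (Gb := gB5q2) (D1 := dB1q0) (D2 := dB4q2) (Da := dB4q2) (Db := dB5q2) cB022E_ok B hρ hen (gatB10 x) (gatB42 x) (fun _ => gatB42 x) (fun h => absurd h (by decide)) (datB10 x) (datB42 x) (fun _ => datB42 x) (fun h => absurd h (by decide)) hd hx hx' CW.B022E_144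
    · exact absurd h2 (by norm_num)
    · exact absurd h2 (by norm_num)
    · exact absurd h2 (by norm_num)
  · intro ρ a B hρ hd i h1 h2
    fin_cases i
    · exact corT_cert (G1 := gB1q0) (G2 := gB4q2) (Ga := gB0q2) (Gb := gB1q2) cB022E_ok B hρ (gatB10 x) (gatB42 x) (fun _ => gatB02 x) (fun _ => gatB12 x) hd hx hx' CG.B022E_140
    · exact corT_cert (G1 := gB1q0) (G2 := gB4q2) (Ga := gB1q2) (Gb := gB2q2) cB022E_ok B hρ (gatB10 x) (gatB42 x) (fun _ => gatB12 x) (fun _ => gatB22 x) hd hx hx' CG.B022E_141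
    · exact corT_cert (G1 := gB1q0) (G2 := gB4q2) (Ga := gB2q2) (Gb := gB3q2) cB022E_ok B hρ (gatB10 x) (gatB42 x) (fun _ => gatB22 x) (fun _ => gatB32 x) hd hx hx' CG.B022E_142
    · exact corT_cert (G1 := gB1q0) (G2 := gB4q2) (Ga := gB3q2) (Gb := gB4q2) cB022E_ok B hρ (gatB10 x) (gatB42 x) (fun _ => gatB32 x) (fun _ => gatB42 x) hd hx hx' CG.B022E_143
    · exact corT_cert (G1 := gB1q0) (G2 := gB4q2) (Ga := gB4q2) (Gb := gB5q2) cB022E_ok B hρ (gatB10 x) (gatB42 x) (fun _ => gatB42 x) (fun h => absurd h (by decide)) hd hx hx' CG.B022E_144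
    · exact absurd h2 (by norm_num)
    · exact absurd h2 (by norm_num)
    · exact absurd h2 (by norm_num)

theorem altB_B022E_20 {κ x : ℝ} (hκ : κ * h0 = ken x) (hx : ((649613803 : ℕ) : ℝ) / S ≤ x) (hx' : x ≤ (((649613803 : ℕ) : ℝ) + (48318383 : ℕ)) / S) :
    AltEB 3 κ (eng.v x) (3 / 40) (tnt (h0 * x) (3 / 10)) PP tK tL tC pcB (scP esg pd) [⟨0, 0, 0, 67108864⟩, ⟨1, 1, 0, 67108864⟩, ⟨2, 1, 0, 67108864⟩] 0 2 2 2 0 (sgb true) (sgb true) x := by
  have X : XR 67108864 x := XR.of hx hx' (by norm_num) (by norm_num) (by norm_num) (by norm_num)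
  have hen : 0 < eng.v x := en_pos X.x0.le
  refine CornW.altB (C := cB022E) (j := (2 : Fin 9)) (k := (0 : Fin 9)) (Ef := esg) (pd := pd) (o := 3 / 40)
    (cornW_of (C := cB022E) (C0 := c0B) (En := eng) (mo := mog) (j := (2 : Fin 9)) (k := (0 : Fin 9)) (lo := 0) (hi := 4) (W := 67108864) (N0 := 3) cB022E_q (sideB hx hx') gokB (pinU hx hx') dokB X (by norm_num) (by norm_num) (l := (0 : Fin 9)) rfl
      (gatB20 x) (gatB02 x) (gatB02 x) (datB20 x) (datB02 x) (datB02 x) ?_)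
    (cornS_of (C := cB022E) (C0 := c0B) (j := (2 : Fin 9)) (k := (0 : Fin 9)) (lo := 0) (hi := 4) (W := 67108864) (N0 := 3) cB022E_q (sideB hx hx') gokB X (by norm_num) (by norm_num) (l := (0 : Fin 9)) rfl
      (gatB20 x) (gatB02 x) (gatB02 x) ?_)
    (thU (pinU hx hx')) rfl hκ (fun j q y => tC_eq j q y x) (esg_rng X.x0.le (by linarith [X.b, X.p0])).1 (mo_v x) le_rfl le_rfl
  · intro ρ a B hρ hd i h1 h2
    fin_cases i
    · exact corW_cert (G1 := gB2q0) (G2 := gB0q2) (Ga := gB0q2) (Gb := gB1q2) (D1 := dB2q0) (D2 := dB0q2) (Da := dB0q2) (Db := dB1q2) cB022E_ok B hρ hen (gatB20 x) (gatB02 x) (fun _ => gatB02 x) (fun _ => gatB12 x) (datB20 x) (datB02 x) (fun _ => datB02 x) (fun _ => datB12 x) hd hx hx' CW.B022E_200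
    · exact corW_cert (G1 := gB2q0) (G2 := gB0q2) (Ga := gB1q2) (Gb := gB2q2) (D1 := dB2q0) (D2 := dB0q2) (Da := dB1q2) (Db := dB2q2) cB022E_ok B hρ hen (gatB20 x) (gatB02 x) (fun _ => gatB12 x) (fun _ => gatB22 x) (datB20 x) (datB02 x) (fun _ => datB12 x) (fun _ => datB22 x) hd hx hx' CW.B022E_201
    · exact corW_cert (G1 := gB2q0) (G2 := gB0q2) (Ga := gB2q2) (Gb := gB3q2) (D1 := dB2q0) (D2 := dB0q2) (Da := dB2q2) (Db := dB3q2) cB022E_ok B hρ hen (gatB20 x) (gatB02 x) (fun _ => gatB22 x) (fun _ => gatB32 x) (datB20 x) (datB02 x) (fun _ => datB22 x) (fun _ => datB32 x) hd hx hx' CW.B022E_202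
    · exact corW_cert (G1 := gB2q0) (G2 := gB0q2) (Ga := gB3q2) (Gb := gB4q2) (D1 := dB2q0) (D2 := dB0q2) (Da := dB3q2) (Db := dB4q2) cB022E_ok B hρ hen (gatB20 x) (gatB02 x) (fun _ => gatB32 x) (fun _ => gatB42 x) (datB20 x) (datB02 x) (fun _ => datB32 x) (fun _ => datB42 x) hd hx hx' CW.B022E_203
    · exact corW_cert (G1 := gB2q0) (G2 := gB0q2) (Ga := gB4q2) (Gb := gB5q2) (D1 := dB2q0) (D2 := dB0q2) (Da := dB4q2) (Db := dB5q2) cB022E_ok B hρ hen (gatB20 x) (gatB02 x) (fun _ => gatB42 x) (fun h => absurd h (by decide)) (datB20 x) (datB02 x) (fun _ => datB42 x) (fun h => absurd h (by decide)) hd hx hx' CW.B022E_204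
    · exact absurd h2 (by norm_num)
    · exact absurd h2 (by norm_num)
    · exact absurd h2 (by norm_num)
  · intro ρ a B hρ hd i h1 h2
    fin_cases i
    · exact corT_cert (G1 := gB2q0) (G2 := gB0q2) (Ga := gB0q2) (Gb := gB1q2) cB022E_ok B hρ (gatB20 x) (gatB02 x) (fun _ => gatB02 x) (fun _ => gatB12 x) hd hx hx' CG.B022E_200
    · exact corT_cert (G1 := gB2q0) (G2 := gB0q2) (Ga := gB1q2) (Gb := gB2q2) cB022E_ok B hρ (gatB20 x) (gatB02 x) (fun _ => gatB12 x) (fun _ => gatB22 x) hd hx hx' CG.B022E_201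
    · exact corT_cert (G1 := gB2q0) (G2 := gB0q2) (Ga := gB2q2) (Gb := gB3q2) cB022E_ok B hρ (gatB20 x) (gatB02 x) (fun _ => gatB22 x) (fun _ => gatB32 x) hd hx hx' CG.B022E_202
    · exact corT_cert (G1 := gB2q0) (G2 := gB0q2) (Ga := gB3q2) (Gb := gB4q2) cB022E_ok B hρ (gatB20 x) (gatB02 x) (fun _ => gatB32 x) (fun _ => gatB42 x) hd hx hx' CG.B022E_203
    · exact corT_cert (G1 := gB2q0) (G2 := gB0q2) (Ga := gB4q2) (Gb := gB5q2) cB022E_ok B hρ (gatB20 x) (gatB02 x) (fun _ => gatB42 x) (fun h => absurd h (by decide)) hd hx hx' CG.B022E_204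
    · exact absurd h2 (by norm_num)
    · exact absurd h2 (by norm_num)
    · exact absurd h2 (by norm_num)

theorem altB_B022E_21 {κ x : ℝ} (hκ : κ * h0 = ken x) (hx : ((649613803 : ℕ) : ℝ) / S ≤ x) (hx' : x ≤ (((649613803 : ℕ) : ℝ) + (48318383 : ℕ)) / S) :
    AltEB 3 κ (eng.v x) (3 / 40) (tnt (h0 * x) (3 / 10)) PP tK tL tC pcB (scP esg pd) [⟨0, 0, 0, 67108864⟩, ⟨1, 1, 0, 67108864⟩, ⟨2, 1, 0, 67108864⟩] 0 2 2 2 1 (sgb true) (sgb true) x := by
  have X : XR 67108864 x := XR.of hx hx' (by norm_num) (by norm_num) (by norm_num) (by norm_num)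
  have hen : 0 < eng.v x := en_pos X.x0.le
  refine CornW.altB (C := cB022E) (j := (2 : Fin 9)) (k := (1 : Fin 9)) (Ef := esg) (pd := pd) (o := 3 / 40)
    (cornW_of (C := cB022E) (C0 := c0B) (En := eng) (mo := mog) (j := (2 : Fin 9)) (k := (1 : Fin 9)) (lo := 0) (hi := 4) (W := 67108864) (N0 := 3) cB022E_q (sideB hx hx') gokB (pinU hx hx') dokB X (by norm_num) (by norm_num) (l := (0 : Fin 9)) rfl
      (gatB20 x) (gatB12 x) (gatB02 x) (datB20 x) (datB12 x) (datB02 x) ?_)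
    (cornS_of (C := cB022E) (C0 := c0B) (j := (2 : Fin 9)) (k := (1 : Fin 9)) (lo := 0) (hi := 4) (W := 67108864) (N0 := 3) cB022E_q (sideB hx hx') gokB X (by norm_num) (by norm_num) (l := (0 : Fin 9)) rfl
      (gatB20 x) (gatB12 x) (gatB02 x) ?_)
    (thU (pinU hx hx')) rfl hκ (fun j q y => tC_eq j q y x) (esg_rng X.x0.le (by linarith [X.b, X.p0])).1 (mo_v x) le_rfl le_rfl
  · intro ρ a B hρ hd i h1 h2
    fin_cases i
    · exact corW_cert (G1 := gB2q0) (G2 := gB1q2) (Ga := gB0q2) (Gb := gB1q2) (D1 := dB2q0) (D2 := dB1q2) (Da := dB0q2) (Db := dB1q2) cB022E_ok B hρ hen (gatB20 x) (gatB12 x) (fun _ => gatB02 x) (fun _ => gatB12 x) (datB20 x) (datB12 x) (fun _ => datB02 x) (fun _ => datB12 x) hd hx hx' CW.B022E_210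
    · exact corW_cert (G1 := gB2q0) (G2 := gB1q2) (Ga := gB1q2) (Gb := gB2q2) (D1 := dB2q0) (D2 := dB1q2) (Da := dB1q2) (Db := dB2q2) cB022E_ok B hρ hen (gatB20 x) (gatB12 x) (fun _ => gatB12 x) (fun _ => gatB22 x) (datB20 x) (datB12 x) (fun _ => datB12 x) (fun _ => datB22 x) hd hx hx' CW.B022E_211
    · exact corW_cert (G1 := gB2q0) (G2 := gB1q2) (Ga := gB2q2) (Gb := gB3q2) (D1 := dB2q0) (D2 := dB1q2) (Da := dB2q2) (Db := dB3q2) cB022E_ok B hρ hen (gatB20 x) (gatB12 x) (fun _ => gatB22 x) (fun _ => gatB32 x) (datB20 x) (datB12 x) (fun _ => datB22 x) (fun _ => datB32 x) hd hx hx' CW.B022E_212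
    · exact corW_cert (G1 := gB2q0) (G2 := gB1q2) (Ga := gB3q2) (Gb := gB4q2) (D1 := dB2q0) (D2 := dB1q2) (Da := dB3q2) (Db := dB4q2) cB022E_ok B hρ hen (gatB20 x) (gatB12 x) (fun _ => gatB32 x) (fun _ => gatB42 x) (datB20 x) (datB12 x) (fun _ => datB32 x) (fun _ => datB42 x) hd hx hx' CW.B022E_213
    · exact corW_cert (G1 := gB2q0) (G2 := gB1q2) (Ga := gB4q2) (Gb := gB5q2) (D1 := dB2q0) (D2 := dB1q2) (Da := dB4q2) (Db := dB5q2) cB022E_ok B hρ hen (gatB20 x) (gatB12 x) (fun _ => gatB42 x) (fun h => absurd h (by decide)) (datB20 x) (datB12 x) (fun _ => datB42 x) (fun h => absurd h (by decide)) hd hx hx' CW.B022E_214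
    · exact absurd h2 (by norm_num)
    · exact absurd h2 (by norm_num)
    · exact absurd h2 (by norm_num)
  · intro ρ a B hρ hd i h1 h2
    fin_cases i
    · exact corT_cert (G1 := gB2q0) (G2 := gB1q2) (Ga := gB0q2) (Gb := gB1q2) cB022E_ok B hρ (gatB20 x) (gatB12 x) (fun _ => gatB02 x) (fun _ => gatB12 x) hd hx hx' CG.B022E_210
    · exact corT_cert (G1 := gB2q0) (G2 := gB1q2) (Ga := gB1q2) (Gb := gB2q2) cB022E_ok B hρ (gatB20 x) (gatB12 x) (fun _ => gatB12 x) (fun _ => gatB22 x) hd hx hx' CG.B022E_211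
    · exact corT_cert (G1 := gB2q0) (G2 := gB1q2) (Ga := gB2q2) (Gb := gB3q2) cB022E_ok B hρ (gatB20 x) (gatB12 x) (fun _ => gatB22 x) (fun _ => gatB32 x) hd hx hx' CG.B022E_212
    · exact corT_cert (G1 := gB2q0) (G2 := gB1q2) (Ga := gB3q2) (Gb := gB4q2) cB022E_ok B hρ (gatB20 x) (gatB12 x) (fun _ => gatB32 x) (fun _ => gatB42 x) hd hx hx' CG.B022E_213
    · exact corT_cert (G1 := gB2q0) (G2 := gB1q2) (Ga := gB4q2) (Gb := gB5q2) cB022E_ok B hρ (gatB20 x) (gatB12 x) (fun _ => gatB42 x) (fun h => absurd h (by decide)) hd hx hx' CG.B022E_214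
    · exact absurd h2 (by norm_num)
    · exact absurd h2 (by norm_num)
    · exact absurd h2 (by norm_num)

theorem altB_B022E_22 {κ x : ℝ} (hκ : κ * h0 = ken x) (hx : ((649613803 : ℕ) : ℝ) / S ≤ x) (hx' : x ≤ (((649613803 : ℕ) : ℝ) + (48318383 : ℕ)) / S) :
    AltEB 3 κ (eng.v x) (3 / 40) (tnt (h0 * x) (3 / 10)) PP tK tL tC pcB (scP esg pd) [⟨0, 0, 0, 67108864⟩, ⟨1, 1, 0, 67108864⟩, ⟨2, 1, 0, 67108864⟩] 0 2 2 2 2 (sgb true) (sgb true) x := by
  have X : XR 67108864 x := XR.of hx hx' (by norm_num) (by norm_num) (by norm_num) (by norm_num)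
  have hen : 0 < eng.v x := en_pos X.x0.le
  refine CornW.altB (C := cB022E) (j := (2 : Fin 9)) (k := (2 : Fin 9)) (Ef := esg) (pd := pd) (o := 3 / 40)
    (cornW_of (C := cB022E) (C0 := c0B) (En := eng) (mo := mog) (j := (2 : Fin 9)) (k := (2 : Fin 9)) (lo := 0) (hi := 4) (W := 67108864) (N0 := 3) cB022E_q (sideB hx hx') gokB (pinU hx hx') dokB X (by norm_num) (by norm_num) (l := (0 : Fin 9)) rfl
      (gatB20 x) (gatB22 x) (gatB02 x) (datB20 x) (datB22 x) (datB02 x) ?_)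
    (cornS_of (C := cB022E) (C0 := c0B) (j := (2 : Fin 9)) (k := (2 : Fin 9)) (lo := 0) (hi := 4) (W := 67108864) (N0 := 3) cB022E_q (sideB hx hx') gokB X (by norm_num) (by norm_num) (l := (0 : Fin 9)) rfl
      (gatB20 x) (gatB22 x) (gatB02 x) ?_)
    (thU (pinU hx hx')) rfl hκ (fun j q y => tC_eq j q y x) (esg_rng X.x0.le (by linarith [X.b, X.p0])).1 (mo_v x) le_rfl le_rfl
  · intro ρ a B hρ hd i h1 h2
    fin_cases i
    · exact corW_cert (G1 := gB2q0) (G2 := gB2q2) (Ga := gB0q2) (Gb := gB1q2) (D1 := dB2q0) (D2 := dB2q2) (Da := dB0q2) (Db := dB1q2) cB022E_ok B hρ hen (gatB20 x) (gatB22 x) (fun _ => gatB02 x) (fun _ => gatB12 x) (datB20 x) (datB22 x) (fun _ => datB02 x) (fun _ => datB12 x) hd hx hx' CW.B022E_220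
    · exact corW_cert (G1 := gB2q0) (G2 := gB2q2) (Ga := gB1q2) (Gb := gB2q2) (D1 := dB2q0) (D2 := dB2q2) (Da := dB1q2) (Db := dB2q2) cB022E_ok B hρ hen (gatB20 x) (gatB22 x) (fun _ => gatB12 x) (fun _ => gatB22 x) (datB20 x) (datB22 x) (fun _ => datB12 x) (fun _ => datB22 x) hd hx hx' CW.B022E_221
    · exact corW_cert (G1 := gB2q0) (G2 := gB2q2) (Ga := gB2q2) (Gb := gB3q2) (D1 := dB2q0) (D2 := dB2q2) (Da := dB2q2) (Db := dB3q2) cB022E_ok B hρ hen (gatB20 x) (gatB22 x) (fun _ => gatB22 x) (fun _ => gatB32 x) (datB20 x) (datB22 x) (fun _ => datB22 x) (fun _ => datB32 x) hd hx hx' CW.B022E_222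
    · exact corW_cert (G1 := gB2q0) (G2 := gB2q2) (Ga := gB3q2) (Gb := gB4q2) (D1 := dB2q0) (D2 := dB2q2) (Da := dB3q2) (Db := dB4q2) cB022E_ok B hρ hen (gatB20 x) (gatB22 x) (fun _ => gatB32 x) (fun _ => gatB42 x) (datB20 x) (datB22 x) (fun _ => datB32 x) (fun _ => datB42 x) hd hx hx' CW.B022E_223
    · exact corW_cert (G1 := gB2q0) (G2 := gB2q2) (Ga := gB4q2) (Gb := gB5q2) (D1 := dB2q0) (D2 := dB2q2) (Da := dB4q2) (Db := dB5q2) cB022E_ok B hρ hen (gatB20 x) (gatB22 x) (fun _ => gatB42 x) (fun h => absurd h (by decide)) (datB20 x) (datB22 x) (fun _ => datB42 x) (fun h => absurd h (by decide)) hd hx hx' CW.B022E_224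
    · exact absurd h2 (by norm_num)
    · exact absurd h2 (by norm_num)
    · exact absurd h2 (by norm_num)
  · intro ρ a B hρ hd i h1 h2
    fin_cases i
    · exact corT_cert (G1 := gB2q0) (G2 := gB2q2) (Ga := gB0q2) (Gb := gB1q2) cB022E_ok B hρ (gatB20 x) (gatB22 x) (fun _ => gatB02 x) (fun _ => gatB12 x) hd hx hx' CG.B022E_220
    · exact corT_cert (G1 := gB2q0) (G2 := gB2q2) (Ga := gB1q2) (Gb := gB2q2) cB022E_ok B hρ (gatB20 x) (gatB22 x) (fun _ => gatB12 x) (fun _ => gatB22 x) hd hx hx' CG.B022E_221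
    · exact corT_cert (G1 := gB2q0) (G2 := gB2q2) (Ga := gB2q2) (Gb := gB3q2) cB022E_ok B hρ (gatB20 x) (gatB22 x) (fun _ => gatB22 x) (fun _ => gatB32 x) hd hx hx' CG.B022E_222
    · exact corT_cert (G1 := gB2q0) (G2 := gB2q2) (Ga := gB3q2) (Gb := gB4q2) cB022E_ok B hρ (gatB20 x) (gatB22 x) (fun _ => gatB32 x) (fun _ => gatB42 x) hd hx hx' CG.B022E_223
    · exact corT_cert (G1 := gB2q0) (G2 := gB2q2) (Ga := gB4q2) (Gb := gB5q2) cB022E_ok B hρ (gatB20 x) (gatB22 x) (fun _ => gatB42 x) (fun h => absurd h (by decide)) hd hx hx' CG.B022E_224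
    · exact absurd h2 (by norm_num)
    · exact absurd h2 (by norm_num)
    · exact absurd h2 (by norm_num)

theorem altB_B022E_23 {κ x : ℝ} (hκ : κ * h0 = ken x) (hx : ((649613803 : ℕ) : ℝ) / S ≤ x) (hx' : x ≤ (((649613803 : ℕ) : ℝ) + (48318383 : ℕ)) / S) :
    AltEB 3 κ (eng.v x) (3 / 40) (tnt (h0 * x) (3 / 10)) PP tK tL tC pcB (scP esg pd) [⟨0, 0, 0, 67108864⟩, ⟨1, 1, 0, 67108864⟩, ⟨2, 1, 0, 67108864⟩] 0 2 2 2 3 (sgb true) (sgb true) x := by
  have X : XR 67108864 x := XR.of hx hx' (by norm_num) (by norm_num) (by norm_num) (by norm_num)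
  have hen : 0 < eng.v x := en_pos X.x0.le
  refine CornW.altB (C := cB022E) (j := (2 : Fin 9)) (k := (3 : Fin 9)) (Ef := esg) (pd := pd) (o := 3 / 40)
    (cornW_of (C := cB022E) (C0 := c0B) (En := eng) (mo := mog) (j := (2 : Fin 9)) (k := (3 : Fin 9)) (lo := 0) (hi := 4) (W := 67108864) (N0 := 3) cB022E_q (sideB hx hx') gokB (pinU hx hx') dokB X (by norm_num) (by norm_num) (l := (0 : Fin 9)) rfl
      (gatB20 x) (gatB32 x) (gatB02 x) (datB20 x) (datB32 x) (datB02 x) ?_)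
    (cornS_of (C := cB022E) (C0 := c0B) (j := (2 : Fin 9)) (k := (3 : Fin 9)) (lo := 0) (hi := 4) (W := 67108864) (N0 := 3) cB022E_q (sideB hx hx') gokB X (by norm_num) (by norm_num) (l := (0 : Fin 9)) rfl
      (gatB20 x) (gatB32 x) (gatB02 x) ?_)
    (thU (pinU hx hx')) rfl hκ (fun j q y => tC_eq j q y x) (esg_rng X.x0.le (by linarith [X.b, X.p0])).1 (mo_v x) le_rfl le_rfl
  · intro ρ a B hρ hd i h1 h2
    fin_cases i
    · exact corW_cert (G1 := gB2q0) (G2 := gB3q2) (Ga := gB0q2) (Gb := gB1q2) (D1 := dB2q0) (D2 := dB3q2) (Da := dB0q2) (Db := dB1q2) cB022E_ok B hρ hen (gatB20 x) (gatB32 x) (fun _ => gatB02 x) (fun _ => gatB12 x) (datB20 x) (datB32 x) (fun _ => datB02 x) (fun _ => datB12 x) hd hx hx' CW.B022E_230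
    · exact corW_cert (G1 := gB2q0) (G2 := gB3q2) (Ga := gB1q2) (Gb := gB2q2) (D1 := dB2q0) (D2 := dB3q2) (Da := dB1q2) (Db := dB2q2) cB022E_ok B hρ hen (gatB20 x) (gatB32 x) (fun _ => gatB12 x) (fun _ => gatB22 x) (datB20 x) (datB32 x) (fun _ => datB12 x) (fun _ => datB22 x) hd hx hx' CW.B022E_231
    · exact corW_cert (G1 := gB2q0) (G2 := gB3q2) (Ga := gB2q2) (Gb := gB3q2) (D1 := dB2q0) (D2 := dB3q2) (Da := dB2q2) (Db := dB3q2) cB022E_ok B hρ hen (gatB20 x) (gatB32 x) (fun _ => gatB22 x) (fun _ => gatB32 x) (datB20 x) (datB32 x) (fun _ => datB22 x) (fun _ => datB32 x) hd hx hx' CW.B022E_232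
    · exact corW_cert (G1 := gB2q0) (G2 := gB3q2) (Ga := gB3q2) (Gb := gB4q2) (D1 := dB2q0) (D2 := dB3q2) (Da := dB3q2) (Db := dB4q2) cB022E_ok B hρ hen (gatB20 x) (gatB32 x) (fun _ => gatB32 x) (fun _ => gatB42 x) (datB20 x) (datB32 x) (fun _ => datB32 x) (fun _ => datB42 x) hd hx hx' CW.B022E_233
    · exact corW_cert (G1 := gB2q0) (G2 := gB3q2) (Ga := gB4q2) (Gb := gB5q2) (D1 := dB2q0) (D2 := dB3q2) (Da := dB4q2) (Db := dB5q2) cB022E_ok B hρ hen (gatB20 x) (gatB32 x) (fun _ => gatB42 x) (fun h => absurd h (by decide)) (datB20 x) (datB32 x) (fun _ => datB42 x) (fun h => absurd h (by decide)) hd hx hx' CW.B022E_234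
    · exact absurd h2 (by norm_num)
    · exact absurd h2 (by norm_num)
    · exact absurd h2 (by norm_num)
  · intro ρ a B hρ hd i h1 h2
    fin_cases i
    · exact corT_cert (G1 := gB2q0) (G2 := gB3q2) (Ga := gB0q2) (Gb := gB1q2) cB022E_ok B hρ (gatB20 x) (gatB32 x) (fun _ => gatB02 x) (fun _ => gatB12 x) hd hx hx' CG.B022E_230
    · exact corT_cert (G1 := gB2q0) (G2 := gB3q2) (Ga := gB1q2) (Gb := gB2q2) cB022E_ok B hρ (gatB20 x) (gatB32 x) (fun _ => gatB12 x) (fun _ => gatB22 x) hd hx hx' CG.B022E_231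
    · exact corT_cert (G1 := gB2q0) (G2 := gB3q2) (Ga := gB2q2) (Gb := gB3q2) cB022E_ok B hρ (gatB20 x) (gatB32 x) (fun _ => gatB22 x) (fun _ => gatB32 x) hd hx hx' CG.B022E_232
    · exact corT_cert (G1 := gB2q0) (G2 := gB3q2) (Ga := gB3q2) (Gb := gB4q2) cB022E_ok B hρ (gatB20 x) (gatB32 x) (fun _ => gatB32 x) (fun _ => gatB42 x) hd hx hx' CG.B022E_233
    · exact corT_cert (G1 := gB2q0) (G2 := gB3q2) (Ga := gB4q2) (Gb := gB5q2) cB022E_ok B hρ (gatB20 x) (gatB32 x) (fun _ => gatB42 x) (fun h => absurd h (by decide)) hd hx hx' CG.B022E_234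
    · exact absurd h2 (by norm_num)
    · exact absurd h2 (by norm_num)
    · exact absurd h2 (by norm_num)

theorem altB_B022E_24 {κ x : ℝ} (hκ : κ * h0 = ken x) (hx : ((649613803 : ℕ) : ℝ) / S ≤ x) (hx' : x ≤ (((649613803 : ℕ) : ℝ) + (48318383 : ℕ)) / S) :
    AltEB 3 κ (eng.v x) (3 / 40) (tnt (h0 * x) (3 / 10)) PP tK tL tC pcB (scP esg pd) [⟨0, 0, 0, 67108864⟩, ⟨1, 1, 0, 67108864⟩, ⟨2, 1, 0, 67108864⟩] 0 2 2 2 4 (sgb true) (sgb true) x := by
  have X : XR 67108864 x := XR.of hx hx' (by norm_num) (by norm_num) (by norm_num) (by norm_num)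
  have hen : 0 < eng.v x := en_pos X.x0.le
  refine CornW.altB (C := cB022E) (j := (2 : Fin 9)) (k := (4 : Fin 9)) (Ef := esg) (pd := pd) (o := 3 / 40)
    (cornW_of (C := cB022E) (C0 := c0B) (En := eng) (mo := mog) (j := (2 : Fin 9)) (k := (4 : Fin 9)) (lo := 0) (hi := 4) (W := 67108864) (N0 := 3) cB022E_q (sideB hx hx') gokB (pinU hx hx') dokB X (by norm_num) (by norm_num) (l := (0 : Fin 9)) rfl
      (gatB20 x) (gatB42 x) (gatB02 x) (datB20 x) (datB42 x) (datB02 x) ?_)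
    (cornS_of (C := cB022E) (C0 := c0B) (j := (2 : Fin 9)) (k := (4 : Fin 9)) (lo := 0) (hi := 4) (W := 67108864) (N0 := 3) cB022E_q (sideB hx hx') gokB X (by norm_num) (by norm_num) (l := (0 : Fin 9)) rfl
      (gatB20 x) (gatB42 x) (gatB02 x) ?_)
    (thU (pinU hx hx')) rfl hκ (fun j q y => tC_eq j q y x) (esg_rng X.x0.le (by linarith [X.b, X.p0])).1 (mo_v x) le_rfl le_rfl
  · intro ρ a B hρ hd i h1 h2
    fin_cases i
    · exact corW_cert (G1 := gB2q0) (G2 := gB4q2) (Ga := gB0q2) (Gb := gB1q2) (D1 := dB2q0) (D2 := dB4q2) (Da := dB0q2) (Db := dB1q2) cB022E_ok B hρ hen (gatB20 x) (gatB42 x) (fun _ => gatB02 x) (fun _ => gatB12 x) (datB20 x) (datB42 x) (fun _ => datB02 x) (fun _ => datB12 x) hd hx hx' CW.B022E_240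
    · exact corW_cert (G1 := gB2q0) (G2 := gB4q2) (Ga := gB1q2) (Gb := gB2q2) (D1 := dB2q0) (D2 := dB4q2) (Da := dB1q2) (Db := dB2q2) cB022E_ok B hρ hen (gatB20 x) (gatB42 x) (fun _ => gatB12 x) (fun _ => gatB22 x) (datB20 x) (datB42 x) (fun _ => datB12 x) (fun _ => datB22 x) hd hx hx' CW.B022E_241
    · exact corW_cert (G1 := gB2q0) (G2 := gB4q2) (Ga := gB2q2) (Gb := gB3q2) (D1 := dB2q0) (D2 := dB4q2) (Da := dB2q2) (Db := dB3q2) cB022E_ok B hρ hen (gatB20 x) (gatB42 x) (fun _ => gatB22 x) (fun _ => gatB32 x) (datB20 x) (datB42 x) (fun _ => datB22 x) (fun _ => datB32 x) hd hx hx' CW.B022E_242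
    · exact corW_cert (G1 := gB2q0) (G2 := gB4q2) (Ga := gB3q2) (Gb := gB4q2) (D1 := dB2q0) (D2 := dB4q2) (Da := dB3q2) (Db := dB4q2) cB022E_ok B hρ hen (gatB20 x) (gatB42 x) (fun _ => gatB32 x) (fun _ => gatB42 x) (datB20 x) (datB42 x) (fun _ => datB32 x) (fun _ => datB42 x) hd hx hx' CW.B022E_243
    · exact corW_cert (G1 := gB2q0) (G2 := gB4q2) (Ga := gB4q2) (Gb := gB5q2) (D1 := dB2q0) (D2 := dB4q2) (Da := dB4q2) (Db := dB5q2) cB022E_ok B hρ hen (gatB20 x) (gatB42 x) (fun _ => gatB42 x) (fun h => absurd h (by decide)) (datB20 x) (datB42 x) (fun _ => datB42 x) (fun h => absurd h (by decide)) hd hx hx' CW.B022E_244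
    · exact absurd h2 (by norm_num)
    · exact absurd h2 (by norm_num)
    · exact absurd h2 (by norm_num)
  · intro ρ a B hρ hd i h1 h2
    fin_cases i
    · exact corT_cert (G1 := gB2q0) (G2 := gB4q2) (Ga := gB0q2) (Gb := gB1q2) cB022E_ok B hρ (gatB20 x) (gatB42 x) (fun _ => gatB02 x) (fun _ => gatB12 x) hd hx hx' CG.B022E_240
    · exact corT_cert (G1 := gB2q0) (G2 := gB4q2) (Ga := gB1q2) (Gb := gB2q2) cB022E_ok B hρ (gatB20 x) (gatB42 x) (fun _ => gatB12 x) (fun _ => gatB22 x) hd hx hx' CG.B022E_241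
    · exact corT_cert (G1 := gB2q0) (G2 := gB4q2) (Ga := gB2q2) (Gb := gB3q2) cB022E_ok B hρ (gatB20 x) (gatB42 x) (fun _ => gatB22 x) (fun _ => gatB32 x) hd hx hx' CG.B022E_242
    · exact corT_cert (G1 := gB2q0) (G2 := gB4q2) (Ga := gB3q2) (Gb := gB4q2) cB022E_ok B hρ (gatB20 x) (gatB42 x) (fun _ => gatB32 x) (fun _ => gatB42 x) hd hx hx' CG.B022E_243
    · exact corT_cert (G1 := gB2q0) (G2 := gB4q2) (Ga := gB4q2) (Gb := gB5q2) cB022E_ok B hρ (gatB20 x) (gatB42 x) (fun _ => gatB42 x) (fun h => absurd h (by decide)) hd hx hx' CG.B022E_244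
    · exact absurd h2 (by norm_num)
    · exact absurd h2 (by norm_num)
    · exact absurd h2 (by norm_num)

theorem altB_B022E_30 {κ x : ℝ} (hκ : κ * h0 = ken x) (hx : ((649613803 : ℕ) : ℝ) / S ≤ x) (hx' : x ≤ (((649613803 : ℕ) : ℝ) + (48318383 : ℕ)) / S) :
    AltEB 3 κ (eng.v x) (3 / 40) (tnt (h0 * x) (3 / 10)) PP tK tL tC pcB (scP esg pd) [⟨0, 0, 0, 67108864⟩, ⟨1, 1, 0, 67108864⟩, ⟨2, 1, 0, 67108864⟩] 0 2 2 3 0 (sgb true) (sgb true) x := by
  have X : XR 67108864 x := XR.of hx hx' (by norm_num) (by norm_num) (by norm_num) (by norm_num)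
  have hen : 0 < eng.v x := en_pos X.x0.le
  refine CornW.altB (C := cB022E) (j := (3 : Fin 9)) (k := (0 : Fin 9)) (Ef := esg) (pd := pd) (o := 3 / 40)
    (cornW_of (C := cB022E) (C0 := c0B) (En := eng) (mo := mog) (j := (3 : Fin 9)) (k := (0 : Fin 9)) (lo := 0) (hi := 4) (W := 67108864) (N0 := 3) cB022E_q (sideB hx hx') gokB (pinU hx hx') dokB X (by norm_num) (by norm_num) (l := (0 : Fin 9)) rfl
      (gatB30 x) (gatB02 x) (gatB02 x) (datB30 x) (datB02 x) (datB02 x) ?_)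
    (cornS_of (C := cB022E) (C0 := c0B) (j := (3 : Fin 9)) (k := (0 : Fin 9)) (lo := 0) (hi := 4) (W := 67108864) (N0 := 3) cB022E_q (sideB hx hx') gokB X (by norm_num) (by norm_num) (l := (0 : Fin 9)) rfl
      (gatB30 x) (gatB02 x) (gatB02 x) ?_)
    (thU (pinU hx hx')) rfl hκ (fun j q y => tC_eq j q y x) (esg_rng X.x0.le (by linarith [X.b, X.p0])).1 (mo_v x) le_rfl le_rfl
  · intro ρ a B hρ hd i h1 h2
    fin_cases i
    · exact corW_cert (G1 := gB3q0) (G2 := gB0q2) (Ga := gB0q2) (Gb := gB1q2) (D1 := dB3q0) (D2 := dB0q2) (Da := dB0q2) (Db := dB1q2) cB022E_ok B hρ hen (gatB30 x) (gatB02 x) (fun _ => gatB02 x) (fun _ => gatB12 x) (datB30 x) (datB02 x) (fun _ => datB02 x) (fun _ => datB12 x) hd hx hx' CW.B022E_300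
    · exact corW_cert (G1 := gB3q0) (G2 := gB0q2) (Ga := gB1q2) (Gb := gB2q2) (D1 := dB3q0) (D2 := dB0q2) (Da := dB1q2) (Db := dB2q2) cB022E_ok B hρ hen (gatB30 x) (gatB02 x) (fun _ => gatB12 x) (fun _ => gatB22 x) (datB30 x) (datB02 x) (fun _ => datB12 x) (fun _ => datB22 x) hd hx hx' CW.B022E_301
    · exact corW_cert (G1 := gB3q0) (G2 := gB0q2) (Ga := gB2q2) (Gb := gB3q2) (D1 := dB3q0) (D2 := dB0q2) (Da := dB2q2) (Db := dB3q2) cB022E_ok B hρ hen (gatB30 x) (gatB02 x) (fun _ => gatB22 x) (fun _ => gatB32 x) (datB30 x) (datB02 x) (fun _ => datB22 x) (fun _ => datB32 x) hd hx hx' CW.B022E_302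
    · exact corW_cert (G1 := gB3q0) (G2 := gB0q2) (Ga := gB3q2) (Gb := gB4q2) (D1 := dB3q0) (D2 := dB0q2) (Da := dB3q2) (Db := dB4q2) cB022E_ok B hρ hen (gatB30 x) (gatB02 x) (fun _ => gatB32 x) (fun _ => gatB42 x) (datB30 x) (datB02 x) (fun _ => datB32 x) (fun _ => datB42 x) hd hx hx' CW.B022E_303
    · exact corW_cert (G1 := gB3q0) (G2 := gB0q2) (Ga := gB4q2) (Gb := gB5q2) (D1 := dB3q0) (D2 := dB0q2) (Da := dB4q2) (Db := dB5q2) cB022E_ok B hρ hen (gatB30 x) (gatB02 x) (fun _ => gatB42 x) (fun h => absurd h (by decide)) (datB30 x) (datB02 x) (fun _ => datB42 x) (fun h => absurd h (by decide)) hd hx hx' CW.B022E_304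
    · exact absurd h2 (by norm_num)
    · exact absurd h2 (by norm_num)
    · exact absurd h2 (by norm_num)
  · intro ρ a B hρ hd i h1 h2
    fin_cases i
    · exact corT_cert (G1 := gB3q0) (G2 := gB0q2) (Ga := gB0q2) (Gb := gB1q2) cB022E_ok B hρ (gatB30 x) (gatB02 x) (fun _ => gatB02 x) (fun _ => gatB12 x) hd hx hx' CG.B022E_300
    · exact corT_cert (G1 := gB3q0) (G2 := gB0q2) (Ga := gB1q2) (Gb := gB2q2) cB022E_ok B hρ (gatB30 x) (gatB02 x) (fun _ => gatB12 x) (fun _ => gatB22 x) hd hx hx' CG.B022E_301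
    · exact corT_cert (G1 := gB3q0) (G2 := gB0q2) (Ga := gB2q2) (Gb := gB3q2) cB022E_ok B hρ (gatB30 x) (gatB02 x) (fun _ => gatB22 x) (fun _ => gatB32 x) hd hx hx' CG.B022E_302
    · exact corT_cert (G1 := gB3q0) (G2 := gB0q2) (Ga := gB3q2) (Gb := gB4q2) cB022E_ok B hρ (gatB30 x) (gatB02 x) (fun _ => gatB32 x) (fun _ => gatB42 x) hd hx hx' CG.B022E_303
    · exact corT_cert (G1 := gB3q0) (G2 := gB0q2) (Ga := gB4q2) (Gb := gB5q2) cB022E_ok B hρ (gatB30 x) (gatB02 x) (fun _ => gatB42 x) (fun h => absurd h (by decide)) hd hx hx' CG.B022E_304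
    · exact absurd h2 (by norm_num)
    · exact absurd h2 (by norm_num)
    · exact absurd h2 (by norm_num)

theorem altB_B022E_31 {κ x : ℝ} (hκ : κ * h0 = ken x) (hx : ((649613803 : ℕ) : ℝ) / S ≤ x) (hx' : x ≤ (((649613803 : ℕ) : ℝ) + (48318383 : ℕ)) / S) :
    AltEB 3 κ (eng.v x) (3 / 40) (tnt (h0 * x) (3 / 10)) PP tK tL tC pcB (scP esg pd) [⟨0, 0, 0, 67108864⟩, ⟨1, 1, 0, 67108864⟩, ⟨2, 1, 0, 67108864⟩] 0 2 2 3 1 (sgb true) (sgb true) x := by
  have X : XR 67108864 x := XR.of hx hx' (by norm_num) (by norm_num) (by norm_num) (by norm_num)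
  have hen : 0 < eng.v x := en_pos X.x0.le
  refine CornW.altB (C := cB022E) (j := (3 : Fin 9)) (k := (1 : Fin 9)) (Ef := esg) (pd := pd) (o := 3 / 40)
    (cornW_of (C := cB022E) (C0 := c0B) (En := eng) (mo := mog) (j := (3 : Fin 9)) (k := (1 : Fin 9)) (lo := 0) (hi := 4) (W := 67108864) (N0 := 3) cB022E_q (sideB hx hx') gokB (pinU hx hx') dokB X (by norm_num) (by norm_num) (l := (0 : Fin 9)) rfl
      (gatB30 x) (gatB12 x) (gatB02 x) (datB30 x) (datB12 x) (datB02 x) ?_)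
    (cornS_of (C := cB022E) (C0 := c0B) (j := (3 : Fin 9)) (k := (1 : Fin 9)) (lo := 0) (hi := 4) (W := 67108864) (N0 := 3) cB022E_q (sideB hx hx') gokB X (by norm_num) (by norm_num) (l := (0 : Fin 9)) rfl
      (gatB30 x) (gatB12 x) (gatB02 x) ?_)
    (thU (pinU hx hx')) rfl hκ (fun j q y => tC_eq j q y x) (esg_rng X.x0.le (by linarith [X.b, X.p0])).1 (mo_v x) le_rfl le_rfl
  · intro ρ a B hρ hd i h1 h2
    fin_cases i
    · exact corW_cert (G1 := gB3q0) (G2 := gB1q2) (Ga := gB0q2) (Gb := gB1q2) (D1 := dB3q0) (D2 := dB1q2) (Da := dB0q2) (Db := dB1q2) cB022E_ok B hρ hen (gatB30 x) (gatB12 x) (fun _ => gatB02 x) (fun _ => gatB12 x) (datB30 x) (datB12 x) (fun _ => datB02 x) (fun _ => datB12 x) hd hx hx' CW.B022E_310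
    · exact corW_cert (G1 := gB3q0) (G2 := gB1q2) (Ga := gB1q2) (Gb := gB2q2) (D1 := dB3q0) (D2 := dB1q2) (Da := dB1q2) (Db := dB2q2) cB022E_ok B hρ hen (gatB30 x) (gatB12 x) (fun _ => gatB12 x) (fun _ => gatB22 x) (datB30 x) (datB12 x) (fun _ => datB12 x) (fun _ => datB22 x) hd hx hx' CW.B022E_311
    · exact corW_cert (G1 := gB3q0) (G2 := gB1q2) (Ga := gB2q2) (Gb := gB3q2) (D1 := dB3q0) (D2 := dB1q2) (Da := dB2q2) (Db := dB3q2) cB022E_ok B hρ hen (gatB30 x) (gatB12 x) (fun _ => gatB22 x) (fun _ => gatB32 x) (datB30 x) (datB12 x) (fun _ => datB22 x) (fun _ => datB32 x) hd hx hx' CW.B022E_312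
    · exact corW_cert (G1 := gB3q0) (G2 := gB1q2) (Ga := gB3q2) (Gb := gB4q2) (D1 := dB3q0) (D2 := dB1q2) (Da := dB3q2) (Db := dB4q2) cB022E_ok B hρ hen (gatB30 x) (gatB12 x) (fun _ => gatB32 x) (fun _ => gatB42 x) (datB30 x) (datB12 x) (fun _ => datB32 x) (fun _ => datB42 x) hd hx hx' CW.B022E_313
    · exact corW_cert (G1 := gB3q0) (G2 := gB1q2) (Ga := gB4q2) (Gb := gB5q2) (D1 := dB3q0) (D2 := dB1q2) (Da := dB4q2) (Db := dB5q2) cB022E_ok B hρ hen (gatB30 x) (gatB12 x) (fun _ => gatB42 x) (fun h => absurd h (by decide)) (datB30 x) (datB12 x) (fun _ => datB42 x) (fun h => absurd h (by decide)) hd hx hx' CW.B022E_314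
    · exact absurd h2 (by norm_num)
    · exact absurd h2 (by norm_num)
    · exact absurd h2 (by norm_num)
  · intro ρ a B hρ hd i h1 h2
    fin_cases i
    · exact corT_cert (G1 := gB3q0) (G2 := gB1q2) (Ga := gB0q2) (Gb := gB1q2) cB022E_ok B hρ (gatB30 x) (gatB12 x) (fun _ => gatB02 x) (fun _ => gatB12 x) hd hx hx' CG.B022E_310
    · exact corT_cert (G1 := gB3q0) (G2 := gB1q2) (Ga := gB1q2) (Gb := gB2q2) cB022E_ok B hρ (gatB30 x) (gatB12 x) (fun _ => gatB12 x) (fun _ => gatB22 x) hd hx hx' CG.B022E_311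
    · exact corT_cert (G1 := gB3q0) (G2 := gB1q2) (Ga := gB2q2) (Gb := gB3q2) cB022E_ok B hρ (gatB30 x) (gatB12 x) (fun _ => gatB22 x) (fun _ => gatB32 x) hd hx hx' CG.B022E_312
    · exact corT_cert (G1 := gB3q0) (G2 := gB1q2) (Ga := gB3q2) (Gb := gB4q2) cB022E_ok B hρ (gatB30 x) (gatB12 x) (fun _ => gatB32 x) (fun _ => gatB42 x) hd hx hx' CG.B022E_313
    · exact corT_cert (G1 := gB3q0) (G2 := gB1q2) (Ga := gB4q2) (Gb := gB5q2) cB022E_ok B hρ (gatB30 x) (gatB12 x) (fun _ => gatB42 x) (fun h => absurd h (by decide)) hd hx hx' CG.B022E_314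
    · exact absurd h2 (by norm_num)
    · exact absurd h2 (by norm_num)
    · exact absurd h2 (by norm_num)

theorem altB_B022E_32 {κ x : ℝ} (hκ : κ * h0 = ken x) (hx : ((649613803 : ℕ) : ℝ) / S ≤ x) (hx' : x ≤ (((649613803 : ℕ) : ℝ) + (48318383 : ℕ)) / S) :
    AltEB 3 κ (eng.v x) (3 / 40) (tnt (h0 * x) (3 / 10)) PP tK tL tC pcB (scP esg pd) [⟨0, 0, 0, 67108864⟩, ⟨1, 1, 0, 67108864⟩, ⟨2, 1, 0, 67108864⟩] 0 2 2 3 2 (sgb true) (sgb true) x := by
  have X : XR 67108864 x := XR.of hx hx' (by norm_num) (by norm_num) (by norm_num) (by norm_num)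
  have hen : 0 < eng.v x := en_pos X.x0.le
  refine CornW.altB (C := cB022E) (j := (3 : Fin 9)) (k := (2 : Fin 9)) (Ef := esg) (pd := pd) (o := 3 / 40)
    (cornW_of (C := cB022E) (C0 := c0B) (En := eng) (mo := mog) (j := (3 : Fin 9)) (k := (2 : Fin 9)) (lo := 0) (hi := 4) (W := 67108864) (N0 := 3) cB022E_q (sideB hx hx') gokB (pinU hx hx') dokB X (by norm_num) (by norm_num) (l := (0 : Fin 9)) rfl
      (gatB30 x) (gatB22 x) (gatB02 x) (datB30 x) (datB22 x) (datB02 x) ?_)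
    (cornS_of (C := cB022E) (C0 := c0B) (j := (3 : Fin 9)) (k := (2 : Fin 9)) (lo := 0) (hi := 4) (W := 67108864) (N0 := 3) cB022E_q (sideB hx hx') gokB X (by norm_num) (by norm_num) (l := (0 : Fin 9)) rfl
      (gatB30 x) (gatB22 x) (gatB02 x) ?_)
    (thU (pinU hx hx')) rfl hκ (fun j q y => tC_eq j q y x) (esg_rng X.x0.le (by linarith [X.b, X.p0])).1 (mo_v x) le_rfl le_rfl
  · intro ρ a B hρ hd i h1 h2
    fin_cases i
    · exact corW_cert (G1 := gB3q0) (G2 := gB2q2) (Ga := gB0q2) (Gb := gB1q2) (D1 := dB3q0) (D2 := dB2q2) (Da := dB0q2) (Db := dB1q2) cB022E_ok B hρ hen (gatB30 x) (gatB22 x) (fun _ => gatB02 x) (fun _ => gatB12 x) (datB30 x) (datB22 x) (fun _ => datB02 x) (fun _ => datB12 x) hd hx hx' CW.B022E_320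
    · exact corW_cert (G1 := gB3q0) (G2 := gB2q2) (Ga := gB1q2) (Gb := gB2q2) (D1 := dB3q0) (D2 := dB2q2) (Da := dB1q2) (Db := dB2q2) cB022E_ok B hρ hen (gatB30 x) (gatB22 x) (fun _ => gatB12 x) (fun _ => gatB22 x) (datB30 x) (datB22 x) (fun _ => datB12 x) (fun _ => datB22 x) hd hx hx' CW.B022E_321
    · exact corW_cert (G1 := gB3q0) (G2 := gB2q2) (Ga := gB2q2) (Gb := gB3q2) (D1 := dB3q0) (D2 := dB2q2) (Da := dB2q2) (Db := dB3q2) cB022E_ok B hρ hen (gatB30 x) (gatB22 x) (fun _ => gatB22 x) (fun _ => gatB32 x) (datB30 x) (datB22 x) (fun _ => datB22 x) (fun _ => datB32 x) hd hx hx' CW.B022E_322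
    · exact corW_cert (G1 := gB3q0) (G2 := gB2q2) (Ga := gB3q2) (Gb := gB4q2) (D1 := dB3q0) (D2 := dB2q2) (Da := dB3q2) (Db := dB4q2) cB022E_ok B hρ hen (gatB30 x) (gatB22 x) (fun _ => gatB32 x) (fun _ => gatB42 x) (datB30 x) (datB22 x) (fun _ => datB32 x) (fun _ => datB42 x) hd hx hx' CW.B022E_323
    · exact corW_cert (G1 := gB3q0) (G2 := gB2q2) (Ga := gB4q2) (Gb := gB5q2) (D1 := dB3q0) (D2 := dB2q2) (Da := dB4q2) (Db := dB5q2) cB022E_ok B hρ hen (gatB30 x) (gatB22 x) (fun _ => gatB42 x) (fun h => absurd h (by decide)) (datB30 x) (datB22 x) (fun _ => datB42 x) (fun h => absurd h (by decide)) hd hx hx' CW.B022E_324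
    · exact absurd h2 (by norm_num)
    · exact absurd h2 (by norm_num)
    · exact absurd h2 (by norm_num)
  · intro ρ a B hρ hd i h1 h2
    fin_cases i
    · exact corT_cert (G1 := gB3q0) (G2 := gB2q2) (Ga := gB0q2) (Gb := gB1q2) cB022E_ok B hρ (gatB30 x) (gatB22 x) (fun _ => gatB02 x) (fun _ => gatB12 x) hd hx hx' CG.B022E_320
    · exact corT_cert (G1 := gB3q0) (G2 := gB2q2) (Ga := gB1q2) (Gb := gB2q2) cB022E_ok B hρ (gatB30 x) (gatB22 x) (fun _ => gatB12 x) (fun _ => gatB22 x) hd hx hx' CG.B022E_321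
    · exact corT_cert (G1 := gB3q0) (G2 := gB2q2) (Ga := gB2q2) (Gb := gB3q2) cB022E_ok B hρ (gatB30 x) (gatB22 x) (fun _ => gatB22 x) (fun _ => gatB32 x) hd hx hx' CG.B022E_322
    · exact corT_cert (G1 := gB3q0) (G2 := gB2q2) (Ga := gB3q2) (Gb := gB4q2) cB022E_ok B hρ (gatB30 x) (gatB22 x) (fun _ => gatB32 x) (fun _ => gatB42 x) hd hx hx' CG.B022E_323
    · exact corT_cert (G1 := gB3q0) (G2 := gB2q2) (Ga := gB4q2) (Gb := gB5q2) cB022E_ok B hρ (gatB30 x) (gatB22 x) (fun _ => gatB42 x) (fun h => absurd h (by decide)) hd hx hx' CG.B022E_324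
    · exact absurd h2 (by norm_num)
    · exact absurd h2 (by norm_num)
    · exact absurd h2 (by norm_num)

theorem altB_B022E_33 {κ x : ℝ} (hκ : κ * h0 = ken x) (hx : ((649613803 : ℕ) : ℝ) / S ≤ x) (hx' : x ≤ (((649613803 : ℕ) : ℝ) + (48318383 : ℕ)) / S) :
    AltEB 3 κ (eng.v x) (3 / 40) (tnt (h0 * x) (3 / 10)) PP tK tL tC pcB (scP esg pd) [⟨0, 0, 0, 67108864⟩, ⟨1, 1, 0, 67108864⟩, ⟨2, 1, 0, 67108864⟩] 0 2 2 3 3 (sgb true) (sgb true) x := by
  have X : XR 67108864 x := XR.of hx hx' (by norm_num) (by norm_num) (by norm_num) (by norm_num)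
  have hen : 0 < eng.v x := en_pos X.x0.le
  refine CornW.altB (C := cB022E) (j := (3 : Fin 9)) (k := (3 : Fin 9)) (Ef := esg) (pd := pd) (o := 3 / 40)
    (cornW_of (C := cB022E) (C0 := c0B) (En := eng) (mo := mog) (j := (3 : Fin 9)) (k := (3 : Fin 9)) (lo := 0) (hi := 4) (W := 67108864) (N0 := 3) cB022E_q (sideB hx hx') gokB (pinU hx hx') dokB X (by norm_num) (by norm_num) (l := (0 : Fin 9)) rfl
      (gatB30 x) (gatB32 x) (gatB02 x) (datB30 x) (datB32 x) (datB02 x) ?_)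
    (cornS_of (C := cB022E) (C0 := c0B) (j := (3 : Fin 9)) (k := (3 : Fin 9)) (lo := 0) (hi := 4) (W := 67108864) (N0 := 3) cB022E_q (sideB hx hx') gokB X (by norm_num) (by norm_num) (l := (0 : Fin 9)) rfl
      (gatB30 x) (gatB32 x) (gatB02 x) ?_)
    (thU (pinU hx hx')) rfl hκ (fun j q y => tC_eq j q y x) (esg_rng X.x0.le (by linarith [X.b, X.p0])).1 (mo_v x) le_rfl le_rfl
  · intro ρ a B hρ hd i h1 h2
    fin_cases i
    · exact corW_cert (G1 := gB3q0) (G2 := gB3q2) (Ga := gB0q2) (Gb := gB1q2) (D1 := dB3q0) (D2 := dB3q2) (Da := dB0q2) (Db := dB1q2) cB022E_ok B hρ hen (gatB30 x) (gatB32 x) (fun _ => gatB02 x) (fun _ => gatB12 x) (datB30 x) (datB32 x) (fun _ => datB02 x) (fun _ => datB12 x) hd hx hx' CW.B022E_330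
    · exact corW_cert (G1 := gB3q0) (G2 := gB3q2) (Ga := gB1q2) (Gb := gB2q2) (D1 := dB3q0) (D2 := dB3q2) (Da := dB1q2) (Db := dB2q2) cB022E_ok B hρ hen (gatB30 x) (gatB32 x) (fun _ => gatB12 x) (fun _ => gatB22 x) (datB30 x) (datB32 x) (fun _ => datB12 x) (fun _ => datB22 x) hd hx hx' CW.B022E_331
    · exact corW_cert (G1 := gB3q0) (G2 := gB3q2) (Ga := gB2q2) (Gb := gB3q2) (D1 := dB3q0) (D2 := dB3q2) (Da := dB2q2) (Db := dB3q2) cB022E_ok B hρ hen (gatB30 x) (gatB32 x) (fun _ => gatB22 x) (fun _ => gatB32 x) (datB30 x) (datB32 x) (fun _ => datB22 x) (fun _ => datB32 x) hd hx hx' CW.B022E_332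
    · exact corW_cert (G1 := gB3q0) (G2 := gB3q2) (Ga := gB3q2) (Gb := gB4q2) (D1 := dB3q0) (D2 := dB3q2) (Da := dB3q2) (Db := dB4q2) cB022E_ok B hρ hen (gatB30 x) (gatB32 x) (fun _ => gatB32 x) (fun _ => gatB42 x) (datB30 x) (datB32 x) (fun _ => datB32 x) (fun _ => datB42 x) hd hx hx' CW.B022E_333
    · exact corW_cert (G1 := gB3q0) (G2 := gB3q2) (Ga := gB4q2) (Gb := gB5q2) (D1 := dB3q0) (D2 := dB3q2) (Da := dB4q2) (Db := dB5q2) cB022E_ok B hρ hen (gatB30 x) (gatB32 x) (fun _ => gatB42 x) (fun h => absurd h (by decide)) (datB30 x) (datB32 x) (fun _ => datB42 x) (fun h => absurd h (by decide)) hd hx hx' CW.B022E_334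
    · exact absurd h2 (by norm_num)
    · exact absurd h2 (by norm_num)
    · exact absurd h2 (by norm_num)
  · intro ρ a B hρ hd i h1 h2
    fin_cases i
    · exact corT_cert (G1 := gB3q0) (G2 := gB3q2) (Ga := gB0q2) (Gb := gB1q2) cB022E_ok B hρ (gatB30 x) (gatB32 x) (fun _ => gatB02 x) (fun _ => gatB12 x) hd hx hx' CG.B022E_330
    · exact corT_cert (G1 := gB3q0) (G2 := gB3q2) (Ga := gB1q2) (Gb := gB2q2) cB022E_ok B hρ (gatB30 x) (gatB32 x) (fun _ => gatB12 x) (fun _ => gatB22 x) hd hx hx' CG.B022E_331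
    · exact corT_cert (G1 := gB3q0) (G2 := gB3q2) (Ga := gB2q2) (Gb := gB3q2) cB022E_ok B hρ (gatB30 x) (gatB32 x) (fun _ => gatB22 x) (fun _ => gatB32 x) hd hx hx' CG.B022E_332
    · exact corT_cert (G1 := gB3q0) (G2 := gB3q2) (Ga := gB3q2) (Gb := gB4q2) cB022E_ok B hρ (gatB30 x) (gatB32 x) (fun _ => gatB32 x) (fun _ => gatB42 x) hd hx hx' CG.B022E_333
    · exact corT_cert (G1 := gB3q0) (G2 := gB3q2) (Ga := gB4q2) (Gb := gB5q2) cB022E_ok B hρ (gatB30 x) (gatB32 x) (fun _ => gatB42 x) (fun h => absurd h (by decide)) hd hx hx' CG.B022E_334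
    · exact absurd h2 (by norm_num)
    · exact absurd h2 (by norm_num)
    · exact absurd h2 (by norm_num)

theorem altB_B022E_34 {κ x : ℝ} (hκ : κ * h0 = ken x) (hx : ((649613803 : ℕ) : ℝ) / S ≤ x) (hx' : x ≤ (((649613803 : ℕ) : ℝ) + (48318383 : ℕ)) / S) :
    AltEB 3 κ (eng.v x) (3 / 40) (tnt (h0 * x) (3 / 10)) PP tK tL tC pcB (scP esg pd) [⟨0, 0, 0, 67108864⟩, ⟨1, 1, 0, 67108864⟩, ⟨2, 1, 0, 67108864⟩] 0 2 2 3 4 (sgb true) (sgb true) x := by
  have X : XR 67108864 x := XR.of hx hx' (by norm_num) (by norm_num) (by norm_num) (by norm_num)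
  have hen : 0 < eng.v x := en_pos X.x0.le
  refine CornW.altB (C := cB022E) (j := (3 : Fin 9)) (k := (4 : Fin 9)) (Ef := esg) (pd := pd) (o := 3 / 40)
    (cornW_of (C := cB022E) (C0 := c0B) (En := eng) (mo := mog) (j := (3 : Fin 9)) (k := (4 : Fin 9)) (lo := 0) (hi := 4) (W := 67108864) (N0 := 3) cB022E_q (sideB hx hx') gokB (pinU hx hx') dokB X (by norm_num) (by norm_num) (l := (0 : Fin 9)) rfl
      (gatB30 x) (gatB42 x) (gatB02 x) (datB30 x) (datB42 x) (datB02 x) ?_)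
    (cornS_of (C := cB022E) (C0 := c0B) (j := (3 : Fin 9)) (k := (4 : Fin 9)) (lo := 0) (hi := 4) (W := 67108864) (N0 := 3) cB022E_q (sideB hx hx') gokB X (by norm_num) (by norm_num) (l := (0 : Fin 9)) rfl
      (gatB30 x) (gatB42 x) (gatB02 x) ?_)
    (thU (pinU hx hx')) rfl hκ (fun j q y => tC_eq j q y x) (esg_rng X.x0.le (by linarith [X.b, X.p0])).1 (mo_v x) le_rfl le_rfl
  · intro ρ a B hρ hd i h1 h2
    fin_cases i
    · exact corW_cert (G1 := gB3q0) (G2 := gB4q2) (Ga := gB0q2) (Gb := gB1q2) (D1 := dB3q0) (D2 := dB4q2) (Da := dB0q2) (Db := dB1q2) cB022E_ok B hρ hen (gatB30 x) (gatB42 x) (fun _ => gatB02 x) (fun _ => gatB12 x) (datB30 x) (datB42 x) (fun _ => datB02 x) (fun _ => datB12 x) hd hx hx' CW.B022E_340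
    · exact corW_cert (G1 := gB3q0) (G2 := gB4q2) (Ga := gB1q2) (Gb := gB2q2) (D1 := dB3q0) (D2 := dB4q2) (Da := dB1q2) (Db := dB2q2) cB022E_ok B hρ hen (gatB30 x) (gatB42 x) (fun _ => gatB12 x) (fun _ => gatB22 x) (datB30 x) (datB42 x) (fun _ => datB12 x) (fun _ => datB22 x) hd hx hx' CW.B022E_341
    · exact corW_cert (G1 := gB3q0) (G2 := gB4q2) (Ga := gB2q2) (Gb := gB3q2) (D1 := dB3q0) (D2 := dB4q2) (Da := dB2q2) (Db := dB3q2) cB022E_ok B hρ hen (gatB30 x) (gatB42 x) (fun _ => gatB22 x) (fun _ => gatB32 x) (datB30 x) (datB42 x) (fun _ => datB22 x) (fun _ => datB32 x) hd hx hx' CW.B022E_342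
    · exact corW_cert (G1 := gB3q0) (G2 := gB4q2) (Ga := gB3q2) (Gb := gB4q2) (D1 := dB3q0) (D2 := dB4q2) (Da := dB3q2) (Db := dB4q2) cB022E_ok B hρ hen (gatB30 x) (gatB42 x) (fun _ => gatB32 x) (fun _ => gatB42 x) (datB30 x) (datB42 x) (fun _ => datB32 x) (fun _ => datB42 x) hd hx hx' CW.B022E_343
    · exact corW_cert (G1 := gB3q0) (G2 := gB4q2) (Ga := gB4q2) (Gb := gB5q2) (D1 := dB3q0) (D2 := dB4q2) (Da := dB4q2) (Db := dB5q2) cB022E_ok B hρ hen (gatB30 x) (gatB42 x) (fun _ => gatB42 x) (fun h => absurd h (by decide)) (datB30 x) (datB42 x) (fun _ => datB42 x) (fun h => absurd h (by decide)) hd hx hx' CW.B022E_344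
    · exact absurd h2 (by norm_num)
    · exact absurd h2 (by norm_num)
    · exact absurd h2 (by norm_num)
  · intro ρ a B hρ hd i h1 h2
    fin_cases i
    · exact corT_cert (G1 := gB3q0) (G2 := gB4q2) (Ga := gB0q2) (Gb := gB1q2) cB022E_ok B hρ (gatB30 x) (gatB42 x) (fun _ => gatB02 x) (fun _ => gatB12 x) hd hx hx' CG.B022E_340
    · exact corT_cert (G1 := gB3q0) (G2 := gB4q2) (Ga := gB1q2) (Gb := gB2q2) cB022E_ok B hρ (gatB30 x) (gatB42 x) (fun _ => gatB12 x) (fun _ => gatB22 x) hd hx hx' CG.B022E_341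
    · exact corT_cert (G1 := gB3q0) (G2 := gB4q2) (Ga := gB2q2) (Gb := gB3q2) cB022E_ok B hρ (gatB30 x) (gatB42 x) (fun _ => gatB22 x) (fun _ => gatB32 x) hd hx hx' CG.B022E_342
    · exact corT_cert (G1 := gB3q0) (G2 := gB4q2) (Ga := gB3q2) (Gb := gB4q2) cB022E_ok B hρ (gatB30 x) (gatB42 x) (fun _ => gatB32 x) (fun _ => gatB42 x) hd hx hx' CG.B022E_343
    · exact corT_cert (G1 := gB3q0) (G2 := gB4q2) (Ga := gB4q2) (Gb := gB5q2) cB022E_ok B hρ (gatB30 x) (gatB42 x) (fun _ => gatB42 x) (fun h => absurd h (by decide)) hd hx hx' CG.B022E_344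
    · exact absurd h2 (by norm_num)
    · exact absurd h2 (by norm_num)
    · exact absurd h2 (by norm_num)

theorem altB_B022E_40 {κ x : ℝ} (hκ : κ * h0 = ken x) (hx : ((649613803 : ℕ) : ℝ) / S ≤ x) (hx' : x ≤ (((649613803 : ℕ) : ℝ) + (48318383 : ℕ)) / S) :
    AltEB 3 κ (eng.v x) (3 / 40) (tnt (h0 * x) (3 / 10)) PP tK tL tC pcB (scP esg pd) [⟨0, 0, 0, 67108864⟩, ⟨1, 1, 0, 67108864⟩, ⟨2, 1, 0, 67108864⟩] 0 2 2 4 0 (sgb true) (sgb true) x := by
  have X : XR 67108864 x := XR.of hx hx' (by norm_num) (by norm_num) (by norm_num) (by norm_num)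
  have hen : 0 < eng.v x := en_pos X.x0.le
  refine CornW.altB (C := cB022E) (j := (4 : Fin 9)) (k := (0 : Fin 9)) (Ef := esg) (pd := pd) (o := 3 / 40)
    (cornW_of (C := cB022E) (C0 := c0B) (En := eng) (mo := mog) (j := (4 : Fin 9)) (k := (0 : Fin 9)) (lo := 0) (hi := 4) (W := 67108864) (N0 := 3) cB022E_q (sideB hx hx') gokB (pinU hx hx') dokB X (by norm_num) (by norm_num) (l := (0 : Fin 9)) rfl
      (gatB40 x) (gatB02 x) (gatB02 x) (datB40 x) (datB02 x) (datB02 x) ?_)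
    (cornS_of (C := cB022E) (C0 := c0B) (j := (4 : Fin 9)) (k := (0 : Fin 9)) (lo := 0) (hi := 4) (W := 67108864) (N0 := 3) cB022E_q (sideB hx hx') gokB X (by norm_num) (by norm_num) (l := (0 : Fin 9)) rfl
      (gatB40 x) (gatB02 x) (gatB02 x) ?_)
    (thU (pinU hx hx')) rfl hκ (fun j q y => tC_eq j q y x) (esg_rng X.x0.le (by linarith [X.b, X.p0])).1 (mo_v x) le_rfl le_rfl
  · intro ρ a B hρ hd i h1 h2
    fin_cases i
    · exact corW_cert (G1 := gB4q0) (G2 := gB0q2) (Ga := gB0q2) (Gb := gB1q2) (D1 := dB4q0) (D2 := dB0q2) (Da := dB0q2) (Db := dB1q2) cB022E_ok B hρ hen (gatB40 x) (gatB02 x) (fun _ => gatB02 x) (fun _ => gatB12 x) (datB40 x) (datB02 x) (fun _ => datB02 x) (fun _ => datB12 x) hd hx hx' CW.B022E_400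
    · exact corW_cert (G1 := gB4q0) (G2 := gB0q2) (Ga := gB1q2) (Gb := gB2q2) (D1 := dB4q0) (D2 := dB0q2) (Da := dB1q2) (Db := dB2q2) cB022E_ok B hρ hen (gatB40 x) (gatB02 x) (fun _ => gatB12 x) (fun _ => gatB22 x) (datB40 x) (datB02 x) (fun _ => datB12 x) (fun _ => datB22 x) hd hx hx' CW.B022E_401
    · exact corW_cert (G1 := gB4q0) (G2 := gB0q2) (Ga := gB2q2) (Gb := gB3q2) (D1 := dB4q0) (D2 := dB0q2) (Da := dB2q2) (Db := dB3q2) cB022E_ok B hρ hen (gatB40 x) (gatB02 x) (fun _ => gatB22 x) (fun _ => gatB32 x) (datB40 x) (datB02 x) (fun _ => datB22 x) (fun _ => datB32 x) hd hx hx' CW.B022E_402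
    · exact corW_cert (G1 := gB4q0) (G2 := gB0q2) (Ga := gB3q2) (Gb := gB4q2) (D1 := dB4q0) (D2 := dB0q2) (Da := dB3q2) (Db := dB4q2) cB022E_ok B hρ hen (gatB40 x) (gatB02 x) (fun _ => gatB32 x) (fun _ => gatB42 x) (datB40 x) (datB02 x) (fun _ => datB32 x) (fun _ => datB42 x) hd hx hx' CW.B022E_403
    · exact corW_cert (G1 := gB4q0) (G2 := gB0q2) (Ga := gB4q2) (Gb := gB5q2) (D1 := dB4q0) (D2 := dB0q2) (Da := dB4q2) (Db := dB5q2) cB022E_ok B hρ hen (gatB40 x) (gatB02 x) (fun _ => gatB42 x) (fun h => absurd h (by decide)) (datB40 x) (datB02 x) (fun _ => datB42 x) (fun h => absurd h (by decide)) hd hx hx' CW.B022E_404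
    · exact absurd h2 (by norm_num)
    · exact absurd h2 (by norm_num)
    · exact absurd h2 (by norm_num)
  · intro ρ a B hρ hd i h1 h2
    fin_cases i
    · exact corT_cert (G1 := gB4q0) (G2 := gB0q2) (Ga := gB0q2) (Gb := gB1q2) cB022E_ok B hρ (gatB40 x) (gatB02 x) (fun _ => gatB02 x) (fun _ => gatB12 x) hd hx hx' CG.B022E_400
    · exact corT_cert (G1 := gB4q0) (G2 := gB0q2) (Ga := gB1q2) (Gb := gB2q2) cB022E_ok B hρ (gatB40 x) (gatB02 x) (fun _ => gatB12 x) (fun _ => gatB22 x) hd hx hx' CG.B022E_401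
    · exact corT_cert (G1 := gB4q0) (G2 := gB0q2) (Ga := gB2q2) (Gb := gB3q2) cB022E_ok B hρ (gatB40 x) (gatB02 x) (fun _ => gatB22 x) (fun _ => gatB32 x) hd hx hx' CG.B022E_402
    · exact corT_cert (G1 := gB4q0) (G2 := gB0q2) (Ga := gB3q2) (Gb := gB4q2) cB022E_ok B hρ (gatB40 x) (gatB02 x) (fun _ => gatB32 x) (fun _ => gatB42 x) hd hx hx' CG.B022E_403
    · exact corT_cert (G1 := gB4q0) (G2 := gB0q2) (Ga := gB4q2) (Gb := gB5q2) cB022E_ok B hρ (gatB40 x) (gatB02 x) (fun _ => gatB42 x) (fun h => absurd h (by decide)) hd hx hx' CG.B022E_404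
    · exact absurd h2 (by norm_num)
    · exact absurd h2 (by norm_num)
    · exact absurd h2 (by norm_num)

theorem altB_B022E_41 {κ x : ℝ} (hκ : κ * h0 = ken x) (hx : ((649613803 : ℕ) : ℝ) / S ≤ x) (hx' : x ≤ (((649613803 : ℕ) : ℝ) + (48318383 : ℕ)) / S) :
    AltEB 3 κ (eng.v x) (3 / 40) (tnt (h0 * x) (3 / 10)) PP tK tL tC pcB (scP esg pd) [⟨0, 0, 0, 67108864⟩, ⟨1, 1, 0, 67108864⟩, ⟨2, 1, 0, 67108864⟩] 0 2 2 4 1 (sgb true) (sgb true) x := by
  have X : XR 67108864 x := XR.of hx hx' (by norm_num) (by norm_num) (by norm_num) (by norm_num)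
  have hen : 0 < eng.v x := en_pos X.x0.le
  refine CornW.altB (C := cB022E) (j := (4 : Fin 9)) (k := (1 : Fin 9)) (Ef := esg) (pd := pd) (o := 3 / 40)
    (cornW_of (C := cB022E) (C0 := c0B) (En := eng) (mo := mog) (j := (4 : Fin 9)) (k := (1 : Fin 9)) (lo := 0) (hi := 4) (W := 67108864) (N0 := 3) cB022E_q (sideB hx hx') gokB (pinU hx hx') dokB X (by norm_num) (by norm_num) (l := (0 : Fin 9)) rfl
      (gatB40 x) (gatB12 x) (gatB02 x) (datB40 x) (datB12 x) (datB02 x) ?_)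
    (cornS_of (C := cB022E) (C0 := c0B) (j := (4 : Fin 9)) (k := (1 : Fin 9)) (lo := 0) (hi := 4) (W := 67108864) (N0 := 3) cB022E_q (sideB hx hx') gokB X (by norm_num) (by norm_num) (l := (0 : Fin 9)) rfl
      (gatB40 x) (gatB12 x) (gatB02 x) ?_)
    (thU (pinU hx hx')) rfl hκ (fun j q y => tC_eq j q y x) (esg_rng X.x0.le (by linarith [X.b, X.p0])).1 (mo_v x) le_rfl le_rfl
  · intro ρ a B hρ hd i h1 h2
    fin_cases i
    · exact corW_cert (G1 := gB4q0) (G2 := gB1q2) (Ga := gB0q2) (Gb := gB1q2) (D1 := dB4q0) (D2 := dB1q2) (Da := dB0q2) (Db := dB1q2) cB022E_ok B hρ hen (gatB40 x) (gatB12 x) (fun _ => gatB02 x) (fun _ => gatB12 x) (datB40 x) (datB12 x) (fun _ => datB02 x) (fun _ => datB12 x) hd hx hx' CW.B022E_410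
    · exact corW_cert (G1 := gB4q0) (G2 := gB1q2) (Ga := gB1q2) (Gb := gB2q2) (D1 := dB4q0) (D2 := dB1q2) (Da := dB1q2) (Db := dB2q2) cB022E_ok B hρ hen (gatB40 x) (gatB12 x) (fun _ => gatB12 x) (fun _ => gatB22 x) (datB40 x) (datB12 x) (fun _ => datB12 x) (fun _ => datB22 x) hd hx hx' CW.B022E_411
    · exact corW_cert (G1 := gB4q0) (G2 := gB1q2) (Ga := gB2q2) (Gb := gB3q2) (D1 := dB4q0) (D2 := dB1q2) (Da := dB2q2) (Db := dB3q2) cB022E_ok B hρ hen (gatB40 x) (gatB12 x) (fun _ => gatB22 x) (fun _ => gatB32 x) (datB40 x) (datB12 x) (fun _ => datB22 x) (fun _ => datB32 x) hd hx hx' CW.B022E_412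
    · exact corW_cert (G1 := gB4q0) (G2 := gB1q2) (Ga := gB3q2) (Gb := gB4q2) (D1 := dB4q0) (D2 := dB1q2) (Da := dB3q2) (Db := dB4q2) cB022E_ok B hρ hen (gatB40 x) (gatB12 x) (fun _ => gatB32 x) (fun _ => gatB42 x) (datB40 x) (datB12 x) (fun _ => datB32 x) (fun _ => datB42 x) hd hx hx' CW.B022E_413
    · exact corW_cert (G1 := gB4q0) (G2 := gB1q2) (Ga := gB4q2) (Gb := gB5q2) (D1 := dB4q0) (D2 := dB1q2) (Da := dB4q2) (Db := dB5q2) cB022E_ok B hρ hen (gatB40 x) (gatB12 x) (fun _ => gatB42 x) (fun h => absurd h (by decide)) (datB40 x) (datB12 x) (fun _ => datB42 x) (fun h => absurd h (by decide)) hd hx hx' CW.B022E_414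
    · exact absurd h2 (by norm_num)
    · exact absurd h2 (by norm_num)
    · exact absurd h2 (by norm_num)
  · intro ρ a B hρ hd i h1 h2
    fin_cases i
    · exact corT_cert (G1 := gB4q0) (G2 := gB1q2) (Ga := gB0q2) (Gb := gB1q2) cB022E_ok B hρ (gatB40 x) (gatB12 x) (fun _ => gatB02 x) (fun _ => gatB12 x) hd hx hx' CG.B022E_410
    · exact corT_cert (G1 := gB4q0) (G2 := gB1q2) (Ga := gB1q2) (Gb := gB2q2) cB022E_ok B hρ (gatB40 x) (gatB12 x) (fun _ => gatB12 x) (fun _ => gatB22 x) hd hx hx' CG.B022E_411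
    · exact corT_cert (G1 := gB4q0) (G2 := gB1q2) (Ga := gB2q2) (Gb := gB3q2) cB022E_ok B hρ (gatB40 x) (gatB12 x) (fun _ => gatB22 x) (fun _ => gatB32 x) hd hx hx' CG.B022E_412
    · exact corT_cert (G1 := gB4q0) (G2 := gB1q2) (Ga := gB3q2) (Gb := gB4q2) cB022E_ok B hρ (gatB40 x) (gatB12 x) (fun _ => gatB32 x) (fun _ => gatB42 x) hd hx hx' CG.B022E_413
    · exact corT_cert (G1 := gB4q0) (G2 := gB1q2) (Ga := gB4q2) (Gb := gB5q2) cB022E_ok B hρ (gatB40 x) (gatB12 x) (fun _ => gatB42 x) (fun h => absurd h (by decide)) hd hx hx' CG.B022E_414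
    · exact absurd h2 (by norm_num)
    · exact absurd h2 (by norm_num)
    · exact absurd h2 (by norm_num)

theorem altB_B022E_42 {κ x : ℝ} (hκ : κ * h0 = ken x) (hx : ((649613803 : ℕ) : ℝ) / S ≤ x) (hx' : x ≤ (((649613803 : ℕ) : ℝ) + (48318383 : ℕ)) / S) :
    AltEB 3 κ (eng.v x) (3 / 40) (tnt (h0 * x) (3 / 10)) PP tK tL tC pcB (scP esg pd) [⟨0, 0, 0, 67108864⟩, ⟨1, 1, 0, 67108864⟩, ⟨2, 1, 0, 67108864⟩] 0 2 2 4 2 (sgb true) (sgb true) x := by
  have X : XR 67108864 x := XR.of hx hx' (by norm_num) (by norm_num) (by norm_num) (by norm_num)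
  have hen : 0 < eng.v x := en_pos X.x0.le
  refine CornW.altB (C := cB022E) (j := (4 : Fin 9)) (k := (2 : Fin 9)) (Ef := esg) (pd := pd) (o := 3 / 40)
    (cornW_of (C := cB022E) (C0 := c0B) (En := eng) (mo := mog) (j := (4 : Fin 9)) (k := (2 : Fin 9)) (lo := 0) (hi := 4) (W := 67108864) (N0 := 3) cB022E_q (sideB hx hx') gokB (pinU hx hx') dokB X (by norm_num) (by norm_num) (l := (0 : Fin 9)) rfl
      (gatB40 x) (gatB22 x) (gatB02 x) (datB40 x) (datB22 x) (datB02 x) ?_)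
    (cornS_of (C := cB022E) (C0 := c0B) (j := (4 : Fin 9)) (k := (2 : Fin 9)) (lo := 0) (hi := 4) (W := 67108864) (N0 := 3) cB022E_q (sideB hx hx') gokB X (by norm_num) (by norm_num) (l := (0 : Fin 9)) rfl
      (gatB40 x) (gatB22 x) (gatB02 x) ?_)
    (thU (pinU hx hx')) rfl hκ (fun j q y => tC_eq j q y x) (esg_rng X.x0.le (by linarith [X.b, X.p0])).1 (mo_v x) le_rfl le_rfl
  · intro ρ a B hρ hd i h1 h2
    fin_cases i
    · exact corW_cert (G1 := gB4q0) (G2 := gB2q2) (Ga := gB0q2) (Gb := gB1q2) (D1 := dB4q0) (D2 := dB2q2) (Da := dB0q2) (Db := dB1q2) cB022E_ok B hρ hen (gatB40 x) (gatB22 x) (fun _ => gatB02 x) (fun _ => gatB12 x) (datB40 x) (datB22 x) (fun _ => datB02 x) (fun _ => datB12 x) hd hx hx' CW.B022E_420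
    · exact corW_cert (G1 := gB4q0) (G2 := gB2q2) (Ga := gB1q2) (Gb := gB2q2) (D1 := dB4q0) (D2 := dB2q2) (Da := dB1q2) (Db := dB2q2) cB022E_ok B hρ hen (gatB40 x) (gatB22 x) (fun _ => gatB12 x) (fun _ => gatB22 x) (datB40 x) (datB22 x) (fun _ => datB12 x) (fun _ => datB22 x) hd hx hx' CW.B022E_421
    · exact corW_cert (G1 := gB4q0) (G2 := gB2q2) (Ga := gB2q2) (Gb := gB3q2) (D1 := dB4q0) (D2 := dB2q2) (Da := dB2q2) (Db := dB3q2) cB022E_ok B hρ hen (gatB40 x) (gatB22 x) (fun _ => gatB22 x) (fun _ => gatB32 x) (datB40 x) (datB22 x) (fun _ => datB22 x) (fun _ => datB32 x) hd hx hx' CW.B022E_422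
    · exact corW_cert (G1 := gB4q0) (G2 := gB2q2) (Ga := gB3q2) (Gb := gB4q2) (D1 := dB4q0) (D2 := dB2q2) (Da := dB3q2) (Db := dB4q2) cB022E_ok B hρ hen (gatB40 x) (gatB22 x) (fun _ => gatB32 x) (fun _ => gatB42 x) (datB40 x) (datB22 x) (fun _ => datB32 x) (fun _ => datB42 x) hd hx hx' CW.B022E_423
    · exact corW_cert (G1 := gB4q0) (G2 := gB2q2) (Ga := gB4q2) (Gb := gB5q2) (D1 := dB4q0) (D2 := dB2q2) (Da := dB4q2) (Db := dB5q2) cB022E_ok B hρ hen (gatB40 x) (gatB22 x) (fun _ => gatB42 x) (fun h => absurd h (by decide)) (datB40 x) (datB22 x) (fun _ => datB42 x) (fun h => absurd h (by decide)) hd hx hx' CW.B022E_424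
    · exact absurd h2 (by norm_num)
    · exact absurd h2 (by norm_num)
    · exact absurd h2 (by norm_num)
  · intro ρ a B hρ hd i h1 h2
    fin_cases i
    · exact corT_cert (G1 := gB4q0) (G2 := gB2q2) (Ga := gB0q2) (Gb := gB1q2) cB022E_ok B hρ (gatB40 x) (gatB22 x) (fun _ => gatB02 x) (fun _ => gatB12 x) hd hx hx' CG.B022E_420
    · exact corT_cert (G1 := gB4q0) (G2 := gB2q2) (Ga := gB1q2) (Gb := gB2q2) cB022E_ok B hρ (gatB40 x) (gatB22 x) (fun _ => gatB12 x) (fun _ => gatB22 x) hd hx hx' CG.B022E_421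
    · exact corT_cert (G1 := gB4q0) (G2 := gB2q2) (Ga := gB2q2) (Gb := gB3q2) cB022E_ok B hρ (gatB40 x) (gatB22 x) (fun _ => gatB22 x) (fun _ => gatB32 x) hd hx hx' CG.B022E_422
    · exact corT_cert (G1 := gB4q0) (G2 := gB2q2) (Ga := gB3q2) (Gb := gB4q2) cB022E_ok B hρ (gatB40 x) (gatB22 x) (fun _ => gatB32 x) (fun _ => gatB42 x) hd hx hx' CG.B022E_423
    · exact corT_cert (G1 := gB4q0) (G2 := gB2q2) (Ga := gB4q2) (Gb := gB5q2) cB022E_ok B hρ (gatB40 x) (gatB22 x) (fun _ => gatB42 x) (fun h => absurd h (by decide)) hd hx hx' CG.B022E_424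
    · exact absurd h2 (by norm_num)
    · exact absurd h2 (by norm_num)
    · exact absurd h2 (by norm_num)

theorem altB_B022E_43 {κ x : ℝ} (hκ : κ * h0 = ken x) (hx : ((649613803 : ℕ) : ℝ) / S ≤ x) (hx' : x ≤ (((649613803 : ℕ) : ℝ) + (48318383 : ℕ)) / S) :
    AltEB 3 κ (eng.v x) (3 / 40) (tnt (h0 * x) (3 / 10)) PP tK tL tC pcB (scP esg pd) [⟨0, 0, 0, 67108864⟩, ⟨1, 1, 0, 67108864⟩, ⟨2, 1, 0, 67108864⟩] 0 2 2 4 3 (sgb true) (sgb true) x := by
  have X : XR 67108864 x := XR.of hx hx' (by norm_num) (by norm_num) (by norm_num) (by norm_num)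
  have hen : 0 < eng.v x := en_pos X.x0.le
  refine CornW.altB (C := cB022E) (j := (4 : Fin 9)) (k := (3 : Fin 9)) (Ef := esg) (pd := pd) (o := 3 / 40)
    (cornW_of (C := cB022E) (C0 := c0B) (En := eng) (mo := mog) (j := (4 : Fin 9)) (k := (3 : Fin 9)) (lo := 0) (hi := 4) (W := 67108864) (N0 := 3) cB022E_q (sideB hx hx') gokB (pinU hx hx') dokB X (by norm_num) (by norm_num) (l := (0 : Fin 9)) rfl
      (gatB40 x) (gatB32 x) (gatB02 x) (datB40 x) (datB32 x) (datB02 x) ?_)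
    (cornS_of (C := cB022E) (C0 := c0B) (j := (4 : Fin 9)) (k := (3 : Fin 9)) (lo := 0) (hi := 4) (W := 67108864) (N0 := 3) cB022E_q (sideB hx hx') gokB X (by norm_num) (by norm_num) (l := (0 : Fin 9)) rfl
      (gatB40 x) (gatB32 x) (gatB02 x) ?_)
    (thU (pinU hx hx')) rfl hκ (fun j q y => tC_eq j q y x) (esg_rng X.x0.le (by linarith [X.b, X.p0])).1 (mo_v x) le_rfl le_rfl
  · intro ρ a B hρ hd i h1 h2
    fin_cases i
    · exact corW_cert (G1 := gB4q0) (G2 := gB3q2) (Ga := gB0q2) (Gb := gB1q2) (D1 := dB4q0) (D2 := dB3q2) (Da := dB0q2) (Db := dB1q2) cB022E_ok B hρ hen (gatB40 x) (gatB32 x) (fun _ => gatB02 x) (fun _ => gatB12 x) (datB40 x) (datB32 x) (fun _ => datB02 x) (fun _ => datB12 x) hd hx hx' CW.B022E_430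
    · exact corW_cert (G1 := gB4q0) (G2 := gB3q2) (Ga := gB1q2) (Gb := gB2q2) (D1 := dB4q0) (D2 := dB3q2) (Da := dB1q2) (Db := dB2q2) cB022E_ok B hρ hen (gatB40 x) (gatB32 x) (fun _ => gatB12 x) (fun _ => gatB22 x) (datB40 x) (datB32 x) (fun _ => datB12 x) (fun _ => datB22 x) hd hx hx' CW.B022E_431
    · exact corW_cert (G1 := gB4q0) (G2 := gB3q2) (Ga := gB2q2) (Gb := gB3q2) (D1 := dB4q0) (D2 := dB3q2) (Da := dB2q2) (Db := dB3q2) cB022E_ok B hρ hen (gatB40 x) (gatB32 x) (fun _ => gatB22 x) (fun _ => gatB32 x) (datB40 x) (datB32 x) (fun _ => datB22 x) (fun _ => datB32 x) hd hx hx' CW.B022E_432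
    · exact corW_cert (G1 := gB4q0) (G2 := gB3q2) (Ga := gB3q2) (Gb := gB4q2) (D1 := dB4q0) (D2 := dB3q2) (Da := dB3q2) (Db := dB4q2) cB022E_ok B hρ hen (gatB40 x) (gatB32 x) (fun _ => gatB32 x) (fun _ => gatB42 x) (datB40 x) (datB32 x) (fun _ => datB32 x) (fun _ => datB42 x) hd hx hx' CW.B022E_433
    · exact corW_cert (G1 := gB4q0) (G2 := gB3q2) (Ga := gB4q2) (Gb := gB5q2) (D1 := dB4q0) (D2 := dB3q2) (Da := dB4q2) (Db := dB5q2) cB022E_ok B hρ hen (gatB40 x) (gatB32 x) (fun _ => gatB42 x) (fun h => absurd h (by decide)) (datB40 x) (datB32 x) (fun _ => datB42 x) (fun h => absurd h (by decide)) hd hx hx' CW.B022E_434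
    · exact absurd h2 (by norm_num)
    · exact absurd h2 (by norm_num)
    · exact absurd h2 (by norm_num)
  · intro ρ a B hρ hd i h1 h2
    fin_cases i
    · exact corT_cert (G1 := gB4q0) (G2 := gB3q2) (Ga := gB0q2) (Gb := gB1q2) cB022E_ok B hρ (gatB40 x) (gatB32 x) (fun _ => gatB02 x) (fun _ => gatB12 x) hd hx hx' CG.B022E_430
    · exact corT_cert (G1 := gB4q0) (G2 := gB3q2) (Ga := gB1q2) (Gb := gB2q2) cB022E_ok B hρ (gatB40 x) (gatB32 x) (fun _ => gatB12 x) (fun _ => gatB22 x) hd hx hx' CG.B022E_431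
    · exact corT_cert (G1 := gB4q0) (G2 := gB3q2) (Ga := gB2q2) (Gb := gB3q2) cB022E_ok B hρ (gatB40 x) (gatB32 x) (fun _ => gatB22 x) (fun _ => gatB32 x) hd hx hx' CG.B022E_432
    · exact corT_cert (G1 := gB4q0) (G2 := gB3q2) (Ga := gB3q2) (Gb := gB4q2) cB022E_ok B hρ (gatB40 x) (gatB32 x) (fun _ => gatB32 x) (fun _ => gatB42 x) hd hx hx' CG.B022E_433
    · exact corT_cert (G1 := gB4q0) (G2 := gB3q2) (Ga := gB4q2) (Gb := gB5q2) cB022E_ok B hρ (gatB40 x) (gatB32 x) (fun _ => gatB42 x) (fun h => absurd h (by decide)) hd hx hx' CG.B022E_434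
    · exact absurd h2 (by norm_num)
    · exact absurd h2 (by norm_num)
    · exact absurd h2 (by norm_num)

theorem altB_B022E_44 {κ x : ℝ} (hκ : κ * h0 = ken x) (hx : ((649613803 : ℕ) : ℝ) / S ≤ x) (hx' : x ≤ (((649613803 : ℕ) : ℝ) + (48318383 : ℕ)) / S) :
    AltEB 3 κ (eng.v x) (3 / 40) (tnt (h0 * x) (3 / 10)) PP tK tL tC pcB (scP esg pd) [⟨0, 0, 0, 67108864⟩, ⟨1, 1, 0, 67108864⟩, ⟨2, 1, 0, 67108864⟩] 0 2 2 4 4 (sgb true) (sgb true) x := by
  have X : XR 67108864 x := XR.of hx hx' (by norm_num) (by norm_num) (by norm_num) (by norm_num)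
  have hen : 0 < eng.v x := en_pos X.x0.le
  refine CornW.altB (C := cB022E) (j := (4 : Fin 9)) (k := (4 : Fin 9)) (Ef := esg) (pd := pd) (o := 3 / 40)
    (cornW_of (C := cB022E) (C0 := c0B) (En := eng) (mo := mog) (j := (4 : Fin 9)) (k := (4 : Fin 9)) (lo := 0) (hi := 4) (W := 67108864) (N0 := 3) cB022E_q (sideB hx hx') gokB (pinU hx hx') dokB X (by norm_num) (by norm_num) (l := (0 : Fin 9)) rfl
      (gatB40 x) (gatB42 x) (gatB02 x) (datB40 x) (datB42 x) (datB02 x) ?_)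
    (cornS_of (C := cB022E) (C0 := c0B) (j := (4 : Fin 9)) (k := (4 : Fin 9)) (lo := 0) (hi := 4) (W := 67108864) (N0 := 3) cB022E_q (sideB hx hx') gokB X (by norm_num) (by norm_num) (l := (0 : Fin 9)) rfl
      (gatB40 x) (gatB42 x) (gatB02 x) ?_)
    (thU (pinU hx hx')) rfl hκ (fun j q y => tC_eq j q y x) (esg_rng X.x0.le (by linarith [X.b, X.p0])).1 (mo_v x) le_rfl le_rfl
  · intro ρ a B hρ hd i h1 h2
    fin_cases i
    · exact corW_cert (G1 := gB4q0) (G2 := gB4q2) (Ga := gB0q2) (Gb := gB1q2) (D1 := dB4q0) (D2 := dB4q2) (Da := dB0q2) (Db := dB1q2) cB022E_ok B hρ hen (gatB40 x) (gatB42 x) (fun _ => gatB02 x) (fun _ => gatB12 x) (datB40 x) (datB42 x) (fun _ => datB02 x) (fun _ => datB12 x) hd hx hx' CW.B022E_440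
    · exact corW_cert (G1 := gB4q0) (G2 := gB4q2) (Ga := gB1q2) (Gb := gB2q2) (D1 := dB4q0) (D2 := dB4q2) (Da := dB1q2) (Db := dB2q2) cB022E_ok B hρ hen (gatB40 x) (gatB42 x) (fun _ => gatB12 x) (fun _ => gatB22 x) (datB40 x) (datB42 x) (fun _ => datB12 x) (fun _ => datB22 x) hd hx hx' CW.B022E_441
    · exact corW_cert (G1 := gB4q0) (G2 := gB4q2) (Ga := gB2q2) (Gb := gB3q2) (D1 := dB4q0) (D2 := dB4q2) (Da := dB2q2) (Db := dB3q2) cB022E_ok B hρ hen (gatB40 x) (gatB42 x) (fun _ => gatB22 x) (fun _ => gatB32 x) (datB40 x) (datB42 x) (fun _ => datB22 x) (fun _ => datB32 x) hd hx hx' CW.B022E_442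
    · exact corW_cert (G1 := gB4q0) (G2 := gB4q2) (Ga := gB3q2) (Gb := gB4q2) (D1 := dB4q0) (D2 := dB4q2) (Da := dB3q2) (Db := dB4q2) cB022E_ok B hρ hen (gatB40 x) (gatB42 x) (fun _ => gatB32 x) (fun _ => gatB42 x) (datB40 x) (datB42 x) (fun _ => datB32 x) (fun _ => datB42 x) hd hx hx' CW.B022E_443
    · exact corW_cert (G1 := gB4q0) (G2 := gB4q2) (Ga := gB4q2) (Gb := gB5q2) (D1 := dB4q0) (D2 := dB4q2) (Da := dB4q2) (Db := dB5q2) cB022E_ok B hρ hen (gatB40 x) (gatB42 x) (fun _ => gatB42 x) (fun h => absurd h (by decide)) (datB40 x) (datB42 x) (fun _ => datB42 x) (fun h => absurd h (by decide)) hd hx hx' CW.B022E_444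
    · exact absurd h2 (by norm_num)
    · exact absurd h2 (by norm_num)
    · exact absurd h2 (by norm_num)
  · intro ρ a B hρ hd i h1 h2
    fin_cases i
    · exact corT_cert (G1 := gB4q0) (G2 := gB4q2) (Ga := gB0q2) (Gb := gB1q2) cB022E_ok B hρ (gatB40 x) (gatB42 x) (fun _ => gatB02 x) (fun _ => gatB12 x) hd hx hx' CG.B022E_440
    · exact corT_cert (G1 := gB4q0) (G2 := gB4q2) (Ga := gB1q2) (Gb := gB2q2) cB022E_ok B hρ (gatB40 x) (gatB42 x) (fun _ => gatB12 x) (fun _ => gatB22 x) hd hx hx' CG.B022E_441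
    · exact corT_cert (G1 := gB4q0) (G2 := gB4q2) (Ga := gB2q2) (Gb := gB3q2) cB022E_ok B hρ (gatB40 x) (gatB42 x) (fun _ => gatB22 x) (fun _ => gatB32 x) hd hx hx' CG.B022E_442
    · exact corT_cert (G1 := gB4q0) (G2 := gB4q2) (Ga := gB3q2) (Gb := gB4q2) cB022E_ok B hρ (gatB40 x) (gatB42 x) (fun _ => gatB32 x) (fun _ => gatB42 x) hd hx hx' CG.B022E_443
    · exact corT_cert (G1 := gB4q0) (G2 := gB4q2) (Ga := gB4q2) (Gb := gB5q2) cB022E_ok B hρ (gatB40 x) (gatB42 x) (fun _ => gatB42 x) (fun h => absurd h (by decide)) hd hx hx' CG.B022E_444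
    · exact absurd h2 (by norm_num)
    · exact absurd h2 (by norm_num)
    · exact absurd h2 (by norm_num)

theorem altB_B022L_08 {κ x : ℝ} (hκ : κ * h0 = ken x) (hx : ((649613803 : ℕ) : ℝ) / S ≤ x) (hx' : x ≤ (((649613803 : ℕ) : ℝ) + (48318383 : ℕ)) / S) :
    AltEB 3 κ (eng.v x) (3 / 40) (tnt (h0 * x) (3 / 10)) PP tK tL tC pcB (scP esg pd) [⟨0, 0, 0, 53687091⟩, ⟨1, 1, 0, 53687091⟩, ⟨2, 1, 0, 53687091⟩] 0 2 2 0 8 (sgb true) (sgb true) x := by
  have X : XR 53687091 x := XR.of hx hx' (by norm_num) (by norm_num) (by norm_num) (by norm_num)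
  have hen : 0 < eng.v x := en_pos X.x0.le
  refine CornW.altB (C := cB022L) (j := (0 : Fin 9)) (k := (8 : Fin 9)) (Ef := esg) (pd := pd) (o := 3 / 40)
    (cornW_of (C := cB022L) (C0 := c0B) (En := eng) (mo := mog) (j := (0 : Fin 9)) (k := (8 : Fin 9)) (lo := 0) (hi := 4) (W := 53687091) (N0 := 3) cB022L_q (sideB hx hx') gokB (pinU hx hx') dokB X (by norm_num) (by norm_num) (l := (0 : Fin 9)) rfl
      (gatB00 x) (gatB82 x) (gatB02 x) (datB00 x) (datB82 x) (datB02 x) ?_)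
    (cornS_of (C := cB022L) (C0 := c0B) (j := (0 : Fin 9)) (k := (8 : Fin 9)) (lo := 0) (hi := 4) (W := 53687091) (N0 := 3) cB022L_q (sideB hx hx') gokB X (by norm_num) (by norm_num) (l := (0 : Fin 9)) rfl
      (gatB00 x) (gatB82 x) (gatB02 x) ?_)
    (thU (pinU hx hx')) rfl hκ (fun j q y => tC_eq j q y x) (esg_rng X.x0.le (by linarith [X.b, X.p0])).1 (mo_v x) le_rfl le_rfl
  · intro ρ a B hρ hd i h1 h2
    fin_cases i
    · exact corW_cert (G1 := gB0q0) (G2 := gB8q2) (Ga := gB0q2) (Gb := gB1q2) (D1 := dB0q0) (D2 := dB8q2) (Da := dB0q2) (Db := dB1q2) cB022L_ok B hρ hen (gatB00 x) (gatB82 x) (fun _ => gatB02 x) (fun _ => gatB12 x) (datB00 x) (datB82 x) (fun _ => datB02 x) (fun _ => datB12 x) hd hx hx' CW.B022L_080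
    · exact corW_cert (G1 := gB0q0) (G2 := gB8q2) (Ga := gB1q2) (Gb := gB2q2) (D1 := dB0q0) (D2 := dB8q2) (Da := dB1q2) (Db := dB2q2) cB022L_ok B hρ hen (gatB00 x) (gatB82 x) (fun _ => gatB12 x) (fun _ => gatB22 x) (datB00 x) (datB82 x) (fun _ => datB12 x) (fun _ => datB22 x) hd hx hx' CW.B022L_081
    · exact corW_cert (G1 := gB0q0) (G2 := gB8q2) (Ga := gB2q2) (Gb := gB3q2) (D1 := dB0q0) (D2 := dB8q2) (Da := dB2q2) (Db := dB3q2) cB022L_ok B hρ hen (gatB00 x) (gatB82 x) (fun _ => gatB22 x) (fun _ => gatB32 x) (datB00 x) (datB82 x) (fun _ => datB22 x) (fun _ => datB32 x) hd hx hx' CW.B022L_082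
    · exact corW_cert (G1 := gB0q0) (G2 := gB8q2) (Ga := gB3q2) (Gb := gB4q2) (D1 := dB0q0) (D2 := dB8q2) (Da := dB3q2) (Db := dB4q2) cB022L_ok B hρ hen (gatB00 x) (gatB82 x) (fun _ => gatB32 x) (fun _ => gatB42 x) (datB00 x) (datB82 x) (fun _ => datB32 x) (fun _ => datB42 x) hd hx hx' CW.B022L_083
    · exact corW_cert (G1 := gB0q0) (G2 := gB8q2) (Ga := gB4q2) (Gb := gB5q2) (D1 := dB0q0) (D2 := dB8q2) (Da := dB4q2) (Db := dB5q2) cB022L_ok B hρ hen (gatB00 x) (gatB82 x) (fun _ => gatB42 x) (fun h => absurd h (by decide)) (datB00 x) (datB82 x) (fun _ => datB42 x) (fun h => absurd h (by decide)) hd hx hx' CW.B022L_084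
    · exact absurd h2 (by norm_num)
    · exact absurd h2 (by norm_num)
    · exact absurd h2 (by norm_num)
  · intro ρ a B hρ hd i h1 h2
    fin_cases i
    · exact corX_cert (G1 := gB0q0) (G2 := gB8q2) (Ga := gB0q2) (Gb := gB1q2) (GT := gB0q2) cB022L_ok tB022L_ok B hρ (gatB00 x) (gatB82 x) (fun _ => gatB02 x) (fun _ => gatB12 x) rfl (tgh_B022L (kodd x) (gpu0 x) (gpt2 x) (gpu2 x) (gatB00 x) (gatB82 x) (gatB02 x) B (le_sixteenth hd (by norm_num))) hd hx hx' CG.B022L_080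
    · exact corT_cert (G1 := gB0q0) (G2 := gB8q2) (Ga := gB1q2) (Gb := gB2q2) cB022L_ok B hρ (gatB00 x) (gatB82 x) (fun _ => gatB12 x) (fun _ => gatB22 x) hd hx hx' CG.B022L_081
    · exact corT_cert (G1 := gB0q0) (G2 := gB8q2) (Ga := gB2q2) (Gb := gB3q2) cB022L_ok B hρ (gatB00 x) (gatB82 x) (fun _ => gatB22 x) (fun _ => gatB32 x) hd hx hx' CG.B022L_082
    · exact corT_cert (G1 := gB0q0) (G2 := gB8q2) (Ga := gB3q2) (Gb := gB4q2) cB022L_ok B hρ (gatB00 x) (gatB82 x) (fun _ => gatB32 x) (fun _ => gatB42 x) hd hx hx' CG.B022L_083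
    · exact corT_cert (G1 := gB0q0) (G2 := gB8q2) (Ga := gB4q2) (Gb := gB5q2) cB022L_ok B hρ (gatB00 x) (gatB82 x) (fun _ => gatB42 x) (fun h => absurd h (by decide)) hd hx hx' CG.B022L_084
    · exact absurd h2 (by norm_num)
    · exact absurd h2 (by norm_num)
    · exact absurd h2 (by norm_num)

end Pool.Agent.Strip051.G.I6050_6500.Tab
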