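import Pool.Agent.Strip051.G.I6050_6500.CrnB
import Pool.Agent.Strip051.G.I6050_6500.CG_2
import Pool.Agent.Strip051.G.I6050_6500.CW_2

/-! # Aligned corners: the alternatives (generated) -/

set_option linter.all false

namespace Pool.Agent.Strip051.G.I6050_6500.Tab

open Pool.Agent.Strip051.PB Pool.Agent.StripNear Pool.Agent.Strip051.LC

theorem altB_B102L_82 {κ x : ℝ} (hκ : κ * h0 = ken x) (hx : ((649613803 : ℕ) : ℝ) / S ≤ x) (hx' : x ≤ (((649613803 : ℕ) : ℝ) + (48318383 : ℕ)) / S) :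
    AltEB 3 κ (eng.v x) (3 / 40) (tnt (h0 * x) (3 / 10)) PP tK tL tC pcB (scP esg pd) [⟨0, 1, 0, 67108864⟩, ⟨1, 0, 0, 67108864⟩, ⟨2, 1, 0, 67108864⟩] 1 0 2 8 2 (sgb true) (sgb true) x := by
  have X : XR 67108864 x := XR.of hx hx' (by norm_num) (by norm_num) (by norm_num) (by norm_num)
  have hen : 0 < eng.v x := en_pos X.x0.le
  refine CornW.altB (C := cB102L) (j := (8 : Fin 9)) (k := (2 : Fin 9)) (Ef := esg) (pd := pd) (o := 3 / 40)
    (cornW_of (C := cB102L) (C0 := c0B) (En := eng) (mo := mog) (j := (8 : Fin 9)) (k := (2 : Fin 9)) (lo := 0) (hi := 4) (W := 67108864) (N0 := 3) cB102L_q (sideB hx hx') gokB (pinU hx hx') dokB X (by norm_num) (by norm_num) (l := (0 : Fin 9)) rfl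
      (gatB81 x) (gatB22 x) (gatB00 x) (datB81 x) (datB22 x) (datB00 x) ?_)
    (cornS_of (C := cB102L) (C0 := c0B) (j := (8 : Fin 9)) (k := (2 : Fin 9)) (lo := 0) (hi := 4) (W := 67108864) (N0 := 3) cB102L_q (sideB hx hx') gokB X (by norm_num) (by norm_num) (l := (0 : Fin 9)) rfl
      (gatB81 x) (gatB22 x) (gatB00 x) ?_)
    (thU (pinU hx hx')) rfl hκ (fun j q y => tC_eq j q y x) (esg_rng X.x0.le (by linarith [X.b, X.p0])).1 (mo_v x) le_rfl le_rfl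
  · intro ρ a B hρ hd i h1 h2
    fin_cases i
    · exact corW_cert (G1 := gB8q1) (G2 := gB2q2) (Ga := gB0q0) (Gb := gB1q0) (D1 := dB8q1) (D2 := dB2q2) (Da := dB0q0) (Db := dB1q0) cB102L_ok B hρ hen (gatB81 x) (gatB22 x) (fun _ => gatB00 x) (fun _ => gatB10 x) (datB81 x) (datB22 x) (fun _ => datB00 x) (fun _ => datB10 x) hd hx hx' CW.B102L_820
    · exact corW_cert (G1 := gB8q1) (G2 := gB2q2) (Ga := gB1q0) (Gb := gB2q0) (D1 := dB8q1) (D2 := dB2q2) (Da := dB1q0) (Db := dB2q0) cB102L_ok B hρ hen (gatB81 x) (gatB22 x) (fun _ => gatB10 x) (fun _ => gatB20 x) (datB81 x) (datB22 x) (fun _ => datB10 x) (fun _ => datB20 x) hd hx hx' CW.B102L_821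
    · exact corW_cert (G1 := gB8q1) (G2 := gB2q2) (Ga := gB2q0) (Gb := gB3q0) (D1 := dB8q1) (D2 := dB2q2) (Da := dB2q0) (Db := dB3q0) cB102L_ok B hρ hen (gatB81 x) (gatB22 x) (fun _ => gatB20 x) (fun _ => gatB30 x) (datB81 x) (datB22 x) (fun _ => datB20 x) (fun _ => datB30 x) hd hx hx' CW.B102L_822
    · exact corW_cert (G1 := gB8q1) (G2 := gB2q2) (Ga := gB3q0) (Gb := gB4q0) (D1 := dB8q1) (D2 := dB2q2) (Da := dB3q0) (Db := dB4q0) cB102L_ok B hρ hen (gatB81 x) (gatB22 x) (fun _ => gatB30 x) (fun _ => gatB40 x) (datB81 x) (datB22 x) (fun _ => datB30 x) (fun _ => datB40 x) hd hx hx' CW.B102L_823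
    · exact corW_cert (G1 := gB8q1) (G2 := gB2q2) (Ga := gB4q0) (Gb := gB5q0) (D1 := dB8q1) (D2 := dB2q2) (Da := dB4q0) (Db := dB5q0) cB102L_ok B hρ hen (gatB81 x) (gatB22 x) (fun _ => gatB40 x) (fun h => absurd h (by decide)) (datB81 x) (datB22 x) (fun _ => datB40 x) (fun h => absurd h (by decide)) hd hx hx' CW.B102L_824
    · exact absurd h2 (by norm_num)
    · exact absurd h2 (by norm_num)
    · exact absurd h2 (by norm_num)
  · intro ρ a B hρ hd i h1 h2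
    fin_cases i
    · exact corT_cert (G1 := gB8q1) (G2 := gB2q2) (Ga := gB0q0) (Gb := gB1q0) cB102L_ok B hρ (gatB81 x) (gatB22 x) (fun _ => gatB00 x) (fun _ => gatB10 x) hd hx hx' CG.B102L_820
    · exact corT_cert (G1 := gB8q1) (G2 := gB2q2) (Ga := gB1q0) (Gb := gB2q0) cB102L_ok B hρ (gatB81 x) (gatB22 x) (fun _ => gatB10 x) (fun _ => gatB20 x) hd hx hx' CG.B102L_821
    · exact corT_cert (G1 := gB8q1) (G2 := gB2q2) (Ga := gB2q0) (Gb := gB3q0) cB102L_ok B hρ (gatB81 x) (gatB22 x) (fun _ => gatB20 x) (fun _ => gatB30 x) hd hx hx' CG.B102L_822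
    · exact corT_cert (G1 := gB8q1) (G2 := gB2q2) (Ga := gB3q0) (Gb := gB4q0) cB102L_ok B hρ (gatB81 x) (gatB22 x) (fun _ => gatB30 x) (fun _ => gatB40 x) hd hx hx' CG.B102L_823
    · exact corT_cert (G1 := gB8q1) (G2 := gB2q2) (Ga := gB4q0) (Gb := gB5q0) cB102L_ok B hρ (gatB81 x) (gatB22 x) (fun _ => gatB40 x) (fun h => absurd h (by decide)) hd hx hx' CG.B102L_824
    · exact absurd h2 (by norm_num)
    · exact absurd h2 (by norm_num)
    · exact absurd h2 (by norm_num)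

theorem altB_B102L_83 {κ x : ℝ} (hκ : κ * h0 = ken x) (hx : ((649613803 : ℕ) : ℝ) / S ≤ x) (hx' : x ≤ (((649613803 : ℕ) : ℝ) + (48318383 : ℕ)) / S) :
    AltEB 3 κ (eng.v x) (3 / 40) (tnt (h0 * x) (3 / 10)) PP tK tL tC pcB (scP esg pd) [⟨0, 1, 0, 67108864⟩, ⟨1, 0, 0, 67108864⟩, ⟨2, 1, 0, 67108864⟩] 1 0 2 8 3 (sgb true) (sgb true) x := by
  have X : XR 67108864 x := XR.of hx hx' (by norm_num) (by norm_num) (by norm_num) (by norm_num)
  have hen : 0 < eng.v x := en_pos X.x0.le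
  refine CornW.altB (C := cB102L) (j := (8 : Fin 9)) (k := (3 : Fin 9)) (Ef := esg) (pd := pd) (o := 3 / 40)
    (cornW_of (C := cB102L) (C0 := c0B) (En := eng) (mo := mog) (j := (8 : Fin 9)) (k := (3 : Fin 9)) (lo := 0) (hi := 4) (W := 67108864) (N0 := 3) cB102L_q (sideB hx hx') gokB (pinU hx hx') dokB X (by norm_num) (by norm_num) (l := (0 : Fin 9)) rfl
      (gatB81 x) (gatB32 x) (gatB00 x) (datB81 x) (datB32 x) (datB00 x) ?_)
    (cornS_of (C := cB102L) (C0 := c0B) (j := (8 : Fin 9)) (k := (3 : Fin 9)) (lo := 0) (hi := 4) (W := 67108864) (N0 := 3) cB102L_q (sideB hx hx') gokB X (by norm_num) (by norm_num) (l := (0 : Fin 9)) rfl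
      (gatB81 x) (gatB32 x) (gatB00 x) ?_)
    (thU (pinU hx hx')) rfl hκ (fun j q y => tC_eq j q y x) (esg_rng X.x0.le (by linarith [X.b, X.p0])).1 (mo_v x) le_rfl le_rfl
  · intro ρ a B hρ hd i h1 h2
    fin_cases i
    · exact corW_cert (G1 := gB8q1) (G2 := gB3q2) (Ga := gB0q0) (Gb := gB1q0) (D1 := dB8q1) (D2 := dB3q2) (Da := dB0q0) (Db := dB1q0) cB102L_ok B hρ hen (gatB81 x) (gatB32 x) (fun _ => gatB00 x) (fun _ => gatB10 x) (datB81 x) (datB32 x) (fun _ => datB00 x) (fun _ => datB10 x) hd hx hx' CW.B102L_830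
    · exact corW_cert (G1 := gB8q1) (G2 := gB3q2) (Ga := gB1q0) (Gb := gB2q0) (D1 := dB8q1) (D2 := dB3q2) (Da := dB1q0) (Db := dB2q0) cB102L_ok B hρ hen (gatB81 x) (gatB32 x) (fun _ => gatB10 x) (fun _ => gatB20 x) (datB81 x) (datB32 x) (fun _ => datB10 x) (fun _ => datB20 x) hd hx hx' CW.B102L_831
    · exact corW_cert (G1 := gB8q1) (G2 := gB3q2) (Ga := gB2q0) (Gb := gB3q0) (D1 := dB8q1) (D2 := dB3q2) (Da := dB2q0) (Db := dB3q0) cB102L_ok B hρ hen (gatB81 x) (gatB32 x) (fun _ => gatB20 x) (fun _ => gatB30 x) (datB81 x) (datB32 x) (fun _ => datB20 x) (fun _ => datB30 x) hd hx hx' CW.B102L_832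
    · exact corW_cert (G1 := gB8q1) (G2 := gB3q2) (Ga := gB3q0) (Gb := gB4q0) (D1 := dB8q1) (D2 := dB3q2) (Da := dB3q0) (Db := dB4q0) cB102L_ok B hρ hen (gatB81 x) (gatB32 x) (fun _ => gatB30 x) (fun _ => gatB40 x) (datB81 x) (datB32 x) (fun _ => datB30 x) (fun _ => datB40 x) hd hx hx' CW.B102L_833
    · exact corW_cert (G1 := gB8q1) (G2 := gB3q2) (Ga := gB4q0) (Gb := gB5q0) (D1 := dB8q1) (D2 := dB3q2) (Da := dB4q0) (Db := dB5q0) cB102L_ok B hρ hen (gatB81 x) (gatB32 x) (fun _ => gatB40 x) (fun h => absurd h (by decide)) (datB81 x) (datB32 x) (fun _ => datB40 x) (fun h => absurd h (by decide)) hd hx hx' CW.B102L_834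
    · exact absurd h2 (by norm_num)
    · exact absurd h2 (by norm_num)
    · exact absurd h2 (by norm_num)
  · intro ρ a B hρ hd i h1 h2
    fin_cases i
    · exact corT_cert (G1 := gB8q1) (G2 := gB3q2) (Ga := gB0q0) (Gb := gB1q0) cB102L_ok B hρ (gatB81 x) (gatB32 x) (fun _ => gatB00 x) (fun _ => gatB10 x) hd hx hx' CG.B102L_830
    · exact corT_cert (G1 := gB8q1) (G2 := gB3q2) (Ga := gB1q0) (Gb := gB2q0) cB102L_ok B hρ (gatB81 x) (gatB32 x) (fun _ => gatB10 x) (fun _ => gatB20 x) hd hx hx' CG.B102L_831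
    · exact corT_cert (G1 := gB8q1) (G2 := gB3q2) (Ga := gB2q0) (Gb := gB3q0) cB102L_ok B hρ (gatB81 x) (gatB32 x) (fun _ => gatB20 x) (fun _ => gatB30 x) hd hx hx' CG.B102L_832
    · exact corT_cert (G1 := gB8q1) (G2 := gB3q2) (Ga := gB3q0) (Gb := gB4q0) cB102L_ok B hρ (gatB81 x) (gatB32 x) (fun _ => gatB30 x) (fun _ => gatB40 x) hd hx hx' CG.B102L_833
    · exact corT_cert (G1 := gB8q1) (G2 := gB3q2) (Ga := gB4q0) (Gb := gB5q0) cB102L_ok B hρ (gatB81 x) (gatB32 x) (fun _ => gatB40 x) (fun h => absurd h (by decide)) hd hx hx' CG.B102L_834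
    · exact absurd h2 (by norm_num)
    · exact absurd h2 (by norm_num)
    · exact absurd h2 (by norm_num)

theorem altB_B102L_84 {κ x : ℝ} (hκ : κ * h0 = ken x) (hx : ((649613803 : ℕ) : ℝ) / S ≤ x) (hx' : x ≤ (((649613803 : ℕ) : ℝ) + (48318383 : ℕ)) / S) :
    AltEB 3 κ (eng.v x) (3 / 40) (tnt (h0 * x) (3 / 10)) PP tK tL tC pcB (scP esg pd) [⟨0, 1, 0, 67108864⟩, ⟨1, 0, 0, 67108864⟩, ⟨2, 1, 0, 67108864⟩] 1 0 2 8 4 (sgb true) (sgb true) x := by
  have X : XR 67108864 x := XR.of hx hx' (by norm_num) (by norm_num) (by norm_num) (by norm_num)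
  have hen : 0 < eng.v x := en_pos X.x0.le
  refine CornW.altB (C := cB102L) (j := (8 : Fin 9)) (k := (4 : Fin 9)) (Ef := esg) (pd := pd) (o := 3 / 40)
    (cornW_of (C := cB102L) (C0 := c0B) (En := eng) (mo := mog) (j := (8 : Fin 9)) (k := (4 : Fin 9)) (lo := 0) (hi := 4) (W := 67108864) (N0 := 3) cB102L_q (sideB hx hx') gokB (pinU hx hx') dokB X (by norm_num) (by norm_num) (l := (0 : Fin 9)) rfl
      (gatB81 x) (gatB42 x) (gatB00 x) (datB81 x) (datB42 x) (datB00 x) ?_)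
    (cornS_of (C := cB102L) (C0 := c0B) (j := (8 : Fin 9)) (k := (4 : Fin 9)) (lo := 0) (hi := 4) (W := 67108864) (N0 := 3) cB102L_q (sideB hx hx') gokB X (by norm_num) (by norm_num) (l := (0 : Fin 9)) rfl
      (gatB81 x) (gatB42 x) (gatB00 x) ?_)
    (thU (pinU hx hx')) rfl hκ (fun j q y => tC_eq j q y x) (esg_rng X.x0.le (by linarith [X.b, X.p0])).1 (mo_v x) le_rfl le_rfl
  · intro ρ a B hρ hd i h1 h2
    fin_cases i
    · exact corW_cert (G1 := gB8q1) (G2 := gB4q2) (Ga := gB0q0) (Gb := gB1q0) (D1 := dB8q1) (D2 := dB4q2) (Da := dB0q0) (Db := dB1q0) cB102L_ok B hρ hen (gatB81 x) (gatB42 x) (fun _ => gatB00 x) (fun _ => gatB10 x) (datB81 x) (datB42 x) (fun _ => datB00 x) (fun _ => datB10 x) hd hx hx' CW.B102L_840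
    · exact corW_cert (G1 := gB8q1) (G2 := gB4q2) (Ga := gB1q0) (Gb := gB2q0) (D1 := dB8q1) (D2 := dB4q2) (Da := dB1q0) (Db := dB2q0) cB102L_ok B hρ hen (gatB81 x) (gatB42 x) (fun _ => gatB10 x) (fun _ => gatB20 x) (datB81 x) (datB42 x) (fun _ => datB10 x) (fun _ => datB20 x) hd hx hx' CW.B102L_841
    · exact corW_cert (G1 := gB8q1) (G2 := gB4q2) (Ga := gB2q0) (Gb := gB3q0) (D1 := dB8q1) (D2 := dB4q2) (Da := dB2q0) (Db := dB3q0) cB102L_ok B hρ hen (gatB81 x) (gatB42 x) (fun _ => gatB20 x) (fun _ => gatB30 x) (datB81 x) (datB42 x) (fun _ => datB20 x) (fun _ => datB30 x) hd hx hx' CW.B102L_842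
    · exact corW_cert (G1 := gB8q1) (G2 := gB4q2) (Ga := gB3q0) (Gb := gB4q0) (D1 := dB8q1) (D2 := dB4q2) (Da := dB3q0) (Db := dB4q0) cB102L_ok B hρ hen (gatB81 x) (gatB42 x) (fun _ => gatB30 x) (fun _ => gatB40 x) (datB81 x) (datB42 x) (fun _ => datB30 x) (fun _ => datB40 x) hd hx hx' CW.B102L_843
    · exact corW_cert (G1 := gB8q1) (G2 := gB4q2) (Ga := gB4q0) (Gb := gB5q0) (D1 := dB8q1) (D2 := dB4q2) (Da := dB4q0) (Db := dB5q0) cB102L_ok B hρ hen (gatB81 x) (gatB42 x) (fun _ => gatB40 x) (fun h => absurd h (by decide)) (datB81 x) (datB42 x) (fun _ => datB40 x) (fun h => absurd h (by decide)) hd hx hx' CW.B102L_844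
    · exact absurd h2 (by norm_num)
    · exact absurd h2 (by norm_num)
    · exact absurd h2 (by norm_num)
  · intro ρ a B hρ hd i h1 h2
    fin_cases i
    · exact corT_cert (G1 := gB8q1) (G2 := gB4q2) (Ga := gB0q0) (Gb := gB1q0) cB102L_ok B hρ (gatB81 x) (gatB42 x) (fun _ => gatB00 x) (fun _ => gatB10 x) hd hx hx' CG.B102L_840
    · exact corT_cert (G1 := gB8q1) (G2 := gB4q2) (Ga := gB1q0) (Gb := gB2q0) cB102L_ok B hρ (gatB81 x) (gatB42 x) (fun _ => gatB10 x) (fun _ => gatB20 x) hd hx hx' CG.B102L_841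
    · exact corT_cert (G1 := gB8q1) (G2 := gB4q2) (Ga := gB2q0) (Gb := gB3q0) cB102L_ok B hρ (gatB81 x) (gatB42 x) (fun _ => gatB20 x) (fun _ => gatB30 x) hd hx hx' CG.B102L_842
    · exact corT_cert (G1 := gB8q1) (G2 := gB4q2) (Ga := gB3q0) (Gb := gB4q0) cB102L_ok B hρ (gatB81 x) (gatB42 x) (fun _ => gatB30 x) (fun _ => gatB40 x) hd hx hx' CG.B102L_843
    · exact corT_cert (G1 := gB8q1) (G2 := gB4q2) (Ga := gB4q0) (Gb := gB5q0) cB102L_ok B hρ (gatB81 x) (gatB42 x) (fun _ => gatB40 x) (fun h => absurd h (by decide)) hd hx hx' CG.B102L_844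
    · exact absurd h2 (by norm_num)
    · exact absurd h2 (by norm_num)
    · exact absurd h2 (by norm_num)

theorem altB_B102R_08 {κ x : ℝ} (hκ : κ * h0 = ken x) (hx : ((649613803 : ℕ) : ℝ) / S ≤ x) (hx' : x ≤ (((649613803 : ℕ) : ℝ) + (48318383 : ℕ)) / S) :
    AltEB 3 κ (eng.v x) (3 / 40) (tnt (h0 * x) (3 / 10)) PP tK tL tC pcB (scP esg pd) [⟨0, 1, 0, 67108864⟩, ⟨1, 0, 0, 67108864⟩, ⟨2, 1, 0, 67108864⟩] 1 0 2 0 8 (sgb false) (sgb false) x := by
  have X : XR 67108864 x := XR.of hx hx' (by norm_num) (by norm_num) (by norm_num) (by norm_num)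
  have hen : 0 < eng.v x := en_pos X.x0.le
  refine CornW.altB (C := cB102R) (j := (0 : Fin 9)) (k := (8 : Fin 9)) (Ef := esg) (pd := pd) (o := 3 / 40)
    (cornW_of (C := cB102R) (C0 := c0B) (En := eng) (mo := mog) (j := (0 : Fin 9)) (k := (8 : Fin 9)) (lo := 0) (hi := 4) (W := 67108864) (N0 := 3) cB102R_q (sideB hx hx') gokB (pinU hx hx') dokB X (by norm_num) (by norm_num) (l := (0 : Fin 9)) rfl
      (gatB01 x) (gatB82 x) (gatB00 x) (datB01 x) (datB82 x) (datB00 x) ?_)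
    (cornS_of (C := cB102R) (C0 := c0B) (j := (0 : Fin 9)) (k := (8 : Fin 9)) (lo := 0) (hi := 4) (W := 67108864) (N0 := 3) cB102R_q (sideB hx hx') gokB X (by norm_num) (by norm_num) (l := (0 : Fin 9)) rfl
      (gatB01 x) (gatB82 x) (gatB00 x) ?_)
    (thU (pinU hx hx')) rfl hκ (fun j q y => tC_eq j q y x) (esg_rng X.x0.le (by linarith [X.b, X.p0])).1 (mo_v x) le_rfl le_rfl
  · intro ρ a B hρ hd i h1 h2
    fin_cases i
    · exact corW_cert (G1 := gB0q1) (G2 := gB8q2) (Ga := gB0q0) (Gb := gB1q0) (D1 := dB0q1) (D2 := dB8q2) (Da := dB0q0) (Db := dB1q0) cB102R_ok B hρ hen (gatB01 x) (gatB82 x) (fun _ => gatB00 x) (fun _ => gatB10 x) (datB01 x) (datB82 x) (fun _ => datB00 x) (fun _ => datB10 x) hd hx hx' CW.B102R_080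
    · exact corW_cert (G1 := gB0q1) (G2 := gB8q2) (Ga := gB1q0) (Gb := gB2q0) (D1 := dB0q1) (D2 := dB8q2) (Da := dB1q0) (Db := dB2q0) cB102R_ok B hρ hen (gatB01 x) (gatB82 x) (fun _ => gatB10 x) (fun _ => gatB20 x) (datB01 x) (datB82 x) (fun _ => datB10 x) (fun _ => datB20 x) hd hx hx' CW.B102R_081
    · exact corW_cert (G1 := gB0q1) (G2 := gB8q2) (Ga := gB2q0) (Gb := gB3q0) (D1 := dB0q1) (D2 := dB8q2) (Da := dB2q0) (Db := dB3q0) cB102R_ok B hρ hen (gatB01 x) (gatB82 x) (fun _ => gatB20 x) (fun _ => gatB30 x) (datB01 x) (datB82 x) (fun _ => datB20 x) (fun _ => datB30 x) hd hx hx' CW.B102R_082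
    · exact corW_cert (G1 := gB0q1) (G2 := gB8q2) (Ga := gB3q0) (Gb := gB4q0) (D1 := dB0q1) (D2 := dB8q2) (Da := dB3q0) (Db := dB4q0) cB102R_ok B hρ hen (gatB01 x) (gatB82 x) (fun _ => gatB30 x) (fun _ => gatB40 x) (datB01 x) (datB82 x) (fun _ => datB30 x) (fun _ => datB40 x) hd hx hx' CW.B102R_083
    · exact corW_cert (G1 := gB0q1) (G2 := gB8q2) (Ga := gB4q0) (Gb := gB5q0) (D1 := dB0q1) (D2 := dB8q2) (Da := dB4q0) (Db := dB5q0) cB102R_ok B hρ hen (gatB01 x) (gatB82 x) (fun _ => gatB40 x) (fun h => absurd h (by decide)) (datB01 x) (datB82 x) (fun _ => datB40 x) (fun h => absurd h (by decide)) hd hx hx' CW.B102R_084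
    · exact absurd h2 (by norm_num)
    · exact absurd h2 (by norm_num)
    · exact absurd h2 (by norm_num)
  · intro ρ a B hρ hd i h1 h2
    fin_cases i
    · exact corT_cert (G1 := gB0q1) (G2 := gB8q2) (Ga := gB0q0) (Gb := gB1q0) cB102R_ok B hρ (gatB01 x) (gatB82 x) (fun _ => gatB00 x) (fun _ => gatB10 x) hd hx hx' CG.B102R_080
    · exact corT_cert (G1 := gB0q1) (G2 := gB8q2) (Ga := gB1q0) (Gb := gB2q0) cB102R_ok B hρ (gatB01 x) (gatB82 x) (fun _ => gatB10 x) (fun _ => gatB20 x) hd hx hx' CG.B102R_081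
    · exact corT_cert (G1 := gB0q1) (G2 := gB8q2) (Ga := gB2q0) (Gb := gB3q0) cB102R_ok B hρ (gatB01 x) (gatB82 x) (fun _ => gatB20 x) (fun _ => gatB30 x) hd hx hx' CG.B102R_082
    · exact corT_cert (G1 := gB0q1) (G2 := gB8q2) (Ga := gB3q0) (Gb := gB4q0) cB102R_ok B hρ (gatB01 x) (gatB82 x) (fun _ => gatB30 x) (fun _ => gatB40 x) hd hx hx' CG.B102R_083
    · exact corT_cert (G1 := gB0q1) (G2 := gB8q2) (Ga := gB4q0) (Gb := gB5q0) cB102R_ok B hρ (gatB01 x) (gatB82 x) (fun _ => gatB40 x) (fun h => absurd h (by decide)) hd hx hx' CG.B102R_084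
    · exact absurd h2 (by norm_num)
    · exact absurd h2 (by norm_num)
    · exact absurd h2 (by norm_num)

theorem altB_B202E_00 {κ x : ℝ} (hκ : κ * h0 = ken x) (hx : ((649613803 : ℕ) : ℝ) / S ≤ x) (hx' : x ≤ (((649613803 : ℕ) : ℝ) + (48318383 : ℕ)) / S) :
    AltEB 3 κ (eng.v x) (3 / 40) (tnt (h0 * x) (3 / 10)) PP tK tL tC pcB (scP esg pd) [⟨0, 1, 0, 67108864⟩, ⟨1, 0, 0, 67108864⟩, ⟨2, 1, 0, 67108864⟩] 2 0 2 0 0 (sgb true) (sgb false) x := by
  have X : XR 67108864 x := XR.of hx hx' (by norm_num) (by norm_num) (by norm_num) (by norm_num)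
  have hen : 0 < eng.v x := en_pos X.x0.le
  refine CornW.altB (C := cB202E) (j := (0 : Fin 9)) (k := (0 : Fin 9)) (Ef := esg) (pd := pd) (o := 3 / 40)
    (cornW_of (C := cB202E) (C0 := c0B) (En := eng) (mo := mog) (j := (0 : Fin 9)) (k := (0 : Fin 9)) (lo := 0) (hi := 4) (W := 67108864) (N0 := 3) cB202E_q (sideB hx hx') gokB (pinU hx hx') dokB X (by norm_num) (by norm_num) (l := (0 : Fin 9)) rfl
      (gatB02 x) (gatB02 x) (gatB00 x) (datB02 x) (datB02 x) (datB00 x) ?_)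
    (cornS_of (C := cB202E) (C0 := c0B) (j := (0 : Fin 9)) (k := (0 : Fin 9)) (lo := 0) (hi := 4) (W := 67108864) (N0 := 3) cB202E_q (sideB hx hx') gokB X (by norm_num) (by norm_num) (l := (0 : Fin 9)) rfl
      (gatB02 x) (gatB02 x) (gatB00 x) ?_)
    (thU (pinU hx hx')) rfl hκ (fun j q y => tC_eq j q y x) (esg_rng X.x0.le (by linarith [X.b, X.p0])).1 (mo_v x) le_rfl le_rfl
  · intro ρ a B hρ hd i h1 h2
    fin_cases i
    · exact corW_cert (G1 := gB0q2) (G2 := gB0q2) (Ga := gB0q0) (Gb := gB1q0) (D1 := dB0q2) (D2 := dB0q2) (Da := dB0q0) (Db := dB1q0) cB202E_ok B hρ hen (gatB02 x) (gatB02 x) (fun _ => gatB00 x) (fun _ => gatB10 x) (datB02 x) (datB02 x) (fun _ => datB00 x) (fun _ => datB10 x) hd hx hx' CW.B202E_000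
    · exact corW_cert (G1 := gB0q2) (G2 := gB0q2) (Ga := gB1q0) (Gb := gB2q0) (D1 := dB0q2) (D2 := dB0q2) (Da := dB1q0) (Db := dB2q0) cB202E_ok B hρ hen (gatB02 x) (gatB02 x) (fun _ => gatB10 x) (fun _ => gatB20 x) (datB02 x) (datB02 x) (fun _ => datB10 x) (fun _ => datB20 x) hd hx hx' CW.B202E_001
    · exact corW_cert (G1 := gB0q2) (G2 := gB0q2) (Ga := gB2q0) (Gb := gB3q0) (D1 := dB0q2) (D2 := dB0q2) (Da := dB2q0) (Db := dB3q0) cB202E_ok B hρ hen (gatB02 x) (gatB02 x) (fun _ => gatB20 x) (fun _ => gatB30 x) (datB02 x) (datB02 x) (fun _ => datB20 x) (fun _ => datB30 x) hd hx hx' CW.B202E_002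
    · exact corW_cert (G1 := gB0q2) (G2 := gB0q2) (Ga := gB3q0) (Gb := gB4q0) (D1 := dB0q2) (D2 := dB0q2) (Da := dB3q0) (Db := dB4q0) cB202E_ok B hρ hen (gatB02 x) (gatB02 x) (fun _ => gatB30 x) (fun _ => gatB40 x) (datB02 x) (datB02 x) (fun _ => datB30 x) (fun _ => datB40 x) hd hx hx' CW.B202E_003
    · exact corW_cert (G1 := gB0q2) (G2 := gB0q2) (Ga := gB4q0) (Gb := gB5q0) (D1 := dB0q2) (D2 := dB0q2) (Da := dB4q0) (Db := dB5q0) cB202E_ok B hρ hen (gatB02 x) (gatB02 x) (fun _ => gatB40 x) (fun h => absurd h (by decide)) (datB02 x) (datB02 x) (fun _ => datB40 x) (fun h => absurd h (by decide)) hd hx hx' CW.B202E_004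
    · exact absurd h2 (by norm_num)
    · exact absurd h2 (by norm_num)
    · exact absurd h2 (by norm_num)
  · intro ρ a B hρ hd i h1 h2
    fin_cases i
    · exact corT_cert (G1 := gB0q2) (G2 := gB0q2) (Ga := gB0q0) (Gb := gB1q0) cB202E_ok B hρ (gatB02 x) (gatB02 x) (fun _ => gatB00 x) (fun _ => gatB10 x) hd hx hx' CG.B202E_000
    · exact corT_cert (G1 := gB0q2) (G2 := gB0q2) (Ga := gB1q0) (Gb := gB2q0) cB202E_ok B hρ (gatB02 x) (gatB02 x) (fun _ => gatB10 x) (fun _ => gatB20 x) hd hx hx' CG.B202E_001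
    · exact corT_cert (G1 := gB0q2) (G2 := gB0q2) (Ga := gB2q0) (Gb := gB3q0) cB202E_ok B hρ (gatB02 x) (gatB02 x) (fun _ => gatB20 x) (fun _ => gatB30 x) hd hx hx' CG.B202E_002
    · exact corT_cert (G1 := gB0q2) (G2 := gB0q2) (Ga := gB3q0) (Gb := gB4q0) cB202E_ok B hρ (gatB02 x) (gatB02 x) (fun _ => gatB30 x) (fun _ => gatB40 x) hd hx hx' CG.B202E_003
    · exact corT_cert (G1 := gB0q2) (G2 := gB0q2) (Ga := gB4q0) (Gb := gB5q0) cB202E_ok B hρ (gatB02 x) (gatB02 x) (fun _ => gatB40 x) (fun h => absurd h (by decide)) hd hx hx' CG.B202E_004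
    · exact absurd h2 (by norm_num)
    · exact absurd h2 (by norm_num)
    · exact absurd h2 (by norm_num)

theorem altB_B202E_01 {κ x : ℝ} (hκ : κ * h0 = ken x) (hx : ((649613803 : ℕ) : ℝ) / S ≤ x) (hx' : x ≤ (((649613803 : ℕ) : ℝ) + (48318383 : ℕ)) / S) :
    AltEB 3 κ (eng.v x) (3 / 40) (tnt (h0 * x) (3 / 10)) PP tK tL tC pcB (scP esg pd) [⟨0, 1, 0, 67108864⟩, ⟨1, 0, 0, 67108864⟩, ⟨2, 1, 0, 67108864⟩] 2 0 2 0 1 (sgb true) (sgb false) x := by
  have X : XR 67108864 x := XR.of hx hx' (by norm_num) (by norm_num) (by norm_num) (by norm_num)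
  have hen : 0 < eng.v x := en_pos X.x0.le
  refine CornW.altB (C := cB202E) (j := (0 : Fin 9)) (k := (1 : Fin 9)) (Ef := esg) (pd := pd) (o := 3 / 40)
    (cornW_of (C := cB202E) (C0 := c0B) (En := eng) (mo := mog) (j := (0 : Fin 9)) (k := (1 : Fin 9)) (lo := 0) (hi := 4) (W := 67108864) (N0 := 3) cB202E_q (sideB hx hx') gokB (pinU hx hx') dokB X (by norm_num) (by norm_num) (l := (0 : Fin 9)) rfl
      (gatB02 x) (gatB12 x) (gatB00 x) (datB02 x) (datB12 x) (datB00 x) ?_)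
    (cornS_of (C := cB202E) (C0 := c0B) (j := (0 : Fin 9)) (k := (1 : Fin 9)) (lo := 0) (hi := 4) (W := 67108864) (N0 := 3) cB202E_q (sideB hx hx') gokB X (by norm_num) (by norm_num) (l := (0 : Fin 9)) rfl
      (gatB02 x) (gatB12 x) (gatB00 x) ?_)
    (thU (pinU hx hx')) rfl hκ (fun j q y => tC_eq j q y x) (esg_rng X.x0.le (by linarith [X.b, X.p0])).1 (mo_v x) le_rfl le_rfl
  · intro ρ a B hρ hd i h1 h2
    fin_cases i
    · exact corW_cert (G1 := gB0q2) (G2 := gB1q2) (Ga := gB0q0) (Gb := gB1q0) (D1 := dB0q2) (D2 := dB1q2) (Da := dB0q0) (Db := dB1q0) cB202E_ok B hρ hen (gatB02 x) (gatB12 x) (fun _ => gatB00 x) (fun _ => gatB10 x) (datB02 x) (datB12 x) (fun _ => datB00 x) (fun _ => datB10 x) hd hx hx' CW.B202E_010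
    · exact corW_cert (G1 := gB0q2) (G2 := gB1q2) (Ga := gB1q0) (Gb := gB2q0) (D1 := dB0q2) (D2 := dB1q2) (Da := dB1q0) (Db := dB2q0) cB202E_ok B hρ hen (gatB02 x) (gatB12 x) (fun _ => gatB10 x) (fun _ => gatB20 x) (datB02 x) (datB12 x) (fun _ => datB10 x) (fun _ => datB20 x) hd hx hx' CW.B202E_011
    · exact corW_cert (G1 := gB0q2) (G2 := gB1q2) (Ga := gB2q0) (Gb := gB3q0) (D1 := dB0q2) (D2 := dB1q2) (Da := dB2q0) (Db := dB3q0) cB202E_ok B hρ hen (gatB02 x) (gatB12 x) (fun _ => gatB20 x) (fun _ => gatB30 x) (datB02 x) (datB12 x) (fun _ => datB20 x) (fun _ => datB30 x) hd hx hx' CW.B202E_012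
    · exact corW_cert (G1 := gB0q2) (G2 := gB1q2) (Ga := gB3q0) (Gb := gB4q0) (D1 := dB0q2) (D2 := dB1q2) (Da := dB3q0) (Db := dB4q0) cB202E_ok B hρ hen (gatB02 x) (gatB12 x) (fun _ => gatB30 x) (fun _ => gatB40 x) (datB02 x) (datB12 x) (fun _ => datB30 x) (fun _ => datB40 x) hd hx hx' CW.B202E_013
    · exact corW_cert (G1 := gB0q2) (G2 := gB1q2) (Ga := gB4q0) (Gb := gB5q0) (D1 := dB0q2) (D2 := dB1q2) (Da := dB4q0) (Db := dB5q0) cB202E_ok B hρ hen (gatB02 x) (gatB12 x) (fun _ => gatB40 x) (fun h => absurd h (by decide)) (datB02 x) (datB12 x) (fun _ => datB40 x) (fun h => absurd h (by decide)) hd hx hx' CW.B202E_014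
    · exact absurd h2 (by norm_num)
    · exact absurd h2 (by norm_num)
    · exact absurd h2 (by norm_num)
  · intro ρ a B hρ hd i h1 h2
    fin_cases i
    · exact corT_cert (G1 := gB0q2) (G2 := gB1q2) (Ga := gB0q0) (Gb := gB1q0) cB202E_ok B hρ (gatB02 x) (gatB12 x) (fun _ => gatB00 x) (fun _ => gatB10 x) hd hx hx' CG.B202E_010
    · exact corT_cert (G1 := gB0q2) (G2 := gB1q2) (Ga := gB1q0) (Gb := gB2q0) cB202E_ok B hρ (gatB02 x) (gatB12 x) (fun _ => gatB10 x) (fun _ => gatB20 x) hd hx hx' CG.B202E_011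
    · exact corT_cert (G1 := gB0q2) (G2 := gB1q2) (Ga := gB2q0) (Gb := gB3q0) cB202E_ok B hρ (gatB02 x) (gatB12 x) (fun _ => gatB20 x) (fun _ => gatB30 x) hd hx hx' CG.B202E_012
    · exact corT_cert (G1 := gB0q2) (G2 := gB1q2) (Ga := gB3q0) (Gb := gB4q0) cB202E_ok B hρ (gatB02 x) (gatB12 x) (fun _ => gatB30 x) (fun _ => gatB40 x) hd hx hx' CG.B202E_013
    · exact corT_cert (G1 := gB0q2) (G2 := gB1q2) (Ga := gB4q0) (Gb := gB5q0) cB202E_ok B hρ (gatB02 x) (gatB12 x) (fun _ => gatB40 x) (fun h => absurd h (by decide)) hd hx hx' CG.B202E_014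
    · exact absurd h2 (by norm_num)
    · exact absurd h2 (by norm_num)
    · exact absurd h2 (by norm_num)

theorem altB_B202E_02 {κ x : ℝ} (hκ : κ * h0 = ken x) (hx : ((649613803 : ℕ) : ℝ) / S ≤ x) (hx' : x ≤ (((649613803 : ℕ) : ℝ) + (48318383 : ℕ)) / S) :
    AltEB 3 κ (eng.v x) (3 / 40) (tnt (h0 * x) (3 / 10)) PP tK tL tC pcB (scP esg pd) [⟨0, 1, 0, 67108864⟩, ⟨1, 0, 0, 67108864⟩, ⟨2, 1, 0, 67108864⟩] 2 0 2 0 2 (sgb true) (sgb false) x := by
  have X : XR 67108864 x := XR.of hx hx' (by norm_num) (by norm_num) (by norm_num) (by norm_num)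
  have hen : 0 < eng.v x := en_pos X.x0.le
  refine CornW.altB (C := cB202E) (j := (0 : Fin 9)) (k := (2 : Fin 9)) (Ef := esg) (pd := pd) (o := 3 / 40)
    (cornW_of (C := cB202E) (C0 := c0B) (En := eng) (mo := mog) (j := (0 : Fin 9)) (k := (2 : Fin 9)) (lo := 0) (hi := 4) (W := 67108864) (N0 := 3) cB202E_q (sideB hx hx') gokB (pinU hx hx') dokB X (by norm_num) (by norm_num) (l := (0 : Fin 9)) rfl
      (gatB02 x) (gatB22 x) (gatB00 x) (datB02 x) (datB22 x) (datB00 x) ?_)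
    (cornS_of (C := cB202E) (C0 := c0B) (j := (0 : Fin 9)) (k := (2 : Fin 9)) (lo := 0) (hi := 4) (W := 67108864) (N0 := 3) cB202E_q (sideB hx hx') gokB X (by norm_num) (by norm_num) (l := (0 : Fin 9)) rfl
      (gatB02 x) (gatB22 x) (gatB00 x) ?_)
    (thU (pinU hx hx')) rfl hκ (fun j q y => tC_eq j q y x) (esg_rng X.x0.le (by linarith [X.b, X.p0])).1 (mo_v x) le_rfl le_rfl
  · intro ρ a B hρ hd i h1 h2
    fin_cases i
    · exact corW_cert (G1 := gB0q2) (G2 := gB2q2) (Ga := gB0q0) (Gb := gB1q0) (D1 := dB0q2) (D2 := dB2q2) (Da := dB0q0) (Db := dB1q0) cB202E_ok B hρ hen (gatB02 x) (gatB22 x) (fun _ => gatB00 x) (fun _ => gatB10 x) (datB02 x) (datB22 x) (fun _ => datB00 x) (fun _ => datB10 x) hd hx hx' CW.B202E_020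
    · exact corW_cert (G1 := gB0q2) (G2 := gB2q2) (Ga := gB1q0) (Gb := gB2q0) (D1 := dB0q2) (D2 := dB2q2) (Da := dB1q0) (Db := dB2q0) cB202E_ok B hρ hen (gatB02 x) (gatB22 x) (fun _ => gatB10 x) (fun _ => gatB20 x) (datB02 x) (datB22 x) (fun _ => datB10 x) (fun _ => datB20 x) hd hx hx' CW.B202E_021
    · exact corW_cert (G1 := gB0q2) (G2 := gB2q2) (Ga := gB2q0) (Gb := gB3q0) (D1 := dB0q2) (D2 := dB2q2) (Da := dB2q0) (Db := dB3q0) cB202E_ok B hρ hen (gatB02 x) (gatB22 x) (fun _ => gatB20 x) (fun _ => gatB30 x) (datB02 x) (datB22 x) (fun _ => datB20 x) (fun _ => datB30 x) hd hx hx' CW.B202E_022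
    · exact corW_cert (G1 := gB0q2) (G2 := gB2q2) (Ga := gB3q0) (Gb := gB4q0) (D1 := dB0q2) (D2 := dB2q2) (Da := dB3q0) (Db := dB4q0) cB202E_ok B hρ hen (gatB02 x) (gatB22 x) (fun _ => gatB30 x) (fun _ => gatB40 x) (datB02 x) (datB22 x) (fun _ => datB30 x) (fun _ => datB40 x) hd hx hx' CW.B202E_023
    · exact corW_cert (G1 := gB0q2) (G2 := gB2q2) (Ga := gB4q0) (Gb := gB5q0) (D1 := dB0q2) (D2 := dB2q2) (Da := dB4q0) (Db := dB5q0) cB202E_ok B hρ hen (gatB02 x) (gatB22 x) (fun _ => gatB40 x) (fun h => absurd h (by decide)) (datB02 x) (datB22 x) (fun _ => datB40 x) (fun h => absurd h (by decide)) hd hx hx' CW.B202E_024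
    · exact absurd h2 (by norm_num)
    · exact absurd h2 (by norm_num)
    · exact absurd h2 (by norm_num)
  · intro ρ a B hρ hd i h1 h2
    fin_cases i
    · exact corT_cert (G1 := gB0q2) (G2 := gB2q2) (Ga := gB0q0) (Gb := gB1q0) cB202E_ok B hρ (gatB02 x) (gatB22 x) (fun _ => gatB00 x) (fun _ => gatB10 x) hd hx hx' CG.B202E_020
    · exact corT_cert (G1 := gB0q2) (G2 := gB2q2) (Ga := gB1q0) (Gb := gB2q0) cB202E_ok B hρ (gatB02 x) (gatB22 x) (fun _ => gatB10 x) (fun _ => gatB20 x) hd hx hx' CG.B202E_021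
    · exact corT_cert (G1 := gB0q2) (G2 := gB2q2) (Ga := gB2q0) (Gb := gB3q0) cB202E_ok B hρ (gatB02 x) (gatB22 x) (fun _ => gatB20 x) (fun _ => gatB30 x) hd hx hx' CG.B202E_022
    · exact corT_cert (G1 := gB0q2) (G2 := gB2q2) (Ga := gB3q0) (Gb := gB4q0) cB202E_ok B hρ (gatB02 x) (gatB22 x) (fun _ => gatB30 x) (fun _ => gatB40 x) hd hx hx' CG.B202E_023
    · exact corT_cert (G1 := gB0q2) (G2 := gB2q2) (Ga := gB4q0) (Gb := gB5q0) cB202E_ok B hρ (gatB02 x) (gatB22 x) (fun _ => gatB40 x) (fun h => absurd h (by decide)) hd hx hx' CG.B202E_024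
    · exact absurd h2 (by norm_num)
    · exact absurd h2 (by norm_num)
    · exact absurd h2 (by norm_num)

theorem altB_B202E_03 {κ x : ℝ} (hκ : κ * h0 = ken x) (hx : ((649613803 : ℕ) : ℝ) / S ≤ x) (hx' : x ≤ (((649613803 : ℕ) : ℝ) + (48318383 : ℕ)) / S) :
    AltEB 3 κ (eng.v x) (3 / 40) (tnt (h0 * x) (3 / 10)) PP tK tL tC pcB (scP esg pd) [⟨0, 1, 0, 67108864⟩, ⟨1, 0, 0, 67108864⟩, ⟨2, 1, 0, 67108864⟩] 2 0 2 0 3 (sgb true) (sgb false) x := by
  have X : XR 67108864 x := XR.of hx hx' (by norm_num) (by norm_num) (by norm_num) (by norm_num)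
  have hen : 0 < eng.v x := en_pos X.x0.le
  refine CornW.altB (C := cB202E) (j := (0 : Fin 9)) (k := (3 : Fin 9)) (Ef := esg) (pd := pd) (o := 3 / 40)
    (cornW_of (C := cB202E) (C0 := c0B) (En := eng) (mo := mog) (j := (0 : Fin 9)) (k := (3 : Fin 9)) (lo := 0) (hi := 4) (W := 67108864) (N0 := 3) cB202E_q (sideB hx hx') gokB (pinU hx hx') dokB X (by norm_num) (by norm_num) (l := (0 : Fin 9)) rfl
      (gatB02 x) (gatB32 x) (gatB00 x) (datB02 x) (datB32 x) (datB00 x) ?_)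
    (cornS_of (C := cB202E) (C0 := c0B) (j := (0 : Fin 9)) (k := (3 : Fin 9)) (lo := 0) (hi := 4) (W := 67108864) (N0 := 3) cB202E_q (sideB hx hx') gokB X (by norm_num) (by norm_num) (l := (0 : Fin 9)) rfl
      (gatB02 x) (gatB32 x) (gatB00 x) ?_)
    (thU (pinU hx hx')) rfl hκ (fun j q y => tC_eq j q y x) (esg_rng X.x0.le (by linarith [X.b, X.p0])).1 (mo_v x) le_rfl le_rfl
  · intro ρ a B hρ hd i h1 h2
    fin_cases i
    · exact corW_cert (G1 := gB0q2) (G2 := gB3q2) (Ga := gB0q0) (Gb := gB1q0) (D1 := dB0q2) (D2 := dB3q2) (Da := dB0q0) (Db := dB1q0) cB202E_ok B hρ hen (gatB02 x) (gatB32 x) (fun _ => gatB00 x) (fun _ => gatB10 x) (datB02 x) (datB32 x) (fun _ => datB00 x) (fun _ => datB10 x) hd hx hx' CW.B202E_030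
    · exact corW_cert (G1 := gB0q2) (G2 := gB3q2) (Ga := gB1q0) (Gb := gB2q0) (D1 := dB0q2) (D2 := dB3q2) (Da := dB1q0) (Db := dB2q0) cB202E_ok B hρ hen (gatB02 x) (gatB32 x) (fun _ => gatB10 x) (fun _ => gatB20 x) (datB02 x) (datB32 x) (fun _ => datB10 x) (fun _ => datB20 x) hd hx hx' CW.B202E_031
    · exact corW_cert (G1 := gB0q2) (G2 := gB3q2) (Ga := gB2q0) (Gb := gB3q0) (D1 := dB0q2) (D2 := dB3q2) (Da := dB2q0) (Db := dB3q0) cB202E_ok B hρ hen (gatB02 x) (gatB32 x) (fun _ => gatB20 x) (fun _ => gatB30 x) (datB02 x) (datB32 x) (fun _ => datB20 x) (fun _ => datB30 x) hd hx hx' CW.B202E_032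
    · exact corW_cert (G1 := gB0q2) (G2 := gB3q2) (Ga := gB3q0) (Gb := gB4q0) (D1 := dB0q2) (D2 := dB3q2) (Da := dB3q0) (Db := dB4q0) cB202E_ok B hρ hen (gatB02 x) (gatB32 x) (fun _ => gatB30 x) (fun _ => gatB40 x) (datB02 x) (datB32 x) (fun _ => datB30 x) (fun _ => datB40 x) hd hx hx' CW.B202E_033
    · exact corW_cert (G1 := gB0q2) (G2 := gB3q2) (Ga := gB4q0) (Gb := gB5q0) (D1 := dB0q2) (D2 := dB3q2) (Da := dB4q0) (Db := dB5q0) cB202E_ok B hρ hen (gatB02 x) (gatB32 x) (fun _ => gatB40 x) (fun h => absurd h (by decide)) (datB02 x) (datB32 x) (fun _ => datB40 x) (fun h => absurd h (by decide)) hd hx hx' CW.B202E_034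
    · exact absurd h2 (by norm_num)
    · exact absurd h2 (by norm_num)
    · exact absurd h2 (by norm_num)
  · intro ρ a B hρ hd i h1 h2
    fin_cases i
    · exact corT_cert (G1 := gB0q2) (G2 := gB3q2) (Ga := gB0q0) (Gb := gB1q0) cB202E_ok B hρ (gatB02 x) (gatB32 x) (fun _ => gatB00 x) (fun _ => gatB10 x) hd hx hx' CG.B202E_030
    · exact corT_cert (G1 := gB0q2) (G2 := gB3q2) (Ga := gB1q0) (Gb := gB2q0) cB202E_ok B hρ (gatB02 x) (gatB32 x) (fun _ => gatB10 x) (fun _ => gatB20 x) hd hx hx' CG.B202E_031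
    · exact corT_cert (G1 := gB0q2) (G2 := gB3q2) (Ga := gB2q0) (Gb := gB3q0) cB202E_ok B hρ (gatB02 x) (gatB32 x) (fun _ => gatB20 x) (fun _ => gatB30 x) hd hx hx' CG.B202E_032
    · exact corT_cert (G1 := gB0q2) (G2 := gB3q2) (Ga := gB3q0) (Gb := gB4q0) cB202E_ok B hρ (gatB02 x) (gatB32 x) (fun _ => gatB30 x) (fun _ => gatB40 x) hd hx hx' CG.B202E_033
    · exact corT_cert (G1 := gB0q2) (G2 := gB3q2) (Ga := gB4q0) (Gb := gB5q0) cB202E_ok B hρ (gatB02 x) (gatB32 x) (fun _ => gatB40 x) (fun h => absurd h (by decide)) hd hx hx' CG.B202E_034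
    · exact absurd h2 (by norm_num)
    · exact absurd h2 (by norm_num)
    · exact absurd h2 (by norm_num)

theorem altB_B202E_04 {κ x : ℝ} (hκ : κ * h0 = ken x) (hx : ((649613803 : ℕ) : ℝ) / S ≤ x) (hx' : x ≤ (((649613803 : ℕ) : ℝ) + (48318383 : ℕ)) / S) :
    AltEB 3 κ (eng.v x) (3 / 40) (tnt (h0 * x) (3 / 10)) PP tK tL tC pcB (scP esg pd) [⟨0, 1, 0, 67108864⟩, ⟨1, 0, 0, 67108864⟩, ⟨2, 1, 0, 67108864⟩] 2 0 2 0 4 (sgb true) (sgb false) x := by
  have X : XR 67108864 x := XR.of hx hx' (by norm_num) (by norm_num) (by norm_num) (by norm_num)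
  have hen : 0 < eng.v x := en_pos X.x0.le
  refine CornW.altB (C := cB202E) (j := (0 : Fin 9)) (k := (4 : Fin 9)) (Ef := esg) (pd := pd) (o := 3 / 40)
    (cornW_of (C := cB202E) (C0 := c0B) (En := eng) (mo := mog) (j := (0 : Fin 9)) (k := (4 : Fin 9)) (lo := 0) (hi := 4) (W := 67108864) (N0 := 3) cB202E_q (sideB hx hx') gokB (pinU hx hx') dokB X (by norm_num) (by norm_num) (l := (0 : Fin 9)) rfl
      (gatB02 x) (gatB42 x) (gatB00 x) (datB02 x) (datB42 x) (datB00 x) ?_)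
    (cornS_of (C := cB202E) (C0 := c0B) (j := (0 : Fin 9)) (k := (4 : Fin 9)) (lo := 0) (hi := 4) (W := 67108864) (N0 := 3) cB202E_q (sideB hx hx') gokB X (by norm_num) (by norm_num) (l := (0 : Fin 9)) rfl
      (gatB02 x) (gatB42 x) (gatB00 x) ?_)
    (thU (pinU hx hx')) rfl hκ (fun j q y => tC_eq j q y x) (esg_rng X.x0.le (by linarith [X.b, X.p0])).1 (mo_v x) le_rfl le_rfl
  · intro ρ a B hρ hd i h1 h2
    fin_cases i
    · exact corW_cert (G1 := gB0q2) (G2 := gB4q2) (Ga := gB0q0) (Gb := gB1q0) (D1 := dB0q2) (D2 := dB4q2) (Da := dB0q0) (Db := dB1q0) cB202E_ok B hρ hen (gatB02 x) (gatB42 x) (fun _ => gatB00 x) (fun _ => gatB10 x) (datB02 x) (datB42 x) (fun _ => datB00 x) (fun _ => datB10 x) hd hx hx' CW.B202E_040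
    · exact corW_cert (G1 := gB0q2) (G2 := gB4q2) (Ga := gB1q0) (Gb := gB2q0) (D1 := dB0q2) (D2 := dB4q2) (Da := dB1q0) (Db := dB2q0) cB202E_ok B hρ hen (gatB02 x) (gatB42 x) (fun _ => gatB10 x) (fun _ => gatB20 x) (datB02 x) (datB42 x) (fun _ => datB10 x) (fun _ => datB20 x) hd hx hx' CW.B202E_041
    · exact corW_cert (G1 := gB0q2) (G2 := gB4q2) (Ga := gB2q0) (Gb := gB3q0) (D1 := dB0q2) (D2 := dB4q2) (Da := dB2q0) (Db := dB3q0) cB202E_ok B hρ hen (gatB02 x) (gatB42 x) (fun _ => gatB20 x) (fun _ => gatB30 x) (datB02 x) (datB42 x) (fun _ => datB20 x) (fun _ => datB30 x) hd hx hx' CW.B202E_042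
    · exact corW_cert (G1 := gB0q2) (G2 := gB4q2) (Ga := gB3q0) (Gb := gB4q0) (D1 := dB0q2) (D2 := dB4q2) (Da := dB3q0) (Db := dB4q0) cB202E_ok B hρ hen (gatB02 x) (gatB42 x) (fun _ => gatB30 x) (fun _ => gatB40 x) (datB02 x) (datB42 x) (fun _ => datB30 x) (fun _ => datB40 x) hd hx hx' CW.B202E_043
    · exact corW_cert (G1 := gB0q2) (G2 := gB4q2) (Ga := gB4q0) (Gb := gB5q0) (D1 := dB0q2) (D2 := dB4q2) (Da := dB4q0) (Db := dB5q0) cB202E_ok B hρ hen (gatB02 x) (gatB42 x) (fun _ => gatB40 x) (fun h => absurd h (by decide)) (datB02 x) (datB42 x) (fun _ => datB40 x) (fun h => absurd h (by decide)) hd hx hx' CW.B202E_044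
    · exact absurd h2 (by norm_num)
    · exact absurd h2 (by norm_num)
    · exact absurd h2 (by norm_num)
  · intro ρ a B hρ hd i h1 h2
    fin_cases i
    · exact corT_cert (G1 := gB0q2) (G2 := gB4q2) (Ga := gB0q0) (Gb := gB1q0) cB202E_ok B hρ (gatB02 x) (gatB42 x) (fun _ => gatB00 x) (fun _ => gatB10 x) hd hx hx' CG.B202E_040
    · exact corT_cert (G1 := gB0q2) (G2 := gB4q2) (Ga := gB1q0) (Gb := gB2q0) cB202E_ok B hρ (gatB02 x) (gatB42 x) (fun _ => gatB10 x) (fun _ => gatB20 x) hd hx hx' CG.B202E_041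
    · exact corT_cert (G1 := gB0q2) (G2 := gB4q2) (Ga := gB2q0) (Gb := gB3q0) cB202E_ok B hρ (gatB02 x) (gatB42 x) (fun _ => gatB20 x) (fun _ => gatB30 x) hd hx hx' CG.B202E_042
    · exact corT_cert (G1 := gB0q2) (G2 := gB4q2) (Ga := gB3q0) (Gb := gB4q0) cB202E_ok B hρ (gatB02 x) (gatB42 x) (fun _ => gatB30 x) (fun _ => gatB40 x) hd hx hx' CG.B202E_043
    · exact corT_cert (G1 := gB0q2) (G2 := gB4q2) (Ga := gB4q0) (Gb := gB5q0) cB202E_ok B hρ (gatB02 x) (gatB42 x) (fun _ => gatB40 x) (fun h => absurd h (by decide)) hd hx hx' CG.B202E_044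
    · exact absurd h2 (by norm_num)
    · exact absurd h2 (by norm_num)
    · exact absurd h2 (by norm_num)

theorem altB_B202E_10 {κ x : ℝ} (hκ : κ * h0 = ken x) (hx : ((649613803 : ℕ) : ℝ) / S ≤ x) (hx' : x ≤ (((649613803 : ℕ) : ℝ) + (48318383 : ℕ)) / S) :
    AltEB 3 κ (eng.v x) (3 / 40) (tnt (h0 * x) (3 / 10)) PP tK tL tC pcB (scP esg pd) [⟨0, 1, 0, 67108864⟩, ⟨1, 0, 0, 67108864⟩, ⟨2, 1, 0, 67108864⟩] 2 0 2 1 0 (sgb true) (sgb false) x := by
  have X : XR 67108864 x := XR.of hx hx' (by norm_num) (by norm_num) (by norm_num) (by norm_num)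
  have hen : 0 < eng.v x := en_pos X.x0.le
  refine CornW.altB (C := cB202E) (j := (1 : Fin 9)) (k := (0 : Fin 9)) (Ef := esg) (pd := pd) (o := 3 / 40)
    (cornW_of (C := cB202E) (C0 := c0B) (En := eng) (mo := mog) (j := (1 : Fin 9)) (k := (0 : Fin 9)) (lo := 0) (hi := 4) (W := 67108864) (N0 := 3) cB202E_q (sideB hx hx') gokB (pinU hx hx') dokB X (by norm_num) (by norm_num) (l := (0 : Fin 9)) rfl
      (gatB12 x) (gatB02 x) (gatB00 x) (datB12 x) (datB02 x) (datB00 x) ?_)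
    (cornS_of (C := cB202E) (C0 := c0B) (j := (1 : Fin 9)) (k := (0 : Fin 9)) (lo := 0) (hi := 4) (W := 67108864) (N0 := 3) cB202E_q (sideB hx hx') gokB X (by norm_num) (by norm_num) (l := (0 : Fin 9)) rfl
      (gatB12 x) (gatB02 x) (gatB00 x) ?_)
    (thU (pinU hx hx')) rfl hκ (fun j q y => tC_eq j q y x) (esg_rng X.x0.le (by linarith [X.b, X.p0])).1 (mo_v x) le_rfl le_rfl
  · intro ρ a B hρ hd i h1 h2
    fin_cases i
    · exact corW_cert (G1 := gB1q2) (G2 := gB0q2) (Ga := gB0q0) (Gb := gB1q0) (D1 := dB1q2) (D2 := dB0q2) (Da := dB0q0) (Db := dB1q0) cB202E_ok B hρ hen (gatB12 x) (gatB02 x) (fun _ => gatB00 x) (fun _ => gatB10 x) (datB12 x) (datB02 x) (fun _ => datB00 x) (fun _ => datB10 x) hd hx hx' CW.B202E_100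
    · exact corW_cert (G1 := gB1q2) (G2 := gB0q2) (Ga := gB1q0) (Gb := gB2q0) (D1 := dB1q2) (D2 := dB0q2) (Da := dB1q0) (Db := dB2q0) cB202E_ok B hρ hen (gatB12 x) (gatB02 x) (fun _ => gatB10 x) (fun _ => gatB20 x) (datB12 x) (datB02 x) (fun _ => datB10 x) (fun _ => datB20 x) hd hx hx' CW.B202E_101
    · exact corW_cert (G1 := gB1q2) (G2 := gB0q2) (Ga := gB2q0) (Gb := gB3q0) (D1 := dB1q2) (D2 := dB0q2) (Da := dB2q0) (Db := dB3q0) cB202E_ok B hρ hen (gatB12 x) (gatB02 x) (fun _ => gatB20 x) (fun _ => gatB30 x) (datB12 x) (datB02 x) (fun _ => datB20 x) (fun _ => datB30 x) hd hx hx' CW.B202E_102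
    · exact corW_cert (G1 := gB1q2) (G2 := gB0q2) (Ga := gB3q0) (Gb := gB4q0) (D1 := dB1q2) (D2 := dB0q2) (Da := dB3q0) (Db := dB4q0) cB202E_ok B hρ hen (gatB12 x) (gatB02 x) (fun _ => gatB30 x) (fun _ => gatB40 x) (datB12 x) (datB02 x) (fun _ => datB30 x) (fun _ => datB40 x) hd hx hx' CW.B202E_103
    · exact corW_cert (G1 := gB1q2) (G2 := gB0q2) (Ga := gB4q0) (Gb := gB5q0) (D1 := dB1q2) (D2 := dB0q2) (Da := dB4q0) (Db := dB5q0) cB202E_ok B hρ hen (gatB12 x) (gatB02 x) (fun _ => gatB40 x) (fun h => absurd h (by decide)) (datB12 x) (datB02 x) (fun _ => datB40 x) (fun h => absurd h (by decide)) hd hx hx' CW.B202E_104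
    · exact absurd h2 (by norm_num)
    · exact absurd h2 (by norm_num)
    · exact absurd h2 (by norm_num)
  · intro ρ a B hρ hd i h1 h2
    fin_cases i
    · exact corT_cert (G1 := gB1q2) (G2 := gB0q2) (Ga := gB0q0) (Gb := gB1q0) cB202E_ok B hρ (gatB12 x) (gatB02 x) (fun _ => gatB00 x) (fun _ => gatB10 x) hd hx hx' CG.B202E_100
    · exact corT_cert (G1 := gB1q2) (G2 := gB0q2) (Ga := gB1q0) (Gb := gB2q0) cB202E_ok B hρ (gatB12 x) (gatB02 x) (fun _ => gatB10 x) (fun _ => gatB20 x) hd hx hx' CG.B202E_101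
    · exact corT_cert (G1 := gB1q2) (G2 := gB0q2) (Ga := gB2q0) (Gb := gB3q0) cB202E_ok B hρ (gatB12 x) (gatB02 x) (fun _ => gatB20 x) (fun _ => gatB30 x) hd hx hx' CG.B202E_102
    · exact corT_cert (G1 := gB1q2) (G2 := gB0q2) (Ga := gB3q0) (Gb := gB4q0) cB202E_ok B hρ (gatB12 x) (gatB02 x) (fun _ => gatB30 x) (fun _ => gatB40 x) hd hx hx' CG.B202E_103
    · exact corT_cert (G1 := gB1q2) (G2 := gB0q2) (Ga := gB4q0) (Gb := gB5q0) cB202E_ok B hρ (gatB12 x) (gatB02 x) (fun _ => gatB40 x) (fun h => absurd h (by decide)) hd hx hx' CG.B202E_104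
    · exact absurd h2 (by norm_num)
    · exact absurd h2 (by norm_num)
    · exact absurd h2 (by norm_num)

theorem altB_B202E_11 {κ x : ℝ} (hκ : κ * h0 = ken x) (hx : ((649613803 : ℕ) : ℝ) / S ≤ x) (hx' : x ≤ (((649613803 : ℕ) : ℝ) + (48318383 : ℕ)) / S) :
    AltEB 3 κ (eng.v x) (3 / 40) (tnt (h0 * x) (3 / 10)) PP tK tL tC pcB (scP esg pd) [⟨0, 1, 0, 67108864⟩, ⟨1, 0, 0, 67108864⟩, ⟨2, 1, 0, 67108864⟩] 2 0 2 1 1 (sgb true) (sgb false) x := by
  have X : XR 67108864 x := XR.of hx hx' (by norm_num) (by norm_num) (by norm_num) (by norm_num)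
  have hen : 0 < eng.v x := en_pos X.x0.le
  refine CornW.altB (C := cB202E) (j := (1 : Fin 9)) (k := (1 : Fin 9)) (Ef := esg) (pd := pd) (o := 3 / 40)
    (cornW_of (C := cB202E) (C0 := c0B) (En := eng) (mo := mog) (j := (1 : Fin 9)) (k := (1 : Fin 9)) (lo := 0) (hi := 4) (W := 67108864) (N0 := 3) cB202E_q (sideB hx hx') gokB (pinU hx hx') dokB X (by norm_num) (by norm_num) (l := (0 : Fin 9)) rfl
      (gatB12 x) (gatB12 x) (gatB00 x) (datB12 x) (datB12 x) (datB00 x) ?_)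
    (cornS_of (C := cB202E) (C0 := c0B) (j := (1 : Fin 9)) (k := (1 : Fin 9)) (lo := 0) (hi := 4) (W := 67108864) (N0 := 3) cB202E_q (sideB hx hx') gokB X (by norm_num) (by norm_num) (l := (0 : Fin 9)) rfl
      (gatB12 x) (gatB12 x) (gatB00 x) ?_)
    (thU (pinU hx hx')) rfl hκ (fun j q y => tC_eq j q y x) (esg_rng X.x0.le (by linarith [X.b, X.p0])).1 (mo_v x) le_rfl le_rfl
  · intro ρ a B hρ hd i h1 h2
    fin_cases i
    · exact corW_cert (G1 := gB1q2) (G2 := gB1q2) (Ga := gB0q0) (Gb := gB1q0) (D1 := dB1q2) (D2 := dB1q2) (Da := dB0q0) (Db := dB1q0) cB202E_ok B hρ hen (gatB12 x) (gatB12 x) (fun _ => gatB00 x) (fun _ => gatB10 x) (datB12 x) (datB12 x) (fun _ => datB00 x) (fun _ => datB10 x) hd hx hx' CW.B202E_110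
    · exact corW_cert (G1 := gB1q2) (G2 := gB1q2) (Ga := gB1q0) (Gb := gB2q0) (D1 := dB1q2) (D2 := dB1q2) (Da := dB1q0) (Db := dB2q0) cB202E_ok B hρ hen (gatB12 x) (gatB12 x) (fun _ => gatB10 x) (fun _ => gatB20 x) (datB12 x) (datB12 x) (fun _ => datB10 x) (fun _ => datB20 x) hd hx hx' CW.B202E_111
    · exact corW_cert (G1 := gB1q2) (G2 := gB1q2) (Ga := gB2q0) (Gb := gB3q0) (D1 := dB1q2) (D2 := dB1q2) (Da := dB2q0) (Db := dB3q0) cB202E_ok B hρ hen (gatB12 x) (gatB12 x) (fun _ => gatB20 x) (fun _ => gatB30 x) (datB12 x) (datB12 x) (fun _ => datB20 x) (fun _ => datB30 x) hd hx hx' CW.B202E_112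
    · exact corW_cert (G1 := gB1q2) (G2 := gB1q2) (Ga := gB3q0) (Gb := gB4q0) (D1 := dB1q2) (D2 := dB1q2) (Da := dB3q0) (Db := dB4q0) cB202E_ok B hρ hen (gatB12 x) (gatB12 x) (fun _ => gatB30 x) (fun _ => gatB40 x) (datB12 x) (datB12 x) (fun _ => datB30 x) (fun _ => datB40 x) hd hx hx' CW.B202E_113
    · exact corW_cert (G1 := gB1q2) (G2 := gB1q2) (Ga := gB4q0) (Gb := gB5q0) (D1 := dB1q2) (D2 := dB1q2) (Da := dB4q0) (Db := dB5q0) cB202E_ok B hρ hen (gatB12 x) (gatB12 x) (fun _ => gatB40 x) (fun h => absurd h (by decide)) (datB12 x) (datB12 x) (fun _ => datB40 x) (fun h => absurd h (by decide)) hd hx hx' CW.B202E_114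
    · exact absurd h2 (by norm_num)
    · exact absurd h2 (by norm_num)
    · exact absurd h2 (by norm_num)
  · intro ρ a B hρ hd i h1 h2
    fin_cases i
    · exact corT_cert (G1 := gB1q2) (G2 := gB1q2) (Ga := gB0q0) (Gb := gB1q0) cB202E_ok B hρ (gatB12 x) (gatB12 x) (fun _ => gatB00 x) (fun _ => gatB10 x) hd hx hx' CG.B202E_110
    · exact corT_cert (G1 := gB1q2) (G2 := gB1q2) (Ga := gB1q0) (Gb := gB2q0) cB202E_ok B hρ (gatB12 x) (gatB12 x) (fun _ => gatB10 x) (fun _ => gatB20 x) hd hx hx' CG.B202E_111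
    · exact corT_cert (G1 := gB1q2) (G2 := gB1q2) (Ga := gB2q0) (Gb := gB3q0) cB202E_ok B hρ (gatB12 x) (gatB12 x) (fun _ => gatB20 x) (fun _ => gatB30 x) hd hx hx' CG.B202E_112
    · exact corT_cert (G1 := gB1q2) (G2 := gB1q2) (Ga := gB3q0) (Gb := gB4q0) cB202E_ok B hρ (gatB12 x) (gatB12 x) (fun _ => gatB30 x) (fun _ => gatB40 x) hd hx hx' CG.B202E_113
    · exact corT_cert (G1 := gB1q2) (G2 := gB1q2) (Ga := gB4q0) (Gb := gB5q0) cB202E_ok B hρ (gatB12 x) (gatB12 x) (fun _ => gatB40 x) (fun h => absurd h (by decide)) hd hx hx' CG.B202E_114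
    · exact absurd h2 (by norm_num)
    · exact absurd h2 (by norm_num)
    · exact absurd h2 (by norm_num)

theorem altB_B202E_12 {κ x : ℝ} (hκ : κ * h0 = ken x) (hx : ((649613803 : ℕ) : ℝ) / S ≤ x) (hx' : x ≤ (((649613803 : ℕ) : ℝ) + (48318383 : ℕ)) / S) :
    AltEB 3 κ (eng.v x) (3 / 40) (tnt (h0 * x) (3 / 10)) PP tK tL tC pcB (scP esg pd) [⟨0, 1, 0, 67108864⟩, ⟨1, 0, 0, 67108864⟩, ⟨2, 1, 0, 67108864⟩] 2 0 2 1 2 (sgb true) (sgb false) x := by
  have X : XR 67108864 x := XR.of hx hx' (by norm_num) (by norm_num) (by norm_num) (by norm_num)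
  have hen : 0 < eng.v x := en_pos X.x0.le
  refine CornW.altB (C := cB202E) (j := (1 : Fin 9)) (k := (2 : Fin 9)) (Ef := esg) (pd := pd) (o := 3 / 40)
    (cornW_of (C := cB202E) (C0 := c0B) (En := eng) (mo := mog) (j := (1 : Fin 9)) (k := (2 : Fin 9)) (lo := 0) (hi := 4) (W := 67108864) (N0 := 3) cB202E_q (sideB hx hx') gokB (pinU hx hx') dokB X (by norm_num) (by norm_num) (l := (0 : Fin 9)) rfl
      (gatB12 x) (gatB22 x) (gatB00 x) (datB12 x) (datB22 x) (datB00 x) ?_)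
    (cornS_of (C := cB202E) (C0 := c0B) (j := (1 : Fin 9)) (k := (2 : Fin 9)) (lo := 0) (hi := 4) (W := 67108864) (N0 := 3) cB202E_q (sideB hx hx') gokB X (by norm_num) (by norm_num) (l := (0 : Fin 9)) rfl
      (gatB12 x) (gatB22 x) (gatB00 x) ?_)
    (thU (pinU hx hx')) rfl hκ (fun j q y => tC_eq j q y x) (esg_rng X.x0.le (by linarith [X.b, X.p0])).1 (mo_v x) le_rfl le_rfl
  · intro ρ a B hρ hd i h1 h2
    fin_cases i
    · exact corW_cert (G1 := gB1q2) (G2 := gB2q2) (Ga := gB0q0) (Gb := gB1q0) (D1 := dB1q2) (D2 := dB2q2) (Da := dB0q0) (Db := dB1q0) cB202E_ok B hρ hen (gatB12 x) (gatB22 x) (fun _ => gatB00 x) (fun _ => gatB10 x) (datB12 x) (datB22 x) (fun _ => datB00 x) (fun _ => datB10 x) hd hx hx' CW.B202E_120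
    · exact corW_cert (G1 := gB1q2) (G2 := gB2q2) (Ga := gB1q0) (Gb := gB2q0) (D1 := dB1q2) (D2 := dB2q2) (Da := dB1q0) (Db := dB2q0) cB202E_ok B hρ hen (gatB12 x) (gatB22 x) (fun _ => gatB10 x) (fun _ => gatB20 x) (datB12 x) (datB22 x) (fun _ => datB10 x) (fun _ => datB20 x) hd hx hx' CW.B202E_121
    · exact corW_cert (G1 := gB1q2) (G2 := gB2q2) (Ga := gB2q0) (Gb := gB3q0) (D1 := dB1q2) (D2 := dB2q2) (Da := dB2q0) (Db := dB3q0) cB202E_ok B hρ hen (gatB12 x) (gatB22 x) (fun _ => gatB20 x) (fun _ => gatB30 x) (datB12 x) (datB22 x) (fun _ => datB20 x) (fun _ => datB30 x) hd hx hx' CW.B202E_122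
    · exact corW_cert (G1 := gB1q2) (G2 := gB2q2) (Ga := gB3q0) (Gb := gB4q0) (D1 := dB1q2) (D2 := dB2q2) (Da := dB3q0) (Db := dB4q0) cB202E_ok B hρ hen (gatB12 x) (gatB22 x) (fun _ => gatB30 x) (fun _ => gatB40 x) (datB12 x) (datB22 x) (fun _ => datB30 x) (fun _ => datB40 x) hd hx hx' CW.B202E_123
    · exact corW_cert (G1 := gB1q2) (G2 := gB2q2) (Ga := gB4q0) (Gb := gB5q0) (D1 := dB1q2) (D2 := dB2q2) (Da := dB4q0) (Db := dB5q0) cB202E_ok B hρ hen (gatB12 x) (gatB22 x) (fun _ => gatB40 x) (fun h => absurd h (by decide)) (datB12 x) (datB22 x) (fun _ => datB40 x) (fun h => absurd h (by decide)) hd hx hx' CW.B202E_124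
    · exact absurd h2 (by norm_num)
    · exact absurd h2 (by norm_num)
    · exact absurd h2 (by norm_num)
  · intro ρ a B hρ hd i h1 h2
    fin_cases i
    · exact corT_cert (G1 := gB1q2) (G2 := gB2q2) (Ga := gB0q0) (Gb := gB1q0) cB202E_ok B hρ (gatB12 x) (gatB22 x) (fun _ => gatB00 x) (fun _ => gatB10 x) hd hx hx' CG.B202E_120
    · exact corT_cert (G1 := gB1q2) (G2 := gB2q2) (Ga := gB1q0) (Gb := gB2q0) cB202E_ok B hρ (gatB12 x) (gatB22 x) (fun _ => gatB10 x) (fun _ => gatB20 x) hd hx hx' CG.B202E_121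
    · exact corT_cert (G1 := gB1q2) (G2 := gB2q2) (Ga := gB2q0) (Gb := gB3q0) cB202E_ok B hρ (gatB12 x) (gatB22 x) (fun _ => gatB20 x) (fun _ => gatB30 x) hd hx hx' CG.B202E_122
    · exact corT_cert (G1 := gB1q2) (G2 := gB2q2) (Ga := gB3q0) (Gb := gB4q0) cB202E_ok B hρ (gatB12 x) (gatB22 x) (fun _ => gatB30 x) (fun _ => gatB40 x) hd hx hx' CG.B202E_123
    · exact corT_cert (G1 := gB1q2) (G2 := gB2q2) (Ga := gB4q0) (Gb := gB5q0) cB202E_ok B hρ (gatB12 x) (gatB22 x) (fun _ => gatB40 x) (fun h => absurd h (by decide)) hd hx hx' CG.B202E_124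
    · exact absurd h2 (by norm_num)
    · exact absurd h2 (by norm_num)
    · exact absurd h2 (by norm_num)

theorem altB_B202E_13 {κ x : ℝ} (hκ : κ * h0 = ken x) (hx : ((649613803 : ℕ) : ℝ) / S ≤ x) (hx' : x ≤ (((649613803 : ℕ) : ℝ) + (48318383 : ℕ)) / S) :
    AltEB 3 κ (eng.v x) (3 / 40) (tnt (h0 * x) (3 / 10)) PP tK tL tC pcB (scP esg pd) [⟨0, 1, 0, 67108864⟩, ⟨1, 0, 0, 67108864⟩, ⟨2, 1, 0, 67108864⟩] 2 0 2 1 3 (sgb true) (sgb false) x := by
  have X : XR 67108864 x := XR.of hx hx' (by norm_num) (by norm_num) (by norm_num) (by norm_num)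
  have hen : 0 < eng.v x := en_pos X.x0.le
  refine CornW.altB (C := cB202E) (j := (1 : Fin 9)) (k := (3 : Fin 9)) (Ef := esg) (pd := pd) (o := 3 / 40)
    (cornW_of (C := cB202E) (C0 := c0B) (En := eng) (mo := mog) (j := (1 : Fin 9)) (k := (3 : Fin 9)) (lo := 0) (hi := 4) (W := 67108864) (N0 := 3) cB202E_q (sideB hx hx') gokB (pinU hx hx') dokB X (by norm_num) (by norm_num) (l := (0 : Fin 9)) rfl
      (gatB12 x) (gatB32 x) (gatB00 x) (datB12 x) (datB32 x) (datB00 x) ?_)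
    (cornS_of (C := cB202E) (C0 := c0B) (j := (1 : Fin 9)) (k := (3 : Fin 9)) (lo := 0) (hi := 4) (W := 67108864) (N0 := 3) cB202E_q (sideB hx hx') gokB X (by norm_num) (by norm_num) (l := (0 : Fin 9)) rfl
      (gatB12 x) (gatB32 x) (gatB00 x) ?_)
    (thU (pinU hx hx')) rfl hκ (fun j q y => tC_eq j q y x) (esg_rng X.x0.le (by linarith [X.b, X.p0])).1 (mo_v x) le_rfl le_rfl
  · intro ρ a B hρ hd i h1 h2
    fin_cases i
    · exact corW_cert (G1 := gB1q2) (G2 := gB3q2) (Ga := gB0q0) (Gb := gB1q0) (D1 := dB1q2) (D2 := dB3q2) (Da := dB0q0) (Db := dB1q0) cB202E_ok B hρ hen (gatB12 x) (gatB32 x) (fun _ => gatB00 x) (fun _ => gatB10 x) (datB12 x) (datB32 x) (fun _ => datB00 x) (fun _ => datB10 x) hd hx hx' CW.B202E_130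
    · exact corW_cert (G1 := gB1q2) (G2 := gB3q2) (Ga := gB1q0) (Gb := gB2q0) (D1 := dB1q2) (D2 := dB3q2) (Da := dB1q0) (Db := dB2q0) cB202E_ok B hρ hen (gatB12 x) (gatB32 x) (fun _ => gatB10 x) (fun _ => gatB20 x) (datB12 x) (datB32 x) (fun _ => datB10 x) (fun _ => datB20 x) hd hx hx' CW.B202E_131
    · exact corW_cert (G1 := gB1q2) (G2 := gB3q2) (Ga := gB2q0) (Gb := gB3q0) (D1 := dB1q2) (D2 := dB3q2) (Da := dB2q0) (Db := dB3q0) cB202E_ok B hρ hen (gatB12 x) (gatB32 x) (fun _ => gatB20 x) (fun _ => gatB30 x) (datB12 x) (datB32 x) (fun _ => datB20 x) (fun _ => datB30 x) hd hx hx' CW.B202E_132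
    · exact corW_cert (G1 := gB1q2) (G2 := gB3q2) (Ga := gB3q0) (Gb := gB4q0) (D1 := dB1q2) (D2 := dB3q2) (Da := dB3q0) (Db := dB4q0) cB202E_ok B hρ hen (gatB12 x) (gatB32 x) (fun _ => gatB30 x) (fun _ => gatB40 x) (datB12 x) (datB32 x) (fun _ => datB30 x) (fun _ => datB40 x) hd hx hx' CW.B202E_133
    · exact corW_cert (G1 := gB1q2) (G2 := gB3q2) (Ga := gB4q0) (Gb := gB5q0) (D1 := dB1q2) (D2 := dB3q2) (Da := dB4q0) (Db := dB5q0) cB202E_ok B hρ hen (gatB12 x) (gatB32 x) (fun _ => gatB40 x) (fun h => absurd h (by decide)) (datB12 x) (datB32 x) (fun _ => datB40 x) (fun h => absurd h (by decide)) hd hx hx' CW.B202E_134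
    · exact absurd h2 (by norm_num)
    · exact absurd h2 (by norm_num)
    · exact absurd h2 (by norm_num)
  · intro ρ a B hρ hd i h1 h2
    fin_cases i
    · exact corT_cert (G1 := gB1q2) (G2 := gB3q2) (Ga := gB0q0) (Gb := gB1q0) cB202E_ok B hρ (gatB12 x) (gatB32 x) (fun _ => gatB00 x) (fun _ => gatB10 x) hd hx hx' CG.B202E_130
    · exact corT_cert (G1 := gB1q2) (G2 := gB3q2) (Ga := gB1q0) (Gb := gB2q0) cB202E_ok B hρ (gatB12 x) (gatB32 x) (fun _ => gatB10 x) (fun _ => gatB20 x) hd hx hx' CG.B202E_131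
    · exact corT_cert (G1 := gB1q2) (G2 := gB3q2) (Ga := gB2q0) (Gb := gB3q0) cB202E_ok B hρ (gatB12 x) (gatB32 x) (fun _ => gatB20 x) (fun _ => gatB30 x) hd hx hx' CG.B202E_132
    · exact corT_cert (G1 := gB1q2) (G2 := gB3q2) (Ga := gB3q0) (Gb := gB4q0) cB202E_ok B hρ (gatB12 x) (gatB32 x) (fun _ => gatB30 x) (fun _ => gatB40 x) hd hx hx' CG.B202E_133
    · exact corT_cert (G1 := gB1q2) (G2 := gB3q2) (Ga := gB4q0) (Gb := gB5q0) cB202E_ok B hρ (gatB12 x) (gatB32 x) (fun _ => gatB40 x) (fun h => absurd h (by decide)) hd hx hx' CG.B202E_134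
    · exact absurd h2 (by norm_num)
    · exact absurd h2 (by norm_num)
    · exact absurd h2 (by norm_num)

theorem altB_B202E_14 {κ x : ℝ} (hκ : κ * h0 = ken x) (hx : ((649613803 : ℕ) : ℝ) / S ≤ x) (hx' : x ≤ (((649613803 : ℕ) : ℝ) + (48318383 : ℕ)) / S) :
    AltEB 3 κ (eng.v x) (3 / 40) (tnt (h0 * x) (3 / 10)) PP tK tL tC pcB (scP esg pd) [⟨0, 1, 0, 67108864⟩, ⟨1, 0, 0, 67108864⟩, ⟨2, 1, 0, 67108864⟩] 2 0 2 1 4 (sgb true) (sgb false) x := by
  have X : XR 67108864 x := XR.of hx hx' (by norm_num) (by norm_num) (by norm_num) (by norm_num)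
  have hen : 0 < eng.v x := en_pos X.x0.le
  refine CornW.altB (C := cB202E) (j := (1 : Fin 9)) (k := (4 : Fin 9)) (Ef := esg) (pd := pd) (o := 3 / 40)
    (cornW_of (C := cB202E) (C0 := c0B) (En := eng) (mo := mog) (j := (1 : Fin 9)) (k := (4 : Fin 9)) (lo := 0) (hi := 4) (W := 67108864) (N0 := 3) cB202E_q (sideB hx hx') gokB (pinU hx hx') dokB X (by norm_num) (by norm_num) (l := (0 : Fin 9)) rfl
      (gatB12 x) (gatB42 x) (gatB00 x) (datB12 x) (datB42 x) (datB00 x) ?_)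
    (cornS_of (C := cB202E) (C0 := c0B) (j := (1 : Fin 9)) (k := (4 : Fin 9)) (lo := 0) (hi := 4) (W := 67108864) (N0 := 3) cB202E_q (sideB hx hx') gokB X (by norm_num) (by norm_num) (l := (0 : Fin 9)) rfl
      (gatB12 x) (gatB42 x) (gatB00 x) ?_)
    (thU (pinU hx hx')) rfl hκ (fun j q y => tC_eq j q y x) (esg_rng X.x0.le (by linarith [X.b, X.p0])).1 (mo_v x) le_rfl le_rfl
  · intro ρ a B hρ hd i h1 h2
    fin_cases i
    · exact corW_cert (G1 := gB1q2) (G2 := gB4q2) (Ga := gB0q0) (Gb := gB1q0) (D1 := dB1q2) (D2 := dB4q2) (Da := dB0q0) (Db := dB1q0) cB202E_ok B hρ hen (gatB12 x) (gatB42 x) (fun _ => gatB00 x) (fun _ => gatB10 x) (datB12 x) (datB42 x) (fun _ => datB00 x) (fun _ => datB10 x) hd hx hx' CW.B202E_140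
    · exact corW_cert (G1 := gB1q2) (G2 := gB4q2) (Ga := gB1q0) (Gb := gB2q0) (D1 := dB1q2) (D2 := dB4q2) (Da := dB1q0) (Db := dB2q0) cB202E_ok B hρ hen (gatB12 x) (gatB42 x) (fun _ => gatB10 x) (fun _ => gatB20 x) (datB12 x) (datB42 x) (fun _ => datB10 x) (fun _ => datB20 x) hd hx hx' CW.B202E_141
    · exact corW_cert (G1 := gB1q2) (G2 := gB4q2) (Ga := gB2q0) (Gb := gB3q0) (D1 := dB1q2) (D2 := dB4q2) (Da := dB2q0) (Db := dB3q0) cB202E_ok B hρ hen (gatB12 x) (gatB42 x) (fun _ => gatB20 x) (fun _ => gatB30 x) (datB12 x) (datB42 x) (fun _ => datB20 x) (fun _ => datB30 x) hd hx hx' CW.B202E_142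
    · exact corW_cert (G1 := gB1q2) (G2 := gB4q2) (Ga := gB3q0) (Gb := gB4q0) (D1 := dB1q2) (D2 := dB4q2) (Da := dB3q0) (Db := dB4q0) cB202E_ok B hρ hen (gatB12 x) (gatB42 x) (fun _ => gatB30 x) (fun _ => gatB40 x) (datB12 x) (datB42 x) (fun _ => datB30 x) (fun _ => datB40 x) hd hx hx' CW.B202E_143
    · exact corW_cert (G1 := gB1q2) (G2 := gB4q2) (Ga := gB4q0) (Gb := gB5q0) (D1 := dB1q2) (D2 := dB4q2) (Da := dB4q0) (Db := dB5q0) cB202E_ok B hρ hen (gatB12 x) (gatB42 x) (fun _ => gatB40 x) (fun h => absurd h (by decide)) (datB12 x) (datB42 x) (fun _ => datB40 x) (fun h => absurd h (by decide)) hd hx hx' CW.B202E_144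
    · exact absurd h2 (by norm_num)
    · exact absurd h2 (by norm_num)
    · exact absurd h2 (by norm_num)
  · intro ρ a B hρ hd i h1 h2
    fin_cases i
    · exact corT_cert (G1 := gB1q2) (G2 := gB4q2) (Ga := gB0q0) (Gb := gB1q0) cB202E_ok B hρ (gatB12 x) (gatB42 x) (fun _ => gatB00 x) (fun _ => gatB10 x) hd hx hx' CG.B202E_140
    · exact corT_cert (G1 := gB1q2) (G2 := gB4q2) (Ga := gB1q0) (Gb := gB2q0) cB202E_ok B hρ (gatB12 x) (gatB42 x) (fun _ => gatB10 x) (fun _ => gatB20 x) hd hx hx' CG.B202E_141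
    · exact corT_cert (G1 := gB1q2) (G2 := gB4q2) (Ga := gB2q0) (Gb := gB3q0) cB202E_ok B hρ (gatB12 x) (gatB42 x) (fun _ => gatB20 x) (fun _ => gatB30 x) hd hx hx' CG.B202E_142
    · exact corT_cert (G1 := gB1q2) (G2 := gB4q2) (Ga := gB3q0) (Gb := gB4q0) cB202E_ok B hρ (gatB12 x) (gatB42 x) (fun _ => gatB30 x) (fun _ => gatB40 x) hd hx hx' CG.B202E_143
    · exact corT_cert (G1 := gB1q2) (G2 := gB4q2) (Ga := gB4q0) (Gb := gB5q0) cB202E_ok B hρ (gatB12 x) (gatB42 x) (fun _ => gatB40 x) (fun h => absurd h (by decide)) hd hx hx' CG.B202E_144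
    · exact absurd h2 (by norm_num)
    · exact absurd h2 (by norm_num)
    · exact absurd h2 (by norm_num)

theorem altB_B202E_20 {κ x : ℝ} (hκ : κ * h0 = ken x) (hx : ((649613803 : ℕ) : ℝ) / S ≤ x) (hx' : x ≤ (((649613803 : ℕ) : ℝ) + (48318383 : ℕ)) / S) :
    AltEB 3 κ (eng.v x) (3 / 40) (tnt (h0 * x) (3 / 10)) PP tK tL tC pcB (scP esg pd) [⟨0, 1, 0, 67108864⟩, ⟨1, 0, 0, 67108864⟩, ⟨2, 1, 0, 67108864⟩] 2 0 2 2 0 (sgb true) (sgb false) x := by
  have X : XR 67108864 x := XR.of hx hx' (by norm_num) (by norm_num) (by norm_num) (by norm_num)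
  have hen : 0 < eng.v x := en_pos X.x0.le
  refine CornW.altB (C := cB202E) (j := (2 : Fin 9)) (k := (0 : Fin 9)) (Ef := esg) (pd := pd) (o := 3 / 40)
    (cornW_of (C := cB202E) (C0 := c0B) (En := eng) (mo := mog) (j := (2 : Fin 9)) (k := (0 : Fin 9)) (lo := 0) (hi := 4) (W := 67108864) (N0 := 3) cB202E_q (sideB hx hx') gokB (pinU hx hx') dokB X (by norm_num) (by norm_num) (l := (0 : Fin 9)) rfl
      (gatB22 x) (gatB02 x) (gatB00 x) (datB22 x) (datB02 x) (datB00 x) ?_)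
    (cornS_of (C := cB202E) (C0 := c0B) (j := (2 : Fin 9)) (k := (0 : Fin 9)) (lo := 0) (hi := 4) (W := 67108864) (N0 := 3) cB202E_q (sideB hx hx') gokB X (by norm_num) (by norm_num) (l := (0 : Fin 9)) rfl
      (gatB22 x) (gatB02 x) (gatB00 x) ?_)
    (thU (pinU hx hx')) rfl hκ (fun j q y => tC_eq j q y x) (esg_rng X.x0.le (by linarith [X.b, X.p0])).1 (mo_v x) le_rfl le_rfl
  · intro ρ a B hρ hd i h1 h2
    fin_cases i
    · exact corW_cert (G1 := gB2q2) (G2 := gB0q2) (Ga := gB0q0) (Gb := gB1q0) (D1 := dB2q2) (D2 := dB0q2) (Da := dB0q0) (Db := dB1q0) cB202E_ok B hρ hen (gatB22 x) (gatB02 x) (fun _ => gatB00 x) (fun _ => gatB10 x) (datB22 x) (datB02 x) (fun _ => datB00 x) (fun _ => datB10 x) hd hx hx' CW.B202E_200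
    · exact corW_cert (G1 := gB2q2) (G2 := gB0q2) (Ga := gB1q0) (Gb := gB2q0) (D1 := dB2q2) (D2 := dB0q2) (Da := dB1q0) (Db := dB2q0) cB202E_ok B hρ hen (gatB22 x) (gatB02 x) (fun _ => gatB10 x) (fun _ => gatB20 x) (datB22 x) (datB02 x) (fun _ => datB10 x) (fun _ => datB20 x) hd hx hx' CW.B202E_201
    · exact corW_cert (G1 := gB2q2) (G2 := gB0q2) (Ga := gB2q0) (Gb := gB3q0) (D1 := dB2q2) (D2 := dB0q2) (Da := dB2q0) (Db := dB3q0) cB202E_ok B hρ hen (gatB22 x) (gatB02 x) (fun _ => gatB20 x) (fun _ => gatB30 x) (datB22 x) (datB02 x) (fun _ => datB20 x) (fun _ => datB30 x) hd hx hx' CW.B202E_202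
    · exact corW_cert (G1 := gB2q2) (G2 := gB0q2) (Ga := gB3q0) (Gb := gB4q0) (D1 := dB2q2) (D2 := dB0q2) (Da := dB3q0) (Db := dB4q0) cB202E_ok B hρ hen (gatB22 x) (gatB02 x) (fun _ => gatB30 x) (fun _ => gatB40 x) (datB22 x) (datB02 x) (fun _ => datB30 x) (fun _ => datB40 x) hd hx hx' CW.B202E_203
    · exact corW_cert (G1 := gB2q2) (G2 := gB0q2) (Ga := gB4q0) (Gb := gB5q0) (D1 := dB2q2) (D2 := dB0q2) (Da := dB4q0) (Db := dB5q0) cB202E_ok B hρ hen (gatB22 x) (gatB02 x) (fun _ => gatB40 x) (fun h => absurd h (by decide)) (datB22 x) (datB02 x) (fun _ => datB40 x) (fun h => absurd h (by decide)) hd hx hx' CW.B202E_204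
    · exact absurd h2 (by norm_num)
    · exact absurd h2 (by norm_num)
    · exact absurd h2 (by norm_num)
  · intro ρ a B hρ hd i h1 h2
    fin_cases i
    · exact corT_cert (G1 := gB2q2) (G2 := gB0q2) (Ga := gB0q0) (Gb := gB1q0) cB202E_ok B hρ (gatB22 x) (gatB02 x) (fun _ => gatB00 x) (fun _ => gatB10 x) hd hx hx' CG.B202E_200
    · exact corT_cert (G1 := gB2q2) (G2 := gB0q2) (Ga := gB1q0) (Gb := gB2q0) cB202E_ok B hρ (gatB22 x) (gatB02 x) (fun _ => gatB10 x) (fun _ => gatB20 x) hd hx hx' CG.B202E_201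
    · exact corT_cert (G1 := gB2q2) (G2 := gB0q2) (Ga := gB2q0) (Gb := gB3q0) cB202E_ok B hρ (gatB22 x) (gatB02 x) (fun _ => gatB20 x) (fun _ => gatB30 x) hd hx hx' CG.B202E_202
    · exact corT_cert (G1 := gB2q2) (G2 := gB0q2) (Ga := gB3q0) (Gb := gB4q0) cB202E_ok B hρ (gatB22 x) (gatB02 x) (fun _ => gatB30 x) (fun _ => gatB40 x) hd hx hx' CG.B202E_203
    · exact corT_cert (G1 := gB2q2) (G2 := gB0q2) (Ga := gB4q0) (Gb := gB5q0) cB202E_ok B hρ (gatB22 x) (gatB02 x) (fun _ => gatB40 x) (fun h => absurd h (by decide)) hd hx hx' CG.B202E_204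
    · exact absurd h2 (by norm_num)
    · exact absurd h2 (by norm_num)
    · exact absurd h2 (by norm_num)

theorem altB_B202E_21 {κ x : ℝ} (hκ : κ * h0 = ken x) (hx : ((649613803 : ℕ) : ℝ) / S ≤ x) (hx' : x ≤ (((649613803 : ℕ) : ℝ) + (48318383 : ℕ)) / S) :
    AltEB 3 κ (eng.v x) (3 / 40) (tnt (h0 * x) (3 / 10)) PP tK tL tC pcB (scP esg pd) [⟨0, 1, 0, 67108864⟩, ⟨1, 0, 0, 67108864⟩, ⟨2, 1, 0, 67108864⟩] 2 0 2 2 1 (sgb true) (sgb false) x := by
  have X : XR 67108864 x := XR.of hx hx' (by norm_num) (by norm_num) (by norm_num) (by norm_num)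
  have hen : 0 < eng.v x := en_pos X.x0.le
  refine CornW.altB (C := cB202E) (j := (2 : Fin 9)) (k := (1 : Fin 9)) (Ef := esg) (pd := pd) (o := 3 / 40)
    (cornW_of (C := cB202E) (C0 := c0B) (En := eng) (mo := mog) (j := (2 : Fin 9)) (k := (1 : Fin 9)) (lo := 0) (hi := 4) (W := 67108864) (N0 := 3) cB202E_q (sideB hx hx') gokB (pinU hx hx') dokB X (by norm_num) (by norm_num) (l := (0 : Fin 9)) rfl
      (gatB22 x) (gatB12 x) (gatB00 x) (datB22 x) (datB12 x) (datB00 x) ?_)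
    (cornS_of (C := cB202E) (C0 := c0B) (j := (2 : Fin 9)) (k := (1 : Fin 9)) (lo := 0) (hi := 4) (W := 67108864) (N0 := 3) cB202E_q (sideB hx hx') gokB X (by norm_num) (by norm_num) (l := (0 : Fin 9)) rfl
      (gatB22 x) (gatB12 x) (gatB00 x) ?_)
    (thU (pinU hx hx')) rfl hκ (fun j q y => tC_eq j q y x) (esg_rng X.x0.le (by linarith [X.b, X.p0])).1 (mo_v x) le_rfl le_rfl
  · intro ρ a B hρ hd i h1 h2
    fin_cases i
    · exact corW_cert (G1 := gB2q2) (G2 := gB1q2) (Ga := gB0q0) (Gb := gB1q0) (D1 := dB2q2) (D2 := dB1q2) (Da := dB0q0) (Db := dB1q0) cB202E_ok B hρ hen (gatB22 x) (gatB12 x) (fun _ => gatB00 x) (fun _ => gatB10 x) (datB22 x) (datB12 x) (fun _ => datB00 x) (fun _ => datB10 x) hd hx hx' CW.B202E_210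
    · exact corW_cert (G1 := gB2q2) (G2 := gB1q2) (Ga := gB1q0) (Gb := gB2q0) (D1 := dB2q2) (D2 := dB1q2) (Da := dB1q0) (Db := dB2q0) cB202E_ok B hρ hen (gatB22 x) (gatB12 x) (fun _ => gatB10 x) (fun _ => gatB20 x) (datB22 x) (datB12 x) (fun _ => datB10 x) (fun _ => datB20 x) hd hx hx' CW.B202E_211
    · exact corW_cert (G1 := gB2q2) (G2 := gB1q2) (Ga := gB2q0) (Gb := gB3q0) (D1 := dB2q2) (D2 := dB1q2) (Da := dB2q0) (Db := dB3q0) cB202E_ok B hρ hen (gatB22 x) (gatB12 x) (fun _ => gatB20 x) (fun _ => gatB30 x) (datB22 x) (datB12 x) (fun _ => datB20 x) (fun _ => datB30 x) hd hx hx' CW.B202E_212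
    · exact corW_cert (G1 := gB2q2) (G2 := gB1q2) (Ga := gB3q0) (Gb := gB4q0) (D1 := dB2q2) (D2 := dB1q2) (Da := dB3q0) (Db := dB4q0) cB202E_ok B hρ hen (gatB22 x) (gatB12 x) (fun _ => gatB30 x) (fun _ => gatB40 x) (datB22 x) (datB12 x) (fun _ => datB30 x) (fun _ => datB40 x) hd hx hx' CW.B202E_213
    · exact corW_cert (G1 := gB2q2) (G2 := gB1q2) (Ga := gB4q0) (Gb := gB5q0) (D1 := dB2q2) (D2 := dB1q2) (Da := dB4q0) (Db := dB5q0) cB202E_ok B hρ hen (gatB22 x) (gatB12 x) (fun _ => gatB40 x) (fun h => absurd h (by decide)) (datB22 x) (datB12 x) (fun _ => datB40 x) (fun h => absurd h (by decide)) hd hx hx' CW.B202E_214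
    · exact absurd h2 (by norm_num)
    · exact absurd h2 (by norm_num)
    · exact absurd h2 (by norm_num)
  · intro ρ a B hρ hd i h1 h2
    fin_cases i
    · exact corT_cert (G1 := gB2q2) (G2 := gB1q2) (Ga := gB0q0) (Gb := gB1q0) cB202E_ok B hρ (gatB22 x) (gatB12 x) (fun _ => gatB00 x) (fun _ => gatB10 x) hd hx hx' CG.B202E_210
    · exact corT_cert (G1 := gB2q2) (G2 := gB1q2) (Ga := gB1q0) (Gb := gB2q0) cB202E_ok B hρ (gatB22 x) (gatB12 x) (fun _ => gatB10 x) (fun _ => gatB20 x) hd hx hx' CG.B202E_211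
    · exact corT_cert (G1 := gB2q2) (G2 := gB1q2) (Ga := gB2q0) (Gb := gB3q0) cB202E_ok B hρ (gatB22 x) (gatB12 x) (fun _ => gatB20 x) (fun _ => gatB30 x) hd hx hx' CG.B202E_212
    · exact corT_cert (G1 := gB2q2) (G2 := gB1q2) (Ga := gB3q0) (Gb := gB4q0) cB202E_ok B hρ (gatB22 x) (gatB12 x) (fun _ => gatB30 x) (fun _ => gatB40 x) hd hx hx' CG.B202E_213
    · exact corT_cert (G1 := gB2q2) (G2 := gB1q2) (Ga := gB4q0) (Gb := gB5q0) cB202E_ok B hρ (gatB22 x) (gatB12 x) (fun _ => gatB40 x) (fun h => absurd h (by decide)) hd hx hx' CG.B202E_214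
    · exact absurd h2 (by norm_num)
    · exact absurd h2 (by norm_num)
    · exact absurd h2 (by norm_num)

theorem altB_B202E_22 {κ x : ℝ} (hκ : κ * h0 = ken x) (hx : ((649613803 : ℕ) : ℝ) / S ≤ x) (hx' : x ≤ (((649613803 : ℕ) : ℝ) + (48318383 : ℕ)) / S) :
    AltEB 3 κ (eng.v x) (3 / 40) (tnt (h0 * x) (3 / 10)) PP tK tL tC pcB (scP esg pd) [⟨0, 1, 0, 67108864⟩, ⟨1, 0, 0, 67108864⟩, ⟨2, 1, 0, 67108864⟩] 2 0 2 2 2 (sgb true) (sgb false) x := by
  have X : XR 67108864 x := XR.of hx hx' (by norm_num) (by norm_num) (by norm_num) (by norm_num)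
  have hen : 0 < eng.v x := en_pos X.x0.le
  refine CornW.altB (C := cB202E) (j := (2 : Fin 9)) (k := (2 : Fin 9)) (Ef := esg) (pd := pd) (o := 3 / 40)
    (cornW_of (C := cB202E) (C0 := c0B) (En := eng) (mo := mog) (j := (2 : Fin 9)) (k := (2 : Fin 9)) (lo := 0) (hi := 4) (W := 67108864) (N0 := 3) cB202E_q (sideB hx hx') gokB (pinU hx hx') dokB X (by norm_num) (by norm_num) (l := (0 : Fin 9)) rfl
      (gatB22 x) (gatB22 x) (gatB00 x) (datB22 x) (datB22 x) (datB00 x) ?_)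
    (cornS_of (C := cB202E) (C0 := c0B) (j := (2 : Fin 9)) (k := (2 : Fin 9)) (lo := 0) (hi := 4) (W := 67108864) (N0 := 3) cB202E_q (sideB hx hx') gokB X (by norm_num) (by norm_num) (l := (0 : Fin 9)) rfl
      (gatB22 x) (gatB22 x) (gatB00 x) ?_)
    (thU (pinU hx hx')) rfl hκ (fun j q y => tC_eq j q y x) (esg_rng X.x0.le (by linarith [X.b, X.p0])).1 (mo_v x) le_rfl le_rfl
  · intro ρ a B hρ hd i h1 h2
    fin_cases i
    · exact corW_cert (G1 := gB2q2) (G2 := gB2q2) (Ga := gB0q0) (Gb := gB1q0) (D1 := dB2q2) (D2 := dB2q2) (Da := dB0q0) (Db := dB1q0) cB202E_ok B hρ hen (gatB22 x) (gatB22 x) (fun _ => gatB00 x) (fun _ => gatB10 x) (datB22 x) (datB22 x) (fun _ => datB00 x) (fun _ => datB10 x) hd hx hx' CW.B202E_220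
    · exact corW_cert (G1 := gB2q2) (G2 := gB2q2) (Ga := gB1q0) (Gb := gB2q0) (D1 := dB2q2) (D2 := dB2q2) (Da := dB1q0) (Db := dB2q0) cB202E_ok B hρ hen (gatB22 x) (gatB22 x) (fun _ => gatB10 x) (fun _ => gatB20 x) (datB22 x) (datB22 x) (fun _ => datB10 x) (fun _ => datB20 x) hd hx hx' CW.B202E_221
    · exact corW_cert (G1 := gB2q2) (G2 := gB2q2) (Ga := gB2q0) (Gb := gB3q0) (D1 := dB2q2) (D2 := dB2q2) (Da := dB2q0) (Db := dB3q0) cB202E_ok B hρ hen (gatB22 x) (gatB22 x) (fun _ => gatB20 x) (fun _ => gatB30 x) (datB22 x) (datB22 x) (fun _ => datB20 x) (fun _ => datB30 x) hd hx hx' CW.B202E_222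
    · exact corW_cert (G1 := gB2q2) (G2 := gB2q2) (Ga := gB3q0) (Gb := gB4q0) (D1 := dB2q2) (D2 := dB2q2) (Da := dB3q0) (Db := dB4q0) cB202E_ok B hρ hen (gatB22 x) (gatB22 x) (fun _ => gatB30 x) (fun _ => gatB40 x) (datB22 x) (datB22 x) (fun _ => datB30 x) (fun _ => datB40 x) hd hx hx' CW.B202E_223
    · exact corW_cert (G1 := gB2q2) (G2 := gB2q2) (Ga := gB4q0) (Gb := gB5q0) (D1 := dB2q2) (D2 := dB2q2) (Da := dB4q0) (Db := dB5q0) cB202E_ok B hρ hen (gatB22 x) (gatB22 x) (fun _ => gatB40 x) (fun h => absurd h (by decide)) (datB22 x) (datB22 x) (fun _ => datB40 x) (fun h => absurd h (by decide)) hd hx hx' CW.B202E_224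
    · exact absurd h2 (by norm_num)
    · exact absurd h2 (by norm_num)
    · exact absurd h2 (by norm_num)
  · intro ρ a B hρ hd i h1 h2
    fin_cases i
    · exact corT_cert (G1 := gB2q2) (G2 := gB2q2) (Ga := gB0q0) (Gb := gB1q0) cB202E_ok B hρ (gatB22 x) (gatB22 x) (fun _ => gatB00 x) (fun _ => gatB10 x) hd hx hx' CG.B202E_220
    · exact corT_cert (G1 := gB2q2) (G2 := gB2q2) (Ga := gB1q0) (Gb := gB2q0) cB202E_ok B hρ (gatB22 x) (gatB22 x) (fun _ => gatB10 x) (fun _ => gatB20 x) hd hx hx' CG.B202E_221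
    · exact corT_cert (G1 := gB2q2) (G2 := gB2q2) (Ga := gB2q0) (Gb := gB3q0) cB202E_ok B hρ (gatB22 x) (gatB22 x) (fun _ => gatB20 x) (fun _ => gatB30 x) hd hx hx' CG.B202E_222
    · exact corT_cert (G1 := gB2q2) (G2 := gB2q2) (Ga := gB3q0) (Gb := gB4q0) cB202E_ok B hρ (gatB22 x) (gatB22 x) (fun _ => gatB30 x) (fun _ => gatB40 x) hd hx hx' CG.B202E_223
    · exact corT_cert (G1 := gB2q2) (G2 := gB2q2) (Ga := gB4q0) (Gb := gB5q0) cB202E_ok B hρ (gatB22 x) (gatB22 x) (fun _ => gatB40 x) (fun h => absurd h (by decide)) hd hx hx' CG.B202E_224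
    · exact absurd h2 (by norm_num)
    · exact absurd h2 (by norm_num)
    · exact absurd h2 (by norm_num)

theorem altB_B202E_23 {κ x : ℝ} (hκ : κ * h0 = ken x) (hx : ((649613803 : ℕ) : ℝ) / S ≤ x) (hx' : x ≤ (((649613803 : ℕ) : ℝ) + (48318383 : ℕ)) / S) :
    AltEB 3 κ (eng.v x) (3 / 40) (tnt (h0 * x) (3 / 10)) PP tK tL tC pcB (scP esg pd) [⟨0, 1, 0, 67108864⟩, ⟨1, 0, 0, 67108864⟩, ⟨2, 1, 0, 67108864⟩] 2 0 2 2 3 (sgb true) (sgb false) x := by
  have X : XR 67108864 x := XR.of hx hx' (by norm_num) (by norm_num) (by norm_num) (by norm_num)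
  have hen : 0 < eng.v x := en_pos X.x0.le
  refine CornW.altB (C := cB202E) (j := (2 : Fin 9)) (k := (3 : Fin 9)) (Ef := esg) (pd := pd) (o := 3 / 40)
    (cornW_of (C := cB202E) (C0 := c0B) (En := eng) (mo := mog) (j := (2 : Fin 9)) (k := (3 : Fin 9)) (lo := 0) (hi := 4) (W := 67108864) (N0 := 3) cB202E_q (sideB hx hx') gokB (pinU hx hx') dokB X (by norm_num) (by norm_num) (l := (0 : Fin 9)) rfl
      (gatB22 x) (gatB32 x) (gatB00 x) (datB22 x) (datB32 x) (datB00 x) ?_)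
    (cornS_of (C := cB202E) (C0 := c0B) (j := (2 : Fin 9)) (k := (3 : Fin 9)) (lo := 0) (hi := 4) (W := 67108864) (N0 := 3) cB202E_q (sideB hx hx') gokB X (by norm_num) (by norm_num) (l := (0 : Fin 9)) rfl
      (gatB22 x) (gatB32 x) (gatB00 x) ?_)
    (thU (pinU hx hx')) rfl hκ (fun j q y => tC_eq j q y x) (esg_rng X.x0.le (by linarith [X.b, X.p0])).1 (mo_v x) le_rfl le_rfl
  · intro ρ a B hρ hd i h1 h2
    fin_cases i
    · exact corW_cert (G1 := gB2q2) (G2 := gB3q2) (Ga := gB0q0) (Gb := gB1q0) (D1 := dB2q2) (D2 := dB3q2) (Da := dB0q0) (Db := dB1q0) cB202E_ok B hρ hen (gatB22 x) (gatB32 x) (fun _ => gatB00 x) (fun _ => gatB10 x) (datB22 x) (datB32 x) (fun _ => datB00 x) (fun _ => datB10 x) hd hx hx' CW.B202E_230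
    · exact corW_cert (G1 := gB2q2) (G2 := gB3q2) (Ga := gB1q0) (Gb := gB2q0) (D1 := dB2q2) (D2 := dB3q2) (Da := dB1q0) (Db := dB2q0) cB202E_ok B hρ hen (gatB22 x) (gatB32 x) (fun _ => gatB10 x) (fun _ => gatB20 x) (datB22 x) (datB32 x) (fun _ => datB10 x) (fun _ => datB20 x) hd hx hx' CW.B202E_231
    · exact corW_cert (G1 := gB2q2) (G2 := gB3q2) (Ga := gB2q0) (Gb := gB3q0) (D1 := dB2q2) (D2 := dB3q2) (Da := dB2q0) (Db := dB3q0) cB202E_ok B hρ hen (gatB22 x) (gatB32 x) (fun _ => gatB20 x) (fun _ => gatB30 x) (datB22 x) (datB32 x) (fun _ => datB20 x) (fun _ => datB30 x) hd hx hx' CW.B202E_232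
    · exact corW_cert (G1 := gB2q2) (G2 := gB3q2) (Ga := gB3q0) (Gb := gB4q0) (D1 := dB2q2) (D2 := dB3q2) (Da := dB3q0) (Db := dB4q0) cB202E_ok B hρ hen (gatB22 x) (gatB32 x) (fun _ => gatB30 x) (fun _ => gatB40 x) (datB22 x) (datB32 x) (fun _ => datB30 x) (fun _ => datB40 x) hd hx hx' CW.B202E_233
    · exact corW_cert (G1 := gB2q2) (G2 := gB3q2) (Ga := gB4q0) (Gb := gB5q0) (D1 := dB2q2) (D2 := dB3q2) (Da := dB4q0) (Db := dB5q0) cB202E_ok B hρ hen (gatB22 x) (gatB32 x) (fun _ => gatB40 x) (fun h => absurd h (by decide)) (datB22 x) (datB32 x) (fun _ => datB40 x) (fun h => absurd h (by decide)) hd hx hx' CW.B202E_234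
    · exact absurd h2 (by norm_num)
    · exact absurd h2 (by norm_num)
    · exact absurd h2 (by norm_num)
  · intro ρ a B hρ hd i h1 h2
    fin_cases i
    · exact corT_cert (G1 := gB2q2) (G2 := gB3q2) (Ga := gB0q0) (Gb := gB1q0) cB202E_ok B hρ (gatB22 x) (gatB32 x) (fun _ => gatB00 x) (fun _ => gatB10 x) hd hx hx' CG.B202E_230
    · exact corT_cert (G1 := gB2q2) (G2 := gB3q2) (Ga := gB1q0) (Gb := gB2q0) cB202E_ok B hρ (gatB22 x) (gatB32 x) (fun _ => gatB10 x) (fun _ => gatB20 x) hd hx hx' CG.B202E_231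
    · exact corT_cert (G1 := gB2q2) (G2 := gB3q2) (Ga := gB2q0) (Gb := gB3q0) cB202E_ok B hρ (gatB22 x) (gatB32 x) (fun _ => gatB20 x) (fun _ => gatB30 x) hd hx hx' CG.B202E_232
    · exact corT_cert (G1 := gB2q2) (G2 := gB3q2) (Ga := gB3q0) (Gb := gB4q0) cB202E_ok B hρ (gatB22 x) (gatB32 x) (fun _ => gatB30 x) (fun _ => gatB40 x) hd hx hx' CG.B202E_233
    · exact corT_cert (G1 := gB2q2) (G2 := gB3q2) (Ga := gB4q0) (Gb := gB5q0) cB202E_ok B hρ (gatB22 x) (gatB32 x) (fun _ => gatB40 x) (fun h => absurd h (by decide)) hd hx hx' CG.B202E_234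
    · exact absurd h2 (by norm_num)
    · exact absurd h2 (by norm_num)
    · exact absurd h2 (by norm_num)

theorem altB_B202E_24 {κ x : ℝ} (hκ : κ * h0 = ken x) (hx : ((649613803 : ℕ) : ℝ) / S ≤ x) (hx' : x ≤ (((649613803 : ℕ) : ℝ) + (48318383 : ℕ)) / S) :
    AltEB 3 κ (eng.v x) (3 / 40) (tnt (h0 * x) (3 / 10)) PP tK tL tC pcB (scP esg pd) [⟨0, 1, 0, 67108864⟩, ⟨1, 0, 0, 67108864⟩, ⟨2, 1, 0, 67108864⟩] 2 0 2 2 4 (sgb true) (sgb false) x := by
  have X : XR 67108864 x := XR.of hx hx' (by norm_num) (by norm_num) (by norm_num) (by norm_num)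
  have hen : 0 < eng.v x := en_pos X.x0.le
  refine CornW.altB (C := cB202E) (j := (2 : Fin 9)) (k := (4 : Fin 9)) (Ef := esg) (pd := pd) (o := 3 / 40)
    (cornW_of (C := cB202E) (C0 := c0B) (En := eng) (mo := mog) (j := (2 : Fin 9)) (k := (4 : Fin 9)) (lo := 0) (hi := 4) (W := 67108864) (N0 := 3) cB202E_q (sideB hx hx') gokB (pinU hx hx') dokB X (by norm_num) (by norm_num) (l := (0 : Fin 9)) rfl
      (gatB22 x) (gatB42 x) (gatB00 x) (datB22 x) (datB42 x) (datB00 x) ?_)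
    (cornS_of (C := cB202E) (C0 := c0B) (j := (2 : Fin 9)) (k := (4 : Fin 9)) (lo := 0) (hi := 4) (W := 67108864) (N0 := 3) cB202E_q (sideB hx hx') gokB X (by norm_num) (by norm_num) (l := (0 : Fin 9)) rfl
      (gatB22 x) (gatB42 x) (gatB00 x) ?_)
    (thU (pinU hx hx')) rfl hκ (fun j q y => tC_eq j q y x) (esg_rng X.x0.le (by linarith [X.b, X.p0])).1 (mo_v x) le_rfl le_rfl
  · intro ρ a B hρ hd i h1 h2
    fin_cases i
    · exact corW_cert (G1 := gB2q2) (G2 := gB4q2) (Ga := gB0q0) (Gb := gB1q0) (D1 := dB2q2) (D2 := dB4q2) (Da := dB0q0) (Db := dB1q0) cB202E_ok B hρ hen (gatB22 x) (gatB42 x) (fun _ => gatB00 x) (fun _ => gatB10 x) (datB22 x) (datB42 x) (fun _ => datB00 x) (fun _ => datB10 x) hd hx hx' CW.B202E_240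
    · exact corW_cert (G1 := gB2q2) (G2 := gB4q2) (Ga := gB1q0) (Gb := gB2q0) (D1 := dB2q2) (D2 := dB4q2) (Da := dB1q0) (Db := dB2q0) cB202E_ok B hρ hen (gatB22 x) (gatB42 x) (fun _ => gatB10 x) (fun _ => gatB20 x) (datB22 x) (datB42 x) (fun _ => datB10 x) (fun _ => datB20 x) hd hx hx' CW.B202E_241
    · exact corW_cert (G1 := gB2q2) (G2 := gB4q2) (Ga := gB2q0) (Gb := gB3q0) (D1 := dB2q2) (D2 := dB4q2) (Da := dB2q0) (Db := dB3q0) cB202E_ok B hρ hen (gatB22 x) (gatB42 x) (fun _ => gatB20 x) (fun _ => gatB30 x) (datB22 x) (datB42 x) (fun _ => datB20 x) (fun _ => datB30 x) hd hx hx' CW.B202E_242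
    · exact corW_cert (G1 := gB2q2) (G2 := gB4q2) (Ga := gB3q0) (Gb := gB4q0) (D1 := dB2q2) (D2 := dB4q2) (Da := dB3q0) (Db := dB4q0) cB202E_ok B hρ hen (gatB22 x) (gatB42 x) (fun _ => gatB30 x) (fun _ => gatB40 x) (datB22 x) (datB42 x) (fun _ => datB30 x) (fun _ => datB40 x) hd hx hx' CW.B202E_243
    · exact corW_cert (G1 := gB2q2) (G2 := gB4q2) (Ga := gB4q0) (Gb := gB5q0) (D1 := dB2q2) (D2 := dB4q2) (Da := dB4q0) (Db := dB5q0) cB202E_ok B hρ hen (gatB22 x) (gatB42 x) (fun _ => gatB40 x) (fun h => absurd h (by decide)) (datB22 x) (datB42 x) (fun _ => datB40 x) (fun h => absurd h (by decide)) hd hx hx' CW.B202E_244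
    · exact absurd h2 (by norm_num)
    · exact absurd h2 (by norm_num)
    · exact absurd h2 (by norm_num)
  · intro ρ a B hρ hd i h1 h2
    fin_cases i
    · exact corT_cert (G1 := gB2q2) (G2 := gB4q2) (Ga := gB0q0) (Gb := gB1q0) cB202E_ok B hρ (gatB22 x) (gatB42 x) (fun _ => gatB00 x) (fun _ => gatB10 x) hd hx hx' CG.B202E_240
    · exact corT_cert (G1 := gB2q2) (G2 := gB4q2) (Ga := gB1q0) (Gb := gB2q0) cB202E_ok B hρ (gatB22 x) (gatB42 x) (fun _ => gatB10 x) (fun _ => gatB20 x) hd hx hx' CG.B202E_241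
    · exact corT_cert (G1 := gB2q2) (G2 := gB4q2) (Ga := gB2q0) (Gb := gB3q0) cB202E_ok B hρ (gatB22 x) (gatB42 x) (fun _ => gatB20 x) (fun _ => gatB30 x) hd hx hx' CG.B202E_242
    · exact corT_cert (G1 := gB2q2) (G2 := gB4q2) (Ga := gB3q0) (Gb := gB4q0) cB202E_ok B hρ (gatB22 x) (gatB42 x) (fun _ => gatB30 x) (fun _ => gatB40 x) hd hx hx' CG.B202E_243
    · exact corT_cert (G1 := gB2q2) (G2 := gB4q2) (Ga := gB4q0) (Gb := gB5q0) cB202E_ok B hρ (gatB22 x) (gatB42 x) (fun _ => gatB40 x) (fun h => absurd h (by decide)) hd hx hx' CG.B202E_244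
    · exact absurd h2 (by norm_num)
    · exact absurd h2 (by norm_num)
    · exact absurd h2 (by norm_num)

theorem altB_B202E_30 {κ x : ℝ} (hκ : κ * h0 = ken x) (hx : ((649613803 : ℕ) : ℝ) / S ≤ x) (hx' : x ≤ (((649613803 : ℕ) : ℝ) + (48318383 : ℕ)) / S) :
    AltEB 3 κ (eng.v x) (3 / 40) (tnt (h0 * x) (3 / 10)) PP tK tL tC pcB (scP esg pd) [⟨0, 1, 0, 67108864⟩, ⟨1, 0, 0, 67108864⟩, ⟨2, 1, 0, 67108864⟩] 2 0 2 3 0 (sgb true) (sgb false) x := by
  have X : XR 67108864 x := XR.of hx hx' (by norm_num) (by norm_num) (by norm_num) (by norm_num)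
  have hen : 0 < eng.v x := en_pos X.x0.le
  refine CornW.altB (C := cB202E) (j := (3 : Fin 9)) (k := (0 : Fin 9)) (Ef := esg) (pd := pd) (o := 3 / 40)
    (cornW_of (C := cB202E) (C0 := c0B) (En := eng) (mo := mog) (j := (3 : Fin 9)) (k := (0 : Fin 9)) (lo := 0) (hi := 4) (W := 67108864) (N0 := 3) cB202E_q (sideB hx hx') gokB (pinU hx hx') dokB X (by norm_num) (by norm_num) (l := (0 : Fin 9)) rfl
      (gatB32 x) (gatB02 x) (gatB00 x) (datB32 x) (datB02 x) (datB00 x) ?_)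
    (cornS_of (C := cB202E) (C0 := c0B) (j := (3 : Fin 9)) (k := (0 : Fin 9)) (lo := 0) (hi := 4) (W := 67108864) (N0 := 3) cB202E_q (sideB hx hx') gokB X (by norm_num) (by norm_num) (l := (0 : Fin 9)) rfl
      (gatB32 x) (gatB02 x) (gatB00 x) ?_)
    (thU (pinU hx hx')) rfl hκ (fun j q y => tC_eq j q y x) (esg_rng X.x0.le (by linarith [X.b, X.p0])).1 (mo_v x) le_rfl le_rfl
  · intro ρ a B hρ hd i h1 h2
    fin_cases i
    · exact corW_cert (G1 := gB3q2) (G2 := gB0q2) (Ga := gB0q0) (Gb := gB1q0) (D1 := dB3q2) (D2 := dB0q2) (Da := dB0q0) (Db := dB1q0) cB202E_ok B hρ hen (gatB32 x) (gatB02 x) (fun _ => gatB00 x) (fun _ => gatB10 x) (datB32 x) (datB02 x) (fun _ => datB00 x) (fun _ => datB10 x) hd hx hx' CW.B202E_300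
    · exact corW_cert (G1 := gB3q2) (G2 := gB0q2) (Ga := gB1q0) (Gb := gB2q0) (D1 := dB3q2) (D2 := dB0q2) (Da := dB1q0) (Db := dB2q0) cB202E_ok B hρ hen (gatB32 x) (gatB02 x) (fun _ => gatB10 x) (fun _ => gatB20 x) (datB32 x) (datB02 x) (fun _ => datB10 x) (fun _ => datB20 x) hd hx hx' CW.B202E_301
    · exact corW_cert (G1 := gB3q2) (G2 := gB0q2) (Ga := gB2q0) (Gb := gB3q0) (D1 := dB3q2) (D2 := dB0q2) (Da := dB2q0) (Db := dB3q0) cB202E_ok B hρ hen (gatB32 x) (gatB02 x) (fun _ => gatB20 x) (fun _ => gatB30 x) (datB32 x) (datB02 x) (fun _ => datB20 x) (fun _ => datB30 x) hd hx hx' CW.B202E_302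
    · exact corW_cert (G1 := gB3q2) (G2 := gB0q2) (Ga := gB3q0) (Gb := gB4q0) (D1 := dB3q2) (D2 := dB0q2) (Da := dB3q0) (Db := dB4q0) cB202E_ok B hρ hen (gatB32 x) (gatB02 x) (fun _ => gatB30 x) (fun _ => gatB40 x) (datB32 x) (datB02 x) (fun _ => datB30 x) (fun _ => datB40 x) hd hx hx' CW.B202E_303
    · exact corW_cert (G1 := gB3q2) (G2 := gB0q2) (Ga := gB4q0) (Gb := gB5q0) (D1 := dB3q2) (D2 := dB0q2) (Da := dB4q0) (Db := dB5q0) cB202E_ok B hρ hen (gatB32 x) (gatB02 x) (fun _ => gatB40 x) (fun h => absurd h (by decide)) (datB32 x) (datB02 x) (fun _ => datB40 x) (fun h => absurd h (by decide)) hd hx hx' CW.B202E_304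
    · exact absurd h2 (by norm_num)
    · exact absurd h2 (by norm_num)
    · exact absurd h2 (by norm_num)
  · intro ρ a B hρ hd i h1 h2
    fin_cases i
    · exact corT_cert (G1 := gB3q2) (G2 := gB0q2) (Ga := gB0q0) (Gb := gB1q0) cB202E_ok B hρ (gatB32 x) (gatB02 x) (fun _ => gatB00 x) (fun _ => gatB10 x) hd hx hx' CG.B202E_300
    · exact corT_cert (G1 := gB3q2) (G2 := gB0q2) (Ga := gB1q0) (Gb := gB2q0) cB202E_ok B hρ (gatB32 x) (gatB02 x) (fun _ => gatB10 x) (fun _ => gatB20 x) hd hx hx' CG.B202E_301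
    · exact corT_cert (G1 := gB3q2) (G2 := gB0q2) (Ga := gB2q0) (Gb := gB3q0) cB202E_ok B hρ (gatB32 x) (gatB02 x) (fun _ => gatB20 x) (fun _ => gatB30 x) hd hx hx' CG.B202E_302
    · exact corT_cert (G1 := gB3q2) (G2 := gB0q2) (Ga := gB3q0) (Gb := gB4q0) cB202E_ok B hρ (gatB32 x) (gatB02 x) (fun _ => gatB30 x) (fun _ => gatB40 x) hd hx hx' CG.B202E_303
    · exact corT_cert (G1 := gB3q2) (G2 := gB0q2) (Ga := gB4q0) (Gb := gB5q0) cB202E_ok B hρ (gatB32 x) (gatB02 x) (fun _ => gatB40 x) (fun h => absurd h (by decide)) hd hx hx' CG.B202E_304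
    · exact absurd h2 (by norm_num)
    · exact absurd h2 (by norm_num)
    · exact absurd h2 (by norm_num)

theorem altB_B202E_31 {κ x : ℝ} (hκ : κ * h0 = ken x) (hx : ((649613803 : ℕ) : ℝ) / S ≤ x) (hx' : x ≤ (((649613803 : ℕ) : ℝ) + (48318383 : ℕ)) / S) :
    AltEB 3 κ (eng.v x) (3 / 40) (tnt (h0 * x) (3 / 10)) PP tK tL tC pcB (scP esg pd) [⟨0, 1, 0, 67108864⟩, ⟨1, 0, 0, 67108864⟩, ⟨2, 1, 0, 67108864⟩] 2 0 2 3 1 (sgb true) (sgb false) x := by
  have X : XR 67108864 x := XR.of hx hx' (by norm_num) (by norm_num) (by norm_num) (by norm_num)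
  have hen : 0 < eng.v x := en_pos X.x0.le
  refine CornW.altB (C := cB202E) (j := (3 : Fin 9)) (k := (1 : Fin 9)) (Ef := esg) (pd := pd) (o := 3 / 40)
    (cornW_of (C := cB202E) (C0 := c0B) (En := eng) (mo := mog) (j := (3 : Fin 9)) (k := (1 : Fin 9)) (lo := 0) (hi := 4) (W := 67108864) (N0 := 3) cB202E_q (sideB hx hx') gokB (pinU hx hx') dokB X (by norm_num) (by norm_num) (l := (0 : Fin 9)) rfl
      (gatB32 x) (gatB12 x) (gatB00 x) (datB32 x) (datB12 x) (datB00 x) ?_)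
    (cornS_of (C := cB202E) (C0 := c0B) (j := (3 : Fin 9)) (k := (1 : Fin 9)) (lo := 0) (hi := 4) (W := 67108864) (N0 := 3) cB202E_q (sideB hx hx') gokB X (by norm_num) (by norm_num) (l := (0 : Fin 9)) rfl
      (gatB32 x) (gatB12 x) (gatB00 x) ?_)
    (thU (pinU hx hx')) rfl hκ (fun j q y => tC_eq j q y x) (esg_rng X.x0.le (by linarith [X.b, X.p0])).1 (mo_v x) le_rfl le_rfl
  · intro ρ a B hρ hd i h1 h2
    fin_cases i
    · exact corW_cert (G1 := gB3q2) (G2 := gB1q2) (Ga := gB0q0) (Gb := gB1q0) (D1 := dB3q2) (D2 := dB1q2) (Da := dB0q0) (Db := dB1q0) cB202E_ok B hρ hen (gatB32 x) (gatB12 x) (fun _ => gatB00 x) (fun _ => gatB10 x) (datB32 x) (datB12 x) (fun _ => datB00 x) (fun _ => datB10 x) hd hx hx' CW.B202E_310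
    · exact corW_cert (G1 := gB3q2) (G2 := gB1q2) (Ga := gB1q0) (Gb := gB2q0) (D1 := dB3q2) (D2 := dB1q2) (Da := dB1q0) (Db := dB2q0) cB202E_ok B hρ hen (gatB32 x) (gatB12 x) (fun _ => gatB10 x) (fun _ => gatB20 x) (datB32 x) (datB12 x) (fun _ => datB10 x) (fun _ => datB20 x) hd hx hx' CW.B202E_311
    · exact corW_cert (G1 := gB3q2) (G2 := gB1q2) (Ga := gB2q0) (Gb := gB3q0) (D1 := dB3q2) (D2 := dB1q2) (Da := dB2q0) (Db := dB3q0) cB202E_ok B hρ hen (gatB32 x) (gatB12 x) (fun _ => gatB20 x) (fun _ => gatB30 x) (datB32 x) (datB12 x) (fun _ => datB20 x) (fun _ => datB30 x) hd hx hx' CW.B202E_312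
    · exact corW_cert (G1 := gB3q2) (G2 := gB1q2) (Ga := gB3q0) (Gb := gB4q0) (D1 := dB3q2) (D2 := dB1q2) (Da := dB3q0) (Db := dB4q0) cB202E_ok B hρ hen (gatB32 x) (gatB12 x) (fun _ => gatB30 x) (fun _ => gatB40 x) (datB32 x) (datB12 x) (fun _ => datB30 x) (fun _ => datB40 x) hd hx hx' CW.B202E_313
    · exact corW_cert (G1 := gB3q2) (G2 := gB1q2) (Ga := gB4q0) (Gb := gB5q0) (D1 := dB3q2) (D2 := dB1q2) (Da := dB4q0) (Db := dB5q0) cB202E_ok B hρ hen (gatB32 x) (gatB12 x) (fun _ => gatB40 x) (fun h => absurd h (by decide)) (datB32 x) (datB12 x) (fun _ => datB40 x) (fun h => absurd h (by decide)) hd hx hx' CW.B202E_314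
    · exact absurd h2 (by norm_num)
    · exact absurd h2 (by norm_num)
    · exact absurd h2 (by norm_num)
  · intro ρ a B hρ hd i h1 h2
    fin_cases i
    · exact corT_cert (G1 := gB3q2) (G2 := gB1q2) (Ga := gB0q0) (Gb := gB1q0) cB202E_ok B hρ (gatB32 x) (gatB12 x) (fun _ => gatB00 x) (fun _ => gatB10 x) hd hx hx' CG.B202E_310
    · exact corT_cert (G1 := gB3q2) (G2 := gB1q2) (Ga := gB1q0) (Gb := gB2q0) cB202E_ok B hρ (gatB32 x) (gatB12 x) (fun _ => gatB10 x) (fun _ => gatB20 x) hd hx hx' CG.B202E_311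
    · exact corT_cert (G1 := gB3q2) (G2 := gB1q2) (Ga := gB2q0) (Gb := gB3q0) cB202E_ok B hρ (gatB32 x) (gatB12 x) (fun _ => gatB20 x) (fun _ => gatB30 x) hd hx hx' CG.B202E_312
    · exact corT_cert (G1 := gB3q2) (G2 := gB1q2) (Ga := gB3q0) (Gb := gB4q0) cB202E_ok B hρ (gatB32 x) (gatB12 x) (fun _ => gatB30 x) (fun _ => gatB40 x) hd hx hx' CG.B202E_313
    · exact corT_cert (G1 := gB3q2) (G2 := gB1q2) (Ga := gB4q0) (Gb := gB5q0) cB202E_ok B hρ (gatB32 x) (gatB12 x) (fun _ => gatB40 x) (fun h => absurd h (by decide)) hd hx hx' CG.B202E_314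
    · exact absurd h2 (by norm_num)
    · exact absurd h2 (by norm_num)
    · exact absurd h2 (by norm_num)

theorem altB_B202E_32 {κ x : ℝ} (hκ : κ * h0 = ken x) (hx : ((649613803 : ℕ) : ℝ) / S ≤ x) (hx' : x ≤ (((649613803 : ℕ) : ℝ) + (48318383 : ℕ)) / S) :
    AltEB 3 κ (eng.v x) (3 / 40) (tnt (h0 * x) (3 / 10)) PP tK tL tC pcB (scP esg pd) [⟨0, 1, 0, 67108864⟩, ⟨1, 0, 0, 67108864⟩, ⟨2, 1, 0, 67108864⟩] 2 0 2 3 2 (sgb true) (sgb false) x := by
  have X : XR 67108864 x := XR.of hx hx' (by norm_num) (by norm_num) (by norm_num) (by norm_num)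
  have hen : 0 < eng.v x := en_pos X.x0.le
  refine CornW.altB (C := cB202E) (j := (3 : Fin 9)) (k := (2 : Fin 9)) (Ef := esg) (pd := pd) (o := 3 / 40)
    (cornW_of (C := cB202E) (C0 := c0B) (En := eng) (mo := mog) (j := (3 : Fin 9)) (k := (2 : Fin 9)) (lo := 0) (hi := 4) (W := 67108864) (N0 := 3) cB202E_q (sideB hx hx') gokB (pinU hx hx') dokB X (by norm_num) (by norm_num) (l := (0 : Fin 9)) rfl
      (gatB32 x) (gatB22 x) (gatB00 x) (datB32 x) (datB22 x) (datB00 x) ?_)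
    (cornS_of (C := cB202E) (C0 := c0B) (j := (3 : Fin 9)) (k := (2 : Fin 9)) (lo := 0) (hi := 4) (W := 67108864) (N0 := 3) cB202E_q (sideB hx hx') gokB X (by norm_num) (by norm_num) (l := (0 : Fin 9)) rfl
      (gatB32 x) (gatB22 x) (gatB00 x) ?_)
    (thU (pinU hx hx')) rfl hκ (fun j q y => tC_eq j q y x) (esg_rng X.x0.le (by linarith [X.b, X.p0])).1 (mo_v x) le_rfl le_rfl
  · intro ρ a B hρ hd i h1 h2
    fin_cases i
    · exact corW_cert (G1 := gB3q2) (G2 := gB2q2) (Ga := gB0q0) (Gb := gB1q0) (D1 := dB3q2) (D2 := dB2q2) (Da := dB0q0) (Db := dB1q0) cB202E_ok B hρ hen (gatB32 x) (gatB22 x) (fun _ => gatB00 x) (fun _ => gatB10 x) (datB32 x) (datB22 x) (fun _ => datB00 x) (fun _ => datB10 x) hd hx hx' CW.B202E_320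
    · exact corW_cert (G1 := gB3q2) (G2 := gB2q2) (Ga := gB1q0) (Gb := gB2q0) (D1 := dB3q2) (D2 := dB2q2) (Da := dB1q0) (Db := dB2q0) cB202E_ok B hρ hen (gatB32 x) (gatB22 x) (fun _ => gatB10 x) (fun _ => gatB20 x) (datB32 x) (datB22 x) (fun _ => datB10 x) (fun _ => datB20 x) hd hx hx' CW.B202E_321
    · exact corW_cert (G1 := gB3q2) (G2 := gB2q2) (Ga := gB2q0) (Gb := gB3q0) (D1 := dB3q2) (D2 := dB2q2) (Da := dB2q0) (Db := dB3q0) cB202E_ok B hρ hen (gatB32 x) (gatB22 x) (fun _ => gatB20 x) (fun _ => gatB30 x) (datB32 x) (datB22 x) (fun _ => datB20 x) (fun _ => datB30 x) hd hx hx' CW.B202E_322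
    · exact corW_cert (G1 := gB3q2) (G2 := gB2q2) (Ga := gB3q0) (Gb := gB4q0) (D1 := dB3q2) (D2 := dB2q2) (Da := dB3q0) (Db := dB4q0) cB202E_ok B hρ hen (gatB32 x) (gatB22 x) (fun _ => gatB30 x) (fun _ => gatB40 x) (datB32 x) (datB22 x) (fun _ => datB30 x) (fun _ => datB40 x) hd hx hx' CW.B202E_323
    · exact corW_cert (G1 := gB3q2) (G2 := gB2q2) (Ga := gB4q0) (Gb := gB5q0) (D1 := dB3q2) (D2 := dB2q2) (Da := dB4q0) (Db := dB5q0) cB202E_ok B hρ hen (gatB32 x) (gatB22 x) (fun _ => gatB40 x) (fun h => absurd h (by decide)) (datB32 x) (datB22 x) (fun _ => datB40 x) (fun h => absurd h (by decide)) hd hx hx' CW.B202E_324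
    · exact absurd h2 (by norm_num)
    · exact absurd h2 (by norm_num)
    · exact absurd h2 (by norm_num)
  · intro ρ a B hρ hd i h1 h2
    fin_cases i
    · exact corT_cert (G1 := gB3q2) (G2 := gB2q2) (Ga := gB0q0) (Gb := gB1q0) cB202E_ok B hρ (gatB32 x) (gatB22 x) (fun _ => gatB00 x) (fun _ => gatB10 x) hd hx hx' CG.B202E_320
    · exact corT_cert (G1 := gB3q2) (G2 := gB2q2) (Ga := gB1q0) (Gb := gB2q0) cB202E_ok B hρ (gatB32 x) (gatB22 x) (fun _ => gatB10 x) (fun _ => gatB20 x) hd hx hx' CG.B202E_321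
    · exact corT_cert (G1 := gB3q2) (G2 := gB2q2) (Ga := gB2q0) (Gb := gB3q0) cB202E_ok B hρ (gatB32 x) (gatB22 x) (fun _ => gatB20 x) (fun _ => gatB30 x) hd hx hx' CG.B202E_322
    · exact corT_cert (G1 := gB3q2) (G2 := gB2q2) (Ga := gB3q0) (Gb := gB4q0) cB202E_ok B hρ (gatB32 x) (gatB22 x) (fun _ => gatB30 x) (fun _ => gatB40 x) hd hx hx' CG.B202E_323
    · exact corT_cert (G1 := gB3q2) (G2 := gB2q2) (Ga := gB4q0) (Gb := gB5q0) cB202E_ok B hρ (gatB32 x) (gatB22 x) (fun _ => gatB40 x) (fun h => absurd h (by decide)) hd hx hx' CG.B202E_324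
    · exact absurd h2 (by norm_num)
    · exact absurd h2 (by norm_num)
    · exact absurd h2 (by norm_num)

theorem altB_B202E_33 {κ x : ℝ} (hκ : κ * h0 = ken x) (hx : ((649613803 : ℕ) : ℝ) / S ≤ x) (hx' : x ≤ (((649613803 : ℕ) : ℝ) + (48318383 : ℕ)) / S) :
    AltEB 3 κ (eng.v x) (3 / 40) (tnt (h0 * x) (3 / 10)) PP tK tL tC pcB (scP esg pd) [⟨0, 1, 0, 67108864⟩, ⟨1, 0, 0, 67108864⟩, ⟨2, 1, 0, 67108864⟩] 2 0 2 3 3 (sgb true) (sgb false) x := by
  have X : XR 67108864 x := XR.of hx hx' (by norm_num) (by norm_num) (by norm_num) (by norm_num)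
  have hen : 0 < eng.v x := en_pos X.x0.le
  refine CornW.altB (C := cB202E) (j := (3 : Fin 9)) (k := (3 : Fin 9)) (Ef := esg) (pd := pd) (o := 3 / 40)
    (cornW_of (C := cB202E) (C0 := c0B) (En := eng) (mo := mog) (j := (3 : Fin 9)) (k := (3 : Fin 9)) (lo := 0) (hi := 4) (W := 67108864) (N0 := 3) cB202E_q (sideB hx hx') gokB (pinU hx hx') dokB X (by norm_num) (by norm_num) (l := (0 : Fin 9)) rfl
      (gatB32 x) (gatB32 x) (gatB00 x) (datB32 x) (datB32 x) (datB00 x) ?_)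
    (cornS_of (C := cB202E) (C0 := c0B) (j := (3 : Fin 9)) (k := (3 : Fin 9)) (lo := 0) (hi := 4) (W := 67108864) (N0 := 3) cB202E_q (sideB hx hx') gokB X (by norm_num) (by norm_num) (l := (0 : Fin 9)) rfl
      (gatB32 x) (gatB32 x) (gatB00 x) ?_)
    (thU (pinU hx hx')) rfl hκ (fun j q y => tC_eq j q y x) (esg_rng X.x0.le (by linarith [X.b, X.p0])).1 (mo_v x) le_rfl le_rfl
  · intro ρ a B hρ hd i h1 h2
    fin_cases i
    · exact corW_cert (G1 := gB3q2) (G2 := gB3q2) (Ga := gB0q0) (Gb := gB1q0) (D1 := dB3q2) (D2 := dB3q2) (Da := dB0q0) (Db := dB1q0) cB202E_ok B hρ hen (gatB32 x) (gatB32 x) (fun _ => gatB00 x) (fun _ => gatB10 x) (datB32 x) (datB32 x) (fun _ => datB00 x) (fun _ => datB10 x) hd hx hx' CW.B202E_330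
    · exact corW_cert (G1 := gB3q2) (G2 := gB3q2) (Ga := gB1q0) (Gb := gB2q0) (D1 := dB3q2) (D2 := dB3q2) (Da := dB1q0) (Db := dB2q0) cB202E_ok B hρ hen (gatB32 x) (gatB32 x) (fun _ => gatB10 x) (fun _ => gatB20 x) (datB32 x) (datB32 x) (fun _ => datB10 x) (fun _ => datB20 x) hd hx hx' CW.B202E_331
    · exact corW_cert (G1 := gB3q2) (G2 := gB3q2) (Ga := gB2q0) (Gb := gB3q0) (D1 := dB3q2) (D2 := dB3q2) (Da := dB2q0) (Db := dB3q0) cB202E_ok B hρ hen (gatB32 x) (gatB32 x) (fun _ => gatB20 x) (fun _ => gatB30 x) (datB32 x) (datB32 x) (fun _ => datB20 x) (fun _ => datB30 x) hd hx hx' CW.B202E_332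
    · exact corW_cert (G1 := gB3q2) (G2 := gB3q2) (Ga := gB3q0) (Gb := gB4q0) (D1 := dB3q2) (D2 := dB3q2) (Da := dB3q0) (Db := dB4q0) cB202E_ok B hρ hen (gatB32 x) (gatB32 x) (fun _ => gatB30 x) (fun _ => gatB40 x) (datB32 x) (datB32 x) (fun _ => datB30 x) (fun _ => datB40 x) hd hx hx' CW.B202E_333
    · exact corW_cert (G1 := gB3q2) (G2 := gB3q2) (Ga := gB4q0) (Gb := gB5q0) (D1 := dB3q2) (D2 := dB3q2) (Da := dB4q0) (Db := dB5q0) cB202E_ok B hρ hen (gatB32 x) (gatB32 x) (fun _ => gatB40 x) (fun h => absurd h (by decide)) (datB32 x) (datB32 x) (fun _ => datB40 x) (fun h => absurd h (by decide)) hd hx hx' CW.B202E_334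
    · exact absurd h2 (by norm_num)
    · exact absurd h2 (by norm_num)
    · exact absurd h2 (by norm_num)
  · intro ρ a B hρ hd i h1 h2
    fin_cases i
    · exact corT_cert (G1 := gB3q2) (G2 := gB3q2) (Ga := gB0q0) (Gb := gB1q0) cB202E_ok B hρ (gatB32 x) (gatB32 x) (fun _ => gatB00 x) (fun _ => gatB10 x) hd hx hx' CG.B202E_330
    · exact corT_cert (G1 := gB3q2) (G2 := gB3q2) (Ga := gB1q0) (Gb := gB2q0) cB202E_ok B hρ (gatB32 x) (gatB32 x) (fun _ => gatB10 x) (fun _ => gatB20 x) hd hx hx' CG.B202E_331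
    · exact corT_cert (G1 := gB3q2) (G2 := gB3q2) (Ga := gB2q0) (Gb := gB3q0) cB202E_ok B hρ (gatB32 x) (gatB32 x) (fun _ => gatB20 x) (fun _ => gatB30 x) hd hx hx' CG.B202E_332
    · exact corT_cert (G1 := gB3q2) (G2 := gB3q2) (Ga := gB3q0) (Gb := gB4q0) cB202E_ok B hρ (gatB32 x) (gatB32 x) (fun _ => gatB30 x) (fun _ => gatB40 x) hd hx hx' CG.B202E_333
    · exact corT_cert (G1 := gB3q2) (G2 := gB3q2) (Ga := gB4q0) (Gb := gB5q0) cB202E_ok B hρ (gatB32 x) (gatB32 x) (fun _ => gatB40 x) (fun h => absurd h (by decide)) hd hx hx' CG.B202E_334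
    · exact absurd h2 (by norm_num)
    · exact absurd h2 (by norm_num)
    · exact absurd h2 (by norm_num)

theorem altB_B202E_34 {κ x : ℝ} (hκ : κ * h0 = ken x) (hx : ((649613803 : ℕ) : ℝ) / S ≤ x) (hx' : x ≤ (((649613803 : ℕ) : ℝ) + (48318383 : ℕ)) / S) :
    AltEB 3 κ (eng.v x) (3 / 40) (tnt (h0 * x) (3 / 10)) PP tK tL tC pcB (scP esg pd) [⟨0, 1, 0, 67108864⟩, ⟨1, 0, 0, 67108864⟩, ⟨2, 1, 0, 67108864⟩] 2 0 2 3 4 (sgb true) (sgb false) x := by
  have X : XR 67108864 x := XR.of hx hx' (by norm_num) (by norm_num) (by norm_num) (by norm_num)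
  have hen : 0 < eng.v x := en_pos X.x0.le
  refine CornW.altB (C := cB202E) (j := (3 : Fin 9)) (k := (4 : Fin 9)) (Ef := esg) (pd := pd) (o := 3 / 40)
    (cornW_of (C := cB202E) (C0 := c0B) (En := eng) (mo := mog) (j := (3 : Fin 9)) (k := (4 : Fin 9)) (lo := 0) (hi := 4) (W := 67108864) (N0 := 3) cB202E_q (sideB hx hx') gokB (pinU hx hx') dokB X (by norm_num) (by norm_num) (l := (0 : Fin 9)) rfl
      (gatB32 x) (gatB42 x) (gatB00 x) (datB32 x) (datB42 x) (datB00 x) ?_)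
    (cornS_of (C := cB202E) (C0 := c0B) (j := (3 : Fin 9)) (k := (4 : Fin 9)) (lo := 0) (hi := 4) (W := 67108864) (N0 := 3) cB202E_q (sideB hx hx') gokB X (by norm_num) (by norm_num) (l := (0 : Fin 9)) rfl
      (gatB32 x) (gatB42 x) (gatB00 x) ?_)
    (thU (pinU hx hx')) rfl hκ (fun j q y => tC_eq j q y x) (esg_rng X.x0.le (by linarith [X.b, X.p0])).1 (mo_v x) le_rfl le_rfl
  · intro ρ a B hρ hd i h1 h2
    fin_cases i
    · exact corW_cert (G1 := gB3q2) (G2 := gB4q2) (Ga := gB0q0) (Gb := gB1q0) (D1 := dB3q2) (D2 := dB4q2) (Da := dB0q0) (Db := dB1q0) cB202E_ok B hρ hen (gatB32 x) (gatB42 x) (fun _ => gatB00 x) (fun _ => gatB10 x) (datB32 x) (datB42 x) (fun _ => datB00 x) (fun _ => datB10 x) hd hx hx' CW.B202E_340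
    · exact corW_cert (G1 := gB3q2) (G2 := gB4q2) (Ga := gB1q0) (Gb := gB2q0) (D1 := dB3q2) (D2 := dB4q2) (Da := dB1q0) (Db := dB2q0) cB202E_ok B hρ hen (gatB32 x) (gatB42 x) (fun _ => gatB10 x) (fun _ => gatB20 x) (datB32 x) (datB42 x) (fun _ => datB10 x) (fun _ => datB20 x) hd hx hx' CW.B202E_341
    · exact corW_cert (G1 := gB3q2) (G2 := gB4q2) (Ga := gB2q0) (Gb := gB3q0) (D1 := dB3q2) (D2 := dB4q2) (Da := dB2q0) (Db := dB3q0) cB202E_ok B hρ hen (gatB32 x) (gatB42 x) (fun _ => gatB20 x) (fun _ => gatB30 x) (datB32 x) (datB42 x) (fun _ => datB20 x) (fun _ => datB30 x) hd hx hx' CW.B202E_342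
    · exact corW_cert (G1 := gB3q2) (G2 := gB4q2) (Ga := gB3q0) (Gb := gB4q0) (D1 := dB3q2) (D2 := dB4q2) (Da := dB3q0) (Db := dB4q0) cB202E_ok B hρ hen (gatB32 x) (gatB42 x) (fun _ => gatB30 x) (fun _ => gatB40 x) (datB32 x) (datB42 x) (fun _ => datB30 x) (fun _ => datB40 x) hd hx hx' CW.B202E_343
    · exact corW_cert (G1 := gB3q2) (G2 := gB4q2) (Ga := gB4q0) (Gb := gB5q0) (D1 := dB3q2) (D2 := dB4q2) (Da := dB4q0) (Db := dB5q0) cB202E_ok B hρ hen (gatB32 x) (gatB42 x) (fun _ => gatB40 x) (fun h => absurd h (by decide)) (datB32 x) (datB42 x) (fun _ => datB40 x) (fun h => absurd h (by decide)) hd hx hx' CW.B202E_344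
    · exact absurd h2 (by norm_num)
    · exact absurd h2 (by norm_num)
    · exact absurd h2 (by norm_num)
  · intro ρ a B hρ hd i h1 h2
    fin_cases i
    · exact corT_cert (G1 := gB3q2) (G2 := gB4q2) (Ga := gB0q0) (Gb := gB1q0) cB202E_ok B hρ (gatB32 x) (gatB42 x) (fun _ => gatB00 x) (fun _ => gatB10 x) hd hx hx' CG.B202E_340
    · exact corT_cert (G1 := gB3q2) (G2 := gB4q2) (Ga := gB1q0) (Gb := gB2q0) cB202E_ok B hρ (gatB32 x) (gatB42 x) (fun _ => gatB10 x) (fun _ => gatB20 x) hd hx hx' CG.B202E_341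
    · exact corT_cert (G1 := gB3q2) (G2 := gB4q2) (Ga := gB2q0) (Gb := gB3q0) cB202E_ok B hρ (gatB32 x) (gatB42 x) (fun _ => gatB20 x) (fun _ => gatB30 x) hd hx hx' CG.B202E_342
    · exact corT_cert (G1 := gB3q2) (G2 := gB4q2) (Ga := gB3q0) (Gb := gB4q0) cB202E_ok B hρ (gatB32 x) (gatB42 x) (fun _ => gatB30 x) (fun _ => gatB40 x) hd hx hx' CG.B202E_343
    · exact corT_cert (G1 := gB3q2) (G2 := gB4q2) (Ga := gB4q0) (Gb := gB5q0) cB202E_ok B hρ (gatB32 x) (gatB42 x) (fun _ => gatB40 x) (fun h => absurd h (by decide)) hd hx hx' CG.B202E_344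
    · exact absurd h2 (by norm_num)
    · exact absurd h2 (by norm_num)
    · exact absurd h2 (by norm_num)

theorem altB_B202E_40 {κ x : ℝ} (hκ : κ * h0 = ken x) (hx : ((649613803 : ℕ) : ℝ) / S ≤ x) (hx' : x ≤ (((649613803 : ℕ) : ℝ) + (48318383 : ℕ)) / S) :
    AltEB 3 κ (eng.v x) (3 / 40) (tnt (h0 * x) (3 / 10)) PP tK tL tC pcB (scP esg pd) [⟨0, 1, 0, 67108864⟩, ⟨1, 0, 0, 67108864⟩, ⟨2, 1, 0, 67108864⟩] 2 0 2 4 0 (sgb true) (sgb false) x := by
  have X : XR 67108864 x := XR.of hx hx' (by norm_num) (by norm_num) (by norm_num) (by norm_num)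
  have hen : 0 < eng.v x := en_pos X.x0.le
  refine CornW.altB (C := cB202E) (j := (4 : Fin 9)) (k := (0 : Fin 9)) (Ef := esg) (pd := pd) (o := 3 / 40)
    (cornW_of (C := cB202E) (C0 := c0B) (En := eng) (mo := mog) (j := (4 : Fin 9)) (k := (0 : Fin 9)) (lo := 0) (hi := 4) (W := 67108864) (N0 := 3) cB202E_q (sideB hx hx') gokB (pinU hx hx') dokB X (by norm_num) (by norm_num) (l := (0 : Fin 9)) rfl
      (gatB42 x) (gatB02 x) (gatB00 x) (datB42 x) (datB02 x) (datB00 x) ?_)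
    (cornS_of (C := cB202E) (C0 := c0B) (j := (4 : Fin 9)) (k := (0 : Fin 9)) (lo := 0) (hi := 4) (W := 67108864) (N0 := 3) cB202E_q (sideB hx hx') gokB X (by norm_num) (by norm_num) (l := (0 : Fin 9)) rfl
      (gatB42 x) (gatB02 x) (gatB00 x) ?_)
    (thU (pinU hx hx')) rfl hκ (fun j q y => tC_eq j q y x) (esg_rng X.x0.le (by linarith [X.b, X.p0])).1 (mo_v x) le_rfl le_rfl
  · intro ρ a B hρ hd i h1 h2
    fin_cases i
    · exact corW_cert (G1 := gB4q2) (G2 := gB0q2) (Ga := gB0q0) (Gb := gB1q0) (D1 := dB4q2) (D2 := dB0q2) (Da := dB0q0) (Db := dB1q0) cB202E_ok B hρ hen (gatB42 x) (gatB02 x) (fun _ => gatB00 x) (fun _ => gatB10 x) (datB42 x) (datB02 x) (fun _ => datB00 x) (fun _ => datB10 x) hd hx hx' CW.B202E_400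
    · exact corW_cert (G1 := gB4q2) (G2 := gB0q2) (Ga := gB1q0) (Gb := gB2q0) (D1 := dB4q2) (D2 := dB0q2) (Da := dB1q0) (Db := dB2q0) cB202E_ok B hρ hen (gatB42 x) (gatB02 x) (fun _ => gatB10 x) (fun _ => gatB20 x) (datB42 x) (datB02 x) (fun _ => datB10 x) (fun _ => datB20 x) hd hx hx' CW.B202E_401
    · exact corW_cert (G1 := gB4q2) (G2 := gB0q2) (Ga := gB2q0) (Gb := gB3q0) (D1 := dB4q2) (D2 := dB0q2) (Da := dB2q0) (Db := dB3q0) cB202E_ok B hρ hen (gatB42 x) (gatB02 x) (fun _ => gatB20 x) (fun _ => gatB30 x) (datB42 x) (datB02 x) (fun _ => datB20 x) (fun _ => datB30 x) hd hx hx' CW.B202E_402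
    · exact corW_cert (G1 := gB4q2) (G2 := gB0q2) (Ga := gB3q0) (Gb := gB4q0) (D1 := dB4q2) (D2 := dB0q2) (Da := dB3q0) (Db := dB4q0) cB202E_ok B hρ hen (gatB42 x) (gatB02 x) (fun _ => gatB30 x) (fun _ => gatB40 x) (datB42 x) (datB02 x) (fun _ => datB30 x) (fun _ => datB40 x) hd hx hx' CW.B202E_403
    · exact corW_cert (G1 := gB4q2) (G2 := gB0q2) (Ga := gB4q0) (Gb := gB5q0) (D1 := dB4q2) (D2 := dB0q2) (Da := dB4q0) (Db := dB5q0) cB202E_ok B hρ hen (gatB42 x) (gatB02 x) (fun _ => gatB40 x) (fun h => absurd h (by decide)) (datB42 x) (datB02 x) (fun _ => datB40 x) (fun h => absurd h (by decide)) hd hx hx' CW.B202E_404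
    · exact absurd h2 (by norm_num)
    · exact absurd h2 (by norm_num)
    · exact absurd h2 (by norm_num)
  · intro ρ a B hρ hd i h1 h2
    fin_cases i
    · exact corT_cert (G1 := gB4q2) (G2 := gB0q2) (Ga := gB0q0) (Gb := gB1q0) cB202E_ok B hρ (gatB42 x) (gatB02 x) (fun _ => gatB00 x) (fun _ => gatB10 x) hd hx hx' CG.B202E_400
    · exact corT_cert (G1 := gB4q2) (G2 := gB0q2) (Ga := gB1q0) (Gb := gB2q0) cB202E_ok B hρ (gatB42 x) (gatB02 x) (fun _ => gatB10 x) (fun _ => gatB20 x) hd hx hx' CG.B202E_401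
    · exact corT_cert (G1 := gB4q2) (G2 := gB0q2) (Ga := gB2q0) (Gb := gB3q0) cB202E_ok B hρ (gatB42 x) (gatB02 x) (fun _ => gatB20 x) (fun _ => gatB30 x) hd hx hx' CG.B202E_402
    · exact corT_cert (G1 := gB4q2) (G2 := gB0q2) (Ga := gB3q0) (Gb := gB4q0) cB202E_ok B hρ (gatB42 x) (gatB02 x) (fun _ => gatB30 x) (fun _ => gatB40 x) hd hx hx' CG.B202E_403
    · exact corT_cert (G1 := gB4q2) (G2 := gB0q2) (Ga := gB4q0) (Gb := gB5q0) cB202E_ok B hρ (gatB42 x) (gatB02 x) (fun _ => gatB40 x) (fun h => absurd h (by decide)) hd hx hx' CG.B202E_404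
    · exact absurd h2 (by norm_num)
    · exact absurd h2 (by norm_num)
    · exact absurd h2 (by norm_num)

theorem altB_B202E_41 {κ x : ℝ} (hκ : κ * h0 = ken x) (hx : ((649613803 : ℕ) : ℝ) / S ≤ x) (hx' : x ≤ (((649613803 : ℕ) : ℝ) + (48318383 : ℕ)) / S) :
    AltEB 3 κ (eng.v x) (3 / 40) (tnt (h0 * x) (3 / 10)) PP tK tL tC pcB (scP esg pd) [⟨0, 1, 0, 67108864⟩, ⟨1, 0, 0, 67108864⟩, ⟨2, 1, 0, 67108864⟩] 2 0 2 4 1 (sgb true) (sgb false) x := by
  have X : XR 67108864 x := XR.of hx hx' (by norm_num) (by norm_num) (by norm_num) (by norm_num)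
  have hen : 0 < eng.v x := en_pos X.x0.le
  refine CornW.altB (C := cB202E) (j := (4 : Fin 9)) (k := (1 : Fin 9)) (Ef := esg) (pd := pd) (o := 3 / 40)
    (cornW_of (C := cB202E) (C0 := c0B) (En := eng) (mo := mog) (j := (4 : Fin 9)) (k := (1 : Fin 9)) (lo := 0) (hi := 4) (W := 67108864) (N0 := 3) cB202E_q (sideB hx hx') gokB (pinU hx hx') dokB X (by norm_num) (by norm_num) (l := (0 : Fin 9)) rfl
      (gatB42 x) (gatB12 x) (gatB00 x) (datB42 x) (datB12 x) (datB00 x) ?_)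
    (cornS_of (C := cB202E) (C0 := c0B) (j := (4 : Fin 9)) (k := (1 : Fin 9)) (lo := 0) (hi := 4) (W := 67108864) (N0 := 3) cB202E_q (sideB hx hx') gokB X (by norm_num) (by norm_num) (l := (0 : Fin 9)) rfl
      (gatB42 x) (gatB12 x) (gatB00 x) ?_)
    (thU (pinU hx hx')) rfl hκ (fun j q y => tC_eq j q y x) (esg_rng X.x0.le (by linarith [X.b, X.p0])).1 (mo_v x) le_rfl le_rfl
  · intro ρ a B hρ hd i h1 h2
    fin_cases i
    · exact corW_cert (G1 := gB4q2) (G2 := gB1q2) (Ga := gB0q0) (Gb := gB1q0) (D1 := dB4q2) (D2 := dB1q2) (Da := dB0q0) (Db := dB1q0) cB202E_ok B hρ hen (gatB42 x) (gatB12 x) (fun _ => gatB00 x) (fun _ => gatB10 x) (datB42 x) (datB12 x) (fun _ => datB00 x) (fun _ => datB10 x) hd hx hx' CW.B202E_410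
    · exact corW_cert (G1 := gB4q2) (G2 := gB1q2) (Ga := gB1q0) (Gb := gB2q0) (D1 := dB4q2) (D2 := dB1q2) (Da := dB1q0) (Db := dB2q0) cB202E_ok B hρ hen (gatB42 x) (gatB12 x) (fun _ => gatB10 x) (fun _ => gatB20 x) (datB42 x) (datB12 x) (fun _ => datB10 x) (fun _ => datB20 x) hd hx hx' CW.B202E_411
    · exact corW_cert (G1 := gB4q2) (G2 := gB1q2) (Ga := gB2q0) (Gb := gB3q0) (D1 := dB4q2) (D2 := dB1q2) (Da := dB2q0) (Db := dB3q0) cB202E_ok B hρ hen (gatB42 x) (gatB12 x) (fun _ => gatB20 x) (fun _ => gatB30 x) (datB42 x) (datB12 x) (fun _ => datB20 x) (fun _ => datB30 x) hd hx hx' CW.B202E_412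
    · exact corW_cert (G1 := gB4q2) (G2 := gB1q2) (Ga := gB3q0) (Gb := gB4q0) (D1 := dB4q2) (D2 := dB1q2) (Da := dB3q0) (Db := dB4q0) cB202E_ok B hρ hen (gatB42 x) (gatB12 x) (fun _ => gatB30 x) (fun _ => gatB40 x) (datB42 x) (datB12 x) (fun _ => datB30 x) (fun _ => datB40 x) hd hx hx' CW.B202E_413
    · exact corW_cert (G1 := gB4q2) (G2 := gB1q2) (Ga := gB4q0) (Gb := gB5q0) (D1 := dB4q2) (D2 := dB1q2) (Da := dB4q0) (Db := dB5q0) cB202E_ok B hρ hen (gatB42 x) (gatB12 x) (fun _ => gatB40 x) (fun h => absurd h (by decide)) (datB42 x) (datB12 x) (fun _ => datB40 x) (fun h => absurd h (by decide)) hd hx hx' CW.B202E_414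
    · exact absurd h2 (by norm_num)
    · exact absurd h2 (by norm_num)
    · exact absurd h2 (by norm_num)
  · intro ρ a B hρ hd i h1 h2
    fin_cases i
    · exact corT_cert (G1 := gB4q2) (G2 := gB1q2) (Ga := gB0q0) (Gb := gB1q0) cB202E_ok B hρ (gatB42 x) (gatB12 x) (fun _ => gatB00 x) (fun _ => gatB10 x) hd hx hx' CG.B202E_410
    · exact corT_cert (G1 := gB4q2) (G2 := gB1q2) (Ga := gB1q0) (Gb := gB2q0) cB202E_ok B hρ (gatB42 x) (gatB12 x) (fun _ => gatB10 x) (fun _ => gatB20 x) hd hx hx' CG.B202E_411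
    · exact corT_cert (G1 := gB4q2) (G2 := gB1q2) (Ga := gB2q0) (Gb := gB3q0) cB202E_ok B hρ (gatB42 x) (gatB12 x) (fun _ => gatB20 x) (fun _ => gatB30 x) hd hx hx' CG.B202E_412
    · exact corT_cert (G1 := gB4q2) (G2 := gB1q2) (Ga := gB3q0) (Gb := gB4q0) cB202E_ok B hρ (gatB42 x) (gatB12 x) (fun _ => gatB30 x) (fun _ => gatB40 x) hd hx hx' CG.B202E_413
    · exact corT_cert (G1 := gB4q2) (G2 := gB1q2) (Ga := gB4q0) (Gb := gB5q0) cB202E_ok B hρ (gatB42 x) (gatB12 x) (fun _ => gatB40 x) (fun h => absurd h (by decide)) hd hx hx' CG.B202E_414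
    · exact absurd h2 (by norm_num)
    · exact absurd h2 (by norm_num)
    · exact absurd h2 (by norm_num)

theorem altB_B202E_42 {κ x : ℝ} (hκ : κ * h0 = ken x) (hx : ((649613803 : ℕ) : ℝ) / S ≤ x) (hx' : x ≤ (((649613803 : ℕ) : ℝ) + (48318383 : ℕ)) / S) :
    AltEB 3 κ (eng.v x) (3 / 40) (tnt (h0 * x) (3 / 10)) PP tK tL tC pcB (scP esg pd) [⟨0, 1, 0, 67108864⟩, ⟨1, 0, 0, 67108864⟩, ⟨2, 1, 0, 67108864⟩] 2 0 2 4 2 (sgb true) (sgb false) x := by
  have X : XR 67108864 x := XR.of hx hx' (by norm_num) (by norm_num) (by norm_num) (by norm_num)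
  have hen : 0 < eng.v x := en_pos X.x0.le
  refine CornW.altB (C := cB202E) (j := (4 : Fin 9)) (k := (2 : Fin 9)) (Ef := esg) (pd := pd) (o := 3 / 40)
    (cornW_of (C := cB202E) (C0 := c0B) (En := eng) (mo := mog) (j := (4 : Fin 9)) (k := (2 : Fin 9)) (lo := 0) (hi := 4) (W := 67108864) (N0 := 3) cB202E_q (sideB hx hx') gokB (pinU hx hx') dokB X (by norm_num) (by norm_num) (l := (0 : Fin 9)) rfl
      (gatB42 x) (gatB22 x) (gatB00 x) (datB42 x) (datB22 x) (datB00 x) ?_)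
    (cornS_of (C := cB202E) (C0 := c0B) (j := (4 : Fin 9)) (k := (2 : Fin 9)) (lo := 0) (hi := 4) (W := 67108864) (N0 := 3) cB202E_q (sideB hx hx') gokB X (by norm_num) (by norm_num) (l := (0 : Fin 9)) rfl
      (gatB42 x) (gatB22 x) (gatB00 x) ?_)
    (thU (pinU hx hx')) rfl hκ (fun j q y => tC_eq j q y x) (esg_rng X.x0.le (by linarith [X.b, X.p0])).1 (mo_v x) le_rfl le_rfl
  · intro ρ a B hρ hd i h1 h2
    fin_cases i
    · exact corW_cert (G1 := gB4q2) (G2 := gB2q2) (Ga := gB0q0) (Gb := gB1q0) (D1 := dB4q2) (D2 := dB2q2) (Da := dB0q0) (Db := dB1q0) cB202E_ok B hρ hen (gatB42 x) (gatB22 x) (fun _ => gatB00 x) (fun _ => gatB10 x) (datB42 x) (datB22 x) (fun _ => datB00 x) (fun _ => datB10 x) hd hx hx' CW.B202E_420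
    · exact corW_cert (G1 := gB4q2) (G2 := gB2q2) (Ga := gB1q0) (Gb := gB2q0) (D1 := dB4q2) (D2 := dB2q2) (Da := dB1q0) (Db := dB2q0) cB202E_ok B hρ hen (gatB42 x) (gatB22 x) (fun _ => gatB10 x) (fun _ => gatB20 x) (datB42 x) (datB22 x) (fun _ => datB10 x) (fun _ => datB20 x) hd hx hx' CW.B202E_421
    · exact corW_cert (G1 := gB4q2) (G2 := gB2q2) (Ga := gB2q0) (Gb := gB3q0) (D1 := dB4q2) (D2 := dB2q2) (Da := dB2q0) (Db := dB3q0) cB202E_ok B hρ hen (gatB42 x) (gatB22 x) (fun _ => gatB20 x) (fun _ => gatB30 x) (datB42 x) (datB22 x) (fun _ => datB20 x) (fun _ => datB30 x) hd hx hx' CW.B202E_422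
    · exact corW_cert (G1 := gB4q2) (G2 := gB2q2) (Ga := gB3q0) (Gb := gB4q0) (D1 := dB4q2) (D2 := dB2q2) (Da := dB3q0) (Db := dB4q0) cB202E_ok B hρ hen (gatB42 x) (gatB22 x) (fun _ => gatB30 x) (fun _ => gatB40 x) (datB42 x) (datB22 x) (fun _ => datB30 x) (fun _ => datB40 x) hd hx hx' CW.B202E_423
    · exact corW_cert (G1 := gB4q2) (G2 := gB2q2) (Ga := gB4q0) (Gb := gB5q0) (D1 := dB4q2) (D2 := dB2q2) (Da := dB4q0) (Db := dB5q0) cB202E_ok B hρ hen (gatB42 x) (gatB22 x) (fun _ => gatB40 x) (fun h => absurd h (by decide)) (datB42 x) (datB22 x) (fun _ => datB40 x) (fun h => absurd h (by decide)) hd hx hx' CW.B202E_424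
    · exact absurd h2 (by norm_num)
    · exact absurd h2 (by norm_num)
    · exact absurd h2 (by norm_num)
  · intro ρ a B hρ hd i h1 h2
    fin_cases i
    · exact corT_cert (G1 := gB4q2) (G2 := gB2q2) (Ga := gB0q0) (Gb := gB1q0) cB202E_ok B hρ (gatB42 x) (gatB22 x) (fun _ => gatB00 x) (fun _ => gatB10 x) hd hx hx' CG.B202E_420
    · exact corT_cert (G1 := gB4q2) (G2 := gB2q2) (Ga := gB1q0) (Gb := gB2q0) cB202E_ok B hρ (gatB42 x) (gatB22 x) (fun _ => gatB10 x) (fun _ => gatB20 x) hd hx hx' CG.B202E_421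
    · exact corT_cert (G1 := gB4q2) (G2 := gB2q2) (Ga := gB2q0) (Gb := gB3q0) cB202E_ok B hρ (gatB42 x) (gatB22 x) (fun _ => gatB20 x) (fun _ => gatB30 x) hd hx hx' CG.B202E_422
    · exact corT_cert (G1 := gB4q2) (G2 := gB2q2) (Ga := gB3q0) (Gb := gB4q0) cB202E_ok B hρ (gatB42 x) (gatB22 x) (fun _ => gatB30 x) (fun _ => gatB40 x) hd hx hx' CG.B202E_423
    · exact corT_cert (G1 := gB4q2) (G2 := gB2q2) (Ga := gB4q0) (Gb := gB5q0) cB202E_ok B hρ (gatB42 x) (gatB22 x) (fun _ => gatB40 x) (fun h => absurd h (by decide)) hd hx hx' CG.B202E_424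
    · exact absurd h2 (by norm_num)
    · exact absurd h2 (by norm_num)
    · exact absurd h2 (by norm_num)

theorem altB_B202E_43 {κ x : ℝ} (hκ : κ * h0 = ken x) (hx : ((649613803 : ℕ) : ℝ) / S ≤ x) (hx' : x ≤ (((649613803 : ℕ) : ℝ) + (48318383 : ℕ)) / S) :
    AltEB 3 κ (eng.v x) (3 / 40) (tnt (h0 * x) (3 / 10)) PP tK tL tC pcB (scP esg pd) [⟨0, 1, 0, 67108864⟩, ⟨1, 0, 0, 67108864⟩, ⟨2, 1, 0, 67108864⟩] 2 0 2 4 3 (sgb true) (sgb false) x := by
  have X : XR 67108864 x := XR.of hx hx' (by norm_num) (by norm_num) (by norm_num) (by norm_num)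
  have hen : 0 < eng.v x := en_pos X.x0.le
  refine CornW.altB (C := cB202E) (j := (4 : Fin 9)) (k := (3 : Fin 9)) (Ef := esg) (pd := pd) (o := 3 / 40)
    (cornW_of (C := cB202E) (C0 := c0B) (En := eng) (mo := mog) (j := (4 : Fin 9)) (k := (3 : Fin 9)) (lo := 0) (hi := 4) (W := 67108864) (N0 := 3) cB202E_q (sideB hx hx') gokB (pinU hx hx') dokB X (by norm_num) (by norm_num) (l := (0 : Fin 9)) rfl
      (gatB42 x) (gatB32 x) (gatB00 x) (datB42 x) (datB32 x) (datB00 x) ?_)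
    (cornS_of (C := cB202E) (C0 := c0B) (j := (4 : Fin 9)) (k := (3 : Fin 9)) (lo := 0) (hi := 4) (W := 67108864) (N0 := 3) cB202E_q (sideB hx hx') gokB X (by norm_num) (by norm_num) (l := (0 : Fin 9)) rfl
      (gatB42 x) (gatB32 x) (gatB00 x) ?_)
    (thU (pinU hx hx')) rfl hκ (fun j q y => tC_eq j q y x) (esg_rng X.x0.le (by linarith [X.b, X.p0])).1 (mo_v x) le_rfl le_rfl
  · intro ρ a B hρ hd i h1 h2
    fin_cases i
    · exact corW_cert (G1 := gB4q2) (G2 := gB3q2) (Ga := gB0q0) (Gb := gB1q0) (D1 := dB4q2) (D2 := dB3q2) (Da := dB0q0) (Db := dB1q0) cB202E_ok B hρ hen (gatB42 x) (gatB32 x) (fun _ => gatB00 x) (fun _ => gatB10 x) (datB42 x) (datB32 x) (fun _ => datB00 x) (fun _ => datB10 x) hd hx hx' CW.B202E_430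
    · exact corW_cert (G1 := gB4q2) (G2 := gB3q2) (Ga := gB1q0) (Gb := gB2q0) (D1 := dB4q2) (D2 := dB3q2) (Da := dB1q0) (Db := dB2q0) cB202E_ok B hρ hen (gatB42 x) (gatB32 x) (fun _ => gatB10 x) (fun _ => gatB20 x) (datB42 x) (datB32 x) (fun _ => datB10 x) (fun _ => datB20 x) hd hx hx' CW.B202E_431
    · exact corW_cert (G1 := gB4q2) (G2 := gB3q2) (Ga := gB2q0) (Gb := gB3q0) (D1 := dB4q2) (D2 := dB3q2) (Da := dB2q0) (Db := dB3q0) cB202E_ok B hρ hen (gatB42 x) (gatB32 x) (fun _ => gatB20 x) (fun _ => gatB30 x) (datB42 x) (datB32 x) (fun _ => datB20 x) (fun _ => datB30 x) hd hx hx' CW.B202E_432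
    · exact corW_cert (G1 := gB4q2) (G2 := gB3q2) (Ga := gB3q0) (Gb := gB4q0) (D1 := dB4q2) (D2 := dB3q2) (Da := dB3q0) (Db := dB4q0) cB202E_ok B hρ hen (gatB42 x) (gatB32 x) (fun _ => gatB30 x) (fun _ => gatB40 x) (datB42 x) (datB32 x) (fun _ => datB30 x) (fun _ => datB40 x) hd hx hx' CW.B202E_433
    · exact corW_cert (G1 := gB4q2) (G2 := gB3q2) (Ga := gB4q0) (Gb := gB5q0) (D1 := dB4q2) (D2 := dB3q2) (Da := dB4q0) (Db := dB5q0) cB202E_ok B hρ hen (gatB42 x) (gatB32 x) (fun _ => gatB40 x) (fun h => absurd h (by decide)) (datB42 x) (datB32 x) (fun _ => datB40 x) (fun h => absurd h (by decide)) hd hx hx' CW.B202E_434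
    · exact absurd h2 (by norm_num)
    · exact absurd h2 (by norm_num)
    · exact absurd h2 (by norm_num)
  · intro ρ a B hρ hd i h1 h2
    fin_cases i
    · exact corT_cert (G1 := gB4q2) (G2 := gB3q2) (Ga := gB0q0) (Gb := gB1q0) cB202E_ok B hρ (gatB42 x) (gatB32 x) (fun _ => gatB00 x) (fun _ => gatB10 x) hd hx hx' CG.B202E_430
    · exact corT_cert (G1 := gB4q2) (G2 := gB3q2) (Ga := gB1q0) (Gb := gB2q0) cB202E_ok B hρ (gatB42 x) (gatB32 x) (fun _ => gatB10 x) (fun _ => gatB20 x) hd hx hx' CG.B202E_431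
    · exact corT_cert (G1 := gB4q2) (G2 := gB3q2) (Ga := gB2q0) (Gb := gB3q0) cB202E_ok B hρ (gatB42 x) (gatB32 x) (fun _ => gatB20 x) (fun _ => gatB30 x) hd hx hx' CG.B202E_432
    · exact corT_cert (G1 := gB4q2) (G2 := gB3q2) (Ga := gB3q0) (Gb := gB4q0) cB202E_ok B hρ (gatB42 x) (gatB32 x) (fun _ => gatB30 x) (fun _ => gatB40 x) hd hx hx' CG.B202E_433
    · exact corT_cert (G1 := gB4q2) (G2 := gB3q2) (Ga := gB4q0) (Gb := gB5q0) cB202E_ok B hρ (gatB42 x) (gatB32 x) (fun _ => gatB40 x) (fun h => absurd h (by decide)) hd hx hx' CG.B202E_434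
    · exact absurd h2 (by norm_num)
    · exact absurd h2 (by norm_num)
    · exact absurd h2 (by norm_num)

theorem altB_B202E_44 {κ x : ℝ} (hκ : κ * h0 = ken x) (hx : ((649613803 : ℕ) : ℝ) / S ≤ x) (hx' : x ≤ (((649613803 : ℕ) : ℝ) + (48318383 : ℕ)) / S) :
    AltEB 3 κ (eng.v x) (3 / 40) (tnt (h0 * x) (3 / 10)) PP tK tL tC pcB (scP esg pd) [⟨0, 1, 0, 67108864⟩, ⟨1, 0, 0, 67108864⟩, ⟨2, 1, 0, 67108864⟩] 2 0 2 4 4 (sgb true) (sgb false) x := by
  have X : XR 67108864 x := XR.of hx hx' (by norm_num) (by norm_num) (by norm_num) (by norm_num)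
  have hen : 0 < eng.v x := en_pos X.x0.le
  refine CornW.altB (C := cB202E) (j := (4 : Fin 9)) (k := (4 : Fin 9)) (Ef := esg) (pd := pd) (o := 3 / 40)
    (cornW_of (C := cB202E) (C0 := c0B) (En := eng) (mo := mog) (j := (4 : Fin 9)) (k := (4 : Fin 9)) (lo := 0) (hi := 4) (W := 67108864) (N0 := 3) cB202E_q (sideB hx hx') gokB (pinU hx hx') dokB X (by norm_num) (by norm_num) (l := (0 : Fin 9)) rfl
      (gatB42 x) (gatB42 x) (gatB00 x) (datB42 x) (datB42 x) (datB00 x) ?_)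
    (cornS_of (C := cB202E) (C0 := c0B) (j := (4 : Fin 9)) (k := (4 : Fin 9)) (lo := 0) (hi := 4) (W := 67108864) (N0 := 3) cB202E_q (sideB hx hx') gokB X (by norm_num) (by norm_num) (l := (0 : Fin 9)) rfl
      (gatB42 x) (gatB42 x) (gatB00 x) ?_)
    (thU (pinU hx hx')) rfl hκ (fun j q y => tC_eq j q y x) (esg_rng X.x0.le (by linarith [X.b, X.p0])).1 (mo_v x) le_rfl le_rfl
  · intro ρ a B hρ hd i h1 h2
    fin_cases i
    · exact corW_cert (G1 := gB4q2) (G2 := gB4q2) (Ga := gB0q0) (Gb := gB1q0) (D1 := dB4q2) (D2 := dB4q2) (Da := dB0q0) (Db := dB1q0) cB202E_ok B hρ hen (gatB42 x) (gatB42 x) (fun _ => gatB00 x) (fun _ => gatB10 x) (datB42 x) (datB42 x) (fun _ => datB00 x) (fun _ => datB10 x) hd hx hx' CW.B202E_440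
    · exact corW_cert (G1 := gB4q2) (G2 := gB4q2) (Ga := gB1q0) (Gb := gB2q0) (D1 := dB4q2) (D2 := dB4q2) (Da := dB1q0) (Db := dB2q0) cB202E_ok B hρ hen (gatB42 x) (gatB42 x) (fun _ => gatB10 x) (fun _ => gatB20 x) (datB42 x) (datB42 x) (fun _ => datB10 x) (fun _ => datB20 x) hd hx hx' CW.B202E_441
    · exact corW_cert (G1 := gB4q2) (G2 := gB4q2) (Ga := gB2q0) (Gb := gB3q0) (D1 := dB4q2) (D2 := dB4q2) (Da := dB2q0) (Db := dB3q0) cB202E_ok B hρ hen (gatB42 x) (gatB42 x) (fun _ => gatB20 x) (fun _ => gatB30 x) (datB42 x) (datB42 x) (fun _ => datB20 x) (fun _ => datB30 x) hd hx hx' CW.B202E_442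
    · exact corW_cert (G1 := gB4q2) (G2 := gB4q2) (Ga := gB3q0) (Gb := gB4q0) (D1 := dB4q2) (D2 := dB4q2) (Da := dB3q0) (Db := dB4q0) cB202E_ok B hρ hen (gatB42 x) (gatB42 x) (fun _ => gatB30 x) (fun _ => gatB40 x) (datB42 x) (datB42 x) (fun _ => datB30 x) (fun _ => datB40 x) hd hx hx' CW.B202E_443
    · exact corW_cert (G1 := gB4q2) (G2 := gB4q2) (Ga := gB4q0) (Gb := gB5q0) (D1 := dB4q2) (D2 := dB4q2) (Da := dB4q0) (Db := dB5q0) cB202E_ok B hρ hen (gatB42 x) (gatB42 x) (fun _ => gatB40 x) (fun h => absurd h (by decide)) (datB42 x) (datB42 x) (fun _ => datB40 x) (fun h => absurd h (by decide)) hd hx hx' CW.B202E_444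
    · exact absurd h2 (by norm_num)
    · exact absurd h2 (by norm_num)
    · exact absurd h2 (by norm_num)
  · intro ρ a B hρ hd i h1 h2
    fin_cases i
    · exact corT_cert (G1 := gB4q2) (G2 := gB4q2) (Ga := gB0q0) (Gb := gB1q0) cB202E_ok B hρ (gatB42 x) (gatB42 x) (fun _ => gatB00 x) (fun _ => gatB10 x) hd hx hx' CG.B202E_440
    · exact corT_cert (G1 := gB4q2) (G2 := gB4q2) (Ga := gB1q0) (Gb := gB2q0) cB202E_ok B hρ (gatB42 x) (gatB42 x) (fun _ => gatB10 x) (fun _ => gatB20 x) hd hx hx' CG.B202E_441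
    · exact corT_cert (G1 := gB4q2) (G2 := gB4q2) (Ga := gB2q0) (Gb := gB3q0) cB202E_ok B hρ (gatB42 x) (gatB42 x) (fun _ => gatB20 x) (fun _ => gatB30 x) hd hx hx' CG.B202E_442
    · exact corT_cert (G1 := gB4q2) (G2 := gB4q2) (Ga := gB3q0) (Gb := gB4q0) cB202E_ok B hρ (gatB42 x) (gatB42 x) (fun _ => gatB30 x) (fun _ => gatB40 x) hd hx hx' CG.B202E_443
    · exact corT_cert (G1 := gB4q2) (G2 := gB4q2) (Ga := gB4q0) (Gb := gB5q0) cB202E_ok B hρ (gatB42 x) (gatB42 x) (fun _ => gatB40 x) (fun h => absurd h (by decide)) hd hx hx' CG.B202E_444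
    · exact absurd h2 (by norm_num)
    · exact absurd h2 (by norm_num)
    · exact absurd h2 (by norm_num)

theorem altB_B202L_80 {κ x : ℝ} (hκ : κ * h0 = ken x) (hx : ((649613803 : ℕ) : ℝ) / S ≤ x) (hx' : x ≤ (((649613803 : ℕ) : ℝ) + (48318383 : ℕ)) / S) :
    AltEB 3 κ (eng.v x) (3 / 40) (tnt (h0 * x) (3 / 10)) PP tK tL tC pcB (scP esg pd) [⟨0, 1, 0, 67108864⟩, ⟨1, 0, 0, 67108864⟩, ⟨2, 1, 0, 67108864⟩] 2 0 2 8 0 (sgb true) (sgb true) x := by
  have X : XR 67108864 x := XR.of hx hx' (by norm_num) (by norm_num) (by norm_num) (by norm_num)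
  have hen : 0 < eng.v x := en_pos X.x0.le
  refine CornW.altB (C := cB202L) (j := (8 : Fin 9)) (k := (0 : Fin 9)) (Ef := esg) (pd := pd) (o := 3 / 40)
    (cornW_of (C := cB202L) (C0 := c0B) (En := eng) (mo := mog) (j := (8 : Fin 9)) (k := (0 : Fin 9)) (lo := 0) (hi := 4) (W := 67108864) (N0 := 3) cB202L_q (sideB hx hx') gokB (pinU hx hx') dokB X (by norm_num) (by norm_num) (l := (0 : Fin 9)) rfl
      (gatB82 x) (gatB02 x) (gatB00 x) (datB82 x) (datB02 x) (datB00 x) ?_)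
    (cornS_of (C := cB202L) (C0 := c0B) (j := (8 : Fin 9)) (k := (0 : Fin 9)) (lo := 0) (hi := 4) (W := 67108864) (N0 := 3) cB202L_q (sideB hx hx') gokB X (by norm_num) (by norm_num) (l := (0 : Fin 9)) rfl
      (gatB82 x) (gatB02 x) (gatB00 x) ?_)
    (thU (pinU hx hx')) rfl hκ (fun j q y => tC_eq j q y x) (esg_rng X.x0.le (by linarith [X.b, X.p0])).1 (mo_v x) le_rfl le_rfl
  · intro ρ a B hρ hd i h1 h2
    fin_cases i
    · exact corW_cert (G1 := gB8q2) (G2 := gB0q2) (Ga := gB0q0) (Gb := gB1q0) (D1 := dB8q2) (D2 := dB0q2) (Da := dB0q0) (Db := dB1q0) cB202L_ok B hρ hen (gatB82 x) (gatB02 x) (fun _ => gatB00 x) (fun _ => gatB10 x) (datB82 x) (datB02 x) (fun _ => datB00 x) (fun _ => datB10 x) hd hx hx' CW.B202L_800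
    · exact corW_cert (G1 := gB8q2) (G2 := gB0q2) (Ga := gB1q0) (Gb := gB2q0) (D1 := dB8q2) (D2 := dB0q2) (Da := dB1q0) (Db := dB2q0) cB202L_ok B hρ hen (gatB82 x) (gatB02 x) (fun _ => gatB10 x) (fun _ => gatB20 x) (datB82 x) (datB02 x) (fun _ => datB10 x) (fun _ => datB20 x) hd hx hx' CW.B202L_801
    · exact corW_cert (G1 := gB8q2) (G2 := gB0q2) (Ga := gB2q0) (Gb := gB3q0) (D1 := dB8q2) (D2 := dB0q2) (Da := dB2q0) (Db := dB3q0) cB202L_ok B hρ hen (gatB82 x) (gatB02 x) (fun _ => gatB20 x) (fun _ => gatB30 x) (datB82 x) (datB02 x) (fun _ => datB20 x) (fun _ => datB30 x) hd hx hx' CW.B202L_802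
    · exact corW_cert (G1 := gB8q2) (G2 := gB0q2) (Ga := gB3q0) (Gb := gB4q0) (D1 := dB8q2) (D2 := dB0q2) (Da := dB3q0) (Db := dB4q0) cB202L_ok B hρ hen (gatB82 x) (gatB02 x) (fun _ => gatB30 x) (fun _ => gatB40 x) (datB82 x) (datB02 x) (fun _ => datB30 x) (fun _ => datB40 x) hd hx hx' CW.B202L_803
    · exact corW_cert (G1 := gB8q2) (G2 := gB0q2) (Ga := gB4q0) (Gb := gB5q0) (D1 := dB8q2) (D2 := dB0q2) (Da := dB4q0) (Db := dB5q0) cB202L_ok B hρ hen (gatB82 x) (gatB02 x) (fun _ => gatB40 x) (fun h => absurd h (by decide)) (datB82 x) (datB02 x) (fun _ => datB40 x) (fun h => absurd h (by decide)) hd hx hx' CW.B202L_804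
    · exact absurd h2 (by norm_num)
    · exact absurd h2 (by norm_num)
    · exact absurd h2 (by norm_num)
  · intro ρ a B hρ hd i h1 h2
    fin_cases i
    · exact corT_cert (G1 := gB8q2) (G2 := gB0q2) (Ga := gB0q0) (Gb := gB1q0) cB202L_ok B hρ (gatB82 x) (gatB02 x) (fun _ => gatB00 x) (fun _ => gatB10 x) hd hx hx' CG.B202L_800
    · exact corT_cert (G1 := gB8q2) (G2 := gB0q2) (Ga := gB1q0) (Gb := gB2q0) cB202L_ok B hρ (gatB82 x) (gatB02 x) (fun _ => gatB10 x) (fun _ => gatB20 x) hd hx hx' CG.B202L_801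
    · exact corT_cert (G1 := gB8q2) (G2 := gB0q2) (Ga := gB2q0) (Gb := gB3q0) cB202L_ok B hρ (gatB82 x) (gatB02 x) (fun _ => gatB20 x) (fun _ => gatB30 x) hd hx hx' CG.B202L_802
    · exact corT_cert (G1 := gB8q2) (G2 := gB0q2) (Ga := gB3q0) (Gb := gB4q0) cB202L_ok B hρ (gatB82 x) (gatB02 x) (fun _ => gatB30 x) (fun _ => gatB40 x) hd hx hx' CG.B202L_803
    · exact corT_cert (G1 := gB8q2) (G2 := gB0q2) (Ga := gB4q0) (Gb := gB5q0) cB202L_ok B hρ (gatB82 x) (gatB02 x) (fun _ => gatB40 x) (fun h => absurd h (by decide)) hd hx hx' CG.B202L_804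
    · exact absurd h2 (by norm_num)
    · exact absurd h2 (by norm_num)
    · exact absurd h2 (by norm_num)

theorem altB_B202L_81 {κ x : ℝ} (hκ : κ * h0 = ken x) (hx : ((649613803 : ℕ) : ℝ) / S ≤ x) (hx' : x ≤ (((649613803 : ℕ) : ℝ) + (48318383 : ℕ)) / S) :
    AltEB 3 κ (eng.v x) (3 / 40) (tnt (h0 * x) (3 / 10)) PP tK tL tC pcB (scP esg pd) [⟨0, 1, 0, 67108864⟩, ⟨1, 0, 0, 67108864⟩, ⟨2, 1, 0, 67108864⟩] 2 0 2 8 1 (sgb true) (sgb true) x := by
  have X : XR 67108864 x := XR.of hx hx' (by norm_num) (by norm_num) (by norm_num) (by norm_num)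
  have hen : 0 < eng.v x := en_pos X.x0.le
  refine CornW.altB (C := cB202L) (j := (8 : Fin 9)) (k := (1 : Fin 9)) (Ef := esg) (pd := pd) (o := 3 / 40)
    (cornW_of (C := cB202L) (C0 := c0B) (En := eng) (mo := mog) (j := (8 : Fin 9)) (k := (1 : Fin 9)) (lo := 0) (hi := 4) (W := 67108864) (N0 := 3) cB202L_q (sideB hx hx') gokB (pinU hx hx') dokB X (by norm_num) (by norm_num) (l := (0 : Fin 9)) rfl
      (gatB82 x) (gatB12 x) (gatB00 x) (datB82 x) (datB12 x) (datB00 x) ?_)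
    (cornS_of (C := cB202L) (C0 := c0B) (j := (8 : Fin 9)) (k := (1 : Fin 9)) (lo := 0) (hi := 4) (W := 67108864) (N0 := 3) cB202L_q (sideB hx hx') gokB X (by norm_num) (by norm_num) (l := (0 : Fin 9)) rfl
      (gatB82 x) (gatB12 x) (gatB00 x) ?_)
    (thU (pinU hx hx')) rfl hκ (fun j q y => tC_eq j q y x) (esg_rng X.x0.le (by linarith [X.b, X.p0])).1 (mo_v x) le_rfl le_rfl
  · intro ρ a B hρ hd i h1 h2
    fin_cases i
    · exact corW_cert (G1 := gB8q2) (G2 := gB1q2) (Ga := gB0q0) (Gb := gB1q0) (D1 := dB8q2) (D2 := dB1q2) (Da := dB0q0) (Db := dB1q0) cB202L_ok B hρ hen (gatB82 x) (gatB12 x) (fun _ => gatB00 x) (fun _ => gatB10 x) (datB82 x) (datB12 x) (fun _ => datB00 x) (fun _ => datB10 x) hd hx hx' CW.B202L_810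
    · exact corW_cert (G1 := gB8q2) (G2 := gB1q2) (Ga := gB1q0) (Gb := gB2q0) (D1 := dB8q2) (D2 := dB1q2) (Da := dB1q0) (Db := dB2q0) cB202L_ok B hρ hen (gatB82 x) (gatB12 x) (fun _ => gatB10 x) (fun _ => gatB20 x) (datB82 x) (datB12 x) (fun _ => datB10 x) (fun _ => datB20 x) hd hx hx' CW.B202L_811
    · exact corW_cert (G1 := gB8q2) (G2 := gB1q2) (Ga := gB2q0) (Gb := gB3q0) (D1 := dB8q2) (D2 := dB1q2) (Da := dB2q0) (Db := dB3q0) cB202L_ok B hρ hen (gatB82 x) (gatB12 x) (fun _ => gatB20 x) (fun _ => gatB30 x) (datB82 x) (datB12 x) (fun _ => datB20 x) (fun _ => datB30 x) hd hx hx' CW.B202L_812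
    · exact corW_cert (G1 := gB8q2) (G2 := gB1q2) (Ga := gB3q0) (Gb := gB4q0) (D1 := dB8q2) (D2 := dB1q2) (Da := dB3q0) (Db := dB4q0) cB202L_ok B hρ hen (gatB82 x) (gatB12 x) (fun _ => gatB30 x) (fun _ => gatB40 x) (datB82 x) (datB12 x) (fun _ => datB30 x) (fun _ => datB40 x) hd hx hx' CW.B202L_813
    · exact corW_cert (G1 := gB8q2) (G2 := gB1q2) (Ga := gB4q0) (Gb := gB5q0) (D1 := dB8q2) (D2 := dB1q2) (Da := dB4q0) (Db := dB5q0) cB202L_ok B hρ hen (gatB82 x) (gatB12 x) (fun _ => gatB40 x) (fun h => absurd h (by decide)) (datB82 x) (datB12 x) (fun _ => datB40 x) (fun h => absurd h (by decide)) hd hx hx' CW.B202L_814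
    · exact absurd h2 (by norm_num)
    · exact absurd h2 (by norm_num)
    · exact absurd h2 (by norm_num)
  · intro ρ a B hρ hd i h1 h2
    fin_cases i
    · exact corT_cert (G1 := gB8q2) (G2 := gB1q2) (Ga := gB0q0) (Gb := gB1q0) cB202L_ok B hρ (gatB82 x) (gatB12 x) (fun _ => gatB00 x) (fun _ => gatB10 x) hd hx hx' CG.B202L_810
    · exact corT_cert (G1 := gB8q2) (G2 := gB1q2) (Ga := gB1q0) (Gb := gB2q0) cB202L_ok B hρ (gatB82 x) (gatB12 x) (fun _ => gatB10 x) (fun _ => gatB20 x) hd hx hx' CG.B202L_811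
    · exact corT_cert (G1 := gB8q2) (G2 := gB1q2) (Ga := gB2q0) (Gb := gB3q0) cB202L_ok B hρ (gatB82 x) (gatB12 x) (fun _ => gatB20 x) (fun _ => gatB30 x) hd hx hx' CG.B202L_812
    · exact corT_cert (G1 := gB8q2) (G2 := gB1q2) (Ga := gB3q0) (Gb := gB4q0) cB202L_ok B hρ (gatB82 x) (gatB12 x) (fun _ => gatB30 x) (fun _ => gatB40 x) hd hx hx' CG.B202L_813
    · exact corT_cert (G1 := gB8q2) (G2 := gB1q2) (Ga := gB4q0) (Gb := gB5q0) cB202L_ok B hρ (gatB82 x) (gatB12 x) (fun _ => gatB40 x) (fun h => absurd h (by decide)) hd hx hx' CG.B202L_814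
    · exact absurd h2 (by norm_num)
    · exact absurd h2 (by norm_num)
    · exact absurd h2 (by norm_num)

theorem altB_B202L_82 {κ x : ℝ} (hκ : κ * h0 = ken x) (hx : ((649613803 : ℕ) : ℝ) / S ≤ x) (hx' : x ≤ (((649613803 : ℕ) : ℝ) + (48318383 : ℕ)) / S) :
    AltEB 3 κ (eng.v x) (3 / 40) (tnt (h0 * x) (3 / 10)) PP tK tL tC pcB (scP esg pd) [⟨0, 1, 0, 67108864⟩, ⟨1, 0, 0, 67108864⟩, ⟨2, 1, 0, 67108864⟩] 2 0 2 8 2 (sgb true) (sgb true) x := by
  have X : XR 67108864 x := XR.of hx hx' (by norm_num) (by norm_num) (by norm_num) (by norm_num)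
  have hen : 0 < eng.v x := en_pos X.x0.le
  refine CornW.altB (C := cB202L) (j := (8 : Fin 9)) (k := (2 : Fin 9)) (Ef := esg) (pd := pd) (o := 3 / 40)
    (cornW_of (C := cB202L) (C0 := c0B) (En := eng) (mo := mog) (j := (8 : Fin 9)) (k := (2 : Fin 9)) (lo := 0) (hi := 4) (W := 67108864) (N0 := 3) cB202L_q (sideB hx hx') gokB (pinU hx hx') dokB X (by norm_num) (by norm_num) (l := (0 : Fin 9)) rfl
      (gatB82 x) (gatB22 x) (gatB00 x) (datB82 x) (datB22 x) (datB00 x) ?_)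
    (cornS_of (C := cB202L) (C0 := c0B) (j := (8 : Fin 9)) (k := (2 : Fin 9)) (lo := 0) (hi := 4) (W := 67108864) (N0 := 3) cB202L_q (sideB hx hx') gokB X (by norm_num) (by norm_num) (l := (0 : Fin 9)) rfl
      (gatB82 x) (gatB22 x) (gatB00 x) ?_)
    (thU (pinU hx hx')) rfl hκ (fun j q y => tC_eq j q y x) (esg_rng X.x0.le (by linarith [X.b, X.p0])).1 (mo_v x) le_rfl le_rfl
  · intro ρ a B hρ hd i h1 h2
    fin_cases i
    · exact corW_cert (G1 := gB8q2) (G2 := gB2q2) (Ga := gB0q0) (Gb := gB1q0) (D1 := dB8q2) (D2 := dB2q2) (Da := dB0q0) (Db := dB1q0) cB202L_ok B hρ hen (gatB82 x) (gatB22 x) (fun _ => gatB00 x) (fun _ => gatB10 x) (datB82 x) (datB22 x) (fun _ => datB00 x) (fun _ => datB10 x) hd hx hx' CW.B202L_820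
    · exact corW_cert (G1 := gB8q2) (G2 := gB2q2) (Ga := gB1q0) (Gb := gB2q0) (D1 := dB8q2) (D2 := dB2q2) (Da := dB1q0) (Db := dB2q0) cB202L_ok B hρ hen (gatB82 x) (gatB22 x) (fun _ => gatB10 x) (fun _ => gatB20 x) (datB82 x) (datB22 x) (fun _ => datB10 x) (fun _ => datB20 x) hd hx hx' CW.B202L_821
    · exact corW_cert (G1 := gB8q2) (G2 := gB2q2) (Ga := gB2q0) (Gb := gB3q0) (D1 := dB8q2) (D2 := dB2q2) (Da := dB2q0) (Db := dB3q0) cB202L_ok B hρ hen (gatB82 x) (gatB22 x) (fun _ => gatB20 x) (fun _ => gatB30 x) (datB82 x) (datB22 x) (fun _ => datB20 x) (fun _ => datB30 x) hd hx hx' CW.B202L_822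
    · exact corW_cert (G1 := gB8q2) (G2 := gB2q2) (Ga := gB3q0) (Gb := gB4q0) (D1 := dB8q2) (D2 := dB2q2) (Da := dB3q0) (Db := dB4q0) cB202L_ok B hρ hen (gatB82 x) (gatB22 x) (fun _ => gatB30 x) (fun _ => gatB40 x) (datB82 x) (datB22 x) (fun _ => datB30 x) (fun _ => datB40 x) hd hx hx' CW.B202L_823
    · exact corW_cert (G1 := gB8q2) (G2 := gB2q2) (Ga := gB4q0) (Gb := gB5q0) (D1 := dB8q2) (D2 := dB2q2) (Da := dB4q0) (Db := dB5q0) cB202L_ok B hρ hen (gatB82 x) (gatB22 x) (fun _ => gatB40 x) (fun h => absurd h (by decide)) (datB82 x) (datB22 x) (fun _ => datB40 x) (fun h => absurd h (by decide)) hd hx hx' CW.B202L_824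
    · exact absurd h2 (by norm_num)
    · exact absurd h2 (by norm_num)
    · exact absurd h2 (by norm_num)
  · intro ρ a B hρ hd i h1 h2
    fin_cases i
    · exact corT_cert (G1 := gB8q2) (G2 := gB2q2) (Ga := gB0q0) (Gb := gB1q0) cB202L_ok B hρ (gatB82 x) (gatB22 x) (fun _ => gatB00 x) (fun _ => gatB10 x) hd hx hx' CG.B202L_820
    · exact corT_cert (G1 := gB8q2) (G2 := gB2q2) (Ga := gB1q0) (Gb := gB2q0) cB202L_ok B hρ (gatB82 x) (gatB22 x) (fun _ => gatB10 x) (fun _ => gatB20 x) hd hx hx' CG.B202L_821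
    · exact corT_cert (G1 := gB8q2) (G2 := gB2q2) (Ga := gB2q0) (Gb := gB3q0) cB202L_ok B hρ (gatB82 x) (gatB22 x) (fun _ => gatB20 x) (fun _ => gatB30 x) hd hx hx' CG.B202L_822
    · exact corT_cert (G1 := gB8q2) (G2 := gB2q2) (Ga := gB3q0) (Gb := gB4q0) cB202L_ok B hρ (gatB82 x) (gatB22 x) (fun _ => gatB30 x) (fun _ => gatB40 x) hd hx hx' CG.B202L_823
    · exact corT_cert (G1 := gB8q2) (G2 := gB2q2) (Ga := gB4q0) (Gb := gB5q0) cB202L_ok B hρ (gatB82 x) (gatB22 x) (fun _ => gatB40 x) (fun h => absurd h (by decide)) hd hx hx' CG.B202L_824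
    · exact absurd h2 (by norm_num)
    · exact absurd h2 (by norm_num)
    · exact absurd h2 (by norm_num)

theorem altB_B202L_83 {κ x : ℝ} (hκ : κ * h0 = ken x) (hx : ((649613803 : ℕ) : ℝ) / S ≤ x) (hx' : x ≤ (((649613803 : ℕ) : ℝ) + (48318383 : ℕ)) / S) :
    AltEB 3 κ (eng.v x) (3 / 40) (tnt (h0 * x) (3 / 10)) PP tK tL tC pcB (scP esg pd) [⟨0, 1, 0, 67108864⟩, ⟨1, 0, 0, 67108864⟩, ⟨2, 1, 0, 67108864⟩] 2 0 2 8 3 (sgb true) (sgb true) x := by
  have X : XR 67108864 x := XR.of hx hx' (by norm_num) (by norm_num) (by norm_num) (by norm_num)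
  have hen : 0 < eng.v x := en_pos X.x0.le
  refine CornW.altB (C := cB202L) (j := (8 : Fin 9)) (k := (3 : Fin 9)) (Ef := esg) (pd := pd) (o := 3 / 40)
    (cornW_of (C := cB202L) (C0 := c0B) (En := eng) (mo := mog) (j := (8 : Fin 9)) (k := (3 : Fin 9)) (lo := 0) (hi := 4) (W := 67108864) (N0 := 3) cB202L_q (sideB hx hx') gokB (pinU hx hx') dokB X (by norm_num) (by norm_num) (l := (0 : Fin 9)) rfl
      (gatB82 x) (gatB32 x) (gatB00 x) (datB82 x) (datB32 x) (datB00 x) ?_)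
    (cornS_of (C := cB202L) (C0 := c0B) (j := (8 : Fin 9)) (k := (3 : Fin 9)) (lo := 0) (hi := 4) (W := 67108864) (N0 := 3) cB202L_q (sideB hx hx') gokB X (by norm_num) (by norm_num) (l := (0 : Fin 9)) rfl
      (gatB82 x) (gatB32 x) (gatB00 x) ?_)
    (thU (pinU hx hx')) rfl hκ (fun j q y => tC_eq j q y x) (esg_rng X.x0.le (by linarith [X.b, X.p0])).1 (mo_v x) le_rfl le_rfl
  · intro ρ a B hρ hd i h1 h2
    fin_cases i
    · exact corW_cert (G1 := gB8q2) (G2 := gB3q2) (Ga := gB0q0) (Gb := gB1q0) (D1 := dB8q2) (D2 := dB3q2) (Da := dB0q0) (Db := dB1q0) cB202L_ok B hρ hen (gatB82 x) (gatB32 x) (fun _ => gatB00 x) (fun _ => gatB10 x) (datB82 x) (datB32 x) (fun _ => datB00 x) (fun _ => datB10 x) hd hx hx' CW.B202L_830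
    · exact corW_cert (G1 := gB8q2) (G2 := gB3q2) (Ga := gB1q0) (Gb := gB2q0) (D1 := dB8q2) (D2 := dB3q2) (Da := dB1q0) (Db := dB2q0) cB202L_ok B hρ hen (gatB82 x) (gatB32 x) (fun _ => gatB10 x) (fun _ => gatB20 x) (datB82 x) (datB32 x) (fun _ => datB10 x) (fun _ => datB20 x) hd hx hx' CW.B202L_831
    · exact corW_cert (G1 := gB8q2) (G2 := gB3q2) (Ga := gB2q0) (Gb := gB3q0) (D1 := dB8q2) (D2 := dB3q2) (Da := dB2q0) (Db := dB3q0) cB202L_ok B hρ hen (gatB82 x) (gatB32 x) (fun _ => gatB20 x) (fun _ => gatB30 x) (datB82 x) (datB32 x) (fun _ => datB20 x) (fun _ => datB30 x) hd hx hx' CW.B202L_832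
    · exact corW_cert (G1 := gB8q2) (G2 := gB3q2) (Ga := gB3q0) (Gb := gB4q0) (D1 := dB8q2) (D2 := dB3q2) (Da := dB3q0) (Db := dB4q0) cB202L_ok B hρ hen (gatB82 x) (gatB32 x) (fun _ => gatB30 x) (fun _ => gatB40 x) (datB82 x) (datB32 x) (fun _ => datB30 x) (fun _ => datB40 x) hd hx hx' CW.B202L_833
    · exact corW_cert (G1 := gB8q2) (G2 := gB3q2) (Ga := gB4q0) (Gb := gB5q0) (D1 := dB8q2) (D2 := dB3q2) (Da := dB4q0) (Db := dB5q0) cB202L_ok B hρ hen (gatB82 x) (gatB32 x) (fun _ => gatB40 x) (fun h => absurd h (by decide)) (datB82 x) (datB32 x) (fun _ => datB40 x) (fun h => absurd h (by decide)) hd hx hx' CW.B202L_834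
    · exact absurd h2 (by norm_num)
    · exact absurd h2 (by norm_num)
    · exact absurd h2 (by norm_num)
  · intro ρ a B hρ hd i h1 h2
    fin_cases i
    · exact corT_cert (G1 := gB8q2) (G2 := gB3q2) (Ga := gB0q0) (Gb := gB1q0) cB202L_ok B hρ (gatB82 x) (gatB32 x) (fun _ => gatB00 x) (fun _ => gatB10 x) hd hx hx' CG.B202L_830
    · exact corT_cert (G1 := gB8q2) (G2 := gB3q2) (Ga := gB1q0) (Gb := gB2q0) cB202L_ok B hρ (gatB82 x) (gatB32 x) (fun _ => gatB10 x) (fun _ => gatB20 x) hd hx hx' CG.B202L_831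
    · exact corT_cert (G1 := gB8q2) (G2 := gB3q2) (Ga := gB2q0) (Gb := gB3q0) cB202L_ok B hρ (gatB82 x) (gatB32 x) (fun _ => gatB20 x) (fun _ => gatB30 x) hd hx hx' CG.B202L_832
    · exact corT_cert (G1 := gB8q2) (G2 := gB3q2) (Ga := gB3q0) (Gb := gB4q0) cB202L_ok B hρ (gatB82 x) (gatB32 x) (fun _ => gatB30 x) (fun _ => gatB40 x) hd hx hx' CG.B202L_833
    · exact corT_cert (G1 := gB8q2) (G2 := gB3q2) (Ga := gB4q0) (Gb := gB5q0) cB202L_ok B hρ (gatB82 x) (gatB32 x) (fun _ => gatB40 x) (fun h => absurd h (by decide)) hd hx hx' CG.B202L_834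
    · exact absurd h2 (by norm_num)
    · exact absurd h2 (by norm_num)
    · exact absurd h2 (by norm_num)

theorem altB_B202L_84 {κ x : ℝ} (hκ : κ * h0 = ken x) (hx : ((649613803 : ℕ) : ℝ) / S ≤ x) (hx' : x ≤ (((649613803 : ℕ) : ℝ) + (48318383 : ℕ)) / S) :
    AltEB 3 κ (eng.v x) (3 / 40) (tnt (h0 * x) (3 / 10)) PP tK tL tC pcB (scP esg pd) [⟨0, 1, 0, 67108864⟩, ⟨1, 0, 0, 67108864⟩, ⟨2, 1, 0, 67108864⟩] 2 0 2 8 4 (sgb true) (sgb true) x := by
  have X : XR 67108864 x := XR.of hx hx' (by norm_num) (by norm_num) (by norm_num) (by norm_num)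
  have hen : 0 < eng.v x := en_pos X.x0.le
  refine CornW.altB (C := cB202L) (j := (8 : Fin 9)) (k := (4 : Fin 9)) (Ef := esg) (pd := pd) (o := 3 / 40)
    (cornW_of (C := cB202L) (C0 := c0B) (En := eng) (mo := mog) (j := (8 : Fin 9)) (k := (4 : Fin 9)) (lo := 0) (hi := 4) (W := 67108864) (N0 := 3) cB202L_q (sideB hx hx') gokB (pinU hx hx') dokB X (by norm_num) (by norm_num) (l := (0 : Fin 9)) rfl
      (gatB82 x) (gatB42 x) (gatB00 x) (datB82 x) (datB42 x) (datB00 x) ?_)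
    (cornS_of (C := cB202L) (C0 := c0B) (j := (8 : Fin 9)) (k := (4 : Fin 9)) (lo := 0) (hi := 4) (W := 67108864) (N0 := 3) cB202L_q (sideB hx hx') gokB X (by norm_num) (by norm_num) (l := (0 : Fin 9)) rfl
      (gatB82 x) (gatB42 x) (gatB00 x) ?_)
    (thU (pinU hx hx')) rfl hκ (fun j q y => tC_eq j q y x) (esg_rng X.x0.le (by linarith [X.b, X.p0])).1 (mo_v x) le_rfl le_rfl
  · intro ρ a B hρ hd i h1 h2
    fin_cases i
    · exact corW_cert (G1 := gB8q2) (G2 := gB4q2) (Ga := gB0q0) (Gb := gB1q0) (D1 := dB8q2) (D2 := dB4q2) (Da := dB0q0) (Db := dB1q0) cB202L_ok B hρ hen (gatB82 x) (gatB42 x) (fun _ => gatB00 x) (fun _ => gatB10 x) (datB82 x) (datB42 x) (fun _ => datB00 x) (fun _ => datB10 x) hd hx hx' CW.B202L_840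
    · exact corW_cert (G1 := gB8q2) (G2 := gB4q2) (Ga := gB1q0) (Gb := gB2q0) (D1 := dB8q2) (D2 := dB4q2) (Da := dB1q0) (Db := dB2q0) cB202L_ok B hρ hen (gatB82 x) (gatB42 x) (fun _ => gatB10 x) (fun _ => gatB20 x) (datB82 x) (datB42 x) (fun _ => datB10 x) (fun _ => datB20 x) hd hx hx' CW.B202L_841
    · exact corW_cert (G1 := gB8q2) (G2 := gB4q2) (Ga := gB2q0) (Gb := gB3q0) (D1 := dB8q2) (D2 := dB4q2) (Da := dB2q0) (Db := dB3q0) cB202L_ok B hρ hen (gatB82 x) (gatB42 x) (fun _ => gatB20 x) (fun _ => gatB30 x) (datB82 x) (datB42 x) (fun _ => datB20 x) (fun _ => datB30 x) hd hx hx' CW.B202L_842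
    · exact corW_cert (G1 := gB8q2) (G2 := gB4q2) (Ga := gB3q0) (Gb := gB4q0) (D1 := dB8q2) (D2 := dB4q2) (Da := dB3q0) (Db := dB4q0) cB202L_ok B hρ hen (gatB82 x) (gatB42 x) (fun _ => gatB30 x) (fun _ => gatB40 x) (datB82 x) (datB42 x) (fun _ => datB30 x) (fun _ => datB40 x) hd hx hx' CW.B202L_843
    · exact corW_cert (G1 := gB8q2) (G2 := gB4q2) (Ga := gB4q0) (Gb := gB5q0) (D1 := dB8q2) (D2 := dB4q2) (Da := dB4q0) (Db := dB5q0) cB202L_ok B hρ hen (gatB82 x) (gatB42 x) (fun _ => gatB40 x) (fun h => absurd h (by decide)) (datB82 x) (datB42 x) (fun _ => datB40 x) (fun h => absurd h (by decide)) hd hx hx' CW.B202L_844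
    · exact absurd h2 (by norm_num)
    · exact absurd h2 (by norm_num)
    · exact absurd h2 (by norm_num)
  · intro ρ a B hρ hd i h1 h2
    fin_cases i
    · exact corT_cert (G1 := gB8q2) (G2 := gB4q2) (Ga := gB0q0) (Gb := gB1q0) cB202L_ok B hρ (gatB82 x) (gatB42 x) (fun _ => gatB00 x) (fun _ => gatB10 x) hd hx hx' CG.B202L_840
    · exact corT_cert (G1 := gB8q2) (G2 := gB4q2) (Ga := gB1q0) (Gb := gB2q0) cB202L_ok B hρ (gatB82 x) (gatB42 x) (fun _ => gatB10 x) (fun _ => gatB20 x) hd hx hx' CG.B202L_841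
    · exact corT_cert (G1 := gB8q2) (G2 := gB4q2) (Ga := gB2q0) (Gb := gB3q0) cB202L_ok B hρ (gatB82 x) (gatB42 x) (fun _ => gatB20 x) (fun _ => gatB30 x) hd hx hx' CG.B202L_842
    · exact corT_cert (G1 := gB8q2) (G2 := gB4q2) (Ga := gB3q0) (Gb := gB4q0) cB202L_ok B hρ (gatB82 x) (gatB42 x) (fun _ => gatB30 x) (fun _ => gatB40 x) hd hx hx' CG.B202L_843
    · exact corT_cert (G1 := gB8q2) (G2 := gB4q2) (Ga := gB4q0) (Gb := gB5q0) cB202L_ok B hρ (gatB82 x) (gatB42 x) (fun _ => gatB40 x) (fun h => absurd h (by decide)) hd hx hx' CG.B202L_844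
    · exact absurd h2 (by norm_num)
    · exact absurd h2 (by norm_num)
    · exact absurd h2 (by norm_num)

theorem altB_B202R_08 {κ x : ℝ} (hκ : κ * h0 = ken x) (hx : ((649613803 : ℕ) : ℝ) / S ≤ x) (hx' : x ≤ (((649613803 : ℕ) : ℝ) + (48318383 : ℕ)) / S) :
    AltEB 3 κ (eng.v x) (3 / 40) (tnt (h0 * x) (3 / 10)) PP tK tL tC pcB (scP esg pd) [⟨0, 1, 0, 53687091⟩, ⟨1, 0, 0, 53687091⟩, ⟨2, 1, 0, 53687091⟩] 2 0 2 0 8 (sgb false) (sgb false) x := by
  have X : XR 53687091 x := XR.of hx hx' (by norm_num) (by norm_num) (by norm_num) (by norm_num)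
  have hen : 0 < eng.v x := en_pos X.x0.le
  refine CornW.altB (C := cB202R) (j := (0 : Fin 9)) (k := (8 : Fin 9)) (Ef := esg) (pd := pd) (o := 3 / 40)
    (cornW_of (C := cB202R) (C0 := c0B) (En := eng) (mo := mog) (j := (0 : Fin 9)) (k := (8 : Fin 9)) (lo := 0) (hi := 4) (W := 53687091) (N0 := 3) cB202R_q (sideB hx hx') gokB (pinU hx hx') dokB X (by norm_num) (by norm_num) (l := (0 : Fin 9)) rfl
      (gatB02 x) (gatB82 x) (gatB00 x) (datB02 x) (datB82 x) (datB00 x) ?_)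
    (cornS_of (C := cB202R) (C0 := c0B) (j := (0 : Fin 9)) (k := (8 : Fin 9)) (lo := 0) (hi := 4) (W := 53687091) (N0 := 3) cB202R_q (sideB hx hx') gokB X (by norm_num) (by norm_num) (l := (0 : Fin 9)) rfl
      (gatB02 x) (gatB82 x) (gatB00 x) ?_)
    (thU (pinU hx hx')) rfl hκ (fun j q y => tC_eq j q y x) (esg_rng X.x0.le (by linarith [X.b, X.p0])).1 (mo_v x) le_rfl le_rfl
  · intro ρ a B hρ hd i h1 h2
    fin_cases i
    · exact corW_cert (G1 := gB0q2) (G2 := gB8q2) (Ga := gB0q0) (Gb := gB1q0) (D1 := dB0q2) (D2 := dB8q2) (Da := dB0q0) (Db := dB1q0) cB202R_ok B hρ hen (gatB02 x) (gatB82 x) (fun _ => gatB00 x) (fun _ => gatB10 x) (datB02 x) (datB82 x) (fun _ => datB00 x) (fun _ => datB10 x) hd hx hx' CW.B202R_080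
    · exact corW_cert (G1 := gB0q2) (G2 := gB8q2) (Ga := gB1q0) (Gb := gB2q0) (D1 := dB0q2) (D2 := dB8q2) (Da := dB1q0) (Db := dB2q0) cB202R_ok B hρ hen (gatB02 x) (gatB82 x) (fun _ => gatB10 x) (fun _ => gatB20 x) (datB02 x) (datB82 x) (fun _ => datB10 x) (fun _ => datB20 x) hd hx hx' CW.B202R_081
    · exact corW_cert (G1 := gB0q2) (G2 := gB8q2) (Ga := gB2q0) (Gb := gB3q0) (D1 := dB0q2) (D2 := dB8q2) (Da := dB2q0) (Db := dB3q0) cB202R_ok B hρ hen (gatB02 x) (gatB82 x) (fun _ => gatB20 x) (fun _ => gatB30 x) (datB02 x) (datB82 x) (fun _ => datB20 x) (fun _ => datB30 x) hd hx hx' CW.B202R_082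
    · exact corW_cert (G1 := gB0q2) (G2 := gB8q2) (Ga := gB3q0) (Gb := gB4q0) (D1 := dB0q2) (D2 := dB8q2) (Da := dB3q0) (Db := dB4q0) cB202R_ok B hρ hen (gatB02 x) (gatB82 x) (fun _ => gatB30 x) (fun _ => gatB40 x) (datB02 x) (datB82 x) (fun _ => datB30 x) (fun _ => datB40 x) hd hx hx' CW.B202R_083
    · exact corW_cert (G1 := gB0q2) (G2 := gB8q2) (Ga := gB4q0) (Gb := gB5q0) (D1 := dB0q2) (D2 := dB8q2) (Da := dB4q0) (Db := dB5q0) cB202R_ok B hρ hen (gatB02 x) (gatB82 x) (fun _ => gatB40 x) (fun h => absurd h (by decide)) (datB02 x) (datB82 x) (fun _ => datB40 x) (fun h => absurd h (by decide)) hd hx hx' CW.B202R_084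
    · exact absurd h2 (by norm_num)
    · exact absurd h2 (by norm_num)
    · exact absurd h2 (by norm_num)
  · intro ρ a B hρ hd i h1 h2
    fin_cases i
    · exact corX_cert (G1 := gB0q2) (G2 := gB8q2) (Ga := gB0q0) (Gb := gB1q0) (GT := gB0q0) cB202R_ok tB202R_ok B hρ (gatB02 x) (gatB82 x) (fun _ => gatB00 x) (fun _ => gatB10 x) rfl (tgh_B202R (kodd x) (gpu2 x) (gpt2 x) (gpu0 x) (gatB02 x) (gatB82 x) (gatB00 x) B (le_sixteenth hd (by norm_num))) hd hx hx' CG.B202R_080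
    · exact corT_cert (G1 := gB0q2) (G2 := gB8q2) (Ga := gB1q0) (Gb := gB2q0) cB202R_ok B hρ (gatB02 x) (gatB82 x) (fun _ => gatB10 x) (fun _ => gatB20 x) hd hx hx' CG.B202R_081
    · exact corT_cert (G1 := gB0q2) (G2 := gB8q2) (Ga := gB2q0) (Gb := gB3q0) cB202R_ok B hρ (gatB02 x) (gatB82 x) (fun _ => gatB20 x) (fun _ => gatB30 x) hd hx hx' CG.B202R_082
    · exact corT_cert (G1 := gB0q2) (G2 := gB8q2) (Ga := gB3q0) (Gb := gB4q0) cB202R_ok B hρ (gatB02 x) (gatB82 x) (fun _ => gatB30 x) (fun _ => gatB40 x) hd hx hx' CG.B202R_083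
    · exact corT_cert (G1 := gB0q2) (G2 := gB8q2) (Ga := gB4q0) (Gb := gB5q0) cB202R_ok B hρ (gatB02 x) (gatB82 x) (fun _ => gatB40 x) (fun h => absurd h (by decide)) hd hx hx' CG.B202R_084
    · exact absurd h2 (by norm_num)
    · exact absurd h2 (by norm_num)
    · exact absurd h2 (by norm_num)

theorem altB_B202R_18 {κ x : ℝ} (hκ : κ * h0 = ken x) (hx : ((649613803 : ℕ) : ℝ) / S ≤ x) (hx' : x ≤ (((649613803 : ℕ) : ℝ) + (48318383 : ℕ)) / S) :
    AltEB 3 κ (eng.v x) (3 / 40) (tnt (h0 * x) (3 / 10)) PP tK tL tC pcB (scP esg pd) [⟨0, 1, 0, 67108864⟩, ⟨1, 0, 0, 67108864⟩, ⟨2, 1, 0, 67108864⟩] 2 0 2 1 8 (sgb false) (sgb false) x := by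
  have X : XR 67108864 x := XR.of hx hx' (by norm_num) (by norm_num) (by norm_num) (by norm_num)
  have hen : 0 < eng.v x := en_pos X.x0.le
  refine CornW.altB (C := cB202R) (j := (1 : Fin 9)) (k := (8 : Fin 9)) (Ef := esg) (pd := pd) (o := 3 / 40)
    (cornW_of (C := cB202R) (C0 := c0B) (En := eng) (mo := mog) (j := (1 : Fin 9)) (k := (8 : Fin 9)) (lo := 0) (hi := 4) (W := 67108864) (N0 := 3) cB202R_q (sideB hx hx') gokB (pinU hx hx') dokB X (by norm_num) (by norm_num) (l := (0 : Fin 9)) rfl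
      (gatB12 x) (gatB82 x) (gatB00 x) (datB12 x) (datB82 x) (datB00 x) ?_)
    (cornS_of (C := cB202R) (C0 := c0B) (j := (1 : Fin 9)) (k := (8 : Fin 9)) (lo := 0) (hi := 4) (W := 67108864) (N0 := 3) cB202R_q (sideB hx hx') gokB X (by norm_num) (by norm_num) (l := (0 : Fin 9)) rfl
      (gatB12 x) (gatB82 x) (gatB00 x) ?_)
    (thU (pinU hx hx')) rfl hκ (fun j q y => tC_eq j q y x) (esg_rng X.x0.le (by linarith [X.b, X.p0])).1 (mo_v x) le_rfl le_rfl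
  · intro ρ a B hρ hd i h1 h2
    fin_cases i
    · exact corW_cert (G1 := gB1q2) (G2 := gB8q2) (Ga := gB0q0) (Gb := gB1q0) (D1 := dB1q2) (D2 := dB8q2) (Da := dB0q0) (Db := dB1q0) cB202R_ok B hρ hen (gatB12 x) (gatB82 x) (fun _ => gatB00 x) (fun _ => gatB10 x) (datB12 x) (datB82 x) (fun _ => datB00 x) (fun _ => datB10 x) hd hx hx' CW.B202R_180
    · exact corW_cert (G1 := gB1q2) (G2 := gB8q2) (Ga := gB1q0) (Gb := gB2q0) (D1 := dB1q2) (D2 := dB8q2) (Da := dB1q0) (Db := dB2q0) cB202R_ok B hρ hen (gatB12 x) (gatB82 x) (fun _ => gatB10 x) (fun _ => gatB20 x) (datB12 x) (datB82 x) (fun _ => datB10 x) (fun _ => datB20 x) hd hx hx' CW.B202R_181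
    · exact corW_cert (G1 := gB1q2) (G2 := gB8q2) (Ga := gB2q0) (Gb := gB3q0) (D1 := dB1q2) (D2 := dB8q2) (Da := dB2q0) (Db := dB3q0) cB202R_ok B hρ hen (gatB12 x) (gatB82 x) (fun _ => gatB20 x) (fun _ => gatB30 x) (datB12 x) (datB82 x) (fun _ => datB20 x) (fun _ => datB30 x) hd hx hx' CW.B202R_182
    · exact corW_cert (G1 := gB1q2) (G2 := gB8q2) (Ga := gB3q0) (Gb := gB4q0) (D1 := dB1q2) (D2 := dB8q2) (Da := dB3q0) (Db := dB4q0) cB202R_ok B hρ hen (gatB12 x) (gatB82 x) (fun _ => gatB30 x) (fun _ => gatB40 x) (datB12 x) (datB82 x) (fun _ => datB30 x) (fun _ => datB40 x) hd hx hx' CW.B202R_183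
    · exact corW_cert (G1 := gB1q2) (G2 := gB8q2) (Ga := gB4q0) (Gb := gB5q0) (D1 := dB1q2) (D2 := dB8q2) (Da := dB4q0) (Db := dB5q0) cB202R_ok B hρ hen (gatB12 x) (gatB82 x) (fun _ => gatB40 x) (fun h => absurd h (by decide)) (datB12 x) (datB82 x) (fun _ => datB40 x) (fun h => absurd h (by decide)) hd hx hx' CW.B202R_184
    · exact absurd h2 (by norm_num)
    · exact absurd h2 (by norm_num)
    · exact absurd h2 (by norm_num)
  · intro ρ a B hρ hd i h1 h2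
    fin_cases i
    · exact corT_cert (G1 := gB1q2) (G2 := gB8q2) (Ga := gB0q0) (Gb := gB1q0) cB202R_ok B hρ (gatB12 x) (gatB82 x) (fun _ => gatB00 x) (fun _ => gatB10 x) hd hx hx' CG.B202R_180
    · exact corT_cert (G1 := gB1q2) (G2 := gB8q2) (Ga := gB1q0) (Gb := gB2q0) cB202R_ok B hρ (gatB12 x) (gatB82 x) (fun _ => gatB10 x) (fun _ => gatB20 x) hd hx hx' CG.B202R_181
    · exact corT_cert (G1 := gB1q2) (G2 := gB8q2) (Ga := gB2q0) (Gb := gB3q0) cB202R_ok B hρ (gatB12 x) (gatB82 x) (fun _ => gatB20 x) (fun _ => gatB30 x) hd hx hx' CG.B202R_182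
    · exact corT_cert (G1 := gB1q2) (G2 := gB8q2) (Ga := gB3q0) (Gb := gB4q0) cB202R_ok B hρ (gatB12 x) (gatB82 x) (fun _ => gatB30 x) (fun _ => gatB40 x) hd hx hx' CG.B202R_183
    · exact corT_cert (G1 := gB1q2) (G2 := gB8q2) (Ga := gB4q0) (Gb := gB5q0) cB202R_ok B hρ (gatB12 x) (gatB82 x) (fun _ => gatB40 x) (fun h => absurd h (by decide)) hd hx hx' CG.B202R_184
    · exact absurd h2 (by norm_num)
    · exact absurd h2 (by norm_num)
    · exact absurd h2 (by norm_num)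

theorem altB_B202R_28 {κ x : ℝ} (hκ : κ * h0 = ken x) (hx : ((649613803 : ℕ) : ℝ) / S ≤ x) (hx' : x ≤ (((649613803 : ℕ) : ℝ) + (48318383 : ℕ)) / S) :
    AltEB 3 κ (eng.v x) (3 / 40) (tnt (h0 * x) (3 / 10)) PP tK tL tC pcB (scP esg pd) [⟨0, 1, 0, 67108864⟩, ⟨1, 0, 0, 67108864⟩, ⟨2, 1, 0, 67108864⟩] 2 0 2 2 8 (sgb false) (sgb false) x := by
  have X : XR 67108864 x := XR.of hx hx' (by norm_num) (by norm_num) (by norm_num) (by norm_num)
  have hen : 0 < eng.v x := en_pos X.x0.le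
  refine CornW.altB (C := cB202R) (j := (2 : Fin 9)) (k := (8 : Fin 9)) (Ef := esg) (pd := pd) (o := 3 / 40)
    (cornW_of (C := cB202R) (C0 := c0B) (En := eng) (mo := mog) (j := (2 : Fin 9)) (k := (8 : Fin 9)) (lo := 0) (hi := 4) (W := 67108864) (N0 := 3) cB202R_q (sideB hx hx') gokB (pinU hx hx') dokB X (by norm_num) (by norm_num) (l := (0 : Fin 9)) rfl
      (gatB22 x) (gatB82 x) (gatB00 x) (datB22 x) (datB82 x) (datB00 x) ?_)
    (cornS_of (C := cB202R) (C0 := c0B) (j := (2 : Fin 9)) (k := (8 : Fin 9)) (lo := 0) (hi := 4) (W := 67108864) (N0 := 3) cB202R_q (sideB hx hx') gokB X (by norm_num) (by norm_num) (l := (0 : Fin 9)) rfl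
      (gatB22 x) (gatB82 x) (gatB00 x) ?_)
    (thU (pinU hx hx')) rfl hκ (fun j q y => tC_eq j q y x) (esg_rng X.x0.le (by linarith [X.b, X.p0])).1 (mo_v x) le_rfl le_rfl
  · intro ρ a B hρ hd i h1 h2
    fin_cases i
    · exact corW_cert (G1 := gB2q2) (G2 := gB8q2) (Ga := gB0q0) (Gb := gB1q0) (D1 := dB2q2) (D2 := dB8q2) (Da := dB0q0) (Db := dB1q0) cB202R_ok B hρ hen (gatB22 x) (gatB82 x) (fun _ => gatB00 x) (fun _ => gatB10 x) (datB22 x) (datB82 x) (fun _ => datB00 x) (fun _ => datB10 x) hd hx hx' CW.B202R_280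
    · exact corW_cert (G1 := gB2q2) (G2 := gB8q2) (Ga := gB1q0) (Gb := gB2q0) (D1 := dB2q2) (D2 := dB8q2) (Da := dB1q0) (Db := dB2q0) cB202R_ok B hρ hen (gatB22 x) (gatB82 x) (fun _ => gatB10 x) (fun _ => gatB20 x) (datB22 x) (datB82 x) (fun _ => datB10 x) (fun _ => datB20 x) hd hx hx' CW.B202R_281
    · exact corW_cert (G1 := gB2q2) (G2 := gB8q2) (Ga := gB2q0) (Gb := gB3q0) (D1 := dB2q2) (D2 := dB8q2) (Da := dB2q0) (Db := dB3q0) cB202R_ok B hρ hen (gatB22 x) (gatB82 x) (fun _ => gatB20 x) (fun _ => gatB30 x) (datB22 x) (datB82 x) (fun _ => datB20 x) (fun _ => datB30 x) hd hx hx' CW.B202R_282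
    · exact corW_cert (G1 := gB2q2) (G2 := gB8q2) (Ga := gB3q0) (Gb := gB4q0) (D1 := dB2q2) (D2 := dB8q2) (Da := dB3q0) (Db := dB4q0) cB202R_ok B hρ hen (gatB22 x) (gatB82 x) (fun _ => gatB30 x) (fun _ => gatB40 x) (datB22 x) (datB82 x) (fun _ => datB30 x) (fun _ => datB40 x) hd hx hx' CW.B202R_283
    · exact corW_cert (G1 := gB2q2) (G2 := gB8q2) (Ga := gB4q0) (Gb := gB5q0) (D1 := dB2q2) (D2 := dB8q2) (Da := dB4q0) (Db := dB5q0) cB202R_ok B hρ hen (gatB22 x) (gatB82 x) (fun _ => gatB40 x) (fun h => absurd h (by decide)) (datB22 x) (datB82 x) (fun _ => datB40 x) (fun h => absurd h (by decide)) hd hx hx' CW.B202R_284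
    · exact absurd h2 (by norm_num)
    · exact absurd h2 (by norm_num)
    · exact absurd h2 (by norm_num)
  · intro ρ a B hρ hd i h1 h2
    fin_cases i
    · exact corT_cert (G1 := gB2q2) (G2 := gB8q2) (Ga := gB0q0) (Gb := gB1q0) cB202R_ok B hρ (gatB22 x) (gatB82 x) (fun _ => gatB00 x) (fun _ => gatB10 x) hd hx hx' CG.B202R_280
    · exact corT_cert (G1 := gB2q2) (G2 := gB8q2) (Ga := gB1q0) (Gb := gB2q0) cB202R_ok B hρ (gatB22 x) (gatB82 x) (fun _ => gatB10 x) (fun _ => gatB20 x) hd hx hx' CG.B202R_281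
    · exact corT_cert (G1 := gB2q2) (G2 := gB8q2) (Ga := gB2q0) (Gb := gB3q0) cB202R_ok B hρ (gatB22 x) (gatB82 x) (fun _ => gatB20 x) (fun _ => gatB30 x) hd hx hx' CG.B202R_282
    · exact corT_cert (G1 := gB2q2) (G2 := gB8q2) (Ga := gB3q0) (Gb := gB4q0) cB202R_ok B hρ (gatB22 x) (gatB82 x) (fun _ => gatB30 x) (fun _ => gatB40 x) hd hx hx' CG.B202R_283
    · exact corT_cert (G1 := gB2q2) (G2 := gB8q2) (Ga := gB4q0) (Gb := gB5q0) cB202R_ok B hρ (gatB22 x) (gatB82 x) (fun _ => gatB40 x) (fun h => absurd h (by decide)) hd hx hx' CG.B202R_284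
    · exact absurd h2 (by norm_num)
    · exact absurd h2 (by norm_num)
    · exact absurd h2 (by norm_num)

theorem altB_B202R_38 {κ x : ℝ} (hκ : κ * h0 = ken x) (hx : ((649613803 : ℕ) : ℝ) / S ≤ x) (hx' : x ≤ (((649613803 : ℕ) : ℝ) + (48318383 : ℕ)) / S) :
    AltEB 3 κ (eng.v x) (3 / 40) (tnt (h0 * x) (3 / 10)) PP tK tL tC pcB (scP esg pd) [⟨0, 1, 0, 67108864⟩, ⟨1, 0, 0, 67108864⟩, ⟨2, 1, 0, 67108864⟩] 2 0 2 3 8 (sgb false) (sgb false) x := by
  have X : XR 67108864 x := XR.of hx hx' (by norm_num) (by norm_num) (by norm_num) (by norm_num)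
  have hen : 0 < eng.v x := en_pos X.x0.le
  refine CornW.altB (C := cB202R) (j := (3 : Fin 9)) (k := (8 : Fin 9)) (Ef := esg) (pd := pd) (o := 3 / 40)
    (cornW_of (C := cB202R) (C0 := c0B) (En := eng) (mo := mog) (j := (3 : Fin 9)) (k := (8 : Fin 9)) (lo := 0) (hi := 4) (W := 67108864) (N0 := 3) cB202R_q (sideB hx hx') gokB (pinU hx hx') dokB X (by norm_num) (by norm_num) (l := (0 : Fin 9)) rfl
      (gatB32 x) (gatB82 x) (gatB00 x) (datB32 x) (datB82 x) (datB00 x) ?_)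
    (cornS_of (C := cB202R) (C0 := c0B) (j := (3 : Fin 9)) (k := (8 : Fin 9)) (lo := 0) (hi := 4) (W := 67108864) (N0 := 3) cB202R_q (sideB hx hx') gokB X (by norm_num) (by norm_num) (l := (0 : Fin 9)) rfl
      (gatB32 x) (gatB82 x) (gatB00 x) ?_)
    (thU (pinU hx hx')) rfl hκ (fun j q y => tC_eq j q y x) (esg_rng X.x0.le (by linarith [X.b, X.p0])).1 (mo_v x) le_rfl le_rfl
  · intro ρ a B hρ hd i h1 h2
    fin_cases i
    · exact corW_cert (G1 := gB3q2) (G2 := gB8q2) (Ga := gB0q0) (Gb := gB1q0) (D1 := dB3q2) (D2 := dB8q2) (Da := dB0q0) (Db := dB1q0) cB202R_ok B hρ hen (gatB32 x) (gatB82 x) (fun _ => gatB00 x) (fun _ => gatB10 x) (datB32 x) (datB82 x) (fun _ => datB00 x) (fun _ => datB10 x) hd hx hx' CW.B202R_380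
    · exact corW_cert (G1 := gB3q2) (G2 := gB8q2) (Ga := gB1q0) (Gb := gB2q0) (D1 := dB3q2) (D2 := dB8q2) (Da := dB1q0) (Db := dB2q0) cB202R_ok B hρ hen (gatB32 x) (gatB82 x) (fun _ => gatB10 x) (fun _ => gatB20 x) (datB32 x) (datB82 x) (fun _ => datB10 x) (fun _ => datB20 x) hd hx hx' CW.B202R_381
    · exact corW_cert (G1 := gB3q2) (G2 := gB8q2) (Ga := gB2q0) (Gb := gB3q0) (D1 := dB3q2) (D2 := dB8q2) (Da := dB2q0) (Db := dB3q0) cB202R_ok B hρ hen (gatB32 x) (gatB82 x) (fun _ => gatB20 x) (fun _ => gatB30 x) (datB32 x) (datB82 x) (fun _ => datB20 x) (fun _ => datB30 x) hd hx hx' CW.B202R_382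
    · exact corW_cert (G1 := gB3q2) (G2 := gB8q2) (Ga := gB3q0) (Gb := gB4q0) (D1 := dB3q2) (D2 := dB8q2) (Da := dB3q0) (Db := dB4q0) cB202R_ok B hρ hen (gatB32 x) (gatB82 x) (fun _ => gatB30 x) (fun _ => gatB40 x) (datB32 x) (datB82 x) (fun _ => datB30 x) (fun _ => datB40 x) hd hx hx' CW.B202R_383
    · exact corW_cert (G1 := gB3q2) (G2 := gB8q2) (Ga := gB4q0) (Gb := gB5q0) (D1 := dB3q2) (D2 := dB8q2) (Da := dB4q0) (Db := dB5q0) cB202R_ok B hρ hen (gatB32 x) (gatB82 x) (fun _ => gatB40 x) (fun h => absurd h (by decide)) (datB32 x) (datB82 x) (fun _ => datB40 x) (fun h => absurd h (by decide)) hd hx hx' CW.B202R_384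
    · exact absurd h2 (by norm_num)
    · exact absurd h2 (by norm_num)
    · exact absurd h2 (by norm_num)
  · intro ρ a B hρ hd i h1 h2
    fin_cases i
    · exact corT_cert (G1 := gB3q2) (G2 := gB8q2) (Ga := gB0q0) (Gb := gB1q0) cB202R_ok B hρ (gatB32 x) (gatB82 x) (fun _ => gatB00 x) (fun _ => gatB10 x) hd hx hx' CG.B202R_380
    · exact corT_cert (G1 := gB3q2) (G2 := gB8q2) (Ga := gB1q0) (Gb := gB2q0) cB202R_ok B hρ (gatB32 x) (gatB82 x) (fun _ => gatB10 x) (fun _ => gatB20 x) hd hx hx' CG.B202R_381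
    · exact corT_cert (G1 := gB3q2) (G2 := gB8q2) (Ga := gB2q0) (Gb := gB3q0) cB202R_ok B hρ (gatB32 x) (gatB82 x) (fun _ => gatB20 x) (fun _ => gatB30 x) hd hx hx' CG.B202R_382
    · exact corT_cert (G1 := gB3q2) (G2 := gB8q2) (Ga := gB3q0) (Gb := gB4q0) cB202R_ok B hρ (gatB32 x) (gatB82 x) (fun _ => gatB30 x) (fun _ => gatB40 x) hd hx hx' CG.B202R_383
    · exact corT_cert (G1 := gB3q2) (G2 := gB8q2) (Ga := gB4q0) (Gb := gB5q0) cB202R_ok B hρ (gatB32 x) (gatB82 x) (fun _ => gatB40 x) (fun h => absurd h (by decide)) hd hx hx' CG.B202R_384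
    · exact absurd h2 (by norm_num)
    · exact absurd h2 (by norm_num)
    · exact absurd h2 (by norm_num)

theorem altB_B202R_48 {κ x : ℝ} (hκ : κ * h0 = ken x) (hx : ((649613803 : ℕ) : ℝ) / S ≤ x) (hx' : x ≤ (((649613803 : ℕ) : ℝ) + (48318383 : ℕ)) / S) :
    AltEB 3 κ (eng.v x) (3 / 40) (tnt (h0 * x) (3 / 10)) PP tK tL tC pcB (scP esg pd) [⟨0, 1, 0, 67108864⟩, ⟨1, 0, 0, 67108864⟩, ⟨2, 1, 0, 67108864⟩] 2 0 2 4 8 (sgb false) (sgb false) x := by
  have X : XR 67108864 x := XR.of hx hx' (by norm_num) (by norm_num) (by norm_num) (by norm_num)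
  have hen : 0 < eng.v x := en_pos X.x0.le
  refine CornW.altB (C := cB202R) (j := (4 : Fin 9)) (k := (8 : Fin 9)) (Ef := esg) (pd := pd) (o := 3 / 40)
    (cornW_of (C := cB202R) (C0 := c0B) (En := eng) (mo := mog) (j := (4 : Fin 9)) (k := (8 : Fin 9)) (lo := 0) (hi := 4) (W := 67108864) (N0 := 3) cB202R_q (sideB hx hx') gokB (pinU hx hx') dokB X (by norm_num) (by norm_num) (l := (0 : Fin 9)) rfl
      (gatB42 x) (gatB82 x) (gatB00 x) (datB42 x) (datB82 x) (datB00 x) ?_)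
    (cornS_of (C := cB202R) (C0 := c0B) (j := (4 : Fin 9)) (k := (8 : Fin 9)) (lo := 0) (hi := 4) (W := 67108864) (N0 := 3) cB202R_q (sideB hx hx') gokB X (by norm_num) (by norm_num) (l := (0 : Fin 9)) rfl
      (gatB42 x) (gatB82 x) (gatB00 x) ?_)
    (thU (pinU hx hx')) rfl hκ (fun j q y => tC_eq j q y x) (esg_rng X.x0.le (by linarith [X.b, X.p0])).1 (mo_v x) le_rfl le_rfl
  · intro ρ a B hρ hd i h1 h2
    fin_cases i
    · exact corW_cert (G1 := gB4q2) (G2 := gB8q2) (Ga := gB0q0) (Gb := gB1q0) (D1 := dB4q2) (D2 := dB8q2) (Da := dB0q0) (Db := dB1q0) cB202R_ok B hρ hen (gatB42 x) (gatB82 x) (fun _ => gatB00 x) (fun _ => gatB10 x) (datB42 x) (datB82 x) (fun _ => datB00 x) (fun _ => datB10 x) hd hx hx' CW.B202R_480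
    · exact corW_cert (G1 := gB4q2) (G2 := gB8q2) (Ga := gB1q0) (Gb := gB2q0) (D1 := dB4q2) (D2 := dB8q2) (Da := dB1q0) (Db := dB2q0) cB202R_ok B hρ hen (gatB42 x) (gatB82 x) (fun _ => gatB10 x) (fun _ => gatB20 x) (datB42 x) (datB82 x) (fun _ => datB10 x) (fun _ => datB20 x) hd hx hx' CW.B202R_481
    · exact corW_cert (G1 := gB4q2) (G2 := gB8q2) (Ga := gB2q0) (Gb := gB3q0) (D1 := dB4q2) (D2 := dB8q2) (Da := dB2q0) (Db := dB3q0) cB202R_ok B hρ hen (gatB42 x) (gatB82 x) (fun _ => gatB20 x) (fun _ => gatB30 x) (datB42 x) (datB82 x) (fun _ => datB20 x) (fun _ => datB30 x) hd hx hx' CW.B202R_482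
    · exact corW_cert (G1 := gB4q2) (G2 := gB8q2) (Ga := gB3q0) (Gb := gB4q0) (D1 := dB4q2) (D2 := dB8q2) (Da := dB3q0) (Db := dB4q0) cB202R_ok B hρ hen (gatB42 x) (gatB82 x) (fun _ => gatB30 x) (fun _ => gatB40 x) (datB42 x) (datB82 x) (fun _ => datB30 x) (fun _ => datB40 x) hd hx hx' CW.B202R_483
    · exact corW_cert (G1 := gB4q2) (G2 := gB8q2) (Ga := gB4q0) (Gb := gB5q0) (D1 := dB4q2) (D2 := dB8q2) (Da := dB4q0) (Db := dB5q0) cB202R_ok B hρ hen (gatB42 x) (gatB82 x) (fun _ => gatB40 x) (fun h => absurd h (by decide)) (datB42 x) (datB82 x) (fun _ => datB40 x) (fun h => absurd h (by decide)) hd hx hx' CW.B202R_484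
    · exact absurd h2 (by norm_num)
    · exact absurd h2 (by norm_num)
    · exact absurd h2 (by norm_num)
  · intro ρ a B hρ hd i h1 h2
    fin_cases i
    · exact corT_cert (G1 := gB4q2) (G2 := gB8q2) (Ga := gB0q0) (Gb := gB1q0) cB202R_ok B hρ (gatB42 x) (gatB82 x) (fun _ => gatB00 x) (fun _ => gatB10 x) hd hx hx' CG.B202R_480
    · exact corT_cert (G1 := gB4q2) (G2 := gB8q2) (Ga := gB1q0) (Gb := gB2q0) cB202R_ok B hρ (gatB42 x) (gatB82 x) (fun _ => gatB10 x) (fun _ => gatB20 x) hd hx hx' CG.B202R_481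
    · exact corT_cert (G1 := gB4q2) (G2 := gB8q2) (Ga := gB2q0) (Gb := gB3q0) cB202R_ok B hρ (gatB42 x) (gatB82 x) (fun _ => gatB20 x) (fun _ => gatB30 x) hd hx hx' CG.B202R_482
    · exact corT_cert (G1 := gB4q2) (G2 := gB8q2) (Ga := gB3q0) (Gb := gB4q0) cB202R_ok B hρ (gatB42 x) (gatB82 x) (fun _ => gatB30 x) (fun _ => gatB40 x) hd hx hx' CG.B202R_483
    · exact corT_cert (G1 := gB4q2) (G2 := gB8q2) (Ga := gB4q0) (Gb := gB5q0) cB202R_ok B hρ (gatB42 x) (gatB82 x) (fun _ => gatB40 x) (fun h => absurd h (by decide)) hd hx hx' CG.B202R_484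
    · exact absurd h2 (by norm_num)
    · exact absurd h2 (by norm_num)
    · exact absurd h2 (by norm_num)

end Pool.Agent.Strip051.G.I6050_6500.Tab
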