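import Pool.Agent.Strip051.G.I6050_6500.StH
import Pool.Agent.Strip051.G.I6050_6500.StF

/-! # Unit strips 17 (generated) -/

set_option linter.all false
set_option maxRecDepth 100000

namespace Pool.Agent.Strip051.G.I6050_6500.Tab.St.C

open Pool.Agent.Strip051.PB Pool.Agent.Strip051.PB.T Pool.Agent.StripNear Pool.Agent.Strip051.LC
open Pool.Agent.Strip051.G.I6050_6500.Tab Pool.Agent.Strip051.G.I6050_6500.Tab.St

noncomputable def cut_B00pm_102_s1 : Cut := Cut.of [[⟨4, 0, 0, 1449551462⟩], [⟨0, 1, 0, 33554432⟩, ⟨1, 0, 0, 33554432⟩, ⟨2, 1, 0, 33554432⟩], [⟨0, 0, 1, 20971520⟩, ⟨1, 1, 2, 20971520⟩, ⟨2, 1, 0, 33554432⟩]]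

noncomputable def xt_B00pm_102_s1 : Ext := strExt6 dd false true false .u0 .u2 .u0m .npp 1 0 2 rfl rfl gf0 vv ww ndB0q1 ndB0q2

noncomputable def f_B00pm_102_s1 : ℕ → ℕ → ℕ → ℕ → Bool := onCell 536870912 536870912 0 536870912 649613803 48318383
    (rowF 0 false true false .npp 1 0 2 (qsf 536870912 536870912 0 536870912 0) ndB0q1 ndB0q2 pcB0 cut_B00pm_102_s1 xt_B00pm_102_s1)

def k0_B00pm_102_s1 : ∃ t, chk3 f_B00pm_102_s1 t 4 2 1 = true :=
  ⟨(b (l 2) (a (l 2) (a (l 2) (a (l 2) (b (l 2) (b (l 2) (b (l 16673424) (l 16663472)))))))), by decide +kernel⟩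

def k1_B00pm_102_s1 : ∃ t, chk3 f_B00pm_102_s1 t 5 4 1 = true :=
  ⟨(a (b (a (a (l 2) (l 3)) (l 3)) (a (a (l 2) (b (a (l 2) (b (b (l 3) (l 1069943823)) (l 1070011407))) (b (a (a (l 2) (l 1070369807)) (b (l 1070071823) (l 1070108175))) (a (a (l 2) (b (b (a (l 2) (l 16757344)) (l 16760240)) (l 16750752))) (b (a (b (l 16758312) (a (l 16755944) (l 16756456))) (l 16763840)) (a (b (l 16754080) (l 16751208)) (b (l 16757920) (l 16753288)))))))) (b (a (b (l 3) (a (l 1069729295) (a (l 1069645839) (l 1069613583)))) (l 3)) (a (b (b (a (b (l 1069789199) (l 1069811727)) (b (a (l 1069710863) (l 1069681167)) (l 1069719055))) (a (l 1069845007) (b (l 1069743631) (l 1069770767)))) (a (b (l 1069890063) (a (b (l 16757064) (l 16754792)) (l 16758048))) (b (l 1069810191) (l 1069861903)))) (b (a (b (b (a (l 1069669391) (l 3)) (c (l 1069557263) (l 1069290511))) (a (l 1069740559) (l 1069749775))) (b (l 3) (l 1069528591))) (a (b (a (l 1069798927) (l 1069811727)) (l 1069862415)) (b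 (l 1069327375) (l 1069931023)))))))) (b (l 3) (a (b (l 3) (a (b (l 3) (b (a (l 1069457935) (l 3)) (a (l 1070069775) (l 1070275087)))) (l 3))) (l 3)))), by decide +kernel⟩

def k2_B00pm_102_s1 : ∃ t, chk3 f_B00pm_102_s1 t 10 5 1 = true :=
  ⟨(b (b (a (b (a (l 2) (a (a (b (l 16743728) (l 16738576)) (b (l 16745472) (l 16740352))) (b (a (l 16747288) (l 16749184)) (a (l 16742208) (l 16744144))))) (a (b (l 2) (a (l 2) (l 60230124311))) (a (b (a (l 16733600) (l 16735408)) (l 14059232951)) (b (l 16743536) (l 16738856))))) (b (a (a (b (a (l 16756856) (b (l 16754728) (l 16752776))) (l 16753112)) (b (b (l 16760784) (a (l 16754808) (l 16757224))) (a (l 16751824) (b (l 16755024) (l 16753184))))) (a (b (l 1069920783) (a (b (l 16757520) (l 16755368)) (l 16758944))) (l 1070031887))) (a (a (b (l 16743328) (l 16738944)) (b (l 16748536) (l 16744376))) (a (b (a (l 16752600) (b (l 16755832) (l 16754128))) (l 16749744)) (b (a (b (l 16758464) (l 16756432)) (l 16760056)) (b (a (l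 16754808) (l 16757160)) (l 16754256))))))) (a (a (a (l 2) (b (b (l 16731824) (l 16716528)) (l 12448590007))) (a (b (b (l 16724976) (l 16720272)) (l 16723784)) (b (b (l 16729016) (l 16724456)) (l 16728208)))) (b (a (a (b (l 16734584) (l 16730200)) (b (l 16740256) (l 16736104))) (a (l 16749144) (l 16754768))) (a (b (l 16739352) (l 16724600)) (a (l 16736072) (l 16742176)))))) (b (a (b (a (b (a (l 16699224) (l 16702008)) (l 16717168)) (b (l 16708624) (a (l 16701864) (l 16706464)))) (a (l 16710232) (b (l 16710936) (l 16695536)))) (b (a (b (l 16720352) (l 16716152)) (b (l 16733472) (l 16729784))) (a (b (l 16711384) (l 16707720)) (l 16724344)))) (a (b (a (l 16680032) (l 16689024)) (a (l 16670584) (l 16680192))) (b (a (l 16702208) (b (l 16718264) (l 16715592))) (a (l 16693168) (l 16709672)))))), by decide +kernel⟩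

def k3_B00pm_102_s1 : ∃ t, chk3 f_B00pm_102_s1 t 11 5 1 = true :=
  ⟨(b (a (b (b (a (a (l 1069646351) (l 1070402063)) (a (l 1070150671) (l 1070503951))) (a (b (l 1070407183) (a (b (l 16761168) (a (l 16757976) (l 16760712))) (l 1070622735))) (b (a (l 1070835215) (l 1071205903)) (a (l 1070933519) (c (l 1071035407) (l 1071091727)))))) (a (b (a (b (b (l 16760408) (l 16756040)) (l 16753320)) (b (a (b (l 16761608) (l 16759824)) (l 16763384)) (b (l 16759776) (l 16758168)))) (a (l 16748192) (l 16754080))) (b (a (b (l 1071001103) (a (l 16762576) (l 16765392))) (b (l 1071386639) (l 1071434767))) (a (b (b (l 16762080) (l 16760656)) (l 16758352)) (b (a (l 16764944) (l 16767632)) (b (l 16764728) (l 16763520))))))) (b (a (b (l 3) (a (b (c (l 1071348751) (l 1071485455)) (c (l 1071419919) (l 1071564815))) (l 3))) (l 3)) (a (b (a (a (l 1071182351) (l 1071967247)) (l 1072295439)) (a (b (l 1071935503) (a (l 16767648) (l 16770128))) (l 1072386063))) (b (a (l 1072654351) (l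 3)) (a (l 1072729103) (l 1073179151)))))) (b (a (a (b (b (l 16746248) (l 16743080)) (l 16738440)) (b (b (l 16758472) (l 16755832)) (l 16752008))) (b (a (a (b (b (l 16767696) (l 16766704)) (l 16764872)) (b (a (l 16770224) (l 16772136)) (a (l 16768952) (l 16770856)))) (a (a (b (l 16773448) (l 16772216)) (l 1072954383)) (l 1073359375))) (a (a (l 16761624) (l 16767032)) (b (a (a (l 16771512) (l 16773696)) (a (l 16775224) (l 16776720))) (a (l 16771264) (l 16770672)))))) (a (b (a (l 16732304) (l 16747072)) (a (b (l 16727592) (l 16725416)) (l 16741896))) (a (b (a (l 16757496) (l 16763672)) (l 16757368)) (b (a (l 16769416) (l 16774224)) (l 16769760)))))), by decide +kernel⟩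

def k4_B00pm_102_s1 : ∃ t, chk3 f_B00pm_102_s1 t 2 3 1 = true :=
  ⟨(a (b (l 6) (l 6)) (b (b (a (a (b (b (l 16686936) (l 16656888)) (l 6)) (a (b (l 16681232) (l 16667136)) (b (l 16698920) (l 16686424)))) (b (a (b (a (l 16720040) (b (l 16739144) (l 16736992))) (l 16744136)) (b (a (b (l 16755304) (l 16753496)) (l 16768000)) (a (l 16752312) (b (l 16766680) (l 16766024))))) (a (b (l 16718080) (l 16713888)) (a (l 16746072) (b (l 16765096) (l 16761496)))))) (a (l 6) (b (a (a (l 16699160) (l 16721360)) (a (l 16742344) (l 16759936))) (a (l 6) (a (b (a (l 6) (l 16748784)) (l 6)) (b (l 16761736) (c (l 16725856) (l 16676760)))))))) (l 6))), by decide +kernel⟩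

def k5_B00pm_102_s1 : ∃ t, chk3 f_B00pm_102_s1 t 3 2 1 = true :=
  ⟨(a (b (l 3) (a (a (b (b (l 3) (a (a (b (l 3) (l 1073686031)) (l 3)) (l 3))) (b (a (b (a (l 1073833487) (l 1074225679)) (a (b (l 1073937423) (a (l 16777656) (l 16778536))) (l 1074284047))) (b (a (l 1074528271) (l 3)) (l 1074647567))) (a (b (a (b (a (l 16777784) (l 16778840)) (l 16777408)) (b (a (l 16779288) (l 16779640)) (a (l 16779672) (l 16780160)))) (a (l 16776104) (l 16778888))) (b (a (b (l 1074532367) (a (l 16780152) (l 16780080))) (l 1074778639)) (a (b (a (l 16780704) (l 16780840)) (l 16780568)) (b (a (l 16781232) (l 16781488)) (a (l 16782568) (b (l 16782688) (l 16783528))))))))) (b (l 3) (b (a (b (l 3) (a (a (l 1074943503) (l 3)) (l 3))) (l 3)) (b (a (a (a (l 1075087375) (l 1075274255)) (l 1075494415)) (l 3)) (b (a (a (l 1075276815) (l 1075542543)) (a (c (a (l 1075573263) (l 1075610127)) (l 1075264015)) (l 3))) (a (a (a (b (l 16782632) (l 16783504)) (l 1075407887)) (a (l 1075524623)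 (l 1075611663))) (a (a (l 1075670031) (c (l 1075605007) (l 1075815951))) (b (a (l 1075707407) (l 3)) (a (c (l 1075598351) (l 1075817999)) (a (a (a (a (l 1075686415) (l 1075146767)) (l 3)) (l 3)) (l 3))))))))))) (l 3))) (l 3)), by decide +kernel⟩

def k6_B00pm_102_s1 : ∃ t, chk3 f_B00pm_102_s1 t 24 12 1 = true :=
  ⟨(b (a (b (a (l 16774728) (l 16777784)) (l 16775904)) (b (a (l 16780512) (l 16783104)) (a (l 16780800) (l 16783304)))) (a (b (a (l 16773512) (l 16777328)) (l 16774816)) (b (l 16782600) (a (b (l 16781632) (l 16781392)) (b (l 16784328) (l 16742672)))))), by decide +kernel⟩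

def k7_B00pm_102_s1 : ∃ t, chk3 f_B00pm_102_s1 t 25 24 1 = true :=
  ⟨(a (b (a (b (a (b (l 16784384) (l 16784464)) (b (l 16784096) (a (l 16785072) (l 16784976)))) (l 16784800)) (b (a (b (l 16783432) (l 16784480)) (l 1075631631)) (a (b (a (l 16785552) (b (l 16785144) (l 16785616))) (l 16785560)) (b (l 16779432) (a (l 16780568) (b (l 16785288) (l 16785744))))))) (a (l 16784888) (b (a (l 16785528) (l 16785768)) (l 16785648)))) (b (b (a (a (l 1075138575) (c (l 1075596815) (l 1075805199))) (a (c (a (l 1075591183) (b (l 1075585551) (l 1075577359))) (l 1075271183)) (a (a (a (b (l 1075137039) (l 1075663375)) (l 1075663375)) (l 1075654159)) (a (l 1075641359) (l 1075628047))))) (b (a (a (l 1075682319) (l 1075690511)) (a (c (l 1075578383) (l 1075795983)) (l 1075092495))) (a (a (l 16779456) (l 1075687951)) (a (l 1075130383) (l 1075616271))))) (a (b (a (b (a (b (l 16780488) (l 16785872)) (b (l 16785248) (a (l 16785840) (l 16785560)))) (l 16785880)) (b (l 16779264) (a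 (b (a (l 16785760) (l 16785448)) (l 16785808)) (b (l 16785008) (a (l 16780384) (l 16785304)))))) (a (l 16785768) (b (c (l 16780136) (l 16781032)) (l 16785624)))) (b (a (l 1075115023) (l 1075595791)) (a (b (a (b (a (b (l 16785368) (l 16785576)) (l 16785112)) (a (l 16785528) (l 16780264))) (b (l 16784616) (a (b (l 16785160) (l 16785376)) (l 16784896)))) (a (l 16785448) (b (a (l 16785344) (b (l 16780024) (l 16785248))) (l 16785272)))) (b (l 1075574287) (a (b (a (b (l 16784920) (c (l 16784728) (l 16785656))) (l 16784656)) (a (l 16785128) (c (l 16779400) (b (l 16785528) (l 16785544))))) (b (l 16784112) (a (b (l 16784664) (a (l 16784960) (l 16784792))) (l 16784400)))))))))), by decide +kernel⟩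

def k8_B00pm_102_s1 : ∃ t, chk3 f_B00pm_102_s1 t 25 25 1 = true :=
  ⟨(a (b (a (l 16785200) (b (l 16785720) (l 16785872))) (a (b (l 16785632) (l 16785832)) (l 16765400))) (b (a (b (a (l 16785768) (l 16780368)) (c (l 16785440) (l 16786272))) (b (a (c (l 16784920) (l 16780592)) (b (a (c (l 16784624) (l 16785560)) (a (l 16782248) (b (b (a (l 16784824) (l 16782016)) (l 16784768)) (l 16784736)))) (c (l 16784472) (l 16785408)))) (c (l 16774208) (a (l 16785864) (l 16780176))))) (c (a (l 16785792) (l 16774424)) (a (l 16765728) (b (l 16775280) (l 16786120)))))), by decide +kernel⟩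

def k9_B00pm_102_s1 : ∃ t, chk3 f_B00pm_102_s1 t 12 13 1 = true :=
  ⟨(a (b (a (c (l 16775184) (l 16771528)) (b (l 16782400) (l 16698832))) (a (c (l 16735920) (l 16690640)) (l 16744368))) (b (a (b (a (b (l 16744832) (l 16786472)) (b (l 16765840) (l 16767232))) (c (l 16787488) (l 16788216))) (b (a (b (l 16786952) (a (l 16766728) (l 16787496))) (c (l 16785872) (l 16787272))) (a (c (l 16788760) (b (l 16747952) (l 16790104))) (b (a (a (l 16788336) (l 16766864)) (l 16766232)) (l 16778600))))) (a (c (l 16790624) (l 16750376)) (c (l 16769880) (b (l 16749992) (l 16796016)))))), by decide +kernel⟩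

def k10_B00pm_102_s1 : ∃ t, chk3 f_B00pm_102_s1 t 13 24 1 = true :=
  ⟨(a (a (a (a (b (b (b (l 3) (a (l 1075597839) (l 1075563023))) (a (l 1075574287) (l 1075537423))) (b (l 1075521551) (a (l 1075506703) (l 1075462671)))) (b (b (l 3) (a (l 1074959375) (l 1074914831))) (c (b (l 1075333647) (l 1075292175)) (c (l 1075469839) (l 1075069967))))) (a (b (a (b (l 3) (l 1074866703)) (l 3)) (c (b (l 1075232783) (l 1075185679)) (c (l 1075901967) (l 1074966031)))) (b (l 3) (b (b (l 1075231247) (l 1074734607)) (c (l 1075068943) (l 1075286543)))))) (a (b (l 3) (c (b (a (l 1074998287) (l 3)) (a (l 1074942991) (l 1074808335))) (a (b (l 1075216399) (a (l 1075190287) (l 1075123215))) (b (l 3) (l 1075554319))))) (l 3))) (l 3)), by decide +kernel⟩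

def k11_B00pm_102_s1 : ∃ t, chk3 f_B00pm_102_s1 t 104 50 1 = true :=
  ⟨(b (a (b (a (a (b (b (l 16784392) (c (l 16784160) (a (l 16785192) (l 16785000)))) (l 16782016)) (b (l 16784120) (b (c (l 16784008) (a (l 16785040) (l 16784840))) (l 16784520)))) (a (b (l 16783728) (b (l 16784080) (c (l 16783840) (a (l 16782256) (l 16784680))))) (l 1075420687))) (c (b (a (l 16784120) (a (l 16783968) (b (l 16783680) (l 16783832)))) (l 16783960)) (a (l 16785040) (b (a (l 16784896) (b (c (l 16784320) (a (l 16785008) (l 16784808))) (l 16782128))) (l 16784760))))) (b (c (l 1075259919) (l 1075479567)) (a (a (b (b (l 16783752) (a (b (l 16783992) (l 16784088)) (l 16783848))) (b (b (c (l 16783664) (l 16781960)) (l 16784032)) (l 16784024))) (b (l 16783472) (c (b (l 16783344) (l 16783520)) (a (b (b (l 16784328) (l 16784432)) (l 16784432)) (b (l 16784184) (b (l 16784344) (l 16784352))))))) (a (b (l 16783088) (a (b (l 16783504) (b (l 16783656) (a (l 16783792) (l 16783696)))) (l 16783416)))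 (l 1075292175))))) (b (a (c (l 16783928) (c (l 16784592) (l 16785200))) (c (b (a (l 16783528) (b (a (l 16783352) (l 16782992)) (l 16783296))) (l 16783352)) (a (c (l 16784168) (l 16784752)) (b (a (a (l 16784264) (b (b (l 16784160) (l 16784192)) (l 16784176))) (c (b (l 16783616) (l 16783816)) (a (b (b (l 16784272) (l 16784360)) (l 16784416)) (b (l 16784120) (b (l 16784264) (l 16784336)))))) (l 16784120))))) (c (l 16783608) (a (l 16784880) (c (l 16783976) (l 16784592)))))), by decide +kernel⟩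

def k12_B00pm_102_s1 : ∃ t, chk3 f_B00pm_102_s1 t 105 50 1 = true :=
  ⟨(b (a (c (l 1075137039) (a (l 1075384335) (l 1075324431))) (c (l 1075015695) (a (l 1075262479) (l 1075197967)))) (b (a (a (a (c (b (l 16782712) (l 16783048)) (a (b (b (l 16783632) (b (l 16783800) (l 16783872))) (l 16783952)) (b (l 16783544) (b (b (l 16783776) (l 16783864)) (l 16783832))))) (b (l 1075215375) (c (b (l 16782648) (l 16782832)) (c (b (l 16783256) (l 16783448)) (a (b (c (l 16783760) (l 16784064)) (l 16784080)) (b (l 16783744) (b (l 16783880) (l 16783976)))))))) (b (l 1075169807) (c (l 16782208) (c (l 16782784) (c (l 16783160) (a (b (l 16783584) (l 16783760)) (l 16783288))))))) (c (l 16775840) (c (l 1075123727) (l 1075258383)))) (a (c (a (l 16782864) (b (a (l 16782696) (a (l 16782440) (l 16782248))) (l 16782528))) (a (c (l 16783504) (l 16784088)) (b (c (b (a (l 16783256) (l 16782896)) (a (l 16783256) (l 16783064))) (a (b (a (l 16783904) (b (l 16783680) (l 16783784))) (l 16783824))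 (b (l 16783424) (a (a (l 16783728) (l 16783680)) (b (l 16783488) (l 16783592)))))) (l 16783424)))) (a (a (c (b (l 16782040) (l 16782328)) (b (l 16782864) (b (a (b (l 16783200) (l 16783208)) (b (l 16783016) (l 16783096))) (l 16783160)))) (b (l 1075062287) (b (l 16782312) (c (l 16782064) (a (b (l 16782992) (l 16783032)) (b (l 16782824) (l 16782888))))))) (c (l 16781384) (l 1075124751)))))), by decide +kernel⟩

def k13_B00pm_102_s1 : ∃ t, chk3 f_B00pm_102_s1 t 52 51 1 = true :=
  ⟨(a (c (b (l 16783608) (l 16783760)) (b (c (l 16784304) (a (l 16785312) (l 16784656))) (c (l 16784536) (l 16785312)))) (b (c (a (l 16782648) (a (l 16782168) (b (b (a (l 16781944) (l 16781560)) (l 16781880)) (l 16781784)))) (b (a (c (l 16783304) (l 16783912)) (b (b (a (l 16783088) (a (a (b (l 16782784) (l 16782856)) (b (l 16782624) (l 16782680))) (l 16782384))) (a (l 16783056) (a (l 16782816) (a (b (l 16782576) (l 16782664)) (l 16782424))))) (c (l 16782672) (a (l 16783360) (c (l 16782888)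 (l 16783200)))))) (c (l 16782952) (a (l 16783976) (l 16783208))))) (c (l 16782360) (a (l 16783824) (a (l 16783248) (l 16782856)))))), by decide +kernel⟩

def k14_B00pm_102_s1 : ∃ t, chk3 f_B00pm_102_s1 t 53 50 1 = true :=
  ⟨(b (a (c (l 1075354127) (c (l 1075499023) (a (l 1075167247) (l 1075024399)))) (c (a (l 1074604559) (a (l 1074493967) (l 3))) (a (l 1074804239) (a (l 1074688527) (l 3))))) (b (a (c (l 1074773007) (c (l 1075452943) (a (l 1075121679) (l 1074976271)))) (b (c (a (l 1074566159) (l 1074416143)) (a (l 1074763279) (c (l 1074547215) (a (l 1074715151) (l 1074635279))))) (a (a (l 1074670607) (l 1074594831)) (a (a (l 1074537487) (l 1074498575)) (l 1074440207))))) (a (c (l 1074742799) (c (l 1074884623) (a (l 1075090447) (l 1074944015)))) (a (c (l 1074526223) (c (l 1074661391) (l 1074790927))) (a (a (l 1074512911) (l 1074473999)) (l 1074952207)))))), by decide +kernel⟩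

def k15_B00pm_102_s1 : ∃ t, chk3 f_B00pm_102_s1 t 53 51 1 = true :=
  ⟨(a (b (b (b (c (l 1074720271) (a (l 1074996751) (l 1074850319))) (c (a (a (a (l 16781552) (l 16781176)) (l 16780800)) (l 16779936)) (a (a (a (a (b (a (l 16782472) (l 16782360)) (l 16782448)) (b (l 16782224) (l 16782384))) (a (b (l 16782080) (a (l 16782256) (l 16782152))) (l 16781944))) (l 16781536)) (l 1074833935)))) (b (a (c (a (l 16781544) (a (l 16781152) (l 16780800))) (a (a (l 16782400) (a (l 16782256) (b (l 16782192) (l 16782160)))) (a (a (b (a (l 16782048) (l 16781944)) (l 16782064)) (b (l 16781848) (l 16781992))) (a (b (l 16781680) (l 16781784)) (l 16781584))))) (c (l 16780160) (l 1074819599))) (b (a (a (l 16781808) (a (l 16781544) (a (l 16781424) (a (l 16781368) (l 16781280))))) (a (a (c (l 16780704) (l 16781480)) (l 16780784)) (l 16780328))) (a (c (l 16781264) (l 16782128)) (a (c (l 16780664) (a (a (l 16781720) (l 16781584)) (l 16781296))) (l 16780448)))))) (c (a (l 16781296)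 (b (a (l 16780896) (b (a (l 16780384) (l 16780136)) (l 16780520))) (l 16780600))) (b (a (l 16776944) (b (b (a (c (l 16781384) (a (l 16781944) (l 16781752))) (l 16780944)) (a (l 16781576) (a (l 16776040) (l 16780944)))) (a (l 16781616) (a (l 16781312) (b (l 16781088) (l 16781128)))))) (a (l 16782328) (l 16781512))))) (b (a (c (l 1074480143) (c (l 1074613775) (b (l 1074757647) (l 1074729487)))) (a (a (l 1074465295) (l 1074426895)) (l 1074372623))) (a (a (a (b (b (l 16780192) (b (l 16780352) (a (l 16780552) (l 16780360)))) (l 16775288)) (b (l 16780024) (b (b (l 16775024) (l 16780360)) (l 16780352)))) (b (l 1074493455) (a (b (b (l 16780016) (l 16780080)) (l 16780224)) (b (l 16779800) (a (l 16774848) (l 16774664)))))) (a (b (l 1074418191) (b (l 16779424) (c (l 16779200) (l 16774664)))) (l 1074339343))))), by decide +kernel⟩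

def k16_B00pm_102_s1 : ∃ t, chk3 f_B00pm_102_s1 t 27 25 1 = true :=
  ⟨(a (b (a (b (l 3) (c (l 1074205711) (a (l 1074420751) (l 1074284559)))) (l 3)) (a (a (b (l 1075837455) (l 1074227215)) (a (l 1075214863) (l 1074050063))) (c (l 1073790991) (l 1073963535)))) (b (l 3) (a (c (l 1073547279) (l 1073719311)) (l 3)))), by decide +kernel⟩

def k17_B00pm_102_s1 : ∃ t, chk3 f_B00pm_102_s1 t 26 13 1 = true :=
  ⟨(b (a (a (b (c (l 16784464) (c (l 16785464) (l 16765488))) (b (l 16786424) (c (l 16744472) (b (l 16767280) (l 16768488))))) (b (c (l 16772432) (b (c (l 16783528) (l 16784392)) (l 16784728))) (c (l 16784384) (l 16776032)))) (a (b (c (b (l 16781120) (l 16781528)) (b (c (l 16781904) (l 16772176)) (l 16782968))) (c (l 16782576) (b (l 16783960) (l 16785232)))) (b (b (a (c (l 16780024) (l 16781000)) (b (a (c (l 16769152) (b (c (l 16780040) (l 16775320)) (l 16780312))) (b (l 16773968) (a (l 16779648) (l 16779328)))) (l 16779752))) (c (l 16779968) (l 16770704)))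 (c (l 16780840) (b (l 16782080) (l 16783240)))))) (b (a (b (a (l 16788720) (c (l 16744016) (c (l 16746000) (l 16768816)))) (c (l 16787736) (l 16791104))) (a (b (c (l 16783576) (l 16786368)) (c (l 16743504) (b (l 16788024) (l 16789392)))) (b (l 16783184) (c (l 16761584) (l 16764840))))) (a (c (l 16789968) (l 16752448)) (a (l 16768312) (b (c (c (l 16742304) (l 16785744)) (l 16767936)) (l 16767152)))))), by decide +kernel⟩

def k18_B00pm_102_s1 : ∃ t, chk3 f_B00pm_102_s1 t 27 26 1 = true :=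
  ⟨(a (b (a (a (a (b (b (c (l 16778576) (l 16779232)) (c (l 16768568) (b (l 16779640) (l 16779744)))) (l 16779528)) (b (b (l 16778560) (b (l 16778744) (c (l 16778584) (l 16779344)))) (l 16773952))) (b (l 1074088463) (b (b (a (l 16773368) (l 16778296)) (a (l 16778840) (l 16767864))) (l 16773680)))) (b (l 1073890831) (a (b (l 16777912) (b (a (l 16778128) (l 16777968)) (a (l 16778488) (l 16777968)))) (l 1073912335)))) (b (a (c (l 16778952) (l 16780272)) (b (a (a (l 16778536) (l 16768000)) (a (c (l 16767256) (l 16768088)) (b (l 16777864) (l 16767376)))) (a (l 16778696) (a (l 16778376) (b (l 16773000) (l 16778160)))))) (a (c (l 16779528) (l 16781328)) (a (c (l 16778568) (l 16780112)) (c (l 16777832) (l 16779104)))))) (b (a (c (l 1075212303) (l 1073798671)) (c (l 1073200143) (l 1073337359))) (a (b (a (b (l 1073832975) (a (b (l 16777528) (l 16767216)) (c (l 16776720) (l 16777344)))) (l 1073523727)) (b (a (a (l 16777536) (c (b (l 16776784) (l 16776648)) (l 16767144)))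 (a (b (l 16776512) (c (c (l 16781432) (l 16776352)) (l 16776856))) (l 16776208))) (a (l 16777224) (a (l 16776440) (b (c (a (l 16775952) (l 16775624)) (l 16765808)) (a (l 16776072) (l 16775920))))))) (a (a (b (l 1073327119) (b (l 1073273871) (b (l 16775752) (a (b (l 16775608) (l 16775704)) (b (l 16775568) (l 16780648)))))) (b (l 1073206287) (l 1073147919))) (b (c (l 1073010191) (l 1073107471)) (c (b (l 1072983055) (l 1072969231)) (l 1073061903))))))), by decide +kernel⟩

def k19_B00pm_102_s1 : ∃ t, chk3 f_B00pm_102_s1 t 27 27 1 = true :=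
  ⟨(a (b (b (a (c (l 16780280) (l 16782632)) (a (l 16769376) (l 16768104))) (a (c (l 16781136) (l 16784064)) (c (l 16778832) (l 16781056)))) (a (a (b (a (l 16763584) (l 16762784)) (l 16786048)) (b (l 16782856) (a (l 16785168) (l 16763312)))) (a (b (l 16781440) (b (l 16782168) (l 16762440))) (b (l 16780048) (a (l 16765640) (l 16781064)))))) (b (a (c (a (b (l 16776872) (l 16777224)) (b (c (l 16775888) (l 16776128)) (l 16776328))) (b (a (l 16778112) (l 16776856)) (a (l 16778840) (l 16777568)))) (b (a (c (b (a (a (l 16775472) (b (l 16775408) (l 16775304))) (a (b (b (l 16775112) (l 16775208)) (l 16775144)) (b (c (l 16775000) (l 16775032)) (b (l 16775056) (l 16774992))))) (l 16775288)) (b (a (l 16776064) (b (a (l 16775536) (l 16775320)) (a (l 16775584) (l 16775480)))) (l 16775904))) (b (a (b (l 16775192) (a (a (b (l 16774960) (l 16775032)) (b (l 16775008) (l 16780152))) (b (l 16775016) (l 16774840)))) (l 1072938511)) (a (c (a (l 16774896) (b (a (l 16777480) (b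 (l 16774696) (l 16774704))) (l 16774784))) (b (a (l 16775240) (b (l 16775048) (l 16775056))) (l 16775272))) (a (b (b (l 16774776) (c (a (l 16774704) (l 16774584)) (l 16774896))) (c (l 16774680) (l 16774984))) (b (l 16774760) (b (c (a (l 16777208) (l 16774488)) (l 16774752)) (c (l 16774600) (l 16774856)))))))) (c (a (c (l 16775480) (l 16775720)) (c (b (l 16774824) (l 16775040)) (b (l 16774896) (l 16775184)))) (a (l 16776472) (b (l 16775312) (l 16775760)))))) (a (c (b (a (l 16777952) (l 16777048)) (l 16778584)) (b (l 16779328) (l 16780912))) (c (a (b (l 16776280) (l 16777368)) (b (c (l 16775544) (l 16775808)) (l 16776712))) (b (a (l 16777592) (l 16776632)) (l 16778624)))))), by decide +kernel⟩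

def k20_B00pm_102_s1 : ∃ t, chk3 f_B00pm_102_s1 t 12 14 1 = true :=
  ⟨(b (a (b (a (c (c (l 16701992) (l 16700416)) (l 16740896)) (c (l 16750192) (l 16751424))) (a (l 6) (c (l 16797304) (l 16799856)))) (a (a (b (l 16797160) (l 16762504)) (b (l 16798880) (b (l 16719584) (l 16806960)))) (b (l 16757112) (a (b (l 16803912) (l 16766264)) (b (l 16803680) (a (l 16807504) (l 16806776))))))) (a (l 6) (c (a (b (l 16807952) (l 6)) (b (l 16808688) (a (l 16816656) (l 16816128)))) (a (b (l 16815776) (l 6)) (a (b (l 16818712) (l 16829840)) (b (l 16819168) (a (l 16830512) (l 16872288)))))))), by decide +kernel⟩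

def k21_B00pm_102_s1 : ∃ t, chk3 f_B00pm_102_s1 t 13 14 1 = true :=
  ⟨(a (b (b (a (c (l 16794112) (l 16800424)) (c (a (l 16791232) (l 16788800)) (c (l 16794384) (l 16756240)))) (a (a (a (l 16762440) (l 16804000)) (l 16781680)) (a (l 16789680) (l 16796968)))) (b (a (c (b (a (l 16805808) (l 16761080)) (l 16765816)) (a (b (l 16774608) (l 16821104)) (b (a (l 16772888) (l 16813072)) (l 16818552)))) (c (b (l 16799040) (l 16771312)) (b (l 16808328) (c (l 16768000) (l 16773992))))) (a (a (c (l 16814552) (a (l 16808536) (l 16828064))) (l 16860104)) (a (l 16814832) (l 16811272))))) (b (b (b (a (a (l 16787080) (a (l 16784640) (b (l 16761976) (l 16783680)))) (a (a (b (a (l 16781544) (l 16780984)) (l 16761696)) (b (l 16780280) (a (l 16781464) (l 16780768)))) (c (c (l 16778160) (l 16778856)) (l 16780592)))) (a (a (l 16789352) (l 16786096)) (a (c (a (l 16782456) (l 16781760)) (l 16785704)) (a (b (a (l 16781616) (l 16780864)) (l 16782520)) (b (l 16780456) (a (l 16781960)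 (l 16781248))))))) (a (c (a (l 16790616) (l 16787744)) (l 16753096)) (c (a (l 16785400) (b (l 16782416) (l 16784856))) (a (l 16789880) (l 16787296))))) (b (a (a (c (l 16796048) (l 16804008)) (l 16754624)) (c (a (l 16791008) (l 16789056)) (l 16753416))) (a (a (b (l 16785160) (l 16809432)) (b (a (l 16802800) (l 16800768)) (l 16805784))) (b (a (l 16798632) (l 16796424)) (a (c (l 16799776) (l 16807448)) (c (l 16796720) (l 16803512)))))))), by decide +kernel⟩

def k22_B00pm_102_s1 : ∃ t, chk3 f_B00pm_102_s1 t 6 15 1 = true :=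
  ⟨(a (l 6) (b (a (c (a (b (l 16821624) (l 6)) (b (l 16815624) (l 16824088))) (b (a (c (l 16832640) (l 16841592)) (l 16807368)) (a (l 6) (l 16880176)))) (a (b (c (l 16808800) (l 16819032)) (c (l 16816496) (l 16828008))) (b (c (c (l 16801544) (l 16804720)) (l 16811152)) (b (l 16780616) (l 16815776))))) (a (a (l 6) (a (l 6) (b (b (l 16835416) (l 6)) (l 6)))) (a (b (b (l 16911992) (b (l 16831304) (a (l 6) (a (l 16873704) (l 16829280))))) (b (a (l 6) (l 16871688)) (l 6))) (a (b (b (l 16821456) (b (l 16824264) (l 16825648))) (b (l 16867576) (b (l 16824896) (l 6)))) (b (b (l 16817656) (c (l 16816080) (l 16825832))) (b (b (l 16822312) (l 16821608)) (c (l 16816920) (l 16826120))))))))), by decide +kernel⟩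

def k23_B00pm_102_s1 : ∃ t, chk3 f_B00pm_102_s1 t 14 12 1 = true :=
  ⟨(l 3), by decide +kernel⟩

def k24_B00pm_102_s1 : ∃ t, chk3 f_B00pm_102_s1 t 28 26 1 = true :=
  ⟨(a (b (l 3) (b (a (a (c (b (l 1072837647) (l 1072827919)) (l 1072895503)) (c (l 1072682511) (l 1072716815))) (l 3)) (a (c (a (b (l 1072821263) (l 1072819215)) (b (l 1072688655) (a (l 1072725519) (l 1072672271)))) (a (l 1072875535) (b (l 1072719375) (l 1072727055)))) (a (c (b (a (l 1072608783) (l 3)) (l 1072605199)) (l 1072601615)) (l 3))))) (l 3)), by decide +kernel⟩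

def k25_B00pm_102_s1 : ∃ t, chk3 f_B00pm_102_s1 t 112 108 1 = true :=
  ⟨(a (c (a (a (b (l 16775192) (b (l 16774792) (b (l 16774600) (a (a (l 16774512) (l 16774456)) (l 16774432))))) (l 1072837647)) (l 1072794127)) (a (b (l 16775368) (b (l 16774984) (a (b (l 16774776) (l 16774632)) (l 16774768)))) (l 1072838671))) (c (a (l 1072741903) (l 1072697359)) (l 1072745999))), by decide +kernel⟩

def k26_B00pm_102_s1 : ∃ t, chk3 f_B00pm_102_s1 t 112 109 1 = true :=
  ⟨(a (a (b (c (b (a (c (b (l 16774568) (l 16774520)) (l 16774592)) (a (b (a (l 16774424) (l 16774376)) (l 16774424)) (b (l 16774400) (a (l 16774432) (l 16777024))))) (l 16774520)) (b (a (l 16774824) (b (l 16774536) (l 16774680))) (l 16774824))) (c (l 16774712) (l 16775160))) (a (c (a (b (b (b (l 16774488) (b (l 16774368) (l 16774352))) (l 16774400)) (l 16774576)) (b (b (l 16774472) (b (b (l 16774320) (l 16774352)) (l 16774368))) (l 16774528))) (b (b (b (l 16774648) (l 16774456)) (b (l 16774608) (l 16774608)))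 (l 16774888))) (b (b (l 1072798735) (b (a (b (l 16774368) (a (l 16774320) (l 16774288))) (l 16774392)) (c (a (l 16774368) (b (l 16776896) (l 16774336))) (l 16774536)))) (c (l 16774456) (l 16774720))))) (b (b (l 1072740367) (b (l 1072751119) (a (a (a (a (b (l 16774336) (l 16774264)) (l 16774328)) (l 16774376)) (l 16774472)) (l 1072741391)))) (c (a (b (a (b (a (a (l 16774304) (l 16774336)) (b (l 16774256) (l 16774312))) (l 16774336)) (a (b (l 16774272) (b (l 16774296) (l 16774288))) (b (l 16774392) (b (l 16774264) (l 16774288))))) (l 16774400)) (a (a (b (l 16774376) (b (c (b (l 16774328) (l 16774344)) (l 16774312)) (l 16774344))) (b (l 16774472) (b (c (b (l 16774376) (l 16774320)) (l 16774232)) (l 16774336)))) (a (b (l 16774544) (b (l 16774368) (b (a (l 16774288) (l 16774272)) (l 16774336)))) (b (l 16774624) (a (b (l 16774424) (b (l 16774336) (l 16774288))) (l 16774376)))))) (a (b (a (a (l 16774568) (b (l 16774400) (l 16774472))) (b (l 16774400) (a (l 16774472)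 (l 16774360)))) (l 16774608)) (a (b (l 16774488) (b (c (l 16774328) (l 16774496)) (l 16774496))) (b (l 16774648) (b (l 16774480) (c (l 16774312) (l 16774480))))))))), by decide +kernel⟩

def k27_B00pm_102_s1 : ∃ t, chk3 f_B00pm_102_s1 t 113 54 1 = true :=
  ⟨(c (a (b (c (l 1072665615) (l 1072630799)) (l 1073254927)) (a (b (l 1072607247) (l 1072702991)) (b (l 1073127439) (l 1072703503)))) (a (b (l 1072652303) (l 1072732175)) (b (l 1072591375) (l 1072709135)))), by decide +kernel⟩

def k28_B00pm_102_s1 : ∃ t, chk3 f_B00pm_102_s1 t 112 55 1 = true :=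
  ⟨(b (a (c (b (c (l 16774904) (l 16775008)) (l 16775360)) (b (l 16775512) (l 16776152))) (b (c (a (l 16774648) (b (c (a (l 16774480) (b (l 16774448) (l 16774464))) (l 16774488)) (l 16774592))) (a (l 16775016) (b (l 16774672) (l 16774872)))) (c (c (l 16774968) (l 16775040)) (l 16775488)))) (c (a (c (l 16776064) (l 16776376)) (b (l 16775496) (l 16776096))) (a (l 16777328) (l 16776640)))), by decide +kernel⟩

def k29_B00pm_102_s1 : ∃ t, chk3 f_B00pm_102_s1 t 113 55 1 = true :=
  ⟨(b (a (b (a (a (b (b (a (c (b (l 16774288) (l 16774360)) (l 16774416)) (a (b (l 16774360) (l 16774280)) (l 16774368))) (a (l 16774376) (a (l 16774368) (b (l 16774328) (l 16774352))))) (c (l 16774496) (l 16774688))) (a (b (b (l 16774432) (b (l 16774312) (a (l 16774368) (l 16774336)))) (l 16774464)) (b (c (l 16774456) (l 16774512)) (b (b (a (l 16774384) (l 16774344)) (l 16774400)) (l 16774488))))) (b (l 1072768527) (b (a (a (b (l 16774408) (a (l 16774408) (l 16774368))) (l 16774480))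 (l 16774616)) (c (b (a (a (l 16774456) (l 16774432)) (l 16774568)) (a (l 16774512) (a (l 16774456) (l 16774560)))) (a (l 16774640) (l 16774520)))))) (c (a (l 16774784) (b (a (l 16774600) (a (l 16774632) (b (b (l 16774488) (l 16774576)) (l 16774608)))) (l 16774800))) (a (l 16775096) (b (b (a (l 16774688) (l 16774680)) (l 16774792)) (l 16775048))))) (a (b (l 1072784911) (a (b (a (c (b (l 16774528) (l 16774656)) (b (l 16774592) (l 16774752))) (b (l 16774656) (b (l 16774552) (l 16774624)))) (l 16774760)) (c (a (b (l 16774688) (b (c (l 16774792) (l 16774720)) (l 16774784))) (b (l 16774824) (b (a (l 16774688) (l 16774680)) (l 16774784)))) (b (l 16774784) (b (l 16774808) (l 16774912)))))) (a (b (l 1072789519) (b (l 16774944) (a (b (l 16774776) (b (l 16774736) (l 16774816))) (b (l 16774872) (b (l 16774824) (l 16774784)))))) (l 1072836111)))) (b (c (a (c (l 16775216) (l 16775280)) (a (l 16775112) (b (a (l 16775000) (b (a (a (l 16774928) (l 16774888)) (l 16774904))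 (l 16775072))) (l 16775200)))) (a (l 16775696) (a (l 16775400) (b (a (l 16775152) (b (l 16774976) (l 16775200))) (l 16775432))))) (c (a (l 16775816) (l 16775656)) (a (l 16776520) (l 16776120))))), by decide +kernel⟩

def k30_B00pm_102_s1 : ∃ t, chk3 f_B00pm_102_s1 t 57 27 1 = true :=
  ⟨(b (a (c (a (b (c (l 1072604175) (l 1072556559)) (l 1072708623)) (b (l 3) (l 1072751631))) (b (a (l 1072558095) (l 3)) (l 1072718351))) (l 3)) (a (b (a (l 1072863247) (l 1072943631)) (a (b (c (a (b (a (a (b (l 16775056) (a (l 16775024) (l 16775000))) (l 16775080)) (l 16775272)) (a (b (c (l 16777872) (l 16775200)) (l 16775256)) (a (b (a (l 16775136) (l 16775136)) (l 16775256)) (b (l 16775256) (l 16775320))))) (a (a (b (l 16775416) (b (l 16775352) (l 16775272))) (l 16775472)) (l 16775616))) (a (b (a (b (l 16775176) (l 16775096)) (l 16775344)) (a (l 16775464) (b (l 16775232) (l 16775480)))) (a (b (l 16775536) (l 16775376)) (l 16775696)))) (a (c (l 16775616) (l 16775912)) (b (c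 (a (a (l 16775528) (b (l 16775448) (l 16775552))) (b (l 16775472) (a (l 16775632) (l 16775600)))) (a (l 16781032) (b (l 16775592) (l 16775792)))) (l 16775848)))) (a (b (l 1073097743) (a (c (b (l 16775680) (b (a (l 16775808) (l 16775760)) (l 16775904))) (b (l 16775808) (b (l 16775960) (l 16776112)))) (b (l 16775944) (b (l 16775944) (c (a (l 16775984) (l 16775952)) (l 16776144)))))) (l 1073233423)))) (a (b (l 1073069583) (l 1073899535)) (b (l 1073241615) (l 1073577999))))), by decide +kernel⟩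

def k31_B00pm_102_s1 : ∃ t, chk3 f_B00pm_102_s1 t 29 13 1 = true :=
  ⟨(b (l 3) (b (l 3) (a (a (b (l 3) (a (l 1073843727) (l 1074161167))) (l 3)) (l 3)))), by decide +kernel⟩

def k32_B00pm_102_s1 : ∃ t, chk3 f_B00pm_102_s1 t 15 6 1 = true :=
  ⟨(l 3), by decide +kernel⟩

def k33_B00pm_102_s1 : ∃ t, chk3 f_B00pm_102_s1 t 56 28 1 = true :=
  ⟨(b (c (b (a (c (l 16777184) (l 16777632)) (a (l 16776880) (a (l 16776736) (l 16776672)))) (a (b (l 16778656) (l 16779424)) (b (l 16778008) (l 16778952)))) (b (a (l 16778864) (b (l 16782456) (l 16778232))) (a (a (l 16781368) (l 16780832)) (l 16779960)))) (a (b (c (b (a (l 16781088) (l 16780200)) (a (l 16782064) (l 16781840))) (b (l 16761976) (l 16764072))) (c (l 16783608) (l 16786880))) (a (b (c (b (l 16780128) (l 16780936)) (l 16782432)) (c (b (l 16782728) (l 16783640)) (l 16786312))) (b (l 16781248) (c (b (l 16781896) (l 16783712)) (l 16764448)))))), by decide +kernel⟩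

def k34_B00pm_102_s1 : ∃ t, chk3 f_B00pm_102_s1 t 57 28 1 = true :=
  ⟨(b (a (a (b (c (b (l 16776272) (l 16777016)) (b (l 16776760) (l 16777752))) (c (l 16778304) (l 16779440))) (b (b (c (a (b (l 16776224) (l 16776504)) (b (a (b (a (l 16776168) (l 16776160)) (l 16776392)) (a (b (l 16776312) (l 16776368)) (l 16776376))) (b (a (l 16776480) (l 16776624)) (l 16776680)))) (a (l 16776736) (b (a (b (l 16776344) (l 16776632)) (b (l 16776544) (l 16776560))) (l 16777040)))) (c (l 16777104) (l 16777640))) (c (l 16778368) (l 16779296)))) (b (b (a (a (b (l 16779312) (a (a (b (l 16776640) (l 16776848)) (b (l 16776752) (l 16776920))) (a (b (l 16776840) (l 16776880)) (l 16776968)))) (l 1073670159)) (l 1073861647)) (b (a (b (a (c (a (l 16776952) (l 16777096)) (l 16777440)) (c (l 16777136) (l 16777408))) (a (l 16777296) (a (a (l 16777440) (l 16777416)) (l 16777480)))) (l 1074013711)) (b (a (a (l 16777520) (a (l 16777608) (c (l 16777584) (l 16777936)))) (l 1074093071)) (a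 (c (l 16777648) (l 16778112)) (a (c (a (l 16777840) (l 16777976)) (l 16783416)) (l 16778256)))))) (b (a (c (l 16778144) (l 16778768)) (a (b (a (l 16778392) (b (l 16783504) (l 16778616))) (l 16778848)) (a (b (b (l 16778416) (l 16778568)) (c (l 16778896) (l 16779424))) (b (l 16778608) (b (l 16778888) (l 16779296)))))) (a (l 16779384) (c (l 16779384) (l 16780128)))))) (b (c (a (l 16780312) (b (l 16780144) (l 16781184))) (a (l 16781904) (a (l 16781832) (l 16782008)))) (a (a (b (l 16782944) (c (l 16783064) (l 16785520))) (l 16783528)) (c (l 16782896) (l 16784712))))), by decide +kernel⟩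

def k35_B00pm_102_s1 : ∃ t, chk3 f_B00pm_102_s1 t 28 29 1 = true :=
  ⟨(a (a (b (c (l 16787656) (l 16791928)) (b (l 16794472) (l 16797696))) (b (c (l 16786776) (l 16790416)) (c (l 16792632) (l 16797592)))) (a (b (b (b (a (l 16785952) (c (l 16784424) (l 16786968))) (l 16787216)) (l 16789232)) (b (l 16792296) (l 16795520))) (b (b (b (l 16785728) (a (c (l 16785968) (l 16788632)) (l 16787112))) (a (l 16789232) (b (c (l 16787656) (l 16790464)) (l 16790152)))) (b (l 16792200) (l 16795208))))), by decide +kernel⟩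

def k36_B00pm_102_s1 : ∃ t, chk3 f_B00pm_102_s1 t 29 28 1 = true :=
  ⟨(a (b (a (b (c (l 1074376207) (l 1074563599)) (a (a (b (a (c (b (l 16778512) (l 16778880)) (l 16773824)) (l 1074589711)) (b (a (c (l 16784824) (l 16780176)) (b (l 16779584) (l 16779976))) (l 16780280))) (b (l 1074733071) (b (c (l 16779544) (l 16780080)) (c (a (l 16785504) (l 16780152)) (l 16775592))))) (l 1075185679))) (c (a (l 1075231247) (l 1076790799)) (a (l 1075530255) (l 1073934351)))) (a (b (a (b (a (l 16781088) (b (l 16775928) (l 16781624))) (l 16782344)) (a (b (a (b (a (l 16776088) (l 16770776)) (l 16781856)) (b (l 16775928) (l 16771632))) (l 16782784)) (b (b (l 16781136) (c (a (l 16781688) (l 16781616)) (l 16771888))) (b (a (l 16782752) (c (l 16782576) (l 16783536))) (l 16783416))))) (c (a (l 16783504) (l 16784096)) (b (l 16774112) (l 16786032)))) (b (a (b (l 1076166671) (c (b (a (a (l 16782432) (l 16782392)) (l 16782040)) (a (a (l 16783240) (l 16772920)) (l 16777792))) (a (b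 (l 16772704) (l 16773976)) (b (l 16782856) (l 16784040))))) (l 1076958735)) (a (a (b (l 16784680) (l 16785912)) (b (b (a (l 16784784) (a (l 16784856) (l 16784752))) (l 16785408)) (l 16786320))) (b (a (a (b (l 16784552) (l 16785832)) (b (l 16784272) (l 16785680))) (b (l 16778352) (l 16779888))) (a (l 16786784) (b (a (l 16781608) (l 16786512)) (l 16777192)))))))) (b (a (a (b (l 3) (l 1076841487)) (l 3)) (l 3)) (a (b (c (l 1076111375) (l 1076129807)) (a (a (b (l 1078006287) (b (l 16784480) (a (l 16786160) (l 16784736)))) (l 1077362191)) (b (l 1075877903) (a (l 1076707343) (l 1076264463))))) (b (l 3) (a (b (l 1077127183) (l 1076110863)) (a (a (l 1076295183) (l 3)) (l 3))))))), by decide +kernel⟩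

def k37_B00pm_102_s1 : ∃ t, chk3 f_B00pm_102_s1 t 58 29 1 = true :=
  ⟨(b (b (a (c (l 16786168) (l 16788312)) (a (a (l 16766904) (l 16772520)) (c (l 16788008) (l 16779464)))) (a (a (b (l 16767792) (c (l 16789456) (l 16792440))) (a (b (l 16789392) (l 16790624)) (l 16790392))) (c (c (l 16789512) (l 16790568)) (l 16792584)))) (a (a (b (l 16792624) (l 16795464)) (b (a (l 16793160) (b (l 16771808) (l 16793936))) (l 16795848))) (a (b (c (b (l 16770328) (l 16793280)) (b (l 16794376) (l 16796656))) (l 16796408)) (b (b (l 16793720) (a (l 16773936) (l 16795128))) (c (b (l 16774160) (l 16795456)) (l 16799136)))))), by decide +kernel⟩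

def k38_B00pm_102_s1 : ∃ t, chk3 f_B00pm_102_s1 t 118 58 1 = true :=
  ⟨(b (a (b (a (b (a (l 16788080) (l 16785952)) (l 16789152)) (b (a (c (l 16785072) (l 16778264)) (l 16783016)) (a (l 16786008) (b (c (l 16779128) (l 16782712)) (l 16784456))))) (c (l 16779144) (l 16773408))) (b (a (a (b (l 16781992) (a (b (l 16782536) (l 16782968)) (l 16787440))) (l 1076128271)) (l 1075787279)) (a (b (a (c (l 16774320) (l 16782968)) (b (a (l 16787280) (l 16781408)) (l 16787640))) (c (l 16775448) (l 16783944))) (a (b (a (b (l 16780920) (l 16786376)) (l 16780544)) (b (a (l 16781904) (l 16786176)) (l 16782408))) (b (l 16779960) (a (b (l 16785504) (l 16780872)) (b (l 16779768) (b (l 16785080) (l 16780120))))))))) (a (c (l 16780872) (l 16772896)) (b (a (c (l 16789176) (l 16776432)) (a (b (l 16783944) (l 16775520)) (b (l 16787136) (a (l 16784456) (l 16788768))))) (a (l 16781864) (b (a (l 16788176) (l 16776016)) (l 16790008)))))), by decide +kernel⟩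

def k39_B00pm_102_s1 : ∃ t, chk3 f_B00pm_102_s1 t 119 116 1 = true :=
  ⟨(a (a (b (l 1075321359) (b (l 1074950159) (a (a (b (l 16779416) (a (l 16784752) (l 16779272))) (l 16781672)) (l 1075678223)))) (b (b (l 1074967567) (a (l 1074838543) (l 1075151887))) (b (a (l 1075146767) (l 1075066895)) (c (l 1075571727) (l 1074064399))))) (b (a (b (a (l 1074619407) (l 1075064335)) (c (l 1075567119) (l 1074058767))) (l 1074661391)) (c (l 1075743759) (l 1074258447)))), by decide +kernel⟩

def k40_B00pm_102_s1 : ∃ t, chk3 f_B00pm_102_s1 t 238 117 1 = true :=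
  ⟨(b (a (b (b (b (a (a (a (l 16779872) (l 16779400)) (a (l 16779072) (l 16778848))) (l 1074510351)) (a (a (l 16780120) (a (l 16779360) (b (l 16778856) (a (l 16779112) (l 16778888))))) (a (a (b (l 16778688) (l 16778760)) (l 16778696)) (l 16778688)))) (a (a (l 16780880) (a (l 16780176) (l 16785032))) (a (a (c (l 16783032) (l 16778392)) (b (b (l 16778792) (l 16784208)) (l 16779440))) (b (l 16778808) (a (c (l 16782704) (l 16778112)) (c (l 16782520) (l 16777960))))))) (a (a (l 16787944) (l 16781984)) (b (c (l 16781256) (l 16779232)) (l 16781640)))) (b (l 1074638351) (a (b (a (b (b (c (l 16779936) (l 16778032)) (a (l 16779264) (l 16781688))) (c (l 16780536) (l 16778592))) (b (l 16778976) (a (b (l 16779096) (a (l 16779344) (l 16779208))) (l 16779104)))) (a (l 16780608) (b (a (l 16779768) (b (c (l 16780208) (l 16778312)) (l 16779592))) (l 16780264)))) (b (l 1074738703) (a (b (a (b (l 16779168) (c (l 16780216) (l 16778336))) (l 16779176)) (a (l 16779760) (b (c (l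 16780232) (l 16778368)) (l 16779584)))) (b (l 16779144) (a (b (l 16779248) (l 16781984)) (l 16779256)))))))) (b (a (c (l 16774944) (l 16783248)) (a (b (l 16781624) (l 16782984)) (b (a (l 16780592) (b (a (b (l 16779576) (l 16779912)) (b (l 16782008) (l 16782200))) (l 16780240))) (l 16781592)))) (a (l 16776672) (c (a (l 16786048) (l 16784592)) (l 16783256))))), by decide +kernel⟩

def k41_B00pm_102_s1 : ∃ t, chk3 f_B00pm_102_s1 t 239 117 1 = true :=
  ⟨(b (a (l 1074834447) (l 1075524111)) (b (a (a (b (a (b (c (l 16780224) (l 16778456)) (a (b (a (l 16779648) (l 16782144)) (l 16779896)) (b (l 16779448) (c (l 16783096) (l 16778664))))) (c (l 16780192) (l 16778496))) (a (l 16783184) (c (b (a (b (l 16783112) (l 16780752)) (b (l 16780368) (l 16780504))) (l 16781080)) (b (a (l 16778824) (l 16778680)) (l 16779264))))) (b (l 1074974223) (a (b (l 16779512) (a (c (b (l 16780520) (l 16780728)) (l 16781488)) (c (l 16780488) (l 16778760)))) (l 1075033615)))) (l 1075107855))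 (b (a (a (a (l 16781904) (l 16781216)) (a (b (a (l 16780368) (b (c (l 16783344) (l 16778952)) (l 16780184))) (l 16780856)) (b (a (b (l 16779720) (a (l 16779928) (l 16782440))) (l 16779712)) (a (l 16780344) (b (a (l 16782552) (l 16782456)) (l 16780168)))))) (a (a (a (b (l 16779672) (a (b (l 16779784) (l 16782552)) (l 16782440))) (l 16779704)) (l 1075148815)) (l 1075205135))) (a (a (l 16782912) (a (l 16781864) (l 16781168))) (a (a (b (a (b (l 16782776) (l 16780488)) (b (c (l 16783368) (l 16779048)) (a (l 16780232) (l 16782680)))) (l 16780816)) (a (b (c (l 16780720) (l 16779048)) (b (a (l 16780216) (l 16782688)) (l 16780464))) (b (l 16779840) (b (l 16782600) (a (l 16780200) (l 16782696)))))) (a (c (l 16780624) (l 16779048)) (l 1075263503))))))), by decide +kernel⟩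

def k42_B00pm_102_s1 : ∃ t, chk3 f_B00pm_102_s1 t 59 59 1 = true :=
  ⟨(a (b (a (c (l 16793480) (l 16786048)) (b (a (l 16794600) (l 16793912)) (l 16794280))) (b (a (b (l 16774704) (l 16775112)) (l 16794392)) (a (l 16775304) (c (a (l 16772712) (l 16771640)) (l 16796160))))) (b (a (b (a (l 16780848) (c (l 16779016) (l 16776816))) (l 16782200)) (b (a (a (c (l 16776800) (l 16774768)) (b (b (l 16782864) (l 16784216)) (l 16775768))) (b (a (b (a (l 16781816) (b (l 16780784) (l 16781456))) (l 16782808)) (b (a (b (a (b (a (l 16782816) (l 16782712)) (l 16780432)) (b (l 16780024) (a (l 16782816) (l 16780112)))) (c (l 16781568) (l 16779872))) (b (l 16779992) (a (b (c (a (l 16781000) (l 16780920)) (l 16779328)) (a (l 16780488) (l 16782944))) (c (b (l 16780848) (l 16780976)) (l 16779320))))) (a (l 16781752) (b (a (l 16780904) (b (a (l 16780472) (b (l 16780248) (l 16780384))) (l 16780720))) (l 16781392))))) (c (a (l 16780472) (b (l 16783576) (l 16784936))) (a (l 16783856)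 (l 16782488))))) (a (l 16780584) (c (l 16778608) (l 16776664))))) (a (b (l 16771808) (a (l 16793368) (l 16792600))) (c (c (l 16789816) (l 16790752)) (l 16782000))))), by decide +kernel⟩

def k43_B00pm_102_s1 : ∃ t, chk3 f_B00pm_102_s1 t 30 28 1 = true :=
  ⟨(l 3), by decide +kernel⟩

def k44_B00pm_102_s1 : ∃ t, chk3 f_B00pm_102_s1 t 60 58 1 = true :=
  ⟨(a (a (b (b (l 3) (a (l 1074978319) (l 1075129871))) (b (a (l 1075675151) (l 1075824143)) (a (l 1075833871) (l 1075980815)))) (b (l 3) (a (b (l 1075971599) (l 1076125711)) (b (l 3) (l 1076268559))))) (a (a (b (l 3) (b (l 3) (l 1076408847))) (l 3)) (l 3))), by decide +kernel⟩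

def k45_B00pm_102_s1 : ∃ t, chk3 f_B00pm_102_s1 t 240 236 1 = true :=
  ⟨(a (c (b (b (l 1075811855) (a (a (b (a (b (l 16780992) (a (l 16781240) (l 16781104))) (l 16780952)) (a (l 16781656) (b (a (l 16781224) (l 16781104)) (l 16781464)))) (b (l 16780824) (a (b (l 16781016) (a (l 16781208) (l 16781112))) (l 16780976)))) (l 16780672))) (a (b (a (l 16782488) (b (a (l 16781608) (b (a (l 16781208) (l 16781120)) (l 16781416))) (l 16782096))) (l 16783472)) (b (a (b (a (b (l 16781048) (a (l 16781208) (l 16781128))) (l 16781016)) (a (b (a (l 16781480) (l 16781312)) (l 16781728)) (b (l 16781192) (a (l 16781456) (l 16781304))))) (c (l 16781336) (l 16780664))) (a (l 16782384) (b (b (a (a (l 16781424) (l 16781304)) (l 16781208)) (a (l 16781672) (a (l 16781408) (l 16781304)))) (l 16781992)))))) (a (b (b (l 16779160) (a (b (a (b (l 16779384) (l 16779552)) (l 16779376)) (a (l 16780016) (b (l 16779560) (l 16779840)))) (b (l 16779328) (a (b (l 16779440) (l 16779576)) (l 16779440)))))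 (b (a (l 16780824) (b (a (l 16779992) (b (l 16779592) (l 16779816))) (l 16780472))) (l 16781792))) (a (b (l 1074985999) (b (b (b (l 16779496) (l 16782216)) (a (b (l 16779816) (l 16780136)) (b (l 16779640) (l 16779816)))) (l 16780776))) (b (l 1075024399) (b (c (l 16779928) (l 16779144)) (b (a (b (a (l 16779872) (l 16779760)) (l 16780112)) (b (l 16779696) (a (l 16779864) (l 16779776)))) (l 16780424))))))) (a (b (l 1075523599) (a (b (l 1075563535) (b (l 16780416) (b (a (a (b (l 16780608) (l 16780720)) (l 16780584)) (l 16780520)) (a (c (l 16781616) (l 16780080)) (c (a (l 16781400) (l 16781320)) (l 16779864)))))) (l 1075618831))) (l 1075634191))), by decide +kernel⟩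

def k46_B00pm_102_s1 : ∃ t, chk3 f_B00pm_102_s1 t 240 237 1 = true :=
  ⟨(a (c (b (a (l 16780264) (b (l 16783360) (l 16784704))) (l 16782240)) (b (a (l 16783760) (b (l 16781736) (l 16783040))) (l 16775216))) (b (a (b (a (b (a (l 16781376) (b (a (l 16780944) (c (l 16781504) (l 16779992))) (l 16781184))) (l 16781856)) (b (a (b (c (l 16781376) (l 16779888)) (a (l 16780920) (b (l 16780712) (l 16780832)))) (c (l 16781328) (l 16779872))) (a (l 16781328) (b (c (a (l 16781616) (l 16781488)) (a (l 16780120) (l 16780008))) (l 16781144))))) (a (l 16782848) (b (l 16781808) (l 16782472)))) (a (b (a (b (l 16780536) (a (b (l 16780704) (b (l 16780816) (l 16780960))) (c (l 16781432) (l 16779976)))) (l 1075720719)) (b (b (a (l 16781120) (a (b (l 16780816) (l 16780936)) (l 16780792))) (c (l 16781976) (l 16780488))) (l 16781760))) (a (b (l 1075738127) (b (a (b (l 16780736) (b (l 16780824) (l 16780920))) (l 16780760)) (b (a (l 16781160) (b (l 16780912) (l 16781064))) (l 16781400))))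 (b (l 1075755535) (b (l 16780688) (b (c (l 16781544) (l 16780120)) (a (l 16781136) (b (l 16780912) (l 16781040))))))))) (c (a (c (l 16780368) (l 16779632)) (b (a (l 16783480) (l 16782752)) (l 16779208))) (a (l 16778384) (b (a (l 16781944) (l 16781264)) (l 16782904)))))), by decide +kernel⟩

def k47_B00pm_102_s1 : ∃ t, chk3 f_B00pm_102_s1 t 241 236 1 = true :=
  ⟨(a (l 1076143631) (c (l 1076265487) (l 1075464207))), by decide +kernel⟩

def k48_B00pm_102_s1 : ∃ t, chk3 f_B00pm_102_s1 t 482 474 1 = true :=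
  ⟨(a (a (b (l 1075782159) (b (l 16780568) (c (l 16781440) (l 16780064)))) (l 1075835919)) (l 1075888655)), by decide +kernel⟩

def k49_B00pm_102_s1 : ∃ t, chk3 f_B00pm_102_s1 t 482 475 1 = true :=
  ⟨(c (c (a (a (b (b (a (b (a (l 16782120) (l 16781976)) (l 16782360)) (b (l 16781864) (a (l 16782088) (l 16781968)))) (l 16782672)) (l 16783672)) (b (b (l 16781736) (a (b (a (l 16782064) (l 16781968)) (l 16782280)) (b (l 16781856) (l 16782016)))) (b (a (l 16782784) (b (l 16782248) (l 16782584))) (l 16783264)))) (a (b (l 16781616) (b (a (b (l 16782016) (a (l 16782304) (l 16782136))) (l 16781944)) (a (l 16782712) (b (a (l 16782264) (l 16782120)) (l 16782504))))) (b (l 16781376) (b (l 16781744) (a (b (l 16782000) (a (l 16782232) (l 16782112))) (l 16781928)))))) (b (a (a (b (a (b (a (l 16781456) (l 16781328)) (l 16781696)) (b (l 16781224) (a (l 16781432) (l 16781328)))) (l 16782016)) (b (l 16781120) (a (b (a (l 16781424) (l 16781328)) (l 16781632)) (b (l 16781232)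 (l 16781384))))) (l 16780936)) (a (a (l 16783000) (b (a (l 16782136) (l 16781768)) (l 16782608))) (a (b (a (b (l 16781384) (l 16781584)) (l 16781328)) (a (l 16782072) (b (a (l 16781632) (l 16781496)) (l 16781872)))) (b (l 16781160) (a (b (l 16781384) (a (l 16781608) (l 16781496))) (l 16781328))))))) (b (a (a (b (a (b (a (l 16780352) (l 16780232)) (l 16780592)) (b (l 16780152) (a (l 16780344) (l 16780248)))) (l 16780904)) (b (l 16780096) (a (b (a (l 16780344) (l 16780256)) (l 16780552)) (b (l 16780192) (a (l 16780344) (l 16780272)))))) (l 16779992)) (a (a (l 16781872) (b (a (l 16781032) (b (l 16780536) (l 16780856))) (l 16781504))) (a (b (a (b (l 16780336) (a (l 16780600) (l 16780448))) (l 16780304)) (a (l 16780992) (b (a (l 16780576) (l 16780448)) (l 16780816)))) (b (l 16780184) (a (b (l 16780360) (a (l 16780560) (l 16780456))) (l 16780328))))))), by decide +kernel⟩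

def k50_B00pm_102_s1 : ∃ t, chk3 f_B00pm_102_s1 t 483 237 1 = true :=
  ⟨(c (l 1076403727) (l 1075622415)), by decide +kernel⟩

def k51_B00pm_102_s1 : ∃ t, chk3 f_B00pm_102_s1 t 240 119 1 = true :=
  ⟨(b (a (a (l 16779736) (l 16779344)) (b (c (l 16781968) (c (l 16775504) (l 16774584))) (l 16778592))) (c (l 16788936) (l 16780360))), by decide +kernel⟩

def k52_B00pm_102_s1 : ∃ t, chk3 f_B00pm_102_s1 t 482 238 1 = true :=
  ⟨(c (b (a (c (l 16780064) (l 16779384)) (b (a (l 16783208) (b (a (l 16782328) (b (a (l 16781904) (l 16781800)) (l 16782120))) (l 16782800))) (a (l 16784536) (l 16783792)))) (a (l 16787648) (l 16780912))) (b (a (b (l 16782816) (l 16784112)) (b (a (l 16781784) (b (a (l 16780952) (b (a (l 16780552) (l 16780464)) (l 16780760))) (l 16781416))) (l 16782720))) (b (l 16779464) (l 16775512)))), by decide +kernel⟩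

def k53_B00pm_102_s1 : ∃ t, chk3 f_B00pm_102_s1 t 483 238 1 = true :=
  ⟨(b (b (a (a (c (b (a (b (l 16781696) (a (l 16781888) (l 16781800))) (l 16781640)) (a (c (l 16782544) (l 16781928)) (b (l 16781848) (a (l 16782144) (l 16781976))))) (b (a (b (l 16780392) (a (l 16780552) (l 16780480))) (l 16780368)) (a (c (l 16781256) (l 16780520)) (b (l 16780536) (a (l 16780808) (l 16780656)))))) (a (b (l 16780936) (c (l 16781784) (l 16780504))) (l 1076111887))) (l 1076154383)) (a (a (b (c (l 16782728) (l 16781368)) (l 16782728)) (c (b (a (b (a (l 16782104) (l 16781960)) (l 16782344)) (b (l 16781840) (a (l 16782072) (l 16781952)))) (l 16782648)) (b (a (b (a (l 16780776) (l 16780648)) (l 16781016)) (b (l 16780560) (a (l 16780760) (l 16780656)))) (l 16781320)))) (a (a (c (b (l 16781768) (b (a (l 16782048) (l 16781944)) (l 16782256))) (b (l 16780520) (b (a (l 16780752) (l 16780664)) (l 16780960)))) (b (l 16781064) (b (l 16781232) (a (c (l 16782024) (l 16780744)) (l 16781328)))))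 (l 1076207119)))) (a (c (b (c (l 16779072) (l 16783688)) (l 16780088)) (b (a (l 16782968) (l 16782280)) (l 16783904))) (b (a (a (b (l 16782128) (l 16782776)) (b (b (c (l 16782224) (a (l 16781024) (l 16780856))) (l 16781936)) (l 16782416))) (a (b (a (b (c (l 16782016) (l 16780744)) (l 16781664)) (b (l 16781328) (b (a (l 16781456) (l 16781408)) (l 16781568)))) (c (l 16782680) (l 16781384))) (c (b (l 16781912) (b (a (l 16782232) (l 16782088)) (l 16782472))) (b (l 16780680) (b (a (l 16780968) (c (l 16781168) (l 16780488))) (l 16781200)))))) (c (c (a (l 16784512) (l 16783760)) (l 16783536)) (a (l 16782856) (l 16782168)))))), by decide +kernel⟩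

def k54_B00pm_102_s1 : ∃ t, chk3 f_B00pm_102_s1 t 241 239 1 = true :=
  ⟨(c (a (l 16782624) (b (a (l 16787296) (l 16780576)) (l 16787208))) (a (l 16778744) (b (a (l 16780584) (l 16779184)) (l 16787688)))), by decide +kernel⟩

def k55_B00pm_102_s1 : ∃ t, chk3 f_B00pm_102_s1 t 121 118 1 = true :=
  ⟨(b (a (c (a (l 1076394511) (l 1076520975)) (a (l 1075611663) (l 1075756559))) (l 3)) (a (c (a (l 1076529679) (l 1076653583)) (a (l 1075767311) (l 1075909647))) (a (c (l 1076775439) (l 1076049935)) (l 3)))), by decide +kernel⟩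

def k56_B00pm_102_s1 : ∃ t, chk3 f_B00pm_102_s1 t 242 238 1 = true :=
  ⟨(c (a (b (l 1076630031) (a (a (a (b (b (l 16781760) (b (l 16781960) (a (l 16782200) (l 16782072)))) (l 16782920)) (b (l 16781760) (b (b (c (l 16782400) (l 16781840)) (l 16782384)) (l 16782880)))) (b (l 16781560) (b (b (l 16781880) (a (c (l 16782384) (l 16781824)) (l 16781936))) (a (b (l 16782344) (l 16782672)) (b (l 16782096) (a (l 16782400) (l 16782224))))))) (a (b (l 16781288) (b (l 16781672) (l 16781952))) (l 1076741135)))) (l 1076784655)) (a (b (l 1075883023) (a (b (a (b (l 16780536) (a (b (l 16780736) (a (l 16780944) (l 16780832))) (l 16780688))) (l 16780456)) (a (a (l 16781648) (b (b (a (a (l 16780960) (l 16780896)) (l 16780840)) (l 16781136)) (l 16781616))) (b (a (b (l 16780752) (c (l 16781216) (a (l 16780584) (l 16780504)))) (l 16780712)) (c (a (l 16781592) (b (l 16781216) (l 16781416))) (a (b (l 16780768) (l 16781080)) (b (l 16780560) (a (l 16780832) (l 16780680)))))))) (a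 (a (b (l 16780320) (b (l 16780624) (l 16780848))) (l 1075984911)) (l 1076011023)))) (l 1076061199))), by decide +kernel⟩

def k57_B00pm_102_s1 : ∃ t, chk3 f_B00pm_102_s1 t 484 239 1 = true :=
  ⟨(b (a (b (c (a (l 16778800) (b (l 16782976) (l 16783632))) (c (l 16782736) (l 16782032))) (c (l 16779736) (l 16783664))) (c (b (a (a (b (b (a (l 16782352) (l 16782208)) (l 16782584)) (l 16783072)) (b (b (l 16782072) (c (l 16782520) (l 16781976))) (l 16782704))) (b (l 16781920) (a (b (a (l 16782280) (l 16782168)) (l 16782496)) (c (l 16782408) (l 16781880))))) (a (c (l 16784136) (l 16783576)) (a (l 16783312) (b (b (l 16782448) (l 16782776)) (l 16783264))))) (a (a (b (b (b (a (l 16781136) (c (l 16781328) (l 16780672))) (l 16781368)) (l 16781840)) (l 16782792)) (b (b (b (l 16780904) (a (l 16781112) (l 16781000))) (l 16781496)) (l 16782440))) (b (a (b (l 16780848) (b (a (a (l 16781120) (l 16781056)) (l 16781000)) (l 16781304))) (b (l 16780752) (b (l 16780912) (c (l 16781368)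 (l 16780728))))) (b (a (l 16781776) (b (a (l 16781360) (l 16781192)) (l 16781592))) (l 16782232)))))) (c (a (l 16786680) (l 16780208)) (c (l 16779984) (l 16779240)))), by decide +kernel⟩

def k58_B00pm_102_s1 : ∃ t, chk3 f_B00pm_102_s1 t 485 239 1 = true :=
  ⟨(b (c (a (b (l 16781624) (b (a (a (b (l 16782200) (a (l 16782504) (l 16782328))) (l 16782120)) (l 16781880)) (a (a (l 16782896) (b (a (l 16782448) (l 16782304)) (l 16782688))) (a (b (l 16782168) (c (l 16782608) (l 16782088))) (l 16782080))))) (l 1076910607)) (a (a (b (l 16780704) (b (a (b (c (l 16781360) (l 16780736)) (a (l 16781328) (c (l 16781480) (l 16780848)))) (l 16781000)) (a (l 16781712) (a (l 16781448) (b (a (l 16781176) (l 16781128)) (l 16781440)))))) (b (l 16780496) (a (b (l 16780872) (b (l 16781048) (a (l 16781264) (l 16781152)))) (l 16780888)))) (l 1076206607))) (a (b (a (c (b (l 16783352) (l 16778760)) (l 16782480)) (b (c (a (l 16782800) (b (c (l 16782576) (l 16782072)) (l 16782584))) (a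 (l 16781648) (b (c (l 16781512) (a (l 16780928) (l 16780840))) (l 16781448)))) (c (l 16783264) (l 16782096)))) (c (l 16779360) (a (l 16783744) (l 16783040)))) (a (b (b (a (b (l 16781616) (a (c (l 16782352) (l 16781232)) (l 16781720))) (l 16781552)) (a (b (a (l 16782096) (c (l 16782456) (l 16781336))) (l 16782328)) (b (c (l 16782288) (l 16781200)) (a (l 16782056) (c (l 16782416) (l 16781312)))))) (c (b (l 16783168) (l 16778568)) (b (l 16782024) (l 16782656)))) (b (c (c (l 16782216) (l 16781752)) (c (l 16781240) (l 16780680))) (b (a (a (c (l 16782696) (l 16781584)) (b (c (l 16782392) (l 16781304)) (l 16782152))) (b (l 16781744) (a (c (l 16782496) (l 16781400)) (c (l 16782368) (l 16781288))))) (c (l 16783064) (l 16781952))))))), by decide +kernel⟩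

def k59_B00pm_102_s1 : ∃ t, chk3 f_B00pm_102_s1 t 243 119 1 = true :=
  ⟨(b (c (a (l 1076903951) (l 1077020175)) (a (l 1076198415) (l 1076333583))) (a (a (a (b (l 1076621839) (b (l 1076673039) (b (c (l 16782080) (l 16781064)) (c (b (c (l 16782568) (l 16782088)) (a (l 16782664) (l 16782392))) (a (b (a (l 16781376) (l 16781288)) (l 16781584)) (c (l 16781552) (b (l 16780888) (l 16781040)))))))) (l 1076687375)) (c (l 1077058063) (l 1076377615))) (c (l 1077144079) (l 1076476943)))), by decide +kernel⟩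

def k60_B00pm_102_s1 : ∃ t, chk3 f_B00pm_102_s1 t 61 29 1 = true :=
  ⟨(a (b (l 3) (b (l 3) (a (a (c (l 1078001679) (a (l 1076504079) (l 1076568591))) (b (l 3) (a (l 1077572111) (l 1077629967)))) (l 3)))) (l 3)), by decide +kernel⟩

def k61_B00pm_102_s1 : ∃ t, chk3 f_B00pm_102_s1 t 31 14 1 = true :=
  ⟨(l 3), by decide +kernel⟩

def k62_B00pm_102_s1 : ∃ t, chk3 f_B00pm_102_s1 t 14 30 1 = true :=
  ⟨(a (b (a (b (a (c (l 16757264) (l 16805816)) (b (l 16798936) (l 16842904))) (a (l 16804824) (l 16803128))) (b (a (l 16840392) (l 16798320)) (a (b (a (l 16801864) (l 16800952)) (l 16802680)) (b (l 16800456) (a (l 16802576) (l 16801904)))))) (b (a (a (l 16808040) (l 16806024)) (a (l 16804592) (l 16845760))) (a (a (l 16811248) (l 16808864)) (a (l 16807032) (c (l 16802872) (l 16808800)))))) (a (b (b (c (a (l 16796464) (a (l 16796624) (l 16795840))) (a (l 16800960) (l 16800168))) (a (a (l 16800976) (l 16800824)) (a (l 16799664) (l 16798192)))) (b (a (b (a (l 16782376)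 (l 16843616)) (l 16802784)) (b (l 16767880) (a (l 16780264) (b (l 16799280) (l 16799808))))) (a (c (l 16801016) (l 16806152)) (c (l 16798936) (l 16803312))))) (b (b (a (c (a (l 16794592) (l 16793488)) (l 16797464)) (a (b (a (b (l 16772672) (l 16793696)) (b (l 16792728) (l 16772112))) (l 16772528)) (b (a (b (l 16792040) (l 16771096)) (l 16791328)) (a (b (l 16771560) (l 16792528)) (b (l 16770496) (a (l 16792080) (l 16791752))))))) (a (c (l 16794528) (l 16797976)) (c (a (l 16792704) (l 16791472)) (a (l 16795616) (l 16794048))))) (b (a (a (c (l 16795920) (l 16799704)) (l 16796472)) (a (l 16816072) (c (l 16792528) (l 16795240)))) (c (a (b (a (l 16797480) (l 16795848)) (l 16797192)) (b (l 16793928) (a (l 16795952) (l 16794304)))) (a (b (a (l 16801352) (l 16799368)) (l 16800864)) (b (l 16796920) (a (l 16799168) (l 16797200))))))))), by decide +kernel⟩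

def k63_B00pm_102_s1 : ∃ t, chk3 f_B00pm_102_s1 t 14 31 1 = true :=
  ⟨(a (a (b (a (b (l 16814360) (l 16817272)) (b (l 16811560) (c (l 16810576) (l 16818344)))) (b (a (b (c (l 16815120) (l 16823904)) (l 16818144)) (b (a (b (l 16815984) (l 16816104)) (b (l 16814320) (l 16814744))) (c (l 16811752) (l 16819304)))) (a (b (c (l 16814112) (l 16822368)) (c (l 16813912) (l 16821888))) (c (b (l 16811592) (c (l 16810464) (l 16812880))) (b (l 16818808) (l 16818408)))))) (b (b (a (c (l 16806248) (l 16813016)) (c (l 16804288) (l 16810224))) (a (c (l 16808120) (l 16814968)) (c (l 16805944) (l 16811816)))) (b (b (a (b (l 16812328) (c (l 16809864) (l 16816648))) (c (b (l 16807240) (l 16807568)) (l 16812936))) (a (c (l 16809688) (l 16816216)) (c (l 16808072) (l 16813680)))) (b (c (a (l 16809584) (l 16807792)) (a (l 16815744) (l 16813008))) (c (a (c (l 16808680) (l 16810640)) (c (l 16807064) (l 16808616))) (a (l 16815328) (l 16812560))))))) (a (a (b (b (c (l 16802192) (l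 16807256)) (c (l 16803920) (l 16808912))) (b (b (l 16807656) (b (a (l 16809056) (l 16807896)) (l 16829208))) (c (b (l 16806168) (c (l 16805584) (l 16806792))) (b (l 16810560) (l 16810080))))) (b (b (c (l 16800192) (l 16804480)) (c (l 16801984) (l 16806192))) (b (b (l 16805408) (c (b (l 16804384) (l 16804888)) (b (l 16808488) (l 16808880)))) (c (c (l 16804144) (l 16805176)) (b (l 16808320) (l 16807800)))))) (a (b (b (c (l 16798224) (l 16801832)) (c (l 16800072) (l 16803592))) (b (b (l 16803216) (b (l 16804168) (c (l 16803344) (l 16806712)))) (c (b (l 16803136) (l 16802992)) (l 16826880)))) (b (b (c (l 16817176) (l 16799208)) (c (l 16798080) (l 16801000))) (b (b (l 16800984) (c (b (l 16800792) (l 16801256)) (l 16824520))) (b (c (l 16801696) (l 16804256)) (c (l 16801376) (l 16803488)))))))), by decide +kernel⟩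

def k64_B00pm_102_s1 : ∃ t, chk3 f_B00pm_102_s1 t 120 60 1 = true :=
  ⟨(b (b (a (c (l 16789208) (l 16791224)) (c (c (l 16787440) (l 16788136)) (l 16778952))) (a (a (a (b (l 16791048) (l 16791184)) (l 16790696)) (l 16769192)) (c (l 16788152) (l 16789928)))) (a (a (b (c (l 16780120) (l 16771928)) (l 16791800)) (b (b (a (l 16790696) (l 16790240)) (l 16775200)) (l 16791096))) (a (b (b (l 16789752) (a (l 16769264) (l 16789712))) (b (l 16790392) (l 16790512))) (b (l 16778600) (b (c (l 16788656) (l 16790544)) (l 16789840)))))), by decide +kernel⟩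

def k65_B00pm_102_s1 : ∃ t, chk3 f_B00pm_102_s1 t 242 120 1 = true :=
  ⟨(b (b (b (a (l 16781992) (a (l 16780072) (c (c (l 16784656) (l 16778896)) (a (l 16783592) (l 16782888))))) (a (l 16782064) (c (l 16780696) (l 16779960)))) (a (l 16782192) (a (l 16781600) (l 16781208)))) (c (c (l 16786408) (l 16787008)) (l 16782896))), by decide +kernel⟩

def k66_B00pm_102_s1 : ∃ t, chk3 f_B00pm_102_s1 t 486 240 1 = true :=
  ⟨(b (a (b (b (a (a (b (l 16782472) (l 16782792)) (b (a (l 16782200) (c (l 16782528) (l 16781464))) (l 16782432))) (a (b (c (l 16782368) (l 16781328)) (a (l 16782160) (c (l 16782496) (l 16781440)))) (c (l 16782272) (l 16781256)))) (b (a (c (l 16783448) (l 16782344)) (a (l 16782384) (a (c (l 16782608) (l 16781552)) (c (l 16782464) (l 16781424))))) (c (a (l 16783768) (l 16783024)) (a (l 16782656) (l 16781960))))) (c (c (l 16779192) (l 16778704)) (a (l 16783440) (l 16780112)))) (a (a (b (b (l 16781632) (a (b (l 16781872) (c (l 16782560) (l 16781520)))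 (c (l 16782368) (l 16781352)))) (c (b (l 16782944) (l 16783584)) (b (l 16781896) (l 16782520)))) (b (l 1076809743) (c (b (b (l 16782480) (l 16782728)) (l 16783216)) (b (b (c (l 16781736) (l 16781176)) (l 16781696)) (l 16782168))))) (b (l 1076832783) (c (b (c (l 16782520) (l 16782080)) (a (b (l 16782680) (l 16783000)) (b (l 16782432) (a (l 16782720) (l 16782552))))) (c (b (l 16781592) (a (l 16782080) (b (l 16781704) (l 16781896)))) (b (b (l 16780960) (l 16781112)) (a (l 16781520) (b (l 16781160) (l 16781344))))))))) (c (a (l 16780264) (c (l 16779616) (c (l 16779256) (l 16779008)))) (a (l 16779712) (b (a (l 16778032) (b (l 16782256) (l 16782880))) (l 16778920))))), by decide +kernel⟩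

def k67_B00pm_102_s1 : ∃ t, chk3 f_B00pm_102_s1 t 487 240 1 = true :=
  ⟨(b (a (b (l 1076878351) (a (a (c (l 16782184) (l 16781240)) (l 1076903439)) (l 1076925967))) (l 1076954639)) (a (a (b (a (b (a (c (l 16782816) (l 16781816)) (b (c (l 16782528) (l 16781536)) (l 16782328))) (c (l 16780752) (l 16782352))) (c (b (c (l 16782704) (l 16782264)) (l 16782992)) (b (c (l 16781776) (b (l 16781144) (l 16781304))) (l 16782000)))) (b (c (l 16783824) (l 16782792)) (l 16778720))) (b (b (l 1076950543) (a (c (b (l 16782536) (l 16782776)) (b (c (l 16781824) (l 16781296)) (l 16781792))) (c (l 16782432) (c (l 16781744) (l 16781224))))) (c (b (c (l 16780648) (l 16780208)) (l 16783712)) (a (l 16782576) (b (c (l 16782168) (l 16781632)) (l 16782528)))))) (a (b (l 1076988431) (a (b (b (c (l 16782480) (l 16781536)) (c (l 16780064) (a (l 16781800) (l 16781648)))) (c (l 16780528) (l 16782176))) (b (c (l 16782376) (l 16781456)) (b (c (l 16780024) (c (l 16781952) (l 16781432))) (c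 (l 16782936) (l 16781976)))))) (b (l 1077017615) (a (b (l 16781768) (b (l 16781984) (c (l 16779984) (a (l 16781720) (l 16781616))))) (l 1077057039)))))), by decide +kernel⟩

def k68_B00pm_102_s1 : ∃ t, chk3 f_B00pm_102_s1 t 243 241 1 = true :=
  ⟨(c (a (b (l 16785496) (l 16785696)) (b (a (l 16779704) (b (a (b (l 16783592) (l 16784232)) (a (l 16780720) (b (b (l 16782576) (l 16782816)) (l 16783296)))) (l 16784632))) (l 16779712))) (a (b (l 16781440) (l 16786936)) (b (a (l 16779360) (b (a (b (l 16782616) (l 16783232)) (b (a (l 16782080) (b (l 16781656) (l 16781880))) (l 16782520))) (l 16778552))) (l 16780808)))), by decide +kernel⟩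

def k69_B00pm_102_s1 : ∃ t, chk3 f_B00pm_102_s1 t 121 121 1 = true :=
  ⟨(a (b (c (a (l 16787544) (l 16786800)) (l 16788728)) (a (b (l 16788744) (c (a (l 16788560) (l 16788024)) (l 16790064))) (b (l 16787928) (l 16788184)))) (b (c (c (l 16782824) (l 16785952)) (a (l 16787376) (l 16786480))) (c (a (l 16786640) (l 16785888)) (l 16787616)))), by decide +kernel⟩

def k70_B00pm_102_s1 : ∃ t, chk3 f_B00pm_102_s1 t 60 61 1 = true :=
  ⟨(b (a (c (a (l 16791272) (b (l 16789680) (l 16790320))) (a (l 16793664) (l 16781584))) (a (a (b (l 16789504) (l 16790168)) (b (b (b (a (l 16788792) (l 16788264)) (l 16778336)) (l 16788928)) (l 16789440))) (a (b (b (a (l 16787912) (l 16787616)) (b (a (l 16788384) (l 16787840)) (l 16788376))) (l 16788704)) (b (b (l 16787000) (c (l 16786600) (l 16788024))) (b (b (a (l 16787960) (l 16787464)) (l 16787920)) (l 16788144)))))) (b (a (a (l 16793464) (l 16792040)) (a (l 16790592) (c (l 16788408) (l 16790040)))) (a (a (l 16794208) (l 16792960))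 (a (l 16791496) (l 16790008))))), by decide +kernel⟩

def k71_B00pm_102_s1 : ∃ t, chk3 f_B00pm_102_s1 t 122 120 1 = true :=
  ⟨(a (b (c (a (l 1077374479) (l 1076406287)) (a (c (l 1076915215) (l 1076567567)) (l 1076869135))) (a (b (a (b (a (b (c (l 16779760) (c (l 16781744) (l 16781256))) (c (a (l 16780288) (c (l 16780200) (l 16779800))) (a (b (l 16781840) (l 16782144)) (b (l 16781616) (c (l 16782056) (l 16781552)))))) (c (l 16779536) (l 16781336))) (a (c (b (l 16783360) (l 16783992)) (b (l 16782432) (l 16783040))) (b (c (a (b (l 16780056) (l 16782960)) (l 16779936)) (b (a (c (l 16782024) (l 16781528)) (l 16781576)) (a (l 16782056) (l 16781752)))) (c (l 16780616) (l 16779704))))) (a (b (l 1077168143) (b (l 1077191695) (c (a (b (l 16779984) (l 16782832)) (l 16782488)) (a (b (l 16781728) (l 16781952)) (l 16781648))))) (l 1077212175))) (c (a (l 16779160) (b (a (b (l 16780488) (l 16783752)) (b (a (l 16780024) (l 16782416)) (a (l 16783192) (l 16780200)))) (l 16784088)))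 (a (b (l 16778360) (l 16784824)) (b (a (b (a (l 16782416) (b (l 16781912) (l 16782208))) (l 16782848)) (b (a (b (l 16781688) (l 16781872)) (l 16781600)) (a (l 16782312) (b (l 16781840) (l 16782112))))) (c (l 16778408) (l 16777896)))))) (c (b (l 1077565455) (a (b (c (l 16782304) (l 16781968)) (a (b (b (l 16780136) (l 16783024)) (l 16783504)) (b (l 16782408) (c (l 16782976) (l 16782616))))) (b (l 16778680) (l 16779336)))) (b (l 1076969487) (a (a (b (b (l 16781352) (c (l 16781896) (l 16781440))) (b (b (a (l 16782056) (l 16781792)) (l 16779552)) (l 16782640))) (b (l 16781176) (b (l 16781624) (a (l 16779480) (b (l 16781744) (l 16781928)))))) (a (b (l 16780848) (l 16781424)) (l 1077078543))))))) (a (b (c (l 1076241423) (a (l 1076959247) (l 1077019151))) (a (b (l 1075755023) (l 1075814927)) (l 1075302415))) (b (b (l 3) (l 1075295247)) (l 1075383823)))), by decide +kernel⟩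

def k72_B00pm_102_s1 : ∃ t, chk3 f_B00pm_102_s1 t 244 121 1 = true :=
  ⟨(c (a (b (c (l 16784360) (l 16784784)) (l 16785128)) (b (b (a (b (l 16783824) (l 16783936)) (b (a (b (c (l 16782888) (l 16782536)) (l 16783232)) (b (l 16782240) (l 16782632))) (a (l 16783656) (l 16780776)))) (l 16781312)) (l 16784360))) (b (a (b (l 16780192) (l 16785736)) (b (c (a (l 16778800) (b (a (b (b (l 16782024) (l 16779600)) (l 16782640)) (b (l 16781712) (l 16779456))) (a (l 16783568) (l 16780192)))) (a (l 16778296) (b (a (b (a (l 16781792) (l 16781576)) (l 16782184)) (b (l 16781304) (b (l 16781544) (l 16779096)))) (b (a (l 16782792) (l 16779456)) (l 16777792))))) (l 16779600))) (a (l 16786256) (l 16780104)))), by decide +kernel⟩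

def k73_B00pm_102_s1 : ∃ t, chk3 f_B00pm_102_s1 t 245 121 1 = true :=
  ⟨(b (a (b (b (l 1075887631) (a (c (b (l 16779736) (a (l 16782984) (l 16782464))) (a (b (a (l 16779264) (l 16781672)) (a (l 16782392) (l 16779432))) (a (l 16779064) (l 16781472)))) (l 1077016079))) (a (b (a (b (l 16777992) (l 16783808)) (b (c (l 16782872) (a (l 16779648) (l 16779360))) (l 16777864))) (l 16778568)) (b (a (a (b (l 16779520) (b (l 16779800) (l 16782712))) (c (l 16782472) (l 16779152))) (l 16779176)) (c (a (l 16783152) (b (l 16782680) (l 16783008))) (b (a (l 16782584) (b (l 16779248) (l 16779440))) (l 16780184)))))) (b (l 1076544015) (a (a (b (l 16778776) (a (c (l 16782528) (l 16779232)) (l 16779352))) (l 1077660687)) (l 1077699087)))) (c (a (b (l 16780824) (l 16783744)) (b (a (b (a (l 16782928) (b (l 16782488) (l 16782736))) (l 16782944)) (b (l 16779280) (a (b (l 16782584) (l 16782688)) (b (l 16782160) (l 16782424))))) (a (l 16783168) (l 16782800)))) (a (b (b (l 16778936)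 (l 16784344)) (l 16784616)) (b (a (b (a (b (l 16779712) (l 16782944)) (b (l 16781840) (l 16779608))) (l 16783472)) (b (l 16778800) (a (b (l 16779520) (l 16782696)) (b (l 16781680) (l 16782056))))) (a (l 16783936) (b (l 16780584) (l 16783568))))))), by decide +kernel⟩

def k74_B00pm_102_s1 : ∃ t, chk3 f_B00pm_102_s1 t 123 60 1 = true :=
  ⟨(b (a (a (b (l 3) (l 1076024847)) (l 3)) (l 3)) (a (a (b (l 1077211151) (b (l 1077830159) (a (a (b (b (c (l 16782264) (l 16781976)) (l 16780144)) (l 16782872)) (b (b (l 16781816) (l 16779592)) (c (l 16782392) (l 16779952)))) (b (l 16778720) (a (b (l 16779496) (c (l 16782200) (l 16782192))) (l 16779216)))))) (c (l 1077777935) (l 1077648911))) (a (l 1075753487) (l 1077791759)))), by decide +kernel⟩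

def k75_B00pm_102_s1 : ∃ t, chk3 f_B00pm_102_s1 t 122 61 1 = true :=
  ⟨(b (a (b (c (a (l 16785808) (l 16785040)) (l 16786592)) (c (a (b (l 16796720) (l 16797432)) (b (l 16785624) (b (l 16785880) (l 16786088)))) (a (b (l 16777080) (l 16777840)) (b (l 16786808) (b (l 16787112) (l 16787344)))))) (b (a (c (l 16784264) (l 16785216)) (c (l 16783472) (b (l 16784088) (l 16784504)))) (c (a (l 16785048) (l 16784256)) (l 16785656)))) (a (a (b (l 16787984) (l 16788872)) (b (a (l 16787408) (b (l 16797432) (l 16787240))) (l 16788104))) (b (a (b (b (l 16785984) (a (l 16786608) (l 16786048))) (a (l 16786848) (l 16786576))) (b (l 16785360) (a (l 16791328) (l 16796000)))) (a (l 16787328) (b (l 16796880) (l 16786776)))))), by decide +kernel⟩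

def k76_B00pm_102_s1 : ∃ t, chk3 f_B00pm_102_s1 t 123 61 1 = true :=
  ⟨(b (a (b (a (b (a (b (l 16782936) (l 16783112)) (b (a (l 16782616) (c (l 16782136) (b (l 16782096) (l 16782624)))) (l 16782688))) (c (l 16782864) (l 16783576))) (b (b (a (b (l 16779016) (c (l 16781640) (l 16779184))) (l 16778200)) (a (a (l 16779776) (b (l 16779368) (l 16782224))) (c (a (l 16781424) (l 16781016)) (l 16778816)))) (b (a (l 16782448) (a (b (l 16779464) (l 16782176)) (c (l 16781536) (c (l 16781904) (l 16781776))))) (a (l 16782640) (l 16782216))))) (c (a (l 16780832) (l 16782648)) (a (l 16784256) (b (l 16783080) (l 16783552))))) (b (a (b (l 1077811215) (a (b (c (l 16780912) (l 16781208)) (b (c (l 16781304) (l 16779160)) (a (l 16781952) (l 16781624)))) (l 1077752847))) (l 1077695503)) (a (b (a (b (c (l 16781776) (l 16782304)) (l 16782184)) (a (b (b (l 16781464) (l 16781720)) (l 16781864)) (b (c (l 16780952) (l 16781384)) (b (l 16781584) (l 16781696))))) (c (l 16782032) (l 16782608)))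 (b (a (b (l 16777872) (a (b (l 16781168) (l 16781440)) (l 16780880))) (l 1077634063)) (a (b (a (l 16781640) (b (l 16781288) (l 16781496))) (l 16781744)) (a (b (a (l 16781096) (l 16780904)) (l 16781456)) (b (l 16780576) (b (l 16780992) (l 16781256))))))))) (a (a (b (c (l 16784336) (l 16785256)) (b (a (a (l 16785904) (l 16785632)) (l 16790424)) (l 16785976))) (b (c (l 16783520) (l 16779064)) (b (l 16784584) (a (l 16790712) (l 16790112))))) (b (a (c (l 16782696) (l 16783352)) (b (c (l 16781640) (l 16782144)) (c (l 16782096) (l 16782656)))) (a (a (b (l 16783960) (l 16784408)) (l 16789024)) (c (l 16782832) (l 16783480)))))), by decide +kernel⟩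

def k77_B00pm_102_s1 : ∃ t, chk3 f_B00pm_102_s1 t 30 62 1 = true :=
  ⟨(a (b (b (a (a (b (l 16816112) (l 16795496)) (b (l 16793576) (c (l 16793248) (l 16795608)))) (a (l 16813320) (l 16791024))) (a (a (l 16796104) (l 16794856)) (a (a (l 16815136) (b (l 16792888) (l 16793456))) (b (l 16791728) (a (l 16792920) (l 16791968)))))) (a (a (l 16818496) (c (l 16795352) (l 16797624))) (b (a (l 16794488) (l 16793144)) (c (l 16794088) (l 16795992))))) (a (a (b (b (l 16789496) (c (l 16789776) (l 16791368))) (b (b (b (l 16812216) (l 16812720)) (l 16792000)) (l 16792800))) (b (b (b (l 16787664) (l 16788192)) (l 16789032)) (b (b (l 16789792) (a (l 16791056) (l 16811016))) (c (l 16790776) (l 16792184))))) (b (b (a (a (l 16786720) (l 16791152)) (b (a (a (l 16795632) (l 16789824)) (a (l 16789288) (l 16783712))) (a (l 16785336) (a (l 16784824) (a (l 16794944) (l 16794640)))))) (c (a (l 16786936) (l 16785360)) (a (l 16788056) (l 16781016)))) (b (a (a (l 16788904) (l 16788184))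 (c (l 16786512) (l 16787488))) (b (a (a (l 16800560) (c (l 16788560) (l 16789744))) (c (l 16787312) (l 16788344))) (a (l 16790104) (a (c (l 16788608) (l 16789712)) (c (l 16798072) (l 16788600))))))))), by decide +kernel⟩

def k78_B00pm_102_s1 : ∃ t, chk3 f_B00pm_102_s1 t 30 63 1 = true :=
  ⟨(a (b (a (b (l 16819576) (l 16820872)) (b (c (l 16795288) (l 16797152)) (c (l 16796600) (l 16798424)))) (b (b (a (c (l 16799936) (l 16802144)) (a (l 16798840) (l 16797504))) (a (l 16800512) (c (l 16797880) (l 16799512)))) (c (a (l 16799592) (l 16797584)) (a (l 16801248) (l 16798864))))) (b (b (a (a (l 16793960) (l 16813472)) (a (a (l 16791368) (l 16790592)) (c (l 16799472) (l 16790024)))) (a (a (l 16795240) (l 16814752)) (a (c (l 16791808) (l 16792960)) (c (l 16790280) (l 16791272))))) (b (b (a (c (l 16795024) (l 16796408)) (a (l 16793272) (l 16791672))) (a (a (l 16817784) (c (l 16815912) (l 16796176))) (a (c (b (l 16793408) (l 16793704)) (l 16794496)) (a (l 16803112)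 (l 16791872))))) (c (a (c (l 16795312) (l 16795440)) (a (l 16793480) (b (l 16792312) (l 16792064)))) (a (l 16796296) (a (l 16794256) (b (l 16793104) (l 16792608)))))))), by decide +kernel⟩

def k79_B00pm_102_s1 : ∃ t, chk3 f_B00pm_102_s1 t 31 30 1 = true :=
  ⟨(a (b (l 3) (a (b (a (b (l 1077566479) (a (a (a (b (l 1077603343) (b (l 16780128) (l 16780696))) (l 1077571599)) (l 1077543439)) (l 1077490703))) (c (l 1077236239) (l 1079220751))) (a (b (b (a (a (b (a (b (l 16781120) (l 16781264)) (b (l 16780728) (l 16780984))) (l 16781352)) (b (l 16780216) (a (b (l 16780840) (l 16781080)) (b (l 16780440) (l 16780696))))) (l 1077469711)) (b (a (a (l 16781560) (a (l 16781232) (l 16781048))) (a (a (b (l 16780568) (l 16780840)) (l 16780288)) (l 1077446159))) (a (l 16781584) (a (a (l 16781032) (b (l 16780704) (l 16780888))) (a (b (l 16780320) (l 16780568)) (l 16780032)))))) (a (c (l 16781992) (l 16782528)) (b (a (l 16781296) (b (a (l 16780872) (b (l 16780432) (l 16780696)))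 (l 16780976))) (c (l 16781392) (l 16781848))))) (b (l 1077921295) (a (b (a (b (a (l 16780144) (l 16779760)) (a (b (l 16780576) (l 16780704)) (b (l 16780184) (l 16780448)))) (l 1077387279)) (a (b (l 16780800) (l 16781056)) (b (a (b (l 16780312) (l 16780544)) (b (l 16779936) (l 16780184))) (a (l 16780712) (l 16780528))))) (b (l 1077357071) (a (b (l 1077365263) (a (b (l 16780056) (l 16780328)) (l 16779792))) (l 1077347855))))))) (a (b (l 3) (a (l 1077316111) (l 1077287439))) (l 3)))) (l 3)), by decide +kernel⟩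

def k80_B00pm_102_s1 : ∃ t, chk3 f_B00pm_102_s1 t 124 62 1 = true :=
  ⟨(b (a (b (b (a (l 16783040) (l 16782136)) (a (b (l 16783472) (a (l 16783936) (l 16783536))) (l 16782712))) (a (b (a (l 16784480) (b (l 16783800) (l 16784160))) (l 16784744)) (b (a (b (l 16783384) (l 16783672)) (l 16783056)) (a (l 16784128) (b (l 16788784) (l 16783824)))))) (b (a (c (l 16781328) (b (l 16781464) (l 16782064))) (b (a (b (a (l 16780528) (b (l 16780208) (l 16780376))) (l 16780688)) (a (b (a (l 16780032) (l 16779832)) (l 16780376)) (b (l 16779560) (c (l 16779952) (l 16780224))))) (c (l 16780728) (l 16781080)))) (a (a (b (l 16782624) (b (l 16783032) (a (l 16783552) (l 16783264)))) (b (l 16782160) (a (l 16782816) (l 16782656)))) (c (b (l 16781288) (l 16781880)) (l 16782024))))) (b (b (a (a (l 16785328) (l 16784472)) (b (a (a (l 16783672) (c (l 16783040) (l 16783632))) (a (l 16787952) (l 16782312))) (a (l 16783752) (a (c (l 16782920) (l 16783488)) (c (l 16782344) (l 16782856))))))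 (a (c (l 16785184) (l 16785976)) (a (l 16784200) (a (l 16783544) (a (l 16783232) (b (l 16782880) (l 16783136))))))) (c (a (a (l 16786424) (l 16785704)) (a (l 16784864) (c (l 16783920) (l 16784112)))) (a (a (l 16787320) (l 16786512)) (a (l 16785576) (l 16784632)))))), by decide +kernel⟩

def k81_B00pm_102_s1 : ∃ t, chk3 f_B00pm_102_s1 t 125 124 1 = true :=
  ⟨(a (b (a (b (b (l 1077330959) (a (a (a (l 16779784) (l 16779616)) (l 16779304)) (l 1077327887))) (a (b (a (c (l 16780072) (l 16780352)) (b (l 16779712) (l 16779984))) (l 16780336)) (b (c (l 16779160) (l 16779344)) (a (a (l 16780072) (b (l 16779768) (l 16780016))) (c (b (l 16779384) (l 16777000)) (l 16779688)))))) (l 1077315599)) (a (b (a (l 16780768) (a (l 16780424) (c (l 16780120) (l 16780392)))) (c (a (l 16781208) (l 16780752)) (l 16781352))) (b (a (b (a (a (b (l 16779720) (l 16779952)) (b (l 16779536) (l 16779800))) (a (l 16776824) (l 16779264))) (a (l 16780096) (a (l 16779952) (b (l 16779672) (l 16779872)))))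 (a (b (l 1077330447) (b (l 16779384) (a (l 16779752) (l 16779552)))) (l 1077331471))) (a (c (l 16780304) (l 16780592)) (b (b (a (l 16779864) (a (l 16779632) (l 16779432))) (c (l 16779808) (l 16780040))) (l 16780104)))))) (a (b (l 1077305359) (b (l 1077329935) (a (a (b (b (l 16779136) (c (a (l 16776792) (l 16779240)) (l 16779496))) (c (b (a (l 16779640) (l 16776872)) (l 16779712)) (l 16779896))) (b (l 1077341711) (a (b (l 16779384) (l 16779648)) (b (l 16779200) (a (l 16779520) (l 16779416)))))) (a (b (l 1077341711) (b (l 16778888) (l 16779168))) (l 1077346831))))) (c (l 1077707279) (l 1077483023)))), by decide +kernel⟩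

def k82_B00pm_102_s1 : ∃ t, chk3 f_B00pm_102_s1 t 125 125 1 = true :=
  ⟨(a (b (a (b (c (l 16781584) (l 16782008)) (a (b (c (l 16787456) (l 16782704)) (c (l 16782656) (l 16783176))) (b (l 16782008) (a (l 16787680) (l 16782168))))) (c (c (b (l 16780616) (l 16781232)) (b (l 16780728) (l 16781360))) (c (l 16781224) (l 16781456)))) (a (a (b (l 16783264) (l 16783904)) (b (a (l 16782920) (b (l 16782592) (l 16782848))) (l 16783440))) (b (b (a (a (a (l 16782392) (l 16782232)) (l 16787256)) (l 16781696)) (a (l 16787800) (a (a (l 16782256) (l 16787336)) (a (l 16787184) (l 16781808))))) (c (a (l 16782776) (l 16782360)) (l 16777832))))) (b (a (b (a (c (l 16779968) (l 16780224)) (a (b (a (b (a (l 16779592) (l 16779496)) (l 16779696)) (b (a (l 16779392) (l 16779304)) (l 16779592))) (l 16779872)) (b (b (l 16779048) (a (b (l 16779360) (l 16779496)) (l 16779224))) (b (c (l 16779480) (l 16779680)) (l 16779704))))) (c (a (l 16780584) (a (l 16780232) (l 16779992))) (l 16780632)))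 (b (b (l 1077368847) (a (a (c (b (a (b (l 16779168) (l 16779296)) (l 16779040)) (a (l 16779440) (b (l 16779232) (l 16779360)))) (b (l 16779272) (l 16779568))) (b (l 1077373967) (b (l 16779016) (l 14)))) (l 14))) (a (b (a (l 16779696) (l 14)) (l 14)) (l 14)))) (b (a (c (a (l 16781224) (l 14)) (l 16781328)) (l 14)) (l 14)))), by decide +kernel⟩

def k83_B00pm_102_s1 : ∃ t, chk3 f_B00pm_102_s1 t 62 63 1 = true :=
  ⟨(b (a (b (a (b (a (b (l 16798224) (l 16788032)) (b (l 16786808) (a (l 16787480) (l 16786944)))) (c (l 16787728) (l 16788608))) (a (b (l 16791320) (b (c (l 16796840) (l 16787136)) (l 16786968))) (b (l 16785248) (b (l 16785712) (a (l 16786392) (l 16796320)))))) (a (c (c (l 16788608) (l 16788832)) (l 16789544)) (a (b (l 16787440) (l 16788080)) (b (l 16791824) (l 16787224))))) (a (b (a (b (l 16789576) (a (l 16785208) (l 16784784))) (a (b (l 16783640) (l 14)) (l 14))) (l 14)) (l 14))) (a (a (b (c (a (l 16790488) (l 16789672)) (l 16801376)) (b (b (a (l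 16791592) (l 16801264)) (l 16791016)) (c (l 16790672) (l 16791128)))) (a (b (b (l 16788760) (l 14)) (l 14)) (l 14))) (l 14))), by decide +kernel⟩

def k84_B00pm_102_s1 : ∃ t, chk3 f_B00pm_102_s1 t 63 31 1 = true :=
  ⟨(b (b (l 3) (l 14)) (l 14)), by decide +kernel⟩

theorem t85_B00pm_102_s1 : ∃ t, chk3 f_B00pm_102_s1 t 125 62 1 = true := ex3_b k81_B00pm_102_s1 k82_B00pm_102_s1

theorem t86_B00pm_102_s1 : ∃ t, chk3 f_B00pm_102_s1 t 62 62 1 = true := ex3_a k80_B00pm_102_s1 t85_B00pm_102_s1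

theorem t87_B00pm_102_s1 : ∃ t, chk3 f_B00pm_102_s1 t 62 31 1 = true := ex3_b t86_B00pm_102_s1 k83_B00pm_102_s1

theorem t88_B00pm_102_s1 : ∃ t, chk3 f_B00pm_102_s1 t 31 31 1 = true := ex3_a t87_B00pm_102_s1 k84_B00pm_102_s1

theorem t89_B00pm_102_s1 : ∃ t, chk3 f_B00pm_102_s1 t 31 15 1 = true := ex3_b k79_B00pm_102_s1 t88_B00pm_102_s1

theorem t90_B00pm_102_s1 : ∃ t, chk3 f_B00pm_102_s1 t 30 31 1 = true := ex3_b k77_B00pm_102_s1 k78_B00pm_102_s1

theorem t91_B00pm_102_s1 : ∃ t, chk3 f_B00pm_102_s1 t 61 61 1 = true := ex3_a k75_B00pm_102_s1 k76_B00pm_102_s1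

theorem t92_B00pm_102_s1 : ∃ t, chk3 f_B00pm_102_s1 t 122 121 1 = true := ex3_a k72_B00pm_102_s1 k73_B00pm_102_s1

theorem t93_B00pm_102_s1 : ∃ t, chk3 f_B00pm_102_s1 t 122 60 1 = true := ex3_b k71_B00pm_102_s1 t92_B00pm_102_s1

theorem t94_B00pm_102_s1 : ∃ t, chk3 f_B00pm_102_s1 t 61 60 1 = true := ex3_a t93_B00pm_102_s1 k74_B00pm_102_s1

theorem t95_B00pm_102_s1 : ∃ t, chk3 f_B00pm_102_s1 t 61 30 1 = true := ex3_b t94_B00pm_102_s1 t91_B00pm_102_s1

theorem t96_B00pm_102_s1 : ∃ t, chk3 f_B00pm_102_s1 t 243 240 1 = true := ex3_a k66_B00pm_102_s1 k67_B00pm_102_s1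

theorem t97_B00pm_102_s1 : ∃ t, chk3 f_B00pm_102_s1 t 243 120 1 = true := ex3_b t96_B00pm_102_s1 k68_B00pm_102_s1

theorem t98_B00pm_102_s1 : ∃ t, chk3 f_B00pm_102_s1 t 121 120 1 = true := ex3_a k65_B00pm_102_s1 t97_B00pm_102_s1

theorem t99_B00pm_102_s1 : ∃ t, chk3 f_B00pm_102_s1 t 121 60 1 = true := ex3_b t98_B00pm_102_s1 k69_B00pm_102_s1

theorem t100_B00pm_102_s1 : ∃ t, chk3 f_B00pm_102_s1 t 60 60 1 = true := ex3_a k64_B00pm_102_s1 t99_B00pm_102_s1

theorem t101_B00pm_102_s1 : ∃ t, chk3 f_B00pm_102_s1 t 60 30 1 = true := ex3_b t100_B00pm_102_s1 k70_B00pm_102_s1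

theorem t102_B00pm_102_s1 : ∃ t, chk3 f_B00pm_102_s1 t 30 30 1 = true := ex3_a t101_B00pm_102_s1 t95_B00pm_102_s1

theorem t103_B00pm_102_s1 : ∃ t, chk3 f_B00pm_102_s1 t 30 15 1 = true := ex3_b t102_B00pm_102_s1 t90_B00pm_102_s1

theorem t104_B00pm_102_s1 : ∃ t, chk3 f_B00pm_102_s1 t 15 15 1 = true := ex3_a t103_B00pm_102_s1 t89_B00pm_102_s1

theorem t105_B00pm_102_s1 : ∃ t, chk3 f_B00pm_102_s1 t 14 15 1 = true := ex3_b k62_B00pm_102_s1 k63_B00pm_102_s1

theorem t106_B00pm_102_s1 : ∃ t, chk3 f_B00pm_102_s1 t 7 15 1 = true := ex3_a t105_B00pm_102_s1 t104_B00pm_102_s1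

theorem t107_B00pm_102_s1 : ∃ t, chk3 f_B00pm_102_s1 t 242 239 1 = true := ex3_a k57_B00pm_102_s1 k58_B00pm_102_s1

theorem t108_B00pm_102_s1 : ∃ t, chk3 f_B00pm_102_s1 t 242 119 1 = true := ex3_b k56_B00pm_102_s1 t107_B00pm_102_s1

theorem t109_B00pm_102_s1 : ∃ t, chk3 f_B00pm_102_s1 t 121 119 1 = true := ex3_a t108_B00pm_102_s1 k59_B00pm_102_s1

theorem t110_B00pm_102_s1 : ∃ t, chk3 f_B00pm_102_s1 t 121 59 1 = true := ex3_b k55_B00pm_102_s1 t109_B00pm_102_s1

theorem t111_B00pm_102_s1 : ∃ t, chk3 f_B00pm_102_s1 t 241 238 1 = true := ex3_a k52_B00pm_102_s1 k53_B00pm_102_s1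

theorem t112_B00pm_102_s1 : ∃ t, chk3 f_B00pm_102_s1 t 241 119 1 = true := ex3_b t111_B00pm_102_s1 k54_B00pm_102_s1

theorem t113_B00pm_102_s1 : ∃ t, chk3 f_B00pm_102_s1 t 120 119 1 = true := ex3_a k51_B00pm_102_s1 t112_B00pm_102_s1

theorem t114_B00pm_102_s1 : ∃ t, chk3 f_B00pm_102_s1 t 482 237 1 = true := ex3_b k48_B00pm_102_s1 k49_B00pm_102_s1

theorem t115_B00pm_102_s1 : ∃ t, chk3 f_B00pm_102_s1 t 241 237 1 = true := ex3_a t114_B00pm_102_s1 k50_B00pm_102_s1

theorem t116_B00pm_102_s1 : ∃ t, chk3 f_B00pm_102_s1 t 241 118 1 = true := ex3_b k47_B00pm_102_s1 t115_B00pm_102_s1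

theorem t117_B00pm_102_s1 : ∃ t, chk3 f_B00pm_102_s1 t 240 118 1 = true := ex3_b k45_B00pm_102_s1 k46_B00pm_102_s1

theorem t118_B00pm_102_s1 : ∃ t, chk3 f_B00pm_102_s1 t 120 118 1 = true := ex3_a t117_B00pm_102_s1 t116_B00pm_102_s1

theorem t119_B00pm_102_s1 : ∃ t, chk3 f_B00pm_102_s1 t 120 59 1 = true := ex3_b t118_B00pm_102_s1 t113_B00pm_102_s1

theorem t120_B00pm_102_s1 : ∃ t, chk3 f_B00pm_102_s1 t 60 59 1 = true := ex3_a t119_B00pm_102_s1 t110_B00pm_102_s1

theorem t121_B00pm_102_s1 : ∃ t, chk3 f_B00pm_102_s1 t 60 29 1 = true := ex3_b k44_B00pm_102_s1 t120_B00pm_102_s1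

theorem t122_B00pm_102_s1 : ∃ t, chk3 f_B00pm_102_s1 t 30 29 1 = true := ex3_a t121_B00pm_102_s1 k60_B00pm_102_s1

theorem t123_B00pm_102_s1 : ∃ t, chk3 f_B00pm_102_s1 t 30 14 1 = true := ex3_b k43_B00pm_102_s1 t122_B00pm_102_s1

theorem t124_B00pm_102_s1 : ∃ t, chk3 f_B00pm_102_s1 t 15 14 1 = true := ex3_a t123_B00pm_102_s1 k61_B00pm_102_s1

theorem t125_B00pm_102_s1 : ∃ t, chk3 f_B00pm_102_s1 t 119 117 1 = true := ex3_a k40_B00pm_102_s1 k41_B00pm_102_s1

theorem t126_B00pm_102_s1 : ∃ t, chk3 f_B00pm_102_s1 t 119 58 1 = true := ex3_b k39_B00pm_102_s1 t125_B00pm_102_s1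

theorem t127_B00pm_102_s1 : ∃ t, chk3 f_B00pm_102_s1 t 59 58 1 = true := ex3_a k38_B00pm_102_s1 t126_B00pm_102_s1

theorem t128_B00pm_102_s1 : ∃ t, chk3 f_B00pm_102_s1 t 59 29 1 = true := ex3_b t127_B00pm_102_s1 k42_B00pm_102_s1

theorem t129_B00pm_102_s1 : ∃ t, chk3 f_B00pm_102_s1 t 29 29 1 = true := ex3_a k37_B00pm_102_s1 t128_B00pm_102_s1

theorem t130_B00pm_102_s1 : ∃ t, chk3 f_B00pm_102_s1 t 29 14 1 = true := ex3_b k36_B00pm_102_s1 t129_B00pm_102_s1

theorem t131_B00pm_102_s1 : ∃ t, chk3 f_B00pm_102_s1 t 28 28 1 = true := ex3_a k33_B00pm_102_s1 k34_B00pm_102_s1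

theorem t132_B00pm_102_s1 : ∃ t, chk3 f_B00pm_102_s1 t 28 14 1 = true := ex3_b t131_B00pm_102_s1 k35_B00pm_102_s1

theorem t133_B00pm_102_s1 : ∃ t, chk3 f_B00pm_102_s1 t 14 14 1 = true := ex3_a t132_B00pm_102_s1 t130_B00pm_102_s1

theorem t134_B00pm_102_s1 : ∃ t, chk3 f_B00pm_102_s1 t 7 14 1 = true := ex3_a t133_B00pm_102_s1 t124_B00pm_102_s1

theorem t135_B00pm_102_s1 : ∃ t, chk3 f_B00pm_102_s1 t 7 7 1 = true := ex3_b t134_B00pm_102_s1 t106_B00pm_102_s1

theorem t136_B00pm_102_s1 : ∃ t, chk3 f_B00pm_102_s1 t 56 55 1 = true := ex3_a k28_B00pm_102_s1 k29_B00pm_102_s1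

theorem t137_B00pm_102_s1 : ∃ t, chk3 f_B00pm_102_s1 t 112 54 1 = true := ex3_b k25_B00pm_102_s1 k26_B00pm_102_s1

theorem t138_B00pm_102_s1 : ∃ t, chk3 f_B00pm_102_s1 t 56 54 1 = true := ex3_a t137_B00pm_102_s1 k27_B00pm_102_s1

theorem t139_B00pm_102_s1 : ∃ t, chk3 f_B00pm_102_s1 t 56 27 1 = true := ex3_b t138_B00pm_102_s1 t136_B00pm_102_s1

theorem t140_B00pm_102_s1 : ∃ t, chk3 f_B00pm_102_s1 t 28 27 1 = true := ex3_a t139_B00pm_102_s1 k30_B00pm_102_s1

theorem t141_B00pm_102_s1 : ∃ t, chk3 f_B00pm_102_s1 t 28 13 1 = true := ex3_b k24_B00pm_102_s1 t140_B00pm_102_s1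

theorem t142_B00pm_102_s1 : ∃ t, chk3 f_B00pm_102_s1 t 14 13 1 = true := ex3_a t141_B00pm_102_s1 k31_B00pm_102_s1

theorem t143_B00pm_102_s1 : ∃ t, chk3 f_B00pm_102_s1 t 14 6 1 = true := ex3_b k23_B00pm_102_s1 t142_B00pm_102_s1

theorem t144_B00pm_102_s1 : ∃ t, chk3 f_B00pm_102_s1 t 7 6 1 = true := ex3_a t143_B00pm_102_s1 k32_B00pm_102_s1

theorem t145_B00pm_102_s1 : ∃ t, chk3 f_B00pm_102_s1 t 7 3 1 = true := ex3_b t144_B00pm_102_s1 t135_B00pm_102_s1

theorem t146_B00pm_102_s1 : ∃ t, chk3 f_B00pm_102_s1 t 6 14 1 = true := ex3_a k20_B00pm_102_s1 k21_B00pm_102_s1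

theorem t147_B00pm_102_s1 : ∃ t, chk3 f_B00pm_102_s1 t 6 7 1 = true := ex3_b t146_B00pm_102_s1 k22_B00pm_102_s1

theorem t148_B00pm_102_s1 : ∃ t, chk3 f_B00pm_102_s1 t 27 13 1 = true := ex3_b k18_B00pm_102_s1 k19_B00pm_102_s1

theorem t149_B00pm_102_s1 : ∃ t, chk3 f_B00pm_102_s1 t 13 13 1 = true := ex3_a k17_B00pm_102_s1 t148_B00pm_102_s1

theorem t150_B00pm_102_s1 : ∃ t, chk3 f_B00pm_102_s1 t 53 25 1 = true := ex3_b k14_B00pm_102_s1 k15_B00pm_102_s1

theorem t151_B00pm_102_s1 : ∃ t, chk3 f_B00pm_102_s1 t 52 50 1 = true := ex3_a k11_B00pm_102_s1 k12_B00pm_102_s1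

theorem t152_B00pm_102_s1 : ∃ t, chk3 f_B00pm_102_s1 t 52 25 1 = true := ex3_b t151_B00pm_102_s1 k13_B00pm_102_s1

theorem t153_B00pm_102_s1 : ∃ t, chk3 f_B00pm_102_s1 t 26 25 1 = true := ex3_a t152_B00pm_102_s1 t150_B00pm_102_s1

theorem t154_B00pm_102_s1 : ∃ t, chk3 f_B00pm_102_s1 t 13 25 1 = true := ex3_a t153_B00pm_102_s1 k16_B00pm_102_s1

theorem t155_B00pm_102_s1 : ∃ t, chk3 f_B00pm_102_s1 t 13 12 1 = true := ex3_b k10_B00pm_102_s1 t154_B00pm_102_s1

theorem t156_B00pm_102_s1 : ∃ t, chk3 f_B00pm_102_s1 t 13 6 1 = true := ex3_b t155_B00pm_102_s1 t149_B00pm_102_s1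

theorem t157_B00pm_102_s1 : ∃ t, chk3 f_B00pm_102_s1 t 25 12 1 = true := ex3_b k7_B00pm_102_s1 k8_B00pm_102_s1

theorem t158_B00pm_102_s1 : ∃ t, chk3 f_B00pm_102_s1 t 12 12 1 = true := ex3_a k6_B00pm_102_s1 t157_B00pm_102_s1

theorem t159_B00pm_102_s1 : ∃ t, chk3 f_B00pm_102_s1 t 12 6 1 = true := ex3_b t158_B00pm_102_s1 k9_B00pm_102_s1

theorem t160_B00pm_102_s1 : ∃ t, chk3 f_B00pm_102_s1 t 6 6 1 = true := ex3_a t159_B00pm_102_s1 t156_B00pm_102_s1

theorem t161_B00pm_102_s1 : ∃ t, chk3 f_B00pm_102_s1 t 6 3 1 = true := ex3_b t160_B00pm_102_s1 t147_B00pm_102_s1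

theorem t162_B00pm_102_s1 : ∃ t, chk3 f_B00pm_102_s1 t 3 3 1 = true := ex3_a t161_B00pm_102_s1 t145_B00pm_102_s1

theorem t163_B00pm_102_s1 : ∃ t, chk3 f_B00pm_102_s1 t 3 1 1 = true := ex3_b k5_B00pm_102_s1 t162_B00pm_102_s1

theorem t164_B00pm_102_s1 : ∃ t, chk3 f_B00pm_102_s1 t 5 5 1 = true := ex3_a k2_B00pm_102_s1 k3_B00pm_102_s1

theorem t165_B00pm_102_s1 : ∃ t, chk3 f_B00pm_102_s1 t 5 2 1 = true := ex3_b k1_B00pm_102_s1 t164_B00pm_102_s1

theorem t166_B00pm_102_s1 : ∃ t, chk3 f_B00pm_102_s1 t 2 2 1 = true := ex3_a k0_B00pm_102_s1 t165_B00pm_102_s1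

theorem t167_B00pm_102_s1 : ∃ t, chk3 f_B00pm_102_s1 t 2 1 1 = true := ex3_b t166_B00pm_102_s1 k4_B00pm_102_s1

theorem t168_B00pm_102_s1 : ∃ t, chk3 f_B00pm_102_s1 t 1 1 1 = true := ex3_a t167_B00pm_102_s1 t163_B00pm_102_s1

theorem c_B00pm_102_s1 : CertF 536870912 536870912 0 536870912 649613803 48318383 false true false .npp 1 0 2
    ndB0q1 ndB0q2 pcB0 cut_B00pm_102_s1 xt_B00pm_102_s1 :=
  certF0 (fam := false) (s1 := true) (s2 := false) (a := 1) (b := 0) (c := 2) (cn := .npp) (n1 := ndB0q1) (n2 := ndB0q2) (pc := pcB0) (cut := cut_B00pm_102_s1) (xt := xt_B00pm_102_s1) (P1 := 536870912) (W1 := 536870912) (P2 := 0) (W2 := 536870912) (P3 := 649613803) (W3 := 48318383)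
    rfl t168_B00pm_102_s1

theorem s_B00pm_102_s1 {κ x : ℝ} (hκ : κ * h0 = ken x) (hx : ((649613803 : ℕ) : ℝ) / S ≤ x)
    (hx' : x ≤ (((649613803 : ℕ) : ℝ) + (48318383 : ℕ)) / S)
    (H : CutB (VFD κ) PP tK tL pcB (Cut.of [[⟨0, 1, 0, 33554432⟩, ⟨1, 0, 0, 33554432⟩, ⟨2, 1, 0, 33554432⟩], [⟨0, 0, 1, 20971520⟩, ⟨1, 1, 2, 20971520⟩, ⟨2, 1, 0, 33554432⟩]]) 1 0 2 0 0 (sgb true) (sgb false) x) :
    AltB (VFD κ) PP tK tL pcB [⟨3, 0, 0, 1449551462⟩] 1 0 2 0 0 (sgb true) (sgb false) x :=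
  strip_altBD (m := 1449551462) true rfl hκ (SH.κ0 hκ (SH.hx1 hx).le (SH.hx2 hx').le) (SH.hx1 hx).le (SH.hx2 hx') (covB01).cov (covB02).cov hx hx' c_B00pm_102_s1 H ((okx6 hx hx').extB (T := tt) (okx hx hx') (sideB hx hx') hκ rfl rfl (.O 1 true) (.O 2 false) (Or.inl rfl))

noncomputable def cut_B00pm_102_s3 : Cut := Cut.of [[⟨3, 0, 0, 2845415833⟩], [⟨0, 1, 0, 33554432⟩, ⟨1, 0, 0, 33554432⟩, ⟨2, 1, 0, 33554432⟩], [⟨0, 0, 1, 20971520⟩, ⟨1, 1, 2, 20971520⟩, ⟨2, 1, 0, 33554432⟩]]

noncomputable def f_B00pm_102_s3 : ℕ → ℕ → ℕ → ℕ → Bool := onCell 536870912 536870912 0 536870912 649613803 48318383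
    (rowF 0 false true false .npp 1 0 2 (qsf 536870912 536870912 0 536870912 0) ndB0q1 ndB0q2 pcB0 cut_B00pm_102_s3 Ext.none)

def k0_B00pm_102_s3 : ∃ t, chk3 f_B00pm_102_s3 t 1 1 1 = true :=
  ⟨(l 6), by decide +kernel⟩

theorem c_B00pm_102_s3 : CertF 536870912 536870912 0 536870912 649613803 48318383 false true false .npp 1 0 2
    ndB0q1 ndB0q2 pcB0 cut_B00pm_102_s3 Ext.none :=
  certF0 (fam := false) (s1 := true) (s2 := false) (a := 1) (b := 0) (c := 2) (cn := .npp) (n1 := ndB0q1) (n2 := ndB0q2) (pc := pcB0) (cut := cut_B00pm_102_s3) (xt := Ext.none) (P1 := 536870912) (W1 := 536870912) (P2 := 0) (W2 := 536870912) (P3 := 649613803) (W3 := 48318383)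
    rfl k0_B00pm_102_s3

theorem s_B00pm_102_s3 {κ x : ℝ} (hκ : κ * h0 = ken x) (hx : ((649613803 : ℕ) : ℝ) / S ≤ x)
    (hx' : x ≤ (((649613803 : ℕ) : ℝ) + (48318383 : ℕ)) / S)
    (H : CutB (VFD κ) PP tK tL pcB (Cut.of [[⟨0, 1, 0, 33554432⟩, ⟨1, 0, 0, 33554432⟩, ⟨2, 1, 0, 33554432⟩], [⟨0, 0, 1, 20971520⟩, ⟨1, 1, 2, 20971520⟩, ⟨2, 1, 0, 33554432⟩]]) 1 0 2 0 0 (sgb true) (sgb false) x) :
    AltB (VFD κ) PP tK tL pcB [⟨4, 0, 0, 2845415833⟩] 1 0 2 0 0 (sgb true) (sgb false) x :=
  strip_altBD (m := 2845415833) false rfl hκ (SH.κ0 hκ (SH.hx1 hx).le (SH.hx2 hx').le) (SH.hx1 hx).le (SH.hx2 hx') (covB01).cov (covB02).cov hx hx' c_B00pm_102_s3 H (noExt_B)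

noncomputable def cut_B00pm_112_s1 : Cut := Cut.of [[⟨4, 0, 0, 1449551462⟩]]

noncomputable def xt_B00pm_112_s1 : Ext := strExt6 dd false true false .u0 .u2 .u0m .dn 1 1 2 rfl rfl gf1 vv ww ndB0q1 ndB0q2

noncomputable def f_B00pm_112_s1 : ℕ → ℕ → ℕ → ℕ → Bool := onCell 536870912 536870912 0 536870912 649613803 48318383
    (rowF 0 false true false .dn 1 1 2 (qsf 536870912 536870912 0 536870912 1) ndB0q1 ndB0q2 pcB1 cut_B00pm_112_s1 xt_B00pm_112_s1)

def k0_B00pm_112_s1 : ∃ t, chk3 f_B00pm_112_s1 t 8 4 1 = true :=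
  ⟨(b (a (a (b (l 16715448) (l 16693048)) (b (a (l 16723176) (b (l 16734312) (l 16722664))) (l 16702856))) (b (b (a (a (b (b (l 16744112) (l 16741200)) (l 16736824)) (b (l 16748208) (b (l 16743752) (l 16751312)))) (l 1068421647)) (a (a (l 16728008) (l 16733448)) (a (b (b (a (l 16741992) (l 16744784)) (a (l 16739040) (l 16741784))) (l 16735936)) (b (l 16747568) (a (b (l 16741608) (l 16738616)) (b (l 16744472) (l 16741448))))))) (a (a (l 16710504) (l 16715696)) (b (a (l 16726960) (l 16732480)) (l 16738704))))) (a (b (b (l 16723456) (a (l 16677128) (l 16675672))) (b (a (l 16656864) (b (l 16668024) (l 16663136))) (l 16672600))) (b (a (l 16690472) (a (l 16697896) (l 16702992))) (a (b (l 16674608) (b (l 16667080) (l 16662184))) (b (l 16684080) (a (l 16671344) (l 16676016))))))), by decide +kernel⟩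

def k1_B00pm_112_s1 : ∃ t, chk3 f_B00pm_112_s1 t 9 4 1 = true :=
  ⟨(b (a (b (a (l 1068324367) (l 1068190735)) (a (b (a (b (a (b (l 16741272) (l 16738224)) (l 16742600)) (l 16735064)) (b (l 16746968) (a (b (l 16740888) (l 16737800)) (l 16742224)))) (a (l 16725904) (l 16731512))) (b (a (b (l 16752880) (l 16746616)) (l 1068186127)) (a (b (a (l 16738912) (l 16741808)) (l 16734136)) (b (l 16746256) (a (l 16738512) (b (l 16743016) (l 16739904)))))))) (b (a (l 1068031503) (l 3)) (a (b (l 1068060175) (a (b (l 16752336) (l 16756424)) (l 1068034063))) (l 1068364303)))) (a (a (b (b (l 16716704) (l 16705152)) (b (l 16693984) (l 16683216))) (b (b (a (l 16725008) (l 16730720)) (l 16715952)) (b (l 16709664) (l 16693272)))) (b (a (b (a (b (a (l 16738216) (b (l 16742744) (l 16739648))) (l 16733520)) (b (a (l 16744208) (l 16747304)) (a (l 16738016) (b (l 16742568) (l 16739488))))) (a (l 16724432) (l 16730288))) (b (a (b (l 16752008) (a (l 16744056) (l 16747216))) (l 1067928079))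 (a (b (b (a (l 16739432) (l 16742456)) (l 16737880)) (l 16733224)) (b (a (b (l 16745608) (l 16742416)) (l 16747176)) (b (a (l 16739360) (l 16742384)) (l 16737816)))))) (a (b (a (l 16712632) (l 16718304)) (a (l 16701200) (l 16706680))) (a (b (l 16724120) (l 16712304)) (b (l 16730072) (l 16718064))))))), by decide +kernel⟩

def k2_B00pm_112_s1 : ∃ t, chk3 f_B00pm_112_s1 t 4 5 1 = true :=
  ⟨(b (a (a (b (a (l 16634376) (l 16642216)) (l 6)) (b (b (a (l 16654936) (b (l 16666168) (l 16661224))) (l 16670752)) (b (l 16681752) (l 16670272)))) (b (a (a (a (b (l 16670472) (l 16660528)) (b (l 16675168) (l 16665048))) (b (l 16682496) (a (b (l 16672208) (l 16667072)) (b (l 16677048) (l 16671768))))) (a (b (a (l 16690128) (l 16695408)) (a (l 16679368) (l 16684432))) (b (a (l 16700832) (l 16706392)) (a (l 16689648) (l 16694992))))) (a (a (l 16667192) (b (l 16661016) (l 16648288))) (a (b (a (b (l 16671000) (l 16664920)) (b (l 16675912) (l 16669720))) (l 16657264)) (b (a (b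 (l 16680968) (l 16674632)) (l 16682992)) (a (b (l 16688912) (l 16660760)) (b (a (l 16671616) (l 16674168)) (a (l 16664408) (l 16666888))))))))) (a (l 6) (a (b (a (l 16660224) (b (l 16633832) (l 16617344))) (l 6)) (b (a (b (l 16642336) (l 16625312)) (b (a (l 16649152) (l 16653904)) (l 16634064))) (a (b (l 16605664) (l 6)) (b (l 16655880) (l 16611928))))))), by decide +kernel⟩

def k3_B00pm_112_s1 : ∃ t, chk3 f_B00pm_112_s1 t 5 2 1 = true :=
  ⟨(b (a (b (a (a (b (l 3) (a (l 1067689999) (l 1067595791))) (l 3)) (l 1)) (a (b (a (b (l 1067795983) (a (a (b (l 16750384) (b (l 16745576) (l 16742344))) (l 16760864)) (l 1067842063))) (a (b (l 1067624975) (l 1067720207)) (b (l 1067486735) (l 1067577871)))) (a (b (a (b (b (a (l 16739304) (l 16742296)) (a (l 16736152) (l 16739248))) (l 16733048)) (b (a (b (l 16745488) (a (l 16741464) (l 16743000))) (l 16747040)) (b (a (l 16739168) (a (l 16741360) (l 16742888))) (a (l 16736008) (l 16739064))))) (b (a (l 16726952) (l 16732880))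 (a (l 16720944) (l 16726784)))) (b (a (b (l 1067785743) (a (b (l 16745296) (a (l 16741240) (l 16742744))) (l 16746832))) (b (l 1067639311) (l 1067678735))) (a (b (b (a (l 16738928) (a (l 16741080) (l 16742576))) (a (l 16735760) (l 16738768))) (l 16732608)) (l 1))))) (l 1))) (l 1)) (a (a (a (b (b (b (a (b (l 16715008) (l 16709144)) (b (l 16720760) (l 16714800))) (a (b (l 16703328) (l 16697536)) (b (l 16708888) (l 16702992)))) (a (b (a (l 16686928) (l 16689576)) (b (l 16678008) (a (b (l 16671248) (l 16667480)) (l 16671872)))) (b (b (l 16696816) (l 16690208)) (a (l 16699176) (l 33856249975))))) (b (b (a (b (a (l 16661600) (l 16685072)) (l 16654584)) (b (a (b (l 16668544) (l 16664536)) (l 1)) (l 1))) (a (l 16641088) (l 1))) (b (c (l 40835471159) (l 16662808)) (l 1)))) (a (b (b (b (b (l 16726496) (l 8623375495)) (b (l 13455201687) (l 18287027911))) (b (l 1) (l 1))) (l 1)) (l 1))) (l 1)) (l 1))), by decide +kernel⟩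

def k4_B00pm_112_s1 : ∃ t, chk3 f_B00pm_112_s1 t 2 3 1 = true :=
  ⟨(a (b (l 6) (l 6)) (b (l 1) (l 1))), by decide +kernel⟩

def k5_B00pm_112_s1 : ∃ t, chk3 f_B00pm_112_s1 t 3 1 1 = true :=
  ⟨(l 1), by decide +kernel⟩

theorem t6_B00pm_112_s1 : ∃ t, chk3 f_B00pm_112_s1 t 4 4 1 = true := ex3_a k0_B00pm_112_s1 k1_B00pm_112_s1

theorem t7_B00pm_112_s1 : ∃ t, chk3 f_B00pm_112_s1 t 4 2 1 = true := ex3_b t6_B00pm_112_s1 k2_B00pm_112_s1

theorem t8_B00pm_112_s1 : ∃ t, chk3 f_B00pm_112_s1 t 2 2 1 = true := ex3_a t7_B00pm_112_s1 k3_B00pm_112_s1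

theorem t9_B00pm_112_s1 : ∃ t, chk3 f_B00pm_112_s1 t 2 1 1 = true := ex3_b t8_B00pm_112_s1 k4_B00pm_112_s1

theorem t10_B00pm_112_s1 : ∃ t, chk3 f_B00pm_112_s1 t 1 1 1 = true := ex3_a t9_B00pm_112_s1 k5_B00pm_112_s1

theorem c_B00pm_112_s1 : CertF 536870912 536870912 0 536870912 649613803 48318383 false true false .dn 1 1 2
    ndB0q1 ndB0q2 pcB1 cut_B00pm_112_s1 xt_B00pm_112_s1 :=
  certF0 (fam := false) (s1 := true) (s2 := false) (a := 1) (b := 1) (c := 2) (cn := .dn) (n1 := ndB0q1) (n2 := ndB0q2) (pc := pcB1) (cut := cut_B00pm_112_s1) (xt := xt_B00pm_112_s1) (P1 := 536870912) (W1 := 536870912) (P2 := 0) (W2 := 536870912) (P3 := 649613803) (W3 := 48318383)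
    rfl t10_B00pm_112_s1

theorem s_B00pm_112_s1 {κ x : ℝ} (hκ : κ * h0 = ken x) (hx : ((649613803 : ℕ) : ℝ) / S ≤ x)
    (hx' : x ≤ (((649613803 : ℕ) : ℝ) + (48318383 : ℕ)) / S) :
    AltB (VFD κ) PP tK tL pcB [⟨3, 0, 0, 1449551462⟩] 1 1 2 0 0 (sgb true) (sgb false) x :=
  strip_altBD (m := 1449551462) true rfl hκ (SH.κ0 hκ (SH.hx1 hx).le (SH.hx2 hx').le) (SH.hx1 hx).le (SH.hx2 hx') (covB01).cov (covB02).cov hx hx' c_B00pm_112_s1 cutB_nil ((okx6 hx hx').extB (T := tt) (okx hx hx') (sideB hx hx') hκ rfl rfl (.O 1 true) (.O 2 false) (Or.inr rfl))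

noncomputable def cut_B00pm_112_s3 : Cut := Cut.of [[⟨3, 0, 0, 2845415833⟩]]

noncomputable def f_B00pm_112_s3 : ℕ → ℕ → ℕ → ℕ → Bool := onCell 536870912 536870912 0 536870912 649613803 48318383
    (rowF 0 false true false .dn 1 1 2 (qsf 536870912 536870912 0 536870912 1) ndB0q1 ndB0q2 pcB1 cut_B00pm_112_s3 Ext.none)

def k0_B00pm_112_s3 : ∃ t, chk3 f_B00pm_112_s3 t 1 1 1 = true :=
  ⟨(l 6), by decide +kernel⟩

theorem c_B00pm_112_s3 : CertF 536870912 536870912 0 536870912 649613803 48318383 false true false .dn 1 1 2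
    ndB0q1 ndB0q2 pcB1 cut_B00pm_112_s3 Ext.none :=
  certF0 (fam := false) (s1 := true) (s2 := false) (a := 1) (b := 1) (c := 2) (cn := .dn) (n1 := ndB0q1) (n2 := ndB0q2) (pc := pcB1) (cut := cut_B00pm_112_s3) (xt := Ext.none) (P1 := 536870912) (W1 := 536870912) (P2 := 0) (W2 := 536870912) (P3 := 649613803) (W3 := 48318383)
    rfl k0_B00pm_112_s3

theorem s_B00pm_112_s3 {κ x : ℝ} (hκ : κ * h0 = ken x) (hx : ((649613803 : ℕ) : ℝ) / S ≤ x)
    (hx' : x ≤ (((649613803 : ℕ) : ℝ) + (48318383 : ℕ)) / S) :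
    AltB (VFD κ) PP tK tL pcB [⟨4, 0, 0, 2845415833⟩] 1 1 2 0 0 (sgb true) (sgb false) x :=
  strip_altBD (m := 2845415833) false rfl hκ (SH.κ0 hκ (SH.hx1 hx).le (SH.hx2 hx').le) (SH.hx1 hx).le (SH.hx2 hx') (covB01).cov (covB02).cov hx hx' c_B00pm_112_s3 cutB_nil (noExt_B)

noncomputable def cut_B00pm_202_s1 : Cut := Cut.of [[⟨4, 0, 0, 1449551462⟩], [⟨0, 1, 0, 67108864⟩, ⟨1, 0, 0, 67108864⟩, ⟨2, 1, 0, 67108864⟩]]

noncomputable def f_B00pm_202_s1 : ℕ → ℕ → ℕ → ℕ → Bool := onCell 0 536870912 0 536870912 649613803 48318383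
    (rowF 0 false true false .pp 2 0 2 (qsf 0 536870912 0 536870912 0) ndB0q2 ndB0q2 pcB0 cut_B00pm_202_s1 Ext.none)

def k0_B00pm_202_s1 : ∃ t, chk3 f_B00pm_202_s1 t 1 1 1 = true :=
  ⟨(a (l 3) (b (l 3) (b (l 3) (a (l 3) (b (l 3) (a (l 3) (l 14))))))), by decide +kernel⟩

theorem c_B00pm_202_s1 : CertF 0 536870912 0 536870912 649613803 48318383 false true false .pp 2 0 2
    ndB0q2 ndB0q2 pcB0 cut_B00pm_202_s1 Ext.none :=
  certF0 (fam := false) (s1 := true) (s2 := false) (a := 2) (b := 0) (c := 2) (cn := .pp) (n1 := ndB0q2) (n2 := ndB0q2) (pc := pcB0) (cut := cut_B00pm_202_s1) (xt := Ext.none) (P1 := 0) (W1 := 536870912) (P2 := 0) (W2 := 536870912) (P3 := 649613803) (W3 := 48318383)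
    rfl k0_B00pm_202_s1

theorem s_B00pm_202_s1 {κ x : ℝ} (hκ : κ * h0 = ken x) (hx : ((649613803 : ℕ) : ℝ) / S ≤ x)
    (hx' : x ≤ (((649613803 : ℕ) : ℝ) + (48318383 : ℕ)) / S)
    (H : CutB (VFD κ) PP tK tL pcB (Cut.of [[⟨0, 1, 0, 67108864⟩, ⟨1, 0, 0, 67108864⟩, ⟨2, 1, 0, 67108864⟩]]) 2 0 2 0 0 (sgb true) (sgb false) x) :
    AltB (VFD κ) PP tK tL pcB [⟨3, 0, 0, 1449551462⟩] 2 0 2 0 0 (sgb true) (sgb false) x :=
  strip_altBD (m := 1449551462) true rfl hκ (SH.κ0 hκ (SH.hx1 hx).le (SH.hx2 hx').le) (SH.hx1 hx).le (SH.hx2 hx') (covB02).cov (covB02).cov hx hx' c_B00pm_202_s1 H (noExt_B)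

noncomputable def cut_B00pm_202_s3 : Cut := Cut.of [[⟨3, 0, 0, 2845415833⟩], [⟨0, 1, 0, 67108864⟩, ⟨1, 0, 0, 67108864⟩, ⟨2, 1, 0, 67108864⟩]]

noncomputable def f_B00pm_202_s3 : ℕ → ℕ → ℕ → ℕ → Bool := onCell 0 536870912 0 536870912 649613803 48318383
    (rowF 0 false true false .pp 2 0 2 (qsf 0 536870912 0 536870912 0) ndB0q2 ndB0q2 pcB0 cut_B00pm_202_s3 Ext.none)

def k0_B00pm_202_s3 : ∃ t, chk3 f_B00pm_202_s3 t 1 1 1 = true :=
  ⟨(l 6), by decide +kernel⟩

theorem c_B00pm_202_s3 : CertF 0 536870912 0 536870912 649613803 48318383 false true false .pp 2 0 2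
    ndB0q2 ndB0q2 pcB0 cut_B00pm_202_s3 Ext.none :=
  certF0 (fam := false) (s1 := true) (s2 := false) (a := 2) (b := 0) (c := 2) (cn := .pp) (n1 := ndB0q2) (n2 := ndB0q2) (pc := pcB0) (cut := cut_B00pm_202_s3) (xt := Ext.none) (P1 := 0) (W1 := 536870912) (P2 := 0) (W2 := 536870912) (P3 := 649613803) (W3 := 48318383)
    rfl k0_B00pm_202_s3

theorem s_B00pm_202_s3 {κ x : ℝ} (hκ : κ * h0 = ken x) (hx : ((649613803 : ℕ) : ℝ) / S ≤ x)
    (hx' : x ≤ (((649613803 : ℕ) : ℝ) + (48318383 : ℕ)) / S)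
    (H : CutB (VFD κ) PP tK tL pcB (Cut.of [[⟨0, 1, 0, 67108864⟩, ⟨1, 0, 0, 67108864⟩, ⟨2, 1, 0, 67108864⟩]]) 2 0 2 0 0 (sgb true) (sgb false) x) :
    AltB (VFD κ) PP tK tL pcB [⟨4, 0, 0, 2845415833⟩] 2 0 2 0 0 (sgb true) (sgb false) x :=
  strip_altBD (m := 2845415833) false rfl hκ (SH.κ0 hκ (SH.hx1 hx).le (SH.hx2 hx').le) (SH.hx1 hx).le (SH.hx2 hx') (covB02).cov (covB02).cov hx hx' c_B00pm_202_s3 H (noExt_B)

noncomputable def cut_B00mm_001_s1 : Cut := Cut.of [[⟨4, 0, 0, 1449551462⟩]]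

noncomputable def f_B00mm_001_s1 : ℕ → ℕ → ℕ → ℕ → Bool := onCell 0 536870912 0 536870912 649613803 48318383
    (rowF 1 false false false .up 0 0 1 (qsf 0 536870912 536870912 536870912 0) ndB0q0 ndB0q1 pcB0 cut_B00mm_001_s1 Ext.none)

def k0_B00mm_001_s1 : ∃ t, chk3 f_B00mm_001_s1 t 1 1 1 = true :=
  ⟨(l 3), by decide +kernel⟩

theorem c_B00mm_001_s1 : CertF 0 536870912 536870912 536870912 649613803 48318383 false false false .up 0 0 1
    ndB0q0 ndB0q1 pcB0 cut_B00mm_001_s1 Ext.none :=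
  certF1 (fam := false) (s1 := false) (s2 := false) (a := 0) (b := 0) (c := 1) (cn := .up) (n1 := ndB0q0) (n2 := ndB0q1) (pc := pcB0) (cut := cut_B00mm_001_s1) (xt := Ext.none) (P1 := 0) (W1 := 536870912) (P2 := 536870912) (W2 := 536870912) (P3 := 649613803) (W3 := 48318383)
    rfl (fun _ => rfl) k0_B00mm_001_s1

theorem s_B00mm_001_s1 {κ x : ℝ} (hκ : κ * h0 = ken x) (hx : ((649613803 : ℕ) : ℝ) / S ≤ x)
    (hx' : x ≤ (((649613803 : ℕ) : ℝ) + (48318383 : ℕ)) / S) :
    AltB (VFD κ) PP tK tL pcB [⟨3, 0, 0, 1449551462⟩] 0 0 1 0 0 (sgb false) (sgb false) x :=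
  strip_altBD (m := 1449551462) true rfl hκ (SH.κ0 hκ (SH.hx1 hx).le (SH.hx2 hx').le) (SH.hx1 hx).le (SH.hx2 hx') (covB00).cov (covB01).cov hx hx' c_B00mm_001_s1 cutB_nil (noExt_B)

noncomputable def cut_B00mm_001_s3 : Cut := Cut.of [[⟨3, 0, 0, 2845415833⟩]]

noncomputable def f_B00mm_001_s3 : ℕ → ℕ → ℕ → ℕ → Bool := onCell 0 536870912 536870912 536870912 649613803 48318383
    (rowF 0 false false false .up 0 0 1 (qsf 0 536870912 536870912 536870912 0) ndB0q0 ndB0q1 pcB0 cut_B00mm_001_s3 Ext.none)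

def k0_B00mm_001_s3 : ∃ t, chk3 f_B00mm_001_s3 t 1 1 1 = true :=
  ⟨(l 6), by decide +kernel⟩

theorem c_B00mm_001_s3 : CertF 0 536870912 536870912 536870912 649613803 48318383 false false false .up 0 0 1
    ndB0q0 ndB0q1 pcB0 cut_B00mm_001_s3 Ext.none :=
  certF0 (fam := false) (s1 := false) (s2 := false) (a := 0) (b := 0) (c := 1) (cn := .up) (n1 := ndB0q0) (n2 := ndB0q1) (pc := pcB0) (cut := cut_B00mm_001_s3) (xt := Ext.none) (P1 := 0) (W1 := 536870912) (P2 := 536870912) (W2 := 536870912) (P3 := 649613803) (W3 := 48318383)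
    rfl k0_B00mm_001_s3

theorem s_B00mm_001_s3 {κ x : ℝ} (hκ : κ * h0 = ken x) (hx : ((649613803 : ℕ) : ℝ) / S ≤ x)
    (hx' : x ≤ (((649613803 : ℕ) : ℝ) + (48318383 : ℕ)) / S) :
    AltB (VFD κ) PP tK tL pcB [⟨4, 0, 0, 2845415833⟩] 0 0 1 0 0 (sgb false) (sgb false) x :=
  strip_altBD (m := 2845415833) false rfl hκ (SH.κ0 hκ (SH.hx1 hx).le (SH.hx2 hx').le) (SH.hx1 hx).le (SH.hx2 hx') (covB00).cov (covB01).cov hx hx' c_B00mm_001_s3 cutB_nil (noExt_B)

noncomputable def cut_B00mm_011_s1 : Cut := Cut.of [[⟨4, 0, 0, 1449551462⟩]]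

noncomputable def f_B00mm_011_s1 : ℕ → ℕ → ℕ → ℕ → Bool := onCell 0 536870912 536870912 536870912 649613803 48318383
    (rowF 1 false false false .pnn 0 1 1 (qsf 0 536870912 536870912 536870912 1) ndB0q0 ndB0q1 pcB1 cut_B00mm_011_s1 Ext.none)

def k0_B00mm_011_s1 : ∃ t, chk3 f_B00mm_011_s1 t 1 1 1 = true :=
  ⟨(l 5), by decide +kernel⟩

theorem c_B00mm_011_s1 : CertF 0 536870912 536870912 536870912 649613803 48318383 false false false .pnn 0 1 1
    ndB0q0 ndB0q1 pcB1 cut_B00mm_011_s1 Ext.none :=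
  certF1 (fam := false) (s1 := false) (s2 := false) (a := 0) (b := 1) (c := 1) (cn := .pnn) (n1 := ndB0q0) (n2 := ndB0q1) (pc := pcB1) (cut := cut_B00mm_011_s1) (xt := Ext.none) (P1 := 0) (W1 := 536870912) (P2 := 536870912) (W2 := 536870912) (P3 := 649613803) (W3 := 48318383)
    rfl (fun _ => rfl) k0_B00mm_011_s1

theorem s_B00mm_011_s1 {κ x : ℝ} (hκ : κ * h0 = ken x) (hx : ((649613803 : ℕ) : ℝ) / S ≤ x)
    (hx' : x ≤ (((649613803 : ℕ) : ℝ) + (48318383 : ℕ)) / S) :
    AltB (VFD κ) PP tK tL pcB [⟨3, 0, 0, 1449551462⟩] 0 1 1 0 0 (sgb false) (sgb false) x :=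
  strip_altBD (m := 1449551462) true rfl hκ (SH.κ0 hκ (SH.hx1 hx).le (SH.hx2 hx').le) (SH.hx1 hx).le (SH.hx2 hx') (covB00).cov (covB01).cov hx hx' c_B00mm_011_s1 cutB_nil (noExt_B)

noncomputable def cut_B00mm_011_s3 : Cut := Cut.of [[⟨3, 0, 0, 2845415833⟩]]

noncomputable def f_B00mm_011_s3 : ℕ → ℕ → ℕ → ℕ → Bool := onCell 0 536870912 536870912 536870912 649613803 48318383
    (rowF 0 false false false .pnn 0 1 1 (qsf 0 536870912 536870912 536870912 1) ndB0q0 ndB0q1 pcB1 cut_B00mm_011_s3 Ext.none)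

def k0_B00mm_011_s3 : ∃ t, chk3 f_B00mm_011_s3 t 1 1 1 = true :=
  ⟨(l 6), by decide +kernel⟩

theorem c_B00mm_011_s3 : CertF 0 536870912 536870912 536870912 649613803 48318383 false false false .pnn 0 1 1
    ndB0q0 ndB0q1 pcB1 cut_B00mm_011_s3 Ext.none :=
  certF0 (fam := false) (s1 := false) (s2 := false) (a := 0) (b := 1) (c := 1) (cn := .pnn) (n1 := ndB0q0) (n2 := ndB0q1) (pc := pcB1) (cut := cut_B00mm_011_s3) (xt := Ext.none) (P1 := 0) (W1 := 536870912) (P2 := 536870912) (W2 := 536870912) (P3 := 649613803) (W3 := 48318383)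
    rfl k0_B00mm_011_s3

theorem s_B00mm_011_s3 {κ x : ℝ} (hκ : κ * h0 = ken x) (hx : ((649613803 : ℕ) : ℝ) / S ≤ x)
    (hx' : x ≤ (((649613803 : ℕ) : ℝ) + (48318383 : ℕ)) / S) :
    AltB (VFD κ) PP tK tL pcB [⟨4, 0, 0, 2845415833⟩] 0 1 1 0 0 (sgb false) (sgb false) x :=
  strip_altBD (m := 2845415833) false rfl hκ (SH.κ0 hκ (SH.hx1 hx).le (SH.hx2 hx').le) (SH.hx1 hx).le (SH.hx2 hx') (covB00).cov (covB01).cov hx hx' c_B00mm_011_s3 cutB_nil (noExt_B)

noncomputable def cut_B00mm_012_s1 : Cut := Cut.of [[⟨4, 0, 0, 1449551462⟩]]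

noncomputable def f_B00mm_012_s1 : ℕ → ℕ → ℕ → ℕ → Bool := onCell 0 536870912 0 536870912 649613803 48318383
    (rowF 0 false false false .pnp 0 1 2 (qsf 0 536870912 0 536870912 1) ndB0q0 ndB0q2 pcB1 cut_B00mm_012_s1 Ext.none)

def k0_B00mm_012_s1 : ∃ t, chk3 f_B00mm_012_s1 t 1 1 1 = true :=
  ⟨(l 5), by decide +kernel⟩

theorem c_B00mm_012_s1 : CertF 0 536870912 0 536870912 649613803 48318383 false false false .pnp 0 1 2
    ndB0q0 ndB0q2 pcB1 cut_B00mm_012_s1 Ext.none :=
  certF0 (fam := false) (s1 := false) (s2 := false) (a := 0) (b := 1) (c := 2) (cn := .pnp) (n1 := ndB0q0) (n2 := ndB0q2) (pc := pcB1) (cut := cut_B00mm_012_s1) (xt := Ext.none) (P1 := 0) (W1 := 536870912) (P2 := 0) (W2 := 536870912) (P3 := 649613803) (W3 := 48318383)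
    rfl k0_B00mm_012_s1

theorem s_B00mm_012_s1 {κ x : ℝ} (hκ : κ * h0 = ken x) (hx : ((649613803 : ℕ) : ℝ) / S ≤ x)
    (hx' : x ≤ (((649613803 : ℕ) : ℝ) + (48318383 : ℕ)) / S) :
    AltB (VFD κ) PP tK tL pcB [⟨3, 0, 0, 1449551462⟩] 0 1 2 0 0 (sgb false) (sgb false) x :=
  strip_altBD (m := 1449551462) true rfl hκ (SH.κ0 hκ (SH.hx1 hx).le (SH.hx2 hx').le) (SH.hx1 hx).le (SH.hx2 hx') (covB00).cov (covB02).cov hx hx' c_B00mm_012_s1 cutB_nil (noExt_B)

noncomputable def cut_B00mm_012_s3 : Cut := Cut.of [[⟨3, 0, 0, 2845415833⟩]]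

noncomputable def f_B00mm_012_s3 : ℕ → ℕ → ℕ → ℕ → Bool := onCell 0 536870912 0 536870912 649613803 48318383
    (rowF 0 false false false .pnp 0 1 2 (qsf 0 536870912 0 536870912 1) ndB0q0 ndB0q2 pcB1 cut_B00mm_012_s3 Ext.none)

def k0_B00mm_012_s3 : ∃ t, chk3 f_B00mm_012_s3 t 1 1 1 = true :=
  ⟨(l 5), by decide +kernel⟩

theorem c_B00mm_012_s3 : CertF 0 536870912 0 536870912 649613803 48318383 false false false .pnp 0 1 2
    ndB0q0 ndB0q2 pcB1 cut_B00mm_012_s3 Ext.none :=
  certF0 (fam := false) (s1 := false) (s2 := false) (a := 0) (b := 1) (c := 2) (cn := .pnp) (n1 := ndB0q0) (n2 := ndB0q2) (pc := pcB1) (cut := cut_B00mm_012_s3) (xt := Ext.none) (P1 := 0) (W1 := 536870912) (P2 := 0) (W2 := 536870912) (P3 := 649613803) (W3 := 48318383)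
    rfl k0_B00mm_012_s3

theorem s_B00mm_012_s3 {κ x : ℝ} (hκ : κ * h0 = ken x) (hx : ((649613803 : ℕ) : ℝ) / S ≤ x)
    (hx' : x ≤ (((649613803 : ℕ) : ℝ) + (48318383 : ℕ)) / S) :
    AltB (VFD κ) PP tK tL pcB [⟨4, 0, 0, 2845415833⟩] 0 1 2 0 0 (sgb false) (sgb false) x :=
  strip_altBD (m := 2845415833) false rfl hκ (SH.κ0 hκ (SH.hx1 hx).le (SH.hx2 hx').le) (SH.hx1 hx).le (SH.hx2 hx') (covB00).cov (covB02).cov hx hx' c_B00mm_012_s3 cutB_nil (noExt_B)

noncomputable def cut_B00mm_022_s1 : Cut := Cut.of [[⟨4, 0, 0, 1449551462⟩]]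

noncomputable def f_B00mm_022_s1 : ℕ → ℕ → ℕ → ℕ → Bool := onCell 0 536870912 0 536870912 649613803 48318383
    (rowF 0 false false false .pp 0 2 2 (qsf 0 536870912 0 536870912 2) ndB0q0 ndB0q2 pcB2 cut_B00mm_022_s1 Ext.none)

def k0_B00mm_022_s1 : ∃ t, chk3 f_B00mm_022_s1 t 1 1 1 = true :=
  ⟨(l 5), by decide +kernel⟩

theorem c_B00mm_022_s1 : CertF 0 536870912 0 536870912 649613803 48318383 false false false .pp 0 2 2
    ndB0q0 ndB0q2 pcB2 cut_B00mm_022_s1 Ext.none :=
  certF0 (fam := false) (s1 := false) (s2 := false) (a := 0) (b := 2) (c := 2) (cn := .pp) (n1 := ndB0q0) (n2 := ndB0q2) (pc := pcB2) (cut := cut_B00mm_022_s1) (xt := Ext.none) (P1 := 0) (W1 := 536870912) (P2 := 0) (W2 := 536870912) (P3 := 649613803) (W3 := 48318383)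
    rfl k0_B00mm_022_s1

theorem s_B00mm_022_s1 {κ x : ℝ} (hκ : κ * h0 = ken x) (hx : ((649613803 : ℕ) : ℝ) / S ≤ x)
    (hx' : x ≤ (((649613803 : ℕ) : ℝ) + (48318383 : ℕ)) / S) :
    AltB (VFD κ) PP tK tL pcB [⟨3, 0, 0, 1449551462⟩] 0 2 2 0 0 (sgb false) (sgb false) x :=
  strip_altBD (m := 1449551462) true rfl hκ (SH.κ0 hκ (SH.hx1 hx).le (SH.hx2 hx').le) (SH.hx1 hx).le (SH.hx2 hx') (covB00).cov (covB02).cov hx hx' c_B00mm_022_s1 cutB_nil (noExt_B)

noncomputable def cut_B00mm_022_s3 : Cut := Cut.of [[⟨3, 0, 0, 2845415833⟩]]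

noncomputable def f_B00mm_022_s3 : ℕ → ℕ → ℕ → ℕ → Bool := onCell 0 536870912 0 536870912 649613803 48318383
    (rowF 0 false false false .pp 0 2 2 (qsf 0 536870912 0 536870912 2) ndB0q0 ndB0q2 pcB2 cut_B00mm_022_s3 Ext.none)

def k0_B00mm_022_s3 : ∃ t, chk3 f_B00mm_022_s3 t 1 1 1 = true :=
  ⟨(l 5), by decide +kernel⟩

theorem c_B00mm_022_s3 : CertF 0 536870912 0 536870912 649613803 48318383 false false false .pp 0 2 2
    ndB0q0 ndB0q2 pcB2 cut_B00mm_022_s3 Ext.none :=
  certF0 (fam := false) (s1 := false) (s2 := false) (a := 0) (b := 2) (c := 2) (cn := .pp) (n1 := ndB0q0) (n2 := ndB0q2) (pc := pcB2) (cut := cut_B00mm_022_s3) (xt := Ext.none) (P1 := 0) (W1 := 536870912) (P2 := 0) (W2 := 536870912) (P3 := 649613803) (W3 := 48318383)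
    rfl k0_B00mm_022_s3

theorem s_B00mm_022_s3 {κ x : ℝ} (hκ : κ * h0 = ken x) (hx : ((649613803 : ℕ) : ℝ) / S ≤ x)
    (hx' : x ≤ (((649613803 : ℕ) : ℝ) + (48318383 : ℕ)) / S) :
    AltB (VFD κ) PP tK tL pcB [⟨4, 0, 0, 2845415833⟩] 0 2 2 0 0 (sgb false) (sgb false) x :=
  strip_altBD (m := 2845415833) false rfl hκ (SH.κ0 hκ (SH.hx1 hx).le (SH.hx2 hx').le) (SH.hx1 hx).le (SH.hx2 hx') (covB00).cov (covB02).cov hx hx' c_B00mm_022_s3 cutB_nil (noExt_B)

noncomputable def cut_B00mm_101_s1 : Cut := Cut.of [[⟨4, 0, 0, 1449551462⟩]]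

noncomputable def f_B00mm_101_s1 : ℕ → ℕ → ℕ → ℕ → Bool := onCell 536870912 536870912 536870912 536870912 649613803 48318383
    (rowF 0 false false false .npn 1 0 1 (qsf 536870912 536870912 536870912 536870912 0) ndB0q1 ndB0q1 pcB0 cut_B00mm_101_s1 Ext.none)

def k0_B00mm_101_s1 : ∃ t, chk3 f_B00mm_101_s1 t 1 1 1 = true :=
  ⟨(l 3), by decide +kernel⟩

theorem c_B00mm_101_s1 : CertF 536870912 536870912 536870912 536870912 649613803 48318383 false false false .npn 1 0 1
    ndB0q1 ndB0q1 pcB0 cut_B00mm_101_s1 Ext.none :=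
  certF0 (fam := false) (s1 := false) (s2 := false) (a := 1) (b := 0) (c := 1) (cn := .npn) (n1 := ndB0q1) (n2 := ndB0q1) (pc := pcB0) (cut := cut_B00mm_101_s1) (xt := Ext.none) (P1 := 536870912) (W1 := 536870912) (P2 := 536870912) (W2 := 536870912) (P3 := 649613803) (W3 := 48318383)
    rfl k0_B00mm_101_s1

theorem s_B00mm_101_s1 {κ x : ℝ} (hκ : κ * h0 = ken x) (hx : ((649613803 : ℕ) : ℝ) / S ≤ x)
    (hx' : x ≤ (((649613803 : ℕ) : ℝ) + (48318383 : ℕ)) / S) :
    AltB (VFD κ) PP tK tL pcB [⟨3, 0, 0, 1449551462⟩] 1 0 1 0 0 (sgb false) (sgb false) x :=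
  strip_altBD (m := 1449551462) true rfl hκ (SH.κ0 hκ (SH.hx1 hx).le (SH.hx2 hx').le) (SH.hx1 hx).le (SH.hx2 hx') (covB01).cov (covB01).cov hx hx' c_B00mm_101_s1 cutB_nil (noExt_B)

noncomputable def cut_B00mm_101_s3 : Cut := Cut.of [[⟨3, 0, 0, 2845415833⟩]]

noncomputable def f_B00mm_101_s3 : ℕ → ℕ → ℕ → ℕ → Bool := onCell 536870912 536870912 536870912 536870912 649613803 48318383
    (rowF 0 false false false .npn 1 0 1 (qsf 536870912 536870912 536870912 536870912 0) ndB0q1 ndB0q1 pcB0 cut_B00mm_101_s3 Ext.none)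

def k0_B00mm_101_s3 : ∃ t, chk3 f_B00mm_101_s3 t 1 1 1 = true :=
  ⟨(l 3), by decide +kernel⟩

theorem c_B00mm_101_s3 : CertF 536870912 536870912 536870912 536870912 649613803 48318383 false false false .npn 1 0 1
    ndB0q1 ndB0q1 pcB0 cut_B00mm_101_s3 Ext.none :=
  certF0 (fam := false) (s1 := false) (s2 := false) (a := 1) (b := 0) (c := 1) (cn := .npn) (n1 := ndB0q1) (n2 := ndB0q1) (pc := pcB0) (cut := cut_B00mm_101_s3) (xt := Ext.none) (P1 := 536870912) (W1 := 536870912) (P2 := 536870912) (W2 := 536870912) (P3 := 649613803) (W3 := 48318383)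
    rfl k0_B00mm_101_s3

theorem s_B00mm_101_s3 {κ x : ℝ} (hκ : κ * h0 = ken x) (hx : ((649613803 : ℕ) : ℝ) / S ≤ x)
    (hx' : x ≤ (((649613803 : ℕ) : ℝ) + (48318383 : ℕ)) / S) :
    AltB (VFD κ) PP tK tL pcB [⟨4, 0, 0, 2845415833⟩] 1 0 1 0 0 (sgb false) (sgb false) x :=
  strip_altBD (m := 2845415833) false rfl hκ (SH.κ0 hκ (SH.hx1 hx).le (SH.hx2 hx').le) (SH.hx1 hx).le (SH.hx2 hx') (covB01).cov (covB01).cov hx hx' c_B00mm_101_s3 cutB_nil (noExt_B)

noncomputable def cut_B00mm_102_s1 : Cut := Cut.of [[⟨4, 0, 0, 1449551462⟩]]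

noncomputable def f_B00mm_102_s1 : ℕ → ℕ → ℕ → ℕ → Bool := onCell 536870912 536870912 0 536870912 649613803 48318383
    (rowF 0 false false false .npp 1 0 2 (qsf 536870912 536870912 0 536870912 0) ndB0q1 ndB0q2 pcB0 cut_B00mm_102_s1 Ext.none)

def k0_B00mm_102_s1 : ∃ t, chk3 f_B00mm_102_s1 t 1 1 1 = true :=
  ⟨(a (l 5) (l 3)), by decide +kernel⟩

theorem c_B00mm_102_s1 : CertF 536870912 536870912 0 536870912 649613803 48318383 false false false .npp 1 0 2
    ndB0q1 ndB0q2 pcB0 cut_B00mm_102_s1 Ext.none :=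
  certF0 (fam := false) (s1 := false) (s2 := false) (a := 1) (b := 0) (c := 2) (cn := .npp) (n1 := ndB0q1) (n2 := ndB0q2) (pc := pcB0) (cut := cut_B00mm_102_s1) (xt := Ext.none) (P1 := 536870912) (W1 := 536870912) (P2 := 0) (W2 := 536870912) (P3 := 649613803) (W3 := 48318383)
    rfl k0_B00mm_102_s1

theorem s_B00mm_102_s1 {κ x : ℝ} (hκ : κ * h0 = ken x) (hx : ((649613803 : ℕ) : ℝ) / S ≤ x)
    (hx' : x ≤ (((649613803 : ℕ) : ℝ) + (48318383 : ℕ)) / S) :
    AltB (VFD κ) PP tK tL pcB [⟨3, 0, 0, 1449551462⟩] 1 0 2 0 0 (sgb false) (sgb false) x :=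
  strip_altBD (m := 1449551462) true rfl hκ (SH.κ0 hκ (SH.hx1 hx).le (SH.hx2 hx').le) (SH.hx1 hx).le (SH.hx2 hx') (covB01).cov (covB02).cov hx hx' c_B00mm_102_s1 cutB_nil (noExt_B)

noncomputable def cut_B00mm_102_s3 : Cut := Cut.of [[⟨3, 0, 0, 2845415833⟩]]

noncomputable def f_B00mm_102_s3 : ℕ → ℕ → ℕ → ℕ → Bool := onCell 536870912 536870912 0 536870912 649613803 48318383
    (rowF 0 false false false .npp 1 0 2 (qsf 536870912 536870912 0 536870912 0) ndB0q1 ndB0q2 pcB0 cut_B00mm_102_s3 Ext.none)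

def k0_B00mm_102_s3 : ∃ t, chk3 f_B00mm_102_s3 t 1 1 1 = true :=
  ⟨(l 6), by decide +kernel⟩

theorem c_B00mm_102_s3 : CertF 536870912 536870912 0 536870912 649613803 48318383 false false false .npp 1 0 2
    ndB0q1 ndB0q2 pcB0 cut_B00mm_102_s3 Ext.none :=
  certF0 (fam := false) (s1 := false) (s2 := false) (a := 1) (b := 0) (c := 2) (cn := .npp) (n1 := ndB0q1) (n2 := ndB0q2) (pc := pcB0) (cut := cut_B00mm_102_s3) (xt := Ext.none) (P1 := 536870912) (W1 := 536870912) (P2 := 0) (W2 := 536870912) (P3 := 649613803) (W3 := 48318383)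
    rfl k0_B00mm_102_s3

theorem s_B00mm_102_s3 {κ x : ℝ} (hκ : κ * h0 = ken x) (hx : ((649613803 : ℕ) : ℝ) / S ≤ x)
    (hx' : x ≤ (((649613803 : ℕ) : ℝ) + (48318383 : ℕ)) / S) :
    AltB (VFD κ) PP tK tL pcB [⟨4, 0, 0, 2845415833⟩] 1 0 2 0 0 (sgb false) (sgb false) x :=
  strip_altBD (m := 2845415833) false rfl hκ (SH.κ0 hκ (SH.hx1 hx).le (SH.hx2 hx').le) (SH.hx1 hx).le (SH.hx2 hx') (covB01).cov (covB02).cov hx hx' c_B00mm_102_s3 cutB_nil (noExt_B)

noncomputable def cut_B00mm_112_s1 : Cut := Cut.of [[⟨4, 0, 0, 1449551462⟩]]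

noncomputable def f_B00mm_112_s1 : ℕ → ℕ → ℕ → ℕ → Bool := onCell 536870912 536870912 0 536870912 649613803 48318383
    (rowF 2 false false false .dn 1 1 2 (qsf 536870912 536870912 0 536870912 1) ndB0q1 ndB0q2 pcB1 cut_B00mm_112_s1 Ext.none)

def k0_B00mm_112_s1 : ∃ t, chk3 f_B00mm_112_s1 t 1 1 1 = true :=
  ⟨(l 5), by decide +kernel⟩

theorem c_B00mm_112_s1 : CertF 536870912 536870912 0 536870912 649613803 48318383 false false false .dn 1 1 2
    ndB0q1 ndB0q2 pcB1 cut_B00mm_112_s1 Ext.none :=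
  certF2 (fam := false) (s1 := false) (s2 := false) (a := 1) (b := 1) (c := 2) (cn := .dn) (n1 := ndB0q1) (n2 := ndB0q2) (pc := pcB1) (cut := cut_B00mm_112_s1) (xt := Ext.none) (P1 := 536870912) (W1 := 536870912) (P2 := 0) (W2 := 536870912) (P3 := 649613803) (W3 := 48318383)
    rfl (fun _ => rfl) k0_B00mm_112_s1

theorem s_B00mm_112_s1 {κ x : ℝ} (hκ : κ * h0 = ken x) (hx : ((649613803 : ℕ) : ℝ) / S ≤ x)
    (hx' : x ≤ (((649613803 : ℕ) : ℝ) + (48318383 : ℕ)) / S) :
    AltB (VFD κ) PP tK tL pcB [⟨3, 0, 0, 1449551462⟩] 1 1 2 0 0 (sgb false) (sgb false) x :=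
  strip_altBD (m := 1449551462) true rfl hκ (SH.κ0 hκ (SH.hx1 hx).le (SH.hx2 hx').le) (SH.hx1 hx).le (SH.hx2 hx') (covB01).cov (covB02).cov hx hx' c_B00mm_112_s1 cutB_nil (noExt_B)

noncomputable def cut_B00mm_112_s3 : Cut := Cut.of [[⟨3, 0, 0, 2845415833⟩]]

noncomputable def f_B00mm_112_s3 : ℕ → ℕ → ℕ → ℕ → Bool := onCell 536870912 536870912 0 536870912 649613803 48318383
    (rowF 0 false false false .dn 1 1 2 (qsf 536870912 536870912 0 536870912 1) ndB0q1 ndB0q2 pcB1 cut_B00mm_112_s3 Ext.none)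

def k0_B00mm_112_s3 : ∃ t, chk3 f_B00mm_112_s3 t 1 1 1 = true :=
  ⟨(l 6), by decide +kernel⟩

theorem c_B00mm_112_s3 : CertF 536870912 536870912 0 536870912 649613803 48318383 false false false .dn 1 1 2
    ndB0q1 ndB0q2 pcB1 cut_B00mm_112_s3 Ext.none :=
  certF0 (fam := false) (s1 := false) (s2 := false) (a := 1) (b := 1) (c := 2) (cn := .dn) (n1 := ndB0q1) (n2 := ndB0q2) (pc := pcB1) (cut := cut_B00mm_112_s3) (xt := Ext.none) (P1 := 536870912) (W1 := 536870912) (P2 := 0) (W2 := 536870912) (P3 := 649613803) (W3 := 48318383)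
    rfl k0_B00mm_112_s3

theorem s_B00mm_112_s3 {κ x : ℝ} (hκ : κ * h0 = ken x) (hx : ((649613803 : ℕ) : ℝ) / S ≤ x)
    (hx' : x ≤ (((649613803 : ℕ) : ℝ) + (48318383 : ℕ)) / S) :
    AltB (VFD κ) PP tK tL pcB [⟨4, 0, 0, 2845415833⟩] 1 1 2 0 0 (sgb false) (sgb false) x :=
  strip_altBD (m := 2845415833) false rfl hκ (SH.κ0 hκ (SH.hx1 hx).le (SH.hx2 hx').le) (SH.hx1 hx).le (SH.hx2 hx') (covB01).cov (covB02).cov hx hx' c_B00mm_112_s3 cutB_nil (noExt_B)

noncomputable def cut_B00mm_202_s1 : Cut := Cut.of [[⟨4, 0, 0, 1449551462⟩]]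

noncomputable def f_B00mm_202_s1 : ℕ → ℕ → ℕ → ℕ → Bool := onCell 0 536870912 0 536870912 649613803 48318383
    (rowF 0 false false false .pp 2 0 2 (qsf 0 536870912 0 536870912 0) ndB0q2 ndB0q2 pcB0 cut_B00mm_202_s1 Ext.none)

def k0_B00mm_202_s1 : ∃ t, chk3 f_B00mm_202_s1 t 1 1 1 = true :=
  ⟨(l 3), by decide +kernel⟩

theorem c_B00mm_202_s1 : CertF 0 536870912 0 536870912 649613803 48318383 false false false .pp 2 0 2
    ndB0q2 ndB0q2 pcB0 cut_B00mm_202_s1 Ext.none :=
  certF0 (fam := false) (s1 := false) (s2 := false) (a := 2) (b := 0) (c := 2) (cn := .pp) (n1 := ndB0q2) (n2 := ndB0q2) (pc := pcB0) (cut := cut_B00mm_202_s1) (xt := Ext.none) (P1 := 0) (W1 := 536870912) (P2 := 0) (W2 := 536870912) (P3 := 649613803) (W3 := 48318383)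
    rfl k0_B00mm_202_s1

theorem s_B00mm_202_s1 {κ x : ℝ} (hκ : κ * h0 = ken x) (hx : ((649613803 : ℕ) : ℝ) / S ≤ x)
    (hx' : x ≤ (((649613803 : ℕ) : ℝ) + (48318383 : ℕ)) / S) :
    AltB (VFD κ) PP tK tL pcB [⟨3, 0, 0, 1449551462⟩] 2 0 2 0 0 (sgb false) (sgb false) x :=
  strip_altBD (m := 1449551462) true rfl hκ (SH.κ0 hκ (SH.hx1 hx).le (SH.hx2 hx').le) (SH.hx1 hx).le (SH.hx2 hx') (covB02).cov (covB02).cov hx hx' c_B00mm_202_s1 cutB_nil (noExt_B)

noncomputable def cut_B00mm_202_s3 : Cut := Cut.of [[⟨3, 0, 0, 2845415833⟩]]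

noncomputable def f_B00mm_202_s3 : ℕ → ℕ → ℕ → ℕ → Bool := onCell 0 536870912 0 536870912 649613803 48318383
    (rowF 0 false false false .pp 2 0 2 (qsf 0 536870912 0 536870912 0) ndB0q2 ndB0q2 pcB0 cut_B00mm_202_s3 Ext.none)

def k0_B00mm_202_s3 : ∃ t, chk3 f_B00mm_202_s3 t 1 1 1 = true :=
  ⟨(l 3), by decide +kernel⟩

theorem c_B00mm_202_s3 : CertF 0 536870912 0 536870912 649613803 48318383 false false false .pp 2 0 2
    ndB0q2 ndB0q2 pcB0 cut_B00mm_202_s3 Ext.none :=
  certF0 (fam := false) (s1 := false) (s2 := false) (a := 2) (b := 0) (c := 2) (cn := .pp) (n1 := ndB0q2) (n2 := ndB0q2) (pc := pcB0) (cut := cut_B00mm_202_s3) (xt := Ext.none) (P1 := 0) (W1 := 536870912) (P2 := 0) (W2 := 536870912) (P3 := 649613803) (W3 := 48318383)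
    rfl k0_B00mm_202_s3

theorem s_B00mm_202_s3 {κ x : ℝ} (hκ : κ * h0 = ken x) (hx : ((649613803 : ℕ) : ℝ) / S ≤ x)
    (hx' : x ≤ (((649613803 : ℕ) : ℝ) + (48318383 : ℕ)) / S) :
    AltB (VFD κ) PP tK tL pcB [⟨4, 0, 0, 2845415833⟩] 2 0 2 0 0 (sgb false) (sgb false) x :=
  strip_altBD (m := 2845415833) false rfl hκ (SH.κ0 hκ (SH.hx1 hx).le (SH.hx2 hx').le) (SH.hx1 hx).le (SH.hx2 hx') (covB02).cov (covB02).cov hx hx' c_B00mm_202_s3 cutB_nil (noExt_B)

noncomputable def cut_B08pp_001_s1 : Cut := Cut.of [[⟨4, 0, 0, 1449551462⟩]]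

noncomputable def f_B08pp_001_s1 : ℕ → ℕ → ℕ → ℕ → Bool := onCell 0 536870912 0 536870912 649613803 48318383
    (rowF 1 false true true .up 0 0 1 (qsf 0 536870912 536870912 536870912 0) ndB0q0 ndB8q1 pcB0 cut_B08pp_001_s1 Ext.none)

def k0_B08pp_001_s1 : ∃ t, chk3 f_B08pp_001_s1 t 1 1 1 = true :=
  ⟨(l 3), by decide +kernel⟩

theorem c_B08pp_001_s1 : CertF 0 536870912 536870912 536870912 649613803 48318383 false true true .up 0 0 1
    ndB0q0 ndB8q1 pcB0 cut_B08pp_001_s1 Ext.none :=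
  certF1 (fam := false) (s1 := true) (s2 := true) (a := 0) (b := 0) (c := 1) (cn := .up) (n1 := ndB0q0) (n2 := ndB8q1) (pc := pcB0) (cut := cut_B08pp_001_s1) (xt := Ext.none) (P1 := 0) (W1 := 536870912) (P2 := 536870912) (W2 := 536870912) (P3 := 649613803) (W3 := 48318383)
    rfl (fun _ => rfl) k0_B08pp_001_s1

theorem s_B08pp_001_s1 {κ x : ℝ} (hκ : κ * h0 = ken x) (hx : ((649613803 : ℕ) : ℝ) / S ≤ x)
    (hx' : x ≤ (((649613803 : ℕ) : ℝ) + (48318383 : ℕ)) / S) :
    AltB (VFD κ) PP tK tL pcB [⟨3, 0, 0, 1449551462⟩] 0 0 1 0 8 (sgb true) (sgb true) x :=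
  strip_altBD (m := 1449551462) true rfl hκ (SH.κ0 hκ (SH.hx1 hx).le (SH.hx2 hx').le) (SH.hx1 hx).le (SH.hx2 hx') (covB00).cov (covB81).cov hx hx' c_B08pp_001_s1 cutB_nil (noExt_B)

noncomputable def cut_B08pp_011_s1 : Cut := Cut.of [[⟨4, 0, 0, 1449551462⟩], [⟨0, 0, 0, 67108864⟩, ⟨1, 1, 0, 67108864⟩, ⟨2, 1, 0, 67108864⟩]]

noncomputable def f_B08pp_011_s1 : ℕ → ℕ → ℕ → ℕ → Bool := onCell 0 536870912 536870912 536870912 649613803 48318383
    (rowF 1 false true true .pnn 0 1 1 (qsf 0 536870912 536870912 536870912 1) ndB0q0 ndB8q1 pcB1 cut_B08pp_011_s1 Ext.none)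

def k0_B08pp_011_s1 : ∃ t, chk3 f_B08pp_011_s1 t 1 1 1 = true :=
  ⟨(b (l 3) (a (b (l 3) (a (b (l 3) (a (b (l 3) (a (l 14) (l 3))) (l 3))) (l 3))) (l 3))), by decide +kernel⟩

theorem c_B08pp_011_s1 : CertF 0 536870912 536870912 536870912 649613803 48318383 false true true .pnn 0 1 1
    ndB0q0 ndB8q1 pcB1 cut_B08pp_011_s1 Ext.none :=
  certF1 (fam := false) (s1 := true) (s2 := true) (a := 0) (b := 1) (c := 1) (cn := .pnn) (n1 := ndB0q0) (n2 := ndB8q1) (pc := pcB1) (cut := cut_B08pp_011_s1) (xt := Ext.none) (P1 := 0) (W1 := 536870912) (P2 := 536870912) (W2 := 536870912) (P3 := 649613803) (W3 := 48318383)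
    rfl (fun _ => rfl) k0_B08pp_011_s1

theorem s_B08pp_011_s1 {κ x : ℝ} (hκ : κ * h0 = ken x) (hx : ((649613803 : ℕ) : ℝ) / S ≤ x)
    (hx' : x ≤ (((649613803 : ℕ) : ℝ) + (48318383 : ℕ)) / S)
    (H : CutB (VFD κ) PP tK tL pcB (Cut.of [[⟨0, 0, 0, 67108864⟩, ⟨1, 1, 0, 67108864⟩, ⟨2, 1, 0, 67108864⟩]]) 0 1 1 0 8 (sgb true) (sgb true) x) :
    AltB (VFD κ) PP tK tL pcB [⟨3, 0, 0, 1449551462⟩] 0 1 1 0 8 (sgb true) (sgb true) x :=
  strip_altBD (m := 1449551462) true rfl hκ (SH.κ0 hκ (SH.hx1 hx).le (SH.hx2 hx').le) (SH.hx1 hx).le (SH.hx2 hx') (covB00).cov (covB81).cov hx hx' c_B08pp_011_s1 H (noExt_B)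

noncomputable def cut_B08pp_012_s1 : Cut := Cut.of [[⟨4, 0, 0, 1449551462⟩], [⟨0, 0, 0, 67108864⟩, ⟨1, 1, 0, 67108864⟩, ⟨2, 1, 0, 67108864⟩]]

noncomputable def f_B08pp_012_s1 : ℕ → ℕ → ℕ → ℕ → Bool := onCell 0 536870912 536870912 536870912 649613803 48318383
    (rowF 1 false true true .pnp 0 1 2 (qsf 0 536870912 1073741824 536870912 1) ndB0q0 ndB8q2 pcB1 cut_B08pp_012_s1 Ext.none)

def k0_B08pp_012_s1 : ∃ t, chk3 f_B08pp_012_s1 t 1 1 1 = true :=
  ⟨(b (l 3) (a (a (a (a (b (l 1) (b (l 1) (b (l 3) (l 14)))) (l 3)) (l 3)) (l 3)) (l 3))), by decide +kernel⟩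

theorem c_B08pp_012_s1 : CertF 0 536870912 1073741824 536870912 649613803 48318383 false true true .pnp 0 1 2
    ndB0q0 ndB8q2 pcB1 cut_B08pp_012_s1 Ext.none :=
  certF1 (fam := false) (s1 := true) (s2 := true) (a := 0) (b := 1) (c := 2) (cn := .pnp) (n1 := ndB0q0) (n2 := ndB8q2) (pc := pcB1) (cut := cut_B08pp_012_s1) (xt := Ext.none) (P1 := 0) (W1 := 536870912) (P2 := 1073741824) (W2 := 536870912) (P3 := 649613803) (W3 := 48318383)
    rfl (fun _ => rfl) k0_B08pp_012_s1

theorem s_B08pp_012_s1 {κ x : ℝ} (hκ : κ * h0 = ken x) (hx : ((649613803 : ℕ) : ℝ) / S ≤ x)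
    (hx' : x ≤ (((649613803 : ℕ) : ℝ) + (48318383 : ℕ)) / S)
    (H : CutB (VFD κ) PP tK tL pcB (Cut.of [[⟨0, 0, 0, 67108864⟩, ⟨1, 1, 0, 67108864⟩, ⟨2, 1, 0, 67108864⟩]]) 0 1 2 0 8 (sgb true) (sgb true) x) :
    AltB (VFD κ) PP tK tL pcB [⟨3, 0, 0, 1449551462⟩] 0 1 2 0 8 (sgb true) (sgb true) x :=
  strip_altBD (m := 1449551462) true rfl hκ (SH.κ0 hκ (SH.hx1 hx).le (SH.hx2 hx').le) (SH.hx1 hx).le (SH.hx2 hx') (covB00).cov (covB82).cov hx hx' c_B08pp_012_s1 H (noExt_B)

noncomputable def cut_B08pp_022_s1 : Cut := Cut.of [[⟨4, 0, 0, 1449551462⟩], [⟨0, 0, 0, 53687091⟩, ⟨1, 1, 0, 53687091⟩, ⟨2, 1, 0, 53687091⟩]]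

noncomputable def xt_B08pp_022_s1 : Ext := strExt6 dd false true true .u0 .s2 .u2 .pp 0 2 2 rfl rfl gf2 vv ww ndB0q0 ndB8q2

noncomputable def f_B08pp_022_s1 : ℕ → ℕ → ℕ → ℕ → Bool := onCell 0 536870912 1073741824 536870912 649613803 48318383
    (rowF 1 false true true .pp 0 2 2 (qsf 0 536870912 1073741824 536870912 2) ndB0q0 ndB8q2 pcB2 cut_B08pp_022_s1 xt_B08pp_022_s1)

def k0_B08pp_022_s1 : ∃ t, chk3 f_B08pp_022_s1 t 16 16 1 = true :=
  ⟨(b (l 14) (a (l 14) (b (a (l 14) (b (a (l 14) (b (l 14) (b (l 14) (a (l 14) (l 16768120))))) (a (b (l 14) (l 16756040)) (b (a (l 16765560) (l 16764968)) (a (l 16758864) (l 16760752)))))) (a (b (a (l 14) (l 16745696)) (l 16745720)) (b (a (l 16749816) (l 16759008)) (l 16748688)))))), by decide +kernel⟩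

def k1_B08pp_022_s1 : ∃ t, chk3 f_B08pp_022_s1 t 17 32 1 = true :=
  ⟨(a (a (a (a (l 14) (l 3)) (l 3)) (l 3)) (l 3)), by decide +kernel⟩

def k2_B08pp_022_s1 : ∃ t, chk3 f_B08pp_022_s1 t 34 33 1 = true :=
  ⟨(b (a (b (a (b (a (a (l 14) (l 1048482431)) (l 1048475263)) (b (b (a (a (l 16772248) (b (l 16773480) (l 16772968))) (l 1048562815)) (a (a (l 16771192) (l 16772200)) (a (a (l 16772928) (l 16773432)) (l 1048607871)))) (a (b (l 16770648) (l 16769600)) (a (b (l 16772152) (l 16771096)) (b (b (l 16773392) (l 16772864)) (l 16772104)))))) (b (l 1048451711) (a (a (b (l 1048589951) (b (l 1048647807) (l 16773072))) (l 1048626303)) (l 1048621695)))) (b (a (b (a (l 16768024) (a (l 16769528) (l 16770520))) (l 16769544)) (b (a (a (b (l 16772056) (l 16771000)) (b (l 16773016) (l 16772000))) (a (b (l 16774008) (l 16772968)) (l 1048755327))) (a (l 16769928) (a (b (l 16771952) (l 16770896)) (b (l 16772912) (l 16771888)))))) (a (l 16766392) (a (l 16769400) (b (l 16769824)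 (l 16767720)))))) (a (b (b (l 3) (l 1048604799)) (b (a (a (b (l 1048756863) (b (l 16773896) (l 16772864))) (l 1048801919)) (l 1048799359)) (a (b (a (b (l 16771824) (l 16770792)) (b (l 16772800) (l 16771752))) (l 16769720)) (a (b (b (l 16773768) (l 16772728)) (b (l 16771680) (l 16770648))) (b (l 1048780415) (b (l 16772648) (l 16771608))))))) (b (l 3) (l 1049840767)))) (a (b (a (b (a (l 16758576) (l 16760528)) (l 16755496)) (b (l 16766184) (a (l 16758304) (l 16760336)))) (b (a (l 16751424) (l 16755192)) (l 16749264))) (b (b (a (a (l 16769184) (b (l 16769576) (l 16767504))) (a (b (b (a (l 16771528) (l 16772496)) (l 16770968)) (l 16769416)) (b (l 1048668287) (b (a (l 16771368) (l 16772336)) (l 16770800))))) (a (l 16765960) (b (c (l 16770928) (l 16770920)) (l 16766256)))) (b (a (l 16759104) (l 16765736)) (a (l 16754880) (l 16758872)))))), by decide +kernel⟩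

def k3_B08pp_022_s1 : ∃ t, chk3 f_B08pp_022_s1 t 35 33 1 = true :=
  ⟨(b (a (a (b (l 3) (l 1048738431)) (l 3)) (l 3)) (a (b (a (b (l 1048615039) (b (a (a (l 16770680) (a (l 16771408) (l 16771888))) (l 1048549503)) (a (l 16769072) (a (l 16773120) (b (l 16772000) (l 16770936)))))) (l 1048548479)) (b (a (b (c (l 16770584) (l 16770560)) (l 16765896)) (a (b (a (l 16772936) (l 16773912)) (l 16768696)) (b (l 1048426623) (a (l 16772752) (l 16773720))))) (a (l 16765424) (b (l 16770184) (l 16765504))))) (b (b (l 3) (l 1048432767)) (a (b (l 1048380031) (a (b (b (l 16773568) (l 16772496)) (b (l 16768816) (l 16767784))) (b (l 1048303743) (b (a (l 16772872) (l 16771224)) (l 16772288))))) (l 1048311423))))), by decide +kernel⟩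

def k4_B08pp_022_s1 : ∃ t, chk3 f_B08pp_022_s1 t 8 17 1 = true :=
  ⟨(a (a (b (a (b (l 14) (l 16688688)) (b (l 16724640) (l 16697560))) (a (l 16684960) (l 16693736))) (b (b (a (b (l 16726896) (l 16718616)) (b (l 16735112) (l 16726864))) (a (l 16706176) (l 16714464))) (b (c (l 16714672) (l 16714648)) (l 16677080)))) (b (a (b (a (b (l 16748368) (l 16734840)) (b (b (a (l 16750768) (l 16754536)) (l 16753776)) (l 16747536))) (a (l 16732872) (c (l 16740488) (l 16740336)))) (b (b (a (a (a (l 16760584) (l 16757360)) (b (l 16762456) (l 16758144))) (b (a (a (l 16765256) (a (l 16766648) (l 16770192))) (a (b (a (l 16772168) (l 16773128)) (l 16767960)) (b (l 1048303743) (c (l 16772512) (l 16772456))))) (a (l 16762088) (b (l 16769472) (l 16764816))))) (a (a (l 16753128) (b (l 16753800) (l 16749496))) (a (a (l 16754576) (l 16761776)) (b (l 16761632) (l 16757296))))) (a (b (l 16746744) (l 16733232)) (b (a (l 16752256) (l 16756056)) (l 16745888))))) (a (b (a (l 16705752)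 (l 16713392)) (c (l 16713880) (l 16713912))) (a (b (l 16720888) (l 16704176)) (b (l 16738728) (l 16711552)))))), by decide +kernel⟩

def k5_B08pp_022_s1 : ∃ t, chk3 f_B08pp_022_s1 t 9 16 1 = true :=
  ⟨(a (b (l 3) (b (l 3) (a (b (l 3) (a (b (l 3) (l 1048228991)) (l 3))) (l 3)))) (l 3)), by decide +kernel⟩

def k6_B08pp_022_s1 : ∃ t, chk3 f_B08pp_022_s1 t 18 34 1 = true :=
  ⟨(a (b (b (a (b (l 1048327295) (a (a (b (a (l 16769200) (l 16770160)) (l 16767600)) (b (l 1048536703) (b (l 16770016) (l 16768968)))) (l 1048575615))) (l 1048450175)) (a (b (a (b (a (l 16765552) (l 16767408)) (l 16764424)) (a (b (b (l 16769824) (l 16768776)) (l 16767208)) (b (l 1048709759) (b (l 16769616) (l 16768568))))) (a (l 16761160) (b (a (l 16765136) (l 16767000)) (l 16763920)))) (b (l 1048695423) (a (a (b (c (l 16768880) (l 16768880)) (l 16766776)) (b (l 1048821887) (a (l 16768176) (l 16769112)))) (l 1048822399))))) (b (a (a (l 16759928) (b (l 16760664) (l 16756360))) (b (a (c (c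 (l 16767168) (l 16767144)) (l 16767104)) (a (b (c (l 16768400) (l 16768368)) (l 16766264)) (b (l 1048887423) (a (l 16767656) (l 16768576))))) (a (l 16765400) (b (l 16767664) (l 16762864))))) (a (b (l 16750176) (l 16751120)) (b (c (l 16763048) (l 16762936)) (l 16758712))))) (b (b (l 3) (a (b (l 1048661119) (l 1048761983)) (l 3))) (b (a (a (a (b (l 1048864895) (b (c (l 16767856) (l 16767800)) (l 16765704))) (b (l 1048863871) (b (l 1048779903) (a (l 16767096) (l 16768016))))) (l 1048796799)) (l 1048775295)) (a (a (b (b (l 16767112) (l 16762320)) (l 16759104)) (a (b (b (c (l 16767304) (l 16767232)) (l 16765136)) (l 16761904)) (b (b (l 16769144) (l 16766984)) (l 16763784)))) (b (l 1048682623) (b (a (a (l 16766696) (l 16768552)) (l 1048692863)) (a (c (l 16768160) (l 16768080)) (a (l 16768256) (l 1048707199))))))))), by decide +kernel⟩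

def k7_B08pp_022_s1 : ∃ t, chk3 f_B08pp_022_s1 t 18 35 1 = true :=
  ⟨(b (a (a (b (l 16744936) (l 16731400)) (b (c (l 16752344) (l 16752184)) (l 16743904))) (a (b (b (l 16761936) (l 16752432)) (l 16756528)) (b (a (b (a (l 16761344) (l 16763200)) (l 16758000)) (b (b (a (l 16766112) (l 16767952)) (l 16767544)) (l 16761688))) (b (l 16760824) (l 16751320))))) (a (b (l 16737280) (l 16718064)) (a (b (l 16737560) (l 16728800)) (b (l 16755416) (l 16735904))))), by decide +kernel⟩

def k8_B08pp_022_s1 : ∃ t, chk3 f_B08pp_022_s1 t 19 17 1 = true :=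
  ⟨(b (b (l 3) (a (b (l 3) (l 1050756735)) (l 3))) (b (a (b (a (b (a (a (b (l 16772416) (l 16767640)) (l 1048737919)) (l 1048728191)) (a (a (l 16767096) (a (l 16768440) (l 16769328))) (a (c (l 16770736) (l 16770664)) (l 1048813695)))) (l 1048739967)) (a (a (l 16764200) (b (b (l 16768424) (l 16763656)) (l 16760432))) (a (b (b (l 16772040) (l 16769888)) (b (l 16767736) (l 16762960))) (b (l 1048806015) (a (a (l 16766280) (l 16767184)) (l 1048836735)))))) (b (l 1048618623) (l 1048701055))) (a (b (b (a (l 16754328) (a (l 16759728) (l 16768560))) (a (l 16750032) (l 16762448))) (a (l 16743272) (l 16761064))) (b (a (b (b (l 1048824447) (a (c (l 16771088) (l 16771040)) (l 16772008))) (a (b (l 16768904) (l 16761496)) (a (b (l 16766336) (l 16764176)) (l 16769656)))) (l 1048823935)) (a (b (a (l 16758224) (b (l 16768128) (l 16760688))) (l 16755512)) (a (b (b (c (l 16766472) (l 16766400)) (c (l 16769512) (l 16769456))) (l 16766176)) (b (l 1048842367) (b (l 16770808) (l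 16768592))))))))), by decide +kernel⟩

def k9_B08pp_022_s1 : ∃ t, chk3 f_B08pp_022_s1 t 5 8 1 = true :=
  ⟨(a (b (l 3) (b (l 3) (a (b (l 3) (a (b (b (l 1048693375) (l 1048776319)) (l 1048680063)) (l 3))) (l 3)))) (l 3)), by decide +kernel⟩

def k10_B08pp_022_s1 : ∃ t, chk3 f_B08pp_022_s1 t 4 9 1 = true :=
  ⟨(b (a (a (a (b (l 16657168) (l 16604112)) (b (l 16673816) (l 16640376))) (b (a (b (l 16675856) (l 16658760)) (b (l 16700672) (l 16672648))) (a (l 16654112) (b (l 16655312) (l 16637952))))) (b (a (a (b (l 16715072) (l 16686816)) (b (b (l 16733784) (l 16714216)) (l 16721784))) (b (a (b (a (l 16733840) (l 16741216)) (a (l 16724696) (l 16731736))) (a (b (l 16759000) (l 16739112)) (b (b (a (l 16756288) (l 16765160)) (l 16753432)) (l 16756888)))) (a (a (l 16711144) (l 16728576)) (a (b (l 16750560) (l 16741328)) (b (l 16736960) (l 16748368)))))) (a (a (b (l 16669120) (l 16651256)) (b (l 16683024) (l 16664936))) (b (a (l 16717648) (b (a (l 16711296) (l 16739080))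 (l 16705600))) (a (l 16678560) (l 16691936)))))) (a (a (b (a (l 16571608) (l 16585456)) (a (l 16537648) (l 16551416))) (b (a (l 16598976) (l 16633104)) (a (l 16564816) (l 16577824)))) (b (a (a (b (l 16633656) (l 16616400)) (b (l 16646920) (l 16629024))) (b (a (l 16660416) (l 16673760)) (b (l 16653440) (l 16644264)))) (a (b (l 16626336) (l 16609120)) (b (a (l 16624008) (l 16636952)) (a (l 16606280) (l 16618520))))))), by decide +kernel⟩

def k11_B08pp_022_s1 : ∃ t, chk3 f_B08pp_022_s1 t 10 36 1 = true :=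
  ⟨(a (b (a (b (a (a (b (a (l 16767824) (l 16769568)) (l 16758864)) (b (l 1048518271) (b (l 16768800) (l 16761304)))) (a (a (b (l 1048493183) (l 16765088)) (l 1048366207)) (l 1048334975))) (a (c (l 16764248) (l 16764000)) (a (b (c (l 16766720) (l 16766528)) (l 16756728)) (a (b (l 16764024) (l 16759456)) (b (l 16765832) (l 16761224)))))) (b (l 1048199807) (a (b (l 1048042111) (a (a (l 16768208) (l 16764768)) (l 1047958655))) (l 1047899775)))) (a (b (a (l 16754728) (l 16761984)) (b (l 16751264) (l 16746504))) (b (a (b (a (l 16764536) (a (l 16767152) (l 16768928))) (a (l 16754568) (l 16763456))) (a (b (l 1047903871) (a (l 16760848) (l 16767832))) (l 1047868543))) (a (l 16759776) (b (a (l 16757104) (l 16765872)) (l 16764648)))))) (b (a (b (l 3) (l 1047706751)) (l 3)) (a (b (l 1047688831) (a (a (b (l 16769384) (l 16764792)) (b (l 1047885951) (l 16768240))) (l 1047849599))) (b (l 3) (l 1047593599))))), by decide +kernel⟩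

def k12_B08pp_022_s1 : ∃ t, chk3 f_B08pp_022_s1 t 10 37 1 = true :=
  ⟨(a (b (a (a (b (l 16746112) (l 16736640)) (b (l 16742976) (l 16743592))) (b (b (l 16756272) (l 16751488)) (a (l 16750824) (l 16737024)))) (a (b (l 16736032) (l 16700576)) (a (b (l 16740904) (l 16731400)) (a (l 16741248) (l 16744712))))) (b (a (b (a (a (l 16757688) (b (l 16763680) (l 16753672))) (a (b (a (l 16766256) (l 16762752)) (l 16762528)) (b (l 16770528) (b (l 16761880) (l 16764848))))) (a (l 16754656) (b (c (l 16764528) (l 16764400)) (l 16748704)))) (b (l 1048027263) (a (b (a (b (l 16765776) (l 16758000)) (l 16767880)) (a (l 16754040) (b (l 16758856) (l 16756296)))) (b (l 1047852671) (a (c (l 16766272) (l 16766136)) (l 16769656)))))) (b (a (a (l 16733968) (l 16751464)) (a (l 16758464) (b (a (l 16761128) (b (l 16760608) (l 16758024))) (c (l 16757784) (l 16757536))))) (a (c (l 16748632) (l 16748264)) (a (l 16748264) (l 16755144)))))), by decide +kernel⟩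

def k13_B08pp_022_s1 : ∃ t, chk3 f_B08pp_022_s1 t 11 18 1 = true :=
  ⟨(b (l 3) (a (b (a (b (l 1047777407) (l 1047410303)) (a (l 3) (l 3))) (a (b (a (b (l 1046868607) (a (a (l 16756752) (l 16763696)) (l 16766296))) (l 1046554239)) (a (a (l 16760312) (b (a (l 16755048) (l 16756752)) (l 16750712))) (b (a (c (l 16764664) (l 16764432)) (l 16768048)) (a (b (l 16755464) (l 16752864)) (b (l 16758896) (l 16756296)))))) (a (b (l 1046365311) (l 1045994623)) (b (l 1046164095) (l 1045786239))))) (b (l 3) (b (l 3) (c (l 1046907519) (l 1046643327)))))), by decide +kernel⟩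

def k14_B08pp_022_s1 : ∃ t, chk3 f_B08pp_022_s1 t 10 19 1 = true :=
  ⟨(b (a (b (a (l 16728816) (b (l 16725456) (l 16695224))) (a (l 16668512) (l 16702312))) (b (a (b (a (l 16735256) (l 16721048)) (a (l 16704872) (l 16711352))) (b (c (l 16741800) (l 16741544)) (l 16731800))) (a (b (l 16719728) (l 16689368)) (b (a (l 16708304) (l 16714784)) (a (l 16698816) (l 16705120)))))) (a (a (b (l 16649920) (l 16631096)) (b (l 16662648) (l 16643672))) (a (b (l 16696160) (l 16697976)) (a (b (l 16684528) (l 16665216)) (b (l 16711720) (l 16671344)))))), by decide +kernel⟩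

def k15_B08pp_022_s1 : ∃ t, chk3 f_B08pp_022_s1 t 11 19 1 = true :=
  ⟨(b (a (b (a (a (b (l 16751824) (l 16731312)) (b (b (l 16755976) (l 16745592)) (l 16748488))) (b (a (b (a (b (l 16757120) (l 16754560)) (l 16764504)) (a (l 16750680) (b (l 16755368) (l 16752800)))) (b (l 1045696639) (a (b (l 16758784) (l 16756168)) (l 16766136)))) (a (c (l 16755264) (l 16755104)) (b (a (l 16752336) (b (l 16756960) (l 16754392))) (l 16759336))))) (a (b (b (l 16737600) (l 16743048)) (l 16735624)) (a (b (l 16744896) (l 16724224)) (b (l 16751456) (l 16741088))))) (b (b (l 1045614719) (a (a (b (a (l 16764312) (l 16767696)) (a (b (l 16755160) (l 16752592)) (b (l 16758520) (l 16761152)))) (l 1045430911)) (l 1045027967))) (a (b (a (b (a (l 16748584) (l 16757168)) (l 16744880)) (b (a (b (l 16761816) (l 16753864)) (l 16763784)) (a (l 16749792) (b (l 16754440) (l 16751736))))) (a (l 16747488) (l 16753912))) (b (b (l 1045013119) (a (a (b (l 16757768) (l 16755008)) (l 16764968)) (l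 1044934271))) (a (b (a (l 16750968) (b (l 16755576) (l 16752856))) (l 16757688)) (b (a (l 16762768) (l 16766120)) (a (b (l 16753400) (l 16750688)) (b (l 16756712) (l 16753944))))))))) (a (b (a (c (b (l 16715216) (l 16694920)) (b (l 16726200) (l 16695920))) (b (c (l 16727720) (l 16717696)) (c (l 16717928) (l 16729504)))) (a (c (l 16701128) (l 16681920)) (b (a (l 16695776) (l 16702288)) (l 16689800)))) (b (a (a (b (l 16747760) (l 16717472)) (b (l 16743624) (l 16723744))) (a (b (l 16749976) (l 16730016)) (b (b (l 16753600) (l 16743376)) (l 16746720)))) (a (b (a (l 16708696) (l 16714904)) (a (l 16699888) (l 16706464))) (b (a (l 16721128) (l 16727296)) (l 16742048)))))), by decide +kernel⟩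

def k16_B08pp_022_s1 : ∃ t, chk3 f_B08pp_022_s1 t 4 5 1 = true :=
  ⟨(b (b (b (a (a (a (l 16503264) (l 16517048)) (a (l 16530400) (l 16627240))) (a (b (l 16612832) (l 16553512)) (b (a (l 16588952) (l 16600520)) (l 16619224)))) (a (a (b (l 16483928) (b (l 16470024) (b (a (l 16454960) (l 16469032)) (b (b (b (l 16458424) (b (l 16457448) (a (l 16449264) (l 16463464)))) (l 16455592)) (l 16454040))))) (b (l 16510744) (b (l 16497024) (b (l 16489232) (b (b (a (a (l 16579224) (l 16575464)) (a (l 16582088) (l 16578136))) (l 16483048)) (l 16481480)))))) (a (b (l 16577904) (b (l 16522376) (b (l 16514768) (b (b (b (l 16511416) (b (l 16510560) (l 16509640))) (l 16508848)) (l 16507232))))) (b (l 16601608) (b (l 16546128) (b (l 16538648) (b (b (b (l 16535416) (l 16554920)) (l 16532992)) (l 16531320)))))))) (a (a (a (l 16497352) (a (l 16423928) (l 16430720))) (b (a (l 16457168) (l 16470200)) (b (l 16438808) (l 16422264)))) (a (b (l 16488952) (l 16454600)) (b (l 16512336)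 (l 16476376))))) (a (b (a (b (l 16372392) (l 16340688)) (l 16381024)) (a (l 16293520) (l 16314976))) (a (b (l 16444752) (l 16332536)) (b (l 16505424) (b (l 16365008) (l 16329168)))))), by decide +kernel⟩

def k17_B08pp_022_s1 : ∃ t, chk3 f_B08pp_022_s1 t 5 10 1 = true :=
  ⟨(b (b (a (a (a (b (l 16612264) (l 16594016)) (b (l 16624312) (c (l 16604552) (l 16605968)))) (a (b (l 16636464) (l 16658424)) (b (l 16690464) (l 16628216)))) (a (b (c (a (l 16702368) (l 16695368)) (a (l 16662936) (l 16676312))) (a (l 16641856) (l 16655984))) (b (a (b (l 16694112) (l 16684720)) (b (a (l 16725304) (l 16731776)) (a (l 16695264) (l 16723136)))) (a (a (l 16666768) (l 16673992)) (b (l 16731552) (l 16722008)))))) (a (a (b (a (l 16576216) (l 16628648)) (b (l 16567848) (b (l 16560424) (a (b (l 16592296) (l 16547968)) (l 16612088))))) (b (b (c (l 16648352) (l 16608672)) (c (l 16617768) (l 16599024))) (b (l 16630488) (b (l 16623384) (b (b (b (l 16578136) (b (l 16577208) (l 16576136)))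 (l 16575344)) (l 16573488)))))) (a (b (a (b (l 16626256) (l 16615624)) (b (l 16640816) (l 16630448))) (b (a (l 16616136) (b (l 16621520) (l 16615744))) (b (a (l 16598976) (l 16610832)) (b (b (b (l 16601952) (a (l 16593936) (a (l 16603064) (l 16609104)))) (l 16599232)) (l 16597504))))) (b (a (b (l 16655656) (l 16645784)) (b (c (l 16711304) (l 16671352)) (c (l 16702104) (l 16661888)))) (b (a (b (l 16720976) (l 16630144)) (b (l 16652824) (l 16687960))) (b (b (a (l 16624592) (l 16639680)) (a (l 16621584) (c (l 16676256) (l 16676792)))) (b (b (b (l 16667672) (b (l 16625024) (a (l 16618112) (l 16629704)))) (l 16623312)) (l 16621576)))))))) (a (a (b (l 16533312) (l 16495232)) (b (l 16637688) (l 16600904))) (a (b (a (l 16571856) (l 16584096)) (a (l 16535296) (l 16547368))) (a (b (l 16596056) (l 16559096)) (b (b (l 16616896) (l 16682264)) (l 16578944)))))), by decide +kernel⟩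

def k18_B08pp_022_s1 : ∃ t, chk3 f_B08pp_022_s1 t 5 11 1 = true :=
  ⟨(a (b (a (b (l 16457632) (l 16421520)) (b (l 16480640) (l 16444768))) (a (b (l 16385912) (l 16350904)) (a (a (l 16382200) (l 16389120)) (a (l 16407600) (l 16406128))))) (c (b (a (b (a (l 16434416) (l 16509424)) (a (l 16460936) (l 16562064))) (a (b (b (l 16532504) (l 16517880)) (l 16498800)) (a (l 16610664) (l 16621024)))) (a (a (l 16524496) (l 16526096)) (a (l 16549952) (l 16573600)))) (b (b (a (a (l 16499968) (l 16596032)) (a (l 16611624) (l 16546144))) (a (a (l 16464864) (l 16481432)) (l 16595144))) (a (a (l 16423360) (l 16528512)) (a (l 16551056) (l 16573832)))))), by decide +kernel⟩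

def k19_B08pp_022_s1 : ∃ t, chk3 f_B08pp_022_s1 t 2 3 1 = true :=
  ⟨(b (a (a (b (a (b (l 16230680) (l 16165616)) (b (l 16247760) (l 16178912))) (l 6)) (b (b (a (l 16385328) (a (l 16273136) (l 16283936))) (a (l 16285792) (b (l 16239656) (l 16390288)))) (b (b (a (l 16169120) (l 16209584)) (l 6)) (l 6)))) (b (a (b (a (c (b (l 16312664) (l 16412832)) (b (l 16320200) (l 16377720))) (c (b (l 16434256) (l 16418160)) (b (l 16439392) (l 16336936)))) (a (a (l 16344280) (l 16285400)) (a (l 16311168) (l 16337464)))) (b (a (b (a (l 16389720) (l 16414928)) (a (l 16375000) (l 16401528))) (b (a (l 16440400) (l 16466136)) (l 16441912))) (a (b (l 16381344) (l 16374752)) (b (l 16435920) (l 2))))) (b (a (a (b (l 16259960) (l 6)) (b (l 16313208) (l 16306000))) (a (l 16446136) (l 2))) (l 6)))) (l 6)), by decide +kernel⟩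

def k20_B08pp_022_s1 : ∃ t, chk3 f_B08pp_022_s1 t 3 8 1 = true :=
  ⟨(l 3), by decide +kernel⟩

def k21_B08pp_022_s1 : ∃ t, chk3 f_B08pp_022_s1 t 12 9 1 = true :=
  ⟨(b (l 3) (b (a (b (a (b (l 3) (a (l 1044651647) (l 3))) (l 3)) (b (a (a (b (l 1044878975) (l 1044866175)) (b (l 3) (a (l 1044888703) (c (l 1044964479) (l 1044848255))))) (l 3)) (a (a (b (b (l 1044879487) (l 1044894847)) (l 1044927615)) (b (a (l 1044913279) (l 1044936831)) (a (l 1044957823) (l 1044983935)))) (l 1045042815)))) (l 3)) (a (b (a (b (a (b (a (b (l 16754528) (l 16751824)) (c (l 16761752) (l 16761704))) (a (l 16748032) (l 16756392))) (b (l 1045030527) (a (b (l 16755656) (l 16752936)) (l 16762816)))) (a (l 16752816) (b (a (l 16749232) (l 16757472)) (l 16745936)))) (b (l 1045182079) (a (b (a (b (l 16756680) (l 16753952)) (l 16769024)) (a (l 16750288) (l 16758448))) (b (l 1045367935) (b (l 16764440) (a (l 16754880) (l 16758040))))))) (a (a (b (l 16743824) (l 16724960)) (b (b (l 16741384)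 (l 16737088)) (l 16730848))) (a (b (b (l 16747080) (l 16742776)) (l 16747024)) (b (b (a (l 16751256) (l 16759352)) (l 16748240)) (l 16752504))))) (b (b (a (l 1045427327) (l 3)) (a (l 1045628031) (a (l 1045910655) (a (l 1046077567) (l 3))))) (b (b (a (a (b (l 16765232) (l 16762560)) (l 1046010495)) (a (l 1046186111) (c (l 1046353535) (l 1046390911)))) (a (a (a (l 16757512) (b (l 16756240) (l 16753808))) (b (l 16766024) (l 16768664))) (a (l 1046645887) (a (l 1046847615) (l 1046976639))))) (a (a (c (l 16757696) (l 16757792)) (b (a (l 16758432) (b (l 16757088) (l 16754656))) (l 16750280))) (a (b (l 1047074943) (a (b (l 16755024) (l 16752888)) (b (l 16757792) (l 16755368)))) (b (l 1047379071) (l 1047733375))))))))), by decide +kernel⟩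

def k22_B08pp_022_s1 : ∃ t, chk3 f_B08pp_022_s1 t 13 9 1 = true :=
  ⟨(b (l 3) (b (l 3) (b (l 3) (a (a (b (b (c (l 1046868095) (l 1047939711)) (l 1047340159)) (c (l 1048179839) (l 1048053375))) (b (l 3) (l 1048875135))) (l 3))))), by decide +kernel⟩

def k23_B08pp_022_s1 : ∃ t, chk3 f_B08pp_022_s1 t 7 9 1 = true :=
  ⟨(l 3), by decide +kernel⟩

def k24_B08pp_022_s1 : ∃ t, chk3 f_B08pp_022_s1 t 3 40 1 = true :=
  ⟨(a (a (b (a (b (a (c (l 16740552) (l 16740992)) (a (l 16749520) (l 16734064))) (a (a (b (l 16710968) (l 16706800)) (l 16736040)) (b (l 16746512) (l 16742856)))) (a (a (b (l 16739360) (l 16731872)) (b (l 16749648) (l 16737008))) (b (a (b (l 16751152) (l 16747312)) (b (a (l 16759880) (b (l 16758328) (l 16755904))) (l 16751840))) (b (a (l 16764552) (l 16748112)) (l 16758272))))) (a (b (a (c (l 16734616) (l 16745760)) (a (l 16734528) (l 16719600))) (a (c (l 16714696) (l 16694856)) (c (l 16728744) (l 16750376)))) (a (b (c (l 16748840) (l 16749080)) (b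 (l 16743872) (l 16739912))) (b (b (l 16739824) (l 16757856)) (l 16752960))))) (b (a (b (b (a (l 1048518271) (a (l 1049149055) (l 1049596543))) (a (a (b (a (l 16756088) (l 16758648)) (l 16760408)) (b (l 16773112) (l 16760032))) (l 1049467007))) (a (a (b (l 16752328) (l 16749112)) (b (a (l 16755328) (l 16762784)) (l 16753040))) (b (a (b (l 16773072) (l 16759920)) (l 1049556607)) (a (b (a (l 16756328) (l 16758568)) (l 16756144)) (b (l 16767576) (l 16770816)))))) (a (b (b (l 1050308223) (l 1050459775)) (b (l 1050332287) (l 1050826367))) (b (l 3) (b (l 1051572351) (l 1051640959))))) (a (b (a (b (l 16759288) (l 16746224)) (a (b (l 16754656) (l 16752384)) (b (b (l 16764048) (l 16757600)) (l 16756024)))) (a (l 16762768) (b (l 16751712) (l 16748872)))) (b (a (b (a (b (l 16763128) (l 16761344)) (l 1052411519)) (a (b (l 16759912) (l 16758744)) (b (l 16763704) (l 16762040)))) (b (l 1053154431) (a (l 1054080127) (l 2)))) (a (b (a (l 16757056) (b (l 16760680) (l 16759528)))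 (l 16766592)) (a (b (a (l 16762368) (l 16769248)) (l 16760480)) (l 2))))))) (b (b (l 3) (l 2)) (l 2))), by decide +kernel⟩

def k25_B08pp_022_s1 : ∃ t, chk3 f_B08pp_022_s1 t 3 41 1 = true :=
  ⟨(a (b (a (a (b (a (a (l 16723536) (l 16730800)) (a (l 16737928) (l 16744888))) (a (c (l 16707144) (l 16676976)) (c (l 16732720) (l 16691680)))) (b (a (a (l 16751680) (l 16758176)) (b (l 16747680) (l 16766040))) (a (a (l 16702080) (l 16708992)) (l 16760872)))) (a (b (a (b (l 16778968) (l 16735072)) (b (l 16745984) (l 16744376))) (a (b (l 16732776) (l 16729504)) (b (l 16742664) (l 16740280)))) (b (a (b (l 16753544) (l 16752280)) (b (b (l 16765216) (l 2)) (l 2))) (a (l 16770936) (l 2))))) (a (a (a (b (b (l 16668496) (l 16703856)) (b (b (l 16655696) (l 16691656)) (b (b (b (l 16644720) (b (l 16642632) (a (l 16637960) (l 16664592)))) (l 16640040)) (l 16638288)))) (b (b (l 16683792) (l 16677464)) (b (b (l 16671392) (l 16707384)) (b (b (b (l 16660232) (b (l 16657304) (l 16656696)))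 (l 16652616)) (l 16651192))))) (b (a (b (l 16698448) (l 16692408)) (b (l 16712288) (l 16706560))) (b (b (a (l 16686504) (l 16700848)) (a (l 16722576) (l 16737008))) (b (b (b (l 16687928) (a (b (l 16672432) (l 16669184)) (b (l 16686824) (l 16683552)))) (l 16674880)) (l 16673560))))) (a (a (b (b (l 16725144) (l 16719752)) (b (b (l 16714264) (l 16687616)) (b (b (b (l 16703376) (b (l 16700320) (l 16697024))) (l 16695432)) (l 16694192)))) (b (b (l 16736784) (l 16731816)) (b (b (l 16726552) (l 16762960)) (b (b (b (l 16715824) (b (l 16712728) (l 16709424))) (l 16707776)) (l 16706584))))) (a (b (b (l 16767472) (l 16784496)) (b (b (l 16737680) (l 16732328)) (b (b (b (l 16727152) (b (l 16724024) (l 16720712))) (l 16719016)) (l 16717864)))) (l 2))))) (l 2)), by decide +kernel⟩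

def k26_B08pp_022_s1 : ∃ t, chk3 f_B08pp_022_s1 t 3 21 1 = true :=
  ⟨(a (a (b (a (a (c (l 16641416) (l 16620592)) (l 16635616)) (a (l 16651408) (l 16666416))) (a (a (l 16590744) (b (l 16615024) (l 16602136))) (a (l 16625520) (l 16641672)))) (a (b (a (l 16722336) (l 16703864)) (b (l 16669512) (l 16658880))) (a (a (b (l 16702392) (l 2)) (l 2)) (l 2)))) (l 2)), by decide +kernel⟩

def k27_B08pp_022_s1 : ∃ t, chk3 f_B08pp_022_s1 t 3 11 1 = true :=
  ⟨(a (a (b (a (a (b (l 16648920) (l 16542208)) (b (l 16584136) (l 16562680))) (b (a (l 16602448) (l 16619968)) (l 16592024))) (a (b (a (l 16522288) (l 16544328)) (l 16601168)) (b (l 16659864) (l 2)))) (b (a (b (l 16644312) (l 2)) (l 2)) (l 2))) (l 2)), by decide +kernel⟩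

def k28_B08pp_022_s1 : ∃ t, chk3 f_B08pp_022_s1 t 3 3 1 = true :=
  ⟨(a (b (b (a (b (a (b (l 16504520) (l 2)) (l 2)) (l 2)) (l 2)) (l 2)) (l 2)) (l 2)), by decide +kernel⟩

theorem t29_B08pp_022_s1 : ∃ t, chk3 f_B08pp_022_s1 t 3 20 1 = true := ex3_b k24_B08pp_022_s1 k25_B08pp_022_s1

theorem t30_B08pp_022_s1 : ∃ t, chk3 f_B08pp_022_s1 t 3 10 1 = true := ex3_b t29_B08pp_022_s1 k26_B08pp_022_s1

theorem t31_B08pp_022_s1 : ∃ t, chk3 f_B08pp_022_s1 t 3 5 1 = true := ex3_b t30_B08pp_022_s1 k27_B08pp_022_s1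

theorem t32_B08pp_022_s1 : ∃ t, chk3 f_B08pp_022_s1 t 6 9 1 = true := ex3_a k21_B08pp_022_s1 k22_B08pp_022_s1

theorem t33_B08pp_022_s1 : ∃ t, chk3 f_B08pp_022_s1 t 3 9 1 = true := ex3_a t32_B08pp_022_s1 k23_B08pp_022_s1

theorem t34_B08pp_022_s1 : ∃ t, chk3 f_B08pp_022_s1 t 3 4 1 = true := ex3_b k20_B08pp_022_s1 t33_B08pp_022_s1

theorem t35_B08pp_022_s1 : ∃ t, chk3 f_B08pp_022_s1 t 3 2 1 = true := ex3_b t34_B08pp_022_s1 t31_B08pp_022_s1

theorem t36_B08pp_022_s1 : ∃ t, chk3 f_B08pp_022_s1 t 3 1 1 = true := ex3_b t35_B08pp_022_s1 k28_B08pp_022_s1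

theorem t37_B08pp_022_s1 : ∃ t, chk3 f_B08pp_022_s1 t 5 5 1 = true := ex3_b k17_B08pp_022_s1 k18_B08pp_022_s1

theorem t38_B08pp_022_s1 : ∃ t, chk3 f_B08pp_022_s1 t 2 5 1 = true := ex3_a k16_B08pp_022_s1 t37_B08pp_022_s1

theorem t39_B08pp_022_s1 : ∃ t, chk3 f_B08pp_022_s1 t 5 19 1 = true := ex3_a k14_B08pp_022_s1 k15_B08pp_022_s1

theorem t40_B08pp_022_s1 : ∃ t, chk3 f_B08pp_022_s1 t 10 18 1 = true := ex3_b k11_B08pp_022_s1 k12_B08pp_022_s1

theorem t41_B08pp_022_s1 : ∃ t, chk3 f_B08pp_022_s1 t 5 18 1 = true := ex3_a t40_B08pp_022_s1 k13_B08pp_022_s1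

theorem t42_B08pp_022_s1 : ∃ t, chk3 f_B08pp_022_s1 t 5 9 1 = true := ex3_b t41_B08pp_022_s1 t39_B08pp_022_s1

theorem t43_B08pp_022_s1 : ∃ t, chk3 f_B08pp_022_s1 t 2 9 1 = true := ex3_a k10_B08pp_022_s1 t42_B08pp_022_s1

theorem t44_B08pp_022_s1 : ∃ t, chk3 f_B08pp_022_s1 t 18 17 1 = true := ex3_b k6_B08pp_022_s1 k7_B08pp_022_s1

theorem t45_B08pp_022_s1 : ∃ t, chk3 f_B08pp_022_s1 t 9 17 1 = true := ex3_a t44_B08pp_022_s1 k8_B08pp_022_s1

theorem t46_B08pp_022_s1 : ∃ t, chk3 f_B08pp_022_s1 t 9 8 1 = true := ex3_b k5_B08pp_022_s1 t45_B08pp_022_s1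

theorem t47_B08pp_022_s1 : ∃ t, chk3 f_B08pp_022_s1 t 17 33 1 = true := ex3_a k2_B08pp_022_s1 k3_B08pp_022_s1

theorem t48_B08pp_022_s1 : ∃ t, chk3 f_B08pp_022_s1 t 17 16 1 = true := ex3_b k1_B08pp_022_s1 t47_B08pp_022_s1

theorem t49_B08pp_022_s1 : ∃ t, chk3 f_B08pp_022_s1 t 8 16 1 = true := ex3_a k0_B08pp_022_s1 t48_B08pp_022_s1

theorem t50_B08pp_022_s1 : ∃ t, chk3 f_B08pp_022_s1 t 8 8 1 = true := ex3_b t49_B08pp_022_s1 k4_B08pp_022_s1

theorem t51_B08pp_022_s1 : ∃ t, chk3 f_B08pp_022_s1 t 4 8 1 = true := ex3_a t50_B08pp_022_s1 t46_B08pp_022_s1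

theorem t52_B08pp_022_s1 : ∃ t, chk3 f_B08pp_022_s1 t 2 8 1 = true := ex3_a t51_B08pp_022_s1 k9_B08pp_022_s1

theorem t53_B08pp_022_s1 : ∃ t, chk3 f_B08pp_022_s1 t 2 4 1 = true := ex3_b t52_B08pp_022_s1 t43_B08pp_022_s1

theorem t54_B08pp_022_s1 : ∃ t, chk3 f_B08pp_022_s1 t 2 2 1 = true := ex3_b t53_B08pp_022_s1 t38_B08pp_022_s1

theorem t55_B08pp_022_s1 : ∃ t, chk3 f_B08pp_022_s1 t 2 1 1 = true := ex3_b t54_B08pp_022_s1 k19_B08pp_022_s1

theorem t56_B08pp_022_s1 : ∃ t, chk3 f_B08pp_022_s1 t 1 1 1 = true := ex3_a t55_B08pp_022_s1 t36_B08pp_022_s1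

theorem c_B08pp_022_s1 : CertF 0 536870912 1073741824 536870912 649613803 48318383 false true true .pp 0 2 2
    ndB0q0 ndB8q2 pcB2 cut_B08pp_022_s1 xt_B08pp_022_s1 :=
  certF1 (fam := false) (s1 := true) (s2 := true) (a := 0) (b := 2) (c := 2) (cn := .pp) (n1 := ndB0q0) (n2 := ndB8q2) (pc := pcB2) (cut := cut_B08pp_022_s1) (xt := xt_B08pp_022_s1) (P1 := 0) (W1 := 536870912) (P2 := 1073741824) (W2 := 536870912) (P3 := 649613803) (W3 := 48318383)
    rfl (fun _ => rfl) t56_B08pp_022_s1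

theorem s_B08pp_022_s1 {κ x : ℝ} (hκ : κ * h0 = ken x) (hx : ((649613803 : ℕ) : ℝ) / S ≤ x)
    (hx' : x ≤ (((649613803 : ℕ) : ℝ) + (48318383 : ℕ)) / S)
    (H : CutB (VFD κ) PP tK tL pcB (Cut.of [[⟨0, 0, 0, 53687091⟩, ⟨1, 1, 0, 53687091⟩, ⟨2, 1, 0, 53687091⟩]]) 0 2 2 0 8 (sgb true) (sgb true) x) :
    AltB (VFD κ) PP tK tL pcB [⟨3, 0, 0, 1449551462⟩] 0 2 2 0 8 (sgb true) (sgb true) x :=
  strip_altBD (m := 1449551462) true rfl hκ (SH.κ0 hκ (SH.hx1 hx).le (SH.hx2 hx').le) (SH.hx1 hx).le (SH.hx2 hx') (covB00).cov (covB82).cov hx hx' c_B08pp_022_s1 H ((okx6 hx hx').extB (T := tt) (okx hx hx') (sideB hx hx') hκ rfl rfl (.O 0 true) (.N 2 true) rfl)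

end Pool.Agent.Strip051.G.I6050_6500.Tab.St.C
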