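import Pool.Agent.Strip051.G.I6050_6500.Tab
import Pool.Agent.Strip051.PB.StripB

/-! # Strips, near vertex: certificates 3 (generated) -/

set_option linter.all false
set_option maxRecDepth 100000

namespace Pool.Agent.Strip051.G.I6050_6500.Tab.CS.BB00

open Pool.Agent.Strip051.PB Pool.Agent.Strip051.PB.T
open Pool.Agent.Strip051.G.I6050_6500.Tab

noncomputable def cut_pm_011_t : Cut := Cut.of [[⟨3, 0, 0, 2845415833⟩], [⟨0, 0, 0, 53687091⟩, ⟨1, 1, 0, 53687091⟩, ⟨2, 1, 0, 53687091⟩]]

noncomputable def f_pm_011_t : ℕ → ℕ → ℕ → ℕ → Bool := onCell 0 536870912 536870912 536870912 649613803 48318383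
    (rowNE 3 eng mog cd0q0 cd0q1 pd1 0 false true false .pnn 0 1 1 (qsf 0 536870912 536870912 536870912 1) ndB0q0 ndB0q1 pcB1 cut_pm_011_t Ext.none)

def k0_pm_011_t : ∃ t, chk3 f_pm_011_t t 1 2 1 = true :=
  ⟨(a (l 4) (b (l 1) (a (l 4) (l 1)))), by decide +kernel⟩

def k1_pm_011_t : ∃ t, chk3 f_pm_011_t t 4 6 1 = true :=
  ⟨(l 4), by decide +kernel⟩

def k2_pm_011_t : ∃ t, chk3 f_pm_011_t t 5 12 1 = true :=
  ⟨(l 4), by decide +kernel⟩

def k3_pm_011_t : ∃ t, chk3 f_pm_011_t t 10 13 1 = true :=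
  ⟨(l 4), by decide +kernel⟩

def k4_pm_011_t : ∃ t, chk3 f_pm_011_t t 11 26 1 = true :=
  ⟨(l 4), by decide +kernel⟩

def k5_pm_011_t : ∃ t, chk3 f_pm_011_t t 22 27 1 = true :=
  ⟨(b (l 4) (a (l 4) (b (l 4) (a (l 4) (b (l 4) (a (l 4) (b (a (l 4) (c (l 180086640199) (l 182770994663))) (a (b (l 203172088887) (c (l 46405784759) (l 46942655703))) (c (l 16778096) (l 16778048)))))))))), by decide +kernel⟩

def k6_pm_011_t : ∃ t, chk3 f_pm_011_t t 23 54 1 = true :=
  ⟨(a (l 4) (b (a (l 4) (b (l 4) (a (l 4) (b (l 4) (a (l 4) (l 206393315671)))))) (a (b (l 4) (b (a (l 4) (a (l 4) (c (l 168812350311) (l 169886092055)))) (a (a (l 4) (l 209614542215)) (b (a (l 182234122727) (l 16776008)) (c (l 16775384) (l 16777960)))))) (b (b (a (l 4) (a (c (l 109756555911) (l 163443640423)) (c (l 16776016) (l 16779912)))) (a (a (l 208540800071) (b (c (l 120493972711) (l 120493972631)) (l 16779160))) (c (l 16773280) (l 16773208)))) (a (b (a (a (b (l 106535326695) (l 16775936)) (l 16775552)) (l 16773400))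 (l 16772000)) (c (l 16767104) (l 16766928))))))), by decide +kernel⟩

def k7_pm_011_t : ∃ t, chk3 f_pm_011_t t 23 55 1 = true :=
  ⟨(a (b (a (l 4) (b (a (l 4) (a (l 4) (b (l 4) (b (l 189750315799) (a (l 80765522359) (l 16776248)))))) (a (a (b (l 4) (b (l 195119025111) (a (l 87207973527) (l 16776376)))) (b (c (l 177939156391) (l 180086639943)) (c (l 16775360) (l 16775312)))) (b (a (b (a (l 131768259879) (l 16776984)) (l 16775624)) (l 16773864)) (c (l 16771240) (l 16771104)))))) (a (b (a (a (l 4) (b (l 4) (b (l 202635217975) (a (l 90429199095) (l 16776448))))) (b (a (c (l 180086640167) (l 182234123719)) (b (c (l 77544298663) (l 78081169527)) (l 16775736))) (c (l 16777088) (a (l 16778016) (l 16772624))))) (a (a (b (b (a (l 138747581623) (l 44795170631)) (l 16777088)) (l 16772736)) (c (l 16772112) (l 16771992))) (c (l 16770704) (l 16770488)))) (b (a (c (l 16771984) (l 16771176)) (c (l 16765208) (l 16764952))) (a (c (l 16762672) (l 16762344)) (a (l 16759376) (l 16756952)))))) (b (a (a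 (c (b (b (a (l 174717930679) (l 16780464)) (l 16773816)) (l 16767736)) (b (b (a (l 175791672423) (a (l 50163882039) (l 16775768))) (l 16776368)) (l 16767544))) (b (c (l 16770264) (l 16770128)) (c (l 16762176) (l 16761880)))) (a (b (a (l 16765952) (l 16763096)) (l 16758992)) (b (l 16761416) (l 16750664)))) (a (c (b (l 16759568) (l 16748992)) (b (l 16759152) (l 16748416))) (c (b (l 16745744) (l 16737832)) (b (l 16745168) (l 16738416)))))), by decide +kernel⟩

def k8_pm_011_t : ∃ t, chk3 f_pm_011_t t 4 14 1 = true :=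
  ⟨(a (l 4) (b (l 4) (a (l 4) (b (l 4) (a (l 4) (b (l 4) (a (b (l 4) (a (l 4) (b (l 4) (b (a (l 4) (c (l 167201737207) (l 170959833527))) (a (l 184918477863) (c (l 21172851159) (c (l 16779392) (l 22783463815)))))))) (a (b (l 4) (b (b (a (l 4) (a (l 188676573495) (a (l 92576681703) (l 16778456)))) (a (c (l 151095609239) (l 154316834647)) (c (l 16776096) (l 16776048)))) (a (a (b (l 30299655975) (l 16775024)) (l 16774840)) (l 16773040)))) (b (b (a (l 4) (c (l 189213447111) (l 193508414295))) (b (a (l 4) (a (a (l 134989483879) (l 77544296231)) (l 16779368))) (a (a (l 165054252759) (l 37278977991)) (l 16775336)))) (b (a (c (l 16774736) (l 16774648)) (l 16772288)) (b (l 16770448) (a (l 16769624) (l 16767224))))))))))))), by decide +kernel⟩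

def k9_pm_011_t : ∃ t, chk3 f_pm_011_t t 8 30 1 = true :=
  ⟨(a (l 4) (b (l 4) (a (l 4) (b (l 4) (a (l 4) (b (l 4) (a (l 4) (b (l 4) (b (a (l 4) (a (l 4) (b (l 190287185607) (a (c (l 85060487415) (l 83449874807)) (l 16778248))))) (a (b (l 4) (a (l 4) (a (a (l 4) (l 100629743799)) (c (l 16778120) (l 29762783287))))) (b (a (a (c (l 79154908295) (l 97408518535)) (a (l 34594621431) (l 16776896))) (l 16776144)) (c (l 16776984) (l 16776248))))))))))))), by decide +kernel⟩

def k10_pm_011_t : ∃ t, chk3 f_pm_011_t t 16 31 1 = true :=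
  ⟨(b (b (l 4) (b (l 4) (b (l 4) (l 14)))) (l 14)), by decide +kernel⟩

def k11_pm_011_t : ∃ t, chk3 f_pm_011_t t 34 124 1 = true :=
  ⟨(a (l 4) (b (l 4) (a (l 4) (a (l 4) (b (l 4) (b (l 4) (b (a (l 4) (b (a (l 4) (a (l 4) (l 94187291927))) (a (c (l 117809612359) (l 119420225079)) (c (l 16777664) (l 16777648))))) (a (b (a (l 4) (l 167201735335)) (a (l 173644186327) (c (l 16777736) (l 16777888)))) (a (c (l 16777752) (c (l 16777728) (l 16777720))) (l 16776152)))))))))), by decide +kernel⟩

def k12_pm_011_t : ∃ t, chk3 f_pm_011_t t 68 250 1 = true :=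
  ⟨(a (l 4) (a (l 4) (b (l 4) (b (l 4) (b (b (l 4) (a (l 4) (a (l 4) (a (l 4) (a (l 142505673671) (l 81302389863)))))) (a (b (l 4) (a (l 4) (c (l 165591122615) (l 169349218983)))) (b (a (c (l 161296155255) (c (l 163980509815) (l 165591122535))) (a (a (l 46942651463) (l 16777752)) (l 16776872))) (a (a (c (l 37278975047) (l 34594620551)) (l 16776904)) (l 16776440))))))))), by decide +kernel⟩

def k13_pm_011_t : ∃ t, chk3 f_pm_011_t t 68 502 1 = true :=
  ⟨(a (a (l 4) (a (l 4) (b (l 4) (b (l 4) (a (b (l 4) (a (b (l 4) (c (l 74859938599) (l 76470551367))) (b (l 69491229623) (l 16777016)))) (b (a (b (l 4) (l 65196262295)) (b (l 58216940407) (l 16776984))) (c (l 16776712) (l 16776688)))))))) (b (a (b (b (l 4) (b (l 4) (a (l 4) (a (l 4) (l 173644186167))))) (a (a (l 4) (a (l 4) (b (l 4) (l 186529088135)))) (a (a (b (l 4) (b (l 147337511735) (l 16777680))) (b (l 180623508055) (c (l 16777696) (l 16777680)))) (b (a (b (l 99019130183) (l 16777488)) (l 16777656)) (l 16776576))))) (a (b (b (a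 (c (l 170422960871) (l 174181057239)) (a (b (l 103314097047) (l 16777096)) (l 16777592))) (a (a (b (l 117272740727) (l 16777784)) (l 16777624)) (l 16776512))) (c (c (l 16775992) (l 16775952)) (c (l 16775920) (a (l 16776208) (l 16776864))))) (b (c (l 16776240) (c (l 16775856) (a (l 16776136) (l 16776800)))) (c (a (l 16776376) (l 16774464)) (c (l 16775968) (l 16775240)))))) (a (b (a (b (a (l 4) (a (b (l 4) (l 42110813127)) (a (l 18488493031) (l 16776992)))) (a (a (b (l 4) (l 53385102183)) (c (l 16777752) (l 13119783879))) (l 16776968))) (b (c (l 16776320) (l 16776272)) (a (l 16776016) (l 16776056)))) (a (b (a (l 16777000) (l 16776048)) (a (l 16776080) (l 16776112))) (a (b (l 16776080) (l 16774840)) (a (l 16775320) (l 16775016))))) (b (c (a (c (l 16776168) (l 16776104)) (l 16774936)) (a (a (l 16776320) (l 16774368)) (l 16774720))) (a (c (l 16774992) (l 16774784)) (c (l 16772480) (l 16772200))))))), by decide +kernel⟩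

def k14_pm_011_t : ∃ t, chk3 f_pm_011_t t 68 503 1 = true :=
  ⟨(a (a (a (l 14) (b (b (l 4) (a (l 14) (b (b (c (l 162906767863) (l 166664864231)) (a (l 14) (l 16777432))) (a (l 14) (l 16776664))))) (l 14))) (b (a (b (a (b (l 4) (a (b (l 4) (l 99019129735)) (b (l 94724162423) (l 16777728)))) (b (a (a (l 186529088023) (c (l 97945387975) (l 96871646215))) (b (c (l 80765518615) (l 82913002295)) (l 16777048))) (c (l 16777424) (l 16777400)))) (b (a (c (l 16777456) (l 16777264)) (l 16776168)) (a (l 16776280) (c (l 16775624) (l 16775528))))) (a (b (b (a (l 16777536) (l 16776576)) (l 16776136)) (c (l 16775960) (l 16775848))) (b (b (l 16776112) (l 16776176)) (c (l 16776016) (l 16775864))))) (a (b (a (b (a (l 16776416) (l 16775448)) (l 16775672)) (c (l 16776072) (l 16775928))) (a (l 14) (l 16774000))) (b (c (l 16774512) (c (l 16773712) (l 16774912))) (a (l 16773544) (l 16772264)))))) (a (c (a (b (b (a (l 16775904) (l 16774648)) (l 16775112)) (c (l 16773456) (l 16773312))) (b (b (l 16775048)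 (l 16772592)) (l 16772184))) (b (b (a (a (l 16775792) (l 16774496)) (l 16774192)) (a (l 16774248) (l 16772320))) (a (b (l 16772376) (l 16771160)) (c (l 16770592) (l 16770392))))) (a (c (b (c (l 16773344) (l 16773200)) (l 16769664)) (b (c (l 16773048) (l 16772224)) (l 16769880))) (c (b (l 16772072) (l 16768464)) (b (c (l 16770480) (l 16770272)) (l 16767952)))))), by decide +kernel⟩

def k15_pm_011_t : ∃ t, chk3 f_pm_011_t t 138 250 1 = true :=
  ⟨(b (b (l 4) (a (l 4) (a (a (l 4) (b (l 4) (b (l 4) (a (l 123178321191) (c (l 16777864) (l 42647684199)))))) (b (b (l 4) (a (l 4) (a (l 102240355671) (l 27078427815)))) (b (a (a (l 116198999271) (l 34057749735)) (l 16776744)) (c (l 16777144) (l 16777104))))))) (b (b (a (a (l 4) (b (l 4) (a (l 4) (a (l 181160378983) (c (l 56606328055) (l 59827553431)))))) (a (b (a (a (l 134452610311) (c (l 49627006135) (l 49627006119))) (l 16777472)) (a (a (l 16777656) (l 16776704)) (l 16776232))) (c (l 16775640) (c (l 16775576) (l 16775528))))) (a (b (a (l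 4) (a (a (l 4) (c (l 68954358919) (l 67880617255))) (c (l 16777552) (l 16777528)))) (b (a (l 4) (a (l 16777760) (l 16776456))) (a (a (l 4) (c (l 81302389975) (l 79691777303))) (l 16776800)))) (c (a (l 16775712) (l 16775816)) (a (c (l 16775648) (l 16775600)) (l 16775000))))) (a (a (b (b (a (a (l 4) (a (l 125325804599) (l 72712455223))) (c (l 16777616) (l 16777760))) (a (c (l 16777808) (c (l 16777632) (l 16777784))) (l 16776376))) (c (l 16776496) (c (l 16775784) (a (l 16776064) (l 16776728))))) (b (c (l 16776432) (c (l 16775720) (l 16775504))) (a (a (l 16775688) (l 16776032)) (l 16774912)))) (b (c (a (l 16775552) (l 16773368)) (a (c (l 16775768) (l 16775688)) (l 16773144))) (a (a (l 16773640) (l 16773016)) (a (l 16772400) (l 16771784))))))), by decide +kernel⟩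

def k16_pm_011_t : ∃ t, chk3 f_pm_011_t t 138 251 1 = true :=
  ⟨(b (b (b (a (c (a (a (l 16776312) (l 16774400)) (l 16773496)) (a (a (l 16776184) (l 16774240)) (l 16773280))) (a (a (l 16772464) (l 16771848)) (l 16772232))) (a (a (c (l 16774872) (l 16774656)) (c (l 16772360) (l 16772072))) (a (l 16771640) (l 16769752)))) (b (a (a (a (l 16772592) (l 16771976)) (l 16771704)) (c (l 16769416) (l 16770264))) (a (a (l 16771760) (l 16771184)) (c (l 16768272) (l 16767752))))) (a (c (b (c (l 16769064) (l 16770152)) (l 16767976)) (a (b (l 16770416) (l 16766680)) (b (l 16767840) (l 16765416)))) (c (b (l 16769184) (l 16764272)) (b (c (l 16766104) (l 16767072)) (c (l 16763720) (l 16763304)))))), by decide +kernel⟩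

def k17_pm_011_t : ∃ t, chk3 f_pm_011_t t 139 125 1 = true :=
  ⟨(b (b (b (a (a (a (l 4) (b (l 4) (b (l 4) (a (l 81839261047) (l 16777744))))) (b (b (a (l 4) (l 179549766423)) (a (l 185455346519) (a (l 64122520903) (l 16777016)))) (b (a (a (l 74323068215) (l 16777704)) (l 16776592)) (l 16776648)))) (b (b (a (a (c (l 16777936) (l 21709718935)) (l 16776520)) (l 16775592)) (c (l 16776248) (a (l 16776216) (l 16776256)))) (a (c (l 16775424) (l 16775320)) (c (l 16775536) (l 16775360))))) (a (a (b (a (b (a (l 92039808359) (l 16777776)) (l 16776712)) (l 16776712)) (c (l 16775568) (l 16775472))) (b (c (l 16775496) (l 16775400)) (c (l 16775680) (l 16775512)))) (b (c (a (l 16775608) (l 16773096)) (a (l 16775440) (l 16772856))) (a (a (l 16773360) (l 16772744)) (l 16773128))))) (b (b (a (c (a (l 16775744) (l 16773232)) (a (l 16775584) (l 16773000))) (a (l 16772544) (l 16770656))) (a (a (a (l 16773504) (l 16772880)) (l 16772616)) (c (l 16770304) (l 16771208)))) (a (a (c (l 16772904) (c (l 16771360)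 (l 16771176))) (b (l 16770792) (l 16769624))) (c (l 16769584) (c (l 16768232) (l 16769272)))))) (a (b (c (b (c (l 16768832) (l 16768608)) (l 16766448)) (b (c (l 16769672) (l 16768744)) (c (l 16765984) (l 16765648)))) (a (b (a (l 16764728) (l 16764112)) (l 16763384)) (b (l 16764504) (l 16760848)))) (b (b (c (l 16766336) (c (l 16765872) (l 16765528))) (c (l 16764064) (l 16764608))) (a (b (l 16761968) (l 16759632)) (b (l 16760752) (a (l 16758712) (b (l 16758688) (l 16757504)))))))), by decide +kernel⟩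

def k18_pm_011_t : ∃ t, chk3 f_pm_011_t t 70 248 1 = true :=
  ⟨(a (l 4) (b (l 4) (a (a (l 4) (a (l 4) (a (l 4) (b (l 4) (b (l 4) (l 169886090055)))))) (b (b (l 4) (b (l 4) (a (l 4) (a (l 4) (l 83986745111))))) (a (b (a (l 4) (b (l 4) (l 102240356103))) (b (a (l 111367161607) (l 16777632)) (a (l 16777680) (l 16776424)))) (b (a (b (l 90966067047) (l 16776936)) (l 16777920)) (l 16775784))))))), by decide +kernel⟩

def k19_pm_011_t : ∃ t, chk3 f_pm_011_t t 140 249 1 = true :=
  ⟨(a (b (l 4) (b (a (b (l 4) (b (a (l 4) (a (l 4) (l 72175584551))) (a (c (l 102777226775) (l 101703485015)) (l 16777584)))) (b (b (a (l 4) (a (l 131231384919) (l 16777888))) (a (c (l 86134228519) (l 84523615847)) (l 16776848))) (c (l 16777304) (c (l 16777592) (l 16776904))))) (a (a (b (c (l 16777352) (l 16777648)) (l 16775528)) (b (l 16776072) (l 16775568))) (b (b (l 16775432) (c (l 16774920) (l 16774784))) (c (l 16775384) (l 16775208)))))) (b (b (l 4) (b (a (l 4) (b (a (l 4) (c (l 16777864) (l 46405780983)))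 (a (c (l 54458844679) (l 52848231991)) (l 16776688)))) (a (a (b (l 4) (c (l 68954359367) (l 67343746695))) (b (c (l 61438166599) (l 60901295671)) (l 16776768))) (c (l 16776160) (l 16776096))))) (b (b (a (a (l 16777176) (l 16775904)) (a (b (l 16775576) (l 16775000)) (l 16775984))) (a (a (b (l 16774352) (l 16775080)) (l 16776064)) (c (l 16773920) (l 16773736)))) (a (b (a (l 16775528) (l 16773600)) (l 16773408)) (c (l 16773552) (l 16773264)))))), by decide +kernel⟩

def k20_pm_011_t : ∃ t, chk3 f_pm_011_t t 141 249 1 = true :=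
  ⟨(a (b (b (b (a (c (l 182770992775) (l 187065960023)) (b (a (c (l 133915739655) (l 136600094183)) (l 16777720)) (c (l 16778128) (l 16778104)))) (a (b (a (l 186529088327) (l 27615299207)) (c (l 8824817447) (c (l 16778192) (l 16778096)))) (l 16776288))) (a (c (l 16776176) (a (l 16775736) (l 16775104))) (b (a (a (l 16776584) (l 16774968)) (l 16775816)) (c (l 16773760) (l 16773568))))) (a (b (b (a (l 16774056) (l 16773440)) (l 16773912)) (a (l 16771840) (l 16771880))) (c (b (l 16773400) (l 16769848)) (b (l 16773104) (l 16769432))))) (c (b (b (c (l 16775440) (c (l 16776048) (l 16776016))) (a (l 16774432) (l 16771928))) (b (c (l 16770384) (l 16772824)) (l 16768064))) (b (b (a (c (l 16775272) (l 16775216)) (b (l 16775880) (l 16773400))) (a (c (l 16775576) (l 16774144)) (l 16771632))) (b (c (l 16771320) (l 16771112)) (l 16768208))))), by decide +kernel⟩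

def k21_pm_011_t : ∃ t, chk3 f_pm_011_t t 71 248 1 = true :=
  ⟨(a (b (b (b (l 4) (a (l 4) (a (l 4) (a (l 179549766759) (b (l 121567708919) (l 16778376)))))) (a (b (l 4) (b (l 4) (a (l 4) (a (l 4) (l 52311361143))))) (a (b (a (l 189750314231) (b (l 144653158039) (l 16777808))) (c (l 16777952) (c (l 16777928) (l 16777904)))) (b (c (l 16777864) (l 16777824)) (l 16775416))))) (b (b (a (b (a (l 4) (a (l 58753812167) (l 16776712))) (a (a (l 4) (l 66270005015)) (l 16776448))) (c (l 16774952) (l 16774832))) (a (a (a (b (l 73249326951) (l 16776848)) (l 16776520)) (l 16775600)) (a (a (l 16775992) (l 16774072)) (l 16774464)))) (a (c (c (l 16775920) (l 16775040)) (a (l 16775064) (c (l 16775160) (l 16775064)))) (a (b (l 16774552) (l 16772104)) (a (l 16773072) (l 16771152)))))) (a (b (b (b (a (a (l 168812348375) (b (l 101166614263) (l 16776976))) (c (l 16776368) (l 16776320))) (a (c (l 16777768) (l 16777728)) (l 16775224))) (c (c (l 16774256) (l 16774184)) (a (l 16774688) (l 16774744)))) (c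 (b (c (l 16774704) (l 16773272)) (l 16771136)) (b (a (l 16774992) (l 16771120)) (l 16770728)))) (c (b (b (l 16775344) (c (l 16774528) (l 16774400))) (b (l 16772272) (l 16767456))) (b (b (b (l 16774440) (a (l 16773912) (l 16772664))) (c (l 16774256) (l 16772792))) (b (l 16770560) (l 16766936)))))), by decide +kernel⟩

def k22_pm_011_t : ∃ t, chk3 f_pm_011_t t 71 249 1 = true :=
  ⟨(a (a (b (c (b (a (l 16774272) (l 16771768)) (l 16771456)) (b (a (l 16774032) (l 16771464)) (c (l 16769856) (l 16769640)))) (a (b (l 16769592) (l 16765992)) (b (l 16767064) (l 16764784)))) (b (c (b (l 16771296) (l 16767768)) (b (c (l 16769696) (l 16769480)) (l 16767248))) (a (b (l 16765856) (l 16763568)) (b (l 16764640) (l 16762368))))) (b (b (c (a (l 16767616) (l 16765264)) (a (l 16767096) (l 16764616))) (c (a (l 16765408) (l 16763064)) (a (l 16764768) (l 16762296)))) (a (c (l 16764712) (c (l 16761488) (l 16761032))) (b (l 16761744) (l 16758168))))), by decide +kernel⟩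

def k23_pm_011_t : ∃ t, chk3 f_pm_011_t t 70 125 1 = true :=
  ⟨(a (a (b (b (a (c (b (c (l 16774944) (l 16774848)) (l 16771328)) (b (a (l 16774680) (l 16774368)) (l 16772304))) (c (b (l 16773696) (l 16770136)) (b (l 16772768) (l 16769728)))) (c (b (l 16769784) (l 16766216)) (b (c (l 16768104) (l 16767832)) (c (l 16765744) (l 16765400))))) (b (a (b (l 16765504) (l 16761864)) (b (l 16762976) (l 16760648))) (c (b (l 16759416) (b (l 16762936) (l 16756592))) (b (l 16758384) (a (b (l 16757192) (l 16758632)) (b (l 16758568) (l 16754744))))))) (b (b (c (b (c (l 16773296) (l 16771816)) (l 16769656)) (a (b (l 16770848) (l 16768464)) (b (l 16769584) (l 16767208)))) (b (c (l 16766088) (l 16766104)) (a (l 16764080) (l 16762856)))) (b (a (b (l 16761752) (l 16759432)) (b (l 16760536) (l 16758216))) (c (b (a (l 16757624) (l 16759072)) (l 16754792)) (b (b (l 16756472) (a (l 16755888) (l 16754680))) (l 16755480)))))) (a (b (b (b (a (a (l 16768880) (l 16768264)) (l 16768664)) (a (l 16767576) (l 16765048)))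 (a (b (l 16763960) (l 16761640)) (b (l 16762744) (l 16760432)))) (b (c (b (l 16759216) (l 16759552)) (b (l 16758184) (a (l 16756416) (c (l 16755464) (l 16757424))))) (b (b (a (a (l 16755560) (l 16754968)) (l 16754072)) (l 16753488)) (l 16751736)))) (b (b (a (b (l 16766136) (l 16763832)) (b (l 16764920) (l 16762616))) (c (l 16762848) (a (l 16761200) (l 16758640)))) (b (a (b (l 16756912) (b (l 16755160) (l 16756648))) (b (l 16755704) (b (a (l 16754264) (l 16753680)) (l 16752808)))) (c (l 16751200) (l 16749728)))))), by decide +kernel⟩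

def k24_pm_011_t : ∃ t, chk3 f_pm_011_t t 71 125 1 = true :=
  ⟨(b (b (b (a (c (a (l 16763464) (l 16761112)) (a (l 16762696) (l 16760216))) (a (l 16759592) (l 16755896))) (a (c (l 16761368) (a (l 16760336) (l 16757864))) (a (l 16756008) (l 16753624)))) (b (a (c (l 16757824) (c (l 16757024) (l 16757416))) (a (l 16753720) (b (c (l 16752544) (l 16751176)) (a (l 16751360) (l 16750200))))) (a (a (l 16757520) (a (l 16754408) (b (l 16753792) (l 16755256)))) (a (b (a (l 16752584) (l 16754040)) (c (l 16751552) (l 16750136))) (l 16749064))))) (a (b (b (b (c (a (l 16755064) (l 16752760)) (a (l 16753800) (a (l 16751984) (l 16750768)))) (a (a (l 16756536) (l 16752744)) (l 16750936))) (c (l 16751112) (a (l 16750872) (l 16748400)))) (c (l 16750312) (a (l 16747272) (l 16744832)))) (c (b (l 16747560) (l 16743048)) (b (c (l 16746368) (l 16745480)) (c (l 16741688) (l 16740680)))))), by decide +kernel⟩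

def k25_pm_011_t : ∃ t, chk3 f_pm_011_t t 68 63 1 = true :=
  ⟨(b (b (b (b (a (a (l 14) (a (l 14) (b (a (l 16771704) (l 16771080)) (l 16771024)))) (a (a (b (l 16770808) (l 16770280)) (b (l 16768920) (l 16767736))) (c (l 16768080) (c (l 16766320) (l 16766640))))) (a (l 14) (c (a (l 16768184) (l 16764472)) (a (a (l 16766896) (l 16765624)) (c (l 16763920) (l 16763512)))))) (a (l 14) (b (a (c (l 16764568) (c (l 16764016) (l 16764920))) (b (l 16763648) (a (c (l 16762184) (l 16761280)) (b (l 16760824) (l 16760256))))) (a (l 14) (a (a (b (l 16763520) (l 14)) (l 16759680)) (l 16758744)))))) (b (b (a (l 14) (a (l 14) (a (l 14) (l 16756336)))) (l 14)) (l 14))) (l 14)), by decide +kernel⟩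

def k26_pm_011_t : ∃ t, chk3 f_pm_011_t t 69 63 1 = true :=
  ⟨(a (a (b (b (b (a (b (a (l 16764936) (l 16764320)) (l 16763576)) (b (l 16764384) (a (l 16761344) (b (l 16761328) (l 16760128))))) (b (b (a (b (l 16760784) (l 16762824)) (c (l 16759768) (l 16758752))) (l 16758696)) (c (l 16757440) (l 16756288)))) (b (c (l 16753928) (a (l 16753224) (l 16751968))) (a (l 14) (b (l 16749064) (l 14))))) (l 14)) (b (b (b (a (b (l 16763480) (b (l 16760408) (b (l 16759512) (l 16758936)))) (b (l 16760944) (b (a (l 16759472) (l 16761496)) (l 16758000)))) (c (l 16756208) (c (l 16755320) (l 16754656)))) (b (c (l 16751544) (c (l 16750472) (l 16749680))) (b (a (l 16747848) (l 16746632)) (c (l 16750920) (b (l 16747136) (l 16743296)))))) (b (b (b (l 16742384) (l 14)) (l 14)) (l 14)))) (a (b (b (b (b (b (c (l 16760176) (l 16759168)) (a (a (l 16759440) (l 16758816)) (a (l 16760840) (l 16757624)))) (a (b (l 16760592) (l 16756768)) (l 16756136))) (b (l 16754368) (l 16751992))) (b (c (l 16749168) (c (l 16748000)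 (l 16747144))) (c (b (l 16745648) (l 16743320)) (b (c (l 16744336) (l 16746000)) (c (l 16741936) (l 16740920)))))) (b (b (b (l 16739960) (l 16737512)) (a (l 14) (b (l 16734464) (l 14)))) (l 14))) (b (b (b (b (b (a (a (l 16758160) (l 16760184)) (l 16756664)) (l 16756080)) (l 16754304)) (b (l 16751936) (l 16749560))) (b (c (l 16746800) (c (l 16745544) (l 16744624))) (b (c (l 16743296) (b (l 16742016) (l 16740800))) (l 16739976)))) (b (b (b (l 16737544) (l 16735112)) (b (l 16732664) (b (l 16730824) (a (l 16730192) (l 16729000))))) (b (l 16726488) (l 14)))))), by decide +kernel⟩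

def k27_pm_011_t : ∃ t, chk3 f_pm_011_t t 70 63 1 = true :=
  ⟨(b (a (a (b (b (b (l 16754232) (l 16751872)) (b (l 16749504) (l 16747136))) (b (c (l 16744448) (c (l 16743104) (l 16742112))) (b (b (a (l 16741184) (l 16739992)) (l 16739384)) (l 16737568)))) (b (c (b (l 16751328) (l 16746728)) (b (l 16749864) (l 16745016))) (b (b (l 16742352) (b (l 16740576) (a (l 16739976) (l 16738784)))) (b (l 16737592) (l 16735176))))) (c (b (b (c (l 16748168) (l 16747416)) (c (l 16743640) (l 16742776))) (b (b (l 16742368) (c (l 16737952) (l 16742192))) (l 16733936))) (a (b (b (l 16747392) (l 16742560)) (b (b (l 16738920) (a (l 16737096) (l 16735888))) (l 16732808))) (b (b (l 16744928) (l 16740112)) (b (b (l 16736464) (l 16734072)) (l 16730384)))))) (b (b (b (c (a (l 16735048) (l 16730408)) (a (l 16732768) (l 16727904))) (c (a (l 16732672) (l 16728040)) (a (l 16730288) (l 16725440)))) (b (a (c (l 16730296) (l 16727800)) (a (l 16725536) (l 16723184))) (b (c (a (l 16728488) (l 16723896)) (a (a (l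 16727136) (l 16724696)) (c (l 16721840) (l 16720352)))) (a (c (l 16727312) (c (l 16725376) (l 16723984))) (l 16721312))))) (b (c (a (l 16724248) (l 16719648)) (a (l 16721528) (l 16716720))) (c (a (l 16719336) (l 16714768)) (a (l 16716464) (l 16711688)))))), by decide +kernel⟩

def k28_pm_011_t : ∃ t, chk3 f_pm_011_t t 71 63 1 = true :=
  ⟨(b (b (a (c (b (l 16743144) (l 16739888)) (a (b (l 16742488) (l 16737680)) (b (l 16740056) (l 16735264)))) (b (c (l 16738528) (c (l 16736992) (l 16735864))) (c (b (l 16735120) (l 16738080)) (b (l 16732856) (a (l 16736880) (l 16729272)))))) (b (a (a (b (b (l 16735800) (l 16737256)) (l 16732848)) (c (l 16738096) (b (l 16736912) (l 16729224)))) (c (l 16729400) (c (l 16727536) (l 16728792)))) (c (a (l 16729320) (l 16724760)) (a (c (l 16727448) (l 16726072)) (c (l 16722736) (l 16721256)))))) (b (b (c (a (l 16724640) (l 16720096)) (a (c (l 16722600) (l 16721120)) (c (l 16717912) (l 16716328)))) (c (b (a (c (l 16721760) (l 16720392)) (l 16721832)) (l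 16716448)) (b (a (a (l 16719352) (l 16716976)) (a (l 16714632) (l 16712304))) (l 16718584)))) (b (a (a (l 16714736) (l 16712432)) (l 16708992)) (a (a (l 16709792) (l 16707504)) (l 16709328))))), by decide +kernel⟩

def k29_pm_011_t : ∃ t, chk3 f_pm_011_t t 18 60 1 = true :=
  ⟨(a (l 4) (b (l 4) (a (l 4) (b (l 4) (a (b (l 4) (a (l 4) (a (b (l 4) (b (l 188676572743) (l 16778800))) (b (l 181697251479) (a (l 16778784) (l 16776248)))))) (b (b (a (l 4) (a (l 4) (a (l 180623509223) (l 81839263687)))) (b (a (l 4) (a (l 87207972135) (l 16776496))) (a (c (l 164517381975) (l 167738607383)) (l 16777360)))) (b (a (a (b (l 117809614199) (l 16776912)) (l 16777568)) (l 16774488)) (c (l 16773648) (l 16773512))))))))), by decide +kernel⟩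

def k30_pm_011_t : ∃ t, chk3 f_pm_011_t t 36 122 1 = true :=
  ⟨(a (l 4) (b (l 4) (a (b (l 4) (b (l 4) (a (l 4) (a (l 4) (b (l 4) (l 172570445111)))))) (b (b (l 4) (b (l 4) (a (l 4) (a (l 4) (a (l 137673837031) (l 16778536)))))) (a (a (b (l 4) (b (l 162369897591) (c (l 16778200) (l 16778176)))) (c (b (l 165054252807) (l 16777560)) (b (c (l 167738607319) (l 169349220039)) (l 16777512)))) (a (b (b (c (l 93113551847) (l 91502939239)) (l 16777960)) (l 16775040)) (b (a (l 16777600) (l 16775696)) (l 16773840)))))))), by decide +kernel⟩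

def k31_pm_011_t : ∃ t, chk3 f_pm_011_t t 72 123 1 = true :=
  ⟨(b (a (l 4) (b (l 4) (b (a (l 4) (b (a (l 4) (a (l 115662129767) (l 32984008999))) (a (a (l 134989482455) (l 46405781927)) (l 16776392)))) (a (a (b (l 4) (a (l 4) (a (l 113514645623) (l 58753812567)))) (b (a (l 188139701447) (l 65733134791)) (l 16778080))) (a (b (l 16777808) (l 16775408)) (l 16774752)))))) (a (b (b (a (l 4) (b (a (l 4) (c (l 156464317495) (l 159685542935))) (c (a (l 165054252263) (l 16778136)) (a (l 168275477703) (l 16778440))))) (a (b (a (l 4) (a (l 4) (l 168812348343))) (b (a (l 4) (a (l 121030837991) (l 16777016))) (a (l 180086637703) (l 16778080)))) (a (b (c (l 14730398199) (c (l 16778224) (l 11509172663))) (l 16775840)) (l 16775832)))) (b (a (b (a (a (c (l 71101843687) (l 69491231079)) (l 16778152)) (l 16775944)) (a (l 16776048) (l 16774824))) (c (l 16773648) (a (b (l 16774656) (l 16773520)) (l 16775464)))) (a (a (b (l 16774928) (l 16775120)) (b (l 16775024) (l 16772600))) (a (a (l 16773560) (l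 16771640)) (l 16772048))))) (b (b (b (a (a (a (l 16778320) (l 16776424)) (l 16775520)) (l 16773704)) (a (l 16775512) (a (l 16773208) (l 16772000)))) (a (a (l 16773968) (c (l 16775480) (l 16772640))) (c (l 16773712) (l 16773408)))) (a (c (b (l 16772600) (l 16769128)) (b (l 16772296) (l 16768712))) (c (c (l 16770584) (l 16770376)) (c (l 16768824) (l 16768560))))))), by decide +kernel⟩

def k32_pm_011_t : ∃ t, chk3 f_pm_011_t t 73 123 1 = true :=
  ⟨(b (a (b (b (b (a (l 4) (a (l 182770992631) (a (l 48553265607) (l 16776712)))) (a (c (l 190287186535) (l 194045282855)) (a (c (l 16778584) (l 29762784039)) (l 16775936)))) (b (a (a (l 4) (a (l 83986745895) (l 16776944))) (l 16775448)) (a (a (a (l 101166615031) (l 16778360)) (l 16776168)) (l 16774360)))) (b (c (a (l 16776488) (c (l 16775496) (l 16775400))) (a (l 16775736) (a (l 16775848) (l 16772000)))) (b (a (l 16773488) (l 16772400)) (a (a (l 16772992) (l 16771792)) (l 16772616))))) (a (a (b (c (l 16774256) (l 16774112)) (c (l 16771968)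 (l 16770968))) (b (c (l 16773080) (l 16772888)) (c (l 16771456) (l 16771056)))) (b (b (a (b (l 16773416) (l 16772336)) (l 16772992)) (c (l 16770272) (l 16769944))) (b (l 16769264) (l 16765784))))) (a (a (b (c (b (l 16773520) (l 16768752)) (b (l 16773200) (l 16768328))) (b (l 16767656) (l 16764144))) (b (b (a (l 16768952) (l 16767760)) (l 16767472)) (b (l 16763968) (l 16761776)))) (b (c (a (l 16767776) (l 16762840)) (a (l 16765888) (l 16762152))) (c (a (l 16760888) (l 16758584)) (c (l 16761736) (l 16759952)))))), by decide +kernel⟩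

def k33_pm_011_t : ∃ t, chk3 f_pm_011_t t 74 61 1 = true :=
  ⟨(a (a (b (b (l 4) (b (b (b (l 4) (a (l 4) (c (l 16778560) (l 53385104295)))) (b (a (c (l 67880618871) (l 66270006247)) (l 16776280)) (l 16777120))) (c (l 16773864) (b (l 16774128) (l 16774552))))) (b (b (b (a (l 16770496) (l 16769304)) (l 16769056)) (c (l 16764776) (l 16764192))) (b (c (l 16760536) (l 16759752)) (l 16757128)))) (b (b (b (l 4) (b (l 4) (a (l 191897799079) (b (l 179012896167) (l 30836525991))))) (b (b (a (b (l 42647686215) (l 16776160)) (l 16775496)) (l 16773960)) (a (b (a (l 16772712) (l 16772112)) (l 16770264)) (b (l 16773848) (l 16769080))))) (b (b (c (l 16769296) (l 16768824)) (c (l 16762464) (l 16761784))) (b (a (l 16758408) (l 16757240)) (l 16753496))))) (a (b (b (b (l 4) (b (b (c (l 168275478439) (l 170959832951)) (a (l 123715194231) (l 16778128))) (c (l 16777824) (c (l 16777120) (l 16777736))))) (b (c (l 16772736) (l 16772544)) (b (a (l 16770040) (l 16768856)) (l 16769928)))) (b (b (c (l 16764368)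 (l 16763792)) (c (l 16760168) (l 16759392))) (b (l 16755496) (l 16751184)))) (b (b (b (b (l 4) (a (c (l 159685543527) (l 162369898039)) (b (l 81302392071) (l 16776560)))) (b (c (l 16778224) (l 16776840)) (l 16773456))) (b (c (b (l 16774072) (l 16769368)) (b (l 16773824) (l 16769032))) (b (l 16769704) (l 16764952)))) (b (b (c (l 16762064) (l 16761400)) (l 16757472)) (b (l 16753184) (l 16748880)))))), by decide +kernel⟩

def k34_pm_011_t : ∃ t, chk3 f_pm_011_t t 75 61 1 = true :=
  ⟨(a (b (a (b (b (b (a (b (l 4) (l 67880619191)) (b (l 53921975399) (l 16776296))) (c (l 16775344) (l 16775264))) (c (l 16772240) (l 16772032))) (b (c (l 16769896) (l 16770336)) (c (l 16763944) (l 16763376)))) (b (b (c (l 16774048) (l 16773920)) (b (c (l 16773576) (l 16770704)) (l 16770040))) (b (c (l 16768408) (l 16765312)) (l 16762648)))) (b (b (c (l 16761256) (l 16760456)) (c (l 16754464) (l 16753472))) (c (b (l 16750288) (l 16746096)) (b (l 16749096) (l 16744704))))) (b (b (b (b (b (l 16773000) (l 16771632))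 (a (a (l 16771168) (l 16769992)) (l 16770856))) (c (a (l 16769584) (l 16765312)) (a (l 16769848) (l 16764840)))) (b (a (c (l 16763488) (l 16762928)) (l 16763528)) (c (l 16760840) (l 16757440)))) (b (c (b (l 16754088) (l 16749944)) (b (l 16753120) (l 16748792))) (b (l 16747784) (a (l 16742024) (b (l 16740840) (l 16738704))))))), by decide +kernel⟩

def k35_pm_011_t : ∃ t, chk3 f_pm_011_t t 38 60 1 = true :=
  ⟨(b (a (l 4) (b (a (l 4) (b (l 4) (a (l 4) (b (l 4) (a (l 191360928167) (a (l 96871649159) (l 45868912119))))))) (a (b (a (l 4) (a (l 4) (b (l 4) (l 159685543495)))) (a (a (b (l 4) (a (l 109756551063) (l 54458846903))) (b (l 179549767767) (l 16779144))) (b (a (c (l 51237621543) (l 51237621655)) (l 16776216)) (l 16774768)))) (b (a (c (b (l 153779963879) (l 16779104)) (b (a (l 4) (l 93650424007)) (c (l 16779080) (l 16779056)))) (a (b (l 16779352) (l 16774728)) (l 16774560))) (c (l 16773648) (l 16773504)))))) (a (b (a (b (l 4) (b (a (l 4) (a (l 182770993335) (a (l 81839263687)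 (l 34057751911)))) (a (a (l 4) (a (l 112440905703) (l 57143201543))) (c (l 16778616) (l 16778568))))) (b (b (a (l 4) (a (a (l 179012896455) (l 83449876391)) (a (l 16779072) (l 16776544)))) (a (a (l 163980510919) (a (l 56606330615) (l 16779464))) (l 16775384))) (a (c (l 16776008) (b (l 16775656) (l 16770288))) (l 16773624)))) (a (b (b (a (c (l 16778904) (c (l 16778872) (l 16778848))) (l 16773920)) (c (l 16773096) (l 16772952))) (b (b (l 16772784) (l 16771752)) (a (a (l 16770640) (l 16769472)) (l 16770336)))) (a (b (l 16771848) (c (l 16769208) (l 16768832))) (c (l 16767632) (b (b (l 16769080) (l 16766992)) (l 16763840)))))) (a (b (a (b (c (l 16774104) (l 16774008)) (l 16769968)) (c (l 16771096) (l 16771024))) (c (b (a (l 16771288) (l 16763760)) (l 16762840)) (b (l 16767112) (l 16762936)))) (b (b (b (l 16770536) (l 16767200)) (c (a (l 16770728) (l 16763192)) (l 16766552))) (b (a (l 16763208) (l 16761552)) (a (l 16757160) (l 16754864))))))), by decide +kernel⟩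

def k36_pm_011_t : ∃ t, chk3 f_pm_011_t t 39 60 1 = true :=
  ⟨(b (a (b (a (a (b (l 4) (b (c (a (l 168812349335) (l 16779784)) (a (l 172570445671) (l 43184558103))) (c (l 16778464) (l 16778424)))) (b (b (l 4) (a (a (l 186529089351) (l 92039810791)) (l 21172850215))) (c (l 16774520) (l 16775752)))) (b (a (b (a (a (l 114588389191) (l 60901297591)) (l 16779184)) (l 16775144)) (l 16773776)) (c (l 16771016) (l 16770832)))) (a (b (a (l 16772808) (c (l 16770544) (l 16770360))) (a (l 16768768) (l 16766448))) (b (b (l 16767928) (l 16765928)) (c (l 16765736) (l 16765344))))) (b (a (c (a (l 16772104) (l 16767128)) (c (l 16770072) (l 16770240))) (b (a (c (l 16766760) (l 16766416)) (l 16766824)) (c (l 16764240) (l 16766360)))) (a (c (l 16763024) (b (l 16764552) (l 16757896))) (b (a (l 16758584) (l 16756192)) (l 16756040))))) (b (c (a (a (l 16763400) (b (l 16759168) (l 16757840))) (a (b (l 16757152) (b (l 16762104) (l 16760152))) (l 16750192))) (a (b (a (l 16765984) (a (l 16759848) (l 16762744)))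 (a (l 16761872) (l 16754608))) (a (b (l 16753896) (l 16755152)) (l 16752288)))) (b (a (a (a (l 16756640) (l 16754344)) (l 16753544)) (a (a (l 16747512) (l 16747840)) (l 16746912))) (a (a (l 16754064) (l 16749520)) (a (l 16742384) (a (l 16738976) (l 16736624))))))), by decide +kernel⟩

def k37_pm_011_t : ∃ t, chk3 f_pm_011_t t 19 61 1 = true :=
  ⟨(a (b (b (b (a (c (a (a (l 16769080) (l 16764816)) (l 16763352)) (a (a (l 16769352) (l 16764352)) (l 16763432))) (a (c (l 16756840) (l 16756128)) (l 16754552))) (a (a (a (c (l 16763024) (l 16762472)) (l 16763064)) (c (l 16757320) (l 16756592))) (a (l 16753712) (l 16747848)))) (a (b (a (c (l 16757784) (l 16757024)) (c (l 16753256) (l 16752352))) (a (c (l 16753680) (l 16752752)) (l 16751304))) (a (c (l 16749344) (l 16748240)) (c (l 16742264) (l 16741048))))) (b (a (a (b (l 16751680) (l 16744848)) (c (l 16743048) (l 16744336))) (a (b (l 16740008) (c (l 16741784) (l 16742848))) (b (l 16740752) (c (l 16742632) (l 16741000))))) (a (b (b (a (l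 16741688) (l 16742408)) (a (l 16739568) (a (l 16736208) (l 16733960)))) (a (a (b (l 16738568) (l 16736456)) (l 16740520)) (l 16731832))) (b (a (l 16736896) (l 16727096)) (l 16730312))))) (b (a (a (b (c (l 16748432) (l 16750056)) (c (l 16737824) (l 16736512))) (b (c (l 16743968) (l 16740264)) (b (l 16734800) (c (l 16731384) (l 16729912))))) (b (a (c (l 16736896) (l 16735744)) (b (l 16736504) (l 16729928))) (b (a (l 16735568) (c (l 16726544) (l 16725128))) (a (l 16731536) (l 16721768))))) (b (b (a (a (c (l 16737032) (l 16740720)) (l 16726600)) (l 16719840)) (a (l 16724608) (l 16715664))) (a (c (l 16719240) (l 16717120)) (l 16714632))))), by decide +kernel⟩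

def k38_pm_011_t : ∃ t, chk3 f_pm_011_t t 36 124 1 = true :=
  ⟨(b (a (b (b (a (a (a (a (l 16773744) (l 16773144)) (l 16771576)) (c (l 16769304) (l 16768896))) (a (a (l 16767312) (l 16766112)) (l 16765632))) (a (c (a (l 16769480) (l 16767128)) (a (l 16769072) (l 16766608))) (a (l 16765800) (l 16762104)))) (a (c (a (b (l 16767296) (l 16765112)) (l 16765176)) (a (c (l 16767088) (l 16766760)) (c (l 16763352) (l 16762960)))) (a (b (l 16762256) (l 16760032)) (b (l 16759888) (l 16757664))))) (a (b (a (c (l 16761216) (l 16760408)) (c (l 16758904) (l 16757992))) (c (l 16757064) (c (l 16754960) (l 16755664)))) (a (b (a (l 16756712) (l 16755544)) (l 16753040)) (b (l 16755104) (l 16749408))))) (b (a (a (a (b (l 16763864) (l 16760304)) (b (l 16760168) (l 16757928))) (a (b (l 16757800) (l 16755560)) (a (l 16754912) (l 16753736)))) (a (c (l 16751432) (c (l 16750472) (l 16749736))) (a (b (l 16748424) (a (l 16746776) (l 16750872))) (b (l 16746096) (a (l 16749736) (l 16743344)))))) (b (a (a (a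 (l 16758048) (l 16755672)) (c (l 16752752) (l 16751464))) (a (a (l 16751240) (b (l 16746848) (l 16751008))) (c (l 16743648) (l 16747216)))) (a (a (c (l 16755168) (l 16755288)) (a (l 16751072) (a (l 16749304) (a (l 16748424) (l 16753088))))) (a (a (a (a (l 16749896) (l 16746704)) (l 16745840)) (l 16744064)) (l 16740584)))))), by decide +kernel⟩

def k39_pm_011_t : ∃ t, chk3 f_pm_011_t t 36 125 1 = true :=
  ⟨(b (a (b (b (a (a (l 16753528) (l 16753120)) (c (a (l 16754760) (l 16747248)) (a (b (l 16748600) (l 16752720)) (l 16745680)))) (a (b (a (l 16751824) (a (l 16750048) (l 16748896))) (a (a (l 16751280) (l 16750096)) (l 16748352))) (l 16748000))) (a (a (a (b (b (l 16750152) (l 16749000)) (l 16747280)) (l 16747240)) (l 16746792)) (c (l 16742832) (l 16741024)))) (c (a (b (l 16742688) (l 16738272)) (b (l 16738144) (l 16733752))) (a (b (l 16740912) (l 16736272)) (b (l 16736184) (l 16731568))))) (a (c (a (b (l 16742944) (l 16738464)) (b (l 16738376) (l 16733920))) (a (b (c (l 16741600)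 (l 16740600)) (c (l 16736944) (l 16735824))) (b (l 16736344) (l 16731656)))) (c (a (b (l 16733848) (l 16729408)) (b (l 16729352) (l 16724936))) (a (b (l 16731624) (l 16726960)) (b (l 16726944) (l 16722304)))))), by decide +kernel⟩

def k40_pm_011_t : ∃ t, chk3 f_pm_011_t t 37 62 1 = true :=
  ⟨(b (a (a (b (b (c (l 16750904) (l 16749640)) (a (l 16747104) (b (l 16745896) (a (l 16744264) (l 16743128))))) (b (a (b (a (l 16744376) (l 16743248)) (l 16741584)) (l 16740408)) (l 16739704))) (b (b (c (l 16746384) (l 16744944)) (a (b (l 16743576) (l 16746680)) (a (b (l 16741888) (l 16739688)) (l 16744912)))) (b (l 16736936) (l 16732504)))) (a (b (b (a (b (l 16743368) (l 16746440)) (b (l 16741072) (l 16738944))) (l 16739408)) (c (l 16731168) (l 16734280))) (b (b (c (l 16744000) (a (l 16742104) (l 16734496))) (l 16732208)) (c (l 16726720) (l 16724432))))) (b (a (a (b (l 16735240) (l 16730768)) (b (l 16728064) (l 16723616))) (c (a (l 16722552) (l 16718144)) (b (l 16725200) (l 16715432)))) (a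 (b (c (l 16727912) (a (l 16722312) (l 16717712))) (c (a (l 16725712) (l 16716096)) (a (b (l 16718848) (l 16716528)) (b (l 16714256) (l 16712000))))) (b (c (a (l 16716040) (l 16711680)) (a (l 16713128) (l 16719120))) (c (l 16720040) (a (l 16708632) (l 16704104))))))), by decide +kernel⟩

def k41_pm_011_t : ∃ t, chk3 f_pm_011_t t 19 62 1 = true :=
  ⟨(a (b (a (a (b (a (l 16730984) (l 16728728)) (c (l 16722296) (l 16719864))) (b (c (l 16726352) (l 16724208)) (l 16721928))) (b (c (l 16724968) (l 16722640)) (c (l 16711344) (l 16708600)))) (b (a (a (c (l 16713768) (l 16710912)) (b (l 16710184) (l 16716296))) (c (b (l 16705040) (l 16700864)) (b (l 16701960) (l 16708088)))) (a (a (b (l 16711104) (l 16701424)) (l 16704536)) (c (l 16694480) (l 16690920))))) (b (a (b (c (l 16710968) (l 16708432)) (c (l 16702696) (l 16699744))) (b (l 16711520) (a (l 16694792) (l 16700984)))) (a (b (b (c (l 16696488) (l 16693224)) (l 16690680)) (l 16684256)) (b (l 16684304) (l 16675848))))), by decide +kernel⟩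

def k42_pm_011_t : ∃ t, chk3 f_pm_011_t t 18 63 1 = true :=
  ⟨(b (a (b (a (b (a (c (l 16733960) (c (l 16732272) (l 16731032))) (a (l 16729400) (b (l 16728248) (a (l 16726512) (l 16725368))))) (a (b (c (l 16735800) (a (l 16729272) (l 16726912))) (a (l 16728232) (l 16725904))) (a (b (l 16729224) (l 16723608)) (l 16722496)))) (b (c (a (b (l 16726056) (l 16723848)) (l 16725760)) (a (b (l 16723432) (l 16726360)) (b (l 16718816) (l 16716472)))) (c (l 16722808) (a (l 16717560) (l 16712952))))) (b (a (c (a (l 16724856) (l 16720368)) (a (l 16722120) (l 16717448))) (a (a (l 16715560) (l 16713304)) (l 16709936))) (a (c (a (l 16720248) (l 16715784)) (a (l 16717304) (l 16712656))) (c (a (l 16711360) (l 16706976)) (a (l 16708064) (l 16703512)))))) (b (a (a (b (l 16719888) (l 16710064)) (b (l 16710160) (l 16705632))) (c (a (l 16705112) (l 16700800)) (a (l 16701704) (l 16697256)))) (a (a (b (l 16705488) (l 16700880)) (b (l 16701072) (l 16696504))) (a (b (l 16696704) (l 16697376)) (b (l 16692368)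 (a (l 16688896) (l 16686752))))))) (b (a (a (a (b (c (l 16715600) (c (l 16713272) (l 16711584))) (c (l 16716200) (b (l 16708832) (l 16706352)))) (b (b (l 16710752) (a (l 16709496) (l 16707256))) (l 16704800))) (b (b (a (l 16706264) (l 16701800)) (a (a (l 16705024) (l 16702808)) (l 16699496))) (c (l 16699944) (l 16696184)))) (a (b (b (a (a (l 16698496) (l 16696312)) (l 16693064)) (l 16692896)) (l 16689384)) (a (b (l 16687592) (l 16682936)) (l 16680984)))) (b (a (a (c (l 16703960) (l 16700368)) (c (l 16695256) (l 16691336))) (a (l 16684672) (l 16676152))) (a (a (c (l 16704424) (l 16700672)) (c (l 16690536) (l 16686456))) (a (l 16690416) (l 16671472)))))), by decide +kernel⟩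

def k43_pm_011_t : ∃ t, chk3 f_pm_011_t t 19 63 1 = true :=
  ⟨(b (b (a (a (a (l 16694768) (l 16690464)) (c (l 16685952) (l 16682000))) (a (l 16675656) (l 16667368))) (a (a (b (l 16691184) (a (l 16694048) (l 16679352))) (b (l 16677488) (c (l 16675216) (l 16670784)))) (a (b (l 16669136) (l 16664816)) (b (l 16660968) (l 16656656))))) (a (b (a (l 16674656) (l 16666352)) (a (c (l 16667824) (l 16662992)) (l 16657312))) (b (a (l 16658184) (l 16650144)) (a (l 16649272) (l 16641376))))), by decide +kernel⟩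

def k44_pm_011_t : ∃ t, chk3 f_pm_011_t t 20 28 1 = true :=
  ⟨(l 4), by decide +kernel⟩

def k45_pm_011_t : ∃ t, chk3 f_pm_011_t t 21 56 1 = true :=
  ⟨(l 4), by decide +kernel⟩

def k46_pm_011_t : ∃ t, chk3 f_pm_011_t t 42 57 1 = true :=
  ⟨(b (l 4) (a (l 4) (b (l 4) (a (b (l 4) (b (l 4) (a (l 4) (a (l 172033574551) (a (l 59827555847) (l 16776736)))))) (b (a (c (l 195655897767) (l 199950864951)) (c (b (l 167738607815) (l 22246593223)) (b (l 172033575047) (a (l 52848234599) (l 16776000))))) (a (b (a (b (l 150558739847) (l 56069458903)) (l 16778504)) (l 16775168)) (l 16774960))))))), by decide +kernel⟩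

def k47_pm_011_t : ∃ t, chk3 f_pm_011_t t 43 57 1 = true :=
  ⟨(b (a (b (l 4) (a (l 4) (a (l 4) (b (l 4) (b (l 4) (c (l 164517382135) (l 168275478455))))))) (b (a (l 4) (b (l 4) (a (c (l 190824059095) (b (l 4) (l 185455348263))) (c (b (a (l 4) (l 80228651543)) (l 16778960)) (b (l 159685543463) (l 16778920)))))) (b (a (a (l 4) (a (c (l 178476026775) (l 182234123079)) (b (l 204245830135) (a (l 42110815383) (l 16776480))))) (a (b (a (a (l 102777229239) (l 48016394359)) (l 16776240)) (l 16774880)) (l 16773968))) (a (a (b (a (l 196192766167) (b (l 112977776055) (l 16776856))) (c (l 16776016) (l 16775960))) (c (l 16774488) (l 16774384))) (a (b (l 16775504) (l 16770880)) (l 16770632)))))) (a (b (a (b (l 4) (a (b (l 4) (a (l 199950862775) (a (l 99019132807) (l 45868912007)))) (a (b (l 169349219879) (l 16776240)) (c (l 16778624) (l 16778568))))) (b (a (a (b (l 4) (b (l 145726901735) (l 16778464))) (b (l 182770993047) (l 16777752))) (a (b (b (l 93113552199) (l 16776672)) (l 16775168)) (l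 16774896))) (c (l 16772888) (l 16772720)))) (a (a (b (c (l 16777792) (b (l 16778728) (l 16771448))) (c (l 16776488) (l 16776248))) (c (l 16770728) (l 16770472))) (b (a (l 16772040) (l 16767544)) (c (l 16765056) (l 16764592))))) (c (b (a (b (l 16771816) (l 16773144)) (a (l 16768720) (l 16763600))) (a (l 16764664) (l 16757072))) (b (a (b (l 16771616) (l 16770176)) (b (l 16771672) (l 16762392))) (a (c (l 16766872) (l 16763960)) (l 16756352)))))), by decide +kernel⟩

def k48_pm_011_t : ∃ t, chk3 f_pm_011_t t 20 58 1 = true :=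
  ⟨(a (l 4) (b (a (l 4) (b (l 4) (a (l 4) (b (l 4) (a (c (l 187602833911) (l 191897801095)) (c (b (l 161833027687) (l 16779232)) (b (l 165054253095) (c (l 16779200) (l 16779504))))))))) (a (b (a (l 4) (a (l 4) (b (l 4) (b (l 4) (c (l 151632480055) (l 155390576375)))))) (a (b (a (l 4) (c (l 189750317959) (l 194045285127))) (a (b (l 4) (a (l 167201736439) (a (l 59290685111) (l 16776832)))) (b (a (a (l 130694516711) (l 76470554295)) (l 16778664)) (l 16775296)))) (b (a (b (c (l 171496704599) (l 174717930007)) (a (a (l 90966069095) (l 16779104)) (l 16776264))) (a (c (l 16778680) (l 16779272)) (l 16774800))) (c (l 16772688) (l 16772504))))) (b (a (b (a (l 4) (a (c (l 172033575927) (l 175791672231)) (b (l 4) (a (l 45332041063) (l 16776608))))) (b (a (a (l 185455347863) (a (l 82376134439) (l 16778360))) (l 16775520)) (c (l 16777408) (l 16777304)))) (b (a (b (a (a (l 109756551207) (l 58216943143)) (l 16779072)) (l 16775056)) (l 16773576)) (b (l 16774416) (c (l 16775160) (l 16774864)))))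 (b (a (c (l 16771808) (l 16771584)) (c (l 16772200) (l 16771776))) (a (c (l 16770472) (l 16772704)) (l 16762728))))))), by decide +kernel⟩

def k49_pm_011_t : ∃ t, chk3 f_pm_011_t t 40 59 1 = true :=
  ⟨(b (a (b (l 4) (a (a (l 4) (b (l 4) (b (l 4) (c (l 157001189495) (l 160759285815))))) (a (b (l 4) (a (b (l 4) (l 16778752)) (b (a (l 100092874663) (l 16778984)) (l 16775592)))) (b (b (l 4) (a (l 170959832935) (a (l 64659394375) (l 16776904)))) (c (l 16774816) (l 16777344)))))) (b (a (b (l 4) (a (l 4) (c (b (l 175254801207) (l 30299657367)) (b (l 179549768423) (a (l 67343749511) (l 16776368)))))) (b (b (a (l 4) (a (l 190824057271) (a (l 97408520023) (l 46405782919)))) (a (c (l 156464318567) (l 160222414887)) (c (l 16776176) (l 16778744)))) (a (b (c (l 16779208) (l 12582916727)) (l 16774552)) (l 16773112)))) (a (b (a (b (a (a (l 138210709447) (l 81839263607)) (l 16778760)) (l 16775384)) (l 16773952)) (c (l 16771224) (l 16770992))) (b (b (l 16771296) (c (l 16774656) (l 16774344))) (c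 (l 16769048) (l 16771248)))))) (a (a (b (b (a (c (b (l 174717930263) (l 29762786247)) (b (l 178476026567) (a (l 65196265751) (l 16776352)))) (a (b (l 41037074439) (l 16775168)) (l 16774968))) (c (l 16772792) (l 16772632))) (b (a (b (l 16776128) (l 16768856)) (l 16770072)) (a (l 16768448) (l 16763408)))) (b (a (c (l 16772528) (l 16772304)) (b (b (l 16776968) (l 16769696)) (l 16769280))) (b (c (l 16766672) (l 16768816)) (l 16761104)))) (a (b (b (a (l 16770896) (l 16765840)) (c (l 16763264) (l 16762736))) (b (l 16758984) (l 16754960))) (b (b (c (l 16762456) (l 16761888)) (l 16758160)) (c (l 16752568) (l 16751648)))))), by decide +kernel⟩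

def k50_pm_011_t : ∃ t, chk3 f_pm_011_t t 41 59 1 = true :=
  ⟨(a (b (b (a (a (b (c (l 16774760) (l 16774656)) (c (l 16776024) (l 16775760))) (b (l 16772248) (l 16770816))) (b (a (l 16772408) (l 16767320)) (c (l 16764752) (l 16764256)))) (b (a (c (l 16770848) (l 16770384)) (l 16760488)) (a (l 16763968) (l 16756464)))) (b (a (c (l 16757016) (l 16760120)) (c (l 16750944) (l 16749920))) (a (c (l 16747832) (l 16746720)) (c (l 16743096) (l 16741800))))) (a (b (b (b (a (l 16764864) (l 16762400)) (l 16759608)) (c (l 16754040) (l 16753120))) (b (c (l 16746200) (l 16744984)) (l 16739632))) (b (b (c (l 16759728) (l 16756296)) (c (l 16749264) (l 16748152))) (b (c (l 16741456) (l 16740048)) (l 16738104))))), by decide +kernel⟩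

def k51_pm_011_t : ∃ t, chk3 f_pm_011_t t 21 58 1 = true :=
  ⟨(b (b (a (a (a (l 4) (b (a (l 4) (a (l 4) (c (l 172570446679) (l 176328542983)))) (a (a (b (l 4) (a (l 122641453047) (l 66806877927))) (b (l 185455347783) (l 16777856))) (a (b (a (l 77544296423) (l 16778296)) (l 16775296)) (l 16776360))))) (a (b (a (b (a (l 198340250103) (a (l 103850970951) (l 50163879271))) (c (l 16778824) (l 16778768))) (c (l 16774720) (l 16774616))) (c (l 16772016) (l 16771808))) (a (c (l 16770288) (l 16770016)) (b (l 16772264) (l 16765648))))) (a (a (b (a (l 16767136) (l 16764624)) (l 16764520)) (c (l 16759208) (l 16763768))) (c (a (l 16754280) (l 16749352)) (a (l 16753432) (l 16748344))))) (a (a (a (b (b (a (l 4) (a (l 167738607207) (a (l 56606330343) (l 16776720)))) (a (a (l 194582153623) (a (l 96334778263) (l 44258299255))) (l 16776960))) (a (c (l 16777784) (l 16777688)) (l 16772624))) (c (b (l 16772984) (l 16774288)) (b (l 16772816) (l 16773952)))) (a (b (c (l 16773328) (l 16772960)) (l 16766528))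 (c (l 16766472) (l 16763216)))) (a (c (a (l 16756344) (l 16751456)) (a (l 16755528) (l 16750472))) (c (l 16749360) (l 16745520))))) (a (a (b (a (c (l 16770640) (a (b (l 16776200) (l 16766848)) (l 16771616))) (b (l 16766840) (l 16760872))) (a (b (l 16761816) (l 16757808)) (c (l 16755320) (l 16754432)))) (a (b (a (l 16761784) (l 16756688)) (c (l 16750496) (l 16749424))) (b (c (l 16753440) (l 16752496)) (l 16747696)))) (a (a (b (l 16753288) (l 16740184)) (b (l 16743120) (l 16735296))) (b (c (l 16736464) (l 16734960)) (c (l 16728840) (l 16727056)))))), by decide +kernel⟩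

def k52_pm_011_t : ∃ t, chk3 f_pm_011_t t 21 59 1 = true :=
  ⟨(a (b (a (a (b (c (l 16752304) (l 16751304)) (c (l 16744504) (l 16743200))) (b (c (l 16747512) (l 16746328)) (l 16741648))) (a (b (l 16744688) (l 16734200)) (b (l 16737208) (l 16729376)))) (a (a (b (l 16738584) (l 16728080)) (b (l 16731152) (l 16723304))) (b (c (l 16724952) (l 16722920)) (c (l 16717288) (l 16714984))))) (b (a (b (c (l 16730800) (l 16729016)) (c (l 16723168) (l 16721104))) (c (b (l 16721264) (l 16713720)) (b (l 16719192) (l 16711376)))) (a (c (b (l 16715568) (l 16707992)) (b (l 16713224) (l 16705368))) (a (b (l 16707312) (b (l 16701584) (c (l 16699168) (l 16696264)))) (b (l 16702576) (b (l 16707360) (l 16693112))))))), by decide +kernel⟩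

def k53_pm_011_t : ∃ t, chk3 f_pm_011_t t 44 56 1 = true :=
  ⟨(b (a (l 4) (l 4)) (b (a (l 4) (a (b (l 4) (a (c (l 207467058311) (l 211225154567)) (b (c (l 181160380919) (l 184918477239)) (a (a (l 100629745479) (l 45332040727)) (l 16776152))))) (a (b (b (l 4) (a (l 210688281191) (a (l 110293421911) (l 53921975367)))) (c (l 16777848) (l 16777784))) (b (a (b (a (l 4) (l 113514647463)) (l 16776240)) (c (l 16775952) (l 16778528))) (l 16772568))))) (a (a (b (l 4) (a (l 4) (c (l 201561477863) (l 205856445047)))) (a (b (l 4) (c (b (l 169886091367) (l 16779232)) (b (l 173644187687) (l 16779520)))) (b (b (l 4) (a (l 201561475335) (a (l 90966068951) (l 16778664)))) (c (l 16775032) (l 16777584))))) (a (b (a (a (b (a (l 147337515095) (l 96334778087)) (l 16776056)) (c (l 16775784) (l 16775728))) (l 16773800)) (b (l 16773408) (l 16771408))) (c (l 16770632) (l 16770360)))))), by decide +kernel⟩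

def k54_pm_011_t : ∃ t, chk3 f_pm_011_t t 45 56 1 = true :=
  ⟨(b (a (b (a (l 4) (b (l 4) (a (l 4) (c (b (l 194045283303) (l 44795171943)) (b (l 197266508711) (l 45332041575)))))) (a (b (a (l 4) (a (l 4) (c (l 167201736951) (l 170422962359)))) (a (c (b (l 189213444903) (l 40500204455)) (b (l 192971541223) (l 42110815895))) (c (l 16777984) (l 16777928)))) (b (b (a (a (l 135526355975) (a (l 67343748343) (l 16776728))) (l 16775056)) (c (l 16774408) (l 16774336))) (c (l 16771424) (l 16771280))))) (b (a (b (b (a (l 4) (c (l 79154911287) (c (l 79691782151) (l 80228653047)))) (a (c (l 111904037687) (l 166127994647)) (l 16777080))) (a (c (l 16778072) (l 16778016)) (l 16772736))) (c (b (l 16772800) (l 16768816)) (b (l 16772696) (l 16768616)))) (a (c (b (l 16770136) (l 16766168)) (b (l 16769960) (l 16765896))) (c (l 16762864) (l 16762520))))) (a (b (a (a (c (l 16772016) (l 16771872)) (b (l 16771312) (l 16769936))) (c (l 16768120) (l 16765192))) (a (b (c (l 16764808) (l 16764456)) (l 16760656))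 (c (l 16760264) (l 16759744)))) (a (b (b (a (l 16763360) (l 16760704)) (l 16758048)) (c (l 16752416) (l 16751792))) (a (b (c (l 16756288) (l 16761040)) (l 16748128)) (b (l 16753384) (l 16748096)))))), by decide +kernel⟩

def k55_pm_011_t : ∃ t, chk3 f_pm_011_t t 23 56 1 = true :=
  ⟨(a (b (a (a (b (c (l 16765480) (l 16765200)) (c (l 16758872) (l 16759064))) (a (c (l 16760128) (l 16759672)) (b (l 16759888) (l 16750592)))) (b (c (l 16754656) (l 16754104)) (a (a (l 16747888) (l 16745176)) (l 16741088)))) (a (b (c (a (l 16749688) (l 16744384)) (l 16748648)) (a (c (l 16741872) (l 16741072)) (l 16736144))) (c (b (l 16736360) (l 16728608)) (b (l 16735480) (l 16727576))))) (b (a (b (a (l 16743520) (l 16737968)) (c (l 16733288) (l 16732400))) (c (b (l 16729992) (l 16722224)) (b (l 16729120) (l 16721208)))) (a (c (b (l 16725536) (l 16717848)) (b (l 16724496) (l 16716664))) (c (b (l 16714528) (l 16706904)) (b (l 16713376) (l 16705616)))))), by decide +kernel⟩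

def k56_pm_011_t : ∃ t, chk3 f_pm_011_t t 11 57 1 = true :=
  ⟨(b (b (a (a (a (a (b (a (b (l 4) (a (l 182234122055) (b (l 89355455687) (l 16776608)))) (b (a (a (l 131768258631) (l 73786198983)) (l 16777840)) (l 16775168))) (c (a (l 16774784) (l 16777488)) (a (l 16774704) (l 16777320)))) (c (b (l 16772360) (l 16773680)) (b (l 16772208) (l 16770768)))) (c (a (b (l 16772496) (l 16763336)) (l 16762792)) (a (b (l 16769568) (l 16762904)) (l 16762288)))) (a (c (a (l 16755032) (l 16749864)) (a (l 16754400) (l 16749120))) (c (l 16744664) (l 16743784)))) (a (a (a (l 16736280) (l 16728336)) (a (l 16723008) (l 16717664))) (a (a (l 16712280) (l 16706856)) (l 16698656)))) (a (a (b (a (a (a (c (l 16776096) (l 16775880)) (l 16770800)) (a (l 16765600) (l 16763032))) (a (l 16759160) (l 16754000))) (a (a (c (l 16765680) (l 16770528)) (l 16760352)) (c (l 16753016) (l 16752264)))) (a (c (l 16747344) (l 16746424)) (c (l 16734384) (l 16733288)))) (a (a (c (l 16723880) (l 16722680)) (c (l 16713296) (l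 16711976))) (a (l 16701960) (l 16691120))))) (b (a (a (a (a (c (l 16762456) (l 16761856)) (c (l 16754800) (l 16754056))) (a (a (l 16750608) (l 16748048)) (l 16746832))) (a (a (l 16739080) (l 16733928)) (a (l 16728752) (l 16723552)))) (a (a (l 16720920) (c (l 16705784) (l 16704320))) (a (l 16694424) (l 16683664)))) (a (a (a (a (c (l 16752088) (l 16751216)) (l 16749224)) (c (l 16739576) (l 16738384))) (a (c (l 16729480) (l 16728096)) (c (l 16719288) (l 16717752)))) (a (a (l 16708152) (l 16697600)) (a (l 16686968) (l 16676296)))))), by decide +kernel⟩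

def k57_pm_011_t : ∃ t, chk3 f_pm_011_t t 11 29 1 = true :=
  ⟨(a (b (a (b (a (c (b (l 16747168) (l 16734304)) (b (l 16745952) (l 16732816))) (c (b (l 16731976) (l 16724440)) (b (l 16730528) (l 16722736)))) (b (a (c (l 16726728) (l 16724968)) (l 16721240)) (a (c (l 16719200) (l 16717168)) (l 16708432)))) (b (a (b (l 16726416) (l 16713600)) (c (l 16708160) (l 16711528))) (a (c (l 16703440) (l 16711680)) (c (l 16693560) (l 16691216))))) (a (b (a (c (b (l 16711712) (l 16704264)) (l 16716024)) (b (l 16700912) (c (l 16705280) (l 16692008)))) (a (a (b (l 16708320) (c (l 16712744) (l 16688768))) (b (b (l 16694984) (l 16701720)) (l 16685632))) (b (a (b (l 16690240) (l 16686520)) (l 16704616)) (l 16678616)))) (b (a (b (l 16691216) (a (a (l 16697936) (l 16695536)) (a (l 16703616) (l 16680240)))) (b (a (l 16704880) (l 16689488)) (l 16674200))) (a (l 16680744) (l 16673888))))) (b (a (b (a (c (l 16697944) (l 16696016)) (l 16697088)) (a (b (l 16686016) (c (l 16680024) (l 16677512))) (b (l 16675808)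 (c (l 16669816) (l 16667408))))) (b (a (c (l 16676944) (l 16675072)) (b (l 16669008) (l 16667088))) (b (a (l 16675848) (l 16654744)) (l 16663656)))) (a (a (b (b (b (l 16694344) (l 16669808)) (l 16664464)) (l 16653848)) (b (l 16658104) (l 16644192))) (b (a (l 16648024) (l 16637760)) (a (l 16634400) (l 16624432)))))), by decide +kernel⟩

def k58_pm_011_t : ∃ t, chk3 f_pm_011_t t 20 30 1 = true :=
  ⟨(b (b (a (b (b (a (a (a (l 16761792) (l 16759392)) (l 16755776)) (a (l 16750952) (l 16746136))) (a (a (l 16759208) (l 16751776)) (c (l 16747720) (l 16749200)))) (a (a (c (l 16753624) (l 16755400)) (c (l 16746288) (l 16745264))) (a (c (l 16741584) (l 16740368)) (l 16741456)))) (a (a (b (c (l 16739984) (l 16738616)) (l 16731432)) (b (l 16739784) (l 16726656))) (a (b (l 16729752) (l 16721896)) (b (l 16724984) (l 16717144))))) (a (b (a (a (c (l 16743200) (l 16742168)) (l 16740560)) (a (l 16733144) (l 16728360))) (a (a (c (l 16735496) (l 16734304)) (l 16730160)) (b (l 16724920) (a (l 16723432)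 (l 16729136))))) (b (a (a (l 16723592) (c (l 16730256) (l 16728208))) (b (a (l 16716032) (c (l 16712416) (l 16710048))) (a (c (l 16713216) (l 16710952)) (l 16707432)))) (a (b (a (l 16728224) (l 16723504)) (l 16721984)) (l 16703952))))) (a (b (b (b (a (a (l 16729208) (l 16729624)) (a (l 16730080) (l 16714760))) (a (a (a (l 16726544) (l 16724192)) (l 16720560)) (l 16713256))) (a (a (b (l 16721384) (l 16717280)) (l 16719888)) (l 16707408))) (b (a (a (l 16711080) (l 16717120)) (a (l 16702024) (l 16697264))) (a (l 16700616) (a (l 16694064) (l 16689520))))) (b (a (b (l 16705640) (l 16697880)) (b (l 16696224) (l 16688520))) (a (b (l 16690160) (l 16682488)) (l 16687512))))), by decide +kernel⟩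

def k59_pm_011_t : ∃ t, chk3 f_pm_011_t t 21 30 1 = true :=
  ⟨(b (a (b (a (b (c (l 16718920) (l 16716696)) (b (c (l 16723632) (l 16710720)) (a (l 16720944) (c (l 16707040) (l 16704432))))) (b (a (l 16710768) (b (l 16708000) (c (l 16705440) (l 16702712)))) (b (a (c (l 16716728) (l 16703568)) (l 16700312)) (l 16698784)))) (a (b (a (b (l 16706616) (l 16702728)) (l 16699992)) (l 16694624)) (c (l 16701192) (l 16687592)))) (b (b (a (a (b (l 16713784) (l 16709976)) (b (c (l 16700024) (l 16697152)) (l 16694824))) (l 16700256)) (a (l 16691440) (l 16682240))) (a (c (l 16681696) (l 16678312)) (l 16684112)))) (b (a (a (b (l 16686952) (l 16679312)) (b (l 16677808) (l 16670240))) (a (l 16686000) (l 16656136))) (a (b (l 16675056) (a (l 16664112) (l 16655216))) (b (a (l 16653824) (l 16645072)) (a (l 16646448) (l 16637760)))))), by decide +kernel⟩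

def k60_pm_011_t : ∃ t, chk3 f_pm_011_t t 10 31 1 = true :=
  ⟨(a (b (b (b (a (a (l 16692376) (a (l 16685936) (l 16692096))) (a (b (l 16676752) (l 16693928)) (l 16665680))) (a (a (b (l 16686168) (l 16682088)) (l 16675704)) (a (l 16667112) (l 16658120)))) (a (b (a (l 16675848) (l 16667504)) (a (l 16667536) (l 16659328))) (a (b (l 16659240) (l 16651208)) (b (l 16650616) (l 16663976))))) (b (a (b (a (l 16659184) (l 16651064)) (a (l 16650808) (l 16642824))) (b (a (l 16643096) (l 16656184)) (l 16631088))) (a (a (l 16637920) (l 16630192)) (l 16629296)))) (b (b (a (a (l 16652912) (l 16644056)) (a (l 16635392) (l 16626864))) (a (a (l 16638024) (l 16629344)) (b (l 16620264) (l 16613040)))) (b (a (b (a (l 16647928) (l 16618424)) (l 16615192)) (l 16623336)) (a (a (l 16607640) (l 16599944)) (l 16587944))))), by decide +kernel⟩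

def k61_pm_011_t : ∃ t, chk3 f_pm_011_t t 11 15 1 = true :=
  ⟨(b (a (b (a (b (a (c (l 16678416) (l 16675040)) (l 16678072)) (a (l 16682960) (l 16652992))) (a (b (l 16658376) (l 16644008)) (b (l 16649136) (l 16635016)))) (b (a (a (l 16647320) (b (l 16642144) (l 16634944))) (b (a (l 16633336) (l 16624520)) (a (l 16626256) (l 16617576)))) (a (b (a (l 16636424) (l 16627808)) (l 16624928)) (l 16632432)))) (b (a (b (c (l 16657856) (l 16633312)) (a (l 16625968) (l 16616856))) (b (l 16637104) (b (l 16606264) (l 16620720)))) (a (b (b (a (l 16615672) (l 16606768)) (l 16604480)) (l 16594432)) (b (l 16610960) (l 16577192))))) (a (b (b (a (l 16635240) (l 16597712)) (a (b (l 16603728) (l 16596736)) (b (l 16587536) (l 16580808)))) (a (b (l 16586320) (l 16572400)) (l 16590256))) (b (b (a (l 16581224) (l 16564600)) (a (b (l 16571456) (l 16565016)) (l 16573200))) (a (l 16569944) (l 16533920))))), by decide +kernel⟩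

def k62_pm_011_t : ∃ t, chk3 f_pm_011_t t 6 12 1 = true :=
  ⟨(a (b (l 4) (a (l 4) (b (l 4) (a (l 4) (b (l 4) (a (b (l 4) (a (l 4) (l 245584888199))) (b (a (l 4) (a (a (l 4) (l 1)) (l 1))) (c (a (b (l 169349218839) (l 16780992)) (l 16771784)) (a (b (l 177402281559) (l 11509178023)) (l 16771744)))))))))) (b (l 1) (a (b (l 1) (a (b (l 1) (a (b (l 1) (c (l 16773504) (l 16773400))) (l 1))) (l 1))) (l 1)))), by decide +kernel⟩

def k63_pm_011_t : ∃ t, chk3 f_pm_011_t t 24 26 1 = true :=
  ⟨(b (l 4) (a (b (l 4) (a (l 4) (b (l 4) (a (b (l 4) (a (l 4) (c (l 183307865031) (l 190824056567)))) (b (a (l 231089376663) (b (l 130694520375) (l 16779328))) (a (b (l 70028104407) (l 16775440)) (l 16773536))))))) (b (a (b (l 4) (a (l 4) (b (l 4) (a (l 4) (c (l 98482267351) (l 154316833383)))))) (a (b (l 4) (a (b (l 199950861927) (l 16778448)) (b (b (l 79691782311) (l 16775640)) (l 16772504)))) (b (b (c (l 193508411943) (l 202098344951)) (a (b (l 130694520503) (l 16779480)) (l 16774896))) (c (l 16770176)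 (l 16770104))))) (a (b (a (b (a (l 4) (l 220351957415)) (a (c (l 115662137351) (l 174717928551)) (c (l 16776056) (l 16778648)))) (b (a (b (l 106535328679) (l 16776200)) (l 16774272)) (l 16771576))) (a (c (l 16771256) (b (l 16773280) (l 16769072))) (c (l 16765392) (l 16765248)))) (b (a (c (l 16767800) (l 16767696)) (l 16764464)) (c (l 16760544) (l 16760304))))))), by decide +kernel⟩

def k64_pm_011_t : ∃ t, chk3 f_pm_011_t t 25 26 1 = true :=
  ⟨(b (a (b (a (l 4) (b (l 4) (a (l 4) (a (c (l 192971540023) (l 202635214903)) (b (l 213372633623) (l 16778456)))))) (a (b (a (l 4) (c (l 218204474647) (l 229478761207))) (b (a (l 4) (a (a (l 202098344711) (l 73786201383)) (l 16775424))) (a (a (l 225183794583) (c (l 57143205239) (l 57680074807))) (l 16772760)))) (b (a (b (a (l 252027339799) (c (l 71101849671) (l 72175591447))) (c (l 16780352) (a (l 16779208) (l 16773536)))) (c (l 16771168) (l 16771120))) (a (c (l 16768904) (l 16768832)) (l 16768184))))) (b (a (b (b (a (l 4) (a (l 178476024007)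 (l 16778760))) (a (c (l 163980509991) (l 171496701831)) (l 16773536))) (a (a (a (b (l 74859944439) (l 16773560)) (l 16776104)) (l 16771880)) (l 16772672))) (b (a (c (l 16769640) (l 16769584)) (l 16768960)) (c (l 16769144) (l 16769000)))) (a (b (c (l 16772792) (l 16767432)) (c (l 16764680) (l 16764480))) (c (c (l 16757144) (l 16757016)) (c (l 16756888) (l 16756752)))))) (a (b (a (a (b (b (c (l 16779864) (b (l 16780880) (l 16773520))) (l 16770432)) (l 16767496)) (b (c (l 16766608) (l 16766512)) (l 16763552))) (c (b (l 16763016) (l 16760096)) (b (l 16762840) (l 16759832)))) (a (c (b (l 16758376) (l 16750184)) (b (l 16758120) (l 16749824))) (c (c (l 16747976) (l 16747776)) (a (l 16750392) (l 16734048))))) (b (a (c (c (l 16752592) (l 16752432)) (a (l 16755120) (l 16738784))) (c (l 16740992) (l 16740560))) (a (c (l 16733704) (l 16735808)) (c (l 16724920) (l 16724288)))))), by decide +kernel⟩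

def k65_pm_011_t : ∃ t, chk3 f_pm_011_t t 24 27 1 = true :=
  ⟨(b (a (b (b (b (a (l 4) (a (a (b (l 209077668087) (l 50700749527)) (l 16777864)) (l 16770824))) (a (a (l 4) (a (c (l 194045284375) (l 204245830183)) (a (a (l 91502941495) (l 56606329719)) (l 16778816)))) (a (l 16772504) (l 16766648)))) (a (a (a (b (l 4) (b (a (l 4) (l 16779352)) (l 16776224))) (b (c (l 99019137415) (l 153779962007)) (l 16774344))) (b (c (l 16776832) (a (l 16775632) (l 16772672))) (l 16769968))) (a (c (l 16766304) (l 16766144)) (l 16762352)))) (a (a (b (c (l 16769584) (l 16769456)) (l 16763192)) (b (c (l 16763808) (l 16763600)) (l 16758040))) (a (b (l 16760512) (l 16749632)) (b (l 16752080) (l 16743840))))) (b (a (a (b (c (l 16762960) (l 16762776)) (l 16757168)) (b (l 16759624) (l 16748712))) (c (b (l 16753632) (l 16745440)) (b (l 16753280) (l 16739720)))) (a (c (b (l 16746208) (l 16736760)) (b (l 16748360) (l 16734856))) (a (b (l 16734648) (l 16726488)) (b (l 16728848) (l 16720712)))))) (a (b (a (c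 (b (l 16752968) (l 16742304)) (b (l 16752536) (l 16741728))) (c (a (l 16740312) (l 16734584)) (b (l 16738272) (l 16730136)))) (a (c (b (l 16734344) (l 16726464)) (b (l 16733640) (l 16725632))) (c (b (l 16722240) (l 16715064)) (b (l 16722080) (l 16714128))))) (b (a (a (b (l 16729920) (l 16721872)) (b (l 16724160) (l 16716144))) (a (b (l 16718408) (l 16710416)) (b (l 16712664) (l 16704696)))) (a (c (b (l 16711520) (l 16703712)) (b (l 16710584) (l 16702680))) (c (b (l 16700176) (l 16692416)) (b (l 16699136) (l 16691280))))))), by decide +kernel⟩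

def k66_pm_011_t : ∃ t, chk3 f_pm_011_t t 25 27 1 = true :=
  ⟨(a (a (b (b (c (b (l 16736768) (l 16728624)) (b (l 16736304) (l 16728032))) (c (c (l 16719296) (l 16718928)) (l 16718344))) (b (c (b (l 16704528) (l 16696656)) (l 16699920)) (c (b (l 16688864) (l 16681160)) (b (l 16687728) (l 16679928))))) (c (b (b (b (l 16725208) (l 16727600)) (b (l 16709064) (l 16701080))) (b (b (l 16693176) (l 16685352)) (b (l 16677608) (l 16669960)))) (b (b (l 16725752) (l 16704184)) (b (b (l 16692136) (l 16684216)) (b (l 16676384) (l 16668640)))))) (a (c (b (b (l 16713648) (a (l 16696552) (l 16690912))) (a (b (l 16680816) (l 16665416)) (b (l 16675224) (l 16659872)))) (b (b (l 16708968) (l 16692744)) (b (l 16676824) (l 16661272)))) (b (b (c (l 16699728) (l 16697552)) (a (l 16683480) (l 16679208))) (b (a (l 16669056) (l 16663520)) (c (l 16651632) (l 16650168)))))), by decide +kernel⟩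

def k67_pm_011_t : ∃ t, chk3 f_pm_011_t t 13 13 1 = true :=
  ⟨(b (a (a (a (b (b (c (c (l 16772136) (l 16772032)) (l 16764008)) (c (l 16745664) (l 16745288))) (b (c (l 16740184) (l 16718656)) (a (l 16705664) (l 16710608)))) (b (b (c (l 16750360) (l 16760504)) (c (l 16745064) (l 16723584))) (b (c (l 16708256) (l 16707552)) (l 16693264)))) (b (b (l 1) (a (c (l 16713408) (l 16712736)) (l 1))) (c (b (a (l 16697704) (l 16708592)) (a (l 16702928) (l 16671968))) (b (l 16699480) (a (l 16680856) (l 16670648)))))) (b (l 1) (a (b (l 1) (c (c (l 46204257191) (l 44056772903)) (l 38688063783))) (l 1)))) (b (b (a (a (a (c (l 16708312) (l 16686352)) (l 16691752)) (c (a (l 16666216) (l 16656312)) (l 16659768))) (a (c (a (l 16646936) (l 16638160)) (a (l 16645096) (l 16635992))) (l 1))) (a (a (a (c (l 16671544) (l 16670328)) (l 16660200)) (a (l 16649816) (l 16641168))) (a (c (a (l 16631416) (l 16622688)) (a (l 16629352) (l 16620288))) (c (a (l 33856095911) (l 1)) (l 29024247255))))) (a (a (a (b (c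 (l 16656016) (l 16654600)) (c (l 16640824) (l 16639240))) (b (l 16644664) (l 16629464))) (a (b (l 16634344) (l 16619216)) (b (l 16624448) (l 16609368)))) (a (c (b (a (l 16616136) (l 16607432)) (a (l 16601312) (l 16613528))) (b (l 16609304) (a (l 16598888) (l 16589816)))) (c (b (a (l 16599400) (b (l 1) (l 39761637863))) (a (b (l 16588152) (l 16580808)) (l 40298492791))) (b (a (l 16596416) (l 16588720)) (a (l 16581240) (l 16573472)))))))), by decide +kernel⟩

def k68_pm_011_t : ∃ t, chk3 f_pm_011_t t 7 6 1 = true :=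
  ⟨(b (l 1) (a (b (l 1) (a (b (l 1) (a (a (b (l 1) (b (l 1) (l 41372203703))) (l 1)) (l 1))) (l 1))) (l 1))), by decide +kernel⟩

def k69_pm_011_t : ∃ t, chk3 f_pm_011_t t 24 28 1 = true :=
  ⟨(b (a (b (a (c (b (l 16718680) (l 16710968)) (b (l 16717704) (l 16709864))) (c (b (l 16707312) (l 16699656)) (b (l 16706264) (l 16698480)))) (a (c (b (l 16703328) (l 16695776)) (b (l 16702104) (l 16694416))) (c (b (l 16692080) (l 16684592)) (b (l 16690792) (l 16683184))))) (b (a (c (b (l 16696008) (l 16688392)) (b (l 16694864) (l 16687144))) (c (b (l 16684752) (l 16677184)) (b (l 16683520) (l 16675856)))) (a (c (b (l 16680880) (l 16673448)) (b (l 16679520) (l 16671984))) (c (b (l 16669720) (l 16662352)) (b (l 16668296) (l 16660832)))))) (a (a (b (c (l 16684584) (l 16686984)) (c (l 16669952) (l 16668216))) (a (b (l 16675512) (l 16660920)) (b (l 16669984) (l 16665992)))) (b (a (c (l 16662480) (l 16660864)) (c (l 16651480) (l 16649824))) (a (b (l 16650880) (a (l 16646536) (l 16641056))) (b (c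 (l 16640912) (l 16644352)) (c (l 16633816) (l 16631984))))))), by decide +kernel⟩

def k70_pm_011_t : ∃ t, chk3 f_pm_011_t t 25 28 1 = true :=
  ⟨(b (a (b (a (c (b (l 16673552) (l 16666032)) (b (l 16672232) (l 16664632))) (c (b (l 16662408) (l 16654944)) (b (l 16661000) (l 16653464)))) (a (c (b (l 16658616) (l 16651304)) (b (l 16657128) (l 16649728))) (c (b (l 16647584) (l 16640320)) (b (l 16646024) (l 16638688))))) (b (a (c (l 16648944) (l 16646104)) (c (l 16636712) (l 16635104))) (c (a (l 16633016) (b (l 16625792) (l 16618712))) (a (l 16631344) (b (l 16624080) (l 16616920)))))) (a (b (b (a (c (l 16644096) (l 16642432)) (c (l 16633224) (l 16631496))) (a (a (l 16638872) (l 16638720)) (a (a (l 16629352) (l 16626600)) (l 16627736)))) (a (b (c (l 16635152) (l 16633368)) (l 16622200)) (c (l 16615792) (l 16613904)))) (b (b (a (c (l 16624960) (a (l 16623320) (l 16617824))) (c (l 16611536) (l 16609720))) (a (l 16614464) (l 16603776))) (a (c (l 16605120) (l 16603192)) (c (l 16594560) (l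 16592584)))))), by decide +kernel⟩

def k71_pm_011_t : ∃ t, chk3 f_pm_011_t t 12 29 1 = true :=
  ⟨(b (a (a (b (a (b (l 16658352) (l 16651152)) (b (a (l 16650224) (l 16644808)) (l 16640568))) (a (l 16640784) (l 16630288))) (a (b (l 16633352) (l 16619800)) (b (l 16622680) (l 16609320)))) (a (b (a (l 16617272) (c (l 16602384) (l 16600392))) (a (l 16598856) (l 16588424))) (a (b (c (l 16591864) (l 16589848)) (l 16578064)) (b (c (l 16581448) (l 16579392)) (l 16567784))))) (b (a (a (a (l 16627328) (l 16616952)) (a (l 16606664) (l 16596384))) (a (a (l 16586120) (l 16575888)) (a (l 16565704) (l 16555600)))) (a (a (a (l 16614288) (l 16604056)) (a (l 16593912) (l 16583856))) (a (l 16568792) (l 16554072))))), by decide +kernel⟩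

def k72_pm_011_t : ∃ t, chk3 f_pm_011_t t 13 14 1 = true :=
  ⟨(b (a (b (a (b (a (c (l 16625992) (l 16624280)) (c (l 16615632) (l 16613760))) (b (a (c (l 16615232) (l 16613408)) (c (l 16604704) (l 16602784))) (a (c (l 16607944) (l 16606104)) (l 16596768)))) (b (c (b (l 16604336) (l 16617848)) (b (l 16623184) (l 16615720))) (a (l 16590200) (l 16580504)))) (a (b (a (c (l 16597640) (l 16595688)) (c (l 16587408) (l 16585328))) (a (c (l 16584176) (l 16582120)) (l 16578232))) (a (b (l 16576408) (l 16563096)) (b (l 16566768) (l 16553536))))) (b (a (a (b (l 16585248) (l 16571240)) (b (l 16576584) (l 16562464))) (c (a (l 16583864) (b (l 16562568) (l 16548472))) (a (l 16559584) (l 16551720)))) (a (b (c (l 16554528) (l 16551664)) (c (l 16541384) (l 16538472))) (c (b (l 16538488) (l 16525360)) (b (l 16534864) (l 16521720)))))) (a (b (a (b (a (l 16580648) (l 16560096)) (a (l 16557648) (l 16547712))) (b (c (l 16551960) (l 16544272)) (c (l 16534496) (l 16532040)))) (a (b (a (l 16545624) (l 16535832))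 (a (l 16534144) (l 16524536))) (b (l 16532088) (a (l 16515064) (l 16505824))))) (b (a (b (c (l 16528768) (l 16525848)) (l 16530992)) (c (b (l 16512776) (l 16500736)) (l 16503072))) (a (b (l 16514312) (l 16503104)) (l 6))))), by decide +kernel⟩

def k73_pm_011_t : ∃ t, chk3 f_pm_011_t t 6 15 1 = true :=
  ⟨(a (b (b (a (a (b (l 16596536) (a (l 16588816) (l 16579184))) (a (b (l 16581568) (l 16569488)) (b (l 16571736) (l 16559800)))) (a (b (b (l 16559904) (l 16554024)) (l 16545408)) (b (a (l 16542232) (l 16532464)) (l 16526328)))) (a (a (b (l 16571704) (l 16559552)) (b (l 16553016) (l 16541552))) (a (b (l 16534216) (l 16523360)) (b (l 16515600) (l 6))))) (a (b (a (b (l 16547640) (l 16535936)) (b (l 16530368) (l 6))) (a (l 16518680) (l 6))) (b (l 6) (l 6)))) (b (b (a (a (a (l 16527896) (l 16508152)) (b (l 16499688) (l 6))) (l 6)) (l 6)) (l 6))), by decide +kernel⟩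

def k74_pm_011_t : ∃ t, chk3 f_pm_011_t t 7 7 1 = true :=
  ⟨(b (a (b (a (b (a (b (c (l 42982801655) (l 16548040)) (a (l 16560400) (l 44056505223))) (c (b (l 1) (l 42445879735)) (l 40835279815))) (a (c (a (l 16521208) (l 16514680)) (l 16513408)) (c (b (l 42982722391) (l 16499312)) (l 16521600)))) (b (l 1) (l 6))) (a (b (a (c (l 16492632) (l 16488208)) (l 6)) (l 6)) (l 6))) (l 6)) (l 6)), by decide +kernel⟩

theorem s75_pm_011_t : ∃ t, chk3 f_pm_011_t t 12 28 1 = true := ex3_a k69_pm_011_t k70_pm_011_t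

theorem s76_pm_011_t : ∃ t, chk3 f_pm_011_t t 12 14 1 = true := ex3_b s75_pm_011_t k71_pm_011_t

theorem s77_pm_011_t : ∃ t, chk3 f_pm_011_t t 6 14 1 = true := ex3_a s76_pm_011_t k72_pm_011_t

theorem s78_pm_011_t : ∃ t, chk3 f_pm_011_t t 6 7 1 = true := ex3_b s77_pm_011_t k73_pm_011_t

theorem s79_pm_011_t : ∃ t, chk3 f_pm_011_t t 3 7 1 = true := ex3_a s78_pm_011_t k74_pm_011_t

theorem s80_pm_011_t : ∃ t, chk3 f_pm_011_t t 12 27 1 = true := ex3_a k65_pm_011_t k66_pm_011_t

theorem s81_pm_011_t : ∃ t, chk3 f_pm_011_t t 12 26 1 = true := ex3_a k63_pm_011_t k64_pm_011_t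

theorem s82_pm_011_t : ∃ t, chk3 f_pm_011_t t 12 13 1 = true := ex3_b s81_pm_011_t s80_pm_011_t

theorem s83_pm_011_t : ∃ t, chk3 f_pm_011_t t 6 13 1 = true := ex3_a s82_pm_011_t k67_pm_011_t

theorem s84_pm_011_t : ∃ t, chk3 f_pm_011_t t 6 6 1 = true := ex3_b k62_pm_011_t s83_pm_011_t

theorem s85_pm_011_t : ∃ t, chk3 f_pm_011_t t 3 6 1 = true := ex3_a s84_pm_011_t k68_pm_011_t

theorem s86_pm_011_t : ∃ t, chk3 f_pm_011_t t 3 3 1 = true := ex3_b s85_pm_011_t s79_pm_011_t

theorem s87_pm_011_t : ∃ t, chk3 f_pm_011_t t 10 30 1 = true := ex3_a k58_pm_011_t k59_pm_011_t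

theorem s88_pm_011_t : ∃ t, chk3 f_pm_011_t t 10 15 1 = true := ex3_b s87_pm_011_t k60_pm_011_t

theorem s89_pm_011_t : ∃ t, chk3 f_pm_011_t t 5 15 1 = true := ex3_a s88_pm_011_t k61_pm_011_t

theorem s90_pm_011_t : ∃ t, chk3 f_pm_011_t t 22 56 1 = true := ex3_a k53_pm_011_t k54_pm_011_t

theorem s91_pm_011_t : ∃ t, chk3 f_pm_011_t t 11 56 1 = true := ex3_a s90_pm_011_t k55_pm_011_t

theorem s92_pm_011_t : ∃ t, chk3 f_pm_011_t t 11 28 1 = true := ex3_b s91_pm_011_t k56_pm_011_t

theorem s93_pm_011_t : ∃ t, chk3 f_pm_011_t t 11 14 1 = true := ex3_b s92_pm_011_t k57_pm_011_t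

theorem s94_pm_011_t : ∃ t, chk3 f_pm_011_t t 21 29 1 = true := ex3_b k51_pm_011_t k52_pm_011_t

theorem s95_pm_011_t : ∃ t, chk3 f_pm_011_t t 20 59 1 = true := ex3_a k49_pm_011_t k50_pm_011_t

theorem s96_pm_011_t : ∃ t, chk3 f_pm_011_t t 20 29 1 = true := ex3_b k48_pm_011_t s95_pm_011_t

theorem s97_pm_011_t : ∃ t, chk3 f_pm_011_t t 10 29 1 = true := ex3_a s96_pm_011_t s94_pm_011_t

theorem s98_pm_011_t : ∃ t, chk3 f_pm_011_t t 21 57 1 = true := ex3_a k46_pm_011_t k47_pm_011_t

theorem s99_pm_011_t : ∃ t, chk3 f_pm_011_t t 21 28 1 = true := ex3_b k45_pm_011_t s98_pm_011_t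

theorem s100_pm_011_t : ∃ t, chk3 f_pm_011_t t 10 28 1 = true := ex3_a k44_pm_011_t s99_pm_011_t

theorem s101_pm_011_t : ∃ t, chk3 f_pm_011_t t 10 14 1 = true := ex3_b s100_pm_011_t s97_pm_011_t

theorem s102_pm_011_t : ∃ t, chk3 f_pm_011_t t 5 14 1 = true := ex3_a s101_pm_011_t s93_pm_011_t

theorem s103_pm_011_t : ∃ t, chk3 f_pm_011_t t 5 7 1 = true := ex3_b s102_pm_011_t s89_pm_011_t

theorem s104_pm_011_t : ∃ t, chk3 f_pm_011_t t 9 63 1 = true := ex3_a k42_pm_011_t k43_pm_011_t

theorem s105_pm_011_t : ∃ t, chk3 f_pm_011_t t 36 62 1 = true := ex3_b k38_pm_011_t k39_pm_011_t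

theorem s106_pm_011_t : ∃ t, chk3 f_pm_011_t t 18 62 1 = true := ex3_a s105_pm_011_t k40_pm_011_t

theorem s107_pm_011_t : ∃ t, chk3 f_pm_011_t t 9 62 1 = true := ex3_a s106_pm_011_t k41_pm_011_t

theorem s108_pm_011_t : ∃ t, chk3 f_pm_011_t t 9 31 1 = true := ex3_b s107_pm_011_t s104_pm_011_t

theorem s109_pm_011_t : ∃ t, chk3 f_pm_011_t t 19 60 1 = true := ex3_a k35_pm_011_t k36_pm_011_t

theorem s110_pm_011_t : ∃ t, chk3 f_pm_011_t t 19 30 1 = true := ex3_b s109_pm_011_t k37_pm_011_t

theorem s111_pm_011_t : ∃ t, chk3 f_pm_011_t t 37 61 1 = true := ex3_a k33_pm_011_t k34_pm_011_t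

theorem s112_pm_011_t : ∃ t, chk3 f_pm_011_t t 36 123 1 = true := ex3_a k31_pm_011_t k32_pm_011_t

theorem s113_pm_011_t : ∃ t, chk3 f_pm_011_t t 36 61 1 = true := ex3_b k30_pm_011_t s112_pm_011_t

theorem s114_pm_011_t : ∃ t, chk3 f_pm_011_t t 18 61 1 = true := ex3_a s113_pm_011_t s111_pm_011_t

theorem s115_pm_011_t : ∃ t, chk3 f_pm_011_t t 18 30 1 = true := ex3_b k29_pm_011_t s114_pm_011_t

theorem s116_pm_011_t : ∃ t, chk3 f_pm_011_t t 9 30 1 = true := ex3_a s115_pm_011_t s110_pm_011_t

theorem s117_pm_011_t : ∃ t, chk3 f_pm_011_t t 9 15 1 = true := ex3_b s116_pm_011_t s108_pm_011_t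

theorem s118_pm_011_t : ∃ t, chk3 f_pm_011_t t 35 63 1 = true := ex3_a k27_pm_011_t k28_pm_011_t

theorem s119_pm_011_t : ∃ t, chk3 f_pm_011_t t 34 63 1 = true := ex3_a k25_pm_011_t k26_pm_011_t

theorem s120_pm_011_t : ∃ t, chk3 f_pm_011_t t 17 63 1 = true := ex3_a s119_pm_011_t s118_pm_011_t

theorem s121_pm_011_t : ∃ t, chk3 f_pm_011_t t 35 125 1 = true := ex3_a k23_pm_011_t k24_pm_011_t

theorem s122_pm_011_t : ∃ t, chk3 f_pm_011_t t 71 124 1 = true := ex3_b k21_pm_011_t k22_pm_011_t

theorem s123_pm_011_t : ∃ t, chk3 f_pm_011_t t 70 249 1 = true := ex3_a k19_pm_011_t k20_pm_011_t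

theorem s124_pm_011_t : ∃ t, chk3 f_pm_011_t t 70 124 1 = true := ex3_b k18_pm_011_t s123_pm_011_t

theorem s125_pm_011_t : ∃ t, chk3 f_pm_011_t t 35 124 1 = true := ex3_a s124_pm_011_t s122_pm_011_t

theorem s126_pm_011_t : ∃ t, chk3 f_pm_011_t t 35 62 1 = true := ex3_b s125_pm_011_t s121_pm_011_t

theorem s127_pm_011_t : ∃ t, chk3 f_pm_011_t t 138 125 1 = true := ex3_b k15_pm_011_t k16_pm_011_t

theorem s128_pm_011_t : ∃ t, chk3 f_pm_011_t t 69 125 1 = true := ex3_a s127_pm_011_t k17_pm_011_t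

theorem s129_pm_011_t : ∃ t, chk3 f_pm_011_t t 68 251 1 = true := ex3_b k13_pm_011_t k14_pm_011_t

theorem s130_pm_011_t : ∃ t, chk3 f_pm_011_t t 68 125 1 = true := ex3_b k12_pm_011_t s129_pm_011_t

theorem s131_pm_011_t : ∃ t, chk3 f_pm_011_t t 34 125 1 = true := ex3_a s130_pm_011_t s128_pm_011_t

theorem s132_pm_011_t : ∃ t, chk3 f_pm_011_t t 34 62 1 = true := ex3_b k11_pm_011_t s131_pm_011_t

theorem s133_pm_011_t : ∃ t, chk3 f_pm_011_t t 17 62 1 = true := ex3_a s132_pm_011_t s126_pm_011_t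

theorem s134_pm_011_t : ∃ t, chk3 f_pm_011_t t 17 31 1 = true := ex3_b s133_pm_011_t s120_pm_011_t

theorem s135_pm_011_t : ∃ t, chk3 f_pm_011_t t 8 31 1 = true := ex3_a k10_pm_011_t s134_pm_011_t

theorem s136_pm_011_t : ∃ t, chk3 f_pm_011_t t 8 15 1 = true := ex3_b k9_pm_011_t s135_pm_011_t

theorem s137_pm_011_t : ∃ t, chk3 f_pm_011_t t 4 15 1 = true := ex3_a s136_pm_011_t s117_pm_011_t

theorem s138_pm_011_t : ∃ t, chk3 f_pm_011_t t 4 7 1 = true := ex3_b k8_pm_011_t s137_pm_011_t

theorem s139_pm_011_t : ∃ t, chk3 f_pm_011_t t 2 7 1 = true := ex3_a s138_pm_011_t s103_pm_011_t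

theorem s140_pm_011_t : ∃ t, chk3 f_pm_011_t t 23 27 1 = true := ex3_b k6_pm_011_t k7_pm_011_t

theorem s141_pm_011_t : ∃ t, chk3 f_pm_011_t t 11 27 1 = true := ex3_a k5_pm_011_t s140_pm_011_t

theorem s142_pm_011_t : ∃ t, chk3 f_pm_011_t t 11 13 1 = true := ex3_b k4_pm_011_t s141_pm_011_t

theorem s143_pm_011_t : ∃ t, chk3 f_pm_011_t t 5 13 1 = true := ex3_a k3_pm_011_t s142_pm_011_t

theorem s144_pm_011_t : ∃ t, chk3 f_pm_011_t t 5 6 1 = true := ex3_b k2_pm_011_t s143_pm_011_t

theorem s145_pm_011_t : ∃ t, chk3 f_pm_011_t t 2 6 1 = true := ex3_a k1_pm_011_t s144_pm_011_t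

theorem s146_pm_011_t : ∃ t, chk3 f_pm_011_t t 2 3 1 = true := ex3_b s145_pm_011_t s139_pm_011_t

theorem s147_pm_011_t : ∃ t, chk3 f_pm_011_t t 1 3 1 = true := ex3_a s146_pm_011_t s86_pm_011_t

theorem s148_pm_011_t : ∃ t, chk3 f_pm_011_t t 1 1 1 = true := ex3_b k0_pm_011_t s147_pm_011_t

theorem c_pm_011_t : CertNE 0 536870912 536870912 536870912 649613803 48318383 3 eng mog cd0q0 cd0q1 pd1 false true false .pnn 0 1 1
    ndB0q0 ndB0q1 pcB1 cut_pm_011_t Ext.none :=
  certNE0 (fam := false) (s1 := true) (s2 := false) (a := 0) (b := 1) (c := 1) (cn := .pnn) (n1 := ndB0q0) (n2 := ndB0q1) (pc := pcB1) (cut := cut_pm_011_t) (xt := Ext.none) (P1 := 0) (W1 := 536870912) (P2 := 536870912) (W2 := 536870912) (P3 := 649613803) (W3 := 48318383) (N0 := 3) (En := eng) (mo := mog) (C1 := cd0q0) (C2 := cd0q1) (C3 := pd1)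
    rfl s148_pm_011_t

noncomputable def cut_pm_012_s : Cut := Cut.of [[⟨4, 0, 0, 1449551462⟩], [⟨0, 0, 0, 67108864⟩, ⟨1, 1, 0, 67108864⟩, ⟨2, 1, 0, 67108864⟩]]

noncomputable def f_pm_012_s : ℕ → ℕ → ℕ → ℕ → Bool := onCell 0 536870912 0 536870912 649613803 48318383
    (rowNE 3 eng mog cd0q0 cd0q2 pd1 0 false true false .pnp 0 1 2 (qsf 0 536870912 0 536870912 1) ndB0q0 ndB0q2 pcB1 cut_pm_012_s Ext.none)

def k0_pm_012_s : ∃ t, chk3 f_pm_012_s t 1 1 1 = true :=
  ⟨(a (l 6) (b (a (b (a (l 6) (a (l 6) (b (a (l 6) (l 16614208)) (l 6)))) (l 6)) (b (a (b (a (b (a (l 16633280) (l 16644368)) (l 6)) (b (a (l 16655088) (l 16665160)) (l 16641184))) (l 6)) (a (b (b (l 16701440) (a (l 16655888) (l 16664936))) (b (l 16641168) (l 6))) (b (a (b (l 16695496) (l 16674056)) (l 16715344)) (b (a (l 16654336) (l 16662952)) (l 16639800))))) (l 6))) (l 6))), by decide +kernel⟩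

theorem c_pm_012_s : CertNE 0 536870912 0 536870912 649613803 48318383 3 eng mog cd0q0 cd0q2 pd1 false true false .pnp 0 1 2
    ndB0q0 ndB0q2 pcB1 cut_pm_012_s Ext.none :=
  certNE0 (fam := false) (s1 := true) (s2 := false) (a := 0) (b := 1) (c := 2) (cn := .pnp) (n1 := ndB0q0) (n2 := ndB0q2) (pc := pcB1) (cut := cut_pm_012_s) (xt := Ext.none) (P1 := 0) (W1 := 536870912) (P2 := 0) (W2 := 536870912) (P3 := 649613803) (W3 := 48318383) (N0 := 3) (En := eng) (mo := mog) (C1 := cd0q0) (C2 := cd0q2) (C3 := pd1)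
    rfl k0_pm_012_s

noncomputable def cut_pm_012_t : Cut := Cut.of [[⟨3, 0, 0, 2845415833⟩], [⟨0, 0, 0, 67108864⟩, ⟨1, 1, 0, 67108864⟩, ⟨2, 1, 0, 67108864⟩]]

noncomputable def f_pm_012_t : ℕ → ℕ → ℕ → ℕ → Bool := onCell 536870912 536870912 0 536870912 649613803 48318383
    (rowNE 3 eng mog cd0q0 cd0q2 pd1 2 false true false .pnp 0 1 2 (qsf 0 536870912 0 536870912 1) ndB0q0 ndB0q2 pcB1 cut_pm_012_t Ext.none)

def k0_pm_012_t : ∃ t, chk3 f_pm_012_t t 1 2 1 = true :=
  ⟨(l 6), by decide +kernel⟩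

def k1_pm_012_t : ∃ t, chk3 f_pm_012_t t 2 3 1 = true :=
  ⟨(a (l 6) (l 6)), by decide +kernel⟩

def k2_pm_012_t : ∃ t, chk3 f_pm_012_t t 6 3 1 = true :=
  ⟨(b (l 6) (b (l 6) (a (b (l 6) (a (b (l 6) (a (l 6) (l 16528984))) (b (a (l 6) (l 16541936)) (a (l 16543008) (l 16557264))))) (b (a (a (l 6) (a (l 6) (l 16549088))) (b (l 16539072) (a (l 16565288) (l 16577496)))) (a (a (b (l 16555504) (l 16571976)) (b (l 16590048) (b (l 16582064) (l 16591264)))) (b (a (l 16582048) (l 16595288)) (b (a (l 16595792) (l 16609848)) (a (l 16605520) (a (l 16616448) (l 16623880)))))))))), by decide +kernel⟩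

def k3_pm_012_t : ∃ t, chk3 f_pm_012_t t 7 3 1 = true :=
  ⟨(b (l 6) (a (b (b (l 6) (a (a (l 6) (b (l 6) (l 16569160))) (a (l 16614672) (a (l 16581008) (l 16586688))))) (b (a (b (a (l 16573208) (l 16585056)) (a (l 16590016) (l 16602992))) (b (a (l 16597360) (l 16610184)) (a (l 16637432) (b (l 16625152) (l 16635856))))) (a (b (a (l 16640392) (b (l 16617808) (l 16628360))) (b (a (l 16624368) (l 16660360)) (a (a (l 16631432) (l 16660088)) (b (l 16668928) (a (l 16649816) (l 16657848)))))) (b (a (b (l 16632168) (l 16664296)) (b (l 16647104) (a (l 16654944) (l 16662888)))) (b (a (c (l 16677960) (l 16673816)) (a (l 16667072) (l 16696312))) (a (b (a (l 16659944) (l 16668128)) (a (l 16676520) (c (l 16676520) (l 16672120)))) (b (a (l 16676472) (l 16684984)) (a (c (l 16695368) (l 16691280)) (a (l 16699872) (a (l 16692680) (l 16694880))))))))))) (b (a (b (a (l 6) (l 16574496)) (b (a (l 16586864) (l 16598456)) (a (l 16604208) (l 16637976)))) (a (b (l 16584928) (b (l 16610648) (l 16630448)))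 (b (l 16627448) (a (l 16651560) (b (l 16626976) (l 14)))))) (a (b (a (b (l 16644544) (a (l 16641384) (l 16648864))) (b (a (l 16634040) (l 16641216)) (a (l 16677488) (l 16685344)))) (b (a (a (b (l 16658736) (l 16670992)) (b (l 16666696) (l 16679304))) (a (b (l 16674856) (l 14)) (l 14))) (a (a (b (l 16694272) (b (l 16704184) (a (a (l 16697104) (l 16699336)) (l 14)))) (b (b (l 16689096) (l 14)) (l 14))) (l 14)))) (b (a (a (b (l 16669568) (l 14)) (l 14)) (l 14)) (l 14)))))), by decide +kernel⟩

theorem s4_pm_012_t : ∃ t, chk3 f_pm_012_t t 3 3 1 = true := ex3_a k2_pm_012_t k3_pm_012_t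

theorem s5_pm_012_t : ∃ t, chk3 f_pm_012_t t 1 3 1 = true := ex3_a k1_pm_012_t s4_pm_012_t

theorem s6_pm_012_t : ∃ t, chk3 f_pm_012_t t 1 1 1 = true := ex3_b k0_pm_012_t s5_pm_012_t

theorem c_pm_012_t : CertNE 0 536870912 0 536870912 649613803 48318383 3 eng mog cd0q0 cd0q2 pd1 false true false .pnp 0 1 2
    ndB0q0 ndB0q2 pcB1 cut_pm_012_t Ext.none :=
  certNE2 (fam := false) (s1 := true) (s2 := false) (a := 0) (b := 1) (c := 2) (cn := .pnp) (n1 := ndB0q0) (n2 := ndB0q2) (pc := pcB1) (cut := cut_pm_012_t) (xt := Ext.none) (P1 := 0) (W1 := 536870912) (P2 := 0) (W2 := 536870912) (P3 := 649613803) (W3 := 48318383) (N0 := 3) (En := eng) (mo := mog) (C1 := cd0q0) (C2 := cd0q2) (C3 := pd1)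
    rfl (fun _ => rfl) s6_pm_012_t

noncomputable def cut_pm_022_s : Cut := Cut.of [[⟨4, 0, 0, 1449551462⟩], [⟨0, 0, 0, 67108864⟩, ⟨1, 1, 0, 67108864⟩, ⟨2, 1, 0, 67108864⟩]]

noncomputable def f_pm_022_s : ℕ → ℕ → ℕ → ℕ → Bool := onCell 1073741824 536870912 0 536870912 649613803 48318383
    (rowNE 3 eng mog cd0q0 cd0q2 pd2 2 false true false .pp 0 2 2 (qsf 0 536870912 0 536870912 2) ndB0q0 ndB0q2 pcB2 cut_pm_022_s Ext.none)

def k0_pm_022_s : ∃ t, chk3 f_pm_022_s t 1 1 1 = true :=
  ⟨(l 6), by decide +kernel⟩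

theorem c_pm_022_s : CertNE 0 536870912 0 536870912 649613803 48318383 3 eng mog cd0q0 cd0q2 pd2 false true false .pp 0 2 2
    ndB0q0 ndB0q2 pcB2 cut_pm_022_s Ext.none :=
  certNE2 (fam := false) (s1 := true) (s2 := false) (a := 0) (b := 2) (c := 2) (cn := .pp) (n1 := ndB0q0) (n2 := ndB0q2) (pc := pcB2) (cut := cut_pm_022_s) (xt := Ext.none) (P1 := 0) (W1 := 536870912) (P2 := 0) (W2 := 536870912) (P3 := 649613803) (W3 := 48318383) (N0 := 3) (En := eng) (mo := mog) (C1 := cd0q0) (C2 := cd0q2) (C3 := pd2)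
    rfl (fun _ => rfl) k0_pm_022_s

noncomputable def cut_pm_022_t : Cut := Cut.of [[⟨3, 0, 0, 2845415833⟩], [⟨0, 0, 0, 67108864⟩, ⟨1, 1, 0, 67108864⟩, ⟨2, 1, 0, 67108864⟩]]

noncomputable def f_pm_022_t : ℕ → ℕ → ℕ → ℕ → Bool := onCell 0 536870912 0 536870912 649613803 48318383
    (rowNE 3 eng mog cd0q0 cd0q2 pd2 0 false true false .pp 0 2 2 (qsf 0 536870912 0 536870912 2) ndB0q0 ndB0q2 pcB2 cut_pm_022_t Ext.none)

def k0_pm_022_t : ∃ t, chk3 f_pm_022_t t 1 1 1 = true :=
  ⟨(a (b (l 6) (a (b (b (l 6) (a (a (b (a (b (a (l 16571824) (l 6)) (a (l 16582440) (l 16581224))) (b (l 6) (l 16578712))) (a (a (b (l 16594104) (c (l 16608928) (l 16604880))) (b (l 16592704) (l 16605368))) (b (l 16589904) (l 16597032)))) (b (l 6) (a (a (l 16592440) (l 16589720)) (l 16580120)))) (a (b (l 6) (l 6)) (l 6)))) (a (b (b (a (b (a (a (a (l 16642480) (l 16620728)) (l 16619352)) (a (l 16617168) (l 16614632))) (b (a (a (l 16632632) (l 16630696)) (a (l 16628352) (l 16625664))) (l 14))) (a (b (l 16610304)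 (l 16624888)) (b (l 16597616) (l 16609200)))) (a (l 14) (a (l 14) (b (l 16631128) (l 16641080))))) (a (l 14) (a (l 14) (l 1)))) (b (a (b (a (b (l 16580800) (l 16590808)) (l 1)) (l 1)) (l 1)) (l 1)))) (b (l 1) (l 1)))) (l 1)), by decide +kernel⟩

theorem c_pm_022_t : CertNE 0 536870912 0 536870912 649613803 48318383 3 eng mog cd0q0 cd0q2 pd2 false true false .pp 0 2 2
    ndB0q0 ndB0q2 pcB2 cut_pm_022_t Ext.none :=
  certNE0 (fam := false) (s1 := true) (s2 := false) (a := 0) (b := 2) (c := 2) (cn := .pp) (n1 := ndB0q0) (n2 := ndB0q2) (pc := pcB2) (cut := cut_pm_022_t) (xt := Ext.none) (P1 := 0) (W1 := 536870912) (P2 := 0) (W2 := 536870912) (P3 := 649613803) (W3 := 48318383) (N0 := 3) (En := eng) (mo := mog) (C1 := cd0q0) (C2 := cd0q2) (C3 := pd2)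
    rfl k0_pm_022_t

noncomputable def cut_pm_101_s : Cut := Cut.of [[⟨4, 0, 0, 1449551462⟩], [⟨0, 1, 0, 67108864⟩, ⟨1, 0, 0, 67108864⟩, ⟨2, 1, 0, 67108864⟩], [⟨0, 0, 1, 20971520⟩, ⟨1, 1, 2, 20971520⟩, ⟨2, 1, 0, 33554432⟩]]

noncomputable def f_pm_101_s : ℕ → ℕ → ℕ → ℕ → Bool := onCell 536870912 536870912 536870912 536870912 649613803 48318383
    (rowNE 3 eng mog cd0q1 cd0q1 pd0 0 false true false .npn 1 0 1 (qsf 536870912 536870912 536870912 536870912 0) ndB0q1 ndB0q1 pcB0 cut_pm_101_s Ext.none)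

def k0_pm_101_s : ∃ t, chk3 f_pm_101_s t 2 1 1 = true :=
  ⟨(l 6), by decide +kernel⟩

def k1_pm_101_s : ∃ t, chk3 f_pm_101_s t 3 2 1 = true :=
  ⟨(l 6), by decide +kernel⟩

def k2_pm_101_s : ∃ t, chk3 f_pm_101_s t 6 3 1 = true :=
  ⟨(b (l 6) (b (l 6) (b (l 6) (a (l 6) (b (l 6) (a (l 6) (a (l 6) (a (l 6) (b (l 6) (b (l 6) (c (l 16817544) (l 16826720)))))))))))), by decide +kernel⟩

def k3_pm_101_s : ∃ t, chk3 f_pm_101_s t 7 6 1 = true :=
  ⟨(a (l 6) (l 1)), by decide +kernel⟩

def k4_pm_101_s : ∃ t, chk3 f_pm_101_s t 7 14 1 = true :=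
  ⟨(a (l 6) (b (l 1) (a (a (a (a (l 6) (l 1)) (l 1)) (l 1)) (l 1)))), by decide +kernel⟩

def k5_pm_101_s : ∃ t, chk3 f_pm_101_s t 7 30 1 = true :=
  ⟨(a (a (l 6) (b (a (l 6) (b (l 16845872) (l 16859480))) (a (b (c (l 16832728) (l 16838808)) (c (l 16826752) (l 16832264))) (b (c (l 16829960) (l 16834240)) (c (l 16823936) (l 16827744)))))) (a (b (b (a (l 16862888) (l 1)) (a (c (l 16833256) (l 16836472)) (l 14))) (a (a (b (l 16828920) (l 16843640)) (l 14)) (l 14))) (b (l 1) (l 14)))), by decide +kernel⟩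

def k6_pm_101_s : ∃ t, chk3 f_pm_101_s t 7 31 1 = true :=
  ⟨(a (a (b (a (b (l 6) (l 6)) (b (c (l 16845344) (l 16831392)) (c (a (l 16820384) (l 16818680)) (a (l 16827392) (l 16824608))))) (a (b (c (a (l 16819896) (c (l 16816584) (l 16819296))) (a (l 16828752) (l 16825400))) (c (a (c (l 16814440) (l 16817416)) (c (b (l 16813512) (l 16811512)) (l 16814944))) (a (c (l 16821504) (l 16826712)) (c (l 16818440) (l 16822968))))) (b (c (a (c (l 16814888) (l 16817104)) (c (l 16813352) (l 16815128))) (a (l 16822312) (l 16819528))) (c (a (c (b (l 16811768) (l 16809736)) (l 16812712)) (c (b (l 16810192) (l 16808128)) (l 16810704))) (a (c (l 16815656) (l 16819552)) (c (l 16813152) (l 16816480))))))) (c (b (b (a (l 16842272) (l 16818432)) (a (a (l 16817128) (l 16815664)) (a (l 16814216) (l 16812688)))) (a (b (a (c (l 16811944) (l 16813344)) (c (l 16810600) (l 16811664))) (a (c (b (l 16808744) (l 16806656)) (l 16808888)) (c (b (l 16807360) (l 16805232)) (l 16807176)))) (b (a (c (l 16809240) (l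 16810032)) (b (l 16809152) (l 16806864))) (a (c (b (l 16805960) (l 16803808)) (l 16805504)) (b (l 16804616) (l 16823376)))))) (b (a (b (l 16826288) (a (l 16822096) (l 16819776))) (b (l 16821808) (a (l 16817568) (l 16815376)))) (a (b (a (l 16817032) (l 16814720)) (a (c (l 16810896) (l 16813720)) (c (l 16808808) (l 16811176)))) (b (a (l 16812528) (l 16810344)) (a (c (l 16806808) (l 16808776)) (c (l 16804808) (l 16806424)))))))) (a (a (a (a (a (b (b (l 16817752) (l 16812536)) (b (c (l 16806952) (l 16808968)) (c (l 16812920) (l 16804168)))) (l 14)) (l 14)) (l 14)) (l 14)) (l 14))), by decide +kernel⟩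

theorem s7_pm_101_s : ∃ t, chk3 f_pm_101_s t 7 15 1 = true := ex3_b k5_pm_101_s k6_pm_101_s

theorem s8_pm_101_s : ∃ t, chk3 f_pm_101_s t 7 7 1 = true := ex3_b k4_pm_101_s s7_pm_101_s

theorem s9_pm_101_s : ∃ t, chk3 f_pm_101_s t 7 3 1 = true := ex3_b k3_pm_101_s s8_pm_101_s

theorem s10_pm_101_s : ∃ t, chk3 f_pm_101_s t 3 3 1 = true := ex3_a k2_pm_101_s s9_pm_101_s

theorem s11_pm_101_s : ∃ t, chk3 f_pm_101_s t 3 1 1 = true := ex3_b k1_pm_101_s s10_pm_101_s

theorem s12_pm_101_s : ∃ t, chk3 f_pm_101_s t 1 1 1 = true := ex3_a k0_pm_101_s s11_pm_101_s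

theorem c_pm_101_s : CertNE 536870912 536870912 536870912 536870912 649613803 48318383 3 eng mog cd0q1 cd0q1 pd0 false true false .npn 1 0 1
    ndB0q1 ndB0q1 pcB0 cut_pm_101_s Ext.none :=
  certNE0 (fam := false) (s1 := true) (s2 := false) (a := 1) (b := 0) (c := 1) (cn := .npn) (n1 := ndB0q1) (n2 := ndB0q1) (pc := pcB0) (cut := cut_pm_101_s) (xt := Ext.none) (P1 := 536870912) (W1 := 536870912) (P2 := 536870912) (W2 := 536870912) (P3 := 649613803) (W3 := 48318383) (N0 := 3) (En := eng) (mo := mog) (C1 := cd0q1) (C2 := cd0q1) (C3 := pd0)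
    rfl s12_pm_101_s

noncomputable def cut_pm_101_t : Cut := Cut.of [[⟨3, 0, 0, 2845415833⟩], [⟨0, 1, 0, 67108864⟩, ⟨1, 0, 0, 67108864⟩, ⟨2, 1, 0, 67108864⟩], [⟨0, 0, 1, 20971520⟩, ⟨1, 1, 2, 20971520⟩, ⟨2, 1, 0, 33554432⟩]]

noncomputable def f_pm_101_t : ℕ → ℕ → ℕ → ℕ → Bool := onCell 536870912 536870912 536870912 536870912 649613803 48318383
    (rowNE 3 eng mog cd0q1 cd0q1 pd0 0 false true false .npn 1 0 1 (qsf 536870912 536870912 536870912 536870912 0) ndB0q1 ndB0q1 pcB0 cut_pm_101_t Ext.none)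

def k0_pm_101_t : ∃ t, chk3 f_pm_101_t t 8 8 1 = true :=
  ⟨(l 4), by decide +kernel⟩

def k1_pm_101_t : ∃ t, chk3 f_pm_101_t t 16 9 1 = true :=
  ⟨(b (l 4) (a (l 4) (b (l 4) (b (l 4) (a (l 4) (b (l 4) (a (l 4) (c (b (l 119420202759) (l 99019114183)) (c (b (l 192434664967) (a (l 122641436695) (l 16777456))) (b (l 191360922919) (a (l 120493952935) (l 16777328)))))))))))), by decide +kernel⟩

def k2_pm_101_t : ∃ t, chk3 f_pm_101_t t 17 18 1 = true :=
  ⟨(b (l 4) (a (l 4) (b (l 4) (a (l 4) (b (l 4) (b (l 4) (a (l 4) (a (l 4) (a (c (l 119957085079) (l 165591120951)) (c (l 16777344) (a (l 93113543463) (l 16777480)))))))))))), by decide +kernel⟩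

def k3_pm_101_t : ∃ t, chk3 f_pm_101_t t 17 38 1 = true :=
  ⟨(a (b (l 4) (a (l 4) (b (l 4) (a (l 4) (c (b (l 220351951991) (l 113514626871)) (b (l 226257531447) (a (l 219278210887) (c (l 16777120) (l 83986735207))))))))) (b (b (a (l 4) (a (a (l 4) (b (l 4) (c (l 99019118759) (a (l 117809601687) (l 45868902983))))) (a (b (c (l 101703473447) (a (l 118346472551) (l 47479515495))) (c (l 16777464) (l 16777520))) (c (l 16777608) (l 16777688))))) (a (b (l 4) (a (l 4) (a (l 4) (c (l 16774224) (a (l 115662118311) (l 16777360)))))) (c (a (b (a (l 98482248167) (l 16777464)) (l 16777584)) (l 16778008)) (a (b (a (b (l 117272730807) (l 16774720)) (l 16777528)) (l 16777688)) (l 16780824))))) (a (c (b (a (b (l 227331273703) (l 115125244423)) (b (l 37278964183) (l 16777568))) (a (b (l 16777744) (l 16777552)) (l 16777928))) (b (a (b (l 233236853143) (a (l 230015628967) (c (l 16776976) (l 95797896087)))) (b (a (c (l 16776896) (l 100092863735)) (l 16777528)) (l 16777688))) (a (b (a (c (l 16777048)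 (l 90966057527)) (l 16777536)) (l 16777696)) (l 16778192)))) (c (c (l 16778384) (l 16781160)) (b (a (l 16778200) (l 16778952)) (l 16774040)))))), by decide +kernel⟩

def k4_pm_101_t : ∃ t, chk3 f_pm_101_t t 17 39 1 = true :=
  ⟨(a (b (a (b (l 4) (a (l 4) (c (b (l 204245824967) (l 107072176983)) (a (c (l 206393308279) (l 213909500791)) (b (l 195655891063) (c (l 16777344) (l 16777248))))))) (c (b (a (b (l 211762017559) (l 111367143463)) (l 16777672)) (l 16777720)) (b (b (a (a (l 4) (l 213372630951)) (a (c (l 16777184) (l 81302380855)) (l 16777552))) (a (a (l 207467051031) (a (l 102777218007) (l 16777464))) (l 16777704))) (a (a (c (l 16773776) (l 30299644583)) (l 16777712)) (l 16778184))))) (a (a (c (b (b (l 196729632391) (l 103314080839)) (l 16777504)) (c (b (b (l 201561470231) (a (l 117809597431) (l 16777416))) (l 16777664)) (b (b (l 200487728167) (a (l 115662113655) (l 16777304))) (l 16777712)))) (c (l 16777648) (b (c (c (l 16777680) (l 16777728)) (l 16773848)) (l 16778168)))) (c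 (l 16778112) (c (b (l 16778328) (l 16778928)) (a (l 16778624) (l 16779408)))))) (c (b (a (l 16783536) (l 16779568)) (l 16779776)) (b (a (b (a (l 16778184) (l 16778912)) (l 16773976)) (c (l 16780176) (l 16780688))) (c (a (l 16780000) (l 16781704)) (a (l 16780632) (l 16782560)))))), by decide +kernel⟩

def k5_pm_101_t : ∃ t, chk3 f_pm_101_t t 9 8 1 = true :=
  ⟨(a (a (l 4) (l 1)) (l 1)), by decide +kernel⟩

def k6_pm_101_t : ∃ t, chk3 f_pm_101_t t 9 36 1 = true :=
  ⟨(a (a (b (l 4) (a (l 4) (b (l 4) (b (l 4) (a (l 4) (a (l 4) (b (a (l 4) (a (a (l 4) (l 1)) (l 1))) (c (c (l 16777184) (l 16774528)) (c (l 16774160) (a (b (l 232163114167) (l 102240351223)) (l 16776080))))))))))) (b (l 1) (b (l 1) (b (l 1) (b (l 1) (a (a (a (c (l 54257517863) (l 16777928)) (l 1)) (l 1)) (l 1))))))) (l 1)), by decide +kernel⟩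

def k7_pm_101_t : ∃ t, chk3 f_pm_101_t t 9 74 1 = true :=
  ⟨(a (a (a (b (l 4) (b (l 4) (a (l 4) (a (l 4) (c (c (l 16776904) (l 103850962279)) (a (c (l 119420214087) (l 177939151751)) (b (l 113514637671) (l 16777384)))))))) (c (b (a (c (l 179549763239) (c (l 181160375783) (l 179549762935))) (c (l 16772736) (a (c (l 39963317383) (l 44795155607)) (l 16777680)))) (c (a (l 16777952) (l 16778152)) (a (c (l 29225899047) (b (l 16771736) (l 16777664))) (l 16778176)))) (b (b (a (l 4) (b (a (a (l 4) (a (l 225720663255) (a (l 116198994215) (l 90429191255)))) (c (l 16777448) (l 16776312))) (a (a (a (l 225183792343) (l 101166608599)) (l 16776080)) (l 16777592)))) (a (a (l 4) (c (l 102240344231) (a (b (l 4) (l 116198992311)) (b (l 157001186775) (l 16777392))))) (c (l 16777688) (a (l 16776232) (l 16777888))))) (b (a (c (a (l 102240344247) (l 16777520)) (a (b (a (l 4) (l 115662121399)) (a (l 115125250503) (l 16777392))) (l 16777544))) (l 16778056)) (a (a (l 16776216) (l 16777872)) (l 16778448))))))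 (a (c (c (l 16778872) (b (c (l 16778560) (l 16778568)) (l 16779328))) (a (b (a (l 16778064) (l 16775840)) (l 16776432)) (b (l 65531803527) (l 16774680)))) (a (b (l 1) (c (l 16780696) (l 16780856))) (l 1)))) (l 1)), by decide +kernel⟩

def k8_pm_101_t : ∃ t, chk3 f_pm_101_t t 9 75 1 = true :=
  ⟨(a (a (a (a (b (a (l 4) (b (l 4) (c (c (l 16776896) (l 103314086183)) (c (l 101166602487) (b (l 174717926327) (a (l 111904025255) (l 16777384))))))) (c (c (l 16777888) (b (a (l 102777215335) (l 16777488)) (l 16777632))) (a (b (a (l 168275475479) (a (l 93113543047) (l 16774848))) (l 16777528)) (l 16777688)))) (a (c (b (c (l 16777824) (c (l 16777720) (l 43184543159))) (l 16777936)) (b (b (c (l 101703473335) (b (l 176865409959) (a (l 112977766967) (l 16777384)))) (l 16777528)) (l 16778048))) (c (c (l 16777920) (l 16777952)) (b (c (l 16777680) (l 16777712)) (l 16778432))))) (c (c (l 16778720) (c (l 16778760) (l 16778800))) (a (a (b (l 16778048) (l 16778824)) (l 16778808)) (c (l 16779344) (l 16774240)))))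 (c (c (l 16781160) (c (l 16770744) (l 16770800))) (a (c (l 16780608) (c (l 16780744) (l 16775608))) (c (l 16782584) (c (l 16782752) (l 16782880)))))) (b (l 1) (a (a (c (l 16785096) (l 16785520)) (l 1)) (l 1)))), by decide +kernel⟩

def k9_pm_101_t : ∃ t, chk3 f_pm_101_t t 9 19 1 = true :=
  ⟨(a (b (a (c (b (a (c (l 16778560) (b (l 16778392) (l 16779056))) (c (l 16780080) (l 16780256))) (a (l 16769392) (l 16781584))) (b (a (a (b (c (l 16778160) (l 16778264)) (l 16778976)) (l 16774112)) (c (l 16780488) (l 16775528))) (c (l 16781080) (a (l 16780736) (l 16782728))))) (c (b (c (l 16782744) (a (l 16782104) (l 16784216))) (a (l 16783568) (l 16785824))) (b (a (c (l 16782408) (l 16772296)) (c (l 16784552) (l 16784992))) (a (c (l 16784304) (l 16784936)) (l 16776488))))) (c (a (b (a (l 16781144) (l 16783008)) (l 16772752)) (c (l 16765464) (b (l 16786544) (l 16788360)))) (a (c (b (l 16774936) (l 16774120)) (b (a (l 16782648) (l 16784840)) (l 16775240))) (c (b (l 16787376) (l 16789544)) (a (b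 (l 16787248) (l 16789712)) (l 16780520)))))) (a (c (b (c (l 16767232) (b (a (l 16786576) (l 16789216)) (l 16768824))) (c (l 16791928) (b (l 16791936) (l 16794112)))) (b (b (a (c (l 16786928) (l 16787392)) (l 16779288)) (a (l 16789544) (l 16792328))) (b (a (l 16792088) (l 16795048)) (c (l 16795400) (l 16796928))))) (b (a (a (c (l 59089361911) (l 54257522343)) (l 1)) (l 1)) (a (c (l 16776392) (a (l 16777840) (l 16800488))) (c (l 16800896) (l 31172082871)))))), by decide +kernel⟩

def k10_pm_101_t : ∃ t, chk3 f_pm_101_t t 16 40 1 = true :=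
  ⟨(a (b (l 4) (a (l 4) (b (l 4) (a (c (l 209614532791) (c (l 219278208599) (l 221962562759))) (c (b (l 155927454615) (l 16777488)) (c (b (l 121567690167) (l 16777296)) (b (l 118883335479) (l 42110802199)))))))) (b (a (b (l 4) (a (l 4) (a (c (l 122104558695) (b (l 4) (c (l 117272729047) (l 16771536)))) (c (l 16777232) (c (l 88281708887) (l 84523602327)))))) (c (b (a (b (l 118346460679) (l 94187276759)) (l 16777448)) (l 16777496)) (b (a (c (c (l 114588364279) (a (l 117809590791) (l 102240344327))) (a (l 177939150487) (l 95797897047))) (c (l 16777624) (l 16777624))) (c (l 16777800) (l 16777784))))) (c (a (b (a (b (l 121567688967) (l 83986760087)) (l 16777408)) (a (l 16777400) (l 16777656))) (l 16777848)) (a (b (a (a (b (l 4) (c (l 103850955671) (l 99555988295))) (c (l 47479510151) (l 49626994055))) (c (l 16777640) (l 16777400))) (a (c (l 16777656) (b (l 16777264) (l 16777272))) (c (l 16778184) (l 16777544)))) (c (l 16783808) (l 16778272)))))), by decide +kernel⟩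

def k11_pm_101_t : ∃ t, chk3 f_pm_101_t t 16 41 1 = true :=
  ⟨(a (b (a (b (a (l 4) (c (l 198340243991) (c (l 207467048935) (l 210688274023)))) (a (c (l 188676567927) (c (l 196729631095) (l 197266501671))) (c (b (l 138747587751) (l 16777400)) (c (b (l 117272727047) (l 16777264)) (b (a (l 118883339111) (l 16777128)) (l 16777088)))))) (b (c (a (b (l 119957078679) (l 16777512)) (l 16777336)) (a (c (l 97408521047) (b (a (l 122641434775) (l 16777024)) (l 35668352871))) (c (l 16777576) (l 16777128)))) (c (l 16777304) (c (l 16777616) (l 16776952))))) (a (b (a (c (b (l 130157654407) (l 16777272)) (c (l 50163860999) (a (b (l 118346468615) (l 16777104)) (l 16777032)))) (c (l 16777176) (l 16779664))) (c (l 16777056) (c (l 16777136) (l 16776472)))) (c (l 16777312) (c (l 16777824) (l 16776544))))) (c (a (b (a (l 16777624) (l 16767504)) (l 16777992)) (b (b (l 16778424) (l 16778768)) (l 16768600))) (b (a (c (b (l 16783632) (l 16778832)) (a (l 16777232) (b (l 16777616) (l 16777616)))) (c (b (l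 16779656) (l 16780360)) (b (l 16778584) (l 16773456)))) (a (c (l 16779304) (l 16777200)) (c (l 16781120) (b (l 16778752) (l 16778736))))))), by decide +kernel⟩

def k12_pm_101_t : ∃ t, chk3 f_pm_101_t t 17 20 1 = true :=
  ⟨(a (b (c (b (a (l 16777928) (l 16778896)) (l 16779032)) (b (a (c (b (l 16778264) (l 16778848)) (l 16784200)) (c (l 16779832) (l 16780600))) (c (a (l 16779792) (l 16781304)) (l 16770968)))) (c (b (l 16779968) (a (l 16780440) (l 16781920))) (b (c (l 16782040) (l 16782416)) (a (c (l 16783152) (b (l 16781208) (l 16781336))) (l 16775872))))) (c (b (b (l 16780792) (l 16781904)) (b (l 16783144) (l 16784528))) (b (c (b (a (l 16781448) (l 16783328)) (l 16783960)) (b (l 16772872) (l 16785624))) (c (b (l 16785984) (l 16788304)) (b (l 16788280) (l 16791336)))))), by decide +kernel⟩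

def k13_pm_101_t : ∃ t, chk3 f_pm_101_t t 8 21 1 = true :=
  ⟨(a (b (a (c (b (a (l 16776800) (l 16777208)) (l 16786928)) (b (a (c (l 16776880) (l 16775656)) (c (l 16777824) (l 16775784))) (a (l 16775336) (l 16776160)))) (c (a (b (l 16778040) (l 16777872)) (l 16768712)) (c (a (l 16779672) (l 16781888)) (b (a (l 16776736) (l 16778584)) (l 16774328))))) (a (c (b (a (l 16775648) (l 16776352)) (l 16775000)) (a (b (l 16774112) (l 16772608)) (b (l 16775200) (l 16773952)))) (c (b (l 16778080) (l 16777536)) (c (b (l 16780776) (l 16780168)) (b (l 16776096) (l 16774960)))))) (b (c (a (b (a (l 16781088) (l 16783104)) (a (l 16781256) (l 16783840))) (b (l 16786040) (l 16766608))) (a (b (a (c (l 16784496) (l 16781416)) (c (l 16787304) (l 16777416))) (a (l 16784208) (c (l 16788800) (l 16785440)))) (b (c (l 16790912) (l 16793264)) (a (c (l 16792392) (l 16790704)) (l 16797808))))) (a (c (b (l 16782360) (l 16782112)) (c (b (l 16787080) (l 16787112)) (b (l 16782952) (l 16782384)))) (c (b (l 16767760)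 (l 16789272)) (b (c (l 16795824) (a (l 16790888) (l 16797616))) (c (l 16797040) (l 16794152))))))), by decide +kernel⟩

def k14_pm_101_t : ∃ t, chk3 f_pm_101_t t 9 10 1 = true :=
  ⟨(a (a (b (b (c (b (l 16784568) (l 16785992)) (c (b (l 16776016) (l 16788616)) (b (l 16788072) (l 16790736)))) (c (l 16767232) (c (b (l 16791016) (l 16793696)) (b (l 16793784) (l 16797232))))) (b (c (l 16791848) (c (l 16798016) (b (l 16801056) (l 16805312)))) (c (b (l 16795072) (l 16797128)) (b (l 16806600) (a (l 16809016) (l 16813136)))))) (b (b (c (b (l 16789504) (l 16791256)) (c (b (l 16791800) (l 16794280)) (b (l 16793672) (l 16796720)))) (c (l 16793952) (c (b (l 16797048) (l 16800080)) (l 16780832)))) (b (c (l 16798240) (c (l 16804944) (l 16789264))) (c (l 16802968) (c (l 16812680) (l 16820304)))))) (b (b (c (a (b (l 16795536) (l 16797616)) (b (l 16802568) (l 16805008))) (a (c (b (l 16798032) (l 16800888)) (b (l 16800064) (l 16803512))) (c (l 16785528) (l 16787872)))) (c (a (l 16800816) (l 16808736))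 (a (c (l 16784512) (l 16809176)) (c (l 16813512) (l 16817288))))) (b (c (a (l 16805760) (l 16814368)) (a (c (l 16812824) (l 16818360)) (c (l 16821592) (l 16827240)))) (c (a (l 16811120) (l 16820376)) (a (c (l 16821224) (l 16829112)) (l 16813600)))))), by decide +kernel⟩

def k15_pm_101_t : ∃ t, chk3 f_pm_101_t t 4 11 1 = true :=
  ⟨(b (a (a (c (c (b (a (l 16772784) (l 16775296)) (a (l 16769768) (l 16772776))) (b (a (l 16773560) (l 16777024)) (a (l 16770360) (l 16774408)))) (a (b (b (c (l 16773392) (l 16769488)) (l 16769536)) (b (l 16767288) (l 16764744))) (b (c (l 16778568) (l 16772736)) (l 16772120)))) (a (b (c (b (l 16781616) (l 16780864)) (c (l 16786392) (l 16780960))) (c (l 16779096) (l 16782392))) (b (c (l 16767808) (c (l 16796968) (l 16793616))) (c (l 16787320) (l 16797456))))) (a (c (b (a (b (l 16798560) (l 16799104)) (b (l 16807000) (l 16809544))) (a (l 16798256) (l 16790152))) (b (a (b (a (l 16811328) (l 16817712)) (l 16815656)) (b (l 16824296) (l 16829640))) (a (l 16815256)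 (l 16791792)))) (b (c (a (l 16816896) (l 16826736)) (a (l 16836160) (l 16846280))) (a (c (l 16822984) (l 16827744)) (l 16782824))))) (a (a (b (a (c (l 16765728) (l 16760144)) (c (l 16769744) (l 16767072))) (a (b (l 16759952) (l 16755456)) (b (l 16766552) (l 16762368)))) (b (a (c (l 16775792) (l 16778240)) (c (l 16784512) (l 16794352))) (a (l 16772552) (l 16783792)))) (a (b (a (c (l 16795960) (l 16812896)) (c (l 16810136) (l 16833680))) (a (l 16798272) (l 16816000))) (b (c (a (l 16826080) (l 16840168)) (a (l 16856376) (l 16873944))) (a (l 16816024) (l 6)))))), by decide +kernel⟩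

def k16_pm_101_t : ∃ t, chk3 f_pm_101_t t 5 2 1 = true :=
  ⟨(b (a (b (l 1) (a (a (a (b (l 1) (b (l 1) (c (l 16804712) (l 16785704)))) (l 1)) (l 1)) (l 1))) (l 1)) (b (b (a (a (b (c (a (b (l 16810688) (l 16813440)) (l 16800728)) (a (b (l 16814016) (l 16817928)) (l 37077681783))) (c (a (l 16817720) (l 16828240)) (a (c (l 16822440) (l 16826160)) (c (l 16832784) (l 16836376))))) (a (b (l 1) (c (l 16840416) (l 16825352))) (l 1))) (l 1)) (a (b (a (c (a (l 16824096) (l 16835376)) (a (c (l 16831312) (l 16836920)) (l 16824184))) (c (a (l 16848368) (l 16862824)) (a (l 16857856) (l 16871872)))) (a (c (a (l 16830792) (l 16842848)) (a (l 16845000) (l 16856936))) (a (c (l 16856656) (l 16870528)) (l 6)))) (a (l 6) (l 1)))) (a (b (a (b (c (a (l 16837776) (l 16850528)) (a (l 16857344) (l 16870000))) (c (l 16830320) (l 16856432))) (l 6)) (l 6)) (l 6)))), by decide +kernel⟩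

def k17_pm_101_t : ∃ t, chk3 f_pm_101_t t 2 3 1 = true :=
  ⟨(b (a (b (a (b (a (b (a (l 16747352) (l 16754736)) (l 16738408)) (b (a (l 16763144) (l 16774656)) (a (l 16751064) (l 16762736)))) (a (b (l 16722496) (a (l 16700928) (l 16710040))) (b (a (l 16736360) (b (l 16752064) (l 6))) (a (l 16717704) (l 6))))) (b (a (b (a (l 16789352) (l 16807272)) (a (l 16777536) (l 6))) (l 6)) (l 6))) (a (b (a (b (a (l 16678912) (l 6)) (l 6)) (l 6)) (l 6)) (l 6))) (l 6)) (l 6)), by decide +kernel⟩

def k18_pm_101_t : ∃ t, chk3 f_pm_101_t t 3 1 1 = true :=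
  ⟨(b (a (b (l 1) (l 6)) (l 1)) (l 6)), by decide +kernel⟩

theorem s19_pm_101_t : ∃ t, chk3 f_pm_101_t t 16 20 1 = true := ex3_b k10_pm_101_t k11_pm_101_t

theorem s20_pm_101_t : ∃ t, chk3 f_pm_101_t t 8 20 1 = true := ex3_a s19_pm_101_t k12_pm_101_t

theorem s21_pm_101_t : ∃ t, chk3 f_pm_101_t t 8 10 1 = true := ex3_b s20_pm_101_t k13_pm_101_t

theorem s22_pm_101_t : ∃ t, chk3 f_pm_101_t t 4 10 1 = true := ex3_a s21_pm_101_t k14_pm_101_t

theorem s23_pm_101_t : ∃ t, chk3 f_pm_101_t t 4 5 1 = true := ex3_b s22_pm_101_t k15_pm_101_t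

theorem s24_pm_101_t : ∃ t, chk3 f_pm_101_t t 9 37 1 = true := ex3_b k7_pm_101_t k8_pm_101_t

theorem s25_pm_101_t : ∃ t, chk3 f_pm_101_t t 9 18 1 = true := ex3_b k6_pm_101_t s24_pm_101_t

theorem s26_pm_101_t : ∃ t, chk3 f_pm_101_t t 9 9 1 = true := ex3_b s25_pm_101_t k9_pm_101_t

theorem s27_pm_101_t : ∃ t, chk3 f_pm_101_t t 9 4 1 = true := ex3_b k5_pm_101_t s26_pm_101_t

theorem s28_pm_101_t : ∃ t, chk3 f_pm_101_t t 17 19 1 = true := ex3_b k3_pm_101_t k4_pm_101_t

theorem s29_pm_101_t : ∃ t, chk3 f_pm_101_t t 17 9 1 = true := ex3_b k2_pm_101_t s28_pm_101_t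

theorem s30_pm_101_t : ∃ t, chk3 f_pm_101_t t 8 9 1 = true := ex3_a k1_pm_101_t s29_pm_101_t

theorem s31_pm_101_t : ∃ t, chk3 f_pm_101_t t 8 4 1 = true := ex3_b k0_pm_101_t s30_pm_101_t

theorem s32_pm_101_t : ∃ t, chk3 f_pm_101_t t 4 4 1 = true := ex3_a s31_pm_101_t s27_pm_101_t

theorem s33_pm_101_t : ∃ t, chk3 f_pm_101_t t 4 2 1 = true := ex3_b s32_pm_101_t s23_pm_101_t

theorem s34_pm_101_t : ∃ t, chk3 f_pm_101_t t 2 2 1 = true := ex3_a s33_pm_101_t k16_pm_101_t

theorem s35_pm_101_t : ∃ t, chk3 f_pm_101_t t 2 1 1 = true := ex3_b s34_pm_101_t k17_pm_101_t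

theorem s36_pm_101_t : ∃ t, chk3 f_pm_101_t t 1 1 1 = true := ex3_a s35_pm_101_t k18_pm_101_t

theorem c_pm_101_t : CertNE 536870912 536870912 536870912 536870912 649613803 48318383 3 eng mog cd0q1 cd0q1 pd0 false true false .npn 1 0 1
    ndB0q1 ndB0q1 pcB0 cut_pm_101_t Ext.none :=
  certNE0 (fam := false) (s1 := true) (s2 := false) (a := 1) (b := 0) (c := 1) (cn := .npn) (n1 := ndB0q1) (n2 := ndB0q1) (pc := pcB0) (cut := cut_pm_101_t) (xt := Ext.none) (P1 := 536870912) (W1 := 536870912) (P2 := 536870912) (W2 := 536870912) (P3 := 649613803) (W3 := 48318383) (N0 := 3) (En := eng) (mo := mog) (C1 := cd0q1) (C2 := cd0q1) (C3 := pd0)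
    rfl s36_pm_101_t

noncomputable def cut_pm_102_s : Cut := Cut.of [[⟨4, 0, 0, 1449551462⟩], [⟨0, 1, 0, 33554432⟩, ⟨1, 0, 0, 33554432⟩, ⟨2, 1, 0, 33554432⟩], [⟨0, 0, 1, 20971520⟩, ⟨1, 1, 2, 20971520⟩, ⟨2, 1, 0, 33554432⟩]]

noncomputable def f_pm_102_s : ℕ → ℕ → ℕ → ℕ → Bool := onCell 536870912 536870912 0 536870912 649613803 48318383
    (rowNE 3 eng mog cd0q1 cd0q2 pd0 0 false true false .npp 1 0 2 (qsf 536870912 536870912 0 536870912 0) ndB0q1 ndB0q2 pcB0 cut_pm_102_s Ext.none)

def k0_pm_102_s : ∃ t, chk3 f_pm_102_s t 4 2 1 = true :=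
  ⟨(b (l 2) (a (l 2) (b (l 2) (a (l 2) (b (l 2) (l 16665656)))))), by decide +kernel⟩

def k1_pm_102_s : ∃ t, chk3 f_pm_102_s t 10 2 1 = true :=
  ⟨(b (a (a (l 2) (b (l 3) (a (b (l 2) (b (l 16760792) (l 16753160))) (b (b (b (l 3) (a (b (l 158544689351) (l 16776192)) (l 162302784167))) (b (a (l 16773312) (l 50633641911)) (l 16770128))) (b (l 16763992) (b (l 16757368) (l 16753736))))))) (b (l 3) (b (a (b (l 3) (a (b (a (b (l 158007818183) (l 54928608279)) (l 160692171143)) (a (l 16773200) (b (l 56002350247) (l 16774392)))) (b (l 3) (a (b (l 159081559703) (l 57612963079)) (l 158007816263))))) (l 3)) (a (b (a (l 16767720) (b (a (l 16773376) (b (l 58149834023) (l 16774632))) (l 16770064))) (a (b (l 16761232) (l 16756536)) (l 16763504))) (b (a (b (a (b (l 157470946631) (l 60297318599)) (l 156934074071)) (a (l 16773656) (b (l 118279376935) (l 16774944)))) (b (l 3) (a (l 130627407063) (l 3)))) (a (l 16768240) (b (a (l 16774024) (b (l 121500601927) (l 16775296))) (l 16770904)))))))) (b (a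 (b (a (l 16732168) (l 16738944)) (a (l 16711432) (l 16720096))) (b (a (b (a (l 16750856) (b (l 16756664) (l 16753208))) (l 16743792)) (b (a (b (l 16761832) (l 16757272)) (l 16764704)) (a (l 16752392) (b (l 16758344) (l 16755416))))) (a (l 16731088) (l 16742984)))) (a (b (a (l 16695312) (l 16702360)) (l 16679816)) (b (a (l 16712904) (l 16728048)) (a (l 16698264) (l 16714336)))))), by decide +kernel⟩

def k2_pm_102_s : ∃ t, chk3 f_pm_102_s t 11 2 1 = true :=
  ⟨(b (b (l 3) (a (b (l 3) (a (b (l 3) (a (b (a (l 131164272423) (l 3)) (a (l 16774448) (b (l 124721826551) (l 16775672)))) (b (l 3) (l 132238012327)))) (l 3))) (l 3))) (b (a (b (a (b (a (l 16769584) (b (a (l 16774904) (b (l 127943051079) (l 16776032))) (l 16772304))) (a (b (l 16763872) (l 16759824)) (l 16767080))) (b (a (b (l 131164270055) (a (l 16775376) (l 116668764407))) (l 142975426711)) (a (l 16782096) (b (a (l 16775824) (l 119353117767)) (l 16774064))))) (a (b (a (l 16755728) (b (l 16761616) (l 16759160))) (l 16751136))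 (b (a (b (l 16767072) (l 16763648)) (l 16770136)) (a (l 16760432) (b (l 16765944) (l 16764272)))))) (b (a (b (l 3) (a (b (l 137069848983) (a (l 16776216) (l 122037472551))) (l 3))) (l 3)) (a (b (a (b (l 16774944) (l 16772824)) (b (a (l 16776504) (l 124721827319)) (l 16775672))) (a (b (l 16770864) (l 16768576)) (l 16773432))) (b (a (b (l 3) (l 117742508807)) (l 3)) (a (b (l 16776184) (l 16775120)) (b (l 123648090519) (l 16776704))))))) (a (b (a (l 16741608) (l 16754632)) (a (l 16728568) (l 16744080))) (b (a (b (a (l 16766552) (b (l 16770928) (l 16770008))) (l 16764328)) (b (a (l 16778656) (l 16776280)) (a (l 16772400) (b (l 16775704) (l 16775912))))) (a (l 16759080) (l 16791864)))))), by decide +kernel⟩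

def k3_pm_102_s : ∃ t, chk3 f_pm_102_s t 2 3 1 = true :=
  ⟨(b (a (l 6) (a (b (a (b (l 16661504) (l 6)) (b (l 16689912) (l 16676608))) (l 6)) (b (a (b (a (l 16717024) (l 16736576)) (l 16715968)) (b (a (b (l 16753888) (l 16752312)) (b (l 16768000) (l 16765912))) (a (l 16746072) (l 16763904)))) (a (b (a (l 16699160) (l 16721360)) (l 6)) (b (a (l 16742344) (l 16759936)) (a (b (l 16743096) (l 6)) (b (l 16761736) (c (l 16746824) (l 16739680))))))))) (a (l 6) (l 6))), by decide +kernel⟩

def k4_pm_102_s : ∃ t, chk3 f_pm_102_s t 3 2 1 = true :=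
  ⟨(a (b (l 3) (a (b (a (b (l 3) (a (b (l 3) (a (b (l 3) (l 116131885943)) (l 3))) (l 3))) (l 3)) (a (b (a (b (a (b (l 72108482711) (l 16777464)) (b (l 115595013927) (l 89825224999))) (a (l 16777704) (l 16778520))) (b (a (l 126332447735) (l 3)) (a (b (l 95730804535) (l 16778432)) (b (l 129016783879) (a (l 16777656) (l 84993365991)))))) (a (b (a (l 16778232) (b (l 16779288) (l 16779920))) (l 16777600)) (b (a (l 16779496) (b (l 16778608) (l 16779928))) (a (l 16781064) (b (l 16781160) (l 16782768)))))) (b (a (b (l 3) (a (l 137069841351) (l 3))) (l 3)) (a (b (a (b (a (l 16777608) (l 100025750951)) (l 16779016)) (b (l 3) (a (l 68350369783) (l 124184948887)))) (a (b (l 16780888) (l 16782672)) (b (a (l 16779640) (l 16778512)) (l 16781264)))) (b (l 3) (a (b (a (b (l 100025750311) (l 16777768)) (l 139754203495)) (a (l 16779528) (b (l 60297308407) (l 16778792)))) (b (l 3) (a (b (l 144049172423) (a (l 16777768) (l 83382758183))) (l 152639103383))))))))) (l 3))) (l 3)), by decide +kernel⟩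

def k5_pm_102_s : ∃ t, chk3 f_pm_102_s t 12 6 1 = true :=
  ⟨(b (a (b (a (l 16776264) (b (l 16781816) (l 16782056))) (a (b (l 16775280) (l 16774816)) (b (l 16782600) (a (l 16781904) (l 16762912))))) (b (a (b (a (b (l 16763464) (l 16784800)) (b (l 16783408) (a (l 16785608) (l 16784912)))) (l 16785336)) (b (a (b (l 16781160) (a (l 16784072) (l 16782800))) (b (a (b (l 16778600) (l 16779728)) (b (a (l 16774896) (l 104857593863)) (l 16778368))) (a (l 16781416) (l 16780024)))) (a (b (a (l 16785808) (l 16784680)) (l 16785904)) (b (l 16782896) (a (l 16764320) (l 16773376)))))) (a (b (l 16785568) (l 16785568)) (b (a (l 16785752) (b (l 16785384) (l 16785088))) (l 16764768))))) (a (b (a (l 16773232) (l 16782512)) (a (b (l 16775256) (l 16757248)) (l 16765344))) (b (b (a (a (l 16766176) (l 16787320)) (a (l 16765616) (l 16786432))) (a (l 16787672) (a (l 16768432) (b (l 16766512) (l 16789088))))) (a (c (l 16790624) (l 16771352)) (b (l 16769472) (l 16772920)))))), by decide +kernel⟩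

def k6_pm_102_s : ∃ t, chk3 f_pm_102_s t 26 12 1 = true :=
  ⟨(b (a (b (a (b (a (b (l 3) (a (l 66202887655) (l 110763170775))) (l 3)) (a (b (l 16778120) (l 16779184)) (b (a (l 82845887063) (l 146733527719)) (a (l 16778216) (l 16774904))))) (b (l 3) (a (b (l 3) (a (l 101636368119) (l 3))) (l 3)))) (a (b (a (l 16780736) (l 16779384)) (l 16781984)) (b (a (b (a (l 16777968) (l 68887243847)) (l 16778592)) (b (l 140291076247) (a (l 16777720) (b (l 106468206167) (l 16777360))))) (a (l 16779936) (l 16776112))))) (b (l 3) (a (b (a (l 153712847751) (l 3)) (a (b (a (l 52781115623) (b (l 118816236599) (l 78550919815))) (l 16778048)) (b (l 156397201319) (a (b (l 92509564455) (l 16777520)) (l 130090530599))))) (l 3)))) (a (b (a (b (a (b (l 16783904) (l 16784552)) (b (l 16782624) (l 16783248))) (a (l 16784336) (l 16783984))) (b (l 16780920) (a (b (l 16782544) (l 16783272)) (b (l 16781368) (l 16781808))))) (a (l 16784144) (b (c (l 16761776) (l 16773168)) (l 16782808)))) (b (a (b (a (l 16779120)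 (c (l 39896223927) (l 16778216))) (l 16779832)) (b (a (b (a (b (l 108078819943) (l 16777280)) (l 145122914935)) (a (l 16777792) (l 73719089783))) (b (l 3) (a (b (l 149954753975) (l 86603984599)) (l 3)))) (a (l 16778376) (b (a (l 16777584) (b (l 95193918743) (l 16777384))) (l 16777848))))) (a (b (a (b (l 16781064) (l 16781776)) (a (l 16769848) (l 16780048))) (a (l 16781696) (b (l 16781032) (l 16780984)))) (b (a (l 16779264) (l 16778400)) (a (b (l 16779696) (l 16769832)) (b (l 16778920) (l 16779144)))))))), by decide +kernel⟩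

def k7_pm_102_s : ∃ t, chk3 f_pm_102_s t 27 12 1 = true :=
  ⟨(b (l 3) (a (b (a (b (l 3) (a (b (a (l 135459239559) (l 3)) (a (l 16777384) (b (l 109152559863) (l 16777168)))) (b (l 3) (l 153175976599)))) (l 3)) (a (b (a (b (l 16777608) (l 16777888)) (b (a (l 77477186407) (b (l 155860333751) (l 91435822279))) (l 16777432))) (a (l 16778328) (l 16777744))) (b (a (b (l 3) (a (b (l 101099498183) (l 16777232)) (l 140291077447))) (l 3)) (a (b (a (l 16777368) (l 60297317719)) (l 16777424)) (b (a (b (l 141364820071) (l 90898958247)) (l 154786590775)) (a (l 16777264) (b (l 108615698471) (l 16777232)))))))) (b (l 3) (a (b (l 3) (a (b (l 3) (a (b (l 3) (l 98952014391)) (l 3))) (l 3))) (l 3))))), by decide +kernel⟩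

def k8_pm_102_s : ∃ t, chk3 f_pm_102_s t 26 13 1 = true :=
  ⟨(b (a (b (b (l 16762944) (l 16763624)) (a (b (l 16786424) (l 16766416)) (l 16785280))) (b (a (c (l 16781336) (l 16782616)) (b (a (l 16780432) (b (l 16769160) (l 16779752))) (l 16780480))) (c (l 16760680) (l 16762608)))) (b (a (b (a (l 16788720) (l 16766208)) (l 16768208)) (a (b (l 16784776) (a (l 16787536) (l 16786128))) (b (l 16783184) (l 16762992)))) (a (c (l 16789968) (l 16794392)) (a (l 16789280) (b (a (l 16787048) (l 16764912)) (l 16788120)))))), by decide +kernel⟩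

def k9_pm_102_s : ∃ t, chk3 f_pm_102_s t 27 13 1 = true :=
  ⟨(b (a (b (a (b (a (b (l 16778696) (l 16768544)) (l 16778176)) (a (l 16779368) (b (l 16767984) (l 16778920)))) (b (a (l 16777640) (l 16777352)) (a (b (l 16777912) (a (l 16778352) (l 16777808))) (l 16777648)))) (a (b (l 16779504) (l 16780296)) (b (a (l 16768328) (b (b (l 16777712) (l 16757080)) (l 16757552))) (a (l 16779224) (l 16778368))))) (b (a (b (a (b (a (l 16777216) (b (l 107005077479) (l 16777144))) (l 16777256)) (b (a (l 145659786135) (l 3)) (a (b (l 89825217255) (l 16777216)) (b (l 149417883271) (l 104857601751))))) (a (l 16777376) (b (a (l 16777208) (l 16777136)) (l 16777040)))) (b (a (l 164450263399) (l 3)) (a (b (a (b (c (l 119353115991) (l 91972691735)) (l 16777112)) (b (l 3) (l 126869308999))) (a (l 16776968) (b (l 52244253335) (l 16776968)))) (b (l 3) (a (b (l 138143594871) (c (l 59760445351) (l 64592283175))) (l 152639107383)))))) (a (b (a (b (l 16777456) (c (l 16755872) (l 16756584))) (l 16776752)) (a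 (b (l 16767080) (l 16777224)) (b (a (l 16776360) (l 16776208)) (a (l 16776440) (l 16755176))))) (b (a (l 16780480) (b (a (l 16776856) (b (a (l 16777056) (l 103246982983)) (l 16776952))) (l 16776512))) (a (b (l 16775992) (a (l 16764976) (l 16775552))) (c (l 16775776) (l 16775944))))))) (a (b (a (b (l 16781288) (l 16782400)) (b (l 16758200) (l 16779776))) (a (a (b (l 16763104) (l 16786048)) (b (l 16782856) (l 16784808))) (b (l 16780712) (a (l 16761664) (l 16780984))))) (b (a (b (l 16768952) (l 16777328)) (b (a (b (a (l 16775728) (l 16764840)) (l 16775504)) (b (a (l 16764352) (l 16775120)) (a (l 16775184) (b (l 16774600) (l 16774832))))) (c (l 16775240) (l 16775968)))) (a (c (l 16778016) (l 16780104)) (b (l 16765896) (l 16777664)))))), by decide +kernel⟩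

def k10_pm_102_s : ∃ t, chk3 f_pm_102_s t 12 7 1 = true :=
  ⟨(b (a (b (b (a (a (l 16759352) (l 16765640)) (a (l 16770032) (l 16773264))) (a (l 6) (l 16777272))) (l 6)) (b (a (b (a (l 16797160) (l 16798880)) (b (c (l 16800912) (l 16785056)) (l 16785120))) (b (l 16799056) (a (b (l 16803912) (l 16787232)) (b (l 16803680) (l 16786112))))) (a (b (c (l 16807952) (l 16815776)) (l 6)) (a (b (l 16792352) (l 16801688)) (b (l 16792280) (b (l 16820128) (l 16804304))))))) (l 6)), by decide +kernel⟩

def k11_pm_102_s : ∃ t, chk3 f_pm_102_s t 13 7 1 = true :=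
  ⟨(b (a (b (a (b (l 16775944) (a (l 16782968) (l 16802648))) (b (a (l 16773168) (c (l 16788800) (l 16794848))) (a (l 16779192) (l 16796968)))) (b (a (a (b (c (l 16805808) (l 16816552)) (l 16793432)) (b (c (l 16803016) (l 16792880)) (l 16806856))) (b (l 16782256) (a (l 16788448) (l 16784216)))) (a (a (b (l 16797856) (l 16812832)) (l 16818160)) (c (l 16807944) (l 16819160))))) (b (b (a (a (l 16767232) (b (b (l 16762824) (l 16784392)) (l 16786096))) (a (b (b (l 16759400) (a (l 16782664) (l 16781040))) (l 16762760)) (b (l 16779344) (a (a (l 16761512) (l 16760816)) (a (l 16760040) (l 16759464)))))) (a (a (l 16793480) (l 16769160)) (a (l 16766376) (c (l 16783632) (l 16787296))))) (b (a (a (l 16757664) (l 16796568)) (a (l 16772632) (l 16770288))) (a (b (a (l 16785160) (a (l 16802800) (l 16800768))) (l 16755112)) (b (a (l 16798632) (l 16796424)) (a (b (l 16801880) (l 16803592)) (b (l 16799000) (l 16780184)))))))) (b (a (b (a (c (l 16821624) (l 16836952)) (c (l 16815624) (l 16828344)))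 (a (l 6) (c (l 16824088) (l 16838232)))) (c (a (b (l 16808800) (l 16816496)) (b (a (l 16804304) (l 16801976)) (l 16830800))) (b (a (l 16819032) (l 16832120)) (a (l 16828008) (l 16840016))))) (a (a (l 6) (b (b (l 16816744) (l 6)) (l 6))) (a (b (b (l 16870048) (b (l 16831304) (a (l 6) (c (l 16824936) (l 16837200))))) (a (l 6) (a (l 6) (b (l 16828696) (l 6))))) (b (b (c (l 16815008) (l 16824936)) (a (c (l 16819496) (l 16830392)) (a (l 16842456) (l 16819752)))) (b (a (c (l 16820808) (l 16831624)) (c (l 16817808) (l 16827496))) (c (a (l 16820088) (l 16816920)) (a (l 16830472) (l 16826120))))))))), by decide +kernel⟩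

def k12_pm_102_s : ∃ t, chk3 f_pm_102_s t 14 12 1 = true :=
  ⟨(l 3), by decide +kernel⟩

def k13_pm_102_s : ∃ t, chk3 f_pm_102_s t 28 26 1 = true :=
  ⟨(a (b (l 3) (a (b (a (b (a (a (b (l 162839656311) (l 65666025111)) (l 147270399479)) (l 3)) (a (b (l 16776968) (l 16776720)) (a (b (l 117205632103) (l 16776944)) (b (l 154249722055) (l 54391736151))))) (b (l 3) (a (b (l 3) (c (l 140827949399) (l 141901691175))) (l 3)))) (a (b (l 16776456) (l 16775904)) (b (a (a (l 16776848) (b (a (l 16777032) (l 124184953719)) (l 16776880))) (b (l 153175979639) (a (l 16777000) (l 108615697095)))) (c (l 16776504) (l 16776528))))) (b (l 3) (a (b (l 165524006663) (a (a (b (a (l 16777040) (l 111836922903)) (l 16776816)) (b (l 143512304391) (l 16776992))) (b (l 3) (c (l 132238015351) (a (l 103246988631) (l 159618430999)))))) (l 3))))) (l 3)), by decide +kernel⟩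

def k14_pm_102_s : ∃ t, chk3 f_pm_102_s t 56 27 1 = true :=
  ⟨(b (a (b (a (b (l 16775352) (a (l 16764024) (l 16774904))) (b (l 16775888) (l 16775288))) (a (b (a (b (l 16774632) (l 16774600)) (b (l 16774368) (l 16774488))) (l 16774712)) (b (a (l 16774480) (l 16774880)) (a (b (l 16774384) (l 16774432)) (b (l 16774472) (l 16774336)))))) (b (a (b (a (l 16776424) (b (c (l 35601254759) (a (l 16776904) (l 53854864663))) (l 16776664))) (l 16775976)) (b (a (a (b (l 136532982791) (l 16776976)) (b (l 3) (a (l 59223574023) (l 106468208983)))) (l 158544687143)) (a (l 16776592) (b (c (a (l 16776984) (l 108078820855)) (a (l 45801801175) (l 107541949895))) (l 16776848))))) (a (c (l 16775144) (l 16775168)) (b (c (l 16776184) (l 16776184)) (l 16775600))))) (a (b (a (l 16775384) (b (l 16774752) (l 16775152))) (c (l 16775968) (l 16776952))) (b (a (b (a (b (l 16763856) (l 16774632)) (b (l 16774680) (l 16763928))) (a (l 16774864) (l 16764464))) (b (l 16775136) (a (b (l 16764056) (l 16774936)) (b (l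 16775040) (l 16774736))))) (a (l 16775720) (b (a (l 16775184) (b (l 16775128) (l 16775248))) (l 16775808)))))), by decide +kernel⟩

def k15_pm_102_s : ∃ t, chk3 f_pm_102_s t 57 27 1 = true :=
  ⟨(b (a (b (a (b (l 3) (a (a (b (l 3) (a (l 50633639639) (l 118816244519))) (l 153175979159)) (l 3))) (l 3)) (a (b (a (b (c (l 16776912) (l 28085055607)) (l 16776632)) (a (b (c (l 126869308215) (l 103246985495)) (l 16776944)) (b (l 160155301655) (a (l 16777040) (l 108615697495))))) (a (l 16776208) (l 16776608))) (b (a (b (l 3) (c (l 145659787159) (l 147270399815))) (l 3)) (a (b (a (l 16777008) (a (l 103783859367) (l 107005079463))) (l 16776856)) (b (l 158007817319) (a (a (l 16777056) (l 99488892247)) (l 134385499063))))))) (l 3)) (a (a (b (b (l 16775920) (l 16775544)) (b (a (b (l 16775000) (l 16764872)) (l 16780608)) (a (l 16775696) (b (l 16765144) (l 16775848))))) (b (a (b (l 16776496) (l 16776120)) (b (c (l 16776848) (l 14126412199)) (l 16776480))) (b (l 16776080) (a (b (l 16775768) (l 16765464))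 (l 16776232))))) (b (a (b (a (a (b (a (l 64592282999) (l 101636370343)) (l 16776992)) (b (l 151028496567) (c (l 16777024) (l 52781122871)))) (a (b (l 3) (l 129553663639)) (l 3))) (a (l 16776800) (b (a (l 16777080) (a (l 59760444871) (l 97341408439))) (l 16777000)))) (b (l 3) (a (b (l 149954753991) (c (a (l 16777072) (l 100562627847)) (a (l 49559897431) (l 125795564759)))) (l 3)))) (a (b (c (l 16776720) (l 16776784)) (c (l 16776688) (l 16776808))) (b (a (b (l 16777104) (l 16777048)) (a (b (a (l 56002348583) (l 93046441255)) (l 16777160)) (b (l 141901691383) (c (l 16777136) (l 16777144))))) (a (l 16777072) (l 16777216))))))), by decide +kernel⟩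

def k16_pm_102_s : ∃ t, chk3 f_pm_102_s t 29 13 1 = true :=
  ⟨(b (l 3) (a (b (l 3) (a (b (l 3) (a (b (a (a (a (b (l 3) (l 91435828711)) (l 145659786871)) (l 3)) (l 3)) (a (a (l 16777256) (b (a (l 16777160) (l 88751474135)) (l 16777296))) (b (l 142975432407) (a (l 47949285303) (a (l 85530248615) (l 110226305767)))))) (b (l 3) (a (l 155323461095) (l 3))))) (l 3))) (l 3))), by decide +kernel⟩

def k17_pm_102_s : ∃ t, chk3 f_pm_102_s t 15 6 1 = true :=
  ⟨(l 3), by decide +kernel⟩

def k18_pm_102_s : ∃ t, chk3 f_pm_102_s t 28 14 1 = true :=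
  ⟨(b (a (b (a (b (l 16777968) (a (l 16780088) (l 16779720))) (b (c (l 16776768) (l 16777720)) (l 16763352))) (a (b (a (b (l 16782192) (l 16783320)) (b (l 16781176) (l 16782952))) (l 16785008)) (b (a (b (l 16780976) (l 16781920)) (l 16781248)) (a (b (l 16783856) (l 16784912)) (b (l 16782912) (l 16784864)))))) (b (a (b (a (l 16766376) (b (a (l 16776504) (b (l 16768464) (l 16776824))) (l 16777296))) (c (l 16778320) (l 16779344))) (b (b (a (a (b (l 16776688) (l 16768896)) (l 16777072)) (c (l 16777336) (l 16777520))) (a (a (b (l 16777368) (l 16777632)) (b (l 16766760) (l 16777928))) (a (b (l 16777648) (l 16767304)) (l 16777992)))) (b (a (l 16778384) (a (b (l 16768032) (l 16778848)) (b (l 16778392) (l 16768648)))) (a (l 16779384) (l 16779688))))) (a (b (l 16770488) (a (b (l 16782944) (l 16784112)) (l 16783528))) (c (b (l 16780664) (l 16782896)) (b (l 16781888) (l 16784712)))))) (a (b (a (c (l 16787656) (l 16791928)) (c (l 16786776) (l 16790416))) (a (b (l 16794472) (l 16797696)) (c (l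 16792632) (l 16797592)))) (b (a (b (a (l 16765736) (b (l 16764544) (l 16787120))) (l 16789232)) (b (b (l 16785728) (a (l 16766152) (l 16787112))) (a (l 16789232) (b (l 16767920) (l 16790152))))) (c (a (l 16791992) (l 16791984)) (a (l 16796384) (l 16795936)))))), by decide +kernel⟩

def k19_pm_102_s : ∃ t, chk3 f_pm_102_s t 58 28 1 = true :=
  ⟨(b (a (b (a (b (a (l 16777528) (l 16776168)) (l 16778080)) (b (a (a (b (a (l 16777232) (l 83382759831)) (l 16777472)) (b (l 133848627943) (l 16777320))) (b (l 3) (c (l 124721823767) (a (l 93046438823) (l 152102238055))))) (a (l 16777896) (b (c (l 57076090631) (a (l 16777536) (l 48486150743))) (l 16777800))))) (a (a (b (b (l 16778688) (l 16779056)) (b (l 16769296) (l 16780280))) (b (l 16778944) (b (l 16779768) (l 16769976)))) (b (c (l 16778576) (l 16778872)) (l 16780008)))) (b (a (b (l 3) (a (a (b (l 131164273479) (l 16777448)) (b (l 3) (a (l 78550922023) (l 103783855095)))) (l 152639106679))) (l 3)) (a (b (a (l 16775488) (b (a (a (l 16777432)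 (l 76940309431)) (l 128479918999)) (l 56002349863))) (a (l 16779480) (l 16778888))) (b (a (b (l 3) (c (l 120963728855) (a (l 88751469415) (l 146733529079)))) (l 3)) (a (b (c (l 42043699463) (a (l 16777976) (l 49559893303))) (l 16778520)) (a (b (l 126332435399) (l 16777768)) (a (b (l 3) (l 75329697239)) (l 132774886055)))))))) (a (a (b (c (l 16774904) (l 16772000)) (l 16784200)) (b (a (b (b (l 16770688) (l 16782064)) (l 16782784)) (b (b (l 16781136) (l 16771432)) (b (l 16772480) (l 16783416)))) (l 16769032))) (b (a (b (l 16778400) (a (b (l 16772208) (l 16783872)) (l 16773696))) (b (c (l 16775416) (a (l 16780216) (l 16779144))) (c (l 16781584) (l 16782304)))) (a (b (c (l 16784536) (l 16785792)) (l 16786104)) (b (a (c (l 16784352) (l 16785536)) (l 16784416)) (a (l 16786784) (b (l 16786648) (l 16787680)))))))), by decide +kernel⟩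

def k20_pm_102_s : ∃ t, chk3 f_pm_102_s t 59 28 1 = true :=
  ⟨(b (a (b (l 3) (a (b (l 3) (a (l 149954752183) (l 3))) (l 3))) (l 3)) (a (b (a (b (a (b (a (l 48486151191) (l 125795564535)) (l 16775696)) (a (b (l 3) (l 90898955991)) (l 150491624071))) (a (l 16774992) (b (c (l 16775360) (l 44191184167)) (l 16779360)))) (b (l 3) (a (b (l 134922369079) (a (l 16778016) (l 96267663207))) (l 154249719447)))) (a (b (c (l 16777000) (l 16776352)) (a (b (l 16784480) (l 16785552)) (l 16782632))) (b (a (c (l 16779344) (l 16778944)) (b (a (l 49023022903) (l 129016790039)) (l 29695669175))) (a (l 16780720) (l 16776536))))) (b (l 3) (a (b (a (b (l 3) (c (l 124184951847) (l 125795567191))) (l 3)) (b (a (a (l 16777920) (l 49023022599)) (l 140827949079)) (a (l 16778216) (a (l 16777536) (a (l 53854860647) (l 94657047575)))))) (b (l 3) (a (b (l 3) (l 154249720807)) (l 3))))))), by decide +kernel⟩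

def k21_pm_102_s : ∃ t, chk3 f_pm_102_s t 58 29 1 = true :=
  ⟨(b (a (b (c (l 16786168) (l 16788312)) (b (a (l 16788768) (l 16789512)) (a (l 16764568) (l 16769664)))) (b (a (l 16788056) (l 16778416)) (c (l 16790008) (l 16792584)))) (a (b (a (l 16792624) (b (l 16761304) (l 16793792))) (l 16753680)) (a (b (b (l 16771712) (l 16773832)) (l 16796408)) (b (b (l 16793720) (l 16768672)) (c (b (l 16774160) (l 16795456)) (l 16799136)))))), by decide +kernel⟩

def k22_pm_102_s : ∃ t, chk3 f_pm_102_s t 59 29 1 = true :=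
  ⟨(b (a (b (a (b (a (l 16777512) (b (l 16783800) (l 16774480))) (l 16769248)) (b (a (c (l 16782584) (l 16770648)) (l 16780064)) (b (a (c (l 16783896) (l 16771616)) (c (l 16781296) (l 16779664))) (a (l 16784984) (a (l 16771400) (a (l 16780584) (l 16779952))))))) (a (l 16771552) (a (c (l 16770416) (l 16773224)) (b (c (l 16774528) (l 16772368)) (l 16773008))))) (b (a (b (a (c (l 16779176) (l 16778312)) (b (l 16777720) (l 16777928))) (a (b (l 16778960) (a (l 16779264) (l 16778640))) (c (l 16778784) (b (l 16772336) (l 16777648))))) (b (a (a (b (b (l 80161533879) (l 16777360)) (l 16777536)) (b (c (l 141901695495) (l 133311759895)) (l 16777376))) (b (l 3) (c (l 126869306327) (a (l 84993375591) (l 156934076263))))) (a (c (l 16778280) (l 16777544)) (b (c (l 31306279943) (a (l 16777368) (l 40969956903))) (l 16777784))))) (b (a (a (a (b (b (l 16774288) (l 16780456)) (l 16782352)) (b (b (l 16778704) (l 16779200)) (l 16780952))) (b (l 16778696) (a (c (l 16775496) (l 16773592)) (l 16774024))))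 (c (l 16779128) (a (l 16778056) (l 16777960)))) (a (a (l 16775280) (b (c (l 16772040) (l 16770080)) (l 16773848))) (b (a (a (b (l 16779520) (l 16780264)) (l 16779496)) (l 16779184)) (b (a (c (l 16771296) (l 16774728)) (l 16779640)) (a (l 16782216) (c (l 16775696) (l 16774088))))))))) (b (a (a (c (l 16793480) (l 16796536)) (c (l 16792936) (l 16795720))) (a (c (l 16770608) (l 16770432)) (b (a (l 16769880) (a (l 16772992) (b (b (l 16775136) (l 16781392)) (l 16783408)))) (l 16773896)))) (a (a (b (a (l 16775424) (l 16795328)) (l 16796272)) (b (l 16794392) (c (l 16772152) (l 16796160)))) (a (c (l 16791544) (l 16794144)) (a (l 16791688) (l 16769920)))))), by decide +kernel⟩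

def k23_pm_102_s : ∃ t, chk3 f_pm_102_s t 14 30 1 = true :=
  ⟨(a (b (a (b (a (b (l 16779896) (l 16802424)) (b (l 16798936) (a (l 16801544) (l 16800392)))) (a (l 16804824) (l 16803128))) (b (a (l 16777480) (l 16798320)) (a (b (a (l 16801864) (l 16800952)) (l 16802680)) (b (l 16800456) (a (l 16802576) (l 16801904)))))) (a (a (c (l 16806208) (l 16814032)) (c (l 16804368) (l 16811416))) (c (a (l 16803032) (b (l 16801272) (l 16802872))) (a (l 16809440) (b (l 16807040) (l 16808800)))))) (a (b (a (b (c (l 16796464) (l 16800960)) (a (l 16780000) (l 16800824))) (b (a (b (l 16798224) (l 16799008)) (l 16755656)) (c (l 16797016) (l 16801272)))) (b (a (b (a (b (l 16802992) (l 16803208)) (b (l 16801608) (l 16802080))) (l 16787056)) (b (a (l 16800216) (l 16798960)) (c (a (l 16799192) (l 16797520)) (a (l 16803824) (l 16801744))))) (c (a (l 16801016) (l 16798936)) (a (l 16806152) (l 16803312))))) (b (b (a (c (a (l 16794592) (l 16793488)) (l 16797464)) (a (b (c (a (l 16792608) (l 16770592)) (l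 16773864)) (l 16793496)) (b (c (l 16769424) (l 16792776)) (c (b (l 16769864) (l 16791304)) (a (l 16773176) (l 16772040)))))) (c (a (l 16794528) (a (l 16792704) (l 16791472))) (a (l 16797976) (a (l 16795616) (l 16794048))))) (b (a (a (b (l 16797536) (l 16798016)) (l 16796472)) (a (l 16816072) (c (l 16792528) (l 16795240)))) (b (a (a (b (l 16798792) (l 16798984)) (b (l 16797256) (l 16780800))) (a (l 16796072) (l 16794872))) (c (a (l 16797192) (a (l 16816920) (b (l 16794160) (l 16794776)))) (a (l 16800864) (a (l 16799168) (l 16776224))))))))), by decide +kernel⟩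

def k24_pm_102_s : ∃ t, chk3 f_pm_102_s t 14 31 1 = true :=
  ⟨(a (a (b (b (a (l 16814360) (l 16811560)) (a (l 16817272) (c (l 16810576) (l 16818344)))) (b (a (b (c (l 16815120) (l 16823904)) (c (l 16814408) (l 16822936))) (b (c (b (l 16811624) (l 16812088)) (b (l 16819472) (l 16819872))) (c (l 16811752) (l 16819304)))) (c (a (c (l 16812648) (l 16815632)) (c (l 16810440) (l 16812944))) (a (l 16822128) (l 16818600))))) (b (b (a (c (l 16806248) (l 16813016)) (c (l 16804288) (l 16810224))) (a (c (l 16808120) (l 16814968)) (c (l 16805944) (l 16811816)))) (b (b (a (b (l 16812328) (c (l 16809864) (l 16816648))) (c (b (l 16807240) (l 16807568)) (l 16812936))) (a (c (l 16809688) (l 16816216)) (c (l 16808072) (l 16813680)))) (c (a (c (l 16808640) (l 16810696)) (c (l 16807024) (l 16808680))) (a (l 16836496) (l 16823256)))))) (b (b (a (a (c (l 16802192) (l 16807256)) (c (l 16800192) (l 16804480))) (c (a (l 16798224) (a (l 16796736) (l 16795688))) (a (l 16801832) (a (l 16799880) (l 16798560)))))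 (a (a (c (l 16803920) (l 16808912)) (c (l 16801984) (l 16806192))) (c (a (l 16821040) (b (l 16797560) (l 16798632))) (a (l 16803592) (l 16821976))))) (a (b (b (a (l 16828624) (l 16826384)) (a (c (b (a (l 16806904) (l 16805936)) (l 16806272)) (b (l 16811288) (l 16810968))) (b (c (l 16804384) (l 16808488)) (c (l 16804888) (l 16808880))))) (c (a (c (l 16805560) (l 16806872)) (c (l 16804144) (l 16805176))) (a (l 16831280) (l 16829016)))) (b (a (b (l 16824192) (b (l 16804168) (c (b (l 16803144) (l 16803368)) (l 16806712)))) (b (c (l 16799816) (l 16802680)) (b (l 16801944) (c (l 16822224) (l 16804040))))) (a (c (c (l 16802736) (l 16803528)) (l 16805904)) (b (c (l 16801696) (l 16804256)) (c (l 16801376) (l 16803488)))))))), by decide +kernel⟩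

def k25_pm_102_s : ∃ t, chk3 f_pm_102_s t 30 28 1 = true :=
  ⟨(l 3), by decide +kernel⟩

def k26_pm_102_s : ∃ t, chk3 f_pm_102_s t 60 58 1 = true :=
  ⟨(a (b (a (b (l 3) (a (b (l 144049176999) (a (l 16777448) (a (l 43117440871) (l 96804531207)))) (l 162302782743))) (l 3)) (a (b (a (c (l 16778224) (l 16777728)) (a (b (a (l 16777400) (l 43117440871)) (l 16777824)) (b (l 138143595271) (l 16776192)))) (c (l 16779192) (a (l 16778504) (l 16778160)))) (b (a (b (l 3) (c (l 131164273383) (a (l 87677730487) (l 164450268775)))) (l 3)) (b (a (a (l 16777712) (b (l 84993372407) (l 16777488))) (l 146733529959)) (a (l 16778128) (c (a (l 16777616) (l 88751467623)) (a (l 16777472) (l 120963726935)))))))) (b (l 3) (a (b (l 3) (a (l 164987136951) (l 3))) (l 3)))), by decide +kernel⟩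

def k27_pm_102_s : ∃ t, chk3 f_pm_102_s t 60 59 1 = true :=
  ⟨(a (b (a (b (a (b (c (l 16775560) (l 16774136)) (a (c (l 16782768) (l 16781112)) (b (l 16780480) (l 16776040)))) (c (l 16780456) (b (l 16778896) (l 16779528)))) (b (a (l 16773472) (c (a (l 16777344) (l 16776416)) (a (l 16775808) (l 16775008)))) (c (l 16775512) (l 16773832)))) (b (c (a (l 16779496) (l 16778552)) (a (l 16778712) (l 16778128))) (a (b (c (l 16780784) (l 16779632)) (b (c (l 16776408) (l 16775096)) (a (l 16782272) (l 16775984)))) (c (l 16780288) (l 16779384))))) (a (a (l 16779624) (b (l 16777264) (l 16789424))) (b (a (b (c (l 16773712) (l 16774872)) (l 16775680)) (a (b (b (l 16775984) (l 16774192)) (l 16773512)) (b (l 16775760) (c (l 16783176) (b (l 16781304) (l 16782512)))))) (c (l 16777032) (l 16777336))))) (b (a (b (a (b (a (a (l 16777448) (l 82845893751)) (l 143512304071)) (c (l 16777912) (l 16775408))) (b (l 3) (c (l 134385498503) (a (l 125258694039) (l 3))))) (a (c (l 16779240) (l 16778688)) (b (a (l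 16777840) (a (l 29695669335) (l 86067119143))) (l 16775776)))) (b (l 3) (a (b (l 151028495543) (c (a (l 16777632) (l 126869306583)) (a (l 16777520) (l 129553661111)))) (l 3)))) (b (a (a (b (l 16780248) (c (l 16781912) (a (b (l 16780600) (l 16776024)) (l 16780408)))) (c (l 16780032) (l 16779360))) (a (c (l 16776160) (l 16775808)) (a (b (b (l 111300048007) (l 16777496)) (l 16778184)) (b (l 150491625479) (c (l 28621927511) (l 28621927351)))))) (b (a (a (a (l 16773224) (b (a (l 16776776) (l 16781600)) (l 16772408))) (c (l 16781768) (l 16780768))) (c (l 16774456) (l 16776568))) (a (a (l 16775080) (b (a (l 16777480) (l 16776496)) (c (l 16783816) (l 16777416)))) (a (c (l 16781560) (l 16780688)) (l 16779856))))))), by decide +kernel⟩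

def k28_pm_102_s : ∃ t, chk3 f_pm_102_s t 61 29 1 = true :=
  ⟨(b (l 3) (a (b (l 3) (a (b (a (b (l 3) (c (l 139217338855) (a (l 133311757239) (l 3)))) (l 3)) (a (b (a (l 20031993943) (b (l 134922370183) (l 42580572887))) (l 16775936)) (b (l 162839655079) (a (a (l 16776384) (b (l 94120178759) (l 16777592))) (a (l 128479921959) (l 162302785703)))))) (l 3))) (l 3))), by decide +kernel⟩

def k29_pm_102_s : ∃ t, chk3 f_pm_102_s t 31 14 1 = true :=
  ⟨(l 3), by decide +kernel⟩

def k30_pm_102_s : ∃ t, chk3 f_pm_102_s t 60 30 1 = true :=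
  ⟨(b (a (b (a (b (l 16790128) (c (b (l 16789496) (l 16768472)) (l 16791384))) (c (l 16787952) (l 16779192))) (a (b (a (a (l 16791552) (l 16770456)) (b (l 16769440) (l 16790936))) (l 16791448)) (b (a (b (l 16789752) (c (l 16789048) (l 16791040))) (l 16789088)) (b (a (l 16790392) (c (l 16788656) (l 16790544))) (l 16790192))))) (b (b (b (a (c (l 16786264) (l 16775504)) (a (c (a (l 16783536) (l 16782504)) (a (b (l 16776648) (l 16783088)) (b (l 16781112) (l 16776560)))) (c (l 16781296) (l 16775288)))) (a (l 16776552) (a (l 16776984) (a (b (a (l 16782424) (l 16781976)) (l 16783264)) (c (l 16782272) (l 16781400)))))) (a (c (l 16786688) (l 16788136)) (a (l 16780912) (a (l 16777688) (b (b (l 16777808) (l 16784328)) (l 16785264)))))) (a (b (c (l 16787168) (l 16788728)) (b (l 16788336) (a (c (l 16788296) (l 16790064)) (l 16788184)))) (c (b (l 16785680) (l 16786264)) (b (l 16786928) (l 16787616)))))) (b (a (c (a (l 16791272) (l 16789992)) (b (l 16771536) (l 16793232))) (a (b (a (l 16789504)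 (b (c (l 16787944) (l 16789616)) (l 16788928))) (l 16800288)) (b (a (b (l 16777192) (c (l 16787608) (l 16789176))) (b (l 16787000) (c (l 16786600) (l 16788024)))) (a (l 16788704) (b (c (l 16787280) (l 16788752)) (l 16788144)))))) (b (a (a (l 16793464) (l 16792040)) (a (l 16790592) (c (l 16788408) (l 16790040)))) (a (a (l 16794208) (l 16792960)) (a (l 16791496) (l 16790008)))))), by decide +kernel⟩

def k31_pm_102_s : ∃ t, chk3 f_pm_102_s t 122 60 1 = true :=
  ⟨(b (a (b (a (c (l 16780432) (l 16779872)) (b (c (l 20568864919) (l 16273896919)) (l 16776704))) (a (a (b (b (l 16776784) (a (l 16783232) (l 16782536))) (l 16784736)) (b (l 16777048) (c (l 16783664) (b (l 16782232) (l 16783400))))) (b (l 16775240) (a (a (b (l 16781960) (l 16782776)) (l 16777384)) (l 16776096))))) (b (a (a (b (a (b (l 97878274999) (l 16777568)) (l 131701145975)) (l 16775592)) (b (l 167134623191) (b (a (l 16776056) (l 101099500247)) (l 16776416)))) (a (a (b (l 3) (l 134922371303)) (l 3)) (l 3))) (a (c (l 16777136)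 (l 16776768)) (a (b (a (l 16778000) (b (l 38822475527) (l 16777888))) (l 16779000)) (b (a (b (l 144049175671) (l 16777488)) (l 138143596615)) (l 10368317495)))))) (a (b (b (a (l 16784896) (a (l 16784272) (b (a (l 16782592) (l 16782128)) (l 16783384)))) (c (l 16784312) (l 16785288))) (c (l 16784744) (l 16785800))) (b (a (a (b (c (l 16782272) (l 16781584)) (c (l 16783424) (l 16783304))) (b (l 16781040) (b (l 16776848) (a (l 16783280) (l 16782592))))) (b (l 16777216) (c (l 16776128) (l 16778304)))) (a (b (l 16778576) (l 16784144)) (b (c (a (l 16782896) (l 16779480)) (a (b (l 16782344) (l 16783472)) (b (l 16781424) (l 16782176)))) (c (l 16782992) (l 16783720))))))), by decide +kernel⟩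

def k32_pm_102_s : ∃ t, chk3 f_pm_102_s t 123 60 1 = true :=
  ⟨(b (a (b (l 3) (a (b (l 3) (c (a (b (l 109689436375) (l 16777672)) (l 144586045543)) (a (b (l 123111210455) (l 16776312)) (l 148344141847)))) (l 3))) (l 3)) (a (b (a (a (c (l 16776720) (l 16776456)) (b (a (l 16776296) (b (l 81772150727) (l 16777816))) (l 16776384))) (a (b (a (b (l 162839657255) (l 47949282135)) (l 146196658631)) (c (l 16776800) (l 16776752))) (b (l 3) (c (b (l 127406177447) (l 44191185703)) (b (l 131701144695) (c (l 32916895703) (l 31843153895))))))) (a (b (l 16778136) (a (b (a (l 16782536) (l 16782048)) (l 16782800)) (c (l 16781456) (l 16781528)))) (b (a (l 16776816) (l 16776568)) (l 16777056)))) (b (a (a (b (l 3) (l 158007820551)) (l 3)) (l 3)) (a (a (b (b (a (l 38822476727) (a (l 106468211959) (l 103246984375))) (l 16776608)) (l 16776272)) (b (a (b (l 3) (a (l 49559895127) (l 86603986567))) (l 160692172871)) (b (c (l 36674992823) (l 36674993095)) (l 16778288)))) (b (l 3) (a (a (b (l 129553661271)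 (l 16776280)) (b (l 3) (b (l 98952017495) (l 52244249783)))) (l 166597752103))))))), by decide +kernel⟩

def k33_pm_102_s : ∃ t, chk3 f_pm_102_s t 61 61 1 = true :=
  ⟨(a (b (a (b (c (l 16785424) (l 16786592)) (a (b (c (l 16786232) (l 16787560)) (c (l 16786952) (l 16788328))) (b (l 16786144) (c (l 16775416) (l 16776656))))) (b (c (l 16783864) (l 16779512)) (c (l 16784648) (l 16785656)))) (b (a (a (l 16787984) (b (c (l 16786616) (l 16787904)) (l 16787432))) (a (a (b (l 16796880) (l 16786848)) (b (l 16785888) (l 16786576))) (b (l 16785360) (a (l 16796568) (l 16796000))))) (a (c (l 16787872) (l 16789320)) (a (l 16787328) (b (l 16786400) (l 16786776)))))) (b (a (b (a (a (l 16777968) (b (c (l 16782376) (l 16780376)) (l 16782976))) (a (b (b (l 16781720) (a (l 16782392) (l 16782096))) (l 16782544)) (a (b (l 16778696) (l 16779656)) (b (l 16780896) (b (l 16781776) (l 16782104)))))) (c (a (l 16783456) (l 16782648)) (a (l 16784256) (l 16783312)))) (b (a (a (b (l 16780176) (a (b (l 16781352)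 (l 16781880)) (l 16778576))) (c (l 16777112) (l 16777344))) (a (b (c (l 16778264) (l 16775752)) (l 16776952)) (b (b (a (a (l 16777432) (l 75866569943)) (l 138143595671)) (c (l 16776392) (l 16776448))) (l 16776696)))) (a (b (a (l 16779504) (b (a (l 16781576) (l 16781152)) (l 16781792))) (l 16782288)) (a (b (c (l 16780512) (l 16778608)) (c (l 16781488) (b (l 16781792) (l 16782016)))) (b (l 16779888) (b (l 16780736) (a (l 16781456) (l 16781104)))))))) (a (b (c (a (l 16784336) (l 16783520)) (l 16784784)) (a (b (a (a (l 16785904) (l 16785632)) (l 16795664)) (l 16785976)) (b (l 16784584) (c (c (l 16795112) (l 16795448)) (c (l 16774936) (l 16775536)))))) (b (c (a (l 16782696) (l 16781864)) (a (l 16783352) (l 16782400))) (a (a (b (l 16783960) (l 16784408)) (l 16783784)) (a (l 16782024) (l 16782888))))))), by decide +kernel⟩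

def k34_pm_102_s : ∃ t, chk3 f_pm_102_s t 30 62 1 = true :=
  ⟨(a (a (a (b (b (b (c (l 16794016) (l 16796648)) (l 16795496)) (l 16796104)) (c (l 16796488) (l 16799008))) (b (b (b (l 16793576) (c (l 16793248) (l 16795608))) (l 16794856)) (c (l 16795352) (l 16797624)))) (a (b (b (c (l 16791480) (l 16793536)) (b (c (l 16792464) (l 16794568)) (l 16793784))) (c (l 16794160) (l 16796200))) (b (b (l 16791024) (b (l 16791728) (c (l 16812624) (l 16793520)))) (b (l 16814120) (l 16794192))))) (a (b (a (b (l 16799984) (a (l 16790888) (l 16790224))) (b (c (l 16787384) (l 16788664)) (l 16799512))) (b (a (b (a (l 16792000) (l 16811992)) (l 16792000)) (b (l 16800280) (a (l 16801536) (c (l 16789480) (l 16790864))))) (a (l 16803280) (c (l 16790776) (l 16792184))))) (a (b (c (b (l 16785872) (l 16786936)) (b (l 16786920) (l 16788056))) (b (a (l 16799392) (l 16788184)) (b (a (c (l 16789544) (l 16790840)) (c (l 16799040) (l 16789744))) (l 16800592)))) (b (b (b (a (a (l 16790392) (a (l 16795224) (l 16794920)))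 (c (l 16788720) (l 16778976))) (a (l 16785336) (a (l 16795304) (a (l 16794944) (l 16794640))))) (c (l 16790600) (l 16781016))) (b (c (l 16786512) (l 16787488)) (b (a (l 16788224) (l 16787440)) (a (c (l 16799088) (l 16789712)) (b (l 16787872) (l 16798752))))))))), by decide +kernel⟩

def k35_pm_102_s : ∃ t, chk3 f_pm_102_s t 30 63 1 = true :=
  ⟨(a (b (a (b (c (l 16797664) (l 16800000)) (c (l 16798992) (l 16801280))) (b (c (l 16795288) (l 16797152)) (c (l 16796600) (l 16798424)))) (b (a (b (c (b (l 16799760) (l 16799944)) (l 16823112)) (c (l 16799760) (l 16801752))) (b (a (c (l 16798120) (l 16800000)) (l 16818480)) (c (l 16797880) (l 16799512)))) (c (a (l 16799592) (l 16797584)) (a (l 16801248) (l 16798864))))) (b (b (a (a (l 16814936) (c (l 16791960) (l 16793336))) (a (c (l 16790512) (l 16791712)) (c (a (l 16789376) (l 16788600)) (l 16790024)))) (a (a (l 16816216) (c (l 16793272) (l 16794592))) (a (c (l 16791808) (l 16792960)) (c (l 16800768) (l 16791272))))) (a (b (b (a (l 16796280)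 (l 16794808)) (a (c (l 16796296) (l 16797696)) (b (l 16805712) (l 16795440)))) (c (c (l 16795312) (l 16795440)) (l 16796296))) (b (b (a (l 16793272) (l 16802160)) (c (b (l 16803120) (a (l 16793704) (l 16792120))) (a (l 16794496) (l 16792800)))) (a (c (l 16793480) (l 16794256)) (b (c (l 16792312) (l 16793104)) (c (l 16792064) (l 16792608)))))))), by decide +kernel⟩

def k36_pm_102_s : ∃ t, chk3 f_pm_102_s t 62 60 1 = true :=
  ⟨(l 3), by decide +kernel⟩

def k37_pm_102_s : ∃ t, chk3 f_pm_102_s t 124 122 1 = true :=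
  ⟨(a (b (a (b (a (b (l 3) (a (a (l 98415149495) (l 137069854039)) (l 3))) (l 3)) (b (a (a (l 16777688) (a (l 47412411447) (l 104857599191))) (l 155860334951)) (a (l 16776776) (a (b (l 57612958903) (l 16777584)) (b (l 3) (l 104857599287)))))) (l 3)) (a (a (b (l 16776376) (c (l 16780016) (l 16780328))) (b (c (l 23253219991) (l 20031994535)) (l 16776704))) (b (a (a (b (b (l 116131887543) (l 50096766007)) (l 16777776)) (b (l 161765915351) (a (l 37211864071) (a (l 54928604295) (l 97341406487))))) (a (a (b (l 3) (l 127943048663)) (l 167134623815)) (l 3))) (b (a (l 16776848) (a (c (l 16776832) (l 16776864)) (a (b (l 99488889015) (l 16777336)) (l 133848628583)))) (c (l 16776632) (l 16776416)))))) (b (l 3) (b (l 3) (b (l 3) (a (a (a (b (l 111836921207) (l 40433089655)) (l 149417884615)) (l 3)) (l 3)))))), by decide +kernel⟩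

def k38_pm_102_s : ∃ t, chk3 f_pm_102_s t 124 123 1 = true :=
  ⟨(a (b (a (a (b (b (a (l 16781216) (l 16780816)) (l 16781352)) (l 16781680)) (b (b (l 16780216) (a (l 16780952) (l 16780536))) (c (l 16781120) (l 16781536)))) (b (c (l 16776496) (l 16776696)) (a (c (b (l 16780288) (l 16780784)) (b (l 16780616) (l 16781160))) (a (b (l 16779880) (l 16780400)) (l 16779744))))) (a (c (l 16781992) (l 16782528)) (b (a (l 16781296) (a (l 16781008) (b (l 16780552) (l 16780864)))) (l 16781592)))) (a (a (b (b (b (a (l 16777848) (a (l 16777536) (b (l 79087794727) (l 16777472)))) (l 16776912)) (l 16777136)) (b (b (l 16779928) (a (l 16780672) (l 16780280))) (l 16780944))) (b (b (a (a (b (b (l 166597754167) (l 57076088151)) (l 16777696)) (b (l 152102239367) (l 35601251415))) (b (l 3) (b (l 130090532311) (c (l 53854862535) (l 40969960183))))) (c (l 16776904) (l 16777000))) (b (l 16776800) (b (a (l 16780432) (l 16780024)) (l 16780648))))) (a (b (b (b (l 3) (l 162302785639)) (b (a (b (a (l 16776632)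 (l 91972696359)) (l 16776832)) (c (l 131701144759) (c (l 135459241111) (l 137606724743)))) (a (l 16777920) (a (l 16777608) (b (l 59223571783) (l 16777544)))))) (b (c (l 16778520) (l 16776032)) (b (l 16779448) (a (l 16780176) (l 16779792))))) (a (b (b (l 3) (b (l 3) (b (l 149954755815) (a (l 16777328) (l 84993374599))))) (b (c (l 16776616) (l 16776688)) (l 16779112))) (b (l 3) (b (b (a (b (l 88214601095) (l 16777504)) (b (l 155860336023) (l 52781120855))) (l 16776520)) (l 16777384))))))), by decide +kernel⟩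

def k39_pm_102_s : ∃ t, chk3 f_pm_102_s t 125 61 1 = true :=
  ⟨(b (l 3) (a (b (l 3) (b (a (a (a (b (c (l 147807271863) (l 147807271815)) (b (a (l 16777376) (c (l 77477182103) (l 80161536647))) (l 16777560))) (b (l 3) (a (b (l 3) (a (l 16777296) (l 93046439447))) (l 153175981143)))) (l 3)) (l 3)) (a (a (b (a (l 16777992) (c (l 38822476871) (l 34527509639))) (l 16777048)) (b (a (b (c (l 129016790455) (l 134385499559)) (a (l 16777408) (c (l 88214601159) (l 73719085799)))) (l 162839657111)) (a (l 16776752) (a (a (l 33453767927) (b (l 80698408455) (l 16777520))) (b (c (l 90898954535) (l 94120179991)) (l 16776704)))))) (a (a (a (b (l 3) (a (b (l 3) (l 87677730279)) (l 147807272199))) (l 3)) (l 3)) (l 3))))) (l 3))), by decide +kernel⟩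

def k40_pm_102_s : ∃ t, chk3 f_pm_102_s t 63 30 1 = true :=
  ⟨(l 3), by decide +kernel⟩

def k41_pm_102_s : ∃ t, chk3 f_pm_102_s t 124 62 1 = true :=
  ⟨(b (b (a (a (a (b (l 16783264) (a (l 16794344) (l 16783656))) (l 16785720)) (c (l 16782192) (l 16782728))) (a (c (b (l 16781064) (l 16781600)) (l 16781760)) (a (b (a (l 16780672) (b (l 16780312) (l 16780576))) (l 16781112)) (b (a (b (l 16779912) (l 16780376)) (b (l 16779560) (a (l 16780184) (l 16779984)))) (l 16780656))))) (a (a (b (a (l 16784480) (b (l 16783800) (l 16784160))) (l 16784744)) (a (b (c (l 16788400) (l 16789056)) (l 16784128)) (b (l 16783056) (b (l 16788784) (l 16783824))))) (a (b (l 16780752) (a (b (l 16783032) (l 16788656)) (a (l 16782816) (l 16782656)))) (c (b (l 16781288) (l 16781880)) (l 16782024))))) (b (a (c (a (l 16785296) (l 16784472)) (a (l 16786120) (l 16785200))) (a (b (a (l 16783824) (a (l 16788816) (b (l 16783136) (l 16783424)))) (l 16784200)) (a (b (b (l 16787952) (a (l 16783240) (l 16783008))) (l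 16783544)) (b (b (l 16782312) (l 16786488)) (c (b (l 16782792) (l 16783016)) (l 16778288)))))) (a (c (a (l 16796912) (l 16785704)) (a (l 16787320) (l 16786512))) (c (a (l 16784864) (l 16789248)) (a (l 16785576) (l 16784632)))))), by decide +kernel⟩

def k42_pm_102_s : ∃ t, chk3 f_pm_102_s t 250 124 1 = true :=
  ⟨(b (a (b (a (a (c (l 16779280) (l 16776864)) (l 16777704)) (c (l 16777032) (l 16776816))) (b (a (a (l 16780200) (a (l 16779936) (l 16779728))) (l 16777936)) (a (l 16780336) (a (a (l 16780072) (l 16779888)) (a (l 16779680) (l 16779504)))))) (b (a (a (b (b (a (l 16777448) (c (l 80161537543) (l 67276635015))) (l 16777632)) (l 16778056)) (b (b (l 153175981223) (a (c (l 16776648) (l 16776984)) (a (l 80698407639) (l 105931340215)))) (c (l 16776968) (l 16777008)))) (b (l 3) (b (a (a (a (l 75866570199) (l 84993374871)) (l 161765915975)) (l 3)) (a (a (l 16777480) (a (l 16777320) (l 83919633895))) (c (l 144586046727) (l 148881013991)))))) (a (c (l 16777344) (l 16777480)) (a (c (l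 16776744) (l 16776824)) (b (a (c (l 41506831687) (l 39359348087)) (b (a (l 94657052247) (l 98415147543)) (l 16777432))) (l 16776656)))))) (a (a (b (l 16780768) (l 16781376)) (b (c (l 16780240) (l 16780520)) (l 16780904))) (b (b (a (a (b (l 16779608) (l 16779880)) (l 16779336)) (l 16777440)) (b (a (a (l 16780024) (l 16779768)) (l 16779176)) (a (l 16780056) (a (l 16779640) (l 16779264))))) (a (c (l 16780304) (l 16780592)) (b (a (l 16779944) (b (l 16779512) (l 16779776))) (l 16780104)))))), by decide +kernel⟩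

def k43_pm_102_s : ∃ t, chk3 f_pm_102_s t 251 124 1 = true :=
  ⟨(b (a (b (l 3) (a (a (a (b (b (l 3) (b (l 115595017959) (l 16776960))) (l 16777000)) (b (l 157470948343) (b (b (l 78550924807) (l 16777376)) (l 16777592)))) (b (l 3) (b (c (l 138143595879) (c (l 138143595847) (l 140291079479))) (a (l 39896218999) (b (l 98415147655) (l 74255957559)))))) (l 3))) (l 3)) (a (a (a (b (c (l 16777056) (l 16777160)) (c (b (l 16779152) (l 16779672)) (b (l 16779336) (l 16779896)))) (b (b (b (l 16776912) (l 16777856)) (l 16778288)) (b (l 16778864) (b (l 16779272) (a (l 16779648) (l 16779464)))))) (b (a (a (b (b (b (l 100562632343) (l 16777320)) (l 16777544)) (l 16777976)) (b (b (l 142975434231) (c (l 52781120935) (l 49023024567))) (l 16777112))) (b (b (l 3) (b (l 163376528599) (a (l 93583310439) (l 3)))) (b (a (l 37748735415) (b (c (l 111836921111) (l 89288342295)) (l 62981668391))) (l 16776944)))) (a (c (l 16777680) (l 16777488)) (c (l 16776968) (l 16777064))))) (b (b (l 3) (a (a (b (l 160692173863)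 (a (a (l 44728057351) (c (l 63518538775) (l 84456504967))) (c (l 133311757911) (l 134922370631)))) (l 3)) (l 3))) (a (a (b (a (l 16777064) (b (b (l 57612959271) (l 16777432)) (l 16777648))) (l 16776880)) (b (b (b (l 155323464999) (a (c (l 82309021255) (l 86603988679)) (l 3))) (a (l 16777112) (b (c (l 113447534327) (l 103246986583)) (l 52781121047)))) (c (l 16777096) (l 16777144)))) (a (b (b (l 3) (c (l 153175981191) (l 156934077527))) (a (b (b (c (l 75866570263) (l 81235279559)) (l 16777384)) (l 16777600)) (b (a (b (l 3) (l 79087795895)) (l 155860336135)) (c (l 16777056) (l 16777064))))) (b (l 3) (a (b (l 3) (b (c (l 94657051367) (l 137606725287)) (c (l 60834184439) (l 74792828567)))) (l 166597753687)))))))), by decide +kernel⟩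

def k44_pm_102_s : ∃ t, chk3 f_pm_102_s t 125 125 1 = true :=
  ⟨(b (a (a (a (b (l 16782000) (c (b (l 16782208) (l 16782656)) (b (l 16782704) (l 16783176)))) (b (l 16781528) (b (l 16782008) (a (l 16787680) (l 16782168))))) (c (b (l 16779360) (l 16781288)) (b (l 16780992) (l 16781672)))) (b (b (b (a (a (l 16779848) (a (a (l 16779544) (l 16779336)) (l 16779048))) (a (l 16777112) (a (l 16777128) (a (l 16776816) (l 14))))) (a (a (l 16780000) (a (l 16779656) (c (l 16776600) (l 16779400)))) (a (l 16777400) (c (l 16777184) (l 16776912))))) (a (a (l 16780240) (c (l 16779696) (l 16779912))) (a (a (a (b (l 16779296) (l 16779528)) (b (l 16779112) (l 16779376))) (b (l 16778792) (l 16779064))) (l 14)))) (a (c (a (l 16780584) (l 16780112)) (l 16780632)) (a (a (c (l 16779752) (l 16779984)) (l 14)) (l 14))))) (b (a (b (a (c (l 16787984) (l 16783256)) (a (a (l 16787552) (l 16782008)) (l 16781696))) (a (l 16783192) (a (l 16787800) (a (l 16786112) (l 16784480))))) (a (c (a (l 16781224) (l 14)) (l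 16781328)) (l 14))) (a (a (c (l 16783448) (l 16784008)) (c (a (l 16782776) (l 16782360)) (l 16777832))) (l 14)))), by decide +kernel⟩

def k45_pm_102_s : ∃ t, chk3 f_pm_102_s t 62 63 1 = true :=
  ⟨(a (a (b (b (b (b (a (c (l 16787368) (l 16788304)) (l 16786808)) (a (l 16788032) (c (l 16786864) (l 16787720)))) (c (l 16787728) (l 16788608))) (c (b (l 16788360) (l 16789032)) (b (l 16789224) (l 16789872)))) (b (c (b (l 16789720) (l 16790448)) (b (l 16790544) (l 16791240))) (b (b (a (l 16802080) (a (l 16791000) (l 14))) (l 16801504)) (c (l 16790672) (l 16791128))))) (a (b (b (b (c (l 16785776) (l 16786536)) (b (c (l 16796840) (l 16787136)) (l 16786968))) (b (l 16787440) (l 16788080))) (b (b (l 16788760) (l 14)) (l 14))) (b (b (b (l 16785248) (b (l 16785712) (a (l 16796872) (l 16791080)))) (b (l 16794440) (l 16797704))) (l 14)))) (b (a (b (b (a (l 16789576) (c (l 16783192) (l 16783712))) (a (c (l 16784696) (l 16785328)) (l 14))) (l 14)) (l 14)) (l 14))), by decide +kernel⟩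

def k46_pm_102_s : ∃ t, chk3 f_pm_102_s t 63 31 1 = true :=
  ⟨(b (b (l 3) (l 14)) (l 14)), by decide +kernel⟩

theorem s47_pm_102_s : ∃ t, chk3 f_pm_102_s t 125 124 1 = true := ex3_a k42_pm_102_s k43_pm_102_s

theorem s48_pm_102_s : ∃ t, chk3 f_pm_102_s t 125 62 1 = true := ex3_b s47_pm_102_s k44_pm_102_s

theorem s49_pm_102_s : ∃ t, chk3 f_pm_102_s t 62 62 1 = true := ex3_a k41_pm_102_s s48_pm_102_s

theorem s50_pm_102_s : ∃ t, chk3 f_pm_102_s t 62 31 1 = true := ex3_b s49_pm_102_s k45_pm_102_s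

theorem s51_pm_102_s : ∃ t, chk3 f_pm_102_s t 31 31 1 = true := ex3_a s50_pm_102_s k46_pm_102_s

theorem s52_pm_102_s : ∃ t, chk3 f_pm_102_s t 124 61 1 = true := ex3_b k37_pm_102_s k38_pm_102_s

theorem s53_pm_102_s : ∃ t, chk3 f_pm_102_s t 62 61 1 = true := ex3_a s52_pm_102_s k39_pm_102_s

theorem s54_pm_102_s : ∃ t, chk3 f_pm_102_s t 62 30 1 = true := ex3_b k36_pm_102_s s53_pm_102_s

theorem s55_pm_102_s : ∃ t, chk3 f_pm_102_s t 31 30 1 = true := ex3_a s54_pm_102_s k40_pm_102_s

theorem s56_pm_102_s : ∃ t, chk3 f_pm_102_s t 31 15 1 = true := ex3_b s55_pm_102_s s51_pm_102_s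

theorem s57_pm_102_s : ∃ t, chk3 f_pm_102_s t 30 31 1 = true := ex3_b k34_pm_102_s k35_pm_102_s

theorem s58_pm_102_s : ∃ t, chk3 f_pm_102_s t 61 60 1 = true := ex3_a k31_pm_102_s k32_pm_102_s

theorem s59_pm_102_s : ∃ t, chk3 f_pm_102_s t 61 30 1 = true := ex3_b s58_pm_102_s k33_pm_102_s

theorem s60_pm_102_s : ∃ t, chk3 f_pm_102_s t 30 30 1 = true := ex3_a k30_pm_102_s s59_pm_102_s

theorem s61_pm_102_s : ∃ t, chk3 f_pm_102_s t 30 15 1 = true := ex3_b s60_pm_102_s s57_pm_102_s

theorem s62_pm_102_s : ∃ t, chk3 f_pm_102_s t 15 15 1 = true := ex3_a s61_pm_102_s s56_pm_102_s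

theorem s63_pm_102_s : ∃ t, chk3 f_pm_102_s t 60 29 1 = true := ex3_b k26_pm_102_s k27_pm_102_s

theorem s64_pm_102_s : ∃ t, chk3 f_pm_102_s t 30 29 1 = true := ex3_a s63_pm_102_s k28_pm_102_s

theorem s65_pm_102_s : ∃ t, chk3 f_pm_102_s t 30 14 1 = true := ex3_b k25_pm_102_s s64_pm_102_s

theorem s66_pm_102_s : ∃ t, chk3 f_pm_102_s t 15 14 1 = true := ex3_a s65_pm_102_s k29_pm_102_s

theorem s67_pm_102_s : ∃ t, chk3 f_pm_102_s t 15 7 1 = true := ex3_b s66_pm_102_s s62_pm_102_s

theorem s68_pm_102_s : ∃ t, chk3 f_pm_102_s t 14 15 1 = true := ex3_b k23_pm_102_s k24_pm_102_s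

theorem s69_pm_102_s : ∃ t, chk3 f_pm_102_s t 29 29 1 = true := ex3_a k21_pm_102_s k22_pm_102_s

theorem s70_pm_102_s : ∃ t, chk3 f_pm_102_s t 29 28 1 = true := ex3_a k19_pm_102_s k20_pm_102_s

theorem s71_pm_102_s : ∃ t, chk3 f_pm_102_s t 29 14 1 = true := ex3_b s70_pm_102_s s69_pm_102_s

theorem s72_pm_102_s : ∃ t, chk3 f_pm_102_s t 14 14 1 = true := ex3_a k18_pm_102_s s71_pm_102_s

theorem s73_pm_102_s : ∃ t, chk3 f_pm_102_s t 14 7 1 = true := ex3_b s72_pm_102_s s68_pm_102_s

theorem s74_pm_102_s : ∃ t, chk3 f_pm_102_s t 7 7 1 = true := ex3_a s73_pm_102_s s67_pm_102_s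

theorem s75_pm_102_s : ∃ t, chk3 f_pm_102_s t 28 27 1 = true := ex3_a k14_pm_102_s k15_pm_102_s

theorem s76_pm_102_s : ∃ t, chk3 f_pm_102_s t 28 13 1 = true := ex3_b k13_pm_102_s s75_pm_102_s

theorem s77_pm_102_s : ∃ t, chk3 f_pm_102_s t 14 13 1 = true := ex3_a s76_pm_102_s k16_pm_102_s

theorem s78_pm_102_s : ∃ t, chk3 f_pm_102_s t 14 6 1 = true := ex3_b k12_pm_102_s s77_pm_102_s

theorem s79_pm_102_s : ∃ t, chk3 f_pm_102_s t 7 6 1 = true := ex3_a s78_pm_102_s k17_pm_102_s

theorem s80_pm_102_s : ∃ t, chk3 f_pm_102_s t 7 3 1 = true := ex3_b s79_pm_102_s s74_pm_102_s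

theorem s81_pm_102_s : ∃ t, chk3 f_pm_102_s t 6 7 1 = true := ex3_a k10_pm_102_s k11_pm_102_s

theorem s82_pm_102_s : ∃ t, chk3 f_pm_102_s t 13 13 1 = true := ex3_a k8_pm_102_s k9_pm_102_s

theorem s83_pm_102_s : ∃ t, chk3 f_pm_102_s t 13 12 1 = true := ex3_a k6_pm_102_s k7_pm_102_s

theorem s84_pm_102_s : ∃ t, chk3 f_pm_102_s t 13 6 1 = true := ex3_b s83_pm_102_s s82_pm_102_s

theorem s85_pm_102_s : ∃ t, chk3 f_pm_102_s t 6 6 1 = true := ex3_a k5_pm_102_s s84_pm_102_s

theorem s86_pm_102_s : ∃ t, chk3 f_pm_102_s t 6 3 1 = true := ex3_b s85_pm_102_s s81_pm_102_s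

theorem s87_pm_102_s : ∃ t, chk3 f_pm_102_s t 3 3 1 = true := ex3_a s86_pm_102_s s80_pm_102_s

theorem s88_pm_102_s : ∃ t, chk3 f_pm_102_s t 3 1 1 = true := ex3_b k4_pm_102_s s87_pm_102_s

theorem s89_pm_102_s : ∃ t, chk3 f_pm_102_s t 5 2 1 = true := ex3_a k1_pm_102_s k2_pm_102_s

theorem s90_pm_102_s : ∃ t, chk3 f_pm_102_s t 2 2 1 = true := ex3_a k0_pm_102_s s89_pm_102_s

theorem s91_pm_102_s : ∃ t, chk3 f_pm_102_s t 2 1 1 = true := ex3_b s90_pm_102_s k3_pm_102_s

theorem s92_pm_102_s : ∃ t, chk3 f_pm_102_s t 1 1 1 = true := ex3_a s91_pm_102_s s88_pm_102_s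

theorem c_pm_102_s : CertNE 536870912 536870912 0 536870912 649613803 48318383 3 eng mog cd0q1 cd0q2 pd0 false true false .npp 1 0 2
    ndB0q1 ndB0q2 pcB0 cut_pm_102_s Ext.none :=
  certNE0 (fam := false) (s1 := true) (s2 := false) (a := 1) (b := 0) (c := 2) (cn := .npp) (n1 := ndB0q1) (n2 := ndB0q2) (pc := pcB0) (cut := cut_pm_102_s) (xt := Ext.none) (P1 := 536870912) (W1 := 536870912) (P2 := 0) (W2 := 536870912) (P3 := 649613803) (W3 := 48318383) (N0 := 3) (En := eng) (mo := mog) (C1 := cd0q1) (C2 := cd0q2) (C3 := pd0)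
    rfl s92_pm_102_s

noncomputable def cut_pm_102_t : Cut := Cut.of [[⟨3, 0, 0, 2845415833⟩], [⟨0, 1, 0, 33554432⟩, ⟨1, 0, 0, 33554432⟩, ⟨2, 1, 0, 33554432⟩], [⟨0, 0, 1, 20971520⟩, ⟨1, 1, 2, 20971520⟩, ⟨2, 1, 0, 33554432⟩]]

noncomputable def f_pm_102_t : ℕ → ℕ → ℕ → ℕ → Bool := onCell 536870912 536870912 0 536870912 649613803 48318383
    (rowNE 3 eng mog cd0q1 cd0q2 pd0 0 false true false .npp 1 0 2 (qsf 536870912 536870912 0 536870912 0) ndB0q1 ndB0q2 pcB0 cut_pm_102_t Ext.none)

def k0_pm_102_t : ∃ t, chk3 f_pm_102_t t 1 1 1 = true :=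
  ⟨(l 6), by decide +kernel⟩

theorem c_pm_102_t : CertNE 536870912 536870912 0 536870912 649613803 48318383 3 eng mog cd0q1 cd0q2 pd0 false true false .npp 1 0 2
    ndB0q1 ndB0q2 pcB0 cut_pm_102_t Ext.none :=
  certNE0 (fam := false) (s1 := true) (s2 := false) (a := 1) (b := 0) (c := 2) (cn := .npp) (n1 := ndB0q1) (n2 := ndB0q2) (pc := pcB0) (cut := cut_pm_102_t) (xt := Ext.none) (P1 := 536870912) (W1 := 536870912) (P2 := 0) (W2 := 536870912) (P3 := 649613803) (W3 := 48318383) (N0 := 3) (En := eng) (mo := mog) (C1 := cd0q1) (C2 := cd0q2) (C3 := pd0)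
    rfl k0_pm_102_t

noncomputable def cut_pm_112_s : Cut := Cut.of [[⟨4, 0, 0, 1449551462⟩]]

noncomputable def f_pm_112_s : ℕ → ℕ → ℕ → ℕ → Bool := onCell 536870912 536870912 0 536870912 649613803 48318383
    (rowNE 3 eng mog cd0q1 cd0q2 pd1 0 false true false .dn 1 1 2 (qsf 536870912 536870912 0 536870912 1) ndB0q1 ndB0q2 pcB1 cut_pm_112_s Ext.none)

def k0_pm_112_s : ∃ t, chk3 f_pm_112_s t 4 4 1 = true :=
  ⟨(a (b (a (a (l 16725072) (b (l 16725864) (l 16702856))) (b (b (a (a (l 16760720) (l 16766168)) (l 16774704)) (a (l 16730728) (a (l 16759920) (l 16765464)))) (a (l 16713088) (l 16723704)))) (a (b (a (l 16671600) (l 16680888)) (a (l 16652136) (l 16681712))) (b (l 16737360) (a (l 16690512) (l 16699752))))) (b (a (b (a (b (a (l 16762536) (l 16779048)) (l 16774240)) (b (a (b (a (b (l 119889991703) (l 16774720)) (l 147270400055)) (l 16771600)) (b (l 3) (a (b (l 116131895287) (l 16774720)) (l 146733529063)))) (a (l 16762248) (l 16778904)))) (a (b (a (l 16759120) (l 16764816))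 (l 16728696)) (b (a (l 16749744) (l 16755784)) (a (l 16758240) (b (l 16746256) (l 16739984)))))) (b (a (b (l 3) (a (b (a (b (l 117205637383) (l 16774744)) (l 147270399863)) (l 16771560)) (b (l 3) (a (b (l 118279379079) (l 16774792)) (l 148344141575))))) (l 3)) (a (b (a (l 16761968) (l 16778816)) (a (l 16770096) (l 16755344))) (b (a (b (a (b (l 120426862535) (l 16774864)) (l 148881012343)) (l 16771600)) (b (l 3) (a (b (l 123111217127) (l 16774968)) (l 150491624919)))) (a (l 16761728) (b (l 16771656) (l 16765008))))))) (a (b (a (l 16710880) (l 16742816)) (a (l 16688552) (l 16698800))) (b (a (b (a (l 16757592) (b (l 16745728) (l 16739528))) (l 16727352)) (b (a (l 16769720) (l 16755200)) (a (b (l 16739424) (l 16733224)) (b (l 16745520) (l 16760336))))) (a (l 16709640) (l 16742056)))))), by decide +kernel⟩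

def k1_pm_112_s : ∃ t, chk3 f_pm_112_s t 4 5 1 = true :=
  ⟨(a (b (a (b (l 16638288) (l 6)) (b (a (l 16650448) (l 16680016)) (l 16634256))) (l 6)) (b (b (a (a (b (l 16672792) (l 16662792)) (b (l 16682496) (l 16672024))) (a (l 16687480) (l 16719088))) (a (a (l 16646224) (l 16654848)) (a (b (l 16691392) (l 16657264)) (b (l 16680368) (a (l 16664416) (l 16669312)))))) (a (b (l 16642960) (l 6)) (b (a (l 16634064) (l 16643024)) (a (l 16594680) (l 16602688)))))), by decide +kernel⟩

def k2_pm_112_s : ∃ t, chk3 f_pm_112_s t 5 2 1 = true :=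
  ⟨(a (a (a (b (b (b (l 3) (b (l 3) (a (b (a (b (l 125258700983) (l 16775104)) (l 151028495655)) (l 16779648)) (b (l 3) (a (b (l 128479926215) (l 16775296)) (l 152102237319)))))) (b (b (a (l 16782776) (b (a (l 16770256) (l 16773712)) (l 16765248))) (a (a (l 16757544) (l 16750384)) (l 16755272))) (b (a (b (a (l 16737760) (l 16740784)) (l 16733048)) (b (a (l 16743776) (l 16747040)) (a (l 16737632) (l 16751096)))) (l 16726872)))) (b (b (b (l 16714904) (l 16703200)) (b (l 16690896) (a (l 16674296) (l 16679488)))) (b (b (a (l 16658800) (l 69826612887)) (l 16643472)) (l 16653520)))) (b (b (l 3) (b (b (a (b (a (b (l 141364820279) (l 16775504)) (l 153712849863)) (a (l 16770440) (l 16780472))) (b (l 3) (a (b (l 144586045591) (l 16780968)) (l 1)))) (a (l 16772456) (b (a (l 16770632) (l 1)) (l 16765472)))) (b (a (b (l 16751888) (a (l 16754024) (l 16746832))) (b (l 16758576) (l 16751720))) (a (b (a (l 16737392) (b (l 16741808) (l 16738768))) (l 16732608)) (l 1))))) (b (b (b (l 42446288087)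 (l 16735200)) (b (l 1) (l 1))) (l 1)))) (b (b (l 1) (l 1)) (l 1))) (l 1)), by decide +kernel⟩

def k3_pm_112_s : ∃ t, chk3 f_pm_112_s t 2 3 1 = true :=
  ⟨(a (b (l 6) (l 6)) (b (l 1) (l 1))), by decide +kernel⟩

def k4_pm_112_s : ∃ t, chk3 f_pm_112_s t 3 1 1 = true :=
  ⟨(l 1), by decide +kernel⟩

theorem s5_pm_112_s : ∃ t, chk3 f_pm_112_s t 4 2 1 = true := ex3_b k0_pm_112_s k1_pm_112_s

theorem s6_pm_112_s : ∃ t, chk3 f_pm_112_s t 2 2 1 = true := ex3_a s5_pm_112_s k2_pm_112_s

theorem s7_pm_112_s : ∃ t, chk3 f_pm_112_s t 2 1 1 = true := ex3_b s6_pm_112_s k3_pm_112_s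

theorem s8_pm_112_s : ∃ t, chk3 f_pm_112_s t 1 1 1 = true := ex3_a s7_pm_112_s k4_pm_112_s

theorem c_pm_112_s : CertNE 536870912 536870912 0 536870912 649613803 48318383 3 eng mog cd0q1 cd0q2 pd1 false true false .dn 1 1 2
    ndB0q1 ndB0q2 pcB1 cut_pm_112_s Ext.none :=
  certNE0 (fam := false) (s1 := true) (s2 := false) (a := 1) (b := 1) (c := 2) (cn := .dn) (n1 := ndB0q1) (n2 := ndB0q2) (pc := pcB1) (cut := cut_pm_112_s) (xt := Ext.none) (P1 := 536870912) (W1 := 536870912) (P2 := 0) (W2 := 536870912) (P3 := 649613803) (W3 := 48318383) (N0 := 3) (En := eng) (mo := mog) (C1 := cd0q1) (C2 := cd0q2) (C3 := pd1)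
    rfl s8_pm_112_s

noncomputable def cut_pm_112_t : Cut := Cut.of [[⟨3, 0, 0, 2845415833⟩]]

noncomputable def f_pm_112_t : ℕ → ℕ → ℕ → ℕ → Bool := onCell 536870912 536870912 0 536870912 649613803 48318383
    (rowNE 3 eng mog cd0q1 cd0q2 pd1 0 false true false .dn 1 1 2 (qsf 536870912 536870912 0 536870912 1) ndB0q1 ndB0q2 pcB1 cut_pm_112_t Ext.none)

def k0_pm_112_t : ∃ t, chk3 f_pm_112_t t 1 1 1 = true :=
  ⟨(l 6), by decide +kernel⟩

theorem c_pm_112_t : CertNE 536870912 536870912 0 536870912 649613803 48318383 3 eng mog cd0q1 cd0q2 pd1 false true false .dn 1 1 2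
    ndB0q1 ndB0q2 pcB1 cut_pm_112_t Ext.none :=
  certNE0 (fam := false) (s1 := true) (s2 := false) (a := 1) (b := 1) (c := 2) (cn := .dn) (n1 := ndB0q1) (n2 := ndB0q2) (pc := pcB1) (cut := cut_pm_112_t) (xt := Ext.none) (P1 := 536870912) (W1 := 536870912) (P2 := 0) (W2 := 536870912) (P3 := 649613803) (W3 := 48318383) (N0 := 3) (En := eng) (mo := mog) (C1 := cd0q1) (C2 := cd0q2) (C3 := pd1)
    rfl k0_pm_112_t

noncomputable def cut_pm_202_s : Cut := Cut.of [[⟨4, 0, 0, 1449551462⟩], [⟨0, 1, 0, 67108864⟩, ⟨1, 0, 0, 67108864⟩, ⟨2, 1, 0, 67108864⟩]]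

noncomputable def f_pm_202_s : ℕ → ℕ → ℕ → ℕ → Bool := onCell 0 536870912 0 536870912 649613803 48318383
    (rowNE 3 eng mog cd0q2 cd0q2 pd0 0 false true false .pp 2 0 2 (qsf 0 536870912 0 536870912 0) ndB0q2 ndB0q2 pcB0 cut_pm_202_s Ext.none)

def k0_pm_202_s : ∃ t, chk3 f_pm_202_s t 1 1 1 = true :=
  ⟨(a (l 3) (b (l 3) (a (l 3) (b (l 3) (a (l 3) (b (l 3) (l 14))))))), by decide +kernel⟩

theorem c_pm_202_s : CertNE 0 536870912 0 536870912 649613803 48318383 3 eng mog cd0q2 cd0q2 pd0 false true false .pp 2 0 2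
    ndB0q2 ndB0q2 pcB0 cut_pm_202_s Ext.none :=
  certNE0 (fam := false) (s1 := true) (s2 := false) (a := 2) (b := 0) (c := 2) (cn := .pp) (n1 := ndB0q2) (n2 := ndB0q2) (pc := pcB0) (cut := cut_pm_202_s) (xt := Ext.none) (P1 := 0) (W1 := 536870912) (P2 := 0) (W2 := 536870912) (P3 := 649613803) (W3 := 48318383) (N0 := 3) (En := eng) (mo := mog) (C1 := cd0q2) (C2 := cd0q2) (C3 := pd0)
    rfl k0_pm_202_s

noncomputable def cut_pm_202_t : Cut := Cut.of [[⟨3, 0, 0, 2845415833⟩], [⟨0, 1, 0, 67108864⟩, ⟨1, 0, 0, 67108864⟩, ⟨2, 1, 0, 67108864⟩]]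

noncomputable def f_pm_202_t : ℕ → ℕ → ℕ → ℕ → Bool := onCell 0 536870912 0 536870912 649613803 48318383
    (rowNE 3 eng mog cd0q2 cd0q2 pd0 0 false true false .pp 2 0 2 (qsf 0 536870912 0 536870912 0) ndB0q2 ndB0q2 pcB0 cut_pm_202_t Ext.none)

def k0_pm_202_t : ∃ t, chk3 f_pm_202_t t 1 1 1 = true :=
  ⟨(l 6), by decide +kernel⟩

theorem c_pm_202_t : CertNE 0 536870912 0 536870912 649613803 48318383 3 eng mog cd0q2 cd0q2 pd0 false true false .pp 2 0 2
    ndB0q2 ndB0q2 pcB0 cut_pm_202_t Ext.none :=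
  certNE0 (fam := false) (s1 := true) (s2 := false) (a := 2) (b := 0) (c := 2) (cn := .pp) (n1 := ndB0q2) (n2 := ndB0q2) (pc := pcB0) (cut := cut_pm_202_t) (xt := Ext.none) (P1 := 0) (W1 := 536870912) (P2 := 0) (W2 := 536870912) (P3 := 649613803) (W3 := 48318383) (N0 := 3) (En := eng) (mo := mog) (C1 := cd0q2) (C2 := cd0q2) (C3 := pd0)
    rfl k0_pm_202_t

noncomputable def cut_mm_001_s : Cut := Cut.of [[⟨4, 0, 0, 1449551462⟩]]

noncomputable def f_mm_001_s : ℕ → ℕ → ℕ → ℕ → Bool := onCell 0 536870912 0 536870912 649613803 48318383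
    (rowNE 3 eng mog cd0q0 cd0q1 pd0 1 false false false .up 0 0 1 (qsf 0 536870912 536870912 536870912 0) ndB0q0 ndB0q1 pcB0 cut_mm_001_s Ext.none)

def k0_mm_001_s : ∃ t, chk3 f_mm_001_s t 1 1 1 = true :=
  ⟨(l 3), by decide +kernel⟩

theorem c_mm_001_s : CertNE 0 536870912 536870912 536870912 649613803 48318383 3 eng mog cd0q0 cd0q1 pd0 false false false .up 0 0 1
    ndB0q0 ndB0q1 pcB0 cut_mm_001_s Ext.none :=
  certNE1 (fam := false) (s1 := false) (s2 := false) (a := 0) (b := 0) (c := 1) (cn := .up) (n1 := ndB0q0) (n2 := ndB0q1) (pc := pcB0) (cut := cut_mm_001_s) (xt := Ext.none) (P1 := 0) (W1 := 536870912) (P2 := 536870912) (W2 := 536870912) (P3 := 649613803) (W3 := 48318383) (N0 := 3) (En := eng) (mo := mog) (C1 := cd0q0) (C2 := cd0q1) (C3 := pd0)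
    rfl (fun _ => rfl) k0_mm_001_s

noncomputable def cut_mm_001_t : Cut := Cut.of [[⟨3, 0, 0, 2845415833⟩]]

noncomputable def f_mm_001_t : ℕ → ℕ → ℕ → ℕ → Bool := onCell 0 536870912 536870912 536870912 649613803 48318383
    (rowNE 3 eng mog cd0q0 cd0q1 pd0 0 false false false .up 0 0 1 (qsf 0 536870912 536870912 536870912 0) ndB0q0 ndB0q1 pcB0 cut_mm_001_t Ext.none)

def k0_mm_001_t : ∃ t, chk3 f_mm_001_t t 1 1 1 = true :=
  ⟨(l 6), by decide +kernel⟩

theorem c_mm_001_t : CertNE 0 536870912 536870912 536870912 649613803 48318383 3 eng mog cd0q0 cd0q1 pd0 false false false .up 0 0 1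
    ndB0q0 ndB0q1 pcB0 cut_mm_001_t Ext.none :=
  certNE0 (fam := false) (s1 := false) (s2 := false) (a := 0) (b := 0) (c := 1) (cn := .up) (n1 := ndB0q0) (n2 := ndB0q1) (pc := pcB0) (cut := cut_mm_001_t) (xt := Ext.none) (P1 := 0) (W1 := 536870912) (P2 := 536870912) (W2 := 536870912) (P3 := 649613803) (W3 := 48318383) (N0 := 3) (En := eng) (mo := mog) (C1 := cd0q0) (C2 := cd0q1) (C3 := pd0)
    rfl k0_mm_001_t

noncomputable def cut_mm_011_s : Cut := Cut.of [[⟨4, 0, 0, 1449551462⟩]]

noncomputable def f_mm_011_s : ℕ → ℕ → ℕ → ℕ → Bool := onCell 0 536870912 536870912 536870912 649613803 48318383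
    (rowNE 3 eng mog cd0q0 cd0q1 pd1 1 false false false .pnn 0 1 1 (qsf 0 536870912 536870912 536870912 1) ndB0q0 ndB0q1 pcB1 cut_mm_011_s Ext.none)

def k0_mm_011_s : ∃ t, chk3 f_mm_011_s t 1 1 1 = true :=
  ⟨(l 5), by decide +kernel⟩

theorem c_mm_011_s : CertNE 0 536870912 536870912 536870912 649613803 48318383 3 eng mog cd0q0 cd0q1 pd1 false false false .pnn 0 1 1
    ndB0q0 ndB0q1 pcB1 cut_mm_011_s Ext.none :=
  certNE1 (fam := false) (s1 := false) (s2 := false) (a := 0) (b := 1) (c := 1) (cn := .pnn) (n1 := ndB0q0) (n2 := ndB0q1) (pc := pcB1) (cut := cut_mm_011_s) (xt := Ext.none) (P1 := 0) (W1 := 536870912) (P2 := 536870912) (W2 := 536870912) (P3 := 649613803) (W3 := 48318383) (N0 := 3) (En := eng) (mo := mog) (C1 := cd0q0) (C2 := cd0q1) (C3 := pd1)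
    rfl (fun _ => rfl) k0_mm_011_s

noncomputable def cut_mm_011_t : Cut := Cut.of [[⟨3, 0, 0, 2845415833⟩]]

noncomputable def f_mm_011_t : ℕ → ℕ → ℕ → ℕ → Bool := onCell 0 536870912 536870912 536870912 649613803 48318383
    (rowNE 3 eng mog cd0q0 cd0q1 pd1 0 false false false .pnn 0 1 1 (qsf 0 536870912 536870912 536870912 1) ndB0q0 ndB0q1 pcB1 cut_mm_011_t Ext.none)

def k0_mm_011_t : ∃ t, chk3 f_mm_011_t t 1 1 1 = true :=
  ⟨(l 6), by decide +kernel⟩

theorem c_mm_011_t : CertNE 0 536870912 536870912 536870912 649613803 48318383 3 eng mog cd0q0 cd0q1 pd1 false false false .pnn 0 1 1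
    ndB0q0 ndB0q1 pcB1 cut_mm_011_t Ext.none :=
  certNE0 (fam := false) (s1 := false) (s2 := false) (a := 0) (b := 1) (c := 1) (cn := .pnn) (n1 := ndB0q0) (n2 := ndB0q1) (pc := pcB1) (cut := cut_mm_011_t) (xt := Ext.none) (P1 := 0) (W1 := 536870912) (P2 := 536870912) (W2 := 536870912) (P3 := 649613803) (W3 := 48318383) (N0 := 3) (En := eng) (mo := mog) (C1 := cd0q0) (C2 := cd0q1) (C3 := pd1)
    rfl k0_mm_011_t

noncomputable def cut_mm_012_s : Cut := Cut.of [[⟨4, 0, 0, 1449551462⟩]]

noncomputable def f_mm_012_s : ℕ → ℕ → ℕ → ℕ → Bool := onCell 0 536870912 0 536870912 649613803 48318383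
    (rowNE 3 eng mog cd0q0 cd0q2 pd1 0 false false false .pnp 0 1 2 (qsf 0 536870912 0 536870912 1) ndB0q0 ndB0q2 pcB1 cut_mm_012_s Ext.none)

def k0_mm_012_s : ∃ t, chk3 f_mm_012_s t 1 1 1 = true :=
  ⟨(l 5), by decide +kernel⟩

theorem c_mm_012_s : CertNE 0 536870912 0 536870912 649613803 48318383 3 eng mog cd0q0 cd0q2 pd1 false false false .pnp 0 1 2
    ndB0q0 ndB0q2 pcB1 cut_mm_012_s Ext.none :=
  certNE0 (fam := false) (s1 := false) (s2 := false) (a := 0) (b := 1) (c := 2) (cn := .pnp) (n1 := ndB0q0) (n2 := ndB0q2) (pc := pcB1) (cut := cut_mm_012_s) (xt := Ext.none) (P1 := 0) (W1 := 536870912) (P2 := 0) (W2 := 536870912) (P3 := 649613803) (W3 := 48318383) (N0 := 3) (En := eng) (mo := mog) (C1 := cd0q0) (C2 := cd0q2) (C3 := pd1)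
    rfl k0_mm_012_s

noncomputable def cut_mm_012_t : Cut := Cut.of [[⟨3, 0, 0, 2845415833⟩]]

noncomputable def f_mm_012_t : ℕ → ℕ → ℕ → ℕ → Bool := onCell 0 536870912 0 536870912 649613803 48318383
    (rowNE 3 eng mog cd0q0 cd0q2 pd1 0 false false false .pnp 0 1 2 (qsf 0 536870912 0 536870912 1) ndB0q0 ndB0q2 pcB1 cut_mm_012_t Ext.none)

def k0_mm_012_t : ∃ t, chk3 f_mm_012_t t 1 1 1 = true :=
  ⟨(l 5), by decide +kernel⟩

theorem c_mm_012_t : CertNE 0 536870912 0 536870912 649613803 48318383 3 eng mog cd0q0 cd0q2 pd1 false false false .pnp 0 1 2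
    ndB0q0 ndB0q2 pcB1 cut_mm_012_t Ext.none :=
  certNE0 (fam := false) (s1 := false) (s2 := false) (a := 0) (b := 1) (c := 2) (cn := .pnp) (n1 := ndB0q0) (n2 := ndB0q2) (pc := pcB1) (cut := cut_mm_012_t) (xt := Ext.none) (P1 := 0) (W1 := 536870912) (P2 := 0) (W2 := 536870912) (P3 := 649613803) (W3 := 48318383) (N0 := 3) (En := eng) (mo := mog) (C1 := cd0q0) (C2 := cd0q2) (C3 := pd1)
    rfl k0_mm_012_t

noncomputable def cut_mm_022_s : Cut := Cut.of [[⟨4, 0, 0, 1449551462⟩]]

noncomputable def f_mm_022_s : ℕ → ℕ → ℕ → ℕ → Bool := onCell 0 536870912 0 536870912 649613803 48318383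
    (rowNE 3 eng mog cd0q0 cd0q2 pd2 0 false false false .pp 0 2 2 (qsf 0 536870912 0 536870912 2) ndB0q0 ndB0q2 pcB2 cut_mm_022_s Ext.none)

def k0_mm_022_s : ∃ t, chk3 f_mm_022_s t 1 1 1 = true :=
  ⟨(l 5), by decide +kernel⟩

theorem c_mm_022_s : CertNE 0 536870912 0 536870912 649613803 48318383 3 eng mog cd0q0 cd0q2 pd2 false false false .pp 0 2 2
    ndB0q0 ndB0q2 pcB2 cut_mm_022_s Ext.none :=
  certNE0 (fam := false) (s1 := false) (s2 := false) (a := 0) (b := 2) (c := 2) (cn := .pp) (n1 := ndB0q0) (n2 := ndB0q2) (pc := pcB2) (cut := cut_mm_022_s) (xt := Ext.none) (P1 := 0) (W1 := 536870912) (P2 := 0) (W2 := 536870912) (P3 := 649613803) (W3 := 48318383) (N0 := 3) (En := eng) (mo := mog) (C1 := cd0q0) (C2 := cd0q2) (C3 := pd2)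
    rfl k0_mm_022_s

noncomputable def cut_mm_022_t : Cut := Cut.of [[⟨3, 0, 0, 2845415833⟩]]

noncomputable def f_mm_022_t : ℕ → ℕ → ℕ → ℕ → Bool := onCell 0 536870912 0 536870912 649613803 48318383
    (rowNE 3 eng mog cd0q0 cd0q2 pd2 0 false false false .pp 0 2 2 (qsf 0 536870912 0 536870912 2) ndB0q0 ndB0q2 pcB2 cut_mm_022_t Ext.none)

def k0_mm_022_t : ∃ t, chk3 f_mm_022_t t 1 1 1 = true :=
  ⟨(l 5), by decide +kernel⟩

theorem c_mm_022_t : CertNE 0 536870912 0 536870912 649613803 48318383 3 eng mog cd0q0 cd0q2 pd2 false false false .pp 0 2 2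
    ndB0q0 ndB0q2 pcB2 cut_mm_022_t Ext.none :=
  certNE0 (fam := false) (s1 := false) (s2 := false) (a := 0) (b := 2) (c := 2) (cn := .pp) (n1 := ndB0q0) (n2 := ndB0q2) (pc := pcB2) (cut := cut_mm_022_t) (xt := Ext.none) (P1 := 0) (W1 := 536870912) (P2 := 0) (W2 := 536870912) (P3 := 649613803) (W3 := 48318383) (N0 := 3) (En := eng) (mo := mog) (C1 := cd0q0) (C2 := cd0q2) (C3 := pd2)
    rfl k0_mm_022_t

noncomputable def cut_mm_101_s : Cut := Cut.of [[⟨4, 0, 0, 1449551462⟩]]

noncomputable def f_mm_101_s : ℕ → ℕ → ℕ → ℕ → Bool := onCell 536870912 536870912 536870912 536870912 649613803 48318383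
    (rowNE 3 eng mog cd0q1 cd0q1 pd0 0 false false false .npn 1 0 1 (qsf 536870912 536870912 536870912 536870912 0) ndB0q1 ndB0q1 pcB0 cut_mm_101_s Ext.none)

def k0_mm_101_s : ∃ t, chk3 f_mm_101_s t 1 1 1 = true :=
  ⟨(l 3), by decide +kernel⟩

theorem c_mm_101_s : CertNE 536870912 536870912 536870912 536870912 649613803 48318383 3 eng mog cd0q1 cd0q1 pd0 false false false .npn 1 0 1
    ndB0q1 ndB0q1 pcB0 cut_mm_101_s Ext.none :=
  certNE0 (fam := false) (s1 := false) (s2 := false) (a := 1) (b := 0) (c := 1) (cn := .npn) (n1 := ndB0q1) (n2 := ndB0q1) (pc := pcB0) (cut := cut_mm_101_s) (xt := Ext.none) (P1 := 536870912) (W1 := 536870912) (P2 := 536870912) (W2 := 536870912) (P3 := 649613803) (W3 := 48318383) (N0 := 3) (En := eng) (mo := mog) (C1 := cd0q1) (C2 := cd0q1) (C3 := pd0)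
    rfl k0_mm_101_s

noncomputable def cut_mm_101_t : Cut := Cut.of [[⟨3, 0, 0, 2845415833⟩]]

noncomputable def f_mm_101_t : ℕ → ℕ → ℕ → ℕ → Bool := onCell 536870912 536870912 536870912 536870912 649613803 48318383
    (rowNE 3 eng mog cd0q1 cd0q1 pd0 0 false false false .npn 1 0 1 (qsf 536870912 536870912 536870912 536870912 0) ndB0q1 ndB0q1 pcB0 cut_mm_101_t Ext.none)

def k0_mm_101_t : ∃ t, chk3 f_mm_101_t t 1 1 1 = true :=
  ⟨(l 3), by decide +kernel⟩

theorem c_mm_101_t : CertNE 536870912 536870912 536870912 536870912 649613803 48318383 3 eng mog cd0q1 cd0q1 pd0 false false false .npn 1 0 1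
    ndB0q1 ndB0q1 pcB0 cut_mm_101_t Ext.none :=
  certNE0 (fam := false) (s1 := false) (s2 := false) (a := 1) (b := 0) (c := 1) (cn := .npn) (n1 := ndB0q1) (n2 := ndB0q1) (pc := pcB0) (cut := cut_mm_101_t) (xt := Ext.none) (P1 := 536870912) (W1 := 536870912) (P2 := 536870912) (W2 := 536870912) (P3 := 649613803) (W3 := 48318383) (N0 := 3) (En := eng) (mo := mog) (C1 := cd0q1) (C2 := cd0q1) (C3 := pd0)
    rfl k0_mm_101_t

noncomputable def cut_mm_102_s : Cut := Cut.of [[⟨4, 0, 0, 1449551462⟩]]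

noncomputable def f_mm_102_s : ℕ → ℕ → ℕ → ℕ → Bool := onCell 536870912 536870912 0 536870912 649613803 48318383
    (rowNE 3 eng mog cd0q1 cd0q2 pd0 0 false false false .npp 1 0 2 (qsf 536870912 536870912 0 536870912 0) ndB0q1 ndB0q2 pcB0 cut_mm_102_s Ext.none)

def k0_mm_102_s : ∃ t, chk3 f_mm_102_s t 1 1 1 = true :=
  ⟨(a (l 5) (l 3)), by decide +kernel⟩

theorem c_mm_102_s : CertNE 536870912 536870912 0 536870912 649613803 48318383 3 eng mog cd0q1 cd0q2 pd0 false false false .npp 1 0 2
    ndB0q1 ndB0q2 pcB0 cut_mm_102_s Ext.none :=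
  certNE0 (fam := false) (s1 := false) (s2 := false) (a := 1) (b := 0) (c := 2) (cn := .npp) (n1 := ndB0q1) (n2 := ndB0q2) (pc := pcB0) (cut := cut_mm_102_s) (xt := Ext.none) (P1 := 536870912) (W1 := 536870912) (P2 := 0) (W2 := 536870912) (P3 := 649613803) (W3 := 48318383) (N0 := 3) (En := eng) (mo := mog) (C1 := cd0q1) (C2 := cd0q2) (C3 := pd0)
    rfl k0_mm_102_s

noncomputable def cut_mm_102_t : Cut := Cut.of [[⟨3, 0, 0, 2845415833⟩]]

noncomputable def f_mm_102_t : ℕ → ℕ → ℕ → ℕ → Bool := onCell 536870912 536870912 0 536870912 649613803 48318383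
    (rowNE 3 eng mog cd0q1 cd0q2 pd0 0 false false false .npp 1 0 2 (qsf 536870912 536870912 0 536870912 0) ndB0q1 ndB0q2 pcB0 cut_mm_102_t Ext.none)

def k0_mm_102_t : ∃ t, chk3 f_mm_102_t t 1 1 1 = true :=
  ⟨(l 6), by decide +kernel⟩

theorem c_mm_102_t : CertNE 536870912 536870912 0 536870912 649613803 48318383 3 eng mog cd0q1 cd0q2 pd0 false false false .npp 1 0 2
    ndB0q1 ndB0q2 pcB0 cut_mm_102_t Ext.none :=
  certNE0 (fam := false) (s1 := false) (s2 := false) (a := 1) (b := 0) (c := 2) (cn := .npp) (n1 := ndB0q1) (n2 := ndB0q2) (pc := pcB0) (cut := cut_mm_102_t) (xt := Ext.none) (P1 := 536870912) (W1 := 536870912) (P2 := 0) (W2 := 536870912) (P3 := 649613803) (W3 := 48318383) (N0 := 3) (En := eng) (mo := mog) (C1 := cd0q1) (C2 := cd0q2) (C3 := pd0)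
    rfl k0_mm_102_t

noncomputable def cut_mm_112_s : Cut := Cut.of [[⟨4, 0, 0, 1449551462⟩]]

noncomputable def f_mm_112_s : ℕ → ℕ → ℕ → ℕ → Bool := onCell 536870912 536870912 0 536870912 649613803 48318383
    (rowNE 3 eng mog cd0q1 cd0q2 pd1 2 false false false .dn 1 1 2 (qsf 536870912 536870912 0 536870912 1) ndB0q1 ndB0q2 pcB1 cut_mm_112_s Ext.none)

def k0_mm_112_s : ∃ t, chk3 f_mm_112_s t 1 1 1 = true :=
  ⟨(l 5), by decide +kernel⟩

theorem c_mm_112_s : CertNE 536870912 536870912 0 536870912 649613803 48318383 3 eng mog cd0q1 cd0q2 pd1 false false false .dn 1 1 2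
    ndB0q1 ndB0q2 pcB1 cut_mm_112_s Ext.none :=
  certNE2 (fam := false) (s1 := false) (s2 := false) (a := 1) (b := 1) (c := 2) (cn := .dn) (n1 := ndB0q1) (n2 := ndB0q2) (pc := pcB1) (cut := cut_mm_112_s) (xt := Ext.none) (P1 := 536870912) (W1 := 536870912) (P2 := 0) (W2 := 536870912) (P3 := 649613803) (W3 := 48318383) (N0 := 3) (En := eng) (mo := mog) (C1 := cd0q1) (C2 := cd0q2) (C3 := pd1)
    rfl (fun _ => rfl) k0_mm_112_s

noncomputable def cut_mm_112_t : Cut := Cut.of [[⟨3, 0, 0, 2845415833⟩]]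

noncomputable def f_mm_112_t : ℕ → ℕ → ℕ → ℕ → Bool := onCell 536870912 536870912 0 536870912 649613803 48318383
    (rowNE 3 eng mog cd0q1 cd0q2 pd1 0 false false false .dn 1 1 2 (qsf 536870912 536870912 0 536870912 1) ndB0q1 ndB0q2 pcB1 cut_mm_112_t Ext.none)

def k0_mm_112_t : ∃ t, chk3 f_mm_112_t t 1 1 1 = true :=
  ⟨(l 6), by decide +kernel⟩

theorem c_mm_112_t : CertNE 536870912 536870912 0 536870912 649613803 48318383 3 eng mog cd0q1 cd0q2 pd1 false false false .dn 1 1 2
    ndB0q1 ndB0q2 pcB1 cut_mm_112_t Ext.none :=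
  certNE0 (fam := false) (s1 := false) (s2 := false) (a := 1) (b := 1) (c := 2) (cn := .dn) (n1 := ndB0q1) (n2 := ndB0q2) (pc := pcB1) (cut := cut_mm_112_t) (xt := Ext.none) (P1 := 536870912) (W1 := 536870912) (P2 := 0) (W2 := 536870912) (P3 := 649613803) (W3 := 48318383) (N0 := 3) (En := eng) (mo := mog) (C1 := cd0q1) (C2 := cd0q2) (C3 := pd1)
    rfl k0_mm_112_t

noncomputable def cut_mm_202_s : Cut := Cut.of [[⟨4, 0, 0, 1449551462⟩]]

noncomputable def f_mm_202_s : ℕ → ℕ → ℕ → ℕ → Bool := onCell 0 536870912 0 536870912 649613803 48318383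
    (rowNE 3 eng mog cd0q2 cd0q2 pd0 0 false false false .pp 2 0 2 (qsf 0 536870912 0 536870912 0) ndB0q2 ndB0q2 pcB0 cut_mm_202_s Ext.none)

def k0_mm_202_s : ∃ t, chk3 f_mm_202_s t 1 1 1 = true :=
  ⟨(l 3), by decide +kernel⟩

theorem c_mm_202_s : CertNE 0 536870912 0 536870912 649613803 48318383 3 eng mog cd0q2 cd0q2 pd0 false false false .pp 2 0 2
    ndB0q2 ndB0q2 pcB0 cut_mm_202_s Ext.none :=
  certNE0 (fam := false) (s1 := false) (s2 := false) (a := 2) (b := 0) (c := 2) (cn := .pp) (n1 := ndB0q2) (n2 := ndB0q2) (pc := pcB0) (cut := cut_mm_202_s) (xt := Ext.none) (P1 := 0) (W1 := 536870912) (P2 := 0) (W2 := 536870912) (P3 := 649613803) (W3 := 48318383) (N0 := 3) (En := eng) (mo := mog) (C1 := cd0q2) (C2 := cd0q2) (C3 := pd0)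
    rfl k0_mm_202_s

noncomputable def cut_mm_202_t : Cut := Cut.of [[⟨3, 0, 0, 2845415833⟩]]

noncomputable def f_mm_202_t : ℕ → ℕ → ℕ → ℕ → Bool := onCell 0 536870912 0 536870912 649613803 48318383
    (rowNE 3 eng mog cd0q2 cd0q2 pd0 0 false false false .pp 2 0 2 (qsf 0 536870912 0 536870912 0) ndB0q2 ndB0q2 pcB0 cut_mm_202_t Ext.none)

def k0_mm_202_t : ∃ t, chk3 f_mm_202_t t 1 1 1 = true :=
  ⟨(l 3), by decide +kernel⟩

theorem c_mm_202_t : CertNE 0 536870912 0 536870912 649613803 48318383 3 eng mog cd0q2 cd0q2 pd0 false false false .pp 2 0 2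
    ndB0q2 ndB0q2 pcB0 cut_mm_202_t Ext.none :=
  certNE0 (fam := false) (s1 := false) (s2 := false) (a := 2) (b := 0) (c := 2) (cn := .pp) (n1 := ndB0q2) (n2 := ndB0q2) (pc := pcB0) (cut := cut_mm_202_t) (xt := Ext.none) (P1 := 0) (W1 := 536870912) (P2 := 0) (W2 := 536870912) (P3 := 649613803) (W3 := 48318383) (N0 := 3) (En := eng) (mo := mog) (C1 := cd0q2) (C2 := cd0q2) (C3 := pd0)
    rfl k0_mm_202_t

end Pool.Agent.Strip051.G.I6050_6500.Tab.CS.BB00

namespace Pool.Agent.Strip051.G.I6050_6500.Tab.CS.BB08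

open Pool.Agent.Strip051.PB Pool.Agent.Strip051.PB.T
open Pool.Agent.Strip051.G.I6050_6500.Tab

noncomputable def cut_pp_001_s : Cut := Cut.of [[⟨4, 0, 0, 1449551462⟩]]

noncomputable def f_pp_001_s : ℕ → ℕ → ℕ → ℕ → Bool := onCell 0 536870912 0 536870912 649613803 48318383
    (rowNE 3 eng mog cd0q0 cd8q1 pd0 1 false true true .up 0 0 1 (qsf 0 536870912 536870912 536870912 0) ndB0q0 ndB8q1 pcB0 cut_pp_001_s Ext.none)

def k0_pp_001_s : ∃ t, chk3 f_pp_001_s t 1 1 1 = true :=
  ⟨(l 3), by decide +kernel⟩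

theorem c_pp_001_s : CertNE 0 536870912 536870912 536870912 649613803 48318383 3 eng mog cd0q0 cd8q1 pd0 false true true .up 0 0 1
    ndB0q0 ndB8q1 pcB0 cut_pp_001_s Ext.none :=
  certNE1 (fam := false) (s1 := true) (s2 := true) (a := 0) (b := 0) (c := 1) (cn := .up) (n1 := ndB0q0) (n2 := ndB8q1) (pc := pcB0) (cut := cut_pp_001_s) (xt := Ext.none) (P1 := 0) (W1 := 536870912) (P2 := 536870912) (W2 := 536870912) (P3 := 649613803) (W3 := 48318383) (N0 := 3) (En := eng) (mo := mog) (C1 := cd0q0) (C2 := cd8q1) (C3 := pd0)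
    rfl (fun _ => rfl) k0_pp_001_s

noncomputable def cut_pp_011_s : Cut := Cut.of [[⟨4, 0, 0, 1449551462⟩], [⟨0, 0, 0, 67108864⟩, ⟨1, 1, 0, 67108864⟩, ⟨2, 1, 0, 67108864⟩]]

noncomputable def f_pp_011_s : ℕ → ℕ → ℕ → ℕ → Bool := onCell 0 536870912 536870912 536870912 649613803 48318383
    (rowNE 3 eng mog cd0q0 cd8q1 pd1 1 false true true .pnn 0 1 1 (qsf 0 536870912 536870912 536870912 1) ndB0q0 ndB8q1 pcB1 cut_pp_011_s Ext.none)

def k0_pp_011_s : ∃ t, chk3 f_pp_011_s t 1 1 1 = true :=
  ⟨(b (l 3) (a (b (l 3) (a (b (l 3) (a (b (l 3) (a (l 14) (l 3))) (l 3))) (l 3))) (l 3))), by decide +kernel⟩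

theorem c_pp_011_s : CertNE 0 536870912 536870912 536870912 649613803 48318383 3 eng mog cd0q0 cd8q1 pd1 false true true .pnn 0 1 1
    ndB0q0 ndB8q1 pcB1 cut_pp_011_s Ext.none :=
  certNE1 (fam := false) (s1 := true) (s2 := true) (a := 0) (b := 1) (c := 1) (cn := .pnn) (n1 := ndB0q0) (n2 := ndB8q1) (pc := pcB1) (cut := cut_pp_011_s) (xt := Ext.none) (P1 := 0) (W1 := 536870912) (P2 := 536870912) (W2 := 536870912) (P3 := 649613803) (W3 := 48318383) (N0 := 3) (En := eng) (mo := mog) (C1 := cd0q0) (C2 := cd8q1) (C3 := pd1)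
    rfl (fun _ => rfl) k0_pp_011_s

noncomputable def cut_pp_012_s : Cut := Cut.of [[⟨4, 0, 0, 1449551462⟩], [⟨0, 0, 0, 67108864⟩, ⟨1, 1, 0, 67108864⟩, ⟨2, 1, 0, 67108864⟩]]

noncomputable def f_pp_012_s : ℕ → ℕ → ℕ → ℕ → Bool := onCell 0 536870912 536870912 536870912 649613803 48318383
    (rowNE 3 eng mog cd0q0 cd8q2 pd1 1 false true true .pnp 0 1 2 (qsf 0 536870912 1073741824 536870912 1) ndB0q0 ndB8q2 pcB1 cut_pp_012_s Ext.none)

def k0_pp_012_s : ∃ t, chk3 f_pp_012_s t 1 1 1 = true :=
  ⟨(b (l 3) (a (b (l 3) (a (a (a (b (l 1) (b (l 3) (l 14))) (l 3)) (l 3)) (l 3))) (l 3))), by decide +kernel⟩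

theorem c_pp_012_s : CertNE 0 536870912 1073741824 536870912 649613803 48318383 3 eng mog cd0q0 cd8q2 pd1 false true true .pnp 0 1 2
    ndB0q0 ndB8q2 pcB1 cut_pp_012_s Ext.none :=
  certNE1 (fam := false) (s1 := true) (s2 := true) (a := 0) (b := 1) (c := 2) (cn := .pnp) (n1 := ndB0q0) (n2 := ndB8q2) (pc := pcB1) (cut := cut_pp_012_s) (xt := Ext.none) (P1 := 0) (W1 := 536870912) (P2 := 1073741824) (W2 := 536870912) (P3 := 649613803) (W3 := 48318383) (N0 := 3) (En := eng) (mo := mog) (C1 := cd0q0) (C2 := cd8q2) (C3 := pd1)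
    rfl (fun _ => rfl) k0_pp_012_s

end Pool.Agent.Strip051.G.I6050_6500.Tab.CS.BB08

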