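import Pool.Agent.Strip051.G.I6050_6500.StH
import Pool.Agent.Strip051.G.I6050_6500.StF

/-! # Unit strips 18 (generated) -/

set_option linter.all false
set_option maxRecDepth 100000

namespace Pool.Agent.Strip051.G.I6050_6500.Tab.St.C

open Pool.Agent.Strip051.PB Pool.Agent.Strip051.PB.T Pool.Agent.StripNear Pool.Agent.Strip051.LC
open Pool.Agent.Strip051.G.I6050_6500.Tab Pool.Agent.Strip051.G.I6050_6500.Tab.St

noncomputable def cut_B08pp_023_s1 : Cut := Cut.of [[⟨4, 0, 0, 1449551462⟩]]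

noncomputable def xt_B08pp_023_s1 : Ext := strExt6 dd false true true .u0 .s2 .u2 .up 0 2 3 rfl rfl gf2 vv ww ndB0q0 ndB8q3

noncomputable def f_B08pp_023_s1 : ℕ → ℕ → ℕ → ℕ → Bool := onCell 1073741824 536870912 0 1230186008 649613803 48318383
    (rowF 2 false true true .up 0 2 3 (qsf 0 536870912 0 1230186008 2) ndB0q0 ndB8q3 pcB2 cut_B08pp_023_s1 xt_B08pp_023_s1)

def k0_B08pp_023_s1 : ∃ t, chk3 f_B08pp_023_s1 t 1 2 1 = true :=
  ⟨(a (l 2) (a (l 2) (l 6))), by decide +kernel⟩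

def k1_B08pp_023_s1 : ∃ t, chk3 f_B08pp_023_s1 t 4 3 1 = true :=
  ⟨(b (l 2) (b (l 2) (l 3))), by decide +kernel⟩

def k2_B08pp_023_s1 : ∃ t, chk3 f_B08pp_023_s1 t 5 6 1 = true :=
  ⟨(a (l 2) (b (l 2) (a (l 2) (b (l 2) (l 16819344))))), by decide +kernel⟩

def k3_B08pp_023_s1 : ∃ t, chk3 f_B08pp_023_s1 t 40 7 1 = true :=
  ⟨(b (l 3) (b (l 3) (a (b (l 3) (a (l 3) (b (l 3) (a (l 3) (b (l 3) (l 1051959935)))))) (a (b (l 3) (b (a (l 3) (b (l 1056599679) (l 1055858815))) (a (b (l 1054008959) (l 1053403775)) (b (l 1055150207) (l 1055547007))))) (b (b (a (l 3) (b (l 3) (a (l 3) (l 1059996799)))) (a (b (l 3) (l 1058150527)) (b (l 1059169407) (l 1058263167)))) (b (a (b (l 1057318527) (l 1056522879)) (b (l 1057397887) (a (l 1056590975) (b (l 16767712) (l 16765808))))) (a (b (l 1055762559) (a (l 1054921343) (a (l 16764128) (l 16763120)))) (b (a (b (l 16766296) (l 16764328)) (b (l 16764032) (l 16762480))) (a (l 16764488) (l 16760288)))))))))),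 by decide +kernel⟩

def k4_B08pp_023_s1 : ∃ t, chk3 f_B08pp_023_s1 t 41 14 1 = true :=
  ⟨(a (l 3) (a (b (l 2) (b (l 2) (a (b (l 3) (a (l 3) (b (l 1062956671) (l 1063265919)))) (b (b (l 2) (a (l 1063012879) (a (l 1063593599) (l 1064046719)))) (a (b (l 1063542911) (l 1063853695)) (b (a (l 1063967359) (l 1064415359)) (l 1064441871))))))) (a (b (l 2) (b (l 2) (a (b (b (a (l 1064178815) (a (l 28017947623) (l 16775432))) (a (l 1064608383) (l 16774984))) (a (b (l 16774792) (l 16774144)) (b (l 16774408) (l 16773696)))) (a (b (b (l 18354275191) (a (l 16774656) (l 16774360))) (b (l 16779048) (l 16772888))) (a (b (b (l 16774648) (l 16773968)) (l 16772592)) (b (b (l 16774264) (l 16773392)) (l 16777280))))))) (b (l 2) (b (l 2) (b (a (a (a (b (l 16773608) (l 16772744)) (a (b (l 16772984) (l 16772152)) (a (a (l 23186102487) (b (l 16772440) (l 16771656))) (l 16771936)))) (l 25333584967)) (l 16770712)) (a (a (a (c (l 16771880) (l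 16776232)) (a (b (l 16771312) (l 16770472)) (b (l 16770952) (l 16764904)))) (l 16770024)) (l 16769032)))))))), by decide +kernel⟩

def k5_B08pp_023_s1 : ∃ t, chk3 f_B08pp_023_s1 t 82 15 1 = true :=
  ⟨(b (a (b (l 3) (b (l 3) (a (a (l 3) (b (l 3) (l 1060191871))) (b (a (l 3) (l 1061165183)) (l 1061004303))))) (a (b (b (l 3) (l 3)) (b (b (a (l 3) (l 1061992575)) (l 1061848591)) (b (l 1062014479) (l 1062150671)))) (b (b (b (l 3) (a (l 3) (l 1064723583))) (a (b (l 1063233151) (l 1062412415)) (b (l 1062853759) (l 1063096447)))) (b (a (b (l 1062628479) (l 1062809727)) (b (l 1063300735) (l 1063470207))) (a (b (l 1062958719) (l 16771600)) (b (l 16771944) (l 16770736))))))) (b (a (b (a (a (b (b (l 3) (l 1060583039)) (l 1059660415)) (b (b (l 1060298367) (l 1060309631)) (b (l 1060260991) (l 1059742847)))) (b (a (l 1062961279) (l 1061422207)) (a (l 1060740735) (l 1061368447)))) (a (a (b (l 1058700927) (l 1057785983)) (b (l 1059060863)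 (l 1058153599))) (b (a (l 1060040831) (b (l 16770128) (l 16768864))) (a (b (l 16768752) (l 16767280)) (l 16767240))))) (b (a (a (b (l 1061993087) (l 16775760)) (b (b (l 16771560) (l 16770744)) (l 16769624))) (b (a (l 16770264) (l 16769552)) (l 16768600))) (a (b (a (l 16768616) (l 16767968)) (l 16766352)) (b (l 16766856) (l 16764672))))) (a (b (a (a (b (l 1056914047) (b (l 16765248) (l 16763696))) (a (b (l 16766320) (l 16763400)) (b (l 16765832) (l 16763256)))) (b (a (l 16765488) (l 16764992)) (l 16762736))) (a (b (a (l 16761648) (l 16760656)) (l 16758104)) (b (l 16759776) (l 16756336)))) (b (a (b (l 16764000) (l 16761192)) (b (l 16762072) (l 16759040))) (a (l 16777104) (l 16753632)))))), by decide +kernel⟩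

def k6_B08pp_023_s1 : ∃ t, chk3 f_B08pp_023_s1 t 83 30 1 = true :=
  ⟨(a (b (a (b (a (b (a (l 3) (l 1063115903)) (a (l 1063052415) (l 1063360639))) (b (b (l 1063463551) (l 1063584383)) (l 1063771775))) (a (b (l 1064019983) (l 1063773311)) (b (l 1063999615) (l 16773328)))) (b (b (a (l 1067335295) (a (l 16774264) (l 16773792))) (a (l 1064338559) (a (l 16773416) (l 16772976)))) (a (b (a (l 16773520) (l 16772992)) (l 16777552)) (b (a (l 16772552) (l 16772000)) (l 16771256))))) (a (b (a (b (l 1063965311) (l 16772192)) (b (l 16772264) (l 16771256))) (b (a (a (l 16771288) (l 16770872)) (l 16770128)) (l 16774728))) (a (b (b (l 16771296) (l 16770208)) (l 16768512)) (b (l 16769640) (l 16767352))))) (a (b (a (b (b (a (l 16773360) (l 16772776)) (l 16772104)) (b (l 16771080) (l 16770040))) (b (b (a (l 16771920) (l 16770912)) (a (l 16770936) (l 16769960))) (a (l 16779896) (l 16778984)))) (a (b (b (l 16768968) (l 16767848)) (l 16766088))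 (b (b (l 16767384) (l 16766312)) (l 16775088)))) (a (a (a (b (b (b (l 16770104) (l 16769192)) (l 16767792)) (b (l 16765840) (l 16763328))) (a (b (b (l 16769176) (l 16767400)) (b (l 16765520) (b (l 16763504) (l 16760912)))) (a (a (b (b (l 16768936) (l 16767216)) (b (l 16765176) (l 16760520))) (b (b (l 16768872) (l 16767192)) (b (b (l 16765880) (l 16764296)) (l 16759120)))) (b (b (l 16768800) (l 16767136)) (b (l 16764848) (l 16758472)))))) (a (a (b (b (l 16768664) (l 16766992)) (b (l 16764696) (l 16758312))) (a (b (b (l 16768536) (l 16766848)) (b (l 16764552) (l 16758160))) (b (b (l 16768448) (l 16766752)) (b (l 16764448) (l 16758056))))) (b (b (l 16768224) (l 16766512)) (b (l 16764192) (l 16757792))))) (b (b (l 16767320) (l 16765544)) (b (l 16763176) (l 16756736)))))), by decide +kernel⟩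

def k7_B08pp_023_s1 : ∃ t, chk3 f_B08pp_023_s1 t 83 31 1 = true :=
  ⟨(a (b (a (b (b (l 16768248) (l 16766728)) (b (l 16764784) (l 16762416))) (b (b (l 16766008) (l 16764384)) (l 16761120))) (a (b (l 16758056) (b (l 16752760) (l 16748432))) (b (a (l 16756024) (l 16775192)) (a (l 16789760) (l 16744816))))) (a (b (a (b (l 16763280) (l 16758720)) (b (a (l 16762144) (l 16771224)) (a (l 16777832) (l 16753880)))) (a (b (b (l 16753728) (l 16748928)) (l 16740688)) (b (l 16766904) (l 16734744)))) (a (a (a (b (b (l 16758480) (l 16750368)) (b (l 16740616) (l 16729192))) (a (b (b (l 16755464) (l 16747272)) (b (l 16737408) (l 16725944))) (a (b (b (l 16755064) (l 16746744)) (a (b (l 16735016) (l 16723552)) (b (l 16733400) (l 16721904)))) (b (b (l 16750936) (l 16742664)) (b (l 16732736) (l 16721256)))))) (a (a (b (b (l 16750768) (l 16742480)) (b (l 16732544) (l 16721048))) (a (b (b (l 16750600) (l 16742304)) (b (l 16732344) (l 16720840)))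 (b (b (l 16750480) (l 16742184)) (b (l 16732216) (l 16720704))))) (b (b (l 16750200) (l 16741880)) (b (l 16731896) (l 16720360))))) (b (b (l 16749072) (l 16740672)) (b (l 16730616) (l 16718992)))))), by decide +kernel⟩

def k8_B08pp_023_s1 : ∃ t, chk3 f_B08pp_023_s1 t 21 7 1 = true :=
  ⟨(b (b (a (l 2) (l 246524410711)) (a (a (b (b (l 2) (l 310948922711)) (b (a (l 16767688) (l 16762856)) (a (l 16765720) (l 16760456)))) (b (l 14596174951) (a (l 16756640) (l 16751688)))) (b (a (l 16751720) (l 16743616)) (l 16739568)))) (b (a (a (b (b (l 16771352) (l 16758584)) (b (l 16776768) (l 16749232))) (b (b (l 16749528) (l 16746336)) (b (l 16742880) (l 16736136)))) (b (a (l 16736328) (l 16724968)) (a (l 16726432) (l 16713536)))) (a (a (b (b (l 16741016) (l 16732032)) (b (l 16721368) (l 16709136))) (b (b (l 16726872) (l 16716776)) (b (l 16705000) (l 16691576)))) (b (b (l 16705984) (l 16694120)) (b (l 16680504) (l 16665160)))))),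 by decide +kernel⟩

def k9_B08pp_023_s1 : ∃ t, chk3 f_B08pp_023_s1 t 11 7 1 = true :=
  ⟨(b (b (b (l 209480310503) (a (l 16733456) (l 16709584))) (a (b (l 16766032) (a (l 16720792) (l 16702936))) (b (l 16695568) (l 16676784)))) (b (a (b (a (l 16708264) (l 16686448)) (a (l 16694248) (l 16668776))) (b (l 16654312) (l 16629768))) (b (a (a (l 16671120) (l 16641984)) (l 16597160)) (b (a (l 16631056) (l 16563032)) (a (l 16611568) (l 16621536)))))), by decide +kernel⟩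

def k10_B08pp_023_s1 : ∃ t, chk3 f_B08pp_023_s1 t 3 3 1 = true :=
  ⟨(a (b (b (a (l 2) (b (l 16725544) (l 16726192))) (a (a (b (l 16737136) (l 16723968)) (b (l 16730368) (l 16714912))) (b (l 16726152) (a (l 16708832) (l 6))))) (b (a (b (a (l 16614528) (l 16680952)) (b (l 16611576) (l 16623240))) (a (b (l 16662440) (l 16584792)) (l 6))) (b (a (b (l 16628480) (a (l 16575240) (l 16517840))) (b (l 16482256) (l 16424704))) (a (b (a (l 16617752) (l 16468680)) (a (b (l 16492368) (l 16462472)) (l 16493160))) (a (b (l 16401384) (l 16340704)) (l 6)))))) (l 6)), by decide +kernel⟩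

theorem t11_B08pp_023_s1 : ∃ t, chk3 f_B08pp_023_s1 t 83 15 1 = true := ex3_b k6_B08pp_023_s1 k7_B08pp_023_s1

theorem t12_B08pp_023_s1 : ∃ t, chk3 f_B08pp_023_s1 t 41 15 1 = true := ex3_a k5_B08pp_023_s1 t11_B08pp_023_s1

theorem t13_B08pp_023_s1 : ∃ t, chk3 f_B08pp_023_s1 t 41 7 1 = true := ex3_b k4_B08pp_023_s1 t12_B08pp_023_s1

theorem t14_B08pp_023_s1 : ∃ t, chk3 f_B08pp_023_s1 t 20 7 1 = true := ex3_a k3_B08pp_023_s1 t13_B08pp_023_s1

theorem t15_B08pp_023_s1 : ∃ t, chk3 f_B08pp_023_s1 t 10 7 1 = true := ex3_a t14_B08pp_023_s1 k8_B08pp_023_s1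

theorem t16_B08pp_023_s1 : ∃ t, chk3 f_B08pp_023_s1 t 5 7 1 = true := ex3_a t15_B08pp_023_s1 k9_B08pp_023_s1

theorem t17_B08pp_023_s1 : ∃ t, chk3 f_B08pp_023_s1 t 5 3 1 = true := ex3_b k2_B08pp_023_s1 t16_B08pp_023_s1

theorem t18_B08pp_023_s1 : ∃ t, chk3 f_B08pp_023_s1 t 2 3 1 = true := ex3_a k1_B08pp_023_s1 t17_B08pp_023_s1

theorem t19_B08pp_023_s1 : ∃ t, chk3 f_B08pp_023_s1 t 1 3 1 = true := ex3_a t18_B08pp_023_s1 k10_B08pp_023_s1

theorem t20_B08pp_023_s1 : ∃ t, chk3 f_B08pp_023_s1 t 1 1 1 = true := ex3_b k0_B08pp_023_s1 t19_B08pp_023_s1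

theorem c_B08pp_023_s1 : CertF 0 536870912 0 1230186008 649613803 48318383 false true true .up 0 2 3
    ndB0q0 ndB8q3 pcB2 cut_B08pp_023_s1 xt_B08pp_023_s1 :=
  certF2 (fam := false) (s1 := true) (s2 := true) (a := 0) (b := 2) (c := 3) (cn := .up) (n1 := ndB0q0) (n2 := ndB8q3) (pc := pcB2) (cut := cut_B08pp_023_s1) (xt := xt_B08pp_023_s1) (P1 := 0) (W1 := 536870912) (P2 := 0) (W2 := 1230186008) (P3 := 649613803) (W3 := 48318383)
    rfl (fun _ => rfl) t20_B08pp_023_s1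

theorem s_B08pp_023_s1 {κ x : ℝ} (hκ : κ * h0 = ken x) (hx : ((649613803 : ℕ) : ℝ) / S ≤ x)
    (hx' : x ≤ (((649613803 : ℕ) : ℝ) + (48318383 : ℕ)) / S) :
    AltB (VFD κ) PP tK tL pcB [⟨3, 0, 0, 1449551462⟩] 0 2 3 0 8 (sgb true) (sgb true) x :=
  strip_altBD (m := 1449551462) true rfl hκ (SH.κ0 hκ (SH.hx1 hx).le (SH.hx2 hx').le) (SH.hx1 hx).le (SH.hx2 hx') (covB00).cov (covB83).cov hx hx' c_B08pp_023_s1 cutB_nil ((okx6 hx hx').extB (T := tt) (okx hx hx') (sideB hx hx') hκ rfl rfl (.O 0 true) (.N 3 true) rfl)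

noncomputable def cut_B08pp_033_s1 : Cut := Cut.of [[⟨4, 0, 0, 1449551462⟩]]

noncomputable def f_B08pp_033_s1 : ℕ → ℕ → ℕ → ℕ → Bool := onCell 1610612736 536870912 0 1230186008 649613803 48318383
    (rowF 2 false true true .pnn 0 3 3 (qsf 0 536870912 0 1230186008 3) ndB0q0 ndB8q3 pcB3 cut_B08pp_033_s1 Ext.none)

def k0_B08pp_033_s1 : ∃ t, chk3 f_B08pp_033_s1 t 1 1 1 = true :=
  ⟨(b (l 6) (l 6)), by decide +kernel⟩

theorem c_B08pp_033_s1 : CertF 0 536870912 0 1230186008 649613803 48318383 false true true .pnn 0 3 3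
    ndB0q0 ndB8q3 pcB3 cut_B08pp_033_s1 Ext.none :=
  certF2 (fam := false) (s1 := true) (s2 := true) (a := 0) (b := 3) (c := 3) (cn := .pnn) (n1 := ndB0q0) (n2 := ndB8q3) (pc := pcB3) (cut := cut_B08pp_033_s1) (xt := Ext.none) (P1 := 0) (W1 := 536870912) (P2 := 0) (W2 := 1230186008) (P3 := 649613803) (W3 := 48318383)
    rfl (fun _ => rfl) k0_B08pp_033_s1

theorem s_B08pp_033_s1 {κ x : ℝ} (hκ : κ * h0 = ken x) (hx : ((649613803 : ℕ) : ℝ) / S ≤ x)
    (hx' : x ≤ (((649613803 : ℕ) : ℝ) + (48318383 : ℕ)) / S) :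
    AltB (VFD κ) PP tK tL pcB [⟨3, 0, 0, 1449551462⟩] 0 3 3 0 8 (sgb true) (sgb true) x :=
  strip_altBD (m := 1449551462) true rfl hκ (SH.κ0 hκ (SH.hx1 hx).le (SH.hx2 hx').le) (SH.hx1 hx).le (SH.hx2 hx') (covB00).cov (covB83).cov hx hx' c_B08pp_033_s1 cutB_nil (noExt_B)

noncomputable def cut_B08pp_101_s1 : Cut := Cut.of [[⟨4, 0, 0, 1449551462⟩]]

noncomputable def f_B08pp_101_s1 : ℕ → ℕ → ℕ → ℕ → Bool := onCell 536870912 536870912 536870912 536870912 649613803 48318383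
    (rowF 0 false true true .npn 1 0 1 (qsf 536870912 536870912 536870912 536870912 0) ndB0q1 ndB8q1 pcB0 cut_B08pp_101_s1 Ext.none)

def k0_B08pp_101_s1 : ∃ t, chk3 f_B08pp_101_s1 t 1 1 1 = true :=
  ⟨(a (l 3) (l 5)), by decide +kernel⟩

theorem c_B08pp_101_s1 : CertF 536870912 536870912 536870912 536870912 649613803 48318383 false true true .npn 1 0 1
    ndB0q1 ndB8q1 pcB0 cut_B08pp_101_s1 Ext.none :=
  certF0 (fam := false) (s1 := true) (s2 := true) (a := 1) (b := 0) (c := 1) (cn := .npn) (n1 := ndB0q1) (n2 := ndB8q1) (pc := pcB0) (cut := cut_B08pp_101_s1) (xt := Ext.none) (P1 := 536870912) (W1 := 536870912) (P2 := 536870912) (W2 := 536870912) (P3 := 649613803) (W3 := 48318383)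
    rfl k0_B08pp_101_s1

theorem s_B08pp_101_s1 {κ x : ℝ} (hκ : κ * h0 = ken x) (hx : ((649613803 : ℕ) : ℝ) / S ≤ x)
    (hx' : x ≤ (((649613803 : ℕ) : ℝ) + (48318383 : ℕ)) / S) :
    AltB (VFD κ) PP tK tL pcB [⟨3, 0, 0, 1449551462⟩] 1 0 1 0 8 (sgb true) (sgb true) x :=
  strip_altBD (m := 1449551462) true rfl hκ (SH.κ0 hκ (SH.hx1 hx).le (SH.hx2 hx').le) (SH.hx1 hx).le (SH.hx2 hx') (covB01).cov (covB81).cov hx hx' c_B08pp_101_s1 cutB_nil (noExt_B)

noncomputable def cut_B08pp_102_s1 : Cut := Cut.of [[⟨4, 0, 0, 1449551462⟩]]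

noncomputable def f_B08pp_102_s1 : ℕ → ℕ → ℕ → ℕ → Bool := onCell 536870912 536870912 1073741824 536870912 649613803 48318383
    (rowF 0 false true true .npp 1 0 2 (qsf 536870912 536870912 1073741824 536870912 0) ndB0q1 ndB8q2 pcB0 cut_B08pp_102_s1 Ext.none)

def k0_B08pp_102_s1 : ∃ t, chk3 f_B08pp_102_s1 t 1 1 1 = true :=
  ⟨(a (l 3) (b (l 5) (l 3))), by decide +kernel⟩

theorem c_B08pp_102_s1 : CertF 536870912 536870912 1073741824 536870912 649613803 48318383 false true true .npp 1 0 2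
    ndB0q1 ndB8q2 pcB0 cut_B08pp_102_s1 Ext.none :=
  certF0 (fam := false) (s1 := true) (s2 := true) (a := 1) (b := 0) (c := 2) (cn := .npp) (n1 := ndB0q1) (n2 := ndB8q2) (pc := pcB0) (cut := cut_B08pp_102_s1) (xt := Ext.none) (P1 := 536870912) (W1 := 536870912) (P2 := 1073741824) (W2 := 536870912) (P3 := 649613803) (W3 := 48318383)
    rfl k0_B08pp_102_s1

theorem s_B08pp_102_s1 {κ x : ℝ} (hκ : κ * h0 = ken x) (hx : ((649613803 : ℕ) : ℝ) / S ≤ x)
    (hx' : x ≤ (((649613803 : ℕ) : ℝ) + (48318383 : ℕ)) / S) :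
    AltB (VFD κ) PP tK tL pcB [⟨3, 0, 0, 1449551462⟩] 1 0 2 0 8 (sgb true) (sgb true) x :=
  strip_altBD (m := 1449551462) true rfl hκ (SH.κ0 hκ (SH.hx1 hx).le (SH.hx2 hx').le) (SH.hx1 hx).le (SH.hx2 hx') (covB01).cov (covB82).cov hx hx' c_B08pp_102_s1 cutB_nil (noExt_B)

noncomputable def cut_B08pp_112_s1 : Cut := Cut.of [[⟨4, 0, 0, 1449551462⟩]]

noncomputable def f_B08pp_112_s1 : ℕ → ℕ → ℕ → ℕ → Bool := onCell 536870912 536870912 1073741824 536870912 649613803 48318383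
    (rowF 0 false true true .dn 1 1 2 (qsf 536870912 536870912 1073741824 536870912 1) ndB0q1 ndB8q2 pcB1 cut_B08pp_112_s1 Ext.none)

def k0_B08pp_112_s1 : ∃ t, chk3 f_B08pp_112_s1 t 1 1 1 = true :=
  ⟨(a (l 3) (b (l 5) (l 3))), by decide +kernel⟩

theorem c_B08pp_112_s1 : CertF 536870912 536870912 1073741824 536870912 649613803 48318383 false true true .dn 1 1 2
    ndB0q1 ndB8q2 pcB1 cut_B08pp_112_s1 Ext.none :=
  certF0 (fam := false) (s1 := true) (s2 := true) (a := 1) (b := 1) (c := 2) (cn := .dn) (n1 := ndB0q1) (n2 := ndB8q2) (pc := pcB1) (cut := cut_B08pp_112_s1) (xt := Ext.none) (P1 := 536870912) (W1 := 536870912) (P2 := 1073741824) (W2 := 536870912) (P3 := 649613803) (W3 := 48318383)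
    rfl k0_B08pp_112_s1

theorem s_B08pp_112_s1 {κ x : ℝ} (hκ : κ * h0 = ken x) (hx : ((649613803 : ℕ) : ℝ) / S ≤ x)
    (hx' : x ≤ (((649613803 : ℕ) : ℝ) + (48318383 : ℕ)) / S) :
    AltB (VFD κ) PP tK tL pcB [⟨3, 0, 0, 1449551462⟩] 1 1 2 0 8 (sgb true) (sgb true) x :=
  strip_altBD (m := 1449551462) true rfl hκ (SH.κ0 hκ (SH.hx1 hx).le (SH.hx2 hx').le) (SH.hx1 hx).le (SH.hx2 hx') (covB01).cov (covB82).cov hx hx' c_B08pp_112_s1 cutB_nil (noExt_B)

noncomputable def cut_B08pp_113_s1 : Cut := Cut.of [[⟨4, 0, 0, 1449551462⟩], [⟨0, 1, 0, 67108864⟩, ⟨1, 1, 0, 67108864⟩, ⟨2, 2, 0, 16777216⟩]]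

noncomputable def f_B08pp_113_s1 : ℕ → ℕ → ℕ → ℕ → Bool := onCell 536870912 536870912 0 1230186008 649613803 48318383
    (rowF 2 false true true .nn 1 1 3 (qsf 536870912 536870912 0 1230186008 1) ndB0q1 ndB8q3 pcB1 cut_B08pp_113_s1 Ext.none)

def k0_B08pp_113_s1 : ∃ t, chk3 f_B08pp_113_s1 t 1 1 1 = true :=
  ⟨(b (a (l 2) (a (l 2) (b (a (l 2) (b (a (l 2) (l 14)) (l 3))) (l 3)))) (a (a (b (l 2) (b (l 2) (l 3))) (b (b (l 2) (a (l 2) (l 3))) (l 3))) (b (a (l 3) (l 3)) (l 3)))), by decide +kernel⟩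

theorem c_B08pp_113_s1 : CertF 536870912 536870912 0 1230186008 649613803 48318383 false true true .nn 1 1 3
    ndB0q1 ndB8q3 pcB1 cut_B08pp_113_s1 Ext.none :=
  certF2 (fam := false) (s1 := true) (s2 := true) (a := 1) (b := 1) (c := 3) (cn := .nn) (n1 := ndB0q1) (n2 := ndB8q3) (pc := pcB1) (cut := cut_B08pp_113_s1) (xt := Ext.none) (P1 := 536870912) (W1 := 536870912) (P2 := 0) (W2 := 1230186008) (P3 := 649613803) (W3 := 48318383)
    rfl (fun _ => rfl) k0_B08pp_113_s1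

theorem s_B08pp_113_s1 {κ x : ℝ} (hκ : κ * h0 = ken x) (hx : ((649613803 : ℕ) : ℝ) / S ≤ x)
    (hx' : x ≤ (((649613803 : ℕ) : ℝ) + (48318383 : ℕ)) / S)
    (H : CutB (VFD κ) PP tK tL pcB (Cut.of [[⟨0, 1, 0, 67108864⟩, ⟨1, 1, 0, 67108864⟩, ⟨2, 2, 0, 16777216⟩]]) 1 1 3 0 8 (sgb true) (sgb true) x) :
    AltB (VFD κ) PP tK tL pcB [⟨3, 0, 0, 1449551462⟩] 1 1 3 0 8 (sgb true) (sgb true) x :=
  strip_altBD (m := 1449551462) true rfl hκ (SH.κ0 hκ (SH.hx1 hx).le (SH.hx2 hx').le) (SH.hx1 hx).le (SH.hx2 hx') (covB01).cov (covB83).cov hx hx' c_B08pp_113_s1 H (noExt_B)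

noncomputable def cut_B08pp_123_s1 : Cut := Cut.of [[⟨4, 0, 0, 1449551462⟩], [⟨0, 1, 0, 67108864⟩, ⟨1, 1, 0, 67108864⟩, ⟨2, 2, 0, 16777216⟩]]

noncomputable def xt_B08pp_123_s1 : Ext := strExt6 dd false true true .u0 .s2 .u2 .npn 1 2 3 rfl rfl gf2 vv ww ndB0q1 ndB8q3

noncomputable def f_B08pp_123_s1 : ℕ → ℕ → ℕ → ℕ → Bool := onCell 1073741824 536870912 0 1230186008 649613803 48318383
    (rowF 2 false true true .npn 1 2 3 (qsf 536870912 536870912 0 1230186008 2) ndB0q1 ndB8q3 pcB2 cut_B08pp_123_s1 xt_B08pp_123_s1)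

def k0_B08pp_123_s1 : ∃ t, chk3 f_B08pp_123_s1 t 8 2 1 = true :=
  ⟨(b (b (a (l 14) (a (l 14) (a (l 14) (b (l 16751928) (b (l 16764128) (a (l 16771160) (l 16769272))))))) (a (l 3) (b (a (l 14) (b (a (a (l 14) (b (b (l 14) (a (l 14) (l 16776296))) (b (a (l 14) (b (a (l 16776544) (l 16776384)) (a (b (l 16776720) (l 16776872)) (l 16776512)))) (a (l 1072784015) (b (a (l 1072691855) (b (l 16776768) (l 16776872))) (l 1072628879)))))) (b (a (b (l 16774560) (a (l 16775704) (l 16774992))) (l 16774008)) (a (b (a (l 16776176) (l 16775784)) (a (b (a (l 16776520) (l 16776336)) (a (b (l 16776776) (l 16776904)) (b (l 16776456) (l 16776648)))) (b (l 16776024) (a (l 16776288) (l 16776096))))) (b (l 16795440) (a (l 16775984) (l 16775728)))))) (a (a (l 3) (l 1072600207)) (b (a (b (a (l 1072424079) (b (a (b (l 16776472) (l 16776664)) (l 16776248)) (a (l 1072270479) (b (l 16776512) (l 16776664))))) (l 1072286351)) (b (a (b (l 16776168)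 (a (l 16776344) (l 16776312))) (l 16776064)) (a (b (a (b (l 16776632) (l 16776776)) (l 16776496)) (l 1072334479)) (b (a (l 16776408) (l 16776296)) (a (b (l 16776536) (l 16776712)) (l 16776464)))))) (a (l 3) (b (a (l 1072295055) (b (a (l 1072532623) (b (l 16776664) (l 16776792))) (l 1072570511))) (l 1072396943))))))) (l 3)))) (l 3)), by decide +kernel⟩

def k1_B08pp_123_s1 : ∃ t, chk3 f_B08pp_123_s1 t 18 8 1 = true :=
  ⟨(b (l 16736480) (a (a (l 16784120) (l 16759088)) (b (l 16748088) (l 16756176)))), by decide +kernel⟩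

def k2_B08pp_123_s1 : ∃ t, chk3 f_B08pp_123_s1 t 18 18 1 = true :=
  ⟨(a (b (a (b (l 16771208) (a (l 16794800) (l 16773464))) (l 16789904)) (a (b (a (b (a (l 16775360) (l 16775088)) (a (l 16775920) (l 16775112))) (b (l 16774784) (l 16774680))) (a (b (a (b (a (l 16776536) (l 16776208)) (a (b (l 16776704) (l 16776848)) (l 16776560))) (l 16775848)) (a (b (a (l 1072707727) (b (l 16776704) (l 16776864))) (l 1072689295)) (b (a (l 16776520) (l 16776216)) (a (l 16776808) (l 16776488))))) (b (l 16774656) (a (b (l 16775640) (a (l 16776256) (l 16775832))) (l 16775064))))) (b (a (l 16774056) (l 16772528)) (a (b (l 16774152) (l 16774072)) (l 16773816))))) (b (a (l 16764256) (l 16759336)) (a (b (l 16769424) (l 16771968)) (l 16766144)))), by decide +kernel⟩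

def k3_B08pp_123_s1 : ∃ t, chk3 f_B08pp_123_s1 t 18 19 1 = true :=
  ⟨(a (b (a (b (a (l 1072528527) (b (a (b (a (l 16779104) (l 16776280)) (a (l 1072383119) (l 16776504))) (b (l 16775664) (a (l 16776288) (l 16775896)))) (a (l 1072324751) (b (a (l 16776568) (l 16776304)) (l 1072280719))))) (l 1072280207)) (b (a (b (l 16774576) (a (b (l 16775776) (a (l 16776320) (l 16776072))) (l 16775192))) (b (l 16773640) (l 16773848))) (a (b (a (b (a (l 16776704) (l 16776360)) (l 1072263311)) (b (l 16775984) (a (l 16776416) (l 16776224)))) (a (l 1072221327) (b (a (l 1072304783) (l 16776496)) (l 1072307855)))) (b (l 16774928) (a (b (l 16776152) (a (l 16776600) (l 16776352))) (b (l 16775296) (l 16775856))))))) (a (l 3) (b (a (l 1072178319) (b (a (l 1072422543) (b (a (l 16776392) (l 16776112)) (a (l 16776648) (l 16776368)))) (l 1072299151))) (l 1072194191)))) (b (a (b (a (b (l 16773384) (l 16773296)) (l 16773072)) (a (b (l 16773376)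 (l 16774192)) (b (l 16772848) (l 16772944)))) (b (l 16770472) (l 16772304))) (a (b (a (b (a (b (l 16775544) (l 16775944)) (l 16774960)) (a (b (a (l 16776328) (l 16775968)) (a (l 16776632) (l 16776280))) (b (l 16775744) (l 16781024)))) (b (l 16773336) (l 16774392))) (a (a (l 1071918735) (b (b (a (l 16776232) (l 16775840)) (l 1071702671)) (l 1071657615))) (b (a (b (l 16775728) (a (l 16775928) (l 16775808))) (l 16774896)) (a (b (a (l 16776264) (l 16776040)) (l 1071786127)) (b (l 16775752) (a (l 16776136) (l 16775912))))))) (b (a (l 16772736) (l 16772296)) (a (l 16773784) (l 16772584)))))), by decide +kernel⟩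

def k4_B08pp_123_s1 : ∃ t, chk3 f_B08pp_123_s1 t 19 4 1 = true :=
  ⟨(b (b (l 16705224) (l 16735056)) (b (a (b (l 16752216) (l 16758432)) (b (l 16742072) (l 16664784))) (a (b (a (l 16767144) (l 16762240)) (a (b (l 16770304) (a (l 16772176) (l 16770808))) (b (l 16766320) (l 16768048)))) (b (l 16754488) (a (l 16762568) (l 16757136)))))), by decide +kernel⟩

def k5_B08pp_123_s1 : ∃ t, chk3 f_B08pp_123_s1 t 18 5 1 = true :=
  ⟨(b (a (l 3) (b (a (b (a (l 1071621263) (a (l 1071649423) (a (l 1071855247) (b (b (b (l 16776208) (l 16776504)) (l 1072000143)) (l 1071897743))))) (l 3)) (b (b (a (b (a (b (l 16775624) (a (l 16776176) (l 16775792))) (l 16774744)) (a (b (a (l 16776552) (l 16776112)) (l 1072008847)) (b (l 16775504) (a (l 16776056) (l 16775656))))) (l 16773848)) (a (b (a (l 1071959183) (b (a (l 16776472) (l 16776024)) (l 1071711887))) (l 1071766671)) (b (a (b (l 16775408) (a (l 16776000) (l 16775544))) (l 16774688))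 (a (l 1071502991) (b (l 16775344) (a (l 16775952) (l 16775480))))))) (a (l 3) (l 1071257743)))) (l 3))) (l 3)), by decide +kernel⟩

def k6_B08pp_123_s1 : ∃ t, chk3 f_B08pp_123_s1 t 38 10 1 = true :=
  ⟨(b (b (a (b (a (l 16777840) (l 16772152)) (a (a (b (l 16773896) (l 16774720)) (l 16773616)) (b (l 16772504) (l 16773080)))) (b (l 16769400) (a (l 16771624) (l 16769712)))) (a (b (a (b (a (a (b (l 16775472) (l 16775928)) (b (l 16775120) (l 16775464))) (l 16774768)) (a (l 1071276175) (b (a (l 16775472) (l 16775160)) (a (l 16775936) (l 16775496))))) (a (b (l 16774064) (l 16774848)) (l 16773840))) (a (l 1071185551) (b (a (b (a (l 16775520) (l 16775232)) (a (l 16775960) (l 16775560))) (l 16774952)) (a (l 1071340687) (b (a (l 16775600) (l 16775336)) (a (l 16776016) (l 16775648))))))) (a (b (a (l 16773256) (l 16772504)) (a (b (l 16774216) (l 16774920)) (l 16773776))) (b (l 16771016) (l 16772400))))) (a (b (a (l 3) (l 1071238175))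 (l 3)) (b (a (b (a (b (a (b (l 16775632) (l 16776016)) (l 16778032)) (l 1071445647)) (b (l 16774792) (a (b (l 16775512) (l 16775920)) (l 16775312)))) (l 1071265311)) (b (a (b (l 16773936) (l 16774664)) (l 16773360)) (a (b (a (b (l 16775408) (l 16775816)) (l 16775216)) (l 1071245455)) (b (l 16774536) (a (b (l 16775312) (l 16775704)) (l 16775128)))))) (a (b (l 1071173151) (l 3)) (l 1071074447))))), by decide +kernel⟩

def k7_B08pp_123_s1 : ∃ t, chk3 f_B08pp_123_s1 t 39 10 1 = true :=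
  ⟨(b (b (a (l 16766072) (l 16761848)) (a (a (b (l 16768992) (l 16770320)) (l 16767624)) (l 16764696))) (a (b (b (a (l 16771840) (l 16769688)) (a (a (b (l 16773584) (l 16774408)) (l 16772984)) (l 16771368))) (a (b (a (b (a (l 16778008) (l 16775000)) (l 1071114383)) (b (l 16774256) (a (l 16775280) (l 16774848)))) (a (l 1071020175) (b (a (l 16776064) (l 16775600)) (l 1071007887)))) (b (l 16773152) (a (b (a (l 16775168) (l 16774696)) (a (l 16775928) (l 16775456))) (b (l 16773928) (a (l 16775008) (l 16774520))))))) (b (b (l 16766648) (a (l 16769160) (l 16767104))) (a (b (l 16770904) (l 16772760)) (b (l 16768696) (l 16770448)))))), by decide +kernel⟩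

def k8_B08pp_123_s1 : ∃ t, chk3 f_B08pp_123_s1 t 19 11 1 = true :=
  ⟨(a (l 3) (b (a (b (a (l 1070848143) (b (a (l 1070942351) (b (a (l 16775776) (l 16775304)) (l 1070939279))) (l 1070850703))) (l 3)) (b (a (b (a (b (l 16774584) (a (l 16775608) (l 16775128))) (b (l 16773536) (l 16774384))) (a (l 1070887567) (b (a (l 16775416) (l 16774928)) (l 1070873743)))) (b (l 16772328) (a (b (l 16774176) (a (l 16775208) (l 16774720))) (b (l 16773112) (l 16773968))))) (a (b (l 1070807583) (l 3)) (b (a (l 1070834831) (b (a (l 16775000) (l 16774512)) (a (l 16775752) (l 16775264)))) (l 1070796431))))) (a (l 3) (b (a (l 3) (b (l 1070772367) (l 3))) (l 3))))), by decide +kernel⟩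

def k9_B08pp_123_s1 : ∃ t, chk3 f_B08pp_123_s1 t 5 4 1 = true :=
  ⟨(a (b (a (a (l 16691480) (a (l 16677296) (l 16670464))) (l 16731728)) (a (a (b (a (l 16738120) (l 16733480)) (b (l 16744976) (l 16749888))) (a (b (l 16729496) (l 16573760)) (b (l 16728800) (a (l 16739840) (a (l 16739608) (l 16740168)))))) (b (l 16710848) (l 16732040)))) (b (l 6) (l 16712936))), by decide +kernel⟩

def k10_B08pp_123_s1 : ∃ t, chk3 f_B08pp_123_s1 t 40 5 1 = true :=
  ⟨(b (b (b (l 16754400) (a (l 16760832) (l 16756440))) (a (b (l 16763728) (a (b (l 16766704) (l 16768280)) (l 16765648))) (b (l 16781136) (l 16763184)))) (b (a (b (a (b (l 16770024) (l 16771904)) (b (l 16767936) (l 16769664))) (a (b (a (b (l 16773760) (a (l 16774784) (l 16774304))) (l 16773136)) (a (b (a (l 16775520) (l 16775032)) (l 1070809231)) (b (l 16774328) (a (l 16775264) (l 16774792))))) (b (l 16771520) (a (l 16773744) (l 16772728))))) (b (a (l 16766896) (l 16765272))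 (a (b (l 16790280) (l 16771064)) (b (l 16767536) (l 16769104))))) (a (b (a (a (l 1070794783) (l 1071867535)) (b (a (b (a (l 16775000) (l 16774544)) (a (l 16775696) (l 16775184))) (b (l 16773904) (l 16779800))) (a (l 1070764175) (b (a (l 16775344) (l 16774952)) (l 1070761615))))) (a (l 3) (b (l 1072416399) (a (l 3) (l 1070818447))))) (b (a (b (l 16772760) (a (b (l 16774376) (a (l 16775176) (l 16774792))) (l 16773808))) (b (l 16770752) (l 16772344))) (a (b (a (b (a (l 16775816) (l 16775384)) (l 1070946447)) (b (l 16774800) (a (l 16775568) (l 16775160)))) (a (l 1070966415) (l 1071065231))) (b (a (b (l 16773928) (l 16774568)) (l 16773352)) (a (b (a (l 16775312) (l 16774928)) (a (l 16775864) (l 16775448))) (b (l 16774312) (l 16774880))))))))), by decide +kernel⟩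

def k11_B08pp_123_s1 : ∃ t, chk3 f_B08pp_123_s1 t 41 5 1 = true :=
  ⟨(b (a (b (l 16749864) (b (l 16756280) (a (l 16760800) (l 16759096)))) (a (b (l 16747568) (l 16755232)) (b (a (l 16747320) (l 16747808)) (a (l 16754112) (l 16837720))))) (a (b (b (a (l 16763728) (l 16762200)) (a (l 16766752) (l 16765224))) (b (a (b (l 16768984) (a (l 16770976) (l 16769952))) (l 16768120)) (a (b (l 16771912) (a (l 16773760) (l 16772720))) (b (a (l 16770336) (l 16769568)) (a (l 16771608) (l 16770680)))))) (b (a (b (l 16760656) (l 16763792)) (a (b (l 16759456) (l 16804232)) (a (a (a (l 16760440) (a (l 16760336) (l 16760216))) (l 16760096)) (l 16759792)))) (a (b (l 16766920) (a (b (l 16769136) (l 16770096)) (l 16769304))) (b (a (l 16765392) (a (a (a (l 16763928) (l 16804504)) (l 16761800)) (l 16761480))) (a (l 16810496) (a (a (a (l 16767264) (l 16807992)) (l 16765304)) (l 16764952)))))))), by decide +kernel⟩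

def k12_B08pp_123_s1 : ∃ t, chk3 f_B08pp_123_s1 t 21 5 1 = true :=
  ⟨(b (b (l 16825048) (l 16747616)) (b (a (l 16756528) (l 16750800)) (b (l 16838768) (l 16819792)))), by decide +kernel⟩

def k13_B08pp_123_s1 : ∃ t, chk3 f_B08pp_123_s1 t 11 5 1 = true :=
  ⟨(b (b (l 16814544) (a (l 16738824) (l 16732656))) (b (a (l 16743224) (l 16734152)) (a (l 16868408) (l 16730320)))), by decide +kernel⟩

def k14_B08pp_123_s1 : ∃ t, chk3 f_B08pp_123_s1 t 3 2 1 = true :=
  ⟨(a (b (l 6) (a (b (b (l 6) (l 16727136)) (b (l 16726224) (l 16720848))) (l 6))) (l 6)), by decide +kernel⟩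

def k15_B08pp_123_s1 : ∃ t, chk3 f_B08pp_123_s1 t 4 6 1 = true :=
  ⟨(l 3), by decide +kernel⟩

def k16_B08pp_123_s1 : ∃ t, chk3 f_B08pp_123_s1 t 40 6 1 = true :=
  ⟨(b (a (l 3) (b (a (b (b (a (l 1071026831) (l 1071140495)) (l 3)) (l 3)) (b (b (a (l 1071192207) (b (a (l 16775568) (l 16775184)) (a (l 16776072) (l 16775664)))) (a (l 1071303311) (l 1071314063))) (b (a (l 3) (l 1071459471)) (l 3)))) (l 3))) (l 3)), by decide +kernel⟩

def k17_B08pp_123_s1 : ∃ t, chk3 f_B08pp_123_s1 t 82 6 1 = true :=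
  ⟨(b (b (a (b (b (a (b (l 16774632) (a (l 16775280) (l 16774960))) (l 16773984)) (a (b (a (l 16775736) (l 16775400)) (a (l 16776216) (l 16775840))) (b (l 16774864) (a (l 16775536) (l 16775160))))) (a (b (l 1074656287) (b (l 1074783263) (l 1074773023))) (b (b (a (l 16775960) (l 16775632)) (a (l 16778984) (l 16776040))) (a (l 1071616655) (l 1071653007))))) (b (b (l 16777576) (a (l 16774088) (l 16773032))) (b (a (b (l 16774960) (a (l 16775696) (l 16775256))) (l 16774216)) (a (a (b (l 16776064) (l 16776376)) (b (l 16775704) (l 16776040))) (b (l 16774992) (l 16775400)))))) (a (b (a (l 3) (b (l 1071511583) (l 3))) (l 3)) (b (a (b (l 1071018127) (l 1071478415)) (b (a (b (l 16775984) (l 16776288)) (b (l 16775552) (l 16775904))) (a (l 1074149519) (l 1073558671)))) (a (b (b (l 1071401503) (l 3)) (l 3)) (b (a (b (l 1071413903) (l 1071372431)) (l 1071902751)) (a (l 3) (b (l 1071313039) (l 3)))))))) (l 3)), by decide +kernel⟩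

def k18_B08pp_123_s1 : ∃ t, chk3 f_B08pp_123_s1 t 83 12 1 = true :=
  ⟨(a (b (b (a (b (l 16771056) (l 16772136)) (b (l 16770752) (a (l 16771592) (l 16771464)))) (a (b (l 16773304) (l 16784744)) (b (l 16751560) (l 16773440)))) (b (a (b (b (l 16774848) (l 16775216)) (a (b (l 16770552) (l 16776104)) (l 16778120))) (b (l 16774176) (a (l 16775072) (l 16774648)))) (a (b (a (b (l 1071296143) (l 1073426575)) (b (l 16776000) (l 16781528))) (a (b (l 1071265311) (l 1071238175)) (b (l 1071196303) (l 1071174287)))) (b (a (b (l 16775536) (l 16775848)) (l 16775256)) (a (b (a (l 16776248) (l 16776024)) (l 1071073935)) (b (l 16775664) (a (l 16776072) (l 16775816)))))))) (b (b (a (a (l 16729304) (l 16771032)) (a (a (a (l 16770352) (a (l 16769736) (l 16768960))) (l 16768560)) (l 16768224))) (a (a (b (l 16772288) (l 16772920)) (b (l 16772552) (l 16772968))) (a (a (a (l 16772736) (a (l 16772392) (l 16792752))) (l 16771328)) (l 16771016))))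 (b (a (a (b (l 16773600) (l 16774264)) (b (l 16773368) (l 16773936))) (a (a (a (b (l 16773384) (l 16773760)) (a (b (l 16773536) (l 16752840)) (a (a (l 16773760) (b (l 16773328) (l 16773976))) (l 16773680)))) (l 16773584)) (l 16773312))) (a (a (b (l 16774856) (b (l 16775256) (l 16775496))) (b (a (l 16774600) (l 16774456)) (b (l 16774944) (l 16785680)))) (a (a (a (b (l 16774344) (l 16774880)) (a (b (l 16774288) (l 16774832)) (a (a (l 16774544) (b (l 16774272) (l 16774800))) (l 16774528)))) (l 16774432)) (l 16774176)))))), by decide +kernel⟩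

def k19_B08pp_123_s1 : ∃ t, chk3 f_B08pp_123_s1 t 166 13 1 = true :=
  ⟨(b (a (b (b (a (b (l 1072821279) (l 3)) (l 1072767519)) (l 3)) (l 3)) (b (b (a (b (l 1071070351) (l 1071063183)) (b (a (l 16776344) (l 16776096)) (l 1070950431))) (a (b (l 1071051407) (l 1071032975)) (b (l 1070957599) (l 1070960159)))) (b (a (l 3) (b (a (l 1070971535) (l 1070916239)) (a (l 3) (l 1070910095)))) (l 3)))) (l 3)), by decide +kernel⟩

def k20_B08pp_123_s1 : ∃ t, chk3 f_B08pp_123_s1 t 334 13 1 = true :=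
  ⟨(b (a (b (b (a (b (l 16775832) (l 16776104)) (b (l 16775624) (l 16775832))) (b (a (l 16776368) (l 16776088)) (a (l 1070790799) (l 16776344)))) (b (a (b (l 1070816911) (l 1070835343)) (b (l 1070673951) (l 1070720543))) (b (a (l 1070839951) (l 1070755871)) (a (l 1070822543) (l 1072920607))))) (b (b (a (l 16775592) (l 16775464)) (a (b (l 16775880) (l 16776096)) (b (l 16775776) (l 16775952)))) (a (b (b (l 16776328) (l 1070603519)) (l 1070670079)) (b (a (b (l 16776152) (l 16776368)) (b (l 16776088) (l 16776248))) (b (a (l 16776584) (l 16776432)) (l 1070491903)))))) (a (b (b (b (a (l 3) (b (l 1070766623) (l 3))) (l 3)) (l 3)) (l 3)) (a (b (b (b (l 1070721279) (l 1070661887)) (l 1070646015)) (l 3)) (b (b (b (l 1070462719) (l 1070457087)) (b (l 1070450943) (l 1070451967))) (b (b (a (l 3) (l 1070396159)) (l 3)) (l 3)))))), by decide +kernel⟩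

def k21_B08pp_123_s1 : ∃ t, chk3 f_B08pp_123_s1 t 2680 13 1 = true :=
  ⟨(b (b (b (l 16775360) (l 16775784)) (b (b (l 16776048) (l 16776200)) (b (b (l 16776288) (l 16776360)) (b (l 16779056) (l 16776520))))) (b (b (b (l 1070175999) (l 1070155519)) (b (l 1070136063) (l 1070127359))) (b (b (l 1070134015) (l 1070161151)) (l 3)))), by decide +kernel⟩

def k22_B08pp_123_s1 : ∃ t, chk3 f_B08pp_123_s1 t 5362 13 1 = true :=
  ⟨(b (b (b (l 16775320) (l 16775736)) (b (l 16781344) (b (l 16776320) (a (l 16776408) (l 16776424))))) (b (b (b (a (l 16776536) (b (l 16776480) (l 16776528))) (a (l 16776696) (l 16776640))) (b (a (l 16776840) (l 1069731071)) (b (l 1069783807) (l 1069769983)))) (b (b (l 1069719807) (a (l 1069899519) (l 1069649663))) (b (b (l 1069798655) (l 1069840639)) (b (a (l 3) (l 1069829887)) (l 3)))))), by decide +kernel⟩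

def k23_B08pp_123_s1 : ∃ t, chk3 f_B08pp_123_s1 t 5363 13 1 = true :=
  ⟨(a (a (a (b (b (b (l 16775304) (l 16775720)) (b (l 16776088) (b (l 16776320) (l 16776440)))) (b (b (b (l 16776520) (l 16776600)) (b (l 16776752) (l 1069525247))) (b (b (l 1069471999) (b (l 1069487871) (l 1069487359))) (b (b (l 1069501695) (l 1069535999)) (b (l 1069601535) (b (l 1069696767) (l 3))))))) (b (b (b (l 16775296) (l 16775720)) (b (l 16770840) (l 16776376))) (b (b (b (l 16776544) (b (l 16776576) (l 16776624))) (b (l 16776728) (b (l 16776840) (l 16776904)))) (b (b (b (l 16776960) (l 1069338367)) (b (l 1069312255) (l 1069294335))) (b (b (l 1069287167) (a (l 1069409023) (l 1069256447))) (b (b (l 1069373695) (l 1069410559)) (a (b (l 1069564159) (l 1069641983)) (b (l 1069408511) (l 1069483775))))))))) (b (b (b (l 16775296) (l 16775712)) (b (b (l 16775992) (l 16776160)) (b (l 16776320) (l 16773832)))) (a (b (b (b (b (l 16776544) (l 16776592))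 (b (l 16776616) (l 68455219999))) (b (b (l 68438441247) (l 16776736)) (b (l 16776808) (l 16776880)))) (b (b (b (l 16776936) (l 16776992)) (b (l 16777040) (l 18378059712336738015))) (b (b (l 18375807912523052767) (l 18375807775075710175)) (b (l 18373555975262024927) (b (l 18373555837814682335) (b (l 18373555837814682335) (l 18373555837814682335))))))) (b (b (b (l 16776576) (l 16776640)) (b (l 16776688) (l 16776832))) (b (b (l 18378059849784081119) (l 18378059712336738527)) (b (l 18375807775075710687) (b (l 18373555837823071455) (l 18373555837814682335)))))))) (b (b (b (l 16775272) (l 16775696)) (b (l 16776056) (b (l 16776304) (l 16776440)))) (b (b (b (l 16776552) (l 16776624)) (b (l 16776664) (l 16776800))) (b (b (l 18378059849784081119) (l 18378059712336738527)) (b (l 18375807775075710687) (b (l 18373555837823071455) (l 18373555837814682335))))))), by decide +kernel⟩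

def k24_B08pp_123_s1 : ∃ t, chk3 f_B08pp_123_s1 t 1341 13 1 = true :=
  ⟨(a (a (b (b (b (l 16775240) (l 16775656)) (b (l 16776024) (l 68572665119))) (b (b (b (l 16776504) (l 16776568)) (l 68430052127)) (b (l 18378059712345127135) (b (l 18375807775075710687) (l 18373555837814682847))))) (a (b (b (b (l 16775200) (l 16775616)) (b (l 16775984) (b (l 16776216) (l 16776352)))) (b (b (b (l 16776456) (l 16776512)) (b (l 16776544) (l 16776680))) (b (b (l 16776800) (l 18378059712336738527)) (b (l 18375807775075710687) (l 18373555837814682847))))) (a (b (b (b (l 16775184) (l 16775600)) (b (l 16775960) (b (l 16776200) (l 16776328)))) (b (b (b (l 16776432) (l 16776480)) (b (l 16776520) (l 16776648))) (b (b (l 16776768) (b (l 16776840) (l 16776888))) (b (b (l 16776920) (l 16776952)) (b (l 16776976) (l 16776992)))))) (b (b (b (l 16775168) (l 16775584)) (b (l 16775944) (b (l 16776184) (l 16776312)))) (b (b (b (l 16776416) (l 16776464))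 (b (l 16776496) (l 16776632))) (b (b (l 16776744) (l 16776840)) (b (b (l 16776896) (l 16776928)) (b (l 16776952) (l 16776968))))))))) (b (b (b (l 16775112) (l 16775528)) (b (l 16775888) (b (l 16776120) (l 16776248)))) (b (b (b (l 16776344) (l 16776384)) (b (l 16776416) (l 16776544))) (b (b (l 16776656) (l 16776752)) (b (b (l 16776808) (l 16776832)) (b (l 16776856) (l 16776864))))))), by decide +kernel⟩

def k25_B08pp_123_s1 : ∃ t, chk3 f_B08pp_123_s1 t 671 13 1 = true :=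
  ⟨(b (b (b (l 16774872) (l 16775272)) (b (l 16775616) (l 16781128))) (b (b (b (l 16776016) (l 16776048)) (b (l 16776056) (l 16776168))) (b (b (l 16776272) (l 16776344)) (b (l 16776392) (l 16776416))))), by decide +kernel⟩

def k26_B08pp_123_s1 : ∃ t, chk3 f_B08pp_123_s1 t 21 6 1 = true :=
  ⟨(b (b (a (b (l 16764336) (l 16767352)) (l 16800184)) (a (a (b (l 16771648) (a (l 16778552) (l 16771912))) (b (l 16768576) (l 16769824))) (b (l 16763768) (l 16765624)))) (b (a (a (b (b (l 16773128) (l 16773424)) (b (l 16773640) (l 16773720))) (b (l 16770112) (l 16770000))) (b (l 16765440) (l 16764792))) (b (a (a (b (a (l 16774712) (l 16772616)) (b (l 16778776) (l 16773496))) (l 16790280)) (l 16763240)) (a (a (b (b (l 16773488) (l 16773448)) (b (l 16773376) (l 16773272))) (l 16768272)) (l 16760920))))), by decide +kernel⟩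

def k27_B08pp_123_s1 : ∃ t, chk3 f_B08pp_123_s1 t 11 6 1 = true :=
  ⟨(b (a (b (l 16850904) (a (l 16758840) (l 16752336))) (b (l 16728968) (l 16742144))) (a (b (a (l 16759120) (l 16648480)) (b (l 16752152) (l 16747192))) (b (l 16829768) (l 16819328)))), by decide +kernel⟩

def k28_B08pp_123_s1 : ∃ t, chk3 f_B08pp_123_s1 t 3 6 1 = true :=
  ⟨(a (b (b (a (a (l 16626792) (l 16715160)) (l 16725552)) (a (a (l 16728456) (l 16723512)) (a (l 16724416) (l 6)))) (a (a (b (l 16821024) (l 16723880)) (b (l 16730336) (l 16714720))) (b (l 16725920) (l 1)))) (l 6)), by decide +kernel⟩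

def k29_B08pp_123_s1 : ∃ t, chk3 f_B08pp_123_s1 t 4 7 1 = true :=
  ⟨(b (l 3) (l 3)), by decide +kernel⟩

def k30_B08pp_123_s1 : ∃ t, chk3 f_B08pp_123_s1 t 40 7 1 = true :=
  ⟨(b (l 3) (b (l 3) (l 1))), by decide +kernel⟩

def k31_B08pp_123_s1 : ∃ t, chk3 f_B08pp_123_s1 t 82 14 1 = true :=
  ⟨(l 3), by decide +kernel⟩

def k32_B08pp_123_s1 : ∃ t, chk3 f_B08pp_123_s1 t 166 14 1 = true :=
  ⟨(b (l 3) (a (b (l 3) (b (l 3) (l 1))) (b (b (l 3) (a (l 3) (b (l 3) (a (l 3) (l 1063083135))))) (b (a (b (l 3) (l 1063012879)) (b (a (l 1063150207) (l 1063606399)) (a (l 1063593599) (l 1064046719)))) (l 1))))), by decide +kernel⟩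

def k33_B08pp_123_s1 : ∃ t, chk3 f_B08pp_123_s1 t 334 14 1 = true :=
  ⟨(b (b (l 3) (a (l 3) (a (b (l 3) (l 1063409391)) (b (b (l 3) (a (l 3) (l 1064802543))) (b (l 1064584431) (l 1064602351)))))) (b (a (a (b (l 3) (b (l 1065191551) (l 1063662719))) (b (b (a (l 3) (l 1065836671)) (a (l 1062751871) (l 1064967695))) (b (a (l 1063477887) (l 1063858815)) (l 1066941455)))) (b (a (l 1063602927) (b (l 1064581359) (l 1064784111))) (a (b (l 1063973103) (l 1064713967)) (b (l 1064906479) (a (l 16775160) (b (l 16775064) (l 16774800))))))) (b (a (b (a (l 1064178815) (a (l 1064606335) (l 16775432))) (a (l 1064608383) (l 1))) (b (a (l 1065194735) (a (l 16774648) (l 16774264))) (l 1))) (l 1)))), by decide +kernel⟩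

def k34_B08pp_123_s1 : ∃ t, chk3 f_B08pp_123_s1 t 2680 14 1 = true :=
  ⟨(b (b (b (l 3) (b (l 3) (l 1065465583))) (b (b (l 1065631983) (b (l 1065656047) (l 1065671919))) (b (l 1065693935) (l 1065643247)))) (b (b (b (l 1065557743) (a (l 16775696) (a (l 16775632) (l 16775600)))) (b (a (l 16775248) (b (l 16775256) (l 16774920))) (b (l 16774672) (l 16774248)))) (b (b (l 16773608) (l 1)) (l 1)))), by decide +kernel⟩

def k35_B08pp_123_s1 : ∃ t, chk3 f_B08pp_123_s1 t 5362 14 1 = true :=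
  ⟨(b (b (b (l 3) (b (b (a (l 3) (l 1066382063)) (l 1066375407)) (b (l 1066480879) (l 1066542319)))) (b (b (a (l 1066301167) (l 1066793711)) (b (l 1066567919) (l 1066542319))) (b (b (l 1066504943) (l 1066458351)) (a (l 16776328) (l 1066526447))))) (b (b (b (a (l 16775976) (b (l 16776056) (l 16775840))) (a (l 16778144) (b (l 16775544) (l 16775160)))) (b (b (l 16774864) (l 16774448)) (l 16773816))) (b (b (l 16772984) (l 1)) (l 1)))), by decide +kernel⟩

def k36_B08pp_123_s1 : ∃ t, chk3 f_B08pp_123_s1 t 5363 14 1 = true :=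
  ⟨(a (a (b (b (b (b (b (a (l 3) (a (l 3) (b (l 1069592319) (l 3)))) (l 3)) (b (a (l 3) (a (l 3) (b (l 3) (l 1066846959)))) (a (b (l 3) (l 1066657519)) (a (b (l 1066759919) (l 1066918639)) (b (b (l 1066990319) (l 1067076847)) (l 1067195119)))))) (a (b (b (l 1066858735) (l 1066988271)) (b (l 1067053295) (l 1067077871))) (b (b (b (a (l 1067029743) (l 1067284719)) (l 1067261167)) (b (l 1067303151) (l 1067329775))) (b (a (l 1067249391) (l 1067458799)) (l 1067388655))))) (b (b (b (l 1067283695) (l 1067241199)) (b (l 1067187951) (l 1067125999))) (b (b (l 1067056879) (l 16776512)) (b (l 16776376) (l 16776216))))) (b (b (b (b (l 16776000) (l 16775680)) (l 16775080)) (b (l 16774248) (l 16773424))) (b (b (l 16772608) (l 1)) (l 1)))) (b (b (b (b (b (l 18371304038000997055) (l 1321195701041879529509134136955092271)) (a (b (l 18335273454208527023) (b (b (l 18333021654386453199) (l 18333021654386453199)) (l 18333021516947499727)))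 (b (l 1068908607) (l 18333021654386453199)))) (b (b (l 18330769717133813967) (l 18328517779872786127)) (b (l 18328517642425444047) (l 18326265842603369679)))) (b (b (b (l 18324013905350730447) (l 16776920)) (b (l 16776840) (l 16776744))) (b (b (l 16776640) (l 16776520)) (b (l 68304214799) (l 68270658319))))) (b (b (b (b (l 16778472) (l 16775472)) (b (l 16775072) (l 16774656))) (b (l 16776664) (l 16773232))) (b (b (l 16767200) (l 1)) (l 1))))) (b (b (b (b (l 1068480047) (b (l 1068361263) (l 18333021654386453199))) (b (l 18330769717125425359) (l 18328517642425443535))) (b (b (l 18324013905350730447) (l 18321761830642360527)) (b (l 16776544) (l 68270658831)))) (b (b (b (l 16775528) (l 16774736)) (b (l 16773912) (l 16773112))) (b (b (l 16772328) (l 1)) (l 1))))), by decide +kernel⟩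

def k37_B08pp_123_s1 : ∃ t, chk3 f_B08pp_123_s1 t 1341 14 1 = true :=
  ⟨(a (a (b (b (b (b (l 1068480559) (b (l 1068361775) (l 18333021654386453199))) (b (l 18330769717125425359) (l 18328517642425443535))) (b (l 18321761968089702607) (b (l 16776464) (l 16776128)))) (b (b (b (l 16775448) (l 16774648)) (b (l 16773824) (l 16773024))) (b (l 67977039631) (l 1)))) (a (a (b (b (b (b (l 1068481071) (l 18335273454208527055)) (l 18328517779872786127)) (b (l 18321761968089702607) (b (l 16776392) (l 16776056)))) (b (b (b (l 16775376) (l 16774576)) (l 68027372303)) (b (l 16771744) (l 1)))) (b (b (b (b (l 1068481071) (l 18335273454208527055)) (b (l 18330769717125425359) (l 18328517642425443535))) (b (b (l 18324013905350730447) (l 16776584)) (b (l 16776368) (l 16776032)))) (b (b (b (l 16775352) (l 16774552)) (b (l 16773720) (l 16772912))) (b (l 16771712) (l 1))))) (a (b (b (b (b (b (l 16777000) (l 16777000)) (b (l 16776992) (l 16776976)))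 (b (b (l 16776952) (l 16776920)) (b (l 16776880) (l 16776824)))) (b (b (b (l 16776760) (l 16776688)) (l 16776560)) (b (l 16776336) (l 16776000)))) (b (b (b (l 16775320) (l 16774520)) (b (l 16773696) (l 16772880))) (b (l 16771672) (l 1)))) (b (b (b (b (b (l 16776976) (l 16776976)) (b (l 16776968) (l 16776952))) (b (b (l 16776928) (l 16776896)) (b (l 16776856) (l 16776800)))) (b (b (l 16776696) (l 16776528)) (b (l 16776312) (l 16775976)))) (b (b (b (l 16775288) (l 16774488)) (b (l 16773664) (l 16772848))) (b (l 16771640) (l 1))))))) (b (b (b (b (l 1068494943) (b (l 16776864) (l 16776840))) (b (b (l 16776816) (l 16776784)) (b (l 16776736) (l 16776680)))) (b (b (l 16776576) (l 16776400)) (b (l 16776176) (l 16775832)))) (b (b (b (l 16775144) (l 16774344)) (b (l 16773512) (l 16772688))) (b (l 16771472) (l 1))))), by decide +kernel⟩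

def k38_B08pp_123_s1 : ∃ t, chk3 f_B08pp_123_s1 t 671 14 1 = true :=
  ⟨(b (b (b (b (a (l 16776592) (l 16776224)) (a (l 16776560) (l 16776176))) (b (a (l 16776496) (l 16776096)) (l 16776184))) (b (b (l 16776032) (l 16775832)) (b (l 16775576) (l 16775216)))) (b (b (b (l 16774512) (l 16773688)) (b (l 16772840) (l 16771984))) (b (l 16770712) (l 1)))), by decide +kernel⟩

def k39_B08pp_123_s1 : ∃ t, chk3 f_B08pp_123_s1 t 41 15 1 = true :=
  ⟨(l 1), by decide +kernel⟩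

def k40_B08pp_123_s1 : ∃ t, chk3 f_B08pp_123_s1 t 21 7 1 = true :=
  ⟨(b (a (b (b (b (a (b (l 16773128) (l 16772944)) (l 16767192)) (a (b (l 16772712) (l 16772440)) (l 16766184))) (a (b (b (l 16772112) (l 16771736)) (b (l 16776544) (l 16776000))) (l 16779864))) (a (a (b (b (a (l 16777800) (l 16770496)) (a (l 16770744) (l 16768512))) (b (l 16767688) (l 1))) (b (b (l 16767416) (l 16765184)) (l 1))) (b (a (l 16772568) (l 16757904)) (l 1)))) (b (b (l 16757696) (l 16753504)) (b (a (l 16751712) (l 16743600)) (l 1)))) (l 1)), by decide +kernel⟩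

def k41_B08pp_123_s1 : ∃ t, chk3 f_B08pp_123_s1 t 11 7 1 = true :=
  ⟨(b (b (a (a (a (l 16830160) (l 16740288)) (l 16815512)) (a (l 16720632) (l 16710632))) (l 1)) (l 1)), by decide +kernel⟩

def k42_B08pp_123_s1 : ∃ t, chk3 f_B08pp_123_s1 t 3 7 1 = true :=
  ⟨(l 1), by decide +kernel⟩

theorem t43_B08pp_123_s1 : ∃ t, chk3 f_B08pp_123_s1 t 2681 14 1 = true := ex3_a k35_B08pp_123_s1 k36_B08pp_123_s1

theorem t44_B08pp_123_s1 : ∃ t, chk3 f_B08pp_123_s1 t 1340 14 1 = true := ex3_a k34_B08pp_123_s1 t43_B08pp_123_s1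

theorem t45_B08pp_123_s1 : ∃ t, chk3 f_B08pp_123_s1 t 670 14 1 = true := ex3_a t44_B08pp_123_s1 k37_B08pp_123_s1

theorem t46_B08pp_123_s1 : ∃ t, chk3 f_B08pp_123_s1 t 335 14 1 = true := ex3_a t45_B08pp_123_s1 k38_B08pp_123_s1

theorem t47_B08pp_123_s1 : ∃ t, chk3 f_B08pp_123_s1 t 167 14 1 = true := ex3_a k33_B08pp_123_s1 t46_B08pp_123_s1

theorem t48_B08pp_123_s1 : ∃ t, chk3 f_B08pp_123_s1 t 83 14 1 = true := ex3_a k32_B08pp_123_s1 t47_B08pp_123_s1

theorem t49_B08pp_123_s1 : ∃ t, chk3 f_B08pp_123_s1 t 41 14 1 = true := ex3_a k31_B08pp_123_s1 t48_B08pp_123_s1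

theorem t50_B08pp_123_s1 : ∃ t, chk3 f_B08pp_123_s1 t 41 7 1 = true := ex3_b t49_B08pp_123_s1 k39_B08pp_123_s1

theorem t51_B08pp_123_s1 : ∃ t, chk3 f_B08pp_123_s1 t 20 7 1 = true := ex3_a k30_B08pp_123_s1 t50_B08pp_123_s1

theorem t52_B08pp_123_s1 : ∃ t, chk3 f_B08pp_123_s1 t 10 7 1 = true := ex3_a t51_B08pp_123_s1 k40_B08pp_123_s1

theorem t53_B08pp_123_s1 : ∃ t, chk3 f_B08pp_123_s1 t 5 7 1 = true := ex3_a t52_B08pp_123_s1 k41_B08pp_123_s1

theorem t54_B08pp_123_s1 : ∃ t, chk3 f_B08pp_123_s1 t 2 7 1 = true := ex3_a k29_B08pp_123_s1 t53_B08pp_123_s1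

theorem t55_B08pp_123_s1 : ∃ t, chk3 f_B08pp_123_s1 t 1 7 1 = true := ex3_a t54_B08pp_123_s1 k42_B08pp_123_s1

theorem t56_B08pp_123_s1 : ∃ t, chk3 f_B08pp_123_s1 t 2681 13 1 = true := ex3_a k22_B08pp_123_s1 k23_B08pp_123_s1

theorem t57_B08pp_123_s1 : ∃ t, chk3 f_B08pp_123_s1 t 1340 13 1 = true := ex3_a k21_B08pp_123_s1 t56_B08pp_123_s1

theorem t58_B08pp_123_s1 : ∃ t, chk3 f_B08pp_123_s1 t 670 13 1 = true := ex3_a t57_B08pp_123_s1 k24_B08pp_123_s1

theorem t59_B08pp_123_s1 : ∃ t, chk3 f_B08pp_123_s1 t 335 13 1 = true := ex3_a t58_B08pp_123_s1 k25_B08pp_123_s1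

theorem t60_B08pp_123_s1 : ∃ t, chk3 f_B08pp_123_s1 t 167 13 1 = true := ex3_a k20_B08pp_123_s1 t59_B08pp_123_s1

theorem t61_B08pp_123_s1 : ∃ t, chk3 f_B08pp_123_s1 t 83 13 1 = true := ex3_a k19_B08pp_123_s1 t60_B08pp_123_s1

theorem t62_B08pp_123_s1 : ∃ t, chk3 f_B08pp_123_s1 t 83 6 1 = true := ex3_b k18_B08pp_123_s1 t61_B08pp_123_s1

theorem t63_B08pp_123_s1 : ∃ t, chk3 f_B08pp_123_s1 t 41 6 1 = true := ex3_a k17_B08pp_123_s1 t62_B08pp_123_s1

theorem t64_B08pp_123_s1 : ∃ t, chk3 f_B08pp_123_s1 t 20 6 1 = true := ex3_a k16_B08pp_123_s1 t63_B08pp_123_s1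

theorem t65_B08pp_123_s1 : ∃ t, chk3 f_B08pp_123_s1 t 10 6 1 = true := ex3_a t64_B08pp_123_s1 k26_B08pp_123_s1

theorem t66_B08pp_123_s1 : ∃ t, chk3 f_B08pp_123_s1 t 5 6 1 = true := ex3_a t65_B08pp_123_s1 k27_B08pp_123_s1

theorem t67_B08pp_123_s1 : ∃ t, chk3 f_B08pp_123_s1 t 2 6 1 = true := ex3_a k15_B08pp_123_s1 t66_B08pp_123_s1

theorem t68_B08pp_123_s1 : ∃ t, chk3 f_B08pp_123_s1 t 1 6 1 = true := ex3_a t67_B08pp_123_s1 k28_B08pp_123_s1

theorem t69_B08pp_123_s1 : ∃ t, chk3 f_B08pp_123_s1 t 1 3 1 = true := ex3_b t68_B08pp_123_s1 t55_B08pp_123_s1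

theorem t70_B08pp_123_s1 : ∃ t, chk3 f_B08pp_123_s1 t 20 5 1 = true := ex3_a k10_B08pp_123_s1 k11_B08pp_123_s1

theorem t71_B08pp_123_s1 : ∃ t, chk3 f_B08pp_123_s1 t 10 5 1 = true := ex3_a t70_B08pp_123_s1 k12_B08pp_123_s1

theorem t72_B08pp_123_s1 : ∃ t, chk3 f_B08pp_123_s1 t 5 5 1 = true := ex3_a t71_B08pp_123_s1 k13_B08pp_123_s1

theorem t73_B08pp_123_s1 : ∃ t, chk3 f_B08pp_123_s1 t 5 2 1 = true := ex3_b k9_B08pp_123_s1 t72_B08pp_123_s1

theorem t74_B08pp_123_s1 : ∃ t, chk3 f_B08pp_123_s1 t 19 10 1 = true := ex3_a k6_B08pp_123_s1 k7_B08pp_123_s1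

theorem t75_B08pp_123_s1 : ∃ t, chk3 f_B08pp_123_s1 t 19 5 1 = true := ex3_b t74_B08pp_123_s1 k8_B08pp_123_s1

theorem t76_B08pp_123_s1 : ∃ t, chk3 f_B08pp_123_s1 t 9 5 1 = true := ex3_a k5_B08pp_123_s1 t75_B08pp_123_s1

theorem t77_B08pp_123_s1 : ∃ t, chk3 f_B08pp_123_s1 t 18 9 1 = true := ex3_b k2_B08pp_123_s1 k3_B08pp_123_s1

theorem t78_B08pp_123_s1 : ∃ t, chk3 f_B08pp_123_s1 t 18 4 1 = true := ex3_b k1_B08pp_123_s1 t77_B08pp_123_s1

theorem t79_B08pp_123_s1 : ∃ t, chk3 f_B08pp_123_s1 t 9 4 1 = true := ex3_a t78_B08pp_123_s1 k4_B08pp_123_s1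

theorem t80_B08pp_123_s1 : ∃ t, chk3 f_B08pp_123_s1 t 9 2 1 = true := ex3_b t79_B08pp_123_s1 t76_B08pp_123_s1

theorem t81_B08pp_123_s1 : ∃ t, chk3 f_B08pp_123_s1 t 4 2 1 = true := ex3_a k0_B08pp_123_s1 t80_B08pp_123_s1

theorem t82_B08pp_123_s1 : ∃ t, chk3 f_B08pp_123_s1 t 2 2 1 = true := ex3_a t81_B08pp_123_s1 t73_B08pp_123_s1

theorem t83_B08pp_123_s1 : ∃ t, chk3 f_B08pp_123_s1 t 1 2 1 = true := ex3_a t82_B08pp_123_s1 k14_B08pp_123_s1

theorem t84_B08pp_123_s1 : ∃ t, chk3 f_B08pp_123_s1 t 1 1 1 = true := ex3_b t83_B08pp_123_s1 t69_B08pp_123_s1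

theorem c_B08pp_123_s1 : CertF 536870912 536870912 0 1230186008 649613803 48318383 false true true .npn 1 2 3
    ndB0q1 ndB8q3 pcB2 cut_B08pp_123_s1 xt_B08pp_123_s1 :=
  certF2 (fam := false) (s1 := true) (s2 := true) (a := 1) (b := 2) (c := 3) (cn := .npn) (n1 := ndB0q1) (n2 := ndB8q3) (pc := pcB2) (cut := cut_B08pp_123_s1) (xt := xt_B08pp_123_s1) (P1 := 536870912) (W1 := 536870912) (P2 := 0) (W2 := 1230186008) (P3 := 649613803) (W3 := 48318383)
    rfl (fun _ => rfl) t84_B08pp_123_s1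

theorem s_B08pp_123_s1 {κ x : ℝ} (hκ : κ * h0 = ken x) (hx : ((649613803 : ℕ) : ℝ) / S ≤ x)
    (hx' : x ≤ (((649613803 : ℕ) : ℝ) + (48318383 : ℕ)) / S)
    (H : CutB (VFD κ) PP tK tL pcB (Cut.of [[⟨0, 1, 0, 67108864⟩, ⟨1, 1, 0, 67108864⟩, ⟨2, 2, 0, 16777216⟩]]) 1 2 3 0 8 (sgb true) (sgb true) x) :
    AltB (VFD κ) PP tK tL pcB [⟨3, 0, 0, 1449551462⟩] 1 2 3 0 8 (sgb true) (sgb true) x :=
  strip_altBD (m := 1449551462) true rfl hκ (SH.κ0 hκ (SH.hx1 hx).le (SH.hx2 hx').le) (SH.hx1 hx).le (SH.hx2 hx') (covB01).cov (covB83).cov hx hx' c_B08pp_123_s1 H ((okx6 hx hx').extB (T := tt) (okx hx hx') (sideB hx hx') hκ rfl rfl (.O 1 true) (.N 3 true) rfl)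

noncomputable def cut_B08pp_133_s1 : Cut := Cut.of [[⟨4, 0, 0, 1449551462⟩]]

noncomputable def f_B08pp_133_s1 : ℕ → ℕ → ℕ → ℕ → Bool := onCell 1610612736 536870912 0 1230186008 649613803 48318383
    (rowF 2 false true true .dn 1 3 3 (qsf 536870912 536870912 0 1230186008 3) ndB0q1 ndB8q3 pcB3 cut_B08pp_133_s1 Ext.none)

def k0_B08pp_133_s1 : ∃ t, chk3 f_B08pp_133_s1 t 1 1 1 = true :=
  ⟨(b (l 6) (l 1)), by decide +kernel⟩

theorem c_B08pp_133_s1 : CertF 536870912 536870912 0 1230186008 649613803 48318383 false true true .dn 1 3 3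
    ndB0q1 ndB8q3 pcB3 cut_B08pp_133_s1 Ext.none :=
  certF2 (fam := false) (s1 := true) (s2 := true) (a := 1) (b := 3) (c := 3) (cn := .dn) (n1 := ndB0q1) (n2 := ndB8q3) (pc := pcB3) (cut := cut_B08pp_133_s1) (xt := Ext.none) (P1 := 536870912) (W1 := 536870912) (P2 := 0) (W2 := 1230186008) (P3 := 649613803) (W3 := 48318383)
    rfl (fun _ => rfl) k0_B08pp_133_s1

theorem s_B08pp_133_s1 {κ x : ℝ} (hκ : κ * h0 = ken x) (hx : ((649613803 : ℕ) : ℝ) / S ≤ x)
    (hx' : x ≤ (((649613803 : ℕ) : ℝ) + (48318383 : ℕ)) / S) :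
    AltB (VFD κ) PP tK tL pcB [⟨3, 0, 0, 1449551462⟩] 1 3 3 0 8 (sgb true) (sgb true) x :=
  strip_altBD (m := 1449551462) true rfl hκ (SH.κ0 hκ (SH.hx1 hx).le (SH.hx2 hx').le) (SH.hx1 hx).le (SH.hx2 hx') (covB01).cov (covB83).cov hx hx' c_B08pp_133_s1 cutB_nil (noExt_B)

noncomputable def cut_B08pp_202_s1 : Cut := Cut.of [[⟨4, 0, 0, 1449551462⟩]]

noncomputable def f_B08pp_202_s1 : ℕ → ℕ → ℕ → ℕ → Bool := onCell 0 536870912 1073741824 536870912 649613803 48318383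
    (rowF 0 false true true .pp 2 0 2 (qsf 0 536870912 1073741824 536870912 0) ndB0q2 ndB8q2 pcB0 cut_B08pp_202_s1 Ext.none)

def k0_B08pp_202_s1 : ∃ t, chk3 f_B08pp_202_s1 t 1 1 1 = true :=
  ⟨(l 5), by decide +kernel⟩

theorem c_B08pp_202_s1 : CertF 0 536870912 1073741824 536870912 649613803 48318383 false true true .pp 2 0 2
    ndB0q2 ndB8q2 pcB0 cut_B08pp_202_s1 Ext.none :=
  certF0 (fam := false) (s1 := true) (s2 := true) (a := 2) (b := 0) (c := 2) (cn := .pp) (n1 := ndB0q2) (n2 := ndB8q2) (pc := pcB0) (cut := cut_B08pp_202_s1) (xt := Ext.none) (P1 := 0) (W1 := 536870912) (P2 := 1073741824) (W2 := 536870912) (P3 := 649613803) (W3 := 48318383)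
    rfl k0_B08pp_202_s1

theorem s_B08pp_202_s1 {κ x : ℝ} (hκ : κ * h0 = ken x) (hx : ((649613803 : ℕ) : ℝ) / S ≤ x)
    (hx' : x ≤ (((649613803 : ℕ) : ℝ) + (48318383 : ℕ)) / S) :
    AltB (VFD κ) PP tK tL pcB [⟨3, 0, 0, 1449551462⟩] 2 0 2 0 8 (sgb true) (sgb true) x :=
  strip_altBD (m := 1449551462) true rfl hκ (SH.κ0 hκ (SH.hx1 hx).le (SH.hx2 hx').le) (SH.hx1 hx).le (SH.hx2 hx') (covB02).cov (covB82).cov hx hx' c_B08pp_202_s1 cutB_nil (noExt_B)

noncomputable def cut_B08pp_203_s1 : Cut := Cut.of [[⟨4, 0, 0, 1449551462⟩]]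

noncomputable def f_B08pp_203_s1 : ℕ → ℕ → ℕ → ℕ → Bool := onCell 0 536870912 0 1230186008 649613803 48318383
    (rowF 0 false true true .up 2 0 3 (qsf 0 536870912 0 1230186008 0) ndB0q2 ndB8q3 pcB0 cut_B08pp_203_s1 Ext.none)

def k0_B08pp_203_s1 : ∃ t, chk3 f_B08pp_203_s1 t 1 1 1 = true :=
  ⟨(b (l 2) (b (l 2) (a (l 5) (l 3)))), by decide +kernel⟩

theorem c_B08pp_203_s1 : CertF 0 536870912 0 1230186008 649613803 48318383 false true true .up 2 0 3
    ndB0q2 ndB8q3 pcB0 cut_B08pp_203_s1 Ext.none :=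
  certF0 (fam := false) (s1 := true) (s2 := true) (a := 2) (b := 0) (c := 3) (cn := .up) (n1 := ndB0q2) (n2 := ndB8q3) (pc := pcB0) (cut := cut_B08pp_203_s1) (xt := Ext.none) (P1 := 0) (W1 := 536870912) (P2 := 0) (W2 := 1230186008) (P3 := 649613803) (W3 := 48318383)
    rfl k0_B08pp_203_s1

theorem s_B08pp_203_s1 {κ x : ℝ} (hκ : κ * h0 = ken x) (hx : ((649613803 : ℕ) : ℝ) / S ≤ x)
    (hx' : x ≤ (((649613803 : ℕ) : ℝ) + (48318383 : ℕ)) / S) :
    AltB (VFD κ) PP tK tL pcB [⟨3, 0, 0, 1449551462⟩] 2 0 3 0 8 (sgb true) (sgb true) x :=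
  strip_altBD (m := 1449551462) true rfl hκ (SH.κ0 hκ (SH.hx1 hx).le (SH.hx2 hx').le) (SH.hx1 hx).le (SH.hx2 hx') (covB02).cov (covB83).cov hx hx' c_B08pp_203_s1 cutB_nil (noExt_B)

noncomputable def cut_B08pp_213_s1 : Cut := Cut.of [[⟨4, 0, 0, 1449551462⟩], [⟨0, 1, 0, 67108864⟩, ⟨1, 1, 0, 67108864⟩, ⟨2, 2, 0, 16777216⟩]]

noncomputable def f_B08pp_213_s1 : ℕ → ℕ → ℕ → ℕ → Bool := onCell 0 536870912 0 1230186008 649613803 48318383
    (rowF 0 false true true .pnn 2 1 3 (qsf 0 536870912 0 1230186008 1) ndB0q2 ndB8q3 pcB1 cut_B08pp_213_s1 Ext.none)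

def k0_B08pp_213_s1 : ∃ t, chk3 f_B08pp_213_s1 t 1 1 1 = true :=
  ⟨(a (b (l 3) (l 5)) (b (b (a (l 3) (b (a (l 3) (l 14)) (l 3))) (l 3)) (b (l 3) (l 3)))), by decide +kernel⟩

theorem c_B08pp_213_s1 : CertF 0 536870912 0 1230186008 649613803 48318383 false true true .pnn 2 1 3
    ndB0q2 ndB8q3 pcB1 cut_B08pp_213_s1 Ext.none :=
  certF0 (fam := false) (s1 := true) (s2 := true) (a := 2) (b := 1) (c := 3) (cn := .pnn) (n1 := ndB0q2) (n2 := ndB8q3) (pc := pcB1) (cut := cut_B08pp_213_s1) (xt := Ext.none) (P1 := 0) (W1 := 536870912) (P2 := 0) (W2 := 1230186008) (P3 := 649613803) (W3 := 48318383)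
    rfl k0_B08pp_213_s1

theorem s_B08pp_213_s1 {κ x : ℝ} (hκ : κ * h0 = ken x) (hx : ((649613803 : ℕ) : ℝ) / S ≤ x)
    (hx' : x ≤ (((649613803 : ℕ) : ℝ) + (48318383 : ℕ)) / S)
    (H : CutB (VFD κ) PP tK tL pcB (Cut.of [[⟨0, 1, 0, 67108864⟩, ⟨1, 1, 0, 67108864⟩, ⟨2, 2, 0, 16777216⟩]]) 2 1 3 0 8 (sgb true) (sgb true) x) :
    AltB (VFD κ) PP tK tL pcB [⟨3, 0, 0, 1449551462⟩] 2 1 3 0 8 (sgb true) (sgb true) x :=
  strip_altBD (m := 1449551462) true rfl hκ (SH.κ0 hκ (SH.hx1 hx).le (SH.hx2 hx').le) (SH.hx1 hx).le (SH.hx2 hx') (covB02).cov (covB83).cov hx hx' c_B08pp_213_s1 H (noExt_B)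

noncomputable def cut_B08pm_001_s1 : Cut := Cut.of [[⟨4, 0, 0, 1449551462⟩]]

noncomputable def f_B08pm_001_s1 : ℕ → ℕ → ℕ → ℕ → Bool := onCell 0 536870912 536870912 536870912 649613803 48318383
    (rowF 0 false true false .up 0 0 1 (qsf 0 536870912 536870912 536870912 0) ndB0q0 ndB8q1 pcB0 cut_B08pm_001_s1 Ext.none)

def k0_B08pm_001_s1 : ∃ t, chk3 f_B08pm_001_s1 t 1 1 1 = true :=
  ⟨(l 4), by decide +kernel⟩

theorem c_B08pm_001_s1 : CertF 0 536870912 536870912 536870912 649613803 48318383 false true false .up 0 0 1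
    ndB0q0 ndB8q1 pcB0 cut_B08pm_001_s1 Ext.none :=
  certF0 (fam := false) (s1 := true) (s2 := false) (a := 0) (b := 0) (c := 1) (cn := .up) (n1 := ndB0q0) (n2 := ndB8q1) (pc := pcB0) (cut := cut_B08pm_001_s1) (xt := Ext.none) (P1 := 0) (W1 := 536870912) (P2 := 536870912) (W2 := 536870912) (P3 := 649613803) (W3 := 48318383)
    rfl k0_B08pm_001_s1

theorem s_B08pm_001_s1 {κ x : ℝ} (hκ : κ * h0 = ken x) (hx : ((649613803 : ℕ) : ℝ) / S ≤ x)
    (hx' : x ≤ (((649613803 : ℕ) : ℝ) + (48318383 : ℕ)) / S) :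
    AltB (VFD κ) PP tK tL pcB [⟨3, 0, 0, 1449551462⟩] 0 0 1 0 8 (sgb true) (sgb false) x :=
  strip_altBD (m := 1449551462) true rfl hκ (SH.κ0 hκ (SH.hx1 hx).le (SH.hx2 hx').le) (SH.hx1 hx).le (SH.hx2 hx') (covB00).cov (covB81).cov hx hx' c_B08pm_001_s1 cutB_nil (noExt_B)

noncomputable def cut_B08pm_011_s1 : Cut := Cut.of [[⟨4, 0, 0, 1449551462⟩]]

noncomputable def f_B08pm_011_s1 : ℕ → ℕ → ℕ → ℕ → Bool := onCell 0 536870912 536870912 536870912 649613803 48318383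
    (rowF 0 false true false .pnn 0 1 1 (qsf 0 536870912 536870912 536870912 1) ndB0q0 ndB8q1 pcB1 cut_B08pm_011_s1 Ext.none)

def k0_B08pm_011_s1 : ∃ t, chk3 f_B08pm_011_s1 t 1 1 1 = true :=
  ⟨(l 4), by decide +kernel⟩

theorem c_B08pm_011_s1 : CertF 0 536870912 536870912 536870912 649613803 48318383 false true false .pnn 0 1 1
    ndB0q0 ndB8q1 pcB1 cut_B08pm_011_s1 Ext.none :=
  certF0 (fam := false) (s1 := true) (s2 := false) (a := 0) (b := 1) (c := 1) (cn := .pnn) (n1 := ndB0q0) (n2 := ndB8q1) (pc := pcB1) (cut := cut_B08pm_011_s1) (xt := Ext.none) (P1 := 0) (W1 := 536870912) (P2 := 536870912) (W2 := 536870912) (P3 := 649613803) (W3 := 48318383)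
    rfl k0_B08pm_011_s1

theorem s_B08pm_011_s1 {κ x : ℝ} (hκ : κ * h0 = ken x) (hx : ((649613803 : ℕ) : ℝ) / S ≤ x)
    (hx' : x ≤ (((649613803 : ℕ) : ℝ) + (48318383 : ℕ)) / S) :
    AltB (VFD κ) PP tK tL pcB [⟨3, 0, 0, 1449551462⟩] 0 1 1 0 8 (sgb true) (sgb false) x :=
  strip_altBD (m := 1449551462) true rfl hκ (SH.κ0 hκ (SH.hx1 hx).le (SH.hx2 hx').le) (SH.hx1 hx).le (SH.hx2 hx') (covB00).cov (covB81).cov hx hx' c_B08pm_011_s1 cutB_nil (noExt_B)

noncomputable def cut_B08pm_012_s1 : Cut := Cut.of [[⟨4, 0, 0, 1449551462⟩]]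

noncomputable def f_B08pm_012_s1 : ℕ → ℕ → ℕ → ℕ → Bool := onCell 0 536870912 1073741824 536870912 649613803 48318383
    (rowF 0 false true false .pnp 0 1 2 (qsf 0 536870912 1073741824 536870912 1) ndB0q0 ndB8q2 pcB1 cut_B08pm_012_s1 Ext.none)

def k0_B08pm_012_s1 : ∃ t, chk3 f_B08pm_012_s1 t 1 1 1 = true :=
  ⟨(l 4), by decide +kernel⟩

theorem c_B08pm_012_s1 : CertF 0 536870912 1073741824 536870912 649613803 48318383 false true false .pnp 0 1 2
    ndB0q0 ndB8q2 pcB1 cut_B08pm_012_s1 Ext.none :=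
  certF0 (fam := false) (s1 := true) (s2 := false) (a := 0) (b := 1) (c := 2) (cn := .pnp) (n1 := ndB0q0) (n2 := ndB8q2) (pc := pcB1) (cut := cut_B08pm_012_s1) (xt := Ext.none) (P1 := 0) (W1 := 536870912) (P2 := 1073741824) (W2 := 536870912) (P3 := 649613803) (W3 := 48318383)
    rfl k0_B08pm_012_s1

theorem s_B08pm_012_s1 {κ x : ℝ} (hκ : κ * h0 = ken x) (hx : ((649613803 : ℕ) : ℝ) / S ≤ x)
    (hx' : x ≤ (((649613803 : ℕ) : ℝ) + (48318383 : ℕ)) / S) :
    AltB (VFD κ) PP tK tL pcB [⟨3, 0, 0, 1449551462⟩] 0 1 2 0 8 (sgb true) (sgb false) x :=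
  strip_altBD (m := 1449551462) true rfl hκ (SH.κ0 hκ (SH.hx1 hx).le (SH.hx2 hx').le) (SH.hx1 hx).le (SH.hx2 hx') (covB00).cov (covB82).cov hx hx' c_B08pm_012_s1 cutB_nil (noExt_B)

noncomputable def cut_B08pm_022_s1 : Cut := Cut.of [[⟨4, 0, 0, 1449551462⟩]]

noncomputable def f_B08pm_022_s1 : ℕ → ℕ → ℕ → ℕ → Bool := onCell 0 536870912 1073741824 536870912 649613803 48318383
    (rowF 0 false true false .pp 0 2 2 (qsf 0 536870912 1073741824 536870912 2) ndB0q0 ndB8q2 pcB2 cut_B08pm_022_s1 Ext.none)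

def k0_B08pm_022_s1 : ∃ t, chk3 f_B08pm_022_s1 t 1 1 1 = true :=
  ⟨(l 4), by decide +kernel⟩

theorem c_B08pm_022_s1 : CertF 0 536870912 1073741824 536870912 649613803 48318383 false true false .pp 0 2 2
    ndB0q0 ndB8q2 pcB2 cut_B08pm_022_s1 Ext.none :=
  certF0 (fam := false) (s1 := true) (s2 := false) (a := 0) (b := 2) (c := 2) (cn := .pp) (n1 := ndB0q0) (n2 := ndB8q2) (pc := pcB2) (cut := cut_B08pm_022_s1) (xt := Ext.none) (P1 := 0) (W1 := 536870912) (P2 := 1073741824) (W2 := 536870912) (P3 := 649613803) (W3 := 48318383)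
    rfl k0_B08pm_022_s1

theorem s_B08pm_022_s1 {κ x : ℝ} (hκ : κ * h0 = ken x) (hx : ((649613803 : ℕ) : ℝ) / S ≤ x)
    (hx' : x ≤ (((649613803 : ℕ) : ℝ) + (48318383 : ℕ)) / S) :
    AltB (VFD κ) PP tK tL pcB [⟨3, 0, 0, 1449551462⟩] 0 2 2 0 8 (sgb true) (sgb false) x :=
  strip_altBD (m := 1449551462) true rfl hκ (SH.κ0 hκ (SH.hx1 hx).le (SH.hx2 hx').le) (SH.hx1 hx).le (SH.hx2 hx') (covB00).cov (covB82).cov hx hx' c_B08pm_022_s1 cutB_nil (noExt_B)

noncomputable def cut_B08pm_023_s1 : Cut := Cut.of [[⟨4, 0, 0, 1449551462⟩]]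

noncomputable def f_B08pm_023_s1 : ℕ → ℕ → ℕ → ℕ → Bool := onCell 0 536870912 0 1230186008 649613803 48318383
    (rowF 0 false true false .up 0 2 3 (qsf 0 536870912 0 1230186008 2) ndB0q0 ndB8q3 pcB2 cut_B08pm_023_s1 Ext.none)

def k0_B08pm_023_s1 : ∃ t, chk3 f_B08pm_023_s1 t 1 1 1 = true :=
  ⟨(l 6), by decide +kernel⟩

theorem c_B08pm_023_s1 : CertF 0 536870912 0 1230186008 649613803 48318383 false true false .up 0 2 3
    ndB0q0 ndB8q3 pcB2 cut_B08pm_023_s1 Ext.none :=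
  certF0 (fam := false) (s1 := true) (s2 := false) (a := 0) (b := 2) (c := 3) (cn := .up) (n1 := ndB0q0) (n2 := ndB8q3) (pc := pcB2) (cut := cut_B08pm_023_s1) (xt := Ext.none) (P1 := 0) (W1 := 536870912) (P2 := 0) (W2 := 1230186008) (P3 := 649613803) (W3 := 48318383)
    rfl k0_B08pm_023_s1

theorem s_B08pm_023_s1 {κ x : ℝ} (hκ : κ * h0 = ken x) (hx : ((649613803 : ℕ) : ℝ) / S ≤ x)
    (hx' : x ≤ (((649613803 : ℕ) : ℝ) + (48318383 : ℕ)) / S) :
    AltB (VFD κ) PP tK tL pcB [⟨3, 0, 0, 1449551462⟩] 0 2 3 0 8 (sgb true) (sgb false) x :=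
  strip_altBD (m := 1449551462) true rfl hκ (SH.κ0 hκ (SH.hx1 hx).le (SH.hx2 hx').le) (SH.hx1 hx).le (SH.hx2 hx') (covB00).cov (covB83).cov hx hx' c_B08pm_023_s1 cutB_nil (noExt_B)

noncomputable def cut_B08pm_033_s1 : Cut := Cut.of [[⟨4, 0, 0, 1449551462⟩]]

noncomputable def f_B08pm_033_s1 : ℕ → ℕ → ℕ → ℕ → Bool := onCell 0 536870912 0 1230186008 649613803 48318383
    (rowF 0 false true false .pnn 0 3 3 (qsf 0 536870912 0 1230186008 3) ndB0q0 ndB8q3 pcB3 cut_B08pm_033_s1 Ext.none)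

def k0_B08pm_033_s1 : ∃ t, chk3 f_B08pm_033_s1 t 1 1 1 = true :=
  ⟨(l 6), by decide +kernel⟩

theorem c_B08pm_033_s1 : CertF 0 536870912 0 1230186008 649613803 48318383 false true false .pnn 0 3 3
    ndB0q0 ndB8q3 pcB3 cut_B08pm_033_s1 Ext.none :=
  certF0 (fam := false) (s1 := true) (s2 := false) (a := 0) (b := 3) (c := 3) (cn := .pnn) (n1 := ndB0q0) (n2 := ndB8q3) (pc := pcB3) (cut := cut_B08pm_033_s1) (xt := Ext.none) (P1 := 0) (W1 := 536870912) (P2 := 0) (W2 := 1230186008) (P3 := 649613803) (W3 := 48318383)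
    rfl k0_B08pm_033_s1

theorem s_B08pm_033_s1 {κ x : ℝ} (hκ : κ * h0 = ken x) (hx : ((649613803 : ℕ) : ℝ) / S ≤ x)
    (hx' : x ≤ (((649613803 : ℕ) : ℝ) + (48318383 : ℕ)) / S) :
    AltB (VFD κ) PP tK tL pcB [⟨3, 0, 0, 1449551462⟩] 0 3 3 0 8 (sgb true) (sgb false) x :=
  strip_altBD (m := 1449551462) true rfl hκ (SH.κ0 hκ (SH.hx1 hx).le (SH.hx2 hx').le) (SH.hx1 hx).le (SH.hx2 hx') (covB00).cov (covB83).cov hx hx' c_B08pm_033_s1 cutB_nil (noExt_B)

noncomputable def cut_B08pm_101_s1 : Cut := Cut.of [[⟨4, 0, 0, 1449551462⟩]]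

noncomputable def f_B08pm_101_s1 : ℕ → ℕ → ℕ → ℕ → Bool := onCell 536870912 536870912 536870912 536870912 649613803 48318383
    (rowF 0 false true false .npn 1 0 1 (qsf 536870912 536870912 536870912 536870912 0) ndB0q1 ndB8q1 pcB0 cut_B08pm_101_s1 Ext.none)

def k0_B08pm_101_s1 : ∃ t, chk3 f_B08pm_101_s1 t 1 1 1 = true :=
  ⟨(l 4), by decide +kernel⟩

theorem c_B08pm_101_s1 : CertF 536870912 536870912 536870912 536870912 649613803 48318383 false true false .npn 1 0 1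
    ndB0q1 ndB8q1 pcB0 cut_B08pm_101_s1 Ext.none :=
  certF0 (fam := false) (s1 := true) (s2 := false) (a := 1) (b := 0) (c := 1) (cn := .npn) (n1 := ndB0q1) (n2 := ndB8q1) (pc := pcB0) (cut := cut_B08pm_101_s1) (xt := Ext.none) (P1 := 536870912) (W1 := 536870912) (P2 := 536870912) (W2 := 536870912) (P3 := 649613803) (W3 := 48318383)
    rfl k0_B08pm_101_s1

theorem s_B08pm_101_s1 {κ x : ℝ} (hκ : κ * h0 = ken x) (hx : ((649613803 : ℕ) : ℝ) / S ≤ x)
    (hx' : x ≤ (((649613803 : ℕ) : ℝ) + (48318383 : ℕ)) / S) :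
    AltB (VFD κ) PP tK tL pcB [⟨3, 0, 0, 1449551462⟩] 1 0 1 0 8 (sgb true) (sgb false) x :=
  strip_altBD (m := 1449551462) true rfl hκ (SH.κ0 hκ (SH.hx1 hx).le (SH.hx2 hx').le) (SH.hx1 hx).le (SH.hx2 hx') (covB01).cov (covB81).cov hx hx' c_B08pm_101_s1 cutB_nil (noExt_B)

noncomputable def cut_B08pm_102_s1 : Cut := Cut.of [[⟨4, 0, 0, 1449551462⟩]]

noncomputable def f_B08pm_102_s1 : ℕ → ℕ → ℕ → ℕ → Bool := onCell 536870912 536870912 1073741824 536870912 649613803 48318383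
    (rowF 0 false true false .npp 1 0 2 (qsf 536870912 536870912 1073741824 536870912 0) ndB0q1 ndB8q2 pcB0 cut_B08pm_102_s1 Ext.none)

def k0_B08pm_102_s1 : ∃ t, chk3 f_B08pm_102_s1 t 1 1 1 = true :=
  ⟨(l 6), by decide +kernel⟩

theorem c_B08pm_102_s1 : CertF 536870912 536870912 1073741824 536870912 649613803 48318383 false true false .npp 1 0 2
    ndB0q1 ndB8q2 pcB0 cut_B08pm_102_s1 Ext.none :=
  certF0 (fam := false) (s1 := true) (s2 := false) (a := 1) (b := 0) (c := 2) (cn := .npp) (n1 := ndB0q1) (n2 := ndB8q2) (pc := pcB0) (cut := cut_B08pm_102_s1) (xt := Ext.none) (P1 := 536870912) (W1 := 536870912) (P2 := 1073741824) (W2 := 536870912) (P3 := 649613803) (W3 := 48318383)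
    rfl k0_B08pm_102_s1

theorem s_B08pm_102_s1 {κ x : ℝ} (hκ : κ * h0 = ken x) (hx : ((649613803 : ℕ) : ℝ) / S ≤ x)
    (hx' : x ≤ (((649613803 : ℕ) : ℝ) + (48318383 : ℕ)) / S) :
    AltB (VFD κ) PP tK tL pcB [⟨3, 0, 0, 1449551462⟩] 1 0 2 0 8 (sgb true) (sgb false) x :=
  strip_altBD (m := 1449551462) true rfl hκ (SH.κ0 hκ (SH.hx1 hx).le (SH.hx2 hx').le) (SH.hx1 hx).le (SH.hx2 hx') (covB01).cov (covB82).cov hx hx' c_B08pm_102_s1 cutB_nil (noExt_B)

noncomputable def cut_B08pm_112_s1 : Cut := Cut.of [[⟨4, 0, 0, 1449551462⟩]]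

noncomputable def f_B08pm_112_s1 : ℕ → ℕ → ℕ → ℕ → Bool := onCell 536870912 536870912 1073741824 536870912 649613803 48318383
    (rowF 0 false true false .dn 1 1 2 (qsf 536870912 536870912 1073741824 536870912 1) ndB0q1 ndB8q2 pcB1 cut_B08pm_112_s1 Ext.none)

def k0_B08pm_112_s1 : ∃ t, chk3 f_B08pm_112_s1 t 1 1 1 = true :=
  ⟨(l 6), by decide +kernel⟩

theorem c_B08pm_112_s1 : CertF 536870912 536870912 1073741824 536870912 649613803 48318383 false true false .dn 1 1 2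
    ndB0q1 ndB8q2 pcB1 cut_B08pm_112_s1 Ext.none :=
  certF0 (fam := false) (s1 := true) (s2 := false) (a := 1) (b := 1) (c := 2) (cn := .dn) (n1 := ndB0q1) (n2 := ndB8q2) (pc := pcB1) (cut := cut_B08pm_112_s1) (xt := Ext.none) (P1 := 536870912) (W1 := 536870912) (P2 := 1073741824) (W2 := 536870912) (P3 := 649613803) (W3 := 48318383)
    rfl k0_B08pm_112_s1

theorem s_B08pm_112_s1 {κ x : ℝ} (hκ : κ * h0 = ken x) (hx : ((649613803 : ℕ) : ℝ) / S ≤ x)
    (hx' : x ≤ (((649613803 : ℕ) : ℝ) + (48318383 : ℕ)) / S) :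
    AltB (VFD κ) PP tK tL pcB [⟨3, 0, 0, 1449551462⟩] 1 1 2 0 8 (sgb true) (sgb false) x :=
  strip_altBD (m := 1449551462) true rfl hκ (SH.κ0 hκ (SH.hx1 hx).le (SH.hx2 hx').le) (SH.hx1 hx).le (SH.hx2 hx') (covB01).cov (covB82).cov hx hx' c_B08pm_112_s1 cutB_nil (noExt_B)

noncomputable def cut_B08pm_113_s1 : Cut := Cut.of [[⟨4, 0, 0, 1449551462⟩], [⟨0, 1, 0, 67108864⟩, ⟨1, 1, 0, 67108864⟩, ⟨2, 2, 0, 16777216⟩]]

noncomputable def f_B08pm_113_s1 : ℕ → ℕ → ℕ → ℕ → Bool := onCell 536870912 536870912 0 1230186008 649613803 48318383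
    (rowF 0 false true false .nn 1 1 3 (qsf 536870912 536870912 0 1230186008 1) ndB0q1 ndB8q3 pcB1 cut_B08pm_113_s1 Ext.none)

def k0_B08pm_113_s1 : ∃ t, chk3 f_B08pm_113_s1 t 1 1 1 = true :=
  ⟨(b (a (l 2) (a (l 2) (b (a (l 2) (a (l 2) (b (l 14) (b (l 14) (l 16778336))))) (a (l 6) (b (a (l 6) (l 16789320)) (l 6)))))) (a (l 6) (l 6))), by decide +kernel⟩

theorem c_B08pm_113_s1 : CertF 536870912 536870912 0 1230186008 649613803 48318383 false true false .nn 1 1 3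
    ndB0q1 ndB8q3 pcB1 cut_B08pm_113_s1 Ext.none :=
  certF0 (fam := false) (s1 := true) (s2 := false) (a := 1) (b := 1) (c := 3) (cn := .nn) (n1 := ndB0q1) (n2 := ndB8q3) (pc := pcB1) (cut := cut_B08pm_113_s1) (xt := Ext.none) (P1 := 536870912) (W1 := 536870912) (P2 := 0) (W2 := 1230186008) (P3 := 649613803) (W3 := 48318383)
    rfl k0_B08pm_113_s1

theorem s_B08pm_113_s1 {κ x : ℝ} (hκ : κ * h0 = ken x) (hx : ((649613803 : ℕ) : ℝ) / S ≤ x)
    (hx' : x ≤ (((649613803 : ℕ) : ℝ) + (48318383 : ℕ)) / S)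
    (H : CutB (VFD κ) PP tK tL pcB (Cut.of [[⟨0, 1, 0, 67108864⟩, ⟨1, 1, 0, 67108864⟩, ⟨2, 2, 0, 16777216⟩]]) 1 1 3 0 8 (sgb true) (sgb false) x) :
    AltB (VFD κ) PP tK tL pcB [⟨3, 0, 0, 1449551462⟩] 1 1 3 0 8 (sgb true) (sgb false) x :=
  strip_altBD (m := 1449551462) true rfl hκ (SH.κ0 hκ (SH.hx1 hx).le (SH.hx2 hx').le) (SH.hx1 hx).le (SH.hx2 hx') (covB01).cov (covB83).cov hx hx' c_B08pm_113_s1 H (noExt_B)

noncomputable def cut_B08pm_123_s1 : Cut := Cut.of [[⟨4, 0, 0, 1449551462⟩], [⟨0, 1, 0, 67108864⟩, ⟨1, 1, 0, 67108864⟩, ⟨2, 2, 0, 16777216⟩]]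

noncomputable def f_B08pm_123_s1 : ℕ → ℕ → ℕ → ℕ → Bool := onCell 1073741824 536870912 0 1230186008 649613803 48318383
    (rowF 2 false true false .npn 1 2 3 (qsf 536870912 536870912 0 1230186008 2) ndB0q1 ndB8q3 pcB2 cut_B08pm_123_s1 Ext.none)

def k0_B08pm_123_s1 : ∃ t, chk3 f_B08pm_123_s1 t 1 1 1 = true :=
  ⟨(b (a (a (b (a (b (a (l 14) (b (l 16742784) (l 16725016))) (a (b (l 14) (l 16743320)) (l 16711128))) (b (a (l 16701888) (l 16663192)) (l 6))) (b (l 6) (l 6))) (b (b (l 6) (l 6)) (l 6))) (l 6)) (l 6)), by decide +kernel⟩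

theorem c_B08pm_123_s1 : CertF 536870912 536870912 0 1230186008 649613803 48318383 false true false .npn 1 2 3
    ndB0q1 ndB8q3 pcB2 cut_B08pm_123_s1 Ext.none :=
  certF2 (fam := false) (s1 := true) (s2 := false) (a := 1) (b := 2) (c := 3) (cn := .npn) (n1 := ndB0q1) (n2 := ndB8q3) (pc := pcB2) (cut := cut_B08pm_123_s1) (xt := Ext.none) (P1 := 536870912) (W1 := 536870912) (P2 := 0) (W2 := 1230186008) (P3 := 649613803) (W3 := 48318383)
    rfl (fun _ => rfl) k0_B08pm_123_s1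

theorem s_B08pm_123_s1 {κ x : ℝ} (hκ : κ * h0 = ken x) (hx : ((649613803 : ℕ) : ℝ) / S ≤ x)
    (hx' : x ≤ (((649613803 : ℕ) : ℝ) + (48318383 : ℕ)) / S)
    (H : CutB (VFD κ) PP tK tL pcB (Cut.of [[⟨0, 1, 0, 67108864⟩, ⟨1, 1, 0, 67108864⟩, ⟨2, 2, 0, 16777216⟩]]) 1 2 3 0 8 (sgb true) (sgb false) x) :
    AltB (VFD κ) PP tK tL pcB [⟨3, 0, 0, 1449551462⟩] 1 2 3 0 8 (sgb true) (sgb false) x :=
  strip_altBD (m := 1449551462) true rfl hκ (SH.κ0 hκ (SH.hx1 hx).le (SH.hx2 hx').le) (SH.hx1 hx).le (SH.hx2 hx') (covB01).cov (covB83).cov hx hx' c_B08pm_123_s1 H (noExt_B)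

noncomputable def cut_B08pm_133_s1 : Cut := Cut.of [[⟨4, 0, 0, 1449551462⟩]]

noncomputable def f_B08pm_133_s1 : ℕ → ℕ → ℕ → ℕ → Bool := onCell 1610612736 536870912 0 1230186008 649613803 48318383
    (rowF 2 false true false .dn 1 3 3 (qsf 536870912 536870912 0 1230186008 3) ndB0q1 ndB8q3 pcB3 cut_B08pm_133_s1 Ext.none)

def k0_B08pm_133_s1 : ∃ t, chk3 f_B08pm_133_s1 t 1 1 1 = true :=
  ⟨(l 6), by decide +kernel⟩

theorem c_B08pm_133_s1 : CertF 536870912 536870912 0 1230186008 649613803 48318383 false true false .dn 1 3 3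
    ndB0q1 ndB8q3 pcB3 cut_B08pm_133_s1 Ext.none :=
  certF2 (fam := false) (s1 := true) (s2 := false) (a := 1) (b := 3) (c := 3) (cn := .dn) (n1 := ndB0q1) (n2 := ndB8q3) (pc := pcB3) (cut := cut_B08pm_133_s1) (xt := Ext.none) (P1 := 536870912) (W1 := 536870912) (P2 := 0) (W2 := 1230186008) (P3 := 649613803) (W3 := 48318383)
    rfl (fun _ => rfl) k0_B08pm_133_s1

theorem s_B08pm_133_s1 {κ x : ℝ} (hκ : κ * h0 = ken x) (hx : ((649613803 : ℕ) : ℝ) / S ≤ x)
    (hx' : x ≤ (((649613803 : ℕ) : ℝ) + (48318383 : ℕ)) / S) :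
    AltB (VFD κ) PP tK tL pcB [⟨3, 0, 0, 1449551462⟩] 1 3 3 0 8 (sgb true) (sgb false) x :=
  strip_altBD (m := 1449551462) true rfl hκ (SH.κ0 hκ (SH.hx1 hx).le (SH.hx2 hx').le) (SH.hx1 hx).le (SH.hx2 hx') (covB01).cov (covB83).cov hx hx' c_B08pm_133_s1 cutB_nil (noExt_B)

noncomputable def cut_B08pm_202_s1 : Cut := Cut.of [[⟨4, 0, 0, 1449551462⟩]]

noncomputable def f_B08pm_202_s1 : ℕ → ℕ → ℕ → ℕ → Bool := onCell 0 536870912 1073741824 536870912 649613803 48318383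
    (rowF 0 false true false .pp 2 0 2 (qsf 0 536870912 1073741824 536870912 0) ndB0q2 ndB8q2 pcB0 cut_B08pm_202_s1 Ext.none)

def k0_B08pm_202_s1 : ∃ t, chk3 f_B08pm_202_s1 t 1 1 1 = true :=
  ⟨(a (b (l 6) (a (l 6) (l 6))) (l 6)), by decide +kernel⟩

theorem c_B08pm_202_s1 : CertF 0 536870912 1073741824 536870912 649613803 48318383 false true false .pp 2 0 2
    ndB0q2 ndB8q2 pcB0 cut_B08pm_202_s1 Ext.none :=
  certF0 (fam := false) (s1 := true) (s2 := false) (a := 2) (b := 0) (c := 2) (cn := .pp) (n1 := ndB0q2) (n2 := ndB8q2) (pc := pcB0) (cut := cut_B08pm_202_s1) (xt := Ext.none) (P1 := 0) (W1 := 536870912) (P2 := 1073741824) (W2 := 536870912) (P3 := 649613803) (W3 := 48318383)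
    rfl k0_B08pm_202_s1

theorem s_B08pm_202_s1 {κ x : ℝ} (hκ : κ * h0 = ken x) (hx : ((649613803 : ℕ) : ℝ) / S ≤ x)
    (hx' : x ≤ (((649613803 : ℕ) : ℝ) + (48318383 : ℕ)) / S) :
    AltB (VFD κ) PP tK tL pcB [⟨3, 0, 0, 1449551462⟩] 2 0 2 0 8 (sgb true) (sgb false) x :=
  strip_altBD (m := 1449551462) true rfl hκ (SH.κ0 hκ (SH.hx1 hx).le (SH.hx2 hx').le) (SH.hx1 hx).le (SH.hx2 hx') (covB02).cov (covB82).cov hx hx' c_B08pm_202_s1 cutB_nil (noExt_B)

noncomputable def cut_B08pm_203_s1 : Cut := Cut.of [[⟨4, 0, 0, 1449551462⟩]]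

noncomputable def f_B08pm_203_s1 : ℕ → ℕ → ℕ → ℕ → Bool := onCell 0 536870912 0 1230186008 649613803 48318383
    (rowF 0 false true false .up 2 0 3 (qsf 0 536870912 0 1230186008 0) ndB0q2 ndB8q3 pcB0 cut_B08pm_203_s1 Ext.none)

def k0_B08pm_203_s1 : ∃ t, chk3 f_B08pm_203_s1 t 1 1 1 = true :=
  ⟨(b (l 2) (b (l 2) (a (a (b (b (l 2) (a (b (l 2) (l 16898208)) (l 172973511527))) (b (a (b (l 16760040) (l 16749456)) (b (l 16764200) (l 6))) (a (b (a (l 16730952) (l 16728624)) (l 16617832)) (l 6)))) (b (a (b (l 2) (l 16790024)) (l 6)) (l 6))) (l 6)))), by decide +kernel⟩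

theorem c_B08pm_203_s1 : CertF 0 536870912 0 1230186008 649613803 48318383 false true false .up 2 0 3
    ndB0q2 ndB8q3 pcB0 cut_B08pm_203_s1 Ext.none :=
  certF0 (fam := false) (s1 := true) (s2 := false) (a := 2) (b := 0) (c := 3) (cn := .up) (n1 := ndB0q2) (n2 := ndB8q3) (pc := pcB0) (cut := cut_B08pm_203_s1) (xt := Ext.none) (P1 := 0) (W1 := 536870912) (P2 := 0) (W2 := 1230186008) (P3 := 649613803) (W3 := 48318383)
    rfl k0_B08pm_203_s1

theorem s_B08pm_203_s1 {κ x : ℝ} (hκ : κ * h0 = ken x) (hx : ((649613803 : ℕ) : ℝ) / S ≤ x)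
    (hx' : x ≤ (((649613803 : ℕ) : ℝ) + (48318383 : ℕ)) / S) :
    AltB (VFD κ) PP tK tL pcB [⟨3, 0, 0, 1449551462⟩] 2 0 3 0 8 (sgb true) (sgb false) x :=
  strip_altBD (m := 1449551462) true rfl hκ (SH.κ0 hκ (SH.hx1 hx).le (SH.hx2 hx').le) (SH.hx1 hx).le (SH.hx2 hx') (covB02).cov (covB83).cov hx hx' c_B08pm_203_s1 cutB_nil (noExt_B)

noncomputable def cut_B08pm_213_s1 : Cut := Cut.of [[⟨4, 0, 0, 1449551462⟩], [⟨0, 1, 0, 67108864⟩, ⟨1, 1, 0, 67108864⟩, ⟨2, 2, 0, 16777216⟩]]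

noncomputable def xt_B08pm_213_s1 : Ext := strExt6 dd false true false .u2 .s2m .u0m .pnn 2 1 3 rfl rfl gf1 vv ww ndB0q2 ndB8q3

noncomputable def f_B08pm_213_s1 : ℕ → ℕ → ℕ → ℕ → Bool := onCell 0 536870912 0 1230186008 649613803 48318383
    (rowF 0 false true false .pnn 2 1 3 (qsf 0 536870912 0 1230186008 1) ndB0q2 ndB8q3 pcB1 cut_B08pm_213_s1 xt_B08pm_213_s1)

def k0_B08pm_213_s1 : ∃ t, chk3 f_B08pm_213_s1 t 1 2 1 = true :=
  ⟨(a (b (l 3) (a (l 3) (b (l 3) (a (b (l 3) (a (l 3) (b (l 3) (l 1070371343)))) (b (a (l 3) (b (l 1073572367) (l 1073243151))) (a (b (l 1071745039) (l 1071441423)) (b (l 1072650255) (a (l 16769072) (l 16767216))))))))) (b (a (a (l 3) (b (l 3) (a (l 3) (b (l 3) (l 1074077199))))) (b (a (a (l 3) (l 14)) (l 14)) (a (b (a (a (l 1073991695) (l 1074144271)) (a (l 1074288655) (l 14))) (a (b (l 1074218511) (a (l 1074321423) (l 16781472))) (b (a (l 16780856) (l 16784424)) (a (l 16786096) (l 16787984)))))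 (a (b (a (l 14) (l 14)) (l 16787640)) (a (b (l 14) (l 16788952)) (l 16787968)))))) (a (b (a (b (a (l 3) (b (l 3) (l 1074913807))) (a (b (l 3) (l 1074343951)) (b (l 1077342223) (l 1075457039)))) (b (a (b (l 1074373647) (l 1074732047)) (b (l 1074393615) (a (l 16782176) (l 16785280)))) (a (b (a (l 1075254799) (l 16785552)) (a (l 16785384) (l 16789016))) (b (a (l 16789472) (l 16792112)) (l 16792112))))) (a (b (a (b (l 1074119183) (a (l 1073821199) (l 16778064))) (b (a (l 16780608) (l 16783480)) (a (l 16781016) (l 16783336)))) (a (b (a (l 16773656) (l 16777576)) (a (l 16769536) (l 16771424))) (l 16778992))) (b (a (b (l 16791608) (l 16787760)) (l 16792984)) (a (l 16783424) (l 16790928))))) (b (b (a (a (b (a (l 16782848) (l 16787792)) (l 16831904)) (l 16792512)) (a (l 16794768) (l 16796472))) (a (a (l 16794760) (l 16796616)) (l 16882792))) (a (b (a (l 16795280) (l 16797344)) (a (l 16793896) (l 6))) (b (l 6) (l 6))))))), by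 decide +kernel⟩

def k1_B08pm_213_s1 : ∃ t, chk3 f_B08pm_213_s1 t 1 3 1 = true :=
  ⟨(b (a (b (a (b (l 3) (a (l 3) (a (l 3) (l 1074275343)))) (a (b (a (b (l 3) (l 1071032847)) (b (l 1070943247) (l 1071333391))) (a (b (l 1071617039) (a (l 1072208911) (l 16787528))) (b (a (l 16776416) (l 16720080)) (a (l 16763336) (l 16758504))))) (b (a (b (a (l 1071244303) (b (l 16766664) (l 16762272))) (a (b (l 16763448) (l 16760888)) (l 16760104))) (b (a (l 16762592) (l 16762120)) (l 16758208))) (a (b (a (l 16758944) (l 16756200)) (l 16754160)) (l 16752952))))) (a (a (b (l 1073602575) (a (l 1073616399) (b (l 1073493007) (a (l 1073256975) (l 16772744))))) (b (a (l 1073250831) (b (a (l 1072885263) (l 16771944)) (a (l 16772456) (l 16770944)))) (a (b (a (b (l 16775888) (l 16773768)) (l 16773008)) (a (l 16772608) (l 16768160))) (b (a (l 16770584) (l 16765360)) (l 16762088))))) (a (b (a (b (a (l 16768896) (l 16764800)) (l 16762536)) (l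 16755144)) (a (l 16752392) (l 16745720))) (b (a (l 16746960) (l 16749424)) (l 16752712))))) (b (a (b (a (a (l 16763904) (l 16770408)) (a (l 16782640) (l 16788856))) (a (b (l 16764912) (l 16765240)) (l 16784520))) (l 6)) (a (b (a (l 16757272) (l 6)) (l 6)) (l 6)))) (a (b (a (a (b (a (b (a (l 1073341455) (b (l 16775560) (l 16773000))) (a (l 16771168) (b (l 16772208) (l 16767104)))) (b (a (l 16773200) (l 16770656)) (l 16764376))) (a (b (l 16760744) (l 16745640)) (b (l 16751528) (l 16738880)))) (b (a (l 16756784) (b (l 16754328) (l 16748056))) (b (l 16755384) (l 16725408)))) (a (b (a (l 16753544) (l 16729856)) (a (l 16713816) (l 6))) (l 6))) (a (l 1) (l 6))) (l 6))), by decide +kernel⟩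

theorem t2_B08pm_213_s1 : ∃ t, chk3 f_B08pm_213_s1 t 1 1 1 = true := ex3_b k0_B08pm_213_s1 k1_B08pm_213_s1

theorem c_B08pm_213_s1 : CertF 0 536870912 0 1230186008 649613803 48318383 false true false .pnn 2 1 3
    ndB0q2 ndB8q3 pcB1 cut_B08pm_213_s1 xt_B08pm_213_s1 :=
  certF0 (fam := false) (s1 := true) (s2 := false) (a := 2) (b := 1) (c := 3) (cn := .pnn) (n1 := ndB0q2) (n2 := ndB8q3) (pc := pcB1) (cut := cut_B08pm_213_s1) (xt := xt_B08pm_213_s1) (P1 := 0) (W1 := 536870912) (P2 := 0) (W2 := 1230186008) (P3 := 649613803) (W3 := 48318383)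
    rfl t2_B08pm_213_s1

theorem s_B08pm_213_s1 {κ x : ℝ} (hκ : κ * h0 = ken x) (hx : ((649613803 : ℕ) : ℝ) / S ≤ x)
    (hx' : x ≤ (((649613803 : ℕ) : ℝ) + (48318383 : ℕ)) / S)
    (H : CutB (VFD κ) PP tK tL pcB (Cut.of [[⟨0, 1, 0, 67108864⟩, ⟨1, 1, 0, 67108864⟩, ⟨2, 2, 0, 16777216⟩]]) 2 1 3 0 8 (sgb true) (sgb false) x) :
    AltB (VFD κ) PP tK tL pcB [⟨3, 0, 0, 1449551462⟩] 2 1 3 0 8 (sgb true) (sgb false) x :=
  strip_altBD (m := 1449551462) true rfl hκ (SH.κ0 hκ (SH.hx1 hx).le (SH.hx2 hx').le) (SH.hx1 hx).le (SH.hx2 hx') (covB02).cov (covB83).cov hx hx' c_B08pm_213_s1 H ((okx6 hx hx').extB (T := tt) (okx hx hx') (sideB hx hx') hκ rfl rfl (.O 2 true) (.N 3 false) (Or.inr rfl))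

noncomputable def cut_B08mm_001_s1 : Cut := Cut.of [[⟨4, 0, 0, 1449551462⟩]]

noncomputable def f_B08mm_001_s1 : ℕ → ℕ → ℕ → ℕ → Bool := onCell 0 536870912 0 536870912 649613803 48318383
    (rowF 1 false false false .up 0 0 1 (qsf 0 536870912 536870912 536870912 0) ndB0q0 ndB8q1 pcB0 cut_B08mm_001_s1 Ext.none)

def k0_B08mm_001_s1 : ∃ t, chk3 f_B08mm_001_s1 t 1 1 1 = true :=
  ⟨(l 3), by decide +kernel⟩

theorem c_B08mm_001_s1 : CertF 0 536870912 536870912 536870912 649613803 48318383 false false false .up 0 0 1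
    ndB0q0 ndB8q1 pcB0 cut_B08mm_001_s1 Ext.none :=
  certF1 (fam := false) (s1 := false) (s2 := false) (a := 0) (b := 0) (c := 1) (cn := .up) (n1 := ndB0q0) (n2 := ndB8q1) (pc := pcB0) (cut := cut_B08mm_001_s1) (xt := Ext.none) (P1 := 0) (W1 := 536870912) (P2 := 536870912) (W2 := 536870912) (P3 := 649613803) (W3 := 48318383)
    rfl (fun _ => rfl) k0_B08mm_001_s1

theorem s_B08mm_001_s1 {κ x : ℝ} (hκ : κ * h0 = ken x) (hx : ((649613803 : ℕ) : ℝ) / S ≤ x)
    (hx' : x ≤ (((649613803 : ℕ) : ℝ) + (48318383 : ℕ)) / S) :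
    AltB (VFD κ) PP tK tL pcB [⟨3, 0, 0, 1449551462⟩] 0 0 1 0 8 (sgb false) (sgb false) x :=
  strip_altBD (m := 1449551462) true rfl hκ (SH.κ0 hκ (SH.hx1 hx).le (SH.hx2 hx').le) (SH.hx1 hx).le (SH.hx2 hx') (covB00).cov (covB81).cov hx hx' c_B08mm_001_s1 cutB_nil (noExt_B)

noncomputable def cut_B08mm_011_s1 : Cut := Cut.of [[⟨4, 0, 0, 1449551462⟩]]

noncomputable def f_B08mm_011_s1 : ℕ → ℕ → ℕ → ℕ → Bool := onCell 0 536870912 536870912 536870912 649613803 48318383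
    (rowF 1 false false false .pnn 0 1 1 (qsf 0 536870912 536870912 536870912 1) ndB0q0 ndB8q1 pcB1 cut_B08mm_011_s1 Ext.none)

def k0_B08mm_011_s1 : ∃ t, chk3 f_B08mm_011_s1 t 1 1 1 = true :=
  ⟨(l 5), by decide +kernel⟩

theorem c_B08mm_011_s1 : CertF 0 536870912 536870912 536870912 649613803 48318383 false false false .pnn 0 1 1
    ndB0q0 ndB8q1 pcB1 cut_B08mm_011_s1 Ext.none :=
  certF1 (fam := false) (s1 := false) (s2 := false) (a := 0) (b := 1) (c := 1) (cn := .pnn) (n1 := ndB0q0) (n2 := ndB8q1) (pc := pcB1) (cut := cut_B08mm_011_s1) (xt := Ext.none) (P1 := 0) (W1 := 536870912) (P2 := 536870912) (W2 := 536870912) (P3 := 649613803) (W3 := 48318383)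
    rfl (fun _ => rfl) k0_B08mm_011_s1

theorem s_B08mm_011_s1 {κ x : ℝ} (hκ : κ * h0 = ken x) (hx : ((649613803 : ℕ) : ℝ) / S ≤ x)
    (hx' : x ≤ (((649613803 : ℕ) : ℝ) + (48318383 : ℕ)) / S) :
    AltB (VFD κ) PP tK tL pcB [⟨3, 0, 0, 1449551462⟩] 0 1 1 0 8 (sgb false) (sgb false) x :=
  strip_altBD (m := 1449551462) true rfl hκ (SH.κ0 hκ (SH.hx1 hx).le (SH.hx2 hx').le) (SH.hx1 hx).le (SH.hx2 hx') (covB00).cov (covB81).cov hx hx' c_B08mm_011_s1 cutB_nil (noExt_B)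

noncomputable def cut_B08mm_012_s1 : Cut := Cut.of [[⟨4, 0, 0, 1449551462⟩]]

noncomputable def f_B08mm_012_s1 : ℕ → ℕ → ℕ → ℕ → Bool := onCell 0 536870912 1073741824 536870912 649613803 48318383
    (rowF 0 false false false .pnp 0 1 2 (qsf 0 536870912 1073741824 536870912 1) ndB0q0 ndB8q2 pcB1 cut_B08mm_012_s1 Ext.none)

def k0_B08mm_012_s1 : ∃ t, chk3 f_B08mm_012_s1 t 1 1 1 = true :=
  ⟨(l 5), by decide +kernel⟩

theorem c_B08mm_012_s1 : CertF 0 536870912 1073741824 536870912 649613803 48318383 false false false .pnp 0 1 2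
    ndB0q0 ndB8q2 pcB1 cut_B08mm_012_s1 Ext.none :=
  certF0 (fam := false) (s1 := false) (s2 := false) (a := 0) (b := 1) (c := 2) (cn := .pnp) (n1 := ndB0q0) (n2 := ndB8q2) (pc := pcB1) (cut := cut_B08mm_012_s1) (xt := Ext.none) (P1 := 0) (W1 := 536870912) (P2 := 1073741824) (W2 := 536870912) (P3 := 649613803) (W3 := 48318383)
    rfl k0_B08mm_012_s1

theorem s_B08mm_012_s1 {κ x : ℝ} (hκ : κ * h0 = ken x) (hx : ((649613803 : ℕ) : ℝ) / S ≤ x)
    (hx' : x ≤ (((649613803 : ℕ) : ℝ) + (48318383 : ℕ)) / S) :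
    AltB (VFD κ) PP tK tL pcB [⟨3, 0, 0, 1449551462⟩] 0 1 2 0 8 (sgb false) (sgb false) x :=
  strip_altBD (m := 1449551462) true rfl hκ (SH.κ0 hκ (SH.hx1 hx).le (SH.hx2 hx').le) (SH.hx1 hx).le (SH.hx2 hx') (covB00).cov (covB82).cov hx hx' c_B08mm_012_s1 cutB_nil (noExt_B)

noncomputable def cut_B08mm_022_s1 : Cut := Cut.of [[⟨4, 0, 0, 1449551462⟩]]

noncomputable def f_B08mm_022_s1 : ℕ → ℕ → ℕ → ℕ → Bool := onCell 0 536870912 1073741824 536870912 649613803 48318383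
    (rowF 0 false false false .pp 0 2 2 (qsf 0 536870912 1073741824 536870912 2) ndB0q0 ndB8q2 pcB2 cut_B08mm_022_s1 Ext.none)

def k0_B08mm_022_s1 : ∃ t, chk3 f_B08mm_022_s1 t 1 1 1 = true :=
  ⟨(l 5), by decide +kernel⟩

theorem c_B08mm_022_s1 : CertF 0 536870912 1073741824 536870912 649613803 48318383 false false false .pp 0 2 2
    ndB0q0 ndB8q2 pcB2 cut_B08mm_022_s1 Ext.none :=
  certF0 (fam := false) (s1 := false) (s2 := false) (a := 0) (b := 2) (c := 2) (cn := .pp) (n1 := ndB0q0) (n2 := ndB8q2) (pc := pcB2) (cut := cut_B08mm_022_s1) (xt := Ext.none) (P1 := 0) (W1 := 536870912) (P2 := 1073741824) (W2 := 536870912) (P3 := 649613803) (W3 := 48318383)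
    rfl k0_B08mm_022_s1

theorem s_B08mm_022_s1 {κ x : ℝ} (hκ : κ * h0 = ken x) (hx : ((649613803 : ℕ) : ℝ) / S ≤ x)
    (hx' : x ≤ (((649613803 : ℕ) : ℝ) + (48318383 : ℕ)) / S) :
    AltB (VFD κ) PP tK tL pcB [⟨3, 0, 0, 1449551462⟩] 0 2 2 0 8 (sgb false) (sgb false) x :=
  strip_altBD (m := 1449551462) true rfl hκ (SH.κ0 hκ (SH.hx1 hx).le (SH.hx2 hx').le) (SH.hx1 hx).le (SH.hx2 hx') (covB00).cov (covB82).cov hx hx' c_B08mm_022_s1 cutB_nil (noExt_B)

noncomputable def cut_B08mm_023_s1 : Cut := Cut.of [[⟨4, 0, 0, 1449551462⟩]]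

noncomputable def f_B08mm_023_s1 : ℕ → ℕ → ℕ → ℕ → Bool := onCell 0 536870912 0 1230186008 649613803 48318383
    (rowF 0 false false false .up 0 2 3 (qsf 0 536870912 0 1230186008 2) ndB0q0 ndB8q3 pcB2 cut_B08mm_023_s1 Ext.none)

def k0_B08mm_023_s1 : ∃ t, chk3 f_B08mm_023_s1 t 1 1 1 = true :=
  ⟨(l 5), by decide +kernel⟩

theorem c_B08mm_023_s1 : CertF 0 536870912 0 1230186008 649613803 48318383 false false false .up 0 2 3
    ndB0q0 ndB8q3 pcB2 cut_B08mm_023_s1 Ext.none :=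
  certF0 (fam := false) (s1 := false) (s2 := false) (a := 0) (b := 2) (c := 3) (cn := .up) (n1 := ndB0q0) (n2 := ndB8q3) (pc := pcB2) (cut := cut_B08mm_023_s1) (xt := Ext.none) (P1 := 0) (W1 := 536870912) (P2 := 0) (W2 := 1230186008) (P3 := 649613803) (W3 := 48318383)
    rfl k0_B08mm_023_s1

theorem s_B08mm_023_s1 {κ x : ℝ} (hκ : κ * h0 = ken x) (hx : ((649613803 : ℕ) : ℝ) / S ≤ x)
    (hx' : x ≤ (((649613803 : ℕ) : ℝ) + (48318383 : ℕ)) / S) :
    AltB (VFD κ) PP tK tL pcB [⟨3, 0, 0, 1449551462⟩] 0 2 3 0 8 (sgb false) (sgb false) x :=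
  strip_altBD (m := 1449551462) true rfl hκ (SH.κ0 hκ (SH.hx1 hx).le (SH.hx2 hx').le) (SH.hx1 hx).le (SH.hx2 hx') (covB00).cov (covB83).cov hx hx' c_B08mm_023_s1 cutB_nil (noExt_B)

noncomputable def cut_B08mm_033_s1 : Cut := Cut.of [[⟨4, 0, 0, 1449551462⟩]]

noncomputable def f_B08mm_033_s1 : ℕ → ℕ → ℕ → ℕ → Bool := onCell 0 536870912 0 1230186008 649613803 48318383
    (rowF 0 false false false .pnn 0 3 3 (qsf 0 536870912 0 1230186008 3) ndB0q0 ndB8q3 pcB3 cut_B08mm_033_s1 Ext.none)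

def k0_B08mm_033_s1 : ∃ t, chk3 f_B08mm_033_s1 t 1 1 1 = true :=
  ⟨(l 5), by decide +kernel⟩

theorem c_B08mm_033_s1 : CertF 0 536870912 0 1230186008 649613803 48318383 false false false .pnn 0 3 3
    ndB0q0 ndB8q3 pcB3 cut_B08mm_033_s1 Ext.none :=
  certF0 (fam := false) (s1 := false) (s2 := false) (a := 0) (b := 3) (c := 3) (cn := .pnn) (n1 := ndB0q0) (n2 := ndB8q3) (pc := pcB3) (cut := cut_B08mm_033_s1) (xt := Ext.none) (P1 := 0) (W1 := 536870912) (P2 := 0) (W2 := 1230186008) (P3 := 649613803) (W3 := 48318383)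
    rfl k0_B08mm_033_s1

theorem s_B08mm_033_s1 {κ x : ℝ} (hκ : κ * h0 = ken x) (hx : ((649613803 : ℕ) : ℝ) / S ≤ x)
    (hx' : x ≤ (((649613803 : ℕ) : ℝ) + (48318383 : ℕ)) / S) :
    AltB (VFD κ) PP tK tL pcB [⟨3, 0, 0, 1449551462⟩] 0 3 3 0 8 (sgb false) (sgb false) x :=
  strip_altBD (m := 1449551462) true rfl hκ (SH.κ0 hκ (SH.hx1 hx).le (SH.hx2 hx').le) (SH.hx1 hx).le (SH.hx2 hx') (covB00).cov (covB83).cov hx hx' c_B08mm_033_s1 cutB_nil (noExt_B)

noncomputable def cut_B08mm_101_s1 : Cut := Cut.of [[⟨4, 0, 0, 1449551462⟩], [⟨0, 1, 0, 67108864⟩, ⟨1, 0, 0, 67108864⟩, ⟨2, 1, 0, 67108864⟩]]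

noncomputable def f_B08mm_101_s1 : ℕ → ℕ → ℕ → ℕ → Bool := onCell 536870912 536870912 0 536870912 649613803 48318383
    (rowF 1 false false false .npn 1 0 1 (qsf 536870912 536870912 536870912 536870912 0) ndB0q1 ndB8q1 pcB0 cut_B08mm_101_s1 Ext.none)

def k0_B08mm_101_s1 : ∃ t, chk3 f_B08mm_101_s1 t 1 1 1 = true :=
  ⟨(a (l 3) (b (a (l 3) (b (a (l 3) (b (a (l 3) (b (l 14) (l 3))) (l 3))) (l 3))) (l 3))), by decide +kernel⟩

theorem c_B08mm_101_s1 : CertF 536870912 536870912 536870912 536870912 649613803 48318383 false false false .npn 1 0 1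
    ndB0q1 ndB8q1 pcB0 cut_B08mm_101_s1 Ext.none :=
  certF1 (fam := false) (s1 := false) (s2 := false) (a := 1) (b := 0) (c := 1) (cn := .npn) (n1 := ndB0q1) (n2 := ndB8q1) (pc := pcB0) (cut := cut_B08mm_101_s1) (xt := Ext.none) (P1 := 536870912) (W1 := 536870912) (P2 := 536870912) (W2 := 536870912) (P3 := 649613803) (W3 := 48318383)
    rfl (fun _ => rfl) k0_B08mm_101_s1

theorem s_B08mm_101_s1 {κ x : ℝ} (hκ : κ * h0 = ken x) (hx : ((649613803 : ℕ) : ℝ) / S ≤ x)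
    (hx' : x ≤ (((649613803 : ℕ) : ℝ) + (48318383 : ℕ)) / S)
    (H : CutB (VFD κ) PP tK tL pcB (Cut.of [[⟨0, 1, 0, 67108864⟩, ⟨1, 0, 0, 67108864⟩, ⟨2, 1, 0, 67108864⟩]]) 1 0 1 0 8 (sgb false) (sgb false) x) :
    AltB (VFD κ) PP tK tL pcB [⟨3, 0, 0, 1449551462⟩] 1 0 1 0 8 (sgb false) (sgb false) x :=
  strip_altBD (m := 1449551462) true rfl hκ (SH.κ0 hκ (SH.hx1 hx).le (SH.hx2 hx').le) (SH.hx1 hx).le (SH.hx2 hx') (covB01).cov (covB81).cov hx hx' c_B08mm_101_s1 H (noExt_B)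

noncomputable def cut_B08mm_102_s1 : Cut := Cut.of [[⟨4, 0, 0, 1449551462⟩], [⟨0, 1, 0, 67108864⟩, ⟨1, 0, 0, 67108864⟩, ⟨2, 1, 0, 67108864⟩]]

noncomputable def f_B08mm_102_s1 : ℕ → ℕ → ℕ → ℕ → Bool := onCell 536870912 536870912 0 536870912 649613803 48318383
    (rowF 1 false false false .npp 1 0 2 (qsf 536870912 536870912 1073741824 536870912 0) ndB0q1 ndB8q2 pcB0 cut_B08mm_102_s1 Ext.none)

def k0_B08mm_102_s1 : ∃ t, chk3 f_B08mm_102_s1 t 1 1 1 = true :=
  ⟨(a (l 3) (b (a (l 3) (a (l 3) (a (l 3) (b (b (b (l 14) (l 3)) (l 3)) (l 3))))) (l 3))), by decide +kernel⟩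

theorem c_B08mm_102_s1 : CertF 536870912 536870912 1073741824 536870912 649613803 48318383 false false false .npp 1 0 2
    ndB0q1 ndB8q2 pcB0 cut_B08mm_102_s1 Ext.none :=
  certF1 (fam := false) (s1 := false) (s2 := false) (a := 1) (b := 0) (c := 2) (cn := .npp) (n1 := ndB0q1) (n2 := ndB8q2) (pc := pcB0) (cut := cut_B08mm_102_s1) (xt := Ext.none) (P1 := 536870912) (W1 := 536870912) (P2 := 1073741824) (W2 := 536870912) (P3 := 649613803) (W3 := 48318383)
    rfl (fun _ => rfl) k0_B08mm_102_s1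

theorem s_B08mm_102_s1 {κ x : ℝ} (hκ : κ * h0 = ken x) (hx : ((649613803 : ℕ) : ℝ) / S ≤ x)
    (hx' : x ≤ (((649613803 : ℕ) : ℝ) + (48318383 : ℕ)) / S)
    (H : CutB (VFD κ) PP tK tL pcB (Cut.of [[⟨0, 1, 0, 67108864⟩, ⟨1, 0, 0, 67108864⟩, ⟨2, 1, 0, 67108864⟩]]) 1 0 2 0 8 (sgb false) (sgb false) x) :
    AltB (VFD κ) PP tK tL pcB [⟨3, 0, 0, 1449551462⟩] 1 0 2 0 8 (sgb false) (sgb false) x :=
  strip_altBD (m := 1449551462) true rfl hκ (SH.κ0 hκ (SH.hx1 hx).le (SH.hx2 hx').le) (SH.hx1 hx).le (SH.hx2 hx') (covB01).cov (covB82).cov hx hx' c_B08mm_102_s1 H (noExt_B)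

noncomputable def cut_B08mm_112_s1 : Cut := Cut.of [[⟨4, 0, 0, 1449551462⟩]]

noncomputable def f_B08mm_112_s1 : ℕ → ℕ → ℕ → ℕ → Bool := onCell 536870912 536870912 1073741824 536870912 649613803 48318383
    (rowF 2 false false false .dn 1 1 2 (qsf 536870912 536870912 1073741824 536870912 1) ndB0q1 ndB8q2 pcB1 cut_B08mm_112_s1 Ext.none)

def k0_B08mm_112_s1 : ∃ t, chk3 f_B08mm_112_s1 t 1 1 1 = true :=
  ⟨(a (l 3) (l 5)), by decide +kernel⟩

theorem c_B08mm_112_s1 : CertF 536870912 536870912 1073741824 536870912 649613803 48318383 false false false .dn 1 1 2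
    ndB0q1 ndB8q2 pcB1 cut_B08mm_112_s1 Ext.none :=
  certF2 (fam := false) (s1 := false) (s2 := false) (a := 1) (b := 1) (c := 2) (cn := .dn) (n1 := ndB0q1) (n2 := ndB8q2) (pc := pcB1) (cut := cut_B08mm_112_s1) (xt := Ext.none) (P1 := 536870912) (W1 := 536870912) (P2 := 1073741824) (W2 := 536870912) (P3 := 649613803) (W3 := 48318383)
    rfl (fun _ => rfl) k0_B08mm_112_s1

theorem s_B08mm_112_s1 {κ x : ℝ} (hκ : κ * h0 = ken x) (hx : ((649613803 : ℕ) : ℝ) / S ≤ x)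
    (hx' : x ≤ (((649613803 : ℕ) : ℝ) + (48318383 : ℕ)) / S) :
    AltB (VFD κ) PP tK tL pcB [⟨3, 0, 0, 1449551462⟩] 1 1 2 0 8 (sgb false) (sgb false) x :=
  strip_altBD (m := 1449551462) true rfl hκ (SH.κ0 hκ (SH.hx1 hx).le (SH.hx2 hx').le) (SH.hx1 hx).le (SH.hx2 hx') (covB01).cov (covB82).cov hx hx' c_B08mm_112_s1 cutB_nil (noExt_B)

noncomputable def cut_B08mm_113_s1 : Cut := Cut.of [[⟨4, 0, 0, 1449551462⟩]]

noncomputable def f_B08mm_113_s1 : ℕ → ℕ → ℕ → ℕ → Bool := onCell 536870912 536870912 0 1230186008 649613803 48318383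
    (rowF 0 false false false .nn 1 1 3 (qsf 536870912 536870912 0 1230186008 1) ndB0q1 ndB8q3 pcB1 cut_B08mm_113_s1 Ext.none)

def k0_B08mm_113_s1 : ∃ t, chk3 f_B08mm_113_s1 t 1 1 1 = true :=
  ⟨(b (l 5) (a (l 5) (b (a (l 5) (l 3)) (l 3)))), by decide +kernel⟩

theorem c_B08mm_113_s1 : CertF 536870912 536870912 0 1230186008 649613803 48318383 false false false .nn 1 1 3
    ndB0q1 ndB8q3 pcB1 cut_B08mm_113_s1 Ext.none :=
  certF0 (fam := false) (s1 := false) (s2 := false) (a := 1) (b := 1) (c := 3) (cn := .nn) (n1 := ndB0q1) (n2 := ndB8q3) (pc := pcB1) (cut := cut_B08mm_113_s1) (xt := Ext.none) (P1 := 536870912) (W1 := 536870912) (P2 := 0) (W2 := 1230186008) (P3 := 649613803) (W3 := 48318383)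
    rfl k0_B08mm_113_s1

theorem s_B08mm_113_s1 {κ x : ℝ} (hκ : κ * h0 = ken x) (hx : ((649613803 : ℕ) : ℝ) / S ≤ x)
    (hx' : x ≤ (((649613803 : ℕ) : ℝ) + (48318383 : ℕ)) / S) :
    AltB (VFD κ) PP tK tL pcB [⟨3, 0, 0, 1449551462⟩] 1 1 3 0 8 (sgb false) (sgb false) x :=
  strip_altBD (m := 1449551462) true rfl hκ (SH.κ0 hκ (SH.hx1 hx).le (SH.hx2 hx').le) (SH.hx1 hx).le (SH.hx2 hx') (covB01).cov (covB83).cov hx hx' c_B08mm_113_s1 cutB_nil (noExt_B)

noncomputable def cut_B08mm_123_s1 : Cut := Cut.of [[⟨4, 0, 0, 1449551462⟩]]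

noncomputable def f_B08mm_123_s1 : ℕ → ℕ → ℕ → ℕ → Bool := onCell 1073741824 536870912 0 1230186008 649613803 48318383
    (rowF 2 false false false .npn 1 2 3 (qsf 536870912 536870912 0 1230186008 2) ndB0q1 ndB8q3 pcB2 cut_B08mm_123_s1 Ext.none)

def k0_B08mm_123_s1 : ∃ t, chk3 f_B08mm_123_s1 t 1 1 1 = true :=
  ⟨(b (l 5) (l 5)), by decide +kernel⟩

theorem c_B08mm_123_s1 : CertF 536870912 536870912 0 1230186008 649613803 48318383 false false false .npn 1 2 3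
    ndB0q1 ndB8q3 pcB2 cut_B08mm_123_s1 Ext.none :=
  certF2 (fam := false) (s1 := false) (s2 := false) (a := 1) (b := 2) (c := 3) (cn := .npn) (n1 := ndB0q1) (n2 := ndB8q3) (pc := pcB2) (cut := cut_B08mm_123_s1) (xt := Ext.none) (P1 := 536870912) (W1 := 536870912) (P2 := 0) (W2 := 1230186008) (P3 := 649613803) (W3 := 48318383)
    rfl (fun _ => rfl) k0_B08mm_123_s1

theorem s_B08mm_123_s1 {κ x : ℝ} (hκ : κ * h0 = ken x) (hx : ((649613803 : ℕ) : ℝ) / S ≤ x)
    (hx' : x ≤ (((649613803 : ℕ) : ℝ) + (48318383 : ℕ)) / S) :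
    AltB (VFD κ) PP tK tL pcB [⟨3, 0, 0, 1449551462⟩] 1 2 3 0 8 (sgb false) (sgb false) x :=
  strip_altBD (m := 1449551462) true rfl hκ (SH.κ0 hκ (SH.hx1 hx).le (SH.hx2 hx').le) (SH.hx1 hx).le (SH.hx2 hx') (covB01).cov (covB83).cov hx hx' c_B08mm_123_s1 cutB_nil (noExt_B)

noncomputable def cut_B08mm_133_s1 : Cut := Cut.of [[⟨4, 0, 0, 1449551462⟩]]

noncomputable def f_B08mm_133_s1 : ℕ → ℕ → ℕ → ℕ → Bool := onCell 1610612736 536870912 0 1230186008 649613803 48318383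
    (rowF 2 false false false .dn 1 3 3 (qsf 536870912 536870912 0 1230186008 3) ndB0q1 ndB8q3 pcB3 cut_B08mm_133_s1 Ext.none)

def k0_B08mm_133_s1 : ∃ t, chk3 f_B08mm_133_s1 t 1 1 1 = true :=
  ⟨(l 5), by decide +kernel⟩

theorem c_B08mm_133_s1 : CertF 536870912 536870912 0 1230186008 649613803 48318383 false false false .dn 1 3 3
    ndB0q1 ndB8q3 pcB3 cut_B08mm_133_s1 Ext.none :=
  certF2 (fam := false) (s1 := false) (s2 := false) (a := 1) (b := 3) (c := 3) (cn := .dn) (n1 := ndB0q1) (n2 := ndB8q3) (pc := pcB3) (cut := cut_B08mm_133_s1) (xt := Ext.none) (P1 := 536870912) (W1 := 536870912) (P2 := 0) (W2 := 1230186008) (P3 := 649613803) (W3 := 48318383)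
    rfl (fun _ => rfl) k0_B08mm_133_s1

theorem s_B08mm_133_s1 {κ x : ℝ} (hκ : κ * h0 = ken x) (hx : ((649613803 : ℕ) : ℝ) / S ≤ x)
    (hx' : x ≤ (((649613803 : ℕ) : ℝ) + (48318383 : ℕ)) / S) :
    AltB (VFD κ) PP tK tL pcB [⟨3, 0, 0, 1449551462⟩] 1 3 3 0 8 (sgb false) (sgb false) x :=
  strip_altBD (m := 1449551462) true rfl hκ (SH.κ0 hκ (SH.hx1 hx).le (SH.hx2 hx').le) (SH.hx1 hx).le (SH.hx2 hx') (covB01).cov (covB83).cov hx hx' c_B08mm_133_s1 cutB_nil (noExt_B)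

noncomputable def cut_B08mm_202_s1 : Cut := Cut.of [[⟨4, 0, 0, 1449551462⟩], [⟨0, 1, 0, 53687091⟩, ⟨1, 0, 0, 53687091⟩, ⟨2, 1, 0, 53687091⟩]]

noncomputable def xt_B08mm_202_s1 : Ext := strExt6 dd false false false .u2 .s2m .u0m .pp 2 0 2 rfl rfl gf0 vv ww ndB0q2 ndB8q2

noncomputable def f_B08mm_202_s1 : ℕ → ℕ → ℕ → ℕ → Bool := onCell 0 536870912 0 536870912 649613803 48318383
    (rowF 1 false false false .pp 2 0 2 (qsf 0 536870912 1073741824 536870912 0) ndB0q2 ndB8q2 pcB0 cut_B08mm_202_s1 xt_B08mm_202_s1)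

def k0_B08mm_202_s1 : ∃ t, chk3 f_B08mm_202_s1 t 2 1 1 = true :=
  ⟨(b (b (a (l 6) (b (b (l 6) (a (l 6) (l 16584008))) (a (b (l 6) (l 16539888)) (b (l 16536736) (a (l 16560256) (b (l 16572200) (a (l 16582016) (l 16593656)))))))) (a (a (l 6) (b (l 6) (a (l 6) (b (l 16611216) (l 16629432))))) (b (a (b (l 16525864) (a (l 16507152) (b (l 16597104) (l 16610976)))) (b (a (b (l 16582760) (l 16598024)) (b (l 16603312) (l 16616368))) (a (l 16617264) (b (l 16633624) (l 16649328))))) (a (b (a (l 16619592) (l 16628968)) (a (l 16645608) (l 16659760))) (b (a (b (l 16642424) (l 16656136)) (b (l 16663840) (l 16677736))) (a (b (l 16669544) (l 16681984)) (a (l 16692608) (l 16716144)))))))) (b (b (a (a (b (l 6) (l 16659944)) (b (a (l 16650720) (l 16660800)) (a (l 16675880) (l 16682720)))) (a (a (b (l 16670360) (b (l 16686912) (l 16697240))) (b (b (l 16677456) (l 16688520)) (l 16728376))) (b (a (b (l 16611584) (l 16707624)) (b (l 16718304)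 (a (l 16724448) (a (l 16734040) (l 16741176))))) (a (a (l 16719808) (b (l 16724616) (l 16736256))) (a (b (l 16778448) (b (l 16746488) (l 16753120))) (b (a (l 16768384) (l 16775768)) (l 1064938511))))))) (a (b (a (a (l 16685400) (l 16691984)) (a (l 16696696) (l 16703336))) (b (a (l 16706376) (l 16809264)) (l 2))) (a (b (a (l 16716160) (b (l 16723424) (l 16755096))) (a (l 163309466151) (b (a (l 16743376) (l 16752952)) (a (l 16754984) (l 228270806199))))) (a (b (a (b (l 16737144) (l 16771704)) (b (a (l 16746200) (l 16752840)) (l 1066303503))) (b (l 1067108879) (l 1067588623))) (b (a (l 1065636367) (l 1065174031)) (a (l 1066618383) (l 3))))))) (a (l 2) (a (l 2) (a (l 2) (l 3)))))), by decide +kernel⟩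

def k1_B08mm_202_s1 : ∃ t, chk3 f_B08mm_202_s1 t 6 4 1 = true :=
  ⟨(b (a (b (a (l 16496032) (l 16525784)) (a (l 16536072) (l 16566144))) (b (a (l 16475088) (b (l 16584056) (l 16605960))) (a (l 16683880) (b (l 16626880) (a (l 16659136) (b (l 16652640) (l 16660568))))))) (a (b (a (l 16572440) (b (l 16594000) (b (l 16596712) (l 16615464)))) (a (b (a (l 16590424) (l 16604504)) (l 16613312)) (b (a (l 16619648) (l 16635896)) (a (l 16635328) (l 16651744))))) (b (a (b (a (l 16619808) (b (l 16632624) (l 16641216))) (a (l 16636400) (l 16822208))) (b (b (a (l 16650688) (l 16669592)) (a (l 16659512) (l 16678416))) (a (a (l 16583872) (l 16593056)) (a (l 16686272) (l 16695944))))) (a (b (a (l 16569040) (b (l 16666536) (l 16674672))) (a (l 16668928) (l 16686576))) (a (b (l 16688952) (b (l 16701016) (l 16708880))) (b (b (l 16703800) (l 16711992)) (l 16765888))))))), by decide +kernel⟩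

def k2_B08mm_202_s1 : ∃ t, chk3 f_B08mm_202_s1 t 14 8 1 = true :=
  ⟨(b (a (b (l 16580848) (l 16645280)) (b (a (l 16654088) (b (l 16670312) (l 16682344))) (a (l 16720464) (b (l 16694032) (b (l 16787424) (a (l 16702176) (l 16713088))))))) (a (b (b (l 16704616) (a (l 16662824) (l 16702808))) (a (b (l 16671040) (l 16681000)) (b (l 16692032) (a (l 16695008) (l 16704800))))) (a (b (b (b (l 16691552) (l 16695280)) (a (l 16697200) (l 16708776))) (b (a (l 16622400) (l 16674536)) (a (l 16715216) (l 16725816)))) (b (b (a (l 16792696) (l 16741880)) (a (a (l 16631696) (l 16678800)) (l 16728944))) (b (a (l 16727288) (b (l 16735992) (l 16740336))) (a (l 16736320) (l 16746984))))))), by decide +kernel⟩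

def k3_B08mm_202_s1 : ∃ t, chk3 f_B08mm_202_s1 t 15 8 1 = true :=
  ⟨(b (a (b (a (b (l 14) (l 16747800)) (l 14)) (a (b (a (l 16796760) (b (l 16721992) (a (l 16723208) (l 16729016)))) (b (a (l 16719400) (l 16731752)) (a (l 16725208) (a (l 16732592) (l 16738104))))) (a (b (b (l 14) (a (l 16734760) (l 16783184))) (b (a (l 16739280) (l 16744992)) (l 16768496))) (b (l 14) (b (a (l 16772568) (l 14)) (a (l 16755352) (l 16761168))))))) (b (l 14) (a (a (b (l 14) (a (b (l 14) (a (l 16765536) (b (l 14) (l 16769576)))) (l 14))) (l 14)) (l 14)))) (a (a (b (a (b (b (l 16686736) (l 16733296)) (b (l 16695952) (l 16742416))) (b (b (l 16739952) (l 16766232)) (b (l 16748912) (l 16753536)))) (a (b (a (l 16746168) (l 16751872)) (a (l 16755328) (b (l 16758632) (l 16763088)))) (b (a (l 16757464) (b (l 16771624) (l 16775776))) (a (b (l 16774656) (l 16773576)) (b (a (l 16768160) (l 16770808)) (l 1061781007)))))) (b (a (b (b (a (l 16748600)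 (l 16754080)) (l 16776648)) (a (b (l 16757512) (l 16772800)) (b (l 16774000) (a (l 16766296) (l 16774208))))) (b (a (b (l 16759920) (a (l 16763016) (l 16765968))) (b (a (l 16764264) (b (l 16766032) (l 16768312))) (a (l 16773960) (b (l 16770400) (l 16772520))))) (a (b (b (l 16778280) (l 16775112)) (l 1061414927)) (l 1061318159)))) (a (b (a (b (a (l 16765128) (l 16767784)) (l 1061621263)) (l 1061528079)) (l 1061619727)) (a (l 1061482511) (l 3))))) (a (b (a (b (a (b (a (b (l 16768944) (l 16771032)) (b (l 16776912) (l 1061242383))) (l 1061231119)) (l 1061130255)) (a (l 1061231119) (l 3))) (l 3)) (l 3)) (l 3)))), by decide +kernel⟩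

def k4_B08mm_202_s1 : ∃ t, chk3 f_B08mm_202_s1 t 7 9 1 = true :=
  ⟨(a (b (a (a (b (b (l 16605064) (l 16613624)) (b (l 16706288) (l 16714912))) (b (b (l 16708784) (a (l 16712504) (l 16722760))) (b (l 16726224) (l 16734736)))) (a (b (a (b (l 16724272) (l 16732832)) (b (l 16734520) (l 16743400))) (a (b (l 16741632) (l 16750288)) (b (l 16773224) (b (l 16778920) (l 16772136))))) (b (a (b (l 16745216) (a (l 16751376) (l 16767384))) (b (a (l 16753320) (b (l 16756552) (l 16761008))) (a (b (l 16759992) (l 16763904)) (b (l 16765112) (l 16774168))))) (a (b (a (l 16770216) (a (l 16773880) (l 16776384))) (l 1061587471)) (l 1061561871))))) (a (a (b (b (l 16723168) (l 16731464)) (a (l 16780440) (b (l 16743928) (a (l 16748168) (l 16773744))))) (b (a (l 16763288) (b (l 16748344) (a (l 16752520) (l 16778312)))) (a (b (l 16763080) (b (l 16779128) (l 16773352))) (b (a (l 16760048) (l 1061188623)) (l 1061180943))))) (a (b (a (b (a (l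 16754928) (l 16770304)) (a (l 16773016) (l 1061316111))) (l 1061334543)) (l 1060956175)) (a (b (l 1061169679) (l 3)) (l 3))))) (a (b (a (b (a (b (a (b (l 16762040) (l 16766184)) (b (l 16777728) (l 1061979663))) (l 1061801487)) (l 1062306831)) (a (l 1061386767) (l 3))) (l 3)) (l 3)) (l 3))), by decide +kernel⟩

def k5_B08mm_202_s1 : ∃ t, chk3 f_B08mm_202_s1 t 3 5 1 = true :=
  ⟨(a (b (a (b (a (b (a (l 16621792) (l 16635696)) (l 16644584)) (b (a (l 16651288) (l 16667536)) (a (l 16666992) (l 16683368)))) (a (a (l 16660664) (b (l 16667312) (l 16682632))) (b (a (l 16682648) (l 16699440)) (a (l 16698624) (l 16715128))))) (b (a (b (a (l 16684672) (l 16702376)) (b (l 16705616) (l 16797584))) (a (b (l 16720832) (b (l 16732752) (a (l 16736088) (l 16787304)))) (b (b (l 16735728) (a (l 16738864) (l 16748424))) (a (b (l 16746816) (l 16765376)) (b (l 16766952) (l 1062817295)))))) (a (a (b (l 16716616) (a (l 16728048) (l 16736744)))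 (b (a (l 16729880) (b (l 16734920) (l 16742832))) (a (b (l 16741720) (l 16791552)) (b (l 16792744) (l 16779440))))) (a (b (a (b (l 16744040) (a (l 16749736) (l 16754352))) (b (l 16753432) (l 16782256))) (l 1063378447)) (l 1063025167))))) (a (b (a (b (l 16774552) (a (l 16698320) (l 16712760))) (a (b (l 16713808) (l 16728592)) (b (l 16730552) (a (l 16782880) (b (l 16746016) (l 16753296)))))) (a (b (l 16719200) (a (l 16725536) (b (l 16778856) (l 16744216)))) (a (b (b (l 16780936) (l 16748808)) (a (b (l 16749312) (l 16756376)) (l 1064162319))) (b (a (b (l 16751856) (l 16758832)) (l 1064027663)) (l 1063911951))))) (a (b (b (a (b (l 16785896) (a (l 16747256) (l 16755888))) (l 1063757327)) (a (a (b (l 16754616) (l 16761808)) (l 1063948303)) (l 1063709711))) (a (l 1063744015) (l 3))) (b (a (l 1063420431) (l 3)) (l 3))))) (b (a (a (b (a (b (a (b (l 16749944) (l 16768688)) (b (a (l 16756952) (l 16762016)) (l 1062523919))) (l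 1062583823)) (b (l 1062209551) (l 1062309903))) (a (l 1062703631) (l 3))) (l 3)) (l 3)) (l 3))), by decide +kernel⟩

def k6_B08mm_202_s1 : ∃ t, chk3 f_B08mm_202_s1 t 3 3 1 = true :=
  ⟨(b (a (a (b (a (b (b (a (b (l 16735464) (l 16742392)) (b (a (l 16747312) (l 16755256)) (l 1064463887))) (a (b (l 16770432) (l 16777184)) (l 1064324111))) (b (l 1064374799) (l 1064277007))) (b (a (b (l 1064086543) (l 1063886863)) (b (l 1063659535) (l 3))) (l 3))) (l 3)) (l 3)) (l 3)) (l 3)), by decide +kernel⟩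

theorem t7_B08mm_202_s1 : ∃ t, chk3 f_B08mm_202_s1 t 7 8 1 = true := ex3_a k2_B08mm_202_s1 k3_B08mm_202_s1

theorem t8_B08mm_202_s1 : ∃ t, chk3 f_B08mm_202_s1 t 7 4 1 = true := ex3_b t7_B08mm_202_s1 k4_B08mm_202_s1

theorem t9_B08mm_202_s1 : ∃ t, chk3 f_B08mm_202_s1 t 3 4 1 = true := ex3_a k1_B08mm_202_s1 t8_B08mm_202_s1

theorem t10_B08mm_202_s1 : ∃ t, chk3 f_B08mm_202_s1 t 3 2 1 = true := ex3_b t9_B08mm_202_s1 k5_B08mm_202_s1

theorem t11_B08mm_202_s1 : ∃ t, chk3 f_B08mm_202_s1 t 3 1 1 = true := ex3_b t10_B08mm_202_s1 k6_B08mm_202_s1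

theorem t12_B08mm_202_s1 : ∃ t, chk3 f_B08mm_202_s1 t 1 1 1 = true := ex3_a k0_B08mm_202_s1 t11_B08mm_202_s1

theorem c_B08mm_202_s1 : CertF 0 536870912 1073741824 536870912 649613803 48318383 false false false .pp 2 0 2
    ndB0q2 ndB8q2 pcB0 cut_B08mm_202_s1 xt_B08mm_202_s1 :=
  certF1 (fam := false) (s1 := false) (s2 := false) (a := 2) (b := 0) (c := 2) (cn := .pp) (n1 := ndB0q2) (n2 := ndB8q2) (pc := pcB0) (cut := cut_B08mm_202_s1) (xt := xt_B08mm_202_s1) (P1 := 0) (W1 := 536870912) (P2 := 1073741824) (W2 := 536870912) (P3 := 649613803) (W3 := 48318383)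
    rfl (fun _ => rfl) t12_B08mm_202_s1

theorem s_B08mm_202_s1 {κ x : ℝ} (hκ : κ * h0 = ken x) (hx : ((649613803 : ℕ) : ℝ) / S ≤ x)
    (hx' : x ≤ (((649613803 : ℕ) : ℝ) + (48318383 : ℕ)) / S)
    (H : CutB (VFD κ) PP tK tL pcB (Cut.of [[⟨0, 1, 0, 53687091⟩, ⟨1, 0, 0, 53687091⟩, ⟨2, 1, 0, 53687091⟩]]) 2 0 2 0 8 (sgb false) (sgb false) x) :
    AltB (VFD κ) PP tK tL pcB [⟨3, 0, 0, 1449551462⟩] 2 0 2 0 8 (sgb false) (sgb false) x :=
  strip_altBD (m := 1449551462) true rfl hκ (SH.κ0 hκ (SH.hx1 hx).le (SH.hx2 hx').le) (SH.hx1 hx).le (SH.hx2 hx') (covB02).cov (covB82).cov hx hx' c_B08mm_202_s1 H ((okx6 hx hx').extB (T := tt) (okx hx hx') (sideB hx hx') hκ rfl rfl (.O 2 false) (.N 2 false) (Or.inl rfl))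

noncomputable def cut_B08mm_203_s1 : Cut := Cut.of [[⟨4, 0, 0, 1449551462⟩]]

noncomputable def xt_B08mm_203_s1 : Ext := strExt6 dd false false false .u2 .s2m .u0m .up 2 0 3 rfl rfl gf0 vv ww ndB0q2 ndB8q3

noncomputable def f_B08mm_203_s1 : ℕ → ℕ → ℕ → ℕ → Bool := onCell 0 536870912 0 1230186008 649613803 48318383
    (rowF 0 false false false .up 2 0 3 (qsf 0 536870912 0 1230186008 0) ndB0q2 ndB8q3 pcB0 cut_B08mm_203_s1 xt_B08mm_203_s1)

def k0_B08mm_203_s1 : ∃ t, chk3 f_B08mm_203_s1 t 1 1 1 = true :=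
  ⟨(b (l 2) (b (l 2) (a (b (a (b (l 2) (b (l 2) (a (a (l 218070216903) (a (b (l 16773368) (l 16771928)) (b (l 16774544) (l 16773904)))) (a (l 1072814095) (l 3))))) (l 3)) (a (b (a (a (b (l 16766728) (l 16753816)) (b (b (l 16768136) (l 16767720)) (l 16759168))) (a (b (a (b (l 16773888) (l 16770704)) (b (l 1072834575) (l 16773464))) (a (l 16763848) (b (l 16769536) (l 16764096)))) (b (l 1072731151) (a (b (l 16772728) (l 16767912)) (l 1072240655))))) (a (b (l 16734208) (a (l 16712048) (l 16716744))) (a (b (l 16749136) (l 16804776)) (b (b (a (l 16760392) (l 16765616)) (l 16751352)) (l 16736432))))) (a (b (b (l 3) (a (a (l 1072211471) (l 1071925263)) (l 3))) (b (a (a (b (l 1071640591) (l 16763064)) (l 1073121295)) (b (l 1071056399) (l 1070211599))) (a (b (a (l 16751512) (l 16759920)) (l 16783488)) (a (b (l 1069484047) (l 16778088)) (l 1068755471))))) (b (l 3) (a (b (l 3) (b (l 3) (l 1068051983))) (l 3)))))) (l 3)))), by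 decide +kernel⟩

theorem c_B08mm_203_s1 : CertF 0 536870912 0 1230186008 649613803 48318383 false false false .up 2 0 3
    ndB0q2 ndB8q3 pcB0 cut_B08mm_203_s1 xt_B08mm_203_s1 :=
  certF0 (fam := false) (s1 := false) (s2 := false) (a := 2) (b := 0) (c := 3) (cn := .up) (n1 := ndB0q2) (n2 := ndB8q3) (pc := pcB0) (cut := cut_B08mm_203_s1) (xt := xt_B08mm_203_s1) (P1 := 0) (W1 := 536870912) (P2 := 0) (W2 := 1230186008) (P3 := 649613803) (W3 := 48318383)
    rfl k0_B08mm_203_s1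

theorem s_B08mm_203_s1 {κ x : ℝ} (hκ : κ * h0 = ken x) (hx : ((649613803 : ℕ) : ℝ) / S ≤ x)
    (hx' : x ≤ (((649613803 : ℕ) : ℝ) + (48318383 : ℕ)) / S) :
    AltB (VFD κ) PP tK tL pcB [⟨3, 0, 0, 1449551462⟩] 2 0 3 0 8 (sgb false) (sgb false) x :=
  strip_altBD (m := 1449551462) true rfl hκ (SH.κ0 hκ (SH.hx1 hx).le (SH.hx2 hx').le) (SH.hx1 hx).le (SH.hx2 hx') (covB02).cov (covB83).cov hx hx' c_B08mm_203_s1 cutB_nil ((okx6 hx hx').extB (T := tt) (okx hx hx') (sideB hx hx') hκ rfl rfl (.O 2 false) (.N 3 false) (Or.inl rfl))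

noncomputable def cut_B08mm_213_s1 : Cut := Cut.of [[⟨4, 0, 0, 1449551462⟩]]

noncomputable def xt_B08mm_213_s1 : Ext := strExt6 dd false false false .u2 .s2m .u0m .pnn 2 1 3 rfl rfl gf1 vv ww ndB0q2 ndB8q3

noncomputable def f_B08mm_213_s1 : ℕ → ℕ → ℕ → ℕ → Bool := onCell 0 536870912 0 1230186008 649613803 48318383
    (rowF 0 false false false .pnn 2 1 3 (qsf 0 536870912 0 1230186008 1) ndB0q2 ndB8q3 pcB1 cut_B08mm_213_s1 xt_B08mm_213_s1)

def k0_B08mm_213_s1 : ∃ t, chk3 f_B08mm_213_s1 t 1 1 1 = true :=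
  ⟨(b (a (l 3) (b (l 5) (l 3))) (b (b (l 3) (b (l 3) (a (l 3) (l 3)))) (a (b (a (b (a (a (b (l 1073512463) (a (b (l 16775672) (l 16772584)) (l 1073124879))) (l 1073801231)) (l 3)) (a (a (b (a (b (l 16768696) (l 16763784)) (b (l 16772248) (l 16766352))) (a (l 16753272) (b (l 16761712) (l 1)))) (b (l 1072397839) (b (a (l 16722120) (l 16770576)) (l 1)))) (a (b (l 1072605199) (l 1071291407)) (b (l 3) (l 3))))) (l 3)) (a (l 1) (b (a (l 1) (l 3)) (l 1)))) (l 3)))), by decide +kernel⟩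

theorem c_B08mm_213_s1 : CertF 0 536870912 0 1230186008 649613803 48318383 false false false .pnn 2 1 3
    ndB0q2 ndB8q3 pcB1 cut_B08mm_213_s1 xt_B08mm_213_s1 :=
  certF0 (fam := false) (s1 := false) (s2 := false) (a := 2) (b := 1) (c := 3) (cn := .pnn) (n1 := ndB0q2) (n2 := ndB8q3) (pc := pcB1) (cut := cut_B08mm_213_s1) (xt := xt_B08mm_213_s1) (P1 := 0) (W1 := 536870912) (P2 := 0) (W2 := 1230186008) (P3 := 649613803) (W3 := 48318383)
    rfl k0_B08mm_213_s1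

theorem s_B08mm_213_s1 {κ x : ℝ} (hκ : κ * h0 = ken x) (hx : ((649613803 : ℕ) : ℝ) / S ≤ x)
    (hx' : x ≤ (((649613803 : ℕ) : ℝ) + (48318383 : ℕ)) / S) :
    AltB (VFD κ) PP tK tL pcB [⟨3, 0, 0, 1449551462⟩] 2 1 3 0 8 (sgb false) (sgb false) x :=
  strip_altBD (m := 1449551462) true rfl hκ (SH.κ0 hκ (SH.hx1 hx).le (SH.hx2 hx').le) (SH.hx1 hx).le (SH.hx2 hx') (covB02).cov (covB83).cov hx hx' c_B08mm_213_s1 cutB_nil ((okx6 hx hx').extB (T := tt) (okx hx hx') (sideB hx hx') hκ rfl rfl (.O 2 false) (.N 3 false) (Or.inr rfl))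

noncomputable def cut_B80pp_001_s1 : Cut := Cut.of [[⟨4, 0, 0, 1449551462⟩]]

noncomputable def xt_B80pp_001_s1 : Ext := strExt6 dd false true true .s0 .u0 .u0m .up 0 0 1 rfl rfl gf0 vv ww ndB8q0 ndB0q1

noncomputable def f_B80pp_001_s1 : ℕ → ℕ → ℕ → ℕ → Bool := onCell 0 536870912 536870912 536870912 649613803 48318383
    (rowF 2 false true true .up 0 0 1 (qsf 0 536870912 536870912 536870912 0) ndB8q0 ndB0q1 pcB0 cut_B80pp_001_s1 xt_B80pp_001_s1)

def k0_B80pp_001_s1 : ∃ t, chk3 f_B80pp_001_s1 t 1 1 1 = true :=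
  ⟨(a (b (l 3) (b (b (l 3) (l 2)) (l 2))) (b (a (l 3) (b (l 3) (b (a (l 3) (b (a (l 3) (l 1063692303)) (a (b (l 3) (l 1062804495)) (b (l 1063624207) (l 1063548431))))) (a (a (b (l 3) (l 1061319183)) (b (a (l 3) (l 1062141967)) (b (l 1061141519) (l 1059836431)))) (b (a (l 1062530063) (l 1066610191)) (a (b (l 1062135823) (a (l 16729168) (l 16716640))) (b (a (l 16725816) (l 16715960)) (l 16701352)))))))) (b (a (b (a (a (l 3) (a (l 3) (b (l 3) (l 1053434895)))) (b (a (l 3) (b (l 1056885263) (l 1056166927))) (a (a (l 1054317583) (l 1054761999)) (b (l 1055553551) (a (l 1054990863) (l 16788248)))))) (a (b (a (l 2) (l 1054047759)) (l 2)) (b (a (b (l 1054446607) (a (l 126265248663) (l 16725792))) (b (a (l 16735888) (l 16672288)) (l 16693336))) (a (b (l 113380323607) (l 2)) (b (l 16619424) (l 16589720)))))) (b (a (b (a (l 1056953871) (b (l 1058595343) (a (l 16707392) (l 16690608)))) (a (a (b (l 16798984) (l 16683936)) (b (l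 16696248) (l 16664576))) (b (l 16753848) (l 16637632)))) (b (a (b (l 16781736) (l 16668472)) (l 16663168)) (a (l 16622072) (l 16594136)))) (a (a (b (a (l 16719472) (l 16615448)) (l 16646416)) (b (l 16671424) (l 16522480))) (b (a (l 16553016) (l 16523064)) (a (l 16486680) (l 16454560)))))) (a (b (a (l 2) (b (a (l 2) (l 159014085191)) (l 2))) (l 2)) (b (a (b (a (l 16510904) (l 16471920)) (l 16497080)) (b (l 16420904) (l 16388904))) (a (b (l 16381544) (l 2)) (b (l 16450704) (l 6)))))))), by decide +kernel⟩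

theorem c_B80pp_001_s1 : CertF 0 536870912 536870912 536870912 649613803 48318383 false true true .up 0 0 1
    ndB8q0 ndB0q1 pcB0 cut_B80pp_001_s1 xt_B80pp_001_s1 :=
  certF2 (fam := false) (s1 := true) (s2 := true) (a := 0) (b := 0) (c := 1) (cn := .up) (n1 := ndB8q0) (n2 := ndB0q1) (pc := pcB0) (cut := cut_B80pp_001_s1) (xt := xt_B80pp_001_s1) (P1 := 0) (W1 := 536870912) (P2 := 536870912) (W2 := 536870912) (P3 := 649613803) (W3 := 48318383)
    rfl (fun _ => rfl) k0_B80pp_001_s1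

theorem s_B80pp_001_s1 {κ x : ℝ} (hκ : κ * h0 = ken x) (hx : ((649613803 : ℕ) : ℝ) / S ≤ x)
    (hx' : x ≤ (((649613803 : ℕ) : ℝ) + (48318383 : ℕ)) / S) :
    AltB (VFD κ) PP tK tL pcB [⟨3, 0, 0, 1449551462⟩] 0 0 1 8 0 (sgb true) (sgb true) x :=
  strip_altBD (m := 1449551462) true rfl hκ (SH.κ0 hκ (SH.hx1 hx).le (SH.hx2 hx').le) (SH.hx1 hx).le (SH.hx2 hx') (covB80).cov (covB01).cov hx hx' c_B80pp_001_s1 cutB_nil ((okx6 hx hx').extB (T := tt) (okx hx hx') (sideB hx hx') hκ rfl rfl (.N 0 true) (.O 1 true) (Or.inl rfl))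

noncomputable def cut_B80pp_011_s1 : Cut := Cut.of [[⟨4, 0, 0, 1449551462⟩]]

noncomputable def xt_B80pp_011_s1 : Ext := strExt6 dd false true true .s0 .u0 .u0m .pnn 0 1 1 rfl rfl gf1 vv ww ndB8q0 ndB0q1

noncomputable def f_B80pp_011_s1 : ℕ → ℕ → ℕ → ℕ → Bool := onCell 536870912 536870912 536870912 536870912 649613803 48318383
    (rowF 2 false true true .pnn 0 1 1 (qsf 0 536870912 536870912 536870912 1) ndB8q0 ndB0q1 pcB1 cut_B80pp_011_s1 xt_B80pp_011_s1)

def k0_B80pp_011_s1 : ∃ t, chk3 f_B80pp_011_s1 t 1 1 1 = true :=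
  ⟨(a (b (a (b (a (b (l 3) (a (b (l 3) (l 1061830159)) (l 1062877711))) (b (a (b (l 1) (l 1063931919)) (l 1)) (a (l 1063557647) (b (l 1064389647) (a (l 1063738383) (l 16725184)))))) (a (b (b (a (l 1061900815) (l 1062859279)) (a (l 1061876751) (b (l 16770440) (a (l 16719120) (l 16708928))))) (b (a (b (a (l 16724912) (l 16713576)) (a (l 16706528) (l 16697240))) (b (l 16699384) (l 16682720))) (a (b (l 16683736) (l 16660976)) (l 16654888)))) (b (b (a (b (l 16775264) (l 16762160)) (b (l 16795072) (l 16699328))) (a (b (l 16707528) (l 16694088)) (l 16679736))) (b (a (l 16671688) (l 16652688)) (l 16629648))))) (b (a (b (l 1) (a (b (l 1) (l 165389795399)) (l 1))) (l 1)) (a (b (b (l 16762072) (l 16649168)) (b (l 16622344) (l 16594152))) (b (l 180422289863) (b (l 16587488) (l 16554360)))))) (b (a (b (a (b (l 16696008) (l 16633984)) (b (l 16585696) (l 16607192))) (a (b (a (l 16498288) (l 16473144)) (l 16507856)) (b (l 16440008)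 (l 16376704)))) (b (a (b (l 16556624) (l 16503968)) (b (l 16518216) (l 16474128))) (a (b (l 16429840) (l 6)) (l 6)))) (a (b (a (b (l 16373616) (l 16341664)) (b (l 6) (l 6))) (l 6)) (l 6)))) (b (a (b (l 1) (a (b (l 1) (b (l 1) (l 16537504))) (l 1))) (l 1)) (b (a (b (l 6) (l 6)) (l 6)) (l 6)))), by decide +kernel⟩

theorem c_B80pp_011_s1 : CertF 0 536870912 536870912 536870912 649613803 48318383 false true true .pnn 0 1 1
    ndB8q0 ndB0q1 pcB1 cut_B80pp_011_s1 xt_B80pp_011_s1 :=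
  certF2 (fam := false) (s1 := true) (s2 := true) (a := 0) (b := 1) (c := 1) (cn := .pnn) (n1 := ndB8q0) (n2 := ndB0q1) (pc := pcB1) (cut := cut_B80pp_011_s1) (xt := xt_B80pp_011_s1) (P1 := 0) (W1 := 536870912) (P2 := 536870912) (W2 := 536870912) (P3 := 649613803) (W3 := 48318383)
    rfl (fun _ => rfl) k0_B80pp_011_s1

theorem s_B80pp_011_s1 {κ x : ℝ} (hκ : κ * h0 = ken x) (hx : ((649613803 : ℕ) : ℝ) / S ≤ x)
    (hx' : x ≤ (((649613803 : ℕ) : ℝ) + (48318383 : ℕ)) / S) :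
    AltB (VFD κ) PP tK tL pcB [⟨3, 0, 0, 1449551462⟩] 0 1 1 8 0 (sgb true) (sgb true) x :=
  strip_altBD (m := 1449551462) true rfl hκ (SH.κ0 hκ (SH.hx1 hx).le (SH.hx2 hx').le) (SH.hx1 hx).le (SH.hx2 hx') (covB80).cov (covB01).cov hx hx' c_B80pp_011_s1 cutB_nil ((okx6 hx hx').extB (T := tt) (okx hx hx') (sideB hx hx') hκ rfl rfl (.N 0 true) (.O 1 true) (Or.inr rfl))

noncomputable def cut_B80pp_012_s1 : Cut := Cut.of [[⟨4, 0, 0, 1449551462⟩]]

noncomputable def f_B80pp_012_s1 : ℕ → ℕ → ℕ → ℕ → Bool := onCell 0 536870912 0 536870912 649613803 48318383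
    (rowF 0 false true true .pnp 0 1 2 (qsf 0 536870912 0 536870912 1) ndB8q0 ndB0q2 pcB1 cut_B80pp_012_s1 Ext.none)

def k0_B80pp_012_s1 : ∃ t, chk3 f_B80pp_012_s1 t 1 1 1 = true :=
  ⟨(a (l 6) (l 6)), by decide +kernel⟩

theorem c_B80pp_012_s1 : CertF 0 536870912 0 536870912 649613803 48318383 false true true .pnp 0 1 2
    ndB8q0 ndB0q2 pcB1 cut_B80pp_012_s1 Ext.none :=
  certF0 (fam := false) (s1 := true) (s2 := true) (a := 0) (b := 1) (c := 2) (cn := .pnp) (n1 := ndB8q0) (n2 := ndB0q2) (pc := pcB1) (cut := cut_B80pp_012_s1) (xt := Ext.none) (P1 := 0) (W1 := 536870912) (P2 := 0) (W2 := 536870912) (P3 := 649613803) (W3 := 48318383)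
    rfl k0_B80pp_012_s1

theorem s_B80pp_012_s1 {κ x : ℝ} (hκ : κ * h0 = ken x) (hx : ((649613803 : ℕ) : ℝ) / S ≤ x)
    (hx' : x ≤ (((649613803 : ℕ) : ℝ) + (48318383 : ℕ)) / S) :
    AltB (VFD κ) PP tK tL pcB [⟨3, 0, 0, 1449551462⟩] 0 1 2 8 0 (sgb true) (sgb true) x :=
  strip_altBD (m := 1449551462) true rfl hκ (SH.κ0 hκ (SH.hx1 hx).le (SH.hx2 hx').le) (SH.hx1 hx).le (SH.hx2 hx') (covB80).cov (covB02).cov hx hx' c_B80pp_012_s1 cutB_nil (noExt_B)

noncomputable def cut_B80pp_022_s1 : Cut := Cut.of [[⟨4, 0, 0, 1449551462⟩]]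

noncomputable def f_B80pp_022_s1 : ℕ → ℕ → ℕ → ℕ → Bool := onCell 1073741824 536870912 0 536870912 649613803 48318383
    (rowF 2 false true true .pp 0 2 2 (qsf 0 536870912 0 536870912 2) ndB8q0 ndB0q2 pcB2 cut_B80pp_022_s1 Ext.none)

def k0_B80pp_022_s1 : ∃ t, chk3 f_B80pp_022_s1 t 1 1 1 = true :=
  ⟨(l 6), by decide +kernel⟩

theorem c_B80pp_022_s1 : CertF 0 536870912 0 536870912 649613803 48318383 false true true .pp 0 2 2
    ndB8q0 ndB0q2 pcB2 cut_B80pp_022_s1 Ext.none :=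
  certF2 (fam := false) (s1 := true) (s2 := true) (a := 0) (b := 2) (c := 2) (cn := .pp) (n1 := ndB8q0) (n2 := ndB0q2) (pc := pcB2) (cut := cut_B80pp_022_s1) (xt := Ext.none) (P1 := 0) (W1 := 536870912) (P2 := 0) (W2 := 536870912) (P3 := 649613803) (W3 := 48318383)
    rfl (fun _ => rfl) k0_B80pp_022_s1

theorem s_B80pp_022_s1 {κ x : ℝ} (hκ : κ * h0 = ken x) (hx : ((649613803 : ℕ) : ℝ) / S ≤ x)
    (hx' : x ≤ (((649613803 : ℕ) : ℝ) + (48318383 : ℕ)) / S) :
    AltB (VFD κ) PP tK tL pcB [⟨3, 0, 0, 1449551462⟩] 0 2 2 8 0 (sgb true) (sgb true) x :=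
  strip_altBD (m := 1449551462) true rfl hκ (SH.κ0 hκ (SH.hx1 hx).le (SH.hx2 hx').le) (SH.hx1 hx).le (SH.hx2 hx') (covB80).cov (covB02).cov hx hx' c_B80pp_022_s1 cutB_nil (noExt_B)

noncomputable def cut_B80pp_101_s1 : Cut := Cut.of [[⟨4, 0, 0, 1449551462⟩], [⟨0, 1, 0, 53687091⟩, ⟨1, 0, 0, 53687091⟩, ⟨2, 1, 0, 53687091⟩]]

noncomputable def xt_B80pp_101_s1 : Ext := strExt6 dd false true true .s0 .u0 .u0m .npn 1 0 1 rfl rfl gf0 vv ww ndB8q1 ndB0q1

noncomputable def f_B80pp_101_s1 : ℕ → ℕ → ℕ → ℕ → Bool := onCell 0 536870912 536870912 536870912 649613803 48318383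
    (rowF 2 false true true .npn 1 0 1 (qsf 536870912 536870912 536870912 536870912 0) ndB8q1 ndB0q1 pcB0 cut_B80pp_101_s1 xt_B80pp_101_s1)

def k0_B80pp_101_s1 : ∃ t, chk3 f_B80pp_101_s1 t 2 2 1 = true :=
  ⟨(l 3), by decide +kernel⟩

def k1_B80pp_101_s1 : ∃ t, chk3 f_B80pp_101_s1 t 2 6 1 = true :=
  ⟨(a (l 3) (a (l 3) (b (l 3) (b (l 3) (a (a (l 3) (l 1054025231)) (l 1054253583)))))), by decide +kernel⟩

def k2_B80pp_101_s1 : ∃ t, chk3 f_B80pp_101_s1 t 4 14 1 = true :=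
  ⟨(b (l 3) (a (l 3) (a (l 3) (a (l 3) (l 1058731023))))), by decide +kernel⟩

def k3_B80pp_101_s1 : ∃ t, chk3 f_B80pp_101_s1 t 8 15 1 = true :=
  ⟨(b (b (l 3) (a (l 3) (a (l 3) (a (l 3) (l 1059808783))))) (b (a (b (l 3) (b (l 3) (b (l 3) (l 14)))) (a (a (b (l 3) (l 1060036111)) (b (l 1059919887) (b (l 1060118031) (a (b (l 1060239887) (a (l 16768728) (l 16766568))) (b (l 16772656) (l 16763224)))))) (b (a (l 1060032015) (b (l 1060160015) (b (l 1060252687) (a (l 16766768) (l 16762464))))) (a (b (b (a (l 1060209167) (l 16766976)) (a (l 16777680) (l 16762888))) (a (l 16771352) (l 16756184))) (b (a (l 16771032) (l 16755920)) (l 16749280)))))) (a (l 14) (b (a (a (b (a (b (a (l 14) (l 16776360)) (l 14)) (b (a (l 16774168) (l 16766760)) (l 16763408))) (b (l 16771680) (l 14))) (b (a (b (l 16763328) (l 16758784)) (l 16756416)) (l 16749680))) (a (a (l 16747208) (l 16742504)) (l 16777488))) (a (a (l 14) (a (l 16749000) (l 16733880)))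 (a (l 16726904) (l 16675600))))))), by decide +kernel⟩

def k4_B80pp_101_s1 : ∃ t, chk3 f_B80pp_101_s1 t 9 15 1 = true :=
  ⟨(b (a (b (a (l 3) (l 1059289615)) (a (b (l 1059834383) (a (l 1060169743) (b (l 1060043791) (a (l 1060217871) (l 16773664))))) (b (l 1059703311) (b (a (b (l 1059936271) (l 16772888)) (l 16766136)) (a (b (l 16758592) (l 16754848)) (l 16748248)))))) (b (a (l 1059274767) (b (l 1059271695) (a (b (l 16770384) (l 16752152)) (a (l 16759856) (l 16745160))))) (a (b (a (b (l 16772720) (l 16775488)) (b (l 16774320) (l 16745880))) (a (l 16764504) (l 16734496))) (a (b (l 16741000) (l 16725496)) (l 16766536))))) (b (a (a (b (b (a (a (l 1060319247) (l 16774424)) (b (l 16770104) (l 16755496))) (a (a (l 16770648) (l 16755704)) (l 16748832))) (b (l 16765472) (l 16735568))) (b (l 16771112) (l 16763664))) (a (b (l 16721664) (l 16703952)) (b (l 16703632) (l 16686384)))) (a (b (a (a (l 16726520) (l 16717608)) (l 16704272))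 (a (l 16703824) (l 16685808))) (b (l 16761176) (l 16659232))))), by decide +kernel⟩

def k5_B80pp_101_s1 : ∃ t, chk3 f_B80pp_101_s1 t 5 7 1 = true :=
  ⟨(b (a (b (a (l 3) (a (l 1055904271) (l 1055608335))) (a (b (l 1061235727) (a (l 1059057679) (b (l 1058114063) (a (b (l 16753632) (l 16745736)) (l 16760240))))) (b (a (l 1057045007) (b (l 1056614415) (a (b (l 16744176) (l 16735872)) (b (l 16733472) (l 16725560))))) (a (b (a (c (l 16766056) (l 16765496)) (l 16776272)) (l 16765592)) (b (a (l 16724016) (l 16713568)) (l 16702832)))))) (b (a (a (l 1055573519) (b (l 1055354383) (b (l 1055973391) (a (l 16772312) (l 16720096))))) (b (a (l 1055604751) (b (l 16761976) (a (l 16720080) (l 16709376)))) (a (b (b (l 16766216) (l 16758408)) (a (l 16709960) (l 16699664))) (b (l 16783200) (l 16684024))))) (a (b (a (b (b (l 16775896) (l 16767904)) (l 16756184)) (b (l 16751568) (l 16693984))) (a (l 16774480) (l 16671000))) (b (a (l 16765696)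 (l 16661728)) (l 16726080))))) (b (a (b (a (a (b (a (b (l 16757592) (l 16750056)) (l 16765288)) (a (l 16738912) (l 16728056))) (b (l 16770472) (l 16712016))) (a (l 16699288) (l 16679080))) (a (a (l 16750368) (l 16687344)) (b (a (l 16675104) (l 16655272)) (l 16732952)))) (b (a (a (l 16659528) (l 16640456)) (l 16738752)) (a (l 16703376) (l 16583856)))) (a (b (a (b (l 16672672) (l 16655832)) (l 16708912)) (a (l 16630000) (l 16592368))) (a (b (l 16588568) (l 16557672)) (l 16707928))))), by decide +kernel⟩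

def k6_B80pp_101_s1 : ∃ t, chk3 f_B80pp_101_s1 t 3 1 1 = true :=
  ⟨(b (a (l 3) (l 1)) (b (a (b (a (a (l 3) (a (l 3) (b (l 1) (l 1053434895)))) (b (l 1) (a (a (l 1054317583) (l 1)) (l 1)))) (a (b (a (a (l 1053282319) (l 1053627407)) (l 1054047759)) (a (a (b (l 1053986319) (b (l 1054707215) (l 16745280))) (b (l 1054209551) (b (l 16738640) (l 16702136)))) (b (a (b (l 16748120) (l 16752864)) (b (l 16746360) (l 16688368))) (a (b (l 16695232) (l 16680016)) (l 16665376))))) (b (a (b (l 1054446607) (a (a (l 16753608) (l 16742296)) (l 16725496))) (b (l 1) (l 16734568))) (a (b (a (l 16673840) (l 16651616)) (l 16632456)) (b (l 16618768) (l 16589144)))))) (b (l 1) (a (a (b (l 1) (l 16561288)) (l 1)) (l 1)))) (a (b (a (b (a (b (b (a (l 16708648) (l 16686928)) (l 16745656)) (a (l 16670816) (l 16650320))) (b (l 16647368) (l 16703680))) (a (b (l 16632136) (l 16604480)) (l 16591288))) (b (a (l 16675528) (l 16550440)) (a (l 16544128)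 (l 16507464)))) (a (b (a (b (l 16577560) (l 16550112)) (l 16530632)) (a (l 16509184) (l 16480464))) (b (a (l 16498936) (l 16468080)) (a (l 16453704) (l 16428416))))) (b (a (b (a (l 16509976) (l 16470864)) (l 16453720)) (b (l 1) (l 16387112))) (a (b (l 16506728) (l 16476432)) (b (l 16365816) (l 6))))))), by decide +kernel⟩

theorem t7_B80pp_101_s1 : ∃ t, chk3 f_B80pp_101_s1 t 4 15 1 = true := ex3_a k3_B80pp_101_s1 k4_B80pp_101_s1

theorem t8_B80pp_101_s1 : ∃ t, chk3 f_B80pp_101_s1 t 4 7 1 = true := ex3_b k2_B80pp_101_s1 t7_B80pp_101_s1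

theorem t9_B80pp_101_s1 : ∃ t, chk3 f_B80pp_101_s1 t 2 7 1 = true := ex3_a t8_B80pp_101_s1 k5_B80pp_101_s1

theorem t10_B80pp_101_s1 : ∃ t, chk3 f_B80pp_101_s1 t 2 3 1 = true := ex3_b k1_B80pp_101_s1 t9_B80pp_101_s1

theorem t11_B80pp_101_s1 : ∃ t, chk3 f_B80pp_101_s1 t 2 1 1 = true := ex3_b k0_B80pp_101_s1 t10_B80pp_101_s1

theorem t12_B80pp_101_s1 : ∃ t, chk3 f_B80pp_101_s1 t 1 1 1 = true := ex3_a t11_B80pp_101_s1 k6_B80pp_101_s1

theorem c_B80pp_101_s1 : CertF 536870912 536870912 536870912 536870912 649613803 48318383 false true true .npn 1 0 1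
    ndB8q1 ndB0q1 pcB0 cut_B80pp_101_s1 xt_B80pp_101_s1 :=
  certF2 (fam := false) (s1 := true) (s2 := true) (a := 1) (b := 0) (c := 1) (cn := .npn) (n1 := ndB8q1) (n2 := ndB0q1) (pc := pcB0) (cut := cut_B80pp_101_s1) (xt := xt_B80pp_101_s1) (P1 := 536870912) (W1 := 536870912) (P2 := 536870912) (W2 := 536870912) (P3 := 649613803) (W3 := 48318383)
    rfl (fun _ => rfl) t12_B80pp_101_s1

theorem s_B80pp_101_s1 {κ x : ℝ} (hκ : κ * h0 = ken x) (hx : ((649613803 : ℕ) : ℝ) / S ≤ x)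
    (hx' : x ≤ (((649613803 : ℕ) : ℝ) + (48318383 : ℕ)) / S)
    (H : CutB (VFD κ) PP tK tL pcB (Cut.of [[⟨0, 1, 0, 53687091⟩, ⟨1, 0, 0, 53687091⟩, ⟨2, 1, 0, 53687091⟩]]) 1 0 1 8 0 (sgb true) (sgb true) x) :
    AltB (VFD κ) PP tK tL pcB [⟨3, 0, 0, 1449551462⟩] 1 0 1 8 0 (sgb true) (sgb true) x :=
  strip_altBD (m := 1449551462) true rfl hκ (SH.κ0 hκ (SH.hx1 hx).le (SH.hx2 hx').le) (SH.hx1 hx).le (SH.hx2 hx') (covB81).cov (covB01).cov hx hx' c_B80pp_101_s1 H ((okx6 hx hx').extB (T := tt) (okx hx hx') (sideB hx hx') hκ rfl rfl (.N 1 true) (.O 1 true) (Or.inl rfl))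

noncomputable def cut_B80pp_102_s1 : Cut := Cut.of [[⟨4, 0, 0, 1449551462⟩], [⟨0, 1, 0, 67108864⟩, ⟨1, 0, 0, 67108864⟩, ⟨2, 1, 0, 67108864⟩]]

noncomputable def f_B80pp_102_s1 : ℕ → ℕ → ℕ → ℕ → Bool := onCell 536870912 536870912 0 536870912 649613803 48318383
    (rowF 0 false true true .npp 1 0 2 (qsf 536870912 536870912 0 536870912 0) ndB8q1 ndB0q2 pcB0 cut_B80pp_102_s1 Ext.none)

def k0_B80pp_102_s1 : ∃ t, chk3 f_B80pp_102_s1 t 1 1 1 = true :=
  ⟨(a (b (l 6) (b (l 6) (a (l 6) (b (l 6) (a (b (l 6) (a (l 6) (l 16416440))) (b (l 16581792) (a (l 16437584) (l 16460904)))))))) (b (l 6) (a (b (l 6) (b (a (b (l 6) (l 16666288)) (a (b (l 6) (l 16442776)) (b (l 16417296) (l 16462688)))) (a (b (a (l 16443224) (l 16465760)) (a (b (l 16475232) (l 16498376)) (b (l 16501904) (l 16528184)))) (b (a (l 16489920) (l 16515992)) (b (l 16713536) (l 16577232)))))) (b (b (l 6) (a (a (l 6) (b (l 6) (l 16396088))) (a (b (l 6) (l 16406704))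 (b (l 16359608) (l 16417488))))) (b (a (b (a (l 16432296) (l 16700928)) (a (l 16484248) (b (l 16491328) (l 16522696)))) (b (a (l 16465200) (a (l 16477824) (l 16485816))) (a (a (l 16692136) (a (l 16533832) (l 16623768))) (a (b (l 16529280) (l 16566384)) (b (l 16539224) (l 16577144)))))) (b (a (a (b (l 16528160) (l 16560472)) (a (l 16649936) (l 16748024))) (a (b (a (l 16576320) (l 16590416)) (a (l 16613024) (l 16712232))) (a (b (a (l 16600816) (l 14)) (l 14)) (l 14)))) (a (b (a (a (l 16586952) (l 16603712)) (a (l 16619584) (l 16719504))) (a (l 16631240) (a (l 16657080) (l 16674400)))) (a (a (a (b (l 16647800) (l 16687624)) (b (l 16655968) (l 16717072))) (a (b (l 16747896) (l 14)) (l 14))) (l 14))))))))), by decide +kernel⟩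

theorem c_B80pp_102_s1 : CertF 536870912 536870912 0 536870912 649613803 48318383 false true true .npp 1 0 2
    ndB8q1 ndB0q2 pcB0 cut_B80pp_102_s1 Ext.none :=
  certF0 (fam := false) (s1 := true) (s2 := true) (a := 1) (b := 0) (c := 2) (cn := .npp) (n1 := ndB8q1) (n2 := ndB0q2) (pc := pcB0) (cut := cut_B80pp_102_s1) (xt := Ext.none) (P1 := 536870912) (W1 := 536870912) (P2 := 0) (W2 := 536870912) (P3 := 649613803) (W3 := 48318383)
    rfl k0_B80pp_102_s1

theorem s_B80pp_102_s1 {κ x : ℝ} (hκ : κ * h0 = ken x) (hx : ((649613803 : ℕ) : ℝ) / S ≤ x)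
    (hx' : x ≤ (((649613803 : ℕ) : ℝ) + (48318383 : ℕ)) / S)
    (H : CutB (VFD κ) PP tK tL pcB (Cut.of [[⟨0, 1, 0, 67108864⟩, ⟨1, 0, 0, 67108864⟩, ⟨2, 1, 0, 67108864⟩]]) 1 0 2 8 0 (sgb true) (sgb true) x) :
    AltB (VFD κ) PP tK tL pcB [⟨3, 0, 0, 1449551462⟩] 1 0 2 8 0 (sgb true) (sgb true) x :=
  strip_altBD (m := 1449551462) true rfl hκ (SH.κ0 hκ (SH.hx1 hx).le (SH.hx2 hx').le) (SH.hx1 hx).le (SH.hx2 hx') (covB81).cov (covB02).cov hx hx' c_B80pp_102_s1 H (noExt_B)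

noncomputable def cut_B80pp_112_s1 : Cut := Cut.of [[⟨4, 0, 0, 1449551462⟩]]

noncomputable def f_B80pp_112_s1 : ℕ → ℕ → ℕ → ℕ → Bool := onCell 536870912 536870912 0 536870912 649613803 48318383
    (rowF 2 false true true .dn 1 1 2 (qsf 536870912 536870912 0 536870912 1) ndB8q1 ndB0q2 pcB1 cut_B80pp_112_s1 Ext.none)

def k0_B80pp_112_s1 : ∃ t, chk3 f_B80pp_112_s1 t 1 1 1 = true :=
  ⟨(a (l 6) (l 1)), by decide +kernel⟩

theorem c_B80pp_112_s1 : CertF 536870912 536870912 0 536870912 649613803 48318383 false true true .dn 1 1 2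
    ndB8q1 ndB0q2 pcB1 cut_B80pp_112_s1 Ext.none :=
  certF2 (fam := false) (s1 := true) (s2 := true) (a := 1) (b := 1) (c := 2) (cn := .dn) (n1 := ndB8q1) (n2 := ndB0q2) (pc := pcB1) (cut := cut_B80pp_112_s1) (xt := Ext.none) (P1 := 536870912) (W1 := 536870912) (P2 := 0) (W2 := 536870912) (P3 := 649613803) (W3 := 48318383)
    rfl (fun _ => rfl) k0_B80pp_112_s1

theorem s_B80pp_112_s1 {κ x : ℝ} (hκ : κ * h0 = ken x) (hx : ((649613803 : ℕ) : ℝ) / S ≤ x)
    (hx' : x ≤ (((649613803 : ℕ) : ℝ) + (48318383 : ℕ)) / S) :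
    AltB (VFD κ) PP tK tL pcB [⟨3, 0, 0, 1449551462⟩] 1 1 2 8 0 (sgb true) (sgb true) x :=
  strip_altBD (m := 1449551462) true rfl hκ (SH.κ0 hκ (SH.hx1 hx).le (SH.hx2 hx').le) (SH.hx1 hx).le (SH.hx2 hx') (covB81).cov (covB02).cov hx hx' c_B80pp_112_s1 cutB_nil (noExt_B)

noncomputable def cut_B80pp_202_s1 : Cut := Cut.of [[⟨4, 0, 0, 1449551462⟩], [⟨0, 1, 0, 67108864⟩, ⟨1, 0, 0, 67108864⟩, ⟨2, 1, 0, 67108864⟩]]

noncomputable def f_B80pp_202_s1 : ℕ → ℕ → ℕ → ℕ → Bool := onCell 0 536870912 0 536870912 649613803 48318383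
    (rowF 2 false true true .pp 2 0 2 (qsf 1073741824 536870912 0 536870912 0) ndB8q2 ndB0q2 pcB0 cut_B80pp_202_s1 Ext.none)

def k0_B80pp_202_s1 : ∃ t, chk3 f_B80pp_202_s1 t 1 1 1 = true :=
  ⟨(a (b (a (l 6) (l 6)) (a (b (b (a (b (l 16591544) (l 16536384)) (l 6)) (a (a (b (l 16511680) (l 16546520)) (b (l 16455056) (l 16488296))) (a (b (l 16390232) (l 16420960)) (l 401075649943)))) (b (a (b (a (l 16710080) (l 16607976)) (a (l 14) (a (l 14) (l 16545816)))) (b (a (l 16537800) (l 1)) (l 1))) (a (a (l 14) (a (l 14) (l 1))) (l 1)))) (b (l 1) (l 1)))) (l 1)), by decide +kernel⟩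

theorem c_B80pp_202_s1 : CertF 1073741824 536870912 0 536870912 649613803 48318383 false true true .pp 2 0 2
    ndB8q2 ndB0q2 pcB0 cut_B80pp_202_s1 Ext.none :=
  certF2 (fam := false) (s1 := true) (s2 := true) (a := 2) (b := 0) (c := 2) (cn := .pp) (n1 := ndB8q2) (n2 := ndB0q2) (pc := pcB0) (cut := cut_B80pp_202_s1) (xt := Ext.none) (P1 := 1073741824) (W1 := 536870912) (P2 := 0) (W2 := 536870912) (P3 := 649613803) (W3 := 48318383)
    rfl (fun _ => rfl) k0_B80pp_202_s1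

theorem s_B80pp_202_s1 {κ x : ℝ} (hκ : κ * h0 = ken x) (hx : ((649613803 : ℕ) : ℝ) / S ≤ x)
    (hx' : x ≤ (((649613803 : ℕ) : ℝ) + (48318383 : ℕ)) / S)
    (H : CutB (VFD κ) PP tK tL pcB (Cut.of [[⟨0, 1, 0, 67108864⟩, ⟨1, 0, 0, 67108864⟩, ⟨2, 1, 0, 67108864⟩]]) 2 0 2 8 0 (sgb true) (sgb true) x) :
    AltB (VFD κ) PP tK tL pcB [⟨3, 0, 0, 1449551462⟩] 2 0 2 8 0 (sgb true) (sgb true) x :=
  strip_altBD (m := 1449551462) true rfl hκ (SH.κ0 hκ (SH.hx1 hx).le (SH.hx2 hx').le) (SH.hx1 hx).le (SH.hx2 hx') (covB82).cov (covB02).cov hx hx' c_B80pp_202_s1 H (noExt_B)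

noncomputable def cut_B80pm_001_s1 : Cut := Cut.of [[⟨4, 0, 0, 1449551462⟩]]

noncomputable def f_B80pm_001_s1 : ℕ → ℕ → ℕ → ℕ → Bool := onCell 0 536870912 536870912 536870912 649613803 48318383
    (rowF 0 false true false .up 0 0 1 (qsf 0 536870912 536870912 536870912 0) ndB8q0 ndB0q1 pcB0 cut_B80pm_001_s1 Ext.none)

def k0_B80pm_001_s1 : ∃ t, chk3 f_B80pm_001_s1 t 1 1 1 = true :=
  ⟨(l 4), by decide +kernel⟩

theorem c_B80pm_001_s1 : CertF 0 536870912 536870912 536870912 649613803 48318383 false true false .up 0 0 1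
    ndB8q0 ndB0q1 pcB0 cut_B80pm_001_s1 Ext.none :=
  certF0 (fam := false) (s1 := true) (s2 := false) (a := 0) (b := 0) (c := 1) (cn := .up) (n1 := ndB8q0) (n2 := ndB0q1) (pc := pcB0) (cut := cut_B80pm_001_s1) (xt := Ext.none) (P1 := 0) (W1 := 536870912) (P2 := 536870912) (W2 := 536870912) (P3 := 649613803) (W3 := 48318383)
    rfl k0_B80pm_001_s1

theorem s_B80pm_001_s1 {κ x : ℝ} (hκ : κ * h0 = ken x) (hx : ((649613803 : ℕ) : ℝ) / S ≤ x)
    (hx' : x ≤ (((649613803 : ℕ) : ℝ) + (48318383 : ℕ)) / S) :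
    AltB (VFD κ) PP tK tL pcB [⟨3, 0, 0, 1449551462⟩] 0 0 1 8 0 (sgb true) (sgb false) x :=
  strip_altBD (m := 1449551462) true rfl hκ (SH.κ0 hκ (SH.hx1 hx).le (SH.hx2 hx').le) (SH.hx1 hx).le (SH.hx2 hx') (covB80).cov (covB01).cov hx hx' c_B80pm_001_s1 cutB_nil (noExt_B)

noncomputable def cut_B80pm_011_s1 : Cut := Cut.of [[⟨4, 0, 0, 1449551462⟩]]

noncomputable def f_B80pm_011_s1 : ℕ → ℕ → ℕ → ℕ → Bool := onCell 0 536870912 536870912 536870912 649613803 48318383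
    (rowF 0 false true false .pnn 0 1 1 (qsf 0 536870912 536870912 536870912 1) ndB8q0 ndB0q1 pcB1 cut_B80pm_011_s1 Ext.none)

def k0_B80pm_011_s1 : ∃ t, chk3 f_B80pm_011_s1 t 1 1 1 = true :=
  ⟨(l 4), by decide +kernel⟩

theorem c_B80pm_011_s1 : CertF 0 536870912 536870912 536870912 649613803 48318383 false true false .pnn 0 1 1
    ndB8q0 ndB0q1 pcB1 cut_B80pm_011_s1 Ext.none :=
  certF0 (fam := false) (s1 := true) (s2 := false) (a := 0) (b := 1) (c := 1) (cn := .pnn) (n1 := ndB8q0) (n2 := ndB0q1) (pc := pcB1) (cut := cut_B80pm_011_s1) (xt := Ext.none) (P1 := 0) (W1 := 536870912) (P2 := 536870912) (W2 := 536870912) (P3 := 649613803) (W3 := 48318383)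
    rfl k0_B80pm_011_s1

theorem s_B80pm_011_s1 {κ x : ℝ} (hκ : κ * h0 = ken x) (hx : ((649613803 : ℕ) : ℝ) / S ≤ x)
    (hx' : x ≤ (((649613803 : ℕ) : ℝ) + (48318383 : ℕ)) / S) :
    AltB (VFD κ) PP tK tL pcB [⟨3, 0, 0, 1449551462⟩] 0 1 1 8 0 (sgb true) (sgb false) x :=
  strip_altBD (m := 1449551462) true rfl hκ (SH.κ0 hκ (SH.hx1 hx).le (SH.hx2 hx').le) (SH.hx1 hx).le (SH.hx2 hx') (covB80).cov (covB01).cov hx hx' c_B80pm_011_s1 cutB_nil (noExt_B)

noncomputable def cut_B80pm_012_s1 : Cut := Cut.of [[⟨4, 0, 0, 1449551462⟩]]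

noncomputable def f_B80pm_012_s1 : ℕ → ℕ → ℕ → ℕ → Bool := onCell 0 536870912 0 536870912 649613803 48318383
    (rowF 0 false true false .pnp 0 1 2 (qsf 0 536870912 0 536870912 1) ndB8q0 ndB0q2 pcB1 cut_B80pm_012_s1 Ext.none)

def k0_B80pm_012_s1 : ∃ t, chk3 f_B80pm_012_s1 t 1 1 1 = true :=
  ⟨(l 6), by decide +kernel⟩

theorem c_B80pm_012_s1 : CertF 0 536870912 0 536870912 649613803 48318383 false true false .pnp 0 1 2
    ndB8q0 ndB0q2 pcB1 cut_B80pm_012_s1 Ext.none :=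
  certF0 (fam := false) (s1 := true) (s2 := false) (a := 0) (b := 1) (c := 2) (cn := .pnp) (n1 := ndB8q0) (n2 := ndB0q2) (pc := pcB1) (cut := cut_B80pm_012_s1) (xt := Ext.none) (P1 := 0) (W1 := 536870912) (P2 := 0) (W2 := 536870912) (P3 := 649613803) (W3 := 48318383)
    rfl k0_B80pm_012_s1

theorem s_B80pm_012_s1 {κ x : ℝ} (hκ : κ * h0 = ken x) (hx : ((649613803 : ℕ) : ℝ) / S ≤ x)
    (hx' : x ≤ (((649613803 : ℕ) : ℝ) + (48318383 : ℕ)) / S) :
    AltB (VFD κ) PP tK tL pcB [⟨3, 0, 0, 1449551462⟩] 0 1 2 8 0 (sgb true) (sgb false) x :=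
  strip_altBD (m := 1449551462) true rfl hκ (SH.κ0 hκ (SH.hx1 hx).le (SH.hx2 hx').le) (SH.hx1 hx).le (SH.hx2 hx') (covB80).cov (covB02).cov hx hx' c_B80pm_012_s1 cutB_nil (noExt_B)

noncomputable def cut_B80pm_022_s1 : Cut := Cut.of [[⟨4, 0, 0, 1449551462⟩]]

noncomputable def f_B80pm_022_s1 : ℕ → ℕ → ℕ → ℕ → Bool := onCell 0 536870912 0 536870912 649613803 48318383
    (rowF 0 false true false .pp 0 2 2 (qsf 0 536870912 0 536870912 2) ndB8q0 ndB0q2 pcB2 cut_B80pm_022_s1 Ext.none)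

def k0_B80pm_022_s1 : ∃ t, chk3 f_B80pm_022_s1 t 1 1 1 = true :=
  ⟨(l 6), by decide +kernel⟩

theorem c_B80pm_022_s1 : CertF 0 536870912 0 536870912 649613803 48318383 false true false .pp 0 2 2
    ndB8q0 ndB0q2 pcB2 cut_B80pm_022_s1 Ext.none :=
  certF0 (fam := false) (s1 := true) (s2 := false) (a := 0) (b := 2) (c := 2) (cn := .pp) (n1 := ndB8q0) (n2 := ndB0q2) (pc := pcB2) (cut := cut_B80pm_022_s1) (xt := Ext.none) (P1 := 0) (W1 := 536870912) (P2 := 0) (W2 := 536870912) (P3 := 649613803) (W3 := 48318383)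
    rfl k0_B80pm_022_s1

theorem s_B80pm_022_s1 {κ x : ℝ} (hκ : κ * h0 = ken x) (hx : ((649613803 : ℕ) : ℝ) / S ≤ x)
    (hx' : x ≤ (((649613803 : ℕ) : ℝ) + (48318383 : ℕ)) / S) :
    AltB (VFD κ) PP tK tL pcB [⟨3, 0, 0, 1449551462⟩] 0 2 2 8 0 (sgb true) (sgb false) x :=
  strip_altBD (m := 1449551462) true rfl hκ (SH.κ0 hκ (SH.hx1 hx).le (SH.hx2 hx').le) (SH.hx1 hx).le (SH.hx2 hx') (covB80).cov (covB02).cov hx hx' c_B80pm_022_s1 cutB_nil (noExt_B)

noncomputable def cut_B80pm_101_s1 : Cut := Cut.of [[⟨4, 0, 0, 1449551462⟩]]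

noncomputable def f_B80pm_101_s1 : ℕ → ℕ → ℕ → ℕ → Bool := onCell 536870912 536870912 536870912 536870912 649613803 48318383
    (rowF 0 false true false .npn 1 0 1 (qsf 536870912 536870912 536870912 536870912 0) ndB8q1 ndB0q1 pcB0 cut_B80pm_101_s1 Ext.none)

def k0_B80pm_101_s1 : ∃ t, chk3 f_B80pm_101_s1 t 1 1 1 = true :=
  ⟨(l 4), by decide +kernel⟩

theorem c_B80pm_101_s1 : CertF 536870912 536870912 536870912 536870912 649613803 48318383 false true false .npn 1 0 1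
    ndB8q1 ndB0q1 pcB0 cut_B80pm_101_s1 Ext.none :=
  certF0 (fam := false) (s1 := true) (s2 := false) (a := 1) (b := 0) (c := 1) (cn := .npn) (n1 := ndB8q1) (n2 := ndB0q1) (pc := pcB0) (cut := cut_B80pm_101_s1) (xt := Ext.none) (P1 := 536870912) (W1 := 536870912) (P2 := 536870912) (W2 := 536870912) (P3 := 649613803) (W3 := 48318383)
    rfl k0_B80pm_101_s1

theorem s_B80pm_101_s1 {κ x : ℝ} (hκ : κ * h0 = ken x) (hx : ((649613803 : ℕ) : ℝ) / S ≤ x)
    (hx' : x ≤ (((649613803 : ℕ) : ℝ) + (48318383 : ℕ)) / S) :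
    AltB (VFD κ) PP tK tL pcB [⟨3, 0, 0, 1449551462⟩] 1 0 1 8 0 (sgb true) (sgb false) x :=
  strip_altBD (m := 1449551462) true rfl hκ (SH.κ0 hκ (SH.hx1 hx).le (SH.hx2 hx').le) (SH.hx1 hx).le (SH.hx2 hx') (covB81).cov (covB01).cov hx hx' c_B80pm_101_s1 cutB_nil (noExt_B)

noncomputable def cut_B80pm_102_s1 : Cut := Cut.of [[⟨4, 0, 0, 1449551462⟩]]

noncomputable def f_B80pm_102_s1 : ℕ → ℕ → ℕ → ℕ → Bool := onCell 536870912 536870912 0 536870912 649613803 48318383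
    (rowF 0 false true false .npp 1 0 2 (qsf 536870912 536870912 0 536870912 0) ndB8q1 ndB0q2 pcB0 cut_B80pm_102_s1 Ext.none)

def k0_B80pm_102_s1 : ∃ t, chk3 f_B80pm_102_s1 t 1 1 1 = true :=
  ⟨(l 6), by decide +kernel⟩

theorem c_B80pm_102_s1 : CertF 536870912 536870912 0 536870912 649613803 48318383 false true false .npp 1 0 2
    ndB8q1 ndB0q2 pcB0 cut_B80pm_102_s1 Ext.none :=
  certF0 (fam := false) (s1 := true) (s2 := false) (a := 1) (b := 0) (c := 2) (cn := .npp) (n1 := ndB8q1) (n2 := ndB0q2) (pc := pcB0) (cut := cut_B80pm_102_s1) (xt := Ext.none) (P1 := 536870912) (W1 := 536870912) (P2 := 0) (W2 := 536870912) (P3 := 649613803) (W3 := 48318383)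
    rfl k0_B80pm_102_s1

theorem s_B80pm_102_s1 {κ x : ℝ} (hκ : κ * h0 = ken x) (hx : ((649613803 : ℕ) : ℝ) / S ≤ x)
    (hx' : x ≤ (((649613803 : ℕ) : ℝ) + (48318383 : ℕ)) / S) :
    AltB (VFD κ) PP tK tL pcB [⟨3, 0, 0, 1449551462⟩] 1 0 2 8 0 (sgb true) (sgb false) x :=
  strip_altBD (m := 1449551462) true rfl hκ (SH.κ0 hκ (SH.hx1 hx).le (SH.hx2 hx').le) (SH.hx1 hx).le (SH.hx2 hx') (covB81).cov (covB02).cov hx hx' c_B80pm_102_s1 cutB_nil (noExt_B)

noncomputable def cut_B80pm_112_s1 : Cut := Cut.of [[⟨4, 0, 0, 1449551462⟩]]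

noncomputable def f_B80pm_112_s1 : ℕ → ℕ → ℕ → ℕ → Bool := onCell 536870912 536870912 0 536870912 649613803 48318383
    (rowF 0 false true false .dn 1 1 2 (qsf 536870912 536870912 0 536870912 1) ndB8q1 ndB0q2 pcB1 cut_B80pm_112_s1 Ext.none)

def k0_B80pm_112_s1 : ∃ t, chk3 f_B80pm_112_s1 t 1 1 1 = true :=
  ⟨(l 6), by decide +kernel⟩

theorem c_B80pm_112_s1 : CertF 536870912 536870912 0 536870912 649613803 48318383 false true false .dn 1 1 2
    ndB8q1 ndB0q2 pcB1 cut_B80pm_112_s1 Ext.none :=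
  certF0 (fam := false) (s1 := true) (s2 := false) (a := 1) (b := 1) (c := 2) (cn := .dn) (n1 := ndB8q1) (n2 := ndB0q2) (pc := pcB1) (cut := cut_B80pm_112_s1) (xt := Ext.none) (P1 := 536870912) (W1 := 536870912) (P2 := 0) (W2 := 536870912) (P3 := 649613803) (W3 := 48318383)
    rfl k0_B80pm_112_s1

theorem s_B80pm_112_s1 {κ x : ℝ} (hκ : κ * h0 = ken x) (hx : ((649613803 : ℕ) : ℝ) / S ≤ x)
    (hx' : x ≤ (((649613803 : ℕ) : ℝ) + (48318383 : ℕ)) / S) :
    AltB (VFD κ) PP tK tL pcB [⟨3, 0, 0, 1449551462⟩] 1 1 2 8 0 (sgb true) (sgb false) x :=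
  strip_altBD (m := 1449551462) true rfl hκ (SH.κ0 hκ (SH.hx1 hx).le (SH.hx2 hx').le) (SH.hx1 hx).le (SH.hx2 hx') (covB81).cov (covB02).cov hx hx' c_B80pm_112_s1 cutB_nil (noExt_B)

noncomputable def cut_B80pm_202_s1 : Cut := Cut.of [[⟨4, 0, 0, 1449551462⟩]]

noncomputable def f_B80pm_202_s1 : ℕ → ℕ → ℕ → ℕ → Bool := onCell 0 536870912 0 536870912 649613803 48318383
    (rowF 2 false true false .pp 2 0 2 (qsf 1073741824 536870912 0 536870912 0) ndB8q2 ndB0q2 pcB0 cut_B80pm_202_s1 Ext.none)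

def k0_B80pm_202_s1 : ∃ t, chk3 f_B80pm_202_s1 t 1 1 1 = true :=
  ⟨(l 6), by decide +kernel⟩

theorem c_B80pm_202_s1 : CertF 1073741824 536870912 0 536870912 649613803 48318383 false true false .pp 2 0 2
    ndB8q2 ndB0q2 pcB0 cut_B80pm_202_s1 Ext.none :=
  certF2 (fam := false) (s1 := true) (s2 := false) (a := 2) (b := 0) (c := 2) (cn := .pp) (n1 := ndB8q2) (n2 := ndB0q2) (pc := pcB0) (cut := cut_B80pm_202_s1) (xt := Ext.none) (P1 := 1073741824) (W1 := 536870912) (P2 := 0) (W2 := 536870912) (P3 := 649613803) (W3 := 48318383)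
    rfl (fun _ => rfl) k0_B80pm_202_s1

theorem s_B80pm_202_s1 {κ x : ℝ} (hκ : κ * h0 = ken x) (hx : ((649613803 : ℕ) : ℝ) / S ≤ x)
    (hx' : x ≤ (((649613803 : ℕ) : ℝ) + (48318383 : ℕ)) / S) :
    AltB (VFD κ) PP tK tL pcB [⟨3, 0, 0, 1449551462⟩] 2 0 2 8 0 (sgb true) (sgb false) x :=
  strip_altBD (m := 1449551462) true rfl hκ (SH.κ0 hκ (SH.hx1 hx).le (SH.hx2 hx').le) (SH.hx1 hx).le (SH.hx2 hx') (covB82).cov (covB02).cov hx hx' c_B80pm_202_s1 cutB_nil (noExt_B)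

noncomputable def cut_B80mm_001_s1 : Cut := Cut.of [[⟨4, 0, 0, 1449551462⟩]]

noncomputable def f_B80mm_001_s1 : ℕ → ℕ → ℕ → ℕ → Bool := onCell 0 536870912 536870912 536870912 649613803 48318383
    (rowF 0 false false false .up 0 0 1 (qsf 0 536870912 536870912 536870912 0) ndB8q0 ndB0q1 pcB0 cut_B80mm_001_s1 Ext.none)

def k0_B80mm_001_s1 : ∃ t, chk3 f_B80mm_001_s1 t 1 1 1 = true :=
  ⟨(l 5), by decide +kernel⟩

theorem c_B80mm_001_s1 : CertF 0 536870912 536870912 536870912 649613803 48318383 false false false .up 0 0 1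
    ndB8q0 ndB0q1 pcB0 cut_B80mm_001_s1 Ext.none :=
  certF0 (fam := false) (s1 := false) (s2 := false) (a := 0) (b := 0) (c := 1) (cn := .up) (n1 := ndB8q0) (n2 := ndB0q1) (pc := pcB0) (cut := cut_B80mm_001_s1) (xt := Ext.none) (P1 := 0) (W1 := 536870912) (P2 := 536870912) (W2 := 536870912) (P3 := 649613803) (W3 := 48318383)
    rfl k0_B80mm_001_s1

theorem s_B80mm_001_s1 {κ x : ℝ} (hκ : κ * h0 = ken x) (hx : ((649613803 : ℕ) : ℝ) / S ≤ x)
    (hx' : x ≤ (((649613803 : ℕ) : ℝ) + (48318383 : ℕ)) / S) :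
    AltB (VFD κ) PP tK tL pcB [⟨3, 0, 0, 1449551462⟩] 0 0 1 8 0 (sgb false) (sgb false) x :=
  strip_altBD (m := 1449551462) true rfl hκ (SH.κ0 hκ (SH.hx1 hx).le (SH.hx2 hx').le) (SH.hx1 hx).le (SH.hx2 hx') (covB80).cov (covB01).cov hx hx' c_B80mm_001_s1 cutB_nil (noExt_B)

noncomputable def cut_B80mm_011_s1 : Cut := Cut.of [[⟨4, 0, 0, 1449551462⟩]]

noncomputable def f_B80mm_011_s1 : ℕ → ℕ → ℕ → ℕ → Bool := onCell 0 536870912 536870912 536870912 649613803 48318383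
    (rowF 0 false false false .pnn 0 1 1 (qsf 0 536870912 536870912 536870912 1) ndB8q0 ndB0q1 pcB1 cut_B80mm_011_s1 Ext.none)

def k0_B80mm_011_s1 : ∃ t, chk3 f_B80mm_011_s1 t 1 1 1 = true :=
  ⟨(l 5), by decide +kernel⟩

theorem c_B80mm_011_s1 : CertF 0 536870912 536870912 536870912 649613803 48318383 false false false .pnn 0 1 1
    ndB8q0 ndB0q1 pcB1 cut_B80mm_011_s1 Ext.none :=
  certF0 (fam := false) (s1 := false) (s2 := false) (a := 0) (b := 1) (c := 1) (cn := .pnn) (n1 := ndB8q0) (n2 := ndB0q1) (pc := pcB1) (cut := cut_B80mm_011_s1) (xt := Ext.none) (P1 := 0) (W1 := 536870912) (P2 := 536870912) (W2 := 536870912) (P3 := 649613803) (W3 := 48318383)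
    rfl k0_B80mm_011_s1

theorem s_B80mm_011_s1 {κ x : ℝ} (hκ : κ * h0 = ken x) (hx : ((649613803 : ℕ) : ℝ) / S ≤ x)
    (hx' : x ≤ (((649613803 : ℕ) : ℝ) + (48318383 : ℕ)) / S) :
    AltB (VFD κ) PP tK tL pcB [⟨3, 0, 0, 1449551462⟩] 0 1 1 8 0 (sgb false) (sgb false) x :=
  strip_altBD (m := 1449551462) true rfl hκ (SH.κ0 hκ (SH.hx1 hx).le (SH.hx2 hx').le) (SH.hx1 hx).le (SH.hx2 hx') (covB80).cov (covB01).cov hx hx' c_B80mm_011_s1 cutB_nil (noExt_B)

noncomputable def cut_B80mm_012_s1 : Cut := Cut.of [[⟨4, 0, 0, 1449551462⟩]]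

noncomputable def f_B80mm_012_s1 : ℕ → ℕ → ℕ → ℕ → Bool := onCell 0 536870912 0 536870912 649613803 48318383
    (rowF 0 false false false .pnp 0 1 2 (qsf 0 536870912 0 536870912 1) ndB8q0 ndB0q2 pcB1 cut_B80mm_012_s1 Ext.none)

def k0_B80mm_012_s1 : ∃ t, chk3 f_B80mm_012_s1 t 1 1 1 = true :=
  ⟨(l 5), by decide +kernel⟩

theorem c_B80mm_012_s1 : CertF 0 536870912 0 536870912 649613803 48318383 false false false .pnp 0 1 2
    ndB8q0 ndB0q2 pcB1 cut_B80mm_012_s1 Ext.none :=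
  certF0 (fam := false) (s1 := false) (s2 := false) (a := 0) (b := 1) (c := 2) (cn := .pnp) (n1 := ndB8q0) (n2 := ndB0q2) (pc := pcB1) (cut := cut_B80mm_012_s1) (xt := Ext.none) (P1 := 0) (W1 := 536870912) (P2 := 0) (W2 := 536870912) (P3 := 649613803) (W3 := 48318383)
    rfl k0_B80mm_012_s1

theorem s_B80mm_012_s1 {κ x : ℝ} (hκ : κ * h0 = ken x) (hx : ((649613803 : ℕ) : ℝ) / S ≤ x)
    (hx' : x ≤ (((649613803 : ℕ) : ℝ) + (48318383 : ℕ)) / S) :
    AltB (VFD κ) PP tK tL pcB [⟨3, 0, 0, 1449551462⟩] 0 1 2 8 0 (sgb false) (sgb false) x :=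
  strip_altBD (m := 1449551462) true rfl hκ (SH.κ0 hκ (SH.hx1 hx).le (SH.hx2 hx').le) (SH.hx1 hx).le (SH.hx2 hx') (covB80).cov (covB02).cov hx hx' c_B80mm_012_s1 cutB_nil (noExt_B)

noncomputable def cut_B80mm_022_s1 : Cut := Cut.of [[⟨4, 0, 0, 1449551462⟩]]

noncomputable def f_B80mm_022_s1 : ℕ → ℕ → ℕ → ℕ → Bool := onCell 0 536870912 0 536870912 649613803 48318383
    (rowF 0 false false false .pp 0 2 2 (qsf 0 536870912 0 536870912 2) ndB8q0 ndB0q2 pcB2 cut_B80mm_022_s1 Ext.none)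

def k0_B80mm_022_s1 : ∃ t, chk3 f_B80mm_022_s1 t 1 1 1 = true :=
  ⟨(l 5), by decide +kernel⟩

theorem c_B80mm_022_s1 : CertF 0 536870912 0 536870912 649613803 48318383 false false false .pp 0 2 2
    ndB8q0 ndB0q2 pcB2 cut_B80mm_022_s1 Ext.none :=
  certF0 (fam := false) (s1 := false) (s2 := false) (a := 0) (b := 2) (c := 2) (cn := .pp) (n1 := ndB8q0) (n2 := ndB0q2) (pc := pcB2) (cut := cut_B80mm_022_s1) (xt := Ext.none) (P1 := 0) (W1 := 536870912) (P2 := 0) (W2 := 536870912) (P3 := 649613803) (W3 := 48318383)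
    rfl k0_B80mm_022_s1

theorem s_B80mm_022_s1 {κ x : ℝ} (hκ : κ * h0 = ken x) (hx : ((649613803 : ℕ) : ℝ) / S ≤ x)
    (hx' : x ≤ (((649613803 : ℕ) : ℝ) + (48318383 : ℕ)) / S) :
    AltB (VFD κ) PP tK tL pcB [⟨3, 0, 0, 1449551462⟩] 0 2 2 8 0 (sgb false) (sgb false) x :=
  strip_altBD (m := 1449551462) true rfl hκ (SH.κ0 hκ (SH.hx1 hx).le (SH.hx2 hx').le) (SH.hx1 hx).le (SH.hx2 hx') (covB80).cov (covB02).cov hx hx' c_B80mm_022_s1 cutB_nil (noExt_B)

noncomputable def cut_B80mm_101_s1 : Cut := Cut.of [[⟨4, 0, 0, 1449551462⟩]]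

noncomputable def f_B80mm_101_s1 : ℕ → ℕ → ℕ → ℕ → Bool := onCell 0 536870912 536870912 536870912 649613803 48318383
    (rowF 2 false false false .npn 1 0 1 (qsf 536870912 536870912 536870912 536870912 0) ndB8q1 ndB0q1 pcB0 cut_B80mm_101_s1 Ext.none)

def k0_B80mm_101_s1 : ∃ t, chk3 f_B80mm_101_s1 t 1 1 1 = true :=
  ⟨(l 5), by decide +kernel⟩

theorem c_B80mm_101_s1 : CertF 536870912 536870912 536870912 536870912 649613803 48318383 false false false .npn 1 0 1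
    ndB8q1 ndB0q1 pcB0 cut_B80mm_101_s1 Ext.none :=
  certF2 (fam := false) (s1 := false) (s2 := false) (a := 1) (b := 0) (c := 1) (cn := .npn) (n1 := ndB8q1) (n2 := ndB0q1) (pc := pcB0) (cut := cut_B80mm_101_s1) (xt := Ext.none) (P1 := 536870912) (W1 := 536870912) (P2 := 536870912) (W2 := 536870912) (P3 := 649613803) (W3 := 48318383)
    rfl (fun _ => rfl) k0_B80mm_101_s1

theorem s_B80mm_101_s1 {κ x : ℝ} (hκ : κ * h0 = ken x) (hx : ((649613803 : ℕ) : ℝ) / S ≤ x)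
    (hx' : x ≤ (((649613803 : ℕ) : ℝ) + (48318383 : ℕ)) / S) :
    AltB (VFD κ) PP tK tL pcB [⟨3, 0, 0, 1449551462⟩] 1 0 1 8 0 (sgb false) (sgb false) x :=
  strip_altBD (m := 1449551462) true rfl hκ (SH.κ0 hκ (SH.hx1 hx).le (SH.hx2 hx').le) (SH.hx1 hx).le (SH.hx2 hx') (covB81).cov (covB01).cov hx hx' c_B80mm_101_s1 cutB_nil (noExt_B)

noncomputable def cut_B80mm_102_s1 : Cut := Cut.of [[⟨4, 0, 0, 1449551462⟩]]

noncomputable def f_B80mm_102_s1 : ℕ → ℕ → ℕ → ℕ → Bool := onCell 536870912 536870912 0 536870912 649613803 48318383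
    (rowF 0 false false false .npp 1 0 2 (qsf 536870912 536870912 0 536870912 0) ndB8q1 ndB0q2 pcB0 cut_B80mm_102_s1 Ext.none)

def k0_B80mm_102_s1 : ∃ t, chk3 f_B80mm_102_s1 t 1 1 1 = true :=
  ⟨(l 5), by decide +kernel⟩

theorem c_B80mm_102_s1 : CertF 536870912 536870912 0 536870912 649613803 48318383 false false false .npp 1 0 2
    ndB8q1 ndB0q2 pcB0 cut_B80mm_102_s1 Ext.none :=
  certF0 (fam := false) (s1 := false) (s2 := false) (a := 1) (b := 0) (c := 2) (cn := .npp) (n1 := ndB8q1) (n2 := ndB0q2) (pc := pcB0) (cut := cut_B80mm_102_s1) (xt := Ext.none) (P1 := 536870912) (W1 := 536870912) (P2 := 0) (W2 := 536870912) (P3 := 649613803) (W3 := 48318383)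
    rfl k0_B80mm_102_s1

theorem s_B80mm_102_s1 {κ x : ℝ} (hκ : κ * h0 = ken x) (hx : ((649613803 : ℕ) : ℝ) / S ≤ x)
    (hx' : x ≤ (((649613803 : ℕ) : ℝ) + (48318383 : ℕ)) / S) :
    AltB (VFD κ) PP tK tL pcB [⟨3, 0, 0, 1449551462⟩] 1 0 2 8 0 (sgb false) (sgb false) x :=
  strip_altBD (m := 1449551462) true rfl hκ (SH.κ0 hκ (SH.hx1 hx).le (SH.hx2 hx').le) (SH.hx1 hx).le (SH.hx2 hx') (covB81).cov (covB02).cov hx hx' c_B80mm_102_s1 cutB_nil (noExt_B)

noncomputable def cut_B80mm_112_s1 : Cut := Cut.of [[⟨4, 0, 0, 1449551462⟩]]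

noncomputable def f_B80mm_112_s1 : ℕ → ℕ → ℕ → ℕ → Bool := onCell 536870912 536870912 0 536870912 649613803 48318383
    (rowF 0 false false false .dn 1 1 2 (qsf 536870912 536870912 0 536870912 1) ndB8q1 ndB0q2 pcB1 cut_B80mm_112_s1 Ext.none)

def k0_B80mm_112_s1 : ∃ t, chk3 f_B80mm_112_s1 t 1 1 1 = true :=
  ⟨(l 5), by decide +kernel⟩

theorem c_B80mm_112_s1 : CertF 536870912 536870912 0 536870912 649613803 48318383 false false false .dn 1 1 2
    ndB8q1 ndB0q2 pcB1 cut_B80mm_112_s1 Ext.none :=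
  certF0 (fam := false) (s1 := false) (s2 := false) (a := 1) (b := 1) (c := 2) (cn := .dn) (n1 := ndB8q1) (n2 := ndB0q2) (pc := pcB1) (cut := cut_B80mm_112_s1) (xt := Ext.none) (P1 := 536870912) (W1 := 536870912) (P2 := 0) (W2 := 536870912) (P3 := 649613803) (W3 := 48318383)
    rfl k0_B80mm_112_s1

theorem s_B80mm_112_s1 {κ x : ℝ} (hκ : κ * h0 = ken x) (hx : ((649613803 : ℕ) : ℝ) / S ≤ x)
    (hx' : x ≤ (((649613803 : ℕ) : ℝ) + (48318383 : ℕ)) / S) :
    AltB (VFD κ) PP tK tL pcB [⟨3, 0, 0, 1449551462⟩] 1 1 2 8 0 (sgb false) (sgb false) x :=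
  strip_altBD (m := 1449551462) true rfl hκ (SH.κ0 hκ (SH.hx1 hx).le (SH.hx2 hx').le) (SH.hx1 hx).le (SH.hx2 hx') (covB81).cov (covB02).cov hx hx' c_B80mm_112_s1 cutB_nil (noExt_B)

noncomputable def cut_B80mm_202_s1 : Cut := Cut.of [[⟨4, 0, 0, 1449551462⟩]]

noncomputable def f_B80mm_202_s1 : ℕ → ℕ → ℕ → ℕ → Bool := onCell 1073741824 536870912 0 536870912 649613803 48318383
    (rowF 0 false false false .pp 2 0 2 (qsf 1073741824 536870912 0 536870912 0) ndB8q2 ndB0q2 pcB0 cut_B80mm_202_s1 Ext.none)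

def k0_B80mm_202_s1 : ∃ t, chk3 f_B80mm_202_s1 t 1 1 1 = true :=
  ⟨(l 5), by decide +kernel⟩

theorem c_B80mm_202_s1 : CertF 1073741824 536870912 0 536870912 649613803 48318383 false false false .pp 2 0 2
    ndB8q2 ndB0q2 pcB0 cut_B80mm_202_s1 Ext.none :=
  certF0 (fam := false) (s1 := false) (s2 := false) (a := 2) (b := 0) (c := 2) (cn := .pp) (n1 := ndB8q2) (n2 := ndB0q2) (pc := pcB0) (cut := cut_B80mm_202_s1) (xt := Ext.none) (P1 := 1073741824) (W1 := 536870912) (P2 := 0) (W2 := 536870912) (P3 := 649613803) (W3 := 48318383)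
    rfl k0_B80mm_202_s1

theorem s_B80mm_202_s1 {κ x : ℝ} (hκ : κ * h0 = ken x) (hx : ((649613803 : ℕ) : ℝ) / S ≤ x)
    (hx' : x ≤ (((649613803 : ℕ) : ℝ) + (48318383 : ℕ)) / S) :
    AltB (VFD κ) PP tK tL pcB [⟨3, 0, 0, 1449551462⟩] 2 0 2 8 0 (sgb false) (sgb false) x :=
  strip_altBD (m := 1449551462) true rfl hκ (SH.κ0 hκ (SH.hx1 hx).le (SH.hx2 hx').le) (SH.hx1 hx).le (SH.hx2 hx') (covB82).cov (covB02).cov hx hx' c_B80mm_202_s1 cutB_nil (noExt_B)

end Pool.Agent.Strip051.G.I6050_6500.Tab.St.C
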