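import Pool.Agent.Strip051.G.I6050_6500.Tab
import Pool.Agent.Strip051.PB.StripB

/-! # Strips, near vertex: certificates 4 (generated) -/

set_option linter.all false
set_option maxRecDepth 100000

namespace Pool.Agent.Strip051.G.I6050_6500.Tab.CS.BB08

open Pool.Agent.Strip051.PB Pool.Agent.Strip051.PB.T
open Pool.Agent.Strip051.G.I6050_6500.Tab

noncomputable def cut_pp_022_s : Cut := Cut.of [[⟨4, 0, 0, 1449551462⟩], [⟨0, 0, 0, 53687091⟩, ⟨1, 1, 0, 53687091⟩, ⟨2, 1, 0, 53687091⟩]]

noncomputable def f_pp_022_s : ℕ → ℕ → ℕ → ℕ → Bool := onCell 0 536870912 1073741824 536870912 649613803 48318383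
    (rowNE 3 eng mog cd0q0 cd8q2 pd2 1 false true true .pp 0 2 2 (qsf 0 536870912 1073741824 536870912 2) ndB0q0 ndB8q2 pcB2 cut_pp_022_s Ext.none)

def k0_pp_022_s : ∃ t, chk3 f_pp_022_s t 16 16 1 = true :=
  ⟨(b (l 14) (a (l 14) (b (a (l 14) (b (a (l 14) (b (l 14) (b (l 14) (l 16768432)))) (a (b (l 14) (l 16756040)) (b (a (l 16765560) (l 16764968)) (c (l 16762496) (l 16762384)))))) (a (b (a (l 14) (l 16745696)) (a (l 16733144) (l 16737296))) (b (a (l 16749816) (b (l 16755768) (l 16751736))) (c (l 16748656) (l 16748728))))))), by decide +kernel⟩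

def k1_pp_022_s : ∃ t, chk3 f_pp_022_s t 17 32 1 = true :=
  ⟨(b (l 3) (a (a (a (a (l 14) (l 3)) (l 3)) (l 3)) (l 3))), by decide +kernel⟩

def k2_pp_022_s : ∃ t, chk3 f_pp_022_s t 34 132 1 = true :=
  ⟨(b (a (b (a (a (l 14) (a (b (l 3) (a (b (a (l 14) (l 474761658807)) (l 16776840)) (b (l 3) (b (a (l 311016030743) (l 3)) (c (l 146196660839) (l 148344144487)))))) (l 3))) (l 3)) (a (a (a (l 14) (a (l 16774544) (l 16775368))) (a (b (a (l 16776056) (l 16776920)) (l 16775264)) (b (b (a (b (a (l 284172485095) (l 3)) (c (l 16777496) (l 129553662519))) (l 3)) (a (l 16776784) (a (l 108078826087) (a (l 285246227047) (l 426980147863))))) (c (l 16776576) (l 16776576))))) (b (l 3) (a (a (b (a (b (a (l 16777576) (l 3)) (l 16777448)) (l 3)) (a (l 16776736) (b (a (l 16777224) (l 3)) (l 16777416)))) (a (l 543481136359) (l 3))) (l 3))))) (l 3)) (a (b (a (b (a (c (l 16774048) (l 16773384)) (l 16775208)) (a (l 16771704) (c (l 16774312) (l 16774312)))) (a (a (b (l 16776528) (l 16775160))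 (b (b (a (a (l 16777728) (l 241759683287)) (l 532743717639)) (b (a (l 16776808) (l 225653555895)) (l 16777120))) (l 16776144))) (b (b (l 3) (a (a (l 518785073879) (l 3)) (l 3))) (a (b (a (a (l 16777016) (l 191293817543)) (l 504289559207)) (a (l 16776616) (a (l 16776984) (l 169818981015)))) (a (c (l 502142075943) (l 517174461447)) (l 3)))))) (a (a (l 16770120) (a (l 16771632) (l 16773264))) (a (a (l 16774240) (l 16775240)) (a (b (l 16776088) (l 16775048)) (b (b (a (c (l 16777728) (l 40969962167)) (l 474224788039)) (a (l 16776560) (l 31843156615))) (l 16776024)))))) (b (l 3) (a (a (a (a (b (b (l 3) (l 459192402455)) (c (l 16777416) (l 16777416))) (b (l 3) (b (l 433959469527) (l 16777640)))) (a (b (l 3) (a (c (l 448454984343) (l 461876757111)) (l 3))) (l 3))) (l 3)) (l 3))))), by decide +kernel⟩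

def k3_pp_022_s : ∃ t, chk3 f_pp_022_s t 34 133 1 = true :=
  ⟨(a (b (b (b (a (l 16770864) (a (l 16772528) (l 16774504))) (a (l 16768504) (a (l 16771512) (l 16773456)))) (a (l 16768240) (a (l 16769928) (a (l 16771432) (l 16772392))))) (a (c (l 16766424) (l 16763728)) (a (l 16766776) (l 16770080)))) (b (b (a (a (a (a (l 16775208) (l 16776024)) (b (b (a (l 16776952) (c (l 304573580215) (l 305110451191))) (l 16777336)) (l 16775904))) (b (b (l 3) (a (a (c (l 280414389191) (l 286319969223)) (l 3)) (l 3))) (b (a (a (l 16776896) (c (l 262697649047) (l 270750712711))) (l 3)) (a (l 16776624) (a (a (l 16777536) (l 260550166039)) (l 3)))))) (l 3)) (a (a (c (l 16774512) (l 16774512)) (b (a (l 16775848) (b (a (l 16776832) (c (l 142438565383) (l 218674234295))) (l 16776560))) (l 16775616))) (a (b (b (l 3) (a (a (l 198810010503) (l 3)) (l 3))) (b (a (a (l 16776768) (l 181093270343)) (l 3)) (a (l 16776488) (a (l 162839659287) (l 541333652247))))) (l 3)))) (a (b (a (c (l 16773104)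 (l 16772448)) (c (l 16775048) (l 16774392))) (a (l 16769720) (c (l 16772960) (l 16772952)))) (b (a (b (b (a (l 16775968) (a (l 16776696) (l 146733531863))) (l 16775936)) (l 16775152)) (a (b (b (l 533817459799) (a (l 16777792) (l 508584526487))) (b (l 16777680) (l 16776344))) (b (l 3) (a (b (l 488720302695) (l 16777072)) (l 498383979463))))) (a (l 16774240) (a (l 16775040) (a (l 16775768) (b (l 16777432) (l 16775736))))))))), by decide +kernel⟩

def k4_pp_022_s : ∃ t, chk3 f_pp_022_s t 34 67 1 = true :=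
  ⟨(b (a (a (b (c (l 16762232) (l 16762104)) (l 16755496)) (b (l 16764872) (l 16761920))) (a (b (a (l 16766560) (l 16769864)) (l 16765960)) (b (b (a (l 16772808) (l 16773432)) (a (l 16769416) (l 16772648))) (a (l 16766336) (l 16770840))))) (a (a (l 16749416) (b (l 16755192) (l 16751112))) (a (b (l 16759104) (l 16754880)) (b (l 16763112) (l 16758872))))), by decide +kernel⟩

def k5_pp_022_s : ∃ t, chk3 f_pp_022_s t 35 66 1 = true :=
  ⟨(b (l 3) (b (l 3) (b (l 3) (a (a (a (a (b (b (l 486035948391) (a (l 16777000) (l 331953996775))) (l 16777120)) (b (l 3) (b (l 446844371703) (a (l 16776928) (l 283635614647))))) (l 3)) (l 3)) (l 3))))), by decide +kernel⟩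

def k6_pp_022_s : ∃ t, chk3 f_pp_022_s t 35 67 1 = true :=
  ⟨(b (a (b (b (a (a (a (l 16774888) (a (l 16775616) (l 16776760))) (b (a (b (l 421611438711) (a (l 16776848) (l 234243490695))) (l 3)) (a (l 16776304) (b (l 397452247527) (a (l 16776768) (l 118279374183)))))) (l 3)) (a (a (l 16773272) (a (l 16774728) (l 16776352))) (a (a (b (b (a (l 16777856) (l 542407394055)) (l 16777592)) (l 16776144)) (b (l 538112427479) (b (a (l 16777128) (l 298668001255)) (l 16776856)))) (a (b (l 3) (l 517174461783)) (l 3))))) (b (a (a (l 16772480) (l 16773104)) (a (c (l 16775048) (l 16775696)) (b (a (a (l 16776792) (c (l 116668761415) (l 189683205271))) (l 496236496071)) (a (l 16775976) (b (l 164450272327) (l 16776680)))))) (a (a (l 16769072) (l 16770992)) (a (l 16772928) (l 16775528))))) (b (l 3) (a (b (b (l 3) (a (a (l 475298530359) (l 3)) (l 3))) (b (a (c (a (l 16778176) (l 447918113719)) (a (l 57612960839) (l 446844371863))) (l 3)) (a (a (l 16775800) (l 33990640615)) (a (c (l 411410891559)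 (l 423758922503)) (l 3))))) (l 3)))) (a (a (b (a (l 16765984) (l 16767856)) (l 16762808)) (a (b (b (l 16770808) (l 16768696)) (l 16765608)) (b (b (l 16772744) (l 16770616)) (l 16770088)))) (a (a (b (b (l 16775344) (l 16772552)) (a (l 16771496) (l 16772128))) (b (b (b (a (l 16777992) (b (l 538112427063) (l 238538458295))) (l 16777168)) (l 16774496)) (b (l 16772352) (l 16770216)))) (b (b (b (l 3) (a (a (b (l 505900172199) (l 192904430791)) (l 3)) (l 3))) (b (a (a (l 16776488) (a (l 166597756007) (l 459729273575))) (l 3)) (a (l 16775904) (b (l 486035948887) (a (l 16777752) (l 3)))))) (a (b (l 16774304) (l 16772144)) (b (a (l 16775760) (b (c (l 180019529175) (l 182703883735)) (l 16776192))) (l 16774096))))))), by decide +kernel⟩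

def k7_pp_022_s : ∃ t, chk3 f_pp_022_s t 8 17 1 = true :=
  ⟨(a (a (b (b (a (l 14) (b (l 16718288) (l 16709992))) (a (l 16688688) (l 16697560))) (a (a (l 16661736) (l 16666200)) (a (l 16691560) (l 16695880)))) (b (b (a (b (l 16726896) (l 16718616)) (b (l 16735112) (l 16726864))) (a (l 16706176) (l 16719704))) (b (a (l 16689512) (l 16697784)) (l 16688224)))) (b (a (b (a (b (l 16745744) (l 16734840)) (b (b (a (l 16750768) (l 16754536)) (l 16753776)) (l 16747536))) (a (l 16727624) (b (l 16734064) (l 16725832)))) (b (b (a (a (b (l 16758552) (l 16754160)) (b (l 16762456) (l 16758144))) (b (a (l 16768792) (b (a (l 16770032) (l 16771960)) (l 16770880))) (a (l 16762088) (l 16768448)))) (a (a (l 16747880) (l 16754240)) (a (l 16760800) (l 16762080)))) (a (b (l 16746744) (l 16733232)) (b (b (l 16756248) (l 16746800)) (l 16745888))))) (a (b (a (l 16705752) (l 16713392)) (a (l 16689080) (l 16696744))) (b (a (l 16720888) (l 16738728)) (b (l 16712008) (l 16703568)))))), by decide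 +kernel⟩

def k8_pp_022_s : ∃ t, chk3 f_pp_022_s t 9 16 1 = true :=
  ⟨(a (b (l 3) (b (l 3) (a (b (l 3) (a (b (l 3) (a (a (a (b (b (l 552607942167) (a (l 16776920) (l 172503337223))) (l 16775552)) (b (l 539723040935) (b (l 118816245047) (l 16775984)))) (b (l 3) (b (l 522543171511) (a (l 87140861207) (l 477982884919))))) (l 3))) (l 3))) (l 3)))) (l 3)), by decide +kernel⟩

def k9_pp_022_s : ∃ t, chk3 f_pp_022_s t 36 34 1 = true :=
  ⟨(b (b (a (b (a (b (b (a (l 16774432) (a (l 16775880) (l 16778168))) (l 16775640)) (l 16774048)) (b (a (b (c (l 480667240055) (l 493015270983)) (a (l 16776744) (l 425369535191))) (l 3)) (b (a (l 16777472) (a (l 294373033639) (l 3))) (a (l 16775088) (a (l 16776528) (l 255718327959)))))) (b (a (l 16772616) (a (l 16773504) (l 16776720))) (a (l 16771168) (l 16772344)))) (b (l 3) (a (a (b (b (a (l 218674234999) (l 3)) (a (l 16776304) (a (l 16777016) (l 193978173927)))) (l 16775192)) (b (l 556902910919) (b (a (l 149417887159) (l 530059363623))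 (a (l 16776080) (l 16778328))))) (a (a (b (l 3) (l 520932558743)) (l 3)) (l 3))))) (a (b (a (l 16765440) (a (l 16770872) (l 16771464))) (a (l 16761160) (l 16765024))) (b (b (b (a (l 16774552) (a (a (l 16776904) (l 469392950199)) (l 3))) (a (l 16773488) (a (l 16777632) (l 462950499767)))) (a (l 16771912) (a (l 16774728) (b (a (l 16776664) (l 295446775623)) (l 16776072))))) (a (a (l 16767824) (l 16772328)) (a (l 16771560) (l 16774744)))))) (a (b (a (l 16754688) (l 16763752)) (a (l 16746112) (l 16749936))) (b (b (a (l 16764512) (c (l 16770880) (l 16770016))) (a (l 16760160) (l 16763968))) (c (l 16760912) (l 16760784))))), by decide +kernel⟩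

def k10_pp_022_s : ∃ t, chk3 f_pp_022_s t 37 34 1 = true :=
  ⟨(b (b (l 3) (a (b (b (l 3) (b (l 3) (a (a (c (l 416242730039) (l 427517019159)) (l 3)) (l 3)))) (b (a (b (a (a (l 16776416) (l 214379267815)) (l 3)) (a (l 16775824) (a (l 16778496) (l 553681683847)))) (l 3)) (b (a (a (l 16774768) (l 16777928)) (l 547239234119)) (a (l 16774640) (a (a (l 16776952) (l 411410892743)) (l 3)))))) (l 3))) (b (a (a (b (c (l 16773304) (l 16773296)) (c (l 16770336) (l 16770280))) (b (a (b (l 16777144) (l 16773712)) (b (b (l 472614176215) (a (l 16776696) (l 302962968487))) (l 16775568))) (l 16772744))) (b (a (b (l 3) (a (b (l 426980148247) (l 59760445559)) (l 3))) (l 3)) (a (a (l 16775528) (b (a (l 16778624) (a (l 211158042967) (l 322827192935))) (l 16775000))) (a (b (l 539186170407) (a (l 16776376) (a (l 146733533255) (l 252497103319)))) (b (l 3) (l 501068335207)))))) (a (b (a (l 16763416) (l 16769744)) (a (l 16759104) (l 16762848))) (b (a (l 16773472) (a (l 16773632) (a (l 16776320)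 (b (l 139217340183) (l 16774864))))) (a (l 16769168) (l 16772864)))))), by decide +kernel⟩

def k11_pp_022_s : ∃ t, chk3 f_pp_022_s t 18 35 1 = true :=
  ⟨(b (a (a (b (l 16744936) (l 16731400)) (b (l 16752272) (l 16738664))) (a (b (l 16759800) (l 16746040)) (b (b (a (l 16762272) (l 16765968)) (l 16759840)) (l 16758688)))) (a (a (l 16729296) (b (l 16730384) (l 16721648))) (b (a (l 16737560) (l 16744928)) (a (l 16728800) (l 16735904))))), by decide +kernel⟩

def k12_pp_022_s : ∃ t, chk3 f_pp_022_s t 19 17 1 = true :=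
  ⟨(b (b (l 3) (a (b (l 3) (a (b (a (b (a (c (l 446307501735) (l 458118661735)) (l 3)) (a (c (l 16778856) (l 16778848)) (b (l 560661006327) (l 247665265415)))) (l 3)) (b (b (a (l 16777512) (l 530059365191)) (a (l 16774480) (a (l 184314497511) (l 3)))) (a (l 16772864) (a (l 16775616) (a (l 138680469895) (l 418390213543)))))) (l 3))) (l 3))) (b (a (b (a (b (a (l 16769624) (c (l 16773312) (l 16775904))) (a (l 16765368) (l 16768992))) (b (b (a (a (a (l 16779264) (l 253033974647)) (l 535428073895)) (l 3)) (b (a (a (l 16775504) (l 205789334071)) (l 3)) (a (l 16775328) (l 497310239143)))) (a (l 16773952) (a (a (l 16774912) (b (l 16778176) (l 16774736))) (b (l 440401921415) (l 16778704)))))) (a (a (l 16758960) (c (l 16767840) (l 16767816))) (a (b (l 16768344) (l 16764032)) (b (l 16774568) (l 16767632))))) (b (a (b (l 3) (b (l 3) (a (a (c (l 295446777415) (l 401747215159)) (l 3)) (l 3)))) (l 3)) (a (a (b (b (a (l 16775728) (b (l 461876757655) (l 16778272))) (l 16774464)) (l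 16771224)) (a (b (b (l 3) (a (l 16778008) (l 268066360151))) (l 16773912)) (b (l 550460460919) (a (l 16777872) (b (l 190756948631) (l 16775064)))))) (a (b (l 3) (a (b (l 486572820311) (l 70497864087)) (b (l 3) (l 435570083079)))) (l 3))))) (a (b (a (l 16752184) (b (l 16766768) (l 16757208))) (a (l 16743272) (l 16750584))) (b (a (b (a (l 16766896) (l 16770472)) (a (l 16762584) (l 16771384))) (b (b (a (l 16778064) (a (c (l 285246229911) (l 387788571271)) (l 3))) (a (l 16772952) (a (l 16775608) (b (l 354502576823) (l 16776824))))) (a (l 16769696) (c (l 16773256) (l 16775848))))) (a (b (l 16765256) (l 16755512)) (a (b (l 16770568) (l 16760928)) (b (l 16768872) (l 16764448)))))))), by decide +kernel⟩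

def k13_pp_022_s : ∃ t, chk3 f_pp_022_s t 5 8 1 = true :=
  ⟨(a (b (l 3) (b (l 3) (a (b (l 3) (a (b (a (b (a (c (l 557976655207) (l 573545911463)) (l 3)) (b (a (a (c (l 159081564855) (l 153175984967)) (l 513416366119)) (l 3)) (a (a (l 16774792) (a (l 16776112) (l 146733533767))) (a (c (l 449528726999) (l 458118661527)) (l 3))))) (l 3)) (a (a (b (l 16775016) (l 16767984)) (b (b (a (l 16778744) (c (l 301352357335) (l 399599731479))) (l 16777432)) (l 16774120))) (b (b (l 3) (a (a (b (l 368461220615) (l 16778184)) (l 3)) (l 3))) (b (b (a (a (l 16775792) (l 263234521751)) (l 3)) (a (l 16778184) (l 524153784775))) (a (l 16773904) (a (c (l 16776520) (l 16778472)) (l 451139339639))))))) (l 3))) (l 3)))) (l 3)), by decide +kernel⟩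

def k14_pp_022_s : ∃ t, chk3 f_pp_022_s t 4 9 1 = true :=
  ⟨(b (a (a (b (a (a (l 16631816) (l 16640456)) (b (l 16660912) (l 16644664))) (a (l 16625080) (l 16640376))) (b (a (b (l 16696824) (l 16658760)) (b (l 16700672) (l 16672648))) (a (b (l 16641792) (l 16624640)) (b (l 16655312) (l 16637952))))) (a (b (a (b (l 16715072) (l 16686816)) (b (a (l 16715192) (l 16732776)) (l 16711296))) (a (b (l 16669120) (l 16651256)) (b (l 16683024) (l 16664936)))) (b (a (b (a (b (l 16733840) (l 16724696)) (a (l 16745064) (l 16748816))) (a (l 16711144) (l 16728576))) (b (b (a (l 16748512) (b (l 16758128) (l 16753432))) (a (l 16739112) (l 16746400))) (b (b (l 16735672) (l 16741360)) (b (l 16736656) (l 16742536))))) (b (a (l 16707160) (b (l 16722000) (l 16705600))) (a (l 16678560) (l 16712912)))))) (a (a (a (b (l 16571608) (l 16537648)) (b (l 16585456) (l 16551416))) (b (a (l 16619944) (l 16643592)) (a (l 16585792) (l 16609280)))) (b (a (a (b (l 16633656) (l 16616400)) (b (l 16646920)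 (l 16629024))) (b (a (l 16660416) (l 16673760)) (b (l 16669168) (l 16659992)))) (a (b (a (l 16599176) (l 16611552)) (a (l 16581984) (l 16594304))) (b (a (l 16624008) (l 16636952)) (a (l 16606280) (l 16639488))))))), by decide +kernel⟩

def k15_pp_022_s : ∃ t, chk3 f_pp_022_s t 20 36 1 = true :=
  ⟨(b (a (b (a (a (a (l 16765552) (l 16767304)) (b (l 16767016) (l 16762424))) (b (a (l 16770544) (a (l 16773184) (b (l 16778680) (l 16773824)))) (c (l 16773040) (l 16772920)))) (a (l 16764136) (b (c (l 16768448) (l 16768920)) (l 16763832)))) (b (a (a (b (b (a (c (l 290078068279) (l 393694151303)) (l 3)) (a (l 16775576) (a (l 130090535463) (l 306721066023)))) (l 16775032)) (b (a (l 567103459239) (l 3)) (b (a (a (l 16776400) (l 210084301607)) (l 497847109399)) (c (l 16778080) (a (l 16774560) (l 16778936)))))) (b (l 3) (a (a (a (b (l 3) (l 282561875127)) (l 560661007543)) (l 3)) (l 3)))) (a (a (b (l 16768488) (l 16763840)) (b (l 16774648) (l 16767424))) (b (b (a (a (l 16775816)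 (a (l 190756948647) (l 456508048375))) (l 3)) (a (l 16774416) (a (b (l 289541196695) (l 16776480)) (l 533280589879)))) (a (l 16773576) (a (l 16773600) (a (l 16777544) (b (l 155860339351) (l 16774648))))))))) (a (b (a (l 16744248) (l 16761984)) (l 16746920)) (b (a (b (c (l 16766360) (l 16766160)) (l 16761664)) (b (c (l 16773392) (l 16773280)) (c (l 16768744) (l 16768568)))) (a (l 16749288) (b (l 16764616) (l 16754160)))))), by decide +kernel⟩

def k16_pp_022_s : ∃ t, chk3 f_pp_022_s t 21 36 1 = true :=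
  ⟨(b (a (b (l 3) (a (b (l 3) (a (a (b (c (l 460803016007) (l 470466692359)) (l 16778584)) (b (l 3) (b (l 527375009175) (l 195588786711)))) (l 3))) (l 3))) (l 3)) (a (b (a (a (b (c (l 16773392) (l 16775968)) (l 16768736)) (b (b (a (b (l 321216580599) (l 16776576)) (l 556902910135)) (a (l 16774840) (a (l 16776152) (l 174113949191)))) (l 16774192))) (b (a (a (a (b (l 3) (l 448454984503)) (l 591799520743)) (l 3)) (l 3)) (b (a (a (l 16778632) (b (l 543481136583) (l 205252463175))) (l 3)) (a (l 16774552) (a (b (l 328732773367) (l 16776568)) (l 561734748311)))))) (a (b (c (l 16771152) (l 16771032)) (c (l 16766544) (l 16766392))) (b (a (l 16773680) (a (l 16773656) (a (l 16777576) (b (l 170355852743) (l 16774656))))) (c (l 16773440) (l 16773360))))) (b (l 3) (a (a (a (b (b (c (l 474761659751) (l 486035948839)) (l 16778568)) (l 16772448)) (b (b (l 3) (b (l 534891201879) (l 189146335671))) (l 16776784))) (b (l 3) (b (a (b (l 306184194999) (l 16776456)) (l 547776104439)) (a (l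 16774704) (a (l 16775992) (l 142975437255)))))) (b (l 3) (b (l 3) (a (a (a (l 309942291047) (l 573545907959)) (l 3)) (l 3)))))))), by decide +kernel⟩

def k17_pp_022_s : ∃ t, chk3 f_pp_022_s t 10 37 1 = true :=
  ⟨(a (b (a (b (b (l 16731240) (l 16726392)) (b (l 16742488) (l 16737728))) (b (b (l 16756272) (l 16751488)) (l 16743920))) (a (b (a (l 16706416) (l 16734056)) (l 16700576)) (b (l 16733888) (b (l 16716120) (l 16711416))))) (b (a (b (b (a (l 16761920) (c (l 16768840) (l 16768720))) (a (l 16751864) (c (l 16764328) (l 16766768)))) (a (l 16744176) (l 16760584))) (b (a (a (b (l 16768672) (l 16764120)) (b (l 16774688) (l 16767472))) (a (b (b (a (l 16775776) (b (l 500531463255) (l 16778184))) (l 16774288)) (l 16773440)) (b (b (l 607368777367) (a (b (l 260013296279) (l 16776240)) (l 516637591207))) (a (l 16774632) (b (l 16778776) (l 16773832)))))) (a (b (c (l 16766240) (l 16767392)) (l 16763704)) (b (c (l 16773024) (l 16772896)) (c (l 16767968) (l 16767840)))))) (a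 (b (b (l 16750504) (l 16745440)) (l 16737952)) (b (a (l 16747976) (b (c (l 16762904) (l 16762720)) (l 16752424))) (b (l 16754248) (l 16749176)))))), by decide +kernel⟩

def k18_pp_022_s : ∃ t, chk3 f_pp_022_s t 11 18 1 = true :=
  ⟨(b (l 3) (a (b (a (a (b (b (l 3) (b (a (a (b (l 585893938791) (l 224579815911)) (l 3)) (l 3)) (b (a (a (l 16776088) (l 339470191511)) (l 3)) (a (l 16778368) (l 571935295959))))) (a (b (l 16774728) (l 16767824)) (b (b (a (c (l 16776464) (l 16778424)) (c (l 462950499527) (l 472077304983))) (l 16777536)) (l 16773848)))) (b (l 3) (b (b (l 3) (a (a (a (l 177872046727) (l 346986384823)) (l 618106194455)) (l 3))) (b (a (c (l 16778480) (a (l 16775008) (l 136532985543))) (a (l 506973914647) (l 3))) (a (l 16773400) (a (l 16778576) (a (l 221358590967) (l 495699625063)))))))) (a (l 3) (l 3))) (a (b (a (b (l 16769720) (c (l 16764632) (l 16764424))) (b (a (l 16769632) (a (l 16772208) (l 16773928))) (l 16771488))) (a (b (l 16759440) (l 16748984)) (b (l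 16767584) (l 16762440)))) (b (a (a (b (a (b (a (l 16776464) (l 234780363959)) (l 16774392)) (b (l 534354331431) (l 16778728))) (l 16774048)) (a (b (b (l 3) (a (l 247128395015) (l 519858816343))) (l 16774024)) (b (l 3) (b (a (l 16776592) (l 255181458775)) (l 16774472))))) (b (l 3) (a (a (b (l 548312975335) (l 16778816)) (a (b (l 3) (l 260013297047)) (l 588578294919))) (l 3)))) (b (b (a (l 16774536) (a (l 16774488) (a (c (l 16779024) (l 167671500615)) (l 567103457351)))) (a (l 16766688) (a (l 16771888) (c (l 16775368) (l 16777960))))) (a (l 16768016) (a (l 16767960) (l 16774048))))))) (b (l 3) (a (b (l 3) (a (b (a (a (a (b (l 3) (l 244980911863)) (l 588578294999)) (l 3)) (l 3)) (b (a (a (l 16775352) (l 170355855351)) (l 588041424087)) (a (l 16773584) (a (l 16776176) (l 295983649703))))) (l 3))) (l 3))))), by decide +kernel⟩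

def k19_pp_022_s : ∃ t, chk3 f_pp_022_s t 10 19 1 = true :=
  ⟨(b (a (b (a (l 16707840) (b (l 16725456) (l 16695224))) (a (l 16668512) (l 16702312))) (b (a (b (l 16728120) (c (l 16729224) (l 16729024))) (b (l 16741664) (l 16731800))) (a (c (l 16715048) (l 16715144)) (b (l 16724624) (l 16722944))))) (a (b (a (l 16649920) (l 16662648)) (a (l 16631096) (l 16643672))) (a (b (l 16696160) (l 16677000)) (b (l 16708608) (l 16689240))))), by decide +kernel⟩

def k20_pp_022_s : ∃ t, chk3 f_pp_022_s t 11 19 1 = true :=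
  ⟨(b (a (b (b (a (a (l 16741344) (l 16758696)) (a (b (c (l 16762880) (l 16762640)) (l 16762904)) (b (l 16769680) (l 16765696)))) (a (c (l 16745216) (l 16745080)) (a (l 16744696) (b (l 16759248) (l 16748848))))) (a (b (l 16735072) (l 16735624)) (b (b (l 16750800) (l 16745576)) (l 16737896)))) (b (a (b (a (b (a (l 16769608) (l 16773072)) (l 16771272)) (b (b (a (a (l 159618437111) (l 535964944359)) (l 3)) (a (l 16775192) (a (l 286319973111) (l 3)))) (a (l 16771184) (a (l 16773768) (a (l 16775056) (l 62981672807)))))) (a (b (l 16760744) (l 16760776)) (b (l 16772800) (l 16762248)))) (b (a (b (l 3) (a (b (l 553681685431) (a (l 16775872) (l 258402685703))) (l 628306745111))) (l 3)) (a (a (b (l 16772680) (l 16767296)) (b (a (l 16779496) (b (l 375977416119) (l 16775600))) (l 16770680))) (b (a (a (b (l 3) (l 224579817879)) (l 619179938119)) (l 3)) (a (c (l 16774072) (l 16777984)) (b (l 508584528055) (a (l 16775248) (l 16779216)))))))) (a (b (a (l 16758112) (b (l 16762104) (l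 16751464))) (b (l 16753328) (l 16748096))) (b (b (a (l 16763560) (a (l 16768592) (l 16771968))) (a (l 16763280) (l 16769984))) (a (c (l 16760440) (l 16760400)) (b (l 16759192) (l 16764176))))))) (a (b (a (a (l 16717960) (l 16718936)) (a (l 16730496) (l 16736704))) (a (l 16702104) (b (l 16709472) (l 16689800)))) (b (b (a (l 16740440) (a (l 16739496) (l 16756440))) (a (l 16741568) (l 16743600))) (a (b (l 16732752) (l 16708360)) (b (l 16745160) (l 16715832)))))), by decide +kernel⟩

def k21_pp_022_s : ∃ t, chk3 f_pp_022_s t 4 5 1 = true :=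
  ⟨(a (b (b (b (a (a (l 16503264) (l 16538016)) (a (l 16551368) (l 16585296))) (b (a (l 16504904) (l 16531720)) (b (a (l 16470024) (l 16497024)) (b (a (a (l 16454960) (l 16469032)) (l 16489232)) (b (b (b (a (l 16458424) (l 16485752)) (a (a (c (l 16471712) (l 16385768)) (l 16505640)) (a (l 16540304) (l 16553568)))) (a (l 16455592) (l 16483048))) (a (l 16454040) (l 16481480))))))) (b (a (a (l 16429632) (l 16443656)) (a (l 16457168) (l 16470200))) (a (a (l 16397480) (l 16411144)) (l 16514400)))) (a (b (a (l 16391864) (l 16425824)) (l 16309248)) (b (b (l 16460416) (l 16364568)) (l 16335944)))) (b (b (b (a (b (l 16597104) (l 16574488)) (b (a (l 16588952) (l 16600520)) (l 16608736))) (b (a (l 16575280) (b (l 16564096) (l 16555296))) (b (a (l 16522376) (l 16546128)) (b (a (l 16514768) (l 16538648)) (b (b (b (a (l 16511416) (l 16535416)) (a (a (l 16566472) (l 16516072)) (c (l 16534480) (l 16533696)))) (a (l 16508848) (l 16532992))) (a (l 16507232) (l 16531320))))))) (a (a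 (l 16486776) (l 16509160)) (a (l 16520456) (l 16541600)))) (b (a (b (l 16420136) (l 16385416)) (l 16484456)) (a (l 16374472) (l 16451520))))), by decide +kernel⟩

def k22_pp_022_s : ∃ t, chk3 f_pp_022_s t 5 10 1 = true :=
  ⟨(b (b (a (a (a (b (l 16633240) (l 16594016)) (b (l 16624312) (l 16626024))) (a (b (l 16636464) (l 16637456)) (b (l 16669496) (l 16628216)))) (a (b (a (l 16682800) (l 16691208)) (a (l 16641856) (l 16655984))) (b (a (b (l 16694112) (l 16684720)) (b (c (l 16707136) (l 16728720)) (a (l 16695264) (l 16702160)))) (a (l 16675584) (b (l 16710576) (l 16701040)))))) (b (b (a (a (l 16606960) (a (l 16601568) (l 16612592))) (a (a (l 16626256) (l 16640816)) (a (l 16655656) (b (l 16672664) (l 16668344))))) (a (a (l 16577080) (a (l 16592384) (l 16602672))) (a (a (l 16615624) (l 16630448)) (a (l 16645784) (b (l 16663752) (l 16658624)))))) (b (a (a (l 16588824) (l 16620000)) (a (a (l 16616136) (b (l 16621520) (l 16615744))) (a (b (l 16616112) (l 16630144)) (b (l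 16652824) (l 16646016))))) (a (b (a (l 16581400) (l 16602416)) (a (a (c (l 16570400) (l 16570216)) (l 16613392)) (b (b (b (l 16578136) (a (l 16571280) (l 16581960))) (l 16575344)) (l 16573488)))) (b (b (a (l 16606136) (a (l 16624592) (l 16639680))) (a (l 16603752) (a (l 16621584) (l 16634648)))) (b (b (b (a (l 16601952) (l 16625728)) (b (a (l 16601120) (l 16625024)) (a (a (l 16593912) (l 16606104)) (a (l 16618112) (l 16629704))))) (a (l 16599232) (l 16623312))) (a (l 16597504) (l 16621576)))))))) (b (a (a (l 16554280) (l 16595744)) (a (a (l 16571856) (l 16584096)) (a (l 16596056) (l 16628264)))) (a (a (l 16495232) (l 16537984)) (a (a (l 16535296) (l 16547368)) (a (l 16559096) (l 16573696)))))), by decide +kernel⟩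

def k23_pp_022_s : ∃ t, chk3 f_pp_022_s t 5 11 1 = true :=
  ⟨(a (a (b (c (l 16536688) (l 16525144)) (b (l 16385912) (l 16350904))) (b (b (l 16501616) (l 16444768)) (b (l 16420072) (a (l 16369104) (l 16387528))))) (b (a (b (a (l 16498864) (l 16511000)) (a (l 16463184) (l 16480080))) (b (a (l 16526808) (l 16566480)) (a (l 16500184) (l 16521216)))) (a (b (a (l 16433616) (l 16454952)) (l 16526360)) (b (l 16572400) (l 16511176))))), by decide +kernel⟩

def k24_pp_022_s : ∃ t, chk3 f_pp_022_s t 2 3 1 = true :=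
  ⟨(b (a (b (a (b (a (l 16230680) (l 16268728)) (a (l 16165616) (l 16178912))) (b (a (l 16364360) (b (l 16294472) (l 16262776))) (a (l 16222872) (a (l 16222360) (l 16239624))))) (b (a (l 6) (b (a (l 16169120) (l 16209584)) (l 6))) (l 6))) (b (a (b (a (b (l 16316944) (l 16304080)) (b (l 16353416) (l 16336080))) (a (a (l 16260400) (l 16285400)) (a (l 16311168) (l 16337464)))) (b (a (a (b (l 16389720) (l 16375000)) (l 16533640)) (b (l 16453200) (l 16441912))) (a (l 16482872) (l 16472488)))) (b (a (a (l 16276552) (l 16309528)) (a (l 16362256) (l 2))) (l 6)))) (l 6)), by decide +kernel⟩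

def k25_pp_022_s : ∃ t, chk3 f_pp_022_s t 3 8 1 = true :=
  ⟨(l 3), by decide +kernel⟩

def k26_pp_022_s : ∃ t, chk3 f_pp_022_s t 6 18 1 = true :=
  ⟨(l 3), by decide +kernel⟩

def k27_pp_022_s : ∃ t, chk3 f_pp_022_s t 12 38 1 = true :=
  ⟨(a (b (a (b (l 3) (a (a (a (b (l 3) (l 586967681623)) (l 3)) (l 3)) (l 3))) (l 3)) (a (b (a (a (b (a (l 16774504) (b (l 271287587479) (l 16774816))) (l 16769800)) (b (b (l 631527968871) (a (l 16776488) (l 362555643335))) (l 16775800))) (b (l 3) (b (a (a (l 201494368263) (l 567103457447)) (l 3)) (a (l 16775128) (a (l 285783102183) (l 636896676807)))))) (b (a (l 16771168) (a (l 16770960) (c (l 16779520) (l 16778848)))) (a (l 16760360) (l 16772288)))) (b (l 3) (a (a (b (b (l 531669977527) (a (l 16775352) (l 16779592))) (l 16771984)) (a (b (l 592336392167) (l 16774432)) (b (l 3) (b (l 255718330999) (l 16774664))))) (a (b (l 3) (b (l 621327421239) (a (l 16776264) (l 322827195367)))) (l 3)))))) (l 3)), by decide +kernel⟩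

def k28_pp_022_s : ∃ t, chk3 f_pp_022_s t 12 39 1 = true :=
  ⟨(a (b (a (b (a (c (l 16762720) (l 16762072)) (a (l 16764904) (l 16770832))) (a (l 16742328) (l 16758888))) (b (a (b (l 16773288) (l 16762472)) (b (a (l 16772888) (a (l 16779208) (b (l 375977416311) (l 16775472)))) (l 16771528))) (a (c (l 16764840) (l 16764872)) (c (l 16771048) (l 16769744))))) (a (b (l 16750696) (l 16748880)) (b (a (l 16744896) (l 16761016)) (l 16749776)))) (b (a (b (a (a (b (a (b (l 3) (l 16777032)) (l 584283328471)) (l 16773648)) (b (l 3) (b (l 320679712775) (l 16775376)))) (a (b (l 3) (a (l 502678948183) (l 650855321719))) (l 3))) (a (b (l 16774888) (l 16764096)) (b (a (l 16779512) (b (l 497847109319) (l 16775920))) (l 16775488)))) (b (l 3) (a (b (a (l 589652036855) (l 3)) (a (l 16779992) (b (l 543481136951) (l 16776320)))) (b (l 3) (a (l 622401162247) (l 3)))))) (b (a (a (c (l 16766672) (l 16766704)) (c (l 16772616) (l 16772616))) (a (b (l 16775960) (l 16765384)) (b (a (c (l 16780336)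 (l 16780328)) (b (l 605758162631) (l 16776576))) (l 16771128)))) (a (a (l 16747272) (l 16760344)) (a (b (l 16760192) (l 16755344)) (l 16771168)))))), by decide +kernel⟩

def k29_pp_022_s : ∃ t, chk3 f_pp_022_s t 13 19 1 = true :=
  ⟨(b (l 3) (a (b (l 3) (b (a (b (a (c (l 627233002055) (l 666961447319)) (l 3)) (a (a (l 16780536) (a (l 191293824487) (l 376514290999))) (l 647097223975))) (l 3)) (a (b (a (l 16771400) (a (l 16775360) (l 239612208871))) (a (l 16766256) (l 16771528))) (a (b (l 634749192311) (a (l 16775304) (l 214379275495))) (a (l 624548645015) (l 3)))))) (l 3))), by decide +kernel⟩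

def k30_pp_022_s : ∃ t, chk3 f_pp_022_s t 7 9 1 = true :=
  ⟨(l 3), by decide +kernel⟩

def k31_pp_022_s : ∃ t, chk3 f_pp_022_s t 3 40 1 = true :=
  ⟨(a (a (a (b (a (b (l 16719856) (b (l 16734944) (l 16730920))) (b (l 16752296) (l 16723704))) (a (b (a (l 16700216) (l 16707048)) (l 16715376)) (b (a (l 16713560) (l 16719600)) (l 16750136)))) (b (a (b (l 16752384) (l 16755432)) (b (a (l 16749264) (l 16761800)) (l 16754680))) (a (b (l 16728040) (a (l 16717912) (l 16723824))) (b (l 16738368) (l 16752960))))) (b (a (b (a (a (l 16768304) (l 16774280)) (a (l 16779440) (b (l 122574350839) (l 16771320)))) (a (b (l 16764992) (l 16751112)) (b (l 16774248) (l 16769752)))) (b (a (a (b (l 567640327127) (l 16781136)) (l 553681683447)) (l 3)) (a (b (a (l 16770968) (l 16775400)) (l 16768360)) (b (a (l 321216593207) (l 3)) (a (l 16774808) (l 272898211927)))))) (a (a (b (l 16747544) (l 16741792)) (b (a (l 16753560) (l 16757184)) (l 16750320))) (b (a (a (l 16760936) (l 16770000)) (b (l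 16784896) (l 16768576))) (a (a (l 16755800) (l 16758888)) (a (l 16762008) (l 2))))))) (b (b (l 3) (l 2)) (l 2))), by decide +kernel⟩

def k32_pp_022_s : ∃ t, chk3 f_pp_022_s t 3 41 1 = true :=
  ⟨(a (b (a (a (b (a (b (l 16687216) (l 16683192)) (b (l 16701304) (l 16697592))) (a (l 16718408) (l 16733288))) (b (a (b (l 16714704) (l 16711320)) (b (l 16726712) (l 16724096))) (a (l 16726520) (b (l 16720888) (l 16716944))))) (b (a (a (l 16767440) (l 16745248)) (a (l 16752992) (l 7616837431))) (a (a (b (l 16732776) (l 16729504)) (l 16762304)) (a (l 16749968) (l 2))))) (a (b (a (a (b (l 16668496) (l 16661920)) (a (l 16718632) (l 16726208))) (a (b (l 16698448) (l 16692408)) (b (l 16712288) (l 16706560)))) (b (b (a (a (l 16655696) (l 16671392)) (a (l 16686504) (l 16700848))) (a (a (l 16618256) (l 16644472)) (a (l 16680632) (l 16695064)))) (b (b (b (a (a (l 16644720) (l 16660232)) (l 16682688)) (b (a (a (l 16642632) (l 16657304)) (l 16679688)) (a (a (l 16640936) (l 16654080))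 (a (l 16669184) (l 16683552))))) (a (l 16656896) (l 16674880))) (a (l 16655336) (l 16673560))))) (b (a (a (b (l 16725144) (l 16719752)) (b (l 16736784) (l 16731816))) (a (b (l 16746504) (l 16742552)) (l 2))) (a (b (a (l 16697840) (l 16712848)) (b (b (b (l 16709624) (a (a (l 16684400) (l 16690920)) (l 16711944))) (l 16701616)) (l 16700400))) (a (a (b (l 16731880) (b (b (b (l 16724432) (l 16708784)) (l 16716312)) (l 16715152))) (l 2)) (l 2)))))) (l 2)), by decide +kernel⟩

def k33_pp_022_s : ∃ t, chk3 f_pp_022_s t 3 21 1 = true :=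
  ⟨(a (a (a (a (b (l 16641536) (l 16590744)) (b (l 16635616) (l 16650408))) (b (a (l 16651408) (l 16666416)) (a (l 16625520) (l 16641672)))) (a (b (a (l 16680392) (l 16693376)) (a (l 16656888) (l 16671016))) (b (a (l 16705232) (l 2)) (l 2)))) (l 2)), by decide +kernel⟩

def k34_pp_022_s : ∃ t, chk3 f_pp_022_s t 3 11 1 = true :=
  ⟨(a (a (a (b (b (b (l 16643472) (l 16610704)) (a (l 16542208) (l 16562680))) (b (l 16617128) (l 16517288))) (b (b (a (l 16602448) (l 16619968)) (l 16592024)) (a (l 16579408) (l 2)))) (b (a (b (l 16644312) (l 2)) (l 2)) (l 2))) (l 2)), by decide +kernel⟩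

def k35_pp_022_s : ∃ t, chk3 f_pp_022_s t 3 3 1 = true :=
  ⟨(a (b (b (a (b (a (b (l 16504520) (l 2)) (l 2)) (l 2)) (l 2)) (l 2)) (l 2)) (l 2)), by decide +kernel⟩

theorem s36_pp_022_s : ∃ t, chk3 f_pp_022_s t 3 20 1 = true := ex3_b k31_pp_022_s k32_pp_022_s

theorem s37_pp_022_s : ∃ t, chk3 f_pp_022_s t 3 10 1 = true := ex3_b s36_pp_022_s k33_pp_022_s

theorem s38_pp_022_s : ∃ t, chk3 f_pp_022_s t 3 5 1 = true := ex3_b s37_pp_022_s k34_pp_022_s

theorem s39_pp_022_s : ∃ t, chk3 f_pp_022_s t 12 19 1 = true := ex3_b k27_pp_022_s k28_pp_022_s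

theorem s40_pp_022_s : ∃ t, chk3 f_pp_022_s t 6 19 1 = true := ex3_a s39_pp_022_s k29_pp_022_s

theorem s41_pp_022_s : ∃ t, chk3 f_pp_022_s t 6 9 1 = true := ex3_b k26_pp_022_s s40_pp_022_s

theorem s42_pp_022_s : ∃ t, chk3 f_pp_022_s t 3 9 1 = true := ex3_a s41_pp_022_s k30_pp_022_s

theorem s43_pp_022_s : ∃ t, chk3 f_pp_022_s t 3 4 1 = true := ex3_b k25_pp_022_s s42_pp_022_s

theorem s44_pp_022_s : ∃ t, chk3 f_pp_022_s t 3 2 1 = true := ex3_b s43_pp_022_s s38_pp_022_s

theorem s45_pp_022_s : ∃ t, chk3 f_pp_022_s t 3 1 1 = true := ex3_b s44_pp_022_s k35_pp_022_s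

theorem s46_pp_022_s : ∃ t, chk3 f_pp_022_s t 5 5 1 = true := ex3_b k22_pp_022_s k23_pp_022_s

theorem s47_pp_022_s : ∃ t, chk3 f_pp_022_s t 2 5 1 = true := ex3_a k21_pp_022_s s46_pp_022_s

theorem s48_pp_022_s : ∃ t, chk3 f_pp_022_s t 5 19 1 = true := ex3_a k19_pp_022_s k20_pp_022_s

theorem s49_pp_022_s : ∃ t, chk3 f_pp_022_s t 10 36 1 = true := ex3_a k15_pp_022_s k16_pp_022_s

theorem s50_pp_022_s : ∃ t, chk3 f_pp_022_s t 10 18 1 = true := ex3_b s49_pp_022_s k17_pp_022_s

theorem s51_pp_022_s : ∃ t, chk3 f_pp_022_s t 5 18 1 = true := ex3_a s50_pp_022_s k18_pp_022_s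

theorem s52_pp_022_s : ∃ t, chk3 f_pp_022_s t 5 9 1 = true := ex3_b s51_pp_022_s s48_pp_022_s

theorem s53_pp_022_s : ∃ t, chk3 f_pp_022_s t 2 9 1 = true := ex3_a k14_pp_022_s s52_pp_022_s

theorem s54_pp_022_s : ∃ t, chk3 f_pp_022_s t 18 34 1 = true := ex3_a k9_pp_022_s k10_pp_022_s

theorem s55_pp_022_s : ∃ t, chk3 f_pp_022_s t 18 17 1 = true := ex3_b s54_pp_022_s k11_pp_022_s

theorem s56_pp_022_s : ∃ t, chk3 f_pp_022_s t 9 17 1 = true := ex3_a s55_pp_022_s k12_pp_022_s

theorem s57_pp_022_s : ∃ t, chk3 f_pp_022_s t 9 8 1 = true := ex3_b k8_pp_022_s s56_pp_022_s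

theorem s58_pp_022_s : ∃ t, chk3 f_pp_022_s t 35 33 1 = true := ex3_b k5_pp_022_s k6_pp_022_s

theorem s59_pp_022_s : ∃ t, chk3 f_pp_022_s t 34 66 1 = true := ex3_b k2_pp_022_s k3_pp_022_s

theorem s60_pp_022_s : ∃ t, chk3 f_pp_022_s t 34 33 1 = true := ex3_b s59_pp_022_s k4_pp_022_s

theorem s61_pp_022_s : ∃ t, chk3 f_pp_022_s t 17 33 1 = true := ex3_a s60_pp_022_s s58_pp_022_s

theorem s62_pp_022_s : ∃ t, chk3 f_pp_022_s t 17 16 1 = true := ex3_b k1_pp_022_s s61_pp_022_s

theorem s63_pp_022_s : ∃ t, chk3 f_pp_022_s t 8 16 1 = true := ex3_a k0_pp_022_s s62_pp_022_s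

theorem s64_pp_022_s : ∃ t, chk3 f_pp_022_s t 8 8 1 = true := ex3_b s63_pp_022_s k7_pp_022_s

theorem s65_pp_022_s : ∃ t, chk3 f_pp_022_s t 4 8 1 = true := ex3_a s64_pp_022_s s57_pp_022_s

theorem s66_pp_022_s : ∃ t, chk3 f_pp_022_s t 2 8 1 = true := ex3_a s65_pp_022_s k13_pp_022_s

theorem s67_pp_022_s : ∃ t, chk3 f_pp_022_s t 2 4 1 = true := ex3_b s66_pp_022_s s53_pp_022_s

theorem s68_pp_022_s : ∃ t, chk3 f_pp_022_s t 2 2 1 = true := ex3_b s67_pp_022_s s47_pp_022_s

theorem s69_pp_022_s : ∃ t, chk3 f_pp_022_s t 2 1 1 = true := ex3_b s68_pp_022_s k24_pp_022_s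

theorem s70_pp_022_s : ∃ t, chk3 f_pp_022_s t 1 1 1 = true := ex3_a s69_pp_022_s s45_pp_022_s

theorem c_pp_022_s : CertNE 0 536870912 1073741824 536870912 649613803 48318383 3 eng mog cd0q0 cd8q2 pd2 false true true .pp 0 2 2
    ndB0q0 ndB8q2 pcB2 cut_pp_022_s Ext.none :=
  certNE1 (fam := false) (s1 := true) (s2 := true) (a := 0) (b := 2) (c := 2) (cn := .pp) (n1 := ndB0q0) (n2 := ndB8q2) (pc := pcB2) (cut := cut_pp_022_s) (xt := Ext.none) (P1 := 0) (W1 := 536870912) (P2 := 1073741824) (W2 := 536870912) (P3 := 649613803) (W3 := 48318383) (N0 := 3) (En := eng) (mo := mog) (C1 := cd0q0) (C2 := cd8q2) (C3 := pd2)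
    rfl (fun _ => rfl) s70_pp_022_s

noncomputable def cut_pp_023_s : Cut := Cut.of [[⟨4, 0, 0, 1449551462⟩]]

noncomputable def f_pp_023_s : ℕ → ℕ → ℕ → ℕ → Bool := onCell 1073741824 536870912 0 1230186008 649613803 48318383
    (rowNE 3 eng mog cd0q0 cd8q3 pd2 2 false true true .up 0 2 3 (qsf 0 536870912 0 1230186008 2) ndB0q0 ndB8q3 pcB2 cut_pp_023_s Ext.none)

def k0_pp_023_s : ∃ t, chk3 f_pp_023_s t 1 2 1 = true :=
  ⟨(a (l 2) (a (l 2) (l 6))), by decide +kernel⟩

def k1_pp_023_s : ∃ t, chk3 f_pp_023_s t 4 3 1 = true :=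
  ⟨(b (l 2) (b (l 2) (l 3))), by decide +kernel⟩

def k2_pp_023_s : ∃ t, chk3 f_pp_023_s t 5 6 1 = true :=
  ⟨(a (l 2) (b (l 2) (a (l 2) (b (l 2) (l 16756432))))), by decide +kernel⟩

def k3_pp_023_s : ∃ t, chk3 f_pp_023_s t 10 14 1 = true :=
  ⟨(a (a (l 3) (a (l 3) (b (l 2) (b (l 2) (a (b (a (l 3) (l 16776968)) (a (l 16776848) (l 16775416))) (a (a (l 16785144) (a (l 16773968) (l 16773216))) (b (l 16771912) (l 16770200)))))))) (b (a (l 2) (l 215385899463)) (a (b (l 16785264) (l 16785376)) (b (l 16747624) (l 16739568))))), by decide +kernel⟩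

def k4_pp_023_s : ∃ t, chk3 f_pp_023_s t 40 15 1 = true :=
  ⟨(b (l 3) (a (b (l 3) (a (l 3) (b (l 3) (a (l 3) (b (l 3) (l 293299309207)))))) (b (a (l 3) (b (a (l 3) (l 370608720071)) (a (c (l 355039463607) (l 356113206023)) (c (l 161765933927) (l 16786008))))) (a (b (a (l 3) (b (l 389936068359) (l 16782048))) (a (b (l 243907181303) (l 16774096)) (b (l 16773304) (l 16769304)))) (b (a (c (l 16784616) (l 16784384)) (l 16780192)) (a (l 16782536) (b (l 16764400) (l 16761096)))))))), by decide +kernel⟩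

def k5_pp_023_s : ∃ t, chk3 f_pp_023_s t 41 15 1 = true :=
  ⟨(a (b (b (a (l 3) (a (b (l 3) (l 3)) (b (l 16787136) (l 16776856)))) (b (a (l 3) (a (l 16777128) (l 16774472))) (a (a (l 372219329879) (l 16787544)) (a (l 16774200) (l 16771840))))) (b (a (a (b (c (l 16787128) (l 189683224759)) (l 16782304)) (b (l 16784040) (l 16789976))) (a (b (l 16770928) (l 16767488)) (b (l 16769304) (l 16765800)))) (a (b (a (l 16776208) (l 16764128)) (a (l 16764928) (l 16758096))) (b (l 16761704) (l 16754960))))) (b (a (b (b (a (l 16776320) (l 16774064)) (a (l 16774424) (l 16772608))) (a (b (l 16772264) (l 16770112)) (b (l 16770720) (l 16767944)))) (a (a (b (l 16792776) (l 16788256)) (b (l 16769880) (l 16786728))) (b (b (l 16768584) (c (l 16757440) (l 16766296))) (a (a (a (l 16785384) (a (l 16784472) (b (l 16744008) (l 16759992)))) (l 16782320)) (l 16781080))))) (a (b (b (l 16787392) (a (l 16763640) (l 16761120))) (b (a (l 16758056) (l 16754968)) (a (l 16750520) (l 16746248)))) (b (a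 (a (b (l 16763280) (l 16758720)) (b (l 16740208) (l 16755232))) (a (a (a (b (l 16758480) (l 16750368)) (b (c (l 16754784) (l 16753128)) (c (l 16746176) (l 16744968)))) (b (l 16750424) (l 16742120))) (b (l 16749072) (l 16740672)))) (a (a (b (l 16730464) (l 16740688)) (b (l 16745928) (l 16734744))) (a (a (a (b (l 16740616) (l 16729192)) (b (c (l 16735960) (l 16735096)) (c (l 16724240) (l 16723560)))) (b (l 16732152) (l 16720640))) (b (l 16730616) (l 16718992)))))))), by decide +kernel⟩

def k6_pp_023_s : ∃ t, chk3 f_pp_023_s t 21 15 1 = true :=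
  ⟨(b (a (b (l 16785272) (b (l 16759704) (l 16742656))) (b (l 16751632) (b (l 16723680) (l 16716752)))) (b (b (a (l 16754896) (l 16705984)) (a (l 16745352) (l 16694120))) (b (a (l 16734152) (l 16680504)) (a (l 16721336) (l 16665160))))), by decide +kernel⟩

def k7_pp_023_s : ∃ t, chk3 f_pp_023_s t 11 7 1 = true :=
  ⟨(b (b (a (b (l 16741080) (l 16733456)) (l 16778576)) (a (b (l 16724088) (a (l 16720792) (l 16702936))) (b (l 16695568) (l 16676784)))) (b (b (a (a (l 16708264) (l 16686448)) (l 16654312)) (a (a (l 16694248) (l 16668776)) (l 16629768))) (b (a (b (l 16664584) (l 16648768)) (b (l 16607760) (l 16586456))) (a (b (l 16631056) (l 16632544)) (a (l 16631440) (l 16573952)))))), by decide +kernel⟩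

def k8_pp_023_s : ∃ t, chk3 f_pp_023_s t 3 3 1 = true :=
  ⟨(a (b (b (a (l 2) (b (l 16725544) (l 16726192))) (a (b (a (l 16737136) (l 16730368)) (a (l 16723968) (l 16714912))) (b (l 16726152) (l 16936688)))) (a (b (b (a (l 16761328) (l 16680952)) (b (l 16643032) (l 16623240))) (b (b (a (l 16609944) (l 16562624)) (a (l 16575240) (l 16517840))) (b (a (b (l 16546552) (l 16521200)) (l 16468680)) (a (b (l 16492368) (l 16462472)) (l 16409272))))) (a (b (b (l 16662440) (l 16584792)) (b (l 16629512) (b (l 16401384) (l 16340704)))) (b (l 6) (l 6))))) (l 6)), by decide +kernel⟩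

theorem s9_pp_023_s : ∃ t, chk3 f_pp_023_s t 20 15 1 = true := ex3_a k4_pp_023_s k5_pp_023_s

theorem s10_pp_023_s : ∃ t, chk3 f_pp_023_s t 10 15 1 = true := ex3_a s9_pp_023_s k6_pp_023_s

theorem s11_pp_023_s : ∃ t, chk3 f_pp_023_s t 10 7 1 = true := ex3_b k3_pp_023_s s10_pp_023_s

theorem s12_pp_023_s : ∃ t, chk3 f_pp_023_s t 5 7 1 = true := ex3_a s11_pp_023_s k7_pp_023_s

theorem s13_pp_023_s : ∃ t, chk3 f_pp_023_s t 5 3 1 = true := ex3_b k2_pp_023_s s12_pp_023_s

theorem s14_pp_023_s : ∃ t, chk3 f_pp_023_s t 2 3 1 = true := ex3_a k1_pp_023_s s13_pp_023_s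

theorem s15_pp_023_s : ∃ t, chk3 f_pp_023_s t 1 3 1 = true := ex3_a s14_pp_023_s k8_pp_023_s

theorem s16_pp_023_s : ∃ t, chk3 f_pp_023_s t 1 1 1 = true := ex3_b k0_pp_023_s s15_pp_023_s

theorem c_pp_023_s : CertNE 0 536870912 0 1230186008 649613803 48318383 3 eng mog cd0q0 cd8q3 pd2 false true true .up 0 2 3
    ndB0q0 ndB8q3 pcB2 cut_pp_023_s Ext.none :=
  certNE2 (fam := false) (s1 := true) (s2 := true) (a := 0) (b := 2) (c := 3) (cn := .up) (n1 := ndB0q0) (n2 := ndB8q3) (pc := pcB2) (cut := cut_pp_023_s) (xt := Ext.none) (P1 := 0) (W1 := 536870912) (P2 := 0) (W2 := 1230186008) (P3 := 649613803) (W3 := 48318383) (N0 := 3) (En := eng) (mo := mog) (C1 := cd0q0) (C2 := cd8q3) (C3 := pd2)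
    rfl (fun _ => rfl) s16_pp_023_s

noncomputable def cut_pp_033_s : Cut := Cut.of [[⟨4, 0, 0, 1449551462⟩]]

noncomputable def f_pp_033_s : ℕ → ℕ → ℕ → ℕ → Bool := onCell 1610612736 536870912 0 1230186008 649613803 48318383
    (rowNE 3 eng mog cd0q0 cd8q3 pd3 2 false true true .pnn 0 3 3 (qsf 0 536870912 0 1230186008 3) ndB0q0 ndB8q3 pcB3 cut_pp_033_s Ext.none)

def k0_pp_033_s : ∃ t, chk3 f_pp_033_s t 1 1 1 = true :=
  ⟨(b (l 6) (l 6)), by decide +kernel⟩

theorem c_pp_033_s : CertNE 0 536870912 0 1230186008 649613803 48318383 3 eng mog cd0q0 cd8q3 pd3 false true true .pnn 0 3 3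
    ndB0q0 ndB8q3 pcB3 cut_pp_033_s Ext.none :=
  certNE2 (fam := false) (s1 := true) (s2 := true) (a := 0) (b := 3) (c := 3) (cn := .pnn) (n1 := ndB0q0) (n2 := ndB8q3) (pc := pcB3) (cut := cut_pp_033_s) (xt := Ext.none) (P1 := 0) (W1 := 536870912) (P2 := 0) (W2 := 1230186008) (P3 := 649613803) (W3 := 48318383) (N0 := 3) (En := eng) (mo := mog) (C1 := cd0q0) (C2 := cd8q3) (C3 := pd3)
    rfl (fun _ => rfl) k0_pp_033_s

noncomputable def cut_pp_101_s : Cut := Cut.of [[⟨4, 0, 0, 1449551462⟩]]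

noncomputable def f_pp_101_s : ℕ → ℕ → ℕ → ℕ → Bool := onCell 536870912 536870912 536870912 536870912 649613803 48318383
    (rowNE 3 eng mog cd0q1 cd8q1 pd0 0 false true true .npn 1 0 1 (qsf 536870912 536870912 536870912 536870912 0) ndB0q1 ndB8q1 pcB0 cut_pp_101_s Ext.none)

def k0_pp_101_s : ∃ t, chk3 f_pp_101_s t 1 1 1 = true :=
  ⟨(a (l 3) (l 5)), by decide +kernel⟩

theorem c_pp_101_s : CertNE 536870912 536870912 536870912 536870912 649613803 48318383 3 eng mog cd0q1 cd8q1 pd0 false true true .npn 1 0 1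
    ndB0q1 ndB8q1 pcB0 cut_pp_101_s Ext.none :=
  certNE0 (fam := false) (s1 := true) (s2 := true) (a := 1) (b := 0) (c := 1) (cn := .npn) (n1 := ndB0q1) (n2 := ndB8q1) (pc := pcB0) (cut := cut_pp_101_s) (xt := Ext.none) (P1 := 536870912) (W1 := 536870912) (P2 := 536870912) (W2 := 536870912) (P3 := 649613803) (W3 := 48318383) (N0 := 3) (En := eng) (mo := mog) (C1 := cd0q1) (C2 := cd8q1) (C3 := pd0)
    rfl k0_pp_101_s

noncomputable def cut_pp_102_s : Cut := Cut.of [[⟨4, 0, 0, 1449551462⟩]]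

noncomputable def f_pp_102_s : ℕ → ℕ → ℕ → ℕ → Bool := onCell 536870912 536870912 1073741824 536870912 649613803 48318383
    (rowNE 3 eng mog cd0q1 cd8q2 pd0 0 false true true .npp 1 0 2 (qsf 536870912 536870912 1073741824 536870912 0) ndB0q1 ndB8q2 pcB0 cut_pp_102_s Ext.none)

def k0_pp_102_s : ∃ t, chk3 f_pp_102_s t 1 1 1 = true :=
  ⟨(a (l 3) (b (l 5) (l 3))), by decide +kernel⟩

theorem c_pp_102_s : CertNE 536870912 536870912 1073741824 536870912 649613803 48318383 3 eng mog cd0q1 cd8q2 pd0 false true true .npp 1 0 2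
    ndB0q1 ndB8q2 pcB0 cut_pp_102_s Ext.none :=
  certNE0 (fam := false) (s1 := true) (s2 := true) (a := 1) (b := 0) (c := 2) (cn := .npp) (n1 := ndB0q1) (n2 := ndB8q2) (pc := pcB0) (cut := cut_pp_102_s) (xt := Ext.none) (P1 := 536870912) (W1 := 536870912) (P2 := 1073741824) (W2 := 536870912) (P3 := 649613803) (W3 := 48318383) (N0 := 3) (En := eng) (mo := mog) (C1 := cd0q1) (C2 := cd8q2) (C3 := pd0)
    rfl k0_pp_102_s

noncomputable def cut_pp_112_s : Cut := Cut.of [[⟨4, 0, 0, 1449551462⟩]]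

noncomputable def f_pp_112_s : ℕ → ℕ → ℕ → ℕ → Bool := onCell 536870912 536870912 1073741824 536870912 649613803 48318383
    (rowNE 3 eng mog cd0q1 cd8q2 pd1 0 false true true .dn 1 1 2 (qsf 536870912 536870912 1073741824 536870912 1) ndB0q1 ndB8q2 pcB1 cut_pp_112_s Ext.none)

def k0_pp_112_s : ∃ t, chk3 f_pp_112_s t 1 1 1 = true :=
  ⟨(a (l 3) (b (l 5) (l 3))), by decide +kernel⟩

theorem c_pp_112_s : CertNE 536870912 536870912 1073741824 536870912 649613803 48318383 3 eng mog cd0q1 cd8q2 pd1 false true true .dn 1 1 2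
    ndB0q1 ndB8q2 pcB1 cut_pp_112_s Ext.none :=
  certNE0 (fam := false) (s1 := true) (s2 := true) (a := 1) (b := 1) (c := 2) (cn := .dn) (n1 := ndB0q1) (n2 := ndB8q2) (pc := pcB1) (cut := cut_pp_112_s) (xt := Ext.none) (P1 := 536870912) (W1 := 536870912) (P2 := 1073741824) (W2 := 536870912) (P3 := 649613803) (W3 := 48318383) (N0 := 3) (En := eng) (mo := mog) (C1 := cd0q1) (C2 := cd8q2) (C3 := pd1)
    rfl k0_pp_112_s

noncomputable def cut_pp_113_s : Cut := Cut.of [[⟨4, 0, 0, 1449551462⟩], [⟨0, 1, 0, 67108864⟩, ⟨1, 1, 0, 67108864⟩, ⟨2, 2, 0, 16777216⟩]]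

noncomputable def f_pp_113_s : ℕ → ℕ → ℕ → ℕ → Bool := onCell 536870912 536870912 0 1230186008 649613803 48318383
    (rowNE 3 eng mog cd0q1 cd8q3 pd1 2 false true true .nn 1 1 3 (qsf 536870912 536870912 0 1230186008 1) ndB0q1 ndB8q3 pcB1 cut_pp_113_s Ext.none)

def k0_pp_113_s : ∃ t, chk3 f_pp_113_s t 1 1 1 = true :=
  ⟨(b (a (l 2) (a (l 2) (b (a (l 2) (b (a (l 2) (l 14)) (l 3))) (l 3)))) (b (a (a (l 2) (b (l 2) (a (l 2) (l 3)))) (a (l 3) (l 3))) (a (a (b (l 2) (l 3)) (l 3)) (l 3)))), by decide +kernel⟩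

theorem c_pp_113_s : CertNE 536870912 536870912 0 1230186008 649613803 48318383 3 eng mog cd0q1 cd8q3 pd1 false true true .nn 1 1 3
    ndB0q1 ndB8q3 pcB1 cut_pp_113_s Ext.none :=
  certNE2 (fam := false) (s1 := true) (s2 := true) (a := 1) (b := 1) (c := 3) (cn := .nn) (n1 := ndB0q1) (n2 := ndB8q3) (pc := pcB1) (cut := cut_pp_113_s) (xt := Ext.none) (P1 := 536870912) (W1 := 536870912) (P2 := 0) (W2 := 1230186008) (P3 := 649613803) (W3 := 48318383) (N0 := 3) (En := eng) (mo := mog) (C1 := cd0q1) (C2 := cd8q3) (C3 := pd1)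
    rfl (fun _ => rfl) k0_pp_113_s

noncomputable def cut_pp_123_s : Cut := Cut.of [[⟨4, 0, 0, 1449551462⟩], [⟨0, 1, 0, 67108864⟩, ⟨1, 1, 0, 67108864⟩, ⟨2, 2, 0, 16777216⟩]]

noncomputable def f_pp_123_s : ℕ → ℕ → ℕ → ℕ → Bool := onCell 1073741824 536870912 0 1230186008 649613803 48318383
    (rowNE 3 eng mog cd0q1 cd8q3 pd2 2 false true true .npn 1 2 3 (qsf 536870912 536870912 0 1230186008 2) ndB0q1 ndB8q3 pcB2 cut_pp_123_s Ext.none)

def k0_pp_123_s : ∃ t, chk3 f_pp_123_s t 8 2 1 = true :=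
  ⟨(b (b (a (l 14) (a (l 14) (a (l 14) (b (l 16751928) (b (l 16764128) (l 16770224)))))) (a (l 3) (b (a (l 14) (b (a (a (l 14) (b (b (l 14) (a (l 14) (l 16776296))) (b (a (l 14) (a (b (l 16776544) (l 16776824)) (l 16781408))) (a (a (l 3) (b (b (c (l 309942288183) (l 312089771783)) (l 366850604183)) (l 3))) (a (b (l 277193165895) (b (c (l 327659028087) (l 330343382567)) (l 401210342215))) (b (l 16776856) (b (l 16777016) (l 302426098071)))))))) (b (a (b (l 16774560) (l 16795824)) (l 16774008)) (a (b (a (l 16776176) (l 16775784)) (a (a (b (l 16776520) (l 16776864)) (b (l 16776336) (l 16776552))) (l 16775848))) (b (l 16774464) (a (l 16775984) (l 16775728)))))) (a (b (a (l 3) (b (a (l 3) (a (l 3) (b (l 366313732967) (l 3)))) (l 3))) (l 3)) (b (a (b (a (a (b (b (l 284709357911) (c (l 317458480903) (l 319605964487))) (l 392620407335)) (b (l 16776864) (b (l 293836164359) (l 338396446151)))) (a (b (l 16776592) (l 16776912)) (b (l 16776248) (l 16776624)))) (a (l 3) (a (b (b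 (l 306184194455) (l 367387475127)) (l 3)) (b (b (l 16776864) (l 283635617031)) (b (c (l 322827189927) (l 324974676135)) (l 395304762247)))))) (b (a (b (l 16776168) (c (l 16786616) (l 16781328))) (l 16776064)) (b (a (a (l 16776728) (l 16776496)) (l 16776112)) (a (a (a (l 294909906343) (l 16776984)) (l 16776800)) (a (l 16776632) (l 16776464)))))) (a (l 3) (b (a (a (b (b (l 346449509751) (l 3)) (l 3)) (b (b (l 16777048) (l 311016032615)) (l 384030472887))) (a (b (l 16776888) (b (l 290078067271) (l 328195901543))) (b (l 16776752) (l 16776968)))) (a (l 3) (a (l 3) (b (b (l 301889224503) (l 349133864263)) (l 3)))))))))) (l 3)))) (l 3)), by decide +kernel⟩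

def k1_pp_123_s : ∃ t, chk3 f_pp_123_s t 18 8 1 = true :=
  ⟨(b (l 16736480) (a (b (l 16758016) (l 16764376)) (l 16752744))), by decide +kernel⟩

def k2_pp_123_s : ∃ t, chk3 f_pp_123_s t 36 18 1 = true :=
  ⟨(b (a (b (l 16771208) (a (l 16773824) (l 16773464))) (l 16768936)) (a (b (a (b (l 16796392) (a (l 16775920) (l 16775112))) (l 16795456)) (a (b (a (b (l 16786712) (a (l 16776744) (l 16776560))) (l 16775848)) (a (a (b (l 16778016) (b (l 313700387111) (l 375977409639))) (b (l 16776768) (l 273971939479))) (a (b (l 16776520) (l 16776808)) (b (l 16776216) (l 16776488))))) (b (l 16774656) (a (l 16786640) (l 16775064))))) (b (l 16773280) (a (b (l 16774152) (l 16774072)) (l 16773816))))), by decide +kernel⟩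

def k3_pp_123_s : ∃ t, chk3 f_pp_123_s t 36 38 1 = true :=
  ⟨(a (b (a (b (a (a (l 3) (b (a (l 392620407719) (l 333564607959)) (l 3))) (a (b (b (l 16777024) (l 305110449943)) (l 363092506279)) (b (l 16776832) (b (l 16777056) (l 316921612583))))) (a (l 3) (a (l 3) (a (l 3) (l 392620407063))))) (b (a (a (b (l 16776480) (l 16776864)) (b (l 16776280) (l 16776504))) (a (a (l 16776224) (l 16776040)) (l 16775688))) (a (a (b (b (l 263771391319) (l 330880256135)) (l 402820954647)) (b (l 16776904) (b (l 260013295447) (l 348060122519)))) (a (b (l 16776568) (l 16776944)) (b (l 16776304) (l 16776656)))))) (a (l 3) (b (a (l 3) (a (b (b (c (l 316921610007) (l 319069093575)) (l 368998087927)) (l 3)) (b (l 260013294903) (b (c (l 328732769991) (l 330880253559)) (l 394767891511))))) (l 3)))) (b (a (b (l 16774576) (a (b (l 16775776) (l 16776216)) (l 16775192))) (b (l 16773640) (l 16773848))) (a (b (a (a (b (l 16776704) (l 258939553383)) (b (l 16776360) (l 16776752))) (b (l 16775984)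 (l 16776296))) (a (a (b (b (l 342154545207) (l 3)) (l 3)) (a (b (l 257328941367) (l 3)) (b (l 16777008) (l 362018766151)))) (b (l 16779240) (a (a (a (l 329806511847) (l 255718327863)) (l 16777704)) (l 16776856))))) (b (l 16774928) (a (b (l 16776152) (l 16776408)) (l 16786312)))))), by decide +kernel⟩

def k4_pp_123_s : ∃ t, chk3 f_pp_123_s t 36 39 1 = true :=
  ⟨(a (l 3) (b (a (b (a (l 3) (a (b (l 388325440375) (l 3)) (b (b (l 260013294919) (c (l 333027737287) (l 335712091783))) (l 403894696663)))) (l 3)) (b (a (a (b (l 16776912) (b (l 258402682727) (l 344838899799))) (l 16776800)) (b (l 16776256) (l 16781792))) (b (a (a (l 3) (b (l 313163516279) (l 358260669879))) (l 276656295287)) (a (l 3) (a (b (c (l 320142835543) (l 322290319127)) (l 373829926215)) (l 270750714295)))))) (a (l 3) (b (a (l 3) (a (l 3) (a (l 399062858295) (b (l 330880256311) (l 3))))) (l 3))))), by decide +kernel⟩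

def k5_pp_123_s : ∃ t, chk3 f_pp_123_s t 37 9 1 = true :=
  ⟨(b (b (l 16782712) (a (l 16770512) (l 16766144))) (b (a (b (a (l 16805072) (l 16773072)) (a (b (l 16773376) (l 16774192)) (l 16805296))) (l 16771312)) (a (a (b (b (a (b (l 16775544) (l 16775944)) (l 16774960)) (a (b (l 16776168) (l 16776472)) (a (l 16775816) (l 16775688)))) (b (a (a (b (l 269140102263) (b (l 337859575447) (l 409263406183))) (b (l 16776624) (b (l 16776912) (l 302962969399)))) (b (l 16776080) (l 16776400))) (a (a (l 3) (a (l 418390210919) (b (l 350744477239) (l 3)))) (a (b (b (l 16776928) (l 308868549559)) (l 373293055159)) (a (b (l 16776720) (l 312626642839)) (l 272361327191)))))) (b (b (l 16773336) (l 16774392)) (b (a (b (l 16775728) (l 16775856)) (l 16774896)) (a (b (l 16776208) (l 16776512)) (b (l 16775752) (l 16776032)))))) (b (a (l 16772736) (l 16772296)) (a (l 16773784) (l 16772584)))))), by decide +kernel⟩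

def k6_pp_123_s : ∃ t, chk3 f_pp_123_s t 19 4 1 = true :=
  ⟨(b (l 16759888) (b (a (b (l 16752216) (l 16758432)) (b (l 16742072) (l 16685752))) (a (a (b (l 16767144) (a (l 16792336) (l 16770104))) (b (l 16762240) (l 16767000))) (b (l 16754488) (a (l 16762568) (l 16757136)))))), by decide +kernel⟩

def k7_pp_123_s : ∃ t, chk3 f_pp_123_s t 18 5 1 = true :=
  ⟨(b (a (l 3) (b (b (a (a (b (a (l 3) (a (l 3) (a (l 3) (b (l 389399182119) (l 3))))) (l 3)) (b (a (a (b (b (b (l 16777000) (l 322827190135)) (l 392083536951)) (l 3)) (b (a (b (l 16776824) (l 329269641031)) (l 269140102135)) (l 413558372743))) (a (b (l 16776616) (b (b (l 261623908183) (l 338396446439)) (l 414632115143))) (b (l 16776384) (b (l 16776840) (b (l 257328940743) (l 344838897303)))))) (a (l 3) (b (b (l 421074565447) (l 3)) (l 3))))) (b (a (a (b (b (l 16775624) (l 16775960)) (b (l 16776280) (l 16776696))) (b (l 16774744) (b (l 16775504) (l 16775816)))) (l 16773848)) (b (a (a (a (b (b (l 255181456919) (l 348596993639))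 (l 423758920583)) (b (l 16776864) (b (l 309405418871) (l 351281348183)))) (b (l 16776216) (l 16776648))) (a (b (l 16775408) (l 16775720)) (l 16774688))) (a (a (l 3) (a (b (b (l 309942289767) (l 353965702711)) (l 3)) (b (l 16776840) (l 329806514407)))) (a (b (l 16776200) (l 16776616)) (l 16775496)))))) (a (l 3) (a (l 3) (b (b (b (a (a (l 330343382679) (l 16776832)) (l 16776160)) (a (a (l 3) (l 331417124487)) (l 16776600))) (a (l 3) (a (b (l 332490866295) (l 3)) (b (l 16776824) (l 332490866295))))) (l 3))))) (l 3))) (l 3)), by decide +kernel⟩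

def k8_pp_123_s : ∃ t, chk3 f_pp_123_s t 38 10 1 = true :=
  ⟨(b (a (b (a (b (l 16772600) (a (l 16785272) (l 16773616))) (b (l 16772152) (l 16772760))) (a (b (a (b (l 16775472) (l 16778992)) (b (l 16774768) (l 16775488))) (a (b (c (a (l 353428831543) (l 312626642455)) (a (l 351281350375) (l 308868545975))) (l 3)) (b (l 16776376) (c (a (l 352355089783) (l 307257935303)) (a (l 348596993271) (l 307257933255)))))) (b (a (l 16785224) (l 16773840)) (a (b (l 16775536) (l 16776392)) (b (l 16774952) (l 16775616)))))) (b (a (l 16791648) (l 16769080)) (a (b (l 16772952) (a (l 16784944) (l 16773776))) (b (l 16771016) (l 16772400))))) (a (b (a (l 3) (b (a (b (a (a (l 370071829879) (l 337859575335)) (l 301352355559)) (l 3)) (b (l 16776408) (a (a (l 363629379047) (l 333027737207)) (l 297057388599)))) (a (l 3) (b (l 394767891303) (l 3))))) (l 3)) (b (a (b (a (b (l 16775600) (l 16776376)) (b (l 16774792) (l 16775496))) (a (b (a (a (l 356113186391) (l 326585286407)) (l 292762420567))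 (l 389399182391)) (b (l 16776280) (a (a (l 348060122775) (l 320679706407)) (l 246591522151))))) (b (a (l 16784672) (l 16773360)) (a (b (l 16775408) (l 16776184)) (b (l 16774536) (l 16775320))))) (a (b (a (l 3) (b (c (l 386177957175) (l 378124893319)) (l 3))) (l 3)) (b (a (a (b (a (l 337322704583) (l 307794805735)) (l 3)) (b (l 16776760) (l 360408153687))) (a (b (l 16776312) (l 313163513527)) (l 16778880))) (a (l 3) (b (c (l 359334411799) (l 355576315303)) (l 3)))))))), by decide +kernel⟩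

def k9_pp_123_s : ∃ t, chk3 f_pp_123_s t 39 10 1 = true :=
  ⟨(b (a (b (l 16766072) (a (l 16790576) (l 16767624))) (b (l 16761848) (l 16764696))) (a (b (a (b (l 16771840) (a (l 16781760) (l 16772984))) (b (l 16769688) (l 16771368))) (a (b (a (b (l 16775224) (l 16775960)) (b (l 16774256) (l 16775088))) (a (b (c (l 241222813511) (l 236390975431)) (c (l 345375768151) (l 343765157943))) (b (l 16775832) (l 242833426487)))) (b (l 16773152) (a (b (l 16774928) (l 16775688)) (b (l 16773928) (l 16774760)))))) (b (a (b (l 16767608) (l 16769160)) (l 16766384)) (a (b (l 16770904) (l 16772760)) (l 16769600))))), by decide +kernel⟩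

def k10_pp_123_s : ∃ t, chk3 f_pp_123_s t 19 11 1 = true :=
  ⟨(a (l 3) (b (a (b (a (b (a (l 3) (b (c (l 330880253559) (l 331417124391)) (l 3))) (l 3)) (b (a (b (l 16776488) (c (l 315847868087) (l 319069093511))) (b (l 16775536) (l 16776320))) (a (b (l 403357826599) (l 3)) (b (l 303499837079) (l 385104215719))))) (l 3)) (b (a (b (a (b (l 16774584) (l 16775368)) (b (l 16773536) (l 16774384))) (a (b (l 16776144) (l 280414391175)) (b (l 16775176) (l 16775944)))) (b (l 16772328) (a (b (l 16774176) (l 16774968)) (l 16773512)))) (a (b (a (b (l 337322704599) (l 3)) (b (l 16779336) (l 317995351751))) (l 3)) (b (a (b (l 16775736) (l 16776496)) (b (l 16774760) (l 16775512))) (a (b (l 292225551047) (l 393694150295)) (b (l 16776256) (l 16779592))))))) (a (l 3) (b (a (l 3) (b (a (l 3) (b (l 368461217463) (l 3))) (l 3))) (l 3))))), by decide +kernel⟩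

def k11_pp_123_s : ∃ t, chk3 f_pp_123_s t 5 4 1 = true :=
  ⟨(a (a (a (b (l 16691480) (b (l 16778008) (b (l 16744976) (l 16749888)))) (b (a (l 16677296) (l 16670464)) (a (b (l 16729496) (l 16783480)) (b (l 16728800) (a (l 16739840) (a (l 16739608) (l 16740168))))))) (b (l 16647840) (l 16725664))) (b (l 6) (l 16712936))), by decide +kernel⟩

def k12_pp_123_s : ∃ t, chk3 f_pp_123_s t 5 5 1 = true :=
  ⟨(a (a (a (b (b (b (l 16754400) (a (l 16760832) (l 16756440))) (a (b (l 16763728) (a (l 16767512) (l 16765648))) (b (l 16760160) (l 16763184)))) (b (a (b (a (l 16770984) (l 16768832)) (a (b (a (l 16784632) (l 16773136)) (a (b (l 16775280) (l 16776008)) (l 16774696))) (b (l 16771520) (a (l 16773744) (l 16772728))))) (b (a (l 16766896) (l 16765272)) (a (l 16770192) (l 16768344)))) (a (b (a (b (a (b (l 16776720) (l 287930584263)) (l 16776096)) (a (l 3) (b (l 16777064) (l 374366800759)))) (b (a (l 16775136) (l 16774248)) (a (l 16776472) (l 16775512)))) (a (l 3) (a (b (l 293299297223)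 (l 3)) (b (l 16782008) (l 372756194103))))) (b (a (b (l 16772760) (a (l 16774704) (l 16773808))) (l 16771552)) (a (b (a (l 16775912) (l 16775096)) (a (l 16782240) (l 16776216))) (a (b (l 16774256) (l 16775408)) (b (l 16773352) (l 16774608)))))))) (b (a (b (l 16749864) (b (l 16756280) (l 16780848))) (b (a (l 16747568) (a (l 16747320) (l 16747808))) (a (l 16755232) (a (l 16754112) (l 16753832))))) (a (b (a (l 16765248) (l 16763704)) (b (a (l 16769752) (l 16768120)) (a (l 16772600) (l 16770624)))) (b (a (b (l 16760656) (l 16763792)) (a (l 16802952) (b (l 16758648) (b (l 16760392) (l 16844920))))) (a (b (l 16766920) (a (l 16748664) (l 16769304))) (b (a (l 16765392) (c (l 16825704) (l 16825504))) (a (l 16768552) (l 16787040)))))))) (b (b (l 16741160) (l 16747616)) (b (l 16837480) (a (l 16809392) (l 16752440))))) (a (b (b (l 16732688) (l 16738824)) (b (l 16743224) (l 16784528))) (b (l 16793872) (b (l 16734152) (l 16730320))))), by decide +kernel⟩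

def k13_pp_123_s : ∃ t, chk3 f_pp_123_s t 3 2 1 = true :=
  ⟨(a (b (l 6) (a (b (b (l 6) (l 16727136)) (b (l 16726224) (l 16720848))) (l 6))) (l 6)), by decide +kernel⟩

def k14_pp_123_s : ∃ t, chk3 f_pp_123_s t 4 6 1 = true :=
  ⟨(l 3), by decide +kernel⟩

def k15_pp_123_s : ∃ t, chk3 f_pp_123_s t 5 12 1 = true :=
  ⟨(b (a (a (a (a (l 3) (b (b (a (a (l 391009802279) (l 16777056)) (a (l 16776440) (l 16775640))) (a (l 3) (a (l 16776968) (l 16776584)))) (a (l 3) (a (l 3) (b (l 16776888) (l 3)))))) (a (a (b (a (b (l 16774896) (l 16775808)) (l 16790152)) (a (b (l 16776672) (l 16787328)) (b (l 16776024) (l 16776712)))) (b (l 16772936) (a (b (l 16775224) (l 16776064)) (l 16795448)))) (a (b (a (l 16771656) (l 16771272)) (a (l 16773744) (l 16772968))) (b (a (l 16771232) (c (l 16790376) (l 16811216))) (b (a (l 16772568) (l 16792488)) (a (l 16773088) (c (l 16793872) (l 16793376)))))))) (b (l 16781520) (l 16784680))) (a (l 16767016) (l 16728968))) (a (a (a (l 3) (a (a (b (a (l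 3) (b (l 16776888) (l 3))) (l 3)) (b (a (b (l 16776664) (l 16776992)) (b (l 16775936) (l 16776544))) (a (b (l 16786728) (l 3)) (b (l 16777056) (l 16787032))))) (a (b (a (b (l 16774848) (l 16775632)) (l 16774520)) (a (b (l 16797344) (l 16787312)) (a (l 16775968) (l 16775440)))) (a (a (b (l 16773936) (l 16775120)) (b (l 16773728) (l 16774808))) (a (a (a (b (l 16773624) (l 16774616)) (a (b (l 16773720) (l 16774560)) (b (l 16773752) (l 16774552)))) (b (l 16773584) (l 16774432))) (b (l 16773312) (l 16774176))))))) (a (b (l 16770128) (l 16786984)) (b (l 16763768) (l 16765624)))) (a (l 16797600) (l 16742144)))), by decide +kernel⟩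

def k16_pp_123_s : ∃ t, chk3 f_pp_123_s t 5 13 1 = true :=
  ⟨(a (a (a (l 3) (a (l 3) (b (a (b (a (b (l 302426118071) (l 3)) (a (l 16776872) (l 16776648))) (a (l 3) (l 299204897655))) (a (a (b (l 16776120) (l 16777000)) (b (b (l 16775536) (l 16796880)) (b (l 16797320) (l 16787232)))) (b (c (l 16796344) (l 16785592)) (a (a (a (l 16776280) (a (l 16776200) (l 16776184))) (l 16776056)) (l 16775728))))) (a (l 3) (a (a (b (l 16787112) (l 3)) (b (a (l 16777104) (l 16777088)) (l 256255227191))) (b (a (a (a (l 16776880) (a (l 16776768) (l 16787192))) (l 16776480)) (l 16776056)) (a (a (a (l 16777160) (a (l 16777160) (l 16777064))) (l 16776848)) (l 16776344)))))))) (b (a (b (l 16771712) (l 16771848)) (l 16765160)) (a (b (l 16771464) (l 16770840)) (l 16783112)))) (a (b (b (l 16756960) (l 16755088)) (b (l 16752152) (l 16747192))) (b (l 16787824) (l 16777384)))), by decide +kernel⟩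

def k17_pp_123_s : ∃ t, chk3 f_pp_123_s t 3 6 1 = true :=
  ⟨(a (b (a (b (l 16944704) (a (l 16728456) (l 16723512))) (a (l 16787504) (l 6))) (a (b (a (l 16737136) (l 16730336)) (a (l 16723880) (l 16714720))) (b (l 16725920) (l 1)))) (l 6)), by decide +kernel⟩

def k18_pp_123_s : ∃ t, chk3 f_pp_123_s t 1 7 1 = true :=
  ⟨(a (a (b (l 3) (l 3)) (a (b (a (a (l 3) (a (l 3) (b (a (l 3) (b (a (l 3) (a (a (a (l 16777096) (a (l 16777208) (l 16777136))) (l 16776896)) (l 16776312))) (a (a (l 3) (b (l 16787424) (l 16787712))) (a (a (a (l 16776840) (a (l 16776688) (l 16787088))) (l 16776352)) (l 16775648))))) (b (a (a (l 3) (b (l 3) (l 16787024))) (a (a (l 16787480) (b (l 16776376) (l 16796456))) (a (a (a (l 16775248) (a (l 16774928) (l 16785072))) (l 16774056)) (l 16773272)))) (b (a (a (l 3) (l 16776960)) (a (a (l 16775480) (l 16784880)) (l 16771912))) (l 1)))))) (b (a (b (l 16769760) (l 16788736)) (b (l 16757696) (l 16753504))) (a (a (b (l 16768488) (l 16785128)) (b (l 16759992)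 (l 1))) (b (l 16747608) (l 1))))) (a (a (b (l 3) (l 1)) (l 1)) (l 1))) (b (b (a (b (l 16741072) (l 16712440)) (b (l 16721272) (l 1))) (l 1)) (l 1)))) (l 1)), by decide +kernel⟩

theorem s19_pp_123_s : ∃ t, chk3 f_pp_123_s t 5 6 1 = true := ex3_b k15_pp_123_s k16_pp_123_s

theorem s20_pp_123_s : ∃ t, chk3 f_pp_123_s t 2 6 1 = true := ex3_a k14_pp_123_s s19_pp_123_s

theorem s21_pp_123_s : ∃ t, chk3 f_pp_123_s t 1 6 1 = true := ex3_a s20_pp_123_s k17_pp_123_s

theorem s22_pp_123_s : ∃ t, chk3 f_pp_123_s t 1 3 1 = true := ex3_b s21_pp_123_s k18_pp_123_s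

theorem s23_pp_123_s : ∃ t, chk3 f_pp_123_s t 5 2 1 = true := ex3_b k11_pp_123_s k12_pp_123_s

theorem s24_pp_123_s : ∃ t, chk3 f_pp_123_s t 19 10 1 = true := ex3_a k8_pp_123_s k9_pp_123_s

theorem s25_pp_123_s : ∃ t, chk3 f_pp_123_s t 19 5 1 = true := ex3_b s24_pp_123_s k10_pp_123_s

theorem s26_pp_123_s : ∃ t, chk3 f_pp_123_s t 9 5 1 = true := ex3_a k7_pp_123_s s25_pp_123_s

theorem s27_pp_123_s : ∃ t, chk3 f_pp_123_s t 36 19 1 = true := ex3_b k3_pp_123_s k4_pp_123_s

theorem s28_pp_123_s : ∃ t, chk3 f_pp_123_s t 36 9 1 = true := ex3_b k2_pp_123_s s27_pp_123_s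

theorem s29_pp_123_s : ∃ t, chk3 f_pp_123_s t 18 9 1 = true := ex3_a s28_pp_123_s k5_pp_123_s

theorem s30_pp_123_s : ∃ t, chk3 f_pp_123_s t 18 4 1 = true := ex3_b k1_pp_123_s s29_pp_123_s

theorem s31_pp_123_s : ∃ t, chk3 f_pp_123_s t 9 4 1 = true := ex3_a s30_pp_123_s k6_pp_123_s

theorem s32_pp_123_s : ∃ t, chk3 f_pp_123_s t 9 2 1 = true := ex3_b s31_pp_123_s s26_pp_123_s

theorem s33_pp_123_s : ∃ t, chk3 f_pp_123_s t 4 2 1 = true := ex3_a k0_pp_123_s s32_pp_123_s

theorem s34_pp_123_s : ∃ t, chk3 f_pp_123_s t 2 2 1 = true := ex3_a s33_pp_123_s s23_pp_123_s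

theorem s35_pp_123_s : ∃ t, chk3 f_pp_123_s t 1 2 1 = true := ex3_a s34_pp_123_s k13_pp_123_s

theorem s36_pp_123_s : ∃ t, chk3 f_pp_123_s t 1 1 1 = true := ex3_b s35_pp_123_s s22_pp_123_s

theorem c_pp_123_s : CertNE 536870912 536870912 0 1230186008 649613803 48318383 3 eng mog cd0q1 cd8q3 pd2 false true true .npn 1 2 3
    ndB0q1 ndB8q3 pcB2 cut_pp_123_s Ext.none :=
  certNE2 (fam := false) (s1 := true) (s2 := true) (a := 1) (b := 2) (c := 3) (cn := .npn) (n1 := ndB0q1) (n2 := ndB8q3) (pc := pcB2) (cut := cut_pp_123_s) (xt := Ext.none) (P1 := 536870912) (W1 := 536870912) (P2 := 0) (W2 := 1230186008) (P3 := 649613803) (W3 := 48318383) (N0 := 3) (En := eng) (mo := mog) (C1 := cd0q1) (C2 := cd8q3) (C3 := pd2)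
    rfl (fun _ => rfl) s36_pp_123_s

noncomputable def cut_pp_133_s : Cut := Cut.of [[⟨4, 0, 0, 1449551462⟩]]

noncomputable def f_pp_133_s : ℕ → ℕ → ℕ → ℕ → Bool := onCell 1610612736 536870912 0 1230186008 649613803 48318383
    (rowNE 3 eng mog cd0q1 cd8q3 pd3 2 false true true .dn 1 3 3 (qsf 536870912 536870912 0 1230186008 3) ndB0q1 ndB8q3 pcB3 cut_pp_133_s Ext.none)

def k0_pp_133_s : ∃ t, chk3 f_pp_133_s t 1 1 1 = true :=
  ⟨(b (l 6) (l 1)), by decide +kernel⟩

theorem c_pp_133_s : CertNE 536870912 536870912 0 1230186008 649613803 48318383 3 eng mog cd0q1 cd8q3 pd3 false true true .dn 1 3 3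
    ndB0q1 ndB8q3 pcB3 cut_pp_133_s Ext.none :=
  certNE2 (fam := false) (s1 := true) (s2 := true) (a := 1) (b := 3) (c := 3) (cn := .dn) (n1 := ndB0q1) (n2 := ndB8q3) (pc := pcB3) (cut := cut_pp_133_s) (xt := Ext.none) (P1 := 536870912) (W1 := 536870912) (P2 := 0) (W2 := 1230186008) (P3 := 649613803) (W3 := 48318383) (N0 := 3) (En := eng) (mo := mog) (C1 := cd0q1) (C2 := cd8q3) (C3 := pd3)
    rfl (fun _ => rfl) k0_pp_133_s

noncomputable def cut_pp_202_s : Cut := Cut.of [[⟨4, 0, 0, 1449551462⟩]]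

noncomputable def f_pp_202_s : ℕ → ℕ → ℕ → ℕ → Bool := onCell 0 536870912 1073741824 536870912 649613803 48318383
    (rowNE 3 eng mog cd0q2 cd8q2 pd0 0 false true true .pp 2 0 2 (qsf 0 536870912 1073741824 536870912 0) ndB0q2 ndB8q2 pcB0 cut_pp_202_s Ext.none)

def k0_pp_202_s : ∃ t, chk3 f_pp_202_s t 1 1 1 = true :=
  ⟨(l 5), by decide +kernel⟩

theorem c_pp_202_s : CertNE 0 536870912 1073741824 536870912 649613803 48318383 3 eng mog cd0q2 cd8q2 pd0 false true true .pp 2 0 2
    ndB0q2 ndB8q2 pcB0 cut_pp_202_s Ext.none :=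
  certNE0 (fam := false) (s1 := true) (s2 := true) (a := 2) (b := 0) (c := 2) (cn := .pp) (n1 := ndB0q2) (n2 := ndB8q2) (pc := pcB0) (cut := cut_pp_202_s) (xt := Ext.none) (P1 := 0) (W1 := 536870912) (P2 := 1073741824) (W2 := 536870912) (P3 := 649613803) (W3 := 48318383) (N0 := 3) (En := eng) (mo := mog) (C1 := cd0q2) (C2 := cd8q2) (C3 := pd0)
    rfl k0_pp_202_s

noncomputable def cut_pp_203_s : Cut := Cut.of [[⟨4, 0, 0, 1449551462⟩]]

noncomputable def f_pp_203_s : ℕ → ℕ → ℕ → ℕ → Bool := onCell 0 536870912 0 1230186008 649613803 48318383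
    (rowNE 3 eng mog cd0q2 cd8q3 pd0 0 false true true .up 2 0 3 (qsf 0 536870912 0 1230186008 0) ndB0q2 ndB8q3 pcB0 cut_pp_203_s Ext.none)

def k0_pp_203_s : ∃ t, chk3 f_pp_203_s t 1 1 1 = true :=
  ⟨(b (l 2) (b (l 2) (a (l 5) (l 3)))), by decide +kernel⟩

theorem c_pp_203_s : CertNE 0 536870912 0 1230186008 649613803 48318383 3 eng mog cd0q2 cd8q3 pd0 false true true .up 2 0 3
    ndB0q2 ndB8q3 pcB0 cut_pp_203_s Ext.none :=
  certNE0 (fam := false) (s1 := true) (s2 := true) (a := 2) (b := 0) (c := 3) (cn := .up) (n1 := ndB0q2) (n2 := ndB8q3) (pc := pcB0) (cut := cut_pp_203_s) (xt := Ext.none) (P1 := 0) (W1 := 536870912) (P2 := 0) (W2 := 1230186008) (P3 := 649613803) (W3 := 48318383) (N0 := 3) (En := eng) (mo := mog) (C1 := cd0q2) (C2 := cd8q3) (C3 := pd0)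
    rfl k0_pp_203_s

noncomputable def cut_pp_213_s : Cut := Cut.of [[⟨4, 0, 0, 1449551462⟩], [⟨0, 1, 0, 67108864⟩, ⟨1, 1, 0, 67108864⟩, ⟨2, 2, 0, 16777216⟩]]

noncomputable def f_pp_213_s : ℕ → ℕ → ℕ → ℕ → Bool := onCell 0 536870912 0 1230186008 649613803 48318383
    (rowNE 3 eng mog cd0q2 cd8q3 pd1 0 false true true .pnn 2 1 3 (qsf 0 536870912 0 1230186008 1) ndB0q2 ndB8q3 pcB1 cut_pp_213_s Ext.none)

def k0_pp_213_s : ∃ t, chk3 f_pp_213_s t 1 1 1 = true :=
  ⟨(a (b (l 3) (l 5)) (b (b (a (l 3) (b (a (l 3) (l 14)) (l 3))) (l 3)) (b (l 3) (l 3)))), by decide +kernel⟩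

theorem c_pp_213_s : CertNE 0 536870912 0 1230186008 649613803 48318383 3 eng mog cd0q2 cd8q3 pd1 false true true .pnn 2 1 3
    ndB0q2 ndB8q3 pcB1 cut_pp_213_s Ext.none :=
  certNE0 (fam := false) (s1 := true) (s2 := true) (a := 2) (b := 1) (c := 3) (cn := .pnn) (n1 := ndB0q2) (n2 := ndB8q3) (pc := pcB1) (cut := cut_pp_213_s) (xt := Ext.none) (P1 := 0) (W1 := 536870912) (P2 := 0) (W2 := 1230186008) (P3 := 649613803) (W3 := 48318383) (N0 := 3) (En := eng) (mo := mog) (C1 := cd0q2) (C2 := cd8q3) (C3 := pd1)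
    rfl k0_pp_213_s

noncomputable def cut_pm_001_s : Cut := Cut.of [[⟨4, 0, 0, 1449551462⟩]]

noncomputable def f_pm_001_s : ℕ → ℕ → ℕ → ℕ → Bool := onCell 0 536870912 536870912 536870912 649613803 48318383
    (rowNE 3 eng mog cd0q0 cd8q1 pd0 0 false true false .up 0 0 1 (qsf 0 536870912 536870912 536870912 0) ndB0q0 ndB8q1 pcB0 cut_pm_001_s Ext.none)

def k0_pm_001_s : ∃ t, chk3 f_pm_001_s t 1 1 1 = true :=
  ⟨(l 4), by decide +kernel⟩

theorem c_pm_001_s : CertNE 0 536870912 536870912 536870912 649613803 48318383 3 eng mog cd0q0 cd8q1 pd0 false true false .up 0 0 1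
    ndB0q0 ndB8q1 pcB0 cut_pm_001_s Ext.none :=
  certNE0 (fam := false) (s1 := true) (s2 := false) (a := 0) (b := 0) (c := 1) (cn := .up) (n1 := ndB0q0) (n2 := ndB8q1) (pc := pcB0) (cut := cut_pm_001_s) (xt := Ext.none) (P1 := 0) (W1 := 536870912) (P2 := 536870912) (W2 := 536870912) (P3 := 649613803) (W3 := 48318383) (N0 := 3) (En := eng) (mo := mog) (C1 := cd0q0) (C2 := cd8q1) (C3 := pd0)
    rfl k0_pm_001_s

noncomputable def cut_pm_011_s : Cut := Cut.of [[⟨4, 0, 0, 1449551462⟩]]

noncomputable def f_pm_011_s : ℕ → ℕ → ℕ → ℕ → Bool := onCell 0 536870912 536870912 536870912 649613803 48318383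
    (rowNE 3 eng mog cd0q0 cd8q1 pd1 0 false true false .pnn 0 1 1 (qsf 0 536870912 536870912 536870912 1) ndB0q0 ndB8q1 pcB1 cut_pm_011_s Ext.none)

def k0_pm_011_s : ∃ t, chk3 f_pm_011_s t 1 1 1 = true :=
  ⟨(l 4), by decide +kernel⟩

theorem c_pm_011_s : CertNE 0 536870912 536870912 536870912 649613803 48318383 3 eng mog cd0q0 cd8q1 pd1 false true false .pnn 0 1 1
    ndB0q0 ndB8q1 pcB1 cut_pm_011_s Ext.none :=
  certNE0 (fam := false) (s1 := true) (s2 := false) (a := 0) (b := 1) (c := 1) (cn := .pnn) (n1 := ndB0q0) (n2 := ndB8q1) (pc := pcB1) (cut := cut_pm_011_s) (xt := Ext.none) (P1 := 0) (W1 := 536870912) (P2 := 536870912) (W2 := 536870912) (P3 := 649613803) (W3 := 48318383) (N0 := 3) (En := eng) (mo := mog) (C1 := cd0q0) (C2 := cd8q1) (C3 := pd1)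
    rfl k0_pm_011_s

noncomputable def cut_pm_012_s : Cut := Cut.of [[⟨4, 0, 0, 1449551462⟩]]

noncomputable def f_pm_012_s : ℕ → ℕ → ℕ → ℕ → Bool := onCell 0 536870912 1073741824 536870912 649613803 48318383
    (rowNE 3 eng mog cd0q0 cd8q2 pd1 0 false true false .pnp 0 1 2 (qsf 0 536870912 1073741824 536870912 1) ndB0q0 ndB8q2 pcB1 cut_pm_012_s Ext.none)

def k0_pm_012_s : ∃ t, chk3 f_pm_012_s t 1 1 1 = true :=
  ⟨(l 4), by decide +kernel⟩

theorem c_pm_012_s : CertNE 0 536870912 1073741824 536870912 649613803 48318383 3 eng mog cd0q0 cd8q2 pd1 false true false .pnp 0 1 2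
    ndB0q0 ndB8q2 pcB1 cut_pm_012_s Ext.none :=
  certNE0 (fam := false) (s1 := true) (s2 := false) (a := 0) (b := 1) (c := 2) (cn := .pnp) (n1 := ndB0q0) (n2 := ndB8q2) (pc := pcB1) (cut := cut_pm_012_s) (xt := Ext.none) (P1 := 0) (W1 := 536870912) (P2 := 1073741824) (W2 := 536870912) (P3 := 649613803) (W3 := 48318383) (N0 := 3) (En := eng) (mo := mog) (C1 := cd0q0) (C2 := cd8q2) (C3 := pd1)
    rfl k0_pm_012_s

noncomputable def cut_pm_022_s : Cut := Cut.of [[⟨4, 0, 0, 1449551462⟩]]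

noncomputable def f_pm_022_s : ℕ → ℕ → ℕ → ℕ → Bool := onCell 0 536870912 1073741824 536870912 649613803 48318383
    (rowNE 3 eng mog cd0q0 cd8q2 pd2 0 false true false .pp 0 2 2 (qsf 0 536870912 1073741824 536870912 2) ndB0q0 ndB8q2 pcB2 cut_pm_022_s Ext.none)

def k0_pm_022_s : ∃ t, chk3 f_pm_022_s t 1 1 1 = true :=
  ⟨(l 4), by decide +kernel⟩

theorem c_pm_022_s : CertNE 0 536870912 1073741824 536870912 649613803 48318383 3 eng mog cd0q0 cd8q2 pd2 false true false .pp 0 2 2
    ndB0q0 ndB8q2 pcB2 cut_pm_022_s Ext.none :=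
  certNE0 (fam := false) (s1 := true) (s2 := false) (a := 0) (b := 2) (c := 2) (cn := .pp) (n1 := ndB0q0) (n2 := ndB8q2) (pc := pcB2) (cut := cut_pm_022_s) (xt := Ext.none) (P1 := 0) (W1 := 536870912) (P2 := 1073741824) (W2 := 536870912) (P3 := 649613803) (W3 := 48318383) (N0 := 3) (En := eng) (mo := mog) (C1 := cd0q0) (C2 := cd8q2) (C3 := pd2)
    rfl k0_pm_022_s

noncomputable def cut_pm_023_s : Cut := Cut.of [[⟨4, 0, 0, 1449551462⟩]]

noncomputable def f_pm_023_s : ℕ → ℕ → ℕ → ℕ → Bool := onCell 0 536870912 0 1230186008 649613803 48318383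
    (rowNE 3 eng mog cd0q0 cd8q3 pd2 0 false true false .up 0 2 3 (qsf 0 536870912 0 1230186008 2) ndB0q0 ndB8q3 pcB2 cut_pm_023_s Ext.none)

def k0_pm_023_s : ∃ t, chk3 f_pm_023_s t 1 1 1 = true :=
  ⟨(l 6), by decide +kernel⟩

theorem c_pm_023_s : CertNE 0 536870912 0 1230186008 649613803 48318383 3 eng mog cd0q0 cd8q3 pd2 false true false .up 0 2 3
    ndB0q0 ndB8q3 pcB2 cut_pm_023_s Ext.none :=
  certNE0 (fam := false) (s1 := true) (s2 := false) (a := 0) (b := 2) (c := 3) (cn := .up) (n1 := ndB0q0) (n2 := ndB8q3) (pc := pcB2) (cut := cut_pm_023_s) (xt := Ext.none) (P1 := 0) (W1 := 536870912) (P2 := 0) (W2 := 1230186008) (P3 := 649613803) (W3 := 48318383) (N0 := 3) (En := eng) (mo := mog) (C1 := cd0q0) (C2 := cd8q3) (C3 := pd2)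
    rfl k0_pm_023_s

noncomputable def cut_pm_033_s : Cut := Cut.of [[⟨4, 0, 0, 1449551462⟩]]

noncomputable def f_pm_033_s : ℕ → ℕ → ℕ → ℕ → Bool := onCell 0 536870912 0 1230186008 649613803 48318383
    (rowNE 3 eng mog cd0q0 cd8q3 pd3 0 false true false .pnn 0 3 3 (qsf 0 536870912 0 1230186008 3) ndB0q0 ndB8q3 pcB3 cut_pm_033_s Ext.none)

def k0_pm_033_s : ∃ t, chk3 f_pm_033_s t 1 1 1 = true :=
  ⟨(l 6), by decide +kernel⟩

theorem c_pm_033_s : CertNE 0 536870912 0 1230186008 649613803 48318383 3 eng mog cd0q0 cd8q3 pd3 false true false .pnn 0 3 3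
    ndB0q0 ndB8q3 pcB3 cut_pm_033_s Ext.none :=
  certNE0 (fam := false) (s1 := true) (s2 := false) (a := 0) (b := 3) (c := 3) (cn := .pnn) (n1 := ndB0q0) (n2 := ndB8q3) (pc := pcB3) (cut := cut_pm_033_s) (xt := Ext.none) (P1 := 0) (W1 := 536870912) (P2 := 0) (W2 := 1230186008) (P3 := 649613803) (W3 := 48318383) (N0 := 3) (En := eng) (mo := mog) (C1 := cd0q0) (C2 := cd8q3) (C3 := pd3)
    rfl k0_pm_033_s

noncomputable def cut_pm_101_s : Cut := Cut.of [[⟨4, 0, 0, 1449551462⟩]]

noncomputable def f_pm_101_s : ℕ → ℕ → ℕ → ℕ → Bool := onCell 536870912 536870912 536870912 536870912 649613803 48318383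
    (rowNE 3 eng mog cd0q1 cd8q1 pd0 0 false true false .npn 1 0 1 (qsf 536870912 536870912 536870912 536870912 0) ndB0q1 ndB8q1 pcB0 cut_pm_101_s Ext.none)

def k0_pm_101_s : ∃ t, chk3 f_pm_101_s t 1 1 1 = true :=
  ⟨(l 4), by decide +kernel⟩

theorem c_pm_101_s : CertNE 536870912 536870912 536870912 536870912 649613803 48318383 3 eng mog cd0q1 cd8q1 pd0 false true false .npn 1 0 1
    ndB0q1 ndB8q1 pcB0 cut_pm_101_s Ext.none :=
  certNE0 (fam := false) (s1 := true) (s2 := false) (a := 1) (b := 0) (c := 1) (cn := .npn) (n1 := ndB0q1) (n2 := ndB8q1) (pc := pcB0) (cut := cut_pm_101_s) (xt := Ext.none) (P1 := 536870912) (W1 := 536870912) (P2 := 536870912) (W2 := 536870912) (P3 := 649613803) (W3 := 48318383) (N0 := 3) (En := eng) (mo := mog) (C1 := cd0q1) (C2 := cd8q1) (C3 := pd0)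
    rfl k0_pm_101_s

noncomputable def cut_pm_102_s : Cut := Cut.of [[⟨4, 0, 0, 1449551462⟩]]

noncomputable def f_pm_102_s : ℕ → ℕ → ℕ → ℕ → Bool := onCell 536870912 536870912 1073741824 536870912 649613803 48318383
    (rowNE 3 eng mog cd0q1 cd8q2 pd0 0 false true false .npp 1 0 2 (qsf 536870912 536870912 1073741824 536870912 0) ndB0q1 ndB8q2 pcB0 cut_pm_102_s Ext.none)

def k0_pm_102_s : ∃ t, chk3 f_pm_102_s t 1 1 1 = true :=
  ⟨(l 6), by decide +kernel⟩

theorem c_pm_102_s : CertNE 536870912 536870912 1073741824 536870912 649613803 48318383 3 eng mog cd0q1 cd8q2 pd0 false true false .npp 1 0 2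
    ndB0q1 ndB8q2 pcB0 cut_pm_102_s Ext.none :=
  certNE0 (fam := false) (s1 := true) (s2 := false) (a := 1) (b := 0) (c := 2) (cn := .npp) (n1 := ndB0q1) (n2 := ndB8q2) (pc := pcB0) (cut := cut_pm_102_s) (xt := Ext.none) (P1 := 536870912) (W1 := 536870912) (P2 := 1073741824) (W2 := 536870912) (P3 := 649613803) (W3 := 48318383) (N0 := 3) (En := eng) (mo := mog) (C1 := cd0q1) (C2 := cd8q2) (C3 := pd0)
    rfl k0_pm_102_s

noncomputable def cut_pm_112_s : Cut := Cut.of [[⟨4, 0, 0, 1449551462⟩]]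

noncomputable def f_pm_112_s : ℕ → ℕ → ℕ → ℕ → Bool := onCell 536870912 536870912 1073741824 536870912 649613803 48318383
    (rowNE 3 eng mog cd0q1 cd8q2 pd1 0 false true false .dn 1 1 2 (qsf 536870912 536870912 1073741824 536870912 1) ndB0q1 ndB8q2 pcB1 cut_pm_112_s Ext.none)

def k0_pm_112_s : ∃ t, chk3 f_pm_112_s t 1 1 1 = true :=
  ⟨(l 6), by decide +kernel⟩

theorem c_pm_112_s : CertNE 536870912 536870912 1073741824 536870912 649613803 48318383 3 eng mog cd0q1 cd8q2 pd1 false true false .dn 1 1 2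
    ndB0q1 ndB8q2 pcB1 cut_pm_112_s Ext.none :=
  certNE0 (fam := false) (s1 := true) (s2 := false) (a := 1) (b := 1) (c := 2) (cn := .dn) (n1 := ndB0q1) (n2 := ndB8q2) (pc := pcB1) (cut := cut_pm_112_s) (xt := Ext.none) (P1 := 536870912) (W1 := 536870912) (P2 := 1073741824) (W2 := 536870912) (P3 := 649613803) (W3 := 48318383) (N0 := 3) (En := eng) (mo := mog) (C1 := cd0q1) (C2 := cd8q2) (C3 := pd1)
    rfl k0_pm_112_s

noncomputable def cut_pm_113_s : Cut := Cut.of [[⟨4, 0, 0, 1449551462⟩], [⟨0, 1, 0, 67108864⟩, ⟨1, 1, 0, 67108864⟩, ⟨2, 2, 0, 16777216⟩]]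

noncomputable def f_pm_113_s : ℕ → ℕ → ℕ → ℕ → Bool := onCell 536870912 536870912 0 1230186008 649613803 48318383
    (rowNE 3 eng mog cd0q1 cd8q3 pd1 0 false true false .nn 1 1 3 (qsf 536870912 536870912 0 1230186008 1) ndB0q1 ndB8q3 pcB1 cut_pm_113_s Ext.none)

def k0_pm_113_s : ∃ t, chk3 f_pm_113_s t 1 1 1 = true :=
  ⟨(b (a (l 2) (a (l 2) (b (a (l 2) (a (l 2) (b (l 14) (b (l 14) (l 16778336))))) (a (l 6) (b (a (l 6) (l 16789320)) (l 6)))))) (a (l 6) (l 6))), by decide +kernel⟩

theorem c_pm_113_s : CertNE 536870912 536870912 0 1230186008 649613803 48318383 3 eng mog cd0q1 cd8q3 pd1 false true false .nn 1 1 3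
    ndB0q1 ndB8q3 pcB1 cut_pm_113_s Ext.none :=
  certNE0 (fam := false) (s1 := true) (s2 := false) (a := 1) (b := 1) (c := 3) (cn := .nn) (n1 := ndB0q1) (n2 := ndB8q3) (pc := pcB1) (cut := cut_pm_113_s) (xt := Ext.none) (P1 := 536870912) (W1 := 536870912) (P2 := 0) (W2 := 1230186008) (P3 := 649613803) (W3 := 48318383) (N0 := 3) (En := eng) (mo := mog) (C1 := cd0q1) (C2 := cd8q3) (C3 := pd1)
    rfl k0_pm_113_s

noncomputable def cut_pm_123_s : Cut := Cut.of [[⟨4, 0, 0, 1449551462⟩], [⟨0, 1, 0, 67108864⟩, ⟨1, 1, 0, 67108864⟩, ⟨2, 2, 0, 16777216⟩]]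

noncomputable def f_pm_123_s : ℕ → ℕ → ℕ → ℕ → Bool := onCell 1073741824 536870912 0 1230186008 649613803 48318383
    (rowNE 3 eng mog cd0q1 cd8q3 pd2 2 false true false .npn 1 2 3 (qsf 536870912 536870912 0 1230186008 2) ndB0q1 ndB8q3 pcB2 cut_pm_123_s Ext.none)

def k0_pm_123_s : ∃ t, chk3 f_pm_123_s t 1 1 1 = true :=
  ⟨(b (a (b (b (a (a (a (l 14) (b (l 16742784) (l 16725016))) (a (l 16701888) (l 16663192))) (l 6)) (a (a (a (b (l 14) (l 16743320)) (l 16711128)) (l 6)) (l 6))) (b (l 6) (l 6))) (l 6)) (l 6)), by decide +kernel⟩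

theorem c_pm_123_s : CertNE 536870912 536870912 0 1230186008 649613803 48318383 3 eng mog cd0q1 cd8q3 pd2 false true false .npn 1 2 3
    ndB0q1 ndB8q3 pcB2 cut_pm_123_s Ext.none :=
  certNE2 (fam := false) (s1 := true) (s2 := false) (a := 1) (b := 2) (c := 3) (cn := .npn) (n1 := ndB0q1) (n2 := ndB8q3) (pc := pcB2) (cut := cut_pm_123_s) (xt := Ext.none) (P1 := 536870912) (W1 := 536870912) (P2 := 0) (W2 := 1230186008) (P3 := 649613803) (W3 := 48318383) (N0 := 3) (En := eng) (mo := mog) (C1 := cd0q1) (C2 := cd8q3) (C3 := pd2)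
    rfl (fun _ => rfl) k0_pm_123_s

noncomputable def cut_pm_133_s : Cut := Cut.of [[⟨4, 0, 0, 1449551462⟩]]

noncomputable def f_pm_133_s : ℕ → ℕ → ℕ → ℕ → Bool := onCell 1610612736 536870912 0 1230186008 649613803 48318383
    (rowNE 3 eng mog cd0q1 cd8q3 pd3 2 false true false .dn 1 3 3 (qsf 536870912 536870912 0 1230186008 3) ndB0q1 ndB8q3 pcB3 cut_pm_133_s Ext.none)

def k0_pm_133_s : ∃ t, chk3 f_pm_133_s t 1 1 1 = true :=
  ⟨(l 6), by decide +kernel⟩

theorem c_pm_133_s : CertNE 536870912 536870912 0 1230186008 649613803 48318383 3 eng mog cd0q1 cd8q3 pd3 false true false .dn 1 3 3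
    ndB0q1 ndB8q3 pcB3 cut_pm_133_s Ext.none :=
  certNE2 (fam := false) (s1 := true) (s2 := false) (a := 1) (b := 3) (c := 3) (cn := .dn) (n1 := ndB0q1) (n2 := ndB8q3) (pc := pcB3) (cut := cut_pm_133_s) (xt := Ext.none) (P1 := 536870912) (W1 := 536870912) (P2 := 0) (W2 := 1230186008) (P3 := 649613803) (W3 := 48318383) (N0 := 3) (En := eng) (mo := mog) (C1 := cd0q1) (C2 := cd8q3) (C3 := pd3)
    rfl (fun _ => rfl) k0_pm_133_s

noncomputable def cut_pm_202_s : Cut := Cut.of [[⟨4, 0, 0, 1449551462⟩]]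

noncomputable def f_pm_202_s : ℕ → ℕ → ℕ → ℕ → Bool := onCell 0 536870912 1073741824 536870912 649613803 48318383
    (rowNE 3 eng mog cd0q2 cd8q2 pd0 0 false true false .pp 2 0 2 (qsf 0 536870912 1073741824 536870912 0) ndB0q2 ndB8q2 pcB0 cut_pm_202_s Ext.none)

def k0_pm_202_s : ∃ t, chk3 f_pm_202_s t 1 1 1 = true :=
  ⟨(a (b (l 6) (a (l 6) (l 6))) (l 6)), by decide +kernel⟩

theorem c_pm_202_s : CertNE 0 536870912 1073741824 536870912 649613803 48318383 3 eng mog cd0q2 cd8q2 pd0 false true false .pp 2 0 2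
    ndB0q2 ndB8q2 pcB0 cut_pm_202_s Ext.none :=
  certNE0 (fam := false) (s1 := true) (s2 := false) (a := 2) (b := 0) (c := 2) (cn := .pp) (n1 := ndB0q2) (n2 := ndB8q2) (pc := pcB0) (cut := cut_pm_202_s) (xt := Ext.none) (P1 := 0) (W1 := 536870912) (P2 := 1073741824) (W2 := 536870912) (P3 := 649613803) (W3 := 48318383) (N0 := 3) (En := eng) (mo := mog) (C1 := cd0q2) (C2 := cd8q2) (C3 := pd0)
    rfl k0_pm_202_s

noncomputable def cut_pm_203_s : Cut := Cut.of [[⟨4, 0, 0, 1449551462⟩]]

noncomputable def f_pm_203_s : ℕ → ℕ → ℕ → ℕ → Bool := onCell 0 536870912 0 1230186008 649613803 48318383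
    (rowNE 3 eng mog cd0q2 cd8q3 pd0 0 false true false .up 2 0 3 (qsf 0 536870912 0 1230186008 0) ndB0q2 ndB8q3 pcB0 cut_pm_203_s Ext.none)

def k0_pm_203_s : ∃ t, chk3 f_pm_203_s t 1 1 1 = true :=
  ⟨(b (l 2) (b (l 2) (a (b (b (l 2) (a (a (a (l 307728001143) (l 292158769671)) (l 274979026743)) (a (l 16790024) (l 6)))) (a (a (b (b (l 16760040) (l 16749456)) (b (l 16730624) (l 16701712))) (b (l 16755864) (l 6))) (l 6))) (l 6)))), by decide +kernel⟩

theorem c_pm_203_s : CertNE 0 536870912 0 1230186008 649613803 48318383 3 eng mog cd0q2 cd8q3 pd0 false true false .up 2 0 3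
    ndB0q2 ndB8q3 pcB0 cut_pm_203_s Ext.none :=
  certNE0 (fam := false) (s1 := true) (s2 := false) (a := 2) (b := 0) (c := 3) (cn := .up) (n1 := ndB0q2) (n2 := ndB8q3) (pc := pcB0) (cut := cut_pm_203_s) (xt := Ext.none) (P1 := 0) (W1 := 536870912) (P2 := 0) (W2 := 1230186008) (P3 := 649613803) (W3 := 48318383) (N0 := 3) (En := eng) (mo := mog) (C1 := cd0q2) (C2 := cd8q3) (C3 := pd0)
    rfl k0_pm_203_s

noncomputable def cut_pm_213_s : Cut := Cut.of [[⟨4, 0, 0, 1449551462⟩], [⟨0, 1, 0, 67108864⟩, ⟨1, 1, 0, 67108864⟩, ⟨2, 2, 0, 16777216⟩]]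

noncomputable def f_pm_213_s : ℕ → ℕ → ℕ → ℕ → Bool := onCell 0 536870912 0 1230186008 649613803 48318383
    (rowNE 3 eng mog cd0q2 cd8q3 pd1 0 false true false .pnn 2 1 3 (qsf 0 536870912 0 1230186008 1) ndB0q2 ndB8q3 pcB1 cut_pm_213_s Ext.none)

def k0_pm_213_s : ∃ t, chk3 f_pm_213_s t 2 2 1 = true :=
  ⟨(b (l 3) (a (l 3) (b (l 3) (a (a (l 3) (b (l 3) (b (l 3) (b (l 3) (l 321753460647))))) (b (a (l 3) (b (a (l 3) (b (l 3) (a (l 3) (l 321753443831)))) (a (b (l 3) (a (l 3) (b (l 315310994391) (l 279877516455)))) (b (a (b (l 3) (a (l 3) (l 290078063943))) (b (l 289004327383) (l 248739007687))) (a (b (l 270750710999) (l 16776576)) (l 16776816)))))) (a (b (a (l 3) (b (l 313700378391) (a (l 300815480023) (b (l 265918872487) (l 16775720))))) (a (b (a (l 3) (l 290078062919)) (a (b (l 292225546951) (l 231022272343)) (l 16774192))) (b (a (b (l 241759689351) (l 16774544)) (l 16773296)) (l 16770592)))) (b (a (b (a (b (l 294373030247) (l 252497099143)) (b (l 16776424) (l 16775440)))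 (l 16774048)) (b (l 16775168) (l 16772568))) (a (l 16769072) (l 16767216))))))))), by decide +kernel⟩

def k1_pm_213_s : ∃ t, chk3 f_pm_213_s t 6 4 1 = true :=
  ⟨(b (l 3) (a (l 3) (b (l 3) (a (l 3) (b (a (l 3) (b (l 3) (a (l 3) (b (a (l 3) (l 326048413975)) (a (b (l 3) (l 314237257527)) (b (a (l 313163513335) (l 293299290151)) (l 288467453031))))))) (a (b (l 3) (a (b (l 3) (a (l 3) (b (l 3) (l 315310996791)))) (b (a (l 327122155879) (b (l 311016032279) (a (l 300815482791) (l 16777392)))) (a (b (a (l 314774126087) (l 284709355575)) (l 285246227495)) (l 16777624))))) (b (a (b (a (l 3) (b (l 329806510727) (a (l 320679705895) (l 298667999127)))) (a (b (l 319069092935) (a (l 308868546231) (l 292225549191))) (b (l 289541193927) (l 16777528)))) (b (a (b (a (l 302962966343) (l 16777336)) (l 16777448)) (l 16777640)) (l 16777904))) (a (b (a (b (l 289541194807) (l 16777624)) (l 16777840)) (l 16778152)) (l 16778656))))))))), by decide +kernel⟩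

def k2_pm_213_s : ∃ t, chk3 f_pm_213_s t 7 4 1 = true :=
  ⟨(a (a (b (l 3) (b (b (l 3) (a (b (l 3) (a (l 3) (b (l 3) (a (l 3) (b (l 3) (a (l 3) (l 299741740775))))))) (b (a (b (l 3) (a (l 3) (l 336248960823))) (b (a (l 3) (b (l 328195898071) (a (l 312626642359) (l 290614935623)))) (a (b (a (l 3) (l 306184191607)) (a (l 300815482631) (l 16777352))) (b (l 289004324967) (l 16777592))))) (a (b (a (b (l 3) (l 320142834567)) (b (a (l 324437802151) (l 295446773607)) (l 286319968423))) (a (b (a (l 306184191543) (l 286319968375)) (l 282561873223)) (l 16777616))) (b (a (l 16777560) (l 16777904)) (l 16778160)))))) (b (a (b (a (b (l 3) (a (l 3) (b (l 315847867447) (a (l 304036708039) (l 287930581911))))) (b (a (b (l 326585285255) (a (l 316384738631) (l 291688677303))) (b (a (l 295446773559) (l 16777360)) (l 16777456))) (a (b (l 285783097559) (l 16777520)) (l 16777736)))) (a (b (a (b (a (l 327122156631) (l 299741740839)) (a (l 295983644567) (l 16777376))) (l 280414389767)) (l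 16777720)) (l 16778192))) (b (a (l 16778056) (l 16778888)) (l 16779536))) (a (l 16779368) (l 16781472))))) (b (l 14) (a (b (a (b (b (l 3) (b (a (l 3) (a (l 3) (l 14))) (a (b (l 3) (a (l 332490865687) (l 298131128103))) (b (a (l 302962966215) (l 14)) (l 16777472))))) (b (b (a (b (l 289541196487) (l 16777536)) (l 16777792)) (l 16778048)) (l 16778776))) (b (l 14) (l 16779208))) (b (l 16780856) (l 16786096))) (b (l 14) (l 16845912))))) (b (l 14) (b (a (a (l 14) (l 14)) (b (l 14) (l 16783576))) (a (l 16787640) (l 16789872))))), by decide +kernel⟩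

def k3_pm_213_s : ∃ t, chk3 f_pm_213_s t 12 10 1 = true :=
  ⟨(b (a (l 3) (b (l 3) (a (l 3) (b (l 3) (a (l 3) (b (l 3) (a (l 3) (l 313700383799)))))))) (a (b (l 3) (a (l 3) (b (a (l 3) (b (l 3) (l 316921607479))) (a (b (l 3) (a (l 3) (l 301352353287))) (b (a (l 308331674551) (l 271287583063)) (a (l 268066359415) (l 16778008))))))) (b (a (b (l 3) (a (l 3) (b (l 319605967655) (a (l 312089776455) (l 271824449287))))) (b (a (b (l 3) (a (l 320679704711) (b (l 312089771447) (l 275045679719)))) (b (a (l 309942287895) (l 274508809399)) (a (l 16776840) (l 16779032)))) (a (b (a (b (l 306721062839) (l 16776448)) (l 16778392)) (l 16778968)) (l 16780344)))) (a (b (a (b (a (l 321216575255) (l 306721067863)) (a (b (l 306184191687) (l 262160775143)) (l 16777944))) (b (a (l 260013290711) (l 16778600)) (l 16779000))) (a (l 16778600) (l 16780008))) (b (l 16781176) (l 16782648)))))), by decide +kernel⟩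

def k4_pm_213_s : ∃ t, chk3 f_pm_213_s t 13 10 1 = true :=
  ⟨(b (a (b (a (l 3) (b (a (l 3) (b (l 3) (a (l 3) (b (l 319069093015) (a (l 312626642695) (l 274508807111)))))) (a (b (l 328732771863) (a (l 314237255863) (b (l 305647323575) (l 269140097559)))) (b (a (b (l 312626645111) (l 278803775767)) (l 276119422631)) (l 16778064))))) (a (b (a (b (l 3) (l 326048413079)) (b (a (l 3) (b (l 317995350887) (l 306184191847))) (a (b (l 313163513127) (l 277730033847)) (l 269676967639)))) (a (b (a (l 317458479751) (b (l 308331675383) (l 276656292487))) (a (l 276119418935) (l 16778256))) (b (a (l 16777968) (l 16778592)) (l 16779304)))) (b (a (b (a (b (l 278803775719) (l 16777712)) (l 16778040)) (l 16778576)) (l 16779224)) (l 16780728)))) (b (a (b (a (b (a (b (l 329806510807) (l 310479161607)) (b (a (l 306721062775) (l 16777368)) (l 16777512))) (a (b (l 280414388551) (l 16777640)) (l 16777888))) (l 16778192)) (l 16779104)) (l 16780240)) (a (l 16782176) (l 16785280)))) (a (b (a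 (b (a (l 16779632) (l 16781200)) (l 16783328)) (l 16785552)) (a (l 16785384) (l 16789016))) (b (l 16832400) (l 16792112)))), by decide +kernel⟩

def k5_pm_213_s : ∃ t, chk3 f_pm_213_s t 6 11 1 = true :=
  ⟨(a (b (a (b (a (b (a (l 3) (b (l 320142832679) (a (l 302962965271) (l 271824453575)))) (a (b (a (l 3) (l 295983644023)) (a (l 278266904007) (l 16777304))) (b (l 256255200487) (l 16777560)))) (b (a (b (a (l 276656291463) (l 16777576)) (l 16777728)) (l 16778400)) (l 16778456))) (a (b (a (l 16777320) (l 16777712)) (l 16777368)) (l 16778064))) (b (a (l 16780608) (l 16783480)) (a (l 16781016) (l 16783336)))) (a (b (a (l 16773656) (l 16777576)) (a (l 16769536) (l 16771424))) (l 16778992))) (b (a (b (l 16791608) (l 16787760)) (l 16792984)) (a (l 16783424) (l 16790928)))), by decide +kernel⟩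

def k6_pm_213_s : ∃ t, chk3 f_pm_213_s t 7 5 1 = true :=
  ⟨(b (b (a (a (b (a (l 16782848) (l 16787792)) (l 16789968)) (l 16792512)) (a (l 16794768) (l 16796472))) (a (a (l 16794760) (l 16796616)) (l 16798904))) (a (b (l 16799320) (l 16805008)) (b (l 6) (l 6)))), by decide +kernel⟩

def k7_pm_213_s : ∃ t, chk3 f_pm_213_s t 2 6 1 = true :=
  ⟨(b (a (b (l 3) (a (l 3) (a (l 3) (b (a (l 3) (b (l 3) (l 302426091943))) (a (b (l 329269635319) (a (l 301889222087) (l 238001584167))) (b (a (l 279877516119) (l 16775512)) (l 16774472))))))) (b (a (a (b (l 3) (a (l 3) (b (l 303499833383) (a (l 283098741319) (l 231559149255))))) (b (a (b (l 3) (a (l 317458477191) (l 269140108039))) (b (a (l 301889222503) (b (l 254107721623) (l 16774752))) (a (l 211158051799) (l 16771624)))) (a (b (a (l 253033968775) (l 16773408)) (l 16770936)) (l 16767208)))) (a (b (a (b (l 16771496) (l 16767480)) (b (l 16766664) (l 16762272))) (a (b (l 16763448) (l 16760888)) (l 16760104))) (b (a (l 16762592)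 (l 16762120)) (l 16758208)))) (a (a (b (a (b (l 284709353495) (l 225116698711)) (b (l 16773040) (l 16770184))) (a (l 16771696) (l 16766560))) (b (a (l 16765928) (l 16762024)) (a (l 16763336) (l 16758504)))) (a (b (a (l 16758944) (l 16756200)) (l 16754160)) (l 16752952))))) (a (b (a (a (l 3) (b (l 3) (a (l 3) (b (l 3) (l 296520513543))))) (a (b (a (l 330343395783) (b (l 304036705287) (l 236927842119))) (a (b (l 279340665095) (l 16776568)) (l 16775624))) (b (a (b (l 229411660983) (l 16774768)) (l 16771944)) (a (l 16772456) (l 16770944))))) (a (b (a (a (l 3) (l 340007070551)) (a (b (l 314774122519) (l 227801036679)) (b (l 225653564439) (l 16776040)))) (a (a (b (l 3) (l 298668017991)) (b (a (l 303499835527) (l 226727307543)) (l 16776392))) (a (l 16775624) (l 16772744)))) (a (b (a (l 16773808) (l 16773008)) (b (l 16772112) (l 16768672))) (b (l 16827448) (l 16762088))))) (a (b (a (b (a (l 16768896) (l 16764800)) (l 16762536)) (l 16755144)) (b (l 16750376) (l 16746888)))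 (b (a (l 16746960) (l 16749424)) (l 16752712))))), by decide +kernel⟩

def k8_pm_213_s : ∃ t, chk3 f_pm_213_s t 3 6 1 = true :=
  ⟨(a (b (a (b (a (l 16763904) (l 16770408)) (a (l 16758872) (l 16770384))) (b (l 16924008) (l 16784520))) (b (a (l 16757272) (l 6)) (l 6))) (b (l 6) (l 6))), by decide +kernel⟩

def k9_pm_213_s : ∃ t, chk3 f_pm_213_s t 1 7 1 = true :=
  ⟨(a (b (a (b (a (b (a (a (b (l 218137371815) (l 16775720)) (l 16773016)) (a (l 16773200) (l 16770656))) (a (a (l 16771168) (b (l 16772208) (l 16767104))) (l 16764376))) (a (l 16756784) (b (l 16754328) (l 16748056)))) (b (a (a (l 16760744) (l 16751528)) (l 16755384)) (a (a (l 16745640) (l 16738880)) (l 16725408)))) (a (a (b (l 16753544) (l 16713816)) (b (l 16729856) (l 6))) (l 6))) (a (l 1) (l 6))) (l 6)), by decide +kernel⟩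

theorem s10_pm_213_s : ∃ t, chk3 f_pm_213_s t 1 6 1 = true := ex3_a k7_pm_213_s k8_pm_213_s

theorem s11_pm_213_s : ∃ t, chk3 f_pm_213_s t 1 3 1 = true := ex3_b s10_pm_213_s k9_pm_213_s

theorem s12_pm_213_s : ∃ t, chk3 f_pm_213_s t 6 10 1 = true := ex3_a k3_pm_213_s k4_pm_213_s

theorem s13_pm_213_s : ∃ t, chk3 f_pm_213_s t 6 5 1 = true := ex3_b s12_pm_213_s k5_pm_213_s

theorem s14_pm_213_s : ∃ t, chk3 f_pm_213_s t 3 5 1 = true := ex3_a s13_pm_213_s k6_pm_213_s

theorem s15_pm_213_s : ∃ t, chk3 f_pm_213_s t 3 4 1 = true := ex3_a k1_pm_213_s k2_pm_213_s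

theorem s16_pm_213_s : ∃ t, chk3 f_pm_213_s t 3 2 1 = true := ex3_b s15_pm_213_s s14_pm_213_s

theorem s17_pm_213_s : ∃ t, chk3 f_pm_213_s t 1 2 1 = true := ex3_a k0_pm_213_s s16_pm_213_s

theorem s18_pm_213_s : ∃ t, chk3 f_pm_213_s t 1 1 1 = true := ex3_b s17_pm_213_s s11_pm_213_s

theorem c_pm_213_s : CertNE 0 536870912 0 1230186008 649613803 48318383 3 eng mog cd0q2 cd8q3 pd1 false true false .pnn 2 1 3
    ndB0q2 ndB8q3 pcB1 cut_pm_213_s Ext.none :=
  certNE0 (fam := false) (s1 := true) (s2 := false) (a := 2) (b := 1) (c := 3) (cn := .pnn) (n1 := ndB0q2) (n2 := ndB8q3) (pc := pcB1) (cut := cut_pm_213_s) (xt := Ext.none) (P1 := 0) (W1 := 536870912) (P2 := 0) (W2 := 1230186008) (P3 := 649613803) (W3 := 48318383) (N0 := 3) (En := eng) (mo := mog) (C1 := cd0q2) (C2 := cd8q3) (C3 := pd1)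
    rfl s18_pm_213_s

noncomputable def cut_mm_001_s : Cut := Cut.of [[⟨4, 0, 0, 1449551462⟩]]

noncomputable def f_mm_001_s : ℕ → ℕ → ℕ → ℕ → Bool := onCell 0 536870912 0 536870912 649613803 48318383
    (rowNE 3 eng mog cd0q0 cd8q1 pd0 1 false false false .up 0 0 1 (qsf 0 536870912 536870912 536870912 0) ndB0q0 ndB8q1 pcB0 cut_mm_001_s Ext.none)

def k0_mm_001_s : ∃ t, chk3 f_mm_001_s t 1 1 1 = true :=
  ⟨(l 3), by decide +kernel⟩

theorem c_mm_001_s : CertNE 0 536870912 536870912 536870912 649613803 48318383 3 eng mog cd0q0 cd8q1 pd0 false false false .up 0 0 1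
    ndB0q0 ndB8q1 pcB0 cut_mm_001_s Ext.none :=
  certNE1 (fam := false) (s1 := false) (s2 := false) (a := 0) (b := 0) (c := 1) (cn := .up) (n1 := ndB0q0) (n2 := ndB8q1) (pc := pcB0) (cut := cut_mm_001_s) (xt := Ext.none) (P1 := 0) (W1 := 536870912) (P2 := 536870912) (W2 := 536870912) (P3 := 649613803) (W3 := 48318383) (N0 := 3) (En := eng) (mo := mog) (C1 := cd0q0) (C2 := cd8q1) (C3 := pd0)
    rfl (fun _ => rfl) k0_mm_001_s

noncomputable def cut_mm_011_s : Cut := Cut.of [[⟨4, 0, 0, 1449551462⟩]]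

noncomputable def f_mm_011_s : ℕ → ℕ → ℕ → ℕ → Bool := onCell 0 536870912 536870912 536870912 649613803 48318383
    (rowNE 3 eng mog cd0q0 cd8q1 pd1 1 false false false .pnn 0 1 1 (qsf 0 536870912 536870912 536870912 1) ndB0q0 ndB8q1 pcB1 cut_mm_011_s Ext.none)

def k0_mm_011_s : ∃ t, chk3 f_mm_011_s t 1 1 1 = true :=
  ⟨(l 5), by decide +kernel⟩

theorem c_mm_011_s : CertNE 0 536870912 536870912 536870912 649613803 48318383 3 eng mog cd0q0 cd8q1 pd1 false false false .pnn 0 1 1
    ndB0q0 ndB8q1 pcB1 cut_mm_011_s Ext.none :=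
  certNE1 (fam := false) (s1 := false) (s2 := false) (a := 0) (b := 1) (c := 1) (cn := .pnn) (n1 := ndB0q0) (n2 := ndB8q1) (pc := pcB1) (cut := cut_mm_011_s) (xt := Ext.none) (P1 := 0) (W1 := 536870912) (P2 := 536870912) (W2 := 536870912) (P3 := 649613803) (W3 := 48318383) (N0 := 3) (En := eng) (mo := mog) (C1 := cd0q0) (C2 := cd8q1) (C3 := pd1)
    rfl (fun _ => rfl) k0_mm_011_s

noncomputable def cut_mm_012_s : Cut := Cut.of [[⟨4, 0, 0, 1449551462⟩]]

noncomputable def f_mm_012_s : ℕ → ℕ → ℕ → ℕ → Bool := onCell 0 536870912 1073741824 536870912 649613803 48318383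
    (rowNE 3 eng mog cd0q0 cd8q2 pd1 0 false false false .pnp 0 1 2 (qsf 0 536870912 1073741824 536870912 1) ndB0q0 ndB8q2 pcB1 cut_mm_012_s Ext.none)

def k0_mm_012_s : ∃ t, chk3 f_mm_012_s t 1 1 1 = true :=
  ⟨(l 5), by decide +kernel⟩

theorem c_mm_012_s : CertNE 0 536870912 1073741824 536870912 649613803 48318383 3 eng mog cd0q0 cd8q2 pd1 false false false .pnp 0 1 2
    ndB0q0 ndB8q2 pcB1 cut_mm_012_s Ext.none :=
  certNE0 (fam := false) (s1 := false) (s2 := false) (a := 0) (b := 1) (c := 2) (cn := .pnp) (n1 := ndB0q0) (n2 := ndB8q2) (pc := pcB1) (cut := cut_mm_012_s) (xt := Ext.none) (P1 := 0) (W1 := 536870912) (P2 := 1073741824) (W2 := 536870912) (P3 := 649613803) (W3 := 48318383) (N0 := 3) (En := eng) (mo := mog) (C1 := cd0q0) (C2 := cd8q2) (C3 := pd1)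
    rfl k0_mm_012_s

noncomputable def cut_mm_022_s : Cut := Cut.of [[⟨4, 0, 0, 1449551462⟩]]

noncomputable def f_mm_022_s : ℕ → ℕ → ℕ → ℕ → Bool := onCell 0 536870912 1073741824 536870912 649613803 48318383
    (rowNE 3 eng mog cd0q0 cd8q2 pd2 0 false false false .pp 0 2 2 (qsf 0 536870912 1073741824 536870912 2) ndB0q0 ndB8q2 pcB2 cut_mm_022_s Ext.none)

def k0_mm_022_s : ∃ t, chk3 f_mm_022_s t 1 1 1 = true :=
  ⟨(l 5), by decide +kernel⟩

theorem c_mm_022_s : CertNE 0 536870912 1073741824 536870912 649613803 48318383 3 eng mog cd0q0 cd8q2 pd2 false false false .pp 0 2 2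
    ndB0q0 ndB8q2 pcB2 cut_mm_022_s Ext.none :=
  certNE0 (fam := false) (s1 := false) (s2 := false) (a := 0) (b := 2) (c := 2) (cn := .pp) (n1 := ndB0q0) (n2 := ndB8q2) (pc := pcB2) (cut := cut_mm_022_s) (xt := Ext.none) (P1 := 0) (W1 := 536870912) (P2 := 1073741824) (W2 := 536870912) (P3 := 649613803) (W3 := 48318383) (N0 := 3) (En := eng) (mo := mog) (C1 := cd0q0) (C2 := cd8q2) (C3 := pd2)
    rfl k0_mm_022_s

noncomputable def cut_mm_023_s : Cut := Cut.of [[⟨4, 0, 0, 1449551462⟩]]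

noncomputable def f_mm_023_s : ℕ → ℕ → ℕ → ℕ → Bool := onCell 0 536870912 0 1230186008 649613803 48318383
    (rowNE 3 eng mog cd0q0 cd8q3 pd2 0 false false false .up 0 2 3 (qsf 0 536870912 0 1230186008 2) ndB0q0 ndB8q3 pcB2 cut_mm_023_s Ext.none)

def k0_mm_023_s : ∃ t, chk3 f_mm_023_s t 1 1 1 = true :=
  ⟨(l 5), by decide +kernel⟩

theorem c_mm_023_s : CertNE 0 536870912 0 1230186008 649613803 48318383 3 eng mog cd0q0 cd8q3 pd2 false false false .up 0 2 3
    ndB0q0 ndB8q3 pcB2 cut_mm_023_s Ext.none :=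
  certNE0 (fam := false) (s1 := false) (s2 := false) (a := 0) (b := 2) (c := 3) (cn := .up) (n1 := ndB0q0) (n2 := ndB8q3) (pc := pcB2) (cut := cut_mm_023_s) (xt := Ext.none) (P1 := 0) (W1 := 536870912) (P2 := 0) (W2 := 1230186008) (P3 := 649613803) (W3 := 48318383) (N0 := 3) (En := eng) (mo := mog) (C1 := cd0q0) (C2 := cd8q3) (C3 := pd2)
    rfl k0_mm_023_s

noncomputable def cut_mm_033_s : Cut := Cut.of [[⟨4, 0, 0, 1449551462⟩]]

noncomputable def f_mm_033_s : ℕ → ℕ → ℕ → ℕ → Bool := onCell 0 536870912 0 1230186008 649613803 48318383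
    (rowNE 3 eng mog cd0q0 cd8q3 pd3 0 false false false .pnn 0 3 3 (qsf 0 536870912 0 1230186008 3) ndB0q0 ndB8q3 pcB3 cut_mm_033_s Ext.none)

def k0_mm_033_s : ∃ t, chk3 f_mm_033_s t 1 1 1 = true :=
  ⟨(l 5), by decide +kernel⟩

theorem c_mm_033_s : CertNE 0 536870912 0 1230186008 649613803 48318383 3 eng mog cd0q0 cd8q3 pd3 false false false .pnn 0 3 3
    ndB0q0 ndB8q3 pcB3 cut_mm_033_s Ext.none :=
  certNE0 (fam := false) (s1 := false) (s2 := false) (a := 0) (b := 3) (c := 3) (cn := .pnn) (n1 := ndB0q0) (n2 := ndB8q3) (pc := pcB3) (cut := cut_mm_033_s) (xt := Ext.none) (P1 := 0) (W1 := 536870912) (P2 := 0) (W2 := 1230186008) (P3 := 649613803) (W3 := 48318383) (N0 := 3) (En := eng) (mo := mog) (C1 := cd0q0) (C2 := cd8q3) (C3 := pd3)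
    rfl k0_mm_033_s

noncomputable def cut_mm_101_s : Cut := Cut.of [[⟨4, 0, 0, 1449551462⟩], [⟨0, 1, 0, 67108864⟩, ⟨1, 0, 0, 67108864⟩, ⟨2, 1, 0, 67108864⟩]]

noncomputable def f_mm_101_s : ℕ → ℕ → ℕ → ℕ → Bool := onCell 536870912 536870912 0 536870912 649613803 48318383
    (rowNE 3 eng mog cd0q1 cd8q1 pd0 1 false false false .npn 1 0 1 (qsf 536870912 536870912 536870912 536870912 0) ndB0q1 ndB8q1 pcB0 cut_mm_101_s Ext.none)

def k0_mm_101_s : ∃ t, chk3 f_mm_101_s t 1 1 1 = true :=
  ⟨(a (l 3) (b (a (l 3) (b (a (l 3) (b (a (l 3) (b (l 14) (l 3))) (l 3))) (l 3))) (l 3))), by decide +kernel⟩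

theorem c_mm_101_s : CertNE 536870912 536870912 536870912 536870912 649613803 48318383 3 eng mog cd0q1 cd8q1 pd0 false false false .npn 1 0 1
    ndB0q1 ndB8q1 pcB0 cut_mm_101_s Ext.none :=
  certNE1 (fam := false) (s1 := false) (s2 := false) (a := 1) (b := 0) (c := 1) (cn := .npn) (n1 := ndB0q1) (n2 := ndB8q1) (pc := pcB0) (cut := cut_mm_101_s) (xt := Ext.none) (P1 := 536870912) (W1 := 536870912) (P2 := 536870912) (W2 := 536870912) (P3 := 649613803) (W3 := 48318383) (N0 := 3) (En := eng) (mo := mog) (C1 := cd0q1) (C2 := cd8q1) (C3 := pd0)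
    rfl (fun _ => rfl) k0_mm_101_s

noncomputable def cut_mm_102_s : Cut := Cut.of [[⟨4, 0, 0, 1449551462⟩], [⟨0, 1, 0, 67108864⟩, ⟨1, 0, 0, 67108864⟩, ⟨2, 1, 0, 67108864⟩]]

noncomputable def f_mm_102_s : ℕ → ℕ → ℕ → ℕ → Bool := onCell 536870912 536870912 0 536870912 649613803 48318383
    (rowNE 3 eng mog cd0q1 cd8q2 pd0 1 false false false .npp 1 0 2 (qsf 536870912 536870912 1073741824 536870912 0) ndB0q1 ndB8q2 pcB0 cut_mm_102_s Ext.none)

def k0_mm_102_s : ∃ t, chk3 f_mm_102_s t 1 1 1 = true :=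
  ⟨(a (l 3) (b (a (l 3) (b (a (l 3) (b (a (l 3) (b (l 14) (l 3))) (l 3))) (l 3))) (l 3))), by decide +kernel⟩

theorem c_mm_102_s : CertNE 536870912 536870912 1073741824 536870912 649613803 48318383 3 eng mog cd0q1 cd8q2 pd0 false false false .npp 1 0 2
    ndB0q1 ndB8q2 pcB0 cut_mm_102_s Ext.none :=
  certNE1 (fam := false) (s1 := false) (s2 := false) (a := 1) (b := 0) (c := 2) (cn := .npp) (n1 := ndB0q1) (n2 := ndB8q2) (pc := pcB0) (cut := cut_mm_102_s) (xt := Ext.none) (P1 := 536870912) (W1 := 536870912) (P2 := 1073741824) (W2 := 536870912) (P3 := 649613803) (W3 := 48318383) (N0 := 3) (En := eng) (mo := mog) (C1 := cd0q1) (C2 := cd8q2) (C3 := pd0)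
    rfl (fun _ => rfl) k0_mm_102_s

noncomputable def cut_mm_112_s : Cut := Cut.of [[⟨4, 0, 0, 1449551462⟩]]

noncomputable def f_mm_112_s : ℕ → ℕ → ℕ → ℕ → Bool := onCell 536870912 536870912 1073741824 536870912 649613803 48318383
    (rowNE 3 eng mog cd0q1 cd8q2 pd1 2 false false false .dn 1 1 2 (qsf 536870912 536870912 1073741824 536870912 1) ndB0q1 ndB8q2 pcB1 cut_mm_112_s Ext.none)

def k0_mm_112_s : ∃ t, chk3 f_mm_112_s t 1 1 1 = true :=
  ⟨(a (l 3) (l 5)), by decide +kernel⟩

theorem c_mm_112_s : CertNE 536870912 536870912 1073741824 536870912 649613803 48318383 3 eng mog cd0q1 cd8q2 pd1 false false false .dn 1 1 2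
    ndB0q1 ndB8q2 pcB1 cut_mm_112_s Ext.none :=
  certNE2 (fam := false) (s1 := false) (s2 := false) (a := 1) (b := 1) (c := 2) (cn := .dn) (n1 := ndB0q1) (n2 := ndB8q2) (pc := pcB1) (cut := cut_mm_112_s) (xt := Ext.none) (P1 := 536870912) (W1 := 536870912) (P2 := 1073741824) (W2 := 536870912) (P3 := 649613803) (W3 := 48318383) (N0 := 3) (En := eng) (mo := mog) (C1 := cd0q1) (C2 := cd8q2) (C3 := pd1)
    rfl (fun _ => rfl) k0_mm_112_s

noncomputable def cut_mm_113_s : Cut := Cut.of [[⟨4, 0, 0, 1449551462⟩]]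

noncomputable def f_mm_113_s : ℕ → ℕ → ℕ → ℕ → Bool := onCell 536870912 536870912 0 1230186008 649613803 48318383
    (rowNE 3 eng mog cd0q1 cd8q3 pd1 0 false false false .nn 1 1 3 (qsf 536870912 536870912 0 1230186008 1) ndB0q1 ndB8q3 pcB1 cut_mm_113_s Ext.none)

def k0_mm_113_s : ∃ t, chk3 f_mm_113_s t 1 1 1 = true :=
  ⟨(a (l 5) (b (l 5) (a (b (l 5) (l 3)) (l 3)))), by decide +kernel⟩

theorem c_mm_113_s : CertNE 536870912 536870912 0 1230186008 649613803 48318383 3 eng mog cd0q1 cd8q3 pd1 false false false .nn 1 1 3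
    ndB0q1 ndB8q3 pcB1 cut_mm_113_s Ext.none :=
  certNE0 (fam := false) (s1 := false) (s2 := false) (a := 1) (b := 1) (c := 3) (cn := .nn) (n1 := ndB0q1) (n2 := ndB8q3) (pc := pcB1) (cut := cut_mm_113_s) (xt := Ext.none) (P1 := 536870912) (W1 := 536870912) (P2 := 0) (W2 := 1230186008) (P3 := 649613803) (W3 := 48318383) (N0 := 3) (En := eng) (mo := mog) (C1 := cd0q1) (C2 := cd8q3) (C3 := pd1)
    rfl k0_mm_113_s

noncomputable def cut_mm_123_s : Cut := Cut.of [[⟨4, 0, 0, 1449551462⟩]]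

noncomputable def f_mm_123_s : ℕ → ℕ → ℕ → ℕ → Bool := onCell 1073741824 536870912 0 1230186008 649613803 48318383
    (rowNE 3 eng mog cd0q1 cd8q3 pd2 2 false false false .npn 1 2 3 (qsf 536870912 536870912 0 1230186008 2) ndB0q1 ndB8q3 pcB2 cut_mm_123_s Ext.none)

def k0_mm_123_s : ∃ t, chk3 f_mm_123_s t 1 1 1 = true :=
  ⟨(b (l 5) (l 5)), by decide +kernel⟩

theorem c_mm_123_s : CertNE 536870912 536870912 0 1230186008 649613803 48318383 3 eng mog cd0q1 cd8q3 pd2 false false false .npn 1 2 3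
    ndB0q1 ndB8q3 pcB2 cut_mm_123_s Ext.none :=
  certNE2 (fam := false) (s1 := false) (s2 := false) (a := 1) (b := 2) (c := 3) (cn := .npn) (n1 := ndB0q1) (n2 := ndB8q3) (pc := pcB2) (cut := cut_mm_123_s) (xt := Ext.none) (P1 := 536870912) (W1 := 536870912) (P2 := 0) (W2 := 1230186008) (P3 := 649613803) (W3 := 48318383) (N0 := 3) (En := eng) (mo := mog) (C1 := cd0q1) (C2 := cd8q3) (C3 := pd2)
    rfl (fun _ => rfl) k0_mm_123_s

noncomputable def cut_mm_133_s : Cut := Cut.of [[⟨4, 0, 0, 1449551462⟩]]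

noncomputable def f_mm_133_s : ℕ → ℕ → ℕ → ℕ → Bool := onCell 1610612736 536870912 0 1230186008 649613803 48318383
    (rowNE 3 eng mog cd0q1 cd8q3 pd3 2 false false false .dn 1 3 3 (qsf 536870912 536870912 0 1230186008 3) ndB0q1 ndB8q3 pcB3 cut_mm_133_s Ext.none)

def k0_mm_133_s : ∃ t, chk3 f_mm_133_s t 1 1 1 = true :=
  ⟨(l 5), by decide +kernel⟩

theorem c_mm_133_s : CertNE 536870912 536870912 0 1230186008 649613803 48318383 3 eng mog cd0q1 cd8q3 pd3 false false false .dn 1 3 3
    ndB0q1 ndB8q3 pcB3 cut_mm_133_s Ext.none :=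
  certNE2 (fam := false) (s1 := false) (s2 := false) (a := 1) (b := 3) (c := 3) (cn := .dn) (n1 := ndB0q1) (n2 := ndB8q3) (pc := pcB3) (cut := cut_mm_133_s) (xt := Ext.none) (P1 := 536870912) (W1 := 536870912) (P2 := 0) (W2 := 1230186008) (P3 := 649613803) (W3 := 48318383) (N0 := 3) (En := eng) (mo := mog) (C1 := cd0q1) (C2 := cd8q3) (C3 := pd3)
    rfl (fun _ => rfl) k0_mm_133_s

noncomputable def cut_mm_202_s : Cut := Cut.of [[⟨4, 0, 0, 1449551462⟩], [⟨0, 1, 0, 53687091⟩, ⟨1, 0, 0, 53687091⟩, ⟨2, 1, 0, 53687091⟩]]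

noncomputable def f_mm_202_s : ℕ → ℕ → ℕ → ℕ → Bool := onCell 0 536870912 0 536870912 649613803 48318383
    (rowNE 3 eng mog cd0q2 cd8q2 pd0 1 false false false .pp 2 0 2 (qsf 0 536870912 1073741824 536870912 0) ndB0q2 ndB8q2 pcB0 cut_mm_202_s Ext.none)

def k0_mm_202_s : ∃ t, chk3 f_mm_202_s t 2 2 1 = true :=
  ⟨(b (a (l 6) (b (b (l 6) (a (l 6) (l 16563040))) (a (b (l 6) (l 16539888)) (b (l 16536736) (a (l 16560256) (b (l 16572200) (a (l 16582016) (l 16593656)))))))) (a (b (l 6) (a (l 6) (b (l 16595968) (b (l 16624440) (l 16631640))))) (b (a (b (a (l 6) (l 16698848)) (a (l 16632984) (b (l 16597104) (l 16610976)))) (b (a (b (l 16582760) (l 16598024)) (b (l 16603312) (l 16616368))) (a (l 16596288) (b (l 16633624) (l 16649328))))) (a (b (a (l 16619592) (l 16628968)) (a (l 16645608) (l 16659760))) (b (a (b (l 16642424) (l 16656136)) (b (l 16663840) (l 16677736))) (a (b (l 16669544) (l 16681984)) (b (l 16733936) (l 16705664)))))))), by decide +kernel⟩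

def k1_mm_202_s : ∃ t, chk3 f_mm_202_s t 2 3 1 = true :=
  ⟨(b (b (a (b (a (l 6) (l 16673504)) (a (l 16659944) (a (l 16675880) (l 16682720)))) (a (b (a (l 16670360) (b (l 16677456) (l 16688520))) (a (l 16688160) (l 16707400))) (b (a (b (l 16716440) (l 16707624)) (a (l 16718232) (b (l 16724816) (l 16737472)))) (a (b (l 16719224) (a (l 16725592) (l 16736256))) (b (a (l 16736504) (b (l 16747744) (l 16754408))) (a (b (l 16746488) (l 16753120)) (a (l 16782048) (b (l 16765480) (a (l 16770648) (b (l 16772936) (a (l 16775536) (l 285246226855)))))))))))) (a (a (b (l 16686728) (l 16737856)) (b (a (l 16696696) (l 16703336)) (l 173509978407))) (a (b (a (l 16716160) (b (l 16723424) (a (l 16731328) (l 16739560)))) (a (b (l 16733248) (l 198206045431)) (b (a (l 16743376) (l 16752952)) (a (l 16754984) (l 223438968647))))) (b (a (b (a (l 16737144) (l 16778552)) (a (l 16750736) (b (l 16759784) (a (l 16763232) (l 16769928))))) (b (a (b (l 16760184) (a (l 16763472) (l 163376536807)))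 (a (b (b (l 16769992) (a (l 16771560) (l 195051919783))) (b (a (l 16780344) (l 340007060583)) (l 351281350359))) (b (b (a (l 204715597383) (l 375440541879)) (l 375440542663)) (l 3)))) (a (a (b (l 16770368) (a (b (l 16773536) (l 222432337447)) (b (l 246054658807) (l 378124894983)))) (b (b (a (l 16774240) (l 306721063367)) (l 326585287591)) (l 3))) (l 3)))) (a (b (a (b (l 16760600) (l 16766584)) (b (a (l 16769712) (b (l 195051921351) (a (l 209547434903) (l 341617672503)))) (a (b (l 190756951927) (l 273971937015)) (l 354502574359)))) (a (a (b (l 16769328) (l 301285257895)) (b (b (l 16773672) (l 240685951863)) (a (l 305110450023) (l 3)))) (b (b (l 351281348519) (l 3)) (l 3)))) (a (b (b (b (l 384567346759) (l 3)) (l 3)) (l 3)) (l 3))))))) (a (l 2) (a (l 2) (a (l 2) (l 3))))), by decide +kernel⟩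

def k2_mm_202_s : ∃ t, chk3 f_mm_202_s t 6 4 1 = true :=
  ⟨(b (b (a (b (l 16521088) (l 16521360)) (b (a (l 16548272) (l 16584056)) (a (l 16569704) (l 16605960)))) (a (a (l 16536072) (l 16566144)) (b (l 16629464) (a (l 16609688) (b (l 16679632) (a (l 16642000) (l 16660568))))))) (a (b (a (l 16572440) (b (l 16594000) (b (a (l 16598960) (l 16615240)) (l 16615464)))) (a (b (b (l 16593304) (l 16601472)) (l 16613312)) (b (a (l 16619648) (l 16635896)) (a (l 16635328) (l 16672712))))) (b (a (b (b (a (l 16614760) (l 16632624)) (a (l 16623712) (l 16641216))) (a (l 16636400) (l 16685896))) (b (b (a (l 16650688) (l 16669592)) (a (l 16659512) (l 16678416))) (a (b (l 16668184) (l 16676504)) (b (l 16686816) (l 16695408))))) (a (b (a (l 16548064) (b (l 16666536) (l 16674672))) (a (l 16668928) (l 16686576))) (b (a (l 16688952) (b (l 16703800) (l 16711992))) (a (b (l 16701016) (l 16708880)) (b (l 16719992) (l 16727856)))))))), by decide +kernel⟩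

def k3_mm_202_s : ∃ t, chk3 f_mm_202_s t 14 8 1 = true :=
  ⟨(b (b (a (b (l 16617056) (l 16628552)) (b (a (l 16648200) (l 16670312)) (l 16713048))) (a (l 16687224) (b (l 16682696) (a (l 16705024) (b (l 16729752) (a (l 16702176) (l 16713088))))))) (a (b (b (a (l 16651152) (l 16694256)) (a (l 16662824) (b (l 16679472) (l 16684000)))) (b (a (b (l 16668704) (l 16673336)) (l 16713008)) (a (l 16681000) (a (l 16695008) (l 16704800))))) (b (b (a (b (l 16712520) (l 16695280)) (a (b (l 16706912) (l 16711456)) (b (l 16717888) (l 16722272)))) (a (a (l 16697200) (l 16729752)) (a (b (l 16716056) (l 16720400)) (l 16728944)))) (a (b (a (l 16664336) (l 16674536)) (a (l 16715216) (l 16725816))) (b (a (l 16727288) (b (l 16735992) (l 16740336))) (a (l 16736320) (l 16746984))))))), by decide +kernel⟩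

def k4_mm_202_s : ∃ t, chk3 f_mm_202_s t 15 16 1 = true :=
  ⟨(a (b (b (l 14) (a (l 16726832) (l 14))) (a (b (b (l 16744680) (a (l 16736560) (b (l 16724880) (l 16727408)))) (b (a (l 16698432) (l 16752720)) (a (l 16746176) (a (l 16711616) (l 16738104))))) (b (a (b (l 14) (a (l 16734760) (l 16762216))) (l 14)) (a (b (a (l 16739280) (l 16744992)) (a (l 16743912) (l 16749784))) (b (a (l 16768632) (l 14)) (a (l 16755352) (l 16761168))))))) (b (l 14) (a (b (l 14) (a (b (l 14) (b (l 14) (a (a (l 16766672) (l 16774824)) (l 14)))) (l 14))) (l 14)))), by decide +kernel⟩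

def k5_mm_202_s : ∃ t, chk3 f_mm_202_s t 30 34 1 = true :=
  ⟨(a (b (a (b (l 16686736) (l 16733296)) (b (l 16718984) (a (l 16741664) (l 16747408)))) (a (b (l 16716928) (l 16742416)) (a (l 16769304) (l 16774928)))) (b (a (b (a (l 16748600) (l 16754080)) (l 16767472)) (b (a (l 16759920) (a (l 16764264) (a (l 16766488) (l 16778416)))) (a (c (l 16775176) (l 16775288)) (a (c (l 16773928) (l 16774016)) (a (l 16775992) (l 16774776)))))) (a (b (c (l 16775392) (l 16775152)) (a (l 16775424) (b (l 16777080) (l 16773912)))) (a (b (a (l 16777984) (c (l 16775392) (l 16775464))) (a (l 16776952) (b (l 16775968) (a (l 16777368) (a (l 16777056) (b (l 16775904) (a (l 122037469927) (b (l 16776840) (l 257328940055))))))))) (b (a (c (l 16776848) (l 16777224)) (b (c (l 16777200) (l 16777232)) (b (a (l 16775472) (a (l 97878278967) (b (c (l 16777552) (l 135459242663)) (a (l 220821717911) (l 391009796711))))) (b (a (l 16777560) (a (a (l 164450271959) (l 341617672535)) (l 3))) (a (a (l 16776424)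 (a (l 16776928) (l 231559136119))) (l 402820957655)))))) (a (a (a (b (l 16775024) (b (l 109689439063) (b (c (l 308868546759) (l 314774126775)) (l 3)))) (b (l 16777008) (b (b (l 153712853927) (l 340543930839)) (l 3)))) (a (b (b (l 16775856) (a (l 16777696) (b (l 16776792) (l 243370296263)))) (a (b (l 381882991479) (l 3)) (l 3))) (b (b (l 105931342583) (b (a (l 173577077543) (l 353428832679)) (l 3))) (l 3)))) (a (b (b (a (b (c (l 145659790151) (l 142438564599)) (c (l 329806512519) (l 335175221639))) (b (l 368461218455) (l 3))) (l 3)) (l 3)) (l 3)))))))), by decide +kernel⟩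

def k6_mm_202_s : ∃ t, chk3 f_mm_202_s t 60 35 1 = true :=
  ⟨(a (a (b (l 16746168) (l 16755328)) (b (l 16751872) (b (l 16758632) (l 16773576)))) (b (b (l 16775024) (a (l 16759728) (l 16775776))) (a (b (l 16774656) (l 16773576)) (b (c (l 16774680) (l 16774768)) (a (l 16777512) (b (l 16773864) (a (l 16775232) (b (l 16776032) (a (l 16778024) (a (l 218137363783) (l 341080801799))))))))))), by decide +kernel⟩

def k7_mm_202_s : ∃ t, chk3 f_mm_202_s t 122 35 1 = true :=
  ⟨(b (a (b (c (l 16776888) (l 16776976)) (c (l 16775872) (l 16775944))) (a (b (l 16770504) (b (l 16776208) (a (l 16774976) (a (l 16777600) (b (l 16776120) (b (l 16776880) (l 321216577815))))))) (b (c (l 16777080) (l 16777120)) (a (a (b (l 16775248) (b (a (l 16776616) (l 148881015879)) (l 366313735111))) (b (l 16777872) (b (b (l 211158041719) (l 387251700519)) (l 3)))) (b (b (c (l 118816244839) (l 113984406567)) (a (b (l 16776824) (l 243907167527)) (c (l 356113187703) (l 362555638631)))) (l 3)))))) (a (b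 (a (c (l 16776032) (l 16777392)) (b (c (l 16777648) (l 84456506439)) (b (a (l 16775904) (a (a (l 16776728) (l 164987143447)) (a (l 316921610487) (l 371682444103)))) (a (a (l 16777904) (a (l 174113948839) (l 321216577847))) (l 394231023287))))) (b (a (a (c (l 16777120) (l 16777800)) (a (b (l 16776296) (a (l 181093270823) (l 331417125271))) (b (a (l 16776784) (l 177335174375)) (l 396915377383)))) (a (a (b (l 340543931015) (l 3)) (l 3)) (l 3))) (a (a (b (a (a (l 16776840) (l 185925109079)) (l 348596994791)) (l 406579054455)) (l 3)) (l 3)))) (b (a (b (a (b (c (l 127943050487) (l 123648083127)) (a (a (l 160692176103) (l 312089772231)) (l 380272378919))) (a (b (a (l 307257933975) (l 362018767591)) (l 3)) (l 3))) (l 3)) (l 3)) (l 3)))), by decide +kernel⟩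

def k8_mm_202_s : ∃ t, chk3 f_mm_202_s t 123 35 1 = true :=
  ⟨(b (a (a (b (b (c (l 16777408) (l 16777440)) (b (a (l 16775672) (a (l 124721824791) (b (l 168745239639) (l 366313734775)))) (b (a (l 16777752) (a (l 330343383399) (l 3))) (a (a (l 16776624) (a (l 16777768) (l 350744478087))) (l 3))))) (b (b (a (a (b (l 197199397991) (l 375977411287)) (l 406042183047)) (l 3)) (l 3)) (l 3))) (b (a (a (b (b (l 16775952) (a (l 133848630087) (b (l 16776888) (l 280414389191)))) (b (l 400136602935) (l 3))) (b (b (l 113984406455) (b (l 320142835991) (l 3))) (l 3))) (b (b (a (b (l 160692175863) (l 350207607335)) (l 393157280999)) (l 3)) (l 3))) (l 3))) (l 3)) (l 3)), by decide +kernel⟩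

def k9_mm_202_s : ∃ t, chk3 f_mm_202_s t 124 68 1 = true :=
  ⟨(b (a (a (b (l 16768944) (l 16771032)) (b (l 16776912) (l 16776736))) (a (a (b (l 16773744) (b (l 16775304) (a (l 16776000) (b (l 16776416) (a (l 16776768) (b (l 16776976) (l 220284846711))))))) (b (c (l 16777712) (l 16776432)) (a (b (l 16777304) (a (b (l 16777424) (c (l 349670736263) (l 350207607175))) (b (b (l 172503335495) (l 360408154423)) (l 3)))) (b (a (b (l 16776568) (b (l 16776960) (l 210084299399))) (b (l 16777400) (c (l 344838898023) (l 345375768935)))) (b (l 400136602551) (l 3)))))) (b (l 14) (b (b (b (l 14) (b (l 14) (a (l 405505311975) (l 3)))) (l 3)) (l 3))))) (b (a (b (a (l 16772632) (c (l 16777464) (c (l 16777312) (l 16777328)))) (a (l 16773664) (a (l 16777008) (a (a (l 16777200) (b (l 16776624) (a (l 16777552) (l 211158041399)))) (a (b (l 126332437127) (l 362018767303)) (b (c (l 306721063047) (l 311552901255)) (l 3))))))) (a (a (b (a (a (b (l 16776608) (c (l 182167012039) (l 180556399383)))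 (b (l 122574340711) (l 356650058151))) (a (b (a (l 200957494023) (l 336785834247)) (l 3)) (l 404431570023))) (l 3)) (l 3)) (l 3))) (a (b (a (l 16777328) (a (a (l 16777384) (a (b (l 16776648) (a (l 16777568) (l 222432330503))) (b (l 135459242679) (l 367387476455)))) (a (a (b (c (l 311552901287) (l 316921610407)) (l 3)) (l 3)) (l 3)))) (a (a (l 16775064) (a (l 16776080) (b (l 16776496) (a (l 16776848) (a (l 160155304519) (l 235317232343)))))) (a (a (b (a (l 139754210007) (c (l 316921610439) (l 322290319559))) (l 382419862311)) (l 3)) (l 3)))) (l 3)))), by decide +kernel⟩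

def k10_mm_202_s : ∃ t, chk3 f_mm_202_s t 124 69 1 = true :=
  ⟨(a (b (b (a (a (a (b (l 16775760) (b (l 16776536) (a (l 16776888) (l 214379266935)))) (b (l 16777584) (b (a (l 151028499159) (l 329269641495)) (l 391009796967)))) (b (a (b (c (l 16777504) (l 127943049847)) (a (c (l 209547428615) (l 211158041351)) (l 378661765671))) (b (a (l 324974674151) (l 3)) (l 3))) (l 3))) (l 3)) (b (b (b (a (a (a (l 346449510775) (l 3)) (l 3)) (l 3)) (l 3)) (l 3)) (l 3))) (l 3)) (l 3)), by decide +kernel⟩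

def k11_mm_202_s : ∃ t, chk3 f_mm_202_s t 125 34 1 = true :=
  ⟨(l 3), by decide +kernel⟩

def k12_mm_202_s : ∃ t, chk3 f_mm_202_s t 62 35 1 = true :=
  ⟨(l 3), by decide +kernel⟩

def k13_mm_202_s : ∃ t, chk3 f_mm_202_s t 63 17 1 = true :=
  ⟨(l 3), by decide +kernel⟩

def k14_mm_202_s : ∃ t, chk3 f_mm_202_s t 14 18 1 = true :=
  ⟨(a (b (a (b (l 16626040) (l 16655568)) (b (l 16708784) (a (l 16712504) (l 16722760)))) (a (b (l 16706288) (l 16714912)) (b (l 16726224) (l 16734736)))) (b (a (b (a (l 16724272) (l 16734520)) (a (l 16732832) (l 16743400))) (b (a (l 16745216) (c (l 16775904) (a (l 16753360) (l 16772160)))) (a (a (l 16751376) (l 16772632)) (a (b (l 16759992) (l 16763904)) (a (l 16776304) (l 16773480)))))) (a (a (b (l 16741632) (l 16771264)) (b (l 16767976) (a (l 16778296) (l 16774072)))) (a (b (b (l 16776080) (a (l 16761464) (l 16766520))) (a (c (l 16777976) (l 16777624)) (b (l 16775808) (a (l 16778608) (b (l 16777616) (c (a (l 16778400) (l 326048416615))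 (a (l 143512307319) (l 329269642087)))))))) (b (b (a (l 16767728) (a (l 16771624) (a (l 16778832) (b (l 16773880) (l 16777888))))) (a (c (l 16777080) (l 16776904)) (a (b (l 16774680) (a (l 116131890967) (b (l 160692176647) (l 357723800695)))) (b (a (b (l 16776136) (l 226190428151)) (b (l 314774126967) (l 3))) (l 401747217879))))) (a (b (b (a (l 16773504) (a (l 16775488) (b (l 16776304) (l 246591522919)))) (b (a (l 16775056) (a (l 181630142231) (l 406579054439))) (a (l 126332438343) (l 391546669511)))) (a (b (a (a (l 149417887543) (l 301889223559)) (l 364703123207)) (l 3)) (l 3))) (b (a (b (c (l 364703124023) (a (l 356113188311) (l 3))) (l 3)) (l 3)) (l 3)))))))), by decide +kernel⟩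

def k15_mm_202_s : ∃ t, chk3 f_mm_202_s t 28 19 1 = true :=
  ⟨(b (a (b (l 16723168) (l 16731464)) (a (l 16763288) (b (l 16748344) (a (l 16752520) (l 16778312))))) (a (b (l 16739520) (a (l 16741992) (b (l 16748376) (l 16752568)))) (a (b (a (l 16750120) (l 16754856)) (b (l 16779128) (l 16762872))) (b (b (l 16760624) (l 16775304)) (b (a (l 16766376) (b (l 16770840) (l 16778304))) (a (l 16776216) (a (b (l 16773936) (c (l 161765919175) (a (l 16775432) (l 191293818967)))) (a (b (l 16778624) (l 356113188343)) (b (a (l 228874782919) (l 332490867511)) (l 3)))))))))), by decide +kernel⟩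

def k16_mm_202_s : ∃ t, chk3 f_mm_202_s t 29 19 1 = true :=
  ⟨(b (a (a (b (a (l 16754928) (l 16770304)) (b (l 16773568) (a (l 16775016) (l 16775224)))) (b (b (l 16776000) (a (l 16766968) (c (l 16777688) (l 16777488)))) (a (b (l 16776408) (a (c (l 16779392) (l 16777936)) (b (c (l 16778400) (l 133311760407)) (c (l 324437802823) (a (l 297057386439) (l 385104218199)))))) (b (a (b (l 16774184) (c (l 160692177367) (a (l 16775608) (l 192367560999)))) (b (a (l 134385502119) (a (l 240685943079) (l 348596995175))) (l 378124897095))) (a (a (b (l 329806513079) (l 3)) (l 3)) (l 3)))))) (a (b (a (b (a (l 16772184) (a (l 16776824) (b (l 16774496) (a (l 16776264) (l 177335175127))))) (a (b (l 109152569303) (a (a (l 16777776) (l 195051915527)) (l 352891962839))) (a (b (a (l 186461980743) (l 331953996583)) (l 3)) (l 401210347511)))) (b (a (a (b (l 16775840) (l 340007059975)) (b (c (l 254107713479) (l 291688676007)) (l 3))) (b (l 390472928359) (l 3))) (l 3))) (a (b (a (b (l 405505314503)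 (l 3)) (l 3)) (l 3)) (l 3))) (l 3))) (a (b (a (b (a (l 16768776) (a (l 16778152) (b (l 16774584) (a (l 16778696) (a (l 233706621111) (l 338933318567)))))) (b (a (l 16772024) (a (c (l 158544693783) (a (l 16775448) (l 190756948151))) (l 372756187783))) (b (a (l 16778912) (a (l 329269641575) (l 3))) (a (a (l 16768128) (l 147270404039)) (l 402284090023))))) (a (b (a (b (a (l 168745240999) (l 344838898951)) (l 402284088823)) (l 3)) (l 3)) (l 3))) (a (a (b (a (b (l 16777648) (a (b (l 16775992) (l 234243491687)) (b (l 261087037831) (l 3)))) (b (c (l 319605964503) (a (l 239612201447) (l 378661767095))) (l 3))) (a (b (l 397452250471) (l 3)) (l 3))) (l 3)) (l 3))) (l 3))), by decide +kernel⟩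

def k17_mm_202_s : ∃ t, chk3 f_mm_202_s t 15 9 1 = true :=
  ⟨(b (a (a (b (a (b (a (b (l 16762040) (l 16766184)) (b (l 16777728) (c (l 16776536) (l 16776472)))) (a (b (l 16775368) (a (l 16778048) (b (l 16777024) (a (l 16778392) (b (l 129016792455) (l 326585287255)))))) (b (a (c (l 16777952) (l 16777872)) (a (b (l 16774920) (b (l 16777736) (a (l 181630141847) (l 363629380503)))) (a (b (l 16775888) (c (l 345375769735) (l 351281349735))) (b (c (l 135459243591) (l 133848630759)) (l 3))))) (a (a (b (c (l 133848631159) (b (l 16775824) (l 156934080055))) (c (l 366313736103) (l 372756187015))) (b (b (a (l 16776824) (l 324974674343)) (l 389399184951)) (l 3))) (l 3))))) (b (a (a (b (l 16771152) (b (l 16774160) (a (l 16775504) (b (l 16776296) (a (l 161229047079) (l 344302027431)))))) (b (c (l 16776328) (l 16777648)) (a (b (c (l 115595019911) (l 113447536087)) (a (b (l 231559136903) (l 3)) (l 399062861799))) (b (a (b (l 16776552) (l 335712092711)) (b (l 222432331303) (l 3)))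 (l 3))))) (b (a (a (b (l 16774656) (b (l 16776160) (a (l 141901694151) (l 326585287095)))) (b (c (l 16777912) (l 107005084903)) (b (a (a (l 16777624) (l 238001587591)) (l 366313735095)) (l 3)))) (b (a (a (b (l 16776424) (l 317995352391)) (b (a (l 16777560) (l 222432331191)) (l 3))) (b (l 376514282871) (l 3))) (l 3))) (a (a (a (b (l 393157281655) (l 3)) (l 3)) (l 3)) (l 3)))) (a (b (a (b (a (b (a (l 16776688) (l 241222813447)) (l 367387477319)) (l 406042184327)) (l 3)) (l 3)) (l 3)) (l 3)))) (a (b (a (b (a (a (b (l 16775184) (b (l 145122919959) (l 341617673063))) (b (b (l 16775984) (l 174113949543)) (l 387251701911))) (a (b (b (l 299741740503) (l 405505312551)) (l 3)) (l 3))) (l 3)) (l 3)) (l 3)) (l 3))) (l 3)) (l 3)) (l 3)), by decide +kernel⟩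

def k18_mm_202_s : ∃ t, chk3 f_mm_202_s t 12 10 1 = true :=
  ⟨(b (a (b (a (l 16621792) (l 16635696)) (l 16644584)) (b (a (l 16651288) (l 16667536)) (a (l 16666992) (l 16683368)))) (a (b (l 16660040) (a (l 16668360) (l 16682632))) (b (a (l 16682648) (l 16699440)) (a (l 16698624) (l 16715128))))), by decide +kernel⟩

def k19_mm_202_s : ∃ t, chk3 f_mm_202_s t 13 20 1 = true :=
  ⟨(a (b (a (l 16684672) (l 16702376)) (a (l 16721624) (l 16718464))) (b (a (l 16720832) (b (l 16735728) (a (l 16738864) (l 16748424)))) (a (a (l 16732088) (a (l 16739048) (l 16743696))) (a (b (l 16746816) (l 16765376)) (b (l 16764336) (a (l 16762032) (l 16777344))))))), by decide +kernel⟩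

def k20_mm_202_s : ∃ t, chk3 f_mm_202_s t 26 21 1 = true :=
  ⟨(b (a (l 16716616) (b (l 16730408) (a (l 16733864) (l 16742832)))) (a (b (l 16728512) (l 16736280)) (b (a (l 16741720) (l 16771776)) (a (l 16770584) (l 16779440))))), by decide +kernel⟩

def k21_mm_202_s : ∃ t, chk3 f_mm_202_s t 27 21 1 = true :=
  ⟨(b (a (b (a (l 16744040) (l 16753432)) (a (a (l 16749736) (l 16754352)) (l 16761280))) (a (b (l 16773304) (a (l 16778776) (b (l 16771056) (a (l 16773760) (b (l 16775152) (a (l 184314498135) (a (l 320142835783) (l 365239993671)))))))) (b (a (b (l 16767984) (l 16777152)) (b (a (l 16771576) (l 16779232)) (a (a (l 16778176) (b (l 16775120) (a (l 185388239863) (l 317995352135)))) (a (b (l 171966466823) (l 371682445159)) (b (a (l 240149073591) (l 351281349639)) (l 3)))))) (a (b (a (b (l 16773648) (l 162839661479)) (b (c (l 175187692919) (l 172503338391)) (a (a (l 231559138887) (l 341080801991)) (l 393694153143)))) (a (b (a (a (l 183240755767) (l 241759686647)) (l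 362555639367)) (l 3)) (l 3))) (b (a (b (c (l 358797543495) (a (l 345375769527) (l 3))) (l 3)) (l 3)) (l 3)))))) (a (a (b (l 16759832) (b (l 16765592) (l 16774632))) (b (b (l 16767112) (a (l 16779120) (c (l 16778640) (l 155323468567)))) (a (b (l 16777696) (a (b (l 16774144) (c (l 185388239959) (l 182167014487))) (b (c (l 195588788439) (a (l 16775824) (l 239075330551))) (c (l 358797543463) (a (l 345375769447) (l 3)))))) (b (a (b (l 16774960) (a (l 180019530423) (a (l 243370299063) (l 347523253095)))) (b (c (a (l 196125658343) (l 346986382407)) (a (l 193978174599) (l 350744478775))) (l 401210347239))) (a (b (c (l 378661768103) (l 382956735367)) (l 3)) (l 3)))))) (a (b (a (b (a (l 16772920) (b (l 16774296) (c (l 185925111559) (a (l 16775592) (l 196662529383))))) (a (a (b (l 16775216) (a (l 196662528967) (l 323364061319))) (b (l 182167014263) (l 375440541671))) (a (b (a (l 246054653959) (l 355576316999)) (l 3)) (l 402284089943)))) (b (a (b (a (l 16776064) (a (l 198273142103)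 (l 331417125271))) (c (l 367924349367) (a (l 357723800871) (l 3)))) (b (l 391546670359) (l 3))) (l 3))) (l 3)) (l 3)))), by decide +kernel⟩

def k22_mm_202_s : ∃ t, chk3 f_mm_202_s t 12 11 1 = true :=
  ⟨(b (a (b (l 16732608) (l 16768664)) (a (b (l 16713808) (l 16728592)) (b (l 16730552) (b (l 16783536) (a (l 16744672) (l 16753296)))))) (a (b (l 16719200) (a (l 16725536) (b (l 16757880) (l 16744216)))) (b (a (b (l 16759968) (l 16746184)) (a (b (l 16751856) (l 16758832)) (b (l 16760344) (b (l 16765728) (l 16779912))))) (a (a (b (l 16749312) (l 16756376)) (b (l 16757560) (l 16775360))) (a (b (l 16776688) (a (b (l 16769552) (l 16778520)) (b (c (l 16779344) (l 175724564343)) (a (b (l 16775672) (l 319605965255)) (b (l 334638351671) (l 3)))))) (b (a (b (l 16770936) (a (l 16773560) (b (l 16774840) (l 228874785655)))) (b (a (l 16774256) (b (l 16775544) (c (l 314237255783) (l 312626643031)))) (a (b (c (l 245517784311) (l 239612204215)) (l 384030478167)) (l 3)))) (a (b (a (b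 (l 214916141207) (l 350207609015)) (l 377051157655)) (l 3)) (l 3)))))))), by decide +kernel⟩

def k23_mm_202_s : ∃ t, chk3 f_mm_202_s t 26 22 1 = true :=
  ⟨(a (b (b (a (l 16739656) (l 16748440)) (a (l 16747256) (l 16755888))) (a (b (l 16754616) (l 16761808)) (b (l 16763216) (a (l 16778816) (b (l 16770888) (a (l 16773456) (b (l 16774744) (c (l 206326206663) (l 219747979495))))))))) (b (a (b (l 16757168) (l 16775096)) (b (a (l 16784760) (l 16778744)) (a (b (l 16769392) (l 16778352)) (b (c (l 170892726199) (a (l 16772584) (l 171966467591))) (a (b (l 16778160) (c (l 319069092519) (a (l 200420625831) (l 359334413687)))) (b (c (l 336248963911) (a (l 312089771783) (l 385641089271))) (l 3))))))) (a (b (a (l 16775024) (b (l 16772360) (a (b (l 16774016) (l 184851368935)) (a (b (l 16775688) (l 328195899799)) (b (l 204715593271) (l 400673475559)))))) (a (b (a (l 16774192) (b (l 16775488) (a (l 207399947639) (l 348596995367)))) (a (b (a (l 16778384) (l 321216577927)) (l 385641090407))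 (b (l 397989122199) (l 3)))) (a (b (b (a (l 248739008823) (l 374366800039)) (l 3)) (l 3)) (l 3)))) (b (a (b (a (b (l 16774768) (c (l 204715594055) (a (l 16776024) (l 250349621335)))) (b (c (l 295983643015) (a (l 16777736) (l 334638350791))) (l 387251703143))) (a (b (c (l 365776865799) (l 368998091255)) (l 3)) (l 3))) (b (a (b (l 404431573143) (l 3)) (l 3)) (l 3))) (l 3))))), by decide +kernel⟩

def k24_mm_202_s : ∃ t, chk3 f_mm_202_s t 27 22 1 = true :=
  ⟨(b (a (a (b (a (b (l 16770888) (a (l 16773512) (b (l 16774832) (c (l 204178723559) (a (l 16776104) (l 315847868231)))))) (b (a (l 16776912) (b (l 173040208567) (a (a (l 192367561159) (l 249275879399)) (l 363629381239)))) (a (b (a (l 192904432663) (a (l 323900932199) (l 367387477415))) (l 396915379703)) (l 3)))) (a (b (a (b (c (l 194515046023) (a (l 16775696) (l 202568109575))) (c (l 353428834055) (a (l 337322705447) (l 3)))) (b (c (l 371682445975) (l 375440542327)) (l 3))) (l 3)) (l 3))) (b (a (b (a (b (a (a (l 240685944215)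 (l 341617672855)) (l 392620411367)) (l 3)) (l 3)) (l 3)) (l 3)) (l 3))) (l 3)) (l 3)), by decide +kernel⟩

def k25_mm_202_s : ∃ t, chk3 f_mm_202_s t 13 23 1 = true :=
  ⟨(a (a (b (a (a (b (l 16766856) (b (l 16777592) (a (b (l 16774024) (l 185388240087)) (b (l 195051917399) (c (l 343765157719) (l 344302028615)))))) (b (b (l 16769416) (l 16778328)) (b (a (b (l 16774752) (c (l 225116689127) (l 219747980055))) (b (c (l 239075333223) (l 235317236759)) (l 376514285063))) (a (b (l 360408156855) (l 3)) (l 3))))) (b (a (b (c (l 16779208) (l 170355854903)) (a (b (l 16775488) (c (l 308331675575) (l 308868546471))) (b (c (l 324437803767) (l 325511545591)) (l 3)))) (b (a (b (l 195051917175) (c (l 340543932055) (l 342154544775))) (b (l 357723802119) (l 3))) (l 3))) (a (b (b (l 395304770231) (l 3)) (l 3)) (l 3)))) (a (b (a (b (a (b (c (l 329269642183) (l 328195900359)) (l 3)) (l 3)) (l 3)) (l 3)) (l 3)) (l 3))) (l 3)) (l 3)), by decide +kernel⟩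

def k26_mm_202_s : ∃ t, chk3 f_mm_202_s t 28 40 1 = true :=
  ⟨(a (a (b (l 16749944) (l 16770648)) (b (c (l 16780800) (l 16769784)) (b (l 16776552) (a (l 16767576) (c (l 16777784) (l 16777744)))))) (b (a (a (l 16777632) (b (l 16780616) (a (l 16778376) (b (l 16774640) (a (l 16778696) (l 304573578775)))))) (a (b (a (c (l 16779360) (l 16779240)) (b (l 141901695175) (c (l 319605965655) (a (l 234243492311) (l 375977412455))))) (a (b (a (l 171966466327) (l 338396447767)) (l 395304766791)) (l 3))) (a (b (a (b (l 320679707303) (l 3)) (l 3)) (l 3)) (l 3)))) (a (a (a (b (l 16772248) (b (l 16775232) (a (l 176261434183) (l 337322705927)))) (b (b (l 16773712) (l 148344146631)) (b (c (l 320142836455) (a (l 229948525527) (l 373829928807))) (l 3)))) (b (a (b (c (l 164450274327) (l 166597757783)) (a (l 321216577447) (l 400136604375))) (b (c (l 367924349431) (l 371682445783)) (l 3))) (l 3))) (l 3)))), by decide +kernel⟩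

def k27_mm_202_s : ∃ t, chk3 f_mm_202_s t 28 41 1 = true :=
  ⟨(a (b (a (b (l 16764192) (l 16778672)) (a (b (l 16776800) (b (c (l 16778840) (l 145122921527)) (a (l 16777920) (a (a (l 184851368743) (l 318532223255)) (l 373829928919))))) (b (a (b (l 16774264) (c (l 170892725863) (a (l 16775624) (l 212231785479)))) (b (c (l 189683208487) (a (l 16776112) (l 307794804839))) (c (l 366313736759) (l 370608704007)))) (a (b (c (l 344302028455) (a (l 326048416327) (l 3))) (l 3)) (l 3))))) (a (a (a (l 16777040) (b (l 16770936) (a (l 16774288) (b (l 16774512) (l 175724563527))))) (b (a (l 16773376) (b (l 16774832) (a (l 16778168) (a (l 227801042247) (l 340007060279))))) (a (b (c (l 176798306503) (a (l 16775712) (l 218674237063))) (c (l 350744479543) (a (l 334638351047) (l 3)))) (b (c (l 372219316935) (l 376514284183)) (l 3))))) (a (b (a (b (a (l 182167014663) (l 342691415127)) (l 397989121543)) (l 3)) (l 3)) (l 3)))) (a (b (a (b (a (b (l 393694154103) (l 3)) (l 3)) (l 3)) (l 3))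 (l 3)) (l 3))), by decide +kernel⟩

def k28_mm_202_s : ∃ t, chk3 f_mm_202_s t 28 21 1 = true :=
  ⟨(b (a (a (b (a (b (a (b (l 16778040) (a (a (l 16777792) (l 229411655079)) (l 351281349895))) (b (a (a (l 192904432791) (l 328195899831)) (l 381882992791)) (l 3))) (a (b (l 400673476343) (l 3)) (l 3))) (l 3)) (l 3)) (l 3)) (l 3)) (l 3)), by decide +kernel⟩

def k29_mm_202_s : ∃ t, chk3 f_mm_202_s t 29 10 1 = true :=
  ⟨(l 3), by decide +kernel⟩

def k30_mm_202_s : ∃ t, chk3 f_mm_202_s t 15 10 1 = true :=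
  ⟨(l 3), by decide +kernel⟩

def k31_mm_202_s : ∃ t, chk3 f_mm_202_s t 7 11 1 = true :=
  ⟨(l 3), by decide +kernel⟩

def k32_mm_202_s : ∃ t, chk3 f_mm_202_s t 12 24 1 = true :=
  ⟨(a (b (a (a (l 16735152) (l 16742832)) (b (l 16772400) (l 16779288))) (a (b (l 16749464) (l 16756216)) (a (b (l 16761336) (b (l 16766776) (l 16780928))) (b (b (l 16767936) (a (l 16769472) (l 173040210119))) (a (b (l 16773168) (a (l 205252465975) (b (l 241222816823) (l 382419864519)))) (b (a (b (l 16775488) (l 304573579351)) (b (l 319069094759) (l 3))) (l 389936061671))))))) (b (a (b (a (l 16763632) (a (l 16780568) (b (l 16772600) (a (l 196125659671) (b (l 222432334167) (l 357186931383)))))) (a (a (l 16768840) (b (l 16771312) (a (l 16773952) (b (l 16775208) (l 245517784503))))) (a (b (a (l 16774592) (b (l 16775872) (l 326048416743))) (a (b (l 311016030375) (l 3)) (l 3))) (b (a (b (l 341080803159) (l 3)) (l 3)) (l 3))))) (a (b (a (b (a (b (l 16774976) (l 236390978663)) (b (l 302426095415)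 (l 385104220487))) (a (l 381882996423) (l 3))) (l 3)) (l 3)) (l 3))) (a (a (b (a (b (a (l 16773312) (l 199883756567)) (a (b (l 16778752) (l 332490868391)) (l 363629383975))) (b (a (b (l 231022269063) (l 365239995559)) (l 381882996823)) (l 3))) (l 3)) (l 3)) (l 3)))), by decide +kernel⟩

def k33_mm_202_s : ∃ t, chk3 f_mm_202_s t 12 25 1 = true :=
  ⟨(a (b (a (a (b (l 16759248) (l 16766440)) (b (l 16777976) (a (b (l 16770864) (l 182703887559)) (b (a (l 16774032) (l 212231788423)) (a (l 309405418279) (l 394767895863)))))) (a (b (a (b (l 16771984) (b (l 16774760) (l 273971936215))) (b (a (l 16779144) (b (l 211158044391) (l 350744479495))) (a (l 355576318551) (l 3)))) (a (b (a (l 331953997415) (l 3)) (l 3)) (l 3))) (b (a (b (l 387788576343) (l 3)) (l 3)) (l 3)))) (a (a (b (a (l 16779488) (b (l 16773984) (a (l 222432336295) (l 346986382903)))) (a (b (a (l 205252465975) (l 323900933047)) (l 393694153639)) (l 3))) (b (a (b (a (l 282561871799) (l 370608703847)) (l 3)) (l 3))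 (l 3))) (l 3))) (l 3)), by decide +kernel⟩

def k34_mm_202_s : ∃ t, chk3 f_mm_202_s t 13 12 1 = true :=
  ⟨(l 3), by decide +kernel⟩

def k35_mm_202_s : ∃ t, chk3 f_mm_202_s t 6 13 1 = true :=
  ⟨(l 3), by decide +kernel⟩

def k36_mm_202_s : ∃ t, chk3 f_mm_202_s t 7 6 1 = true :=
  ⟨(l 3), by decide +kernel⟩

def k37_mm_202_s : ∃ t, chk3 f_mm_202_s t 3 7 1 = true :=
  ⟨(l 3), by decide +kernel⟩

theorem s38_mm_202_s : ∃ t, chk3 f_mm_202_s t 12 12 1 = true := ex3_b k32_mm_202_s k33_mm_202_s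

theorem s39_mm_202_s : ∃ t, chk3 f_mm_202_s t 6 12 1 = true := ex3_a s38_mm_202_s k34_mm_202_s

theorem s40_mm_202_s : ∃ t, chk3 f_mm_202_s t 6 6 1 = true := ex3_b s39_mm_202_s k35_mm_202_s

theorem s41_mm_202_s : ∃ t, chk3 f_mm_202_s t 3 6 1 = true := ex3_a s40_mm_202_s k36_mm_202_s

theorem s42_mm_202_s : ∃ t, chk3 f_mm_202_s t 3 3 1 = true := ex3_b s41_mm_202_s k37_mm_202_s

theorem s43_mm_202_s : ∃ t, chk3 f_mm_202_s t 28 20 1 = true := ex3_b k26_mm_202_s k27_mm_202_s

theorem s44_mm_202_s : ∃ t, chk3 f_mm_202_s t 28 10 1 = true := ex3_b s43_mm_202_s k28_mm_202_s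

theorem s45_mm_202_s : ∃ t, chk3 f_mm_202_s t 14 10 1 = true := ex3_a s44_mm_202_s k29_mm_202_s

theorem s46_mm_202_s : ∃ t, chk3 f_mm_202_s t 7 10 1 = true := ex3_a s45_mm_202_s k30_mm_202_s

theorem s47_mm_202_s : ∃ t, chk3 f_mm_202_s t 7 5 1 = true := ex3_b s46_mm_202_s k31_mm_202_s

theorem s48_mm_202_s : ∃ t, chk3 f_mm_202_s t 13 22 1 = true := ex3_a k23_mm_202_s k24_mm_202_s

theorem s49_mm_202_s : ∃ t, chk3 f_mm_202_s t 13 11 1 = true := ex3_b s48_mm_202_s k25_mm_202_s

theorem s50_mm_202_s : ∃ t, chk3 f_mm_202_s t 6 11 1 = true := ex3_a k22_mm_202_s s49_mm_202_s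

theorem s51_mm_202_s : ∃ t, chk3 f_mm_202_s t 13 21 1 = true := ex3_a k20_mm_202_s k21_mm_202_s

theorem s52_mm_202_s : ∃ t, chk3 f_mm_202_s t 13 10 1 = true := ex3_b k19_mm_202_s s51_mm_202_s

theorem s53_mm_202_s : ∃ t, chk3 f_mm_202_s t 6 10 1 = true := ex3_a k18_mm_202_s s52_mm_202_s

theorem s54_mm_202_s : ∃ t, chk3 f_mm_202_s t 6 5 1 = true := ex3_b s53_mm_202_s s50_mm_202_s

theorem s55_mm_202_s : ∃ t, chk3 f_mm_202_s t 3 5 1 = true := ex3_a s54_mm_202_s s47_mm_202_s

theorem s56_mm_202_s : ∃ t, chk3 f_mm_202_s t 14 19 1 = true := ex3_a k15_mm_202_s k16_mm_202_s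

theorem s57_mm_202_s : ∃ t, chk3 f_mm_202_s t 14 9 1 = true := ex3_b k14_mm_202_s s56_mm_202_s

theorem s58_mm_202_s : ∃ t, chk3 f_mm_202_s t 7 9 1 = true := ex3_a s57_mm_202_s k17_mm_202_s

theorem s59_mm_202_s : ∃ t, chk3 f_mm_202_s t 124 34 1 = true := ex3_b k9_mm_202_s k10_mm_202_s

theorem s60_mm_202_s : ∃ t, chk3 f_mm_202_s t 62 34 1 = true := ex3_a s59_mm_202_s k11_mm_202_s

theorem s61_mm_202_s : ∃ t, chk3 f_mm_202_s t 62 17 1 = true := ex3_b s60_mm_202_s k12_mm_202_s

theorem s62_mm_202_s : ∃ t, chk3 f_mm_202_s t 31 17 1 = true := ex3_a s61_mm_202_s k13_mm_202_s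

theorem s63_mm_202_s : ∃ t, chk3 f_mm_202_s t 61 35 1 = true := ex3_a k7_mm_202_s k8_mm_202_s

theorem s64_mm_202_s : ∃ t, chk3 f_mm_202_s t 30 35 1 = true := ex3_a k6_mm_202_s s63_mm_202_s

theorem s65_mm_202_s : ∃ t, chk3 f_mm_202_s t 30 17 1 = true := ex3_b k5_mm_202_s s64_mm_202_s

theorem s66_mm_202_s : ∃ t, chk3 f_mm_202_s t 15 17 1 = true := ex3_a s65_mm_202_s s62_mm_202_s

theorem s67_mm_202_s : ∃ t, chk3 f_mm_202_s t 15 8 1 = true := ex3_b k4_mm_202_s s66_mm_202_s

theorem s68_mm_202_s : ∃ t, chk3 f_mm_202_s t 7 8 1 = true := ex3_a k3_mm_202_s s67_mm_202_s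

theorem s69_mm_202_s : ∃ t, chk3 f_mm_202_s t 7 4 1 = true := ex3_b s68_mm_202_s s58_mm_202_s

theorem s70_mm_202_s : ∃ t, chk3 f_mm_202_s t 3 4 1 = true := ex3_a k2_mm_202_s s69_mm_202_s

theorem s71_mm_202_s : ∃ t, chk3 f_mm_202_s t 3 2 1 = true := ex3_b s70_mm_202_s s55_mm_202_s

theorem s72_mm_202_s : ∃ t, chk3 f_mm_202_s t 3 1 1 = true := ex3_b s71_mm_202_s s42_mm_202_s

theorem s73_mm_202_s : ∃ t, chk3 f_mm_202_s t 2 1 1 = true := ex3_b k0_mm_202_s k1_mm_202_s

theorem s74_mm_202_s : ∃ t, chk3 f_mm_202_s t 1 1 1 = true := ex3_a s73_mm_202_s s72_mm_202_s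

theorem c_mm_202_s : CertNE 0 536870912 1073741824 536870912 649613803 48318383 3 eng mog cd0q2 cd8q2 pd0 false false false .pp 2 0 2
    ndB0q2 ndB8q2 pcB0 cut_mm_202_s Ext.none :=
  certNE1 (fam := false) (s1 := false) (s2 := false) (a := 2) (b := 0) (c := 2) (cn := .pp) (n1 := ndB0q2) (n2 := ndB8q2) (pc := pcB0) (cut := cut_mm_202_s) (xt := Ext.none) (P1 := 0) (W1 := 536870912) (P2 := 1073741824) (W2 := 536870912) (P3 := 649613803) (W3 := 48318383) (N0 := 3) (En := eng) (mo := mog) (C1 := cd0q2) (C2 := cd8q2) (C3 := pd0)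
    rfl (fun _ => rfl) s74_mm_202_s

noncomputable def cut_mm_203_s : Cut := Cut.of [[⟨4, 0, 0, 1449551462⟩]]

noncomputable def f_mm_203_s : ℕ → ℕ → ℕ → ℕ → Bool := onCell 0 536870912 0 1230186008 649613803 48318383
    (rowNE 3 eng mog cd0q2 cd8q3 pd0 0 false false false .up 2 0 3 (qsf 0 536870912 0 1230186008 0) ndB0q2 ndB8q3 pcB0 cut_mm_203_s Ext.none)

def k0_mm_203_s : ∃ t, chk3 f_mm_203_s t 1 2 1 = true :=
  ⟨(l 2), by decide +kernel⟩

def k1_mm_203_s : ∃ t, chk3 f_mm_203_s t 1 6 1 = true :=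
  ⟨(l 2), by decide +kernel⟩

def k2_mm_203_s : ∃ t, chk3 f_mm_203_s t 2 14 1 = true :=
  ⟨(a (b (l 2) (b (l 2) (a (a (b (a (l 16772760) (l 16772120)) (l 16771440)) (a (b (l 16773368) (l 16771928)) (b (l 16774544) (l 16773904)))) (a (a (b (a (l 16776064) (l 250349637255)) (l 16775152)) (b (l 348060116583) (a (l 241222828359) (l 317995350583)))) (l 3))))) (l 3)), by decide +kernel⟩

def k3_mm_203_s : ∃ t, chk3 f_mm_203_s t 2 15 1 = true :=
  ⟨(a (b (a (b (a (l 16766728) (a (l 16768648) (b (l 16771480) (l 16768728)))) (a (l 16753816) (l 16759168))) (b (a (a (b (l 16773888) (l 16770704)) (b (b (l 16775840) (l 16774928)) (l 16773464))) (b (a (b (l 326048413143) (l 250349637303)) (l 3)) (a (b (l 236390987687) (l 16774920)) (a (b (l 325511542903) (l 244980919703)) (l 336248958903))))) (a (a (l 16763848) (b (l 16769536) (l 16764096))) (a (b (l 16772728) (l 16767912)) (b (b (l 241222828007) (l 16774864)) (l 16771840)))))) (a (b (l 16734208) (l 16721576)) (b (a (l 16749136)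 (b (a (l 16760392) (l 16765616)) (a (l 16751168) (l 16756336)))) (a (l 16720888) (l 16736432))))) (b (a (b (l 3) (a (b (a (a (b (l 350744474599) (l 300278611383)) (l 3)) (l 3)) (b (a (a (l 16775768) (l 305110449543)) (l 3)) (a (a (l 16773752) (l 16781200)) (l 321216574919)))) (l 3))) (l 3)) (a (b (a (b (a (b (l 16772360) (l 16769032)) (a (b (l 239612212039) (l 16773408)) (b (l 315310995975) (l 241222826119)))) (a (l 16763064) (b (l 16782056) (l 16767552)))) (a (b (b (l 3) (l 342154539575)) (a (b (a (l 233706628247) (l 294373031703)) (l 16773240)) (b (l 346986378919) (a (l 238538468535) (l 303499836823))))) (l 3))) (a (b (a (l 16751512) (l 16786136)) (a (l 16739608) (l 16746952))) (b (a (b (a (l 16768864) (b (l 16774464) (l 16772224))) (l 16765880)) (a (b (a (l 246054665591) (l 312626641991)) (b (l 219747982567) (l 16772328))) (b (l 3) (b (l 338933316519) (l 286856839095))))) (a (b (l 16760016) (l 16753624)) (a (l 16778296) (b (b (l 227264177831) (l 16772640)) (l 16768216)))))))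 (b (l 3) (a (b (l 3) (a (a (b (b (l 354502572887) (l 299741740775)) (a (l 16778240) (b (l 259476433799) (l 16774808)))) (b (l 3) (b (l 3) (l 318532222647)))) (l 3))) (l 3)))))), by decide +kernel⟩

def k4_mm_203_s : ∃ t, chk3 f_mm_203_s t 3 7 1 = true :=
  ⟨(l 3), by decide +kernel⟩

theorem s5_mm_203_s : ∃ t, chk3 f_mm_203_s t 2 7 1 = true := ex3_b k2_mm_203_s k3_mm_203_s

theorem s6_mm_203_s : ∃ t, chk3 f_mm_203_s t 1 7 1 = true := ex3_a s5_mm_203_s k4_mm_203_s

theorem s7_mm_203_s : ∃ t, chk3 f_mm_203_s t 1 3 1 = true := ex3_b k1_mm_203_s s6_mm_203_s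

theorem s8_mm_203_s : ∃ t, chk3 f_mm_203_s t 1 1 1 = true := ex3_b k0_mm_203_s s7_mm_203_s

theorem c_mm_203_s : CertNE 0 536870912 0 1230186008 649613803 48318383 3 eng mog cd0q2 cd8q3 pd0 false false false .up 2 0 3
    ndB0q2 ndB8q3 pcB0 cut_mm_203_s Ext.none :=
  certNE0 (fam := false) (s1 := false) (s2 := false) (a := 2) (b := 0) (c := 3) (cn := .up) (n1 := ndB0q2) (n2 := ndB8q3) (pc := pcB0) (cut := cut_mm_203_s) (xt := Ext.none) (P1 := 0) (W1 := 536870912) (P2 := 0) (W2 := 1230186008) (P3 := 649613803) (W3 := 48318383) (N0 := 3) (En := eng) (mo := mog) (C1 := cd0q2) (C2 := cd8q3) (C3 := pd0)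
    rfl s8_mm_203_s

noncomputable def cut_mm_213_s : Cut := Cut.of [[⟨4, 0, 0, 1449551462⟩]]

noncomputable def f_mm_213_s : ℕ → ℕ → ℕ → ℕ → Bool := onCell 0 536870912 0 1230186008 649613803 48318383
    (rowNE 3 eng mog cd0q2 cd8q3 pd1 0 false false false .pnn 2 1 3 (qsf 0 536870912 0 1230186008 1) ndB0q2 ndB8q3 pcB1 cut_mm_213_s Ext.none)

def k0_mm_213_s : ∃ t, chk3 f_mm_213_s t 1 1 1 = true :=
  ⟨(b (a (l 3) (b (l 5) (l 3))) (b (a (b (l 3) (a (l 3) (l 3))) (l 3)) (a (b (a (b (a (a (b (a (b (l 315847864359) (l 221358585447)) (b (l 3) (l 336248956791))) (a (b (l 16775672) (l 16772584)) (b (a (l 16776440) (l 294909901239)) (l 16775528)))) (b (l 3) (a (b (l 357723790983) (l 287393734119)) (l 3)))) (l 3)) (b (a (a (a (b (l 16768696) (l 16763784)) (b (l 16772248) (l 16766352))) (a (b (l 16783104) (l 16771360)) (b (l 300278629735) (a (l 16774496) (l 218674247591))))) (a (a (b (l 3) (l 314774121703)) (l 3)) (l 3))) (b (a (a (a (l 16756776) (l 16761712)) (a (l 16764064)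 (l 16770576))) (a (a (b (l 262697644487) (l 16774368)) (l 332490860119)) (l 3))) (l 1)))) (l 3)) (a (l 1) (b (a (l 1) (l 3)) (l 1)))) (l 3)))), by decide +kernel⟩

theorem c_mm_213_s : CertNE 0 536870912 0 1230186008 649613803 48318383 3 eng mog cd0q2 cd8q3 pd1 false false false .pnn 2 1 3
    ndB0q2 ndB8q3 pcB1 cut_mm_213_s Ext.none :=
  certNE0 (fam := false) (s1 := false) (s2 := false) (a := 2) (b := 1) (c := 3) (cn := .pnn) (n1 := ndB0q2) (n2 := ndB8q3) (pc := pcB1) (cut := cut_mm_213_s) (xt := Ext.none) (P1 := 0) (W1 := 536870912) (P2 := 0) (W2 := 1230186008) (P3 := 649613803) (W3 := 48318383) (N0 := 3) (En := eng) (mo := mog) (C1 := cd0q2) (C2 := cd8q3) (C3 := pd1)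
    rfl k0_mm_213_s

end Pool.Agent.Strip051.G.I6050_6500.Tab.CS.BB08

namespace Pool.Agent.Strip051.G.I6050_6500.Tab.CS.BB80

open Pool.Agent.Strip051.PB Pool.Agent.Strip051.PB.T
open Pool.Agent.Strip051.G.I6050_6500.Tab

noncomputable def cut_pp_001_s : Cut := Cut.of [[⟨4, 0, 0, 1449551462⟩]]

noncomputable def f_pp_001_s : ℕ → ℕ → ℕ → ℕ → Bool := onCell 0 536870912 536870912 536870912 649613803 48318383
    (rowNE 3 eng mog cd8q0 cd0q1 pd0 2 false true true .up 0 0 1 (qsf 0 536870912 536870912 536870912 0) ndB8q0 ndB0q1 pcB0 cut_pp_001_s Ext.none)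

def k0_pp_001_s : ∃ t, chk3 f_pp_001_s t 2 1 1 = true :=
  ⟨(b (l 3) (b (b (l 3) (l 2)) (l 2))), by decide +kernel⟩

def k1_pp_001_s : ∃ t, chk3 f_pp_001_s t 6 2 1 = true :=
  ⟨(l 3), by decide +kernel⟩

def k2_pp_001_s : ∃ t, chk3 f_pp_001_s t 7 4 1 = true :=
  ⟨(l 3), by decide +kernel⟩

def k3_pp_001_s : ∃ t, chk3 f_pp_001_s t 14 5 1 = true :=
  ⟨(b (l 3) (a (b (l 3) (b (a (l 3) (b (l 3) (a (l 3) (l 424295787543)))) (a (b (l 3) (a (l 3) (b (l 456508042983) (a (l 410874017623) (l 198273148759))))) (b (a (b (l 3) (l 366850602967)) (b (l 222969217143) (l 16771816))) (a (b (a (l 225653567175) (l 16772848)) (l 16769528)) (l 16763648)))))) (b (b (l 3) (a (l 3) (b (a (l 3) (b (l 464561106647) (l 344838896871))) (a (b (l 415168983927) (l 226190441143)) (l 153712863783))))) (b (a (b (a (l 447381235767) (b (l 378124892135) (l 199883764071))) (a (b (l 341080800311) (l 16781704)) (l 16768840))) (b (a (l 16770848) (l 16764048)) (l 16758352))) (a (b (l 16780800) (l 16772128))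 (l 16763528)))))), by decide +kernel⟩

def k4_pp_001_s : ∃ t, chk3 f_pp_001_s t 15 5 1 = true :=
  ⟨(b (b (a (l 3) (b (l 3) (a (l 3) (b (l 3) (a (l 3) (b (l 497310231735) (a (l 459729270231) (l 217600477415)))))))) (a (b (l 3) (a (l 3) (b (a (l 3) (l 510195131399)) (a (l 483888457847) (b (a (l 487646557271) (l 221895469879)) (l 173040216535)))))) (b (a (b (l 3) (a (l 3) (b (l 432348853191) (a (l 372756184263) (l 16775072))))) (b (a (b (l 462950494247) (a (l 416242727223) (l 16775736))) (a (l 150491614087) (l 16771816))) (a (l 102173246263) (l 16766976)))) (a (b (a (b (a (l 3) (l 348596993687)) (a (l 299204882791) (l 16774296))) (l 16771600)) (a (l 16770672) (l 16764888))) (l 16770472))))) (b (a (b (a (b (a (l 3) (l 432885722375)) (a (b (l 3) (l 380809246871)) (b (a (l 325511558551) (l 16774992)) (l 16772872)))) (b (a (b (a (l 414632114295) (l 16775944)) (l 16773936)) (l 16769624)) (l 16775864))) (a (b (a (b (l 193441311991) (l 16771664)) (l 16767152)) (l 16762440))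 (l 16774848))) (a (b (l 16778184) (l 16742296)) (b (l 16746464) (l 16732008)))) (a (b (a (l 16770528) (l 16737096)) (a (l 16729168) (l 16716640))) (b (a (l 16725816) (l 16715960)) (l 16722320))))), by decide +kernel⟩

def k5_pp_001_s : ∃ t, chk3 f_pp_001_s t 12 6 1 = true :=
  ⟨(b (a (l 3) (b (l 3) (b (l 3) (a (l 3) (b (l 3) (a (b (l 3) (l 2)) (b (a (l 3) (b (l 536501812935) (a (l 451676209063) (l 146733536551)))) (a (b (b (l 509658267607) (l 2)) (l 2)) (c (l 16771984) (b (l 16779112) (l 16769960))))))))))) (b (a (l 2) (b (a (l 2) (b (a (l 2) (a (l 2) (l 16773328))) (l 2))) (l 2))) (l 2))), by decide +kernel⟩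

def k6_pp_001_s : ∃ t, chk3 f_pp_001_s t 13 6 1 = true :=
  ⟨(b (a (b (l 3) (b (a (b (l 3) (a (l 3) (b (l 3) (a (l 3) (l 373293055399))))) (b (a (l 509121392679) (b (a (l 3) (l 348596993303)) (a (l 216526764631) (l 16772168)))) (a (b (a (l 436106951495) (l 168745250231)) (a (l 16779320) (l 16768576))) (l 16785096)))) (a (b (a (a (a (l 3) (b (l 3) (l 444696886919))) (b (l 537038683063) (a (b (l 452749950679) (l 16775440)) (l 102173251671)))) (b (a (b (l 418927083015) (l 151565377287)) (l 16772224)) (l 16778000))) (a (a (b (a (b (l 199883758903) (l 16773464)) (l 16772544)) (l 16766240)) (l 16774944)) (l 16777000))) (a (b (l 16781168) (l 16744856)) (l 16762608))))) (b (b (a (l 3) (b (l 3) (a (l 443623140359) (b (a (l 459192399095) (l 231559148487)) (a (l 197199407943) (l 16771304)))))) (a (b (a (l 3) (b (l 3) (l 371682441447))) (a (b (l 467782333111) (a (l 407652792903) (l 168745248759))) (b (a (l 206863086151) (l 16771840)) (l 16767704)))) (b (a (b (a (l 368998087415)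 (l 16774776)) (l 16770888)) (l 16785296)) (l 16777096)))) (a (b (a (b (b (l 105394480087) (l 16764208)) (l 16753392)) (l 16771192)) (a (l 16751768) (l 16720048))) (b (a (l 16760824) (l 16729672)) (l 16725336))))) (a (a (b (b (a (b (l 16772672) (l 16735840)) (l 16753504)) (a (l 2) (l 16721480))) (l 2)) (b (b (a (l 16742280) (l 16710184)) (l 16715304)) (l 16690632))) (b (b (a (l 16735888) (l 16672288)) (a (l 16661864) (l 16640104))) (b (l 16619424) (l 16589720))))), by decide +kernel⟩

def k7_pp_001_s : ∃ t, chk3 f_pp_001_s t 6 7 1 = true :=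
  ⟨(b (a (l 2) (b (a (l 2) (l 138613010199)) (l 2))) (l 2)), by decide +kernel⟩

def k8_pp_001_s : ∃ t, chk3 f_pp_001_s t 7 3 1 = true :=
  ⟨(b (a (b (a (b (b (a (b (a (b (l 396378502279) (a (l 263234534647) (l 16773880))) (b (l 148344153271) (l 16766984))) (a (l 16777792) (l 16757984))) (a (l 16776056) (l 16767184))) (a (l 16775016) (l 16746080))) (a (b (l 16715096) (l 16683936)) (b (l 16696248) (l 16664576)))) (a (b (b (l 16754480) (l 16707392)) (l 16704384)) (b (b (l 16717296) (l 16690608)) (l 16645352)))) (b (a (b (l 16642000) (l 16609176)) (l 16608512)) (a (l 16604480) (l 16522480)))) (b (a (b (b (a (l 16703840) (l 16692504)) (l 16668472)) (l 16622072)) (b (l 16663168) (l 16594136))) (b (a (l 16553016) (l 16523064)) (a (l 16486680) (l 16454560))))) (b (a (b (a (l 16510904) (l 16471920)) (l 134317853959)) (b (l 16441872) (l 16388904))) (a (b (l 147202550999) (l 2)) (b (l 16450704) (l 6))))), by decide +kernel⟩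

theorem s9_pp_001_s : ∃ t, chk3 f_pp_001_s t 6 6 1 = true := ex3_a k5_pp_001_s k6_pp_001_s

theorem s10_pp_001_s : ∃ t, chk3 f_pp_001_s t 6 3 1 = true := ex3_b s9_pp_001_s k7_pp_001_s

theorem s11_pp_001_s : ∃ t, chk3 f_pp_001_s t 3 3 1 = true := ex3_a s10_pp_001_s k8_pp_001_s

theorem s12_pp_001_s : ∃ t, chk3 f_pp_001_s t 7 5 1 = true := ex3_a k3_pp_001_s k4_pp_001_s

theorem s13_pp_001_s : ∃ t, chk3 f_pp_001_s t 7 2 1 = true := ex3_b k2_pp_001_s s12_pp_001_s

theorem s14_pp_001_s : ∃ t, chk3 f_pp_001_s t 3 2 1 = true := ex3_a k1_pp_001_s s13_pp_001_s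

theorem s15_pp_001_s : ∃ t, chk3 f_pp_001_s t 3 1 1 = true := ex3_b s14_pp_001_s s11_pp_001_s

theorem s16_pp_001_s : ∃ t, chk3 f_pp_001_s t 1 1 1 = true := ex3_a k0_pp_001_s s15_pp_001_s

theorem c_pp_001_s : CertNE 0 536870912 536870912 536870912 649613803 48318383 3 eng mog cd8q0 cd0q1 pd0 false true true .up 0 0 1
    ndB8q0 ndB0q1 pcB0 cut_pp_001_s Ext.none :=
  certNE2 (fam := false) (s1 := true) (s2 := true) (a := 0) (b := 0) (c := 1) (cn := .up) (n1 := ndB8q0) (n2 := ndB0q1) (pc := pcB0) (cut := cut_pp_001_s) (xt := Ext.none) (P1 := 0) (W1 := 536870912) (P2 := 536870912) (W2 := 536870912) (P3 := 649613803) (W3 := 48318383) (N0 := 3) (En := eng) (mo := mog) (C1 := cd8q0) (C2 := cd0q1) (C3 := pd0)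
    rfl (fun _ => rfl) s16_pp_001_s

noncomputable def cut_pp_011_s : Cut := Cut.of [[⟨4, 0, 0, 1449551462⟩]]

noncomputable def f_pp_011_s : ℕ → ℕ → ℕ → ℕ → Bool := onCell 536870912 536870912 536870912 536870912 649613803 48318383
    (rowNE 3 eng mog cd8q0 cd0q1 pd1 2 false true true .pnn 0 1 1 (qsf 0 536870912 536870912 536870912 1) ndB8q0 ndB0q1 pcB1 cut_pp_011_s Ext.none)

def k0_pp_011_s : ∃ t, chk3 f_pp_011_s t 8 4 1 = true :=
  ⟨(b (l 3) (a (b (l 3) (b (l 3) (a (l 3) (b (l 3) (a (l 3) (b (l 3) (a (l 3) (b (l 489794041527) (l 314774109863))))))))) (b (b (l 3) (a (l 3) (b (l 3) (a (l 3) (b (l 3) (a (l 3) (a (l 3) (a (l 497310234663) (b (l 3) (l 259476415831)))))))))) (a (b (b (l 3) (a (l 3) (b (l 3) (a (l 3) (b (l 551534195543) (a (l 544018003975) (l 287930571079))))))) (b (a (b (l 3) (a (l 3) (b (l 527911875799) (l 319069081095)))) (b (a (b (l 543481132055) (l 356650045367)) (a (l 131164264583) (l 16774696))) (a (c (l 16775440) (l 79624657527)) (l 16772248))))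 (a (b (a (b (l 510195135927) (l 316921592775)) (l 67276627367)) (a (l 16774920) (l 16771808))) (a (l 16770392) (l 16767360))))) (b (b (a (b (l 3) (a (l 3) (b (l 3) (a (l 3) (l 315310986567))))) (b (b (a (l 3) (a (l 317995343255) (l 16775896))) (a (a (l 3) (l 315847857047)) (l 16775120))) (a (a (b (l 315847857255) (l 16775784)) (l 16775056)) (l 16772824)))) (a (b (b (a (l 3) (a (l 311016019511) (l 16775736))) (a (a (l 554218551143) (l 305647310711)) (l 16774928))) (a (a (a (l 176798291607) (l 16775960)) (l 16774840)) (l 16772584))) (a (l 16767224) (l 16768208)))) (a (b (a (l 16770824) (l 16767840)) (l 16762896)) (l 16760256))))))), by decide +kernel⟩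

def k1_pp_011_s : ∃ t, chk3 f_pp_011_s t 9 4 1 = true :=
  ⟨(b (a (a (l 3) (l 1)) (l 1)) (a (b (a (b (b (l 3) (a (l 3) (b (l 3) (a (l 3) (b (l 3) (a (l 3) (c (l 319605952583) (a (b (l 3) (l 417853338583)) (b (a (l 573009034439) (l 1)) (l 16776736)))))))))) (b (a (b (l 3) (a (l 3) (b (l 3) (a (l 3) (a (l 465097980983) (a (l 320142828775) (l 155323460871))))))) (b (b (a (l 3) (c (l 171966450935) (a (a (l 474224783719) (b (l 417316467687) (l 16776736))) (l 16776016)))) (a (a (l 3) (a (l 472077300167) (b (a (l 344838892487) (l 325511540439)) (l 16776768)))) (c (l 16775464) (a (l 16775936) (l 16774336))))) (a (a (b (a (l 469392948247) (b (l 321753442135) (l 16776760))) (l 16776016)) (a (l 16775976) (l 16772296))) (l 16773072)))) (a (b (b (a (l 3) (a (a (l 460266142791) (a (l 318532216071) (l 151028493719))) (l 16776000))) (a (a (l 3) (a (l 454897433703) (l 269676962919))) (l 16775240))) (a (a (b (a (l 448454982807) (l 264845124839)) (l 16775928)) (l 16775200)) (l 16772992)))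 (a (b (l 16773040) (l 16770048)) (l 16768608))))) (b (b (l 1) (a (b (l 1) (b (l 1) (a (a (a (l 67679286935) (l 1)) (l 1)) (l 1)))) (l 1))) (a (b (a (b (l 16773104) (l 16770136)) (l 16768736)) (l 16764216)) (l 16772040)))) (a (b (a (b (a (b (l 16772920) (l 16769880)) (l 16768464)) (l 16763824)) (l 16761048)) (l 16751624)) (b (l 16752328) (l 16740216)))) (b (a (b (l 1) (l 126735084407)) (l 1)) (a (b (l 16741136) (l 16728792)) (l 16746152))))), by decide +kernel⟩

def k2_pp_011_s : ∃ t, chk3 f_pp_011_s t 4 5 1 = true :=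
  ⟨(a (b (a (b (a (b (b (l 3) (a (l 3) (b (l 3) (a (l 525764390775) (b (l 391546665911) (l 16771064)))))) (b (a (b (l 516637583639) (a (l 497847104135) (b (l 320679689271) (l 16775768)))) (b (a (b (l 318532204247) (l 16776056)) (l 16773672)) (l 16771672))) (a (b (a (l 205252442103) (l 16772992)) (l 16770888)) (l 16766096)))) (b (b (a (b (l 3) (a (l 3) (b (l 442549401863) (l 284172469927)))) (b (a (b (l 466708592583) (l 302426079671)) (l 16774704)) (l 16772872))) (a (b (a (b (l 417853340247) (l 193441287015)) (l 16774240)) (l 16772328)) (l 16767648))) (a (b (l 16766944) (l 16759664)) (l 16757048)))) (a (b (a (l 16782120) (l 16754672)) (l 16741848)) (b (l 16745456) (l 16730096)))) (b (a (b (a (b (l 16765664) (l 16761448)) (l 16758864)) (l 16748112)) (b (l 16750168) (l 16736856))) (b (l 16770440) (a (l 16719120) (l 16708928))))) (b (a (b (a (l 16724912) (l 16713576)) (a (l 16706528) (l 16697240))) (b (l 16699384) (l 16682720))) (a (b (l 16683736) (l 16660976)) (l 16654888))))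 (b (b (a (a (l 16753464) (b (l 16727776) (l 16714864))) (a (l 16731288) (l 16700136))) (a (b (l 16707528) (l 16694088)) (l 16679736))) (b (a (l 16671688) (l 16652688)) (a (l 16638088) (l 16621400))))), by decide +kernel⟩

def k3_pp_011_s : ∃ t, chk3 f_pp_011_s t 5 2 1 = true :=
  ⟨(b (a (b (l 1) (a (b (l 1) (l 151968018663)) (l 1))) (l 1)) (a (b (b (a (l 16685144) (l 16670480)) (l 16649168)) (b (l 16622344) (l 16594152))) (b (b (l 1) (l 16623568)) (b (l 16587488) (l 16554360))))), by decide +kernel⟩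

def k4_pp_011_s : ∃ t, chk3 f_pp_011_s t 2 3 1 = true :=
  ⟨(b (a (b (a (b (a (l 16619112) (l 16605696)) (l 16675928)) (b (l 16585696) (l 16565248))) (a (b (a (l 16498288) (l 16473144)) (l 16528832)) (b (l 16440008) (l 16376704)))) (b (a (b (l 16556624) (l 16503968)) (b (l 16518216) (l 16474128))) (a (b (l 16429840) (l 6)) (l 6)))) (a (b (a (b (l 16373616) (l 16341664)) (b (l 6) (l 6))) (l 6)) (l 6))), by decide +kernel⟩

def k5_pp_011_s : ∃ t, chk3 f_pp_011_s t 3 1 1 = true :=
  ⟨(b (a (b (l 1) (a (b (l 1) (b (l 1) (l 16537504))) (l 1))) (l 1)) (b (a (b (l 6) (l 6)) (l 6)) (l 6))), by decide +kernel⟩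

theorem s6_pp_011_s : ∃ t, chk3 f_pp_011_s t 4 4 1 = true := ex3_a k0_pp_011_s k1_pp_011_s

theorem s7_pp_011_s : ∃ t, chk3 f_pp_011_s t 4 2 1 = true := ex3_b s6_pp_011_s k2_pp_011_s

theorem s8_pp_011_s : ∃ t, chk3 f_pp_011_s t 2 2 1 = true := ex3_a s7_pp_011_s k3_pp_011_s

theorem s9_pp_011_s : ∃ t, chk3 f_pp_011_s t 2 1 1 = true := ex3_b s8_pp_011_s k4_pp_011_s

theorem s10_pp_011_s : ∃ t, chk3 f_pp_011_s t 1 1 1 = true := ex3_a s9_pp_011_s k5_pp_011_s

theorem c_pp_011_s : CertNE 0 536870912 536870912 536870912 649613803 48318383 3 eng mog cd8q0 cd0q1 pd1 false true true .pnn 0 1 1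
    ndB8q0 ndB0q1 pcB1 cut_pp_011_s Ext.none :=
  certNE2 (fam := false) (s1 := true) (s2 := true) (a := 0) (b := 1) (c := 1) (cn := .pnn) (n1 := ndB8q0) (n2 := ndB0q1) (pc := pcB1) (cut := cut_pp_011_s) (xt := Ext.none) (P1 := 0) (W1 := 536870912) (P2 := 536870912) (W2 := 536870912) (P3 := 649613803) (W3 := 48318383) (N0 := 3) (En := eng) (mo := mog) (C1 := cd8q0) (C2 := cd0q1) (C3 := pd1)
    rfl (fun _ => rfl) s10_pp_011_s

noncomputable def cut_pp_012_s : Cut := Cut.of [[⟨4, 0, 0, 1449551462⟩]]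

noncomputable def f_pp_012_s : ℕ → ℕ → ℕ → ℕ → Bool := onCell 0 536870912 0 536870912 649613803 48318383
    (rowNE 3 eng mog cd8q0 cd0q2 pd1 0 false true true .pnp 0 1 2 (qsf 0 536870912 0 536870912 1) ndB8q0 ndB0q2 pcB1 cut_pp_012_s Ext.none)

def k0_pp_012_s : ∃ t, chk3 f_pp_012_s t 1 1 1 = true :=
  ⟨(a (l 6) (l 6)), by decide +kernel⟩

theorem c_pp_012_s : CertNE 0 536870912 0 536870912 649613803 48318383 3 eng mog cd8q0 cd0q2 pd1 false true true .pnp 0 1 2
    ndB8q0 ndB0q2 pcB1 cut_pp_012_s Ext.none :=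
  certNE0 (fam := false) (s1 := true) (s2 := true) (a := 0) (b := 1) (c := 2) (cn := .pnp) (n1 := ndB8q0) (n2 := ndB0q2) (pc := pcB1) (cut := cut_pp_012_s) (xt := Ext.none) (P1 := 0) (W1 := 536870912) (P2 := 0) (W2 := 536870912) (P3 := 649613803) (W3 := 48318383) (N0 := 3) (En := eng) (mo := mog) (C1 := cd8q0) (C2 := cd0q2) (C3 := pd1)
    rfl k0_pp_012_s

noncomputable def cut_pp_022_s : Cut := Cut.of [[⟨4, 0, 0, 1449551462⟩]]

noncomputable def f_pp_022_s : ℕ → ℕ → ℕ → ℕ → Bool := onCell 1073741824 536870912 0 536870912 649613803 48318383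
    (rowNE 3 eng mog cd8q0 cd0q2 pd2 2 false true true .pp 0 2 2 (qsf 0 536870912 0 536870912 2) ndB8q0 ndB0q2 pcB2 cut_pp_022_s Ext.none)

def k0_pp_022_s : ∃ t, chk3 f_pp_022_s t 1 1 1 = true :=
  ⟨(l 6), by decide +kernel⟩

theorem c_pp_022_s : CertNE 0 536870912 0 536870912 649613803 48318383 3 eng mog cd8q0 cd0q2 pd2 false true true .pp 0 2 2
    ndB8q0 ndB0q2 pcB2 cut_pp_022_s Ext.none :=
  certNE2 (fam := false) (s1 := true) (s2 := true) (a := 0) (b := 2) (c := 2) (cn := .pp) (n1 := ndB8q0) (n2 := ndB0q2) (pc := pcB2) (cut := cut_pp_022_s) (xt := Ext.none) (P1 := 0) (W1 := 536870912) (P2 := 0) (W2 := 536870912) (P3 := 649613803) (W3 := 48318383) (N0 := 3) (En := eng) (mo := mog) (C1 := cd8q0) (C2 := cd0q2) (C3 := pd2)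
    rfl (fun _ => rfl) k0_pp_022_s

noncomputable def cut_pp_101_s : Cut := Cut.of [[⟨4, 0, 0, 1449551462⟩], [⟨0, 1, 0, 53687091⟩, ⟨1, 0, 0, 53687091⟩, ⟨2, 1, 0, 53687091⟩]]

noncomputable def f_pp_101_s : ℕ → ℕ → ℕ → ℕ → Bool := onCell 0 536870912 536870912 536870912 649613803 48318383
    (rowNE 3 eng mog cd8q1 cd0q1 pd0 2 false true true .npn 1 0 1 (qsf 536870912 536870912 536870912 536870912 0) ndB8q1 ndB0q1 pcB0 cut_pp_101_s Ext.none)

def k0_pp_101_s : ∃ t, chk3 f_pp_101_s t 2 2 1 = true :=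
  ⟨(l 3), by decide +kernel⟩

def k1_pp_101_s : ∃ t, chk3 f_pp_101_s t 4 6 1 = true :=
  ⟨(l 3), by decide +kernel⟩

def k2_pp_101_s : ∃ t, chk3 f_pp_101_s t 5 12 1 = true :=
  ⟨(l 3), by decide +kernel⟩

def k3_pp_101_s : ∃ t, chk3 f_pp_101_s t 10 13 1 = true :=
  ⟨(l 3), by decide +kernel⟩

def k4_pp_101_s : ∃ t, chk3 f_pp_101_s t 11 26 1 = true :=
  ⟨(l 3), by decide +kernel⟩

def k5_pp_101_s : ∃ t, chk3 f_pp_101_s t 22 27 1 = true :=
  ⟨(b (l 3) (a (l 3) (b (l 3) (a (l 3) (b (l 3) (a (l 3) (b (a (l 3) (c (l 403357831207) (l 406042185751))) (a (c (l 342154543639) (b (l 437717568983) (l 198273143767))) (c (l 16778000) (l 101099507399)))))))))), by decide +kernel⟩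

def k6_pp_101_s : ∃ t, chk3 f_pp_101_s t 23 27 1 = true :=
  ⟨(b (a (l 3) (b (a (l 3) (b (l 3) (a (l 3) (b (l 3) (a (l 3) (l 457044922183)))))) (a (b (l 3) (a (b (l 3) (a (l 3) (l 444696893351))) (b (a (l 3) (c (l 385641090439) (l 396378507703))) (a (b (l 407652797127) (l 173040210407)) (l 87140863495))))) (b (a (b (l 3) (a (l 457581794135) (b (l 396378507239) (l 154249728023)))) (b (a (c (l 377051155095) (l 386177959687)) (c (l 16778576) (l 132774892551))) (c (l 16773224) (l 16773152)))) (b (a (c (l 104320735239) (a (b (l 204715595047) (l 16775168)) (l 16773304))) (l 16768984)) (l 16778176)))))) (a (b (a (l 3) (b (a (l 3) (b (l 3) (a (l 3) (c (l 333564609431) (b (l 423758924663) (l 181093274263)))))) (b (b (a (l 3) (c (l 165524019623) (a (l 231559141463) (l 16774808)))) (a (a (l 3) (l 372756187159)) (l 16778744))) (a (a (c (l 339470189687) (b (l 424832667079) (l 191830692647))) (c (l 16775280) (l 95193927671))) (l 16771024))))) (a (b (a (b (l 3) (a (l 3) (c (l 342154544327)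 (b (l 436643827207) (l 196662531031))))) (b (a (c (l 402820960311) (l 404968443943)) (c (l 184851372375) (b (l 335712092855) (l 16775664)))) (c (l 16779216) (a (l 98415152807) (l 16772496))))) (a (b (a (c (l 188072596599) (b (l 339470189287) (l 16775704))) (l 16773968)) (l 16771176)) (l 16778168))) (a (c (l 16776856) (b (l 16775600) (l 16761992))) (l 16771136)))) (b (a (b (a (b (a (c (l 394231025399) (l 401747217559)) (c (l 169818986343) (b (l 220284851991) (l 16775392)))) (c (l 16773720) (l 16778896))) (l 16775296)) (l 16775064)) (c (l 16778488) (l 16778104))) (a (l 16773192) (l 16741000))))), by decide +kernel⟩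

def k7_pp_101_s : ∃ t, chk3 f_pp_101_s t 4 14 1 = true :=
  ⟨(a (l 3) (b (l 3) (a (l 3) (b (l 3) (a (l 3) (b (l 3) (a (b (l 3) (a (l 3) (b (l 3) (a (l 419463959111) (b (l 389936056823) (a (l 246054652743) (l 16776272))))))) (b (a (l 3) (b (a (l 3) (l 420537701255)) (b (a (l 3) (c (l 233706622775) (l 304573579511))) (a (c (l 324437803911) (l 324974674855)) (l 16775464))))) (b (a (b (a (l 3) (a (l 417316473127) (l 254644587543))) (a (l 368461219815) (c (l 16779120) (l 133848633159)))) (c (l 16779024) (l 85530250295))) (a (a (c (l 125258697591) (b (l 155323468199) (l 16774536))) (l 16778528)) (l 16769936))))))))))), by decide +kernel⟩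

def k8_pp_101_s : ∃ t, chk3 f_pp_101_s t 8 30 1 = true :=
  ⟨(a (l 3) (b (l 3) (a (l 3) (b (l 3) (a (l 3) (b (l 3) (a (l 3) (b (l 3) (b (a (l 3) (b (l 421611440695) (a (l 3) (a (l 344838898167) (l 153175983255))))) (b (a (l 3) (a (a (l 358797542039) (l 166060885319)) (l 16776280))) (a (a (l 3) (a (l 372756185911) (l 179482658295))) (l 16777800)))))))))))), by decide +kernel⟩

def k9_pp_101_s : ∃ t, chk3 f_pp_101_s t 16 31 1 = true :=
  ⟨(b (b (l 3) (b (l 3) (b (l 3) (l 14)))) (l 14)), by decide +kernel⟩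

def k10_pp_101_s : ∃ t, chk3 f_pp_101_s t 34 124 1 = true :=
  ⟨(a (l 3) (b (l 3) (a (l 3) (a (l 3) (b (l 3) (b (l 3) (a (b (l 3) (b (l 400136602711) (a (l 399062860503) (l 168745239463)))) (b (b (l 389399184359) (a (l 382419862119) (l 149954757479))) (c (l 116131890279) (l 109152568359)))))))))), by decide +kernel⟩

def k11_pp_101_s : ∃ t, chk3 f_pp_101_s t 34 250 1 = true :=
  ⟨(a (a (l 3) (a (l 3) (b (l 3) (b (l 3) (b (a (l 3) (a (l 3) (b (l 3) (l 375440540231)))) (a (a (l 3) (c (l 395304764503) (l 402820957239))) (b (a (l 382419862135) (c (l 163913401127) (l 156397208295))) (a (a (l 209010557719) (l 16776952)) (l 16776544))))))))) (a (b (a (l 3) (b (l 3) (b (b (l 3) (a (l 3) (a (l 3) (c (l 234780361831) (l 315310997639))))) (b (a (l 3) (a (c (l 318532223175) (l 322290319559)) (l 16776808))) (a (a (l 3) (c (l 326585286903) (l 330343383287))) (l 16777552)))))) (b (a (b (b (l 3) (a (l 3) (a (l 3) (c (l 338933318007) (l 344838898023))))) (a (a (l 3) (a (l 3) (b (l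 3) (l 268603229063)))) (b (a (c (l 346449510823) (l 352355090839)) (l 127406179047)) (c (l 119353115383) (l 109689438983))))) (b (a (a (b (c (l 333027737911) (l 336785834295)) (l 16777552)) (l 94657053447)) (l 16775808)) (l 16777296))) (a (a (b (a (b (l 368998089223) (a (l 190756946615) (l 16776888))) (c (l 122574340935) (l 120963728055))) (l 16777296)) (l 16777384)) (l 16776416)))) (b (b (a (b (a (l 3) (b (l 411410891975) (a (l 415705858887) (c (l 195588785191) (l 204715590519))))) (b (a (l 3) (a (a (l 263771390823) (l 16777728)) (l 16776672))) (a (a (l 3) (c (l 215989879863) (l 220821717991))) (l 16776440)))) (a (b (a (b (l 190756946919) (l 16776640)) (l 16776352)) (l 16775608)) (l 16777656))) (a (b (a (b (a (c (l 227264168999) (l 228874781735)) (l 16776744)) (l 16777160)) (l 16775680)) (l 16776512)) (l 16773552))) (c (l 16776784) (l 16776872))))), by decide +kernel⟩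

def k12_pp_101_s : ∃ t, chk3 f_pp_101_s t 34 251 1 = true :=
  ⟨(b (a (a (a (l 3) (a (l 3) (b (l 3) (b (l 3) (a (b (l 3) (a (l 364166250871) (c (l 188609462999) (l 189683204823)))) (b (a (l 350744478023) (c (l 180556399255) (l 181630141079))) (l 16777424))))))) (b (a (b (b (l 3) (a (l 3) (a (l 3) (l 402820956935)))) (a (a (l 3) (l 415705859335)) (a (b (l 409800278839) (a (l 325511545015) (l 145122919079))) (b (a (c (l 238538457959) (l 246054650647)) (l 137606726247)) (l 16776656))))) (a (b (b (a (l 396378505943) (c (l 177335174039) (c (l 180019528519) (l 184851366647)))) (a (a (a (l 266992616199) (l 203641848471)) (l 16777336)) (l 16776600))) (l 16777416)) (c (l 16776832) (l 16776864)))) (a (a (a (b (b (l 3) (a (l 342154543383) (c (l 172503335527) (l 172503335527)))) (l 16777472)) (b (b (a (l 334101479655) (l 153175982807)) (l 16776712)) (l 16775944))) (c (l 16776952) (l 16776976))) (l 16776648)))) (a (c (l 16777016) (l 16776856)) (l 16773312))) (a (b (a (b (a (l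 3) (a (a (b (l 3) (a (l 379735507415) (a (l 244444037815) (l 179482657383)))) (b (a (l 371682443687) (c (l 197199397639) (l 198810010375))) (l 104320729607))) (c (l 16777576) (l 16777584)))) (a (a (l 3) (a (l 14) (b (a (l 388862312951) (b (l 315310998103) (l 16777448))) (c (l 16777520) (l 16777528))))) (a (c (c (l 16777456) (l 16777624)) (l 86067118775)) (l 16775240)))) (c (l 16776960) (l 16777024))) (a (a (l 14) (l 16776864)) (l 16776248))) (a (c (l 16772808) (l 16772944)) (l 16763224)))), by decide +kernel⟩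

def k13_pp_101_s : ∃ t, chk3 f_pp_101_s t 34 63 1 = true :=
  ⟨(a (b (b (a (b (a (l 14) (l 16775048)) (l 14)) (b (c (l 16773672) (l 16773152)) (l 16763408))) (a (l 14) (l 16756616))) (l 14)) (a (b (b (b (l 16763328) (l 16758784)) (l 16751992)) (l 16751616)) (b (l 16762384) (l 16733880)))), by decide +kernel⟩

def k14_pp_101_s : ∃ t, chk3 f_pp_101_s t 35 124 1 = true :=
  ⟨(a (b (a (l 3) (b (l 3) (b (b (l 3) (a (l 3) (a (l 3) (a (l 3) (l 367387476743))))) (a (a (l 3) (b (l 3) (l 404968441303))) (a (b (l 395304764759) (a (c (l 306721063015) (l 309942288487)) (l 16777752))) (b (a (a (l 244980909479) (l 165524014183)) (l 16778000)) (l 16775960))))))) (a (b (a (l 3) (b (l 3) (b (a (l 3) (a (c (l 341617672711) (l 345912640007)) (c (l 159081563303) (l 151565370551)))) (a (a (c (l 352355091095) (l 357723800199)) (b (l 243907167351) (l 16776824))) (l 16777576))))) (b (a (a (b (l 3) (a (l 384030475143) (b (l 351818219943) (l 16777624)))) (b (b (a (l 3) (l 335175221543)) (a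 (l 343765156199) (l 16776896))) (c (l 16777720) (l 16777728)))) (c (l 16777744) (l 16777608))) (a (a (a (b (l 116131890199) (l 16775744)) (l 16777024)) (l 16774896)) (l 16773280)))) (b (a (a (b (b (l 414095246935) (a (c (l 329806512519) (l 334101479799)) (c (l 147807274007) (l 139754210327)))) (l 16777656)) (b (b (a (c (l 318532223223) (l 321753448695)) (l 131701146663)) (l 16776120)) (l 16774616))) (c (l 16776600) (l 16776656))) (l 16776304)))) (b (a (a (b (a (l 3) (a (l 3) (b (l 3) (b (l 3) (l 341617672679))))) (b (b (c (a (l 367387477063) (l 139217339799)) (a (l 373293057063) (l 136532985095))) (b (a (a (l 261623907575) (l 16776856)) (l 16776048)) (l 82845893799))) (l 16777464))) (a (b (b (l 3) (b (a (l 420537697511) (l 328732770631)) (a (l 154786595975) (l 16776440)))) (l 16776856)) (b (b (b (l 3) (a (l 408726537303) (l 315310997687))) (c (l 100025763207) (l 94657053975))) (l 16773160)))) (b (a (b (a (b (a (l 394231022535) (a (l 256255198599) (l 168745239719)))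 (l 105394472103)) (l 79087797495)) (l 16777144)) (l 16777304)) (l 16775736))) (a (a (l 16776248) (l 16772952)) (a (l 16776000) (l 16773872))))), by decide +kernel⟩

def k15_pp_101_s : ∃ t, chk3 f_pp_101_s t 35 125 1 = true :=
  ⟨(a (a (b (b (c (l 16776528) (l 16776624)) (l 16772440)) (l 16771352)) (b (a (l 16773184) (l 16774320)) (l 16756184))) (a (b (l 16771032) (l 16751576)) (l 16772432))), by decide +kernel⟩

def k16_pp_101_s : ∃ t, chk3 f_pp_101_s t 35 63 1 = true :=
  ⟨(b (b (l 16764544) (a (l 16740304) (l 16710232))) (b (l 16726872) (l 16717536))), by decide +kernel⟩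

def k17_pp_101_s : ∃ t, chk3 f_pp_101_s t 18 60 1 = true :=
  ⟨(a (l 3) (b (l 3) (a (l 3) (b (l 3) (a (b (l 3) (a (l 3) (b (l 416242732055) (a (l 336785834759) (l 134385502023))))) (b (b (a (l 3) (c (l 375440541879) (l 380272380039))) (a (l 400136604247) (c (l 150491630103) (a (l 184851368167) (l 16776040))))) (b (a (a (a (l 346986382119) (l 183777626087)) (l 16777640)) (l 16774656)) (l 16776440)))))))), by decide +kernel⟩

def k18_pp_101_s : ∃ t, chk3 f_pp_101_s t 18 122 1 = true :=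
  ⟨(a (a (l 3) (b (l 3) (a (a (l 3) (a (l 3) (b (l 3) (b (l 3) (l 409263409255))))) (b (b (l 3) (a (l 3) (a (l 3) (a (l 416242730823) (l 353965704103))))) (b (a (a (l 3) (l 384030476007)) (b (a (l 352891962119) (l 16776600)) (l 98952021655))) (a (b (a (l 379735508087) (l 135459243511)) (c (l 120426858103) (l 115595019863))) (l 16774704))))))) (a (b (a (b (l 3) (b (l 3) (a (l 3) (a (l 424832665991) (b (l 408726537623) (l 173040207575)))))) (b (b (l 3) (a (l 3) (a (l 377588024919) (a (l 243370297671) (l 145122920167))))) (a (a (b (l 405505312759) (l 125258696503)) (b (a (l 338396447383) (l 171429595191)) (l 16775400))) (c (l 16777368) (l 16777976))))) (a (b (b (b (a (l 3) (c (l 140291082407) (l 141901694807))) (a (c (l 348596995143) (l 351818220599)) (l 16775704))) (a (a (b (l 326585287031) (l 16776480)) (l 16775880)) (l 16774240))) (l 16777816)) (c (l 16775272) (l 16775136)))) (b (a (b (a (b (a (l 357186929847) (a (l 177335175239) (l 16777888))) (l 16778072)) (l 16776840))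 (l 16776656)) (l 16776792)) (l 16773808)))), by decide +kernel⟩

def k19_pp_101_s : ∃ t, chk3 f_pp_101_s t 18 123 1 = true :=
  ⟨(a (a (b (a (l 3) (b (l 3) (b (a (l 3) (b (a (l 3) (l 325511545207)) (a (l 337322705447) (l 16776488)))) (a (b (a (l 3) (l 349133865687)) (a (l 360408155015) (l 119353116039))) (c (l 16778192) (l 16778176)))))) (a (a (b (b (l 3) (a (l 417316473159) (b (l 402284086647) (a (l 239612200567) (l 16776808))))) (a (b (b (a (l 330343383383) (l 16777552)) (l 16776192)) (l 16774720)) (l 16777256))) (b (b (b (c (l 392083539911) (l 396915378087)) (a (l 390472926423) (a (l 174650820055) (l 16776616)))) (b (a (a (l 225116685767) (l 16776712)) (l 16775912)) (l 16775472))) (l 16775664))) (b (b (a (a (b (l 130627405383) (l 16775824)) (l 16775240)) (l 16773632)) (l 16775384)) (l 16775104)))) (b (a (a (b (b (l 424295796039) (b (a (l 3) (a (l 279340648135) (l 16777640))) (a (a (l 363092509351) (l 163376530791)) (l 16776280)))) (c (l 16777024) (l 16776992)))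 (b (b (a (a (l 364703122551) (b (l 408189666343) (l 16776880))) (b (l 163913402103) (l 16776072))) (l 16777768)) (l 16772232))) (a (b (l 16777888) (l 16770064)) (l 16775072))) (a (l 16775344) (l 16773664)))) (a (b (c (l 16774968) (l 16774736)) (l 16772472)) (b (l 16771384) (l 16748248)))), by decide +kernel⟩

def k20_pp_101_s : ∃ t, chk3 f_pp_101_s t 19 30 1 = true :=
  ⟨(b (a (b (a (l 3) (b (a (l 3) (a (l 3) (b (l 3) (a (l 422685183943) (b (l 3) (l 324974674567)))))) (a (b (a (l 3) (c (l 399062863943) (l 403894702087))) (b (a (l 413558377447) (a (l 244444039895) (l 16776264))) (a (a (l 335175222039) (l 16778208)) (l 16774888)))) (b (a (b (l 371145574407) (a (l 181093271943) (l 16775960))) (c (l 108615698711) (l 110226311495))) (l 16777728))))) (a (b (a (b (l 3) (b (a (l 3) (c (l 343228286231) (l 345375769879))) (a (c (l 359871284967) (l 363092510423)) (c (l 16778688) (l 16778008))))) (b (b (a (l 3) (a (l 359871284471) (l 160155306103))) (a (a (l 384030475991) (l 222969203159))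 (l 16775480))) (c (l 16778304) (l 79624669319)))) (a (a (b (a (b (l 162302789735) (l 16774944)) (l 16774800)) (l 16771456)) (l 16776424)) (l 16773064))) (b (a (c (l 16777768) (l 16778920)) (l 16777136)) (l 16771576)))) (b (a (a (b (b (a (l 3) (a (l 388862315447) (b (l 3) (l 170892724487)))) (a (b (a (l 393694152583) (l 233706621543)) (l 112373794871)) (l 16778536))) (l 16777464)) (b (b (a (b (a (l 337859576711) (l 16777912)) (l 16775240)) (l 16773952)) (l 16771224)) (l 16765424))) (a (c (l 16778088) (a (l 16776208) (l 16773928))) (l 16769560))) (a (b (l 16770384) (l 16752152)) (a (a (l 16750448) (l 16748256)) (l 16745160))))) (a (b (a (b (l 16772720) (l 16775488)) (b (l 16774320) (l 16745880))) (b (l 16763944) (l 16734688))) (a (b (l 16741000) (l 16725496)) (l 16745568)))), by decide +kernel⟩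

def k21_pp_101_s : ∃ t, chk3 f_pp_101_s t 9 31 1 = true :=
  ⟨(a (b (a (b (a (b (a (c (l 16773400) (l 16773520)) (l 16774424)) (a (l 16770648) (l 16755704))) (b (a (l 16770232) (l 16755424)) (l 16748832))) (a (l 16765568) (l 16735504))) (b (l 16767184) (l 16742696))) (b (a (a (l 16726520) (l 16717608)) (l 16704272)) (a (l 16703824) (l 16643864)))) (b (a (b (l 16721664) (l 16703952)) (b (l 16703632) (l 16686384))) (a (l 16677168) (l 16659536)))), by decide +kernel⟩

def k22_pp_101_s : ∃ t, chk3 f_pp_101_s t 10 28 1 = true :=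
  ⟨(a (l 3) (b (l 3) (a (b (l 3) (a (l 3) (b (l 3) (a (b (l 3) (a (l 3) (a (l 410874023319) (b (l 3) (l 189146336871))))) (b (a (l 428590764903) (a (b (l 3) (l 209547431927)) (b (l 368461219063) (l 16775976)))) (a (b (a (l 349133865767) (l 16778472)) (l 16775096)) (l 16773520))))))) (b (a (b (l 3) (a (l 3) (b (l 3) (a (l 3) (c (l 400136605527) (b (l 3) (l 385641089127))))))) (b (a (l 3) (b (l 3) (a (c (l 418390217239) (l 423222055399)) (c (b (l 370071832279) (l 16778880)) (b (l 373293057735) (l 117205634343)))))) (a (b (a (l 3) (b (l 435033214743) (a (l 375977411943) (l 140291083207)))) (a (a (b (l 425369536903) (l 127406180967)) (b (l 218674237495) (l 16775264))) (l 16778224))) (a (b (a (b (l 233169752439) (l 16775432)) (l 16777752)) (l 16771600)) (l 16776248))))) (b (a (a (b (l 3) (b (a (l 3) (a (l 388325443223) (l 183777627591))) (a (c (l 355576317255) (l 358797542055)) (l 16778152)))) (b (b (a (l 417316473943) (a (l 201494368039) (l 16775832))) (a (a (l 343228285543)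 (l 16777704)) (l 16774408))) (l 16777840))) (c (l 16777280) (l 16777032))) (a (b (a (a (a (b (l 135996116023) (l 16774664)) (l 16774392)) (l 16772408)) (l 16768424)) (l 16777400)) (l 16768808))))))), by decide +kernel⟩

def k23_pp_101_s : ∃ t, chk3 f_pp_101_s t 20 29 1 = true :=
  ⟨(b (a (l 3) (b (a (l 3) (b (l 3) (a (l 3) (b (l 3) (a (l 417853346375) (b (l 380809250999) (a (l 199883755415) (l 16775976)))))))) (a (b (a (l 3) (b (l 3) (a (l 3) (c (l 385104219655) (b (l 3) (l 370071832439)))))) (a (b (a (l 3) (l 419463959447)) (b (a (l 3) (c (l 208473691015) (l 300278611911))) (a (c (l 324437803719) (l 325511545559)) (l 16775368)))) (b (b (a (l 394767895175) (c (l 16779064) (l 127943052935))) (a (c (l 179482661271) (l 178408918663)) (l 16774472))) (l 16777968)))) (b (a (b (a (l 3) (a (l 395841637447) (b (l 3) (l 173577080215)))) (a (b (a (l 412484634839) (l 215989882775)) (l 109689441255)) (l 16778464))) (b (a (a (b (l 335712092791) (l 16775688)) (l 92509571879)) (l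 16773568)) (l 16770792))) (c (l 16777816) (l 16777728)))))) (a (b (a (b (l 3) (a (b (l 3) (a (l 3) (c (l 391546670839) (l 395841638087)))) (b (a (l 3) (c (l 358260673015) (b (l 3) (l 330880254887)))) (a (b (l 353965704759) (l 127943052087)) (l 90362088407))))) (b (a (a (l 3) (b (l 3) (b (l 401747217207) (a (l 246591524471) (l 16776448))))) (a (b (c (l 389936058103) (l 394231025351)) (c (l 115058151431) (b (l 144049180055) (l 16774728)))) (b (b (a (l 417853344231) (l 240685944487)) (l 119353118023)) (l 16773328)))) (a (a (b (b (a (l 360408155383) (l 149417888391)) (l 16775520)) (l 16772696)) (l 16778840)) (l 16779240)))) (a (b (a (b (b (a (l 401210346247) (c (l 149417888663) (l 151565372295))) (a (c (l 173577080087) (l 208473689367)) (l 16774752))) (l 16778288)) (c (l 16780936) (l 16775648))) (a (l 16777864) (l 16762904))) (a (l 16775248) (l 16778248)))) (b (a (a (b (a (b (l 88214604663) (l 16770944)) (l 16775728)) (l 16763912)) (l 16776640)) (l 16771016)) (a (l 16769920)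 (l 16760240))))), by decide +kernel⟩

def k24_pp_101_s : ∃ t, chk3 f_pp_101_s t 21 29 1 = true :=
  ⟨(b (a (b (a (b (a (l 3) (b (a (l 3) (b (l 3) (l 387788572999))) (b (a (l 418927086759) (a (l 209010561047) (l 16776024))) (a (a (l 346449511207) (l 16778488)) (l 16774616))))) (a (b (b (a (l 3) (a (l 386714830519) (l 185388240471))) (a (c (l 351281349975) (l 353965704519)) (l 16778248))) (c (l 83919638215) (a (l 93046443223) (l 16772544)))) (c (l 16776072) (l 16778592)))) (b (a (b (a (c (b (l 356650059175) (l 16778768)) (b (l 359871284631) (l 112373795927))) (c (l 16774616) (l 16777192))) (l 16777008)) (l 16779096)) (l 16773456))) (a (c (l 16776976) (a (l 16774088) (l 16779344))) (l 16771624))) (b (a (c (l 16777776) (l 16766808)) (b (l 16771000) (l 16741784))) (a (b (l 16744176) (l 16735872)) (l 16771448)))) (a (b (a (c (l 16766056) (l 16765496)) (b (l 16759280) (l 16730376))) (l 16765592)) (b (a (l 16744992) (l 16713568)) (l 16702832)))), by decide +kernel⟩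

def k25_pp_101_s : ∃ t, chk3 f_pp_101_s t 22 28 1 = true :=
  ⟨(b (a (b (l 3) (a (b (l 3) (a (b (l 3) (a (l 3) (l 438254441559))) (b (a (l 3) (a (l 439865053415) (b (l 3) (l 221358592039)))) (b (a (l 389936056599) (l 101099506599)) (a (a (l 209547431799) (l 16775872)) (l 16773816)))))) (b (a (b (l 3) (a (l 442012538439) (b (l 406042184423) (a (l 231022268663) (l 16776088))))) (a (b (c (l 392620412247) (b (l 3) (l 369534961159))) (c (l 16777720) (l 84456508551))) (b (b (a (l 396915377911) (l 185388240071)) (l 16775488)) (l 16772336)))) (a (b (a (b (a (l 378124895591) (l 134385503079)) (l 16775304)) (l 16773616)) (l 16770768)) (l 16777880))))) (b (b (a (a (l 3) (a (l 3) (b (l 3) (b (l 423758925127) (a (l 253570847607) (l 16776360)))))) (a (b (a (c (l 401210347431) (l 404968443799)) (b (a (l 413558376663) (l 198810013239)) (l 16775696))) (c (l 78550929559) (a (l 96804540023) (l 16772504)))) (c (l 16781040) (l 16775656)))) (a (a (b (a (l 3) (b (l 3) (l 375977412439)))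 (b (a (l 417316473943) (c (l 16776288) (l 116668763479))) (a (a (l 246054654583) (l 16776256)) (l 16774184)))) (a (b (b (a (l 408189667351) (l 195051916727)) (l 16778248)) (l 16772472)) (l 16777048))) (c (l 16775528) (l 16775256)))) (a (a (b (c (l 16780880) (l 16775472)) (l 16772416)) (l 16771120)) (l 16764264)))) (a (b (a (b (a (b (b (a (l 3) (a (l 355576316759) (l 16777784))) (a (a (l 406042183655) (l 196662529719)) (l 16775056))) (c (l 16778544) (l 55465478887))) (l 16777776)) (l 16775376)) (b (l 16772232) (l 16774392))) (a (l 16772720) (l 16762024))) (a (b (b (l 16771888) (l 16742688)) (l 16751344)) (b (l 16757104) (l 16720096))))), by decide +kernel⟩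

def k26_pp_101_s : ∃ t, chk3 f_pp_101_s t 23 28 1 = true :=
  ⟨(b (b (a (a (a (l 16771264) (l 16776264)) (l 16768048)) (l 16751496)) (a (c (l 16768272) (l 16767368)) (a (l 16720080) (l 16709376)))) (a (b (a (l 16746496) (l 16736168)) (a (l 16709960) (l 16699664))) (b (l 16720288) (l 16684024)))), by decide +kernel⟩

def k27_pp_101_s : ∃ t, chk3 f_pp_101_s t 11 29 1 = true :=
  ⟨(a (b (a (b (a (l 16756120) (l 16745760)) (l 16756184)) (b (l 16730600) (l 16693984))) (a (l 16711568) (l 16671000))) (b (a (l 16702784) (l 16661728)) (l 16705112))), by decide +kernel⟩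

def k28_pp_101_s : ∃ t, chk3 f_pp_101_s t 5 15 1 = true :=
  ⟨(a (b (a (b (a (a (b (a (l 16776984) (l 16772600)) (l 16738912)) (b (l 16765288) (l 16728056))) (b (l 16749504) (l 16712016))) (a (l 16729392) (l 16687344))) (b (b (l 16718048) (l 16723040)) (b (l 16706952) (l 16691008)))) (b (a (b (l 16693640) (l 16655832)) (l 16687936)) (a (l 16630000) (l 16592368)))) (b (b (a (a (l 16659528) (l 16640456)) (a (l 16622032) (l 16603984))) (a (l 16703376) (l 16583856))) (a (b (l 16588568) (l 16557672)) (b (l 16554768) (l 16525528))))), by decide +kernel⟩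

def k29_pp_101_s : ∃ t, chk3 f_pp_101_s t 3 2 1 = true :=
  ⟨(a (l 3) (l 1)), by decide +kernel⟩

def k30_pp_101_s : ∃ t, chk3 f_pp_101_s t 12 12 1 = true :=
  ⟨(a (l 3) (b (l 3) (b (l 3) (a (l 3) (b (l 3) (a (b (l 3) (a (l 3) (l 524690653383))) (b (a (l 3) (a (l 493552137447) (l 1))) (c (a (b (l 409800278439) (l 140827958471)) (l 16771968)) (a (b (l 422685179431) (a (l 193441307543) (l 16774272))) (l 44728061991)))))))))), by decide +kernel⟩

def k31_pp_101_s : ∃ t, chk3 f_pp_101_s t 24 26 1 = true :=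
  ⟨(b (l 3) (a (b (l 3) (a (l 3) (b (l 3) (a (b (l 3) (a (l 3) (l 422148311063))) (a (b (l 500531465191) (b (l 222432335815) (l 16775432))) (b (c (l 227801047447) (l 317458481367)) (l 16773552))))))) (b (a (b (l 3) (a (l 3) (b (l 3) (a (l 3) (c (l 362018767863) (l 369534960087)))))) (b (a (l 3) (b (c (l 438791309511) (l 452749951783)) (a (c (l 235854111111) (l 330343383175)) (l 73719090231)))) (a (b (a (l 444696888695) (c (l 170892728631) (l 164987148583))) (c (l 16779304) (l 71571607863))) (l 16778112)))) (a (b (a (b (a (l 3) (l 479056627815)) (a (c (l 394231023319) (l 402284086167)) (c (l 16779784) (l 130627408871)))) (a (b (b (l 379735507655) (l 123648085351)) (l 16773088)) (l 16778784))) (a (c (l 16776536) (l 16779064)) (l 16775896))) (c (l 16776688) (l 16776448)))))), by decide +kernel⟩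

def k32_pp_101_s : ∃ t, chk3 f_pp_101_s t 25 26 1 = true :=
  ⟨(b (a (b (a (l 3) (b (l 3) (a (l 3) (b (l 496773366439) (a (c (l 393694151255) (l 404431568887)) (c (l 16775848) (l 16778448))))))) (a (b (a (l 3) (c (l 486035950439) (l 504826429959))) (a (b (l 3) (a (l 488183432375) (c (l 198273146135) (b (l 392083538087) (l 16776200))))) (b (a (c (l 363092509271) (l 370071830663)) (c (l 16775456) (l 16775424))) (l 16778104)))) (b (a (b (a (l 533817459559) (a (l 393157280023) (l 177335178359))) (c (l 117205637351) (a (l 159081567991) (l 16773632)))) (c (l 16771344) (l 16776512))) (c (l 16776736) (l 16776600))))) (b (a (b (a (b (l 3) (a (l 3) (c (l 248202142231) (l 250886496503)))) (a (b (l 421611438199) (l 16775080)) (c (l 16774184) (l 87677736151)))) (a (a (b (a (l 226727303623) (l 16779136)) (l 16772944)) (l 16777280)) (l 16778200))) (a (c (l 16776472) (l 16776336)) (l 16770664))) (a (a (l 16772008) (l 16776744)) (l 16768144)))) (a (b (a (b (a (a (b (c (l 16778712)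 (l 131701150855)) (l 16772016)) (l 16776376)) (l 16777264)) (l 16772024)) (l 16768464)) (a (l 16770248) (l 16737784))) (a (b (l 16742560) (l 16726352)) (l 16744000)))), by decide +kernel⟩

def k33_pp_101_s : ∃ t, chk3 f_pp_101_s t 12 27 1 = true :=
  ⟨(a (b (a (b (a (b (a (l 3) (b (l 3) (a (l 443086277495) (b (l 251960236839) (l 16775840))))) (a (b (a (l 3) (c (l 363629381463) (l 369534960791))) (a (a (l 344302027655) (l 156934083447)) (l 16774320))) (c (l 67276641943) (b (a (l 113447539047) (l 16772648)) (l 16769864))))) (b (a (b (a (c (l 344838898759) (l 345912640135)) (l 96804540375)) (l 16777736)) (l 16779232)) (l 16775072))) (a (b (c (l 16777128) (l 16776936)) (l 16779176)) (l 16771768))) (a (b (c (l 16776976) (l 16776648)) (l 16739320)) (b (l 16765272) (l 16727920)))) (b (a (a (l 16766872) (l 16734552)) (l 16738640)) (a (l 16755768) (l 16702136)))) (b (a (a (l 16745632) (l 16747376)) (b (l 16725384) (l 16688368))) (a (b (l 16695232) (l 16680016)) (l 16665376)))),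 by decide +kernel⟩

def k34_pp_101_s : ∃ t, chk3 f_pp_101_s t 13 6 1 = true :=
  ⟨(b (a (b (l 1) (b (l 1) (a (b (l 1) (a (b (l 1) (l 16773872)) (l 1))) (l 1)))) (l 1)) (a (b (b (a (a (b (l 16772600) (l 16735768)) (l 16753336)) (l 16744424)) (a (a (l 16732632) (l 16700352)) (l 16704528))) (b (a (l 16673840) (l 16651616)) (l 16632456))) (b (b (l 1) (l 16692624)) (b (l 16618768) (l 16589144))))), by decide +kernel⟩

def k35_pp_101_s : ∃ t, chk3 f_pp_101_s t 7 6 1 = true :=
  ⟨(a (b (l 1) (b (l 1) (a (l 16561288) (l 1)))) (l 1)), by decide +kernel⟩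

def k36_pp_101_s : ∃ t, chk3 f_pp_101_s t 3 7 1 = true :=
  ⟨(a (b (a (b (a (b (b (a (l 16708648) (l 16686928)) (l 16745656)) (a (l 16670816) (l 16650320))) (b (l 16647368) (l 16640768))) (a (b (l 16653104) (l 16625448)) (b (l 16593640) (l 16568472)))) (b (a (l 16612616) (l 16550440)) (a (l 16523152) (l 16528440)))) (a (a (b (a (l 16614296) (l 16555280)) (l 16509184)) (b (l 16530632) (l 16480464))) (b (a (l 16498936) (l 16468080)) (a (l 16453704) (l 16428416))))) (b (a (b (a (l 16509976) (l 16470864)) (l 16453720)) (b (l 1) (l 16387112))) (a (b (l 16485760) (l 16581288)) (b (l 16365816) (l 6))))), by decide +kernel⟩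

theorem s37_pp_101_s : ∃ t, chk3 f_pp_101_s t 12 26 1 = true := ex3_a k31_pp_101_s k32_pp_101_s

theorem s38_pp_101_s : ∃ t, chk3 f_pp_101_s t 12 13 1 = true := ex3_b s37_pp_101_s k33_pp_101_s

theorem s39_pp_101_s : ∃ t, chk3 f_pp_101_s t 12 6 1 = true := ex3_b k30_pp_101_s s38_pp_101_s

theorem s40_pp_101_s : ∃ t, chk3 f_pp_101_s t 6 6 1 = true := ex3_a s39_pp_101_s k34_pp_101_s

theorem s41_pp_101_s : ∃ t, chk3 f_pp_101_s t 3 6 1 = true := ex3_a s40_pp_101_s k35_pp_101_s

theorem s42_pp_101_s : ∃ t, chk3 f_pp_101_s t 3 3 1 = true := ex3_b s41_pp_101_s k36_pp_101_s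

theorem s43_pp_101_s : ∃ t, chk3 f_pp_101_s t 3 1 1 = true := ex3_b k29_pp_101_s s42_pp_101_s

theorem s44_pp_101_s : ∃ t, chk3 f_pp_101_s t 11 28 1 = true := ex3_a k25_pp_101_s k26_pp_101_s

theorem s45_pp_101_s : ∃ t, chk3 f_pp_101_s t 11 14 1 = true := ex3_b s44_pp_101_s k27_pp_101_s

theorem s46_pp_101_s : ∃ t, chk3 f_pp_101_s t 10 29 1 = true := ex3_a k23_pp_101_s k24_pp_101_s

theorem s47_pp_101_s : ∃ t, chk3 f_pp_101_s t 10 14 1 = true := ex3_b k22_pp_101_s s46_pp_101_s

theorem s48_pp_101_s : ∃ t, chk3 f_pp_101_s t 5 14 1 = true := ex3_a s47_pp_101_s s45_pp_101_s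

theorem s49_pp_101_s : ∃ t, chk3 f_pp_101_s t 5 7 1 = true := ex3_b s48_pp_101_s k28_pp_101_s

theorem s50_pp_101_s : ∃ t, chk3 f_pp_101_s t 18 61 1 = true := ex3_b k18_pp_101_s k19_pp_101_s

theorem s51_pp_101_s : ∃ t, chk3 f_pp_101_s t 18 30 1 = true := ex3_b k17_pp_101_s s50_pp_101_s

theorem s52_pp_101_s : ∃ t, chk3 f_pp_101_s t 9 30 1 = true := ex3_a s51_pp_101_s k20_pp_101_s

theorem s53_pp_101_s : ∃ t, chk3 f_pp_101_s t 9 15 1 = true := ex3_b s52_pp_101_s k21_pp_101_s

theorem s54_pp_101_s : ∃ t, chk3 f_pp_101_s t 35 62 1 = true := ex3_b k14_pp_101_s k15_pp_101_s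

theorem s55_pp_101_s : ∃ t, chk3 f_pp_101_s t 35 31 1 = true := ex3_b s54_pp_101_s k16_pp_101_s

theorem s56_pp_101_s : ∃ t, chk3 f_pp_101_s t 34 125 1 = true := ex3_b k11_pp_101_s k12_pp_101_s

theorem s57_pp_101_s : ∃ t, chk3 f_pp_101_s t 34 62 1 = true := ex3_b k10_pp_101_s s56_pp_101_s

theorem s58_pp_101_s : ∃ t, chk3 f_pp_101_s t 34 31 1 = true := ex3_b s57_pp_101_s k13_pp_101_s

theorem s59_pp_101_s : ∃ t, chk3 f_pp_101_s t 17 31 1 = true := ex3_a s58_pp_101_s s55_pp_101_s

theorem s60_pp_101_s : ∃ t, chk3 f_pp_101_s t 8 31 1 = true := ex3_a k9_pp_101_s s59_pp_101_s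

theorem s61_pp_101_s : ∃ t, chk3 f_pp_101_s t 8 15 1 = true := ex3_b k8_pp_101_s s60_pp_101_s

theorem s62_pp_101_s : ∃ t, chk3 f_pp_101_s t 4 15 1 = true := ex3_a s61_pp_101_s s53_pp_101_s

theorem s63_pp_101_s : ∃ t, chk3 f_pp_101_s t 4 7 1 = true := ex3_b k7_pp_101_s s62_pp_101_s

theorem s64_pp_101_s : ∃ t, chk3 f_pp_101_s t 2 7 1 = true := ex3_a s63_pp_101_s s49_pp_101_s

theorem s65_pp_101_s : ∃ t, chk3 f_pp_101_s t 11 27 1 = true := ex3_a k5_pp_101_s k6_pp_101_s

theorem s66_pp_101_s : ∃ t, chk3 f_pp_101_s t 11 13 1 = true := ex3_b k4_pp_101_s s65_pp_101_s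

theorem s67_pp_101_s : ∃ t, chk3 f_pp_101_s t 5 13 1 = true := ex3_a k3_pp_101_s s66_pp_101_s

theorem s68_pp_101_s : ∃ t, chk3 f_pp_101_s t 5 6 1 = true := ex3_b k2_pp_101_s s67_pp_101_s

theorem s69_pp_101_s : ∃ t, chk3 f_pp_101_s t 2 6 1 = true := ex3_a k1_pp_101_s s68_pp_101_s

theorem s70_pp_101_s : ∃ t, chk3 f_pp_101_s t 2 3 1 = true := ex3_b s69_pp_101_s s64_pp_101_s

theorem s71_pp_101_s : ∃ t, chk3 f_pp_101_s t 2 1 1 = true := ex3_b k0_pp_101_s s70_pp_101_s

theorem s72_pp_101_s : ∃ t, chk3 f_pp_101_s t 1 1 1 = true := ex3_a s71_pp_101_s s43_pp_101_s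

theorem c_pp_101_s : CertNE 536870912 536870912 536870912 536870912 649613803 48318383 3 eng mog cd8q1 cd0q1 pd0 false true true .npn 1 0 1
    ndB8q1 ndB0q1 pcB0 cut_pp_101_s Ext.none :=
  certNE2 (fam := false) (s1 := true) (s2 := true) (a := 1) (b := 0) (c := 1) (cn := .npn) (n1 := ndB8q1) (n2 := ndB0q1) (pc := pcB0) (cut := cut_pp_101_s) (xt := Ext.none) (P1 := 536870912) (W1 := 536870912) (P2 := 536870912) (W2 := 536870912) (P3 := 649613803) (W3 := 48318383) (N0 := 3) (En := eng) (mo := mog) (C1 := cd8q1) (C2 := cd0q1) (C3 := pd0)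
    rfl (fun _ => rfl) s72_pp_101_s

noncomputable def cut_pp_102_s : Cut := Cut.of [[⟨4, 0, 0, 1449551462⟩], [⟨0, 1, 0, 67108864⟩, ⟨1, 0, 0, 67108864⟩, ⟨2, 1, 0, 67108864⟩]]

noncomputable def f_pp_102_s : ℕ → ℕ → ℕ → ℕ → Bool := onCell 536870912 536870912 0 536870912 649613803 48318383
    (rowNE 3 eng mog cd8q1 cd0q2 pd0 0 false true true .npp 1 0 2 (qsf 536870912 536870912 0 536870912 0) ndB8q1 ndB0q2 pcB0 cut_pp_102_s Ext.none)

def k0_pp_102_s : ∃ t, chk3 f_pp_102_s t 1 1 1 = true :=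
  ⟨(b (l 6) (a (b (l 6) (a (l 6) (b (l 6) (a (b (l 6) (a (l 6) (l 16416440))) (b (a (l 6) (l 16423128)) (a (l 16437584) (l 16460904))))))) (a (b (l 6) (b (a (b (l 6) (a (l 6) (l 16423736))) (a (b (l 6) (l 16442776)) (b (l 16417296) (l 16462688)))) (a (b (a (l 16443224) (l 16465760)) (a (b (l 16475232) (l 16498376)) (b (l 16501904) (l 16528184)))) (b (a (l 16489920) (l 16515992)) (b (a (l 16530568) (l 16561768)) (l 16608688)))))) (b (b (l 6) (a (a (l 6) (b (l 6) (l 16396088))) (a (b (l 6) (l 16406704)) (b (l 16359608) (l 16438456))))) (b (a (b (a (l 16453272) (b (l 16435352) (l 16462768))) (a (l 16484248) (a (l 16501448) (l 16533648)))) (a (b (l 16486168) (a (b (l 16508280) (l 16541472)) (b (l 16519200) (l 16554072)))) (a (b (l 16477824) (b (l 16529280) (l 16587360))) (b (l 16485816) (b (l 16539224) (l 16577144)))))) (a (b (a (b (l 16528160) (l 16560472)) (a (l 16649936) (b (l 16562576) (l 16597992)))) (b (a (a (l 16586952) (l 16624688)) (a (l 16640552) (l 16719504)))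 (a (l 16673176) (a (l 16657080) (l 16674400))))) (b (a (b (a (l 16576320) (l 16590416)) (a (l 16613024) (l 16670288))) (a (b (a (l 16600816) (l 14)) (l 14)) (l 14))) (a (a (b (b (l 16641728) (l 16682688)) (b (l 16702432) (l 16702392))) (b (b (l 16657960) (l 14)) (l 14))) (l 14))))))))), by decide +kernel⟩

theorem c_pp_102_s : CertNE 536870912 536870912 0 536870912 649613803 48318383 3 eng mog cd8q1 cd0q2 pd0 false true true .npp 1 0 2
    ndB8q1 ndB0q2 pcB0 cut_pp_102_s Ext.none :=
  certNE0 (fam := false) (s1 := true) (s2 := true) (a := 1) (b := 0) (c := 2) (cn := .npp) (n1 := ndB8q1) (n2 := ndB0q2) (pc := pcB0) (cut := cut_pp_102_s) (xt := Ext.none) (P1 := 536870912) (W1 := 536870912) (P2 := 0) (W2 := 536870912) (P3 := 649613803) (W3 := 48318383) (N0 := 3) (En := eng) (mo := mog) (C1 := cd8q1) (C2 := cd0q2) (C3 := pd0)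
    rfl k0_pp_102_s

noncomputable def cut_pp_112_s : Cut := Cut.of [[⟨4, 0, 0, 1449551462⟩]]

noncomputable def f_pp_112_s : ℕ → ℕ → ℕ → ℕ → Bool := onCell 536870912 536870912 0 536870912 649613803 48318383
    (rowNE 3 eng mog cd8q1 cd0q2 pd1 2 false true true .dn 1 1 2 (qsf 536870912 536870912 0 536870912 1) ndB8q1 ndB0q2 pcB1 cut_pp_112_s Ext.none)

def k0_pp_112_s : ∃ t, chk3 f_pp_112_s t 1 1 1 = true :=
  ⟨(a (l 6) (l 1)), by decide +kernel⟩

theorem c_pp_112_s : CertNE 536870912 536870912 0 536870912 649613803 48318383 3 eng mog cd8q1 cd0q2 pd1 false true true .dn 1 1 2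
    ndB8q1 ndB0q2 pcB1 cut_pp_112_s Ext.none :=
  certNE2 (fam := false) (s1 := true) (s2 := true) (a := 1) (b := 1) (c := 2) (cn := .dn) (n1 := ndB8q1) (n2 := ndB0q2) (pc := pcB1) (cut := cut_pp_112_s) (xt := Ext.none) (P1 := 536870912) (W1 := 536870912) (P2 := 0) (W2 := 536870912) (P3 := 649613803) (W3 := 48318383) (N0 := 3) (En := eng) (mo := mog) (C1 := cd8q1) (C2 := cd0q2) (C3 := pd1)
    rfl (fun _ => rfl) k0_pp_112_s

noncomputable def cut_pp_202_s : Cut := Cut.of [[⟨4, 0, 0, 1449551462⟩], [⟨0, 1, 0, 67108864⟩, ⟨1, 0, 0, 67108864⟩, ⟨2, 1, 0, 67108864⟩]]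

noncomputable def f_pp_202_s : ℕ → ℕ → ℕ → ℕ → Bool := onCell 0 536870912 0 536870912 649613803 48318383
    (rowNE 3 eng mog cd8q2 cd0q2 pd0 2 false true true .pp 2 0 2 (qsf 1073741824 536870912 0 536870912 0) ndB8q2 ndB0q2 pcB0 cut_pp_202_s Ext.none)

def k0_pp_202_s : ∃ t, chk3 f_pp_202_s t 1 1 1 = true :=
  ⟨(a (b (a (l 6) (l 6)) (a (b (a (b (a (l 16590296) (l 16410480)) (a (b (l 16511680) (l 16546520)) (b (l 16455056) (l 16488296)))) (b (l 6) (a (b (l 16390232) (l 16420960)) (l 360810373495)))) (a (b (a (b (a (l 16598048) (l 16570232)) (l 14)) (b (a (l 16540176) (l 16507696)) (a (l 14) (l 16608736)))) (a (l 14) (a (l 14) (l 1)))) (b (b (a (l 259878722839) (l 1)) (l 1)) (l 1)))) (b (l 1) (l 1)))) (l 1)), by decide +kernel⟩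

theorem c_pp_202_s : CertNE 1073741824 536870912 0 536870912 649613803 48318383 3 eng mog cd8q2 cd0q2 pd0 false true true .pp 2 0 2
    ndB8q2 ndB0q2 pcB0 cut_pp_202_s Ext.none :=
  certNE2 (fam := false) (s1 := true) (s2 := true) (a := 2) (b := 0) (c := 2) (cn := .pp) (n1 := ndB8q2) (n2 := ndB0q2) (pc := pcB0) (cut := cut_pp_202_s) (xt := Ext.none) (P1 := 1073741824) (W1 := 536870912) (P2 := 0) (W2 := 536870912) (P3 := 649613803) (W3 := 48318383) (N0 := 3) (En := eng) (mo := mog) (C1 := cd8q2) (C2 := cd0q2) (C3 := pd0)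
    rfl (fun _ => rfl) k0_pp_202_s

noncomputable def cut_pm_001_s : Cut := Cut.of [[⟨4, 0, 0, 1449551462⟩]]

noncomputable def f_pm_001_s : ℕ → ℕ → ℕ → ℕ → Bool := onCell 0 536870912 536870912 536870912 649613803 48318383
    (rowNE 3 eng mog cd8q0 cd0q1 pd0 0 false true false .up 0 0 1 (qsf 0 536870912 536870912 536870912 0) ndB8q0 ndB0q1 pcB0 cut_pm_001_s Ext.none)

def k0_pm_001_s : ∃ t, chk3 f_pm_001_s t 1 1 1 = true :=
  ⟨(l 4), by decide +kernel⟩

theorem c_pm_001_s : CertNE 0 536870912 536870912 536870912 649613803 48318383 3 eng mog cd8q0 cd0q1 pd0 false true false .up 0 0 1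
    ndB8q0 ndB0q1 pcB0 cut_pm_001_s Ext.none :=
  certNE0 (fam := false) (s1 := true) (s2 := false) (a := 0) (b := 0) (c := 1) (cn := .up) (n1 := ndB8q0) (n2 := ndB0q1) (pc := pcB0) (cut := cut_pm_001_s) (xt := Ext.none) (P1 := 0) (W1 := 536870912) (P2 := 536870912) (W2 := 536870912) (P3 := 649613803) (W3 := 48318383) (N0 := 3) (En := eng) (mo := mog) (C1 := cd8q0) (C2 := cd0q1) (C3 := pd0)
    rfl k0_pm_001_s

noncomputable def cut_pm_011_s : Cut := Cut.of [[⟨4, 0, 0, 1449551462⟩]]

noncomputable def f_pm_011_s : ℕ → ℕ → ℕ → ℕ → Bool := onCell 0 536870912 536870912 536870912 649613803 48318383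
    (rowNE 3 eng mog cd8q0 cd0q1 pd1 0 false true false .pnn 0 1 1 (qsf 0 536870912 536870912 536870912 1) ndB8q0 ndB0q1 pcB1 cut_pm_011_s Ext.none)

def k0_pm_011_s : ∃ t, chk3 f_pm_011_s t 1 1 1 = true :=
  ⟨(l 4), by decide +kernel⟩

theorem c_pm_011_s : CertNE 0 536870912 536870912 536870912 649613803 48318383 3 eng mog cd8q0 cd0q1 pd1 false true false .pnn 0 1 1
    ndB8q0 ndB0q1 pcB1 cut_pm_011_s Ext.none :=
  certNE0 (fam := false) (s1 := true) (s2 := false) (a := 0) (b := 1) (c := 1) (cn := .pnn) (n1 := ndB8q0) (n2 := ndB0q1) (pc := pcB1) (cut := cut_pm_011_s) (xt := Ext.none) (P1 := 0) (W1 := 536870912) (P2 := 536870912) (W2 := 536870912) (P3 := 649613803) (W3 := 48318383) (N0 := 3) (En := eng) (mo := mog) (C1 := cd8q0) (C2 := cd0q1) (C3 := pd1)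
    rfl k0_pm_011_s

noncomputable def cut_pm_012_s : Cut := Cut.of [[⟨4, 0, 0, 1449551462⟩]]

noncomputable def f_pm_012_s : ℕ → ℕ → ℕ → ℕ → Bool := onCell 0 536870912 0 536870912 649613803 48318383
    (rowNE 3 eng mog cd8q0 cd0q2 pd1 0 false true false .pnp 0 1 2 (qsf 0 536870912 0 536870912 1) ndB8q0 ndB0q2 pcB1 cut_pm_012_s Ext.none)

def k0_pm_012_s : ∃ t, chk3 f_pm_012_s t 1 1 1 = true :=
  ⟨(l 6), by decide +kernel⟩

theorem c_pm_012_s : CertNE 0 536870912 0 536870912 649613803 48318383 3 eng mog cd8q0 cd0q2 pd1 false true false .pnp 0 1 2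
    ndB8q0 ndB0q2 pcB1 cut_pm_012_s Ext.none :=
  certNE0 (fam := false) (s1 := true) (s2 := false) (a := 0) (b := 1) (c := 2) (cn := .pnp) (n1 := ndB8q0) (n2 := ndB0q2) (pc := pcB1) (cut := cut_pm_012_s) (xt := Ext.none) (P1 := 0) (W1 := 536870912) (P2 := 0) (W2 := 536870912) (P3 := 649613803) (W3 := 48318383) (N0 := 3) (En := eng) (mo := mog) (C1 := cd8q0) (C2 := cd0q2) (C3 := pd1)
    rfl k0_pm_012_s

noncomputable def cut_pm_022_s : Cut := Cut.of [[⟨4, 0, 0, 1449551462⟩]]

noncomputable def f_pm_022_s : ℕ → ℕ → ℕ → ℕ → Bool := onCell 0 536870912 0 536870912 649613803 48318383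
    (rowNE 3 eng mog cd8q0 cd0q2 pd2 0 false true false .pp 0 2 2 (qsf 0 536870912 0 536870912 2) ndB8q0 ndB0q2 pcB2 cut_pm_022_s Ext.none)

def k0_pm_022_s : ∃ t, chk3 f_pm_022_s t 1 1 1 = true :=
  ⟨(l 6), by decide +kernel⟩

theorem c_pm_022_s : CertNE 0 536870912 0 536870912 649613803 48318383 3 eng mog cd8q0 cd0q2 pd2 false true false .pp 0 2 2
    ndB8q0 ndB0q2 pcB2 cut_pm_022_s Ext.none :=
  certNE0 (fam := false) (s1 := true) (s2 := false) (a := 0) (b := 2) (c := 2) (cn := .pp) (n1 := ndB8q0) (n2 := ndB0q2) (pc := pcB2) (cut := cut_pm_022_s) (xt := Ext.none) (P1 := 0) (W1 := 536870912) (P2 := 0) (W2 := 536870912) (P3 := 649613803) (W3 := 48318383) (N0 := 3) (En := eng) (mo := mog) (C1 := cd8q0) (C2 := cd0q2) (C3 := pd2)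
    rfl k0_pm_022_s

noncomputable def cut_pm_101_s : Cut := Cut.of [[⟨4, 0, 0, 1449551462⟩]]

noncomputable def f_pm_101_s : ℕ → ℕ → ℕ → ℕ → Bool := onCell 536870912 536870912 536870912 536870912 649613803 48318383
    (rowNE 3 eng mog cd8q1 cd0q1 pd0 0 false true false .npn 1 0 1 (qsf 536870912 536870912 536870912 536870912 0) ndB8q1 ndB0q1 pcB0 cut_pm_101_s Ext.none)

def k0_pm_101_s : ∃ t, chk3 f_pm_101_s t 1 1 1 = true :=
  ⟨(l 4), by decide +kernel⟩

theorem c_pm_101_s : CertNE 536870912 536870912 536870912 536870912 649613803 48318383 3 eng mog cd8q1 cd0q1 pd0 false true false .npn 1 0 1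
    ndB8q1 ndB0q1 pcB0 cut_pm_101_s Ext.none :=
  certNE0 (fam := false) (s1 := true) (s2 := false) (a := 1) (b := 0) (c := 1) (cn := .npn) (n1 := ndB8q1) (n2 := ndB0q1) (pc := pcB0) (cut := cut_pm_101_s) (xt := Ext.none) (P1 := 536870912) (W1 := 536870912) (P2 := 536870912) (W2 := 536870912) (P3 := 649613803) (W3 := 48318383) (N0 := 3) (En := eng) (mo := mog) (C1 := cd8q1) (C2 := cd0q1) (C3 := pd0)
    rfl k0_pm_101_s

noncomputable def cut_pm_102_s : Cut := Cut.of [[⟨4, 0, 0, 1449551462⟩]]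

noncomputable def f_pm_102_s : ℕ → ℕ → ℕ → ℕ → Bool := onCell 536870912 536870912 0 536870912 649613803 48318383
    (rowNE 3 eng mog cd8q1 cd0q2 pd0 0 false true false .npp 1 0 2 (qsf 536870912 536870912 0 536870912 0) ndB8q1 ndB0q2 pcB0 cut_pm_102_s Ext.none)

def k0_pm_102_s : ∃ t, chk3 f_pm_102_s t 1 1 1 = true :=
  ⟨(l 6), by decide +kernel⟩

theorem c_pm_102_s : CertNE 536870912 536870912 0 536870912 649613803 48318383 3 eng mog cd8q1 cd0q2 pd0 false true false .npp 1 0 2
    ndB8q1 ndB0q2 pcB0 cut_pm_102_s Ext.none :=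
  certNE0 (fam := false) (s1 := true) (s2 := false) (a := 1) (b := 0) (c := 2) (cn := .npp) (n1 := ndB8q1) (n2 := ndB0q2) (pc := pcB0) (cut := cut_pm_102_s) (xt := Ext.none) (P1 := 536870912) (W1 := 536870912) (P2 := 0) (W2 := 536870912) (P3 := 649613803) (W3 := 48318383) (N0 := 3) (En := eng) (mo := mog) (C1 := cd8q1) (C2 := cd0q2) (C3 := pd0)
    rfl k0_pm_102_s

noncomputable def cut_pm_112_s : Cut := Cut.of [[⟨4, 0, 0, 1449551462⟩]]

noncomputable def f_pm_112_s : ℕ → ℕ → ℕ → ℕ → Bool := onCell 536870912 536870912 0 536870912 649613803 48318383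
    (rowNE 3 eng mog cd8q1 cd0q2 pd1 0 false true false .dn 1 1 2 (qsf 536870912 536870912 0 536870912 1) ndB8q1 ndB0q2 pcB1 cut_pm_112_s Ext.none)

def k0_pm_112_s : ∃ t, chk3 f_pm_112_s t 1 1 1 = true :=
  ⟨(l 6), by decide +kernel⟩

theorem c_pm_112_s : CertNE 536870912 536870912 0 536870912 649613803 48318383 3 eng mog cd8q1 cd0q2 pd1 false true false .dn 1 1 2
    ndB8q1 ndB0q2 pcB1 cut_pm_112_s Ext.none :=
  certNE0 (fam := false) (s1 := true) (s2 := false) (a := 1) (b := 1) (c := 2) (cn := .dn) (n1 := ndB8q1) (n2 := ndB0q2) (pc := pcB1) (cut := cut_pm_112_s) (xt := Ext.none) (P1 := 536870912) (W1 := 536870912) (P2 := 0) (W2 := 536870912) (P3 := 649613803) (W3 := 48318383) (N0 := 3) (En := eng) (mo := mog) (C1 := cd8q1) (C2 := cd0q2) (C3 := pd1)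
    rfl k0_pm_112_s

noncomputable def cut_pm_202_s : Cut := Cut.of [[⟨4, 0, 0, 1449551462⟩]]

noncomputable def f_pm_202_s : ℕ → ℕ → ℕ → ℕ → Bool := onCell 0 536870912 0 536870912 649613803 48318383
    (rowNE 3 eng mog cd8q2 cd0q2 pd0 2 false true false .pp 2 0 2 (qsf 1073741824 536870912 0 536870912 0) ndB8q2 ndB0q2 pcB0 cut_pm_202_s Ext.none)

def k0_pm_202_s : ∃ t, chk3 f_pm_202_s t 1 1 1 = true :=
  ⟨(l 6), by decide +kernel⟩

theorem c_pm_202_s : CertNE 1073741824 536870912 0 536870912 649613803 48318383 3 eng mog cd8q2 cd0q2 pd0 false true false .pp 2 0 2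
    ndB8q2 ndB0q2 pcB0 cut_pm_202_s Ext.none :=
  certNE2 (fam := false) (s1 := true) (s2 := false) (a := 2) (b := 0) (c := 2) (cn := .pp) (n1 := ndB8q2) (n2 := ndB0q2) (pc := pcB0) (cut := cut_pm_202_s) (xt := Ext.none) (P1 := 1073741824) (W1 := 536870912) (P2 := 0) (W2 := 536870912) (P3 := 649613803) (W3 := 48318383) (N0 := 3) (En := eng) (mo := mog) (C1 := cd8q2) (C2 := cd0q2) (C3 := pd0)
    rfl (fun _ => rfl) k0_pm_202_s

noncomputable def cut_mm_001_s : Cut := Cut.of [[⟨4, 0, 0, 1449551462⟩]]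

noncomputable def f_mm_001_s : ℕ → ℕ → ℕ → ℕ → Bool := onCell 0 536870912 536870912 536870912 649613803 48318383
    (rowNE 3 eng mog cd8q0 cd0q1 pd0 0 false false false .up 0 0 1 (qsf 0 536870912 536870912 536870912 0) ndB8q0 ndB0q1 pcB0 cut_mm_001_s Ext.none)

def k0_mm_001_s : ∃ t, chk3 f_mm_001_s t 1 1 1 = true :=
  ⟨(l 5), by decide +kernel⟩

theorem c_mm_001_s : CertNE 0 536870912 536870912 536870912 649613803 48318383 3 eng mog cd8q0 cd0q1 pd0 false false false .up 0 0 1
    ndB8q0 ndB0q1 pcB0 cut_mm_001_s Ext.none :=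
  certNE0 (fam := false) (s1 := false) (s2 := false) (a := 0) (b := 0) (c := 1) (cn := .up) (n1 := ndB8q0) (n2 := ndB0q1) (pc := pcB0) (cut := cut_mm_001_s) (xt := Ext.none) (P1 := 0) (W1 := 536870912) (P2 := 536870912) (W2 := 536870912) (P3 := 649613803) (W3 := 48318383) (N0 := 3) (En := eng) (mo := mog) (C1 := cd8q0) (C2 := cd0q1) (C3 := pd0)
    rfl k0_mm_001_s

noncomputable def cut_mm_011_s : Cut := Cut.of [[⟨4, 0, 0, 1449551462⟩]]

noncomputable def f_mm_011_s : ℕ → ℕ → ℕ → ℕ → Bool := onCell 0 536870912 536870912 536870912 649613803 48318383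
    (rowNE 3 eng mog cd8q0 cd0q1 pd1 0 false false false .pnn 0 1 1 (qsf 0 536870912 536870912 536870912 1) ndB8q0 ndB0q1 pcB1 cut_mm_011_s Ext.none)

def k0_mm_011_s : ∃ t, chk3 f_mm_011_s t 1 1 1 = true :=
  ⟨(l 5), by decide +kernel⟩

theorem c_mm_011_s : CertNE 0 536870912 536870912 536870912 649613803 48318383 3 eng mog cd8q0 cd0q1 pd1 false false false .pnn 0 1 1
    ndB8q0 ndB0q1 pcB1 cut_mm_011_s Ext.none :=
  certNE0 (fam := false) (s1 := false) (s2 := false) (a := 0) (b := 1) (c := 1) (cn := .pnn) (n1 := ndB8q0) (n2 := ndB0q1) (pc := pcB1) (cut := cut_mm_011_s) (xt := Ext.none) (P1 := 0) (W1 := 536870912) (P2 := 536870912) (W2 := 536870912) (P3 := 649613803) (W3 := 48318383) (N0 := 3) (En := eng) (mo := mog) (C1 := cd8q0) (C2 := cd0q1) (C3 := pd1)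
    rfl k0_mm_011_s

noncomputable def cut_mm_012_s : Cut := Cut.of [[⟨4, 0, 0, 1449551462⟩]]

noncomputable def f_mm_012_s : ℕ → ℕ → ℕ → ℕ → Bool := onCell 0 536870912 0 536870912 649613803 48318383
    (rowNE 3 eng mog cd8q0 cd0q2 pd1 0 false false false .pnp 0 1 2 (qsf 0 536870912 0 536870912 1) ndB8q0 ndB0q2 pcB1 cut_mm_012_s Ext.none)

def k0_mm_012_s : ∃ t, chk3 f_mm_012_s t 1 1 1 = true :=
  ⟨(l 5), by decide +kernel⟩

theorem c_mm_012_s : CertNE 0 536870912 0 536870912 649613803 48318383 3 eng mog cd8q0 cd0q2 pd1 false false false .pnp 0 1 2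
    ndB8q0 ndB0q2 pcB1 cut_mm_012_s Ext.none :=
  certNE0 (fam := false) (s1 := false) (s2 := false) (a := 0) (b := 1) (c := 2) (cn := .pnp) (n1 := ndB8q0) (n2 := ndB0q2) (pc := pcB1) (cut := cut_mm_012_s) (xt := Ext.none) (P1 := 0) (W1 := 536870912) (P2 := 0) (W2 := 536870912) (P3 := 649613803) (W3 := 48318383) (N0 := 3) (En := eng) (mo := mog) (C1 := cd8q0) (C2 := cd0q2) (C3 := pd1)
    rfl k0_mm_012_s

noncomputable def cut_mm_022_s : Cut := Cut.of [[⟨4, 0, 0, 1449551462⟩]]

noncomputable def f_mm_022_s : ℕ → ℕ → ℕ → ℕ → Bool := onCell 0 536870912 0 536870912 649613803 48318383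
    (rowNE 3 eng mog cd8q0 cd0q2 pd2 0 false false false .pp 0 2 2 (qsf 0 536870912 0 536870912 2) ndB8q0 ndB0q2 pcB2 cut_mm_022_s Ext.none)

def k0_mm_022_s : ∃ t, chk3 f_mm_022_s t 1 1 1 = true :=
  ⟨(l 5), by decide +kernel⟩

theorem c_mm_022_s : CertNE 0 536870912 0 536870912 649613803 48318383 3 eng mog cd8q0 cd0q2 pd2 false false false .pp 0 2 2
    ndB8q0 ndB0q2 pcB2 cut_mm_022_s Ext.none :=
  certNE0 (fam := false) (s1 := false) (s2 := false) (a := 0) (b := 2) (c := 2) (cn := .pp) (n1 := ndB8q0) (n2 := ndB0q2) (pc := pcB2) (cut := cut_mm_022_s) (xt := Ext.none) (P1 := 0) (W1 := 536870912) (P2 := 0) (W2 := 536870912) (P3 := 649613803) (W3 := 48318383) (N0 := 3) (En := eng) (mo := mog) (C1 := cd8q0) (C2 := cd0q2) (C3 := pd2)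
    rfl k0_mm_022_s

noncomputable def cut_mm_101_s : Cut := Cut.of [[⟨4, 0, 0, 1449551462⟩]]

noncomputable def f_mm_101_s : ℕ → ℕ → ℕ → ℕ → Bool := onCell 0 536870912 536870912 536870912 649613803 48318383
    (rowNE 3 eng mog cd8q1 cd0q1 pd0 2 false false false .npn 1 0 1 (qsf 536870912 536870912 536870912 536870912 0) ndB8q1 ndB0q1 pcB0 cut_mm_101_s Ext.none)

def k0_mm_101_s : ∃ t, chk3 f_mm_101_s t 1 1 1 = true :=
  ⟨(l 5), by decide +kernel⟩

theorem c_mm_101_s : CertNE 536870912 536870912 536870912 536870912 649613803 48318383 3 eng mog cd8q1 cd0q1 pd0 false false false .npn 1 0 1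
    ndB8q1 ndB0q1 pcB0 cut_mm_101_s Ext.none :=
  certNE2 (fam := false) (s1 := false) (s2 := false) (a := 1) (b := 0) (c := 1) (cn := .npn) (n1 := ndB8q1) (n2 := ndB0q1) (pc := pcB0) (cut := cut_mm_101_s) (xt := Ext.none) (P1 := 536870912) (W1 := 536870912) (P2 := 536870912) (W2 := 536870912) (P3 := 649613803) (W3 := 48318383) (N0 := 3) (En := eng) (mo := mog) (C1 := cd8q1) (C2 := cd0q1) (C3 := pd0)
    rfl (fun _ => rfl) k0_mm_101_s

noncomputable def cut_mm_102_s : Cut := Cut.of [[⟨4, 0, 0, 1449551462⟩]]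

noncomputable def f_mm_102_s : ℕ → ℕ → ℕ → ℕ → Bool := onCell 536870912 536870912 0 536870912 649613803 48318383
    (rowNE 3 eng mog cd8q1 cd0q2 pd0 0 false false false .npp 1 0 2 (qsf 536870912 536870912 0 536870912 0) ndB8q1 ndB0q2 pcB0 cut_mm_102_s Ext.none)

def k0_mm_102_s : ∃ t, chk3 f_mm_102_s t 1 1 1 = true :=
  ⟨(l 5), by decide +kernel⟩

theorem c_mm_102_s : CertNE 536870912 536870912 0 536870912 649613803 48318383 3 eng mog cd8q1 cd0q2 pd0 false false false .npp 1 0 2
    ndB8q1 ndB0q2 pcB0 cut_mm_102_s Ext.none :=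
  certNE0 (fam := false) (s1 := false) (s2 := false) (a := 1) (b := 0) (c := 2) (cn := .npp) (n1 := ndB8q1) (n2 := ndB0q2) (pc := pcB0) (cut := cut_mm_102_s) (xt := Ext.none) (P1 := 536870912) (W1 := 536870912) (P2 := 0) (W2 := 536870912) (P3 := 649613803) (W3 := 48318383) (N0 := 3) (En := eng) (mo := mog) (C1 := cd8q1) (C2 := cd0q2) (C3 := pd0)
    rfl k0_mm_102_s

noncomputable def cut_mm_112_s : Cut := Cut.of [[⟨4, 0, 0, 1449551462⟩]]

noncomputable def f_mm_112_s : ℕ → ℕ → ℕ → ℕ → Bool := onCell 536870912 536870912 0 536870912 649613803 48318383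
    (rowNE 3 eng mog cd8q1 cd0q2 pd1 0 false false false .dn 1 1 2 (qsf 536870912 536870912 0 536870912 1) ndB8q1 ndB0q2 pcB1 cut_mm_112_s Ext.none)

def k0_mm_112_s : ∃ t, chk3 f_mm_112_s t 1 1 1 = true :=
  ⟨(l 5), by decide +kernel⟩

theorem c_mm_112_s : CertNE 536870912 536870912 0 536870912 649613803 48318383 3 eng mog cd8q1 cd0q2 pd1 false false false .dn 1 1 2
    ndB8q1 ndB0q2 pcB1 cut_mm_112_s Ext.none :=
  certNE0 (fam := false) (s1 := false) (s2 := false) (a := 1) (b := 1) (c := 2) (cn := .dn) (n1 := ndB8q1) (n2 := ndB0q2) (pc := pcB1) (cut := cut_mm_112_s) (xt := Ext.none) (P1 := 536870912) (W1 := 536870912) (P2 := 0) (W2 := 536870912) (P3 := 649613803) (W3 := 48318383) (N0 := 3) (En := eng) (mo := mog) (C1 := cd8q1) (C2 := cd0q2) (C3 := pd1)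
    rfl k0_mm_112_s

noncomputable def cut_mm_202_s : Cut := Cut.of [[⟨4, 0, 0, 1449551462⟩]]

noncomputable def f_mm_202_s : ℕ → ℕ → ℕ → ℕ → Bool := onCell 1073741824 536870912 0 536870912 649613803 48318383
    (rowNE 3 eng mog cd8q2 cd0q2 pd0 0 false false false .pp 2 0 2 (qsf 1073741824 536870912 0 536870912 0) ndB8q2 ndB0q2 pcB0 cut_mm_202_s Ext.none)

def k0_mm_202_s : ∃ t, chk3 f_mm_202_s t 1 1 1 = true :=
  ⟨(l 5), by decide +kernel⟩

theorem c_mm_202_s : CertNE 1073741824 536870912 0 536870912 649613803 48318383 3 eng mog cd8q2 cd0q2 pd0 false false false .pp 2 0 2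
    ndB8q2 ndB0q2 pcB0 cut_mm_202_s Ext.none :=
  certNE0 (fam := false) (s1 := false) (s2 := false) (a := 2) (b := 0) (c := 2) (cn := .pp) (n1 := ndB8q2) (n2 := ndB0q2) (pc := pcB0) (cut := cut_mm_202_s) (xt := Ext.none) (P1 := 1073741824) (W1 := 536870912) (P2 := 0) (W2 := 536870912) (P3 := 649613803) (W3 := 48318383) (N0 := 3) (En := eng) (mo := mog) (C1 := cd8q2) (C2 := cd0q2) (C3 := pd0)
    rfl k0_mm_202_s

end Pool.Agent.Strip051.G.I6050_6500.Tab.CS.BB80

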