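import Pool.Agent.Strip051.G.I6050_6500.Tab

/-! # Certificates B18 (generated) -/

set_option linter.all false
set_option maxRecDepth 100000

namespace Pool.Agent.Strip051.G.I6050_6500.Tab.C.BB00

open Pool.Agent.Strip051.PB Pool.Agent.Strip051.PB.T
open Pool.Agent.Strip051.G.I6050_6500.Tab

noncomputable def cut_pm_011 : Cut := Cut.of [[⟨3, 0, 0, 1449551462⟩], [⟨4, 0, 0, 2845415833⟩], [⟨0, 0, 0, 53687091⟩, ⟨1, 1, 0, 53687091⟩, ⟨2, 1, 0, 53687091⟩]]

noncomputable def f_pm_011 : ℕ → ℕ → ℕ → ℕ → Bool := onCell 0 536870912 536870912 536870912 649613803 48318383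
    (rowB 3 eng mog cd0q0 cd0q1 pd1 0 false true false .pnn 0 1 1 (qsf 0 536870912 536870912 536870912 1) ndB0q0 ndB0q1 pcB1 cut_pm_011 Ext.none)

def k0_pm_011 : ∃ t, chk3 f_pm_011 t 1 2 1 = true :=
  ⟨(l 14), by decide +kernel⟩

def k1_pm_011 : ∃ t, chk3 f_pm_011 t 2 3 1 = true :=
  ⟨(b (l 14) (a (l 14) (b (l 14) (a (l 14) (b (l 14) (a (l 14) (b (l 14) (a (l 16569944) (l 16533920))))))))), by decide +kernel⟩

def k2_pm_011 : ∃ t, chk3 f_pm_011 t 3 6 1 = true :=
  ⟨(a (l 14) (a (a (l 14) (l 1)) (l 1))), by decide +kernel⟩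

def k3_pm_011 : ∃ t, chk3 f_pm_011 t 6 7 1 = true :=
  ⟨(b (a (l 14) (b (l 14) (a (b (l 14) (a (l 14) (b (l 14) (a (l 16515064) (l 16505824))))) (b (a (b (l 14) (l 16530992)) (c (b (l 16512776) (l 16500736)) (l 16503072))) (a (b (l 16514312) (l 16503104)) (b (c (l 16489384) (l 16485832)) (l 16476720))))))) (a (b (b (a (l 14) (a (l 14) (b (l 14) (l 16526328)))) (a (a (l 14) (b (l 14) (l 16541552))) (a (b (l 16534216) (l 16523360)) (b (l 16515600) (l 16505232))))) (a (b (a (b (l 16547640) (l 16535936)) (b (l 16530368) (l 16519320))) (a (l 16518680) (l 16503136))) (b (a (b (l 16512888) (l 16502512)) (b (b (l 16497712) (l 16492784)) (l 16485536))) (a (l 16487336) (l 16471360))))) (b (b (a (a (a (l 16527896) (l 16508152)) (b (l 16499688) (l 16489392))) (a (b (l 16482296) (l 16472272)) (c (l 16463152) (l 16459664)))) (a (a (b (l 16497264) (l 16487376)) (b (l 16479512) (l 16470032))) (a (l 16468536) (b (l 16447200) (l 16438344))))) (a (b (b (a (l 16477888) (l 16460912)) (a (l 16468680)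 (l 16452280))) (a (l 16455384) (l 16439736))) (b (a (b (l 16444728) (l 16436576)) (l 16446656)) (a (l 16424728) (l 16410648))))))), by decide +kernel⟩

def k4_pm_011 : ∃ t, chk3 f_pm_011 t 7 7 1 = true :=
  ⟨(b (a (b (a (b (a (l 14) (a (l 14) (l 1))) (a (b (l 14) (l 16509144)) (c (b (l 42982722391) (l 16499312)) (l 16521600)))) (a (a (a (b (l 1) (l 62310041895)) (l 1)) (l 1)) (l 1))) (a (b (a (c (l 16492632) (l 16488208)) (b (l 16505000) (l 16493064))) (a (b (l 16494008) (l 16462400)) (c (l 16478416) (l 16452384)))) (b (a (c (b (l 16497832) (l 41908884743)) (b (l 16470912) (l 16458776))) (b (l 1) (c (l 56404390359) (l 16450024)))) (a (a (l 16447160) (l 16442616)) (c (l 39761346375) (l 16433192)))))) (b (l 1) (a (b (l 1) (a (c (l 51035639175) (l 55867464343)) (l 1))) (l 1)))) (a (b (b (a (a (l 16468224) (l 16434744)) (a (c (l 16427224) (l 16421400)) (c (l 16419016) (l 16412456)))) (a (a (c (l 16446768) (l 16426760)) (b (l 16420720) (l 16412152))) (a (b (l 16410304) (l 16401656))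 (b (l 16401616) (l 16392832))))) (a (b (a (l 16412344) (l 16400248)) (a (l 16397696) (l 16386048))) (b (a (l 16390016) (l 16381440)) (a (l 16376088) (l 16367696))))) (b (a (b (a (c (l 38687563735) (l 16403928)) (c (l 47277481175) (l 53183046743))) (a (b (l 16393368) (l 16384512)) (b (l 39761246215) (l 22581365463)))) (b (l 1) (a (b (l 1) (l 48351146551)) (l 1)))) (a (b (a (c (l 16377040) (l 16369512)) (c (l 16369328) (l 16361104))) (a (c (l 16363712) (l 16355848)) (c (l 16356368) (l 16347776)))) (b (a (c (l 16382232) (l 16352384)) (c (l 34929337879) (l 49961706567))) (a (c (a (l 16350712) (l 16346792)) (l 16339512)) (c (a (l 16342704) (b (l 16341152) (l 16335680))) (a (l 16333024) (l 16328512))))))))), by decide +kernel⟩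

theorem s5_pm_011 : ∃ t, chk3 f_pm_011 t 3 7 1 = true := ex3_a k3_pm_011 k4_pm_011

theorem s6_pm_011 : ∃ t, chk3 f_pm_011 t 3 3 1 = true := ex3_b k2_pm_011 s5_pm_011

theorem s7_pm_011 : ∃ t, chk3 f_pm_011 t 1 3 1 = true := ex3_a k1_pm_011 s6_pm_011

theorem s8_pm_011 : ∃ t, chk3 f_pm_011 t 1 1 1 = true := ex3_b k0_pm_011 s7_pm_011

theorem c_pm_011 : CertB 0 536870912 536870912 536870912 649613803 48318383 3 eng mog cd0q0 cd0q1 pd1 false true false .pnn 0 1 1
    ndB0q0 ndB0q1 pcB1 cut_pm_011 Ext.none :=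
  certB0 (fam := false) (s1 := true) (s2 := false) (a := 0) (b := 1) (c := 1) (cn := .pnn) (n1 := ndB0q0) (n2 := ndB0q1) (pc := pcB1) (cut := cut_pm_011) (xt := Ext.none) (P1 := 0) (W1 := 536870912) (P2 := 536870912) (W2 := 536870912) (P3 := 649613803) (W3 := 48318383) (N0 := 3) (En := eng) (mo := mog) (C1 := cd0q0) (C2 := cd0q1) (C3 := pd1)
    rfl s8_pm_011

noncomputable def cut_pm_012 : Cut := Cut.of [[⟨3, 0, 0, 1449551462⟩], [⟨4, 0, 0, 2845415833⟩], [⟨0, 0, 0, 67108864⟩, ⟨1, 1, 0, 67108864⟩, ⟨2, 1, 0, 67108864⟩]]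

noncomputable def f_pm_012 : ℕ → ℕ → ℕ → ℕ → Bool := onCell 0 536870912 0 536870912 649613803 48318383
    (rowB 3 eng mog cd0q0 cd0q2 pd1 0 false true false .pnp 0 1 2 (qsf 0 536870912 0 536870912 1) ndB0q0 ndB0q2 pcB1 cut_pm_012 Ext.none)

def k0_pm_012 : ∃ t, chk3 f_pm_012 t 2 2 1 = true :=
  ⟨(a (b (l 2) (a (l 2) (a (l 2) (b (l 2) (a (l 2) (b (l 2) (a (l 2) (b (l 16492672) (l 16487136))))))))) (b (a (a (a (l 2) (b (l 16487760) (b (l 16495992) (l 16493664)))) (b (b (l 16498312) (l 16512016)) (b (l 16505608) (b (l 16502240) (l 16497952))))) (b (a (b (l 16535208) (l 16527432)) (l 16542640)) (a (b (l 16519256) (l 16541800)) (b (l 16529864) (l 16518944))))) (a (b (a (b (a (b (l 2) (l 16480440)) (b (l 16487736) (l 16484784))) (a (a (l 2) (b (l 16479728) (b (l 16479104) (l 16479080)))) (b (l 16482752) (a (l 16480936) (l 16482712))))) (b (b (l 16494000) (a (l 16488824) (l 16492704))) (a (b (l 16486544) (l 16485240)) (b (l 16490160) (l 16488480))))) (b (a (a (b (a (a (l 2) (l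 16478368)) (l 16479624)) (a (a (l 16479608) (l 16480320)) (l 16481344))) (b (a (l 16481224) (l 16482744)) (a (l 16482624) (l 16483832)))) (a (b (l 16484904) (l 16485520)) (b (l 16487640) (l 16487624)))) (a (a (b (a (l 16483264) (l 16484256)) (a (l 16487760) (l 16488296))) (b (a (l 16485152) (l 16485968)) (l 16488936))) (a (b (l 16487080) (l 16489536)) (b (l 16488416) (l 16489976)))))) (b (a (b (a (b (l 16500096) (l 16496568)) (l 16502528)) (a (b (l 16493760) (l 16491680)) (b (l 16497520) (l 16495040)))) (b (a (l 16507040) (l 16511984)) (a (b (l 16501600) (l 16498696)) (b (l 16506064) (l 16502712))))) (a (b (a (b (l 16490328) (l 16489680)) (b (l 16493168) (l 16491880))) (a (b (l 16489712) (l 16490368)) (b (l 16491136) (l 16490896)))) (b (a (b (l 16496288) (l 16494352)) (b (l 16499752) (l 16497160))) (a (b (l 16492832) (l 16491704)) (b (l 16494864) (l 16492848))))))))), by decide +kernel⟩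

def k1_pm_012 : ∃ t, chk3 f_pm_012 t 4 3 1 = true :=
  ⟨(b (a (l 2) (b (a (l 2) (b (a (b (l 2) (l 16501152)) (b (a (l 16493056) (l 16493240)) (l 16500568))) (a (b (l 16510728) (l 16521184)) (b (l 16508920) (l 16518064))))) (a (a (b (l 2) (b (l 16567784) (l 16579968))) (b (l 16542664) (b (l 16561472) (l 16570184)))) (b (a (l 16537976) (l 16532888)) (b (l 16549384) (l 16556592)))))) (b (a (b (b (l 2) (l 14)) (l 14)) (a (b (a (b (l 16590576) (l 14)) (l 16585216)) (l 14)) (b (a (l 16574760) (l 16564880)) (a (b (l 16589912) (l 14)) (b (l 16578736) (l 16588824)))))) (l 14))), by decide +kernel⟩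

def k2_pm_012 : ∃ t, chk3 f_pm_012 t 5 3 1 = true :=
  ⟨(b (b (a (b (a (a (b (l 16493368) (l 16499640)) (b (l 16493232) (l 16498376))) (a (b (l 16492816) (l 16496824)) (l 16514696))) (a (b (a (l 16506760) (l 16504264)) (l 16512744)) (b (l 16500056) (l 16504672)))) (a (b (a (l 16492552) (l 16491536)) (b (l 16494248) (l 16496336))) (b (b (l 16511944) (l 16490016)) (b (l 16489352) (l 16488984))))) (a (a (b (l 16524600) (l 16569232)) (b (l 16512632) (l 16523792))) (a (b (l 16500464) (l 16507592)) (b (l 16489400) (l 16491872))))) (b (a (a (b (l 16553600) (a (a (l 16575440) (l 16570000)) (l 16583040))) (a (b (l 16537968) (l 16530840)) (b (l 16529632) (l 16541792)))) (b (a (l 16559008) (a (l 16522640) (l 16493016))) (a (a (l 16531808) (l 16521592)) (l 16568744)))) (a (b (a (b (a (l 16587088) (l 16575168)) (l 14)) (b (a (l 16563648) (l 16552360)) (a (l 16572352) (l 16560224)))) (a (l 14) (b (a (l 14) (l 16589536)) (l 14)))) (b (a (a (a (l 16547576) (l 16541608)) (b (l 16529552)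 (l 16535384))) (b (l 16512168) (l 16558704))) (a (b (a (l 16555056) (l 16541504)) (a (l 16562040) (l 16547656))) (b (l 16521656) (a (l 16533576) (l 16519592)))))))), by decide +kernel⟩

def k3_pm_012 : ∃ t, chk3 f_pm_012 t 6 2 1 = true :=
  ⟨(b (a (b (a (a (l 16550944) (l 16557808)) (a (l 16565640) (l 16574248))) (a (a (b (l 16537368) (l 16527864)) (b (l 16543024) (l 16534184))) (b (l 16552632) (a (l 16540240) (l 16546520))))) (b (a (a (l 16583512) (l 16593496)) (b (a (l 16611648) (l 16622424)) (a (l 16595880) (l 16605952)))) (a (a (b (l 16563952) (l 16553720)) (b (l 16572752) (l 16561736))) (b (a (l 16581912) (l 16591200)) (a (l 16570056) (l 16578512)))))) (a (b (a (b (a (l 16517440) (l 16523448)) (a (b (l 16510984) (l 16507160)) (b (l 16516408) (l 16512096)))) (b (a (l 16529944) (b (l 16539688) (l 16533920))) (a (b (l 16522304) (l 16517480)) (b (l 16528632) (a (l 16521768) (l 16525080)))))) (a (b (a (b (l 16503632) (l 16500368)) (b (l 16507992) (l 16504056))) (a (b (l 16497296)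 (l 16494400)) (b (l 16500208) (l 16496432)))) (b (a (b (l 16512792) (l 16508192)) (b (a (l 16516728) (l 16520056)) (a (l 16511888) (l 16515136)))) (a (b (a (l 16502696) (l 16504592)) (a (l 16498288) (l 16500088))) (b (l 16508664) (a (l 16502544) (l 16505088))))))) (b (b (a (a (b (l 16546912) (l 16541712)) (b (l 16554656) (l 16550216))) (a (b (l 16562456) (l 16557784)) (l 16567936))) (a (b (a (l 16536288) (l 16544504)) (a (l 16530888) (l 16538688))) (b (a (l 16552784) (l 16560368)) (a (l 16546448) (l 16554080))))) (a (b (a (b (l 16525528) (l 16520152)) (b (l 16532832) (l 16526856))) (b (a (l 16514632) (l 16520640)) (a (b (l 16510376) (l 16507496)) (b (l 16515784) (l 16512472))))) (b (a (b (l 16540096) (l 16533544)) (b (l 16547248) (l 16540112))) (a (b (l 16526632) (l 16519328)) (b (l 16532512) (l 16524392)))))))), by decide +kernel⟩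

def k4_pm_012 : ∃ t, chk3 f_pm_012 t 7 2 1 = true :=
  ⟨(b (a (b (a (b (a (l 16633280) (b (l 16648936) (l 16639488))) (a (l 16616088) (l 16626224))) (b (a (b (l 6) (l 16650184)) (l 6)) (a (l 16636248) (l 16646048)))) (a (b (a (l 16600544) (l 16609888)) (a (l 16587032) (l 16595544))) (b (a (l 16619096) (l 16628056)) (a (l 16603912) (l 16612040))))) (b (a (b (l 6) (a (b (l 6) (l 16650720)) (l 6))) (l 6)) (a (b (a (l 16636832) (l 16645496)) (a (l 16619984) (l 16627848))) (b (a (b (l 6) (l 16649336)) (l 6)) (a (l 16635752) (l 16643872)))))) (b (a (a (b (a (l 16575592) (l 16583248)) (a (b (l 16567464) (l 16561584)) (b (l 16574584) (l 16568152)))) (b (a (l 16590768) (l 16598048)) (a (l 16578128) (l 16584416)))) (a (b (a (l 16605168) (l 16612216)) (a (l 16590552) (l 16596648))) (b (a (l 16640376) (l 16626840)) (a (l 16603024) (l 16609568))))) (a (a (b (a (b (l 16554192) (l 16546488)) (l 16556864)) (a (b (l 16538176) (l 16529232)) (l 16538736))) (b (b (a (l 16567032) (l 16572328))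 (l 16560896)) (a (l 16543160) (l 16546968)))) (b (a (b (l 16580232) (a (l 16567776) (l 16572200))) (a (l 16582856) (l 16588000))) (a (a (l 16550344) (l 16553768)) (b (l 16565888) (l 16550664))))))), by decide +kernel⟩

def k5_pm_012 : ∃ t, chk3 f_pm_012 t 6 3 1 = true :=
  ⟨(b (a (b (a (b (a (b (l 16491672) (l 16489128)) (b (l 16492752) (l 16489208))) (a (l 16485744) (b (l 16485984) (l 16483136)))) (b (a (b (a (l 16494088) (l 16495832)) (l 16490960)) (b (l 16498920) (l 16494000))) (b (l 16488088) (l 16483768)))) (a (b (a (l 16482688) (l 16480200)) (l 16564312)) (b (l 16478080) (l 16472096)))) (b (b (a (b (a (l 16503128) (l 16507400)) (a (l 16497176) (l 16500416))) (a (b (l 16511656) (l 16503640)) (b (l 16515784) (l 16506712)))) (a (b (l 16492160) (l 16485392)) (b (l 16496280) (l 16487016)))) (a (b (l 16475832) (l 16464504)) (b (l 16473496) (l 16456640))))) (b (a (a (b (l 16481896) (l 16485408)) (b (l 16457664) (l 16466048))) (a (b (l 16455160) (l 16447240)) (b (l 16441576)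 (l 16427520)))) (a (b (a (l 16490328) (l 16465008)) (a (a (b (l 16501776) (l 16505472)) (b (l 16488192) (l 16491072))) (b (l 16467312) (a (l 16476400) (l 16461520))))) (b (a (l 16439568) (l 16435544)) (a (a (l 16446440) (b (l 16432096) (l 16431816))) (a (b (l 16418632) (l 16417640)) (l 16447264))))))), by decide +kernel⟩

def k6_pm_012 : ∃ t, chk3 f_pm_012 t 7 3 1 = true :=
  ⟨(b (a (b (a (b (a (l 16514736) (l 16517688)) (b (l 16499408) (l 16487488))) (b (a (l 16520016) (l 16521608)) (l 16576648))) (a (b (l 16469712) (l 16446888)) (b (l 16462664) (l 16432920)))) (a (b (b (l 16544208) (l 16488880)) (l 16442808)) (b (b (l 16524424) (l 16483264)) (l 16461248)))) (b (a (b (a (l 16425536) (l 16404168)) (a (l 16436176) (l 16451208))) (a (b (l 16394432) (b (l 16383624) (l 16397864))) (b (l 16389720) (b (l 16376216) (l 16388160))))) (a (b (a (l 16393792) (a (l 16381736) (l 16375560))) (a (a (l 16414400) (l 16382744)) (b (l 16392720) (a (l 16371584) (l 16363648))))) (b (a (a (l 16369960)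 (l 16364464)) (a (l 16358768) (l 16352608))) (a (b (a (l 16361640) (l 16355120)) (a (l 16356328) (c (l 16353000) (l 16345016)))) (b (a (l 16348424) (l 16341256)) (a (c (l 16345984) (l 16337328)) (c (b (l 16340032) (a (l 16338776) (l 16334728))) (l 16329240))))))))), by decide +kernel⟩

theorem s7_pm_012 : ∃ t, chk3 f_pm_012 t 3 3 1 = true := ex3_a k5_pm_012 k6_pm_012

theorem s8_pm_012 : ∃ t, chk3 f_pm_012 t 3 2 1 = true := ex3_a k3_pm_012 k4_pm_012

theorem s9_pm_012 : ∃ t, chk3 f_pm_012 t 3 1 1 = true := ex3_b s8_pm_012 s7_pm_012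

theorem s10_pm_012 : ∃ t, chk3 f_pm_012 t 2 3 1 = true := ex3_a k1_pm_012 k2_pm_012

theorem s11_pm_012 : ∃ t, chk3 f_pm_012 t 2 1 1 = true := ex3_b k0_pm_012 s10_pm_012

theorem s12_pm_012 : ∃ t, chk3 f_pm_012 t 1 1 1 = true := ex3_a s11_pm_012 s9_pm_012

theorem c_pm_012 : CertB 0 536870912 0 536870912 649613803 48318383 3 eng mog cd0q0 cd0q2 pd1 false true false .pnp 0 1 2
    ndB0q0 ndB0q2 pcB1 cut_pm_012 Ext.none :=
  certB0 (fam := false) (s1 := true) (s2 := false) (a := 0) (b := 1) (c := 2) (cn := .pnp) (n1 := ndB0q0) (n2 := ndB0q2) (pc := pcB1) (cut := cut_pm_012) (xt := Ext.none) (P1 := 0) (W1 := 536870912) (P2 := 0) (W2 := 536870912) (P3 := 649613803) (W3 := 48318383) (N0 := 3) (En := eng) (mo := mog) (C1 := cd0q0) (C2 := cd0q2) (C3 := pd1)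
    rfl s12_pm_012

noncomputable def cut_pm_022 : Cut := Cut.of [[⟨3, 0, 0, 1449551462⟩], [⟨4, 0, 0, 2845415833⟩], [⟨0, 0, 0, 67108864⟩, ⟨1, 1, 0, 67108864⟩, ⟨2, 1, 0, 67108864⟩]]

noncomputable def f_pm_022 : ℕ → ℕ → ℕ → ℕ → Bool := onCell 1073741824 536870912 0 536870912 649613803 48318383
    (rowB 3 eng mog cd0q0 cd0q2 pd2 2 false true false .pp 0 2 2 (qsf 0 536870912 0 536870912 2) ndB0q0 ndB0q2 pcB2 cut_pm_022 Ext.none)

def k0_pm_022 : ∃ t, chk3 f_pm_022 t 4 4 1 = true :=
  ⟨(a (b (a (b (c (a (b (c (b (l 16519048) (l 16517176)) (l 16511888)) (l 16510784)) (a (l 16504456) (l 16499264))) (a (b (l 16505112) (l 16501968)) (l 16494752))) (c (a (c (l 16507432) (l 16502680)) (l 16495368)) (a (l 16497800) (l 16490368)))) (a (c (b (l 16492128) (l 16487208)) (l 16485592)) (l 16480720))) (a (b (c (a (a (l 16500528) (l 16496344)) (a (l 16492488) (l 16488960))) (a (l 16493688) (l 16487816))) (a (c (c (b (l 16496192) (a (l 16495992) (l 16492840))) (l 16493296)) (l 16513024)) (c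 (l 16512056) (l 16487248)))) (b (a (l 16483296) (l 16478784)) (b (l 16523088) (l 16520520))))) (b (a (a (l 16475344) (l 16471128)) (b (l 16460832) (l 16458960))) (b (a (l 16470568) (l 16480448)) (a (a (l 16471488) (l 16467144)) (a (l 16463744) (l 16461232)))))), by decide +kernel⟩

def k1_pm_022 : ∃ t, chk3 f_pm_022 t 4 5 1 = true :=
  ⟨(a (b (b (b (a (a (c (c (l 16493320) (l 16492464)) (l 16485344)) (l 16484216)) (l 16497640)) (a (a (c (l 16521376) (c (l 16483032) (l 16477448))) (c (l 16484096) (l 16477056))) (a (l 16477024) (l 16474032)))) (b (a (a (c (c (l 16488088) (l 16483912)) (l 16497272)) (a (l 16479120) (l 16477736))) (a (l 16476032) (l 16474400))) (a (a (a (c (l 16484168) (l 16473720)) (l 16499296)) (a (l 16477520) (l 16476888))) (a (l 16476256) (l 16475984))))) (b (a (a (b (a (c (l 16482224) (l 16472008)) (l 16498208)) (a (c (l 16481560) (l 16471784)) (l 16477536))) (b (a (l 16477200) (l 16477312)) (a (l 16478264) (l 16479128)))) (a (b (l 16477760) (l 16480664))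 (b (l 16478856) (l 16483128)))) (a (a (b (a (c (l 16482336) (l 16473216)) (l 16479376)) (a (l 16480664) (b (l 16481784) (l 16483664)))) (b (a (l 16480880) (l 16482496)) (b (l 16484712) (l 16509000)))) (b (a (a (l 16484208) (l 16485920)) (b (l 16487296) (l 16490696))) (a (b (l 16510648) (l 16493360)) (l 16496816)))))) (b (a (b (b (l 16470088) (a (l 16471848) (l 16470424))) (a (b (l 16473480) (l 16476336)) (l 16496192))) (a (b (l 16489184) (l 16497088)) (b (l 16488632) (l 16498512)))) (b (b (a (a (l 16480480) (l 16482568)) (a (l 16485104) (b (l 16486008) (l 16489992)))) (a (a (l 16486008) (b (l 16487424) (l 16491128))) (a (b (l 16490728) (l 16495192)) (l 16517904)))) (a (b (a (b (l 16491152) (l 16495288)) (l 16497784)) (a (l 16502272) (l 16507832))) (a (b (l 16502408) (a (l 16512080) (l 16514944))) (b (c (l 16507160) (l 16528776)) (c (l 16518880) (l 16520072)))))))), by decide +kernel⟩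

def k2_pm_022 : ∃ t, chk3 f_pm_022 t 5 2 1 = true :=
  ⟨(a (a (a (b (b (l 16471432) (c (l 16477328) (l 16458264))) (b (b (b (l 16465320) (l 16470144)) (b (l 16475904) (l 16482896))) (b (b (a (l 16511336) (l 16492040)) (l 16500872)) (a (b (l 16510888) (l 1)) (l 1))))) (b (b (c (l 16444864) (l 16447312)) (c (l 16475584) (l 16456488))) (a (b (b (l 16468072) (l 16480888)) (l 1)) (l 1)))) (b (b (l 1) (l 1)) (l 1))) (l 1)), by decide +kernel⟩

def k3_pm_022 : ∃ t, chk3 f_pm_022 t 2 3 1 = true :=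
  ⟨(a (b (a (b (b (a (a (b (b (a (l 16483944) (l 16487096)) (l 16488736)) (l 16494720)) (b (l 16493456) (l 16502440))) (a (b (l 16499944) (l 16510152)) (b (l 16506472) (l 16517792)))) (a (a (b (l 16504144) (l 16515312)) (b (l 16513144) (l 16525576))) (b (a (l 16522048) (l 16551800)) (a (l 16535664) (l 16545544))))) (a (a (b (b (l 16527976) (l 16542072)) (l 16566200)) (b (b (l 16539512) (l 16554840)) (l 16580752))) (b (b (c (l 16556416) (l 16599368)) (a (l 16567240) (l 16576192))) (a (l 16591304) (b (l 16589104) (l 14)))))) (b (a (a (b (b (l 16513008) (l 16546384)) (b (l 16539504) (l 16555288))) (b (b (l 16540568) (c (l 16532864) (l 16533448))) (b (a (l 16545984) (l 16550296)) (a (l 16560360) (c (l 16562568) (l 16560256)))))) (b (b (a (c (l 16525968) (l 16526888)) (a (l 16531240) (l 160557433095))) (a (a (l 16538752) (l 16542552)) (a (a (l 16524216) (l 1)) (l 1)))) (a (a (b (l 16532048) (b (l 91301112055) (l 152504480375))) (b (b (l 99354159175) (a (l 16524256) (l 1))) (c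 (l 413423731591) (l 290480284439)))) (l 1)))) (b (a (a (b (a (l 16567616) (l 16569336)) (a (l 16579248) (c (l 16582192) (l 16579480)))) (b (a (c (l 16571936) (l 16569376)) (c (l 16573432) (l 143377681655))) (b (a (l 16579216) (l 182032416519)) (l 14)))) (a (b (a (c (l 236256361079) (l 258804919847)) (l 1)) (l 1)) (l 1))) (l 14)))) (a (b (a (a (b (b (l 16593160) (l 14)) (l 14)) (l 14)) (l 14)) (l 14)) (l 14))) (b (l 1) (l 1))), by decide +kernel⟩

def k4_pm_022 : ∃ t, chk3 f_pm_022 t 3 1 1 = true :=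
  ⟨(l 1), by decide +kernel⟩

theorem s5_pm_022 : ∃ t, chk3 f_pm_022 t 4 2 1 = true := ex3_b k0_pm_022 k1_pm_022

theorem s6_pm_022 : ∃ t, chk3 f_pm_022 t 2 2 1 = true := ex3_a s5_pm_022 k2_pm_022

theorem s7_pm_022 : ∃ t, chk3 f_pm_022 t 2 1 1 = true := ex3_b s6_pm_022 k3_pm_022

theorem s8_pm_022 : ∃ t, chk3 f_pm_022 t 1 1 1 = true := ex3_a s7_pm_022 k4_pm_022

theorem c_pm_022 : CertB 0 536870912 0 536870912 649613803 48318383 3 eng mog cd0q0 cd0q2 pd2 false true false .pp 0 2 2
    ndB0q0 ndB0q2 pcB2 cut_pm_022 Ext.none :=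
  certB2 (fam := false) (s1 := true) (s2 := false) (a := 0) (b := 2) (c := 2) (cn := .pp) (n1 := ndB0q0) (n2 := ndB0q2) (pc := pcB2) (cut := cut_pm_022) (xt := Ext.none) (P1 := 0) (W1 := 536870912) (P2 := 0) (W2 := 536870912) (P3 := 649613803) (W3 := 48318383) (N0 := 3) (En := eng) (mo := mog) (C1 := cd0q0) (C2 := cd0q2) (C3 := pd2)
    rfl (fun _ => rfl) s8_pm_022

end Pool.Agent.Strip051.G.I6050_6500.Tab.C.BB00

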