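import Pool.Agent.Strip051.G.I6050_6500.Tab

/-! # Certificates B21 (generated) -/

set_option linter.all false
set_option maxRecDepth 100000

namespace Pool.Agent.Strip051.G.I6050_6500.Tab.C.BB01

open Pool.Agent.Strip051.PB Pool.Agent.Strip051.PB.T
open Pool.Agent.Strip051.G.I6050_6500.Tab

noncomputable def cut_pp_012_a : Cut := Cut.of [[⟨0, 0, 0, 53687091⟩, ⟨1, 1, 0, 53687091⟩, ⟨2, 1, 0, 53687091⟩]]

noncomputable def f_pp_012_a : ℕ → ℕ → ℕ → ℕ → Bool := onCell 536870912 536870912 0 536870912 649613803 48318383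
    (rowB 3 eng mog cd0q0 cd1q2a pd1 2 false true true .pnp 0 1 2 (qsf 0 536870912 0 536870912 1) ndB0q0 ndB1q2a pcB1 cut_pp_012_a Ext.none)

def k0_pp_012_a : ∃ t, chk3 f_pp_012_a t 4 1 1 = true :=
  ⟨(b (b (l 2) (l 3)) (l 3)), by decide +kernel⟩

def k1_pp_012_a : ∃ t, chk3 f_pp_012_a t 20 8 1 = true :=
  ⟨(a (l 2) (a (l 2) (a (l 2) (b (l 16775768) (b (b (l 98348039095) (b (a (a (l 2) (a (a (l 2) (b (l 131634033655) (b (l 168745235831) (l 3)))) (b (l 16775040) (b (b (a (a (l 132238013623) (l 109689435207)) (l 16775592)) (c (l 158544688631) (c (l 160155301031) (l 161765913543)))) (l 3))))) (b (l 16774272) (a (a (a (b (a (b (l 16775488) (l 122574337143)) (l 89288340455)) (l 181630137767)) (b (l 16775432) (b (a (l 158007817431) (l 134922368151)) (l 3)))) (b (l 16775216) (a (b (c (l 103246984695) (l 105931338791)) (l 172503332103)) (b (l 16775520) (b (l 112373789671) (l 162302784695)))))) (a (c (l 78014051735) (b (l 16774784) (l 84456502263))) (l 16774880))))) (a (l 3) (b (a (l 3) (b (b (a (a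 (l 164450268375) (b (l 100025758631) (l 150491624503))) (l 83919631271)) (a (l 3) (a (c (l 154786592135) (l 157470946247)) (b (l 16775616) (l 138143593511))))) (l 3))) (l 3))))) (l 3)))))), by decide +kernel⟩

def k2_pp_012_a : ∃ t, chk3 f_pp_012_a t 42 16 1 = true :=
  ⟨(a (l 16771760) (b (l 16745744) (l 16755536))), by decide +kernel⟩

def k3_pp_012_a : ∃ t, chk3 f_pp_012_a t 42 34 1 = true :=
  ⟨(a (b (l 16778552) (a (b (l 16775520) (a (a (a (b (b (l 16775344) (b (a (b (l 132238013447) (l 180556395703)) (b (l 16775576) (l 126332433399))) (l 178408912151))) (l 3)) (b (b (l 16775056) (b (l 16775432) (a (b (l 118279369703) (l 168745235591)) (c (l 98952017255) (l 100025758647))))) (c (l 177335170791) (l 180556395799)))) (b (l 16774864) (a (b (b (a (b (l 105931338631) (l 156397204567)) (l 91435823975)) (c (l 164450268583) (l 167134622679))) (l 3)) (b (b (l 16775352) (a (b (l 93583307543) (l 144049173463)) (l 16775520))) (a (l 3) (b (a (l 168208364663) (b (l 122574336823) (l 3))) (l 3))))))) (b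 (l 16773936) (a (b (l 16775040) (a (a (b (b (l 16775560) (c (l 130627401079) (l 132238013335))) (l 180556395687)) (b (l 16775488) (b (c (l 124184950103) (l 125795562359)) (l 174113944663)))) (a (a (b (l 16775384) (b (l 16775560) (l 134922367815))) (l 81235276551)) (l 16775328)))) (l 16774704))))) (b (l 16770256) (l 16775184)))) (l 16775560)), by decide +kernel⟩

def k4_pp_012_a : ∃ t, chk3 f_pp_012_a t 168 70 1 = true :=
  ⟨(b (a (l 3) (b (b (a (a (l 3) (a (l 176261428455) (b (b (c (l 109689435415) (l 111300047671)) (l 161765913639)) (l 3)))) (a (a (b (c (l 93583308007) (a (l 101636371255) (l 16775392))) (c (l 162302784823) (l 164987138903))) (b (l 16775408) (b (l 98415145719) (c (l 148344141111) (l 150491624199))))) (c (l 78014051479) (l 79087792839)))) (b (a (l 3) (a (l 3) (a (b (a (l 167134622487) (l 130090529543)) (l 3)) (b (l 16775544) (a (l 159081558775) (l 121500594919)))))) (l 3))) (l 3))) (l 3)), by decide +kernel⟩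

def k5_pp_012_a : ∃ t, chk3 f_pp_012_a t 169 70 1 = true :=
  ⟨(b (a (a (b (b (l 16774880) (a (b (l 16775400) (b (a (a (l 150491624167) (l 112910660295)) (l 16775512)) (a (l 179482653751) (a (l 141901689623) (l 102173242023))))) (l 16775240))) (b (a (l 178945783031) (a (b (b (a (c (l 132238013623) (l 133848625879)) (l 93583307399)) (l 166597751815)) (l 3)) (b (a (b (l 16775504) (c (l 123648078999) (l 125258691255))) (l 16775496)) (c (l 165524010263) (l 168208364327))))) (l 3))) (b (l 16774536) (a (b (b (l 16775320) (a (b (a (a (l 125258691207) (l 102173241943)) (l 16775536)) (c (l 153175979207) (c (l 154786591575) (l 155860333143)))) (b (l 16775432) (c (l 95730791495) (l 96804532871))))) (a (l 3) (a (l 176261428343) (b (b (a (l 148344140455) (l 125795562103)) (l 3)) (l 3))))) (b (l 16775160) (b (a (a (b (l 96804532855) (l 162839655111)) (b (l 16775496) (c (l 119889982599) (l 121500594839)))) (l 79087792727)) (a (l 3) (a (l 163376526311) (b (c (l 111300047975) (l 112910660215)) (l 3)))))))))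 (b (l 16773600) (a (b (l 16774720) (a (b (l 16775240) (a (b (l 16775488) (a (l 145122914967) (l 103783854711))) (l 16775408))) (l 16775072))) (l 16774368)))) (b (a (l 3) (a (b (a (a (l 177335170167) (b (b (a (l 136532980423) (l 95193920087)) (l 168208364487)) (l 3))) (a (b (b (l 16775448) (a (l 123648078487) (l 16775520))) (l 167134622679)) (b (l 16775368) (b (c (l 101636371575) (l 103246983815)) (l 155323462535))))) (l 3)) (a (b (b (l 16775152) (c (l 81235276967) (l 82309018279))) (b (a (c (l 156934075543) (l 159618429607)) (b (l 89825210935) (l 142975431415))) (l 3))) (b (l 16774984) (b (l 75866567175) (a (c (l 147807269975) (l 150491624039)) (b (l 16775448) (l 129553658535)))))))) (l 3))), by decide +kernel⟩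

def k6_pp_012_a : ∃ t, chk3 f_pp_012_a t 84 71 1 = true :=
  ⟨(l 3), by decide +kernel⟩

def k7_pp_012_a : ∃ t, chk3 f_pp_012_a t 85 35 1 = true :=
  ⟨(b (a (b (l 16772224) (a (b (c (l 16775944) (l 16775640)) (a (a (b (b (a (b (l 123111207559) (l 171966460791)) (c (l 97341404263) (l 98415145623))) (l 171429589975)) (l 3)) (b (b (l 16775256) (a (a (l 140291076807) (l 117205627575)) (l 89288340039))) (l 169282106375))) (b (l 16774944) (b (b (l 76403438215) (a (a (l 146196656759) (l 16775432)) (l 16775224))) (a (l 158007817047) (a (l 109152563863) (l 16775328))))))) (c (l 16773936) (l 16773592)))) (l 16775960)) (a (b (a (a (l 3) (a (l 3) (a (l 3) (b (b (b (l 141901689559) (l 3)) (l 3)) (l 3))))) (a (b (a (b (b (c (l 89825211495) (l 91435823703)) (c (l 143512302567) (l 146196656599))) (l 3)) (b (l 78550921751) (b (c (l 136532980631) (l 139217334679)) (l 3)))) (l 3)) (a (b (b (l 16774896) (b (l 16775264) (c (l 130090529623) (l 132238012759)))) (l 3)) (b (l 16774848) (b (b (c (l 122574337271) (l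 124184949495)) (l 173577073463)) (l 3)))))) (l 3)) (a (b (b (l 16774080) (b (b (l 16774728) (a (a (c (l 111836918967) (l 117205627639)) (l 16775120)) (l 16774680))) (b (a (a (l 166597751543) (l 105931338423)) (l 16774928)) (a (l 165524009815) (a (l 99488887399) (l 16775024)))))) (b (b (a (l 3) (a (l 160155300599) (b (l 92509565447) (l 146196656695)))) (l 3)) (l 3))) (b (l 16773344) (b (a (b (l 74255954311) (a (l 151028494967) (a (l 117205627719) (l 93583307351)))) (l 16774608)) (b (a (l 3) (a (c (l 139754205943) (l 142438559975)) (a (l 105394467495) (l 16775128)))) (l 174113944647))))))), by decide +kernel⟩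

def k8_pp_012_a : ∃ t, chk3 f_pp_012_a t 43 8 1 = true :=
  ⟨(b (b (a (b (l 16738168) (l 16742920)) (l 16735232)) (a (l 16750208) (l 16744672))) (b (a (l 16780680) (l 16754320)) (a (b (l 16777216) (a (b (l 16771400) (b (l 16775648) (a (b (l 16774456) (a (a (a (l 141364818391) (l 117205627623)) (l 88214598119)) (l 16774656))) (l 16773456)))) (l 16769864))) (l 16774096)))), by decide +kernel⟩

def k9_pp_012_a : ∃ t, chk3 f_pp_012_a t 10 9 1 = true :=
  ⟨(a (l 3) (b (a (l 3) (b (a (b (b (a (a (b (a (l 168208364487) (b (a (a (l 129553658183) (l 105394467399)) (l 16775008)) (l 156934074983))) (l 3)) (a (a (b (b (l 16774712) (l 107005080247)) (l 3)) (b (l 16774656) (c (l 152102237031) (l 154786591031)))) (b (l 16774192) (a (b (l 96804532903) (l 168745234983)) (b (l 16774816) (l 129553658023)))))) (a (a (c (l 66739762119) (l 66739761623)) (l 16773456)) (l 16772488))) (a (l 3) (a (b (a (a (l 164450267815) (b (l 115595014983) (l 3))) (b (l 16774760) (a (l 148344140071) (l 105931338391)))) (l 3)) (b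 (l 16775400) (a (a (l 151028494759) (b (l 95730790887) (l 166060880247))) (a (b (l 16774712) (l 127406174199)) (l 75329696199))))))) (a (l 3) (a (l 3) (a (l 3) (b (l 168208364583) (l 3)))))) (b (a (a (b (l 16771176) (l 16775968)) (l 16770952)) (l 16768960)) (a (b (a (a (b (b (a (l 115595014791) (l 16774816)) (l 152102236439)) (l 3)) (b (c (l 80161535175) (b (l 16774192) (l 91972694567))) (c (l 151028495031) (l 154249719959)))) (b (l 16773664) (a (b (l 83919630983) (a (l 163376525527) (l 123111207527))) (l 69960987223)))) (a (l 3) (a (l 3) (a (l 164450267959) (b (b (l 112373789127) (l 3)) (l 3)))))) (b (c (l 16772464) (l 16772048)) (a (a (b (b (l 16774552) (a (l 141901688759) (l 102173241623))) (l 3)) (b (l 16774192) (a (l 145659785287) (b (l 91435823191) (l 159618428951))))) (a (a (b (l 16773712) (b (l 16774504) (l 119353110951))) (l 63518535975)) (l 16773440))))))) (a (l 3) (b (a (l 3) (b (a (l 3) (a (l 162839655207) (b (b (a (l 109152563463) (l 16774608)) (l 145659785143)) (l 3)))) (l 3)))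 (l 3))))) (l 3))), by decide +kernel⟩

def k10_pp_012_a : ∃ t, chk3 f_pp_012_a t 10 5 1 = true :=
  ⟨(l 3), by decide +kernel⟩

def k11_pp_012_a : ∃ t, chk3 f_pp_012_a t 22 8 1 = true :=
  ⟨(b (a (b (l 16726848) (a (b (l 16737016) (l 16741648)) (l 16733816))) (l 16720384)) (a (a (l 16774512) (b (l 16753560) (l 16752616))) (b (a (l 16758528) (l 16731648)) (a (l 16746880) (l 16761720))))), by decide +kernel⟩

def k12_pp_012_a : ∃ t, chk3 f_pp_012_a t 22 18 1 = true :=
  ⟨(a (b (a (a (b (l 16766272) (c (l 16776192) (l 16775704))) (l 16776280)) (l 16772168)) (a (b (a (b (a (a (b (c (l 75329696599) (l 75329696183)) (c (l 145659785559) (l 148344139591))) (b (l 16773752) (b (l 78014050535) (a (l 155860332391) (l 116131885447))))) (c (l 57076085479) (l 56539214055))) (a (l 3) (b (a (a (l 153175977975) (b (l 105394467031) (l 3))) (a (b (l 16774496) (l 134922366519)) (l 79624663207))) (l 164987138615)))) (b (l 16771336) (a (b (l 16773632) (a (b (a (l 122574336199) (l 82309017431)) (l 155323461479)) (a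 (b (l 16774280) (l 111836917943)) (l 16774224)))) (l 16775488)))) (a (l 3) (b (a (b (c (l 154786591303) (l 158007816263)) (l 3)) (a (b (b (a (l 101099499527) (l 16774376)) (l 139217333815)) (l 3)) (b (c (l 68887245351) (b (l 16773752) (l 77477179287))) (a (l 160155299751) (b (l 117742497943) (l 3)))))) (l 3)))) (b (a (l 16775000) (l 16767024)) (a (b (a (b (l 16773176) (a (b (l 69424115495) (a (l 146733526503) (l 107541950439))) (l 57612955239))) (l 16772400)) (b (a (a (l 3) (b (a (l 135996108103) (a (l 105931337495) (l 82845887991))) (l 3))) (b (l 16773768) (a (a (a (l 139217334023) (l 115595013911)) (l 81235275511)) (l 16773984)))) (a (l 3) (a (l 157470945191) (a (b (a (l 125795561223) (l 102710111911)) (l 3)) (b (l 70497856903) (l 141364817175))))))) (a (b (l 16771056) (b (l 16772712) (b (l 16773536) (a (a (a (l 112373788407) (l 89288338919)) (l 16774248)) (l 16773752))))) (l 16773432)))))) (b (l 16774112) (a (b (l 16762848) (a (l 16774000) (l 16765976))) (l 16769896)))), by decide +kernel⟩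

def k13_pp_012_a : ∃ t, chk3 f_pp_012_a t 44 19 1 = true :=
  ⟨(b (a (l 3) (b (a (l 3) (b (b (b (a (b (a (a (l 3) (l 115595013719)) (l 16774168)) (a (l 3) (a (l 102173240823) (l 16774272)))) (l 16773304)) (a (a (l 3) (a (l 157470944647) (b (c (l 93583306503) (l 94120176999)) (l 147807267991)))) (a (a (a (a (l 89825209623) (l 77477178327)) (l 16774272)) (l 16774024)) (l 16773520)))) (a (l 3) (a (b (a (l 146196655335) (b (l 78014049479) (c (l 130627398839) (l 132774882087)))) (l 3)) (a (a (b (l 66739760119) (l 152639106231)) (b (l 16774152) (b (l 109689433271) (l 3)))) (b (l 16773904) (b (l 16774312) (a (l 136532978871) (c (l 97878273399) (l 98952014903))))))))) (l 3))) (l 3))) (l 3)), by decide +kernel⟩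

def k14_pp_012_a : ∃ t, chk3 f_pp_012_a t 90 76 1 = true :=
  ⟨(b (a (a (a (a (c (l 16774744) (l 16774472)) (l 16772960)) (l 16772456)) (l 16771432)) (l 16769360)) (b (a (a (a (a (b (b (a (c (l 124184948247) (l 126332431511)) (c (l 81235275015) (l 81235274631))) (l 154249718887)) (l 3)) (b (b (l 16774200) (a (b (l 87677725607) (l 141364816807)) (l 70497856311))) (c (l 148881010039) (l 152102235127)))) (b (l 16773840) (b (a (a (b (l 72108468967) (l 125258689447)) (l 16774336)) (l 16774088)) (b (a (a (l 3) (c (l 116131884247) (l 117742496647))) (l 16774296)) (a (l 3) (a (a (l 129016785687) (l 84456499927)) (l 16774344))))))) (c (l 16774544) (l 16774288))) (l 16773672)) (a (b (a (a (l 3) (a (l 3) (a (l 151565364359) (b (b (a (l 117742496519) (l 73719081607)) (l 142438558567)) (l 3))))) (a (a (a (b (a (b (l 16774360) (c (l 100562627591) (l 101099498231))) (l 57076083335)) (c (l 137606720583) (l 140827945687))) (b (l 16774216) (b (c (l 71034727463) (l 70497856199)) (c (l 123648076983) (l 125795560263)))))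 (b (l 16773968) (c (l 52781116439) (c (l 51170503495) (l 50096761575))))) (l 16773600))) (a (l 3) (a (a (l 3) (b (a (a (l 145659784039) (b (l 96804531175) (l 3))) (b (l 16774360) (c (l 107541949607) (l 108615691223)))) (l 3))) (a (b (l 16774176) (a (a (l 131701140391) (c (l 100562627815) (l 101099498519))) (b (l 16774296) (l 84456500423)))) (l 16773976))))) (a (a (l 16774504) (l 16772512)) (l 16771480))))), by decide +kernel⟩

def k15_pp_012_a : ∃ t, chk3 f_pp_012_a t 90 77 1 = true :=
  ⟨(a (b (b (b (a (l 3) (a (l 3) (a (l 147270397015) (b (a (b (l 75866565927) (l 130090528007)) (l 59223567303)) (l 137069849431))))) (l 3)) (l 3)) (l 3)) (b (b (a (a (a (a (b (b (l 16774128) (c (l 85530242535) (l 84993371399))) (l 3)) (b (l 16774096) (b (l 118816239031) (l 3)))) (b (l 16773848) (b (c (l 65129147607) (l 63518534791)) (c (l 119353109335) (l 120963721671))))) (b (l 16773336) (c (l 47949278359) (l 45264923527)))) (l 16772584)) (a (a (l 3) (b (a (b (a (l 134922365607) (l 88214597287)) (l 3)) (b (l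 16774120) (c (l 100025757527) (l 100562628023)))) (l 3))) (a (b (l 16773744) (a (b (c (l 91435822903) (l 91972693399)) (l 141364816599)) (b (l 16773992) (l 76403437367)))) (l 16773336)))) (a (l 3) (b (b (a (l 141364816871) (a (b (l 67813502647) (l 124184947207)) (l 52244245815))) (a (l 3) (a (l 3) (l 125795560023)))) (l 3))))), by decide +kernel⟩

def k16_pp_012_a : ∃ t, chk3 f_pp_012_a t 91 38 1 = true :=
  ⟨(a (b (b (l 16766560) (l 16768832)) (b (c (l 16773872) (l 16773488)) (a (a (a (b (b (l 16773648) (a (l 87677726535) (l 64592277015))) (l 3)) (b (l 16773584) (a (l 137606720343) (b (l 96267661175) (l 3))))) (b (l 16773064) (a (b (l 65129148311) (l 139754203799)) (b (l 16773720) (a (l 105394466711) (l 81772146471)))))) (a (a (b (l 16772544) (l 47412406919)) (l 16772752)) (l 16772232))))) (b (l 16764848) (c (l 16774856) (l 16774352)))), by decide +kernel⟩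

def k17_pp_012_a : ∃ t, chk3 f_pp_012_a t 45 39 1 = true :=
  ⟨(a (l 3) (b (a (b (a (l 3) (b (a (a (l 134922365735) (b (l 79087792295) (l 3))) (b (l 16773616) (a (l 115595012343) (l 66739761079)))) (l 145122913735))) (l 3)) (b (a (b (l 16772848) (a (b (a (l 93046435943) (l 16773848)) (l 133311752727)) (a (b (l 16773512) (l 80698404887)) (l 16773440)))) (l 16774624)) (a (b (c (l 133848624487) (l 135996107607)) (l 3)) (a (b (b (l 58149826327) (l 115058141287)) (l 3)) (b (l 44191181623) (c (l 116668755111) (b (l 105931335287) (l 3)))))))) (l 3))), by decide +kernel⟩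

def k18_pp_012_a : ∃ t, chk3 f_pp_012_a t 23 4 1 = true :=
  ⟨(b (a (b (l 16708832) (b (l 16722592) (a (l 16755936) (l 16728664)))) (b (l 16697024) (l 16714936))) (b (a (b (a (l 16744088) (b (l 16735392) (l 16739960))) (a (l 16753448) (l 16747152))) (b (a (l 16752496) (l 16725016)) (a (l 16740448) (b (l 16731704) (l 16736104))))) (a (b (a (b (l 16770928) (a (l 16771736) (l 16763544))) (c (l 16778304) (l 16766296))) (b (a (a (b (l 16775120) (a (a (b (l 16772624) (a (b (l 16773640) (l 112910659591)) (l 53854858823))) (l 16772480)) (l 16771416))) (c (l 16773664) (l 16773016))) (c (l 16774520) (l 16773480))) (a (a (b (a (a (l 3) (b (b (l 79624663655) (l 133311752407)) (l 3))) (a (b (c (l 57076084551) (l 53317987847)) (l 128479914343)) (b (l 16772744) (b (l 57612955719) (l 113447528215))))) (l 3)) (a (b (c (l 36674989767) (l 31843150999)) (b (a (c (l 112910657767) (l 113984398919)) (b (l 16773264) (l 85530243527))) (l 3))) (b (l 16770760) (b (l 16772456) (a (b (l 75329696247) (l 128479913767)) (a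 (l 60297310215) (l 16773024))))))) (a (b (l 16768496) (a (l 16774160) (l 16770024))) (c (l 16766992) (l 16766120)))))) (b (a (l 16760568) (l 16743384)) (a (b (l 16767584) (a (l 16763368) (l 16760112))) (c (l 16774768) (l 16762216))))))), by decide +kernel⟩

def k19_pp_012_a : ∃ t, chk3 f_pp_012_a t 22 5 1 = true :=
  ⟨(l 3), by decide +kernel⟩

def k20_pp_012_a : ∃ t, chk3 f_pp_012_a t 46 10 1 = true :=
  ⟨(b (b (a (b (a (l 3) (b (a (l 3) (b (l 125795559783) (l 3))) (l 3))) (l 3)) (b (a (b (a (a (b (b (l 56002342775) (l 109152560375)) (l 3)) (b (l 39896214199) (c (l 108615689959) (l 109152560055)))) (a (b (l 16772104) (b (l 16772952) (l 83382759415))) (l 16774536))) (a (l 3) (a (l 3) (b (b (l 74792824487) (l 125795558519)) (l 3))))) (b (c (l 16775568) (l 16774920)) (a (a (b (c (l 52244245447) (l 46875535543)) (l 119353107623)) (b (l 16772088) (b (l 53317986951) (l 107005075943)))) (b (l 16770928) (c (l 34527504375) (l 27011311015)))))) (a (l 3) (b (a (l 3) (b (a (c (l 106468205591) (l 106468204567))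 (b (l 16772512) (a (l 106468206759) (l 68887243031)))) (l 3))) (l 3))))) (l 3)) (l 3)), by decide +kernel⟩

def k21_pp_012_a : ∃ t, chk3 f_pp_012_a t 47 40 1 = true :=
  ⟨(a (b (a (b (l 16766840) (a (l 16772552) (l 16768336))) (c (l 16765304) (l 16769456))) (a (b (a (a (b (l 16772024) (a (l 108078817383) (b (l 57612953239) (l 122037460919)))) (b (l 16771240) (a (b (l 16772280) (l 80698402551)) (l 32916889655)))) (c (l 16770968) (l 16772912))) (a (b (c (l 117742495079) (l 118279364823)) (l 3)) (a (b (c (b (l 53317985543) (l 103783850055)) (b (l 47949275223) (l 103783848839))) (l 3)) (b (c (l 37211857575) (c (l 16773048) (l 16772752))) (b (c (l 95193915079) (l 94657042887)) (l 3)))))) (b (c (l 16773888) (l 16773032)) (a (b (l 16772024) (b (c (l 29695664311) (l 21642599591)) (a (a (l 107541945303) (a (l 79087788135) (l 57612951319))) (l 16772352)))) (c (l 16770080) (l 16771912)))))) (b (a (l 16766696) (l 16758088)) (a (b (l 16770168) (c (l 16772952) (l 16771992))) (c (l 16763392) (l 16767328))))),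 by decide +kernel⟩

def k22_pp_012_a : ∃ t, chk3 f_pp_012_a t 94 41 1 = true :=
  ⟨(b (a (l 3) (b (b (a (a (l 3) (b (a (c (l 91972690775) (l 90362076423)) (b (l 16771912) (l 64592272839))) (l 118279363607))) (b (c (l 16771440) (l 16770704)) (a (a (c (l 80698401031) (l 78550915623)) (c (l 16772160) (l 16771440))) (l 16771208)))) (a (l 3) (a (c (l 111300042455) (b (l 109152556951) (l 3))) (a (b (b (l 38822468055) (a (l 112910653767) (l 78550915271))) (l 3)) (c (b (l 16771928) (l 93583301223)) (b (l 16771176) (c (l 89825204663) (l 88751461943)))))))) (l 3))) (l 3)), by decide +kernel⟩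

def k23_pp_012_a : ∃ t, chk3 f_pp_012_a t 95 82 1 = true :=
  ⟨(b (a (a (a (b (l 16770128) (b (l 16770952) (a (b (l 16771544) (c (l 64592272519) (l 60297303431))) (l 16771280)))) (c (l 16772920) (l 16770784))) (c (l 16771736) (l 16770832))) (c (l 16769328) (c (l 16771136) (l 16770616)))) (a (a (b (a (b (a (l 114521264871) (a (c (l 91435818119) (l 90362074535)) (b (l 37211853895) (l 102710104871)))) (l 3)) (a (c (b (l 40969951175) (l 102710106471)) (b (c (l 16771864) (l 29158789863)) (c (l 102710105223) (l 102710104439)))) (b (l 16771016) (b (c (l 16771824) (l 34527498599)) (c (l 86603979335) (a (l 109689426599) (l 74255946279))))))) (l 3)) (a (b (b (l 16770424) (c (l 26474436167) (c (l 16770736) (l 16770992)))) (a (b (b (a (c (l 96804526519) (l 98952007847)) (c (l 65666013191) (a (l 73182203943) (l 16770960)))) (l 3)) (l 3)) (b (b (c (l 16771576) (l 16770720)) (a (c (l 86067107959) (b (l 65666010807) (l 115595005671))) (c (l 16771888) (c (l 16771072) (l 40433077783))))) (b (c (l 109689427847)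 (l 110226295687)) (l 3))))) (b (c (l 16770336) (l 16769464)) (c (b (l 16771120) (b (a (a (l 75866560215) (l 16771600)) (l 16771312)) (a (l 101636363927) (a (a (l 72645334503) (l 16771608)) (l 16771472))))) (b (c (l 16770456) (l 16770048)) (b (a (a (c (l 73719075239) (c (l 71571591111) (l 69960977959))) (c (l 16770928) (l 16770512))) (l 16770424)) (b (c (a (l 96267653671) (l 16770824)) (a (c (l 95193911207) (l 89825201303)) (l 16770400))) (a (l 3) (c (l 50096754679) (c (l 44728045223) (a (l 76940299303) (l 16770312)))))))))))) (c (c (a (b (l 16769400) (l 16771768)) (l 16768352)) (a (c (l 16772184) (l 16771944)) (l 16767816))) (a (b (l 16768208) (a (c (l 16769912) (l 16770800)) (l 16770184))) (c (l 16769928) (l 16769440)))))), by decide +kernel⟩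

def k24_pp_012_a : ∃ t, chk3 f_pp_012_a t 190 83 1 = true :=
  ⟨(b (a (l 3) (a (l 3) (a (l 3) (a (l 3) (b (b (b (c (c (l 85530236791) (l 84456494103)) (c (l 83382751367) (c (l 81772138055) (l 76940299127)))) (l 3)) (l 3)) (l 3)))))) (l 3)), by decide +kernel⟩

def k25_pp_012_a : ∃ t, chk3 f_pp_012_a t 191 332 1 = true :=
  ⟨(a (a (b (a (b (c (c (l 39896209063) (l 36674982631)) (a (c (l 41506819783) (c (l 35601239431) (l 31306271255))) (c (l 16770640) (l 16770208)))) (b (a (c (l 101636363655) (c (l 101099491351) (l 96804523687))) (c (l 48486142903) (c (l 16770816) (c (l 16770488) (l 32380013735))))) (c (l 100562621799) (c (l 100025749543) (c (l 99488877959) (l 96804522951)))))) (c (c (l 29158790471) (l 24863822295)) (c (c (l 16770584) (l 16771016)) (c (l 16770712) (l 16770256))))) (a (l 3) (b (a (b (c (l 86067106839) (c (l 84456492759) (c (l 83382750279) (l 79087782551)))) (l 3)) (b (c (l 16771392) (c (l 16770672) (c (l 16770336) (l 16770112)))) (a (c (l 95730783207) (c (l 95193910903) (b (l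 80161524887) (l 3)))) (c (l 65666011879) (c (l 62981656007) (c (l 61371042583) (l 52781107703))))))) (l 3)))) (c (b (l 16771248) (a (b (l 16771168) (a (b (a (l 76403430183) (l 46338658887)) (l 97878266887)) (b (l 16771264) (c (l 49559884919) (l 49559883943))))) (c (l 16771168) (l 16770672)))) (c (b (l 16769880) (a (b (l 16770448) (b (a (a (l 74255945207) (l 16770696)) (l 16770536)) (a (l 96804523687) (c (l 44191174375) (l 42580561159))))) (c (l 16770304) (l 16770072)))) (b (l 16770088) (b (c (l 16770568) (l 16770344)) (a (a (b (a (c (l 73182202679) (l 67813493287)) (c (l 16770408) (l 16770232))) (c (l 95730781175) (l 90362071767))) (b (l 16770080) (a (c (l 54928591607) (l 50633623959)) (l 16770512)))) (l 16770520))))))) (c (b (l 16770720) (a (a (l 16770528) (l 16770136)) (l 16769544))) (a (b (l 16768840) (c (l 16770248) (b (l 16769000) (l 16769928)))) (c (l 16768520) (l 16769360))))), by decide +kernel⟩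

def k26_pp_012_a : ∃ t, chk3 f_pp_012_a t 191 333 1 = true :=
  ⟨(a (a (l 3) (b (a (a (l 3) (b (c (l 94120170567) (c (l 93046427383) (c (l 92509555751) (l 88751459047)))) (l 3))) (a (b (b (c (l 41506820583) (c (l 36674981095) (c (l 32916884151) (l 24863820359)))) (c (l 82309010263) (c (l 79624654391) (c (l 78550911879) (l 73719073319))))) (l 3)) (b (c (l 30232530999) (c (l 16770536) (c (l 16770200) (l 16770304)))) (b (c (l 74255946503) (c (l 71571590647) (c (l 69960977223) (l 64592267751)))) (l 3))))) (l 3))) (a (b (a (a (b (c (l 16771064) (c (l 16770344) (l 16769896))) (b (c (l 16771296) (c (l 16770584) (l 16770136))) (c (l 66739753623) (c (l 62981655991) (c (l 60297300839) (a (l 72645331719) (l 16770136))))))) (c (l 16771024) (c (l 16770312) (l 16769864)))) (c (l 16770736) (c (l 16770016) (l 16770224)))) (a (a (c (l 102710105479) (c (l 102710104071) (l 101099490455))) (b (b (c (l 58686689863) (c (l 50633624951) (c (l 50096753527) (l 46338656551)))) (c (l 94657041287) (c (l 93046427271) (l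 89288330295)))) (l 3))) (a (b (c (a (l 42580562263) (l 16771248)) (c (l 32380013751) (c (l 25937562519) (c (l 21642594967) (l 16770312))))) (c (l 91435815879) (c (l 89825201879) (c (l 87677717655) (l 117205615991))))) (b (c (l 16771104) (c (l 16770392) (l 16769952))) (a (c (l 65666011799) (c (l 62444785111) (b (a (l 39896206327) (l 16770216)) (l 108078811319)))) (c (l 47949271447) (c (l 43654302967) (c (l 37748722567) (l 32380013431))))))))) (c (b (l 16770144) (c (l 16771016) (l 15200145591))) (c (c (l 16771168) (l 4999597655)) (c (c (l 16770768) (l 16770656)) (l 16770000)))))), by decide +kernel⟩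

def k27_pp_012_a : ∃ t, chk3 f_pp_012_a t 191 167 1 = true :=
  ⟨(a (l 3) (a (l 3) (b (b (b (a (a (c (l 80698397447) (c (l 78014041687) (c (l 74255944855) (c (l 74255944407) (l 75329685879))))) (c (c (l 46338659527) (l 43654304023)) (c (l 41506819383) (b (l 16770128) (a (l 81235265767) (l 16770232)))))) (c (l 16771032) (c (l 16770344) (l 16769912)))) (a (c (l 100025750727) (c (l 99488878455) (l 97341393303))) (a (c (c (l 65129141575) (l 63518527895)) (c (l 66739752391) (b (a (l 61907913047) (l 16770200)) (l 92509555143)))) (c (l 16771240) (c (l 16770560) (c (l 16770240) (l 14663273767))))))) (a (l 3) (a (l 3) (a (l 3) (b (c (l 86067106535) (l 96267651031)) (l 3)))))) (l 3)))), by decide +kernel⟩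

def k28_pp_012_a : ∃ t, chk3 f_pp_012_a t 47 21 1 = true :=
  ⟨(l 3), by decide +kernel⟩

def k29_pp_012_a : ∃ t, chk3 f_pp_012_a t 23 11 1 = true :=
  ⟨(l 3), by decide +kernel⟩

def k30_pp_012_a : ∃ t, chk3 f_pp_012_a t 5 3 1 = true :=
  ⟨(l 3), by decide +kernel⟩

def k31_pp_012_a : ∃ t, chk3 f_pp_012_a t 12 4 1 = true :=
  ⟨(b (a (a (b (l 16685040) (l 16702592)) (b (l 16672968) (l 16690208))) (a (b (l 16660840) (l 16677776)) (b (b (l 16644488) (l 16652624)) (l 16665016)))) (a (b (a (a (b (l 16718752) (l 16727704)) (l 16716848)) (l 16707416)) (a (b (a (b (l 16734096) (l 16738944)) (b (l 16727824) (l 16732032))) (a (b (l 16743624) (l 16748304)) (l 16739120))) (b (a (l 16744664) (l 16717152)) (a (b (l 16729936) (l 16734592)) (b (l 16723688) (l 16727832)))))) (a (b (l 16694808) (b (l 16707632) (a (l 16719432) (l 16712944)))) (b (l 16681632) (l 16719392))))), by decide +kernel⟩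

def k32_pp_012_a : ∃ t, chk3 f_pp_012_a t 48 40 1 = true :=
  ⟨(a (a (c (l 16768384) (b (l 16753704) (l 16758544))) (b (l 16751256) (l 16761136))) (c (l 16760096) (b (l 16744736) (l 16760040)))), by decide +kernel⟩

def k33_pp_012_a : ∃ t, chk3 f_pp_012_a t 96 82 1 = true :=
  ⟨(a (a (b (l 16763632) (c (l 16766464) (l 16767952))) (c (l 16763736) (c (l 16762736) (l 16767336)))) (c (l 16766496) (c (l 16765352) (l 16764616)))), by decide +kernel⟩

def k34_pp_012_a : ∃ t, chk3 f_pp_012_a t 96 166 1 = true :=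
  ⟨(a (a (c (c (b (l 16768360) (l 16769536)) (b (l 16767800) (l 16771632))) (c (b (l 16767264) (l 16769824)) (b (l 16768072) (c (l 16770784) (l 16769248))))) (b (c (l 16766456) (l 16767904)) (c (l 16767648) (a (l 16767000) (l 16766136))))) (a (c (l 16768032) (b (l 16763528) (l 16764832))) (b (l 16762440) (l 16763696)))), by decide +kernel⟩

def k35_pp_012_a : ∃ t, chk3 f_pp_012_a t 96 167 1 = true :=
  ⟨(a (b (a (c (a (b (l 16770928) (a (b (a (l 55465464119) (l 16771160)) (l 84456493831)) (c (l 29695661223) (c (l 16771560) (l 23790080359))))) (c (l 16770368) (l 16769880))) (a (b (c (l 16769904) (l 16770128)) (a (a (b (c (l 50096754071) (b (l 16770184) (l 72645331431))) (l 3)) (c (b (l 16770488) (l 74792816151)) (b (l 16770064) (c (l 71034719383) (l 72108460567))))) (b (l 16769968) (a (b (l 16770312) (a (l 78550911175) (l 16770424))) (l 16770192))))) (c (l 16769416) (l 16770288)))) (c (c (l 16769176) (l 16768656)) (c (l 16770784) (l 16769016)))) (a (a (b (a (l 3) (a (c (l 97878267079) (l 94657038567))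 (b (c (l 63518527847) (b (a (l 61907912919) (l 16770384)) (l 90362071527))) (l 3)))) (l 3)) (b (a (b (c (l 16771088) (c (l 16770424) (c (l 16770112) (l 16769912)))) (a (c (l 86603977271) (l 88214588039)) (c (l 53317980279) (b (l 16770360) (l 72645331383))))) (c (l 16770848) (c (l 16770184) (l 16769776)))) (a (l 3) (b (a (c (l 75866558823) (c (l 71571590647) (l 70497847943))) (c (l 16771208) (b (l 16770280) (l 50633624087)))) (c (l 94657041399) (l 91972683847)))))) (c (a (a (b (l 16770456) (a (b (l 16771016) (l 60834173127)) (l 16770976))) (l 16770368)) (l 16769760)) (b (c (l 16770472) (l 16770040)) (a (a (b (l 16770056) (a (c (l 55465463271) (l 55465462263)) (l 16770120))) (l 16769816)) (l 16769184)))))) (a (c (c (l 16768184) (l 16770264)) (c (l 16769752) (c (l 16769392) (l 16769152)))) (c (l 16766256) (c (l 16765400) (l 16767488))))), by decide +kernel⟩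

def k36_pp_012_a : ∃ t, chk3 f_pp_012_a t 97 41 1 = true :=
  ⟨(b (c (a (l 16757912) (l 16754552)) (a (l 16761384) (l 16752520))) (b (c (a (l 16761256) (l 16757880)) (a (c (l 16760096) (l 16764600)) (l 16756112))) (a (c (l 16767688) (a (l 16765968) (l 16761552))) (c (l 16760376) (l 16764072))))), by decide +kernel⟩

def k37_pp_012_a : ∃ t, chk3 f_pp_012_a t 192 84 1 = true :=
  ⟨(b (a (l 3) (b (b (c (a (a (l 90362074199) (b (l 40969949351) (l 79087784471))) (c (l 16770920) (l 16771128))) (a (c (a (l 89288331127) (b (l 33453755847) (l 74255945495))) (a (b (l 83919620999) (l 3)) (c (b (l 28621917287) (l 69424107031)) (b (l 24326949783) (l 69960977319))))) (c (c (l 16770152) (l 16771264)) (c (l 16771064) (l 16770544))))) (a (l 3) (b (a (c (l 70497849831) (a (l 88214588439) (a (l 66739751703) (l 45801785863)))) (c (l 16770960) (l 16770136))) (a (l 3) (c (l 62444786071) (a (l 76403428231) (l 44728043895))))))) (l 3))) (l 3)), by decide +kernel⟩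

def k38_pp_012_a : ∃ t, chk3 f_pp_012_a t 193 84 1 = true :=
  ⟨(a (b (b (c (c (l 16772656) (l 16770880)) (a (c (l 16769552) (l 16770456)) (l 16769800))) (a (a (b (b (c (l 53854851351) (a (l 65129138855) (l 16770272))) (c (l 88751460855) (l 87140846631))) (l 3)) (b (b (l 16769704) (a (b (l 16770040) (l 75866557191)) (l 16770088))) (c (l 83919622999) (c (l 82309009079) (l 81235266519))))) (b (c (l 16770328) (l 16770152)) (a (b (c (l 16770992) (a (l 43117430935) (l 16770104))) (c (l 71571591543) (a (l 91972684631) (l 61907913111)))) (c (l 16770744) (c (l 16770144) (l 16769768))))))) (a (l 3) (a (l 3) (b (b (b (a (l 82845879303) (a (l 62981655127) (l 46338656503))) (l 3)) (l 3)) (l 3))))) (b (c (c (l 16771648) (c (l 16771288) (l 16771048))) (c (c (l 16770824) (l 16770600)) (c (l 16770384) (c (l 16770232) (l 16770128))))) (b (a (b (b (a (a (l 16769856) (l 16770304)) (l 16769992)) (a (c (l 54928593127) (a (l 69960976759) (l 16770248))) (l 16769656))) (a (c (l 89288332135) (l 87677717911)) (b (a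 (a (l 72645331415) (l 56539203783)) (l 37748721239)) (c (l 80698396999) (l 81235266215))))) (b (c (l 16769944) (l 16769128)) (a (b (l 16770216) (a (a (l 61371041927) (l 45264914167)) (l 16770432))) (c (l 16770360) (l 16769584))))) (a (l 3) (b (a (b (c (l 73182204167) (l 72645331543)) (l 3)) (b (c (l 16770824) (c (l 16770256) (l 16769912))) (c (l 65666011303) (c (l 60297301575) (l 57612946327))))) (l 3)))))), by decide +kernel⟩

def k39_pp_012_a : ∃ t, chk3 f_pp_012_a t 97 84 1 = true :=
  ⟨(a (a (b (c (c (l 16767392) (l 16766856)) (c (l 16768968) (l 16768488))) (b (c (c (l 16769248) (l 16768792)) (c (l 16770984) (l 16769272))) (a (b (c (l 19495112455) (c (l 16769792) (l 16770744))) (a (b (a (l 79087781943) (a (l 58686687047) (l 16769856))) (l 3)) (b (c (l 16770632) (l 16769896)) (c (l 50096754663) (a (l 61907912999) (l 16770112)))))) (c (l 16771168) (c (l 16769264) (l 16770208)))))) (b (c (l 16765448) (c (l 16764584) (l 16764048))) (c (c (l 16770840) (l 16770360)) (c (c (l 16770016) (l 16769800))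 (c (l 16769584) (l 16769384)))))) (b (c (l 16768144) (c (l 16761912) (l 16766528))) (a (c (l 16768912) (b (l 16764584) (l 16767272))) (c (l 16764584) (l 16766080))))), by decide +kernel⟩

def k40_pp_012_a : ∃ t, chk3 f_pp_012_a t 96 85 1 = true :=
  ⟨(l 3), by decide +kernel⟩

def k41_pp_012_a : ∃ t, chk3 f_pp_012_a t 194 85 1 = true :=
  ⟨(b (a (b (a (c (l 86603978103) (b (c (l 84456492871) (l 84456492215)) (l 3))) (b (a (b (a (a (l 66739750823) (l 50096752359)) (l 16769712)) (c (l 75329687639) (l 74255944295))) (b (l 16770056) (a (a (l 54391719671) (l 16769768)) (l 16770272)))) (a (l 3) (c (l 74255945895) (a (l 86067104775) (b (l 58149816551) (l 3))))))) (l 3)) (b (c (a (a (b (l 16770176) (b (l 16770640) (l 60297301975))) (l 16771384)) (l 16769448)) (a (b (l 16769872) (a (b (l 21642594327) (a (l 76403427671) (l 47412398199))) (l 16769672))) (c (l 16768856) (l 16768496)))) (a (a (l 3) (b (b (c (l 52781109063) (a (l 65129138423) (l 36674979815))) (l 88751458583)) (l 3))) (a (c (b (c (l 36138111527)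 (l 31843143575)) (l 79624654999)) (b (b (l 16769736) (a (l 54391720087) (l 16769960))) (c (l 78550912167) (l 78014040647)))) (b (c (l 16770176) (l 16769464)) (b (a (a (l 58686686871) (l 42580559399)) (l 16770184)) (c (l 69424107383) (c (l 64592268583) (l 62444784327))))))))) (l 3)), by decide +kernel⟩

def k42_pp_012_a : ∃ t, chk3 f_pp_012_a t 195 85 1 = true :=
  ⟨(b (a (b (c (l 16769496) (c (l 16767536) (l 16769760))) (a (b (c (l 16769544) (l 16768808)) (c (c (l 16770360) (l 16771296)) (c (c (l 16769728) (l 16770872)) (c (l 16770712) (l 6610209143))))) (c (l 16769016) (c (l 16768440) (l 16768080))))) (c (c (l 16767360) (l 16769504)) (c (l 16769056) (c (l 16768736) (l 16768528))))) (a (a (b (b (b (a (a (l 83919620023) (b (l 42580559447) (l 73719072471))) (c (l 16770432) (l 16769760))) (a (l 3) (c (l 54928592535) (a (l 67813492919) (l 39896205223))))) (c (l 85530235351) (l 84456492263))) (l 3)) (a (b (b (c (l 16770168) (l 16769496)) (b (c (l 47949270551) (a (l 57076074567) (l 16769880))) (c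 (l 78014041799) (l 76940298647)))) (l 3)) (a (b (b (l 16769496) (b (l 16769984) (b (l 16769568) (l 68350363319)))) (l 3)) (b (c (l 16769952) (c (l 16769440) (l 16770432))) (b (a (l 84456491079) (b (l 65666008695) (l 3))) (l 3)))))) (b (c (c (l 16771824) (l 16770128)) (c (c (l 16771160) (l 16770984)) (c (l 16770808) (l 16769336)))) (b (a (a (b (c (l 16770416) (c (l 16769928) (l 22179465223))) (a (l 84993361799) (b (l 47949268359) (l 76940297895)))) (c (l 16770152) (c (l 16769664) (l 16770016)))) (c (l 16769520) (c (l 16769008) (l 16768688)))) (a (b (a (l 3) (a (l 74792814439) (b (l 16770112) (l 63518524903)))) (l 3)) (a (b (c (l 16770200) (l 16769568)) (c (l 49023012215) (a (l 59223558055) (l 32916883063)))) (c (l 16769936) (l 16769296)))))))), by decide +kernel⟩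

def k43_pp_012_a : ∃ t, chk3 f_pp_012_a t 48 43 1 = true :=
  ⟨(a (l 3) (b (a (l 3) (b (b (b (a (l 3) (a (l 3) (a (c (l 80161525431) (l 79087782423)) (b (a (b (l 42580559175) (l 72108459479)) (a (l 33990624439) (l 16769920))) (c (l 71571590535) (c (l 67276622759) (l 65129138551))))))) (l 3)) (l 3)) (l 3))) (l 3))), by decide +kernel⟩

def k44_pp_012_a : ∃ t, chk3 f_pp_012_a t 49 20 1 = true :=
  ⟨(b (a (b (l 16739168) (l 16743728)) (l 16734592)) (a (b (c (l 16749472) (l 16757552)) (a (b (l 16753472) (l 16761312)) (a (l 16752120) (l 16750344)))) (b (l 16741272) (c (l 16747152) (l 16755184))))), by decide +kernel⟩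

def k45_pp_012_a : ∃ t, chk3 f_pp_012_a t 49 42 1 = true :=
  ⟨(c (a (b (a (c (l 16761120) (l 16765632)) (l 16757296)) (a (b (c (l 16770072) (l 16769512)) (a (c (l 16770760) (c (l 16770448) (l 16770248))) (l 16768832))) (c (l 16767888) (b (l 16760736) (l 16768568))))) (b (l 16762568) (a (l 16764072) (l 16755304)))) (a (b (a (c (l 16764912) (b (l 16757568) (l 16765632))) (c (l 16756040) (l 16755232))) (b (a (a (a (l 16767472) (l 16763936)) (l 16762552)) (l 16763696)) (a (a (a (b (l 16766920) (a (l 16769328) (l 16768056))) (b (l 16766008) (l 16768688))) (c (l 16768152) (l 16767728))) (a (l 16766080) (l 16761592))))) (b (a (l 16751936) (l 16748248)) (a (c (l 16768240) (l 16762312)) (l 16753672))))), by decide +kernel⟩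

def k46_pp_012_a : ∃ t, chk3 f_pp_012_a t 196 43 1 = true :=
  ⟨(b (b (a (a (b (b (b (c (l 16769768) (l 16769128)) (a (c (l 36138109895) (c (l 29158787447) (c (l 24863819895) (l 22716335991)))) (l 16769216))) (a (a (l 81772137351) (b (b (l 51170493767) (l 80161523127)) (l 3))) (b (c (l 16770168) (c (l 16769720) (l 16769440))) (a (l 76403426951) (b (l 38285591655) (l 66202879383)))))) (l 3)) (b (c (c (l 16769560) (l 16770528)) (c (l 16770200) (c (l 16769976) (l 16769832)))) (a (b (b (c (l 51170495575) (a (l 61371041511) (a (l 41506817479) (l 16769632)))) (l 82845878039)) (l 3)) (b (b (c (l 16769944) (l 16769352)) (c (l 43654302599) (a (c (l 50096752871) (l 47412397799)) (l 16769576)))) (c (l 75329686743) (c (l 73719073159) (l 73182201735))))))) (b (c (c (l 16768296) (l 16767912)) (c (l 16770168) (c (l 16769912) (l 16769752)))) (a (b (c (l 16769464) (c (l 16768992) (l 16768712))) (a (b (a (b (l 16769872) (l 61371040935)) (l 16769408)) (a (l 3) (a (l 73182201127) (b (l 16769920) (l 80161522935)))))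 (c (l 27011303895) (c (l 18958239655) (c (l 16769880) (l 11978917399)))))) (c (l 16770232) (c (l 16768432) (l 16769448)))))) (a (l 3) (b (a (b (b (a (l 3) (a (l 77477168583) (b (a (l 16769584) (l 16769808)) (l 68887233671)))) (l 3)) (l 3)) (b (a (b (c (l 16769904) (l 17884497015)) (a (c (l 65666009639) (l 62444783143)) (c (l 16770104) (a (l 44191171831) (l 16769512))))) (c (l 16769632) (l 16769064))) (a (c (l 79624653927) (l 78014040151)) (a (b (a (l 67813491927) (b (l 16769792) (l 73182200823))) (l 3)) (b (c (l 16769992) (l 27011302487)) (l 73182201111)))))) (l 3)))) (l 3)), by decide +kernel⟩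

def k47_pp_012_a : ∃ t, chk3 f_pp_012_a t 197 86 1 = true :=
  ⟨(a (b (b (c (l 16766368) (l 16768152)) (c (l 16768936) (a (l 16768672) (l 16766440)))) (a (b (b (c (l 16768992) (l 16769040)) (a (a (b (l 16769496) (b (l 35601236775) (l 62981653543))) (c (l 16769720) (l 16769168))) (c (l 16769400) (l 16768832)))) (b (a (a (l 3) (b (a (l 74255942743) (b (l 47412396807) (l 3))) (l 3))) (b (c (l 32916883575) (c (l 25400690327) (c (l 16769760) (l 19495109863)))) (a (l 78014039287) (b (a (l 52244234999) (l 16769656)) (l 69960975351))))) (l 3))) (b (c (l 16768440) (c (l 16767960) (l 16768968))) (b (c (c (l 16769520) (l 16769224)) (c (l 13589530071) (c (l 16770064) (l 16769616)))) (a (b (a (c (l 66739751127) (l 63518524695)) (c (l 45264914375) (c (l 39359333895) (l 35601237127)))) (l 3)) (b (c (l 16769616) (l 16769096)) (a (c (l 57612945511) (c (l 52781106871) (l 50096751863))) (c (l 16769816) (c (l 16769432) (l 16769528)))))))))) (b (c (l 16765248) (c (l 16764568) (l 16766768))) (b (c (l 16767128) (c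 (l 16766592) (l 16768872))) (a (c (c (l 16768968) (l 16768664)) (c (l 16769688) (l 16769424))) (c (l 16767944) (c (l 16767464) (l 16767176))))))), by decide +kernel⟩

def k48_pp_012_a : ∃ t, chk3 f_pp_012_a t 197 87 1 = true :=
  ⟨(b (a (a (l 3) (a (l 3) (b (c (l 75329686599) (b (c (l 73182201687) (l 72108459415)) (l 3))) (l 3)))) (a (b (a (b (b (b (c (l 16769720) (l 23790076599)) (a (l 64055395095) (l 16769184))) (a (l 3) (c (l 62444783575) (c (l 57612945031) (l 54928590039))))) (l 3)) (b (a (b (l 16769208) (b (l 16769448) (a (l 62981653095) (l 16769224)))) (c (l 16769416) (l 16768904))) (b (a (l 78014038983) (b (a (l 54928589303) (l 16769496)) (l 71034716839))) (l 3)))) (l 3)) (a (b (b (c (l 16769088) (l 16768560)) (b (c (l 16769552) (c (l 16769176) (l 16769280))) (a (c (l 66739750791) (l 64055395303)) (b (l 33453752631) (a (l 72108458535) (l 51170492807)))))) (l 3)) (b (c (c (l 16769104) (l 16768824)) (c (l 16769872) (l 16769304))) (b (b (a (c (l 58149816039) (c (l 53317977463) (l 51170493383)))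 (c (l 16769616) (c (l 16769264) (l 27011302007)))) (c (l 71571589191) (l 69424104647))) (l 3)))))) (l 3)), by decide +kernel⟩

def k49_pp_012_a : ∃ t, chk3 f_pp_012_a t 198 86 1 = true :=
  ⟨(b (c (l 16767840) (c (l 16767040) (l 16766528))) (a (c (c (l 16766200) (l 16768424)) (c (l 16768040) (c (l 16767760) (l 16767584)))) (c (l 16764224) (l 16765968)))), by decide +kernel⟩

def k50_pp_012_a : ∃ t, chk3 f_pp_012_a t 198 174 1 = true :=
  ⟨(a (a (b (c (l 16769624) (c (l 16767880) (l 16768928))) (a (a (b (b (l 16769160) (b (a (l 47949267223) (l 16769344)) (l 65129136599))) (l 3)) (c (b (l 16769336) (l 65666009239)) (b (c (l 16768976) (l 16768760)) (b (l 58686685991) (l 3))))) (b (c (l 16769016) (l 16768520)) (b (a (b (l 16769272) (a (l 64592265543) (l 44728041591))) (l 16769128)) (a (l 77477167751) (b (a (l 56539201751) (l 16769304)) (l 71571587463))))))) (b (c (l 16767432) (l 16768120)) (b (c (l 16768360) (l 16767824)) (b (c (l 16768816) (l 16768328)) (a (c (l 16769344) (c (l 16769000) (l 18421367143)))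 (l 16768664)))))) (b (c (l 16766104) (l 16766712)) (c (c (l 16767504) (l 16769816)) (c (l 16768216) (c (l 16769320) (l 16769184)))))), by decide +kernel⟩

def k51_pp_012_a : ∃ t, chk3 f_pp_012_a t 198 175 1 = true :=
  ⟨(a (a (l 3) (b (b (b (a (a (c (l 66739750375) (l 63518524055)) (c (l 46875526391) (a (l 47949267383) (l 35064365271)))) (c (l 16769208) (l 16768768))) (a (l 3) (a (c (l 58149815703) (a (l 64592265687) (l 50633621911))) (c (l 16769400) (a (l 37748719815) (l 16768928)))))) (a (l 3) (c (l 72108459783) (l 70497846231)))) (l 3))) (a (a (b (b (c (l 16768928) (l 16768472)) (a (b (b (a (l 49559879655) (l 16769144)) (l 65666007191)) (l 3)) (b (c (l 16769272) (l 16769016)) (c (l 61907911895) (l 58686685623))))) (l 3)) (b (b (c (l 16768488) (l 16768008)) (a (b (l 16768832) (b (l 16769072) (a (l 65666006967) (l 46338654007)))) (c (l 16768992) (l 16768560)))) (a (l 3) (b (b (b (a (l 57612943239) (l 16769104)) (l 71034716231)) (l 3)) (l 3))))) (b (c (c (l 16768264) (l 16768008)) (c (l 16769072)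 (l 16768840))) (b (a (b (c (l 30232527607) (c (l 16769456) (c (l 16769320) (l 16769064)))) (a (c (l 65666008135) (l 62981652807)) (b (a (l 43117428375) (l 16768968)) (l 59760426903)))) (c (l 16768824) (c (l 16768512) (l 16768976)))) (a (l 3) (b (a (a (l 69424103351) (b (l 46875524711) (l 3))) (c (l 39896203879) (c (l 32916881687) (l 29158784967)))) (l 72108458327))))))), by decide +kernel⟩

def k52_pp_012_a : ∃ t, chk3 f_pp_012_a t 199 43 1 = true :=
  ⟨(b (c (c (l 16765832) (l 16765240)) (c (l 16764664) (b (l 16757456) (l 16765496)))) (c (b (a (l 16767560) (l 16763144)) (b (a (l 16768112) (l 16765008)) (a (a (b (l 16768168) (a (a (b (l 16768952) (l 50096751367)) (l 16768880)) (l 16768552))) (l 16768896)) (l 16768864)))) (a (b (c (l 16764376) (l 16766640)) (b (c (l 16768992) (l 16767416)) (b (a (l 16768368) (l 16766776)) (a (a (b (l 16768448) (a (a (l 53317976055) (l 40433074039)) (l 25400688247))) (l 16768144)) (l 16768760))))) (b (l 16762288) (c (l 16767784) (c (l 16767568) (l 16767424))))))),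 by decide +kernel⟩

def k53_pp_012_a : ∃ t, chk3 f_pp_012_a t 24 11 1 = true :=
  ⟨(a (l 3) (b (b (a (l 3) (b (a (l 3) (a (b (a (b (b (a (a (l 3) (b (b (l 59223555847) (l 3)) (l 3))) (a (b (b (l 32916880743) (a (l 66202877527) (l 46875524567))) (l 3)) (b (c (l 16768896) (l 16768528)) (a (l 63518523143) (b (l 16768880) (l 69424102951)))))) (l 3)) (l 3)) (b (b (b (c (l 16768344) (l 16768600)) (a (c (l 30769398023) (c (l 16768920) (c (l 16769120) (l 16768880)))) (l 16768224))) (b (a (a (l 66739748695) (b (a (l 44191169815) (l 16768744)) (l 59223555623))) (c (l 16768728) (l 18421366103))) (a (l 3) (a (c (l 57076072903) (c (l 51707363527) (l 49023008663))) (c (l 38822461559) (c (l 32380010343) (l 28621913703))))))) (a (l 3) (b (b (l 70497845223) (l 3)) (l 3))))) (l 3)) (b (b (a (c (c (l 16769336) (l 16769120)) (c (l 16768912) (c (l 16768776) (l 16768680)))) (c (l 16767024) (l 16767880))) (b (a (a (a (b (b (a (l 50633620743) (l 16768696)) (l 64592264631)) (l 3)) (b (c (l 16768776) (l 25400687895))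 (c (l 59760427319) (l 56002330327)))) (a (b (l 16768376) (b (l 33990622167) (a (l 65666006215) (l 47949265991)))) (c (l 16768480) (l 16768144)))) (c (l 16767928) (c (l 16767648) (l 16768792)))) (a (a (l 3) (a (l 3) (b (c (l 52781105271) (a (l 56539201015) (l 44191169911))) (l 3)))) (a (b (c (l 30232526663) (c (l 23253204487) (c (l 16768912) (l 16768840)))) (a (l 66202877335) (b (a (l 44191169463) (l 16768504)) (l 58686684295)))) (c (l 16768960) (c (l 16768064) (l 16768576))))))) (a (l 3) (a (l 3) (b (b (b (a (c (l 55465459703) (c (l 49023008567) (l 45801782855))) (c (l 37211848423) (c (l 31306268087) (l 27011300583)))) (l 69960973815)) (l 3)) (l 3))))))) (l 3))) (l 3)) (l 3))), by decide +kernel⟩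

def k54_pp_012_a : ∃ t, chk3 f_pp_012_a t 25 10 1 = true :=
  ⟨(a (b (b (a (b (l 16725704) (l 16730056)) (b (l 16719352) (l 16723552))) (a (b (l 16734384) (l 16738920)) (l 16750840))) (a (a (b (b (l 16745720) (l 16750856)) (b (c (l 16756712) (l 16760600)) (b (c (l 16760432) (l 16764680)) (a (c (l 16763824) (l 16765736)) (l 16764224))))) (b (l 16755208) (b (l 16752368) (a (a (l 16764152) (l 16757976)) (l 16756584))))) (b (l 16752560) (b (l 16757408) (a (l 16759056) (l 16750144)))))) (b (b (l 16731912) (a (b (l 16742048) (l 16725280)) (b (l 16713384) (l 16717792)))) (a (b (l 16732448) (a (l 16754536) (l 16740280))) (b (l 16745704) (l 16734464))))), by decide +kernel⟩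

def k55_pp_012_a : ∃ t, chk3 f_pp_012_a t 100 88 1 = true :=
  ⟨(b (a (a (b (c (l 16765672) (l 16766456)) (a (c (l 16768648) (a (l 16768176) (l 16766720))) (b (l 16765896) (l 16767192)))) (c (l 16767096) (c (l 16766664) (l 16766392)))) (c (l 16766984) (c (l 16766448) (l 16766104)))) (a (a (a (b (a (b (a (b (l 16768264) (b (a (l 51170491191) (l 16768440)) (l 63518522391))) (c (l 25937559015) (c (l 16768784) (l 16768648)))) (a (l 3) (b (b (l 59223554951) (l 3)) (l 3)))) (b (c (l 16768016) (l 16767712)) (a (b (c (l 41506815575) (c (l 33990622583) (l 29695655047))) (l 3)) (b (c (l 16768344) (l 16768080)) (c (l 50633621143) (c (l 44191169991) (l 39896202471))))))) (l 3)) (b (b (c (l 16767344) (l 16768312)) (a (b (l 16768032) (c (l 28621913431) (c (l 16768608) (l 15737011159)))) (c (l 16767720) (l 16767424)))) (b (b (a (a (l 64592264167) (b (a (l 16768352) (l 16768240)) (l 59223554679))) (c (l 16768160) (l 16768240))) (a (l 3) (a (c (l 53317975463) (c (l 45801782599) (l 42580556855))) (c (l 37748718743)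 (a (l 33453751031) (l 16768064)))))) (a (l 3) (a (l 3) (b (l 66739747719) (l 3))))))) (a (b (c (l 16768064) (l 16767704)) (b (c (c (l 16767720) (l 16768880)) (c (l 16768752) (l 16768624))) (a (a (b (b (a (l 52244232519) (l 16768176)) (l 62444780103)) (l 3)) (b (c (l 16768192) (l 20568848919)) (c (l 54928588039) (l 54928587399)))) (a (b (l 16767856) (b (l 33990621271) (a (l 60297296407) (l 45801781527)))) (c (l 16767896) (l 16768328)))))) (b (c (l 16765848) (l 16765440)) (c (c (l 16768432) (l 16768280)) (c (l 16768136) (l 16768008)))))) (a (b (c (l 16764488) (l 16764008)) (c (l 16767000) (c (l 16768040) (l 16767872)))) (c (l 16763264) (l 16765376))))), by decide +kernel⟩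

def k56_pp_012_a : ∃ t, chk3 f_pp_012_a t 200 89 1 = true :=
  ⟨(b (a (l 3) (b (b (b (a (a (l 3) (a (l 3) (b (a (l 52781103543) (l 16768104)) (l 65129134599)))) (a (c (c (l 16768712) (l 16768600)) (c (l 16768256) (l 16768416))) (l 16767440))) (a (l 3) (a (b (a (l 62981650727) (a (l 39896201399) (l 16767960))) (c (l 56539200359) (l 56002328983))) (c (l 16768504) (l 16767992))))) (a (l 3) (a (l 3) (a (b (a (b (l 63518521463) (l 3)) (c (l 47412394695) (l 39359330935))) (l 3)) (b (c (a (l 37211847319) (l 16767968)) (l 25400686983)) (c (l 61907909303) (l 59760425351))))))) (l 3))) (l 3)), by decide +kernel⟩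

def k57_pp_012_a : ∃ t, chk3 f_pp_012_a t 201 89 1 = true :=
  ⟨(a (b (b (a (b (c (l 16768344) (l 16768104)) (a (b (l 16767928) (a (c (c (l 43117427447) (l 33990622263)) (l 39359330519)) (c (l 16768200) (l 16768376)))) (c (l 16768048) (l 16767208)))) (c (l 16767744) (l 16767488))) (b (b (a (a (a (l 3) (c (b (l 51170490695) (l 3)) (l 42580556311))) (a (c (b (l 16767864) (l 36138105831)) (l 30769395815)) (l 16767968))) (l 16767400)) (a (a (l 3) (a (l 3) (c (a (l 40969943975) (l 40433072599)) (l 35064363431)))) (a (c (l 26474428583) (l 16768032)) (l 16767144)))) (a (l 3) (b (a (a (a (l 3) (l 46338652551)) (b (l 16768040) (l 39896201511))) (c (l 16768168) (l 16768048))) (a (l 3) (a (b (l 36138105063) (l 3)) (c (l 26474428455) (l 14663268519)))))))) (a (l 3) (a (l 3) (a (l 3) (b (b (b (b (l 43654297959) (l 3)) (l 3)) (l 3)) (l 3)))))) (b (b (c (l 16767696) (l 16767368)) (b (c (l 16767272) (l 16767368)) (a (c (l 16767648) (l 16767832)) (l 16767304)))) (b (b (a (b (a (a (b (l 21642590295) (l 42580556023))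 (c (l 16767856) (l 16767768))) (l 16767800)) (a (b (a (l 3) (c (l 45264910327) (l 30769395943))) (l 3)) (a (b (l 16767808) (c (l 28085041255) (l 21105719415))) (l 16767664)))) (c (l 16767328) (l 16767208))) (a (b (a (l 3) (a (l 3) (c (l 29695654151) (a (l 40433072023) (l 16767952))))) (l 3)) (a (b (c (l 16768048) (l 16767968)) (a (a (l 3) (l 30232525159)) (l 11442043063))) (l 16767728)))) (a (l 3) (a (l 3) (b (b (c (l 27548170551) (l 24863815831)) (c (l 32380009623) (l 28621913079))) (l 3))))))), by decide +kernel⟩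

def k58_pp_012_a : ∃ t, chk3 f_pp_012_a t 100 45 1 = true :=
  ⟨(l 3), by decide +kernel⟩

def k59_pp_012_a : ∃ t, chk3 f_pp_012_a t 100 23 1 = true :=
  ⟨(l 3), by decide +kernel⟩

def k60_pp_012_a : ∃ t, chk3 f_pp_012_a t 101 11 1 = true :=
  ⟨(b (a (b (b (a (c (l 16765456) (l 16764744)) (l 16763224)) (b (a (c (l 16766464) (c (l 16766200) (l 16766032))) (l 16764408)) (b (a (c (c (l 16767056) (l 16767584)) (c (l 16767496) (l 16767416))) (c (l 16766456) (l 16766200))) (b (a (a (a (a (l 7147075911) (l 16767888)) (l 16766888)) (l 16767512)) (l 16767416)) (a (a (a (a (l 3) (c (l 29695654615) (l 24863816823))) (b (l 16768096) (l 23790074279))) (l 16767920)) (l 16766848)))))) (b (b (b (a (a (l 3) (b (a (b (l 20568849447) (l 3)) (l 12515784887)) (a (l 3) (a (l 3) (l 27548171943))))) (a (a (b (l 16766976) (a (l 27548170535) (l 16768248))) (l 16768192)) (l 16767488))) (a (l 3) (a (b (a (l 3) (c (l 24863817511) (l 35601234423))) (l 3)) (b (c (l 16768648) (l 16768544)) (a (l 3) (l 17347624599)))))) (l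 3)) (l 3))) (a (b (b (l 16756112) (b (l 16759904) (c (l 16765328) (l 16765024)))) (b (b (b (l 16767384) (a (l 16767704) (l 16768392))) (b (a (b (c (l 19495108823) (l 13052657671)) (l 3)) (c (c (l 9831432103) (l 16768912)) (l 11442043399))) (c (l 61371040023) (l 49023008823)))) (l 3))) (b (b (l 16754256) (b (l 16758024) (l 16765912))) (b (a (b (l 16766704) (b (l 16768928) (a (c (l 18421367719) (l 8220820167)) (l 16273882471)))) (b (l 16763136) (c (l 16768800) (l 16768640)))) (b (b (b (a (l 3) (l 13589529175)) (l 3)) (l 3)) (l 3)))))) (l 3)), by decide +kernel⟩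

def k61_pp_012_a : ∃ t, chk3 f_pp_012_a t 51 22 1 = true :=
  ⟨(b (b (a (a (l 16761960) (l 16747664)) (l 16741816)) (a (a (b (l 16760456) (a (l 16758784) (l 16756896))) (l 16757936)) (c (l 16757760) (l 16756872)))) (a (a (b (b (a (l 16766952) (l 16765048)) (c (a (l 16767400) (l 16765512)) (a (l 16767184) (l 16766544)))) (b (b (a (a (l 20568848743) (l 16769040)) (a (l 16765456) (l 16764496))) (a (a (l 3) (b (l 16768832) (l 15200142343))) (a (l 16767592) (l 16768600)))) (a (l 3) (b (b (a (l 9831432983) (l 16768728)) (a (l 3) (l 34527492055))) (l 3))))) (b (b (l 16762144) (l 16765080)) (b (a (l 16767056) (l 16767064)) (a (a (b (l 16767808) (l 30769396311)) (b (l 16765528) (l 23790072951))) (a (l 16767912) (l 16766928)))))) (a (b (l 16759696) (b (l 16764104) (c (l 16767232) (l 16766280)))) (b (l 16750504) (c (l 16761856) (l 16761384)))))), by decide +kernel⟩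

def k62_pp_012_a : ∃ t, chk3 f_pp_012_a t 51 23 1 = true :=
  ⟨(b (a (b (a (l 3) (b (a (a (l 3) (c (l 52781105527) (l 42580557943))) (a (b (a (l 35064362599) (a (l 16768712) (l 16768472))) (l 3)) (b (l 16768520) (l 31843137943)))) (l 3))) (l 3)) (a (b (a (b (b (l 16767696) (a (a (b (l 16766944) (l 16767672)) (l 16768136)) (l 16767392))) (a (a (l 3) (l 53854846231)) (b (b (c (l 16767264) (l 16768456)) (a (l 3) (l 16767696))) (l 3)))) (b (c (l 16766576) (l 16766352)) (b (a (c (l 16769288) (l 16767840)) (l 16768224)) (a (b (a (l 16767936) (l 16767472)) (l 3)) (b (l 16768048) (a (l 16768368) (l 16767232))))))) (l 3)) (b (b (c (l 16766248) (l 16765928)) (a (a (b (l 16764600) (l 16767424)) (l 16766976)) (a (l 16765976) (l 16762344)))) (b (b (a (b (c (l 16768768) (c (l 16768680) (l 14126396071))) (a (a (l 3) (l 16768056)) (c (l 16767056) (l 16768256)))) (c (l 16767816) (l 16767656))) (b (a (a (l 3) (a (l 3) (l 21642589863))) (a (a (l 16767008) (l 16766504)) (l 16765752))) (a (l 3) (a (a (l 23790073911)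 (a (l 16767376) (l 16767136))) (l 16767824))))) (a (l 3) (a (l 3) (b (b (a (a (l 16767624) (l 16767384)) (l 16767672)) (a (l 3) (l 23790073847))) (l 3)))))))) (l 3)), by decide +kernel⟩

def k63_pp_012_a : ∃ t, chk3 f_pp_012_a t 13 4 1 = true :=
  ⟨(b (a (a (b (b (l 16632792) (l 16640288)) (l 16652072)) (b (l 16624680) (l 16639368))) (b (l 16606984) (a (l 16627144) (l 16615200)))) (a (a (b (l 16667832) (l 16683880)) (l 16714768)) (a (l 16691040) (b (l 16629152) (l 16643520))))), by decide +kernel⟩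

def k64_pp_012_a : ∃ t, chk3 f_pp_012_a t 26 10 1 = true :=
  ⟨(b (a (b (l 16695936) (l 16725112)) (l 16706512)) (b (a (a (b (l 16714872) (l 16719496)) (l 16709640)) (l 16719392)) (a (a (l 16726736) (l 16739976)) (a (b (l 16709232) (l 16713936)) (l 16704128))))), by decide +kernel⟩

def k65_pp_012_a : ∃ t, chk3 f_pp_012_a t 26 22 1 = true :=
  ⟨(a (a (b (c (l 16758128) (l 16756816)) (b (l 16755064) (a (l 16762872) (l 16748400)))) (b (l 16749720) (b (l 16736704) (l 16752920)))) (b (a (l 16742088) (l 16734608)) (a (b (l 16728944) (l 16734576)) (l 16724128)))), by decide +kernel⟩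

def k66_pp_012_a : ∃ t, chk3 f_pp_012_a t 104 23 1 = true :=
  ⟨(b (a (b (c (l 16765064) (a (l 16764400) (l 16762360))) (a (a (b (c (l 16767072) (l 16766896)) (b (b (l 16767576) (a (a (l 16767384) (l 16767144)) (l 16766768))) (b (a (l 3) (c (l 16767552) (l 16768120))) (l 3)))) (b (l 16765976) (b (c (l 16765696) (l 16766880)) (b (c (l 16766816) (c (l 16768056) (l 16767360))) (a (l 12515784215) (c (l 16767312) (l 3388978983))))))) (a (b (l 16764960) (b (l 16767240) (a (b (l 16766016) (l 16767432)) (l 16767200)))) (b (l 16761328) (c (l 16767064) (l 16766904)))))) (a (b (l 16760552) (b (l 16765048) (c (l 16765552) (l 16766016)))) (b (l 16753296) (b (l 16757776) (l 16763424))))) (b (a (b (a (l 3) (a (b (b (a (a (l 3) (l 18958235015)) (c (l 16767064) (l 16767640))) (l 3)) (l 3)) (a (b (b (l 16766520) (b (l 16767744) (l 16767456))) (l 3)) (b (a (b (l 16766144) (l 16767560)) (l 16767584)) (c (c (l 16769240) (l 16768792)) (l 25937557239)))))) (l 3)) (b (a (a (a (b (l 16767200) (b (b (l 16766840) (l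 16767544)) (l 3))) (b (l 16766688) (b (l 16767184) (b (l 16767744) (l 16767784))))) (c (l 16768048) (b (l 16767168) (a (b (l 16765976) (l 16767400)) (l 16767152))))) (b (l 16765704) (a (a (l 16766688) (l 16764864)) (l 16766720)))) (b (a (b (a (l 3) (a (b (l 16767664) (l 3)) (b (l 16767496) (l 6610203927)))) (l 3)) (a (c (l 10905170967) (b (l 16767216) (b (a (l 16767072) (l 16766560)) (l 23790072359)))) (c (l 16768296) (l 16766248)))) (a (l 3) (b (a (a (l 3) (b (l 16767664) (l 3))) (a (b (l 16767496) (l 4462720199)) (l 16767344))) (a (l 3) (a (l 3) (l 24326943447)))))))) (l 3))), by decide +kernel⟩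

def k67_pp_012_a : ∃ t, chk3 f_pp_012_a t 105 23 1 = true :=
  ⟨(b (a (b (l 16760760) (b (l 16759984) (c (l 16763144) (l 16762832)))) (b (l 16746272) (l 16760056))) (b (b (a (a (c (l 16767136) (l 16764328)) (l 16762384)) (l 16761944)) (b (a (a (a (l 16765920) (l 16766208)) (l 16764664)) (l 16762904)) (c (a (a (a (l 16767480) (l 16767776)) (l 16766256)) (l 16765824)) (a (a (a (b (l 16767032) (b (l 16767624) (l 17347620807))) (l 16766384)) (l 16766144)) (l 16764344))))) (a (a (b (b (a (b (b (c (l 16767104) (l 16810750567)) (c (l 16767472) (l 20568847399))) (l 3)) (b (b (l 16767392) (l 14126395063)) (a (l 17884492711) (c (l 16766792) (l 16767008))))) (l 3)) (l 3)) (b (b (c (l 16766456) (c (l 16766408) (l 16766376))) (b (a (c (l 16767440) (c (l 16767424) (l 5536461511))) (l 16767064)) (a (a (l 3) (l 13052654663)) (c (l 16767184) (l 16767248))))) (a (l 3) (b (b (a (l 3) (c (l 16767688) (l 16767352))) (l 3)) (l 3))))) (b (a (b (l 16765680) (a (l 16766424) (l 16765392))) (c (l 16764456) (l 16764328)))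 (a (b (b (a (a (l 16767176) (l 16766008)) (l 16765240)) (a (a (l 5536462135) (l 16767352)) (l 16766664))) (a (l 3) (a (b (b (l 16767168) (l 16767376)) (l 3)) (b (c (l 16767176) (l 16767176)) (b (c (l 16767408) (l 16767088)) (l 3)))))) (b (c (l 16765416) (l 16765352)) (b (a (l 16766736) (l 16766032)) (a (c (b (a (l 16767240) (l 16766072)) (a (a (l 16767248) (l 16767160)) (l 16766784))) (a (c (l 16767432) (l 16767432)) (l 16766920))) (c (l 16766152) (l 16766792)))))))))), by decide +kernel⟩

def k68_pp_012_a : ∃ t, chk3 f_pp_012_a t 53 23 1 = true :=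
  ⟨(b (a (a (a (l 16756712) (l 16754720)) (l 16751744)) (c (l 16756648) (l 16745552))) (a (a (a (b (l 16760400) (b (l 16762336) (b (l 16764640) (a (a (l 16765640) (l 16765128)) (l 16764352))))) (b (l 16758368) (b (l 16762912) (b (l 16765200) (l 16764112))))) (b (l 16760584) (b (l 16754608) (a (l 16761296) (l 16761864))))) (b (l 16754576) (a (a (l 16758320) (l 16756296)) (l 16753280))))), by decide +kernel⟩

def k69_pp_012_a : ∃ t, chk3 f_pp_012_a t 27 5 1 = true :=
  ⟨(b (b (a (l 16671560) (l 16679288)) (a (l 16688720) (l 16675072))) (b (a (b (l 16734304) (b (l 16731384) (l 16736784))) (a (l 16697352) (l 16690560))) (a (a (b (l 16727736) (c (a (l 16751760) (l 16747848)) (l 16749600))) (b (l 16720376) (c (l 16742112) (l 16741968)))) (b (c (l 16731168) (l 16730568)) (a (l 16734800) (l 16738152)))))), by decide +kernel⟩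

def k70_pp_012_a : ∃ t, chk3 f_pp_012_a t 12 6 1 = true :=
  ⟨(l 3), by decide +kernel⟩

def k71_pp_012_a : ∃ t, chk3 f_pp_012_a t 52 24 1 = true :=
  ⟨(b (a (l 3) (b (a (l 3) (b (b (a (l 3) (b (b (a (a (l 3) (c (a (a (l 16767024) (l 16766896)) (l 16766872)) (l 16767176))) (c (l 16766728) (l 16766728))) (a (l 3) (a (a (l 16767016) (l 16766928)) (l 16766864)))) (a (l 3) (a (c (c (l 10905170631) (l 16767296)) (l 16767624)) (b (a (l 16766736) (l 16766480)) (l 16767320)))))) (l 3)) (l 3))) (l 3))) (l 3)), by decide +kernel⟩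

def k72_pp_012_a : ∃ t, chk3 f_pp_012_a t 53 48 1 = true :=
  ⟨(a (b (b (a (a (a (b (b (c (l 16765904) (l 16765232)) (c (l 16766768) (l 16766680))) (a (b (c (l 16767384) (l 16767392)) (l 3)) (b (c (l 16767208) (l 16767216)) (l 16767328)))) (b (c (l 16765592) (l 16765896)) (b (l 16766440) (a (l 16767152) (l 16766968))))) (b (c (l 16764384) (l 16765640)) (c (c (l 16765952) (l 16765944)) (l 16765920)))) (a (b (l 16762296) (l 16763872)) (a (l 16761536) (l 16761824)))) (a (a (b (b (a (l 3) (a (l 3) (l 16767416))) (l 3)) (l 3)) (a (b (b (c (l 16766984) (l 16766984)) (a (l 16767360) (l 16767184))) (l 3)) (c (b (l 16767008) (b (l 16767520) (l 16768296))) (b (l 16766992) (b (l 16767360) (l 16767960)))))) (a (a (b (l 16765960) (a (b (l 16766104) (l 16766888)) (l 16766632))) (c (l 16765736) (l 16765704))) (c (l 16764848) (l 16765448))))) (a (l 3) (b (b (b (a (a (c (l 16768064) (l 16767728)) (l 16767040)) (l 16766144)) (a (a (l 3) (a (l 3) (l 16766920))) (c (l 16766944) (l 16766928)))) (a (l 3) (a (b (a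 (l 16767184) (l 16766680)) (l 3)) (c (l 16766952) (c (l 16767600) (l 16766936)))))) (a (l 3) (a (l 3) (a (l 3) (b (b (l 16767216) (l 3)) (l 3)))))))) (b (a (a (b (l 16760280) (l 16762752)) (b (l 16760856) (l 16761352))) (b (l 16757816) (l 16759592))) (b (a (a (a (c (l 16765792) (l 16765752)) (l 16764736)) (c (l 16764528) (l 16764464))) (c (l 16761448) (l 16761352))) (a (a (a (b (b (l 16767104) (a (l 3) (l 16766984))) (l 3)) (b (l 16766456) (b (a (l 16767248) (l 16766744)) (l 3)))) (a (b (l 16764768) (a (l 16766944) (l 16766096))) (l 16765912))) (a (a (l 16764792) (l 16765064)) (l 16763520)))))), by decide +kernel⟩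

def k73_pp_012_a : ∃ t, chk3 f_pp_012_a t 53 49 1 = true :=
  ⟨(a (l 3) (b (a (b (a (l 3) (b (b (a (a (l 3) (l 16767936)) (l 16766512)) (a (l 3) (a (l 3) (l 16767048)))) (l 3))) (l 3)) (a (a (b (b (l 16767176) (b (a (l 16767968) (l 16766808)) (l 3))) (l 3)) (b (a (b (l 16765088) (l 16767336)) (l 16766344)) (b (l 97878258391) (l 3)))) (b (c (l 16765720) (l 16766008)) (b (a (a (c (l 20568849335) (l 16768520)) (l 16768024)) (l 16765936)) (a (l 3) (b (l 14126397751) (l 3))))))) (l 3))), by decide +kernel⟩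

def k74_pp_012_a : ∃ t, chk3 f_pp_012_a t 26 25 1 = true :=
  ⟨(l 3), by decide +kernel⟩

def k75_pp_012_a : ∃ t, chk3 f_pp_012_a t 54 24 1 = true :=
  ⟨(b (b (a (a (a (l 16756328) (l 16754320)) (l 16751344)) (c (l 16748216) (l 16750704))) (a (a (c (b (l 16759992) (l 16760472)) (l 16760792)) (a (l 16757152) (l 16753832))) (a (a (l 16754464) (l 16752504)) (l 16749592)))) (b (b (a (a (a (a (l 16763816) (l 16764096)) (l 16761896)) (a (l 16760504) (l 16758464))) (a (c (l 16755504) (l 16752792)) (l 16754136))) (a (a (a (b (l 16765680) (a (a (l 16768056) (l 16766232)) (l 16765448))) (a (l 16764920) (l 16763880))) (c (a (l 16762360) (l 16761624)) (c (l 16762600) (l 16762576)))) (a (a (l 16758256) (l 16757552)) (c (l 16754664) (l 16751872))))) (a (a (b (a (b (a (l 102173227143) (b (l 16766648) (l 27011300327))) (l 3)) (a (b (l 16767312) (b (l 24326945287) (l 3))) (b (l 16764960) (a (l 16767472) (l 16766296))))) (a (l 3) (b (c (l 112373774375) (l 100025744599)) (l 3)))) (b (c (a (b (l 16764736) (l 16765680))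 (c (l 16763488) (l 16763456))) (a (c (l 16765496) (l 16766768)) (l 16764712))) (b (a (a (a (a (l 26474429543) (l 16767896)) (l 16767504)) (c (l 16766104) (l 16766032))) (a (l 16765688) (l 16765304))) (b (a (a (l 3) (l 16768088)) (c (l 16766392) (l 16765664))) (a (l 3) (a (l 16767024) (l 16765984))))))) (b (a (a (a (l 16761896) (l 16760880)) (a (l 16759864) (l 16758856))) (a (l 16757352) (l 16755360))) (a (c (a (b (l 16763792) (l 16764888)) (c (l 16762576) (l 16762528))) (a (l 16764504) (l 16763760))) (a (a (l 16760984) (l 16759976)) (l 16758464))))))), by decide +kernel⟩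

def k76_pp_012_a : ∃ t, chk3 f_pp_012_a t 55 24 1 = true :=
  ⟨(b (b (a (l 16743272) (l 16746408)) (a (c (l 16749312) (l 16748944)) (l 16741632))) (b (a (a (a (l 16750112) (l 16750800)) (l 16750544)) (c (l 16747776) (l 16747160))) (a (c (a (b (l 16756464) (l 16756912)) (l 16751520)) (a (l 16756440) (l 16751168))) (a (c (l 16750336) (l 16755104)) (l 16751504))))), by decide +kernel⟩

def k77_pp_012_a : ∃ t, chk3 f_pp_012_a t 54 25 1 = true :=
  ⟨(b (a (b (a (l 3) (b (a (l 3) (b (a (l 108615675767) (b (l 16766784) (a (l 3) (l 16767320)))) (l 3))) (l 3))) (l 3)) (b (a (b (b (a (a (a (l 16766736) (l 16766544)) (l 16765768)) (a (l 16764736) (l 16763056))) (a (a (b (a (l 16767600) (l 16767088)) (l 3)) (c (l 16766904) (l 16766664))) (c (c (l 16765880) (l 16765184)) (l 16765104)))) (a (b (c (l 116668740711) (l 102710099479)) (l 3)) (a (b (b (l 16766872) (a (l 3) (l 16767416))) (l 3)) (a (b (l 16766496) (l 79624648903)) (b (l 16765984) (b (l 16767184) (l 3))))))) (a (b (b (l 16762512) (a (l 16763616)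 (l 16762600))) (a (b (l 16765864) (b (l 16766408) (l 16767864))) (b (l 16764184) (l 16766440)))) (b (a (l 16762104) (l 16761096)) (b (l 16763968) (a (l 16764760) (l 16763744)))))) (a (l 3) (b (a (b (a (l 110226291511) (b (l 16766984) (a (l 3) (l 16767528)))) (l 3)) (b (c (l 16766560) (l 16767088)) (a (b (l 34527493351) (l 3)) (a (l 23790073879) (l 16766680))))) (a (l 3) (b (c (l 129016774823) (l 115058130903)) (l 3))))))) (l 3)), by decide +kernel⟩

def k78_pp_012_a : ∃ t, chk3 f_pp_012_a t 55 50 1 = true :=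
  ⟨(a (b (a (a (b (l 16759592) (a (l 16763248) (l 16762240))) (c (b (l 16759024) (l 16759520)) (l 16760368))) (a (c (l 16758624) (l 16758360)) (b (l 16752344) (l 16760688)))) (a (b (a (b (l 16765120) (l 16766712)) (c (l 16762664) (l 16762496))) (b (a (a (b (l 16768424) (l 78550908935)) (l 16767808)) (l 16764976)) (b (a (a (l 3) (l 72645328551)) (l 16768800)) (a (l 3) (a (l 56002330023) (l 16766472)))))) (a (b (l 16761888) (l 16765720)) (b (l 16759896) (l 16761744))))) (a (b (b (l 16754656) (l 16757744)) (b (c (l 16761008) (l 16760696)) (l 16761384))) (b (c (l 16757808) (l 16757312)) (b (l 16756936) (l 16760064))))), by decide +kernel⟩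

def k79_pp_012_a : ∃ t, chk3 f_pp_012_a t 55 51 1 = true :=
  ⟨(a (b (a (b (a (l 3) (b (c (a (b (l 130090515127) (l 3)) (b (l 46338653111) (c (l 128479902007) (l 120963709159)))) (a (l 117742484743) (b (l 16768520) (l 76403425095)))) (l 3))) (l 3)) (a (a (b (b (c (l 16768360) (l 16767904)) (b (c (c (a (l 133848611223) (l 66739748007)) (l 115594999623)) (l 71571586455)) (l 3))) (l 3)) (b (b (l 16765648) (b (l 16768168) (c (a (b (l 50096749703) (l 69424103063)) (l 16768432)) (l 60834167591)))) (b (c (b (c (l 113984388039) (l 109689420663)) (l 3)) (l 106468195751)) (l 3)))) (b (c (c (l 16767824) (l 16767600)) (l 16767560)) (a (b (a (b (l 47412394919) (l 3)) (b (l 16767136) (l 73182198855))) (l 3)) (b (c (l 16768128) (l 16766672)) (c (b (l 53317975399) (l 117205613975)) (l 98952001911))))))) (l 3)) (b (b (a (c (l 16765968) (l 16764448)) (l 16760592)) (a (a (a (b (l 16765744) (a (l 55465458311) (l 16767000))) (l 16768112)) (l 16766608)) (c (l 16766368) (l 16763496)))) (a (b (b (a (a (l 110226292231)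 (b (l 16769336) (a (l 71034717831) (l 40433074999)))) (c (l 16766328) (l 16768752))) (a (l 3) (a (a (l 108615678983) (b (l 16767616) (l 103246970263))) (c (l 16769952) (l 9831432679))))) (a (l 3) (b (c (a (l 3) (l 103246970551)) (l 110763163943)) (l 3)))) (a (b (c (l 16766400) (l 16764872)) (b (a (b (l 16768024) (a (l 95730777655) (l 16767872))) (l 16767072)) (a (l 3) (b (a (l 52781104199) (l 16767624)) (l 109152550167))))) (b (l 16764304) (a (b (l 16765744) (a (l 10368300887) (l 16767000))) (b (l 16764744) (l 16767568)))))))), by decide +kernel⟩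

def k80_pp_012_a : ∃ t, chk3 f_pp_012_a t 13 13 1 = true :=
  ⟨(a (l 3) (b (a (l 3) (b (a (l 3) (b (a (l 3) (b (a (l 3) (b (b (a (a (l 3) (l 9294560343)) (l 16768048)) (a (l 3) (a (l 58686684775) (l 16767896)))) (l 3))) (l 3))) (l 3))) (l 3))) (l 3))), by decide +kernel⟩

def k81_pp_012_a : ∃ t, chk3 f_pp_012_a t 6 7 1 = true :=
  ⟨(l 3), by decide +kernel⟩

def k82_pp_012_a : ∃ t, chk3 f_pp_012_a t 14 2 1 = true :=
  ⟨(b (b (a (l 16581888) (l 16574656)) (a (b (l 16612160) (a (l 16631512) (l 16620480))) (b (l 16592280) (l 16605336)))) (b (a (b (a (l 16645984) (l 16634736)) (a (l 16662376) (l 16658080))) (b (a (l 16623576) (l 16611904)) (a (b (l 16634000) (l 16641608)) (b (l 16621648) (l 16628824))))) (a (b (a (b (l 16675672) (l 16685400)) (b (a (l 16665856) (l 16659288)) (a (l 16675160) (l 16668352)))) (b (a (l 16695760) (a (l 16685136) (l 16678104))) (a (a (l 16730984) (l 16702752)) (a (l 16695480) (l 16688248))))) (a (b (a (b (l 16652720) (l 16661560)) (b (l 16646136) (l 16654776))) (b (a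 (l 16671104) (l 16664128)) (a (l 16681056) (b (l 16671408) (l 16676408))))) (b (b (a (l 16639544) (l 16632936)) (a (l 16647992) (l 16641208))) (a (b (l 16657168) (a (l 16668560) (l 16675496))) (b (b (l 16647920) (l 16652536)) (b (l 16657272) (c (l 16663784) (l 16660512)))))))))), by decide +kernel⟩

def k83_pp_012_a : ∃ t, chk3 f_pp_012_a t 15 2 1 = true :=
  ⟨(b (a (b (l 16558144) (a (l 16583320) (l 16572336))) (b (a (l 16543688) (l 16533808)) (b (l 16530000) (a (l 16565784) (l 16554368))))) (b (a (b (a (b (l 16596960) (l 16602664)) (l 16587704)) (a (b (l 16609168) (l 16615936)) (b (l 16596488) (l 16603080)))) (b (a (l 16575592) (l 16563600)) (a (a (l 16590264) (l 16583984)) (l 16595592)))) (b (a (a (b (a (l 16626320) (l 16619712)) (a (l 16634440) (l 16627696))) (b (a (l 16613136) (l 16606600)) (a (l 16620992) (l 16614328)))) (a (b (a (l 16600096) (l 16593616)) (a (l 16607712) (l 16601136))) (b (l 16583992) (a (l 16594600) (l 16588128))))) (a (a (b (a (b (l 16641040) (l 16645592)) (b (l 16634200)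 (l 16638696))) (a (b (l 16650264) (c (l 16656856) (l 16653312))) (b (l 16643304) (c (l 16649976) (l 16646168))))) (b (a (b (l 16627408) (l 16631848)) (l 16622856)) (a (b (l 16636408) (a (l 16642824) (l 16639360))) (b (l 16629552) (l 16634184))))) (a (b (a (l 16616128) (l 16609448)) (a (b (l 16622752) (l 16627336)) (l 16618264))) (a (b (l 16602816) (l 16611528)) (b (l 16596208) (l 16604816)))))))), by decide +kernel⟩

def k84_pp_012_a : ∃ t, chk3 f_pp_012_a t 28 12 1 = true :=
  ⟨(b (a (b (a (l 16739304) (l 16729384)) (a (b (l 16739960) (l 16745808)) (c (l 16746504) (l 16745304)))) (b (a (l 16706272) (l 16698888)) (a (l 16738456) (b (l 16707208) (l 16733856))))) (b (a (a (b (c (l 16752144) (l 16751456)) (a (c (l 16754848) (l 16754360)) (l 16750736))) (b (l 16744184) (c (l 16750632) (l 16749832)))) (a (c (l 16750696) (l 16749528)) (l 16742560))) (a (b (a (a (b (l 16759288) (l 16762304)) (a (l 16757864) (l 16755920))) (a (l 16753016) (l 16743912))) (a (a (a (b (l 16766256) (c (l 16766760) (l 16765176)))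 (b (l 16759032) (a (l 16762520) (l 16761528)))) (b (l 16761328) (c (l 16764488) (l 16761496)))) (a (c (l 16759144) (l 16758656)) (l 16755016)))) (a (b (l 16748640) (c (l 16754832) (l 16754072))) (b (l 16741008) (l 16746760)))))), by decide +kernel⟩

def k85_pp_012_a : ∃ t, chk3 f_pp_012_a t 112 52 1 = true :=
  ⟨(a (b (b (b (a (a (a (l 16767672) (l 16766520)) (l 16765768)) (l 16765592)) (a (b (a (a (l 16768656) (l 16767656)) (l 16768216)) (c (a (c (l 16769328) (l 47412397095)) (l 16768440)) (a (l 80161520727) (l 16767536)))) (a (l 16767272) (l 16765296)))) (b (a (a (l 3) (b (a (l 62981652727) (a (l 16768312) (l 16768056))) (l 3))) (a (b (c (l 16768208) (l 16767296)) (c (a (l 16768568) (l 16768720)) (l 42043684343))) (c (l 16767920) (l 16766680)))) (a (l 3) (b (c (a (a (l 3) (l 16768832)) (a (l 16768328) (l 16767832))) (a (l 119353097879) (l 16767832))) (a (l 3) (a (l 3) (c (l 16768600) (l 16769008)))))))) (l 3)) (a (b (b (c (l 16765824) (l 16765512)) (b (c (l 16766768) (l 16765176)) (a (b (l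 16768272) (a (a (l 16768432) (l 16768512)) (l 16767480))) (c (l 16767792) (l 16766208))))) (b (a (b (b (c (a (l 16768872) (l 16768528)) (l 49023008119)) (l 3)) (l 3)) (b (c (b (l 16768600) (a (a (l 16768760) (l 16768512)) (l 16768792))) (c (l 16767816) (l 16768984))) (a (l 3) (b (b (l 16768760) (l 3)) (l 3))))) (l 3))) (b (b (l 16763696) (c (c (l 16766944) (l 16766800)) (l 16765248))) (a (b (b (c (l 16768000) (l 16766744)) (a (b (b (l 16768752) (a (l 16768608) (l 16768360))) (l 3)) (b (l 10368301879) (b (a (l 16768496) (l 16768240)) (l 16768760))))) (l 3)) (b (b (l 16767208) (b (l 16768352) (a (c (l 16768840) (l 16767928)) (l 16768880)))) (b (b (c (c (a (l 16769008) (l 16768832)) (l 16768648)) (c (l 16768528) (l 48486138711))) (l 3)) (l 3))))))), by decide +kernel⟩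

def k86_pp_012_a : ∃ t, chk3 f_pp_012_a t 113 52 1 = true :=
  ⟨(a (b (a (b (l 16759104) (a (l 16762616) (l 16761632))) (c (l 16764096) (l 16761056))) (b (a (b (l 16765720) (a (a (l 16767992) (l 16766192)) (l 16765448))) (c (l 16765984) (l 16765648))) (a (a (b (c (b (l 16768368) (a (a (l 16768856) (l 16768608)) (l 16768888))) (l 16768336)) (a (l 3) (a (l 3) (b (b (l 16768576) (l 3)) (l 3))))) (b (c (l 16768096) (l 16766840)) (a (a (b (b (l 16768320) (l 16768712)) (l 3)) (b (l 16768760) (l 16769048))) (b (l 16768552) (c (a (l 16768912) (l 16768656)) (l 16768544)))))) (a (b (l 16767304) (a (b (l 16767400) (a (l 16768952) (l 16768048))) (l 16767944))) (b (l 16765008) (l 16767856)))))) (b (b (l 16759456) (l 16762456)) (a (b (l 16763848) (a (l 16766096) (l 16766424))) (b (l 16759264) (l 16764944))))), by decide +kernel⟩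

def k87_pp_012_a : ∃ t, chk3 f_pp_012_a t 56 53 1 = true :=
  ⟨(a (l 3) (b (a (b (a (l 3) (a (b (c (b (a (a (l 16769192) (l 16768936)) (l 16768896)) (a (l 3) (l 16769344))) (b (l 16768576) (l 82845876919))) (l 3)) (a (b (b (l 16768616) (b (l 16768872) (l 16768936))) (l 3)) (b (b (l 16767464) (l 16768896)) (b (b (l 16769152) (l 3)) (l 3)))))) (l 3)) (a (a (b (b (c (l 16768536) (l 16766968)) (b (a (a (l 16768976) (l 16768400)) (l 16768024)) (c (a (l 16769408) (l 16769072)) (l 16769592)))) (l 3)) (b (b (l 16768736) (c (c (l 16769144) (l 16769040)) (l 16767544))) (b (a (b (l 16769344) (l 3)) (b (l 16768928) (a (l 3) (l 16769592)))) (l 3)))) (a (b (l 16767216) (b (c (c (l 16769048) (l 16768960)) (l 16768784)) (a (l 3) (b (l 16769176) (l 3))))) (b (l 16766064) (b (l 16768568) (b (l 16769088) (a (l 16770128) (l 16768976)))))))) (a (l 3) (a (l 3) (a (l 3) (b (b (l 123111194791) (l 3)) (l 3))))))), by decide +kernel⟩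

def k88_pp_012_a : ∃ t, chk3 f_pp_012_a t 57 26 1 = true :=
  ⟨(b (b (a (a (l 16757056) (l 16747928)) (c (l 16753040) (l 16752176))) (a (a (b (l 16761568) (c (l 16764816) (l 16764408))) (l 16761800)) (a (l 16760528) (l 16746160)))) (a (b (a (b (a (b (l 16762664) (l 16766840)) (l 16766712)) (a (b (l 16768400) (l 16769312)) (c (l 16769960) (l 16767064)))) (b (l 16763768) (a (c (l 16768016) (l 16762448)) (l 16760656)))) (a (b (b (a (b (c (l 16770088) (l 16769728)) (a (a (l 3) (l 16770216)) (l 16768816))) (l 16766944)) (b (a (a (l 3) (a (l 33453756135) (l 16769360))) (l 16770744)) (a (l 3) (c (l 16770304) (l 16770136))))) (a (l 3) (b (a (c (l 81235266743) (l 116131875783)) (a (b (l 16769464) (l 3)) (l 16770840))) (l 3)))) (a (b (l 16768376) (b (l 16770752) (b (c (l 20568853159) (l 33990626967)) (a (l 98415137831) (l 40969947767))))) (c (l 16769080) (l 16769184))))) (a (a (b (l 16762384) (a (l 16767832) (l 16766848))) (b (l 16765672) (l 16766688))) (b (l 16762752) (b (l 16762176) (l 16765336)))))),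 by decide +kernel⟩

def k89_pp_012_a : ∃ t, chk3 f_pp_012_a t 56 27 1 = true :=
  ⟨(l 3), by decide +kernel⟩

def k90_pp_012_a : ∃ t, chk3 f_pp_012_a t 114 54 1 = true :=
  ⟨(b (a (l 3) (b (b (a (a (l 3) (l 125795551207)) (a (b (l 16770624) (l 98952006727)) (l 16770048))) (a (l 3) (a (l 3) (b (a (l 122037454823) (l 61907911527)) (l 137069841479))))) (l 3))) (l 3)), by decide +kernel⟩

def k91_pp_012_a : ∃ t, chk3 f_pp_012_a t 115 108 1 = true :=
  ⟨(b (a (a (b (a (l 16767800) (l 16766872)) (a (b (l 16768880) (a (a (l 111300036519) (l 16769712)) (l 16769360))) (a (l 16771160) (l 16770688)))) (c (c (l 16767568) (l 16766216)) (l 16767456))) (a (l 16766888) (l 16764936))) (b (b (a (a (a (a (l 3) (a (l 118816230375) (l 103246973351))) (a (a (l 57612945095) (l 16769488)) (l 16769136))) (a (a (l 16768672) (l 16768208)) (l 16770136))) (a (l 16766776) (l 16764288))) (a (a (a (l 3) (a (c (l 126869293831) (l 132238002663)) (a (b (l 16769792) (l 117742488599)) (b (l 16769552) (a (l 96804522663) (l 16769848))))))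 (c (a (c (l 16769272) (l 16769184)) (l 16768288)) (a (c (l 16769120) (l 16769072)) (l 16768168)))) (a (a (a (l 16767520) (l 16767064)) (l 16766368)) (l 16767608)))) (a (b (b (a (a (l 3) (a (l 3) (c (l 124721810327) (l 128479906407)))) (a (a (a (b (l 56002333287) (c (l 87677717639) (l 92509555543))) (c (l 33990625943) (l 16769728))) (c (l 16769528) (l 16769384))) (c (l 16768832) (l 16768688)))) (a (l 3) (a (a (a (l 3) (c (a (l 89288330551) (l 38285593671)) (l 81772137527))) (c (c (l 16769928) (l 16769840)) (l 16769736))) (c (l 16769176) (l 16769040))))) (a (l 3) (a (b (a (l 3) (a (l 89288330679) (l 30232529863))) (l 3)) (a (c (a (l 17884499415) (l 16769816)) (l 18958240887)) (l 16769384))))) (a (b (c (a (l 16768072) (l 16767136)) (l 16769768)) (c (c (l 16768336) (l 16768256)) (l 16768336))) (a (b (l 16766144) (l 16766840)) (l 16766224)))))), by decide +kernel⟩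

def k92_pp_012_a : ∃ t, chk3 f_pp_012_a t 115 109 1 = true :=
  ⟨(b (b (a (b (a (l 3) (a (l 3) (a (l 101099490391) (b (l 16769912) (l 75329686951))))) (l 3)) (a (a (b (c (l 16769456) (l 16769336)) (a (a (l 84993363575) (l 36674981159)) (l 16769848))) (c (l 16768864) (l 16768760))) (c (l 16767472) (l 16767384)))) (a (l 3) (a (b (a (a (l 3) (l 87677718055)) (c (l 16769912) (l 16769976))) (a (l 3) (b (l 72645332215) (l 82309009799)))) (c (l 16769424) (l 16771392))))) (a (l 3) (a (l 3) (b (a (b (a (l 73182203895) (l 16770080)) (l 69424109847)) (c (l 16769776) (l 16769712))) (c (a (l 3) (l 33990630359)) (l 100025750807)))))), by decide +kernel⟩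

def k93_pp_012_a : ∃ t, chk3 f_pp_012_a t 57 55 1 = true :=
  ⟨(l 3), by decide +kernel⟩

def k94_pp_012_a : ∃ t, chk3 f_pp_012_a t 29 12 1 = true :=
  ⟨(b (a (b (a (l 16691536) (b (l 16681560) (l 16686880))) (a (b (l 16699752) (l 16705384)) (l 16695112))) (b (a (b (l 16674328) (l 16679576)) (b (c (l 16668736) (l 16665592)) (l 16667088))) (a (b (l 16684960) (l 16690480)) (b (l 16677664) (l 16683128))))) (a (b (a (b (l 16732120) (l 16717000)) (b (l 16703616) (l 16725184))) (a (c (l 16742176) (l 16725096)) (a (l 16720064) (l 16732008)))) (b (a (b (l 16696136) (l 16701936)) (a (l 16693464) (l 16689768))) (a (b (l 16718280) (l 16734400)) (b (l 16700320) (l 16705920)))))), by decide +kernel⟩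

def k95_pp_012_a : ∃ t, chk3 f_pp_012_a t 29 26 1 = true :=
  ⟨(b (a (a (a (l 16749800) (l 16745952)) (c (l 16751304) (l 16729104))) (a (l 16743064) (b (l 16722096) (l 16717456)))) (b (a (a (c (l 16757288) (l 16756568)) (l 16749208)) (a (l 16752024) (l 16723448))) (a (a (a (b (l 16763528) (l 16761440)) (l 16755976)) (a (l 16757344) (l 16753480))) (a (l 16747712) (l 16750560))))), by decide +kernel⟩

def k96_pp_012_a : ∃ t, chk3 f_pp_012_a t 58 54 1 = true :=
  ⟨(b (a (a (b (l 16763320) (a (b (l 16762776) (l 16765512)) (a (l 16764704) (l 16763728)))) (c (a (l 16762120) (l 16761504)) (l 16762168))) (c (c (a (l 16758704) (l 16754896)) (l 16757912)) (l 16758912))) (a (b (a (c (a (l 16767616) (l 16764456)) (l 16767944)) (a (l 16765096) (l 16760520))) (b (a (a (l 16769648) (l 16766488)) (l 16766184)) (a (a (c (a (l 16772864) (l 16769288)) (l 16771696)) (l 16767880)) (l 16767568)))) (a (b (l 16760224) (l 16762976)) (c (l 16757880) (l 16754928))))), by decide +kernel⟩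

def k97_pp_012_a : ∃ t, chk3 f_pp_012_a t 116 55 1 = true :=
  ⟨(b (a (a (a (l 3) (b (b (c (l 16772024) (l 16771968)) (l 3)) (l 3))) (b (a (b (l 16772352) (b (l 16771784) (l 3))) (c (l 10368308839) (l 16771352))) (a (l 3) (a (l 3) (a (l 3) (b (l 16771856) (l 3))))))) (a (a (b (l 16771120) (b (c (c (l 16772000) (l 16771944)) (l 9831437127)) (l 3))) (b (l 16770144) (c (b (l 16771008) (b (l 16771736) (l 16771456))) (b (l 16769528) (c (l 8757695415) (l 16771104)))))) (b (l 16768680) (b (l 16770776) (a (c (l 11978921015) (b (l 16772216) (l 16770632))) (l 16770384)))))) (a (l 3) (b (a (l 3) (b (a (a (l 3) (c (c (l 16771824) (l 16771584)) (l 16273887543))) (a (b (l 19495112951) (l 9831436791)) (c (l 24863822391) (l 36674980919)))) (l 3))) (l 3)))), by decide +kernel⟩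

def k98_pp_012_a : ∃ t, chk3 f_pp_012_a t 117 55 1 = true :=
  ⟨(b (b (a (c (l 16763248) (l 16763000)) (l 16761856)) (a (a (a (l 16770016) (l 16766416)) (l 16764952)) (l 16764648))) (b (a (c (a (b (l 16770912) (a (c (b (l 11978920823) (l 16771728)) (a (l 13052662535) (l 23790080215))) (c (l 29695660343) (l 10368308823)))) (l 16770168)) (a (b (c (l 16771584) (l 16771464)) (a (c (b (l 28621917463) (l 17884500343)) (b (l 18958241271) (l 16771096))) (a (b (l 16769728) (l 16771096)) (l 16770904)))) (c (l 16770336) (l 16768896)))) (c (l 16767592) (l 16769952))) (a (a (a (l 3) (b (b (a (a (l 3) (l 10905178567)) (c (l 22179467655) (l 16771312))) (l 3)) (l 3))) (b (a (b (c (l 16771440) (l 16771240)) (a (c (l 17347629575) (l 16771536)) (c (l 16771904) (l 16770392)))) (c (l 16770824) (l 16771920))) (b (b (c (a (l 10368308055) (l 16771712)) (a (l 16771160) (l 16770200))) (a (l 3) (a (a (l 16771032) (l 16771112)) (l 16771736)))) (a (l 3) (a (l 27548177159) (c (l 23253209543) (l 16771496))))))) (a (b (c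 (l 16768056) (l 16770448)) (a (a (c (l 39896207271) (l 38285593479)) (a (l 16771712) (l 16771472))) (l 16771512))) (c (l 16766832) (l 16769208)))))), by decide +kernel⟩

def k99_pp_012_a : ∃ t, chk3 f_pp_012_a t 59 27 1 = true :=
  ⟨(a (b (a (b (l 16753328) (a (l 16754816) (l 16755504))) (b (l 16752104) (l 16752608))) (a (b (c (l 16759544) (l 16761816)) (a (a (l 16766456) (l 16765480)) (l 16764024))) (c (b (l 16754384) (l 16761280)) (l 16762056)))) (b (b (c (l 16746688) (l 16756512)) (c (l 16752352) (l 16751824))) (a (c (b (l 16759728) (l 16761360)) (l 16762104)) (b (l 16755664) (l 16761256))))), by decide +kernel⟩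

def k100_pp_012_a : ∃ t, chk3 f_pp_012_a t 28 14 1 = true :=
  ⟨(l 3), by decide +kernel⟩

def k101_pp_012_a : ∃ t, chk3 f_pp_012_a t 58 28 1 = true :=
  ⟨(b (a (l 3) (b (b (a (l 3) (a (a (b (b (c (c (l 22716339079) (l 31306272935)) (a (l 16771072) (l 16770592))) (c (l 9294566855) (l 16771528))) (l 3)) (a (b (b (l 16772176) (c (l 27011305863) (l 16771472))) (l 3)) (b (c (l 16771488) (l 16771280)) (b (c (l 16771416) (l 16771048)) (l 3))))) (b (c (l 16771584) (l 16771368)) (a (b (c (l 16771176) (l 16771632)) (a (l 18958242135) (b (l 16772040) (l 35601240423)))) (c (l 16772536) (l 16772328)))))) (a (l 3) (a (l 3) (b (a (l 67813494919) (b (c (l 18958242775) (l 22179467367)) (a (l 3) (l 22179468439)))) (l 3))))) (l 3))) (l 3)), by decide +kernel⟩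

def k102_pp_012_a : ∃ t, chk3 f_pp_012_a t 59 56 1 = true :=
  ⟨(b (a (c (a (b (a (l 16770368) (l 16765808)) (a (a (b (l 16771688) (b (l 16771784) (l 3))) (c (l 15737018135) (l 15200146551))) (l 16771296))) (b (l 16762904) (l 16768392))) (a (b (c (l 16771840) (l 16771704)) (a (b (c (l 16772368) (c (l 16772280) (l 16772216))) (a (b (l 15737017527) (l 3)) (l 16771232))) (l 16771088))) (l 16768504))) (a (a (l 16763928) (l 16761992)) (l 16760408))) (b (a (a (b (a (a (l 3) (a (l 3) (l 52244239863))) (a (c (l 16772640) (l 20568855815)) (l 16772896))) (a (l 3) (a (l 3) (b (l 16772680) (l 74792819815))))) (a (c (l 16772008) (l 16771408)) (l 16770224))) (a (c (l 16767416) (l 16764568)) (l 16766056))) (a (a (l 3) (b (a (a (b (l 53317983367) (l 3)) (c (l 16772640) (l 16772152))) (l 16771112)) (b (a (l 103783848055) (l 16772872)) (a (l 3) (a (a (l 3) (l 16773192)) (l 16771160)))))) (a (c (c (l 16769704) (l 16770288)) (l 16771464)) (l 16767352))))), by decide +kernel⟩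

def k103_pp_012_a : ∃ t, chk3 f_pp_012_a t 118 57 1 = true :=
  ⟨(b (a (l 3) (b (a (l 3) (b (b (a (l 3) (a (l 47949275303) (l 16771656))) (c (l 101636366407) (l 108078817047))) (l 3))) (l 3))) (l 3)), by decide +kernel⟩

def k104_pp_012_a : ∃ t, chk3 f_pp_012_a t 119 114 1 = true :=
  ⟨(b (a (a (a (a (b (l 16773184) (l 3)) (b (l 16771064) (b (l 38822469911) (l 3)))) (b (l 16770328) (b (l 16772688) (a (l 51170501175) (l 16772808))))) (c (a (l 16771416) (l 16771792)) (l 16772176))) (c (c (l 16769424) (l 16769360)) (l 16769256))) (a (a (a (l 3) (a (l 3) (b (l 107005075111) (l 3)))) (b (b (a (a (a (l 59760434599) (l 52244241079)) (l 16771544)) (l 16770840)) (a (a (l 3) (a (l 74792820407) (l 68350368695))) (a (a (l 61907916999) (l 16771624)) (l 16771272)))) (b (a (l 3) (a (c (l 75866562263) (l 73719078855)) (a (b (l 16771888) (l 100025752039)) (b (l 16771656) (l 16771992))))) (l 3)))) (a (b (c (l 16770432) (l 16772392)) (a (b (c (l 16771248) (l 16771232)) (a (b (c (l 16772648) (l 49559886231)) (l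 93046430679)) (c (l 16772336) (c (l 16771656) (l 16772968))))) (b (l 16770952) (c (l 16770976) (l 16770952))))) (b (l 16770512) (a (a (l 16771888) (l 16769448)) (l 16771368)))))), by decide +kernel⟩

def k105_pp_012_a : ∃ t, chk3 f_pp_012_a t 119 115 1 = true :=
  ⟨(a (l 3) (b (a (b (a (a (l 3) (b (b (c (l 69424111095) (l 73719078167)) (l 3)) (l 3))) (a (b (b (l 16771688) (a (l 83382754135) (l 42580564151))) (b (c (c (l 84456496935) (l 86067109607)) (l 111300041287)) (l 3))) (b (c (l 16771408) (l 16771368)) (a (b (c (l 39896210263) (l 49559886423)) (c (l 67276627511) (l 72645336375))) (b (l 16771760) (b (a (l 49023015367) (l 16771952)) (l 64055401303))))))) (l 3)) (a (b (b (c (l 16770696) (l 16771976)) (a (b (l 16772064) (a (l 18958244199) (l 16771624))) (c (l 16771128) (l 16771088)))) (a (b (b (a (a (l 69424110615) (l 30769404775)) (l 16772624)) (c (l 60834176935) (l 62981660439))) (l 3)) (b (c (l 16772472) (l 6073342791)) (b (c (l 48486145879) (l 51707371175)) (l 3))))) (b (b (a (l 16769968)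 (l 16769496)) (c (l 16771080) (l 16771688))) (a (b (l 16771320) (a (b (l 16771952) (l 16772976)) (l 16771896))) (c (l 16771216) (l 16771832)))))) (b (b (a (l 3) (a (l 3) (a (b (l 68350369367) (l 3)) (b (l 16772064) (l 57076080087))))) (l 3)) (l 3)))), by decide +kernel⟩

def k106_pp_012_a : ∃ t, chk3 f_pp_012_a t 29 29 1 = true :=
  ⟨(l 3), by decide +kernel⟩

def k107_pp_012_a : ∃ t, chk3 f_pp_012_a t 14 15 1 = true :=
  ⟨(l 3), by decide +kernel⟩

def k108_pp_012_a : ∃ t, chk3 f_pp_012_a t 15 12 1 = true :=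
  ⟨(a (b (a (b (a (b (c (l 16661744) (l 16658344)) (c (l 16666800) (l 16663568))) (b (c (l 16654800) (l 16651168)) (c (l 16659792) (l 16656352)))) (a (b (c (l 16671976) (l 16668936)) (c (l 16677296) (l 16674456))) (b (c (l 16664920) (l 16661680)) (c (l 16670176) (l 16667168))))) (b (a (b (c (l 16647912) (l 16644048)) (c (l 16652848) (l 16649192))) (b (l 16639000) (l 16643992))) (a (c (b (l 16657912) (l 16663120)) (b (l 16654488) (l 16659944))) (c (l 16653544) (b (l 16647360) (l 16652784)))))) (a (b (a (b (l 16681416) (l 16687136)) (c (l 16678344) (b (l 16672808) (l 16678616)))) (a (c (l 16696736) (l 16694696)) (a (l 16690184) (l 16686536)))) (b (a (c (l 16671208) (b (l 16665552) (l 16671336))) (c (l 16664136) (b (l 16658360) (l 16664112)))) (a (a (l 16682896) (l 16679280)) (a (l 16675672) (l 16672080)))))) (b (a (b (a (c (l 16636688) (l 16632528)) (l 16627704)) (a (a (l 16646512) (l 16643024)) (c (l 16639736) (l 16635936)))) (a (b (l 16620864) (l 16630872)) (b (l 16614048) (l 16623944)))) (b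 (a (a (a (l 16657336) (l 16653808)) (c (l 16650136) (l 16646960))) (a (l 16641480) (l 16634448))) (a (a (c (l 16667952) (l 16665520)) (c (l 16660864) (l 16658336))) (a (l 16652440) (l 16645304)))))), by decide +kernel⟩

def k109_pp_012_a : ∃ t, chk3 f_pp_012_a t 15 13 1 = true :=
  ⟨(a (b (b (a (a (b (l 16704152) (l 16709952)) (l 16699648)) (a (l 16692320) (l 16685048))) (a (a (c (l 16740520) (l 16728840)) (b (l 16708464) (l 16725000))) (a (b (l 16701096) (l 16707152)) (l 16696784)))) (b (a (b (a (l 16749248) (l 16720760)) (a (l 16744464) (l 16726440))) (a (b (c (l 16734704) (l 16712920)) (l 16718952)) (l 16714048))) (a (a (a (a (l 16755592) (l 16753688)) (l 16750824)) (l 16739904)) (a (a (l 16749984) (l 16725272)) (l 16724872))))) (a (a (b (b (l 16677816) (l 16689488)) (b (b (l 16698608) (l 16704192)) (l 16717544))) (b (b (l 16670592) (l 16682192)) (a (l 16701312) (l 16697616)))) (b (a (b (l 16663376) (l 16674888)) (b (l 16656144) (l 16667576))) (a (b (l 16665704) (l 16676472)) (l 16695128))))),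 by decide +kernel⟩

def k110_pp_012_a : ∃ t, chk3 f_pp_012_a t 30 28 1 = true :=
  ⟨(a (b (a (b (b (l 16759760) (l 16757384)) (a (l 16763664) (l 16759816))) (a (l 16758352) (l 16754536))) (a (b (a (b (l 16766768) (a (a (l 16768464) (l 16768832)) (l 16767424))) (c (l 16765768) (l 16765640))) (a (a (b (c (b (a (c (l 16769168) (l 16771752)) (l 16770824)) (c (l 16770216) (l 16770352))) (b (l 16771256) (l 16770984))) (b (a (a (b (l 16771760) (b (l 47949274311) (l 60834176967))) (c (l 16772304) (l 16771960))) (c (l 16771592) (l 16770920))) (a (b (a (l 3) (l 49559888567)) (l 3)) (b (b (l 16771784) (l 35064372455)) (a (l 50096760295) (l 16773096)))))) (c (a (b (l 16768848) (l 16771336)) (b (l 16767656) (l 16769736))) (b (l 16770056) (c (l 16771504) (l 16771504))))) (b (c (c (l 16767280) (l 16767248)) (l 16767216)) (a (a (l 16770088) (l 16767832)) (l 16769032))))) (b (c (l 16761320) (l 16759864)) (a (b (l 16763464) (l 16766192)) (l 16763664))))) (a (b (l 16746232) (a (c (l 16759736) (l 16757016)) (l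 16757184))) (b (l 16730832) (a (l 16754696) (l 16750912))))), by decide +kernel⟩

def k111_pp_012_a : ∃ t, chk3 f_pp_012_a t 120 58 1 = true :=
  ⟨(b (a (b (a (l 3) (b (a (a (b (l 16773328) (l 3)) (c (l 16773856) (l 16773872))) (l 16773112)) (b (a (l 3) (a (l 45801793703) (l 16772624))) (l 3)))) (l 3)) (a (b (b (l 16771688) (c (l 16773576) (l 16773752))) (b (a (c (b (l 13052668151) (l 3)) (l 87140852743)) (a (c (l 16773608) (l 14663279927)) (l 16773712))) (l 3))) (b (l 16770480) (b (l 16773200) (a (b (c (l 16773424) (l 16772776)) (a (l 3) (l 16773240))) (c (l 16773456) (l 16773464))))))) (a (l 3) (b (a (l 3) (a (l 3) (b (b (a (l 16773424) (a (l 16773080) (l 16773496))) (l 3)) (l 3)))) (l 3)))), by decide +kernel⟩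

def k112_pp_012_a : ∃ t, chk3 f_pp_012_a t 121 58 1 = true :=
  ⟨(b (b (a (a (l 16767264) (l 16765360)) (l 16762504)) (a (a (a (l 16773120) (l 16769544)) (l 16770736)) (l 16767848))) (a (b (b (a (a (b (l 16773536) (a (a (l 16773264) (l 16773448)) (l 16773504))) (l 16772928)) (l 16772784)) (a (b (c (a (a (l 3) (l 16773384)) (c (l 16773624) (l 16773312))) (a (l 66202887079) (l 16773240))) (a (l 3) (a (c (l 16773568) (l 16773464)) (c (a (l 16773552) (l 16773632)) (l 16773016))))) (c (l 16773512) (l 16773120)))) (a (l 3) (b (a (a (b (b (a (l 16773208) (l 16773312)) (l 16773416)) (l 3)) (b (c (l 16773560) (l 16772744)) (a (l 3) (b (l 16773456) (l 3))))) (b (l 16773376) (a (a (b (l 16773264) (l 16773424)) (c (l 16773560) (l 16772816))) (l 16773160)))) (b (a (l 3) (a (c (c (l 11442054183) (l 16773648)) (l 16773568)) (c (b (c (l 16773392) (l 16773032)) (a (l 3) (l 16773432))) (l 16773368)))) (l 3))))) (a (b (l 16771520) (a (b (l 16772744) (b (c (c (l 16773496) (l 16773136)) (l 16773072)) (a (c (b (a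 (l 16773360) (l 16773456)) (l 16773568)) (l 12515795495)) (b (l 16773384) (a (b (l 16773432) (l 16773432)) (l 10368311783)))))) (c (c (l 16773160) (l 16773128)) (l 16772904)))) (b (l 16766960) (a (l 16772304) (l 16771824)))))), by decide +kernel⟩

def k113_pp_012_a : ∃ t, chk3 f_pp_012_a t 120 59 1 = true :=
  ⟨(l 3), by decide +kernel⟩

def k114_pp_012_a : ∃ t, chk3 f_pp_012_a t 121 118 1 = true :=
  ⟨(a (l 3) (b (a (b (a (a (l 3) (a (l 3) (b (b (a (l 16773464) (b (l 16773144) (l 16773312))) (l 3)) (l 3)))) (a (c (b (b (c (l 16773312) (l 16772952)) (c (a (l 16773520) (l 16773448)) (l 3925861015))) (a (l 3) (c (l 18958246871) (l 16773488)))) (b (c (l 16773360) (l 16773024)) (l 54928596487))) (b (c (l 16773304) (l 16772576)) (b (c (a (b (l 16773368) (l 16773448)) (l 16773376)) (l 16773248)) (a (l 3) (b (a (l 16773320) (l 11442053703)) (l 16773464))))))) (l 3)) (a (b (b (l 16773200) (c (c (c (c (l 7147086503) (l 16773608)) (l 16773600)) (l 16773416)) (l 16773184))) (a (b (a (a (l 3) (b (b (l 11442053783)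 (l 3)) (l 3))) (c (b (a (b (l 16773224) (l 16773392)) (l 13589537399)) (l 13052666679)) (l 14126408263))) (l 3)) (c (b (b (l 16773536) (a (c (b (l 16773440) (l 6610215687)) (l 16773408)) (l 11978924663))) (b (a (l 3) (b (a (l 16773416) (l 16773464)) (l 14126408455))) (l 3))) (b (c (l 7683957191) (l 16772952)) (l 17347633911))))) (b (l 16772568) (a (b (c (l 16773224) (l 16772496)) (b (c (c (c (c (l 3925861159) (l 16773432)) (l 16773424)) (l 16773400)) (l 16773008)) (c (b (a (a (l 3) (l 12515795671)) (l 13589537479)) (a (l 3) (a (l 13589537511) (l 18421375655)))) (l 14126408247)))) (c (c (l 16773424) (l 16773064)) (l 16773008)))))) (a (l 3) (a (l 3) (b (b (c (b (c (a (a (l 3) (l 13589537703)) (a (b (c (l 3925861175) (l 16773416)) (a (l 3) (l 11442053895))) (l 16773512))) (a (l 22179472247) (a (l 15737021127) (l 16773152)))) (a (l 3) (a (l 3) (b (a (l 13052666663) (c (l 16773544) (l 16773352))) (l 14126408567))))) (a (l 38285598631) (b (l 13589537287) (l 20568859287)))) (l 3)) (l 3)))))), by decide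 +kernel⟩

def k115_pp_012_a : ∃ t, chk3 f_pp_012_a t 121 119 1 = true :=
  ⟨(l 3), by decide +kernel⟩

def k116_pp_012_a : ∃ t, chk3 f_pp_012_a t 61 58 1 = true :=
  ⟨(b (a (a (l 16765264) (l 16756184)) (l 16755696)) (b (a (a (l 16766688) (l 16760208)) (l 16759704)) (a (a (c (l 16769432) (l 16769368)) (l 16765544)) (l 16762568)))), by decide +kernel⟩

def k117_pp_012_a : ∃ t, chk3 f_pp_012_a t 122 236 1 = true :=
  ⟨(a (a (a (b (l 16770288) (a (l 16773216) (l 16771424))) (l 16771976)) (l 16770848)) (c (l 16768296) (l 16768248))), by decide +kernel⟩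

def k118_pp_012_a : ∃ t, chk3 f_pp_012_a t 244 474 1 = true :=
  ⟨(b (a (a (a (c (b (l 16773456) (a (b (l 16773512) (a (a (l 16273892103) (l 16773512)) (l 16773296))) (l 16773352))) (l 16773312)) (l 16773112)) (l 16773040)) (l 16771584)) (a (c (a (a (b (c (b (a (a (l 3) (l 10905183047)) (l 16773464)) (a (l 3) (a (l 8220828551) (l 16773536)))) (a (l 18421375831) (l 16810762951))) (a (l 3) (a (l 3) (b (l 14126408567) (l 3))))) (b (l 16773456) (a (b (a (a (l 15737021255) (l 15737021271)) (l 16773488)) (a (l 3) (b (l 17347633991) (l 16773536)))) (c (l 11978924855) (l 16773216))))) (l 16773432)) (a (c (a (b (l 15737021127) (l 18421376071)) (a (l 12515795607) (l 16773008))) (a (l 22179471879) (l 16773328))) (l 16773040))) (l 16772272))), by decide +kernel⟩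

def k119_pp_012_a : ∃ t, chk3 f_pp_012_a t 244 475 1 = true :=
  ⟨(a (a (a (l 3) (a (l 3) (b (c (b (b (a (a (l 16773576) (l 14663279479)) (c (l 10368312199) (l 16773416))) (c (l 12515795959) (l 26474439527))) (l 3)) (a (l 40969953223) (l 16273892199))) (l 3)))) (a (c (b (a (b (b (l 16773576) (a (b (l 16773520) (l 16810763127)) (l 16773520))) (b (a (l 3) (b (l 17347634055) (l 16773592))) (l 3))) (b (l 16773416) (b (c (l 16773608) (l 16773336)) (a (b (l 11978924999) (l 3)) (c (c (l 16773640) (l 16773464)) (l 16773448)))))) (a (l 3) (b (a (l 3) (a (l 3) (b (l 12515795943) (l 3)))) (l 3)))) (b (b (l 16773312) (a (l 46875533287) (l 16773368))) (l 14663279927))) (b (c (c (l 16773568) (l 16773536)) (l 16773160)) (c (a (b (b (a (b (l 16773592) (a (l 16773584) (l 16773528))) (l 16773552)) (a (l 3) (b (c (l 16773616) (l 16773504)) (l 12515795959)))) (l 3)) (b (c (l 16773616) (l 16773280)) (b (c (a (a (l 16773648) (l 2852119607)) (c (l 16773672) (l 16773504))) (l 16773576)) (a (l 3) (b (l 7683957831)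 (l 3)))))) (b (c (l 8757699431) (l 16773328)) (c (l 15200150535) (l 46875533239))))))) (a (b (l 16773120) (c (b (l 16773344) (a (a (a (b (l 16773376) (b (l 16773624) (a (l 16773616) (l 16773640)))) (l 16773664)) (l 16773480)) (l 16772792))) (c (l 16773472) (l 16773440)))) (l 16772824))), by decide +kernel⟩

def k120_pp_012_a : ∃ t, chk3 f_pp_012_a t 245 237 1 = true :=
  ⟨(a (a (l 16771824) (l 16770200)) (l 16770056)), by decide +kernel⟩

def k121_pp_012_a : ∃ t, chk3 f_pp_012_a t 122 476 1 = true :=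
  ⟨(a (a (l 3) (b (c (a (a (b (c (b (a (a (l 16773720) (a (l 4462732391) (l 7147086903))) (l 16773672)) (a (l 3) (a (b (l 16773696) (l 16773696)) (c (l 16773712) (l 16773536))))) (a (l 13052667015) (c (l 6610215991) (l 16773560)))) (a (l 3) (a (l 3) (b (b (l 6610216071) (l 3)) (l 3))))) (a (b (l 16773584) (b (a (b (l 16773704) (a (l 16773648) (l 16773672))) (l 16773784)) (a (l 6610216167) (c (b (l 16773680) (l 16773680)) (l 16773616))))) (c (l 16773688) (l 16773504)))) (l 16773560)) (a (b (a (a (l 46875533431) (l 16773440)) (l 16773080)) (a (l 18958247063) (a (l 16773624) (l 16773304)))) (l 16773184))) (a (a (l 3) (b (a (l 3) (c (c (a (b (b (l 16773728) (l 16773728)) (l 3)) (b (l 16773736) (a (l 3) (l 16773752)))) (a (l 16773744) (l 16773712))) (l 16773640))) (l 3))) (c (a (b (b (l 16773584) (c (a (a (b (l 16773584) (l 16773744)) (l 16773504)) (l 16773320)) (l 16773744))) (b (a (c (a (l 16773784) (b (l 16773712) (l 16773712))) (l 16773704)) (l 16773768)) (a (l 3) (c (a (b (l 16773768) (l 16773768))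 (l 16773768)) (l 16773728))))) (l 16773688)) (a (b (l 16773616) (a (l 16773744) (l 16773512))) (l 16773640)))))) (a (a (a (l 16773160) (l 16771688)) (l 16772272)) (l 16770824))), by decide +kernel⟩

def k122_pp_012_a : ∃ t, chk3 f_pp_012_a t 122 477 1 = true :=
  ⟨(b (a (a (l 3) (b (a (l 3) (a (a (l 3) (a (l 3) (b (a (l 3) (b (a (l 16773688) (l 16773784)) (l 3))) (l 3)))) (c (a (c (b (c (c (l 16773800) (l 16773760)) (l 16773752)) (a (l 16773824) (a (l 16773776) (l 16773760)))) (a (l 16773800) (l 16773768))) (l 16773800)) (c (l 16773760) (l 16773480))))) (a (l 3) (a (l 3) (a (l 3) (c (c (b (a (a (l 16773784) (l 3388990743)) (l 16773800)) (a (l 3) (a (l 16773840) (l 16773776)))) (a (l 16773816) (l 16773864))) (l 16773720))))))) (a (a (a (b (l 16773536) (c (c (c (c (c (l 16773824) (l 16773824)) (l 16773824)) (l 16773744)) (l 16773728)) (l 16773696))) (l 16773392)) (l 16773320)) (l 16771864))) (a (l 3) (a (c (a (b (a (b (a (c (a (l 16773856) (a (l 16773816) (l 16773872))) (l 16773776)) (l 16773880))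 (a (l 3) (a (b (a (l 16773776) (l 16773712)) (l 16773824)) (l 16773832)))) (l 16773600)) (a (a (l 3) (a (l 3) (b (a (l 16773864) (a (l 16773824) (l 16773816))) (l 3)))) (a (a (c (b (l 16773880) (l 16773896)) (l 16773792)) (b (l 16773592) (b (l 16773888) (l 16773832)))) (l 16773824)))) (l 16773696)) (a (b (a (a (l 16773816) (l 16773592)) (l 16773232)) (a (l 16774024) (a (l 16773696) (l 16773464)))) (l 16773336))) (l 16772560)))), by decide +kernel⟩

def k123_pp_012_a : ∃ t, chk3 f_pp_012_a t 122 239 1 = true :=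
  ⟨(a (l 3) (a (b (b (a (a (l 3) (b (a (l 3) (c (a (b (b (l 16773856) (l 16773864)) (l 3)) (b (l 16773856) (c (l 16773872) (l 16773864)))) (l 16773800))) (l 3))) (a (b (c (a (c (l 16773920) (l 16773600)) (l 16773344)) (l 16773776)) (a (b (c (a (l 16773880) (b (l 16773744) (l 16773840))) (l 16773824)) (l 3)) (c (a (b (l 16773664) (a (l 16773880) (l 16773888))) (l 16773960)) (l 16773672)))) (c (l 16773808) (l 16773136)))) (a (l 3) (a (a (l 3) (b (b (a (l 3) (b (c (l 16773848) (l 16773832)) (l 16773928))) (l 3)) (l 3))) (c (a (b (a (b (l 16773928) (l 16773912)) (c (l 16773928) (l 16773728))) (c (l 16774064) (l 16774128))) (b (l 16773872) (c (b (c (l 16773960) (l 16773800)) (c (l 16773984) (l 16773984))) (l 16773984)))) (b (c (l 16774000) (l 16773648)) (c (l 16774000) (l 16773976))))))) (l 3)) (b (a (b (l 16773080) (a (a (b (l 16773304) (c (l 16773928) (l 16773648))) (l 16773552)) (l 16773512))) (l 16773088)) (b (a (b (a (c (a (b (a (l 16773968) (l 16774000)) (l 16773936)) (c (l 16773984) (l 16773736)))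 (c (l 16773960) (l 16773856))) (l 16773864)) (a (a (l 3) (a (l 3) (b (c (l 16773936) (l 16773952)) (l 3)))) (a (c (a (b (l 16773808) (l 16773992)) (l 16773936)) (l 16773848)) (l 16773912)))) (c (l 16773456) (l 16772808))) (a (a (l 3) (b (a (c (l 16774056) (l 16774184)) (c (b (l 16774008) (l 16774032)) (l 16773952))) (l 3))) (a (c (a (b (l 16773840) (a (l 16774112) (l 16774016))) (l 16774016)) (b (l 16773568) (l 16774088))) (l 16773888))))))), by decide +kernel⟩

def k124_pp_012_a : ∃ t, chk3 f_pp_012_a t 123 59 1 = true :=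
  ⟨(a (a (b (l 16768064) (b (l 16770888) (b (l 16771616) (c (l 16773304) (l 16772968))))) (b (l 16764832) (b (l 16766304) (l 16770976)))) (b (l 16764568) (a (a (l 16768808) (l 16767824)) (l 16766344)))), by decide +kernel⟩

def k125_pp_012_a : ∃ t, chk3 f_pp_012_a t 60 30 1 = true :=
  ⟨(l 3), by decide +kernel⟩

def k126_pp_012_a : ∃ t, chk3 f_pp_012_a t 122 60 1 = true :=
  ⟨(b (a (l 3) (b (a (l 3) (a (l 3) (b (b (a (a (l 3) (a (l 3) (b (b (l 16773984) (l 3)) (l 3)))) (b (c (c (l 16774080) (l 16774080)) (l 16773752)) (c (a (l 16774256) (a (l 55465468775) (l 16773992))) (l 16774128)))) (l 3)) (l 3)))) (l 3))) (l 3)), by decide +kernel⟩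

def k127_pp_012_a : ∃ t, chk3 f_pp_012_a t 123 120 1 = true :=
  ⟨(b (a (a (a (b (b (c (l 16773832) (l 16773832)) (a (b (c (c (l 16774200) (l 16773952)) (l 16773952)) (c (c (l 16774328) (l 16774328)) (l 16774336))) (c (l 16774104) (l 16773608)))) (a (l 3) (b (b (c (c (l 16774152) (l 16774152)) (l 16774152)) (l 3)) (l 3)))) (b (l 16773512) (a (b (c (c (l 16774136) (l 16774464)) (l 16773800)) (c (c (l 16774552) (l 16774552)) (l 16774560))) (b (l 16773296) (c (c (b (l 16774480) (l 66202886887)) (l 16774000)) (l 16773992)))))) (a (b (l 16771536) (c (l 16773560) (l 16773536))) (l 16772696))) (a (l 16771704) (l 16770376))) (a (a (l 3) (b (a (b (c (a (a (l 55465468871) (l 16774304)) (l 16774328)) (c (l 16774256) (l 16773920))) (a (l 3) (c (c (l 61371048551) (l 57076081239)) (l 68887241271)))) (c (l 6073345943) (l 16773896))) (a (l 3) (b (a (a (l 3) (l 65666016247)) (c (l 16774376) (l 16774344))) (c (l 73719082871) (l 88751468391)))))) (b (a (a (l 16772256) (l 16771256)) (l 16769768)) (a (a (b (l 16774576)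 (a (a (l 16774848) (l 16774080)) (l 16773688))) (l 16772608)) (l 16772096))))), by decide +kernel⟩

def k128_pp_012_a : ∃ t, chk3 f_pp_012_a t 123 121 1 = true :=
  ⟨(a (l 3) (b (a (a (a (l 3) (b (b (a (l 32916893943) (l 16774920)) (l 3)) (l 3))) (a (b (b (l 16775184) (a (l 3) (l 54391730247))) (l 3)) (b (b (l 16773360) (c (l 16774904) (l 21105732983))) (b (b (l 68350373991) (l 3)) (l 3))))) (a (b (b (l 16772616) (l 16773944)) (b (a (b (l 16774704) (a (l 83382759015) (l 64055405783))) (l 16774360)) (a (l 3) (a (b (l 70497856903) (l 3)) (b (l 16774744) (c (l 74255953399) (l 84456500567))))))) (a (b (l 16773512) (b (l 16773208) (b (l 16773704) (a (c (l 24863829095) (l 37211859911)) (l 16773912))))) (b (l 16771704) (b (l 16772704) (a (l 16774152) (l 16773248))))))) (b (a (l 3) (a (l 3) (a (b (b (a (c (l 80161533623) (l 90362080791)) (b (c (l 16774544) (l 37211859735)) (a (l 98415143767) (a (l 87677725255) (l 71571598007))))) (l 3)) (l 3)) (a (b (b (c (l 16774048) (l 16773952)) (a (b (b (l 50633632263)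 (l 98952014455)) (l 3)) (b (c (l 27548183207) (l 39359343159)) (b (a (l 3) (l 56002341319)) (l 3))))) (l 3)) (b (b (l 16774400) (b (c (l 16774048) (l 16773944)) (b (c (l 16774496) (l 16774400)) (a (c (l 41506826935) (l 52244245079)) (l 16774152))))) (b (b (a (c (l 59760438263) (l 68887243671)) (b (l 17884506887) (l 56002341511))) (l 3)) (l 3))))))) (l 3)))), by decide +kernel⟩

def k129_pp_012_a : ∃ t, chk3 f_pp_012_a t 61 61 1 = true :=
  ⟨(l 3), by decide +kernel⟩

def k130_pp_012_a : ∃ t, chk3 f_pp_012_a t 30 31 1 = true :=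
  ⟨(l 3), by decide +kernel⟩

def k131_pp_012_a : ∃ t, chk3 f_pp_012_a t 31 14 1 = true :=
  ⟨(b (a (b (a (l 16723328) (l 16726400)) (a (l 16745256) (l 16737760))) (b (a (l 16708544) (l 16700952)) (a (a (l 16732104) (l 16728400)) (a (l 16724760) (l 16710440))))) (a (a (a (b (l 16752664) (b (l 16755424) (c (l 16763440) (l 16760728)))) (b (l 16748824) (b (l 16751528) (l 16760776)))) (b (b (l 16735144) (l 16740408)) (a (b (l 16747624) (l 16758136)) (a (l 16752568) (l 16750592))))) (a (b (a (l 16732000) (l 16728128)) (b (l 16743032) (a (l 16744936) (l 16740920)))) (b (a (l 16724264) (l 16731080)) (a (l 16740952) (l 16736968)))))), by decide +kernel⟩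

def k132_pp_012_a : ∃ t, chk3 f_pp_012_a t 124 120 1 = true :=
  ⟨(b (a (c (l 16767448) (l 16764736)) (l 16763440)) (a (c (a (l 16769800) (l 16766512)) (l 16769696)) (a (l 16765768) (l 16762464)))), by decide +kernel⟩

def k133_pp_012_a : ∃ t, chk3 f_pp_012_a t 124 121 1 = true :=
  ⟨(a (b (b (a (c (l 16771152) (l 16770400)) (l 16769104)) (a (a (b (l 16772608) (a (l 16773528) (l 16772368))) (c (l 16771912) (l 16771224))) (a (a (l 16771840) (l 16770024)) (l 16769928)))) (b (a (a (a (b (b (c (l 16773416) (l 16773320)) (c (b (l 16773672) (l 16774496)) (a (l 16774432) (l 16773528)))) (b (a (b (l 16774424) (a (c (l 43654310887) (l 54928599863)) (l 16774216))) (l 16774264)) (b (a (c (l 50633633095) (l 60834180263)) (c (l 16774256) (l 16774168))) (a (l 3) (a (l 61907921895) (l 16774656)))))) (b (c (c (l 16773768) (l 16773064)) (l 16774288)) (c (l 16774112) (l 16774344)))) (b (c (a (l 16773240) (l 16772088)) (l 16773528)) (c (c (l 16773720) (l 16773008)) (l 16773584)))) (a (a (b (l 16772832) (l 16772232))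 (b (l 16771024) (l 16771728))) (b (l 16771576) (l 16771624)))) (a (b (a (a (b (a (l 3) (c (l 52781117367) (l 60834180983))) (l 3)) (a (b (b (a (l 16774720) (l 16774256)) (l 52781116743)) (l 3)) (b (l 16774816) (a (l 54928600615) (l 25400700279))))) (a (a (c (l 16774544) (l 16774704)) (l 16773832)) (l 16774112))) (a (l 3) (a (a (b (c (l 41506828183) (l 52244246295)) (l 3)) (b (l 8220831335) (l 50096762951))) (a (b (l 16774128) (l 15200153255)) (l 16774056))))) (a (b (c (l 16773408) (l 16772648)) (c (l 16774120) (l 16774032))) (a (a (l 16773088) (l 16772832)) (l 16772456)))))) (c (b (a (a (l 16768000) (l 16766672)) (l 16765824)) (a (a (b (l 16770336) (l 16771752)) (b (l 16769984) (l 16770088))) (c (b (l 16767856) (l 16769272)) (l 16769144)))) (b (a (l 16767032) (l 16765000)) (a (b (l 16770336) (c (l 16771160) (l 16771744))) (l 16769016))))), by decide +kernel⟩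

def k134_pp_012_a : ∃ t, chk3 f_pp_012_a t 125 60 1 = true :=
  ⟨(a (a (b (c (l 16761856) (l 16759056)) (b (c (l 16763168) (l 16768208)) (c (b (l 16765800) (l 16767216)) (l 16766648)))) (b (l 16759768) (b (l 16761704) (c (l 16764816) (l 16764928))))) (a (b (l 16757752) (c (b (c (l 16759192) (l 16759080)) (l 16762784)) (l 16762520))) (b (l 16755736) (c (b (l 16757112) (l 6)) (l 16759480))))), by decide +kernel⟩

def k135_pp_012_a : ∃ t, chk3 f_pp_012_a t 62 61 1 = true :=
  ⟨(a (b (a (b (b (a (a (l 3) (a (l 3) (b (b (a (l 3) (l 33990635415)) (l 3)) (l 3)))) (a (b (a (b (l 16774872) (a (l 37211861127) (l 16774456))) (l 16773896)) (b (a (c (l 28621927367) (l 37748732791)) (l 16775096)) (a (l 3) (c (l 14663283559) (l 25400701703))))) (a (b (l 16773384) (l 16774768)) (c (l 16773936) (l 16773856))))) (a (l 3) (a (l 3) (b (b (a (c (l 16775352) (l 16775304)) (l 16774144)) (a (l 129016785143) (l 16775168))) (b (a (l 3) (c (l 16775584) (l 16775536))) (l 3)))))) (l 3)) (b (b (a (a (b (l 16772776) (l 16773496))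 (a (l 16772376) (l 16771872))) (c (c (l 16770688) (l 16770632)) (l 16770536))) (a (a (a (b (l 16773816) (a (l 16775256) (l 16774416))) (l 16774160)) (c (l 16773600) (l 16773528))) (a (l 16772544) (l 16771368)))) (b (a (a (b (a (c (l 39359346023) (l 42580571623)) (b (l 16775232) (l 16775624))) (l 3)) (a (b (l 16774248) (c (l 16775672) (l 16775640))) (c (l 16774776) (l 16774728)))) (c (a (l 16773360) (b (l 16771992) (l 16772704))) (c (l 16773456) (l 16774080)))) (b (a (a (l 3) (a (l 3) (a (l 37748733159) (l 16775736)))) (b (c (l 16774240) (l 16774352)) (a (l 16775256) (c (l 16773592) (l 16773544))))) (a (l 3) (a (a (a (l 3) (l 16775640)) (l 16775552)) (l 6))))))) (a (l 3) (a (l 3) (a (a (l 3) (l 6)) (l 6))))) (b (a (a (a (b (b (l 16769072) (l 16770512)) (b (l 16771944) (l 6))) (b (a (l 16769024) (l 16768520)) (l 6))) (a (b (a (l 16768168) (l 16767656)) (l 6)) (l 6))) (l 6)) (l 6))), by decide +kernel⟩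

def k136_pp_012_a : ∃ t, chk3 f_pp_012_a t 63 30 1 = true :=
  ⟨(a (b (b (a (c (l 16752840) (l 16749920)) (c (l 16746176) (l 16745816))) (l 6)) (l 6)) (l 6)), by decide +kernel⟩

def k137_pp_012_a : ∃ t, chk3 f_pp_012_a t 31 31 1 = true :=
  ⟨(a (a (l 3) (l 6)) (l 6)), by decide +kernel⟩

theorem s138_pp_012_a : ∃ t, chk3 f_pp_012_a t 124 60 1 = true := ex3_b k132_pp_012_a k133_pp_012_a

theorem s139_pp_012_a : ∃ t, chk3 f_pp_012_a t 62 60 1 = true := ex3_a s138_pp_012_a k134_pp_012_a

theorem s140_pp_012_a : ∃ t, chk3 f_pp_012_a t 62 30 1 = true := ex3_b s139_pp_012_a k135_pp_012_a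

theorem s141_pp_012_a : ∃ t, chk3 f_pp_012_a t 31 30 1 = true := ex3_a s140_pp_012_a k136_pp_012_a

theorem s142_pp_012_a : ∃ t, chk3 f_pp_012_a t 31 15 1 = true := ex3_b s141_pp_012_a k137_pp_012_a

theorem s143_pp_012_a : ∃ t, chk3 f_pp_012_a t 31 7 1 = true := ex3_b k131_pp_012_a s142_pp_012_a

theorem s144_pp_012_a : ∃ t, chk3 f_pp_012_a t 123 60 1 = true := ex3_b k127_pp_012_a k128_pp_012_a

theorem s145_pp_012_a : ∃ t, chk3 f_pp_012_a t 61 60 1 = true := ex3_a k126_pp_012_a s144_pp_012_a

theorem s146_pp_012_a : ∃ t, chk3 f_pp_012_a t 61 30 1 = true := ex3_b s145_pp_012_a k129_pp_012_a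

theorem s147_pp_012_a : ∃ t, chk3 f_pp_012_a t 30 30 1 = true := ex3_a k125_pp_012_a s146_pp_012_a

theorem s148_pp_012_a : ∃ t, chk3 f_pp_012_a t 30 15 1 = true := ex3_b s147_pp_012_a k130_pp_012_a

theorem s149_pp_012_a : ∃ t, chk3 f_pp_012_a t 122 238 1 = true := ex3_b k121_pp_012_a k122_pp_012_a

theorem s150_pp_012_a : ∃ t, chk3 f_pp_012_a t 122 119 1 = true := ex3_b s149_pp_012_a k123_pp_012_a

theorem s151_pp_012_a : ∃ t, chk3 f_pp_012_a t 244 237 1 = true := ex3_b k118_pp_012_a k119_pp_012_a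

theorem s152_pp_012_a : ∃ t, chk3 f_pp_012_a t 122 237 1 = true := ex3_a s151_pp_012_a k120_pp_012_a

theorem s153_pp_012_a : ∃ t, chk3 f_pp_012_a t 122 118 1 = true := ex3_b k117_pp_012_a s152_pp_012_a

theorem s154_pp_012_a : ∃ t, chk3 f_pp_012_a t 122 59 1 = true := ex3_b s153_pp_012_a s150_pp_012_a

theorem s155_pp_012_a : ∃ t, chk3 f_pp_012_a t 61 59 1 = true := ex3_a s154_pp_012_a k124_pp_012_a

theorem s156_pp_012_a : ∃ t, chk3 f_pp_012_a t 61 29 1 = true := ex3_b k116_pp_012_a s155_pp_012_a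

theorem s157_pp_012_a : ∃ t, chk3 f_pp_012_a t 121 59 1 = true := ex3_b k114_pp_012_a k115_pp_012_a

theorem s158_pp_012_a : ∃ t, chk3 f_pp_012_a t 60 59 1 = true := ex3_a k113_pp_012_a s157_pp_012_a

theorem s159_pp_012_a : ∃ t, chk3 f_pp_012_a t 60 58 1 = true := ex3_a k111_pp_012_a k112_pp_012_a

theorem s160_pp_012_a : ∃ t, chk3 f_pp_012_a t 60 29 1 = true := ex3_b s159_pp_012_a s158_pp_012_a

theorem s161_pp_012_a : ∃ t, chk3 f_pp_012_a t 30 29 1 = true := ex3_a s160_pp_012_a s156_pp_012_a

theorem s162_pp_012_a : ∃ t, chk3 f_pp_012_a t 30 14 1 = true := ex3_b k110_pp_012_a s161_pp_012_a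

theorem s163_pp_012_a : ∃ t, chk3 f_pp_012_a t 30 7 1 = true := ex3_b s162_pp_012_a s148_pp_012_a

theorem s164_pp_012_a : ∃ t, chk3 f_pp_012_a t 15 7 1 = true := ex3_a s163_pp_012_a s143_pp_012_a

theorem s165_pp_012_a : ∃ t, chk3 f_pp_012_a t 15 6 1 = true := ex3_b k108_pp_012_a k109_pp_012_a

theorem s166_pp_012_a : ∃ t, chk3 f_pp_012_a t 15 3 1 = true := ex3_b s165_pp_012_a s164_pp_012_a

theorem s167_pp_012_a : ∃ t, chk3 f_pp_012_a t 119 57 1 = true := ex3_b k104_pp_012_a k105_pp_012_a

theorem s168_pp_012_a : ∃ t, chk3 f_pp_012_a t 59 57 1 = true := ex3_a k103_pp_012_a s167_pp_012_a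

theorem s169_pp_012_a : ∃ t, chk3 f_pp_012_a t 59 28 1 = true := ex3_b k102_pp_012_a s168_pp_012_a

theorem s170_pp_012_a : ∃ t, chk3 f_pp_012_a t 29 28 1 = true := ex3_a k101_pp_012_a s169_pp_012_a

theorem s171_pp_012_a : ∃ t, chk3 f_pp_012_a t 29 14 1 = true := ex3_b s170_pp_012_a k106_pp_012_a

theorem s172_pp_012_a : ∃ t, chk3 f_pp_012_a t 14 14 1 = true := ex3_a k100_pp_012_a s171_pp_012_a

theorem s173_pp_012_a : ∃ t, chk3 f_pp_012_a t 14 7 1 = true := ex3_b s172_pp_012_a k107_pp_012_a

theorem s174_pp_012_a : ∃ t, chk3 f_pp_012_a t 58 55 1 = true := ex3_a k97_pp_012_a k98_pp_012_a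

theorem s175_pp_012_a : ∃ t, chk3 f_pp_012_a t 58 27 1 = true := ex3_b k96_pp_012_a s174_pp_012_a

theorem s176_pp_012_a : ∃ t, chk3 f_pp_012_a t 29 27 1 = true := ex3_a s175_pp_012_a k99_pp_012_a

theorem s177_pp_012_a : ∃ t, chk3 f_pp_012_a t 29 13 1 = true := ex3_b k95_pp_012_a s176_pp_012_a

theorem s178_pp_012_a : ∃ t, chk3 f_pp_012_a t 29 6 1 = true := ex3_b k94_pp_012_a s177_pp_012_a

theorem s179_pp_012_a : ∃ t, chk3 f_pp_012_a t 115 54 1 = true := ex3_b k91_pp_012_a k92_pp_012_a

theorem s180_pp_012_a : ∃ t, chk3 f_pp_012_a t 57 54 1 = true := ex3_a k90_pp_012_a s179_pp_012_a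

theorem s181_pp_012_a : ∃ t, chk3 f_pp_012_a t 57 27 1 = true := ex3_b s180_pp_012_a k93_pp_012_a

theorem s182_pp_012_a : ∃ t, chk3 f_pp_012_a t 28 27 1 = true := ex3_a k89_pp_012_a s181_pp_012_a

theorem s183_pp_012_a : ∃ t, chk3 f_pp_012_a t 56 52 1 = true := ex3_a k85_pp_012_a k86_pp_012_a

theorem s184_pp_012_a : ∃ t, chk3 f_pp_012_a t 56 26 1 = true := ex3_b s183_pp_012_a k87_pp_012_a

theorem s185_pp_012_a : ∃ t, chk3 f_pp_012_a t 28 26 1 = true := ex3_a s184_pp_012_a k88_pp_012_a

theorem s186_pp_012_a : ∃ t, chk3 f_pp_012_a t 28 13 1 = true := ex3_b s185_pp_012_a s182_pp_012_a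

theorem s187_pp_012_a : ∃ t, chk3 f_pp_012_a t 28 6 1 = true := ex3_b k84_pp_012_a s186_pp_012_a

theorem s188_pp_012_a : ∃ t, chk3 f_pp_012_a t 14 6 1 = true := ex3_a s187_pp_012_a s178_pp_012_a

theorem s189_pp_012_a : ∃ t, chk3 f_pp_012_a t 14 3 1 = true := ex3_b s188_pp_012_a s173_pp_012_a

theorem s190_pp_012_a : ∃ t, chk3 f_pp_012_a t 7 3 1 = true := ex3_a s189_pp_012_a s166_pp_012_a

theorem s191_pp_012_a : ∃ t, chk3 f_pp_012_a t 7 2 1 = true := ex3_a k82_pp_012_a k83_pp_012_a

theorem s192_pp_012_a : ∃ t, chk3 f_pp_012_a t 7 1 1 = true := ex3_b s191_pp_012_a s190_pp_012_a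

theorem s193_pp_012_a : ∃ t, chk3 f_pp_012_a t 55 25 1 = true := ex3_b k78_pp_012_a k79_pp_012_a

theorem s194_pp_012_a : ∃ t, chk3 f_pp_012_a t 27 25 1 = true := ex3_a k77_pp_012_a s193_pp_012_a

theorem s195_pp_012_a : ∃ t, chk3 f_pp_012_a t 27 24 1 = true := ex3_a k75_pp_012_a k76_pp_012_a

theorem s196_pp_012_a : ∃ t, chk3 f_pp_012_a t 27 12 1 = true := ex3_b s195_pp_012_a s194_pp_012_a

theorem s197_pp_012_a : ∃ t, chk3 f_pp_012_a t 53 24 1 = true := ex3_b k72_pp_012_a k73_pp_012_a

theorem s198_pp_012_a : ∃ t, chk3 f_pp_012_a t 26 24 1 = true := ex3_a k71_pp_012_a s197_pp_012_a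

theorem s199_pp_012_a : ∃ t, chk3 f_pp_012_a t 26 12 1 = true := ex3_b s198_pp_012_a k74_pp_012_a

theorem s200_pp_012_a : ∃ t, chk3 f_pp_012_a t 13 12 1 = true := ex3_a s199_pp_012_a s196_pp_012_a

theorem s201_pp_012_a : ∃ t, chk3 f_pp_012_a t 13 6 1 = true := ex3_b s200_pp_012_a k80_pp_012_a

theorem s202_pp_012_a : ∃ t, chk3 f_pp_012_a t 6 6 1 = true := ex3_a k70_pp_012_a s201_pp_012_a

theorem s203_pp_012_a : ∃ t, chk3 f_pp_012_a t 6 3 1 = true := ex3_b s202_pp_012_a k81_pp_012_a

theorem s204_pp_012_a : ∃ t, chk3 f_pp_012_a t 52 23 1 = true := ex3_a k66_pp_012_a k67_pp_012_a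

theorem s205_pp_012_a : ∃ t, chk3 f_pp_012_a t 26 23 1 = true := ex3_a s204_pp_012_a k68_pp_012_a

theorem s206_pp_012_a : ∃ t, chk3 f_pp_012_a t 26 11 1 = true := ex3_b k65_pp_012_a s205_pp_012_a

theorem s207_pp_012_a : ∃ t, chk3 f_pp_012_a t 26 5 1 = true := ex3_b k64_pp_012_a s206_pp_012_a

theorem s208_pp_012_a : ∃ t, chk3 f_pp_012_a t 13 5 1 = true := ex3_a s207_pp_012_a k69_pp_012_a

theorem s209_pp_012_a : ∃ t, chk3 f_pp_012_a t 13 2 1 = true := ex3_b k63_pp_012_a s208_pp_012_a

theorem s210_pp_012_a : ∃ t, chk3 f_pp_012_a t 51 11 1 = true := ex3_b k61_pp_012_a k62_pp_012_a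

theorem s211_pp_012_a : ∃ t, chk3 f_pp_012_a t 100 89 1 = true := ex3_a k56_pp_012_a k57_pp_012_a

theorem s212_pp_012_a : ∃ t, chk3 f_pp_012_a t 100 44 1 = true := ex3_b k55_pp_012_a s211_pp_012_a

theorem s213_pp_012_a : ∃ t, chk3 f_pp_012_a t 100 22 1 = true := ex3_b s212_pp_012_a k58_pp_012_a

theorem s214_pp_012_a : ∃ t, chk3 f_pp_012_a t 100 11 1 = true := ex3_b s213_pp_012_a k59_pp_012_a

theorem s215_pp_012_a : ∃ t, chk3 f_pp_012_a t 50 11 1 = true := ex3_a s214_pp_012_a k60_pp_012_a

theorem s216_pp_012_a : ∃ t, chk3 f_pp_012_a t 25 11 1 = true := ex3_a s215_pp_012_a s210_pp_012_a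

theorem s217_pp_012_a : ∃ t, chk3 f_pp_012_a t 25 5 1 = true := ex3_b k54_pp_012_a s216_pp_012_a

theorem s218_pp_012_a : ∃ t, chk3 f_pp_012_a t 198 87 1 = true := ex3_b k50_pp_012_a k51_pp_012_a

theorem s219_pp_012_a : ∃ t, chk3 f_pp_012_a t 198 43 1 = true := ex3_b k49_pp_012_a s218_pp_012_a

theorem s220_pp_012_a : ∃ t, chk3 f_pp_012_a t 99 43 1 = true := ex3_a s219_pp_012_a k52_pp_012_a

theorem s221_pp_012_a : ∃ t, chk3 f_pp_012_a t 197 43 1 = true := ex3_b k47_pp_012_a k48_pp_012_a

theorem s222_pp_012_a : ∃ t, chk3 f_pp_012_a t 98 43 1 = true := ex3_a k46_pp_012_a s221_pp_012_a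

theorem s223_pp_012_a : ∃ t, chk3 f_pp_012_a t 49 43 1 = true := ex3_a s222_pp_012_a s220_pp_012_a

theorem s224_pp_012_a : ∃ t, chk3 f_pp_012_a t 49 21 1 = true := ex3_b k45_pp_012_a s223_pp_012_a

theorem s225_pp_012_a : ∃ t, chk3 f_pp_012_a t 49 10 1 = true := ex3_b k44_pp_012_a s224_pp_012_a

theorem s226_pp_012_a : ∃ t, chk3 f_pp_012_a t 97 85 1 = true := ex3_a k41_pp_012_a k42_pp_012_a

theorem s227_pp_012_a : ∃ t, chk3 f_pp_012_a t 48 85 1 = true := ex3_a k40_pp_012_a s226_pp_012_a

theorem s228_pp_012_a : ∃ t, chk3 f_pp_012_a t 96 84 1 = true := ex3_a k37_pp_012_a k38_pp_012_a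

theorem s229_pp_012_a : ∃ t, chk3 f_pp_012_a t 48 84 1 = true := ex3_a s228_pp_012_a k39_pp_012_a

theorem s230_pp_012_a : ∃ t, chk3 f_pp_012_a t 48 42 1 = true := ex3_b s229_pp_012_a s227_pp_012_a

theorem s231_pp_012_a : ∃ t, chk3 f_pp_012_a t 48 21 1 = true := ex3_b s230_pp_012_a k43_pp_012_a

theorem s232_pp_012_a : ∃ t, chk3 f_pp_012_a t 96 83 1 = true := ex3_b k34_pp_012_a k35_pp_012_a

theorem s233_pp_012_a : ∃ t, chk3 f_pp_012_a t 96 41 1 = true := ex3_b k33_pp_012_a s232_pp_012_a

theorem s234_pp_012_a : ∃ t, chk3 f_pp_012_a t 48 41 1 = true := ex3_a s233_pp_012_a k36_pp_012_a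

theorem s235_pp_012_a : ∃ t, chk3 f_pp_012_a t 48 20 1 = true := ex3_b k32_pp_012_a s234_pp_012_a

theorem s236_pp_012_a : ∃ t, chk3 f_pp_012_a t 48 10 1 = true := ex3_b s235_pp_012_a s231_pp_012_a

theorem s237_pp_012_a : ∃ t, chk3 f_pp_012_a t 24 10 1 = true := ex3_a s236_pp_012_a s225_pp_012_a

theorem s238_pp_012_a : ∃ t, chk3 f_pp_012_a t 24 5 1 = true := ex3_b s237_pp_012_a k53_pp_012_a

theorem s239_pp_012_a : ∃ t, chk3 f_pp_012_a t 12 5 1 = true := ex3_a s238_pp_012_a s217_pp_012_a

theorem s240_pp_012_a : ∃ t, chk3 f_pp_012_a t 12 2 1 = true := ex3_b k31_pp_012_a s239_pp_012_a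

theorem s241_pp_012_a : ∃ t, chk3 f_pp_012_a t 6 2 1 = true := ex3_a s240_pp_012_a s209_pp_012_a

theorem s242_pp_012_a : ∃ t, chk3 f_pp_012_a t 6 1 1 = true := ex3_b s241_pp_012_a s203_pp_012_a

theorem s243_pp_012_a : ∃ t, chk3 f_pp_012_a t 3 1 1 = true := ex3_a s242_pp_012_a s192_pp_012_a

theorem s244_pp_012_a : ∃ t, chk3 f_pp_012_a t 191 166 1 = true := ex3_b k25_pp_012_a k26_pp_012_a

theorem s245_pp_012_a : ∃ t, chk3 f_pp_012_a t 191 83 1 = true := ex3_b s244_pp_012_a k27_pp_012_a

theorem s246_pp_012_a : ∃ t, chk3 f_pp_012_a t 95 83 1 = true := ex3_a k24_pp_012_a s245_pp_012_a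

theorem s247_pp_012_a : ∃ t, chk3 f_pp_012_a t 95 41 1 = true := ex3_b k23_pp_012_a s246_pp_012_a

theorem s248_pp_012_a : ∃ t, chk3 f_pp_012_a t 47 41 1 = true := ex3_a k22_pp_012_a s247_pp_012_a

theorem s249_pp_012_a : ∃ t, chk3 f_pp_012_a t 47 20 1 = true := ex3_b k21_pp_012_a s248_pp_012_a

theorem s250_pp_012_a : ∃ t, chk3 f_pp_012_a t 47 10 1 = true := ex3_b s249_pp_012_a k28_pp_012_a

theorem s251_pp_012_a : ∃ t, chk3 f_pp_012_a t 23 10 1 = true := ex3_a k20_pp_012_a s250_pp_012_a

theorem s252_pp_012_a : ∃ t, chk3 f_pp_012_a t 23 5 1 = true := ex3_b s251_pp_012_a k29_pp_012_a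

theorem s253_pp_012_a : ∃ t, chk3 f_pp_012_a t 11 5 1 = true := ex3_a k19_pp_012_a s252_pp_012_a

theorem s254_pp_012_a : ∃ t, chk3 f_pp_012_a t 90 38 1 = true := ex3_b k14_pp_012_a k15_pp_012_a

theorem s255_pp_012_a : ∃ t, chk3 f_pp_012_a t 45 38 1 = true := ex3_a s254_pp_012_a k16_pp_012_a

theorem s256_pp_012_a : ∃ t, chk3 f_pp_012_a t 45 19 1 = true := ex3_b s255_pp_012_a k17_pp_012_a

theorem s257_pp_012_a : ∃ t, chk3 f_pp_012_a t 22 19 1 = true := ex3_a k13_pp_012_a s256_pp_012_a

theorem s258_pp_012_a : ∃ t, chk3 f_pp_012_a t 22 9 1 = true := ex3_b k12_pp_012_a s257_pp_012_a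

theorem s259_pp_012_a : ∃ t, chk3 f_pp_012_a t 22 4 1 = true := ex3_b k11_pp_012_a s258_pp_012_a

theorem s260_pp_012_a : ∃ t, chk3 f_pp_012_a t 11 4 1 = true := ex3_a s259_pp_012_a k18_pp_012_a

theorem s261_pp_012_a : ∃ t, chk3 f_pp_012_a t 11 2 1 = true := ex3_b s260_pp_012_a s253_pp_012_a

theorem s262_pp_012_a : ∃ t, chk3 f_pp_012_a t 84 70 1 = true := ex3_a k4_pp_012_a k5_pp_012_a

theorem s263_pp_012_a : ∃ t, chk3 f_pp_012_a t 84 35 1 = true := ex3_b s262_pp_012_a k6_pp_012_a

theorem s264_pp_012_a : ∃ t, chk3 f_pp_012_a t 42 35 1 = true := ex3_a s263_pp_012_a k7_pp_012_a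

theorem s265_pp_012_a : ∃ t, chk3 f_pp_012_a t 42 17 1 = true := ex3_b k3_pp_012_a s264_pp_012_a

theorem s266_pp_012_a : ∃ t, chk3 f_pp_012_a t 42 8 1 = true := ex3_b k2_pp_012_a s265_pp_012_a

theorem s267_pp_012_a : ∃ t, chk3 f_pp_012_a t 21 8 1 = true := ex3_a s266_pp_012_a k8_pp_012_a

theorem s268_pp_012_a : ∃ t, chk3 f_pp_012_a t 10 8 1 = true := ex3_a k1_pp_012_a s267_pp_012_a

theorem s269_pp_012_a : ∃ t, chk3 f_pp_012_a t 10 4 1 = true := ex3_b s268_pp_012_a k9_pp_012_a

theorem s270_pp_012_a : ∃ t, chk3 f_pp_012_a t 10 2 1 = true := ex3_b s269_pp_012_a k10_pp_012_a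

theorem s271_pp_012_a : ∃ t, chk3 f_pp_012_a t 5 2 1 = true := ex3_a s270_pp_012_a s261_pp_012_a

theorem s272_pp_012_a : ∃ t, chk3 f_pp_012_a t 5 1 1 = true := ex3_b s271_pp_012_a k30_pp_012_a

theorem s273_pp_012_a : ∃ t, chk3 f_pp_012_a t 2 1 1 = true := ex3_a k0_pp_012_a s272_pp_012_a

theorem s274_pp_012_a : ∃ t, chk3 f_pp_012_a t 1 1 1 = true := ex3_a s273_pp_012_a s243_pp_012_a

theorem c_pp_012_a : CertB 0 536870912 0 536870912 649613803 48318383 3 eng mog cd0q0 cd1q2a pd1 false true true .pnp 0 1 2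
    ndB0q0 ndB1q2a pcB1 cut_pp_012_a Ext.none :=
  certB2 (fam := false) (s1 := true) (s2 := true) (a := 0) (b := 1) (c := 2) (cn := .pnp) (n1 := ndB0q0) (n2 := ndB1q2a) (pc := pcB1) (cut := cut_pp_012_a) (xt := Ext.none) (P1 := 0) (W1 := 536870912) (P2 := 0) (W2 := 536870912) (P3 := 649613803) (W3 := 48318383) (N0 := 3) (En := eng) (mo := mog) (C1 := cd0q0) (C2 := cd1q2a) (C3 := pd1)
    rfl (fun _ => rfl) s274_pp_012_a

end Pool.Agent.Strip051.G.I6050_6500.Tab.C.BB01

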