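import Pool.Agent.Strip051.G.I6050_6500.Tab
import Pool.Agent.Strip051.PB.ExtD2

/-! # Certificates B22 (generated) -/

set_option linter.all false
set_option maxRecDepth 100000

namespace Pool.Agent.Strip051.G.I6050_6500.Tab.C.BB01

open Pool.Agent.Strip051.PB Pool.Agent.Strip051.PB.T
open Pool.Agent.Strip051.G.I6050_6500.Tab

noncomputable def cut_pp_012_b : Cut := Cut.of [[⟨0, 0, 0, 53687091⟩, ⟨1, 1, 0, 53687091⟩, ⟨2, 1, 0, 53687091⟩]]

noncomputable def f_pp_012_b : ℕ → ℕ → ℕ → ℕ → Bool := onCell 0 536870912 1239849684 370763052 649613803 48318383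
    (rowB 3 eng mog cd0q0 cd1q2b pd1 0 false true true .pnp 0 1 2 (qsf 0 536870912 1239849684 370763052 1) ndB0q0 ndB1q2b pcB1 cut_pp_012_b Ext.none)

def k0_pp_012_b : ∃ t, chk3 f_pp_012_b t 2 1 1 = true :=
  ⟨(b (a (l 2) (b (a (b (a (a (l 2) (b (l 16499200) (l 2))) (b (l 16513192) (l 16474432))) (l 2)) (b (a (b (l 16530840) (l 16489480)) (l 16586040)) (a (a (l 16422616) (l 16427624)) (a (l 16476192) (l 16442520))))) (a (l 2) (b (a (l 2) (b (l 16374072) (l 2))) (l 2))))) (l 2)), by decide +kernel⟩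

def k1_pp_012_b : ∃ t, chk3 f_pp_012_b t 3 1 1 = true :=
  ⟨(b (a (b (a (a (b (a (l 16577736) (l 16566784)) (a (l 16452400) (l 16463784))) (b (a (l 16577832) (l 16631648)) (a (l 16476440) (l 16490136)))) (b (a (b (a (l 16599936) (b (l 16621272) (l 16603432))) (l 16590104)) (b (a (b (l 16633536) (l 16616368)) (b (l 16645544) (l 16629248))) (a (l 16589968) (l 16625240)))) (a (a (l 16504624) (l 16519712)) (a (l 16535248) (l 16572096))))) (a (a (b (a (l 16367960) (l 16380392)) (l 2)) (b (a (l 16394384) (l 16409656)) (a (l 16312088) (l 16328600)))) (b (a (l 16497240) (l 16511008)) (a (l 16376592) (l 16393712))))) (b (a (a (b (b (a (l 16650152) (l 16662728)) (a (l 16617912) (l 16632032))) (b (a (l 16584784) (l 16599720)) (a (l 16549672) (l 16566592)))) (b (b (a (l 16675176) (l 16687440)) (l 16652688)) (a (l 16640824) (l 16614576)))) (b (a (b (a (l 16699496) (l 16711408)) (l 16679584)) (b (a (l 16744200) (b (a (l 16737320) (l 16742736)) (l 16750856))) (a (l 16699536) (l 16712904))))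 (a (l 16658744) (l 16710224)))) (a (a (b (l 16504840) (l 16432640)) (b (a (l 16532520) (l 16550080)) (l 16471664))) (b (a (l 16660808) (l 16613272)) (a (l 16511768) (l 16553112)))))) (a (a (l 2) (b (b (a (l 16277184) (l 16318088)) (a (l 2) (l 16243392))) (l 2))) (a (a (b (b (l 16359880) (l 16287480)) (l 2)) (b (b (l 16401320) (l 16331088)) (b (l 16261848) (l 2)))) (b (b (a (l 16443704) (l 16489096)) (a (l 16375592) (l 16424632))) (b (a (l 16308232) (l 16359008)) (l 16373632)))))), by decide +kernel⟩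

theorem s2_pp_012_b : ∃ t, chk3 f_pp_012_b t 1 1 1 = true := ex3_a k0_pp_012_b k1_pp_012_b

theorem c_pp_012_b : CertB 0 536870912 1239849684 370763052 649613803 48318383 3 eng mog cd0q0 cd1q2b pd1 false true true .pnp 0 1 2
    ndB0q0 ndB1q2b pcB1 cut_pp_012_b Ext.none :=
  certB0 (fam := false) (s1 := true) (s2 := true) (a := 0) (b := 1) (c := 2) (cn := .pnp) (n1 := ndB0q0) (n2 := ndB1q2b) (pc := pcB1) (cut := cut_pp_012_b) (xt := Ext.none) (P1 := 0) (W1 := 536870912) (P2 := 1239849684) (W2 := 370763052) (P3 := 649613803) (W3 := 48318383) (N0 := 3) (En := eng) (mo := mog) (C1 := cd0q0) (C2 := cd1q2b) (C3 := pd1)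
    rfl s2_pp_012_b

noncomputable def cut_pp_022_a : Cut := Cut.of [[⟨0, 0, 0, 67108864⟩, ⟨1, 1, 0, 67108864⟩, ⟨2, 1, 0, 67108864⟩]]

noncomputable def f_pp_022_a : ℕ → ℕ → ℕ → ℕ → Bool := onCell 1073741824 536870912 0 536870912 649613803 48318383
    (rowB 3 eng mog cd0q0 cd1q2a pd2 2 false true true .pp 0 2 2 (qsf 0 536870912 0 536870912 2) ndB0q0 ndB1q2a pcB2 cut_pp_022_a Ext.none)

def k0_pp_022_a : ∃ t, chk3 f_pp_022_a t 8 4 1 = true :=
  ⟨(a (a (b (c (l 16528296) (l 16521464)) (b (l 16534584) (c (l 16545016) (l 16540472)))) (b (c (l 16516984) (l 16511200)) (b (l 16523712) (c (l 16533896) (l 16529488))))) (a (b (l 16524768) (b (l 16513376) (c (l 16523192) (l 16518880)))) (b (l 16494664) (b (l 16503664) (c (l 16513008) (l 16508720)))))), by decide +kernel⟩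

def k1_pp_022_a : ∃ t, chk3 f_pp_022_a t 8 10 1 = true :=
  ⟨(c (a (b (a (a (l 16577400) (l 16571824)) (b (l 16540232) (l 16565864))) (b (a (a (l 16564128) (l 16558584)) (a (l 16553064) (l 16547568))) (a (a (l 16570088) (l 16564544)) (a (l 16559008) (l 16553472))))) (b (a (b (l 16529480) (l 16534080)) (b (l 16519152) (l 16523632))) (a (a (b (l 16542120) (l 16547976)) (b (l 16536744) (l 16542528))) (a (l 16555280) (l 16529056))))) (b (a (a (b (l 16546856) (a (l 16554312) (l 16548576))) (b (l 16535624) (a (l 16542880) (l 16537224)))) (a (b (l 16524688) (a (l 16531632) (l 16526112))) (a (l 16539712) (l 16513488)))) (a (a (a (b (l 16560096) (l 16566512)) (b (l 16554272) (l 16560600))) (a (b (l 16548480) (l 16554688)) (b (l 16542712) (l 16548784)))) (a (a (b (l 16536984) (l 16542920)) (b (l 16531320) (l 16537096))) (c (a (l 16530160) (l 16524672)) (b (l 16521184) (l 16526632))))))), by decide +kernel⟩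

def k2_pp_022_a : ∃ t, chk3 f_pp_022_a t 8 11 1 = true :=
  ⟨(a (b (a (c (b (a (c (l 16577168) (l 16575816)) (c (l 16571696) (l 16570168))) (a (c (l 16584432) (l 16583472)) (c (l 16578960) (l 16577768)))) (b (a (c (l 16574248) (l 16572456)) (c (l 16568360) (l 16566280))) (a (c (l 16582192) (l 16580576)) (c (l 16576200) (l 16574256))))) (c (b (a (l 16586360) (l 16580776)) (a (c (l 16573440) (l 16572024)) (l 16588112))) (b (a (c (l 16562456) (l 16560096)) (l 16565760)) (a (l 16579576) (l 16583864))))) (b (a (a (b (b (c (l 16599608) (l 16586960)) (a (l 16591920) (l 16588976))) (l 16593768)) (b (c (b (l 16583512) (l 16606608)) (l 16602824)) (l 16587792))) (a (c (b (l 16578904) (l 16583152)) (b (l 16575560) (l 16579896))) (c (b (l 16573200) (l 16577392)) (b (l 16569232) (l 16573544))))) (a (c (a (b (l 16599120) (l 16608984)) (l 16603440)) (a (l 16620376) (l 16592928))) (c (a (l 16589680) (l 16583768)) (l 16604104))))) (b (a (a (b (c (l 16554240) (l 16570224)) (c (l 16561488) (l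 16556704))) (c (b (l 16548712) (l 16555856)) (b (l 16543256) (l 16550528)))) (b (c (a (l 16543224) (l 16537800)) (a (l 16537312) (l 16531416))) (c (a (l 16550248) (l 16544680)) (a (l 16544376) (l 16538264))))) (a (a (b (c (b (l 16567472) (l 16571632)) (b (l 16562896) (l 16567176))) (l 16575896)) (b (c (l 16584784) (l 16558688)) (l 16569704))) (b (c (a (l 16558072) (l 16552344)) (a (l 16552328) (l 16545984))) (b (a (l 16561592) (l 16555512)) (l 16562352)))))), by decide +kernel⟩

def k3_pp_022_a : ∃ t, chk3 f_pp_022_a t 8 6 1 = true :=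
  ⟨(b (a (b (a (a (b (a (c (b (l 16610016) (l 16614976)) (l 16610760)) (b (l 16606160) (l 16611096))) (c (b (c (l 16618720) (l 16618192)) (l 16623672)) (b (l 16616744) (l 16622040)))) (b (b (l 16606656) (l 16606256)) (c (b (l 16612256) (l 16617304)) (l 16612368)))) (a (b (c (l 16598792) (l 16595544)) (a (l 16608760) (l 16605400))) (b (l 16590944) (l 16605584)))) (b (c (a (b (a (l 16628968) (l 16622480)) (l 16651408)) (c (l 16615696) (l 16635480))) (a (a (b (l 16637968) (l 16633080)) (l 16633456)) (a (l 16615584) (l 16608144)))) (a (b (c (l 16657488) (a (l 16638752) (l 16631200))) (c (l 16641776) (a (l 16644184) (l 16636472)))) (c (l 16625328) (c (l 16644144) (l 16642168)))))) (b (a (b (a (l 16584472) (l 16578000)) (a (l 16593576) (l 16586792))) (b (l 16589288) (c (l 16579496) (l 16573160)))) (a (c (b (l 16601712) (l 16632240)) (b (l 16596896) (l 16606584))) (b (c (l 16588256) (l 16581936)) (c (l 16597168) (l 16590904)))))) (a (b (b (c (a (a (l 16650888) (l 16646264)) (l 16635376))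 (a (a (l 16652536) (l 16644568)) (a (l 16636504) (l 16628352)))) (a (a (a (l 16661520) (l 16659896)) (l 16656672)) (c (l 16645840) (l 16643096)))) (b (a (a (a (l 16670088) (l 16668480)) (l 16665928)) (c (l 16656424) (l 16653912))) (a (a (c (l 16678616) (l 16680120)) (l 16675888)) (a (l 16669256) (l 16660432))))) (b (a (c (l 16641352) (b (l 16616080) (l 16625968))) (b (l 16624008) (l 16621216))) (b (a (c (l 16640288) (l 16656928)) (c (l 16623832) (l 16617680))) (a (a (l 16651504) (l 16642448)) (a (l 16633272) (l 16623944))))))), by decide +kernel⟩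

def k4_pp_022_a : ∃ t, chk3 f_pp_022_a t 8 7 1 = true :=
  ⟨(a (b (b (b (a (a (c (l 16688792) (l 16690000)) (l 16685936)) (a (l 16679064) (l 16669784))) (a (a (a (l 16710576) (l 16698496)) (l 16695936)) (a (l 16689032) (l 16689728)))) (l 6)) (l 6)) (a (b (b (b (c (l 16657688) (l 16674056)) (a (c (l 16671184) (l 16667016)) (l 16680040))) (l 6)) (l 6)) (b (a (b (b (l 16641016) (l 16669632)) (l 6)) (b (b (l 16631064) (l 16658968)) (b (l 16643680) (l 1)))) (l 1)))), by decide +kernel⟩

def k5_pp_022_a : ∃ t, chk3 f_pp_022_a t 9 2 1 = true :=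
  ⟨(b (b (a (l 16482712) (b (l 16469488) (l 16472368))) (a (a (b (l 16494680) (c (l 16503472) (l 16499112))) (b (l 16486560) (c (l 16494720) (l 16490184)))) (b (a (l 16479512) (l 16473624)) (c (l 16509680) (a (l 16482128) (l 16474960)))))) (b (a (c (b (a (b (l 16509344) (l 16513648)) (b (l 16500264) (l 16504312))) (a (a (l 16523896) (l 16518872)) (a (l 16514000) (l 16509296)))) (b (a (b (l 16503984) (l 16528496)) (b (l 16494512) (l 16497640))) (a (a (l 16538392) (l 16512024)) (a (l 16506768) (l 16501672))))) (c (b (a (b (l 16492048) (l 16495784)) (l 16491672)) (a (a (l 16504768) (l 16500392)) (c (l 16495696) (l 16492208)))) (b (a (b (l 16485784) (l 16488472)) (b (l 16477816) (l 16479944))) (a (a (l 16496720) (l 16491904)) (c (l 16487592) (l 16481848)))))) (a (b (c (a (b (l 16550784) (l 16557456)) (b (l 16519608) (l 16525912))) (b (a (a (l 16525592) (l 16519872)) (a (l 16514288) (l 16508832))) (a (a (l 16532224) (l 16526288)) (l 16538552)))) (c (a (b (l 16543888) (l 16572528))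 (b (l 16532928) (l 16540256))) (a (b (l 16557576) (l 16565136)) (b (l 16524424) (l 16531568))))) (b (c (a (b (l 16509920) (l 16515760)) (b (l 16500656) (l 16505888))) (a (b (l 16500832) (l 16506272)) (b (l 16490408) (l 16495128)))) (a (c (b (l 16522248) (l 16529072)) (b (l 16512464) (l 16519008))) (c (b (l 16511704) (l 16517840)) (b (l 16500528) (l 16506272)))))))), by decide +kernel⟩

def k6_pp_022_a : ∃ t, chk3 f_pp_022_a t 9 3 1 = true :=
  ⟨(b (b (a (b (a (b (l 16555616) (l 16563296)) (b (l 16543136) (l 16550024))) (a (b (l 16571336) (l 16579456)) (b (l 16557192) (l 16564360)))) (b (a (b (l 16530712) (l 16536648)) (c (l 16541904) (b (l 16511600) (l 16516176)))) (a (b (l 16542776) (l 16569776)) (l 1)))) (a (b (a (a (l 16616392) (l 16608168)) (b (l 16592080) (c (l 16582528) (l 16572696)))) (a (b (c (l 16606872) (l 16598856)) (a (l 16614408) (l 16604656))) (b (a (l 16589312) (l 1)) (l 1)))) (a (b (b (l 16575280) (l 1)) (l 1)) (l 1)))) (b (a (b (a (b (a (l 16620840) (l 16610352))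 (a (l 16627008) (l 1))) (l 1)) (l 1)) (l 1)) (l 1))), by decide +kernel⟩

def k7_pp_022_a : ∃ t, chk3 f_pp_022_a t 5 1 1 = true :=
  ⟨(b (a (b (a (c (a (b (l 16455336) (l 16537680)) (b (c (l 16446504) (l 16447176)) (b (l 16455696) (l 16464584)))) (b (b (l 16452360) (l 16457976)) (b (l 16463824) (a (l 16468528) (l 16462616))))) (b (l 1) (l 1))) (a (a (b (b (c (l 16479624) (b (l 16470400) (l 16471856))) (c (c (l 16487888) (l 16483976)) (l 16491424))) (c (b (b (l 16491640) (l 16496128)) (l 16524752)) (b (b (l 16480064) (l 16483912)) (l 16511760)))) (b (b (c (l 16473392) (c (l 16466704) (l 16460400))) (c (l 142303780215) (l 16487520))) (l 1))) (l 1))) (l 1)) (b (l 1) (l 1))), by decide +kernel⟩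

def k8_pp_022_a : ∃ t, chk3 f_pp_022_a t 3 1 1 = true :=
  ⟨(l 1), by decide +kernel⟩

theorem s9_pp_022_a : ∃ t, chk3 f_pp_022_a t 9 1 1 = true := ex3_b k5_pp_022_a k6_pp_022_a

theorem s10_pp_022_a : ∃ t, chk3 f_pp_022_a t 8 3 1 = true := ex3_b k3_pp_022_a k4_pp_022_a

theorem s11_pp_022_a : ∃ t, chk3 f_pp_022_a t 8 5 1 = true := ex3_b k1_pp_022_a k2_pp_022_a

theorem s12_pp_022_a : ∃ t, chk3 f_pp_022_a t 8 2 1 = true := ex3_b k0_pp_022_a s11_pp_022_a

theorem s13_pp_022_a : ∃ t, chk3 f_pp_022_a t 8 1 1 = true := ex3_b s12_pp_022_a s10_pp_022_a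

theorem s14_pp_022_a : ∃ t, chk3 f_pp_022_a t 4 1 1 = true := ex3_a s13_pp_022_a s9_pp_022_a

theorem s15_pp_022_a : ∃ t, chk3 f_pp_022_a t 2 1 1 = true := ex3_a s14_pp_022_a k7_pp_022_a

theorem s16_pp_022_a : ∃ t, chk3 f_pp_022_a t 1 1 1 = true := ex3_a s15_pp_022_a k8_pp_022_a

theorem c_pp_022_a : CertB 0 536870912 0 536870912 649613803 48318383 3 eng mog cd0q0 cd1q2a pd2 false true true .pp 0 2 2
    ndB0q0 ndB1q2a pcB2 cut_pp_022_a Ext.none :=
  certB2 (fam := false) (s1 := true) (s2 := true) (a := 0) (b := 2) (c := 2) (cn := .pp) (n1 := ndB0q0) (n2 := ndB1q2a) (pc := pcB2) (cut := cut_pp_022_a) (xt := Ext.none) (P1 := 0) (W1 := 536870912) (P2 := 0) (W2 := 536870912) (P3 := 649613803) (W3 := 48318383) (N0 := 3) (En := eng) (mo := mog) (C1 := cd0q0) (C2 := cd1q2a) (C3 := pd2)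
    rfl (fun _ => rfl) s16_pp_022_a

noncomputable def cut_pp_022_b : Cut := Cut.of [[⟨0, 0, 0, 67108864⟩, ⟨1, 1, 0, 67108864⟩, ⟨2, 1, 0, 67108864⟩]]

noncomputable def f_pp_022_b : ℕ → ℕ → ℕ → ℕ → Bool := onCell 0 536870912 1073741824 536870912 649613803 48318383
    (rowB 3 eng mog cd0q0 cd1q2b pd2 1 false true true .pp 0 2 2 (qsf 0 536870912 1239849684 370763052 2) ndB0q0 ndB1q2b pcB2 cut_pp_022_b Ext.none)

def k0_pp_022_b : ∃ t, chk3 f_pp_022_b t 1 2 1 = true :=
  ⟨(a (b (a (b (a (l 1) (b (a (l 1) (b (l 1) (l 281353420103))) (a (l 402149370023) (b (l 277595162807) (l 16477400))))) (a (b (l 348999087319) (a (l 133713982119) (l 16527800))) (b (a (l 183642799479) (l 16431320)) (l 16526968)))) (a (b (b (a (c (b (l 215318294343) (l 202970191655)) (l 260415332407)) (b (c (l 16495360) (l 16487640)) (l 16459624))) (a (l 16451808) (l 16405752))) (b (l 16354768) (l 16283224))) (a (b (l 16552608) (l 16280288)) (b (l 16479088) (l 16251728))))) (a (a (b (a (b (b (l 16548416) (c (l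 16446272) (l 16428104))) (b (c (a (l 16425136) (l 16375568)) (l 16390944)) (c (l 16363176) (l 16364776)))) (b (b (l 16405624) (l 16399840)) (b (b (l 16341632) (l 16345512)) (l 16321232)))) (b (l 16487992) (l 16242296))) (b (b (a (c (l 16374568) (l 16332688)) (l 16302576)) (b (c (l 16403952) (l 16359176)) (a (l 16256800) (l 16210280)))) (b (l 16265960) (l 16159928)))) (b (a (b (l 16362984) (b (l 16232368) (l 16151736))) (b (l 16156488) (b (l 16116048) (l 16103832)))) (a (l 16238648) (l 16085320))))) (a (b (a (b (b (a (l 16348976) (l 16320736)) (l 16364096)) (a (l 16211928) (l 16201736))) (b (a (l 16279096) (l 16268512)) (a (l 16197888) (l 16197992)))) (b (a (b (l 16136992) (b (l 16104880) (l 16099368))) (b (l 16145352) (l 16121312))) (a (l 16250472) (l 16144296)))) (b (a (b (a (l 16261696) (l 16256968)) (l 16200376)) (b (l 16259160) (l 16215080))) (b (a (b (l 16160168) (l 2)) (l 2)) (l 2))))), by decide +kernel⟩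

def k1_pp_022_b : ∃ t, chk3 f_pp_022_b t 1 3 1 = true :=
  ⟨(a (b (a (b (a (a (l 16187112) (l 16161096)) (l 16120864)) (a (b (l 16124928) (l 16105912)) (l 16218568))) (b (a (l 16064056) (l 16014032)) (a (l 16071584) (l 16045560)))) (a (b (a (l 16094432) (l 16101232)) (a (l 16102656) (l 16129472))) (b (l 16118056) (l 2)))) (b (a (b (a (l 16080464) (l 2)) (l 2)) (l 2)) (l 2))), by decide +kernel⟩

theorem s2_pp_022_b : ∃ t, chk3 f_pp_022_b t 1 1 1 = true := ex3_b k0_pp_022_b k1_pp_022_b

theorem c_pp_022_b : CertB 0 536870912 1239849684 370763052 649613803 48318383 3 eng mog cd0q0 cd1q2b pd2 false true true .pp 0 2 2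
    ndB0q0 ndB1q2b pcB2 cut_pp_022_b Ext.none :=
  certB1 (fam := false) (s1 := true) (s2 := true) (a := 0) (b := 2) (c := 2) (cn := .pp) (n1 := ndB0q0) (n2 := ndB1q2b) (pc := pcB2) (cut := cut_pp_022_b) (xt := Ext.none) (P1 := 0) (W1 := 536870912) (P2 := 1239849684) (W2 := 370763052) (P3 := 649613803) (W3 := 48318383) (N0 := 3) (En := eng) (mo := mog) (C1 := cd0q0) (C2 := cd1q2b) (C3 := pd2)
    rfl (fun _ => rfl) s2_pp_022_b

noncomputable def f_pp_023 : ℕ → ℕ → ℕ → ℕ → Bool := onCell 0 536870912 1073741824 536870912 649613803 48318383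
    (rowB 3 eng mog cd0q0 cd1q3 pd2 1 false true true .up 0 2 3 (qsf 0 536870912 1610612736 536870912 2) ndB0q0 ndB1q3 pcB2 Cut.none Ext.none)

def k0_pp_023 : ∃ t, chk3 f_pp_023 t 1 1 1 = true :=
  ⟨(b (a (b (l 1) (a (l 1) (b (l 1) (l 342019453383)))) (a (b (a (l 1) (b (l 1) (l 159483567703))) (b (a (b (l 1) (l 281352990007)) (b (l 16152048) (l 16129640))) (a (l 16174656) (l 16156600)))) (b (a (b (l 124586958183) (l 16210048)) (b (l 16271800) (l 16231840))) (b (a (b (l 16172496) (l 16157752)) (l 16262648)) (a (l 16197808) (l 16244968)))))) (a (b (a (b (l 1) (l 323228992903)) (b (l 212096558343) (a (l 16060448) (l 16025112)))) (a (b (l 306585972871) (l 348998797335)) (a (l 16217424) (l 16130384)))) (b (a (b (a (l 16097448) (l 16180544)) (a (l 16043288) (l 16230064))) (b (l 16316752) (a (l 16382704) (l 16477056)))) (a (a (l 16301656) (l 16442992)) (l 16569048))))), by decide +kernel⟩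

theorem c_pp_023 : CertB 0 536870912 1610612736 536870912 649613803 48318383 3 eng mog cd0q0 cd1q3 pd2 false true true .up 0 2 3
    ndB0q0 ndB1q3 pcB2 Cut.none Ext.none :=
  certB1 (fam := false) (s1 := true) (s2 := true) (a := 0) (b := 2) (c := 3) (cn := .up) (n1 := ndB0q0) (n2 := ndB1q3) (pc := pcB2) (cut := Cut.none) (xt := Ext.none) (P1 := 0) (W1 := 536870912) (P2 := 1610612736) (W2 := 536870912) (P3 := 649613803) (W3 := 48318383) (N0 := 3) (En := eng) (mo := mog) (C1 := cd0q0) (C2 := cd1q3) (C3 := pd2)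
    rfl (fun _ => rfl) k0_pp_023

noncomputable def f_pp_033 : ℕ → ℕ → ℕ → ℕ → Bool := onCell 1610612736 536870912 1610612736 536870912 649613803 48318383
    (rowB 3 eng mog cd0q0 cd1q3 pd3 2 false true true .pnn 0 3 3 (qsf 0 536870912 1610612736 536870912 3) ndB0q0 ndB1q3 pcB3 Cut.none Ext.none)

def k0_pp_033 : ∃ t, chk3 f_pp_033 t 1 1 1 = true :=
  ⟨(a (a (b (b (a (b (l 16049848) (l 16080920)) (b (l 464962641287) (l 16033280))) (a (b (l 16108568) (l 16249704)) (b (l 16089424) (l 16205072)))) (b (a (b (l 16378192) (l 16488160)) (b (l 16319568) (l 16428544))) (a (l 16599264) (b (l 16522792) (l 16591896))))) (a (b (a (b (l 502006639143) (l 16145560)) (b (l 1) (l 448856905031))) (a (b (l 16341520) (l 16526680)) (b (l 16328184) (l 16504408)))) (l 4))) (l 4)), by decide +kernel⟩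

theorem c_pp_033 : CertB 0 536870912 1610612736 536870912 649613803 48318383 3 eng mog cd0q0 cd1q3 pd3 false true true .pnn 0 3 3
    ndB0q0 ndB1q3 pcB3 Cut.none Ext.none :=
  certB2 (fam := false) (s1 := true) (s2 := true) (a := 0) (b := 3) (c := 3) (cn := .pnn) (n1 := ndB0q0) (n2 := ndB1q3) (pc := pcB3) (cut := Cut.none) (xt := Ext.none) (P1 := 0) (W1 := 536870912) (P2 := 1610612736) (W2 := 536870912) (P3 := 649613803) (W3 := 48318383) (N0 := 3) (En := eng) (mo := mog) (C1 := cd0q0) (C2 := cd1q3) (C3 := pd3)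
    rfl (fun _ => rfl) k0_pp_033

noncomputable def f_pp_101 : ℕ → ℕ → ℕ → ℕ → Bool := onCell 536870912 536870912 536870912 536870912 649613803 48318383
    (rowB 3 eng mog cd0q1 cd1q1 pd0 0 false true true .npn 1 0 1 (qsf 536870912 536870912 536870912 536870912 0) ndB0q1 ndB1q1 pcB0 Cut.none Ext.none)

def k0_pp_101 : ∃ t, chk3 f_pp_101 t 1 1 1 = true :=
  ⟨(l 3), by decide +kernel⟩

theorem c_pp_101 : CertB 536870912 536870912 536870912 536870912 649613803 48318383 3 eng mog cd0q1 cd1q1 pd0 false true true .npn 1 0 1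
    ndB0q1 ndB1q1 pcB0 Cut.none Ext.none :=
  certB0 (fam := false) (s1 := true) (s2 := true) (a := 1) (b := 0) (c := 1) (cn := .npn) (n1 := ndB0q1) (n2 := ndB1q1) (pc := pcB0) (cut := Cut.none) (xt := Ext.none) (P1 := 536870912) (W1 := 536870912) (P2 := 536870912) (W2 := 536870912) (P3 := 649613803) (W3 := 48318383) (N0 := 3) (En := eng) (mo := mog) (C1 := cd0q1) (C2 := cd1q1) (C3 := pd0)
    rfl k0_pp_101

noncomputable def f_pp_102_a : ℕ → ℕ → ℕ → ℕ → Bool := onCell 0 536870912 0 536870912 649613803 48318383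
    (rowB 3 eng mog cd0q1 cd1q2a pd0 2 false true true .npp 1 0 2 (qsf 536870912 536870912 0 536870912 0) ndB0q1 ndB1q2a pcB0 Cut.none Ext.none)

def k0_pp_102_a : ∃ t, chk3 f_pp_102_a t 1 1 1 = true :=
  ⟨(a (b (l 3) (l 3)) (l 3)), by decide +kernel⟩

theorem c_pp_102_a : CertB 536870912 536870912 0 536870912 649613803 48318383 3 eng mog cd0q1 cd1q2a pd0 false true true .npp 1 0 2
    ndB0q1 ndB1q2a pcB0 Cut.none Ext.none :=
  certB2 (fam := false) (s1 := true) (s2 := true) (a := 1) (b := 0) (c := 2) (cn := .npp) (n1 := ndB0q1) (n2 := ndB1q2a) (pc := pcB0) (cut := Cut.none) (xt := Ext.none) (P1 := 536870912) (W1 := 536870912) (P2 := 0) (W2 := 536870912) (P3 := 649613803) (W3 := 48318383) (N0 := 3) (En := eng) (mo := mog) (C1 := cd0q1) (C2 := cd1q2a) (C3 := pd0)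
    rfl (fun _ => rfl) k0_pp_102_a

noncomputable def f_pp_102_b : ℕ → ℕ → ℕ → ℕ → Bool := onCell 536870912 536870912 0 536870912 649613803 48318383
    (rowB 3 eng mog cd0q1 cd1q2b pd0 1 false true true .npp 1 0 2 (qsf 536870912 536870912 1239849684 370763052 0) ndB0q1 ndB1q2b pcB0 Cut.none Ext.none)

def k0_pp_102_b : ∃ t, chk3 f_pp_102_b t 1 1 1 = true :=
  ⟨(a (l 3) (l 3)), by decide +kernel⟩

theorem c_pp_102_b : CertB 536870912 536870912 1239849684 370763052 649613803 48318383 3 eng mog cd0q1 cd1q2b pd0 false true true .npp 1 0 2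
    ndB0q1 ndB1q2b pcB0 Cut.none Ext.none :=
  certB1 (fam := false) (s1 := true) (s2 := true) (a := 1) (b := 0) (c := 2) (cn := .npp) (n1 := ndB0q1) (n2 := ndB1q2b) (pc := pcB0) (cut := Cut.none) (xt := Ext.none) (P1 := 536870912) (W1 := 536870912) (P2 := 1239849684) (W2 := 370763052) (P3 := 649613803) (W3 := 48318383) (N0 := 3) (En := eng) (mo := mog) (C1 := cd0q1) (C2 := cd1q2b) (C3 := pd0)
    rfl (fun _ => rfl) k0_pp_102_b

noncomputable def f_pp_112_a : ℕ → ℕ → ℕ → ℕ → Bool := onCell 536870912 536870912 0 536870912 649613803 48318383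
    (rowB 3 eng mog cd0q1 cd1q2a pd1 2 false true true .dn 1 1 2 (qsf 536870912 536870912 0 536870912 1) ndB0q1 ndB1q2a pcB1 Cut.none Ext.none)

def k0_pp_112_a : ∃ t, chk3 f_pp_112_a t 8 2 1 = true :=
  ⟨(l 3), by decide +kernel⟩

def k1_pp_112_a : ∃ t, chk3 f_pp_112_a t 18 8 1 = true :=
  ⟨(l 3), by decide +kernel⟩

def k2_pp_112_a : ∃ t, chk3 f_pp_112_a t 38 16 1 = true :=
  ⟨(l 3), by decide +kernel⟩

def k3_pp_112_a : ∃ t, chk3 f_pp_112_a t 78 32 1 = true :=
  ⟨(b (a (l 3) (b (a (l 3) (b (a (l 3) (b (b (b (b (a (a (l 3) (a (l 3) (a (b (l 145659788231) (l 3)) (b (l 16776696) (l 141364820935))))) (l 16776576)) (a (l 3) (a (a (a (b (l 137606724551) (l 183777622919)) (b (l 16776688) (l 132238015415))) (l 16776656)) (l 16776560)))) (a (l 3) (b (a (a (l 183240752183) (a (b (l 127943048119) (l 175187688359)) (c (l 16776736) (l 112910662583)))) (l 16776616)) (a (l 182167010359) (a (a (b (l 119353113511) (l 166597753799)) (l 106468211591)) (l 16776640)))))) (b (a (l 3) (a (l 3)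 (c (l 154249722983) (a (l 180556397511) (b (a (a (l 146196659127) (l 125258693543)) (l 16776624)) (l 171966462903)))))) (l 3))) (l 3))) (l 3))) (l 3))) (l 3)), by decide +kernel⟩

def k4_pp_112_a : ∃ t, chk3 f_pp_112_a t 158 256 1 = true :=
  ⟨(a (a (a (b (b (l 16776384) (a (b (a (a (b (l 16776648) (b (l 16776680) (l 149954755495))) (l 16776640)) (l 16776600)) (c (l 149417884919) (a (a (l 3) (b (l 160155302823) (l 3))) (b (a (c (l 123648080903) (l 124721822615)) (l 16776608)) (a (l 3) (l 154249722807)))))) (c (l 16776608) (c (l 93046438903) (a (b (l 16776448) (b (l 16776536) (l 110763178871))) (l 16776440)))))) (a (l 3) (b (b (a (a (l 183777623063) (a (l 171966462903) (b (l 138143595415) (l 3)))) (b (c (l 16776704) (l 105931340695)) (a (l 176261430151) (a (l 152639110039) (l 131164273543))))) (l 3)) (l 3)))) (b (l 16776216) (a (b (c (b (l 16776648) (l 140291079463)) (b (l 93583309671) (a (a (l 178408913815) (b (l 136532982679) (l 3))) (b (l 16776592) (a (l 166060882823) (l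 129553660807)))))) (l 3)) (b (l 70497860423) (b (b (a (a (l 158544690055) (c (l 16776712) (l 124184951671))) (l 16776624)) (a (l 3) (a (l 152639110023) (l 117205629831)))) (l 185388235767)))))) (b (l 16775736) (a (a (b (l 16776384) (b (l 16776560) (c (l 131164273911) (a (b (a (l 147270400903) (l 111836920679)) (l 180556397399)) (a (b (l 16776568) (l 141364820855)) (l 98415147847)))))) (l 16776368)) (l 16776144)))) (l 16775016)), by decide +kernel⟩

def k5_pp_112_a : ∃ t, chk3 f_pp_112_a t 158 257 1 = true :=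
  ⟨(a (b (a (l 3) (b (b (a (a (l 181093268455) (a (b (a (l 134385499015) (l 16776640)) (l 169818979191)) (a (b (l 16776608) (l 128479918967)) (l 16776600)))) (l 16776456)) (a (a (l 3) (c (l 174650817607) (c (l 177335172007) (l 178945784647)))) (a (c (l 121500597447) (a (b (l 113984404327) (l 162839657335)) (l 102173244199))) (l 16776512)))) (a (l 3) (b (a (c (l 170355850295) (a (l 3) (b (l 158007819111) (l 3)))) (a (b (l 104320727863) (a (l 175187688247) (l 140291079015))) (l 95730793255))) (a (l 3) (a (l 3) (b (a (l 169282108247) (l 134922369879)) (l 3)))))))) (l 3)) (a (a (b (a (b (l 16776312) (a (b (l 16776520) (b (l 16776600) (a (l 163376528199) (l 128479918935)))) (l 16776512))) (l 16776288)) (b (a (a (l 3) (b (b (a (l 157470948167) (l 122037467975)) (l 186461977351)) (l 3))) (b (a (b (l 16776584) (a (l 151565368119) (l 116131887879))) (l 16776552)) (a (l 183777622951) (b (a (l 145659788071) (l 110226307831)) (l 177872042775))))) (l 3))) (b (l 16776064) (a (a (b (c (l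 100025760807) (b (l 16776432) (b (l 16776512) (l 126869306167)))) (l 181630139303)) (b (l 16776480) (b (b (c (l 16776664) (l 121500597031)) (l 168745237303)) (l 3)))) (b (l 16776376) (b (a (b (l 16776552) (l 117205629735)) (l 16776520)) (a (l 171429591943) (b (l 111836920583) (l 160155302679)))))))) (a (c (l 16776752) (b (l 16775664) (c (l 16776584) (b (l 16776056) (l 89288342247))))) (l 16775704)))), by decide +kernel⟩

def k6_pp_112_a : ∃ t, chk3 f_pp_112_a t 158 129 1 = true :=
  ⟨(b (a (l 3) (a (l 3) (a (b (b (a (b (a (c (l 163913399303) (l 167134624519)) (b (l 103246985959) (l 151028497191))) (l 3)) (b (l 91435825879) (c (l 138680466583) (a (b (l 147807271687) (l 3)) (b (l 16776504) (l 142975433495)))))) (l 3)) (l 3)) (b (b (l 16776376) (a (b (c (l 133848628359) (a (b (l 138680466199) (l 186461977319)) (b (l 16776488) (l 134385498887)))) (l 183777622903)) (b (l 16776480) (a (b (l 129016789735) (l 175724559047)) (b (l 16776528) (l 124184951543)))))) (a (l 3) (b (l 182167010167)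 (l 3))))))) (l 3)), by decide +kernel⟩

def k7_pp_112_a : ∃ t, chk3 f_pp_112_a t 159 64 1 = true :=
  ⟨(b (c (l 16776272) (l 16776032)) (a (a (a (b (b (l 16776208) (b (a (b (a (b (l 119889984199) (l 167134624487)) (l 104857598695)) (l 174650817351)) (a (b (l 16776472) (b (l 110226307767) (l 158007818951))) (l 93046438567))) (c (l 177872042967) (c (l 180556397351) (c (l 181630139095) (a (l 3) (l 178945784455))))))) (l 3)) (b (b (l 16775904) (b (l 16776296) (b (a (a (b (l 16776536) (l 148881013463)) (l 16776504)) (l 16776408)) (a (a (l 3) (b (l 144586046167) (l 3))) (a (b (l 16776520) (l 140291078855)) (l 16776488)))))) (a (l 3) (a (l 3) (b (b (b (b (l 135459240631) (l 182703880807)) (l 3)) (l 3)) (l 3)))))) (b (l 16776360) (a (b (a (b (b (a (b (l 16776504) (l 131164273319)) (l 16776472)) (a (l 180556397335) (b (l 126332435095) (l 173577075335)))) (l 3)) (b (c (l 16776488) (c (l 96267664103) (c (l 96267664087) (l 96804534935)))) (a (l 179482655511) (b (b (l 116668758647) (l 164450269847))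 (l 3))))) (l 3)) (b (b (l 16776216) (a (b (l 98415147639) (a (l 168208366311) (b (l 107541953111) (l 155323464311)))) (l 89825212983))) (a (l 3) (b (b (a (l 162302786215) (b (l 16776496) (l 146196658823))) (l 3)) (l 3))))))) (b (l 16774688) (a (b (l 16775896) (a (a (b (b (l 16776432) (a (c (l 154249722759) (l 157470947991)) (a (l 127406176903) (l 105931340359)))) (l 186461977351)) (b (l 16776352) (b (a (a (l 163376527975) (l 141364820615)) (c (l 16776544) (l 113984404087))) (l 180556397271)))) (a (b (l 16776216) (b (l 16776392) (a (a (l 155860335223) (l 134385498743)) (l 107005082199)))) (l 16776192)))) (l 16775536))))), by decide +kernel⟩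

def k8_pp_112_a : ∃ t, chk3 f_pp_112_a t 79 65 1 = true :=
  ⟨(a (l 3) (b (a (l 3) (b (b (b (a (a (l 3) (a (l 180019526375) (b (a (a (l 148344142423) (l 125795564119)) (l 101099502087)) (l 171429591735)))) (a (a (a (b (l 16776384) (a (l 140827949655) (l 118279371303))) (l 16776376)) (l 16776280)) (l 16776056))) (a (l 3) (a (a (c (l 171429591863) (c (l 174113946231) (l 175724558839))) (b (a (a (l 132238015031) (l 110763178487)) (l 16776416)) (a (l 3) (l 153712851559)))) (a (a (a (b (l 16776368) (l 124721822263)) (l 94657051111)) (l 16776344)) (l 16776240))))) (b (a (l 3) (a (l 3) (a (a (l 184314493607) (a (l 171966462599) (b (l 139217336871) (l 3)))) (b (c (l 16776480) (l 104320727591)) (a (l 176261429879) (a (l 153175980583) (l 130627402263))))))) (l 3))) (l 3))) (l 3))), by decide +kernel⟩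

def k9_pp_112_a : ∃ t, chk3 f_pp_112_a t 39 33 1 = true :=
  ⟨(l 3), by decide +kernel⟩

def k10_pp_112_a : ∃ t, chk3 f_pp_112_a t 19 17 1 = true :=
  ⟨(l 3), by decide +kernel⟩

def k11_pp_112_a : ∃ t, chk3 f_pp_112_a t 9 9 1 = true :=
  ⟨(l 3), by decide +kernel⟩

def k12_pp_112_a : ∃ t, chk3 f_pp_112_a t 9 5 1 = true :=
  ⟨(l 3), by decide +kernel⟩

def k13_pp_112_a : ∃ t, chk3 f_pp_112_a t 4 3 1 = true :=
  ⟨(l 3), by decide +kernel⟩

def k14_pp_112_a : ∃ t, chk3 f_pp_112_a t 80 64 1 = true :=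
  ⟨(a (c (l 16777336) (l 16777040)) (l 16774336)), by decide +kernel⟩

def k15_pp_112_a : ∃ t, chk3 f_pp_112_a t 160 65 1 = true :=
  ⟨(b (b (a (a (a (b (l 16775888) (b (c (l 16776344) (l 90362083831)) (a (a (l 176261429895) (b (a (l 145122916871) (l 123111209463)) (l 3))) (b (l 94657051079) (a (l 163913398775) (c (l 126869306103) (l 128479918615))))))) (c (l 16775928) (l 33453767031))) (l 16775360)) (l 16774344)) (b (a (b (a (a (l 3) (b (a (a (l 157470947847) (l 121500596743)) (l 16776336)) (a (l 3) (a (l 151028496903) (l 114521274855))))) (l 16776048)) (a (l 186461977271) (a (a (b (a (l 144586045943) (l 108078823863)) (l 176798300743)) (a (b (l 16776336) (l 138143594983)) (l 94657050967))) (l 16776152)))) (l 16775232)) (a (a (l 3) (a (c (l 181093268247) (l 184314493447)) (a (b (b (a (l 131701144023) (l 16776360)) (l 167134624279)) (l 3)) (b (a (b (l 16776296) (l 125258693063)) (l 16776288)) (c (l 168208366247) (l 171429591447)))))) (a (a (b (l 16776112) (c (a (l 131701144423)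 (l 16776352)) (a (b (l 109689436583) (l 159081560407)) (l 97341405543)))) (l 16775944)) (l 16775472))))) (a (l 3) (b (a (b (a (a (l 3) (a (l 183240751687) (b (b (l 141364820391) (l 3)) (l 3)))) (a (b (b (l 98952018263) (a (l 170355849687) (l 134922369431))) (l 3)) (b (l 90362083607) (a (l 172503333351) (b (l 128479918471) (l 3)))))) (l 3)) (a (a (b (b (l 16776104) (b (l 16776280) (a (l 157470947703) (l 120963725671)))) (l 3)) (b (l 16776080) (b (b (a (l 151028496743) (l 114521274695)) (l 181093267911)) (l 3)))) (b (l 16775864) (a (b (a (b (l 16776280) (l 144586045799)) (l 97878276375)) (l 179482655191)) (b (l 16776168) (b (a (l 137606723927) (l 16776304)) (l 171429591463))))))) (l 3)))), by decide +kernel⟩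

def k16_pp_112_a : ∃ t, chk3 f_pp_112_a t 161 65 1 = true :=
  ⟨(b (l 16778112) (a (b (a (a (a (b (l 16775624) (a (b (l 16776056) (b (l 16776240) (l 130627402039))) (l 16776112))) (l 16775744)) (l 16775504)) (l 16775016)) (a (b (b (a (a (l 173040204215) (b (c (l 111300049511) (l 113984403767)) (l 161765914999))) (c (l 93046438471) (c (l 94120180135) (l 94657050903)))) (a (l 3) (a (c (l 164450269719) (l 167671494903)) (b (l 103246985447) (c (l 149954755191) (l 153712851111)))))) (l 3)) (a (b (c (l 16776080) (l 85530245303)) (b (a (a (l 175724558711) (b (l 133311756535) (l 3))) (b (l 16776224) (c (l 140291078711) (l 142975432983)))) (l 3))) (b (l 16775696) (b (l 16776080) (a (a (l 167134624071) (b (l 119889983671) (l 3))) (a (b (l 16776224) (l 149417883863)) (l 100562630823)))))))) (a (c (l 16776344) (l 16776056)) (l 16774256)))), by decide +kernel⟩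

def k17_pp_112_a : ∃ t, chk3 f_pp_112_a t 81 32 1 = true :=
  ⟨(a (c (l 16776872) (l 16776464)) (l 16776488)), by decide +kernel⟩

def k18_pp_112_a : ∃ t, chk3 f_pp_112_a t 80 33 1 = true :=
  ⟨(b (a (l 3) (b (b (a (a (l 3) (a (l 3) (l 187535718903))) (b (a (b (a (a (b (a (l 142975432903) (l 106468210807)) (l 175187687735)) (a (b (l 16776184) (l 135996111031)) (l 16776176))) (l 16776000)) (a (l 177872042359) (a (b (l 117205629111) (l 164987140359)) (c (l 100562631111) (l 101636372615))))) (l 16775680)) (b (a (c (l 176261429815) (c (l 178945784151) (l 180556396727))) (a (a (b (l 106468210807) (l 155323463879)) (l 94657050679)) (l 16775920))) (a (l 3) (a (a (l 3) (c (l 159618431367) (l 162839656519))) (a (b (l 16776176) (l 145122916583)) (l 16776096))))))) (b (b (b (a (l 3) (a (l 3) (a (l 3) (a (l 3) (l 139754207431))))) (l 3)) (l 3)) (l 3))) (l 3))) (l 3)), by decide +kernel⟩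

def k19_pp_112_a : ∃ t, chk3 f_pp_112_a t 81 66 1 = true :=
  ⟨(a (b (a (b (l 16776312) (a (a (b (b (a (b (l 16776136) (l 134922369191)) (l 16776056)) (a (l 183777622279) (b (l 129553660039) (l 177872042183)))) (l 3)) (a (b (b (l 16775912) (b (l 16776096) (l 124721821799))) (l 180556396839)) (b (l 16775896) (b (b (l 119353112647) (l 167671494807)) (l 3))))) (b (l 16775512) (a (b (c (l 95730792823) (c (l 96267663559) (l 97341405223))) (a (l 169818978471) (b (l 109152565255) (l 157470947415)))) (c (l 16775976) (l 86603986983)))))) (l 16775560)) (b (b (a (b (a (l 3) (a (l 3) (a (l 162839656567) (b (l 16776120) (l 147270400087))))) (l 3)) (a (a (b (l 16775968) (a (c (l 154249722087) (l 156934076311)) (b (l 16776080) (l 137069852727)))) (l 16775808)) (l 16775344))) (a (l 3) (b (a (a (l 3) (a (b (l 131701143575) (l 180019525719)) (b (l 16776040) (l 126332434439)))) (l 16775744)) (a (l 182167009527) (a (a (b (l 121500596183) (l 169818978343)) (c (l 103246985463) (l 104857597847)))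 (l 16775848)))))) (b (a (l 3) (a (l 3) (a (l 178408913095) (b (a (b (l 110763177879) (l 159081560055)) (l 97341405015)) (c (l 167134623991) (l 170892720023)))))) (l 3)))) (b (l 16772208) (a (b (l 16774664) (a (a (a (b (b (l 16775888) (b (l 100562630439) (l 148881012679))) (l 3)) (b (l 16775864) (a (l 177872042071) (b (l 150491625399) (l 3))))) (b (l 16775640) (b (a (b (l 16776024) (l 138143594407)) (l 16775944)) (a (l 3) (a (l 163913398231) (l 141364819911)))))) (a (a (b (l 16775416) (a (b (l 16775840) (l 119353112471)) (l 88751470327))) (l 16775528)) (l 16775296)))) (l 16773912)))), by decide +kernel⟩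

def k20_pp_112_a : ∃ t, chk3 f_pp_112_a t 81 67 1 = true :=
  ⟨(a (l 3) (b (a (b (a (l 3) (b (a (a (l 181093267543) (b (a (l 155323463575) (l 132774885271)) (l 3))) (b (c (l 96804534439) (l 97878275895)) (a (l 171429590999) (a (l 146196658103) (l 124184950647))))) (l 3))) (l 3)) (a (b (a (a (b (l 89288341319) (l 171966461959)) (b (l 16775704) (b (a (l 137606723447) (l 115058145079)) (l 3)))) (b (l 16775480) (b (l 16775864) (a (l 156397205351) (a (l 128479917927) (l 106468210375)))))) (l 3)) (a (b (l 16775440) (b (b (a (c (l 147807270887) (l 150491625095)) (c (l 110763178087) (l 112373790535))) (l 180019525591)) (l 3))) (b (l 16775128) (b (b (l 16775784) (a (a (l 155323463463) (l 132774885159)) (l 104857597639))) (l 177872041975)))))) (l 3))), by decide +kernel⟩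

def k21_pp_112_a : ∃ t, chk3 f_pp_112_a t 41 16 1 = true :=
  ⟨(b (a (l 16772352) (l 16756456)) (a (b (c (l 16774752) (l 16776952)) (a (b (b (l 16773656) (a (a (b (l 16775464) (a (b (a (a (l 146196657991) (l 123648079591)) (l 97341404807)) (l 168745236343)) (a (b (l 16775776) (a (l 137069852423) (l 115058144935))) (l 16775752)))) (l 16775120)) (l 16774152))) (a (b (a (a (l 3) (c (l 175187687671) (b (c (l 170892719943) (l 172503332487)) (l 3)))) (b (a (b (a (a (l 127943046871) (l 105931339351)) (l 16775840)) (a (l 3) (a (l 163913398007) (l 141364819703)))) (c (l 92509567111) (c (l 93583308631) (b (l 16775472) (l 103246984887))))) (a (l 3) (a (l 180556396439) (a (l 167134623543) (b (l 132238014135) (l 3))))))) (l 3)) (a (b (a (b (l 16775456) (b (c (l 95730792423) (l 97341404759)) (a (l 170355848967) (a (l 145659786935) (l 123111208567))))) (c (l 16776176) (l 81235277287))) (b (a (l 3) (a (l 170892719927) (b (a (l 135996110503) (l 113984402999)) (l 3)))) (l 3))) (b (l 16774952)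 (a (b (b (l 16775752) (a (l 155323463319) (c (l 117205628903) (l 118816241319)))) (l 3)) (b (l 16775592) (b (a (l 147807270503) (l 110763177527)) (l 178945783559)))))))) (b (l 16771552) (b (l 16773328) (b (l 16775496) (a (b (l 16775232) (a (a (a (c (l 138143594551) (l 141364819303)) (l 103246984695)) (l 16775632)) (l 16775192))) (l 16774104))))))) (c (l 16777032) (l 16776488)))), by decide +kernel⟩

def k22_pp_112_a : ∃ t, chk3 f_pp_112_a t 40 17 1 = true :=
  ⟨(l 3), by decide +kernel⟩

def k23_pp_112_a : ∃ t, chk3 f_pp_112_a t 82 34 1 = true :=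
  ⟨(b (a (l 3) (b (b (b (a (a (a (l 176798299959) (b (a (c (l 130627401719) (l 132774884967)) (l 95730791815)) (l 167134623399))) (a (a (b (l 16775672) (a (l 134922368567) (l 112373790151))) (l 16775648)) (l 16775432))) (l 16774656)) (a (a (l 3) (a (c (l 167134623655) (c (l 169282106999) (l 170892719543))) (b (a (a (l 125795562999) (l 103246984583)) (l 16775728)) (a (l 3) (l 146733528567))))) (a (a (a (b (l 16775592) (l 109152564679)) (l 16775568)) (l 16775352)) (l 16774888)))) (a (l 3) (a (b (a (a (l 178408912583) (a (l 164987139687) (b (l 129016788455) (l 3)))) (b (l 94657050023) (a (l 167671494199) (c (l 129016788887) (l 131164272119))))) (l 3)) (a (b (l 83919631703) (a (l 168745236071) (b (c (l 121500596055) (l 123648079287)) (l 3)))) (b (l 16775264) (b (l 16775648) (a (l 152102237639) (c (l 113984403223) (l 115595015543))))))))) (a (l 3) (b (c (l 184851363991) (l 188072589063)) (l 3))))) (l 3)), by decide +kernel⟩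

def k24_pp_112_a : ∃ t, chk3 f_pp_112_a t 83 34 1 = true :=
  ⟨(a (b (b (a (c (l 16775664) (b (l 16773504) (l 16775952))) (l 16772912)) (b (a (a (a (b (b (a (l 144586044823) (l 107005080935)) (l 176261428807)) (l 3)) (b (a (b (l 16775640) (c (l 134922368887) (l 137606722695))) (l 90362082599)) (l 174650816119))) (b (l 16775256) (a (b (a (c (l 126869305143) (l 129016788359)) (l 16775696)) (l 164450268647)) (b (l 16775488) (a (a (l 130090530151) (l 107541951703)) (l 16775664)))))) (l 16774600)) (b (a (b (a (l 3) (a (l 3) (a (l 3) (l 149954753895)))) (l 3)) (a (a (b (c (l 100562630359) (a (l 112910660871) (l 16775512))) (a (l 178945783239) (a (l 155860333927) (l 133311755559)))) (c (l 87677728423) (c (l 88751469975) (l 89288340663)))) (l 16775096))) (a (l 3) (a (a (l 3) (a (l 175724557831) (b (c (l 132238014231) (l 134385497447)) (l 3)))) (a (b (l 90362082471) (a (l 163376526695) (c (l 124184950487) (l 126332433703)))) (l 80698405943))))))) (b (a (l 3) (b (a (l 3) (b (a (l 3)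 (b (a (l 155323462967) (c (l 116668757655) (l 118279369943))) (l 3))) (l 3))) (l 3))) (l 3))) (a (b (b (l 16771576) (l 16776504)) (b (a (b (b (a (b (l 16775536) (a (c (l 145659786711) (l 148344140839)) (c (l 108615693911) (l 109152564375)))) (l 16775376)) (b (a (l 177872041383) (a (c (l 137069852391) (l 139754206183)) (l 100562629735))) (l 175724557815))) (l 3)) (a (b (b (l 16775080) (a (b (l 16775528) (a (l 142438560967) (l 119889982599))) (l 84993373175))) (c (l 175187687239) (b (l 172503332055) (l 3)))) (l 3730212647511))) (l 3))) (l 1))), by decide +kernel⟩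

def k25_pp_112_a : ∃ t, chk3 f_pp_112_a t 41 35 1 = true :=
  ⟨(l 3), by decide +kernel⟩

def k26_pp_112_a : ∃ t, chk3 f_pp_112_a t 21 8 1 = true :=
  ⟨(l 1), by decide +kernel⟩

def k27_pp_112_a : ∃ t, chk3 f_pp_112_a t 10 9 1 = true :=
  ⟨(a (l 3) (l 1)), by decide +kernel⟩

def k28_pp_112_a : ∃ t, chk3 f_pp_112_a t 10 5 1 = true :=
  ⟨(l 3), by decide +kernel⟩

def k29_pp_112_a : ∃ t, chk3 f_pp_112_a t 11 2 1 = true :=
  ⟨(l 1), by decide +kernel⟩

def k30_pp_112_a : ∃ t, chk3 f_pp_112_a t 5 3 1 = true :=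
  ⟨(l 3), by decide +kernel⟩

def k31_pp_112_a : ∃ t, chk3 f_pp_112_a t 3 1 1 = true :=
  ⟨(l 1), by decide +kernel⟩

theorem s32_pp_112_a : ∃ t, chk3 f_pp_112_a t 41 34 1 = true := ex3_a k23_pp_112_a k24_pp_112_a

theorem s33_pp_112_a : ∃ t, chk3 f_pp_112_a t 41 17 1 = true := ex3_b s32_pp_112_a k25_pp_112_a

theorem s34_pp_112_a : ∃ t, chk3 f_pp_112_a t 20 17 1 = true := ex3_a k22_pp_112_a s33_pp_112_a

theorem s35_pp_112_a : ∃ t, chk3 f_pp_112_a t 81 33 1 = true := ex3_b k19_pp_112_a k20_pp_112_a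

theorem s36_pp_112_a : ∃ t, chk3 f_pp_112_a t 40 33 1 = true := ex3_a k18_pp_112_a s35_pp_112_a

theorem s37_pp_112_a : ∃ t, chk3 f_pp_112_a t 80 65 1 = true := ex3_a k15_pp_112_a k16_pp_112_a

theorem s38_pp_112_a : ∃ t, chk3 f_pp_112_a t 80 32 1 = true := ex3_b k14_pp_112_a s37_pp_112_a

theorem s39_pp_112_a : ∃ t, chk3 f_pp_112_a t 40 32 1 = true := ex3_a s38_pp_112_a k17_pp_112_a

theorem s40_pp_112_a : ∃ t, chk3 f_pp_112_a t 40 16 1 = true := ex3_b s39_pp_112_a s36_pp_112_a

theorem s41_pp_112_a : ∃ t, chk3 f_pp_112_a t 20 16 1 = true := ex3_a s40_pp_112_a k21_pp_112_a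

theorem s42_pp_112_a : ∃ t, chk3 f_pp_112_a t 20 8 1 = true := ex3_b s41_pp_112_a s34_pp_112_a

theorem s43_pp_112_a : ∃ t, chk3 f_pp_112_a t 10 8 1 = true := ex3_a s42_pp_112_a k26_pp_112_a

theorem s44_pp_112_a : ∃ t, chk3 f_pp_112_a t 10 4 1 = true := ex3_b s43_pp_112_a k27_pp_112_a

theorem s45_pp_112_a : ∃ t, chk3 f_pp_112_a t 10 2 1 = true := ex3_b s44_pp_112_a k28_pp_112_a

theorem s46_pp_112_a : ∃ t, chk3 f_pp_112_a t 5 2 1 = true := ex3_a s45_pp_112_a k29_pp_112_a

theorem s47_pp_112_a : ∃ t, chk3 f_pp_112_a t 5 1 1 = true := ex3_b s46_pp_112_a k30_pp_112_a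

theorem s48_pp_112_a : ∃ t, chk3 f_pp_112_a t 158 128 1 = true := ex3_b k4_pp_112_a k5_pp_112_a

theorem s49_pp_112_a : ∃ t, chk3 f_pp_112_a t 158 64 1 = true := ex3_b s48_pp_112_a k6_pp_112_a

theorem s50_pp_112_a : ∃ t, chk3 f_pp_112_a t 79 64 1 = true := ex3_a s49_pp_112_a k7_pp_112_a

theorem s51_pp_112_a : ∃ t, chk3 f_pp_112_a t 79 32 1 = true := ex3_b s50_pp_112_a k8_pp_112_a

theorem s52_pp_112_a : ∃ t, chk3 f_pp_112_a t 39 32 1 = true := ex3_a k3_pp_112_a s51_pp_112_a

theorem s53_pp_112_a : ∃ t, chk3 f_pp_112_a t 39 16 1 = true := ex3_b s52_pp_112_a k9_pp_112_a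

theorem s54_pp_112_a : ∃ t, chk3 f_pp_112_a t 19 16 1 = true := ex3_a k2_pp_112_a s53_pp_112_a

theorem s55_pp_112_a : ∃ t, chk3 f_pp_112_a t 19 8 1 = true := ex3_b s54_pp_112_a k10_pp_112_a

theorem s56_pp_112_a : ∃ t, chk3 f_pp_112_a t 9 8 1 = true := ex3_a k1_pp_112_a s55_pp_112_a

theorem s57_pp_112_a : ∃ t, chk3 f_pp_112_a t 9 4 1 = true := ex3_b s56_pp_112_a k11_pp_112_a

theorem s58_pp_112_a : ∃ t, chk3 f_pp_112_a t 9 2 1 = true := ex3_b s57_pp_112_a k12_pp_112_a

theorem s59_pp_112_a : ∃ t, chk3 f_pp_112_a t 4 2 1 = true := ex3_a k0_pp_112_a s58_pp_112_a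

theorem s60_pp_112_a : ∃ t, chk3 f_pp_112_a t 4 1 1 = true := ex3_b s59_pp_112_a k13_pp_112_a

theorem s61_pp_112_a : ∃ t, chk3 f_pp_112_a t 2 1 1 = true := ex3_a s60_pp_112_a s47_pp_112_a

theorem s62_pp_112_a : ∃ t, chk3 f_pp_112_a t 1 1 1 = true := ex3_a s61_pp_112_a k31_pp_112_a

theorem c_pp_112_a : CertB 536870912 536870912 0 536870912 649613803 48318383 3 eng mog cd0q1 cd1q2a pd1 false true true .dn 1 1 2
    ndB0q1 ndB1q2a pcB1 Cut.none Ext.none :=
  certB2 (fam := false) (s1 := true) (s2 := true) (a := 1) (b := 1) (c := 2) (cn := .dn) (n1 := ndB0q1) (n2 := ndB1q2a) (pc := pcB1) (cut := Cut.none) (xt := Ext.none) (P1 := 536870912) (W1 := 536870912) (P2 := 0) (W2 := 536870912) (P3 := 649613803) (W3 := 48318383) (N0 := 3) (En := eng) (mo := mog) (C1 := cd0q1) (C2 := cd1q2a) (C3 := pd1)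
    rfl (fun _ => rfl) s62_pp_112_a

noncomputable def f_pp_112_b : ℕ → ℕ → ℕ → ℕ → Bool := onCell 536870912 536870912 1239849684 370763052 649613803 48318383
    (rowB 3 eng mog cd0q1 cd1q2b pd1 2 false true true .dn 1 1 2 (qsf 536870912 536870912 1239849684 370763052 1) ndB0q1 ndB1q2b pcB1 Cut.none Ext.none)

def k0_pp_112_b : ∃ t, chk3 f_pp_112_b t 4 2 1 = true :=
  ⟨(a (l 3) (b (a (l 3) (b (a (l 3) (b (b (a (b (b (a (l 3) (a (l 3) (a (l 3) (b (b (b (c (a (a (l 3) (a (l 3) (l 146196659111))) (l 16776560)) (a (a (l 3) (b (a (l 3) (a (b (a (b (b (a (b (a (l 3) (a (l 185925106551) (l 47412411255))) (l 3)) (l 17347640167)) (l 164450270039)) (l 187535719223)) (l 22179478327)) (l 176798300903)) (l 16776600))) (l 177872042679))) (l 16776432))) (a (l 3) (a (a (l 157470947575) (l 16776400)) (l 16776312)))) (a (l 3) (a (l 177335170551) (l 16776112)))) (l 3))))) (l 3)) (l 3)) (a (b (a (b (b (l 16775640) (a (a (l 108615693127) (l 16775352)) (l 16774952))) (a (l 168745233143) (l 16774232)))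 (l 16773888)) (a (l 181630130871) (l 46875534135))) (b (c (l 16772248) (l 16771728)) (l 16770568)))) (a (l 3) (a (l 3) (a (l 69424105351) (l 16767248))))) (l 3))) (l 3))) (l 3))), by decide +kernel⟩

def k1_pp_112_b : ∃ t, chk3 f_pp_112_b t 5 2 1 = true :=
  ⟨(a (b (a (b (a (b (b (a (b (a (l 16769272) (l 16766496)) (l 16766928)) (a (l 16763416) (l 16760664))) (a (l 16775248) (l 16759944))) (a (b (a (l 61371029159) (l 16760432)) (l 126869266855)) (l 16755664))) (b (b (a (l 16756504) (l 16750984)) (l 16752000)) (a (l 16751032) (l 16745912)))) (a (a (l 3) (b (l 65665985895) (l 3))) (b (l 16743536) (l 59760393879)))) (b (a (b (a (l 16744608) (l 71974201367)) (l 16737576)) (b (a (l 112239549463) (l 1)) (l 16746352))) (a (b (l 16733504) (l 16729992)) (b (l 16721312) (l 16718608))))) (a (b (a (l 3) (l 163376495943)) (l 3)) (b (a (b (l 16726848) (l 16733856)) (l 16716256)) (a (l 3) (l 94120134487))))) (b (b (a (b (l 1) (l 102575894807)) (l 1)) (a (a (b (l 16708344) (l 16704976)) (l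 16691864)) (l 41372613431))) (b (a (a (l 16703664) (l 16688528)) (l 16726952)) (a (a (l 16706320) (l 16693056)) (a (l 16675984) (l 16658112)))))), by decide +kernel⟩

def k2_pp_112_b : ∃ t, chk3 f_pp_112_b t 2 3 1 = true :=
  ⟨(a (l 3) (a (b (l 3) (l 3)) (b (a (b (a (l 110226276711) (l 16703336)) (a (l 3) (l 103783921655))) (b (a (l 16689496) (l 16670496)) (a (l 16708504) (l 16694152)))) (a (l 3) (b (a (l 99489027031) (l 16806496)) (l 3)))))), by decide +kernel⟩

def k3_pp_112_b : ∃ t, chk3 f_pp_112_b t 3 1 1 = true :=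
  ⟨(b (a (b (l 1) (a (b (a (l 16649072) (l 16633936)) (a (l 16628096) (l 16586792))) (a (b (l 1) (l 16544352)) (l 1)))) (l 1)) (a (a (b (a (b (a (l 16650800) (l 16628672)) (a (l 16673648) (l 16652288))) (b (l 16594048) (l 16615496))) (a (b (a (l 16708432) (l 16687344)) (a (l 16852904) (l 16733976))) (b (a (l 16664440) (l 16637584)) (a (l 16713368) (l 16688528))))) (b (a (b (l 16544752) (l 16559896)) (b (l 16496912) (l 16505160))) (a (b (l 16592248) (a (l 16658440) (l 16625752))) (b (l 16530208) (l 16575368))))) (b (a (b (l 1) (a (l 16452088) (l 16401288))) (l 1)) (a (b (a (l 16469352) (l 16410504)) (a (l 16507152) (l 16439184))) (b (a (l 16354968) (l 1)) (b (l 16337824) (l 16349944))))))), by decide +kernel⟩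

theorem s4_pp_112_b : ∃ t, chk3 f_pp_112_b t 2 2 1 = true := ex3_a k0_pp_112_b k1_pp_112_b

theorem s5_pp_112_b : ∃ t, chk3 f_pp_112_b t 2 1 1 = true := ex3_b s4_pp_112_b k2_pp_112_b

theorem s6_pp_112_b : ∃ t, chk3 f_pp_112_b t 1 1 1 = true := ex3_a s5_pp_112_b k3_pp_112_b

theorem c_pp_112_b : CertB 536870912 536870912 1239849684 370763052 649613803 48318383 3 eng mog cd0q1 cd1q2b pd1 false true true .dn 1 1 2
    ndB0q1 ndB1q2b pcB1 Cut.none Ext.none :=
  certB2 (fam := false) (s1 := true) (s2 := true) (a := 1) (b := 1) (c := 2) (cn := .dn) (n1 := ndB0q1) (n2 := ndB1q2b) (pc := pcB1) (cut := Cut.none) (xt := Ext.none) (P1 := 536870912) (W1 := 536870912) (P2 := 1239849684) (W2 := 370763052) (P3 := 649613803) (W3 := 48318383) (N0 := 3) (En := eng) (mo := mog) (C1 := cd0q1) (C2 := cd1q2b) (C3 := pd1)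
    rfl (fun _ => rfl) s6_pp_112_b

noncomputable def cut_pp_113 : Cut := Cut.of [[⟨0, 1, 0, 67108864⟩, ⟨1, 1, 0, 67108864⟩, ⟨2, 2, 0, 16777216⟩]]

noncomputable def f_pp_113 : ℕ → ℕ → ℕ → ℕ → Bool := onCell 536870912 536870912 536870912 536870912 649613803 48318383
    (rowB 3 eng mog cd0q1 cd1q3 pd1 1 false true true .nn 1 1 3 (qsf 536870912 536870912 1610612736 536870912 1) ndB0q1 ndB1q3 pcB1 cut_pp_113 Ext.none)

def k0_pp_113 : ∃ t, chk3 f_pp_113 t 1 1 1 = true :=
  ⟨(b (a (a (l 1) (a (l 1) (a (l 1) (l 3)))) (l 3)) (a (b (a (b (l 1) (a (l 1) (l 16572544))) (b (a (b (l 1) (a (l 1) (l 16697856))) (b (a (l 16736952) (l 16769784)) (a (l 16740872) (l 16790832)))) (a (b (a (l 16640688) (l 16688336)) (l 16648776)) (b (a (l 16743912) (l 16811640)) (a (l 16748568) (l 16802720)))))) (a (b (a (l 16450976) (l 16515440)) (a (l 16374064) (l 16465312))) (a (b (b (l 16637592) (l 16629912)) (b (l 16618064) (l 16592688))) (b (a (l 16718744) (l 16748232)) (b (l 16689640) (a (l 16650488)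 (l 16677400))))))) (b (a (b (a (b (l 3) (a (l 16849792) (l 3))) (l 3)) (a (b (a (l 16892184) (l 91436025783)) (a (l 16842192) (l 16893848))) (b (a (l 260550613735) (l 3)) (a (l 84993720215) (l 297057810695))))) (l 3)) (a (b (a (b (a (l 16801144) (l 16847088)) (a (l 16765176) (l 16807744))) (b (a (l 16898888) (b (l 16966560) (l 16935768))) (a (l 16853840) (l 16897696)))) (a (b (l 16837752) (l 16724928)) (b (a (l 16814184) (l 16851760)) (l 16777416)))) (b (a (b (a (a (l 231559340967) (l 3)) (l 3)) (a (b (l 16920504) (l 16913592)) (a (l 203105104615) (l 386178203143)))) (l 3)) (a (a (b (l 16876616) (l 16830776)) (b (b (l 16876200) (l 16870792)) (b (l 16846568) (l 16822800)))) (a (b (b (l 448992023319) (a (l 16867600) (l 417316595159))) (a (l 16829160) (b (l 16815312) (l 16811056)))) (b (l 3) (a (b (a (l 244980925687) (b (l 3) (l 455971250103))) (b (l 154249753655) (l 16797136))) (b (l 3) (a (b (a (l 241222819463) (l 503215843655)) (a (l 16791592) (l 118816259127))) (b (l 3) (b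 (b (l 538649312471) (l 6)) (l 6)))))))))))))), by decide +kernel⟩

theorem c_pp_113 : CertB 536870912 536870912 1610612736 536870912 649613803 48318383 3 eng mog cd0q1 cd1q3 pd1 false true true .nn 1 1 3
    ndB0q1 ndB1q3 pcB1 cut_pp_113 Ext.none :=
  certB1 (fam := false) (s1 := true) (s2 := true) (a := 1) (b := 1) (c := 3) (cn := .nn) (n1 := ndB0q1) (n2 := ndB1q3) (pc := pcB1) (cut := cut_pp_113) (xt := Ext.none) (P1 := 536870912) (W1 := 536870912) (P2 := 1610612736) (W2 := 536870912) (P3 := 649613803) (W3 := 48318383) (N0 := 3) (En := eng) (mo := mog) (C1 := cd0q1) (C2 := cd1q3) (C3 := pd1)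
    rfl (fun _ => rfl) k0_pp_113

noncomputable def cut_pp_123 : Cut := Cut.of [[⟨0, 1, 0, 67108864⟩, ⟨1, 1, 0, 67108864⟩, ⟨2, 2, 0, 16777216⟩]]

noncomputable def f_pp_123 : ℕ → ℕ → ℕ → ℕ → Bool := onCell 536870912 536870912 1073741824 536870912 649613803 48318383
    (rowB 3 eng mog cd0q1 cd1q3 pd2 1 false true true .npn 1 2 3 (qsf 536870912 536870912 1610612736 536870912 2) ndB0q1 ndB1q3 pcB2 cut_pp_123 Ext.none)

def k0_pp_123 : ∃ t, chk3 f_pp_123 t 1 1 1 = true :=
  ⟨(a (b (b (a (a (b (l 16320776) (l 16297488)) (b (l 16428184) (l 16414992))) (a (b (b (l 16554824) (l 16534888)) (l 16485848)) (b (a (l 16780960) (b (l 16626432) (l 16600088))) (l 16765296)))) (a (b (a (l 16286616) (l 16402128)) (l 16399656)) (b (a (b (l 16481104) (l 16473376)) (b (l 16525056) (l 16515016))) (a (l 16520600) (l 16557808))))) (a (b (b (l 16505432) (a (l 16549600) (l 16602968))) (a (l 16646592) (l 16686792))) (b (a (l 16634960) (b (l 16616848) (l 16668248))) (a (b (l 16696024) (l 2)) (l 2)))))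 (b (a (b (a (b (a (l 16786728) (l 16674064)) (a (l 16585352) (l 16613432))) (b (a (l 16710016) (l 16741384)) (a (l 16644512) (l 16673208)))) (b (a (b (b (l 16570856) (a (l 16548160) (l 16574472))) (l 16598992)) (b (b (l 16631096) (b (l 16624984) (l 16621824))) (l 16613192))) (a (l 16594336) (a (l 16628024) (l 2))))) (b (b (a (b (l 16784208) (l 16747008)) (b (a (l 16780760) (b (a (l 16738688) (a (l 16775552) (b (l 6) (l 576700028247)))) (l 476842074567))) (a (l 16746496) (l 545024701143)))) (a (b (l 16708288) (l 16668584)) (a (l 334571299207) (l 2)))) (a (b (b (b (l 16638400) (l 2)) (l 2)) (l 2)) (l 2)))) (a (b (a (b (l 16643952) (l 2)) (l 2)) (l 2)) (l 2)))), by decide +kernel⟩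

theorem c_pp_123 : CertB 536870912 536870912 1610612736 536870912 649613803 48318383 3 eng mog cd0q1 cd1q3 pd2 false true true .npn 1 2 3
    ndB0q1 ndB1q3 pcB2 cut_pp_123 Ext.none :=
  certB1 (fam := false) (s1 := true) (s2 := true) (a := 1) (b := 2) (c := 3) (cn := .npn) (n1 := ndB0q1) (n2 := ndB1q3) (pc := pcB2) (cut := cut_pp_123) (xt := Ext.none) (P1 := 536870912) (W1 := 536870912) (P2 := 1610612736) (W2 := 536870912) (P3 := 649613803) (W3 := 48318383) (N0 := 3) (En := eng) (mo := mog) (C1 := cd0q1) (C2 := cd1q3) (C3 := pd2)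
    rfl (fun _ => rfl) k0_pp_123

noncomputable def f_pp_133 : ℕ → ℕ → ℕ → ℕ → Bool := onCell 536870912 536870912 1610612736 536870912 649613803 48318383
    (rowB 3 eng mog cd0q1 cd1q3 pd3 0 false true true .dn 1 3 3 (qsf 536870912 536870912 1610612736 536870912 3) ndB0q1 ndB1q3 pcB3 Cut.none Ext.none)

def k0_pp_133 : ∃ t, chk3 f_pp_133 t 1 1 1 = true :=
  ⟨(a (a (b (l 1) (b (l 1) (a (l 16685176) (l 1)))) (l 1)) (l 1)), by decide +kernel⟩

theorem c_pp_133 : CertB 536870912 536870912 1610612736 536870912 649613803 48318383 3 eng mog cd0q1 cd1q3 pd3 false true true .dn 1 3 3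
    ndB0q1 ndB1q3 pcB3 Cut.none Ext.none :=
  certB0 (fam := false) (s1 := true) (s2 := true) (a := 1) (b := 3) (c := 3) (cn := .dn) (n1 := ndB0q1) (n2 := ndB1q3) (pc := pcB3) (cut := Cut.none) (xt := Ext.none) (P1 := 536870912) (W1 := 536870912) (P2 := 1610612736) (W2 := 536870912) (P3 := 649613803) (W3 := 48318383) (N0 := 3) (En := eng) (mo := mog) (C1 := cd0q1) (C2 := cd1q3) (C3 := pd3)
    rfl k0_pp_133

noncomputable def f_pp_202_a : ℕ → ℕ → ℕ → ℕ → Bool := onCell 0 536870912 0 536870912 649613803 48318383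
    (rowB 3 eng mog cd0q2 cd1q2a pd0 0 false true true .pp 2 0 2 (qsf 0 536870912 0 536870912 0) ndB0q2 ndB1q2a pcB0 Cut.none Ext.none)

def k0_pp_202_a : ∃ t, chk3 f_pp_202_a t 1 1 1 = true :=
  ⟨(l 3), by decide +kernel⟩

theorem c_pp_202_a : CertB 0 536870912 0 536870912 649613803 48318383 3 eng mog cd0q2 cd1q2a pd0 false true true .pp 2 0 2
    ndB0q2 ndB1q2a pcB0 Cut.none Ext.none :=
  certB0 (fam := false) (s1 := true) (s2 := true) (a := 2) (b := 0) (c := 2) (cn := .pp) (n1 := ndB0q2) (n2 := ndB1q2a) (pc := pcB0) (cut := Cut.none) (xt := Ext.none) (P1 := 0) (W1 := 536870912) (P2 := 0) (W2 := 536870912) (P3 := 649613803) (W3 := 48318383) (N0 := 3) (En := eng) (mo := mog) (C1 := cd0q2) (C2 := cd1q2a) (C3 := pd0)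
    rfl k0_pp_202_a

noncomputable def f_pp_202_b : ℕ → ℕ → ℕ → ℕ → Bool := onCell 0 536870912 1239849684 370763052 649613803 48318383
    (rowB 3 eng mog cd0q2 cd1q2b pd0 0 false true true .pp 2 0 2 (qsf 0 536870912 1239849684 370763052 0) ndB0q2 ndB1q2b pcB0 Cut.none Ext.none)

def k0_pp_202_b : ∃ t, chk3 f_pp_202_b t 1 1 1 = true :=
  ⟨(l 3), by decide +kernel⟩

theorem c_pp_202_b : CertB 0 536870912 1239849684 370763052 649613803 48318383 3 eng mog cd0q2 cd1q2b pd0 false true true .pp 2 0 2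
    ndB0q2 ndB1q2b pcB0 Cut.none Ext.none :=
  certB0 (fam := false) (s1 := true) (s2 := true) (a := 2) (b := 0) (c := 2) (cn := .pp) (n1 := ndB0q2) (n2 := ndB1q2b) (pc := pcB0) (cut := Cut.none) (xt := Ext.none) (P1 := 0) (W1 := 536870912) (P2 := 1239849684) (W2 := 370763052) (P3 := 649613803) (W3 := 48318383) (N0 := 3) (En := eng) (mo := mog) (C1 := cd0q2) (C2 := cd1q2b) (C3 := pd0)
    rfl k0_pp_202_b

noncomputable def f_pp_203 : ℕ → ℕ → ℕ → ℕ → Bool := onCell 0 536870912 0 536870912 649613803 48318383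
    (rowB 3 eng mog cd0q2 cd1q3 pd0 1 false true true .up 2 0 3 (qsf 0 536870912 1610612736 536870912 0) ndB0q2 ndB1q3 pcB0 Cut.none Ext.none)

def k0_pp_203 : ∃ t, chk3 f_pp_203 t 1 1 1 = true :=
  ⟨(l 3), by decide +kernel⟩

theorem c_pp_203 : CertB 0 536870912 1610612736 536870912 649613803 48318383 3 eng mog cd0q2 cd1q3 pd0 false true true .up 2 0 3
    ndB0q2 ndB1q3 pcB0 Cut.none Ext.none :=
  certB1 (fam := false) (s1 := true) (s2 := true) (a := 2) (b := 0) (c := 3) (cn := .up) (n1 := ndB0q2) (n2 := ndB1q3) (pc := pcB0) (cut := Cut.none) (xt := Ext.none) (P1 := 0) (W1 := 536870912) (P2 := 1610612736) (W2 := 536870912) (P3 := 649613803) (W3 := 48318383) (N0 := 3) (En := eng) (mo := mog) (C1 := cd0q2) (C2 := cd1q3) (C3 := pd0)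
    rfl (fun _ => rfl) k0_pp_203

noncomputable def cut_pp_213 : Cut := Cut.of [[⟨0, 1, 0, 67108864⟩, ⟨1, 1, 0, 67108864⟩, ⟨2, 2, 0, 16777216⟩]]

noncomputable def f_pp_213 : ℕ → ℕ → ℕ → ℕ → Bool := onCell 0 536870912 1610612736 536870912 649613803 48318383
    (rowB 3 eng mog cd0q2 cd1q3 pd1 0 false true true .pnn 2 1 3 (qsf 0 536870912 1610612736 536870912 1) ndB0q2 ndB1q3 pcB1 cut_pp_213 Ext.none)

def k0_pp_213 : ∃ t, chk3 f_pp_213 t 1 1 1 = true :=
  ⟨(b (l 3) (a (l 3) (b (l 3) (a (l 3) (b (l 3) (a (l 3) (b (l 3) (b (l 3) (b (l 3) (l 6)))))))))), by decide +kernel⟩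

theorem c_pp_213 : CertB 0 536870912 1610612736 536870912 649613803 48318383 3 eng mog cd0q2 cd1q3 pd1 false true true .pnn 2 1 3
    ndB0q2 ndB1q3 pcB1 cut_pp_213 Ext.none :=
  certB0 (fam := false) (s1 := true) (s2 := true) (a := 2) (b := 1) (c := 3) (cn := .pnn) (n1 := ndB0q2) (n2 := ndB1q3) (pc := pcB1) (cut := cut_pp_213) (xt := Ext.none) (P1 := 0) (W1 := 536870912) (P2 := 1610612736) (W2 := 536870912) (P3 := 649613803) (W3 := 48318383) (N0 := 3) (En := eng) (mo := mog) (C1 := cd0q2) (C2 := cd1q3) (C3 := pd1)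
    rfl k0_pp_213

noncomputable def f_pm_001 : ℕ → ℕ → ℕ → ℕ → Bool := onCell 0 536870912 0 536870912 649613803 48318383
    (rowB 3 eng mog cd0q0 cd1q1 pd0 1 false true false .up 0 0 1 (qsf 0 536870912 536870912 536870912 0) ndB0q0 ndB1q1 pcB0 Cut.none Ext.none)

def k0_pm_001 : ∃ t, chk3 f_pm_001 t 2 1 1 = true :=
  ⟨(l 4), by decide +kernel⟩

def k1_pm_001 : ∃ t, chk3 f_pm_001 t 3 2 1 = true :=
  ⟨(a (l 4) (b (l 4) (a (l 4) (b (l 4) (b (l 4) (a (l 4) (l 4))))))), by decide +kernel⟩

def k2_pm_001 : ∃ t, chk3 f_pm_001 t 3 6 1 = true :=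
  ⟨(a (l 4) (a (b (l 4) (a (l 4) (b (l 4) (b (l 4) (a (l 4) (l 16646480)))))) (b (a (b (l 4) (b (l 4) (l 35131414455))) (b (a (l 30836482535) (b (l 16665568) (l 16646384))) (a (b (l 16650968) (l 16629240)) (l 16597568)))) (a (b (a (b (l 4) (l 16638448)) (b (l 16632840) (l 16606368))) (b (a (l 16654048) (l 16586064)) (a (l 16591152) (l 16568144)))) (b (a (l 16615608) (l 16573680)) (b (a (l 16565712) (l 16545808)) (a (l 16546312) (l 16525440)))))))), by decide +kernel⟩

def k3_pm_001 : ∃ t, chk3 f_pm_001 t 6 7 1 = true :=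
  ⟨(a (l 4) (b (l 4) (a (l 4) (b (l 4) (a (l 4) (b (a (l 4) (l 29225504999)) (b (l 12045646903) (a (l 16590008) (l 16545184))))))))), by decide +kernel⟩

def k4_pm_001 : ∃ t, chk3 f_pm_001 t 7 14 1 = true :=
  ⟨(a (a (b (l 4) (b (l 4) (a (l 4) (a (l 4) (l 16583144))))) (b (b (a (l 4) (l 16641576)) (a (b (l 16618640) (l 16624408)) (b (l 16581168) (l 16569680)))) (a (b (b (l 16589056) (l 16575232)) (l 16597296)) (b (l 16551304) (l 16524272))))) (a (b (b (a (l 16571712) (l 16548760)) (a (l 16550840) (b (l 16533720) (l 16519672)))) (b (a (l 16523608) (c (l 16502096) (l 16490696))) (a (c (l 16498408) (l 16489848)) (a (l 16471992) (b (l 16465464) (a (l 16453512) (l 16466952))))))) (b (b (a (l 16526416) (a (l 16510352) (l 16501736))) (a (b (l 16511384) (l 16495840)) (a (b (l 16496208) (l 16489400)) (b (c (l 16494744) (l 16474624)) (l 16468664))))) (b (b (a (a (l 16484968) (l 16473312)) (a (l 16460552) (l 16450736))) (a (a (l 16468936) (c (l 16462160) (l 16447360))) (l 16438872)))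 (a (a (b (a (l 16455280) (l 16447960)) (l 16436176)) (l 16473704)) (c (l 16422448) (l 16406056))))))), by decide +kernel⟩

def k5_pm_001 : ∃ t, chk3 f_pm_001 t 7 15 1 = true :=
  ⟨(a (b (a (b (a (l 4) (a (l 16596072) (l 16554312))) (a (a (l 4) (l 16588248)) (a (l 16545960) (l 16527280)))) (b (a (a (l 16536592) (l 16519912)) (c (l 16499312) (l 16492704))) (a (a (l 16509520) (l 16492672)) (c (a (l 16479552) (l 16463968)) (l 16465256))))) (a (b (a (a (l 15803695095) (l 16538352)) (a (l 16519256) (l 16501008))) (c (a (l 16526328) (a (l 16496536) (b (l 16485104) (l 16474208)))) (a (l 16520544) (l 16488672)))) (a (b (c (a (l 16486120) (b (l 16476032) (l 16464096))) (l 16472696)) (a (c (l 16479184) (l 16457824)) (b (l 16450288) (c (l 16444104) (l 16437440))))) (b (a (c (l 16475552) (l 16448192)) (c (b (l 16445592) (l 16433808)) (l 16432768))) (a (c (b (l 16459736) (l 16427968)) (l 16426144)) (l 16444920)))))) (a (b (b (b (a (l 16471976) (c (a (l 16454512) (l 16460480)) (l 16457768)))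 (a (a (l 16465304) (l 16449968)) (a (a (l 16464616) (l 16430824)) (l 16420976)))) (b (a (a (l 16451496) (a (l 16461160) (l 16432032))) (l 16414592)) (a (a (a (l 16442344) (l 16434808)) (l 16422952)) (l 16401688)))) (b (a (a (b (l 16452240) (l 16414888)) (l 16405392)) (l 16404104)) (a (l 16411224) (b (l 16365160) (l 16354248))))) (b (b (a (c (l 16435528) (l 16401816)) (l 16383440)) (a (l 16401528) (a (l 16360632) (l 16370032)))) (a (b (b (l 16360800) (l 16349208)) (a (l 16358736) (l 16324400))) (b (b (l 16355784) (l 16323776)) (l 16308496)))))), by decide +kernel⟩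

theorem s6_pm_001 : ∃ t, chk3 f_pm_001 t 7 7 1 = true := ex3_b k4_pm_001 k5_pm_001

theorem s7_pm_001 : ∃ t, chk3 f_pm_001 t 3 7 1 = true := ex3_a k3_pm_001 s6_pm_001

theorem s8_pm_001 : ∃ t, chk3 f_pm_001 t 3 3 1 = true := ex3_b k2_pm_001 s7_pm_001

theorem s9_pm_001 : ∃ t, chk3 f_pm_001 t 3 1 1 = true := ex3_b k1_pm_001 s8_pm_001

theorem s10_pm_001 : ∃ t, chk3 f_pm_001 t 1 1 1 = true := ex3_a k0_pm_001 s9_pm_001

theorem c_pm_001 : CertB 0 536870912 536870912 536870912 649613803 48318383 3 eng mog cd0q0 cd1q1 pd0 false true false .up 0 0 1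
    ndB0q0 ndB1q1 pcB0 Cut.none Ext.none :=
  certB1 (fam := false) (s1 := true) (s2 := false) (a := 0) (b := 0) (c := 1) (cn := .up) (n1 := ndB0q0) (n2 := ndB1q1) (pc := pcB0) (cut := Cut.none) (xt := Ext.none) (P1 := 0) (W1 := 536870912) (P2 := 536870912) (W2 := 536870912) (P3 := 649613803) (W3 := 48318383) (N0 := 3) (En := eng) (mo := mog) (C1 := cd0q0) (C2 := cd1q1) (C3 := pd0)
    rfl (fun _ => rfl) s10_pm_001

noncomputable def xt_pm_011 : Ext := extD2 3 ⟨7, 3, 3, 10, 377, 200, 77, 100, 17, 50, 3, 16⟩ eng cd0q0 cd1q1 pd1 false true false .pnn 0 1 1 rfl ndB0q0 ndB1q1 pcB1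

noncomputable def f_pm_011 : ℕ → ℕ → ℕ → ℕ → Bool := onCell 536870912 536870912 536870912 536870912 649613803 48318383
    (rowB 3 eng mog cd0q0 cd1q1 pd1 2 false true false .pnn 0 1 1 (qsf 0 536870912 536870912 536870912 1) ndB0q0 ndB1q1 pcB1 Cut.none xt_pm_011)

def k0_pm_011 : ∃ t, chk3 f_pm_011 t 1 2 1 = true :=
  ⟨(l 4), by decide +kernel⟩

def k1_pm_011 : ∃ t, chk3 f_pm_011 t 4 3 1 = true :=
  ⟨(b (b (l 4) (a (b (l 4) (a (b (l 4) (a (b (l 16581408) (l 16544904)) (b (l 4) (l 16564656)))) (l 4))) (l 4))) (b (a (b (a (b (a (b (l 16521752) (l 16499928)) (a (l 16522624) (l 16552440))) (b (a (a (l 16475488) (l 16482248)) (l 16493328)) (a (c (a (l 16456816) (l 16462808)) (l 16457208)) (l 16493064)))) (b (a (a (l 16561984) (l 16574664)) (a (l 16586928) (l 16598840))) (a (c (l 16519872) (l 16498568)) (b (l 16536080) (l 16511024))))) (a (b (b (a (a (l 16436328) (l 16441992)) (l 16451648)) (a (a (b (l 16422520) (l 16413736)) (l 16423200)) (l 16452984))) (a (b (a (l 16400680) (l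 16405104)) (l 16385952)) (b (l 16455224) (l 16395752)))) (b (a (l 16476896) (l 16495432)) (a (b (l 16426304) (l 16407000)) (l 16473392))))) (b (b (l 4) (a (a (b (l 16560600) (l 16515336)) (b (l 4) (l 16560280))) (a (a (l 16609952) (l 4)) (l 4)))) (a (a (b (l 16499688) (l 16473608)) (b (l 16523904) (l 16476728))) (b (a (b (l 16580456) (l 16535312)) (b (l 16602656) (l 16558016))) (a (l 16478792) (b (l 16533968) (l 16510432))))))) (a (b (b (a (a (l 16382472) (l 16391536)) (a (l 16381408) (l 16393528))) (a (a (l 16330176) (l 16339440)) (c (l 16376424) (l 16353168)))) (b (a (a (l 16300272) (l 16309792)) (a (l 16319568) (l 16329720))) (a (a (l 16273328) (l 16283528)) (l 16361344)))) (b (a (b (a (l 16429296) (l 16452992)) (l 16421816)) (b (a (l 16464880) (l 16476176)) (a (l 16412088) (l 16433856)))) (a (b (c (l 16401480) (l 16368944)) (l 16361248)) (b (a (l 16372000) (l 16393640)) (a (l 16338232) (l 16356960)))))))), by decide +kernel⟩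

def k2_pm_011 : ∃ t, chk3 f_pm_011 t 5 3 1 = true :=
  ⟨(b (l 4) (b (a (b (l 4) (a (b (a (b (l 4) (l 16600656)) (l 4)) (a (b (l 16555936) (l 16532112)) (b (l 16598120) (l 16553408)))) (b (l 4) (b (l 4) (a (a (l 16569104) (l 16579400)) (l 16615736)))))) (l 4)) (a (b (a (b (a (l 16539568) (b (l 16529872) (l 16507064))) (a (l 16454448) (l 16484768))) (b (a (b (l 16550544) (l 16527360)) (b (l 16591920) (l 16547400))) (a (l 16500440) (b (l 16524512) (l 16502352))))) (a (b (l 16423696) (a (l 16376952) (l 16395824))) (b (a (l 16452328) (l 16470920)) (a (l 16413976) (l 16431592))))) (b (a (b (b (a (l 16633176) (l 4)) (a (l 16567424) (l 16629376))) (b (a (l 16544112) (l 16563760)) (l 16531120))) (b (l 4) (a (b (l 16625352) (l 16560032)) (b (l 16603248) (a (l 16574424) (l 16584064)))))) (a (b (a (b (l 16520640) (l 16478768)) (b (l 16518480) (l 593437951039703968818431))) (a (l 16449088) (l 16466640))) (b (a (l 16555216) (l 16545128)) (a (l 16484320) (l 16544080)))))))), by decide +kernel⟩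

def k3_pm_011 : ∃ t, chk3 f_pm_011 t 3 3 1 = true :=
  ⟨(a (b (l 4) (b (l 4) (a (a (a (b (b (l 4) (b (l 4) (l 16598784))) (b (l 16580840) (a (l 16536600) (l 16545632)))) (b (l 4) (b (b (l 16594248) (l 16591920)) (b (l 16548880) (l 16527424))))) (b (l 4) (b (b (l 4) (a (l 16589656) (l 16630072))) (a (b (l 16566840) (l 16545200)) (b (l 16585032) (l 16562616)))))) (b (l 4) (a (b (l 4) (a (b (l 16625016) (l 16580280)) (b (l 4) (a (l 16594000) (l 16603544))))) (l 4)))))) (l 4)), by decide +kernel⟩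

theorem s4_pm_011 : ∃ t, chk3 f_pm_011 t 2 3 1 = true := ex3_a k1_pm_011 k2_pm_011

theorem s5_pm_011 : ∃ t, chk3 f_pm_011 t 1 3 1 = true := ex3_a s4_pm_011 k3_pm_011

theorem s6_pm_011 : ∃ t, chk3 f_pm_011 t 1 1 1 = true := ex3_b k0_pm_011 s5_pm_011

theorem c_pm_011 : CertB 0 536870912 536870912 536870912 649613803 48318383 3 eng mog cd0q0 cd1q1 pd1 false true false .pnn 0 1 1
    ndB0q0 ndB1q1 pcB1 Cut.none xt_pm_011 :=
  certB2 (fam := false) (s1 := true) (s2 := false) (a := 0) (b := 1) (c := 1) (cn := .pnn) (n1 := ndB0q0) (n2 := ndB1q1) (pc := pcB1) (cut := Cut.none) (xt := xt_pm_011) (P1 := 0) (W1 := 536870912) (P2 := 536870912) (W2 := 536870912) (P3 := 649613803) (W3 := 48318383) (N0 := 3) (En := eng) (mo := mog) (C1 := cd0q0) (C2 := cd1q1) (C3 := pd1)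
    rfl (fun _ => rfl) s6_pm_011

noncomputable def cut_pm_012_a : Cut := Cut.of [[⟨0, 0, 0, 67108864⟩, ⟨1, 1, 0, 67108864⟩, ⟨2, 1, 0, 67108864⟩]]

noncomputable def f_pm_012_a : ℕ → ℕ → ℕ → ℕ → Bool := onCell 0 536870912 0 536870912 649613803 48318383
    (rowB 3 eng mog cd0q0 cd1q2a pd1 0 false true false .pnp 0 1 2 (qsf 0 536870912 0 536870912 1) ndB0q0 ndB1q2a pcB1 cut_pm_012_a Ext.none)

def k0_pm_012_a : ∃ t, chk3 f_pm_012_a t 2 2 1 = true :=
  ⟨(a (b (l 2) (a (l 2) (a (l 2) (b (l 2) (a (l 2) (b (l 2) (a (l 2) (b (l 16469976) (l 16475792))))))))) (b (a (a (a (l 2) (b (l 16493768) (b (l 16483952) (b (l 16476864) (l 16473048))))) (b (b (l 16507792) (l 16500152)) (b (l 16491160) (a (b (l 16481560) (l 16477648)) (l 16484120))))) (b (a (b (l 16523200) (l 16512952)) (b (l 16533880) (l 16523640))) (a (b (l 16500640) (a (l 16488592) (l 16493240))) (b (l 16490280) (a (l 16498232) (l 16503648)))))) (a (b (a (a (a (l 2) (b (b (l 2) (l 16464296)) (b (l 16463624) (a (l 16463520) (l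 16464504))))) (b (b (l 16469976) (a (l 16466600) (l 16468816))) (b (a (l 16465752) (l 16467808)) (a (l 16465928) (l 16467760))))) (b (a (b (l 16474448) (l 16472032)) (b (l 16478744) (l 16476168))) (a (b (l 16470760) (l 16470392)) (b (l 16474544) (l 16473736))))) (a (b (a (a (b (a (l 2) (l 16464016)) (l 16466672)) (b (l 16465328) (l 16468088))) (b (a (l 16466992) (l 16468584)) (l 16470040))) (a (b (l 16482048) (l 16476696)) (b (l 16473384) (l 16477592)))) (b (a (b (l 16470840) (l 16472400)) (b (l 16473696) (l 16474568))) (a (b (l 16474912) (l 16478200)) (l 16477472))))) (a (b (b (a (b (l 16483016) (l 16480256)) (b (l 16487440) (l 16484496))) (a (b (l 16478280) (l 16477024)) (b (l 16482144) (l 16480432)))) (b (a (b (l 16476480) (l 16476664)) (b (l 16479376) (l 16478864))) (a (l 16478288) (l 16479224)))) (b (b (a (l 16490616) (l 16516568)) (a (l 16485208) (l 16489416))) (b (a (b (l 16482504) (l 16481296)) (b (l 16485928) (l 16484016))) (a (l 16480384) (l 16481840)))))))), by decide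 +kernel⟩

def k1_pm_012_a : ∃ t, chk3 f_pm_012_a t 4 3 1 = true :=
  ⟨(b (a (l 2) (a (b (l 2) (a (b (l 2) (b (l 16560320) (l 16573512))) (b (b (l 16528264) (l 16541608)) (l 16561096)))) (b (b (a (l 165993247223) (b (l 16482592) (l 16490808))) (a (b (l 16501768) (l 16512872)) (l 16504928))) (b (a (l 16530352) (l 16525568)) (c (l 16594216) (l 16571160)))))) (a (a (b (l 2) (l 6)) (a (b (b (l 2) (l 6)) (l 6)) (a (b (b (l 2) (l 6)) (l 6)) (b (b (l 16621712) (l 16658536)) (a (l 6) (b (b (l 16629360) (l 16664568)) (b (l 16700336) (b (l 16690488) (b (l 16696056) (c (l 16701432) (l 16698024))))))))))) (b (a (b (a (b (l 16587632) (l 16602744)) (l 16586488)) (a (b (l 16615576) (l 16628192)) (b (l 16602816) (l 16614624)))) (b (a (l 16575568) (l 16565224)) (a (l 16596264) (b (l 16579152) (l 16589360))))) (b (a (a (b (a (l 16623704) (l 16637312)) (a (l 16658608) (l 16650848))) (b (l 16658048) (a (l 16643256) (l 16635824)))) (b (a (l 16612864) (l 16599720)) (a (l 16624984) (l 16611040))))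 (b (a (a (b (l 16686352) (a (l 16676720) (l 16668456))) (b (l 16649600) (l 16656368))) (a (b (l 16634472) (l 16640840)) (l 16643904))) (a (b (a (a (l 16684000) (l 16675528)) (a (l 16667240) (l 16659112))) (a (a (b (l 16689456) (a (l 16700544) (l 16701384))) (b (l 16680832) (c (l 16686328) (l 16682312)))) (b (a (l 16672392) (l 16664112)) (a (c (l 16677936) (l 16673608)) (l 16677936))))) (b (a (l 16668184) (l 16631880)) (a (b (l 16672968) (a (l 16659240) (l 16651176))) (c (l 16661352) (l 16656144)))))))))), by decide +kernel⟩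

def k2_pm_012_a : ∃ t, chk3 f_pm_012_a t 5 3 1 = true :=
  ⟨(b (a (b (a (b (a (l 16507360) (l 16485712)) (a (l 16502152) (l 16499040))) (b (a (l 16484736) (l 16483592)) (l 16514872))) (b (a (l 16517448) (l 16505680)) (a (l 16577936) (l 16518952)))) (b (a (b (a (l 16482392) (l 16481328)) (l 16486832)) (b (a (l 16480512) (l 16480016)) (l 16480600))) (a (b (l 16493656) (l 16501928)) (b (l 16482616) (l 16486480))))) (a (b (a (b (l 16561128) (a (b (l 16568120) (l 16577520)) (l 16519984))) (b (l 16532576) (l 16546160))) (b (a (b (a (l 16587088) (l 16574936)) (a (l 16597616) (l 16584680))) (b (l 16557408) (a (l 16572136) (l 16559856)))) (a (b (a (l 16608712) (l 16594984)) (a (b (l 16617064) (l 16643624)) (b (l 16602736) (l 16607928)))) (b (a (l 16581656) (l 16589464)) (a (b (l 16588824) (l 16593608)) (b (l 16574800) (l 16578792))))))) (b (b (a (l 16513072) (b (l 16512472) (l 16495440))) (a (a (l 16530704) (l 16519760)) (l 16545376))) (b (a (a (b (l 16540216) (l 16547440)) (l 16548696))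 (l 16529128)) (a (b (a (l 16554896) (l 16541248)) (a (l 16561984) (l 16547576))) (b (l 16521272) (a (l 16533464) (l 16519448)))))))), by decide +kernel⟩

def k3_pm_012_a : ∃ t, chk3 f_pm_012_a t 6 2 1 = true :=
  ⟨(b (a (a (a (b (l 16557272) (b (l 16520576) (l 16509560))) (b (l 16542472) (b (l 16527552) (l 16516016)))) (b (a (l 16549344) (l 16556800)) (b (a (l 16534112) (l 16540648)) (a (l 16522952) (l 16530344))))) (a (b (a (l 16564952) (l 16574096)) (b (l 16572952) (a (b (l 16540752) (l 16535288)) (l 16546360)))) (b (a (l 16583672) (l 16593368)) (b (l 16589960) (a (l 16554448) (l 16562800)))))) (a (b (a (b (a (b (l 16502832) (l 16499120)) (b (l 16508880) (l 16504856))) (a (a (l 16492800) (l 16495200)) (b (l 16500832) (l 16497144)))) (b (a (b (l 16515376) (l 16511024)) (b (l 16522232) (l 16517544))) (a (b (l 16506544) (l 16502336)) (a (l 16508792) (b (l 16514296) (l 16509704)))))) (a (b (a (b (l 16489704) (l 16487088)) (b (l 16493912) (l 16490600))) (a (l 16504632) (b (l 16487352)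 (l 16484384)))) (b (a (b (l 16498544) (l 16494536)) (a (b (l 16502344) (l 16498120)) (l 16503560))) (a (b (l 16490576) (l 16486992)) (b (l 16495496) (l 16491504)))))) (b (a (b (a (b (l 16530024) (l 16525296)) (l 16536408)) (a (l 16517936) (l 16525984))) (b (a (l 16545256) (b (l 16555928) (l 16550928))) (a (l 16533976) (l 16541856)))) (a (b (a (b (l 16511152) (l 16506376)) (b (l 16518488) (l 16513096))) (a (b (l 16501432) (l 16496608)) (c (l 16510872) (l 16498448)))) (b (a (l 16522848) (l 16529752)) (a (l 16510216) (l 16515680))))))), by decide +kernel⟩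

def k4_pm_012_a : ∃ t, chk3 f_pm_012_a t 7 2 1 = true :=
  ⟨(b (b (a (a (a (l 16624104) (l 16612888)) (a (l 16643504) (l 16631952))) (a (b (a (l 16650312) (b (l 16664280) (l 16654864))) (l 16657584)) (b (a (b (l 16673760) (l 16664016)) (l 16678208)) (a (l 16649880) (b (l 16663616) (l 16654176)))))) (a (a (b (l 16607472) (l 16616824)) (b (l 16624736) (a (l 16586832) (l 16594552)))) (a (b (l 16620304) (l 16626872)) (a (b (l 16632648) (l 16617304)) (b (l 16641160) (l 16625280)))))) (a (b (a (b (a (l 16582176) (l 16568624)) (a (l 16549544) (l 16557128))) (b (l 16600656) (a (l 16564008) (l 16570064)))) (a (b (a (l 16536464) (l 16542896)) (a (l 16520928) (l 16525856))) (b (l 16551720) (l 16532296)))) (b (a (b (l 16593456) (a (l 16575936) (l 16582064))) (b (a (l 16603944) (l 16611360)) (l 16591552))) (a (b (a (l 16559584) (l 16564528)) (l 16539264)) (b (l 16634880) (l 16545752)))))), by decide +kernel⟩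

def k5_pm_012_a : ∃ t, chk3 f_pm_012_a t 3 3 1 = true :=
  ⟨(a (b (a (b (a (b (a (l 16479912) (l 16480336)) (a (l 16476952) (l 16475792))) (b (a (b (l 16483672) (l 16480568)) (l 16485664)) (l 16477056))) (a (b (a (l 16475864) (l 16473400)) (l 16496000)) (b (l 16471368) (l 16466744)))) (b (a (b (a (l 16489336) (l 16493072)) (l 16479888)) (b (a (l 16496792) (l 16500392)) (l 16482760))) (a (b (l 16469216) (l 16459176)) (b (l 16467000) (l 16451360))))) (b (a (a (b (l 16478424) (l 16483136)) (b (l 16459400) (l 16463864))) (a (b (l 16514544) (l 16445160)) (b (l 16480136) (l 16425584)))) (a (b (a (l 16488848) (l 16463192)) (a (b (l 16494464) (a (l 16505304) (l 16490872))) (b (l 16466576) (a (l 16476168) (l 16461264))))) (b (a (l 16438296) (l 16433216)) (a (a (l 16445856) (l 16483864)) (b (l 16411224) (a (l 16417312) (l 16403984)))))))) (b (a (b (a (b (l 16505272) (l 16484624)) (b (l 16509976) (l 16484024))) (a (b (l 16463416) (l 16441728)) (b (l 16456712) (l 16428040)))) (a (b (b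 (l 16512424) (l 16480432)) (l 16428384)) (b (b (l 16513776) (l 16475192)) (l 16411704)))) (b (a (a (b (l 16422352) (l 16402864)) (b (l 16401400) (l 16425856))) (b (a (l 16386696) (l 16381312)) (a (l 16437760) (b (l 16369704) (l 16362656))))) (a (a (b (l 16391072) (a (l 16392648) (l 16381920))) (b (l 16438424) (a (l 16393752) (b (l 16366944) (l 16363200))))) (b (a (a (l 16366808) (l 16361200)) (a (l 16355400) (l 16349128))) (a (a (b (l 16360232) (l 16355856)) (b (l 16353656) (l 16348664))) (b (a (l 16346904) (l 16339688)) (a (c (l 16345456) (l 16336840)) (c (a (l 16339840) (l 16335864)) (l 16328736)))))))))), by decide +kernel⟩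

theorem s6_pm_012_a : ∃ t, chk3 f_pm_012_a t 3 2 1 = true := ex3_a k3_pm_012_a k4_pm_012_a

theorem s7_pm_012_a : ∃ t, chk3 f_pm_012_a t 3 1 1 = true := ex3_b s6_pm_012_a k5_pm_012_a

theorem s8_pm_012_a : ∃ t, chk3 f_pm_012_a t 2 3 1 = true := ex3_a k1_pm_012_a k2_pm_012_a

theorem s9_pm_012_a : ∃ t, chk3 f_pm_012_a t 2 1 1 = true := ex3_b k0_pm_012_a s8_pm_012_a

theorem s10_pm_012_a : ∃ t, chk3 f_pm_012_a t 1 1 1 = true := ex3_a s9_pm_012_a s7_pm_012_a

theorem c_pm_012_a : CertB 0 536870912 0 536870912 649613803 48318383 3 eng mog cd0q0 cd1q2a pd1 false true false .pnp 0 1 2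
    ndB0q0 ndB1q2a pcB1 cut_pm_012_a Ext.none :=
  certB0 (fam := false) (s1 := true) (s2 := false) (a := 0) (b := 1) (c := 2) (cn := .pnp) (n1 := ndB0q0) (n2 := ndB1q2a) (pc := pcB1) (cut := cut_pm_012_a) (xt := Ext.none) (P1 := 0) (W1 := 536870912) (P2 := 0) (W2 := 536870912) (P3 := 649613803) (W3 := 48318383) (N0 := 3) (En := eng) (mo := mog) (C1 := cd0q0) (C2 := cd1q2a) (C3 := pd1)
    rfl s10_pm_012_a

noncomputable def cut_pm_012_b : Cut := Cut.of [[⟨0, 0, 0, 67108864⟩, ⟨1, 1, 0, 67108864⟩, ⟨2, 1, 0, 67108864⟩]]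

noncomputable def f_pm_012_b : ℕ → ℕ → ℕ → ℕ → Bool := onCell 0 536870912 1239849684 370763052 649613803 48318383
    (rowB 3 eng mog cd0q0 cd1q2b pd1 0 false true false .pnp 0 1 2 (qsf 0 536870912 1239849684 370763052 1) ndB0q0 ndB1q2b pcB1 cut_pm_012_b Ext.none)

def k0_pm_012_b : ∃ t, chk3 f_pm_012_b t 1 1 1 = true :=
  ⟨(a (a (l 2) (b (b (a (b (a (a (l 2) (l 16460640)) (b (a (l 16467952) (l 16497488)) (l 16447984))) (l 2)) (b (a (a (l 16527256) (l 16491088)) (l 16572536)) (a (a (l 16381808) (l 16435944)) (a (l 16448392) (l 16417648))))) (a (l 2) (b (a (l 2) (l 16352040)) (l 2)))) (l 2))) (a (b (b (a (b (a (a (l 16529464) (l 16516288)) (a (l 16525120) (l 16534800))) (a (a (l 16428296) (l 16438744)) (l 16518984))) (b (a (b (a (l 16561848) (l 16572224)) (l 16533832)) (b (a (l 16583120) (l 16594264)) (l 16579000))) (a (l 16523912) (a (l 16502728) (l 16516992))))) (a (a (b (a (l 16337504) (l 16354568)) (l 2)) (b (l 16399064) (a (l 16281016) (l 16303672)))) (a (b (l 16409680)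 (l 16334280)) (b (l 16442704) (l 16373064))))) (a (l 2) (b (b (a (l 16250784) (l 16301088)) (a (l 2) (l 16221336))) (l 2)))) (b (b (a (b (a (b (a (l 16605472) (l 16616696)) (l 16583496)) (b (a (l 16627856) (l 16638864)) (l 16608968))) (a (b (l 16554184) (l 16523640)) (l 16610736))) (b (a (b (a (l 16649952) (l 16660384)) (l 16634568)) (b (a (l 16671184) (l 16681904)) (l 16659024))) (a (l 16598384) (l 16649128)))) (a (a (b (l 16476432) (l 16411496)) (b (l 16510616) (l 16449592))) (b (a (l 16545424) (l 16581408)) (a (l 16488328) (l 16528832))))) (a (b (a (b (l 16344912) (l 16276720)) (l 16439344)) (b (a (l 2) (l 16259104)) (l 2))) (b (a (l 16420608) (b (l 16474080) (l 16418464))) (b (l 16335920) (a (l 16249424) (l 16307512)))))))), by decide +kernel⟩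

theorem c_pm_012_b : CertB 0 536870912 1239849684 370763052 649613803 48318383 3 eng mog cd0q0 cd1q2b pd1 false true false .pnp 0 1 2
    ndB0q0 ndB1q2b pcB1 cut_pm_012_b Ext.none :=
  certB0 (fam := false) (s1 := true) (s2 := false) (a := 0) (b := 1) (c := 2) (cn := .pnp) (n1 := ndB0q0) (n2 := ndB1q2b) (pc := pcB1) (cut := cut_pm_012_b) (xt := Ext.none) (P1 := 0) (W1 := 536870912) (P2 := 1239849684) (W2 := 370763052) (P3 := 649613803) (W3 := 48318383) (N0 := 3) (En := eng) (mo := mog) (C1 := cd0q0) (C2 := cd1q2b) (C3 := pd1)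
    rfl k0_pm_012_b

noncomputable def cut_pm_022_a : Cut := Cut.of [[⟨0, 0, 0, 67108864⟩, ⟨1, 1, 0, 67108864⟩, ⟨2, 1, 0, 67108864⟩]]

noncomputable def f_pm_022_a : ℕ → ℕ → ℕ → ℕ → Bool := onCell 1073741824 536870912 0 536870912 649613803 48318383
    (rowB 3 eng mog cd0q0 cd1q2a pd2 2 false true false .pp 0 2 2 (qsf 0 536870912 0 536870912 2) ndB0q0 ndB1q2a pcB2 cut_pm_022_a Ext.none)

def k0_pm_022_a : ∃ t, chk3 f_pm_022_a t 4 4 1 = true :=
  ⟨(a (b (c (a (a (b (c (l 16503920) (l 16499464)) (c (l 16495816) (l 16471664))) (b (l 16492208) (l 16486384))) (a (l 16482176) (l 16476240))) (a (a (a (l 16494272) (l 16490728)) (l 16485912)) (l 16519880))) (a (c (a (b (c (b (l 16490864) (l 16488312)) (l 16487784)) (b (l 16485360) (l 16479992))) (b (l 16482672) (l 16476016))) (b (b (l 16484768) (l 16478616)) (b (l 16493984) (a (l 16469664) (l 16466280))))) (b (b (l 16473240) (l 16469832)) (a (l 16478416) (l 16485152))))) (b (a (l 16551320) (a (l 16457616) (l 16452512))) (a (b (l 16482104)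 (b (l 16522976) (l 16502104))) (b (a (l 16455808) (l 16453376)) (a (l 16457856) (l 16457232)))))), by decide +kernel⟩

def k1_pm_022_a : ∃ t, chk3 f_pm_022_a t 4 5 1 = true :=
  ⟨(a (b (a (a (c (b (b (a (l 16476576) (l 16474072)) (l 16492328)) (b (l 16468608) (l 16466872))) (a (b (b (l 16465104) (l 16460400)) (a (l 16456288) (l 16456568))) (b (l 16482976) (l 16457032)))) (b (b (l 16487872) (c (l 16468256) (l 16459504))) (b (l 16483744) (l 16462512)))) (b (a (b (l 16464256) (l 16462824)) (b (l 16462376) (l 16462184))) (a (c (l 16466624) (l 16459872)) (l 16464600)))) (a (b (a (b (a (c (l 16465888) (l 16454712)) (l 16461544)) (a (l 16461232) (l 16462960))) (b (l 16484248) (l 16465752))) (a (b (b (l 16463904) (a (l 16464008) (l 16467208))) (l 16469768)) (b (b (l 16489632) (l 16471568)) (l 16476424)))) (b (b (a (l 16465976) (l 16469112)) (a (b (l 16468608) (l 16471000)) (b (l 16472744) (l 16476160)))) (a (l 16500584) (l 16506760))))) (b (b (a (a (l 16461752) (l 16461816)) (a (l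 16462472) (l 16463656))) (a (a (l 16466376) (l 16468608)) (a (b (l 16468448) (l 16473920)) (b (l 16471008) (l 16498608))))) (a (b (a (b (b (l 16471368) (l 16473968)) (l 16479248)) (b (l 16497712) (l 16484136))) (a (l 16513120) (b (l 16493296) (l 16503856)))) (b (a (b (l 16480808) (l 16489256)) (b (l 16485152) (l 16494480))) (a (b (l 16499328) (l 16531760)) (b (l 16526376) (c (l 16517680) (l 16518128)))))))), by decide +kernel⟩

def k2_pm_022_a : ∃ t, chk3 f_pm_022_a t 5 2 1 = true :=
  ⟨(a (a (a (b (b (l 16448456) (b (l 16451744) (l 16457224))) (b (b (l 16465288) (b (l 16473816) (l 16481232))) (b (b (l 16489608) (a (l 16498408) (l 1))) (a (b (l 16509912) (l 1)) (l 1))))) (b (b (c (l 16444912) (l 16446816)) (b (l 16450760) (l 16457688))) (a (b (b (l 16466704) (l 207265138055)) (l 1)) (l 1)))) (b (b (l 1) (l 1)) (l 1))) (l 1)), by decide +kernel⟩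

def k3_pm_022_a : ∃ t, chk3 f_pm_022_a t 2 3 1 = true :=
  ⟨(a (b (a (a (b (b (a (b (l 16476424) (l 16484928)) (l 16504952)) (a (b (l 16495176) (l 16506984)) (b (l 16505528) (l 16518504)))) (b (a (l 16548520) (b (l 16532760) (l 16548936))) (a (b (l 16551856) (l 16590064)) (l 16575928)))) (b (b (a (b (l 16492360) (l 16503184)) (b (l 16500280) (l 16512128))) (a (b (l 16515712) (l 16529784)) (b (l 16525704) (l 16540800)))) (b (a (l 16553656) (l 16566216)) (a (l 16590920) (a (l 16596952) (l 16593976)))))) (b (a (a (b (b (l 16508136) (l 16520976)) (b (a (l 16533080) (l 16537976)) (l 16551616))) (b (b (l 16515968) (l 16529768)) (b (l 16545272) (l 16562288)))) (b (b (a (b (l 16520344) (l 16527288)) (a (l 16529632) (l 58551977303))) (a (l 16533256) (a (l 16544944) (l 1)))) (a (a (b (l 16552496) (l 115997173879)) (b (l 114923422007) (l 291017081527))) (l 1)))) (a (b (a (a (l 16575464) (l 16577256)) (b (a (l 16572936) (l 16537344)) (a (l 16542368) (l 224445223799)))) (a (b (a (l 16593736)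 (l 16595336)) (a (l 16608464) (l 216392221815))) (b (a (l 226592741111) (l 1)) (l 1)))) (b (a (b (a (l 282427173095) (l 1)) (l 1)) (l 1)) (l 1))))) (a (b (b (b (a (a (l 16588160) (l 16605280)) (a (l 16616672) (a (l 16620464) (l 16622512)))) (a (a (l 16609240) (l 16627448)) (a (a (l 16632568) (l 16614256)) (a (b (l 16633040) (l 6)) (b (l 201896749815) (l 264710646999)))))) (a (l 6) (a (l 6) (a (l 6) (a (l 6) (l 1)))))) (a (l 6) (a (l 6) (l 1)))) (b (a (b (a (b (a (b (l 16620112) (l 255583826759)) (l 394633370791)) (a (l 394096530663) (l 1))) (l 1)) (l 1)) (l 1)) (l 1)))) (b (l 1) (l 1))), by decide +kernel⟩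

def k4_pm_022_a : ∃ t, chk3 f_pm_022_a t 3 1 1 = true :=
  ⟨(l 1), by decide +kernel⟩

theorem s5_pm_022_a : ∃ t, chk3 f_pm_022_a t 4 2 1 = true := ex3_b k0_pm_022_a k1_pm_022_a

theorem s6_pm_022_a : ∃ t, chk3 f_pm_022_a t 2 2 1 = true := ex3_a s5_pm_022_a k2_pm_022_a

theorem s7_pm_022_a : ∃ t, chk3 f_pm_022_a t 2 1 1 = true := ex3_b s6_pm_022_a k3_pm_022_a

theorem s8_pm_022_a : ∃ t, chk3 f_pm_022_a t 1 1 1 = true := ex3_a s7_pm_022_a k4_pm_022_a

theorem c_pm_022_a : CertB 0 536870912 0 536870912 649613803 48318383 3 eng mog cd0q0 cd1q2a pd2 false true false .pp 0 2 2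
    ndB0q0 ndB1q2a pcB2 cut_pm_022_a Ext.none :=
  certB2 (fam := false) (s1 := true) (s2 := false) (a := 0) (b := 2) (c := 2) (cn := .pp) (n1 := ndB0q0) (n2 := ndB1q2a) (pc := pcB2) (cut := cut_pm_022_a) (xt := Ext.none) (P1 := 0) (W1 := 536870912) (P2 := 0) (W2 := 536870912) (P3 := 649613803) (W3 := 48318383) (N0 := 3) (En := eng) (mo := mog) (C1 := cd0q0) (C2 := cd1q2a) (C3 := pd2)
    rfl (fun _ => rfl) s8_pm_022_a

noncomputable def cut_pm_022_b : Cut := Cut.of [[⟨0, 0, 0, 67108864⟩, ⟨1, 1, 0, 67108864⟩, ⟨2, 1, 0, 67108864⟩]]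

noncomputable def f_pm_022_b : ℕ → ℕ → ℕ → ℕ → Bool := onCell 0 536870912 1073741824 536870912 649613803 48318383
    (rowB 3 eng mog cd0q0 cd1q2b pd2 1 false true false .pp 0 2 2 (qsf 0 536870912 1239849684 370763052 2) ndB0q0 ndB1q2b pcB2 cut_pm_022_b Ext.none)

def k0_pm_022_b : ∃ t, chk3 f_pm_022_b t 1 2 1 = true :=
  ⟨(a (b (a (b (a (l 1) (b (a (l 1) (b (l 1) (c (l 376916424791) (l 325376805159)))) (a (l 397854325639) (b (c (l 322155459735) (l 275984594167)) (l 16486168))))) (a (b (a (l 1) (l 293701422007)) (a (b (l 1) (l 67678865063)) (l 29024156999))) (a (b (l 135861378087) (l 16412168)) (b (l 16408576) (l 16333760))))) (a (b (b (b (a (c (a (l 375842680919) (b (l 240014345623) (l 16496824))) (a (l 320008096695) (l 320544870279))) (c (a (b (l 16493936) (l 16478344)) (l 16467400)) (l 16469472))) (a (c (a (l 246456726039) (l 16455680)) (l 219076305319)) (l 16438096))) (a (b (l 16450896) (l 16410832)) (l 16376944))) (b (l 16426912) (l 16343464))) (a (b (c (l 16584576) (l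 16526448)) (l 16316456)) (b (b (l 16383224) (l 16293352)) (l 16205072))))) (a (b (a (b (c (a (l 16525680) (l 16421488)) (l 16557880)) (b (c (a (l 16389056) (l 16329168)) (l 16420032)) (a (l 16361008) (l 16302152)))) (b (a (l 16382800) (l 16266552)) (b (c (l 16311800) (l 16263088)) (a (l 16248400) (l 16200688))))) (a (a (l 16438624) (l 16346400)) (b (l 16252320) (l 16149776)))) (b (a (b (l 16282960) (b (l 16178960) (l 16142416))) (b (l 16139872) (b (l 16106360) (l 16097632)))) (a (b (l 16125312) (l 16093992)) (l 16318096))))) (a (b (a (b (b (a (l 16328616) (l 16306232)) (l 16341816)) (a (l 16188496) (l 16181784))) (b (a (l 16309976) (l 16263376)) (a (l 16182696) (l 16189600)))) (b (a (b (l 16123512) (b (l 16098176) (l 16096976))) (b (l 16137872) (l 16121280))) (a (l 16110304) (l 16156160)))) (b (a (b (l 16262960) (l 16201664)) (b (l 16278608) (l 16231792))) (b (a (b (l 16162104) (l 2)) (l 2)) (l 2))))), by decide +kernel⟩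

def k1_pm_022_b : ∃ t, chk3 f_pm_022_b t 1 3 1 = true :=
  ⟨(a (b (a (b (a (a (l 16179440) (l 16144200)) (l 16087584)) (a (b (l 16100440) (l 16072760)) (l 16040456))) (b (a (l 16027992) (l 16042704)) (a (l 15991176) (l 15959808)))) (a (b (a (b (l 16053680) (l 16042944)) (l 16032912)) (a (l 16037304) (l 16048176))) (b (a (l 16018984) (l 2)) (l 2)))) (b (a (b (a (l 16107952) (l 2)) (l 2)) (l 2)) (l 2))), by decide +kernel⟩

theorem s2_pm_022_b : ∃ t, chk3 f_pm_022_b t 1 1 1 = true := ex3_b k0_pm_022_b k1_pm_022_b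

theorem c_pm_022_b : CertB 0 536870912 1239849684 370763052 649613803 48318383 3 eng mog cd0q0 cd1q2b pd2 false true false .pp 0 2 2
    ndB0q0 ndB1q2b pcB2 cut_pm_022_b Ext.none :=
  certB1 (fam := false) (s1 := true) (s2 := false) (a := 0) (b := 2) (c := 2) (cn := .pp) (n1 := ndB0q0) (n2 := ndB1q2b) (pc := pcB2) (cut := cut_pm_022_b) (xt := Ext.none) (P1 := 0) (W1 := 536870912) (P2 := 1239849684) (W2 := 370763052) (P3 := 649613803) (W3 := 48318383) (N0 := 3) (En := eng) (mo := mog) (C1 := cd0q0) (C2 := cd1q2b) (C3 := pd2)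
    rfl (fun _ => rfl) s2_pm_022_b

noncomputable def f_pm_023 : ℕ → ℕ → ℕ → ℕ → Bool := onCell 0 536870912 1073741824 536870912 649613803 48318383
    (rowB 3 eng mog cd0q0 cd1q3 pd2 1 false true false .up 0 2 3 (qsf 0 536870912 1610612736 536870912 2) ndB0q0 ndB1q3 pcB2 Cut.none Ext.none)

def k0_pm_023 : ∃ t, chk3 f_pm_023 t 1 1 1 = true :=
  ⟨(b (a (b (l 1) (a (l 1) (b (l 1) (a (l 1) (l 16293360))))) (a (b (a (l 1) (b (l 1) (l 147135494935))) (b (a (b (l 1) (l 312491519959)) (b (l 16131736) (l 16113672))) (a (l 16103288) (l 16145120)))) (b (a (b (l 16257096) (l 16192448)) (b (l 16266136) (l 16215632))) (b (a (b (l 16150544) (l 16137240)) (b (l 16181456) (l 16170544))) (a (l 16182488) (l 16223448)))))) (a (b (a (b (l 1) (l 319470398423)) (b (l 223370804023) (l 277594727703))) (a (b (a (l 322691871911) (l 16044520)) (l 347388100023)) (b (a (l 16037832) (l 16032552)) (l 16106120)))) (b (a (b (a (l 16093824) (l 16170480)) (a (l 16049616) (l 16206176))) (b (l 16297848) (l 16440672)))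 (a (a (b (l 16189008) (l 16351824)) (l 16426280)) (l 16560272))))), by decide +kernel⟩

theorem c_pm_023 : CertB 0 536870912 1610612736 536870912 649613803 48318383 3 eng mog cd0q0 cd1q3 pd2 false true false .up 0 2 3
    ndB0q0 ndB1q3 pcB2 Cut.none Ext.none :=
  certB1 (fam := false) (s1 := true) (s2 := false) (a := 0) (b := 2) (c := 3) (cn := .up) (n1 := ndB0q0) (n2 := ndB1q3) (pc := pcB2) (cut := Cut.none) (xt := Ext.none) (P1 := 0) (W1 := 536870912) (P2 := 1610612736) (W2 := 536870912) (P3 := 649613803) (W3 := 48318383) (N0 := 3) (En := eng) (mo := mog) (C1 := cd0q0) (C2 := cd1q3) (C3 := pd2)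
    rfl (fun _ => rfl) k0_pm_023

noncomputable def f_pm_033 : ℕ → ℕ → ℕ → ℕ → Bool := onCell 1610612736 536870912 1610612736 536870912 649613803 48318383
    (rowB 3 eng mog cd0q0 cd1q3 pd3 2 false true false .pnn 0 3 3 (qsf 0 536870912 1610612736 536870912 3) ndB0q0 ndB1q3 pcB3 Cut.none Ext.none)

def k0_pm_033 : ∃ t, chk3 f_pm_033 t 1 1 1 = true :=
  ⟨(a (b (a (b (a (b (l 16012632) (l 16043008)) (b (l 477310656791) (l 16007576))) (a (b (l 16076832) (l 16229592)) (a (l 16135016) (l 16132192)))) (l 4)) (a (b (a (b (l 16367128) (l 16484640)) (b (l 16316440) (l 16427648))) (a (l 16598048) (b (l 16522320) (l 16591560)))) (a (a (b (l 16344272) (l 16527456)) (b (l 4) (l 16506096))) (l 4)))) (l 4)), by decide +kernel⟩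

theorem c_pm_033 : CertB 0 536870912 1610612736 536870912 649613803 48318383 3 eng mog cd0q0 cd1q3 pd3 false true false .pnn 0 3 3
    ndB0q0 ndB1q3 pcB3 Cut.none Ext.none :=
  certB2 (fam := false) (s1 := true) (s2 := false) (a := 0) (b := 3) (c := 3) (cn := .pnn) (n1 := ndB0q0) (n2 := ndB1q3) (pc := pcB3) (cut := Cut.none) (xt := Ext.none) (P1 := 0) (W1 := 536870912) (P2 := 1610612736) (W2 := 536870912) (P3 := 649613803) (W3 := 48318383) (N0 := 3) (En := eng) (mo := mog) (C1 := cd0q0) (C2 := cd1q3) (C3 := pd3)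
    rfl (fun _ => rfl) k0_pm_033

noncomputable def xt_pm_101 : Ext := extD2 3 ⟨7, 3, 3, 10, 377, 200, 77, 100, 17, 50, 3, 16⟩ eng cd0q1 cd1q1 pd0 false true false .npn 1 0 1 rfl ndB0q1 ndB1q1 pcB0

noncomputable def f_pm_101 : ℕ → ℕ → ℕ → ℕ → Bool := onCell 0 536870912 536870912 536870912 649613803 48318383
    (rowB 3 eng mog cd0q1 cd1q1 pd0 2 false true false .npn 1 0 1 (qsf 536870912 536870912 536870912 536870912 0) ndB0q1 ndB1q1 pcB0 Cut.none xt_pm_101)

def k0_pm_101 : ∃ t, chk3 f_pm_101 t 2 2 1 = true :=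
  ⟨(a (b (b (l 4) (a (b (l 4) (a (a (b (l 4) (l 16720360)) (l 4)) (l 4))) (l 4))) (a (b (a (b (b (a (l 16705856) (l 16712160)) (l 16722096)) (a (l 16708080) (l 16703240))) (b (b (a (l 16719976) (l 4)) (a (l 16704848) (l 16710824))) (b (l 16719944) (l 16699168)))) (a (b (b (l 16720320) (l 16735432)) (b (l 16754264) (l 16795712))) (b (b (l 16704872) (l 16714480)) (b (l 16728224) (l 16745464))))) (a (b (b (a (b (l 4) (l 16718392)) (l 4)) (b (a (l 16702448) (l 16708136)) (l 16695696))) (b (b (l 16694920) (l 16699408)) (b (l 16708336) (l 16720584)))) (b (b (l 4) (b (l 4) (a (l 16698608) (l 39963327703)))) (b (a (l 16691112) (b (l 16690912) (l 16687944))) (a (l 16700968) (l 16714368))))))) (b (l 4) (a (b (b (l 4) (l 4)) (a (b (b (a (l 16693200) (l 16719496)) (a (l 16684800) (l 16683720))) (a (l 16685000) (l 16677944))) (b (b (l 4) (a (l 16686064) (l 16712480))) (a (l 16673128) (l 16691456))))) (b (l 4) (b (l 4) (a (b (a (l 16677336) (l 16703648)) (a (l 16664632) (l 16664248))) (b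 (l 4) (a (l 16666640) (l 16671880))))))))), by decide +kernel⟩

def k1_pm_101 : ∃ t, chk3 f_pm_101 t 2 6 1 = true :=
  ⟨(a (a (b (b (a (b (a (l 16803592) (l 16788976)) (a (b (l 16841712) (l 16824480)) (b (l 16805728) (l 16814624)))) (b (l 16745248) (a (l 16777936) (l 16780312)))) (a (b (a (l 16833320) (l 16824760)) (a (l 16839472) (l 16832464))) (b (a (l 16811152) (b (l 16797048) (l 16804904))) (a (l 16823600) (l 16812504))))) (a (b (a (b (l 16839600) (l 16838920)) (l 16960816)) (b (a (l 16837952) (l 16834352)) (a (l 16838032) (l 16833688)))) (a (b (b (l 16827008) (l 16828992)) (b (l 16829600) (l 16829464))) (b (l 16883040) (l 16887144))))) (b (a (b (b (l 16736744) (l 16756200)) (b (a (b (l 16782624) (l 16789040)) (l 16772904)) (a (l 16799224) (l 16784760)))) (b (a (l 16726528) (l 16693952)) (b (a (l 16754608) (l 16739656)) (a (l 16767928) (b (l 16756048) (l 16757728)))))) (a (b (a (l 16830680) (l 16774720)) (b (l 16873200) (l 16917544))) (b (a (l 16761560) (b (l 16763512)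 (l 16770432))) (a (l 16816464) (b (l 16777088) (l 16783632))))))) (a (b (a (b (a (l 16699320) (l 16684960)) (b (l 16708968) (a (l 16736704) (l 16712760)))) (b (a (l 16673248) (l 16663576)) (b (l 16674136) (l 16680872)))) (a (a (b (l 16744896) (l 16780824)) (b (b (l 16716216) (l 16723912)) (l 16778144))) (b (b (a (l 16695608) (l 16678040)) (l 16732208)) (a (l 16711376) (l 16729728))))) (b (a (b (a (l 16655992) (l 16650408)) (a (l 16655560) (l 16643520))) (b (a (l 16667912) (l 16644992)) (a (l 16633464) (l 16625328)))) (b (a (a (b (l 16659984) (l 16658168)) (b (l 16641456) (l 16639848))) (b (l 16641136) (a (l 16625336) (l 16611144)))) (a (a (b (l 16662624) (l 16668112)) (b (l 16642512) (l 16645920))) (a (b (l 16623640) (l 16625168)) (b (l 16605344) (l 16605568)))))))), by decide +kernel⟩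

def k2_pm_101 : ∃ t, chk3 f_pm_101 t 4 7 1 = true :=
  ⟨(b (b (a (b (a (b (a (l 16837496) (l 16834840)) (l 16826776)) (b (l 16868640) (c (l 16815112) (l 16914344)))) (a (l 16918288) (l 16852920))) (b (a (a (l 16883360) (l 16811240)) (a (l 16800400) (l 16788296))) (a (a (l 16808928) (l 16802840)) (a (l 16880440) (a (l 16791184) (l 16765432)))))) (a (a (b (a (l 16798400) (l 16796608)) (a (l 16784744) (l 16783376))) (b (a (l 16795432) (l 16794976)) (a (l 16782136) (l 16781552)))) (a (b (a (l 16794544) (l 16793720)) (a (l 16781752) (l 16782032))) (a (b (l 16791016) (l 16781944)) (c (l 16774472) (l 16857352)))))) (a (b (b (a (a (l 16773224) (l 16772504)) (a (l 16771616) (l 16770904))) (a (b (l 16807440) (a (l 16758352) (l 16759712))) (b (l 16806832) (a (l 16760576) (l 16761248))))) (a (b (a (l 16748496) (l 16749968)) (a (l 16734240) (l 16736824))) (b (a (l 16750968) (l 16751280)) (a (l 16738384) (l 16739216))))) (b (a (b (a (l 16770920) (l 16771792)) (a (b (l 16764488) (l 16762016))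 (l 16785720))) (a (b (l 16772784) (l 16765000)) (b (l 16773440) (l 16766760)))) (a (b (a (l 16751648) (l 16814456)) (a (l 16739368) (l 16739592))) (b (b (a (l 16756688) (b (l 16763016) (l 16759152))) (l 16772392)) (a (l 16740280) (l 16742056))))))), by decide +kernel⟩

def k3_pm_101 : ∃ t, chk3 f_pm_101 t 5 7 1 = true :=
  ⟨(b (a (b (a (a (b (l 16771040) (a (l 16780544) (l 16773576))) (b (l 16749528) (l 16824016))) (a (b (l 16726256) (l 16802560)) (b (l 16701072) (l 16713368)))) (a (b (c (l 16762328) (l 16781480)) (a (l 16774992) (l 16766464))) (a (b (l 16746120) (l 16753792)) (b (l 16785232) (l 16735616))))) (b (a (a (b (l 16676448) (l 16687544)) (b (l 16652496) (l 16662152))) (a (b (l 16629528) (a (l 16643440) (l 16631224))) (b (l 16607952) (l 16613384)))) (a (b (a (a (l 16704976) (l 16692672)) (b (l 16672832) (l 16676760))) (a (l 16713152) (l 16688312))) (b (a (b (l 16645288) (l 16650216)) (b (l 16619872) (l 16625968))) (a (l 16660888) (l 16633672)))))) (b (a (a (b (a (l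 16771880) (l 16767656)) (a (l 16768104) (l 16788416))) (a (b (l 16758952) (b (l 16762016) (l 16763448))) (b (l 16744408) (l 16751424)))) (a (a (b (l 16725528) (l 16736184)) (b (l 16702136) (l 16716424))) (a (b (l 16676128) (l 16691832)) (b (l 16647304) (l 16664384))))) (a (a (b (b (a (b (l 16766280) (l 16762008)) (c (l 16758912) (l 16840288))) (a (l 16756656) (l 16760304))) (a (l 16745288) (l 16770000))) (b (a (b (a (l 16788288) (l 16764024)) (l 16760896)) (b (l 16756672) (l 16816840))) (a (a (l 16751720) (l 16751112)) (l 16769632)))) (a (b (a (b (l 16742984) (l 16785904)) (b (l 16725904) (l 16730200))) (a (l 16742624) (l 16732368))) (b (a (b (l 16704240) (l 16711872)) (b (l 16677768) (l 16688488))) (a (l 16717624) (l 16696720))))))), by decide +kernel⟩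

def k4_pm_101 : ∃ t, chk3 f_pm_101 t 3 2 1 = true :=
  ⟨(a (b (l 1) (b (l 1) (a (b (l 1) (l 4)) (l 1)))) (l 1)), by decide +kernel⟩

def k5_pm_101 : ∃ t, chk3 f_pm_101 t 6 6 1 = true :=
  ⟨(b (a (b (a (b (a (l 16653768) (l 16658624)) (l 16615408)) (b (l 1) (a (l 16638152) (l 1)))) (a (b (l 16622880) (l 16589784)) (b (l 34393010183) (l 16601352)))) (a (b (l 1) (b (l 1) (l 62310296455))) (l 1))) (a (b (a (a (l 16599120) (l 16588576)) (a (l 16580088) (l 16572896))) (a (b (a (l 16588232) (l 16554424)) (a (l 16587464) (l 16570424))) (b (a (l 16564056) (l 16551744)) (a (l 16554712) (l 16538648))))) (b (a (a (l 16566528) (b (l 16571792) (l 16552648))) (a (b (l 1) (l 16555640)) (l 1))) (a (b (l 16537320) (a (l 16527792) (l 16520008))) (a (b (l 16536240) (l 16519760)) (b (l 16535712) (l 16515480))))))), by decide +kernel⟩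

def k6_pm_101 : ∃ t, chk3 f_pm_101 t 12 7 1 = true :=
  ⟨(b (b (a (a (b (l 16587432) (l 16590768)) (b (l 16568368) (l 16569144))) (a (b (l 16550312) (l 16548944)) (b (l 16533576) (c (l 16547448) (l 16512264))))) (a (a (b (a (l 16605232) (l 16591368)) (a (l 16613184) (l 16598552))) (b (l 16573632) (b (l 16578080) (l 16582576)))) (a (b (l 16550704) (b (l 16555328) (l 16556752))) (b (l 16529176) (b (l 16531616) (l 16530872)))))) (b (a (a (b (l 16618504) (l 16633776)) (b (l 16589896) (l 16603016))) (a (b (l 16561928) (l 16572288)) (b (l 16535160) (l 16542072)))) (a (b (a (a (l 16662208) (l 16645608)) (l 16620056)) (a (l 16773728) (a (l 16645856) (l 16628720)))) (b (a (l 16607896) (a (l 16561960) (l 16545376))) (a (a (l 16673808) (b (l 16590616) (l 16600416))) (b (a (l 16573600) (l 16556536)) (l 16573544))))))), by decide +kernel⟩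

def k7_pm_101 : ∃ t, chk3 f_pm_101 t 13 7 1 = true :=
  ⟨(a (b (b (a (b (l 16518472) (l 16490840)) (b (l 16505344) (l 16495568))) (b (a (l 16529576) (l 16489360)) (a (a (l 16494888) (l 16484048)) (l 16488880)))) (b (b (a (l 16509296) (l 16486640)) (a (l 16512968) (b (l 16468416) (l 16471328)))) (a (b (a (l 16528920) (l 16512584)) (b (a (l 16539368) (l 16522064)) (l 16537240))) (b (a (c (l 16525016) (l 16476120)) (l 592254188815236145340463)) (a (b (a (b (l 16507488) (l 16510680)) (l 16508920)) (l 16515192)) (b (a (l 16508728) (l 16507904)) (l 16513936))))))) (b (b (b (a (a (l 16502136) (l 16498608)) (b (l 16501784) (l 16492072))) (a (c (l 16501472) (l 16471488)) (l 16479424))) (a (b (l 16473968) (l 16466040)) (a (l 16461856) (l 16479000)))) (b (a (b (a (l 16470264) (l 16458216)) (a (l 16479888) (l 16468208))) (b (a (l 16450552) (l 16444864)) (l 16451048))) (a (b (a (b (l 16467672) (l 16475216)) (l 16480840)) (a (b (b (l 16481712) (l 16486840)) (l 141258896796614703)) (c (l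 16496584) (l 16477048)))) (b (l 16458600) (b (l 16468464) (c (l 16476336) (l 16451576)))))))), by decide +kernel⟩

def k8_pm_101 : ∃ t, chk3 f_pm_101 t 7 3 1 = true :=
  ⟨(b (a (b (l 1) (b (l 1) (a (a (b (l 1) (l 16515672)) (l 1)) (l 1)))) (l 1)) (a (b (b (a (b (a (b (l 16500616) (l 16489728)) (a (a (l 16497448) (l 1)) (l 1))) (a (c (l 16488632) (l 16464960)) (a (c (l 16487304) (l 16465176)) (b (l 16473016) (l 16463760))))) (b (l 1) (a (b (l 1) (l 16452672)) (l 1)))) (b (a (a (l 16461080) (a (l 16459352) (l 16450112))) (a (c (l 16467528) (l 16427232)) (c (l 48888164343) (l 16418320)))) (a (a (l 16448480) (a (l 16445392) (l 16433928))) (a (l 16417624) (l 16403128))))) (b (a (a (b (a (l 16440872) (l 16438312)) (l 16434472)) (b (b (l 16430184) (l 16445184)) (a (l 16424864) (l 16411120)))) (b (a (a (l 16408744) (l 16397096)) (l 16404368)) (a (l 16390336) (l 16365624)))) (b (a (a (l 16433832) (c (l 16431192) (l 16392536))) (a (l 16385544) (l 16357096))) (a (a (a (l 16468048) (l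 16431768)) (a (a (l 16421088) (l 16414648)) (l 16405944))) (a (a (l 16394672) (b (l 16378408) (l 16380952))) (l 16353704)))))) (b (a (b (l 1) (b (l 1) (a (l 36540080007) (l 1)))) (l 1)) (b (b (a (a (l 16371576) (l 16367264)) (l 1)) (a (b (a (l 16355080) (l 16348792)) (l 16362496)) (a (b (l 1) (l 16334552)) (l 1)))) (a (b (b (l 16354408) (l 16347112)) (b (l 16340808) (l 16377664))) (b (a (l 16319272) (l 16319472)) (a (l 16300664) (l 16297848)))))))), by decide +kernel⟩

theorem s9_pm_101 : ∃ t, chk3 f_pm_101 t 6 7 1 = true := ex3_a k6_pm_101 k7_pm_101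

theorem s10_pm_101 : ∃ t, chk3 f_pm_101 t 6 3 1 = true := ex3_b k5_pm_101 s9_pm_101

theorem s11_pm_101 : ∃ t, chk3 f_pm_101 t 3 3 1 = true := ex3_a s10_pm_101 k8_pm_101

theorem s12_pm_101 : ∃ t, chk3 f_pm_101 t 3 1 1 = true := ex3_b k4_pm_101 s11_pm_101

theorem s13_pm_101 : ∃ t, chk3 f_pm_101 t 2 7 1 = true := ex3_a k2_pm_101 k3_pm_101

theorem s14_pm_101 : ∃ t, chk3 f_pm_101 t 2 3 1 = true := ex3_b k1_pm_101 s13_pm_101

theorem s15_pm_101 : ∃ t, chk3 f_pm_101 t 2 1 1 = true := ex3_b k0_pm_101 s14_pm_101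

theorem s16_pm_101 : ∃ t, chk3 f_pm_101 t 1 1 1 = true := ex3_a s15_pm_101 s12_pm_101

theorem c_pm_101 : CertB 536870912 536870912 536870912 536870912 649613803 48318383 3 eng mog cd0q1 cd1q1 pd0 false true false .npn 1 0 1
    ndB0q1 ndB1q1 pcB0 Cut.none xt_pm_101 :=
  certB2 (fam := false) (s1 := true) (s2 := false) (a := 1) (b := 0) (c := 1) (cn := .npn) (n1 := ndB0q1) (n2 := ndB1q1) (pc := pcB0) (cut := Cut.none) (xt := xt_pm_101) (P1 := 536870912) (W1 := 536870912) (P2 := 536870912) (W2 := 536870912) (P3 := 649613803) (W3 := 48318383) (N0 := 3) (En := eng) (mo := mog) (C1 := cd0q1) (C2 := cd1q1) (C3 := pd0)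
    rfl (fun _ => rfl) s16_pm_101

end Pool.Agent.Strip051.G.I6050_6500.Tab.C.BB01

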