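import Pool.Agent.Strip051.G.I6050_6500.Tab

/-! # Certificates B24 (generated) -/

set_option linter.all false
set_option maxRecDepth 100000

namespace Pool.Agent.Strip051.G.I6050_6500.Tab.C.BB01

open Pool.Agent.Strip051.PB Pool.Agent.Strip051.PB.T
open Pool.Agent.Strip051.G.I6050_6500.Tab

noncomputable def cut_pm_102_b : Cut := Cut.of [[⟨0, 1, 0, 67108864⟩, ⟨1, 0, 0, 67108864⟩, ⟨2, 1, 0, 67108864⟩], [⟨0, 0, 1, 20971520⟩, ⟨1, 1, 2, 20971520⟩, ⟨2, 1, 0, 33554432⟩]]

noncomputable def f_pm_102_b : ℕ → ℕ → ℕ → ℕ → Bool := onCell 536870912 536870912 0 536870912 649613803 48318383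
    (rowB 3 eng mog cd0q1 cd1q2b pd0 1 false true false .npp 1 0 2 (qsf 536870912 536870912 1239849684 370763052 0) ndB0q1 ndB1q2b pcB0 cut_pm_102_b Ext.none)

def k0_pm_102_b : ∃ t, chk3 f_pm_102_b t 1 1 1 = true :=
  ⟨(a (a (l 1) (l 3)) (l 3)), by decide +kernel⟩

theorem c_pm_102_b : CertB 536870912 536870912 1239849684 370763052 649613803 48318383 3 eng mog cd0q1 cd1q2b pd0 false true false .npp 1 0 2
    ndB0q1 ndB1q2b pcB0 cut_pm_102_b Ext.none :=
  certB1 (fam := false) (s1 := true) (s2 := false) (a := 1) (b := 0) (c := 2) (cn := .npp) (n1 := ndB0q1) (n2 := ndB1q2b) (pc := pcB0) (cut := cut_pm_102_b) (xt := Ext.none) (P1 := 536870912) (W1 := 536870912) (P2 := 1239849684) (W2 := 370763052) (P3 := 649613803) (W3 := 48318383) (N0 := 3) (En := eng) (mo := mog) (C1 := cd0q1) (C2 := cd1q2b) (C3 := pd0)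
    rfl (fun _ => rfl) k0_pm_102_b

noncomputable def f_pm_112_a : ℕ → ℕ → ℕ → ℕ → Bool := onCell 536870912 536870912 0 536870912 649613803 48318383
    (rowB 3 eng mog cd0q1 cd1q2a pd1 0 false true false .dn 1 1 2 (qsf 536870912 536870912 0 536870912 1) ndB0q1 ndB1q2a pcB1 Cut.none Ext.none)

def k0_pm_112_a : ∃ t, chk3 f_pm_112_a t 8 2 1 = true :=
  ⟨(b (b (a (b (a (l 16687776) (l 16697632)) (a (b (l 16672728) (l 16663280)) (l 16698256))) (a (b (l 16707896) (l 16687176)) (b (a (l 16715784) (l 16721208)) (l 16718248)))) (a (b (a (l 16649856) (b (l 16663392) (l 16654392))) (l 16658592)) (b (a (b (l 16672656) (l 16663672)) (b (l 16682448) (l 16672968))) (a (l 16650616) (b (l 16664032) (l 16655448)))))) (b (a (b (l 16643752) (l 16604792)) (b (l 16680936) (l 16619176))) (b (a (l 16582656) (l 16594536)) (a (l 16594352) (l 16623800))))), by decide +kernel⟩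

def k1_pm_112_a : ∃ t, chk3 f_pm_112_a t 18 8 1 = true :=
  ⟨(b (a (b (a (l 16732296) (b (a (l 16739424) (l 16742296)) (l 16735264))) (l 16724112)) (b (a (b (l 16746728) (a (l 16739672) (l 16742568))) (l 16762984)) (a (l 16732696) (b (a (l 16739952) (l 16742872)) (l 16735752))))) (a (b (l 16713192) (l 16702584)) (b (l 16724432) (l 16713528)))), by decide +kernel⟩

def k2_pm_112_a : ∃ t, chk3 f_pm_112_a t 38 16 1 = true :=
  ⟨(b (a (c (l 16767048) (l 16765968)) (a (l 16771184) (b (l 16772032) (l 16760952)))) (a (b (l 16747432) (a (l 16740264) (l 16743200))) (l 16761160))), by decide +kernel⟩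

def k3_pm_112_a : ∃ t, chk3 f_pm_112_a t 78 32 1 = true :=
  ⟨(a (b (c (l 16775504) (c (l 16775120) (l 16774864))) (l 16764136)) (b (b (a (c (l 16776640) (l 16776328)) (b (a (c (l 16775800) (l 16776912)) (b (a (a (l 16776408) (b (a (l 16776616) (b (b (a (l 22716349415) (l 13052672999)) (l 16776680)) (l 16776616))) (l 16776416))) (b (a (a (b (b (l 46338669735) (a (l 21105736663) (l 16776704))) (l 16776664)) (b (l 3) (b (c (l 16776752) (l 13589543927)) (l 16776680)))) (a (b (l 3) (b (l 3) (c (l 16776744) (l 12515802087)))) (l 3))) (b (a (l 16776592) (a (l 16776664) (b (l 13052672967) (l 16776680)))) (l 16776544)))) (l 16776720))) (l 16776016))) (c (l 16777224) (l 16776776))) (l 16772600))), by decide +kernel⟩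

def k4_pm_112_a : ∃ t, chk3 f_pm_112_a t 316 64 1 = true :=
  ⟨(b (a (b (a (b (b (l 3) (a (b (a (c (l 125258693943) (l 7683963815)) (l 3)) (a (l 24326962103) (b (l 10905189303) (l 22179478471)))) (a (b (l 3) (b (l 3) (l 16776688))) (l 3)))) (b (a (l 16776552) (b (a (c (l 16776712) (l 21105736647)) (b (l 16776680) (l 20031994823))) (l 16776600))) (l 16776376))) (b (l 3) (a (b (b (a (a (l 44728057031) (l 3)) (l 3)) (a (b (l 18958252999) (l 16776648)) (b (l 16776672) (l 18958252999)))) (l 16776560)) (b (l 143512304487) (b (a (b (l 17884511175) (l 16776648)) (b (l 16776664) (l 16810769335))) (l 16776608)))))) (c (l 16775904) (l 16776352))) (b (a (a (b (l 3) (b (l 3) (b (l 3) (a (b (l 15737027495) (l 16776648)) (c (l 44728057095) (l 9831447447)))))) (l 3)) (l 3)) (b (b (a (a (l 24863832903) (b (a (b (l 13589543815) (l 16776648)) (c (l 46338669815) (l 8220834647))) (l 24863832919))) (a (b (l 3) (a (b (l 16776648) (l 16776640)) (l 44728056999))) (l 3))) (a (l 16776400)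 (a (c (l 16776632) (c (l 16776536) (l 21642607415))) (b (a (a (l 18421382039) (l 13052672871)) (l 47412411495)) (c (l 16776664) (c (l 16776576) (l 20568865671))))))) (c (l 16776232) (l 16776056))))) (c (l 16776920) (l 16776592))), by decide +kernel⟩

def k5_pm_112_a : ∃ t, chk3 f_pm_112_a t 317 64 1 = true :=
  ⟨(a (b (b (l 3) (a (b (a (a (b (l 3) (b (l 3) (c (l 16776688) (l 12515801959)))) (l 188072590039)) (l 3)) (b (a (a (l 16776552) (a (l 25937574711) (b (l 20031994759) (l 16776560)))) (b (a (l 13052672871) (l 3)) (a (l 16776592) (a (l 16776616) (l 18421382007))))) (l 16776424))) (b (l 3) (a (b (b (l 3) (a (l 11978931367) (l 3))) (b (a (l 16776592) (a (l 21642607431) (l 16273898327))) (l 16776536))) (b (l 3) (b (c (l 131164273735) (c (l 45801798519) (l 43117443895))) (a (l 16776592) (c (l 16776664) (l 15737027415))))))))) (c (l 16776696) (c (l 16776504) (b (l 16776392) (l 16774352))))) (b (a (a (a (b (l 3) (b (l 3) (b (l 3) (b (l 3) (l 45264927831))))) (l 3))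 (l 3)) (l 3)) (b (a (b (b (b (a (a (l 23253220135) (a (l 18421381943) (l 13052672791))) (l 139754208167)) (a (l 16776536) (a (l 22716349255) (l 14663285559)))) (l 16776440)) (l 16776072)) (b (b (l 145659787911) (a (b (a (l 21642607415) (l 13052672775)) (l 16776536)) (b (l 3) (a (l 20031994679) (l 11978931111))))) (c (l 16776424) (l 16776264)))) (l 16775312)))), by decide +kernel⟩

def k6_pm_112_a : ∃ t, chk3 f_pm_112_a t 159 64 1 = true :=
  ⟨(b (l 3) (a (a (a (b (b (l 3) (b (a (b (a (l 18958252839) (l 44728056903)) (l 16776536)) (b (l 3) (a (l 17347640103) (l 46338669575)))) (c (l 16776528) (l 22179478183)))) (l 16775824)) (b (b (l 3) (b (l 3) (a (b (c (l 44728056983) (l 11978930919)) (l 23253220071)) (b (l 3) (a (l 14663285463) (l 144049175399)))))) (a (l 16776704) (b (a (l 16776392) (b (b (l 21642607351) (l 16776488)) (l 16776344))) (l 16775920))))) (b (l 3) (a (b (b (a (b (a (l 13052672679) (l 3)) (c (l 16776592) (l 20568865495))) (b (l 3) (c (l 129016790023)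 (l 44191185703)))) (a (l 16776424) (a (l 16776488) (b (l 18958252775) (l 16776488))))) (l 16776136)) (b (b (l 3) (a (b (c (l 132774886311) (l 45264927415)) (a (l 16776520) (l 17347639991))) (l 140291078727))) (a (l 16776328) (b (a (l 24326961783) (b (l 15737027223) (l 16776488))) (l 16776336))))))) (b (l 3) (a (b (l 3) (a (a (b (b (l 141901691655) (a (l 16776512) (l 14663285367))) (l 16776432)) (b (l 3) (b (a (l 16776504) (l 16776504)) (l 16776472)))) (a (b (l 3) (b (l 3) (c (l 16776560) (l 14663285383)))) (l 3)))) (l 3))))), by decide +kernel⟩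

def k7_pm_112_a : ∃ t, chk3 f_pm_112_a t 79 65 1 = true :=
  ⟨(b (a (c (l 16777528) (l 16774432)) (a (c (l 16777184) (l 16776192)) (b (b (b (a (a (l 16776288) (a (l 16776432) (b (l 15737027207) (l 16776472)))) (b (l 3) (a (a (c (l 44191185943) (l 13052672583)) (l 3)) (l 3)))) (a (l 16776176) (a (a (l 24326961719) (b (c (l 45801798647) (l 11978930695)) (l 23253219927))) (a (b (l 3) (c (l 46875540375) (l 16776560))) (l 3))))) (a (l 16775776) (b (a (l 16776304) (a (c (l 16776504) (l 22179478087)) (b (l 46338669479) (l 22179478087)))) (l 16776200)))) (c (l 16775328) (l 16776344))))) (a (l 16769112) (c (l 16777824) (l 16774712)))), by decide +kernel⟩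

def k8_pm_112_a : ∃ t, chk3 f_pm_112_a t 39 33 1 = true :=
  ⟨(a (c (l 16768072) (l 16766808)) (b (a (l 16764688) (l 16773176)) (l 16770872))), by decide +kernel⟩

def k9_pm_112_a : ∃ t, chk3 f_pm_112_a t 19 17 1 = true :=
  ⟨(a (b (a (l 16733192) (b (a (l 16740592) (l 16743528)) (l 16736352))) (l 16724992)) (b (a (b (l 16748200) (a (l 16740912) (l 16743840))) (l 16762000)) (a (l 16733920) (b (a (l 16741240) (l 16754648)) (l 16737224))))), by decide +kernel⟩

def k10_pm_112_a : ∃ t, chk3 f_pm_112_a t 9 9 1 = true :=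
  ⟨(a (b (a (l 16687712) (l 16719160)) (a (b (a (l 16671048) (l 16675888)) (l 16664784)) (b (l 16683480) (a (l 16671912) (l 16676768))))) (b (a (a (l 16706376) (l 16711992)) (a (l 16717720) (l 16723544))) (a (b (l 16693968) (l 16684496)) (b (l 16704920) (l 16695080))))), by decide +kernel⟩

def k11_pm_112_a : ∃ t, chk3 f_pm_112_a t 9 5 1 = true :=
  ⟨(b (a (b (a (l 16651976) (l 16692656)) (l 16676920)) (b (a (b (a (l 16672880) (l 16677744)) (l 16666200)) (b (l 16685536) (b (a (l 16676008) (l 16681040)) (l 16694472)))) (a (l 16648032) (l 16657344)))) (a (b (l 16629080) (l 16571288)) (b (a (l 16619760) (l 16628336)) (a (l 16581096) (l 16588744))))), by decide +kernel⟩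

def k12_pm_112_a : ∃ t, chk3 f_pm_112_a t 80 64 1 = true :=
  ⟨(l 3), by decide +kernel⟩

def k13_pm_112_a : ∃ t, chk3 f_pm_112_a t 160 65 1 = true :=
  ⟨(b (b (b (l 3) (a (a (a (a (b (b (l 3) (l 47412411207)) (b (l 20568865367) (l 16776400))) (b (l 3) (b (l 137069853447) (l 20031994455)))) (l 186998847703)) (l 3)) (l 3))) (b (a (b (a (a (l 16776320) (a (b (l 18958252615) (l 16776400)) (b (l 145122916951) (l 18421381687)))) (l 3)) (a (l 16776224) (a (a (b (l 17347639815) (l 16776400)) (b (l 3) (l 16273897959))) (l 3)))) (l 3)) (a (a (l 16775856) (a (c (l 16776336) (l 16776144)) (a (b (b (l 15200156087) (l 16776392)) (l 16776288)) (b (b (l 3) (l 14663285559)) (l 24326961543))))) (b (l 3) (a (a (a (b (l 45801798519) (l 16776392)) (b (l 3) (l 46875540327))) (l 3)) (l 3)))))) (a (c (l 16776128) (c (l 16777176) (l 16776344))) (a (b (b (a (a (l 16776200) (a (l 16776272) (b (l 23253219735) (l 16776232)))) (a (b (b (l 47949282039) (l 21642607015)) (l 16776296)) (b (l 139217336599)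 (b (l 20031994263) (l 16776336))))) (l 16775928)) (l 16775056)) (b (b (a (a (b (l 3) (b (l 140827949607) (l 19495123335))) (l 146196658295)) (l 3)) (a (b (a (l 16776304) (b (l 18958252407) (l 16776336))) (l 16776176)) (a (b (b (l 3) (l 17884510567)) (l 16776304)) (b (l 3) (b (l 16810768727) (l 16776328)))))) (l 16776352))))), by decide +kernel⟩

def k14_pm_112_a : ∃ t, chk3 f_pm_112_a t 161 65 1 = true :=
  ⟨(b (l 3) (a (b (a (b (l 3) (a (b (l 3) (a (b (l 3) (l 15737026855)) (l 3))) (l 3))) (l 3)) (b (b (a (a (a (l 16776304) (a (l 21642606951) (l 17347639655))) (a (a (l 47412411095) (l 3)) (l 3))) (l 3)) (a (a (l 16776192) (a (l 24326961415) (a (l 20031994183) (l 16273898199)))) (a (a (a (l 49023023623) (l 3)) (l 3)) (l 3)))) (a (l 16775992) (b (a (a (l 23253219623) (b (l 49559894535) (l 20568865031))) (l 144049174567)) (a (l 16776200) (a (c (l 16776368) (l 20568865031)) (a (l 17347639527) (l 47949281927)))))))) (l 3))), by decide +kernel⟩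

def k15_pm_112_a : ∃ t, chk3 f_pm_112_a t 81 32 1 = true :=
  ⟨(l 3), by decide +kernel⟩

def k16_pm_112_a : ∃ t, chk3 f_pm_112_a t 80 33 1 = true :=
  ⟨(a (b (a (l 16775608) (b (l 16776016) (l 16770512))) (l 16765256)) (b (a (b (a (l 16775832) (c (l 16776688) (c (l 16776440) (l 16776280)))) (l 16772112)) (b (b (b (a (b (a (a (a (l 16776272) (l 20031994119)) (a (l 16273898119) (l 50096765367))) (l 3)) (a (l 16776208) (a (a (l 22179477735) (l 18421381351)) (c (l 128479918567) (l 46338668807))))) (l 3)) (b (a (c (l 16776232) (l 21642606679)) (a (a (a (l 21105735895) (l 16810768535)) (c (l 133848627559) (l 48486152327))) (l 3))) (a (l 16775928) (b (a (l 23253219495) (l 138143594503)) (a (l 16776176) (c (l 43654314711) (l 16273897623))))))) (a (l 16775264) (a (l 16775712) (b (a (l 16776104) (b (l 22716348567) (l 16776104))) (l 16775728))))) (l 16776280))) (a (l 16767704) (l 16769328)))), by decide +kernel⟩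

def k17_pm_112_a : ∃ t, chk3 f_pm_112_a t 81 66 1 = true :=
  ⟨(a (b (b (l 3) (a (a (a (b (a (b (c (l 45264927415) (l 15200155703)) (l 16776184)) (b (l 3) (c (l 16776296) (l 20031993975)))) (l 16775976)) (a (b (b (l 3) (c (l 47412410951) (l 14126414167))) (l 16776112)) (b (l 3) (b (a (l 16776208) (l 18958252135)) (l 16776120))))) (b (l 3) (a (a (b (l 47412410823) (l 16776176)) (b (l 3) (c (l 16776272) (l 17884510279)))) (a (b (l 3) (l 50096765255)) (l 3))))) (l 3))) (b (b (a (a (l 16775624) (a (l 16775992) (a (l 23790090183) (b (l 18421381159) (l 16776120))))) (a (a (b (l 141364819767) (a (l 23253219367) (l 17347639303))) (l 146733528695)) (l 3))) (a (l 16775376) (b (a (a (l 16776088) (a (l 22179477511) (c (l 46338669095) (l 14663284615)))) (l 3)) (a (l 16776016) (a (a (l 21105735671) (l 47412410791)) (l 3)))))) (a (l 16774456) (b (a (l 16775696) (a (l 16776024) (b (a (l 20031993863) (l 49023023399)) (l 16776088)))) (l 16775456))))) (b (l 3) (a (b (l 3) (a (b (a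 (a (b (l 3) (l 18958251959)) (l 141901690519)) (l 3)) (a (c (l 16776136) (l 21105735463)) (a (b (l 17884510103) (l 16776064)) (b (l 144586045303) (l 22179477399))))) (a (a (b (l 3) (b (l 3) (l 16273897287))) (l 3)) (l 3)))) (l 3)))), by decide +kernel⟩

def k18_pm_112_a : ∃ t, chk3 f_pm_112_a t 81 67 1 = true :=
  ⟨(b (b (a (c (l 16776704) (l 16775576)) (a (a (l 16775520) (b (a (a (l 16776000) (b (l 21105735559) (l 16776008))) (a (b (l 16273897783) (l 16776064)) (b (l 3) (l 20031993703)))) (l 16775784))) (a (a (a (b (b (l 3) (l 49023023287)) (l 16776008)) (b (l 3) (b (l 18958251847) (l 16776008)))) (b (l 3) (b (l 139754206807) (a (l 16776048) (l 17884509991))))) (l 186461975447)))) (a (l 16772456) (a (l 16774672) (a (l 16775584) (b (a (b (a (l 22179477287) (l 16810768087)) (l 16775984)) (b (l 3) (a (l 21105735447) (l 15737026135)))) (l 22179477031)))))) (a (l 16770272) (a (l 16772648) (c (l 16774384) (l 16776528))))), by decide +kernel⟩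

def k19_pm_112_a : ∃ t, chk3 f_pm_112_a t 41 16 1 = true :=
  ⟨(b (l 3) (a (b (l 3) (a (b (a (b (l 3) (a (b (l 3) (a (b (a (l 20031993591) (l 49023023175)) (l 16775984)) (b (l 3) (a (l 18958251735) (l 51170506695))))) (l 3))) (l 3)) (a (b (a (c (l 21105735383) (c (l 18421380695) (b (l 18958251527) (l 16775160)))) (a (b (b (a (l 17884509879) (l 52781119223)) (c (l 16776080) (l 20568864407))) (l 16775768)) (a (b (b (l 3) (l 16810767959)) (l 16775896)) (b (l 3) (b (l 21105735335) (l 16775904)))))) (l 16774872)) (b (a (b (l 3) (a (b (l 50633635863) (a (l 16775960) (l 20031993495))) (a (b (l 3) (l 16775928)) (l 3)))) (l 3)) (a (a (l 16775584) (b (a (l 16775904) (b (l 18958251639) (l 16775904))) (l 16775600))) (a (b (b (l 139754206583) (a (l 16775944) (l 17884509783))) (l 16775808)) (b (l 145659786439) (b (a (l 21642606167) (l 16810767847)) (l 16775880)))))))) (b (l 3) (a (a (a (b (l 3) (b (l 3) (b (l 3) (a (l 20568864327) (l 16775896))))) (l 3)) (l 3)) (l 3))))) (l 3))),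 by decide +kernel⟩

def k20_pm_112_a : ∃ t, chk3 f_pm_112_a t 40 17 1 = true :=
  ⟨(b (a (a (l 16756288) (l 16770000)) (a (b (l 16765792) (l 16759728)) (b (a (l 16768240) (l 16775104)) (l 16762984)))) (a (b (l 16748928) (a (l 16741728) (b (l 16746160) (l 16743256)))) (b (l 16765768) (l 16749400)))), by decide +kernel⟩

def k21_pm_112_a : ∃ t, chk3 f_pm_112_a t 82 17 1 = true :=
  ⟨(b (b (b (a (a (l 16772896) (a (l 16774016) (l 16775680))) (a (a (b (a (l 20031993095) (b (b (a (l 20031993383) (l 16775872)) (l 16775880)) (l 16775656))) (l 16774744)) (b (b (a (b (l 3) (c (l 19495122759) (l 16273896919))) (l 3)) (a (c (l 16775952) (l 20031993207)) (b (l 17347639111) (c (l 16775992) (l 20031993319))))) (l 16775344))) (b (a (a (b (l 3) (b (l 3) (c (l 49023023079) (l 15200155223)))) (l 3)) (l 3)) (a (b (a (a (l 16775800) (b (l 20568864231) (l 16775808))) (b (l 49559893831) (a (l 16775856) (l 20031993287)))) (l 16775600)) (a (b (b (l 3) (l 51707377351)) (a (l 16775808) (b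 (l 18958251431) (l 16775816)))) (b (l 3) (b (l 54928602567) (a (l 16775848) (l 18421380487))))))))) (a (l 16773416) (a (l 16773144) (a (l 16774232) (b (l 16775408) (l 16774288)))))) (a (l 16771512) (a (l 16768736) (l 16774296)))) (b (a (l 16760144) (l 16768680)) (l 16766264))), by decide +kernel⟩

def k22_pm_112_a : ∃ t, chk3 f_pm_112_a t 83 17 1 = true :=
  ⟨(a (b (b (b (a (b (l 3) (l 185388232807)) (l 3)) (b (a (a (a (b (b (a (l 21105735063) (l 17347638551)) (l 16775792)) (l 16775544)) (b (a (b (l 3) (l 20031993223)) (l 53317989991)) (l 16775728))) (b (l 3) (a (b (a (l 19495122279) (l 16775768)) (l 16775792)) (b (l 3) (c (l 20031993479) (l 16273896679)))))) (l 3)) (a (a (l 16774936) (b (a (l 16775568) (b (l 21105734951) (l 16775672))) (l 16775240))) (a (a (b (b (l 17347638471) (c (l 16775904) (l 19495122215))) (l 16775592)) (b (b (l 3) (l 16810767383)) (b (a (l 16775768) (l 20031993127)) (l 16775680)))) (a (b (l 3) (b (l 17347638919) (a (l 16775768) (l 18958251319))))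 (l 144049173127)))))) (b (a (l 16776000) (b (b (b (a (l 16775392) (a (l 16775688) (a (l 16775760) (l 18958251239)))) (l 16775408)) (l 16775048)) (l 16774160))) (c (l 16771688) (l 16776136)))) (b (a (l 16765920) (l 16772824)) (l 16760680))) (a (b (b (l 3) (b (b (b (b (l 146196656631) (a (a (a (l 20031993079) (l 18421380231)) (l 3)) (l 3))) (b (a (a (l 16775704) (a (l 19495122151) (l 17347638279))) (l 3)) (a (l 16775632) (a (a (l 20031993079) (l 16775696)) (l 1))))) (a (l 16775112) (a (c (l 18421380439) (c (l 16775392) (l 14663283639))) (l 1)))) (l 21508386663))) (b (a (l 16774072) (l 18287156551)) (l 16763168))) (l 1))), by decide +kernel⟩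

def k23_pm_112_a : ∃ t, chk3 f_pm_112_a t 20 9 1 = true :=
  ⟨(b (a (b (a (l 16734984) (b (a (b (l 16743440) (l 16740776)) (b (l 16746584) (l 16743600))) (l 16738168))) (a (l 16724000) (l 16729776))) (b (a (b (l 16749808) (a (b (l 16743728) (l 16741072)) (b (l 16746904) (l 16743832)))) (b (l 26340202231) (l 16750128))) (a (b (a (l 16736824) (l 16739832)) (l 16732752)) (a (b (b (l 16743912) (l 16741240)) (l 16736976)) (l 1))))) (a (b (a (l 16713360) (l 16719008)) (a (l 16703264) (l 16708744))) (b (a (l 16724624) (l 16730184)) (a (l 16714216) (l 1))))), by decide +kernel⟩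

def k24_pm_112_a : ∃ t, chk3 f_pm_112_a t 21 4 1 = true :=
  ⟨(b (l 1) (l 1)), by decide +kernel⟩

def k25_pm_112_a : ∃ t, chk3 f_pm_112_a t 10 5 1 = true :=
  ⟨(a (a (b (b (b (l 16696072) (a (l 16683464) (l 16688664))) (b (a (l 16671320) (b (l 16679344) (l 16672848))) (l 16660208))) (b (l 16679384) (l 16618184))) (b (b (b (l 19897666279) (l 27950717975)) (b (l 1) (l 1))) (l 1))) (l 1)), by decide +kernel⟩

def k26_pm_112_a : ∃ t, chk3 f_pm_112_a t 11 2 1 = true :=
  ⟨(l 1), by decide +kernel⟩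

def k27_pm_112_a : ∃ t, chk3 f_pm_112_a t 2 3 1 = true :=
  ⟨(a (b (b (b (a (a (l 16515424) (l 16477000)) (a (a (l 16544776) (l 16549400)) (a (l 16554856) (l 16540048)))) (a (l 16479520) (a (l 16449688) (b (l 16514240) (l 16462192))))) (a (a (l 16404496) (l 16439848)) (a (l 55330596071) (l 78416025447)))) (b (a (b (a (l 16373632) (l 16382672)) (a (b (l 16359376) (l 16349896)) (l 46203681271))) (a (b (l 16344616) (l 1)) (l 1))) (a (a (a (b (l 16342072) (b (l 16331680) (a (c (l 40834856839) (l 16322232)) (l 176663188775)))) (b (l 16344240) (l 166462620119))) (b (b (l 180958241063) (l 1)) (l 1))) (l 1)))) (b (l 1) (l 1))), by decide +kernel⟩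

def k28_pm_112_a : ∃ t, chk3 f_pm_112_a t 3 1 1 = true :=
  ⟨(l 1), by decide +kernel⟩

theorem s29_pm_112_a : ∃ t, chk3 f_pm_112_a t 41 17 1 = true := ex3_a k21_pm_112_a k22_pm_112_a

theorem s30_pm_112_a : ∃ t, chk3 f_pm_112_a t 20 17 1 = true := ex3_a k20_pm_112_a s29_pm_112_a

theorem s31_pm_112_a : ∃ t, chk3 f_pm_112_a t 81 33 1 = true := ex3_b k17_pm_112_a k18_pm_112_a

theorem s32_pm_112_a : ∃ t, chk3 f_pm_112_a t 40 33 1 = true := ex3_a k16_pm_112_a s31_pm_112_a

theorem s33_pm_112_a : ∃ t, chk3 f_pm_112_a t 80 65 1 = true := ex3_a k13_pm_112_a k14_pm_112_a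

theorem s34_pm_112_a : ∃ t, chk3 f_pm_112_a t 80 32 1 = true := ex3_b k12_pm_112_a s33_pm_112_a

theorem s35_pm_112_a : ∃ t, chk3 f_pm_112_a t 40 32 1 = true := ex3_a s34_pm_112_a k15_pm_112_a

theorem s36_pm_112_a : ∃ t, chk3 f_pm_112_a t 40 16 1 = true := ex3_b s35_pm_112_a s32_pm_112_a

theorem s37_pm_112_a : ∃ t, chk3 f_pm_112_a t 20 16 1 = true := ex3_a s36_pm_112_a k19_pm_112_a

theorem s38_pm_112_a : ∃ t, chk3 f_pm_112_a t 20 8 1 = true := ex3_b s37_pm_112_a s30_pm_112_a

theorem s39_pm_112_a : ∃ t, chk3 f_pm_112_a t 20 4 1 = true := ex3_b s38_pm_112_a k23_pm_112_a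

theorem s40_pm_112_a : ∃ t, chk3 f_pm_112_a t 10 4 1 = true := ex3_a s39_pm_112_a k24_pm_112_a

theorem s41_pm_112_a : ∃ t, chk3 f_pm_112_a t 10 2 1 = true := ex3_b s40_pm_112_a k25_pm_112_a

theorem s42_pm_112_a : ∃ t, chk3 f_pm_112_a t 5 2 1 = true := ex3_a s41_pm_112_a k26_pm_112_a

theorem s43_pm_112_a : ∃ t, chk3 f_pm_112_a t 158 64 1 = true := ex3_a k4_pm_112_a k5_pm_112_a

theorem s44_pm_112_a : ∃ t, chk3 f_pm_112_a t 79 64 1 = true := ex3_a s43_pm_112_a k6_pm_112_a

theorem s45_pm_112_a : ∃ t, chk3 f_pm_112_a t 79 32 1 = true := ex3_b s44_pm_112_a k7_pm_112_a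

theorem s46_pm_112_a : ∃ t, chk3 f_pm_112_a t 39 32 1 = true := ex3_a k3_pm_112_a s45_pm_112_a

theorem s47_pm_112_a : ∃ t, chk3 f_pm_112_a t 39 16 1 = true := ex3_b s46_pm_112_a k8_pm_112_a

theorem s48_pm_112_a : ∃ t, chk3 f_pm_112_a t 19 16 1 = true := ex3_a k2_pm_112_a s47_pm_112_a

theorem s49_pm_112_a : ∃ t, chk3 f_pm_112_a t 19 8 1 = true := ex3_b s48_pm_112_a k9_pm_112_a

theorem s50_pm_112_a : ∃ t, chk3 f_pm_112_a t 9 8 1 = true := ex3_a k1_pm_112_a s49_pm_112_a

theorem s51_pm_112_a : ∃ t, chk3 f_pm_112_a t 9 4 1 = true := ex3_b s50_pm_112_a k10_pm_112_a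

theorem s52_pm_112_a : ∃ t, chk3 f_pm_112_a t 9 2 1 = true := ex3_b s51_pm_112_a k11_pm_112_a

theorem s53_pm_112_a : ∃ t, chk3 f_pm_112_a t 4 2 1 = true := ex3_a k0_pm_112_a s52_pm_112_a

theorem s54_pm_112_a : ∃ t, chk3 f_pm_112_a t 2 2 1 = true := ex3_a s53_pm_112_a s42_pm_112_a

theorem s55_pm_112_a : ∃ t, chk3 f_pm_112_a t 2 1 1 = true := ex3_b s54_pm_112_a k27_pm_112_a

theorem s56_pm_112_a : ∃ t, chk3 f_pm_112_a t 1 1 1 = true := ex3_a s55_pm_112_a k28_pm_112_a

theorem c_pm_112_a : CertB 536870912 536870912 0 536870912 649613803 48318383 3 eng mog cd0q1 cd1q2a pd1 false true false .dn 1 1 2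
    ndB0q1 ndB1q2a pcB1 Cut.none Ext.none :=
  certB0 (fam := false) (s1 := true) (s2 := false) (a := 1) (b := 1) (c := 2) (cn := .dn) (n1 := ndB0q1) (n2 := ndB1q2a) (pc := pcB1) (cut := Cut.none) (xt := Ext.none) (P1 := 536870912) (W1 := 536870912) (P2 := 0) (W2 := 536870912) (P3 := 649613803) (W3 := 48318383) (N0 := 3) (En := eng) (mo := mog) (C1 := cd0q1) (C2 := cd1q2a) (C3 := pd1)
    rfl s56_pm_112_a

noncomputable def f_pm_112_b : ℕ → ℕ → ℕ → ℕ → Bool := onCell 536870912 536870912 1239849684 370763052 649613803 48318383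
    (rowB 3 eng mog cd0q1 cd1q2b pd1 0 false true false .dn 1 1 2 (qsf 536870912 536870912 1239849684 370763052 1) ndB0q1 ndB1q2b pcB1 Cut.none Ext.none)

def k0_pm_112_b : ∃ t, chk3 f_pm_112_b t 4 2 1 = true :=
  ⟨(b (a (b (a (b (a (l 16692792) (l 16703936)) (l 16684360)) (b (a (l 16715264) (b (a (l 16725576) (l 16731216)) (l 16724344))) (l 16709360))) (a (l 16657520) (l 16686032))) (b (a (b (a (b (a (l 16737016) (b (l 16743440) (l 16742176))) (l 16746512)) (b (a (l 16748896) (b (l 16755440) (l 16753872))) (a (l 16744272) (l 16750024)))) (a (l 16727080) (b (l 16761952) (l 16734840)))) (b (a (b (a (b (b (l 16761720) (l 16761136)) (l 16759552)) (b (b (a (l 16766368) (l 16769448)) (l 16766976)) (l 16764936))) (a (l 16755312) (l 16760160))) (b (a (b (a (b (a (l 16771728) (l 16773184)) (l 16771048)) (b (a (a (l 16774216) (b (l 16775256) (l 16774408))) (b (b (b (a (l 16776200) (a (a (l 16776520) (b (a (l 16776640) (a (l 16776664) (l 16776664))) (l 16776544))) (l 139217337111)))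 (a (l 16775976) (a (l 16776328) (a (l 15737027271) (l 3))))) (a (l 16775632) (a (l 16775968) (l 19495123591)))) (l 16775160))) (l 16773312))) (a (l 16768560) (l 16770560))) (a (b (a (a (b (b (l 232632874967) (a (l 97878276551) (l 176798298759))) (l 16774248)) (b (l 3) (l 149417879895))) (l 3)) (a (l 16771664) (b (l 153712844007) (l 16771192)))) (b (l 3) (l 262160765687)))) (a (l 16764280) (a (l 16766576) (b (l 142975417959) (l 16765768)))))) (a (b (l 16751176) (l 16744312)) (b (a (l 16757288) (l 16760216)) (l 16752048))))) (a (b (a (l 16713376) (l 16725056)) (l 16704592)) (a (b (l 16775952) (l 16721656)) (b (l 16742032) (l 16729328)))))) (a (a (b (l 16615696) (l 16570728)) (b (l 16650024) (l 16609968))) (b (a (l 16681152) (a (l 16701120) (b (l 16717680) (l 16706184)))) (a (l 16648024) (l 16680376))))), by decide +kernel⟩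

def k1_pm_112_b : ∃ t, chk3 f_pm_112_b t 5 2 1 = true :=
  ⟨(b (a (a (b (a (b (b (l 3) (a (l 255181438855) (l 3))) (a (b (a (l 115058132695) (l 232095974023)) (l 16755424)) (b (l 3) (l 227800994887)))) (l 3)) (a (b (a (l 16746104) (l 105931322103)) (l 16735288)) (b (a (l 217063560199) (l 3)) (a (l 16737680) (l 193978135063))))) (l 3)) (l 3)) (a (a (a (b (b (l 16724384) (l 16714024)) (l 16720600)) (b (b (l 16728496) (l 16719600)) (b (l 16711440) (l 16703640)))) (b (a (b (l 191293786775) (l 89288321335)) (b (l 3) (l 207936700423))) (a (l 16733448) (b (l 103246951591) (l 16712152))))) (a (b (l 3) (a (b (l 3) (l 172503276231)) (l 3))) (l 3)))), by decide +kernel⟩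

def k2_pm_112_b : ∃ t, chk3 f_pm_112_b t 2 3 1 = true :=
  ⟨(a (b (a (b (a (l 16520864) (l 16568480)) (a (l 16470016) (l 16523496))) (b (a (l 16612936) (l 16653320)) (a (l 16618264) (l 16625536)))) (a (a (l 16394288) (l 16456360)) (b (a (l 16539192) (l 16680496)) (a (l 16501376) (l 16568768))))) (b (a (b (a (b (l 16690840) (l 16681072)) (a (b (l 16704216) (l 16699528)) (l 16707728))) (a (l 16667656) (a (l 16692408) (b (l 16704472) (l 16703160))))) (b (a (a (b (l 16709680) (l 16709608)) (l 161229044375)) (l 3)) (a (a (b (l 16710384) (l 16711576)) (b (l 16711448) (l 16715760))) (a (l 134385473175) (l 3))))) (a (a (b (l 16649928) (l 16632224)) (b (l 16692728) (l 16688120))) (b (a (a (l 16757168) (b (l 16721064) (l 16726856))) (a (b (l 16722648) (l 16732280)) (b (l 16718216) (l 16730520)))) (a (a (l 16721552) (l 16738280)) (a (b (l 16742880) (l 16754944)) (l 16753216))))))), by decide +kernel⟩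

def k3_pm_112_b : ∃ t, chk3 f_pm_112_b t 3 1 1 = true :=
  ⟨(b (l 3) (a (b (l 3) (a (a (b (a (b (l 3) (l 16722656)) (l 3)) (a (b (l 16739304) (l 16759680)) (b (l 3) (l 193441230471)))) (l 3)) (l 3))) (l 3))), by decide +kernel⟩

theorem s4_pm_112_b : ∃ t, chk3 f_pm_112_b t 2 2 1 = true := ex3_a k0_pm_112_b k1_pm_112_b

theorem s5_pm_112_b : ∃ t, chk3 f_pm_112_b t 2 1 1 = true := ex3_b s4_pm_112_b k2_pm_112_b

theorem s6_pm_112_b : ∃ t, chk3 f_pm_112_b t 1 1 1 = true := ex3_a s5_pm_112_b k3_pm_112_b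

theorem c_pm_112_b : CertB 536870912 536870912 1239849684 370763052 649613803 48318383 3 eng mog cd0q1 cd1q2b pd1 false true false .dn 1 1 2
    ndB0q1 ndB1q2b pcB1 Cut.none Ext.none :=
  certB0 (fam := false) (s1 := true) (s2 := false) (a := 1) (b := 1) (c := 2) (cn := .dn) (n1 := ndB0q1) (n2 := ndB1q2b) (pc := pcB1) (cut := Cut.none) (xt := Ext.none) (P1 := 536870912) (W1 := 536870912) (P2 := 1239849684) (W2 := 370763052) (P3 := 649613803) (W3 := 48318383) (N0 := 3) (En := eng) (mo := mog) (C1 := cd0q1) (C2 := cd1q2b) (C3 := pd1)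
    rfl s6_pm_112_b

noncomputable def cut_pm_113 : Cut := Cut.of [[⟨0, 1, 0, 67108864⟩, ⟨1, 1, 0, 67108864⟩, ⟨2, 2, 0, 16777216⟩]]

noncomputable def f_pm_113 : ℕ → ℕ → ℕ → ℕ → Bool := onCell 536870912 536870912 536870912 536870912 649613803 48318383
    (rowB 3 eng mog cd0q1 cd1q3 pd1 1 false true false .nn 1 1 3 (qsf 536870912 536870912 1610612736 536870912 1) ndB0q1 ndB1q3 pcB1 cut_pm_113 Ext.none)

def k0_pm_113 : ∃ t, chk3 f_pm_113 t 1 2 1 = true :=
  ⟨(a (b (l 1) (a (l 1) (b (l 1) (a (l 1) (b (l 1) (a (l 1) (l 16745160))))))) (b (l 3) (a (b (l 3) (a (b (a (l 181093202647) (l 3)) (a (l 16770672) (l 244444038439))) (l 3))) (l 3)))), by decide +kernel⟩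

def k1_pm_113 : ∃ t, chk3 f_pm_113 t 1 3 1 = true :=
  ⟨(a (b (a (b (l 1) (a (l 1) (b (l 1) (l 16543704)))) (b (a (l 39225021815) (b (a (l 16722584) (l 16762784)) (a (l 16727736) (l 16783040)))) (a (b (l 16648336) (l 16636528)) (a (l 16734584) (l 16806112))))) (a (a (b (l 16436792) (l 16362888)) (b (l 16502944) (l 16453240))) (a (b (b (l 16626936) (l 16619104)) (l 16592312)) (b (a (l 16706392) (l 16733176)) (b (l 16674040) (l 16646864)))))) (b (a (b (a (b (a (l 16807960) (l 159081684983)) (a (l 16849792) (l 16927632))) (a (b (l 264845359319) (l 164450358743)) (l 3))) (a (b (a (l 16870808) (l 16929872)) (a (l 16823520) (l 16874320))) (b (a (l 17005736) (l 154786671703)) (a (l 16934648) (l 16892512))))) (b (l 3) (a (b (l 3) (a (a (l 173577227143) (l 356650359847)) (l 3))) (l 3)))) (a (b (a (a (l 16765504) (l 16808072)) (b (a (l 16880288) (l 16931776)) (a (l 16835376) (l 16879168)))) (a (a (l 16787408) (l 16741120)) (a (l 16780008) (l 16815896)))) (b (a (a (b (a (l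 16961176) (l 164987340407)) (l 16910728)) (b (a (l 200957605479) (l 3)) (a (l 16921528) (l 180556521783)))) (a (b (l 3) (a (l 276656519431) (l 3))) (l 3))) (a (a (b (l 16860280) (l 16818216)) (b (b (l 16882896) (l 16858480)) (b (l 16834672) (l 16812712)))) (a (b (a (b (l 16882432) (l 16856440)) (b (l 348060296103) (l 147807351351))) (a (l 16821320) (l 16837592))) (a (b (b (l 3) (l 435570191527)) (b (b (l 244980924967) (l 138680508327)) (l 16799344))) (b (l 3) (b (a (l 443623178279) (l 3)) (b (a (a (l 16801040) (l 203641857191)) (a (l 469392979303) (l 3))) (a (l 16788400) (a (a (l 16786192) (l 6)) (l 6))))))))))))), by decide +kernel⟩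

theorem s2_pm_113 : ∃ t, chk3 f_pm_113 t 1 1 1 = true := ex3_b k0_pm_113 k1_pm_113

theorem c_pm_113 : CertB 536870912 536870912 1610612736 536870912 649613803 48318383 3 eng mog cd0q1 cd1q3 pd1 false true false .nn 1 1 3
    ndB0q1 ndB1q3 pcB1 cut_pm_113 Ext.none :=
  certB1 (fam := false) (s1 := true) (s2 := false) (a := 1) (b := 1) (c := 3) (cn := .nn) (n1 := ndB0q1) (n2 := ndB1q3) (pc := pcB1) (cut := cut_pm_113) (xt := Ext.none) (P1 := 536870912) (W1 := 536870912) (P2 := 1610612736) (W2 := 536870912) (P3 := 649613803) (W3 := 48318383) (N0 := 3) (En := eng) (mo := mog) (C1 := cd0q1) (C2 := cd1q3) (C3 := pd1)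
    rfl (fun _ => rfl) s2_pm_113

noncomputable def cut_pm_123 : Cut := Cut.of [[⟨0, 1, 0, 67108864⟩, ⟨1, 1, 0, 67108864⟩, ⟨2, 2, 0, 16777216⟩]]

noncomputable def f_pm_123 : ℕ → ℕ → ℕ → ℕ → Bool := onCell 536870912 536870912 1073741824 536870912 649613803 48318383
    (rowB 3 eng mog cd0q1 cd1q3 pd2 1 false true false .npn 1 2 3 (qsf 536870912 536870912 1610612736 536870912 2) ndB0q1 ndB1q3 pcB2 cut_pm_123 Ext.none)

def k0_pm_123 : ∃ t, chk3 f_pm_123 t 1 1 1 = true :=
  ⟨(a (b (a (b (a (b (l 16315472) (l 16280656)) (b (l 16421056) (l 16395736))) (b (a (l 16260800) (l 16376824)) (a (l 16347672) (l 16439992)))) (b (a (b (l 16533432) (l 16465624)) (b (a (l 16620912) (l 16787896)) (l 16725600))) (b (a (b (l 16458200) (l 16451096)) (b (l 16506504) (l 16498856))) (a (l 16504216) (l 16549008))))) (a (b (b (l 16510784) (a (l 16538312) (l 16597208))) (b (l 16641456) (l 16696096))) (b (a (b (l 16577416) (l 16644400)) (b (l 16617608) (l 16675952))) (a (b (l 16701560) (l 2))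 (l 2))))) (b (a (b (a (b (a (l 16705968) (l 16737128)) (a (l 16568088) (l 16595864))) (b (a (l 16690904) (l 16725264)) (l 16690752))) (b (a (b (b (l 16557512) (a (l 16535136) (l 16565008))) (l 16612200)) (b (b (l 16626464) (a (l 16603536) (l 16643728))) (l 16617592))) (a (l 16595312) (l 16743836855)))) (b (b (a (a (l 16748496) (b (l 16775616) (l 16743328))) (a (b (l 16775744) (l 16746752)) (b (a (l 16776944) (b (a (l 16774928) (b (l 6) (l 703401581095))) (l 698032903063))) (l 693738028759)))) (a (a (l 16690504) (l 16696688)) (a (l 477915918583) (l 2)))) (a (b (b (b (l 16651616) (l 2)) (l 2)) (l 2)) (l 2)))) (a (b (a (b (l 16653536) (l 2)) (l 2)) (l 2)) (l 2)))), by decide +kernel⟩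

theorem c_pm_123 : CertB 536870912 536870912 1610612736 536870912 649613803 48318383 3 eng mog cd0q1 cd1q3 pd2 false true false .npn 1 2 3
    ndB0q1 ndB1q3 pcB2 cut_pm_123 Ext.none :=
  certB1 (fam := false) (s1 := true) (s2 := false) (a := 1) (b := 2) (c := 3) (cn := .npn) (n1 := ndB0q1) (n2 := ndB1q3) (pc := pcB2) (cut := cut_pm_123) (xt := Ext.none) (P1 := 536870912) (W1 := 536870912) (P2 := 1610612736) (W2 := 536870912) (P3 := 649613803) (W3 := 48318383) (N0 := 3) (En := eng) (mo := mog) (C1 := cd0q1) (C2 := cd1q3) (C3 := pd2)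
    rfl (fun _ => rfl) k0_pm_123

noncomputable def f_pm_133 : ℕ → ℕ → ℕ → ℕ → Bool := onCell 536870912 536870912 1610612736 536870912 649613803 48318383
    (rowB 3 eng mog cd0q1 cd1q3 pd3 0 false true false .dn 1 3 3 (qsf 536870912 536870912 1610612736 536870912 3) ndB0q1 ndB1q3 pcB3 Cut.none Ext.none)

def k0_pm_133 : ∃ t, chk3 f_pm_133 t 1 1 1 = true :=
  ⟨(a (a (b (l 1) (b (l 1) (a (l 16680744) (l 1)))) (l 1)) (l 1)), by decide +kernel⟩

theorem c_pm_133 : CertB 536870912 536870912 1610612736 536870912 649613803 48318383 3 eng mog cd0q1 cd1q3 pd3 false true false .dn 1 3 3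
    ndB0q1 ndB1q3 pcB3 Cut.none Ext.none :=
  certB0 (fam := false) (s1 := true) (s2 := false) (a := 1) (b := 3) (c := 3) (cn := .dn) (n1 := ndB0q1) (n2 := ndB1q3) (pc := pcB3) (cut := Cut.none) (xt := Ext.none) (P1 := 536870912) (W1 := 536870912) (P2 := 1610612736) (W2 := 536870912) (P3 := 649613803) (W3 := 48318383) (N0 := 3) (En := eng) (mo := mog) (C1 := cd0q1) (C2 := cd1q3) (C3 := pd3)
    rfl k0_pm_133

noncomputable def cut_pm_202_a : Cut := Cut.of [[⟨0, 1, 0, 67108864⟩, ⟨1, 0, 0, 67108864⟩, ⟨2, 1, 0, 67108864⟩]]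

noncomputable def f_pm_202_a : ℕ → ℕ → ℕ → ℕ → Bool := onCell 0 536870912 0 536870912 649613803 48318383
    (rowB 3 eng mog cd0q2 cd1q2a pd0 0 false true false .pp 2 0 2 (qsf 0 536870912 0 536870912 0) ndB0q2 ndB1q2a pcB0 cut_pm_202_a Ext.none)

def k0_pm_202_a : ∃ t, chk3 f_pm_202_a t 1 1 1 = true :=
  ⟨(a (l 3) (b (l 3) (a (l 3) (b (l 3) (a (l 3) (b (l 3) (l 6))))))), by decide +kernel⟩

theorem c_pm_202_a : CertB 0 536870912 0 536870912 649613803 48318383 3 eng mog cd0q2 cd1q2a pd0 false true false .pp 2 0 2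
    ndB0q2 ndB1q2a pcB0 cut_pm_202_a Ext.none :=
  certB0 (fam := false) (s1 := true) (s2 := false) (a := 2) (b := 0) (c := 2) (cn := .pp) (n1 := ndB0q2) (n2 := ndB1q2a) (pc := pcB0) (cut := cut_pm_202_a) (xt := Ext.none) (P1 := 0) (W1 := 536870912) (P2 := 0) (W2 := 536870912) (P3 := 649613803) (W3 := 48318383) (N0 := 3) (En := eng) (mo := mog) (C1 := cd0q2) (C2 := cd1q2a) (C3 := pd0)
    rfl k0_pm_202_a

noncomputable def cut_pm_202_b : Cut := Cut.of [[⟨0, 1, 0, 67108864⟩, ⟨1, 0, 0, 67108864⟩, ⟨2, 1, 0, 67108864⟩]]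

noncomputable def f_pm_202_b : ℕ → ℕ → ℕ → ℕ → Bool := onCell 0 536870912 1239849684 370763052 649613803 48318383
    (rowB 3 eng mog cd0q2 cd1q2b pd0 0 false true false .pp 2 0 2 (qsf 0 536870912 1239849684 370763052 0) ndB0q2 ndB1q2b pcB0 cut_pm_202_b Ext.none)

def k0_pm_202_b : ∃ t, chk3 f_pm_202_b t 1 1 1 = true :=
  ⟨(l 3), by decide +kernel⟩

theorem c_pm_202_b : CertB 0 536870912 1239849684 370763052 649613803 48318383 3 eng mog cd0q2 cd1q2b pd0 false true false .pp 2 0 2
    ndB0q2 ndB1q2b pcB0 cut_pm_202_b Ext.none :=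
  certB0 (fam := false) (s1 := true) (s2 := false) (a := 2) (b := 0) (c := 2) (cn := .pp) (n1 := ndB0q2) (n2 := ndB1q2b) (pc := pcB0) (cut := cut_pm_202_b) (xt := Ext.none) (P1 := 0) (W1 := 536870912) (P2 := 1239849684) (W2 := 370763052) (P3 := 649613803) (W3 := 48318383) (N0 := 3) (En := eng) (mo := mog) (C1 := cd0q2) (C2 := cd1q2b) (C3 := pd0)
    rfl k0_pm_202_b

noncomputable def f_pm_203 : ℕ → ℕ → ℕ → ℕ → Bool := onCell 0 536870912 0 536870912 649613803 48318383
    (rowB 3 eng mog cd0q2 cd1q3 pd0 1 false true false .up 2 0 3 (qsf 0 536870912 1610612736 536870912 0) ndB0q2 ndB1q3 pcB0 Cut.none Ext.none)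

def k0_pm_203 : ∃ t, chk3 f_pm_203 t 1 1 1 = true :=
  ⟨(l 3), by decide +kernel⟩

theorem c_pm_203 : CertB 0 536870912 1610612736 536870912 649613803 48318383 3 eng mog cd0q2 cd1q3 pd0 false true false .up 2 0 3
    ndB0q2 ndB1q3 pcB0 Cut.none Ext.none :=
  certB1 (fam := false) (s1 := true) (s2 := false) (a := 2) (b := 0) (c := 3) (cn := .up) (n1 := ndB0q2) (n2 := ndB1q3) (pc := pcB0) (cut := Cut.none) (xt := Ext.none) (P1 := 0) (W1 := 536870912) (P2 := 1610612736) (W2 := 536870912) (P3 := 649613803) (W3 := 48318383) (N0 := 3) (En := eng) (mo := mog) (C1 := cd0q2) (C2 := cd1q3) (C3 := pd0)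
    rfl (fun _ => rfl) k0_pm_203

noncomputable def cut_pm_213 : Cut := Cut.of [[⟨0, 1, 0, 67108864⟩, ⟨1, 1, 0, 67108864⟩, ⟨2, 2, 0, 16777216⟩]]

noncomputable def f_pm_213 : ℕ → ℕ → ℕ → ℕ → Bool := onCell 0 536870912 1610612736 536870912 649613803 48318383
    (rowB 3 eng mog cd0q2 cd1q3 pd1 0 false true false .pnn 2 1 3 (qsf 0 536870912 1610612736 536870912 1) ndB0q2 ndB1q3 pcB1 cut_pm_213 Ext.none)

def k0_pm_213 : ∃ t, chk3 f_pm_213 t 1 1 1 = true :=
  ⟨(b (l 3) (a (l 3) (b (l 3) (a (l 3) (b (l 3) (b (l 3) (a (l 3) (b (l 3) (b (l 3) (l 6)))))))))), by decide +kernel⟩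

theorem c_pm_213 : CertB 0 536870912 1610612736 536870912 649613803 48318383 3 eng mog cd0q2 cd1q3 pd1 false true false .pnn 2 1 3
    ndB0q2 ndB1q3 pcB1 cut_pm_213 Ext.none :=
  certB0 (fam := false) (s1 := true) (s2 := false) (a := 2) (b := 1) (c := 3) (cn := .pnn) (n1 := ndB0q2) (n2 := ndB1q3) (pc := pcB1) (cut := cut_pm_213) (xt := Ext.none) (P1 := 0) (W1 := 536870912) (P2 := 1610612736) (W2 := 536870912) (P3 := 649613803) (W3 := 48318383) (N0 := 3) (En := eng) (mo := mog) (C1 := cd0q2) (C2 := cd1q3) (C3 := pd1)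
    rfl k0_pm_213

noncomputable def f_mm_001 : ℕ → ℕ → ℕ → ℕ → Bool := onCell 0 536870912 0 536870912 649613803 48318383
    (rowB 3 eng mog cd0q0 cd1q1 pd0 1 false false false .up 0 0 1 (qsf 0 536870912 536870912 536870912 0) ndB0q0 ndB1q1 pcB0 Cut.none Ext.none)

def k0_mm_001 : ∃ t, chk3 f_mm_001 t 1 1 1 = true :=
  ⟨(l 3), by decide +kernel⟩

theorem c_mm_001 : CertB 0 536870912 536870912 536870912 649613803 48318383 3 eng mog cd0q0 cd1q1 pd0 false false false .up 0 0 1
    ndB0q0 ndB1q1 pcB0 Cut.none Ext.none :=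
  certB1 (fam := false) (s1 := false) (s2 := false) (a := 0) (b := 0) (c := 1) (cn := .up) (n1 := ndB0q0) (n2 := ndB1q1) (pc := pcB0) (cut := Cut.none) (xt := Ext.none) (P1 := 0) (W1 := 536870912) (P2 := 536870912) (W2 := 536870912) (P3 := 649613803) (W3 := 48318383) (N0 := 3) (En := eng) (mo := mog) (C1 := cd0q0) (C2 := cd1q1) (C3 := pd0)
    rfl (fun _ => rfl) k0_mm_001

noncomputable def f_mm_011 : ℕ → ℕ → ℕ → ℕ → Bool := onCell 0 536870912 536870912 536870912 649613803 48318383
    (rowB 3 eng mog cd0q0 cd1q1 pd1 1 false false false .pnn 0 1 1 (qsf 0 536870912 536870912 536870912 1) ndB0q0 ndB1q1 pcB1 Cut.none Ext.none)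

def k0_mm_011 : ∃ t, chk3 f_mm_011 t 1 1 1 = true :=
  ⟨(l 5), by decide +kernel⟩

theorem c_mm_011 : CertB 0 536870912 536870912 536870912 649613803 48318383 3 eng mog cd0q0 cd1q1 pd1 false false false .pnn 0 1 1
    ndB0q0 ndB1q1 pcB1 Cut.none Ext.none :=
  certB1 (fam := false) (s1 := false) (s2 := false) (a := 0) (b := 1) (c := 1) (cn := .pnn) (n1 := ndB0q0) (n2 := ndB1q1) (pc := pcB1) (cut := Cut.none) (xt := Ext.none) (P1 := 0) (W1 := 536870912) (P2 := 536870912) (W2 := 536870912) (P3 := 649613803) (W3 := 48318383) (N0 := 3) (En := eng) (mo := mog) (C1 := cd0q0) (C2 := cd1q1) (C3 := pd1)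
    rfl (fun _ => rfl) k0_mm_011

noncomputable def f_mm_012_a : ℕ → ℕ → ℕ → ℕ → Bool := onCell 0 536870912 0 536870912 649613803 48318383
    (rowB 3 eng mog cd0q0 cd1q2a pd1 0 false false false .pnp 0 1 2 (qsf 0 536870912 0 536870912 1) ndB0q0 ndB1q2a pcB1 Cut.none Ext.none)

def k0_mm_012_a : ∃ t, chk3 f_mm_012_a t 1 1 1 = true :=
  ⟨(l 5), by decide +kernel⟩

theorem c_mm_012_a : CertB 0 536870912 0 536870912 649613803 48318383 3 eng mog cd0q0 cd1q2a pd1 false false false .pnp 0 1 2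
    ndB0q0 ndB1q2a pcB1 Cut.none Ext.none :=
  certB0 (fam := false) (s1 := false) (s2 := false) (a := 0) (b := 1) (c := 2) (cn := .pnp) (n1 := ndB0q0) (n2 := ndB1q2a) (pc := pcB1) (cut := Cut.none) (xt := Ext.none) (P1 := 0) (W1 := 536870912) (P2 := 0) (W2 := 536870912) (P3 := 649613803) (W3 := 48318383) (N0 := 3) (En := eng) (mo := mog) (C1 := cd0q0) (C2 := cd1q2a) (C3 := pd1)
    rfl k0_mm_012_a

noncomputable def f_mm_012_b : ℕ → ℕ → ℕ → ℕ → Bool := onCell 0 536870912 1239849684 370763052 649613803 48318383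
    (rowB 3 eng mog cd0q0 cd1q2b pd1 0 false false false .pnp 0 1 2 (qsf 0 536870912 1239849684 370763052 1) ndB0q0 ndB1q2b pcB1 Cut.none Ext.none)

def k0_mm_012_b : ∃ t, chk3 f_mm_012_b t 1 1 1 = true :=
  ⟨(l 5), by decide +kernel⟩

theorem c_mm_012_b : CertB 0 536870912 1239849684 370763052 649613803 48318383 3 eng mog cd0q0 cd1q2b pd1 false false false .pnp 0 1 2
    ndB0q0 ndB1q2b pcB1 Cut.none Ext.none :=
  certB0 (fam := false) (s1 := false) (s2 := false) (a := 0) (b := 1) (c := 2) (cn := .pnp) (n1 := ndB0q0) (n2 := ndB1q2b) (pc := pcB1) (cut := Cut.none) (xt := Ext.none) (P1 := 0) (W1 := 536870912) (P2 := 1239849684) (W2 := 370763052) (P3 := 649613803) (W3 := 48318383) (N0 := 3) (En := eng) (mo := mog) (C1 := cd0q0) (C2 := cd1q2b) (C3 := pd1)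
    rfl k0_mm_012_b

noncomputable def f_mm_022_a : ℕ → ℕ → ℕ → ℕ → Bool := onCell 0 536870912 0 536870912 649613803 48318383
    (rowB 3 eng mog cd0q0 cd1q2a pd2 0 false false false .pp 0 2 2 (qsf 0 536870912 0 536870912 2) ndB0q0 ndB1q2a pcB2 Cut.none Ext.none)

def k0_mm_022_a : ∃ t, chk3 f_mm_022_a t 1 1 1 = true :=
  ⟨(l 5), by decide +kernel⟩

theorem c_mm_022_a : CertB 0 536870912 0 536870912 649613803 48318383 3 eng mog cd0q0 cd1q2a pd2 false false false .pp 0 2 2
    ndB0q0 ndB1q2a pcB2 Cut.none Ext.none :=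
  certB0 (fam := false) (s1 := false) (s2 := false) (a := 0) (b := 2) (c := 2) (cn := .pp) (n1 := ndB0q0) (n2 := ndB1q2a) (pc := pcB2) (cut := Cut.none) (xt := Ext.none) (P1 := 0) (W1 := 536870912) (P2 := 0) (W2 := 536870912) (P3 := 649613803) (W3 := 48318383) (N0 := 3) (En := eng) (mo := mog) (C1 := cd0q0) (C2 := cd1q2a) (C3 := pd2)
    rfl k0_mm_022_a

noncomputable def f_mm_022_b : ℕ → ℕ → ℕ → ℕ → Bool := onCell 0 536870912 1239849684 370763052 649613803 48318383
    (rowB 3 eng mog cd0q0 cd1q2b pd2 0 false false false .pp 0 2 2 (qsf 0 536870912 1239849684 370763052 2) ndB0q0 ndB1q2b pcB2 Cut.none Ext.none)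

def k0_mm_022_b : ∃ t, chk3 f_mm_022_b t 1 1 1 = true :=
  ⟨(l 5), by decide +kernel⟩

theorem c_mm_022_b : CertB 0 536870912 1239849684 370763052 649613803 48318383 3 eng mog cd0q0 cd1q2b pd2 false false false .pp 0 2 2
    ndB0q0 ndB1q2b pcB2 Cut.none Ext.none :=
  certB0 (fam := false) (s1 := false) (s2 := false) (a := 0) (b := 2) (c := 2) (cn := .pp) (n1 := ndB0q0) (n2 := ndB1q2b) (pc := pcB2) (cut := Cut.none) (xt := Ext.none) (P1 := 0) (W1 := 536870912) (P2 := 1239849684) (W2 := 370763052) (P3 := 649613803) (W3 := 48318383) (N0 := 3) (En := eng) (mo := mog) (C1 := cd0q0) (C2 := cd1q2b) (C3 := pd2)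
    rfl k0_mm_022_b

noncomputable def f_mm_023 : ℕ → ℕ → ℕ → ℕ → Bool := onCell 0 536870912 1610612736 536870912 649613803 48318383
    (rowB 3 eng mog cd0q0 cd1q3 pd2 0 false false false .up 0 2 3 (qsf 0 536870912 1610612736 536870912 2) ndB0q0 ndB1q3 pcB2 Cut.none Ext.none)

def k0_mm_023 : ∃ t, chk3 f_mm_023 t 1 1 1 = true :=
  ⟨(l 5), by decide +kernel⟩

theorem c_mm_023 : CertB 0 536870912 1610612736 536870912 649613803 48318383 3 eng mog cd0q0 cd1q3 pd2 false false false .up 0 2 3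
    ndB0q0 ndB1q3 pcB2 Cut.none Ext.none :=
  certB0 (fam := false) (s1 := false) (s2 := false) (a := 0) (b := 2) (c := 3) (cn := .up) (n1 := ndB0q0) (n2 := ndB1q3) (pc := pcB2) (cut := Cut.none) (xt := Ext.none) (P1 := 0) (W1 := 536870912) (P2 := 1610612736) (W2 := 536870912) (P3 := 649613803) (W3 := 48318383) (N0 := 3) (En := eng) (mo := mog) (C1 := cd0q0) (C2 := cd1q3) (C3 := pd2)
    rfl k0_mm_023

noncomputable def f_mm_033 : ℕ → ℕ → ℕ → ℕ → Bool := onCell 0 536870912 1610612736 536870912 649613803 48318383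
    (rowB 3 eng mog cd0q0 cd1q3 pd3 0 false false false .pnn 0 3 3 (qsf 0 536870912 1610612736 536870912 3) ndB0q0 ndB1q3 pcB3 Cut.none Ext.none)

def k0_mm_033 : ∃ t, chk3 f_mm_033 t 1 1 1 = true :=
  ⟨(l 5), by decide +kernel⟩

theorem c_mm_033 : CertB 0 536870912 1610612736 536870912 649613803 48318383 3 eng mog cd0q0 cd1q3 pd3 false false false .pnn 0 3 3
    ndB0q0 ndB1q3 pcB3 Cut.none Ext.none :=
  certB0 (fam := false) (s1 := false) (s2 := false) (a := 0) (b := 3) (c := 3) (cn := .pnn) (n1 := ndB0q0) (n2 := ndB1q3) (pc := pcB3) (cut := Cut.none) (xt := Ext.none) (P1 := 0) (W1 := 536870912) (P2 := 1610612736) (W2 := 536870912) (P3 := 649613803) (W3 := 48318383) (N0 := 3) (En := eng) (mo := mog) (C1 := cd0q0) (C2 := cd1q3) (C3 := pd3)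
    rfl k0_mm_033

noncomputable def f_mm_101 : ℕ → ℕ → ℕ → ℕ → Bool := onCell 536870912 536870912 536870912 536870912 649613803 48318383
    (rowB 3 eng mog cd0q1 cd1q1 pd0 0 false false false .npn 1 0 1 (qsf 536870912 536870912 536870912 536870912 0) ndB0q1 ndB1q1 pcB0 Cut.none Ext.none)

def k0_mm_101 : ∃ t, chk3 f_mm_101 t 1 1 1 = true :=
  ⟨(l 3), by decide +kernel⟩

theorem c_mm_101 : CertB 536870912 536870912 536870912 536870912 649613803 48318383 3 eng mog cd0q1 cd1q1 pd0 false false false .npn 1 0 1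
    ndB0q1 ndB1q1 pcB0 Cut.none Ext.none :=
  certB0 (fam := false) (s1 := false) (s2 := false) (a := 1) (b := 0) (c := 1) (cn := .npn) (n1 := ndB0q1) (n2 := ndB1q1) (pc := pcB0) (cut := Cut.none) (xt := Ext.none) (P1 := 536870912) (W1 := 536870912) (P2 := 536870912) (W2 := 536870912) (P3 := 649613803) (W3 := 48318383) (N0 := 3) (En := eng) (mo := mog) (C1 := cd0q1) (C2 := cd1q1) (C3 := pd0)
    rfl k0_mm_101

noncomputable def f_mm_102_a : ℕ → ℕ → ℕ → ℕ → Bool := onCell 536870912 536870912 0 536870912 649613803 48318383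
    (rowB 3 eng mog cd0q1 cd1q2a pd0 0 false false false .npp 1 0 2 (qsf 536870912 536870912 0 536870912 0) ndB0q1 ndB1q2a pcB0 Cut.none Ext.none)

def k0_mm_102_a : ∃ t, chk3 f_mm_102_a t 1 1 1 = true :=
  ⟨(a (l 5) (l 3)), by decide +kernel⟩

theorem c_mm_102_a : CertB 536870912 536870912 0 536870912 649613803 48318383 3 eng mog cd0q1 cd1q2a pd0 false false false .npp 1 0 2
    ndB0q1 ndB1q2a pcB0 Cut.none Ext.none :=
  certB0 (fam := false) (s1 := false) (s2 := false) (a := 1) (b := 0) (c := 2) (cn := .npp) (n1 := ndB0q1) (n2 := ndB1q2a) (pc := pcB0) (cut := Cut.none) (xt := Ext.none) (P1 := 536870912) (W1 := 536870912) (P2 := 0) (W2 := 536870912) (P3 := 649613803) (W3 := 48318383) (N0 := 3) (En := eng) (mo := mog) (C1 := cd0q1) (C2 := cd1q2a) (C3 := pd0)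
    rfl k0_mm_102_a

noncomputable def f_mm_102_b : ℕ → ℕ → ℕ → ℕ → Bool := onCell 536870912 536870912 1239849684 370763052 649613803 48318383
    (rowB 3 eng mog cd0q1 cd1q2b pd0 0 false false false .npp 1 0 2 (qsf 536870912 536870912 1239849684 370763052 0) ndB0q1 ndB1q2b pcB0 Cut.none Ext.none)

def k0_mm_102_b : ∃ t, chk3 f_mm_102_b t 1 1 1 = true :=
  ⟨(l 5), by decide +kernel⟩

theorem c_mm_102_b : CertB 536870912 536870912 1239849684 370763052 649613803 48318383 3 eng mog cd0q1 cd1q2b pd0 false false false .npp 1 0 2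
    ndB0q1 ndB1q2b pcB0 Cut.none Ext.none :=
  certB0 (fam := false) (s1 := false) (s2 := false) (a := 1) (b := 0) (c := 2) (cn := .npp) (n1 := ndB0q1) (n2 := ndB1q2b) (pc := pcB0) (cut := Cut.none) (xt := Ext.none) (P1 := 536870912) (W1 := 536870912) (P2 := 1239849684) (W2 := 370763052) (P3 := 649613803) (W3 := 48318383) (N0 := 3) (En := eng) (mo := mog) (C1 := cd0q1) (C2 := cd1q2b) (C3 := pd0)
    rfl k0_mm_102_b

noncomputable def f_mm_112_a : ℕ → ℕ → ℕ → ℕ → Bool := onCell 536870912 536870912 0 536870912 649613803 48318383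
    (rowB 3 eng mog cd0q1 cd1q2a pd1 2 false false false .dn 1 1 2 (qsf 536870912 536870912 0 536870912 1) ndB0q1 ndB1q2a pcB1 Cut.none Ext.none)

def k0_mm_112_a : ∃ t, chk3 f_mm_112_a t 1 1 1 = true :=
  ⟨(l 5), by decide +kernel⟩

theorem c_mm_112_a : CertB 536870912 536870912 0 536870912 649613803 48318383 3 eng mog cd0q1 cd1q2a pd1 false false false .dn 1 1 2
    ndB0q1 ndB1q2a pcB1 Cut.none Ext.none :=
  certB2 (fam := false) (s1 := false) (s2 := false) (a := 1) (b := 1) (c := 2) (cn := .dn) (n1 := ndB0q1) (n2 := ndB1q2a) (pc := pcB1) (cut := Cut.none) (xt := Ext.none) (P1 := 536870912) (W1 := 536870912) (P2 := 0) (W2 := 536870912) (P3 := 649613803) (W3 := 48318383) (N0 := 3) (En := eng) (mo := mog) (C1 := cd0q1) (C2 := cd1q2a) (C3 := pd1)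
    rfl (fun _ => rfl) k0_mm_112_a

noncomputable def f_mm_112_b : ℕ → ℕ → ℕ → ℕ → Bool := onCell 536870912 536870912 1239849684 370763052 649613803 48318383
    (rowB 3 eng mog cd0q1 cd1q2b pd1 0 false false false .dn 1 1 2 (qsf 536870912 536870912 1239849684 370763052 1) ndB0q1 ndB1q2b pcB1 Cut.none Ext.none)

def k0_mm_112_b : ∃ t, chk3 f_mm_112_b t 1 1 1 = true :=
  ⟨(l 5), by decide +kernel⟩

theorem c_mm_112_b : CertB 536870912 536870912 1239849684 370763052 649613803 48318383 3 eng mog cd0q1 cd1q2b pd1 false false false .dn 1 1 2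
    ndB0q1 ndB1q2b pcB1 Cut.none Ext.none :=
  certB0 (fam := false) (s1 := false) (s2 := false) (a := 1) (b := 1) (c := 2) (cn := .dn) (n1 := ndB0q1) (n2 := ndB1q2b) (pc := pcB1) (cut := Cut.none) (xt := Ext.none) (P1 := 536870912) (W1 := 536870912) (P2 := 1239849684) (W2 := 370763052) (P3 := 649613803) (W3 := 48318383) (N0 := 3) (En := eng) (mo := mog) (C1 := cd0q1) (C2 := cd1q2b) (C3 := pd1)
    rfl k0_mm_112_b

noncomputable def f_mm_113 : ℕ → ℕ → ℕ → ℕ → Bool := onCell 536870912 536870912 1610612736 536870912 649613803 48318383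
    (rowB 3 eng mog cd0q1 cd1q3 pd1 0 false false false .nn 1 1 3 (qsf 536870912 536870912 1610612736 536870912 1) ndB0q1 ndB1q3 pcB1 Cut.none Ext.none)

def k0_mm_113 : ∃ t, chk3 f_mm_113 t 1 1 1 = true :=
  ⟨(l 5), by decide +kernel⟩

theorem c_mm_113 : CertB 536870912 536870912 1610612736 536870912 649613803 48318383 3 eng mog cd0q1 cd1q3 pd1 false false false .nn 1 1 3
    ndB0q1 ndB1q3 pcB1 Cut.none Ext.none :=
  certB0 (fam := false) (s1 := false) (s2 := false) (a := 1) (b := 1) (c := 3) (cn := .nn) (n1 := ndB0q1) (n2 := ndB1q3) (pc := pcB1) (cut := Cut.none) (xt := Ext.none) (P1 := 536870912) (W1 := 536870912) (P2 := 1610612736) (W2 := 536870912) (P3 := 649613803) (W3 := 48318383) (N0 := 3) (En := eng) (mo := mog) (C1 := cd0q1) (C2 := cd1q3) (C3 := pd1)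
    rfl k0_mm_113

noncomputable def f_mm_123 : ℕ → ℕ → ℕ → ℕ → Bool := onCell 536870912 536870912 1610612736 536870912 649613803 48318383
    (rowB 3 eng mog cd0q1 cd1q3 pd2 0 false false false .npn 1 2 3 (qsf 536870912 536870912 1610612736 536870912 2) ndB0q1 ndB1q3 pcB2 Cut.none Ext.none)

def k0_mm_123 : ∃ t, chk3 f_mm_123 t 1 1 1 = true :=
  ⟨(l 5), by decide +kernel⟩

theorem c_mm_123 : CertB 536870912 536870912 1610612736 536870912 649613803 48318383 3 eng mog cd0q1 cd1q3 pd2 false false false .npn 1 2 3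
    ndB0q1 ndB1q3 pcB2 Cut.none Ext.none :=
  certB0 (fam := false) (s1 := false) (s2 := false) (a := 1) (b := 2) (c := 3) (cn := .npn) (n1 := ndB0q1) (n2 := ndB1q3) (pc := pcB2) (cut := Cut.none) (xt := Ext.none) (P1 := 536870912) (W1 := 536870912) (P2 := 1610612736) (W2 := 536870912) (P3 := 649613803) (W3 := 48318383) (N0 := 3) (En := eng) (mo := mog) (C1 := cd0q1) (C2 := cd1q3) (C3 := pd2)
    rfl k0_mm_123

noncomputable def f_mm_133 : ℕ → ℕ → ℕ → ℕ → Bool := onCell 536870912 536870912 1610612736 536870912 649613803 48318383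
    (rowB 3 eng mog cd0q1 cd1q3 pd3 0 false false false .dn 1 3 3 (qsf 536870912 536870912 1610612736 536870912 3) ndB0q1 ndB1q3 pcB3 Cut.none Ext.none)

def k0_mm_133 : ∃ t, chk3 f_mm_133 t 1 1 1 = true :=
  ⟨(l 5), by decide +kernel⟩

theorem c_mm_133 : CertB 536870912 536870912 1610612736 536870912 649613803 48318383 3 eng mog cd0q1 cd1q3 pd3 false false false .dn 1 3 3
    ndB0q1 ndB1q3 pcB3 Cut.none Ext.none :=
  certB0 (fam := false) (s1 := false) (s2 := false) (a := 1) (b := 3) (c := 3) (cn := .dn) (n1 := ndB0q1) (n2 := ndB1q3) (pc := pcB3) (cut := Cut.none) (xt := Ext.none) (P1 := 536870912) (W1 := 536870912) (P2 := 1610612736) (W2 := 536870912) (P3 := 649613803) (W3 := 48318383) (N0 := 3) (En := eng) (mo := mog) (C1 := cd0q1) (C2 := cd1q3) (C3 := pd3)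
    rfl k0_mm_133

noncomputable def f_mm_202_a : ℕ → ℕ → ℕ → ℕ → Bool := onCell 0 536870912 0 536870912 649613803 48318383
    (rowB 3 eng mog cd0q2 cd1q2a pd0 0 false false false .pp 2 0 2 (qsf 0 536870912 0 536870912 0) ndB0q2 ndB1q2a pcB0 Cut.none Ext.none)

def k0_mm_202_a : ∃ t, chk3 f_mm_202_a t 1 1 1 = true :=
  ⟨(l 3), by decide +kernel⟩

theorem c_mm_202_a : CertB 0 536870912 0 536870912 649613803 48318383 3 eng mog cd0q2 cd1q2a pd0 false false false .pp 2 0 2
    ndB0q2 ndB1q2a pcB0 Cut.none Ext.none :=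
  certB0 (fam := false) (s1 := false) (s2 := false) (a := 2) (b := 0) (c := 2) (cn := .pp) (n1 := ndB0q2) (n2 := ndB1q2a) (pc := pcB0) (cut := Cut.none) (xt := Ext.none) (P1 := 0) (W1 := 536870912) (P2 := 0) (W2 := 536870912) (P3 := 649613803) (W3 := 48318383) (N0 := 3) (En := eng) (mo := mog) (C1 := cd0q2) (C2 := cd1q2a) (C3 := pd0)
    rfl k0_mm_202_a

noncomputable def f_mm_202_b : ℕ → ℕ → ℕ → ℕ → Bool := onCell 0 536870912 1239849684 370763052 649613803 48318383
    (rowB 3 eng mog cd0q2 cd1q2b pd0 0 false false false .pp 2 0 2 (qsf 0 536870912 1239849684 370763052 0) ndB0q2 ndB1q2b pcB0 Cut.none Ext.none)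

def k0_mm_202_b : ∃ t, chk3 f_mm_202_b t 1 1 1 = true :=
  ⟨(l 3), by decide +kernel⟩

theorem c_mm_202_b : CertB 0 536870912 1239849684 370763052 649613803 48318383 3 eng mog cd0q2 cd1q2b pd0 false false false .pp 2 0 2
    ndB0q2 ndB1q2b pcB0 Cut.none Ext.none :=
  certB0 (fam := false) (s1 := false) (s2 := false) (a := 2) (b := 0) (c := 2) (cn := .pp) (n1 := ndB0q2) (n2 := ndB1q2b) (pc := pcB0) (cut := Cut.none) (xt := Ext.none) (P1 := 0) (W1 := 536870912) (P2 := 1239849684) (W2 := 370763052) (P3 := 649613803) (W3 := 48318383) (N0 := 3) (En := eng) (mo := mog) (C1 := cd0q2) (C2 := cd1q2b) (C3 := pd0)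
    rfl k0_mm_202_b

noncomputable def f_mm_203 : ℕ → ℕ → ℕ → ℕ → Bool := onCell 0 536870912 0 536870912 649613803 48318383
    (rowB 3 eng mog cd0q2 cd1q3 pd0 1 false false false .up 2 0 3 (qsf 0 536870912 1610612736 536870912 0) ndB0q2 ndB1q3 pcB0 Cut.none Ext.none)

def k0_mm_203 : ∃ t, chk3 f_mm_203 t 1 1 1 = true :=
  ⟨(l 3), by decide +kernel⟩

theorem c_mm_203 : CertB 0 536870912 1610612736 536870912 649613803 48318383 3 eng mog cd0q2 cd1q3 pd0 false false false .up 2 0 3
    ndB0q2 ndB1q3 pcB0 Cut.none Ext.none :=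
  certB1 (fam := false) (s1 := false) (s2 := false) (a := 2) (b := 0) (c := 3) (cn := .up) (n1 := ndB0q2) (n2 := ndB1q3) (pc := pcB0) (cut := Cut.none) (xt := Ext.none) (P1 := 0) (W1 := 536870912) (P2 := 1610612736) (W2 := 536870912) (P3 := 649613803) (W3 := 48318383) (N0 := 3) (En := eng) (mo := mog) (C1 := cd0q2) (C2 := cd1q3) (C3 := pd0)
    rfl (fun _ => rfl) k0_mm_203

noncomputable def f_mm_213 : ℕ → ℕ → ℕ → ℕ → Bool := onCell 0 536870912 1610612736 536870912 649613803 48318383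
    (rowB 3 eng mog cd0q2 cd1q3 pd1 0 false false false .pnn 2 1 3 (qsf 0 536870912 1610612736 536870912 1) ndB0q2 ndB1q3 pcB1 Cut.none Ext.none)

def k0_mm_213 : ∃ t, chk3 f_mm_213 t 1 1 1 = true :=
  ⟨(a (l 3) (l 5)), by decide +kernel⟩

theorem c_mm_213 : CertB 0 536870912 1610612736 536870912 649613803 48318383 3 eng mog cd0q2 cd1q3 pd1 false false false .pnn 2 1 3
    ndB0q2 ndB1q3 pcB1 Cut.none Ext.none :=
  certB0 (fam := false) (s1 := false) (s2 := false) (a := 2) (b := 1) (c := 3) (cn := .pnn) (n1 := ndB0q2) (n2 := ndB1q3) (pc := pcB1) (cut := Cut.none) (xt := Ext.none) (P1 := 0) (W1 := 536870912) (P2 := 1610612736) (W2 := 536870912) (P3 := 649613803) (W3 := 48318383) (N0 := 3) (En := eng) (mo := mog) (C1 := cd0q2) (C2 := cd1q3) (C3 := pd1)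
    rfl k0_mm_213

end Pool.Agent.Strip051.G.I6050_6500.Tab.C.BB01

namespace Pool.Agent.Strip051.G.I6050_6500.Tab.C.BB02

open Pool.Agent.Strip051.PB Pool.Agent.Strip051.PB.T
open Pool.Agent.Strip051.G.I6050_6500.Tab

noncomputable def f_pp_001 : ℕ → ℕ → ℕ → ℕ → Bool := onCell 0 536870912 536870912 536870912 649613803 48318383
    (rowB 3 eng mog cd0q0 cd2q1 pd0 0 false true true .up 0 0 1 (qsf 0 536870912 536870912 536870912 0) ndB0q0 ndB2q1 pcB0 Cut.none Ext.none)

def k0_pp_001 : ∃ t, chk3 f_pp_001 t 1 1 1 = true :=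
  ⟨(l 3), by decide +kernel⟩

theorem c_pp_001 : CertB 0 536870912 536870912 536870912 649613803 48318383 3 eng mog cd0q0 cd2q1 pd0 false true true .up 0 0 1
    ndB0q0 ndB2q1 pcB0 Cut.none Ext.none :=
  certB0 (fam := false) (s1 := true) (s2 := true) (a := 0) (b := 0) (c := 1) (cn := .up) (n1 := ndB0q0) (n2 := ndB2q1) (pc := pcB0) (cut := Cut.none) (xt := Ext.none) (P1 := 0) (W1 := 536870912) (P2 := 536870912) (W2 := 536870912) (P3 := 649613803) (W3 := 48318383) (N0 := 3) (En := eng) (mo := mog) (C1 := cd0q0) (C2 := cd2q1) (C3 := pd0)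
    rfl k0_pp_001

noncomputable def f_pp_011 : ℕ → ℕ → ℕ → ℕ → Bool := onCell 0 536870912 536870912 536870912 649613803 48318383
    (rowB 3 eng mog cd0q0 cd2q1 pd1 0 false true true .pnn 0 1 1 (qsf 0 536870912 536870912 536870912 1) ndB0q0 ndB2q1 pcB1 Cut.none Ext.none)

def k0_pp_011 : ∃ t, chk3 f_pp_011 t 1 1 1 = true :=
  ⟨(l 3), by decide +kernel⟩

theorem c_pp_011 : CertB 0 536870912 536870912 536870912 649613803 48318383 3 eng mog cd0q0 cd2q1 pd1 false true true .pnn 0 1 1
    ndB0q0 ndB2q1 pcB1 Cut.none Ext.none :=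
  certB0 (fam := false) (s1 := true) (s2 := true) (a := 0) (b := 1) (c := 1) (cn := .pnn) (n1 := ndB0q0) (n2 := ndB2q1) (pc := pcB1) (cut := Cut.none) (xt := Ext.none) (P1 := 0) (W1 := 536870912) (P2 := 536870912) (W2 := 536870912) (P3 := 649613803) (W3 := 48318383) (N0 := 3) (En := eng) (mo := mog) (C1 := cd0q0) (C2 := cd2q1) (C3 := pd1)
    rfl k0_pp_011

noncomputable def cut_pp_012_a : Cut := Cut.of [[⟨0, 0, 0, 53687091⟩, ⟨1, 1, 0, 53687091⟩, ⟨2, 1, 0, 53687091⟩]]

noncomputable def f_pp_012_a : ℕ → ℕ → ℕ → ℕ → Bool := onCell 536870912 536870912 0 536870912 649613803 48318383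
    (rowB 3 eng mog cd0q0 cd2q2a pd1 2 false true true .pnp 0 1 2 (qsf 0 536870912 0 536870912 1) ndB0q0 ndB2q2a pcB1 cut_pp_012_a Ext.none)

def k0_pp_012_a : ∃ t, chk3 f_pp_012_a t 4 1 1 = true :=
  ⟨(l 3), by decide +kernel⟩

def k1_pp_012_a : ∃ t, chk3 f_pp_012_a t 10 2 1 = true :=
  ⟨(l 3), by decide +kernel⟩

def k2_pp_012_a : ∃ t, chk3 f_pp_012_a t 44 16 1 = true :=
  ⟨(b (a (l 3) (b (a (b (b (b (b (a (l 3) (a (l 3) (a (l 3) (a (l 139754198215) (c (l 90898946311) (l 89825201863)))))) (l 3)) (l 3)) (l 3)) (l 3)) (b (a (a (b (b (a (b (l 16771312) (a (a (l 132774876407) (l 98415137991)) (l 67276624871))) (l 16771088)) (a (c (l 145122908663) (l 147270389847)) (b (c (l 75329690119) (l 73182203799)) (a (l 154249712759) (l 111836911223))))) (l 3)) (b (c (l 16771472) (l 16770144)) (a (b (a (l 140291069015) (b (l 81235269271) (l 149417874439))) (l 3)) (b (c (l 73182206823) (l 71034720567)) (l 140827939895))))) (b (l 16769792) (a (a (b (l 16770960) (b (l 66739754935)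 (l 116668750359))) (l 16770840)) (l 16770336)))) (a (l 3) (b (a (a (l 3) (a (l 142975423575) (b (l 98415139511) (l 3)))) (a (b (l 66202884343) (l 135996101447)) (a (b (l 16770912) (l 95193914487)) (l 58149820439)))) (l 3))))) (l 3))) (l 3)), by decide +kernel⟩

def k3_pp_012_a : ∃ t, chk3 f_pp_012_a t 45 16 1 = true :=
  ⟨(b (b (a (a (b (c (l 16768952) (l 16767440)) (a (a (b (l 16770536) (b (a (a (l 127943037543) (l 91435818471)) (l 16772328)) (l 137069843239))) (a (b (l 16770032) (b (l 16770688) (l 78550916695))) (l 16770128))) (l 16769280))) (c (l 16767112) (l 16765504))) (a (l 16763440) (l 16760528))) (a (a (b (a (a (l 3) (a (l 152102229367) (b (b (l 96804527863) (l 3)) (l 3)))) (a (b (a (b (l 16770888) (l 124721811799)) (l 60297305655)) (l 147807261559)) (b (l 16770264) (b (a (l 91435818487) (l 16770752)) (l 128479908151))))) (l 3)) (a (b (c (l 48486144583) (l 44191174855)) (b (c (a (b (l 110763168855) (l 3)) (b (l 16771056) (l 91435818583))) (a (l 123648068711)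 (l 69424109415))) (l 144049165095))) (b (l 16768296) (a (b (l 16769984) (b (l 66739756343) (l 119353102135))) (l 16772360))))) (a (c (l 16767840) (l 16766376)) (l 16764216)))) (a (b (a (l 3) (b (a (l 3) (a (l 3) (a (l 140291068343) (b (l 100562622519) (l 3))))) (l 3))) (l 3)) (b (a (b (a (a (b (c (l 66202885415) (l 62444786887)) (l 133311745959)) (b (l 16769696) (c (l 83382754871) (l 80161527335)))) (l 16769096)) (a (l 3) (a (a (l 134385487815) (b (l 88751463559) (l 3))) (b (l 56002337735) (l 125258681767))))) (b (l 16766968) (a (a (a (b (l 16769576) (l 84456495991)) (l 16772288)) (l 16769144)) (l 16768088)))) (a (l 3) (b (a (b (c (a (l 141364810343) (l 95193911015)) (l 113447520391)) (l 3)) (b (l 16772064) (a (l 116668746663) (l 65666014007)))) (a (l 3) (l 139217326023))))))), by decide +kernel⟩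

def k4_pp_012_a : ∃ t, chk3 f_pp_012_a t 22 17 1 = true :=
  ⟨(l 3), by decide +kernel⟩

def k5_pp_012_a : ∃ t, chk3 f_pp_012_a t 22 9 1 = true :=
  ⟨(l 3), by decide +kernel⟩

def k6_pp_012_a : ∃ t, chk3 f_pp_012_a t 46 8 1 = true :=
  ⟨(b (a (b (c (l 16759000) (l 16767352)) (b (c (l 16772200) (l 16770584)) (a (b (l 16773008) (a (a (b (l 82845883495) (l 3)) (b (l 16769496) (l 107541940631))) (c (l 46875531847) (l 16768344)))) (l 16770984)))) (b (l 16751600) (a (a (l 16761552) (l 16759968)) (l 16757536)))) (b (a (b (a (a (l 3) (b (a (l 130627390535) (b (l 74255948327) (l 3))) (l 3))) (b (a (a (b (l 16769168) (l 93046430343)) (l 16774128)) (l 16767776)) (a (b (l 119889971655) (l 3)) (b (c (l 55465466103) (l 16768656)) (c (l 100562621559) (l 98952004375)))))) (l 3)) (b (a (c (l 28621920951) (l 16771048)) (l 16763216)) (a (b (a (b (a (l 101636359511) (l 52781110503)) (l 122574325655)) (a (b (l 16768352) (l 73182205495)) (l 16768032))) (a (l 3) (a (l 3) (b (l 89825203687)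 (l 3))))) (b (l 16766048) (a (b (l 33453757319) (a (l 108615680647) (a (l 73719075111) (l 16768576)))) (l 16767120)))))) (a (l 3) (b (a (l 3) (b (a (l 124721808983) (a (b (a (l 94657040471) (l 68350365495)) (l 3)) (b (l 16768112) (c (l 94657036919) (l 90898942311))))) (l 3))) (l 3))))), by decide +kernel⟩

def k7_pp_012_a : ∃ t, chk3 f_pp_012_a t 47 8 1 = true :=
  ⟨(b (b (a (l 16744944) (l 16738080)) (a (c (l 16753840) (l 16751256)) (l 16745648))) (b (b (a (c (l 16759248) (l 16757248)) (l 16751360)) (a (a (a (l 16764544) (l 16762888)) (l 16760360)) (c (l 16756320) (l 16754048)))) (a (b (b (a (a (a (b (l 16767312) (b (l 16768008) (l 56539204951))) (l 16766960)) (l 16765728)) (l 16763208)) (a (a (b (a (l 104320712455) (b (l 16768120) (l 77477170311))) (l 3)) (b (l 16767144) (a (a (l 93583293463) (l 64055397431)) (l 33453754999)))) (l 16770360))) (a (b (a (l 3) (b (c (l 100562616503) (l 98952001895)) (l 3))) (l 3)) (b (a (b (c (a (l 51707365879) (l 16767496)) (l 34527495335))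 (a (l 107005066007) (a (l 75866556871) (l 50633623511)))) (l 16771416)) (a (l 3) (b (a (a (l 96804517879) (l 69424105447)) (l 36674979607)) (l 99488875287)))))) (b (a (c (l 16761592) (l 16759904)) (l 16762496)) (a (a (a (b (l 16764904) (c (b (l 16766888) (l 55465461207)) (l 35601236295))) (l 16765000)) (l 16768952)) (c (l 16761904) (l 16760288))))))), by decide +kernel⟩

def k8_pp_012_a : ∃ t, chk3 f_pp_012_a t 23 9 1 = true :=
  ⟨(a (l 3) (b (a (l 3) (b (b (a (b (a (b (c (a (l 108615678631) (l 68887233927)) (l 79624646775)) (l 3)) (b (l 16768712) (a (l 82309004423) (a (l 49559879959) (l 16766400))))) (a (l 3) (l 101099487351))) (b (c (l 16764624) (l 16763320)) (a (a (b (c (l 58149814631) (l 53854845399)) (l 3)) (b (l 16765840) (c (l 71034716391) (l 67813488919)))) (c (l 24326946199) (l 16764416))))) (a (l 3) (b (a (l 3) (b (a (l 83919613303) (a (l 53317975111) (l 16765784))) (l 97878257527))) (l 3)))) (l 3))) (l 3))), by decide +kernel⟩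

def k9_pp_012_a : ∃ t, chk3 f_pp_012_a t 11 5 1 = true :=
  ⟨(l 3), by decide +kernel⟩

def k10_pp_012_a : ∃ t, chk3 f_pp_012_a t 5 3 1 = true :=
  ⟨(l 3), by decide +kernel⟩

def k11_pp_012_a : ∃ t, chk3 f_pp_012_a t 24 8 1 = true :=
  ⟨(b (a (b (a (b (l 16729168) (l 16732992)) (l 16724504)) (a (l 16738632) (l 16731568))) (b (l 16714600) (a (b (l 16722960) (l 16726328)) (l 16718192)))) (a (b (a (c (l 16747776) (l 16755120)) (l 16749552)) (b (a (a (l 16753712) (l 16750136)) (c (l 16746296) (l 16743120))) (a (a (a (l 16758448) (l 16756664)) (l 16753968)) (a (l 16750352) (l 16746712))))) (b (a (l 16731936) (l 16745720)) (a (c (l 16741136) (l 16737568)) (l 16732160))))), by decide +kernel⟩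

def k12_pp_012_a : ∃ t, chk3 f_pp_012_a t 48 18 1 = true :=
  ⟨(a (b (b (c (a (c (l 16762544) (l 16761792)) (l 16758744)) (a (l 16765880) (l 16756872))) (b (a (a (a (b (l 16765136) (a (l 69960973095) (l 46338652583))) (l 16764728)) (l 16763400)) (c (l 16761472) (l 16759920))) (a (a (b (c (a (l 3) (l 72108456599)) (l 79624644215)) (l 3)) (b (c (l 28621912103) (l 16764240)) (a (l 83919611991) (a (l 56002328263) (l 16765120))))) (a (l 16763536) (l 16761728))))) (b (a (b (a (l 3) (l 96804514887)) (l 3)) (b (b (a (a (a (l 71034713383) (l 49023005767)) (l 16764520)) (l 16763176)) (a (a (l 3) (a (l 87677707351) (l 64055390999))) (a (a (l 42580554087) (l 16764360)) (l 16763688)))) (a (l 3) (b (a (l 83382739671) (a (a (l 64055390135) (l 51707358967)) (l 36138102231))) (l 3))))) (l 3))) (b (a (c (b (l 16755272) (l 16764152)) (b (l 16753072) (c (l 16757584) (l 16756672)))) (b (l 16750528) (a (l 16757904) (l 16753440)))) (b (a (b (a (c (l 16762512) (l 16761136)) (l 16760008))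 (a (b (l 16763288) (a (a (l 71571582855) (a (l 56002325879) (l 44191165431))) (l 25937550311))) (c (l 16762584) (l 16761264)))) (a (c (l 16759904) (l 16760944)) (b (l 16756320) (l 16758240)))) (a (b (a (a (l 3) (b (c (l 73182191959) (l 70497835207)) (l 3))) (a (b (c (l 40969937815) (l 33453742871)) (l 81772125431)) (b (l 16762928) (b (l 33453741879) (a (l 82308998663) (l 51170484727)))))) (l 3)) (a (b (c (l 16762640) (l 16761376)) (a (b (a (l 71034709079) (a (l 57612933959) (l 47412385111))) (l 3)) (b (c (l 16763552) (l 16762408)) (c (l 72645319463) (l 68887220903))))) (a (b (l 16760640) (b (l 16762088) (a (a (l 51170481079) (l 40433062423)) (l 16762816)))) (c (l 16763944) (c (l 16760328) (l 16759600))))))))), by decide +kernel⟩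

def k13_pp_012_a : ∃ t, chk3 f_pp_012_a t 49 18 1 = true :=
  ⟨(a (b (c (a (l 16750048) (l 16746488)) (a (b (l 16745424) (l 16749440)) (l 16743584))) (c (b (a (l 16755448) (l 16751848)) (a (a (a (l 16760424) (l 16759528)) (l 16758176)) (l 16755448))) (a (a (b (l 16754448) (a (l 16759000) (l 16758024))) (b (l 16752504) (l 16756552))) (b (l 16749568) (c (l 16754080) (l 16753096)))))) (b (c (l 16741136) (l 16748320)) (c (a (l 16750008) (l 16746352)) (a (b (l 16745656) (l 16749640)) (l 16743736))))), by decide +kernel⟩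

def k14_pp_012_a : ∃ t, chk3 f_pp_012_a t 48 19 1 = true :=
  ⟨(a (l 3) (b (b (a (l 3) (b (a (l 3) (b (a (l 80698382023) (a (a (l 65665995399) (l 54928576999)) (a (l 44191158375) (l 16762728)))) (l 3))) (l 3))) (l 3)) (l 3))), by decide +kernel⟩

def k15_pp_012_a : ∃ t, chk3 f_pp_012_a t 98 19 1 = true :=
  ⟨(b (b (b (a (a (b (c (l 16762248) (l 16761056)) (a (a (l 71571575335) (a (l 58686672823) (l 47949254311))) (b (l 16761936) (l 36674964807)))) (c (l 16760896) (l 16759600))) (c (l 16758152) (c (l 16757032) (l 16756208)))) (a (a (a (l 3) (a (l 84456477783) (b (l 64592252823) (l 3)))) (a (b (c (l 43117418199) (c (l 38285578711) (l 35601222999))) (l 78014025783)) (b (l 16761256) (b (a (l 44191156407) (l 16761744)) (l 62444768343))))) (a (c (l 25937547303) (c (l 16759992) (l 16759312))) (c (l 16759040) (l 16757664))))) (a (l 3) (b (b (a (c (a (l 60297287111) (l 16761808)) (a (b (l 45801769175) (l 72645314871)) (l 28085028183))) (c (l 16760432) (l 16759208))) (a (c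 (l 73182187639) (a (l 3) (l 65129121143))) (a (c (l 43654287335) (c (l 38822447863) (l 35601221223))) (l 16760352)))) (a (l 3) (b (a (l 74255927687) (c (l 51170480039) (b (l 16760496) (l 57612928135)))) (l 3)))))) (l 3)), by decide +kernel⟩

def k16_pp_012_a : ∃ t, chk3 f_pp_012_a t 99 19 1 = true :=
  ⟨(b (b (c (a (c (l 16755744) (l 16754960)) (l 16751640)) (a (c (l 16754112) (l 16758424)) (l 16749656))) (a (a (b (c (l 16759032) (l 16757712)) (c (b (l 16760432) (a (l 58149801655) (l 16760880))) (b (l 16759256) (a (b (l 44728025543) (l 68887216695)) (l 28621897255))))) (b (l 16759096) (c (l 16759016) (l 16757752)))) (a (c (l 16756208) (l 16757328)) (a (l 16756656) (l 16753056))))) (b (a (b (a (b (c (l 69960960359) (a (l 3) (l 61907893847))) (l 3)) (a (b (c (l 42043672711) (c (l 37748704167) (l 34527477447))) (l 70497829447)) (b (l 16759400) (c (l 49559865383) (b (l 16759544) (l 54928571671)))))) (l 3)) (a (b (c (l 16761600) (c (l 16758104) (l 16757416))) (b (c (a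 (l 56002316135) (l 16759880)) (a (b (l 43117410871) (l 64592247479)) (l 28621895287))) (c (l 66202862023) (a (l 3) (l 59223537335))))) (a (b (l 16756944) (b (l 16758400) (a (a (l 46875506327) (l 39359313031)) (l 16759128)))) (b (l 16755952) (b (l 16757408) (l 16758384)))))) (a (l 3) (b (a (l 3) (b (a (l 66739731095) (b (l 35601216295) (a (l 67276600071) (l 46875505063)))) (l 3))) (l 3))))), by decide +kernel⟩

def k17_pp_012_a : ∃ t, chk3 f_pp_012_a t 25 4 1 = true :=
  ⟨(b (b (a (l 16704904) (l 16691056)) (a (b (a (l 16718280) (l 16711552)) (a (l 16725048) (l 16718280))) (a (l 16729176) (l 16700128)))) (b (a (a (b (l 16732224) (a (l 16741312) (l 16737584))) (b (l 16725160) (l 16732096))) (a (b (l 16718000) (l 16724816)) (b (l 16710200) (l 16716696)))) (a (a (b (a (b (l 16746840) (a (l 16751592) (l 16749648))) (b (l 16743016) (l 16746736))) (b (b (a (c (l 16754224) (l 16752672)) (l 16749568)) (a (a (a (l 16756904) (l 16755912)) (l 16754432)) (l 16754088))) (a (b (a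 (b (c (l 16758384) (l 16757248)) (c (a (l 53317959399) (l 16758816)) (a (b (l 41506795927) (l 60834149063)) (l 16757744)))) (c (l 16756912) (l 16755696))) (a (b (c (l 62981634455) (a (l 3) (l 55465440375))) (l 3)) (a (b (c (l 40969926519) (l 34527473175)) (l 62981632599)) (b (l 16757304) (a (l 49559858647) (l 37748697607)))))) (a (b (l 16754360) (c (l 16756808) (l 16755664))) (b (l 16752376) (l 16754280)))))) (b (b (l 16737368) (l 16751472)) (b (a (l 16746608) (l 16742744)) (a (c (l 16751072) (l 16754776)) (l 16746416))))) (b (a (l 16752608) (l 16723528)) (a (a (b (l 16738928) (l 16742536)) (l 16736728)) (l 16730544)))))), by decide +kernel⟩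

def k18_pp_012_a : ∃ t, chk3 f_pp_012_a t 24 5 1 = true :=
  ⟨(l 3), by decide +kernel⟩

def k19_pp_012_a : ∃ t, chk3 f_pp_012_a t 50 20 1 = true :=
  ⟨(a (b (b (a (b (a (l 3) (l 68887213895)) (l 3)) (b (b (a (a (a (l 54928569655) (l 44191148535)) (l 32379987399)) (l 16755720)) (b (a (c (l 58149793687) (l 55465437207)) (l 16756440)) (a (l 66202857239) (c (l 39359311783) (l 33990600359))))) (a (l 3) (b (a (l 59223534023) (a (l 44191150471) (l 16756872))) (l 64592243735))))) (l 3)) (l 3)) (b (b (a (a (b (l 16754192) (b (l 16755616) (a (a (l 49559859415) (l 39896182103)) (l 16756064)))) (c (l 16756296) (l 16755096))) (c (l 16755992) (a (l 16750424) (l 16748384)))) (a (b (a (b (c (a (l 3) (l 52244213767)) (l 54928564439)) (l 3)) (a (b (l 34527472023) (l 53854825863)) (c (l 38822439367) (l 31306245575)))) (a (l 3) (b (l 60834145047) (l 3)))) (b (a (c (l 16754384) (l 16753392)) (l 16751928)) (a (b (c (c (l 43117406455) (l 39359309623)) (l 33990600039)) (c (l 54928563735)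 (l 49559857703))) (c (l 36138082375) (l 16753288)))))) (b (a (l 3) (a (l 3) (b (b (a (l 51170468727) (l 37211823639)) (l 57076046263)) (l 3)))) (l 3)))), by decide +kernel⟩

def k20_pp_012_a : ∃ t, chk3 f_pp_012_a t 51 20 1 = true :=
  ⟨(b (a (a (b (c (l 16746880) (l 16745344)) (c (a (l 16751336) (l 16749376)) (a (l 16750240) (l 16748192)))) (b (l 16742120) (l 16745768))) (a (l 16739808) (l 16735648))) (a (a (b (a (b (c (c (l 40969920263) (l 36674952775)) (l 31306243191)) (c (b (l 52781077479) (l 3)) (l 52244206007))) (c (b (l 16751984) (a (l 42043661175) (l 38822433943))) (b (l 16751104) (a (l 35601209719) (l 16752528))))) (a (l 3) (a (l 3) (a (l 3) (b (b (l 48486110151) (l 3)) (l 3)))))) (a (b (c (l 16750856) (l 16749976)) (b (c (b (l 39359304455) (l 46875498615)) (b (l 16752408) (l 43117402055))) (l 3))) (b (l 16748416) (b (c (l 16751520) (l 16750848)) (a (l 45801756455) (l 39896175015)))))) (b (a (l 16745296) (l 16741112)) (a (c (b (l 16748464) (a (l 16754216)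 (l 16749552))) (b (l 16747648) (l 33453722839))) (c (l 16745408) (l 16744464)))))), by decide +kernel⟩

def k21_pp_012_a : ∃ t, chk3 f_pp_012_a t 25 21 1 = true :=
  ⟨(a (l 3) (a (l 3) (b (a (b (b (a (c (l 47412365255) (l 41506789671)) (c (l 36674948551) (l 16756248))) (a (l 3) (l 46338623063))) (l 3)) (a (b (c (b (l 16749648) (l 37211819639)) (l 33990594327)) (l 46338625063)) (b (l 16748336) (b (c (l 38285561623) (l 36138077367)) (l 3))))) (l 3)))), by decide +kernel⟩

def k22_pp_012_a : ∃ t, chk3 f_pp_012_a t 25 11 1 = true :=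
  ⟨(l 3), by decide +kernel⟩

def k23_pp_012_a : ∃ t, chk3 f_pp_012_a t 13 4 1 = true :=
  ⟨(b (a (a (l 16724304) (l 16667672)) (a (l 16653448) (l 16639880))) (a (a (b (b (l 16698032) (a (l 16729656) (l 16700704))) (a (l 16718856) (b (l 16707256) (l 16714144)))) (b (l 16706680) (a (b (l 16720408) (l 16706064)) (b (l 16691504) (l 16698288))))) (a (b (l 16670632) (a (l 16687152) (l 16679552))) (b (l 16656232) (l 16668504))))), by decide +kernel⟩

def k24_pp_012_a : ∃ t, chk3 f_pp_012_a t 26 5 1 = true :=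
  ⟨(b (a (b (b (a (l 16729400) (l 16721128)) (a (b (l 16734816) (a (l 16740800) (l 16736584))) (l 16738864))) (a (b (b (a (l 16745152) (l 16740912)) (a (a (b (l 16749536) (l 37211819383)) (a (l 34527460743) (l 16747992))) (c (l 16745704) (l 16744792)))) (b (a (b (a (l 3) (l 36674948279)) (l 3)) (b (c (l 33453720567) (l 32379977671)) (a (l 35601206183) (l 32916848535)))) (a (l 3) (b (l 37748693415) (l 3))))) (b (a (b (l 16736680) (l 16741056)) (l 16734632)) (a (a (b (l 16746576) (b (l 33453719447) (l 3))) (b (l 16744432) (c (l 29695624407) (l 29695623111)))) (b (l 16741224) (a (a (l 16752552) (l 16746240)) (l 16744624))))))) (a (b (b (l 16712992) (l 16720104)) (b (l 16738816) (a (b (l 16736960) (l 16741400)) (l 16734928)))) (b (b (l 16705016) (l 16712000)) (b (l 16720056) (a (l 16730704) (l 16726536)))))) (b (a (b (a (l 3) (b (a (l 3) (a (a (l 45264881111) (l 29695623671)) (a (l 27011268727) (l 28621879415)))) (l 3))) (l 3)) (b (b (a (a (a (a (l 30232490231) (l 16751696))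 (l 16744840)) (l 16746856)) (a (l 16737328) (l 16733096))) (a (a (b (a (l 32916846391) (l 29158748311)) (l 3)) (a (b (l 16746096) (l 26474393863)) (b (l 16743936) (l 16746232)))) (a (c (l 16747368) (l 16741424)) (l 16737576)))) (a (b (a (l 3) (b (a (l 3) (l 46338616807)) (l 3))) (l 3)) (b (a (b (c (l 16745568) (l 16744968)) (a (l 65665969687) (l 40433033303))) (c (l 16742464) (l 16741824))) (a (l 98415096727) (a (b (l 57076031975) (l 3)) (b (l 16744688) (l 79624610551)))))))) (l 3))), by decide +kernel⟩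

def k25_pp_012_a : ∃ t, chk3 f_pp_012_a t 27 10 1 = true :=
  ⟨(a (b (b (a (l 16697272) (l 16689632)) (a (l 16704136) (l 16696504))) (b (a (l 16712000) (l 16704240)) (a (l 16720368) (l 16712408)))) (b (b (l 16678368) (l 16727328)) (a (b (l 16696776) (l 16704800)) (l 16693480)))), by decide +kernel⟩

def k26_pp_012_a : ∃ t, chk3 f_pp_012_a t 54 11 1 = true :=
  ⟨(b (b (a (a (l 16741608) (l 16726968)) (b (l 16718720) (l 16723040))) (a (b (a (l 16737944) (l 16733720)) (a (a (b (l 16742536) (l 56002285991)) (l 16741576)) (l 16738376))) (a (b (l 16729568) (l 16734176)) (l 16738288)))) (a (b (b (a (b (a (c (l 84993316711) (l 86067057495)) (c (l 16745320) (l 60297254215))) (a (l 3) (c (l 93046380839) (l 90362025287)))) (a (b (l 16742984) (c (l 16748168) (b (l 16744448) (l 73719027255)))) (c (l 16742232) (l 16741696)))) (a (l 3) (b (a (c (l 102173186807) (l 94120122183)) (c (l 52244192919) (b (l 68887187175) (l 86067055479)))) (a (l 3) (l 104857541559))))) (l 3)) (b (b (a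 (c (l 16739064) (l 16738512)) (l 16734720)) (a (c (a (b (l 16743656) (l 53317935159)) (l 16742728)) (b (a (l 16743176) (l 16741064)) (a (b (l 73719025783) (l 95730732471)) (l 62444735079)))) (c (l 16739600) (l 16739144)))) (a (b (b (a (l 3) (c (l 54391677447) (b (l 93046376119) (l 105931280423)))) (l 3)) (l 3)) (b (c (a (b (l 16744200) (l 54928548871)) (l 16745936)) (a (b (l 65665961207) (l 106468150823)) (b (l 16741736) (l 68887187415)))) (a (l 3) (b (c (l 56002280871) (l 113984344343)) (l 3)))))))), by decide +kernel⟩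

def k27_pp_012_a : ∃ t, chk3 f_pp_012_a t 55 11 1 = true :=
  ⟨(b (a (b (l 16713096) (a (l 16723824) (l 16719936))) (b (l 16705664) (l 16714272))) (a (a (b (c (b (l 16730848) (l 16735488)) (l 16732728)) (b (c (a (l 16741240) (l 16739192)) (l 16750376)) (c (a (b (l 16744840) (l 58149765047)) (b (l 16742776) (l 16745192))) (a (b (l 73182155655) (l 118816183367)) (b (l 16742528) (l 78013994711)))))) (b (b (l 16726736) (l 16731376)) (b (a (l 16737088) (l 16735104)) (c (c (b (l 16739680) (a (l 16743096) (l 16741056))) (l 16746168)) (l 16745984))))) (a (b (c (l 16740960) (l 16724976)) (b (c (l 16732168) (l 16732008)) (c (a (l 16737896) (l 16735912)) (l 16736816)))) (b (l 16721392) (b (l 16728320) (b (l 16730536) (l 16734232))))))), by decide +kernel⟩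

def k28_pp_012_a : ∃ t, chk3 f_pp_012_a t 6 3 1 = true :=
  ⟨(a (l 3) (b (a (l 3) (b (a (l 3) (b (b (b (b (a (a (a (l 3) (l 85530188023)) (c (c (a (l 16745536) (l 16743480)) (l 16744576)) (a (l 68350319367) (l 16743432)))) (a (a (a (l 16742040) (l 16741048)) (l 16739568)) (l 16735496))) (a (a (l 3) (c (a (l 3) (c (l 16744632) (l 16746032))) (l 100025701271))) (a (c (c (a (l 16746512) (l 16741872)) (l 16742992)) (l 16742944)) (a (l 16740048) (l 16738104))))) (a (l 3) (a (b (c (c (a (l 16745064) (c (l 16745584) (l 16744376))) (l 16745480)) (a (l 91972641351) (l 16744448))) (a (l 3) (a (l 3) (a (l 13052611911) (l 16745264))))) (a (b (a (l 16743000) (l 16742016)) (c (a (l 16745392) (l 16744384)) (l 16744984))) (b (l 16740552) (b (l 16742400) (l 16742328))))))) (a (l 3) (b (a (l 3) (b (a (c (l 16747416) (l 114521217095)) (c (a (l 16745728) (l 16744888)) (l 16745544))) (a (l 3) (b (l 82845833463) (l 3))))) (l 3)))) (l 3))) (l 3))) (l 3))), by decide +kernel⟩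

def k29_pp_012_a : ∃ t, chk3 f_pp_012_a t 7 2 1 = true :=
  ⟨(a (b (a (b (a (l 16627104) (l 16657184)) (a (l 16645400) (l 16656880))) (a (b (l 16604368) (l 16645320)) (b (l 16594464) (l 16633928)))) (a (b (a (b (l 16667576) (a (l 16686296) (l 16679304))) (b (l 16654360) (l 16669104))) (a (b (a (b (l 16698552) (l 16707016)) (l 16716888)) (b (a (a (l 16717696) (l 16714072)) (l 16708784)) (a (c (c (l 16732288) (l 16735472)) (l 16730304)) (l 16733496)))) (b (a (l 16709768) (l 16681560)) (a (c (l 16726872) (l 16727112)) (b (l 16694288) (l 16702920)))))) (b (b (a (l 16641704) (l 16628656)) (a (b (l 16651656) (l 16659040)) (a (l 16645024) (l 16638128)))) (a (b (b (l 16671936) (l 16674752)) (b (a (l 16686864) (l 16679424)) (a (l 16695520) (l 16687992)))) (b (a (l 16670376) (l 16663168)) (a (l 16676224) (l 16674000))))))) (b (a (b (l 16578144) (b (l 16600392) (a (l 16605272) (l 16592608)))) (b (a (l 16560976) (l 16549472)) (a (b (l 16571464) (l 16579720)) (l 16563224))))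 (a (b (b (a (l 16636432) (l 16602208)) (a (a (l 16631216) (l 16624320)) (l 16645456))) (a (b (a (l 16666472) (l 16659328)) (a (b (l 16657216) (l 16665464)) (b (l 16649912) (l 16658072)))) (a (b (l 16652224) (l 16646704)) (b (l 16624192) (l 16639472))))) (b (a (b (l 16609984) (l 16600352)) (b (l 16596808) (l 16607832))) (a (b (a (l 16617184) (l 16610216)) (a (l 16632296) (l 16625168))) (b (a (l 16603288) (l 16596400)) (a (l 16618088) (l 16611024)))))))), by decide +kernel⟩

def k30_pp_012_a : ∃ t, chk3 f_pp_012_a t 28 24 1 = true :=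
  ⟨(b (a (a (c (a (c (b (l 16733744) (l 16741880)) (l 16740984)) (c (l 16740216) (l 16743088))) (a (l 16741736) (l 16732768))) (a (a (l 16739088) (l 16738520)) (l 16735664))) (a (l 16729968) (l 16711928))) (a (a (b (b (c (a (a (l 16744712) (l 16741448)) (l 16743800)) (l 16742040)) (c (a (a (a (l 16746416) (l 16745408)) (l 16746552)) (l 16744960)) (a (l 57076024951) (l 16741328)))) (a (a (l 3) (b (c (a (l 16744344) (l 16745304)) (l 18421334311)) (l 3))) (c (c (b (b (l 16748016) (l 16746648)) (a (l 16745608) (l 16744944))) (b (l 16743632) (l 16746176))) (c (l 16750312) (b (l 16743840) (l 22716301607)))))) (a (c (b (l 16741208) (c (l 16744744) (l 16741000))) (l 16744112)) (b (l 16742824) (c (l 16742288) (l 16737480))))) (a (a (l 16739424) (l 16727048)) (l 16742256)))), by decide +kernel⟩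

def k31_pp_012_a : ∃ t, chk3 f_pp_012_a t 28 25 1 = true :=
  ⟨(a (b (a (b (a (l 3) (b (a (l 3) (c (l 16745640) (l 69960942423))) (l 3))) (l 3)) (b (c (a (b (c (l 16746528) (l 16744736)) (a (l 16748192) (l 16746184))) (l 16745936)) (a (a (b (l 16746032) (l 88214551799)) (l 16750664)) (l 16742416))) (a (b (a (l 3) (c (l 59223516583) (l 105394421127))) (l 3)) (b (c (a (l 16748072) (l 16744800)) (l 16751408)) (a (l 113984350087) (c (l 16749976) (l 102173190647))))))) (l 3)) (b (a (c (a (b (l 16748632) (l 16753632)) (l 16747280)) (a (l 16748456) (l 16747424))) (a (b (l 16730448) (l 16745872)) (c (l 16739632) (l 16749968)))) (a (b (a (b (a (c (l 66202839895) (l 113447478871)) (l 16747352)) (a (l 3) (b (l 66739709047) (l 96804482631)))) (b (c (l 16743048) (l 16753664)) (c (l 16745592) (l 16751944)))) (a (l 3) (b (a (l 90898900247) (l 16749808)) (a (l 3) (l 95193868727))))) (a (a (b (l 16744664) (b (l 16745208) (l 41506777127))) (b (l 16744664) (l 16744512))) (b (c (l 16736576)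 (l 16736448)) (c (l 16741640) (l 16741520))))))), by decide +kernel⟩

def k32_pp_012_a : ∃ t, chk3 f_pp_012_a t 28 13 1 = true :=
  ⟨(a (l 3) (b (b (a (l 3) (b (b (a (a (l 101636320887) (l 47412358855)) (l 16745400)) (a (a (l 3) (l 108615643975)) (a (l 49559844231) (l 16747008)))) (a (l 3) (b (a (l 115594967095) (l 60834134807)) (l 3))))) (l 3)) (l 3))), by decide +kernel⟩

def k33_pp_012_a : ∃ t, chk3 f_pp_012_a t 29 12 1 = true :=
  ⟨(b (a (b (a (l 16704376) (l 16696824)) (a (l 16734592) (l 16705952))) (b (a (l 16710192) (l 16681616)) (a (l 16698296) (l 16711624)))) (a (b (a (c (c (l 16734072) (l 16744272)) (l 16744024)) (c (l 16736800) (l 16715152))) (b (a (a (l 16737792) (l 16739120)) (c (l 16733616) (l 16722504))) (a (a (l 16742840) (l 16744152)) (c (l 16738592) (l 16727528))))) (b (a (c (l 16708240) (l 16707272)) (l 16700000)) (a (c (a (l 16730352) (l 16716040)) (l 16738064)) (a (l 16722144) (l 16707792)))))), by decide +kernel⟩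

def k34_pp_012_a : ∃ t, chk3 f_pp_012_a t 58 13 1 = true :=
  ⟨(b (b (b (a (a (c (l 16742880) (l 16742656)) (l 16744032)) (a (l 16745336) (l 16730920))) (a (a (b (l 16751896) (a (c (l 61907878999) (l 68887200471)) (l 16748296))) (c (l 16749432) (l 16754360))) (c (a (l 16740296) (l 16736408)) (a (l 16739864) (l 16735864))))) (a (b (a (b (a (l 3) (b (l 53854813767) (l 107005032471))) (l 3)) (b (c (l 16753384) (l 16753096)) (a (b (l 60297266087) (l 115058097543)) (l 25937527063)))) (a (l 3) (b (a (l 3) (b (l 80161488631) (l 123111162663))) (l 3)))) (a (b (c (l 16750808) (l 16750424)) (a (b (a (a (l 60834137303) (l 16750632)) (l 16749888)) (b (c (l 95193874359) (l 103246937367)) (l 3))) (b (l 16748400) (a (b (l 16750936) (l 84993329383)) (l 17347594071))))) (a (b (l 16747632) (c (l 16751928) (l 16752832))) (b (l 16745656) (c (l 16751288) (l 16750832))))))) (b (a (l 3) (b (a (b (a (l 3) (b (c (l 103246939559) (l 110226260711)) (l 3))) (l 3)) (b (a (b (c (l 16754016) (l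 29158754119)) (c (a (l 100562584807) (l 27011271831)) (a (l 108078776839) (l 40433043959)))) (c (l 16752744) (l 16754960))) (a (a (l 3) (a (l 3) (b (l 104857552007) (l 3)))) (b (b (c (l 16751840) (l 16751448)) (a (a (l 94657005527) (l 16752576)) (l 16751832))) (b (c (a (l 82308974679) (l 16754040)) (a (l 90362037607) (l 16753656))) (a (l 3) (a (l 79624620583) (l 16754264)))))))) (a (l 3) (a (l 3) (a (l 3) (b (b (l 93583264839) (l 3)) (l 3))))))) (l 3))), by decide +kernel⟩

def k35_pp_012_a : ∃ t, chk3 f_pp_012_a t 59 26 1 = true :=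
  ⟨(b (a (a (b (l 16727000) (l 16742664)) (b (l 16723088) (l 16728256))) (c (c (l 16733712) (l 16741040)) (l 16740360))) (a (b (c (a (l 16748256) (l 16733888)) (a (l 16737184) (l 16733208))) (c (a (a (l 16749336) (l 16747384)) (c (l 16744640) (l 16739048))) (a (l 16747840) (l 16738608)))) (a (b (l 16740088) (a (l 16741192) (l 16733984))) (b (l 16725696) (l 16741536))))), by decide +kernel⟩

def k36_pp_012_a : ∃ t, chk3 f_pp_012_a t 59 27 1 = true :=
  ⟨(a (b (b (b (a (a (c (l 16750784) (l 16747712)) (a (l 16749064) (l 16750696))) (c (c (l 16748680) (l 16743128)) (l 16742728))) (a (a (b (c (l 16752848) (l 16749800)) (c (c (l 16751704) (l 16751480)) (l 16753808))) (c (b (l 16748264) (l 16752256)) (l 16751112))) (a (c (a (l 16750104) (l 16746504)) (l 16746496)) (c (l 16747656) (l 16744504))))) (a (a (b (a (b (a (c (l 39896174695) (l 49559851175)) (c (l 16753184) (l 16752800))) (l 98415103767)) (b (l 16752240) (a (l 52781076759) (l 21105693943)))) (l 3)) (b (c (c (l 16751768)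 (l 16751544)) (l 16753856)) (a (b (c (l 53854820231) (l 64592237687)) (l 3)) (b (l 16752984) (l 64592238823))))) (c (a (b (l 16749696) (l 16752400)) (a (l 16749576) (l 16748600))) (a (b (l 16749240) (l 16754608)) (l 16753856))))) (a (l 3) (b (a (b (b (a (l 70497819463) (l 16753752)) (l 89825171255)) (l 3)) (a (b (l 16756080) (l 95193881559)) (b (l 16752464) (a (l 46338631047) (l 16757608))))) (l 3)))) (b (b (c (a (c (b (l 16739560) (l 16747520)) (l 16745824)) (c (l 16747528) (l 16736672))) (a (l 16745376) (l 16736176))) (a (c (c (a (l 16747272) (l 16745328)) (l 16748632)) (l 16749560)) (a (l 16745552) (l 16740968)))) (a (b (a (b (l 16750984) (l 16757688)) (c (l 16750624) (l 16750184))) (a (b (c (l 64592241607) (l 91435785463)) (l 3)) (b (l 16759824) (l 92509529335)))) (a (b (l 16751048) (c (l 16756840) (l 16759080))) (b (l 16746456) (l 16752056)))))), by decide +kernel⟩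

def k37_pp_012_a : ∃ t, chk3 f_pp_012_a t 14 7 1 = true :=
  ⟨(b (a (l 3) (b (a (l 3) (b (a (l 3) (a (l 3) (b (a (b (l 78550893255) (l 3)) (b (l 16756312) (l 81772120519))) (l 3)))) (l 3))) (l 3))) (l 3)), by decide +kernel⟩

def k38_pp_012_a : ∃ t, chk3 f_pp_012_a t 15 6 1 = true :=
  ⟨(b (b (a (a (a (b (l 16674072) (l 16683040)) (b (l 16666600) (l 16675504))) (b (a (l 16659200) (l 16651856)) (a (l 16668040) (l 16660640)))) (a (a (l 16656792) (l 16641664)) (a (l 16634432) (l 16627208)))) (a (a (b (a (b (l 16689984) (l 16694720)) (l 16684760)) (a (l 16722992) (b (l 16691928) (l 16696832)))) (b (l 16678752) (a (l 16707800) (l 16679328)))) (a (b (l 16669192) (l 16689136)) (a (l 16652368) (l 16644984))))) (b (a (b (a (a (c (l 16733632) (l 16711560)) (l 16704392)) (a (a (l 16698672) (l 16694872)) (l 16710240))) (a (a (a (c (l 16735424) (l 16724064)) (l 16731080)) (c (l 16736320) (l 16714328))) (a (l 16707160) (l 16720512)))) (a (b (l 16688504) (a (l 16707792) (l 16684520)))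 (a (l 16692856) (b (l 16659320) (l 16669440))))) (b (a (a (b (a (c (a (l 16732976) (l 16729112)) (l 16740760)) (l 16733376)) (a (a (l 16743272) (l 16734128)) (l 16738792))) (a (c (l 16739320) (l 16717488)) (l 16731232))) (a (a (l 16723600) (b (l 16692496) (l 16697768))) (a (l 16687544) (l 16679944)))) (a (a (a (a (b (l 16748760) (c (l 16749328) (l 16748896))) (b (l 16739600) (l 16745184))) (a (c (l 16744024) (l 16748712)) (l 16745088))) (a (c (l 16739600) (l 16738992)) (l 16731592))) (a (a (l 16713464) (l 16726792)) (a (a (l 16721144) (l 16717416)) (l 16690656))))))), by decide +kernel⟩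

def k39_pp_012_a : ∃ t, chk3 f_pp_012_a t 60 14 1 = true :=
  ⟨(b (b (b (a (a (b (l 16753360) (c (l 16761624) (l 16761328))) (l 16756112)) (c (l 16755680) (l 16755296))) (a (a (b (a (l 80698380679) (l 16758136)) (l 115594987639)) (c (l 16759384) (l 16759152))) (a (c (l 16763336) (l 16763088)) (l 16759288)))) (a (b (a (l 3) (a (l 94120154039) (b (l 16760048) (l 67276609383)))) (l 3)) (a (a (b (l 16762192) (l 3)) (b (l 16757624) (b (l 16761944) (l 3)))) (b (l 16754672) (a (c (l 16765248) (l 16763888)) (l 16764592)))))) (b (a (l 3) (b (a (l 3) (a (l 3) (b (c (l 16763208) (l 16763104)) (l 3)))) (l 3))) (l 3))), by decide +kernel⟩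

def k40_pp_012_a : ∃ t, chk3 f_pp_012_a t 61 28 1 = true :=
  ⟨(b (b (a (l 16747696) (l 16729472)) (a (a (l 16744896) (l 16741008)) (c (l 16724856) (l 16724568)))) (a (a (b (l 16750752) (l 16761664)) (l 16758848)) (a (l 16756264) (l 16741896)))), by decide +kernel⟩

def k41_pp_012_a : ∃ t, chk3 f_pp_012_a t 61 29 1 = true :=
  ⟨(a (b (a (b (b (l 16762888) (a (a (l 16764216) (l 16764608)) (l 16764472))) (b (a (l 3) (c (b (l 16764464) (l 16765040)) (l 16764272))) (l 3))) (b (l 16761560) (a (b (c (l 16764480) (l 16762400)) (a (l 27548164471) (b (l 16764480) (l 38285582103)))) (b (l 16760504) (b (l 16765064) (a (a (l 16764536) (l 16763984)) (l 16763248))))))) (a (l 3) (b (a (l 3) (b (c (b (a (l 52244225943) (c (l 23790067607) (l 16764568))) (l 62981642919)) (b (l 10905165927) (l 47412387879))) (l 3))) (l 3)))) (a (b (b (l 16753712) (a (l 16763112) (l 16763120))) (b (b (a (a (b (l 16763568) (a (b (l 25937551575) (l 16765400)) (l 31306260359))) (c (l 16765928) (l 16763168)))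 (l 16764392)) (b (a (c (b (a (l 22179457239) (l 43117420647)) (a (l 3) (a (l 16765792) (l 33990616359)))) (c (l 34527486583) (l 72645317223))) (a (l 16764704) (l 16763232))) (a (l 3) (c (a (a (b (l 30232520375) (l 3)) (l 45801776023)) (l 16764936)) (c (l 24863810455) (l 16764888)))))) (b (b (a (l 3) (a (l 3) (a (b (a (l 16765872) (l 16766296)) (l 3)) (c (l 44728034775) (l 16765512))))) (l 3)) (l 3)))) (a (b (l 16759256) (b (c (l 16764288) (l 16763672)) (b (a (a (b (l 16765280) (b (a (l 16766200) (l 16766624)) (l 3))) (b (l 16765944) (b (l 16765616) (a (l 16766360) (l 16766792))))) (b (l 16763896) (c (l 16765608) (l 16765128)))) (a (l 3) (b (a (b (a (l 16766528) (l 16766960)) (l 3)) (b (l 16766608) (a (l 16766696) (l 16767128)))) (l 3)))))) (b (l 16756648) (b (l 16764400) (b (l 16764720) (c (b (a (l 16766024) (l 16764632)) (a (a (b (l 16767152) (l 3)) (b (l 16766360) (l 16767320))) (l 36138101639))) (a (a (l 23253199975) (l 22716328743)) (l 16765800))))))))), by decide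 +kernel⟩

def k42_pp_012_a : ∃ t, chk3 f_pp_012_a t 30 15 1 = true :=
  ⟨(b (a (l 3) (b (a (l 3) (b (a (l 3) (b (a (l 3) (a (l 3) (b (a (b (l 16273880071) (l 3)) (b (l 16766952) (l 15737009495))) (l 3)))) (l 3))) (l 3))) (l 3))) (l 3)), by decide +kernel⟩

def k43_pp_012_a : ∃ t, chk3 f_pp_012_a t 31 14 1 = true :=
  ⟨(a (b (b (b (a (l 16721792) (l 16714152)) (l 16730192)) (a (l 16746568) (l 16738872))) (b (a (a (l 16753728) (l 16744592)) (a (l 16740720) (l 16736856))) (a (a (b (l 16761464) (a (b (l 16761120) (l 16765392)) (l 16763096))) (b (l 16752312) (l 16760152))) (a (b (l 16748416) (l 16753640)) (l 16752408))))) (b (a (b (l 16709336) (l 16720728)) (b (a (l 16703648) (l 16699912)) (l 16723568))) (a (b (a (l 16733016) (l 16729200)) (a (l 16748560) (l 16739512))) (b (a (l 16725400) (l 16721616)) (a (l 16735592) (l 16736816)))))), by decide +kernel⟩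

def k44_pp_012_a : ∃ t, chk3 f_pp_012_a t 31 15 1 = true :=
  ⟨(a (a (b (b (b (b (a (a (c (a (b (l 33990618679) (b (a (l 16767496) (l 16767040)) (l 22716332183))) (b (l 16765312) (l 16767088))) (a (a (l 21105717623) (l 20568846375)) (l 16766480))) (l 16766392)) (l 16764112)) (a (a (a (l 3) (b (a (a (l 3) (l 17347623383)) (b (l 16767632) (l 16767928))) (l 3))) (a (a (c (b (l 16767224) (l 24863816855)) (l 17884493511)) (b (l 16767976) (l 28621911991))) (a (b (l 16766176) (l 16767832)) (l 16767008)))) (c (l 16767160) (l 16766704)))) (a (b (b (a (l 3) (c (b (l 40433072791) (l 46875523479)) (l 38285588199))) (l 3)) (l 3)) (b (a (a (b (l 14126398071) (l 32916880391)) (c (l 16768688) (l 16767888))) (l 16768472)) (a (a (l 3) (b (l 30769398103) (l 3))) (a (b (l 18958237975) (l 46338654855)) (b (l 16767376) (l 29695656567))))))) (b (a (l 3) (b (a (l 3) (b (c (l 52781106375) (l 52244234583)) (l 3))) (l 3))) (l 3))) (l 3)) (b (b (b (a (l 16761544) (l 16755056)) (b (a (l 16765552)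 (l 16759064)) (a (a (l 16769184) (l 16764624)) (l 16761728)))) (b (a (b (a (a (b (a (l 43654300631) (l 16768760)) (l 53854848503)) (b (l 16768032) (c (l 39359333975) (l 16769240)))) (c (l 16769896) (l 16768472))) (a (a (l 3) (l 6)) (l 6))) (l 6)) (l 6))) (l 6))) (b (a (b (b (a (l 16751224) (l 16747176)) (l 6)) (l 6)) (l 6)) (l 6))), by decide +kernel⟩

theorem s45_pp_012_a : ∃ t, chk3 f_pp_012_a t 31 7 1 = true := ex3_b k43_pp_012_a k44_pp_012_a

theorem s46_pp_012_a : ∃ t, chk3 f_pp_012_a t 61 14 1 = true := ex3_b k40_pp_012_a k41_pp_012_a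

theorem s47_pp_012_a : ∃ t, chk3 f_pp_012_a t 30 14 1 = true := ex3_a k39_pp_012_a s46_pp_012_a

theorem s48_pp_012_a : ∃ t, chk3 f_pp_012_a t 30 7 1 = true := ex3_b s47_pp_012_a k42_pp_012_a

theorem s49_pp_012_a : ∃ t, chk3 f_pp_012_a t 15 7 1 = true := ex3_a s48_pp_012_a s45_pp_012_a

theorem s50_pp_012_a : ∃ t, chk3 f_pp_012_a t 15 3 1 = true := ex3_b k38_pp_012_a s49_pp_012_a

theorem s51_pp_012_a : ∃ t, chk3 f_pp_012_a t 59 13 1 = true := ex3_b k35_pp_012_a k36_pp_012_a

theorem s52_pp_012_a : ∃ t, chk3 f_pp_012_a t 29 13 1 = true := ex3_a k34_pp_012_a s51_pp_012_a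

theorem s53_pp_012_a : ∃ t, chk3 f_pp_012_a t 29 6 1 = true := ex3_b k33_pp_012_a s52_pp_012_a

theorem s54_pp_012_a : ∃ t, chk3 f_pp_012_a t 28 12 1 = true := ex3_b k30_pp_012_a k31_pp_012_a

theorem s55_pp_012_a : ∃ t, chk3 f_pp_012_a t 28 6 1 = true := ex3_b s54_pp_012_a k32_pp_012_a

theorem s56_pp_012_a : ∃ t, chk3 f_pp_012_a t 14 6 1 = true := ex3_a s55_pp_012_a s53_pp_012_a

theorem s57_pp_012_a : ∃ t, chk3 f_pp_012_a t 14 3 1 = true := ex3_b s56_pp_012_a k37_pp_012_a

theorem s58_pp_012_a : ∃ t, chk3 f_pp_012_a t 7 3 1 = true := ex3_a s57_pp_012_a s50_pp_012_a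

theorem s59_pp_012_a : ∃ t, chk3 f_pp_012_a t 7 1 1 = true := ex3_b k29_pp_012_a s58_pp_012_a

theorem s60_pp_012_a : ∃ t, chk3 f_pp_012_a t 27 11 1 = true := ex3_a k26_pp_012_a k27_pp_012_a

theorem s61_pp_012_a : ∃ t, chk3 f_pp_012_a t 27 5 1 = true := ex3_b k25_pp_012_a s60_pp_012_a

theorem s62_pp_012_a : ∃ t, chk3 f_pp_012_a t 13 5 1 = true := ex3_a k24_pp_012_a s61_pp_012_a

theorem s63_pp_012_a : ∃ t, chk3 f_pp_012_a t 13 2 1 = true := ex3_b k23_pp_012_a s62_pp_012_a

theorem s64_pp_012_a : ∃ t, chk3 f_pp_012_a t 25 20 1 = true := ex3_a k19_pp_012_a k20_pp_012_a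

theorem s65_pp_012_a : ∃ t, chk3 f_pp_012_a t 25 10 1 = true := ex3_b s64_pp_012_a k21_pp_012_a

theorem s66_pp_012_a : ∃ t, chk3 f_pp_012_a t 25 5 1 = true := ex3_b s65_pp_012_a k22_pp_012_a

theorem s67_pp_012_a : ∃ t, chk3 f_pp_012_a t 12 5 1 = true := ex3_a k18_pp_012_a s66_pp_012_a

theorem s68_pp_012_a : ∃ t, chk3 f_pp_012_a t 49 19 1 = true := ex3_a k15_pp_012_a k16_pp_012_a

theorem s69_pp_012_a : ∃ t, chk3 f_pp_012_a t 24 19 1 = true := ex3_a k14_pp_012_a s68_pp_012_a

theorem s70_pp_012_a : ∃ t, chk3 f_pp_012_a t 24 18 1 = true := ex3_a k12_pp_012_a k13_pp_012_a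

theorem s71_pp_012_a : ∃ t, chk3 f_pp_012_a t 24 9 1 = true := ex3_b s70_pp_012_a s69_pp_012_a

theorem s72_pp_012_a : ∃ t, chk3 f_pp_012_a t 24 4 1 = true := ex3_b k11_pp_012_a s71_pp_012_a

theorem s73_pp_012_a : ∃ t, chk3 f_pp_012_a t 12 4 1 = true := ex3_a s72_pp_012_a k17_pp_012_a

theorem s74_pp_012_a : ∃ t, chk3 f_pp_012_a t 12 2 1 = true := ex3_b s73_pp_012_a s67_pp_012_a

theorem s75_pp_012_a : ∃ t, chk3 f_pp_012_a t 6 2 1 = true := ex3_a s74_pp_012_a s63_pp_012_a

theorem s76_pp_012_a : ∃ t, chk3 f_pp_012_a t 6 1 1 = true := ex3_b s75_pp_012_a k28_pp_012_a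

theorem s77_pp_012_a : ∃ t, chk3 f_pp_012_a t 3 1 1 = true := ex3_a s76_pp_012_a s59_pp_012_a

theorem s78_pp_012_a : ∃ t, chk3 f_pp_012_a t 23 8 1 = true := ex3_a k6_pp_012_a k7_pp_012_a

theorem s79_pp_012_a : ∃ t, chk3 f_pp_012_a t 23 4 1 = true := ex3_b s78_pp_012_a k8_pp_012_a

theorem s80_pp_012_a : ∃ t, chk3 f_pp_012_a t 22 16 1 = true := ex3_a k2_pp_012_a k3_pp_012_a

theorem s81_pp_012_a : ∃ t, chk3 f_pp_012_a t 22 8 1 = true := ex3_b s80_pp_012_a k4_pp_012_a

theorem s82_pp_012_a : ∃ t, chk3 f_pp_012_a t 22 4 1 = true := ex3_b s81_pp_012_a k5_pp_012_a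

theorem s83_pp_012_a : ∃ t, chk3 f_pp_012_a t 11 4 1 = true := ex3_a s82_pp_012_a s79_pp_012_a

theorem s84_pp_012_a : ∃ t, chk3 f_pp_012_a t 11 2 1 = true := ex3_b s83_pp_012_a k9_pp_012_a

theorem s85_pp_012_a : ∃ t, chk3 f_pp_012_a t 5 2 1 = true := ex3_a k1_pp_012_a s84_pp_012_a

theorem s86_pp_012_a : ∃ t, chk3 f_pp_012_a t 5 1 1 = true := ex3_b s85_pp_012_a k10_pp_012_a

theorem s87_pp_012_a : ∃ t, chk3 f_pp_012_a t 2 1 1 = true := ex3_a k0_pp_012_a s86_pp_012_a

theorem s88_pp_012_a : ∃ t, chk3 f_pp_012_a t 1 1 1 = true := ex3_a s87_pp_012_a s77_pp_012_a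

theorem c_pp_012_a : CertB 0 536870912 0 536870912 649613803 48318383 3 eng mog cd0q0 cd2q2a pd1 false true true .pnp 0 1 2
    ndB0q0 ndB2q2a pcB1 cut_pp_012_a Ext.none :=
  certB2 (fam := false) (s1 := true) (s2 := true) (a := 0) (b := 1) (c := 2) (cn := .pnp) (n1 := ndB0q0) (n2 := ndB2q2a) (pc := pcB1) (cut := cut_pp_012_a) (xt := Ext.none) (P1 := 0) (W1 := 536870912) (P2 := 0) (W2 := 536870912) (P3 := 649613803) (W3 := 48318383) (N0 := 3) (En := eng) (mo := mog) (C1 := cd0q0) (C2 := cd2q2a) (C3 := pd1)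
    rfl (fun _ => rfl) s88_pp_012_a

noncomputable def cut_pp_012_b : Cut := Cut.of [[⟨0, 0, 0, 53687091⟩, ⟨1, 1, 0, 53687091⟩, ⟨2, 1, 0, 53687091⟩]]

noncomputable def f_pp_012_b : ℕ → ℕ → ℕ → ℕ → Bool := onCell 536870912 536870912 1239849684 370763052 649613803 48318383
    (rowB 3 eng mog cd0q0 cd2q2b pd1 2 false true true .pnp 0 1 2 (qsf 0 536870912 1239849684 370763052 1) ndB0q0 ndB2q2b pcB1 cut_pp_012_b Ext.none)

def k0_pp_012_b : ∃ t, chk3 f_pp_012_b t 2 1 1 = true :=
  ⟨(b (a (l 2) (a (l 3) (b (a (a (b (a (l 3) (b (a (b (b (b (a (l 3) (b (a (l 3) (b (a (l 3) (a (l 134922359367) (l 16771312))) (l 146196647943))) (l 3))) (l 3)) (l 3)) (l 3)) (b (a (b (a (b (b (a (l 16770872) (l 16770544)) (l 93583296455)) (l 132238000295)) (b (l 16769656) (l 16768128))) (l 138680449783)) (b (c (l 16768648) (l 16767120)) (l 16764792))) (l 140827929047))) (l 3))) (l 3)) (b (b (a (b (a (b (l 16771024) (l 16762712)) (l 16771872)) (b (l 16768728) (l 16765720))) (b (b (l 16758600)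 (l 16755416)) (l 16750792))) (a (a (l 133311735223) (l 16767504)) (l 16763136))) (a (l 3) (b (l 16731632) (l 2))))) (b (a (b (a (b (l 16750960) (l 16744592)) (b (l 16744560) (l 16738064))) (c (l 16754632) (l 16772976))) (b (a (l 16755480) (l 16727496)) (l 16739096))) (a (b (l 16763784) (l 16734016)) (b (l 16706680) (l 16697248))))) (a (l 2) (b (a (l 2) (b (l 16690304) (l 2))) (l 2)))))) (l 2)), by decide +kernel⟩

def k1_pp_012_b : ∃ t, chk3 f_pp_012_b t 6 1 1 = true :=
  ⟨(b (a (b (a (b (b (a (a (b (l 16723824) (l 16716832)) (l 16734600)) (l 16724368)) (a (a (l 16706968) (l 16699392)) (l 16688776))) (a (b (l 16690768) (l 16680096)) (b (l 16696336) (l 16662984)))) (b (b (a (l 16710864) (l 16696616)) (a (l 16674232) (l 16658896))) (b (a (l 16659976) (l 16643800)) (a (l 16646904) (l 16630072))))) (b (a (a (l 16689680) (l 16712152)) (a (l 16672904) (l 16612160))) (a (l 2) (a (l 16619824) (l 16598216))))) (b (b (a (b (a (l 16660440) (l 16645768)) (a (l 16642408) (l 16626392)))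 (a (b (l 16631464) (l 16610712)) (b (l 16617784) (l 16595592)))) (a (b (a (l 16626328) (l 16609192)) (a (l 16611728) (l 16593768))) (b (a (l 16592312) (l 16575912)) (a (l 16575944) (l 16558480))))) (b (a (a (l 16655488) (l 16636072)) (b (l 16593944) (l 16538208))) (a (b (l 16567152) (l 16560352)) (b (l 16526480) (l 16516312)))))) (a (l 2) (b (a (b (l 16599072) (l 2)) (b (l 16527696) (l 16506008))) (l 2)))), by decide +kernel⟩

def k2_pp_012_b : ∃ t, chk3 f_pp_012_b t 7 1 1 = true :=
  ⟨(b (b (a (b (a (b (a (l 16604840) (l 16592632)) (a (l 16581104) (l 16567288))) (b (a (l 16581112) (l 16570824)) (a (l 16553992) (l 16541800)))) (a (b (a (l 16560024) (l 16544744)) (a (l 16541424) (l 16524904))) (b (a (l 16529808) (l 16515720)) (a (l 16508592) (l 16492736))))) (b (b (a (l 16557616) (l 16547008)) (a (l 16526080) (l 16509720))) (a (b (a (l 16502864) (l 16491472)) (a (l 16477960) (l 16464472))) (b (l 16477520) (l 16457816))))) (a (a (b (b (a (l 16524976) (l 16507368)) (a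 (l 16510328) (l 16491992))) (b (l 16487848) (l 16476128))) (b (a (b (l 16489992) (l 16473816)) (b (l 16472736) (l 16455512))) (a (b (l 16459952) (l 16447184)) (b (l 16440856) (l 16427968))))) (a (b (b (a (l 16456248) (l 16440840)) (l 16512856)) (b (l 16433544) (l 16398664))) (b (b (l 16567208) (l 16439008)) (b (l 16377344) (l 16360864)))))) (b (a (b (a (b (l 16465664) (l 16457928)) (a (l 16430800) (l 16410760))) (a (l 16452800) (l 16404920))) (b (a (b (l 16386536) (l 16375160)) (b (l 16347064) (l 16335296))) (a (b (l 16365512) (l 16357032)) (b (l 16324176) (l 16315184))))) (a (a (l 2) (b (l 16403264) (l 2))) (b (a (l 16350960) (l 16326608)) (a (l 16358976) (l 16301736)))))), by decide +kernel⟩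

theorem s3_pp_012_b : ∃ t, chk3 f_pp_012_b t 3 1 1 = true := ex3_a k1_pp_012_b k2_pp_012_b

theorem s4_pp_012_b : ∃ t, chk3 f_pp_012_b t 1 1 1 = true := ex3_a k0_pp_012_b s3_pp_012_b

theorem c_pp_012_b : CertB 0 536870912 1239849684 370763052 649613803 48318383 3 eng mog cd0q0 cd2q2b pd1 false true true .pnp 0 1 2
    ndB0q0 ndB2q2b pcB1 cut_pp_012_b Ext.none :=
  certB2 (fam := false) (s1 := true) (s2 := true) (a := 0) (b := 1) (c := 2) (cn := .pnp) (n1 := ndB0q0) (n2 := ndB2q2b) (pc := pcB1) (cut := cut_pp_012_b) (xt := Ext.none) (P1 := 0) (W1 := 536870912) (P2 := 1239849684) (W2 := 370763052) (P3 := 649613803) (W3 := 48318383) (N0 := 3) (En := eng) (mo := mog) (C1 := cd0q0) (C2 := cd2q2b) (C3 := pd1)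
    rfl (fun _ => rfl) s4_pp_012_b

noncomputable def cut_pp_022_a : Cut := Cut.of [[⟨0, 0, 0, 67108864⟩, ⟨1, 1, 0, 67108864⟩, ⟨2, 1, 0, 67108864⟩]]

noncomputable def f_pp_022_a : ℕ → ℕ → ℕ → ℕ → Bool := onCell 1073741824 536870912 0 536870912 649613803 48318383
    (rowB 3 eng mog cd0q0 cd2q2a pd2 2 false true true .pp 0 2 2 (qsf 0 536870912 0 536870912 2) ndB0q0 ndB2q2a pcB2 cut_pp_022_a Ext.none)

def k0_pp_022_a : ∃ t, chk3 f_pp_022_a t 8 2 1 = true :=
  ⟨(b (a (b (a (a (l 16529368) (a (l 16556584) (l 16553768))) (b (l 16523320) (l 16570160))) (a (b (c (l 16546856) (l 16544400)) (c (l 16574768) (a (l 16555096) (l 16549192)))) (c (b (l 16535696) (l 16563664)) (b (l 16532840) (l 16540312))))) (b (a (b (l 16512592) (l 16538240)) (b (l 16502336) (l 16527648))) (a (b (c (l 16524664) (l 16521416)) (c (l 16531592) (l 16528504))) (a (b (l 16514912) (l 16521720)) (b (l 16509528) (l 16516136)))))) (b (a (b (a (c (l 16567480) (c (l 16582528) (l 16560856))) (c (c (l 16572440)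 (l 16550728)) (a (l 16552128) (l 16546016)))) (a (b (c (l 16578112) (l 16569640)) (l 16576576)) (b (c (a (l 16582784) (l 16556136)) (l 16588664)) (l 16564472)))) (b (c (a (l 16560872) (l 16528672)) (a (l 16536816) (l 16524576))) (a (b (c (l 16568544) (l 16544592)) (c (l 16574504) (l 16550432))) (c (b (l 16536096) (l 16541816)) (b (l 16531904) (l 16537504)))))) (a (b (a (a (b (l 16586464) (l 16593808)) (b (l 16580288) (l 16587448))) (b (l 16591880) (l 16598744))) (a (a (b (l 16601552) (l 16620088)) (b (l 16594992) (l 16602832))) (b (l 16605976) (l 16613480)))) (b (a (b (l 16558280) (l 16564720)) (l 16569568)) (a (b (l 16571496) (l 16578528)) (b (l 16557872) (l 16564392))))))), by decide +kernel⟩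

def k1_pp_022_a : ∃ t, chk3 f_pp_022_a t 8 3 1 = true :=
  ⟨(b (a (a (b (b (a (b (l 16625872) (l 16626776)) (b (l 16611008) (l 16619528))) (b (a (l 16635864) (l 16628352)) (l 16641400))) (a (b (l 16649600) (b (l 16675520) (l 16684832))) (b (l 16651824) (l 16682296)))) (b (b (b (l 16621296) (l 16629424)) (b (l 16637840) (l 16646536))) (c (b (l 16640616) (a (l 16663936) (l 16676184))) (b (b (l 16632808) (l 16642080)) (b (l 16672608) (l 16682216)))))) (b (b (a (b (l 16585832) (l 16593408)) (b (l 16571168) (l 16578216))) (a (b (l 16601248) (l 16609344)) (b (l 16585464) (l 16592936)))) (b (a (a (l 16626352) (l 16617680)) (b (l 16600616) (l 16608480))) (a (b (l 16656088) (a (l 16648728) (l 16639088))) (b (l 16616456) (a (l 16629288) (l 16619320))))))) (a (b (b (b (a (a (l 16693680) (l 16687304)) (a (l 16677664) (l 16667880))) (a (a (a (l 16703352) (l 16701816)) (l 16697952)) (a (l 16687872) (l 16693360)))) (l 6)) (l 6)) (b (b (a (b (a (l 16657928) (l 16647792)) (a (l 16667176)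 (l 16656488))) (b (a (l 16637472) (l 16626928)) (a (b (l 16643640) (l 6)) (c (l 16638048) (l 16630320))))) (a (l 6) (a (l 6) (a (l 6) (l 1))))) (a (l 6) (l 1))))), by decide +kernel⟩

def k2_pp_022_a : ∃ t, chk3 f_pp_022_a t 9 1 1 = true :=
  ⟨(b (b (a (b (a (a (l 16518096) (l 16513312)) (c (l 16487152) (l 16483160))) (a (c (b (l 16503456) (l 16509880)) (b (l 16499320) (l 16505328))) (b (c (l 16493544) (l 16488872)) (c (l 16499536) (l 16494208))))) (b (c (a (l 16478784) (l 16471456)) (a (l 16485000) (l 16466768))) (c (a (l 16476712) (l 16478448)) (a (l 16502432) (b (l 16469944) (l 16473608)))))) (b (c (a (b (a (l 16517560) (l 16506776)) (a (l 16558896) (l 16516120))) (a (b (l 16496440) (l 16505120)) (b (l 16486560) (l 16494368)))) (b (a (a (l 16512456) (l 16500656)) (a (l 16489280) (l 16478296))) (a (a (l 16521960) (l 16509416)) (a (l 16497184) (l 16485128))))) (b (a (a (l 16535800) (a (l 16526344) (l 16520128))) (c (a (l 16514832) (l 16503176)) (a (l 16506032) (l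 16492960)))) (a (a (l 16547328) (l 16533648)) (a (l 16519976) (l 16527088)))))) (b (b (b (a (a (l 16559768) (l 16544784)) (a (l 16547896) (c (l 16519672) (l 16507088)))) (a (a (b (l 16569568) (l 16576328)) (b (l 16553440) (l 16559336))) (a (c (l 16544816) (l 16554064)) (l 1)))) (a (b (a (b (l 16583200) (l 16590168)) (b (l 16565248) (l 16592136))) (a (b (c (l 16601368) (l 16592448)) (a (l 16609104) (l 16598648))) (b (a (l 16582144) (l 1)) (l 1)))) (b (a (b (l 16546472) (l 1)) (l 1)) (l 1)))) (b (a (b (a (b (a (l 16616080) (l 16604952)) (a (l 16622824) (l 1))) (l 1)) (l 1)) (l 1)) (l 1)))), by decide +kernel⟩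

def k3_pp_022_a : ∃ t, chk3 f_pp_022_a t 5 1 1 = true :=
  ⟨(b (a (b (b (a (a (b (l 16462576) (l 16463352)) (b (l 16517480) (l 16456960))) (l 1)) (a (c (a (l 16470336) (l 16462704)) (a (b (l 16461384) (l 16463968)) (b (l 16453184) (l 16454496)))) (l 1))) (a (b (a (c (b (l 16477016) (l 16483720)) (b (l 16467504) (l 16473064))) (a (c (l 16473000) (l 16461768)) (l 1))) (a (b (b (l 16505352) (l 16487584)) (l 16512776)) (l 1))) (l 1))) (l 1)) (b (l 1) (l 1))), by decide +kernel⟩

def k4_pp_022_a : ∃ t, chk3 f_pp_022_a t 3 1 1 = true :=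
  ⟨(l 1), by decide +kernel⟩

theorem s5_pp_022_a : ∃ t, chk3 f_pp_022_a t 8 1 1 = true := ex3_b k0_pp_022_a k1_pp_022_a

theorem s6_pp_022_a : ∃ t, chk3 f_pp_022_a t 4 1 1 = true := ex3_a s5_pp_022_a k2_pp_022_a

theorem s7_pp_022_a : ∃ t, chk3 f_pp_022_a t 2 1 1 = true := ex3_a s6_pp_022_a k3_pp_022_a

theorem s8_pp_022_a : ∃ t, chk3 f_pp_022_a t 1 1 1 = true := ex3_a s7_pp_022_a k4_pp_022_a

theorem c_pp_022_a : CertB 0 536870912 0 536870912 649613803 48318383 3 eng mog cd0q0 cd2q2a pd2 false true true .pp 0 2 2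
    ndB0q0 ndB2q2a pcB2 cut_pp_022_a Ext.none :=
  certB2 (fam := false) (s1 := true) (s2 := true) (a := 0) (b := 2) (c := 2) (cn := .pp) (n1 := ndB0q0) (n2 := ndB2q2a) (pc := pcB2) (cut := cut_pp_022_a) (xt := Ext.none) (P1 := 0) (W1 := 536870912) (P2 := 0) (W2 := 536870912) (P3 := 649613803) (W3 := 48318383) (N0 := 3) (En := eng) (mo := mog) (C1 := cd0q0) (C2 := cd2q2a) (C3 := pd2)
    rfl (fun _ => rfl) s8_pp_022_a

noncomputable def cut_pp_022_b : Cut := Cut.of [[⟨0, 0, 0, 67108864⟩, ⟨1, 1, 0, 67108864⟩, ⟨2, 1, 0, 67108864⟩]]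

noncomputable def f_pp_022_b : ℕ → ℕ → ℕ → ℕ → Bool := onCell 0 536870912 1073741824 536870912 649613803 48318383
    (rowB 3 eng mog cd0q0 cd2q2b pd2 1 false true true .pp 0 2 2 (qsf 0 536870912 1239849684 370763052 2) ndB0q0 ndB2q2b pcB2 cut_pp_022_b Ext.none)

def k0_pp_022_b : ∃ t, chk3 f_pp_022_b t 2 1 1 = true :=
  ⟨(b (b (a (b (a (l 1) (b (a (l 1) (b (l 1) (a (l 1) (l 216928993175)))) (a (b (l 1) (a (l 1) (l 192769753559))) (b (a (l 189011702311) (l 201896521879)) (l 264710277111))))) (a (b (a (l 1) (b (l 1) (l 230887536407))) (a (b (l 1) (c (l 112239132855) (l 206728329191))) (b (l 146061925767) (l 16495600)))) (b (a (b (l 218002568647) (l 149283081047)) (l 16462120)) (a (l 16484784) (l 16373968))))) (b (b (a (a (b (l 269005336519) (l 245919848519)) (b (l 16501784) (l 16470192))) (a (l 16442272) (l 16397920))) (a (a (l 16473352) (l 16420864)) (l 16461096))) (a (b (l 16458096) (l 16368568)) (c (l 16392328) (l 16368296))))) (a (b (a (a (b (b (b (l 70900069495)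 (l 16547912)) (a (l 16534104) (l 16423872))) (b (a (c (l 16428920) (l 16418048)) (l 16451552)) (l 16436824))) (b (l 16507480) (b (l 16412752) (l 16322512)))) (b (l 16500352) (b (l 16391168) (l 16291704)))) (a (b (a (b (l 16339640) (l 16306920)) (l 16280848)) (a (l 16263472) (l 16232608))) (a (l 16219400) (l 16183472)))) (b (a (b (l 16260448) (b (l 16191704) (l 16169144))) (b (l 16178040) (b (l 16136624) (l 16119736)))) (a (l 16127984) (l 16081000))))) (b (a (b (a (a (l 16195880) (l 16179216)) (l 16175560)) (a (b (a (l 16152640) (l 16147984)) (l 16139960)) (b (l 16141456) (l 16145752)))) (b (a (l 16122816) (l 16086488)) (a (l 16144072) (l 16144808)))) (a (a (b (b (l 16139480) (l 16147336)) (l 16172056)) (b (l 16165744) (l 16210872))) (b (l 16375792) (l 2))))), by decide +kernel⟩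

def k1_pp_022_b : ∃ t, chk3 f_pp_022_b t 3 1 1 = true :=
  ⟨(b (a (a (b (a (b (b (l 16381304) (l 16307304)) (l 16314424)) (b (b (l 16330472) (l 16284384)) (l 16280424))) (b (b (l 16154304) (b (l 16121488) (l 16112120))) (l 16098384))) (b (b (a (b (l 16307608) (l 16267752)) (b (l 16289984) (l 16255392))) (a (l 16209824) (l 16205064))) (b (b (l 16155088) (l 16212864)) (l 16135616)))) (b (a (b (a (b (l 16275552) (l 16245232)) (l 16249160)) (a (l 16201104) (l 16196728))) (b (b (l 16251040) (l 16229536)) (l 16198448))) (b (a (b (l 16158216) (l 2)) (l 2)) (l 2)))) (b (a (b (a (l 16037712) (l 2)) (l 2)) (l 2)) (l 2))), by decide +kernel⟩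

theorem s2_pp_022_b : ∃ t, chk3 f_pp_022_b t 1 1 1 = true := ex3_a k0_pp_022_b k1_pp_022_b

theorem c_pp_022_b : CertB 0 536870912 1239849684 370763052 649613803 48318383 3 eng mog cd0q0 cd2q2b pd2 false true true .pp 0 2 2
    ndB0q0 ndB2q2b pcB2 cut_pp_022_b Ext.none :=
  certB1 (fam := false) (s1 := true) (s2 := true) (a := 0) (b := 2) (c := 2) (cn := .pp) (n1 := ndB0q0) (n2 := ndB2q2b) (pc := pcB2) (cut := cut_pp_022_b) (xt := Ext.none) (P1 := 0) (W1 := 536870912) (P2 := 1239849684) (W2 := 370763052) (P3 := 649613803) (W3 := 48318383) (N0 := 3) (En := eng) (mo := mog) (C1 := cd0q0) (C2 := cd2q2b) (C3 := pd2)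
    rfl (fun _ => rfl) s2_pp_022_b

noncomputable def f_pp_023 : ℕ → ℕ → ℕ → ℕ → Bool := onCell 0 536870912 1073741824 536870912 649613803 48318383
    (rowB 3 eng mog cd0q0 cd2q3 pd2 1 false true true .up 0 2 3 (qsf 0 536870912 1610612736 536870912 2) ndB0q0 ndB2q3 pcB2 Cut.none Ext.none)

def k0_pp_023 : ∃ t, chk3 f_pp_023 t 1 1 1 = true :=
  ⟨(a (b (b (l 1) (a (l 1) (b (l 1) (a (l 1) (l 16182456))))) (b (a (b (l 1) (a (l 1) (l 272226312263))) (b (l 224444708119) (a (l 16116160) (l 16095480)))) (a (b (l 342019535735) (l 350609507255)) (a (l 16295856) (l 16191736))))) (b (a (b (a (l 1) (b (l 1) (l 139082512215))) (b (a (b (l 1) (l 287258416983)) (b (l 16177024) (l 16282264))) (a (l 16315888) (l 16176864)))) (b (a (b (l 151967516295) (l 158946707591)) (b (l 169684130903) (l 16248992))) (b (a (b (l 16196760) (l 16184472)) (b (l 16228184) (l 16222584))) (a (l 16220904) (l 16272056))))) (b (a (b (a (l 16098800) (l 16191728)) (a (l 16046168) (l 16256248))) (b (l 16423520)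 (a (l 16402464) (l 16493744)))) (a (a (l 16326936) (l 16458696)) (l 16619360))))), by decide +kernel⟩

theorem c_pp_023 : CertB 0 536870912 1610612736 536870912 649613803 48318383 3 eng mog cd0q0 cd2q3 pd2 false true true .up 0 2 3
    ndB0q0 ndB2q3 pcB2 Cut.none Ext.none :=
  certB1 (fam := false) (s1 := true) (s2 := true) (a := 0) (b := 2) (c := 3) (cn := .up) (n1 := ndB0q0) (n2 := ndB2q3) (pc := pcB2) (cut := Cut.none) (xt := Ext.none) (P1 := 0) (W1 := 536870912) (P2 := 1610612736) (W2 := 536870912) (P3 := 649613803) (W3 := 48318383) (N0 := 3) (En := eng) (mo := mog) (C1 := cd0q0) (C2 := cd2q3) (C3 := pd2)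
    rfl (fun _ => rfl) k0_pp_023

noncomputable def f_pp_033 : ℕ → ℕ → ℕ → ℕ → Bool := onCell 0 536870912 1610612736 536870912 649613803 48318383
    (rowB 3 eng mog cd0q0 cd2q3 pd3 1 false true true .pnn 0 3 3 (qsf 0 536870912 1610612736 536870912 3) ndB0q0 ndB2q3 pcB3 Cut.none Ext.none)

def k0_pp_033 : ∃ t, chk3 f_pp_033 t 1 1 1 = true :=
  ⟨(a (b (b (a (b (a (l 16104624) (l 16130608)) (l 16130424)) (b (l 16262976) (l 16322872))) (b (a (l 16199616) (l 16378872)) (a (b (l 16263248) (l 4)) (l 4)))) (a (l 4) (b (l 4) (a (b (l 4) (l 2)) (l 2))))) (b (a (b (b (l 16491344) (l 16544304)) (b (a (l 16517504) (l 16595568)) (l 4))) (b (b (l 16417064) (l 16648872)) (a (b (l 16651832) (l 2)) (l 2)))) (a (b (a (b (l 4) (l 2)) (l 2)) (l 2)) (l 2)))), by decide +kernel⟩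

theorem c_pp_033 : CertB 0 536870912 1610612736 536870912 649613803 48318383 3 eng mog cd0q0 cd2q3 pd3 false true true .pnn 0 3 3
    ndB0q0 ndB2q3 pcB3 Cut.none Ext.none :=
  certB1 (fam := false) (s1 := true) (s2 := true) (a := 0) (b := 3) (c := 3) (cn := .pnn) (n1 := ndB0q0) (n2 := ndB2q3) (pc := pcB3) (cut := Cut.none) (xt := Ext.none) (P1 := 0) (W1 := 536870912) (P2 := 1610612736) (W2 := 536870912) (P3 := 649613803) (W3 := 48318383) (N0 := 3) (En := eng) (mo := mog) (C1 := cd0q0) (C2 := cd2q3) (C3 := pd3)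
    rfl (fun _ => rfl) k0_pp_033

noncomputable def f_pp_101 : ℕ → ℕ → ℕ → ℕ → Bool := onCell 536870912 536870912 536870912 536870912 649613803 48318383
    (rowB 3 eng mog cd0q1 cd2q1 pd0 0 false true true .npn 1 0 1 (qsf 536870912 536870912 536870912 536870912 0) ndB0q1 ndB2q1 pcB0 Cut.none Ext.none)

def k0_pp_101 : ∃ t, chk3 f_pp_101 t 1 1 1 = true :=
  ⟨(l 3), by decide +kernel⟩

theorem c_pp_101 : CertB 536870912 536870912 536870912 536870912 649613803 48318383 3 eng mog cd0q1 cd2q1 pd0 false true true .npn 1 0 1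
    ndB0q1 ndB2q1 pcB0 Cut.none Ext.none :=
  certB0 (fam := false) (s1 := true) (s2 := true) (a := 1) (b := 0) (c := 1) (cn := .npn) (n1 := ndB0q1) (n2 := ndB2q1) (pc := pcB0) (cut := Cut.none) (xt := Ext.none) (P1 := 536870912) (W1 := 536870912) (P2 := 536870912) (W2 := 536870912) (P3 := 649613803) (W3 := 48318383) (N0 := 3) (En := eng) (mo := mog) (C1 := cd0q1) (C2 := cd2q1) (C3 := pd0)
    rfl k0_pp_101

noncomputable def f_pp_102_a : ℕ → ℕ → ℕ → ℕ → Bool := onCell 0 536870912 0 536870912 649613803 48318383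
    (rowB 3 eng mog cd0q1 cd2q2a pd0 2 false true true .npp 1 0 2 (qsf 536870912 536870912 0 536870912 0) ndB0q1 ndB2q2a pcB0 Cut.none Ext.none)

def k0_pp_102_a : ∃ t, chk3 f_pp_102_a t 1 1 1 = true :=
  ⟨(a (l 3) (l 3)), by decide +kernel⟩

theorem c_pp_102_a : CertB 536870912 536870912 0 536870912 649613803 48318383 3 eng mog cd0q1 cd2q2a pd0 false true true .npp 1 0 2
    ndB0q1 ndB2q2a pcB0 Cut.none Ext.none :=
  certB2 (fam := false) (s1 := true) (s2 := true) (a := 1) (b := 0) (c := 2) (cn := .npp) (n1 := ndB0q1) (n2 := ndB2q2a) (pc := pcB0) (cut := Cut.none) (xt := Ext.none) (P1 := 536870912) (W1 := 536870912) (P2 := 0) (W2 := 536870912) (P3 := 649613803) (W3 := 48318383) (N0 := 3) (En := eng) (mo := mog) (C1 := cd0q1) (C2 := cd2q2a) (C3 := pd0)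
    rfl (fun _ => rfl) k0_pp_102_a

noncomputable def f_pp_102_b : ℕ → ℕ → ℕ → ℕ → Bool := onCell 536870912 536870912 0 536870912 649613803 48318383
    (rowB 3 eng mog cd0q1 cd2q2b pd0 1 false true true .npp 1 0 2 (qsf 536870912 536870912 1239849684 370763052 0) ndB0q1 ndB2q2b pcB0 Cut.none Ext.none)

def k0_pp_102_b : ∃ t, chk3 f_pp_102_b t 1 1 1 = true :=
  ⟨(l 3), by decide +kernel⟩

theorem c_pp_102_b : CertB 536870912 536870912 1239849684 370763052 649613803 48318383 3 eng mog cd0q1 cd2q2b pd0 false true true .npp 1 0 2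
    ndB0q1 ndB2q2b pcB0 Cut.none Ext.none :=
  certB1 (fam := false) (s1 := true) (s2 := true) (a := 1) (b := 0) (c := 2) (cn := .npp) (n1 := ndB0q1) (n2 := ndB2q2b) (pc := pcB0) (cut := Cut.none) (xt := Ext.none) (P1 := 536870912) (W1 := 536870912) (P2 := 1239849684) (W2 := 370763052) (P3 := 649613803) (W3 := 48318383) (N0 := 3) (En := eng) (mo := mog) (C1 := cd0q1) (C2 := cd2q2b) (C3 := pd0)
    rfl (fun _ => rfl) k0_pp_102_b

noncomputable def f_pp_112_a : ℕ → ℕ → ℕ → ℕ → Bool := onCell 536870912 536870912 0 536870912 649613803 48318383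
    (rowB 3 eng mog cd0q1 cd2q2a pd1 0 false true true .dn 1 1 2 (qsf 536870912 536870912 0 536870912 1) ndB0q1 ndB2q2a pcB1 Cut.none Ext.none)

def k0_pp_112_a : ∃ t, chk3 f_pp_112_a t 1 1 1 = true :=
  ⟨(a (b (l 3) (l 3)) (l 1)), by decide +kernel⟩

theorem c_pp_112_a : CertB 536870912 536870912 0 536870912 649613803 48318383 3 eng mog cd0q1 cd2q2a pd1 false true true .dn 1 1 2
    ndB0q1 ndB2q2a pcB1 Cut.none Ext.none :=
  certB0 (fam := false) (s1 := true) (s2 := true) (a := 1) (b := 1) (c := 2) (cn := .dn) (n1 := ndB0q1) (n2 := ndB2q2a) (pc := pcB1) (cut := Cut.none) (xt := Ext.none) (P1 := 536870912) (W1 := 536870912) (P2 := 0) (W2 := 536870912) (P3 := 649613803) (W3 := 48318383) (N0 := 3) (En := eng) (mo := mog) (C1 := cd0q1) (C2 := cd2q2a) (C3 := pd1)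
    rfl k0_pp_112_a

noncomputable def f_pp_112_b : ℕ → ℕ → ℕ → ℕ → Bool := onCell 536870912 536870912 536870912 536870912 649613803 48318383
    (rowB 3 eng mog cd0q1 cd2q2b pd1 1 false true true .dn 1 1 2 (qsf 536870912 536870912 1239849684 370763052 1) ndB0q1 ndB2q2b pcB1 Cut.none Ext.none)

def k0_pp_112_b : ∃ t, chk3 f_pp_112_b t 1 1 1 = true :=
  ⟨(b (a (b (l 3) (a (b (l 3) (a (b (l 3) (a (b (l 16745640) (l 16688832)) (b (l 3) (l 16684136)))) (l 3))) (l 3))) (l 3)) (a (b (a (b (a (b (a (b (l 16666320) (l 16643128)) (l 16674520)) (a (l 16628728) (l 16608672))) (b (a (l 16699544) (l 16708424)) (b (l 16633160) (l 16612152)))) (a (b (a (l 16556384) (l 16559472)) (l 16505752)) (b (a (l 16569792) (l 16589816)) (l 16535704)))) (b (a (b (l 3) (a (l 47949156631) (l 58686649335))) (l 3)) (a (b (a (l 16619544) (l 16659712)) (a (l 16585952) (l 16635384))) (b (a (l 96737358103) (l 2)) (l 2))))) (a (b (a (a (l 16428176) (l 16438088)) (a (l 16458712) (l 16492184))) (a (a (l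 16331232) (l 16349168)) (c (l 16422984) (l 16380520)))) (a (a (b (l 16540864) (l 2)) (l 2)) (l 2)))) (b (b (l 3) (l 2)) (l 2)))), by decide +kernel⟩

theorem c_pp_112_b : CertB 536870912 536870912 1239849684 370763052 649613803 48318383 3 eng mog cd0q1 cd2q2b pd1 false true true .dn 1 1 2
    ndB0q1 ndB2q2b pcB1 Cut.none Ext.none :=
  certB1 (fam := false) (s1 := true) (s2 := true) (a := 1) (b := 1) (c := 2) (cn := .dn) (n1 := ndB0q1) (n2 := ndB2q2b) (pc := pcB1) (cut := Cut.none) (xt := Ext.none) (P1 := 536870912) (W1 := 536870912) (P2 := 1239849684) (W2 := 370763052) (P3 := 649613803) (W3 := 48318383) (N0 := 3) (En := eng) (mo := mog) (C1 := cd0q1) (C2 := cd2q2b) (C3 := pd1)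
    rfl (fun _ => rfl) k0_pp_112_b

noncomputable def cut_pp_113 : Cut := Cut.of [[⟨0, 1, 0, 67108864⟩, ⟨1, 1, 0, 67108864⟩, ⟨2, 2, 0, 16777216⟩]]

noncomputable def f_pp_113 : ℕ → ℕ → ℕ → ℕ → Bool := onCell 536870912 536870912 536870912 536870912 649613803 48318383
    (rowB 3 eng mog cd0q1 cd2q3 pd1 1 false true true .nn 1 1 3 (qsf 536870912 536870912 1610612736 536870912 1) ndB0q1 ndB2q3 pcB1 cut_pp_113 Ext.none)

def k0_pp_113 : ∃ t, chk3 f_pp_113 t 1 2 1 = true :=
  ⟨(a (a (l 1) (l 3)) (l 3)), by decide +kernel⟩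

def k1_pp_113 : ∃ t, chk3 f_pp_113 t 2 3 1 = true :=
  ⟨(b (a (b (l 1) (a (l 1) (b (l 1) (l 16572120)))) (b (a (b (l 1) (a (l 1) (l 16732976))) (l 3)) (a (b (a (l 16656192) (l 16701056)) (a (l 16634520) (l 16690696))) (b (a (l 37211870567) (l 42580629079)) (a (l 16757840) (l 30232505335)))))) (a (b (a (l 71437055511) (a (l 16505256) (l 16549424))) (a (b (l 16404944) (l 16367336)) (b (l 16486688) (l 16464152)))) (b (a (b (l 16649040) (l 16640368)) (b (a (l 16747792) (l 16780272)) (a (l 16717912) (l 16748568)))) (a (b (l 16629744) (l 16607912)) (a (l 16678952) (l 16686016)))))), by decide +kernel⟩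

def k2_pp_113 : ∃ t, chk3 f_pp_113 t 3 3 1 = true :=
  ⟨(b (a (b (l 3) (a (b (l 3) (a (b (l 16870728) (l 16846584)) (b (l 3) (l 207936901239)))) (l 3))) (l 3)) (a (b (a (b (a (l 16774256) (b (l 16874752) (l 16852880))) (a (l 16782760) (l 16825408))) (b (a (b (l 102173671303) (l 198273188183)) (l 3)) (a (b (l 16882024) (l 16861512)) (b (l 91436166951) (l 16903344))))) (a (a (l 16716664) (b (l 16790576) (l 16759944))) (b (a (l 16848256) (l 16911880)) (a (l 16796904) (l 16827656))))) (b (a (b (l 3) (a (b (l 3) (a (l 16926632) (l 274508994631))) (l 3))) (l 3)) (a (b (a (b (l 123111446103) (l 16879984)) (b (a (l 239612337047) (l 3)) (a (l 16884704) (l 220284945271)))) (a (b (l 16856648) (l 16833496)) (b (l 16858320) (l 16833832)))) (b (a (b (l 3) (a (b (l 3) (l 299204921159)) (l 3))) (l 3)) (a (a (b (l 16809656) (l 16825192)) (b (b (a (l 328195944071) (l 3)) (a (l 16839544) (l 244444064583))) (l 16817304))) (b (a (b (l 3) (a (b (l 3) (l 333027753287)) (l 3))) (l 3)) (a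 (b (a (l 16796144) (b (a (l 294909917735) (l 547776156343)) (l 240149075703))) (a (l 16803480) (l 16798192))) (b (a (a (c (l 513953279399) (l 538649345815)) (l 3)) (l 3)) (a (b (a (l 16781800) (b (a (l 335712097815) (l 564955998599)) (l 242296555687))) (a (l 16790624) (l 16787800))) (b (b (l 3) (l 6)) (l 6)))))))))))), by decide +kernel⟩

theorem s3_pp_113 : ∃ t, chk3 f_pp_113 t 1 3 1 = true := ex3_a k1_pp_113 k2_pp_113

theorem s4_pp_113 : ∃ t, chk3 f_pp_113 t 1 1 1 = true := ex3_b k0_pp_113 s3_pp_113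

theorem c_pp_113 : CertB 536870912 536870912 1610612736 536870912 649613803 48318383 3 eng mog cd0q1 cd2q3 pd1 false true true .nn 1 1 3
    ndB0q1 ndB2q3 pcB1 cut_pp_113 Ext.none :=
  certB1 (fam := false) (s1 := true) (s2 := true) (a := 1) (b := 1) (c := 3) (cn := .nn) (n1 := ndB0q1) (n2 := ndB2q3) (pc := pcB1) (cut := cut_pp_113) (xt := Ext.none) (P1 := 536870912) (W1 := 536870912) (P2 := 1610612736) (W2 := 536870912) (P3 := 649613803) (W3 := 48318383) (N0 := 3) (En := eng) (mo := mog) (C1 := cd0q1) (C2 := cd2q3) (C3 := pd1)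
    rfl (fun _ => rfl) s4_pp_113

noncomputable def cut_pp_123 : Cut := Cut.of [[⟨0, 1, 0, 67108864⟩, ⟨1, 1, 0, 67108864⟩, ⟨2, 2, 0, 16777216⟩]]

noncomputable def f_pp_123 : ℕ → ℕ → ℕ → ℕ → Bool := onCell 536870912 536870912 1073741824 536870912 649613803 48318383
    (rowB 3 eng mog cd0q1 cd2q3 pd2 1 false true true .npn 1 2 3 (qsf 536870912 536870912 1610612736 536870912 2) ndB0q1 ndB2q3 pcB2 cut_pp_123 Ext.none)

def k0_pp_123 : ∃ t, chk3 f_pp_123 t 1 1 1 = true :=
  ⟨(a (b (b (a (b (a (l 16347504) (l 16477896)) (a (l 16315488) (l 16435560))) (a (b (b (l 16565632) (l 16550488)) (l 16528488)) (a (b (l 16611712) (l 16567848)) (b (l 16637096) (l 16586312))))) (a (b (a (b (l 16306968) (l 16321640)) (b (l 16428440) (l 16429512))) (a (l 16397440) (l 16484152))) (b (a (b (l 16505520) (l 16497152)) (b (b (l 16550320) (l 16539928)) (l 16532272))) (a (l 16538120) (l 16567216))))) (a (b (b (l 16564696) (a (l 16561352) (l 16609896))) (b (l 16644408) (l 16687704))) (b (a (b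 (l 16593216) (l 16643080)) (b (l 16616048) (l 16660888))) (a (b (l 16691520) (l 2)) (l 2))))) (b (a (b (a (b (a (l 16664400) (l 16696912)) (l 16830752)) (b (a (l 16730368) (l 16737584)) (b (l 16690112) (l 16656472)))) (b (a (b (b (l 16586704) (b (l 16577312) (l 16571976))) (l 16691200)) (b (b (l 16636024) (b (l 16627368) (l 16622408))) (a (l 16602168) (l 16622712)))) (a (l 16592504) (a (l 16619568) (l 2))))) (b (b (a (a (b (l 16794184) (l 16753712)) (l 16817576)) (b (b (a (l 16795424) (a (l 16783264) (b (a (l 16780472) (l 6)) (l 423154948103)))) (a (l 16776568) (l 424228712903))) (a (l 16746240) (l 447314168999)))) (a (b (l 16711440) (l 16663160)) (a (l 249208827367) (l 2)))) (a (b (b (b (l 16624880) (l 2)) (l 2)) (l 2)) (l 2)))) (a (b (a (b (l 16634384) (l 2)) (l 2)) (l 2)) (l 2)))), by decide +kernel⟩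

theorem c_pp_123 : CertB 536870912 536870912 1610612736 536870912 649613803 48318383 3 eng mog cd0q1 cd2q3 pd2 false true true .npn 1 2 3
    ndB0q1 ndB2q3 pcB2 cut_pp_123 Ext.none :=
  certB1 (fam := false) (s1 := true) (s2 := true) (a := 1) (b := 2) (c := 3) (cn := .npn) (n1 := ndB0q1) (n2 := ndB2q3) (pc := pcB2) (cut := cut_pp_123) (xt := Ext.none) (P1 := 536870912) (W1 := 536870912) (P2 := 1610612736) (W2 := 536870912) (P3 := 649613803) (W3 := 48318383) (N0 := 3) (En := eng) (mo := mog) (C1 := cd0q1) (C2 := cd2q3) (C3 := pd2)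
    rfl (fun _ => rfl) k0_pp_123

noncomputable def f_pp_133 : ℕ → ℕ → ℕ → ℕ → Bool := onCell 536870912 536870912 1610612736 536870912 649613803 48318383
    (rowB 3 eng mog cd0q1 cd2q3 pd3 0 false true true .dn 1 3 3 (qsf 536870912 536870912 1610612736 536870912 3) ndB0q1 ndB2q3 pcB3 Cut.none Ext.none)

def k0_pp_133 : ∃ t, chk3 f_pp_133 t 1 1 1 = true :=
  ⟨(a (a (b (l 1) (b (l 1) (a (l 408592661975) (l 1)))) (l 1)) (l 1)), by decide +kernel⟩

theorem c_pp_133 : CertB 536870912 536870912 1610612736 536870912 649613803 48318383 3 eng mog cd0q1 cd2q3 pd3 false true true .dn 1 3 3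
    ndB0q1 ndB2q3 pcB3 Cut.none Ext.none :=
  certB0 (fam := false) (s1 := true) (s2 := true) (a := 1) (b := 3) (c := 3) (cn := .dn) (n1 := ndB0q1) (n2 := ndB2q3) (pc := pcB3) (cut := Cut.none) (xt := Ext.none) (P1 := 536870912) (W1 := 536870912) (P2 := 1610612736) (W2 := 536870912) (P3 := 649613803) (W3 := 48318383) (N0 := 3) (En := eng) (mo := mog) (C1 := cd0q1) (C2 := cd2q3) (C3 := pd3)
    rfl k0_pp_133

noncomputable def f_pp_202_a : ℕ → ℕ → ℕ → ℕ → Bool := onCell 0 536870912 0 536870912 649613803 48318383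
    (rowB 3 eng mog cd0q2 cd2q2a pd0 0 false true true .pp 2 0 2 (qsf 0 536870912 0 536870912 0) ndB0q2 ndB2q2a pcB0 Cut.none Ext.none)

def k0_pp_202_a : ∃ t, chk3 f_pp_202_a t 1 1 1 = true :=
  ⟨(l 3), by decide +kernel⟩

theorem c_pp_202_a : CertB 0 536870912 0 536870912 649613803 48318383 3 eng mog cd0q2 cd2q2a pd0 false true true .pp 2 0 2
    ndB0q2 ndB2q2a pcB0 Cut.none Ext.none :=
  certB0 (fam := false) (s1 := true) (s2 := true) (a := 2) (b := 0) (c := 2) (cn := .pp) (n1 := ndB0q2) (n2 := ndB2q2a) (pc := pcB0) (cut := Cut.none) (xt := Ext.none) (P1 := 0) (W1 := 536870912) (P2 := 0) (W2 := 536870912) (P3 := 649613803) (W3 := 48318383) (N0 := 3) (En := eng) (mo := mog) (C1 := cd0q2) (C2 := cd2q2a) (C3 := pd0)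
    rfl k0_pp_202_a

noncomputable def f_pp_202_b : ℕ → ℕ → ℕ → ℕ → Bool := onCell 0 536870912 1239849684 370763052 649613803 48318383
    (rowB 3 eng mog cd0q2 cd2q2b pd0 0 false true true .pp 2 0 2 (qsf 0 536870912 1239849684 370763052 0) ndB0q2 ndB2q2b pcB0 Cut.none Ext.none)

def k0_pp_202_b : ∃ t, chk3 f_pp_202_b t 1 1 1 = true :=
  ⟨(l 3), by decide +kernel⟩

theorem c_pp_202_b : CertB 0 536870912 1239849684 370763052 649613803 48318383 3 eng mog cd0q2 cd2q2b pd0 false true true .pp 2 0 2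
    ndB0q2 ndB2q2b pcB0 Cut.none Ext.none :=
  certB0 (fam := false) (s1 := true) (s2 := true) (a := 2) (b := 0) (c := 2) (cn := .pp) (n1 := ndB0q2) (n2 := ndB2q2b) (pc := pcB0) (cut := Cut.none) (xt := Ext.none) (P1 := 0) (W1 := 536870912) (P2 := 1239849684) (W2 := 370763052) (P3 := 649613803) (W3 := 48318383) (N0 := 3) (En := eng) (mo := mog) (C1 := cd0q2) (C2 := cd2q2b) (C3 := pd0)
    rfl k0_pp_202_b

noncomputable def f_pp_203 : ℕ → ℕ → ℕ → ℕ → Bool := onCell 0 536870912 0 536870912 649613803 48318383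
    (rowB 3 eng mog cd0q2 cd2q3 pd0 1 false true true .up 2 0 3 (qsf 0 536870912 1610612736 536870912 0) ndB0q2 ndB2q3 pcB0 Cut.none Ext.none)

def k0_pp_203 : ∃ t, chk3 f_pp_203 t 1 1 1 = true :=
  ⟨(l 3), by decide +kernel⟩

theorem c_pp_203 : CertB 0 536870912 1610612736 536870912 649613803 48318383 3 eng mog cd0q2 cd2q3 pd0 false true true .up 2 0 3
    ndB0q2 ndB2q3 pcB0 Cut.none Ext.none :=
  certB1 (fam := false) (s1 := true) (s2 := true) (a := 2) (b := 0) (c := 3) (cn := .up) (n1 := ndB0q2) (n2 := ndB2q3) (pc := pcB0) (cut := Cut.none) (xt := Ext.none) (P1 := 0) (W1 := 536870912) (P2 := 1610612736) (W2 := 536870912) (P3 := 649613803) (W3 := 48318383) (N0 := 3) (En := eng) (mo := mog) (C1 := cd0q2) (C2 := cd2q3) (C3 := pd0)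
    rfl (fun _ => rfl) k0_pp_203

noncomputable def cut_pp_213 : Cut := Cut.of [[⟨0, 1, 0, 67108864⟩, ⟨1, 1, 0, 67108864⟩, ⟨2, 2, 0, 16777216⟩]]

noncomputable def f_pp_213 : ℕ → ℕ → ℕ → ℕ → Bool := onCell 0 536870912 1610612736 536870912 649613803 48318383
    (rowB 3 eng mog cd0q2 cd2q3 pd1 0 false true true .pnn 2 1 3 (qsf 0 536870912 1610612736 536870912 1) ndB0q2 ndB2q3 pcB1 cut_pp_213 Ext.none)

def k0_pp_213 : ∃ t, chk3 f_pp_213 t 1 1 1 = true :=
  ⟨(b (l 3) (a (l 3) (b (l 3) (a (l 3) (b (l 3) (a (l 3) (b (l 3) (b (l 3) (b (l 3) (l 6)))))))))), by decide +kernel⟩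

theorem c_pp_213 : CertB 0 536870912 1610612736 536870912 649613803 48318383 3 eng mog cd0q2 cd2q3 pd1 false true true .pnn 2 1 3
    ndB0q2 ndB2q3 pcB1 cut_pp_213 Ext.none :=
  certB0 (fam := false) (s1 := true) (s2 := true) (a := 2) (b := 1) (c := 3) (cn := .pnn) (n1 := ndB0q2) (n2 := ndB2q3) (pc := pcB1) (cut := cut_pp_213) (xt := Ext.none) (P1 := 0) (W1 := 536870912) (P2 := 1610612736) (W2 := 536870912) (P3 := 649613803) (W3 := 48318383) (N0 := 3) (En := eng) (mo := mog) (C1 := cd0q2) (C2 := cd2q3) (C3 := pd1)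
    rfl k0_pp_213

noncomputable def f_pm_001 : ℕ → ℕ → ℕ → ℕ → Bool := onCell 0 536870912 0 536870912 649613803 48318383
    (rowB 3 eng mog cd0q0 cd2q1 pd0 1 false true false .up 0 0 1 (qsf 0 536870912 536870912 536870912 0) ndB0q0 ndB2q1 pcB0 Cut.none Ext.none)

def k0_pm_001 : ∃ t, chk3 f_pm_001 t 1 1 1 = true :=
  ⟨(a (l 4) (b (l 4) (b (l 4) (a (l 4) (b (l 4) (a (l 4) (a (l 4) (b (l 4) (b (l 16180320) (a (l 16194136) (l 16155200))))))))))), by decide +kernel⟩

theorem c_pm_001 : CertB 0 536870912 536870912 536870912 649613803 48318383 3 eng mog cd0q0 cd2q1 pd0 false true false .up 0 0 1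
    ndB0q0 ndB2q1 pcB0 Cut.none Ext.none :=
  certB1 (fam := false) (s1 := true) (s2 := false) (a := 0) (b := 0) (c := 1) (cn := .up) (n1 := ndB0q0) (n2 := ndB2q1) (pc := pcB0) (cut := Cut.none) (xt := Ext.none) (P1 := 0) (W1 := 536870912) (P2 := 536870912) (W2 := 536870912) (P3 := 649613803) (W3 := 48318383) (N0 := 3) (En := eng) (mo := mog) (C1 := cd0q0) (C2 := cd2q1) (C3 := pd0)
    rfl (fun _ => rfl) k0_pm_001

noncomputable def f_pm_011 : ℕ → ℕ → ℕ → ℕ → Bool := onCell 536870912 536870912 536870912 536870912 649613803 48318383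
    (rowB 3 eng mog cd0q0 cd2q1 pd1 2 false true false .pnn 0 1 1 (qsf 0 536870912 536870912 536870912 1) ndB0q0 ndB2q1 pcB1 Cut.none Ext.none)

def k0_pm_011 : ∃ t, chk3 f_pm_011 t 1 1 1 = true :=
  ⟨(a (b (l 4) (a (b (l 4) (a (b (l 4) (b (l 4) (a (a (l 16168648) (l 16183552)) (b (l 4) (l 16193080))))) (l 4))) (l 4))) (l 4)), by decide +kernel⟩

theorem c_pm_011 : CertB 0 536870912 536870912 536870912 649613803 48318383 3 eng mog cd0q0 cd2q1 pd1 false true false .pnn 0 1 1
    ndB0q0 ndB2q1 pcB1 Cut.none Ext.none :=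
  certB2 (fam := false) (s1 := true) (s2 := false) (a := 0) (b := 1) (c := 1) (cn := .pnn) (n1 := ndB0q0) (n2 := ndB2q1) (pc := pcB1) (cut := Cut.none) (xt := Ext.none) (P1 := 0) (W1 := 536870912) (P2 := 536870912) (W2 := 536870912) (P3 := 649613803) (W3 := 48318383) (N0 := 3) (En := eng) (mo := mog) (C1 := cd0q0) (C2 := cd2q1) (C3 := pd1)
    rfl (fun _ => rfl) k0_pm_011

noncomputable def cut_pm_012_a : Cut := Cut.of [[⟨0, 0, 0, 67108864⟩, ⟨1, 1, 0, 67108864⟩, ⟨2, 1, 0, 67108864⟩]]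

noncomputable def f_pm_012_a : ℕ → ℕ → ℕ → ℕ → Bool := onCell 0 536870912 0 536870912 649613803 48318383
    (rowB 3 eng mog cd0q0 cd2q2a pd1 0 false true false .pnp 0 1 2 (qsf 0 536870912 0 536870912 1) ndB0q0 ndB2q2a pcB1 cut_pm_012_a Ext.none)

def k0_pm_012_a : ∃ t, chk3 f_pm_012_a t 2 2 1 = true :=
  ⟨(a (a (l 2) (b (l 2) (b (l 2) (a (l 2) (a (l 2) (b (l 2) (l 16450688))))))) (a (b (a (a (l 2) (b (b (l 16461024) (l 16449752)) (b (a (l 2) (l 16442704)) (a (l 16435000) (l 16437392))))) (b (b (a (l 16466320) (l 16471448)) (a (l 16454944) (l 16459960))) (a (b (l 16446408) (l 16440848)) (b (l 16451208) (l 16445304))))) (b (a (a (a (l 2) (b (l 16430960) (l 16433968))) (b (a (l 16433184) (l 16435328)) (l 16436576))) (b (a (l 16438416) (l 16442368)) (a (l 16439800) (l 16442824)))) (a (b (a (a (l 16439896) (l 16441104)) (l 16442760)) (a (l 16451720) (l 16452408))) (b (a (l 16444704) (l 16446440)) (l 16452904))))) (b (a (b (a (b (l 16476568) (l 16464952)) (b (l 16481864)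 (l 16470104))) (a (b (l 16455960) (l 16449696)) (b (l 16460856) (l 16454200)))) (a (b (l 16502648) (b (l 16466016) (l 16458944))) (b (l 16487624) (b (l 16471520) (l 16463984))))) (a (b (b (a (l 16446240) (l 16450192)) (a (l 16445752) (l 16448760))) (b (l 16469920) (l 16453160))) (b (b (a (l 16454360) (l 16458800)) (l 16453648)) (b (l 16452776) (l 16453920))))))), by decide +kernel⟩

def k1_pm_012_a : ∃ t, chk3 f_pm_012_a t 4 3 1 = true :=
  ⟨(b (a (l 2) (b (a (l 2) (b (a (l 16467520) (l 16467088)) (a (l 16488880) (l 16486640)))) (a (a (b (l 2) (a (l 2) (l 16569160))) (b (a (l 16516984) (l 16515408)) (b (l 16536880) (l 16551664)))) (b (a (l 16512744) (l 16508992)) (a (l 16538624) (l 16532368)))))) (a (a (b (l 2) (l 6)) (a (b (b (l 2) (l 6)) (l 6)) (a (b (b (l 2) (l 6)) (l 6)) (b (b (b (l 2) (l 16597328)) (l 16635344)) (a (l 6) (b (b (l 16652392) (l 16667072)) (b (l 16680832) (b (l 16691192) (b (l 16696400) (c (l 16701528) (l 16698152))))))))))) (b (a (a (b (b (l 16595120)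 (l 16591752)) (b (l 16609048) (l 16626928))) (b (l 16575544) (l 16608336))) (b (a (l 16567456) (l 16558808)) (a (l 16597992) (l 16585480)))) (b (a (a (b (l 16643928) (b (l 16653624) (l 16660264))) (b (l 16629048) (b (l 16638248) (l 16644552)))) (b (a (l 16614816) (l 16601176)) (a (l 16626536) (l 16612240)))) (b (a (a (b (l 16666936) (a (l 16677856) (l 16669496))) (b (l 16650896) (l 16657272))) (a (b (l 16635512) (l 16641560)) (l 16623608))) (a (b (a (a (l 16684664) (l 16676144)) (a (l 16667792) (l 16659608))) (a (a (b (l 16689784) (a (l 16700656) (l 16701488))) (b (l 16681128) (c (l 16686416) (l 16682424)))) (b (a (l 16672656) (l 16664352)) (a (c (l 16678008) (l 16673712)) (l 16678016))))) (b (a (l 16668608) (l 16632184)) (a (b (l 16673168) (a (l 16659304) (l 16651240))) (b (l 16636504) (l 16660368)))))))))), by decide +kernel⟩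

def k2_pm_012_a : ∃ t, chk3 f_pm_012_a t 5 3 1 = true :=
  ⟨(b (a (b (a (b (l 16465792) (l 16482536)) (b (l 16463016) (l 16475720))) (a (b (b (l 16496520) (l 16506528)) (l 16522064)) (b (l 16532352) (a (l 16510816) (l 16502968))))) (b (a (b (l 16459728) (l 16468448)) (b (l 16456992) (l 16461816))) (a (b (l 16478800) (l 16491336)) (b (l 16468168) (a (l 16479680) (l 16493504)))))) (b (b (a (a (l 16544912) (l 16525000)) (a (l 16504456) (b (l 16545720) (l 16488080)))) (a (a (l 16588440) (l 16544896)) (a (l 16583384) (l 16519280)))) (a (b (a (b (l 16581680) (a (l 16598456) (l 16585168))) (b (l 16557176) (l 16565952))) (a (b (a (l 16609176) (l 16595232)) (a (b (l 16617264) (l 16643688)) (b (l 16602832) (l 16607960)))) (a (b (l 16581704) (b (l 16588816) (l 16593600))) (b (a (l 16571736) (l 16565008)) (b (l 16574696) (l 16578752)))))) (b (a (a (l 16564144) (l 16551544)) (l 16511744)) (a (b (a (l 16554536) (l 16540704)) (a (l 16561848) (l 16547376))) (b (l 16520440) (a (l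 16533208) (l 16519128)))))))), by decide +kernel⟩

def k3_pm_012_a : ∃ t, chk3 f_pm_012_a t 3 2 1 = true :=
  ⟨(a (b (a (a (b (b (l 16524616) (a (l 16487688) (l 16494488))) (a (b (l 16477424) (l 16469400)) (b (l 16483808) (l 16475248)))) (b (a (l 16508424) (b (l 16522936) (l 16509360))) (a (b (l 16490624) (l 16481512)) (b (l 16497784) (l 16488104))))) (a (b (a (b (l 16530904) (l 16517344)) (b (l 16539240) (l 16526648))) (a (b (l 16505456) (l 16495512)) (l 16509592))) (b (b (l 16552288) (a (l 16536376) (l 16545056))) (a (l 16518776) (l 16527800))))) (a (a (b (b (a (l 16463560) (l 16468736)) (a (l 16459176) (l 16463352))) (b (a (l 16456376) (l 16459280)) (l 16455920))) (b (b (a (l 16474312) (l 16480224)) (a (l 16467936) (l 16473104))) (b (a (l 16462608) (l 16467200)) (a (l 16458792) (l 16462856))))) (a (b (b (a (l 16487488) (l 16495984)) (l 16483904)) (b (l 16476744) (l 16470432))) (b (b (l 16508656) (l 16499144)) (b (l 16489688) (l 16480536)))))) (a (b (b (a (b (l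 16569768) (l 16557440)) (b (l 16586856) (l 16573896))) (a (b (l 16546560) (l 16535104)) (b (l 16561824) (l 16551168)))) (a (b (b (l 16524920) (l 16513752)) (l 16496168)) (b (l 16533528) (l 16505448)))) (b (a (b (b (l 16603360) (l 16589432)) (b (l 16576640) (l 16564496))) (b (a (l 16608488) (l 16616928)) (l 16606016))) (b (a (l 16546072) (b (l 16565704) (l 16549480))) (a (l 16512792) (l 16519576)))))), by decide +kernel⟩

def k4_pm_012_a : ∃ t, chk3 f_pm_012_a t 3 3 1 = true :=
  ⟨(a (b (a (b (a (b (l 16455608) (l 16457072)) (b (l 16458440) (l 16457424))) (a (b (l 16460312) (b (l 16463472) (l 16466464))) (b (l 16457240) (l 16457208)))) (b (a (b (l 16464992) (l 16460112)) (l 16488616)) (a (l 16474336) (l 16448888)))) (a (b (a (b (l 16470776) (l 16478296)) (b (l 16457488) (l 16459224))) (b (a (l 16486456) (l 16461344)) (a (b (l 16493272) (a (l 16504920) (l 16490424))) (b (l 16465024) (a (l 16475664) (l 16460704)))))) (b (a (b (l 16444824) (l 16440720)) (b (b (l 16434608)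 (l 16428288)) (l 16421520))) (b (a (l 16436760) (l 16411024)) (a (a (l 16444672) (l 16440632)) (a (l 16479072) (l 16445024))))))) (b (a (b (a (l 16471568) (l 16473368)) (a (b (l 16450448) (l 16434464)) (b (l 16444536) (l 16422088)))) (b (a (l 16472608) (l 16470512)) (a (l 16420832) (l 16405872)))) (a (b (a (b (l 16416360) (l 16399440)) (b (l 16396512) (l 16373224))) (b (a (l 16386048) (l 16390928)) (a (a (l 16432984) (l 16380216)) (a (l 16381480) (b (l 16364088) (l 16362224)))))) (b (b (a (l 16371112) (l 16363840)) (a (l 16364368) (l 16417656))) (a (b (l 16399928) (b (l 16353928) (a (l 16354840) (l 16347608)))) (b (a (l 16349008) (l 16342520)) (a (b (l 16343680) (c (l 16344304) (l 16335800))) (b (l 16336352) (c (a (l 16338664) (l 16334664)) (l 16327656)))))))))), by decide +kernel⟩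

theorem s5_pm_012_a : ∃ t, chk3 f_pm_012_a t 3 1 1 = true := ex3_b k3_pm_012_a k4_pm_012_a

theorem s6_pm_012_a : ∃ t, chk3 f_pm_012_a t 2 3 1 = true := ex3_a k1_pm_012_a k2_pm_012_a

theorem s7_pm_012_a : ∃ t, chk3 f_pm_012_a t 2 1 1 = true := ex3_b k0_pm_012_a s6_pm_012_a

theorem s8_pm_012_a : ∃ t, chk3 f_pm_012_a t 1 1 1 = true := ex3_a s7_pm_012_a s5_pm_012_a

theorem c_pm_012_a : CertB 0 536870912 0 536870912 649613803 48318383 3 eng mog cd0q0 cd2q2a pd1 false true false .pnp 0 1 2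
    ndB0q0 ndB2q2a pcB1 cut_pm_012_a Ext.none :=
  certB0 (fam := false) (s1 := true) (s2 := false) (a := 0) (b := 1) (c := 2) (cn := .pnp) (n1 := ndB0q0) (n2 := ndB2q2a) (pc := pcB1) (cut := cut_pm_012_a) (xt := Ext.none) (P1 := 0) (W1 := 536870912) (P2 := 0) (W2 := 536870912) (P3 := 649613803) (W3 := 48318383) (N0 := 3) (En := eng) (mo := mog) (C1 := cd0q0) (C2 := cd2q2a) (C3 := pd1)
    rfl s8_pm_012_a

noncomputable def cut_pm_012_b : Cut := Cut.of [[⟨0, 0, 0, 67108864⟩, ⟨1, 1, 0, 67108864⟩, ⟨2, 1, 0, 67108864⟩]]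

noncomputable def f_pm_012_b : ℕ → ℕ → ℕ → ℕ → Bool := onCell 0 536870912 1239849684 370763052 649613803 48318383
    (rowB 3 eng mog cd0q0 cd2q2b pd1 0 false true false .pnp 0 1 2 (qsf 0 536870912 1239849684 370763052 1) ndB0q0 ndB2q2b pcB1 cut_pm_012_b Ext.none)

def k0_pm_012_b : ∃ t, chk3 f_pm_012_b t 1 1 1 = true :=
  ⟨(a (a (l 2) (b (b (a (b (a (b (a (l 2) (l 16438360)) (l 2)) (b (a (b (l 16459120) (l 16430944)) (l 16451672)) (a (l 2) (l 16396456)))) (l 2)) (a (b (b (a (l 16479192) (l 16464952)) (a (l 16405808) (l 16415312))) (a (l 16342056) (b (l 16362456) (l 2)))) (b (a (b (l 16472000) (l 16425096)) (l 16520616)) (b (l 16381392) (l 16329784))))) (a (l 2) (a (l 2) (b (b (l 16275488) (l 2)) (l 2))))) (l 2))) (a (b (b (a (b (a (a (l 16529888) (l 16518696)) (a (l 16507936) (l 16539664))) (a (a (l 16377824) (l 16392968)) (a (l 16408432) (l 16424096)))) (b (a (b (a (l 16522920) (l 16531592)) (l 16497344)) (b (a (l 16540888) (l 16550696)) (l 16518928))) (a (a (l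 16439840) (l 16455576)) (a (l 16469624) (l 16483024))))) (a (a (b (a (l 16277856) (l 16298728)) (l 2)) (b (a (l 16319864) (l 16341064)) (b (l 16260168) (l 16210784)))) (a (b (l 16372608) (l 16289072)) (b (l 16413344) (l 16340592))))) (b (a (l 2) (a (b (l 16198192) (l 2)) (b (l 16260696) (l 16174784)))) (l 2))) (b (b (a (a (b (b (l 16565528) (l 16542080)) (l 16503376)) (b (b (l 16585160) (l 16565584)) (l 16531480))) (b (a (b (l 16604384) (l 16588816)) (b (a (l 16618872) (l 16628776)) (l 16612168))) (a (l 16559960) (l 16588400)))) (a (a (b (l 16448336) (l 16387832)) (b (l 16481096) (l 16427984))) (a (b (l 16514840) (l 16465280)) (b (l 16549512) (l 16504720))))) (a (b (a (b (l 16319424) (l 16243480)) (b (l 16370432) (l 16306824))) (a (l 2) (l 16259560))) (b (a (b (l 16414648) (l 16361600)) (b (l 16458320) (l 16411872))) (a (b (l 16303200) (l 16236792)) (a (l 16406104) (l 16375920)))))))), by decide +kernel⟩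

theorem c_pm_012_b : CertB 0 536870912 1239849684 370763052 649613803 48318383 3 eng mog cd0q0 cd2q2b pd1 false true false .pnp 0 1 2
    ndB0q0 ndB2q2b pcB1 cut_pm_012_b Ext.none :=
  certB0 (fam := false) (s1 := true) (s2 := false) (a := 0) (b := 1) (c := 2) (cn := .pnp) (n1 := ndB0q0) (n2 := ndB2q2b) (pc := pcB1) (cut := cut_pm_012_b) (xt := Ext.none) (P1 := 0) (W1 := 536870912) (P2 := 1239849684) (W2 := 370763052) (P3 := 649613803) (W3 := 48318383) (N0 := 3) (En := eng) (mo := mog) (C1 := cd0q0) (C2 := cd2q2b) (C3 := pd1)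
    rfl k0_pm_012_b

noncomputable def cut_pm_022_a : Cut := Cut.of [[⟨0, 0, 0, 67108864⟩, ⟨1, 1, 0, 67108864⟩, ⟨2, 1, 0, 67108864⟩]]

noncomputable def f_pm_022_a : ℕ → ℕ → ℕ → ℕ → Bool := onCell 0 536870912 0 536870912 649613803 48318383
    (rowB 3 eng mog cd0q0 cd2q2a pd2 0 false true false .pp 0 2 2 (qsf 0 536870912 0 536870912 2) ndB0q0 ndB2q2a pcB2 cut_pm_022_a Ext.none)

def k0_pm_022_a : ∃ t, chk3 f_pm_022_a t 2 2 1 = true :=
  ⟨(a (b (a (b (a (a (l 16464592) (l 16442928)) (c (l 16464536) (l 16463520))) (b (a (c (l 16468824) (l 16468088)) (l 16442928)) (a (a (l 16454912) (l 16451360)) (a (l 16447664) (l 16444120))))) (a (b (b (l 16488952) (l 16463504)) (b (l 16461288) (l 16461168))) (b (b (b (l 16456288) (l 16524984)) (a (l 16444696) (l 16447080))) (b (a (l 16439768) (l 16440184)) (a (l 16436912) (l 16435360)))))) (a (b (a (b (a (l 16463632) (l 16458704)) (a (l 16475792) (l 16469560))) (b (a (l 16453808) (l 16449112)) (a (l 16463288) (l 16457056)))) (b (a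 (a (b (l 16486928) (l 16495400)) (l 16504544)) (a (l 16475848) (l 16468096))) (a (a (b (l 16504616) (l 16514520)) (l 16521472)) (a (l 16491248) (l 16481912))))) (a (b (b (a (l 16444744) (l 16481880)) (l 16489792)) (b (a (l 16460320) (l 16452520)) (a (l 16472448) (l 16462856)))) (b (b (a (b (l 16435960) (l 16435720)) (l 16432480)) (a (l 16439064) (b (l 16432096) (l 16433480)))) (b (a (l 16444696) (l 16436848)) (a (l 16453160) (l 16443320))))))) (a (a (a (b (b (b (c (l 16465528) (l 16456856)) (l 16471208)) (b (l 16462216) (l 16455296))) (b (b (b (l 16430280) (l 16428224)) (b (l 16426960) (l 75731746679))) (b (l 16428952) (l 16433320)))) (b (c (b (b (l 16472928) (b (l 16462688) (l 16456712))) (b (l 16448936) (l 16440160))) (b (b (l 16461480) (l 16447664)) (b (l 16436192) (l 16426792)))) (b (b (a (l 16448144) (l 1)) (b (l 1) (l 1))) (l 1)))) (b (b (l 1) (l 1)) (l 1))) (l 1))), by decide +kernel⟩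

def k1_pm_022_a : ∃ t, chk3 f_pm_022_a t 2 3 1 = true :=
  ⟨(a (b (a (a (a (b (b (b (l 16525152) (l 16536512)) (l 16555048)) (b (l 16588768) (a (l 16629696) (l 16607096)))) (b (b (b (l 16514896) (l 16525464)) (l 16542728)) (b (l 16568112) (l 16617208)))) (a (b (b (l 16509344) (l 16551144)) (b (l 16590424) (b (l 16573056) (l 16607592)))) (b (b (l 16498320) (l 16517360)) (b (l 16559960) (b (l 16556760) (l 16569224)))))) (b (a (b (a (l 16487080) (l 16475600)) (a (l 16504208) (l 16490704))) (b (a (l 16463896) (l 16451936)) (a (l 16476856) (l 1)))) (a (b (a (l 16523784) (l 16529056)) (a (b (l 16539896) (l 16551176)) (b (l 16522416) (l 1)))) (b (a (l 16523360) (l 1)) (l 1))))) (a (a (b (b (a (a (b (l 16597312) (b (l 16639424) (l 6))) (b (l 16626864) (l 16641160))) (b (l 16618816) (l 16634680))) (l 6)) (l 6)) (a (b (b (b (a (l 16605376) (l 16596248)) (l 16626016)) (l 6)) (l 6)) (b (b (b (l 16582264) (a (l 16600776) (l 16590696))) (a (l 6) (a (l 6) (l 1)))) (l 1)))) (b (a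 (b (a (b (l 16562968) (l 16596112)) (l 1)) (l 1)) (l 1)) (l 1)))) (b (l 1) (l 1))), by decide +kernel⟩

def k2_pm_022_a : ∃ t, chk3 f_pm_022_a t 3 1 1 = true :=
  ⟨(l 1), by decide +kernel⟩

theorem s3_pm_022_a : ∃ t, chk3 f_pm_022_a t 2 1 1 = true := ex3_b k0_pm_022_a k1_pm_022_a

theorem s4_pm_022_a : ∃ t, chk3 f_pm_022_a t 1 1 1 = true := ex3_a s3_pm_022_a k2_pm_022_a

theorem c_pm_022_a : CertB 0 536870912 0 536870912 649613803 48318383 3 eng mog cd0q0 cd2q2a pd2 false true false .pp 0 2 2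
    ndB0q0 ndB2q2a pcB2 cut_pm_022_a Ext.none :=
  certB0 (fam := false) (s1 := true) (s2 := false) (a := 0) (b := 2) (c := 2) (cn := .pp) (n1 := ndB0q0) (n2 := ndB2q2a) (pc := pcB2) (cut := cut_pm_022_a) (xt := Ext.none) (P1 := 0) (W1 := 536870912) (P2 := 0) (W2 := 536870912) (P3 := 649613803) (W3 := 48318383) (N0 := 3) (En := eng) (mo := mog) (C1 := cd0q0) (C2 := cd2q2a) (C3 := pd2)
    rfl s4_pm_022_a

noncomputable def cut_pm_022_b : Cut := Cut.of [[⟨0, 0, 0, 67108864⟩, ⟨1, 1, 0, 67108864⟩, ⟨2, 1, 0, 67108864⟩]]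

noncomputable def f_pm_022_b : ℕ → ℕ → ℕ → ℕ → Bool := onCell 1073741824 536870912 1239849684 370763052 649613803 48318383
    (rowB 3 eng mog cd0q0 cd2q2b pd2 2 false true false .pp 0 2 2 (qsf 0 536870912 1239849684 370763052 2) ndB0q0 ndB2q2b pcB2 cut_pm_022_b Ext.none)

def k0_pm_022_b : ∃ t, chk3 f_pm_022_b t 2 1 1 = true :=
  ⟨(b (a (b (a (b (a (a (b (a (l 16452752) (l 16448912)) (l 16427320)) (b (l 16443560) (l 16398856))) (b (l 16476352) (l 16410160))) (a (a (l 16411360) (l 16360976)) (b (l 16347904) (l 16310984)))) (b (a (b (l 16435928) (l 16379408)) (b (b (l 16453136) (l 16407968)) (l 16394128))) (a (l 16401152) (l 16414072)))) (a (b (a (b (l 16318320) (l 16273600)) (b (l 16278904) (l 16252328))) (a (b (l 16256032) (l 16244376)) (a (l 16229168) (l 16217040)))) (b (a (l 16311904) (l 16237088)) (a (b (l 16210592) (l 16192128)) (l 16182792))))) (b (a (a (b (b (a (l 16417960) (l 16417440)) (l 16391064)) (b (l 16325536) (l 16284200))) (b (a (c (b (l 16418384)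 (l 16371688)) (l 16434600)) (b (l 16485448) (l 16375048))) (a (l 16344840) (b (l 16330032) (l 16287808))))) (b (a (b (l 1) (l 142840721703)) (l 1)) (a (c (l 16380672) (l 16317056)) (a (l 16396360) (l 428992513847))))) (b (a (a (l 16270960) (a (l 16225296) (l 16230400))) (a (a (l 16237296) (l 16240624)) (l 16280528))) (a (a (l 16232584) (a (l 16162320) (l 16166504))) (a (b (l 16189704) (l 16161400)) (l 16174480)))))) (a (b (a (b (a (b (l 16238280) (l 16237032)) (l 16224968)) (a (l 16243016) (l 16203896))) (b (a (l 16174592) (l 16233696)) (a (l 16169680) (l 16201024)))) (a (b (a (l 16260688) (l 16216784)) (a (l 16291728) (l 16241160))) (b (a (l 16179856) (l 16145000)) (a (l 16198984) (l 16162912))))) (a (b (a (b (l 16128872) (l 16131552)) (b (a (l 16116752) (l 16118944)) (a (l 16092680) (l 16091384)))) (a (b (l 16112728) (l 16128240)) (b (a (l 16089480) (l 16086712)) (a (l 16104208) (l 16100848))))) (b (a (b (l 16126104) (l 16095752)) (b (l 16124480) (l 16091408)))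 (b (a (l 16088392) (l 16078536)) (a (l 16101384) (l 16090256))))))), by decide +kernel⟩

def k1_pm_022_b : ∃ t, chk3 f_pm_022_b t 3 1 1 = true :=
  ⟨(a (b (b (l 1) (a (b (a (l 220149678551) (l 408591167831)) (a (l 16161056) (l 208338276551))) (b (l 1) (a (l 351145900199) (l 1))))) (a (b (a (b (l 16109160) (l 16074168)) (b (l 16092600) (l 16043760))) (b (a (l 16057584) (l 16024824)) (a (l 16063784) (l 16025976)))) (b (a (b (l 224444226791) (l 16033760)) (b (l 235718557815) (l 16038496))) (a (b (l 15979496) (l 15976848)) (b (l 15995528) (l 15948808)))))) (b (l 1) (a (b (b (l 1) (a (l 16032528) (l 291016282407))) (a (l 16197744) (b (l 16000088) (l 15980120)))) (b (l 1) (a (l 268467602103) (l 359198859703)))))), by decide +kernel⟩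

theorem s2_pm_022_b : ∃ t, chk3 f_pm_022_b t 1 1 1 = true := ex3_a k0_pm_022_b k1_pm_022_b

theorem c_pm_022_b : CertB 0 536870912 1239849684 370763052 649613803 48318383 3 eng mog cd0q0 cd2q2b pd2 false true false .pp 0 2 2
    ndB0q0 ndB2q2b pcB2 cut_pm_022_b Ext.none :=
  certB2 (fam := false) (s1 := true) (s2 := false) (a := 0) (b := 2) (c := 2) (cn := .pp) (n1 := ndB0q0) (n2 := ndB2q2b) (pc := pcB2) (cut := cut_pm_022_b) (xt := Ext.none) (P1 := 0) (W1 := 536870912) (P2 := 1239849684) (W2 := 370763052) (P3 := 649613803) (W3 := 48318383) (N0 := 3) (En := eng) (mo := mog) (C1 := cd0q0) (C2 := cd2q2b) (C3 := pd2)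
    rfl (fun _ => rfl) s2_pm_022_b

noncomputable def f_pm_023 : ℕ → ℕ → ℕ → ℕ → Bool := onCell 0 536870912 1073741824 536870912 649613803 48318383
    (rowB 3 eng mog cd0q0 cd2q3 pd2 1 false true false .up 0 2 3 (qsf 0 536870912 1610612736 536870912 2) ndB0q0 ndB2q3 pcB2 Cut.none Ext.none)

def k0_pm_023 : ∃ t, chk3 f_pm_023 t 1 1 1 = true :=
  ⟨(b (a (b (l 1) (a (l 1) (b (l 1) (a (l 1) (l 263099400631))))) (a (b (a (l 1) (b (l 1) (l 163778433927))) (b (a (b (l 1) (l 334503204391)) (b (l 16114712) (l 16102528))) (a (l 16093024) (l 16133416)))) (b (a (b (l 199748821895) (l 16166024)) (b (l 16248064) (l 16193808))) (b (a (b (l 16134552) (l 16126336)) (b (l 16163184) (l 16156216))) (a (l 16169576) (l 16207512)))))) (a (b (a (b (l 1) (a (l 1) (l 250750915607))) (b (a (l 16069376) (l 16032336)) (a (l 16111720) (l 15952920)))) (a (b (l 254509421399) (a (l 16153928) (l 16017032))) (b (a (l 15984976) (l 15970288)) (l 16140272)))) (b (a (a (b (l 16087416) (l 16051520)) (b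 (l 16158656) (l 16181256))) (b (a (l 16213376) (l 16336096)) (a (l 16344632) (l 16446896)))) (a (b (a (l 16161936) (l 16346304)) (l 16405520)) (b (l 16593272) (l 16587048)))))), by decide +kernel⟩

theorem c_pm_023 : CertB 0 536870912 1610612736 536870912 649613803 48318383 3 eng mog cd0q0 cd2q3 pd2 false true false .up 0 2 3
    ndB0q0 ndB2q3 pcB2 Cut.none Ext.none :=
  certB1 (fam := false) (s1 := true) (s2 := false) (a := 0) (b := 2) (c := 3) (cn := .up) (n1 := ndB0q0) (n2 := ndB2q3) (pc := pcB2) (cut := Cut.none) (xt := Ext.none) (P1 := 0) (W1 := 536870912) (P2 := 1610612736) (W2 := 536870912) (P3 := 649613803) (W3 := 48318383) (N0 := 3) (En := eng) (mo := mog) (C1 := cd0q0) (C2 := cd2q3) (C3 := pd2)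
    rfl (fun _ => rfl) k0_pm_023

noncomputable def f_pm_033 : ℕ → ℕ → ℕ → ℕ → Bool := onCell 1610612736 536870912 1610612736 536870912 649613803 48318383
    (rowB 3 eng mog cd0q0 cd2q3 pd3 2 false true false .pnn 0 3 3 (qsf 0 536870912 1610612736 536870912 3) ndB0q0 ndB2q3 pcB3 Cut.none Ext.none)

def k0_pm_033 : ∃ t, chk3 f_pm_033 t 1 1 1 = true :=
  ⟨(a (b (a (b (a (a (l 214780786615) (l 389800708231)) (l 4)) (a (b (l 16044448) (l 16211656)) (a (l 16123112) (l 4)))) (l 4)) (a (b (a (b (l 16357544) (l 16476616)) (b (l 16315568) (l 16427416))) (a (l 16637416) (b (l 16521904) (l 16591240)))) (b (l 4) (a (b (l 16478880) (l 16557016)) (l 4))))) (l 4)), by decide +kernel⟩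

theorem c_pm_033 : CertB 0 536870912 1610612736 536870912 649613803 48318383 3 eng mog cd0q0 cd2q3 pd3 false true false .pnn 0 3 3
    ndB0q0 ndB2q3 pcB3 Cut.none Ext.none :=
  certB2 (fam := false) (s1 := true) (s2 := false) (a := 0) (b := 3) (c := 3) (cn := .pnn) (n1 := ndB0q0) (n2 := ndB2q3) (pc := pcB3) (cut := Cut.none) (xt := Ext.none) (P1 := 0) (W1 := 536870912) (P2 := 1610612736) (W2 := 536870912) (P3 := 649613803) (W3 := 48318383) (N0 := 3) (En := eng) (mo := mog) (C1 := cd0q0) (C2 := cd2q3) (C3 := pd3)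
    rfl (fun _ => rfl) k0_pm_033

end Pool.Agent.Strip051.G.I6050_6500.Tab.C.BB02

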