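import Pool.Agent.Strip051.G.I6050_6500.Tab
import Pool.Agent.Strip051.PB.ExtD2

/-! # Certificates B26 (generated) -/

set_option linter.all false
set_option maxRecDepth 100000

namespace Pool.Agent.Strip051.G.I6050_6500.Tab.C.BB03

open Pool.Agent.Strip051.PB Pool.Agent.Strip051.PB.T
open Pool.Agent.Strip051.G.I6050_6500.Tab

noncomputable def cut_pp_012_b : Cut := Cut.of [[⟨0, 0, 0, 67108864⟩, ⟨1, 1, 0, 67108864⟩, ⟨2, 1, 0, 67108864⟩]]

noncomputable def f_pp_012_b : ℕ → ℕ → ℕ → ℕ → Bool := onCell 536870912 536870912 1239849684 370763052 649613803 48318383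
    (rowB 3 eng mog cd0q0 cd3q2b pd1 2 false true true .pnp 0 1 2 (qsf 0 536870912 1239849684 370763052 1) ndB0q0 ndB3q2b pcB1 cut_pp_012_b Ext.none)

def k0_pp_012_b : ∃ t, chk3 f_pp_012_b t 2 1 1 = true :=
  ⟨(b (l 3) (l 2)), by decide +kernel⟩

def k1_pp_012_b : ∃ t, chk3 f_pp_012_b t 12 2 1 = true :=
  ⟨(b (a (l 3) (b (l 3) (l 3))) (l 3)), by decide +kernel⟩

def k2_pp_012_b : ∃ t, chk3 f_pp_012_b t 26 4 1 = true :=
  ⟨(b (a (a (a (b (b (b (b (a (c (l 39896104279) (c (l 39359233047) (l 38285491319))) (l 16717168)) (c (l 42580452583) (a (l 50096643015) (l 16716712)))) (c (c (l 44191057639) (l 46875410919)) (a (l 58149697719) (c (l 16713280) (l 36674858743))))) (c (b (l 50096622567) (l 54928445303)) (b (a (l 3) (l 42580439495)) (l 130090392583)))) (l 3)) (b (b (b (c (l 16715232) (l 16715192)) (b (l 16705200) (l 16702008))) (b (c (l 16696696) (l 16708112)) (c (l 16690016) (l 16694120)))) (b (c (l 56002165463) (b (l 16687992) (l 63518350695))) (b (b (l 52244081239) (l 157470774487)) (l 3))))) (b (a (b (b (l 16716464)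 (l 16710064)) (b (l 16703680) (l 16707800))) (b (l 16709208) (l 16685920))) (b (c (l 16680088) (b (l 16679040) (l 16693912))) (c (l 16667304) (b (l 16687832) (l 62444606391)))))) (a (b (b (l 16713584) (c (l 16700520) (l 16700704))) (b (a (l 16669064) (l 16664904)) (c (l 16673984) (l 16655144)))) (b (a (l 16690496) (l 16686432)) (b (l 16658656) (l 16645952))))) (a (a (l 3) (b (c (b (l 68887007671) (l 71571341047)) (b (b (l 64055209591) (l 65665812455)) (a (l 193977949703) (l 16637440)))) (a (l 3) (b (c (l 16617432) (l 68350127607)) (l 189146075111))))) (b (a (c (b (l 16639592) (l 16626000)) (b (l 16643040) (l 16630960))) (c (l 16625096) (b (l 16634264) (l 16622200)))) (a (b (c (l 16612208) (a (l 16621008) (l 16616704))) (a (c (l 16599776) (l 16640160)) (l 16598264))) (b (l 16607872) (l 16590408)))))), by decide +kernel⟩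

def k3_pp_012_b : ∃ t, chk3 f_pp_012_b t 27 4 1 = true :=
  ⟨(b (a (b (b (b (l 16676008) (l 16669312)) (a (l 16663360) (l 16676440))) (a (b (l 16650408) (l 16637632)) (b (l 16642368) (l 16629480)))) (b (b (a (l 16661464) (l 16654376)) (a (l 16647896) (l 16640640))) (a (b (l 16634624) (l 16621608)) (b (l 16627200) (l 16614032))))) (a (b (a (b (l 16624976) (l 16612336)) (b (l 16616768) (l 16604144))) (a (b (l 16599680) (l 16586952)) (c (l 16624808) (l 16586792)))) (a (b (b (l 16608816) (l 16596160)) (b (l 16583576) (l 16571008))) (b (b (l 16601120) (l 16588400)) (b (l 16575816) (l 16563272)))))), by decide +kernel⟩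

def k4_pp_012_b : ∃ t, chk3 f_pp_012_b t 13 5 1 = true :=
  ⟨(a (a (l 3) (b (b (c (b (a (l 16604432) (l 16576936)) (a (l 78550561303) (l 16562368))) (a (b (c (l 16591744) (l 75866257959)) (c (l 16578432) (l 74255622855))) (b (l 16585840) (l 16594280)))) (b (a (c (l 95730398327) (l 91435465431)) (b (l 16579056) (l 16573120))) (a (l 3) (l 16591072)))) (a (l 3) (b (a (l 16588968) (l 16584656)) (l 68350007911))))) (b (a (b (a (c (l 16562856) (l 16613144)) (l 16549280)) (b (c (l 16538424) (l 16590720)) (l 16600552))) (a (b (l 16536304) (l 16529560)) (b (b (l 16550720) (l 16538120)) (l 16506544)))) (a (b (a (l 16578048) (l 16527472)) (a (l 16531592) (l 16521568))) (b (c (l 16512064) (l 16517456)) (l 16507384))))), by decide +kernel⟩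

def k5_pp_012_b : ∃ t, chk3 f_pp_012_b t 6 3 1 = true :=
  ⟨(a (l 2) (b (a (l 3) (b (a (b (a (l 16530320) (l 16518848)) (l 73181783207)) (b (l 16502656) (l 16501400))) (a (l 2) (b (l 16504328) (l 2))))) (l 2))), by decide +kernel⟩

def k6_pp_012_b : ∃ t, chk3 f_pp_012_b t 14 2 1 = true :=
  ⟨(b (a (b (b (a (b (l 16643928) (l 16645520)) (b (l 16630976) (l 16616368))) (b (a (a (l 16619816) (l 16612464)) (l 16602008)) (a (c (a (l 16606192) (l 16598616)) (l 16644656)) (l 16598696)))) (a (b (b (a (c (l 16593000) (l 16593584)) (c (l 16585336) (l 16585896))) (a (c (l 16579960) (l 16581024)) (l 16573064))) (a (c (b (l 16566992) (l 16553984)) (l 16583592)) (b (l 16560472) (l 16548048)))) (a (b (b (l 16578408) (l 16565424)) (b (l 16552712) (l 16540216))) (b (b (l 16571224) (l 16558040)) (l 16533608))))) (a (b (b (b (l 16607528) (l 16604024)) (l 16603248)) (b (b (l 16561080) (l 16547560)) (b (l 16534408) (l 16521592)))) (b (b (b (l 16604840) (l 16591408)) (l 16570704)) (b (l 16541760) (l 16514496))))) (a (b (a (a (b (b (l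 16543224) (l 16530704)) (b (l 16518480) (l 16511368))) (b (b (l 16535664) (l 16523304)) (b (c (l 16507912) (l 16513328)) (l 16504000)))) (a (b (b (l 16527880) (l 16515592)) (b (l 16503632) (l 16496264))) (b (b (l 16520200) (l 16507936)) (b (l 16496000) (l 16488400))))) (a (b (b (l 16502408) (l 16497136)) (a (l 16494240) (l 16486048))) (a (b (l 16488008) (a (l 16479944) (l 16475784))) (b (l 16479808) (l 16469352))))) (b (b (a (l 16497640) (l 16488744)) (a (b (l 16484784) (l 16476848)) (b (l 16470432) (l 16461880)))) (b (a (l 16495168) (l 16451624)) (a (l 16498224) (l 16439632)))))), by decide +kernel⟩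

def k7_pp_012_b : ∃ t, chk3 f_pp_012_b t 15 2 1 = true :=
  ⟨(b (b (a (a (b (b (l 16591520) (l 16578472)) (l 16548216)) (b (b (l 16578080) (l 16565344)) (l 16567208))) (b (a (b (l 16564600) (l 16552048)) (b (l 16551160) (l 16538704))) (a (l 16533456) (l 16520424)))) (a (a (b (l 16531304) (l 16502504)) (b (l 16520320) (l 16493096))) (b (a (l 16508664) (l 16496504)) (a (l 16483208) (l 16451512))))) (b (b (a (c (l 16541864) (l 16520240)) (a (l 16456224) (l 16447480))) (a (a (l 16452248) (l 16460592)) (b (c (l 16433144) (l 16430552)) (l 16501720)))) (a (b (a (l 16436168) (l 16421608)) (a (l 16423024) (l 16406896))) (b (a (l 16408136) (l 16417168)) (a (l 16391552) (b (l 16381592) (l 16373064))))))), by decide +kernel⟩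

def k8_pp_012_b : ∃ t, chk3 f_pp_012_b t 7 3 1 = true :=
  ⟨(a (b (a (b (a (b (l 16482960) (l 16479184)) (a (b (l 16469344) (l 16463808)) (b (l 16460256) (l 16453936)))) (a (b (l 16479248) (l 2)) (b (c (l 16460040) (l 16452320)) (l 16458352)))) (b (b (a (l 16446824) (l 16429048)) (a (l 16439008) (l 16420176))) (a (b (l 16434584) (c (l 26406748071) (l 16427960))) (b (l 16413464) (l 16410744))))) (a (l 2) (b (a (b (c (l 85999438567) (l 16430696)) (l 2)) (a (l 21574933143) (l 16408552))) (l 2)))) (b (a (b (a (b (l 16411776) (l 16401920)) (b (l 16394640) (l 16384208))) (b (a (l 16394056) (l 16375152)) (l 16378352))) (b (a (b (l 16377896) (l 16366664)) (b (l 16361840) (l 16349304))) (a (b (l 16356768) (l 16349056)) (b (l 16339024) (l 16330376))))) (b (a (a (c (l 16397424) (l 16379624)) (l 16406600)) (a (b (l 16343408) (l 16341792)) (b (l 16360376) (l 16319480)))) (a (a (l 2) (l 16439736)) (a (c (l 16360776) (l 16335624)) (b (l 16319824) (l 16325208))))))), by decide +kernel⟩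

theorem s9_pp_012_b : ∃ t, chk3 f_pp_012_b t 7 2 1 = true := ex3_a k6_pp_012_b k7_pp_012_b

theorem s10_pp_012_b : ∃ t, chk3 f_pp_012_b t 7 1 1 = true := ex3_b s9_pp_012_b k8_pp_012_b

theorem s11_pp_012_b : ∃ t, chk3 f_pp_012_b t 13 4 1 = true := ex3_a k2_pp_012_b k3_pp_012_b

theorem s12_pp_012_b : ∃ t, chk3 f_pp_012_b t 13 2 1 = true := ex3_b s11_pp_012_b k4_pp_012_b

theorem s13_pp_012_b : ∃ t, chk3 f_pp_012_b t 6 2 1 = true := ex3_a k1_pp_012_b s12_pp_012_b

theorem s14_pp_012_b : ∃ t, chk3 f_pp_012_b t 6 1 1 = true := ex3_b s13_pp_012_b k5_pp_012_b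

theorem s15_pp_012_b : ∃ t, chk3 f_pp_012_b t 3 1 1 = true := ex3_a s14_pp_012_b s10_pp_012_b

theorem s16_pp_012_b : ∃ t, chk3 f_pp_012_b t 1 1 1 = true := ex3_a k0_pp_012_b s15_pp_012_b

theorem c_pp_012_b : CertB 0 536870912 1239849684 370763052 649613803 48318383 3 eng mog cd0q0 cd3q2b pd1 false true true .pnp 0 1 2
    ndB0q0 ndB3q2b pcB1 cut_pp_012_b Ext.none :=
  certB2 (fam := false) (s1 := true) (s2 := true) (a := 0) (b := 1) (c := 2) (cn := .pnp) (n1 := ndB0q0) (n2 := ndB3q2b) (pc := pcB1) (cut := cut_pp_012_b) (xt := Ext.none) (P1 := 0) (W1 := 536870912) (P2 := 1239849684) (W2 := 370763052) (P3 := 649613803) (W3 := 48318383) (N0 := 3) (En := eng) (mo := mog) (C1 := cd0q0) (C2 := cd3q2b) (C3 := pd1)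
    rfl (fun _ => rfl) s16_pp_012_b

noncomputable def cut_pp_022_a : Cut := Cut.of [[⟨0, 0, 0, 67108864⟩, ⟨1, 1, 0, 67108864⟩, ⟨2, 1, 0, 67108864⟩]]

noncomputable def f_pp_022_a : ℕ → ℕ → ℕ → ℕ → Bool := onCell 1073741824 536870912 0 536870912 649613803 48318383
    (rowB 3 eng mog cd0q0 cd3q2a pd2 2 false true true .pp 0 2 2 (qsf 0 536870912 0 536870912 2) ndB0q0 ndB3q2a pcB2 cut_pp_022_a Ext.none)

def k0_pp_022_a : ∃ t, chk3 f_pp_022_a t 8 2 1 = true :=
  ⟨(b (a (a (b (b (l 16544216) (l 16570912)) (b (c (l 16557856) (l 16555952)) (c (l 16586848) (l 16564600)))) (b (b (a (l 16535304) (l 16550296)) (l 16537672)) (b (l 16565264) (c (l 16553448) (l 16550728))))) (b (c (b (a (l 16543768) (l 16511208)) (l 16542464)) (b (a (l 16517184) (l 16504432)) (l 16515816))) (a (b (l 16531352) (l 16538680)) (b (l 16518232) (l 16525000))))) (b (a (b (a (b (l 16593208) (l 16598296)) (c (l 16562304) (l 16560096))) (a (b (l 16603904) (l 16609888)) (c (l 16572800) (l 16570816)))) (b (a (l 16568152) (l 16532880)) (a (l 16557128) (l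 16542160)))) (a (a (b (b (l 16616176) (l 16622816)) (b (l 16629792) (l 16637080))) (b (l 16604680) (l 16628352))) (b (a (l 16568368) (l 16552624)) (a (l 16580760) (l 16564200)))))), by decide +kernel⟩

def k1_pp_022_a : ∃ t, chk3 f_pp_022_a t 8 3 1 = true :=
  ⟨(b (a (b (a (b (b (l 16644680) (l 16631632)) (b (l 16639872) (l 16648408))) (b (l 16632216) (b (l 16622728) (l 16630744)))) (a (a (b (l 16666232) (a (l 16684904) (l 16682696))) (b (l 16657168) (l 16696384))) (b (b (l 16659904) (l 16668424)) (a (b (l 16661120) (l 16669976)) (b (l 16651272) (l 16659816)))))) (b (b (a (l 16615160) (l 16576744)) (a (b (l 16604952) (l 16612448)) (b (l 16586752) (l 16593728)))) (a (b (c (l 16647288) (l 16642696)) (b (l 16657168) (a (l 16649480) (l 16638960)))) (b (b (l 16600824) (l 16608136)) (b (a (l 16620808) (l 16610320)) (a (l 16628248) (l 16617320))))))) (a (b (b (a (a (b (l 16696616) (a (l 16705888) (l 16704440))) (a (l 16717872) (l 16702176))) (a (a (l 16696912) (b (l 16676496) (l 16685728))) (b (l 16668592) (l 16698496))))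 (l 6)) (l 6)) (a (b (b (b (a (l 16657880) (l 16646936)) (a (l 16666376) (l 16670688))) (l 6)) (l 6)) (b (a (b (b (l 16635768) (b (l 16641464) (l 6))) (l 6)) (a (b (b (l 16627248) (l 31708687879)) (l 6)) (b (b (l 16621448) (l 16628248)) (l 1)))) (l 1))))), by decide +kernel⟩

def k2_pp_022_a : ∃ t, chk3 f_pp_022_a t 9 1 1 = true :=
  ⟨(b (a (a (b (b (b (c (l 16499632) (l 16491672)) (l 16500016)) (b (l 16505048) (l 16511192))) (b (b (l 16518400) (l 16526952)) (b (l 16536672) (l 16547376)))) (b (b (c (l 16531800) (b (l 16478976) (l 16482776))) (b (l 16491896) (l 16497376))) (b (b (l 16503904) (l 16511696)) (b (l 16520592) (l 16530392))))) (b (b (a (c (l 16478352) (l 16468184)) (c (l 16467176) (l 16455792))) (a (b (l 16478960) (l 16483712)) (b (l 16466288) (l 16470200)))) (b (a (b (l 16489472) (l 16496440)) (b (l 16475048) (l 16481008))) (a (b (l 16504376) (l 16513056)) (b (l 16487792) (c (l 16501272) (l 16488544))))))) (b (b (a (b (a (l 16558984) (c (l 16545536) (l 16535944))) (a (b (l 16568200) (l 16574560)) (b (l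 16549152) (l 16554768)))) (b (a (c (l 16527784) (l 16516328)) (c (l 16509200) (l 16495768))) (a (b (l 16529328) (a (l 16539376) (l 16528728))) (l 1)))) (a (b (a (b (l 16580976) (a (l 16592776) (l 16582272))) (b (a (l 16565640) (l 16555080)) (a (l 16571528) (l 16560472)))) (a (b (a (l 16599584) (l 16588608)) (a (l 16606104) (l 16615576))) (b (a (l 16577360) (l 1)) (l 1)))) (b (a (b (a (l 16544256) (l 1)) (l 1)) (l 1)) (l 1)))) (b (b (a (a (b (a (b (l 16610968) (l 16614200)) (l 16600504)) (a (b (l 16617416) (l 1)) (l 1))) (l 1)) (l 1)) (l 1)) (l 1)))), by decide +kernel⟩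

def k3_pp_022_a : ∃ t, chk3 f_pp_022_a t 5 1 1 = true :=
  ⟨(b (a (a (a (b (b (c (l 16456224) (l 16443576)) (b (l 16453736) (l 16456648))) (b (b (l 16460408) (l 16465144)) (b (c (l 16477248) (l 16463304)) (c (l 16483320) (l 16468600))))) (b (a (b (l 16441896) (l 16466368)) (a (b (l 16437600) (l 16461384)) (b (l 16434720) (a (l 16469328) (l 1))))) (a (b (b (l 16449128) (l 16452768)) (l 1)) (l 1)))) (b (b (l 1) (l 1)) (l 1))) (l 1)) (b (l 1) (l 1))), by decide +kernel⟩

def k4_pp_022_a : ∃ t, chk3 f_pp_022_a t 3 1 1 = true :=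
  ⟨(l 1), by decide +kernel⟩

theorem s5_pp_022_a : ∃ t, chk3 f_pp_022_a t 8 1 1 = true := ex3_b k0_pp_022_a k1_pp_022_a

theorem s6_pp_022_a : ∃ t, chk3 f_pp_022_a t 4 1 1 = true := ex3_a s5_pp_022_a k2_pp_022_a

theorem s7_pp_022_a : ∃ t, chk3 f_pp_022_a t 2 1 1 = true := ex3_a s6_pp_022_a k3_pp_022_a

theorem s8_pp_022_a : ∃ t, chk3 f_pp_022_a t 1 1 1 = true := ex3_a s7_pp_022_a k4_pp_022_a

theorem c_pp_022_a : CertB 0 536870912 0 536870912 649613803 48318383 3 eng mog cd0q0 cd3q2a pd2 false true true .pp 0 2 2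
    ndB0q0 ndB3q2a pcB2 cut_pp_022_a Ext.none :=
  certB2 (fam := false) (s1 := true) (s2 := true) (a := 0) (b := 2) (c := 2) (cn := .pp) (n1 := ndB0q0) (n2 := ndB3q2a) (pc := pcB2) (cut := cut_pp_022_a) (xt := Ext.none) (P1 := 0) (W1 := 536870912) (P2 := 0) (W2 := 536870912) (P3 := 649613803) (W3 := 48318383) (N0 := 3) (En := eng) (mo := mog) (C1 := cd0q0) (C2 := cd3q2a) (C3 := pd2)
    rfl (fun _ => rfl) s8_pp_022_a

noncomputable def cut_pp_022_b : Cut := Cut.of [[⟨0, 0, 0, 67108864⟩, ⟨1, 1, 0, 67108864⟩, ⟨2, 1, 0, 67108864⟩]]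

noncomputable def f_pp_022_b : ℕ → ℕ → ℕ → ℕ → Bool := onCell 1073741824 536870912 1239849684 370763052 649613803 48318383
    (rowB 3 eng mog cd0q0 cd3q2b pd2 2 false true true .pp 0 2 2 (qsf 0 536870912 1239849684 370763052 2) ndB0q0 ndB3q2b pcB2 cut_pp_022_b Ext.none)

def k0_pp_022_b : ∃ t, chk3 f_pp_022_b t 4 2 1 = true :=
  ⟨(b (b (a (b (a (a (b (l 16534448) (l 16520144)) (b (a (l 16525696) (l 16519848)) (l 16550512))) (a (c (l 16548280) (l 16521896)) (a (l 16515944) (l 16489032)))) (a (a (l 16499272) (c (l 16489168) (l 16486496))) (a (l 16518360) (l 16485672)))) (b (a (a (c (l 16483608) (l 16475832)) (c (l 16472184) (l 16463272))) (a (c (l 16461024) (l 16451040)) (c (l 16450216) (l 16439168)))) (a (a (l 16452824) (l 16440936)) (a (l 16429080) (l 16417384))))) (b (a (a (a (l 16472128) (l 16482440)) (a (l 16450280) (l 16438832))) (a (a (l 16427080) (l 16415184)) (a (l 16403272) (l 16391408)))) (a (a (a (l 16445200) (l 16456624)) (c (l 16441664) (l 16439912))) (a (a (l 16402704) (l 16390888)) (l 16414832)))))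 (a (b (a (b (l 16414176) (l 16470296)) (b (a (l 16400624) (l 16390544)) (a (l 16375984) (l 16367224)))) (b (a (a (l 16364640) (l 16357560)) (l 16408096)) (a (a (l 16344480) (l 16337312)) (a (l 16328288) (l 16317584))))) (b (b (a (l 16415760) (l 16349872)) (a (c (l 16352536) (l 16351392)) (l 16349272))) (a (b (l 16329024) (l 16302224)) (b (l 16327976) (l 16283256)))))), by decide +kernel⟩

def k1_pp_022_b : ∃ t, chk3 f_pp_022_b t 5 2 1 = true :=
  ⟨(a (b (a (b (b (a (c (l 16439720) (l 16427568)) (c (l 16429592) (l 16416272))) (a (l 16406072) (l 16395152))) (b (a (l 16379672) (l 16368320)) (l 16369848))) (b (a (a (b (l 16415664) (l 16387248)) (b (a (l 16411704) (l 16429728)) (l 16402944))) (b (l 246993468775) (l 16391088))) (a (b (l 16399304) (l 16331744)) (b (l 16345304) (l 16321672))))) (a (b (b (l 16325584) (l 16303616)) (b (l 16282080) (l 16300944))) (b (a (b (l 16307768) (l 16285200)) (l 16309960)) (a (a (l 16254440) (l 16248120)) (l 16248304))))) (b (a (b (b (l 1) (a (l 242161545143) (l 1))) (b (a (l 16330272)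 (l 159483319927)) (a (l 16310296) (l 16296784)))) (b (l 1) (b (a (l 246456334599) (l 1)) (a (l 181494940023) (l 240550695863))))) (b (a (b (l 16286664) (l 16270840)) (b (a (l 16269312) (l 198137916455)) (a (l 16258032) (l 16247512)))) (a (l 16247784) (l 16238624))))), by decide +kernel⟩

def k2_pp_022_b : ∃ t, chk3 f_pp_022_b t 2 3 1 = true :=
  ⟨(a (b (a (a (b (a (b (l 16328320) (l 16315416)) (b (l 16321112) (l 16308472))) (b (a (l 16305192) (l 16298552)) (a (l 16297000) (l 16290912)))) (b (a (b (l 16312128) (l 16299656)) (b (l 16301424) (l 16289040))) (b (l 16285296) (l 16320496)))) (a (b (b (l 16303808) (a (l 16277080) (l 16263720))) (a (b (l 16268192) (l 16262312)) (b (l 16255168) (l 16249720)))) (b (l 16403008) (b (a (l 16240008) (l 16222608)) (l 16352928))))) (a (b (a (b (a (l 16290128) (l 16284712)) (a (l 16285616) (l 16279528))) (b (l 16273568) (l 16268648))) (a (b (l 16280072) (l 16282184)) (b (l 16266168) (l 16265800)))) (b (a (a (b (l 16258344) (l 16255776)) (b (l 16246568) (l 16244776))) (a (l 16253392)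 (l 16217088))) (a (a (l 16273600) (a (l 16244800) (l 16241384))) (a (l 16233128) (l 16220536)))))) (a (b (a (b (l 16219784) (b (l 16194064) (l 16189296))) (b (a (l 16200768) (l 16203392)) (a (l 16160456) (l 16149248)))) (a (b (a (l 16199384) (l 16179592)) (a (l 16205432) (l 16188152))) (b (a (l 16261872) (l 16141448)) (a (l 16168408) (l 16155464))))) (b (b (a (l 16215248) (l 16218576)) (a (l 16177360) (l 16196256))) (b (a (l 16128176) (l 16168824)) (a (l 16132224) (l 16130344)))))), by decide +kernel⟩

def k3_pp_022_b : ∃ t, chk3 f_pp_022_b t 3 1 1 = true :=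
  ⟨(b (a (b (l 1) (a (b (a (b (a (l 230350101847) (l 1)) (b (a (l 16236888) (l 275447223591)) (l 200285446775))) (b (l 1) (a (l 329671155575) (l 1)))) (a (b (l 16224776) (l 16219880)) (b (l 211559542215) (l 16201256)))) (a (a (b (l 1) (l 257730404103)) (l 1)) (l 1)))) (l 1)) (a (b (a (b (a (l 16212048) (l 16199776)) (a (l 16201064) (l 16197000))) (b (a (a (l 16188104) (l 254509397959)) (b (l 294237587911) (l 227665872119))) (a (l 16188840) (b (l 16177904) (l 16183600))))) (a (b (l 16192616) (l 16182104)) (a (l 16258400) (b (l 16191912) (l 16203664))))) (b (a (b (l 1) (a (b (l 306585907223) (l 16176016)) (l 337187253607))) (l 1)) (a (b (a (l 16188776) (l 170220762999)) (l 16289728)) (b (a (l 351146292903) (l 1)) (a (l 16205376) (l 16206608))))))), by decide +kernel⟩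

theorem s4_pp_022_b : ∃ t, chk3 f_pp_022_b t 2 2 1 = true := ex3_a k0_pp_022_b k1_pp_022_b

theorem s5_pp_022_b : ∃ t, chk3 f_pp_022_b t 2 1 1 = true := ex3_b s4_pp_022_b k2_pp_022_b

theorem s6_pp_022_b : ∃ t, chk3 f_pp_022_b t 1 1 1 = true := ex3_a s5_pp_022_b k3_pp_022_b

theorem c_pp_022_b : CertB 0 536870912 1239849684 370763052 649613803 48318383 3 eng mog cd0q0 cd3q2b pd2 false true true .pp 0 2 2
    ndB0q0 ndB3q2b pcB2 cut_pp_022_b Ext.none :=
  certB2 (fam := false) (s1 := true) (s2 := true) (a := 0) (b := 2) (c := 2) (cn := .pp) (n1 := ndB0q0) (n2 := ndB3q2b) (pc := pcB2) (cut := cut_pp_022_b) (xt := Ext.none) (P1 := 0) (W1 := 536870912) (P2 := 1239849684) (W2 := 370763052) (P3 := 649613803) (W3 := 48318383) (N0 := 3) (En := eng) (mo := mog) (C1 := cd0q0) (C2 := cd3q2b) (C3 := pd2)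
    rfl (fun _ => rfl) s6_pp_022_b

noncomputable def f_pp_023 : ℕ → ℕ → ℕ → ℕ → Bool := onCell 0 536870912 1073741824 536870912 649613803 48318383
    (rowB 3 eng mog cd0q0 cd3q3 pd2 1 false true true .up 0 2 3 (qsf 0 536870912 1610612736 536870912 2) ndB0q0 ndB3q3 pcB2 Cut.none Ext.none)

def k0_pp_023 : ∃ t, chk3 f_pp_023 t 1 1 1 = true :=
  ⟨(a (b (b (l 1) (a (l 1) (b (l 1) (a (l 1) (l 249677646599))))) (b (a (a (l 1) (b (l 1) (l 295311790503))) (b (a (l 265783523815) (l 16158160)) (a (l 16213176) (l 16193160)))) (a (b (a (l 346314446567) (l 16200744)) (a (l 362957533367) (l 16233280))) (b (a (l 16224080) (l 16244368)) (a (l 16266528) (l 16303632)))))) (b (b (a (b (l 1) (a (l 1) (b (l 1) (a (l 1) (l 192769330423))))) (b (a (a (l 1) (l 222834007463)) (a (l 177737082471) (l 214244313191))) (a (b (a (l 195453732071) (l 16265592)) (a (l 16244944) (l 16250976))) (b (l 16281000) (l 16271408))))) (a (b (a (b (l 1) (b (l 1) (l 16328320))) (b (l 150893357495) (b (l 16277800) (l 16193144)))) (a (l 93984958663) (l 16309088)))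 (b (a (b (l 16252696) (b (l 16220360) (l 16225096))) (b (l 16263296) (l 16262080))) (a (l 16253408) (l 16312528))))) (a (b (b (a (l 16097024) (l 16205888)) (a (l 16168024) (l 16297096))) (b (a (l 16294760) (l 16432792)) (a (l 16420000) (l 16521256)))) (b (b (a (l 16306816) (l 16428656)) (a (l 16432688) (l 16518544))) (b (a (l 16527840) (l 16588296)) (l 16614936)))))), by decide +kernel⟩

theorem c_pp_023 : CertB 0 536870912 1610612736 536870912 649613803 48318383 3 eng mog cd0q0 cd3q3 pd2 false true true .up 0 2 3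
    ndB0q0 ndB3q3 pcB2 Cut.none Ext.none :=
  certB1 (fam := false) (s1 := true) (s2 := true) (a := 0) (b := 2) (c := 3) (cn := .up) (n1 := ndB0q0) (n2 := ndB3q3) (pc := pcB2) (cut := Cut.none) (xt := Ext.none) (P1 := 0) (W1 := 536870912) (P2 := 1610612736) (W2 := 536870912) (P3 := 649613803) (W3 := 48318383) (N0 := 3) (En := eng) (mo := mog) (C1 := cd0q0) (C2 := cd3q3) (C3 := pd2)
    rfl (fun _ => rfl) k0_pp_023

noncomputable def f_pp_033 : ℕ → ℕ → ℕ → ℕ → Bool := onCell 1610612736 536870912 1610612736 536870912 649613803 48318383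
    (rowB 3 eng mog cd0q0 cd3q3 pd3 2 false true true .pnn 0 3 3 (qsf 0 536870912 1610612736 536870912 3) ndB0q0 ndB3q3 pcB3 Cut.none Ext.none)

def k0_pp_033 : ∃ t, chk3 f_pp_033 t 1 1 1 = true :=
  ⟨(a (a (b (b (a (b (l 367789153911) (l 16167920)) (b (l 435971707319) (l 16103928))) (a (b (l 16191144) (l 16286712)) (b (l 16142552) (l 16228744)))) (b (a (b (l 16396504) (l 16498392)) (b (l 16328336) (l 16431848))) (a (l 16604144) (b (l 16525344) (l 16593832))))) (b (b (a (b (l 1) (l 445098400567)) (l 1)) (a (b (l 16131928) (l 16203608)) (b (l 478921053719) (l 394633044183)))) (b (a (b (l 16283912) (l 16375216)) (b (l 16271880) (l 16341376))) (a (b (l 16469744) (l 16554776)) (b (l 16423456) (l 4)))))) (a (b (b (l 1) (b (l 1) (l 4))) (l 4)) (l 4))), by decide +kernel⟩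

theorem c_pp_033 : CertB 0 536870912 1610612736 536870912 649613803 48318383 3 eng mog cd0q0 cd3q3 pd3 false true true .pnn 0 3 3
    ndB0q0 ndB3q3 pcB3 Cut.none Ext.none :=
  certB2 (fam := false) (s1 := true) (s2 := true) (a := 0) (b := 3) (c := 3) (cn := .pnn) (n1 := ndB0q0) (n2 := ndB3q3) (pc := pcB3) (cut := Cut.none) (xt := Ext.none) (P1 := 0) (W1 := 536870912) (P2 := 1610612736) (W2 := 536870912) (P3 := 649613803) (W3 := 48318383) (N0 := 3) (En := eng) (mo := mog) (C1 := cd0q0) (C2 := cd3q3) (C3 := pd3)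
    rfl (fun _ => rfl) k0_pp_033

noncomputable def f_pp_101 : ℕ → ℕ → ℕ → ℕ → Bool := onCell 536870912 536870912 536870912 536870912 649613803 48318383
    (rowB 3 eng mog cd0q1 cd3q1 pd0 0 false true true .npn 1 0 1 (qsf 536870912 536870912 536870912 536870912 0) ndB0q1 ndB3q1 pcB0 Cut.none Ext.none)

def k0_pp_101 : ∃ t, chk3 f_pp_101 t 1 1 1 = true :=
  ⟨(l 3), by decide +kernel⟩

theorem c_pp_101 : CertB 536870912 536870912 536870912 536870912 649613803 48318383 3 eng mog cd0q1 cd3q1 pd0 false true true .npn 1 0 1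
    ndB0q1 ndB3q1 pcB0 Cut.none Ext.none :=
  certB0 (fam := false) (s1 := true) (s2 := true) (a := 1) (b := 0) (c := 1) (cn := .npn) (n1 := ndB0q1) (n2 := ndB3q1) (pc := pcB0) (cut := Cut.none) (xt := Ext.none) (P1 := 536870912) (W1 := 536870912) (P2 := 536870912) (W2 := 536870912) (P3 := 649613803) (W3 := 48318383) (N0 := 3) (En := eng) (mo := mog) (C1 := cd0q1) (C2 := cd3q1) (C3 := pd0)
    rfl k0_pp_101

noncomputable def f_pp_102_a : ℕ → ℕ → ℕ → ℕ → Bool := onCell 536870912 536870912 0 536870912 649613803 48318383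
    (rowB 3 eng mog cd0q1 cd3q2a pd0 0 false true true .npp 1 0 2 (qsf 536870912 536870912 0 536870912 0) ndB0q1 ndB3q2a pcB0 Cut.none Ext.none)

def k0_pp_102_a : ∃ t, chk3 f_pp_102_a t 1 1 1 = true :=
  ⟨(l 3), by decide +kernel⟩

theorem c_pp_102_a : CertB 536870912 536870912 0 536870912 649613803 48318383 3 eng mog cd0q1 cd3q2a pd0 false true true .npp 1 0 2
    ndB0q1 ndB3q2a pcB0 Cut.none Ext.none :=
  certB0 (fam := false) (s1 := true) (s2 := true) (a := 1) (b := 0) (c := 2) (cn := .npp) (n1 := ndB0q1) (n2 := ndB3q2a) (pc := pcB0) (cut := Cut.none) (xt := Ext.none) (P1 := 536870912) (W1 := 536870912) (P2 := 0) (W2 := 536870912) (P3 := 649613803) (W3 := 48318383) (N0 := 3) (En := eng) (mo := mog) (C1 := cd0q1) (C2 := cd3q2a) (C3 := pd0)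
    rfl k0_pp_102_a

noncomputable def f_pp_102_b : ℕ → ℕ → ℕ → ℕ → Bool := onCell 536870912 536870912 0 536870912 649613803 48318383
    (rowB 3 eng mog cd0q1 cd3q2b pd0 1 false true true .npp 1 0 2 (qsf 536870912 536870912 1239849684 370763052 0) ndB0q1 ndB3q2b pcB0 Cut.none Ext.none)

def k0_pp_102_b : ∃ t, chk3 f_pp_102_b t 1 1 1 = true :=
  ⟨(l 3), by decide +kernel⟩

theorem c_pp_102_b : CertB 536870912 536870912 1239849684 370763052 649613803 48318383 3 eng mog cd0q1 cd3q2b pd0 false true true .npp 1 0 2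
    ndB0q1 ndB3q2b pcB0 Cut.none Ext.none :=
  certB1 (fam := false) (s1 := true) (s2 := true) (a := 1) (b := 0) (c := 2) (cn := .npp) (n1 := ndB0q1) (n2 := ndB3q2b) (pc := pcB0) (cut := Cut.none) (xt := Ext.none) (P1 := 536870912) (W1 := 536870912) (P2 := 1239849684) (W2 := 370763052) (P3 := 649613803) (W3 := 48318383) (N0 := 3) (En := eng) (mo := mog) (C1 := cd0q1) (C2 := cd3q2b) (C3 := pd0)
    rfl (fun _ => rfl) k0_pp_102_b

noncomputable def f_pp_112_a : ℕ → ℕ → ℕ → ℕ → Bool := onCell 536870912 536870912 0 536870912 649613803 48318383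
    (rowB 3 eng mog cd0q1 cd3q2a pd1 0 false true true .dn 1 1 2 (qsf 536870912 536870912 0 536870912 1) ndB0q1 ndB3q2a pcB1 Cut.none Ext.none)

def k0_pp_112_a : ∃ t, chk3 f_pp_112_a t 1 1 1 = true :=
  ⟨(l 3), by decide +kernel⟩

theorem c_pp_112_a : CertB 536870912 536870912 0 536870912 649613803 48318383 3 eng mog cd0q1 cd3q2a pd1 false true true .dn 1 1 2
    ndB0q1 ndB3q2a pcB1 Cut.none Ext.none :=
  certB0 (fam := false) (s1 := true) (s2 := true) (a := 1) (b := 1) (c := 2) (cn := .dn) (n1 := ndB0q1) (n2 := ndB3q2a) (pc := pcB1) (cut := Cut.none) (xt := Ext.none) (P1 := 536870912) (W1 := 536870912) (P2 := 0) (W2 := 536870912) (P3 := 649613803) (W3 := 48318383) (N0 := 3) (En := eng) (mo := mog) (C1 := cd0q1) (C2 := cd3q2a) (C3 := pd1)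
    rfl k0_pp_112_a

noncomputable def f_pp_112_b : ℕ → ℕ → ℕ → ℕ → Bool := onCell 536870912 536870912 536870912 536870912 649613803 48318383
    (rowB 3 eng mog cd0q1 cd3q2b pd1 1 false true true .dn 1 1 2 (qsf 536870912 536870912 1239849684 370763052 1) ndB0q1 ndB3q2b pcB1 Cut.none Ext.none)

def k0_pp_112_b : ∃ t, chk3 f_pp_112_b t 1 1 1 = true :=
  ⟨(b (a (l 3) (l 3)) (a (b (a (b (l 3) (b (l 3) (a (b (a (a (l 16526088) (l 16529760)) (l 3)) (a (l 16504712) (l 16517320))) (a (b (l 3) (a (l 16532752) (l 134921995847))) (l 3))))) (l 3)) (a (a (b (b (b (a (l 16482592) (l 16496176)) (b (a (l 16466520) (l 16481072)) (a (l 16455976) (c (l 16480640) (l 16461376))))) (a (b (a (l 16458584) (a (l 16441664) (l 16445240))) (l 16418464)) (a (b (a (l 16449464) (l 16454272)) (l 16431552)) (c (b (l 16473992) (l 16456432)) (l 16440656))))) (b (a (l 16449200) (c (l 16443144) (l 16393064))) (a (c (l 16358864) (l 16330216)) (l 16391584)))) (b (b (a (b (a (l 16512672) (l 16568960)) (c (a (c (l 16510936) (l 16499824)) (b (l 16526488)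 (l 16518912))) (l 16488888))) (c (b (b (a (l 16561296) (l 163913012711)) (a (l 16553712) (l 44660616967))) (a (b (l 16546592) (l 28554401847)) (b (l 36607532567) (l 2)))) (b (l 16539952) (l 16522904)))) (b (a (c (c (a (l 16495648) (l 13521944023)) (l 16491472)) (l 16470328)) (a (a (b (l 16553848) (l 2)) (l 2)) (l 2))) (a (c (b (a (c (l 16484368) (l 16470536)) (l 22111878343)) (l 32312425703)) (l 16451952)) (l 2)))) (a (b (b (l 18353775831) (l 2)) (l 2)) (l 2)))) (b (a (b (b (b (l 3) (l 2)) (l 2)) (l 2)) (l 2)) (l 2)))) (b (l 3) (l 2)))), by decide +kernel⟩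

theorem c_pp_112_b : CertB 536870912 536870912 1239849684 370763052 649613803 48318383 3 eng mog cd0q1 cd3q2b pd1 false true true .dn 1 1 2
    ndB0q1 ndB3q2b pcB1 Cut.none Ext.none :=
  certB1 (fam := false) (s1 := true) (s2 := true) (a := 1) (b := 1) (c := 2) (cn := .dn) (n1 := ndB0q1) (n2 := ndB3q2b) (pc := pcB1) (cut := Cut.none) (xt := Ext.none) (P1 := 536870912) (W1 := 536870912) (P2 := 1239849684) (W2 := 370763052) (P3 := 649613803) (W3 := 48318383) (N0 := 3) (En := eng) (mo := mog) (C1 := cd0q1) (C2 := cd3q2b) (C3 := pd1)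
    rfl (fun _ => rfl) k0_pp_112_b

noncomputable def cut_pp_113 : Cut := Cut.of [[⟨0, 1, 0, 67108864⟩, ⟨1, 1, 0, 67108864⟩, ⟨2, 2, 0, 16777216⟩]]

noncomputable def f_pp_113 : ℕ → ℕ → ℕ → ℕ → Bool := onCell 536870912 536870912 536870912 536870912 649613803 48318383
    (rowB 3 eng mog cd0q1 cd3q3 pd1 1 false true true .nn 1 1 3 (qsf 536870912 536870912 1610612736 536870912 1) ndB0q1 ndB3q3 pcB1 cut_pp_113 Ext.none)

def k0_pp_113 : ∃ t, chk3 f_pp_113 t 1 2 1 = true :=
  ⟨(a (l 3) (l 3)), by decide +kernel⟩

def k1_pp_113 : ∃ t, chk3 f_pp_113 t 2 3 1 = true :=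
  ⟨(b (a (a (l 1) (a (l 1) (a (l 1) (l 3)))) (l 3)) (a (b (a (b (l 1) (a (l 1) (b (l 1) (l 173979211511)))) (b (b (a (l 1) (l 44593547767)) (a (l 117071016839) (l 16568840))) (a (b (l 16512336) (l 16497480)) (b (l 16557560) (l 16547328))))) (a (b (a (l 103649074199) (l 16435288)) (a (l 16369832) (l 16401752))) (b (a (l 16475464) (l 16532112)) (l 16480000)))) (b (a (b (a (b (l 140827682823) (a (l 16609280) (l 16640816))) (b (l 3) (a (l 76940069911) (l 59760279079)))) (a (b (l 16618504) (l 16613792)) (b (b (l 16695376) (l 16696280)) (l 16688552)))) (b (a (b (l 3) (a (l 48486026887) (l 3))) (l 3)) (a (b (a (l 16731920) (l 105394415335)) (l 16729976)) (b (a (l 90362049799) (l 74255951175)) (l 16741464))))) (a (b (a (l 16607608) (l 16672608)) (a (l 16598000) (l 16652712))) (b (a (b (l 16718824) (l 16707480)) (a (l 16715296) (l 16730592))) (a (l 16691600) (l 16762672))))))), by decide +kernel⟩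

def k2_pp_113 : ∃ t, chk3 f_pp_113 t 3 6 1 = true :=
  ⟨(l 3), by decide +kernel⟩

def k3_pp_113 : ∃ t, chk3 f_pp_113 t 6 7 1 = true :=
  ⟨(b (a (b (l 3) (a (b (a (l 16782704) (l 3)) (a (l 16788160) (l 16808224))) (b (l 3) (a (l 124721908407) (l 207400105479))))) (l 3)) (a (b (a (b (l 16784232) (l 16770720)) (b (a (l 16814104) (l 16835736)) (l 16809368))) (a (b (l 16757184) (l 16744632)) (b (l 16794192) (l 16778936)))) (b (a (b (a (l 138680627431) (b (l 154786921495) (l 16873800))) (a (l 16839632) (l 16858872))) (b (a (b (l 3) (l 16935568)) (l 3)) (a (l 16897464) (b (l 108079116999) (l 16884856))))) (a (b (l 16831192) (l 16813240)) (b (a (l 16855544) (l 16867800)) (l 16859640)))))), by decide +kernel⟩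

def k4_pp_113 : ∃ t, chk3 f_pp_113 t 7 7 1 = true :=
  ⟨(b (l 3) (a (b (b (l 3) (a (a (b (l 191294051207) (l 16894016)) (b (l 3) (l 218137519735))) (a (l 3) (l 3)))) (b (a (a (l 16875504) (b (l 16885400) (l 16872520))) (a (b (l 211695008519) (l 16871344)) (b (a (l 262160834455) (l 3)) (b (l 234243544647) (l 16862960))))) (a (l 16853216) (a (l 16851264) (l 16845456))))) (b (l 3) (a (b (b (l 3) (a (a (b (l 308868580423) (l 16813480)) (b (l 3) (l 317995370295))) (a (l 3) (l 3)))) (c (a (l 16832968) (b (a (l 215989930503) (b (l 527911972823) (l 16823720))) (l 16816216))) (a (b (l 16802808) (l 16833920)) (b (c (a (l 246591559047) (b (l 486036028599) (l 16798264))) (a (l 251960252023) (b (l 484425405703) (l 254644607351)))) (l 16780408))))) (b (l 3) (a (b (b (l 3) (a (c (a (l 260013321399) (l 517711377383)) (b (l 474761737159) (a (l 254644604311) (l 450065661751)))) (c (l 576767181847) (b (l 3) (l 488183480855))))) (c (a (l 16791680) (b (a (l 247665278919) (b (l 519858861047) (l 16784904))) (l 16797584))) (a (b (b (l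 16784112) (l 16808056)) (l 16808232)) (b (b (a (b (l 444160062551) (l 255718339367)) (b (l 3) (l 452213127655))) (a (l 16779920) (c (l 257328953447) (l 309405456087)))) (l 16778056))))) (b (l 3) (a (b (b (l 3) (c (a (b (l 525764430759) (l 263234528887)) (l 600389476887)) (c (a (b (l 468856108615) (l 320679742839)) (l 510732030023)) (a (a (l 339470217431) (l 442012556935)) (l 465097998951))))) (a (b (c (l 16794376) (b (a (l 16793112) (l 16790888)) (l 16792128))) (l 16791872)) (b (a (c (l 253033977991) (b (c (l 321753474391) (l 334101500647)) (l 6))) (l 6)) (l 6)))) (b (l 3) (l 6)))))))))), by decide +kernel⟩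

theorem s5_pp_113 : ∃ t, chk3 f_pp_113 t 3 7 1 = true := ex3_a k3_pp_113 k4_pp_113

theorem s6_pp_113 : ∃ t, chk3 f_pp_113 t 3 3 1 = true := ex3_b k2_pp_113 s5_pp_113

theorem s7_pp_113 : ∃ t, chk3 f_pp_113 t 1 3 1 = true := ex3_a k1_pp_113 s6_pp_113

theorem s8_pp_113 : ∃ t, chk3 f_pp_113 t 1 1 1 = true := ex3_b k0_pp_113 s7_pp_113

theorem c_pp_113 : CertB 536870912 536870912 1610612736 536870912 649613803 48318383 3 eng mog cd0q1 cd3q3 pd1 false true true .nn 1 1 3
    ndB0q1 ndB3q3 pcB1 cut_pp_113 Ext.none :=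
  certB1 (fam := false) (s1 := true) (s2 := true) (a := 1) (b := 1) (c := 3) (cn := .nn) (n1 := ndB0q1) (n2 := ndB3q3) (pc := pcB1) (cut := cut_pp_113) (xt := Ext.none) (P1 := 536870912) (W1 := 536870912) (P2 := 1610612736) (W2 := 536870912) (P3 := 649613803) (W3 := 48318383) (N0 := 3) (En := eng) (mo := mog) (C1 := cd0q1) (C2 := cd3q3) (C3 := pd1)
    rfl (fun _ => rfl) s8_pp_113

noncomputable def cut_pp_123 : Cut := Cut.of [[⟨0, 1, 0, 67108864⟩, ⟨1, 1, 0, 67108864⟩, ⟨2, 2, 0, 16777216⟩]]

noncomputable def f_pp_123 : ℕ → ℕ → ℕ → ℕ → Bool := onCell 536870912 536870912 1073741824 536870912 649613803 48318383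
    (rowB 3 eng mog cd0q1 cd3q3 pd2 1 false true true .npn 1 2 3 (qsf 536870912 536870912 1610612736 536870912 2) ndB0q1 ndB3q3 pcB2 cut_pp_123 Ext.none)

def k0_pp_123 : ∃ t, chk3 f_pp_123 t 1 1 1 = true :=
  ⟨(a (b (b (a (a (a (b (l 16328872) (l 16322328)) (b (l 16369688) (l 16373240))) (b (a (l 16426904) (l 16503688)) (l 16472192))) (a (b (a (l 16568264) (l 16616784)) (l 16569744)) (b (a (l 16634944) (b (l 16686336) (l 16663816))) (b (l 16630264) (l 16605896))))) (a (b (b (a (b (l 16344800) (l 16347944)) (b (l 16469232) (l 16467976))) (a (l 16364048) (l 16469984))) (a (l 16435320) (l 16517808))) (b (a (b (b (l 16549400) (l 16519520)) (l 16658608)) (b (b (l 16586664) (l 16826104)) (l 16726816))) (a (l 16564056) (l 16581080))))) (a (b (b (a (l 16516736) (l 16574456)) (l 16601944)) (b (l 16647656) (a (l 16669704) (l 16699576)))) (b (b (a (l 16605320) (l 16614880)) (a (l 16641128) (l 16733992))) (a (b (l 16684984) (l 2)) (l 2))))) (b (a (b (a (b (b (a (l 16714152) (l 16746416)) (a (l 16687056) (l 16714312))) (b (l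 16669728) (l 16636904))) (b (a (b (l 16778616) (l 16741584)) (b (l 16804120) (l 16762880))) (b (a (l 16702272) (l 16718888)) (l 16649720)))) (b (a (b (b (l 16612464) (l 16786304)) (l 16788176)) (b (b (l 16748096) (a (l 16621640) (l 16636856))) (a (l 16601768) (l 16611224)))) (a (l 16633336) (a (l 16607200) (l 2))))) (b (b (a (a (b (l 16815144) (l 16770984)) (b (l 16810248) (l 16764384))) (b (a (a (l 16798672) (b (l 16799136) (l 16777312))) (b (a (c (l 16786160) (l 16814504)) (a (a (l 16802464) (l 6)) (b (l 6) (l 450535359079)))) (l 385037150679))) (a (l 16745856) (l 416712563751)))) (a (a (l 16763440) (l 16762480)) (a (a (l 16808672) (l 2)) (l 2)))) (a (b (b (b (l 16647920) (l 2)) (l 2)) (l 2)) (l 2)))) (a (b (a (b (l 21038903751) (l 2)) (l 2)) (l 2)) (l 2)))), by decide +kernel⟩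

theorem c_pp_123 : CertB 536870912 536870912 1610612736 536870912 649613803 48318383 3 eng mog cd0q1 cd3q3 pd2 false true true .npn 1 2 3
    ndB0q1 ndB3q3 pcB2 cut_pp_123 Ext.none :=
  certB1 (fam := false) (s1 := true) (s2 := true) (a := 1) (b := 2) (c := 3) (cn := .npn) (n1 := ndB0q1) (n2 := ndB3q3) (pc := pcB2) (cut := cut_pp_123) (xt := Ext.none) (P1 := 536870912) (W1 := 536870912) (P2 := 1610612736) (W2 := 536870912) (P3 := 649613803) (W3 := 48318383) (N0 := 3) (En := eng) (mo := mog) (C1 := cd0q1) (C2 := cd3q3) (C3 := pd2)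
    rfl (fun _ => rfl) k0_pp_123

noncomputable def f_pp_133 : ℕ → ℕ → ℕ → ℕ → Bool := onCell 536870912 536870912 1610612736 536870912 649613803 48318383
    (rowB 3 eng mog cd0q1 cd3q3 pd3 0 false true true .dn 1 3 3 (qsf 536870912 536870912 1610612736 536870912 3) ndB0q1 ndB3q3 pcB3 Cut.none Ext.none)

def k0_pp_133 : ∃ t, chk3 f_pp_133 t 1 1 1 = true :=
  ⟨(a (a (b (l 1) (b (l 1) (a (l 406982053831) (l 1)))) (l 1)) (l 1)), by decide +kernel⟩

theorem c_pp_133 : CertB 536870912 536870912 1610612736 536870912 649613803 48318383 3 eng mog cd0q1 cd3q3 pd3 false true true .dn 1 3 3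
    ndB0q1 ndB3q3 pcB3 Cut.none Ext.none :=
  certB0 (fam := false) (s1 := true) (s2 := true) (a := 1) (b := 3) (c := 3) (cn := .dn) (n1 := ndB0q1) (n2 := ndB3q3) (pc := pcB3) (cut := Cut.none) (xt := Ext.none) (P1 := 536870912) (W1 := 536870912) (P2 := 1610612736) (W2 := 536870912) (P3 := 649613803) (W3 := 48318383) (N0 := 3) (En := eng) (mo := mog) (C1 := cd0q1) (C2 := cd3q3) (C3 := pd3)
    rfl k0_pp_133

noncomputable def f_pp_202_a : ℕ → ℕ → ℕ → ℕ → Bool := onCell 0 536870912 0 536870912 649613803 48318383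
    (rowB 3 eng mog cd0q2 cd3q2a pd0 0 false true true .pp 2 0 2 (qsf 0 536870912 0 536870912 0) ndB0q2 ndB3q2a pcB0 Cut.none Ext.none)

def k0_pp_202_a : ∃ t, chk3 f_pp_202_a t 1 1 1 = true :=
  ⟨(l 3), by decide +kernel⟩

theorem c_pp_202_a : CertB 0 536870912 0 536870912 649613803 48318383 3 eng mog cd0q2 cd3q2a pd0 false true true .pp 2 0 2
    ndB0q2 ndB3q2a pcB0 Cut.none Ext.none :=
  certB0 (fam := false) (s1 := true) (s2 := true) (a := 2) (b := 0) (c := 2) (cn := .pp) (n1 := ndB0q2) (n2 := ndB3q2a) (pc := pcB0) (cut := Cut.none) (xt := Ext.none) (P1 := 0) (W1 := 536870912) (P2 := 0) (W2 := 536870912) (P3 := 649613803) (W3 := 48318383) (N0 := 3) (En := eng) (mo := mog) (C1 := cd0q2) (C2 := cd3q2a) (C3 := pd0)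
    rfl k0_pp_202_a

noncomputable def f_pp_202_b : ℕ → ℕ → ℕ → ℕ → Bool := onCell 0 536870912 1239849684 370763052 649613803 48318383
    (rowB 3 eng mog cd0q2 cd3q2b pd0 0 false true true .pp 2 0 2 (qsf 0 536870912 1239849684 370763052 0) ndB0q2 ndB3q2b pcB0 Cut.none Ext.none)

def k0_pp_202_b : ∃ t, chk3 f_pp_202_b t 1 1 1 = true :=
  ⟨(l 3), by decide +kernel⟩

theorem c_pp_202_b : CertB 0 536870912 1239849684 370763052 649613803 48318383 3 eng mog cd0q2 cd3q2b pd0 false true true .pp 2 0 2
    ndB0q2 ndB3q2b pcB0 Cut.none Ext.none :=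
  certB0 (fam := false) (s1 := true) (s2 := true) (a := 2) (b := 0) (c := 2) (cn := .pp) (n1 := ndB0q2) (n2 := ndB3q2b) (pc := pcB0) (cut := Cut.none) (xt := Ext.none) (P1 := 0) (W1 := 536870912) (P2 := 1239849684) (W2 := 370763052) (P3 := 649613803) (W3 := 48318383) (N0 := 3) (En := eng) (mo := mog) (C1 := cd0q2) (C2 := cd3q2b) (C3 := pd0)
    rfl k0_pp_202_b

noncomputable def f_pp_203 : ℕ → ℕ → ℕ → ℕ → Bool := onCell 0 536870912 0 536870912 649613803 48318383
    (rowB 3 eng mog cd0q2 cd3q3 pd0 1 false true true .up 2 0 3 (qsf 0 536870912 1610612736 536870912 0) ndB0q2 ndB3q3 pcB0 Cut.none Ext.none)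

def k0_pp_203 : ∃ t, chk3 f_pp_203 t 1 1 1 = true :=
  ⟨(l 3), by decide +kernel⟩

theorem c_pp_203 : CertB 0 536870912 1610612736 536870912 649613803 48318383 3 eng mog cd0q2 cd3q3 pd0 false true true .up 2 0 3
    ndB0q2 ndB3q3 pcB0 Cut.none Ext.none :=
  certB1 (fam := false) (s1 := true) (s2 := true) (a := 2) (b := 0) (c := 3) (cn := .up) (n1 := ndB0q2) (n2 := ndB3q3) (pc := pcB0) (cut := Cut.none) (xt := Ext.none) (P1 := 0) (W1 := 536870912) (P2 := 1610612736) (W2 := 536870912) (P3 := 649613803) (W3 := 48318383) (N0 := 3) (En := eng) (mo := mog) (C1 := cd0q2) (C2 := cd3q3) (C3 := pd0)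
    rfl (fun _ => rfl) k0_pp_203

noncomputable def cut_pp_213 : Cut := Cut.of [[⟨0, 1, 0, 67108864⟩, ⟨1, 1, 0, 67108864⟩, ⟨2, 2, 0, 16777216⟩]]

noncomputable def f_pp_213 : ℕ → ℕ → ℕ → ℕ → Bool := onCell 0 536870912 1610612736 536870912 649613803 48318383
    (rowB 3 eng mog cd0q2 cd3q3 pd1 0 false true true .pnn 2 1 3 (qsf 0 536870912 1610612736 536870912 1) ndB0q2 ndB3q3 pcB1 cut_pp_213 Ext.none)

def k0_pp_213 : ∃ t, chk3 f_pp_213 t 1 1 1 = true :=
  ⟨(b (l 3) (a (l 3) (b (l 3) (a (l 3) (b (l 3) (a (l 3) (b (l 3) (b (l 3) (b (l 3) (l 6)))))))))), by decide +kernel⟩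

theorem c_pp_213 : CertB 0 536870912 1610612736 536870912 649613803 48318383 3 eng mog cd0q2 cd3q3 pd1 false true true .pnn 2 1 3
    ndB0q2 ndB3q3 pcB1 cut_pp_213 Ext.none :=
  certB0 (fam := false) (s1 := true) (s2 := true) (a := 2) (b := 1) (c := 3) (cn := .pnn) (n1 := ndB0q2) (n2 := ndB3q3) (pc := pcB1) (cut := cut_pp_213) (xt := Ext.none) (P1 := 0) (W1 := 536870912) (P2 := 1610612736) (W2 := 536870912) (P3 := 649613803) (W3 := 48318383) (N0 := 3) (En := eng) (mo := mog) (C1 := cd0q2) (C2 := cd3q3) (C3 := pd1)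
    rfl k0_pp_213

noncomputable def f_pm_001 : ℕ → ℕ → ℕ → ℕ → Bool := onCell 0 536870912 536870912 536870912 649613803 48318383
    (rowB 3 eng mog cd0q0 cd3q1 pd0 0 false true false .up 0 0 1 (qsf 0 536870912 536870912 536870912 0) ndB0q0 ndB3q1 pcB0 Cut.none Ext.none)

def k0_pm_001 : ∃ t, chk3 f_pm_001 t 1 1 1 = true :=
  ⟨(l 4), by decide +kernel⟩

theorem c_pm_001 : CertB 0 536870912 536870912 536870912 649613803 48318383 3 eng mog cd0q0 cd3q1 pd0 false true false .up 0 0 1
    ndB0q0 ndB3q1 pcB0 Cut.none Ext.none :=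
  certB0 (fam := false) (s1 := true) (s2 := false) (a := 0) (b := 0) (c := 1) (cn := .up) (n1 := ndB0q0) (n2 := ndB3q1) (pc := pcB0) (cut := Cut.none) (xt := Ext.none) (P1 := 0) (W1 := 536870912) (P2 := 536870912) (W2 := 536870912) (P3 := 649613803) (W3 := 48318383) (N0 := 3) (En := eng) (mo := mog) (C1 := cd0q0) (C2 := cd3q1) (C3 := pd0)
    rfl k0_pm_001

noncomputable def f_pm_011 : ℕ → ℕ → ℕ → ℕ → Bool := onCell 0 536870912 536870912 536870912 649613803 48318383
    (rowB 3 eng mog cd0q0 cd3q1 pd1 0 false true false .pnn 0 1 1 (qsf 0 536870912 536870912 536870912 1) ndB0q0 ndB3q1 pcB1 Cut.none Ext.none)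

def k0_pm_011 : ∃ t, chk3 f_pm_011 t 1 1 1 = true :=
  ⟨(l 4), by decide +kernel⟩

theorem c_pm_011 : CertB 0 536870912 536870912 536870912 649613803 48318383 3 eng mog cd0q0 cd3q1 pd1 false true false .pnn 0 1 1
    ndB0q0 ndB3q1 pcB1 Cut.none Ext.none :=
  certB0 (fam := false) (s1 := true) (s2 := false) (a := 0) (b := 1) (c := 1) (cn := .pnn) (n1 := ndB0q0) (n2 := ndB3q1) (pc := pcB1) (cut := Cut.none) (xt := Ext.none) (P1 := 0) (W1 := 536870912) (P2 := 536870912) (W2 := 536870912) (P3 := 649613803) (W3 := 48318383) (N0 := 3) (En := eng) (mo := mog) (C1 := cd0q0) (C2 := cd3q1) (C3 := pd1)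
    rfl k0_pm_011

noncomputable def cut_pm_012_a : Cut := Cut.of [[⟨0, 0, 0, 67108864⟩, ⟨1, 1, 0, 67108864⟩, ⟨2, 1, 0, 67108864⟩]]

noncomputable def f_pm_012_a : ℕ → ℕ → ℕ → ℕ → Bool := onCell 0 536870912 0 536870912 649613803 48318383
    (rowB 3 eng mog cd0q0 cd3q2a pd1 0 false true false .pnp 0 1 2 (qsf 0 536870912 0 536870912 1) ndB0q0 ndB3q2a pcB1 cut_pm_012_a Ext.none)

def k0_pm_012_a : ∃ t, chk3 f_pm_012_a t 2 2 1 = true :=
  ⟨(a (a (l 2) (b (l 2) (a (l 2) (b (l 2) (a (l 2) (b (l 2) (l 16413832))))))) (b (a (a (a (l 2) (b (a (l 2) (b (l 16381432) (l 16376456))) (b (l 16373144) (l 16374984)))) (b (a (b (a (l 16385248) (l 16388992)) (l 16381760)) (b (l 16394488) (l 16388592))) (a (b (l 16379560) (l 16380552)) (l 16406912)))) (a (b (a (b (l 16401664) (l 16395240)) (b (l 16408800) (l 16401856))) (a (l 16391480) (l 16396984))) (b (b (a (l 16416000) (l 16423288)) (l 16411896)) (b (l 16406624) (l 16403792))))) (a (a (b (a (b (l 16375344) (l 16385432)) (b (l 16380208) (l 16389008))) (b (a (l 16398896) (l 16401128))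 (a (l 16415528) (l 16416080)))) (b (b (a (l 16384736) (l 16388992)) (l 16393752)) (b (l 16403608) (l 16415888)))) (b (a (b (l 16395112) (l 16399424)) (b (l 16403368) (l 16405168))) (a (b (l 16406296) (l 16415584)) (l 16412368)))))), by decide +kernel⟩

def k1_pm_012_a : ∃ t, chk3 f_pm_012_a t 4 3 1 = true :=
  ⟨(b (a (l 2) (b (a (l 2) (a (b (l 16433728) (a (l 16459456) (l 16458744))) (b (l 16433968) (l 16457408)))) (a (a (b (l 2) (a (l 2) (b (l 16519000) (l 16537160)))) (b (a (l 16491576) (l 16490112)) (b (l 16515720) (l 16533032)))) (a (b (l 16487624) (l 16518960)) (b (l 16483808) (l 16512880)))))) (a (a (b (l 2) (l 6)) (a (b (b (l 2) (l 6)) (l 6)) (a (b (b (l 2) (l 6)) (l 6)) (b (b (b (l 2) (l 16582952)) (b (l 16603608) (l 16624816))) (a (l 6) (a (l 6) (b (l 16656024) (b (l 16681056) (b (l 16690776) (b (l 16695632) (l 16698872))))))))))) (b (a (b (a (b (a (l 16559216) (l 16556080)) (l 16577576)) (b (l 16551072) (l 16569752))) (a (b (l 16597392) (l 16638728)) (b (l 16588448) (l 16565736)))) (a (b (l 16573624) (l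 16588008)) (b (l 16544232) (l 16577288)))) (b (b (a (a (l 16638816) (l 16627552)) (l 16608280)) (a (a (l 16658680) (l 16642600)) (a (l 16627176) (l 16591376)))) (b (a (a (b (a (l 16672432) (l 16664040)) (l 16685064)) (b (l 16651784) (l 16657936))) (a (b (l 16636024) (l 16641952)) (l 16623744))) (a (b (a (a (l 16685288) (l 16676680)) (l 16674576)) (a (b (a (l 16690096) (l 16681408)) (a (a (l 16706008) (l 16691104)) (c (l 16686488) (l 16682536)))) (b (l 16679184) (a (c (l 16678064) (l 16673808)) (l 16678080))))) (b (a (l 16647888) (l 16632280)) (a (b (l 16652328) (a (l 16659360) (l 16651280))) (b (l 16636560) (l 16660392)))))))))), by decide +kernel⟩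

def k2_pm_012_a : ∃ t, chk3 f_pm_012_a t 5 3 1 = true :=
  ⟨(b (a (b (a (b (l 16475272) (a (l 16455168) (l 16452424))) (b (l 16431088) (l 16447496))) (a (b (a (l 16479464) (l 16474632)) (a (l 16506304) (l 16499232))) (b (l 16466592) (l 16487864)))) (b (a (b (l 16426992) (l 16440032)) (b (l 16422848) (l 16432848))) (a (b (l 16455040) (l 16471952)) (b (l 16443648) (a (l 16460144) (l 16452872)))))) (a (b (a (b (a (l 16535304) (l 16525896)) (l 16581224)) (b (l 16552992) (l 16536064))) (b (a (b (l 16580608) (l 16591096)) (b (l 16554680) (l 16564280))) (a (b (a (l 16609000) (l 16594752)) (a (b (l 16617200) (l 16643672)) (b (l 16602616) (l 16607888)))) (a (b (l 16580920) (b (l 16588448) (l 16593488))) (b (l 16567256) (b (l 16574176) (l 16578584))))))) (b (a (b (l 16511560) (l 16553256)) (b (a (l 16475704) (l 16467312)) (l 16510088))) (b (a (a (l 16561192) (l 16527056)) (l 16507400)) (a (b (a (l 16553168) (l 16539048)) (a (l 16561416) (l 16546848))) (b (l 16518368) (a (l 16532584) (l 16518416)))))))), by decide +kernel⟩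

def k3_pm_012_a : ∃ t, chk3 f_pm_012_a t 3 2 1 = true :=
  ⟨(a (a (b (a (b (a (l 16447584) (l 16454984)) (a (l 16414040) (l 16420136))) (b (a (l 16462640) (l 16449520)) (a (l 16426512) (l 16433136)))) (b (a (b (l 16412280) (l 16411664)) (a (l 16418680) (l 16423704))) (a (b (l 16412824) (l 16415696)) (b (l 16418560) (l 16419344))))) (b (a (b (a (l 16457712) (l 16467888)) (a (l 16440648) (l 16450168))) (b (l 16484200) (l 16465032))) (a (b (b (l 16436480) (l 16432528)) (l 16429312)) (b (l 16451136) (l 16440520))))) (a (b (a (b (l 16505384) (l 16484288)) (b (l 16525504) (l 16502400))) (a (b (l 16467016) (l 16451104)) (b (l 16481616) (l 16460120)))) (b (a (l 16532104) (l 16569728)) (a (b (l 16494400) (l 16467096)) (b (l 16506504) (l 16473224)))))), by decide +kernel⟩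

def k4_pm_012_a : ∃ t, chk3 f_pm_012_a t 3 3 1 = true :=
  ⟨(a (b (a (a (b (b (l 16420216) (a (l 16427632) (l 16425400))) (b (a (l 16436192) (l 16433448)) (l 16487032))) (b (b (l 16421904) (l 16425848)) (b (l 16431352) (l 16436840)))) (b (a (l 16428280) (l 16432344)) (a (b (l 16428696) (l 16429240)) (b (l 16425920) (l 16421496))))) (a (b (a (b (l 16456504) (l 16469000)) (b (l 16442824) (l 16449712))) (b (a (l 16481288) (l 16456088)) (a (b (l 16490656) (a (l 16504112) (l 16489536))) (b (l 16461888) (a (l 16474688) (l 16459640)))))) (b (a (b (l 16429768) (l 16431000)) (b (l 16416352) (l 16411648))) (b (a (l 16431344) (l 16405528)) (a (a (l 16442360) (l 16469608)) (a (l 16476440) (l 16463208))))))) (b (a (b (a (l 16435568) (l 16436688)) (a (b (l 16422176) (l 16412232)) (b (l 16415600) (l 16399376)))) (b (a (l 16435192) (l 16432336)) (a (l 16352784) (l 16379520)))) (a (b (a (b (l 16400904) (l 16389600)) (l 16403704)) (a (b (l 16376752) (a (l 16430048) (l 16377136))) (b (l 16380832) (b (l 16362688) (a (l 16368632) (l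 16360560)))))) (b (a (b (l 16355872) (l 16345328)) (b (l 16335768) (l 16334472))) (b (a (l 16389088) (a (l 16337656) (l 16330832))) (b (a (l 16348592) (a (l 16338080) (l 16330584))) (a (a (l 16353112) (l 16345816)) (a (c (l 16342400) (l 16334008)) (c (a (l 16336720) (l 16332696)) (l 16325808)))))))))), by decide +kernel⟩

theorem s5_pm_012_a : ∃ t, chk3 f_pm_012_a t 3 1 1 = true := ex3_b k3_pm_012_a k4_pm_012_a

theorem s6_pm_012_a : ∃ t, chk3 f_pm_012_a t 2 3 1 = true := ex3_a k1_pm_012_a k2_pm_012_a

theorem s7_pm_012_a : ∃ t, chk3 f_pm_012_a t 2 1 1 = true := ex3_b k0_pm_012_a s6_pm_012_a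

theorem s8_pm_012_a : ∃ t, chk3 f_pm_012_a t 1 1 1 = true := ex3_a s7_pm_012_a s5_pm_012_a

theorem c_pm_012_a : CertB 0 536870912 0 536870912 649613803 48318383 3 eng mog cd0q0 cd3q2a pd1 false true false .pnp 0 1 2
    ndB0q0 ndB3q2a pcB1 cut_pm_012_a Ext.none :=
  certB0 (fam := false) (s1 := true) (s2 := false) (a := 0) (b := 1) (c := 2) (cn := .pnp) (n1 := ndB0q0) (n2 := ndB3q2a) (pc := pcB1) (cut := cut_pm_012_a) (xt := Ext.none) (P1 := 0) (W1 := 536870912) (P2 := 0) (W2 := 536870912) (P3 := 649613803) (W3 := 48318383) (N0 := 3) (En := eng) (mo := mog) (C1 := cd0q0) (C2 := cd3q2a) (C3 := pd1)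
    rfl s8_pm_012_a

noncomputable def cut_pm_012_b : Cut := Cut.of [[⟨0, 0, 0, 67108864⟩, ⟨1, 1, 0, 67108864⟩, ⟨2, 1, 0, 67108864⟩]]

noncomputable def f_pm_012_b : ℕ → ℕ → ℕ → ℕ → Bool := onCell 0 536870912 1239849684 370763052 649613803 48318383
    (rowB 3 eng mog cd0q0 cd3q2b pd1 0 false true false .pnp 0 1 2 (qsf 0 536870912 1239849684 370763052 1) ndB0q0 ndB3q2b pcB1 cut_pm_012_b Ext.none)

def k0_pm_012_b : ∃ t, chk3 f_pm_012_b t 2 1 1 = true :=
  ⟨(a (l 2) (b (b (b (a (a (a (l 2) (b (b (a (l 2) (b (l 16376688) (l 2))) (l 2)) (l 2))) (b (a (b (a (b (l 16380856) (l 16364696)) (l 16377136)) (a (l 2) (l 16366240))) (b (a (l 16381408) (l 16385616)) (a (l 16350488) (l 16355648)))) (a (l 2) (b (a (l 16318576) (l 16324680)) (l 16289264))))) (a (b (a (b (l 16391848) (l 16363296)) (b (l 16400136) (l 16373448))) (a (b (l 16333760) (a (l 16299784) (l 16306760))) (b (l 16345784) (l 16317192)))) (b (a (l 16417104) (l 16405416)) (a (b (l 16357776) (l 16331056)) (l 16357416))))) (a (l 2) (a (b (a (b (a (l 2) (l 16275848))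 (l 2)) (b (l 16287704) (a (l 16252960) (l 16261800)))) (l 2)) (b (a (b (l 16303464) (l 16275048)) (l 16305984)) (a (b (l 16245824) (l 16215864)) (b (l 16265352) (l 16237312))))))) (a (l 2) (b (a (l 2) (b (a (l 2) (b (l 16250504) (l 2))) (l 2))) (l 2)))) (l 2))), by decide +kernel⟩

def k1_pm_012_b : ∃ t, chk3 f_pm_012_b t 3 1 1 = true :=
  ⟨(a (b (b (a (a (b (b (a (l 16414792) (l 16424336)) (a (l 16370328) (l 16383320))) (b (a (l 16322576) (l 16339136)) (a (b (l 16284784) (l 16258688)) (l 16292096)))) (b (b (a (l 16434064) (l 16443912)) (a (l 16396368) (l 16409416))) (a (b (l 16355648) (l 16312208)) (b (l 16372016) (l 16332048))))) (a (b (b (a (l 16453880) (l 16464752)) (a (l 16422424) (l 16435376))) (a (b (l 16388200) (l 16351552)) (l 16387648))) (b (b (a (l 16476760) (l 16489368)) (a (l 16448704) (l 16463112))) (a (l 16404864) (l 16421864))))) (a (b (a (b (a (b (l 16231912) (l 16267368)) (b (l 16255096) (l 16229624))) (a (b (a (l 2) (l 16183208)) (l 2)) (b (a (l 16196768) (l 16210256)) (l 16176464)))) (b (a (l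 16266296) (l 16289760)) (a (b (l 16230296) (l 16204792)) (l 16244616)))) (a (l 2) (b (a (l 16165336) (l 16195296)) (l 16127992)))) (a (b (b (l 16323968) (a (l 16271016) (l 16296680))) (a (l 16200600) (l 16230480))) (b (b (l 16367544) (l 16333624)) (l 16273296))))) (a (l 2) (b (a (b (a (l 16101504) (l 16136728)) (l 2)) (b (l 16187472) (l 16096576))) (l 2)))) (b (b (a (b (a (l 16518272) (l 16523896)) (a (b (l 16460888) (l 16434920)) (l 16484240))) (b (a (l 16548856) (l 16572216)) (l 16535920))) (a (b (a (l 16394536) (b (l 16449072) (l 16423856))) (a (l 16326856) (l 16376568))) (b (a (l 16604784) (l 16520136)) (a (l 16423712) (l 16470576))))) (a (b (a (b (l 16250752) (l 16169400)) (b (l 16308824) (l 16236208))) (a (l 2) (b (l 16158736) (l 2)))) (b (a (b (l 16363440) (l 16298952)) (b (l 16416272) (l 16360248))) (a (b (l 16229824) (l 16156600)) (b (l 16300032) (l 16235896))))))), by decide +kernel⟩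

theorem s2_pm_012_b : ∃ t, chk3 f_pm_012_b t 1 1 1 = true := ex3_a k0_pm_012_b k1_pm_012_b

theorem c_pm_012_b : CertB 0 536870912 1239849684 370763052 649613803 48318383 3 eng mog cd0q0 cd3q2b pd1 false true false .pnp 0 1 2
    ndB0q0 ndB3q2b pcB1 cut_pm_012_b Ext.none :=
  certB0 (fam := false) (s1 := true) (s2 := false) (a := 0) (b := 1) (c := 2) (cn := .pnp) (n1 := ndB0q0) (n2 := ndB3q2b) (pc := pcB1) (cut := cut_pm_012_b) (xt := Ext.none) (P1 := 0) (W1 := 536870912) (P2 := 1239849684) (W2 := 370763052) (P3 := 649613803) (W3 := 48318383) (N0 := 3) (En := eng) (mo := mog) (C1 := cd0q0) (C2 := cd3q2b) (C3 := pd1)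
    rfl s2_pm_012_b

noncomputable def cut_pm_022_a : Cut := Cut.of [[⟨0, 0, 0, 67108864⟩, ⟨1, 1, 0, 67108864⟩, ⟨2, 1, 0, 67108864⟩]]

noncomputable def f_pm_022_a : ℕ → ℕ → ℕ → ℕ → Bool := onCell 1073741824 536870912 0 536870912 649613803 48318383
    (rowB 3 eng mog cd0q0 cd3q2a pd2 2 false true false .pp 0 2 2 (qsf 0 536870912 0 536870912 2) ndB0q0 ndB3q2a pcB2 cut_pm_022_a Ext.none)

def k0_pm_022_a : ∃ t, chk3 f_pm_022_a t 4 2 1 = true :=
  ⟨(a (b (a (b (b (a (b (a (l 16377384) (l 16379440)) (a (l 16373224) (l 16376392))) (b (l 16383728) (l 16380600))) (a (l 16370792) (l 16377752))) (a (b (l 16368104) (l 16368544)) (b (l 16376368) (l 16378128)))) (b (a (l 16386360) (l 16392760)) (a (b (l 16384560) (l 16387584)) (b (l 16392736) (l 16396960))))) (a (b (a (b (c (l 16380600) (l 16364456)) (l 16380320)) (b (l 16383336) (l 16392600))) (b (a (l 16392528) (l 16406176)) (a (l 16409328) (l 16424360)))) (b (a (b (l 16394072) (l 16404640)) (b (l 16404672) (l 16416472))) (b (a (l 16419520) (l 16432608)) (a (l 16439008) (l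 16453312)))))) (b (a (b (a (l 16399240) (l 16405800)) (a (b (l 16400912) (l 16406280)) (b (l 16409080) (l 16415544)))) (b (a (l 16433408) (l 16461048)) (a (b (l 16417240) (l 16424736)) (b (l 16425344) (l 16433800))))) (b (a (b (a (l 16415152) (l 16425504)) (a (l 16428128) (l 16439584))) (b (a (l 16435736) (l 16445760)) (a (l 16450840) (l 16461824)))) (a (b (a (l 16445408) (l 16457952)) (a (l 16467272) (l 16480888))) (a (b (l 16470248) (l 16494200)) (b (l 16503144) (b (l 16500232) (l 16513848)))))))), by decide +kernel⟩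

def k1_pm_022_a : ∃ t, chk3 f_pm_022_a t 4 3 1 = true :=
  ⟨(b (a (a (b (b (a (l 16431136) (l 16447528)) (a (l 16458432) (l 16476200))) (a (b (l 16491568) (a (l 16525800) (l 16536120))) (b (l 16510608) (b (l 16540368) (l 16562112))))) (b (b (a (l 16463480) (l 16478968)) (a (l 16493360) (l 16510008))) (b (a (l 16528960) (l 16567728)) (a (b (l 16559600) (l 16581904)) (b (l 16599200) (l 16601120)))))) (b (a (b (a (l 16494040) (l 16508728)) (a (l 16547152) (b (l 16532936) (l 16550944)))) (a (b (b (l 16515184) (l 16530896)) (a (l 16553464) (l 16560952))) (b (b (l 16528704) (l 16544840)) (l 1)))) (a (b (a (a (l 16580728) (l 16568288)) (a (l 16576696) (l 16584976))) (a (a (l 16603528) (l 110628682199)) (b (l 296385996039) (l 1)))) (b (a (l 310881497847) (l 1)) (l 1))))) (a (b (a (b (a (a (l 16592288) (l 16603208)) (b (l 16585584) (l 16652792))) (l 6)) (b (a (a (l 16613784) (l 16623976)) (a (l 16634040) (b (l 16630672) (l 330208901991)))) (a (l 6) (b (a (l 6) (l 464963543559)) (l 558915964215))))) (a (l 6) (a (l 6) (l 1))))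 (b (a (b (a (b (l 318934607095) (l 592201916999)) (l 1)) (l 1)) (l 1)) (l 1)))), by decide +kernel⟩

def k2_pm_022_a : ∃ t, chk3 f_pm_022_a t 5 1 1 = true :=
  ⟨(b (a (b (b (a (a (b (l 16424064) (l 16427176)) (b (l 16430144) (l 16434040))) (l 1)) (a (a (b (l 16433296) (l 16442632)) (b (l 16440944) (l 16472024))) (l 1))) (a (b (a (b (l 16455456) (l 16493344)) (b (c (l 16465496) (l 16464504)) (c (l 16482392) (l 16482808)))) (a (b (c (l 16493848) (l 16493856)) (a (l 16516232) (l 1))) (l 1))) (l 1))) (l 1)) (b (l 1) (l 1))), by decide +kernel⟩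

def k3_pm_022_a : ∃ t, chk3 f_pm_022_a t 3 1 1 = true :=
  ⟨(l 1), by decide +kernel⟩

theorem s4_pm_022_a : ∃ t, chk3 f_pm_022_a t 4 1 1 = true := ex3_b k0_pm_022_a k1_pm_022_a

theorem s5_pm_022_a : ∃ t, chk3 f_pm_022_a t 2 1 1 = true := ex3_a s4_pm_022_a k2_pm_022_a

theorem s6_pm_022_a : ∃ t, chk3 f_pm_022_a t 1 1 1 = true := ex3_a s5_pm_022_a k3_pm_022_a

theorem c_pm_022_a : CertB 0 536870912 0 536870912 649613803 48318383 3 eng mog cd0q0 cd3q2a pd2 false true false .pp 0 2 2
    ndB0q0 ndB3q2a pcB2 cut_pm_022_a Ext.none :=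
  certB2 (fam := false) (s1 := true) (s2 := false) (a := 0) (b := 2) (c := 2) (cn := .pp) (n1 := ndB0q0) (n2 := ndB3q2a) (pc := pcB2) (cut := cut_pm_022_a) (xt := Ext.none) (P1 := 0) (W1 := 536870912) (P2 := 0) (W2 := 536870912) (P3 := 649613803) (W3 := 48318383) (N0 := 3) (En := eng) (mo := mog) (C1 := cd0q0) (C2 := cd3q2a) (C3 := pd2)
    rfl (fun _ => rfl) s6_pm_022_a

noncomputable def cut_pm_022_b : Cut := Cut.of [[⟨0, 0, 0, 67108864⟩, ⟨1, 1, 0, 67108864⟩, ⟨2, 1, 0, 67108864⟩]]

noncomputable def f_pm_022_b : ℕ → ℕ → ℕ → ℕ → Bool := onCell 1073741824 536870912 1239849684 370763052 649613803 48318383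
    (rowB 3 eng mog cd0q0 cd3q2b pd2 2 false true false .pp 0 2 2 (qsf 0 536870912 1239849684 370763052 2) ndB0q0 ndB3q2b pcB2 cut_pm_022_b Ext.none)

def k0_pm_022_b : ∃ t, chk3 f_pm_022_b t 4 2 1 = true :=
  ⟨(b (a (b (a (a (b (b (a (l 16366496) (l 16368568)) (l 16342096)) (b (l 16323392) (a (l 16295008) (l 16296488)))) (b (b (l 16371624) (l 16346080)) (b (l 16321720) (l 16298856)))) (b (a (l 16405592) (l 16368368)) (a (a (l 16312720) (l 16315032)) (l 16318112)))) (a (b (a (b (a (l 16274384) (l 16275560)) (l 16297832)) (b (l 16277504) (l 16257752))) (a (b (l 16259552) (l 16244072)) (b (l 16239648) (l 16223256)))) (b (a (a (l 16269368) (l 16270648)) (l 16273544)) (a (l 16232456) (l 16234272))))) (b (a (b (a (l 16373480) (l 16378760)) (a (l 16322592) (l 16327272))) (b (a (l 16405144) (l 16410688)) (a (l 16332152) (l 16337200)))) (a (b (a (l 16276896) (l 16280776)) (a (l 16236680) (l 16239520))) (b (l 16370992) (l 16265408))))) (a (b (a (b (a (a (a (l 16246176) (l 16203712)) (l 16224016)) (b (l 16208640) (l 16195872)))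 (a (b (a (l 16189256) (l 16187352)) (l 16180264)) (b (l 16185008) (l 16175896)))) (b (a (l 16201408) (l 16201336)) (a (l 16261400) (l 16175592)))) (a (b (a (l 16170752) (l 16164840)) (a (l 16162664) (l 16154672))) (b (a (l 16160008) (l 16156224)) (a (l 16147864) (l 16142064))))) (b (a (b (a (l 16202568) (l 16203792)) (a (b (l 16180680) (l 16168600)) (l 16174536))) (b (c (l 16221512) (l 16193488)) (c (l 16192408) (l 16159568)))) (a (b (a (l 16153472) (l 16151592)) (a (l 16137312) (l 16133328))) (b (l 16213120) (a (l 16130888) (l 16128664))))))), by decide +kernel⟩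

def k1_pm_022_b : ∃ t, chk3 f_pm_022_b t 5 2 1 = true :=
  ⟨(b (a (b (a (b (a (l 16437272) (l 16463840)) (a (l 16342392) (l 16347656))) (a (b (a (l 16425976) (l 44056369143)) (l 16415848)) (b (a (l 16433048) (l 1)) (l 16361352)))) (a (b (a (l 16293888) (l 16298624)) (a (l 16250048) (l 16254048))) (a (b (l 16303480) (l 16258304)) (b (l 16312032) (l 16266712))))) (b (a (b (l 1) (a (b (l 1) (l 16356816)) (l 1))) (l 1)) (a (b (a (l 16320624) (l 16326184)) (l 16279008)) (b (l 75194817159) (a (l 16285000) (l 16284992)))))) (a (b (a (b (c (l 16225392) (l 16200936)) (c (l 16193664) (l 16164880))) (a (b (l 16217648) (l 16182272)) (b (l 16225672) (l 16189856)))) (a (b (l 16150840) (l 16127064)) (a (l 16160488) (l 16146072)))) (b (a (b (l 16238072) (l 16201904)) (b (l 16245576) (l 16209560))) (a (b (l 16171144) (l 16143904)) (l 16163608))))), by decide +kernel⟩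

def k2_pm_022_b : ∃ t, chk3 f_pm_022_b t 2 3 1 = true :=
  ⟨(a (b (a (b (a (b (l 16154344) (l 16154416)) (b (l 16136864) (l 16133504))) (a (b (l 16158208) (l 16164800)) (b (l 16134240) (l 16138296)))) (b (a (b (l 16144432) (l 16116736)) (b (a (l 16115912) (l 16111976)) (l 16229120))) (a (b (l 16114432) (l 16115992)) (b (l 16097608) (l 16096816))))) (a (b (a (b (l 16172856) (l 16183816)) (b (l 16144968) (l 16152648))) (a (l 16206224) (l 16295352))) (b (a (b (l 16120616) (l 16127776)) (b (l 16099432) (l 16105160))) (a (b (l 16136784) (l 16145968)) (l 16222240))))) (b (a (b (a (b (l 16107712) (l 16093256)) (a (l 16096064) (l 16100424))) (a (b (l 16084432) (l 16079928)) (a (l 16071960) (l 16072664)))) (a (b (l 16109232) (l 16077896)) (b (l 16113192) (l 16077736)))) (a (b (a (b (l 16080392) (l 16084584)) (a (l 16067208) (l 16066136))) (a (l 16115792) (a (l 16079224) (l 16077448)))) (b (a (l 16067832) (l 16060808)) (a (l 16077024) (l 16067392)))))), by decide +kernel⟩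

def k3_pm_022_b : ∃ t, chk3 f_pm_022_b t 3 1 1 = true :=
  ⟨(a (b (b (l 1) (a (b (a (b (l 16241080) (l 16206800)) (l 189548302999)) (a (a (l 16162280) (l 16158048)) (l 16145904))) (a (b (l 1) (l 238403241431)) (l 1)))) (a (b (b (a (l 16107680) (l 16092312)) (a (l 16068640) (l 16049696))) (b (a (l 16046360) (l 16023352)) (a (l 16045696) (l 16016096)))) (b (a (b (l 16063720) (l 16019944)) (b (l 340945223607) (l 16001816))) (a (b (l 15989776) (l 15976920)) (l 16115464))))) (b (l 1) (a (b (b (l 1) (a (l 198137568487) (l 300679781111))) (a (b (l 15960616) (l 15921840)) (b (l 15981616) (l 15933736)))) (b (l 1) (a (b (l 4) (l 15939656)) (l 4)))))), by decide +kernel⟩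

theorem s4_pm_022_b : ∃ t, chk3 f_pm_022_b t 2 2 1 = true := ex3_a k0_pm_022_b k1_pm_022_b

theorem s5_pm_022_b : ∃ t, chk3 f_pm_022_b t 2 1 1 = true := ex3_b s4_pm_022_b k2_pm_022_b

theorem s6_pm_022_b : ∃ t, chk3 f_pm_022_b t 1 1 1 = true := ex3_a s5_pm_022_b k3_pm_022_b

theorem c_pm_022_b : CertB 0 536870912 1239849684 370763052 649613803 48318383 3 eng mog cd0q0 cd3q2b pd2 false true false .pp 0 2 2
    ndB0q0 ndB3q2b pcB2 cut_pm_022_b Ext.none :=
  certB2 (fam := false) (s1 := true) (s2 := false) (a := 0) (b := 2) (c := 2) (cn := .pp) (n1 := ndB0q0) (n2 := ndB3q2b) (pc := pcB2) (cut := cut_pm_022_b) (xt := Ext.none) (P1 := 0) (W1 := 536870912) (P2 := 1239849684) (W2 := 370763052) (P3 := 649613803) (W3 := 48318383) (N0 := 3) (En := eng) (mo := mog) (C1 := cd0q0) (C2 := cd3q2b) (C3 := pd2)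
    rfl (fun _ => rfl) s6_pm_022_b

noncomputable def f_pm_023 : ℕ → ℕ → ℕ → ℕ → Bool := onCell 0 536870912 1073741824 536870912 649613803 48318383
    (rowB 3 eng mog cd0q0 cd3q3 pd2 1 false true false .up 0 2 3 (qsf 0 536870912 1610612736 536870912 2) ndB0q0 ndB3q3 pcB2 Cut.none Ext.none)

def k0_pm_023 : ∃ t, chk3 f_pm_023 t 1 1 1 = true :=
  ⟨(b (a (b (l 1) (a (l 1) (b (l 1) (a (l 1) (l 302827670151))))) (a (b (a (l 1) (b (l 1) (l 122976154167))) (b (a (b (l 1) (l 295311570391)) (b (l 16088496) (l 16085176))) (a (l 170220597959) (l 16114840)))) (b (a (b (a (l 1) (l 16178880)) (a (l 16119704) (l 16130448))) (b (b (l 16192624) (l 16175816)) (a (l 16144728) (l 16168072)))) (b (a (b (l 16110256) (l 16109760)) (b (l 16139504) (l 16138536))) (a (l 16150144) (l 16184720)))))) (a (b (a (b (l 1) (a (l 1) (l 208338279239))) (b (a (l 294774387943) (l 16111104)) (a (l 214780505175) (l 15964984)))) (a (b (b (l 249140102167) (l 255582957751)) (b (a (l 15956752) (l 15942352)) (l 458184634743))) (b (a (l 15904104) (l 15878120))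 (a (l 15956512) (l 16112080))))) (b (a (b (a (l 16075232) (l 16140328)) (a (l 16049888) (l 16149144))) (b (a (l 16189216) (l 16309000)) (a (l 16315712) (l 16423480)))) (a (b (a (l 16126968) (l 16322888)) (a (l 16307336) (l 16451120))) (a (b (l 16446728) (l 16545240)) (l 16572040)))))), by decide +kernel⟩

theorem c_pm_023 : CertB 0 536870912 1610612736 536870912 649613803 48318383 3 eng mog cd0q0 cd3q3 pd2 false true false .up 0 2 3
    ndB0q0 ndB3q3 pcB2 Cut.none Ext.none :=
  certB1 (fam := false) (s1 := true) (s2 := false) (a := 0) (b := 2) (c := 3) (cn := .up) (n1 := ndB0q0) (n2 := ndB3q3) (pc := pcB2) (cut := Cut.none) (xt := Ext.none) (P1 := 0) (W1 := 536870912) (P2 := 1610612736) (W2 := 536870912) (P3 := 649613803) (W3 := 48318383) (N0 := 3) (En := eng) (mo := mog) (C1 := cd0q0) (C2 := cd3q3) (C3 := pd2)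
    rfl (fun _ => rfl) k0_pm_023

noncomputable def f_pm_033 : ℕ → ℕ → ℕ → ℕ → Bool := onCell 1610612736 536870912 1610612736 536870912 649613803 48318383
    (rowB 3 eng mog cd0q0 cd3q3 pd3 2 false true false .pnn 0 3 3 (qsf 0 536870912 1610612736 536870912 3) ndB0q0 ndB3q3 pcB3 Cut.none Ext.none)

def k0_pm_033 : ∃ t, chk3 f_pm_033 t 1 1 1 = true :=
  ⟨(a (b (a (b (l 4) (a (b (l 403423884967) (l 16194672)) (l 4))) (l 4)) (a (b (a (b (a (l 16356984) (l 16336064)) (l 16468656)) (b (l 356716754263) (l 12582845991))) (a (b (l 16557800) (l 16766464)) (b (l 16690024) (l 16590792)))) (b (l 4) (a (l 278334006071) (l 4))))) (l 4)), by decide +kernel⟩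

theorem c_pm_033 : CertB 0 536870912 1610612736 536870912 649613803 48318383 3 eng mog cd0q0 cd3q3 pd3 false true false .pnn 0 3 3
    ndB0q0 ndB3q3 pcB3 Cut.none Ext.none :=
  certB2 (fam := false) (s1 := true) (s2 := false) (a := 0) (b := 3) (c := 3) (cn := .pnn) (n1 := ndB0q0) (n2 := ndB3q3) (pc := pcB3) (cut := Cut.none) (xt := Ext.none) (P1 := 0) (W1 := 536870912) (P2 := 1610612736) (W2 := 536870912) (P3 := 649613803) (W3 := 48318383) (N0 := 3) (En := eng) (mo := mog) (C1 := cd0q0) (C2 := cd3q3) (C3 := pd3)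
    rfl (fun _ => rfl) k0_pm_033

noncomputable def f_pm_101 : ℕ → ℕ → ℕ → ℕ → Bool := onCell 0 536870912 536870912 536870912 649613803 48318383
    (rowB 3 eng mog cd0q1 cd3q1 pd0 2 false true false .npn 1 0 1 (qsf 536870912 536870912 536870912 536870912 0) ndB0q1 ndB3q1 pcB0 Cut.none Ext.none)

def k0_pm_101 : ∃ t, chk3 f_pm_101 t 1 1 1 = true :=
  ⟨(a (b (l 4) (a (b (a (b (l 4) (a (b (l 4) (a (b (l 4) (l 16267648)) (l 4))) (l 4))) (l 4)) (b (b (a (a (a (b (l 16251688) (l 16249464)) (b (l 16255624) (l 16244056))) (b (l 4) (a (l 16241944) (l 16244576)))) (l 4)) (a (a (a (b (l 16253432) (l 16262144)) (b (l 16244360) (l 16249648))) (a (l 16235360) (b (l 16226640) (l 16223152)))) (a (a (b (l 16223496) (l 16209920)) (b (l 4) (l 16200520))) (a (l 16213904) (l 4))))) (a (b (a (a (b (l 16275384) (a (l 16296744) (l 16287816))) (b (l 16259448) (l 16273424))) (a (b (l 16242640) (l 16252896)) (b (l 16225408) (l 16231824)))) (a (b (a (b (l 16307472) (a (b (l 16320704) (l 16324648)) (b (l 16310064) (l 16315488)))) (a (l 16296376)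 (l 16284736))) (a (b (a (l 16334280) (l 16321160)) (l 16334848)) (b (a (b (l 16308528) (l 16311800)) (b (l 16295736) (l 16299936))) (l 16309896)))) (b (a (l 16266536) (l 16241520)) (a (b (l 16277696) (a (l 16289720) (l 16278104))) (l 16253472))))) (a (b (a (l 16209392) (l 16191208)) (a (b (l 16216528) (l 16224072)) (l 16194256))) (b (a (l 16173456) (b (l 16166728) (l 16150456))) (a (l 16168712) (l 16144824))))))) (b (l 4) (b (l 4) (a (a (b (a (a (l 16151576) (l 16148008)) (l 16145456)) (a (l 16118944) (l 16094632))) (b (l 4) (a (l 16076600) (l 16062672)))) (b (l 4) (a (b (l 4) (l 16025584)) (l 4)))))))) (l 4)), by decide +kernel⟩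

theorem c_pm_101 : CertB 536870912 536870912 536870912 536870912 649613803 48318383 3 eng mog cd0q1 cd3q1 pd0 false true false .npn 1 0 1
    ndB0q1 ndB3q1 pcB0 Cut.none Ext.none :=
  certB2 (fam := false) (s1 := true) (s2 := false) (a := 1) (b := 0) (c := 1) (cn := .npn) (n1 := ndB0q1) (n2 := ndB3q1) (pc := pcB0) (cut := Cut.none) (xt := Ext.none) (P1 := 536870912) (W1 := 536870912) (P2 := 536870912) (W2 := 536870912) (P3 := 649613803) (W3 := 48318383) (N0 := 3) (En := eng) (mo := mog) (C1 := cd0q1) (C2 := cd3q1) (C3 := pd0)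
    rfl (fun _ => rfl) k0_pm_101

noncomputable def cut_pm_102_a : Cut := Cut.of [[⟨0, 1, 0, 67108864⟩, ⟨1, 0, 0, 67108864⟩, ⟨2, 1, 0, 67108864⟩], [⟨0, 0, 1, 20971520⟩, ⟨1, 1, 2, 20971520⟩, ⟨2, 1, 0, 33554432⟩]]

noncomputable def xt_pm_102_a : Ext := extD2 3 ⟨7, 3, 3, 10, 377, 200, 77, 100, 17, 50, 3, 16⟩ eng cd0q1 cd3q2a pd0 false true false .npp 1 0 2 rfl ndB0q1 ndB3q2a pcB0

noncomputable def f_pm_102_a : ℕ → ℕ → ℕ → ℕ → Bool := onCell 536870912 536870912 0 536870912 649613803 48318383
    (rowB 3 eng mog cd0q1 cd3q2a pd0 0 false true false .npp 1 0 2 (qsf 536870912 536870912 0 536870912 0) ndB0q1 ndB3q2a pcB0 cut_pm_102_a xt_pm_102_a)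

def k0_pm_102_a : ∃ t, chk3 f_pm_102_a t 2 2 1 = true :=
  ⟨(a (a (l 2) (b (l 2) (b (l 2) (l 16556488)))) (a (a (b (l 16656824) (l 16655192)) (b (b (l 16703760) (l 16658632)) (b (l 16617744) (l 16600096)))) (b (a (b (l 16729288) (l 16686680)) (b (l 16752096) (l 16719528))) (b (l 16739384) (a (l 16641824) (l 16679904)))))), by decide +kernel⟩

def k1_pm_102_a : ∃ t, chk3 f_pm_102_a t 4 6 1 = true :=
  ⟨(a (l 2) (b (l 16539488) (a (l 16523544) (l 16532640)))), by decide +kernel⟩

def k2_pm_102_a : ∃ t, chk3 f_pm_102_a t 4 14 1 = true :=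
  ⟨(a (a (l 2) (b (b (l 2) (l 16506552)) (b (l 16495232) (l 16482440)))) (b (a (l 16515840) (l 16533856)) (a (b (l 16513112) (l 16503392)) (b (l 16538064) (l 16537576))))), by decide +kernel⟩

def k3_pm_102_a : ∃ t, chk3 f_pm_102_a t 8 15 1 = true :=
  ⟨(b (a (a (l 2) (b (l 16461304) (b (l 16452928) (c (l 16466960) (l 16429672))))) (b (a (l 16467320) (l 16476424)) (a (b (l 16460032) (l 141518793788260399)) (b (l 16470616) (l 141575899697463343))))) (b (a (a (a (l 2) (b (l 141258553095209007) (l 141363968763478063))) (a (b (l 141073766428213295) (l 141184336058089519)) (b (l 141076858812039215) (l 141013087130419247)))) (a (b (l 141550061143261231) (a (l 141031984996778031) (l 141062771334840367))) (b (c (l 141277794644869167) (l 141063733392130095)) (c (l 141250856608153647) (l 141014598963134511))))) (c (a (b (a (a (l 141018859574558767) (l 141023051469570095)) (a (l 141035902020321327) (l 141057960982691887))) (a (c (b (l 141023051479875631) (a (l 140990684599156783) (l 141005940331692079))) (a (l 140908977104994351)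 (l 140916398816018479))) (c (b (l 141065107819446319) (a (l 141030748073394223) (l 141065863738572847))) (a (l 140932960219267119) (l 140959348509589551))))) (b (a (a (l 141091152502390831) (l 141137332005666863)) (a (l 141197461565308975) (l 141272434534711343))) (a (a (b (l 141065588855226415) (c (l 141113280192462895) (l 140989241495158831))) (b (l 141118777746440239) (c (l 141355241487745071) (l 141043667337363503)))) (a (b (l 141186603888984111) (c (b (l 141252299731746863) (l 141252505891176495)) (l 141113074028380207))) (b (l 141270166794649647) (c (a (l 141321019226472495) (l 141372146529845295)) (l 141378812267479087))))))) (a (b (a (l 320365342339120921964822575) (l 141026693537546287)) (a (a (l 140950483613794351) (l 140767621092327471)) (a (l 140773599694684207) (l 140969175335206959)))) (a (b (l 141064970307371055) (b (l 141026075081293871) (a (l 140803217810194479) (l 140845411583787055)))) (b (a (l 140946360512741423) (l 141004840805548079)) (a (b (l 140917910648995887) (l 140902036450279471)) (b (l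 140984431122038831) (c (l 141049508490199087) (l 140898600474935343)))))))))), by decide +kernel⟩

def k4_pm_102_a : ∃ t, chk3 f_pm_102_a t 36 15 1 = true :=
  ⟨(b (b (l 16488992) (b (l 16485128) (l 141501201659019311))) (b (b (c (l 141416126989369391) (l 141170523493367855)) (c (l 141409736080277551) (l 141140630521397295))) (b (c (a (l 141363350425649199) (l 141471102591500335)) (a (l 141078508105547823) (l 141168461924581423))) (c (a (b (l 141550679723786287) (c (b (l 141453922726608943) (a (l 141430970416545839) (l 141492199484899375))) (a (l 141274152523464751) (l 141330090191290415)))) (b (c (l 141567722205954095) (l 141409392484597807)) (c (b (l 141582153300361263) (a (b (l 141555627576655919) (l 141740964006936623)) (a (l 141611015487864879) (l 141737871650373679)))) (b (l 141419081934585903) (a (l 141394205479026735) (l 141460725948252207)))))) (a (b (l 141066963236208687) (c (l 141323424348962863) (l 140982575698559023))) (b (l 141166812661727279) (c (a (l 141225430395732015) (l 141286109708517423)) (l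 141264394299047983)))))))), by decide +kernel⟩

def k5_pm_102_a : ∃ t, chk3 f_pm_102_a t 37 15 1 = true :=
  ⟨(b (b (l 16505400) (a (l 141625309064740911) (l 141531988038107183))) (b (b (a (l 141424167158874159) (l 141528895667683375)) (a (c (l 141570402255978543) (l 141276007926497327)) (l 141722684599631919))) (b (a (c (a (l 141563736468045871) (l 141629982059298863)) (a (l 141247283184484399) (l 141305969632051247))) (c (b (l 141722959533047855) (l 141924445045129263)) (b (l 141397778873597999) (l 141405200581722159)))) (a (b (c (a (l 141590124755501103) (l 141662486381396015)) (a (l 141253674101948463) (l 141318132986658863))) (a (c (b (l 141786937341820975) (b (c (l 141701793937211439) (l 141529445440798767)) (c (c (a (l 141732099236167727) (l 141772368858595375)) (l 141665991079542831)) (l 141715262907662383)))) (c (b (l 141348163410313263) (l 141355447677812783)) (l 141172928697647151))) (c (b (c (l 141768658003132463) (l 141595141275254831)) (b (c (a (l 141761167578693679) (l 141800612567695407)) (l 141784944472866863))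 (c (a (c (a (l 141893177705660463) (l 141823083844124719)) (l 141815593394028591)) (a (c (l 141843218655576111) (l 141755257700483119)) (c (b (l 141860467248300079) (b (l 141863284747583535) (l 141864865295974447))) (l 141773674524639279)))) (a (l 141772437525545007) (c (l 141765084562882607) (l 141584764631023663)))))) (b (l 141327547559280687) (c (a (l 141408774004359215) (l 141444989177118767)) (l 141376681963454511)))))) (c (b (a (b (l 141729968923312175) (l 141742132274184239)) (l 141979283201900591)) (a (b (a (l 141918466451144751) (l 141768932877172783)) (c (b (a (l 141835384631230511) (l 141864934013386799)) (c (b (l 141898606567112751) (a (l 141886511936356399) (c (l 141939151069167663) (l 141894208518701103)))) (a (l 141796008359985199) (l 141825145425199151)))) (b (l 141670732718325807) (c (l 141809958392070191) (l 141628195350872111))))) (b (l 141992408626036783) (c (b (l 141910357598453807) (c (a (c (l 14) (l 141923414303293487)) (l 14)) (b (l 141868851022889007) (a (l 141856344075223087) (l 141886992969220143)))))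 (b (l 141727013983485999) (a (l 141716362462412847) (l 141857993311010863))))))) (b (a (l 141385203211894831) (l 141441965513556015)) (a (b (c (l 141483884409143343) (l 141298960247439407)) (c (b (l 141487251665256495) (l 141488694775267375)) (l 141298960249159727))) (b (l 141443133747216431) (c (b (l 141539409760960559) (l 141541196468420655)) (l 141347338772840495)))))))))), by decide +kernel⟩

def k6_pm_102_a : ∃ t, chk3 f_pm_102_a t 19 30 1 = true :=
  ⟨(b (a (l 16526000) (l 16550672)) (a (b (l 16527680) (a (l 141633899050057775) (l 141751340664733743))) (b (l 16554728) (a (l 141865483743772719) (l 141982306882813999))))), by decide +kernel⟩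

def k7_pm_102_a : ∃ t, chk3 f_pm_102_a t 38 31 1 = true :=
  ⟨(b (b (a (l 141648055269605423) (l 141767421029957679)) (a (c (l 141824664381505583) (l 141508623412396079)) (l 141784463468199983))) (b (a (b (c (l 141852633216942127) (l 141515014329565231)) (c (l 141869881810911279) (l 141516801039351855))) (c (l 141984437205663791) (l 141623934728601647))) (b (a (c (b (l 141883556990959663) (l 141893383879065647)) (l 141699526131548207)) (c (a (l 141984368487727151) (l 142052194627371055)) (a (l 141603044006674479) (l 141842668836438063)))) (a (c (b (a (l 142052675621683247) (l 142115897555435567)) (a (c (b (l 141973442093236271) (c (l 14) (a (a (l 141908983207018543) (l 141924857409929263)) (c (l 14) (l 141925269726019631))))) (b (l 141786044028289071) (a (c (l 141822671520137263) (l 141727357579935791)) (a (l 141978114969010223) (l 141903485620994095))))) (c (b (l 142039618965094447) (l 14)) (b (l 141848029011181615) (c (b (l 141900324547362863) (a (l 141886786807382063) (c (l 141943961426477103) (l 141894826987257903))))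 (a (l 141788036892491823) (l 141819510420373551))))))) (b (a (l 141495223123443759) (l 141550198718267439)) (a (c (a (l 141581328652337199) (l 141609572364140591)) (l 141398191198208047)) (c (b (l 141652041010741295) (c (l 141704611424944175) (l 141604487120797743))) (l 141451929842155567))))) (c (c (l 14) (a (b (l 141905272348426287) (b (l 141913037651673135) (a (c (c (l 14) (l 141926506673504303)) (l 141851739862646831)) (c (l 14) (b (l 141883488268353583) (a (l 141877647111634991) (l 141984437182447663))))))) (c (l 14) (b (l 141922658378465327) (b (l 141930354962284591) (a (b (l 141917229539409967) (c (l 141945473252032559) (l 141894139789213743))) (c (l 14) (l 141927193865224239)))))))) (a (b (l 141608060531703855) (c (b (l 141712720323297327) (a (l 141700282095583279) (c (b (l 141781989574131759) (l 141783913720184879)) (l 141680078563377199)))) (b (l 141508073667887151) (a (l 141494467208986671) (l 141523672993644591))))) (b (c (l 141771200611156015) (l 141565385724198959)) (c (b (a (l 141760205493076015) (l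 141792778532782127)) (a (b (l 141762885553700911) (l 141899774752047151)) (c (l 141849059799482415) (l 141743918972485679)))) (b (l 141567241151627311) (c (l 141712033103937583) (l 141515151775612975))))))))))), by decide +kernel⟩

def k8_pm_102_a : ∃ t, chk3 f_pm_102_a t 39 31 1 = true :=
  ⟨(a (b (b (l 141881564108865583) (l 142264400322789423)) (b (b (l 141925200993321007) (c (l 142132252835643439) (l 141746461586636847))) (a (b (c (l 142123044424581167) (l 141904447660851247)) (c (b (c (l 14) (l 142042848773390383)) (l 14)) (b (l 141912281684951087) (c (b (l 141843012482203695) (c (b (l 141899499907186735) (a (l 141884519057965103) (c (l 14) (l 141892834115895343)))) (a (l 141776973048643631) (l 141810920478162991)))) (b (l 141629294853963823) (c (l 141685850998521903) (l 141576724441497647))))))) (c (l 14) (b (l 141788517918933039) (b (l 141978664715223087) (c (b (l 141912900206493743) (c (a (a (l 142035220884602927) (l 14)) (l 14)) (a (l 141845623822090287) (b (l 141879914848911407) (l 141882388750909487)))))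 (b (l 141694440933376047) (a (l 141680559596486703) (l 141849472078266415)))))))))) (b (b (l 142005053038428207) (l 142303707894448175)) (c (b (l 142334906601930799) (a (l 14) (c (b (l 142448568653971631) (b (l 142292300569198767) (a (l 14) (a (l 14) (b (l 142511859304874159) (c (l 142569033921757359) (l 14))))))) (l 14)))) (b (l 142049651946225711) (b (a (l 141855931741585455) (l 141926712819269679)) (a (b (l 142048346281050159) (c (b (l 141986155185848367) (c (l 14) (c (l 14) (a (l 141889604296867887) (l 141926575383986223))))) (b (l 141762816828866607) (c (a (l 141805422916239407) (l 141841500649963567)) (a (l 141692173189759023) (l 141727013972639791)))))) (b (c (l 142053294129545263) (l 141828169065627695)) (c (l 14) (b (l 141834628698865711) (c (a (b (l 141877166066581551) (l 141879639968612399)) (a (l 141906646729113647) (l 141925750748086319))) (a (l 141762679389421615) (l 141799238159581231)))))))))))), by decide +kernel⟩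

def k9_pm_102_a : ∃ t, chk3 f_pm_102_a t 5 6 1 = true :=
  ⟨(a (b (a (l 16552352) (l 16588928)) (a (l 16553264) (l 16594448))) (a (b (l 16635256) (a (l 16609336) (l 16653424))) (b (b (l 16679968) (l 16679152)) (b (l 16682704) (l 16670144))))), by decide +kernel⟩

def k10_pm_102_a : ∃ t, chk3 f_pm_102_a t 10 14 1 = true :=
  ⟨(a (b (l 16565080) (a (b (l 16566472) (l 16574104)) (l 16594944))) (b (l 16610648) (b (l 16602496) (b (l 16610120) (l 16614160))))), by decide +kernel⟩

def k11_pm_102_a : ∃ t, chk3 f_pm_102_a t 20 30 1 = true :=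
  ⟨(b (a (l 16578136) (l 16605568)) (b (a (l 16583400) (l 16589224)) (a (l 142173690671448111) (l 142462999722688559)))), by decide +kernel⟩

def k12_pm_102_a : ∃ t, chk3 f_pm_102_a t 20 62 1 = true :=
  ⟨(b (a (a (l 142136101111824431) (l 142279656130674735)) (a (l 142426853275123759) (l 142569995969888303))) (a (a (l 142172659885162543) (l 142322605814399023)) (a (l 142288795857158191) (l 142430495442796591)))), by decide +kernel⟩

def k13_pm_102_a : ∃ t, chk3 f_pm_102_a t 40 63 2 = true :=
  ⟨(b (a (b (l 142403213784547375) (l 142251481186435119)) (b (l 142549105258971311) (l 142215815803175087))) (b (a (a (l 142243990763782191) (l 142316970860839087)) (a (l 142208531539083439) (l 142278625417609391))) (c (a (a (b (l 142184685881327791) (b (l 142331676780331183) (c (a (a (l 142586832269361327) (l 142604561897455791)) (a (l 142622154086596783) (l 142639677556244655))) (l 14)))) (b (l 142255604393754799) (b (l 142312229245239471) (c (a (l 142665722242498735) (l 142700150706372783)) (a (a (l 14) (l 142578379757928623))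 (a (l 142595903238308015) (l 142613357988462767))))))) (a (b (l 142685513452404911) (b (l 142336212354711727) (a (b (l 142684963697442991) (a (l 142680222031446191) (l 142697264464658607))) (c (l 142767701963849903) (l 142673693688873135))))) (b (l 142753408307298479) (a (b (l 142747223553933487) (c (l 142800893476913327) (l 142707572407566511))) (c (l 142830236698411183) (l 142692522847191215)))))) (c (a (l 14) (a (a (l 14) (a (l 14) (b (l 142569102633140399) (c (l 142607448109629615) (l 14))))) (b (l 142612670789009583) (b (l 142623253590966447) (a (a (l 142604561890492591) (l 142621741762674863)) (a (l 142638852915380399) (l 142655826629099695))))))) (l 14))))), by decide +kernel⟩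

def k14_pm_102_a : ∃ t, chk3 f_pm_102_a t 41 63 2 = true :=
  ⟨(b (a (b (l 142690323808256175) (l 142355247645802671)) (b (l 142825701201035439) (a (l 142815943035355311) (l 142791135315656879)))) (a (a (b (l 142347207467368623) (b (l 142367136077496495) (b (c (l 142829755659927727) (l 142284122975305903)) (a (c (l 142820203629953199) (b (l 142632530720637103) (c (l 142682833388306607) (c (l 142612464629366959) (l 14))))) (c (l 142852501811134639) (c (l 142714513072488623) (a (l 142612739506389167) (l 142629713220108463)))))))) (b (l 142414208968884399) (b (c (l 142884456372322479) (l 142701593805766831)) (c (a (l 142881226535747759) (l 142912906241507503)) (b (l 142350987037868207) (c (a (l 142747429707612335) (l 142780002745270447)) (a (a (l 142646480775364783) (l 142663248330621103)) (b (l 142686475517690031) (l 142689774053392559))))))))) (a (a (b (l 142823708339339439) (b (l 142841987724689583) (b (l 142671082388324527) (a (c (l 142939363244884143) (l 142758562263122095)) (c (l 142954825108373679) (a (l 142770725612617903)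 (b (l 142777185244446895) (a (l 142778284735037615) (a (l 142781308414001327) (l 142783301279187119)))))))))) (b (l 142856006499057839) (b (c (l 142963277625884847) (b (l 142780552498086063) (l 142786668533055663))) (c (b (l 142972073721086127) (c (l 143022032791650479) (l 142933453367066799))) (a (b (l 142784675668361391) (b (l 142789279874465967) (l 142792303532212399))) (c (l 142848928392233135) (l 142758562261254319))))))) (c (b (l 142992895724273839) (b (l 143009732000284847) (a (l 143005540112302255) (l 143035707967848623)))) (b (b (l 142808796206317743) (l 142820615959330991)) (b (a (l 142816080474013871) (l 142848447353209007)) (c (a (l 142872567896359087) (l 142903835263729839)) (b (l 142796014382383279) (a (l 142785637740052655) (l 142817386143858863)))))))))), by decide +kernel⟩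

def k15_pm_102_a : ∃ t, chk3 f_pm_102_a t 20 63 3 = true :=
  ⟨(c (a (b (a (l 142115622705283119) (l 14)) (l 14)) (b (a (l 142241860446732463) (b (l 142550960674537647) (l 142394142834688175))) (b (a (l 142369953560985775) (a (l 142564223539888303) (b (l 142626345957195951) (a (l 142621398155034799) (l 142655895338418351))))) (a (a (l 14) (a (l 14) (b (l 142531925381726383) (c (c (a (l 142606898347245743) (l 142623734621978799)) (l 14)) (l 14))))) (a (c (b (a (l 142612739501998255) (b (l 142643113515761839) (l 142649435709243567))) (a (b (l 142622360231182511) (a (l 142620436086030511) (b (l 142635485653926063) (a (l 142634592300826799) (b (l 142642082725036207) (a (c (l 142664691437715631) (l 142618511939780783)) (l 142645793577549999))))))) (a (b (l 142647374125088943) (b (l 142652115770196143) (l 142655276866945199))) (b (l 142664072960852143) (l 142670257715364015))))) (l 14)) (b (a (b (l 142630812725772463) (l 142637066199777455)) (l 142667921249976495)) (a (b (l 142643182234796207) (c (a (l 142686681673171119)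 (l 142703036911485103)) (c (a (l 142617893462704303) (l 142634454859497647)) (l 14)))) (b (l 142676442467352751) (b (l 142320338140004527) (a (c (l 142720629100724399) (l 142629438325506223)) (c (l 142736709461082287) (l 142645862294044847)))))))))))) (a (b (a (l 141901767636828207) (l 142051095094673455)) (b (a (l 142106001931026479) (l 142174996322467887)) (a (a (b (l 141902248678834223) (b (l 142090059011424303) (a (c (a (l 142035152159539247) (l 14)) (l 141926712797642799)) (c (l 14) (b (l 141873661370040367) (l 141966363945074735)))))) (c (l 14) (b (l 141920528062611503) (b (l 141928636963684399) (a (a (l 141904378983399471) (l 141924238916763695)) (b (l 141952963664527407) (l 14))))))) (b (a (l 142061952779681839) (l 14)) (l 14))))) (b (a (l 142217190108217391) (l 14)) (l 14)))), by decide +kernel⟩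

def k16_pm_102_a : ∃ t, chk3 f_pm_102_a t 21 30 1 = true :=
  ⟨(a (b (l 16607424) (a (l 16587952) (a (l 16638536) (l 142647992615551087)))) (b (l 16609752) (a (a (l 142716986982793327) (l 142790241958609007)) (l 142911669296234607)))), by decide +kernel⟩

def k17_pm_102_a : ∃ t, chk3 f_pm_102_a t 84 31 1 = true :=
  ⟨(b (b (l 142708190861607087) (b (l 142556595703644335) (l 142578036100137135))) (a (b (b (l 142384797017047215) (c (l 142946303905530031) (l 142406443620171951))) (b (b (l 142425616353853615) (c (l 142973516825280687) (l 142256429010419887))) (c (c (b (l 143070480028319919) (a (l 143065532225945775) (l 143094875447640239))) (b (l 142896207397912751) (a (c (l 142934690314174639) (l 142846317048365231)) (b (l 142919090988335279) (l 142923695173058735))))) (a (b (l 142250244257480879) (c (b (l 142709359102460079) (b (l 142352842458185903) (c (l 142760623843164335) (a (l 142662217532358831) (l 142678435331702959))))) (l 14))) (b (l 142284191684952239) (b (a (l 142373252084433071) (l 142389744761733295))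 (c (c (l 142791066576552111) (a (l 142693416180121775) (l 142709496540496047))) (c (c (a (l 142625452603670703) (l 142641807841984687)) (l 14)) (l 14))))))))) (b (b (l 142454959615197359) (l 142477430889971887)) (c (b (c (l 143116109767639215) (l 142945066953097391)) (c (a (l 143119545743687855) (l 143148545367916719)) (b (l 142958604693717167) (b (l 142964926887329967) (a (l 142953931769561263) (l 142983756027674799)))))) (b (l 142320819085082799) (a (b (l 142317795514974383) (b (a (l 142316077485539503) (l 142332432723869871)) (c (c (l 142822333943939247) (a (l 142725508181360815) (l 142741382383255727))) (c (a (a (l 142631431198507183) (l 142639540098187439)) (b (l 142650741374730415) (l 142652665520652463))) (l 14))))) (b (l 142350987028054191) (c (c (l 142851471006924975) (a (l 142755332439244975) (l 142771206641139887))) (b (l 142537422951841967) (c (b (l 142675068073738415) (c (l 142699119895707823) (l 142654314782343343))) (a (l 14) (c (l 142616587786977455) (l 14))))))))))))), by decide +kernel⟩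

def k18_pm_102_a : ∃ t, chk3 f_pm_102_a t 85 31 1 = true :=
  ⟨(b (b (l 142667440236413039) (c (a (l 143025949788831855) (l 143093982082924655)) (l 142536529607622831))) (b (b (b (l 142556045983006831) (l 142565666712387695)) (c (a (l 143075221666611311) (l 143137687681990767)) (a (l 142732380124233903) (l 142803436075827375)))) (c (c (b (a (l 143175689564405871) (l 143233826251915503)) (a (c (l 143232864182403311) (l 143149576158462127)) (a (l 143233207778017519) (b (l 143257878074097903) (a (l 143257740635865327) (l 143274645630189807)))))) (b (a (l 143008151443849391) (l 143069792825327791)) (a (b (l 143019490160754863) (a (l 143011587420389551) (l 143040861922590895))) (a (b (l 143064089108988079) (l 143069792827343023)) (b (l 143093775928131759) (a (l 143092538978156719) (a (l 143106076717514927) (l 143116590799388847)))))))) (b (a (l 142389469854466223) (a (l 142439910045204655) (l 142473101558349999))) (a (b (a (l 142383834943701167) (l 142416270542422191)) (c (c (a (l 142882188618383535) (l 142912493912932527))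 (b (l 142808864920748207) (a (l 142796220535275695) (l 142827006866227375)))) (a (b (l 142660293381980335) (c (a (l 142699875809296559) (l 142715681291714735)) (c (a (l 142632736866844847) (l 142648885946679471)) (l 14)))) (b (l 142692728980684975) (a (c (l 142731418054623407) (a (l 142638578022744239) (l 142646549483438255))) (c (l 142747086098055343) (b (l 142658094357430447) (l 142659056430497967)))))))) (a (b (l 142448362543693999) (c (c (l 142942455610015919) (l 142856418807201967)) (b (l 142724752262447279) (a (c (l 142762616702517423) (b (l 142674037278818479) (l 142674861912916143))) (c (l 142778078587486383) (l 142690255078277295)))))) (a (b (l 142832435703349423) (c (b (l 142921221286314159) (c (l 142968019260096687) (l 142882669652181167))) (b (l 142748735364038831) (a (b (l 142745711706849455) (b (l 142746673779884207) (a (l 142744887051813039) (l 142751003107836079)))) (b (l 142756019630244015) (c (l 142803573518090415) (l 142716780801228975))))))) (a (b (l 142844118016458927) (c (b (l 142934759025655983)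 (l 142942386889506991)) (b (l 142763303895744687) (c (l 142814843514257583) (l 142728737992294575))))) (b (c (l 142937920121487535) (l 142722209648640175)) (b (c (l 142946372619403439) (l 142776360598765743)) (c (l 142954756397629615) (c (l 142828381253714095) (a (l 142739526952173743) (l 142746673779114159)))))))))))))), by decide +kernel⟩

def k19_pm_102_a : ∃ t, chk3 f_pm_102_a t 43 62 1 = true :=
  ⟨(b (a (c (l 143154867547668591) (l 142830648985075887)) (c (l 143290725978177775) (l 142999355331199087))) (a (c (b (l 143181461992374383) (l 143197679793373295)) (b (l 142861847636181167) (l 142879439827353775))) (a (c (l 143287496165261551) (l 142991246435401839)) (b (l 143213966304526447) (l 143238911481069679))))), by decide +kernel⟩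

def k20_pm_102_a : ∃ t, chk3 f_pm_102_a t 43 126 1 = true :=
  ⟨(a (b (c (a (l 143182492787589231) (l 143243515694317807)) (a (l 142858480384917679) (l 142932285116465327))) (a (c (l 143196442845397103) (c (l 142954344076591279) (l 142788249066504367))) (c (a (l 143243309537329391) (l 143280624220193007)) (a (l 142929192741306543) (l 142977708700958895))))) (a (b (c (l 143316083475202287) (l 143025400024612975)) (c (l 143340616334590191) (l 143057010991923311))) (c (l 143409129664659695) (c (l 143214241184841839) (l 143080925371138223))))), by decide +kernel⟩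

def k21_pm_102_a : ∃ t, chk3 f_pm_102_a t 43 254 1 = true :=
  ⟨(c (a (a (c (l 143291962939982063) (a (l 143114872810242159) (l 143150263347462255))) (c (l 143360132673863919) (l 143212317046702319))) (c (l 143470702332559599) (a (l 143298216408678639) (l 143385077843263727)))) (c (a (a (a (l 142950495786860719) (l 142990215651885231)) (l 143061409043234991)) (a (l 143160090230292591) (l 143259939648389231))) (a (a (b (l 142799106747236527) (a (l 142785362850234543) (l 142833191615086767))) (l 142907271224508591)) (a (l 143019352712052911) (l 143132602430652591))))), by decide +kernel⟩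

def k22_pm_102_a : ∃ t, chk3 f_pm_102_a t 43 255 2 = true :=
  ⟨(c (a (a (b (l 143306875070284015) (l 143319382018130159)) (b (l 143378893095649519) (l 143391674921468143))) (a (b (l 143452285510549743) (l 143464929897414895)) (b (l 143526639998075119) (l 143539146945954031)))) (c (a (a (b (l 143189158580928751) (l 143202833760190703)) (l 143277188247765231)) (a (l 143359720354758895) (l 143443214534361327))) (a (a (b (l 143109650129223855) (l 143124218661912751)) (b (l 143196855161749743) (l 143211767291920623))) (b (l 143330377129935087) (a (l 143300484152967407) (l 143390231806116079)))))), by decide +kernel⟩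

def k23_pm_102_a : ∃ t, chk3 f_pm_102_a t 43 255 3 = true :=
  ⟨(c (b (a (a (a (l 142964926880989359) (l 143012412048490671)) (l 143085529585582255)) (c (l 143265986966110447) (a (l 143149851026915503) (l 143252724102578351)))) (a (c (c (a (l 143064707582394543) (l 143157066576658607)) (a (l 143024781557989551) (l 143120370368266415))) (a (a (l 142939638108913839) (b (l 142985267849953455) (l 142993857786658991))) (b (l 143060721849696431) (a (l 143044023014195375) (l 143094531839115439))))) (a (a (c (l 143209980583182511) (l 143141123652796591)) (c (l 143257809347870959) (l 143192182233497775))) (c (l 143329964811731183) (a (l 143243584411582639) (l 143295192748064943)))))) (a (a (b (a (b (l 142793128153301167) (l 142801305773097135)) (l 142851539719930031)) (c (b (l 142878958797783215) (a (a (l 142848309905785007) (l 142874835628900527)) (a (l 142901430071476399) (l 142928093233529007)))) (b (l 142796839006224559) (a (a (c (l 142785362852200623) (l 142743100365406383)) (b (l 142790035777126575) (c (l 142815530708402351)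 (l 142774230294462639)))) (b (l 142832435702366383) (a (c (l 142843362101805231) (a (l 142795739494793391) (l 142810101868167343))) (c (l 142871330934145199) (a (l 142824464241541295) (l 142838895334408367))))))))) (c (b (l 142972554742071471) (b (l 142986023762854063) (a (a (l 142954825115058351) (l 142981694435524783)) (a (l 143008563756007599) (l 143035570515427503))))) (b (l 142896344826593455) (b (l 142910638481293487) (c (a (a (l 142896894584209583) (l 142925000855519407)) (a (l 142953175846289583) (l 142981419556536495))) (b (l 142899024887660719) (b (a (l 142873736115650735) (l 142931804084437167)) (a (a (c (l 142871468372770991) (l 142852089476366511)) (c (l 142900193119469743) (l 142881226540023983))) (a (c (l 142928986585661615) (l 142910432323141807)) (l 142948846512636079)))))))))) (c (a (b (l 143080994096660655) (a (b (l 143067181480100015) (a (l 143062645994324143) (l 143089790192697519))) (a (l 143112467623968943) (l 143139817980772527)))) (b (l 143190670401781935) (a (l 143180843515969711) (l 143235887826927791))))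 (a (b (l 143011587410690223) (b (l 143025812345880751) (b (a (l 143004096987627695) (l 143061958797803695)) (a (c (l 143026362092126383) (a (l 142976815350218927) (l 143006089852764335))) (c (l 143083261840212143) (l 143050070326083759)))))) (b (l 143128066945302703) (a (a (l 143103121771856047) (l 143132327554842799)) (l 143176170589044911))))))), by decide +kernel⟩

def k24_pm_102_a : ∃ t, chk3 f_pm_102_a t 11 14 1 = true :=
  ⟨(a (b (b (l 16652440) (l 16638600)) (a (b (l 16656072) (l 16646840)) (l 16669624))) (b (a (l 16673720) (l 16719272)) (b (l 16703944) (l 16719384)))), by decide +kernel⟩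

def k25_pm_102_a : ∃ t, chk3 f_pm_102_a t 11 15 2 = true :=
  ⟨(a (b (b (a (c (l 16703760) (l 16688328)) (a (l 16718072) (l 16731224))) (a (a (l 16697768) (l 16711864)) (l 143631643386921263))) (b (a (a (b (l 143442870926852335) (l 143485270855074031)) (b (l 16719080) (l 143653083846639855))) (b (a (l 16733280) (l 16747208)) (a (l 143823714336293167) (l 16752480)))) (a (b (a (c (l 143586425949831407) (l 143477368114282735)) (c (l 143740769921548591) (l 143657069577519343))) (a (b (c (l 143621404172288239) (a (l 143472901350441199) (l 143561549491257583))) (a (c (l 143608003873669359) (a (l 143478673789501679) (l 143522654262526191))) (c (l 143683870189486383) (b (l 143582027900485871) (l 143595977957753071))))) (a (b (l 143693765790744815) (c (l 143760492419416367) (b (l 143671294516429039) (l 143685107134726383)))) (c (l 143825844652065071) (l 143754582536093999))))) (b (a (c (l 143897725232857391) (l 143839588538794287)) (c (l 144056810847371567) (l 144024443961671983))) (a (a (c (l 143903772551823663) (l 143845223541342511))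 (b (l 143946859666424111) (l 143971461245354287))) (c (b (l 144089383887733039) (l 144112061320855855)) (a (l 144028086099296559) (l 144120170213048623)))))))) (b (b (a (b (l 16746720) (l 16753816)) (l 16771296)) (a (l 16759896) (l 16782824))) (b (a (c (l 144056742149194095) (l 144055299032662319)) (a (l 16786992) (l 16796904))) (a (a (b (c (l 16773344) (l 16769640)) (c (l 144259464620409199) (a (l 144212597923987759) (l 144304063561793903)))) (b (l 16804672) (c (l 144413396271120751) (l 144436898330329455)))) (b (c (l 16799120) (l 16800448)) (a (l 144402126297940335) (c (l 16808464) (l 16811312)))))))), by decide +kernel⟩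

def k26_pm_102_a : ∃ t, chk3 f_pm_102_a t 11 15 3 = true :=
  ⟨(a (a (b (b (l 16644128) (a (l 142948159337775215) (l 143164144691331311))) (b (b (b (l 143110887093026927) (a (l 16678168) (l 16697376))) (a (c (l 143309555112067311) (l 143189021122986095)) (l 143470771030229231))) (b (c (a (l 143366386133893359) (l 143572613320016111)) (b (l 143173078237462639) (a (l 143270247565181039) (l 143503756388663535)))) (a (a (c (b (l 143360751139094767) (c (l 143419368866676975) (b (l 143356627970310383) (l 143373120648839407)))) (b (l 143247020380307631) (b (l 143273546104963247) (a (a (l 143248738370568367) (l 143277325678084271)) (l 143320275358826671))))) (b (c (l 143462524702376175) (l 143362469122015343)) (c (a (l 143468159702761711) (l 143519149563560175)) (c (l 143421705325002991) (a (l 143343846142099631) (l 143403357219618991)))))) (c (b (a (l 143565122899280111) (l 143668545729773807)) (a (b (l 143588075210309871) (l 143603674535444719)) (b (l 143691223162847471) (l 143706616329519343)))) (b (a (l 143478879936299247)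 (l 143596115384189167)) (a (c (l 143534130408915183) (l 143493036152701167)) (b (l 143621679036006639) (l 143639065067978991))))))))) (b (b (l 16681368) (l 143500320429113583)) (b (b (l 143574468764369135) (a (l 143695346318983407) (l 143922876544663791))) (b (a (c (l 143781932882116847) (l 143724689543348463)) (c (l 143993795064234287) (l 143964726716088559))) (a (c (b (l 143824882566086895) (a (l 143802617454379247) (l 143906864918233391))) (b (l 143773205506326767) (a (l 143747848017821935) (l 143865976818532591)))) (c (a (l 143997162324410671) (l 144102578019057967)) (a (b (l 143951944895578351) (l 143984655374876911)) (l 144087734605676783)))))))) (b (b (a (l 16717456) (l 16747352)) (a (l 143783032431739183) (l 16783008))) (b (a (a (l 143946447355707695) (l 144350861511328047)) (a (l 16808776) (l 16801752))) (a (a (b (l 144026093250412847) (c (a (l 144208474749845807) (l 144313203249004847)) (a (l 144207650112258351) (l 144326191228748079)))) (b (l 144246682805190959) (c (l 144465210754924847) (l 144318219796431151))))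 (b (a (l 144636803305734447) (l 16832200)) (a (c (l 144659343305163119) (l 144538053435474223)) (a (l 144656594550129007) (c (l 16818304) (l 16824144))))))))), by decide +kernel⟩

def k27_pm_102_a : ∃ t, chk3 f_pm_102_a t 12 2 1 = true :=
  ⟨(b (a (b (a (l 16760080) (l 16756160)) (a (l 16745944) (b (l 16757880) (l 16752144)))) (b (a (b (a (l 16745448) (l 16739336)) (l 16749688)) (b (a (b (l 16730848) (l 16735064)) (b (a (l 16726016) (b (c (l 16719048) (l 16719072)) (l 16723744))) (a (l 16730152) (l 16726808)))) (a (l 16720040) (b (l 16732536) (l 16736488))))) (a (b (l 16754584) (l 16756360)) (b (l 16745096) (l 16750984))))) (b (a (l 16721112) (b (a (l 16752056) (l 16754232)) (a (l 16732264) (l 16751232)))) (a (l 16709808) (a (l 16722192) (l 16728248))))), by decide +kernel⟩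

def k28_pm_102_a : ∃ t, chk3 f_pm_102_a t 26 8 1 = true :=
  ⟨(a (b (a (b (a (a (b (b (c (a (l 16719072) (l 107004965751)) (a (l 16719184) (l 93583191079))) (l 16717784)) (l 16721272)) (b (b (c (l 127406058087) (l 124184832871)) (a (c (l 83382643527) (l 16718576)) (b (l 122574220631) (l 89825094311)))) (b (l 16719120) (l 16720120)))) (b (a (b (l 3) (c (l 133848506439) (l 128479798919))) (l 3)) (a (b (c (a (l 90898835799) (l 117742381431)) (a (l 88214481719) (l 112910543543))) (l 16718464)) (b (l 137069732103) (a (a (l 85530125959) (l 103246865415)) (l 120426734871)))))) (a (b (l 16722456) (l 16724456)) (b (a (l 16719952) (b (l 16716480) (l 16718776))) (l 16721096)))) (b (l 3) (a (b (a (b (c (l 117205508599) (l 112373670759)) (l 80698285943)) (b (l 3) (c (l 121500474471) (l 116668636647)))) (a (l 16718560) (c (l 83382639623) (l 79624543927)))) (b (l 3) (b (c (l 132237889639) (l 127406057063)) (a (c (l 89825089415) (l 85530122551)) (l 129016664615))))))) (a (b (a (l 16727464) (l 16724072)) (l 16729784)) (b (a (b (l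 16719672) (l 16721640)) (b (a (l 16717120) (b (l 90898829271) (l 16715888))) (l 16718208))) (a (l 16724640) (l 16721184))))) (b (l 3) (a (b (a (b (a (b (l 134385372247) (l 94656924167)) (l 141901562615)) (a (l 16715624) (b (l 99488760775) (l 16714384)))) (b (l 3) (a (b (l 146733400199) (l 115594889143)) (l 3)))) (a (b (l 16716712) (l 16718696)) (b (a (l 16714104) (b (l 122037338535) (l 16712848))) (l 16715200)))) (b (l 3) (a (b (a (l 135459108871) (l 3)) (a (l 76940179031) (b (l 135995979159) (l 88214466631)))) (b (l 3) (l 147270264087))))))), by decide +kernel⟩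

def k29_pm_102_a : ∃ t, chk3 f_pm_102_a t 26 9 1 = true :=
  ⟨(a (b (b (a (l 16733808) (l 16726968)) (a (l 16737752) (l 16731080))) (l 16740376)) (b (a (b (a (l 16721728) (l 16718216)) (l 16724104)) (b (a (b (l 16713672) (l 16715688)) (b (a (l 84456368695) (l 127406042407)) (l 16712136))) (a (l 16718792) (l 16715224)))) (a (b (a (l 16730104) (l 16726608)) (l 16732664)) (b (l 16721272) (a (l 16727512) (l 16723960)))))), by decide +kernel⟩

def k30_pm_102_a : ∃ t, chk3 f_pm_102_a t 27 4 1 = true :=
  ⟨(b (l 3) (a (b (a (b (a (b (l 3) (a (l 107004943495) (l 139754070279))) (l 3)) (a (b (l 72108333623) (l 16712680)) (b (a (l 118279228999) (l 152102098151)) (a (l 16709984) (l 91435682935))))) (b (l 3) (a (b (l 3) (l 140290936823)) (l 3)))) (a (b (a (l 16715896) (l 16712288)) (l 16718560)) (b (a (b (a (l 16708496) (l 110763031831)) (l 16709784)) (b (l 150491481271) (a (l 16707112) (l 123647929687)))) (a (l 16713160) (b (l 16708464) (l 16710744)))))) (b (l 3) (a (b (a (l 165523862039) (l 3)) (a (b (a (l 103246834663) (l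 144049030343)) (l 16701992)) (b (l 3) (a (l 118279216839) (l 162839509927))))) (l 3))))), by decide +kernel⟩

def k31_pm_102_a : ∃ t, chk3 f_pm_102_a t 13 5 1 = true :=
  ⟨(a (b (a (b (l 16747408) (l 16751904)) (b (a (l 16738960) (l 16732488)) (l 16744016))) (a (b (l 16749896) (l 16731416)) (b (l 16749528) (l 16748352)))) (b (a (b (a (b (a (l 16724992) (l 16721392)) (l 16727904)) (b (l 16716024) (a (l 16722624) (l 16719088)))) (a (l 16735088) (b (l 16725976) (l 16730960)))) (b (a (b (a (l 16710752) (b (a (l 16706960) (l 98414993975)) (l 16708472))) (a (l 16715608) (l 16712160))) (b (a (b (a (l 144585900151) (l 3)) (a (l 16705920) (b (l 140290924823) (l 16704832)))) (b (l 3) (a (l 164450121911) (l 3)))) (a (b (l 16707496) (l 16710016)) (b (c (a (l 97341253591) (l 138680312823)) (a (l 16705208) (l 134385352919))) (c (l 16706000) (l 16706832)))))) (a (b (a (l 16720808) (l 16717392)) (l 16724464)) (b (a (l 16714032) (l 16705464)) (a (l 16719440) (l 16716184)))))) (a (b (l 16741056) (b (l 16746576) (l 16748528))) (b (a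 (l 16732280) (b (a (l 16724936) (l 16721752)) (l 16728800))) (l 16739432))))), by decide +kernel⟩

def k32_pm_102_a : ∃ t, chk3 f_pm_102_a t 14 4 1 = true :=
  ⟨(l 3), by decide +kernel⟩

def k33_pm_102_a : ∃ t, chk3 f_pm_102_a t 28 10 1 = true :=
  ⟨(a (b (a (b (l 3) (a (c (b (l 188609307879) (a (b (l 147270253015) (l 16704096)) (b (l 3) (a (l 127942894839) (l 185924957239))))) (b (l 182703730071) (a (l 113984257063) (l 164986993447)))) (l 3))) (l 3)) (a (b (b (a (c (a (l 16706264) (b (l 100025609095) (l 16705264))) (l 92509423079)) (a (c (b (a (l 166597605543) (l 3)) (c (l 113984252935) (l 116131740119))) (b (l 168208219655) (l 117742354743))) (c (c (l 189146174679) (l 185388085719)) (l 181629990567)))) (a (l 16708784) (c (a (l 16705760) (b (c (a (l 16701200) (l 163913250535)) (l 145122771511)) (c (l 16704264) (l 16705192)))) (a (l 16706472) (b (l 142438418023) (l 16705624)))))) (a (l 16712936) (c (b (a (l 16708728) (l 16707032)) (l 16710888)) (l 16709640)))) (b (a (b (l 3) (b (l 3) (a (c (c (a (b (l 162839509223)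 (l 16703336)) (l 167134476263)) (l 155323318423)) (l 153175835847)) (l 3)))) (l 3)) (a (b (a (c (c (a (l 16705280) (b (c (l 98415000583) (l 16703912)) (l 16705184))) (l 101636226791)) (l 102709971175)) (b (c (a (c (c (l 146196510695) (l 157470801111)) (l 155860189783)) (l 3)) (l 161228899175)) (c (c (a (l 74792681815) (c (l 120963575927) (l 134385353223))) (l 119889837495)) (l 120426710567)))) (c (a (l 16708368) (c (l 16706248) (l 16707024))) (l 16708016))) (b (a (b (l 3) (c (c (c (l 176798151559) (l 173576927351)) (l 172503186935)) (l 169818833447))) (l 3)) (a (c (c (b (a (c (l 95730644151) (l 16703128)) (c (l 154249575463) (l 152102093047))) (l 16702688)) (b (a (l 16705088) (l 150491481671)) (l 16706168))) (b (l 134385356071) (l 16706536))) (b (l 3) (c (c (a (b (a (l 124721672743) (l 173576929175)) (l 92509418375)) (l 171966315991)) (a (l 132237869335) (l 167671350631))) (l 146196515927))))))))) (l 3)), by decide +kernel⟩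

def k34_pm_102_a : ∃ t, chk3 f_pm_102_a t 56 11 1 = true :=
  ⟨(b (a (b (a (l 16718520) (l 16715416)) (a (l 16724296) (l 16721184))) (b (c (a (l 16701664) (b (a (l 16702872) (c (b (a (l 16705624) (b (l 109689285895) (l 16705176))) (l 16706808)) (l 102709971463))) (l 16710408))) (a (l 16712064) (b (a (l 16708552) (l 103246843351)) (l 16710568)))) (a (l 16718112) (l 16704656)))) (a (l 16731344) (b (a (l 16724120) (b (l 16719600) (l 16722640))) (l 16728608)))), by decide +kernel⟩

def k35_pm_102_a : ∃ t, chk3 f_pm_102_a t 57 22 1 = true :=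
  ⟨(a (b (a (b (a (b (a (c (c (b (l 178408767623) (l 134922227271)) (l 152638966519)) (l 149954612935)) (l 3)) (c (c (a (l 16705536) (b (l 166060742151) (l 16705096))) (l 116131743767)) (l 117205486759))) (b (l 3) (c (a (b (l 3) (c (l 169281968823) (l 163376385399))) (l 3)) (l 170892577607)))) (a (c (c (l 16707560) (l 16708264)) (l 16708480)) (b (c (c (a (b (l 129553522103) (l 16705888)) (b (l 179482510871) (a (l 16707224) (l 181093131015)))) (a (l 16706344) (l 154786451527))) (l 127406036663)) (c (c (l 16706704) (l 16707488)) (l 16707800))))) (b (l 3) (a (b (l 3) (c (c (c (a (b (l 171429448343) (l 144585910935)) (b (l 3) (l 180556253927))) (l 154249582775)) (a (l 132237872807) (l 167134482503))) (l 147807131319))) (l 3)))) (a (c (b (l 16710360) (l 16713576)) (l 16711992)) (b (a (c (b (c (a (l 16707136) (b (c (l 161228910711) (l 16706152)) (l 16706728))) (l 73718940151)) (l 16708784)) (l 16707232)) (b (c (c (a (b (l 177335034183) (a (l 141364687687) (l 191293682727))) (l 183777479159)) (a (l 142438417895) (l 183240609911)))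 (l 159618291431)) (c (c (a (l 16707176) (b (l 186461846311) (l 136532851799))) (l 86603845255)) (l 111299909879)))) (c (a (l 16711216) (b (l 16708840) (l 16710472))) (l 16710704))))) (b (l 3) (a (a (b (b (l 3) (b (l 3) (c (c (c (l 184851232855) (l 176798159479)) (l 172503193351)) (l 169281968727)))) (b (c (c (a (b (l 154249593815) (l 16707672)) (b (l 181093127239) (l 166597623767))) (l 104857454455)) (l 120963586951)) (c (l 16708928) (l 16709448)))) (b (l 3) (c (c (b (l 185388093047) (a (a (l 166597626903) (l 193978043783)) (l 183240617191))) (l 166597614295)) (b (l 183777482679) (l 139754069399))))) (l 3)))), by decide +kernel⟩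

def k36_pm_102_a : ∃ t, chk3 f_pm_102_a t 57 23 1 = true :=
  ⟨(a (b (a (l 16718232) (b (l 16713800) (l 16716848))) (b (a (l 16722768) (l 16719880)) (l 16734856))) (b (a (b (c (a (l 16711392) (b (c (a (l 16709056) (l 148344018615)) (l 16709336)) (l 16710696))) (b (l 16710224) (l 16711648))) (l 16714024)) (c (b (a (c (b (a (l 181630011479) (l 3)) (a (l 16709200) (l 193978048887))) (l 153175844167)) (b (l 3) (l 184851242471))) (a (l 16711680) (b (a (l 130090412343) (l 203104857415)) (l 16711040)))) (b (a (b (l 164450133239) (l 16709752)) (l 179482517399)) (c (l 69423980503) (l 97341273847))))) (a (l 16718608) (b (l 16714376) (l 16717440))))), by decide +kernel⟩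

def k37_pm_102_a : ∃ t, chk3 f_pm_102_a t 29 5 1 = true :=
  ⟨(b (l 3) (a (b (l 3) (a (b (a (b (l 3) (a (b (l 3) (c (l 203641731367) (l 149954618599))) (l 3))) (l 3)) (b (c (a (a (l 108615581223) (b (l 185924972551) (l 142438451927))) (l 191293678679)) (a (a (l 16712392) (l 140290940807)) (l 190756809415))) (a (l 16704376) (a (c (l 138680359879) (l 16712960)) (l 203641742087))))) (l 3))) (l 3))), by decide +kernel⟩

def k38_pm_102_a : ∃ t, chk3 f_pm_102_a t 15 2 1 = true :=
  ⟨(l 3), by decide +kernel⟩

def k39_pm_102_a : ∃ t, chk3 f_pm_102_a t 6 6 1 = true :=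
  ⟨(a (b (a (b (l 16708368) (a (l 16706592) (l 16719048))) (b (l 16723472) (l 16705416))) (a (b (l 16718136) (l 16728760)) (b (b (l 16733480) (l 16717264)) (b (l 16722072) (l 16729392))))) (b (a (c (l 16835768) (l 16685168)) (a (b (l 16746872) (l 16731552)) (b (b (l 16745632) (l 16748176)) (b (l 16748256) (l 16739096))))) (a (b (a (l 16715528) (l 16736024)) (a (l 16750272) (b (l 16743544) (l 16751832)))) (b (a (l 16734168) (l 16755168)) (a (b (l 16740648) (a (l 16748304) (l 16745224))) (l 16740320)))))), by decide +kernel⟩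

def k40_pm_102_a : ∃ t, chk3 f_pm_102_a t 12 14 1 = true :=
  ⟨(a (b (c (l 16748656) (l 16744408)) (a (l 16764920) (l 16758408))) (a (b (l 16761984) (l 16791184)) (b (l 16745368) (b (l 16785128) (b (l 16796584) (l 16783672)))))), by decide +kernel⟩

def k41_pm_102_a : ∃ t, chk3 f_pm_102_a t 24 15 1 = true :=
  ⟨(b (b (a (l 16778976) (l 16804864)) (a (c (l 16801256) (l 16788288)) (c (c (l 16811928) (l 16817904)) (b (l 16805096) (l 16831472))))) (a (c (a (b (l 16805640) (b (l 16812920) (l 144816298621043055))) (b (l 16813248) (c (l 16820152) (b (l 16823272) (l 16828608))))) (b (a (l 16814256) (l 16825376)) (a (b (l 16823424) (b (l 16828248) (a (l 16828720) (l 16834328)))) (b (l 16855216) (c (b (l 16834648) (l 16837680)) (a (l 16863440) (b (l 16846208) (l 16849528)))))))) (b (c (a (l 16819744) (l 16824976)) (a (l 16877096) (b (l 16840816) (l 16867088)))) (c (a (b (l 16826632) (c (l 16827952) (b (l 16834160) (l 16836656)))) (b (l 16831360) (b (l 16834480) (l 16836464)))) (b (a (b (l 16842224) (l 16866152)) (b (l 16870872)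 (a (l 16851072) (l 16853136)))) (b (a (a (l 16846024) (c (l 16845024) (l 16855952))) (a (a (l 16852768) (l 16853656)) (l 16854536))) (c (a (a (l 16844112) (l 16847512)) (l 16850120)) (a (b (a (l 16853728) (c (l 16855152) (l 16861096))) (a (c (l 16852592) (l 16858248)) (c (l 16856296) (a (b (l 16861392) (l 16862016)) (l 16862888))))) (c (l 16858320) (a (l 16863664) (l 16864864))))))))))), by decide +kernel⟩

def k42_pm_102_a : ∃ t, chk3 f_pm_102_a t 25 15 1 = true :=
  ⟨(a (b (b (l 16792960) (c (b (l 16818512) (l 16824312)) (b (l 16827784) (l 16826824)))) (b (a (c (l 16828448) (b (l 16847392) (l 16871888))) (c (l 16830000) (b (l 16849760) (l 16851720)))) (c (a (c (l 16831872) (l 16860888)) (b (l 16834888) (l 16859552))) (b (a (b (l 16853016) (l 16854320)) (l 16875144)) (a (c (l 16851184) (b (l 16861560) (a (c (l 16859816) (l 16865736)) (l 16863296)))) (c (l 16851912) (b (l 16862040) (a (l 16863568) (l 16863560))))))))) (b (b (c (l 16807960) (l 16805880)) (c (b (l 16819184) (l 16825680)) (b (l 16819096) (l 16830888))))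 (b (c (l 16876872) (a (l 16849960) (l 16848240))) (c (b (b (l 16833712) (l 16835464)) (a (l 16859592) (l 16858768))) (b (a (l 16874576) (l 16873032)) (a (c (l 16851592) (b (l 16861408) (a (l 16863272) (l 16862736)))) (c (l 16850328) (b (l 16859776) (a (l 16872440) (l 16871432)))))))))), by decide +kernel⟩

def k43_pm_102_a : ∃ t, chk3 f_pm_102_a t 13 7 1 = true :=
  ⟨(b (a (b (a (b (l 16761784) (l 16751256)) (b (l 16738464) (l 16768664))) (a (b (l 16763936) (a (l 16799840) (l 16797008))) (l 16764792))) (b (a (l 16738120) (b (l 16749192) (l 16757744))) (a (l 16757464) (b (l 16766856) (l 16777584))))) (a (b (b (a (l 16812000) (l 16804560)) (c (a (l 16858872) (l 16810640)) (a (b (l 16832536) (l 16818360)) (l 16804912)))) (b (c (a (l 16847600) (b (l 16820384) (l 16822952))) (a (a (l 16845704) (l 16842520)) (b (l 16877832) (l 16859000)))) (a (c (b (l 16873480) (a (l 16857232) (l 16855120))) (b (a (l 16870688) (l 16846712)) (a (c (l 16848280) (b (l 16857312) (a (l 16859752) (l 16858384)))) (b (l 16870216) (c (l 16846552)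 (a (l 16856856) (l 16855176))))))) (b (c (l 16847296) (a (l 16843160) (l 16839128))) (c (a (l 16831536) (a (l 16829320) (l 16827696))) (a (b (l 16845776) (a (l 16869576) (l 16846776))) (a (b (l 16842872) (l 16844832)) (b (l 16840792) (b (l 16842224) (l 16843160)))))))))) (a (b (b (l 16796200) (l 16809152)) (b (b (a (l 16862976) (c (l 16810672) (l 16822928))) (c (l 16816184) (a (l 16831384) (l 16826600)))) (b (a (c (l 16821376) (a (l 16835840) (l 16833432))) (l 16823096)) (a (c (b (l 16824088) (l 16825968)) (b (l 16858144) (l 16838920))) (c (l 16821368) (l 16832992)))))) (b (b (l 16788888) (l 16800904)) (b (b (b (l 16808552) (c (l 16806560) (l 16816992))) (c (l 16809840) (l 16820184))) (c (b (l 16812800) (a (l 16817968) (l 16814848))) (b (l 16822840) (a (l 16828288) (l 16823984))))))))), by decide +kernel⟩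

def k44_pm_102_a : ∃ t, chk3 f_pm_102_a t 14 6 1 = true :=
  ⟨(a (b (a (b (a (l 16742072) (l 16737256)) (b (l 16767248) (l 16749224))) (b (a (b (l 16728952) (l 16734776)) (b (a (b (l 16723088) (l 16726240)) (b (l 16720488) (l 16723464))) (a (l 16730792) (l 16728264)))) (a (l 16743264) (l 16738744)))) (b (a (l 16784888) (b (a (l 16749544) (l 16747232)) (l 16793720))) (a (l 16739656) (b (l 16746440) (l 16743696))))) (b (a (b (a (b (a (l 16719488) (b (a (l 16716080) (l 94120043959)) (l 16718560))) (a (b (l 16724008) (l 16727136)) (l 16723200))) (b (a (b (a (l 171429491351) (l 170892591719)) (c (l 128479823367) (l 16710856))) (b (l 3) (l 166060776823))) (a (l 16710400) (b (c (l 148880923095) (l 106468067879)) (l 16720184))))) (a (b (a (l 16731904) (b (l 16727792) (l 16731064))) (l 16737064)) (b (a (l 16715184) (l 16724896)) (a (l 16733680) (b (l 16729520) (l 16732968)))))) (b (a (b (l 3) (a (b (l 172503207543) (l 158007732023)) (l 3))) (l 3)) (a (b (a (b (a (l 16721688) (l 16731000)) (l 16724304)) (b (l 167671407319)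 (a (l 16722720) (l 146196575815)))) (a (l 16729008) (b (l 16725376) (l 16728616)))) (b (a (b (l 3) (l 146733413335)) (l 3)) (a (b (l 141364743239) (l 16726496)) (b (l 3) (l 158007737319))))))) (b (a (a (l 16746576) (b (l 16739096) (l 16745824))) (a (b (a (b (l 16734104) (l 16737504)) (l 16733568)) (b (l 16740016) (l 16743496))) (b (a (l 16731536) (b (l 133311683143) (l 16731040))) (a (l 16738704) (b (l 16734600) (l 16738224)))))) (a (b (a (l 16753944) (l 16752248)) (a (l 16752216) (l 16757432))) (a (b (l 16748864) (l 16755664)) (b (a (l 16745992) (l 16744176)) (l 16752664))))))), by decide +kernel⟩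

def k45_pm_102_a : ∃ t, chk3 f_pm_102_a t 15 6 1 = true :=
  ⟨(a (b (l 3) (a (b (a (b (a (b (l 122574222391) (l 132774805687)) (l 152102130743)) (a (b (l 16732240) (l 16735960)) (b (l 157470874631) (l 122574256231)))) (b (l 3) (a (b (l 3) (l 148880919575)) (l 3)))) (a (b (a (b (l 16739792) (l 16744032)) (b (l 16737280) (l 16741440))) (a (l 16749952) (b (l 16745976) (l 16750168)))) (b (a (b (l 98951916967) (l 16738272)) (b (l 168745145575) (l 137606624647))) (a (b (l 16742416) (l 16746392)) (b (l 80161445095) (l 16742704)))))) (b (l 3) (a (b (l 3) (a (b (a (l 178408848295) (l 3)) (a (l 16740688) (l 107541869831))) (b (l 3) (l 174113865687)))) (l 3))))) (l 3)), by decide +kernel⟩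

def k46_pm_102_a : ∃ t, chk3 f_pm_102_a t 14 14 1 = true :=
  ⟨(a (b (a (b (l 16747272) (l 16733104)) (b (l 16747440) (l 16753584))) (a (b (l 16763848) (l 16773376)) (b (a (l 16762728) (l 16761608)) (l 16750592)))) (b (a (b (l 16751272) (l 16755272)) (b (a (l 16719600) (l 16759904)) (a (l 16758712) (l 16765928)))) (a (b (a (l 16762248) (l 16763552)) (a (b (l 16769488) (l 16773816)) (b (l 16769728) (l 16753624)))) (b (a (l 16764936) (l 16765488)) (a (b (l 16770424) (l 16773056)) (l 16770304)))))), by decide +kernel⟩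

def k47_pm_102_a : ∃ t, chk3 f_pm_102_a t 30 14 1 = true :=
  ⟨(a (b (a (b (l 16757072) (b (l 16762760) (l 16765688))) (b (a (b (l 16750992) (l 16756024)) (b (a (l 16747512) (l 16746008)) (l 16752104))) (l 16759480))) (a (b (l 16766496) (l 16747480)) (b (b (l 16764144) (l 16767296)) (l 16778208)))) (b (a (b (a (b (l 16744104) (l 16748560)) (b (a (l 114521199287) (l 174113872711)) (a (l 16746416) (l 123648012375)))) (a (b (l 16753784) (l 16757176)) (b (a (l 16751024) (l 16749120)) (l 16767496)))) (b (a (b (l 3) (a (b (l 168208295399) (l 100025683719)) (l 168745164503))) (l 3)) (a (b (a (l 16746928) (b (l 167671429543) (l 102710042023))) (a (l 16751608) (l 16749528))) (b (a (b (l 3) (l 166597688119)) (l 3)) (a (b (a (l 16746704) (l 159618373511)) (l 16743408)) (b (l 165523946759) (c (l 160155242903) (l 162839596999)))))))) (a (b (a (l 16762344) (l 16759808)) (b (l 16765824) (a (l 16747104) (l 16747184)))) (b (a (b (a (l 16756128) (l 16754304)) (l 16764472)) (a (b (l 16752376) (l 16756960)) (b (b (c (l 100562566391)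 (l 16743792)) (l 16741048)) (b (l 16753992) (l 16756328))))) (a (l 16764304) (b (a (l 16760656) (l 16759488)) (l 16763592))))))), by decide +kernel⟩

def k48_pm_102_a : ∃ t, chk3 f_pm_102_a t 31 14 1 = true :=
  ⟨(a (b (l 3) (a (b (a (b (a (b (c (l 158544631015) (l 162302726935)) (c (a (l 16750088) (l 153712798423)) (l 100025695639))) (b (l 3) (l 160155244359))) (a (c (l 16747960) (l 16742768)) (b (c (a (l 151028446791) (l 153712797703)) (l 154249674551)) (c (l 97341348615) (l 16747208))))) (b (l 3) (a (b (l 3) (c (a (l 149954704279) (l 156934024055)) (l 155323417271))) (l 3)))) (a (b (a (b (l 16756768) (l 16759016)) (b (l 16744392) (l 16757248))) (a (l 16761760) (b (l 16759504) (l 16761480)))) (b (a (b (a (l 16753448) (b (l 156397158663) (l 16753112))) (l 16750136)) (b (c (l 154249671415) (l 158544638375)) (c (a (l 97341353623) (l 148344095495)) (a (l 96267611367) (l 153175933495))))) (a (b (l 16757768) (l 16759992)) (b (c (a (l 16756368) (l 16755480)) (l 16750696)) (l 16747792)))))) (b (l 3) (a (b (l 3) (a (a (b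 (b (l 151028451735) (c (l 139217295591) (l 16755128))) (l 16756928)) (b (l 156934030871) (b (c (l 144586005383) (l 122037419607)) (l 6)))) (b (l 3) (l 6)))) (l 3))))) (l 3)), by decide +kernel⟩

def k49_pm_102_a : ∃ t, chk3 f_pm_102_a t 14 15 1 = true :=
  ⟨(b (a (a (b (l 16783776) (c (l 16791272) (l 16799168))) (b (l 16822784) (a (l 16791400) (l 16852640)))) (a (b (a (l 16801080) (b (l 16777848) (l 16780952))) (a (b (l 16786144) (l 16790128)) (b (l 16784400) (l 16788264)))) (b (a (b (l 16734872) (l 16779296)) (b (l 16773984) (b (l 16777024) (l 16778488)))) (b (a (l 16782680) (l 16780960)) (a (l 16786480) (l 16784688)))))) (b (a (a (b (l 16802920) (a (c (l 16805800) (l 16814576)) (b (l 16804992) (l 16806920)))) (b (a (l 16798752) (l 16796480)) (c (b (l 16819032) (a (l 16801720) (l 16799784))) (a (l 16828144) (l 16804080))))) (b (a (a (l 16794424) (l 16792504)) (a (l 16790648) (l 16788776))) (a (a (b (l 16797888) (l 16841944)) (l 16797112)) (a (l 16795192) (l 16814200))))) (a (a (b (c (a (l 16808528) (l 16806000))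 (a (l 16816952) (l 16813448))) (c (a (c (l 16810664) (l 16813592)) (a (l 16810144) (l 16809096))) (a (b (l 16819232) (l 16820840)) (b (l 16815736) (l 16817384))))) (b (c (a (l 16804000) (l 16802376)) (a (l 16810448) (l 16807888))) (c (a (c (l 16806752) (l 16808752)) (c (l 16805192) (l 16806792))) (a (b (l 16812736) (l 16814328)) (c (l 16809256) (l 16812584)))))) (b (a (a (c (l 16801120) (l 16805816)) (b (c (l 16798992) (l 16803128)) (l 16822896))) (b (a (c (l 16797192) (l 16800656)) (l 16827992)) (a (l 16821280) (c (l 16797848) (l 16800568))))) (a (c (a (c (l 16803768) (l 16805024)) (c (l 16802408) (l 16803376))) (a (c (l 16807072) (l 16809912)) (c (l 16805056) (l 16807464)))) (a (c (c (l 16801040) (l 16801768)) (l 16804072)) (c (c (l 16799584) (l 16800120)) (l 16802000)))))))), by decide +kernel⟩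

def k50_pm_102_a : ∃ t, chk3 f_pm_102_a t 15 15 1 = true :=
  ⟨(a (b (a (b (b (l 16771392) (a (b (l 16774808) (l 16776168)) (l 16773368))) (a (b (a (l 16779600) (l 16758040)) (l 16782760)) (b (a (l 16756448) (l 16775968)) (c (l 16801272) (l 16761512))))) (a (b (b (l 16768672) (l 16750056)) (b (l 16774456) (a (b (l 16777760) (l 16780128)) (b (l 16776640) (l 16778480))))) (b (b (a (l 16737800) (l 16767032)) (a (l 16769392) (l 16770304))) (b (l 16771832) (a (l 16776216) (l 6)))))) (b (a (b (a (l 16807728) (c (l 16783728) (l 16785800))) (a (l 16812088) (c (l 16788040) (l 16790008)))) (a (b (a (l 16782784) (b (l 16780712) (l 6))) (l 6)) (l 6))) (a (a (b (b (l 16794624) (a (l 16818480) (l 16817304))) (c (c (l 16797928) (l 16798312)) (l 16799824))) (b (b (l 16792240) (l 6)) (l 6))) (l 6)))) (b (a (a (b (a (b (l 16764752) (l 16768136)) (b (a (b (l 16762096) (l 16763848)) (b (l 16760504) (l 6))) (l 6))) (l 6)) (l 6)) (l 6)) (l 6))), by decide +kernel⟩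

theorem s51_pm_102_a : ∃ t, chk3 f_pm_102_a t 7 15 1 = true := ex3_a k49_pm_102_a k50_pm_102_a

theorem s52_pm_102_a : ∃ t, chk3 f_pm_102_a t 15 14 1 = true := ex3_a k47_pm_102_a k48_pm_102_a

theorem s53_pm_102_a : ∃ t, chk3 f_pm_102_a t 7 14 1 = true := ex3_a k46_pm_102_a s52_pm_102_a

theorem s54_pm_102_a : ∃ t, chk3 f_pm_102_a t 7 7 1 = true := ex3_b s53_pm_102_a s51_pm_102_a

theorem s55_pm_102_a : ∃ t, chk3 f_pm_102_a t 7 6 1 = true := ex3_a k44_pm_102_a k45_pm_102_a

theorem s56_pm_102_a : ∃ t, chk3 f_pm_102_a t 7 3 1 = true := ex3_b s55_pm_102_a s54_pm_102_a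

theorem s57_pm_102_a : ∃ t, chk3 f_pm_102_a t 12 15 1 = true := ex3_a k41_pm_102_a k42_pm_102_a

theorem s58_pm_102_a : ∃ t, chk3 f_pm_102_a t 12 7 1 = true := ex3_b k40_pm_102_a s57_pm_102_a

theorem s59_pm_102_a : ∃ t, chk3 f_pm_102_a t 6 7 1 = true := ex3_a s58_pm_102_a k43_pm_102_a

theorem s60_pm_102_a : ∃ t, chk3 f_pm_102_a t 6 3 1 = true := ex3_b k39_pm_102_a s59_pm_102_a

theorem s61_pm_102_a : ∃ t, chk3 f_pm_102_a t 3 3 1 = true := ex3_a s60_pm_102_a s56_pm_102_a

theorem s62_pm_102_a : ∃ t, chk3 f_pm_102_a t 57 11 1 = true := ex3_b k35_pm_102_a k36_pm_102_a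

theorem s63_pm_102_a : ∃ t, chk3 f_pm_102_a t 28 11 1 = true := ex3_a k34_pm_102_a s62_pm_102_a

theorem s64_pm_102_a : ∃ t, chk3 f_pm_102_a t 28 5 1 = true := ex3_b k33_pm_102_a s63_pm_102_a

theorem s65_pm_102_a : ∃ t, chk3 f_pm_102_a t 14 5 1 = true := ex3_a s64_pm_102_a k37_pm_102_a

theorem s66_pm_102_a : ∃ t, chk3 f_pm_102_a t 14 2 1 = true := ex3_b k32_pm_102_a s65_pm_102_a

theorem s67_pm_102_a : ∃ t, chk3 f_pm_102_a t 7 2 1 = true := ex3_a s66_pm_102_a k38_pm_102_a

theorem s68_pm_102_a : ∃ t, chk3 f_pm_102_a t 26 4 1 = true := ex3_b k28_pm_102_a k29_pm_102_a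

theorem s69_pm_102_a : ∃ t, chk3 f_pm_102_a t 13 4 1 = true := ex3_a s68_pm_102_a k30_pm_102_a

theorem s70_pm_102_a : ∃ t, chk3 f_pm_102_a t 13 2 1 = true := ex3_b s69_pm_102_a k31_pm_102_a

theorem s71_pm_102_a : ∃ t, chk3 f_pm_102_a t 6 2 1 = true := ex3_a k27_pm_102_a s70_pm_102_a

theorem s72_pm_102_a : ∃ t, chk3 f_pm_102_a t 3 2 1 = true := ex3_a s71_pm_102_a s67_pm_102_a

theorem s73_pm_102_a : ∃ t, chk3 f_pm_102_a t 3 1 1 = true := ex3_b s72_pm_102_a s61_pm_102_a

theorem s74_pm_102_a : ∃ t, chk3 f_pm_102_a t 11 15 1 = true := ex3_c k25_pm_102_a k26_pm_102_a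

theorem s75_pm_102_a : ∃ t, chk3 f_pm_102_a t 11 7 1 = true := ex3_b k24_pm_102_a s74_pm_102_a

theorem s76_pm_102_a : ∃ t, chk3 f_pm_102_a t 43 255 1 = true := ex3_c k22_pm_102_a k23_pm_102_a

theorem s77_pm_102_a : ∃ t, chk3 f_pm_102_a t 43 127 1 = true := ex3_b k21_pm_102_a s76_pm_102_a

theorem s78_pm_102_a : ∃ t, chk3 f_pm_102_a t 43 63 1 = true := ex3_b k20_pm_102_a s77_pm_102_a

theorem s79_pm_102_a : ∃ t, chk3 f_pm_102_a t 43 31 1 = true := ex3_b k19_pm_102_a s78_pm_102_a

theorem s80_pm_102_a : ∃ t, chk3 f_pm_102_a t 42 31 1 = true := ex3_a k17_pm_102_a k18_pm_102_a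

theorem s81_pm_102_a : ∃ t, chk3 f_pm_102_a t 21 31 1 = true := ex3_a s80_pm_102_a s79_pm_102_a

theorem s82_pm_102_a : ∃ t, chk3 f_pm_102_a t 21 15 1 = true := ex3_b k16_pm_102_a s81_pm_102_a

theorem s83_pm_102_a : ∃ t, chk3 f_pm_102_a t 20 63 2 = true := ex3_a k13_pm_102_a k14_pm_102_a

theorem s84_pm_102_a : ∃ t, chk3 f_pm_102_a t 20 63 1 = true := ex3_c s83_pm_102_a k15_pm_102_a

theorem s85_pm_102_a : ∃ t, chk3 f_pm_102_a t 20 31 1 = true := ex3_b k12_pm_102_a s84_pm_102_a

theorem s86_pm_102_a : ∃ t, chk3 f_pm_102_a t 20 15 1 = true := ex3_b k11_pm_102_a s85_pm_102_a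

theorem s87_pm_102_a : ∃ t, chk3 f_pm_102_a t 10 15 1 = true := ex3_a s86_pm_102_a s82_pm_102_a

theorem s88_pm_102_a : ∃ t, chk3 f_pm_102_a t 10 7 1 = true := ex3_b k10_pm_102_a s87_pm_102_a

theorem s89_pm_102_a : ∃ t, chk3 f_pm_102_a t 5 7 1 = true := ex3_a s88_pm_102_a s75_pm_102_a

theorem s90_pm_102_a : ∃ t, chk3 f_pm_102_a t 5 3 1 = true := ex3_b k9_pm_102_a s89_pm_102_a

theorem s91_pm_102_a : ∃ t, chk3 f_pm_102_a t 19 31 1 = true := ex3_a k7_pm_102_a k8_pm_102_a

theorem s92_pm_102_a : ∃ t, chk3 f_pm_102_a t 19 15 1 = true := ex3_b k6_pm_102_a s91_pm_102_a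

theorem s93_pm_102_a : ∃ t, chk3 f_pm_102_a t 18 15 1 = true := ex3_a k4_pm_102_a k5_pm_102_a

theorem s94_pm_102_a : ∃ t, chk3 f_pm_102_a t 9 15 1 = true := ex3_a s93_pm_102_a s92_pm_102_a

theorem s95_pm_102_a : ∃ t, chk3 f_pm_102_a t 4 15 1 = true := ex3_a k3_pm_102_a s94_pm_102_a

theorem s96_pm_102_a : ∃ t, chk3 f_pm_102_a t 4 7 1 = true := ex3_b k2_pm_102_a s95_pm_102_a

theorem s97_pm_102_a : ∃ t, chk3 f_pm_102_a t 4 3 1 = true := ex3_b k1_pm_102_a s96_pm_102_a

theorem s98_pm_102_a : ∃ t, chk3 f_pm_102_a t 2 3 1 = true := ex3_a s97_pm_102_a s90_pm_102_a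

theorem s99_pm_102_a : ∃ t, chk3 f_pm_102_a t 2 1 1 = true := ex3_b k0_pm_102_a s98_pm_102_a

theorem s100_pm_102_a : ∃ t, chk3 f_pm_102_a t 1 1 1 = true := ex3_a s99_pm_102_a s73_pm_102_a

theorem c_pm_102_a : CertB 536870912 536870912 0 536870912 649613803 48318383 3 eng mog cd0q1 cd3q2a pd0 false true false .npp 1 0 2
    ndB0q1 ndB3q2a pcB0 cut_pm_102_a xt_pm_102_a :=
  certB0 (fam := false) (s1 := true) (s2 := false) (a := 1) (b := 0) (c := 2) (cn := .npp) (n1 := ndB0q1) (n2 := ndB3q2a) (pc := pcB0) (cut := cut_pm_102_a) (xt := xt_pm_102_a) (P1 := 536870912) (W1 := 536870912) (P2 := 0) (W2 := 536870912) (P3 := 649613803) (W3 := 48318383) (N0 := 3) (En := eng) (mo := mog) (C1 := cd0q1) (C2 := cd3q2a) (C3 := pd0)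
    rfl s100_pm_102_a

noncomputable def cut_pm_102_b : Cut := Cut.of [[⟨0, 1, 0, 67108864⟩, ⟨1, 0, 0, 67108864⟩, ⟨2, 1, 0, 67108864⟩], [⟨0, 0, 1, 20971520⟩, ⟨1, 1, 2, 20971520⟩, ⟨2, 1, 0, 33554432⟩]]

noncomputable def f_pm_102_b : ℕ → ℕ → ℕ → ℕ → Bool := onCell 536870912 536870912 1239849684 370763052 649613803 48318383
    (rowB 3 eng mog cd0q1 cd3q2b pd0 0 false true false .npp 1 0 2 (qsf 536870912 536870912 1239849684 370763052 0) ndB0q1 ndB3q2b pcB0 cut_pm_102_b Ext.none)

def k0_pm_102_b : ∃ t, chk3 f_pm_102_b t 2 1 1 = true :=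
  ⟨(b (a (l 2) (a (b (b (a (l 16719784) (l 16733152)) (l 2)) (l 2)) (b (a (b (b (l 16725288) (l 16738408)) (l 16716568)) (b (b (l 16753872) (l 16735472)) (l 16705024))) (a (l 2) (b (l 16668744) (l 2)))))) (l 2)), by decide +kernel⟩

def k1_pm_102_b : ∃ t, chk3 f_pm_102_b t 12 4 1 = true :=
  ⟨(a (b (b (a (l 16705432) (l 16737240)) (l 16718016)) (a (l 16688712) (l 16675064))) (b (a (b (a (l 16727968) (l 16742608)) (a (l 16702248) (l 16695728))) (b (b (a (l 16742928) (a (b (l 16730992) (l 16713928)) (a (b (c (l 16718024) (l 16718128)) (l 16711536)) (a (b (l 16722112) (l 16710328)) (b (b (l 16720312) (l 16714424)) (l 16719352)))))) (a (l 16708776) (a (l 16704032) (b (l 16704152) (l 16697560))))) (a (l 16731096) (a (l 16721000) (b (l 16687672) (l 16674520)))))) (a (b (l 16673072) (l 16648120)) (a (b (l 16662960) (l 16637144)) (b (a (l 16658056) (l 16696712)) (l 16629856)))))), by decide +kernel⟩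

def k2_pm_102_b : ∃ t, chk3 f_pm_102_b t 13 4 1 = true :=
  ⟨(a (a (a (b (b (b (a (a (b (b (a (b (l 101636258359) (l 16716064)) (b (l 272898074871) (l 133311639863))) (c (l 108078700391) (a (l 16719000) (l 122574219463)))) (b (c (l 16709640) (l 73182092775)) (c (l 16706248) (l 16707008)))) (a (b (l 3) (b (l 134922246599) (b (l 16712832) (l 16712504)))) (l 3))) (l 3)) (b (a (a (l 16712240) (b (b (l 127942916391) (l 124184817047)) (l 119889848999))) (l 3)) (a (c (l 16693464) (l 16705576)) (a (c (l 132237864775) (l 129553513575)) (l 3))))) (b (c (a (l 16683104) (a (l 16696456) (l 132237855271))) (a (l 16706544) (b (l 111836738551) (l 109689249399)))) (a (c (l 16669232) (l 16672936)) (c (l 16687032) (a (l 16670504) (l 38285432519)))))) (b (a (b (l 16658120) (l 16644888)) (b (b (l 16658168) (l 16651560)) (l 16662584))) (b (l 16629832) (l 16616320)))) (b (b (l 3) (b (l 3) (a (a (b (l 134922197751) (l 125258511927)) (l 3)) (l 3)))) (b (b (a (c (l 120426645911) (a (l 16675592) (l 124184747079))) (l 3)) (b (a (l 80161323335)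 (l 128479702023)) (c (l 119352866439) (a (l 16638008) (l 116131614887))))) (b (a (l 16666880) (b (l 122574102807) (l 121500348695))) (a (l 16611360) (a (l 16608912) (l 16649240))))))) (b (l 3) (b (l 3) (a (a (b (l 3) (b (l 127942781463) (l 126332158103))) (l 3)) (l 3))))) (l 3)), by decide +kernel⟩

def k3_pm_102_b : ∃ t, chk3 f_pm_102_b t 6 5 1 = true :=
  ⟨(a (a (b (l 16640256) (l 2)) (b (a (l 16615192) (b (a (l 16611960) (l 16604064)) (a (l 16593112) (l 16584760)))) (a (l 16607584) (b (l 16587096) (l 16588112))))) (b (a (a (b (a (l 16617504) (a (l 16653904) (b (l 16615280) (l 16580608)))) (b (a (l 16577848) (l 16569808)) (l 16569784))) (b (a (b (a (b (l 126332145399) (l 16629544)) (l 3)) (b (a (l 16580600) (l 129016469399)) (l 127942709111))) (l 3)) (a (b (b (l 129553308615) (l 124184542103)) (c (l 16549912) (l 16563128))) (b (b (l 3) (l 148343763975)) (l 130090155351))))) (l 3)) (a (a (b (l 16568416) (a (l 16572936) (l 16562760))) (b (a (b (l 16555016) (l 16553568)) (b (l 137606363623) (l 143511933319))) (a (l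 16552456) (b (l 16542520) (l 16541696))))) (a (a (b (l 3) (l 180555922343)) (l 3)) (l 3))))), by decide +kernel⟩

def k4_pm_102_b : ∃ t, chk3 f_pm_102_b t 7 2 1 = true :=
  ⟨(l 3), by decide +kernel⟩

def k5_pm_102_b : ∃ t, chk3 f_pm_102_b t 3 3 1 = true :=
  ⟨(a (b (a (l 2) (a (b (b (a (l 16568704) (l 16547256)) (l 2)) (l 2)) (b (a (a (b (l 149954294343) (l 16532120)) (b (l 3) (l 177334686471))) (l 3)) (a (l 2) (a (l 2) (l 3)))))) (l 2)) (b (l 3) (a (a (l 2) (l 3)) (l 3)))), by decide +kernel⟩

theorem s6_pm_102_b : ∃ t, chk3 f_pm_102_b t 6 4 1 = true := ex3_a k1_pm_102_b k2_pm_102_b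

theorem s7_pm_102_b : ∃ t, chk3 f_pm_102_b t 6 2 1 = true := ex3_b s6_pm_102_b k3_pm_102_b

theorem s8_pm_102_b : ∃ t, chk3 f_pm_102_b t 3 2 1 = true := ex3_a s7_pm_102_b k4_pm_102_b

theorem s9_pm_102_b : ∃ t, chk3 f_pm_102_b t 3 1 1 = true := ex3_b s8_pm_102_b k5_pm_102_b

theorem s10_pm_102_b : ∃ t, chk3 f_pm_102_b t 1 1 1 = true := ex3_a k0_pm_102_b s9_pm_102_b

theorem c_pm_102_b : CertB 536870912 536870912 1239849684 370763052 649613803 48318383 3 eng mog cd0q1 cd3q2b pd0 false true false .npp 1 0 2
    ndB0q1 ndB3q2b pcB0 cut_pm_102_b Ext.none :=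
  certB0 (fam := false) (s1 := true) (s2 := false) (a := 1) (b := 0) (c := 2) (cn := .npp) (n1 := ndB0q1) (n2 := ndB3q2b) (pc := pcB0) (cut := cut_pm_102_b) (xt := Ext.none) (P1 := 536870912) (W1 := 536870912) (P2 := 1239849684) (W2 := 370763052) (P3 := 649613803) (W3 := 48318383) (N0 := 3) (En := eng) (mo := mog) (C1 := cd0q1) (C2 := cd3q2b) (C3 := pd0)
    rfl s10_pm_102_b

noncomputable def f_pm_112_a : ℕ → ℕ → ℕ → ℕ → Bool := onCell 536870912 536870912 0 536870912 649613803 48318383
    (rowB 3 eng mog cd0q1 cd3q2a pd1 0 false true false .dn 1 1 2 (qsf 536870912 536870912 0 536870912 1) ndB0q1 ndB3q2a pcB1 Cut.none Ext.none)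

def k0_pm_112_a : ∃ t, chk3 f_pm_112_a t 1 1 1 = true :=
  ⟨(a (a (b (a (b (b (a (l 16580368) (l 16598136)) (l 16558752)) (b (l 16525192) (l 16524784))) (b (b (l 16667736) (a (l 16584088) (l 16600760))) (b (l 16595304) (l 16501208)))) (b (a (b (a (l 16429752) (l 16429152)) (a (l 16365080) (l 16354096))) (b (b (l 16452400) (l 16434872)) (b (l 16391256) (l 16342008)))) (b (a (a (b (l 16323816) (l 16320944)) (b (l 16306912) (l 16302528))) (b (l 202969884439) (l 1))) (a (b (a (b (l 16319264) (l 16318408)) (l 205654255463)) (a (a (b (l 16322304) (b (l 16321840) (c (l 39761126887) (l 16316472)))) (l 220686569479)) (l 1))) (l 1))))) (b (a (a (b (l 16699720) (b (l 16577400) (l 16521480))) (b (b (l 1) (l 1)) (l 1))) (l 1)) (b (l 1) (l 1)))) (l 1)), by decide +kernel⟩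

theorem c_pm_112_a : CertB 536870912 536870912 0 536870912 649613803 48318383 3 eng mog cd0q1 cd3q2a pd1 false true false .dn 1 1 2
    ndB0q1 ndB3q2a pcB1 Cut.none Ext.none :=
  certB0 (fam := false) (s1 := true) (s2 := false) (a := 1) (b := 1) (c := 2) (cn := .dn) (n1 := ndB0q1) (n2 := ndB3q2a) (pc := pcB1) (cut := Cut.none) (xt := Ext.none) (P1 := 536870912) (W1 := 536870912) (P2 := 0) (W2 := 536870912) (P3 := 649613803) (W3 := 48318383) (N0 := 3) (En := eng) (mo := mog) (C1 := cd0q1) (C2 := cd3q2a) (C3 := pd1)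
    rfl k0_pm_112_a

noncomputable def f_pm_112_b : ℕ → ℕ → ℕ → ℕ → Bool := onCell 536870912 536870912 1239849684 370763052 649613803 48318383
    (rowB 3 eng mog cd0q1 cd3q2b pd1 0 false true false .dn 1 1 2 (qsf 536870912 536870912 1239849684 370763052 1) ndB0q1 ndB3q2b pcB1 Cut.none Ext.none)

def k0_pm_112_b : ∃ t, chk3 f_pm_112_b t 2 1 1 = true :=
  ⟨(a (b (b (a (b (a (l 16595160) (l 16617632)) (l 16700496)) (b (a (l 16639584) (l 16660064)) (l 16646720))) (a (b (a (l 16558264) (l 16590368)) (a (l 16516448) (l 16557904))) (b (l 16632144) (l 16608672)))) (a (a (b (b (l 16594168) (l 16420128)) (b (l 16369440) (l 16315368))) (b (b (b (l 16529120) (l 16508832)) (b (l 16488464) (l 16468008))) (b (l 16437304) (l 16394096)))) (b (b (a (l 16562848) (l 16601136)) (a (b (l 16539152) (a (l 16510128) (l 16535856))) (l 16578608))) (b (a (a (l 16485984) (b (l 16521528) (l 16508248))) (b (l 16561344) (a (l 16536416) (l 16564240)))) (a (b (l 16603776) (l 16462112)) (a (l 16520688) (l 16551624))))))) (b (a (b (b (a (l 16678280)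 (l 16693600)) (a (l 16676456) (l 16689864))) (a (l 16781160) (l 16753960))) (b (a (b (l 245920438247) (l 16698176)) (b (l 1) (l 16761520))) (a (b (l 16680200) (l 16673912)) (b (l 16695808) (l 16670520))))) (a (b (a (b (l 16633464) (l 16620344)) (l 16781816)) (a (b (b (l 16610848) (l 16604728)) (b (a (l 16584800) (l 16613104)) (a (l 16579376) (l 16609840)))) (b (l 16652232) (a (b (l 16639760) (l 16639032)) (l 16665160))))) (b (a (l 16675640) (b (l 16676904) (l 16689256))) (a (b (l 16686440) (l 16698856)) (b (l 16707648) (l 16732304))))))), by decide +kernel⟩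

def k1_pm_112_b : ∃ t, chk3 f_pm_112_b t 3 1 1 = true :=
  ⟨(b (a (b (l 1) (a (a (b (l 149820581031) (l 16651360)) (b (a (l 320545429751) (l 1)) (a (l 16626200) (a (l 16610944) (l 16683368))))) (b (l 1) (a (a (b (l 1) (l 269005509959)) (l 1)) (l 1))))) (l 1)) (a (b (a (a (b (l 16661120) (l 16679864)) (b (l 16624816) (l 16645984))) (a (b (a (b (l 16584784) (l 16590008)) (b (l 122439685191) (l 16560552))) (a (l 16605424) (b (l 16568904) (l 16581768)))) (b (a (b (a (l 375305847591) (l 1)) (a (l 16536024) (l 182166524871))) (l 3)) (a (b (a (l 16543760) (l 176797801591)) (l 16546352)) (a (b (l 188072075863) (l 170892205095)) (l 3)))))) (a (a (b (l 16708360) (l 16746904)) (b (l 16680768) (l 16730896))) (a (a (l 16665560) (b (b (l 16598328) (l 16619040)) (l 16660080))) (b (a (b (l 16561744) (l 16581968)) (a (b (l 16533272) (l 16551920)) (b (l 138679932167) (l 113983944567)))) (a (a (l 16631512) (l 16611120)) (a (b (l 16576048) (l 16605480)) (b (c (l 16566536) (l 16542336)) (l 16583416)))))))) (b (l 3) (a (a (b (l 3) (a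 (b (a (b (l 141364328199) (l 126868869863)) (l 3)) (b (a (a (l 16558656) (l 130090117031)) (l 3)) (a (b (l 91972310231) (l 16593520)) (l 149417450999)))) (l 3))) (l 3)) (l 3))))), by decide +kernel⟩

theorem s2_pm_112_b : ∃ t, chk3 f_pm_112_b t 1 1 1 = true := ex3_a k0_pm_112_b k1_pm_112_b

theorem c_pm_112_b : CertB 536870912 536870912 1239849684 370763052 649613803 48318383 3 eng mog cd0q1 cd3q2b pd1 false true false .dn 1 1 2
    ndB0q1 ndB3q2b pcB1 Cut.none Ext.none :=
  certB0 (fam := false) (s1 := true) (s2 := false) (a := 1) (b := 1) (c := 2) (cn := .dn) (n1 := ndB0q1) (n2 := ndB3q2b) (pc := pcB1) (cut := Cut.none) (xt := Ext.none) (P1 := 536870912) (W1 := 536870912) (P2 := 1239849684) (W2 := 370763052) (P3 := 649613803) (W3 := 48318383) (N0 := 3) (En := eng) (mo := mog) (C1 := cd0q1) (C2 := cd3q2b) (C3 := pd1)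
    rfl s2_pm_112_b

end Pool.Agent.Strip051.G.I6050_6500.Tab.C.BB03

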