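import Pool.Agent.Strip051.G.I6050_6500.Tab
import Pool.Agent.Strip051.PB.ExtD2

/-! # Certificates B27 (generated) -/

set_option linter.all false
set_option maxRecDepth 100000

namespace Pool.Agent.Strip051.G.I6050_6500.Tab.C.BB03

open Pool.Agent.Strip051.PB Pool.Agent.Strip051.PB.T
open Pool.Agent.Strip051.G.I6050_6500.Tab

noncomputable def cut_pm_113 : Cut := Cut.of [[⟨0, 1, 0, 67108864⟩, ⟨1, 1, 0, 67108864⟩, ⟨2, 2, 0, 16777216⟩]]

noncomputable def f_pm_113 : ℕ → ℕ → ℕ → ℕ → Bool := onCell 536870912 536870912 536870912 536870912 649613803 48318383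
    (rowB 3 eng mog cd0q1 cd3q3 pd1 1 false true false .nn 1 1 3 (qsf 536870912 536870912 1610612736 536870912 1) ndB0q1 ndB3q3 pcB1 cut_pm_113 Ext.none)

def k0_pm_113 : ∃ t, chk3 f_pm_113 t 1 2 1 = true :=
  ⟨(a (a (l 1) (b (l 1) (a (l 1) (b (l 1) (a (l 1) (l 16712352)))))) (a (b (b (l 1) (a (l 1) (a (l 1) (a (l 1) (b (l 1) (l 16601400)))))) (a (b (a (l 1) (l 16710096)) (a (l 16751880) (l 16792712))) (b (a (b (l 16682240) (l 16730976)) (b (a (l 16665328) (l 16651200)) (a (l 16723912) (l 16717208)))) (a (l 16828448) (b (l 16801744) (l 16905408)))))) (a (b (b (l 3) (a (a (b (l 1) (a (l 114386767511) (l 228337595751))) (l 3)) (l 3))) (b (a (a (b (a (l 16639896) (l 179482395351)) (l 16707032)) (b (l 224579552135) (b (l 242833224119) (l 258939433639)))) (l 3)) (a (a (b (l 16799856) (l 16862768)) (b (b (l 268066229671) (l 16779000)) (l 16755456))) (a (b (b (l 226190333303) (l 232632822983)) (b (a (l 265381971079) (l 297057356487)) (l 251423311527))) (l 3))))) (l 3)))), by decide +kernel⟩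

def k1_pm_113 : ∃ t, chk3 f_pm_113 t 2 3 1 = true :=
  ⟨(a (b (a (l 1) (b (l 1) (b (l 1) (a (l 1) (l 16519368))))) (a (b (a (l 1) (l 98817307319)) (b (l 16346168) (l 16283536))) (a (b (l 99354224999) (l 16381240)) (b (b (l 16501480) (l 16482616)) (l 16450440))))) (b (a (b (a (l 1) (l 100428341143)) (a (b (l 91301363591) (l 16568760)) (b (l 16632344) (l 16630352)))) (b (a (l 16686320) (l 16744704)) (a (b (l 16696296) (l 16705040)) (b (l 16774968) (l 16740376))))) (a (a (b (l 16553448) (l 16532048)) (b (l 16629072) (l 16575840))) (a (b (l 16666000) (l 16604840)) (b (l 16689208) (l 16606952)))))), by decide +kernel⟩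

def k2_pm_113 : ∃ t, chk3 f_pm_113 t 3 6 1 = true :=
  ⟨(a (b (a (a (l 16818352) (l 16908752)) (a (l 17010176) (l 16934296))) (a (a (l 16686792) (l 16713216)) (a (l 16896864) (l 16959424)))) (a (b (a (b (a (l 16916848) (l 16872240)) (a (l 16966496) (l 16923568))) (b (a (b (l 16816728) (l 16843560)) (b (l 371682462695) (l 235317274903))) (a (l 16757184) (b (l 158544663559) (l 89825171127))))) (a (b (l 16998856) (l 16977680)) (b (a (l 16936952) (b (l 16887584) (l 16912608))) (a (l 16979520) (l 16859240))))) (a (b (b (l 3) (a (b (l 3) (l 209010689895)) (l 3))) (b (a (b (l 190220234455) (a (l 16887744) (l 231022460375))) (l 3)) (a (b (a (l 16909616) (l 16936056)) (l 16855784)) (b (l 211695102279) (a (l 285246418695) (l 3)))))) (l 3)))), by decide +kernel⟩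

def k3_pm_113 : ∃ t, chk3 f_pm_113 t 6 7 1 = true :=
  ⟨(a (b (a (l 16718576) (l 16758936)) (a (l 16698344) (l 16694120))) (b (a (l 16701208) (l 16852296)) (a (l 16714832) (b (l 16792528) (l 16759584))))), by decide +kernel⟩

def k4_pm_113 : ∃ t, chk3 f_pm_113 t 14 7 1 = true :=
  ⟨(b (a (l 16867136) (a (b (l 16934544) (l 16878648)) (b (l 16943024) (l 16884592)))) (b (a (l 16820792) (l 16835456)) (a (l 16785016) (l 16796968)))), by decide +kernel⟩

def k5_pm_113 : ∃ t, chk3 f_pm_113 t 30 7 1 = true :=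
  ⟨(b (b (b (a (l 16930232) (a (l 16886536) (l 224043062343))) (a (l 16930736) (a (l 16913632) (l 251960405575)))) (a (l 16846016) (b (a (l 16901808) (l 16836744)) (c (l 16883872) (l 16865592))))) (a (b (b (l 16850808) (l 16828304)) (l 16672960)) (b (b (l 16851016) (l 16828840)) (b (l 16808832) (l 16811128))))), by decide +kernel⟩

def k6_pm_113 : ∃ t, chk3 f_pm_113 t 31 7 1 = true :=
  ⟨(b (a (b (a (b (l 3) (l 225116788583)) (l 3)) (b (a (l 232632984983) (l 3)) (c (l 258939652295) (a (l 16855968) (l 184314589687))))) (l 3)) (a (b (b (a (c (l 16857104) (l 16842648)) (b (l 218674262967) (a (l 16843952) (l 180556424055)))) (a (l 16828136) (c (l 16832528) (c (l 16824504) (l 16839296))))) (a (b (l 16807856) (l 16789200)) (b (c (l 16811608) (l 16802080)) (l 16788448)))) (a (b (b (b (l 3) (l 257329000247)) (a (b (a (l 163376545143) (l 211158060759)) (c (l 16825640) (a (l 16816648) (l 183777642967)))) (b (l 3) (a (b (l 211694932647) (l 232096016151)) (l 3))))) (b (b (c (c (l 146196702359) (l 62981731399))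 (a (l 16807032) (a (l 16817696) (b (l 214916156695) (l 16810328))))) (a (l 16812152) (c (l 16804016) (a (l 16798016) (l 16808632))))) (a (l 16798256) (c (l 16789432) (b (l 16789280) (l 16780736)))))) (b (l 3) (a (b (b (a (a (b (l 3) (l 214379272551)) (l 3)) (l 3)) (c (b (l 250349635127) (a (l 16800800) (l 232632896935))) (b (a (c (l 16807456) (l 182167064935)) (l 3)) (b (c (l 133311804487) (l 184851403975)) (c (l 137606768247) (l 196662569943)))))) (b (c (a (l 16793448) (b (b (l 229411676167) (l 125795591815)) (l 16790520))) (a (b (l 16791656) (l 16787320)) (a (b (l 104320768871) (l 16787432)) (b (b (l 174650858343) (l 83382799255)) (l 16791448))))) (a (l 16782472) (l 6)))) (b (l 3) (b (a (b (c (l 370071863447) (c (l 182167022887) (a (l 152102274167) (l 3)))) (b (c (l 286856846775) (a (c (l 16792168) (l 182703908119)) (l 3))) (l 6))) (l 3)) (l 6)))))))), by decide +kernel⟩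

theorem s7_pm_113 : ∃ t, chk3 f_pm_113 t 15 7 1 = true := ex3_a k5_pm_113 k6_pm_113

theorem s8_pm_113 : ∃ t, chk3 f_pm_113 t 7 7 1 = true := ex3_a k4_pm_113 s7_pm_113

theorem s9_pm_113 : ∃ t, chk3 f_pm_113 t 3 7 1 = true := ex3_a k3_pm_113 s8_pm_113

theorem s10_pm_113 : ∃ t, chk3 f_pm_113 t 3 3 1 = true := ex3_b k2_pm_113 s9_pm_113

theorem s11_pm_113 : ∃ t, chk3 f_pm_113 t 1 3 1 = true := ex3_a k1_pm_113 s10_pm_113

theorem s12_pm_113 : ∃ t, chk3 f_pm_113 t 1 1 1 = true := ex3_b k0_pm_113 s11_pm_113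

theorem c_pm_113 : CertB 536870912 536870912 1610612736 536870912 649613803 48318383 3 eng mog cd0q1 cd3q3 pd1 false true false .nn 1 1 3
    ndB0q1 ndB3q3 pcB1 cut_pm_113 Ext.none :=
  certB1 (fam := false) (s1 := true) (s2 := false) (a := 1) (b := 1) (c := 3) (cn := .nn) (n1 := ndB0q1) (n2 := ndB3q3) (pc := pcB1) (cut := cut_pm_113) (xt := Ext.none) (P1 := 536870912) (W1 := 536870912) (P2 := 1610612736) (W2 := 536870912) (P3 := 649613803) (W3 := 48318383) (N0 := 3) (En := eng) (mo := mog) (C1 := cd0q1) (C2 := cd3q3) (C3 := pd1)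
    rfl (fun _ => rfl) s12_pm_113

noncomputable def cut_pm_123 : Cut := Cut.of [[⟨0, 1, 0, 67108864⟩, ⟨1, 1, 0, 67108864⟩, ⟨2, 2, 0, 16777216⟩]]

noncomputable def f_pm_123 : ℕ → ℕ → ℕ → ℕ → Bool := onCell 536870912 536870912 1073741824 536870912 649613803 48318383
    (rowB 3 eng mog cd0q1 cd3q3 pd2 1 false true false .npn 1 2 3 (qsf 536870912 536870912 1610612736 536870912 2) ndB0q1 ndB3q3 pcB2 cut_pm_123 Ext.none)

def k0_pm_123 : ∃ t, chk3 f_pm_123 t 2 1 1 = true :=
  ⟨(b (a (b (a (b (a (l 16233048) (l 16282112)) (l 16308672)) (b (a (l 16344720) (l 16423352)) (l 16340360))) (b (a (b (l 16206272) (l 16219368)) (b (l 16317896) (b (l 16311200) (l 16326168)))) (a (l 16302768) (l 16391504)))) (b (a (b (b (l 16523968) (l 16482848)) (b (l 16427240) (l 16420232))) (a (b (l 16544144) (l 16476552)) (b (c (l 16604360) (l 16520520)) (l 16499648)))) (a (b (b (l 16398872) (b (l 16387168) (l 16399928))) (l 16462168)) (b (b (l 16458600) (b (l 16450344) (l 16463864))) (l 16526392))))) (a (b (b (a (l 16410640)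 (l 16489888)) (a (l 16509008) (l 16581984))) (a (l 16640840) (b (l 16666312) (l 16739128)))) (b (a (b (l 16557704) (l 16645704)) (b (l 16619592) (b (l 16678536) (l 2)))) (a (b (l 16727264) (l 2)) (l 2))))), by decide +kernel⟩

def k1_pm_123 : ∃ t, chk3 f_pm_123 t 3 1 1 = true :=
  ⟨(b (a (b (b (a (a (b (l 16606272) (l 16568344)) (b (l 16636672) (l 16599336))) (a (b (l 16669920) (l 16633192)) (b (l 16702096) (l 16669096)))) (a (a (l 16526576) (l 16559824)) (a (l 16681432) (l 16704152)))) (b (a (b (l 16523248) (b (l 16521280) (l 16537712))) (b (b (l 16614744) (a (l 16800568) (b (l 16646264) (l 16650016)))) (a (l 16603104) (l 16657952)))) (a (a (l 16578456) (l 16619552)) (a (l 16832472) (l 2))))) (a (b (b (a (l 16821504) (b (l 16750864) (l 16728472))) (a (b (l 16686320) (l 16684000)) (a (l 16699720) (l 16928688)))) (b (b (b (l 470936778839) (l 2)) (l 2)) (l 2))) (b (a (b (b (a (l 16759680) (l 16764528)) (a (l 16743600) (l 16751768))) (b (l 845672788807) (l 2))) (b (b (b (a (l 16771712) (a (a (l 16773000)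 (l 6)) (a (l 6) (b (l 6) (l 2))))) (a (l 16765368) (a (l 879495063895) (l 2)))) (a (l 984185311703) (l 2))) (l 2))) (l 2)))) (a (b (a (b (a (l 16665064) (l 2)) (l 2)) (l 2)) (l 2)) (l 2))), by decide +kernel⟩

theorem s2_pm_123 : ∃ t, chk3 f_pm_123 t 1 1 1 = true := ex3_a k0_pm_123 k1_pm_123

theorem c_pm_123 : CertB 536870912 536870912 1610612736 536870912 649613803 48318383 3 eng mog cd0q1 cd3q3 pd2 false true false .npn 1 2 3
    ndB0q1 ndB3q3 pcB2 cut_pm_123 Ext.none :=
  certB1 (fam := false) (s1 := true) (s2 := false) (a := 1) (b := 2) (c := 3) (cn := .npn) (n1 := ndB0q1) (n2 := ndB3q3) (pc := pcB2) (cut := cut_pm_123) (xt := Ext.none) (P1 := 536870912) (W1 := 536870912) (P2 := 1610612736) (W2 := 536870912) (P3 := 649613803) (W3 := 48318383) (N0 := 3) (En := eng) (mo := mog) (C1 := cd0q1) (C2 := cd3q3) (C3 := pd2)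
    rfl (fun _ => rfl) s2_pm_123

noncomputable def f_pm_133 : ℕ → ℕ → ℕ → ℕ → Bool := onCell 536870912 536870912 1610612736 536870912 649613803 48318383
    (rowB 3 eng mog cd0q1 cd3q3 pd3 0 false true false .dn 1 3 3 (qsf 536870912 536870912 1610612736 536870912 3) ndB0q1 ndB3q3 pcB3 Cut.none Ext.none)

def k0_pm_133 : ∃ t, chk3 f_pm_133 t 1 1 1 = true :=
  ⟨(a (a (a (b (l 1) (l 422551238567)) (l 1)) (l 1)) (l 1)), by decide +kernel⟩

theorem c_pm_133 : CertB 536870912 536870912 1610612736 536870912 649613803 48318383 3 eng mog cd0q1 cd3q3 pd3 false true false .dn 1 3 3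
    ndB0q1 ndB3q3 pcB3 Cut.none Ext.none :=
  certB0 (fam := false) (s1 := true) (s2 := false) (a := 1) (b := 3) (c := 3) (cn := .dn) (n1 := ndB0q1) (n2 := ndB3q3) (pc := pcB3) (cut := Cut.none) (xt := Ext.none) (P1 := 536870912) (W1 := 536870912) (P2 := 1610612736) (W2 := 536870912) (P3 := 649613803) (W3 := 48318383) (N0 := 3) (En := eng) (mo := mog) (C1 := cd0q1) (C2 := cd3q3) (C3 := pd3)
    rfl k0_pm_133

noncomputable def cut_pm_202_a : Cut := Cut.of [[⟨0, 1, 0, 67108864⟩, ⟨1, 0, 0, 67108864⟩, ⟨2, 1, 0, 67108864⟩]]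

noncomputable def f_pm_202_a : ℕ → ℕ → ℕ → ℕ → Bool := onCell 0 536870912 0 536870912 649613803 48318383
    (rowB 3 eng mog cd0q2 cd3q2a pd0 0 false true false .pp 2 0 2 (qsf 0 536870912 0 536870912 0) ndB0q2 ndB3q2a pcB0 cut_pm_202_a Ext.none)

def k0_pm_202_a : ∃ t, chk3 f_pm_202_a t 1 1 1 = true :=
  ⟨(a (l 3) (b (l 3) (a (l 3) (b (l 3) (b (l 3) (a (l 3) (l 6))))))), by decide +kernel⟩

theorem c_pm_202_a : CertB 0 536870912 0 536870912 649613803 48318383 3 eng mog cd0q2 cd3q2a pd0 false true false .pp 2 0 2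
    ndB0q2 ndB3q2a pcB0 cut_pm_202_a Ext.none :=
  certB0 (fam := false) (s1 := true) (s2 := false) (a := 2) (b := 0) (c := 2) (cn := .pp) (n1 := ndB0q2) (n2 := ndB3q2a) (pc := pcB0) (cut := cut_pm_202_a) (xt := Ext.none) (P1 := 0) (W1 := 536870912) (P2 := 0) (W2 := 536870912) (P3 := 649613803) (W3 := 48318383) (N0 := 3) (En := eng) (mo := mog) (C1 := cd0q2) (C2 := cd3q2a) (C3 := pd0)
    rfl k0_pm_202_a

noncomputable def cut_pm_202_b : Cut := Cut.of [[⟨0, 1, 0, 67108864⟩, ⟨1, 0, 0, 67108864⟩, ⟨2, 1, 0, 67108864⟩]]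

noncomputable def f_pm_202_b : ℕ → ℕ → ℕ → ℕ → Bool := onCell 0 536870912 1239849684 370763052 649613803 48318383
    (rowB 3 eng mog cd0q2 cd3q2b pd0 0 false true false .pp 2 0 2 (qsf 0 536870912 1239849684 370763052 0) ndB0q2 ndB3q2b pcB0 cut_pm_202_b Ext.none)

def k0_pm_202_b : ∃ t, chk3 f_pm_202_b t 1 1 1 = true :=
  ⟨(l 3), by decide +kernel⟩

theorem c_pm_202_b : CertB 0 536870912 1239849684 370763052 649613803 48318383 3 eng mog cd0q2 cd3q2b pd0 false true false .pp 2 0 2
    ndB0q2 ndB3q2b pcB0 cut_pm_202_b Ext.none :=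
  certB0 (fam := false) (s1 := true) (s2 := false) (a := 2) (b := 0) (c := 2) (cn := .pp) (n1 := ndB0q2) (n2 := ndB3q2b) (pc := pcB0) (cut := cut_pm_202_b) (xt := Ext.none) (P1 := 0) (W1 := 536870912) (P2 := 1239849684) (W2 := 370763052) (P3 := 649613803) (W3 := 48318383) (N0 := 3) (En := eng) (mo := mog) (C1 := cd0q2) (C2 := cd3q2b) (C3 := pd0)
    rfl k0_pm_202_b

noncomputable def f_pm_203 : ℕ → ℕ → ℕ → ℕ → Bool := onCell 0 536870912 0 536870912 649613803 48318383
    (rowB 3 eng mog cd0q2 cd3q3 pd0 1 false true false .up 2 0 3 (qsf 0 536870912 1610612736 536870912 0) ndB0q2 ndB3q3 pcB0 Cut.none Ext.none)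

def k0_pm_203 : ∃ t, chk3 f_pm_203 t 1 1 1 = true :=
  ⟨(l 3), by decide +kernel⟩

theorem c_pm_203 : CertB 0 536870912 1610612736 536870912 649613803 48318383 3 eng mog cd0q2 cd3q3 pd0 false true false .up 2 0 3
    ndB0q2 ndB3q3 pcB0 Cut.none Ext.none :=
  certB1 (fam := false) (s1 := true) (s2 := false) (a := 2) (b := 0) (c := 3) (cn := .up) (n1 := ndB0q2) (n2 := ndB3q3) (pc := pcB0) (cut := Cut.none) (xt := Ext.none) (P1 := 0) (W1 := 536870912) (P2 := 1610612736) (W2 := 536870912) (P3 := 649613803) (W3 := 48318383) (N0 := 3) (En := eng) (mo := mog) (C1 := cd0q2) (C2 := cd3q3) (C3 := pd0)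
    rfl (fun _ => rfl) k0_pm_203

noncomputable def cut_pm_213 : Cut := Cut.of [[⟨0, 1, 0, 67108864⟩, ⟨1, 1, 0, 67108864⟩, ⟨2, 2, 0, 16777216⟩]]

noncomputable def f_pm_213 : ℕ → ℕ → ℕ → ℕ → Bool := onCell 0 536870912 1610612736 536870912 649613803 48318383
    (rowB 3 eng mog cd0q2 cd3q3 pd1 0 false true false .pnn 2 1 3 (qsf 0 536870912 1610612736 536870912 1) ndB0q2 ndB3q3 pcB1 cut_pm_213 Ext.none)

def k0_pm_213 : ∃ t, chk3 f_pm_213 t 1 1 1 = true :=
  ⟨(b (l 3) (a (l 3) (b (l 3) (a (l 3) (b (l 3) (b (l 3) (b (l 3) (b (l 3) (a (l 3) (l 6)))))))))), by decide +kernel⟩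

theorem c_pm_213 : CertB 0 536870912 1610612736 536870912 649613803 48318383 3 eng mog cd0q2 cd3q3 pd1 false true false .pnn 2 1 3
    ndB0q2 ndB3q3 pcB1 cut_pm_213 Ext.none :=
  certB0 (fam := false) (s1 := true) (s2 := false) (a := 2) (b := 1) (c := 3) (cn := .pnn) (n1 := ndB0q2) (n2 := ndB3q3) (pc := pcB1) (cut := cut_pm_213) (xt := Ext.none) (P1 := 0) (W1 := 536870912) (P2 := 1610612736) (W2 := 536870912) (P3 := 649613803) (W3 := 48318383) (N0 := 3) (En := eng) (mo := mog) (C1 := cd0q2) (C2 := cd3q3) (C3 := pd1)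
    rfl k0_pm_213

noncomputable def f_mm_001 : ℕ → ℕ → ℕ → ℕ → Bool := onCell 0 536870912 536870912 536870912 649613803 48318383
    (rowB 3 eng mog cd0q0 cd3q1 pd0 0 false false false .up 0 0 1 (qsf 0 536870912 536870912 536870912 0) ndB0q0 ndB3q1 pcB0 Cut.none Ext.none)

def k0_mm_001 : ∃ t, chk3 f_mm_001 t 1 1 1 = true :=
  ⟨(l 3), by decide +kernel⟩

theorem c_mm_001 : CertB 0 536870912 536870912 536870912 649613803 48318383 3 eng mog cd0q0 cd3q1 pd0 false false false .up 0 0 1
    ndB0q0 ndB3q1 pcB0 Cut.none Ext.none :=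
  certB0 (fam := false) (s1 := false) (s2 := false) (a := 0) (b := 0) (c := 1) (cn := .up) (n1 := ndB0q0) (n2 := ndB3q1) (pc := pcB0) (cut := Cut.none) (xt := Ext.none) (P1 := 0) (W1 := 536870912) (P2 := 536870912) (W2 := 536870912) (P3 := 649613803) (W3 := 48318383) (N0 := 3) (En := eng) (mo := mog) (C1 := cd0q0) (C2 := cd3q1) (C3 := pd0)
    rfl k0_mm_001

noncomputable def f_mm_011 : ℕ → ℕ → ℕ → ℕ → Bool := onCell 0 536870912 536870912 536870912 649613803 48318383
    (rowB 3 eng mog cd0q0 cd3q1 pd1 0 false false false .pnn 0 1 1 (qsf 0 536870912 536870912 536870912 1) ndB0q0 ndB3q1 pcB1 Cut.none Ext.none)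

def k0_mm_011 : ∃ t, chk3 f_mm_011 t 1 1 1 = true :=
  ⟨(l 3), by decide +kernel⟩

theorem c_mm_011 : CertB 0 536870912 536870912 536870912 649613803 48318383 3 eng mog cd0q0 cd3q1 pd1 false false false .pnn 0 1 1
    ndB0q0 ndB3q1 pcB1 Cut.none Ext.none :=
  certB0 (fam := false) (s1 := false) (s2 := false) (a := 0) (b := 1) (c := 1) (cn := .pnn) (n1 := ndB0q0) (n2 := ndB3q1) (pc := pcB1) (cut := Cut.none) (xt := Ext.none) (P1 := 0) (W1 := 536870912) (P2 := 536870912) (W2 := 536870912) (P3 := 649613803) (W3 := 48318383) (N0 := 3) (En := eng) (mo := mog) (C1 := cd0q0) (C2 := cd3q1) (C3 := pd1)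
    rfl k0_mm_011

noncomputable def f_mm_012_a : ℕ → ℕ → ℕ → ℕ → Bool := onCell 0 536870912 0 536870912 649613803 48318383
    (rowB 3 eng mog cd0q0 cd3q2a pd1 0 false false false .pnp 0 1 2 (qsf 0 536870912 0 536870912 1) ndB0q0 ndB3q2a pcB1 Cut.none Ext.none)

def k0_mm_012_a : ∃ t, chk3 f_mm_012_a t 1 1 1 = true :=
  ⟨(l 5), by decide +kernel⟩

theorem c_mm_012_a : CertB 0 536870912 0 536870912 649613803 48318383 3 eng mog cd0q0 cd3q2a pd1 false false false .pnp 0 1 2
    ndB0q0 ndB3q2a pcB1 Cut.none Ext.none :=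
  certB0 (fam := false) (s1 := false) (s2 := false) (a := 0) (b := 1) (c := 2) (cn := .pnp) (n1 := ndB0q0) (n2 := ndB3q2a) (pc := pcB1) (cut := Cut.none) (xt := Ext.none) (P1 := 0) (W1 := 536870912) (P2 := 0) (W2 := 536870912) (P3 := 649613803) (W3 := 48318383) (N0 := 3) (En := eng) (mo := mog) (C1 := cd0q0) (C2 := cd3q2a) (C3 := pd1)
    rfl k0_mm_012_a

noncomputable def f_mm_012_b : ℕ → ℕ → ℕ → ℕ → Bool := onCell 0 536870912 1239849684 370763052 649613803 48318383
    (rowB 3 eng mog cd0q0 cd3q2b pd1 0 false false false .pnp 0 1 2 (qsf 0 536870912 1239849684 370763052 1) ndB0q0 ndB3q2b pcB1 Cut.none Ext.none)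

def k0_mm_012_b : ∃ t, chk3 f_mm_012_b t 1 1 1 = true :=
  ⟨(l 5), by decide +kernel⟩

theorem c_mm_012_b : CertB 0 536870912 1239849684 370763052 649613803 48318383 3 eng mog cd0q0 cd3q2b pd1 false false false .pnp 0 1 2
    ndB0q0 ndB3q2b pcB1 Cut.none Ext.none :=
  certB0 (fam := false) (s1 := false) (s2 := false) (a := 0) (b := 1) (c := 2) (cn := .pnp) (n1 := ndB0q0) (n2 := ndB3q2b) (pc := pcB1) (cut := Cut.none) (xt := Ext.none) (P1 := 0) (W1 := 536870912) (P2 := 1239849684) (W2 := 370763052) (P3 := 649613803) (W3 := 48318383) (N0 := 3) (En := eng) (mo := mog) (C1 := cd0q0) (C2 := cd3q2b) (C3 := pd1)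
    rfl k0_mm_012_b

noncomputable def f_mm_022_a : ℕ → ℕ → ℕ → ℕ → Bool := onCell 0 536870912 0 536870912 649613803 48318383
    (rowB 3 eng mog cd0q0 cd3q2a pd2 0 false false false .pp 0 2 2 (qsf 0 536870912 0 536870912 2) ndB0q0 ndB3q2a pcB2 Cut.none Ext.none)

def k0_mm_022_a : ∃ t, chk3 f_mm_022_a t 1 1 1 = true :=
  ⟨(l 5), by decide +kernel⟩

theorem c_mm_022_a : CertB 0 536870912 0 536870912 649613803 48318383 3 eng mog cd0q0 cd3q2a pd2 false false false .pp 0 2 2
    ndB0q0 ndB3q2a pcB2 Cut.none Ext.none :=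
  certB0 (fam := false) (s1 := false) (s2 := false) (a := 0) (b := 2) (c := 2) (cn := .pp) (n1 := ndB0q0) (n2 := ndB3q2a) (pc := pcB2) (cut := Cut.none) (xt := Ext.none) (P1 := 0) (W1 := 536870912) (P2 := 0) (W2 := 536870912) (P3 := 649613803) (W3 := 48318383) (N0 := 3) (En := eng) (mo := mog) (C1 := cd0q0) (C2 := cd3q2a) (C3 := pd2)
    rfl k0_mm_022_a

noncomputable def f_mm_022_b : ℕ → ℕ → ℕ → ℕ → Bool := onCell 0 536870912 1239849684 370763052 649613803 48318383
    (rowB 3 eng mog cd0q0 cd3q2b pd2 0 false false false .pp 0 2 2 (qsf 0 536870912 1239849684 370763052 2) ndB0q0 ndB3q2b pcB2 Cut.none Ext.none)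

def k0_mm_022_b : ∃ t, chk3 f_mm_022_b t 1 1 1 = true :=
  ⟨(l 5), by decide +kernel⟩

theorem c_mm_022_b : CertB 0 536870912 1239849684 370763052 649613803 48318383 3 eng mog cd0q0 cd3q2b pd2 false false false .pp 0 2 2
    ndB0q0 ndB3q2b pcB2 Cut.none Ext.none :=
  certB0 (fam := false) (s1 := false) (s2 := false) (a := 0) (b := 2) (c := 2) (cn := .pp) (n1 := ndB0q0) (n2 := ndB3q2b) (pc := pcB2) (cut := Cut.none) (xt := Ext.none) (P1 := 0) (W1 := 536870912) (P2 := 1239849684) (W2 := 370763052) (P3 := 649613803) (W3 := 48318383) (N0 := 3) (En := eng) (mo := mog) (C1 := cd0q0) (C2 := cd3q2b) (C3 := pd2)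
    rfl k0_mm_022_b

noncomputable def f_mm_023 : ℕ → ℕ → ℕ → ℕ → Bool := onCell 0 536870912 1610612736 536870912 649613803 48318383
    (rowB 3 eng mog cd0q0 cd3q3 pd2 0 false false false .up 0 2 3 (qsf 0 536870912 1610612736 536870912 2) ndB0q0 ndB3q3 pcB2 Cut.none Ext.none)

def k0_mm_023 : ∃ t, chk3 f_mm_023 t 1 1 1 = true :=
  ⟨(l 5), by decide +kernel⟩

theorem c_mm_023 : CertB 0 536870912 1610612736 536870912 649613803 48318383 3 eng mog cd0q0 cd3q3 pd2 false false false .up 0 2 3
    ndB0q0 ndB3q3 pcB2 Cut.none Ext.none :=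
  certB0 (fam := false) (s1 := false) (s2 := false) (a := 0) (b := 2) (c := 3) (cn := .up) (n1 := ndB0q0) (n2 := ndB3q3) (pc := pcB2) (cut := Cut.none) (xt := Ext.none) (P1 := 0) (W1 := 536870912) (P2 := 1610612736) (W2 := 536870912) (P3 := 649613803) (W3 := 48318383) (N0 := 3) (En := eng) (mo := mog) (C1 := cd0q0) (C2 := cd3q3) (C3 := pd2)
    rfl k0_mm_023

noncomputable def f_mm_033 : ℕ → ℕ → ℕ → ℕ → Bool := onCell 0 536870912 1610612736 536870912 649613803 48318383
    (rowB 3 eng mog cd0q0 cd3q3 pd3 0 false false false .pnn 0 3 3 (qsf 0 536870912 1610612736 536870912 3) ndB0q0 ndB3q3 pcB3 Cut.none Ext.none)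

def k0_mm_033 : ∃ t, chk3 f_mm_033 t 1 1 1 = true :=
  ⟨(l 5), by decide +kernel⟩

theorem c_mm_033 : CertB 0 536870912 1610612736 536870912 649613803 48318383 3 eng mog cd0q0 cd3q3 pd3 false false false .pnn 0 3 3
    ndB0q0 ndB3q3 pcB3 Cut.none Ext.none :=
  certB0 (fam := false) (s1 := false) (s2 := false) (a := 0) (b := 3) (c := 3) (cn := .pnn) (n1 := ndB0q0) (n2 := ndB3q3) (pc := pcB3) (cut := Cut.none) (xt := Ext.none) (P1 := 0) (W1 := 536870912) (P2 := 1610612736) (W2 := 536870912) (P3 := 649613803) (W3 := 48318383) (N0 := 3) (En := eng) (mo := mog) (C1 := cd0q0) (C2 := cd3q3) (C3 := pd3)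
    rfl k0_mm_033

noncomputable def f_mm_101 : ℕ → ℕ → ℕ → ℕ → Bool := onCell 536870912 536870912 536870912 536870912 649613803 48318383
    (rowB 3 eng mog cd0q1 cd3q1 pd0 0 false false false .npn 1 0 1 (qsf 536870912 536870912 536870912 536870912 0) ndB0q1 ndB3q1 pcB0 Cut.none Ext.none)

def k0_mm_101 : ∃ t, chk3 f_mm_101 t 1 1 1 = true :=
  ⟨(l 3), by decide +kernel⟩

theorem c_mm_101 : CertB 536870912 536870912 536870912 536870912 649613803 48318383 3 eng mog cd0q1 cd3q1 pd0 false false false .npn 1 0 1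
    ndB0q1 ndB3q1 pcB0 Cut.none Ext.none :=
  certB0 (fam := false) (s1 := false) (s2 := false) (a := 1) (b := 0) (c := 1) (cn := .npn) (n1 := ndB0q1) (n2 := ndB3q1) (pc := pcB0) (cut := Cut.none) (xt := Ext.none) (P1 := 536870912) (W1 := 536870912) (P2 := 536870912) (W2 := 536870912) (P3 := 649613803) (W3 := 48318383) (N0 := 3) (En := eng) (mo := mog) (C1 := cd0q1) (C2 := cd3q1) (C3 := pd0)
    rfl k0_mm_101

noncomputable def f_mm_102_a : ℕ → ℕ → ℕ → ℕ → Bool := onCell 536870912 536870912 0 536870912 649613803 48318383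
    (rowB 3 eng mog cd0q1 cd3q2a pd0 0 false false false .npp 1 0 2 (qsf 536870912 536870912 0 536870912 0) ndB0q1 ndB3q2a pcB0 Cut.none Ext.none)

def k0_mm_102_a : ∃ t, chk3 f_mm_102_a t 1 1 1 = true :=
  ⟨(l 3), by decide +kernel⟩

theorem c_mm_102_a : CertB 536870912 536870912 0 536870912 649613803 48318383 3 eng mog cd0q1 cd3q2a pd0 false false false .npp 1 0 2
    ndB0q1 ndB3q2a pcB0 Cut.none Ext.none :=
  certB0 (fam := false) (s1 := false) (s2 := false) (a := 1) (b := 0) (c := 2) (cn := .npp) (n1 := ndB0q1) (n2 := ndB3q2a) (pc := pcB0) (cut := Cut.none) (xt := Ext.none) (P1 := 536870912) (W1 := 536870912) (P2 := 0) (W2 := 536870912) (P3 := 649613803) (W3 := 48318383) (N0 := 3) (En := eng) (mo := mog) (C1 := cd0q1) (C2 := cd3q2a) (C3 := pd0)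
    rfl k0_mm_102_a

noncomputable def f_mm_102_b : ℕ → ℕ → ℕ → ℕ → Bool := onCell 536870912 536870912 1239849684 370763052 649613803 48318383
    (rowB 3 eng mog cd0q1 cd3q2b pd0 0 false false false .npp 1 0 2 (qsf 536870912 536870912 1239849684 370763052 0) ndB0q1 ndB3q2b pcB0 Cut.none Ext.none)

def k0_mm_102_b : ∃ t, chk3 f_mm_102_b t 1 1 1 = true :=
  ⟨(l 5), by decide +kernel⟩

theorem c_mm_102_b : CertB 536870912 536870912 1239849684 370763052 649613803 48318383 3 eng mog cd0q1 cd3q2b pd0 false false false .npp 1 0 2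
    ndB0q1 ndB3q2b pcB0 Cut.none Ext.none :=
  certB0 (fam := false) (s1 := false) (s2 := false) (a := 1) (b := 0) (c := 2) (cn := .npp) (n1 := ndB0q1) (n2 := ndB3q2b) (pc := pcB0) (cut := Cut.none) (xt := Ext.none) (P1 := 536870912) (W1 := 536870912) (P2 := 1239849684) (W2 := 370763052) (P3 := 649613803) (W3 := 48318383) (N0 := 3) (En := eng) (mo := mog) (C1 := cd0q1) (C2 := cd3q2b) (C3 := pd0)
    rfl k0_mm_102_b

noncomputable def f_mm_112_a : ℕ → ℕ → ℕ → ℕ → Bool := onCell 536870912 536870912 0 536870912 649613803 48318383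
    (rowB 3 eng mog cd0q1 cd3q2a pd1 0 false false false .dn 1 1 2 (qsf 536870912 536870912 0 536870912 1) ndB0q1 ndB3q2a pcB1 Cut.none Ext.none)

def k0_mm_112_a : ∃ t, chk3 f_mm_112_a t 1 1 1 = true :=
  ⟨(l 3), by decide +kernel⟩

theorem c_mm_112_a : CertB 536870912 536870912 0 536870912 649613803 48318383 3 eng mog cd0q1 cd3q2a pd1 false false false .dn 1 1 2
    ndB0q1 ndB3q2a pcB1 Cut.none Ext.none :=
  certB0 (fam := false) (s1 := false) (s2 := false) (a := 1) (b := 1) (c := 2) (cn := .dn) (n1 := ndB0q1) (n2 := ndB3q2a) (pc := pcB1) (cut := Cut.none) (xt := Ext.none) (P1 := 536870912) (W1 := 536870912) (P2 := 0) (W2 := 536870912) (P3 := 649613803) (W3 := 48318383) (N0 := 3) (En := eng) (mo := mog) (C1 := cd0q1) (C2 := cd3q2a) (C3 := pd1)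
    rfl k0_mm_112_a

noncomputable def f_mm_112_b : ℕ → ℕ → ℕ → ℕ → Bool := onCell 536870912 536870912 1239849684 370763052 649613803 48318383
    (rowB 3 eng mog cd0q1 cd3q2b pd1 0 false false false .dn 1 1 2 (qsf 536870912 536870912 1239849684 370763052 1) ndB0q1 ndB3q2b pcB1 Cut.none Ext.none)

def k0_mm_112_b : ∃ t, chk3 f_mm_112_b t 1 1 1 = true :=
  ⟨(l 5), by decide +kernel⟩

theorem c_mm_112_b : CertB 536870912 536870912 1239849684 370763052 649613803 48318383 3 eng mog cd0q1 cd3q2b pd1 false false false .dn 1 1 2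
    ndB0q1 ndB3q2b pcB1 Cut.none Ext.none :=
  certB0 (fam := false) (s1 := false) (s2 := false) (a := 1) (b := 1) (c := 2) (cn := .dn) (n1 := ndB0q1) (n2 := ndB3q2b) (pc := pcB1) (cut := Cut.none) (xt := Ext.none) (P1 := 536870912) (W1 := 536870912) (P2 := 1239849684) (W2 := 370763052) (P3 := 649613803) (W3 := 48318383) (N0 := 3) (En := eng) (mo := mog) (C1 := cd0q1) (C2 := cd3q2b) (C3 := pd1)
    rfl k0_mm_112_b

noncomputable def f_mm_113 : ℕ → ℕ → ℕ → ℕ → Bool := onCell 536870912 536870912 1610612736 536870912 649613803 48318383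
    (rowB 3 eng mog cd0q1 cd3q3 pd1 0 false false false .nn 1 1 3 (qsf 536870912 536870912 1610612736 536870912 1) ndB0q1 ndB3q3 pcB1 Cut.none Ext.none)

def k0_mm_113 : ∃ t, chk3 f_mm_113 t 1 1 1 = true :=
  ⟨(l 5), by decide +kernel⟩

theorem c_mm_113 : CertB 536870912 536870912 1610612736 536870912 649613803 48318383 3 eng mog cd0q1 cd3q3 pd1 false false false .nn 1 1 3
    ndB0q1 ndB3q3 pcB1 Cut.none Ext.none :=
  certB0 (fam := false) (s1 := false) (s2 := false) (a := 1) (b := 1) (c := 3) (cn := .nn) (n1 := ndB0q1) (n2 := ndB3q3) (pc := pcB1) (cut := Cut.none) (xt := Ext.none) (P1 := 536870912) (W1 := 536870912) (P2 := 1610612736) (W2 := 536870912) (P3 := 649613803) (W3 := 48318383) (N0 := 3) (En := eng) (mo := mog) (C1 := cd0q1) (C2 := cd3q3) (C3 := pd1)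
    rfl k0_mm_113

noncomputable def f_mm_123 : ℕ → ℕ → ℕ → ℕ → Bool := onCell 536870912 536870912 1610612736 536870912 649613803 48318383
    (rowB 3 eng mog cd0q1 cd3q3 pd2 0 false false false .npn 1 2 3 (qsf 536870912 536870912 1610612736 536870912 2) ndB0q1 ndB3q3 pcB2 Cut.none Ext.none)

def k0_mm_123 : ∃ t, chk3 f_mm_123 t 1 1 1 = true :=
  ⟨(l 5), by decide +kernel⟩

theorem c_mm_123 : CertB 536870912 536870912 1610612736 536870912 649613803 48318383 3 eng mog cd0q1 cd3q3 pd2 false false false .npn 1 2 3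
    ndB0q1 ndB3q3 pcB2 Cut.none Ext.none :=
  certB0 (fam := false) (s1 := false) (s2 := false) (a := 1) (b := 2) (c := 3) (cn := .npn) (n1 := ndB0q1) (n2 := ndB3q3) (pc := pcB2) (cut := Cut.none) (xt := Ext.none) (P1 := 536870912) (W1 := 536870912) (P2 := 1610612736) (W2 := 536870912) (P3 := 649613803) (W3 := 48318383) (N0 := 3) (En := eng) (mo := mog) (C1 := cd0q1) (C2 := cd3q3) (C3 := pd2)
    rfl k0_mm_123

noncomputable def f_mm_133 : ℕ → ℕ → ℕ → ℕ → Bool := onCell 536870912 536870912 1610612736 536870912 649613803 48318383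
    (rowB 3 eng mog cd0q1 cd3q3 pd3 0 false false false .dn 1 3 3 (qsf 536870912 536870912 1610612736 536870912 3) ndB0q1 ndB3q3 pcB3 Cut.none Ext.none)

def k0_mm_133 : ∃ t, chk3 f_mm_133 t 1 1 1 = true :=
  ⟨(l 5), by decide +kernel⟩

theorem c_mm_133 : CertB 536870912 536870912 1610612736 536870912 649613803 48318383 3 eng mog cd0q1 cd3q3 pd3 false false false .dn 1 3 3
    ndB0q1 ndB3q3 pcB3 Cut.none Ext.none :=
  certB0 (fam := false) (s1 := false) (s2 := false) (a := 1) (b := 3) (c := 3) (cn := .dn) (n1 := ndB0q1) (n2 := ndB3q3) (pc := pcB3) (cut := Cut.none) (xt := Ext.none) (P1 := 536870912) (W1 := 536870912) (P2 := 1610612736) (W2 := 536870912) (P3 := 649613803) (W3 := 48318383) (N0 := 3) (En := eng) (mo := mog) (C1 := cd0q1) (C2 := cd3q3) (C3 := pd3)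
    rfl k0_mm_133

noncomputable def f_mm_202_a : ℕ → ℕ → ℕ → ℕ → Bool := onCell 0 536870912 0 536870912 649613803 48318383
    (rowB 3 eng mog cd0q2 cd3q2a pd0 0 false false false .pp 2 0 2 (qsf 0 536870912 0 536870912 0) ndB0q2 ndB3q2a pcB0 Cut.none Ext.none)

def k0_mm_202_a : ∃ t, chk3 f_mm_202_a t 1 1 1 = true :=
  ⟨(l 3), by decide +kernel⟩

theorem c_mm_202_a : CertB 0 536870912 0 536870912 649613803 48318383 3 eng mog cd0q2 cd3q2a pd0 false false false .pp 2 0 2
    ndB0q2 ndB3q2a pcB0 Cut.none Ext.none :=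
  certB0 (fam := false) (s1 := false) (s2 := false) (a := 2) (b := 0) (c := 2) (cn := .pp) (n1 := ndB0q2) (n2 := ndB3q2a) (pc := pcB0) (cut := Cut.none) (xt := Ext.none) (P1 := 0) (W1 := 536870912) (P2 := 0) (W2 := 536870912) (P3 := 649613803) (W3 := 48318383) (N0 := 3) (En := eng) (mo := mog) (C1 := cd0q2) (C2 := cd3q2a) (C3 := pd0)
    rfl k0_mm_202_a

noncomputable def f_mm_202_b : ℕ → ℕ → ℕ → ℕ → Bool := onCell 0 536870912 1239849684 370763052 649613803 48318383
    (rowB 3 eng mog cd0q2 cd3q2b pd0 0 false false false .pp 2 0 2 (qsf 0 536870912 1239849684 370763052 0) ndB0q2 ndB3q2b pcB0 Cut.none Ext.none)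

def k0_mm_202_b : ∃ t, chk3 f_mm_202_b t 1 1 1 = true :=
  ⟨(l 3), by decide +kernel⟩

theorem c_mm_202_b : CertB 0 536870912 1239849684 370763052 649613803 48318383 3 eng mog cd0q2 cd3q2b pd0 false false false .pp 2 0 2
    ndB0q2 ndB3q2b pcB0 Cut.none Ext.none :=
  certB0 (fam := false) (s1 := false) (s2 := false) (a := 2) (b := 0) (c := 2) (cn := .pp) (n1 := ndB0q2) (n2 := ndB3q2b) (pc := pcB0) (cut := Cut.none) (xt := Ext.none) (P1 := 0) (W1 := 536870912) (P2 := 1239849684) (W2 := 370763052) (P3 := 649613803) (W3 := 48318383) (N0 := 3) (En := eng) (mo := mog) (C1 := cd0q2) (C2 := cd3q2b) (C3 := pd0)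
    rfl k0_mm_202_b

noncomputable def f_mm_203 : ℕ → ℕ → ℕ → ℕ → Bool := onCell 0 536870912 0 536870912 649613803 48318383
    (rowB 3 eng mog cd0q2 cd3q3 pd0 1 false false false .up 2 0 3 (qsf 0 536870912 1610612736 536870912 0) ndB0q2 ndB3q3 pcB0 Cut.none Ext.none)

def k0_mm_203 : ∃ t, chk3 f_mm_203 t 1 1 1 = true :=
  ⟨(l 3), by decide +kernel⟩

theorem c_mm_203 : CertB 0 536870912 1610612736 536870912 649613803 48318383 3 eng mog cd0q2 cd3q3 pd0 false false false .up 2 0 3
    ndB0q2 ndB3q3 pcB0 Cut.none Ext.none :=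
  certB1 (fam := false) (s1 := false) (s2 := false) (a := 2) (b := 0) (c := 3) (cn := .up) (n1 := ndB0q2) (n2 := ndB3q3) (pc := pcB0) (cut := Cut.none) (xt := Ext.none) (P1 := 0) (W1 := 536870912) (P2 := 1610612736) (W2 := 536870912) (P3 := 649613803) (W3 := 48318383) (N0 := 3) (En := eng) (mo := mog) (C1 := cd0q2) (C2 := cd3q3) (C3 := pd0)
    rfl (fun _ => rfl) k0_mm_203

noncomputable def f_mm_213 : ℕ → ℕ → ℕ → ℕ → Bool := onCell 0 536870912 1610612736 536870912 649613803 48318383
    (rowB 3 eng mog cd0q2 cd3q3 pd1 0 false false false .pnn 2 1 3 (qsf 0 536870912 1610612736 536870912 1) ndB0q2 ndB3q3 pcB1 Cut.none Ext.none)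

def k0_mm_213 : ∃ t, chk3 f_mm_213 t 1 1 1 = true :=
  ⟨(a (l 3) (l 5)), by decide +kernel⟩

theorem c_mm_213 : CertB 0 536870912 1610612736 536870912 649613803 48318383 3 eng mog cd0q2 cd3q3 pd1 false false false .pnn 2 1 3
    ndB0q2 ndB3q3 pcB1 Cut.none Ext.none :=
  certB0 (fam := false) (s1 := false) (s2 := false) (a := 2) (b := 1) (c := 3) (cn := .pnn) (n1 := ndB0q2) (n2 := ndB3q3) (pc := pcB1) (cut := Cut.none) (xt := Ext.none) (P1 := 0) (W1 := 536870912) (P2 := 1610612736) (W2 := 536870912) (P3 := 649613803) (W3 := 48318383) (N0 := 3) (En := eng) (mo := mog) (C1 := cd0q2) (C2 := cd3q3) (C3 := pd1)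
    rfl k0_mm_213

end Pool.Agent.Strip051.G.I6050_6500.Tab.C.BB03

namespace Pool.Agent.Strip051.G.I6050_6500.Tab.C.BB04

open Pool.Agent.Strip051.PB Pool.Agent.Strip051.PB.T
open Pool.Agent.Strip051.G.I6050_6500.Tab

noncomputable def f_pp_001 : ℕ → ℕ → ℕ → ℕ → Bool := onCell 0 536870912 536870912 536870912 649613803 48318383
    (rowB 3 eng mog cd0q0 cd4q1 pd0 0 false true true .up 0 0 1 (qsf 0 536870912 536870912 536870912 0) ndB0q0 ndB4q1 pcB0 Cut.none Ext.none)

def k0_pp_001 : ∃ t, chk3 f_pp_001 t 1 1 1 = true :=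
  ⟨(l 3), by decide +kernel⟩

theorem c_pp_001 : CertB 0 536870912 536870912 536870912 649613803 48318383 3 eng mog cd0q0 cd4q1 pd0 false true true .up 0 0 1
    ndB0q0 ndB4q1 pcB0 Cut.none Ext.none :=
  certB0 (fam := false) (s1 := true) (s2 := true) (a := 0) (b := 0) (c := 1) (cn := .up) (n1 := ndB0q0) (n2 := ndB4q1) (pc := pcB0) (cut := Cut.none) (xt := Ext.none) (P1 := 0) (W1 := 536870912) (P2 := 536870912) (W2 := 536870912) (P3 := 649613803) (W3 := 48318383) (N0 := 3) (En := eng) (mo := mog) (C1 := cd0q0) (C2 := cd4q1) (C3 := pd0)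
    rfl k0_pp_001

noncomputable def f_pp_011 : ℕ → ℕ → ℕ → ℕ → Bool := onCell 0 536870912 536870912 536870912 649613803 48318383
    (rowB 3 eng mog cd0q0 cd4q1 pd1 0 false true true .pnn 0 1 1 (qsf 0 536870912 536870912 536870912 1) ndB0q0 ndB4q1 pcB1 Cut.none Ext.none)

def k0_pp_011 : ∃ t, chk3 f_pp_011 t 1 1 1 = true :=
  ⟨(l 3), by decide +kernel⟩

theorem c_pp_011 : CertB 0 536870912 536870912 536870912 649613803 48318383 3 eng mog cd0q0 cd4q1 pd1 false true true .pnn 0 1 1
    ndB0q0 ndB4q1 pcB1 Cut.none Ext.none :=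
  certB0 (fam := false) (s1 := true) (s2 := true) (a := 0) (b := 1) (c := 1) (cn := .pnn) (n1 := ndB0q0) (n2 := ndB4q1) (pc := pcB1) (cut := Cut.none) (xt := Ext.none) (P1 := 0) (W1 := 536870912) (P2 := 536870912) (W2 := 536870912) (P3 := 649613803) (W3 := 48318383) (N0 := 3) (En := eng) (mo := mog) (C1 := cd0q0) (C2 := cd4q1) (C3 := pd1)
    rfl k0_pp_011

noncomputable def cut_pp_012_a : Cut := Cut.of [[⟨0, 0, 0, 67108864⟩, ⟨1, 1, 0, 67108864⟩, ⟨2, 1, 0, 67108864⟩]]

noncomputable def f_pp_012_a : ℕ → ℕ → ℕ → ℕ → Bool := onCell 536870912 536870912 0 536870912 649613803 48318383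
    (rowB 3 eng mog cd0q0 cd4q2a pd1 2 false true true .pnp 0 1 2 (qsf 0 536870912 0 536870912 1) ndB0q0 ndB4q2a pcB1 cut_pp_012_a Ext.none)

def k0_pp_012_a : ∃ t, chk3 f_pp_012_a t 2 1 1 = true :=
  ⟨(l 3), by decide +kernel⟩

def k1_pp_012_a : ∃ t, chk3 f_pp_012_a t 6 1 1 = true :=
  ⟨(l 3), by decide +kernel⟩

def k2_pp_012_a : ∃ t, chk3 f_pp_012_a t 14 1 1 = true :=
  ⟨(l 3), by decide +kernel⟩

def k3_pp_012_a : ∃ t, chk3 f_pp_012_a t 15 2 1 = true :=
  ⟨(a (b (a (a (l 3) (b (b (c (l 16648600) (l 155860063399)) (l 3)) (l 3))) (b (b (a (c (l 16641048) (c (l 16640472) (l 16618512))) (l 16634128)) (a (c (l 16638424) (l 16641768)) (c (l 16636408) (l 16634720)))) (b (a (l 38285347799) (a (l 16640536) (l 16615976))) (a (l 85530017735) (l 16648304))))) (a (l 3) (b (a (l 3) (b (l 71571357335) (l 69960784423))) (l 3)))) (b (b (b (a (b (l 16647384) (l 16644144)) (c (l 16605656) (l 16606304))) (a (c (l 16625824) (l 16624712)) (l 16610184))) (b (a (a (l 16631648) (l 16624688)) (l 16614416)) (a (a (l 16635632)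 (l 16628408)) (l 16617704)))) (a (b (a (b (l 16640912) (l 16647504)) (b (l 16633464) (l 16639832))) (a (b (c (l 16678112) (l 16653848)) (c (l 54928417831) (l 16684464))) (b (l 16647520) (b (l 16654096) (l 16658944))))) (b (b (l 16611872) (a (l 16632200) (l 16624592))) (a (b (l 16639688) (l 16648552)) (b (l 16631856) (l 16640528))))))), by decide +kernel⟩

def k4_pp_012_a : ∃ t, chk3 f_pp_012_a t 15 3 1 = true :=
  ⟨(a (l 3) (a (b (b (b (a (b (l 16673184) (l 3)) (b (l 16664160) (l 16669816))) (a (l 3) (b (l 22716172039) (a (l 16684696) (l 16679984))))) (a (l 3) (a (l 3) (b (b (l 16686880) (l 16694264)) (l 3))))) (l 3)) (b (b (b (a (l 16679816) (l 16650648)) (a (b (l 16667440) (l 16673720)) (l 16683280))) (b (a (a (b (l 16682528) (l 16689656)) (l 16702912)) (b (l 16672048) (l 16679104))) (a (b (a (l 16707752) (l 16692952)) (a (l 16715952) (l 16700952))) (b (l 16686576) (a (l 16696688) (l 16692392)))))) (b (a (b (b (a (c (l 16720056) (l 16713664)) (c (l 16720528) (l 16708832))) (a (l 3) (b (l 16723896)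 (c (l 17347544935) (l 16720280))))) (b (a (l 3) (a (l 3) (b (l 16724192) (l 6)))) (l 3))) (b (a (b (l 16705088) (c (l 16724920) (l 16713488))) (b (l 16700776) (l 16720056))) (a (b (b (l 16720848) (l 6)) (l 6)) (l 6)))) (l 6))))), by decide +kernel⟩

theorem s5_pp_012_a : ∃ t, chk3 f_pp_012_a t 15 1 1 = true := ex3_b k3_pp_012_a k4_pp_012_a

theorem s6_pp_012_a : ∃ t, chk3 f_pp_012_a t 7 1 1 = true := ex3_a k2_pp_012_a s5_pp_012_a

theorem s7_pp_012_a : ∃ t, chk3 f_pp_012_a t 3 1 1 = true := ex3_a k1_pp_012_a s6_pp_012_a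

theorem s8_pp_012_a : ∃ t, chk3 f_pp_012_a t 1 1 1 = true := ex3_a k0_pp_012_a s7_pp_012_a

theorem c_pp_012_a : CertB 0 536870912 0 536870912 649613803 48318383 3 eng mog cd0q0 cd4q2a pd1 false true true .pnp 0 1 2
    ndB0q0 ndB4q2a pcB1 cut_pp_012_a Ext.none :=
  certB2 (fam := false) (s1 := true) (s2 := true) (a := 0) (b := 1) (c := 2) (cn := .pnp) (n1 := ndB0q0) (n2 := ndB4q2a) (pc := pcB1) (cut := cut_pp_012_a) (xt := Ext.none) (P1 := 0) (W1 := 536870912) (P2 := 0) (W2 := 536870912) (P3 := 649613803) (W3 := 48318383) (N0 := 3) (En := eng) (mo := mog) (C1 := cd0q0) (C2 := cd4q2a) (C3 := pd1)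
    rfl (fun _ => rfl) s8_pp_012_a

noncomputable def cut_pp_012_b : Cut := Cut.of [[⟨0, 0, 0, 67108864⟩, ⟨1, 1, 0, 67108864⟩, ⟨2, 1, 0, 67108864⟩]]

noncomputable def xt_pp_012_b : Ext := extD2 3 ⟨7, 3, 3, 10, 377, 200, 77, 100, 17, 50, 3, 16⟩ eng cd0q0 cd4q2b pd1 false true true .pnp 0 1 2 rfl ndB0q0 ndB4q2b pcB1

noncomputable def f_pp_012_b : ℕ → ℕ → ℕ → ℕ → Bool := onCell 0 536870912 536870912 536870912 649613803 48318383
    (rowB 3 eng mog cd0q0 cd4q2b pd1 1 false true true .pnp 0 1 2 (qsf 0 536870912 1239849684 370763052 1) ndB0q0 ndB4q2b pcB1 cut_pp_012_b xt_pp_012_b)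

def k0_pp_012_b : ∃ t, chk3 f_pp_012_b t 1 2 1 = true :=
  ⟨(l 3), by decide +kernel⟩

def k1_pp_012_b : ∃ t, chk3 f_pp_012_b t 1 6 1 = true :=
  ⟨(l 3), by decide +kernel⟩

def k2_pp_012_b : ∃ t, chk3 f_pp_012_b t 2 7 1 = true :=
  ⟨(a (l 1) (b (l 3) (b (a (a (l 1) (b (l 1) (a (l 1) (b (l 1) (c (l 81100796359) (l 16665360)))))) (b (b (l 3) (b (l 3) (a (a (a (l 1) (l 42446099687)) (c (l 16636528) (a (l 16640400) (l 16630920)))) (a (c (l 16618560) (l 16616920)) (l 16600336))))) (b (a (a (c (c (l 58552220343) (l 16663376)) (l 16663576)) (a (l 16649840) (l 16636560))) (a (c (l 16606344) (l 16604616)) (l 16588008))) (a (a (c (l 16646696) (l 16626568)) (l 16608184)) (a (l 16605504) (l 16572064)))))) (a (a (b (l 1) (b (l 1) (a (l 1) (l 96669996519)))) (b (b (a (l 1) (a (l 40835479831) (l 16643536))) (a (c (l 16647416) (l 16627552)) (l 30634894343))) (a (b (l 69289582919) (l 75731993223)) (b (l 16593960) (l 16577744))))) (a (b (a (c (l 16617240) (l 16602768)) (l 16605392)) (a (l 16590640) (l 16553176)))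 (b (a (l 16586984) (b (l 16556224) (l 16540496))) (l 16575608))))))), by decide +kernel⟩

def k3_pp_012_b : ∃ t, chk3 f_pp_012_b t 3 14 1 = true :=
  ⟨(l 3), by decide +kernel⟩

def k4_pp_012_b : ∃ t, chk3 f_pp_012_b t 6 15 1 = true :=
  ⟨(a (b (a (b (a (b (l 3) (l 236927477543)) (l 3)) (b (a (l 16571160) (l 74792391687)) (a (l 16555272) (l 16539560)))) (b (l 3) (a (b (a (l 16544288) (l 16537232)) (l 16524968)) (b (a (l 16540928) (b (l 16527904) (l 16519920))) (a (l 16514736) (l 16508224)))))) (a (b (a (l 16531608) (l 16516000)) (a (l 16500400) (l 16484880))) (b (a (b (l 16509328) (l 16493760)) (b (l 16495896) (l 16480400))) (a (l 16470512) (l 16457256))))) (b (b (l 3) (a (b (a (a (b (l 16521616) (l 16513592)) (b (l 16515520) (l 16507464))) (a (b (l 16509616) (l 16501528)) (b (l 186998317303) (l 16495744)))) (a (a (l 16501936) (l 16495856)) (a (l 16489960) (l 16484224)))) (b (b (l 3) (a (c (l 16491800) (l 16482176)) (c (l 57612383127) (l 16471216)))) (a (c (l 16480280) (l 16470680)) (c (l 16469312)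 (l 16459744)))))) (a (b (a (b (l 16483416) (l 16468016)) (b (l 16471728) (l 16456448))) (a (l 16445008) (l 16433584))) (b (a (b (l 16460616) (l 16445440)) (b (l 16449800) (l 16434728))) (a (l 16422728) (l 16412152)))))), by decide +kernel⟩

def k5_pp_012_b : ∃ t, chk3 f_pp_012_b t 7 15 1 = true :=
  ⟨(b (b (l 3) (b (b (l 3) (a (a (a (c (l 71034132871) (l 66739151703)) (c (a (l 16461600) (l 16456048)) (l 56538581943))) (a (a (a (l 46874903831) (l 55464832471)) (c (l 72107824455) (l 16436712))) (l 3))) (l 3))) (a (a (a (c (l 16458352) (l 16449064)) (c (b (l 16451064) (l 16443576)) (l 16438472))) (a (c (b (a (l 16442568) (l 16437336)) (l 16433056)) (a (l 16430480) (l 16425744))) (c (b (l 92508894279) (l 16425968)) (l 16441112)))) (a (c (c (b (a (l 81771467015) (a (l 72107783639) (l 65128460423))) (a (l 16422712) (l 16419416))) (a (l 91435138759) (l 1530500087773157399197859855))) (a (l 86603292823) (b (l 63517835271) (l 16406240)))) (c (a (b (c (a (l 921201474687619384488951823) (l 824487409118441079052959759))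 (l 141115341664927759)) (a (l 16415792) (l 141166537667624975))) (a (b (b (l 3) (l 141185641692168207)) (l 141181449794764815)) (b (l 3) (l 141186947354902543)))) (a (l 1192000858281030443932073999) (l 979229914028935492495278095))))))) (a (a (b (a (b (l 16439112) (l 16424136)) (b (l 16428448) (l 16414088))) (a (l 16402064) (l 16393680))) (b (a (b (l 16440216) (l 16406240)) (b (l 16412336) (l 16399600))) (a (l 16386760) (l 16380312)))) (b (b (a (a (l 16406768) (l 16402856)) (a (a (l 16401184) (l 16400744)) (a (l 141013155765518351) (l 140966907559182351)))) (a (l 16392072) (a (l 16388720) (l 16389264)))) (a (a (l 16375120) (l 16371664)) (a (l 16370272) (l 16371232)))))), by decide +kernel⟩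

theorem s6_pp_012_b : ∃ t, chk3 f_pp_012_b t 3 15 1 = true := ex3_a k4_pp_012_b k5_pp_012_b

theorem s7_pp_012_b : ∃ t, chk3 f_pp_012_b t 3 7 1 = true := ex3_b k3_pp_012_b s6_pp_012_b

theorem s8_pp_012_b : ∃ t, chk3 f_pp_012_b t 1 7 1 = true := ex3_a k2_pp_012_b s7_pp_012_b

theorem s9_pp_012_b : ∃ t, chk3 f_pp_012_b t 1 3 1 = true := ex3_b k1_pp_012_b s8_pp_012_b

theorem s10_pp_012_b : ∃ t, chk3 f_pp_012_b t 1 1 1 = true := ex3_b k0_pp_012_b s9_pp_012_b

theorem c_pp_012_b : CertB 0 536870912 1239849684 370763052 649613803 48318383 3 eng mog cd0q0 cd4q2b pd1 false true true .pnp 0 1 2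
    ndB0q0 ndB4q2b pcB1 cut_pp_012_b xt_pp_012_b :=
  certB1 (fam := false) (s1 := true) (s2 := true) (a := 0) (b := 1) (c := 2) (cn := .pnp) (n1 := ndB0q0) (n2 := ndB4q2b) (pc := pcB1) (cut := cut_pp_012_b) (xt := xt_pp_012_b) (P1 := 0) (W1 := 536870912) (P2 := 1239849684) (W2 := 370763052) (P3 := 649613803) (W3 := 48318383) (N0 := 3) (En := eng) (mo := mog) (C1 := cd0q0) (C2 := cd4q2b) (C3 := pd1)
    rfl (fun _ => rfl) s10_pp_012_b

noncomputable def cut_pp_022_a : Cut := Cut.of [[⟨0, 0, 0, 67108864⟩, ⟨1, 1, 0, 67108864⟩, ⟨2, 1, 0, 67108864⟩]]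

noncomputable def f_pp_022_a : ℕ → ℕ → ℕ → ℕ → Bool := onCell 1073741824 536870912 0 536870912 649613803 48318383
    (rowB 3 eng mog cd0q0 cd4q2a pd2 2 false true true .pp 0 2 2 (qsf 0 536870912 0 536870912 2) ndB0q0 ndB4q2a pcB2 cut_pp_022_a Ext.none)

def k0_pp_022_a : ∃ t, chk3 f_pp_022_a t 8 1 1 = true :=
  ⟨(b (b (a (a (b (b (a (l 16592768) (l 16585288)) (l 16593528)) (a (l 16603264) (l 16598288))) (b (b (l 16573488) (l 16577880)) (l 16586232))) (b (a (l 16579992) (l 16541416)) (b (l 16599208) (l 16604896)))) (b (a (a (b (l 16608480) (l 16614608)) (l 16600304)) (a (l 16603408) (l 16563536))) (a (a (a (b (l 16623208) (l 16632144)) (l 16625448)) (l 16639016)) (a (b (l 16594472) (l 16624552)) (b (l 16574752) (l 16583240)))))) (b (a (b (b (a (a (l 16642544) (l 16640088)) (l 16633520)) (a (a (l 16675456) (l 16651968)) (l 16644912))) (a (b (a (a (l 16668664) (l 16667480)) (l 16665496)) (a (a (b (l 16679848) (l 16687976)) (l 16693224)) (a (l 16681392) (l 16679928)))) (b (l 16683320) (a (l 16675624)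 (l 16664488))))) (b (a (b (l 16613424) (a (l 16629376) (l 16618688))) (b (l 16592424) (l 16623248))) (a (b (a (l 16640888) (l 16629760)) (a (l 16674096) (l 16641512))) (b (a (l 16618456) (l 16606928)) (a (l 16650640) (b (l 16614872) (l 16620208))))))) (a (b (b (a (a (a (b (l 16696520) (l 16715960)) (b (l 16695240) (l 16704152))) (b (l 16693104) (l 16712432))) (a (b (l 16685984) (l 16693192)) (b (l 16674464) (l 16691848)))) (l 6)) (l 6)) (b (b (a (b (a (l 16662672) (l 16650600)) (a (l 16669240) (l 16656800))) (b (a (l 16638248) (l 16625592)) (a (a (l 16647272) (l 16640824)) (a (l 16634280) (l 16627624))))) (a (l 6) (a (l 6) (a (l 6) (l 1))))) (a (l 6) (l 1)))))), by decide +kernel⟩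

def k1_pp_022_a : ∃ t, chk3 f_pp_022_a t 9 1 1 = true :=
  ⟨(b (b (a (b (a (l 16523072) (l 16504104)) (a (l 16532072) (l 16512472))) (b (a (l 16484664) (b (l 16463280) (l 16466192))) (a (l 16513320) (c (l 16478072) (l 16465008))))) (a (b (a (l 16564744) (b (l 16520320) (l 16526376))) (a (b (l 16554256) (l 16562128)) (b (l 16533080) (l 16561312)))) (b (a (b (l 16499560) (l 16505120)) (c (b (l 16484408) (l 16489328)) (b (l 16471488) (l 16476368)))) (c (a (b (l 16516528) (l 16544096)) (b (a (l 16500288) (l 16489080)) (a (l 16506208) (l 28487174839)))) (a (b (l 16505544) (l 16511912)) (b (l 16481568) (l 45130167543))))))) (b (b (a (a (b (l 16570640) (a (l 16585448) (l 16573944))) (b (a (l 16553840) (l 16542312)) (a (l 16562200) (b (l 16548144) (l 16552096))))) (a (b (a (l 16530536) (c (l 16524280) (l 16512168))) (a (b (l 16535936) (l 16539560)) (b (l 16523344) (l 16526600)))) (b (c (a (l 16512336) (l 16499976)) (l 15602304391)) (l 1)))) (a (b (a (a (l 16595136) (l 16604048)) (a (b (l 16568560) (l 16572848))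 (b (l 16556000) (l 16559896)))) (a (a (b (l 16602608) (l 16607568)) (b (l 16590032) (l 16594592))) (b (a (l 16577112) (l 1)) (l 1)))) (a (b (a (b (l 16543088) (l 1)) (l 1)) (l 1)) (l 1)))) (a (b (b (a (b (a (l 20971220775) (l 16599088)) (a (l 16617416) (l 1))) (l 1)) (l 1)) (l 1)) (l 1)))), by decide +kernel⟩

def k2_pp_022_a : ∃ t, chk3 f_pp_022_a t 5 1 1 = true :=
  ⟨(b (a (a (a (c (b (b (l 16472832) (a (l 16462800) (l 16473208))) (b (b (a (l 16468464) (l 16457392)) (a (l 16472816) (l 16461304))) (b (a (l 33318980695) (l 16465448)) (a (l 16482320) (l 1))))) (b (b (l 16436176) (l 16442296)) (b (b (l 16447808) (l 16451856)) (b (l 10233505655) (l 16481192))))) (b (a (b (b (l 16426760) (l 16428912)) (c (b (l 16439808) (l 16442632)) (l 16424344))) (a (b (b (l 16418224) (l 16420160)) (c (l 76268597735) (l 16414720))) (b (b (a (c (l 16422976) (l 16404000)) (a (a (a (l 16411616) (a (l 16411184) (c (l 16420384) (l 16401008)))) (l 16410280)) (l 1))) (a (l 16415376) (l 1))) (a (c (l 16448800) (l 16409392))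 (l 1))))) (a (b (a (b (l 16461680) (l 16444216)) (b (l 16434448) (l 1))) (l 1)) (l 1)))) (b (b (l 1) (l 1)) (l 1))) (l 1)) (b (l 1) (l 1))), by decide +kernel⟩

def k3_pp_022_a : ∃ t, chk3 f_pp_022_a t 3 1 1 = true :=
  ⟨(l 1), by decide +kernel⟩

theorem s4_pp_022_a : ∃ t, chk3 f_pp_022_a t 4 1 1 = true := ex3_a k0_pp_022_a k1_pp_022_a

theorem s5_pp_022_a : ∃ t, chk3 f_pp_022_a t 2 1 1 = true := ex3_a s4_pp_022_a k2_pp_022_a

theorem s6_pp_022_a : ∃ t, chk3 f_pp_022_a t 1 1 1 = true := ex3_a s5_pp_022_a k3_pp_022_a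

theorem c_pp_022_a : CertB 0 536870912 0 536870912 649613803 48318383 3 eng mog cd0q0 cd4q2a pd2 false true true .pp 0 2 2
    ndB0q0 ndB4q2a pcB2 cut_pp_022_a Ext.none :=
  certB2 (fam := false) (s1 := true) (s2 := true) (a := 0) (b := 2) (c := 2) (cn := .pp) (n1 := ndB0q0) (n2 := ndB4q2a) (pc := pcB2) (cut := cut_pp_022_a) (xt := Ext.none) (P1 := 0) (W1 := 536870912) (P2 := 0) (W2 := 536870912) (P3 := 649613803) (W3 := 48318383) (N0 := 3) (En := eng) (mo := mog) (C1 := cd0q0) (C2 := cd4q2a) (C3 := pd2)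
    rfl (fun _ => rfl) s6_pp_022_a

noncomputable def cut_pp_022_b : Cut := Cut.of [[⟨0, 0, 0, 67108864⟩, ⟨1, 1, 0, 67108864⟩, ⟨2, 1, 0, 67108864⟩]]

noncomputable def f_pp_022_b : ℕ → ℕ → ℕ → ℕ → Bool := onCell 0 536870912 1073741824 536870912 649613803 48318383
    (rowB 3 eng mog cd0q0 cd4q2b pd2 1 false true true .pp 0 2 2 (qsf 0 536870912 1239849684 370763052 2) ndB0q0 ndB4q2b pcB2 cut_pp_022_b Ext.none)

def k0_pp_022_b : ∃ t, chk3 f_pp_022_b t 2 4 1 = true :=
  ⟨(a (b (a (l 1) (a (b (l 1) (b (l 1) (a (l 1) (l 16571328)))) (b (b (l 1) (a (l 1) (l 26339902567))) (b (a (l 36540447367) (l 16574336)) (a (l 16536016) (l 16522208)))))) (a (b (a (l 1) (b (l 1) (a (l 1) (l 16533392)))) (a (b (l 1) (a (l 1) (l 80026769047))) (b (a (l 68752520999) (l 16480240)) (a (l 16460736) (l 16449376))))) (b (a (a (b (l 16552600) (l 16499328)) (b (l 16517968) (l 16486880))) (b (l 16540432) (l 16469160))) (a (b (a (l 16468352) (l 16457064)) (l 16454424)) (b (l 16441024) (l 16414064)))))) (b (b (a (a (a (b (c (l 33856135655)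 (l 51572853991)) (l 16590840)) (b (c (l 16606312) (l 16585736)) (l 16554472))) (b (a (l 16589968) (l 16552912)) (a (l 16539528) (l 16524880)))) (a (b (l 16570688) (l 16502960)) (b (l 16493976) (l 16472208)))) (a (a (b (a (l 16538792) (l 16524720)) (l 16523392)) (b (l 16525376) (l 16477632))) (a (a (l 16493080) (l 16501376)) (l 16460384)))) (a (b (a (b (l 16474272) (l 16447192)) (b (l 16451824) (l 16426928))) (a (b (l 16421184) (l 16396232)) (l 16391400))) (b (a (l 16460832) (l 16397512)) (a (l 16375048) (l 16357752)))))), by decide +kernel⟩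

def k1_pp_022_b : ∃ t, chk3 f_pp_022_b t 2 5 1 = true :=
  ⟨(a (b (a (a (b (b (a (b (l 1) (l 87005995639)) (b (l 16448488) (l 16432808))) (b (a (l 100964626151) (l 16417392)) (b (a (l 16415200) (l 16405952)) (b (a (a (l 16411232) (l 16406800)) (l 16400128)) (a (b (b (b (l 16406576) (b (l 16406072) (a (l 16407752) (l 16403480)))) (l 16405008)) (l 16403616)) (c (l 16405800) (l 16386232))))))) (b (a (b (l 16395328) (l 16380824)) (l 16380104)) (a (l 16357680) (l 16351576)))) (b (b (a (l 16429976) (l 16419816)) (b (l 16403048) (b (l 16392400) (b (l 16387088) (a (l 16387616) (l 16379512)))))) (b (a (l 16372248) (l 16364680)) (l 16342480)))) (b (b (a (l 16405600) (l 16388312)) (b (a (l 16385560) (l 16369848)) (a (b (l 16375872) (b (l 16371184) (l 16368192))) (b (l 16361032) (b (l 16356904) (l 16354472)))))) (a (b (l 16354112) (l 16331472)) (b (l 16341272) (l 16321728))))) (a (a (a (b (c (b (l 16342688) (l 16318616)) (b (l 16314400) (l 16286208))) (b (a (l 16279160) (l 16279360)) (l 16258936))) (b (l 16312384)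 (b (l 16279488) (l 16261008)))) (b (a (l 16309488) (l 16306736)) (a (l 16270848) (l 16271856)))) (a (b (l 16303152) (l 16273744)) (l 16286960)))) (b (a (b (b (a (l 16372408) (l 16357864)) (b (l 16348664) (b (l 16341016) (a (l 16343240) (l 16331664))))) (a (l 16320880) (l 16311488))) (b (b (l 16504520) (b (l 16343680) (a (l 16407368) (l 16415264)))) (a (l 16302176) (l 16289240)))) (a (a (l 16287200) (l 16287560)) (a (l 16286848) (l 16282584))))), by decide +kernel⟩

def k2_pp_022_b : ∃ t, chk3 f_pp_022_b t 3 2 1 = true :=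
  ⟨(b (a (b (a (a (b (b (a (l 16469384) (l 16454448)) (l 16442024)) (l 16409592)) (b (b (a (l 16440664) (l 16428000)) (a (l 16422608) (l 16410976))) (l 16387816))) (a (b (b (a (l 16416336) (l 16405456)) (l 16395184)) (b (l 16378568) (l 16361664))) (b (b (a (l 16395104) (l 16385288)) (l 16377216)) (l 16358168)))) (a (a (b (l 16372424) (l 16336112)) (b (l 16345576) (l 16303504))) (a (b (l 16336696) (l 16302960)) (l 16444544)))) (b (a (b (a (b (a (l 16377096) (l 16370552)) (l 16364328)) (a (l 16360280) (l 16354672))) (a (l 16349240) (l 16340632))) (b (a (b (l 16352056) (l 16345576)) (b (l 16392736) (l 16346040))) (a (l 16334984) (l 16338088)))) (a (b (l 16428856) (l 16323400)) (b (l 16321264) (l 2))))) (a (b (a (b (b (l 16292424) (b (l 16277904) (a (l 16289096) (l 16255168)))) (l 16273368)) (b (b (l 16279640) (b (l 16267984) (l 16261936))) (l 16243264))) (a (l 16262096) (l 16207776))) (b (a (b (b (l 16285752) (l 2)) (l 2)) (l 2)) (l 2)))), by decide +kernel⟩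

def k3_pp_022_b : ∃ t, chk3 f_pp_022_b t 1 3 1 = true :=
  ⟨(a (b (a (b (a (a (b (a (b (l 16241440) (l 16226792)) (l 16238408)) (a (b (l 16214976) (l 16205960)) (l 16217816))) (b (l 16244888) (l 16228688))) (a (b (l 16253776) (l 16242712)) (l 16258104))) (a (a (b (b (l 16225600) (a (l 16196720) (l 16207680))) (a (b (l 16197568) (l 16201384)) (l 16210928))) (b (b (l 16223024) (l 16222352)) (l 16226456))) (b (l 16288608) (l 16255432)))) (b (a (l 16356912) (l 16290680)) (a (b (l 16278184) (l 16295488)) (l 16489768)))) (a (b (a (a (b (a (b (l 16206944) (l 16214144)) (l 16222240)) (b (l 16314288) (l 16241288))) (b (l 16239552) (l 16260576))) (b (l 16273928) (l 16297008))) (a (b (a (c (l 16318024) (l 16205232)) (l 16286624)) (a (l 16290816) (l 16317152))) (b (l 16324584) (l 2)))) (b (a (l 16332320) (l 2)) (l 2)))) (b (a (b (a (l 16294728) (l 2)) (l 2)) (l 2)) (l 2))), by decide +kernel⟩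

theorem s4_pp_022_b : ∃ t, chk3 f_pp_022_b t 2 2 1 = true := ex3_b k0_pp_022_b k1_pp_022_b

theorem s5_pp_022_b : ∃ t, chk3 f_pp_022_b t 1 2 1 = true := ex3_a s4_pp_022_b k2_pp_022_b

theorem s6_pp_022_b : ∃ t, chk3 f_pp_022_b t 1 1 1 = true := ex3_b s5_pp_022_b k3_pp_022_b

theorem c_pp_022_b : CertB 0 536870912 1239849684 370763052 649613803 48318383 3 eng mog cd0q0 cd4q2b pd2 false true true .pp 0 2 2
    ndB0q0 ndB4q2b pcB2 cut_pp_022_b Ext.none :=
  certB1 (fam := false) (s1 := true) (s2 := true) (a := 0) (b := 2) (c := 2) (cn := .pp) (n1 := ndB0q0) (n2 := ndB4q2b) (pc := pcB2) (cut := cut_pp_022_b) (xt := Ext.none) (P1 := 0) (W1 := 536870912) (P2 := 1239849684) (W2 := 370763052) (P3 := 649613803) (W3 := 48318383) (N0 := 3) (En := eng) (mo := mog) (C1 := cd0q0) (C2 := cd4q2b) (C3 := pd2)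
    rfl (fun _ => rfl) s6_pp_022_b

noncomputable def xt_pp_023 : Ext := extD2 3 ⟨7, 3, 3, 10, 377, 200, 77, 100, 17, 50, 3, 16⟩ eng cd0q0 cd4q3 pd2 false true true .up 0 2 3 rfl ndB0q0 ndB4q3 pcB2

noncomputable def f_pp_023 : ℕ → ℕ → ℕ → ℕ → Bool := onCell 0 536870912 1073741824 536870912 649613803 48318383
    (rowB 3 eng mog cd0q0 cd4q3 pd2 1 false true true .up 0 2 3 (qsf 0 536870912 1610612736 536870912 2) ndB0q0 ndB4q3 pcB2 Cut.none xt_pp_023)

def k0_pp_023 : ∃ t, chk3 f_pp_023 t 1 1 1 = true :=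
  ⟨(b (a (b (l 1) (a (l 1) (b (l 1) (a (l 1) (l 16483816))))) (b (a (b (l 1) (a (l 1) (b (l 1) (l 16450824)))) (b (a (b (l 1) (l 314639355895)) (b (a (l 347388345895) (a (l 242698500679) (a (l 250214694375) (l 140353861080203279)))) (a (l 16367080) (l 16375712)))) (a (b (l 51035701287) (l 16375568)) (b (l 16358608) (l 16344656))))) (a (b (a (b (l 1) (l 16258936)) (b (b (l 16305440) (a (l 235182054423) (l 16385528))) (l 16275664))) (a (l 16234104) (l 16251208))) (b (a (b (b (l 16319360) (b (l 16312160) (l 16309464))) (l 16298176)) (b (b (l 16332688) (b (l 16326464) (l 16429440))) (l 16363088))) (a (b (l 16398016) (l 16292248)) (b (l 16339672) (l 16401304))))))) (a (b (a (b (l 1) (a (l 1) (l 337187850087))) (b (a (l 16264384) (l 16274024)) (a (l 141766962647) (b (l 16288320) (l 16315136))))) (a (b (a (b (l 1) (l 373694976631)) (b (l 16255928) (l 16274456))) (a (b (l 259341473991) (l 285111321159)) (b (l 16297808) (l 16325112)))) (b (a (l 16310784) (b (l 16345080) (l 16372928))) (a (b (l 16351800) (l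 16377768)) (b (l 16393888) (l 16407216)))))) (b (a (b (a (l 16265352) (b (l 16211408) (l 16238128))) (a (b (l 16304176) (l 16340832)) (b (l 16320688) (l 16394000)))) (a (b (l 16402128) (b (l 16450528) (l 16501096))) (b (l 16478848) (l 16554184)))) (a (b (a (l 16504272) (l 16475656)) (a (b (l 16444376) (l 16474128)) (l 16439720))) (b (a (l 16557832) (l 16606984)) (b (l 16620376) (l 16636616))))))), by decide +kernel⟩

theorem c_pp_023 : CertB 0 536870912 1610612736 536870912 649613803 48318383 3 eng mog cd0q0 cd4q3 pd2 false true true .up 0 2 3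
    ndB0q0 ndB4q3 pcB2 Cut.none xt_pp_023 :=
  certB1 (fam := false) (s1 := true) (s2 := true) (a := 0) (b := 2) (c := 3) (cn := .up) (n1 := ndB0q0) (n2 := ndB4q3) (pc := pcB2) (cut := Cut.none) (xt := xt_pp_023) (P1 := 0) (W1 := 536870912) (P2 := 1610612736) (W2 := 536870912) (P3 := 649613803) (W3 := 48318383) (N0 := 3) (En := eng) (mo := mog) (C1 := cd0q0) (C2 := cd4q3) (C3 := pd2)
    rfl (fun _ => rfl) k0_pp_023

noncomputable def f_pp_033 : ℕ → ℕ → ℕ → ℕ → Bool := onCell 1610612736 536870912 1610612736 536870912 649613803 48318383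
    (rowB 3 eng mog cd0q0 cd4q3 pd3 2 false true true .pnn 0 3 3 (qsf 0 536870912 1610612736 536870912 3) ndB0q0 ndB4q3 pcB3 Cut.none Ext.none)

def k0_pp_033 : ∃ t, chk3 f_pp_033 t 1 1 1 = true :=
  ⟨(b (a (a (a (b (b (a (l 16200152) (l 265246767655)) (a (l 16251448) (l 16209888))) (b (b (l 16268872) (l 16277928)) (l 16319904))) (b (b (a (l 420402441895) (l 1)) (a (l 16173592) (l 294774625383))) (b (a (l 16218872) (l 16198480)) (l 16250704)))) (a (b (b (l 1) (l 423086492967)) (b (a (l 16184392) (l 16174160)) (l 16192848))) (b (l 1) (b (b (l 1) (l 395706726311)) (a (l 16197640) (l 438119463863)))))) (a (b (l 1) (a (b (l 1) (a (l 470868712999) (l 1))) (l 1))) (l 1))) (a (a (b (a (b (l 16409280) (l 16507888)) (b (l 16330112) (l 16436184))) (a (b (l 16582912) (l 16627816)) (b (l 16528248) (l 16637528)))) (b (a (b (b (l 16253504) (l 16298536)) (l 16372592)) (b (b (l 16230144) (l 16268064)) (l 16330232))) (a (b (l 16469664) (l 16555216)) (b (l 16418736) (l 16509024))))) (a (b (a (b (a (l 16249208) (l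 489659274887)) (a (l 16315432) (l 4))) (l 4)) (l 4)) (l 4)))), by decide +kernel⟩

theorem c_pp_033 : CertB 0 536870912 1610612736 536870912 649613803 48318383 3 eng mog cd0q0 cd4q3 pd3 false true true .pnn 0 3 3
    ndB0q0 ndB4q3 pcB3 Cut.none Ext.none :=
  certB2 (fam := false) (s1 := true) (s2 := true) (a := 0) (b := 3) (c := 3) (cn := .pnn) (n1 := ndB0q0) (n2 := ndB4q3) (pc := pcB3) (cut := Cut.none) (xt := Ext.none) (P1 := 0) (W1 := 536870912) (P2 := 1610612736) (W2 := 536870912) (P3 := 649613803) (W3 := 48318383) (N0 := 3) (En := eng) (mo := mog) (C1 := cd0q0) (C2 := cd4q3) (C3 := pd3)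
    rfl (fun _ => rfl) k0_pp_033

noncomputable def f_pp_101 : ℕ → ℕ → ℕ → ℕ → Bool := onCell 0 536870912 536870912 536870912 649613803 48318383
    (rowB 3 eng mog cd0q1 cd4q1 pd0 2 false true true .npn 1 0 1 (qsf 536870912 536870912 536870912 536870912 0) ndB0q1 ndB4q1 pcB0 Cut.none Ext.none)

def k0_pp_101 : ∃ t, chk3 f_pp_101 t 1 1 1 = true :=
  ⟨(l 3), by decide +kernel⟩

theorem c_pp_101 : CertB 536870912 536870912 536870912 536870912 649613803 48318383 3 eng mog cd0q1 cd4q1 pd0 false true true .npn 1 0 1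
    ndB0q1 ndB4q1 pcB0 Cut.none Ext.none :=
  certB2 (fam := false) (s1 := true) (s2 := true) (a := 1) (b := 0) (c := 1) (cn := .npn) (n1 := ndB0q1) (n2 := ndB4q1) (pc := pcB0) (cut := Cut.none) (xt := Ext.none) (P1 := 536870912) (W1 := 536870912) (P2 := 536870912) (W2 := 536870912) (P3 := 649613803) (W3 := 48318383) (N0 := 3) (En := eng) (mo := mog) (C1 := cd0q1) (C2 := cd4q1) (C3 := pd0)
    rfl (fun _ => rfl) k0_pp_101

noncomputable def f_pp_102_a : ℕ → ℕ → ℕ → ℕ → Bool := onCell 536870912 536870912 0 536870912 649613803 48318383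
    (rowB 3 eng mog cd0q1 cd4q2a pd0 0 false true true .npp 1 0 2 (qsf 536870912 536870912 0 536870912 0) ndB0q1 ndB4q2a pcB0 Cut.none Ext.none)

def k0_pp_102_a : ∃ t, chk3 f_pp_102_a t 1 1 1 = true :=
  ⟨(l 3), by decide +kernel⟩

theorem c_pp_102_a : CertB 536870912 536870912 0 536870912 649613803 48318383 3 eng mog cd0q1 cd4q2a pd0 false true true .npp 1 0 2
    ndB0q1 ndB4q2a pcB0 Cut.none Ext.none :=
  certB0 (fam := false) (s1 := true) (s2 := true) (a := 1) (b := 0) (c := 2) (cn := .npp) (n1 := ndB0q1) (n2 := ndB4q2a) (pc := pcB0) (cut := Cut.none) (xt := Ext.none) (P1 := 536870912) (W1 := 536870912) (P2 := 0) (W2 := 536870912) (P3 := 649613803) (W3 := 48318383) (N0 := 3) (En := eng) (mo := mog) (C1 := cd0q1) (C2 := cd4q2a) (C3 := pd0)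
    rfl k0_pp_102_a

noncomputable def f_pp_102_b : ℕ → ℕ → ℕ → ℕ → Bool := onCell 536870912 536870912 0 536870912 649613803 48318383
    (rowB 3 eng mog cd0q1 cd4q2b pd0 1 false true true .npp 1 0 2 (qsf 536870912 536870912 1239849684 370763052 0) ndB0q1 ndB4q2b pcB0 Cut.none Ext.none)

def k0_pp_102_b : ∃ t, chk3 f_pp_102_b t 1 1 1 = true :=
  ⟨(l 3), by decide +kernel⟩

theorem c_pp_102_b : CertB 536870912 536870912 1239849684 370763052 649613803 48318383 3 eng mog cd0q1 cd4q2b pd0 false true true .npp 1 0 2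
    ndB0q1 ndB4q2b pcB0 Cut.none Ext.none :=
  certB1 (fam := false) (s1 := true) (s2 := true) (a := 1) (b := 0) (c := 2) (cn := .npp) (n1 := ndB0q1) (n2 := ndB4q2b) (pc := pcB0) (cut := Cut.none) (xt := Ext.none) (P1 := 536870912) (W1 := 536870912) (P2 := 1239849684) (W2 := 370763052) (P3 := 649613803) (W3 := 48318383) (N0 := 3) (En := eng) (mo := mog) (C1 := cd0q1) (C2 := cd4q2b) (C3 := pd0)
    rfl (fun _ => rfl) k0_pp_102_b

noncomputable def f_pp_112_a : ℕ → ℕ → ℕ → ℕ → Bool := onCell 536870912 536870912 0 536870912 649613803 48318383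
    (rowB 3 eng mog cd0q1 cd4q2a pd1 0 false true true .dn 1 1 2 (qsf 536870912 536870912 0 536870912 1) ndB0q1 ndB4q2a pcB1 Cut.none Ext.none)

def k0_pp_112_a : ∃ t, chk3 f_pp_112_a t 1 1 1 = true :=
  ⟨(l 3), by decide +kernel⟩

theorem c_pp_112_a : CertB 536870912 536870912 0 536870912 649613803 48318383 3 eng mog cd0q1 cd4q2a pd1 false true true .dn 1 1 2
    ndB0q1 ndB4q2a pcB1 Cut.none Ext.none :=
  certB0 (fam := false) (s1 := true) (s2 := true) (a := 1) (b := 1) (c := 2) (cn := .dn) (n1 := ndB0q1) (n2 := ndB4q2a) (pc := pcB1) (cut := Cut.none) (xt := Ext.none) (P1 := 536870912) (W1 := 536870912) (P2 := 0) (W2 := 536870912) (P3 := 649613803) (W3 := 48318383) (N0 := 3) (En := eng) (mo := mog) (C1 := cd0q1) (C2 := cd4q2a) (C3 := pd1)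
    rfl k0_pp_112_a

noncomputable def xt_pp_112_b : Ext := extD2 3 ⟨7, 3, 3, 10, 377, 200, 77, 100, 17, 50, 3, 16⟩ eng cd0q1 cd4q2b pd1 false true true .dn 1 1 2 rfl ndB0q1 ndB4q2b pcB1

noncomputable def f_pp_112_b : ℕ → ℕ → ℕ → ℕ → Bool := onCell 536870912 536870912 1239849684 370763052 649613803 48318383
    (rowB 3 eng mog cd0q1 cd4q2b pd1 2 false true true .dn 1 1 2 (qsf 536870912 536870912 1239849684 370763052 1) ndB0q1 ndB4q2b pcB1 Cut.none xt_pp_112_b)

def k0_pp_112_b : ∃ t, chk3 f_pp_112_b t 1 1 1 = true :=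
  ⟨(a (l 3) (a (l 3) (b (l 1) (a (l 3) (b (l 1) (a (a (l 3) (a (l 3) (b (l 1) (a (l 3) (b (b (b (l 1) (a (b (l 141162345772613647) (l 140936464853450767)) (l 140974741594898447))) (l 141034939863040015)) (c (l 2033413228732777646282768399) (l 140769682676744207))))))) (b (l 1) (b (b (l 1) (a (a (a (b (l 140861354450042895) (l 140681515581636623)) (l 16399032)) (l 16389304)) (l 1))) (a (a (a (l 141056449055522831) (l 140630457004687375)) (a (l 16396200) (l 16389208))) (a (l 16378856) (l 16365336))))))))))), by decide +kernel⟩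

theorem c_pp_112_b : CertB 536870912 536870912 1239849684 370763052 649613803 48318383 3 eng mog cd0q1 cd4q2b pd1 false true true .dn 1 1 2
    ndB0q1 ndB4q2b pcB1 Cut.none xt_pp_112_b :=
  certB2 (fam := false) (s1 := true) (s2 := true) (a := 1) (b := 1) (c := 2) (cn := .dn) (n1 := ndB0q1) (n2 := ndB4q2b) (pc := pcB1) (cut := Cut.none) (xt := xt_pp_112_b) (P1 := 536870912) (W1 := 536870912) (P2 := 1239849684) (W2 := 370763052) (P3 := 649613803) (W3 := 48318383) (N0 := 3) (En := eng) (mo := mog) (C1 := cd0q1) (C2 := cd4q2b) (C3 := pd1)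
    rfl (fun _ => rfl) k0_pp_112_b

noncomputable def cut_pp_113 : Cut := Cut.of [[⟨0, 1, 0, 67108864⟩, ⟨1, 1, 0, 67108864⟩, ⟨2, 2, 0, 16777216⟩]]

noncomputable def xt_pp_113 : Ext := extD2 3 ⟨7, 3, 3, 10, 377, 200, 77, 100, 17, 50, 3, 16⟩ eng cd0q1 cd4q3 pd1 false true true .nn 1 1 3 rfl ndB0q1 ndB4q3 pcB1

noncomputable def f_pp_113 : ℕ → ℕ → ℕ → ℕ → Bool := onCell 536870912 536870912 536870912 536870912 649613803 48318383
    (rowB 3 eng mog cd0q1 cd4q3 pd1 1 false true true .nn 1 1 3 (qsf 536870912 536870912 1610612736 536870912 1) ndB0q1 ndB4q3 pcB1 cut_pp_113 xt_pp_113)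

def k0_pp_113 : ∃ t, chk3 f_pp_113 t 1 2 1 = true :=
  ⟨(l 3), by decide +kernel⟩

def k1_pp_113 : ∃ t, chk3 f_pp_113 t 1 6 1 = true :=
  ⟨(l 3), by decide +kernel⟩

def k2_pp_113 : ∃ t, chk3 f_pp_113 t 1 14 1 = true :=
  ⟨(a (l 3) (l 3)), by decide +kernel⟩

def k3_pp_113 : ∃ t, chk3 f_pp_113 t 4 15 1 = true :=
  ⟨(a (b (b (l 3) (b (l 3) (b (l 3) (a (a (l 1) (a (l 1) (c (l 1791628064810165447124795407) (l 141084005639389199)))) (b (l 3) (c (a (c (l 1965713382834795605931753487) (l 141308031194152975)) (l 1366086176306030245028708367)) (l 3310038894246056814882570255))))))) (a (b (b (a (l 1) (c (l 141160421733335055) (l 140949246723260431))) (l 141052875691622415)) (a (l 140617125446172687) (l 140712508100624399))) (b (b (b (c (a (l 141311673334546447) (l 1830313691038000156794552335)) (l 141147021416972303)) (a (l 141136369907515407) (l 141268036455579663))) (l 141099261389504527)) (a (l 140830362030276623) (l 140968213333622799))))) (b (b (l 3) (a (l 3) (l 3))) (b (a (a (b (c (b (l 2265526986099429593616465935)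 (l 141554734189494287)) (l 141316277529460751)) (l 141323905413087247)) (b (c (l 1520828681216980131286073359) (l 141479074008956943)) (l 141504362803675151))) (b (a (b (l 1511157274660158961578115087) (l 141810095819735055)) (b (l 3252010454905475318271131663) (l 142062090200809487))) (a (l 141719798415736847) (l 141976946844860431)))) (a (a (l 141128054876028943) (l 141314009826836495)) (a (b (l 141598577242980367) (l 16517576)) (b (l 141862116499374095) (l 16549232))))))), by decide +kernel⟩

def k4_pp_113 : ∃ t, chk3 f_pp_113 t 5 15 1 = true :=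
  ⟨(b (l 3) (a (a (b (b (b (l 3) (a (a (l 142280480749027343) (l 142438879179702287)) (l 1607871340230105138510938127))) (a (c (l 142495160411897871) (l 142041886672715791)) (l 142564017331519503))) (a (b (l 142170117266849807) (l 16583128)) (b (l 142453653877473295) (l 142354148059611151)))) (a (a (b (b (l 1279043517294961943323508879) (l 142748323042820239)) (b (l 142473513798058127) (l 142602843890499727))) (b (a (b (l 882515848461448236400410703) (b (l 142859992211210319) (l 142809826985443407))) (b (l 834158815676917014212460623) (b (a (l 142900536623464527) (l 142931735271358543)) (l 142886724093804623)))) (c (b (l 143011793573937231) (l 16665624)) (l 142444926487249039)))) (b (b (b (l 3) (b (l 3) (b (l 3) (a (c (l 1443457428763107108146495567) (a (l 1588528527116427889594105999) (l 142905896821096591))) (c (l 143382741369815247) (l 143062096178462799)))))) (b (a (c (c (l 143312922374193359) (l 143132533707735119)) (c (l 142946647482794127) (l 142755332375904399))) (c (l 143366386132484303)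 (b (l 143059553601290319) (l 143058247932395599)))) (c (l 143273752262967375) (a (l 142849134527299727) (l 143056392508244047))))) (b (c (l 143239048923414607) (a (l 16605800) (l 16666584))) (c (l 16684920) (l 16659488)))))) (b (b (a (l 3) (l 3)) (a (a (a (b (c (l 143492692554285263) (b (l 143246814212145231) (l 143244271592407119))) (l 143353741744586831)) (b (c (l 99488768615) (l 1898013536938378377038561487)) (l 143487744751468751))) (c (a (l 1966316017501599681238838543) (l 103783822727)) (a (b (l 95730666743) (l 16714080)) (l 1946973963731125549614767119)))) (a (c (a (l 98415129335) (l 93046433383)) (a (l 103783816487) (l 108615699399))) (c (b (l 99488938423) (l 16764256)) (b (l 141901769207) (l 108078900007)))))) (a (c (b (a (l 16710016) (l 16728952)) (a (l 16707088) (l 16725624))) (a (b (a (l 16683992) (l 16700040)) (l 16693568)) (b (l 16721720) (l 16722224)))) (a (b (c (l 16745136) (l 16746984)) (l 605173109454186738226191)) (b (a (l 16760336) (l 16791504)) (c (l 16756896) (l 16769896)))))))),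 by decide +kernel⟩

def k5_pp_113 : ∃ t, chk3 f_pp_113 t 3 30 1 = true :=
  ⟨(a (l 3) (l 3)), by decide +kernel⟩

def k6_pp_113 : ∃ t, chk3 f_pp_113 t 3 62 1 = true :=
  ⟨(a (a (b (l 3) (b (l 3) (a (a (c (a (l 16777048) (l 16785696)) (a (l 16791240) (l 125795683799))) (c (a (l 16815384) (l 132775001287)) (a (a (l 132238142375) (l 136533124183)) (b (l 3) (l 129553830279))))) (b (l 3) (a (a (c (l 16811304) (a (l 16837600) (l 153176174167))) (c (l 16818872) (l 166597948535))) (a (l 171429808967) (l 3))))))) (l 3)) (l 3)), by decide +kernel⟩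

def k7_pp_113 : ∃ t, chk3 f_pp_113 t 3 126 1 = true :=
  ⟨(a (a (a (a (c (l 16798768) (a (l 16789712) (l 16801848))) (c (c (l 16789712) (l 16842056)) (a (l 16834832) (b (l 16826808) (l 16824488))))) (a (a (c (l 16827488) (b (b (l 16859416) (l 16836448)) (l 16832928))) (c (l 16813376) (l 16842112))) (c (b (l 16825928) (l 16821496)) (a (l 16869944) (l 138680699527))))) (a (a (b (a (l 147270645655) (l 153176241799)) (l 16889832)) (a (l 145660074407) (l 148881324807))) (c (a (l 16881800) (l 16889552)) (a (b (l 235317317895) (l 16885456)) (l 190220202103))))) (a (b (l 3) (a (a (c (l 16868472) (l 16873464)) (c (l 142975594263) (l 303499927703))) (l 3))) (l 3))), by decide +kernel⟩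

def k8_pp_113 : ∃ t, chk3 f_pp_113 t 3 127 1 = true :=
  ⟨(a (a (a (a (c (l 16772992) (l 16793272)) (a (l 16859384) (c (l 16792136) (l 16818920)))) (a (l 16835088) (c (l 16814896) (l 16841632)))) (a (a (l 16860992) (l 16872624)) (a (l 16903416) (c (l 16856272) (l 16881200))))) (a (c (a (a (l 16858864) (l 16857648)) (a (l 16852816) (l 167671585335))) (a (a (l 16882504) (l 16879536)) (a (b (l 235854167031) (l 16868296)) (b (b (l 277730059111) (l 16795336)) (l 16849832))))) (b (a (b (l 3) (a (a (l 256792066743) (a (l 272898195639) (l 468856071031))) (l 3))) (l 3)) (a (a (b (c (l 16832440) (l 16782216)) (l 16771880)) (a (b (c (l 16823352) (l 254107720391)) (l 16780784)) (c (l 229411674471) (b (c (l 271287602327) (l 334101534631)) (l 16777400))))) (b (a (a (b (l 3) (c (l 481204122679) (c (l 465097995767) (l 654613465847)))) (l 3)) (l 3)) (a (a (c (l 16805960) (a (l 16782008) (b (l 246591523575) (l 16799456)))) (a (c (l 16789944) (c (l 16781416) (l 310479198295))) (c (l 250349624455) (b (c (l 335175256183)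 (l 346449541831)) (l 16776544))))) (a (a (a (c (l 261087040503) (b (c (l 356113212903) (l 368998109959)) (l 16776568))) (b (b (l 3) (l 6)) (l 6))) (l 6)) (l 6)))))))), by decide +kernel⟩

theorem s9_pp_113 : ∃ t, chk3 f_pp_113 t 3 63 1 = true := ex3_b k7_pp_113 k8_pp_113

theorem s10_pp_113 : ∃ t, chk3 f_pp_113 t 3 31 1 = true := ex3_b k6_pp_113 s9_pp_113

theorem s11_pp_113 : ∃ t, chk3 f_pp_113 t 3 15 1 = true := ex3_b k5_pp_113 s10_pp_113

theorem s12_pp_113 : ∃ t, chk3 f_pp_113 t 2 15 1 = true := ex3_a k3_pp_113 k4_pp_113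

theorem s13_pp_113 : ∃ t, chk3 f_pp_113 t 1 15 1 = true := ex3_a s12_pp_113 s11_pp_113

theorem s14_pp_113 : ∃ t, chk3 f_pp_113 t 1 7 1 = true := ex3_b k2_pp_113 s13_pp_113

theorem s15_pp_113 : ∃ t, chk3 f_pp_113 t 1 3 1 = true := ex3_b k1_pp_113 s14_pp_113

theorem s16_pp_113 : ∃ t, chk3 f_pp_113 t 1 1 1 = true := ex3_b k0_pp_113 s15_pp_113

theorem c_pp_113 : CertB 536870912 536870912 1610612736 536870912 649613803 48318383 3 eng mog cd0q1 cd4q3 pd1 false true true .nn 1 1 3
    ndB0q1 ndB4q3 pcB1 cut_pp_113 xt_pp_113 :=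
  certB1 (fam := false) (s1 := true) (s2 := true) (a := 1) (b := 1) (c := 3) (cn := .nn) (n1 := ndB0q1) (n2 := ndB4q3) (pc := pcB1) (cut := cut_pp_113) (xt := xt_pp_113) (P1 := 536870912) (W1 := 536870912) (P2 := 1610612736) (W2 := 536870912) (P3 := 649613803) (W3 := 48318383) (N0 := 3) (En := eng) (mo := mog) (C1 := cd0q1) (C2 := cd4q3) (C3 := pd1)
    rfl (fun _ => rfl) s16_pp_113

noncomputable def cut_pp_123 : Cut := Cut.of [[⟨0, 1, 0, 67108864⟩, ⟨1, 1, 0, 67108864⟩, ⟨2, 2, 0, 16777216⟩]]

noncomputable def xt_pp_123 : Ext := extD2 3 ⟨7, 3, 3, 10, 377, 200, 77, 100, 17, 50, 3, 16⟩ eng cd0q1 cd4q3 pd2 false true true .npn 1 2 3 rfl ndB0q1 ndB4q3 pcB2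

noncomputable def f_pp_123 : ℕ → ℕ → ℕ → ℕ → Bool := onCell 536870912 536870912 1073741824 536870912 649613803 48318383
    (rowB 3 eng mog cd0q1 cd4q3 pd2 1 false true true .npn 1 2 3 (qsf 536870912 536870912 1610612736 536870912 2) ndB0q1 ndB4q3 pcB2 cut_pp_123 xt_pp_123)

def k0_pp_123 : ∃ t, chk3 f_pp_123 t 2 1 1 = true :=
  ⟨(b (b (a (b (a (b (b (a (l 140469584704716815) (l 140712714270654479)) (a (l 16398968) (l 16428096))) (a (l 16394664) (l 16425448))) (b (b (a (a (l 140951033475530767) (l 141142623425413135)) (b (l 141505050033979407) (l 16525352))) (a (l 16469528) (a (l 16509944) (l 16541640)))) (a (b (l 16468744) (l 16467520)) (l 16535016)))) (a (b (a (l 16386336) (l 16419296)) (a (l 16375296) (l 16420784))) (b (a (l 16475608) (l 16552688)) (l 16534400)))) (a (b (b (a (b (a (b (l 16573240) (l 16571800)) (b (l 142293606145081359) (l 16584824))) (a (l 16575760) (l 16613128))) (b (a (c (l 16654528) (l 142574256577298575)) (c (l 16679688) (l 142992345951502415))) (l 16640768))) (a (l 16607720)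 (l 16666832))) (b (a (l 16618424) (l 16666216)) (a (l 16620456) (l 16651968)))) (b (b (b (a (a (c (l 16700872) (l 16695088)) (b (l 16719240) (l 16719648))) (a (c (l 16733352) (l 16744672)) (b (l 16756928) (l 16755240)))) (a (l 16689040) (a (l 16735912) (l 16750776)))) (a (b (l 16709136) (l 16705624)) (b (l 16714560) (l 16723256)))) (b (a (l 16691408) (l 16700240)) (l 16665208))))) (a (b (b (a (b (l 16398880) (b (l 16407496) (l 16417288))) (b (l 16544088) (b (l 16547320) (l 16550624)))) (a (l 16436448) (l 16550384))) (a (l 16498272) (b (l 16566152) (l 16580176)))) (b (a (b (b (l 16624816) (b (l 16616584) (l 16612248))) (l 16597864)) (b (b (l 16640400) (b (l 16627752) (l 16620928))) (l 16601416))) (a (l 16600048) (l 16787664))))) (a (b (b (a (l 16560216) (l 16603160)) (l 16661360)) (b (b (l 16644728) (l 16660560)) (a (l 16646312) (b (l 16680896) (l 2))))) (b (b (a (l 16619248) (l 16718408)) (a (b (l 16636592) (l 16649384)) (a (l 16681680) (l 2)))) (a (b (a (l 16669952) (l 2)) (l 2)) (l 2))))), by decide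 +kernel⟩

def k1_pp_123 : ∃ t, chk3 f_pp_123 t 3 1 1 = true :=
  ⟨(b (a (b (b (a (a (b (c (b (a (l 16762512) (l 16775144)) (l 16755560)) (b (a (l 16786480) (l 16801240)) (l 16780952))) (l 16743360)) (b (b (c (l 16793440) (l 16840080)) (l 16788304)) (l 16760872))) (b (a (b (c (l 16817736) (l 16837400)) (l 16810120)) (a (b (l 16864552) (l 16823112)) (c (l 16828712) (l 16745952)))) (a (l 16778888) (l 16791120)))) (a (b (a (l 16708600) (l 16720824)) (l 16653584)) (b (l 16800544) (a (l 16684744) (l 16687616))))) (b (b (a (b (l 16643616) (b (l 16628272) (l 16619488))) (b (l 16735184) (b (l 16781600) (l 16645240)))) (a (l 16596848) (b (l 16603504) (l 16592208)))) (b (a (l 16592776) (l 16734792)) (a (l 16597632) (l 2))))) (b (b (b (b (a (a (c (a (l 16840960) (l 16839432)) (l 16861264)) (c (l 16830528) (l 16804256))) (a (a (b (l 16773888) (l 16814808)) (b (c (l 16808576) (l 16770624)) (l 16800672))) (a (b (a (c (l 16798264) (l 16779416)) (b (c (l 16793616) (l 16772792)) (l 16789712))) (l 16784728)) (b (a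 (a (a (c (l 16786200) (l 16788424)) (l 6)) (l 6)) (l 6)) (l 314170181367))))) (a (a (l 16827824) (l 16814168)) (a (a (l 16796136) (l 16781512)) (a (l 16764984) (l 320075756391))))) (a (a (l 16789992) (l 16773784)) (a (l 16787424) (b (l 274978593527) (l 2))))) (b (a (l 16783688) (a (l 16675736) (l 2))) (a (a (l 16682120) (l 16633416)) (l 2)))) (a (b (b (b (l 16650384) (l 2)) (l 2)) (l 2)) (l 2)))) (a (b (a (b (a (l 16608184) (l 2)) (l 2)) (l 2)) (l 2)) (l 2))), by decide +kernel⟩

theorem s2_pp_123 : ∃ t, chk3 f_pp_123 t 1 1 1 = true := ex3_a k0_pp_123 k1_pp_123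

theorem c_pp_123 : CertB 536870912 536870912 1610612736 536870912 649613803 48318383 3 eng mog cd0q1 cd4q3 pd2 false true true .npn 1 2 3
    ndB0q1 ndB4q3 pcB2 cut_pp_123 xt_pp_123 :=
  certB1 (fam := false) (s1 := true) (s2 := true) (a := 1) (b := 2) (c := 3) (cn := .npn) (n1 := ndB0q1) (n2 := ndB4q3) (pc := pcB2) (cut := cut_pp_123) (xt := xt_pp_123) (P1 := 536870912) (W1 := 536870912) (P2 := 1610612736) (W2 := 536870912) (P3 := 649613803) (W3 := 48318383) (N0 := 3) (En := eng) (mo := mog) (C1 := cd0q1) (C2 := cd4q3) (C3 := pd2)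
    rfl (fun _ => rfl) s2_pp_123

noncomputable def f_pp_133 : ℕ → ℕ → ℕ → ℕ → Bool := onCell 536870912 536870912 1610612736 536870912 649613803 48318383
    (rowB 3 eng mog cd0q1 cd4q3 pd3 0 false true true .dn 1 3 3 (qsf 536870912 536870912 1610612736 536870912 3) ndB0q1 ndB4q3 pcB3 Cut.none Ext.none)

def k0_pp_133 : ∃ t, chk3 f_pp_133 t 1 1 1 = true :=
  ⟨(a (b (l 1) (a (b (l 1) (a (l 415571993751) (l 1))) (l 1))) (l 1)), by decide +kernel⟩

theorem c_pp_133 : CertB 536870912 536870912 1610612736 536870912 649613803 48318383 3 eng mog cd0q1 cd4q3 pd3 false true true .dn 1 3 3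
    ndB0q1 ndB4q3 pcB3 Cut.none Ext.none :=
  certB0 (fam := false) (s1 := true) (s2 := true) (a := 1) (b := 3) (c := 3) (cn := .dn) (n1 := ndB0q1) (n2 := ndB4q3) (pc := pcB3) (cut := Cut.none) (xt := Ext.none) (P1 := 536870912) (W1 := 536870912) (P2 := 1610612736) (W2 := 536870912) (P3 := 649613803) (W3 := 48318383) (N0 := 3) (En := eng) (mo := mog) (C1 := cd0q1) (C2 := cd4q3) (C3 := pd3)
    rfl k0_pp_133

noncomputable def f_pp_202_a : ℕ → ℕ → ℕ → ℕ → Bool := onCell 0 536870912 0 536870912 649613803 48318383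
    (rowB 3 eng mog cd0q2 cd4q2a pd0 0 false true true .pp 2 0 2 (qsf 0 536870912 0 536870912 0) ndB0q2 ndB4q2a pcB0 Cut.none Ext.none)

def k0_pp_202_a : ∃ t, chk3 f_pp_202_a t 1 1 1 = true :=
  ⟨(l 3), by decide +kernel⟩

theorem c_pp_202_a : CertB 0 536870912 0 536870912 649613803 48318383 3 eng mog cd0q2 cd4q2a pd0 false true true .pp 2 0 2
    ndB0q2 ndB4q2a pcB0 Cut.none Ext.none :=
  certB0 (fam := false) (s1 := true) (s2 := true) (a := 2) (b := 0) (c := 2) (cn := .pp) (n1 := ndB0q2) (n2 := ndB4q2a) (pc := pcB0) (cut := Cut.none) (xt := Ext.none) (P1 := 0) (W1 := 536870912) (P2 := 0) (W2 := 536870912) (P3 := 649613803) (W3 := 48318383) (N0 := 3) (En := eng) (mo := mog) (C1 := cd0q2) (C2 := cd4q2a) (C3 := pd0)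
    rfl k0_pp_202_a

noncomputable def f_pp_202_b : ℕ → ℕ → ℕ → ℕ → Bool := onCell 0 536870912 1239849684 370763052 649613803 48318383
    (rowB 3 eng mog cd0q2 cd4q2b pd0 0 false true true .pp 2 0 2 (qsf 0 536870912 1239849684 370763052 0) ndB0q2 ndB4q2b pcB0 Cut.none Ext.none)

def k0_pp_202_b : ∃ t, chk3 f_pp_202_b t 1 1 1 = true :=
  ⟨(l 3), by decide +kernel⟩

theorem c_pp_202_b : CertB 0 536870912 1239849684 370763052 649613803 48318383 3 eng mog cd0q2 cd4q2b pd0 false true true .pp 2 0 2
    ndB0q2 ndB4q2b pcB0 Cut.none Ext.none :=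
  certB0 (fam := false) (s1 := true) (s2 := true) (a := 2) (b := 0) (c := 2) (cn := .pp) (n1 := ndB0q2) (n2 := ndB4q2b) (pc := pcB0) (cut := Cut.none) (xt := Ext.none) (P1 := 0) (W1 := 536870912) (P2 := 1239849684) (W2 := 370763052) (P3 := 649613803) (W3 := 48318383) (N0 := 3) (En := eng) (mo := mog) (C1 := cd0q2) (C2 := cd4q2b) (C3 := pd0)
    rfl k0_pp_202_b

noncomputable def f_pp_203 : ℕ → ℕ → ℕ → ℕ → Bool := onCell 0 536870912 0 536870912 649613803 48318383
    (rowB 3 eng mog cd0q2 cd4q3 pd0 1 false true true .up 2 0 3 (qsf 0 536870912 1610612736 536870912 0) ndB0q2 ndB4q3 pcB0 Cut.none Ext.none)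

def k0_pp_203 : ∃ t, chk3 f_pp_203 t 1 1 1 = true :=
  ⟨(l 3), by decide +kernel⟩

theorem c_pp_203 : CertB 0 536870912 1610612736 536870912 649613803 48318383 3 eng mog cd0q2 cd4q3 pd0 false true true .up 2 0 3
    ndB0q2 ndB4q3 pcB0 Cut.none Ext.none :=
  certB1 (fam := false) (s1 := true) (s2 := true) (a := 2) (b := 0) (c := 3) (cn := .up) (n1 := ndB0q2) (n2 := ndB4q3) (pc := pcB0) (cut := Cut.none) (xt := Ext.none) (P1 := 0) (W1 := 536870912) (P2 := 1610612736) (W2 := 536870912) (P3 := 649613803) (W3 := 48318383) (N0 := 3) (En := eng) (mo := mog) (C1 := cd0q2) (C2 := cd4q3) (C3 := pd0)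
    rfl (fun _ => rfl) k0_pp_203

noncomputable def cut_pp_213 : Cut := Cut.of [[⟨0, 1, 0, 67108864⟩, ⟨1, 1, 0, 67108864⟩, ⟨2, 2, 0, 16777216⟩]]

noncomputable def f_pp_213 : ℕ → ℕ → ℕ → ℕ → Bool := onCell 0 536870912 1610612736 536870912 649613803 48318383
    (rowB 3 eng mog cd0q2 cd4q3 pd1 0 false true true .pnn 2 1 3 (qsf 0 536870912 1610612736 536870912 1) ndB0q2 ndB4q3 pcB1 cut_pp_213 Ext.none)

def k0_pp_213 : ∃ t, chk3 f_pp_213 t 1 1 1 = true :=
  ⟨(b (l 3) (a (l 3) (b (l 3) (a (l 3) (b (l 3) (a (l 3) (b (l 3) (b (l 3) (b (l 3) (l 6)))))))))), by decide +kernel⟩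

theorem c_pp_213 : CertB 0 536870912 1610612736 536870912 649613803 48318383 3 eng mog cd0q2 cd4q3 pd1 false true true .pnn 2 1 3
    ndB0q2 ndB4q3 pcB1 cut_pp_213 Ext.none :=
  certB0 (fam := false) (s1 := true) (s2 := true) (a := 2) (b := 1) (c := 3) (cn := .pnn) (n1 := ndB0q2) (n2 := ndB4q3) (pc := pcB1) (cut := cut_pp_213) (xt := Ext.none) (P1 := 0) (W1 := 536870912) (P2 := 1610612736) (W2 := 536870912) (P3 := 649613803) (W3 := 48318383) (N0 := 3) (En := eng) (mo := mog) (C1 := cd0q2) (C2 := cd4q3) (C3 := pd1)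
    rfl k0_pp_213

noncomputable def f_pm_001 : ℕ → ℕ → ℕ → ℕ → Bool := onCell 0 536870912 536870912 536870912 649613803 48318383
    (rowB 3 eng mog cd0q0 cd4q1 pd0 0 false true false .up 0 0 1 (qsf 0 536870912 536870912 536870912 0) ndB0q0 ndB4q1 pcB0 Cut.none Ext.none)

def k0_pm_001 : ∃ t, chk3 f_pm_001 t 1 1 1 = true :=
  ⟨(l 4), by decide +kernel⟩

theorem c_pm_001 : CertB 0 536870912 536870912 536870912 649613803 48318383 3 eng mog cd0q0 cd4q1 pd0 false true false .up 0 0 1
    ndB0q0 ndB4q1 pcB0 Cut.none Ext.none :=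
  certB0 (fam := false) (s1 := true) (s2 := false) (a := 0) (b := 0) (c := 1) (cn := .up) (n1 := ndB0q0) (n2 := ndB4q1) (pc := pcB0) (cut := Cut.none) (xt := Ext.none) (P1 := 0) (W1 := 536870912) (P2 := 536870912) (W2 := 536870912) (P3 := 649613803) (W3 := 48318383) (N0 := 3) (En := eng) (mo := mog) (C1 := cd0q0) (C2 := cd4q1) (C3 := pd0)
    rfl k0_pm_001

noncomputable def f_pm_011 : ℕ → ℕ → ℕ → ℕ → Bool := onCell 0 536870912 536870912 536870912 649613803 48318383
    (rowB 3 eng mog cd0q0 cd4q1 pd1 0 false true false .pnn 0 1 1 (qsf 0 536870912 536870912 536870912 1) ndB0q0 ndB4q1 pcB1 Cut.none Ext.none)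

def k0_pm_011 : ∃ t, chk3 f_pm_011 t 1 1 1 = true :=
  ⟨(l 4), by decide +kernel⟩

theorem c_pm_011 : CertB 0 536870912 536870912 536870912 649613803 48318383 3 eng mog cd0q0 cd4q1 pd1 false true false .pnn 0 1 1
    ndB0q0 ndB4q1 pcB1 Cut.none Ext.none :=
  certB0 (fam := false) (s1 := true) (s2 := false) (a := 0) (b := 1) (c := 1) (cn := .pnn) (n1 := ndB0q0) (n2 := ndB4q1) (pc := pcB1) (cut := Cut.none) (xt := Ext.none) (P1 := 0) (W1 := 536870912) (P2 := 536870912) (W2 := 536870912) (P3 := 649613803) (W3 := 48318383) (N0 := 3) (En := eng) (mo := mog) (C1 := cd0q0) (C2 := cd4q1) (C3 := pd1)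
    rfl k0_pm_011

noncomputable def cut_pm_012_a : Cut := Cut.of [[⟨0, 0, 0, 67108864⟩, ⟨1, 1, 0, 67108864⟩, ⟨2, 1, 0, 67108864⟩]]

noncomputable def f_pm_012_a : ℕ → ℕ → ℕ → ℕ → Bool := onCell 536870912 536870912 0 536870912 649613803 48318383
    (rowB 3 eng mog cd0q0 cd4q2a pd1 2 false true false .pnp 0 1 2 (qsf 0 536870912 0 536870912 1) ndB0q0 ndB4q2a pcB1 cut_pm_012_a Ext.none)

def k0_pm_012_a : ∃ t, chk3 f_pm_012_a t 2 1 1 = true :=
  ⟨(b (a (a (l 2) (b (l 2) (b (l 2) (l 16484368)))) (a (b (a (l 16413912) (l 16403256)) (a (b (l 16378896) (l 16359648)) (b (l 16374304) (l 16361040)))) (b (a (l 16392512) (l 16380000)) (a (b (l 16369520) (l 16361024)) (b (l 16362304) (l 16358360)))))) (a (b (a (l 2) (b (a (l 2) (l 16337192)) (a (l 16305392) (l 16323968)))) (a (b (a (l 2) (l 16371392)) (a (b (l 40902050519) (b (a (l 16313488) (l 16321960)) (a (b (l 16321848) (c (a (l 16329944) (l 16334120)) (l 16322592))) (a (l 16330920) (l 16334872))))) (b (a (l 16313928) (l 16321112)) (b (a (l 16329680) (l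 16336960)) (a (c (l 16344368) (l 16336536)) (l 16348000)))))) (b (a (l 16385152) (b (l 16321200) (l 16324440))) (b (a (l 16394200) (l 16366208)) (b (a (l 16410176) (l 16385184)) (a (a (l 16355456) (l 16363288)) (a (l 16372416) (l 16383240)))))))) (b (a (b (a (l 16346448) (l 16355016)) (a (l 16448240) (b (l 16356496) (l 16361360)))) (b (a (l 16360560) (l 16363264)) (a (l 16444352) (l 16463920)))) (a (b (a (b (l 16348000) (l 16355656)) (b (l 16369696) (l 16381352))) (b (a (l 16367024) (l 16417520)) (a (b (l 16385896) (a (l 16395360) (l 16408624))) (b (l 16412616) (a (l 16422768) (l 16427160)))))) (b (a (b (l 16386912) (l 16423696)) (b (l 16402056) (l 16443648))) (b (a (l 16454272) (l 16490136)) (a (b (l 16463152) (a (b (l 16448224) (l 16457408)) (l 16468064))) (b (l 16472016) (a (l 16483104) (l 16497904)))))))))), by decide +kernel⟩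

def k1_pm_012_a : ∃ t, chk3 f_pm_012_a t 3 2 1 = true :=
  ⟨(a (a (b (a (b (l 16371320) (l 16359640)) (b (l 16354296) (l 16344784))) (a (b (l 16352752) (l 16353400)) (b (l 16341840) (l 16347384)))) (b (a (a (l 16337328) (l 16393360)) (b (l 16325576) (l 16321688))) (a (b (a (l 16333264) (l 16329016)) (a (l 16342696) (l 16341048))) (b (l 16326568) (a (l 16341848) (l 16343096)))))) (a (b (a (b (l 16316520) (l 16315504)) (b (l 16308160) (l 16310160))) (a (b (l 16366384) (a (l 16344656) (l 16346480))) (b (a (l 16323456) (l 16322872)) (a (l 16348368) (l 16350280))))) (b (a (b (a (l 16301888) (l 16297584)) (a (l 16306200) (l 16303440))) (b (a (l 16293016) (l 16288040)) (a (l 16300416) (b (l 16293048) (l 16300592))))) (a (b (a (l 16322256) (l 16321448)) (a (l 16352048) (l 16374536))) (b (a (l 16362288) (b (l 16311448) (l 16325824))) (a (b (l 16343992) (l 16365088)) (b (l 16343992) (l 16366224)))))))), by decide +kernel⟩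

def k2_pm_012_a : ∃ t, chk3 f_pm_012_a t 6 3 1 = true :=
  ⟨(b (a (b (a (l 16364032) (l 16427184)) (a (b (l 16380104) (l 16396120)) (b (l 16386040) (l 16406480)))) (b (a (a (l 16364560) (l 16366200)) (b (l 16362840) (l 16381880))) (a (a (l 16402752) (l 16450320)) (b (l 16405568) (l 16434528))))) (a (b (a (b (l 16416800) (l 16463624)) (b (l 16432112) (l 16463376))) (b (a (l 16516000) (l 16563640)) (a (b (l 16511456) (a (l 16512408) (l 16526720))) (b (l 16529224) (a (l 16541064) (l 16555632)))))) (b (a (b (a (l 16443944) (l 16452912)) (a (l 16479184) (l 16511440))) (b (l 16490040) (l 16509720))) (b (a (c (l 16592952) (l 16580600)) (b (l 16544264) (l 16566440))) (a (a (b (l 16550896) (l 16570672)) (b (l 16565448) (b (l 16580520) (l 16590800)))) (b (a (b (l 16574360) (l 16584472)) (l 16593704)) (b (a (l 16594760) (l 16609336)) (a (l 16605224) (a (l 16616288) (l 16623808)))))))))), by decide +kernel⟩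

def k3_pm_012_a : ∃ t, chk3 f_pm_012_a t 7 6 1 = true :=
  ⟨(a (a (b (b (l 16370496) (l 16392896)) (b (l 16420056) (l 16452512))) (b (b (l 16378560) (l 16403976)) (b (l 16434320) (l 16511904)))) (a (b (a (l 16419064) (b (l 16387608) (l 16416392))) (b (a (l 16444168) (l 16450160)) (a (l 16481952) (l 16489352)))) (b (a (b (l 16390488) (l 16420552)) (b (l 16392832) (l 16445120))) (a (b (l 16455616) (l 16517144)) (b (a (l 16459336) (l 16461640)) (a (l 16500896) (l 16503856))))))), by decide +kernel⟩

def k4_pm_012_a : ∃ t, chk3 f_pm_012_a t 7 7 1 = true :=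
  ⟨(a (b (a (b (l 16532624) (l 16556064)) (b (a (l 16506312) (l 16516184)) (a (l 16574112) (l 16606544)))) (b (a (a (l 16577808) (l 16592304)) (a (l 16627712) (l 16640800))) (b (a (b (a (l 16603112) (l 16618184)) (a (l 16613656) (l 16628976))) (a (b (l 16633800) (l 16644840)) (b (l 16629040) (l 16661320)))) (a (b (a (l 16624384) (l 16639952)) (a (b (l 16632552) (l 16659040)) (b (l 16648304) (a (l 16649920) (l 16658000))))) (b (a (l 16677048) (a (l 16668592) (l 16677136))) (a (b (l 16685600) (a (l 16676720) (c (l 16676696) (l 16672432)))) (b (a (l 16677296) (l 16685952)) (a (b (l 16681704) (l 16695144)) (a (l 16689712) (l 16704616)))))))))) (b (a (b (a (l 16525568) (l 16555352)) (a (b (l 16562136) (l 16588776)) (b (l 16572080) (l 16599464)))) (a (b (a (l 16540608) (l 16544576)) (b (l 16581408) (a (l 16607040) (l 16611856)))) (b (a (l 16569368) (b (l 16539136) (l 16564784))) (a (b (l 16587896) (l 16616472)) (b (l 16591984) (l 6)))))) (a (a (a (b (l 16629248) (b (l 16668368) (b (l 16685864) (b (l 16694808)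 (b (l 16699328) (c (l 16704000) (l 16700640))))))) (b (l 16656304) (b (l 16677072) (b (l 16694800) (l 6))))) (b (b (a (l 16625816) (l 16631376)) (l 16659592)) (b (a (l 16685976) (l 6)) (l 6)))) (b (a (b (a (l 16636728) (l 6)) (l 6)) (l 6)) (l 6))))), by decide +kernel⟩

theorem s5_pm_012_a : ∃ t, chk3 f_pm_012_a t 7 3 1 = true := ex3_b k3_pm_012_a k4_pm_012_a

theorem s6_pm_012_a : ∃ t, chk3 f_pm_012_a t 3 3 1 = true := ex3_a k2_pm_012_a s5_pm_012_a

theorem s7_pm_012_a : ∃ t, chk3 f_pm_012_a t 3 1 1 = true := ex3_b k1_pm_012_a s6_pm_012_a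

theorem s8_pm_012_a : ∃ t, chk3 f_pm_012_a t 1 1 1 = true := ex3_a k0_pm_012_a s7_pm_012_a

theorem c_pm_012_a : CertB 0 536870912 0 536870912 649613803 48318383 3 eng mog cd0q0 cd4q2a pd1 false true false .pnp 0 1 2
    ndB0q0 ndB4q2a pcB1 cut_pm_012_a Ext.none :=
  certB2 (fam := false) (s1 := true) (s2 := false) (a := 0) (b := 1) (c := 2) (cn := .pnp) (n1 := ndB0q0) (n2 := ndB4q2a) (pc := pcB1) (cut := cut_pm_012_a) (xt := Ext.none) (P1 := 0) (W1 := 536870912) (P2 := 0) (W2 := 536870912) (P3 := 649613803) (W3 := 48318383) (N0 := 3) (En := eng) (mo := mog) (C1 := cd0q0) (C2 := cd4q2a) (C3 := pd1)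
    rfl (fun _ => rfl) s8_pm_012_a

noncomputable def cut_pm_012_b : Cut := Cut.of [[⟨0, 0, 0, 67108864⟩, ⟨1, 1, 0, 67108864⟩, ⟨2, 1, 0, 67108864⟩]]

noncomputable def f_pm_012_b : ℕ → ℕ → ℕ → ℕ → Bool := onCell 0 536870912 536870912 536870912 649613803 48318383
    (rowB 3 eng mog cd0q0 cd4q2b pd1 1 false true false .pnp 0 1 2 (qsf 0 536870912 1239849684 370763052 1) ndB0q0 ndB4q2b pcB1 cut_pm_012_b Ext.none)

def k0_pm_012_b : ∃ t, chk3 f_pm_012_b t 2 1 1 = true :=
  ⟨(b (l 1) (a (l 1) (b (l 1) (a (b (l 1) (b (a (l 1) (b (l 1) (l 16352728))) (a (b (l 1) (a (l 1) (l 16325576))) (b (a (l 16329304) (l 16289016)) (a (l 16283152) (l 16243600)))))) (b (a (b (l 1) (a (l 1) (l 16356592))) (b (l 16416776) (b (l 16324848) (l 16289312)))) (b (a (b (l 16317240) (l 16276656)) (b (l 16252104) (l 16213280))) (a (b (a (l 16251680) (l 16217552)) (a (l 16207120) (l 16173976))) (b (a (l 16186848) (l 16159760)) (a (l 16144376) (l 16118528)))))))))), by decide +kernel⟩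

def k1_pm_012_b : ∃ t, chk3 f_pm_012_b t 3 1 1 = true :=
  ⟨(b (a (l 1) (b (l 1) (a (b (l 1) (a (b (l 1) (l 16406224)) (l 16406296))) (b (a (l 59625590023) (l 16426040)) (a (l 16403080) (l 16407040)))))) (a (b (a (b (l 1) (a (b (l 1) (l 16375368)) (b (b (l 1) (l 16365344)) (l 16328040)))) (b (a (b (l 1) (l 16387296)) (b (l 16397200) (l 16359472))) (a (b (b (l 16352536) (l 16328480)) (l 16293440)) (b (l 16314520) (l 16270512))))) (a (b (a (b (l 16317400) (l 16294904)) (b (l 16273072) (l 16212784))) (a (b (a (l 16193752) (l 16172408)) (b (l 16189336) (a (l 16096648) (l 16078888)))) (b (a (l 16154904) (l 16141200)) (b (a (l 16101936) (l 16090624)) (a (l 16065256) (l 16055672)))))) (b (a (b (l 16242296) (a (l 16192048) (l 16182112))) (b (l 16223648) (l 16173296))) (a (b (a (l 16131328) (l 16124368)) (a (b (l 16083248) (l 16050088)) (l 16063168))) (b (l 16119864) (a (l 16062640) (l 16065072))))))) (b (a (b (a (l 16361200) (l 16351632)) (a (b (l 16299400) (l 16258840)) (b (l 16293808) (l 16257136))))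 (b (a (l 16350408) (l 16357936)) (a (l 16281568) (l 16297304)))) (a (b (a (b (l 16216456) (l 16171336)) (l 16199608)) (a (b (l 16123712) (a (l 16069992) (l 16076296))) (b (l 16135824) (l 16086856)))) (b (a (l 16213560) (l 16235616)) (a (b (l 16153072) (l 16106392)) (l 16157904))))))), by decide +kernel⟩

theorem s2_pm_012_b : ∃ t, chk3 f_pm_012_b t 1 1 1 = true := ex3_a k0_pm_012_b k1_pm_012_b

theorem c_pm_012_b : CertB 0 536870912 1239849684 370763052 649613803 48318383 3 eng mog cd0q0 cd4q2b pd1 false true false .pnp 0 1 2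
    ndB0q0 ndB4q2b pcB1 cut_pm_012_b Ext.none :=
  certB1 (fam := false) (s1 := true) (s2 := false) (a := 0) (b := 1) (c := 2) (cn := .pnp) (n1 := ndB0q0) (n2 := ndB4q2b) (pc := pcB1) (cut := cut_pm_012_b) (xt := Ext.none) (P1 := 0) (W1 := 536870912) (P2 := 1239849684) (W2 := 370763052) (P3 := 649613803) (W3 := 48318383) (N0 := 3) (En := eng) (mo := mog) (C1 := cd0q0) (C2 := cd4q2b) (C3 := pd1)
    rfl (fun _ => rfl) s2_pm_012_b

noncomputable def cut_pm_022_a : Cut := Cut.of [[⟨0, 0, 0, 67108864⟩, ⟨1, 1, 0, 67108864⟩, ⟨2, 1, 0, 67108864⟩]]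

noncomputable def f_pm_022_a : ℕ → ℕ → ℕ → ℕ → Bool := onCell 1073741824 536870912 0 536870912 649613803 48318383
    (rowB 3 eng mog cd0q0 cd4q2a pd2 2 false true false .pp 0 2 2 (qsf 0 536870912 0 536870912 2) ndB0q0 ndB4q2a pcB2 cut_pm_022_a Ext.none)

def k0_pm_022_a : ∃ t, chk3 f_pm_022_a t 2 1 1 = true :=
  ⟨(a (b (a (b (a (b (a (b (l 16286016) (l 16288536)) (l 16327720)) (a (c (l 16309440) (l 16287816)) (l 16360800))) (b (a (l 16325472) (l 16343696)) (a (l 16338496) (l 16357592)))) (a (b (a (b (l 16314848) (l 16330512)) (b (l 16335896) (l 16352048))) (a (b (c (l 16358784) (l 16341192)) (c (l 16381656) (l 16365488))) (b (l 16372064) (l 16396176)))) (b (a (l 16385688) (l 16384696)) (a (b (l 16393384) (l 16417960)) (b (l 16414048) (l 16439040)))))) (b (a (b (a (l 16361480) (l 16378832)) (a (l 16376176) (l 16394248))) (b (a (l 16395712) (l 16411968)) (a (l 16411776) (l 16428736)))) (a (b (a (l 16404104) (l 16422896)) (a (l 16467800) (b (l 16453424) (l 16479840)))) (a (b (l 16462336) (b (l 16473392)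 (l 4))) (b (l 16459936) (l 4)))))) (a (b (a (b (a (b (c (l 16408896) (l 16394256)) (a (l 16428376) (l 16440352))) (b (l 16424672) (l 16457928))) (b (a (a (l 16466064) (l 16478256)) (l 16527568)) (a (a (l 16530264) (l 16521664)) (a (l 16533776) (l 16545664))))) (b (a (b (l 16446920) (l 16480544)) (b (l 16468376) (l 16502376))) (a (b (l 16540048) (a (l 16557304) (l 16590088))) (a (b (l 16535928) (l 16581640)) (b (l 16568728) (l 4)))))) (a (b (b (a (a (b (l 16545272) (l 16571376)) (l 16591848)) (a (l 16604096) (b (l 16581960) (l 16608288)))) (l 6)) (l 6)) (b (b (a (a (b (l 16593928) (l 16642144)) (b (l 16606936) (l 4))) (l 4)) (l 4)) (l 4)))) (b (b (a (a (b (l 16489368) (a (l 16518888) (l 16530592))) (b (l 16511336) (l 4))) (l 4)) (l 4)) (l 4)))) (b (a (b (a (b (a (l 16427488) (a (l 16438720) (l 16446000))) (a (l 16445512) (l 4))) (l 4)) (l 4)) (l 1)) (l 4))), by decide +kernel⟩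

def k1_pm_022_a : ∃ t, chk3 f_pm_022_a t 3 1 1 = true :=
  ⟨(l 1), by decide +kernel⟩

theorem s2_pm_022_a : ∃ t, chk3 f_pm_022_a t 1 1 1 = true := ex3_a k0_pm_022_a k1_pm_022_a

theorem c_pm_022_a : CertB 0 536870912 0 536870912 649613803 48318383 3 eng mog cd0q0 cd4q2a pd2 false true false .pp 0 2 2
    ndB0q0 ndB4q2a pcB2 cut_pm_022_a Ext.none :=
  certB2 (fam := false) (s1 := true) (s2 := false) (a := 0) (b := 2) (c := 2) (cn := .pp) (n1 := ndB0q0) (n2 := ndB4q2a) (pc := pcB2) (cut := cut_pm_022_a) (xt := Ext.none) (P1 := 0) (W1 := 536870912) (P2 := 0) (W2 := 536870912) (P3 := 649613803) (W3 := 48318383) (N0 := 3) (En := eng) (mo := mog) (C1 := cd0q0) (C2 := cd4q2a) (C3 := pd2)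
    rfl (fun _ => rfl) s2_pm_022_a

noncomputable def cut_pm_022_b : Cut := Cut.of [[⟨0, 0, 0, 67108864⟩, ⟨1, 1, 0, 67108864⟩, ⟨2, 1, 0, 67108864⟩]]

noncomputable def f_pm_022_b : ℕ → ℕ → ℕ → ℕ → Bool := onCell 1073741824 536870912 1239849684 370763052 649613803 48318383
    (rowB 3 eng mog cd0q0 cd4q2b pd2 2 false true false .pp 0 2 2 (qsf 0 536870912 1239849684 370763052 2) ndB0q0 ndB4q2b pcB2 cut_pm_022_b Ext.none)

def k0_pm_022_b : ∃ t, chk3 f_pm_022_b t 2 2 1 = true :=
  ⟨(a (b (a (b (a (a (b (a (c (l 16265664) (l 16238536)) (l 16261376)) (a (c (l 16215080) (l 16181984)) (l 16207432))) (b (a (l 16270640) (l 16279752)) (l 16241688))) (a (b (l 16293200) (l 16237976)) (b (l 16310736) (l 16254816)))) (a (a (b (a (b (l 16162128) (l 16139992)) (l 16159336)) (c (l 16178384) (l 16091568))) (b (l 16171824) (l 16150056))) (a (b (l 16188104) (l 16144040)) (b (l 16204048) (l 16158792))))) (b (a (a (b (l 16327864) (l 16271328)) (b (l 16344656) (l 16287552))) (a (b (l 16361040) (l 16303480)) (b (l 16376896)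 (l 16318960)))) (a (a (l 16258864) (l 16210960)) (a (l 16225824) (l 16240400))))) (a (a (b (b (a (b (l 16108520) (l 16093328)) (l 16093048)) (a (b (l 16101040) (l 16047808)) (l 16064248))) (b (a (c (l 16067296) (l 16002064)) (l 16043048)) (a (c (l 16122512) (l 15987616)) (l 16029320)))) (b (b (a (l 16106312) (l 16119528)) (a (l 16075448) (l 16086744))) (a (b (l 16051824) (l 16035664)) (b (l 16060928) (l 16042344))))) (b (a (a (l 16198632) (l 16127224)) (a (l 16139784) (l 16152416))) (a (a (l 16205952) (l 16067608)) (a (l 16076784) (l 16086208)))))) (a (b (a (b (a (b (l 16392024) (l 16333840)) (b (l 16427304) (l 16347952))) (b (l 16286816) (l 16236952))) (a (b (b (l 4) (l 16382608)) (l 16407000)) (l 4))) (a (b (l 16254872) (l 16100872)) (b (a (l 16188776) (l 16200056)) (a (l 16115232) (l 16124912))))) (b (l 4) (a (b (l 4) (l 16158816)) (l 4))))), by decide +kernel⟩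

def k1_pm_022_b : ∃ t, chk3 f_pm_022_b t 2 3 1 = true :=
  ⟨(a (b (a (b (a (b (a (a (l 16018736) (l 16020216)) (l 16022728)) (a (b (l 16020672) (l 16023264)) (l 16022720))) (b (a (l 16026592) (l 16030960)) (a (l 16024168) (l 16026216)))) (a (b (a (l 16029072) (l 16027832)) (a (l 16037480) (l 16034768))) (b (a (l 16027288) (l 16027208)) (l 16031792)))) (b (a (b (l 16038240) (l 16030272)) (a (l 16040264) (l 16045544))) (a (b (l 16028184) (l 16029784)) (b (l 16030880) (l 16029648))))) (a (b (a (b (l 16087824) (l 16143048)) (b (l 16039560) (l 16049040))) (a (a (b (l 16080704) (l 16105840)) (l 16122976)) (b (l 16062104) (l 16078392)))) (b (a (b (l 16034976) (l 16043392)) (l 16035088)) (a (b (l 16054320) (l 16066048)) (l 16053224))))) (a (b (b (a (l 16053768) (l 16108944)) (a (l 16032552) (l 16205600))) (a (b (l 16032360) (l 16046872)) (b (l 16030744) (l 16043184)))) (b (a (b (l 16080408) (l 16044816)) (b (l 16090232) (l 16049184))) (b (a (l 16032664) (l 16028520)) (a (l 16041848) (l 16033744)))))), by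 decide +kernel⟩

def k2_pm_022_b : ∃ t, chk3 f_pm_022_b t 3 1 1 = true :=
  ⟨(a (b (l 4) (a (b (l 4) (a (l 16227104) (l 114587090471))) (l 4))) (l 4)), by decide +kernel⟩

theorem s3_pm_022_b : ∃ t, chk3 f_pm_022_b t 2 1 1 = true := ex3_b k0_pm_022_b k1_pm_022_b

theorem s4_pm_022_b : ∃ t, chk3 f_pm_022_b t 1 1 1 = true := ex3_a s3_pm_022_b k2_pm_022_b

theorem c_pm_022_b : CertB 0 536870912 1239849684 370763052 649613803 48318383 3 eng mog cd0q0 cd4q2b pd2 false true false .pp 0 2 2
    ndB0q0 ndB4q2b pcB2 cut_pm_022_b Ext.none :=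
  certB2 (fam := false) (s1 := true) (s2 := false) (a := 0) (b := 2) (c := 2) (cn := .pp) (n1 := ndB0q0) (n2 := ndB4q2b) (pc := pcB2) (cut := cut_pm_022_b) (xt := Ext.none) (P1 := 0) (W1 := 536870912) (P2 := 1239849684) (W2 := 370763052) (P3 := 649613803) (W3 := 48318383) (N0 := 3) (En := eng) (mo := mog) (C1 := cd0q0) (C2 := cd4q2b) (C3 := pd2)
    rfl (fun _ => rfl) s4_pm_022_b

noncomputable def f_pm_023 : ℕ → ℕ → ℕ → ℕ → Bool := onCell 0 536870912 1073741824 536870912 649613803 48318383
    (rowB 3 eng mog cd0q0 cd4q3 pd2 1 false true false .up 0 2 3 (qsf 0 536870912 1610612736 536870912 2) ndB0q0 ndB4q3 pcB2 Cut.none Ext.none)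

def k0_pm_023 : ∃ t, chk3 f_pm_023 t 1 1 1 = true :=
  ⟨(b (a (b (l 1) (a (l 1) (b (l 1) (a (l 1) (l 16043928))))) (a (b (a (l 1) (b (l 1) (l 223907725751))) (b (a (l 375305318631) (b (l 16035640) (l 16046640))) (a (l 16036760) (l 16080184)))) (b (a (b (a (l 1) (l 198674614935)) (a (l 16040664) (l 16054440))) (b (a (l 99353541031) (b (l 16162088) (l 16088328))) (a (l 16074224) (a (l 16096760) (l 16116152))))) (a (b (b (l 16063208) (l 16079792)) (b (l 16112512) (l 16141848))) (b (b (a (l 16093608) (l 16127416)) (a (l 16112776) (l 16140416))) (b (l 16152568) (l 16183912))))))) (a (a (l 4) (b (b (a (l 240013676407) (l 15999360)) (a (l 4) (b (l 15972216) (l 15945496)))) (b (l 4) (l 4)))) (b (a (b (a (l 16047720) (l 16119496)) (a (b (l 16050864) (l 16044376)) (l 16132000))) (b (a (l 16166368) (l 16270064)) (a (l 16282568) (l 16581056)))) (a (b (a (l 16082640) (l 16290688)) (a (l 192970794679) (l 16428440))) (a (b (l 16421656) (l 16528800)) (b (l 16510928) (l 16600504))))))), by decide +kernel⟩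

theorem c_pm_023 : CertB 0 536870912 1610612736 536870912 649613803 48318383 3 eng mog cd0q0 cd4q3 pd2 false true false .up 0 2 3
    ndB0q0 ndB4q3 pcB2 Cut.none Ext.none :=
  certB1 (fam := false) (s1 := true) (s2 := false) (a := 0) (b := 2) (c := 3) (cn := .up) (n1 := ndB0q0) (n2 := ndB4q3) (pc := pcB2) (cut := Cut.none) (xt := Ext.none) (P1 := 0) (W1 := 536870912) (P2 := 1610612736) (W2 := 536870912) (P3 := 649613803) (W3 := 48318383) (N0 := 3) (En := eng) (mo := mog) (C1 := cd0q0) (C2 := cd4q3) (C3 := pd2)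
    rfl (fun _ => rfl) k0_pm_023

noncomputable def f_pm_033 : ℕ → ℕ → ℕ → ℕ → Bool := onCell 1610612736 536870912 1610612736 536870912 649613803 48318383
    (rowB 3 eng mog cd0q0 cd4q3 pd3 2 false true false .pnn 0 3 3 (qsf 0 536870912 1610612736 536870912 3) ndB0q0 ndB4q3 pcB3 Cut.none Ext.none)

def k0_pm_033 : ∃ t, chk3 f_pm_033 t 1 1 1 = true :=
  ⟨(a (b (l 4) (a (b (a (b (a (l 16353000) (l 4)) (a (l 16471160) (l 16457064))) (l 4)) (a (b (l 16738912) (l 16617136)) (b (l 16279584) (a (l 16596808) (l 16584728))))) (b (l 4) (a (l 160759278951) (l 4))))) (l 4)), by decide +kernel⟩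

theorem c_pm_033 : CertB 0 536870912 1610612736 536870912 649613803 48318383 3 eng mog cd0q0 cd4q3 pd3 false true false .pnn 0 3 3
    ndB0q0 ndB4q3 pcB3 Cut.none Ext.none :=
  certB2 (fam := false) (s1 := true) (s2 := false) (a := 0) (b := 3) (c := 3) (cn := .pnn) (n1 := ndB0q0) (n2 := ndB4q3) (pc := pcB3) (cut := Cut.none) (xt := Ext.none) (P1 := 0) (W1 := 536870912) (P2 := 1610612736) (W2 := 536870912) (P3 := 649613803) (W3 := 48318383) (N0 := 3) (En := eng) (mo := mog) (C1 := cd0q0) (C2 := cd4q3) (C3 := pd3)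
    rfl (fun _ => rfl) k0_pm_033

noncomputable def f_pm_101 : ℕ → ℕ → ℕ → ℕ → Bool := onCell 536870912 536870912 536870912 536870912 649613803 48318383
    (rowB 3 eng mog cd0q1 cd4q1 pd0 0 false true false .npn 1 0 1 (qsf 536870912 536870912 536870912 536870912 0) ndB0q1 ndB4q1 pcB0 Cut.none Ext.none)

def k0_pm_101 : ∃ t, chk3 f_pm_101 t 1 1 1 = true :=
  ⟨(l 4), by decide +kernel⟩

theorem c_pm_101 : CertB 536870912 536870912 536870912 536870912 649613803 48318383 3 eng mog cd0q1 cd4q1 pd0 false true false .npn 1 0 1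
    ndB0q1 ndB4q1 pcB0 Cut.none Ext.none :=
  certB0 (fam := false) (s1 := true) (s2 := false) (a := 1) (b := 0) (c := 1) (cn := .npn) (n1 := ndB0q1) (n2 := ndB4q1) (pc := pcB0) (cut := Cut.none) (xt := Ext.none) (P1 := 536870912) (W1 := 536870912) (P2 := 536870912) (W2 := 536870912) (P3 := 649613803) (W3 := 48318383) (N0 := 3) (En := eng) (mo := mog) (C1 := cd0q1) (C2 := cd4q1) (C3 := pd0)
    rfl k0_pm_101

noncomputable def cut_pm_102_a : Cut := Cut.of [[⟨0, 1, 0, 67108864⟩, ⟨1, 0, 0, 67108864⟩, ⟨2, 1, 0, 67108864⟩], [⟨0, 0, 1, 20971520⟩, ⟨1, 1, 2, 20971520⟩, ⟨2, 1, 0, 33554432⟩]]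

noncomputable def xt_pm_102_a : Ext := extD2 3 ⟨7, 3, 3, 10, 377, 200, 77, 100, 17, 50, 3, 16⟩ eng cd0q1 cd4q2a pd0 false true false .npp 1 0 2 rfl ndB0q1 ndB4q2a pcB0

noncomputable def f_pm_102_a : ℕ → ℕ → ℕ → ℕ → Bool := onCell 536870912 536870912 0 536870912 649613803 48318383
    (rowB 3 eng mog cd0q1 cd4q2a pd0 0 false true false .npp 1 0 2 (qsf 536870912 536870912 0 536870912 0) ndB0q1 ndB4q2a pcB0 cut_pm_102_a xt_pm_102_a)

def k0_pm_102_a : ∃ t, chk3 f_pm_102_a t 2 2 1 = true :=
  ⟨(a (a (l 2) (b (l 2) (l 16459056))) (a (b (l 16487672) (a (l 16444712) (l 16491176))) (b (l 16578576) (a (l 16539344) (l 16626232))))), by decide +kernel⟩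

def k1_pm_102_a : ∃ t, chk3 f_pm_102_a t 8 3 1 = true :=
  ⟨(b (l 2) (b (a (l 2) (b (l 16430920) (l 16428264))) (b (a (b (l 16440016) (a (l 2) (l 16442848))) (b (l 16451240) (a (l 16492032) (l 141475637924659247)))) (c (b (a (a (l 141376819308789807) (l 141298341679939631)) (a (l 141167980853379119) (l 141447256836948015))) (a (b (a (l 291351122668369546950393903) (l 140953782232383535)) (a (c (b (l 140976665823887407) (a (l 140975222713843759) (l 140990684604809263))) (a (l 140877778456789039) (l 140885612484640815))) (c (b (l 141019959113973807) (a (l 141015698504908847) (l 141051020328517679))) (a (l 140902586204717103) (l 140929386811883567))))) (b (a (l 141023532526272559) (a (l 141110875006648367) (l 141187703402086447))) (a (c (b (l 141107645194584111) (a (l 141098711660331055) (l 141160765365534767))) (a (l 140968075890819119) (l 141020577587216431))) (a (b (l 141143997804494895) (c (b (l 141231134128373807) (l 141245496503042095)) (l 141098986532765743))) (b (l 141228454063456303) (c (a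 (l 141307206608650287) (l 141358540070469679)) (l 141184885901279279)))))))) (a (b (a (l 141140424238874671) (l 141308237211631663)) (b (a (l 140752296637268015) (l 140754289515544623)) (a (a (l 140738965059141679) (l 140736697322487855)) (a (l 140743156961148975) (l 140759099889451055))))) (a (b (l 140791329325154351) (b (l 140795589942231087) (a (l 140786381533626415) (b (l 140822940307308591) (l 140831049210462255))))) (b (l 140861491937329199) (b (l 141068131417948207) (a (b (l 140875304565342255) (l 140888017674338351)) (a (l 140932479187648559) (l 141151625609789487))))))))))), by decide +kernel⟩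

def k2_pm_102_a : ∃ t, chk3 f_pm_102_a t 18 6 1 = true :=
  ⟨(b (l 2) (l 16451704)), by decide +kernel⟩

def k3_pm_102_a : ∃ t, chk3 f_pm_102_a t 18 14 1 = true :=
  ⟨(b (l 16443856) (l 16447640)), by decide +kernel⟩

def k4_pm_102_a : ∃ t, chk3 f_pm_102_a t 18 30 1 = true :=
  ⟨(b (l 16477120) (a (l 141404375859265583) (b (l 16473336) (l 16479808)))), by decide +kernel⟩

def k5_pm_102_a : ∃ t, chk3 f_pm_102_a t 36 31 1 = true :=
  ⟨(b (c (b (l 141216840465006639) (l 141270441671475247)) (l 141165644377964591)) (b (c (a (l 141280543438618671) (l 141390494628036655)) (a (l 140995907278471215) (l 141088128840433711))) (c (a (b (l 141329884036349999) (b (l 141627095780507695) (c (a (l 141424235906367535) (l 141485533694197807)) (l 141477012425179183)))) (b (l 141449318515507247) (a (c (c (l 141760342906060847) (l 141499689907142703)) (l 141377644081053743)) (b (l 141515564107382831) (c (a (l 141604555855626287) (l 141821503252135983)) (l 141454266316079151)))))) (a (b (l 141026418736988207) (c (l 141129910299770927)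 (l 140969244117499951))) (b (l 141127367674249263) (b (l 141149357913653295) (a (l 141136026332741679) (l 141465398799384623)))))))), by decide +kernel⟩

def k6_pm_102_a : ∃ t, chk3 f_pm_102_a t 37 31 1 = true :=
  ⟨(b (b (l 141645856164823087) (a (l 141290645192966191) (l 141413172049559599))) (b (a (c (l 141698220474875951) (l 141198080030687279)) (c (b (l 141634173949886511) (l 141681590400712751)) (l 141504843805163567))) (a (b (c (a (l 141551504401203247) (l 141624484502519855)) (a (l 141215191187259439) (l 141280268547342383))) (a (c (b (l 141587650855141423) (c (c (a (l 141721997470695471) (l 141761992215167023)) (l 141746186706550831)) (c (l 141569577626927151) (l 141482097708662831)))) (c (l 141339023718760495) (l 141160284311437359))) (c (b (l 141843699643072559) (a (b (l 141844730435715119) (c (a (a (l 141931591878950959) (l 141761373737402415)) (l 141956330896425007)) (l 141589162680418351))) (a (c (c (l 141832429695205423) (l 141744881057038383)) (l 141611633954471983)) (b (l 141713338807730223)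 (c (b (l 141811882564763695) (a (a (l 141992614788743215) (l 141816761648791599)) (l 141822190488797231))) (l 141636166813597743)))))) (b (l 141308787138347055) (c (a (l 141402589250175023) (l 141438804422934575)) (l 141415508466581551)))))) (c (b (a (l 141697945640615983) (l 141761923488858159)) (a (b (c (l 141822327927586863) (l 141645924981112879)) (c (b (a (l 141826107499806767) (l 141855656881963055)) (b (l 142029585876140079) (c (a (l 141884931388047407) (b (l 141913656136237103) (l 142006771027968047))) (a (l 141795664762617903) (l 141824870547308591))))) (b (l 141661455586967599) (c (l 141716774780944431) (l 141625102973763631))))) (b (l 141793603175759919) (c (b (l 141901011747553327) (c (a (a (l 141935234057125935) (l 142018384627728431)) (l 14)) (b (l 141864246816915503) (a (l 141854763526914095) (l 141885412420911151))))) (b (l 141717736852127791) (a (l 141713270085304367) (l 141922452179517487))))))) (b (a (l 141347888528474159) (l 141404856988532783)) (a (b (l 141553565929881647) (c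 (b (l 141477974533963823) (l 141485602398175279)) (l 141292844214501423))) (b (l 141424510765203503) (c (b (l 141530132629667887) (l 141538035371835439)) (l 141341085299212335))))))))), by decide +kernel⟩

def k7_pm_102_a : ∃ t, chk3 f_pm_102_a t 19 6 1 = true :=
  ⟨(b (l 16457928) (l 16507264)), by decide +kernel⟩

def k8_pm_102_a : ∃ t, chk3 f_pm_102_a t 19 14 1 = true :=
  ⟨(b (l 16468864) (b (l 16477776) (l 16487408))), by decide +kernel⟩

def k9_pm_102_a : ∃ t, chk3 f_pm_102_a t 38 15 1 = true :=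
  ⟨(b (b (l 16487464) (b (l 16498312) (l 141456740204724271))) (b (b (a (l 141468353800618031) (l 141590949376786479)) (a (l 141722753323319343) (l 141658500640817199))) (b (a (b (l 141598371085516847) (l 141632868272406575)) (b (l 141711483371814959) (l 141749279094226991))) (c (a (b (l 141850983952236591) (b (a (l 141853801451913263) (l 141916954666156079)) (a (c (b (l 141964096242319407) (c (l 14) (a (a (l 141905890829877295) (l 141921765032788015)) (a (l 141937776674701359) (l 141999005732356143))))) (b (l 141776629457944623) (a (a (l 141764534827352111) (l 141779584396378159)) (a (l 141974953872408623) (l 141990415758377007))))) (c (b (l 142030204394684463) (l 14)) (b (l 141838545721344047) (a (c (l 141949871285944367) (l 141784875795890223)) (c (a (l 141906646740877359) (l 141923139419209775)) (l 141816349323755567)))))))) (c (b (l 142073635113926703) (l 14)) (b (l 141885068817203247) (a (b (l 141886237049241647) (b (l 141903485642342447) (a (c (a (l 141939769536544815) (l 142001617069604911))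 (l 141848578766028847)) (c (l 14) (b (l 141878677903949871) (a (l 141876066563325999) (l 141982856634138671))))))) (c (l 14) (b (l 141903416920850479) (b (l 141920734233477167) (a (b (l 141912419175006255) (b (l 141916748503171119) (l 142009794675441711))) (c (l 14) (l 141923964049129519)))))))))) (a (b (l 141481822821531695) (b (a (l 141476462702428207) (l 141531232138772527)) (a (c (b (l 141584902066012207) (l 141728457055354927)) (l 141391937724563503)) (c (a (l 141632249797165103) (l 141842119086276655)) (l 141445607649017903))))) (b (a (l 141564973408682031) (l 141624072172961839)) (a (b (l 141588956513206319) (b (l 141781508490674223) (c (a (l 141697120998981679) (c (b (l 141777179209744431) (l 141782333171892271)) (l 141676848747298863))) (a (l 141491306112417839) (l 141520443177582639))))) (b (c (l 141751890434129967) (l 141546075547271215)) (c (b (l 141766802564661295) (a (b (l 141758006469836847) (l 141853114227015727)) (c (l 141845829983387695) (l 141740689156390959)))) (b (l 141557620422901807)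 (c (l 141798894521876527) (l 141511990679027759)))))))))))), by decide +kernel⟩

def k10_pm_102_a : ∃ t, chk3 f_pm_102_a t 39 15 1 = true :=
  ⟨(b (b (l 16513768) (b (l 16526136) (l 142052194527821871))) (c (a (b (l 141901905094705199) (b (l 142042780056682543) (a (b (l 142084561509171247) (b (l 142124968571404335) (l 14))) (l 14)))) (b (l 142034190118797359) (b (l 142190389525479471) (a (l 14) (a (l 14) (a (l 14) (b (l 142339854417510447) (b (l 142382254344093743) (b (l 142223581077094447) (c (c (l 142565941544632495) (l 14)) (l 14))))))))))) (b (b (l 141600157780410415) (l 141660149901230127)) (b (a (l 141845348895424559) (l 141792503648239663)) (b (a (a (l 141685713558372399) (l 141750035003932719)) (l 142032746955456559)) (a (b (a (l 141712857759449135) (l 141779309509197871)) (a (c (b (l 141833391753412655) (b (l 142021614402371631) (c (a (l 141882869790179375) (b (l 141916611061153839) (l 142009588513947695))) (a (l 141776354573369391) (l 141810302002905135))))) (a (l 141608060531146799) (l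 141820197563449391))) (c (b (l 141903279477719087) (c (a (a (l 142032059788001327) (l 14)) (l 14)) (b (l 141857306135871535) (a (l 141845142785818671) (l 141880808202616879))))) (b (l 141684888924143663) (a (l 141677398499885103) (l 141891322238943279)))))) (b (a (l 141849059794501679) (l 141922177334853679)) (a (c (b (l 141976534457057327) (c (l 14) (c (l 14) (a (l 141886443200266287) (l 141923414287384623))))) (a (c (l 141887061652488239) (l 141684339167395887)) (b (l 141770925729284143) (a (l 141952413868130351) (l 141970349655752751))))) (c (l 14) (b (l 141825145409110063) (b (l 142013436777611311) (c (a (l 141878059420319791) (b (l 141914480751411247) (l 142007458204221487))) (a (l 141762060914212911) (l 141798757123342383)))))))))))))), by decide +kernel⟩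

def k11_pm_102_a : ∃ t, chk3 f_pm_102_a t 5 6 1 = true :=
  ⟨(a (b (l 16477080) (a (b (l 16478824) (l 16494208)) (b (l 16521648) (l 16541384)))) (a (b (l 16551768) (l 16579352)) (b (l 16574976) (l 16625208)))), by decide +kernel⟩

def k12_pm_102_a : ∃ t, chk3 f_pm_102_a t 10 14 1 = true :=
  ⟨(a (b (l 16507736) (a (l 16518456) (l 16546032))) (b (l 16562352) (b (l 16578784) (l 16570976)))), by decide +kernel⟩

def k13_pm_102_a : ∃ t, chk3 f_pm_102_a t 20 30 1 = true :=
  ⟨(a (b (l 16541096) (b (l 16554088) (l 141939563364876335))) (b (l 16569120) (c (l 16585408) (l 16566584)))), by decide +kernel⟩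

def k14_pm_102_a : ∃ t, chk3 f_pm_102_a t 20 62 1 = true :=
  ⟨(b (a (l 142024431940190255) (l 142327484887892015)) (a (a (l 142043054924480559) (l 142195062438297647)) (a (l 142345077082357807) (l 142309617857822767)))), by decide +kernel⟩

def k15_pm_102_a : ∃ t, chk3 f_pm_102_a t 40 63 1 = true :=
  ⟨(b (a (a (l 142103596799541295) (l 142182143179767855)) (a (l 142258146934505519) (l 142332845018824751))) (c (b (a (b (l 142229490949455919) (l 142257047465787439)) (b (l 142193825566392495) (l 142220145131946159))) (b (a (a (l 142293262629830703) (l 142320750433255599)) (a (l 142211761355636911) (l 142281168039313583))) (c (a (b (a (l 142277388456132783) (l 142258009576112303)) (c (a (a (a (l 142583739892236463) (l 142601469520347311)) (a (l 142619061709488303) (l 142636585179136175))) (a (l 142662698584866991) (l 142697127048757423))) (a (l 14) (c (a (l 142590611838435503) (l 142625590058221743)) (l 14))))) (c (a (a (l 142724408685478063) (l 142758081234976943)) (a (l 142791341467549871) (l 142824258102657199)))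 (a (b (l 142640021149319343) (a (b (l 142632874323001519) (l 142639677541990575)) (l 142670601322496175))) (a (b (l 142691217168466095) (l 142704480030474415)) (l 142731486789206191))))) (c (a (l 14) (a (b (l 142544432336994479) (a (l 14) (a (l 14) (l 142584152191467695)))) (b (l 142613976459641007) (a (a (l 142601469513384111) (l 142618649385566383)) (a (l 142635760538271919) (l 142652734252007599)))))) (l 14))))) (c (l 14) (b (a (l 141888023742955567) (l 142047178087890991)) (a (b (a (l 141883350818799663) (l 141961210003996719)) (a (b (l 141900461973143599) (a (c (a (l 142031991062954031) (l 14)) (l 141923620420534319)) (c (l 14) (b (l 141868988444655663) (l 141964783396782127))))) (b (l 141979558109167663) (c (l 14) (c (l 14) (a (l 141880808196915247) (l 141920665502629935))))))) (b (a (l 142043123639124015) (l 14)) (l 14))))))), by decide +kernel⟩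

def k16_pm_102_a : ∃ t, chk3 f_pm_102_a t 82 63 1 = true :=
  ⟨(a (b (l 142316214918365231) (c (b (l 142490899885506735) (b (l 142348925455237295) (b (c (l 142820684687081647) (l 142274845843996847)) (a (c (l 142817179972337839) (c (l 142678023013122223) (c (l 142607654264914095) (l 14)))) (c (l 142849478153519279) (c (l 142711420695396527) (a (l 142609647129280687) (l 142626620842999983)))))))) (l 14))) (b (l 142297798111182895) (a (b (l 142377237840429103) (c (b (l 142758905862160559) (b (l 142597552535060655) (c (l 142881432715788463) (c (l 142744406049996975) (a (l 142643457117749423) (l 142660155953512623)))))) (l 14))) (b (l 142389263754903599) (c (b (l 142791616338788527) (c (l 142906858926293167) (c (l 142770725613846703) (a (l 142670463876481199) (l 142687025273258159))))) (b (l 142418538221764655) (b (l 142347894561259567) (c (c (c (l 142615488278118575) (l 14)) (l 14)) (l 14))))))))), by decide +kernel⟩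

def k17_pm_102_a : ∃ t, chk3 f_pm_102_a t 83 63 1 = true :=
  ⟨(a (b (l 142367891989741615) (c (b (l 142803917125304495) (a (b (l 142823914498506927) (b (l 142842125164019887) (a (c (l 142936339587285167) (l 142755538605506735)) (c (l 142951801472237743) (a (l 142767633235525807) (b (l 142772649758032047) (a (l 142776772906221743) (l 142780758636576943)))))))) (c (b (l 142945273119211695) (b (l 142963071467733167) (c (l 143019077853528239) (l 142930429709451439)))) (b (l 142765365490679983) (a (b (l 142775535976038575) (b (l 142784675668557999) (l 142790791703396527))) (b (l 142791616336412847) (l 142803710945640623))))))) (c (c (b (l 142574050427076783) (b (a (l 142594322678382767) (l 142627926508388527)) (a (b (l 142613151819382959) (a (l 142617412428398767) (b (l 142630881448018095) (a (l 142633080472010927) (b (l 142639746262352047) (a (c (l 142663935523307695) (l 142617756025372847)) (l 142644968943665327))))))) (a (b (l 142638165713289391) (b (l 142647511564304559) (l 142653765038129327)))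 (b (l 142654795829575855) (l 142667165338255535)))))) (l 14)) (l 14)))) (b (b (l 142593085721526447) (c (l 142821715470303407) (l 142273883724267695))) (b (a (b (l 142298210463137967) (a (l 142314015861031087) (l 142330714696810671))) (b (l 142331814293143727) (l 142355797396127919))) (c (c (b (l 142991658774102191) (a (l 142999492797087919) (l 143029591933157551))) (b (a (l 142797801089368239) (l 142829893090640047)) (a (c (l 142866451861651631) (b (l 142770588171223215) (l 142782545362960559))) (c (l 142897650509529263) (l 142808452599136431))))) (c (b (a (l 142615419559936175) (l 142649092109435055)) (a (b (l 142633836384010415) (c (a (l 142683589296062639) (l 142699875814899887)) (c (a (l 142614732366135471) (l 142631293762912431)) (l 14)))) (b (l 142666959177580719) (b (l 142315527775633583) (c (l 142727088721871023) (a (l 142627857777197231) (l 142644281745752239))))))) (l 14)))))), by decide +kernel⟩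

def k18_pm_102_a : ∃ t, chk3 f_pm_102_a t 21 30 1 = true :=
  ⟨(a (b (l 16594664) (a (l 142423004969664687) (l 142384041051324527))) (a (b (l 16613056) (l 142523885212090479)) (b (l 16625640) (l 142672181869887599)))), by decide +kernel⟩

def k19_pm_102_a : ∃ t, chk3 f_pm_102_a t 84 31 1 = true :=
  ⟨(a (b (l 142370984358707375) (b (b (l 142300821798928559) (a (l 142330096303882415) (l 142724546106376367))) (b (c (c (l 143019009128775855) (l 142843499547426991)) (l 142392837162336431)) (a (b (c (l 142949877321384111) (l 142230934080503983)) (c (c (l 143059347471761583) (c (l 142928436840480943) (l 142839926135718063))) (c (b (l 142699669654241455) (b (l 142708259590865071) (c (l 142759043294871727) (a (l 142660568264573103) (l 142676786063917231))))) (l 14)))) (b (c (l 142980457493889199) (l 142264537910526127)) (b (c (l 142996881452646575) (c (l 142732036533436591) (l 142550685797073071))) (c (c (l 143094119533346991) (l 142920465356980399)) (c (c (l 142787836760473775) (a (l 142690117644550319)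 (l 142706198004908207))) (c (c (a (l 142622154068099247) (l 142638440586936495)) (l 14)) (l 14)))))))))) (b (b (l 16622728) (b (l 142640296005025967) (l 142684551358513327))) (b (b (l 142369747446284463) (l 142415033592119471)) (b (c (l 142993857792295087) (l 142281442902655151)) (c (c (a (l 143107176235286703) (l 143136038420545711)) (b (l 142939363236233391) (b (l 142955168719618223) (a (l 142950701953482927) (l 142980526211596463))))) (a (b (l 142297798143099055) (b (a (l 142306044482814127) (l 142322262282158255)) (c (c (l 142819035408367791) (a (l 142722140926312623) (l 142738015128207535))) (c (b (l 142637478513229999) (a (l 142634798442791087) (l 142650947533373615))) (l 14))))) (b (l 142330646058746031) (c (c (l 142844736496812207) (a (l 142748529209639087) (l 142764334692040879))) (b (l 142617068823216303) (a (c (b (l 142661736492761263) (l 142666959174254767)) (l 14)) (c (l 142680428193874095) (c (l 142613014373449903) (l 14))))))))))))), by decide +kernel⟩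

def k20_pm_102_a : ∃ t, chk3 f_pm_102_a t 85 31 1 = true :=
  ⟨(b (c (b (l 142858274227306607) (a (l 142907889703125103) (l 142973929132015727))) (b (l 142503269333729455) (l 142411872451018927))) (b (a (a (l 142443483459223663) (l 142476881130831983)) (b (l 142866108250914927) (c (l 143074603189223535) (l 142735128901845167)))) (b (c (a (c (l 143138512319742063) (l 142969462370402479)) (c (l 143196099251323119) (l 143030210398519471))) (a (l 142348650562748591) (a (l 142758287372271791) (l 142430495473975471)))) (b (a (c (c (l 143168680177090671) (l 142999767666852015)) (b (l 142374214214287535) (l 142384247174430895))) (c (a (l 143127860797243503) (c (l 143238705336090863) (l 143073503678300335))) (a (l 142426922062528687) (a (l 142810720344228015) (c (l 142912562629443759) (b (l 142735266342551727) (l 142745436827599023))))))) (c (a (a (c (l 143174590054301807) (l 143004990349246639)) (c (l 143202421447229679) (l 143034196131971247))) (a (c (l 143229909242708207) (l 143062989597737135)) (c (a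 (l 143251281003708655) (l 143268185998033135)) (a (l 143085735748550831) (b (l 143097624219861167) (l 143111436837830831)))))) (c (a (c (a (l 142875385388777647) (l 142905621963833519)) (b (l 142798419558121647) (a (l 142792784560717999) (l 142823502172176559)))) (a (c (l 142935446221947055) (l 142849271980130479)) (b (a (l 142910501045731503) (l 142929948661186735)) (a (c (l 142964445846585519) (l 142879027519160495)) (a (l 142938813475963055) (l 142951182984102063)))))) (a (a (b (l 142649641860890799) (c (a (l 142696302395769007) (l 142712107878187183)) (c (a (l 142629163453300911) (l 142645243813675183)) (l 14)))) (b (l 142681871301116079) (a (c (l 142727844641095855) (a (l 142634867170246831) (l 142642907350417583))) (c (l 142743443965051055) (b (l 142652528078667951) (l 142657201004249263)))))) (b (a (l 142713688424415407) (a (l 142737465367543983) (a (l 142752033899233455) (l 142765090602254511)))) (a (b (l 142720491654316207) (c (l 142768938895540399) (a (l 142673006486651055) (l 142688674530099375))))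 (a (c (a (l 142786805962457263) (l 142797869800243375)) (b (l 142701662513168559) (a (b (l 142699944526184623) (l 142703243056464047)) (l 142714856655487151)))) (a (c (l 142811132661743791) (l 142724889700810927)) (c (l 142824670401200303) (a (l 142735747380166831) (l 142742825487630511)))))))))))))), by decide +kernel⟩

def k21_pm_102_a : ∃ t, chk3 f_pm_102_a t 86 31 1 = true :=
  ⟨(b (c (b (l 16662376) (l 143066700442861679)) (l 142517494303555759)) (b (b (a (l 142930223534440559) (a (l 142976815348220015) (l 143012205885227119))) (a (c (l 143132121401802863) (l 142801030891978927)) (c (l 143197542355927279) (a (l 142857105995333807) (l 142905553235476655))))) (b (a (c (c (l 143253823622447343) (b (l 143080856661590127) (l 143103808972177519))) (a (c (l 142908302019412143) (l 142738221279101103)) (b (l 142850027889737903) (l 142878683918172335)))) (c (l 143247432707506415) (c (l 143018871678353583) (l 142862534835945647)))) (a (c (b (a (c (l 143269835264884975) (l 143108344459509871)) (l 143227916373917807))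 (c (l 143312922385989871) (c (l 143196167969554671) (l 143117346712813743)))) (c (a (b (l 142943486399824047) (c (l 143014404915298479) (l 142932353842888879))) (c (l 143046084604919983) (c (l 142986504800665775) (l 142946578776326319)))) (b (a (b (l 142766877307781295) (l 142782476632588463)) (l 142828999726923951)) (c (c (a (l 142870300142518447) (l 142922733113278639)) (b (l 142847279112470703) (a (l 142837108628586671) (l 142891122147623087)))) (b (l 142785431570727087) (c (a (a (l 142781583280193711) (l 142809345954119855)) (a (l 142837177347522735) (l 142865146179862703))) (b (l 142777803707580591) (a (a (l 142743650121433263) (l 142772306148720815)) (a (a (l 142793815349051567) (l 142808177722425519)) (c (l 142839719968374959) (l 142819860038238383))))))))))) (b (c (c (l 143359789077135599) (l 143213347839951087)) (c (l 143064157823910063) (c (l 142950427065991343) (l 142873667394601135)))) (c (c (l 143385284008804591) (a (l 143220151070523631) (l 143262688434651375))) (b (c (l 143087110134382767)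 (c (l 142974959924805807) (l 142899299765305519))) (a (c (c (l 143115628724093103) (l 143040449600667823)) (a (c (l 142951114262544559) (c (l 142893115012219055) (c (l 142863977948119215) (a (l 142837246066311343) (l 142851814598131887))))) (c (l 142977983583027375) (c (l 142921221283512495) (c (l 142892702694834351) (a (l 142866383129968815) (l 142880951661789359))))))) (a (c (l 143114735359131823) (c (l 143004852903493807) (b (l 142926512683745455) (c (l 142953656882823343) (a (l 142909332811350191) (l 142923832623677615)))))) (c (l 143139268227661999) (c (l 143031859662930095) (c (l 142977639984545967) (a (l 142934071827464367) (l 142948640359268527)))))))))))))), by decide +kernel⟩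

def k22_pm_102_a : ∃ t, chk3 f_pm_102_a t 87 31 1 = true :=
  ⟨(b (a (b (l 16653968) (b (l 142986161194074223) (l 143028286243356783))) (b (l 143003409782095983) (b (l 143066906593788015) (l 143117759018434671)))) (c (b (b (a (l 143225992222458095) (l 143307218658902255)) (l 143406380867829999)) (b (c (l 143432975331967215) (l 143301446223773935)) (c (b (l 143470290016354543) (a (l 143458607704228079) (l 143532893472260335))) (a (b (l 143299178482450671) (a (l 143305431957192943) (l 143348519077085423))) (c (l 143430020392091887) (l 143369341080551663)))))) (c (b (b (l 143052200625619055) (l 143108894207066223)) (b (a (l 143117759023874159) (l 143217814600450159)) (b (a (l 143162770291458159) (l 143262482270584943)) (a (a (c (l 143202971195113647) (l 143133908106248367)) (c (l 143250799959802095) (l 143185035406442671))) (c (l 143323024143139055) (a (l 143236437584527535) (l 143288045921009839))))))) (b (b (l 142905003474895023) (l 142967125896249519)) (b (a (l 142974822481952943) (l 143088347078508719))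 (a (b (l 143024025638600879) (b (c (l 143083330559918255) (l 143014473629892783)) (b (a (l 143033440210272431) (l 143089584033218735)) (c (a (a (l 143063058311364783) (l 143090202509738159)) (l 143131021886521519)) (c (a (l 143024437946400943) (l 143081406413947055)) (a (a (l 142974891204477103) (l 143004165707022511)) (l 143048214899818671))))))) (b (l 143137206637707439) (a (c (l 143173490530435247) (a (l 143095631347335343) (l 143124768410845359))) (c (l 143228534841409711) (l 143168611445063855)))))))))), by decide +kernel⟩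

def k23_pm_102_a : ∃ t, chk3 f_pm_102_a t 11 14 1 = true :=
  ⟨(b (a (l 16610816) (a (l 16629088) (l 16655024))) (a (a (l 16602208) (l 16630904)) (a (b (l 16675784) (l 16692216)) (l 16692528)))), by decide +kernel⟩

def k24_pm_102_a : ∃ t, chk3 f_pm_102_a t 22 15 1 = true :=
  ⟨(a (b (b (b (l 16642240) (l 16650968)) (a (a (l 16653432) (l 16660752)) (c (l 16687016) (l 16658800)))) (c (a (b (b (l 16687008) (l 143359101869506799)) (a (b (l 143414352343761135) (b (l 143489806346567919) (c (l 143595496926298351) (a (l 143465410927739119) (l 143509391400763631))))) (b (l 143497434205946095) (b (l 143572338452840687) (b (l 143565741391888623) (c (l 143683870189732143) (l 143589380886626543))))))) (b (a (l 143439915985764591) (l 143525471749079343)) (b (c (l 143667446224585007) (l 143579279113699567)) (c (a (l 143723796210696495) (l 143801311793758511)) (a (b (l 143611783436321007) (b (l 143651640742002927) (l 143678510063599855))) (l 143728537849020719)))))) (b (b (b (l 142904453742133359) (l 142957436471214191))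 (a (l 143109031636385903) (l 143331201744142575))) (b (a (c (l 143283372988809455) (b (l 143135145044508783) (l 143197198746370159))) (c (l 143490356089356527) (l 143400677151539439))) (a (c (c (b (l 143396691431964911) (a (l 143405556248985839) (l 143503756398821615))) (b (l 143342471752712431) (a (b (l 143335393647591663) (l 143365973821784303)) (l 143455515315273967)))) (b (a (l 143202902467149999) (l 143318557367337071)) (b (a (l 143251418428883119) (l 143366661012144239)) (a (a (c (l 143283785310781615) (l 143227366608404655)) (l 143312853653815471)) (c (l 143423079715209455) (l 143375250949062831)))))) (a (b (l 143479429693063407) (a (c (l 143556395526111471) (l 143469877685420271)) (c (l 143607728984244463) (l 143528083092504815)))) (b (l 143589861911494895) (c (b (l 143670538596073711) (l 143699675660943599)) (b (l 143599826237898991) (l 143631780801954031)))))))))) (b (b (c (l 16690416) (l 16665440)) (c (l 16708296) (l 16687144))) (b (c (a (l 144015235481682223) (l 144010012830187823)) (c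 (l 143467609959383279) (l 143584914089738479))) (c (b (a (c (l 143825226169811247) (l 143762622708875567)) (l 144146627181855023)) (a (a (c (l 143879445851980079) (l 143819316293239087)) (b (l 143909407543820591) (l 143958954297999663))) (c (b (l 144053443593912623) (l 144100035409936687)) (b (l 144023000854266159) (l 144073990717866287))))) (c (b (a (l 143700431565848815) (l 143912980942897455)) (a (b (l 143783857030004975) (a (l 143788873556197615) (l 143893189739544879))) (b (l 143994757139317039) (l 144050557367419183)))) (b (a (l 143638584021287151) (l 143879308388958447)) (a (b (l 143729980946563311) (a (l 143733348205248751) (l 143851545725452527))) (a (b (l 143908995213787375) (l 143970293001289967)) (l 144059216016965871))))))))), by decide +kernel⟩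

def k25_pm_102_a : ∃ t, chk3 f_pm_102_a t 23 15 1 = true :=
  ⟨(b (a (c (a (l 16720440) (l 16733480)) (l 16692520)) (c (l 16771520) (l 16725032))) (b (a (c (b (l 16750000) (l 143954556263563567)) (a (l 143782963686932783) (l 16756056))) (c (b (l 16772968) (l 16782560)) (b (l 16773104) (l 16805600)))) (a (a (c (b (l 144140373736980783) (c (l 144235825115480431) (l 144379448815436079))) (b (l 143943698580848943) (b (l 144387557700698415) (c (l 144261182597677359) (l 144268260701471023))))) (c (b (l 16776376) (c (l 144390031644164463) (l 144411953155096943))) (b (l 144345089079099695) (c (l 144438753750925615) (l 144290182244155695))))) (a (b (c (l 16787440) (l 16789472)) (c (l 144378349354041711) (c (l 144633161179119983) (l 144510222041694511)))) (a (b (l 16828304) (c (l 16805072) (l 144809976416698735))) (b (l 16823336) (c (l 16809576) (a (l 144882406755041647) (l 144924463081128303))))))))), by decide +kernel⟩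

def k26_pm_102_a : ∃ t, chk3 f_pm_102_a t 6 2 1 = true :=
  ⟨(a (b (a (l 16635000) (b (l 16682984) (l 16656672))) (a (b (l 16618536) (l 16618024)) (b (l 16644304) (l 16642072)))) (b (a (b (l 16713176) (l 16699800)) (b (l 16707976) (l 16706976))) (b (a (l 16677720) (l 16704912)) (a (l 16661232) (a (l 16688136) (l 16703264)))))), by decide +kernel⟩

def k27_pm_102_a : ∃ t, chk3 f_pm_102_a t 7 2 1 = true :=
  ⟨(a (b (a (a (l 16695320) (b (l 16681720) (l 16686216))) (a (b (l 16669872) (a (l 16677808) (l 16672040))) (b (a (l 16661496) (b (l 16655336) (l 16656704))) (a (l 16666544) (l 16660992))))) (a (a (b (l 16701328) (l 16707192)) (b (l 16693464) (l 16703392))) (b (a (b (l 16680992) (l 16686104)) (b (l 16669824) (l 16675096))) (a (l 16695560) (b (l 16681864) (l 16689960)))))) (a (b (a (b (a (b (a (l 16651504) (l 16649264)) (a (l 16652856) (l 16650296))) (b (a (l 16647152) (b (a (l 16645584) (l 104320435111)) (l 16645224))) (a (l 16648096) (l 16646008)))) (a (b (l 16653952) (l 16657240)) (b (a (l 16650104)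 (l 16647976)) (a (l 16653496) (l 16650984))))) (b (a (b (a (b (l 3) (c (l 122574082503) (l 127405910567))) (l 3)) (a (c (l 25400438215) (l 105931076327)) (c (l 120426582423) (l 136532710167)))) (l 3)) (a (b (a (l 16645928) (b (l 118815977735) (l 16644512))) (a (l 16648944) (l 16646952))) (b (l 3) (a (b (l 137606462487) (l 16648352)) (l 3)))))) (a (b (b (a (l 16661728) (l 16656752)) (l 16664744)) (b (l 16671608) (l 16700664))) (b (a (b (a (l 16653016) (l 16651064)) (a (l 16658688) (l 16656304))) (b (a (b (l 16647888) (l 16650240)) (b (l 148880755703) (l 122574088231))) (a (l 16654400) (b (l 16650832) (l 16653864))))) (b (a (a (l 16665488) (l 16684256)) (a (b (l 16659184) (l 16662816)) (l 16659008))) (a (l 16672680) (a (b (l 16667072) (l 16671744)) (b (l 16664936) (l 16669400)))))))) (b (l 3) (a (a (b (a (b (l 3) (l 122037223175)) (l 3)) (b (a (b (l 95730558919) (l 16658656)) (l 142438317015)) (a (b (l 16662720) (l 16667200)) (b (l 134385273879) (l 126869092359))))) (l 3)) (l 3))))), by decide +kernel⟩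

def k28_pm_102_a : ∃ t, chk3 f_pm_102_a t 6 6 1 = true :=
  ⟨(a (b (a (l 16672912) (l 16654656)) (a (l 16643880) (a (l 16684224) (l 16691432)))) (b (a (l 16772128) (a (l 16675528) (b (l 16692088) (l 16684728)))) (a (b (l 16685968) (a (l 16706472) (l 16707496))) (b (a (l 16688464) (l 16690304)) (a (l 16705768) (l 16703528)))))), by decide +kernel⟩

def k29_pm_102_a : ∃ t, chk3 f_pm_102_a t 12 14 1 = true :=
  ⟨(b (a (l 16707704) (l 16708960)) (a (a (l 16735824) (c (l 16751200) (l 16733232))) (b (l 16736368) (a (l 16752992) (l 16779824))))), by decide +kernel⟩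

def k30_pm_102_a : ∃ t, chk3 f_pm_102_a t 12 15 1 = true :=
  ⟨(b (a (a (c (l 16790248) (l 16751568)) (c (l 16804424) (l 16772648))) (b (a (l 16770728) (a (l 16777024) (l 16778192))) (a (a (l 16806296) (l 16794704)) (c (l 16803064) (l 16863856))))) (a (a (b (c (l 16795568) (c (l 16801544) (l 16807152))) (c (a (c (l 16809032) (l 144737683529073007)) (c (l 16815672) (l 16842136))) (a (b (l 16815496) (a (l 144979232556171631) (b (l 16827096) (l 16833008)))) (b (l 16826400) (b (l 16855952) (c (l 16836408) (a (l 16842816) (l 16848192)))))))) (a (b (b (l 16807208) (l 16837992)) (b (c (l 16819784) (l 16856928)) (a (c (l 16827864) (b (l 16842144) (c (l 16842856) (c (l 16850480) (l 16866544))))) (c (b (l 16828256) (l 16832864)) (c (b (l 16841280) (l 16846272)) (b (l 16851984) (b (l 16856096) (a (a (l 16868096) (l 16868936)) (l 16859192))))))))) (b (c (l 16811472) (l 16870080)) (b (c (l 16824624) (a (l 16842032) (l 16844624))) (c (b (l 16831128) (l 16835344)) (c (b (l 16844736) (l 16848904)) (c (b (l 16852920)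 (l 16857056)) (b (l 16858896) (a (l 16862352) (l 16863576)))))))))) (c (a (b (b (l 16812256) (l 16820088)) (b (l 16848912) (a (l 16856352) (l 16836448)))) (b (l 16817120) (b (l 16849336) (a (l 16836544) (l 16835768))))) (b (a (a (b (l 16829744) (l 16838408)) (l 16877984)) (b (l 16831768) (l 16838744))) (a (a (b (l 16846248) (c (l 16848816) (b (l 16857808) (a (l 16871960) (l 16862072))))) (b (l 16847016) (b (l 16873800) (c (l 16851640) (a (l 16862368) (l 16862376)))))) (b (a (l 16846696) (l 16845392)) (a (b (l 16873432) (c (l 16851376) (a (l 16862112) (l 16861600)))) (b (l 16872096) (c (l 16850160) (a (l 16860840) (l 16859856))))))))))), by decide +kernel⟩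

def k31_pm_102_a : ∃ t, chk3 f_pm_102_a t 13 7 1 = true :=
  ⟨(b (a (b (a (l 16714512) (l 16712896)) (a (b (l 16761128) (l 16778976)) (l 16764264))) (b (l 16705056) (a (l 16756800) (l 16750352)))) (b (a (b (a (c (l 16787720) (l 16805344)) (l 16777928)) (a (a (l 16809752) (l 16807608)) (c (l 16796920) (l 16811864)))) (a (b (l 16780760) (b (l 16834896) (l 16799488))) (b (l 16773072) (b (l 16868592) (a (l 16794528) (l 16791224)))))) (b (a (a (c (l 16814664) (b (l 16827720) (l 16834632))) (c (l 16810000) (b (l 16821176) (l 16828040)))) (a (c (a (l 16805496) (l 16802216)) (a (l 16818488) (l 16814056))) (a (b (l 16800592) (l 16807120)) (l 16821504)))) (a (a (b (c (l 16825624) (a (l 16843272) (l 16840504))) (c (a (l 16834280) (l 16832224)) (a (b (l 16869952) (c (l 16848168) (a (l 16858680) (l 16857328)))) (b (l 16846184) (c (l 16845552) (a (l 16855824) (l 16854160))))))) (b (c (l 16820704) (a (l 16837168) (l 16833352))) (c (a (l 16829664) (a (l 16827480) (l 16825888))) (c (a (l 16840440) (a (l 16837792)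 (l 16835824))) (a (b (l 16847504) (l 16872376)) (a (l 16846440) (a (l 16865792) (l 16864608)))))))) (a (a (a (b (l 16843824) (b (l 16849296) (l 16831984))) (b (l 16841808) (l 16848968))) (c (l 16837016) (b (l 16824224) (l 16831184)))) (c (b (l 16807688) (a (l 16816264) (l 16813184))) (b (l 16817528) (a (l 16826520) (l 16822240))))))))), by decide +kernel⟩

def k32_pm_102_a : ∃ t, chk3 f_pm_102_a t 7 6 1 = true :=
  ⟨(a (a (b (a (b (l 16708448) (l 16723720)) (l 16713384)) (a (l 16824888) (b (l 16712672) (l 16708928)))) (b (a (l 16711160) (b (l 16698904) (l 16709136))) (a (b (l 16723104) (l 16744384)) (b (l 16720784) (l 16732776))))) (a (b (a (b (a (l 16691792) (l 16687152)) (a (l 16703216) (l 16698408))) (b (a (l 16682608) (a (l 16679424) (b (l 16674568) (l 16680240)))) (a (l 16694296) (l 16690296)))) (a (b (a (l 16715768) (l 16712176)) (a (l 16730152) (l 16726944))) (a (b (a (l 16708768) (l 16706984)) (b (l 16761392) (l 16726992))) (b (b (l 16700456) (l 16707776)) (b (l 16714864) (l 16742408))))))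 (a (b (a (a (b (b (l 16672232) (l 16677784)) (b (l 16684088) (l 16690904))) (b (b (l 16669576) (l 16675064)) (b (l 16681240) (l 16688136)))) (a (b (b (l 144585827511) (l 143512101959)) (b (l 127405990391) (b (l 16682560) (l 16686048)))) (b (l 3) (b (l 162302580695) (b (l 160691977127) (l 159618241687)))))) (a (b (a (b (l 16697920) (l 16704672)) (b (a (l 16696544) (l 16694800)) (l 16702208))) (b (l 16709760) (l 16716512))) (a (b (b (l 16691352) (l 16698448)) (b (a (l 16706640) (l 16704744)) (l 16733816))) (b (a (b (l 16687856) (l 16695072)) (b (l 158544506487) (l 129016632279))) (b (a (l 16702608) (l 16700392)) (a (l 16710360) (l 16708336))))))) (b (l 3) (a (a (b (b (l 3) (l 156933903303)) (b (a (l 132774738951) (l 155323303447)) (a (l 16706208) (l 149954618551)))) (l 3)) (l 3)))))), by decide +kernel⟩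

def k33_pm_102_a : ∃ t, chk3 f_pm_102_a t 14 7 1 = true :=
  ⟨(b (a (a (b (l 16721512) (l 16746064)) (b (l 16721648) (l 16743880))) (b (a (l 16767560) (a (l 16731440) (l 16782784))) (a (b (l 16738368) (l 16749752)) (b (a (l 16740624) (l 16742704)) (a (l 16750176) (l 16749824)))))) (a (b (a (b (l 16767424) (a (l 16804424) (l 16780744))) (b (l 16763736) (a (l 16778824) (l 16776888)))) (b (a (a (l 16839472) (b (l 16792056) (l 16797864))) (a (b (l 16810528) (l 16795480)) (b (l 16808120) (l 16793656)))) (b (a (a (l 16828096) (a (l 16804912) (l 16803584))) (c (a (l 16799272) (l 16797744)) (a (l 16805464) (l 16802984)))) (a (c (a (c (l 16809064) (l 16811944)) (b (l 16806256) (l 16809776))) (a (l 16828808) (b (l 16813216) (l 16816544)))) (c (a (a (l 16806552) (l 16805640)) (c (l 16803696) (l 16805232))) (a (b (l 16810256) (l 16813504)) (b (l 16807632) (l 16810776)))))))) (b (a (b (l 16803768) (a (l 16775344) (l 16773936))) (b (l 16823016) (a (l 16772608) (l 16771256)))) (b (a (b (a (l 16785288) (l 16784048))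 (a (l 16813360) (b (l 16789248) (l 16792232)))) (b (l 16823600) (a (c (l 16787872) (l 16791304)) (b (l 16785976) (l 16789272))))) (a (b (c (a (l 16796392) (l 16795144)) (l 16831208)) (c (a (a (l 16813680) (l 16802448)) (c (l 16800976) (l 16801888))) (a (b (l 16805296) (l 16808328)) (l 16825584)))) (b (c (l 16824712) (l 16796056)) (c (a (c (l 16799648) (l 16800312)) (c (l 16798216) (l 16798696))) (c (l 16821616) (l 16802448))))))))), by decide +kernel⟩

def k34_pm_102_a : ∃ t, chk3 f_pm_102_a t 15 14 1 = true :=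
  ⟨(a (a (b (a (l 16744472) (b (l 16738568) (l 16745456))) (b (a (l 16744280) (l 16750848)) (a (l 16749832) (b (l 16748624) (l 16751464))))) (b (a (l 16758592) (b (a (l 16730304) (l 16727448)) (l 16757528))) (a (b (l 16748728) (l 16754400)) (b (l 16744272) (l 16752528))))) (a (a (b (b (l 16723688) (a (l 16732472) (l 16730048))) (b (a (l 16740880) (b (l 16735920) (l 16740312))) (b (l 16766904) (l 16750152)))) (b (a (b (l 16719968) (l 16727568)) (b (a (l 16718184) (l 16726896)) (a (l 16725752) (l 16735104)))) (b (a (l 16735720) (l 16733280)) (a (b (l 16741976) (l 16767648)) (l 16752432))))) (a (b (a (b (a (l 16714496) (b (l 16710328) (l 16714576))) (a (b (l 16720832) (l 16725128)) (b (l 16718896) (l 16723304)))) (b (a (c (l 144049044167) (l 149954621719)) (l 3)) (a (b (l 140827836407) (c (l 16721848) (l 16721016))) (b (l 3) (l 146196554887))))) (a (a (b (b (l 16729432) (l 16733576)) (l 16740128)) (b (b (l 16727744) (c (l 16732584) (l 16732096))) (l 6))) (b (a (b (l 16725944) (l 16730568)) (b (c (l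 134922268119) (l 142438458823)) (l 6))) (l 6)))) (b (l 3) (b (b (l 3) (l 6)) (l 6)))))), by decide +kernel⟩

def k35_pm_102_a : ∃ t, chk3 f_pm_102_a t 15 15 1 = true :=
  ⟨(a (b (a (b (a (l 16758560) (l 16757416)) (a (l 16790744) (b (l 16765248) (l 16771064)))) (a (b (b (l 16754496) (l 16758864)) (b (l 16763552) (l 16769120))) (b (a (l 16777288) (l 16759328)) (b (a (l 16762416) (l 16761480)) (l 16766976))))) (a (a (b (b (l 16779152) (l 16806584)) (b (b (l 16811808) (l 16793304)) (c (c (l 16796600) (l 16796920)) (l 16798360)))) (b (b (l 16777216) (l 16783680)) (b (b (l 16809464) (l 6)) (l 6)))) (b (a (b (l 16775072) (l 6)) (l 6)) (l 6)))) (b (a (a (b (b (l 16754640) (l 16759160)) (l 6)) (l 6)) (l 6)) (l 6))), by decide +kernel⟩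

theorem s36_pm_102_a : ∃ t, chk3 f_pm_102_a t 15 7 1 = true := ex3_b k34_pm_102_a k35_pm_102_a

theorem s37_pm_102_a : ∃ t, chk3 f_pm_102_a t 7 7 1 = true := ex3_a k33_pm_102_a s36_pm_102_a

theorem s38_pm_102_a : ∃ t, chk3 f_pm_102_a t 7 3 1 = true := ex3_b k32_pm_102_a s37_pm_102_a

theorem s39_pm_102_a : ∃ t, chk3 f_pm_102_a t 12 7 1 = true := ex3_b k29_pm_102_a k30_pm_102_a

theorem s40_pm_102_a : ∃ t, chk3 f_pm_102_a t 6 7 1 = true := ex3_a s39_pm_102_a k31_pm_102_a

theorem s41_pm_102_a : ∃ t, chk3 f_pm_102_a t 6 3 1 = true := ex3_b k28_pm_102_a s40_pm_102_a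

theorem s42_pm_102_a : ∃ t, chk3 f_pm_102_a t 3 3 1 = true := ex3_a s41_pm_102_a s38_pm_102_a

theorem s43_pm_102_a : ∃ t, chk3 f_pm_102_a t 3 2 1 = true := ex3_a k26_pm_102_a k27_pm_102_a

theorem s44_pm_102_a : ∃ t, chk3 f_pm_102_a t 3 1 1 = true := ex3_b s43_pm_102_a s42_pm_102_a

theorem s45_pm_102_a : ∃ t, chk3 f_pm_102_a t 11 15 1 = true := ex3_a k24_pm_102_a k25_pm_102_a

theorem s46_pm_102_a : ∃ t, chk3 f_pm_102_a t 11 7 1 = true := ex3_b k23_pm_102_a s45_pm_102_a

theorem s47_pm_102_a : ∃ t, chk3 f_pm_102_a t 43 31 1 = true := ex3_a k21_pm_102_a k22_pm_102_a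

theorem s48_pm_102_a : ∃ t, chk3 f_pm_102_a t 42 31 1 = true := ex3_a k19_pm_102_a k20_pm_102_a

theorem s49_pm_102_a : ∃ t, chk3 f_pm_102_a t 21 31 1 = true := ex3_a s48_pm_102_a s47_pm_102_a

theorem s50_pm_102_a : ∃ t, chk3 f_pm_102_a t 21 15 1 = true := ex3_b k18_pm_102_a s49_pm_102_a

theorem s51_pm_102_a : ∃ t, chk3 f_pm_102_a t 41 63 1 = true := ex3_a k16_pm_102_a k17_pm_102_a

theorem s52_pm_102_a : ∃ t, chk3 f_pm_102_a t 20 63 1 = true := ex3_a k15_pm_102_a s51_pm_102_a

theorem s53_pm_102_a : ∃ t, chk3 f_pm_102_a t 20 31 1 = true := ex3_b k14_pm_102_a s52_pm_102_a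

theorem s54_pm_102_a : ∃ t, chk3 f_pm_102_a t 20 15 1 = true := ex3_b k13_pm_102_a s53_pm_102_a

theorem s55_pm_102_a : ∃ t, chk3 f_pm_102_a t 10 15 1 = true := ex3_a s54_pm_102_a s50_pm_102_a

theorem s56_pm_102_a : ∃ t, chk3 f_pm_102_a t 10 7 1 = true := ex3_b k12_pm_102_a s55_pm_102_a

theorem s57_pm_102_a : ∃ t, chk3 f_pm_102_a t 5 7 1 = true := ex3_a s56_pm_102_a s46_pm_102_a

theorem s58_pm_102_a : ∃ t, chk3 f_pm_102_a t 5 3 1 = true := ex3_b k11_pm_102_a s57_pm_102_a

theorem s59_pm_102_a : ∃ t, chk3 f_pm_102_a t 19 15 1 = true := ex3_a k9_pm_102_a k10_pm_102_a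

theorem s60_pm_102_a : ∃ t, chk3 f_pm_102_a t 19 7 1 = true := ex3_b k8_pm_102_a s59_pm_102_a

theorem s61_pm_102_a : ∃ t, chk3 f_pm_102_a t 19 3 1 = true := ex3_b k7_pm_102_a s60_pm_102_a

theorem s62_pm_102_a : ∃ t, chk3 f_pm_102_a t 18 31 1 = true := ex3_a k5_pm_102_a k6_pm_102_a

theorem s63_pm_102_a : ∃ t, chk3 f_pm_102_a t 18 15 1 = true := ex3_b k4_pm_102_a s62_pm_102_a

theorem s64_pm_102_a : ∃ t, chk3 f_pm_102_a t 18 7 1 = true := ex3_b k3_pm_102_a s63_pm_102_a

theorem s65_pm_102_a : ∃ t, chk3 f_pm_102_a t 18 3 1 = true := ex3_b k2_pm_102_a s64_pm_102_a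

theorem s66_pm_102_a : ∃ t, chk3 f_pm_102_a t 9 3 1 = true := ex3_a s65_pm_102_a s61_pm_102_a

theorem s67_pm_102_a : ∃ t, chk3 f_pm_102_a t 4 3 1 = true := ex3_a k1_pm_102_a s66_pm_102_a

theorem s68_pm_102_a : ∃ t, chk3 f_pm_102_a t 2 3 1 = true := ex3_a s67_pm_102_a s58_pm_102_a

theorem s69_pm_102_a : ∃ t, chk3 f_pm_102_a t 2 1 1 = true := ex3_b k0_pm_102_a s68_pm_102_a

theorem s70_pm_102_a : ∃ t, chk3 f_pm_102_a t 1 1 1 = true := ex3_a s69_pm_102_a s44_pm_102_a

theorem c_pm_102_a : CertB 536870912 536870912 0 536870912 649613803 48318383 3 eng mog cd0q1 cd4q2a pd0 false true false .npp 1 0 2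
    ndB0q1 ndB4q2a pcB0 cut_pm_102_a xt_pm_102_a :=
  certB0 (fam := false) (s1 := true) (s2 := false) (a := 1) (b := 0) (c := 2) (cn := .npp) (n1 := ndB0q1) (n2 := ndB4q2a) (pc := pcB0) (cut := cut_pm_102_a) (xt := xt_pm_102_a) (P1 := 536870912) (W1 := 536870912) (P2 := 0) (W2 := 536870912) (P3 := 649613803) (W3 := 48318383) (N0 := 3) (En := eng) (mo := mog) (C1 := cd0q1) (C2 := cd4q2a) (C3 := pd0)
    rfl s70_pm_102_a

noncomputable def cut_pm_102_b : Cut := Cut.of [[⟨0, 1, 0, 67108864⟩, ⟨1, 0, 0, 67108864⟩, ⟨2, 1, 0, 67108864⟩], [⟨0, 0, 1, 20971520⟩, ⟨1, 1, 2, 20971520⟩, ⟨2, 1, 0, 33554432⟩]]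

noncomputable def xt_pm_102_b : Ext := extD2 3 ⟨7, 3, 3, 10, 377, 200, 77, 100, 17, 50, 3, 16⟩ eng cd0q1 cd4q2b pd0 false true false .npp 1 0 2 rfl ndB0q1 ndB4q2b pcB0

noncomputable def f_pm_102_b : ℕ → ℕ → ℕ → ℕ → Bool := onCell 536870912 536870912 0 536870912 649613803 48318383
    (rowB 3 eng mog cd0q1 cd4q2b pd0 1 false true false .npp 1 0 2 (qsf 536870912 536870912 1239849684 370763052 0) ndB0q1 ndB4q2b pcB0 cut_pm_102_b xt_pm_102_b)

def k0_pm_102_b : ∃ t, chk3 f_pm_102_b t 2 1 1 = true :=
  ⟨(b (l 1) (b (l 1) (a (l 1) (a (b (l 1) (a (l 340409466407) (l 16532592))) (b (a (l 295312366023) (l 195990980663)) (a (l 16600096) (l 16667976))))))), by decide +kernel⟩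

def k1_pm_102_b : ∃ t, chk3 f_pm_102_b t 3 2 1 = true :=
  ⟨(a (l 1) (b (l 1) (a (b (l 1) (a (a (l 1) (b (l 1) (a (l 1) (l 16739056)))) (a (b (l 1) (b (l 16684488) (l 16666576))) (a (b (l 1) (l 16674704)) (b (b (l 1) (l 16666880)) (b (l 16648584) (l 16630656))))))) (a (b (a (l 1) (l 3)) (b (a (a (b (l 1) (l 16652944)) (b (a (l 1) (a (l 1) (l 3))) (a (c (l 16643224) (l 16641848)) (c (l 129553398455) (b (l 92509294167) (l 16630512)))))) (l 3)) (a (a (b (b (l 16639096) (l 16630024)) (l 16616600)) (b (b (c (l 16626056) (l 16624288)) (a (l 16619696) (l 16612912))) (a (l 16606280) (l 16602112)))) (a (b (l 3) (l 150491251671)) (l 3))))) (l 3))))), by decide +kernel⟩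

def k2_pm_102_b : ∃ t, chk3 f_pm_102_b t 3 6 1 = true :=
  ⟨(a (b (a (l 1) (a (b (l 1) (a (l 1) (l 16722752))) (b (l 105797160567) (l 16707224)))) (a (a (b (l 1) (l 16666224)) (b (l 230350689751) (l 16655856))) (a (b (l 16717744) (l 16702088)) (b (l 16680904) (l 16656352))))) (a (b (a (a (b (l 16698632) (l 16667712)) (b (l 16712064) (l 16638688))) (a (b (l 16640960) (l 16609656)) (b (a (l 16619344) (l 16626152)) (a (l 16588304) (l 16574320))))) (a (a (l 16668360) (b (l 16610440) (l 16585472))) (a (b (l 16581776) (l 16557232)) (a (b (l 16560824) (l 16536608)) (b (l 16547112) (l 16523080)))))) (a (a (b (b (a (b (l 16599456) (l 16583232)) (a (b (l 16589144) (l 16573000)) (b (l 16582376) (l 16566288)))) (b (a (l 16567952) (a (l 16557856) (l 16551240))) (a (l 16553616) (b (l 16543872) (l 16537064))))) (b (a (b (l 16540216) (l 16527680)) (b (b (l 16530488) (l 16524112)) (a (l 16518064) (l 16511760)))) (b (a (l 16515864) (b (l 16506088) (l 16500304))) (a (l 16504352) (l 16491760))))) (a (b (a (b (a (b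 (l 16577352) (l 16561312)) (l 3)) (b (b (l 123110731687) (l 124184469079)) (b (l 127405700791) (l 127405688503)))) (l 3)) (b (a (b (b (a (l 16522552) (l 124184462823)) (c (l 16518928) (l 16509880))) (b (c (l 16512936) (l 16503576)) (l 16502584))) (b (l 3) (b (l 3) (l 130089971607)))) (b (a (b (c (l 16501344) (l 16491536)) (l 16491032)) (a (b (l 127942506103) (l 131163717495)) (l 3))) (b (c (l 132774316759) (l 133848042791)) (c (l 134921788567) (l 135458644295)))))) (l 3))) (l 3)))), by decide +kernel⟩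

def k3_pm_102_b : ∃ t, chk3 f_pm_102_b t 6 7 1 = true :=
  ⟨(a (b (a (l 16548840) (l 16701856)) (a (l 16692912) (l 16681528))) (b (a (l 16674688) (l 16624680)) (a (l 16644784) (l 16592816)))), by decide +kernel⟩

def k4_pm_102_b : ∃ t, chk3 f_pm_102_b t 7 7 1 = true :=
  ⟨(a (b (a (a (l 16582088) (l 16553416)) (a (l 16525128) (b (l 16507888) (l 16487624)))) (a (a (l 16550008) (l 16521704)) (a (l 16494560) (l 16468648)))) (a (b (a (b (a (b (l 16493392) (l 16482864)) (b (l 16480728) (l 16469952))) (a (b (l 16472288) (l 16462200)) (b (l 16459040) (l 16449064)))) (b (a (b (c (a (l 16475904) (a (l 16471152) (l 140827358519))) (b (l 137069245639) (l 138679846775))) (a (l 16460464) (b (c (l 142437945495) (l 142437931255)) (c (l 145122285175) (l 16446576))))) (l 3)) (a (a (b (l 16449296) (l 16439776)) (b (b (c (l 16449648) (l 16441040)) (c (l 16443872) (l 16435512))) (c (a (l 16439344) (l 16436496)) (l 16429208)))) (a (b (b (l 3) (b (l 145122235495) (l 146732843591))) (c (b (l 147269716503) (l 149417193767))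 (l 149954050439))) (l 3))))) (a (a (b (l 16452968) (l 16448232)) (b (l 16440832) (l 16436280))) (a (a (b (l 16452928) (l 16427456)) (b (b (c (l 16432728) (l 16423024)) (l 16424224)) (b (l 16421976) (l 16421672)))) (b (a (a (b (c (b (l 155859651799) (l 16427240)) (l 118278679191)) (c (b (l 16425408) (l 16424072)) (l 16414016))) (a (b (c (l 152101538855) (l 152638412711)) (c (b (l 156396511239) (l 163375830487)) (l 160691467559))) (l 3))) (l 3)) (a (c (a (b (l 16423024) (l 16423520)) (b (a (b (l 16420976) (l 16420688)) (c (b (l 157470239079) (a (l 77476478807) (l 3870980474547192799853461535))) (l 3474452805713393357351354399))) (b (a (l 16420968) (c (l 141156504637620255) (l 16416624))) (l 141012949648556063)))) (b (b (l 168744518471) (l 174113224375)) (b (l 16408936) (l 16409072)))) (a (a (b (l 3) (b (c (b (l 3) (l 3706566563079585708620627999)) (l 162302059719)) (c (c (a (l 3358395927030591679047008287) (l 4103094231913170334035492895)) (l 4219151110595901093839437855)) (l 140775455105269791))))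 (l 3)) (l 3))))))) (l 3))), by decide +kernel⟩

theorem s5_pm_102_b : ∃ t, chk3 f_pm_102_b t 3 7 1 = true := ex3_a k3_pm_102_b k4_pm_102_b

theorem s6_pm_102_b : ∃ t, chk3 f_pm_102_b t 3 3 1 = true := ex3_b k2_pm_102_b s5_pm_102_b

theorem s7_pm_102_b : ∃ t, chk3 f_pm_102_b t 3 1 1 = true := ex3_b k1_pm_102_b s6_pm_102_b

theorem s8_pm_102_b : ∃ t, chk3 f_pm_102_b t 1 1 1 = true := ex3_a k0_pm_102_b s7_pm_102_b

theorem c_pm_102_b : CertB 536870912 536870912 1239849684 370763052 649613803 48318383 3 eng mog cd0q1 cd4q2b pd0 false true false .npp 1 0 2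
    ndB0q1 ndB4q2b pcB0 cut_pm_102_b xt_pm_102_b :=
  certB1 (fam := false) (s1 := true) (s2 := false) (a := 1) (b := 0) (c := 2) (cn := .npp) (n1 := ndB0q1) (n2 := ndB4q2b) (pc := pcB0) (cut := cut_pm_102_b) (xt := xt_pm_102_b) (P1 := 536870912) (W1 := 536870912) (P2 := 1239849684) (W2 := 370763052) (P3 := 649613803) (W3 := 48318383) (N0 := 3) (En := eng) (mo := mog) (C1 := cd0q1) (C2 := cd4q2b) (C3 := pd0)
    rfl (fun _ => rfl) s8_pm_102_b

noncomputable def f_pm_112_a : ℕ → ℕ → ℕ → ℕ → Bool := onCell 536870912 536870912 0 536870912 649613803 48318383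
    (rowB 3 eng mog cd0q1 cd4q2a pd1 0 false true false .dn 1 1 2 (qsf 536870912 536870912 0 536870912 1) ndB0q1 ndB4q2a pcB1 Cut.none Ext.none)

def k0_pm_112_a : ∃ t, chk3 f_pm_112_a t 1 1 1 = true :=
  ⟨(a (a (b (a (b (l 16421136) (a (l 16371016) (l 16374296))) (b (l 16446352) (b (l 16399808) (l 16364776)))) (b (a (b (a (l 16332664) (l 16326392)) (l 16312808)) (b (a (l 16323584) (l 16325112)) (b (l 16265296) (l 16257088)))) (a (a (b (l 16283552) (b (l 16342208) (a (b (l 16313168) (b (l 16317272) (c (l 39761105751) (l 16314984)))) (l 246993231735)))) (b (l 16264416) (l 236255853687))) (b (l 206727940455) (l 1))))) (b (a (b (l 16478848) (a (l 16400264) (l 1))) (l 1)) (b (l 1) (l 1)))) (l 1)), by decide +kernel⟩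

theorem c_pm_112_a : CertB 536870912 536870912 0 536870912 649613803 48318383 3 eng mog cd0q1 cd4q2a pd1 false true false .dn 1 1 2
    ndB0q1 ndB4q2a pcB1 Cut.none Ext.none :=
  certB0 (fam := false) (s1 := true) (s2 := false) (a := 1) (b := 1) (c := 2) (cn := .dn) (n1 := ndB0q1) (n2 := ndB4q2a) (pc := pcB1) (cut := Cut.none) (xt := Ext.none) (P1 := 536870912) (W1 := 536870912) (P2 := 0) (W2 := 536870912) (P3 := 649613803) (W3 := 48318383) (N0 := 3) (En := eng) (mo := mog) (C1 := cd0q1) (C2 := cd4q2a) (C3 := pd1)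
    rfl k0_pm_112_a

noncomputable def xt_pm_112_b : Ext := extD2 3 ⟨7, 3, 3, 10, 377, 200, 77, 100, 17, 50, 3, 16⟩ eng cd0q1 cd4q2b pd1 false true false .dn 1 1 2 rfl ndB0q1 ndB4q2b pcB1

noncomputable def f_pm_112_b : ℕ → ℕ → ℕ → ℕ → Bool := onCell 536870912 536870912 1239849684 370763052 649613803 48318383
    (rowB 3 eng mog cd0q1 cd4q2b pd1 0 false true false .dn 1 1 2 (qsf 536870912 536870912 1239849684 370763052 1) ndB0q1 ndB4q2b pcB1 Cut.none xt_pm_112_b)

def k0_pm_112_b : ∃ t, chk3 f_pm_112_b t 1 1 1 = true :=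
  ⟨(a (a (b (a (b (a (l 16434696) (l 16459216)) (b (l 16419720) (l 16391416))) (b (b (l 16488640) (l 16498288)) (b (l 16493504) (l 16482008)))) (a (b (b (a (l 16332032) (l 16387232)) (a (l 16296480) (l 16357080))) (a (b (l 16251880) (l 16204952)) (l 16366664))) (b (b (l 16467744) (a (l 16418088) (l 16478040))) (b (a (l 16389432) (l 16456440)) (l 16402792))))) (b (a (b (b (l 16530080) (l 16553240)) (l 16603472)) (b (a (l 16578064) (l 16598472)) (l 16620496))) (a (b (b (l 16560080) (l 16558352)) (a (b (l 16521464) (l 16513856)) (b (l 16580440) (l 16583008)))) (b (a (l 16617768) (l 16647816)) (a (l 16636360) (l 16680672)))))) (a (b (b (l 1) (a (a (l 16647336) (l 16649496)) (a (l 253973395191) (l 1)))) (a (b (a (l 16664320) (l 16663320)) (a (l 16711072) (l 16720928))) (b (a (l 16641224) (l 16603376)) (a (l 16701072) (l 16652352))))) (b (l 1) (b (a (b (l 1) (a (l 16557600) (l 381748351127))) (l 1)) (b (a (a (l 16572824) (l 34392830391)) (b (l 1) (a (a (a (l 16470976) (l 16452200)) (a (a (l 16437656) (l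 1)) (l 1))) (l 1)))) (a (a (l 16609744) (l 16531600)) (a (a (a (l 16481880) (a (l 16466736) (l 16456384))) (a (b (a (l 16441760) (l 24192089047)) (a (l 16451264) (l 16440248))) (a (b (b (a (l 16422072) (b (l 1) (l 141260202318053407))) (a (l 16424928) (l 141086823082688543))) (b (l 141045247813435423) (l 140897157352570911))) (a (b (b (a (b (l 1) (l 3087596543436930274496626719)) (l 3)) (a (l 3087596543436831593332031519) (l 4335207989279096878348517407))) (b (l 3077925136879890645561966623) (l 140809058965717023))) (b (l 3) (c (l 2845811379513839512851415071) (l 2758768720501352634744619039))))))) (l 3)))))))), by decide +kernel⟩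

theorem c_pm_112_b : CertB 536870912 536870912 1239849684 370763052 649613803 48318383 3 eng mog cd0q1 cd4q2b pd1 false true false .dn 1 1 2
    ndB0q1 ndB4q2b pcB1 Cut.none xt_pm_112_b :=
  certB0 (fam := false) (s1 := true) (s2 := false) (a := 1) (b := 1) (c := 2) (cn := .dn) (n1 := ndB0q1) (n2 := ndB4q2b) (pc := pcB1) (cut := Cut.none) (xt := xt_pm_112_b) (P1 := 536870912) (W1 := 536870912) (P2 := 1239849684) (W2 := 370763052) (P3 := 649613803) (W3 := 48318383) (N0 := 3) (En := eng) (mo := mog) (C1 := cd0q1) (C2 := cd4q2b) (C3 := pd1)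
    rfl k0_pm_112_b

noncomputable def cut_pm_113 : Cut := Cut.of [[⟨0, 1, 0, 67108864⟩, ⟨1, 1, 0, 67108864⟩, ⟨2, 2, 0, 16777216⟩]]

noncomputable def xt_pm_113 : Ext := extD2 3 ⟨7, 3, 3, 10, 377, 200, 77, 100, 17, 50, 3, 16⟩ eng cd0q1 cd4q3 pd1 false true false .nn 1 1 3 rfl ndB0q1 ndB4q3 pcB1

noncomputable def f_pm_113 : ℕ → ℕ → ℕ → ℕ → Bool := onCell 536870912 536870912 536870912 536870912 649613803 48318383
    (rowB 3 eng mog cd0q1 cd4q3 pd1 1 false true false .nn 1 1 3 (qsf 536870912 536870912 1610612736 536870912 1) ndB0q1 ndB4q3 pcB1 cut_pm_113 xt_pm_113)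

def k0_pm_113 : ∃ t, chk3 f_pm_113 t 2 2 1 = true :=
  ⟨(a (l 1) (b (l 1) (a (l 1) (b (l 1) (a (l 1) (l 16660888)))))), by decide +kernel⟩

def k1_pm_113 : ∃ t, chk3 f_pm_113 t 6 2 1 = true :=
  ⟨(a (b (l 1) (b (l 16700464) (l 16756888))) (a (b (l 1) (l 16843144)) (b (b (l 1) (l 16671312)) (b (l 16767520) (l 16926768))))), by decide +kernel⟩

def k2_pm_113 : ∃ t, chk3 f_pm_113 t 7 4 1 = true :=
  ⟨(a (a (b (l 1) (l 16650528)) (b (a (l 1) (l 16535712)) (b (l 16593224) (l 16641384)))) (a (b (a (b (l 1) (a (l 16527872) (l 16513624))) (b (a (l 1) (a (l 1) (a (l 1) (a (l 1) (l 3))))) (a (b (l 16491336) (l 16506056)) (b (a (l 141384584697266207) (c (a (l 141411179153031199) (b (l 3126282169664762235481473055) (l 3348724520473919424584712223))) (l 141171210673192991))) (a (l 141517694354604063) (c (b (l 3667880936852279451979759647) (l 141574113072939039)) (l 141294012405153823))))))) (a (a (b (l 16562464) (l 16612336)) (b (l 16549152) (l 16599752))) (b (a (a (l 16538320) (l 16509760)) (a (b (l 141676573822238751)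 (l 16534264)) (b (a (l 141602013177462815) (l 141551298195128351)) (l 141764466061115423)))) (a (l 16564744) (b (l 142041543052689439) (l 142306044379365407)))))) (a (a (b (b (l 3) (b (l 3) (b (l 3) (c (l 3000553884424986349180502047) (l 3174639202449243086247673887))))) (b (a (b (a (c (l 3358395927031162325800009759) (l 141372352630865951)) (l 3)) (b (l 3426095772929768201727377439) (l 3571166871283611938527019039))) (l 3)) (a (b (b (l 2826468566401110455540056095) (l 2168812920530878765806436383)) (a (l 142171216745365535) (l 142296835983556639))) (b (l 3) (a (l 3010225290982743478404710431) (l 3)))))) (l 3)) (l 3)))), by decide +kernel⟩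

def k3_pm_113 : ∃ t, chk3 f_pm_113 t 7 5 1 = true :=
  ⟨(a (b (a (l 16767712) (l 16725104)) (a (b (l 16908376) (l 16923808)) (b (a (l 16872040) (l 16823544)) (l 16763672)))) (a (b (a (b (b (l 16654144) (l 16692608)) (a (l 16750616) (l 16728872))) (b (a (l 16653352) (b (l 142619611422162975) (l 16613712))) (b (l 16624360) (a (l 16717032) (a (l 16680712) (l 16629368)))))) (a (b (b (l 16683616) (l 16791640)) (a (l 16844288) (l 16827896))) (b (b (b (l 602326689432837436893279) (l 16696200)) (a (l 16768496) (l 604333061707882470141151))) (b (l 16746312) (l 16751128))))) (a (b (b (a (a (b (a (l 142482997082456095) (l 142425341476077599)) (l 142766190107787295)) (b (a (b (l 2681397468047841557289451551) (l 2207498546758770169048743967)) (l 3)) (a (b (l 142605455224258591) (l 142740695178149919)) (l 3687223749967312330266394655)))) (l 3)) (a (a (b (l 143017909595471967) (b (l 143009663288066143) (l 16647880))) (a (b (l 142748529145315423) (b (l 142929948595077215) (l 143277669264310367))) (b (b (l 4006380166345213242775732383)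 (l 4325536582723672294938722399)) (b (b (a (l 143030279017021535) (l 4228822517154621257993240671)) (l 4760749877785154439588200543)) (c (l 143400470998122719) (a (l 143084430055260255) (l 143068899365093471))))))) (a (b (l 3) (a (b (l 3) (c (l 3987037353232357810229199071) (l 4277179549939534835378339935))) (l 3))) (l 3)))) (b (a (b (b (a (l 16705688) (c (l 143557013995454687) (l 143289145416630367))) (a (l 16720704) (c (l 16725104) (l 16702648)))) (b (a (l 16734816) (l 602808034687470713629919)) (l 603320076365907342203935))) (a (c (b (b (l 4035394386017162192383983839) (l 4228822517155661671077839071)) (b (l 4451867669803025587105049887) (l 258402633239))) (b (a (b (l 4170794077813707502601551967) (l 4499621900749098225433608415)) (l 3)) (b (l 4393838726058234966496898271) (l 220284757687)))) (l 3))) (a (b (c (l 16765176) (l 605618137154965016943647)) (b (l 16780440) (l 16792408))) (b (a (b (c (l 230485360215) (l 168745184327)) (a (l 16757448) (l 230485388407))) (l 3)) (b (a (a (l 16769168) (l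 179482666551)) (l 454360533159)) (a (l 16778624) (c (l 228337905559) (l 173577111207)))))))) (l 3)))), by decide +kernel⟩

def k4_pm_113 : ∃ t, chk3 f_pm_113 t 2 3 1 = true :=
  ⟨(a (b (a (l 1) (b (l 1) (b (l 1) (l 16380864)))) (a (a (b (l 1) (l 16162280)) (b (l 16274104) (l 16210992))) (a (b (l 16321672) (l 16276024)) (b (l 16384920) (l 16360376))))) (b (a (b (a (l 1) (l 16552600)) (a (b (l 16479272) (l 16471960)) (b (l 16548184) (l 16552504)))) (b (a (l 16616816) (l 16693448)) (a (b (l 16631392) (l 16648624)) (b (l 16711592) (l 16694784))))) (a (b (a (l 16466232) (l 16566408)) (a (b (l 16466000) (a (l 16438944) (l 16479376))) (b (a (l 16530400) (l 16560720)) (l 16434456)))) (b (a (b (l 16633064) (a (l 16604480) (l 16608096))) (b (a (l 16668320) (l 16688232)) (a (l 16690000) (l 16659376)))) (a (b (l 16569920) (c (l 16590144) (l 16509144))) (b (c (l 16649240) (l 16600192)) (c (l 16619216) (l 16526688)))))))), by decide +kernel⟩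

def k5_pm_113 : ∃ t, chk3 f_pm_113 t 6 3 1 = true :=
  ⟨(b (a (b (a (l 16787088) (l 16859336)) (a (b (l 16758904) (a (l 16727264) (l 16751552))) (b (l 16818120) (l 16785032)))) (b (a (b (l 16960752) (l 16923240)) (l 16819064)) (a (b (l 16879536) (l 16828632)) (b (l 16934136) (l 16873192))))) (a (b (a (b (l 16690416) (l 16714480)) (b (l 16742592) (l 16700088))) (a (b (l 16695272) (c (l 16643912) (l 16545200))) (b (c (l 16703112) (l 16618776)) (l 16717072)))) (b (a (b (l 16780032) (l 16737392)) (b (l 16716552) (l 16739752))) (a (b (l 16767752) (l 16681800)) (l 16740032))))), by decide +kernel⟩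

def k6_pm_113 : ∃ t, chk3 f_pm_113 t 7 6 1 = true :=
  ⟨(a (a (b (b (l 17026424) (l 17059736)) (b (l 16978504) (l 16911232))) (b (c (l 16786592) (c (l 16819192) (l 16807392))) (b (a (l 17004792) (l 17003848)) (c (l 16966824) (l 16917112))))) (b (a (a (b (l 16758656) (l 16924320)) (b (a (l 16754032) (b (l 16828728) (l 16850712))) (b (a (l 16888392) (l 16870592)) (a (l 16906896) (l 16783976))))) (a (b (c (a (b (l 16803608) (l 16822024)) (a (b (l 16789288) (l 16808264)) (b (b (l 203104990935) (l 178945817143)) (b (l 183240832727) (l 188072692167))))) (a (b (l 16818000) (l 16823816)) (b (a (b (l 16797792) (l 16811536)) (b (l 170892790663) (c (l 172503399079) (l 168208456071)))) (a (b (l 16825000) (l 16838224)) (a (b (l 16818440) (l 16831768)) (b (l 182167131879) (l 182167163735))))))) (a (b (b (l 16848392) (l 16879336)) (b (l 16929544) (l 16874384))) (b (a (c (l 16826480) (b (l 16851160) (l 16862072))) (c (b (l 190757075223) (l 190757091447)) (b (b (l 181093445399) (a (l 16848016) (l 181093454599)))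 (a (l 16854688) (l 16870488))))) (b (a (l 16852608) (b (a (l 16843664) (l 16859944)) (l 16866072))) (a (l 16860160) (l 16892776)))))) (b (l 3) (a (a (a (b (b (l 3) (l 3)) (b (b (l 350207805959) (l 193978375015)) (l 202031460887))) (l 3)) (l 3)) (l 3))))) (a (a (b (l 16919256) (l 16964520)) (b (a (l 16930616) (l 16868680)) (l 16832712))) (a (a (b (b (l 16906048) (l 16876480)) (l 16854384)) (b (b (a (l 16892040) (b (l 16858280) (l 16865360))) (c (l 16864824) (l 16917272))) (b (c (l 16875536) (l 16906816)) (l 16855096)))) (a (b (a (b (b (l 207400184343) (l 215990136071)) (b (l 224580086503) (l 16890464))) (l 3)) (c (b (l 225116813527) (l 257329202839)) (b (a (l 225116933831) (l 553145091975)) (l 225116810999)))) (l 3)))))), by decide +kernel⟩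

def k7_pm_113 : ∃ t, chk3 f_pm_113 t 14 7 1 = true :=
  ⟨(b (a (b (l 16860160) (l 16821752)) (b (l 16890288) (l 16847144))) (a (b (l 16789360) (l 16761440)) (b (l 16810592) (l 16779936)))), by decide +kernel⟩

def k8_pm_113 : ∃ t, chk3 f_pm_113 t 15 14 1 = true :=
  ⟨(a (a (b (l 16906680) (l 16858960)) (b (l 16810480) (l 16843704))) (a (b (b (l 16822464) (l 16779240)) (b (l 16795160) (c (l 16867536) (l 16842992)))) (a (b (b (c (a (l 16875176) (l 16868064)) (l 242833590983)) (a (l 16865640) (b (l 16821920) (l 16835952)))) (b (a (l 16858664) (b (l 16854184) (l 16829584))) (b (l 16778168) (l 16767216)))) (a (b (b (l 3) (b (l 3) (l 227801093415))) (b (c (l 225653586279) (l 190757058231)) (b (l 235317264983) (l 239075337175)))) (l 3))))), by decide +kernel⟩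

def k9_pm_113 : ∃ t, chk3 f_pm_113 t 15 15 1 = true :=
  ⟨(b (a (b (l 16830672) (l 16854184)) (a (b (l 16709192) (c (l 16824960) (l 16806048))) (a (b (b (l 16756808) (l 16746904)) (a (l 16795664) (b (l 16779520) (l 16770512)))) (b (c (a (l 16837856) (l 243907185559)) (a (c (l 16832272) (b (l 16828256) (l 16819584))) (b (l 3) (l 208473700551)))) (b (c (l 270213863831) (a (a (l 16814808) (l 16794416)) (b (l 213842406167) (l 219747978615)))) (c (a (l 16817808) (l 264308279607)) (a (l 16817480) (a (c (l 16789712) (l 190220140247)) (l 3))))))))) (a (a (l 16786624) (l 16788888)) (a (b (c (l 16806264) (l 16790488)) (l 16800424)) (a (b (c (l 16804712) (a (l 16793344) (l 16794536))) (b (l 16798272) (l 16780216))) (a (b (b (c (l 16808456) (l 16799368)) (c (l 16799488) (l 16792184))) (b (c (l 16790800) (l 16785328)) (a (l 16780520) (l 6)))) (b (a (b (c (l 16787160) (a (l 16810616) (b (l 16807608) (l 16798632)))) (c (l 16786024) (b (l 16800128) (l 16791384)))) (a (c (b (l 247128415511) (c (l 16787760) (l 211694939783)))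 (b (c (l 218674250807) (l 149954808167)) (c (b (l 16797152) (l 16793312)) (b (l 170892759991) (l 192904461063))))) (l 3))) (b (b (a (c (l 16792584) (l 16787960)) (a (c (c (l 16792920) (l 16791552)) (c (l 16789568) (a (l 16787160) (l 16787416)))) (b (l 3) (l 6)))) (a (c (l 16788280) (l 16784592)) (l 6))) (l 6)))))))), by decide +kernel⟩

theorem s10_pm_113 : ∃ t, chk3 f_pm_113 t 15 7 1 = true := ex3_b k8_pm_113 k9_pm_113

theorem s11_pm_113 : ∃ t, chk3 f_pm_113 t 7 7 1 = true := ex3_a k7_pm_113 s10_pm_113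

theorem s12_pm_113 : ∃ t, chk3 f_pm_113 t 7 3 1 = true := ex3_b k6_pm_113 s11_pm_113

theorem s13_pm_113 : ∃ t, chk3 f_pm_113 t 3 3 1 = true := ex3_a k5_pm_113 s12_pm_113

theorem s14_pm_113 : ∃ t, chk3 f_pm_113 t 1 3 1 = true := ex3_a k4_pm_113 s13_pm_113

theorem s15_pm_113 : ∃ t, chk3 f_pm_113 t 7 2 1 = true := ex3_b k2_pm_113 k3_pm_113

theorem s16_pm_113 : ∃ t, chk3 f_pm_113 t 3 2 1 = true := ex3_a k1_pm_113 s15_pm_113

theorem s17_pm_113 : ∃ t, chk3 f_pm_113 t 1 2 1 = true := ex3_a k0_pm_113 s16_pm_113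

theorem s18_pm_113 : ∃ t, chk3 f_pm_113 t 1 1 1 = true := ex3_b s17_pm_113 s14_pm_113

theorem c_pm_113 : CertB 536870912 536870912 1610612736 536870912 649613803 48318383 3 eng mog cd0q1 cd4q3 pd1 false true false .nn 1 1 3
    ndB0q1 ndB4q3 pcB1 cut_pm_113 xt_pm_113 :=
  certB1 (fam := false) (s1 := true) (s2 := false) (a := 1) (b := 1) (c := 3) (cn := .nn) (n1 := ndB0q1) (n2 := ndB4q3) (pc := pcB1) (cut := cut_pm_113) (xt := xt_pm_113) (P1 := 536870912) (W1 := 536870912) (P2 := 1610612736) (W2 := 536870912) (P3 := 649613803) (W3 := 48318383) (N0 := 3) (En := eng) (mo := mog) (C1 := cd0q1) (C2 := cd4q3) (C3 := pd1)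
    rfl (fun _ => rfl) s18_pm_113

end Pool.Agent.Strip051.G.I6050_6500.Tab.C.BB04

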