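import Pool.Agent.Strip051.G.I6050_6500.Tab

/-! # Certificates B28 (generated) -/

set_option linter.all false
set_option maxRecDepth 100000

namespace Pool.Agent.Strip051.G.I6050_6500.Tab.C.BB04

open Pool.Agent.Strip051.PB Pool.Agent.Strip051.PB.T
open Pool.Agent.Strip051.G.I6050_6500.Tab

noncomputable def cut_pm_123 : Cut := Cut.of [[⟨0, 1, 0, 67108864⟩, ⟨1, 1, 0, 67108864⟩, ⟨2, 2, 0, 16777216⟩]]

noncomputable def f_pm_123 : ℕ → ℕ → ℕ → ℕ → Bool := onCell 536870912 536870912 1073741824 536870912 649613803 48318383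
    (rowB 3 eng mog cd0q1 cd4q3 pd2 1 false true false .npn 1 2 3 (qsf 536870912 536870912 1610612736 536870912 2) ndB0q1 ndB4q3 pcB2 cut_pm_123 Ext.none)

def k0_pm_123 : ∃ t, chk3 f_pm_123 t 2 1 1 = true :=
  ⟨(b (a (b (a (b (a (b (l 16121368) (l 16132824)) (b (l 16182360) (l 16194992))) (a (b (l 16145784) (l 16160112)) (b (b (l 16205432) (l 16212592)) (l 16214552)))) (b (a (b (l 16261424) (a (l 16253080) (l 16297664))) (b (a (l 16334456) (l 16390544)) (l 16355464))) (a (b (l 16278560) (l 16265080)) (b (l 16329264) (l 16306488))))) (b (a (b (a (l 16167112) (l 16210232)) (a (l 16169504) (l 16217632))) (a (b (l 16254296) (l 16447576)) (b (l 16292768) (l 16425112)))) (a (b (l 16238112) (l 16291104)) (b (l 16329944) (l 16385872))))) (b (a (b (a (b (c (l 16483472) (l 16399160)) (l 16403392)) (c (l 16491672) (a (l 16401712) (l 16415576)))) (a (b (l 16368600) (l 16343408)) (b (c (l 16459864) (l 16344456)) (l 16380624)))) (b (a (b (l 16497560) (c (l 16528152) (l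 16411880))) (a (b (l 16582856) (l 16493528)) (b (l 16551808) (l 16507432)))) (a (b (l 16626784) (l 16417440)) (c (l 16508264) (l 16411296))))) (a (b (b (a (l 16331720) (l 16369632)) (b (l 16348440) (l 16364888))) (a (l 16417192) (l 16452488))) (b (b (l 16422456) (b (l 16418120) (l 16435840))) (l 16657856))))) (a (b (a (b (l 16397216) (l 16486568)) (b (l 16467320) (l 16738824))) (a (b (l 16590144) (l 16673272)) (b (l 16667376) (b (l 16725872) (l 2))))) (b (a (b (l 16545664) (l 16646032)) (b (l 16642656) (b (l 16692616) (l 2)))) (a (b (a (l 16719440) (l 2)) (l 2)) (l 2))))), by decide +kernel⟩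

def k1_pm_123 : ∃ t, chk3 f_pm_123 t 3 1 1 = true :=
  ⟨(b (a (b (a (b (a (b (c (l 16625880) (l 16513152)) (l 16532752)) (a (l 16808848) (l 16786952))) (a (l 16642080) (l 16619912))) (b (a (b (l 16647472) (l 16611544)) (b (l 16682600) (l 16648584))) (a (b (l 16586824) (l 16575304)) (b (l 16629872) (l 16628288))))) (b (a (b (l 16503280) (b (l 16506208) (l 16527048))) (b (b (a (l 16576560) (l 16639544)) (a (b (l 16580744) (l 16586000)) (l 16652176))) (a (b (l 16593312) (l 16615936)) (l 16672128)))) (a (b (l 16720088) (l 16754336)) (a (b (l 16657592) (l 2)) (l 2))))) (b (b (a (b (a (a (l 16701816) (l 16715976)) (l 16735432)) (a (l 16685688) (l 16740552))) (a (b (a (l 16749992) (l 16758760)) (b (l 16747752) (l 603006921543))) (b (a (a (l 16792344) (b (l 16769408) (l 16809640))) (a (b (b (l 16772944) (l 6)) (a (l 1063642059831) (l 2))) (b (a (l 6) (b (l 6) (l 2))) (l 2)))) (a (b (l 1019618765495) (l 2)) (l 2))))) (a (a (b (l 16676680) (l 16684400)) (b (l 16711888)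 (l 734003596743))) (b (a (a (l 16933872) (l 2)) (l 2)) (l 2)))) (a (b (b (b (a (l 16697784) (l 2)) (l 2)) (l 2)) (l 2)) (l 2)))) (a (b (a (b (a (l 16679152) (l 2)) (l 2)) (l 2)) (l 2)) (l 2))), by decide +kernel⟩

theorem s2_pm_123 : ∃ t, chk3 f_pm_123 t 1 1 1 = true := ex3_a k0_pm_123 k1_pm_123

theorem c_pm_123 : CertB 536870912 536870912 1610612736 536870912 649613803 48318383 3 eng mog cd0q1 cd4q3 pd2 false true false .npn 1 2 3
    ndB0q1 ndB4q3 pcB2 cut_pm_123 Ext.none :=
  certB1 (fam := false) (s1 := true) (s2 := false) (a := 1) (b := 2) (c := 3) (cn := .npn) (n1 := ndB0q1) (n2 := ndB4q3) (pc := pcB2) (cut := cut_pm_123) (xt := Ext.none) (P1 := 536870912) (W1 := 536870912) (P2 := 1610612736) (W2 := 536870912) (P3 := 649613803) (W3 := 48318383) (N0 := 3) (En := eng) (mo := mog) (C1 := cd0q1) (C2 := cd4q3) (C3 := pd2)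
    rfl (fun _ => rfl) s2_pm_123

noncomputable def f_pm_133 : ℕ → ℕ → ℕ → ℕ → Bool := onCell 536870912 536870912 1610612736 536870912 649613803 48318383
    (rowB 3 eng mog cd0q1 cd4q3 pd3 0 false true false .dn 1 3 3 (qsf 536870912 536870912 1610612736 536870912 3) ndB0q1 ndB4q3 pcB3 Cut.none Ext.none)

def k0_pm_133 : ∃ t, chk3 f_pm_133 t 1 1 1 = true :=
  ⟨(a (b (l 1) (a (b (l 1) (a (l 16663656) (l 1))) (l 1))) (l 1)), by decide +kernel⟩

theorem c_pm_133 : CertB 536870912 536870912 1610612736 536870912 649613803 48318383 3 eng mog cd0q1 cd4q3 pd3 false true false .dn 1 3 3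
    ndB0q1 ndB4q3 pcB3 Cut.none Ext.none :=
  certB0 (fam := false) (s1 := true) (s2 := false) (a := 1) (b := 3) (c := 3) (cn := .dn) (n1 := ndB0q1) (n2 := ndB4q3) (pc := pcB3) (cut := Cut.none) (xt := Ext.none) (P1 := 536870912) (W1 := 536870912) (P2 := 1610612736) (W2 := 536870912) (P3 := 649613803) (W3 := 48318383) (N0 := 3) (En := eng) (mo := mog) (C1 := cd0q1) (C2 := cd4q3) (C3 := pd3)
    rfl k0_pm_133

noncomputable def cut_pm_202_a : Cut := Cut.of [[⟨0, 1, 0, 67108864⟩, ⟨1, 0, 0, 67108864⟩, ⟨2, 1, 0, 67108864⟩]]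

noncomputable def f_pm_202_a : ℕ → ℕ → ℕ → ℕ → Bool := onCell 0 536870912 0 536870912 649613803 48318383
    (rowB 3 eng mog cd0q2 cd4q2a pd0 0 false true false .pp 2 0 2 (qsf 0 536870912 0 536870912 0) ndB0q2 ndB4q2a pcB0 cut_pm_202_a Ext.none)

def k0_pm_202_a : ∃ t, chk3 f_pm_202_a t 1 1 1 = true :=
  ⟨(a (l 3) (b (l 3) (a (l 3) (b (l 3) (a (l 3) (b (l 3) (l 6))))))), by decide +kernel⟩

theorem c_pm_202_a : CertB 0 536870912 0 536870912 649613803 48318383 3 eng mog cd0q2 cd4q2a pd0 false true false .pp 2 0 2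
    ndB0q2 ndB4q2a pcB0 cut_pm_202_a Ext.none :=
  certB0 (fam := false) (s1 := true) (s2 := false) (a := 2) (b := 0) (c := 2) (cn := .pp) (n1 := ndB0q2) (n2 := ndB4q2a) (pc := pcB0) (cut := cut_pm_202_a) (xt := Ext.none) (P1 := 0) (W1 := 536870912) (P2 := 0) (W2 := 536870912) (P3 := 649613803) (W3 := 48318383) (N0 := 3) (En := eng) (mo := mog) (C1 := cd0q2) (C2 := cd4q2a) (C3 := pd0)
    rfl k0_pm_202_a

noncomputable def cut_pm_202_b : Cut := Cut.of [[⟨0, 1, 0, 67108864⟩, ⟨1, 0, 0, 67108864⟩, ⟨2, 1, 0, 67108864⟩]]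

noncomputable def f_pm_202_b : ℕ → ℕ → ℕ → ℕ → Bool := onCell 0 536870912 1239849684 370763052 649613803 48318383
    (rowB 3 eng mog cd0q2 cd4q2b pd0 0 false true false .pp 2 0 2 (qsf 0 536870912 1239849684 370763052 0) ndB0q2 ndB4q2b pcB0 cut_pm_202_b Ext.none)

def k0_pm_202_b : ∃ t, chk3 f_pm_202_b t 1 1 1 = true :=
  ⟨(l 3), by decide +kernel⟩

theorem c_pm_202_b : CertB 0 536870912 1239849684 370763052 649613803 48318383 3 eng mog cd0q2 cd4q2b pd0 false true false .pp 2 0 2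
    ndB0q2 ndB4q2b pcB0 cut_pm_202_b Ext.none :=
  certB0 (fam := false) (s1 := true) (s2 := false) (a := 2) (b := 0) (c := 2) (cn := .pp) (n1 := ndB0q2) (n2 := ndB4q2b) (pc := pcB0) (cut := cut_pm_202_b) (xt := Ext.none) (P1 := 0) (W1 := 536870912) (P2 := 1239849684) (W2 := 370763052) (P3 := 649613803) (W3 := 48318383) (N0 := 3) (En := eng) (mo := mog) (C1 := cd0q2) (C2 := cd4q2b) (C3 := pd0)
    rfl k0_pm_202_b

noncomputable def f_pm_203 : ℕ → ℕ → ℕ → ℕ → Bool := onCell 0 536870912 0 536870912 649613803 48318383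
    (rowB 3 eng mog cd0q2 cd4q3 pd0 1 false true false .up 2 0 3 (qsf 0 536870912 1610612736 536870912 0) ndB0q2 ndB4q3 pcB0 Cut.none Ext.none)

def k0_pm_203 : ∃ t, chk3 f_pm_203 t 1 1 1 = true :=
  ⟨(b (l 1) (l 3)), by decide +kernel⟩

theorem c_pm_203 : CertB 0 536870912 1610612736 536870912 649613803 48318383 3 eng mog cd0q2 cd4q3 pd0 false true false .up 2 0 3
    ndB0q2 ndB4q3 pcB0 Cut.none Ext.none :=
  certB1 (fam := false) (s1 := true) (s2 := false) (a := 2) (b := 0) (c := 3) (cn := .up) (n1 := ndB0q2) (n2 := ndB4q3) (pc := pcB0) (cut := Cut.none) (xt := Ext.none) (P1 := 0) (W1 := 536870912) (P2 := 1610612736) (W2 := 536870912) (P3 := 649613803) (W3 := 48318383) (N0 := 3) (En := eng) (mo := mog) (C1 := cd0q2) (C2 := cd4q3) (C3 := pd0)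
    rfl (fun _ => rfl) k0_pm_203

noncomputable def cut_pm_213 : Cut := Cut.of [[⟨0, 1, 0, 67108864⟩, ⟨1, 1, 0, 67108864⟩, ⟨2, 2, 0, 16777216⟩]]

noncomputable def f_pm_213 : ℕ → ℕ → ℕ → ℕ → Bool := onCell 0 536870912 1610612736 536870912 649613803 48318383
    (rowB 3 eng mog cd0q2 cd4q3 pd1 0 false true false .pnn 2 1 3 (qsf 0 536870912 1610612736 536870912 1) ndB0q2 ndB4q3 pcB1 cut_pm_213 Ext.none)

def k0_pm_213 : ∃ t, chk3 f_pm_213 t 1 1 1 = true :=
  ⟨(a (l 3) (a (l 3) (b (l 3) (b (l 3) (b (l 3) (b (l 3) (a (l 3) (b (l 3) (b (l 3) (l 6)))))))))), by decide +kernel⟩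

theorem c_pm_213 : CertB 0 536870912 1610612736 536870912 649613803 48318383 3 eng mog cd0q2 cd4q3 pd1 false true false .pnn 2 1 3
    ndB0q2 ndB4q3 pcB1 cut_pm_213 Ext.none :=
  certB0 (fam := false) (s1 := true) (s2 := false) (a := 2) (b := 1) (c := 3) (cn := .pnn) (n1 := ndB0q2) (n2 := ndB4q3) (pc := pcB1) (cut := cut_pm_213) (xt := Ext.none) (P1 := 0) (W1 := 536870912) (P2 := 1610612736) (W2 := 536870912) (P3 := 649613803) (W3 := 48318383) (N0 := 3) (En := eng) (mo := mog) (C1 := cd0q2) (C2 := cd4q3) (C3 := pd1)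
    rfl k0_pm_213

noncomputable def f_mm_001 : ℕ → ℕ → ℕ → ℕ → Bool := onCell 0 536870912 536870912 536870912 649613803 48318383
    (rowB 3 eng mog cd0q0 cd4q1 pd0 0 false false false .up 0 0 1 (qsf 0 536870912 536870912 536870912 0) ndB0q0 ndB4q1 pcB0 Cut.none Ext.none)

def k0_mm_001 : ∃ t, chk3 f_mm_001 t 1 1 1 = true :=
  ⟨(l 3), by decide +kernel⟩

theorem c_mm_001 : CertB 0 536870912 536870912 536870912 649613803 48318383 3 eng mog cd0q0 cd4q1 pd0 false false false .up 0 0 1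
    ndB0q0 ndB4q1 pcB0 Cut.none Ext.none :=
  certB0 (fam := false) (s1 := false) (s2 := false) (a := 0) (b := 0) (c := 1) (cn := .up) (n1 := ndB0q0) (n2 := ndB4q1) (pc := pcB0) (cut := Cut.none) (xt := Ext.none) (P1 := 0) (W1 := 536870912) (P2 := 536870912) (W2 := 536870912) (P3 := 649613803) (W3 := 48318383) (N0 := 3) (En := eng) (mo := mog) (C1 := cd0q0) (C2 := cd4q1) (C3 := pd0)
    rfl k0_mm_001

noncomputable def f_mm_011 : ℕ → ℕ → ℕ → ℕ → Bool := onCell 0 536870912 536870912 536870912 649613803 48318383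
    (rowB 3 eng mog cd0q0 cd4q1 pd1 0 false false false .pnn 0 1 1 (qsf 0 536870912 536870912 536870912 1) ndB0q0 ndB4q1 pcB1 Cut.none Ext.none)

def k0_mm_011 : ∃ t, chk3 f_mm_011 t 1 1 1 = true :=
  ⟨(l 3), by decide +kernel⟩

theorem c_mm_011 : CertB 0 536870912 536870912 536870912 649613803 48318383 3 eng mog cd0q0 cd4q1 pd1 false false false .pnn 0 1 1
    ndB0q0 ndB4q1 pcB1 Cut.none Ext.none :=
  certB0 (fam := false) (s1 := false) (s2 := false) (a := 0) (b := 1) (c := 1) (cn := .pnn) (n1 := ndB0q0) (n2 := ndB4q1) (pc := pcB1) (cut := Cut.none) (xt := Ext.none) (P1 := 0) (W1 := 536870912) (P2 := 536870912) (W2 := 536870912) (P3 := 649613803) (W3 := 48318383) (N0 := 3) (En := eng) (mo := mog) (C1 := cd0q0) (C2 := cd4q1) (C3 := pd1)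
    rfl k0_mm_011

noncomputable def f_mm_012_a : ℕ → ℕ → ℕ → ℕ → Bool := onCell 0 536870912 0 536870912 649613803 48318383
    (rowB 3 eng mog cd0q0 cd4q2a pd1 0 false false false .pnp 0 1 2 (qsf 0 536870912 0 536870912 1) ndB0q0 ndB4q2a pcB1 Cut.none Ext.none)

def k0_mm_012_a : ∃ t, chk3 f_mm_012_a t 1 1 1 = true :=
  ⟨(l 5), by decide +kernel⟩

theorem c_mm_012_a : CertB 0 536870912 0 536870912 649613803 48318383 3 eng mog cd0q0 cd4q2a pd1 false false false .pnp 0 1 2
    ndB0q0 ndB4q2a pcB1 Cut.none Ext.none :=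
  certB0 (fam := false) (s1 := false) (s2 := false) (a := 0) (b := 1) (c := 2) (cn := .pnp) (n1 := ndB0q0) (n2 := ndB4q2a) (pc := pcB1) (cut := Cut.none) (xt := Ext.none) (P1 := 0) (W1 := 536870912) (P2 := 0) (W2 := 536870912) (P3 := 649613803) (W3 := 48318383) (N0 := 3) (En := eng) (mo := mog) (C1 := cd0q0) (C2 := cd4q2a) (C3 := pd1)
    rfl k0_mm_012_a

noncomputable def f_mm_012_b : ℕ → ℕ → ℕ → ℕ → Bool := onCell 0 536870912 1239849684 370763052 649613803 48318383
    (rowB 3 eng mog cd0q0 cd4q2b pd1 0 false false false .pnp 0 1 2 (qsf 0 536870912 1239849684 370763052 1) ndB0q0 ndB4q2b pcB1 Cut.none Ext.none)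

def k0_mm_012_b : ∃ t, chk3 f_mm_012_b t 1 1 1 = true :=
  ⟨(l 5), by decide +kernel⟩

theorem c_mm_012_b : CertB 0 536870912 1239849684 370763052 649613803 48318383 3 eng mog cd0q0 cd4q2b pd1 false false false .pnp 0 1 2
    ndB0q0 ndB4q2b pcB1 Cut.none Ext.none :=
  certB0 (fam := false) (s1 := false) (s2 := false) (a := 0) (b := 1) (c := 2) (cn := .pnp) (n1 := ndB0q0) (n2 := ndB4q2b) (pc := pcB1) (cut := Cut.none) (xt := Ext.none) (P1 := 0) (W1 := 536870912) (P2 := 1239849684) (W2 := 370763052) (P3 := 649613803) (W3 := 48318383) (N0 := 3) (En := eng) (mo := mog) (C1 := cd0q0) (C2 := cd4q2b) (C3 := pd1)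
    rfl k0_mm_012_b

noncomputable def f_mm_022_a : ℕ → ℕ → ℕ → ℕ → Bool := onCell 0 536870912 0 536870912 649613803 48318383
    (rowB 3 eng mog cd0q0 cd4q2a pd2 0 false false false .pp 0 2 2 (qsf 0 536870912 0 536870912 2) ndB0q0 ndB4q2a pcB2 Cut.none Ext.none)

def k0_mm_022_a : ∃ t, chk3 f_mm_022_a t 1 1 1 = true :=
  ⟨(l 5), by decide +kernel⟩

theorem c_mm_022_a : CertB 0 536870912 0 536870912 649613803 48318383 3 eng mog cd0q0 cd4q2a pd2 false false false .pp 0 2 2
    ndB0q0 ndB4q2a pcB2 Cut.none Ext.none :=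
  certB0 (fam := false) (s1 := false) (s2 := false) (a := 0) (b := 2) (c := 2) (cn := .pp) (n1 := ndB0q0) (n2 := ndB4q2a) (pc := pcB2) (cut := Cut.none) (xt := Ext.none) (P1 := 0) (W1 := 536870912) (P2 := 0) (W2 := 536870912) (P3 := 649613803) (W3 := 48318383) (N0 := 3) (En := eng) (mo := mog) (C1 := cd0q0) (C2 := cd4q2a) (C3 := pd2)
    rfl k0_mm_022_a

noncomputable def f_mm_022_b : ℕ → ℕ → ℕ → ℕ → Bool := onCell 0 536870912 1239849684 370763052 649613803 48318383
    (rowB 3 eng mog cd0q0 cd4q2b pd2 0 false false false .pp 0 2 2 (qsf 0 536870912 1239849684 370763052 2) ndB0q0 ndB4q2b pcB2 Cut.none Ext.none)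

def k0_mm_022_b : ∃ t, chk3 f_mm_022_b t 1 1 1 = true :=
  ⟨(l 5), by decide +kernel⟩

theorem c_mm_022_b : CertB 0 536870912 1239849684 370763052 649613803 48318383 3 eng mog cd0q0 cd4q2b pd2 false false false .pp 0 2 2
    ndB0q0 ndB4q2b pcB2 Cut.none Ext.none :=
  certB0 (fam := false) (s1 := false) (s2 := false) (a := 0) (b := 2) (c := 2) (cn := .pp) (n1 := ndB0q0) (n2 := ndB4q2b) (pc := pcB2) (cut := Cut.none) (xt := Ext.none) (P1 := 0) (W1 := 536870912) (P2 := 1239849684) (W2 := 370763052) (P3 := 649613803) (W3 := 48318383) (N0 := 3) (En := eng) (mo := mog) (C1 := cd0q0) (C2 := cd4q2b) (C3 := pd2)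
    rfl k0_mm_022_b

noncomputable def f_mm_023 : ℕ → ℕ → ℕ → ℕ → Bool := onCell 0 536870912 1610612736 536870912 649613803 48318383
    (rowB 3 eng mog cd0q0 cd4q3 pd2 0 false false false .up 0 2 3 (qsf 0 536870912 1610612736 536870912 2) ndB0q0 ndB4q3 pcB2 Cut.none Ext.none)

def k0_mm_023 : ∃ t, chk3 f_mm_023 t 1 1 1 = true :=
  ⟨(l 5), by decide +kernel⟩

theorem c_mm_023 : CertB 0 536870912 1610612736 536870912 649613803 48318383 3 eng mog cd0q0 cd4q3 pd2 false false false .up 0 2 3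
    ndB0q0 ndB4q3 pcB2 Cut.none Ext.none :=
  certB0 (fam := false) (s1 := false) (s2 := false) (a := 0) (b := 2) (c := 3) (cn := .up) (n1 := ndB0q0) (n2 := ndB4q3) (pc := pcB2) (cut := Cut.none) (xt := Ext.none) (P1 := 0) (W1 := 536870912) (P2 := 1610612736) (W2 := 536870912) (P3 := 649613803) (W3 := 48318383) (N0 := 3) (En := eng) (mo := mog) (C1 := cd0q0) (C2 := cd4q3) (C3 := pd2)
    rfl k0_mm_023

noncomputable def f_mm_033 : ℕ → ℕ → ℕ → ℕ → Bool := onCell 0 536870912 1610612736 536870912 649613803 48318383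
    (rowB 3 eng mog cd0q0 cd4q3 pd3 0 false false false .pnn 0 3 3 (qsf 0 536870912 1610612736 536870912 3) ndB0q0 ndB4q3 pcB3 Cut.none Ext.none)

def k0_mm_033 : ∃ t, chk3 f_mm_033 t 1 1 1 = true :=
  ⟨(l 5), by decide +kernel⟩

theorem c_mm_033 : CertB 0 536870912 1610612736 536870912 649613803 48318383 3 eng mog cd0q0 cd4q3 pd3 false false false .pnn 0 3 3
    ndB0q0 ndB4q3 pcB3 Cut.none Ext.none :=
  certB0 (fam := false) (s1 := false) (s2 := false) (a := 0) (b := 3) (c := 3) (cn := .pnn) (n1 := ndB0q0) (n2 := ndB4q3) (pc := pcB3) (cut := Cut.none) (xt := Ext.none) (P1 := 0) (W1 := 536870912) (P2 := 1610612736) (W2 := 536870912) (P3 := 649613803) (W3 := 48318383) (N0 := 3) (En := eng) (mo := mog) (C1 := cd0q0) (C2 := cd4q3) (C3 := pd3)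
    rfl k0_mm_033

noncomputable def f_mm_101 : ℕ → ℕ → ℕ → ℕ → Bool := onCell 0 536870912 536870912 536870912 649613803 48318383
    (rowB 3 eng mog cd0q1 cd4q1 pd0 2 false false false .npn 1 0 1 (qsf 536870912 536870912 536870912 536870912 0) ndB0q1 ndB4q1 pcB0 Cut.none Ext.none)

def k0_mm_101 : ∃ t, chk3 f_mm_101 t 1 1 1 = true :=
  ⟨(l 3), by decide +kernel⟩

theorem c_mm_101 : CertB 536870912 536870912 536870912 536870912 649613803 48318383 3 eng mog cd0q1 cd4q1 pd0 false false false .npn 1 0 1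
    ndB0q1 ndB4q1 pcB0 Cut.none Ext.none :=
  certB2 (fam := false) (s1 := false) (s2 := false) (a := 1) (b := 0) (c := 1) (cn := .npn) (n1 := ndB0q1) (n2 := ndB4q1) (pc := pcB0) (cut := Cut.none) (xt := Ext.none) (P1 := 536870912) (W1 := 536870912) (P2 := 536870912) (W2 := 536870912) (P3 := 649613803) (W3 := 48318383) (N0 := 3) (En := eng) (mo := mog) (C1 := cd0q1) (C2 := cd4q1) (C3 := pd0)
    rfl (fun _ => rfl) k0_mm_101

noncomputable def f_mm_102_a : ℕ → ℕ → ℕ → ℕ → Bool := onCell 536870912 536870912 0 536870912 649613803 48318383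
    (rowB 3 eng mog cd0q1 cd4q2a pd0 0 false false false .npp 1 0 2 (qsf 536870912 536870912 0 536870912 0) ndB0q1 ndB4q2a pcB0 Cut.none Ext.none)

def k0_mm_102_a : ∃ t, chk3 f_mm_102_a t 1 1 1 = true :=
  ⟨(l 3), by decide +kernel⟩

theorem c_mm_102_a : CertB 536870912 536870912 0 536870912 649613803 48318383 3 eng mog cd0q1 cd4q2a pd0 false false false .npp 1 0 2
    ndB0q1 ndB4q2a pcB0 Cut.none Ext.none :=
  certB0 (fam := false) (s1 := false) (s2 := false) (a := 1) (b := 0) (c := 2) (cn := .npp) (n1 := ndB0q1) (n2 := ndB4q2a) (pc := pcB0) (cut := Cut.none) (xt := Ext.none) (P1 := 536870912) (W1 := 536870912) (P2 := 0) (W2 := 536870912) (P3 := 649613803) (W3 := 48318383) (N0 := 3) (En := eng) (mo := mog) (C1 := cd0q1) (C2 := cd4q2a) (C3 := pd0)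
    rfl k0_mm_102_a

noncomputable def f_mm_102_b : ℕ → ℕ → ℕ → ℕ → Bool := onCell 536870912 536870912 1239849684 370763052 649613803 48318383
    (rowB 3 eng mog cd0q1 cd4q2b pd0 0 false false false .npp 1 0 2 (qsf 536870912 536870912 1239849684 370763052 0) ndB0q1 ndB4q2b pcB0 Cut.none Ext.none)

def k0_mm_102_b : ∃ t, chk3 f_mm_102_b t 1 1 1 = true :=
  ⟨(l 5), by decide +kernel⟩

theorem c_mm_102_b : CertB 536870912 536870912 1239849684 370763052 649613803 48318383 3 eng mog cd0q1 cd4q2b pd0 false false false .npp 1 0 2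
    ndB0q1 ndB4q2b pcB0 Cut.none Ext.none :=
  certB0 (fam := false) (s1 := false) (s2 := false) (a := 1) (b := 0) (c := 2) (cn := .npp) (n1 := ndB0q1) (n2 := ndB4q2b) (pc := pcB0) (cut := Cut.none) (xt := Ext.none) (P1 := 536870912) (W1 := 536870912) (P2 := 1239849684) (W2 := 370763052) (P3 := 649613803) (W3 := 48318383) (N0 := 3) (En := eng) (mo := mog) (C1 := cd0q1) (C2 := cd4q2b) (C3 := pd0)
    rfl k0_mm_102_b

noncomputable def f_mm_112_a : ℕ → ℕ → ℕ → ℕ → Bool := onCell 536870912 536870912 0 536870912 649613803 48318383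
    (rowB 3 eng mog cd0q1 cd4q2a pd1 0 false false false .dn 1 1 2 (qsf 536870912 536870912 0 536870912 1) ndB0q1 ndB4q2a pcB1 Cut.none Ext.none)

def k0_mm_112_a : ∃ t, chk3 f_mm_112_a t 1 1 1 = true :=
  ⟨(l 3), by decide +kernel⟩

theorem c_mm_112_a : CertB 536870912 536870912 0 536870912 649613803 48318383 3 eng mog cd0q1 cd4q2a pd1 false false false .dn 1 1 2
    ndB0q1 ndB4q2a pcB1 Cut.none Ext.none :=
  certB0 (fam := false) (s1 := false) (s2 := false) (a := 1) (b := 1) (c := 2) (cn := .dn) (n1 := ndB0q1) (n2 := ndB4q2a) (pc := pcB1) (cut := Cut.none) (xt := Ext.none) (P1 := 536870912) (W1 := 536870912) (P2 := 0) (W2 := 536870912) (P3 := 649613803) (W3 := 48318383) (N0 := 3) (En := eng) (mo := mog) (C1 := cd0q1) (C2 := cd4q2a) (C3 := pd1)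
    rfl k0_mm_112_a

noncomputable def f_mm_112_b : ℕ → ℕ → ℕ → ℕ → Bool := onCell 536870912 536870912 1239849684 370763052 649613803 48318383
    (rowB 3 eng mog cd0q1 cd4q2b pd1 0 false false false .dn 1 1 2 (qsf 536870912 536870912 1239849684 370763052 1) ndB0q1 ndB4q2b pcB1 Cut.none Ext.none)

def k0_mm_112_b : ∃ t, chk3 f_mm_112_b t 1 1 1 = true :=
  ⟨(l 5), by decide +kernel⟩

theorem c_mm_112_b : CertB 536870912 536870912 1239849684 370763052 649613803 48318383 3 eng mog cd0q1 cd4q2b pd1 false false false .dn 1 1 2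
    ndB0q1 ndB4q2b pcB1 Cut.none Ext.none :=
  certB0 (fam := false) (s1 := false) (s2 := false) (a := 1) (b := 1) (c := 2) (cn := .dn) (n1 := ndB0q1) (n2 := ndB4q2b) (pc := pcB1) (cut := Cut.none) (xt := Ext.none) (P1 := 536870912) (W1 := 536870912) (P2 := 1239849684) (W2 := 370763052) (P3 := 649613803) (W3 := 48318383) (N0 := 3) (En := eng) (mo := mog) (C1 := cd0q1) (C2 := cd4q2b) (C3 := pd1)
    rfl k0_mm_112_b

noncomputable def f_mm_113 : ℕ → ℕ → ℕ → ℕ → Bool := onCell 536870912 536870912 1610612736 536870912 649613803 48318383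
    (rowB 3 eng mog cd0q1 cd4q3 pd1 0 false false false .nn 1 1 3 (qsf 536870912 536870912 1610612736 536870912 1) ndB0q1 ndB4q3 pcB1 Cut.none Ext.none)

def k0_mm_113 : ∃ t, chk3 f_mm_113 t 1 1 1 = true :=
  ⟨(l 5), by decide +kernel⟩

theorem c_mm_113 : CertB 536870912 536870912 1610612736 536870912 649613803 48318383 3 eng mog cd0q1 cd4q3 pd1 false false false .nn 1 1 3
    ndB0q1 ndB4q3 pcB1 Cut.none Ext.none :=
  certB0 (fam := false) (s1 := false) (s2 := false) (a := 1) (b := 1) (c := 3) (cn := .nn) (n1 := ndB0q1) (n2 := ndB4q3) (pc := pcB1) (cut := Cut.none) (xt := Ext.none) (P1 := 536870912) (W1 := 536870912) (P2 := 1610612736) (W2 := 536870912) (P3 := 649613803) (W3 := 48318383) (N0 := 3) (En := eng) (mo := mog) (C1 := cd0q1) (C2 := cd4q3) (C3 := pd1)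
    rfl k0_mm_113

noncomputable def f_mm_123 : ℕ → ℕ → ℕ → ℕ → Bool := onCell 536870912 536870912 1610612736 536870912 649613803 48318383
    (rowB 3 eng mog cd0q1 cd4q3 pd2 0 false false false .npn 1 2 3 (qsf 536870912 536870912 1610612736 536870912 2) ndB0q1 ndB4q3 pcB2 Cut.none Ext.none)

def k0_mm_123 : ∃ t, chk3 f_mm_123 t 1 1 1 = true :=
  ⟨(l 5), by decide +kernel⟩

theorem c_mm_123 : CertB 536870912 536870912 1610612736 536870912 649613803 48318383 3 eng mog cd0q1 cd4q3 pd2 false false false .npn 1 2 3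
    ndB0q1 ndB4q3 pcB2 Cut.none Ext.none :=
  certB0 (fam := false) (s1 := false) (s2 := false) (a := 1) (b := 2) (c := 3) (cn := .npn) (n1 := ndB0q1) (n2 := ndB4q3) (pc := pcB2) (cut := Cut.none) (xt := Ext.none) (P1 := 536870912) (W1 := 536870912) (P2 := 1610612736) (W2 := 536870912) (P3 := 649613803) (W3 := 48318383) (N0 := 3) (En := eng) (mo := mog) (C1 := cd0q1) (C2 := cd4q3) (C3 := pd2)
    rfl k0_mm_123

noncomputable def f_mm_133 : ℕ → ℕ → ℕ → ℕ → Bool := onCell 536870912 536870912 1610612736 536870912 649613803 48318383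
    (rowB 3 eng mog cd0q1 cd4q3 pd3 0 false false false .dn 1 3 3 (qsf 536870912 536870912 1610612736 536870912 3) ndB0q1 ndB4q3 pcB3 Cut.none Ext.none)

def k0_mm_133 : ∃ t, chk3 f_mm_133 t 1 1 1 = true :=
  ⟨(l 5), by decide +kernel⟩

theorem c_mm_133 : CertB 536870912 536870912 1610612736 536870912 649613803 48318383 3 eng mog cd0q1 cd4q3 pd3 false false false .dn 1 3 3
    ndB0q1 ndB4q3 pcB3 Cut.none Ext.none :=
  certB0 (fam := false) (s1 := false) (s2 := false) (a := 1) (b := 3) (c := 3) (cn := .dn) (n1 := ndB0q1) (n2 := ndB4q3) (pc := pcB3) (cut := Cut.none) (xt := Ext.none) (P1 := 536870912) (W1 := 536870912) (P2 := 1610612736) (W2 := 536870912) (P3 := 649613803) (W3 := 48318383) (N0 := 3) (En := eng) (mo := mog) (C1 := cd0q1) (C2 := cd4q3) (C3 := pd3)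
    rfl k0_mm_133

noncomputable def f_mm_202_a : ℕ → ℕ → ℕ → ℕ → Bool := onCell 0 536870912 0 536870912 649613803 48318383
    (rowB 3 eng mog cd0q2 cd4q2a pd0 0 false false false .pp 2 0 2 (qsf 0 536870912 0 536870912 0) ndB0q2 ndB4q2a pcB0 Cut.none Ext.none)

def k0_mm_202_a : ∃ t, chk3 f_mm_202_a t 1 1 1 = true :=
  ⟨(l 3), by decide +kernel⟩

theorem c_mm_202_a : CertB 0 536870912 0 536870912 649613803 48318383 3 eng mog cd0q2 cd4q2a pd0 false false false .pp 2 0 2
    ndB0q2 ndB4q2a pcB0 Cut.none Ext.none :=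
  certB0 (fam := false) (s1 := false) (s2 := false) (a := 2) (b := 0) (c := 2) (cn := .pp) (n1 := ndB0q2) (n2 := ndB4q2a) (pc := pcB0) (cut := Cut.none) (xt := Ext.none) (P1 := 0) (W1 := 536870912) (P2 := 0) (W2 := 536870912) (P3 := 649613803) (W3 := 48318383) (N0 := 3) (En := eng) (mo := mog) (C1 := cd0q2) (C2 := cd4q2a) (C3 := pd0)
    rfl k0_mm_202_a

noncomputable def f_mm_202_b : ℕ → ℕ → ℕ → ℕ → Bool := onCell 0 536870912 1239849684 370763052 649613803 48318383
    (rowB 3 eng mog cd0q2 cd4q2b pd0 0 false false false .pp 2 0 2 (qsf 0 536870912 1239849684 370763052 0) ndB0q2 ndB4q2b pcB0 Cut.none Ext.none)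

def k0_mm_202_b : ∃ t, chk3 f_mm_202_b t 1 1 1 = true :=
  ⟨(l 3), by decide +kernel⟩

theorem c_mm_202_b : CertB 0 536870912 1239849684 370763052 649613803 48318383 3 eng mog cd0q2 cd4q2b pd0 false false false .pp 2 0 2
    ndB0q2 ndB4q2b pcB0 Cut.none Ext.none :=
  certB0 (fam := false) (s1 := false) (s2 := false) (a := 2) (b := 0) (c := 2) (cn := .pp) (n1 := ndB0q2) (n2 := ndB4q2b) (pc := pcB0) (cut := Cut.none) (xt := Ext.none) (P1 := 0) (W1 := 536870912) (P2 := 1239849684) (W2 := 370763052) (P3 := 649613803) (W3 := 48318383) (N0 := 3) (En := eng) (mo := mog) (C1 := cd0q2) (C2 := cd4q2b) (C3 := pd0)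
    rfl k0_mm_202_b

noncomputable def f_mm_203 : ℕ → ℕ → ℕ → ℕ → Bool := onCell 0 536870912 0 536870912 649613803 48318383
    (rowB 3 eng mog cd0q2 cd4q3 pd0 1 false false false .up 2 0 3 (qsf 0 536870912 1610612736 536870912 0) ndB0q2 ndB4q3 pcB0 Cut.none Ext.none)

def k0_mm_203 : ∃ t, chk3 f_mm_203 t 1 1 1 = true :=
  ⟨(l 3), by decide +kernel⟩

theorem c_mm_203 : CertB 0 536870912 1610612736 536870912 649613803 48318383 3 eng mog cd0q2 cd4q3 pd0 false false false .up 2 0 3
    ndB0q2 ndB4q3 pcB0 Cut.none Ext.none :=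
  certB1 (fam := false) (s1 := false) (s2 := false) (a := 2) (b := 0) (c := 3) (cn := .up) (n1 := ndB0q2) (n2 := ndB4q3) (pc := pcB0) (cut := Cut.none) (xt := Ext.none) (P1 := 0) (W1 := 536870912) (P2 := 1610612736) (W2 := 536870912) (P3 := 649613803) (W3 := 48318383) (N0 := 3) (En := eng) (mo := mog) (C1 := cd0q2) (C2 := cd4q3) (C3 := pd0)
    rfl (fun _ => rfl) k0_mm_203

noncomputable def f_mm_213 : ℕ → ℕ → ℕ → ℕ → Bool := onCell 0 536870912 1610612736 536870912 649613803 48318383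
    (rowB 3 eng mog cd0q2 cd4q3 pd1 0 false false false .pnn 2 1 3 (qsf 0 536870912 1610612736 536870912 1) ndB0q2 ndB4q3 pcB1 Cut.none Ext.none)

def k0_mm_213 : ∃ t, chk3 f_mm_213 t 1 1 1 = true :=
  ⟨(b (l 3) (a (l 3) (l 5))), by decide +kernel⟩

theorem c_mm_213 : CertB 0 536870912 1610612736 536870912 649613803 48318383 3 eng mog cd0q2 cd4q3 pd1 false false false .pnn 2 1 3
    ndB0q2 ndB4q3 pcB1 Cut.none Ext.none :=
  certB0 (fam := false) (s1 := false) (s2 := false) (a := 2) (b := 1) (c := 3) (cn := .pnn) (n1 := ndB0q2) (n2 := ndB4q3) (pc := pcB1) (cut := Cut.none) (xt := Ext.none) (P1 := 0) (W1 := 536870912) (P2 := 1610612736) (W2 := 536870912) (P3 := 649613803) (W3 := 48318383) (N0 := 3) (En := eng) (mo := mog) (C1 := cd0q2) (C2 := cd4q3) (C3 := pd1)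
    rfl k0_mm_213

end Pool.Agent.Strip051.G.I6050_6500.Tab.C.BB04

namespace Pool.Agent.Strip051.G.I6050_6500.Tab.C.BB05

open Pool.Agent.Strip051.PB Pool.Agent.Strip051.PB.T
open Pool.Agent.Strip051.G.I6050_6500.Tab

noncomputable def f_pp_001 : ℕ → ℕ → ℕ → ℕ → Bool := onCell 0 536870912 0 536870912 649613803 48318383
    (rowB 3 eng mog cd0q0 cd5q1 pd0 1 false true true .up 0 0 1 (qsf 0 536870912 536870912 536870912 0) ndB0q0 ndB5q1 pcB0 Cut.none Ext.none)

def k0_pp_001 : ∃ t, chk3 f_pp_001 t 1 1 1 = true :=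
  ⟨(l 3), by decide +kernel⟩

theorem c_pp_001 : CertB 0 536870912 536870912 536870912 649613803 48318383 3 eng mog cd0q0 cd5q1 pd0 false true true .up 0 0 1
    ndB0q0 ndB5q1 pcB0 Cut.none Ext.none :=
  certB1 (fam := false) (s1 := true) (s2 := true) (a := 0) (b := 0) (c := 1) (cn := .up) (n1 := ndB0q0) (n2 := ndB5q1) (pc := pcB0) (cut := Cut.none) (xt := Ext.none) (P1 := 0) (W1 := 536870912) (P2 := 536870912) (W2 := 536870912) (P3 := 649613803) (W3 := 48318383) (N0 := 3) (En := eng) (mo := mog) (C1 := cd0q0) (C2 := cd5q1) (C3 := pd0)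
    rfl (fun _ => rfl) k0_pp_001

noncomputable def cut_pp_011 : Cut := Cut.of [[⟨0, 0, 0, 67108864⟩, ⟨1, 1, 0, 67108864⟩, ⟨2, 1, 0, 67108864⟩]]

noncomputable def f_pp_011 : ℕ → ℕ → ℕ → ℕ → Bool := onCell 0 536870912 536870912 536870912 649613803 48318383
    (rowB 3 eng mog cd0q0 cd5q1 pd1 1 false true true .pnn 0 1 1 (qsf 0 536870912 536870912 536870912 1) ndB0q0 ndB5q1 pcB1 cut_pp_011 Ext.none)

def k0_pp_011 : ∃ t, chk3 f_pp_011 t 1 1 1 = true :=
  ⟨(b (l 3) (a (b (l 3) (a (b (l 3) (a (b (l 3) (a (l 6) (l 3))) (l 3))) (l 3))) (l 3))), by decide +kernel⟩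

theorem c_pp_011 : CertB 0 536870912 536870912 536870912 649613803 48318383 3 eng mog cd0q0 cd5q1 pd1 false true true .pnn 0 1 1
    ndB0q0 ndB5q1 pcB1 cut_pp_011 Ext.none :=
  certB1 (fam := false) (s1 := true) (s2 := true) (a := 0) (b := 1) (c := 1) (cn := .pnn) (n1 := ndB0q0) (n2 := ndB5q1) (pc := pcB1) (cut := cut_pp_011) (xt := Ext.none) (P1 := 0) (W1 := 536870912) (P2 := 536870912) (W2 := 536870912) (P3 := 649613803) (W3 := 48318383) (N0 := 3) (En := eng) (mo := mog) (C1 := cd0q0) (C2 := cd5q1) (C3 := pd1)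
    rfl (fun _ => rfl) k0_pp_011

noncomputable def f_pp_012 : ℕ → ℕ → ℕ → ℕ → Bool := onCell 0 536870912 536870912 536870912 649613803 48318383
    (rowB 3 eng mog cd0q0 cd5q2 pd1 1 false true true .pnp 0 1 2 (qsf 0 536870912 1073741824 536870912 1) ndB0q0 ndB5q2 pcB1 Cut.none Ext.none)

def k0_pp_012 : ∃ t, chk3 f_pp_012 t 1 1 1 = true :=
  ⟨(l 3), by decide +kernel⟩

theorem c_pp_012 : CertB 0 536870912 1073741824 536870912 649613803 48318383 3 eng mog cd0q0 cd5q2 pd1 false true true .pnp 0 1 2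
    ndB0q0 ndB5q2 pcB1 Cut.none Ext.none :=
  certB1 (fam := false) (s1 := true) (s2 := true) (a := 0) (b := 1) (c := 2) (cn := .pnp) (n1 := ndB0q0) (n2 := ndB5q2) (pc := pcB1) (cut := Cut.none) (xt := Ext.none) (P1 := 0) (W1 := 536870912) (P2 := 1073741824) (W2 := 536870912) (P3 := 649613803) (W3 := 48318383) (N0 := 3) (En := eng) (mo := mog) (C1 := cd0q0) (C2 := cd5q2) (C3 := pd1)
    rfl (fun _ => rfl) k0_pp_012

noncomputable def f_pp_022 : ℕ → ℕ → ℕ → ℕ → Bool := onCell 0 536870912 1073741824 536870912 649613803 48318383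
    (rowB 3 eng mog cd0q0 cd5q2 pd2 1 false true true .pp 0 2 2 (qsf 0 536870912 1073741824 536870912 2) ndB0q0 ndB5q2 pcB2 Cut.none Ext.none)

def k0_pp_022 : ∃ t, chk3 f_pp_022 t 1 8 1 = true :=
  ⟨(l 3), by decide +kernel⟩

def k1_pp_022 : ∃ t, chk3 f_pp_022 t 2 9 1 = true :=
  ⟨(a (b (l 3) (b (b (l 3) (b (a (l 3) (a (l 3) (c (l 16526288) (l 16527536)))) (a (a (l 3) (a (l 16514656) (c (l 16526464) (l 16528656)))) (a (a (c (l 16523848) (l 16525168)) (l 110225888279)) (b (l 16522864) (l 16519432)))))) (b (b (a (a (a (c (l 16537888) (l 16528240)) (l 16536360)) (a (l 16487784) (c (l 16521368) (l 16524112)))) (a (a (l 16410808) (l 16520936)) (a (l 16516688) (l 16512128)))) (a (a (a (c (l 16528656) (l 16518480)) (l 16527208)) (a (l 16524008) (c (l 16495560) (l 16519888)))) (a (a (l 16517216) (l 16514224)) (l 16507192)))) (c (a (a (a (b (l 16519744) (l 16511344)) (l 16517648)) (a (l 16512008) (l 16508720))) (a (l 16506112) (b (l 16502920) (l 16496496)))) (a (a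 (a (b (l 16509264) (l 16500896)) (l 16509888)) (l 16574456)) (a (l 16501016) (l 16492168))))))) (b (l 3) (b (a (b (a (l 3) (b (l 3) (l 16516328))) (a (b (a (l 16519976) (l 16515928)) (a (l 16514400) (l 16511280))) (b (a (l 16512960) (l 16510984)) (a (l 16509120) (l 16507840))))) (a (b (b (l 3) (l 16511744)) (b (a (l 16509808) (l 16509128)) (l 16507384))) (b (b (l 16510920) (a (l 16509520) (l 16509312))) (b (a (l 16508880) (l 16509336)) (l 16508608))))) (a (b (a (a (b (l 16508680) (l 16502728)) (l 16503688)) (l 16502296)) (a (b (l 16495872) (l 16490168)) (l 16493312))) (a (b (a (l 16502544) (l 16503632)) (a (l 16495672) (l 16498032))) (b (l 16506184) (l 16502560))))))), by decide +kernel⟩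

def k2_pp_022 : ∃ t, chk3 f_pp_022 t 3 9 1 = true :=
  ⟨(a (b (b (l 3) (b (l 3) (a (a (l 16509072) (l 16504104)) (a (l 16498256) (c (l 16585944) (l 16489968)))))) (a (b (a (b (a (l 16509528) (l 16508928)) (l 16511328)) (b (l 16507824) (l 16513200))) (a (b (l 16510872) (l 16509960)) (b (l 16515336) (l 16517088)))) (b (b (a (l 16505664) (l 16576408)) (a (l 16514208) (l 16513336))) (a (b (l 16518360) (l 16522512)) (b (l 16519384) (l 16525640)))))) (b (a (b (l 3) (a (b (l 16509448) (c (l 16581504) (l 16481288))) (b (c (l 16501072) (l 16460136)) (b (l 16541096) (l 16487592))))) (b (a (l 3) (l 2)) (l 2))) (a (b (a (b (l 16501944) (l 16510880)) (b (l 16518848) (l 2))) (a (b (l 16518424) (l 16525768)) (l 2))) (l 2)))), by decide +kernel⟩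

def k3_pp_022 : ∃ t, chk3 f_pp_022 t 4 10 1 = true :=
  ⟨(b (b (a (b (a (a (c (a (l 16498136) (l 16499760)) (l 16488752)) (c (l 16501320) (l 16493712))) (a (l 16561960) (l 16494520))) (a (a (c (l 16482032) (l 16471744)) (l 16531168)) (a (l 16522432) (l 16377672)))) (b (a (a (b (l 16493768) (l 16485200)) (b (l 16489776) (l 16482064))) (l 16503824)) (a (a (b (l 16476840) (l 16468688)) (l 16470912)) (l 16470272)))) (b (a (a (a (b (l 16464272) (l 16455504)) (b (l 16468192) (l 16458888))) (b (a (l 16465992) (l 16462584)) (a (l 16456312) (l 16453928)))) (a (b (l 16460312) (l 16453096)) (b (l 16461520) (l 16455904)))) (b (a (a (a (b (l 16448528) (l 16443616)) (b (l 16451552) (l 16446408))) (b (l 16448104) (l 16443712))) (a (b (l 16447816) (l 16444192)) (l 16449944))) (a (b (a (a (b (l 16440232) (l 16438264)) (l 16462600)) (c (l 16445928) (l 16431856))) (b (b (b (a (a (l 16436944) (l 16438928)) (l 16437064)) (b (a (a (l 16436472) (l 16438400)) (l 16436640)) (a (a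 (l 16435984) (l 16437936)) (l 16436328)))) (a (a (l 16435360) (l 16437192)) (l 16435672))) (a (a (l 16433808) (l 16435384)) (l 16434104)))) (b (a (c (l 16448592) (l 16431744)) (l 16445504)) (b (b (b (a (l 16438736) (l 16444064)) (a (b (l 16438456) (l 16438336)) (a (l 16442464) (l 16445936)))) (a (l 16437800) (l 16443576))) (a (l 16436504) (l 16442512)))))))) (a (a (b (a (a (l 16434936) (l 16415400)) (l 16415568)) (a (l 16378208) (l 16381152))) (b (a (l 16416176) (l 16417864)) (l 16387032))) (a (b (l 16422264) (l 16397704)) (b (l 16430840) (l 16410792))))), by decide +kernel⟩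

def k4_pp_022 : ∃ t, chk3 f_pp_022 t 5 10 1 = true :=
  ⟨(b (b (a (b (a (l 16482312) (l 16485344)) (a (l 16472704) (l 16478496))) (a (b (l 16533392) (l 16508112)) (b (l 16499856) (l 16497672)))) (b (a (a (b (l 16466272) (l 16461664)) (b (l 16473912) (l 16469720))) (a (b (l 16483688) (l 16479640)) (l 16493016))) (a (b (a (l 16456376) (l 16465216)) (b (a (l 16452864) (l 16462600)) (b (b (b (a (l 16451888) (l 16462096)) (a (c (l 16463000) (l 16440872)) (c (l 16495288) (l 16471792)))) (a (l 16451832) (l 16462480))) (a (l 16450976) (l 16461792))))) (b (a (l 16476096) (l 16488920)) (b (a (l 16474384) (l 16488192)) (a (a (a (l 16469896) (l 16473200)) (l 16478384)) (l 16552496))))))) (a (a (b (l 16441536) (l 16477768)) (b (l 16454192) (l 16441280))) (a (l 16484768) (l 16482112)))), by decide +kernel⟩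

def k5_pp_022 : ∃ t, chk3 f_pp_022 t 2 11 1 = true :=
  ⟨(a (a (a (b (a (b (l 16344424) (l 16314536)) (b (l 16350480) (l 16323448))) (a (b (l 16288464) (l 16266096)) (l 16289560))) (b (a (l 16344424) (l 16352808)) (a (l 16302232) (l 16314944)))) (a (b (a (l 16361720) (l 16371016)) (a (l 16327816) (b (l 16347328) (l 16334832)))) (b (b (l 16393224) (l 16399056)) (b (l 16365376) (l 16355168))))) (a (a (b (b (l 16411176) (l 16399144)) (l 16385264)) (b (l 16425320) (l 16410984))) (a (b (l 16447568) (l 16437944)) (b (l 16471432) (l 16466104))))), by decide +kernel⟩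

def k6_pp_022 : ∃ t, chk3 f_pp_022 t 3 5 1 = true :=
  ⟨(b (a (b (b (a (a (b (l 16509872) (l 16509384)) (b (l 16519440) (l 16519840))) (b (a (l 16526568) (l 16530248)) (a (l 16526912) (l 16530448)))) (b (a (a (l 16505488) (l 16517024)) (a (l 16525792) (l 16530952))) (b (a (a (l 16502952) (l 16516080)) (a (l 16526432) (l 16533136))) (a (b (a (l 16503280) (l 16517512)) (a (l 16505664) (l 16520944))) (b (a (l 16529016) (l 16536856)) (a (l 16533520) (l 16542456))))))) (a (a (l 16501648) (l 16520224)) (a (l 16535808) (l 16547392)))) (b (b (a (b (a (l 16529624) (l 2)) (l 2)) (l 2)) (l 2)) (l 2))) (a (a (a (b (l 16496208) (l 16494832)) (b (l 16519656) (l 16521112))) (b (a (l 16539640) (l 2)) (l 2))) (l 2))), by decide +kernel⟩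

def k7_pp_022 : ∃ t, chk3 f_pp_022 t 1 3 1 = true :=
  ⟨(a (b (a (a (b (a (b (a (b (l 16247320) (l 16231840)) (b (l 16263352) (l 16249688))) (a (b (l 16218944) (l 16208880)) (b (l 16238256) (l 16229768)))) (b (b (l 16286704) (a (l 16266984) (l 16283968))) (a (l 16253328) (l 16272688)))) (a (b (a (b (l 16201984) (l 16198920)) (b (l 16224840) (l 16223632))) (a (c (l 16239688) (l 16164384)) (c (l 16268184) (l 16189680)))) (b (a (l 16246752) (l 16268872)) (a (l 16253888) (l 16278240))))) (b (b (a (b (l 16317392) (l 16309296)) (l 16344392)) (a (l 16301064) (l 16337144))) (b (a (l 16300720) (l 16340680)) (a (b (l 16308624) (l 16317528)) (l 16354968))))) (b (a (b (a (l 16374488) (l 16404296)) (a (l 16371264) (l 16404352))) (b (a (l 16434856) (l 16465680)) (a (l 16437912) (l 16471368)))) (a (b (a (l 16377776) (l 16413320)) (a (l 16392584) (l 16428728))) (b (l 16527000) (l 2))))) (a (b (a (a (b (b (a (l 16212232) (l 16240736)) (a (l 16242128) (l 16250176))) (a (b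 (l 16232568) (l 16245832)) (l 16351656))) (b (b (a (l 16267488) (l 16292864)) (l 16289760)) (c (l 16363608) (l 16254520)))) (b (a (l 16416352) (l 16374616)) (a (l 16356648) (l 16400976)))) (a (a (b (c (a (l 16333880) (l 16365088)) (l 16228000)) (c (a (l 16392552) (l 16424400)) (l 16267696))) (b (c (l 16407584) (l 16282944)) (c (l 16467560) (l 16324552)))) (a (b (l 16394096) (l 2)) (l 2)))) (b (a (b (l 16495728) (l 2)) (l 2)) (l 2)))) (b (a (a (a (b (l 16709616) (l 2)) (l 2)) (l 2)) (l 2)) (l 2))), by decide +kernel⟩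

theorem s8_pp_022 : ∃ t, chk3 f_pp_022 t 2 10 1 = true := ex3_a k3_pp_022 k4_pp_022

theorem s9_pp_022 : ∃ t, chk3 f_pp_022 t 2 5 1 = true := ex3_b s8_pp_022 k5_pp_022

theorem s10_pp_022 : ∃ t, chk3 f_pp_022 t 1 5 1 = true := ex3_a s9_pp_022 k6_pp_022

theorem s11_pp_022 : ∃ t, chk3 f_pp_022 t 1 9 1 = true := ex3_a k1_pp_022 k2_pp_022

theorem s12_pp_022 : ∃ t, chk3 f_pp_022 t 1 4 1 = true := ex3_b k0_pp_022 s11_pp_022

theorem s13_pp_022 : ∃ t, chk3 f_pp_022 t 1 2 1 = true := ex3_b s12_pp_022 s10_pp_022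

theorem s14_pp_022 : ∃ t, chk3 f_pp_022 t 1 1 1 = true := ex3_b s13_pp_022 k7_pp_022

theorem c_pp_022 : CertB 0 536870912 1073741824 536870912 649613803 48318383 3 eng mog cd0q0 cd5q2 pd2 false true true .pp 0 2 2
    ndB0q0 ndB5q2 pcB2 Cut.none Ext.none :=
  certB1 (fam := false) (s1 := true) (s2 := true) (a := 0) (b := 2) (c := 2) (cn := .pp) (n1 := ndB0q0) (n2 := ndB5q2) (pc := pcB2) (cut := Cut.none) (xt := Ext.none) (P1 := 0) (W1 := 536870912) (P2 := 1073741824) (W2 := 536870912) (P3 := 649613803) (W3 := 48318383) (N0 := 3) (En := eng) (mo := mog) (C1 := cd0q0) (C2 := cd5q2) (C3 := pd2)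
    rfl (fun _ => rfl) s14_pp_022

noncomputable def f_pp_023 : ℕ → ℕ → ℕ → ℕ → Bool := onCell 1073741824 536870912 0 1230186008 649613803 48318383
    (rowB 3 eng mog cd0q0 cd5q3 pd2 2 false true true .up 0 2 3 (qsf 0 536870912 0 1230186008 2) ndB0q0 ndB5q3 pcB2 Cut.none Ext.none)

def k0_pp_023 : ∃ t, chk3 f_pp_023 t 2 1 1 = true :=
  ⟨(b (l 2) (b (a (l 2) (a (l 2) (b (l 2) (b (l 2) (l 16610792))))) (a (b (l 2) (a (l 3) (b (a (b (l 2) (a (b (l 2) (l 251423039303)) (a (a (l 16546968) (l 16545320)) (l 16544064)))) (b (a (l 340476517607) (l 16548736)) (a (a (l 16540072) (l 16535296)) (l 16527256)))) (a (a (b (l 241222484695) (l 3)) (b (a (l 16513312) (l 16512096)) (a (l 207936445783) (l 16486624)))) (a (b (a (l 16509104) (l 16505512)) (a (l 16486000) (l 16482144))) (b (l 16500360) (l 16473096))))))) (b (b (a (a (l 2) (l 16591792)) (l 16554416)) (b (a (a (l 2) (b (l 16543040) (l 16527088))) (b (l 16511240) (l 16498712))) (a (a (a (b (l 2) (l 16553400)) (a (b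 (l 16551648) (l 16540592)) (a (b (l 16546832) (l 16536088)) (a (l 16540256) (b (l 16548600) (l 16537824)))))) (b (l 16526976) (l 16517640))) (b (l 16490488) (l 16470352))))) (a (b (a (a (b (l 16531456) (l 16513224)) (a (b (l 16519832) (l 16504296)) (a (b (l 16515536) (l 16499456)) (b (a (l 16515088) (l 16516584)) (a (l 16498464) (l 16499280)))))) (b (l 16500520) (l 16479264))) (a (a (b (l 16487200) (l 16490768)) (a (l 16584472) (a (l 16489856) (a (l 16499056) (l 16553248))))) (b (l 16514160) (l 16531992)))) (b (b (l 16499464) (l 16562272)) (b (l 16550296) (a (l 16528856) (l 16509752))))))))), by decide +kernel⟩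

def k1_pp_023 : ∃ t, chk3 f_pp_023 t 3 1 1 = true :=
  ⟨(b (a (l 2) (b (a (l 2) (l 16677840)) (a (l 16776256) (a (l 16679568) (l 16676216))))) (b (a (b (a (l 2) (b (l 16643896) (l 16629720))) (a (b (l 16617296) (l 16579824)) (b (l 16607136) (l 16574568)))) (b (a (l 16645336) (l 16650440)) (a (b (l 16612168) (l 16580488)) (b (l 16618120) (l 16584376))))) (b (b (a (a (l 16534376) (a (l 16530720) (l 16542304))) (a (a (l 16547752) (l 16542128)) (l 16535248))) (a (b (a (b (l 16518040) (l 16520664)) (b (l 16537512) (l 16529776))) (a (b (l 16506568) (l 16510376)) (b (l 16509120) (l 16500040)))) (b (a (b (l 16521432) (l 16504784)) (b (l 16499184) (l 16477920))) (a (b (l 16476008) (l 16459416)) (b (l 16441728) (l 16421408)))))) (a (b (a (b (l 16514824) (l 16507864)) (b (l 16485192) (l 16542904))) (a (b (l 16492760) (a (l 16481280) (l 16449576))) (b (l 16432576) (l 16549816)))) (b (a (b (l 16436664) (l 16402352)) (b (l 16395144) (l 16356112))) (a (b (l 16374592) (a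 (l 16360936) (l 16331664))) (b (a (l 16336288) (l 16317288)) (a (l 16307160) (l 16287136))))))))), by decide +kernel⟩

theorem s2_pp_023 : ∃ t, chk3 f_pp_023 t 1 1 1 = true := ex3_a k0_pp_023 k1_pp_023

theorem c_pp_023 : CertB 0 536870912 0 1230186008 649613803 48318383 3 eng mog cd0q0 cd5q3 pd2 false true true .up 0 2 3
    ndB0q0 ndB5q3 pcB2 Cut.none Ext.none :=
  certB2 (fam := false) (s1 := true) (s2 := true) (a := 0) (b := 2) (c := 3) (cn := .up) (n1 := ndB0q0) (n2 := ndB5q3) (pc := pcB2) (cut := Cut.none) (xt := Ext.none) (P1 := 0) (W1 := 536870912) (P2 := 0) (W2 := 1230186008) (P3 := 649613803) (W3 := 48318383) (N0 := 3) (En := eng) (mo := mog) (C1 := cd0q0) (C2 := cd5q3) (C3 := pd2)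
    rfl (fun _ => rfl) s2_pp_023

noncomputable def f_pp_033 : ℕ → ℕ → ℕ → ℕ → Bool := onCell 1610612736 536870912 0 1230186008 649613803 48318383
    (rowB 3 eng mog cd0q0 cd5q3 pd3 2 false true true .pnn 0 3 3 (qsf 0 536870912 0 1230186008 3) ndB0q0 ndB5q3 pcB3 Cut.none Ext.none)

def k0_pp_033 : ∃ t, chk3 f_pp_033 t 1 2 1 = true :=
  ⟨(b (a (a (a (l 16635880) (a (l 16624576) (l 16613304))) (a (l 16588776) (l 16544688))) (l 4)) (a (a (a (b (l 16641960) (l 16618808)) (b (l 16606408) (l 16568936))) (a (b (l 16558680) (b (l 16523464) (l 16488952))) (b (l 16506800) (l 16599864)))) (a (a (b (l 16457688) (l 16410568)) (l 4)) (l 4)))), by decide +kernel⟩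

def k1_pp_033 : ∃ t, chk3 f_pp_033 t 1 6 1 = true :=
  ⟨(b (a (a (a (b (l 16584624) (l 16545856)) (b (l 16514360) (l 16463592))) (a (a (b (l 16462000) (l 16409752)) (l 16403968)) (b (l 16392048) (l 16344560)))) (a (a (a (l 16344784) (l 16418704)) (a (l 163778775127) (l 556768254599))) (l 4))) (a (a (a (b (l 16500480) (l 16452432)) (b (a (l 16431104) (l 16394264)) (a (l 16378424) (l 16344768)))) (a (a (b (l 16362000) (a (l 16322352) (l 16308368))) (b (l 16334640) (a (l 16300280) (l 16287384)))) (b (l 16300800) (a (l 16269568) (l 16254136))))) (a (a (a (b (l 16286416) (l 16247624)) (b (l 16280720) (l 381747925063))) (a (b (l 16280944) (l 1)) (l 1))) (l 1)))), by decide +kernel⟩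

def k2_pp_033 : ∃ t, chk3 f_pp_033 t 1 7 1 = true :=
  ⟨(a (a (b (b (a (l 16398360) (a (l 16328008) (b (l 16308816) (l 16285048)))) (a (b (b (l 16368616) (l 16348432)) (b (l 16305440) (l 16287240))) (b (a (b (l 16298504) (l 16276720)) (b (l 16268248) (l 16245824))) (a (b (l 16225816) (l 16208432)) (b (a (l 16200600) (l 16186840)) (l 16169080)))))) (b (a (b (a (l 16289496) (l 16241760)) (a (l 16254640) (l 16209072))) (b (a (l 16191008) (b (l 16157200) (l 16142248))) (a (l 120828227671) (l 187936997143)))) (a (b (l 135324159383) (a (l 16208704) (l 170220669943))) (a (b (l 168610006439) (l 1)) (l 1))))) (b (a (b (a (a (l 16275648) (b (l 16273952) (l 16251184))) (a (b (l 16272656) (l 16255320)) (l 16254024))) (a (b (a (b (l 16247984) (c (l 16273720) (l 16176720))) (b (l 16234456) (c (l 16261696) (l 16160728)))) (a (b (l 16172032) (l 16145888)) (b (a (l 16157816) (c (l 16223312) (l 16085024))) (a (l 16130424) (l 1))))) (b (b (a (l 16243208) (l 16235744)) (a (c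 (l 16263144) (l 16162712)) (b (l 16227528) (l 1)))) (a (a (b (l 190621289223) (l 1)) (l 1)) (l 1))))) (b (a (l 356514941447) (l 329671384071)) (l 1))) (a (b (a (b (a (l 195989916343) (l 1)) (l 1)) (l 1)) (l 1)) (l 1)))) (l 1)), by decide +kernel⟩

theorem s3_pp_033 : ∃ t, chk3 f_pp_033 t 1 3 1 = true := ex3_b k1_pp_033 k2_pp_033

theorem s4_pp_033 : ∃ t, chk3 f_pp_033 t 1 1 1 = true := ex3_b k0_pp_033 s3_pp_033

theorem c_pp_033 : CertB 0 536870912 0 1230186008 649613803 48318383 3 eng mog cd0q0 cd5q3 pd3 false true true .pnn 0 3 3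
    ndB0q0 ndB5q3 pcB3 Cut.none Ext.none :=
  certB2 (fam := false) (s1 := true) (s2 := true) (a := 0) (b := 3) (c := 3) (cn := .pnn) (n1 := ndB0q0) (n2 := ndB5q3) (pc := pcB3) (cut := Cut.none) (xt := Ext.none) (P1 := 0) (W1 := 536870912) (P2 := 0) (W2 := 1230186008) (P3 := 649613803) (W3 := 48318383) (N0 := 3) (En := eng) (mo := mog) (C1 := cd0q0) (C2 := cd5q3) (C3 := pd3)
    rfl (fun _ => rfl) s4_pp_033

noncomputable def f_pp_101 : ℕ → ℕ → ℕ → ℕ → Bool := onCell 536870912 536870912 536870912 536870912 649613803 48318383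
    (rowB 3 eng mog cd0q1 cd5q1 pd0 0 false true true .npn 1 0 1 (qsf 536870912 536870912 536870912 536870912 0) ndB0q1 ndB5q1 pcB0 Cut.none Ext.none)

def k0_pp_101 : ∃ t, chk3 f_pp_101 t 1 1 1 = true :=
  ⟨(a (l 3) (l 5)), by decide +kernel⟩

theorem c_pp_101 : CertB 536870912 536870912 536870912 536870912 649613803 48318383 3 eng mog cd0q1 cd5q1 pd0 false true true .npn 1 0 1
    ndB0q1 ndB5q1 pcB0 Cut.none Ext.none :=
  certB0 (fam := false) (s1 := true) (s2 := true) (a := 1) (b := 0) (c := 1) (cn := .npn) (n1 := ndB0q1) (n2 := ndB5q1) (pc := pcB0) (cut := Cut.none) (xt := Ext.none) (P1 := 536870912) (W1 := 536870912) (P2 := 536870912) (W2 := 536870912) (P3 := 649613803) (W3 := 48318383) (N0 := 3) (En := eng) (mo := mog) (C1 := cd0q1) (C2 := cd5q1) (C3 := pd0)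
    rfl k0_pp_101

noncomputable def f_pp_102 : ℕ → ℕ → ℕ → ℕ → Bool := onCell 536870912 536870912 1073741824 536870912 649613803 48318383
    (rowB 3 eng mog cd0q1 cd5q2 pd0 0 false true true .npp 1 0 2 (qsf 536870912 536870912 1073741824 536870912 0) ndB0q1 ndB5q2 pcB0 Cut.none Ext.none)

def k0_pp_102 : ∃ t, chk3 f_pp_102 t 1 1 1 = true :=
  ⟨(l 3), by decide +kernel⟩

theorem c_pp_102 : CertB 536870912 536870912 1073741824 536870912 649613803 48318383 3 eng mog cd0q1 cd5q2 pd0 false true true .npp 1 0 2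
    ndB0q1 ndB5q2 pcB0 Cut.none Ext.none :=
  certB0 (fam := false) (s1 := true) (s2 := true) (a := 1) (b := 0) (c := 2) (cn := .npp) (n1 := ndB0q1) (n2 := ndB5q2) (pc := pcB0) (cut := Cut.none) (xt := Ext.none) (P1 := 536870912) (W1 := 536870912) (P2 := 1073741824) (W2 := 536870912) (P3 := 649613803) (W3 := 48318383) (N0 := 3) (En := eng) (mo := mog) (C1 := cd0q1) (C2 := cd5q2) (C3 := pd0)
    rfl k0_pp_102

noncomputable def f_pp_112 : ℕ → ℕ → ℕ → ℕ → Bool := onCell 536870912 536870912 1073741824 536870912 649613803 48318383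
    (rowB 3 eng mog cd0q1 cd5q2 pd1 0 false true true .dn 1 1 2 (qsf 536870912 536870912 1073741824 536870912 1) ndB0q1 ndB5q2 pcB1 Cut.none Ext.none)

def k0_pp_112 : ∃ t, chk3 f_pp_112 t 1 1 1 = true :=
  ⟨(l 3), by decide +kernel⟩

theorem c_pp_112 : CertB 536870912 536870912 1073741824 536870912 649613803 48318383 3 eng mog cd0q1 cd5q2 pd1 false true true .dn 1 1 2
    ndB0q1 ndB5q2 pcB1 Cut.none Ext.none :=
  certB0 (fam := false) (s1 := true) (s2 := true) (a := 1) (b := 1) (c := 2) (cn := .dn) (n1 := ndB0q1) (n2 := ndB5q2) (pc := pcB1) (cut := Cut.none) (xt := Ext.none) (P1 := 536870912) (W1 := 536870912) (P2 := 1073741824) (W2 := 536870912) (P3 := 649613803) (W3 := 48318383) (N0 := 3) (En := eng) (mo := mog) (C1 := cd0q1) (C2 := cd5q2) (C3 := pd1)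
    rfl k0_pp_112

noncomputable def cut_pp_113 : Cut := Cut.of [[⟨0, 1, 0, 67108864⟩, ⟨1, 1, 0, 67108864⟩, ⟨2, 2, 0, 16777216⟩]]

noncomputable def f_pp_113 : ℕ → ℕ → ℕ → ℕ → Bool := onCell 536870912 536870912 0 1230186008 649613803 48318383
    (rowB 3 eng mog cd0q1 cd5q3 pd1 2 false true true .nn 1 1 3 (qsf 536870912 536870912 0 1230186008 1) ndB0q1 ndB5q3 pcB1 cut_pp_113 Ext.none)

def k0_pp_113 : ∃ t, chk3 f_pp_113 t 1 1 1 = true :=
  ⟨(b (a (l 2) (a (l 2) (a (l 3) (a (l 3) (b (b (l 6) (l 3)) (l 3)))))) (b (a (l 3) (a (l 3) (l 3))) (a (b (l 3) (l 3)) (l 3)))), by decide +kernel⟩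

theorem c_pp_113 : CertB 536870912 536870912 0 1230186008 649613803 48318383 3 eng mog cd0q1 cd5q3 pd1 false true true .nn 1 1 3
    ndB0q1 ndB5q3 pcB1 cut_pp_113 Ext.none :=
  certB2 (fam := false) (s1 := true) (s2 := true) (a := 1) (b := 1) (c := 3) (cn := .nn) (n1 := ndB0q1) (n2 := ndB5q3) (pc := pcB1) (cut := cut_pp_113) (xt := Ext.none) (P1 := 536870912) (W1 := 536870912) (P2 := 0) (W2 := 1230186008) (P3 := 649613803) (W3 := 48318383) (N0 := 3) (En := eng) (mo := mog) (C1 := cd0q1) (C2 := cd5q3) (C3 := pd1)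
    rfl (fun _ => rfl) k0_pp_113

noncomputable def cut_pp_123 : Cut := Cut.of [[⟨0, 1, 0, 67108864⟩, ⟨1, 1, 0, 67108864⟩, ⟨2, 2, 0, 16777216⟩]]

noncomputable def f_pp_123 : ℕ → ℕ → ℕ → ℕ → Bool := onCell 1073741824 536870912 0 1230186008 649613803 48318383
    (rowB 3 eng mog cd0q1 cd5q3 pd2 2 false true true .npn 1 2 3 (qsf 536870912 536870912 0 1230186008 2) ndB0q1 ndB5q3 pcB2 cut_pp_123 Ext.none)

def k0_pp_123 : ∃ t, chk3 f_pp_123 t 8 4 1 = true :=
  ⟨(a (b (l 6) (b (l 6) (a (l 3) (a (a (b (a (b (a (l 331417138583) (a (l 16792232) (l 166597811415))) (l 3)) (a (b (l 16802112) (c (l 309942341383) (l 367924401255))) (b (l 16791760) (l 150491689687)))) (a (l 3) (l 343228298407))) (b (a (c (l 16801288) (b (l 16791576) (l 16809960))) (l 16811952)) (a (c (l 132774955975) (b (l 16813392) (l 361481970199))) (a (b (l 16796256) (l 16798816)) (l 16817376))))) (a (b (l 16789656) (a (l 16796200) (l 16795792))) (l 16789976)))))) (b (a (l 6) (l 16748760)) (a (b (l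 6) (a (l 16785944) (l 16779584))) (l 16763592)))), by decide +kernel⟩

def k1_pp_123 : ∃ t, chk3 f_pp_123 t 8 5 1 = true :=
  ⟨(a (a (l 3) (b (a (b (a (l 3) (b (a (l 331954052567) (b (l 213842463591) (l 236391012503))) (l 3))) (l 3)) (b (a (b (a (b (l 16800640) (l 16804288)) (l 16802056)) (c (l 161229140711) (a (l 339470240311) (l 16831656)))) (b (l 16820648) (a (b (l 16805904) (l 16808728)) (l 16806216)))) (a (b (l 289541237415) (l 3)) (b (a (c (l 16822544) (l 171429720391)) (b (l 16812008) (l 16814408))) (a (l 271824529079) (c (l 241759775799) (l 163913539847))))))) (b (b (l 3) (l 3)) (l 3)))) (b (a (a (b (b (l 16795800) (l 16803440)) (b (a (l 16811408) (l 16809232)) (a (a (c (b (l 16813272) (l 16785280)) (l 16821752)) (l 16817752)) (l 16814800)))) (b (l 16793072) (l 16827552))) (b (l 16780992) (l 16814320))) (a (b (a (a (a (b (c (b (l 337322725767) (l 16822272)) (l 278267028327)) (l 3)) (b (b (l 16821176) (l 16824136)) (l 291688729959))) (b (b (l 16819648)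 (a (l 16822312) (l 16821568))) (c (b (l 16819272) (l 16809576)) (l 226727429799)))) (a (b (l 16816536) (c (l 16796224) (l 16827048))) (l 16816016))) (a (a (l 3) (b (b (a (l 16828832) (l 16826160)) (l 16860464)) (b (l 312089948183) (l 3)))) (b (a (a (b (l 16823800) (l 16824632)) (l 16865256)) (l 16860848)) (b (a (a (l 16825352) (l 16822296)) (l 16819560)) (a (a (l 16825216) (l 16822072)) (a (l 16819168) (l 16817320))))))) (b (a (l 16828856) (l 16797048)) (a (b (l 16853696) (a (b (l 16814208) (l 16813368)) (l 16808416))) (b (l 16799592) (l 16799320))))))), by decide +kernel⟩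

def k2_pp_123 : ∃ t, chk3 f_pp_123 t 9 2 1 = true :=
  ⟨(b (a (b (l 16728944) (l 16740000)) (b (l 16696112) (l 16829896))) (a (b (b (l 16753328) (a (l 16772352) (l 16749296))) (b (a (l 16810664) (l 16753944)) (a (b (l 16780976) (l 16781008)) (l 16734568)))) (b (l 16712776) (b (l 16696784) (l 16722016))))), by decide +kernel⟩

def k3_pp_123 : ∃ t, chk3 f_pp_123 t 5 2 1 = true :=
  ⟨(b (a (a (a (b (l 16666408) (l 16674160)) (b (l 16689088) (a (l 16659048) (l 16651312)))) (b (l 16616912) (l 16629256))) (b (l 16610192) (l 16681560))) (a (a (b (a (l 16679472) (a (l 16664784) (l 16722104))) (a (l 16584416) (a (l 16676384) (b (l 16669080) (l 16679864))))) (b (l 16681488) (b (l 16651448) (l 16665448)))) (b (a (l 16631896) (l 16632976)) (a (l 16650696) (l 16650600))))), by decide +kernel⟩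

def k4_pp_123 : ∃ t, chk3 f_pp_123 t 3 2 1 = true :=
  ⟨(a (b (a (b (l 16628376) (l 16636936)) (l 16655336)) (a (b (a (l 16637656) (l 16648016)) (l 16503832)) (a (l 16654128) (l 16662504)))) (b (a (l 16671584) (l 16677992)) (a (b (l 16675216) (l 16625104)) (b (l 16678504) (l 16673320))))), by decide +kernel⟩

def k5_pp_123 : ∃ t, chk3 f_pp_123 t 8 6 1 = true :=
  ⟨(a (l 3) (b (a (a (l 3) (b (b (a (b (l 260550338279) (l 430201463623)) (b (a (l 16818216) (l 16816032)) (a (l 267529651415) (l 16814192)))) (a (l 3) (b (a (l 272361480711) (c (l 16805432) (l 16843168))) (a (l 380272536327) (l 279340797031))))) (b (a (l 3) (b (a (l 3) (l 349134018183)) (l 3))) (l 3)))) (b (a (b (a (b (l 16812456) (l 16811176)) (b (l 16806896) (l 16805688))) (a (a (b (l 16810128) (c (l 16800520) (l 16818432))) (l 16807384)) (b (l 16804440) (l 16803136)))) (b (a (l 16800680) (l 16795368)) (b (l 16796512) (l 16795472)))) (b (a (a (b (a (a (l 16807776) (l 16806672)) (c (l 16795712)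 (l 16814968))) (a (c (l 287930679959) (l 297057540231)) (a (l 16804032) (l 16802984)))) (b (l 16801648) (b (l 16800592) (l 16778576)))) (a (b (l 16796696) (l 16796024)) (l 16792032))) (a (c (a (b (l 291151892439) (l 293836235303)) (b (l 16786696) (l 16782112))) (a (b (l 299741882007) (l 302963088791)) (b (l 16827608) (l 91972823319)))) (a (b (l 16792352) (l 16786128)) (l 16785768)))))) (a (l 3) (b (a (a (l 3) (b (b (a (l 16785200) (l 16782800)) (l 305110535287)) (b (l 298668066119) (l 3)))) (b (a (b (l 16779696) (l 16774080)) (l 16775032)) (a (b (l 16768872) (l 16764128)) (a (l 16764448) (l 16764176))))) (a (l 3) (b (a (c (l 16757992) (l 222432371399)) (b (l 16756568) (l 16751456))) (a (l 3) (a (l 16762608) (l 16760880))))))))), by decide +kernel⟩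

def k6_pp_123 : ∃ t, chk3 f_pp_123 t 9 6 1 = true :=
  ⟨(a (b (a (b (b (l 16758664) (a (l 16786096) (l 16774960))) (a (b (l 16785976) (l 16781144)) (b (l 16776736) (l 16773976)))) (b (b (l 16756688) (l 16758936)) (a (l 16766192) (l 16757552)))) (a (b (a (b (l 16749288) (a (l 16763400) (l 16761656))) (b (l 16766216) (l 16758888))) (b (a (a (l 16753184) (l 16752152)) (l 16749224)) (a (a (b (l 16741808) (l 16732736)) (l 16736480)) (l 16711056)))) (b (a (l 16757480) (l 16751128)) (a (l 16736648) (l 16730424))))) (b (a (b (l 16737312) (a (l 16751144) (l 16743224))) (b (l 16719584) (l 16733536))) (b (a (l 16740200) (l 16728424)) (a (l 16718352) (l 16700536))))), by decide +kernel⟩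

def k7_pp_123 : ∃ t, chk3 f_pp_123 t 5 6 1 = true :=
  ⟨(b (a (a (a (b (l 16706296) (l 16721288)) (b (a (l 16696752) (l 16697168)) (l 16845704))) (b (l 16682128) (l 16698232))) (b (l 16667200) (l 16671688))) (b (a (a (a (l 16715680) (l 16795256)) (l 16685800)) (l 16651776)) (a (a (a (l 16684320) (a (l 16673856) (l 16673144))) (l 16650816)) (l 16610776)))), by decide +kernel⟩

def k8_pp_123 : ∃ t, chk3 f_pp_123 t 3 6 1 = true :=
  ⟨(a (b (a (b (l 16651392) (l 16643304)) (l 16636512)) (a (b (l 16617208) (l 16579360)) (b (l 16606576) (l 1)))) (b (a (l 16812136) (l 1)) (l 1))), by decide +kernel⟩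

def k9_pp_123 : ∃ t, chk3 f_pp_123 t 4 7 1 = true :=
  ⟨(b (a (b (a (l 3) (a (l 3) (a (l 3) (b (b (l 394767852695) (l 3)) (l 3))))) (l 3)) (b (a (a (b (a (a (b (l 16721992) (l 16709176)) (l 16712160)) (a (l 16710696) (l 16707736))) (a (a (l 411410620631) (l 16658752)) (a (l 16675728) (l 16673512)))) (a (b (l 16702176) (b (l 16677296) (l 16657200))) (l 16678224))) (a (a (l 16669592) (l 16659560)) (l 16644344))) (a (b (a (b (a (l 279340404007) (a (l 16643000) (l 16640152))) (a (b (c (l 270213609415) (l 279877255863)) (l 276655966903)) (b (b (l 16625736) (l 16624560)) (a (l 16632320) (l 16628328))))) (b (a (l 16634688) (l 16626128)) (a (b (l 16618616) (l 16622912)) (l 16611792)))) (a (b (a (b (l 272897900375) (b (l 270213565719) (l 3))) (b (a (l 16640104) (l 16635304)) (a (b (l 16644472) (l 16638752)) (l 16636248)))) (a (l 3) (a (l 16620600) (l 16615568)))) (b (a (b (l 16629720) (l 16631624)) (l 16621768)) (a (l 16611448) (l 16604168))))) (b (a (b (l 16612424)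 (b (l 16595984) (l 16599112))) (b (l 16591288) (l 16575856))) (a (b (b (l 16606408) (l 16609496)) (l 16591656)) (b (l 16586920) (l 16573208))))))) (a (l 3) (a (a (a (l 3) (b (b (b (a (l 16597568) (l 16592712)) (l 276119067607)) (l 205788964839)) (l 1))) (b (b (a (b (l 16588640) (l 16569592)) (l 16573488)) (a (a (l 16546936) (l 16545280)) (l 16564976))) (l 1))) (b (b (a (a (l 16566912) (l 16560512)) (l 16548664)) (a (a (l 16540000) (l 1)) (l 1))) (l 1))))), by decide +kernel⟩

def k10_pp_123 : ∃ t, chk3 f_pp_123 t 5 7 1 = true :=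
  ⟨(b (b (a (a (a (l 16624984) (a (l 16613272) (a (l 16609936) (a (l 16609496) (l 16610456))))) (l 16591792)) (a (l 16564216) (l 16545056))) (a (a (a (b (b (l 16571416) (l 16554792)) (b (l 16565616) (l 16553376))) (b (a (b (l 16559440) (l 16542232)) (a (l 16589544) (a (l 16590424) (b (l 16559608) (l 16543560))))) (b (a (l 16551632) (a (l 16546824) (a (l 16546560) (l 16548592)))) (a (l 16540568) (l 1))))) (b (b (l 16543008) (l 16527016)) (b (l 16526864) (l 1)))) (l 1))) (a (b (a (a (b (l 16531336) (l 1)) (l 1)) (l 1)) (l 1)) (l 1))), by decide +kernel⟩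

def k11_pp_123 : ∃ t, chk3 f_pp_123 t 3 7 1 = true :=
  ⟨(l 1), by decide +kernel⟩

theorem s12_pp_123 : ∃ t, chk3 f_pp_123 t 2 7 1 = true := ex3_a k9_pp_123 k10_pp_123

theorem s13_pp_123 : ∃ t, chk3 f_pp_123 t 1 7 1 = true := ex3_a s12_pp_123 k11_pp_123

theorem s14_pp_123 : ∃ t, chk3 f_pp_123 t 4 6 1 = true := ex3_a k5_pp_123 k6_pp_123

theorem s15_pp_123 : ∃ t, chk3 f_pp_123 t 2 6 1 = true := ex3_a s14_pp_123 k7_pp_123

theorem s16_pp_123 : ∃ t, chk3 f_pp_123 t 1 6 1 = true := ex3_a s15_pp_123 k8_pp_123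

theorem s17_pp_123 : ∃ t, chk3 f_pp_123 t 1 3 1 = true := ex3_b s16_pp_123 s13_pp_123

theorem s18_pp_123 : ∃ t, chk3 f_pp_123 t 8 2 1 = true := ex3_b k0_pp_123 k1_pp_123

theorem s19_pp_123 : ∃ t, chk3 f_pp_123 t 4 2 1 = true := ex3_a s18_pp_123 k2_pp_123

theorem s20_pp_123 : ∃ t, chk3 f_pp_123 t 2 2 1 = true := ex3_a s19_pp_123 k3_pp_123

theorem s21_pp_123 : ∃ t, chk3 f_pp_123 t 1 2 1 = true := ex3_a s20_pp_123 k4_pp_123

theorem s22_pp_123 : ∃ t, chk3 f_pp_123 t 1 1 1 = true := ex3_b s21_pp_123 s17_pp_123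

theorem c_pp_123 : CertB 536870912 536870912 0 1230186008 649613803 48318383 3 eng mog cd0q1 cd5q3 pd2 false true true .npn 1 2 3
    ndB0q1 ndB5q3 pcB2 cut_pp_123 Ext.none :=
  certB2 (fam := false) (s1 := true) (s2 := true) (a := 1) (b := 2) (c := 3) (cn := .npn) (n1 := ndB0q1) (n2 := ndB5q3) (pc := pcB2) (cut := cut_pp_123) (xt := Ext.none) (P1 := 536870912) (W1 := 536870912) (P2 := 0) (W2 := 1230186008) (P3 := 649613803) (W3 := 48318383) (N0 := 3) (En := eng) (mo := mog) (C1 := cd0q1) (C2 := cd5q3) (C3 := pd2)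
    rfl (fun _ => rfl) s22_pp_123

noncomputable def f_pp_133 : ℕ → ℕ → ℕ → ℕ → Bool := onCell 536870912 536870912 0 1230186008 649613803 48318383
    (rowB 3 eng mog cd0q1 cd5q3 pd3 0 false true true .dn 1 3 3 (qsf 536870912 536870912 0 1230186008 3) ndB0q1 ndB5q3 pcB3 Cut.none Ext.none)

def k0_pp_133 : ∃ t, chk3 f_pp_133 t 1 1 1 = true :=
  ⟨(b (b (a (a (l 759169411655) (l 1)) (l 1)) (l 1)) (l 1)), by decide +kernel⟩

theorem c_pp_133 : CertB 536870912 536870912 0 1230186008 649613803 48318383 3 eng mog cd0q1 cd5q3 pd3 false true true .dn 1 3 3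
    ndB0q1 ndB5q3 pcB3 Cut.none Ext.none :=
  certB0 (fam := false) (s1 := true) (s2 := true) (a := 1) (b := 3) (c := 3) (cn := .dn) (n1 := ndB0q1) (n2 := ndB5q3) (pc := pcB3) (cut := Cut.none) (xt := Ext.none) (P1 := 536870912) (W1 := 536870912) (P2 := 0) (W2 := 1230186008) (P3 := 649613803) (W3 := 48318383) (N0 := 3) (En := eng) (mo := mog) (C1 := cd0q1) (C2 := cd5q3) (C3 := pd3)
    rfl k0_pp_133

noncomputable def f_pp_202 : ℕ → ℕ → ℕ → ℕ → Bool := onCell 0 536870912 1073741824 536870912 649613803 48318383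
    (rowB 3 eng mog cd0q2 cd5q2 pd0 0 false true true .pp 2 0 2 (qsf 0 536870912 1073741824 536870912 0) ndB0q2 ndB5q2 pcB0 Cut.none Ext.none)

def k0_pp_202 : ∃ t, chk3 f_pp_202 t 1 1 1 = true :=
  ⟨(l 3), by decide +kernel⟩

theorem c_pp_202 : CertB 0 536870912 1073741824 536870912 649613803 48318383 3 eng mog cd0q2 cd5q2 pd0 false true true .pp 2 0 2
    ndB0q2 ndB5q2 pcB0 Cut.none Ext.none :=
  certB0 (fam := false) (s1 := true) (s2 := true) (a := 2) (b := 0) (c := 2) (cn := .pp) (n1 := ndB0q2) (n2 := ndB5q2) (pc := pcB0) (cut := Cut.none) (xt := Ext.none) (P1 := 0) (W1 := 536870912) (P2 := 1073741824) (W2 := 536870912) (P3 := 649613803) (W3 := 48318383) (N0 := 3) (En := eng) (mo := mog) (C1 := cd0q2) (C2 := cd5q2) (C3 := pd0)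
    rfl k0_pp_202

noncomputable def f_pp_203 : ℕ → ℕ → ℕ → ℕ → Bool := onCell 0 536870912 0 1230186008 649613803 48318383
    (rowB 3 eng mog cd0q2 cd5q3 pd0 0 false true true .up 2 0 3 (qsf 0 536870912 0 1230186008 0) ndB0q2 ndB5q3 pcB0 Cut.none Ext.none)

def k0_pp_203 : ∃ t, chk3 f_pp_203 t 1 1 1 = true :=
  ⟨(b (l 2) (l 3)), by decide +kernel⟩

theorem c_pp_203 : CertB 0 536870912 0 1230186008 649613803 48318383 3 eng mog cd0q2 cd5q3 pd0 false true true .up 2 0 3
    ndB0q2 ndB5q3 pcB0 Cut.none Ext.none :=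
  certB0 (fam := false) (s1 := true) (s2 := true) (a := 2) (b := 0) (c := 3) (cn := .up) (n1 := ndB0q2) (n2 := ndB5q3) (pc := pcB0) (cut := Cut.none) (xt := Ext.none) (P1 := 0) (W1 := 536870912) (P2 := 0) (W2 := 1230186008) (P3 := 649613803) (W3 := 48318383) (N0 := 3) (En := eng) (mo := mog) (C1 := cd0q2) (C2 := cd5q3) (C3 := pd0)
    rfl k0_pp_203

noncomputable def cut_pp_213 : Cut := Cut.of [[⟨0, 1, 0, 67108864⟩, ⟨1, 1, 0, 67108864⟩, ⟨2, 2, 0, 16777216⟩]]

noncomputable def f_pp_213 : ℕ → ℕ → ℕ → ℕ → Bool := onCell 0 536870912 0 1230186008 649613803 48318383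
    (rowB 3 eng mog cd0q2 cd5q3 pd1 0 false true true .pnn 2 1 3 (qsf 0 536870912 0 1230186008 1) ndB0q2 ndB5q3 pcB1 cut_pp_213 Ext.none)

def k0_pp_213 : ∃ t, chk3 f_pp_213 t 1 1 1 = true :=
  ⟨(b (a (l 3) (b (a (l 3) (a (l 3) (b (l 6) (l 3)))) (l 3))) (l 3)), by decide +kernel⟩

theorem c_pp_213 : CertB 0 536870912 0 1230186008 649613803 48318383 3 eng mog cd0q2 cd5q3 pd1 false true true .pnn 2 1 3
    ndB0q2 ndB5q3 pcB1 cut_pp_213 Ext.none :=
  certB0 (fam := false) (s1 := true) (s2 := true) (a := 2) (b := 1) (c := 3) (cn := .pnn) (n1 := ndB0q2) (n2 := ndB5q3) (pc := pcB1) (cut := cut_pp_213) (xt := Ext.none) (P1 := 0) (W1 := 536870912) (P2 := 0) (W2 := 1230186008) (P3 := 649613803) (W3 := 48318383) (N0 := 3) (En := eng) (mo := mog) (C1 := cd0q2) (C2 := cd5q3) (C3 := pd1)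
    rfl k0_pp_213

noncomputable def f_pm_001 : ℕ → ℕ → ℕ → ℕ → Bool := onCell 0 536870912 536870912 536870912 649613803 48318383
    (rowB 3 eng mog cd0q0 cd5q1 pd0 0 false true false .up 0 0 1 (qsf 0 536870912 536870912 536870912 0) ndB0q0 ndB5q1 pcB0 Cut.none Ext.none)

def k0_pm_001 : ∃ t, chk3 f_pm_001 t 1 1 1 = true :=
  ⟨(l 4), by decide +kernel⟩

theorem c_pm_001 : CertB 0 536870912 536870912 536870912 649613803 48318383 3 eng mog cd0q0 cd5q1 pd0 false true false .up 0 0 1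
    ndB0q0 ndB5q1 pcB0 Cut.none Ext.none :=
  certB0 (fam := false) (s1 := true) (s2 := false) (a := 0) (b := 0) (c := 1) (cn := .up) (n1 := ndB0q0) (n2 := ndB5q1) (pc := pcB0) (cut := Cut.none) (xt := Ext.none) (P1 := 0) (W1 := 536870912) (P2 := 536870912) (W2 := 536870912) (P3 := 649613803) (W3 := 48318383) (N0 := 3) (En := eng) (mo := mog) (C1 := cd0q0) (C2 := cd5q1) (C3 := pd0)
    rfl k0_pm_001

noncomputable def f_pm_011 : ℕ → ℕ → ℕ → ℕ → Bool := onCell 0 536870912 536870912 536870912 649613803 48318383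
    (rowB 3 eng mog cd0q0 cd5q1 pd1 0 false true false .pnn 0 1 1 (qsf 0 536870912 536870912 536870912 1) ndB0q0 ndB5q1 pcB1 Cut.none Ext.none)

def k0_pm_011 : ∃ t, chk3 f_pm_011 t 1 1 1 = true :=
  ⟨(l 4), by decide +kernel⟩

theorem c_pm_011 : CertB 0 536870912 536870912 536870912 649613803 48318383 3 eng mog cd0q0 cd5q1 pd1 false true false .pnn 0 1 1
    ndB0q0 ndB5q1 pcB1 Cut.none Ext.none :=
  certB0 (fam := false) (s1 := true) (s2 := false) (a := 0) (b := 1) (c := 1) (cn := .pnn) (n1 := ndB0q0) (n2 := ndB5q1) (pc := pcB1) (cut := Cut.none) (xt := Ext.none) (P1 := 0) (W1 := 536870912) (P2 := 536870912) (W2 := 536870912) (P3 := 649613803) (W3 := 48318383) (N0 := 3) (En := eng) (mo := mog) (C1 := cd0q0) (C2 := cd5q1) (C3 := pd1)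
    rfl k0_pm_011

noncomputable def f_pm_012 : ℕ → ℕ → ℕ → ℕ → Bool := onCell 0 536870912 1073741824 536870912 649613803 48318383
    (rowB 3 eng mog cd0q0 cd5q2 pd1 0 false true false .pnp 0 1 2 (qsf 0 536870912 1073741824 536870912 1) ndB0q0 ndB5q2 pcB1 Cut.none Ext.none)

def k0_pm_012 : ∃ t, chk3 f_pm_012 t 1 1 1 = true :=
  ⟨(a (l 4) (a (l 4) (a (b (l 4) (l 4)) (a (b (b (b (b (l 16176080) (l 16090128)) (l 4)) (l 4)) (l 4)) (b (b (b (b (l 16106792) (l 16041000)) (b (l 16023336) (l 15997040))) (b (b (l 16006120) (b (l 15936528) (l 15943376))) (b (l 15969384) (l 15987496)))) (a (b (l 4) (l 4)) (b (b (l 15995160) (l 15982824)) (b (b (l 15966928) (l 15956000)) (b (l 15943208) (l 159550011927)))))))))), by decide +kernel⟩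

theorem c_pm_012 : CertB 0 536870912 1073741824 536870912 649613803 48318383 3 eng mog cd0q0 cd5q2 pd1 false true false .pnp 0 1 2
    ndB0q0 ndB5q2 pcB1 Cut.none Ext.none :=
  certB0 (fam := false) (s1 := true) (s2 := false) (a := 0) (b := 1) (c := 2) (cn := .pnp) (n1 := ndB0q0) (n2 := ndB5q2) (pc := pcB1) (cut := Cut.none) (xt := Ext.none) (P1 := 0) (W1 := 536870912) (P2 := 1073741824) (W2 := 536870912) (P3 := 649613803) (W3 := 48318383) (N0 := 3) (En := eng) (mo := mog) (C1 := cd0q0) (C2 := cd5q2) (C3 := pd1)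
    rfl k0_pm_012

noncomputable def f_pm_022 : ℕ → ℕ → ℕ → ℕ → Bool := onCell 1073741824 536870912 1073741824 536870912 649613803 48318383
    (rowB 3 eng mog cd0q0 cd5q2 pd2 2 false true false .pp 0 2 2 (qsf 0 536870912 1073741824 536870912 2) ndB0q0 ndB5q2 pcB2 Cut.none Ext.none)

def k0_pm_022 : ∃ t, chk3 f_pm_022 t 1 1 1 = true :=
  ⟨(a (b (l 4) (a (b (l 4) (a (b (l 4) (a (b (l 4) (a (l 15954192) (l 4))) (l 4))) (l 4))) (l 4))) (l 4)), by decide +kernel⟩

theorem c_pm_022 : CertB 0 536870912 1073741824 536870912 649613803 48318383 3 eng mog cd0q0 cd5q2 pd2 false true false .pp 0 2 2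
    ndB0q0 ndB5q2 pcB2 Cut.none Ext.none :=
  certB2 (fam := false) (s1 := true) (s2 := false) (a := 0) (b := 2) (c := 2) (cn := .pp) (n1 := ndB0q0) (n2 := ndB5q2) (pc := pcB2) (cut := Cut.none) (xt := Ext.none) (P1 := 0) (W1 := 536870912) (P2 := 1073741824) (W2 := 536870912) (P3 := 649613803) (W3 := 48318383) (N0 := 3) (En := eng) (mo := mog) (C1 := cd0q0) (C2 := cd5q2) (C3 := pd2)
    rfl (fun _ => rfl) k0_pm_022

noncomputable def f_pm_023 : ℕ → ℕ → ℕ → ℕ → Bool := onCell 0 536870912 0 1230186008 649613803 48318383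
    (rowB 3 eng mog cd0q0 cd5q3 pd2 0 false true false .up 0 2 3 (qsf 0 536870912 0 1230186008 2) ndB0q0 ndB5q3 pcB2 Cut.none Ext.none)

def k0_pm_023 : ∃ t, chk3 f_pm_023 t 1 1 1 = true :=
  ⟨(a (b (l 2) (l 4)) (a (b (l 2) (b (l 4) (l 4))) (a (b (b (l 2) (b (l 16585384) (a (l 16750472) (l 16542800)))) (b (b (a (l 4) (b (l 16485696) (l 16429840))) (l 4)) (l 4))) (b (b (b (l 16654648) (l 16634288)) (b (l 16598176) (a (l 16541400) (l 16537864)))) (b (b (b (l 16471744) (a (l 16413248) (l 16401952))) (b (a (l 16339984) (l 16330008)) (a (l 16253000) (l 16247904)))) (a (b (b (l 16153432) (b (l 4) (l 4))) (l 4)) (b (b (l 16155744) (b (l 16094056) (b (l 16040184) (l 16019672)))) (b (b (l 15993840) (l 15953840)) (b (l 15923864) (a (l 4) (l 15888880))))))))))), by decide +kernel⟩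

theorem c_pm_023 : CertB 0 536870912 0 1230186008 649613803 48318383 3 eng mog cd0q0 cd5q3 pd2 false true false .up 0 2 3
    ndB0q0 ndB5q3 pcB2 Cut.none Ext.none :=
  certB0 (fam := false) (s1 := true) (s2 := false) (a := 0) (b := 2) (c := 3) (cn := .up) (n1 := ndB0q0) (n2 := ndB5q3) (pc := pcB2) (cut := Cut.none) (xt := Ext.none) (P1 := 0) (W1 := 536870912) (P2 := 0) (W2 := 1230186008) (P3 := 649613803) (W3 := 48318383) (N0 := 3) (En := eng) (mo := mog) (C1 := cd0q0) (C2 := cd5q3) (C3 := pd2)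
    rfl k0_pm_023

noncomputable def f_pm_033 : ℕ → ℕ → ℕ → ℕ → Bool := onCell 1610612736 536870912 0 1230186008 649613803 48318383
    (rowB 3 eng mog cd0q0 cd5q3 pd3 2 false true false .pnn 0 3 3 (qsf 0 536870912 0 1230186008 3) ndB0q0 ndB5q3 pcB3 Cut.none Ext.none)

def k0_pm_033 : ∃ t, chk3 f_pm_033 t 1 1 1 = true :=
  ⟨(b (a (a (b (a (l 16630352) (a (l 16609136) (l 16599064))) (a (l 16660000) (l 16553184))) (b (a (l 16581936) (l 4)) (l 4))) (l 4)) (b (a (l 4) (l 4)) (l 4))), by decide +kernel⟩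

theorem c_pm_033 : CertB 0 536870912 0 1230186008 649613803 48318383 3 eng mog cd0q0 cd5q3 pd3 false true false .pnn 0 3 3
    ndB0q0 ndB5q3 pcB3 Cut.none Ext.none :=
  certB2 (fam := false) (s1 := true) (s2 := false) (a := 0) (b := 3) (c := 3) (cn := .pnn) (n1 := ndB0q0) (n2 := ndB5q3) (pc := pcB3) (cut := Cut.none) (xt := Ext.none) (P1 := 0) (W1 := 536870912) (P2 := 0) (W2 := 1230186008) (P3 := 649613803) (W3 := 48318383) (N0 := 3) (En := eng) (mo := mog) (C1 := cd0q0) (C2 := cd5q3) (C3 := pd3)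
    rfl (fun _ => rfl) k0_pm_033

noncomputable def f_pm_101 : ℕ → ℕ → ℕ → ℕ → Bool := onCell 536870912 536870912 536870912 536870912 649613803 48318383
    (rowB 3 eng mog cd0q1 cd5q1 pd0 0 false true false .npn 1 0 1 (qsf 536870912 536870912 536870912 536870912 0) ndB0q1 ndB5q1 pcB0 Cut.none Ext.none)

def k0_pm_101 : ∃ t, chk3 f_pm_101 t 1 1 1 = true :=
  ⟨(l 4), by decide +kernel⟩

theorem c_pm_101 : CertB 536870912 536870912 536870912 536870912 649613803 48318383 3 eng mog cd0q1 cd5q1 pd0 false true false .npn 1 0 1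
    ndB0q1 ndB5q1 pcB0 Cut.none Ext.none :=
  certB0 (fam := false) (s1 := true) (s2 := false) (a := 1) (b := 0) (c := 1) (cn := .npn) (n1 := ndB0q1) (n2 := ndB5q1) (pc := pcB0) (cut := Cut.none) (xt := Ext.none) (P1 := 536870912) (W1 := 536870912) (P2 := 536870912) (W2 := 536870912) (P3 := 649613803) (W3 := 48318383) (N0 := 3) (En := eng) (mo := mog) (C1 := cd0q1) (C2 := cd5q1) (C3 := pd0)
    rfl k0_pm_101

noncomputable def f_pm_102 : ℕ → ℕ → ℕ → ℕ → Bool := onCell 536870912 536870912 0 536870912 649613803 48318383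
    (rowB 3 eng mog cd0q1 cd5q2 pd0 1 false true false .npp 1 0 2 (qsf 536870912 536870912 1073741824 536870912 0) ndB0q1 ndB5q2 pcB0 Cut.none Ext.none)

def k0_pm_102 : ∃ t, chk3 f_pm_102 t 2 1 1 = true :=
  ⟨(b (a (l 1) (b (l 1) (a (l 1) (b (l 1) (b (l 1) (a (l 1) (l 306586585831))))))) (b (b (a (l 1) (a (a (l 1) (b (l 1) (l 270615873031))) (a (b (l 288869624951) (l 16254792)) (b (l 16330560) (l 16280120))))) (a (a (l 1) (a (l 1) (b (l 1) (l 249140588471)))) (a (a (b (l 249677336919) (l 16101544)) (b (l 16198920) (l 16130080))) (b (a (l 16205608) (b (l 16246896) (l 16227712))) (a (l 16168984) (b (l 16212920) (l 16201264))))))) (a (a (b (b (l 1) (a (l 1) (l 229813256871))) (a (b (l 224981438855) (l 16172848)) (b (l 171293969751) (l 16020720)))) (b (b (a (l 243771924343) (l 16129832)) (a (l 205653705111) (l 15990152))) (a (b (l 15993616) (l 15942664)) (l 15968816)))) (b (a (b (a (l 16044408) (l 16086952)) (a (l 15961400) (l 16018816))) (b (a (l 16199600)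 (l 16184568)) (a (l 16080088) (l 16149576)))) (a (a (l 15864584) (b (l 15962376) (a (l 15901712) (l 15947432)))) (a (b (l 16038896) (l 16037416)) (b (l 16139824) (l 16168984)))))))), by decide +kernel⟩

def k1_pm_102 : ∃ t, chk3 f_pm_102 t 3 2 1 = true :=
  ⟨(a (b (b (l 1) (a (l 1) (a (l 1) (a (l 1) (b (l 1) (l 192770069447)))))) (b (a (b (l 1) (a (l 1) (b (l 1) (l 230351108327)))) (a (b (b (l 1) (a (l 1) (l 16508096))) (a (l 212634295847) (l 16460312))) (b (l 185253954583) (l 16647560)))) (a (b (a (l 287796233047) (b (l 16665720) (l 16421032))) (a (b (l 16409056) (l 16380648)) (l 16545024))) (b (a (l 16411984) (l 16398800)) (a (l 16369608) (l 16375040)))))) (b (a (b (a (l 1) (b (l 1) (a (l 1) (b (l 1) (l 16576960))))) (a (b (b (l 1) (l 214244857543)) (b (l 16531552) (l 16500728))) (b (b (l 16554896) (l 16524720)) (b (l 16500024) (l 16482760))))) (b (a (b (a (l 1) (b (l 1) (l 194917557703))) (a (b (l 206191865095) (l 16556064)) (b (l 16565848) (l 16540816))))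 (b (a (b (l 227129796743) (l 16574288)) (b (l 16580984) (l 16564520))) (b (a (l 16552912) (l 16564312)) (a (l 16552128) (l 16556112))))) (b (a (a (l 16519416) (l 16526152)) (a (b (l 16554024) (l 16550896)) (b (l 16545648) (l 16535648)))) (a (a (l 16502688) (b (l 16536120) (l 16536976))) (a (b (l 16542640) (l 16537104)) (l 16524280)))))) (b (a (b (a (l 16610176) (b (l 16472192) (l 16467848))) (a (l 16536680) (a (l 16455312) (l 16570608)))) (a (b (a (l 16662128) (l 16531512)) (b (l 16525608) (l 16523368))) (b (l 16521808) (b (l 16516136) (l 16515600))))) (a (b (a (l 16554424) (l 16643112)) (a (l 16453952) (l 16490568))) (b (a (l 16523960) (a (l 16525008) (l 16515080))) (a (l 16537040) (a (l 16535920) (l 16520992)))))))), by decide +kernel⟩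

def k2_pm_102 : ∃ t, chk3 f_pm_102 t 3 3 1 = true :=
  ⟨(b (b (a (a (a (b (l 16337144) (l 16290952)) (b (l 16336632) (l 16304560))) (a (b (l 16340592) (l 16322784)) (b (l 16365000) (l 16362192)))) (a (a (b (l 16420168) (l 16463016)) (b (l 16517104) (l 16548400))) (a (b (l 16552608) (l 16562552)) (b (l 16594376) (l 16531248))))) (a (a (a (b (l 16325008) (l 16456344)) (b (l 16536320) (b (l 16283912) (l 16285568)))) (b (b (a (l 16315400) (l 16380760)) (a (l 16321040) (l 16410552))) (a (b (l 16339912) (l 16362032)) (l 16466584)))) (a (b (b (l 16544728) (l 16560880)) (a (l 16560696) (l 16587240))) (a (b (l 16567040) (l 16569672)) (b (l 16529696) (l 16525520)))))) (a (b (a (b (a (b (l 16233792) (l 16228856)) (b (l 16292528) (l 16307928))) (a (b (l 16230608) (l 16237816)) (l 16336608))) (b (l 16467048) (l 16526136))) (a (a (b (l 16256560) (l 16300568)) (l 16411424)) (a (l 16545152) (l 16621016)))) (a (b (b (a (l 16590288) (l 16597416)) (a (l 16610984) (l 16602808)))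 (a (l 16630544) (l 16603488))) (b (a (l 16566720) (l 16616424)) (a (l 16553040) (l 16490896)))))), by decide +kernel⟩

theorem s3_pm_102 : ∃ t, chk3 f_pm_102 t 3 1 1 = true := ex3_b k1_pm_102 k2_pm_102

theorem s4_pm_102 : ∃ t, chk3 f_pm_102 t 1 1 1 = true := ex3_a k0_pm_102 s3_pm_102

theorem c_pm_102 : CertB 536870912 536870912 1073741824 536870912 649613803 48318383 3 eng mog cd0q1 cd5q2 pd0 false true false .npp 1 0 2
    ndB0q1 ndB5q2 pcB0 Cut.none Ext.none :=
  certB1 (fam := false) (s1 := true) (s2 := false) (a := 1) (b := 0) (c := 2) (cn := .npp) (n1 := ndB0q1) (n2 := ndB5q2) (pc := pcB0) (cut := Cut.none) (xt := Ext.none) (P1 := 536870912) (W1 := 536870912) (P2 := 1073741824) (W2 := 536870912) (P3 := 649613803) (W3 := 48318383) (N0 := 3) (En := eng) (mo := mog) (C1 := cd0q1) (C2 := cd5q2) (C3 := pd0)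
    rfl (fun _ => rfl) s4_pm_102

noncomputable def f_pm_112 : ℕ → ℕ → ℕ → ℕ → Bool := onCell 536870912 536870912 1073741824 536870912 649613803 48318383
    (rowB 3 eng mog cd0q1 cd5q2 pd1 0 false true false .dn 1 1 2 (qsf 536870912 536870912 1073741824 536870912 1) ndB0q1 ndB5q2 pcB1 Cut.none Ext.none)

def k0_pm_112 : ∃ t, chk3 f_pm_112 t 1 1 1 = true :=
  ⟨(a (b (a (b (a (b (a (b (l 16059400) (l 16003664)) (b (l 16071040) (l 15975648))) (a (l 15993768) (l 15998008))) (b (a (l 219612163079) (l 1)) (b (l 31170524215) (l 15887744)))) (b (a (a (b (l 15938488) (l 15924040)) (b (l 15913056) (l 15929448))) (b (l 15913016) (b (l 15872760) (l 15904416)))) (a (a (l 15986648) (b (l 15969376) (l 16014960))) (a (l 16005296) (l 16018016))))) (b (a (b (l 1) (l 114385376903)) (l 1)) (a (b (b (a (l 15863720) (l 15902096)) (a (l 15882952) (l 15888968))) (a (l 16034376) (l 16055344))) (b (b (l 1) (l 225517894183)) (b (l 16070688) (l 16146584)))))) (a (b (a (b (b (a (l 16015664)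 (l 16042464)) (a (l 16021360) (l 16052952))) (a (b (l 16015080) (l 16011176)) (l 16233808))) (b (b (l 16087768) (l 16115776)) (a (l 16119704) (l 16174736)))) (a (b (a (b (l 16011400) (a (l 15988056) (l 16022608))) (b (l 16071544) (l 16074784))) (a (b (l 15999720) (l 15994632)) (b (l 16079176) (l 16085512)))) (b (b (l 16169016) (l 16183000)) (b (l 16198040) (l 16217216))))) (b (a (b (a (l 16161448) (l 16199160)) (a (l 16227896) (l 16285984))) (b (l 16260504) (l 16368200))) (a (b (l 16318872) (a (l 16330288) (l 16411584))) (b (l 16451744) (l 16527984)))))) (b (a (b (l 1) (a (b (l 1) (l 307659956535)) (l 1))) (l 1)) (a (b (a (b (l 16370304) (l 16484360)) (b (l 16478256) (l 16577992))) (a (b (l 16577240) (l 16663448)) (b (l 16655496) (l 16737024)))) (b (a (b (l 1) (l 354905235335)) (l 1)) (a (b (l 16651632) (l 16698080)) (b (a (l 16615160) (l 1)) (a (l 16624104) (l 16571168)))))))), by decide +kernel⟩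

theorem c_pm_112 : CertB 536870912 536870912 1073741824 536870912 649613803 48318383 3 eng mog cd0q1 cd5q2 pd1 false true false .dn 1 1 2
    ndB0q1 ndB5q2 pcB1 Cut.none Ext.none :=
  certB0 (fam := false) (s1 := true) (s2 := false) (a := 1) (b := 1) (c := 2) (cn := .dn) (n1 := ndB0q1) (n2 := ndB5q2) (pc := pcB1) (cut := Cut.none) (xt := Ext.none) (P1 := 536870912) (W1 := 536870912) (P2 := 1073741824) (W2 := 536870912) (P3 := 649613803) (W3 := 48318383) (N0 := 3) (En := eng) (mo := mog) (C1 := cd0q1) (C2 := cd5q2) (C3 := pd1)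
    rfl k0_pm_112

noncomputable def cut_pm_113 : Cut := Cut.of [[⟨0, 1, 0, 67108864⟩, ⟨1, 1, 0, 67108864⟩, ⟨2, 2, 0, 16777216⟩]]

noncomputable def f_pm_113 : ℕ → ℕ → ℕ → ℕ → Bool := onCell 536870912 536870912 0 1230186008 649613803 48318383
    (rowB 3 eng mog cd0q1 cd5q3 pd1 0 false true false .nn 1 1 3 (qsf 536870912 536870912 0 1230186008 1) ndB0q1 ndB5q3 pcB1 cut_pm_113 Ext.none)

def k0_pm_113 : ∃ t, chk3 f_pm_113 t 1 2 1 = true :=
  ⟨(a (l 2) (a (l 2) (a (b (l 2) (b (a (l 2) (l 16747968)) (a (l 16736328) (l 16772312)))) (b (a (l 2) (b (l 6) (b (l 6) (a (l 16775936) (l 16853096))))) (b (a (l 16776784) (a (l 16797280) (b (l 16803856) (l 16822864)))) (a (l 16809192) (a (l 16838192) (l 16861472)))))))), by decide +kernel⟩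

def k1_pm_113 : ∃ t, chk3 f_pm_113 t 1 6 1 = true :=
  ⟨(a (a (l 2) (b (l 2) (a (l 2) (b (l 2) (a (l 2) (l 182636300343)))))) (a (a (b (l 2) (a (b (l 16484752) (l 16506544)) (b (l 16567152) (l 16587832)))) (b (b (a (l 2) (l 16699616)) (a (l 16637824) (l 16706896))) (a (b (l 16652912) (l 16673968)) (b (l 16730080) (l 16760200))))) (a (b (b (l 16772152) (a (l 16762728) (l 16814960))) (a (b (l 16793904) (l 16834256)) (b (l 16854312) (l 16905608)))) (b (a (b (l 16841216) (l 16871184)) (b (l 16895032) (l 16937248))) (a (b (l 16922832) (l 16987640)) (b (a (l 16981760) (l 16938912)) (l 16776072))))))), by decide +kernel⟩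

def k2_pm_113 : ∃ t, chk3 f_pm_113 t 2 7 1 = true :=
  ⟨(a (b (l 2) (b (a (l 2) (a (b (l 2) (l 106399339735)) (b (b (l 181561351463) (l 16097992)) (l 70429199927)))) (a (b (a (l 2) (l 15930112)) (c (l 117137049991) (l 104788763527))) (b (l 92978085751) (l 16123712))))) (b (b (a (a (l 2) (b (l 2) (l 150423591639))) (a (b (l 16382272) (l 16399384)) (c (l 16500080) (l 16421408)))) (b (a (a (l 2) (b (l 143444232807) (b (b (l 143981143175) (l 16318128)) (c (l 16374376) (l 16280496))))) (b (a (l 16413016) (l 16481264)) (a (b (l 16417664) (l 16406104)) (c (l 16513984) (l 16447176))))) (a (b (a (b (l 124653283799) (b (l 117673901719) (l 16178512))) (b (c (l 16366056) (l 16255072)) (a (l 16212328) (l 16320056)))) (a (l 114989557751) (l 16242376))) (a (b (b (l 16391400) (c (l 16434416) (l 16325056))) (l 16386560)) (b (b (l 16462200) (l 16452208)) (l 16457984)))))) (b (a (a (b (b (l 16214152) (l 16218032)) (b (l 16216760) (l 16221776))) (b (c (l 16410144) (l 16260192))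 (l 16320720))) (b (a (c (l 16442392) (l 16347000)) (b (l 16463472) (l 16466512))) (a (l 16401072) (l 16471600)))) (a (a (l 16251320) (b (l 16340088) (l 16353656))) (a (b (l 16425456) (l 16444856)) (l 16515616)))))), by decide +kernel⟩

def k3_pm_113 : ∃ t, chk3 f_pm_113 t 3 7 1 = true :=
  ⟨(b (a (b (a (a (l 16533288) (l 16613616)) (a (l 16700824) (l 16794672))) (a (b (b (l 16697544) (c (l 16638680) (l 16546376))) (b (a (b (l 16535336) (l 16526264)) (l 16612672)) (l 16489304))) (b (b (l 16770208) (a (l 16721376) (l 16822536))) (b (a (l 16683536) (l 16807784)) (l 16761568))))) (b (a (a (l 16756936) (l 16971336)) (a (l 17071776) (a (l 16984472) (l 16927768)))) (a (b (b (l 16968592) (l 16873480)) (b (a (l 16915752) (l 17020752)) (l 16976112))) (b (a (b (l 17066720) (l 17075208)) (b (l 16939656) (a (l 16979816) (l 16914032)))) (b (a (l 17113792) (l 16981272)) (l 16967664)))))) (a (b (a (b (a (l 16580920) (l 16624016)) (a (l 16547832) (l 16636392))) (b (l 16775344)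 (l 16790456))) (a (l 16638264) (l 16843056))) (b (a (b (b (l 16992264) (l 17006176)) (l 17029448)) (b (a (l 17076048) (l 16945952)) (l 16901344))) (a (l 16870664) (a (l 16788992) (l 16704120)))))), by decide +kernel⟩

theorem s4_pm_113 : ∃ t, chk3 f_pm_113 t 1 7 1 = true := ex3_a k2_pm_113 k3_pm_113

theorem s5_pm_113 : ∃ t, chk3 f_pm_113 t 1 3 1 = true := ex3_b k1_pm_113 s4_pm_113

theorem s6_pm_113 : ∃ t, chk3 f_pm_113 t 1 1 1 = true := ex3_b k0_pm_113 s5_pm_113

theorem c_pm_113 : CertB 536870912 536870912 0 1230186008 649613803 48318383 3 eng mog cd0q1 cd5q3 pd1 false true false .nn 1 1 3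
    ndB0q1 ndB5q3 pcB1 cut_pm_113 Ext.none :=
  certB0 (fam := false) (s1 := true) (s2 := false) (a := 1) (b := 1) (c := 3) (cn := .nn) (n1 := ndB0q1) (n2 := ndB5q3) (pc := pcB1) (cut := cut_pm_113) (xt := Ext.none) (P1 := 536870912) (W1 := 536870912) (P2 := 0) (W2 := 1230186008) (P3 := 649613803) (W3 := 48318383) (N0 := 3) (En := eng) (mo := mog) (C1 := cd0q1) (C2 := cd5q3) (C3 := pd1)
    rfl s6_pm_113

noncomputable def cut_pm_123 : Cut := Cut.of [[⟨0, 1, 0, 67108864⟩, ⟨1, 1, 0, 67108864⟩, ⟨2, 2, 0, 16777216⟩]]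

noncomputable def f_pm_123 : ℕ → ℕ → ℕ → ℕ → Bool := onCell 1073741824 536870912 0 1230186008 649613803 48318383
    (rowB 3 eng mog cd0q1 cd5q3 pd2 2 false true false .npn 1 2 3 (qsf 536870912 536870912 0 1230186008 2) ndB0q1 ndB5q3 pcB2 cut_pm_123 Ext.none)

def k0_pm_123 : ∃ t, chk3 f_pm_123 t 1 2 1 = true :=
  ⟨(a (a (a (b (a (b (l 6) (b (l 6) (l 16754072))) (b (l 16765592) (l 16726144))) (b (a (a (l 16751784) (l 16731832)) (l 16699328)) (b (a (l 16729208) (l 16675680)) (a (l 16718136) (l 16647936))))) (a (b (b (l 16715328) (l 16687288)) (b (b (l 16659128) (l 16639328)) (b (l 16611784) (l 16574392)))) (b (b (l 16678960) (l 16685320)) (b (l 16596368) (b (l 16546424) (l 16504624)))))) (b (a (a (a (b (l 16646496) (l 16607776)) (a (l 16817976) (b (l 16617128) (l 16578328)))) (b (l 16595104) (l 16556016))) (b (l 16593120) (l 16561432))) (a (a (b (l 16540968) (b (l 16487120) (l 16447296))) (b (l 16519720) (b (l 16446904) (l 16418952)))) (b (a (l 16506808)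 (l 16523736)) (a (l 16452072) (l 16475448)))))) (a (b (a (b (l 16614896) (l 16588264)) (l 16820816)) (a (b (l 16716512) (a (l 16491040) (l 16499808))) (b (l 16575168) (a (l 16507072) (l 16519712))))) (b (a (l 16659352) (l 16636264)) (a (b (l 16591328) (l 16535000)) (a (l 16720440) (l 16579008)))))), by decide +kernel⟩

def k1_pm_123 : ∃ t, chk3 f_pm_123 t 1 6 1 = true :=
  ⟨(a (a (b (a (b (a (l 16689672) (l 16667040)) (a (b (l 16650216) (l 16609568)) (b (l 16550824) (l 16511176)))) (b (a (l 16521232) (l 16454696)) (a (l 16517496) (l 16403432)))) (a (b (a (a (l 16568096) (l 16518856)) (a (l 16476800) (l 16443728))) (b (a (l 16476248) (l 16410088)) (a (c (l 16482952) (l 16388240)) (a (l 16390000) (l 16364488))))) (b (a (b (l 16414120) (l 16388504)) (b (l 16370880) (l 16349920))) (b (a (l 16362088) (l 16323880)) (a (l 16436496) (l 16292064)))))) (b (a (a (b (l 16410264) (l 16367688)) (b (l 16388176) (l 16393088))) (b (l 16475456) (a (l 16362232) (l 16373080))))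 (a (b (a (l 16497392) (l 16311160)) (a (l 16277072) (l 16255704))) (b (a (l 16315808) (l 16319568)) (l 16314040))))) (a (b (a (b (l 16436088) (l 16381840)) (a (l 16419528) (l 16431376))) (a (a (l 16286552) (l 16290840)) (a (b (l 16332536) (l 1)) (l 1)))) (b (a (a (l 16446808) (l 1)) (l 1)) (l 1)))), by decide +kernel⟩

def k2_pm_123 : ∃ t, chk3 f_pm_123 t 1 7 1 = true :=
  ⟨(a (b (a (a (b (a (b (a (l 16410560) (b (l 16390048) (l 16369992))) (a (b (l 16377920) (l 16356624)) (c (l 16382496) (l 16297336)))) (a (b (l 16416584) (l 16311304)) (b (l 16329752) (l 16284904)))) (b (b (a (a (l 16331320) (l 16301656)) (l 16259520)) (b (a (a (c (l 16349216) (l 16268352)) (l 16278208)) (l 16235128)) (a (a (l 16275208) (l 16244632)) (l 16201352)))) (b (a (b (c (l 16280392) (l 16139520)) (c (l 16252024) (l 16114928))) (b (l 16162432) (l 16125064))) (a (l 16154016) (l 16095520))))) (b (a (b (l 16293992) (l 16249176)) (b (l 16253872) (l 16207176))) (b (b (l 16186664) (a (l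 16167064) (l 16124232))) (b (a (l 16094552) (l 16061272)) (l 16039832))))) (b (a (a (l 16198296) (l 16174296)) (a (l 16163312) (l 16155584))) (a (b (a (l 16112432) (l 16096448)) (a (l 16031992) (l 16033576))) (l 1)))) (a (b (a (a (b (b (l 16106096) (l 16056360)) (b (l 16009920) (l 15973088))) (b (l 16036632) (l 15964808))) (b (a (l 16007928) (l 15994704)) (a (l 15953344) (l 15958896)))) (a (a (b (l 15932408) (c (l 16037360) (l 15829152))) (b (l 15922496) (l 15902712))) (a (b (l 15930512) (l 1)) (l 1)))) (b (a (b (a (l 15997648) (l 1)) (l 1)) (l 1)) (l 1)))) (l 1)), by decide +kernel⟩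

theorem s3_pm_123 : ∃ t, chk3 f_pm_123 t 1 3 1 = true := ex3_b k1_pm_123 k2_pm_123

theorem s4_pm_123 : ∃ t, chk3 f_pm_123 t 1 1 1 = true := ex3_b k0_pm_123 s3_pm_123

theorem c_pm_123 : CertB 536870912 536870912 0 1230186008 649613803 48318383 3 eng mog cd0q1 cd5q3 pd2 false true false .npn 1 2 3
    ndB0q1 ndB5q3 pcB2 cut_pm_123 Ext.none :=
  certB2 (fam := false) (s1 := true) (s2 := false) (a := 1) (b := 2) (c := 3) (cn := .npn) (n1 := ndB0q1) (n2 := ndB5q3) (pc := pcB2) (cut := cut_pm_123) (xt := Ext.none) (P1 := 536870912) (W1 := 536870912) (P2 := 0) (W2 := 1230186008) (P3 := 649613803) (W3 := 48318383) (N0 := 3) (En := eng) (mo := mog) (C1 := cd0q1) (C2 := cd5q3) (C3 := pd2)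
    rfl (fun _ => rfl) s4_pm_123

noncomputable def f_pm_133 : ℕ → ℕ → ℕ → ℕ → Bool := onCell 1610612736 536870912 0 1230186008 649613803 48318383
    (rowB 3 eng mog cd0q1 cd5q3 pd3 2 false true false .dn 1 3 3 (qsf 536870912 536870912 0 1230186008 3) ndB0q1 ndB5q3 pcB3 Cut.none Ext.none)

def k0_pm_133 : ∃ t, chk3 f_pm_133 t 1 1 1 = true :=
  ⟨(b (b (a (a (a (l 16629504) (l 1)) (l 1)) (l 1)) (l 1)) (l 1)), by decide +kernel⟩

theorem c_pm_133 : CertB 536870912 536870912 0 1230186008 649613803 48318383 3 eng mog cd0q1 cd5q3 pd3 false true false .dn 1 3 3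
    ndB0q1 ndB5q3 pcB3 Cut.none Ext.none :=
  certB2 (fam := false) (s1 := true) (s2 := false) (a := 1) (b := 3) (c := 3) (cn := .dn) (n1 := ndB0q1) (n2 := ndB5q3) (pc := pcB3) (cut := Cut.none) (xt := Ext.none) (P1 := 536870912) (W1 := 536870912) (P2 := 0) (W2 := 1230186008) (P3 := 649613803) (W3 := 48318383) (N0 := 3) (En := eng) (mo := mog) (C1 := cd0q1) (C2 := cd5q3) (C3 := pd3)
    rfl (fun _ => rfl) k0_pm_133

noncomputable def f_pm_202 : ℕ → ℕ → ℕ → ℕ → Bool := onCell 0 536870912 1073741824 536870912 649613803 48318383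
    (rowB 3 eng mog cd0q2 cd5q2 pd0 0 false true false .pp 2 0 2 (qsf 0 536870912 1073741824 536870912 0) ndB0q2 ndB5q2 pcB0 Cut.none Ext.none)

def k0_pm_202 : ∃ t, chk3 f_pm_202 t 2 1 1 = true :=
  ⟨(b (b (b (l 1) (l 3)) (l 3)) (l 3)), by decide +kernel⟩

def k1_pm_202 : ∃ t, chk3 f_pm_202 t 3 4 1 = true :=
  ⟨(a (b (l 1) (b (a (l 1) (b (a (l 1) (l 16578832)) (a (a (l 16572144) (l 16570856)) (l 16567920)))) (b (a (a (a (l 1) (b (l 1) (a (l 1) (l 16542952)))) (b (l 448320108599) (a (l 16558800) (l 16559856)))) (a (c (l 16561360) (l 16562272)) (l 16557440))) (a (a (a (l 3) (c (a (b (b (a (l 183240261815) (l 16537728)) (a (l 16535000) (l 16537336))) (l 185387849463)) (b (l 16595784) (a (l 16583808) (l 16545456)))) (b (a (b (a (l 16543552) (l 16527088)) (a (l 16524456) (l 16548032))) (b (l 16535608) (a (l 16531256) (l 16536624)))) (a (b (l 16548592) (l 16528944)) (a (b (l 16532408) (l 16533904)) (l 16558856)))))) (a (b (l 16554712) (a (b (l 16548880) (l 16548104))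 (l 16623288))) (a (b (l 16554840) (l 16550192)) (l 16552208)))) (a (c (l 16551944) (l 16551880)) (l 16547552)))))) (b (a (b (l 1) (a (b (l 1) (l 16584864)) (b (b (l 16592456) (l 16586520)) (l 16577032)))) (b (b (a (l 1) (a (l 16632040) (l 16581600))) (a (a (b (l 1) (l 16590416)) (b (b (l 1) (l 16588072)) (l 16583512))) (a (b (l 16581008) (l 16575328)) (l 16569256)))) (a (b (b (l 16581704) (l 16575072)) (l 16565072)) (b (l 16562272) (l 16550936))))) (a (b (a (b (l 16573248) (l 16562056)) (l 16580032)) (a (l 16567376) (l 16538128))) (a (b (l 16547696) (l 16527576)) (b (l 16534872) (l 16516784)))))), by decide +kernel⟩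

def k2_pm_202 : ∃ t, chk3 f_pm_202 t 6 10 1 = true :=
  ⟨(a (a (a (l 3) (b (b (b (a (c (l 16539264) (l 205251998231)) (a (c (l 16561192) (l 16566528)) (l 16605952))) (c (l 138143183767) (l 179482275383))) (a (l 3) (a (c (l 629379991271) (l 16534992)) (b (l 16534480) (c (l 16529008) (l 16532784)))))) (c (b (l 154249254615) (l 153712359719)) (b (l 137069396311) (l 142438109351))))) (b (a (a (a (b (b (b (l 16545320) (l 16542936)) (l 16539296)) (b (l 16534760) (l 16541016))) (b (b (b (l 16545648) (l 16543128)) (l 16539616)) (b (l 16534976) (l 16530728)))) (b (b (b (l 16545960) (l 16543544)) (b (l 16540976) (l 16538640))) (a (b (l 16535176) (l 16530872)) (b (l 16535288) (l 16530992))))) (a (b (b (b (l 16546152) (l 16543664)) (b (l 16541232) (l 16538824))) (b (l 16535336) (l 16531040))) (b (b (b (l 16546232) (l 16543672)) (l 16540024)) (b (l 16514424) (l 16530952))))) (a (b (a (b (c (l 16526312) (l 16528352)) (c (l 16523392) (l 16524296))) (b (c (l 16527224) (l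 16528000)) (l 16523384))) (a (c (l 16523920) (l 16524904)) (c (l 16524392) (l 16524600)))) (b (b (a (l 16527016) (l 16526896)) (a (l 16523392) (l 16523264))) (a (c (l 16525216) (l 16524096)) (l 16523952)))))) (b (a (b (b (a (b (l 16545760) (l 16543512)) (l 16543440)) (a (b (l 16541000) (l 16538592)) (l 16539072))) (b (a (l 16535120) (l 16534232)) (a (a (l 16530840) (l 16530520)) (l 16529856)))) (b (l 16538328) (a (a (l 16530952) (l 16530240)) (l 16570816)))) (a (b (a (b (l 16526520) (l 16522840)) (b (l 16525664) (l 16522000))) (a (b (l 16523016) (l 16524296)) (l 16543888))) (b (a (l 16522344) (l 16520368)) (a (l 16521856) (l 16520120)))))), by decide +kernel⟩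

def k3_pm_202 : ∃ t, chk3 f_pm_202 t 6 11 1 = true :=
  ⟨(a (a (l 3) (b (a (b (b (a (l 16524792) (l 16524744)) (l 127942619143)) (l 151565003367)) (b (a (l 16524944) (l 16525184)) (a (l 16524016) (l 16524336)))) (a (b (a (l 3) (l 16521808)) (l 211157623703)) (b (a (l 16543112) (l 16522376)) (a (l 16519232) (l 16520416)))))) (a (b (b (a (a (l 16525272) (l 16525208)) (l 16524976)) (a (a (l 16524736) (l 16525032)) (l 16525144))) (a (b (l 16523624) (l 16521776)) (b (l 16524376) (l 16523032)))) (b (b (a (l 16524112) (l 16522920)) (a (l 16524816) (l 16523840))) (a (b (l 16524400) (l 16523048)) (l 16523320))))), by decide +kernel⟩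

def k4_pm_202 : ∃ t, chk3 f_pm_202 t 7 5 1 = true :=
  ⟨(b (a (b (a (l 16549312) (l 16520768)) (b (a (a (l 16518208) (l 16515832)) (l 16510464)) (a (a (l 16518136) (l 16515640)) (l 16511800)))) (b (a (l 16511704) (l 16503728)) (a (b (l 16503032) (l 16505264)) (b (l 16497544) (l 16500464))))) (a (b (a (b (l 16520160) (l 16521728)) (b (l 16515328) (l 16517424))) (a (a (l 16522320) (l 16520840)) (l 16518112))) (b (a (b (l 16510280) (l 16512600)) (l 16550040)) (a (l 16513888) (l 16552664))))), by decide +kernel⟩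

def k5_pm_202 : ∃ t, chk3 f_pm_202 t 3 3 1 = true :=
  ⟨(a (a (a (l 3) (b (b (b (a (b (l 229411199911) (l 3)) (b (a (l 16516376) (l 16517608)) (a (l 16514272) (l 16514624)))) (a (l 3) (a (l 252496536071) (l 234242995751)))) (b (a (l 3) (a (l 3) (b (l 16510664) (l 16511064)))) (l 3))) (l 3))) (b (b (a (b (a (b (l 16591672) (l 16603912)) (l 16519192)) (a (a (l 16510976) (l 16509952)) (a (l 16580640) (l 16512256)))) (b (a (l 16519880) (l 16519664)) (a (l 16513336) (l 16513704)))) (a (b (b (a (l 16548520) (l 16545416)) (a (l 16505384) (l 16500608))) (a (b (l 16505264) (l 16505448)) (b (l 16495624) (l 16492384)))) (b (l 16535152) (a (l 16514504) (l 16496448))))) (b (a (b (a (l 214378722183) (l 16490368)) (a (l 210083735975) (l 16529920))) (b (a (l 16534368) (l 16484240)) (a (l 16469576) (l 16469952)))) (a (a (l 3) (b (l 153175475735) (c (l 177334815831) (l 16477376)))) (b (a (l 16462360) (l 16451312)) (a (b (l 16460528) (l 16459920)) (l 16472160))))))) (b (b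 (a (b (a (l 16518920) (b (l 16516752) (l 16515096))) (a (l 16513568) (l 16595816))) (b (a (l 16512424) (l 16509856)) (a (l 16508840) (l 16507408)))) (a (a (b (b (l 16508432) (l 16504616)) (l 16497464)) (b (l 16505952) (l 16497240))) (b (a (l 16504328) (l 16503208)) (a (l 16496136) (l 16495880))))) (b (a (a (b (l 16485872) (l 16471144)) (b (l 16485136) (l 16471264))) (a (l 16479184) (l 16480784))) (a (a (b (l 16453256) (a (l 16428736) (l 16431424))) (l 16446376)) (a (l 16447248) (l 16452416)))))), by decide +kernel⟩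

theorem s6_pm_202 : ∃ t, chk3 f_pm_202 t 6 5 1 = true := ex3_b k2_pm_202 k3_pm_202

theorem s7_pm_202 : ∃ t, chk3 f_pm_202 t 3 5 1 = true := ex3_a s6_pm_202 k4_pm_202

theorem s8_pm_202 : ∃ t, chk3 f_pm_202 t 3 2 1 = true := ex3_b k1_pm_202 s7_pm_202

theorem s9_pm_202 : ∃ t, chk3 f_pm_202 t 3 1 1 = true := ex3_b s8_pm_202 k5_pm_202

theorem s10_pm_202 : ∃ t, chk3 f_pm_202 t 1 1 1 = true := ex3_a k0_pm_202 s9_pm_202

theorem c_pm_202 : CertB 0 536870912 1073741824 536870912 649613803 48318383 3 eng mog cd0q2 cd5q2 pd0 false true false .pp 2 0 2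
    ndB0q2 ndB5q2 pcB0 Cut.none Ext.none :=
  certB0 (fam := false) (s1 := true) (s2 := false) (a := 2) (b := 0) (c := 2) (cn := .pp) (n1 := ndB0q2) (n2 := ndB5q2) (pc := pcB0) (cut := Cut.none) (xt := Ext.none) (P1 := 0) (W1 := 536870912) (P2 := 1073741824) (W2 := 536870912) (P3 := 649613803) (W3 := 48318383) (N0 := 3) (En := eng) (mo := mog) (C1 := cd0q2) (C2 := cd5q2) (C3 := pd0)
    rfl s10_pm_202

noncomputable def f_pm_203 : ℕ → ℕ → ℕ → ℕ → Bool := onCell 0 536870912 0 1230186008 649613803 48318383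
    (rowB 3 eng mog cd0q2 cd5q3 pd0 0 false true false .up 2 0 3 (qsf 0 536870912 0 1230186008 0) ndB0q2 ndB5q3 pcB0 Cut.none Ext.none)

def k0_pm_203 : ∃ t, chk3 f_pm_203 t 1 1 1 = true :=
  ⟨(b (l 2) (a (l 3) (b (l 2) (b (l 2) (a (a (l 3) (a (b (l 3) (l 3)) (b (b (l 2) (a (l 211694556295) (b (l 2) (l 16542488)))) (b (a (l 138680064455) (l 16536640)) (a (b (l 16493528) (l 16483320)) (l 16489472)))))) (b (a (b (l 2) (a (a (l 16553496) (l 2)) (l 2))) (l 2)) (a (a (b (a (l 16520488) (l 16524144)) (a (l 16491912) (l 16495408))) (l 16517104)) (a (l 16531520) (l 16548528))))))))), by decide +kernel⟩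

theorem c_pm_203 : CertB 0 536870912 0 1230186008 649613803 48318383 3 eng mog cd0q2 cd5q3 pd0 false true false .up 2 0 3
    ndB0q2 ndB5q3 pcB0 Cut.none Ext.none :=
  certB0 (fam := false) (s1 := true) (s2 := false) (a := 2) (b := 0) (c := 3) (cn := .up) (n1 := ndB0q2) (n2 := ndB5q3) (pc := pcB0) (cut := Cut.none) (xt := Ext.none) (P1 := 0) (W1 := 536870912) (P2 := 0) (W2 := 1230186008) (P3 := 649613803) (W3 := 48318383) (N0 := 3) (En := eng) (mo := mog) (C1 := cd0q2) (C2 := cd5q3) (C3 := pd0)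
    rfl k0_pm_203

noncomputable def cut_pm_213 : Cut := Cut.of [[⟨0, 1, 0, 67108864⟩, ⟨1, 1, 0, 67108864⟩, ⟨2, 2, 0, 16777216⟩]]

noncomputable def f_pm_213 : ℕ → ℕ → ℕ → ℕ → Bool := onCell 0 536870912 0 1230186008 649613803 48318383
    (rowB 3 eng mog cd0q2 cd5q3 pd1 0 false true false .pnn 2 1 3 (qsf 0 536870912 0 1230186008 1) ndB0q2 ndB5q3 pcB1 cut_pm_213 Ext.none)

def k0_pm_213 : ∃ t, chk3 f_pm_213 t 2 1 1 = true :=
  ⟨(b (l 3) (l 3)), by decide +kernel⟩

def k1_pm_213 : ∃ t, chk3 f_pm_213 t 6 1 1 = true :=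
  ⟨(b (l 3) (b (l 3) (a (l 3) (b (a (l 3) (b (l 3) (b (l 3) (b (b (l 3) (l 378661489735)) (l 122037152935))))) (b (a (l 3) (b (a (l 3) (b (l 16597120) (l 16578960))) (a (l 207936463495) (b (l 16565088) (l 16550448))))) (l 1)))))), by decide +kernel⟩

def k2_pm_213 : ∃ t, chk3 f_pm_213 t 7 2 1 = true :=
  ⟨(b (a (l 3) (b (l 6) (a (a (l 3) (a (l 3) (b (l 3) (b (l 3) (b (l 411410924439) (l 317995392631)))))) (a (b (l 6) (a (b (a (b (l 380809274951) (l 309405449943)) (b (l 264308272279) (l 16794496))) (b (l 253570852183) (l 16799904))) (b (l 16794152) (l 16799944)))) (b (l 6) (l 16819480)))))) (b (a (l 3) (a (a (b (l 3) (b (l 3) (a (l 3) (l 263234600007)))) (b (a (b (l 3) (l 391546731159)) (b (a (l 396915425735) (l 255181461127)) (l 230485407911))) (b (b (l 238001615175) (l 226727354199)) (a (l 16821112) (l 16823640))))) (a (b (a (b (l 16804656) (l 16811440)) (l 16809936)) (b (l 16819864) (l 16827552))) (b (l 16812752) (l 16828608))))) (a (b (l 3) (a (l 3) (a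 (l 3) (a (l 3) (b (l 257329029655) (l 225116881479)))))) (a (b (a (b (a (l 254107798247) (b (l 254644634263) (l 265382062695))) (a (b (l 251960371031) (l 16852160)) (b (l 16828360) (l 16830728)))) (b (l 16829208) (l 16835592))) (a (b (a (a (l 231559307159) (l 16850920)) (l 16833904)) (a (l 16872576) (l 16837368))) (b (l 16841424) (l 16846640)))) (b (a (l 16839040) (l 16846920)) (b (l 16793280) (l 16864912))))))), by decide +kernel⟩

def k3_pm_213 : ∃ t, chk3 f_pm_213 t 7 6 1 = true :=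
  ⟨(b (a (a (l 3) (b (a (l 3) (b (a (b (l 3) (l 202031375271)) (b (l 16823416) (l 16823208))) (a (b (l 201494510503) (l 198810160391)) (b (l 16823144) (l 16823192))))) (a (b (a (l 3) (b (l 168745378583) (b (l 170355978055) (l 168745374615)))) (a (b (l 3) (l 286856936471)) (b (b (l 165524140887) (l 161229165015)) (l 154249851255)))) (a (b (b (l 139217490263) (b (l 16813208) (l 16813552))) (b (l 16811424) (l 16807664))) (b (b (l 16823352) (l 16823720)) (l 16823128)))))) (b (a (a (b (a (l 16831824) (l 16839888)) (l 16900416)) (b (l 16851304) (l 16855848))) (a (l 16869432) (l 16885840))) (a (a (b (b (l 16838840) (l 16839712)) (a (l 16831280) (l 16841976))) (b (l 16860328) (l 16837472))) (l 16892784)))) (a (b (a (b (l 3) (a (l 3) (a (l 3) (l 242296656407)))) (a (b (b (a (l 142975529367) (l 16792368)) (a (l 16799480) (l 16789080))) (b (l 16801192) (l 16777016))) (b (a (l 16781872) (l 16815112)) (l 16803592)))) (a (a (l 3) (b (b (l 207400000615) (l 195051961015))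 (b (l 142975439783) (l 16761120)))) (b (a (l 16751704) (l 16797128)) (a (l 16805224) (l 16766824))))) (a (b (a (b (l 16833880) (l 16830256)) (b (l 16855136) (l 16854200))) (b (a (l 16822712) (l 16849168)) (l 16825016))) (b (l 16891992) (l 16886328))))), by decide +kernel⟩

def k4_pm_213 : ∃ t, chk3 f_pm_213 t 7 7 1 = true :=
  ⟨(b (b (a (a (a (b (l 148880978583) (l 104857344327)) (b (b (l 16731024) (l 16720064)) (l 16699608))) (a (b (l 16746616) (l 16722720)) (b (l 16791520) (l 16746600)))) (a (l 16782464) (l 16866616))) (a (b (a (b (a (l 16652400) (l 16674432)) (b (a (b (l 16638232) (l 16637880)) (l 16662824)) (a (l 16644744) (l 16671520)))) (a (b (l 16700168) (b (l 16689840) (l 16699616))) (b (l 16727160) (l 16723904)))) (b (a (b (a (l 16654152) (l 16682888)) (b (l 16672712) (l 16667424))) (a (b (l 16713656) (l 16714384)) (l 16708184))) (a (l 16649000) (l 16704272)))) (b (b (l 16789032) (a (l 16710400) (l 16825176))) (b (a (b (l 16795672) (l 16808520))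 (c (l 16879096) (l 16876384))) (a (l 16781328) (l 16876520)))))) (b (a (b (a (b (l 16627040) (a (l 16597584) (l 16620112))) (b (l 16676280) (l 16655056))) (a (a (l 16577240) (l 16596000)) (l 16626336))) (b (a (l 16727824) (l 16812768)) (b (l 16722872) (l 16689896)))) (a (a (b (a (l 400002096135) (l 16563968)) (l 1)) (l 16571032)) (a (b (l 16622376) (l 16579896)) (l 16631560))))), by decide +kernel⟩

theorem s5_pm_213 : ∃ t, chk3 f_pm_213 t 7 3 1 = true := ex3_b k3_pm_213 k4_pm_213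

theorem s6_pm_213 : ∃ t, chk3 f_pm_213 t 7 1 1 = true := ex3_b k2_pm_213 s5_pm_213

theorem s7_pm_213 : ∃ t, chk3 f_pm_213 t 3 1 1 = true := ex3_a k1_pm_213 s6_pm_213

theorem s8_pm_213 : ∃ t, chk3 f_pm_213 t 1 1 1 = true := ex3_a k0_pm_213 s7_pm_213

theorem c_pm_213 : CertB 0 536870912 0 1230186008 649613803 48318383 3 eng mog cd0q2 cd5q3 pd1 false true false .pnn 2 1 3
    ndB0q2 ndB5q3 pcB1 cut_pm_213 Ext.none :=
  certB0 (fam := false) (s1 := true) (s2 := false) (a := 2) (b := 1) (c := 3) (cn := .pnn) (n1 := ndB0q2) (n2 := ndB5q3) (pc := pcB1) (cut := cut_pm_213) (xt := Ext.none) (P1 := 0) (W1 := 536870912) (P2 := 0) (W2 := 1230186008) (P3 := 649613803) (W3 := 48318383) (N0 := 3) (En := eng) (mo := mog) (C1 := cd0q2) (C2 := cd5q3) (C3 := pd1)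
    rfl s8_pm_213

noncomputable def f_mm_001 : ℕ → ℕ → ℕ → ℕ → Bool := onCell 0 536870912 0 536870912 649613803 48318383
    (rowB 3 eng mog cd0q0 cd5q1 pd0 1 false false false .up 0 0 1 (qsf 0 536870912 536870912 536870912 0) ndB0q0 ndB5q1 pcB0 Cut.none Ext.none)

def k0_mm_001 : ∃ t, chk3 f_mm_001 t 1 1 1 = true :=
  ⟨(l 3), by decide +kernel⟩

theorem c_mm_001 : CertB 0 536870912 536870912 536870912 649613803 48318383 3 eng mog cd0q0 cd5q1 pd0 false false false .up 0 0 1
    ndB0q0 ndB5q1 pcB0 Cut.none Ext.none :=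
  certB1 (fam := false) (s1 := false) (s2 := false) (a := 0) (b := 0) (c := 1) (cn := .up) (n1 := ndB0q0) (n2 := ndB5q1) (pc := pcB0) (cut := Cut.none) (xt := Ext.none) (P1 := 0) (W1 := 536870912) (P2 := 536870912) (W2 := 536870912) (P3 := 649613803) (W3 := 48318383) (N0 := 3) (En := eng) (mo := mog) (C1 := cd0q0) (C2 := cd5q1) (C3 := pd0)
    rfl (fun _ => rfl) k0_mm_001

noncomputable def f_mm_011 : ℕ → ℕ → ℕ → ℕ → Bool := onCell 0 536870912 536870912 536870912 649613803 48318383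
    (rowB 3 eng mog cd0q0 cd5q1 pd1 1 false false false .pnn 0 1 1 (qsf 0 536870912 536870912 536870912 1) ndB0q0 ndB5q1 pcB1 Cut.none Ext.none)

def k0_mm_011 : ∃ t, chk3 f_mm_011 t 1 1 1 = true :=
  ⟨(l 5), by decide +kernel⟩

theorem c_mm_011 : CertB 0 536870912 536870912 536870912 649613803 48318383 3 eng mog cd0q0 cd5q1 pd1 false false false .pnn 0 1 1
    ndB0q0 ndB5q1 pcB1 Cut.none Ext.none :=
  certB1 (fam := false) (s1 := false) (s2 := false) (a := 0) (b := 1) (c := 1) (cn := .pnn) (n1 := ndB0q0) (n2 := ndB5q1) (pc := pcB1) (cut := Cut.none) (xt := Ext.none) (P1 := 0) (W1 := 536870912) (P2 := 536870912) (W2 := 536870912) (P3 := 649613803) (W3 := 48318383) (N0 := 3) (En := eng) (mo := mog) (C1 := cd0q0) (C2 := cd5q1) (C3 := pd1)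
    rfl (fun _ => rfl) k0_mm_011

noncomputable def f_mm_012 : ℕ → ℕ → ℕ → ℕ → Bool := onCell 0 536870912 1073741824 536870912 649613803 48318383
    (rowB 3 eng mog cd0q0 cd5q2 pd1 0 false false false .pnp 0 1 2 (qsf 0 536870912 1073741824 536870912 1) ndB0q0 ndB5q2 pcB1 Cut.none Ext.none)

def k0_mm_012 : ∃ t, chk3 f_mm_012 t 1 1 1 = true :=
  ⟨(l 5), by decide +kernel⟩

theorem c_mm_012 : CertB 0 536870912 1073741824 536870912 649613803 48318383 3 eng mog cd0q0 cd5q2 pd1 false false false .pnp 0 1 2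
    ndB0q0 ndB5q2 pcB1 Cut.none Ext.none :=
  certB0 (fam := false) (s1 := false) (s2 := false) (a := 0) (b := 1) (c := 2) (cn := .pnp) (n1 := ndB0q0) (n2 := ndB5q2) (pc := pcB1) (cut := Cut.none) (xt := Ext.none) (P1 := 0) (W1 := 536870912) (P2 := 1073741824) (W2 := 536870912) (P3 := 649613803) (W3 := 48318383) (N0 := 3) (En := eng) (mo := mog) (C1 := cd0q0) (C2 := cd5q2) (C3 := pd1)
    rfl k0_mm_012

noncomputable def f_mm_022 : ℕ → ℕ → ℕ → ℕ → Bool := onCell 0 536870912 1073741824 536870912 649613803 48318383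
    (rowB 3 eng mog cd0q0 cd5q2 pd2 0 false false false .pp 0 2 2 (qsf 0 536870912 1073741824 536870912 2) ndB0q0 ndB5q2 pcB2 Cut.none Ext.none)

def k0_mm_022 : ∃ t, chk3 f_mm_022 t 1 1 1 = true :=
  ⟨(l 5), by decide +kernel⟩

theorem c_mm_022 : CertB 0 536870912 1073741824 536870912 649613803 48318383 3 eng mog cd0q0 cd5q2 pd2 false false false .pp 0 2 2
    ndB0q0 ndB5q2 pcB2 Cut.none Ext.none :=
  certB0 (fam := false) (s1 := false) (s2 := false) (a := 0) (b := 2) (c := 2) (cn := .pp) (n1 := ndB0q0) (n2 := ndB5q2) (pc := pcB2) (cut := Cut.none) (xt := Ext.none) (P1 := 0) (W1 := 536870912) (P2 := 1073741824) (W2 := 536870912) (P3 := 649613803) (W3 := 48318383) (N0 := 3) (En := eng) (mo := mog) (C1 := cd0q0) (C2 := cd5q2) (C3 := pd2)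
    rfl k0_mm_022

noncomputable def f_mm_023 : ℕ → ℕ → ℕ → ℕ → Bool := onCell 0 536870912 0 1230186008 649613803 48318383
    (rowB 3 eng mog cd0q0 cd5q3 pd2 0 false false false .up 0 2 3 (qsf 0 536870912 0 1230186008 2) ndB0q0 ndB5q3 pcB2 Cut.none Ext.none)

def k0_mm_023 : ∃ t, chk3 f_mm_023 t 1 1 1 = true :=
  ⟨(l 5), by decide +kernel⟩

theorem c_mm_023 : CertB 0 536870912 0 1230186008 649613803 48318383 3 eng mog cd0q0 cd5q3 pd2 false false false .up 0 2 3
    ndB0q0 ndB5q3 pcB2 Cut.none Ext.none :=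
  certB0 (fam := false) (s1 := false) (s2 := false) (a := 0) (b := 2) (c := 3) (cn := .up) (n1 := ndB0q0) (n2 := ndB5q3) (pc := pcB2) (cut := Cut.none) (xt := Ext.none) (P1 := 0) (W1 := 536870912) (P2 := 0) (W2 := 1230186008) (P3 := 649613803) (W3 := 48318383) (N0 := 3) (En := eng) (mo := mog) (C1 := cd0q0) (C2 := cd5q3) (C3 := pd2)
    rfl k0_mm_023

noncomputable def f_mm_033 : ℕ → ℕ → ℕ → ℕ → Bool := onCell 0 536870912 0 1230186008 649613803 48318383
    (rowB 3 eng mog cd0q0 cd5q3 pd3 0 false false false .pnn 0 3 3 (qsf 0 536870912 0 1230186008 3) ndB0q0 ndB5q3 pcB3 Cut.none Ext.none)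

def k0_mm_033 : ∃ t, chk3 f_mm_033 t 1 1 1 = true :=
  ⟨(l 5), by decide +kernel⟩

theorem c_mm_033 : CertB 0 536870912 0 1230186008 649613803 48318383 3 eng mog cd0q0 cd5q3 pd3 false false false .pnn 0 3 3
    ndB0q0 ndB5q3 pcB3 Cut.none Ext.none :=
  certB0 (fam := false) (s1 := false) (s2 := false) (a := 0) (b := 3) (c := 3) (cn := .pnn) (n1 := ndB0q0) (n2 := ndB5q3) (pc := pcB3) (cut := Cut.none) (xt := Ext.none) (P1 := 0) (W1 := 536870912) (P2 := 0) (W2 := 1230186008) (P3 := 649613803) (W3 := 48318383) (N0 := 3) (En := eng) (mo := mog) (C1 := cd0q0) (C2 := cd5q3) (C3 := pd3)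
    rfl k0_mm_033

noncomputable def cut_mm_101 : Cut := Cut.of [[⟨0, 1, 0, 67108864⟩, ⟨1, 0, 0, 67108864⟩, ⟨2, 1, 0, 67108864⟩]]

noncomputable def f_mm_101 : ℕ → ℕ → ℕ → ℕ → Bool := onCell 536870912 536870912 0 536870912 649613803 48318383
    (rowB 3 eng mog cd0q1 cd5q1 pd0 1 false false false .npn 1 0 1 (qsf 536870912 536870912 536870912 536870912 0) ndB0q1 ndB5q1 pcB0 cut_mm_101 Ext.none)

def k0_mm_101 : ∃ t, chk3 f_mm_101 t 1 1 1 = true :=
  ⟨(a (l 3) (b (a (l 3) (b (a (l 3) (b (a (l 3) (b (l 6) (l 3))) (l 3))) (l 3))) (l 3))), by decide +kernel⟩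

theorem c_mm_101 : CertB 536870912 536870912 536870912 536870912 649613803 48318383 3 eng mog cd0q1 cd5q1 pd0 false false false .npn 1 0 1
    ndB0q1 ndB5q1 pcB0 cut_mm_101 Ext.none :=
  certB1 (fam := false) (s1 := false) (s2 := false) (a := 1) (b := 0) (c := 1) (cn := .npn) (n1 := ndB0q1) (n2 := ndB5q1) (pc := pcB0) (cut := cut_mm_101) (xt := Ext.none) (P1 := 536870912) (W1 := 536870912) (P2 := 536870912) (W2 := 536870912) (P3 := 649613803) (W3 := 48318383) (N0 := 3) (En := eng) (mo := mog) (C1 := cd0q1) (C2 := cd5q1) (C3 := pd0)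
    rfl (fun _ => rfl) k0_mm_101

noncomputable def f_mm_102 : ℕ → ℕ → ℕ → ℕ → Bool := onCell 536870912 536870912 1073741824 536870912 649613803 48318383
    (rowB 3 eng mog cd0q1 cd5q2 pd0 0 false false false .npp 1 0 2 (qsf 536870912 536870912 1073741824 536870912 0) ndB0q1 ndB5q2 pcB0 Cut.none Ext.none)

def k0_mm_102 : ∃ t, chk3 f_mm_102 t 1 1 1 = true :=
  ⟨(l 3), by decide +kernel⟩

theorem c_mm_102 : CertB 536870912 536870912 1073741824 536870912 649613803 48318383 3 eng mog cd0q1 cd5q2 pd0 false false false .npp 1 0 2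
    ndB0q1 ndB5q2 pcB0 Cut.none Ext.none :=
  certB0 (fam := false) (s1 := false) (s2 := false) (a := 1) (b := 0) (c := 2) (cn := .npp) (n1 := ndB0q1) (n2 := ndB5q2) (pc := pcB0) (cut := Cut.none) (xt := Ext.none) (P1 := 536870912) (W1 := 536870912) (P2 := 1073741824) (W2 := 536870912) (P3 := 649613803) (W3 := 48318383) (N0 := 3) (En := eng) (mo := mog) (C1 := cd0q1) (C2 := cd5q2) (C3 := pd0)
    rfl k0_mm_102

noncomputable def f_mm_112 : ℕ → ℕ → ℕ → ℕ → Bool := onCell 536870912 536870912 1073741824 536870912 649613803 48318383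
    (rowB 3 eng mog cd0q1 cd5q2 pd1 0 false false false .dn 1 1 2 (qsf 536870912 536870912 1073741824 536870912 1) ndB0q1 ndB5q2 pcB1 Cut.none Ext.none)

def k0_mm_112 : ∃ t, chk3 f_mm_112 t 1 1 1 = true :=
  ⟨(l 3), by decide +kernel⟩

theorem c_mm_112 : CertB 536870912 536870912 1073741824 536870912 649613803 48318383 3 eng mog cd0q1 cd5q2 pd1 false false false .dn 1 1 2
    ndB0q1 ndB5q2 pcB1 Cut.none Ext.none :=
  certB0 (fam := false) (s1 := false) (s2 := false) (a := 1) (b := 1) (c := 2) (cn := .dn) (n1 := ndB0q1) (n2 := ndB5q2) (pc := pcB1) (cut := Cut.none) (xt := Ext.none) (P1 := 536870912) (W1 := 536870912) (P2 := 1073741824) (W2 := 536870912) (P3 := 649613803) (W3 := 48318383) (N0 := 3) (En := eng) (mo := mog) (C1 := cd0q1) (C2 := cd5q2) (C3 := pd1)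
    rfl k0_mm_112

noncomputable def f_mm_113 : ℕ → ℕ → ℕ → ℕ → Bool := onCell 536870912 536870912 0 1230186008 649613803 48318383
    (rowB 3 eng mog cd0q1 cd5q3 pd1 0 false false false .nn 1 1 3 (qsf 536870912 536870912 0 1230186008 1) ndB0q1 ndB5q3 pcB1 Cut.none Ext.none)

def k0_mm_113 : ∃ t, chk3 f_mm_113 t 1 1 1 = true :=
  ⟨(b (l 5) (b (l 5) (l 5))), by decide +kernel⟩

theorem c_mm_113 : CertB 536870912 536870912 0 1230186008 649613803 48318383 3 eng mog cd0q1 cd5q3 pd1 false false false .nn 1 1 3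
    ndB0q1 ndB5q3 pcB1 Cut.none Ext.none :=
  certB0 (fam := false) (s1 := false) (s2 := false) (a := 1) (b := 1) (c := 3) (cn := .nn) (n1 := ndB0q1) (n2 := ndB5q3) (pc := pcB1) (cut := Cut.none) (xt := Ext.none) (P1 := 536870912) (W1 := 536870912) (P2 := 0) (W2 := 1230186008) (P3 := 649613803) (W3 := 48318383) (N0 := 3) (En := eng) (mo := mog) (C1 := cd0q1) (C2 := cd5q3) (C3 := pd1)
    rfl k0_mm_113

noncomputable def f_mm_123 : ℕ → ℕ → ℕ → ℕ → Bool := onCell 1073741824 536870912 0 1230186008 649613803 48318383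
    (rowB 3 eng mog cd0q1 cd5q3 pd2 2 false false false .npn 1 2 3 (qsf 536870912 536870912 0 1230186008 2) ndB0q1 ndB5q3 pcB2 Cut.none Ext.none)

def k0_mm_123 : ∃ t, chk3 f_mm_123 t 1 1 1 = true :=
  ⟨(b (l 5) (l 5)), by decide +kernel⟩

theorem c_mm_123 : CertB 536870912 536870912 0 1230186008 649613803 48318383 3 eng mog cd0q1 cd5q3 pd2 false false false .npn 1 2 3
    ndB0q1 ndB5q3 pcB2 Cut.none Ext.none :=
  certB2 (fam := false) (s1 := false) (s2 := false) (a := 1) (b := 2) (c := 3) (cn := .npn) (n1 := ndB0q1) (n2 := ndB5q3) (pc := pcB2) (cut := Cut.none) (xt := Ext.none) (P1 := 536870912) (W1 := 536870912) (P2 := 0) (W2 := 1230186008) (P3 := 649613803) (W3 := 48318383) (N0 := 3) (En := eng) (mo := mog) (C1 := cd0q1) (C2 := cd5q3) (C3 := pd2)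
    rfl (fun _ => rfl) k0_mm_123

noncomputable def f_mm_133 : ℕ → ℕ → ℕ → ℕ → Bool := onCell 1610612736 536870912 0 1230186008 649613803 48318383
    (rowB 3 eng mog cd0q1 cd5q3 pd3 2 false false false .dn 1 3 3 (qsf 536870912 536870912 0 1230186008 3) ndB0q1 ndB5q3 pcB3 Cut.none Ext.none)

def k0_mm_133 : ∃ t, chk3 f_mm_133 t 1 1 1 = true :=
  ⟨(l 5), by decide +kernel⟩

theorem c_mm_133 : CertB 536870912 536870912 0 1230186008 649613803 48318383 3 eng mog cd0q1 cd5q3 pd3 false false false .dn 1 3 3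
    ndB0q1 ndB5q3 pcB3 Cut.none Ext.none :=
  certB2 (fam := false) (s1 := false) (s2 := false) (a := 1) (b := 3) (c := 3) (cn := .dn) (n1 := ndB0q1) (n2 := ndB5q3) (pc := pcB3) (cut := Cut.none) (xt := Ext.none) (P1 := 536870912) (W1 := 536870912) (P2 := 0) (W2 := 1230186008) (P3 := 649613803) (W3 := 48318383) (N0 := 3) (En := eng) (mo := mog) (C1 := cd0q1) (C2 := cd5q3) (C3 := pd3)
    rfl (fun _ => rfl) k0_mm_133

noncomputable def f_mm_202 : ℕ → ℕ → ℕ → ℕ → Bool := onCell 0 536870912 1073741824 536870912 649613803 48318383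
    (rowB 3 eng mog cd0q2 cd5q2 pd0 0 false false false .pp 2 0 2 (qsf 0 536870912 1073741824 536870912 0) ndB0q2 ndB5q2 pcB0 Cut.none Ext.none)

def k0_mm_202 : ∃ t, chk3 f_mm_202 t 1 1 1 = true :=
  ⟨(l 3), by decide +kernel⟩

theorem c_mm_202 : CertB 0 536870912 1073741824 536870912 649613803 48318383 3 eng mog cd0q2 cd5q2 pd0 false false false .pp 2 0 2
    ndB0q2 ndB5q2 pcB0 Cut.none Ext.none :=
  certB0 (fam := false) (s1 := false) (s2 := false) (a := 2) (b := 0) (c := 2) (cn := .pp) (n1 := ndB0q2) (n2 := ndB5q2) (pc := pcB0) (cut := Cut.none) (xt := Ext.none) (P1 := 0) (W1 := 536870912) (P2 := 1073741824) (W2 := 536870912) (P3 := 649613803) (W3 := 48318383) (N0 := 3) (En := eng) (mo := mog) (C1 := cd0q2) (C2 := cd5q2) (C3 := pd0)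
    rfl k0_mm_202

noncomputable def f_mm_203 : ℕ → ℕ → ℕ → ℕ → Bool := onCell 0 536870912 0 1230186008 649613803 48318383
    (rowB 3 eng mog cd0q2 cd5q3 pd0 0 false false false .up 2 0 3 (qsf 0 536870912 0 1230186008 0) ndB0q2 ndB5q3 pcB0 Cut.none Ext.none)

def k0_mm_203 : ∃ t, chk3 f_mm_203 t 1 1 1 = true :=
  ⟨(b (l 2) (l 3)), by decide +kernel⟩

theorem c_mm_203 : CertB 0 536870912 0 1230186008 649613803 48318383 3 eng mog cd0q2 cd5q3 pd0 false false false .up 2 0 3
    ndB0q2 ndB5q3 pcB0 Cut.none Ext.none :=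
  certB0 (fam := false) (s1 := false) (s2 := false) (a := 2) (b := 0) (c := 3) (cn := .up) (n1 := ndB0q2) (n2 := ndB5q3) (pc := pcB0) (cut := Cut.none) (xt := Ext.none) (P1 := 0) (W1 := 536870912) (P2 := 0) (W2 := 1230186008) (P3 := 649613803) (W3 := 48318383) (N0 := 3) (En := eng) (mo := mog) (C1 := cd0q2) (C2 := cd5q3) (C3 := pd0)
    rfl k0_mm_203

noncomputable def f_mm_213 : ℕ → ℕ → ℕ → ℕ → Bool := onCell 0 536870912 0 1230186008 649613803 48318383
    (rowB 3 eng mog cd0q2 cd5q3 pd1 0 false false false .pnn 2 1 3 (qsf 0 536870912 0 1230186008 1) ndB0q2 ndB5q3 pcB1 Cut.none Ext.none)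

def k0_mm_213 : ∃ t, chk3 f_mm_213 t 1 1 1 = true :=
  ⟨(b (a (l 3) (l 5)) (l 3)), by decide +kernel⟩

theorem c_mm_213 : CertB 0 536870912 0 1230186008 649613803 48318383 3 eng mog cd0q2 cd5q3 pd1 false false false .pnn 2 1 3
    ndB0q2 ndB5q3 pcB1 Cut.none Ext.none :=
  certB0 (fam := false) (s1 := false) (s2 := false) (a := 2) (b := 1) (c := 3) (cn := .pnn) (n1 := ndB0q2) (n2 := ndB5q3) (pc := pcB1) (cut := Cut.none) (xt := Ext.none) (P1 := 0) (W1 := 536870912) (P2 := 0) (W2 := 1230186008) (P3 := 649613803) (W3 := 48318383) (N0 := 3) (En := eng) (mo := mog) (C1 := cd0q2) (C2 := cd5q3) (C3 := pd1)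
    rfl k0_mm_213

end Pool.Agent.Strip051.G.I6050_6500.Tab.C.BB05

namespace Pool.Agent.Strip051.G.I6050_6500.Tab.C.BB06

open Pool.Agent.Strip051.PB Pool.Agent.Strip051.PB.T
open Pool.Agent.Strip051.G.I6050_6500.Tab

noncomputable def f_pp_001 : ℕ → ℕ → ℕ → ℕ → Bool := onCell 0 536870912 0 536870912 649613803 48318383
    (rowB 3 eng mog cd0q0 cd6q1 pd0 1 false true true .up 0 0 1 (qsf 0 536870912 536870912 536870912 0) ndB0q0 ndB6q1 pcB0 Cut.none Ext.none)

def k0_pp_001 : ∃ t, chk3 f_pp_001 t 1 1 1 = true :=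
  ⟨(l 3), by decide +kernel⟩

theorem c_pp_001 : CertB 0 536870912 536870912 536870912 649613803 48318383 3 eng mog cd0q0 cd6q1 pd0 false true true .up 0 0 1
    ndB0q0 ndB6q1 pcB0 Cut.none Ext.none :=
  certB1 (fam := false) (s1 := true) (s2 := true) (a := 0) (b := 0) (c := 1) (cn := .up) (n1 := ndB0q0) (n2 := ndB6q1) (pc := pcB0) (cut := Cut.none) (xt := Ext.none) (P1 := 0) (W1 := 536870912) (P2 := 536870912) (W2 := 536870912) (P3 := 649613803) (W3 := 48318383) (N0 := 3) (En := eng) (mo := mog) (C1 := cd0q0) (C2 := cd6q1) (C3 := pd0)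
    rfl (fun _ => rfl) k0_pp_001

noncomputable def cut_pp_011 : Cut := Cut.of [[⟨0, 0, 0, 67108864⟩, ⟨1, 1, 0, 67108864⟩, ⟨2, 1, 0, 67108864⟩]]

noncomputable def f_pp_011 : ℕ → ℕ → ℕ → ℕ → Bool := onCell 0 536870912 536870912 536870912 649613803 48318383
    (rowB 3 eng mog cd0q0 cd6q1 pd1 1 false true true .pnn 0 1 1 (qsf 0 536870912 536870912 536870912 1) ndB0q0 ndB6q1 pcB1 cut_pp_011 Ext.none)

def k0_pp_011 : ∃ t, chk3 f_pp_011 t 1 1 1 = true :=
  ⟨(b (l 3) (a (b (l 3) (a (b (l 3) (a (b (l 3) (a (l 6) (l 3))) (l 3))) (l 3))) (l 3))), by decide +kernel⟩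

theorem c_pp_011 : CertB 0 536870912 536870912 536870912 649613803 48318383 3 eng mog cd0q0 cd6q1 pd1 false true true .pnn 0 1 1
    ndB0q0 ndB6q1 pcB1 cut_pp_011 Ext.none :=
  certB1 (fam := false) (s1 := true) (s2 := true) (a := 0) (b := 1) (c := 1) (cn := .pnn) (n1 := ndB0q0) (n2 := ndB6q1) (pc := pcB1) (cut := cut_pp_011) (xt := Ext.none) (P1 := 0) (W1 := 536870912) (P2 := 536870912) (W2 := 536870912) (P3 := 649613803) (W3 := 48318383) (N0 := 3) (En := eng) (mo := mog) (C1 := cd0q0) (C2 := cd6q1) (C3 := pd1)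
    rfl (fun _ => rfl) k0_pp_011

noncomputable def f_pp_012 : ℕ → ℕ → ℕ → ℕ → Bool := onCell 0 536870912 536870912 536870912 649613803 48318383
    (rowB 3 eng mog cd0q0 cd6q2 pd1 1 false true true .pnp 0 1 2 (qsf 0 536870912 1073741824 536870912 1) ndB0q0 ndB6q2 pcB1 Cut.none Ext.none)

def k0_pp_012 : ∃ t, chk3 f_pp_012 t 1 1 1 = true :=
  ⟨(l 3), by decide +kernel⟩

theorem c_pp_012 : CertB 0 536870912 1073741824 536870912 649613803 48318383 3 eng mog cd0q0 cd6q2 pd1 false true true .pnp 0 1 2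
    ndB0q0 ndB6q2 pcB1 Cut.none Ext.none :=
  certB1 (fam := false) (s1 := true) (s2 := true) (a := 0) (b := 1) (c := 2) (cn := .pnp) (n1 := ndB0q0) (n2 := ndB6q2) (pc := pcB1) (cut := Cut.none) (xt := Ext.none) (P1 := 0) (W1 := 536870912) (P2 := 1073741824) (W2 := 536870912) (P3 := 649613803) (W3 := 48318383) (N0 := 3) (En := eng) (mo := mog) (C1 := cd0q0) (C2 := cd6q2) (C3 := pd1)
    rfl (fun _ => rfl) k0_pp_012

noncomputable def f_pp_022 : ℕ → ℕ → ℕ → ℕ → Bool := onCell 1073741824 536870912 1073741824 536870912 649613803 48318383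
    (rowB 3 eng mog cd0q0 cd6q2 pd2 2 false true true .pp 0 2 2 (qsf 0 536870912 1073741824 536870912 2) ndB0q0 ndB6q2 pcB2 Cut.none Ext.none)

def k0_pp_022 : ∃ t, chk3 f_pp_022 t 4 1 1 = true :=
  ⟨(l 3), by decide +kernel⟩

def k1_pp_022 : ∃ t, chk3 f_pp_022 t 5 2 1 = true :=
  ⟨(a (a (a (l 3) (a (l 3) (b (l 1) (a (a (l 3) (b (l 3) (b (b (l 5431153311111) (l 16468128)) (l 16516848)))) (b (b (b (l 1) (b (l 1) (a (a (l 3) (a (l 16359896) (l 16358912))) (a (a (a (l 16358144) (c (l 16440480) (l 16443992))) (l 16377904)) (l 16439304))))) (a (a (b (b (l 16442680) (l 16461712)) (l 16447376)) (a (b (c (l 16461376) (l 16441640)) (l 16445936)) (b (b (l 16440240) (l 16438328)) (l 16444952)))) (a (a (a (b (c (l 16438632) (l 16439936)) (l 16444192)) (a (b (c (l 16438248) (l 16439576)) (l 16443872)) (b (c (l 16459000) (l 16439424)) (l 16443704)))) (b (c (l 16437432) (l 16438880)) (l 16443136))) (b (c (l 16435912) (l 16437424)) (l 16404960))))) (a (a (b (b (c (l 16457616)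 (l 16458720)) (l 16465136)) (l 16471520)) (b (b (c (l 16455600) (l 16456792)) (l 16505064)) (b (l 16468416) (l 16470824)))) (b (b (a (a (a (c (l 16454344) (l 16455608)) (c (l 16453912) (l 16455288))) (l 16348304)) (l 16346824)) (l 16460256)) (l 16550136)))))))) (b (l 1) (b (a (c (b (b (l 1) (l 16421448)) (b (b (l 16439976) (a (l 16426304) (l 16409824))) (l 16424856))) (b (l 16423712) (b (b (l 16400944) (l 16440568)) (l 16405368)))) (b (l 1) (b (c (b (l 1) (l 16384400)) (l 16388200)) (c (l 16412336) (l 16394112))))) (b (b (a (a (l 16316928) (l 16426640)) (l 16401840)) (l 16509720)) (a (l 16488768) (l 16432440)))))) (b (l 1) (b (b (l 1) (b (l 1) (a (l 16339800) (l 1)))) (b (a (b (l 16389488) (l 16350064)) (l 16328400)) (a (b (l 16354128) (l 16359776)) (b (l 16276184) (l 16284752))))))), by decide +kernel⟩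

def k2_pp_022 : ∃ t, chk3 f_pp_022 t 20 3 1 = true :=
  ⟨(a (b (l 3) (b (l 3) (a (l 3) (b (a (l 3) (a (l 3) (l 16596048))) (a (b (l 3) (l 3)) (a (b (l 16607200) (l 16612328)) (b (l 16605920) (l 16611664)))))))) (a (a (b (l 3) (b (b (a (l 3) (l 16556920)) (a (l 16577952) (l 16575312))) (b (a (l 16594208) (l 16592360)) (a (b (l 16605016) (l 16611096)) (b (l 16603104) (l 16608888)))))) (b (b (b (l 3) (a (l 3) (l 16501104))) (b (a (l 3) (l 16515200)) (a (l 16535456) (l 16532048)))) (b (b (a (l 16553808) (l 16550736)) (a (l 16572760) (l 16569680))) (b (a (l 16589680) (l 16586720)) (l 16643976))))) (b (a (b (b (a (b (l 16483912) (l 16488504)) (b (l 16479760) (l 16484488))) (a (l 16497160) (l 16493344))) (b (a (l 16511560) (l 16549680)) (a (l 16528624) (l 16566776)))) (b (a (a (b (l 16478904) (l 16490376)) (b (b (l 16474576) (l 16479528)) (l 16488616))) (b (b (l 16471672) (l 16476688)) (c (l 16489480) (l 16480920)))) (a (b (l 16504328) (l 16542672)) (b (b (l 16496688)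 (l 16504800)) (a (a (a (l 16519912) (a (l 16519664) (l 16582544))) (l 16519224)) (l 16518080)))))) (a (b (b (a (l 16547312) (l 16544032)) (l 16585976)) (b (l 16582728) (a (l 16598688) (l 16596984)))) (b (a (a (b (l 16541672) (l 16561440)) (b (l 16540128) (l 16560544))) (a (a (a (b (l 16539504) (l 16560808)) (a (b (l 16539728) (l 16561848)) (b (l 16540496) (l 16562904)))) (b (l 16540592) (l 16563104))) (b (l 16539600) (l 16562088)))) (a (a (b (l 16579984) (l 16596632)) (b (l 16580272) (l 16598456))) (a (b (a (a (l 16581848) (l 16583744)) (l 16584600)) (a (a (l 16600440) (l 16602640)) (l 16603632))) (b (l 16583968) (l 16603216))))))))), by decide +kernel⟩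

def k3_pp_022 : ∃ t, chk3 f_pp_022 t 21 3 1 = true :=
  ⟨(b (b (b (b (l 16457224) (l 16442680)) (b (l 16449912) (l 16457984))) (b (b (l 16466768) (l 16476160)) (a (l 16546824) (l 16479288)))) (b (b (a (l 16527752) (l 16504776)) (a (l 16552240) (l 16532304))) (b (a (l 16576400) (l 16559800)) (a (l 16598024) (l 16586288))))), by decide +kernel⟩

def k4_pp_022 : ∃ t, chk3 f_pp_022 t 11 3 1 = true :=
  ⟨(b (b (b (a (b (l 16367008) (l 16375600)) (l 16299912)) (a (l 16453272) (l 16324416))) (b (a (b (l 16407440) (l 16419568)) (b (l 16345320) (l 16360776))) (a (b (l 16432864) (l 16446896)) (l 16385664)))) (b (b (a (l 16469096) (l 16420432)) (a (l 16500008) (l 16456328))) (b (a (l 16532688) (l 16493176)) (a (l 16564320) (l 16531112))))), by decide +kernel⟩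

def k5_pp_022 : ∃ t, chk3 f_pp_022 t 3 1 1 = true :=
  ⟨(b (b (l 1) (a (b (l 1) (a (b (l 1) (a (l 16198200) (l 1))) (l 1))) (l 1))) (a (b (b (a (b (a (l 16225160) (l 16145152)) (a (l 16255728) (l 16183656))) (b (l 1) (a (l 16106736) (l 1)))) (a (b (a (b (l 16281096) (l 16299728)) (l 16224912)) (a (l 16329456) (l 16270408))) (b (a (l 16156488) (l 16083576)) (a (l 16208976) (l 16145056))))) (a (b (a (b (l 16370880) (l 16412408)) (b (l 16317344) (l 16364536))) (a (b (l 16453992) (l 16495544)) (b (l 16410544) (l 16455640)))) (b (b (a (l 16262312) (l 16205856)) (a (l 16314816) (l 16264944))) (b (l 16343280) (l 16395200))))) (b (b (l 1) (a (b (l 1) (a (l 16077064) (l 1))) (l 1))) (b (a (b (a (l 16147256) (l 16084840)) (l 39761011687)) (b (l 1) (l 113848990503))) (a (b (l 16254424) (l 16315952)) (b (l 139618997191) (l 16236512))))))), by decide +kernel⟩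

theorem s6_pp_022 : ∃ t, chk3 f_pp_022 t 10 3 1 = true := ex3_a k2_pp_022 k3_pp_022

theorem s7_pp_022 : ∃ t, chk3 f_pp_022 t 5 3 1 = true := ex3_a s6_pp_022 k4_pp_022

theorem s8_pp_022 : ∃ t, chk3 f_pp_022 t 5 1 1 = true := ex3_b k1_pp_022 s7_pp_022

theorem s9_pp_022 : ∃ t, chk3 f_pp_022 t 2 1 1 = true := ex3_a k0_pp_022 s8_pp_022

theorem s10_pp_022 : ∃ t, chk3 f_pp_022 t 1 1 1 = true := ex3_a s9_pp_022 k5_pp_022

theorem c_pp_022 : CertB 0 536870912 1073741824 536870912 649613803 48318383 3 eng mog cd0q0 cd6q2 pd2 false true true .pp 0 2 2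
    ndB0q0 ndB6q2 pcB2 Cut.none Ext.none :=
  certB2 (fam := false) (s1 := true) (s2 := true) (a := 0) (b := 2) (c := 2) (cn := .pp) (n1 := ndB0q0) (n2 := ndB6q2) (pc := pcB2) (cut := Cut.none) (xt := Ext.none) (P1 := 0) (W1 := 536870912) (P2 := 1073741824) (W2 := 536870912) (P3 := 649613803) (W3 := 48318383) (N0 := 3) (En := eng) (mo := mog) (C1 := cd0q0) (C2 := cd6q2) (C3 := pd2)
    rfl (fun _ => rfl) s10_pp_022

noncomputable def f_pp_023 : ℕ → ℕ → ℕ → ℕ → Bool := onCell 1073741824 536870912 0 1230186008 649613803 48318383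
    (rowB 3 eng mog cd0q0 cd6q3 pd2 2 false true true .up 0 2 3 (qsf 0 536870912 0 1230186008 2) ndB0q0 ndB6q3 pcB2 Cut.none Ext.none)

def k0_pp_023 : ∃ t, chk3 f_pp_023 t 2 1 1 = true :=
  ⟨(b (l 2) (a (b (l 2) (a (l 3) (b (l 2) (a (l 3) (a (l 3) (b (a (l 3) (b (l 16640200) (l 3))) (l 3))))))) (a (b (l 2) (b (a (b (l 2) (b (l 2) (a (a (l 98884733815) (l 16646616)) (a (l 16657368) (a (l 16630176) (a (l 16629744) (l 16630336))))))) (b (l 16686648) (l 16635664))) (a (a (b (a (b (a (l 16634168) (l 16630088)) (a (l 16612248) (l 16608408))) (b (l 16664136) (l 16605136))) (a (b (l 119889707463) (l 3)) (b (a (l 16583968) (l 16580968)) (a (b (l 16598200) (l 16606608)) (b (l 16599736) (l 16606832)))))) (a (b (a (l 16602016) (l 16622336)) (a (b (l 16581816) (a (l 16603736) (l 16601552))) (b (l 16580280) (l 16598424)))) (b (a (l 16596488) (a (l 16594296) (b (l 16603248) (l 16600832)))) (a (b (l 16584664) (b (l 16595120) (l 16598344))) (a (b (l 16596872) (l 16603064))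 (b (l 16610248) (b (l 16612128) (l 16609784)))))))) (b (b (l 16627848) (l 16629680)) (b (l 16625656) (b (l 16617768) (l 16609376))))))) (a (b (l 2) (b (b (l 16665432) (l 16651752)) (b (b (l 16659008) (l 16650224)) (b (l 16629240) (l 16600408))))) (b (b (l 2) (l 175120294295)) (b (b (l 16660336) (l 16667616)) (b (l 16633808) (b (l 16616592) (l 16575312))))))))), by decide +kernel⟩

def k1_pp_023 : ∃ t, chk3 f_pp_023 t 3 1 1 = true :=
  ⟨(b (a (l 2) (b (a (l 2) (l 16693120)) (a (b (l 16731504) (l 16811568)) (b (l 16717928) (l 16728432))))) (b (a (b (a (l 2) (l 16686896)) (a (b (l 16685376) (l 16607328)) (b (l 16595928) (a (l 16671320) (l 16670176))))) (b (a (l 16695120) (l 16703408)) (a (b (l 16675088) (l 16649720)) (b (l 16659528) (l 16608656))))) (a (b (a (b (a (l 16671928) (l 16663832)) (a (l 16665888) (l 16645616))) (b (a (l 16652416) (l 16640216)) (a (l 16618024) (l 16588640)))) (b (a (a (l 16679648) (l 16601624)) (b (l 16555776) (l 16518320))) (a (b (a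 (l 16591856) (l 16549336)) (a (l 16544216) (l 16502136))) (b (l 16477984) (l 16434456))))) (b (a (b (a (l 16619272) (l 16586560)) (l 16638432)) (b (l 16599632) (l 16452816))) (b (a (a (l 16473336) (l 16429008)) (l 16367992)) (a (b (l 16388272) (l 16345656)) (b (l 16302600) (l 16259744)))))))), by decide +kernel⟩

theorem s2_pp_023 : ∃ t, chk3 f_pp_023 t 1 1 1 = true := ex3_a k0_pp_023 k1_pp_023

theorem c_pp_023 : CertB 0 536870912 0 1230186008 649613803 48318383 3 eng mog cd0q0 cd6q3 pd2 false true true .up 0 2 3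
    ndB0q0 ndB6q3 pcB2 Cut.none Ext.none :=
  certB2 (fam := false) (s1 := true) (s2 := true) (a := 0) (b := 2) (c := 3) (cn := .up) (n1 := ndB0q0) (n2 := ndB6q3) (pc := pcB2) (cut := Cut.none) (xt := Ext.none) (P1 := 0) (W1 := 536870912) (P2 := 0) (W2 := 1230186008) (P3 := 649613803) (W3 := 48318383) (N0 := 3) (En := eng) (mo := mog) (C1 := cd0q0) (C2 := cd6q3) (C3 := pd2)
    rfl (fun _ => rfl) s2_pp_023

noncomputable def f_pp_033 : ℕ → ℕ → ℕ → ℕ → Bool := onCell 1610612736 536870912 0 1230186008 649613803 48318383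
    (rowB 3 eng mog cd0q0 cd6q3 pd3 2 false true true .pnn 0 3 3 (qsf 0 536870912 0 1230186008 3) ndB0q0 ndB6q3 pcB3 Cut.none Ext.none)

def k0_pp_033 : ∃ t, chk3 f_pp_033 t 1 1 1 = true :=
  ⟨(b (b (a (a (a (l 16782560) (l 16623528)) (a (l 16742824) (l 16549336))) (a (a (l 16496240) (l 4)) (l 4))) (a (b (a (a (l 16662512) (l 16625080)) (a (l 16655280) (l 16520576))) (a (a (l 16651920) (a (l 16609552) (l 16580000))) (a (a (l 16547464) (l 16515368)) (b (l 16486024) (l 16455648))))) (a (a (b (l 16472256) (a (l 16439256) (l 16419288))) (a (b (l 4) (l 16404808)) (l 16566656))) (l 4)))) (b (a (a (a (b (b (l 16627176) (l 16592936)) (b (l 16546344) (l 16484704))) (b (a (l 16589856) (l 16510720)) (b (a (l 16477064) (l 16438088)) (a (l 16417528) (l 16381256))))) (a (a (b (a (l 16483224) (l 16465120)) (a (b (l 16411336) (l 16355560)) (b (l 16393736) (l 16337712)))) (b (a (l 16454160) (l 16438312)) (a (b (l 16392536) (l 16338768)) (b (l 16381088) (l 16330784))))) (b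 (b (l 16421856) (l 16383104)) (b (l 16526168) (a (l 16302408) (l 16268544)))))) (a (a (b (a (b (l 16391720) (l 16352096)) (b (l 16378056) (l 16339912))) (a (b (l 16304848) (l 16242352)) (b (l 16291624) (l 16224656)))) (b (a (b (l 16367928) (l 16334024)) (l 466037131575)) (a (b (l 16285584) (l 1)) (l 1)))) (a (b (a (l 480532624695) (l 1)) (l 1)) (l 1)))) (a (a (b (a (b (l 16408280) (l 16325472)) (b (a (l 16346624) (l 16311888)) (a (l 16264272) (l 16231448)))) (a (b (a (l 16265720) (l 16224368)) (l 53182827735)) (b (a (l 16184640) (l 16145280)) (b (l 16091240) (l 1))))) (a (b (a (b (a (l 16287568) (l 16270152)) (a (l 16207488) (l 16189952))) (b (a (l 16268224) (l 16257040)) (a (l 16242088) (l 16160024)))) (b (a (a (l 16114480) (l 1)) (l 1)) (l 1))) (b (b (a (l 16227024) (l 147672166343)) (l 1)) (l 1)))) (l 1)))), by decide +kernel⟩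

theorem c_pp_033 : CertB 0 536870912 0 1230186008 649613803 48318383 3 eng mog cd0q0 cd6q3 pd3 false true true .pnn 0 3 3
    ndB0q0 ndB6q3 pcB3 Cut.none Ext.none :=
  certB2 (fam := false) (s1 := true) (s2 := true) (a := 0) (b := 3) (c := 3) (cn := .pnn) (n1 := ndB0q0) (n2 := ndB6q3) (pc := pcB3) (cut := Cut.none) (xt := Ext.none) (P1 := 0) (W1 := 536870912) (P2 := 0) (W2 := 1230186008) (P3 := 649613803) (W3 := 48318383) (N0 := 3) (En := eng) (mo := mog) (C1 := cd0q0) (C2 := cd6q3) (C3 := pd3)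
    rfl (fun _ => rfl) k0_pp_033

noncomputable def f_pp_101 : ℕ → ℕ → ℕ → ℕ → Bool := onCell 536870912 536870912 536870912 536870912 649613803 48318383
    (rowB 3 eng mog cd0q1 cd6q1 pd0 0 false true true .npn 1 0 1 (qsf 536870912 536870912 536870912 536870912 0) ndB0q1 ndB6q1 pcB0 Cut.none Ext.none)

def k0_pp_101 : ∃ t, chk3 f_pp_101 t 1 1 1 = true :=
  ⟨(a (l 3) (l 5)), by decide +kernel⟩

theorem c_pp_101 : CertB 536870912 536870912 536870912 536870912 649613803 48318383 3 eng mog cd0q1 cd6q1 pd0 false true true .npn 1 0 1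
    ndB0q1 ndB6q1 pcB0 Cut.none Ext.none :=
  certB0 (fam := false) (s1 := true) (s2 := true) (a := 1) (b := 0) (c := 1) (cn := .npn) (n1 := ndB0q1) (n2 := ndB6q1) (pc := pcB0) (cut := Cut.none) (xt := Ext.none) (P1 := 536870912) (W1 := 536870912) (P2 := 536870912) (W2 := 536870912) (P3 := 649613803) (W3 := 48318383) (N0 := 3) (En := eng) (mo := mog) (C1 := cd0q1) (C2 := cd6q1) (C3 := pd0)
    rfl k0_pp_101

noncomputable def f_pp_102 : ℕ → ℕ → ℕ → ℕ → Bool := onCell 536870912 536870912 1073741824 536870912 649613803 48318383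
    (rowB 3 eng mog cd0q1 cd6q2 pd0 0 false true true .npp 1 0 2 (qsf 536870912 536870912 1073741824 536870912 0) ndB0q1 ndB6q2 pcB0 Cut.none Ext.none)

def k0_pp_102 : ∃ t, chk3 f_pp_102 t 1 1 1 = true :=
  ⟨(l 3), by decide +kernel⟩

theorem c_pp_102 : CertB 536870912 536870912 1073741824 536870912 649613803 48318383 3 eng mog cd0q1 cd6q2 pd0 false true true .npp 1 0 2
    ndB0q1 ndB6q2 pcB0 Cut.none Ext.none :=
  certB0 (fam := false) (s1 := true) (s2 := true) (a := 1) (b := 0) (c := 2) (cn := .npp) (n1 := ndB0q1) (n2 := ndB6q2) (pc := pcB0) (cut := Cut.none) (xt := Ext.none) (P1 := 536870912) (W1 := 536870912) (P2 := 1073741824) (W2 := 536870912) (P3 := 649613803) (W3 := 48318383) (N0 := 3) (En := eng) (mo := mog) (C1 := cd0q1) (C2 := cd6q2) (C3 := pd0)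
    rfl k0_pp_102

noncomputable def f_pp_112 : ℕ → ℕ → ℕ → ℕ → Bool := onCell 536870912 536870912 1073741824 536870912 649613803 48318383
    (rowB 3 eng mog cd0q1 cd6q2 pd1 0 false true true .dn 1 1 2 (qsf 536870912 536870912 1073741824 536870912 1) ndB0q1 ndB6q2 pcB1 Cut.none Ext.none)

def k0_pp_112 : ∃ t, chk3 f_pp_112 t 1 1 1 = true :=
  ⟨(l 3), by decide +kernel⟩

theorem c_pp_112 : CertB 536870912 536870912 1073741824 536870912 649613803 48318383 3 eng mog cd0q1 cd6q2 pd1 false true true .dn 1 1 2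
    ndB0q1 ndB6q2 pcB1 Cut.none Ext.none :=
  certB0 (fam := false) (s1 := true) (s2 := true) (a := 1) (b := 1) (c := 2) (cn := .dn) (n1 := ndB0q1) (n2 := ndB6q2) (pc := pcB1) (cut := Cut.none) (xt := Ext.none) (P1 := 536870912) (W1 := 536870912) (P2 := 1073741824) (W2 := 536870912) (P3 := 649613803) (W3 := 48318383) (N0 := 3) (En := eng) (mo := mog) (C1 := cd0q1) (C2 := cd6q2) (C3 := pd1)
    rfl k0_pp_112

noncomputable def cut_pp_113 : Cut := Cut.of [[⟨0, 1, 0, 67108864⟩, ⟨1, 1, 0, 67108864⟩, ⟨2, 2, 0, 16777216⟩]]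

noncomputable def f_pp_113 : ℕ → ℕ → ℕ → ℕ → Bool := onCell 536870912 536870912 0 1230186008 649613803 48318383
    (rowB 3 eng mog cd0q1 cd6q3 pd1 2 false true true .nn 1 1 3 (qsf 536870912 536870912 0 1230186008 1) ndB0q1 ndB6q3 pcB1 cut_pp_113 Ext.none)

def k0_pp_113 : ∃ t, chk3 f_pp_113 t 1 1 1 = true :=
  ⟨(b (a (l 2) (a (l 2) (b (a (l 2) (a (l 2) (b (l 6) (l 3)))) (l 3)))) (b (a (l 3) (l 3)) (a (a (b (l 2) (l 3)) (l 3)) (l 3)))), by decide +kernel⟩

theorem c_pp_113 : CertB 536870912 536870912 0 1230186008 649613803 48318383 3 eng mog cd0q1 cd6q3 pd1 false true true .nn 1 1 3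
    ndB0q1 ndB6q3 pcB1 cut_pp_113 Ext.none :=
  certB2 (fam := false) (s1 := true) (s2 := true) (a := 1) (b := 1) (c := 3) (cn := .nn) (n1 := ndB0q1) (n2 := ndB6q3) (pc := pcB1) (cut := cut_pp_113) (xt := Ext.none) (P1 := 536870912) (W1 := 536870912) (P2 := 0) (W2 := 1230186008) (P3 := 649613803) (W3 := 48318383) (N0 := 3) (En := eng) (mo := mog) (C1 := cd0q1) (C2 := cd6q3) (C3 := pd1)
    rfl (fun _ => rfl) k0_pp_113

noncomputable def cut_pp_123 : Cut := Cut.of [[⟨0, 1, 0, 67108864⟩, ⟨1, 1, 0, 67108864⟩, ⟨2, 2, 0, 16777216⟩]]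

noncomputable def f_pp_123 : ℕ → ℕ → ℕ → ℕ → Bool := onCell 1073741824 536870912 0 1230186008 649613803 48318383
    (rowB 3 eng mog cd0q1 cd6q3 pd2 2 false true true .npn 1 2 3 (qsf 536870912 536870912 0 1230186008 2) ndB0q1 ndB6q3 pcB2 cut_pp_123 Ext.none)

def k0_pp_123 : ∃ t, chk3 f_pp_123 t 8 4 1 = true :=
  ⟨(a (b (l 6) (b (l 6) (l 3))) (b (a (l 6) (l 16753120)) (a (b (l 6) (a (b (a (b (a (b (l 418927098903) (l 3)) (a (a (l 355576338519) (b (l 316921644727) (l 417853364999))) (b (l 16788872) (l 308868555751)))) (l 3)) (b (a (b (l 16788504) (a (l 244444078503) (l 16789440))) (b (l 16788440) (l 16789640))) (a (b (c (l 306721106039) (a (l 418390245351) (l 259476461399))) (l 404431595831)) (a (b (l 16790472) (l 316384784023)) (l 16790896))))) (a (l 3) (b (a (l 3) (b (l 380809279287) (l 408726566823))) (l 3)))) (b (a (b (l 16787344) (a (b (l 16790536) (l 16791072)) (l 16790176))) (l 16807128)) (a (b (a (b (l 16802968) (a (l 358797557719) (l 16793880)))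 (b (l 16792272) (l 16792968))) (a (l 391009815095) (b (c (l 16794224) (l 306184248503)) (l 355576334503)))) (b (a (l 16792496) (l 16791544)) (a (a (l 16794544) (l 16794056)) (l 16810544))))))) (b (l 16790344) (a (b (l 16782936) (a (b (l 16790040) (l 16792304)) (l 16789192))) (l 16800728)))))), by decide +kernel⟩

def k1_pp_123 : ∃ t, chk3 f_pp_123 t 8 5 1 = true :=
  ⟨(a (l 3) (b (a (b (a (l 3) (b (a (b (a (l 3) (l 388862330887)) (l 3)) (b (a (a (l 315847931463) (b (l 16796432) (l 349133894055))) (b (l 16795448) (c (l 16796600) (l 16808328)))) (c (l 344302072807) (a (l 407115966791) (l 357186975399))))) (l 3))) (l 3)) (b (a (b (a (b (a (l 16795416) (l 16795344)) (a (a (b (l 16797632) (l 16799192)) (l 16797816)) (l 16796960))) (b (l 16792616) (a (l 16796880) (l 16795736)))) (a (b (a (b (l 319606003127) (l 341080852823)) (b (l 16799136) (a (l 16800552) (l 16800064)))) (a (l 3) (b (l 322827237799) (l 3)))) (b (a (l 16798432) (l 16798016)) (a (b (c (l 16800088)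 (l 291151869223)) (l 276119480375)) (l 16804968))))) (b (a (l 16790360) (l 16789872)) (a (a (b (l 16797096) (l 16798984)) (l 16817312)) (l 16794088)))) (a (b (a (l 3) (b (a (b (l 307257992567) (l 3)) (a (l 293836223223) (b (l 16801296) (l 16802304)))) (a (l 3) (b (l 310479215591) (l 3))))) (l 3)) (b (a (b (b (l 16799296) (a (a (l 16801624) (l 16800936)) (l 16799536))) (a (b (l 306721133271) (c (l 326048487175) (l 346449587399))) (a (b (l 16801184) (l 16802064)) (b (l 16800352) (l 16801312))))) (b (a (l 16798880) (l 16798184)) (a (b (l 16799824) (l 16779048)) (l 16799456)))) (a (b (a (a (l 3) (b (l 16804424) (l 3))) (b (l 305110526839) (l 348060199047))) (l 3)) (b (a (a (b (l 16801456) (l 16802176)) (b (l 16800768) (l 16801480))) (b (l 16800168) (l 16794952))) (a (b (l 359871364839) (l 366850680967)) (a (l 315311080199) (a (l 16801200) (l 16800880)))))))))) (a (l 3) (b (a (l 3) (b (a (l 3) (a (l 3) (b (c (l 349133947335) (l 366313767623)) (l 3)))) (l 3)))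 (l 3))))), by decide +kernel⟩

def k2_pp_123 : ∃ t, chk3 f_pp_123 t 9 4 1 = true :=
  ⟨(a (b (l 16734488) (a (b (l 16756992) (l 16769760)) (b (l 16742136) (l 16754928)))) (b (l 16703200) (l 16723080))), by decide +kernel⟩

def k3_pp_123 : ∃ t, chk3 f_pp_123 t 18 10 1 = true :=
  ⟨(a (b (a (b (l 16784136) (l 16791336)) (l 16780144)) (a (b (a (l 16806792) (l 16794600)) (a (b (l 16799400) (a (b (l 16799400) (c (l 16799456) (l 16779616))) (l 16799176))) (b (l 16796952) (l 16798000)))) (b (l 16788896) (a (b (l 16793808) (l 16794864)) (l 16790664))))) (b (l 16810272) (a (l 16718656) (l 16770864)))), by decide +kernel⟩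

def k4_pp_123 : ∃ t, chk3 f_pp_123 t 36 11 1 = true :=
  ⟨(b (a (b (a (b (a (a (l 340007143191) (a (l 16800320) (l 16800104))) (b (l 16798624) (c (l 16798696) (l 16784000)))) (a (b (l 357723884199) (l 379735579591)) (a (l 367924429399) (a (l 16798896) (l 16798568))))) (b (l 16797672) (a (b (l 16797752) (l 16797672)) (l 16795720)))) (a (b (a (l 3) (b (c (l 380272452599) (l 405505358823)) (l 3))) (l 3)) (b (a (a (a (l 16797832) (l 16797264)) (a (l 16796776) (l 16796360))) (b (l 16795696) (l 16795232))) (a (a (l 3) (a (l 426443315063) (l 414095282519))) (b (l 16794472) (l 316921659335)))))) (b (a (b (l 16795480) (l 16794976)) (b (l 16791904) (l 16791808))) (a (b (a (b (l 16794384) (l 16793488)) (l 16792744)) (a (b (l 16792872) (l 16792080)) (b (l 16791376) (l 16790352)))) (b (l 16791120) (l 16789032))))) (a (b (a (l 3) (b (a (l 3) (b (l 439328211575) (l 3))) (l 3))) (l 3)) (b (a (b (a (b (l 293299331095) (l 331417152151)) (b (l 16789664) (l 16788720))) (a (b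 (l 443086301431) (l 3)) (b (c (l 16788232) (l 304036740727)) (c (l 403894719111) (a (l 449528747383) (l 395304782359)))))) (b (a (b (l 16787992) (l 16787000)) (l 16786240)) (a (b (l 16786216) (l 16785248)) (b (l 16784408) (l 16783488))))) (a (b (l 3) (l 3)) (b (a (b (c (l 308868571319) (a (l 391009811495) (l 16783808))) (a (l 3) (b (l 323900949959) (l 409800289847)))) (b (c (l 16783024) (l 16782496)) (c (l 16782200) (a (l 275045693559) (l 16781048))))) (a (l 3) (b (c (l 315311015351) (a (b (l 337322713287) (l 409800285975)) (l 278266915767))) (c (l 399062867511) (a (l 3) (b (l 347523257063) (l 408189669719))))))))))), by decide +kernel⟩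

def k5_pp_123 : ∃ t, chk3 f_pp_123 t 37 11 1 = true :=
  ⟨(b (a (b (l 16785472) (a (b (l 16787272) (l 16786480)) (l 16782912))) (b (l 16776376) (l 16776592))) (a (b (a (b (l 16784688) (l 16782112)) (b (l 16781752) (l 16780376))) (a (b (a (b (l 16780744) (c (l 16780376) (l 16779688))) (b (l 16779648) (l 16778344))) (a (b (l 16784152) (c (l 16778792) (a (b (l 16778568) (l 295446779687)) (l 16777400)))) (b (l 16787560) (a (l 16776640) (l 16775688))))) (b (l 16778000) (a (b (l 16776408) (l 16775048)) (l 16775264))))) (b (a (l 16777384) (l 16773480)) (a (b (l 16775904) (l 16774144)) (l 16771736))))), by decide +kernel⟩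

def k6_pp_123 : ∃ t, chk3 f_pp_123 t 19 5 1 = true :=
  ⟨(b (a (b (l 16746144) (l 16649464)) (b (l 16726840) (l 16713408))) (a (b (a (l 16703112) (l 16755216)) (a (b (l 16767488) (l 16766488)) (l 16842872))) (b (l 16718896) (a (l 16750472) (l 16741640))))), by decide +kernel⟩

def k7_pp_123 : ∃ t, chk3 f_pp_123 t 5 2 1 = true :=
  ⟨(b (a (a (a (b (l 16674624) (l 16696856)) (a (l 16878800) (b (l 16650624) (l 16783560)))) (b (l 16627120) (l 16658296))) (b (l 16638792) (l 16666048))) (a (a (a (b (b (l 16709120) (l 16717008)) (b (l 16786832) (l 16710184))) (b (a (l 16700784) (b (l 16694816) (l 16558016))) (a (b (l 16715328) (l 16723848)) (b (l 16527592) (a (l 16723400) (a (l 16725432) (l 16728528))))))) (b (a (l 16687240) (l 16676912)) (b (l 16701576) (l 16677112)))) (b (a (l 16672392) (l 16670512)) (a (l 16510064) (l 16694712))))), by decide +kernel⟩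

def k8_pp_123 : ∃ t, chk3 f_pp_123 t 3 2 1 = true :=
  ⟨(a (b (a (b (l 16635096) (l 16844568)) (l 16883864)) (a (b (a (l 16673176) (l 16679544)) (l 16691304)) (a (l 16686408) (l 16693352)))) (b (a (l 16738464) (l 16693288)) (a (b (l 16710544) (l 16706568)) (b (l 16717696) (l 16727568))))), by decide +kernel⟩

def k9_pp_123 : ∃ t, chk3 f_pp_123 t 4 6 1 = true :=
  ⟨(a (l 3) (a (b (a (b (l 3) (l 3)) (a (b (a (b (a (b (b (c (l 323364063175) (a (b (l 358260671815) (l 417853342711)) (l 278266908663))) (c (l 393694151815) (a (l 3) (l 386714826695)))) (l 3)) (b (b (l 16775448) (c (l 259476428791) (a (l 263771390887) (l 16773976)))) (b (a (a (l 3) (l 375440538647)) (l 16773608)) (l 408726528951)))) (l 3)) (b (a (b (b (l 16784512) (c (l 16774000) (l 16773000))) (a (l 16772296) (l 16771544))) (b (b (l 16773528) (l 16772304)) (b (l 16771328) (l 16770320)))) (a (b (a (l 421611433943) (l 16769976)) (l 3)) (a (b (l 16769128) (l 16768168)) (b (l 16768536) (l 16767224))))))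 (l 3)) (b (b (a (b (l 16772128) (a (l 16770024) (l 16769648))) (l 16769568)) (a (a (b (b (l 16768472) (l 16767528)) (l 16766776)) (b (l 16767296) (l 16765808))) (b (l 16766720) (l 16764416)))) (a (b (b (l 467245491575) (l 466171750679)) (l 3)) (b (a (l 98415203639) (l 16763480)) (l 16786112)))))) (l 3)) (b (a (a (b (b (a (l 16766816) (l 16763888)) (a (l 16764880) (l 16762904))) (b (a (l 16804488) (l 16762512)) (a (l 16816328) (b (l 16762920) (l 16763488))))) (b (b (l 16759888) (l 16821280)) (b (a (l 16761312) (l 16759672)) (a (l 16763464) (l 16762832))))) (b (a (l 16733784) (l 16749800)) (a (b (l 16757688) (l 16739904)) (l 16757616)))) (a (b (a (b (a (l 16767648) (l 16745728)) (a (l 3) (l 16769824))) (a (b (l 16766392) (l 16768752)) (b (l 16766640) (l 16767656)))) (a (l 3) (b (a (l 16767888) (l 16766352)) (l 16763960)))) (b (a (b (l 16764680) (l 16765624)) (b (l 16762240) (l 16761704))) (a (b (a (l 16764240) (l 16762352)) (b (l 16760120) (l 16756512))) (b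 (l 16757816) (l 16751200)))))))), by decide +kernel⟩

def k10_pp_123 : ∃ t, chk3 f_pp_123 t 5 6 1 = true :=
  ⟨(a (a (a (b (b (l 16700280) (a (l 16755392) (l 16750776))) (b (a (l 16759808) (l 16756864)) (a (b (l 16752360) (l 16744184)) (l 16744176)))) (a (b (l 16782320) (b (l 16751856) (l 16739448))) (a (b (l 16738832) (b (l 16746600) (l 16734808))) (a (b (l 16740320) (l 16677584)) (b (a (l 16869544) (l 16660264)) (l 16804488)))))) (b (b (l 16734136) (l 16742104)) (b (l 16736672) (l 16718704)))) (b (a (l 16723912) (l 16710752)) (b (l 16706840) (l 16583008)))), by decide +kernel⟩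

def k11_pp_123 : ∃ t, chk3 f_pp_123 t 3 6 1 = true :=
  ⟨(a (b (a (l 16694392) (l 16686744)) (a (b (l 16685320) (l 16669896)) (a (l 242162634455) (l 1)))) (b (a (l 16715168) (l 1)) (l 1))), by decide +kernel⟩

def k12_pp_123 : ∃ t, chk3 f_pp_123 t 1 7 1 = true :=
  ⟨(a (a (a (l 3) (a (l 3) (b (a (b (l 3) (l 3)) (b (a (b (l 37748654295) (l 16731400)) (a (b (l 16742384) (l 16725248)) (l 16729888))) (a (b (l 3) (l 3)) (b (a (l 16699256) (l 16694840)) (l 16666632))))) (b (a (l 3) (b (a (l 3) (l 16640144)) (l 1))) (l 1))))) (a (a (a (b (b (a (b (l 16731224) (l 16712776)) (b (l 16723824) (l 16703320))) (a (a (b (l 16689704) (l 16660296)) (b (l 16684064) (l 16655184))) (a (l 16662640) (l 16657280)))) (b (a (b (a (l 16634112) (l 16630024)) (l 1)) (l 1)) (l 1))) (b (a (b (l 16707952) (a (l 16652440) (l 16647792))) (b (a (l 16704584) (a (l 16703304) (l 16702944))) (a (l 16644888) (a (l 16645840) (b (l 16664776) (l 16630296)))))) (l 1))) (b (b (l 16686640) (b (l 16650240)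 (l 16619616))) (l 1))) (b (b (a (l 16665328) (l 16660272)) (l 1)) (l 1)))) (l 1)), by decide +kernel⟩

theorem s13_pp_123 : ∃ t, chk3 f_pp_123 t 2 6 1 = true := ex3_a k9_pp_123 k10_pp_123

theorem s14_pp_123 : ∃ t, chk3 f_pp_123 t 1 6 1 = true := ex3_a s13_pp_123 k11_pp_123

theorem s15_pp_123 : ∃ t, chk3 f_pp_123 t 1 3 1 = true := ex3_b s14_pp_123 k12_pp_123

theorem s16_pp_123 : ∃ t, chk3 f_pp_123 t 18 11 1 = true := ex3_a k4_pp_123 k5_pp_123

theorem s17_pp_123 : ∃ t, chk3 f_pp_123 t 18 5 1 = true := ex3_b k3_pp_123 s16_pp_123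

theorem s18_pp_123 : ∃ t, chk3 f_pp_123 t 9 5 1 = true := ex3_a s17_pp_123 k6_pp_123

theorem s19_pp_123 : ∃ t, chk3 f_pp_123 t 9 2 1 = true := ex3_b k2_pp_123 s18_pp_123

theorem s20_pp_123 : ∃ t, chk3 f_pp_123 t 8 2 1 = true := ex3_b k0_pp_123 k1_pp_123

theorem s21_pp_123 : ∃ t, chk3 f_pp_123 t 4 2 1 = true := ex3_a s20_pp_123 s19_pp_123

theorem s22_pp_123 : ∃ t, chk3 f_pp_123 t 2 2 1 = true := ex3_a s21_pp_123 k7_pp_123

theorem s23_pp_123 : ∃ t, chk3 f_pp_123 t 1 2 1 = true := ex3_a s22_pp_123 k8_pp_123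

theorem s24_pp_123 : ∃ t, chk3 f_pp_123 t 1 1 1 = true := ex3_b s23_pp_123 s15_pp_123

theorem c_pp_123 : CertB 536870912 536870912 0 1230186008 649613803 48318383 3 eng mog cd0q1 cd6q3 pd2 false true true .npn 1 2 3
    ndB0q1 ndB6q3 pcB2 cut_pp_123 Ext.none :=
  certB2 (fam := false) (s1 := true) (s2 := true) (a := 1) (b := 2) (c := 3) (cn := .npn) (n1 := ndB0q1) (n2 := ndB6q3) (pc := pcB2) (cut := cut_pp_123) (xt := Ext.none) (P1 := 536870912) (W1 := 536870912) (P2 := 0) (W2 := 1230186008) (P3 := 649613803) (W3 := 48318383) (N0 := 3) (En := eng) (mo := mog) (C1 := cd0q1) (C2 := cd6q3) (C3 := pd2)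
    rfl (fun _ => rfl) s24_pp_123

noncomputable def f_pp_133 : ℕ → ℕ → ℕ → ℕ → Bool := onCell 536870912 536870912 0 1230186008 649613803 48318383
    (rowB 3 eng mog cd0q1 cd6q3 pd3 0 false true true .dn 1 3 3 (qsf 536870912 536870912 0 1230186008 3) ndB0q1 ndB6q3 pcB3 Cut.none Ext.none)

def k0_pp_133 : ∃ t, chk3 f_pp_133 t 1 1 1 = true :=
  ⟨(b (b (a (a (l 1020625548935) (l 1)) (l 1)) (l 1)) (l 1)), by decide +kernel⟩

theorem c_pp_133 : CertB 536870912 536870912 0 1230186008 649613803 48318383 3 eng mog cd0q1 cd6q3 pd3 false true true .dn 1 3 3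
    ndB0q1 ndB6q3 pcB3 Cut.none Ext.none :=
  certB0 (fam := false) (s1 := true) (s2 := true) (a := 1) (b := 3) (c := 3) (cn := .dn) (n1 := ndB0q1) (n2 := ndB6q3) (pc := pcB3) (cut := Cut.none) (xt := Ext.none) (P1 := 536870912) (W1 := 536870912) (P2 := 0) (W2 := 1230186008) (P3 := 649613803) (W3 := 48318383) (N0 := 3) (En := eng) (mo := mog) (C1 := cd0q1) (C2 := cd6q3) (C3 := pd3)
    rfl k0_pp_133

noncomputable def f_pp_202 : ℕ → ℕ → ℕ → ℕ → Bool := onCell 0 536870912 1073741824 536870912 649613803 48318383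
    (rowB 3 eng mog cd0q2 cd6q2 pd0 0 false true true .pp 2 0 2 (qsf 0 536870912 1073741824 536870912 0) ndB0q2 ndB6q2 pcB0 Cut.none Ext.none)

def k0_pp_202 : ∃ t, chk3 f_pp_202 t 1 1 1 = true :=
  ⟨(a (l 5) (l 3)), by decide +kernel⟩

theorem c_pp_202 : CertB 0 536870912 1073741824 536870912 649613803 48318383 3 eng mog cd0q2 cd6q2 pd0 false true true .pp 2 0 2
    ndB0q2 ndB6q2 pcB0 Cut.none Ext.none :=
  certB0 (fam := false) (s1 := true) (s2 := true) (a := 2) (b := 0) (c := 2) (cn := .pp) (n1 := ndB0q2) (n2 := ndB6q2) (pc := pcB0) (cut := Cut.none) (xt := Ext.none) (P1 := 0) (W1 := 536870912) (P2 := 1073741824) (W2 := 536870912) (P3 := 649613803) (W3 := 48318383) (N0 := 3) (En := eng) (mo := mog) (C1 := cd0q2) (C2 := cd6q2) (C3 := pd0)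
    rfl k0_pp_202

noncomputable def f_pp_203 : ℕ → ℕ → ℕ → ℕ → Bool := onCell 0 536870912 0 1230186008 649613803 48318383
    (rowB 3 eng mog cd0q2 cd6q3 pd0 0 false true true .up 2 0 3 (qsf 0 536870912 0 1230186008 0) ndB0q2 ndB6q3 pcB0 Cut.none Ext.none)

def k0_pp_203 : ∃ t, chk3 f_pp_203 t 1 1 1 = true :=
  ⟨(b (l 2) (l 3)), by decide +kernel⟩

theorem c_pp_203 : CertB 0 536870912 0 1230186008 649613803 48318383 3 eng mog cd0q2 cd6q3 pd0 false true true .up 2 0 3
    ndB0q2 ndB6q3 pcB0 Cut.none Ext.none :=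
  certB0 (fam := false) (s1 := true) (s2 := true) (a := 2) (b := 0) (c := 3) (cn := .up) (n1 := ndB0q2) (n2 := ndB6q3) (pc := pcB0) (cut := Cut.none) (xt := Ext.none) (P1 := 0) (W1 := 536870912) (P2 := 0) (W2 := 1230186008) (P3 := 649613803) (W3 := 48318383) (N0 := 3) (En := eng) (mo := mog) (C1 := cd0q2) (C2 := cd6q3) (C3 := pd0)
    rfl k0_pp_203

noncomputable def cut_pp_213 : Cut := Cut.of [[⟨0, 1, 0, 67108864⟩, ⟨1, 1, 0, 67108864⟩, ⟨2, 2, 0, 16777216⟩]]

noncomputable def f_pp_213 : ℕ → ℕ → ℕ → ℕ → Bool := onCell 0 536870912 0 1230186008 649613803 48318383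
    (rowB 3 eng mog cd0q2 cd6q3 pd1 0 false true true .pnn 2 1 3 (qsf 0 536870912 0 1230186008 1) ndB0q2 ndB6q3 pcB1 cut_pp_213 Ext.none)

def k0_pp_213 : ∃ t, chk3 f_pp_213 t 1 1 1 = true :=
  ⟨(b (a (l 3) (b (a (l 3) (a (l 3) (b (l 6) (l 3)))) (l 3))) (l 3)), by decide +kernel⟩

theorem c_pp_213 : CertB 0 536870912 0 1230186008 649613803 48318383 3 eng mog cd0q2 cd6q3 pd1 false true true .pnn 2 1 3
    ndB0q2 ndB6q3 pcB1 cut_pp_213 Ext.none :=
  certB0 (fam := false) (s1 := true) (s2 := true) (a := 2) (b := 1) (c := 3) (cn := .pnn) (n1 := ndB0q2) (n2 := ndB6q3) (pc := pcB1) (cut := cut_pp_213) (xt := Ext.none) (P1 := 0) (W1 := 536870912) (P2 := 0) (W2 := 1230186008) (P3 := 649613803) (W3 := 48318383) (N0 := 3) (En := eng) (mo := mog) (C1 := cd0q2) (C2 := cd6q3) (C3 := pd1)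
    rfl k0_pp_213

noncomputable def f_pm_001 : ℕ → ℕ → ℕ → ℕ → Bool := onCell 0 536870912 536870912 536870912 649613803 48318383
    (rowB 3 eng mog cd0q0 cd6q1 pd0 0 false true false .up 0 0 1 (qsf 0 536870912 536870912 536870912 0) ndB0q0 ndB6q1 pcB0 Cut.none Ext.none)

def k0_pm_001 : ∃ t, chk3 f_pm_001 t 1 1 1 = true :=
  ⟨(l 4), by decide +kernel⟩

theorem c_pm_001 : CertB 0 536870912 536870912 536870912 649613803 48318383 3 eng mog cd0q0 cd6q1 pd0 false true false .up 0 0 1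
    ndB0q0 ndB6q1 pcB0 Cut.none Ext.none :=
  certB0 (fam := false) (s1 := true) (s2 := false) (a := 0) (b := 0) (c := 1) (cn := .up) (n1 := ndB0q0) (n2 := ndB6q1) (pc := pcB0) (cut := Cut.none) (xt := Ext.none) (P1 := 0) (W1 := 536870912) (P2 := 536870912) (W2 := 536870912) (P3 := 649613803) (W3 := 48318383) (N0 := 3) (En := eng) (mo := mog) (C1 := cd0q0) (C2 := cd6q1) (C3 := pd0)
    rfl k0_pm_001

noncomputable def f_pm_011 : ℕ → ℕ → ℕ → ℕ → Bool := onCell 0 536870912 536870912 536870912 649613803 48318383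
    (rowB 3 eng mog cd0q0 cd6q1 pd1 0 false true false .pnn 0 1 1 (qsf 0 536870912 536870912 536870912 1) ndB0q0 ndB6q1 pcB1 Cut.none Ext.none)

def k0_pm_011 : ∃ t, chk3 f_pm_011 t 1 1 1 = true :=
  ⟨(l 4), by decide +kernel⟩

theorem c_pm_011 : CertB 0 536870912 536870912 536870912 649613803 48318383 3 eng mog cd0q0 cd6q1 pd1 false true false .pnn 0 1 1
    ndB0q0 ndB6q1 pcB1 Cut.none Ext.none :=
  certB0 (fam := false) (s1 := true) (s2 := false) (a := 0) (b := 1) (c := 1) (cn := .pnn) (n1 := ndB0q0) (n2 := ndB6q1) (pc := pcB1) (cut := Cut.none) (xt := Ext.none) (P1 := 0) (W1 := 536870912) (P2 := 536870912) (W2 := 536870912) (P3 := 649613803) (W3 := 48318383) (N0 := 3) (En := eng) (mo := mog) (C1 := cd0q0) (C2 := cd6q1) (C3 := pd1)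
    rfl k0_pm_011

noncomputable def f_pm_012 : ℕ → ℕ → ℕ → ℕ → Bool := onCell 0 536870912 1073741824 536870912 649613803 48318383
    (rowB 3 eng mog cd0q0 cd6q2 pd1 0 false true false .pnp 0 1 2 (qsf 0 536870912 1073741824 536870912 1) ndB0q0 ndB6q2 pcB1 Cut.none Ext.none)

def k0_pm_012 : ∃ t, chk3 f_pm_012 t 1 1 1 = true :=
  ⟨(l 4), by decide +kernel⟩

theorem c_pm_012 : CertB 0 536870912 1073741824 536870912 649613803 48318383 3 eng mog cd0q0 cd6q2 pd1 false true false .pnp 0 1 2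
    ndB0q0 ndB6q2 pcB1 Cut.none Ext.none :=
  certB0 (fam := false) (s1 := true) (s2 := false) (a := 0) (b := 1) (c := 2) (cn := .pnp) (n1 := ndB0q0) (n2 := ndB6q2) (pc := pcB1) (cut := Cut.none) (xt := Ext.none) (P1 := 0) (W1 := 536870912) (P2 := 1073741824) (W2 := 536870912) (P3 := 649613803) (W3 := 48318383) (N0 := 3) (En := eng) (mo := mog) (C1 := cd0q0) (C2 := cd6q2) (C3 := pd1)
    rfl k0_pm_012

noncomputable def f_pm_022 : ℕ → ℕ → ℕ → ℕ → Bool := onCell 0 536870912 1073741824 536870912 649613803 48318383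
    (rowB 3 eng mog cd0q0 cd6q2 pd2 0 false true false .pp 0 2 2 (qsf 0 536870912 1073741824 536870912 2) ndB0q0 ndB6q2 pcB2 Cut.none Ext.none)

def k0_pm_022 : ∃ t, chk3 f_pm_022 t 1 1 1 = true :=
  ⟨(l 4), by decide +kernel⟩

theorem c_pm_022 : CertB 0 536870912 1073741824 536870912 649613803 48318383 3 eng mog cd0q0 cd6q2 pd2 false true false .pp 0 2 2
    ndB0q0 ndB6q2 pcB2 Cut.none Ext.none :=
  certB0 (fam := false) (s1 := true) (s2 := false) (a := 0) (b := 2) (c := 2) (cn := .pp) (n1 := ndB0q0) (n2 := ndB6q2) (pc := pcB2) (cut := Cut.none) (xt := Ext.none) (P1 := 0) (W1 := 536870912) (P2 := 1073741824) (W2 := 536870912) (P3 := 649613803) (W3 := 48318383) (N0 := 3) (En := eng) (mo := mog) (C1 := cd0q0) (C2 := cd6q2) (C3 := pd2)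
    rfl k0_pm_022

noncomputable def f_pm_023 : ℕ → ℕ → ℕ → ℕ → Bool := onCell 0 536870912 0 1230186008 649613803 48318383
    (rowB 3 eng mog cd0q0 cd6q3 pd2 0 false true false .up 0 2 3 (qsf 0 536870912 0 1230186008 2) ndB0q0 ndB6q3 pcB2 Cut.none Ext.none)

def k0_pm_023 : ∃ t, chk3 f_pm_023 t 1 1 1 = true :=
  ⟨(a (b (l 2) (l 4)) (b (a (l 2) (b (a (l 2) (b (l 16650472) (l 16622136))) (a (b (l 157001293415) (l 4)) (b (a (l 16582232) (l 16583904)) (b (l 16713200) (l 179012868439)))))) (b (a (l 4) (b (l 4) (l 4))) (l 4)))), by decide +kernel⟩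

theorem c_pm_023 : CertB 0 536870912 0 1230186008 649613803 48318383 3 eng mog cd0q0 cd6q3 pd2 false true false .up 0 2 3
    ndB0q0 ndB6q3 pcB2 Cut.none Ext.none :=
  certB0 (fam := false) (s1 := true) (s2 := false) (a := 0) (b := 2) (c := 3) (cn := .up) (n1 := ndB0q0) (n2 := ndB6q3) (pc := pcB2) (cut := Cut.none) (xt := Ext.none) (P1 := 0) (W1 := 536870912) (P2 := 0) (W2 := 1230186008) (P3 := 649613803) (W3 := 48318383) (N0 := 3) (En := eng) (mo := mog) (C1 := cd0q0) (C2 := cd6q3) (C3 := pd2)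
    rfl k0_pm_023

noncomputable def f_pm_033 : ℕ → ℕ → ℕ → ℕ → Bool := onCell 1610612736 536870912 0 1230186008 649613803 48318383
    (rowB 3 eng mog cd0q0 cd6q3 pd3 2 false true false .pnn 0 3 3 (qsf 0 536870912 0 1230186008 3) ndB0q0 ndB6q3 pcB3 Cut.none Ext.none)

def k0_pm_033 : ∃ t, chk3 f_pm_033 t 1 1 1 = true :=
  ⟨(b (a (a (b (a (l 16631296) (l 16795408)) (a (l 16641416) (l 4))) (b (a (l 16580400) (l 4)) (l 4))) (l 4)) (l 4)), by decide +kernel⟩

theorem c_pm_033 : CertB 0 536870912 0 1230186008 649613803 48318383 3 eng mog cd0q0 cd6q3 pd3 false true false .pnn 0 3 3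
    ndB0q0 ndB6q3 pcB3 Cut.none Ext.none :=
  certB2 (fam := false) (s1 := true) (s2 := false) (a := 0) (b := 3) (c := 3) (cn := .pnn) (n1 := ndB0q0) (n2 := ndB6q3) (pc := pcB3) (cut := Cut.none) (xt := Ext.none) (P1 := 0) (W1 := 536870912) (P2 := 0) (W2 := 1230186008) (P3 := 649613803) (W3 := 48318383) (N0 := 3) (En := eng) (mo := mog) (C1 := cd0q0) (C2 := cd6q3) (C3 := pd3)
    rfl (fun _ => rfl) k0_pm_033

noncomputable def f_pm_101 : ℕ → ℕ → ℕ → ℕ → Bool := onCell 536870912 536870912 536870912 536870912 649613803 48318383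
    (rowB 3 eng mog cd0q1 cd6q1 pd0 0 false true false .npn 1 0 1 (qsf 536870912 536870912 536870912 536870912 0) ndB0q1 ndB6q1 pcB0 Cut.none Ext.none)

def k0_pm_101 : ∃ t, chk3 f_pm_101 t 1 1 1 = true :=
  ⟨(l 4), by decide +kernel⟩

theorem c_pm_101 : CertB 536870912 536870912 536870912 536870912 649613803 48318383 3 eng mog cd0q1 cd6q1 pd0 false true false .npn 1 0 1
    ndB0q1 ndB6q1 pcB0 Cut.none Ext.none :=
  certB0 (fam := false) (s1 := true) (s2 := false) (a := 1) (b := 0) (c := 1) (cn := .npn) (n1 := ndB0q1) (n2 := ndB6q1) (pc := pcB0) (cut := Cut.none) (xt := Ext.none) (P1 := 536870912) (W1 := 536870912) (P2 := 536870912) (W2 := 536870912) (P3 := 649613803) (W3 := 48318383) (N0 := 3) (En := eng) (mo := mog) (C1 := cd0q1) (C2 := cd6q1) (C3 := pd0)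
    rfl k0_pm_101

noncomputable def f_pm_102 : ℕ → ℕ → ℕ → ℕ → Bool := onCell 536870912 536870912 1073741824 536870912 649613803 48318383
    (rowB 3 eng mog cd0q1 cd6q2 pd0 0 false true false .npp 1 0 2 (qsf 536870912 536870912 1073741824 536870912 0) ndB0q1 ndB6q2 pcB0 Cut.none Ext.none)

def k0_pm_102 : ∃ t, chk3 f_pm_102 t 2 1 1 = true :=
  ⟨(a (l 4) (b (b (l 4) (a (l 4) (b (l 4) (a (l 4) (b (l 4) (l 15938296)))))) (b (a (l 2) (a (l 2) (b (b (l 15988392) (l 2)) (l 2)))) (l 2)))), by decide +kernel⟩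

def k1_pm_102 : ∃ t, chk3 f_pm_102 t 3 2 1 = true :=
  ⟨(a (b (b (a (a (l 4) (b (l 16019680) (l 16008984))) (a (b (l 16062448) (l 16053016)) (b (l 16111728) (l 16099632)))) (a (a (b (l 15961192) (l 15944328)) (b (l 15999912) (l 15991936))) (a (b (l 16045240) (l 16039616)) (b (l 16091672) (l 16086976))))) (a (b (a (b (l 15927392) (l 16173320)) (b (l 15984888) (l 15988360))) (a (l 15996856) (l 16072392))) (b (b (a (l 16036104) (l 16086816)) (a (l 16046080) (l 16099656))) (a (b (l 16110112) (l 16176648)) (b (l 16168376) (l 16245272)))))) (b (a (b (a (b (a (l 16154072) (l 16183352)) (l 16154392)) (a (b (l 16212448) (l 16286568)) (b (l 16242288) (b (l 16235928) (l 16231208))))) (a (b (l 16148352) (l 16290080)) (b (a (l 16192648) (l 16226696)) (l 16206720)))) (b (b (a (a (b (l 16275160) (l 16264904)) (b (l 16300952) (l 16293456))) (c (a (l 16367304) (l 16391192)) (a (b (l 16291752) (l 16285792)) (b (l 16318336) (l 16311368))))) (a (a (l 16262400) (l 16293416))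 (a (l 16330464) (l 16355304)))) (a (b (a (l 16262024) (l 16300864)) (a (l 16262776) (l 16306736))) (b (a (b (l 16334792) (l 16337800)) (l 16354992)) (a (b (l 16340824) (l 16344536)) (b (l 16358704) (l 16362792))))))) (a (b (a (b (l 16203312) (l 16156784)) (b (l 16208136) (b (l 16211688) (l 16238496)))) (b (l 16328384) (a (l 16314536) (l 16392072)))) (b (a (b (a (l 16266640) (l 16312592)) (b (l 16293840) (l 16322456))) (b (a (l 16354032) (b (l 16368648) (l 16377576))) (b (a (l 16369168) (l 16388048)) (a (l 16393856) (l 16409432))))) (a (b (a (l 16366640) (l 16414392)) (l 16461304)) (b (a (l 16436104) (l 16447240)) (l 16489824))))))), by decide +kernel⟩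

def k2_pm_102 : ∃ t, chk3 f_pm_102 t 3 3 1 = true :=
  ⟨(a (b (b (a (a (l 16112208) (l 16194632)) (a (l 16268760) (l 16350752))) (a (b (a (l 2) (l 16297080)) (l 2)) (a (l 16406176) (l 16486656)))) (b (a (l 2) (a (l 2) (l 16613248))) (l 2))) (b (a (b (a (b (l 16398480) (l 16476464)) (b (a (l 16458904) (l 16485320)) (a (l 16521984) (l 16542360)))) (a (b (l 16529816) (l 16581936)) (b (l 16579792) (l 16620552)))) (b (a (b (a (l 16506960) (l 16521304)) (a (l 16555560) (l 16562728))) (b (l 16528120) (a (b (l 16554616) (l 16570368)) (l 16555080)))) (a (b (b (l 16588648) (l 16604800)) (l 16627320)) (b (a (l 16589760) (l 16578200)) (l 16603200))))) (a (b (a (l 16659096) (l 16681856)) (l 16760136)) (b (a (b (l 16654968) (l 16681576)) (b (l 16619496) (l 16631176))) (a (l 16698920) (l 16640960)))))), by decide +kernel⟩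

theorem s3_pm_102 : ∃ t, chk3 f_pm_102 t 3 1 1 = true := ex3_b k1_pm_102 k2_pm_102

theorem s4_pm_102 : ∃ t, chk3 f_pm_102 t 1 1 1 = true := ex3_a k0_pm_102 s3_pm_102

theorem c_pm_102 : CertB 536870912 536870912 1073741824 536870912 649613803 48318383 3 eng mog cd0q1 cd6q2 pd0 false true false .npp 1 0 2
    ndB0q1 ndB6q2 pcB0 Cut.none Ext.none :=
  certB0 (fam := false) (s1 := true) (s2 := false) (a := 1) (b := 0) (c := 2) (cn := .npp) (n1 := ndB0q1) (n2 := ndB6q2) (pc := pcB0) (cut := Cut.none) (xt := Ext.none) (P1 := 536870912) (W1 := 536870912) (P2 := 1073741824) (W2 := 536870912) (P3 := 649613803) (W3 := 48318383) (N0 := 3) (En := eng) (mo := mog) (C1 := cd0q1) (C2 := cd6q2) (C3 := pd0)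
    rfl s4_pm_102

noncomputable def f_pm_112 : ℕ → ℕ → ℕ → ℕ → Bool := onCell 536870912 536870912 1073741824 536870912 649613803 48318383
    (rowB 3 eng mog cd0q1 cd6q2 pd1 0 false true false .dn 1 1 2 (qsf 536870912 536870912 1073741824 536870912 1) ndB0q1 ndB6q2 pcB1 Cut.none Ext.none)

def k0_pm_112 : ∃ t, chk3 f_pm_112 t 1 1 1 = true :=
  ⟨(a (a (l 4) (b (b (l 4) (a (l 4) (b (l 4) (l 361010627783)))) (b (a (l 4) (b (l 41572843223) (l 16118568))) (a (b (l 4) (l 16157320)) (b (l 16227800) (a (l 16269992) (l 16354192))))))) (b (a (b (l 1) (b (l 1) (a (a (l 15996832) (l 1)) (l 1)))) (l 1)) (a (b (a (b (l 16258624) (l 16454536)) (b (a (l 16258464) (l 1)) (l 16435536))) (a (b (a (l 16335696) (l 16434448)) (l 16490328)) (b (l 16568832) (l 16676040)))) (b (a (b (l 1) (l 16561936)) (l 1)) (a (b (l 16670560) (l 16781424)) (b (l 16696880) (l 16765240))))))), by decide +kernel⟩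

theorem c_pm_112 : CertB 536870912 536870912 1073741824 536870912 649613803 48318383 3 eng mog cd0q1 cd6q2 pd1 false true false .dn 1 1 2
    ndB0q1 ndB6q2 pcB1 Cut.none Ext.none :=
  certB0 (fam := false) (s1 := true) (s2 := false) (a := 1) (b := 1) (c := 2) (cn := .dn) (n1 := ndB0q1) (n2 := ndB6q2) (pc := pcB1) (cut := Cut.none) (xt := Ext.none) (P1 := 536870912) (W1 := 536870912) (P2 := 1073741824) (W2 := 536870912) (P3 := 649613803) (W3 := 48318383) (N0 := 3) (En := eng) (mo := mog) (C1 := cd0q1) (C2 := cd6q2) (C3 := pd1)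
    rfl k0_pm_112

noncomputable def cut_pm_113 : Cut := Cut.of [[⟨0, 1, 0, 67108864⟩, ⟨1, 1, 0, 67108864⟩, ⟨2, 2, 0, 16777216⟩]]

noncomputable def f_pm_113 : ℕ → ℕ → ℕ → ℕ → Bool := onCell 536870912 536870912 0 1230186008 649613803 48318383
    (rowB 3 eng mog cd0q1 cd6q3 pd1 0 false true false .nn 1 1 3 (qsf 536870912 536870912 0 1230186008 1) ndB0q1 ndB6q3 pcB1 cut_pm_113 Ext.none)

def k0_pm_113 : ∃ t, chk3 f_pm_113 t 1 1 1 = true :=
  ⟨(b (a (l 2) (a (l 2) (a (b (l 2) (b (l 16736952) (a (l 16734704) (l 16767944)))) (b (a (l 2) (b (l 6) (b (l 6) (l 16779944)))) (b (a (l 16771640) (b (l 16791752) (l 16807856))) (a (l 16799736) (b (l 16825528) (l 16846672)))))))) (b (a (a (l 2) (b (l 2) (a (l 2) (b (l 2) (a (l 2) (l 232028131911)))))) (a (b (a (l 2) (a (l 16595936) (l 16673000))) (a (a (b (l 16421448) (l 16410728)) (b (l 16501008) (l 16492000))) (b (l 16625440) (l 16619984)))) (b (a (a (b (l 16740488) (l 16741672)) (l 16622096)) (a (l 16836008) (l 16885696)))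 (a (a (l 16739720) (b (l 16808560) (l 16812312))) (a (b (l 16866384) (l 16845144)) (b (l 16929216) (l 16963216))))))) (a (a (b (l 2) (l 4)) (b (a (b (a (l 2) (l 168676892519)) (a (l 187466959431) (l 16140328))) (a (b (l 16242688) (l 16232632)) (b (b (l 16324936) (l 16319640)) (l 16313040)))) (a (a (b (l 16036920) (l 4)) (b (a (l 16114208) (l 16161208)) (l 16153344))) (b (a (l 16227608) (l 16310616)) (a (b (l 16236120) (l 16253760)) (l 16326408)))))) (a (b (a (b (a (l 16398776) (l 16482912)) (a (l 16394440) (l 16477656))) (b (l 16739920) (l 16594792))) (a (b (l 16439976) (l 16457304)) (b (l 16632128) (l 16652600)))) (b (a (b (l 16739848) (l 16797880)) (a (l 17046832) (b (l 16993160) (l 17030640)))) (a (b (l 16818272) (l 16851520)) (b (l 17012560) (l 16955416)))))))), by decide +kernel⟩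

theorem c_pm_113 : CertB 536870912 536870912 0 1230186008 649613803 48318383 3 eng mog cd0q1 cd6q3 pd1 false true false .nn 1 1 3
    ndB0q1 ndB6q3 pcB1 cut_pm_113 Ext.none :=
  certB0 (fam := false) (s1 := true) (s2 := false) (a := 1) (b := 1) (c := 3) (cn := .nn) (n1 := ndB0q1) (n2 := ndB6q3) (pc := pcB1) (cut := cut_pm_113) (xt := Ext.none) (P1 := 536870912) (W1 := 536870912) (P2 := 0) (W2 := 1230186008) (P3 := 649613803) (W3 := 48318383) (N0 := 3) (En := eng) (mo := mog) (C1 := cd0q1) (C2 := cd6q3) (C3 := pd1)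
    rfl k0_pm_113

noncomputable def cut_pm_123 : Cut := Cut.of [[⟨0, 1, 0, 67108864⟩, ⟨1, 1, 0, 67108864⟩, ⟨2, 2, 0, 16777216⟩]]

noncomputable def f_pm_123 : ℕ → ℕ → ℕ → ℕ → Bool := onCell 1073741824 536870912 0 1230186008 649613803 48318383
    (rowB 3 eng mog cd0q1 cd6q3 pd2 2 false true false .npn 1 2 3 (qsf 536870912 536870912 0 1230186008 2) ndB0q1 ndB6q3 pcB2 cut_pm_123 Ext.none)

def k0_pm_123 : ∃ t, chk3 f_pm_123 t 1 2 1 = true :=
  ⟨(a (a (a (b (b (a (l 6) (a (l 6) (l 16733472))) (a (b (l 6) (l 16743744)) (l 16737312))) (b (a (b (l 16737568) (l 16739616)) (l 16696520)) (a (b (l 16740080) (l 16727968)) (b (l 16678760) (l 16642080))))) (b (b (a (l 16710128) (l 16672240)) (a (l 16676640) (l 16632320))) (b (a (l 16644200) (l 16584592)) (a (b (l 16605104) (l 16556992)) (b (l 16531664) (l 16487544)))))) (b (a (b (a (a (l 16639040) (a (l 16621592) (l 16610904))) (l 16652200)) (a (l 16582872) (l 16540232))) (b (l 16589024) (l 16547176))) (a (a (b (l 16523808)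 (l 16499416)) (b (a (l 16482480) (l 16477088)) (b (l 16442152) (l 16418872)))) (a (b (l 16492696) (l 16447616)) (b (l 16512488) (l 16466632)))))) (a (b (a (b (l 16609792) (l 16578104)) (b (l 16635168) (l 16604960))) (a (b (l 16702648) (a (l 16479856) (l 16489288))) (b (l 16769360) (a (l 16495664) (l 16505968))))) (b (a (b (l 16654112) (l 16620328)) (l 16637096)) (a (b (l 16581296) (a (l 16515872) (l 16524944))) (c (l 114924080103) (a (l 93986141815) (l 16818592))))))), by decide +kernel⟩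

def k1_pm_123 : ∃ t, chk3 f_pm_123 t 1 3 1 = true :=
  ⟨(b (a (a (b (a (b (a (a (l 16696792) (l 16644448)) (l 16572904)) (a (l 16703176) (l 16489232))) (b (a (l 16493752) (l 16437928)) (a (l 16424544) (l 16388624)))) (a (b (b (a (l 16494784) (l 16420920)) (a (l 16584728) (l 16380760))) (b (a (l 16383080) (l 16334368)) (a (l 16326208) (l 16283960)))) (b (a (l 16360176) (l 16329928)) (a (l 16279992) (l 16255200))))) (b (a (a (b (l 16404168) (l 16365176)) (b (l 16390552) (l 16356352))) (a (l 16511592) (l 16393192))) (a (a (b (l 16314104) (l 16238128)) (b (l 16304256) (l 16230296))) (b (l 16559072) (a (l 16229512) (l 4)))))) (a (b (a (a (l 16398808) (l 16404648)) (a (l 16415104) (l 16429304))) (a (a (l 16258008) (l 4)) (l 4))) (b (a (a (l 16448520) (l 1)) (l 1)) (l 1)))) (a (a (b (a (b (a (a (l 16242504) (l 16218928)) (l 16258704)) (a (a (l 16064856) (l 16067584)) (l 16047288))) (b (a (b (l 16196912) (l 16130576)) (l 16146688)) (a (l 16024088) (l 4)))) (a (l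 4) (l 4))) (b (a (b (a (l 16135424) (l 4)) (l 4)) (l 4)) (l 4))) (l 1))), by decide +kernel⟩

theorem s2_pm_123 : ∃ t, chk3 f_pm_123 t 1 1 1 = true := ex3_b k0_pm_123 k1_pm_123

theorem c_pm_123 : CertB 536870912 536870912 0 1230186008 649613803 48318383 3 eng mog cd0q1 cd6q3 pd2 false true false .npn 1 2 3
    ndB0q1 ndB6q3 pcB2 cut_pm_123 Ext.none :=
  certB2 (fam := false) (s1 := true) (s2 := false) (a := 1) (b := 2) (c := 3) (cn := .npn) (n1 := ndB0q1) (n2 := ndB6q3) (pc := pcB2) (cut := cut_pm_123) (xt := Ext.none) (P1 := 536870912) (W1 := 536870912) (P2 := 0) (W2 := 1230186008) (P3 := 649613803) (W3 := 48318383) (N0 := 3) (En := eng) (mo := mog) (C1 := cd0q1) (C2 := cd6q3) (C3 := pd2)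
    rfl (fun _ => rfl) s2_pm_123

noncomputable def f_pm_133 : ℕ → ℕ → ℕ → ℕ → Bool := onCell 1610612736 536870912 0 1230186008 649613803 48318383
    (rowB 3 eng mog cd0q1 cd6q3 pd3 2 false true false .dn 1 3 3 (qsf 536870912 536870912 0 1230186008 3) ndB0q1 ndB6q3 pcB3 Cut.none Ext.none)

def k0_pm_133 : ∃ t, chk3 f_pm_133 t 1 1 1 = true :=
  ⟨(b (b (a (a (a (l 16630416) (l 1)) (l 1)) (l 1)) (l 1)) (l 1)), by decide +kernel⟩

theorem c_pm_133 : CertB 536870912 536870912 0 1230186008 649613803 48318383 3 eng mog cd0q1 cd6q3 pd3 false true false .dn 1 3 3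
    ndB0q1 ndB6q3 pcB3 Cut.none Ext.none :=
  certB2 (fam := false) (s1 := true) (s2 := false) (a := 1) (b := 3) (c := 3) (cn := .dn) (n1 := ndB0q1) (n2 := ndB6q3) (pc := pcB3) (cut := Cut.none) (xt := Ext.none) (P1 := 536870912) (W1 := 536870912) (P2 := 0) (W2 := 1230186008) (P3 := 649613803) (W3 := 48318383) (N0 := 3) (En := eng) (mo := mog) (C1 := cd0q1) (C2 := cd6q3) (C3 := pd3)
    rfl (fun _ => rfl) k0_pm_133

noncomputable def f_pm_202 : ℕ → ℕ → ℕ → ℕ → Bool := onCell 0 536870912 1073741824 536870912 649613803 48318383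
    (rowB 3 eng mog cd0q2 cd6q2 pd0 0 false true false .pp 2 0 2 (qsf 0 536870912 1073741824 536870912 0) ndB0q2 ndB6q2 pcB0 Cut.none Ext.none)

def k0_pm_202 : ∃ t, chk3 f_pm_202 t 4 4 1 = true :=
  ⟨(l 1), by decide +kernel⟩

def k1_pm_202 : ∃ t, chk3 f_pm_202 t 4 10 1 = true :=
  ⟨(a (a (l 3) (b (b (l 1) (b (l 1) (b (l 1) (a (c (l 679308860183) (l 16425848)) (a (c (a (l 16442528) (l 16442808)) (l 16445336)) (l 16443456)))))) (a (l 3) (a (b (b (b (b (a (l 16442560) (l 16442312)) (l 113983765207)) (l 114520638039)) (c (b (l 16441080) (l 115594416023)) (l 16441520))) (l 116131261943)) (b (b (b (c (l 16441856) (l 16443480)) (c (a (l 16461904) (l 16461912)) (a (l 16442208) (l 16441960)))) (b (c (a (l 16440664) (l 16461784)) (l 16461968)) (a (a (l 16460752) (l 16460736)) (a (l 16460536) (l 16439448))))) (b (b (a (l 16442608) (l 16442440)) (l 16466688)) (c (l 16472248) (l 16451536)))))))) (b (b (l 1) (a (c (b (l 1) (l 16445800)) (l 16426280)) (b (l 16449992)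 (l 16447064)))) (b (a (b (c (a (l 16463392) (l 16444248)) (l 16463536)) (b (a (a (b (l 16461104) (a (l 16439520) (l 16439656))) (l 16460864)) (l 16440744)) (c (a (a (b (l 16461304) (a (l 16441072) (l 16441104))) (a (l 16462104) (l 16482984))) (l 16483952)) (a (a (l 16440024) (l 16439776)) (l 16439688))))) (b (l 16444424) (l 16484344))) (a (a (a (a (b (b (l 16442144) (l 16445416)) (b (l 16448488) (l 16451232))) (b (b (l 16442272) (l 16445432)) (l 16470832))) (b (a (b (l 16442032) (l 16445496)) (b (l 16442304) (l 16445456))) (b (a (l 16448488) (l 16448608)) (l 16451120)))) (b (a (b (b (l 16441664) (l 16443336)) (l 16445672)) (c (b (l 16444840) (l 16510720)) (l 16465072))) (b (a (a (l 16448624) (l 16448816)) (l 16449168)) (a (l 16451712) (l 16452072))))) (b (l 16446608) (a (a (b (l 16449672) (l 16452696)) (b (l 16450600) (l 16453336))) (l 16453632))))))), by decide +kernel⟩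

def k2_pm_202 : ∃ t, chk3 f_pm_202 t 4 11 1 = true :=
  ⟨(a (a (l 3) (b (c (b (l 117741915511) (l 3)) (l 111299543527)) (l 3))) (b (a (b (a (a (c (c (b (l 16456792) (l 16462120)) (l 16479224)) (l 16459320)) (b (c (b (l 16454800) (l 16457552)) (l 16456440)) (b (l 16459200) (l 16461208)))) (a (b (b (l 16454488) (l 16457048)) (c (l 16461096) (l 16461088))) (b (b (l 16454792) (l 16457584)) (l 16461192)))) (a (a (l 16467352) (b (l 16464384) (l 16468392))) (a (a (l 16466904) (a (l 16466976) (l 16467160))) (b (l 16485808) (l 16469272))))) (b (b (a (a (b (l 16455448) (l 16458080)) (l 16457672)) (b (l 16457656) (l 16460384))) (a (a (c (l 16463520) (l 16461912)) (l 16420592)) (b (l 16463112) (l 16465424)))) (a (a (b (l 16466296) (l 16469968)) (b (l 16467240) (l 16471080))) (b (b (l 16467760) (l 16469800)) (a (l 16472304) (l 16473328)))))) (b (a (c (a (b (l 118815670375) (l 16475632)) (l 16514688)) (l 16546936)) (a (a (l 16536976) (l 16537112)) (b (l 16476600) (l 16479016))))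 (a (a (l 16479096) (b (l 16560392) (l 16477240))) (a (l 16584576) (l 16584952)))))), by decide +kernel⟩

def k3_pm_202 : ∃ t, chk3 f_pm_202 t 5 2 1 = true :=
  ⟨(b (b (l 1) (b (l 1) (a (l 1) (b (l 1) (a (l 1) (l 16469760)))))) (b (a (b (b (a (l 16458152) (l 16461608)) (a (b (l 16453288) (l 16450400)) (l 16455288))) (b (a (b (l 16447832) (l 16487832)) (b (l 16451328) (l 16449424))) (a (c (l 16458616) (l 16451472)) (l 16500240)))) (b (a (b (l 16505320) (l 16456936)) (b (b (l 16464352) (l 16460280)) (l 16455296))) (b (a (b (l 16452896) (l 16450952)) (c (l 16460120) (l 16442376))) (a (l 16460440) (l 16459096))))) (a (b (a (a (b (b (l 16461768) (b (l 16465528) (l 16467912))) (b (c (l 16474824) (l 16470424)) (l 16475744))) (b (l 16467464) (b (l 16474576) (l 16437264)))) (b (l 16471720) (b (l 16479960) (a (l 16482504) (l 16486096))))) (b (a (a (b (l 16479128) (l 16482264)) (l 16484640)) (a (b (l 16486664) (l 16490096)) (b (l 16490128) (l 16493768)))) (a (a (l 16486112)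 (l 16489416)) (a (l 16494336) (l 16498632))))) (b (a (b (l 16475112) (l 16487280)) (b (l 16474840) (l 16488336))) (a (b (l 16496880) (a (l 16502312) (l 16505008))) (b (l 16499520) (l 16508352))))))), by decide +kernel⟩

def k4_pm_202 : ∃ t, chk3 f_pm_202 t 4 3 1 = true :=
  ⟨(a (l 3) (b (a (b (b (b (b (a (l 3) (l 16479560)) (l 108078228295)) (b (l 111299435463) (l 117205066103))) (b (l 146733021895) (l 3))) (l 3)) (b (b (a (b (a (l 16479368) (l 16480448)) (b (l 16462400) (l 16487728))) (b (b (l 16482896) (l 16484160)) (l 16487528))) (b (a (b (l 16492520) (l 16496696)) (b (l 16492624) (l 16496440))) (a (l 119889516279) (c (l 16611120) (l 16561928))))) (b (b (a (l 122573909783) (a (l 16511168) (l 16512616))) (a (l 3) (a (l 16520168) (l 16520720)))) (a (l 3) (b (a (l 16530696) (l 16529912)) (a (l 3) (l 16540536))))))) (l 3))), by decide +kernel⟩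

def k5_pm_202 : ∃ t, chk3 f_pm_202 t 5 3 1 = true :=
  ⟨(b (b (a (b (a (a (b (l 16590064) (l 16491360)) (b (l 16493152) (l 16495968))) (b (a (l 16497360) (l 16502864)) (a (l 16501480) (l 16506040)))) (a (a (b (l 16498728) (l 16505904)) (b (l 16501376) (l 16508784))) (b (l 16507560) (l 16512256)))) (b (a (b (l 16509904) (l 16513728)) (b (l 16514416) (l 16520272))) (a (b (l 16516496) (l 16520280)) (l 16526096)))) (a (a (b (a (b (a (l 16513264) (l 16514528)) (a (l 16522176) (l 16522752))) (l 16520464)) (b (a (a (l 16530640) (l 16531784)) (a (l 16532248) (l 16533040))) (a (b (l 16537880) (l 16542664)) (a (l 16541160) (l 16541496))))) (b (a (l 16521768) (b (l 16518896) (l 16525560))) (b (l 16513184) (l 16605152)))) (b (a (b (l 16523072) (l 16523592)) (b (l 16530080) (l 16532880))) (a (a (l 16535472) (l 16531920)) (l 16535184))))) (b (a (a (b (a (a (b (l 16550776) (l 3)) (b (l 16550336) (l 16561304))) (b (a (l 16550624) (l 16550936)) (a (l 16560848) (l 16560784))))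 (b (a (l 16594832) (l 16571280)) (a (l 3) (l 16581960)))) (b (a (b (l 16551032) (a (l 16560464) (l 16560032))) (l 16554408)) (a (b (l 16569832) (l 16579416)) (b (l 16567504) (l 16576096))))) (b (a (a (l 16551864) (l 16546560)) (l 16533264)) (a (a (l 16567944) (l 16562024)) (l 16546632)))) (a (b (a (a (l 3) (b (l 152638825431) (l 3))) (b (a (l 16588976) (l 16584992)) (a (l 16598464) (l 16593808)))) (a (l 3) (a (b (l 121500338679) (l 307794481623)) (b (l 16602184) (b (l 16608040) (l 124721546935)))))) (a (b (b (l 16576992) (a (l 16587976) (l 16580608))) (b (a (l 16595896) (l 16587840)) (a (l 16603184) (l 16594472)))) (b (l 16559840) (l 16572496)))))), by decide +kernel⟩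

def k6_pm_202 : ∃ t, chk3 f_pm_202 t 3 4 1 = true :=
  ⟨(a (b (l 1) (a (b (l 1) (a (b (l 16473128) (l 16464344)) (b (l 16463696) (l 16454176)))) (b (b (a (l 1) (l 16459464)) (a (l 16461672) (l 16446208))) (a (b (l 16450400) (l 16440008)) (l 16428200))))) (b (b (a (l 1) (b (a (l 1) (a (c (l 16428440) (a (l 16361520) (l 16353152))) (a (l 16382016) (l 16374632)))) (a (a (b (l 1) (l 16419072)) (b (b (l 1) (l 16406464)) (l 16402496))) (a (b (a (l 16394536) (l 16385208)) (l 16384456)) (l 16370320))))) (a (a (b (l 1) (b (l 1) (l 16450296))) (b (b (l 16436848) (l 16432144)) (l 16424248))) (a (b (a (l 16411288) (l 16394280)) (l 16392592)) (a (l 16373488) (l 16361912))))) (a (b (a (b (a (l 16445736) (l 16435648)) (l 16426304)) (b (l 16413856) (l 16404624))) (a (l 16409440) (b (l 16392832) (l 16385440)))) (b (a (b (l 16384048) (l 16377184)) (b (l 16360408) (l 16358208))) (a (b (l 16373152) (l 16367104)) (b (l 16357768) (l 16463968))))))), by decide +kernel⟩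

def k7_pm_202 : ∃ t, chk3 f_pm_202 t 3 5 1 = true :=
  ⟨(a (b (a (b (a (b (l 16456424) (a (l 16451312) (l 16447712))) (b (l 16445776) (l 16439024))) (a (b (b (l 16445224) (l 16443152)) (l 16453520)) (b (b (l 16435288) (l 16432712)) (l 16443448)))) (b (a (l 16427768) (l 16411336)) (a (b (l 16419864) (l 16431064)) (b (l 16404184) (l 16416304))))) (a (b (a (l 16477720) (l 16469120)) (a (l 16502768) (l 16496416))) (b (a (b (l 16448968) (l 16465760)) (b (l 16436792) (l 16453760))) (a (l 16487048) (l 16476904))))) (b (a (b (a (l 16393968) (l 16377080)) (b (a (l 16388464) (l 16374584)) (a (l 16401824) (l 16389624)))) (b (a (b (l 16364040) (l 16364240)) (b (a (l 16360760) (l 16365560)) (l 16492136))) (a (b (l 16366536) (l 16383856)) (b (l 16374696) (l 16394560))))) (a (b (a (b (l 16423392) (l 16443512)) (l 16423152)) (a (l 16466928) (l 16460448))) (b (a (l 16419120) (l 16430784)) (a (l 16459160) (l 16471952)))))), by decide +kernel⟩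

def k8_pm_202 : ∃ t, chk3 f_pm_202 t 3 3 1 = true :=
  ⟨(a (b (b (a (b (a (b (l 16515848) (l 16521448)) (l 16515880)) (a (l 16529592) (l 16527264))) (b (a (l 16509112) (l 16501224)) (a (l 16523960) (l 16519144)))) (a (b (a (l 16536056) (l 16535864)) (a (l 16540216) (l 16542736))) (b (a (l 16533200) (l 16530520)) (a (l 16541544) (l 16540560))))) (a (b (a (b (l 16543584) (l 16541176)) (b (l 16545600) (l 16547664))) (a (b (l 16536528) (l 16530128)) (l 16543232))) (b (b (l 16547640) (a (l 16548304) (l 16551480))) (b (l 16549776) (l 16549968))))) (b (b (a (b (l 16491592) (l 16513784)) (b (a (l 16491104) (l 16505736)) (l 16524144))) (a (b (l 16530608) (a (l 16540224) (l 16544128))) (b (a (l 16538296) (l 16555200)) (a (l 16553296) (l 16567552))))) (b (a (b (a (l 16610528) (l 16553096)) (l 16556248)) (b (a (l 16561792) (l 16579520)) (a (b (l 16565312) (l 16567152)) (l 16584176)))) (a (l 16551712) (a (l 16574328) (l 16595128)))))), by decide +kernel⟩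

theorem s9_pm_202 : ∃ t, chk3 f_pm_202 t 3 2 1 = true := ex3_b k6_pm_202 k7_pm_202

theorem s10_pm_202 : ∃ t, chk3 f_pm_202 t 3 1 1 = true := ex3_b s9_pm_202 k8_pm_202

theorem s11_pm_202 : ∃ t, chk3 f_pm_202 t 2 3 1 = true := ex3_a k4_pm_202 k5_pm_202

theorem s12_pm_202 : ∃ t, chk3 f_pm_202 t 4 5 1 = true := ex3_b k1_pm_202 k2_pm_202

theorem s13_pm_202 : ∃ t, chk3 f_pm_202 t 4 2 1 = true := ex3_b k0_pm_202 s12_pm_202

theorem s14_pm_202 : ∃ t, chk3 f_pm_202 t 2 2 1 = true := ex3_a s13_pm_202 k3_pm_202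

theorem s15_pm_202 : ∃ t, chk3 f_pm_202 t 2 1 1 = true := ex3_b s14_pm_202 s11_pm_202

theorem s16_pm_202 : ∃ t, chk3 f_pm_202 t 1 1 1 = true := ex3_a s15_pm_202 s10_pm_202

theorem c_pm_202 : CertB 0 536870912 1073741824 536870912 649613803 48318383 3 eng mog cd0q2 cd6q2 pd0 false true false .pp 2 0 2
    ndB0q2 ndB6q2 pcB0 Cut.none Ext.none :=
  certB0 (fam := false) (s1 := true) (s2 := false) (a := 2) (b := 0) (c := 2) (cn := .pp) (n1 := ndB0q2) (n2 := ndB6q2) (pc := pcB0) (cut := Cut.none) (xt := Ext.none) (P1 := 0) (W1 := 536870912) (P2 := 1073741824) (W2 := 536870912) (P3 := 649613803) (W3 := 48318383) (N0 := 3) (En := eng) (mo := mog) (C1 := cd0q2) (C2 := cd6q2) (C3 := pd0)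
    rfl s16_pm_202

noncomputable def f_pm_203 : ℕ → ℕ → ℕ → ℕ → Bool := onCell 0 536870912 0 1230186008 649613803 48318383
    (rowB 3 eng mog cd0q2 cd6q3 pd0 0 false true false .up 2 0 3 (qsf 0 536870912 0 1230186008 0) ndB0q2 ndB6q3 pcB0 Cut.none Ext.none)

def k0_pm_203 : ∃ t, chk3 f_pm_203 t 1 1 1 = true :=
  ⟨(b (l 2) (b (l 2) (a (a (l 3) (b (a (l 3) (a (l 3) (l 2))) (b (a (l 3) (a (b (a (l 3) (l 156397012695)) (a (l 149954506951) (l 159081331127))) (b (a (l 164986937143) (l 16641936)) (a (l 16617728) (l 16623824))))) (a (b (l 3) (a (l 3) (b (l 137069548743) (a (l 3) (l 16604792))))) (b (a (a (b (l 16594440) (l 16582384)) (l 16592552)) (b (a (l 16604184) (l 16607880)) (a (l 16591664) (l 16596240)))) (a (b (a (l 16586912) (l 16573664)) (a (l 16593000) (l 16577408))) (b (l 16577424) (l 16563848)))))))) (b (l 2) (a (b (a (a (b (a (l 16646040) (l 16650664)) (a (l 16627688) (l 16632088))) (l 16648320)) (a (l 16656984) (l 16668912))) (a (b (a (l 16607520)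 (l 16612328)) (a (l 16580664) (l 16582368))) (a (l 16601408) (l 16608000)))) (b (a (l 16705720) (l 2)) (a (l 16619832) (l 16673016)))))))), by decide +kernel⟩

theorem c_pm_203 : CertB 0 536870912 0 1230186008 649613803 48318383 3 eng mog cd0q2 cd6q3 pd0 false true false .up 2 0 3
    ndB0q2 ndB6q3 pcB0 Cut.none Ext.none :=
  certB0 (fam := false) (s1 := true) (s2 := false) (a := 2) (b := 0) (c := 3) (cn := .up) (n1 := ndB0q2) (n2 := ndB6q3) (pc := pcB0) (cut := Cut.none) (xt := Ext.none) (P1 := 0) (W1 := 536870912) (P2 := 0) (W2 := 1230186008) (P3 := 649613803) (W3 := 48318383) (N0 := 3) (En := eng) (mo := mog) (C1 := cd0q2) (C2 := cd6q3) (C3 := pd0)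
    rfl k0_pm_203

end Pool.Agent.Strip051.G.I6050_6500.Tab.C.BB06

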