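import Pool.Agent.Strip051.G.I6050_6500.Tab

/-! # Certificates B29 (generated) -/

set_option linter.all false
set_option maxRecDepth 100000

namespace Pool.Agent.Strip051.G.I6050_6500.Tab.C.BB06

open Pool.Agent.Strip051.PB Pool.Agent.Strip051.PB.T
open Pool.Agent.Strip051.G.I6050_6500.Tab

noncomputable def cut_pm_213 : Cut := Cut.of [[⟨0, 1, 0, 67108864⟩, ⟨1, 1, 0, 67108864⟩, ⟨2, 2, 0, 16777216⟩]]

noncomputable def f_pm_213 : ℕ → ℕ → ℕ → ℕ → Bool := onCell 0 536870912 0 1230186008 649613803 48318383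
    (rowB 3 eng mog cd0q2 cd6q3 pd1 0 false true false .pnn 2 1 3 (qsf 0 536870912 0 1230186008 1) ndB0q2 ndB6q3 pcB1 cut_pm_213 Ext.none)

def k0_pm_213 : ∃ t, chk3 f_pm_213 t 2 2 1 = true :=
  ⟨(l 3), by decide +kernel⟩

def k1_pm_213 : ∃ t, chk3 f_pm_213 t 3 4 1 = true :=
  ⟨(a (l 3) (a (b (l 3) (a (l 3) (b (l 3) (a (l 3) (b (l 3) (a (l 3) (b (l 308331704871) (l 259476458375)))))))) (b (l 6) (a (b (a (l 6) (l 6)) (a (b (a (b (l 342691435367) (a (l 307794831687) (l 256792083319))) (b (a (l 265382016583) (l 16789736)) (l 16792120))) (a (b (l 247665283431) (l 16796616)) (l 16796456))) (b (l 16791208) (l 16796800)))) (b (a (l 6) (l 6)) (a (l 16794368) (l 16793224))))))), by decide +kernel⟩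

def k2_pm_213 : ∃ t, chk3 f_pm_213 t 3 5 1 = true :=
  ⟨(a (b (l 3) (a (l 3) (b (l 3) (a (l 3) (a (b (l 3) (a (l 3) (b (l 3) (a (l 3) (b (l 3) (c (l 173040210487) (l 167671499607))))))) (b (a (b (l 3) (b (l 3) (l 179482670791))) (b (a (l 3) (l 203641895943)) (c (l 168745277815) (b (l 199883775623) (l 162839689415))))) (a (a (b (b (l 3) (l 176261440967)) (c (l 167134646455) (b (l 178945794375) (l 16781488)))) (b (c (l 167134652311) (b (l 185925122583) (l 168745257111))) (l 16784864))) (b (b (l 16789280) (l 16789496)) (l 16789960))))))))) (b (a (a (b (l 3) (a (l 3) (b (b (l 3) (l 242296628487)) (a (b (l 3) (l 235317279431)) (b (l 236391025287) (l 16804784)))))) (b (a (b (a (l 3) (l 310479193351)) (a (l 279340687031) (b (l 259476466935) (l 267529542407)))) (b (a (b (l 280414425367) (l 259476463079)) (b (l 16797904) (l 16800504))) (a (l 16802776) (l 16804504)))) (a (b (a (b (a (l 244444085255) (l 251423385959)) (a (l 16803648) (l 16804880))) (l 16805552))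 (a (l 16786040) (l 16809848))) (b (l 16808832) (l 16813992))))) (a (a (b (a (l 16782544) (l 16805304)) (l 16816840)) (b (l 16807984) (l 16824384))) (b (a (l 16806592) (l 16807120)) (l 16824416)))) (a (b (a (a (b (b (l 261623944327) (l 211158080279)) (a (b (l 204178754455) (l 214379301607)) (b (l 197736329735) (l 16800240)))) (b (a (b (l 233706688167) (l 16803560)) (l 16806880)) (a (l 16804960) (l 16809672)))) (a (b (l 16812360) (l 16816144)) (l 16822904))) (a (a (b (a (b (a (l 168745283991) (l 16796376)) (l 16795288)) (l 16801152)) (a (l 16796352) (l 16803168))) (b (l 16809944) (l 16813544))) (a (l 16824528) (l 16837144)))) (b (a (a (l 16832960) (l 16841736)) (l 16846032)) (l 16972592))))), by decide +kernel⟩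

def k3_pm_213 : ∃ t, chk3 f_pm_213 t 1 6 1 = true :=
  ⟨(a (l 3) (b (a (a (l 3) (b (a (b (l 3) (a (l 3) (b (l 294909883367) (l 187535741351)))) (b (a (b (a (l 3) (a (b (l 164450269735) (a (c (l 162839662775) (l 172503330583)) (l 167134630311))) (b (c (l 16779304) (l 170892724631)) (l 16778888)))) (b (a (l 277193154039) (b (a (l 165524017559) (l 16779096)) (l 16777576))) (a (l 151565359303) (l 16777904)))) (a (b (c (l 16784168) (l 16783776)) (l 16784472)) (b (l 16790808) (l 16791552)))) (a (a (b (l 149954770887) (l 16773832)) (l 16801072)) (l 16770288)))) (a (b (a (l 262697619879) (a (l 292225592695) (l 16770976))) (a (a (l 255181427975) (l 280414433735)) (l 16754880))) (b (a (l 16783032) (l 16800456)) (a (l 16792896) (l 16810624)))))) (a (b (a (a (b (l 16802344) (l 16785768)) (l 16820248)) (l 16846128)) (a (b (l 16822800) (l 16836648)) (l 16866856))) (a (b (l 16878824) (l 16905752)) (a (l 16917552) (l 16918344))))) (a (a (b (a (l 3) (b (b (l 3) (l 246591483799))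 (a (l 291688663015) (l 263234440759)))) (a (b (l 3) (a (l 3) (l 214916106359))) (b (a (l 243370227335) (l 16775688)) (b (l 16773400) (l 16774184))))) (b (a (a (b (a (l 282561826087) (l 16775448)) (l 16781976)) (b (l 16786728) (l 16797552))) (a (b (l 16804720) (l 16811736)) (l 16825216))) (a (b (a (l 16788400) (l 16802688)) (b (l 16800192) (l 16802720))) (l 16836296)))) (a (b (a (l 16854584) (l 16897112)) (a (l 16880496) (l 16926840))) (b (a (l 16937272) (l 16973616)) (l 17004520)))))), by decide +kernel⟩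

def k4_pm_213 : ∃ t, chk3 f_pm_213 t 1 7 1 = true :=
  ⟨(a (a (l 3) (b (b (l 3) (a (l 3) (a (l 3) (b (a (l 3) (l 224042819943)) (a (l 189146177815) (l 16675992)))))) (b (b (a (l 1) (a (a (l 3) (l 162839470087)) (a (l 172503167591) (l 16665360)))) (l 1)) (l 1)))) (a (b (b (a (a (b (a (l 204178661735) (l 227800961559)) (a (l 206862981063) (l 16745832))) (b (b (l 16775432) (l 16776840)) (b (l 16776248) (l 16773152)))) (a (b (a (l 16798224) (l 16819904)) (l 16816352)) (l 16858056))) (a (a (b (a (l 16711952) (l 16729736)) (a (l 16693416) (l 16708112))) (b (a (l 16744352) (l 16763200)) (l 16730120))) (a (l 16776208) (l 16821944)))) (b (a (a (b (a (l 16682616) (l 16695320)) (l 1)) (l 16708976)) (a (l 16723504) (l 16748064))) (l 1))) (b (a (a (b (l 16909896) (l 16879848)) (b (l 16965088) (l 16970064))) (b (l 17058552) (l 17104768))) (a (b (l 16812632) (a (l 16709592) (l 16732784))) (b (l 16964560) (l 16806240)))))), by decide +kernel⟩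

theorem s5_pm_213 : ∃ t, chk3 f_pm_213 t 1 3 1 = true := ex3_b k3_pm_213 k4_pm_213

theorem s6_pm_213 : ∃ t, chk3 f_pm_213 t 3 2 1 = true := ex3_b k1_pm_213 k2_pm_213

theorem s7_pm_213 : ∃ t, chk3 f_pm_213 t 1 2 1 = true := ex3_a k0_pm_213 s6_pm_213

theorem s8_pm_213 : ∃ t, chk3 f_pm_213 t 1 1 1 = true := ex3_b s7_pm_213 s5_pm_213

theorem c_pm_213 : CertB 0 536870912 0 1230186008 649613803 48318383 3 eng mog cd0q2 cd6q3 pd1 false true false .pnn 2 1 3
    ndB0q2 ndB6q3 pcB1 cut_pm_213 Ext.none :=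
  certB0 (fam := false) (s1 := true) (s2 := false) (a := 2) (b := 1) (c := 3) (cn := .pnn) (n1 := ndB0q2) (n2 := ndB6q3) (pc := pcB1) (cut := cut_pm_213) (xt := Ext.none) (P1 := 0) (W1 := 536870912) (P2 := 0) (W2 := 1230186008) (P3 := 649613803) (W3 := 48318383) (N0 := 3) (En := eng) (mo := mog) (C1 := cd0q2) (C2 := cd6q3) (C3 := pd1)
    rfl s8_pm_213

noncomputable def f_mm_001 : ℕ → ℕ → ℕ → ℕ → Bool := onCell 0 536870912 0 536870912 649613803 48318383
    (rowB 3 eng mog cd0q0 cd6q1 pd0 1 false false false .up 0 0 1 (qsf 0 536870912 536870912 536870912 0) ndB0q0 ndB6q1 pcB0 Cut.none Ext.none)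

def k0_mm_001 : ∃ t, chk3 f_mm_001 t 1 1 1 = true :=
  ⟨(l 3), by decide +kernel⟩

theorem c_mm_001 : CertB 0 536870912 536870912 536870912 649613803 48318383 3 eng mog cd0q0 cd6q1 pd0 false false false .up 0 0 1
    ndB0q0 ndB6q1 pcB0 Cut.none Ext.none :=
  certB1 (fam := false) (s1 := false) (s2 := false) (a := 0) (b := 0) (c := 1) (cn := .up) (n1 := ndB0q0) (n2 := ndB6q1) (pc := pcB0) (cut := Cut.none) (xt := Ext.none) (P1 := 0) (W1 := 536870912) (P2 := 536870912) (W2 := 536870912) (P3 := 649613803) (W3 := 48318383) (N0 := 3) (En := eng) (mo := mog) (C1 := cd0q0) (C2 := cd6q1) (C3 := pd0)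
    rfl (fun _ => rfl) k0_mm_001

noncomputable def f_mm_011 : ℕ → ℕ → ℕ → ℕ → Bool := onCell 0 536870912 536870912 536870912 649613803 48318383
    (rowB 3 eng mog cd0q0 cd6q1 pd1 1 false false false .pnn 0 1 1 (qsf 0 536870912 536870912 536870912 1) ndB0q0 ndB6q1 pcB1 Cut.none Ext.none)

def k0_mm_011 : ∃ t, chk3 f_mm_011 t 1 1 1 = true :=
  ⟨(l 5), by decide +kernel⟩

theorem c_mm_011 : CertB 0 536870912 536870912 536870912 649613803 48318383 3 eng mog cd0q0 cd6q1 pd1 false false false .pnn 0 1 1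
    ndB0q0 ndB6q1 pcB1 Cut.none Ext.none :=
  certB1 (fam := false) (s1 := false) (s2 := false) (a := 0) (b := 1) (c := 1) (cn := .pnn) (n1 := ndB0q0) (n2 := ndB6q1) (pc := pcB1) (cut := Cut.none) (xt := Ext.none) (P1 := 0) (W1 := 536870912) (P2 := 536870912) (W2 := 536870912) (P3 := 649613803) (W3 := 48318383) (N0 := 3) (En := eng) (mo := mog) (C1 := cd0q0) (C2 := cd6q1) (C3 := pd1)
    rfl (fun _ => rfl) k0_mm_011

noncomputable def f_mm_012 : ℕ → ℕ → ℕ → ℕ → Bool := onCell 0 536870912 1073741824 536870912 649613803 48318383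
    (rowB 3 eng mog cd0q0 cd6q2 pd1 0 false false false .pnp 0 1 2 (qsf 0 536870912 1073741824 536870912 1) ndB0q0 ndB6q2 pcB1 Cut.none Ext.none)

def k0_mm_012 : ∃ t, chk3 f_mm_012 t 1 1 1 = true :=
  ⟨(l 5), by decide +kernel⟩

theorem c_mm_012 : CertB 0 536870912 1073741824 536870912 649613803 48318383 3 eng mog cd0q0 cd6q2 pd1 false false false .pnp 0 1 2
    ndB0q0 ndB6q2 pcB1 Cut.none Ext.none :=
  certB0 (fam := false) (s1 := false) (s2 := false) (a := 0) (b := 1) (c := 2) (cn := .pnp) (n1 := ndB0q0) (n2 := ndB6q2) (pc := pcB1) (cut := Cut.none) (xt := Ext.none) (P1 := 0) (W1 := 536870912) (P2 := 1073741824) (W2 := 536870912) (P3 := 649613803) (W3 := 48318383) (N0 := 3) (En := eng) (mo := mog) (C1 := cd0q0) (C2 := cd6q2) (C3 := pd1)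
    rfl k0_mm_012

noncomputable def f_mm_022 : ℕ → ℕ → ℕ → ℕ → Bool := onCell 0 536870912 1073741824 536870912 649613803 48318383
    (rowB 3 eng mog cd0q0 cd6q2 pd2 0 false false false .pp 0 2 2 (qsf 0 536870912 1073741824 536870912 2) ndB0q0 ndB6q2 pcB2 Cut.none Ext.none)

def k0_mm_022 : ∃ t, chk3 f_mm_022 t 1 1 1 = true :=
  ⟨(l 5), by decide +kernel⟩

theorem c_mm_022 : CertB 0 536870912 1073741824 536870912 649613803 48318383 3 eng mog cd0q0 cd6q2 pd2 false false false .pp 0 2 2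
    ndB0q0 ndB6q2 pcB2 Cut.none Ext.none :=
  certB0 (fam := false) (s1 := false) (s2 := false) (a := 0) (b := 2) (c := 2) (cn := .pp) (n1 := ndB0q0) (n2 := ndB6q2) (pc := pcB2) (cut := Cut.none) (xt := Ext.none) (P1 := 0) (W1 := 536870912) (P2 := 1073741824) (W2 := 536870912) (P3 := 649613803) (W3 := 48318383) (N0 := 3) (En := eng) (mo := mog) (C1 := cd0q0) (C2 := cd6q2) (C3 := pd2)
    rfl k0_mm_022

noncomputable def f_mm_023 : ℕ → ℕ → ℕ → ℕ → Bool := onCell 0 536870912 0 1230186008 649613803 48318383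
    (rowB 3 eng mog cd0q0 cd6q3 pd2 0 false false false .up 0 2 3 (qsf 0 536870912 0 1230186008 2) ndB0q0 ndB6q3 pcB2 Cut.none Ext.none)

def k0_mm_023 : ∃ t, chk3 f_mm_023 t 1 1 1 = true :=
  ⟨(l 5), by decide +kernel⟩

theorem c_mm_023 : CertB 0 536870912 0 1230186008 649613803 48318383 3 eng mog cd0q0 cd6q3 pd2 false false false .up 0 2 3
    ndB0q0 ndB6q3 pcB2 Cut.none Ext.none :=
  certB0 (fam := false) (s1 := false) (s2 := false) (a := 0) (b := 2) (c := 3) (cn := .up) (n1 := ndB0q0) (n2 := ndB6q3) (pc := pcB2) (cut := Cut.none) (xt := Ext.none) (P1 := 0) (W1 := 536870912) (P2 := 0) (W2 := 1230186008) (P3 := 649613803) (W3 := 48318383) (N0 := 3) (En := eng) (mo := mog) (C1 := cd0q0) (C2 := cd6q3) (C3 := pd2)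
    rfl k0_mm_023

noncomputable def f_mm_033 : ℕ → ℕ → ℕ → ℕ → Bool := onCell 0 536870912 0 1230186008 649613803 48318383
    (rowB 3 eng mog cd0q0 cd6q3 pd3 0 false false false .pnn 0 3 3 (qsf 0 536870912 0 1230186008 3) ndB0q0 ndB6q3 pcB3 Cut.none Ext.none)

def k0_mm_033 : ∃ t, chk3 f_mm_033 t 1 1 1 = true :=
  ⟨(l 5), by decide +kernel⟩

theorem c_mm_033 : CertB 0 536870912 0 1230186008 649613803 48318383 3 eng mog cd0q0 cd6q3 pd3 false false false .pnn 0 3 3
    ndB0q0 ndB6q3 pcB3 Cut.none Ext.none :=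
  certB0 (fam := false) (s1 := false) (s2 := false) (a := 0) (b := 3) (c := 3) (cn := .pnn) (n1 := ndB0q0) (n2 := ndB6q3) (pc := pcB3) (cut := Cut.none) (xt := Ext.none) (P1 := 0) (W1 := 536870912) (P2 := 0) (W2 := 1230186008) (P3 := 649613803) (W3 := 48318383) (N0 := 3) (En := eng) (mo := mog) (C1 := cd0q0) (C2 := cd6q3) (C3 := pd3)
    rfl k0_mm_033

noncomputable def cut_mm_101 : Cut := Cut.of [[⟨0, 1, 0, 67108864⟩, ⟨1, 0, 0, 67108864⟩, ⟨2, 1, 0, 67108864⟩]]

noncomputable def f_mm_101 : ℕ → ℕ → ℕ → ℕ → Bool := onCell 536870912 536870912 0 536870912 649613803 48318383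
    (rowB 3 eng mog cd0q1 cd6q1 pd0 1 false false false .npn 1 0 1 (qsf 536870912 536870912 536870912 536870912 0) ndB0q1 ndB6q1 pcB0 cut_mm_101 Ext.none)

def k0_mm_101 : ∃ t, chk3 f_mm_101 t 1 1 1 = true :=
  ⟨(a (l 3) (b (a (l 3) (b (a (l 3) (b (a (l 3) (b (l 6) (l 3))) (l 3))) (l 3))) (l 3))), by decide +kernel⟩

theorem c_mm_101 : CertB 536870912 536870912 536870912 536870912 649613803 48318383 3 eng mog cd0q1 cd6q1 pd0 false false false .npn 1 0 1
    ndB0q1 ndB6q1 pcB0 cut_mm_101 Ext.none :=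
  certB1 (fam := false) (s1 := false) (s2 := false) (a := 1) (b := 0) (c := 1) (cn := .npn) (n1 := ndB0q1) (n2 := ndB6q1) (pc := pcB0) (cut := cut_mm_101) (xt := Ext.none) (P1 := 536870912) (W1 := 536870912) (P2 := 536870912) (W2 := 536870912) (P3 := 649613803) (W3 := 48318383) (N0 := 3) (En := eng) (mo := mog) (C1 := cd0q1) (C2 := cd6q1) (C3 := pd0)
    rfl (fun _ => rfl) k0_mm_101

noncomputable def f_mm_102 : ℕ → ℕ → ℕ → ℕ → Bool := onCell 536870912 536870912 1073741824 536870912 649613803 48318383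
    (rowB 3 eng mog cd0q1 cd6q2 pd0 0 false false false .npp 1 0 2 (qsf 536870912 536870912 1073741824 536870912 0) ndB0q1 ndB6q2 pcB0 Cut.none Ext.none)

def k0_mm_102 : ∃ t, chk3 f_mm_102 t 1 1 1 = true :=
  ⟨(l 3), by decide +kernel⟩

theorem c_mm_102 : CertB 536870912 536870912 1073741824 536870912 649613803 48318383 3 eng mog cd0q1 cd6q2 pd0 false false false .npp 1 0 2
    ndB0q1 ndB6q2 pcB0 Cut.none Ext.none :=
  certB0 (fam := false) (s1 := false) (s2 := false) (a := 1) (b := 0) (c := 2) (cn := .npp) (n1 := ndB0q1) (n2 := ndB6q2) (pc := pcB0) (cut := Cut.none) (xt := Ext.none) (P1 := 536870912) (W1 := 536870912) (P2 := 1073741824) (W2 := 536870912) (P3 := 649613803) (W3 := 48318383) (N0 := 3) (En := eng) (mo := mog) (C1 := cd0q1) (C2 := cd6q2) (C3 := pd0)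
    rfl k0_mm_102

noncomputable def f_mm_112 : ℕ → ℕ → ℕ → ℕ → Bool := onCell 536870912 536870912 1073741824 536870912 649613803 48318383
    (rowB 3 eng mog cd0q1 cd6q2 pd1 0 false false false .dn 1 1 2 (qsf 536870912 536870912 1073741824 536870912 1) ndB0q1 ndB6q2 pcB1 Cut.none Ext.none)

def k0_mm_112 : ∃ t, chk3 f_mm_112 t 1 1 1 = true :=
  ⟨(l 3), by decide +kernel⟩

theorem c_mm_112 : CertB 536870912 536870912 1073741824 536870912 649613803 48318383 3 eng mog cd0q1 cd6q2 pd1 false false false .dn 1 1 2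
    ndB0q1 ndB6q2 pcB1 Cut.none Ext.none :=
  certB0 (fam := false) (s1 := false) (s2 := false) (a := 1) (b := 1) (c := 2) (cn := .dn) (n1 := ndB0q1) (n2 := ndB6q2) (pc := pcB1) (cut := Cut.none) (xt := Ext.none) (P1 := 536870912) (W1 := 536870912) (P2 := 1073741824) (W2 := 536870912) (P3 := 649613803) (W3 := 48318383) (N0 := 3) (En := eng) (mo := mog) (C1 := cd0q1) (C2 := cd6q2) (C3 := pd1)
    rfl k0_mm_112

noncomputable def f_mm_113 : ℕ → ℕ → ℕ → ℕ → Bool := onCell 536870912 536870912 0 1230186008 649613803 48318383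
    (rowB 3 eng mog cd0q1 cd6q3 pd1 0 false false false .nn 1 1 3 (qsf 536870912 536870912 0 1230186008 1) ndB0q1 ndB6q3 pcB1 Cut.none Ext.none)

def k0_mm_113 : ∃ t, chk3 f_mm_113 t 1 1 1 = true :=
  ⟨(b (l 5) (b (l 5) (a (l 5) (l 3)))), by decide +kernel⟩

theorem c_mm_113 : CertB 536870912 536870912 0 1230186008 649613803 48318383 3 eng mog cd0q1 cd6q3 pd1 false false false .nn 1 1 3
    ndB0q1 ndB6q3 pcB1 Cut.none Ext.none :=
  certB0 (fam := false) (s1 := false) (s2 := false) (a := 1) (b := 1) (c := 3) (cn := .nn) (n1 := ndB0q1) (n2 := ndB6q3) (pc := pcB1) (cut := Cut.none) (xt := Ext.none) (P1 := 536870912) (W1 := 536870912) (P2 := 0) (W2 := 1230186008) (P3 := 649613803) (W3 := 48318383) (N0 := 3) (En := eng) (mo := mog) (C1 := cd0q1) (C2 := cd6q3) (C3 := pd1)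
    rfl k0_mm_113

noncomputable def f_mm_123 : ℕ → ℕ → ℕ → ℕ → Bool := onCell 1073741824 536870912 0 1230186008 649613803 48318383
    (rowB 3 eng mog cd0q1 cd6q3 pd2 2 false false false .npn 1 2 3 (qsf 536870912 536870912 0 1230186008 2) ndB0q1 ndB6q3 pcB2 Cut.none Ext.none)

def k0_mm_123 : ∃ t, chk3 f_mm_123 t 1 1 1 = true :=
  ⟨(b (l 5) (l 5)), by decide +kernel⟩

theorem c_mm_123 : CertB 536870912 536870912 0 1230186008 649613803 48318383 3 eng mog cd0q1 cd6q3 pd2 false false false .npn 1 2 3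
    ndB0q1 ndB6q3 pcB2 Cut.none Ext.none :=
  certB2 (fam := false) (s1 := false) (s2 := false) (a := 1) (b := 2) (c := 3) (cn := .npn) (n1 := ndB0q1) (n2 := ndB6q3) (pc := pcB2) (cut := Cut.none) (xt := Ext.none) (P1 := 536870912) (W1 := 536870912) (P2 := 0) (W2 := 1230186008) (P3 := 649613803) (W3 := 48318383) (N0 := 3) (En := eng) (mo := mog) (C1 := cd0q1) (C2 := cd6q3) (C3 := pd2)
    rfl (fun _ => rfl) k0_mm_123

noncomputable def f_mm_133 : ℕ → ℕ → ℕ → ℕ → Bool := onCell 1610612736 536870912 0 1230186008 649613803 48318383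
    (rowB 3 eng mog cd0q1 cd6q3 pd3 2 false false false .dn 1 3 3 (qsf 536870912 536870912 0 1230186008 3) ndB0q1 ndB6q3 pcB3 Cut.none Ext.none)

def k0_mm_133 : ∃ t, chk3 f_mm_133 t 1 1 1 = true :=
  ⟨(l 5), by decide +kernel⟩

theorem c_mm_133 : CertB 536870912 536870912 0 1230186008 649613803 48318383 3 eng mog cd0q1 cd6q3 pd3 false false false .dn 1 3 3
    ndB0q1 ndB6q3 pcB3 Cut.none Ext.none :=
  certB2 (fam := false) (s1 := false) (s2 := false) (a := 1) (b := 3) (c := 3) (cn := .dn) (n1 := ndB0q1) (n2 := ndB6q3) (pc := pcB3) (cut := Cut.none) (xt := Ext.none) (P1 := 536870912) (W1 := 536870912) (P2 := 0) (W2 := 1230186008) (P3 := 649613803) (W3 := 48318383) (N0 := 3) (En := eng) (mo := mog) (C1 := cd0q1) (C2 := cd6q3) (C3 := pd3)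
    rfl (fun _ => rfl) k0_mm_133

noncomputable def f_mm_202 : ℕ → ℕ → ℕ → ℕ → Bool := onCell 0 536870912 0 536870912 649613803 48318383
    (rowB 3 eng mog cd0q2 cd6q2 pd0 1 false false false .pp 2 0 2 (qsf 0 536870912 1073741824 536870912 0) ndB0q2 ndB6q2 pcB0 Cut.none Ext.none)

def k0_mm_202 : ∃ t, chk3 f_mm_202 t 1 1 1 = true :=
  ⟨(b (l 3) (l 3)), by decide +kernel⟩

theorem c_mm_202 : CertB 0 536870912 1073741824 536870912 649613803 48318383 3 eng mog cd0q2 cd6q2 pd0 false false false .pp 2 0 2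
    ndB0q2 ndB6q2 pcB0 Cut.none Ext.none :=
  certB1 (fam := false) (s1 := false) (s2 := false) (a := 2) (b := 0) (c := 2) (cn := .pp) (n1 := ndB0q2) (n2 := ndB6q2) (pc := pcB0) (cut := Cut.none) (xt := Ext.none) (P1 := 0) (W1 := 536870912) (P2 := 1073741824) (W2 := 536870912) (P3 := 649613803) (W3 := 48318383) (N0 := 3) (En := eng) (mo := mog) (C1 := cd0q2) (C2 := cd6q2) (C3 := pd0)
    rfl (fun _ => rfl) k0_mm_202

noncomputable def f_mm_203 : ℕ → ℕ → ℕ → ℕ → Bool := onCell 0 536870912 0 1230186008 649613803 48318383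
    (rowB 3 eng mog cd0q2 cd6q3 pd0 0 false false false .up 2 0 3 (qsf 0 536870912 0 1230186008 0) ndB0q2 ndB6q3 pcB0 Cut.none Ext.none)

def k0_mm_203 : ∃ t, chk3 f_mm_203 t 1 1 1 = true :=
  ⟨(b (l 2) (l 3)), by decide +kernel⟩

theorem c_mm_203 : CertB 0 536870912 0 1230186008 649613803 48318383 3 eng mog cd0q2 cd6q3 pd0 false false false .up 2 0 3
    ndB0q2 ndB6q3 pcB0 Cut.none Ext.none :=
  certB0 (fam := false) (s1 := false) (s2 := false) (a := 2) (b := 0) (c := 3) (cn := .up) (n1 := ndB0q2) (n2 := ndB6q3) (pc := pcB0) (cut := Cut.none) (xt := Ext.none) (P1 := 0) (W1 := 536870912) (P2 := 0) (W2 := 1230186008) (P3 := 649613803) (W3 := 48318383) (N0 := 3) (En := eng) (mo := mog) (C1 := cd0q2) (C2 := cd6q3) (C3 := pd0)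
    rfl k0_mm_203

noncomputable def f_mm_213 : ℕ → ℕ → ℕ → ℕ → Bool := onCell 0 536870912 0 1230186008 649613803 48318383
    (rowB 3 eng mog cd0q2 cd6q3 pd1 0 false false false .pnn 2 1 3 (qsf 0 536870912 0 1230186008 1) ndB0q2 ndB6q3 pcB1 Cut.none Ext.none)

def k0_mm_213 : ∃ t, chk3 f_mm_213 t 1 1 1 = true :=
  ⟨(b (a (l 3) (l 5)) (l 3)), by decide +kernel⟩

theorem c_mm_213 : CertB 0 536870912 0 1230186008 649613803 48318383 3 eng mog cd0q2 cd6q3 pd1 false false false .pnn 2 1 3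
    ndB0q2 ndB6q3 pcB1 Cut.none Ext.none :=
  certB0 (fam := false) (s1 := false) (s2 := false) (a := 2) (b := 1) (c := 3) (cn := .pnn) (n1 := ndB0q2) (n2 := ndB6q3) (pc := pcB1) (cut := Cut.none) (xt := Ext.none) (P1 := 0) (W1 := 536870912) (P2 := 0) (W2 := 1230186008) (P3 := 649613803) (W3 := 48318383) (N0 := 3) (En := eng) (mo := mog) (C1 := cd0q2) (C2 := cd6q3) (C3 := pd1)
    rfl k0_mm_213

end Pool.Agent.Strip051.G.I6050_6500.Tab.C.BB06

namespace Pool.Agent.Strip051.G.I6050_6500.Tab.C.BB07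

open Pool.Agent.Strip051.PB Pool.Agent.Strip051.PB.T
open Pool.Agent.Strip051.G.I6050_6500.Tab

noncomputable def f_pp_001 : ℕ → ℕ → ℕ → ℕ → Bool := onCell 0 536870912 0 536870912 649613803 48318383
    (rowB 3 eng mog cd0q0 cd7q1 pd0 1 false true true .up 0 0 1 (qsf 0 536870912 536870912 536870912 0) ndB0q0 ndB7q1 pcB0 Cut.none Ext.none)

def k0_pp_001 : ∃ t, chk3 f_pp_001 t 1 1 1 = true :=
  ⟨(l 3), by decide +kernel⟩

theorem c_pp_001 : CertB 0 536870912 536870912 536870912 649613803 48318383 3 eng mog cd0q0 cd7q1 pd0 false true true .up 0 0 1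
    ndB0q0 ndB7q1 pcB0 Cut.none Ext.none :=
  certB1 (fam := false) (s1 := true) (s2 := true) (a := 0) (b := 0) (c := 1) (cn := .up) (n1 := ndB0q0) (n2 := ndB7q1) (pc := pcB0) (cut := Cut.none) (xt := Ext.none) (P1 := 0) (W1 := 536870912) (P2 := 536870912) (W2 := 536870912) (P3 := 649613803) (W3 := 48318383) (N0 := 3) (En := eng) (mo := mog) (C1 := cd0q0) (C2 := cd7q1) (C3 := pd0)
    rfl (fun _ => rfl) k0_pp_001

noncomputable def cut_pp_011 : Cut := Cut.of [[⟨0, 0, 0, 67108864⟩, ⟨1, 1, 0, 67108864⟩, ⟨2, 1, 0, 67108864⟩]]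

noncomputable def f_pp_011 : ℕ → ℕ → ℕ → ℕ → Bool := onCell 0 536870912 536870912 536870912 649613803 48318383
    (rowB 3 eng mog cd0q0 cd7q1 pd1 1 false true true .pnn 0 1 1 (qsf 0 536870912 536870912 536870912 1) ndB0q0 ndB7q1 pcB1 cut_pp_011 Ext.none)

def k0_pp_011 : ∃ t, chk3 f_pp_011 t 1 1 1 = true :=
  ⟨(b (l 3) (a (b (l 3) (a (b (l 3) (a (b (l 3) (a (l 6) (l 3))) (l 3))) (l 3))) (l 3))), by decide +kernel⟩

theorem c_pp_011 : CertB 0 536870912 536870912 536870912 649613803 48318383 3 eng mog cd0q0 cd7q1 pd1 false true true .pnn 0 1 1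
    ndB0q0 ndB7q1 pcB1 cut_pp_011 Ext.none :=
  certB1 (fam := false) (s1 := true) (s2 := true) (a := 0) (b := 1) (c := 1) (cn := .pnn) (n1 := ndB0q0) (n2 := ndB7q1) (pc := pcB1) (cut := cut_pp_011) (xt := Ext.none) (P1 := 0) (W1 := 536870912) (P2 := 536870912) (W2 := 536870912) (P3 := 649613803) (W3 := 48318383) (N0 := 3) (En := eng) (mo := mog) (C1 := cd0q0) (C2 := cd7q1) (C3 := pd1)
    rfl (fun _ => rfl) k0_pp_011

noncomputable def f_pp_012 : ℕ → ℕ → ℕ → ℕ → Bool := onCell 0 536870912 536870912 536870912 649613803 48318383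
    (rowB 3 eng mog cd0q0 cd7q2 pd1 1 false true true .pnp 0 1 2 (qsf 0 536870912 1073741824 536870912 1) ndB0q0 ndB7q2 pcB1 Cut.none Ext.none)

def k0_pp_012 : ∃ t, chk3 f_pp_012 t 1 1 1 = true :=
  ⟨(l 3), by decide +kernel⟩

theorem c_pp_012 : CertB 0 536870912 1073741824 536870912 649613803 48318383 3 eng mog cd0q0 cd7q2 pd1 false true true .pnp 0 1 2
    ndB0q0 ndB7q2 pcB1 Cut.none Ext.none :=
  certB1 (fam := false) (s1 := true) (s2 := true) (a := 0) (b := 1) (c := 2) (cn := .pnp) (n1 := ndB0q0) (n2 := ndB7q2) (pc := pcB1) (cut := Cut.none) (xt := Ext.none) (P1 := 0) (W1 := 536870912) (P2 := 1073741824) (W2 := 536870912) (P3 := 649613803) (W3 := 48318383) (N0 := 3) (En := eng) (mo := mog) (C1 := cd0q0) (C2 := cd7q2) (C3 := pd1)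
    rfl (fun _ => rfl) k0_pp_012

noncomputable def f_pp_022 : ℕ → ℕ → ℕ → ℕ → Bool := onCell 0 536870912 1073741824 536870912 649613803 48318383
    (rowB 3 eng mog cd0q0 cd7q2 pd2 1 false true true .pp 0 2 2 (qsf 0 536870912 1073741824 536870912 2) ndB0q0 ndB7q2 pcB2 Cut.none Ext.none)

def k0_pp_022 : ∃ t, chk3 f_pp_022 t 1 4 1 = true :=
  ⟨(a (b (l 3) (l 3)) (l 3)), by decide +kernel⟩

def k1_pp_022 : ∃ t, chk3 f_pp_022 t 2 40 1 = true :=
  ⟨(a (a (b (a (b (l 3) (a (a (l 16495864) (l 3)) (l 3))) (l 3)) (a (b (a (l 42580016983) (b (l 16494408) (l 16489960))) (a (b (l 16480480) (l 16475912)) (b (l 16485472) (l 16480984)))) (a (b (a (l 16496856) (l 3)) (a (l 16489496) (l 16495976))) (b (l 3) (l 16504768))))) (b (l 3) (a (b (l 3) (l 185387790695)) (l 3)))) (l 3)), by decide +kernel⟩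

def k2_pp_022 : ∃ t, chk3 f_pp_022 t 2 82 1 = true :=
  ⟨(b (a (b (a (a (a (l 16471584) (l 16476808)) (a (l 16487480) (l 16499816))) (a (l 16515824) (l 3))) (a (a (a (l 16467808) (l 16473368)) (a (l 16484488) (l 16496408))) (a (l 16512168) (l 16529248)))) (l 3)) (a (a (a (a (l 16461992) (l 16489536)) (a (l 16480256) (l 16502480))) (a (l 16569872) (c (l 16565168) (l 16522440)))) (a (b (a (l 1144239229719) (l 3)) (a (a (l 16534360) (l 16543664)) (a (l 16553368) (l 3)))) (l 3)))), by decide +kernel⟩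

def k3_pp_022 : ∃ t, chk3 f_pp_022 t 4 83 1 = true :=
  ⟨(b (a (a (a (b (l 16455912) (l 16451568)) (a (l 16500616) (l 16464656))) (a (l 16453064) (l 16485256))) (a (l 16499752) (b (l 16538792) (l 16513936)))) (a (b (b (a (a (l 16447664) (l 16457032)) (l 16475432)) (a (a (l 16444488) (l 16454328)) (l 16494080))) (b (b (b (a (a (l 16442112) (l 16452256)) (l 16471080)) (a (a (c (l 16442480) (l 16439328)) (l 16471784)) (a (l 16442792) (l 16475296)))) (a (a (l 16439184) (l 16449632)) (l 16468496))) (a (a (l 16437584) (l 16448360)) (l 16467128)))) (b (a (l 16556864) (a (l 16505888) (l 16514392))) (a (a (l 16505632) (c (l 16556728) (l 16492720))) (b (b (b (l 16507808) (a (l 16502824) (l 16522104))) (l 16506064)) (l 16504584)))))), by decide +kernel⟩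

def k4_pp_022 : ∃ t, chk3 f_pp_022 t 5 166 1 = true :=
  ⟨(a (a (b (a (l 16530720) (l 16540136)) (a (l 16527200) (l 16536728))) (b (a (c (l 16550480) (l 16548480)) (a (b (l 16558544) (l 16556864)) (b (l 530595805623) (l 16562400)))) (a (a (l 16544152) (l 16549224)) (a (b (l 16555192) (l 16553624)) (b (l 16560816) (l 16559320)))))) (a (a (b (b (l 3) (a (l 16568392) (l 16574424))) (c (b (l 16571352) (l 16569976)) (l 16566752))) (b (l 3) (c (b (l 16584424) (l 16583096)) (l 16578432)))) (b (l 3) (a (c (b (l 16597304) (l 16596104)) (l 16590336)) (b (l 3) (l 16605440)))))), by decide +kernel⟩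

def k5_pp_022 : ∃ t, chk3 f_pp_022 t 5 167 1 = true :=
  ⟨(a (b (b (a (l 16510888) (a (l 16544216) (c (a (l 16552736) (l 16558920)) (l 16553088)))) (a (a (l 16522560) (l 16532208)) (a (l 16542328) (c (c (a (l 16550992) (l 16557560)) (l 16553800)) (l 16551160))))) (b (b (b (a (a (l 16521344) (l 16530992)) (a (l 16541104) (a (l 16549016) (l 16554952)))) (a (a (l 16520904) (l 16530528)) (a (b (l 16540704) (l 16540464)) (a (b (l 16548616) (l 16548368)) (b (l 16554552) (l 16554304)))))) (a (l 16524920) (a (l 16539888) (c (l 16562552) (l 16548520))))) (a (l 16523504) (a (l 16538536) (c (l 16550904) (l 16547216)))))) (a (b (c (b (a (c (l 16569280) (l 16567976)) (l 16602792)) (b (a (l 16567728) (l 16580920)) (a (l 16566848) (l 16580144)))) (b (l 16570208) (b (l 16569064) (l 16568096)))) (b (b (c (b (a (l 16566192) (l 16579448)) (a (b (l 16565840) (l 16565648)) (b (l 16579080) (l 16578864)))) (a (l 16582032) (l 16593960))) (a (l 16562960) (l 16575432))) (a (l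 16561792) (l 16574320)))) (b (b (c (a (l 16594816) (l 16607664)) (l 16594192)) (b (a (l 16590696) (l 16603088)) (a (c (l 16593264) (l 16586304)) (l 16602456)))) (a (c (b (b (b (l 16592640) (b (l 16592248) (l 16592008))) (l 16591544)) (l 16590568)) (l 16605064)) (b (b (b (l 16601928) (b (l 16601488) (l 16601168))) (l 16600672)) (l 16599680)))))), by decide +kernel⟩

def k6_pp_022 : ∃ t, chk3 f_pp_022 t 2 21 1 = true :=
  ⟨(a (b (a (a (a (b (l 16428784) (l 16413840)) (l 16433792)) (a (l 16445976) (l 16456736))) (a (l 16470400) (a (l 16483288) (l 16492760)))) (a (a (a (l 16393296) (l 16405648)) (l 16421280)) (a (l 16458912) (a (l 16452424) (l 16462736))))) (a (a (a (b (l 16502616) (l 16473512)) (b (c (l 16514168) (l 16510496)) (c (c (b (l 16493968) (l 16481464)) (l 16486232)) (l 16482000)))) (b (c (b (a (a (l 16529112) (l 16534568)) (c (l 16565616) (l 16543264))) (a (a (l 16515512) (l 16521888)) (l 16532320))) (a (l 16521248) (l 16532792))) (c (a (c (l 16522888)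 (l 16499472)) (l 16515656)) (a (l 16494168) (l 16507160))))) (a (c (a (b (a (l 16548504) (l 16555464)) (l 16530776)) (b (a (l 16562424) (l 16569376)) (l 16545960))) (a (l 16553608) (l 16566960))) (b (c (a (a (l 16576304) (l 16583208)) (l 16614480)) (l 16598240)) (a (l 16576128) (l 16569880)))))), by decide +kernel⟩

def k7_pp_022 : ∃ t, chk3 f_pp_022 t 2 11 1 = true :=
  ⟨(b (a (a (a (a (l 16351096) (l 16361184)) (c (l 16394280) (l 16371448))) (a (a (l 16428632) (b (l 16412096) (l 16382864))) (a (b (l 16422808) (l 16394688)) (b (l 16434136) (a (l 16404096) (l 16410856)))))) (a (a (a (b (c (a (l 16445360) (l 16452096)) (l 16442776)) (c (l 16425752) (l 16416968))) (c (b (l 16505264) (l 16442576)) (l 16443184))) (a (c (b (l 16479168) (l 16459872)) (l 16457624)) (b (l 16489760) (l 16470088)))) (a (a (b (l 16505384) (l 16487112)) (b (l 16521248) (l 16504208))) (b (a (l 16537160) (l 16552992)) (l 16529736))))) (a (a (a (c (l 16293344) (l 16291016)) (b (l 16326360)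 (l 16276232))) (a (a (l 16329080) (b (l 16355192) (l 16329624))) (b (c (a (l 16371848) (l 16388080)) (l 16371240)) (a (l 16345488) (l 16362864))))) (a (c (a (a (l 16417952) (l 16416136)) (b (l 16452536) (l 16438872))) (a (l 16412064) (l 16425752))) (a (a (l 16463856) (l 16482768)) (l 16511136))))), by decide +kernel⟩

def k8_pp_022 : ∃ t, chk3 f_pp_022 t 3 5 1 = true :=
  ⟨(b (b (b (l 3) (b (l 3) (a (b (a (l 3) (l 3)) (a (b (b (a (a (l 16616408) (l 16628232)) (l 3)) (b (a (a (l 16615416) (l 16627280)) (l 16643632)) (a (a (l 16614776) (l 16626640)) (l 16664000)))) (a (b (b (b (a (l 16614352) (l 16626224)) (b (a (l 16614072) (l 16626040)) (a (l 16613760) (b (b (l 16625944) (l 16625864)) (l 16625768))))) (a (l 16613272) (l 16625440))) (a (l 16612344) (l 16624576))) (b (b (b (l 16642600) (b (l 16642416) (a (c (l 16641376) (l 16633016)) (l 16647384)))) (l 16642024)) (l 16641224)))) (a (b (l 3) (b (b (b (l 4304798596311) (a (b (l 16656832) (c (l 16661096) (l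 16652768))) (b (l 16665104) (b (b (l 16665032) (l 16665008)) (l 16664976))))) (a (l 16656448) (l 16664720))) (a (l 16655736) (l 16664056)))) (b (l 3) (b (a (b (b (l 3) (b (l 3) (b (b (l 126801990871) (l 127338861735)) (l 127338861575)))) (l 126801990775)) (l 2)) (a (l 126265119447) (l 2))))))) (l 2)))) (a (a (a (a (b (l 16644088) (l 16584400)) (b (l 16614936) (l 16598328))) (b (a (l 16626840) (l 16637856)) (l 16617632))) (a (b (a (l 16647904) (b (l 16660152) (l 16653640))) (l 52176944647)) (b (a (b (l 120896414887) (l 2)) (l 2)) (l 2)))) (l 2))) (a (a (a (b (a (l 16561656) (l 16577472)) (l 16548624)) (b (l 16620520) (l 16583784))) (b (a (b (l 16629720) (l 2)) (l 2)) (l 2))) (l 2))), by decide +kernel⟩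

def k9_pp_022 : ∃ t, chk3 f_pp_022 t 1 3 1 = true :=
  ⟨(a (a (b (a (b (a (b (b (l 16246464) (l 16217720)) (a (l 16171016) (l 16206688))) (b (a (l 16249968) (b (l 16276200) (l 16251624))) (a (l 16223392) (l 16221424)))) (a (b (a (l 16124888) (l 16145496)) (l 16106104)) (b (l 16179976) (l 16160864)))) (b (a (b (c (a (l 16326192) (l 16303464)) (l 16397072)) (a (l 16242456) (l 16264600))) (b (b (l 16355928) (l 16318576)) (l 16299064))) (a (b (l 16230176) (l 16218936)) (b (l 16282704) (l 16278352))))) (b (a (a (l 16130584) (l 16157224)) (a (l 16227024) (l 16296400))) (a (a (l 16117848) (l 16203712)) (b (l 16304704) (l 2))))) (b (b (a (b (a (b (l 16374384) (l 16361064)) (l 16430280)) (a (l 16345976) (l 16393392))) (b (a (l 16452064) (l 16495160)) (a (l 16441504) (l 16489824)))) (a (b (a (l 16335648) (l 16388768)) (l 16367072)) (b (l 16468632) (l 2)))) (b (a (b (l 16383840) (l 2)) (l 2)) (l 2)))) (b (a (b (a (b (a (l 16537904) (l 2)) (l 2)) (l 2)) (l 2)) (l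 2)) (l 2))), by decide +kernel⟩

theorem s10_pp_022 : ∃ t, chk3 f_pp_022 t 5 83 1 = true := ex3_b k4_pp_022 k5_pp_022

theorem s11_pp_022 : ∃ t, chk3 f_pp_022 t 2 83 1 = true := ex3_a k3_pp_022 s10_pp_022

theorem s12_pp_022 : ∃ t, chk3 f_pp_022 t 2 41 1 = true := ex3_b k2_pp_022 s11_pp_022

theorem s13_pp_022 : ∃ t, chk3 f_pp_022 t 2 20 1 = true := ex3_b k1_pp_022 s12_pp_022

theorem s14_pp_022 : ∃ t, chk3 f_pp_022 t 2 10 1 = true := ex3_b s13_pp_022 k6_pp_022

theorem s15_pp_022 : ∃ t, chk3 f_pp_022 t 2 5 1 = true := ex3_b s14_pp_022 k7_pp_022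

theorem s16_pp_022 : ∃ t, chk3 f_pp_022 t 1 5 1 = true := ex3_a s15_pp_022 k8_pp_022

theorem s17_pp_022 : ∃ t, chk3 f_pp_022 t 1 2 1 = true := ex3_b k0_pp_022 s16_pp_022

theorem s18_pp_022 : ∃ t, chk3 f_pp_022 t 1 1 1 = true := ex3_b s17_pp_022 k9_pp_022

theorem c_pp_022 : CertB 0 536870912 1073741824 536870912 649613803 48318383 3 eng mog cd0q0 cd7q2 pd2 false true true .pp 0 2 2
    ndB0q0 ndB7q2 pcB2 Cut.none Ext.none :=
  certB1 (fam := false) (s1 := true) (s2 := true) (a := 0) (b := 2) (c := 2) (cn := .pp) (n1 := ndB0q0) (n2 := ndB7q2) (pc := pcB2) (cut := Cut.none) (xt := Ext.none) (P1 := 0) (W1 := 536870912) (P2 := 1073741824) (W2 := 536870912) (P3 := 649613803) (W3 := 48318383) (N0 := 3) (En := eng) (mo := mog) (C1 := cd0q0) (C2 := cd7q2) (C3 := pd2)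
    rfl (fun _ => rfl) s18_pp_022

noncomputable def f_pp_023 : ℕ → ℕ → ℕ → ℕ → Bool := onCell 1073741824 536870912 0 1230186008 649613803 48318383
    (rowB 3 eng mog cd0q0 cd7q3 pd2 2 false true true .up 0 2 3 (qsf 0 536870912 0 1230186008 2) ndB0q0 ndB7q3 pcB2 Cut.none Ext.none)

def k0_pp_023 : ∃ t, chk3 f_pp_023 t 1 2 1 = true :=
  ⟨(a (l 2) (a (l 2) (b (a (l 2) (l 16700048)) (b (a (l 16756080) (l 16775576)) (a (l 16756272) (l 16782440)))))), by decide +kernel⟩

def k1_pp_023 : ∃ t, chk3 f_pp_023 t 2 3 1 = true :=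
  ⟨(a (b (l 2) (l 3)) (b (a (l 2) (b (l 2) (b (l 2) (l 302359116583)))) (a (a (a (b (l 3) (l 3)) (b (b (l 2) (b (l 2) (a (l 3) (a (a (l 16701296) (l 16697240)) (a (a (l 16694312) (l 16692472)) (l 16690152)))))) (a (l 3) (b (a (b (a (l 3) (l 16682392)) (l 3)) (a (a (b (l 16679528) (l 16668048)) (b (l 16677696) (l 16666200))) (a (a (a (b (l 16676632) (l 16665040)) (b (l 16676328) (a (l 16664704) (l 16664496)))) (b (l 16675768) (l 16663952))) (b (l 16674448) (l 16662616))))) (a (l 3) (a (a (l 3) (b (l 16667824) (l 3))) (a (a (a (b (l 16667416) (l 3)) (a (b (l 16667320) (l 16672680)) (b (l 16667168) (l 16693496)))) (b (l 16666960) (l 16672184))) (b (l 16666552) (l 16671368))))))))) (b (b (l 544487663191) (b (a (l 16697656) (l 16678208)) (l 16663360))) (b (b (a (l 16659112) (l 16648360)) (l 16694016)) (b (l 16708696) (a (l 16651432) (l 16643056)))))) (a (b (b (l 16633440) (b (l 16663080) (l 16654760))) (b (b (l 16648312) (l 16640520)) (b (l 16629520) (l 16611840))))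 (b (b (l 16711552) (l 16666496)) (b (l 16650464) (b (l 16595304) (l 16565064)))))))), by decide +kernel⟩

def k2_pp_023 : ∃ t, chk3 f_pp_023 t 3 3 1 = true :=
  ⟨(b (a (b (a (l 2) (b (l 16740568) (l 16735936))) (a (b (l 16741640) (a (l 16739608) (l 16730352))) (b (l 16729104) (l 16715592)))) (b (a (a (l 16741296) (l 16744888)) (b (l 16760816) (l 16735160))) (a (b (l 16719336) (l 16685408)) (b (l 16693632) (l 16634888))))) (b (a (a (b (b (l 16721040) (l 16763744)) (a (l 16643360) (l 16651192))) (b (a (l 16690776) (l 16670720)) (b (l 16632224) (l 16590280)))) (a (b (a (l 16642672) (l 16607336)) (l 16556896)) (b (l 16547672) (l 16446920)))) (a (b (a (a (l 16584472) (l 16574080)) (b (l 16540992) (l 16488992))) (a (b (l 16573360) (a (l 16514728) (l 16462376))) (b (l 16436128) (l 16385024)))) (b (a (l 16534368) (l 16343616)) (a (b (l 16341976) (l 16284080)) (l 16217672)))))), by decide +kernel⟩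

theorem s3_pp_023 : ∃ t, chk3 f_pp_023 t 1 3 1 = true := ex3_a k1_pp_023 k2_pp_023

theorem s4_pp_023 : ∃ t, chk3 f_pp_023 t 1 1 1 = true := ex3_b k0_pp_023 s3_pp_023

theorem c_pp_023 : CertB 0 536870912 0 1230186008 649613803 48318383 3 eng mog cd0q0 cd7q3 pd2 false true true .up 0 2 3
    ndB0q0 ndB7q3 pcB2 Cut.none Ext.none :=
  certB2 (fam := false) (s1 := true) (s2 := true) (a := 0) (b := 2) (c := 3) (cn := .up) (n1 := ndB0q0) (n2 := ndB7q3) (pc := pcB2) (cut := Cut.none) (xt := Ext.none) (P1 := 0) (W1 := 536870912) (P2 := 0) (W2 := 1230186008) (P3 := 649613803) (W3 := 48318383) (N0 := 3) (En := eng) (mo := mog) (C1 := cd0q0) (C2 := cd7q3) (C3 := pd2)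
    rfl (fun _ => rfl) s4_pp_023

noncomputable def f_pp_033 : ℕ → ℕ → ℕ → ℕ → Bool := onCell 1610612736 536870912 0 1230186008 649613803 48318383
    (rowB 3 eng mog cd0q0 cd7q3 pd3 2 false true true .pnn 0 3 3 (qsf 0 536870912 0 1230186008 3) ndB0q0 ndB7q3 pcB3 Cut.none Ext.none)

def k0_pp_033 : ∃ t, chk3 f_pp_033 t 1 1 1 = true :=
  ⟨(b (b (a (a (a (b (l 16639560) (l 16676376)) (l 16638264)) (a (a (l 16610504) (l 16591240)) (l 16553760))) (a (a (l 16501984) (l 4)) (l 4))) (b (a (a (a (l 16693272) (a (l 16658048) (l 16634912))) (a (a (l 16608584) (l 16578576)) (l 16533552))) (a (a (l 16483680) (l 16482160)) (l 4))) (a (a (a (l 16688568) (a (l 16641216) (l 16609552))) (a (a (a (l 16583128) (l 16565296)) (a (l 16552968) (l 16535472))) (b (l 16505464) (l 16481320)))) (a (a (a (l 16453304) (l 16439488)) (a (l 16421040) (l 16403624))) (a (a (l 16391536) (l 4)) (l 4)))))) (b (a (a (a (b (b (l 16664904) (l 16631264)) (b (l 16583144) (l 16515864))) (b (b (l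 16587576) (l 16528680)) (b (a (l 16521400) (l 16482592)) (l 16420320)))) (a (b (a (a (l 16519888) (b (l 16519200) (l 16480936))) (a (b (l 16513152) (l 16473672)) (l 16479392))) (a (b (a (l 16455344) (l 16436960)) (l 16412424)) (b (l 16584736) (l 16541968)))) (b (b (l 16451608) (l 16414280)) (b (a (l 16379184) (l 16343992)) (a (l 16309656) (l 16268616)))))) (a (a (b (a (b (l 16410432) (l 16367960)) (b (l 16391248) (l 16346960))) (a (b (l 16313056) (l 16231688)) (b (l 16285600) (l 16200832)))) (b (a (b (l 16379272) (l 16334824)) (b (l 16375232) (l 149820129767))) (b (a (l 16267448) (l 1)) (l 1)))) (a (b (a (b (l 16362360) (l 1)) (l 1)) (l 1)) (l 1)))) (a (a (b (a (b (l 16425920) (l 16317000)) (b (l 16349272) (l 16228312))) (b (a (l 16199400) (l 16093864)) (a (l 16082096) (l 15958840)))) (a (b (b (a (l 16387904) (l 16262136)) (l 16150288)) (b (l 125660004759) (l 1))) (b (b (a (l 16209904) (l 16156600)) (l 1)) (l 1)))) (l 1)))), by decide +kernel⟩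

theorem c_pp_033 : CertB 0 536870912 0 1230186008 649613803 48318383 3 eng mog cd0q0 cd7q3 pd3 false true true .pnn 0 3 3
    ndB0q0 ndB7q3 pcB3 Cut.none Ext.none :=
  certB2 (fam := false) (s1 := true) (s2 := true) (a := 0) (b := 3) (c := 3) (cn := .pnn) (n1 := ndB0q0) (n2 := ndB7q3) (pc := pcB3) (cut := Cut.none) (xt := Ext.none) (P1 := 0) (W1 := 536870912) (P2 := 0) (W2 := 1230186008) (P3 := 649613803) (W3 := 48318383) (N0 := 3) (En := eng) (mo := mog) (C1 := cd0q0) (C2 := cd7q3) (C3 := pd3)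
    rfl (fun _ => rfl) k0_pp_033

noncomputable def f_pp_101 : ℕ → ℕ → ℕ → ℕ → Bool := onCell 536870912 536870912 536870912 536870912 649613803 48318383
    (rowB 3 eng mog cd0q1 cd7q1 pd0 0 false true true .npn 1 0 1 (qsf 536870912 536870912 536870912 536870912 0) ndB0q1 ndB7q1 pcB0 Cut.none Ext.none)

def k0_pp_101 : ∃ t, chk3 f_pp_101 t 1 1 1 = true :=
  ⟨(a (l 3) (l 5)), by decide +kernel⟩

theorem c_pp_101 : CertB 536870912 536870912 536870912 536870912 649613803 48318383 3 eng mog cd0q1 cd7q1 pd0 false true true .npn 1 0 1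
    ndB0q1 ndB7q1 pcB0 Cut.none Ext.none :=
  certB0 (fam := false) (s1 := true) (s2 := true) (a := 1) (b := 0) (c := 1) (cn := .npn) (n1 := ndB0q1) (n2 := ndB7q1) (pc := pcB0) (cut := Cut.none) (xt := Ext.none) (P1 := 536870912) (W1 := 536870912) (P2 := 536870912) (W2 := 536870912) (P3 := 649613803) (W3 := 48318383) (N0 := 3) (En := eng) (mo := mog) (C1 := cd0q1) (C2 := cd7q1) (C3 := pd0)
    rfl k0_pp_101

noncomputable def f_pp_102 : ℕ → ℕ → ℕ → ℕ → Bool := onCell 536870912 536870912 1073741824 536870912 649613803 48318383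
    (rowB 3 eng mog cd0q1 cd7q2 pd0 0 false true true .npp 1 0 2 (qsf 536870912 536870912 1073741824 536870912 0) ndB0q1 ndB7q2 pcB0 Cut.none Ext.none)

def k0_pp_102 : ∃ t, chk3 f_pp_102 t 1 1 1 = true :=
  ⟨(l 3), by decide +kernel⟩

theorem c_pp_102 : CertB 536870912 536870912 1073741824 536870912 649613803 48318383 3 eng mog cd0q1 cd7q2 pd0 false true true .npp 1 0 2
    ndB0q1 ndB7q2 pcB0 Cut.none Ext.none :=
  certB0 (fam := false) (s1 := true) (s2 := true) (a := 1) (b := 0) (c := 2) (cn := .npp) (n1 := ndB0q1) (n2 := ndB7q2) (pc := pcB0) (cut := Cut.none) (xt := Ext.none) (P1 := 536870912) (W1 := 536870912) (P2 := 1073741824) (W2 := 536870912) (P3 := 649613803) (W3 := 48318383) (N0 := 3) (En := eng) (mo := mog) (C1 := cd0q1) (C2 := cd7q2) (C3 := pd0)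
    rfl k0_pp_102

noncomputable def f_pp_112 : ℕ → ℕ → ℕ → ℕ → Bool := onCell 536870912 536870912 1073741824 536870912 649613803 48318383
    (rowB 3 eng mog cd0q1 cd7q2 pd1 0 false true true .dn 1 1 2 (qsf 536870912 536870912 1073741824 536870912 1) ndB0q1 ndB7q2 pcB1 Cut.none Ext.none)

def k0_pp_112 : ∃ t, chk3 f_pp_112 t 1 1 1 = true :=
  ⟨(l 3), by decide +kernel⟩

theorem c_pp_112 : CertB 536870912 536870912 1073741824 536870912 649613803 48318383 3 eng mog cd0q1 cd7q2 pd1 false true true .dn 1 1 2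
    ndB0q1 ndB7q2 pcB1 Cut.none Ext.none :=
  certB0 (fam := false) (s1 := true) (s2 := true) (a := 1) (b := 1) (c := 2) (cn := .dn) (n1 := ndB0q1) (n2 := ndB7q2) (pc := pcB1) (cut := Cut.none) (xt := Ext.none) (P1 := 536870912) (W1 := 536870912) (P2 := 1073741824) (W2 := 536870912) (P3 := 649613803) (W3 := 48318383) (N0 := 3) (En := eng) (mo := mog) (C1 := cd0q1) (C2 := cd7q2) (C3 := pd1)
    rfl k0_pp_112

noncomputable def cut_pp_113 : Cut := Cut.of [[⟨0, 1, 0, 67108864⟩, ⟨1, 1, 0, 67108864⟩, ⟨2, 2, 0, 16777216⟩]]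

noncomputable def f_pp_113 : ℕ → ℕ → ℕ → ℕ → Bool := onCell 536870912 536870912 0 1230186008 649613803 48318383
    (rowB 3 eng mog cd0q1 cd7q3 pd1 2 false true true .nn 1 1 3 (qsf 536870912 536870912 0 1230186008 1) ndB0q1 ndB7q3 pcB1 cut_pp_113 Ext.none)

def k0_pp_113 : ∃ t, chk3 f_pp_113 t 1 1 1 = true :=
  ⟨(b (a (l 2) (a (l 2) (b (a (l 2) (a (l 2) (b (l 6) (l 3)))) (l 3)))) (b (a (a (l 2) (b (l 2) (a (l 2) (l 3)))) (l 3)) (a (a (b (l 2) (l 3)) (l 3)) (l 3)))), by decide +kernel⟩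

theorem c_pp_113 : CertB 536870912 536870912 0 1230186008 649613803 48318383 3 eng mog cd0q1 cd7q3 pd1 false true true .nn 1 1 3
    ndB0q1 ndB7q3 pcB1 cut_pp_113 Ext.none :=
  certB2 (fam := false) (s1 := true) (s2 := true) (a := 1) (b := 1) (c := 3) (cn := .nn) (n1 := ndB0q1) (n2 := ndB7q3) (pc := pcB1) (cut := cut_pp_113) (xt := Ext.none) (P1 := 536870912) (W1 := 536870912) (P2 := 0) (W2 := 1230186008) (P3 := 649613803) (W3 := 48318383) (N0 := 3) (En := eng) (mo := mog) (C1 := cd0q1) (C2 := cd7q3) (C3 := pd1)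
    rfl (fun _ => rfl) k0_pp_113

noncomputable def cut_pp_123 : Cut := Cut.of [[⟨0, 1, 0, 67108864⟩, ⟨1, 1, 0, 67108864⟩, ⟨2, 2, 0, 16777216⟩]]

noncomputable def f_pp_123 : ℕ → ℕ → ℕ → ℕ → Bool := onCell 1073741824 536870912 0 1230186008 649613803 48318383
    (rowB 3 eng mog cd0q1 cd7q3 pd2 2 false true true .npn 1 2 3 (qsf 536870912 536870912 0 1230186008 2) ndB0q1 ndB7q3 pcB2 cut_pp_123 Ext.none)

def k0_pp_123 : ∃ t, chk3 f_pp_123 t 16 4 1 = true :=
  ⟨(b (l 6) (l 3)), by decide +kernel⟩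

def k1_pp_123 : ∃ t, chk3 f_pp_123 t 17 8 1 = true :=
  ⟨(a (l 6) (b (l 16752192) (a (l 6) (l 16762784)))), by decide +kernel⟩

def k2_pp_123 : ∃ t, chk3 f_pp_123 t 34 9 1 = true :=
  ⟨(b (l 6) (l 3)), by decide +kernel⟩

def k3_pp_123 : ∃ t, chk3 f_pp_123 t 35 18 1 = true :=
  ⟨(a (b (a (l 6) (l 16776120)) (a (b (a (l 6) (b (l 16780032) (l 16779952))) (b (a (a (l 6) (b (l 6) (l 16780992))) (l 16780672)) (a (a (b (c (l 217600505319) (l 215989891895)) (l 285246234183)) (b (l 16781328) (c (l 218137371479) (l 215453020503)))) (a (b (l 16781240) (l 16781560)) (b (l 16781144) (l 16781504)))))) (b (l 16804024) (a (b (l 16780424) (l 16781200)) (b (l 16780864) (l 16780960)))))) (b (l 16771912) (b (l 16778144) (a (l 16802552) (l 16781128))))), by decide +kernel⟩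

def k4_pp_123 : ∃ t, chk3 f_pp_123 t 35 19 1 = true :=
  ⟨(a (b (a (b (a (a (l 3) (b (b (l 284709363831) (l 3)) (l 3))) (a (b (b (l 215989893255) (l 284709364423)) (l 3)) (b (b (l 16781808) (l 218674248183)) (b (l 284709365031) (l 3))))) (l 3)) (b (b (a (a (b (l 16781784) (l 16782072)) (b (l 16781704) (l 16782080))) (l 16781792)) (a (a (b (l 221358603143) (l 331417134999)) (b (l 16782352) (l 16782672))) (a (b (l 16782400) (l 16782656)) (l 16788248)))) (a (a (l 3) (b (b (l 329269652007) (l 3)) (l 3))) (a (b (b (l 16782976) (l 327122169047)) (l 3)) (b (b (l 16782976) (l 16783304)) (b (l 335712104343) (l 3))))))) (l 3)) (b (a (b (a (b (l 16781584) (l 16782464)) (b (l 16781944) (l 16782296))) (a (a (b (b (l 16783104) (l 16783320)) (b (l 16783648) (l 359334425223))) (b (l 16788984) (b (l 16783696) (l 16784016)))) (a (b (l 16783240) (a (l 16783904) (l 16784056))) (l 16789432)))) (b (l 16782936) (a (l 16783104) (l 16782392)))) (a (b (a (a (l 3) (b (b (l 349670749607)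 (l 436106965895)) (l 3))) (a (b (b (l 16784408) (l 340007074023)) (b (l 426980161303) (l 3))) (b (b (l 16784528) (l 16784824)) (b (l 315311006551) (l 417316485847))))) (l 3)) (b (a (a (b (b (l 16784592) (l 16784792)) (b (l 16785168) (l 320679719319))) (b (l 16785056) (b (l 16785040) (l 16785496)))) (a (b (l 16784112) (b (l 16785008) (l 16785312))) (l 16785040))) (b (a (a (b (l 407652810423) (l 3)) (b (l 314774139975) (l 399062876855))) (a (b (l 16785840) (l 16783600)) (b (l 16785616) (l 16786192)))) (a (l 3) (a (b (l 391546685143) (l 3)) (b (l 16786664) (l 383493622551))))))))), by decide +kernel⟩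

def k5_pp_123 : ∃ t, chk3 f_pp_123 t 8 5 1 = true :=
  ⟨(a (l 3) (b (b (l 3) (l 3)) (l 3))), by decide +kernel⟩

def k6_pp_123 : ∃ t, chk3 f_pp_123 t 9 4 1 = true :=
  ⟨(a (b (a (b (l 16740072) (l 16755920)) (l 16733592)) (a (b (b (l 16764992) (a (l 16774784) (l 16769104))) (a (b (a (b (l 16782184) (l 16804640)) (l 16782576)) (a (b (a (l 16783712) (l 16782824)) (a (a (b (l 16785752) (l 16786840)) (b (l 16785504) (l 16786520))) (a (b (l 16785016) (l 16786464)) (l 16786184)))) (b (l 16805320) (a (l 16784696) (l 16783736))))) (b (l 16777568) (a (b (l 16783248) (l 16811760)) (l 16784488))))) (b (l 16799808) (a (b (l 16770744) (l 16779160)) (l 16790096))))) (b (l 16710576) (a (b (l 16768048) (b (l 16753648) (l 16760088))) (b (l 16730072) (l 16743560))))), by decide +kernel⟩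

def k7_pp_123 : ∃ t, chk3 f_pp_123 t 36 10 1 = true :=
  ⟨(b (a (b (a (b (a (a (b (l 398526001127) (l 3)) (b (l 334101489943) (l 446307521127))) (a (b (l 16787720) (l 391546689575)) (b (l 16787360) (l 330880271239)))) (a (l 3) (a (l 3) (b (l 483351616887) (l 3))))) (b (a (b (l 16798296) (a (l 16788648) (l 16788344))) (l 16798552)) (a (a (b (l 366313759319) (l 3)) (b (l 16789976) (l 453286848823))) (a (b (l 16789680) (l 320679738343)) (b (l 16789496) (l 16791240)))))) (a (l 3) (b (a (l 3) (a (l 3) (b (l 400673502663) (l 3)))) (l 3)))) (b (a (b (a (l 16786216) (l 16785208)) (a (b (l 16789744) (a (l 16790896) (l 16790752))) (l 16789608))) (b (l 16785528) (l 16787704))) (a (b (a (a (b (l 16791648) (l 428590791735)) (b (l 16791208) (l 328195932711))) (a (b (l 16790992) (l 16791368)) (b (l 16790488) (l 16790928)))) (a (l 3) (b (a (l 372756215799) (l 338396468327)) (l 3)))) (b (a (a (b (l 16790288) (l 16790616)) (l 16789424)) (l 16789952)) (a (a (b (l 16790976)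 (l 389936083735)) (b (l 16790544) (l 16791072))) (a (b (l 16790048) (l 16790448)) (b (l 16789512) (l 16789960)))))))) (a (l 3) (b (a (l 3) (b (a (b (b (l 422148339671) (l 3)) (l 3)) (a (b (l 326585322887) (l 3)) (b (l 16790400) (l 400136630055)))) (l 3))) (l 3)))), by decide +kernel⟩

def k8_pp_123 : ∃ t, chk3 f_pp_123 t 37 10 1 = true :=
  ⟨(b (a (b (a (b (l 16786208) (l 16787792)) (l 16784616)) (a (b (l 16789848) (a (b (l 16789328) (l 16793864)) (l 16788848))) (b (l 16787936) (l 16788944)))) (b (l 16779328) (a (l 16805224) (l 16782888)))) (a (b (a (b (a (a (b (l 16789720) (l 16790408)) (b (l 16789120) (l 16789584))) (b (l 16788168) (l 16788552))) (a (b (a (l 436643852487) (l 348597027383)) (l 3)) (b (l 16789016) (a (l 401210369911) (l 16789304))))) (b (c (l 16787872) (l 16792264)) (a (b (l 16787904) (l 16788096)) (b (l 16787360) (l 16787288))))) (a (l 3) (b (a (b (l 285246260215) (l 440401944775)) (b (l 16787208) (l 291151836519))) (a (l 3) (b (l 416242750439)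 (l 3)))))) (b (a (b (l 16787752) (a (l 16770696) (l 16786768))) (b (l 16785072) (l 16785656))) (a (b (a (b (l 16786464) (l 16786344)) (b (l 16786056) (l 16785416))) (a (b (l 16786024) (l 423758939671)) (b (l 16785160) (l 16784528)))) (b (l 16784784) (a (b (l 16784144) (l 16783768)) (b (l 16783496) (l 16782728)))))))), by decide +kernel⟩

def k9_pp_123 : ∃ t, chk3 f_pp_123 t 18 11 1 = true :=
  ⟨(a (l 3) (b (a (l 3) (b (a (b (a (l 3) (b (l 365776877511) (l 505363315159))) (l 3)) (b (a (b (l 16783024) (l 337859593431)) (b (l 16782256) (l 16781528))) (a (b (l 487109700103) (l 3)) (b (l 320142848071) (c (l 460266153319) (l 464561115239)))))) (l 3))) (l 3))), by decide +kernel⟩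

def k10_pp_123 : ∃ t, chk3 f_pp_123 t 19 10 1 = true :=
  ⟨(a (b (a (b (l 16771536) (l 16777336)) (l 16765464)) (a (b (a (l 16780600) (l 16778352)) (a (b (l 16782632) (l 16781696)) (b (l 16779064) (l 16779072)))) (b (l 16772784) (a (l 16775424) (l 16772016))))) (b (a (l 16757160) (l 16749432)) (a (b (l 16765144) (l 16767144)) (l 16779112)))), by decide +kernel⟩

def k11_pp_123 : ∃ t, chk3 f_pp_123 t 38 22 1 = true :=
  ⟨(a (b (a (b (a (b (l 16781272) (l 16780656)) (l 16780000)) (a (b (l 16780072) (l 16779264)) (b (l 16779000) (l 16778504)))) (b (l 16778232) (a (b (l 16778008) (l 16777296)) (l 16776520)))) (a (b (a (b (a (l 476909145895) (l 344838900487)) (l 522006301751)) (b (l 16777688) (c (l 358260673351) (a (l 431811982487) (l 16775168))))) (a (l 3) (b (c (l 491941530135) (a (l 3) (l 469392944135))) (l 3)))) (b (a (b (l 16776816) (l 16776096)) (b (l 16775584) (l 16775040))) (a (a (b (b (l 16775776) (l 367387472519)) (l 510732005831)) (b (l 16775176)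 (b (l 329269632871) (c (l 459192400103) (l 455434296471))))) (b (l 16774464) (a (l 16774064) (l 16773592))))))) (b (a (b (l 16775392) (l 16774768)) (l 16771768)) (a (b (l 16773872) (a (b (l 16773464) (c (l 16774768) (l 16771304))) (b (l 16772648) (l 16772088)))) (b (l 16771136) (l 16770688))))), by decide +kernel⟩

def k12_pp_123 : ∃ t, chk3 f_pp_123 t 38 23 1 = true :=
  ⟨(a (b (a (l 3) (b (a (l 3) (a (b (b (a (l 459729266007) (l 333564595895)) (l 513416356743)) (l 3)) (a (b (b (l 16773256) (l 374366789383)) (l 544554868327)) (b (l 16772880) (b (c (l 437180689031) (l 432348843031)) (l 3)))))) (l 3))) (l 3)) (b (a (b (a (b (l 16772384) (a (c (l 376514275079) (b (l 16770200) (a (l 471540418631) (l 362555620423)))) (l 16771608))) (b (l 16771680) (l 16771080))) (a (b (c (a (l 544017999383) (b (l 375440530279) (l 489794035751))) (a (l 525764380231) (a (b (l 409263391239) (l 3)) (b (l 16769048) (l 447381225047))))) (l 3)) (b (c (l 318532213991) (a (b (l 16768808)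 (l 333564588727)) (l 16768320))) (c (a (l 479593487031) (l 368998077255)) (a (a (l 506437024455) (b (l 384030455959) (l 524690634631))) (a (b (l 16767888) (l 423222031623)) (l 16767568))))))) (b (a (b (l 16770696) (l 16770320)) (l 16769456)) (a (b (l 16769896) (l 16769296)) (b (l 16769000) (l 16768712))))) (a (b (a (l 3) (b (c (l 539186157591) (a (l 3) (b (l 488183411495) (l 3)))) (l 3))) (l 3)) (b (a (a (b (a (b (l 361481872887) (l 509658251239)) (a (b (l 16769008) (l 425906388519)) (l 336785810279))) (l 560124116695)) (b (l 16768624) (b (c (l 396915360791) (c (l 398525968807) (l 398525964327))) (c (l 517174446935) (l 497847085047))))) (b (l 16768216) (c (l 325511530215) (a (b (l 16765776) (l 353965676983)) (l 16765408))))) (a (l 3) (a (b (b (a (l 518785054231) (l 397452227639)) (l 563345339703)) (l 3)) (b (b (l 16767304) (c (l 391546651495) (c (l 398525966439) (l 403357800023)))) (b (c (l 523616895831) (l 502678920919)) (l 3))))))))), by decide +kernel⟩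

def k13_pp_123 : ∃ t, chk3 f_pp_123 t 39 11 1 = true :=
  ⟨(b (b (a (l 16767040) (l 16761648)) (a (a (l 16767856) (l 16764672)) (l 16760904))) (a (b (a (b (l 16767424) (a (l 16767808) (l 16766552))) (b (l 16764224) (l 16764352))) (a (b (a (b (l 16767576) (l 16767272)) (l 16766480)) (b (a (l 16766872) (l 16766424)) (a (a (b (l 343765127671) (a (l 519858794055) (l 389399154503))) (l 16766456)) (l 16766168)))) (b (l 16764632) (a (l 16765552) (l 16764488))))) (b (a (l 16761280) (l 16758832)) (a (l 16761976) (l 16759136))))), by decide +kernel⟩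

def k14_pp_123 : ∃ t, chk3 f_pp_123 t 5 2 1 = true :=
  ⟨(b (a (a (a (b (l 16683104) (b (l 16714680) (l 16730016))) (b (l 16708648) (a (l 16710840) (l 16708672)))) (b (l 16637552) (l 16794768))) (b (l 16835520) (l 16758200))) (a (a (a (b (b (l 16740176) (l 16768688)) (b (a (b (l 16756312) (l 16757120)) (l 16688440)) (a (b (l 16756576) (a (l 16757040) (l 16755816))) (b (l 16754688) (l 16755096))))) (b (a (b (l 16734064) (l 16740704)) (a (l 16734936) (a (l 16736592) (b (l 16733536) (l 16746232))))) (a (b (l 16746000) (a (l 16711696) (l 16752184))) (a (l 16746400) (a (l 16746856) (b (l 16748536) (l 16752480))))))) (b (b (l 16722264) (l 16740736)) (b (l 16747840) (l 16752864)))) (b (a (l 16722016) (l 16719416)) (a (b (l 16748600) (l 16756296)) (l 16749976))))), by decide +kernel⟩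

def k15_pp_123 : ∃ t, chk3 f_pp_123 t 3 2 1 = true :=
  ⟨(a (b (a (b (l 16642456) (l 16889480)) (b (l 16664152) (l 16701624))) (a (b (l 16721936) (b (l 16743536) (l 16746416))) (b (l 16739168) (l 16744840)))) (b (a (b (l 16679992) (l 16723248)) (l 16700240)) (b (a (l 16756096) (l 16775224)) (a (l 16756264) (l 16782616))))), by decide +kernel⟩

def k16_pp_123 : ∃ t, chk3 f_pp_123 t 4 6 1 = true :=
  ⟨(a (l 3) (a (l 3) (b (a (l 3) (b (a (a (b (b (b (a (a (l 574619627127) (a (b (l 421611416359) (l 592336366519)) (b (l 16766224) (l 478519732711)))) (a (b (l 16766096) (l 16763384)) (l 16765880))) (a (l 3) (a (b (a (l 512879470839) (l 372756154791)) (l 563345336663)) (b (l 16765800) (c (l 367387457911) (l 385641059351)))))) (a (l 3) (b (b (a (l 3) (a (l 547776080055) (l 16771104))) (l 3)) (l 3)))) (l 3)) (b (a (a (b (l 16765672) (b (l 16765864) (l 531669951879))) (b (l 16765552) (l 16765952))) (b (b (l 16765016) (l 16765304)) (l 16765792))) (b (a (l 560124114471)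 (l 16767112)) (l 3)))) (a (b (b (a (l 16764192) (l 16762864)) (a (l 16765472) (l 16764608))) (a (b (l 16766784) (l 16768688)) (b (l 16766520) (l 16768360)))) (b (l 16761608) (a (l 16745808) (l 16765832))))) (a (l 3) (a (b (a (l 3) (l 541333629415)) (l 3)) (b (b (l 16750040) (l 16774576)) (l 193978139959)))))) (l 3)))), by decide +kernel⟩

def k17_pp_123 : ∃ t, chk3 f_pp_123 t 5 6 1 = true :=
  ⟨(a (a (a (b (a (b (a (b (l 16758960) (l 16764280)) (b (l 16757088) (l 16761704))) (a (b (b (l 16769672) (l 16773744)) (l 16779336)) (b (b (l 16767632) (l 16750872)) (a (l 16778448) (l 16777248))))) (b (b (l 16755968) (a (l 16759928) (l 16759256))) (b (a (l 16766592) (l 16764880)) (a (l 16753432) (l 16771064))))) (a (b (a (b (l 16785768) (l 3)) (b (l 16762336) (l 16786248))) (l 3)) (b (b (a (a (l 16781176) (l 16779104)) (a (l 16776848) (l 16775088))) (a (l 16782088) (l 16777808))) (b (a (l 16780872) (l 16775512)) (a (l 3) (l 16774344)))))) (b (a (b (a (l 16757784)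 (l 16716176)) (a (b (l 16764184) (l 16768328)) (b (l 16763288) (l 16766288)))) (b (a (l 16780080) (a (l 16760248) (l 16761688))) (a (l 16765720) (a (l 16769064) (b (l 16792632) (l 16774424)))))) (a (b (a (b (l 16771840) (a (l 16773856) (l 16771160))) (b (l 16767368) (l 16766808))) (a (b (a (l 16771680) (l 16768088)) (a (l 16769496) (l 16766304))) (b (l 16763328) (a (l 16762464) (l 16758832))))) (b (a (b (l 16765960) (l 16763072)) (a (l 16766432) (l 16811608))) (a (b (l 16757944) (l 16754368)) (b (a (l 16756432) (l 16759072)) (a (l 16751224) (c (l 16752824) (l 16751736))))))))) (b (b (l 16759192) (l 16768096)) (b (l 16762768) (l 16785936)))) (a (b (l 16869856) (b (l 16763888) (l 16738240))) (b (l 16757472) (b (l 16755152) (l 16745896))))), by decide +kernel⟩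

def k18_pp_123 : ∃ t, chk3 f_pp_123 t 3 6 1 = true :=
  ⟨(a (b (a (b (l 16746752) (l 16745416)) (b (l 16740560) (l 16735848))) (a (b (l 16741608) (a (l 16739544) (l 16730200))) (b (l 16728792) (l 1)))) (b (a (b (l 16747072) (l 1)) (l 1)) (l 1))), by decide +kernel⟩

def k19_pp_123 : ∃ t, chk3 f_pp_123 t 1 7 1 = true :=
  ⟨(a (a (l 3) (a (a (a (b (l 3) (l 3)) (b (a (b (a (b (a (l 16764704) (l 16760808)) (l 3)) (b (a (l 16756880) (l 16753352)) (l 100025699543))) (a (l 3) (b (a (l 3) (l 16724592)) (l 3)))) (b (a (b (a (l 16749648) (l 16746640)) (a (l 16738488) (l 16734744))) (a (b (l 16743864) (l 16731792)) (a (a (a (l 16737000) (b (l 16743616) (l 16730040))) (l 16737288)) (l 16736336)))) (a (b (a (l 16720400) (l 16716472)) (a (l 16701256) (l 16697192))) (a (a (b (l 16713728) (l 16694264)) (b (l 16712400) (l 16692424))) (b (l 16710040) (l 16690104)))))) (l 1))) (b (a (b (b (l 16734048) (l 16717520)) (b (l 16697616) (l 16673816))) (b (l 16710176) (l 24192600487)))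 (l 1))) (b (b (a (b (l 16707344) (l 16684592)) (l 16711400)) (l 1)) (l 1)))) (l 1)), by decide +kernel⟩

theorem s20_pp_123 : ∃ t, chk3 f_pp_123 t 2 6 1 = true := ex3_a k16_pp_123 k17_pp_123

theorem s21_pp_123 : ∃ t, chk3 f_pp_123 t 1 6 1 = true := ex3_a s20_pp_123 k18_pp_123

theorem s22_pp_123 : ∃ t, chk3 f_pp_123 t 1 3 1 = true := ex3_b s21_pp_123 k19_pp_123

theorem s23_pp_123 : ∃ t, chk3 f_pp_123 t 38 11 1 = true := ex3_b k11_pp_123 k12_pp_123

theorem s24_pp_123 : ∃ t, chk3 f_pp_123 t 19 11 1 = true := ex3_a s23_pp_123 k13_pp_123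

theorem s25_pp_123 : ∃ t, chk3 f_pp_123 t 19 5 1 = true := ex3_b k10_pp_123 s24_pp_123

theorem s26_pp_123 : ∃ t, chk3 f_pp_123 t 18 10 1 = true := ex3_a k7_pp_123 k8_pp_123

theorem s27_pp_123 : ∃ t, chk3 f_pp_123 t 18 5 1 = true := ex3_b s26_pp_123 k9_pp_123

theorem s28_pp_123 : ∃ t, chk3 f_pp_123 t 9 5 1 = true := ex3_a s27_pp_123 s25_pp_123

theorem s29_pp_123 : ∃ t, chk3 f_pp_123 t 9 2 1 = true := ex3_b k6_pp_123 s28_pp_123

theorem s30_pp_123 : ∃ t, chk3 f_pp_123 t 35 9 1 = true := ex3_b k3_pp_123 k4_pp_123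

theorem s31_pp_123 : ∃ t, chk3 f_pp_123 t 17 9 1 = true := ex3_a k2_pp_123 s30_pp_123

theorem s32_pp_123 : ∃ t, chk3 f_pp_123 t 17 4 1 = true := ex3_b k1_pp_123 s31_pp_123

theorem s33_pp_123 : ∃ t, chk3 f_pp_123 t 8 4 1 = true := ex3_a k0_pp_123 s32_pp_123

theorem s34_pp_123 : ∃ t, chk3 f_pp_123 t 8 2 1 = true := ex3_b s33_pp_123 k5_pp_123

theorem s35_pp_123 : ∃ t, chk3 f_pp_123 t 4 2 1 = true := ex3_a s34_pp_123 s29_pp_123

theorem s36_pp_123 : ∃ t, chk3 f_pp_123 t 2 2 1 = true := ex3_a s35_pp_123 k14_pp_123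

theorem s37_pp_123 : ∃ t, chk3 f_pp_123 t 1 2 1 = true := ex3_a s36_pp_123 k15_pp_123

theorem s38_pp_123 : ∃ t, chk3 f_pp_123 t 1 1 1 = true := ex3_b s37_pp_123 s22_pp_123

theorem c_pp_123 : CertB 536870912 536870912 0 1230186008 649613803 48318383 3 eng mog cd0q1 cd7q3 pd2 false true true .npn 1 2 3
    ndB0q1 ndB7q3 pcB2 cut_pp_123 Ext.none :=
  certB2 (fam := false) (s1 := true) (s2 := true) (a := 1) (b := 2) (c := 3) (cn := .npn) (n1 := ndB0q1) (n2 := ndB7q3) (pc := pcB2) (cut := cut_pp_123) (xt := Ext.none) (P1 := 536870912) (W1 := 536870912) (P2 := 0) (W2 := 1230186008) (P3 := 649613803) (W3 := 48318383) (N0 := 3) (En := eng) (mo := mog) (C1 := cd0q1) (C2 := cd7q3) (C3 := pd2)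
    rfl (fun _ => rfl) s38_pp_123

noncomputable def f_pp_133 : ℕ → ℕ → ℕ → ℕ → Bool := onCell 536870912 536870912 0 1230186008 649613803 48318383
    (rowB 3 eng mog cd0q1 cd7q3 pd3 0 false true true .dn 1 3 3 (qsf 536870912 536870912 0 1230186008 3) ndB0q1 ndB7q3 pcB3 Cut.none Ext.none)

def k0_pp_133 : ∃ t, chk3 f_pp_133 t 1 1 1 = true :=
  ⟨(b (b (a (a (a (l 16708264) (l 1)) (l 1)) (l 1)) (l 1)) (l 1)), by decide +kernel⟩

theorem c_pp_133 : CertB 536870912 536870912 0 1230186008 649613803 48318383 3 eng mog cd0q1 cd7q3 pd3 false true true .dn 1 3 3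
    ndB0q1 ndB7q3 pcB3 Cut.none Ext.none :=
  certB0 (fam := false) (s1 := true) (s2 := true) (a := 1) (b := 3) (c := 3) (cn := .dn) (n1 := ndB0q1) (n2 := ndB7q3) (pc := pcB3) (cut := Cut.none) (xt := Ext.none) (P1 := 536870912) (W1 := 536870912) (P2 := 0) (W2 := 1230186008) (P3 := 649613803) (W3 := 48318383) (N0 := 3) (En := eng) (mo := mog) (C1 := cd0q1) (C2 := cd7q3) (C3 := pd3)
    rfl k0_pp_133

noncomputable def f_pp_202 : ℕ → ℕ → ℕ → ℕ → Bool := onCell 0 536870912 1073741824 536870912 649613803 48318383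
    (rowB 3 eng mog cd0q2 cd7q2 pd0 0 false true true .pp 2 0 2 (qsf 0 536870912 1073741824 536870912 0) ndB0q2 ndB7q2 pcB0 Cut.none Ext.none)

def k0_pp_202 : ∃ t, chk3 f_pp_202 t 1 1 1 = true :=
  ⟨(l 5), by decide +kernel⟩

theorem c_pp_202 : CertB 0 536870912 1073741824 536870912 649613803 48318383 3 eng mog cd0q2 cd7q2 pd0 false true true .pp 2 0 2
    ndB0q2 ndB7q2 pcB0 Cut.none Ext.none :=
  certB0 (fam := false) (s1 := true) (s2 := true) (a := 2) (b := 0) (c := 2) (cn := .pp) (n1 := ndB0q2) (n2 := ndB7q2) (pc := pcB0) (cut := Cut.none) (xt := Ext.none) (P1 := 0) (W1 := 536870912) (P2 := 1073741824) (W2 := 536870912) (P3 := 649613803) (W3 := 48318383) (N0 := 3) (En := eng) (mo := mog) (C1 := cd0q2) (C2 := cd7q2) (C3 := pd0)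
    rfl k0_pp_202

noncomputable def f_pp_203 : ℕ → ℕ → ℕ → ℕ → Bool := onCell 0 536870912 0 1230186008 649613803 48318383
    (rowB 3 eng mog cd0q2 cd7q3 pd0 0 false true true .up 2 0 3 (qsf 0 536870912 0 1230186008 0) ndB0q2 ndB7q3 pcB0 Cut.none Ext.none)

def k0_pp_203 : ∃ t, chk3 f_pp_203 t 1 1 1 = true :=
  ⟨(b (l 2) (a (l 5) (l 3))), by decide +kernel⟩

theorem c_pp_203 : CertB 0 536870912 0 1230186008 649613803 48318383 3 eng mog cd0q2 cd7q3 pd0 false true true .up 2 0 3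
    ndB0q2 ndB7q3 pcB0 Cut.none Ext.none :=
  certB0 (fam := false) (s1 := true) (s2 := true) (a := 2) (b := 0) (c := 3) (cn := .up) (n1 := ndB0q2) (n2 := ndB7q3) (pc := pcB0) (cut := Cut.none) (xt := Ext.none) (P1 := 0) (W1 := 536870912) (P2 := 0) (W2 := 1230186008) (P3 := 649613803) (W3 := 48318383) (N0 := 3) (En := eng) (mo := mog) (C1 := cd0q2) (C2 := cd7q3) (C3 := pd0)
    rfl k0_pp_203

noncomputable def cut_pp_213 : Cut := Cut.of [[⟨0, 1, 0, 67108864⟩, ⟨1, 1, 0, 67108864⟩, ⟨2, 2, 0, 16777216⟩]]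

noncomputable def f_pp_213 : ℕ → ℕ → ℕ → ℕ → Bool := onCell 0 536870912 0 1230186008 649613803 48318383
    (rowB 3 eng mog cd0q2 cd7q3 pd1 0 false true true .pnn 2 1 3 (qsf 0 536870912 0 1230186008 1) ndB0q2 ndB7q3 pcB1 cut_pp_213 Ext.none)

def k0_pp_213 : ∃ t, chk3 f_pp_213 t 1 1 1 = true :=
  ⟨(a (b (l 3) (l 5)) (b (b (a (l 3) (a (l 3) (b (l 6) (l 3)))) (l 3)) (l 3))), by decide +kernel⟩

theorem c_pp_213 : CertB 0 536870912 0 1230186008 649613803 48318383 3 eng mog cd0q2 cd7q3 pd1 false true true .pnn 2 1 3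
    ndB0q2 ndB7q3 pcB1 cut_pp_213 Ext.none :=
  certB0 (fam := false) (s1 := true) (s2 := true) (a := 2) (b := 1) (c := 3) (cn := .pnn) (n1 := ndB0q2) (n2 := ndB7q3) (pc := pcB1) (cut := cut_pp_213) (xt := Ext.none) (P1 := 0) (W1 := 536870912) (P2 := 0) (W2 := 1230186008) (P3 := 649613803) (W3 := 48318383) (N0 := 3) (En := eng) (mo := mog) (C1 := cd0q2) (C2 := cd7q3) (C3 := pd1)
    rfl k0_pp_213

noncomputable def f_pm_001 : ℕ → ℕ → ℕ → ℕ → Bool := onCell 0 536870912 536870912 536870912 649613803 48318383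
    (rowB 3 eng mog cd0q0 cd7q1 pd0 0 false true false .up 0 0 1 (qsf 0 536870912 536870912 536870912 0) ndB0q0 ndB7q1 pcB0 Cut.none Ext.none)

def k0_pm_001 : ∃ t, chk3 f_pm_001 t 1 1 1 = true :=
  ⟨(l 4), by decide +kernel⟩

theorem c_pm_001 : CertB 0 536870912 536870912 536870912 649613803 48318383 3 eng mog cd0q0 cd7q1 pd0 false true false .up 0 0 1
    ndB0q0 ndB7q1 pcB0 Cut.none Ext.none :=
  certB0 (fam := false) (s1 := true) (s2 := false) (a := 0) (b := 0) (c := 1) (cn := .up) (n1 := ndB0q0) (n2 := ndB7q1) (pc := pcB0) (cut := Cut.none) (xt := Ext.none) (P1 := 0) (W1 := 536870912) (P2 := 536870912) (W2 := 536870912) (P3 := 649613803) (W3 := 48318383) (N0 := 3) (En := eng) (mo := mog) (C1 := cd0q0) (C2 := cd7q1) (C3 := pd0)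
    rfl k0_pm_001

noncomputable def f_pm_011 : ℕ → ℕ → ℕ → ℕ → Bool := onCell 0 536870912 536870912 536870912 649613803 48318383
    (rowB 3 eng mog cd0q0 cd7q1 pd1 0 false true false .pnn 0 1 1 (qsf 0 536870912 536870912 536870912 1) ndB0q0 ndB7q1 pcB1 Cut.none Ext.none)

def k0_pm_011 : ∃ t, chk3 f_pm_011 t 1 1 1 = true :=
  ⟨(l 4), by decide +kernel⟩

theorem c_pm_011 : CertB 0 536870912 536870912 536870912 649613803 48318383 3 eng mog cd0q0 cd7q1 pd1 false true false .pnn 0 1 1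
    ndB0q0 ndB7q1 pcB1 Cut.none Ext.none :=
  certB0 (fam := false) (s1 := true) (s2 := false) (a := 0) (b := 1) (c := 1) (cn := .pnn) (n1 := ndB0q0) (n2 := ndB7q1) (pc := pcB1) (cut := Cut.none) (xt := Ext.none) (P1 := 0) (W1 := 536870912) (P2 := 536870912) (W2 := 536870912) (P3 := 649613803) (W3 := 48318383) (N0 := 3) (En := eng) (mo := mog) (C1 := cd0q0) (C2 := cd7q1) (C3 := pd1)
    rfl k0_pm_011

noncomputable def f_pm_012 : ℕ → ℕ → ℕ → ℕ → Bool := onCell 0 536870912 1073741824 536870912 649613803 48318383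
    (rowB 3 eng mog cd0q0 cd7q2 pd1 0 false true false .pnp 0 1 2 (qsf 0 536870912 1073741824 536870912 1) ndB0q0 ndB7q2 pcB1 Cut.none Ext.none)

def k0_pm_012 : ∃ t, chk3 f_pm_012 t 1 1 1 = true :=
  ⟨(l 4), by decide +kernel⟩

theorem c_pm_012 : CertB 0 536870912 1073741824 536870912 649613803 48318383 3 eng mog cd0q0 cd7q2 pd1 false true false .pnp 0 1 2
    ndB0q0 ndB7q2 pcB1 Cut.none Ext.none :=
  certB0 (fam := false) (s1 := true) (s2 := false) (a := 0) (b := 1) (c := 2) (cn := .pnp) (n1 := ndB0q0) (n2 := ndB7q2) (pc := pcB1) (cut := Cut.none) (xt := Ext.none) (P1 := 0) (W1 := 536870912) (P2 := 1073741824) (W2 := 536870912) (P3 := 649613803) (W3 := 48318383) (N0 := 3) (En := eng) (mo := mog) (C1 := cd0q0) (C2 := cd7q2) (C3 := pd1)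
    rfl k0_pm_012

noncomputable def f_pm_022 : ℕ → ℕ → ℕ → ℕ → Bool := onCell 0 536870912 1073741824 536870912 649613803 48318383
    (rowB 3 eng mog cd0q0 cd7q2 pd2 0 false true false .pp 0 2 2 (qsf 0 536870912 1073741824 536870912 2) ndB0q0 ndB7q2 pcB2 Cut.none Ext.none)

def k0_pm_022 : ∃ t, chk3 f_pm_022 t 1 1 1 = true :=
  ⟨(l 4), by decide +kernel⟩

theorem c_pm_022 : CertB 0 536870912 1073741824 536870912 649613803 48318383 3 eng mog cd0q0 cd7q2 pd2 false true false .pp 0 2 2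
    ndB0q0 ndB7q2 pcB2 Cut.none Ext.none :=
  certB0 (fam := false) (s1 := true) (s2 := false) (a := 0) (b := 2) (c := 2) (cn := .pp) (n1 := ndB0q0) (n2 := ndB7q2) (pc := pcB2) (cut := Cut.none) (xt := Ext.none) (P1 := 0) (W1 := 536870912) (P2 := 1073741824) (W2 := 536870912) (P3 := 649613803) (W3 := 48318383) (N0 := 3) (En := eng) (mo := mog) (C1 := cd0q0) (C2 := cd7q2) (C3 := pd2)
    rfl k0_pm_022

noncomputable def f_pm_023 : ℕ → ℕ → ℕ → ℕ → Bool := onCell 0 536870912 0 1230186008 649613803 48318383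
    (rowB 3 eng mog cd0q0 cd7q3 pd2 0 false true false .up 0 2 3 (qsf 0 536870912 0 1230186008 2) ndB0q0 ndB7q3 pcB2 Cut.none Ext.none)

def k0_pm_023 : ∃ t, chk3 f_pm_023 t 1 1 1 = true :=
  ⟨(b (a (l 2) (a (l 2) (b (a (l 2) (a (l 2) (l 16648192))) (a (l 4) (b (l 16607848) (l 4)))))) (l 4)), by decide +kernel⟩

theorem c_pm_023 : CertB 0 536870912 0 1230186008 649613803 48318383 3 eng mog cd0q0 cd7q3 pd2 false true false .up 0 2 3
    ndB0q0 ndB7q3 pcB2 Cut.none Ext.none :=
  certB0 (fam := false) (s1 := true) (s2 := false) (a := 0) (b := 2) (c := 3) (cn := .up) (n1 := ndB0q0) (n2 := ndB7q3) (pc := pcB2) (cut := Cut.none) (xt := Ext.none) (P1 := 0) (W1 := 536870912) (P2 := 0) (W2 := 1230186008) (P3 := 649613803) (W3 := 48318383) (N0 := 3) (En := eng) (mo := mog) (C1 := cd0q0) (C2 := cd7q3) (C3 := pd2)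
    rfl k0_pm_023

noncomputable def f_pm_033 : ℕ → ℕ → ℕ → ℕ → Bool := onCell 1610612736 536870912 0 1230186008 649613803 48318383
    (rowB 3 eng mog cd0q0 cd7q3 pd3 2 false true false .pnn 0 3 3 (qsf 0 536870912 0 1230186008 3) ndB0q0 ndB7q3 pcB3 Cut.none Ext.none)

def k0_pm_033 : ∃ t, chk3 f_pm_033 t 1 1 1 = true :=
  ⟨(b (a (a (b (a (l 16633312) (l 16838024)) (a (l 34057865719) (l 4))) (b (a (l 16579536) (l 4)) (l 4))) (l 4)) (l 4)), by decide +kernel⟩

theorem c_pm_033 : CertB 0 536870912 0 1230186008 649613803 48318383 3 eng mog cd0q0 cd7q3 pd3 false true false .pnn 0 3 3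
    ndB0q0 ndB7q3 pcB3 Cut.none Ext.none :=
  certB2 (fam := false) (s1 := true) (s2 := false) (a := 0) (b := 3) (c := 3) (cn := .pnn) (n1 := ndB0q0) (n2 := ndB7q3) (pc := pcB3) (cut := Cut.none) (xt := Ext.none) (P1 := 0) (W1 := 536870912) (P2 := 0) (W2 := 1230186008) (P3 := 649613803) (W3 := 48318383) (N0 := 3) (En := eng) (mo := mog) (C1 := cd0q0) (C2 := cd7q3) (C3 := pd3)
    rfl (fun _ => rfl) k0_pm_033

noncomputable def f_pm_101 : ℕ → ℕ → ℕ → ℕ → Bool := onCell 536870912 536870912 536870912 536870912 649613803 48318383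
    (rowB 3 eng mog cd0q1 cd7q1 pd0 0 false true false .npn 1 0 1 (qsf 536870912 536870912 536870912 536870912 0) ndB0q1 ndB7q1 pcB0 Cut.none Ext.none)

def k0_pm_101 : ∃ t, chk3 f_pm_101 t 1 1 1 = true :=
  ⟨(l 4), by decide +kernel⟩

theorem c_pm_101 : CertB 536870912 536870912 536870912 536870912 649613803 48318383 3 eng mog cd0q1 cd7q1 pd0 false true false .npn 1 0 1
    ndB0q1 ndB7q1 pcB0 Cut.none Ext.none :=
  certB0 (fam := false) (s1 := true) (s2 := false) (a := 1) (b := 0) (c := 1) (cn := .npn) (n1 := ndB0q1) (n2 := ndB7q1) (pc := pcB0) (cut := Cut.none) (xt := Ext.none) (P1 := 536870912) (W1 := 536870912) (P2 := 536870912) (W2 := 536870912) (P3 := 649613803) (W3 := 48318383) (N0 := 3) (En := eng) (mo := mog) (C1 := cd0q1) (C2 := cd7q1) (C3 := pd0)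
    rfl k0_pm_101

noncomputable def f_pm_102 : ℕ → ℕ → ℕ → ℕ → Bool := onCell 536870912 536870912 0 536870912 649613803 48318383
    (rowB 3 eng mog cd0q1 cd7q2 pd0 1 false true false .npp 1 0 2 (qsf 536870912 536870912 1073741824 536870912 0) ndB0q1 ndB7q2 pcB0 Cut.none Ext.none)

def k0_pm_102 : ∃ t, chk3 f_pm_102 t 1 1 1 = true :=
  ⟨(a (l 4) (a (b (l 4) (l 4)) (a (b (l 4) (b (b (l 4) (a (l 4) (l 16270416))) (b (a (l 4) (l 16423064)) (l 16499632)))) (a (b (b (l 4) (b (l 4) (b (a (l 4) (l 16093032)) (l 16133528)))) (b (b (l 16251624) (b (l 16366816) (l 16442768))) (b (b (l 16523832) (l 16598216)) (l 16705264)))) (b (b (b (b (l 4) (a (l 4) (b (l 15942104) (l 15966024)))) (b (a (l 4) (b (l 15990664) (l 16016016))) (a (b (l 4) (l 16014280)) (b (l 16042072) (l 16068856))))) (b (b (a (l 16258104) (l 16109136)) (a (l 16095208) (l 16164760))) (b (l 16199296) (l 16282048)))) (b (b (b (l 16364072) (l 16446920)) (b (l 16525048) (l 16606144))) (b (b (l 16668136)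 (l 16751720)) (l 16838856)))))))), by decide +kernel⟩

theorem c_pm_102 : CertB 536870912 536870912 1073741824 536870912 649613803 48318383 3 eng mog cd0q1 cd7q2 pd0 false true false .npp 1 0 2
    ndB0q1 ndB7q2 pcB0 Cut.none Ext.none :=
  certB1 (fam := false) (s1 := true) (s2 := false) (a := 1) (b := 0) (c := 2) (cn := .npp) (n1 := ndB0q1) (n2 := ndB7q2) (pc := pcB0) (cut := Cut.none) (xt := Ext.none) (P1 := 536870912) (W1 := 536870912) (P2 := 1073741824) (W2 := 536870912) (P3 := 649613803) (W3 := 48318383) (N0 := 3) (En := eng) (mo := mog) (C1 := cd0q1) (C2 := cd7q2) (C3 := pd0)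
    rfl (fun _ => rfl) k0_pm_102

noncomputable def f_pm_112 : ℕ → ℕ → ℕ → ℕ → Bool := onCell 536870912 536870912 1073741824 536870912 649613803 48318383
    (rowB 3 eng mog cd0q1 cd7q2 pd1 2 false true false .dn 1 1 2 (qsf 536870912 536870912 1073741824 536870912 1) ndB0q1 ndB7q2 pcB1 Cut.none Ext.none)

def k0_pm_112 : ∃ t, chk3 f_pm_112 t 1 1 1 = true :=
  ⟨(a (b (l 4) (b (l 4) (a (a (b (l 16479040) (l 16746560)) (b (l 16318592) (l 16580040))) (a (b (l 4) (l 16402256)) (l 4))))) (l 4)), by decide +kernel⟩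

theorem c_pm_112 : CertB 536870912 536870912 1073741824 536870912 649613803 48318383 3 eng mog cd0q1 cd7q2 pd1 false true false .dn 1 1 2
    ndB0q1 ndB7q2 pcB1 Cut.none Ext.none :=
  certB2 (fam := false) (s1 := true) (s2 := false) (a := 1) (b := 1) (c := 2) (cn := .dn) (n1 := ndB0q1) (n2 := ndB7q2) (pc := pcB1) (cut := Cut.none) (xt := Ext.none) (P1 := 536870912) (W1 := 536870912) (P2 := 1073741824) (W2 := 536870912) (P3 := 649613803) (W3 := 48318383) (N0 := 3) (En := eng) (mo := mog) (C1 := cd0q1) (C2 := cd7q2) (C3 := pd1)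
    rfl (fun _ => rfl) k0_pm_112

noncomputable def cut_pm_113 : Cut := Cut.of [[⟨0, 1, 0, 67108864⟩, ⟨1, 1, 0, 67108864⟩, ⟨2, 2, 0, 16777216⟩]]

noncomputable def f_pm_113 : ℕ → ℕ → ℕ → ℕ → Bool := onCell 536870912 536870912 0 1230186008 649613803 48318383
    (rowB 3 eng mog cd0q1 cd7q3 pd1 0 false true false .nn 1 1 3 (qsf 536870912 536870912 0 1230186008 1) ndB0q1 ndB7q3 pcB1 cut_pm_113 Ext.none)

def k0_pm_113 : ∃ t, chk3 f_pm_113 t 1 1 1 = true :=
  ⟨(b (a (l 2) (a (l 2) (b (a (l 2) (a (l 2) (b (l 6) (b (l 6) (l 16778072))))) (a (b (a (l 2) (l 16746568)) (a (l 16706216) (l 16919912))) (b (a (l 16768000) (b (l 16786448) (l 16798096))) (a (l 16784944) (l 16818480))))))) (b (a (a (l 2) (b (l 2) (a (l 2) (b (l 2) (a (l 2) (l 16226040)))))) (a (b (a (l 2) (a (l 16538384) (l 16612488))) (a (b (a (l 16343304) (l 16422968)) (l 257261315255)) (b (l 16545248) (l 16524360)))) (a (b (a (l 16677968) (l 16735992)) (b (l 16685040) (l 16670728))) (b (a (l 16580480)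 (l 16836184)) (b (l 16808920) (l 16801728)))))) (a (a (l 4) (b (a (l 4) (b (a (l 4) (l 258334916007)) (l 4))) (l 4))) (a (b (a (b (a (l 16273704) (l 16362120)) (a (l 16266664) (l 16409864))) (b (l 16500208) (a (l 16434936) (l 16528008)))) (a (b (a (l 4) (l 16346600)) (l 4)) (b (b (l 16467376) (l 16488464)) (l 16494144)))) (b (a (b (l 16826464) (l 16661552)) (b (l 16800336) (l 16774768))) (a (b (l 16657544) (b (l 16664192) (l 16663768))) (b (l 16821736) (l 16812096)))))))), by decide +kernel⟩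

theorem c_pm_113 : CertB 536870912 536870912 0 1230186008 649613803 48318383 3 eng mog cd0q1 cd7q3 pd1 false true false .nn 1 1 3
    ndB0q1 ndB7q3 pcB1 cut_pm_113 Ext.none :=
  certB0 (fam := false) (s1 := true) (s2 := false) (a := 1) (b := 1) (c := 3) (cn := .nn) (n1 := ndB0q1) (n2 := ndB7q3) (pc := pcB1) (cut := cut_pm_113) (xt := Ext.none) (P1 := 536870912) (W1 := 536870912) (P2 := 0) (W2 := 1230186008) (P3 := 649613803) (W3 := 48318383) (N0 := 3) (En := eng) (mo := mog) (C1 := cd0q1) (C2 := cd7q3) (C3 := pd1)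
    rfl k0_pm_113

noncomputable def cut_pm_123 : Cut := Cut.of [[⟨0, 1, 0, 67108864⟩, ⟨1, 1, 0, 67108864⟩, ⟨2, 2, 0, 16777216⟩]]

noncomputable def f_pm_123 : ℕ → ℕ → ℕ → ℕ → Bool := onCell 1073741824 536870912 0 1230186008 649613803 48318383
    (rowB 3 eng mog cd0q1 cd7q3 pd2 2 false true false .npn 1 2 3 (qsf 536870912 536870912 0 1230186008 2) ndB0q1 ndB7q3 pcB2 cut_pm_123 Ext.none)

def k0_pm_123 : ∃ t, chk3 f_pm_123 t 1 2 1 = true :=
  ⟨(a (a (a (b (b (a (l 6) (b (l 16744544) (l 16729440))) (a (b (l 6) (l 16737584)) (l 16730480))) (b (a (l 16746144) (l 16697448)) (b (a (l 16740608) (l 16662840)) (a (l 16689552) (l 16600368))))) (b (b (b (l 16741168) (l 16696504)) (a (l 16669568) (l 16623280))) (b (a (b (l 16648208) (l 16624832)) (l 16571312)) (a (b (l 16581632) (l 16524672)) (b (l 16513336) (l 16465688)))))) (b (a (b (a (a (l 16633648) (a (l 16616280) (l 16647616))) (l 16730496)) (a (l 16570656) (l 16525552))) (b (l 16583624) (l 16557360))) (a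 (a (b (l 16509736) (b (l 16464360) (l 16429624))) (b (a (l 16472672) (l 16470536)) (b (l 16439632) (l 16416648)))) (b (a (l 16486728) (l 16504096)) (a (l 16443304) (l 16459584)))))) (a (b (a (b (l 16604584) (l 16569544)) (a (l 16613264) (l 16727048))) (a (b (a (l 16518840) (l 16533336)) (a (l 16468968) (l 16478048))) (b (a (l 16543752) (l 16556576)) (a (l 16489184) (l 16502712))))) (b (a (b (l 16650176) (a (l 16608672) (l 16617536))) (l 16639472)) (a (b (a (l 16565504) (l 16572664)) (a (l 16517064) (l 16530392))) (a (b (l 16578360) (l 4)) (l 157873801975)))))), by decide +kernel⟩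

def k1_pm_123 : ∃ t, chk3 f_pm_123 t 1 3 1 = true :=
  ⟨(b (a (a (b (a (b (a (l 16606680) (l 16625200)) (a (b (l 16529552) (l 16476936)) (l 16435120))) (b (a (l 16458136) (l 16416048)) (a (l 16384496) (l 16359160)))) (a (a (b (l 16389448) (c (l 16323256) (l 16228384))) (b (l 16339952) (c (l 16297360) (l 16286976)))) (a (b (l 16308152) (l 16233728)) (b (l 16295040) (l 4))))) (b (a (a (b (l 16393056) (l 16347256)) (b (l 16386976) (l 16348912))) (a (l 16526088) (l 16388536))) (a (b (a (l 16297256) (l 16302408)) (l 4)) (l 4)))) (a (b (a (b (l 16422992) (l 4)) (l 4)) (l 4)) (l 4))) (a (a (b (a (b (a (a (l 16151952) (l 16145768)) (l 4)) (l 4)) (l 4)) (l 4)) (l 4)) (l 1))), by decide +kernel⟩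

theorem s2_pm_123 : ∃ t, chk3 f_pm_123 t 1 1 1 = true := ex3_b k0_pm_123 k1_pm_123

theorem c_pm_123 : CertB 536870912 536870912 0 1230186008 649613803 48318383 3 eng mog cd0q1 cd7q3 pd2 false true false .npn 1 2 3
    ndB0q1 ndB7q3 pcB2 cut_pm_123 Ext.none :=
  certB2 (fam := false) (s1 := true) (s2 := false) (a := 1) (b := 2) (c := 3) (cn := .npn) (n1 := ndB0q1) (n2 := ndB7q3) (pc := pcB2) (cut := cut_pm_123) (xt := Ext.none) (P1 := 536870912) (W1 := 536870912) (P2 := 0) (W2 := 1230186008) (P3 := 649613803) (W3 := 48318383) (N0 := 3) (En := eng) (mo := mog) (C1 := cd0q1) (C2 := cd7q3) (C3 := pd2)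
    rfl (fun _ => rfl) s2_pm_123

noncomputable def f_pm_133 : ℕ → ℕ → ℕ → ℕ → Bool := onCell 1610612736 536870912 0 1230186008 649613803 48318383
    (rowB 3 eng mog cd0q1 cd7q3 pd3 2 false true false .dn 1 3 3 (qsf 536870912 536870912 0 1230186008 3) ndB0q1 ndB7q3 pcB3 Cut.none Ext.none)

def k0_pm_133 : ∃ t, chk3 f_pm_133 t 1 1 1 = true :=
  ⟨(b (b (a (a (a (l 16632392) (l 1)) (l 1)) (l 1)) (l 1)) (l 1)), by decide +kernel⟩

theorem c_pm_133 : CertB 536870912 536870912 0 1230186008 649613803 48318383 3 eng mog cd0q1 cd7q3 pd3 false true false .dn 1 3 3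
    ndB0q1 ndB7q3 pcB3 Cut.none Ext.none :=
  certB2 (fam := false) (s1 := true) (s2 := false) (a := 1) (b := 3) (c := 3) (cn := .dn) (n1 := ndB0q1) (n2 := ndB7q3) (pc := pcB3) (cut := Cut.none) (xt := Ext.none) (P1 := 536870912) (W1 := 536870912) (P2 := 0) (W2 := 1230186008) (P3 := 649613803) (W3 := 48318383) (N0 := 3) (En := eng) (mo := mog) (C1 := cd0q1) (C2 := cd7q3) (C3 := pd3)
    rfl (fun _ => rfl) k0_pm_133

noncomputable def f_pm_202 : ℕ → ℕ → ℕ → ℕ → Bool := onCell 0 536870912 0 536870912 649613803 48318383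
    (rowB 3 eng mog cd0q2 cd7q2 pd0 1 false true false .pp 2 0 2 (qsf 0 536870912 1073741824 536870912 0) ndB0q2 ndB7q2 pcB0 Cut.none Ext.none)

def k0_pm_202 : ∃ t, chk3 f_pm_202 t 2 4 1 = true :=
  ⟨(a (b (a (b (b (a (l 16415656) (l 16409408)) (a (l 16428664) (l 16422192))) (b (l 16443112) (l 16458624))) (b (b (l 16400728) (l 16412296)) (a (b (l 16433880) (l 16451168)) (l 16436264)))) (a (b (l 16479176) (a (b (l 16495912) (b (l 16501816) (l 16505200))) (l 16500424))) (b (a (l 16474408) (b (l 16462256) (l 16477960))) (l 16499496)))) (b (a (b (b (a (l 16391864) (l 16383864)) (l 16397448)) (b (l 16412864) (l 16432896))) (b (a (b (l 16371104) (a (l 16383832) (l 16376336))) (l 16353328)) (a (b (l 16390632) (l 16410360)) (b (l 16370264) (a (l 16392720) (l 16379056)))))) (a (b (b (l 16451992) (l 16469848)) (a (b (l 16488672) (l 16502944)) (b (l 16482296) (l 16497928)))) (b (a (l 16441048) (b (l 16407168) (l 16428832))) (b (l 16459840) (l 16478136)))))), by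 decide +kernel⟩

def k1_pm_202 : ∃ t, chk3 f_pm_202 t 2 5 1 = true :=
  ⟨(a (b (a (b (b (a (l 16512152) (b (l 16511232) (l 16514192))) (a (l 16519232) (a (l 16519808) (l 16519632)))) (a (b (a (l 16527120) (l 16527528)) (c (l 16543216) (l 16529848))) (b (l 16528536) (l 16536040)))) (b (c (l 16532936) (l 16510328)) (b (a (b (l 16527800) (l 16531088)) (l 16534824)) (a (c (l 16549096) (l 16528544)) (l 16541624))))) (a (b (a (b (l 16543856) (l 16548008)) (b (l 16542368) (l 16549232))) (a (a (l 16606984) (l 16561304)) (b (l 16555688) (l 16559216)))) (b (a (l 16548352) (b (a (l 16547040) (l 16548992)) (l 16555800))) (a (b (l 16556912) (l 16563384)) (l 16565424))))) (b (a (b (a (l 16521696) (b (l 16512400) (l 16525400))) (b (l 16538344) (l 16548888))) (b (a (b (l 16503128) (l 16517872)) (l 16494296)) (a (b (l 16531632) (l 16544304)) (b (l 16518240) (l 16532464))))) (a (b (a (b (l 16555744) (l 16560728)) (l 16564568)) (a (b (l 16567200) (l 16574784)) (b (l 16575624)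 (l 16580720)))) (b (a (l 16562728) (l 16594944)) (a (l 16583496) (l 16578688)))))), by decide +kernel⟩

def k2_pm_202 : ∃ t, chk3 f_pm_202 t 2 3 1 = true :=
  ⟨(b (b (a (a (b (a (b (l 16586096) (l 16600080)) (b (l 16570184) (l 16583856))) (a (b (l 16613464) (a (l 16630216) (l 16622912))) (b (l 16597416) (l 16610792)))) (b (a (l 16573104) (l 16577272)) (a (l 16585248) (l 16589400)))) (a (b (a (l 16586408) (l 16657328)) (a (l 16596600) (l 16607680))) (b (a (l 16618296) (l 16599104)) (a (l 16613952) (l 16613192))))) (a (a (b (a (b (a (l 16643296) (l 16635728)) (a (l 16655976) (l 16648024))) (b (l 16623640) (l 16635992))) (b (b (a (a (l 16664816) (l 16657112)) (l 16645008)) (l 2)) (l 2))) (b (a (b (l 16604888) (l 16617440)) (l 16593760)) (a (l 165456598391) (l 16613408)))) (b (a (a (l 16607584) (l 16616752)) (b (l 16626432) (l 16631616))) (a (a (l 16612080) (l 16626232)) (a (l 16634776) (l 16640600)))))) (a (l 2) (a (l 2) (b (b (l 951435655687) (l 2)) (l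 2))))), by decide +kernel⟩

def k3_pm_202 : ∃ t, chk3 f_pm_202 t 3 2 1 = true :=
  ⟨(b (a (a (b (b (a (b (l 16317776) (l 16329056)) (b (l 16280296) (l 16292072))) (a (b (l 16340344) (l 16353688)) (l 16310120))) (b (a (b (l 16375416) (l 16398624)) (l 16345568)) (a (b (l 16419144) (l 16440344)) (b (l 16381960) (l 16405576))))) (b (b (a (b (a (l 16248368) (a (l 16230936) (l 16219480))) (l 16249432)) (a (b (l 16200856) (l 16214416)) (l 16180040))) (a (l 16268824) (b (a (l 16227208) (l 16204648)) (l 16271200)))) (b (a (l 16363504) (l 16317984)) (b (l 16311952) (l 16339152))))) (a (b (b (a (b (l 16129392) (l 16145248)) (b (l 16067208) (l 16084736))) (a (b (l 16162360) (l 16180904)) (l 16114392))) (b (a (a (b (l 16212920) (l 16229456)) (l 16198296)) (l 16158896)) (a (b (l 16280368) (l 16266064)) (b (l 16194728) (a (l 16232456) (l 16209240)))))) (b (a (b (b (a (l 16017560) (b (l 15978536) (l 15987808))) (l 16020264)) (b (l 16043528) (l 16069072))) (b (a (b (b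 (b (l 15940120) (l 15944992)) (l 15952920)) (l 15971952)) (b (a (b (b (l 15915400) (l 15919960)) (l 15928728)) (l 4)) (a (l 15951200) (l 15948248)))) (a (l 16079720) (b (l 16005176) (l 16017656))))) (b (a (l 16110064) (a (l 16082400) (l 16062376))) (a (l 16167680) (b (l 16131728) (l 16160320))))))) (a (a (b (b (a (l 16469264) (l 16456480)) (a (l 16504424) (l 16475552))) (b (a (b (l 16527984) (l 16542368)) (l 16510680)) (a (l 16564928) (l 16543768)))) (b (b (a (l 16398968) (l 16355080)) (a (l 16440880) (l 16404936))) (b (a (l 16481416) (l 16450168)) (l 16525704)))) (b (a (b (a (l 16310792) (b (l 16292832) (l 16282024))) (a (l 16366288) (l 16328640))) (b (a (l 16249840) (l 16241736)) (a (l 16301848) (l 16264016)))) (a (b (l 16403584) (l 16456896)) (b (a (l 16369816) (l 16344952)) (l 16435336)))))), by decide +kernel⟩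

def k4_pm_202 : ∃ t, chk3 f_pm_202 t 3 3 1 = true :=
  ⟨(b (b (a (a (b (a (l 16590688) (l 16574808)) (l 16606024)) (b (a (l 16554208) (l 16532360)) (a (l 16585440) (l 16569224)))) (a (b (a (l 16511848) (l 16497544)) (a (l 16554992) (l 16545360))) (a (l 16519920) (l 16538184)))) (a (b (a (b (l 16618872) (l 16626312)) (a (l 16610176) (l 16600192))) (a (a (l 16639312) (l 16633424)) (l 16625312))) (b (a (a (l 16591288) (l 16588448)) (a (l 16594416) (l 16620600))) (a (a (l 16619960) (l 16622048)) (a (l 16635744) (l 16664328)))))) (b (a (a (b (l 16647720) (l 2)) (b (l 16641464) (l 16657280))) (b (a (l 16653104) (a (l 16669688) (l 16703728))) (a (l 16683792) (l 16729544)))) (a (l 2) (a (b (l 16697360) (l 2)) (b (l 16778200) (l 16826808)))))), by decide +kernel⟩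

theorem s5_pm_202 : ∃ t, chk3 f_pm_202 t 3 1 1 = true := ex3_b k3_pm_202 k4_pm_202

theorem s6_pm_202 : ∃ t, chk3 f_pm_202 t 2 2 1 = true := ex3_b k0_pm_202 k1_pm_202

theorem s7_pm_202 : ∃ t, chk3 f_pm_202 t 2 1 1 = true := ex3_b s6_pm_202 k2_pm_202

theorem s8_pm_202 : ∃ t, chk3 f_pm_202 t 1 1 1 = true := ex3_a s7_pm_202 s5_pm_202

theorem c_pm_202 : CertB 0 536870912 1073741824 536870912 649613803 48318383 3 eng mog cd0q2 cd7q2 pd0 false true false .pp 2 0 2
    ndB0q2 ndB7q2 pcB0 Cut.none Ext.none :=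
  certB1 (fam := false) (s1 := true) (s2 := false) (a := 2) (b := 0) (c := 2) (cn := .pp) (n1 := ndB0q2) (n2 := ndB7q2) (pc := pcB0) (cut := Cut.none) (xt := Ext.none) (P1 := 0) (W1 := 536870912) (P2 := 1073741824) (W2 := 536870912) (P3 := 649613803) (W3 := 48318383) (N0 := 3) (En := eng) (mo := mog) (C1 := cd0q2) (C2 := cd7q2) (C3 := pd0)
    rfl (fun _ => rfl) s8_pm_202

noncomputable def f_pm_203 : ℕ → ℕ → ℕ → ℕ → Bool := onCell 0 536870912 0 1230186008 649613803 48318383
    (rowB 3 eng mog cd0q2 cd7q3 pd0 0 false true false .up 2 0 3 (qsf 0 536870912 0 1230186008 0) ndB0q2 ndB7q3 pcB0 Cut.none Ext.none)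

def k0_pm_203 : ∃ t, chk3 f_pm_203 t 1 1 1 = true :=
  ⟨(b (l 2) (b (l 2) (a (b (b (l 2) (b (a (l 2) (l 2)) (a (a (l 3) (a (a (l 149417789063) (l 176798195703)) (a (l 16705232) (l 16711776)))) (a (a (b (a (l 16717984) (l 2)) (l 16719928)) (l 16735680)) (l 16744112))))) (a (b (a (a (l 3) (b (b (l 3) (a (l 3) (l 16678600))) (b (a (l 16673200) (l 16672264)) (a (l 16665160) (l 16666872))))) (a (b (a (l 170892602295) (b (l 16692672) (l 16688504))) (b (a (l 16677168) (l 16682352)) (a (l 16671240) (l 16674352)))) (b (b (a (l 16699704) (l 16705016)) (a (l 16692968) (l 16699464))) (l 16685856)))) (a (b (a (b (a (l 3) (l 16669736)) (l 157470781991)) (b (a (l 16655424) (l 16658160)) (a (l 16653976) (l 16642208)))) (a (b (l 16658928) (a (l 16667008) (l 16658312))) (b (l 16647040) (l 16644344)))) (b (a (b (a (l 16659600) (l 16663704)) (l 16647216)) (l 16663416)) (a (l 16621880) (l 16624000))))) (b (a (b (a (l 16711848) (l 16723656)) (a (l 16696544) (l 16703480)))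 (a (l 16753784) (l 16727928))) (a (b (a (l 16669720) (l 16680280)) (a (l 16637104) (l 16649488))) (b (l 16690792) (a (l 16656672) (l 16662320))))))) (b (l 2) (a (b (a (l 16733176) (l 16749776)) (a (l 16902568) (b (l 16707504) (l 16675408)))) (b (a (l 16819880) (l 2)) (a (l 16735848) (l 16880936)))))))), by decide +kernel⟩

theorem c_pm_203 : CertB 0 536870912 0 1230186008 649613803 48318383 3 eng mog cd0q2 cd7q3 pd0 false true false .up 2 0 3
    ndB0q2 ndB7q3 pcB0 Cut.none Ext.none :=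
  certB0 (fam := false) (s1 := true) (s2 := false) (a := 2) (b := 0) (c := 3) (cn := .up) (n1 := ndB0q2) (n2 := ndB7q3) (pc := pcB0) (cut := Cut.none) (xt := Ext.none) (P1 := 0) (W1 := 536870912) (P2 := 0) (W2 := 1230186008) (P3 := 649613803) (W3 := 48318383) (N0 := 3) (En := eng) (mo := mog) (C1 := cd0q2) (C2 := cd7q3) (C3 := pd0)
    rfl k0_pm_203

noncomputable def cut_pm_213 : Cut := Cut.of [[⟨0, 1, 0, 67108864⟩, ⟨1, 1, 0, 67108864⟩, ⟨2, 2, 0, 16777216⟩]]

noncomputable def f_pm_213 : ℕ → ℕ → ℕ → ℕ → Bool := onCell 0 536870912 0 1230186008 649613803 48318383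
    (rowB 3 eng mog cd0q2 cd7q3 pd1 0 false true false .pnn 2 1 3 (qsf 0 536870912 0 1230186008 1) ndB0q2 ndB7q3 pcB1 cut_pm_213 Ext.none)

def k0_pm_213 : ∃ t, chk3 f_pm_213 t 2 2 1 = true :=
  ⟨(b (l 3) (l 3)), by decide +kernel⟩

def k1_pm_213 : ∃ t, chk3 f_pm_213 t 3 4 1 = true :=
  ⟨(a (l 3) (a (b (l 3) (a (b (l 3) (a (l 3) (b (a (l 3) (b (l 3) (b (l 3) (l 292225558935)))) (a (b (l 310479176551) (b (a (l 3) (l 245517797175)) (l 251960251639))) (b (a (b (l 278266919991) (l 248739021015)) (b (l 259476437767) (l 16785912))) (a (l 16782192) (l 16788040))))))) (b (a (b (l 3) (a (l 3) (b (l 3) (a (l 3) (b (l 3) (a (b (l 3) (l 301889234151)) (b (c (l 293836170247) (l 301889233383)) (l 258939561095)))))))) (l 6)) (a (b (a (b (a (l 3) (b (l 3) (a (l 320679718359) (l 300815499415)))) (a (b (l 312626645191) (l 258402699863)) (b (a (l 262160789575) (l 16783568)) (l 16784560)))) (b (a (b (a (l 313700395367) (b (l 306184201975) (l 263771400263))) (b (l 259476438919)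 (l 16783168))) (b (a (b (l 261623916119) (l 16782552)) (l 16782552)) (l 16783408))) (l 16784776))) (b (a (l 16775648) (l 16787192)) (l 16789424))) (b (b (a (l 16783576) (l 16784296)) (l 16786048)) (l 16790032)))))) (b (l 6) (a (b (a (l 6) (l 6)) (a (b (l 16786512) (l 16790656)) (b (l 16786272) (l 16790864)))) (b (a (l 6) (l 6)) (l 16789200)))))), by decide +kernel⟩

def k2_pm_213 : ∃ t, chk3 f_pm_213 t 6 10 1 = true :=
  ⟨(a (l 3) (b (a (l 3) (b (l 3) (a (l 3) (a (b (l 3) (a (l 305647345351) (l 256255224167))) (b (a (l 297057411799) (l 242833452343)) (l 246054680055)))))) (a (b (l 3) (a (l 3) (b (a (l 3) (l 322827208183)) (a (l 297057399799) (a (l 250349634519) (l 16787400)))))) (a (b (a (b (l 3) (l 322290340743)) (b (l 300278635831) (l 224579818903))) (b (a (a (l 255181477303) (l 16789528)) (l 16791472)) (l 16791184))) (b (b (a (l 227801046631) (l 16793608)) (l 16772936)) (l 16796056)))))), by decide +kernel⟩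

def k3_pm_213 : ∃ t, chk3 f_pm_213 t 12 11 1 = true :=
  ⟨(b (a (l 3) (b (l 3) (a (l 3) (a (l 3) (b (b (l 3) (l 183777621543)) (a (b (l 3) (a (l 184851360263) (l 180019523319))) (b (l 193978169143) (l 16776400)))))))) (a (b (l 3) (a (l 3) (b (l 3) (a (l 3) (a (b (l 3) (a (l 177335152007) (b (l 175724539623) (l 166597734551)))) (b (a (l 175724540487) (b (l 174113928215) (l 168745213863))) (a (b (l 167671471559) (l 16768128)) (l 16768888)))))))) (b (a (b (l 3) (a (l 3) (a (b (l 3) (c (l 169282099415) (b (a (l 3) (l 179482638519)) (l 180556379959)))) (b (c (l 173040197767) (a (l 178945769095) (l 182166995511))) (b (b (l 181630122727) (l 16771336)) (l 16771696)))))) (b (a (a (b (l 3) (b (l 177872034151) (a (l 178408904199) (l 182166996007)))) (b (a (l 181093261399) (l 178945778903)) (b (l 183240740039) (l 16773968)))) (b (a (l 184314486423) (l 16777104)) (l 16776864))) (a (b (a (b (l 181630125207) (l 16772776)) (l 16774576)) (l 16774456)) (l 16778192))))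 (a (b (a (b (a (l 3) (a (l 173040183879) (b (l 172503318855) (l 174650797143)))) (a (a (l 174113929223) (b (l 173040187959) (l 171966440855))) (b (l 173040184903) (l 16770032)))) (b (a (b (l 176261411991) (l 16770824)) (l 16772576)) (l 16772992))) (a (b (a (a (b (l 170355827335) (l 16768736)) (l 16769496)) (l 16771272)) (l 16772008)) (l 16775800))) (b (l 16757616) (l 16782736)))))), by decide +kernel⟩

def k4_pm_213 : ∃ t, chk3 f_pm_213 t 13 11 1 = true :=
  ⟨(b (a (a (b (b (a (l 3) (l 280951267207)) (a (l 235854105431) (a (l 176798308439) (l 184314509335)))) (a (b (b (l 197199398999) (a (l 178945786327) (l 16779168))) (b (l 16778784) (l 16779480))) (b (l 16781848) (l 16783288)))) (b (b (a (b (l 241759695863) (l 187535736487)) (l 16787288)) (a (l 16784600) (l 16788344))) (l 16767792))) (b (a (l 16772104) (l 16799952)) (a (l 16797360) (l 16805992)))) (a (b (a (l 16762952) (l 16793840)) (a (l 16790240) (l 16799560))) (a (b (l 16803216) (l 16812608)) (l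 16819728)))), by decide +kernel⟩

def k5_pm_213 : ∃ t, chk3 f_pm_213 t 7 5 1 = true :=
  ⟨(b (a (b (a (a (b (a (b (l 3) (b (l 261087061031) (l 241759710743))) (b (a (l 254644607767) (b (l 242833446343) (l 268603247191))) (b (l 267529506311) (l 16792832)))) (a (b (b (l 257865837623) (l 16793016)) (l 16794072)) (l 16794952))) (b (a (b (a (b (l 270750728455) (l 16790160)) (l 16789968)) (l 16793184)) (l 16792656)) (l 16797496))) (b (a (l 16794312) (l 16795744)) (a (l 16801360) (l 16802000)))) (b (a (a (l 16797440) (l 16801904)) (l 16806296)) (a (a (l 16801448) (l 16808560)) (l 16816152)))) (a (l 16827584) (l 16807416))) (b (a (a (a (l 16856128) (l 16821728)) (l 16829080)) (l 16932592)) (a (a (l 16838184) (l 16847216)) (l 16847616)))), by decide +kernel⟩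

def k6_pm_213 : ∃ t, chk3 f_pm_213 t 2 6 1 = true :=
  ⟨(a (l 3) (b (a (l 3) (b (a (l 3) (b (l 3) (a (l 3) (l 329269665943)))) (a (b (l 3) (a (l 3) (l 230485398967))) (b (a (l 236927837207) (b (l 244980856727) (l 16781360))) (a (b (l 256255166599) (l 16787768)) (l 16795032)))))) (b (a (a (l 3) (b (l 3) (a (l 3) (l 234780371111)))) (a (b (a (l 234243502151) (l 248202097783)) (a (l 241759656663) (l 16800464))) (b (a (l 16799648) (l 16813232)) (b (l 16817640) (l 16823216))))) (a (a (b (l 3) (a (l 3) (l 179482644151))) (b (a (l 205252459543) (l 224579776167)) (a (l 190756902679) (l 16797088)))) (a (b (a (l 16797704) (l 16813552)) (a (l 16815640) (l 16832720))) (b (l 16826336) (l 16862816))))))), by decide +kernel⟩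

def k7_pm_213 : ∃ t, chk3 f_pm_213 t 3 6 1 = true :=
  ⟨(a (b (a (b (a (b (a (b (l 3) (a (l 3) (b (a (l 3) (l 319605942631)) (l 173040186087)))) (b (a (a (b (l 3) (a (l 181093246871) (b (l 178945763351) (l 161765894791)))) (b (a (l 178945763815) (b (l 177335151319) (l 164450249959))) (a (b (l 162839636871) (l 16767360)) (l 16768088)))) (a (b (a (b (l 165523992215) (l 16767664)) (l 16768416)) (l 16770104)) (l 16771528))) (a (b (a (b (a (b (l 175187667015) (l 16766424)) (l 16767352)) (l 16768160)) (l 16770152)) (l 16771960)) (l 16775992)))) (a (b (a (l 320142817047) (l 16771416)) (l 16776048)) (l 16763400))) (a (b (b (l 16778192) (l 16784656)) (l 16777560)) (b (b (l 16788504) (l 16796552)) (l 16807816)))) (a (b (a (l 16789112) (l 16803880)) (a (l 16809080) (l 16819792))) (b (a (l 16814208) (l 16826856)) (l 16839976)))) (b (a (b (a (l 16801360) (l 16812864)) (l 16825496)) (l 16841240)) (a (l 16855328) (l 16877312)))) (a (b (a (b (a (l 16824088) (l 16839352))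 (l 16851448)) (l 16870512)) (b (l 16872984) (l 16875824))) (b (a (l 16883208) (l 16891624)) (l 16942256)))) (b (a (b (a (l 16865024) (l 16863592)) (a (l 16879832) (l 16875392))) (b (l 16857936) (l 16870328))) (a (b (l 16888592) (l 16893344)) (b (l 16878952) (l 16887632))))), by decide +kernel⟩

def k8_pm_213 : ∃ t, chk3 f_pm_213 t 1 7 1 = true :=
  ⟨(a (b (a (a (l 3) (b (a (l 3) (b (l 3) (a (l 3) (l 171966405095)))) (b (a (a (l 3) (l 150491519879)) (a (l 171966392775) (l 16741080))) (a (a (l 163913248919) (b (l 153712750919) (l 1))) (a (l 16726640) (l 16745120)))))) (b (a (a (b (a (l 171966433063) (l 16752112)) (a (l 16759096) (l 16775144))) (b (a (l 16792464) (l 16804184)) (a (l 16785208) (l 16796952)))) (a (b (l 16817424) (l 16812952)) (l 16845272))) (a (a (b (a (l 16758672) (l 16768128)) (b (a (l 16754744) (l 16765984)) (l 16760424))) (l 16780344)) (b (a (l 16802008) (l 16819008)) (l 16936288))))) (a (l 1) (b (a (l 1) (a (l 16953352) (l 16774504)))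 (l 1)))) (a (b (a (b (a (l 16874912) (l 16883304)) (l 16845664)) (b (l 16893984) (l 16898296))) (b (a (l 16894768) (l 16831616)) (l 1))) (b (a (b (l 16898312) (l 16900728)) (l 16886336)) (b (a (l 16894808) (l 16890728)) (a (l 16821992) (l 16891784)))))), by decide +kernel⟩

theorem s9_pm_213 : ∃ t, chk3 f_pm_213 t 1 6 1 = true := ex3_a k6_pm_213 k7_pm_213

theorem s10_pm_213 : ∃ t, chk3 f_pm_213 t 1 3 1 = true := ex3_b s9_pm_213 k8_pm_213

theorem s11_pm_213 : ∃ t, chk3 f_pm_213 t 6 11 1 = true := ex3_a k3_pm_213 k4_pm_213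

theorem s12_pm_213 : ∃ t, chk3 f_pm_213 t 6 5 1 = true := ex3_b k2_pm_213 s11_pm_213

theorem s13_pm_213 : ∃ t, chk3 f_pm_213 t 3 5 1 = true := ex3_a s12_pm_213 k5_pm_213

theorem s14_pm_213 : ∃ t, chk3 f_pm_213 t 3 2 1 = true := ex3_b k1_pm_213 s13_pm_213

theorem s15_pm_213 : ∃ t, chk3 f_pm_213 t 1 2 1 = true := ex3_a k0_pm_213 s14_pm_213

theorem s16_pm_213 : ∃ t, chk3 f_pm_213 t 1 1 1 = true := ex3_b s15_pm_213 s10_pm_213

theorem c_pm_213 : CertB 0 536870912 0 1230186008 649613803 48318383 3 eng mog cd0q2 cd7q3 pd1 false true false .pnn 2 1 3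
    ndB0q2 ndB7q3 pcB1 cut_pm_213 Ext.none :=
  certB0 (fam := false) (s1 := true) (s2 := false) (a := 2) (b := 1) (c := 3) (cn := .pnn) (n1 := ndB0q2) (n2 := ndB7q3) (pc := pcB1) (cut := cut_pm_213) (xt := Ext.none) (P1 := 0) (W1 := 536870912) (P2 := 0) (W2 := 1230186008) (P3 := 649613803) (W3 := 48318383) (N0 := 3) (En := eng) (mo := mog) (C1 := cd0q2) (C2 := cd7q3) (C3 := pd1)
    rfl s16_pm_213

noncomputable def f_mm_001 : ℕ → ℕ → ℕ → ℕ → Bool := onCell 0 536870912 0 536870912 649613803 48318383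
    (rowB 3 eng mog cd0q0 cd7q1 pd0 1 false false false .up 0 0 1 (qsf 0 536870912 536870912 536870912 0) ndB0q0 ndB7q1 pcB0 Cut.none Ext.none)

def k0_mm_001 : ∃ t, chk3 f_mm_001 t 1 1 1 = true :=
  ⟨(l 3), by decide +kernel⟩

theorem c_mm_001 : CertB 0 536870912 536870912 536870912 649613803 48318383 3 eng mog cd0q0 cd7q1 pd0 false false false .up 0 0 1
    ndB0q0 ndB7q1 pcB0 Cut.none Ext.none :=
  certB1 (fam := false) (s1 := false) (s2 := false) (a := 0) (b := 0) (c := 1) (cn := .up) (n1 := ndB0q0) (n2 := ndB7q1) (pc := pcB0) (cut := Cut.none) (xt := Ext.none) (P1 := 0) (W1 := 536870912) (P2 := 536870912) (W2 := 536870912) (P3 := 649613803) (W3 := 48318383) (N0 := 3) (En := eng) (mo := mog) (C1 := cd0q0) (C2 := cd7q1) (C3 := pd0)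
    rfl (fun _ => rfl) k0_mm_001

noncomputable def f_mm_011 : ℕ → ℕ → ℕ → ℕ → Bool := onCell 0 536870912 536870912 536870912 649613803 48318383
    (rowB 3 eng mog cd0q0 cd7q1 pd1 1 false false false .pnn 0 1 1 (qsf 0 536870912 536870912 536870912 1) ndB0q0 ndB7q1 pcB1 Cut.none Ext.none)

def k0_mm_011 : ∃ t, chk3 f_mm_011 t 1 1 1 = true :=
  ⟨(l 5), by decide +kernel⟩

theorem c_mm_011 : CertB 0 536870912 536870912 536870912 649613803 48318383 3 eng mog cd0q0 cd7q1 pd1 false false false .pnn 0 1 1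
    ndB0q0 ndB7q1 pcB1 Cut.none Ext.none :=
  certB1 (fam := false) (s1 := false) (s2 := false) (a := 0) (b := 1) (c := 1) (cn := .pnn) (n1 := ndB0q0) (n2 := ndB7q1) (pc := pcB1) (cut := Cut.none) (xt := Ext.none) (P1 := 0) (W1 := 536870912) (P2 := 536870912) (W2 := 536870912) (P3 := 649613803) (W3 := 48318383) (N0 := 3) (En := eng) (mo := mog) (C1 := cd0q0) (C2 := cd7q1) (C3 := pd1)
    rfl (fun _ => rfl) k0_mm_011

noncomputable def f_mm_012 : ℕ → ℕ → ℕ → ℕ → Bool := onCell 0 536870912 1073741824 536870912 649613803 48318383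
    (rowB 3 eng mog cd0q0 cd7q2 pd1 0 false false false .pnp 0 1 2 (qsf 0 536870912 1073741824 536870912 1) ndB0q0 ndB7q2 pcB1 Cut.none Ext.none)

def k0_mm_012 : ∃ t, chk3 f_mm_012 t 1 1 1 = true :=
  ⟨(l 5), by decide +kernel⟩

theorem c_mm_012 : CertB 0 536870912 1073741824 536870912 649613803 48318383 3 eng mog cd0q0 cd7q2 pd1 false false false .pnp 0 1 2
    ndB0q0 ndB7q2 pcB1 Cut.none Ext.none :=
  certB0 (fam := false) (s1 := false) (s2 := false) (a := 0) (b := 1) (c := 2) (cn := .pnp) (n1 := ndB0q0) (n2 := ndB7q2) (pc := pcB1) (cut := Cut.none) (xt := Ext.none) (P1 := 0) (W1 := 536870912) (P2 := 1073741824) (W2 := 536870912) (P3 := 649613803) (W3 := 48318383) (N0 := 3) (En := eng) (mo := mog) (C1 := cd0q0) (C2 := cd7q2) (C3 := pd1)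
    rfl k0_mm_012

noncomputable def f_mm_022 : ℕ → ℕ → ℕ → ℕ → Bool := onCell 0 536870912 1073741824 536870912 649613803 48318383
    (rowB 3 eng mog cd0q0 cd7q2 pd2 0 false false false .pp 0 2 2 (qsf 0 536870912 1073741824 536870912 2) ndB0q0 ndB7q2 pcB2 Cut.none Ext.none)

def k0_mm_022 : ∃ t, chk3 f_mm_022 t 1 1 1 = true :=
  ⟨(l 5), by decide +kernel⟩

theorem c_mm_022 : CertB 0 536870912 1073741824 536870912 649613803 48318383 3 eng mog cd0q0 cd7q2 pd2 false false false .pp 0 2 2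
    ndB0q0 ndB7q2 pcB2 Cut.none Ext.none :=
  certB0 (fam := false) (s1 := false) (s2 := false) (a := 0) (b := 2) (c := 2) (cn := .pp) (n1 := ndB0q0) (n2 := ndB7q2) (pc := pcB2) (cut := Cut.none) (xt := Ext.none) (P1 := 0) (W1 := 536870912) (P2 := 1073741824) (W2 := 536870912) (P3 := 649613803) (W3 := 48318383) (N0 := 3) (En := eng) (mo := mog) (C1 := cd0q0) (C2 := cd7q2) (C3 := pd2)
    rfl k0_mm_022

noncomputable def f_mm_023 : ℕ → ℕ → ℕ → ℕ → Bool := onCell 0 536870912 0 1230186008 649613803 48318383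
    (rowB 3 eng mog cd0q0 cd7q3 pd2 0 false false false .up 0 2 3 (qsf 0 536870912 0 1230186008 2) ndB0q0 ndB7q3 pcB2 Cut.none Ext.none)

def k0_mm_023 : ∃ t, chk3 f_mm_023 t 1 1 1 = true :=
  ⟨(l 5), by decide +kernel⟩

theorem c_mm_023 : CertB 0 536870912 0 1230186008 649613803 48318383 3 eng mog cd0q0 cd7q3 pd2 false false false .up 0 2 3
    ndB0q0 ndB7q3 pcB2 Cut.none Ext.none :=
  certB0 (fam := false) (s1 := false) (s2 := false) (a := 0) (b := 2) (c := 3) (cn := .up) (n1 := ndB0q0) (n2 := ndB7q3) (pc := pcB2) (cut := Cut.none) (xt := Ext.none) (P1 := 0) (W1 := 536870912) (P2 := 0) (W2 := 1230186008) (P3 := 649613803) (W3 := 48318383) (N0 := 3) (En := eng) (mo := mog) (C1 := cd0q0) (C2 := cd7q3) (C3 := pd2)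
    rfl k0_mm_023

noncomputable def f_mm_033 : ℕ → ℕ → ℕ → ℕ → Bool := onCell 0 536870912 0 1230186008 649613803 48318383
    (rowB 3 eng mog cd0q0 cd7q3 pd3 0 false false false .pnn 0 3 3 (qsf 0 536870912 0 1230186008 3) ndB0q0 ndB7q3 pcB3 Cut.none Ext.none)

def k0_mm_033 : ∃ t, chk3 f_mm_033 t 1 1 1 = true :=
  ⟨(l 5), by decide +kernel⟩

theorem c_mm_033 : CertB 0 536870912 0 1230186008 649613803 48318383 3 eng mog cd0q0 cd7q3 pd3 false false false .pnn 0 3 3
    ndB0q0 ndB7q3 pcB3 Cut.none Ext.none :=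
  certB0 (fam := false) (s1 := false) (s2 := false) (a := 0) (b := 3) (c := 3) (cn := .pnn) (n1 := ndB0q0) (n2 := ndB7q3) (pc := pcB3) (cut := Cut.none) (xt := Ext.none) (P1 := 0) (W1 := 536870912) (P2 := 0) (W2 := 1230186008) (P3 := 649613803) (W3 := 48318383) (N0 := 3) (En := eng) (mo := mog) (C1 := cd0q0) (C2 := cd7q3) (C3 := pd3)
    rfl k0_mm_033

noncomputable def cut_mm_101 : Cut := Cut.of [[⟨0, 1, 0, 67108864⟩, ⟨1, 0, 0, 67108864⟩, ⟨2, 1, 0, 67108864⟩]]

noncomputable def f_mm_101 : ℕ → ℕ → ℕ → ℕ → Bool := onCell 536870912 536870912 0 536870912 649613803 48318383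
    (rowB 3 eng mog cd0q1 cd7q1 pd0 1 false false false .npn 1 0 1 (qsf 536870912 536870912 536870912 536870912 0) ndB0q1 ndB7q1 pcB0 cut_mm_101 Ext.none)

def k0_mm_101 : ∃ t, chk3 f_mm_101 t 1 1 1 = true :=
  ⟨(a (l 3) (b (a (l 3) (b (a (l 3) (b (a (l 3) (b (l 6) (l 3))) (l 3))) (l 3))) (l 3))), by decide +kernel⟩

theorem c_mm_101 : CertB 536870912 536870912 536870912 536870912 649613803 48318383 3 eng mog cd0q1 cd7q1 pd0 false false false .npn 1 0 1
    ndB0q1 ndB7q1 pcB0 cut_mm_101 Ext.none :=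
  certB1 (fam := false) (s1 := false) (s2 := false) (a := 1) (b := 0) (c := 1) (cn := .npn) (n1 := ndB0q1) (n2 := ndB7q1) (pc := pcB0) (cut := cut_mm_101) (xt := Ext.none) (P1 := 536870912) (W1 := 536870912) (P2 := 536870912) (W2 := 536870912) (P3 := 649613803) (W3 := 48318383) (N0 := 3) (En := eng) (mo := mog) (C1 := cd0q1) (C2 := cd7q1) (C3 := pd0)
    rfl (fun _ => rfl) k0_mm_101

noncomputable def f_mm_102 : ℕ → ℕ → ℕ → ℕ → Bool := onCell 536870912 536870912 1073741824 536870912 649613803 48318383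
    (rowB 3 eng mog cd0q1 cd7q2 pd0 0 false false false .npp 1 0 2 (qsf 536870912 536870912 1073741824 536870912 0) ndB0q1 ndB7q2 pcB0 Cut.none Ext.none)

def k0_mm_102 : ∃ t, chk3 f_mm_102 t 1 1 1 = true :=
  ⟨(l 3), by decide +kernel⟩

theorem c_mm_102 : CertB 536870912 536870912 1073741824 536870912 649613803 48318383 3 eng mog cd0q1 cd7q2 pd0 false false false .npp 1 0 2
    ndB0q1 ndB7q2 pcB0 Cut.none Ext.none :=
  certB0 (fam := false) (s1 := false) (s2 := false) (a := 1) (b := 0) (c := 2) (cn := .npp) (n1 := ndB0q1) (n2 := ndB7q2) (pc := pcB0) (cut := Cut.none) (xt := Ext.none) (P1 := 536870912) (W1 := 536870912) (P2 := 1073741824) (W2 := 536870912) (P3 := 649613803) (W3 := 48318383) (N0 := 3) (En := eng) (mo := mog) (C1 := cd0q1) (C2 := cd7q2) (C3 := pd0)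
    rfl k0_mm_102

noncomputable def f_mm_112 : ℕ → ℕ → ℕ → ℕ → Bool := onCell 536870912 536870912 1073741824 536870912 649613803 48318383
    (rowB 3 eng mog cd0q1 cd7q2 pd1 0 false false false .dn 1 1 2 (qsf 536870912 536870912 1073741824 536870912 1) ndB0q1 ndB7q2 pcB1 Cut.none Ext.none)

def k0_mm_112 : ∃ t, chk3 f_mm_112 t 1 1 1 = true :=
  ⟨(l 3), by decide +kernel⟩

theorem c_mm_112 : CertB 536870912 536870912 1073741824 536870912 649613803 48318383 3 eng mog cd0q1 cd7q2 pd1 false false false .dn 1 1 2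
    ndB0q1 ndB7q2 pcB1 Cut.none Ext.none :=
  certB0 (fam := false) (s1 := false) (s2 := false) (a := 1) (b := 1) (c := 2) (cn := .dn) (n1 := ndB0q1) (n2 := ndB7q2) (pc := pcB1) (cut := Cut.none) (xt := Ext.none) (P1 := 536870912) (W1 := 536870912) (P2 := 1073741824) (W2 := 536870912) (P3 := 649613803) (W3 := 48318383) (N0 := 3) (En := eng) (mo := mog) (C1 := cd0q1) (C2 := cd7q2) (C3 := pd1)
    rfl k0_mm_112

noncomputable def f_mm_113 : ℕ → ℕ → ℕ → ℕ → Bool := onCell 536870912 536870912 0 1230186008 649613803 48318383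
    (rowB 3 eng mog cd0q1 cd7q3 pd1 0 false false false .nn 1 1 3 (qsf 536870912 536870912 0 1230186008 1) ndB0q1 ndB7q3 pcB1 Cut.none Ext.none)

def k0_mm_113 : ∃ t, chk3 f_mm_113 t 1 1 1 = true :=
  ⟨(b (l 5) (b (l 5) (a (l 5) (l 3)))), by decide +kernel⟩

theorem c_mm_113 : CertB 536870912 536870912 0 1230186008 649613803 48318383 3 eng mog cd0q1 cd7q3 pd1 false false false .nn 1 1 3
    ndB0q1 ndB7q3 pcB1 Cut.none Ext.none :=
  certB0 (fam := false) (s1 := false) (s2 := false) (a := 1) (b := 1) (c := 3) (cn := .nn) (n1 := ndB0q1) (n2 := ndB7q3) (pc := pcB1) (cut := Cut.none) (xt := Ext.none) (P1 := 536870912) (W1 := 536870912) (P2 := 0) (W2 := 1230186008) (P3 := 649613803) (W3 := 48318383) (N0 := 3) (En := eng) (mo := mog) (C1 := cd0q1) (C2 := cd7q3) (C3 := pd1)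
    rfl k0_mm_113

noncomputable def f_mm_123 : ℕ → ℕ → ℕ → ℕ → Bool := onCell 1073741824 536870912 0 1230186008 649613803 48318383
    (rowB 3 eng mog cd0q1 cd7q3 pd2 2 false false false .npn 1 2 3 (qsf 536870912 536870912 0 1230186008 2) ndB0q1 ndB7q3 pcB2 Cut.none Ext.none)

def k0_mm_123 : ∃ t, chk3 f_mm_123 t 1 1 1 = true :=
  ⟨(b (l 5) (l 5)), by decide +kernel⟩

theorem c_mm_123 : CertB 536870912 536870912 0 1230186008 649613803 48318383 3 eng mog cd0q1 cd7q3 pd2 false false false .npn 1 2 3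
    ndB0q1 ndB7q3 pcB2 Cut.none Ext.none :=
  certB2 (fam := false) (s1 := false) (s2 := false) (a := 1) (b := 2) (c := 3) (cn := .npn) (n1 := ndB0q1) (n2 := ndB7q3) (pc := pcB2) (cut := Cut.none) (xt := Ext.none) (P1 := 536870912) (W1 := 536870912) (P2 := 0) (W2 := 1230186008) (P3 := 649613803) (W3 := 48318383) (N0 := 3) (En := eng) (mo := mog) (C1 := cd0q1) (C2 := cd7q3) (C3 := pd2)
    rfl (fun _ => rfl) k0_mm_123

noncomputable def f_mm_133 : ℕ → ℕ → ℕ → ℕ → Bool := onCell 1610612736 536870912 0 1230186008 649613803 48318383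
    (rowB 3 eng mog cd0q1 cd7q3 pd3 2 false false false .dn 1 3 3 (qsf 536870912 536870912 0 1230186008 3) ndB0q1 ndB7q3 pcB3 Cut.none Ext.none)

def k0_mm_133 : ∃ t, chk3 f_mm_133 t 1 1 1 = true :=
  ⟨(l 5), by decide +kernel⟩

theorem c_mm_133 : CertB 536870912 536870912 0 1230186008 649613803 48318383 3 eng mog cd0q1 cd7q3 pd3 false false false .dn 1 3 3
    ndB0q1 ndB7q3 pcB3 Cut.none Ext.none :=
  certB2 (fam := false) (s1 := false) (s2 := false) (a := 1) (b := 3) (c := 3) (cn := .dn) (n1 := ndB0q1) (n2 := ndB7q3) (pc := pcB3) (cut := Cut.none) (xt := Ext.none) (P1 := 536870912) (W1 := 536870912) (P2 := 0) (W2 := 1230186008) (P3 := 649613803) (W3 := 48318383) (N0 := 3) (En := eng) (mo := mog) (C1 := cd0q1) (C2 := cd7q3) (C3 := pd3)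
    rfl (fun _ => rfl) k0_mm_133

noncomputable def f_mm_202 : ℕ → ℕ → ℕ → ℕ → Bool := onCell 0 536870912 0 536870912 649613803 48318383
    (rowB 3 eng mog cd0q2 cd7q2 pd0 1 false false false .pp 2 0 2 (qsf 0 536870912 1073741824 536870912 0) ndB0q2 ndB7q2 pcB0 Cut.none Ext.none)

def k0_mm_202 : ∃ t, chk3 f_mm_202 t 4 4 1 = true :=
  ⟨(b (b (a (b (l 16426672) (l 16438520)) (b (l 16445248) (l 16475248))) (a (b (l 16454192) (l 16467944)) (b (a (l 16463600) (c (a (l 16472040) (l 16602104)) (l 16468472))) (a (l 16488600) (a (b (l 16477808) (l 16484336)) (b (l 16481536) (l 16488464))))))) (a (b (a (l 16483000) (a (b (l 16480184) (b (l 16487064) (l 16491696))) (b (l 16500888) (b (l 16489544) (l 16493984))))) (b (a (a (l 16495352) (l 16496848)) (a (l 16498448) (l 16559664))) (a (b (l 16503080) (l 16506000)) (a (l 16504832) (l 16507488))))) (b (a (b (b (a (l 16481928) (l 16485920)) (a (l 16487648) (l 16490928))) (a (l 16491952) (l 16538808))) (a (b (b (l 16488576)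 (l 16495168)) (b (l 16500160) (l 16504264))) (b (b (l 16495224) (l 16498760)) (b (l 16503632) (l 16508824))))) (a (b (a (b (l 16500712) (l 16505072)) (l 16506096)) (a (l 16509536) (l 16625848))) (a (b (l 16571632) (b (l 16515040) (l 16518424))) (b (b (l 16512912) (l 16515968)) (l 16564200))))))), by decide +kernel⟩

def k1_mm_202 : ∃ t, chk3 f_mm_202 t 5 8 1 = true :=
  ⟨(a (b (a (b (l 16463176) (a (b (l 16464088) (l 16509920)) (b (l 16512624) (b (l 16494120) (a (l 16473888) (l 16476840)))))) (b (a (b (l 16473168) (b (l 16475088) (l 16497408))) (b (b (l 16481600) (a (l 16480432) (a (l 16504960) (b (l 16486224) (l 16486872))))) (b (a (b (l 16481400) (l 16503000)) (a (b (l 16485040) (l 16506688)) (l 16487896))) (a (a (l 16481904) (b (l 16483992) (l 16484632))) (a (l 16486832) (l 16489360)))))) (a (b (b (a (l 16475736) (b (l 16500544) (l 16480392))) (b (a (l 16477016) (l 16481192)) (l 16542776))) (a (b (l 16478816) (l 16480848)) (c (l 16549032) (l 16524640))))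 (a (b (b (a (a (l 16482896) (l 16483960)) (l 16485848)) (a (l 16484944) (l 16487288))) (b (a (l 16486656) (l 16489000)) (l 16510464))) (b (l 182166467223) (l 16493728)))))) (a (b (a (b (l 16622032) (a (l 16480448) (l 16503856))) (b (a (b (l 16477160) (l 16481000)) (b (l 16480480) (l 16484072))) (a (l 16507456) (c (l 16512192) (l 16529984))))) (a (b (a (l 16486912) (l 16489800)) (a (l 16492976) (l 16495208))) (b (c (a (l 16494064) (l 16497912)) (l 16472600)) (a (l 16498936) (l 16501800))))) (a (b (b (a (b (l 16483568) (l 16487280)) (a (l 16488336) (b (l 16488176) (l 16491800)))) (a (a (l 16491760) (l 16493304)) (a (l 16495232) (l 16497352)))) (a (b (a (l 16498160) (l 16500152)) (l 16505880)) (l 16506880))) (b (b (b (c (l 181092824695) (l 204178227959)) (l 220821187191)) (l 223505548919)) (l 3))))) (b (a (b (a (a (b (b (c (a (l 16488024) (l 16490720)) (l 180018943159)) (b (l 180555850151) (l 16490896))) (l 186998305399)) (l 3)) (l 3)) (l 3)) (l 3)) (l 3))),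 by decide +kernel⟩

def k2_mm_202 : ∃ t, chk3 f_mm_202 t 5 9 1 = true :=
  ⟨(a (b (b (a (a (b (l 16499672) (l 16505736)) (c (c (a (l 16592656) (l 114520951159)) (l 16488872)) (l 16509256))) (l 233169239575)) (a (c (a (l 16533584) (a (l 16518840) (l 16523520))) (l 126332033463)) (l 3))) (a (a (b (b (l 16519144) (l 16523728)) (l 16573496)) (l 134385182151)) (l 3))) (l 3)), by decide +kernel⟩

def k3_mm_202 : ∃ t, chk3 f_mm_202 t 4 5 1 = true :=
  ⟨(b (a (a (b (b (b (l 16509920) (l 16513200)) (a (l 16519080) (l 16521200))) (b (l 16572088) (l 16537408))) (b (b (a (l 16513864) (l 16515248)) (a (l 16522152) (l 16523472))) (b (a (l 16530808) (l 16533856)) (a (l 16581248) (l 16545464))))) (a (a (b (b (l 16599352) (l 16528440)) (b (l 16539400) (b (l 16548128) (a (l 16553200) (l 16556024))))) (b (b (l 16522464) (l 16533296)) (b (c (b (l 16567224) (a (l 16545984) (l 16549328))) (l 16543304)) (a (b (l 16552536) (l 16558960)) (c (b (l 16555096) (l 16561680)) (l 16557072))))))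 (a (b (b (l 16526576) (b (l 16556712) (a (l 16540416) (l 16543448)))) (a (b (a (l 16548456) (l 16549928)) (b (l 95730346167) (b (l 100025330679) (l 133311339815)))) (b (b (l 16549328) (l 98414700503)) (b (l 213305092967) (l 3))))) (b (b (l 84456102695) (c (l 89824816855) (l 16609336))) (b (c (b (l 202030846135) (l 3)) (l 215452577639)) (l 3)))))) (a (b (a (b (a (l 16542936) (l 16546624)) (a (l 16554072) (l 16560856))) (a (b (l 16553168) (l 16566936)) (b (l 16559144) (a (l 16571592) (c (l 16633688) (l 16572280)))))) (a (b (a (l 16568272) (l 16574608)) (l 16585656)) (a (b (b (l 16577376) (l 16584176)) (a (l 16593456) (l 16617848))) (b (a (b (l 16581904) (l 16589040)) (c (l 16591232) (l 16585504))) (b (l 16597760) (l 16626160)))))) (b (a (a (b (a (b (l 16560088) (l 16567096)) (b (l 16563128) (l 16569792))) (a (b (l 16574128) (l 16580832)) (b (l 16576600) (l 90898595815)))) (b (a (b (l 16565560) (l 16572320)) (b (c (l 101099100183) (l 16566360)) (l 122037085495)))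 (a (b (a (l 16578544) (l 118279001159)) (l 116668409383)) (l 3)))) (l 3)) (a (a (b (b (a (l 16587784) (l 95193586759)) (a (l 82308696919) (l 102172926359))) (b (l 102172900855) (l 109689109911))) (l 3)) (l 3))))), by decide +kernel⟩

def k4_mm_202 : ∃ t, chk3 f_mm_202 t 5 5 1 = true :=
  ⟨(b (a (b (a (b (l 179482327943) (l 3)) (l 3)) (l 3)) (l 3)) (l 3)), by decide +kernel⟩

def k5_mm_202 : ∃ t, chk3 f_mm_202 t 2 3 1 = true :=
  ⟨(b (a (a (a (b (b (a (l 16603528) (b (a (l 16601480) (l 16604648)) (b (l 16613752) (l 16620944)))) (b (a (a (l 16622312) (l 16625928)) (l 16631480)) (a (l 16637864) (l 16645536)))) (b (b (a (l 16651096) (l 148880846999)) (a (b (l 16660688) (l 103783643207)) (l 3))) (b (a (b (a (l 239544878919) (l 3)) (l 2)) (l 3)) (l 2)))) (b (a (b (b (b (l 16606240) (l 16613360)) (b (l 16620680) (l 16628072))) (b (l 81771952279) (l 149417639175))) (b (b (b (l 81771878423) (l 88751215287)) (l 100562416183)) (l 3))) (l 3))) (l 3)) (l 3)) (l 3)),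 by decide +kernel⟩

def k6_mm_202 : ∃ t, chk3 f_mm_202 t 3 1 1 = true :=
  ⟨(l 3), by decide +kernel⟩

theorem s7_mm_202 : ∃ t, chk3 f_mm_202 t 2 5 1 = true := ex3_a k3_mm_202 k4_mm_202

theorem s8_mm_202 : ∃ t, chk3 f_mm_202 t 5 4 1 = true := ex3_b k1_mm_202 k2_mm_202

theorem s9_mm_202 : ∃ t, chk3 f_mm_202 t 2 4 1 = true := ex3_a k0_mm_202 s8_mm_202

theorem s10_mm_202 : ∃ t, chk3 f_mm_202 t 2 2 1 = true := ex3_b s9_mm_202 s7_mm_202

theorem s11_mm_202 : ∃ t, chk3 f_mm_202 t 2 1 1 = true := ex3_b s10_mm_202 k5_mm_202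

theorem s12_mm_202 : ∃ t, chk3 f_mm_202 t 1 1 1 = true := ex3_a s11_mm_202 k6_mm_202

theorem c_mm_202 : CertB 0 536870912 1073741824 536870912 649613803 48318383 3 eng mog cd0q2 cd7q2 pd0 false false false .pp 2 0 2
    ndB0q2 ndB7q2 pcB0 Cut.none Ext.none :=
  certB1 (fam := false) (s1 := false) (s2 := false) (a := 2) (b := 0) (c := 2) (cn := .pp) (n1 := ndB0q2) (n2 := ndB7q2) (pc := pcB0) (cut := Cut.none) (xt := Ext.none) (P1 := 0) (W1 := 536870912) (P2 := 1073741824) (W2 := 536870912) (P3 := 649613803) (W3 := 48318383) (N0 := 3) (En := eng) (mo := mog) (C1 := cd0q2) (C2 := cd7q2) (C3 := pd0)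
    rfl (fun _ => rfl) s12_mm_202

noncomputable def f_mm_203 : ℕ → ℕ → ℕ → ℕ → Bool := onCell 0 536870912 0 1230186008 649613803 48318383
    (rowB 3 eng mog cd0q2 cd7q3 pd0 0 false false false .up 2 0 3 (qsf 0 536870912 0 1230186008 0) ndB0q2 ndB7q3 pcB0 Cut.none Ext.none)

def k0_mm_203 : ∃ t, chk3 f_mm_203 t 1 1 1 = true :=
  ⟨(b (l 2) (b (l 2) (a (b (l 3) (a (b (l 3) (a (a (b (l 3) (b (l 3) (l 158544545015))) (l 3)) (l 3))) (l 3))) (l 3)))), by decide +kernel⟩

theorem c_mm_203 : CertB 0 536870912 0 1230186008 649613803 48318383 3 eng mog cd0q2 cd7q3 pd0 false false false .up 2 0 3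
    ndB0q2 ndB7q3 pcB0 Cut.none Ext.none :=
  certB0 (fam := false) (s1 := false) (s2 := false) (a := 2) (b := 0) (c := 3) (cn := .up) (n1 := ndB0q2) (n2 := ndB7q3) (pc := pcB0) (cut := Cut.none) (xt := Ext.none) (P1 := 0) (W1 := 536870912) (P2 := 0) (W2 := 1230186008) (P3 := 649613803) (W3 := 48318383) (N0 := 3) (En := eng) (mo := mog) (C1 := cd0q2) (C2 := cd7q3) (C3 := pd0)
    rfl k0_mm_203

noncomputable def f_mm_213 : ℕ → ℕ → ℕ → ℕ → Bool := onCell 0 536870912 0 1230186008 649613803 48318383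
    (rowB 3 eng mog cd0q2 cd7q3 pd1 0 false false false .pnn 2 1 3 (qsf 0 536870912 0 1230186008 1) ndB0q2 ndB7q3 pcB1 Cut.none Ext.none)

def k0_mm_213 : ∃ t, chk3 f_mm_213 t 1 1 1 = true :=
  ⟨(b (a (l 3) (b (l 5) (l 3))) (b (l 3) (a (b (l 3) (a (l 1) (l 3))) (l 3)))), by decide +kernel⟩

theorem c_mm_213 : CertB 0 536870912 0 1230186008 649613803 48318383 3 eng mog cd0q2 cd7q3 pd1 false false false .pnn 2 1 3
    ndB0q2 ndB7q3 pcB1 Cut.none Ext.none :=
  certB0 (fam := false) (s1 := false) (s2 := false) (a := 2) (b := 1) (c := 3) (cn := .pnn) (n1 := ndB0q2) (n2 := ndB7q3) (pc := pcB1) (cut := Cut.none) (xt := Ext.none) (P1 := 0) (W1 := 536870912) (P2 := 0) (W2 := 1230186008) (P3 := 649613803) (W3 := 48318383) (N0 := 3) (En := eng) (mo := mog) (C1 := cd0q2) (C2 := cd7q3) (C3 := pd1)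
    rfl k0_mm_213

end Pool.Agent.Strip051.G.I6050_6500.Tab.C.BB07

namespace Pool.Agent.Strip051.G.I6050_6500.Tab.C.BB08

open Pool.Agent.Strip051.PB Pool.Agent.Strip051.PB.T
open Pool.Agent.Strip051.G.I6050_6500.Tab

noncomputable def cut_pp_001 : Cut := Cut.of [[⟨3, 0, 0, 1449551462⟩]]

noncomputable def f_pp_001 : ℕ → ℕ → ℕ → ℕ → Bool := onCell 0 536870912 536870912 536870912 649613803 48318383
    (rowB 3 eng mog cd0q0 cd8q1 pd0 0 false true true .up 0 0 1 (qsf 0 536870912 536870912 536870912 0) ndB0q0 ndB8q1 pcB0 cut_pp_001 Ext.none)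

def k0_pp_001 : ∃ t, chk3 f_pp_001 t 1 1 1 = true :=
  ⟨(l 6), by decide +kernel⟩

theorem c_pp_001 : CertB 0 536870912 536870912 536870912 649613803 48318383 3 eng mog cd0q0 cd8q1 pd0 false true true .up 0 0 1
    ndB0q0 ndB8q1 pcB0 cut_pp_001 Ext.none :=
  certB0 (fam := false) (s1 := true) (s2 := true) (a := 0) (b := 0) (c := 1) (cn := .up) (n1 := ndB0q0) (n2 := ndB8q1) (pc := pcB0) (cut := cut_pp_001) (xt := Ext.none) (P1 := 0) (W1 := 536870912) (P2 := 536870912) (W2 := 536870912) (P3 := 649613803) (W3 := 48318383) (N0 := 3) (En := eng) (mo := mog) (C1 := cd0q0) (C2 := cd8q1) (C3 := pd0)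
    rfl k0_pp_001

noncomputable def cut_pp_011 : Cut := Cut.of [[⟨3, 0, 0, 1449551462⟩], [⟨0, 0, 0, 67108864⟩, ⟨1, 1, 0, 67108864⟩, ⟨2, 1, 0, 67108864⟩]]

noncomputable def f_pp_011 : ℕ → ℕ → ℕ → ℕ → Bool := onCell 0 536870912 536870912 536870912 649613803 48318383
    (rowB 3 eng mog cd0q0 cd8q1 pd1 0 false true true .pnn 0 1 1 (qsf 0 536870912 536870912 536870912 1) ndB0q0 ndB8q1 pcB1 cut_pp_011 Ext.none)

def k0_pp_011 : ∃ t, chk3 f_pp_011 t 1 1 1 = true :=
  ⟨(l 6), by decide +kernel⟩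

theorem c_pp_011 : CertB 0 536870912 536870912 536870912 649613803 48318383 3 eng mog cd0q0 cd8q1 pd1 false true true .pnn 0 1 1
    ndB0q0 ndB8q1 pcB1 cut_pp_011 Ext.none :=
  certB0 (fam := false) (s1 := true) (s2 := true) (a := 0) (b := 1) (c := 1) (cn := .pnn) (n1 := ndB0q0) (n2 := ndB8q1) (pc := pcB1) (cut := cut_pp_011) (xt := Ext.none) (P1 := 0) (W1 := 536870912) (P2 := 536870912) (W2 := 536870912) (P3 := 649613803) (W3 := 48318383) (N0 := 3) (En := eng) (mo := mog) (C1 := cd0q0) (C2 := cd8q1) (C3 := pd1)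
    rfl k0_pp_011

noncomputable def cut_pp_012 : Cut := Cut.of [[⟨3, 0, 0, 1449551462⟩], [⟨0, 0, 0, 67108864⟩, ⟨1, 1, 0, 67108864⟩, ⟨2, 1, 0, 67108864⟩]]

noncomputable def f_pp_012 : ℕ → ℕ → ℕ → ℕ → Bool := onCell 0 536870912 536870912 536870912 649613803 48318383
    (rowB 3 eng mog cd0q0 cd8q2 pd1 1 false true true .pnp 0 1 2 (qsf 0 536870912 1073741824 536870912 1) ndB0q0 ndB8q2 pcB1 cut_pp_012 Ext.none)

def k0_pp_012 : ∃ t, chk3 f_pp_012 t 1 1 1 = true :=
  ⟨(l 6), by decide +kernel⟩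

theorem c_pp_012 : CertB 0 536870912 1073741824 536870912 649613803 48318383 3 eng mog cd0q0 cd8q2 pd1 false true true .pnp 0 1 2
    ndB0q0 ndB8q2 pcB1 cut_pp_012 Ext.none :=
  certB1 (fam := false) (s1 := true) (s2 := true) (a := 0) (b := 1) (c := 2) (cn := .pnp) (n1 := ndB0q0) (n2 := ndB8q2) (pc := pcB1) (cut := cut_pp_012) (xt := Ext.none) (P1 := 0) (W1 := 536870912) (P2 := 1073741824) (W2 := 536870912) (P3 := 649613803) (W3 := 48318383) (N0 := 3) (En := eng) (mo := mog) (C1 := cd0q0) (C2 := cd8q2) (C3 := pd1)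
    rfl (fun _ => rfl) k0_pp_012

noncomputable def cut_pp_022 : Cut := Cut.of [[⟨3, 0, 0, 1449551462⟩], [⟨0, 0, 0, 53687091⟩, ⟨1, 1, 0, 53687091⟩, ⟨2, 1, 0, 53687091⟩]]

noncomputable def f_pp_022 : ℕ → ℕ → ℕ → ℕ → Bool := onCell 0 536870912 1073741824 536870912 649613803 48318383
    (rowB 3 eng mog cd0q0 cd8q2 pd2 0 false true true .pp 0 2 2 (qsf 0 536870912 1073741824 536870912 2) ndB0q0 ndB8q2 pcB2 cut_pp_022 Ext.none)

def k0_pp_022 : ∃ t, chk3 f_pp_022 t 1 1 1 = true :=
  ⟨(b (l 6) (a (b (a (b (a (b (l 6) (a (l 16198728) (l 6))) (l 6)) (a (b (a (l 16130360) (l 16212784)) (l 16219264)) (b (l 6) (a (l 16292056) (l 6))))) (l 6)) (a (b (a (b (a (l 16033760) (l 16107112)) (a (l 16003592) (l 16074696))) (b (a (l 16179448) (l 6)) (a (l 16145160) (l 16214784)))) (a (b (l 16020248) (l 16006488)) (b (a (l 16125232) (l 16195144)) (a (l 16109824) (l 16179112))))) (b (l 6) (a (b (a (l 16264152) (l 6)) (a (l 16248168) (l 16316888))) (l 6))))) (l 6))), by decide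 +kernel⟩

theorem c_pp_022 : CertB 0 536870912 1073741824 536870912 649613803 48318383 3 eng mog cd0q0 cd8q2 pd2 false true true .pp 0 2 2
    ndB0q0 ndB8q2 pcB2 cut_pp_022 Ext.none :=
  certB0 (fam := false) (s1 := true) (s2 := true) (a := 0) (b := 2) (c := 2) (cn := .pp) (n1 := ndB0q0) (n2 := ndB8q2) (pc := pcB2) (cut := cut_pp_022) (xt := Ext.none) (P1 := 0) (W1 := 536870912) (P2 := 1073741824) (W2 := 536870912) (P3 := 649613803) (W3 := 48318383) (N0 := 3) (En := eng) (mo := mog) (C1 := cd0q0) (C2 := cd8q2) (C3 := pd2)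
    rfl k0_pp_022

noncomputable def cut_pp_023 : Cut := Cut.of [[⟨3, 0, 0, 1449551462⟩]]

noncomputable def f_pp_023 : ℕ → ℕ → ℕ → ℕ → Bool := onCell 1073741824 536870912 0 1230186008 649613803 48318383
    (rowB 3 eng mog cd0q0 cd8q3 pd2 2 false true true .up 0 2 3 (qsf 0 536870912 0 1230186008 2) ndB0q0 ndB8q3 pcB2 cut_pp_023 Ext.none)

def k0_pp_023 : ∃ t, chk3 f_pp_023 t 1 1 1 = true :=
  ⟨(a (b (l 2) (l 6)) (b (a (l 2) (b (a (l 2) (b (l 16698456) (l 16790848))) (b (a (l 16746896) (b (l 16774792) (l 16772808))) (a (b (l 16741032) (l 16741184)) (b (l 16774208) (l 16775152)))))) (a (a (b (b (l 2) (l 6)) (l 6)) (b (b (b (l 16725544) (l 16726192)) (b (l 16726152) (a (l 16708832) (l 16702528)))) (b (b (a (l 16662440) (l 16643080)) (b (l 16589696) (l 16538584))) (b (b (l 16482256) (l 16424704)) (b (a (l 16401384) (l 16332272)) (a (l 16340704) (l 16271752))))))) (b (b (a (b (l 16740960) (l 16737136)) (b (l 16769640) (l 16754488))) (a (b (l 16766840) (l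 16709472)) (b (l 16720048) (l 16654232)))) (b (b (a (l 16791128) (l 16540304)) (a (l 16620736) (l 16379048))) (b (a (b (l 16367040) (l 16296792)) (l 16211344)) (a (b (l 16230512) (a (l 16202568) (l 16133592))) (b (l 16095920) (l 16031776))))))))), by decide +kernel⟩

theorem c_pp_023 : CertB 0 536870912 0 1230186008 649613803 48318383 3 eng mog cd0q0 cd8q3 pd2 false true true .up 0 2 3
    ndB0q0 ndB8q3 pcB2 cut_pp_023 Ext.none :=
  certB2 (fam := false) (s1 := true) (s2 := true) (a := 0) (b := 2) (c := 3) (cn := .up) (n1 := ndB0q0) (n2 := ndB8q3) (pc := pcB2) (cut := cut_pp_023) (xt := Ext.none) (P1 := 0) (W1 := 536870912) (P2 := 0) (W2 := 1230186008) (P3 := 649613803) (W3 := 48318383) (N0 := 3) (En := eng) (mo := mog) (C1 := cd0q0) (C2 := cd8q3) (C3 := pd2)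
    rfl (fun _ => rfl) k0_pp_023

noncomputable def cut_pp_033 : Cut := Cut.of [[⟨3, 0, 0, 1449551462⟩]]

noncomputable def f_pp_033 : ℕ → ℕ → ℕ → ℕ → Bool := onCell 1610612736 536870912 0 1230186008 649613803 48318383
    (rowB 3 eng mog cd0q0 cd8q3 pd3 2 false true true .pnn 0 3 3 (qsf 0 536870912 0 1230186008 3) ndB0q0 ndB8q3 pcB3 cut_pp_033 Ext.none)

def k0_pp_033 : ∃ t, chk3 f_pp_033 t 1 2 1 = true :=
  ⟨(b (a (a (a (b (l 16658752) (l 16694904)) (b (l 16502832) (l 16683256))) (a (b (l 16603912) (b (l 16617168) (l 16624624))) (b (l 16559440) (l 16566736)))) (a (a (b (l 16505888) (l 16512256)) (b (l 4) (l 16464296))) (l 4))) (a (a (a (b (l 16836672) (b (l 16730832) (l 16716472))) (b (a (l 16692008) (l 16666616)) (a (l 16672400) (l 16637504)))) (a (a (b (a (l 16642760) (l 16626928)) (a (l 16608864) (b (l 16601736) (l 16576728)))) (b (b (l 16608600) (l 16599984)) (a (b (l 16592848) (l 16566240)) (l 16563592)))) (b (a (l 16571824) (l 16539888)) (b (l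 16529352) (l 16498832))))) (a (a (b (a (l 16514776) (l 16491096)) (a (l 16466864) (l 16651536))) (b (a (l 16468424) (l 16450576)) (a (b (l 16445176) (l 16409264)) (b (l 16427368) (l 16393848))))) (a (b (a (l 16428888) (l 4)) (a (l 16610696) (l 16390528))) (a (b (l 4) (l 562137079079)) (l 4)))))), by decide +kernel⟩

def k1_pp_033 : ∃ t, chk3 f_pp_033 t 1 3 1 = true :=
  ⟨(b (a (a (b (a (b (l 16695440) (l 16664200)) (b (l 16620368) (l 16586168))) (a (b (l 16614096) (l 16534832)) (b (l 16531224) (l 16452936)))) (a (b (a (b (l 16644176) (l 16529592)) (b (l 16525072) (l 16489240))) (b (a (l 16477720) (l 16438296)) (l 16356336))) (b (b (l 16487104) (l 16425224)) (b (a (l 16392952) (l 16349952)) (l 16426144))))) (a (b (a (b (a (l 16416024) (l 16388136)) (a (l 16372152) (l 16345528))) (b (a (l 16369792) (l 16362088)) (a (l 16320472) (l 16307008)))) (a (b (a (l 16311360) (l 16281600)) (a (l 16233608) (l 16194152))) (b (a (l 16254064) (l 1)) (l 1)))) (a (b (a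 (b (l 16355440) (l 1)) (l 1)) (l 1)) (l 1)))) (a (b (a (a (b (l 16422032) (l 16270200)) (b (l 16343592) (l 16186936))) (a (b (l 16271000) (l 16113480)) (b (l 16196968) (l 1)))) (a (b (a (l 16123280) (l 16013440)) (a (b (l 16018664) (l 15939944)) (b (l 15893184) (l 1)))) (b (a (l 15893656) (l 1)) (l 1)))) (l 1))), by decide +kernel⟩

theorem s2_pp_033 : ∃ t, chk3 f_pp_033 t 1 1 1 = true := ex3_b k0_pp_033 k1_pp_033

theorem c_pp_033 : CertB 0 536870912 0 1230186008 649613803 48318383 3 eng mog cd0q0 cd8q3 pd3 false true true .pnn 0 3 3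
    ndB0q0 ndB8q3 pcB3 cut_pp_033 Ext.none :=
  certB2 (fam := false) (s1 := true) (s2 := true) (a := 0) (b := 3) (c := 3) (cn := .pnn) (n1 := ndB0q0) (n2 := ndB8q3) (pc := pcB3) (cut := cut_pp_033) (xt := Ext.none) (P1 := 0) (W1 := 536870912) (P2 := 0) (W2 := 1230186008) (P3 := 649613803) (W3 := 48318383) (N0 := 3) (En := eng) (mo := mog) (C1 := cd0q0) (C2 := cd8q3) (C3 := pd3)
    rfl (fun _ => rfl) s2_pp_033

noncomputable def cut_pp_101 : Cut := Cut.of [[⟨3, 0, 0, 1449551462⟩]]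

noncomputable def f_pp_101 : ℕ → ℕ → ℕ → ℕ → Bool := onCell 536870912 536870912 0 536870912 649613803 48318383
    (rowB 3 eng mog cd0q1 cd8q1 pd0 1 false true true .npn 1 0 1 (qsf 536870912 536870912 536870912 536870912 0) ndB0q1 ndB8q1 pcB0 cut_pp_101 Ext.none)

def k0_pp_101 : ∃ t, chk3 f_pp_101 t 1 1 1 = true :=
  ⟨(l 6), by decide +kernel⟩

theorem c_pp_101 : CertB 536870912 536870912 536870912 536870912 649613803 48318383 3 eng mog cd0q1 cd8q1 pd0 false true true .npn 1 0 1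
    ndB0q1 ndB8q1 pcB0 cut_pp_101 Ext.none :=
  certB1 (fam := false) (s1 := true) (s2 := true) (a := 1) (b := 0) (c := 1) (cn := .npn) (n1 := ndB0q1) (n2 := ndB8q1) (pc := pcB0) (cut := cut_pp_101) (xt := Ext.none) (P1 := 536870912) (W1 := 536870912) (P2 := 536870912) (W2 := 536870912) (P3 := 649613803) (W3 := 48318383) (N0 := 3) (En := eng) (mo := mog) (C1 := cd0q1) (C2 := cd8q1) (C3 := pd0)
    rfl (fun _ => rfl) k0_pp_101

noncomputable def cut_pp_102 : Cut := Cut.of [[⟨3, 0, 0, 1449551462⟩]]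

noncomputable def f_pp_102 : ℕ → ℕ → ℕ → ℕ → Bool := onCell 536870912 536870912 1073741824 536870912 649613803 48318383
    (rowB 3 eng mog cd0q1 cd8q2 pd0 0 false true true .npp 1 0 2 (qsf 536870912 536870912 1073741824 536870912 0) ndB0q1 ndB8q2 pcB0 cut_pp_102 Ext.none)

def k0_pp_102 : ∃ t, chk3 f_pp_102 t 1 1 1 = true :=
  ⟨(l 6), by decide +kernel⟩

theorem c_pp_102 : CertB 536870912 536870912 1073741824 536870912 649613803 48318383 3 eng mog cd0q1 cd8q2 pd0 false true true .npp 1 0 2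
    ndB0q1 ndB8q2 pcB0 cut_pp_102 Ext.none :=
  certB0 (fam := false) (s1 := true) (s2 := true) (a := 1) (b := 0) (c := 2) (cn := .npp) (n1 := ndB0q1) (n2 := ndB8q2) (pc := pcB0) (cut := cut_pp_102) (xt := Ext.none) (P1 := 536870912) (W1 := 536870912) (P2 := 1073741824) (W2 := 536870912) (P3 := 649613803) (W3 := 48318383) (N0 := 3) (En := eng) (mo := mog) (C1 := cd0q1) (C2 := cd8q2) (C3 := pd0)
    rfl k0_pp_102

noncomputable def cut_pp_112 : Cut := Cut.of [[⟨3, 0, 0, 1449551462⟩]]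

noncomputable def f_pp_112 : ℕ → ℕ → ℕ → ℕ → Bool := onCell 536870912 536870912 1073741824 536870912 649613803 48318383
    (rowB 3 eng mog cd0q1 cd8q2 pd1 0 false true true .dn 1 1 2 (qsf 536870912 536870912 1073741824 536870912 1) ndB0q1 ndB8q2 pcB1 cut_pp_112 Ext.none)

def k0_pp_112 : ∃ t, chk3 f_pp_112 t 1 1 1 = true :=
  ⟨(l 6), by decide +kernel⟩

theorem c_pp_112 : CertB 536870912 536870912 1073741824 536870912 649613803 48318383 3 eng mog cd0q1 cd8q2 pd1 false true true .dn 1 1 2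
    ndB0q1 ndB8q2 pcB1 cut_pp_112 Ext.none :=
  certB0 (fam := false) (s1 := true) (s2 := true) (a := 1) (b := 1) (c := 2) (cn := .dn) (n1 := ndB0q1) (n2 := ndB8q2) (pc := pcB1) (cut := cut_pp_112) (xt := Ext.none) (P1 := 536870912) (W1 := 536870912) (P2 := 1073741824) (W2 := 536870912) (P3 := 649613803) (W3 := 48318383) (N0 := 3) (En := eng) (mo := mog) (C1 := cd0q1) (C2 := cd8q2) (C3 := pd1)
    rfl k0_pp_112

noncomputable def cut_pp_113 : Cut := Cut.of [[⟨3, 0, 0, 1449551462⟩], [⟨0, 1, 0, 67108864⟩, ⟨1, 1, 0, 67108864⟩, ⟨2, 2, 0, 16777216⟩]]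

noncomputable def f_pp_113 : ℕ → ℕ → ℕ → ℕ → Bool := onCell 536870912 536870912 0 1230186008 649613803 48318383
    (rowB 3 eng mog cd0q1 cd8q3 pd1 0 false true true .nn 1 1 3 (qsf 536870912 536870912 0 1230186008 1) ndB0q1 ndB8q3 pcB1 cut_pp_113 Ext.none)

def k0_pp_113 : ∃ t, chk3 f_pp_113 t 1 1 1 = true :=
  ⟨(b (a (l 2) (a (l 2) (b (a (l 2) (l 6)) (l 6)))) (b (a (a (l 2) (l 6)) (l 6)) (l 6))), by decide +kernel⟩

theorem c_pp_113 : CertB 536870912 536870912 0 1230186008 649613803 48318383 3 eng mog cd0q1 cd8q3 pd1 false true true .nn 1 1 3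
    ndB0q1 ndB8q3 pcB1 cut_pp_113 Ext.none :=
  certB0 (fam := false) (s1 := true) (s2 := true) (a := 1) (b := 1) (c := 3) (cn := .nn) (n1 := ndB0q1) (n2 := ndB8q3) (pc := pcB1) (cut := cut_pp_113) (xt := Ext.none) (P1 := 536870912) (W1 := 536870912) (P2 := 0) (W2 := 1230186008) (P3 := 649613803) (W3 := 48318383) (N0 := 3) (En := eng) (mo := mog) (C1 := cd0q1) (C2 := cd8q3) (C3 := pd1)
    rfl k0_pp_113

noncomputable def cut_pp_123 : Cut := Cut.of [[⟨3, 0, 0, 1449551462⟩], [⟨0, 1, 0, 67108864⟩, ⟨1, 1, 0, 67108864⟩, ⟨2, 2, 0, 16777216⟩]]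

noncomputable def f_pp_123 : ℕ → ℕ → ℕ → ℕ → Bool := onCell 1073741824 536870912 0 1230186008 649613803 48318383
    (rowB 3 eng mog cd0q1 cd8q3 pd2 2 false true true .npn 1 2 3 (qsf 536870912 536870912 0 1230186008 2) ndB0q1 ndB8q3 pcB2 cut_pp_123 Ext.none)

def k0_pp_123 : ∃ t, chk3 f_pp_123 t 1 1 1 = true :=
  ⟨(a (b (a (a (l 6) (b (a (l 6) (b (b (l 16705224) (l 6)) (l 6))) (l 6))) (b (b (a (a (a (l 16691480) (a (l 16677296) (l 16670464))) (l 16689784)) (b (l 16619024) (l 16653496))) (a (a (l 6) (l 16793824)) (l 16712936))) (a (l 6) (a (l 6) (b (a (l 16731824) (l 16730200)) (l 6)))))) (l 6)) (b (b (a (a (b (l 16691192) (l 16718896)) (b (l 16678192) (l 16737672))) (a (b (l 16680296) (l 16759584)) (b (l 16698488) (l 16790736)))) (a (b (a (b (l 16729280) (l 16727136)) (l 16732472)) (a (b (l 16726224) (l 16720848)) (b (l 16724768) (l 16725496)))) (b (a (l 16746888) (b (l 16774888) (l 16772960))) (a (b (l 16741048) (l 16741216)) (l 592739536839))))) (b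 (a (b (a (b (a (l 6) (l 16715160)) (l 6)) (b (l 16725552) (a (l 16724416) (l 16727736)))) (a (l 6) (b (l 16725920) (l 1)))) (b (a (b (l 16740976) (l 1)) (l 1)) (l 1))) (l 1)))), by decide +kernel⟩

theorem c_pp_123 : CertB 536870912 536870912 0 1230186008 649613803 48318383 3 eng mog cd0q1 cd8q3 pd2 false true true .npn 1 2 3
    ndB0q1 ndB8q3 pcB2 cut_pp_123 Ext.none :=
  certB2 (fam := false) (s1 := true) (s2 := true) (a := 1) (b := 2) (c := 3) (cn := .npn) (n1 := ndB0q1) (n2 := ndB8q3) (pc := pcB2) (cut := cut_pp_123) (xt := Ext.none) (P1 := 536870912) (W1 := 536870912) (P2 := 0) (W2 := 1230186008) (P3 := 649613803) (W3 := 48318383) (N0 := 3) (En := eng) (mo := mog) (C1 := cd0q1) (C2 := cd8q3) (C3 := pd2)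
    rfl (fun _ => rfl) k0_pp_123

noncomputable def cut_pp_133 : Cut := Cut.of [[⟨3, 0, 0, 1449551462⟩]]

noncomputable def f_pp_133 : ℕ → ℕ → ℕ → ℕ → Bool := onCell 536870912 536870912 0 1230186008 649613803 48318383
    (rowB 3 eng mog cd0q1 cd8q3 pd3 0 false true true .dn 1 3 3 (qsf 536870912 536870912 0 1230186008 3) ndB0q1 ndB8q3 pcB3 cut_pp_133 Ext.none)

def k0_pp_133 : ∃ t, chk3 f_pp_133 t 1 1 1 = true :=
  ⟨(b (b (a (a (b (l 2859945293479) (l 1)) (l 1)) (l 1)) (l 1)) (l 1)), by decide +kernel⟩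

theorem c_pp_133 : CertB 536870912 536870912 0 1230186008 649613803 48318383 3 eng mog cd0q1 cd8q3 pd3 false true true .dn 1 3 3
    ndB0q1 ndB8q3 pcB3 cut_pp_133 Ext.none :=
  certB0 (fam := false) (s1 := true) (s2 := true) (a := 1) (b := 3) (c := 3) (cn := .dn) (n1 := ndB0q1) (n2 := ndB8q3) (pc := pcB3) (cut := cut_pp_133) (xt := Ext.none) (P1 := 536870912) (W1 := 536870912) (P2 := 0) (W2 := 1230186008) (P3 := 649613803) (W3 := 48318383) (N0 := 3) (En := eng) (mo := mog) (C1 := cd0q1) (C2 := cd8q3) (C3 := pd3)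
    rfl k0_pp_133

noncomputable def cut_pp_202 : Cut := Cut.of [[⟨3, 0, 0, 1449551462⟩]]

noncomputable def f_pp_202 : ℕ → ℕ → ℕ → ℕ → Bool := onCell 0 536870912 1073741824 536870912 649613803 48318383
    (rowB 3 eng mog cd0q2 cd8q2 pd0 0 false true true .pp 2 0 2 (qsf 0 536870912 1073741824 536870912 0) ndB0q2 ndB8q2 pcB0 cut_pp_202 Ext.none)

def k0_pp_202 : ∃ t, chk3 f_pp_202 t 1 1 1 = true :=
  ⟨(l 5), by decide +kernel⟩

theorem c_pp_202 : CertB 0 536870912 1073741824 536870912 649613803 48318383 3 eng mog cd0q2 cd8q2 pd0 false true true .pp 2 0 2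
    ndB0q2 ndB8q2 pcB0 cut_pp_202 Ext.none :=
  certB0 (fam := false) (s1 := true) (s2 := true) (a := 2) (b := 0) (c := 2) (cn := .pp) (n1 := ndB0q2) (n2 := ndB8q2) (pc := pcB0) (cut := cut_pp_202) (xt := Ext.none) (P1 := 0) (W1 := 536870912) (P2 := 1073741824) (W2 := 536870912) (P3 := 649613803) (W3 := 48318383) (N0 := 3) (En := eng) (mo := mog) (C1 := cd0q2) (C2 := cd8q2) (C3 := pd0)
    rfl k0_pp_202

noncomputable def cut_pp_203 : Cut := Cut.of [[⟨3, 0, 0, 1449551462⟩]]

noncomputable def f_pp_203 : ℕ → ℕ → ℕ → ℕ → Bool := onCell 0 536870912 0 1230186008 649613803 48318383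
    (rowB 3 eng mog cd0q2 cd8q3 pd0 0 false true true .up 2 0 3 (qsf 0 536870912 0 1230186008 0) ndB0q2 ndB8q3 pcB0 cut_pp_203 Ext.none)

def k0_pp_203 : ∃ t, chk3 f_pp_203 t 1 1 1 = true :=
  ⟨(b (l 2) (a (l 5) (l 6))), by decide +kernel⟩

theorem c_pp_203 : CertB 0 536870912 0 1230186008 649613803 48318383 3 eng mog cd0q2 cd8q3 pd0 false true true .up 2 0 3
    ndB0q2 ndB8q3 pcB0 cut_pp_203 Ext.none :=
  certB0 (fam := false) (s1 := true) (s2 := true) (a := 2) (b := 0) (c := 3) (cn := .up) (n1 := ndB0q2) (n2 := ndB8q3) (pc := pcB0) (cut := cut_pp_203) (xt := Ext.none) (P1 := 0) (W1 := 536870912) (P2 := 0) (W2 := 1230186008) (P3 := 649613803) (W3 := 48318383) (N0 := 3) (En := eng) (mo := mog) (C1 := cd0q2) (C2 := cd8q3) (C3 := pd0)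
    rfl k0_pp_203

noncomputable def cut_pp_213 : Cut := Cut.of [[⟨3, 0, 0, 1449551462⟩], [⟨0, 1, 0, 67108864⟩, ⟨1, 1, 0, 67108864⟩, ⟨2, 2, 0, 16777216⟩]]

noncomputable def f_pp_213 : ℕ → ℕ → ℕ → ℕ → Bool := onCell 0 536870912 0 1230186008 649613803 48318383
    (rowB 3 eng mog cd0q2 cd8q3 pd1 0 false true true .pnn 2 1 3 (qsf 0 536870912 0 1230186008 1) ndB0q2 ndB8q3 pcB1 cut_pp_213 Ext.none)

def k0_pp_213 : ∃ t, chk3 f_pp_213 t 1 1 1 = true :=
  ⟨(b (l 6) (a (l 5) (l 6))), by decide +kernel⟩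

theorem c_pp_213 : CertB 0 536870912 0 1230186008 649613803 48318383 3 eng mog cd0q2 cd8q3 pd1 false true true .pnn 2 1 3
    ndB0q2 ndB8q3 pcB1 cut_pp_213 Ext.none :=
  certB0 (fam := false) (s1 := true) (s2 := true) (a := 2) (b := 1) (c := 3) (cn := .pnn) (n1 := ndB0q2) (n2 := ndB8q3) (pc := pcB1) (cut := cut_pp_213) (xt := Ext.none) (P1 := 0) (W1 := 536870912) (P2 := 0) (W2 := 1230186008) (P3 := 649613803) (W3 := 48318383) (N0 := 3) (En := eng) (mo := mog) (C1 := cd0q2) (C2 := cd8q3) (C3 := pd1)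
    rfl k0_pp_213

noncomputable def cut_pm_001 : Cut := Cut.of [[⟨3, 0, 0, 1449551462⟩]]

noncomputable def f_pm_001 : ℕ → ℕ → ℕ → ℕ → Bool := onCell 0 536870912 536870912 536870912 649613803 48318383
    (rowB 3 eng mog cd0q0 cd8q1 pd0 0 false true false .up 0 0 1 (qsf 0 536870912 536870912 536870912 0) ndB0q0 ndB8q1 pcB0 cut_pm_001 Ext.none)

def k0_pm_001 : ∃ t, chk3 f_pm_001 t 1 1 1 = true :=
  ⟨(l 4), by decide +kernel⟩

theorem c_pm_001 : CertB 0 536870912 536870912 536870912 649613803 48318383 3 eng mog cd0q0 cd8q1 pd0 false true false .up 0 0 1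
    ndB0q0 ndB8q1 pcB0 cut_pm_001 Ext.none :=
  certB0 (fam := false) (s1 := true) (s2 := false) (a := 0) (b := 0) (c := 1) (cn := .up) (n1 := ndB0q0) (n2 := ndB8q1) (pc := pcB0) (cut := cut_pm_001) (xt := Ext.none) (P1 := 0) (W1 := 536870912) (P2 := 536870912) (W2 := 536870912) (P3 := 649613803) (W3 := 48318383) (N0 := 3) (En := eng) (mo := mog) (C1 := cd0q0) (C2 := cd8q1) (C3 := pd0)
    rfl k0_pm_001

noncomputable def cut_pm_011 : Cut := Cut.of [[⟨3, 0, 0, 1449551462⟩]]

noncomputable def f_pm_011 : ℕ → ℕ → ℕ → ℕ → Bool := onCell 0 536870912 536870912 536870912 649613803 48318383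
    (rowB 3 eng mog cd0q0 cd8q1 pd1 0 false true false .pnn 0 1 1 (qsf 0 536870912 536870912 536870912 1) ndB0q0 ndB8q1 pcB1 cut_pm_011 Ext.none)

def k0_pm_011 : ∃ t, chk3 f_pm_011 t 1 1 1 = true :=
  ⟨(l 4), by decide +kernel⟩

theorem c_pm_011 : CertB 0 536870912 536870912 536870912 649613803 48318383 3 eng mog cd0q0 cd8q1 pd1 false true false .pnn 0 1 1
    ndB0q0 ndB8q1 pcB1 cut_pm_011 Ext.none :=
  certB0 (fam := false) (s1 := true) (s2 := false) (a := 0) (b := 1) (c := 1) (cn := .pnn) (n1 := ndB0q0) (n2 := ndB8q1) (pc := pcB1) (cut := cut_pm_011) (xt := Ext.none) (P1 := 0) (W1 := 536870912) (P2 := 536870912) (W2 := 536870912) (P3 := 649613803) (W3 := 48318383) (N0 := 3) (En := eng) (mo := mog) (C1 := cd0q0) (C2 := cd8q1) (C3 := pd1)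
    rfl k0_pm_011

noncomputable def cut_pm_012 : Cut := Cut.of [[⟨3, 0, 0, 1449551462⟩]]

noncomputable def f_pm_012 : ℕ → ℕ → ℕ → ℕ → Bool := onCell 0 536870912 1073741824 536870912 649613803 48318383
    (rowB 3 eng mog cd0q0 cd8q2 pd1 0 false true false .pnp 0 1 2 (qsf 0 536870912 1073741824 536870912 1) ndB0q0 ndB8q2 pcB1 cut_pm_012 Ext.none)

def k0_pm_012 : ∃ t, chk3 f_pm_012 t 1 1 1 = true :=
  ⟨(l 4), by decide +kernel⟩

theorem c_pm_012 : CertB 0 536870912 1073741824 536870912 649613803 48318383 3 eng mog cd0q0 cd8q2 pd1 false true false .pnp 0 1 2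
    ndB0q0 ndB8q2 pcB1 cut_pm_012 Ext.none :=
  certB0 (fam := false) (s1 := true) (s2 := false) (a := 0) (b := 1) (c := 2) (cn := .pnp) (n1 := ndB0q0) (n2 := ndB8q2) (pc := pcB1) (cut := cut_pm_012) (xt := Ext.none) (P1 := 0) (W1 := 536870912) (P2 := 1073741824) (W2 := 536870912) (P3 := 649613803) (W3 := 48318383) (N0 := 3) (En := eng) (mo := mog) (C1 := cd0q0) (C2 := cd8q2) (C3 := pd1)
    rfl k0_pm_012

noncomputable def cut_pm_022 : Cut := Cut.of [[⟨3, 0, 0, 1449551462⟩]]

noncomputable def f_pm_022 : ℕ → ℕ → ℕ → ℕ → Bool := onCell 0 536870912 1073741824 536870912 649613803 48318383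
    (rowB 3 eng mog cd0q0 cd8q2 pd2 0 false true false .pp 0 2 2 (qsf 0 536870912 1073741824 536870912 2) ndB0q0 ndB8q2 pcB2 cut_pm_022 Ext.none)

def k0_pm_022 : ∃ t, chk3 f_pm_022 t 1 1 1 = true :=
  ⟨(l 4), by decide +kernel⟩

theorem c_pm_022 : CertB 0 536870912 1073741824 536870912 649613803 48318383 3 eng mog cd0q0 cd8q2 pd2 false true false .pp 0 2 2
    ndB0q0 ndB8q2 pcB2 cut_pm_022 Ext.none :=
  certB0 (fam := false) (s1 := true) (s2 := false) (a := 0) (b := 2) (c := 2) (cn := .pp) (n1 := ndB0q0) (n2 := ndB8q2) (pc := pcB2) (cut := cut_pm_022) (xt := Ext.none) (P1 := 0) (W1 := 536870912) (P2 := 1073741824) (W2 := 536870912) (P3 := 649613803) (W3 := 48318383) (N0 := 3) (En := eng) (mo := mog) (C1 := cd0q0) (C2 := cd8q2) (C3 := pd2)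
    rfl k0_pm_022

noncomputable def cut_pm_023 : Cut := Cut.of [[⟨3, 0, 0, 1449551462⟩]]

noncomputable def f_pm_023 : ℕ → ℕ → ℕ → ℕ → Bool := onCell 0 536870912 0 1230186008 649613803 48318383
    (rowB 3 eng mog cd0q0 cd8q3 pd2 0 false true false .up 0 2 3 (qsf 0 536870912 0 1230186008 2) ndB0q0 ndB8q3 pcB2 cut_pm_023 Ext.none)

def k0_pm_023 : ∃ t, chk3 f_pm_023 t 1 1 1 = true :=
  ⟨(b (a (l 2) (a (l 2) (b (a (l 2) (b (l 16654008) (l 16843736))) (a (l 4) (l 4))))) (l 4)), by decide +kernel⟩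

theorem c_pm_023 : CertB 0 536870912 0 1230186008 649613803 48318383 3 eng mog cd0q0 cd8q3 pd2 false true false .up 0 2 3
    ndB0q0 ndB8q3 pcB2 cut_pm_023 Ext.none :=
  certB0 (fam := false) (s1 := true) (s2 := false) (a := 0) (b := 2) (c := 3) (cn := .up) (n1 := ndB0q0) (n2 := ndB8q3) (pc := pcB2) (cut := cut_pm_023) (xt := Ext.none) (P1 := 0) (W1 := 536870912) (P2 := 0) (W2 := 1230186008) (P3 := 649613803) (W3 := 48318383) (N0 := 3) (En := eng) (mo := mog) (C1 := cd0q0) (C2 := cd8q3) (C3 := pd2)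
    rfl k0_pm_023

noncomputable def cut_pm_033 : Cut := Cut.of [[⟨3, 0, 0, 1449551462⟩]]

noncomputable def f_pm_033 : ℕ → ℕ → ℕ → ℕ → Bool := onCell 1610612736 536870912 0 1230186008 649613803 48318383
    (rowB 3 eng mog cd0q0 cd8q3 pd3 2 false true false .pnn 0 3 3 (qsf 0 536870912 0 1230186008 3) ndB0q0 ndB8q3 pcB3 cut_pm_033 Ext.none)

def k0_pm_033 : ∃ t, chk3 f_pm_033 t 1 1 1 = true :=
  ⟨(b (b (a (a (a (l 16638000) (a (l 16613768) (l 16604920))) (a (l 16663352) (l 4))) (l 4)) (l 4)) (l 4)), by decide +kernel⟩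

theorem c_pm_033 : CertB 0 536870912 0 1230186008 649613803 48318383 3 eng mog cd0q0 cd8q3 pd3 false true false .pnn 0 3 3
    ndB0q0 ndB8q3 pcB3 cut_pm_033 Ext.none :=
  certB2 (fam := false) (s1 := true) (s2 := false) (a := 0) (b := 3) (c := 3) (cn := .pnn) (n1 := ndB0q0) (n2 := ndB8q3) (pc := pcB3) (cut := cut_pm_033) (xt := Ext.none) (P1 := 0) (W1 := 536870912) (P2 := 0) (W2 := 1230186008) (P3 := 649613803) (W3 := 48318383) (N0 := 3) (En := eng) (mo := mog) (C1 := cd0q0) (C2 := cd8q3) (C3 := pd3)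
    rfl (fun _ => rfl) k0_pm_033

noncomputable def cut_pm_101 : Cut := Cut.of [[⟨3, 0, 0, 1449551462⟩]]

noncomputable def f_pm_101 : ℕ → ℕ → ℕ → ℕ → Bool := onCell 536870912 536870912 536870912 536870912 649613803 48318383
    (rowB 3 eng mog cd0q1 cd8q1 pd0 0 false true false .npn 1 0 1 (qsf 536870912 536870912 536870912 536870912 0) ndB0q1 ndB8q1 pcB0 cut_pm_101 Ext.none)

def k0_pm_101 : ∃ t, chk3 f_pm_101 t 1 1 1 = true :=
  ⟨(l 4), by decide +kernel⟩

theorem c_pm_101 : CertB 536870912 536870912 536870912 536870912 649613803 48318383 3 eng mog cd0q1 cd8q1 pd0 false true false .npn 1 0 1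
    ndB0q1 ndB8q1 pcB0 cut_pm_101 Ext.none :=
  certB0 (fam := false) (s1 := true) (s2 := false) (a := 1) (b := 0) (c := 1) (cn := .npn) (n1 := ndB0q1) (n2 := ndB8q1) (pc := pcB0) (cut := cut_pm_101) (xt := Ext.none) (P1 := 536870912) (W1 := 536870912) (P2 := 536870912) (W2 := 536870912) (P3 := 649613803) (W3 := 48318383) (N0 := 3) (En := eng) (mo := mog) (C1 := cd0q1) (C2 := cd8q1) (C3 := pd0)
    rfl k0_pm_101

noncomputable def cut_pm_102 : Cut := Cut.of [[⟨3, 0, 0, 1449551462⟩]]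

noncomputable def f_pm_102 : ℕ → ℕ → ℕ → ℕ → Bool := onCell 536870912 536870912 0 536870912 649613803 48318383
    (rowB 3 eng mog cd0q1 cd8q2 pd0 1 false true false .npp 1 0 2 (qsf 536870912 536870912 1073741824 536870912 0) ndB0q1 ndB8q2 pcB0 cut_pm_102 Ext.none)

def k0_pm_102 : ∃ t, chk3 f_pm_102 t 1 1 1 = true :=
  ⟨(a (l 4) (b (l 4) (b (l 4) (a (l 4) (b (l 4) (a (l 4) (l 16603096))))))), by decide +kernel⟩

theorem c_pm_102 : CertB 536870912 536870912 1073741824 536870912 649613803 48318383 3 eng mog cd0q1 cd8q2 pd0 false true false .npp 1 0 2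
    ndB0q1 ndB8q2 pcB0 cut_pm_102 Ext.none :=
  certB1 (fam := false) (s1 := true) (s2 := false) (a := 1) (b := 0) (c := 2) (cn := .npp) (n1 := ndB0q1) (n2 := ndB8q2) (pc := pcB0) (cut := cut_pm_102) (xt := Ext.none) (P1 := 536870912) (W1 := 536870912) (P2 := 1073741824) (W2 := 536870912) (P3 := 649613803) (W3 := 48318383) (N0 := 3) (En := eng) (mo := mog) (C1 := cd0q1) (C2 := cd8q2) (C3 := pd0)
    rfl (fun _ => rfl) k0_pm_102

noncomputable def cut_pm_112 : Cut := Cut.of [[⟨3, 0, 0, 1449551462⟩]]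

noncomputable def f_pm_112 : ℕ → ℕ → ℕ → ℕ → Bool := onCell 536870912 536870912 1073741824 536870912 649613803 48318383
    (rowB 3 eng mog cd0q1 cd8q2 pd1 0 false true false .dn 1 1 2 (qsf 536870912 536870912 1073741824 536870912 1) ndB0q1 ndB8q2 pcB1 cut_pm_112 Ext.none)

def k0_pm_112 : ∃ t, chk3 f_pm_112 t 1 1 1 = true :=
  ⟨(a (l 4) (b (l 4) (a (l 4) (b (l 4) (b (l 4) (a (l 4) (l 16632632))))))), by decide +kernel⟩

theorem c_pm_112 : CertB 536870912 536870912 1073741824 536870912 649613803 48318383 3 eng mog cd0q1 cd8q2 pd1 false true false .dn 1 1 2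
    ndB0q1 ndB8q2 pcB1 cut_pm_112 Ext.none :=
  certB0 (fam := false) (s1 := true) (s2 := false) (a := 1) (b := 1) (c := 2) (cn := .dn) (n1 := ndB0q1) (n2 := ndB8q2) (pc := pcB1) (cut := cut_pm_112) (xt := Ext.none) (P1 := 536870912) (W1 := 536870912) (P2 := 1073741824) (W2 := 536870912) (P3 := 649613803) (W3 := 48318383) (N0 := 3) (En := eng) (mo := mog) (C1 := cd0q1) (C2 := cd8q2) (C3 := pd1)
    rfl k0_pm_112

noncomputable def cut_pm_113 : Cut := Cut.of [[⟨3, 0, 0, 1449551462⟩], [⟨0, 1, 0, 67108864⟩, ⟨1, 1, 0, 67108864⟩, ⟨2, 2, 0, 16777216⟩]]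

noncomputable def f_pm_113 : ℕ → ℕ → ℕ → ℕ → Bool := onCell 536870912 536870912 0 1230186008 649613803 48318383
    (rowB 3 eng mog cd0q1 cd8q3 pd1 0 false true false .nn 1 1 3 (qsf 536870912 536870912 0 1230186008 1) ndB0q1 ndB8q3 pcB1 cut_pm_113 Ext.none)

def k0_pm_113 : ∃ t, chk3 f_pm_113 t 1 1 1 = true :=
  ⟨(b (a (l 2) (a (l 2) (b (a (l 2) (a (l 2) (b (l 6) (b (l 14) (l 16778336))))) (b (a (b (l 2) (l 16717528)) (a (l 16766248) (l 16789320))) (a (b (l 16693024) (l 16665960)) (b (l 16773136) (l 16761440))))))) (a (b (b (l 2) (l 4)) (l 4)) (b (a (b (a (l 2) (b (a (l 2) (l 16553792)) (l 16514072))) (a (b (a (l 414027603863) (l 16332544)) (a (l 4) (l 16315696))) (b (l 16459040) (a (l 16387456) (l 16462624))))) (b (a (b (l 16641912) (a (l 16591648) (l 16647656))) (b (l 16741456) (l 16722752))) (a (b (a (l 16569480) (l 16624440)) (a (l 16536000) (l 16600496))) (b (l 16692904) (a (l 16661704) (l 16718832)))))) (a (b (a (l 4) (b (l 46405576999) (l 16415832)))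 (l 4)) (b (a (b (a (l 16516232) (l 16580016)) (l 16535672)) (b (l 16688304) (b (l 16667248) (l 16665832)))) (b (a (l 16545240) (l 16666480)) (a (l 4) (l 16666024)))))))), by decide +kernel⟩

theorem c_pm_113 : CertB 536870912 536870912 0 1230186008 649613803 48318383 3 eng mog cd0q1 cd8q3 pd1 false true false .nn 1 1 3
    ndB0q1 ndB8q3 pcB1 cut_pm_113 Ext.none :=
  certB0 (fam := false) (s1 := true) (s2 := false) (a := 1) (b := 1) (c := 3) (cn := .nn) (n1 := ndB0q1) (n2 := ndB8q3) (pc := pcB1) (cut := cut_pm_113) (xt := Ext.none) (P1 := 536870912) (W1 := 536870912) (P2 := 0) (W2 := 1230186008) (P3 := 649613803) (W3 := 48318383) (N0 := 3) (En := eng) (mo := mog) (C1 := cd0q1) (C2 := cd8q3) (C3 := pd1)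
    rfl k0_pm_113

noncomputable def cut_pm_123 : Cut := Cut.of [[⟨3, 0, 0, 1449551462⟩], [⟨0, 1, 0, 67108864⟩, ⟨1, 1, 0, 67108864⟩, ⟨2, 2, 0, 16777216⟩]]

noncomputable def f_pm_123 : ℕ → ℕ → ℕ → ℕ → Bool := onCell 1073741824 536870912 0 1230186008 649613803 48318383
    (rowB 3 eng mog cd0q1 cd8q3 pd2 2 false true false .npn 1 2 3 (qsf 536870912 536870912 0 1230186008 2) ndB0q1 ndB8q3 pcB2 cut_pm_123 Ext.none)

def k0_pm_123 : ∃ t, chk3 f_pm_123 t 1 1 1 = true :=
  ⟨(b (a (a (b (a (b (a (l 6) (b (l 6) (l 16725016))) (a (b (l 14) (l 16743320)) (l 16711128))) (b (a (l 16701888) (l 16663192)) (b (l 16654176) (l 16631120)))) (b (a (a (b (l 16753728) (l 16749208)) (b (l 16707424) (l 16680088))) (b (a (l 16647048) (l 16580240)) (l 16824888))) (a (b (a (l 16697576) (l 16618760)) (a (l 16618224) (l 16541656))) (b (a (l 16547768) (l 16489032)) (a (l 16482728) (l 16436224)))))) (b (a (b (a (a (l 16629832) (a (l 16612240) (l 16769256))) (a (l 16583096) (l 16573576)))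 (a (l 16564448) (l 16770272))) (b (a (l 16574976) (l 16581664)) (a (l 16523784) (l 16539216)))) (a (a (b (l 16506080) (b (l 16451504) (l 16408992))) (b (b (l 16484696) (l 16461920)) (b (l 16433888) (l 16403616)))) (a (b (l 16486408) (l 16430920)) (b (l 16502208) (l 16445984)))))) (a (b (a (b (a (l 16593600) (l 16608176)) (a (l 16557216) (l 16571192))) (b (l 16737520) (a (l 16580640) (l 16595040)))) (a (b (b (l 16533752) (l 16509768)) (b (l 16479016) (l 16453024))) (a (b (l 16539208) (l 16624272)) (b (l 16565168) (l 16538200))))) (b (a (b (l 16841888) (b (l 16619288) (l 16601040))) (a (l 16640016) (l 16649048))) (b (a (a (l 16586168) (l 16602688)) (b (l 16595192) (l 4))) (l 4))))) (b (a (a (b (a (b (a (l 16535776) (l 16463144)) (a (l 16433736) (l 16374376))) (b (l 16519480) (a (l 16341360) (l 16335200)))) (b (a (a (l 16324288) (l 16300920)) (b (l 4) (l 4))) (l 4))) (b (a (b (a (l 16369640) (l 16375600)) (a (l 16342600) (l 4))) (b (l 16420296) (l 4))) (l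 4))) (l 4)) (l 4))), by decide +kernel⟩

theorem c_pm_123 : CertB 536870912 536870912 0 1230186008 649613803 48318383 3 eng mog cd0q1 cd8q3 pd2 false true false .npn 1 2 3
    ndB0q1 ndB8q3 pcB2 cut_pm_123 Ext.none :=
  certB2 (fam := false) (s1 := true) (s2 := false) (a := 1) (b := 2) (c := 3) (cn := .npn) (n1 := ndB0q1) (n2 := ndB8q3) (pc := pcB2) (cut := cut_pm_123) (xt := Ext.none) (P1 := 536870912) (W1 := 536870912) (P2 := 0) (W2 := 1230186008) (P3 := 649613803) (W3 := 48318383) (N0 := 3) (En := eng) (mo := mog) (C1 := cd0q1) (C2 := cd8q3) (C3 := pd2)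
    rfl (fun _ => rfl) k0_pm_123

noncomputable def cut_pm_133 : Cut := Cut.of [[⟨3, 0, 0, 1449551462⟩]]

noncomputable def f_pm_133 : ℕ → ℕ → ℕ → ℕ → Bool := onCell 1610612736 536870912 0 1230186008 649613803 48318383
    (rowB 3 eng mog cd0q1 cd8q3 pd3 2 false true false .dn 1 3 3 (qsf 536870912 536870912 0 1230186008 3) ndB0q1 ndB8q3 pcB3 cut_pm_133 Ext.none)

def k0_pm_133 : ∃ t, chk3 f_pm_133 t 1 1 1 = true :=
  ⟨(b (b (a (a (a (l 16637024) (l 1)) (l 1)) (l 1)) (l 1)) (l 1)), by decide +kernel⟩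

theorem c_pm_133 : CertB 536870912 536870912 0 1230186008 649613803 48318383 3 eng mog cd0q1 cd8q3 pd3 false true false .dn 1 3 3
    ndB0q1 ndB8q3 pcB3 cut_pm_133 Ext.none :=
  certB2 (fam := false) (s1 := true) (s2 := false) (a := 1) (b := 3) (c := 3) (cn := .dn) (n1 := ndB0q1) (n2 := ndB8q3) (pc := pcB3) (cut := cut_pm_133) (xt := Ext.none) (P1 := 536870912) (W1 := 536870912) (P2 := 0) (W2 := 1230186008) (P3 := 649613803) (W3 := 48318383) (N0 := 3) (En := eng) (mo := mog) (C1 := cd0q1) (C2 := cd8q3) (C3 := pd3)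
    rfl (fun _ => rfl) k0_pm_133

noncomputable def cut_pm_202 : Cut := Cut.of [[⟨3, 0, 0, 1449551462⟩]]

noncomputable def f_pm_202 : ℕ → ℕ → ℕ → ℕ → Bool := onCell 0 536870912 0 536870912 649613803 48318383
    (rowB 3 eng mog cd0q2 cd8q2 pd0 1 false true false .pp 2 0 2 (qsf 0 536870912 1073741824 536870912 0) ndB0q2 ndB8q2 pcB0 cut_pm_202 Ext.none)

def k0_pm_202 : ∃ t, chk3 f_pm_202 t 2 1 1 = true :=
  ⟨(b (b (a (a (b (b (l 16352704) (l 16400120)) (b (l 16441840) (l 16483848))) (b (b (l 16311928) (l 16362400)) (b (l 16411368) (l 16518928)))) (a (b (b (a (l 16272864) (l 16239424)) (a (l 16326080) (l 16296304))) (b (l 16362560) (l 16414664))) (b (b (l 16170696) (l 16230496)) (b (l 16461168) (a (l 16367624) (l 16328856)))))) (b (a (b (a (l 16523064) (l 16497480)) (a (l 16600808) (l 16539080))) (b (a (l 16463128) (l 16398080)) (a (l 16506648) (l 16450432)))) (a (b (a (l 16591872) (l 16576464)) (a (l 16617944) (l 16609832))) (b (a (l 16548288) (l 16501288))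 (a (l 16589544) (l 16546232)))))) (b (b (a (b (a (b (l 16633384) (l 16643608)) (l 16637440)) (a (l 16662952) (b (l 16655192) (l 16664768)))) (b (a (a (l 16628640) (l 16617816)) (a (l 16600120) (l 16576016))) (a (a (l 16656520) (l 16648608)) (l 16837920)))) (a (b (a (l 16683576) (l 16806752)) (a (l 16698136) (l 16701544))) (b (a (l 16678024) (a (l 16665456) (l 16651864))) (a (l 16698240) (a (l 16691048) (l 16681456)))))) (a (l 2) (b (b (a (l 2) (l 16710360)) (l 2)) (l 2))))), by decide +kernel⟩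

def k1_pm_202 : ∃ t, chk3 f_pm_202 t 3 1 1 = true :=
  ⟨(a (b (b (b (a (b (l 16283160) (l 16112048)) (b (l 4) (l 16003568))) (a (b (l 16176048) (l 16242344)) (b (l 16060568) (l 16124360)))) (b (a (b (l 16307896) (l 16368224)) (b (l 16192664) (l 16263464))) (b (a (l 16422416) (l 16334960)) (a (l 16477248) (l 16406688))))) (b (a (b (b (a (l 16549640) (l 16517232)) (a (l 16593464) (l 16569632))) (b (a (l 16633912) (l 16614840)) (a (l 16669392) (l 16655848)))) (a (b (b (l 16485608) (l 16543800)) (b (l 16597016) (l 16643632))) (b (l 16491704) (l 16605160)))) (b (b (a (l 16737048) (l 16683432)) (a (l 2) (l 16726384))) (l 2)))) (a (b (b (l 4) (b (b (l 4) (l 16200552)) (b (l 16276840) (l 16354552)))) (b (b (l 16476184) (b (l 16579656) (l 16638648))) (b (b (l 16686888) (l 16747136)) (b (l 16745280) (l 2))))) (b (l 4) (b (b (l 4) (l 16538408)) (b (b (l 16619136) (l 16681456)) (l 16705336)))))), by decide +kernel⟩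

theorem s2_pm_202 : ∃ t, chk3 f_pm_202 t 1 1 1 = true := ex3_a k0_pm_202 k1_pm_202

theorem c_pm_202 : CertB 0 536870912 1073741824 536870912 649613803 48318383 3 eng mog cd0q2 cd8q2 pd0 false true false .pp 2 0 2
    ndB0q2 ndB8q2 pcB0 cut_pm_202 Ext.none :=
  certB1 (fam := false) (s1 := true) (s2 := false) (a := 2) (b := 0) (c := 2) (cn := .pp) (n1 := ndB0q2) (n2 := ndB8q2) (pc := pcB0) (cut := cut_pm_202) (xt := Ext.none) (P1 := 0) (W1 := 536870912) (P2 := 1073741824) (W2 := 536870912) (P3 := 649613803) (W3 := 48318383) (N0 := 3) (En := eng) (mo := mog) (C1 := cd0q2) (C2 := cd8q2) (C3 := pd0)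
    rfl (fun _ => rfl) s2_pm_202

noncomputable def cut_pm_203 : Cut := Cut.of [[⟨3, 0, 0, 1449551462⟩]]

noncomputable def f_pm_203 : ℕ → ℕ → ℕ → ℕ → Bool := onCell 0 536870912 0 1230186008 649613803 48318383
    (rowB 3 eng mog cd0q2 cd8q3 pd0 0 false true false .up 2 0 3 (qsf 0 536870912 0 1230186008 0) ndB0q2 ndB8q3 pcB0 cut_pm_203 Ext.none)

def k0_pm_203 : ∃ t, chk3 f_pm_203 t 1 1 1 = true :=
  ⟨(b (l 2) (b (l 2) (a (b (b (l 2) (a (a (l 6) (l 175657908023)) (a (l 16790024) (l 16803328)))) (b (a (a (b (l 16760040) (l 16749456)) (b (l 16764200) (l 16747512))) (a (l 16735976) (b (l 16780008) (l 16758672)))) (a (b (a (a (l 16730952) (l 16728624)) (l 16722536)) (a (b (l 16712128) (l 16700144)) (l 16706472))) (b (a (l 16899408) (l 16735552)) (a (l 16709520) (a (l 16710896) (l 16711024))))))) (b (l 2) (a (b (a (b (l 16804592) (l 16777608)) (b (l 2) (l 16819872))) (a (b (l 16748536) (a (l 16712200) (l 16717776))) (b (l 16770696) (a (l 16731552) (l 16758464)))))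 (b (a (b (l 2) (l 16764840)) (l 2)) (a (b (l 16756008) (l 16744104)) (b (b (l 2) (l 16743504)) (l 16715008))))))))), by decide +kernel⟩

theorem c_pm_203 : CertB 0 536870912 0 1230186008 649613803 48318383 3 eng mog cd0q2 cd8q3 pd0 false true false .up 2 0 3
    ndB0q2 ndB8q3 pcB0 cut_pm_203 Ext.none :=
  certB0 (fam := false) (s1 := true) (s2 := false) (a := 2) (b := 0) (c := 3) (cn := .up) (n1 := ndB0q2) (n2 := ndB8q3) (pc := pcB0) (cut := cut_pm_203) (xt := Ext.none) (P1 := 0) (W1 := 536870912) (P2 := 0) (W2 := 1230186008) (P3 := 649613803) (W3 := 48318383) (N0 := 3) (En := eng) (mo := mog) (C1 := cd0q2) (C2 := cd8q3) (C3 := pd0)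
    rfl k0_pm_203

noncomputable def cut_pm_213 : Cut := Cut.of [[⟨3, 0, 0, 1449551462⟩], [⟨0, 1, 0, 67108864⟩, ⟨1, 1, 0, 67108864⟩, ⟨2, 2, 0, 16777216⟩]]

noncomputable def f_pm_213 : ℕ → ℕ → ℕ → ℕ → Bool := onCell 0 536870912 0 1230186008 649613803 48318383
    (rowB 3 eng mog cd0q2 cd8q3 pd1 0 false true false .pnn 2 1 3 (qsf 0 536870912 0 1230186008 1) ndB0q2 ndB8q3 pcB1 cut_pm_213 Ext.none)

def k0_pm_213 : ∃ t, chk3 f_pm_213 t 1 1 1 = true :=
  ⟨(b (a (l 6) (b (a (l 6) (l 6)) (a (b (l 6) (a (l 6) (b (l 6) (a (l 6) (l 16790928))))) (b (a (b (l 6) (a (l 6) (l 16796616))) (b (a (l 6) (l 16796472)) (l 16882792))) (a (b (a (l 16795280) (l 16797344)) (a (l 16793896) (l 16796104))) (b (l 16800888) (l 16801696))))))) (b (a (b (l 6) (a (l 6) (a (b (l 6) (b (l 6) (l 16746888))) (b (a (l 6) (l 16749424)) (l 16752712))))) (a (b (a (b (a (l 6) (l 6)) (b (l 16764912) (l 16765240))) (b (a (l 16782640) (l 16788856)) (l 16784520))) (b (a (l 16757272) (l 16776264))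 (a (l 16742592) (l 16767840)))) (b (a (b (l 16794232) (l 16770968)) (b (l 16795240) (l 16786216))) (a (b (l 16787040) (l 16768456)) (l 16765984))))) (a (b (a (a (l 6) (b (l 6) (b (l 16755384) (l 16725408)))) (b (a (b (l 16754184) (l 16729784)) (l 16717760)) (a (b (l 16717128) (l 16703560)) (l 16759112)))) (a (l 1) (b (a (l 1) (l 16660512)) (l 1)))) (b (a (a (b (l 16733984) (l 16710848)) (b (l 16749480) (l 16717184))) (b (a (l 16737984) (l 16748528)) (l 16970768))) (a (b (a (l 16679992) (l 16721344)) (l 1)) (b (l 16704952) (a (l 16724512) (l 16716240)))))))), by decide +kernel⟩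

theorem c_pm_213 : CertB 0 536870912 0 1230186008 649613803 48318383 3 eng mog cd0q2 cd8q3 pd1 false true false .pnn 2 1 3
    ndB0q2 ndB8q3 pcB1 cut_pm_213 Ext.none :=
  certB0 (fam := false) (s1 := true) (s2 := false) (a := 2) (b := 1) (c := 3) (cn := .pnn) (n1 := ndB0q2) (n2 := ndB8q3) (pc := pcB1) (cut := cut_pm_213) (xt := Ext.none) (P1 := 0) (W1 := 536870912) (P2 := 0) (W2 := 1230186008) (P3 := 649613803) (W3 := 48318383) (N0 := 3) (En := eng) (mo := mog) (C1 := cd0q2) (C2 := cd8q3) (C3 := pd1)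
    rfl k0_pm_213

noncomputable def cut_mm_001 : Cut := Cut.of [[⟨3, 0, 0, 1449551462⟩]]

noncomputable def f_mm_001 : ℕ → ℕ → ℕ → ℕ → Bool := onCell 0 536870912 536870912 536870912 649613803 48318383
    (rowB 3 eng mog cd0q0 cd8q1 pd0 0 false false false .up 0 0 1 (qsf 0 536870912 536870912 536870912 0) ndB0q0 ndB8q1 pcB0 cut_mm_001 Ext.none)

def k0_mm_001 : ∃ t, chk3 f_mm_001 t 1 1 1 = true :=
  ⟨(l 6), by decide +kernel⟩

theorem c_mm_001 : CertB 0 536870912 536870912 536870912 649613803 48318383 3 eng mog cd0q0 cd8q1 pd0 false false false .up 0 0 1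
    ndB0q0 ndB8q1 pcB0 cut_mm_001 Ext.none :=
  certB0 (fam := false) (s1 := false) (s2 := false) (a := 0) (b := 0) (c := 1) (cn := .up) (n1 := ndB0q0) (n2 := ndB8q1) (pc := pcB0) (cut := cut_mm_001) (xt := Ext.none) (P1 := 0) (W1 := 536870912) (P2 := 536870912) (W2 := 536870912) (P3 := 649613803) (W3 := 48318383) (N0 := 3) (En := eng) (mo := mog) (C1 := cd0q0) (C2 := cd8q1) (C3 := pd0)
    rfl k0_mm_001

noncomputable def cut_mm_011 : Cut := Cut.of [[⟨3, 0, 0, 1449551462⟩]]

noncomputable def f_mm_011 : ℕ → ℕ → ℕ → ℕ → Bool := onCell 0 536870912 536870912 536870912 649613803 48318383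
    (rowB 3 eng mog cd0q0 cd8q1 pd1 0 false false false .pnn 0 1 1 (qsf 0 536870912 536870912 536870912 1) ndB0q0 ndB8q1 pcB1 cut_mm_011 Ext.none)

def k0_mm_011 : ∃ t, chk3 f_mm_011 t 1 1 1 = true :=
  ⟨(l 6), by decide +kernel⟩

theorem c_mm_011 : CertB 0 536870912 536870912 536870912 649613803 48318383 3 eng mog cd0q0 cd8q1 pd1 false false false .pnn 0 1 1
    ndB0q0 ndB8q1 pcB1 cut_mm_011 Ext.none :=
  certB0 (fam := false) (s1 := false) (s2 := false) (a := 0) (b := 1) (c := 1) (cn := .pnn) (n1 := ndB0q0) (n2 := ndB8q1) (pc := pcB1) (cut := cut_mm_011) (xt := Ext.none) (P1 := 0) (W1 := 536870912) (P2 := 536870912) (W2 := 536870912) (P3 := 649613803) (W3 := 48318383) (N0 := 3) (En := eng) (mo := mog) (C1 := cd0q0) (C2 := cd8q1) (C3 := pd1)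
    rfl k0_mm_011

noncomputable def cut_mm_012 : Cut := Cut.of [[⟨3, 0, 0, 1449551462⟩]]

noncomputable def f_mm_012 : ℕ → ℕ → ℕ → ℕ → Bool := onCell 0 536870912 1073741824 536870912 649613803 48318383
    (rowB 3 eng mog cd0q0 cd8q2 pd1 0 false false false .pnp 0 1 2 (qsf 0 536870912 1073741824 536870912 1) ndB0q0 ndB8q2 pcB1 cut_mm_012 Ext.none)

def k0_mm_012 : ∃ t, chk3 f_mm_012 t 1 1 1 = true :=
  ⟨(l 5), by decide +kernel⟩

theorem c_mm_012 : CertB 0 536870912 1073741824 536870912 649613803 48318383 3 eng mog cd0q0 cd8q2 pd1 false false false .pnp 0 1 2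
    ndB0q0 ndB8q2 pcB1 cut_mm_012 Ext.none :=
  certB0 (fam := false) (s1 := false) (s2 := false) (a := 0) (b := 1) (c := 2) (cn := .pnp) (n1 := ndB0q0) (n2 := ndB8q2) (pc := pcB1) (cut := cut_mm_012) (xt := Ext.none) (P1 := 0) (W1 := 536870912) (P2 := 1073741824) (W2 := 536870912) (P3 := 649613803) (W3 := 48318383) (N0 := 3) (En := eng) (mo := mog) (C1 := cd0q0) (C2 := cd8q2) (C3 := pd1)
    rfl k0_mm_012

noncomputable def cut_mm_022 : Cut := Cut.of [[⟨3, 0, 0, 1449551462⟩]]

noncomputable def f_mm_022 : ℕ → ℕ → ℕ → ℕ → Bool := onCell 0 536870912 1073741824 536870912 649613803 48318383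
    (rowB 3 eng mog cd0q0 cd8q2 pd2 0 false false false .pp 0 2 2 (qsf 0 536870912 1073741824 536870912 2) ndB0q0 ndB8q2 pcB2 cut_mm_022 Ext.none)

def k0_mm_022 : ∃ t, chk3 f_mm_022 t 1 1 1 = true :=
  ⟨(l 5), by decide +kernel⟩

theorem c_mm_022 : CertB 0 536870912 1073741824 536870912 649613803 48318383 3 eng mog cd0q0 cd8q2 pd2 false false false .pp 0 2 2
    ndB0q0 ndB8q2 pcB2 cut_mm_022 Ext.none :=
  certB0 (fam := false) (s1 := false) (s2 := false) (a := 0) (b := 2) (c := 2) (cn := .pp) (n1 := ndB0q0) (n2 := ndB8q2) (pc := pcB2) (cut := cut_mm_022) (xt := Ext.none) (P1 := 0) (W1 := 536870912) (P2 := 1073741824) (W2 := 536870912) (P3 := 649613803) (W3 := 48318383) (N0 := 3) (En := eng) (mo := mog) (C1 := cd0q0) (C2 := cd8q2) (C3 := pd2)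
    rfl k0_mm_022

noncomputable def cut_mm_023 : Cut := Cut.of [[⟨3, 0, 0, 1449551462⟩]]

noncomputable def f_mm_023 : ℕ → ℕ → ℕ → ℕ → Bool := onCell 0 536870912 0 1230186008 649613803 48318383
    (rowB 3 eng mog cd0q0 cd8q3 pd2 0 false false false .up 0 2 3 (qsf 0 536870912 0 1230186008 2) ndB0q0 ndB8q3 pcB2 cut_mm_023 Ext.none)

def k0_mm_023 : ∃ t, chk3 f_mm_023 t 1 1 1 = true :=
  ⟨(l 5), by decide +kernel⟩

theorem c_mm_023 : CertB 0 536870912 0 1230186008 649613803 48318383 3 eng mog cd0q0 cd8q3 pd2 false false false .up 0 2 3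
    ndB0q0 ndB8q3 pcB2 cut_mm_023 Ext.none :=
  certB0 (fam := false) (s1 := false) (s2 := false) (a := 0) (b := 2) (c := 3) (cn := .up) (n1 := ndB0q0) (n2 := ndB8q3) (pc := pcB2) (cut := cut_mm_023) (xt := Ext.none) (P1 := 0) (W1 := 536870912) (P2 := 0) (W2 := 1230186008) (P3 := 649613803) (W3 := 48318383) (N0 := 3) (En := eng) (mo := mog) (C1 := cd0q0) (C2 := cd8q3) (C3 := pd2)
    rfl k0_mm_023

noncomputable def cut_mm_033 : Cut := Cut.of [[⟨3, 0, 0, 1449551462⟩]]

noncomputable def f_mm_033 : ℕ → ℕ → ℕ → ℕ → Bool := onCell 0 536870912 0 1230186008 649613803 48318383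
    (rowB 3 eng mog cd0q0 cd8q3 pd3 0 false false false .pnn 0 3 3 (qsf 0 536870912 0 1230186008 3) ndB0q0 ndB8q3 pcB3 cut_mm_033 Ext.none)

def k0_mm_033 : ∃ t, chk3 f_mm_033 t 1 1 1 = true :=
  ⟨(l 5), by decide +kernel⟩

theorem c_mm_033 : CertB 0 536870912 0 1230186008 649613803 48318383 3 eng mog cd0q0 cd8q3 pd3 false false false .pnn 0 3 3
    ndB0q0 ndB8q3 pcB3 cut_mm_033 Ext.none :=
  certB0 (fam := false) (s1 := false) (s2 := false) (a := 0) (b := 3) (c := 3) (cn := .pnn) (n1 := ndB0q0) (n2 := ndB8q3) (pc := pcB3) (cut := cut_mm_033) (xt := Ext.none) (P1 := 0) (W1 := 536870912) (P2 := 0) (W2 := 1230186008) (P3 := 649613803) (W3 := 48318383) (N0 := 3) (En := eng) (mo := mog) (C1 := cd0q0) (C2 := cd8q3) (C3 := pd3)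
    rfl k0_mm_033

noncomputable def cut_mm_101 : Cut := Cut.of [[⟨3, 0, 0, 1449551462⟩], [⟨0, 1, 0, 67108864⟩, ⟨1, 0, 0, 67108864⟩, ⟨2, 1, 0, 67108864⟩]]

noncomputable def f_mm_101 : ℕ → ℕ → ℕ → ℕ → Bool := onCell 536870912 536870912 0 536870912 649613803 48318383
    (rowB 3 eng mog cd0q1 cd8q1 pd0 1 false false false .npn 1 0 1 (qsf 536870912 536870912 536870912 536870912 0) ndB0q1 ndB8q1 pcB0 cut_mm_101 Ext.none)

def k0_mm_101 : ∃ t, chk3 f_mm_101 t 1 1 1 = true :=
  ⟨(l 6), by decide +kernel⟩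

theorem c_mm_101 : CertB 536870912 536870912 536870912 536870912 649613803 48318383 3 eng mog cd0q1 cd8q1 pd0 false false false .npn 1 0 1
    ndB0q1 ndB8q1 pcB0 cut_mm_101 Ext.none :=
  certB1 (fam := false) (s1 := false) (s2 := false) (a := 1) (b := 0) (c := 1) (cn := .npn) (n1 := ndB0q1) (n2 := ndB8q1) (pc := pcB0) (cut := cut_mm_101) (xt := Ext.none) (P1 := 536870912) (W1 := 536870912) (P2 := 536870912) (W2 := 536870912) (P3 := 649613803) (W3 := 48318383) (N0 := 3) (En := eng) (mo := mog) (C1 := cd0q1) (C2 := cd8q1) (C3 := pd0)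
    rfl (fun _ => rfl) k0_mm_101

noncomputable def cut_mm_102 : Cut := Cut.of [[⟨3, 0, 0, 1449551462⟩], [⟨0, 1, 0, 67108864⟩, ⟨1, 0, 0, 67108864⟩, ⟨2, 1, 0, 67108864⟩]]

noncomputable def f_mm_102 : ℕ → ℕ → ℕ → ℕ → Bool := onCell 536870912 536870912 1073741824 536870912 649613803 48318383
    (rowB 3 eng mog cd0q1 cd8q2 pd0 0 false false false .npp 1 0 2 (qsf 536870912 536870912 1073741824 536870912 0) ndB0q1 ndB8q2 pcB0 cut_mm_102 Ext.none)

def k0_mm_102 : ∃ t, chk3 f_mm_102 t 1 1 1 = true :=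
  ⟨(l 6), by decide +kernel⟩

theorem c_mm_102 : CertB 536870912 536870912 1073741824 536870912 649613803 48318383 3 eng mog cd0q1 cd8q2 pd0 false false false .npp 1 0 2
    ndB0q1 ndB8q2 pcB0 cut_mm_102 Ext.none :=
  certB0 (fam := false) (s1 := false) (s2 := false) (a := 1) (b := 0) (c := 2) (cn := .npp) (n1 := ndB0q1) (n2 := ndB8q2) (pc := pcB0) (cut := cut_mm_102) (xt := Ext.none) (P1 := 536870912) (W1 := 536870912) (P2 := 1073741824) (W2 := 536870912) (P3 := 649613803) (W3 := 48318383) (N0 := 3) (En := eng) (mo := mog) (C1 := cd0q1) (C2 := cd8q2) (C3 := pd0)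
    rfl k0_mm_102

noncomputable def cut_mm_112 : Cut := Cut.of [[⟨3, 0, 0, 1449551462⟩]]

noncomputable def f_mm_112 : ℕ → ℕ → ℕ → ℕ → Bool := onCell 536870912 536870912 1073741824 536870912 649613803 48318383
    (rowB 3 eng mog cd0q1 cd8q2 pd1 0 false false false .dn 1 1 2 (qsf 536870912 536870912 1073741824 536870912 1) ndB0q1 ndB8q2 pcB1 cut_mm_112 Ext.none)

def k0_mm_112 : ∃ t, chk3 f_mm_112 t 1 1 1 = true :=
  ⟨(l 6), by decide +kernel⟩

theorem c_mm_112 : CertB 536870912 536870912 1073741824 536870912 649613803 48318383 3 eng mog cd0q1 cd8q2 pd1 false false false .dn 1 1 2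
    ndB0q1 ndB8q2 pcB1 cut_mm_112 Ext.none :=
  certB0 (fam := false) (s1 := false) (s2 := false) (a := 1) (b := 1) (c := 2) (cn := .dn) (n1 := ndB0q1) (n2 := ndB8q2) (pc := pcB1) (cut := cut_mm_112) (xt := Ext.none) (P1 := 536870912) (W1 := 536870912) (P2 := 1073741824) (W2 := 536870912) (P3 := 649613803) (W3 := 48318383) (N0 := 3) (En := eng) (mo := mog) (C1 := cd0q1) (C2 := cd8q2) (C3 := pd1)
    rfl k0_mm_112

noncomputable def cut_mm_113 : Cut := Cut.of [[⟨3, 0, 0, 1449551462⟩]]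

noncomputable def f_mm_113 : ℕ → ℕ → ℕ → ℕ → Bool := onCell 536870912 536870912 0 1230186008 649613803 48318383
    (rowB 3 eng mog cd0q1 cd8q3 pd1 0 false false false .nn 1 1 3 (qsf 536870912 536870912 0 1230186008 1) ndB0q1 ndB8q3 pcB1 cut_mm_113 Ext.none)

def k0_mm_113 : ∃ t, chk3 f_mm_113 t 1 1 1 = true :=
  ⟨(a (l 5) (b (l 5) (l 6))), by decide +kernel⟩

theorem c_mm_113 : CertB 536870912 536870912 0 1230186008 649613803 48318383 3 eng mog cd0q1 cd8q3 pd1 false false false .nn 1 1 3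
    ndB0q1 ndB8q3 pcB1 cut_mm_113 Ext.none :=
  certB0 (fam := false) (s1 := false) (s2 := false) (a := 1) (b := 1) (c := 3) (cn := .nn) (n1 := ndB0q1) (n2 := ndB8q3) (pc := pcB1) (cut := cut_mm_113) (xt := Ext.none) (P1 := 536870912) (W1 := 536870912) (P2 := 0) (W2 := 1230186008) (P3 := 649613803) (W3 := 48318383) (N0 := 3) (En := eng) (mo := mog) (C1 := cd0q1) (C2 := cd8q3) (C3 := pd1)
    rfl k0_mm_113

noncomputable def cut_mm_123 : Cut := Cut.of [[⟨3, 0, 0, 1449551462⟩]]

noncomputable def f_mm_123 : ℕ → ℕ → ℕ → ℕ → Bool := onCell 1073741824 536870912 0 1230186008 649613803 48318383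
    (rowB 3 eng mog cd0q1 cd8q3 pd2 2 false false false .npn 1 2 3 (qsf 536870912 536870912 0 1230186008 2) ndB0q1 ndB8q3 pcB2 cut_mm_123 Ext.none)

def k0_mm_123 : ∃ t, chk3 f_mm_123 t 1 1 1 = true :=
  ⟨(b (l 5) (l 5)), by decide +kernel⟩

theorem c_mm_123 : CertB 536870912 536870912 0 1230186008 649613803 48318383 3 eng mog cd0q1 cd8q3 pd2 false false false .npn 1 2 3
    ndB0q1 ndB8q3 pcB2 cut_mm_123 Ext.none :=
  certB2 (fam := false) (s1 := false) (s2 := false) (a := 1) (b := 2) (c := 3) (cn := .npn) (n1 := ndB0q1) (n2 := ndB8q3) (pc := pcB2) (cut := cut_mm_123) (xt := Ext.none) (P1 := 536870912) (W1 := 536870912) (P2 := 0) (W2 := 1230186008) (P3 := 649613803) (W3 := 48318383) (N0 := 3) (En := eng) (mo := mog) (C1 := cd0q1) (C2 := cd8q3) (C3 := pd2)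
    rfl (fun _ => rfl) k0_mm_123

noncomputable def cut_mm_133 : Cut := Cut.of [[⟨3, 0, 0, 1449551462⟩]]

noncomputable def f_mm_133 : ℕ → ℕ → ℕ → ℕ → Bool := onCell 1610612736 536870912 0 1230186008 649613803 48318383
    (rowB 3 eng mog cd0q1 cd8q3 pd3 2 false false false .dn 1 3 3 (qsf 536870912 536870912 0 1230186008 3) ndB0q1 ndB8q3 pcB3 cut_mm_133 Ext.none)

def k0_mm_133 : ∃ t, chk3 f_mm_133 t 1 1 1 = true :=
  ⟨(l 5), by decide +kernel⟩

theorem c_mm_133 : CertB 536870912 536870912 0 1230186008 649613803 48318383 3 eng mog cd0q1 cd8q3 pd3 false false false .dn 1 3 3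
    ndB0q1 ndB8q3 pcB3 cut_mm_133 Ext.none :=
  certB2 (fam := false) (s1 := false) (s2 := false) (a := 1) (b := 3) (c := 3) (cn := .dn) (n1 := ndB0q1) (n2 := ndB8q3) (pc := pcB3) (cut := cut_mm_133) (xt := Ext.none) (P1 := 536870912) (W1 := 536870912) (P2 := 0) (W2 := 1230186008) (P3 := 649613803) (W3 := 48318383) (N0 := 3) (En := eng) (mo := mog) (C1 := cd0q1) (C2 := cd8q3) (C3 := pd3)
    rfl (fun _ => rfl) k0_mm_133

noncomputable def cut_mm_202 : Cut := Cut.of [[⟨3, 0, 0, 1449551462⟩], [⟨0, 1, 0, 53687091⟩, ⟨1, 0, 0, 53687091⟩, ⟨2, 1, 0, 53687091⟩]]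

noncomputable def f_mm_202 : ℕ → ℕ → ℕ → ℕ → Bool := onCell 0 536870912 0 536870912 649613803 48318383
    (rowB 3 eng mog cd0q2 cd8q2 pd0 1 false false false .pp 2 0 2 (qsf 0 536870912 1073741824 536870912 0) ndB0q2 ndB8q2 pcB0 cut_mm_202 Ext.none)

def k0_mm_202 : ∃ t, chk3 f_mm_202 t 1 1 1 = true :=
  ⟨(a (a (b (b (b (a (b (l 16382528) (l 16424784)) (l 16573040)) (b (a (l 16465816) (l 16485440)) (a (l 16504224) (l 16521976)))) (b (a (b (l 16540280) (l 16571864)) (b (l 16554440) (l 16578744))) (a (b (l 16594888) (b (l 16612952) (l 16625400))) (b (a (l 16602688) (l 16611216)) (b (l 16624440) (l 16631640)))))) (b (b (b (a (b (l 16638576) (l 16649448)) (a (l 16650720) (l 16660800))) (a (l 16659944) (a (l 16675880) (l 6)))) (a (b (b (l 16682888) (l 16695240)) (b (l 16706376) (l 2))) (l 6))) (l 2))) (b (b (b (b (a (l 16428256) (a (l 16451312) (l 16491960))) (a (l 16552312) (l 16563040))) (a (b (l 16505584) (l 16539888)) (b (l 16536736) (a (l 16560256) (l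 6))))) (b (a (b (a (l 16565776) (l 16698848)) (a (b (l 16585352) (l 16599688)) (b (l 16597104) (l 6)))) (b (a (b (l 16582760) (l 6)) (l 6)) (l 6))) (a (b (a (l 16619592) (l 6)) (l 6)) (l 6)))) (l 6))) (b (b (a (a (b (a (b (l 16496032) (l 16536072)) (l 6)) (l 6)) (l 6)) (l 6)) (l 6)) (l 6))), by decide +kernel⟩

theorem c_mm_202 : CertB 0 536870912 1073741824 536870912 649613803 48318383 3 eng mog cd0q2 cd8q2 pd0 false false false .pp 2 0 2
    ndB0q2 ndB8q2 pcB0 cut_mm_202 Ext.none :=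
  certB1 (fam := false) (s1 := false) (s2 := false) (a := 2) (b := 0) (c := 2) (cn := .pp) (n1 := ndB0q2) (n2 := ndB8q2) (pc := pcB0) (cut := cut_mm_202) (xt := Ext.none) (P1 := 0) (W1 := 536870912) (P2 := 1073741824) (W2 := 536870912) (P3 := 649613803) (W3 := 48318383) (N0 := 3) (En := eng) (mo := mog) (C1 := cd0q2) (C2 := cd8q2) (C3 := pd0)
    rfl (fun _ => rfl) k0_mm_202

noncomputable def cut_mm_203 : Cut := Cut.of [[⟨3, 0, 0, 1449551462⟩]]

noncomputable def f_mm_203 : ℕ → ℕ → ℕ → ℕ → Bool := onCell 0 536870912 0 1230186008 649613803 48318383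
    (rowB 3 eng mog cd0q2 cd8q3 pd0 0 false false false .up 2 0 3 (qsf 0 536870912 0 1230186008 0) ndB0q2 ndB8q3 pcB0 cut_mm_203 Ext.none)

def k0_mm_203 : ∃ t, chk3 f_mm_203 t 1 1 1 = true :=
  ⟨(b (l 2) (b (l 2) (a (b (l 6) (a (b (l 6) (a (b (l 6) (b (l 16720416) (l 16708920))) (l 6))) (l 6))) (l 3)))), by decide +kernel⟩

theorem c_mm_203 : CertB 0 536870912 0 1230186008 649613803 48318383 3 eng mog cd0q2 cd8q3 pd0 false false false .up 2 0 3
    ndB0q2 ndB8q3 pcB0 cut_mm_203 Ext.none :=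
  certB0 (fam := false) (s1 := false) (s2 := false) (a := 2) (b := 0) (c := 3) (cn := .up) (n1 := ndB0q2) (n2 := ndB8q3) (pc := pcB0) (cut := cut_mm_203) (xt := Ext.none) (P1 := 0) (W1 := 536870912) (P2 := 0) (W2 := 1230186008) (P3 := 649613803) (W3 := 48318383) (N0 := 3) (En := eng) (mo := mog) (C1 := cd0q2) (C2 := cd8q3) (C3 := pd0)
    rfl k0_mm_203

noncomputable def cut_mm_213 : Cut := Cut.of [[⟨3, 0, 0, 1449551462⟩]]

noncomputable def f_mm_213 : ℕ → ℕ → ℕ → ℕ → Bool := onCell 0 536870912 0 1230186008 649613803 48318383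
    (rowB 3 eng mog cd0q2 cd8q3 pd1 0 false false false .pnn 2 1 3 (qsf 0 536870912 0 1230186008 1) ndB0q2 ndB8q3 pcB1 cut_mm_213 Ext.none)

def k0_mm_213 : ∃ t, chk3 f_mm_213 t 1 1 1 = true :=
  ⟨(b (l 6) (b (l 6) (a (b (l 6) (a (l 1) (l 6))) (l 3)))), by decide +kernel⟩

theorem c_mm_213 : CertB 0 536870912 0 1230186008 649613803 48318383 3 eng mog cd0q2 cd8q3 pd1 false false false .pnn 2 1 3
    ndB0q2 ndB8q3 pcB1 cut_mm_213 Ext.none :=
  certB0 (fam := false) (s1 := false) (s2 := false) (a := 2) (b := 1) (c := 3) (cn := .pnn) (n1 := ndB0q2) (n2 := ndB8q3) (pc := pcB1) (cut := cut_mm_213) (xt := Ext.none) (P1 := 0) (W1 := 536870912) (P2 := 0) (W2 := 1230186008) (P3 := 649613803) (W3 := 48318383) (N0 := 3) (En := eng) (mo := mog) (C1 := cd0q2) (C2 := cd8q3) (C3 := pd1)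
    rfl k0_mm_213

end Pool.Agent.Strip051.G.I6050_6500.Tab.C.BB08

namespace Pool.Agent.Strip051.G.I6050_6500.Tab.C.BB10

open Pool.Agent.Strip051.PB Pool.Agent.Strip051.PB.T
open Pool.Agent.Strip051.G.I6050_6500.Tab

noncomputable def f_pp_001 : ℕ → ℕ → ℕ → ℕ → Bool := onCell 0 536870912 0 536870912 649613803 48318383
    (rowB 3 eng mog cd1q0 cd0q1 pd0 1 false true true .up 0 0 1 (qsf 0 536870912 536870912 536870912 0) ndB1q0 ndB0q1 pcB0 Cut.none Ext.none)

def k0_pp_001 : ∃ t, chk3 f_pp_001 t 1 1 1 = true :=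
  ⟨(l 3), by decide +kernel⟩

theorem c_pp_001 : CertB 0 536870912 536870912 536870912 649613803 48318383 3 eng mog cd1q0 cd0q1 pd0 false true true .up 0 0 1
    ndB1q0 ndB0q1 pcB0 Cut.none Ext.none :=
  certB1 (fam := false) (s1 := true) (s2 := true) (a := 0) (b := 0) (c := 1) (cn := .up) (n1 := ndB1q0) (n2 := ndB0q1) (pc := pcB0) (cut := Cut.none) (xt := Ext.none) (P1 := 0) (W1 := 536870912) (P2 := 536870912) (W2 := 536870912) (P3 := 649613803) (W3 := 48318383) (N0 := 3) (En := eng) (mo := mog) (C1 := cd1q0) (C2 := cd0q1) (C3 := pd0)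
    rfl (fun _ => rfl) k0_pp_001

noncomputable def cut_pp_011 : Cut := Cut.of [[⟨0, 0, 0, 67108864⟩, ⟨1, 1, 0, 67108864⟩, ⟨2, 1, 0, 67108864⟩]]

noncomputable def f_pp_011 : ℕ → ℕ → ℕ → ℕ → Bool := onCell 0 536870912 536870912 536870912 649613803 48318383
    (rowB 3 eng mog cd1q0 cd0q1 pd1 0 false true true .pnn 0 1 1 (qsf 0 536870912 536870912 536870912 1) ndB1q0 ndB0q1 pcB1 cut_pp_011 Ext.none)

def k0_pp_011 : ∃ t, chk3 f_pp_011 t 1 1 1 = true :=
  ⟨(a (b (l 3) (b (l 3) (a (b (l 3) (a (b (l 3) (a (b (l 3) (l 6)) (l 3))) (l 3))) (l 3)))) (l 3)), by decide +kernel⟩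

theorem c_pp_011 : CertB 0 536870912 536870912 536870912 649613803 48318383 3 eng mog cd1q0 cd0q1 pd1 false true true .pnn 0 1 1
    ndB1q0 ndB0q1 pcB1 cut_pp_011 Ext.none :=
  certB0 (fam := false) (s1 := true) (s2 := true) (a := 0) (b := 1) (c := 1) (cn := .pnn) (n1 := ndB1q0) (n2 := ndB0q1) (pc := pcB1) (cut := cut_pp_011) (xt := Ext.none) (P1 := 0) (W1 := 536870912) (P2 := 536870912) (W2 := 536870912) (P3 := 649613803) (W3 := 48318383) (N0 := 3) (En := eng) (mo := mog) (C1 := cd1q0) (C2 := cd0q1) (C3 := pd1)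
    rfl k0_pp_011

noncomputable def cut_pp_012 : Cut := Cut.of [[⟨0, 0, 0, 44739242⟩, ⟨1, 1, 0, 44739242⟩, ⟨2, 1, 0, 44739242⟩]]

noncomputable def f_pp_012 : ℕ → ℕ → ℕ → ℕ → Bool := onCell 536870912 536870912 0 536870912 649613803 48318383
    (rowB 3 eng mog cd1q0 cd0q2 pd1 2 false true true .pnp 0 1 2 (qsf 0 536870912 0 536870912 1) ndB1q0 ndB0q2 pcB1 cut_pp_012 Ext.none)

def k0_pp_012 : ∃ t, chk3 f_pp_012 t 4 2 1 = true :=
  ⟨(b (l 2) (l 3)), by decide +kernel⟩

def k1_pp_012 : ∃ t, chk3 f_pp_012 t 5 4 1 = true :=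
  ⟨(a (a (a (l 2) (b (b (l 16727912) (l 16748408)) (b (b (l 16759528) (l 16763880)) (a (a (l 2) (b (l 16755992) (b (b (l 255651184375) (l 204715548983)) (l 3)))) (b (l 16761584) (b (a (b (l 16752232) (a (l 170355807735) (l 16753672))) (l 16751200)) (a (l 208473644247) (b (l 165523976567) (l 203104933335))))))))) (b (l 16722352) (b (a (b (l 16751656) (l 16758200)) (l 16746344)) (a (b (l 16762736) (a (b (l 16758760) (a (b (l 16751824) (l 162302750759)) (l 16751072))) (l 16761376))) (b (l 16757064) (l 16762128)))))) (b (b (l 16763112) (l 16699712)) (b (l 16781904) (a (a (b (l 16748984) (l 16756176)) (b (l 16738528) (l 16747568))) (l 16726752))))), by decide +kernel⟩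

def k2_pp_012 : ∃ t, chk3 f_pp_012 t 5 5 1 = true :=
  ⟨(a (b (a (l 3) (b (a (b (a (b (a (l 206326158487) (b (l 159618396135) (l 201494318999))) (l 3)) (b (a (b (l 16751912) (l 156934031319)) (l 16751376)) (a (l 204178674311) (b (l 154249677223) (l 199883707047))))) (l 3)) (b (a (b (l 16759256) (a (l 133311720887) (l 16752072))) (l 16761752)) (a (b (a (l 202031192087) (b (l 144049137767) (l 196125612519))) (l 3)) (b (a (l 128479882631) (l 16753152)) (a (l 197736227287) (l 163376493303)))))) (l 3))) (l 3)) (b (a (b (a (b (l 16762080) (a (b (l 16760200) (a (l 124184927863) (l 16754576))) (l 16762800))) (b (l 16755520) (l 16762544))) (a (b (a (b (a (l 193441263303) (l 160155266039)) (l 3)) (b (a (l 120426841287) (l 16756184)) (a (l 189683170903) (l 152639077303)))) (l 3)) (b (b (l 16763776) (a (a (l 116668748759) (l 16757912)) (l 16761480))) (a (b (l 166597725655) (l 3)) (b (l 102710116663) (l 162839634583)))))) (b (a (b (l 16767104) (l 16755024)) (b (l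 16735160) (a (l 16747120) (l 16742032)))) (a (b (l 16763232) (a (b (l 16761200) (l 95730801591)) (l 16764832))) (b (l 16754576) (l 16763776))))) (a (l 3) (b (a (b (a (b (l 158544673159) (l 3)) (b (l 87140871207) (l 153175969063))) (l 3)) (b (a (b (l 16760576) (l 83919651495)) (l 16765568)) (a (b (l 152639103175) (l 3)) (b (l 16789928) (l 149417874247))))) (l 3))))), by decide +kernel⟩

def k3_pp_012 : ∃ t, chk3 f_pp_012 t 2 3 1 = true :=
  ⟨(l 3), by decide +kernel⟩

def k4_pp_012 : ∃ t, chk3 f_pp_012 t 6 2 1 = true :=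
  ⟨(b (a (a (b (l 16656352) (l 16715480)) (b (l 16633880) (b (l 16660976) (l 16680424)))) (b (a (l 16611400) (l 16590424)) (a (b (l 16638072) (l 16676576)) (b (l 16614616) (l 16631856))))) (a (b (b (a (a (l 16728944) (l 16717640)) (l 16699800)) (a (a (b (a (l 16746272) (l 16741168)) (l 16754616)) (b (l 16732704) (l 16764256))) (a (l 16726568) (l 16713936)))) (a (b (a (b (l 16764808) (b (l 16787232) (a (l 16791928) (l 16764856)))) (b (l 16754664) (l 16765440))) (b (a (a (l 148344129927) (b (l 16793240) (l 121500637207))) (a (b (l 16765536) (l 16793824)) (l 16766760))) (a (l 3) (a (b (l 103783901799) (l 3)) (b (l 16774240) (b (l 16770504) (l 144049178359))))))) (b (a (b (l 16743176) (l 16755080)) (b (l 16730784) (l 16742512))) (b (a (l 16766584) (l 16754832)) (a (a (a (l 16794368) (l 16791160)) (l 16788872)) (a (l 16769640) (l 16763648))))))) (b (a (b (l 16674016) (a (l 16700064) (l 16686584))) (b (b (l 16644760) (l 16653368)) (a (l 16673488) (l 16661024))))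 (a (b (a (l 16722160) (l 16707928)) (a (b (l 16740232) (l 16752880)) (b (l 16725864) (l 16738240)))) (a (b (l 16694248) (b (l 16711472) (l 16723992))) (b (l 16702192) (l 16703928))))))), by decide +kernel⟩

def k5_pp_012 : ∃ t, chk3 f_pp_012 t 12 6 1 = true :=
  ⟨(b (a (l 3) (b (a (b (a (b (b (l 66739805463) (l 134922388823)) (l 3)) (b (l 16797944) (a (l 131701164567) (a (l 103783894535) (l 102710148391))))) (l 3)) (b (a (b (l 16791216) (a (l 16789840) (l 16775160))) (l 16790888)) (a (b (a (b (a (l 115595047495) (l 97878298599)) (l 132774909527)) (b (l 16781152) (b (l 89825242839) (l 91972728567)))) (a (l 3) (b (l 122574361655) (l 3)))) (b (a (l 16789096) (l 16774256)) (a (b (a (l 110763208231) (l 98415173463)) (a (l 3) (l 118816262839))) (b (l 16779984) (a (l 122037484663) (l 103783880839)))))))) (a (l 3) (b (a (l 3) (b (a (l 3) (b (a (l 3) (l 116131906983)) (l 3))) (l 3))) (l 3))))) (l 3)), by decide +kernel⟩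

def k6_pp_012 : ∃ t, chk3 f_pp_012 t 13 12 1 = true :=
  ⟨(a (b (a (b (a (l 16768504) (l 16761896)) (a (b (l 16769256) (a (l 16787816) (l 16773072))) (l 16791728))) (b (l 16750992) (a (l 16766864) (l 16760016)))) (b (a (a (b (a (b (a (b (l 108615717639) (l 115595034007)) (l 109689458935)) (a (l 3) (b (l 117205644647) (l 3)))) (b (l 16778456) (c (l 95730817207) (a (b (l 118279391671) (l 123648097063)) (l 118816261959))))) (a (l 3) (b (c (l 114521292055) (a (l 3) (b (l 125258708903) (l 3)))) (l 3)))) (b (a (l 16786296) (l 16771768)) (c (a (b (l 94657073271) (l 117205644871)) (l 94120201847)) (a (b (a (b (l 16782104) (l 127943062535)) (l 16785880)) (a (l 3) (b (l 130627416135) (l 3)))) (b (l 16777088) (a (b (l 16781112) (l 133311769703)) (l 16779656))))))) (a (b (l 16768176) (a (l 16774184) (l 16770448))) (l 16770152))) (a (a (l 3) (b (a (l 3) (b (c (l 119889997591) (a (l 126332452215) (b (l 125258705015) (l 128479933559)))) (l 3))) (l 3))) (a (b (c (a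 (l 109689444999) (l 16776416)) (a (b (a (l 118816260711) (l 16778648)) (a (l 130627417623) (l 122574349911))) (b (l 16775264) (l 116668776119)))) (a (l 3) (b (c (l 125258702919) (l 140291087383)) (l 3)))) (b (l 16781232) (a (b (l 111836936711) (c (l 118816261943) (l 144586055415))) (l 110226323303))))))) (b (a (a (l 16788368) (l 16781216)) (l 16733936)) (a (b (l 16761576) (a (b (l 16769480) (l 16769488)) (l 16768872))) (b (l 16716120) (l 16780688))))), by decide +kernel⟩

def k7_pp_012 : ∃ t, chk3 f_pp_012 t 13 13 1 = true :=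
  ⟨(a (b (b (a (l 3) (a (l 3) (b (b (a (l 3) (l 141364827303)) (l 3)) (l 3)))) (l 3)) (l 3)) (b (b (a (a (a (b (l 103247007319) (l 219211117719)) (b (l 16773376) (l 179482662103))) (b (l 16768712) (b (l 16772560) (l 149417906855)))) (a (l 16783840) (l 16767144))) (a (a (l 3) (b (a (l 234243500775) (b (l 170355866535) (l 233169754535))) (l 3))) (a (a (b (b (l 16773368) (l 162839671175)) (l 242833431463)) (b (l 16770880) (b (l 164987151687) (l 234780361767)))) (b (l 16767112) (a (a (b (l 16771888) (l 180556393319)) (l 16781896)) (l 16769056)))))) (b (a (l 3) (a (l 3) (b (a (b (a (l 239612199735) (b (l 186461973703) (l 233706617015))) (l 3)) (b (a (b (l 16772896) (l 185388230935)) (l 16771840)) (a (l 232632875863) (b (l 179482656631) (l 224042938791))))) (l 3)))) (l 3)))), by decide +kernel⟩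

def k8_pp_012 : ∃ t, chk3 f_pp_012 t 6 7 1 = true :=
  ⟨(l 3), by decide +kernel⟩

def k9_pp_012 : ∃ t, chk3 f_pp_012 t 7 2 1 = true :=
  ⟨(b (a (b (a (l 16571832) (l 16556816)) (a (l 16643640) (l 16583528))) (b (a (l 16546104) (l 16530648)) (a (l 16569488) (l 16549672)))) (a (b (a (b (l 16626264) (a (l 16649344) (l 16638616))) (b (l 16606760) (l 16644712))) (a (b (a (l 16669000) (l 16657744)) (a (l 16691008) (l 16678952))) (b (a (l 16646760) (l 16635160)) (b (l 16655296) (l 16665672))))) (b (a (b (l 16587968) (l 16601432)) (b (a (l 16571176) (l 16558952)) (a (l 16583072) (l 16569856)))) (a (b (a (b (l 16618816) (l 16627248)) (l 16631232)) (a (l 16662032) (b (l 16622824) (l 16631992)))) (b (a (l 16596864) (l 16582648)) (a (b (l 16608656) (l 16617344)) (b (l 16593688) (l 16601904)))))))), by decide +kernel⟩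

def k10_pp_012 : ∃ t, chk3 f_pp_012 t 14 12 1 = true :=
  ⟨(a (b (a (l 16715016) (l 16701880)) (a (b (l 16733656) (l 16714384)) (b (l 16719776) (l 16731808)))) (b (a (l 16689088) (l 16675528)) (a (l 16712624) (b (l 16692864) (l 16704904))))), by decide +kernel⟩

def k11_pp_012 : ∃ t, chk3 f_pp_012 t 14 13 1 = true :=
  ⟨(a (b (a (b (l 16757176) (a (b (l 16767840) (l 16766776)) (l 16764536))) (b (l 16738312) (a (l 16758048) (l 16751336)))) (a (b (a (a (b (a (b (l 16770256) (c (l 165524011495) (l 181630138759))) (l 16769992)) (b (c (a (b (l 213842390663) (l 3)) (b (l 169282106359) (a (l 220821712839) (l 199346874535)))) (a (l 228874778263) (l 210621163415))) (l 3))) (b (l 16768080) (c (b (a (b (l 16771672) (l 166597751191)) (l 16770872)) (a (b (a (l 213842390487) (l 191293810407)) (l 3)) (b (l 16772816) (a (l 208473680951) (l 182703875479))))) (b (l 176798300599) (a (l 220821713399) (l 200957486039)))))) (b (l 16768392) (a (b (l 16768848) (c (a (l 16772024)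 (l 16770672)) (l 16771280))) (l 16767864)))) (a (b (a (l 3) (b (a (l 3) (l 233706618071)) (l 3))) (l 3)) (b (a (b (a (b (c (a (l 198273133319) (l 171966460599)) (l 202568099943)) (l 229948519591)) (b (l 16772552) (a (l 196662520327) (l 170892719543)))) (a (l 3) (b (l 224042939367) (l 3)))) (b (c (l 16771264) (l 16771192)) (a (b (c (l 173577070327) (l 185925106551)) (l 217600488343)) (b (l 16772536) (c (l 162302786391) (l 16774064)))))) (a (l 3) (b (a (l 3) (b (l 211158037415) (l 3))) (l 3)))))) (b (a (l 16778640) (l 16762488)) (a (b (a (b (l 16768920) (l 16771288)) (l 16768416)) (a (b (a (b (l 162302787799) (c (l 198273135623) (l 211158037751))) (c (l 16777400) (l 16773512))) (a (l 3) (b (c (l 191293813975) (l 205252457959)) (l 3)))) (b (l 16771616) (a (b (l 16774352) (l 191293814359)) (l 16773848))))) (b (l 16769840) (a (b (l 16769752) (l 16772136)) (l 16769824))))))) (b (a (b (l 16730016) (a (l 16744720) (l 16738304))) (b (l 16716968) (l 16728512)))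 (a (b (a (l 16756032) (l 16749528)) (a (l 16772568) (b (l 16758144) (l 16763984)))) (b (l 16755880) (l 16762040))))), by decide +kernel⟩

def k12_pp_012 : ∃ t, chk3 f_pp_012 t 15 6 1 = true :=
  ⟨(b (a (b (a (b (l 16656152) (l 16666928)) (l 16667864)) (a (b (l 16678152) (l 16689736)) (b (l 16662800) (l 16673880)))) (b (a (l 16652472) (a (l 16619512) (l 16654120))) (a (b (l 16646656) (l 16678544)) (b (l 16631768) (l 16643504))))) (a (b (a (b (l 16701328) (l 16712744)) (b (l 16684976) (a (l 16700168) (l 16691712)))) (a (b (l 16723952) (b (l 16732056) (l 16737456))) (b (a (l 16711064) (l 16703296)) (a (b (l 16719392) (l 16725304)) (l 16715480))))) (b (a (b (l 16689984) (l 16680880)) (a (l 16664912) (l 16658288))) (a (l 16699280) (l 16696136))))), by decide +kernel⟩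

def k13_pp_012 : ∃ t, chk3 f_pp_012 t 28 14 1 = true :=
  ⟨(b (a (l 3) (b (a (b (a (l 3) (b (a (l 225653558455) (b (l 173040203815) (l 218137364135))) (l 3))) (l 3)) (b (a (b (a (b (l 16774880) (l 157470955159)) (l 16774464)) (a (l 215989883111) (b (l 149954763079) (l 205252463511)))) (b (l 16772856) (a (l 135996121175) (l 16775288)))) (a (l 3) (b (a (l 206326208215) (l 161765924791)) (l 3))))) (l 3))) (l 3)), by decide +kernel⟩

def k14_pp_012 : ∃ t, chk3 f_pp_012 t 29 28 1 = true :=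
  ⟨(a (b (a (b (a (l 16772400) (l 16772760)) (a (b (l 16782080) (a (l 197736275575) (l 131701162727))) (b (l 16774800) (l 16778016)))) (b (l 16769872) (c (l 16795328) (l 16774712)))) (a (b (a (b (l 217600506407) (l 3)) (b (a (l 171429603239) (l 16786232)) (l 210621166103))) (l 3)) (b (a (b (l 16779384) (a (l 170892719367) (l 16777224))) (l 16779168)) (a (b (l 202568105367) (l 3)) (b (c (l 102173265511) (l 16790680)) (l 186998861623)))))) (a (b (l 16766656) (b (l 16775496) (a (c (l 55465500167) (l 68887266759)) (l 16776624)))) (b (l 16758680) (b (l 16766488) (l 16776680))))), by decide +kernel⟩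

def k15_pp_012 : ∃ t, chk3 f_pp_012 t 29 29 1 = true :=
  ⟨(a (l 3) (b (a (b (b (a (b (a (l 249275892615) (l 98415159991)) (l 235317232007)) (a (l 91435842535) (l 16778184))) (a (l 3) (a (l 233169758695) (b (l 16784872) (b (l 147270413447) (l 234780367575)))))) (l 3)) (b (b (a (l 16774296) (l 16772648)) (a (a (a (a (l 94657062551) (l 16777704)) (l 16781968)) (l 16780472)) (l 16773232))) (a (b (a (a (b (a (l 242296558311) (b (l 199883760615) (l 3))) (l 3)) (b (c (b (l 118816252583) (l 183240758327)) (b (l 16777096) (l 193441301687))) (l 232632882327))) (a (b (l 16783016) (b (a (l 200957497047) (l 152639119735)) (l 225653560055))) (b (l 16777056) (c (b (l 16779160) (c (l 161229052071) (l 167134630359))) (l 167134626711))))) (a (l 3) (b (c (a (l 3) (l 217600499047)) (l 231022268583)) (l 3)))) (b (c (a (l 16777632) (l 16776160)) (l 16780408)) (b (a (c (a (b (c (l 149954765943) (l 156934086119)) (l 205252467559)) (b (l 16779240) (l 145659798727))) (a (b (l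 166060890167) (l 217600494887)) (l 154249730231))) (l 16777680)) (a (a (l 3) (a (l 228337916119) (c (b (l 186998856359) (l 3)) (l 215989882743)))) (c (a (b (l 139217347687) (a (l 209547435399) (l 176798310423))) (l 16782320)) (a (b (l 16780984) (l 204715596039)) (l 16778032))))))))) (a (l 3) (b (a (l 3) (b (a (l 3) (a (l 3) (b (b (a (a (l 218674239543) (l 199346889015)) (a (l 171966474135) (l 148881024247))) (l 228874787703)) (l 3)))) (l 3))) (l 3))))), by decide +kernel⟩

def k16_pp_012 : ∃ t, chk3 f_pp_012 t 14 15 1 = true :=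
  ⟨(l 3), by decide +kernel⟩

def k17_pp_012 : ∃ t, chk3 f_pp_012 t 30 28 1 = true :=
  ⟨(a (b (a (l 16749784) (l 16762560)) (a (b (l 16757792) (l 16763504)) (l 16774440))) (b (a (l 16755376) (l 16727560)) (b (l 16739992) (l 16745936)))), by decide +kernel⟩

def k18_pp_012 : ∃ t, chk3 f_pp_012 t 60 58 1 = true :=
  ⟨(a (b (l 16769464) (a (b (l 16773608) (a (l 16782224) (l 16775536))) (l 16773560))) (l 16770704)), by decide +kernel⟩

def k19_pp_012 : ∃ t, chk3 f_pp_012 t 120 59 1 = true :=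
  ⟨(b (a (b (a (a (b (a (b (l 16779528) (b (l 166597764951) (l 217063627111))) (c (l 139754219399) (l 156397214647))) (c (l 220284855431) (l 231559141319))) (b (l 16784208) (a (b (b (l 153175992055) (l 202568115223)) (l 3)) (b (l 16782584) (b (l 188072601287) (l 233169755271)))))) (a (b (l 16778200) (a (b (l 16779576) (b (l 16780176) (l 181630150039))) (l 16782208))) (l 16783456))) (a (l 3) (b (a (a (l 231022272599) (b (b (l 173040215319) (l 218674240743)) (l 3))) (b (c (l 143512316615) (l 161765924695)) (a (l 218674241079) (b (l 159618442215) (l 204178726183))))) (l 3)))) (b (a (l 16777064) (l 16775592)) (a (a (b (c (l 16782440) (l 153175990023)) (a (b (b (l 195588792103) (l 3)) (l 3)) (b (c (l 167134635223) (l 181093276791)) (l 229411660039)))) (b (l 16779008) (a (b (l 16780384) (b (l 182167018983) (l 220284854247))) (c (l 142975445319) (l 161765925351))))) (c (l 16781848) (l 16780544))))) (a (l 3) (b (b (b (a (a (l 3) (c (l 219747985271) (l 229948529847)))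 (a (a (b (l 168208374983) (a (l 226190434471) (l 197199404087))) (l 155323473623)) (l 16780144))) (a (l 3) (a (a (l 3) (c (l 206326212135) (l 216526756823))) (a (c (l 165524023367) (l 187535726903)) (l 16780720))))) (b (a (l 3) (a (l 3) (a (l 232632886183) (b (a (l 196662533735) (l 16781208)) (l 223506080391))))) (l 3))) (l 3)))), by decide +kernel⟩

def k20_pp_012 : ∃ t, chk3 f_pp_012 t 121 59 1 = true :=
  ⟨(b (b (l 16772856) (a (l 16778880) (l 16774024))) (a (b (a (b (l 16781944) (c (a (b (l 146733541719) (a (l 219211114583) (l 181093279127))) (l 16781032)) (a (b (l 168745246071) (a (l 227801046663) (a (l 205252467895) (l 185925115207)))) (l 156934086183)))) (l 16781096)) (b (a (a (l 3) (c (b (a (l 209547438087) (l 163376540551)) (l 232632888199)) (b (c (a (l 216526758167) (l 178945794951)) (a (l 221358595063) (l 191830694231))) (l 240149078567)))) (a (a (b (l 16781008) (b (a (l 194515051255) (l 16781480)) (l 226190435495))) (c (l 139217349847) (l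 164450279703))) (l 16780360))) (a (l 3) (a (c (l 229411661911) (b (l 234243497879) (l 3))) (b (a (b (l 164987151591) (a (l 232096015639) (l 192904439127))) (l 150491637335)) (c (l 218674244295) (c (l 225653564519) (l 230485401511)))))))) (b (c (l 16787040) (l 16775616)) (a (a (a (b (l 16779736) (b (l 16780888) (c (l 159081573943) (l 182703891191)))) (l 16782712)) (l 16782088)) (l 16780840))))), by decide +kernel⟩

def k21_pp_012 : ∃ t, chk3 f_pp_012 t 61 29 1 = true :=
  ⟨(a (b (l 16768840) (a (b (l 16768984) (l 16774840)) (l 16778808))) (b (l 16751256) (c (l 16773544) (l 16762712)))), by decide +kernel⟩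

def k22_pp_012 : ∃ t, chk3 f_pp_012 t 31 14 1 = true :=
  ⟨(b (a (b (l 16727816) (a (l 16732440) (l 16725576))) (a (l 16733760) (l 16726584))) (a (a (b (l 16744152) (l 16765712)) (b (l 16736664) (l 16752368))) (a (b (l 16739392) (l 16739072)) (b (l 16736592) (b (l 16728664) (l 16723200)))))), by decide +kernel⟩

def k23_pp_012 : ∃ t, chk3 f_pp_012 t 60 30 1 = true :=
  ⟨(b (a (l 3) (b (a (l 3) (b (b (a (a (b (a (l 238001596311) (b (a (l 190220085191) (l 16781696)) (l 228337919575))) (l 3)) (c (b (l 16783160) (c (l 202031246183) (l 207936825287))) (b (l 164450280423) (a (l 233169756935) (l 196662534231))))) (c (l 16782248) (l 143512315447))) (a (l 3) (a (c (b (c (l 195051924135) (l 200957503287)) (l 237464726999)) (b (a (l 224042951351) (l 179482666423)) (l 245517788679))) (b (l 16782504) (a (c (l 190756956615) (l 209547436631)) (l 148344155687)))))) (a (l 3) (a (l 3) (a (l 3) (b (c (l 232632888871) (l 241222821559)) (l 3))))))) (l 3))) (l 3)), by decide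 +kernel⟩

def k24_pp_012 : ∃ t, chk3 f_pp_012 t 61 30 1 = true :=
  ⟨(b (a (b (a (a (b (c (l 16779960) (l 16781696)) (a (b (c (b (l 153175993799) (l 223506082935)) (b (c (l 166597766167) (l 190756953671)) (l 233169757527))) (l 3)) (b (c (b (l 16781392) (l 192367564231)) (l 154249734375)) (c (l 233169754471) (b (c (l 224042952359) (l 229411660519)) (l 3)))))) (b (l 16777840) (b (l 16780072) (c (a (b (l 16782000) (l 211158046263)) (l 16781496)) (a (b (l 16781176) (c (l 217063630327) (l 222969209431))) (l 16780704)))))) (b (l 16775576) (a (l 16779080) (l 16777352)))) (a (b (a (l 3) (a (l 3) (b (b (c (l 176798314295) (c (l 210084308279) (l 216526758343))) (l 256792073991)) (l 3)))) (l 3)) (b (a (a (b (c (l 122037481671) (b (l 16780960) (l 191293827047))) (c (l 228874792887) (l 247665273255))) (b (l 16780856) (c (b (l 118816256295) (l 206863084679)) (b (l 164450281703) (l 236390983367))))) (c (l 16783208) (b (l 16779184) (l 133848638551)))) (a (l 3) (b (a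 (c (l 200420634007) (l 243370300311)) (b (l 16779024) (l 233169752183))) (c (l 226190439303) (l 267529498087))))))) (b (a (l 16773360) (l 16769472)) (a (b (l 16782872) (a (b (l 16780680) (a (b (l 213842399463) (l 218137368247)) (a (l 203104980631) (l 16781440)))) (l 16784720))) (l 16780248)))) (a (l 3) (b (a (b (a (b (c (l 203104989463) (l 240685946759)) (l 3)) (a (b (l 207399948679) (l 3)) (b (l 16781048) (c (l 176261441671) (l 207936825175))))) (l 3)) (b (b (l 16783616) (a (c (l 99488902791) (l 116131901095)) (l 16778736))) (a (b (a (l 206863079415) (l 196125660935)) (l 3)) (b (l 92509581335) (c (l 166597763591) (a (l 203104987031) (l 124721835847))))))) (l 3)))), by decide +kernel⟩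

def k25_pp_012 : ∃ t, chk3 f_pp_012 t 30 31 1 = true :=
  ⟨(l 3), by decide +kernel⟩

def k26_pp_012 : ∃ t, chk3 f_pp_012 t 31 15 1 = true :=
  ⟨(b (a (b (b (a (l 16763320) (l 16755168)) (a (a (l 16770888) (l 16766784)) (l 16765888))) (a (b (a (a (b (l 16776112) (l 16781400)) (l 16775472)) (l 16772392)) (a (b (a (a (b (l 192904436279) (l 3)) (b (l 103246998647) (l 189146343111))) (c (l 98952030711) (c (l 93583322743) (l 104320740567)))) (a (l 3) (b (c (l 177872053463) (l 195051923015)) (l 3)))) (b (l 16781872) (a (a (b (l 113447545271) (l 193441310119)) (b (l 16779160) (a (l 178945793063) (l 117742512631)))) (l 73719096103))))) (a (b (l 16768288) (c (l 16779200) (l 16779288))) (b (l 16764184) (l 16769880))))) (a (b (b (l 16747040) (l 16755096)) (a (b (l 16767944) (l 6)) (l 6))) (b (a (l 16746296) (b (l 16736960) (l 6))) (l 6)))) (a (b (a (b (a (l 3) (a (l 3) (b (b (a (l 180556406823) (l 112373803479)) (l 3)) (l 3)))) (l 3)) (b (a (b (a (b (l 16778480)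 (c (l 103246997927) (l 166060890007))) (l 6)) (l 6)) (l 6)) (l 6))) (l 3)) (l 6))), by decide +kernel⟩

theorem s27_pp_012 : ∃ t, chk3 f_pp_012 t 30 30 1 = true := ex3_a k23_pp_012 k24_pp_012

theorem s28_pp_012 : ∃ t, chk3 f_pp_012 t 30 15 1 = true := ex3_b s27_pp_012 k25_pp_012

theorem s29_pp_012 : ∃ t, chk3 f_pp_012 t 15 15 1 = true := ex3_a s28_pp_012 k26_pp_012

theorem s30_pp_012 : ∃ t, chk3 f_pp_012 t 60 59 1 = true := ex3_a k19_pp_012 k20_pp_012

theorem s31_pp_012 : ∃ t, chk3 f_pp_012 t 60 29 1 = true := ex3_b k18_pp_012 s30_pp_012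

theorem s32_pp_012 : ∃ t, chk3 f_pp_012 t 30 29 1 = true := ex3_a s31_pp_012 k21_pp_012

theorem s33_pp_012 : ∃ t, chk3 f_pp_012 t 30 14 1 = true := ex3_b k17_pp_012 s32_pp_012

theorem s34_pp_012 : ∃ t, chk3 f_pp_012 t 15 14 1 = true := ex3_a s33_pp_012 k22_pp_012

theorem s35_pp_012 : ∃ t, chk3 f_pp_012 t 15 7 1 = true := ex3_b s34_pp_012 s29_pp_012

theorem s36_pp_012 : ∃ t, chk3 f_pp_012 t 29 14 1 = true := ex3_b k14_pp_012 k15_pp_012

theorem s37_pp_012 : ∃ t, chk3 f_pp_012 t 14 14 1 = true := ex3_a k13_pp_012 s36_pp_012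

theorem s38_pp_012 : ∃ t, chk3 f_pp_012 t 14 7 1 = true := ex3_b s37_pp_012 k16_pp_012

theorem s39_pp_012 : ∃ t, chk3 f_pp_012 t 7 7 1 = true := ex3_a s38_pp_012 s35_pp_012

theorem s40_pp_012 : ∃ t, chk3 f_pp_012 t 14 6 1 = true := ex3_b k10_pp_012 k11_pp_012

theorem s41_pp_012 : ∃ t, chk3 f_pp_012 t 7 6 1 = true := ex3_a s40_pp_012 k12_pp_012

theorem s42_pp_012 : ∃ t, chk3 f_pp_012 t 7 3 1 = true := ex3_b s41_pp_012 s39_pp_012

theorem s43_pp_012 : ∃ t, chk3 f_pp_012 t 7 1 1 = true := ex3_b k9_pp_012 s42_pp_012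

theorem s44_pp_012 : ∃ t, chk3 f_pp_012 t 13 6 1 = true := ex3_b k6_pp_012 k7_pp_012

theorem s45_pp_012 : ∃ t, chk3 f_pp_012 t 6 6 1 = true := ex3_a k5_pp_012 s44_pp_012

theorem s46_pp_012 : ∃ t, chk3 f_pp_012 t 6 3 1 = true := ex3_b s45_pp_012 k8_pp_012

theorem s47_pp_012 : ∃ t, chk3 f_pp_012 t 6 1 1 = true := ex3_b k4_pp_012 s46_pp_012

theorem s48_pp_012 : ∃ t, chk3 f_pp_012 t 3 1 1 = true := ex3_a s47_pp_012 s43_pp_012

theorem s49_pp_012 : ∃ t, chk3 f_pp_012 t 5 2 1 = true := ex3_b k1_pp_012 k2_pp_012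

theorem s50_pp_012 : ∃ t, chk3 f_pp_012 t 2 2 1 = true := ex3_a k0_pp_012 s49_pp_012

theorem s51_pp_012 : ∃ t, chk3 f_pp_012 t 2 1 1 = true := ex3_b s50_pp_012 k3_pp_012

theorem s52_pp_012 : ∃ t, chk3 f_pp_012 t 1 1 1 = true := ex3_a s51_pp_012 s48_pp_012

theorem c_pp_012 : CertB 0 536870912 0 536870912 649613803 48318383 3 eng mog cd1q0 cd0q2 pd1 false true true .pnp 0 1 2
    ndB1q0 ndB0q2 pcB1 cut_pp_012 Ext.none :=
  certB2 (fam := false) (s1 := true) (s2 := true) (a := 0) (b := 1) (c := 2) (cn := .pnp) (n1 := ndB1q0) (n2 := ndB0q2) (pc := pcB1) (cut := cut_pp_012) (xt := Ext.none) (P1 := 0) (W1 := 536870912) (P2 := 0) (W2 := 536870912) (P3 := 649613803) (W3 := 48318383) (N0 := 3) (En := eng) (mo := mog) (C1 := cd1q0) (C2 := cd0q2) (C3 := pd1)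
    rfl (fun _ => rfl) s52_pp_012

end Pool.Agent.Strip051.G.I6050_6500.Tab.C.BB10

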