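import Pool.Agent.Strip051.G.I6050_6500.Tab
import Pool.Agent.Strip051.PB.ExtD2

/-! # Certificates B30 (generated) -/

set_option linter.all false
set_option maxRecDepth 100000

namespace Pool.Agent.Strip051.G.I6050_6500.Tab.C.BB10

open Pool.Agent.Strip051.PB Pool.Agent.Strip051.PB.T
open Pool.Agent.Strip051.G.I6050_6500.Tab

noncomputable def cut_pp_022 : Cut := Cut.of [[⟨0, 0, 0, 67108864⟩, ⟨1, 1, 0, 67108864⟩, ⟨2, 1, 0, 67108864⟩]]

noncomputable def f_pp_022 : ℕ → ℕ → ℕ → ℕ → Bool := onCell 1073741824 536870912 0 536870912 649613803 48318383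
    (rowB 3 eng mog cd1q0 cd0q2 pd2 2 false true true .pp 0 2 2 (qsf 0 536870912 0 536870912 2) ndB1q0 ndB0q2 pcB2 cut_pp_022 Ext.none)

def k0_pp_022 : ∃ t, chk3 f_pp_022 t 4 4 1 = true :=
  ⟨(a (b (a (a (b (l 16534448) (l 16520480)) (b (l 16500872) (l 16507616))) (a (b (l 16490016) (l 16496600)) (l 16486232))) (a (a (b (l 16528232) (l 16536640)) (b (l 16515152) (l 16523480))) (a (b (l 16504376) (l 16513168)) (b (l 16496496) (l 16504888))))) (b (a (l 16477448) (b (l 16463600) (l 16469768))) (a (b (l 16486176) (l 16472712)) (a (l 16502128) (b (l 16472408) (l 16478680)))))), by decide +kernel⟩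

def k1_pp_022 : ∃ t, chk3 f_pp_022 t 4 10 1 = true :=
  ⟨(a (b (a (a (c (l 16548680) (l 16543008)) (b (l 16530184) (l 16577008))) (a (c (l 16525680) (l 16520000)) (c (l 16516680) (l 16511376)))) (a (b (c (a (l 16555944) (l 16543520)) (a (l 16550384) (l 16537432))) (a (c (l 16561520) (l 16577048)) (c (l 16549608) (l 16543648)))) (a (c (l 16557768) (b (l 16527840) (l 16533920))) (c (l 16527496) (b (l 16518696) (l 16524392)))))) (b (a (c (a (l 16508256) (l 16500456)) (a (l 16503136) (l 16495312))) (a (a (l 16492768) (l 16489360)) (c (l 16487032) (l 16481072)))) (a (c (a (l 16518600) (l 16510168)) (a (b (l 16509824) (l 16515064)) (b (l 16501256) (l 16505960)))) (b (c (l 16496176) (a (l 16493032) (l 16485176))) (c (a (l 16504664) (l 16497024)) (a (l 16497128) (l 16488592))))))), by decide +kernel⟩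

def k2_pp_022 : ∃ t, chk3 f_pp_022 t 4 11 1 = true :=
  ⟨(a (a (b (b (c (a (a (l 16571088) (l 16564464)) (l 16556488)) (a (a (l 16566176) (l 16558968)) (l 16550784))) (a (c (a (l 16577968) (l 16571800)) (a (l 16573384) (l 16566712))) (c (l 16564112) (l 16579752)))) (a (a (b (c (l 16585880) (l 16581776)) (c (l 16615936) (l 16591544))) (b (c (l 16580272) (l 16575776)) (c (l 16589688) (l 16585912)))) (c (b (l 16572552) (l 16602808)) (b (c (l 16569048) (l 16566240)) (l 16598496))))) (b (c (a (b (l 16546624) (l 16554072)) (b (l 16537008) (l 16544184))) (a (c (l 16567080) (l 16563808)) (b (l 16530792) (l 16537936)))) (c (a (b (l 16562296) (l 16592288)) (b (l 16552104) (l 16560768))) (a (b (l 16577800) (l 16587160)) (b (l 16545912) (l 16554728)))))) (a (b (c (a (b (l 16527664) (l 16534496)) (b (l 16518656) (l 16525048))) (a (b (l 16520968) (l 16527576)) (b (l 16511296) (l 16517296)))) (c (a (b (l 16542016) (l 16550232)) (b (l 16532072) (l 16539744))) (a (b (l 16534976)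 (l 16543160)) (b (l 16524040) (l 16531520))))) (b (c (a (b (l 16510016) (l 16515872)) (b (l 16501784) (l 16507008))) (a (b (l 16501816) (l 16507128)) (b (l 16492552) (l 16497096)))) (c (a (b (l 16522312) (l 16529336)) (b (l 16512760) (l 16519040))) (a (b (l 16513136) (l 16519832)) (b (l 16502296) (l 16508120))))))), by decide +kernel⟩

def k3_pp_022 : ∃ t, chk3 f_pp_022 t 5 2 1 = true :=
  ⟨(a (b (a (a (b (b (l 16450888) (l 16455128)) (b (l 16462752) (l 16472760))) (c (b (b (l 16443184) (l 16445680)) (b (l 16452408) (l 16461592))) (b (l 16447664) (l 16525096)))) (b (l 1) (l 1))) (a (a (b (b (c (l 16481520) (l 16474744)) (c (b (l 16486256) (l 16489936)) (b (l 16477744) (l 16480384)))) (b (c (c (l 16498216) (l 16494024)) (b (l 16483536) (l 16487232))) (a (b (l 16513696) (l 1)) (l 1)))) (b (b (c (l 16525160) (l 16468992)) (c (l 218002593655) (l 552473097031))) (l 1))) (l 1))) (l 1)), by decide +kernel⟩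

def k4_pp_022 : ∃ t, chk3 f_pp_022 t 8 3 1 = true :=
  ⟨(b (b (b (a (b (c (a (b (l 16599936) (l 16605224)) (l 16602376)) (a (a (l 16623520) (l 16617808)) (c (l 16610272) (l 16586840)))) (a (l 16612320) (l 16600728))) (b (c (a (l 16581080) (l 16570144)) (a (b (l 16573736) (l 16578904)) (l 16585280))) (c (l 16585160) (l 16579968)))) (a (b (a (l 16623672) (l 16611424)) (b (l 16647096) (l 16673824))) (a (b (l 16598864) (l 16609128)) (b (l 16586024) (l 16595408))))) (a (a (b (b (l 16645960) (l 16654904)) (b (l 16664200) (l 16673944))) (b (c (l 16640192) (l 16637608)) (b (l 16655232) (l 16665624)))) (b (a (c (l 16626248) (l 16622136)) (c (l 16611840) (l 16627104))) (a (c (l 16645656) (l 16657304)) (c (l 16639648) (b (l 16619120) (l 16627168))))))) (a (b (b (a (a (b (l 16685912) (l 16696616)) (l 16708848)) (c (l 16701728) (a (l 16683920) (l 16674112)))) (l 6)) (l 6)) (a (b (b (a (b (l 16661824) (l 16670336)) (b (l 16652400) (l 16660240))) (l 6)) (l 6)) (b (a (b (b (l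 16642776) (l 16649936)) (l 6)) (b (b (l 16632960) (l 16639408)) (b (l 16645152) (l 1)))) (l 1))))), by decide +kernel⟩

def k5_pp_022 : ∃ t, chk3 f_pp_022 t 9 3 1 = true :=
  ⟨(b (b (a (b (a (b (c (l 16559112) (l 16552072)) (l 16564664)) (c (b (l 16568992) (l 16556064)) (b (l 16539672) (l 16547544)))) (c (a (l 16590920) (l 16567288)) (a (l 16573184) (l 16558480)))) (a (b (c (b (l 16536904) (l 16544248)) (b (l 16527144) (l 16534216))) (b (l 16545936) (l 16552136))) (b (c (b (l 16525800) (l 16532344)) (b (l 16514512) (l 16520704))) (l 1)))) (a (b (a (c (l 16607464) (l 16610560)) (b (l 16595000) (l 16601656))) (a (b (l 16615368) (a (l 16616456) (l 16606928))) (b (l 16607792) (l 1)))) (b (a (b (l 16558016) (l 1)) (l 1)) (l 1)))) (b (a (b (a (b (a (l 16622912) (l 16612672)) (l 16644112)) (l 1)) (l 1)) (l 1)) (l 1))), by decide +kernel⟩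

def k6_pp_022 : ∃ t, chk3 f_pp_022 t 5 3 1 = true :=
  ⟨(b (l 1) (l 1)), by decide +kernel⟩

def k7_pp_022 : ∃ t, chk3 f_pp_022 t 3 1 1 = true :=
  ⟨(l 1), by decide +kernel⟩

theorem s8_pp_022 : ∃ t, chk3 f_pp_022 t 4 3 1 = true := ex3_a k4_pp_022 k5_pp_022

theorem s9_pp_022 : ∃ t, chk3 f_pp_022 t 2 3 1 = true := ex3_a s8_pp_022 k6_pp_022

theorem s10_pp_022 : ∃ t, chk3 f_pp_022 t 4 5 1 = true := ex3_b k1_pp_022 k2_pp_022

theorem s11_pp_022 : ∃ t, chk3 f_pp_022 t 4 2 1 = true := ex3_b k0_pp_022 s10_pp_022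

theorem s12_pp_022 : ∃ t, chk3 f_pp_022 t 2 2 1 = true := ex3_a s11_pp_022 k3_pp_022

theorem s13_pp_022 : ∃ t, chk3 f_pp_022 t 2 1 1 = true := ex3_b s12_pp_022 s9_pp_022

theorem s14_pp_022 : ∃ t, chk3 f_pp_022 t 1 1 1 = true := ex3_a s13_pp_022 k7_pp_022

theorem c_pp_022 : CertB 0 536870912 0 536870912 649613803 48318383 3 eng mog cd1q0 cd0q2 pd2 false true true .pp 0 2 2
    ndB1q0 ndB0q2 pcB2 cut_pp_022 Ext.none :=
  certB2 (fam := false) (s1 := true) (s2 := true) (a := 0) (b := 2) (c := 2) (cn := .pp) (n1 := ndB1q0) (n2 := ndB0q2) (pc := pcB2) (cut := cut_pp_022) (xt := Ext.none) (P1 := 0) (W1 := 536870912) (P2 := 0) (W2 := 536870912) (P3 := 649613803) (W3 := 48318383) (N0 := 3) (En := eng) (mo := mog) (C1 := cd1q0) (C2 := cd0q2) (C3 := pd2)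
    rfl (fun _ => rfl) s14_pp_022

noncomputable def f_pp_101 : ℕ → ℕ → ℕ → ℕ → Bool := onCell 536870912 536870912 536870912 536870912 649613803 48318383
    (rowB 3 eng mog cd1q1 cd0q1 pd0 0 false true true .npn 1 0 1 (qsf 536870912 536870912 536870912 536870912 0) ndB1q1 ndB0q1 pcB0 Cut.none Ext.none)

def k0_pp_101 : ∃ t, chk3 f_pp_101 t 1 1 1 = true :=
  ⟨(l 3), by decide +kernel⟩

theorem c_pp_101 : CertB 536870912 536870912 536870912 536870912 649613803 48318383 3 eng mog cd1q1 cd0q1 pd0 false true true .npn 1 0 1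
    ndB1q1 ndB0q1 pcB0 Cut.none Ext.none :=
  certB0 (fam := false) (s1 := true) (s2 := true) (a := 1) (b := 0) (c := 1) (cn := .npn) (n1 := ndB1q1) (n2 := ndB0q1) (pc := pcB0) (cut := Cut.none) (xt := Ext.none) (P1 := 536870912) (W1 := 536870912) (P2 := 536870912) (W2 := 536870912) (P3 := 649613803) (W3 := 48318383) (N0 := 3) (En := eng) (mo := mog) (C1 := cd1q1) (C2 := cd0q1) (C3 := pd0)
    rfl k0_pp_101

noncomputable def f_pp_102 : ℕ → ℕ → ℕ → ℕ → Bool := onCell 0 536870912 0 536870912 649613803 48318383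
    (rowB 3 eng mog cd1q1 cd0q2 pd0 2 false true true .npp 1 0 2 (qsf 536870912 536870912 0 536870912 0) ndB1q1 ndB0q2 pcB0 Cut.none Ext.none)

def k0_pp_102 : ∃ t, chk3 f_pp_102 t 1 1 1 = true :=
  ⟨(b (a (l 3) (l 3)) (l 3)), by decide +kernel⟩

theorem c_pp_102 : CertB 536870912 536870912 0 536870912 649613803 48318383 3 eng mog cd1q1 cd0q2 pd0 false true true .npp 1 0 2
    ndB1q1 ndB0q2 pcB0 Cut.none Ext.none :=
  certB2 (fam := false) (s1 := true) (s2 := true) (a := 1) (b := 0) (c := 2) (cn := .npp) (n1 := ndB1q1) (n2 := ndB0q2) (pc := pcB0) (cut := Cut.none) (xt := Ext.none) (P1 := 536870912) (W1 := 536870912) (P2 := 0) (W2 := 536870912) (P3 := 649613803) (W3 := 48318383) (N0 := 3) (En := eng) (mo := mog) (C1 := cd1q1) (C2 := cd0q2) (C3 := pd0)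
    rfl (fun _ => rfl) k0_pp_102

noncomputable def f_pp_112 : ℕ → ℕ → ℕ → ℕ → Bool := onCell 536870912 536870912 0 536870912 649613803 48318383
    (rowB 3 eng mog cd1q1 cd0q2 pd1 2 false true true .dn 1 1 2 (qsf 536870912 536870912 0 536870912 1) ndB1q1 ndB0q2 pcB1 Cut.none Ext.none)

def k0_pp_112 : ∃ t, chk3 f_pp_112 t 2 2 1 = true :=
  ⟨(a (b (a (b (a (b (a (l 3) (b (l 196662434935) (l 3))) (l 3)) (b (a (b (b (a (a (l 160155233319) (l 16744872)) (l 16748240)) (a (l 185925027335) (b (l 16744536) (l 145122867591)))) (b (l 196125568007) (l 3))) (b (a (l 16749480) (l 16751064)) (a (b (a (l 169282057927) (l 111299977847)) (l 204715507319)) (b (l 16747696) (b (l 136532911863) (l 184851313239)))))) (a (l 3) (a (l 3) (a (l 3) (l 214379185143)))))) (l 3)) (b (b (a (a (a (l 16751416) (l 16751744)) (b (l 16747960) (l 16751656))) (a (b (l 16742128) (l 16747848)) (l 16739056))) (a (a (b (a (b (a (l 177871969783) (l 141364746711)) (l 3)) (b (l 16747512) (a (l 188609387047)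 (l 143512225335)))) (l 3)) (b (l 16742856) (a (b (b (l 150491546871) (l 190219998455)) (l 3)) (b (l 16746976) (b (l 160155233895) (l 190756868471)))))) (a (b (l 16751424) (a (l 16738376) (l 16750968))) (b (l 16747752) (l 16750920))))) (a (l 3) (b (a (b (a (b (a (l 191293738871) (l 162302716711)) (l 3)) (b (l 16746280) (b (l 158007748999) (l 192367480151)))) (l 3)) (b (a (l 101099424743) (l 16750096)) (a (b (b (l 155323394023) (l 191830609063)) (l 3)) (b (l 16735088) (b (l 152102168263) (l 191293738167)))))) (l 3))))) (l 3)) (a (a (b (b (b (l 16725928) (a (b (l 16742216) (l 16746920)) (l 16737720))) (b (b (a (l 16749776) (l 16745312)) (a (a (b (l 16748576) (l 102173169591)) (l 16748816)) (l 16748072))) (a (b (a (b (b (l 147807200695) (l 189683125511)) (l 3)) (b (l 98951944551) (a (l 186461900039) (l 152639038391)))) (l 3)) (b (a (b (l 16747216) (a (l 104320652615) (l 16745000))) (l 16747144)) (a (b (b (a (l 177871968039) (l 115594941111)) (l 182166932487)) (l 3))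 (l 1)))))) (l 3)) (b (b (l 1) (l 1)) (l 1))) (l 1))), by decide +kernel⟩

def k1_pp_112 : ∃ t, chk3 f_pp_112 t 2 3 1 = true :=
  ⟨(l 3), by decide +kernel⟩

def k2_pp_112 : ∃ t, chk3 f_pp_112 t 3 1 1 = true :=
  ⟨(l 1), by decide +kernel⟩

theorem s3_pp_112 : ∃ t, chk3 f_pp_112 t 2 1 1 = true := ex3_b k0_pp_112 k1_pp_112

theorem s4_pp_112 : ∃ t, chk3 f_pp_112 t 1 1 1 = true := ex3_a s3_pp_112 k2_pp_112

theorem c_pp_112 : CertB 536870912 536870912 0 536870912 649613803 48318383 3 eng mog cd1q1 cd0q2 pd1 false true true .dn 1 1 2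
    ndB1q1 ndB0q2 pcB1 Cut.none Ext.none :=
  certB2 (fam := false) (s1 := true) (s2 := true) (a := 1) (b := 1) (c := 2) (cn := .dn) (n1 := ndB1q1) (n2 := ndB0q2) (pc := pcB1) (cut := Cut.none) (xt := Ext.none) (P1 := 536870912) (W1 := 536870912) (P2 := 0) (W2 := 536870912) (P3 := 649613803) (W3 := 48318383) (N0 := 3) (En := eng) (mo := mog) (C1 := cd1q1) (C2 := cd0q2) (C3 := pd1)
    rfl (fun _ => rfl) s4_pp_112

noncomputable def f_pp_202_a : ℕ → ℕ → ℕ → ℕ → Bool := onCell 0 536870912 0 536870912 649613803 48318383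
    (rowB 3 eng mog cd1q2a cd0q2 pd0 0 false true true .pp 2 0 2 (qsf 0 536870912 0 536870912 0) ndB1q2a ndB0q2 pcB0 Cut.none Ext.none)

def k0_pp_202_a : ∃ t, chk3 f_pp_202_a t 1 1 1 = true :=
  ⟨(l 3), by decide +kernel⟩

theorem c_pp_202_a : CertB 0 536870912 0 536870912 649613803 48318383 3 eng mog cd1q2a cd0q2 pd0 false true true .pp 2 0 2
    ndB1q2a ndB0q2 pcB0 Cut.none Ext.none :=
  certB0 (fam := false) (s1 := true) (s2 := true) (a := 2) (b := 0) (c := 2) (cn := .pp) (n1 := ndB1q2a) (n2 := ndB0q2) (pc := pcB0) (cut := Cut.none) (xt := Ext.none) (P1 := 0) (W1 := 536870912) (P2 := 0) (W2 := 536870912) (P3 := 649613803) (W3 := 48318383) (N0 := 3) (En := eng) (mo := mog) (C1 := cd1q2a) (C2 := cd0q2) (C3 := pd0)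
    rfl k0_pp_202_a

noncomputable def f_pp_202_b : ℕ → ℕ → ℕ → ℕ → Bool := onCell 1239849684 370763052 0 536870912 649613803 48318383
    (rowB 3 eng mog cd1q2b cd0q2 pd0 0 false true true .pp 2 0 2 (qsf 1239849684 370763052 0 536870912 0) ndB1q2b ndB0q2 pcB0 Cut.none Ext.none)

def k0_pp_202_b : ∃ t, chk3 f_pp_202_b t 1 1 1 = true :=
  ⟨(l 3), by decide +kernel⟩

theorem c_pp_202_b : CertB 1239849684 370763052 0 536870912 649613803 48318383 3 eng mog cd1q2b cd0q2 pd0 false true true .pp 2 0 2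
    ndB1q2b ndB0q2 pcB0 Cut.none Ext.none :=
  certB0 (fam := false) (s1 := true) (s2 := true) (a := 2) (b := 0) (c := 2) (cn := .pp) (n1 := ndB1q2b) (n2 := ndB0q2) (pc := pcB0) (cut := Cut.none) (xt := Ext.none) (P1 := 1239849684) (W1 := 370763052) (P2 := 0) (W2 := 536870912) (P3 := 649613803) (W3 := 48318383) (N0 := 3) (En := eng) (mo := mog) (C1 := cd1q2b) (C2 := cd0q2) (C3 := pd0)
    rfl k0_pp_202_b

noncomputable def f_pm_001 : ℕ → ℕ → ℕ → ℕ → Bool := onCell 0 536870912 536870912 536870912 649613803 48318383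
    (rowB 3 eng mog cd1q0 cd0q1 pd0 0 false true false .up 0 0 1 (qsf 0 536870912 536870912 536870912 0) ndB1q0 ndB0q1 pcB0 Cut.none Ext.none)

def k0_pm_001 : ∃ t, chk3 f_pm_001 t 1 1 1 = true :=
  ⟨(a (b (l 4) (b (l 4) (l 2))) (b (b (l 4) (a (l 4) (b (l 4) (a (l 4) (b (l 4) (a (b (l 4) (l 16794096)) (b (a (l 16724096) (l 16716200)) (l 16704080)))))))) (a (b (b (a (l 4) (b (l 4) (a (l 4) (b (l 4) (a (l 4) (l 16704120)))))) (b (a (l 4) (b (a (l 4) (a (l 16714104) (l 16668720))) (a (a (b (l 4) (l 2)) (b (l 16691040) (l 16672552))) (a (l 16677208) (l 16638552))))) (a (l 2) (a (b (a (l 2) (l 16670512)) (l 2)) (b (a (l 16629152) (l 16611328)) (l 16668856)))))) (b (a (l 2) (b (a (l 2) (b (l 88147255095) (l 2))) (l 2))) (l 2))) (b (b (a (b (a (l 4) (b (l 4) (a (l 16707296) (l 16687456)))) (a (b (a (l 4) (l 16758008)) (a (l 16681512) (l 16658384))) (b (l 16744920) (l 16685952)))) (b (a (b (l 16741016) (l 16675848)) (b (l 16687608) (l 16670400))) (a (b (l 16651856) (l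 16629624)) (l 16639848)))) (a (b (a (b (l 16683624) (l 16635824)) (b (l 16665752) (l 16598032))) (a (b (l 16586720) (l 16559880)) (b (l 16567912) (l 16537488)))) (b (a (b (l 16612680) (l 16591960)) (l 16618456)) (a (b (l 16566072) (l 16536408)) (b (l 16569832) (l 16544520)))))) (b (a (b (a (b (a (l 16545768) (l 16528616)) (l 16578304)) (b (l 16509488) (l 16484688))) (a (l 62914189239) (l 16534512))) (a (b (b (l 16501696) (l 16473296)) (l 16516576)) (b (b (l 16519048) (l 16488504)) (b (l 16455464) (l 16425880))))) (a (b (a (l 2) (b (l 16440768) (l 2))) (l 2)) (b (b (a (l 16397872) (l 16397920)) (a (l 16379576) (l 16375720))) (b (a (l 16361944) (l 16355456)) (a (l 2) (l 16347064)))))))))), by decide +kernel⟩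

theorem c_pm_001 : CertB 0 536870912 536870912 536870912 649613803 48318383 3 eng mog cd1q0 cd0q1 pd0 false true false .up 0 0 1
    ndB1q0 ndB0q1 pcB0 Cut.none Ext.none :=
  certB0 (fam := false) (s1 := true) (s2 := false) (a := 0) (b := 0) (c := 1) (cn := .up) (n1 := ndB1q0) (n2 := ndB0q1) (pc := pcB0) (cut := Cut.none) (xt := Ext.none) (P1 := 0) (W1 := 536870912) (P2 := 536870912) (W2 := 536870912) (P3 := 649613803) (W3 := 48318383) (N0 := 3) (En := eng) (mo := mog) (C1 := cd1q0) (C2 := cd0q1) (C3 := pd0)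
    rfl k0_pm_001

noncomputable def cut_pm_011 : Cut := Cut.of [[⟨0, 0, 0, 67108864⟩, ⟨1, 1, 0, 67108864⟩, ⟨2, 1, 0, 67108864⟩]]

noncomputable def f_pm_011 : ℕ → ℕ → ℕ → ℕ → Bool := onCell 0 536870912 536870912 536870912 649613803 48318383
    (rowB 3 eng mog cd1q0 cd0q1 pd1 0 false true false .pnn 0 1 1 (qsf 0 536870912 536870912 536870912 1) ndB1q0 ndB0q1 pcB1 cut_pm_011 Ext.none)

def k0_pm_011 : ∃ t, chk3 f_pm_011 t 1 2 1 = true :=
  ⟨(a (l 4) (a (l 4) (l 1))), by decide +kernel⟩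

def k1_pm_011 : ∃ t, chk3 f_pm_011 t 2 6 1 = true :=
  ⟨(l 4), by decide +kernel⟩

def k2_pm_011 : ∃ t, chk3 f_pm_011 t 4 14 1 = true :=
  ⟨(l 4), by decide +kernel⟩

def k3_pm_011 : ∃ t, chk3 f_pm_011 t 8 15 1 = true :=
  ⟨(b (l 4) (a (b (l 4) (l 6)) (b (a (b (l 4) (a (l 4) (b (l 4) (a (b (l 4) (l 6)) (b (l 16767704) (l 16763712)))))) (b (a (l 4) (b (l 4) (a (l 9898550071) (l 16775112)))) (a (b (a (b (l 4) (l 16767480)) (b (l 16767264) (l 16763336))) (a (l 16771744) (l 16756560))) (b (b (l 16771232) (l 16756328)) (l 16749464))))) (a (b (b (a (l 6) (b (l 16771912) (l 6))) (l 6)) (l 6)) (b (b (a (b (l 16751968) (l 16757720)) (a (l 16742576) (l 16738000))) (a (b (l 16742712) (l 16737856)) (l 16751888))) (a (b (a (l 6) (l 16728376)) (l 6)) (b (l 16737240) (l 16732736)))))))), by decide +kernel⟩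

def k4_pm_011 : ∃ t, chk3 f_pm_011 t 9 15 1 = true :=
  ⟨(b (a (b (l 4) (b (l 4) (a (a (l 4) (b (l 4) (a (l 4) (l 16762824)))) (a (b (l 16769128) (l 16766672)) (b (l 16755192) (l 16747000)))))) (b (a (l 4) (b (l 4) (a (b (l 4) (l 122104485879)) (b (l 16750816) (l 16743024))))) (a (a (b (a (l 16765328) (l 16766200)) (l 16741872)) (b (l 16762080) (l 16732648))) (b (a (l 16739920) (l 16730960)) (l 16729640))))) (b (a (b (a (a (b (b (l 4) (l 16774512)) (c (l 16758104) (l 16768120))) (b (l 16767592) (l 16748560))) (b (l 16764112) (l 16755504))) (a (b (b (l 16767600) (l 16763136)) (a (l 16750448) (l 16730816))) (b (b (l 16727928) (l 16744640)) (l 16727648)))) (b (a (b (l 16724696) (l 16726680)) (b (a (l 16711120) (l 16702544)) (l 16740472))) (a (b (a (l 16712256) (l 16703136)) (l 16698920)) (a (l 16689896) (l 16681408))))) (a (b (b (a (b (l 16739248) (l 16745000)) (l 16729024)) (a (a (l 16742624) (l 16712496)) (l 16720000))) (b (a (b (l 16731176) (l 16705432)) (l 16689864))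 (a (c (l 16720888) (l 16717376)) (l 16701512)))) (a (b (b (l 16690072) (l 16681368)) (b (l 16672320) (l 16663224))) (b (c (l 16691536) (l 16708232)) (b (l 16655360) (l 16646496))))))), by decide +kernel⟩

def k5_pm_011 : ∃ t, chk3 f_pm_011 t 5 7 1 = true :=
  ⟨(b (a (b (l 4) (a (b (l 4) (a (l 4) (b (l 4) (c (l 16765792) (l 16765760))))) (b (a (l 4) (b (l 4) (l 16745096))) (a (b (l 16760568) (l 16724632)) (b (l 16719680) (l 16705168)))))) (b (a (b (l 4) (a (l 4) (b (l 4) (l 16725096)))) (b (a (l 4) (b (l 4) (l 16714592))) (a (b (l 16720264) (l 16704856)) (l 16691208)))) (a (a (b (a (l 19025282999) (l 16717328)) (l 16692872)) (b (l 16707664) (l 16673160))) (b (a (l 16682168) (l 16661192)) (a (l 16653184) (l 16632704)))))) (a (b (a (b (a (b (b (l 16765560) (l 16766416)) (l 16754656)) (b (l 16750656) (l 16715112))) (b (a (l 16739000) (l 16699896)) (a (b (l 16706456) (l 16698640)) (l 16684960)))) (a (b (l 16723952) (b (l 16681240) (l 16666664))) (b (l 16715248) (l 16697440))))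 (a (b (b (a (l 16686696) (l 16669896)) (a (l 16670192) (l 16675696))) (b (a (l 16653872) (l 16639320)) (a (l 16657896) (l 16623360)))) (b (b (l 16643216) (l 16629192)) (b (l 16636128) (a (l 16608944) (l 16593040)))))) (a (b (b (b (l 16703736) (l 16689968)) (l 16648616)) (b (b (l 16607624) (l 16594600)) (b (l 16581576) (l 16568624)))) (b (b (c (l 16657984) (l 16657992)) (l 16590744)) (b (l 16587232) (l 16563384)))))), by decide +kernel⟩

def k6_pm_011 : ∃ t, chk3 f_pm_011 t 3 3 1 = true :=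
  ⟨(b (a (b (a (l 4) (a (l 4) (l 1))) (a (b (l 4) (a (b (l 4) (a (l 20099078615) (b (l 16717656) (l 16701752)))) (b (a (l 20099057095) (l 16716632)) (a (l 16707200) (l 16662032))))) (b (a (b (l 4) (a (l 16726720) (l 16682288))) (b (l 1) (l 16687152))) (a (b (a (l 16671576) (l 16646656)) (l 16645880)) (b (l 16635152) (l 16583896)))))) (b (l 1) (a (b (l 1) (a (b (l 1) (l 16549744)) (l 1))) (l 1)))) (a (b (a (b (a (b (a (l 16721360) (l 16677672)) (l 16679048)) (b (l 16673688) (l 16633344))) (b (a (l 16650000) (l 16605616)) (a (c (l 16644480) (l 16643576)) (l 16560304)))) (b (a (b (l 16594800) (l 16566896)) (b (l 16554752) (l 16527536))) (b (a (l 16561928) (l 16501776)) (l 16561240)))) (a (b (b (a (l 16576384) (l 16536560)) (a (l 16573848) (l 16535416))) (b (a (l 16530776) (l 16494736)) (a (l 16509632) (l 16476112)))) (b (a (b (l 16496152) (l 16476304)) (l 16511944)) (b (l 16482984) (a (l 16442080) (l 16408768)))))) (b (b (a (a (b (l 16521264) (l 16493072)) (b (l 1)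 (l 16466072))) (l 1)) (a (a (l 16456728) (l 16407800)) (a (l 16404776) (l 1)))) (b (a (b (l 16432088) (l 16393176)) (a (l 16341624) (l 16340904))) (b (a (l 16377800) (l 16349920)) (a (l 16364272) (l 16337040))))))), by decide +kernel⟩

theorem s7_pm_011 : ∃ t, chk3 f_pm_011 t 4 15 1 = true := ex3_a k3_pm_011 k4_pm_011

theorem s8_pm_011 : ∃ t, chk3 f_pm_011 t 4 7 1 = true := ex3_b k2_pm_011 s7_pm_011

theorem s9_pm_011 : ∃ t, chk3 f_pm_011 t 2 7 1 = true := ex3_a s8_pm_011 k5_pm_011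

theorem s10_pm_011 : ∃ t, chk3 f_pm_011 t 2 3 1 = true := ex3_b k1_pm_011 s9_pm_011

theorem s11_pm_011 : ∃ t, chk3 f_pm_011 t 1 3 1 = true := ex3_a s10_pm_011 k6_pm_011

theorem s12_pm_011 : ∃ t, chk3 f_pm_011 t 1 1 1 = true := ex3_b k0_pm_011 s11_pm_011

theorem c_pm_011 : CertB 0 536870912 536870912 536870912 649613803 48318383 3 eng mog cd1q0 cd0q1 pd1 false true false .pnn 0 1 1
    ndB1q0 ndB0q1 pcB1 cut_pm_011 Ext.none :=
  certB0 (fam := false) (s1 := true) (s2 := false) (a := 0) (b := 1) (c := 1) (cn := .pnn) (n1 := ndB1q0) (n2 := ndB0q1) (pc := pcB1) (cut := cut_pm_011) (xt := Ext.none) (P1 := 0) (W1 := 536870912) (P2 := 536870912) (W2 := 536870912) (P3 := 649613803) (W3 := 48318383) (N0 := 3) (En := eng) (mo := mog) (C1 := cd1q0) (C2 := cd0q1) (C3 := pd1)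
    rfl s12_pm_011

noncomputable def cut_pm_012 : Cut := Cut.of [[⟨0, 0, 0, 67108864⟩, ⟨1, 1, 0, 67108864⟩, ⟨2, 1, 0, 67108864⟩]]

noncomputable def f_pm_012 : ℕ → ℕ → ℕ → ℕ → Bool := onCell 536870912 536870912 0 536870912 649613803 48318383
    (rowB 3 eng mog cd1q0 cd0q2 pd1 2 false true false .pnp 0 1 2 (qsf 0 536870912 0 536870912 1) ndB1q0 ndB0q2 pcB1 cut_pm_012 Ext.none)

def k0_pm_012 : ∃ t, chk3 f_pm_012 t 2 1 1 = true :=
  ⟨(b (a (b (l 2) (b (l 2) (a (l 2) (b (l 2) (l 16611704))))) (b (a (b (a (l 16741872) (b (l 16690584) (l 16670160))) (a (l 16656776) (l 16638368))) (b (a (l 16660576) (l 16639192)) (l 16611672))) (b (a (a (l 16616824) (l 16621456)) (b (l 16586360) (a (l 16578120) (l 16563656)))) (a (b (a (l 16584152) (l 16571176)) (l 16551880)) (b (l 16551952) (l 16531216)))))) (b (a (a (l 2) (b (b (l 16532368) (l 16491216)) (l 16432048))) (b (a (a (l 16508976) (l 16505080)) (b (l 16509128) (l 16486864))) (a (a (l 16446056) (l 16452704)) (a (l 16457712)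 (l 16461728))))) (a (b (a (l 16393152) (b (l 16387136) (l 16366008))) (a (l 16375360) (b (l 16351776) (l 16353888)))) (b (a (a (l 16385056) (l 16402256)) (b (l 16572000) (l 16509240))) (a (b (l 16407080) (l 16453136)) (a (l 16511728) (l 16559176))))))), by decide +kernel⟩

def k1_pm_012 : ∃ t, chk3 f_pm_012 t 3 2 1 = true :=
  ⟨(a (b (a (b (l 16608584) (a (l 16585256) (l 16567240))) (b (a (l 16578880) (l 16561608)) (a (l 16613256) (l 16557184)))) (a (b (b (a (l 16563568) (l 16547072)) (l 16540024)) (b (l 16524432) (l 16550608))) (b (a (b (l 16529824) (l 16516336)) (b (l 16515880) (l 16504192))) (a (b (l 16503656) (l 16492016)) (b (l 16493960) (l 16485576)))))) (b (a (b (a (l 16546800) (l 16534952)) (a (l 16586088) (l 16510664))) (b (a (l 16525888) (l 16513424)) (a (l 16500016) (l 16538816)))) (a (b (a (b (l 16503768) (l 16494000)) (b (l 16493304) (l 16485216))) (a (b (l 16486384) (l 16481416)) (b (l 16480016) (l 16478408)))) (b (a (b (l 16484296) (l 16477808))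 (b (l 16477496) (a (l 16473688) (l 16471704)))) (a (b (l 16475152) (l 16498120)) (b (a (l 16472944) (l 16472256)) (a (l 16477704) (l 16478864)))))))), by decide +kernel⟩

def k2_pm_012 : ∃ t, chk3 f_pm_012 t 3 3 1 = true :=
  ⟨(b (a (b (a (b (l 16514312) (l 16479656)) (a (b (l 16482176) (l 16475288)) (b (l 16479848) (l 16477864)))) (a (b (l 16469888) (l 16508024)) (a (b (l 16473240) (l 16519472)) (b (l 16481144) (l 16490776))))) (a (b (a (b (l 16479920) (l 16482864)) (b (l 16481248) (l 16489448))) (b (a (l 16491488) (l 16503864)) (a (l 16506688) (l 16525008)))) (b (a (b (l 16484632) (l 16519352)) (b (a (l 16488776) (l 16512608)) (a (l 16506536) (l 16510448)))) (b (a (l 16518768) (l 16532192)) (a (l 16565800) (l 16581576)))))) (a (b (a (a (l 16467920) (l 16504256)) (a (b (l 16552784) (l 16510040)) (l 16583256))) (a (b (l 16564768) (a (l 16515664) (l 16545496))) (a (b (l 16538856) (l 16613608)) (b (l 16567384) (b (l 16593248) (l 16591136)))))) (b (a (a (b (l 16528960)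 (l 16559288)) (b (l 16552200) (l 16593616))) (a (b (l 16590280) (l 16633816)) (a (b (l 16585768) (l 16622408)) (b (l 16595888) (b (l 16624528) (l 16646176)))))) (a (b (a (b (l 16582016) (l 16598824)) (a (l 16607512) (a (l 16617680) (l 16645968)))) (b (a (a (l 16611312) (l 16624008)) (a (l 16639168) (l 16655184))) (a (a (l 16652392) (l 16646552)) (b (l 16686352) (a (l 16669504) (l 16686848)))))) (b (b (a (l 16653376) (a (l 16654784) (l 6))) (a (a (l 16647296) (b (l 16656936) (l 16669080))) (l 6))) (a (b (a (l 16692536) (b (l 16681744) (l 6))) (a (b (l 16691016) (l 16725536)) (l 6))) (l 6))))))), by decide +kernel⟩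

theorem s3_pm_012 : ∃ t, chk3 f_pm_012 t 3 1 1 = true := ex3_b k1_pm_012 k2_pm_012

theorem s4_pm_012 : ∃ t, chk3 f_pm_012 t 1 1 1 = true := ex3_a k0_pm_012 s3_pm_012

theorem c_pm_012 : CertB 0 536870912 0 536870912 649613803 48318383 3 eng mog cd1q0 cd0q2 pd1 false true false .pnp 0 1 2
    ndB1q0 ndB0q2 pcB1 cut_pm_012 Ext.none :=
  certB2 (fam := false) (s1 := true) (s2 := false) (a := 0) (b := 1) (c := 2) (cn := .pnp) (n1 := ndB1q0) (n2 := ndB0q2) (pc := pcB1) (cut := cut_pm_012) (xt := Ext.none) (P1 := 0) (W1 := 536870912) (P2 := 0) (W2 := 536870912) (P3 := 649613803) (W3 := 48318383) (N0 := 3) (En := eng) (mo := mog) (C1 := cd1q0) (C2 := cd0q2) (C3 := pd1)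
    rfl (fun _ => rfl) s4_pm_012

noncomputable def cut_pm_022 : Cut := Cut.of [[⟨0, 0, 0, 67108864⟩, ⟨1, 1, 0, 67108864⟩, ⟨2, 1, 0, 67108864⟩]]

noncomputable def f_pm_022 : ℕ → ℕ → ℕ → ℕ → Bool := onCell 0 536870912 0 536870912 649613803 48318383
    (rowB 3 eng mog cd1q0 cd0q2 pd2 0 false true false .pp 0 2 2 (qsf 0 536870912 0 536870912 2) ndB1q0 ndB0q2 pcB2 cut_pm_022 Ext.none)

def k0_pm_022 : ∃ t, chk3 f_pm_022 t 2 2 1 = true :=
  ⟨(a (b (a (b (a (c (a (l 16445344) (l 16449824)) (l 16450080)) (l 16533072)) (a (b (c (l 16452472) (l 16454488)) (c (l 16458832) (l 16418440))) (b (l 16459408) (l 16462248)))) (b (a (l 16472232) (a (l 16478320) (l 16483808))) (a (b (l 16469480) (l 16468312)) (b (l 16478584) (l 16499224))))) (a (b (a (b (c (l 16467168) (b (l 16465864) (l 16470128))) (b (l 16495568) (l 16501576))) (b (a (l 16466744) (l 16467080)) (a (l 16474480) (l 16472848)))) (b (a (b (a (l 16489248) (l 16485560)) (a (l 16497584) (l 16493200))) (b (l 16480632)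 (a (l 16488680) (l 16484112)))) (a (b (a (l 16506920) (l 16501520)) (a (c (l 16517072) (l 16517960)) (l 16510984))) (b (l 16514408) (l 16522368))))) (b (b (a (b (l 16489440) (l 16469136)) (a (l 16472424) (l 16475904))) (a (a (l 16471720) (l 16471200)) (b (l 16534864) (l 16492448)))) (b (a (b (l 16475080) (l 16478600)) (a (l 16473184) (l 16513344))) (a (b (a (l 16485808) (l 16480504)) (l 16488848)) (b (a (l 16475984) (l 16472496)) (a (l 16480448) (l 16516424)))))))) (a (a (b (b (c (b (l 16505800) (l 16498864)) (l 16495936)) (b (c (l 16493928) (l 16490664)) (b (l 16490440) (l 16486280)))) (a (b (b (l 16499120) (b (l 16472824) (l 16470160))) (b (l 49425120903) (b (l 16466184) (l 1)))) (b (b (b (l 16482704) (l 16477288)) (l 642130556551)) (l 1)))) (b (b (l 1) (l 1)) (l 1))) (l 1))), by decide +kernel⟩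

def k1_pm_022 : ∃ t, chk3 f_pm_022 t 2 3 1 = true :=
  ⟨(b (a (a (b (b (a (a (b (c (l 16528248) (l 16529520)) (a (l 16543064) (l 16539008))) (b (l 16521424) (l 16532800))) (a (b (l 16514032) (l 16524368)) (l 16553184))) (a (b (a (a (c (l 16554424) (l 16551992)) (l 16552008)) (l 16545040)) (a (a (c (l 16563576) (b (l 16558336) (l 16562808))) (l 16561392)) (l 16558088))) (b (a (l 16535552) (l 16525928)) (l 16563096)))) (b (b (a (a (a (c (l 16573472) (l 16570008)) (l 16570904)) (l 16568920)) (l 16553936)) (a (a (a (c (l 16584280) (l 16580496)) (l 16586624)) (l 16579168)) (l 16607944))) (b (a (a (a (c (l 16596072) (l 16592088)) (l 16592904)) (l 16590432)) (l 16578264)) (a (a (a (c (l 16608984) (l 16604944)) (l 16605608)) (l 16602872)) (l 16611576))))) (b (b (a (b (l 16495576) (l 16503120)) (a (l 16487800) (l 16480176))) (a (a (l 16563064) (l 16531808)) (b (l 16534120) (l 16540408)))) (a (b (a (b (l 16535800) (l 16545928)) (l 16549016)) (b (a (l 16556168) (l 16541104))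 (l 16558088))) (b (a (l 16515048) (l 1)) (l 1))))) (l 1)) (a (a (b (b (b (a (a (a (c (l 16623136) (l 16619208)) (l 16619632)) (l 16616632)) (a (l 16611472) (l 16594192))) (a (b (a (a (l 16632720) (l 16631016)) (l 16627800)) (l 6)) (a (l 16624472) (l 16605600)))) (a (l 6) (a (l 6) (b (l 16616848) (a (l 6) (l 1)))))) (a (l 6) (a (l 6) (l 1)))) (b (a (b (a (l 34929780855) (l 1)) (l 1)) (l 1)) (l 1))) (l 1))), by decide +kernel⟩

def k2_pm_022 : ∃ t, chk3 f_pm_022 t 3 1 1 = true :=
  ⟨(l 1), by decide +kernel⟩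

theorem s3_pm_022 : ∃ t, chk3 f_pm_022 t 2 1 1 = true := ex3_b k0_pm_022 k1_pm_022

theorem s4_pm_022 : ∃ t, chk3 f_pm_022 t 1 1 1 = true := ex3_a s3_pm_022 k2_pm_022

theorem c_pm_022 : CertB 0 536870912 0 536870912 649613803 48318383 3 eng mog cd1q0 cd0q2 pd2 false true false .pp 0 2 2
    ndB1q0 ndB0q2 pcB2 cut_pm_022 Ext.none :=
  certB0 (fam := false) (s1 := true) (s2 := false) (a := 0) (b := 2) (c := 2) (cn := .pp) (n1 := ndB1q0) (n2 := ndB0q2) (pc := pcB2) (cut := cut_pm_022) (xt := Ext.none) (P1 := 0) (W1 := 536870912) (P2 := 0) (W2 := 536870912) (P3 := 649613803) (W3 := 48318383) (N0 := 3) (En := eng) (mo := mog) (C1 := cd1q0) (C2 := cd0q2) (C3 := pd2)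
    rfl s4_pm_022

noncomputable def f_pm_101 : ℕ → ℕ → ℕ → ℕ → Bool := onCell 0 536870912 536870912 536870912 649613803 48318383
    (rowB 3 eng mog cd1q1 cd0q1 pd0 2 false true false .npn 1 0 1 (qsf 536870912 536870912 536870912 536870912 0) ndB1q1 ndB0q1 pcB0 Cut.none Ext.none)

def k0_pm_101 : ∃ t, chk3 f_pm_101 t 2 2 1 = true :=
  ⟨(b (a (b (l 4) (a (b (l 4) (a (b (l 4) (a (l 16720160) (l 4))) (l 4))) (l 4))) (l 4)) (a (b (a (b (a (b (c (l 32984023559) (l 16766168)) (l 16701920)) (b (a (l 16740312) (l 4)) (c (l 32984025639) (l 34594625559)))) (a (b (l 16703944) (l 16711576)) (b (l 16701392) (l 16703800)))) (b (a (b (l 4) (a (l 16739072) (l 4))) (l 4)) (a (b (a (l 16703784) (l 16709056)) (l 16721080)) (a (b (l 27615268055) (l 16702016)) (b (l 4) (b (l 16710000) (l 16702944))))))) (a (a (b (l 16731632) (b (l 16758472) (l 16778336))) (b (l 16738856) (l 16727792))) (b (a (b (l 16702504) (l 16710896)) (b (a (l 16698496) (l 16698072)) (l 16742400))) (a (l 16709760)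 (b (l 16708624) (l 16720344)))))) (b (a (b (l 4) (a (b (l 4) (a (b (l 4) (l 16708160)) (l 59827530775))) (l 4))) (l 4)) (a (b (a (b (a (l 16698944) (l 16723320)) (l 16694056)) (b (a (l 43721399111) (l 59290652455)) (a (l 16693984) (l 16696744)))) (a (b (l 16694616) (l 16699440)) (b (l 16687384) (l 16684616)))) (a (b (b (l 4) (a (l 16743736) (l 59290642743))) (b (a (l 16686928) (l 16689088)) (l 16677360))) (b (l 4) (b (a (l 16693520) (l 16699464)) (l 16718640)))))))), by decide +kernel⟩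

def k1_pm_101 : ∃ t, chk3 f_pm_101 t 2 6 1 = true :=
  ⟨(a (b (a (a (b (b (l 16798024) (a (b (l 16820048) (l 16824224)) (b (l 16805936) (l 16811960)))) (b (l 16825784) (l 16915944))) (b (b (l 16774960) (b (l 16787872) (a (l 16803240) (l 16791216)))) (b (a (l 16808968) (b (l 16794840) (l 16799784))) (l 16809536)))) (b (a (b (l 16753648) (l 16769400)) (b (l 16733672) (a (l 16753216) (l 16742440)))) (a (b (c (l 16836520) (a (l 16774528) (b (l 16786536) (l 16789264)))) (l 16808904)) (b (b (l 16758424) (a (l 16771152) (l 16760912))) (a (l 16773440) (c (l 16751400) (l 16752752))))))) (a (a (b (b (l 16897880) (l 16835120)) (a (l 16879296) (l 16872776))) (b (b (l 16814464) (l 16902152)) (b (l 16882608) (l 16820040)))) (a (b (b (l 16812008) (l 16835888)) (b (l 16817968) (a (l 16807128) (l 16794128)))) (b (a (b (l 16774720) (l 16775856)) (b (l 16764264) (l 16764112))) (a (b (l 16777216) (l 16779928)) (b (l 16764192) (l 16807576))))))) (b (a (b (a (b (l 16707128) (l 16716904))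 (l 16665176)) (a (b (l 16727368) (c (l 16770632) (a (l 16754032) (l 16732800)))) (b (l 16691248) (a (l 16708272) (l 16688672))))) (b (a (l 16731776) (a (l 16660144) (l 16655928))) (a (l 16642888) (l 16641472)))) (b (a (a (b (l 16726720) (c (l 16730648) (l 16745752))) (b (l 16675288) (l 16698880))) (a (b (l 16641040) (l 16661728)) (b (l 16634272) (l 16624936)))) (a (a (c (l 16794856) (b (l 16746000) (l 16747760))) (b (l 16699192) (l 16721976))) (a (b (l 16661136) (l 16662264)) (b (l 16623864) (l 16623360))))))), by decide +kernel⟩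

def k2_pm_101 : ∃ t, chk3 f_pm_101 t 4 7 1 = true :=
  ⟨(b (b (a (b (b (a (c (l 16829088) (l 16882752)) (l 16905952)) (a (l 16826368) (l 16877600))) (a (l 16813240) (l 16805944))) (a (b (b (l 16803216) (a (l 16806736) (l 16799992))) (l 16796328)) (b (a (b (l 16783216) (l 16787432)) (a (l 16773672) (l 16765152))) (a (l 16785040) (a (l 16774520) (l 16808176)))))) (b (a (a (l 16798112) (l 16793560)) (a (l 16786696) (a (l 16780032) (l 16772312)))) (a (a (l 16785568) (l 16783552)) (a (l 16779304) (a (l 16774616) (l 16770848)))))) (b (b (a (a (l 16795848) (l 16775336)) (a (l 16773592) (a (l 16770808) (l 16768392)))) (a (a (b (l 16767464) (a (l 16759296) (l 16761776))) (b (l 16769824) (a (l 16763712) (l 16765168)))) (a (b (l 16769936) (a (l 16766272) (l 16767080))) (a (b (l 16768672) (l 16767440)) (b (l 16767232) (l 16830208)))))) (b (a (a (a (l 16749192) (l 16752088)) (l 16755624)) (a (l 16758224) (l 16780144))) (a (a (a (l 16734600) (l 16738240)) (a (l 16741368) (l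 16743776))) (a (l 16767376) (l 16811040)))))), by decide +kernel⟩

def k3_pm_101 : ∃ t, chk3 f_pm_101 t 5 7 1 = true :=
  ⟨(b (b (a (b (a (c (l 16735800) (l 16772856)) (a (l 16714496) (l 16695256))) (a (b (a (l 16796168) (l 16758824)) (l 16748216)) (b (c (l 16708560) (l 16778536)) (c (l 16707896) (l 16736128))))) (a (b (l 16686768) (b (l 16669880) (a (l 16682560) (l 16663800)))) (a (b (l 16635568) (l 16642800)) (l 16617512)))) (b (a (a (b (l 16750344) (l 16753008)) (b (l 16715664) (l 16740440))) (a (l 16741584) (a (l 16646920) (l 16623944)))) (a (a (a (l 16763432) (l 16751008)) (c (l 16721704) (l 16816968))) (a (c (l 16687888) (l 16688656)) (c (l 16650744) (l 16640616)))))) (b (a (a (b (a (l 16765192) (l 16758568)) (a (b (l 16765224) (l 16808488)) (a (l 16849584) (c (l 16755376) (l 16775320))))) (b (a (l 16766736) (l 16727704)) (a (a (c (l 16751760) (l 16793496)) (l 16795944)) (c (l 16734280) (l 16749120))))) (a (b (a (l 16708392) (l 16687984)) (a (l 16763056)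 (l 16700792))) (b (a (l 16666520) (l 16644064)) (a (l 16679176) (l 16656320))))) (b (a (a (a (l 16758888) (l 16758368)) (a (c (l 16747680) (l 16765816)) (c (l 16738592) (l 16774352)))) (b (b (a (a (l 16728192) (l 16708912)) (a (l 16688152) (l 16665608))) (a (l 16720640) (l 16679128))) (a (l 16722664) (c (l 16684424) (l 16682168))))) (a (a (a (l 16748568) (l 16748632)) (a (l 16768192) (l 16742464))) (a (a (l 16733584) (l 16718752)) (a (l 16700632) (l 16679264))))))), by decide +kernel⟩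

def k4_pm_101 : ∃ t, chk3 f_pm_101 t 6 1 1 = true :=
  ⟨(b (b (l 1) (b (l 1) (a (b (l 1) (a (b (l 1) (l 243772756455)) (l 1))) (l 1)))) (b (b (a (b (a (l 112239404919) (b (l 1) (l 16639008))) (a (l 16624128) (l 16594216))) (a (b (l 1) (l 191159224887)) (l 1))) (a (b (b (l 16596968) (a (l 16598016) (l 16575640))) (a (b (l 16590664) (l 16585864)) (b (l 16560296) (l 16553400)))) (b (a (l 16558536) (l 87543121671)) (a (b (l 16535376) (l 16523704)) (b (l 16522264) (l 16503856)))))) (a (b (b (a (b (l 16584936) (l 16587856)) (l 16525856)) (a (b (b (l 16592024) (l 16594512)) (l 16599672)) (b (l 16527080) (l 16551736)))) (b (b (a (l 16650504) (l 16558000)) (a (a (l 16632232) (l 16606888)) (a (l 16580352) (l 16552736)))) (a (b (b (a (l 16662920) (l 16616792)) (l 16634736)) (a (l 16655648) (l 16630352))) (b (b (a (l 16589992) (l 16561584)) (l 16580352)) (a (l 16603360) (l 16574616)))))) (b (b (a (l 16511136) (l 16507848)) (a (b (a (l 16516336) (l 16496816)) (c (l 16503992)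 (l 16484672))) (b (l 16474312) (a (l 16473808) (l 16461640))))) (a (b (a (b (l 16517984) (l 16524096)) (a (l 16481808) (l 16477168))) (a (b (b (l 16531544) (l 16535368)) (l 16544152)) (a (b (b (a (l 16512688) (l 16512432)) (l 16516952)) (l 16524736)) (b (l 16515064) (l 16522720))))) (b (a (a (b (l 16486176) (l 16498344)) (l 16481536)) (c (l 16483672) (l 16449960))) (a (b (a (a (l 16514280) (l 16512616)) (l 16503080)) (a (l 16498008) (l 16508216))) (b (a (l 16487224) (l 16471840)) (l 16484672))))))))), by decide +kernel⟩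

def k5_pm_101 : ∃ t, chk3 f_pm_101 t 7 1 1 = true :=
  ⟨(b (l 1) (b (a (b (l 1) (b (l 1) (a (a (l 16549272) (l 1)) (l 1)))) (l 1)) (a (b (b (a (a (l 16478400) (l 16470248)) (b (l 1) (l 16433880))) (a (b (l 16478408) (a (l 16454368) (l 16443616))) (b (l 16418952) (a (l 16417888) (l 16397344))))) (b (a (a (l 16450088) (c (l 16448472) (l 16439864))) (a (l 16409800) (l 16384088))) (a (a (b (l 16451640) (l 16453304)) (b (c (l 16446944) (l 16433408)) (l 16428792))) (b (a (l 16473464) (l 16380488)) (c (l 16429872) (l 16421776)))))) (b (b (l 1) (a (b (l 1) (l 16399472)) (l 1))) (b (a (b (l 16362824) (l 16352280)) (b (l 1) (l 16336248))) (b (a (l 16387736) (l 16344320)) (a (l 16345424) (l 16321096)))))))), by decide +kernel⟩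

theorem s6_pm_101 : ∃ t, chk3 f_pm_101 t 3 1 1 = true := ex3_a k4_pm_101 k5_pm_101

theorem s7_pm_101 : ∃ t, chk3 f_pm_101 t 2 7 1 = true := ex3_a k2_pm_101 k3_pm_101

theorem s8_pm_101 : ∃ t, chk3 f_pm_101 t 2 3 1 = true := ex3_b k1_pm_101 s7_pm_101

theorem s9_pm_101 : ∃ t, chk3 f_pm_101 t 2 1 1 = true := ex3_b k0_pm_101 s8_pm_101

theorem s10_pm_101 : ∃ t, chk3 f_pm_101 t 1 1 1 = true := ex3_a s9_pm_101 s6_pm_101

theorem c_pm_101 : CertB 536870912 536870912 536870912 536870912 649613803 48318383 3 eng mog cd1q1 cd0q1 pd0 false true false .npn 1 0 1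
    ndB1q1 ndB0q1 pcB0 Cut.none Ext.none :=
  certB2 (fam := false) (s1 := true) (s2 := false) (a := 1) (b := 0) (c := 1) (cn := .npn) (n1 := ndB1q1) (n2 := ndB0q1) (pc := pcB0) (cut := Cut.none) (xt := Ext.none) (P1 := 536870912) (W1 := 536870912) (P2 := 536870912) (W2 := 536870912) (P3 := 649613803) (W3 := 48318383) (N0 := 3) (En := eng) (mo := mog) (C1 := cd1q1) (C2 := cd0q1) (C3 := pd0)
    rfl (fun _ => rfl) s10_pm_101

noncomputable def xt_pm_102 : Ext := extD2 3 ⟨7, 3, 3, 10, 377, 200, 77, 100, 17, 50, 3, 16⟩ eng cd1q1 cd0q2 pd0 false true false .npp 1 0 2 rfl ndB1q1 ndB0q2 pcB0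

noncomputable def f_pm_102 : ℕ → ℕ → ℕ → ℕ → Bool := onCell 536870912 536870912 0 536870912 649613803 48318383
    (rowB 3 eng mog cd1q1 cd0q2 pd0 0 false true false .npp 1 0 2 (qsf 536870912 536870912 0 536870912 0) ndB1q1 ndB0q2 pcB0 Cut.none xt_pm_102)

def k0_pm_102 : ∃ t, chk3 f_pm_102 t 2 2 1 = true :=
  ⟨(a (b (l 2) (b (l 2) (a (l 2) (b (l 2) (a (l 2) (l 16606808)))))) (b (a (a (a (l 2) (b (a (l 2) (a (l 2) (b (l 192904343943) (l 16752072)))) (b (b (l 16756520) (l 16753440)) (l 16745600)))) (b (b (a (b (l 3) (l 193978084791)) (l 3)) (a (b (a (l 147807201191) (l 181093197815)) (l 16750952)) (b (l 197199333527) (a (l 146196595159) (l 175724489111))))) (b (a (b (l 16754104) (l 16754512)) (b (l 16749832) (l 16752296))) (a (l 16749664) (b (l 16752600) (l 16750200)))))) (b (a (b (l 3) (a (b (l 3) (l 192904346343)) (l 3))) (l 3)) (a (b (a (b (a (l 144585985799) (l 173577004391)) (l 16748176)) (b (l 186998765575) (a (l 94656992567) (l 171966388903)))) (a (b (l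 16750368) (l 16750848)) (b (l 16746064) (l 16769328)))) (b (a (b (l 3) (l 184314408343)) (l 3)) (a (b (a (l 95730735079) (l 161765837431)) (l 16743640)) (b (l 180556307767) (a (l 91972634983) (b (l 177335086407) (l 147807202711))))))))) (a (b (b (a (a (l 16723304) (l 16730992)) (l 16741512)) (a (l 16707560) (b (l 16731064) (l 16721808)))) (b (a (l 16676800) (l 16700432)) (a (l 16626704) (l 16652640)))) (b (a (b (a (l 16747936) (b (l 16749256) (l 16748424))) (a (l 16738536) (l 16744608))) (b (a (b (a (l 16747384) (l 16745168)) (l 16747848)) (b (a (l 16742648) (l 16739608)) (a (l 16745584) (l 16743160)))) (a (l 16747528) (l 16747584)))) (a (b (b (l 16730488) (l 16717112)) (l 16663032)) (b (b (l 16744944) (l 16738984)) (a (l 16709240) (l 16725528)))))))), by decide +kernel⟩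

def k1_pm_102 : ∃ t, chk3 f_pm_102 t 2 3 1 = true :=
  ⟨(b (a (a (l 2) (b (b (l 16633256) (l 16554240)) (b (l 16534584) (l 16517216)))) (a (b (b (a (l 16584848) (l 16620040)) (a (l 16563304) (l 16603808))) (b (l 16566784) (l 16556584))) (b (b (a (l 16653232) (l 16682168)) (a (l 16616440) (a (l 16660408) (l 16676248)))) (a (b (l 16624648) (l 16615336)) (b (a (l 16650680) (l 16647272)) (l 16629760)))))) (a (b (a (a (l 2) (b (l 16496424) (l 16458336))) (b (l 16502472) (a (l 16470512) (l 16492536)))) (a (b (a (l 16393800) (l 16402416)) (a (l 16366144) (l 16404272))) (b (a (l 16423384) (b (l 16466496) (l 16456176))) (a (b (l 16402736) (a (l 16384024) (l 16409976))) (b (b (l 16451272) (l 16448400)) (a (l 16432664) (l 16456776))))))) (b (b (a (l 16552928) (a (l 16590264) (l 16630080))) (a (a (l 16528696) (b (l 16574136) (l 16568504))) (a (b (l 16589976) (l 16590248)) (b (l 16658280) (c (l 16671320) (l 16653608)))))) (a (b (a (b (l 16513256) (l 16506816)) (b (l 16562064)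 (b (l 16537648) (l 16535440)))) (a (a (b (l 16487432) (l 16486776)) (b (l 16517776) (a (l 16510064) (l 16522920)))) (a (b (l 16521576) (b (l 16517064) (c (l 16552648) (l 16490392)))) (a (b (l 16555904) (b (l 16547552) (a (l 16539888) (l 16546696)))) (b (l 141866445842677871) (b (l 16559392) (l 16558376))))))) (a (a (b (b (l 16614920) (b (l 16589352) (l 16586400))) (b (b (l 16584176) (l 16582536)) (l 16581328))) (b (b (l 16618176) (l 16613936)) (c (l 16623384) (l 16598272)))) (b (b (l 16698288) (c (l 16660992) (l 16645144))) (b (b (l 16650864) (l 16649984)) (c (l 16656248) (l 16663992))))))))), by decide +kernel⟩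

def k2_pm_102 : ∃ t, chk3 f_pm_102 t 3 2 1 = true :=
  ⟨(a (b (a (b (l 3) (a (b (l 3) (a (b (l 3) (a (l 176261339447) (l 3))) (l 3))) (l 3))) (l 3)) (a (b (a (b (a (b (a (b (l 148344074055) (l 16737392)) (b (l 171429501303) (l 148880941191))) (a (l 16740560) (l 16737424))) (b (a (l 166060786999) (l 3)) (a (b (l 167134549751) (l 16735152)) (b (l 161228948839) (l 166060805335))))) (a (b (a (l 16744456) (l 16741952)) (l 16746776)) (b (a (l 16738976) (l 16735552)) (l 16742664)))) (b (a (b (l 3) (a (l 160155201703) (l 3))) (l 3)) (a (b (a (b (l 157470855575) (l 16733280)) (b (l 152639009223) (l 150491531751))) (a (l 16737888) (l 16734232))) (b (a (l 152102132471) (l 3)) (a (b (l 152639013079) (l 16731648)) (b (l 145122809255) (l 150491525335))))))) (a (b (b (l 16748520) (l 16750064)) (a (l 16780976) (b (l 16750608) (l 16744760)))) (b (a (b (a (l 16744072) (l 16741048)) (l 16748552)) (b (a (l 16737104) (l 96267583671)) (a (l 16744592) (l 16739520)))) (a (l 16753744)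 (b (l 16749240) (l 16754400)))))) (b (a (b (l 3) (a (l 3) (l 3))) (l 3)) (a (b (a (b (a (b (l 158544594999) (l 16727960)) (b (l 3) (l 157470848503))) (a (l 16734032) (b (l 16726296) (l 16730520)))) (b (l 3) (a (b (l 153712746791) (l 16724824)) (b (l 3) (l 127406031623))))) (a (b (a (l 16742400) (l 16737056)) (l 16747632)) (b (a (l 16710528) (l 68887136455)) (a (l 16740536) (b (l 16732784) (l 16737456)))))) (b (l 3) (a (b (a (l 109152460471) (l 139754083831)) (a (l 16729544) (l 81772055943))) (b (l 3) (a (b (l 159081439463) (l 120963642135)) (b (l 3) (l 161765792119)))))))))) (a (l 3) (l 3))), by decide +kernel⟩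

def k3_pm_102 : ∃ t, chk3 f_pm_102 t 6 3 1 = true :=
  ⟨(b (a (b (b (a (l 16688800) (a (l 16798232) (b (l 16754680) (l 16744600)))) (a (l 16696792) (l 16721064))) (b (a (b (l 16690536) (l 16669128)) (b (l 16716176) (l 16693184))) (a (l 16665296) (a (l 16709840) (l 16701416))))) (b (a (b (a (b (l 16753368) (l 16753880)) (l 16749768)) (b (a (l 16743616) (l 16753328)) (l 16712800))) (b (a (b (a (l 16739032) (l 16729008)) (l 16745024)) (b (a (b (l 16725624) (l 16730552)) (b (l 152639018791) (l 16724960))) (a (b (l 16735384) (l 16739944)) (b (l 16729992) (l 16734824))))) (a (b (l 16751544) (l 16753144)) (b (l 16743928) (l 16750648))))) (b (a (l 16705112) (b (b (l 16752760) (l 16748848)) (a (l 16732424) (l 16744984)))) (a (b (a (l 16723448) (l 16726504)) (a (l 16725640) (l 16708800))) (a (b (l 16730464) (l 16709832)) (l 16711320)))))) (b (a (b (a (l 16669304) (l 16701008)) (a (a (l 16670016) (l 16689544)) (b (l 16733304) (a (l 16735040) (l 16727336))))) (b (a (a (l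 16711416) (l 16713904)) (b (l 16714408) (l 16737736))) (a (a (b (l 16743712) (l 16729752)) (l 16724120)) (b (l 16742656) (l 16726112))))) (a (b (a (b (l 16786136) (c (l 16700152) (l 16698600))) (c (c (l 16731176) (l 16734280)) (c (l 16780848) (l 16724072)))) (a (b (c (l 16697608) (l 16696928)) (a (l 16684728) (l 16747608))) (a (b (l 16725336) (l 16722848)) (a (l 16734016) (l 16736352))))) (b (a (c (l 16741320) (l 16752088)) (a (l 16746904) (a (l 16831920) (l 16832056)))) (a (b (l 16761792) (a (l 16738664) (l 16762920))) (b (a (l 16743528) (l 16743488)) (a (l 16743392) (l 16743040)))))))), by decide +kernel⟩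

def k4_pm_102 : ∃ t, chk3 f_pm_102 t 14 6 1 = true :=
  ⟨(b (a (b (a (b (a (b (l 3) (l 155323390951)) (l 3)) (a (b (l 16724064) (l 16729512)) (a (l 163376447095) (l 171966357975)))) (b (l 3) (a (b (l 3) (l 140827829591)) (l 3)))) (a (b (a (b (l 16734256) (l 16738728)) (b (l 16728920) (l 16733504))) (a (l 16744680) (b (l 16737864) (l 16741792)))) (b (a (b (l 124721768007) (l 16728088)) (b (l 160155201031) (a (l 130090468807) (l 114521189415)))) (a (b (l 16732744) (l 16736984)) (b (l 16727120) (l 16731984)))))) (b (l 3) (a (b (a (b (l 3) (l 160692048679)) (l 3)) (a (b (a (l 115058084119) (l 135459148343)) (c (l 16747272) (l 16725560))) (b (l 3) (a (b (l 129553558247) (l 16721536)) (l 162839537287))))) (l 3)))) (a (b (a (b (l 16748584) (l 16773728)) (b (a (l 16742640) (b (l 16736120) (l 16739816))) (a (l 16748624) (l 16745120)))) (a (l 16739192) (b (a (l 16752568) (l 16751032)) (l 16750320)))) (b (a (b (a (b (l 16731264) (l 16735336)) (b (a (l 16726568) (l 125795502999))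 (l 16751552))) (a (l 16740800) (b (a (l 16735552) (l 16733448)) (l 16738168)))) (b (a (b (b (l 159618310151) (l 166060808423)) (a (l 16725008) (b (l 140290982295) (l 16722512)))) (b (l 3) (a (l 161228926375) (l 3)))) (a (b (a (l 16731104) (l 16727440)) (a (l 16734944) (l 16732856))) (b (a (l 72108321367) (l 162839574743)) (a (l 16729776) (l 16725544)))))) (a (b (b (l 16743784) (l 16747000)) (l 16751984)) (b (a (l 16739360) (b (a (l 16734536) (l 16731648)) (l 16737064))) (a (l 16746320) (l 16742056))))))), by decide +kernel⟩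

def k5_pm_102 : ∃ t, chk3 f_pm_102 t 15 6 1 = true :=
  ⟨(b (l 3) (a (b (a (b (l 3) (a (b (a (l 175724438759) (l 3)) (a (b (l 173576977815) (l 16723096)) (l 158544573479))) (l 3))) (l 3)) (a (b (a (b (a (l 16727568) (l 16702656)) (a (l 16733368) (l 16729112))) (b (a (b (l 169818869191) (l 16721456)) (l 173576956919)) (a (l 16704192) (l 83919494967)))) (a (l 16738680) (b (a (l 16730344) (a (l 16706136) (l 16725248))) (a (l 16736832) (b (l 16730048) (l 16733520)))))) (b (a (b (l 3) (a (b (l 171429474631) (l 16709680)) (l 3))) (l 3)) (a (b (a (b (l 16722128) (l 16723896)) (b (l 129553525735) (l 16721664))) (a (b (l 16705080) (l 16729088)) (b (l 16723552) (l 16725752)))) (b (a (l 176798183111) (l 3)) (a (l 81235167575) (l 133848517063))))))) (a (l 3) (l 3)))), by decide +kernel⟩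

def k6_pm_102 : ∃ t, chk3 f_pm_102 t 7 14 1 = true :=
  ⟨(a (a (b (b (a (l 16736224) (l 16739376)) (a (l 16738584) (l 16741216))) (a (l 16744088) (l 16743528))) (b (b (a (l 16753312) (a (l 16752376) (l 16749664))) (a (l 16680984) (l 16754296))) (a (l 16743840) (b (l 16748288) (l 16743896))))) (a (b (a (b (a (l 16766792) (b (l 16740104) (l 16742776))) (b (l 16747944) (l 16750016))) (b (a (b (l 16754992) (l 16737792)) (b (a (l 16727040) (l 16724064)) (a (l 16733824) (l 16729568)))) (a (b (l 16740168) (l 16742496)) (b (l 16735048) (l 16737616))))) (a (b (c (l 16741944) (l 16752416)) (a (l 16744672) (l 16750720))) (b (a (l 16745152) (l 16740896)) (b (a (l 16749008) (l 16702248)) (l 16748008))))) (b (a (b (a (b (l 125795449079) (a (l 16734024) (l 16723096))) (b (l 3) (l 151565273351))) (a (b (a (l 16731712) (l 16744120)) (l 16732400)) (b (a (b (l 16723680) (l 16726216)) (l 128479825575)) (a (l 16729544) (b (l 16725648) (l 16727776)))))) (b (l 3) (a (b (l 155860234743)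 (a (l 141901613287) (l 145122824263))) (l 3)))) (a (b (a (b (l 16735160) (l 16737152)) (b (a (l 16731168) (l 16729208)) (a (l 16733976) (l 16731464)))) (a (b (l 16697000) (l 16700016)) (b (l 16713720) (c (l 16779296) (l 16694736))))) (b (a (b (a (b (l 16726544) (l 16727552)) (b (l 125795479479) (l 16735744))) (a (l 16728848) (b (l 16726880) (l 16727552)))) (b (a (l 145122827047) (l 163913278071)) (a (b (b (l 16733912) (l 16735112)) (l 16725856)) (b (l 144585948791) (a (l 16734168) (l 16729608)))))) (a (b (a (b (l 16730992) (l 16731856)) (b (l 16707552) (l 16729872))) (a (l 16691192) (l 16731320))) (b (a (b (l 16726520) (l 16706568)) (b (a (l 16724992) (l 16724160)) (l 16725552))) (a (b (l 16728792) (l 16729736)) (b (l 16705640) (l 16727760)))))))))), by decide +kernel⟩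

def k7_pm_102 : ∃ t, chk3 f_pm_102 t 7 15 1 = true :=
  ⟨(a (b (a (b (a (l 16790680) (l 16747064)) (l 16743568)) (b (a (b (l 16744392) (l 16743840)) (b (l 16743024) (l 16743480))) (l 16741200))) (a (c (l 16740416) (l 16765304)) (b (l 16739688) (l 16739632)))) (b (a (b (b (a (l 16742696) (l 16748808)) (a (l 16742528) (a (l 16742600) (l 16747656)))) (a (l 16739192) (l 16738040))) (a (b (b (l 16728168) (a (l 16745032) (l 16761696))) (l 16763768)) (b (a (b (b (a (l 16735288) (l 16733080)) (l 16735096)) (b (l 16736176) (l 16737040))) (b (b (a (l 16730624) (l 16728768)) (a (l 16732112) (l 16729928))) (a (l 16733504) (l 16731440)))) (b (b (a (l 16737776) (a (l 16734864) (l 16732896))) (l 16735280)) (a (l 16736840) (l 16732624)))))) (a (b (l 16757024) (l 16756496)) (b (a (l 16732960) (a (l 16735424) (l 16731176))) (a (l 16730984) (a (l 16732144) (l 16728320))))))), by decide +kernel⟩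

theorem s8_pm_102 : ∃ t, chk3 f_pm_102 t 7 7 1 = true := ex3_b k6_pm_102 k7_pm_102

theorem s9_pm_102 : ∃ t, chk3 f_pm_102 t 7 6 1 = true := ex3_a k4_pm_102 k5_pm_102

theorem s10_pm_102 : ∃ t, chk3 f_pm_102 t 7 3 1 = true := ex3_b s9_pm_102 s8_pm_102

theorem s11_pm_102 : ∃ t, chk3 f_pm_102 t 3 3 1 = true := ex3_a k3_pm_102 s10_pm_102

theorem s12_pm_102 : ∃ t, chk3 f_pm_102 t 3 1 1 = true := ex3_b k2_pm_102 s11_pm_102

theorem s13_pm_102 : ∃ t, chk3 f_pm_102 t 2 1 1 = true := ex3_b k0_pm_102 k1_pm_102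

theorem s14_pm_102 : ∃ t, chk3 f_pm_102 t 1 1 1 = true := ex3_a s13_pm_102 s12_pm_102

theorem c_pm_102 : CertB 536870912 536870912 0 536870912 649613803 48318383 3 eng mog cd1q1 cd0q2 pd0 false true false .npp 1 0 2
    ndB1q1 ndB0q2 pcB0 Cut.none xt_pm_102 :=
  certB0 (fam := false) (s1 := true) (s2 := false) (a := 1) (b := 0) (c := 2) (cn := .npp) (n1 := ndB1q1) (n2 := ndB0q2) (pc := pcB0) (cut := Cut.none) (xt := xt_pm_102) (P1 := 536870912) (W1 := 536870912) (P2 := 0) (W2 := 536870912) (P3 := 649613803) (W3 := 48318383) (N0 := 3) (En := eng) (mo := mog) (C1 := cd1q1) (C2 := cd0q2) (C3 := pd0)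
    rfl s14_pm_102

noncomputable def f_pm_112 : ℕ → ℕ → ℕ → ℕ → Bool := onCell 536870912 536870912 0 536870912 649613803 48318383
    (rowB 3 eng mog cd1q1 cd0q2 pd1 2 false true false .dn 1 1 2 (qsf 536870912 536870912 0 536870912 1) ndB1q1 ndB0q2 pcB1 Cut.none Ext.none)

def k0_pm_112 : ∃ t, chk3 f_pm_112 t 1 1 1 = true :=
  ⟨(a (b (a (b (a (a (b (b (a (b (l 190219987079) (a (a (l 149954684343) (l 119353027815)) (l 82308940519))) (b (b (a (l 177871965559) (l 98951937111)) (a (l 96804454759) (l 16748744))) (l 16750496))) (a (b (l 16749688) (a (l 16746472) (l 16745256))) (b (l 16768880) (l 16743056)))) (a (b (b (l 16740072) (l 16731264)) (l 16716744)) (l 16720160))) (b (b (a (b (l 16750664) (l 16749232)) (b (l 16750032) (l 16746232))) (a (b (l 16745032) (l 16737048)) (l 16734800))) (b (l 16719640) (a (l 16701912) (l 16694912))))) (b (a (a (b (b (l 16747448) (l 16740672)) (l 16727848)) (l 16729272)) (l 16716184)) (a (b (l 16703072) (l 16683424)) (b (l 16686688)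 (l 16665144))))) (b (a (b (a (a (l 16695568) (l 16689328)) (l 16677552)) (a (l 16669304) (l 16654728))) (b (l 16653200) (l 16631664))) (a (b (a (l 16641400) (l 16627408)) (a (l 16668944) (l 16593648))) (b (a (l 16613208) (l 16599360)) (a (l 16582336) (l 16571016)))))) (a (a (b (b (b (l 16707728) (l 16687752)) (l 16656840)) (b (l 16617688) (b (l 16585944) (l 16559696)))) (b (b (l 1) (l 1)) (l 1))) (l 1))) (b (a (b (a (a (b (l 16563816) (l 16513408)) (l 16593136)) (b (l 16541440) (l 16502664))) (a (l 16518568) (l 21508003031))) (l 1)) (a (b (a (b (l 16372264) (l 16338848)) (b (l 68215435559) (l 1))) (a (b (l 16313088) (l 16295768)) (l 1))) (l 1)))) (l 1)), by decide +kernel⟩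

theorem c_pm_112 : CertB 536870912 536870912 0 536870912 649613803 48318383 3 eng mog cd1q1 cd0q2 pd1 false true false .dn 1 1 2
    ndB1q1 ndB0q2 pcB1 Cut.none Ext.none :=
  certB2 (fam := false) (s1 := true) (s2 := false) (a := 1) (b := 1) (c := 2) (cn := .dn) (n1 := ndB1q1) (n2 := ndB0q2) (pc := pcB1) (cut := Cut.none) (xt := Ext.none) (P1 := 536870912) (W1 := 536870912) (P2 := 0) (W2 := 536870912) (P3 := 649613803) (W3 := 48318383) (N0 := 3) (En := eng) (mo := mog) (C1 := cd1q1) (C2 := cd0q2) (C3 := pd1)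
    rfl (fun _ => rfl) k0_pm_112

noncomputable def cut_pm_202_a : Cut := Cut.of [[⟨0, 1, 0, 67108864⟩, ⟨1, 0, 0, 67108864⟩, ⟨2, 1, 0, 67108864⟩]]

noncomputable def f_pm_202_a : ℕ → ℕ → ℕ → ℕ → Bool := onCell 0 536870912 0 536870912 649613803 48318383
    (rowB 3 eng mog cd1q2a cd0q2 pd0 0 false true false .pp 2 0 2 (qsf 0 536870912 0 536870912 0) ndB1q2a ndB0q2 pcB0 cut_pm_202_a Ext.none)

def k0_pm_202_a : ∃ t, chk3 f_pm_202_a t 1 1 1 = true :=
  ⟨(a (l 3) (b (l 3) (b (l 3) (a (l 3) (b (l 3) (a (l 3) (l 6))))))), by decide +kernel⟩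

theorem c_pm_202_a : CertB 0 536870912 0 536870912 649613803 48318383 3 eng mog cd1q2a cd0q2 pd0 false true false .pp 2 0 2
    ndB1q2a ndB0q2 pcB0 cut_pm_202_a Ext.none :=
  certB0 (fam := false) (s1 := true) (s2 := false) (a := 2) (b := 0) (c := 2) (cn := .pp) (n1 := ndB1q2a) (n2 := ndB0q2) (pc := pcB0) (cut := cut_pm_202_a) (xt := Ext.none) (P1 := 0) (W1 := 536870912) (P2 := 0) (W2 := 536870912) (P3 := 649613803) (W3 := 48318383) (N0 := 3) (En := eng) (mo := mog) (C1 := cd1q2a) (C2 := cd0q2) (C3 := pd0)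
    rfl k0_pm_202_a

noncomputable def cut_pm_202_b : Cut := Cut.of [[⟨0, 1, 0, 67108864⟩, ⟨1, 0, 0, 67108864⟩, ⟨2, 1, 0, 67108864⟩]]

noncomputable def f_pm_202_b : ℕ → ℕ → ℕ → ℕ → Bool := onCell 1239849684 370763052 0 536870912 649613803 48318383
    (rowB 3 eng mog cd1q2b cd0q2 pd0 0 false true false .pp 2 0 2 (qsf 1239849684 370763052 0 536870912 0) ndB1q2b ndB0q2 pcB0 cut_pm_202_b Ext.none)

def k0_pm_202_b : ∃ t, chk3 f_pm_202_b t 1 1 1 = true :=
  ⟨(l 3), by decide +kernel⟩

theorem c_pm_202_b : CertB 1239849684 370763052 0 536870912 649613803 48318383 3 eng mog cd1q2b cd0q2 pd0 false true false .pp 2 0 2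
    ndB1q2b ndB0q2 pcB0 cut_pm_202_b Ext.none :=
  certB0 (fam := false) (s1 := true) (s2 := false) (a := 2) (b := 0) (c := 2) (cn := .pp) (n1 := ndB1q2b) (n2 := ndB0q2) (pc := pcB0) (cut := cut_pm_202_b) (xt := Ext.none) (P1 := 1239849684) (W1 := 370763052) (P2 := 0) (W2 := 536870912) (P3 := 649613803) (W3 := 48318383) (N0 := 3) (En := eng) (mo := mog) (C1 := cd1q2b) (C2 := cd0q2) (C3 := pd0)
    rfl k0_pm_202_b

noncomputable def f_mm_001 : ℕ → ℕ → ℕ → ℕ → Bool := onCell 0 536870912 0 536870912 649613803 48318383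
    (rowB 3 eng mog cd1q0 cd0q1 pd0 1 false false false .up 0 0 1 (qsf 0 536870912 536870912 536870912 0) ndB1q0 ndB0q1 pcB0 Cut.none Ext.none)

def k0_mm_001 : ∃ t, chk3 f_mm_001 t 1 1 1 = true :=
  ⟨(l 3), by decide +kernel⟩

theorem c_mm_001 : CertB 0 536870912 536870912 536870912 649613803 48318383 3 eng mog cd1q0 cd0q1 pd0 false false false .up 0 0 1
    ndB1q0 ndB0q1 pcB0 Cut.none Ext.none :=
  certB1 (fam := false) (s1 := false) (s2 := false) (a := 0) (b := 0) (c := 1) (cn := .up) (n1 := ndB1q0) (n2 := ndB0q1) (pc := pcB0) (cut := Cut.none) (xt := Ext.none) (P1 := 0) (W1 := 536870912) (P2 := 536870912) (W2 := 536870912) (P3 := 649613803) (W3 := 48318383) (N0 := 3) (En := eng) (mo := mog) (C1 := cd1q0) (C2 := cd0q1) (C3 := pd0)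
    rfl (fun _ => rfl) k0_mm_001

noncomputable def f_mm_011 : ℕ → ℕ → ℕ → ℕ → Bool := onCell 0 536870912 536870912 536870912 649613803 48318383
    (rowB 3 eng mog cd1q0 cd0q1 pd1 1 false false false .pnn 0 1 1 (qsf 0 536870912 536870912 536870912 1) ndB1q0 ndB0q1 pcB1 Cut.none Ext.none)

def k0_mm_011 : ∃ t, chk3 f_mm_011 t 1 1 1 = true :=
  ⟨(l 5), by decide +kernel⟩

theorem c_mm_011 : CertB 0 536870912 536870912 536870912 649613803 48318383 3 eng mog cd1q0 cd0q1 pd1 false false false .pnn 0 1 1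
    ndB1q0 ndB0q1 pcB1 Cut.none Ext.none :=
  certB1 (fam := false) (s1 := false) (s2 := false) (a := 0) (b := 1) (c := 1) (cn := .pnn) (n1 := ndB1q0) (n2 := ndB0q1) (pc := pcB1) (cut := Cut.none) (xt := Ext.none) (P1 := 0) (W1 := 536870912) (P2 := 536870912) (W2 := 536870912) (P3 := 649613803) (W3 := 48318383) (N0 := 3) (En := eng) (mo := mog) (C1 := cd1q0) (C2 := cd0q1) (C3 := pd1)
    rfl (fun _ => rfl) k0_mm_011

noncomputable def f_mm_012 : ℕ → ℕ → ℕ → ℕ → Bool := onCell 0 536870912 0 536870912 649613803 48318383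
    (rowB 3 eng mog cd1q0 cd0q2 pd1 0 false false false .pnp 0 1 2 (qsf 0 536870912 0 536870912 1) ndB1q0 ndB0q2 pcB1 Cut.none Ext.none)

def k0_mm_012 : ∃ t, chk3 f_mm_012 t 1 1 1 = true :=
  ⟨(l 5), by decide +kernel⟩

theorem c_mm_012 : CertB 0 536870912 0 536870912 649613803 48318383 3 eng mog cd1q0 cd0q2 pd1 false false false .pnp 0 1 2
    ndB1q0 ndB0q2 pcB1 Cut.none Ext.none :=
  certB0 (fam := false) (s1 := false) (s2 := false) (a := 0) (b := 1) (c := 2) (cn := .pnp) (n1 := ndB1q0) (n2 := ndB0q2) (pc := pcB1) (cut := Cut.none) (xt := Ext.none) (P1 := 0) (W1 := 536870912) (P2 := 0) (W2 := 536870912) (P3 := 649613803) (W3 := 48318383) (N0 := 3) (En := eng) (mo := mog) (C1 := cd1q0) (C2 := cd0q2) (C3 := pd1)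
    rfl k0_mm_012

noncomputable def f_mm_022 : ℕ → ℕ → ℕ → ℕ → Bool := onCell 0 536870912 0 536870912 649613803 48318383
    (rowB 3 eng mog cd1q0 cd0q2 pd2 0 false false false .pp 0 2 2 (qsf 0 536870912 0 536870912 2) ndB1q0 ndB0q2 pcB2 Cut.none Ext.none)

def k0_mm_022 : ∃ t, chk3 f_mm_022 t 1 1 1 = true :=
  ⟨(l 5), by decide +kernel⟩

theorem c_mm_022 : CertB 0 536870912 0 536870912 649613803 48318383 3 eng mog cd1q0 cd0q2 pd2 false false false .pp 0 2 2
    ndB1q0 ndB0q2 pcB2 Cut.none Ext.none :=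
  certB0 (fam := false) (s1 := false) (s2 := false) (a := 0) (b := 2) (c := 2) (cn := .pp) (n1 := ndB1q0) (n2 := ndB0q2) (pc := pcB2) (cut := Cut.none) (xt := Ext.none) (P1 := 0) (W1 := 536870912) (P2 := 0) (W2 := 536870912) (P3 := 649613803) (W3 := 48318383) (N0 := 3) (En := eng) (mo := mog) (C1 := cd1q0) (C2 := cd0q2) (C3 := pd2)
    rfl k0_mm_022

noncomputable def f_mm_101 : ℕ → ℕ → ℕ → ℕ → Bool := onCell 536870912 536870912 536870912 536870912 649613803 48318383
    (rowB 3 eng mog cd1q1 cd0q1 pd0 0 false false false .npn 1 0 1 (qsf 536870912 536870912 536870912 536870912 0) ndB1q1 ndB0q1 pcB0 Cut.none Ext.none)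

def k0_mm_101 : ∃ t, chk3 f_mm_101 t 1 1 1 = true :=
  ⟨(l 3), by decide +kernel⟩

theorem c_mm_101 : CertB 536870912 536870912 536870912 536870912 649613803 48318383 3 eng mog cd1q1 cd0q1 pd0 false false false .npn 1 0 1
    ndB1q1 ndB0q1 pcB0 Cut.none Ext.none :=
  certB0 (fam := false) (s1 := false) (s2 := false) (a := 1) (b := 0) (c := 1) (cn := .npn) (n1 := ndB1q1) (n2 := ndB0q1) (pc := pcB0) (cut := Cut.none) (xt := Ext.none) (P1 := 536870912) (W1 := 536870912) (P2 := 536870912) (W2 := 536870912) (P3 := 649613803) (W3 := 48318383) (N0 := 3) (En := eng) (mo := mog) (C1 := cd1q1) (C2 := cd0q1) (C3 := pd0)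
    rfl k0_mm_101

noncomputable def f_mm_102 : ℕ → ℕ → ℕ → ℕ → Bool := onCell 536870912 536870912 0 536870912 649613803 48318383
    (rowB 3 eng mog cd1q1 cd0q2 pd0 0 false false false .npp 1 0 2 (qsf 536870912 536870912 0 536870912 0) ndB1q1 ndB0q2 pcB0 Cut.none Ext.none)

def k0_mm_102 : ∃ t, chk3 f_mm_102 t 1 1 1 = true :=
  ⟨(l 5), by decide +kernel⟩

theorem c_mm_102 : CertB 536870912 536870912 0 536870912 649613803 48318383 3 eng mog cd1q1 cd0q2 pd0 false false false .npp 1 0 2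
    ndB1q1 ndB0q2 pcB0 Cut.none Ext.none :=
  certB0 (fam := false) (s1 := false) (s2 := false) (a := 1) (b := 0) (c := 2) (cn := .npp) (n1 := ndB1q1) (n2 := ndB0q2) (pc := pcB0) (cut := Cut.none) (xt := Ext.none) (P1 := 536870912) (W1 := 536870912) (P2 := 0) (W2 := 536870912) (P3 := 649613803) (W3 := 48318383) (N0 := 3) (En := eng) (mo := mog) (C1 := cd1q1) (C2 := cd0q2) (C3 := pd0)
    rfl k0_mm_102

noncomputable def f_mm_112 : ℕ → ℕ → ℕ → ℕ → Bool := onCell 536870912 536870912 0 536870912 649613803 48318383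
    (rowB 3 eng mog cd1q1 cd0q2 pd1 0 false false false .dn 1 1 2 (qsf 536870912 536870912 0 536870912 1) ndB1q1 ndB0q2 pcB1 Cut.none Ext.none)

def k0_mm_112 : ∃ t, chk3 f_mm_112 t 1 1 1 = true :=
  ⟨(l 5), by decide +kernel⟩

theorem c_mm_112 : CertB 536870912 536870912 0 536870912 649613803 48318383 3 eng mog cd1q1 cd0q2 pd1 false false false .dn 1 1 2
    ndB1q1 ndB0q2 pcB1 Cut.none Ext.none :=
  certB0 (fam := false) (s1 := false) (s2 := false) (a := 1) (b := 1) (c := 2) (cn := .dn) (n1 := ndB1q1) (n2 := ndB0q2) (pc := pcB1) (cut := Cut.none) (xt := Ext.none) (P1 := 536870912) (W1 := 536870912) (P2 := 0) (W2 := 536870912) (P3 := 649613803) (W3 := 48318383) (N0 := 3) (En := eng) (mo := mog) (C1 := cd1q1) (C2 := cd0q2) (C3 := pd1)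
    rfl k0_mm_112

noncomputable def f_mm_202_a : ℕ → ℕ → ℕ → ℕ → Bool := onCell 0 536870912 0 536870912 649613803 48318383
    (rowB 3 eng mog cd1q2a cd0q2 pd0 0 false false false .pp 2 0 2 (qsf 0 536870912 0 536870912 0) ndB1q2a ndB0q2 pcB0 Cut.none Ext.none)

def k0_mm_202_a : ∃ t, chk3 f_mm_202_a t 1 1 1 = true :=
  ⟨(l 3), by decide +kernel⟩

theorem c_mm_202_a : CertB 0 536870912 0 536870912 649613803 48318383 3 eng mog cd1q2a cd0q2 pd0 false false false .pp 2 0 2
    ndB1q2a ndB0q2 pcB0 Cut.none Ext.none :=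
  certB0 (fam := false) (s1 := false) (s2 := false) (a := 2) (b := 0) (c := 2) (cn := .pp) (n1 := ndB1q2a) (n2 := ndB0q2) (pc := pcB0) (cut := Cut.none) (xt := Ext.none) (P1 := 0) (W1 := 536870912) (P2 := 0) (W2 := 536870912) (P3 := 649613803) (W3 := 48318383) (N0 := 3) (En := eng) (mo := mog) (C1 := cd1q2a) (C2 := cd0q2) (C3 := pd0)
    rfl k0_mm_202_a

noncomputable def f_mm_202_b : ℕ → ℕ → ℕ → ℕ → Bool := onCell 1239849684 370763052 0 536870912 649613803 48318383
    (rowB 3 eng mog cd1q2b cd0q2 pd0 0 false false false .pp 2 0 2 (qsf 1239849684 370763052 0 536870912 0) ndB1q2b ndB0q2 pcB0 Cut.none Ext.none)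

def k0_mm_202_b : ∃ t, chk3 f_mm_202_b t 1 1 1 = true :=
  ⟨(l 3), by decide +kernel⟩

theorem c_mm_202_b : CertB 1239849684 370763052 0 536870912 649613803 48318383 3 eng mog cd1q2b cd0q2 pd0 false false false .pp 2 0 2
    ndB1q2b ndB0q2 pcB0 Cut.none Ext.none :=
  certB0 (fam := false) (s1 := false) (s2 := false) (a := 2) (b := 0) (c := 2) (cn := .pp) (n1 := ndB1q2b) (n2 := ndB0q2) (pc := pcB0) (cut := Cut.none) (xt := Ext.none) (P1 := 1239849684) (W1 := 370763052) (P2 := 0) (W2 := 536870912) (P3 := 649613803) (W3 := 48318383) (N0 := 3) (En := eng) (mo := mog) (C1 := cd1q2b) (C2 := cd0q2) (C3 := pd0)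
    rfl k0_mm_202_b

end Pool.Agent.Strip051.G.I6050_6500.Tab.C.BB10

namespace Pool.Agent.Strip051.G.I6050_6500.Tab.C.BB11

open Pool.Agent.Strip051.PB Pool.Agent.Strip051.PB.T
open Pool.Agent.Strip051.G.I6050_6500.Tab

noncomputable def f_pp_001 : ℕ → ℕ → ℕ → ℕ → Bool := onCell 0 536870912 0 536870912 649613803 48318383
    (rowB 3 eng mog cd1q0 cd1q1 pd0 1 false true true .up 0 0 1 (qsf 0 536870912 536870912 536870912 0) ndB1q0 ndB1q1 pcB0 Cut.none Ext.none)

def k0_pp_001 : ∃ t, chk3 f_pp_001 t 1 1 1 = true :=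
  ⟨(l 3), by decide +kernel⟩

theorem c_pp_001 : CertB 0 536870912 536870912 536870912 649613803 48318383 3 eng mog cd1q0 cd1q1 pd0 false true true .up 0 0 1
    ndB1q0 ndB1q1 pcB0 Cut.none Ext.none :=
  certB1 (fam := false) (s1 := true) (s2 := true) (a := 0) (b := 0) (c := 1) (cn := .up) (n1 := ndB1q0) (n2 := ndB1q1) (pc := pcB0) (cut := Cut.none) (xt := Ext.none) (P1 := 0) (W1 := 536870912) (P2 := 536870912) (W2 := 536870912) (P3 := 649613803) (W3 := 48318383) (N0 := 3) (En := eng) (mo := mog) (C1 := cd1q0) (C2 := cd1q1) (C3 := pd0)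
    rfl (fun _ => rfl) k0_pp_001

noncomputable def f_pp_011 : ℕ → ℕ → ℕ → ℕ → Bool := onCell 0 536870912 536870912 536870912 649613803 48318383
    (rowB 3 eng mog cd1q0 cd1q1 pd1 0 false true true .pnn 0 1 1 (qsf 0 536870912 536870912 536870912 1) ndB1q0 ndB1q1 pcB1 Cut.none Ext.none)

def k0_pp_011 : ∃ t, chk3 f_pp_011 t 1 1 1 = true :=
  ⟨(a (l 3) (l 3)), by decide +kernel⟩

theorem c_pp_011 : CertB 0 536870912 536870912 536870912 649613803 48318383 3 eng mog cd1q0 cd1q1 pd1 false true true .pnn 0 1 1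
    ndB1q0 ndB1q1 pcB1 Cut.none Ext.none :=
  certB0 (fam := false) (s1 := true) (s2 := true) (a := 0) (b := 1) (c := 1) (cn := .pnn) (n1 := ndB1q0) (n2 := ndB1q1) (pc := pcB1) (cut := Cut.none) (xt := Ext.none) (P1 := 0) (W1 := 536870912) (P2 := 536870912) (W2 := 536870912) (P3 := 649613803) (W3 := 48318383) (N0 := 3) (En := eng) (mo := mog) (C1 := cd1q0) (C2 := cd1q1) (C3 := pd1)
    rfl k0_pp_011

noncomputable def cut_pp_012_a : Cut := Cut.of [[⟨0, 0, 0, 44739242⟩, ⟨1, 1, 0, 44739242⟩, ⟨2, 1, 0, 44739242⟩]]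

noncomputable def f_pp_012_a : ℕ → ℕ → ℕ → ℕ → Bool := onCell 536870912 536870912 0 536870912 649613803 48318383
    (rowB 3 eng mog cd1q0 cd1q2a pd1 2 false true true .pnp 0 1 2 (qsf 0 536870912 0 536870912 1) ndB1q0 ndB1q2a pcB1 cut_pp_012_a Ext.none)

def k0_pp_012_a : ∃ t, chk3 f_pp_012_a t 2 1 1 = true :=
  ⟨(b (b (a (l 2) (a (a (a (l 2) (b (b (l 16751752) (l 80094392695)) (b (a (l 2) (b (l 16760672) (b (a (l 161228992391) (l 16751112)) (l 205252407639)))) (l 3)))) (b (b (l 16735920) (a (b (l 16753032) (l 16758816)) (b (l 16743240) (l 16750856)))) (b (a (b (l 16762160) (a (b (l 16758872) (l 128479875495)) (l 16761176))) (l 16759472)) (a (b (a (l 202031181447) (b (a (l 132237966135) (l 16754928)) (l 183240699591))) (l 3)) (b (a (b (l 16760208) (l 93583260311)) (l 16761800)) (a (l 184314464167) (b (l 83382711431) (l 162302737511)))))))) (a (b (b (l 16714136) (a (l 16736856) (l 16725912))) (b (a (b (l 16748600) (l 16755416)) (b (l 16738344) (l 16746240))) (a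 (b (l 16760728) (a (l 64592230423) (l 16762856))) (l 16757304)))) (b (l 16700328) (a (b (l 16731504) (b (l 16743808) (l 16751896))) (b (l 16720104) (b (l 16732656) (l 16741152)))))))) (a (l 3) (a (l 3) (a (b (b (a (b (a (l 168745213271) (b (l 16759432) (l 145122876311))) (l 3)) (b (a (l 16763152) (l 16764112)) (a (b (l 147807265655) (l 3)) (b (l 16763136) (l 138680469223))))) (l 3)) (l 3)) (b (a (b (b (l 16760008) (a (l 16765888) (l 16765128))) (b (a (l 145122930871) (l 77477200983)) (l 174650798871))) (b (b (l 16749904) (l 16758928)) (b (l 16766536) (a (l 102173277735) (b (l 16767216) (l 16765560)))))) (b (a (l 3) (b (l 163913390551) (l 3))) (l 3))))))) (l 3)), by decide +kernel⟩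

def k1_pp_012_a : ∃ t, chk3 f_pp_012_a t 6 2 1 = true :=
  ⟨(a (b (b (a (l 16718360) (b (l 16645616) (l 16661400))) (a (l 16753344) (l 16750256))) (b (a (a (b (b (l 16738592) (l 16747848)) (b (l 16757896) (l 16787984))) (b (b (l 16727000) (l 16736096)) (a (l 16754392) (l 16748072)))) (b (l 16734192) (a (b (l 16734032) (l 16744296)) (l 16747288)))) (a (b (a (b (a (l 87140902167) (l 16741560)) (l 151565367399)) (a (b (l 16768880) (l 82845926423)) (b (l 16763824) (l 16770000)))) (a (l 3) (b (a (l 3) (l 102173282295)) (l 3)))) (b (a (b (l 16754768) (l 16765776)) (a (l 16771800) (l 16764216))) (a (b (a (l 80161497415) (l 16771680)) (a (l 141901701783) (l 152639084407))) (a (b (l 16767680) (b (l 16771000) (l 71034758039))) (b (l 16760728) (l 16771304)))))))) (b (b (a (l 16651472) (l 16607080)) (a (b (l 16653264) (l 16669456)) (b (l 16628920) (l 16643736)))) (b (a (a (b (l 16692688) (l 16711328)) (b (l 16678976) (l 16697016))) (b (l 16680160) (a (l 16683184) (l 16670008))))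 (a (b (a (b (l 16726664) (l 16737616)) (l 16759336)) (a (a (l 16780176) (l 16772568)) (b (l 16734304) (l 16746064)))) (b (l 16695992) (a (l 16725400) (l 16711216))))))), by decide +kernel⟩

def k2_pp_012_a : ∃ t, chk3 f_pp_012_a t 6 3 1 = true :=
  ⟨(b (a (b (a (l 3) (b (a (l 3) (b (a (l 123111199319) (b (l 16793792) (l 93046467111))) (l 3))) (l 3))) (l 3)) (b (a (b (a (b (a (b (l 16771952) (l 16771408)) (l 16768952)) (a (l 123111193863) (b (l 16770088) (l 96804557175)))) (b (l 16779040) (a (l 16771320) (l 16765968)))) (a (l 3) (b (a (b (l 104857617639) (l 127943050183)) (l 57612973671)) (a (l 3) (l 184314497335))))) (b (a (b (l 16742952) (l 16754896)) (l 16739688)) (a (b (a (l 16769200) (l 16762832)) (a (b (l 16768768) (l 185925100791)) (l 79087807463))) (a (l 16761496) (l 16754384))))) (a (l 3) (b (b (a (a (l 3) (l 225116680279)) (a (b (l 16768176) (l 187535740087)) (l 16769328))) (a (l 3) (a (l 3) (b (l 167671511735) (l 259476414583))))) (l 3))))) (l 3)), by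 decide +kernel⟩

def k3_pp_012_a : ∃ t, chk3 f_pp_012_a t 7 2 1 = true :=
  ⟨(a (b (a (b (l 16586168) (b (l 16605936) (l 16641360))) (b (l 16568752) (l 16593392))) (b (a (b (l 16635264) (l 16651800)) (b (l 16614992) (l 16651448))) (a (b (l 16691272) (a (l 16697688) (l 16685000))) (b (l 16667624) (b (l 16660696) (l 16670720)))))) (b (a (b (l 16555584) (l 16577264)) (b (l 16539040) (b (l 16551288) (l 16560416)))) (a (b (b (l 16593936) (a (l 16612912) (l 16600592))) (b (a (l 16627928) (l 16635760)) (a (l 16645648) (l 16631600)))) (b (a (b (l 16576160) (l 16587664)) (b (l 16563352) (l 16573936))) (b (a (l 16621864) (l 16586248)) (a (l 16616832) (b (l 16597248) (l 16605216)))))))), by decide +kernel⟩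

def k4_pp_012_a : ∃ t, chk3 f_pp_012_a t 14 3 1 = true :=
  ⟨(b (b (a (b (a (l 16720488) (l 16706976)) (a (b (l 16737856) (l 16770104)) (b (l 16724056) (l 16735280)))) (b (a (l 16693728) (l 16679776)) (a (b (l 16710704) (l 16721792)) (l 16702336)))) (a (b (a (b (l 16781000) (a (b (l 16768944) (a (l 217600495735) (l 16766296))) (l 16766488))) (b (a (l 16749520) (l 16742648)) (a (l 16760280) (l 16753560)))) (a (b (a (b (l 244444024343) (l 3)) (b (a (l 168208374999) (l 16766360)) (a (l 231559124103) (l 173040188535)))) (l 3)) (b (a (b (l 16767136) (l 83919636391)) (l 16764096)) (a (b (l 195051920471) (l 3)) (b (l 16769992) (a (l 194515032679) (l 16770264))))))) (b (a (a (l 16741504) (l 16766544)) (a (l 16760120) (l 16742352))) (b (a (a (l 16757760) (l 16730264)) (l 16741616)) (a (a (l 16773920) (l 16762568)) (l 16773968)))))) (b (a (b (a (l 3) (b (a (l 3) (b (l 218137364263) (l 3))) (l 3))) (l 3)) (b (a (b (a (b (a (l 161765927015) (l 16772080)) (l 219211088087))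 (b (l 16771152) (a (l 84993411879) (l 16775016)))) (a (l 3) (b (l 197199405767) (l 3)))) (a (b (l 16767912) (b (l 35064401255) (b (l 81235310151) (a (l 3) (l 102710128791))))) (b (l 16759944) (b (l 16767872) (l 16778080))))) (a (l 3) (b (a (b (l 276119433127) (l 3)) (b (a (b (l 122037477479) (l 234243489351)) (b (l 16773056) (l 16779312))) (a (l 3) (l 222969201751)))) (l 3))))) (l 3))), by decide +kernel⟩

def k5_pp_012_a : ∃ t, chk3 f_pp_012_a t 15 6 1 = true :=
  ⟨(a (b (b (a (b (l 16660200) (l 16670632)) (l 16650456)) (a (l 16687096) (b (l 16665896) (l 16676536)))) (b (a (b (l 16703568) (l 16714880)) (b (l 16686968) (l 16655944))) (a (b (l 16741912) (l 16736328)) (b (a (b (l 16710544) (l 16715736)) (l 16705312)) (a (b (l 16720888) (l 16726488)) (l 16695776)))))) (b (a (b (l 16634736) (b (l 16649472) (l 16659968))) (b (a (l 16622512) (l 16615064)) (a (l 16643256) (l 16636656)))) (a (b (a (l 16701208) (l 16673080)) (l 16711208)) (b (a (l 16666384) (l 16659648))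 (l 16697384))))), by decide +kernel⟩

def k6_pp_012_a : ∃ t, chk3 f_pp_012_a t 15 14 1 = true :=
  ⟨(a (b (a (b (b (l 16744080) (l 16760088)) (a (b (l 16780056) (l 16775336)) (l 16754688))) (b (l 16737152) (a (l 16747600) (l 16740520)))) (a (b (a (b (l 16770464) (a (b (l 16774176) (l 206326201319)) (l 16774152))) (l 16771512)) (a (b (a (l 3) (b (l 178945793063) (l 238001590359))) (l 3)) (b (a (a (l 141364826775) (l 16775136)) (l 16763912)) (a (b (l 229948526695) (l 3)) (b (l 123111213815) (l 223506075575)))))) (a (b (l 16759080) (b (l 16767664) (a (l 16775288) (l 16771648)))) (b (l 16751896) (l 16773776))))) (b (a (b (a (l 16721488) (l 16714608)) (a (l 16733464) (l 16726312))) (a (b (l 16707480) (l 16719312)) (l 16727200))) (b (a (a (l 16744720) (l 16737304)) (a (l 16729424) (l 16732088))) (a (a (l 16766256) (l 16747672)) (a (l 16739600) (l 16736856)))))), by decide +kernel⟩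

def k7_pp_012_a : ∃ t, chk3 f_pp_012_a t 15 15 1 = true :=
  ⟨(a (b (a (l 3) (b (a (b (a (b (l 171966473383) (l 238001595047)) (b (l 16776048) (a (l 165524024183) (l 16777976)))) (a (l 3) (b (l 221358596375) (l 3)))) (b (b (l 16770512) (l 16783640)) (b (a (l 55465489719) (l 16773736)) (a (a (l 206326211399) (l 120426870935)) (l 16781672))))) (a (l 3) (b (a (l 3) (b (a (l 182703888871) (l 16783344)) (l 208473695831))) (l 3))))) (l 3)) (b (a (b (a (b (l 16763616) (a (l 16770960) (l 16766848))) (a (l 16766688) (l 16761288))) (a (b (a (b (l 16775176) (c (l 61907938631) (l 75866581991))) (l 16772504)) (a (b (l 193441308439) (l 3)) (b (l 32380036855) (a (l 203641855319) (l 108615707783))))) (a (b (l 16768392) (c (l 16779376) (l 16779480))) (a (l 16772144) (l 16770088))))) (a (a (b (l 16755888) (b (l 16762784) (l 6))) (b (l 16750488) (l 6))) (b (a (l 16746416) (b (l 16737176) (l 6))) (l 6)))) (a (b (a (l 3) (b (a (b (a (l 186998854679) (l 6)) (l 6)) (l 6)) (l 6))) (l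 3)) (l 6)))), by decide +kernel⟩

theorem s8_pp_012_a : ∃ t, chk3 f_pp_012_a t 15 7 1 = true := ex3_b k6_pp_012_a k7_pp_012_a

theorem s9_pp_012_a : ∃ t, chk3 f_pp_012_a t 15 3 1 = true := ex3_b k5_pp_012_a s8_pp_012_a

theorem s10_pp_012_a : ∃ t, chk3 f_pp_012_a t 7 3 1 = true := ex3_a k4_pp_012_a s9_pp_012_a

theorem s11_pp_012_a : ∃ t, chk3 f_pp_012_a t 7 1 1 = true := ex3_b k3_pp_012_a s10_pp_012_a

theorem s12_pp_012_a : ∃ t, chk3 f_pp_012_a t 6 1 1 = true := ex3_b k1_pp_012_a k2_pp_012_a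

theorem s13_pp_012_a : ∃ t, chk3 f_pp_012_a t 3 1 1 = true := ex3_a s12_pp_012_a s11_pp_012_a

theorem s14_pp_012_a : ∃ t, chk3 f_pp_012_a t 1 1 1 = true := ex3_a k0_pp_012_a s13_pp_012_a

theorem c_pp_012_a : CertB 0 536870912 0 536870912 649613803 48318383 3 eng mog cd1q0 cd1q2a pd1 false true true .pnp 0 1 2
    ndB1q0 ndB1q2a pcB1 cut_pp_012_a Ext.none :=
  certB2 (fam := false) (s1 := true) (s2 := true) (a := 0) (b := 1) (c := 2) (cn := .pnp) (n1 := ndB1q0) (n2 := ndB1q2a) (pc := pcB1) (cut := cut_pp_012_a) (xt := Ext.none) (P1 := 0) (W1 := 536870912) (P2 := 0) (W2 := 536870912) (P3 := 649613803) (W3 := 48318383) (N0 := 3) (En := eng) (mo := mog) (C1 := cd1q0) (C2 := cd1q2a) (C3 := pd1)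
    rfl (fun _ => rfl) s14_pp_012_a

noncomputable def cut_pp_012_b : Cut := Cut.of [[⟨0, 0, 0, 44739242⟩, ⟨1, 1, 0, 44739242⟩, ⟨2, 1, 0, 44739242⟩]]

noncomputable def f_pp_012_b : ℕ → ℕ → ℕ → ℕ → Bool := onCell 536870912 536870912 1239849684 370763052 649613803 48318383
    (rowB 3 eng mog cd1q0 cd1q2b pd1 2 false true true .pnp 0 1 2 (qsf 0 536870912 1239849684 370763052 1) ndB1q0 ndB1q2b pcB1 cut_pp_012_b Ext.none)

def k0_pp_012_b : ∃ t, chk3 f_pp_012_b t 1 1 1 = true :=
  ⟨(b (a (a (l 2) (a (b (b (a (l 131097232855) (l 16720184)) (l 2)) (l 2)) (b (b (l 16684240) (l 16670192)) (a (l 2) (l 16647016))))) (a (a (b (b (a (l 16646488) (l 16620968)) (l 16653192)) (a (l 16612072) (l 16575504))) (b (b (a (l 16595392) (l 16570448)) (a (l 16564872) (l 16533896))) (a (l 16538752) (l 16499840)))) (a (b (b (a (l 16547456) (l 16527488)) (a (l 16504072) (l 16476216))) (b (l 16455912) (l 16433584))) (b (a (b (l 16511744) (l 16451664)) (b (l 16501216) (l 16431888))) (a (l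 16389288) (l 16356056)))))) (a (l 2) (a (a (l 2) (b (l 16617432) (l 2))) (a (b (l 16420024) (l 16438336)) (b (a (l 16352136) (l 16307304)) (l 16331744)))))), by decide +kernel⟩

theorem c_pp_012_b : CertB 0 536870912 1239849684 370763052 649613803 48318383 3 eng mog cd1q0 cd1q2b pd1 false true true .pnp 0 1 2
    ndB1q0 ndB1q2b pcB1 cut_pp_012_b Ext.none :=
  certB2 (fam := false) (s1 := true) (s2 := true) (a := 0) (b := 1) (c := 2) (cn := .pnp) (n1 := ndB1q0) (n2 := ndB1q2b) (pc := pcB1) (cut := cut_pp_012_b) (xt := Ext.none) (P1 := 0) (W1 := 536870912) (P2 := 1239849684) (W2 := 370763052) (P3 := 649613803) (W3 := 48318383) (N0 := 3) (En := eng) (mo := mog) (C1 := cd1q0) (C2 := cd1q2b) (C3 := pd1)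
    rfl (fun _ => rfl) k0_pp_012_b

noncomputable def cut_pp_022_a : Cut := Cut.of [[⟨0, 0, 0, 67108864⟩, ⟨1, 1, 0, 67108864⟩, ⟨2, 1, 0, 67108864⟩]]

noncomputable def f_pp_022_a : ℕ → ℕ → ℕ → ℕ → Bool := onCell 1073741824 536870912 0 536870912 649613803 48318383
    (rowB 3 eng mog cd1q0 cd1q2a pd2 2 false true true .pp 0 2 2 (qsf 0 536870912 0 536870912 2) ndB1q0 ndB1q2a pcB2 cut_pp_022_a Ext.none)

def k0_pp_022_a : ∃ t, chk3 f_pp_022_a t 4 4 1 = true :=
  ⟨(a (a (b (c (l 16521240) (l 16451304)) (c (a (l 16540520) (l 16569208)) (b (l 16524424) (a (l 16538768) (l 16525080))))) (b (l 16474352) (b (a (l 16509128) (l 16500640)) (a (l 16517056) (l 16508200))))) (a (b (l 16481184) (b (l 16489128) (a (l 16499824) (l 16491976)))) (b (l 16554744) (b (l 16476272) (a (l 16484704) (l 16478064)))))), by decide +kernel⟩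

def k1_pp_022_a : ∃ t, chk3 f_pp_022_a t 4 5 1 = true :=
  ⟨(a (b (c (a (b (a (l 16552080) (l 16560128)) (a (a (l 16565376) (l 16558624)) (a (l 16552392) (l 16547144)))) (b (a (l 16528760) (l 16519352)) (a (l 16539704) (l 16529968)))) (b (a (a (l 16567720) (b (l 16530832) (l 16535104))) (a (l 16522736) (l 16513424))) (a (a (a (l 16560600) (l 16553176)) (a (l 16546496) (l 16541128))) (a (l 16554536) (l 16523544))))) (a (b (a (a (c (l 16598528) (l 16594352)) (c (b (l 16567440) (l 16574808)) (b (l 16562336) (l 16570176)))) (a (c (l 16565720) (l 16560528)) (c (l 16560584) (l 16555152)))) (a (a (b (c (l 16589008) (l 16585544)) (l 16599296)) (b (l 16602552) (l 16591096))) (b (c (l 16575480) (l 16570920)) (b (c (l 16582240) (l 16578064)) (l 16585064))))) (b (c (a (b (l 16549168) (l 16556616)) (l 16563680)) (a (b (l 16543200) (l 16550896)) (b (l 16532560) (l 16539800)))) (c (b (a (l 16564888) (l 16554240)) (a (l 16636576) (l 16583640))) (a (b (l 16559496) (l 16568528))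 (b (l 16547912) (l 16556464))))))) (b (a (c (a (b (l 16510352) (l 16520496)) (b (l 16501832) (l 16511328))) (a (b (l 16504344) (l 16513624)) (b (l 16495536) (l 16503848)))) (c (b (a (l 16493832) (l 16486400)) (a (l 16502512) (c (l 16495680) (l 16492200)))) (b (a (l 16487048) (l 16478912)) (a (l 16494248) (l 16484848))))) (a (b (c (a (l 16553584) (l 16522656)) (a (b (l 16521936) (l 16528648)) (b (l 16511344) (l 16517464)))) (c (a (b (l 16543560) (l 16551568)) (b (l 16532888) (l 16540384))) (a (b (l 16536192) (l 16544184)) (b (l 16524368) (l 16531704))))) (a (b (c (l 16512872) (b (l 16500816) (l 16506272))) (c (b (l 16522256) (l 16529128)) (b (l 16512464) (l 16519064)))) (c (b (l 16513784) (l 16535768)) (b (b (l 16490392) (l 16495104)) (b (l 16500512) (l 16506288)))))))), by decide +kernel⟩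

def k2_pp_022_a : ∃ t, chk3 f_pp_022_a t 5 2 1 = true :=
  ⟨(a (a (a (b (b (l 16524656) (c (l 16531968) (l 16467512))) (b (c (b (l 16479600) (c (l 16487880) (l 16483968))) (b (b (l 16470368) (l 16471824)) (l 16475680))) (c (b (b (l 16491664) (l 16496184)) (l 16503952)) (b (b (l 16480080) (l 16483984)) (l 16491000))))) (b (b (c (c (l 16446344) (l 16446992)) (l 16450520)) (b (l 93448600935) (b (l 16485648) (l 16467376)))) (b (c (b (l 16473472) (l 167536708391)) (b (c (l 16466792) (l 16460504)) (l 16466784))) (l 1)))) (b (b (l 1) (l 1)) (l 1))) (l 1)), by decide +kernel⟩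

def k3_pp_022_a : ∃ t, chk3 f_pp_022_a t 2 3 1 = true :=
  ⟨(a (a (b (a (a (b (b (b (l 16603824) (l 16614368)) (b (l 16625440) (l 16636792))) (b (b (l 16648032) (l 16657568)) (b (l 16666104) (l 16676040)))) (b (b (c (l 16598896) (l 16594928)) (b (l 16612592) (l 16623248))) (b (l 16639208) (b (l 16655584) (l 16665288))))) (a (b (b (b (l 16580336) (l 16589624)) (c (l 16606448) (l 16622568))) (b (c (l 16625968) (l 16642328)) (c (l 16645248) (a (l 16603472) (l 16636136))))) (b (b (l 16583040) (c (l 16614072) (l 16586800))) (b (c (l 16631880) (l 16604632)) (c (b (l 16624264) (l 16631912)) (b (l 16618096) (l 16625496))))))) (a (b (b (b (a (l 16686112) (l 16674968)) (b (a (l 16693600) (l 16682312)) (l 6))) (l 6)) (l 6)) (a (b (b (a (b (l 16660864) (l 16648696)) (b (l 16651176) (l 16659344))) (l 6)) (l 6)) (b (a (b (b (l 16641288) (l 16648792)) (l 6)) (b (b (l 16631192) (l 16658984)) (b (l 16643640) (l 1)))) (l 1))))) (b (b (a (b (a (l 16559872) (l 16557464)) (a (b (l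 16571784) (l 16579888)) (b (l 16557480) (l 16564568)))) (a (b (b (l 16530904) (l 16536768)) (c (l 16550992) (l 20434220215))) (b (c (l 16526176) (l 16534920)) (l 1)))) (a (b (a (b (l 16587640) (l 16595568)) (a (l 16599952) (l 16591304))) (a (b (c (l 16607048) (l 16599024)) (a (l 16614528) (l 16604664))) (b (l 16605496) (l 1)))) (b (a (c (l 16562520) (l 16571840)) (l 1)) (l 1)))) (b (a (b (a (b (a (l 16620856) (l 16610312)) (c (l 16625560) (l 16616672))) (l 1)) (l 1)) (l 1)) (l 1)))) (b (l 1) (l 1))), by decide +kernel⟩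

def k4_pp_022_a : ∃ t, chk3 f_pp_022_a t 3 1 1 = true :=
  ⟨(l 1), by decide +kernel⟩

theorem s5_pp_022_a : ∃ t, chk3 f_pp_022_a t 4 2 1 = true := ex3_b k0_pp_022_a k1_pp_022_a

theorem s6_pp_022_a : ∃ t, chk3 f_pp_022_a t 2 2 1 = true := ex3_a s5_pp_022_a k2_pp_022_a

theorem s7_pp_022_a : ∃ t, chk3 f_pp_022_a t 2 1 1 = true := ex3_b s6_pp_022_a k3_pp_022_a

theorem s8_pp_022_a : ∃ t, chk3 f_pp_022_a t 1 1 1 = true := ex3_a s7_pp_022_a k4_pp_022_a

theorem c_pp_022_a : CertB 0 536870912 0 536870912 649613803 48318383 3 eng mog cd1q0 cd1q2a pd2 false true true .pp 0 2 2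
    ndB1q0 ndB1q2a pcB2 cut_pp_022_a Ext.none :=
  certB2 (fam := false) (s1 := true) (s2 := true) (a := 0) (b := 2) (c := 2) (cn := .pp) (n1 := ndB1q0) (n2 := ndB1q2a) (pc := pcB2) (cut := cut_pp_022_a) (xt := Ext.none) (P1 := 0) (W1 := 536870912) (P2 := 0) (W2 := 536870912) (P3 := 649613803) (W3 := 48318383) (N0 := 3) (En := eng) (mo := mog) (C1 := cd1q0) (C2 := cd1q2a) (C3 := pd2)
    rfl (fun _ => rfl) s8_pp_022_a

noncomputable def cut_pp_022_b : Cut := Cut.of [[⟨0, 0, 0, 67108864⟩, ⟨1, 1, 0, 67108864⟩, ⟨2, 1, 0, 67108864⟩]]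

noncomputable def f_pp_022_b : ℕ → ℕ → ℕ → ℕ → Bool := onCell 0 536870912 1073741824 536870912 649613803 48318383
    (rowB 3 eng mog cd1q0 cd1q2b pd2 1 false true true .pp 0 2 2 (qsf 0 536870912 1239849684 370763052 2) ndB1q0 ndB1q2b pcB2 cut_pp_022_b Ext.none)

def k0_pp_022_b : ∃ t, chk3 f_pp_022_b t 1 1 1 = true :=
  ⟨(b (a (b (a (b (a (l 1) (b (b (l 1) (l 300143928487)) (a (l 422550461607) (l 271152716359)))) (a (b (l 352220396999) (b (l 151967522375) (l 66068258295))) (b (l 145524978295) (l 16460624)))) (b (a (b (a (b (l 419866009383) (l 312491826263)) (l 16476072)) (l 16449024)) (l 16558816)) (a (a (l 16400056) (l 16293368)) (l 16282080)))) (b (a (b (a (c (b (l 16527200) (a (l 16445960) (l 16367488))) (l 16568928)) (c (l 16387648) (l 16302488))) (b (a (c (a (b (l 16398128) (l 16380976)) (l 16333112)) (l 16424152)) (l 16482240)) (a (a (c (l 16362888) (l 16364392)) (l 16307080)) (l 16228928)))) (a (b (l 16213152) (b (l 16168040) (l 16150768))) (b (l 16154256)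 (l 16195040)))) (a (a (b (l 16445488) (l 16241696)) (l 16341528)) (a (l 16113112) (l 16089768))))) (b (a (b (a (l 16322872) (l 16266200)) (a (l 16196984) (l 16185480))) (b (l 16277920) (l 16202416))) (b (a (b (l 16125992) (a (l 16094904) (l 16106504))) (b (l 16164888) (l 2))) (a (l 16197560) (l 2))))) (b (a (a (b (a (b (l 16193896) (l 16154736)) (l 16114632)) (a (b (l 16123608) (l 16104352)) (l 16084752))) (b (l 16041936) (l 16047296))) (b (a (l 16112216) (l 2)) (l 2))) (a (a (b (a (l 16092536) (l 16092080)) (a (l 16100272) (l 16119776))) (b (l 16104856) (l 2))) (l 2)))), by decide +kernel⟩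

theorem c_pp_022_b : CertB 0 536870912 1239849684 370763052 649613803 48318383 3 eng mog cd1q0 cd1q2b pd2 false true true .pp 0 2 2
    ndB1q0 ndB1q2b pcB2 cut_pp_022_b Ext.none :=
  certB1 (fam := false) (s1 := true) (s2 := true) (a := 0) (b := 2) (c := 2) (cn := .pp) (n1 := ndB1q0) (n2 := ndB1q2b) (pc := pcB2) (cut := cut_pp_022_b) (xt := Ext.none) (P1 := 0) (W1 := 536870912) (P2 := 1239849684) (W2 := 370763052) (P3 := 649613803) (W3 := 48318383) (N0 := 3) (En := eng) (mo := mog) (C1 := cd1q0) (C2 := cd1q2b) (C3 := pd2)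
    rfl (fun _ => rfl) k0_pp_022_b

noncomputable def f_pp_023 : ℕ → ℕ → ℕ → ℕ → Bool := onCell 0 536870912 1073741824 536870912 649613803 48318383
    (rowB 3 eng mog cd1q0 cd1q3 pd2 1 false true true .up 0 2 3 (qsf 0 536870912 1610612736 536870912 2) ndB1q0 ndB1q3 pcB2 Cut.none Ext.none)

def k0_pp_023 : ∃ t, chk3 f_pp_023 t 1 1 1 = true :=
  ⟨(b (a (b (l 1) (b (l 1) (a (l 1) (l 368862876679)))) (b (a (b (l 1) (l 126197546583)) (b (l 16265896) (l 16215144))) (b (a (b (l 16130496) (l 132102955191)) (b (l 16180208) (l 16168168))) (a (l 16123576) (l 16218496))))) (b (a (a (b (l 1) (l 358125553559)) (b (l 16045152) (l 16031536))) (b (a (l 16130272) (l 16311872)) (a (l 16105928) (l 16428960)))) (a (a (b (l 334503252055) (l 381747850647)) (b (l 16083752) (l 16140600))) (a (l 16360856) (l 16560296))))), by decide +kernel⟩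

theorem c_pp_023 : CertB 0 536870912 1610612736 536870912 649613803 48318383 3 eng mog cd1q0 cd1q3 pd2 false true true .up 0 2 3
    ndB1q0 ndB1q3 pcB2 Cut.none Ext.none :=
  certB1 (fam := false) (s1 := true) (s2 := true) (a := 0) (b := 2) (c := 3) (cn := .up) (n1 := ndB1q0) (n2 := ndB1q3) (pc := pcB2) (cut := Cut.none) (xt := Ext.none) (P1 := 0) (W1 := 536870912) (P2 := 1610612736) (W2 := 536870912) (P3 := 649613803) (W3 := 48318383) (N0 := 3) (En := eng) (mo := mog) (C1 := cd1q0) (C2 := cd1q3) (C3 := pd2)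
    rfl (fun _ => rfl) k0_pp_023

noncomputable def f_pp_033 : ℕ → ℕ → ℕ → ℕ → Bool := onCell 0 536870912 1610612736 536870912 649613803 48318383
    (rowB 3 eng mog cd1q0 cd1q3 pd3 1 false true true .pnn 0 3 3 (qsf 0 536870912 1610612736 536870912 3) ndB1q0 ndB1q3 pcB3 Cut.none Ext.none)

def k0_pp_033 : ∃ t, chk3 f_pp_033 t 1 1 1 = true :=
  ⟨(a (b (b (b (a (l 16076232) (l 16243280)) (a (l 16086160) (l 16320392))) (b (a (l 16197816) (l 16385568)) (l 4))) (b (l 4) (a (l 4) (a (b (l 4) (l 2)) (l 2))))) (b (b (b (l 16566320) (l 16595976)) (a (b (l 16558200) (l 4)) (a (b (l 16653200) (l 2)) (l 2)))) (a (b (a (b (l 4) (l 2)) (l 2)) (l 2)) (l 2)))), by decide +kernel⟩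

theorem c_pp_033 : CertB 0 536870912 1610612736 536870912 649613803 48318383 3 eng mog cd1q0 cd1q3 pd3 false true true .pnn 0 3 3
    ndB1q0 ndB1q3 pcB3 Cut.none Ext.none :=
  certB1 (fam := false) (s1 := true) (s2 := true) (a := 0) (b := 3) (c := 3) (cn := .pnn) (n1 := ndB1q0) (n2 := ndB1q3) (pc := pcB3) (cut := Cut.none) (xt := Ext.none) (P1 := 0) (W1 := 536870912) (P2 := 1610612736) (W2 := 536870912) (P3 := 649613803) (W3 := 48318383) (N0 := 3) (En := eng) (mo := mog) (C1 := cd1q0) (C2 := cd1q3) (C3 := pd3)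
    rfl (fun _ => rfl) k0_pp_033

noncomputable def f_pp_101 : ℕ → ℕ → ℕ → ℕ → Bool := onCell 536870912 536870912 536870912 536870912 649613803 48318383
    (rowB 3 eng mog cd1q1 cd1q1 pd0 0 false true true .npn 1 0 1 (qsf 536870912 536870912 536870912 536870912 0) ndB1q1 ndB1q1 pcB0 Cut.none Ext.none)

def k0_pp_101 : ∃ t, chk3 f_pp_101 t 1 1 1 = true :=
  ⟨(l 3), by decide +kernel⟩

theorem c_pp_101 : CertB 536870912 536870912 536870912 536870912 649613803 48318383 3 eng mog cd1q1 cd1q1 pd0 false true true .npn 1 0 1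
    ndB1q1 ndB1q1 pcB0 Cut.none Ext.none :=
  certB0 (fam := false) (s1 := true) (s2 := true) (a := 1) (b := 0) (c := 1) (cn := .npn) (n1 := ndB1q1) (n2 := ndB1q1) (pc := pcB0) (cut := Cut.none) (xt := Ext.none) (P1 := 536870912) (W1 := 536870912) (P2 := 536870912) (W2 := 536870912) (P3 := 649613803) (W3 := 48318383) (N0 := 3) (En := eng) (mo := mog) (C1 := cd1q1) (C2 := cd1q1) (C3 := pd0)
    rfl k0_pp_101

noncomputable def f_pp_102_a : ℕ → ℕ → ℕ → ℕ → Bool := onCell 0 536870912 0 536870912 649613803 48318383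
    (rowB 3 eng mog cd1q1 cd1q2a pd0 2 false true true .npp 1 0 2 (qsf 536870912 536870912 0 536870912 0) ndB1q1 ndB1q2a pcB0 Cut.none Ext.none)

def k0_pp_102_a : ∃ t, chk3 f_pp_102_a t 1 1 1 = true :=
  ⟨(a (a (l 3) (l 3)) (l 3)), by decide +kernel⟩

theorem c_pp_102_a : CertB 536870912 536870912 0 536870912 649613803 48318383 3 eng mog cd1q1 cd1q2a pd0 false true true .npp 1 0 2
    ndB1q1 ndB1q2a pcB0 Cut.none Ext.none :=
  certB2 (fam := false) (s1 := true) (s2 := true) (a := 1) (b := 0) (c := 2) (cn := .npp) (n1 := ndB1q1) (n2 := ndB1q2a) (pc := pcB0) (cut := Cut.none) (xt := Ext.none) (P1 := 536870912) (W1 := 536870912) (P2 := 0) (W2 := 536870912) (P3 := 649613803) (W3 := 48318383) (N0 := 3) (En := eng) (mo := mog) (C1 := cd1q1) (C2 := cd1q2a) (C3 := pd0)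
    rfl (fun _ => rfl) k0_pp_102_a

noncomputable def f_pp_102_b : ℕ → ℕ → ℕ → ℕ → Bool := onCell 0 536870912 1239849684 370763052 649613803 48318383
    (rowB 3 eng mog cd1q1 cd1q2b pd0 2 false true true .npp 1 0 2 (qsf 536870912 536870912 1239849684 370763052 0) ndB1q1 ndB1q2b pcB0 Cut.none Ext.none)

def k0_pp_102_b : ∃ t, chk3 f_pp_102_b t 1 1 1 = true :=
  ⟨(a (l 3) (b (l 3) (l 3))), by decide +kernel⟩

theorem c_pp_102_b : CertB 536870912 536870912 1239849684 370763052 649613803 48318383 3 eng mog cd1q1 cd1q2b pd0 false true true .npp 1 0 2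
    ndB1q1 ndB1q2b pcB0 Cut.none Ext.none :=
  certB2 (fam := false) (s1 := true) (s2 := true) (a := 1) (b := 0) (c := 2) (cn := .npp) (n1 := ndB1q1) (n2 := ndB1q2b) (pc := pcB0) (cut := Cut.none) (xt := Ext.none) (P1 := 536870912) (W1 := 536870912) (P2 := 1239849684) (W2 := 370763052) (P3 := 649613803) (W3 := 48318383) (N0 := 3) (En := eng) (mo := mog) (C1 := cd1q1) (C2 := cd1q2b) (C3 := pd0)
    rfl (fun _ => rfl) k0_pp_102_b

noncomputable def f_pp_112_a : ℕ → ℕ → ℕ → ℕ → Bool := onCell 536870912 536870912 0 536870912 649613803 48318383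
    (rowB 3 eng mog cd1q1 cd1q2a pd1 0 false true true .dn 1 1 2 (qsf 536870912 536870912 0 536870912 1) ndB1q1 ndB1q2a pcB1 Cut.none Ext.none)

def k0_pp_112_a : ∃ t, chk3 f_pp_112_a t 1 1 1 = true :=
  ⟨(a (b (a (b (a (b (b (a (a (l 16740936) (b (l 16745024) (l 16748608))) (a (b (l 16749672) (l 16750536)) (b (l 16751160) (a (l 109689362519) (b (l 16746264) (l 177871970903)))))) (a (a (b (l 16746880) (l 16747960)) (b (l 16749440) (a (l 92509496647) (b (l 16745632) (l 162839586039))))) (a (b (a (l 100025687431) (b (l 16746120) (l 173577003911))) (a (b (l 168208294839) (l 3)) (l 3))) (b (a (b (a (l 161228975671) (l 192367482327)) (l 3)) (l 3)) (l 3))))) (a (b (a (b (a (b (l 16746824) (l 95730722167)) (b (l 98415077095) (l 159081489687))) (a (b (l 158544618375) (l 3)) (l 3))) (b (a (b (l 160692102535) (l 3)) (l 3)) (l 3))) (l 3)) (l 3))) (b (a (b (a (b (a (l 16737832) (b (l 16746072) (l 182166958519))) (a (b (l 180019475223) (l 3)) (l 3))) (b (a (b (l 184314441783)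 (l 3)) (l 3)) (l 3))) (l 3)) (l 3)) (l 3))) (l 3)) (l 3)) (l 3)) (l 1)), by decide +kernel⟩

theorem c_pp_112_a : CertB 536870912 536870912 0 536870912 649613803 48318383 3 eng mog cd1q1 cd1q2a pd1 false true true .dn 1 1 2
    ndB1q1 ndB1q2a pcB1 Cut.none Ext.none :=
  certB0 (fam := false) (s1 := true) (s2 := true) (a := 1) (b := 1) (c := 2) (cn := .dn) (n1 := ndB1q1) (n2 := ndB1q2a) (pc := pcB1) (cut := Cut.none) (xt := Ext.none) (P1 := 536870912) (W1 := 536870912) (P2 := 0) (W2 := 536870912) (P3 := 649613803) (W3 := 48318383) (N0 := 3) (En := eng) (mo := mog) (C1 := cd1q1) (C2 := cd1q2a) (C3 := pd1)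
    rfl k0_pp_112_a

noncomputable def f_pp_112_b : ℕ → ℕ → ℕ → ℕ → Bool := onCell 536870912 536870912 1239849684 370763052 649613803 48318383
    (rowB 3 eng mog cd1q1 cd1q2b pd1 2 false true true .dn 1 1 2 (qsf 536870912 536870912 1239849684 370763052 1) ndB1q1 ndB1q2b pcB1 Cut.none Ext.none)

def k0_pp_112_b : ∃ t, chk3 f_pp_112_b t 1 1 1 = true :=
  ⟨(a (a (b (a (b (l 3) (l 3)) (b (a (b (b (a (a (l 3) (b (l 16743136) (l 180556323495))) (l 16746520)) (a (l 3) (l 139754165111))) (a (l 3) (l 164450183255))) (b (a (l 16743496) (l 16740616)) (a (l 16727072) (l 16726968)))) (a (l 3) (b (a (l 3) (l 16713056)) (l 3))))) (l 3)) (a (b (b (a (b (a (l 16735624) (l 16727936)) (a (l 16723552) (l 16717640))) (b (l 16712984) (l 16704904))) (a (b (a (l 16713280) (l 16709840)) (a (l 16702432) (l 16703992))) (b (a (l 16703352) (l 16694984)) (a (l 16701440) (l 16694752))))) (b (a (a (l 3) (l 155860429751)) (a (l 81235390967) (l 56002488983))) (a (l 3) (l 3)))) (b (a (b (l 117608276343)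 (b (l 16676672) (a (l 16685808) (l 16672888)))) (b (l 140156833383) (l 16648224))) (a (b (a (l 16822800) (l 16712880)) (b (l 125795762903) (l 153176119767))) (b (b (l 16662608) (l 16687384)) (a (b (l 16718584) (l 16748136)) (l 16791496))))))) (a (b (b (l 1) (a (a (l 16614904) (l 16579544)) (l 120829366679))) (a (b (l 16616552) (a (a (l 16720056) (l 16705584)) (l 16670184))) (b (a (l 16548264) (l 16502432)) (l 16585656)))) (b (l 1) (a (b (l 16436400) (l 16466776)) (b (l 1) (l 16357000)))))), by decide +kernel⟩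

theorem c_pp_112_b : CertB 536870912 536870912 1239849684 370763052 649613803 48318383 3 eng mog cd1q1 cd1q2b pd1 false true true .dn 1 1 2
    ndB1q1 ndB1q2b pcB1 Cut.none Ext.none :=
  certB2 (fam := false) (s1 := true) (s2 := true) (a := 1) (b := 1) (c := 2) (cn := .dn) (n1 := ndB1q1) (n2 := ndB1q2b) (pc := pcB1) (cut := Cut.none) (xt := Ext.none) (P1 := 536870912) (W1 := 536870912) (P2 := 1239849684) (W2 := 370763052) (P3 := 649613803) (W3 := 48318383) (N0 := 3) (En := eng) (mo := mog) (C1 := cd1q1) (C2 := cd1q2b) (C3 := pd1)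
    rfl (fun _ => rfl) k0_pp_112_b

noncomputable def f_pp_113 : ℕ → ℕ → ℕ → ℕ → Bool := onCell 536870912 536870912 536870912 536870912 649613803 48318383
    (rowB 3 eng mog cd1q1 cd1q3 pd1 1 false true true .nn 1 1 3 (qsf 536870912 536870912 1610612736 536870912 1) ndB1q1 ndB1q3 pcB1 Cut.none Ext.none)

def k0_pp_113 : ∃ t, chk3 f_pp_113 t 1 1 1 = true :=
  ⟨(b (b (a (l 1) (l 3)) (a (b (l 1) (a (l 1) (b (l 1) (a (l 1) (l 193844124343))))) (a (b (l 3) (a (b (l 176798366759) (a (l 16763352) (l 16784368))) (l 3))) (l 3)))) (b (a (b (a (l 1) (a (l 16675656) (b (l 16749864) (l 16773624)))) (a (l 114923793143) (l 16728448))) (a (b (b (a (l 110763305015) (a (l 16828936) (l 3))) (a (l 16905928) (l 226190516807))) (b (a (l 16986760) (l 159081569463)) (a (l 16925616) (l 17021040)))) (b (l 3) (a (b (l 371145737655) (a (l 16937968) (l 300278473847))) (l 3))))) (a (a (b (l 16490304) (l 16435240)) (b (l 16748056) (l 16690880))) (b (b (a (a (l 16877752) (l 16953256)) (a (a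 (l 16978584) (l 16913880)) (a (b (l 354502692695) (l 16862544)) (l 3)))) (a (l 16873200) (a (l 16754752) (a (b (l 16870280) (l 16873552)) (a (l 16769856) (l 409800418391)))))) (b (a (l 16833832) (a (l 16883480) (a (l 16875120) (b (l 16821200) (l 16818248))))) (a (l 16798456) (a (l 16838040) (a (l 16827032) (l 16958344))))))))), by decide +kernel⟩

theorem c_pp_113 : CertB 536870912 536870912 1610612736 536870912 649613803 48318383 3 eng mog cd1q1 cd1q3 pd1 false true true .nn 1 1 3
    ndB1q1 ndB1q3 pcB1 Cut.none Ext.none :=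
  certB1 (fam := false) (s1 := true) (s2 := true) (a := 1) (b := 1) (c := 3) (cn := .nn) (n1 := ndB1q1) (n2 := ndB1q3) (pc := pcB1) (cut := Cut.none) (xt := Ext.none) (P1 := 536870912) (W1 := 536870912) (P2 := 1610612736) (W2 := 536870912) (P3 := 649613803) (W3 := 48318383) (N0 := 3) (En := eng) (mo := mog) (C1 := cd1q1) (C2 := cd1q3) (C3 := pd1)
    rfl (fun _ => rfl) k0_pp_113

noncomputable def f_pp_123 : ℕ → ℕ → ℕ → ℕ → Bool := onCell 536870912 536870912 1073741824 536870912 649613803 48318383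
    (rowB 3 eng mog cd1q1 cd1q3 pd2 1 false true true .npn 1 2 3 (qsf 536870912 536870912 1610612736 536870912 2) ndB1q1 ndB1q3 pcB2 Cut.none Ext.none)

def k0_pp_123 : ∃ t, chk3 f_pp_123 t 1 1 1 = true :=
  ⟨(a (b (b (a (b (l 16403568) (l 16386160)) (b (l 16622912) (l 16558488))) (a (b (b (l 16370024) (l 16367888)) (l 16430544)) (b (b (l 16515536) (l 16498616)) (l 16539056)))) (b (a (b (l 16511496) (l 16581256)) (b (l 16595896) (l 16647088))) (a (l 16667000) (a (b (l 16690752) (l 2)) (l 2))))) (b (b (b (a (a (l 16693936) (l 16731296)) (a (l 16752896) (l 16744352))) (a (a (l 16616968) (l 16648176)) (a (l 16658000) (l 16716456)))) (a (b (a (l 16770128) (b (b (l 16611672) (l 16643104)) (l 16588112))) (l 16690312)) (b (b (b (l 123044132839) (l 2)) (l 2)) (l 2)))) (a (b (a (b (l 16636792) (l 2)) (l 2)) (l 2)) (l 2)))), by decide +kernel⟩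

theorem c_pp_123 : CertB 536870912 536870912 1610612736 536870912 649613803 48318383 3 eng mog cd1q1 cd1q3 pd2 false true true .npn 1 2 3
    ndB1q1 ndB1q3 pcB2 Cut.none Ext.none :=
  certB1 (fam := false) (s1 := true) (s2 := true) (a := 1) (b := 2) (c := 3) (cn := .npn) (n1 := ndB1q1) (n2 := ndB1q3) (pc := pcB2) (cut := Cut.none) (xt := Ext.none) (P1 := 536870912) (W1 := 536870912) (P2 := 1610612736) (W2 := 536870912) (P3 := 649613803) (W3 := 48318383) (N0 := 3) (En := eng) (mo := mog) (C1 := cd1q1) (C2 := cd1q3) (C3 := pd2)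
    rfl (fun _ => rfl) k0_pp_123

noncomputable def f_pp_133 : ℕ → ℕ → ℕ → ℕ → Bool := onCell 1610612736 536870912 1610612736 536870912 649613803 48318383
    (rowB 3 eng mog cd1q1 cd1q3 pd3 2 false true true .dn 1 3 3 (qsf 536870912 536870912 1610612736 536870912 3) ndB1q1 ndB1q3 pcB3 Cut.none Ext.none)

def k0_pp_133 : ∃ t, chk3 f_pp_133 t 1 1 1 = true :=
  ⟨(a (b (l 1) (a (a (l 16736040) (l 1)) (l 1))) (l 1)), by decide +kernel⟩

theorem c_pp_133 : CertB 536870912 536870912 1610612736 536870912 649613803 48318383 3 eng mog cd1q1 cd1q3 pd3 false true true .dn 1 3 3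
    ndB1q1 ndB1q3 pcB3 Cut.none Ext.none :=
  certB2 (fam := false) (s1 := true) (s2 := true) (a := 1) (b := 3) (c := 3) (cn := .dn) (n1 := ndB1q1) (n2 := ndB1q3) (pc := pcB3) (cut := Cut.none) (xt := Ext.none) (P1 := 536870912) (W1 := 536870912) (P2 := 1610612736) (W2 := 536870912) (P3 := 649613803) (W3 := 48318383) (N0 := 3) (En := eng) (mo := mog) (C1 := cd1q1) (C2 := cd1q3) (C3 := pd3)
    rfl (fun _ => rfl) k0_pp_133

noncomputable def f_pp_202_aa : ℕ → ℕ → ℕ → ℕ → Bool := onCell 0 536870912 0 536870912 649613803 48318383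
    (rowB 3 eng mog cd1q2a cd1q2a pd0 0 false true true .pp 2 0 2 (qsf 0 536870912 0 536870912 0) ndB1q2a ndB1q2a pcB0 Cut.none Ext.none)

def k0_pp_202_aa : ∃ t, chk3 f_pp_202_aa t 1 1 1 = true :=
  ⟨(l 3), by decide +kernel⟩

theorem c_pp_202_aa : CertB 0 536870912 0 536870912 649613803 48318383 3 eng mog cd1q2a cd1q2a pd0 false true true .pp 2 0 2
    ndB1q2a ndB1q2a pcB0 Cut.none Ext.none :=
  certB0 (fam := false) (s1 := true) (s2 := true) (a := 2) (b := 0) (c := 2) (cn := .pp) (n1 := ndB1q2a) (n2 := ndB1q2a) (pc := pcB0) (cut := Cut.none) (xt := Ext.none) (P1 := 0) (W1 := 536870912) (P2 := 0) (W2 := 536870912) (P3 := 649613803) (W3 := 48318383) (N0 := 3) (En := eng) (mo := mog) (C1 := cd1q2a) (C2 := cd1q2a) (C3 := pd0)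
    rfl k0_pp_202_aa

noncomputable def f_pp_202_ab : ℕ → ℕ → ℕ → ℕ → Bool := onCell 0 536870912 1239849684 370763052 649613803 48318383
    (rowB 3 eng mog cd1q2a cd1q2b pd0 0 false true true .pp 2 0 2 (qsf 0 536870912 1239849684 370763052 0) ndB1q2a ndB1q2b pcB0 Cut.none Ext.none)

def k0_pp_202_ab : ∃ t, chk3 f_pp_202_ab t 1 1 1 = true :=
  ⟨(l 3), by decide +kernel⟩

theorem c_pp_202_ab : CertB 0 536870912 1239849684 370763052 649613803 48318383 3 eng mog cd1q2a cd1q2b pd0 false true true .pp 2 0 2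
    ndB1q2a ndB1q2b pcB0 Cut.none Ext.none :=
  certB0 (fam := false) (s1 := true) (s2 := true) (a := 2) (b := 0) (c := 2) (cn := .pp) (n1 := ndB1q2a) (n2 := ndB1q2b) (pc := pcB0) (cut := Cut.none) (xt := Ext.none) (P1 := 0) (W1 := 536870912) (P2 := 1239849684) (W2 := 370763052) (P3 := 649613803) (W3 := 48318383) (N0 := 3) (En := eng) (mo := mog) (C1 := cd1q2a) (C2 := cd1q2b) (C3 := pd0)
    rfl k0_pp_202_ab

noncomputable def f_pp_202_ba : ℕ → ℕ → ℕ → ℕ → Bool := onCell 1239849684 370763052 0 536870912 649613803 48318383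
    (rowB 3 eng mog cd1q2b cd1q2a pd0 0 false true true .pp 2 0 2 (qsf 1239849684 370763052 0 536870912 0) ndB1q2b ndB1q2a pcB0 Cut.none Ext.none)

def k0_pp_202_ba : ∃ t, chk3 f_pp_202_ba t 1 1 1 = true :=
  ⟨(l 3), by decide +kernel⟩

theorem c_pp_202_ba : CertB 1239849684 370763052 0 536870912 649613803 48318383 3 eng mog cd1q2b cd1q2a pd0 false true true .pp 2 0 2
    ndB1q2b ndB1q2a pcB0 Cut.none Ext.none :=
  certB0 (fam := false) (s1 := true) (s2 := true) (a := 2) (b := 0) (c := 2) (cn := .pp) (n1 := ndB1q2b) (n2 := ndB1q2a) (pc := pcB0) (cut := Cut.none) (xt := Ext.none) (P1 := 1239849684) (W1 := 370763052) (P2 := 0) (W2 := 536870912) (P3 := 649613803) (W3 := 48318383) (N0 := 3) (En := eng) (mo := mog) (C1 := cd1q2b) (C2 := cd1q2a) (C3 := pd0)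
    rfl k0_pp_202_ba

noncomputable def f_pp_202_bb : ℕ → ℕ → ℕ → ℕ → Bool := onCell 1239849684 370763052 1239849684 370763052 649613803 48318383
    (rowB 3 eng mog cd1q2b cd1q2b pd0 0 false true true .pp 2 0 2 (qsf 1239849684 370763052 1239849684 370763052 0) ndB1q2b ndB1q2b pcB0 Cut.none Ext.none)

def k0_pp_202_bb : ∃ t, chk3 f_pp_202_bb t 1 1 1 = true :=
  ⟨(l 3), by decide +kernel⟩

theorem c_pp_202_bb : CertB 1239849684 370763052 1239849684 370763052 649613803 48318383 3 eng mog cd1q2b cd1q2b pd0 false true true .pp 2 0 2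
    ndB1q2b ndB1q2b pcB0 Cut.none Ext.none :=
  certB0 (fam := false) (s1 := true) (s2 := true) (a := 2) (b := 0) (c := 2) (cn := .pp) (n1 := ndB1q2b) (n2 := ndB1q2b) (pc := pcB0) (cut := Cut.none) (xt := Ext.none) (P1 := 1239849684) (W1 := 370763052) (P2 := 1239849684) (W2 := 370763052) (P3 := 649613803) (W3 := 48318383) (N0 := 3) (En := eng) (mo := mog) (C1 := cd1q2b) (C2 := cd1q2b) (C3 := pd0)
    rfl k0_pp_202_bb

noncomputable def f_pp_203_a : ℕ → ℕ → ℕ → ℕ → Bool := onCell 0 536870912 0 536870912 649613803 48318383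
    (rowB 3 eng mog cd1q2a cd1q3 pd0 1 false true true .up 2 0 3 (qsf 0 536870912 1610612736 536870912 0) ndB1q2a ndB1q3 pcB0 Cut.none Ext.none)

def k0_pp_203_a : ∃ t, chk3 f_pp_203_a t 1 1 1 = true :=
  ⟨(l 3), by decide +kernel⟩

theorem c_pp_203_a : CertB 0 536870912 1610612736 536870912 649613803 48318383 3 eng mog cd1q2a cd1q3 pd0 false true true .up 2 0 3
    ndB1q2a ndB1q3 pcB0 Cut.none Ext.none :=
  certB1 (fam := false) (s1 := true) (s2 := true) (a := 2) (b := 0) (c := 3) (cn := .up) (n1 := ndB1q2a) (n2 := ndB1q3) (pc := pcB0) (cut := Cut.none) (xt := Ext.none) (P1 := 0) (W1 := 536870912) (P2 := 1610612736) (W2 := 536870912) (P3 := 649613803) (W3 := 48318383) (N0 := 3) (En := eng) (mo := mog) (C1 := cd1q2a) (C2 := cd1q3) (C3 := pd0)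
    rfl (fun _ => rfl) k0_pp_203_a

noncomputable def f_pp_203_b : ℕ → ℕ → ℕ → ℕ → Bool := onCell 1239849684 370763052 1610612736 536870912 649613803 48318383
    (rowB 3 eng mog cd1q2b cd1q3 pd0 0 false true true .up 2 0 3 (qsf 1239849684 370763052 1610612736 536870912 0) ndB1q2b ndB1q3 pcB0 Cut.none Ext.none)

def k0_pp_203_b : ∃ t, chk3 f_pp_203_b t 1 1 1 = true :=
  ⟨(l 3), by decide +kernel⟩

theorem c_pp_203_b : CertB 1239849684 370763052 1610612736 536870912 649613803 48318383 3 eng mog cd1q2b cd1q3 pd0 false true true .up 2 0 3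
    ndB1q2b ndB1q3 pcB0 Cut.none Ext.none :=
  certB0 (fam := false) (s1 := true) (s2 := true) (a := 2) (b := 0) (c := 3) (cn := .up) (n1 := ndB1q2b) (n2 := ndB1q3) (pc := pcB0) (cut := Cut.none) (xt := Ext.none) (P1 := 1239849684) (W1 := 370763052) (P2 := 1610612736) (W2 := 536870912) (P3 := 649613803) (W3 := 48318383) (N0 := 3) (En := eng) (mo := mog) (C1 := cd1q2b) (C2 := cd1q3) (C3 := pd0)
    rfl k0_pp_203_b

noncomputable def cut_pp_213_a : Cut := Cut.of [[⟨0, 1, 0, 67108864⟩, ⟨1, 1, 0, 67108864⟩, ⟨2, 2, 0, 16777216⟩]]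

noncomputable def f_pp_213_a : ℕ → ℕ → ℕ → ℕ → Bool := onCell 0 536870912 1610612736 536870912 649613803 48318383
    (rowB 3 eng mog cd1q2a cd1q3 pd1 0 false true true .pnn 2 1 3 (qsf 0 536870912 1610612736 536870912 1) ndB1q2a ndB1q3 pcB1 cut_pp_213_a Ext.none)

def k0_pp_213_a : ∃ t, chk3 f_pp_213_a t 1 1 1 = true :=
  ⟨(b (l 3) (a (l 3) (b (l 3) (a (l 3) (b (l 3) (a (l 3) (b (l 3) (b (l 3) (b (l 3) (l 6)))))))))), by decide +kernel⟩

theorem c_pp_213_a : CertB 0 536870912 1610612736 536870912 649613803 48318383 3 eng mog cd1q2a cd1q3 pd1 false true true .pnn 2 1 3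
    ndB1q2a ndB1q3 pcB1 cut_pp_213_a Ext.none :=
  certB0 (fam := false) (s1 := true) (s2 := true) (a := 2) (b := 1) (c := 3) (cn := .pnn) (n1 := ndB1q2a) (n2 := ndB1q3) (pc := pcB1) (cut := cut_pp_213_a) (xt := Ext.none) (P1 := 0) (W1 := 536870912) (P2 := 1610612736) (W2 := 536870912) (P3 := 649613803) (W3 := 48318383) (N0 := 3) (En := eng) (mo := mog) (C1 := cd1q2a) (C2 := cd1q3) (C3 := pd1)
    rfl k0_pp_213_a

noncomputable def cut_pp_213_b : Cut := Cut.of [[⟨0, 1, 0, 67108864⟩, ⟨1, 1, 0, 67108864⟩, ⟨2, 2, 0, 16777216⟩]]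

noncomputable def f_pp_213_b : ℕ → ℕ → ℕ → ℕ → Bool := onCell 1239849684 370763052 1610612736 536870912 649613803 48318383
    (rowB 3 eng mog cd1q2b cd1q3 pd1 0 false true true .pnn 2 1 3 (qsf 1239849684 370763052 1610612736 536870912 1) ndB1q2b ndB1q3 pcB1 cut_pp_213_b Ext.none)

def k0_pp_213_b : ∃ t, chk3 f_pp_213_b t 1 1 1 = true :=
  ⟨(l 3), by decide +kernel⟩

theorem c_pp_213_b : CertB 1239849684 370763052 1610612736 536870912 649613803 48318383 3 eng mog cd1q2b cd1q3 pd1 false true true .pnn 2 1 3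
    ndB1q2b ndB1q3 pcB1 cut_pp_213_b Ext.none :=
  certB0 (fam := false) (s1 := true) (s2 := true) (a := 2) (b := 1) (c := 3) (cn := .pnn) (n1 := ndB1q2b) (n2 := ndB1q3) (pc := pcB1) (cut := cut_pp_213_b) (xt := Ext.none) (P1 := 1239849684) (W1 := 370763052) (P2 := 1610612736) (W2 := 536870912) (P3 := 649613803) (W3 := 48318383) (N0 := 3) (En := eng) (mo := mog) (C1 := cd1q2b) (C2 := cd1q3) (C3 := pd1)
    rfl k0_pp_213_b

noncomputable def f_pp_303 : ℕ → ℕ → ℕ → ℕ → Bool := onCell 1610612736 536870912 1610612736 536870912 649613803 48318383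
    (rowB 3 eng mog cd1q3 cd1q3 pd0 0 false true true .npn 3 0 3 (qsf 1610612736 536870912 1610612736 536870912 0) ndB1q3 ndB1q3 pcB0 Cut.none Ext.none)

def k0_pp_303 : ∃ t, chk3 f_pp_303 t 1 1 1 = true :=
  ⟨(l 3), by decide +kernel⟩

theorem c_pp_303 : CertB 1610612736 536870912 1610612736 536870912 649613803 48318383 3 eng mog cd1q3 cd1q3 pd0 false true true .npn 3 0 3
    ndB1q3 ndB1q3 pcB0 Cut.none Ext.none :=
  certB0 (fam := false) (s1 := true) (s2 := true) (a := 3) (b := 0) (c := 3) (cn := .npn) (n1 := ndB1q3) (n2 := ndB1q3) (pc := pcB0) (cut := Cut.none) (xt := Ext.none) (P1 := 1610612736) (W1 := 536870912) (P2 := 1610612736) (W2 := 536870912) (P3 := 649613803) (W3 := 48318383) (N0 := 3) (En := eng) (mo := mog) (C1 := cd1q3) (C2 := cd1q3) (C3 := pd0)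
    rfl k0_pp_303

noncomputable def f_pp_313 : ℕ → ℕ → ℕ → ℕ → Bool := onCell 1610612736 536870912 1610612736 536870912 649613803 48318383
    (rowB 3 eng mog cd1q3 cd1q3 pd1 0 false true true .dn 3 1 3 (qsf 1610612736 536870912 1610612736 536870912 1) ndB1q3 ndB1q3 pcB1 Cut.none Ext.none)

def k0_pp_313 : ∃ t, chk3 f_pp_313 t 1 1 1 = true :=
  ⟨(l 3), by decide +kernel⟩

theorem c_pp_313 : CertB 1610612736 536870912 1610612736 536870912 649613803 48318383 3 eng mog cd1q3 cd1q3 pd1 false true true .dn 3 1 3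
    ndB1q3 ndB1q3 pcB1 Cut.none Ext.none :=
  certB0 (fam := false) (s1 := true) (s2 := true) (a := 3) (b := 1) (c := 3) (cn := .dn) (n1 := ndB1q3) (n2 := ndB1q3) (pc := pcB1) (cut := Cut.none) (xt := Ext.none) (P1 := 1610612736) (W1 := 536870912) (P2 := 1610612736) (W2 := 536870912) (P3 := 649613803) (W3 := 48318383) (N0 := 3) (En := eng) (mo := mog) (C1 := cd1q3) (C2 := cd1q3) (C3 := pd1)
    rfl k0_pp_313

noncomputable def f_pm_001 : ℕ → ℕ → ℕ → ℕ → Bool := onCell 0 536870912 0 536870912 649613803 48318383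
    (rowB 3 eng mog cd1q0 cd1q1 pd0 1 false true false .up 0 0 1 (qsf 0 536870912 536870912 536870912 0) ndB1q0 ndB1q1 pcB0 Cut.none Ext.none)

def k0_pm_001 : ∃ t, chk3 f_pm_001 t 1 1 1 = true :=
  ⟨(b (l 4) (a (l 4) (a (l 4) (b (b (l 4) (a (l 4) (b (a (l 4) (l 16564784)) (a (b (l 4) (l 16531312)) (l 16542160))))) (b (a (b (l 4) (a (l 4) (b (l 4) (l 16511856)))) (b (a (b (l 16504176) (l 16500704)) (l 16454640)) (a (b (l 16455168) (l 16430240)) (b (l 16398944) (l 16374024))))) (a (b (a (l 4) (b (l 16481912) (l 16474504))) (a (a (l 4) (b (l 16489928) (l 16460200))) (b (l 16427600) (l 16405624)))) (b (a (l 16414768) (a (l 16368120) (l 16317688))) (a (b (l 16340376) (l 16341024)) (a (l 16303600) (l 16301096)))))))))), by decide +kernel⟩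

theorem c_pm_001 : CertB 0 536870912 536870912 536870912 649613803 48318383 3 eng mog cd1q0 cd1q1 pd0 false true false .up 0 0 1
    ndB1q0 ndB1q1 pcB0 Cut.none Ext.none :=
  certB1 (fam := false) (s1 := true) (s2 := false) (a := 0) (b := 0) (c := 1) (cn := .up) (n1 := ndB1q0) (n2 := ndB1q1) (pc := pcB0) (cut := Cut.none) (xt := Ext.none) (P1 := 0) (W1 := 536870912) (P2 := 536870912) (W2 := 536870912) (P3 := 649613803) (W3 := 48318383) (N0 := 3) (En := eng) (mo := mog) (C1 := cd1q0) (C2 := cd1q1) (C3 := pd0)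
    rfl (fun _ => rfl) k0_pm_001

noncomputable def f_pm_011 : ℕ → ℕ → ℕ → ℕ → Bool := onCell 0 536870912 536870912 536870912 649613803 48318383
    (rowB 3 eng mog cd1q0 cd1q1 pd1 0 false true false .pnn 0 1 1 (qsf 0 536870912 536870912 536870912 1) ndB1q0 ndB1q1 pcB1 Cut.none Ext.none)

def k0_pm_011 : ∃ t, chk3 f_pm_011 t 1 1 1 = true :=
  ⟨(b (l 4) (a (b (l 4) (a (l 4) (b (l 4) (a (l 4) (b (l 4) (b (a (l 4) (b (l 16654568) (l 16646264))) (a (a (l 16573832) (b (l 16549224) (l 16535800))) (a (l 16546472) (l 16508592))))))))) (b (a (l 4) (a (a (l 4) (l 1)) (l 1))) (a (b (a (l 4) (b (a (l 4) (b (l 4) (l 16504584))) (a (b (l 16549040) (l 16495064)) (b (l 16483984) (l 16462456))))) (a (b (a (b (l 4) (a (l 16542240) (l 16523856))) (b (a (l 16530848) (l 16511784)) (l 16559432))) (a (b (l 16570328) (a (l 16491824) (l 16475224))) (b (l 16472672) (l 16513280)))) (b (a (b (l 16482296) (l 16459312)) (b (l 16461920) (l 16441088))) (b (a (l 16458448) (l 16443192)) (a (l 16438448)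 (l 16383288)))))) (a (b (b (a (b (l 16504400) (l 16476760)) (b (l 1) (l 16422344))) (a (l 16467064) (l 16404656))) (b (a (l 16407648) (l 16360088)) (b (l 16340264) (l 16326184)))) (b (b (l 1) (b (l 1) (l 36003193639))) (b (a (l 16310352) (l 16287928)) (a (l 16274976) (l 16250328))))))))), by decide +kernel⟩

theorem c_pm_011 : CertB 0 536870912 536870912 536870912 649613803 48318383 3 eng mog cd1q0 cd1q1 pd1 false true false .pnn 0 1 1
    ndB1q0 ndB1q1 pcB1 Cut.none Ext.none :=
  certB0 (fam := false) (s1 := true) (s2 := false) (a := 0) (b := 1) (c := 1) (cn := .pnn) (n1 := ndB1q0) (n2 := ndB1q1) (pc := pcB1) (cut := Cut.none) (xt := Ext.none) (P1 := 0) (W1 := 536870912) (P2 := 536870912) (W2 := 536870912) (P3 := 649613803) (W3 := 48318383) (N0 := 3) (En := eng) (mo := mog) (C1 := cd1q0) (C2 := cd1q1) (C3 := pd1)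
    rfl k0_pm_011

noncomputable def cut_pm_012_a : Cut := Cut.of [[⟨0, 0, 0, 67108864⟩, ⟨1, 1, 0, 67108864⟩, ⟨2, 1, 0, 67108864⟩]]

noncomputable def f_pm_012_a : ℕ → ℕ → ℕ → ℕ → Bool := onCell 536870912 536870912 0 536870912 649613803 48318383
    (rowB 3 eng mog cd1q0 cd1q2a pd1 2 false true false .pnp 0 1 2 (qsf 0 536870912 0 536870912 1) ndB1q0 ndB1q2a pcB1 cut_pm_012_a Ext.none)

def k0_pm_012_a : ∃ t, chk3 f_pm_012_a t 2 1 1 = true :=
  ⟨(b (a (b (l 2) (b (l 2) (a (l 2) (b (l 2) (l 16555752))))) (b (a (b (a (l 16675344) (l 16654936)) (l 16627024)) (b (l 16625904) (l 16654936))) (b (a (a (l 16600128) (l 16585224)) (b (l 16571488) (l 16555080))) (a (l 16571696) (a (l 16533568) (l 16521592)))))) (a (a (b (l 2) (b (l 16365448) (l 16331144))) (b (b (l 16544048) (l 16427256)) (b (l 16405832) (l 16422264)))) (b (a (b (l 16560456) (b (l 16455784) (l 16432592))) (b (a (l 16490776) (l 16485320)) (a (l 16452032) (l 16455768)))) (b (a (b (l 16417112) (l 16408352)) (b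 (l 16526320) (l 16485936))) (a (b (l 16405680) (l 16452848)) (a (l 16489872) (l 16537320))))))), by decide +kernel⟩

def k1_pm_012_a : ∃ t, chk3 f_pm_012_a t 3 2 1 = true :=
  ⟨(a (b (a (b (l 16587640) (a (l 16566968) (l 16550232))) (b (a (l 16559888) (l 16543920)) (a (l 16575064) (l 16517376)))) (a (b (a (l 16539360) (l 16522784)) (a (l 16509032) (l 16496296))) (b (a (l 16506448) (l 16493728)) (a (l 16526048) (l 16476384))))) (b (a (b (a (l 16530440) (l 16518536)) (a (l 16503576) (l 16491480))) (b (a (l 16506896) (l 16497144)) (a (l 16501872) (b (l 16477216) (l 16467360))))) (a (b (a (b (l 16487000) (l 16478664)) (b (l 16476584) (l 16470008))) (a (b (l 16472648) (l 16469232)) (b (l 16466424) (l 16466456)))) (a (b (b (l 16467392) (l 16462560)) (b (l 16461560) (l 16465328))) (b (b (l 16460256) (l 16478168)) (b (a (l 16459280) (l 16458512)) (a (l 16465936) (l 16467104)))))))), by decide +kernel⟩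

def k2_pm_012_a : ∃ t, chk3 f_pm_012_a t 3 3 1 = true :=
  ⟨(a (b (a (b (a (l 16479448) (l 16473688)) (b (l 16462960) (a (l 16457112) (l 16464016)))) (b (a (l 16510704) (l 16490032)) (b (a (l 16466168) (l 16474128)) (a (l 16535048) (l 16506528))))) (a (b (a (l 16569664) (l 16480120)) (b (l 16563296) (a (l 16515344) (l 16545296)))) (a (b (b (l 16527760) (l 16507368)) (b (l 16537304) (l 16612216))) (b (l 16569352) (b (l 16565784) (b (l 16593320) (l 16591184))))))) (b (a (b (a (b (l 16469456) (l 16474136)) (b (l 16470968) (l 16480816))) (b (a (l 16484472) (l 16496608)) (a (l 16501376) (l 16519200)))) (b (a (b (l 16474456) (l 16489776)) (b (a (l 16478632) (l 16481496)) (a (l 16497904) (l 16501784)))) (b (a (l 16511080) (a (l 16522032) (l 16526832))) (a (l 16538144) (l 16553184))))) (a (b (a (l 16624104) (b (l 16547536) (l 16600504))) (b (a (b (l 16581848) (l 16598920)) (a (l 16607816) (l 16621832))) (b (a (a (l 16611536) (l 16624328)) (a (l 16639592) (l 16655712)))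 (a (a (l 16652488) (l 16646680)) (b (l 16686632) (a (l 16669592) (l 16686952))))))) (b (b (a (l 16590472) (a (l 16582440) (l 16590328))) (a (l 16624336) (a (l 16621888) (b (l 16620264) (l 16642648))))) (a (b (a (l 16657808) (b (l 16640672) (l 16663848))) (b (a (l 16693168) (l 16699536)) (a (b (l 16691376) (l 16725656)) (l 6)))) (b (a (b (l 16655920) (l 6)) (l 6)) (l 6))))))), by decide +kernel⟩

theorem s3_pm_012_a : ∃ t, chk3 f_pm_012_a t 3 1 1 = true := ex3_b k1_pm_012_a k2_pm_012_a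

theorem s4_pm_012_a : ∃ t, chk3 f_pm_012_a t 1 1 1 = true := ex3_a k0_pm_012_a s3_pm_012_a

theorem c_pm_012_a : CertB 0 536870912 0 536870912 649613803 48318383 3 eng mog cd1q0 cd1q2a pd1 false true false .pnp 0 1 2
    ndB1q0 ndB1q2a pcB1 cut_pm_012_a Ext.none :=
  certB2 (fam := false) (s1 := true) (s2 := false) (a := 0) (b := 1) (c := 2) (cn := .pnp) (n1 := ndB1q0) (n2 := ndB1q2a) (pc := pcB1) (cut := cut_pm_012_a) (xt := Ext.none) (P1 := 0) (W1 := 536870912) (P2 := 0) (W2 := 536870912) (P3 := 649613803) (W3 := 48318383) (N0 := 3) (En := eng) (mo := mog) (C1 := cd1q0) (C2 := cd1q2a) (C3 := pd1)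
    rfl (fun _ => rfl) s4_pm_012_a

noncomputable def cut_pm_012_b : Cut := Cut.of [[⟨0, 0, 0, 67108864⟩, ⟨1, 1, 0, 67108864⟩, ⟨2, 1, 0, 67108864⟩]]

noncomputable def f_pm_012_b : ℕ → ℕ → ℕ → ℕ → Bool := onCell 536870912 536870912 1239849684 370763052 649613803 48318383
    (rowB 3 eng mog cd1q0 cd1q2b pd1 2 false true false .pnp 0 1 2 (qsf 0 536870912 1239849684 370763052 1) ndB1q0 ndB1q2b pcB1 cut_pm_012_b Ext.none)

def k0_pm_012_b : ∃ t, chk3 f_pm_012_b t 1 1 1 = true :=
  ⟨(a (a (l 2) (b (a (b (b (a (l 16694960) (l 16672312)) (l 2)) (l 2)) (b (b (l 16637192) (l 16630784)) (l 16697216))) (l 2))) (a (b (a (b (b (l 16632480) (l 16572296)) (l 16564464)) (b (b (a (l 16555744) (l 16534832)) (l 16577264)) (a (l 16509344) (l 16473008)))) (a (l 2) (b (l 16499792) (l 2)))) (b (a (b (b (a (l 16516216) (l 16500720)) (l 16482184)) (b (l 16429688) (l 16412056))) (b (a (b (l 16486256) (l 16425192)) (b (l 16470256) (l 16398456))) (a (l 16365800) (l 16326536)))) (a (b (l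 16409496) (l 16446720)) (b (a (l 16341016) (l 16292112)) (l 16340360)))))), by decide +kernel⟩

theorem c_pm_012_b : CertB 0 536870912 1239849684 370763052 649613803 48318383 3 eng mog cd1q0 cd1q2b pd1 false true false .pnp 0 1 2
    ndB1q0 ndB1q2b pcB1 cut_pm_012_b Ext.none :=
  certB2 (fam := false) (s1 := true) (s2 := false) (a := 0) (b := 1) (c := 2) (cn := .pnp) (n1 := ndB1q0) (n2 := ndB1q2b) (pc := pcB1) (cut := cut_pm_012_b) (xt := Ext.none) (P1 := 0) (W1 := 536870912) (P2 := 1239849684) (W2 := 370763052) (P3 := 649613803) (W3 := 48318383) (N0 := 3) (En := eng) (mo := mog) (C1 := cd1q0) (C2 := cd1q2b) (C3 := pd1)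
    rfl (fun _ => rfl) k0_pm_012_b

noncomputable def cut_pm_022_a : Cut := Cut.of [[⟨0, 0, 0, 67108864⟩, ⟨1, 1, 0, 67108864⟩, ⟨2, 1, 0, 67108864⟩]]

noncomputable def f_pm_022_a : ℕ → ℕ → ℕ → ℕ → Bool := onCell 0 536870912 0 536870912 649613803 48318383
    (rowB 3 eng mog cd1q0 cd1q2a pd2 0 false true false .pp 0 2 2 (qsf 0 536870912 0 536870912 2) ndB1q0 ndB1q2a pcB2 cut_pm_022_a Ext.none)

def k0_pm_022_a : ∃ t, chk3 f_pm_022_a t 2 2 1 = true :=
  ⟨(a (b (a (b (a (c (l 16540792) (l 16448360)) (l 16502672)) (b (a (c (l 16450984) (l 16452176)) (l 16453736)) (a (c (l 16456952) (l 16457440)) (l 16477232)))) (b (a (l 16465296) (a (l 16473208) (l 16477232))) (a (b (l 16459216) (l 16520896)) (b (l 16468432) (l 16462840))))) (a (b (a (b (a (l 16465384) (l 16463208)) (b (a (l 16473312) (l 16469976)) (a (l 16479896) (l 16475832)))) (b (l 16502408) (b (l 16465312) (l 16490408)))) (a (a (b (b (l 16487064) (l 16495512)) (c (l 16531464) (b (l 16505136) (l 16515648)))) (b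 (l 16517400) (b (l 16498408) (l 16507888)))) (b (b (l 16516824) (l 16480944)) (a (l 16516928) (l 16488712))))) (b (b (a (l 16500296) (b (l 16480488) (l 16457904))) (a (l 16461424) (a (l 16458152) (l 16456672)))) (a (b (b (l 16527976) (l 16469864)) (a (l 16481520) (l 16474448))) (b (b (l 16457672) (a (l 16461736) (l 16456408))) (a (l 16467584) (l 16461152))))))) (a (a (b (b (c (l 16491672) (l 16488024)) (b (l 16499608) (a (l 16466824) (l 16468760)))) (a (b (b (l 16479848) (l 16453392)) (b (l 16450336) (b (l 16450560) (l 1)))) (b (b (l 32245233623) (l 16470408)) (l 1)))) (b (b (l 1) (l 1)) (l 1))) (l 1))), by decide +kernel⟩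

def k1_pm_022_a : ∃ t, chk3 f_pm_022_a t 2 3 1 = true :=
  ⟨(b (a (a (a (a (b (b (b (c (l 16526632) (l 16527112)) (l 16538976)) (b (a (l 16554712) (l 16549656)) (a (l 16564024) (l 16563160)))) (b (a (b (l 16574080) (l 16584584)) (l 16578336)) (a (b (l 16595864) (l 16609248)) (b (l 16594576) (l 16607800))))) (b (b (b (l 16518280) (l 16529632)) (b (l 16541888) (l 16554808))) (b (b (l 16568024) (l 16581112)) (b (l 16592000) (l 16604976))))) (b (b (b (l 16547248) (l 16557112)) (a (b (l 16531288) (l 16543168)) (l 16567856))) (b (b (l 16548816) (l 16561192)) (a (l 16588136) (l 16572064))))) (b (a (a (b (l 16496368) (l 16514440)) (b (l 16487128) (l 16502888))) (b (a (l 16478000) (l 16468816)) (a (l 16491328) (l 1)))) (a (b (a (l 16534360) (l 16520320)) (a (b (l 16550536) (l 16560544)) (b (l 16534472) (l 1)))) (b (a (l 16506144) (l 1)) (l 1))))) (l 1)) (a (a (b (b (a (a (a (b (l 16644504) (a (l 16660024) (l 16638256))) (b (l 16621920) (l 16657864))) (b (l 16618832) (l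 16633536))) (a (b (l 16607496) (l 16621048)) (c (l 16596936) (l 16604520)))) (a (l 6) (a (l 6) (a (l 6) (a (l 6) (l 1)))))) (a (l 6) (a (l 6) (l 1)))) (b (a (b (a (b (l 16570824) (l 16581408)) (l 1)) (l 1)) (l 1)) (l 1))) (l 1))), by decide +kernel⟩

def k2_pm_022_a : ∃ t, chk3 f_pm_022_a t 3 1 1 = true :=
  ⟨(l 1), by decide +kernel⟩

theorem s3_pm_022_a : ∃ t, chk3 f_pm_022_a t 2 1 1 = true := ex3_b k0_pm_022_a k1_pm_022_a

theorem s4_pm_022_a : ∃ t, chk3 f_pm_022_a t 1 1 1 = true := ex3_a s3_pm_022_a k2_pm_022_a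

theorem c_pm_022_a : CertB 0 536870912 0 536870912 649613803 48318383 3 eng mog cd1q0 cd1q2a pd2 false true false .pp 0 2 2
    ndB1q0 ndB1q2a pcB2 cut_pm_022_a Ext.none :=
  certB0 (fam := false) (s1 := true) (s2 := false) (a := 0) (b := 2) (c := 2) (cn := .pp) (n1 := ndB1q0) (n2 := ndB1q2a) (pc := pcB2) (cut := cut_pm_022_a) (xt := Ext.none) (P1 := 0) (W1 := 536870912) (P2 := 0) (W2 := 536870912) (P3 := 649613803) (W3 := 48318383) (N0 := 3) (En := eng) (mo := mog) (C1 := cd1q0) (C2 := cd1q2a) (C3 := pd2)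
    rfl s4_pm_022_a

noncomputable def cut_pm_022_b : Cut := Cut.of [[⟨0, 0, 0, 67108864⟩, ⟨1, 1, 0, 67108864⟩, ⟨2, 1, 0, 67108864⟩]]

noncomputable def f_pm_022_b : ℕ → ℕ → ℕ → ℕ → Bool := onCell 1073741824 536870912 1239849684 370763052 649613803 48318383
    (rowB 3 eng mog cd1q0 cd1q2b pd2 2 false true false .pp 0 2 2 (qsf 0 536870912 1239849684 370763052 2) ndB1q0 ndB1q2b pcB2 cut_pm_022_b Ext.none)

def k0_pm_022_b : ∃ t, chk3 f_pm_022_b t 1 1 1 = true :=
  ⟨(a (a (b (b (b (a (a (b (l 16481640) (l 16447144)) (l 16529424)) (a (l 16446952) (l 16452896))) (a (a (l 16390368) (l 16366152)) (a (l 16387208) (l 16412088)))) (a (a (l 16412872) (l 16341552)) (a (l 16274264) (l 16315456)))) (a (b (a (l 16265648) (l 16225888)) (l 16384424)) (b (a (l 16190656) (l 16159664)) (a (l 16192880) (l 16153968))))) (b (a (b (b (a (c (l 16442720) (l 16401144)) (a (c (l 16416640) (l 16395656)) (b (l 16463256) (l 16377064)))) (a (l 16337088) (a (l 16310056) (l 16335344)))) (a (b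 (l 16242624) (l 16186256)) (a (b (l 16233400) (l 16172176)) (b (l 16237712) (l 16173248))))) (b (b (a (l 312491365815) (l 1)) (a (l 16405008) (l 390337636839))) (b (a (l 16245752) (l 16241968)) (l 16389992)))) (a (b (a (l 16132840) (a (l 16114760) (l 16114536))) (a (l 16118616) (l 16114072))) (b (b (a (l 16132520) (l 16122336)) (l 16102768)) (a (l 16095392) (l 16086040)))))) (b (a (b (l 1) (a (a (a (l 279742128487) (l 346314063799)) (l 306585657751)) (a (b (l 1) (l 311954284807)) (l 1)))) (l 1)) (a (a (b (b (l 16116560) (l 16059848)) (l 16039360)) (b (a (b (l 16108184) (l 16068952)) (l 281352596391)) (a (l 16006384) (l 16026776)))) (a (b (b (l 1) (l 322691776007)) (a (l 16037168) (l 16041024))) (b (l 1) (l 401611844535)))))), by decide +kernel⟩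

theorem c_pm_022_b : CertB 0 536870912 1239849684 370763052 649613803 48318383 3 eng mog cd1q0 cd1q2b pd2 false true false .pp 0 2 2
    ndB1q0 ndB1q2b pcB2 cut_pm_022_b Ext.none :=
  certB2 (fam := false) (s1 := true) (s2 := false) (a := 0) (b := 2) (c := 2) (cn := .pp) (n1 := ndB1q0) (n2 := ndB1q2b) (pc := pcB2) (cut := cut_pm_022_b) (xt := Ext.none) (P1 := 0) (W1 := 536870912) (P2 := 1239849684) (W2 := 370763052) (P3 := 649613803) (W3 := 48318383) (N0 := 3) (En := eng) (mo := mog) (C1 := cd1q0) (C2 := cd1q2b) (C3 := pd2)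
    rfl (fun _ => rfl) k0_pm_022_b

noncomputable def f_pm_023 : ℕ → ℕ → ℕ → ℕ → Bool := onCell 0 536870912 1073741824 536870912 649613803 48318383
    (rowB 3 eng mog cd1q0 cd1q3 pd2 1 false true false .up 0 2 3 (qsf 0 536870912 1610612736 536870912 2) ndB1q0 ndB1q3 pcB2 Cut.none Ext.none)

def k0_pm_023 : ∃ t, chk3 f_pm_023 t 1 1 1 = true :=
  ⟨(b (a (b (l 1) (a (l 1) (b (l 1) (l 433824007767)))) (b (a (b (l 1) (l 128881852007)) (b (l 104185907511) (l 16195832))) (a (b (b (l 16113904) (l 146598449383)) (l 16113920)) (b (b (l 16161768) (l 16153592)) (l 16204584))))) (b (a (a (b (l 1) (l 302827825159)) (b (l 16093560) (l 16049808))) (a (b (l 16122752) (l 16103440)) (b (l 16293920) (l 16412440)))) (a (a (b (l 330208205719) (l 380137132391)) (b (l 16023952) (l 16091712))) (a (b (l 16268856) (l 16408720)) (l 16447160))))), by decide +kernel⟩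

theorem c_pm_023 : CertB 0 536870912 1610612736 536870912 649613803 48318383 3 eng mog cd1q0 cd1q3 pd2 false true false .up 0 2 3
    ndB1q0 ndB1q3 pcB2 Cut.none Ext.none :=
  certB1 (fam := false) (s1 := true) (s2 := false) (a := 0) (b := 2) (c := 3) (cn := .up) (n1 := ndB1q0) (n2 := ndB1q3) (pc := pcB2) (cut := Cut.none) (xt := Ext.none) (P1 := 0) (W1 := 536870912) (P2 := 1610612736) (W2 := 536870912) (P3 := 649613803) (W3 := 48318383) (N0 := 3) (En := eng) (mo := mog) (C1 := cd1q0) (C2 := cd1q3) (C3 := pd2)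
    rfl (fun _ => rfl) k0_pm_023

noncomputable def f_pm_033 : ℕ → ℕ → ℕ → ℕ → Bool := onCell 0 536870912 1610612736 536870912 649613803 48318383
    (rowB 3 eng mog cd1q0 cd1q3 pd3 1 false true false .pnn 0 3 3 (qsf 0 536870912 1610612736 536870912 3) ndB1q0 ndB1q3 pcB3 Cut.none Ext.none)

def k0_pm_033 : ∃ t, chk3 f_pm_033 t 1 1 1 = true :=
  ⟨(a (b (b (b (a (l 16038520) (l 16226504)) (a (l 16068272) (l 16317752))) (b (a (l 4) (l 16389584)) (l 4))) (b (l 4) (a (l 4) (a (b (l 4) (l 2)) (l 2))))) (b (b (b (l 16625680) (l 16638176)) (a (b (l 16558656) (l 4)) (a (b (l 16653552) (l 2)) (l 2)))) (a (b (a (b (l 4) (l 2)) (l 2)) (l 2)) (l 2)))), by decide +kernel⟩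

theorem c_pm_033 : CertB 0 536870912 1610612736 536870912 649613803 48318383 3 eng mog cd1q0 cd1q3 pd3 false true false .pnn 0 3 3
    ndB1q0 ndB1q3 pcB3 Cut.none Ext.none :=
  certB1 (fam := false) (s1 := true) (s2 := false) (a := 0) (b := 3) (c := 3) (cn := .pnn) (n1 := ndB1q0) (n2 := ndB1q3) (pc := pcB3) (cut := Cut.none) (xt := Ext.none) (P1 := 0) (W1 := 536870912) (P2 := 1610612736) (W2 := 536870912) (P3 := 649613803) (W3 := 48318383) (N0 := 3) (En := eng) (mo := mog) (C1 := cd1q0) (C2 := cd1q3) (C3 := pd3)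
    rfl (fun _ => rfl) k0_pm_033

noncomputable def f_pm_101 : ℕ → ℕ → ℕ → ℕ → Bool := onCell 0 536870912 536870912 536870912 649613803 48318383
    (rowB 3 eng mog cd1q1 cd1q1 pd0 2 false true false .npn 1 0 1 (qsf 536870912 536870912 536870912 536870912 0) ndB1q1 ndB1q1 pcB0 Cut.none Ext.none)

def k0_pm_101 : ∃ t, chk3 f_pm_101 t 1 2 1 = true :=
  ⟨(b (l 4) (a (a (a (b (b (l 4) (a (l 32984039415) (l 36205232647))) (b (a (l 16630680) (l 16634104)) (a (l 16635240) (l 16628008)))) (b (l 4) (a (b (l 30836561799) (l 16622752)) (b (a (l 16649384) (l 4)) (a (l 16620448) (l 16620648)))))) (a (b (l 4) (b (l 4) (a (a (l 16622352) (l 16625520)) (l 50700753111)))) (l 4))) (l 4))), by decide +kernel⟩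

def k1_pm_101 : ∃ t, chk3 f_pm_101 t 4 3 1 = true :=
  ⟨(b (a (b (a (b (l 16653688) (b (l 16674144) (l 16712696))) (b (l 16639536) (l 16662288))) (b (a (b (a (l 16697472) (l 16690768)) (l 16698888)) (b (l 16764096) (l 16685536))) (a (l 16703616) (l 16691144)))) (b (a (b (l 16626888) (l 16644120)) (b (l 16615328) (l 16626840))) (b (a (b (l 16660896) (l 16664024)) (b (l 16638576) (a (l 16653784) (l 16645200)))) (a (l 16674624) (a (l 16659416) (l 16648144)))))) (a (b (b (a (l 16713296) (l 16698240)) (a (b (b (l 16722144) (l 16718408)) (l 16712320)) (b (l 16770632) (l 16700336)))) (b (a (l 16699856) (l 16690832)) (a (b (l 16686312) (b (l 16681824) (l 16675024))) (b (l 16681744) (b (l 16678184) (l 16674704)))))) (b (a (b (l 16682920) (b (l 16688744) (l 16684768))) (b (a (l 16668896) (l 16656584)) (b (l 16732176) (a (l 16674392) (l 16688192))))) (b (a (l 16680400) (a (l 16670632) (l 16663480))) (a (b (l 16674232) (b (l 16672216) (l 16671896))) (a (l 16668648) (l 16661840))))))),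 by decide +kernel⟩

def k2_pm_101 : ∃ t, chk3 f_pm_101 t 5 3 1 = true :=
  ⟨(b (a (b (a (b (l 16603096) (l 16604744)) (b (a (l 16596280) (l 16594488)) (l 16583528))) (b (a (l 16613496) (l 16581432)) (a (b (l 16620584) (l 16624880)) (b (l 16587872) (l 16585784))))) (b (b (a (a (l 16594608) (l 16595784)) (a (l 16597664) (l 16600064))) (a (l 16567448) (l 16340544279))) (b (a (l 16553192) (l 16529480)) (a (b (l 16550008) (l 16549768)) (l 16707840))))) (a (b (b (a (l 16630360) (l 16592120)) (a (b (l 16638496) (b (l 16643888) (l 16647376))) (a (l 16615192) (l 16593056)))) (b (a (l 16775416) (b (l 16633240) (l 16623680))) (a (a (l 16655968) (l 16649392)) (a (l 16641048) (l 16627480))))) (b (b (a (l 16552712) (a (l 16522456) (l 16499184))) (a (l 16561712) (l 16517816))) (b (a (b (l 16571952) (l 16581960)) (b (l 16529576) (l 16535424))) (a (a (l 16609936) (l 16588224)) (l 16677832)))))), by decide +kernel⟩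

def k3_pm_101 : ∃ t, chk3 f_pm_101 t 3 3 1 = true :=
  ⟨(a (a (b (b (b (l 4) (a (l 30299266215) (l 54458378551))) (a (b (l 16510032) (l 16484464)) (b (l 16492216) (l 16457336)))) (b (b (a (b (l 16473360) (l 16470640)) (b (l 16440304) (l 16427352))) (a (l 16472272) (l 16425704))) (b (a (b (l 16481192) (l 16482520)) (a (l 16446168) (l 16420752))) (a (l 16499264) (l 16442184))))) (b (b (l 4) (b (a (l 16485296) (a (l 16461120) (l 1))) (a (l 16430144) (l 16396144)))) (a (b (b (l 16403624) (l 16381376)) (b (a (l 16394296) (l 16367168)) (a (l 16396712) (l 16370736)))) (b (b (l 16364200) (l 16331696)) (b (l 16326832) (a (l 16346840) (l 16311232))))))) (a (b (b (l 1) (a (b (l 1) (a (l 16388568) (l 1))) (l 1))) (a (b (b (l 16383064) (a (l 16332192) (l 16331328))) (b (l 16311376) (a (l 16298824) (l 16289016)))) (b (b (l 113849452839) (l 16378744)) (b (l 16281400) (a (l 16266256) (l 16247360)))))) (b (l 1) (b (b (l 1) (a (l 16386632) (l 1))) (b (a (l 16268448) (l 16338872))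 (b (l 16324832) (l 16304872))))))), by decide +kernel⟩

theorem s4_pm_101 : ∃ t, chk3 f_pm_101 t 2 3 1 = true := ex3_a k1_pm_101 k2_pm_101

theorem s5_pm_101 : ∃ t, chk3 f_pm_101 t 1 3 1 = true := ex3_a s4_pm_101 k3_pm_101

theorem s6_pm_101 : ∃ t, chk3 f_pm_101 t 1 1 1 = true := ex3_b k0_pm_101 s5_pm_101

theorem c_pm_101 : CertB 536870912 536870912 536870912 536870912 649613803 48318383 3 eng mog cd1q1 cd1q1 pd0 false true false .npn 1 0 1
    ndB1q1 ndB1q1 pcB0 Cut.none Ext.none :=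
  certB2 (fam := false) (s1 := true) (s2 := false) (a := 1) (b := 0) (c := 1) (cn := .npn) (n1 := ndB1q1) (n2 := ndB1q1) (pc := pcB0) (cut := Cut.none) (xt := Ext.none) (P1 := 536870912) (W1 := 536870912) (P2 := 536870912) (W2 := 536870912) (P3 := 649613803) (W3 := 48318383) (N0 := 3) (En := eng) (mo := mog) (C1 := cd1q1) (C2 := cd1q1) (C3 := pd0)
    rfl (fun _ => rfl) s6_pm_101

noncomputable def xt_pm_102_a : Ext := extD2 3 ⟨7, 3, 3, 10, 377, 200, 77, 100, 17, 50, 3, 16⟩ eng cd1q1 cd1q2a pd0 false true false .npp 1 0 2 rfl ndB1q1 ndB1q2a pcB0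

noncomputable def f_pm_102_a : ℕ → ℕ → ℕ → ℕ → Bool := onCell 536870912 536870912 0 536870912 649613803 48318383
    (rowB 3 eng mog cd1q1 cd1q2a pd0 0 false true false .npp 1 0 2 (qsf 536870912 536870912 0 536870912 0) ndB1q1 ndB1q2a pcB0 Cut.none xt_pm_102_a)

def k0_pm_102_a : ∃ t, chk3 f_pm_102_a t 2 2 1 = true :=
  ⟨(a (b (l 2) (a (l 2) (b (l 2) (a (l 2) (l 292695021591))))) (a (a (a (b (l 2) (b (l 16698352) (l 16611368))) (b (b (a (l 2) (b (l 16753720) (l 16753424))) (l 16800072)) (b (l 16708072) (l 16643488)))) (b (b (b (a (b (a (l 16749000) (l 16745208)) (l 16751784)) (b (a (l 180019455239) (l 193978090567)) (a (l 16747464) (l 148880949639)))) (a (b (l 16753336) (l 16752392)) (b (l 16749736) (l 16751056)))) (a (l 16743184) (b (b (l 16750336) (l 16748096)) (l 16742864)))) (b (b (l 16750840) (l 16712976)) (b (l 16685664) (l 16636288))))) (b (a (b (b (a (b (l 3) (a (l 179482581975) (l 192367475895))) (l 3)) (a (b (a (l 16745488) (l 148880951143)) (l 16747328))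 (b (l 183777541927) (a (l 16743024) (l 147270338423))))) (b (a (b (l 16748672) (l 16748408)) (b (l 16744528) (l 16746152))) (a (l 16745864) (l 16746376)))) (b (b (l 3) (a (b (l 3) (l 180556311623)) (l 3))) (b (a (b (a (l 16740000) (l 97878211607)) (l 16741352)) (b (l 180019434439) (a (l 16736680) (b (l 176798211767) (l 16734056))))) (a (b (l 16743568) (l 16744632)) (b (l 16738328) (a (l 16742200) (l 16739584))))))) (b (a (b (l 16762400) (l 16774048)) (b (a (l 16744936) (b (l 16742792) (l 16744152))) (a (l 16741136) (l 16744624)))) (a (b (l 16711168) (l 16667744)) (b (b (l 16737944) (l 16728840)) (l 16702848))))))), by decide +kernel⟩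

def k1_pm_102_a : ∃ t, chk3 f_pm_102_a t 2 3 1 = true :=
  ⟨(b (a (a (l 2) (b (l 16634360) (l 16579104))) (b (a (b (l 16631400) (l 16569536)) (a (b (l 16639752) (l 16627256)) (b (l 16671264) (b (l 16660800) (l 16636000))))) (a (b (l 16555240) (l 16546464)) (a (l 16609856) (b (l 16627088) (l 16620272)))))) (a (a (a (b (l 2) (b (l 16386424) (l 16342888))) (b (b (l 16488328) (l 16444320)) (b (l 16394880) (l 16360024)))) (b (b (l 16535080) (a (l 16455648) (l 16481176))) (b (a (l 16416040) (b (l 16458360) (l 16450600))) (a (b (l 16399416) (a (l 16382944) (l 16408936))) (b (b (l 16447568) (l 16445792)) (a (l 16431616) (l 16455704))))))) (b (a (a (b (l 16525184) (l 16518968)) (b (l 16566848) (l 16564360))) (b (a (l 16582480) (c (l 16654992) (l 16632808))) (a (b (l 16583576) (l 16582328)) (b (l 16629160) (l 16652568))))) (a (b (a (b (l 16505520) (l 16501416)) (b (l 16555384) (b (l 16532344) (l 16531152)))) (a (a (b (l 16484208) (l 16485704)) (b (l 16514824) (a (l 16509064)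 (l 16521936)))) (a (b (l 16518744) (b (l 16515584) (c (l 16552136) (l 16489848)))) (b (c (l 16597776) (l 16517232)) (b (c (l 16572504) (l 141519412420444271)) (a (a (l 16539320) (l 16546136)) (l 16557816))))))) (a (b (b (a (l 16587064) (l 16610960)) (a (b (l 16583616) (l 16581712)) (l 16608704))) (b (a (b (l 16580528) (l 16579912)) (l 16608240)) (c (l 16609080) (l 16580736)))) (a (b (l 16656896) (c (l 16644376) (l 16626584))) (b (l 16723560) (c (l 16665824) (l 16676216))))))))), by decide +kernel⟩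

def k2_pm_102_a : ∃ t, chk3 f_pm_102_a t 6 2 1 = true :=
  ⟨(b (b (l 3) (a (a (b (a (b (l 3) (l 177335073111)) (l 3)) (a (b (a (l 16743816) (b (l 174650721303) (l 16730672))) (l 16735216)) (b (l 167134518807) (a (b (l 147270319911) (l 16730976)) (l 160155201703))))) (b (l 3) (a (b (l 3) (a (l 156933968167) (l 3))) (l 3)))) (l 3))) (a (b (a (b (a (b (l 16738472) (l 16741416)) (b (l 16732200) (l 16736224))) (a (l 16745048) (b (l 16740584) (l 16744240)))) (b (a (b (a (l 146733446775) (b (l 152638999335) (l 157470842087))) (a (l 16731008) (b (l 16725856) (l 16728344)))) (b (l 3) (a (b (l 160692063223) (l 162839566391)) (l 153712732759)))) (a (b (l 16745008) (l 16739984)) (b (a (l 16728544) (b (l 164450169143) (l 16724560))) (a (l 16734768) (l 16729368)))))) (b (a (a (l 16744688) (l 16747632)) (a (l 16747064) (b (a (l 16740784) (l 16735904)) (l 16744688)))) (a (a (l 16727616) (l 16741264)) (a (l 16749560) (b (l 16749864) (l 16752016)))))) (b (a (b (l 3) (a (b (a (l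 156933958583) (l 140827819799)) (a (l 16723712) (b (l 153175871447) (l 16719632)))) (b (l 3) (a (b (l 136532850583) (l 143512190455)) (l 3))))) (l 3)) (a (b (a (b (a (l 16730432) (l 16724776)) (a (l 16737728) (l 16732504))) (b (a (l 16719040) (b (l 160155184999) (l 16715040))) (a (l 16726912) (l 16721216)))) (a (l 16745544) (b (b (l 16772312) (l 16734376)) (l 16740088)))) (b (a (b (a (l 145122779159) (l 3)) (a (l 16715480) (l 121500476999))) (b (l 3) (a (l 142975288871) (l 3)))) (a (b (a (l 16692616) (l 16718424)) (a (l 16732592) (l 16727208))) (b (a (l 103783752039) (l 160155192407)) (a (l 16721624) (l 16716104))))))))), by decide +kernel⟩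

def k3_pm_102_a : ∃ t, chk3 f_pm_102_a t 7 2 1 = true :=
  ⟨(a (b (l 3) (b (l 3) (a (b (l 3) (a (b (l 3) (a (b (l 167671360311) (l 16712416)) (b (l 3) (l 149954614679)))) (l 3))) (l 3)))) (l 3)), by decide +kernel⟩

def k4_pm_102_a : ∃ t, chk3 f_pm_102_a t 6 3 1 = true :=
  ⟨(b (a (b (b (a (l 16699480) (b (l 16743296) (l 16722448))) (a (a (l 16680064) (l 16694944)) (l 16713152))) (b (a (l 16682880) (a (l 16703552) (l 16691656))) (a (l 16677800) (l 16708120)))) (b (b (a (a (b (l 16751120) (l 16748960)) (b (l 16746576) (l 16750232))) (a (l 16741864) (b (a (l 16730528) (b (l 16722848) (l 16727408))) (l 16736312)))) (a (a (l 16725256) (l 16743760)) (a (b (l 16749424) (l 16748720)) (a (l 16747832) (l 16744416))))) (b (a (a (l 16716664) (l 16722592)) (l 16737040)) (a (b (a (l 16717840) (l 16720968)) (l 16679880)) (a (b (l 16723824) (l 16727072)) (b (l 16728752) (l 16728400))))))) (b (a (b (a (l 16683976) (l 16695600)) (a (b (l 16693904) (l 16678768)) (b (l 16729136)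 (a (l 16729952) (l 16723256))))) (b (a (a (l 16706680) (l 16709472)) (l 16710536)) (a (b (l 16719080) (a (l 16726336) (l 16746296))) (b (l 16738984) (l 16722824))))) (a (a (a (b (l 16767648) (b (l 16682896) (l 16683752))) (b (l 16789152) (b (l 16704408) (l 16704728)))) (b (c (l 16832312) (a (l 16729184) (l 16743704))) (a (b (l 16722688) (l 16721968)) (b (l 16733840) (l 16733584))))) (b (a (b (l 16742976) (l 16739608)) (a (l 16742504) (l 16826464))) (a (b (l 16738592) (a (l 16737896) (l 16741240))) (b (a (l 16741528) (l 16741608)) (a (l 16742728) (l 16742408)))))))), by decide +kernel⟩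

def k5_pm_102_a : ∃ t, chk3 f_pm_102_a t 14 6 1 = true :=
  ⟨(b (a (b (a (b (a (b (l 16717288) (l 16722000)) (b (l 163376407431) (l 16715984))) (a (b (l 16726576) (l 16730872)) (b (l 16721216) (l 16725664)))) (b (a (a (l 155860220295) (l 144585903831)) (l 3)) (a (b (l 16714576) (l 16720232)) (b (l 131164156711) (l 160692059975))))) (a (b (l 16734464) (l 16741456)) (b (a (b (l 16724720) (l 16728824)) (b (l 16718936) (l 16723848))) (a (l 16734648) (b (l 16727912) (l 16731648)))))) (b (a (b (l 3) (a (b (l 3) (l 164987000071)) (l 3))) (l 3)) (a (b (a (b (a (l 16713272) (l 145122810647)) (l 16717536)) (b (l 164986997127) (a (l 16722128) (l 180556279127)))) (a (b (l 16723056) (l 16727040)) (b (a (l 16717928) (l 76403262199)) (l 16722192)))) (b (l 3) (a (b (a (l 144585944935) (l 159618291991)) (c (l 149417774983) (l 191830572215))) (b (l 3) (a (l 159081424343) (l 3)))))))) (a (b (a (b (l 16747320) (l 16749072)) (b (l 16739104) (a (l 16747288) (l 16743616)))) (a (b (l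 16740984) (l 16731632)) (b (l 16748728) (l 16745992)))) (b (a (b (a (l 16732552) (b (l 16726248) (l 16729808))) (l 16737016)) (b (a (b (a (l 16722272) (l 16718008)) (a (l 16726608) (l 16724288))) (b (a (l 16692888) (l 176261323959)) (a (l 16720192) (l 16715936)))) (a (l 16730864) (b (a (l 16726056) (l 16722240)) (a (l 16729464) (l 16727528)))))) (a (b (l 16744128) (l 16749048)) (b (a (l 16737464) (l 16733688)) (a (l 16744800) (l 16740976))))))), by decide +kernel⟩

def k6_pm_102_a : ∃ t, chk3 f_pm_102_a t 15 6 1 = true :=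
  ⟨(b (l 3) (a (b (a (b (a (b (a (l 177871903415) (l 3)) (a (b (l 172503214423) (l 16713424)) (l 177335036119))) (l 3)) (a (b (a (l 16717992) (l 90898787079)) (a (l 16724104) (l 16720016))) (b (a (l 134922203239) (l 3)) (a (l 16716064) (l 129016628247))))) (b (l 3) (a (b (l 3) (a (l 184851230967) (l 3))) (l 3)))) (a (b (a (b (a (l 16728960) (l 16726008)) (l 16731552)) (b (a (l 16721752) (l 16696832)) (a (l 16727464) (l 16722664)))) (a (l 16736616) (l 16733408))) (b (a (b (a (l 16698920) (l 129016634119)) (a (l 16697736) (l 16715744))) (b (l 3) (a (l 132774755767) (l 155860202823)))) (b (a (a (l 16723456) (b (l 16718328) (l 16720808))) (a (b (l 16716048) (l 16717904)) (l 121500468407))) (a (l 16728136) (a (l 16722080) (l 16718832))))))) (b (l 3) (a (b (l 3) (a (b (l 152102107047) (l 122574203959)) (l 3))) (l 3))))), by decide +kernel⟩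

def k7_pm_102_a : ∃ t, chk3 f_pm_102_a t 7 14 1 = true :=
  ⟨(a (b (a (b (a (l 16733192) (l 16736008)) (l 16734800)) (a (b (l 16749264) (l 16719824)) (b (l 16748800) (l 16751640)))) (a (b (l 16738112) (a (l 16741792) (l 16740928))) (b (a (l 16739432) (l 16722328)) (a (l 16740792) (l 16740512))))) (a (b (a (b (a (l 16743896) (l 16760848)) (a (l 16748504) (l 16744208))) (b (a (b (l 16733448) (l 16735840)) (b (l 16747760) (l 16730744))) (a (l 16739160) (b (l 16733136) (l 16735280))))) (a (b (c (a (l 16751864) (l 16769856)) (l 16750928)) (l 16723048)) (b (b (l 16740232) (l 16731816)) (b (a (l 16746528) (l 16742616)) (l 16746088))))) (b (a (b (a (b (a (l 16720928) (l 16717936)) (a (l 16727360) (l 16723312))) (b (l 124184823447) (a (l 16730464) (l 16716904)))) (a (b (l 16728096) (l 16730568)) (b (a (l 16725136) (l 16737912)) (a (l 16726824) (l 16724776))))) (b (a (b (l 3) (l 154786464647)) (l 3)) (a (a (b (l 118816153143) (b (l 16722040) (l 16723200))) (b (l 143512202567)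 (b (l 16728888) (l 16720808)))) (b (l 3) (a (l 130090432887) (l 129553530903)))))) (a (b (a (b (l 16732904) (l 16735312)) (b (a (l 16729712) (l 16727048)) (l 16730656))) (b (a (l 16695832) (a (l 16733840) (l 16731688))) (b (l 16726816) (l 16717048)))) (b (a (b (a (l 16724760) (l 16723296)) (a (l 16727640) (l 16725072))) (b (a (a (l 16731928) (l 16731688)) (b (l 144049069751) (l 132237919207))) (a (b (l 16722544) (l 16723496)) (b (l 16731024) (l 16722048))))) (a (b (l 16728536) (b (l 16687952) (l 16689576))) (b (a (b (l 16703984) (l 16725928)) (b (l 16722576) (l 16703080))) (a (l 16685272) (l 16725544))))))))), by decide +kernel⟩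

def k8_pm_102_a : ∃ t, chk3 f_pm_102_a t 7 15 1 = true :=
  ⟨(a (b (a (b (a (l 16742928) (l 16742720)) (l 16740432)) (b (a (l 16762824) (b (l 16740120) (l 16739072))) (l 16738352))) (a (b (l 16740192) (l 16741248)) (b (l 16738112) (l 16739104)))) (b (a (b (a (b (l 16739384) (l 16738640)) (b (l 16746600) (l 16763624))) (a (l 16736576) (l 16735640))) (a (b (b (a (l 16741800) (l 16737328)) (a (l 16743512) (l 16760200))) (l 16740856)) (b (a (b (l 16732896) (b (l 16734480) (l 16735488))) (b (b (a (l 16729424) (l 16727168)) (l 16729184)) (b (l 16730200) (l 16689184)))) (a (l 16735296) (l 16752104))))) (a (b (l 16734648) (l 16735056)) (b (a (l 16731728) (a (l 16734352) (l 16730112))) (a (l 16730552) (a (l 16731760) (l 16727936))))))), by decide +kernel⟩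

theorem s9_pm_102_a : ∃ t, chk3 f_pm_102_a t 7 7 1 = true := ex3_b k7_pm_102_a k8_pm_102_a

theorem s10_pm_102_a : ∃ t, chk3 f_pm_102_a t 7 6 1 = true := ex3_a k5_pm_102_a k6_pm_102_a

theorem s11_pm_102_a : ∃ t, chk3 f_pm_102_a t 7 3 1 = true := ex3_b s10_pm_102_a s9_pm_102_a

theorem s12_pm_102_a : ∃ t, chk3 f_pm_102_a t 3 3 1 = true := ex3_a k4_pm_102_a s11_pm_102_a

theorem s13_pm_102_a : ∃ t, chk3 f_pm_102_a t 3 2 1 = true := ex3_a k2_pm_102_a k3_pm_102_a

theorem s14_pm_102_a : ∃ t, chk3 f_pm_102_a t 3 1 1 = true := ex3_b s13_pm_102_a s12_pm_102_a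

theorem s15_pm_102_a : ∃ t, chk3 f_pm_102_a t 2 1 1 = true := ex3_b k0_pm_102_a k1_pm_102_a

theorem s16_pm_102_a : ∃ t, chk3 f_pm_102_a t 1 1 1 = true := ex3_a s15_pm_102_a s14_pm_102_a

theorem c_pm_102_a : CertB 536870912 536870912 0 536870912 649613803 48318383 3 eng mog cd1q1 cd1q2a pd0 false true false .npp 1 0 2
    ndB1q1 ndB1q2a pcB0 Cut.none xt_pm_102_a :=
  certB0 (fam := false) (s1 := true) (s2 := false) (a := 1) (b := 0) (c := 2) (cn := .npp) (n1 := ndB1q1) (n2 := ndB1q2a) (pc := pcB0) (cut := Cut.none) (xt := xt_pm_102_a) (P1 := 536870912) (W1 := 536870912) (P2 := 0) (W2 := 536870912) (P3 := 649613803) (W3 := 48318383) (N0 := 3) (En := eng) (mo := mog) (C1 := cd1q1) (C2 := cd1q2a) (C3 := pd0)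
    rfl s16_pm_102_a

noncomputable def f_pm_102_b : ℕ → ℕ → ℕ → ℕ → Bool := onCell 0 536870912 1239849684 370763052 649613803 48318383
    (rowB 3 eng mog cd1q1 cd1q2b pd0 2 false true false .npp 1 0 2 (qsf 536870912 536870912 1239849684 370763052 0) ndB1q1 ndB1q2b pcB0 Cut.none Ext.none)

def k0_pm_102_b : ∃ t, chk3 f_pm_102_b t 1 1 1 = true :=
  ⟨(a (l 3) (a (b (l 3) (l 3)) (b (a (l 3) (b (a (l 3) (b (a (l 3) (b (a (l 184851278263) (l 16737616)) (l 188609341783))) (l 3))) (l 3))) (l 3)))), by decide +kernel⟩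

theorem c_pm_102_b : CertB 536870912 536870912 1239849684 370763052 649613803 48318383 3 eng mog cd1q1 cd1q2b pd0 false true false .npp 1 0 2
    ndB1q1 ndB1q2b pcB0 Cut.none Ext.none :=
  certB2 (fam := false) (s1 := true) (s2 := false) (a := 1) (b := 0) (c := 2) (cn := .npp) (n1 := ndB1q1) (n2 := ndB1q2b) (pc := pcB0) (cut := Cut.none) (xt := Ext.none) (P1 := 536870912) (W1 := 536870912) (P2 := 1239849684) (W2 := 370763052) (P3 := 649613803) (W3 := 48318383) (N0 := 3) (En := eng) (mo := mog) (C1 := cd1q1) (C2 := cd1q2b) (C3 := pd0)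
    rfl (fun _ => rfl) k0_pm_102_b

noncomputable def f_pm_112_a : ℕ → ℕ → ℕ → ℕ → Bool := onCell 536870912 536870912 0 536870912 649613803 48318383
    (rowB 3 eng mog cd1q1 cd1q2a pd1 0 false true false .dn 1 1 2 (qsf 536870912 536870912 0 536870912 1) ndB1q1 ndB1q2a pcB1 Cut.none Ext.none)

def k0_pm_112_a : ∃ t, chk3 f_pm_112_a t 1 1 1 = true :=
  ⟨(a (b (a (b (a (b (a (b (l 16684640) (l 16665912)) (b (l 16702928) (l 16685600))) (l 16691536)) (b (b (a (l 16720616) (b (l 16739472) (l 16731000))) (a (l 16701904) (l 16718304))) (a (b (l 16685392) (l 16667264)) (b (l 16699984) (l 16683784))))) (a (b (a (l 16630064) (l 16625912)) (b (l 16631736) (l 16563216))) (b (a (l 16641616) (l 16656720)) (a (b (l 16609176) (l 16580408)) (b (l 16623352) (l 16592472)))))) (a (a (b (b (b (a (b (l 16745720) (l 16740008)) (b (l 16748224) (l 16743528))) (a (l 16728512) (b (l 16737448) (l 16729976)))) (b (l 16714792) (a (l 16694144) (l 16699736)))) (b (b (l 16680512) (l 16660680))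 (b (l 16636768) (l 110091902119)))) (b (b (l 1) (l 1)) (l 1))) (l 1))) (a (b (b (a (l 16556176) (b (l 16549240) (l 16504440))) (a (l 16516216) (l 38687832807))) (b (a (b (l 16368800) (l 16326184)) (b (l 60162269063) (l 1))) (a (a (l 16271976) (l 16241360)) (l 1)))) (b (l 1) (l 1)))) (l 1)), by decide +kernel⟩

theorem c_pm_112_a : CertB 536870912 536870912 0 536870912 649613803 48318383 3 eng mog cd1q1 cd1q2a pd1 false true false .dn 1 1 2
    ndB1q1 ndB1q2a pcB1 Cut.none Ext.none :=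
  certB0 (fam := false) (s1 := true) (s2 := false) (a := 1) (b := 1) (c := 2) (cn := .dn) (n1 := ndB1q1) (n2 := ndB1q2a) (pc := pcB1) (cut := Cut.none) (xt := Ext.none) (P1 := 536870912) (W1 := 536870912) (P2 := 0) (W2 := 536870912) (P3 := 649613803) (W3 := 48318383) (N0 := 3) (En := eng) (mo := mog) (C1 := cd1q1) (C2 := cd1q2a) (C3 := pd1)
    rfl k0_pm_112_a

noncomputable def f_pm_112_b : ℕ → ℕ → ℕ → ℕ → Bool := onCell 536870912 536870912 536870912 536870912 649613803 48318383
    (rowB 3 eng mog cd1q1 cd1q2b pd1 1 false true false .dn 1 1 2 (qsf 536870912 536870912 1239849684 370763052 1) ndB1q1 ndB1q2b pcB1 Cut.none Ext.none)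

def k0_pm_112_b : ∃ t, chk3 f_pm_112_b t 1 1 1 = true :=
  ⟨(a (b (b (b (a (a (l 1) (a (b (l 1) (l 96670264807)) (b (b (l 1) (l 201360160999)) (l 16741664)))) (a (b (b (a (l 16773408) (l 16731592)) (l 16756496)) (a (l 16731176) (l 16715888))) (b (a (l 282561801751) (l 3)) (a (l 16694752) (l 16669632))))) (a (a (b (l 161094738103) (l 124587528311)) (b (l 102039017815) (l 16707504))) (a (b (a (l 16716280) (l 16704472)) (a (l 16701776) (l 16695896))) (b (a (l 16689088) (l 16668752)) (a (l 16686008) (l 16672352)))))) (a (b (a (b (l 16712480) (l 16666960)) (l 16679632)) (a (l 16629192) (l 16640872))) (b (a (l 16685288) (b (a (l 16686696) (l 16680616)) (l 16693048))) (b (a (l 16674448) (l 16706264)) (l 16694344))))) (b (b (a (a (l 16571976) (l 16604104)) (l 16726416)) (a (a (l 16512896) (l 16565472)) (a (l 16663048) (l 16817392)))) (a (b (l 16486712) (l 16444208)) (b (l 16765648) (l 2))))) (a (b (b (b (l 3) (a (b (l 3) (a (l 16654944) (l 3))) (l 3))) (b (a (b (l 115595003639)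 (l 109689390471)) (b (l 3) (l 205252274695))) (a (b (a (l 16725944) (l 16733656)) (l 105864272071)) (b (l 254040431271) (l 2))))) (b (b (a (b (l 16840000) (l 2)) (l 2)) (l 2)) (l 2))) (b (l 3) (l 2)))), by decide +kernel⟩

theorem c_pm_112_b : CertB 536870912 536870912 1239849684 370763052 649613803 48318383 3 eng mog cd1q1 cd1q2b pd1 false true false .dn 1 1 2
    ndB1q1 ndB1q2b pcB1 Cut.none Ext.none :=
  certB1 (fam := false) (s1 := true) (s2 := false) (a := 1) (b := 1) (c := 2) (cn := .dn) (n1 := ndB1q1) (n2 := ndB1q2b) (pc := pcB1) (cut := Cut.none) (xt := Ext.none) (P1 := 536870912) (W1 := 536870912) (P2 := 1239849684) (W2 := 370763052) (P3 := 649613803) (W3 := 48318383) (N0 := 3) (En := eng) (mo := mog) (C1 := cd1q1) (C2 := cd1q2b) (C3 := pd1)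
    rfl (fun _ => rfl) k0_pm_112_b

noncomputable def f_pm_113 : ℕ → ℕ → ℕ → ℕ → Bool := onCell 536870912 536870912 536870912 536870912 649613803 48318383
    (rowB 3 eng mog cd1q1 cd1q3 pd1 1 false true false .nn 1 1 3 (qsf 536870912 536870912 1610612736 536870912 1) ndB1q1 ndB1q3 pcB1 Cut.none Ext.none)

def k0_pm_113 : ∃ t, chk3 f_pm_113 t 1 1 1 = true :=
  ⟨(a (b (b (l 1) (a (l 1) (b (l 1) (b (l 1) (l 16692104))))) (b (b (a (l 1) (l 42446303815)) (a (l 100965060807) (l 34929983367))) (a (b (l 16474472) (l 16424400)) (b (l 16734584) (l 16676456))))) (a (a (b (b (l 1) (b (b (l 1) (l 208876309911)) (b (a (l 16730352) (l 16742408)) (a (l 16769168) (l 16800640))))) (b (b (b (l 16842120) (l 16912696)) (l 16928688)) (b (l 16838176) (l 16768464)))) (b (b (l 3) (b (b (l 3) (l 199883595527)) (b (l 190219955207) (a (l 16821320) (l 256791943031))))) (b (b (b (a (l 16924976) (l 16858064)) (a (l 17010512) (l 16925232))) (b (l 17036544) (l 16993688))) (b (l 16906464) (l 16821288)))))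 (b (l 3) (b (b (a (b (a (l 283098581239) (l 3)) (a (l 16833656) (l 263234277799))) (l 3)) (a (b (a (l 16918288) (l 16729760)) (a (l 16973280) (l 16905592))) (a (b (l 3) (l 263771186903)) (l 3)))) (b (a (b (l 16743880) (l 16923384)) (a (b (b (l 16872568) (l 16881992)) (b (l 16886744) (l 16888088))) (b (a (l 342154739479) (l 3)) (a (l 16846768) (l 16799920))))) (a (l 16848768) (a (b (l 16872144) (l 16822528)) (b (a (l 16841416) (l 16815240)) (l 16808808))))))))), by decide +kernel⟩

theorem c_pm_113 : CertB 536870912 536870912 1610612736 536870912 649613803 48318383 3 eng mog cd1q1 cd1q3 pd1 false true false .nn 1 1 3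
    ndB1q1 ndB1q3 pcB1 Cut.none Ext.none :=
  certB1 (fam := false) (s1 := true) (s2 := false) (a := 1) (b := 1) (c := 3) (cn := .nn) (n1 := ndB1q1) (n2 := ndB1q3) (pc := pcB1) (cut := Cut.none) (xt := Ext.none) (P1 := 536870912) (W1 := 536870912) (P2 := 1610612736) (W2 := 536870912) (P3 := 649613803) (W3 := 48318383) (N0 := 3) (En := eng) (mo := mog) (C1 := cd1q1) (C2 := cd1q3) (C3 := pd1)
    rfl (fun _ => rfl) k0_pm_113

noncomputable def f_pm_123 : ℕ → ℕ → ℕ → ℕ → Bool := onCell 536870912 536870912 1073741824 536870912 649613803 48318383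
    (rowB 3 eng mog cd1q1 cd1q3 pd2 1 false true false .npn 1 2 3 (qsf 536870912 536870912 1610612736 536870912 2) ndB1q1 ndB1q3 pcB2 Cut.none Ext.none)

def k0_pm_123 : ∃ t, chk3 f_pm_123 t 1 1 1 = true :=
  ⟨(a (b (b (a (b (l 16397632) (l 16368328)) (b (l 16610208) (l 16538688))) (a (b (b (l 16345904) (l 16342944)) (l 16410520)) (b (b (l 16494496) (l 16479184)) (l 16526584)))) (b (a (b (l 16497304) (l 16572184)) (b (l 16593040) (l 16653128))) (a (l 16670368) (a (b (l 16697120) (l 2)) (l 2))))) (b (b (a (a (b (l 16680496) (l 16601904)) (b (l 16758392) (l 16638768))) (a (b (l 16743120) (l 16659368)) (b (l 16766424) (l 480600435735)))) (a (b (a (l 16718616) (b (b (l 16608120) (l 16705208)) (l 16591920))) (a (l 16589216) (l 16560936))) (a (b (b (b (l 16608752) (l 2)) (l 2)) (l 2)) (l 2)))) (a (b (a (b (l 16646176) (l 2)) (l 2)) (l 2)) (l 2)))), by decide +kernel⟩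

theorem c_pm_123 : CertB 536870912 536870912 1610612736 536870912 649613803 48318383 3 eng mog cd1q1 cd1q3 pd2 false true false .npn 1 2 3
    ndB1q1 ndB1q3 pcB2 Cut.none Ext.none :=
  certB1 (fam := false) (s1 := true) (s2 := false) (a := 1) (b := 2) (c := 3) (cn := .npn) (n1 := ndB1q1) (n2 := ndB1q3) (pc := pcB2) (cut := Cut.none) (xt := Ext.none) (P1 := 536870912) (W1 := 536870912) (P2 := 1610612736) (W2 := 536870912) (P3 := 649613803) (W3 := 48318383) (N0 := 3) (En := eng) (mo := mog) (C1 := cd1q1) (C2 := cd1q3) (C3 := pd2)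
    rfl (fun _ => rfl) k0_pm_123

noncomputable def f_pm_133 : ℕ → ℕ → ℕ → ℕ → Bool := onCell 1610612736 536870912 1610612736 536870912 649613803 48318383
    (rowB 3 eng mog cd1q1 cd1q3 pd3 2 false true false .dn 1 3 3 (qsf 536870912 536870912 1610612736 536870912 3) ndB1q1 ndB1q3 pcB3 Cut.none Ext.none)

def k0_pm_133 : ∃ t, chk3 f_pm_133 t 1 1 1 = true :=
  ⟨(a (b (l 1) (a (a (l 16604808) (l 1)) (l 1))) (l 1)), by decide +kernel⟩

theorem c_pm_133 : CertB 536870912 536870912 1610612736 536870912 649613803 48318383 3 eng mog cd1q1 cd1q3 pd3 false true false .dn 1 3 3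
    ndB1q1 ndB1q3 pcB3 Cut.none Ext.none :=
  certB2 (fam := false) (s1 := true) (s2 := false) (a := 1) (b := 3) (c := 3) (cn := .dn) (n1 := ndB1q1) (n2 := ndB1q3) (pc := pcB3) (cut := Cut.none) (xt := Ext.none) (P1 := 536870912) (W1 := 536870912) (P2 := 1610612736) (W2 := 536870912) (P3 := 649613803) (W3 := 48318383) (N0 := 3) (En := eng) (mo := mog) (C1 := cd1q1) (C2 := cd1q3) (C3 := pd3)
    rfl (fun _ => rfl) k0_pm_133

noncomputable def cut_pm_202_aa : Cut := Cut.of [[⟨0, 1, 0, 67108864⟩, ⟨1, 0, 0, 67108864⟩, ⟨2, 1, 0, 67108864⟩]]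

noncomputable def f_pm_202_aa : ℕ → ℕ → ℕ → ℕ → Bool := onCell 0 536870912 0 536870912 649613803 48318383
    (rowB 3 eng mog cd1q2a cd1q2a pd0 0 false true false .pp 2 0 2 (qsf 0 536870912 0 536870912 0) ndB1q2a ndB1q2a pcB0 cut_pm_202_aa Ext.none)

def k0_pm_202_aa : ∃ t, chk3 f_pm_202_aa t 1 1 1 = true :=
  ⟨(a (l 3) (b (l 3) (a (l 3) (b (l 3) (a (l 3) (b (l 3) (l 6))))))), by decide +kernel⟩

theorem c_pm_202_aa : CertB 0 536870912 0 536870912 649613803 48318383 3 eng mog cd1q2a cd1q2a pd0 false true false .pp 2 0 2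
    ndB1q2a ndB1q2a pcB0 cut_pm_202_aa Ext.none :=
  certB0 (fam := false) (s1 := true) (s2 := false) (a := 2) (b := 0) (c := 2) (cn := .pp) (n1 := ndB1q2a) (n2 := ndB1q2a) (pc := pcB0) (cut := cut_pm_202_aa) (xt := Ext.none) (P1 := 0) (W1 := 536870912) (P2 := 0) (W2 := 536870912) (P3 := 649613803) (W3 := 48318383) (N0 := 3) (En := eng) (mo := mog) (C1 := cd1q2a) (C2 := cd1q2a) (C3 := pd0)
    rfl k0_pm_202_aa

noncomputable def cut_pm_202_ab : Cut := Cut.of [[⟨0, 1, 0, 67108864⟩, ⟨1, 0, 0, 67108864⟩, ⟨2, 1, 0, 67108864⟩]]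

noncomputable def f_pm_202_ab : ℕ → ℕ → ℕ → ℕ → Bool := onCell 0 536870912 1239849684 370763052 649613803 48318383
    (rowB 3 eng mog cd1q2a cd1q2b pd0 0 false true false .pp 2 0 2 (qsf 0 536870912 1239849684 370763052 0) ndB1q2a ndB1q2b pcB0 cut_pm_202_ab Ext.none)

def k0_pm_202_ab : ∃ t, chk3 f_pm_202_ab t 1 1 1 = true :=
  ⟨(l 3), by decide +kernel⟩

theorem c_pm_202_ab : CertB 0 536870912 1239849684 370763052 649613803 48318383 3 eng mog cd1q2a cd1q2b pd0 false true false .pp 2 0 2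
    ndB1q2a ndB1q2b pcB0 cut_pm_202_ab Ext.none :=
  certB0 (fam := false) (s1 := true) (s2 := false) (a := 2) (b := 0) (c := 2) (cn := .pp) (n1 := ndB1q2a) (n2 := ndB1q2b) (pc := pcB0) (cut := cut_pm_202_ab) (xt := Ext.none) (P1 := 0) (W1 := 536870912) (P2 := 1239849684) (W2 := 370763052) (P3 := 649613803) (W3 := 48318383) (N0 := 3) (En := eng) (mo := mog) (C1 := cd1q2a) (C2 := cd1q2b) (C3 := pd0)
    rfl k0_pm_202_ab

noncomputable def cut_pm_202_ba : Cut := Cut.of [[⟨0, 1, 0, 67108864⟩, ⟨1, 0, 0, 67108864⟩, ⟨2, 1, 0, 67108864⟩]]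

noncomputable def f_pm_202_ba : ℕ → ℕ → ℕ → ℕ → Bool := onCell 1239849684 370763052 0 536870912 649613803 48318383
    (rowB 3 eng mog cd1q2b cd1q2a pd0 0 false true false .pp 2 0 2 (qsf 1239849684 370763052 0 536870912 0) ndB1q2b ndB1q2a pcB0 cut_pm_202_ba Ext.none)

def k0_pm_202_ba : ∃ t, chk3 f_pm_202_ba t 1 1 1 = true :=
  ⟨(l 3), by decide +kernel⟩

theorem c_pm_202_ba : CertB 1239849684 370763052 0 536870912 649613803 48318383 3 eng mog cd1q2b cd1q2a pd0 false true false .pp 2 0 2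
    ndB1q2b ndB1q2a pcB0 cut_pm_202_ba Ext.none :=
  certB0 (fam := false) (s1 := true) (s2 := false) (a := 2) (b := 0) (c := 2) (cn := .pp) (n1 := ndB1q2b) (n2 := ndB1q2a) (pc := pcB0) (cut := cut_pm_202_ba) (xt := Ext.none) (P1 := 1239849684) (W1 := 370763052) (P2 := 0) (W2 := 536870912) (P3 := 649613803) (W3 := 48318383) (N0 := 3) (En := eng) (mo := mog) (C1 := cd1q2b) (C2 := cd1q2a) (C3 := pd0)
    rfl k0_pm_202_ba

noncomputable def cut_pm_202_bb : Cut := Cut.of [[⟨0, 1, 0, 67108864⟩, ⟨1, 0, 0, 67108864⟩, ⟨2, 1, 0, 67108864⟩]]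

noncomputable def f_pm_202_bb : ℕ → ℕ → ℕ → ℕ → Bool := onCell 1239849684 370763052 1239849684 370763052 649613803 48318383
    (rowB 3 eng mog cd1q2b cd1q2b pd0 0 false true false .pp 2 0 2 (qsf 1239849684 370763052 1239849684 370763052 0) ndB1q2b ndB1q2b pcB0 cut_pm_202_bb Ext.none)

def k0_pm_202_bb : ∃ t, chk3 f_pm_202_bb t 1 1 1 = true :=
  ⟨(l 3), by decide +kernel⟩

theorem c_pm_202_bb : CertB 1239849684 370763052 1239849684 370763052 649613803 48318383 3 eng mog cd1q2b cd1q2b pd0 false true false .pp 2 0 2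
    ndB1q2b ndB1q2b pcB0 cut_pm_202_bb Ext.none :=
  certB0 (fam := false) (s1 := true) (s2 := false) (a := 2) (b := 0) (c := 2) (cn := .pp) (n1 := ndB1q2b) (n2 := ndB1q2b) (pc := pcB0) (cut := cut_pm_202_bb) (xt := Ext.none) (P1 := 1239849684) (W1 := 370763052) (P2 := 1239849684) (W2 := 370763052) (P3 := 649613803) (W3 := 48318383) (N0 := 3) (En := eng) (mo := mog) (C1 := cd1q2b) (C2 := cd1q2b) (C3 := pd0)
    rfl k0_pm_202_bb

noncomputable def f_pm_203_a : ℕ → ℕ → ℕ → ℕ → Bool := onCell 0 536870912 0 536870912 649613803 48318383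
    (rowB 3 eng mog cd1q2a cd1q3 pd0 1 false true false .up 2 0 3 (qsf 0 536870912 1610612736 536870912 0) ndB1q2a ndB1q3 pcB0 Cut.none Ext.none)

def k0_pm_203_a : ∃ t, chk3 f_pm_203_a t 1 1 1 = true :=
  ⟨(l 3), by decide +kernel⟩

theorem c_pm_203_a : CertB 0 536870912 1610612736 536870912 649613803 48318383 3 eng mog cd1q2a cd1q3 pd0 false true false .up 2 0 3
    ndB1q2a ndB1q3 pcB0 Cut.none Ext.none :=
  certB1 (fam := false) (s1 := true) (s2 := false) (a := 2) (b := 0) (c := 3) (cn := .up) (n1 := ndB1q2a) (n2 := ndB1q3) (pc := pcB0) (cut := Cut.none) (xt := Ext.none) (P1 := 0) (W1 := 536870912) (P2 := 1610612736) (W2 := 536870912) (P3 := 649613803) (W3 := 48318383) (N0 := 3) (En := eng) (mo := mog) (C1 := cd1q2a) (C2 := cd1q3) (C3 := pd0)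
    rfl (fun _ => rfl) k0_pm_203_a

noncomputable def f_pm_203_b : ℕ → ℕ → ℕ → ℕ → Bool := onCell 1239849684 370763052 1610612736 536870912 649613803 48318383
    (rowB 3 eng mog cd1q2b cd1q3 pd0 0 false true false .up 2 0 3 (qsf 1239849684 370763052 1610612736 536870912 0) ndB1q2b ndB1q3 pcB0 Cut.none Ext.none)

def k0_pm_203_b : ∃ t, chk3 f_pm_203_b t 1 1 1 = true :=
  ⟨(l 3), by decide +kernel⟩

theorem c_pm_203_b : CertB 1239849684 370763052 1610612736 536870912 649613803 48318383 3 eng mog cd1q2b cd1q3 pd0 false true false .up 2 0 3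
    ndB1q2b ndB1q3 pcB0 Cut.none Ext.none :=
  certB0 (fam := false) (s1 := true) (s2 := false) (a := 2) (b := 0) (c := 3) (cn := .up) (n1 := ndB1q2b) (n2 := ndB1q3) (pc := pcB0) (cut := Cut.none) (xt := Ext.none) (P1 := 1239849684) (W1 := 370763052) (P2 := 1610612736) (W2 := 536870912) (P3 := 649613803) (W3 := 48318383) (N0 := 3) (En := eng) (mo := mog) (C1 := cd1q2b) (C2 := cd1q3) (C3 := pd0)
    rfl k0_pm_203_b

noncomputable def cut_pm_213_a : Cut := Cut.of [[⟨0, 1, 0, 67108864⟩, ⟨1, 1, 0, 67108864⟩, ⟨2, 2, 0, 16777216⟩]]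

noncomputable def f_pm_213_a : ℕ → ℕ → ℕ → ℕ → Bool := onCell 0 536870912 1610612736 536870912 649613803 48318383
    (rowB 3 eng mog cd1q2a cd1q3 pd1 0 false true false .pnn 2 1 3 (qsf 0 536870912 1610612736 536870912 1) ndB1q2a ndB1q3 pcB1 cut_pm_213_a Ext.none)

def k0_pm_213_a : ∃ t, chk3 f_pm_213_a t 1 1 1 = true :=
  ⟨(b (l 3) (a (l 3) (b (l 3) (a (l 3) (b (l 3) (a (l 3) (b (l 3) (b (l 3) (b (l 3) (l 6)))))))))), by decide +kernel⟩

theorem c_pm_213_a : CertB 0 536870912 1610612736 536870912 649613803 48318383 3 eng mog cd1q2a cd1q3 pd1 false true false .pnn 2 1 3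
    ndB1q2a ndB1q3 pcB1 cut_pm_213_a Ext.none :=
  certB0 (fam := false) (s1 := true) (s2 := false) (a := 2) (b := 1) (c := 3) (cn := .pnn) (n1 := ndB1q2a) (n2 := ndB1q3) (pc := pcB1) (cut := cut_pm_213_a) (xt := Ext.none) (P1 := 0) (W1 := 536870912) (P2 := 1610612736) (W2 := 536870912) (P3 := 649613803) (W3 := 48318383) (N0 := 3) (En := eng) (mo := mog) (C1 := cd1q2a) (C2 := cd1q3) (C3 := pd1)
    rfl k0_pm_213_a

noncomputable def cut_pm_213_b : Cut := Cut.of [[⟨0, 1, 0, 67108864⟩, ⟨1, 1, 0, 67108864⟩, ⟨2, 2, 0, 16777216⟩]]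

noncomputable def f_pm_213_b : ℕ → ℕ → ℕ → ℕ → Bool := onCell 1239849684 370763052 1610612736 536870912 649613803 48318383
    (rowB 3 eng mog cd1q2b cd1q3 pd1 0 false true false .pnn 2 1 3 (qsf 1239849684 370763052 1610612736 536870912 1) ndB1q2b ndB1q3 pcB1 cut_pm_213_b Ext.none)

def k0_pm_213_b : ∃ t, chk3 f_pm_213_b t 1 1 1 = true :=
  ⟨(l 3), by decide +kernel⟩

theorem c_pm_213_b : CertB 1239849684 370763052 1610612736 536870912 649613803 48318383 3 eng mog cd1q2b cd1q3 pd1 false true false .pnn 2 1 3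
    ndB1q2b ndB1q3 pcB1 cut_pm_213_b Ext.none :=
  certB0 (fam := false) (s1 := true) (s2 := false) (a := 2) (b := 1) (c := 3) (cn := .pnn) (n1 := ndB1q2b) (n2 := ndB1q3) (pc := pcB1) (cut := cut_pm_213_b) (xt := Ext.none) (P1 := 1239849684) (W1 := 370763052) (P2 := 1610612736) (W2 := 536870912) (P3 := 649613803) (W3 := 48318383) (N0 := 3) (En := eng) (mo := mog) (C1 := cd1q2b) (C2 := cd1q3) (C3 := pd1)
    rfl k0_pm_213_b

noncomputable def f_pm_303 : ℕ → ℕ → ℕ → ℕ → Bool := onCell 1610612736 536870912 1610612736 536870912 649613803 48318383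
    (rowB 3 eng mog cd1q3 cd1q3 pd0 0 false true false .npn 3 0 3 (qsf 1610612736 536870912 1610612736 536870912 0) ndB1q3 ndB1q3 pcB0 Cut.none Ext.none)

def k0_pm_303 : ∃ t, chk3 f_pm_303 t 1 1 1 = true :=
  ⟨(l 3), by decide +kernel⟩

theorem c_pm_303 : CertB 1610612736 536870912 1610612736 536870912 649613803 48318383 3 eng mog cd1q3 cd1q3 pd0 false true false .npn 3 0 3
    ndB1q3 ndB1q3 pcB0 Cut.none Ext.none :=
  certB0 (fam := false) (s1 := true) (s2 := false) (a := 3) (b := 0) (c := 3) (cn := .npn) (n1 := ndB1q3) (n2 := ndB1q3) (pc := pcB0) (cut := Cut.none) (xt := Ext.none) (P1 := 1610612736) (W1 := 536870912) (P2 := 1610612736) (W2 := 536870912) (P3 := 649613803) (W3 := 48318383) (N0 := 3) (En := eng) (mo := mog) (C1 := cd1q3) (C2 := cd1q3) (C3 := pd0)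
    rfl k0_pm_303

noncomputable def f_pm_313 : ℕ → ℕ → ℕ → ℕ → Bool := onCell 1610612736 536870912 1610612736 536870912 649613803 48318383
    (rowB 3 eng mog cd1q3 cd1q3 pd1 0 false true false .dn 3 1 3 (qsf 1610612736 536870912 1610612736 536870912 1) ndB1q3 ndB1q3 pcB1 Cut.none Ext.none)

def k0_pm_313 : ∃ t, chk3 f_pm_313 t 1 1 1 = true :=
  ⟨(l 3), by decide +kernel⟩

theorem c_pm_313 : CertB 1610612736 536870912 1610612736 536870912 649613803 48318383 3 eng mog cd1q3 cd1q3 pd1 false true false .dn 3 1 3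
    ndB1q3 ndB1q3 pcB1 Cut.none Ext.none :=
  certB0 (fam := false) (s1 := true) (s2 := false) (a := 3) (b := 1) (c := 3) (cn := .dn) (n1 := ndB1q3) (n2 := ndB1q3) (pc := pcB1) (cut := Cut.none) (xt := Ext.none) (P1 := 1610612736) (W1 := 536870912) (P2 := 1610612736) (W2 := 536870912) (P3 := 649613803) (W3 := 48318383) (N0 := 3) (En := eng) (mo := mog) (C1 := cd1q3) (C2 := cd1q3) (C3 := pd1)
    rfl k0_pm_313

noncomputable def f_mm_001 : ℕ → ℕ → ℕ → ℕ → Bool := onCell 0 536870912 0 536870912 649613803 48318383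
    (rowB 3 eng mog cd1q0 cd1q1 pd0 1 false false false .up 0 0 1 (qsf 0 536870912 536870912 536870912 0) ndB1q0 ndB1q1 pcB0 Cut.none Ext.none)

def k0_mm_001 : ∃ t, chk3 f_mm_001 t 1 1 1 = true :=
  ⟨(l 3), by decide +kernel⟩

theorem c_mm_001 : CertB 0 536870912 536870912 536870912 649613803 48318383 3 eng mog cd1q0 cd1q1 pd0 false false false .up 0 0 1
    ndB1q0 ndB1q1 pcB0 Cut.none Ext.none :=
  certB1 (fam := false) (s1 := false) (s2 := false) (a := 0) (b := 0) (c := 1) (cn := .up) (n1 := ndB1q0) (n2 := ndB1q1) (pc := pcB0) (cut := Cut.none) (xt := Ext.none) (P1 := 0) (W1 := 536870912) (P2 := 536870912) (W2 := 536870912) (P3 := 649613803) (W3 := 48318383) (N0 := 3) (En := eng) (mo := mog) (C1 := cd1q0) (C2 := cd1q1) (C3 := pd0)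
    rfl (fun _ => rfl) k0_mm_001

noncomputable def f_mm_011 : ℕ → ℕ → ℕ → ℕ → Bool := onCell 0 536870912 536870912 536870912 649613803 48318383
    (rowB 3 eng mog cd1q0 cd1q1 pd1 1 false false false .pnn 0 1 1 (qsf 0 536870912 536870912 536870912 1) ndB1q0 ndB1q1 pcB1 Cut.none Ext.none)

def k0_mm_011 : ∃ t, chk3 f_mm_011 t 1 1 1 = true :=
  ⟨(l 5), by decide +kernel⟩

theorem c_mm_011 : CertB 0 536870912 536870912 536870912 649613803 48318383 3 eng mog cd1q0 cd1q1 pd1 false false false .pnn 0 1 1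
    ndB1q0 ndB1q1 pcB1 Cut.none Ext.none :=
  certB1 (fam := false) (s1 := false) (s2 := false) (a := 0) (b := 1) (c := 1) (cn := .pnn) (n1 := ndB1q0) (n2 := ndB1q1) (pc := pcB1) (cut := Cut.none) (xt := Ext.none) (P1 := 0) (W1 := 536870912) (P2 := 536870912) (W2 := 536870912) (P3 := 649613803) (W3 := 48318383) (N0 := 3) (En := eng) (mo := mog) (C1 := cd1q0) (C2 := cd1q1) (C3 := pd1)
    rfl (fun _ => rfl) k0_mm_011

noncomputable def f_mm_012_a : ℕ → ℕ → ℕ → ℕ → Bool := onCell 0 536870912 0 536870912 649613803 48318383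
    (rowB 3 eng mog cd1q0 cd1q2a pd1 0 false false false .pnp 0 1 2 (qsf 0 536870912 0 536870912 1) ndB1q0 ndB1q2a pcB1 Cut.none Ext.none)

def k0_mm_012_a : ∃ t, chk3 f_mm_012_a t 1 1 1 = true :=
  ⟨(l 5), by decide +kernel⟩

theorem c_mm_012_a : CertB 0 536870912 0 536870912 649613803 48318383 3 eng mog cd1q0 cd1q2a pd1 false false false .pnp 0 1 2
    ndB1q0 ndB1q2a pcB1 Cut.none Ext.none :=
  certB0 (fam := false) (s1 := false) (s2 := false) (a := 0) (b := 1) (c := 2) (cn := .pnp) (n1 := ndB1q0) (n2 := ndB1q2a) (pc := pcB1) (cut := Cut.none) (xt := Ext.none) (P1 := 0) (W1 := 536870912) (P2 := 0) (W2 := 536870912) (P3 := 649613803) (W3 := 48318383) (N0 := 3) (En := eng) (mo := mog) (C1 := cd1q0) (C2 := cd1q2a) (C3 := pd1)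
    rfl k0_mm_012_a

noncomputable def f_mm_012_b : ℕ → ℕ → ℕ → ℕ → Bool := onCell 0 536870912 1239849684 370763052 649613803 48318383
    (rowB 3 eng mog cd1q0 cd1q2b pd1 0 false false false .pnp 0 1 2 (qsf 0 536870912 1239849684 370763052 1) ndB1q0 ndB1q2b pcB1 Cut.none Ext.none)

def k0_mm_012_b : ∃ t, chk3 f_mm_012_b t 1 1 1 = true :=
  ⟨(l 5), by decide +kernel⟩

theorem c_mm_012_b : CertB 0 536870912 1239849684 370763052 649613803 48318383 3 eng mog cd1q0 cd1q2b pd1 false false false .pnp 0 1 2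
    ndB1q0 ndB1q2b pcB1 Cut.none Ext.none :=
  certB0 (fam := false) (s1 := false) (s2 := false) (a := 0) (b := 1) (c := 2) (cn := .pnp) (n1 := ndB1q0) (n2 := ndB1q2b) (pc := pcB1) (cut := Cut.none) (xt := Ext.none) (P1 := 0) (W1 := 536870912) (P2 := 1239849684) (W2 := 370763052) (P3 := 649613803) (W3 := 48318383) (N0 := 3) (En := eng) (mo := mog) (C1 := cd1q0) (C2 := cd1q2b) (C3 := pd1)
    rfl k0_mm_012_b

noncomputable def f_mm_022_a : ℕ → ℕ → ℕ → ℕ → Bool := onCell 0 536870912 0 536870912 649613803 48318383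
    (rowB 3 eng mog cd1q0 cd1q2a pd2 0 false false false .pp 0 2 2 (qsf 0 536870912 0 536870912 2) ndB1q0 ndB1q2a pcB2 Cut.none Ext.none)

def k0_mm_022_a : ∃ t, chk3 f_mm_022_a t 1 1 1 = true :=
  ⟨(l 5), by decide +kernel⟩

theorem c_mm_022_a : CertB 0 536870912 0 536870912 649613803 48318383 3 eng mog cd1q0 cd1q2a pd2 false false false .pp 0 2 2
    ndB1q0 ndB1q2a pcB2 Cut.none Ext.none :=
  certB0 (fam := false) (s1 := false) (s2 := false) (a := 0) (b := 2) (c := 2) (cn := .pp) (n1 := ndB1q0) (n2 := ndB1q2a) (pc := pcB2) (cut := Cut.none) (xt := Ext.none) (P1 := 0) (W1 := 536870912) (P2 := 0) (W2 := 536870912) (P3 := 649613803) (W3 := 48318383) (N0 := 3) (En := eng) (mo := mog) (C1 := cd1q0) (C2 := cd1q2a) (C3 := pd2)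
    rfl k0_mm_022_a

noncomputable def f_mm_022_b : ℕ → ℕ → ℕ → ℕ → Bool := onCell 0 536870912 1239849684 370763052 649613803 48318383
    (rowB 3 eng mog cd1q0 cd1q2b pd2 0 false false false .pp 0 2 2 (qsf 0 536870912 1239849684 370763052 2) ndB1q0 ndB1q2b pcB2 Cut.none Ext.none)

def k0_mm_022_b : ∃ t, chk3 f_mm_022_b t 1 1 1 = true :=
  ⟨(l 5), by decide +kernel⟩

theorem c_mm_022_b : CertB 0 536870912 1239849684 370763052 649613803 48318383 3 eng mog cd1q0 cd1q2b pd2 false false false .pp 0 2 2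
    ndB1q0 ndB1q2b pcB2 Cut.none Ext.none :=
  certB0 (fam := false) (s1 := false) (s2 := false) (a := 0) (b := 2) (c := 2) (cn := .pp) (n1 := ndB1q0) (n2 := ndB1q2b) (pc := pcB2) (cut := Cut.none) (xt := Ext.none) (P1 := 0) (W1 := 536870912) (P2 := 1239849684) (W2 := 370763052) (P3 := 649613803) (W3 := 48318383) (N0 := 3) (En := eng) (mo := mog) (C1 := cd1q0) (C2 := cd1q2b) (C3 := pd2)
    rfl k0_mm_022_b

noncomputable def f_mm_023 : ℕ → ℕ → ℕ → ℕ → Bool := onCell 0 536870912 1610612736 536870912 649613803 48318383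
    (rowB 3 eng mog cd1q0 cd1q3 pd2 0 false false false .up 0 2 3 (qsf 0 536870912 1610612736 536870912 2) ndB1q0 ndB1q3 pcB2 Cut.none Ext.none)

def k0_mm_023 : ∃ t, chk3 f_mm_023 t 1 1 1 = true :=
  ⟨(l 5), by decide +kernel⟩

theorem c_mm_023 : CertB 0 536870912 1610612736 536870912 649613803 48318383 3 eng mog cd1q0 cd1q3 pd2 false false false .up 0 2 3
    ndB1q0 ndB1q3 pcB2 Cut.none Ext.none :=
  certB0 (fam := false) (s1 := false) (s2 := false) (a := 0) (b := 2) (c := 3) (cn := .up) (n1 := ndB1q0) (n2 := ndB1q3) (pc := pcB2) (cut := Cut.none) (xt := Ext.none) (P1 := 0) (W1 := 536870912) (P2 := 1610612736) (W2 := 536870912) (P3 := 649613803) (W3 := 48318383) (N0 := 3) (En := eng) (mo := mog) (C1 := cd1q0) (C2 := cd1q3) (C3 := pd2)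
    rfl k0_mm_023

noncomputable def f_mm_033 : ℕ → ℕ → ℕ → ℕ → Bool := onCell 0 536870912 1610612736 536870912 649613803 48318383
    (rowB 3 eng mog cd1q0 cd1q3 pd3 0 false false false .pnn 0 3 3 (qsf 0 536870912 1610612736 536870912 3) ndB1q0 ndB1q3 pcB3 Cut.none Ext.none)

def k0_mm_033 : ∃ t, chk3 f_mm_033 t 1 1 1 = true :=
  ⟨(l 5), by decide +kernel⟩

theorem c_mm_033 : CertB 0 536870912 1610612736 536870912 649613803 48318383 3 eng mog cd1q0 cd1q3 pd3 false false false .pnn 0 3 3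
    ndB1q0 ndB1q3 pcB3 Cut.none Ext.none :=
  certB0 (fam := false) (s1 := false) (s2 := false) (a := 0) (b := 3) (c := 3) (cn := .pnn) (n1 := ndB1q0) (n2 := ndB1q3) (pc := pcB3) (cut := Cut.none) (xt := Ext.none) (P1 := 0) (W1 := 536870912) (P2 := 1610612736) (W2 := 536870912) (P3 := 649613803) (W3 := 48318383) (N0 := 3) (En := eng) (mo := mog) (C1 := cd1q0) (C2 := cd1q3) (C3 := pd3)
    rfl k0_mm_033

noncomputable def f_mm_101 : ℕ → ℕ → ℕ → ℕ → Bool := onCell 536870912 536870912 536870912 536870912 649613803 48318383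
    (rowB 3 eng mog cd1q1 cd1q1 pd0 0 false false false .npn 1 0 1 (qsf 536870912 536870912 536870912 536870912 0) ndB1q1 ndB1q1 pcB0 Cut.none Ext.none)

def k0_mm_101 : ∃ t, chk3 f_mm_101 t 1 1 1 = true :=
  ⟨(l 3), by decide +kernel⟩

theorem c_mm_101 : CertB 536870912 536870912 536870912 536870912 649613803 48318383 3 eng mog cd1q1 cd1q1 pd0 false false false .npn 1 0 1
    ndB1q1 ndB1q1 pcB0 Cut.none Ext.none :=
  certB0 (fam := false) (s1 := false) (s2 := false) (a := 1) (b := 0) (c := 1) (cn := .npn) (n1 := ndB1q1) (n2 := ndB1q1) (pc := pcB0) (cut := Cut.none) (xt := Ext.none) (P1 := 536870912) (W1 := 536870912) (P2 := 536870912) (W2 := 536870912) (P3 := 649613803) (W3 := 48318383) (N0 := 3) (En := eng) (mo := mog) (C1 := cd1q1) (C2 := cd1q1) (C3 := pd0)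
    rfl k0_mm_101

noncomputable def f_mm_102_a : ℕ → ℕ → ℕ → ℕ → Bool := onCell 536870912 536870912 0 536870912 649613803 48318383
    (rowB 3 eng mog cd1q1 cd1q2a pd0 0 false false false .npp 1 0 2 (qsf 536870912 536870912 0 536870912 0) ndB1q1 ndB1q2a pcB0 Cut.none Ext.none)

def k0_mm_102_a : ∃ t, chk3 f_mm_102_a t 1 1 1 = true :=
  ⟨(l 5), by decide +kernel⟩

theorem c_mm_102_a : CertB 536870912 536870912 0 536870912 649613803 48318383 3 eng mog cd1q1 cd1q2a pd0 false false false .npp 1 0 2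
    ndB1q1 ndB1q2a pcB0 Cut.none Ext.none :=
  certB0 (fam := false) (s1 := false) (s2 := false) (a := 1) (b := 0) (c := 2) (cn := .npp) (n1 := ndB1q1) (n2 := ndB1q2a) (pc := pcB0) (cut := Cut.none) (xt := Ext.none) (P1 := 536870912) (W1 := 536870912) (P2 := 0) (W2 := 536870912) (P3 := 649613803) (W3 := 48318383) (N0 := 3) (En := eng) (mo := mog) (C1 := cd1q1) (C2 := cd1q2a) (C3 := pd0)
    rfl k0_mm_102_a

noncomputable def f_mm_102_b : ℕ → ℕ → ℕ → ℕ → Bool := onCell 536870912 536870912 1239849684 370763052 649613803 48318383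
    (rowB 3 eng mog cd1q1 cd1q2b pd0 0 false false false .npp 1 0 2 (qsf 536870912 536870912 1239849684 370763052 0) ndB1q1 ndB1q2b pcB0 Cut.none Ext.none)

def k0_mm_102_b : ∃ t, chk3 f_mm_102_b t 1 1 1 = true :=
  ⟨(l 5), by decide +kernel⟩

theorem c_mm_102_b : CertB 536870912 536870912 1239849684 370763052 649613803 48318383 3 eng mog cd1q1 cd1q2b pd0 false false false .npp 1 0 2
    ndB1q1 ndB1q2b pcB0 Cut.none Ext.none :=
  certB0 (fam := false) (s1 := false) (s2 := false) (a := 1) (b := 0) (c := 2) (cn := .npp) (n1 := ndB1q1) (n2 := ndB1q2b) (pc := pcB0) (cut := Cut.none) (xt := Ext.none) (P1 := 536870912) (W1 := 536870912) (P2 := 1239849684) (W2 := 370763052) (P3 := 649613803) (W3 := 48318383) (N0 := 3) (En := eng) (mo := mog) (C1 := cd1q1) (C2 := cd1q2b) (C3 := pd0)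
    rfl k0_mm_102_b

noncomputable def f_mm_112_a : ℕ → ℕ → ℕ → ℕ → Bool := onCell 536870912 536870912 0 536870912 649613803 48318383
    (rowB 3 eng mog cd1q1 cd1q2a pd1 0 false false false .dn 1 1 2 (qsf 536870912 536870912 0 536870912 1) ndB1q1 ndB1q2a pcB1 Cut.none Ext.none)

def k0_mm_112_a : ∃ t, chk3 f_mm_112_a t 1 1 1 = true :=
  ⟨(l 5), by decide +kernel⟩

theorem c_mm_112_a : CertB 536870912 536870912 0 536870912 649613803 48318383 3 eng mog cd1q1 cd1q2a pd1 false false false .dn 1 1 2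
    ndB1q1 ndB1q2a pcB1 Cut.none Ext.none :=
  certB0 (fam := false) (s1 := false) (s2 := false) (a := 1) (b := 1) (c := 2) (cn := .dn) (n1 := ndB1q1) (n2 := ndB1q2a) (pc := pcB1) (cut := Cut.none) (xt := Ext.none) (P1 := 536870912) (W1 := 536870912) (P2 := 0) (W2 := 536870912) (P3 := 649613803) (W3 := 48318383) (N0 := 3) (En := eng) (mo := mog) (C1 := cd1q1) (C2 := cd1q2a) (C3 := pd1)
    rfl k0_mm_112_a

noncomputable def f_mm_112_b : ℕ → ℕ → ℕ → ℕ → Bool := onCell 536870912 536870912 1239849684 370763052 649613803 48318383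
    (rowB 3 eng mog cd1q1 cd1q2b pd1 0 false false false .dn 1 1 2 (qsf 536870912 536870912 1239849684 370763052 1) ndB1q1 ndB1q2b pcB1 Cut.none Ext.none)

def k0_mm_112_b : ∃ t, chk3 f_mm_112_b t 1 1 1 = true :=
  ⟨(l 5), by decide +kernel⟩

theorem c_mm_112_b : CertB 536870912 536870912 1239849684 370763052 649613803 48318383 3 eng mog cd1q1 cd1q2b pd1 false false false .dn 1 1 2
    ndB1q1 ndB1q2b pcB1 Cut.none Ext.none :=
  certB0 (fam := false) (s1 := false) (s2 := false) (a := 1) (b := 1) (c := 2) (cn := .dn) (n1 := ndB1q1) (n2 := ndB1q2b) (pc := pcB1) (cut := Cut.none) (xt := Ext.none) (P1 := 536870912) (W1 := 536870912) (P2 := 1239849684) (W2 := 370763052) (P3 := 649613803) (W3 := 48318383) (N0 := 3) (En := eng) (mo := mog) (C1 := cd1q1) (C2 := cd1q2b) (C3 := pd1)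
    rfl k0_mm_112_b

noncomputable def f_mm_113 : ℕ → ℕ → ℕ → ℕ → Bool := onCell 536870912 536870912 1610612736 536870912 649613803 48318383
    (rowB 3 eng mog cd1q1 cd1q3 pd1 0 false false false .nn 1 1 3 (qsf 536870912 536870912 1610612736 536870912 1) ndB1q1 ndB1q3 pcB1 Cut.none Ext.none)

def k0_mm_113 : ∃ t, chk3 f_mm_113 t 1 1 1 = true :=
  ⟨(l 5), by decide +kernel⟩

theorem c_mm_113 : CertB 536870912 536870912 1610612736 536870912 649613803 48318383 3 eng mog cd1q1 cd1q3 pd1 false false false .nn 1 1 3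
    ndB1q1 ndB1q3 pcB1 Cut.none Ext.none :=
  certB0 (fam := false) (s1 := false) (s2 := false) (a := 1) (b := 1) (c := 3) (cn := .nn) (n1 := ndB1q1) (n2 := ndB1q3) (pc := pcB1) (cut := Cut.none) (xt := Ext.none) (P1 := 536870912) (W1 := 536870912) (P2 := 1610612736) (W2 := 536870912) (P3 := 649613803) (W3 := 48318383) (N0 := 3) (En := eng) (mo := mog) (C1 := cd1q1) (C2 := cd1q3) (C3 := pd1)
    rfl k0_mm_113

noncomputable def f_mm_123 : ℕ → ℕ → ℕ → ℕ → Bool := onCell 536870912 536870912 1610612736 536870912 649613803 48318383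
    (rowB 3 eng mog cd1q1 cd1q3 pd2 0 false false false .npn 1 2 3 (qsf 536870912 536870912 1610612736 536870912 2) ndB1q1 ndB1q3 pcB2 Cut.none Ext.none)

def k0_mm_123 : ∃ t, chk3 f_mm_123 t 1 1 1 = true :=
  ⟨(l 5), by decide +kernel⟩

theorem c_mm_123 : CertB 536870912 536870912 1610612736 536870912 649613803 48318383 3 eng mog cd1q1 cd1q3 pd2 false false false .npn 1 2 3
    ndB1q1 ndB1q3 pcB2 Cut.none Ext.none :=
  certB0 (fam := false) (s1 := false) (s2 := false) (a := 1) (b := 2) (c := 3) (cn := .npn) (n1 := ndB1q1) (n2 := ndB1q3) (pc := pcB2) (cut := Cut.none) (xt := Ext.none) (P1 := 536870912) (W1 := 536870912) (P2 := 1610612736) (W2 := 536870912) (P3 := 649613803) (W3 := 48318383) (N0 := 3) (En := eng) (mo := mog) (C1 := cd1q1) (C2 := cd1q3) (C3 := pd2)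
    rfl k0_mm_123

noncomputable def f_mm_133 : ℕ → ℕ → ℕ → ℕ → Bool := onCell 536870912 536870912 1610612736 536870912 649613803 48318383
    (rowB 3 eng mog cd1q1 cd1q3 pd3 0 false false false .dn 1 3 3 (qsf 536870912 536870912 1610612736 536870912 3) ndB1q1 ndB1q3 pcB3 Cut.none Ext.none)

def k0_mm_133 : ∃ t, chk3 f_mm_133 t 1 1 1 = true :=
  ⟨(l 5), by decide +kernel⟩

theorem c_mm_133 : CertB 536870912 536870912 1610612736 536870912 649613803 48318383 3 eng mog cd1q1 cd1q3 pd3 false false false .dn 1 3 3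
    ndB1q1 ndB1q3 pcB3 Cut.none Ext.none :=
  certB0 (fam := false) (s1 := false) (s2 := false) (a := 1) (b := 3) (c := 3) (cn := .dn) (n1 := ndB1q1) (n2 := ndB1q3) (pc := pcB3) (cut := Cut.none) (xt := Ext.none) (P1 := 536870912) (W1 := 536870912) (P2 := 1610612736) (W2 := 536870912) (P3 := 649613803) (W3 := 48318383) (N0 := 3) (En := eng) (mo := mog) (C1 := cd1q1) (C2 := cd1q3) (C3 := pd3)
    rfl k0_mm_133

noncomputable def f_mm_202_aa : ℕ → ℕ → ℕ → ℕ → Bool := onCell 0 536870912 0 536870912 649613803 48318383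
    (rowB 3 eng mog cd1q2a cd1q2a pd0 0 false false false .pp 2 0 2 (qsf 0 536870912 0 536870912 0) ndB1q2a ndB1q2a pcB0 Cut.none Ext.none)

def k0_mm_202_aa : ∃ t, chk3 f_mm_202_aa t 1 1 1 = true :=
  ⟨(l 3), by decide +kernel⟩

theorem c_mm_202_aa : CertB 0 536870912 0 536870912 649613803 48318383 3 eng mog cd1q2a cd1q2a pd0 false false false .pp 2 0 2
    ndB1q2a ndB1q2a pcB0 Cut.none Ext.none :=
  certB0 (fam := false) (s1 := false) (s2 := false) (a := 2) (b := 0) (c := 2) (cn := .pp) (n1 := ndB1q2a) (n2 := ndB1q2a) (pc := pcB0) (cut := Cut.none) (xt := Ext.none) (P1 := 0) (W1 := 536870912) (P2 := 0) (W2 := 536870912) (P3 := 649613803) (W3 := 48318383) (N0 := 3) (En := eng) (mo := mog) (C1 := cd1q2a) (C2 := cd1q2a) (C3 := pd0)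
    rfl k0_mm_202_aa

noncomputable def f_mm_202_ab : ℕ → ℕ → ℕ → ℕ → Bool := onCell 0 536870912 1239849684 370763052 649613803 48318383
    (rowB 3 eng mog cd1q2a cd1q2b pd0 0 false false false .pp 2 0 2 (qsf 0 536870912 1239849684 370763052 0) ndB1q2a ndB1q2b pcB0 Cut.none Ext.none)

def k0_mm_202_ab : ∃ t, chk3 f_mm_202_ab t 1 1 1 = true :=
  ⟨(l 3), by decide +kernel⟩

theorem c_mm_202_ab : CertB 0 536870912 1239849684 370763052 649613803 48318383 3 eng mog cd1q2a cd1q2b pd0 false false false .pp 2 0 2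
    ndB1q2a ndB1q2b pcB0 Cut.none Ext.none :=
  certB0 (fam := false) (s1 := false) (s2 := false) (a := 2) (b := 0) (c := 2) (cn := .pp) (n1 := ndB1q2a) (n2 := ndB1q2b) (pc := pcB0) (cut := Cut.none) (xt := Ext.none) (P1 := 0) (W1 := 536870912) (P2 := 1239849684) (W2 := 370763052) (P3 := 649613803) (W3 := 48318383) (N0 := 3) (En := eng) (mo := mog) (C1 := cd1q2a) (C2 := cd1q2b) (C3 := pd0)
    rfl k0_mm_202_ab

noncomputable def f_mm_202_ba : ℕ → ℕ → ℕ → ℕ → Bool := onCell 1239849684 370763052 0 536870912 649613803 48318383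
    (rowB 3 eng mog cd1q2b cd1q2a pd0 0 false false false .pp 2 0 2 (qsf 1239849684 370763052 0 536870912 0) ndB1q2b ndB1q2a pcB0 Cut.none Ext.none)

def k0_mm_202_ba : ∃ t, chk3 f_mm_202_ba t 1 1 1 = true :=
  ⟨(l 3), by decide +kernel⟩

theorem c_mm_202_ba : CertB 1239849684 370763052 0 536870912 649613803 48318383 3 eng mog cd1q2b cd1q2a pd0 false false false .pp 2 0 2
    ndB1q2b ndB1q2a pcB0 Cut.none Ext.none :=
  certB0 (fam := false) (s1 := false) (s2 := false) (a := 2) (b := 0) (c := 2) (cn := .pp) (n1 := ndB1q2b) (n2 := ndB1q2a) (pc := pcB0) (cut := Cut.none) (xt := Ext.none) (P1 := 1239849684) (W1 := 370763052) (P2 := 0) (W2 := 536870912) (P3 := 649613803) (W3 := 48318383) (N0 := 3) (En := eng) (mo := mog) (C1 := cd1q2b) (C2 := cd1q2a) (C3 := pd0)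
    rfl k0_mm_202_ba

end Pool.Agent.Strip051.G.I6050_6500.Tab.C.BB11

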