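import Pool.Agent.Strip051.G.I6050_6500.Tab
import Pool.Agent.Strip051.PB.ExtD2

/-! # Certificates B31 (generated) -/

set_option linter.all false
set_option maxRecDepth 100000

namespace Pool.Agent.Strip051.G.I6050_6500.Tab.C.BB11

open Pool.Agent.Strip051.PB Pool.Agent.Strip051.PB.T
open Pool.Agent.Strip051.G.I6050_6500.Tab

noncomputable def f_mm_202_bb : ℕ → ℕ → ℕ → ℕ → Bool := onCell 1239849684 370763052 1239849684 370763052 649613803 48318383
    (rowB 3 eng mog cd1q2b cd1q2b pd0 0 false false false .pp 2 0 2 (qsf 1239849684 370763052 1239849684 370763052 0) ndB1q2b ndB1q2b pcB0 Cut.none Ext.none)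

def k0_mm_202_bb : ∃ t, chk3 f_mm_202_bb t 1 1 1 = true :=
  ⟨(l 3), by decide +kernel⟩

theorem c_mm_202_bb : CertB 1239849684 370763052 1239849684 370763052 649613803 48318383 3 eng mog cd1q2b cd1q2b pd0 false false false .pp 2 0 2
    ndB1q2b ndB1q2b pcB0 Cut.none Ext.none :=
  certB0 (fam := false) (s1 := false) (s2 := false) (a := 2) (b := 0) (c := 2) (cn := .pp) (n1 := ndB1q2b) (n2 := ndB1q2b) (pc := pcB0) (cut := Cut.none) (xt := Ext.none) (P1 := 1239849684) (W1 := 370763052) (P2 := 1239849684) (W2 := 370763052) (P3 := 649613803) (W3 := 48318383) (N0 := 3) (En := eng) (mo := mog) (C1 := cd1q2b) (C2 := cd1q2b) (C3 := pd0)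
    rfl k0_mm_202_bb

noncomputable def f_mm_203_a : ℕ → ℕ → ℕ → ℕ → Bool := onCell 0 536870912 0 536870912 649613803 48318383
    (rowB 3 eng mog cd1q2a cd1q3 pd0 1 false false false .up 2 0 3 (qsf 0 536870912 1610612736 536870912 0) ndB1q2a ndB1q3 pcB0 Cut.none Ext.none)

def k0_mm_203_a : ∃ t, chk3 f_mm_203_a t 1 1 1 = true :=
  ⟨(l 3), by decide +kernel⟩

theorem c_mm_203_a : CertB 0 536870912 1610612736 536870912 649613803 48318383 3 eng mog cd1q2a cd1q3 pd0 false false false .up 2 0 3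
    ndB1q2a ndB1q3 pcB0 Cut.none Ext.none :=
  certB1 (fam := false) (s1 := false) (s2 := false) (a := 2) (b := 0) (c := 3) (cn := .up) (n1 := ndB1q2a) (n2 := ndB1q3) (pc := pcB0) (cut := Cut.none) (xt := Ext.none) (P1 := 0) (W1 := 536870912) (P2 := 1610612736) (W2 := 536870912) (P3 := 649613803) (W3 := 48318383) (N0 := 3) (En := eng) (mo := mog) (C1 := cd1q2a) (C2 := cd1q3) (C3 := pd0)
    rfl (fun _ => rfl) k0_mm_203_a

noncomputable def f_mm_203_b : ℕ → ℕ → ℕ → ℕ → Bool := onCell 1239849684 370763052 1610612736 536870912 649613803 48318383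
    (rowB 3 eng mog cd1q2b cd1q3 pd0 0 false false false .up 2 0 3 (qsf 1239849684 370763052 1610612736 536870912 0) ndB1q2b ndB1q3 pcB0 Cut.none Ext.none)

def k0_mm_203_b : ∃ t, chk3 f_mm_203_b t 1 1 1 = true :=
  ⟨(l 3), by decide +kernel⟩

theorem c_mm_203_b : CertB 1239849684 370763052 1610612736 536870912 649613803 48318383 3 eng mog cd1q2b cd1q3 pd0 false false false .up 2 0 3
    ndB1q2b ndB1q3 pcB0 Cut.none Ext.none :=
  certB0 (fam := false) (s1 := false) (s2 := false) (a := 2) (b := 0) (c := 3) (cn := .up) (n1 := ndB1q2b) (n2 := ndB1q3) (pc := pcB0) (cut := Cut.none) (xt := Ext.none) (P1 := 1239849684) (W1 := 370763052) (P2 := 1610612736) (W2 := 536870912) (P3 := 649613803) (W3 := 48318383) (N0 := 3) (En := eng) (mo := mog) (C1 := cd1q2b) (C2 := cd1q3) (C3 := pd0)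
    rfl k0_mm_203_b

noncomputable def f_mm_213_a : ℕ → ℕ → ℕ → ℕ → Bool := onCell 0 536870912 1610612736 536870912 649613803 48318383
    (rowB 3 eng mog cd1q2a cd1q3 pd1 0 false false false .pnn 2 1 3 (qsf 0 536870912 1610612736 536870912 1) ndB1q2a ndB1q3 pcB1 Cut.none Ext.none)

def k0_mm_213_a : ∃ t, chk3 f_mm_213_a t 1 1 1 = true :=
  ⟨(a (l 3) (l 5)), by decide +kernel⟩

theorem c_mm_213_a : CertB 0 536870912 1610612736 536870912 649613803 48318383 3 eng mog cd1q2a cd1q3 pd1 false false false .pnn 2 1 3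
    ndB1q2a ndB1q3 pcB1 Cut.none Ext.none :=
  certB0 (fam := false) (s1 := false) (s2 := false) (a := 2) (b := 1) (c := 3) (cn := .pnn) (n1 := ndB1q2a) (n2 := ndB1q3) (pc := pcB1) (cut := Cut.none) (xt := Ext.none) (P1 := 0) (W1 := 536870912) (P2 := 1610612736) (W2 := 536870912) (P3 := 649613803) (W3 := 48318383) (N0 := 3) (En := eng) (mo := mog) (C1 := cd1q2a) (C2 := cd1q3) (C3 := pd1)
    rfl k0_mm_213_a

noncomputable def f_mm_213_b : ℕ → ℕ → ℕ → ℕ → Bool := onCell 1239849684 370763052 1610612736 536870912 649613803 48318383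
    (rowB 3 eng mog cd1q2b cd1q3 pd1 0 false false false .pnn 2 1 3 (qsf 1239849684 370763052 1610612736 536870912 1) ndB1q2b ndB1q3 pcB1 Cut.none Ext.none)

def k0_mm_213_b : ∃ t, chk3 f_mm_213_b t 1 1 1 = true :=
  ⟨(l 3), by decide +kernel⟩

theorem c_mm_213_b : CertB 1239849684 370763052 1610612736 536870912 649613803 48318383 3 eng mog cd1q2b cd1q3 pd1 false false false .pnn 2 1 3
    ndB1q2b ndB1q3 pcB1 Cut.none Ext.none :=
  certB0 (fam := false) (s1 := false) (s2 := false) (a := 2) (b := 1) (c := 3) (cn := .pnn) (n1 := ndB1q2b) (n2 := ndB1q3) (pc := pcB1) (cut := Cut.none) (xt := Ext.none) (P1 := 1239849684) (W1 := 370763052) (P2 := 1610612736) (W2 := 536870912) (P3 := 649613803) (W3 := 48318383) (N0 := 3) (En := eng) (mo := mog) (C1 := cd1q2b) (C2 := cd1q3) (C3 := pd1)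
    rfl k0_mm_213_b

noncomputable def f_mm_303 : ℕ → ℕ → ℕ → ℕ → Bool := onCell 1610612736 536870912 1610612736 536870912 649613803 48318383
    (rowB 3 eng mog cd1q3 cd1q3 pd0 0 false false false .npn 3 0 3 (qsf 1610612736 536870912 1610612736 536870912 0) ndB1q3 ndB1q3 pcB0 Cut.none Ext.none)

def k0_mm_303 : ∃ t, chk3 f_mm_303 t 1 1 1 = true :=
  ⟨(l 3), by decide +kernel⟩

theorem c_mm_303 : CertB 1610612736 536870912 1610612736 536870912 649613803 48318383 3 eng mog cd1q3 cd1q3 pd0 false false false .npn 3 0 3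
    ndB1q3 ndB1q3 pcB0 Cut.none Ext.none :=
  certB0 (fam := false) (s1 := false) (s2 := false) (a := 3) (b := 0) (c := 3) (cn := .npn) (n1 := ndB1q3) (n2 := ndB1q3) (pc := pcB0) (cut := Cut.none) (xt := Ext.none) (P1 := 1610612736) (W1 := 536870912) (P2 := 1610612736) (W2 := 536870912) (P3 := 649613803) (W3 := 48318383) (N0 := 3) (En := eng) (mo := mog) (C1 := cd1q3) (C2 := cd1q3) (C3 := pd0)
    rfl k0_mm_303

noncomputable def f_mm_313 : ℕ → ℕ → ℕ → ℕ → Bool := onCell 1610612736 536870912 1610612736 536870912 649613803 48318383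
    (rowB 3 eng mog cd1q3 cd1q3 pd1 0 false false false .dn 3 1 3 (qsf 1610612736 536870912 1610612736 536870912 1) ndB1q3 ndB1q3 pcB1 Cut.none Ext.none)

def k0_mm_313 : ∃ t, chk3 f_mm_313 t 1 1 1 = true :=
  ⟨(l 3), by decide +kernel⟩

theorem c_mm_313 : CertB 1610612736 536870912 1610612736 536870912 649613803 48318383 3 eng mog cd1q3 cd1q3 pd1 false false false .dn 3 1 3
    ndB1q3 ndB1q3 pcB1 Cut.none Ext.none :=
  certB0 (fam := false) (s1 := false) (s2 := false) (a := 3) (b := 1) (c := 3) (cn := .dn) (n1 := ndB1q3) (n2 := ndB1q3) (pc := pcB1) (cut := Cut.none) (xt := Ext.none) (P1 := 1610612736) (W1 := 536870912) (P2 := 1610612736) (W2 := 536870912) (P3 := 649613803) (W3 := 48318383) (N0 := 3) (En := eng) (mo := mog) (C1 := cd1q3) (C2 := cd1q3) (C3 := pd1)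
    rfl k0_mm_313

end Pool.Agent.Strip051.G.I6050_6500.Tab.C.BB11

namespace Pool.Agent.Strip051.G.I6050_6500.Tab.C.BB12

open Pool.Agent.Strip051.PB Pool.Agent.Strip051.PB.T
open Pool.Agent.Strip051.G.I6050_6500.Tab

noncomputable def f_pp_001 : ℕ → ℕ → ℕ → ℕ → Bool := onCell 0 536870912 536870912 536870912 649613803 48318383
    (rowB 3 eng mog cd1q0 cd2q1 pd0 0 false true true .up 0 0 1 (qsf 0 536870912 536870912 536870912 0) ndB1q0 ndB2q1 pcB0 Cut.none Ext.none)

def k0_pp_001 : ∃ t, chk3 f_pp_001 t 1 1 1 = true :=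
  ⟨(l 3), by decide +kernel⟩

theorem c_pp_001 : CertB 0 536870912 536870912 536870912 649613803 48318383 3 eng mog cd1q0 cd2q1 pd0 false true true .up 0 0 1
    ndB1q0 ndB2q1 pcB0 Cut.none Ext.none :=
  certB0 (fam := false) (s1 := true) (s2 := true) (a := 0) (b := 0) (c := 1) (cn := .up) (n1 := ndB1q0) (n2 := ndB2q1) (pc := pcB0) (cut := Cut.none) (xt := Ext.none) (P1 := 0) (W1 := 536870912) (P2 := 536870912) (W2 := 536870912) (P3 := 649613803) (W3 := 48318383) (N0 := 3) (En := eng) (mo := mog) (C1 := cd1q0) (C2 := cd2q1) (C3 := pd0)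
    rfl k0_pp_001

noncomputable def f_pp_011 : ℕ → ℕ → ℕ → ℕ → Bool := onCell 0 536870912 536870912 536870912 649613803 48318383
    (rowB 3 eng mog cd1q0 cd2q1 pd1 0 false true true .pnn 0 1 1 (qsf 0 536870912 536870912 536870912 1) ndB1q0 ndB2q1 pcB1 Cut.none Ext.none)

def k0_pp_011 : ∃ t, chk3 f_pp_011 t 1 1 1 = true :=
  ⟨(l 3), by decide +kernel⟩

theorem c_pp_011 : CertB 0 536870912 536870912 536870912 649613803 48318383 3 eng mog cd1q0 cd2q1 pd1 false true true .pnn 0 1 1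
    ndB1q0 ndB2q1 pcB1 Cut.none Ext.none :=
  certB0 (fam := false) (s1 := true) (s2 := true) (a := 0) (b := 1) (c := 1) (cn := .pnn) (n1 := ndB1q0) (n2 := ndB2q1) (pc := pcB1) (cut := Cut.none) (xt := Ext.none) (P1 := 0) (W1 := 536870912) (P2 := 536870912) (W2 := 536870912) (P3 := 649613803) (W3 := 48318383) (N0 := 3) (En := eng) (mo := mog) (C1 := cd1q0) (C2 := cd2q1) (C3 := pd1)
    rfl k0_pp_011

noncomputable def cut_pp_012_a : Cut := Cut.of [[⟨0, 0, 0, 53687091⟩, ⟨1, 1, 0, 53687091⟩, ⟨2, 1, 0, 53687091⟩]]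

noncomputable def f_pp_012_a : ℕ → ℕ → ℕ → ℕ → Bool := onCell 536870912 536870912 0 536870912 649613803 48318383
    (rowB 3 eng mog cd1q0 cd2q2a pd1 2 false true true .pnp 0 1 2 (qsf 0 536870912 0 536870912 1) ndB1q0 ndB2q2a pcB1 cut_pp_012_a Ext.none)

def k0_pp_012_a : ∃ t, chk3 f_pp_012_a t 2 1 1 = true :=
  ⟨(a (l 3) (b (b (a (a (l 3) (b (a (b (b (a (l 168208307495) (b (l 16758464) (l 138680419303))) (l 3)) (l 3)) (b (b (l 16760960) (a (l 139754162279) (l 16748736))) (b (l 169818938903) (l 3)))) (l 3))) (a (b (b (a (l 16759152) (l 16751896)) (a (b (a (l 92509531287) (l 16760608)) (a (l 3) (l 131164238903))) (a (l 16760856) (l 16759648)))) (a (l 3) (b (b (a (l 149417837479) (l 16759728)) (l 3)) (l 3)))) (b (b (a (b (l 16738920) (l 16744736)) (l 16731056)) (a (l 16754440) (b (l 16740088) (l 16747336)))) (b (a (b (l 16761480) (a (l 117742473239) (l 16762688))) (l 16757192)) (a (l 153175933207) (b (l 41506834151) (l 115595027095))))))) (l 3)) (l 3))),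 by decide +kernel⟩

def k1_pp_012_a : ∃ t, chk3 f_pp_012_a t 6 1 1 = true :=
  ⟨(b (a (b (a (b (b (l 16712848) (a (b (l 16728832) (l 16735144)) (l 16720288))) (b (a (l 16746224) (b (l 16730400) (l 16737760))) (a (a (l 16762096) (l 16757744)) (l 16749008)))) (b (l 16715680) (b (a (l 16722024) (l 16708208)) (a (l 16735816) (l 16722536))))) (a (b (b (a (b (l 80698428103) (l 3)) (b (l 16760160) (l 16786984))) (a (l 3) (l 116131920007))) (l 3)) (b (b (a (l 16751296) (l 16737344)) (a (b (l 16762736) (l 58149843847)) (l 16774872))) (a (l 3) (b (a (l 59223591015) (l 16765968)) (l 3)))))) (b (b (a (l 16667152) (b (l 16634960) (l 16645512))) (a (a (l 16700344) (l 16685224)) (a (l 16670632) (l 16656592)))) (a (b (a (b (l 16721560) (l 16738352)) (b (l 16706280) (l 16722376))) (b (a (a (l 16759944) (l 16752408)) (l 16761320)) (a (b (l 22716360935) (l 3)) (a (l 16762488) (l 16755056))))) (b (b (l 16683568) (a (l 16707072) (l 16692160))) (a (b (l 16724488) (l 16764000))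 (b (l 16709448) (l 16727576))))))) (a (l 3) (b (b (a (b (a (l 3) (b (l 80698430119) (l 3))) (l 3)) (b (a (b (l 16757240) (l 71034745543)) (a (l 16750536) (l 16742960))) (a (l 3) (a (l 166060888487) (a (l 111836922215) (l 53317986887)))))) (l 3)) (l 3)))), by decide +kernel⟩

def k2_pp_012_a : ∃ t, chk3 f_pp_012_a t 7 2 1 = true :=
  ⟨(a (b (a (b (b (l 16610616) (l 16620360)) (a (l 16643248) (l 16630752))) (b (l 16593496) (a (l 16619344) (l 16608816)))) (a (b (b (l 16655808) (l 16671016)) (a (a (l 16707752) (l 16700640)) (b (l 16681176) (l 16699120)))) (b (b (l 16631888) (l 16646200)) (b (l 16662056) (l 16679280))))) (b (a (b (l 16575824) (l 16614920)) (b (l 16555504) (l 16569800))) (a (b (b (l 16609216) (l 16621480)) (a (l 16650680) (l 16636272))) (b (a (l 16584832) (b (l 16575584) (l 16586160))) (a (b (l 16613880) (l 16628296)) (b (l 16598384) (l 16611976))))))), by decide +kernel⟩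

def k3_pp_012_a : ∃ t, chk3 f_pp_012_a t 14 3 1 = true :=
  ⟨(b (a (b (b (a (a (l 16735552) (l 16728272)) (l 16717704)) (a (b (l 16746440) (a (l 16760136) (l 16752560))) (b (l 16731832) (l 16762608)))) (b (a (b (a (l 3) (l 16762576)) (l 3)) (a (b (l 16755224) (l 16775952)) (b (l 16748120) (l 16758352)))) (a (l 3) (b (a (l 3) (l 93583316631)) (l 3))))) (b (a (b (l 16704176) (l 16723152)) (b (l 16690856) (l 16736184))) (b (a (b (l 16737872) (l 16748072)) (l 16751008)) (a (b (a (l 16782992) (l 16734264)) (a (l 189146285911) (l 16766304))) (a (l 16764680) (l 16767576)))))) (b (a (l 3) (b (a (l 3) (b (a (l 40969981431) (l 16762232)) (a (l 3) (b (l 16769984) (l 3))))) (l 3))) (l 3))), by decide +kernel⟩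

def k4_pp_012_a : ∃ t, chk3 f_pp_012_a t 15 3 1 = true :=
  ⟨(b (a (b (a (b (l 16675824) (l 16694136)) (b (l 16660200) (l 16677656))) (a (b (b (l 16708416) (l 16718288)) (b (l 16728312) (l 16748792))) (a (b (b (l 16695656) (l 16705104)) (b (l 16714872) (l 16725392))) (b (l 16712664) (b (l 16706728) (l 16718112)))))) (b (a (b (l 16643840) (l 16681648)) (b (l 16648376) (b (l 16640360) (l 16650096)))) (a (b (a (l 16683480) (l 16676088)) (b (a (l 16699688) (l 16692648)) (a (l 16711008) (l 16703984)))) (a (a (l 16702936) (l 16699400)) (b (l 16662168) (l 16705016)))))) (a (b (b (a (b (b (l 16746088) (l 16756864)) (a (c (l 12515791527) (b (l 16760480) (l 16787064))) (l 16756584))) (a (l 16758944) (l 16746488))) (a (b (a (b (l 135996108263) (l 3)) (b (l 16765024) (l 103246973191))) (a (l 3) (l 212768650311))) (a (b (l 16760448) (b (l 16768584) (l 131701142391))) (b (l 16753096) (l 16774480))))) (b (a (l 3) (b (a (l 3) (b (a (l 107005082727) (l 16770352)) (a (l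 3) (l 129553664855)))) (l 3))) (l 3))) (b (a (b (b (l 16719208) (l 16741640)) (a (b (l 16745736) (l 16756536)) (b (l 16738368) (l 16748920)))) (b (a (b (l 16708424) (l 16720256)) (a (l 16729864) (l 16726288))) (a (b (l 16730800) (l 16740832)) (b (l 16722880) (l 16732792))))) (b (a (b (a (a (l 16774576) (l 16765376)) (a (l 16761288) (l 16757208))) (a (b (a (l 162302790663) (l 16778776)) (l 225653559591)) (b (l 16769872) (l 6)))) (a (b (a (l 16753128) (l 16749040)) (l 6)) (l 6))) (a (a (l 3) (l 6)) (l 6)))))), by decide +kernel⟩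

theorem s5_pp_012_a : ∃ t, chk3 f_pp_012_a t 7 3 1 = true := ex3_a k3_pp_012_a k4_pp_012_a

theorem s6_pp_012_a : ∃ t, chk3 f_pp_012_a t 7 1 1 = true := ex3_b k2_pp_012_a s5_pp_012_a

theorem s7_pp_012_a : ∃ t, chk3 f_pp_012_a t 3 1 1 = true := ex3_a k1_pp_012_a s6_pp_012_a

theorem s8_pp_012_a : ∃ t, chk3 f_pp_012_a t 1 1 1 = true := ex3_a k0_pp_012_a s7_pp_012_a

theorem c_pp_012_a : CertB 0 536870912 0 536870912 649613803 48318383 3 eng mog cd1q0 cd2q2a pd1 false true true .pnp 0 1 2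
    ndB1q0 ndB2q2a pcB1 cut_pp_012_a Ext.none :=
  certB2 (fam := false) (s1 := true) (s2 := true) (a := 0) (b := 1) (c := 2) (cn := .pnp) (n1 := ndB1q0) (n2 := ndB2q2a) (pc := pcB1) (cut := cut_pp_012_a) (xt := Ext.none) (P1 := 0) (W1 := 536870912) (P2 := 0) (W2 := 536870912) (P3 := 649613803) (W3 := 48318383) (N0 := 3) (En := eng) (mo := mog) (C1 := cd1q0) (C2 := cd2q2a) (C3 := pd1)
    rfl (fun _ => rfl) s8_pp_012_a

noncomputable def cut_pp_012_b : Cut := Cut.of [[⟨0, 0, 0, 53687091⟩, ⟨1, 1, 0, 53687091⟩, ⟨2, 1, 0, 53687091⟩]]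

noncomputable def f_pp_012_b : ℕ → ℕ → ℕ → ℕ → Bool := onCell 536870912 536870912 1239849684 370763052 649613803 48318383
    (rowB 3 eng mog cd1q0 cd2q2b pd1 2 false true true .pnp 0 1 2 (qsf 0 536870912 1239849684 370763052 1) ndB1q0 ndB2q2b pcB1 cut_pp_012_b Ext.none)

def k0_pp_012_b : ∃ t, chk3 f_pp_012_b t 1 1 1 = true :=
  ⟨(b (a (a (l 2) (a (b (b (a (l 3) (a (b (a (b (l 132774822215) (l 2)) (l 16760992)) (l 2)) (b (l 16758296) (l 16751288)))) (l 2)) (l 2)) (b (b (a (a (l 16746328) (l 16735256)) (a (l 16744464) (l 16710536))) (a (l 16744440) (a (l 16702320) (l 16687984)))) (a (l 2) (b (l 16679480) (l 2)))))) (a (a (b (b (a (l 16690952) (l 16684744)) (a (l 16665000) (l 16633688))) (a (b (l 16646496) (l 2)) (l 16603136))) (b (a (b (l 16676616) (l 16599888)) (b (l 16648240) (l 16566656))) (b (l 16617168) (l 16534184)))) (a (b (b (a (l 16579328) (l 16555184)) (a (l 16534448) (l 16503712))) (a (b (l 16499424) (l 16473912)) (l 16615336))) (b (a (b (l 16535400)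 (l 16476920)) (b (l 16521016) (l 16455448))) (a (l 16516400) (l 16525688)))))) (a (l 2) (a (a (l 2) (b (l 16561496) (l 2))) (a (b (a (l 16451128) (l 16406656)) (l 16424888)) (b (a (l 16362600) (l 16319960)) (l 16324136)))))), by decide +kernel⟩

theorem c_pp_012_b : CertB 0 536870912 1239849684 370763052 649613803 48318383 3 eng mog cd1q0 cd2q2b pd1 false true true .pnp 0 1 2
    ndB1q0 ndB2q2b pcB1 cut_pp_012_b Ext.none :=
  certB2 (fam := false) (s1 := true) (s2 := true) (a := 0) (b := 1) (c := 2) (cn := .pnp) (n1 := ndB1q0) (n2 := ndB2q2b) (pc := pcB1) (cut := cut_pp_012_b) (xt := Ext.none) (P1 := 0) (W1 := 536870912) (P2 := 1239849684) (W2 := 370763052) (P3 := 649613803) (W3 := 48318383) (N0 := 3) (En := eng) (mo := mog) (C1 := cd1q0) (C2 := cd2q2b) (C3 := pd1)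
    rfl (fun _ => rfl) k0_pp_012_b

noncomputable def cut_pp_022_a : Cut := Cut.of [[⟨0, 0, 0, 67108864⟩, ⟨1, 1, 0, 67108864⟩, ⟨2, 1, 0, 67108864⟩]]

noncomputable def f_pp_022_a : ℕ → ℕ → ℕ → ℕ → Bool := onCell 1073741824 536870912 0 536870912 649613803 48318383
    (rowB 3 eng mog cd1q0 cd2q2a pd2 2 false true true .pp 0 2 2 (qsf 0 536870912 0 536870912 2) ndB1q0 ndB2q2a pcB2 cut_pp_022_a Ext.none)

def k0_pp_022_a : ∃ t, chk3 f_pp_022_a t 2 2 1 = true :=
  ⟨(a (b (a (a (b (a (l 16536360) (b (l 16520496) (l 16525224))) (a (b (l 16544624) (l 16551640)) (b (l 16551928) (a (l 16541224) (l 16534368))))) (a (b (b (l 16508144) (l 16512904)) (a (l 16567144) (l 16541160))) (b (c (l 16503536) (l 16498920)) (c (l 16514848) (l 16510360))))) (a (a (b (b (l 16490520) (l 16494488)) (c (l 16505208) (l 16500472))) (b (l 16484352) (c (l 16453944) (l 16490736)))) (b (a (l 16476640) (l 16511464)) (c (a (l 16486928) (l 16478384)) (a (l 16481184) (l 16471856)))))) (a (b (a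 (b (a (l 16559872) (c (l 16568768) (l 16544368))) (a (b (l 16567488) (l 16594432)) (a (l 16560168) (c (l 16555880) (l 16552696))))) (b (a (l 16576960) (l 16545480)) (a (c (l 16568944) (l 16544176)) (b (l 16532232) (l 16559264))))) (a (b (a (l 16583544) (l 16570976)) (a (l 16598680) (l 16586184))) (b (a (l 16559408) (b (l 16544440) (l 16550720))) (a (l 16573616) (l 16560720))))) (a (b (a (c (b (l 16516384) (l 16526592)) (l 16537008)) (b (l 16524520) (l 16533832))) (b (b (a (l 16532720) (l 16520848)) (l 16532248)) (a (l 16547520) (l 16534024)))) (b (b (c (a (l 16496312) (l 16486536)) (l 16504696)) (a (l 16522528) (l 16511216))) (b (b (a (l 16508832) (l 16517656)) (l 16506960)) (a (l 16520248) (l 16506192))))))) (a (b (b (a (a (b (l 16462520) (l 16463304)) (b (l 16496304) (l 16456936))) (l 1)) (a (c (a (l 16470296) (l 16462720)) (b (l 16457232) (a (l 16463928) (l 16454528)))) (l 1))) (a (a (b (c (b (l 16476992) (l 16483712)) (b (l 16467480) (l 16473056))) (b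 (b (l 16505392) (l 16487584)) (l 16491824))) (a (b (c (l 16473064) (l 16461848)) (l 1)) (l 1))) (l 1))) (l 1))), by decide +kernel⟩

def k1_pp_022_a : ∃ t, chk3 f_pp_022_a t 2 3 1 = true :=
  ⟨(a (a (b (a (a (b (b (l 16615896) (l 16634760)) (b (l 16654888) (l 16676064))) (b (b (l 16602648) (l 16620304)) (b (l 16639008) (a (l 16662976) (l 16653984))))) (b (a (b (l 16588936) (l 16605248)) (b (l 16574768) (l 16589624))) (b (a (l 16643368) (l 16626048)) (a (b (l 16635640) (l 16665416)) (b (l 16616896) (l 16624648)))))) (a (b (b (b (a (l 16690560) (l 16673320)) (a (l 16720872) (a (l 16688424) (l 16678144)))) (l 6)) (l 6)) (b (b (a (b (a (l 16658440) (l 16648200)) (a (l 16667584) (l 16656760))) (b (a (l 16637744) (l 16627056)) (a (l 16666672) (b (l 16632656) (l 16636096))))) (a (l 6) (a (l 6) (a (l 6) (l 1))))) (a (l 6) (l 1))))) (b (b (a (b (a (l 16560176) (l 16545160)) (a (l 16573432) (l 16577656))) (b (a (l 16529712) (l 16534776)) (a (c (l 16544856) (l 16533136))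 (l 1)))) (a (b (a (b (l 16583576) (l 16590456)) (b (l 16565376) (l 16571200))) (a (b (l 16597328) (a (l 16609224) (l 16598656))) (b (l 16597912) (l 1)))) (b (a (b (l 16546456) (l 1)) (l 1)) (l 1)))) (b (b (a (a (b (a (l 16616096) (l 16604912)) (a (l 16622784) (l 1))) (l 1)) (l 1)) (l 1)) (l 1)))) (b (l 1) (l 1))), by decide +kernel⟩

def k2_pp_022_a : ∃ t, chk3 f_pp_022_a t 3 1 1 = true :=
  ⟨(l 1), by decide +kernel⟩

theorem s3_pp_022_a : ∃ t, chk3 f_pp_022_a t 2 1 1 = true := ex3_b k0_pp_022_a k1_pp_022_a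

theorem s4_pp_022_a : ∃ t, chk3 f_pp_022_a t 1 1 1 = true := ex3_a s3_pp_022_a k2_pp_022_a

theorem c_pp_022_a : CertB 0 536870912 0 536870912 649613803 48318383 3 eng mog cd1q0 cd2q2a pd2 false true true .pp 0 2 2
    ndB1q0 ndB2q2a pcB2 cut_pp_022_a Ext.none :=
  certB2 (fam := false) (s1 := true) (s2 := true) (a := 0) (b := 2) (c := 2) (cn := .pp) (n1 := ndB1q0) (n2 := ndB2q2a) (pc := pcB2) (cut := cut_pp_022_a) (xt := Ext.none) (P1 := 0) (W1 := 536870912) (P2 := 0) (W2 := 536870912) (P3 := 649613803) (W3 := 48318383) (N0 := 3) (En := eng) (mo := mog) (C1 := cd1q0) (C2 := cd2q2a) (C3 := pd2)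
    rfl (fun _ => rfl) s4_pp_022_a

noncomputable def cut_pp_022_b : Cut := Cut.of [[⟨0, 0, 0, 67108864⟩, ⟨1, 1, 0, 67108864⟩, ⟨2, 1, 0, 67108864⟩]]

noncomputable def f_pp_022_b : ℕ → ℕ → ℕ → ℕ → Bool := onCell 1073741824 536870912 1239849684 370763052 649613803 48318383
    (rowB 3 eng mog cd1q0 cd2q2b pd2 2 false true true .pp 0 2 2 (qsf 0 536870912 1239849684 370763052 2) ndB1q0 ndB2q2b pcB2 cut_pp_022_b Ext.none)

def k0_pp_022_b : ∃ t, chk3 f_pp_022_b t 1 1 1 = true :=
  ⟨(a (a (b (b (a (b (a (b (l 16513136) (l 16487064)) (a (l 16481216) (l 16469160))) (a (l 16438032) (l 16416624))) (b (a (b (l 16469280) (l 16437992)) (b (l 16454392) (l 16420512))) (c (l 16495264) (l 16466952)))) (a (a (b (l 16378896) (l 16332216)) (l 16331656)) (b (l 16319672) (l 16269448)))) (a (b (a (l 16286112) (l 16261688)) (l 16288824)) (b (a (l 16233416) (l 16202144)) (b (l 16195136) (l 16190408))))) (b (a (b (b (a (a (l 16487832) (b (l 16496976) (l 16397184))) (a (b (c (c (l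 16465520) (l 16487448)) (l 16428888)) (l 16457048)) (b (l 77342531383) (l 16387416)))) (a (l 16368624) (a (l 16375928) (l 16332864)))) (a (b (l 16280336) (l 16226192)) (b (a (l 16263360) (l 16262040)) (l 16286280)))) (b (a (b (c (l 341482671671) (l 499859560999)) (a (l 16327112) (l 259878130519))) (b (l 1) (l 272763010119))) (a (b (l 16262000) (l 16200088)) (b (l 16250496) (l 16205040))))) (a (b (a (l 16169456) (a (l 16144288) (l 16137976))) (a (l 16139816) (l 16107448))) (b (b (l 16152344) (l 16103032)) (l 16087576))))) (b (a (b (l 1) (a (b (a (l 288332217927) (l 326986781783)) (l 235181953111)) (a (b (l 1) (l 304438124023)) (l 1)))) (l 1)) (a (a (b (b (l 16164912) (l 16370592)) (l 16146944)) (a (b (a (l 16148728) (l 16144960)) (l 16131008)) (b (l 329134407991) (l 16140360)))) (a (b (b (l 1) (l 379063117079)) (b (l 16140432) (l 16152360))) (b (l 1) (l 421475961575)))))), by decide +kernel⟩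

theorem c_pp_022_b : CertB 0 536870912 1239849684 370763052 649613803 48318383 3 eng mog cd1q0 cd2q2b pd2 false true true .pp 0 2 2
    ndB1q0 ndB2q2b pcB2 cut_pp_022_b Ext.none :=
  certB2 (fam := false) (s1 := true) (s2 := true) (a := 0) (b := 2) (c := 2) (cn := .pp) (n1 := ndB1q0) (n2 := ndB2q2b) (pc := pcB2) (cut := cut_pp_022_b) (xt := Ext.none) (P1 := 0) (W1 := 536870912) (P2 := 1239849684) (W2 := 370763052) (P3 := 649613803) (W3 := 48318383) (N0 := 3) (En := eng) (mo := mog) (C1 := cd1q0) (C2 := cd2q2b) (C3 := pd2)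
    rfl (fun _ => rfl) k0_pp_022_b

noncomputable def f_pp_023 : ℕ → ℕ → ℕ → ℕ → Bool := onCell 0 536870912 1073741824 536870912 649613803 48318383
    (rowB 3 eng mog cd1q0 cd2q3 pd2 1 false true true .up 0 2 3 (qsf 0 536870912 1610612736 536870912 2) ndB1q0 ndB2q3 pcB2 Cut.none Ext.none)

def k0_pp_023 : ∃ t, chk3 f_pp_023 t 1 1 1 = true :=
  ⟨(b (a (b (l 1) (a (l 1) (b (l 1) (l 288332399175)))) (b (a (b (l 1) (a (l 1) (l 16209552))) (b (l 144451261319) (l 16316672))) (b (a (b (l 16218192) (l 141229808983)) (b (l 16204480) (l 16194800))) (a (l 16347952) (l 16240600))))) (b (a (a (b (l 1) (l 383895422823)) (b (l 266320614407) (l 332892380663))) (b (a (l 16136656) (l 16331944)) (a (l 16133704) (l 16446512)))) (a (a (b (l 371010556967) (l 381748010583)) (b (l 16144352) (l 16195760))) (a (l 16382488) (l 16423568))))), by decide +kernel⟩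

theorem c_pp_023 : CertB 0 536870912 1610612736 536870912 649613803 48318383 3 eng mog cd1q0 cd2q3 pd2 false true true .up 0 2 3
    ndB1q0 ndB2q3 pcB2 Cut.none Ext.none :=
  certB1 (fam := false) (s1 := true) (s2 := true) (a := 0) (b := 2) (c := 3) (cn := .up) (n1 := ndB1q0) (n2 := ndB2q3) (pc := pcB2) (cut := Cut.none) (xt := Ext.none) (P1 := 0) (W1 := 536870912) (P2 := 1610612736) (W2 := 536870912) (P3 := 649613803) (W3 := 48318383) (N0 := 3) (En := eng) (mo := mog) (C1 := cd1q0) (C2 := cd2q3) (C3 := pd2)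
    rfl (fun _ => rfl) k0_pp_023

noncomputable def f_pp_033 : ℕ → ℕ → ℕ → ℕ → Bool := onCell 0 536870912 1610612736 536870912 649613803 48318383
    (rowB 3 eng mog cd1q0 cd2q3 pd3 1 false true true .pnn 0 3 3 (qsf 0 536870912 1610612736 536870912 3) ndB1q0 ndB2q3 pcB3 Cut.none Ext.none)

def k0_pp_033 : ∃ t, chk3 f_pp_033 t 1 1 1 = true :=
  ⟨(a (b (b (b (a (l 16134328) (l 16261584)) (a (l 16106296) (l 16323728))) (b (a (l 16198216) (l 16382360)) (a (l 16278264) (l 4)))) (a (l 4) (b (l 4) (a (b (l 4) (l 2)) (l 2))))) (b (b (b (a (l 16487480) (l 16626200)) (a (l 16521080) (l 16650128))) (a (b (l 16558024) (l 4)) (a (b (l 16653952) (l 2)) (l 2)))) (a (b (a (b (l 4) (l 2)) (l 2)) (l 2)) (l 2)))), by decide +kernel⟩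

theorem c_pp_033 : CertB 0 536870912 1610612736 536870912 649613803 48318383 3 eng mog cd1q0 cd2q3 pd3 false true true .pnn 0 3 3
    ndB1q0 ndB2q3 pcB3 Cut.none Ext.none :=
  certB1 (fam := false) (s1 := true) (s2 := true) (a := 0) (b := 3) (c := 3) (cn := .pnn) (n1 := ndB1q0) (n2 := ndB2q3) (pc := pcB3) (cut := Cut.none) (xt := Ext.none) (P1 := 0) (W1 := 536870912) (P2 := 1610612736) (W2 := 536870912) (P3 := 649613803) (W3 := 48318383) (N0 := 3) (En := eng) (mo := mog) (C1 := cd1q0) (C2 := cd2q3) (C3 := pd3)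
    rfl (fun _ => rfl) k0_pp_033

noncomputable def f_pp_101 : ℕ → ℕ → ℕ → ℕ → Bool := onCell 536870912 536870912 536870912 536870912 649613803 48318383
    (rowB 3 eng mog cd1q1 cd2q1 pd0 0 false true true .npn 1 0 1 (qsf 536870912 536870912 536870912 536870912 0) ndB1q1 ndB2q1 pcB0 Cut.none Ext.none)

def k0_pp_101 : ∃ t, chk3 f_pp_101 t 1 1 1 = true :=
  ⟨(l 3), by decide +kernel⟩

theorem c_pp_101 : CertB 536870912 536870912 536870912 536870912 649613803 48318383 3 eng mog cd1q1 cd2q1 pd0 false true true .npn 1 0 1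
    ndB1q1 ndB2q1 pcB0 Cut.none Ext.none :=
  certB0 (fam := false) (s1 := true) (s2 := true) (a := 1) (b := 0) (c := 1) (cn := .npn) (n1 := ndB1q1) (n2 := ndB2q1) (pc := pcB0) (cut := Cut.none) (xt := Ext.none) (P1 := 536870912) (W1 := 536870912) (P2 := 536870912) (W2 := 536870912) (P3 := 649613803) (W3 := 48318383) (N0 := 3) (En := eng) (mo := mog) (C1 := cd1q1) (C2 := cd2q1) (C3 := pd0)
    rfl k0_pp_101

noncomputable def f_pp_102_a : ℕ → ℕ → ℕ → ℕ → Bool := onCell 0 536870912 0 536870912 649613803 48318383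
    (rowB 3 eng mog cd1q1 cd2q2a pd0 2 false true true .npp 1 0 2 (qsf 536870912 536870912 0 536870912 0) ndB1q1 ndB2q2a pcB0 Cut.none Ext.none)

def k0_pp_102_a : ∃ t, chk3 f_pp_102_a t 1 1 1 = true :=
  ⟨(a (l 3) (l 3)), by decide +kernel⟩

theorem c_pp_102_a : CertB 536870912 536870912 0 536870912 649613803 48318383 3 eng mog cd1q1 cd2q2a pd0 false true true .npp 1 0 2
    ndB1q1 ndB2q2a pcB0 Cut.none Ext.none :=
  certB2 (fam := false) (s1 := true) (s2 := true) (a := 1) (b := 0) (c := 2) (cn := .npp) (n1 := ndB1q1) (n2 := ndB2q2a) (pc := pcB0) (cut := Cut.none) (xt := Ext.none) (P1 := 536870912) (W1 := 536870912) (P2 := 0) (W2 := 536870912) (P3 := 649613803) (W3 := 48318383) (N0 := 3) (En := eng) (mo := mog) (C1 := cd1q1) (C2 := cd2q2a) (C3 := pd0)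
    rfl (fun _ => rfl) k0_pp_102_a

noncomputable def f_pp_102_b : ℕ → ℕ → ℕ → ℕ → Bool := onCell 536870912 536870912 0 536870912 649613803 48318383
    (rowB 3 eng mog cd1q1 cd2q2b pd0 1 false true true .npp 1 0 2 (qsf 536870912 536870912 1239849684 370763052 0) ndB1q1 ndB2q2b pcB0 Cut.none Ext.none)

def k0_pp_102_b : ∃ t, chk3 f_pp_102_b t 1 1 1 = true :=
  ⟨(b (l 3) (l 3)), by decide +kernel⟩

theorem c_pp_102_b : CertB 536870912 536870912 1239849684 370763052 649613803 48318383 3 eng mog cd1q1 cd2q2b pd0 false true true .npp 1 0 2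
    ndB1q1 ndB2q2b pcB0 Cut.none Ext.none :=
  certB1 (fam := false) (s1 := true) (s2 := true) (a := 1) (b := 0) (c := 2) (cn := .npp) (n1 := ndB1q1) (n2 := ndB2q2b) (pc := pcB0) (cut := Cut.none) (xt := Ext.none) (P1 := 536870912) (W1 := 536870912) (P2 := 1239849684) (W2 := 370763052) (P3 := 649613803) (W3 := 48318383) (N0 := 3) (En := eng) (mo := mog) (C1 := cd1q1) (C2 := cd2q2b) (C3 := pd0)
    rfl (fun _ => rfl) k0_pp_102_b

noncomputable def f_pp_112_a : ℕ → ℕ → ℕ → ℕ → Bool := onCell 536870912 536870912 0 536870912 649613803 48318383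
    (rowB 3 eng mog cd1q1 cd2q2a pd1 0 false true true .dn 1 1 2 (qsf 536870912 536870912 0 536870912 1) ndB1q1 ndB2q2a pcB1 Cut.none Ext.none)

def k0_pp_112_a : ∃ t, chk3 f_pp_112_a t 1 1 1 = true :=
  ⟨(a (a (b (b (l 3) (l 3)) (l 3)) (l 3)) (l 1)), by decide +kernel⟩

theorem c_pp_112_a : CertB 536870912 536870912 0 536870912 649613803 48318383 3 eng mog cd1q1 cd2q2a pd1 false true true .dn 1 1 2
    ndB1q1 ndB2q2a pcB1 Cut.none Ext.none :=
  certB0 (fam := false) (s1 := true) (s2 := true) (a := 1) (b := 1) (c := 2) (cn := .dn) (n1 := ndB1q1) (n2 := ndB2q2a) (pc := pcB1) (cut := Cut.none) (xt := Ext.none) (P1 := 536870912) (W1 := 536870912) (P2 := 0) (W2 := 536870912) (P3 := 649613803) (W3 := 48318383) (N0 := 3) (En := eng) (mo := mog) (C1 := cd1q1) (C2 := cd2q2a) (C3 := pd1)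
    rfl k0_pp_112_a

noncomputable def f_pp_112_b : ℕ → ℕ → ℕ → ℕ → Bool := onCell 536870912 536870912 536870912 536870912 649613803 48318383
    (rowB 3 eng mog cd1q1 cd2q2b pd1 1 false true true .dn 1 1 2 (qsf 536870912 536870912 1239849684 370763052 1) ndB1q1 ndB2q2b pcB1 Cut.none Ext.none)

def k0_pp_112_b : ∃ t, chk3 f_pp_112_b t 1 1 1 = true :=
  ⟨(a (b (b (l 3) (b (a (b (l 3) (a (a (b (b (l 306184128647) (l 16742792)) (l 16736936)) (l 220821689447)) (l 3))) (l 3)) (a (b (a (b (l 16720848) (l 16706408)) (l 98952082871)) (a (a (l 16683152) (l 16678792)) (l 16680904))) (b (l 3) (a (l 133311836663) (l 3)))))) (b (b (a (b (a (l 16643168) (l 16650456)) (a (l 16602672) (l 16618712))) (b (a (l 16685976) (a (l 16729776) (l 169819119735))) (a (l 16666968) (b (l 16756224) (l 16761272))))) (a (a (l 16534816) (l 16562120)) (b (a (l 16646464) (l 69357004167)) (a (l 16625216) (l 2))))) (a (b (a (l 16446816) (l 16493616)) (b (l 16405584) (l 16370368))) (b (a (l 16600720)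 (l 2)) (l 2))))) (b (l 3) (a (b (b (b (l 3) (l 2)) (l 2)) (l 2)) (l 2)))), by decide +kernel⟩

theorem c_pp_112_b : CertB 536870912 536870912 1239849684 370763052 649613803 48318383 3 eng mog cd1q1 cd2q2b pd1 false true true .dn 1 1 2
    ndB1q1 ndB2q2b pcB1 Cut.none Ext.none :=
  certB1 (fam := false) (s1 := true) (s2 := true) (a := 1) (b := 1) (c := 2) (cn := .dn) (n1 := ndB1q1) (n2 := ndB2q2b) (pc := pcB1) (cut := Cut.none) (xt := Ext.none) (P1 := 536870912) (W1 := 536870912) (P2 := 1239849684) (W2 := 370763052) (P3 := 649613803) (W3 := 48318383) (N0 := 3) (En := eng) (mo := mog) (C1 := cd1q1) (C2 := cd2q2b) (C3 := pd1)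
    rfl (fun _ => rfl) k0_pp_112_b

noncomputable def f_pp_113 : ℕ → ℕ → ℕ → ℕ → Bool := onCell 536870912 536870912 536870912 536870912 649613803 48318383
    (rowB 3 eng mog cd1q1 cd2q3 pd1 1 false true true .nn 1 1 3 (qsf 536870912 536870912 1610612736 536870912 1) ndB1q1 ndB2q3 pcB1 Cut.none Ext.none)

def k0_pp_113 : ∃ t, chk3 f_pp_113 t 1 1 1 = true :=
  ⟨(a (b (a (l 1) (a (l 1) (l 3))) (b (b (a (l 1) (b (a (l 1) (b (l 16750728) (l 16762360))) (a (l 16690736) (l 16842160)))) (a (l 126735003719) (b (a (l 16681720) (l 16805280)) (l 16744840)))) (a (b (l 107944301527) (l 110091589671)) (b (l 16740168) (a (l 16660168) (l 16748328)))))) (b (l 3) (b (a (b (a (b (l 3) (l 180556511943)) (l 3)) (b (a (l 16921448) (l 215989795383)) (a (l 16948480) (l 177335175143)))) (b (l 3) (a (b (l 3) (a (l 351818395767) (l 3))) (l 3)))) (b (a (b (a (l 16896864) (b (l 16993520) (l 16963432))) (a (l 16856592) (l 16920080))) (a (b (a (l 16908224) (b (l 3) (l 16873960))) (a (l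 16958088) (l 16910896))) (b (l 3) (a (b (l 301352230055) (l 16857280)) (b (l 3) (l 416779660199)))))) (a (a (l 16805480) (l 16853792)) (a (b (a (l 16899960) (l 16904184)) (l 16850344)) (b (a (b (l 16860184) (l 16860648)) (b (l 16684856) (l 16810576))) (a (l 16834840) (b (l 16807536) (l 16803768)))))))))), by decide +kernel⟩

theorem c_pp_113 : CertB 536870912 536870912 1610612736 536870912 649613803 48318383 3 eng mog cd1q1 cd2q3 pd1 false true true .nn 1 1 3
    ndB1q1 ndB2q3 pcB1 Cut.none Ext.none :=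
  certB1 (fam := false) (s1 := true) (s2 := true) (a := 1) (b := 1) (c := 3) (cn := .nn) (n1 := ndB1q1) (n2 := ndB2q3) (pc := pcB1) (cut := Cut.none) (xt := Ext.none) (P1 := 536870912) (W1 := 536870912) (P2 := 1610612736) (W2 := 536870912) (P3 := 649613803) (W3 := 48318383) (N0 := 3) (En := eng) (mo := mog) (C1 := cd1q1) (C2 := cd2q3) (C3 := pd1)
    rfl (fun _ => rfl) k0_pp_113

noncomputable def f_pp_123 : ℕ → ℕ → ℕ → ℕ → Bool := onCell 1073741824 536870912 1610612736 536870912 649613803 48318383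
    (rowB 3 eng mog cd1q1 cd2q3 pd2 2 false true true .npn 1 2 3 (qsf 536870912 536870912 1610612736 536870912 2) ndB1q1 ndB2q3 pcB2 Cut.none Ext.none)

def k0_pp_123 : ∃ t, chk3 f_pp_123 t 1 1 1 = true :=
  ⟨(a (a (b (b (a (a (l 16386096) (l 16342344)) (l 172905479879)) (a (b (l 16548312) (l 16636728)) (l 16462280))) (b (a (b (a (l 16721624) (l 16663672)) (l 16734632)) (a (l 16715008) (l 16577912))) (a (b (l 16761896) (a (l 16775904) (l 16736488))) (b (a (l 16674640) (l 16622344)) (l 16660672))))) (b (a (b (a (l 16256728) (l 1)) (a (l 16369512) (l 16320528))) (b (l 1) (l 16328824))) (b (a (a (l 16526856) (l 16505792)) (l 16487616)) (a (a (a (l 16602376) (l 16580528)) (b (l 16543768) (l 16570280))) (l 16631704))))) (a (b (a (b (l 1) (l 16365496)) (l 1)) (a (b (l 16499544) (l 16588680)) (b (l 16518608) (l 16378864)))) (b (l 1) (b (l 16437576) (l 16637608))))), by decide +kernel⟩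

theorem c_pp_123 : CertB 536870912 536870912 1610612736 536870912 649613803 48318383 3 eng mog cd1q1 cd2q3 pd2 false true true .npn 1 2 3
    ndB1q1 ndB2q3 pcB2 Cut.none Ext.none :=
  certB2 (fam := false) (s1 := true) (s2 := true) (a := 1) (b := 2) (c := 3) (cn := .npn) (n1 := ndB1q1) (n2 := ndB2q3) (pc := pcB2) (cut := Cut.none) (xt := Ext.none) (P1 := 536870912) (W1 := 536870912) (P2 := 1610612736) (W2 := 536870912) (P3 := 649613803) (W3 := 48318383) (N0 := 3) (En := eng) (mo := mog) (C1 := cd1q1) (C2 := cd2q3) (C3 := pd2)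
    rfl (fun _ => rfl) k0_pp_123

noncomputable def f_pp_133 : ℕ → ℕ → ℕ → ℕ → Bool := onCell 1610612736 536870912 1610612736 536870912 649613803 48318383
    (rowB 3 eng mog cd1q1 cd2q3 pd3 2 false true true .dn 1 3 3 (qsf 536870912 536870912 1610612736 536870912 3) ndB1q1 ndB2q3 pcB3 Cut.none Ext.none)

def k0_pp_133 : ∃ t, chk3 f_pp_133 t 1 1 1 = true :=
  ⟨(a (b (l 1) (a (a (l 16613152) (l 1)) (l 1))) (l 1)), by decide +kernel⟩

theorem c_pp_133 : CertB 536870912 536870912 1610612736 536870912 649613803 48318383 3 eng mog cd1q1 cd2q3 pd3 false true true .dn 1 3 3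
    ndB1q1 ndB2q3 pcB3 Cut.none Ext.none :=
  certB2 (fam := false) (s1 := true) (s2 := true) (a := 1) (b := 3) (c := 3) (cn := .dn) (n1 := ndB1q1) (n2 := ndB2q3) (pc := pcB3) (cut := Cut.none) (xt := Ext.none) (P1 := 536870912) (W1 := 536870912) (P2 := 1610612736) (W2 := 536870912) (P3 := 649613803) (W3 := 48318383) (N0 := 3) (En := eng) (mo := mog) (C1 := cd1q1) (C2 := cd2q3) (C3 := pd3)
    rfl (fun _ => rfl) k0_pp_133

noncomputable def f_pp_202_aa : ℕ → ℕ → ℕ → ℕ → Bool := onCell 0 536870912 0 536870912 649613803 48318383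
    (rowB 3 eng mog cd1q2a cd2q2a pd0 0 false true true .pp 2 0 2 (qsf 0 536870912 0 536870912 0) ndB1q2a ndB2q2a pcB0 Cut.none Ext.none)

def k0_pp_202_aa : ∃ t, chk3 f_pp_202_aa t 1 1 1 = true :=
  ⟨(l 3), by decide +kernel⟩

theorem c_pp_202_aa : CertB 0 536870912 0 536870912 649613803 48318383 3 eng mog cd1q2a cd2q2a pd0 false true true .pp 2 0 2
    ndB1q2a ndB2q2a pcB0 Cut.none Ext.none :=
  certB0 (fam := false) (s1 := true) (s2 := true) (a := 2) (b := 0) (c := 2) (cn := .pp) (n1 := ndB1q2a) (n2 := ndB2q2a) (pc := pcB0) (cut := Cut.none) (xt := Ext.none) (P1 := 0) (W1 := 536870912) (P2 := 0) (W2 := 536870912) (P3 := 649613803) (W3 := 48318383) (N0 := 3) (En := eng) (mo := mog) (C1 := cd1q2a) (C2 := cd2q2a) (C3 := pd0)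
    rfl k0_pp_202_aa

noncomputable def f_pp_202_ab : ℕ → ℕ → ℕ → ℕ → Bool := onCell 0 536870912 1239849684 370763052 649613803 48318383
    (rowB 3 eng mog cd1q2a cd2q2b pd0 0 false true true .pp 2 0 2 (qsf 0 536870912 1239849684 370763052 0) ndB1q2a ndB2q2b pcB0 Cut.none Ext.none)

def k0_pp_202_ab : ∃ t, chk3 f_pp_202_ab t 1 1 1 = true :=
  ⟨(l 3), by decide +kernel⟩

theorem c_pp_202_ab : CertB 0 536870912 1239849684 370763052 649613803 48318383 3 eng mog cd1q2a cd2q2b pd0 false true true .pp 2 0 2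
    ndB1q2a ndB2q2b pcB0 Cut.none Ext.none :=
  certB0 (fam := false) (s1 := true) (s2 := true) (a := 2) (b := 0) (c := 2) (cn := .pp) (n1 := ndB1q2a) (n2 := ndB2q2b) (pc := pcB0) (cut := Cut.none) (xt := Ext.none) (P1 := 0) (W1 := 536870912) (P2 := 1239849684) (W2 := 370763052) (P3 := 649613803) (W3 := 48318383) (N0 := 3) (En := eng) (mo := mog) (C1 := cd1q2a) (C2 := cd2q2b) (C3 := pd0)
    rfl k0_pp_202_ab

noncomputable def f_pp_202_ba : ℕ → ℕ → ℕ → ℕ → Bool := onCell 1239849684 370763052 0 536870912 649613803 48318383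
    (rowB 3 eng mog cd1q2b cd2q2a pd0 0 false true true .pp 2 0 2 (qsf 1239849684 370763052 0 536870912 0) ndB1q2b ndB2q2a pcB0 Cut.none Ext.none)

def k0_pp_202_ba : ∃ t, chk3 f_pp_202_ba t 1 1 1 = true :=
  ⟨(l 3), by decide +kernel⟩

theorem c_pp_202_ba : CertB 1239849684 370763052 0 536870912 649613803 48318383 3 eng mog cd1q2b cd2q2a pd0 false true true .pp 2 0 2
    ndB1q2b ndB2q2a pcB0 Cut.none Ext.none :=
  certB0 (fam := false) (s1 := true) (s2 := true) (a := 2) (b := 0) (c := 2) (cn := .pp) (n1 := ndB1q2b) (n2 := ndB2q2a) (pc := pcB0) (cut := Cut.none) (xt := Ext.none) (P1 := 1239849684) (W1 := 370763052) (P2 := 0) (W2 := 536870912) (P3 := 649613803) (W3 := 48318383) (N0 := 3) (En := eng) (mo := mog) (C1 := cd1q2b) (C2 := cd2q2a) (C3 := pd0)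
    rfl k0_pp_202_ba

noncomputable def f_pp_202_bb : ℕ → ℕ → ℕ → ℕ → Bool := onCell 1239849684 370763052 1239849684 370763052 649613803 48318383
    (rowB 3 eng mog cd1q2b cd2q2b pd0 0 false true true .pp 2 0 2 (qsf 1239849684 370763052 1239849684 370763052 0) ndB1q2b ndB2q2b pcB0 Cut.none Ext.none)

def k0_pp_202_bb : ∃ t, chk3 f_pp_202_bb t 1 1 1 = true :=
  ⟨(l 3), by decide +kernel⟩

theorem c_pp_202_bb : CertB 1239849684 370763052 1239849684 370763052 649613803 48318383 3 eng mog cd1q2b cd2q2b pd0 false true true .pp 2 0 2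
    ndB1q2b ndB2q2b pcB0 Cut.none Ext.none :=
  certB0 (fam := false) (s1 := true) (s2 := true) (a := 2) (b := 0) (c := 2) (cn := .pp) (n1 := ndB1q2b) (n2 := ndB2q2b) (pc := pcB0) (cut := Cut.none) (xt := Ext.none) (P1 := 1239849684) (W1 := 370763052) (P2 := 1239849684) (W2 := 370763052) (P3 := 649613803) (W3 := 48318383) (N0 := 3) (En := eng) (mo := mog) (C1 := cd1q2b) (C2 := cd2q2b) (C3 := pd0)
    rfl k0_pp_202_bb

noncomputable def f_pp_203_a : ℕ → ℕ → ℕ → ℕ → Bool := onCell 0 536870912 0 536870912 649613803 48318383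
    (rowB 3 eng mog cd1q2a cd2q3 pd0 1 false true true .up 2 0 3 (qsf 0 536870912 1610612736 536870912 0) ndB1q2a ndB2q3 pcB0 Cut.none Ext.none)

def k0_pp_203_a : ∃ t, chk3 f_pp_203_a t 1 1 1 = true :=
  ⟨(l 3), by decide +kernel⟩

theorem c_pp_203_a : CertB 0 536870912 1610612736 536870912 649613803 48318383 3 eng mog cd1q2a cd2q3 pd0 false true true .up 2 0 3
    ndB1q2a ndB2q3 pcB0 Cut.none Ext.none :=
  certB1 (fam := false) (s1 := true) (s2 := true) (a := 2) (b := 0) (c := 3) (cn := .up) (n1 := ndB1q2a) (n2 := ndB2q3) (pc := pcB0) (cut := Cut.none) (xt := Ext.none) (P1 := 0) (W1 := 536870912) (P2 := 1610612736) (W2 := 536870912) (P3 := 649613803) (W3 := 48318383) (N0 := 3) (En := eng) (mo := mog) (C1 := cd1q2a) (C2 := cd2q3) (C3 := pd0)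
    rfl (fun _ => rfl) k0_pp_203_a

noncomputable def f_pp_203_b : ℕ → ℕ → ℕ → ℕ → Bool := onCell 1239849684 370763052 1610612736 536870912 649613803 48318383
    (rowB 3 eng mog cd1q2b cd2q3 pd0 0 false true true .up 2 0 3 (qsf 1239849684 370763052 1610612736 536870912 0) ndB1q2b ndB2q3 pcB0 Cut.none Ext.none)

def k0_pp_203_b : ∃ t, chk3 f_pp_203_b t 1 1 1 = true :=
  ⟨(l 3), by decide +kernel⟩

theorem c_pp_203_b : CertB 1239849684 370763052 1610612736 536870912 649613803 48318383 3 eng mog cd1q2b cd2q3 pd0 false true true .up 2 0 3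
    ndB1q2b ndB2q3 pcB0 Cut.none Ext.none :=
  certB0 (fam := false) (s1 := true) (s2 := true) (a := 2) (b := 0) (c := 3) (cn := .up) (n1 := ndB1q2b) (n2 := ndB2q3) (pc := pcB0) (cut := Cut.none) (xt := Ext.none) (P1 := 1239849684) (W1 := 370763052) (P2 := 1610612736) (W2 := 536870912) (P3 := 649613803) (W3 := 48318383) (N0 := 3) (En := eng) (mo := mog) (C1 := cd1q2b) (C2 := cd2q3) (C3 := pd0)
    rfl k0_pp_203_b

noncomputable def cut_pp_213_a : Cut := Cut.of [[⟨0, 1, 0, 67108864⟩, ⟨1, 1, 0, 67108864⟩, ⟨2, 2, 0, 16777216⟩]]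

noncomputable def f_pp_213_a : ℕ → ℕ → ℕ → ℕ → Bool := onCell 0 536870912 1610612736 536870912 649613803 48318383
    (rowB 3 eng mog cd1q2a cd2q3 pd1 0 false true true .pnn 2 1 3 (qsf 0 536870912 1610612736 536870912 1) ndB1q2a ndB2q3 pcB1 cut_pp_213_a Ext.none)

def k0_pp_213_a : ∃ t, chk3 f_pp_213_a t 1 1 1 = true :=
  ⟨(b (l 3) (a (l 3) (b (l 3) (a (l 3) (b (l 3) (a (l 3) (b (l 3) (b (l 3) (b (l 3) (l 6)))))))))), by decide +kernel⟩

theorem c_pp_213_a : CertB 0 536870912 1610612736 536870912 649613803 48318383 3 eng mog cd1q2a cd2q3 pd1 false true true .pnn 2 1 3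
    ndB1q2a ndB2q3 pcB1 cut_pp_213_a Ext.none :=
  certB0 (fam := false) (s1 := true) (s2 := true) (a := 2) (b := 1) (c := 3) (cn := .pnn) (n1 := ndB1q2a) (n2 := ndB2q3) (pc := pcB1) (cut := cut_pp_213_a) (xt := Ext.none) (P1 := 0) (W1 := 536870912) (P2 := 1610612736) (W2 := 536870912) (P3 := 649613803) (W3 := 48318383) (N0 := 3) (En := eng) (mo := mog) (C1 := cd1q2a) (C2 := cd2q3) (C3 := pd1)
    rfl k0_pp_213_a

noncomputable def cut_pp_213_b : Cut := Cut.of [[⟨0, 1, 0, 67108864⟩, ⟨1, 1, 0, 67108864⟩, ⟨2, 2, 0, 16777216⟩]]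

noncomputable def f_pp_213_b : ℕ → ℕ → ℕ → ℕ → Bool := onCell 1239849684 370763052 1610612736 536870912 649613803 48318383
    (rowB 3 eng mog cd1q2b cd2q3 pd1 0 false true true .pnn 2 1 3 (qsf 1239849684 370763052 1610612736 536870912 1) ndB1q2b ndB2q3 pcB1 cut_pp_213_b Ext.none)

def k0_pp_213_b : ∃ t, chk3 f_pp_213_b t 1 1 1 = true :=
  ⟨(l 3), by decide +kernel⟩

theorem c_pp_213_b : CertB 1239849684 370763052 1610612736 536870912 649613803 48318383 3 eng mog cd1q2b cd2q3 pd1 false true true .pnn 2 1 3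
    ndB1q2b ndB2q3 pcB1 cut_pp_213_b Ext.none :=
  certB0 (fam := false) (s1 := true) (s2 := true) (a := 2) (b := 1) (c := 3) (cn := .pnn) (n1 := ndB1q2b) (n2 := ndB2q3) (pc := pcB1) (cut := cut_pp_213_b) (xt := Ext.none) (P1 := 1239849684) (W1 := 370763052) (P2 := 1610612736) (W2 := 536870912) (P3 := 649613803) (W3 := 48318383) (N0 := 3) (En := eng) (mo := mog) (C1 := cd1q2b) (C2 := cd2q3) (C3 := pd1)
    rfl k0_pp_213_b

noncomputable def f_pp_303 : ℕ → ℕ → ℕ → ℕ → Bool := onCell 1610612736 536870912 1610612736 536870912 649613803 48318383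
    (rowB 3 eng mog cd1q3 cd2q3 pd0 0 false true true .npn 3 0 3 (qsf 1610612736 536870912 1610612736 536870912 0) ndB1q3 ndB2q3 pcB0 Cut.none Ext.none)

def k0_pp_303 : ∃ t, chk3 f_pp_303 t 1 1 1 = true :=
  ⟨(l 3), by decide +kernel⟩

theorem c_pp_303 : CertB 1610612736 536870912 1610612736 536870912 649613803 48318383 3 eng mog cd1q3 cd2q3 pd0 false true true .npn 3 0 3
    ndB1q3 ndB2q3 pcB0 Cut.none Ext.none :=
  certB0 (fam := false) (s1 := true) (s2 := true) (a := 3) (b := 0) (c := 3) (cn := .npn) (n1 := ndB1q3) (n2 := ndB2q3) (pc := pcB0) (cut := Cut.none) (xt := Ext.none) (P1 := 1610612736) (W1 := 536870912) (P2 := 1610612736) (W2 := 536870912) (P3 := 649613803) (W3 := 48318383) (N0 := 3) (En := eng) (mo := mog) (C1 := cd1q3) (C2 := cd2q3) (C3 := pd0)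
    rfl k0_pp_303

noncomputable def f_pp_313 : ℕ → ℕ → ℕ → ℕ → Bool := onCell 1610612736 536870912 1610612736 536870912 649613803 48318383
    (rowB 3 eng mog cd1q3 cd2q3 pd1 0 false true true .dn 3 1 3 (qsf 1610612736 536870912 1610612736 536870912 1) ndB1q3 ndB2q3 pcB1 Cut.none Ext.none)

def k0_pp_313 : ∃ t, chk3 f_pp_313 t 1 1 1 = true :=
  ⟨(l 3), by decide +kernel⟩

theorem c_pp_313 : CertB 1610612736 536870912 1610612736 536870912 649613803 48318383 3 eng mog cd1q3 cd2q3 pd1 false true true .dn 3 1 3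
    ndB1q3 ndB2q3 pcB1 Cut.none Ext.none :=
  certB0 (fam := false) (s1 := true) (s2 := true) (a := 3) (b := 1) (c := 3) (cn := .dn) (n1 := ndB1q3) (n2 := ndB2q3) (pc := pcB1) (cut := Cut.none) (xt := Ext.none) (P1 := 1610612736) (W1 := 536870912) (P2 := 1610612736) (W2 := 536870912) (P3 := 649613803) (W3 := 48318383) (N0 := 3) (En := eng) (mo := mog) (C1 := cd1q3) (C2 := cd2q3) (C3 := pd1)
    rfl k0_pp_313

noncomputable def f_pm_001 : ℕ → ℕ → ℕ → ℕ → Bool := onCell 0 536870912 536870912 536870912 649613803 48318383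
    (rowB 3 eng mog cd1q0 cd2q1 pd0 0 false true false .up 0 0 1 (qsf 0 536870912 536870912 536870912 0) ndB1q0 ndB2q1 pcB0 Cut.none Ext.none)

def k0_pm_001 : ∃ t, chk3 f_pm_001 t 1 1 1 = true :=
  ⟨(a (l 4) (b (l 4) (a (l 4) (l 4)))), by decide +kernel⟩

theorem c_pm_001 : CertB 0 536870912 536870912 536870912 649613803 48318383 3 eng mog cd1q0 cd2q1 pd0 false true false .up 0 0 1
    ndB1q0 ndB2q1 pcB0 Cut.none Ext.none :=
  certB0 (fam := false) (s1 := true) (s2 := false) (a := 0) (b := 0) (c := 1) (cn := .up) (n1 := ndB1q0) (n2 := ndB2q1) (pc := pcB0) (cut := Cut.none) (xt := Ext.none) (P1 := 0) (W1 := 536870912) (P2 := 536870912) (W2 := 536870912) (P3 := 649613803) (W3 := 48318383) (N0 := 3) (En := eng) (mo := mog) (C1 := cd1q0) (C2 := cd2q1) (C3 := pd0)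
    rfl k0_pm_001

noncomputable def f_pm_011 : ℕ → ℕ → ℕ → ℕ → Bool := onCell 0 536870912 536870912 536870912 649613803 48318383
    (rowB 3 eng mog cd1q0 cd2q1 pd1 0 false true false .pnn 0 1 1 (qsf 0 536870912 536870912 536870912 1) ndB1q0 ndB2q1 pcB1 Cut.none Ext.none)

def k0_pm_011 : ∃ t, chk3 f_pm_011 t 1 1 1 = true :=
  ⟨(b (l 4) (a (l 4) (b (l 4) (l 4)))), by decide +kernel⟩

theorem c_pm_011 : CertB 0 536870912 536870912 536870912 649613803 48318383 3 eng mog cd1q0 cd2q1 pd1 false true false .pnn 0 1 1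
    ndB1q0 ndB2q1 pcB1 Cut.none Ext.none :=
  certB0 (fam := false) (s1 := true) (s2 := false) (a := 0) (b := 1) (c := 1) (cn := .pnn) (n1 := ndB1q0) (n2 := ndB2q1) (pc := pcB1) (cut := Cut.none) (xt := Ext.none) (P1 := 0) (W1 := 536870912) (P2 := 536870912) (W2 := 536870912) (P3 := 649613803) (W3 := 48318383) (N0 := 3) (En := eng) (mo := mog) (C1 := cd1q0) (C2 := cd2q1) (C3 := pd1)
    rfl k0_pm_011

noncomputable def cut_pm_012_a : Cut := Cut.of [[⟨0, 0, 0, 67108864⟩, ⟨1, 1, 0, 67108864⟩, ⟨2, 1, 0, 67108864⟩]]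

noncomputable def f_pm_012_a : ℕ → ℕ → ℕ → ℕ → Bool := onCell 536870912 536870912 0 536870912 649613803 48318383
    (rowB 3 eng mog cd1q0 cd2q2a pd1 2 false true false .pnp 0 1 2 (qsf 0 536870912 0 536870912 1) ndB1q0 ndB2q2a pcB1 cut_pm_012_a Ext.none)

def k0_pm_012_a : ∃ t, chk3 f_pm_012_a t 2 1 1 = true :=
  ⟨(b (a (b (l 2) (a (l 2) (b (l 2) (l 16529424)))) (b (a (b (l 16612456) (l 16623888)) (b (l 16577256) (l 16550552))) (a (b (l 16550920) (l 16512360)) (b (l 16522320) (l 16491800))))) (a (a (b (l 2) (b (l 16319200) (l 16326856))) (b (b (l 16474888) (l 16418344)) (b (l 16369232) (l 16409472)))) (b (a (b (l 16471776) (a (l 16430488) (l 16436288))) (b (l 16463632) (b (l 16446512) (l 16438856)))) (b (a (a (l 16398648) (l 16415080)) (a (l 16429784) (l 16443952))) (a (b (l 16404096) (l 16452336)) (b (l 16450728) (l 16511528))))))), by decide +kernel⟩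

def k1_pm_012_a : ∃ t, chk3 f_pm_012_a t 3 2 1 = true :=
  ⟨(a (a (b (b (a (l 16552168) (l 16533912)) (l 16515232)) (b (l 16512240) (l 16531696))) (b (a (b (l 16514448) (l 16488104)) (b (l 16498392) (l 16473832))) (a (b (l 16467424) (l 16451600)) (b (l 16456128) (l 16445496))))) (a (b (a (b (l 16483936) (l 16461288)) (b (l 16471048) (l 16450120))) (a (b (l 16446800) (l 16441696)) (b (l 16438616) (l 16438920)))) (b (a (b (l 16459504) (l 16440040)) (b (l 16449856) (a (l 16433632) (l 16430048)))) (a (b (l 16452432) (l 16458512)) (b (b (l 16425440) (l 16426744)) (b (l 16432720) (l 16443760))))))), by decide +kernel⟩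

def k2_pm_012_a : ∃ t, chk3 f_pm_012_a t 3 3 1 = true :=
  ⟨(a (a (b (b (a (l 16455688) (l 16450416)) (b (l 16448184) (l 16450752))) (b (b (l 16479152) (a (l 16464992) (l 16482992))) (b (l 16539824) (a (l 16514736) (l 16544928))))) (a (b (b (l 16445960) (a (l 16454720) (l 16500160))) (b (b (l 16498328) (l 16564576)) (b (l 16534336) (l 16617352)))) (b (b (l 16447192) (b (l 16459224) (l 16473816))) (b (b (l 16495040) (l 16524424)) (b (l 16562520) (b (l 16593464) (l 16591264))))))) (b (a (b (a (l 16450800) (l 16455240)) (a (b (l 16469472) (l 16488616)) (b (l 16481056) (l 16505328)))) (b (a (b (l 16453560) (l 16471152)) (b (l 16459944) (a (l 16479440) (l 16483328)))) (a (a (l 16546840) (l 16512568)) (a (b (l 16504224) (l 16534024)) (b (l 16508056) (l 16539400)))))) (a (b (b (a (l 16515192) (l 16537456)) (a (l 16549936) (l 16597672))) (b (a (l 16609520) (a (l 16609216) (l 16623656))) (a (b (a (l 16612000) (l 16625008)) (a (b (l 16626392) (l 16636752)) (l 16646936)))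 (b (l 16648608) (b (l 16687160) (a (l 16669752) (l 16687152))))))) (b (b (a (l 16579496) (a (l 16570720) (l 16620048))) (a (l 16620368) (a (b (l 16602240) (l 16625400)) (a (l 16641704) (l 16646232))))) (a (b (a (l 16639096) (l 16679296)) (b (a (l 16673528) (l 16701088)) (a (b (l 16692072) (l 16725896)) (l 6)))) (b (a (b (l 16650728) (l 6)) (l 6)) (l 6))))))), by decide +kernel⟩

theorem s3_pm_012_a : ∃ t, chk3 f_pm_012_a t 3 1 1 = true := ex3_b k1_pm_012_a k2_pm_012_a

theorem s4_pm_012_a : ∃ t, chk3 f_pm_012_a t 1 1 1 = true := ex3_a k0_pm_012_a s3_pm_012_a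

theorem c_pm_012_a : CertB 0 536870912 0 536870912 649613803 48318383 3 eng mog cd1q0 cd2q2a pd1 false true false .pnp 0 1 2
    ndB1q0 ndB2q2a pcB1 cut_pm_012_a Ext.none :=
  certB2 (fam := false) (s1 := true) (s2 := false) (a := 0) (b := 1) (c := 2) (cn := .pnp) (n1 := ndB1q0) (n2 := ndB2q2a) (pc := pcB1) (cut := cut_pm_012_a) (xt := Ext.none) (P1 := 0) (W1 := 536870912) (P2 := 0) (W2 := 536870912) (P3 := 649613803) (W3 := 48318383) (N0 := 3) (En := eng) (mo := mog) (C1 := cd1q0) (C2 := cd2q2a) (C3 := pd1)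
    rfl (fun _ => rfl) s4_pm_012_a

noncomputable def cut_pm_012_b : Cut := Cut.of [[⟨0, 0, 0, 67108864⟩, ⟨1, 1, 0, 67108864⟩, ⟨2, 1, 0, 67108864⟩]]

noncomputable def f_pm_012_b : ℕ → ℕ → ℕ → ℕ → Bool := onCell 536870912 536870912 1239849684 370763052 649613803 48318383
    (rowB 3 eng mog cd1q0 cd2q2b pd1 2 false true false .pnp 0 1 2 (qsf 0 536870912 1239849684 370763052 1) ndB1q0 ndB2q2b pcB1 cut_pm_012_b Ext.none)

def k0_pm_012_b : ∃ t, chk3 f_pm_012_b t 1 1 1 = true :=
  ⟨(a (a (l 2) (b (b (a (b (l 16632104) (l 2)) (b (l 16589096) (l 16588888))) (a (l 2) (l 16604376))) (l 2))) (a (b (b (a (b (a (l 16557336) (l 16535824)) (l 16534088)) (b (a (l 16513472) (l 16491680)) (a (l 16491168) (l 16461816)))) (a (l 16535688) (a (l 16480568) (l 16444776)))) (a (l 2) (b (l 16613568) (l 2)))) (b (a (b (a (b (l 16471080) (l 16431520)) (b (l 16451488) (l 16400864))) (b (l 16432288) (l 16381512))) (b (b (a (l 16475256) (l 16479632)) (a (l 16370544) (l 16341200)))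 (b (a (l 16329312) (l 16287880)) (l 16304288)))) (b (a (a (l 16418480) (l 16368608)) (b (l 16277480) (l 16288728))) (a (l 16453456) (l 16334336)))))), by decide +kernel⟩

theorem c_pm_012_b : CertB 0 536870912 1239849684 370763052 649613803 48318383 3 eng mog cd1q0 cd2q2b pd1 false true false .pnp 0 1 2
    ndB1q0 ndB2q2b pcB1 cut_pm_012_b Ext.none :=
  certB2 (fam := false) (s1 := true) (s2 := false) (a := 0) (b := 1) (c := 2) (cn := .pnp) (n1 := ndB1q0) (n2 := ndB2q2b) (pc := pcB1) (cut := cut_pm_012_b) (xt := Ext.none) (P1 := 0) (W1 := 536870912) (P2 := 1239849684) (W2 := 370763052) (P3 := 649613803) (W3 := 48318383) (N0 := 3) (En := eng) (mo := mog) (C1 := cd1q0) (C2 := cd2q2b) (C3 := pd1)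
    rfl (fun _ => rfl) k0_pm_012_b

noncomputable def cut_pm_022_a : Cut := Cut.of [[⟨0, 0, 0, 67108864⟩, ⟨1, 1, 0, 67108864⟩, ⟨2, 1, 0, 67108864⟩]]

noncomputable def f_pm_022_a : ℕ → ℕ → ℕ → ℕ → Bool := onCell 1073741824 536870912 0 536870912 649613803 48318383
    (rowB 3 eng mog cd1q0 cd2q2a pd2 2 false true false .pp 0 2 2 (qsf 0 536870912 0 536870912 2) ndB1q0 ndB2q2a pcB2 cut_pm_022_a Ext.none)

def k0_pm_022_a : ∃ t, chk3 f_pm_022_a t 2 2 1 = true :=
  ⟨(a (a (b (b (a (b (l 16454144) (l 16483832)) (b (l 16448408) (l 16440344))) (a (b (l 16453352) (l 16446784)) (l 16496608))) (a (b (b (a (l 16418704) (l 16446200)) (l 16488416)) (b (l 16453496) (l 16444992))) (b (b (l 16475256) (l 16439016)) (b (l 16449904) (l 16465744))))) (b (b (a (l 16483456) (a (l 16441128) (l 16441584))) (a (b (l 16437528) (l 16459288)) (b (l 16442168) (a (l 16444592) (l 16448848))))) (b (a (b (l 16443600) (l 16452824)) (b (l 16454384) (l 16508760))) (a (b (l 16488056) (l 16528248))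 (b (a (l 16479864) (l 16509104)) (a (l 16501320) (b (l 16504600) (l 16517224)))))))) (a (b (a (b (c (l 16443520) (l 16443296)) (b (a (l 16446288) (l 16449288)) (a (l 16452928) (l 16456968)))) (b (l 1) (l 1))) (a (b (b (c (l 16497304) (l 58015027751)) (a (l 16497904) (c (l 16483304) (l 16483872)))) (a (b (c (l 16517072) (l 16496512)) (c (l 75731833143) (l 146062010087))) (l 1))) (l 1))) (l 1))), by decide +kernel⟩

def k1_pm_022_a : ∃ t, chk3 f_pm_022_a t 2 3 1 = true :=
  ⟨(a (b (a (a (b (b (l 16462408) (l 16485504)) (b (a (l 16506824) (l 16523168)) (a (l 16542272) (l 16560624)))) (b (b (l 16507824) (l 16555712)) (b (a (l 16539200) (l 16575832)) (a (l 16578520) (l 16595896))))) (b (a (b (c (l 16533024) (l 16551672)) (a (l 16555288) (l 16547552))) (a (b (l 16527968) (b (l 16551488) (l 16589352))) (b (a (l 16536176) (l 158946854167)) (l 1)))) (a (b (a (l 16570088) (a (l 16581176) (l 197064833079))) (a (b (l 16601064) (a (l 16614504) (l 236793245191))) (b (l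 503618122071) (l 1)))) (b (a (l 450467866375) (l 1)) (l 1))))) (a (b (b (a (a (b (l 16573440) (l 16596840)) (a (l 16621384) (l 16610424))) (a (l 16656600) (b (l 16627072) (a (l 16642352) (b (l 16639800) (l 322692728983)))))) (a (l 6) (a (l 6) (a (l 6) (a (l 6) (l 1)))))) (a (l 6) (a (l 6) (l 1)))) (b (a (b (a (b (a (l 282964199767) (l 510060627543)) (a (l 497175755079) (l 1))) (l 1)) (l 1)) (l 1)) (l 1)))) (b (l 1) (l 1))), by decide +kernel⟩

def k2_pm_022_a : ∃ t, chk3 f_pm_022_a t 3 1 1 = true :=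
  ⟨(l 1), by decide +kernel⟩

theorem s3_pm_022_a : ∃ t, chk3 f_pm_022_a t 2 1 1 = true := ex3_b k0_pm_022_a k1_pm_022_a

theorem s4_pm_022_a : ∃ t, chk3 f_pm_022_a t 1 1 1 = true := ex3_a s3_pm_022_a k2_pm_022_a

theorem c_pm_022_a : CertB 0 536870912 0 536870912 649613803 48318383 3 eng mog cd1q0 cd2q2a pd2 false true false .pp 0 2 2
    ndB1q0 ndB2q2a pcB2 cut_pm_022_a Ext.none :=
  certB2 (fam := false) (s1 := true) (s2 := false) (a := 0) (b := 2) (c := 2) (cn := .pp) (n1 := ndB1q0) (n2 := ndB2q2a) (pc := pcB2) (cut := cut_pm_022_a) (xt := Ext.none) (P1 := 0) (W1 := 536870912) (P2 := 0) (W2 := 536870912) (P3 := 649613803) (W3 := 48318383) (N0 := 3) (En := eng) (mo := mog) (C1 := cd1q0) (C2 := cd2q2a) (C3 := pd2)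
    rfl (fun _ => rfl) s4_pm_022_a

noncomputable def cut_pm_022_b : Cut := Cut.of [[⟨0, 0, 0, 67108864⟩, ⟨1, 1, 0, 67108864⟩, ⟨2, 1, 0, 67108864⟩]]

noncomputable def f_pm_022_b : ℕ → ℕ → ℕ → ℕ → Bool := onCell 1073741824 536870912 1239849684 370763052 649613803 48318383
    (rowB 3 eng mog cd1q0 cd2q2b pd2 2 false true false .pp 0 2 2 (qsf 0 536870912 1239849684 370763052 2) ndB1q0 ndB2q2b pcB2 cut_pm_022_b Ext.none)

def k0_pm_022_b : ∃ t, chk3 f_pm_022_b t 1 1 1 = true :=
  ⟨(a (a (b (b (a (b (a (b (l 16435760) (l 16388912)) (b (l 16428248) (l 16381120))) (a (l 16328776) (l 16318856))) (b (a (l 16418736) (l 16477816)) (a (l 16310792) (l 16325784)))) (b (a (a (l 16267448) (l 16253240)) (a (l 16241840) (l 16232232))) (a (l 16281536) (l 16353144)))) (a (b (a (l 16213000) (l 16182320)) (a (l 16253448) (l 16208816))) (b (a (l 16156120) (l 16133856)) (b (l 16145824) (l 16164704))))) (b (b (a (a (b (c (l 16415312) (l 16433816)) (l 16301952)) (b (a (c (l 16436480)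 (l 16413376)) (b (l 16485888) (l 16374904))) (a (l 16301608) (l 16297248)))) (b (a (b (l 1) (l 359199258023)) (l 1)) (a (l 16400528) (l 343630176791)))) (a (a (b (l 16224848) (l 16167144)) (b (a (l 16221392) (l 16227536)) (a (l 16158952) (l 16161968)))) (a (b (l 16237824) (l 16170576)) (l 71436659079)))) (a (b (a (l 16178096) (b (l 16118416) (l 16092432))) (a (l 16108512) (l 16192832))) (b (a (l 16130416) (b (l 16119176) (l 16091064))) (b (l 16087984) (l 16095424)))))) (b (a (b (l 1) (a (b (a (l 260951829431) (l 418791722039)) (a (l 16159840) (l 255582881271))) (a (b (l 1) (l 364567619815)) (l 1)))) (l 1)) (a (a (b (b (l 16304328) (l 16162904)) (a (l 16063984) (l 16027312))) (b (a (b (l 273299453623) (l 16030520)) (b (l 258803999367) (l 16037024))) (a (l 15977032) (l 15967256)))) (a (b (b (l 1) (l 284036885415)) (a (l 15984048) (l 15988880))) (b (l 1) (b (l 315712383735) (l 148208776039))))))), by decide +kernel⟩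

theorem c_pm_022_b : CertB 0 536870912 1239849684 370763052 649613803 48318383 3 eng mog cd1q0 cd2q2b pd2 false true false .pp 0 2 2
    ndB1q0 ndB2q2b pcB2 cut_pm_022_b Ext.none :=
  certB2 (fam := false) (s1 := true) (s2 := false) (a := 0) (b := 2) (c := 2) (cn := .pp) (n1 := ndB1q0) (n2 := ndB2q2b) (pc := pcB2) (cut := cut_pm_022_b) (xt := Ext.none) (P1 := 0) (W1 := 536870912) (P2 := 1239849684) (W2 := 370763052) (P3 := 649613803) (W3 := 48318383) (N0 := 3) (En := eng) (mo := mog) (C1 := cd1q0) (C2 := cd2q2b) (C3 := pd2)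
    rfl (fun _ => rfl) k0_pm_022_b

noncomputable def f_pm_023 : ℕ → ℕ → ℕ → ℕ → Bool := onCell 0 536870912 1073741824 536870912 649613803 48318383
    (rowB 3 eng mog cd1q0 cd2q3 pd2 1 false true false .up 0 2 3 (qsf 0 536870912 1610612736 536870912 2) ndB1q0 ndB2q3 pcB2 Cut.none Ext.none)

def k0_pm_023 : ∃ t, chk3 f_pm_023 t 1 1 1 = true :=
  ⟨(b (a (b (l 1) (a (l 1) (b (l 1) (l 331282030759)))) (b (a (b (l 1) (l 149282885223)) (b (l 143377359751) (l 16274424))) (a (b (a (l 271152486327) (l 183642551527)) (l 206191139175)) (b (b (l 16145936) (l 16142312)) (l 16190560))))) (b (a (a (b (l 1) (l 293163793479)) (b (l 222296784535) (l 264709744359))) (a (b (l 16113128) (l 16098248)) (b (l 16274832) (l 16394888)))) (a (a (b (l 332892255239) (l 346851126135)) (b (l 15966056) (l 16048760))) (a (b (l 16250824) (l 16394296)) (l 16608048))))), by decide +kernel⟩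

theorem c_pm_023 : CertB 0 536870912 1610612736 536870912 649613803 48318383 3 eng mog cd1q0 cd2q3 pd2 false true false .up 0 2 3
    ndB1q0 ndB2q3 pcB2 Cut.none Ext.none :=
  certB1 (fam := false) (s1 := true) (s2 := false) (a := 0) (b := 2) (c := 3) (cn := .up) (n1 := ndB1q0) (n2 := ndB2q3) (pc := pcB2) (cut := Cut.none) (xt := Ext.none) (P1 := 0) (W1 := 536870912) (P2 := 1610612736) (W2 := 536870912) (P3 := 649613803) (W3 := 48318383) (N0 := 3) (En := eng) (mo := mog) (C1 := cd1q0) (C2 := cd2q3) (C3 := pd2)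
    rfl (fun _ => rfl) k0_pm_023

noncomputable def f_pm_033 : ℕ → ℕ → ℕ → ℕ → Bool := onCell 0 536870912 1610612736 536870912 649613803 48318383
    (rowB 3 eng mog cd1q0 cd2q3 pd3 1 false true false .pnn 0 3 3 (qsf 0 536870912 1610612736 536870912 3) ndB1q0 ndB2q3 pcB3 Cut.none Ext.none)

def k0_pm_033 : ∃ t, chk3 f_pm_033 t 1 1 1 = true :=
  ⟨(a (b (b (b (a (b (l 16002896) (l 16001128)) (l 16208960)) (a (l 2092419706983) (l 16318208))) (l 4)) (a (l 4) (b (l 4) (a (b (l 4) (l 2)) (l 2))))) (b (b (b (a (l 16471072) (l 16623408)) (a (l 16520096) (l 16654216))) (a (b (l 16559176) (l 16588416)) (a (b (l 16654976) (l 2)) (l 2)))) (a (b (a (b (l 4) (l 2)) (l 2)) (l 2)) (l 2)))), by decide +kernel⟩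

theorem c_pm_033 : CertB 0 536870912 1610612736 536870912 649613803 48318383 3 eng mog cd1q0 cd2q3 pd3 false true false .pnn 0 3 3
    ndB1q0 ndB2q3 pcB3 Cut.none Ext.none :=
  certB1 (fam := false) (s1 := true) (s2 := false) (a := 0) (b := 3) (c := 3) (cn := .pnn) (n1 := ndB1q0) (n2 := ndB2q3) (pc := pcB3) (cut := Cut.none) (xt := Ext.none) (P1 := 0) (W1 := 536870912) (P2 := 1610612736) (W2 := 536870912) (P3 := 649613803) (W3 := 48318383) (N0 := 3) (En := eng) (mo := mog) (C1 := cd1q0) (C2 := cd2q3) (C3 := pd3)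
    rfl (fun _ => rfl) k0_pm_033

noncomputable def f_pm_101 : ℕ → ℕ → ℕ → ℕ → Bool := onCell 0 536870912 536870912 536870912 649613803 48318383
    (rowB 3 eng mog cd1q1 cd2q1 pd0 2 false true false .npn 1 0 1 (qsf 536870912 536870912 536870912 536870912 0) ndB1q1 ndB2q1 pcB0 Cut.none Ext.none)

def k0_pm_101 : ∃ t, chk3 f_pm_101 t 1 1 1 = true :=
  ⟨(a (b (l 4) (a (b (a (b (a (b (l 16484912) (l 16458952)) (b (l 4) (l 16461592))) (a (b (l 16454296) (l 16458520)) (b (l 16447608) (l 16448928)))) (b (a (b (l 4) (l 16466424)) (l 4)) (a (b (l 16437488) (l 16434296)) (b (a (l 16430848) (l 16428488)) (l 16414024))))) (a (b (b (a (b (l 16467920) (a (l 16480080) (l 16475256))) (l 16460104)) (a (b (l 16484920) (l 16493248)) (b (l 16466680) (l 16474368)))) (b (a (l 16515632) (l 16486272)) (b (a (l 16529544) (l 16500144)) (a (l 16534352) (l 16511728))))) (b (b (a (l 16441824) (l 16419888)) (a (b (l 16453944) (l 16452600)) (b (l 16430232) (l 16501440)))) (b (a (l 16462208)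 (l 16563352)) (a (l 16476392) (l 16442976)))))) (b (b (l 4) (a (a (b (l 16427464) (l 16392176)) (b (l 4) (l 16375872))) (a (b (l 4) (l 16364720)) (l 4)))) (a (a (b (b (l 16387312) (l 16397872)) (b (a (l 16413688) (l 16394256)) (l 16407440))) (b (b (l 16352520) (l 16352648)) (b (l 16509256) (l 16366256)))) (b (a (b (l 16320720) (l 16308016)) (b (l 16295456) (l 16263960))) (b (a (l 16314232) (l 16255032)) (a (l 16313728) (l 16249880)))))))) (b (l 4) (b (l 4) (b (a (a (b (a (l 16275256) (l 4)) (a (l 16221744) (l 16185032))) (b (l 4) (a (l 16152592) (l 4)))) (l 4)) (b (a (a (l 16173872) (a (l 16088680) (l 16029744))) (a (a (l 16081864) (l 4)) (l 4))) (a (a (a (l 16192488) (l 16134792)) (l 16089608)) (a (a (l 16003808) (l 16052136)) (a (l 16096248) (l 16142568))))))))), by decide +kernel⟩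

theorem c_pm_101 : CertB 536870912 536870912 536870912 536870912 649613803 48318383 3 eng mog cd1q1 cd2q1 pd0 false true false .npn 1 0 1
    ndB1q1 ndB2q1 pcB0 Cut.none Ext.none :=
  certB2 (fam := false) (s1 := true) (s2 := false) (a := 1) (b := 0) (c := 1) (cn := .npn) (n1 := ndB1q1) (n2 := ndB2q1) (pc := pcB0) (cut := Cut.none) (xt := Ext.none) (P1 := 536870912) (W1 := 536870912) (P2 := 536870912) (W2 := 536870912) (P3 := 649613803) (W3 := 48318383) (N0 := 3) (En := eng) (mo := mog) (C1 := cd1q1) (C2 := cd2q1) (C3 := pd0)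
    rfl (fun _ => rfl) k0_pm_101

noncomputable def f_pm_102_a : ℕ → ℕ → ℕ → ℕ → Bool := onCell 536870912 536870912 0 536870912 649613803 48318383
    (rowB 3 eng mog cd1q1 cd2q2a pd0 0 false true false .npp 1 0 2 (qsf 536870912 536870912 0 536870912 0) ndB1q1 ndB2q2a pcB0 Cut.none Ext.none)

def k0_pm_102_a : ∃ t, chk3 f_pm_102_a t 2 2 1 = true :=
  ⟨(a (b (l 2) (b (l 2) (a (l 2) (l 16555128)))) (b (a (b (a (b (l 16728496) (l 16716480)) (b (l 16739856) (l 16730048))) (a (l 16695168) (l 16714024))) (b (a (a (l 16740992) (b (b (l 16743408) (l 16742472)) (l 16740032))) (a (b (b (l 16739688) (l 16740408)) (l 16739912)) (b (b (l 16734040) (l 16735648)) (b (l 16737048) (l 16737560))))) (a (b (l 16732272) (l 16724656)) (b (l 16737992) (l 16734736))))) (b (a (a (l 16658192) (l 16681088)) (a (l 16704552) (b (l 16730288) (l 16718240)))) (a (a (l 16584944) (l 16610832)) (a (l 16663504) (b (l 16696056) (l 16655576))))))), by decide +kernel⟩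

def k1_pm_102_a : ∃ t, chk3 f_pm_102_a t 2 3 1 = true :=
  ⟨(a (b (a (l 2) (b (l 16518544) (l 16496400))) (a (b (b (a (l 2) (l 16466000)) (l 16456600)) (b (a (l 16371488) (l 16379624)) (a (l 16338088) (l 16355192)))) (b (b (a (l 16469928) (l 16480664)) (a (l 16428608) (l 16453320))) (b (a (l 16401208) (b (l 16442096) (l 16439376))) (a (a (l 16380896) (b (l 16403872) (l 16406704))) (a (b (l 16428464) (l 16429376)) (b (l 16451880) (l 16453400)))))))) (b (b (a (l 16545728) (a (l 16603856) (b (l 16643968) (l 16633024)))) (a (l 16550224) (a (l 16589664) (l 16614632)))) (b (a (a (b (l 16505008) (l 16492736)) (b (l 16549200) (l 16544264))) (b (a (l 16586448) (b (l 16626536) (l 16693008))) (a (b (l 16586896) (l 16565144)) (a (l 16749720) (l 16647832))))) (a (b (a (b (l 16490200) (l 16490592)) (b (l 16542296) (b (l 16522008) (l 16522424)))) (a (b (b (l 16492680) (l 16495080)) (a (l 16483424) (a (l 16506912) (l 16498856)))) (a (b (l 16512720) (b (l 16512368) (c (l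 16551024) (l 16488672)))) (a (b (l 16546624) (b (l 16542480) (a (l 16538104) (l 16544920)))) (b (l 16554528) (b (l 16554256) (l 16556616))))))) (a (b (b (a (l 16573544) (l 16596752)) (a (l 16593768) (l 16598248))) (a (b (b (l 16572832) (l 16574264)) (l 16577920)) (b (l 16601696) (l 16606480)))) (c (b (l 16645928) (c (l 16655400) (l 16647232))) (b (l 16627512) (a (l 16622064) (l 16650832))))))))), by decide +kernel⟩

def k2_pm_102_a : ∃ t, chk3 f_pm_102_a t 6 2 1 = true :=
  ⟨(a (b (a (b (a (b (b (a (l 16728752) (l 147807168327)) (l 16729416)) (b (l 16731464) (l 16733432))) (b (b (l 170892605415) (a (l 89288256359) (l 168208252935))) (a (l 16727872) (l 83919552919)))) (a (l 16736440) (b (b (l 16729936) (l 16732128)) (l 16734936)))) (b (b (l 3) (a (b (l 161228924967) (a (l 16721968) (l 152102136839))) (b (l 3) (a (l 154249596471) (l 3))))) (b (a (b (l 16723104) (l 16726096)) (b (a (l 148344045271) (l 155323333607)) (a (l 16720208) (l 16714632)))) (a (b (l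 16729072) (l 16731768)) (b (l 16720888) (l 16724592)))))) (b (b (a (l 16737288) (l 16733144)) (a (l 16735720) (a (l 16739816) (l 16737080)))) (a (l 16692528) (b (a (l 16738616) (l 16742000)) (l 16732224))))) (b (b (l 3) (a (a (b (b (l 3) (a (l 151028361607) (l 137069706135))) (b (a (l 16712472) (l 158007693879)) (a (l 16716368) (l 16710624)))) (b (l 3) (a (b (l 142438410919) (l 151028366679)) (b (l 3) (l 142438407223))))) (l 3))) (b (a (b (a (b (l 16717608) (l 16721800)) (b (a (l 16709008) (l 16703160)) (a (l 16713480) (l 16707680)))) (a (l 16728896) (a (l 16721392) (b (l 16713192) (l 16718736))))) (b (a (b (a (l 158544546423) (l 132237844983)) (a (l 16701856) (l 139217190407))) (b (l 3) (b (l 3) (l 132774699591)))) (a (a (b (l 16707416) (l 16713296)) (b (l 16701640) (l 16707624))) (b (a (l 98951858583) (l 117205403111)) (a (l 16701880) (l 16696216)))))) (a (b (a (l 16737000) (l 16729288)) (a (l 16741024) (l 16738128))) (b (a (l 16719400) (b (a (l 16708128)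 (l 16702448)) (a (l 16714392) (l 16709008)))) (a (l 16730464) (l 16721320))))))), by decide +kernel⟩

def k3_pm_102_a : ∃ t, chk3 f_pm_102_a t 7 2 1 = true :=
  ⟨(a (b (l 3) (a (b (b (l 3) (a (b (l 3) (a (l 122574174103) (l 116131681735))) (l 3))) (b (a (b (a (l 16696928) (l 123647938615)) (a (l 16682496) (l 16698072))) (b (a (l 154249574775) (l 3)) (a (l 16713720) (b (l 3) (l 128479763607))))) (a (b (a (l 16710160) (l 16704880)) (l 16714240)) (b (a (l 16699552) (b (l 16692032) (l 16695976))) (a (l 16706488) (b (l 16699568) (l 16702920))))))) (b (l 3) (b (l 3) (a (a (b (b (l 162839475639) (l 151565239831)) (b (l 16693312) (l 16697616))) (b (l 3) (b (l 167134474743) (l 173040096215)))) (l 3)))))) (l 3)), by decide +kernel⟩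

def k4_pm_102_a : ∃ t, chk3 f_pm_102_a t 6 3 1 = true :=
  ⟨(b (a (b (b (a (l 16736328) (l 16702968)) (a (l 16646256) (l 16673952))) (a (l 16661536) (a (l 16686960) (l 16678448)))) (b (a (b (l 16737992) (l 16774936)) (b (a (l 16739544) (b (l 16730168) (l 16735864))) (a (l 16739248) (l 16741224)))) (a (b (a (l 16705248) (l 16710944)) (a (l 16707208) (l 16712328))) (b (b (l 16648472) (a (l 16716576) (l 16725536))) (a (l 16716280) (l 16720768)))))) (b (a (b (a (l 16671232) (l 16705704)) (a (c (l 16686888) (l 16659288)) (b (l 16718440) (l 16699408)))) (b (a (c (l 16716608) (l 16703240)) (l 16722888)) (a (b (l 16730840) (l 16712808)) (b (l 16730568) (l 16757240))))) (a (a (a (b (l 16672168) (b (l 16676840) (l 16681672))) (b (l 16693968) (b (l 16698528) (l 16702728)))) (a (b (l 16818776) (b (l 16717064) (l 16720072))) (b (l 16790024) (b (l 16728560) (l 16731816))))) (b (a (b (l 16731800) (l 16731776)) (a (l 16734048) (l 16755680))) (a (a (l 16817992) (b (l 16735256)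 (l 16739712))) (b (a (l 16737280) (l 16737608)) (a (l 16741288) (l 16741048)))))))), by decide +kernel⟩

def k5_pm_102_a : ∃ t, chk3 f_pm_102_a t 14 6 1 = true :=
  ⟨(b (a (a (b (l 16723840) (l 16736432)) (b (a (l 16716600) (b (b (l 16706368) (l 16709696)) (l 16714816))) (b (l 16744736) (l 16730696)))) (b (a (b (a (b (l 16701392) (l 16704856)) (b (l 16694800) (l 16699560))) (a (l 16709888) (b (l 16703520) (l 16706968)))) (b (a (b (l 173040058727) (l 169818820023)) (b (l 3) (l 165523828567))) (a (b (l 16696544) (l 16701624)) (b (l 181630006519) (l 176261273159))))) (a (b (l 16714352) (l 16720912)) (b (a (b (l 16705944) (l 16709216)) (b (l 16698560) (l 16703568))) (a (l 16714376) (b (l 16708496) (l 16711848))))))) (a (b (l 16741600) (a (l 16705680) (b (l 16742920) (l 16738272)))) (b (a (b (l 16728184) (l 16734360)) (b (l 16718784) (l 16726120))) (a (l 16741568) (l 16735896))))), by decide +kernel⟩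

def k6_pm_102_a : ∃ t, chk3 f_pm_102_a t 15 6 1 = true :=
  ⟨(a (b (b (a (b (l 3) (a (b (l 3) (l 162302605703)) (l 3))) (l 3)) (a (b (a (b (a (l 16692184) (l 119889819991)) (a (l 16697256) (l 16693088))) (b (l 3) (a (l 16699888) (l 3)))) (a (b (l 16700488) (l 16705336)) (a (b (l 16694016) (l 16699032)) (b (l 16690344) (l 16694944))))) (b (l 3) (a (a (b (l 3) (l 16691336)) (b (l 3) (l 145122740903))) (l 3))))) (a (b (b (a (l 16713088) (b (a (l 16683024) (l 16699848)) (a (l 16709408) (l 16704672)))) (a (l 16719640) (l 16715472))) (b (a (l 16726936) (l 16722784)) (a (l 16733232) (l 16729688)))) (b (b (a (a (b (l 16695832) (l 16700488)) (b (l 16692376) (l 16696640))) (b (a (l 146196486791) (l 3)) (a (l 16693432) (l 145122749031)))) (a (b (a (l 16705320) (l 16700960)) (a (l 16711056) (l 16705968))) (b (a (l 16697296) (l 16704960)) (a (b (l 16700144) (l 16702296)) (l 16698040))))) (b (a (l 16717392) (b (a (l 16685848) (l 16702632)) (l 16711200))) (a (l 16725792)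 (l 16741568)))))) (b (l 3) (b (a (b (l 3) (a (b (a (l 143512146583) (l 3)) (a (l 16695776) (l 16693336))) (l 3))) (l 3)) (a (b (a (b (a (l 16699784) (b (l 16696360) (l 16698344))) (a (l 16683824) (b (l 16700304) (l 16702648)))) (b (c (l 136532817271) (l 147270212343)) (a (l 16698872) (l 84993194663)))) (a (b (a (l 16711520) (l 16707160)) (l 16716288)) (b (a (b (l 16702160) (l 16704696)) (l 16700576)) (a (l 16709520) (l 16705592))))) (b (l 3) (a (b (a (l 85530059975) (l 3)) (l 105931190759)) (l 3))))))), by decide +kernel⟩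

def k7_pm_102_a : ∃ t, chk3 f_pm_102_a t 7 7 1 = true :=
  ⟨(b (a (b (a (a (l 16724504) (l 16727152)) (b (a (l 16743192) (l 16764768)) (l 16738008))) (b (a (l 16730208) (a (l 16731192) (l 16735200))) (a (a (l 16735280) (l 16733864)) (a (l 16732648) (l 16753464))))) (a (b (a (b (l 16736600) (l 16742048)) (b (b (l 16727088) (l 16728912)) (a (l 16734208) (l 16729304)))) (b (a (l 16744272) (a (l 16739120) (l 16651344))) (a (l 16778992) (a (l 16742784) (l 16739304))))) (b (a (a (b (b (l 16719456) (l 16722096)) (l 16724920)) (b (b (l 16714424) (l 16717032)) (b (l 16719512) (l 16721400)))) (b (a (b (a (l 16707728) (l 16704608)) (a (l 16714296) (l 16709968))) (b (l 82845723575) (a (l 16706664) (l 16703552)))) (a (b (a (l 16715888) (l 16714080)) (a (l 16718432) (l 16715936))) (a (b (l 16712328) (l 16713936)) (b (l 16719272) (l 16712552)))))) (a (a (b (l 16730088) (l 16734936)) (b (b (l 16723992) (l 16684640)) (l 16657024))) (a (b (b (l 16719624) (l 16721848)) (b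 (a (l 16726192) (l 16723880)) (l 16727320))) (b (b (a (l 16716760) (l 16714336)) (a (l 16719088) (a (l 16717608) (l 16716904)))) (b (l 16720256) (a (l 16724192) (l 16701608))))))))) (a (a (b (b (l 16838760) (l 16734440)) (b (l 16736488) (l 16739984))) (b (c (l 16732080) (l 16734336)) (a (l 16736816) (l 16735552)))) (b (a (b (a (l 16733656) (b (l 16742944) (l 16736872))) (l 16773216)) (b (a (b (a (l 16738472) (l 16733992)) (l 16737288)) (b (a (l 16750520) (a (l 16726600) (l 16724728))) (a (l 16731208) (b (l 16727456) (l 16727328))))) (a (l 16737256) (a (l 16731864) (l 16727648))))) (b (a (l 16731680) (a (l 16729104) (a (l 16732072) (l 16727848)))) (a (l 16734040) (a (l 16729624) (a (l 16730912) (l 16727112)))))))), by decide +kernel⟩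

theorem s8_pm_102_a : ∃ t, chk3 f_pm_102_a t 7 6 1 = true := ex3_a k5_pm_102_a k6_pm_102_a

theorem s9_pm_102_a : ∃ t, chk3 f_pm_102_a t 7 3 1 = true := ex3_b s8_pm_102_a k7_pm_102_a

theorem s10_pm_102_a : ∃ t, chk3 f_pm_102_a t 3 3 1 = true := ex3_a k4_pm_102_a s9_pm_102_a

theorem s11_pm_102_a : ∃ t, chk3 f_pm_102_a t 3 2 1 = true := ex3_a k2_pm_102_a k3_pm_102_a

theorem s12_pm_102_a : ∃ t, chk3 f_pm_102_a t 3 1 1 = true := ex3_b s11_pm_102_a s10_pm_102_a

theorem s13_pm_102_a : ∃ t, chk3 f_pm_102_a t 2 1 1 = true := ex3_b k0_pm_102_a k1_pm_102_a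

theorem s14_pm_102_a : ∃ t, chk3 f_pm_102_a t 1 1 1 = true := ex3_a s13_pm_102_a s12_pm_102_a

theorem c_pm_102_a : CertB 536870912 536870912 0 536870912 649613803 48318383 3 eng mog cd1q1 cd2q2a pd0 false true false .npp 1 0 2
    ndB1q1 ndB2q2a pcB0 Cut.none Ext.none :=
  certB0 (fam := false) (s1 := true) (s2 := false) (a := 1) (b := 0) (c := 2) (cn := .npp) (n1 := ndB1q1) (n2 := ndB2q2a) (pc := pcB0) (cut := Cut.none) (xt := Ext.none) (P1 := 536870912) (W1 := 536870912) (P2 := 0) (W2 := 536870912) (P3 := 649613803) (W3 := 48318383) (N0 := 3) (En := eng) (mo := mog) (C1 := cd1q1) (C2 := cd2q2a) (C3 := pd0)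
    rfl s14_pm_102_a

noncomputable def f_pm_102_b : ℕ → ℕ → ℕ → ℕ → Bool := onCell 536870912 536870912 0 536870912 649613803 48318383
    (rowB 3 eng mog cd1q1 cd2q2b pd0 1 false true false .npp 1 0 2 (qsf 536870912 536870912 1239849684 370763052 0) ndB1q1 ndB2q2b pcB0 Cut.none Ext.none)

def k0_pm_102_b : ∃ t, chk3 f_pm_102_b t 1 1 1 = true :=
  ⟨(a (b (l 1) (b (l 1) (a (l 1) (b (a (l 1) (b (a (l 1) (b (l 1) (a (l 1) (l 106870849079)))) (a (b (l 1) (a (l 1) (l 16752584))) (b (a (l 16749352) (l 16731840)) (l 16729584))))) (a (b (a (l 1) (l 238941043175)) (a (l 253973380599) (l 107944531767))) (a (b (b (l 47278173847) (l 16739208)) (l 16725568)) (b (a (l 16722096) (l 16704320)) (l 16736544)))))))) (a (b (l 1) (a (b (l 3) (a (b (b (b (l 3) (a (b (l 311552801335) (l 129553571463)) (l 3))) (b (a (l 124721742871) (l 3)) (l 127942938247))) (b (a (l 16684912) (l 16685440)) (l 16657096))) (b (l 3) (b (a (l 268066165431) (l 3)) (l 154249515303))))) (l 3))) (l 3))),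 by decide +kernel⟩

theorem c_pm_102_b : CertB 536870912 536870912 1239849684 370763052 649613803 48318383 3 eng mog cd1q1 cd2q2b pd0 false true false .npp 1 0 2
    ndB1q1 ndB2q2b pcB0 Cut.none Ext.none :=
  certB1 (fam := false) (s1 := true) (s2 := false) (a := 1) (b := 0) (c := 2) (cn := .npp) (n1 := ndB1q1) (n2 := ndB2q2b) (pc := pcB0) (cut := Cut.none) (xt := Ext.none) (P1 := 536870912) (W1 := 536870912) (P2 := 1239849684) (W2 := 370763052) (P3 := 649613803) (W3 := 48318383) (N0 := 3) (En := eng) (mo := mog) (C1 := cd1q1) (C2 := cd2q2b) (C3 := pd0)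
    rfl (fun _ => rfl) k0_pm_102_b

noncomputable def f_pm_112_a : ℕ → ℕ → ℕ → ℕ → Bool := onCell 536870912 536870912 0 536870912 649613803 48318383
    (rowB 3 eng mog cd1q1 cd2q2a pd1 2 false true false .dn 1 1 2 (qsf 536870912 536870912 0 536870912 1) ndB1q1 ndB2q2a pcB1 Cut.none Ext.none)

def k0_pm_112_a : ∃ t, chk3 f_pm_112_a t 1 1 1 = true :=
  ⟨(a (b (a (b (a (b (a (b (l 16718464) (l 16682816)) (l 16676016)) (a (l 16657224) (l 16641840))) (b (l 16649736) (a (l 16625480) (l 16608000)))) (a (b (a (l 16618288) (l 16604176)) (l 16622536)) (b (l 16687752) (l 16536352)))) (a (b (b (l 16612632) (a (l 16590896) (l 1))) (b (l 16551744) (l 16514400))) (l 1))) (a (b (a (b (l 16494000) (l 16440320)) (b (l 16484096) (l 16598112))) (b (a (a (l 16338152) (l 16356400)) (l 128881785559)) (a (b (l 16310512) (l 16295048)) (l 1)))) (b (l 1) (l 1)))) (l 1)), by decide +kernel⟩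

theorem c_pm_112_a : CertB 536870912 536870912 0 536870912 649613803 48318383 3 eng mog cd1q1 cd2q2a pd1 false true false .dn 1 1 2
    ndB1q1 ndB2q2a pcB1 Cut.none Ext.none :=
  certB2 (fam := false) (s1 := true) (s2 := false) (a := 1) (b := 1) (c := 2) (cn := .dn) (n1 := ndB1q1) (n2 := ndB2q2a) (pc := pcB1) (cut := Cut.none) (xt := Ext.none) (P1 := 536870912) (W1 := 536870912) (P2 := 0) (W2 := 536870912) (P3 := 649613803) (W3 := 48318383) (N0 := 3) (En := eng) (mo := mog) (C1 := cd1q1) (C2 := cd2q2a) (C3 := pd1)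
    rfl (fun _ => rfl) k0_pm_112_a

noncomputable def f_pm_112_b : ℕ → ℕ → ℕ → ℕ → Bool := onCell 536870912 536870912 536870912 536870912 649613803 48318383
    (rowB 3 eng mog cd1q1 cd2q2b pd1 1 false true false .dn 1 1 2 (qsf 536870912 536870912 1239849684 370763052 1) ndB1q1 ndB2q2b pcB1 Cut.none Ext.none)

def k0_pm_112_b : ∃ t, chk3 f_pm_112_b t 1 1 1 = true :=
  ⟨(b (b (a (a (b (a (l 1) (a (l 284038051047) (b (b (l 1) (l 270616323847)) (l 200823129511)))) (a (b (l 277595565847) (l 274911212279)) (b (l 219076706119) (l 16668872)))) (b (a (b (a (l 173979592343) (l 16708152)) (l 16698744)) (b (a (l 16698312) (l 16677944)) (l 16678744))) (a (b (l 16687048) (l 16676560)) (l 16670280)))) (a (b (a (b (a (l 16647992) (l 107541718455)) (a (l 16642168) (l 16607240))) (b (l 3) (a (l 188609128919) (l 3)))) (a (b (a (l 16642512) (l 16613784)) (a (l 16650176) (l 16627952))) (a (b (l 16571696) (l 16591640)) (b (l 3) (l 173576694791))))) (l 3))) (a (a (b (a (b (l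 211560480743) (l 16623048)) (l 16646176)) (a (l 16592432) (l 16615080))) (a (b (l 16663920) (l 16654224)) (b (l 16676128) (l 16704216)))) (a (b (a (b (a (l 16665184) (l 16650736)) (l 16688688)) (b (a (l 16624208) (l 16589256)) (a (l 16670440) (l 16643304)))) (a (l 16754376) (b (a (l 16733912) (l 2)) (l 2)))) (a (b (b (l 3) (l 2)) (l 2)) (l 2))))) (b (a (a (b (a (l 16546344) (l 16586416)) (a (l 16498800) (l 16562480))) (b (a (l 16655856) (l 16757272)) (a (l 16669928) (l 16835376)))) (a (b (a (l 16886608) (l 2)) (l 2)) (l 2))) (a (a (b (a (l 16455920) (l 16547624)) (b (l 16473792) (l 16459624))) (b (l 16806136) (l 2))) (l 2)))), by decide +kernel⟩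

theorem c_pm_112_b : CertB 536870912 536870912 1239849684 370763052 649613803 48318383 3 eng mog cd1q1 cd2q2b pd1 false true false .dn 1 1 2
    ndB1q1 ndB2q2b pcB1 Cut.none Ext.none :=
  certB1 (fam := false) (s1 := true) (s2 := false) (a := 1) (b := 1) (c := 2) (cn := .dn) (n1 := ndB1q1) (n2 := ndB2q2b) (pc := pcB1) (cut := Cut.none) (xt := Ext.none) (P1 := 536870912) (W1 := 536870912) (P2 := 1239849684) (W2 := 370763052) (P3 := 649613803) (W3 := 48318383) (N0 := 3) (En := eng) (mo := mog) (C1 := cd1q1) (C2 := cd2q2b) (C3 := pd1)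
    rfl (fun _ => rfl) k0_pm_112_b

noncomputable def f_pm_113 : ℕ → ℕ → ℕ → ℕ → Bool := onCell 536870912 536870912 536870912 536870912 649613803 48318383
    (rowB 3 eng mog cd1q1 cd2q3 pd1 1 false true false .nn 1 1 3 (qsf 536870912 536870912 1610612736 536870912 1) ndB1q1 ndB2q3 pcB1 Cut.none Ext.none)

def k0_pm_113 : ∃ t, chk3 f_pm_113 t 1 1 1 = true :=
  ⟨(a (b (a (l 1) (b (l 1) (b (l 1) (l 106871005751)))) (b (a (b (l 1) (l 122976853879)) (b (l 59089314935) (l 92912032359))) (a (b (l 112239177175) (l 46740689447)) (b (l 16719520) (l 16660104))))) (b (b (a (a (l 1) (a (l 1) (a (l 1) (l 3)))) (l 3)) (a (b (a (b (l 1) (l 16705848)) (b (a (l 16658296) (l 16637280)) (a (l 16707648) (l 16696960)))) (a (l 16767360) (b (a (l 16771488) (l 16778400)) (a (l 16854312) (l 16880256))))) (a (b (a (b (l 3) (l 233706403447)) (l 3)) (b (a (l 209547202631) (l 3)) (a (l 16802632) (a (l 273971736439) (l 3))))) (l 3)))) (b (a (b (a (l 16881912) (b (a (l 16955096) (l 16938016))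 (l 17043856))) (a (l 16903008) (l 16996376))) (b (a (a (b (l 16860568) (l 16912840)) (b (b (l 16756120) (l 16801288)) (l 16799464))) (b (l 3) (a (a (l 287930829703) (l 3)) (l 3)))) (a (b (a (l 16968400) (l 16896352)) (l 16870808)) (a (b (a (l 16848352) (l 290078324151)) (b (l 16866968) (l 16883288))) (b (l 3) (a (l 301352441447) (l 3))))))) (a (b (a (l 16817192) (l 16884688)) (a (l 16748656) (l 16802048))) (b (b (a (l 16965432) (a (a (l 16912656) (l 16883960)) (a (l 16857152) (l 300278700871)))) (a (l 16907376) (a (l 16908416) (a (l 16860040) (l 16833424))))) (a (l 16835792) (b (a (l 16859400) (a (l 16851544) (l 16822664))) (a (l 16814752) (l 16824944))))))))), by decide +kernel⟩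

theorem c_pm_113 : CertB 536870912 536870912 1610612736 536870912 649613803 48318383 3 eng mog cd1q1 cd2q3 pd1 false true false .nn 1 1 3
    ndB1q1 ndB2q3 pcB1 Cut.none Ext.none :=
  certB1 (fam := false) (s1 := true) (s2 := false) (a := 1) (b := 1) (c := 3) (cn := .nn) (n1 := ndB1q1) (n2 := ndB2q3) (pc := pcB1) (cut := Cut.none) (xt := Ext.none) (P1 := 536870912) (W1 := 536870912) (P2 := 1610612736) (W2 := 536870912) (P3 := 649613803) (W3 := 48318383) (N0 := 3) (En := eng) (mo := mog) (C1 := cd1q1) (C2 := cd2q3) (C3 := pd1)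
    rfl (fun _ => rfl) k0_pm_113

noncomputable def f_pm_123 : ℕ → ℕ → ℕ → ℕ → Bool := onCell 1073741824 536870912 1610612736 536870912 649613803 48318383
    (rowB 3 eng mog cd1q1 cd2q3 pd2 2 false true false .npn 1 2 3 (qsf 536870912 536870912 1610612736 536870912 2) ndB1q1 ndB2q3 pcB2 Cut.none Ext.none)

def k0_pm_123 : ∃ t, chk3 f_pm_123 t 1 1 1 = true :=
  ⟨(a (a (b (b (a (b (l 16291080) (l 16382320)) (l 169684130775)) (a (b (l 16516048) (l 16596384)) (b (l 16347336) (l 16446976)))) (b (a (b (l 16628880) (a (l 16719128) (l 16654968))) (b (l 16517192) (l 16568048))) (a (b (a (l 16748136) (l 16690856)) (a (l 16760360) (l 16718688))) (b (l 16861296) (l 16801680))))) (b (a (b (a (l 16195496) (l 1)) (a (l 16298392) (l 16253944))) (b (l 1) (l 16271632))) (b (a (a (l 16458240) (b (l 16380624) (l 16443400))) (l 16657832)) (a (a (a (l 16573416) (l 16550776)) (b (l 16498256) (l 16554200))) (l 16688008))))) (a (b (a (b (l 1) (l 16313056)) (l 1)) (b (a (l 16449080)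 (l 16470944)) (a (l 16650360) (l 16360248)))) (b (l 1) (a (b (l 16505304) (l 16612856)) (b (l 1) (l 16629776)))))), by decide +kernel⟩

theorem c_pm_123 : CertB 536870912 536870912 1610612736 536870912 649613803 48318383 3 eng mog cd1q1 cd2q3 pd2 false true false .npn 1 2 3
    ndB1q1 ndB2q3 pcB2 Cut.none Ext.none :=
  certB2 (fam := false) (s1 := true) (s2 := false) (a := 1) (b := 2) (c := 3) (cn := .npn) (n1 := ndB1q1) (n2 := ndB2q3) (pc := pcB2) (cut := Cut.none) (xt := Ext.none) (P1 := 536870912) (W1 := 536870912) (P2 := 1610612736) (W2 := 536870912) (P3 := 649613803) (W3 := 48318383) (N0 := 3) (En := eng) (mo := mog) (C1 := cd1q1) (C2 := cd2q3) (C3 := pd2)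
    rfl (fun _ => rfl) k0_pm_123

noncomputable def f_pm_133 : ℕ → ℕ → ℕ → ℕ → Bool := onCell 536870912 536870912 1610612736 536870912 649613803 48318383
    (rowB 3 eng mog cd1q1 cd2q3 pd3 0 false true false .dn 1 3 3 (qsf 536870912 536870912 1610612736 536870912 3) ndB1q1 ndB2q3 pcB3 Cut.none Ext.none)

def k0_pm_133 : ∃ t, chk3 f_pm_133 t 1 1 1 = true :=
  ⟨(a (b (l 1) (a (b (l 1) (l 440268062871)) (l 1))) (l 1)), by decide +kernel⟩

theorem c_pm_133 : CertB 536870912 536870912 1610612736 536870912 649613803 48318383 3 eng mog cd1q1 cd2q3 pd3 false true false .dn 1 3 3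
    ndB1q1 ndB2q3 pcB3 Cut.none Ext.none :=
  certB0 (fam := false) (s1 := true) (s2 := false) (a := 1) (b := 3) (c := 3) (cn := .dn) (n1 := ndB1q1) (n2 := ndB2q3) (pc := pcB3) (cut := Cut.none) (xt := Ext.none) (P1 := 536870912) (W1 := 536870912) (P2 := 1610612736) (W2 := 536870912) (P3 := 649613803) (W3 := 48318383) (N0 := 3) (En := eng) (mo := mog) (C1 := cd1q1) (C2 := cd2q3) (C3 := pd3)
    rfl k0_pm_133

noncomputable def cut_pm_202_aa : Cut := Cut.of [[⟨0, 1, 0, 67108864⟩, ⟨1, 0, 0, 67108864⟩, ⟨2, 1, 0, 67108864⟩]]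

noncomputable def f_pm_202_aa : ℕ → ℕ → ℕ → ℕ → Bool := onCell 0 536870912 0 536870912 649613803 48318383
    (rowB 3 eng mog cd1q2a cd2q2a pd0 0 false true false .pp 2 0 2 (qsf 0 536870912 0 536870912 0) ndB1q2a ndB2q2a pcB0 cut_pm_202_aa Ext.none)

def k0_pm_202_aa : ∃ t, chk3 f_pm_202_aa t 1 1 1 = true :=
  ⟨(a (l 3) (b (l 3) (a (l 3) (b (l 3) (b (l 3) (a (l 3) (l 6))))))), by decide +kernel⟩

theorem c_pm_202_aa : CertB 0 536870912 0 536870912 649613803 48318383 3 eng mog cd1q2a cd2q2a pd0 false true false .pp 2 0 2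
    ndB1q2a ndB2q2a pcB0 cut_pm_202_aa Ext.none :=
  certB0 (fam := false) (s1 := true) (s2 := false) (a := 2) (b := 0) (c := 2) (cn := .pp) (n1 := ndB1q2a) (n2 := ndB2q2a) (pc := pcB0) (cut := cut_pm_202_aa) (xt := Ext.none) (P1 := 0) (W1 := 536870912) (P2 := 0) (W2 := 536870912) (P3 := 649613803) (W3 := 48318383) (N0 := 3) (En := eng) (mo := mog) (C1 := cd1q2a) (C2 := cd2q2a) (C3 := pd0)
    rfl k0_pm_202_aa

noncomputable def cut_pm_202_ab : Cut := Cut.of [[⟨0, 1, 0, 67108864⟩, ⟨1, 0, 0, 67108864⟩, ⟨2, 1, 0, 67108864⟩]]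

noncomputable def f_pm_202_ab : ℕ → ℕ → ℕ → ℕ → Bool := onCell 0 536870912 1239849684 370763052 649613803 48318383
    (rowB 3 eng mog cd1q2a cd2q2b pd0 0 false true false .pp 2 0 2 (qsf 0 536870912 1239849684 370763052 0) ndB1q2a ndB2q2b pcB0 cut_pm_202_ab Ext.none)

def k0_pm_202_ab : ∃ t, chk3 f_pm_202_ab t 1 1 1 = true :=
  ⟨(l 3), by decide +kernel⟩

theorem c_pm_202_ab : CertB 0 536870912 1239849684 370763052 649613803 48318383 3 eng mog cd1q2a cd2q2b pd0 false true false .pp 2 0 2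
    ndB1q2a ndB2q2b pcB0 cut_pm_202_ab Ext.none :=
  certB0 (fam := false) (s1 := true) (s2 := false) (a := 2) (b := 0) (c := 2) (cn := .pp) (n1 := ndB1q2a) (n2 := ndB2q2b) (pc := pcB0) (cut := cut_pm_202_ab) (xt := Ext.none) (P1 := 0) (W1 := 536870912) (P2 := 1239849684) (W2 := 370763052) (P3 := 649613803) (W3 := 48318383) (N0 := 3) (En := eng) (mo := mog) (C1 := cd1q2a) (C2 := cd2q2b) (C3 := pd0)
    rfl k0_pm_202_ab

noncomputable def cut_pm_202_ba : Cut := Cut.of [[⟨0, 1, 0, 67108864⟩, ⟨1, 0, 0, 67108864⟩, ⟨2, 1, 0, 67108864⟩]]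

noncomputable def f_pm_202_ba : ℕ → ℕ → ℕ → ℕ → Bool := onCell 1239849684 370763052 0 536870912 649613803 48318383
    (rowB 3 eng mog cd1q2b cd2q2a pd0 0 false true false .pp 2 0 2 (qsf 1239849684 370763052 0 536870912 0) ndB1q2b ndB2q2a pcB0 cut_pm_202_ba Ext.none)

def k0_pm_202_ba : ∃ t, chk3 f_pm_202_ba t 1 1 1 = true :=
  ⟨(l 3), by decide +kernel⟩

theorem c_pm_202_ba : CertB 1239849684 370763052 0 536870912 649613803 48318383 3 eng mog cd1q2b cd2q2a pd0 false true false .pp 2 0 2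
    ndB1q2b ndB2q2a pcB0 cut_pm_202_ba Ext.none :=
  certB0 (fam := false) (s1 := true) (s2 := false) (a := 2) (b := 0) (c := 2) (cn := .pp) (n1 := ndB1q2b) (n2 := ndB2q2a) (pc := pcB0) (cut := cut_pm_202_ba) (xt := Ext.none) (P1 := 1239849684) (W1 := 370763052) (P2 := 0) (W2 := 536870912) (P3 := 649613803) (W3 := 48318383) (N0 := 3) (En := eng) (mo := mog) (C1 := cd1q2b) (C2 := cd2q2a) (C3 := pd0)
    rfl k0_pm_202_ba

noncomputable def cut_pm_202_bb : Cut := Cut.of [[⟨0, 1, 0, 67108864⟩, ⟨1, 0, 0, 67108864⟩, ⟨2, 1, 0, 67108864⟩]]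

noncomputable def f_pm_202_bb : ℕ → ℕ → ℕ → ℕ → Bool := onCell 1239849684 370763052 1239849684 370763052 649613803 48318383
    (rowB 3 eng mog cd1q2b cd2q2b pd0 0 false true false .pp 2 0 2 (qsf 1239849684 370763052 1239849684 370763052 0) ndB1q2b ndB2q2b pcB0 cut_pm_202_bb Ext.none)

def k0_pm_202_bb : ∃ t, chk3 f_pm_202_bb t 1 1 1 = true :=
  ⟨(l 3), by decide +kernel⟩

theorem c_pm_202_bb : CertB 1239849684 370763052 1239849684 370763052 649613803 48318383 3 eng mog cd1q2b cd2q2b pd0 false true false .pp 2 0 2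
    ndB1q2b ndB2q2b pcB0 cut_pm_202_bb Ext.none :=
  certB0 (fam := false) (s1 := true) (s2 := false) (a := 2) (b := 0) (c := 2) (cn := .pp) (n1 := ndB1q2b) (n2 := ndB2q2b) (pc := pcB0) (cut := cut_pm_202_bb) (xt := Ext.none) (P1 := 1239849684) (W1 := 370763052) (P2 := 1239849684) (W2 := 370763052) (P3 := 649613803) (W3 := 48318383) (N0 := 3) (En := eng) (mo := mog) (C1 := cd1q2b) (C2 := cd2q2b) (C3 := pd0)
    rfl k0_pm_202_bb

noncomputable def f_pm_203_a : ℕ → ℕ → ℕ → ℕ → Bool := onCell 0 536870912 0 536870912 649613803 48318383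
    (rowB 3 eng mog cd1q2a cd2q3 pd0 1 false true false .up 2 0 3 (qsf 0 536870912 1610612736 536870912 0) ndB1q2a ndB2q3 pcB0 Cut.none Ext.none)

def k0_pm_203_a : ∃ t, chk3 f_pm_203_a t 1 1 1 = true :=
  ⟨(l 3), by decide +kernel⟩

theorem c_pm_203_a : CertB 0 536870912 1610612736 536870912 649613803 48318383 3 eng mog cd1q2a cd2q3 pd0 false true false .up 2 0 3
    ndB1q2a ndB2q3 pcB0 Cut.none Ext.none :=
  certB1 (fam := false) (s1 := true) (s2 := false) (a := 2) (b := 0) (c := 3) (cn := .up) (n1 := ndB1q2a) (n2 := ndB2q3) (pc := pcB0) (cut := Cut.none) (xt := Ext.none) (P1 := 0) (W1 := 536870912) (P2 := 1610612736) (W2 := 536870912) (P3 := 649613803) (W3 := 48318383) (N0 := 3) (En := eng) (mo := mog) (C1 := cd1q2a) (C2 := cd2q3) (C3 := pd0)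
    rfl (fun _ => rfl) k0_pm_203_a

noncomputable def f_pm_203_b : ℕ → ℕ → ℕ → ℕ → Bool := onCell 1239849684 370763052 1610612736 536870912 649613803 48318383
    (rowB 3 eng mog cd1q2b cd2q3 pd0 0 false true false .up 2 0 3 (qsf 1239849684 370763052 1610612736 536870912 0) ndB1q2b ndB2q3 pcB0 Cut.none Ext.none)

def k0_pm_203_b : ∃ t, chk3 f_pm_203_b t 1 1 1 = true :=
  ⟨(l 3), by decide +kernel⟩

theorem c_pm_203_b : CertB 1239849684 370763052 1610612736 536870912 649613803 48318383 3 eng mog cd1q2b cd2q3 pd0 false true false .up 2 0 3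
    ndB1q2b ndB2q3 pcB0 Cut.none Ext.none :=
  certB0 (fam := false) (s1 := true) (s2 := false) (a := 2) (b := 0) (c := 3) (cn := .up) (n1 := ndB1q2b) (n2 := ndB2q3) (pc := pcB0) (cut := Cut.none) (xt := Ext.none) (P1 := 1239849684) (W1 := 370763052) (P2 := 1610612736) (W2 := 536870912) (P3 := 649613803) (W3 := 48318383) (N0 := 3) (En := eng) (mo := mog) (C1 := cd1q2b) (C2 := cd2q3) (C3 := pd0)
    rfl k0_pm_203_b

noncomputable def cut_pm_213_a : Cut := Cut.of [[⟨0, 1, 0, 67108864⟩, ⟨1, 1, 0, 67108864⟩, ⟨2, 2, 0, 16777216⟩]]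

noncomputable def f_pm_213_a : ℕ → ℕ → ℕ → ℕ → Bool := onCell 0 536870912 1610612736 536870912 649613803 48318383
    (rowB 3 eng mog cd1q2a cd2q3 pd1 0 false true false .pnn 2 1 3 (qsf 0 536870912 1610612736 536870912 1) ndB1q2a ndB2q3 pcB1 cut_pm_213_a Ext.none)

def k0_pm_213_a : ∃ t, chk3 f_pm_213_a t 1 1 1 = true :=
  ⟨(b (l 3) (a (l 3) (b (l 3) (a (l 3) (b (l 3) (b (l 3) (a (l 3) (b (l 3) (b (l 3) (l 6)))))))))), by decide +kernel⟩

theorem c_pm_213_a : CertB 0 536870912 1610612736 536870912 649613803 48318383 3 eng mog cd1q2a cd2q3 pd1 false true false .pnn 2 1 3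
    ndB1q2a ndB2q3 pcB1 cut_pm_213_a Ext.none :=
  certB0 (fam := false) (s1 := true) (s2 := false) (a := 2) (b := 1) (c := 3) (cn := .pnn) (n1 := ndB1q2a) (n2 := ndB2q3) (pc := pcB1) (cut := cut_pm_213_a) (xt := Ext.none) (P1 := 0) (W1 := 536870912) (P2 := 1610612736) (W2 := 536870912) (P3 := 649613803) (W3 := 48318383) (N0 := 3) (En := eng) (mo := mog) (C1 := cd1q2a) (C2 := cd2q3) (C3 := pd1)
    rfl k0_pm_213_a

noncomputable def cut_pm_213_b : Cut := Cut.of [[⟨0, 1, 0, 67108864⟩, ⟨1, 1, 0, 67108864⟩, ⟨2, 2, 0, 16777216⟩]]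

noncomputable def f_pm_213_b : ℕ → ℕ → ℕ → ℕ → Bool := onCell 1239849684 370763052 1610612736 536870912 649613803 48318383
    (rowB 3 eng mog cd1q2b cd2q3 pd1 0 false true false .pnn 2 1 3 (qsf 1239849684 370763052 1610612736 536870912 1) ndB1q2b ndB2q3 pcB1 cut_pm_213_b Ext.none)

def k0_pm_213_b : ∃ t, chk3 f_pm_213_b t 1 1 1 = true :=
  ⟨(l 3), by decide +kernel⟩

theorem c_pm_213_b : CertB 1239849684 370763052 1610612736 536870912 649613803 48318383 3 eng mog cd1q2b cd2q3 pd1 false true false .pnn 2 1 3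
    ndB1q2b ndB2q3 pcB1 cut_pm_213_b Ext.none :=
  certB0 (fam := false) (s1 := true) (s2 := false) (a := 2) (b := 1) (c := 3) (cn := .pnn) (n1 := ndB1q2b) (n2 := ndB2q3) (pc := pcB1) (cut := cut_pm_213_b) (xt := Ext.none) (P1 := 1239849684) (W1 := 370763052) (P2 := 1610612736) (W2 := 536870912) (P3 := 649613803) (W3 := 48318383) (N0 := 3) (En := eng) (mo := mog) (C1 := cd1q2b) (C2 := cd2q3) (C3 := pd1)
    rfl k0_pm_213_b

noncomputable def f_pm_303 : ℕ → ℕ → ℕ → ℕ → Bool := onCell 1610612736 536870912 1610612736 536870912 649613803 48318383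
    (rowB 3 eng mog cd1q3 cd2q3 pd0 0 false true false .npn 3 0 3 (qsf 1610612736 536870912 1610612736 536870912 0) ndB1q3 ndB2q3 pcB0 Cut.none Ext.none)

def k0_pm_303 : ∃ t, chk3 f_pm_303 t 1 1 1 = true :=
  ⟨(l 3), by decide +kernel⟩

theorem c_pm_303 : CertB 1610612736 536870912 1610612736 536870912 649613803 48318383 3 eng mog cd1q3 cd2q3 pd0 false true false .npn 3 0 3
    ndB1q3 ndB2q3 pcB0 Cut.none Ext.none :=
  certB0 (fam := false) (s1 := true) (s2 := false) (a := 3) (b := 0) (c := 3) (cn := .npn) (n1 := ndB1q3) (n2 := ndB2q3) (pc := pcB0) (cut := Cut.none) (xt := Ext.none) (P1 := 1610612736) (W1 := 536870912) (P2 := 1610612736) (W2 := 536870912) (P3 := 649613803) (W3 := 48318383) (N0 := 3) (En := eng) (mo := mog) (C1 := cd1q3) (C2 := cd2q3) (C3 := pd0)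
    rfl k0_pm_303

noncomputable def f_pm_313 : ℕ → ℕ → ℕ → ℕ → Bool := onCell 1610612736 536870912 1610612736 536870912 649613803 48318383
    (rowB 3 eng mog cd1q3 cd2q3 pd1 0 false true false .dn 3 1 3 (qsf 1610612736 536870912 1610612736 536870912 1) ndB1q3 ndB2q3 pcB1 Cut.none Ext.none)

def k0_pm_313 : ∃ t, chk3 f_pm_313 t 1 1 1 = true :=
  ⟨(l 3), by decide +kernel⟩

theorem c_pm_313 : CertB 1610612736 536870912 1610612736 536870912 649613803 48318383 3 eng mog cd1q3 cd2q3 pd1 false true false .dn 3 1 3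
    ndB1q3 ndB2q3 pcB1 Cut.none Ext.none :=
  certB0 (fam := false) (s1 := true) (s2 := false) (a := 3) (b := 1) (c := 3) (cn := .dn) (n1 := ndB1q3) (n2 := ndB2q3) (pc := pcB1) (cut := Cut.none) (xt := Ext.none) (P1 := 1610612736) (W1 := 536870912) (P2 := 1610612736) (W2 := 536870912) (P3 := 649613803) (W3 := 48318383) (N0 := 3) (En := eng) (mo := mog) (C1 := cd1q3) (C2 := cd2q3) (C3 := pd1)
    rfl k0_pm_313

noncomputable def f_mm_001 : ℕ → ℕ → ℕ → ℕ → Bool := onCell 0 536870912 536870912 536870912 649613803 48318383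
    (rowB 3 eng mog cd1q0 cd2q1 pd0 0 false false false .up 0 0 1 (qsf 0 536870912 536870912 536870912 0) ndB1q0 ndB2q1 pcB0 Cut.none Ext.none)

def k0_mm_001 : ∃ t, chk3 f_mm_001 t 1 1 1 = true :=
  ⟨(l 3), by decide +kernel⟩

theorem c_mm_001 : CertB 0 536870912 536870912 536870912 649613803 48318383 3 eng mog cd1q0 cd2q1 pd0 false false false .up 0 0 1
    ndB1q0 ndB2q1 pcB0 Cut.none Ext.none :=
  certB0 (fam := false) (s1 := false) (s2 := false) (a := 0) (b := 0) (c := 1) (cn := .up) (n1 := ndB1q0) (n2 := ndB2q1) (pc := pcB0) (cut := Cut.none) (xt := Ext.none) (P1 := 0) (W1 := 536870912) (P2 := 536870912) (W2 := 536870912) (P3 := 649613803) (W3 := 48318383) (N0 := 3) (En := eng) (mo := mog) (C1 := cd1q0) (C2 := cd2q1) (C3 := pd0)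
    rfl k0_mm_001

noncomputable def f_mm_011 : ℕ → ℕ → ℕ → ℕ → Bool := onCell 0 536870912 536870912 536870912 649613803 48318383
    (rowB 3 eng mog cd1q0 cd2q1 pd1 0 false false false .pnn 0 1 1 (qsf 0 536870912 536870912 536870912 1) ndB1q0 ndB2q1 pcB1 Cut.none Ext.none)

def k0_mm_011 : ∃ t, chk3 f_mm_011 t 1 1 1 = true :=
  ⟨(l 3), by decide +kernel⟩

theorem c_mm_011 : CertB 0 536870912 536870912 536870912 649613803 48318383 3 eng mog cd1q0 cd2q1 pd1 false false false .pnn 0 1 1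
    ndB1q0 ndB2q1 pcB1 Cut.none Ext.none :=
  certB0 (fam := false) (s1 := false) (s2 := false) (a := 0) (b := 1) (c := 1) (cn := .pnn) (n1 := ndB1q0) (n2 := ndB2q1) (pc := pcB1) (cut := Cut.none) (xt := Ext.none) (P1 := 0) (W1 := 536870912) (P2 := 536870912) (W2 := 536870912) (P3 := 649613803) (W3 := 48318383) (N0 := 3) (En := eng) (mo := mog) (C1 := cd1q0) (C2 := cd2q1) (C3 := pd1)
    rfl k0_mm_011

noncomputable def f_mm_012_a : ℕ → ℕ → ℕ → ℕ → Bool := onCell 0 536870912 0 536870912 649613803 48318383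
    (rowB 3 eng mog cd1q0 cd2q2a pd1 0 false false false .pnp 0 1 2 (qsf 0 536870912 0 536870912 1) ndB1q0 ndB2q2a pcB1 Cut.none Ext.none)

def k0_mm_012_a : ∃ t, chk3 f_mm_012_a t 1 1 1 = true :=
  ⟨(l 5), by decide +kernel⟩

theorem c_mm_012_a : CertB 0 536870912 0 536870912 649613803 48318383 3 eng mog cd1q0 cd2q2a pd1 false false false .pnp 0 1 2
    ndB1q0 ndB2q2a pcB1 Cut.none Ext.none :=
  certB0 (fam := false) (s1 := false) (s2 := false) (a := 0) (b := 1) (c := 2) (cn := .pnp) (n1 := ndB1q0) (n2 := ndB2q2a) (pc := pcB1) (cut := Cut.none) (xt := Ext.none) (P1 := 0) (W1 := 536870912) (P2 := 0) (W2 := 536870912) (P3 := 649613803) (W3 := 48318383) (N0 := 3) (En := eng) (mo := mog) (C1 := cd1q0) (C2 := cd2q2a) (C3 := pd1)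
    rfl k0_mm_012_a

noncomputable def f_mm_012_b : ℕ → ℕ → ℕ → ℕ → Bool := onCell 0 536870912 1239849684 370763052 649613803 48318383
    (rowB 3 eng mog cd1q0 cd2q2b pd1 0 false false false .pnp 0 1 2 (qsf 0 536870912 1239849684 370763052 1) ndB1q0 ndB2q2b pcB1 Cut.none Ext.none)

def k0_mm_012_b : ∃ t, chk3 f_mm_012_b t 1 1 1 = true :=
  ⟨(l 5), by decide +kernel⟩

theorem c_mm_012_b : CertB 0 536870912 1239849684 370763052 649613803 48318383 3 eng mog cd1q0 cd2q2b pd1 false false false .pnp 0 1 2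
    ndB1q0 ndB2q2b pcB1 Cut.none Ext.none :=
  certB0 (fam := false) (s1 := false) (s2 := false) (a := 0) (b := 1) (c := 2) (cn := .pnp) (n1 := ndB1q0) (n2 := ndB2q2b) (pc := pcB1) (cut := Cut.none) (xt := Ext.none) (P1 := 0) (W1 := 536870912) (P2 := 1239849684) (W2 := 370763052) (P3 := 649613803) (W3 := 48318383) (N0 := 3) (En := eng) (mo := mog) (C1 := cd1q0) (C2 := cd2q2b) (C3 := pd1)
    rfl k0_mm_012_b

noncomputable def f_mm_022_a : ℕ → ℕ → ℕ → ℕ → Bool := onCell 0 536870912 0 536870912 649613803 48318383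
    (rowB 3 eng mog cd1q0 cd2q2a pd2 0 false false false .pp 0 2 2 (qsf 0 536870912 0 536870912 2) ndB1q0 ndB2q2a pcB2 Cut.none Ext.none)

def k0_mm_022_a : ∃ t, chk3 f_mm_022_a t 1 1 1 = true :=
  ⟨(l 5), by decide +kernel⟩

theorem c_mm_022_a : CertB 0 536870912 0 536870912 649613803 48318383 3 eng mog cd1q0 cd2q2a pd2 false false false .pp 0 2 2
    ndB1q0 ndB2q2a pcB2 Cut.none Ext.none :=
  certB0 (fam := false) (s1 := false) (s2 := false) (a := 0) (b := 2) (c := 2) (cn := .pp) (n1 := ndB1q0) (n2 := ndB2q2a) (pc := pcB2) (cut := Cut.none) (xt := Ext.none) (P1 := 0) (W1 := 536870912) (P2 := 0) (W2 := 536870912) (P3 := 649613803) (W3 := 48318383) (N0 := 3) (En := eng) (mo := mog) (C1 := cd1q0) (C2 := cd2q2a) (C3 := pd2)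
    rfl k0_mm_022_a

noncomputable def f_mm_022_b : ℕ → ℕ → ℕ → ℕ → Bool := onCell 0 536870912 1239849684 370763052 649613803 48318383
    (rowB 3 eng mog cd1q0 cd2q2b pd2 0 false false false .pp 0 2 2 (qsf 0 536870912 1239849684 370763052 2) ndB1q0 ndB2q2b pcB2 Cut.none Ext.none)

def k0_mm_022_b : ∃ t, chk3 f_mm_022_b t 1 1 1 = true :=
  ⟨(l 5), by decide +kernel⟩

theorem c_mm_022_b : CertB 0 536870912 1239849684 370763052 649613803 48318383 3 eng mog cd1q0 cd2q2b pd2 false false false .pp 0 2 2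
    ndB1q0 ndB2q2b pcB2 Cut.none Ext.none :=
  certB0 (fam := false) (s1 := false) (s2 := false) (a := 0) (b := 2) (c := 2) (cn := .pp) (n1 := ndB1q0) (n2 := ndB2q2b) (pc := pcB2) (cut := Cut.none) (xt := Ext.none) (P1 := 0) (W1 := 536870912) (P2 := 1239849684) (W2 := 370763052) (P3 := 649613803) (W3 := 48318383) (N0 := 3) (En := eng) (mo := mog) (C1 := cd1q0) (C2 := cd2q2b) (C3 := pd2)
    rfl k0_mm_022_b

noncomputable def f_mm_023 : ℕ → ℕ → ℕ → ℕ → Bool := onCell 0 536870912 1610612736 536870912 649613803 48318383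
    (rowB 3 eng mog cd1q0 cd2q3 pd2 0 false false false .up 0 2 3 (qsf 0 536870912 1610612736 536870912 2) ndB1q0 ndB2q3 pcB2 Cut.none Ext.none)

def k0_mm_023 : ∃ t, chk3 f_mm_023 t 1 1 1 = true :=
  ⟨(l 5), by decide +kernel⟩

theorem c_mm_023 : CertB 0 536870912 1610612736 536870912 649613803 48318383 3 eng mog cd1q0 cd2q3 pd2 false false false .up 0 2 3
    ndB1q0 ndB2q3 pcB2 Cut.none Ext.none :=
  certB0 (fam := false) (s1 := false) (s2 := false) (a := 0) (b := 2) (c := 3) (cn := .up) (n1 := ndB1q0) (n2 := ndB2q3) (pc := pcB2) (cut := Cut.none) (xt := Ext.none) (P1 := 0) (W1 := 536870912) (P2 := 1610612736) (W2 := 536870912) (P3 := 649613803) (W3 := 48318383) (N0 := 3) (En := eng) (mo := mog) (C1 := cd1q0) (C2 := cd2q3) (C3 := pd2)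
    rfl k0_mm_023

noncomputable def f_mm_033 : ℕ → ℕ → ℕ → ℕ → Bool := onCell 0 536870912 1610612736 536870912 649613803 48318383
    (rowB 3 eng mog cd1q0 cd2q3 pd3 0 false false false .pnn 0 3 3 (qsf 0 536870912 1610612736 536870912 3) ndB1q0 ndB2q3 pcB3 Cut.none Ext.none)

def k0_mm_033 : ∃ t, chk3 f_mm_033 t 1 1 1 = true :=
  ⟨(l 5), by decide +kernel⟩

theorem c_mm_033 : CertB 0 536870912 1610612736 536870912 649613803 48318383 3 eng mog cd1q0 cd2q3 pd3 false false false .pnn 0 3 3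
    ndB1q0 ndB2q3 pcB3 Cut.none Ext.none :=
  certB0 (fam := false) (s1 := false) (s2 := false) (a := 0) (b := 3) (c := 3) (cn := .pnn) (n1 := ndB1q0) (n2 := ndB2q3) (pc := pcB3) (cut := Cut.none) (xt := Ext.none) (P1 := 0) (W1 := 536870912) (P2 := 1610612736) (W2 := 536870912) (P3 := 649613803) (W3 := 48318383) (N0 := 3) (En := eng) (mo := mog) (C1 := cd1q0) (C2 := cd2q3) (C3 := pd3)
    rfl k0_mm_033

noncomputable def f_mm_101 : ℕ → ℕ → ℕ → ℕ → Bool := onCell 536870912 536870912 536870912 536870912 649613803 48318383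
    (rowB 3 eng mog cd1q1 cd2q1 pd0 0 false false false .npn 1 0 1 (qsf 536870912 536870912 536870912 536870912 0) ndB1q1 ndB2q1 pcB0 Cut.none Ext.none)

def k0_mm_101 : ∃ t, chk3 f_mm_101 t 1 1 1 = true :=
  ⟨(l 3), by decide +kernel⟩

theorem c_mm_101 : CertB 536870912 536870912 536870912 536870912 649613803 48318383 3 eng mog cd1q1 cd2q1 pd0 false false false .npn 1 0 1
    ndB1q1 ndB2q1 pcB0 Cut.none Ext.none :=
  certB0 (fam := false) (s1 := false) (s2 := false) (a := 1) (b := 0) (c := 1) (cn := .npn) (n1 := ndB1q1) (n2 := ndB2q1) (pc := pcB0) (cut := Cut.none) (xt := Ext.none) (P1 := 536870912) (W1 := 536870912) (P2 := 536870912) (W2 := 536870912) (P3 := 649613803) (W3 := 48318383) (N0 := 3) (En := eng) (mo := mog) (C1 := cd1q1) (C2 := cd2q1) (C3 := pd0)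
    rfl k0_mm_101

noncomputable def f_mm_102_a : ℕ → ℕ → ℕ → ℕ → Bool := onCell 536870912 536870912 0 536870912 649613803 48318383
    (rowB 3 eng mog cd1q1 cd2q2a pd0 0 false false false .npp 1 0 2 (qsf 536870912 536870912 0 536870912 0) ndB1q1 ndB2q2a pcB0 Cut.none Ext.none)

def k0_mm_102_a : ∃ t, chk3 f_mm_102_a t 1 1 1 = true :=
  ⟨(l 5), by decide +kernel⟩

theorem c_mm_102_a : CertB 536870912 536870912 0 536870912 649613803 48318383 3 eng mog cd1q1 cd2q2a pd0 false false false .npp 1 0 2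
    ndB1q1 ndB2q2a pcB0 Cut.none Ext.none :=
  certB0 (fam := false) (s1 := false) (s2 := false) (a := 1) (b := 0) (c := 2) (cn := .npp) (n1 := ndB1q1) (n2 := ndB2q2a) (pc := pcB0) (cut := Cut.none) (xt := Ext.none) (P1 := 536870912) (W1 := 536870912) (P2 := 0) (W2 := 536870912) (P3 := 649613803) (W3 := 48318383) (N0 := 3) (En := eng) (mo := mog) (C1 := cd1q1) (C2 := cd2q2a) (C3 := pd0)
    rfl k0_mm_102_a

noncomputable def f_mm_102_b : ℕ → ℕ → ℕ → ℕ → Bool := onCell 536870912 536870912 1239849684 370763052 649613803 48318383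
    (rowB 3 eng mog cd1q1 cd2q2b pd0 0 false false false .npp 1 0 2 (qsf 536870912 536870912 1239849684 370763052 0) ndB1q1 ndB2q2b pcB0 Cut.none Ext.none)

def k0_mm_102_b : ∃ t, chk3 f_mm_102_b t 1 1 1 = true :=
  ⟨(l 5), by decide +kernel⟩

theorem c_mm_102_b : CertB 536870912 536870912 1239849684 370763052 649613803 48318383 3 eng mog cd1q1 cd2q2b pd0 false false false .npp 1 0 2
    ndB1q1 ndB2q2b pcB0 Cut.none Ext.none :=
  certB0 (fam := false) (s1 := false) (s2 := false) (a := 1) (b := 0) (c := 2) (cn := .npp) (n1 := ndB1q1) (n2 := ndB2q2b) (pc := pcB0) (cut := Cut.none) (xt := Ext.none) (P1 := 536870912) (W1 := 536870912) (P2 := 1239849684) (W2 := 370763052) (P3 := 649613803) (W3 := 48318383) (N0 := 3) (En := eng) (mo := mog) (C1 := cd1q1) (C2 := cd2q2b) (C3 := pd0)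
    rfl k0_mm_102_b

noncomputable def f_mm_112_a : ℕ → ℕ → ℕ → ℕ → Bool := onCell 536870912 536870912 0 536870912 649613803 48318383
    (rowB 3 eng mog cd1q1 cd2q2a pd1 0 false false false .dn 1 1 2 (qsf 536870912 536870912 0 536870912 1) ndB1q1 ndB2q2a pcB1 Cut.none Ext.none)

def k0_mm_112_a : ∃ t, chk3 f_mm_112_a t 1 1 1 = true :=
  ⟨(l 5), by decide +kernel⟩

theorem c_mm_112_a : CertB 536870912 536870912 0 536870912 649613803 48318383 3 eng mog cd1q1 cd2q2a pd1 false false false .dn 1 1 2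
    ndB1q1 ndB2q2a pcB1 Cut.none Ext.none :=
  certB0 (fam := false) (s1 := false) (s2 := false) (a := 1) (b := 1) (c := 2) (cn := .dn) (n1 := ndB1q1) (n2 := ndB2q2a) (pc := pcB1) (cut := Cut.none) (xt := Ext.none) (P1 := 536870912) (W1 := 536870912) (P2 := 0) (W2 := 536870912) (P3 := 649613803) (W3 := 48318383) (N0 := 3) (En := eng) (mo := mog) (C1 := cd1q1) (C2 := cd2q2a) (C3 := pd1)
    rfl k0_mm_112_a

noncomputable def f_mm_112_b : ℕ → ℕ → ℕ → ℕ → Bool := onCell 536870912 536870912 1239849684 370763052 649613803 48318383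
    (rowB 3 eng mog cd1q1 cd2q2b pd1 0 false false false .dn 1 1 2 (qsf 536870912 536870912 1239849684 370763052 1) ndB1q1 ndB2q2b pcB1 Cut.none Ext.none)

def k0_mm_112_b : ∃ t, chk3 f_mm_112_b t 1 1 1 = true :=
  ⟨(l 5), by decide +kernel⟩

theorem c_mm_112_b : CertB 536870912 536870912 1239849684 370763052 649613803 48318383 3 eng mog cd1q1 cd2q2b pd1 false false false .dn 1 1 2
    ndB1q1 ndB2q2b pcB1 Cut.none Ext.none :=
  certB0 (fam := false) (s1 := false) (s2 := false) (a := 1) (b := 1) (c := 2) (cn := .dn) (n1 := ndB1q1) (n2 := ndB2q2b) (pc := pcB1) (cut := Cut.none) (xt := Ext.none) (P1 := 536870912) (W1 := 536870912) (P2 := 1239849684) (W2 := 370763052) (P3 := 649613803) (W3 := 48318383) (N0 := 3) (En := eng) (mo := mog) (C1 := cd1q1) (C2 := cd2q2b) (C3 := pd1)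
    rfl k0_mm_112_b

noncomputable def f_mm_113 : ℕ → ℕ → ℕ → ℕ → Bool := onCell 536870912 536870912 1610612736 536870912 649613803 48318383
    (rowB 3 eng mog cd1q1 cd2q3 pd1 0 false false false .nn 1 1 3 (qsf 536870912 536870912 1610612736 536870912 1) ndB1q1 ndB2q3 pcB1 Cut.none Ext.none)

def k0_mm_113 : ∃ t, chk3 f_mm_113 t 1 1 1 = true :=
  ⟨(l 5), by decide +kernel⟩

theorem c_mm_113 : CertB 536870912 536870912 1610612736 536870912 649613803 48318383 3 eng mog cd1q1 cd2q3 pd1 false false false .nn 1 1 3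
    ndB1q1 ndB2q3 pcB1 Cut.none Ext.none :=
  certB0 (fam := false) (s1 := false) (s2 := false) (a := 1) (b := 1) (c := 3) (cn := .nn) (n1 := ndB1q1) (n2 := ndB2q3) (pc := pcB1) (cut := Cut.none) (xt := Ext.none) (P1 := 536870912) (W1 := 536870912) (P2 := 1610612736) (W2 := 536870912) (P3 := 649613803) (W3 := 48318383) (N0 := 3) (En := eng) (mo := mog) (C1 := cd1q1) (C2 := cd2q3) (C3 := pd1)
    rfl k0_mm_113

noncomputable def f_mm_123 : ℕ → ℕ → ℕ → ℕ → Bool := onCell 536870912 536870912 1610612736 536870912 649613803 48318383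
    (rowB 3 eng mog cd1q1 cd2q3 pd2 0 false false false .npn 1 2 3 (qsf 536870912 536870912 1610612736 536870912 2) ndB1q1 ndB2q3 pcB2 Cut.none Ext.none)

def k0_mm_123 : ∃ t, chk3 f_mm_123 t 1 1 1 = true :=
  ⟨(l 5), by decide +kernel⟩

theorem c_mm_123 : CertB 536870912 536870912 1610612736 536870912 649613803 48318383 3 eng mog cd1q1 cd2q3 pd2 false false false .npn 1 2 3
    ndB1q1 ndB2q3 pcB2 Cut.none Ext.none :=
  certB0 (fam := false) (s1 := false) (s2 := false) (a := 1) (b := 2) (c := 3) (cn := .npn) (n1 := ndB1q1) (n2 := ndB2q3) (pc := pcB2) (cut := Cut.none) (xt := Ext.none) (P1 := 536870912) (W1 := 536870912) (P2 := 1610612736) (W2 := 536870912) (P3 := 649613803) (W3 := 48318383) (N0 := 3) (En := eng) (mo := mog) (C1 := cd1q1) (C2 := cd2q3) (C3 := pd2)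
    rfl k0_mm_123

noncomputable def f_mm_133 : ℕ → ℕ → ℕ → ℕ → Bool := onCell 536870912 536870912 1610612736 536870912 649613803 48318383
    (rowB 3 eng mog cd1q1 cd2q3 pd3 0 false false false .dn 1 3 3 (qsf 536870912 536870912 1610612736 536870912 3) ndB1q1 ndB2q3 pcB3 Cut.none Ext.none)

def k0_mm_133 : ∃ t, chk3 f_mm_133 t 1 1 1 = true :=
  ⟨(l 5), by decide +kernel⟩

theorem c_mm_133 : CertB 536870912 536870912 1610612736 536870912 649613803 48318383 3 eng mog cd1q1 cd2q3 pd3 false false false .dn 1 3 3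
    ndB1q1 ndB2q3 pcB3 Cut.none Ext.none :=
  certB0 (fam := false) (s1 := false) (s2 := false) (a := 1) (b := 3) (c := 3) (cn := .dn) (n1 := ndB1q1) (n2 := ndB2q3) (pc := pcB3) (cut := Cut.none) (xt := Ext.none) (P1 := 536870912) (W1 := 536870912) (P2 := 1610612736) (W2 := 536870912) (P3 := 649613803) (W3 := 48318383) (N0 := 3) (En := eng) (mo := mog) (C1 := cd1q1) (C2 := cd2q3) (C3 := pd3)
    rfl k0_mm_133

noncomputable def f_mm_202_aa : ℕ → ℕ → ℕ → ℕ → Bool := onCell 0 536870912 0 536870912 649613803 48318383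
    (rowB 3 eng mog cd1q2a cd2q2a pd0 0 false false false .pp 2 0 2 (qsf 0 536870912 0 536870912 0) ndB1q2a ndB2q2a pcB0 Cut.none Ext.none)

def k0_mm_202_aa : ∃ t, chk3 f_mm_202_aa t 1 1 1 = true :=
  ⟨(l 3), by decide +kernel⟩

theorem c_mm_202_aa : CertB 0 536870912 0 536870912 649613803 48318383 3 eng mog cd1q2a cd2q2a pd0 false false false .pp 2 0 2
    ndB1q2a ndB2q2a pcB0 Cut.none Ext.none :=
  certB0 (fam := false) (s1 := false) (s2 := false) (a := 2) (b := 0) (c := 2) (cn := .pp) (n1 := ndB1q2a) (n2 := ndB2q2a) (pc := pcB0) (cut := Cut.none) (xt := Ext.none) (P1 := 0) (W1 := 536870912) (P2 := 0) (W2 := 536870912) (P3 := 649613803) (W3 := 48318383) (N0 := 3) (En := eng) (mo := mog) (C1 := cd1q2a) (C2 := cd2q2a) (C3 := pd0)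
    rfl k0_mm_202_aa

noncomputable def f_mm_202_ab : ℕ → ℕ → ℕ → ℕ → Bool := onCell 0 536870912 1239849684 370763052 649613803 48318383
    (rowB 3 eng mog cd1q2a cd2q2b pd0 0 false false false .pp 2 0 2 (qsf 0 536870912 1239849684 370763052 0) ndB1q2a ndB2q2b pcB0 Cut.none Ext.none)

def k0_mm_202_ab : ∃ t, chk3 f_mm_202_ab t 1 1 1 = true :=
  ⟨(l 3), by decide +kernel⟩

theorem c_mm_202_ab : CertB 0 536870912 1239849684 370763052 649613803 48318383 3 eng mog cd1q2a cd2q2b pd0 false false false .pp 2 0 2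
    ndB1q2a ndB2q2b pcB0 Cut.none Ext.none :=
  certB0 (fam := false) (s1 := false) (s2 := false) (a := 2) (b := 0) (c := 2) (cn := .pp) (n1 := ndB1q2a) (n2 := ndB2q2b) (pc := pcB0) (cut := Cut.none) (xt := Ext.none) (P1 := 0) (W1 := 536870912) (P2 := 1239849684) (W2 := 370763052) (P3 := 649613803) (W3 := 48318383) (N0 := 3) (En := eng) (mo := mog) (C1 := cd1q2a) (C2 := cd2q2b) (C3 := pd0)
    rfl k0_mm_202_ab

noncomputable def f_mm_202_ba : ℕ → ℕ → ℕ → ℕ → Bool := onCell 1239849684 370763052 0 536870912 649613803 48318383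
    (rowB 3 eng mog cd1q2b cd2q2a pd0 0 false false false .pp 2 0 2 (qsf 1239849684 370763052 0 536870912 0) ndB1q2b ndB2q2a pcB0 Cut.none Ext.none)

def k0_mm_202_ba : ∃ t, chk3 f_mm_202_ba t 1 1 1 = true :=
  ⟨(l 3), by decide +kernel⟩

theorem c_mm_202_ba : CertB 1239849684 370763052 0 536870912 649613803 48318383 3 eng mog cd1q2b cd2q2a pd0 false false false .pp 2 0 2
    ndB1q2b ndB2q2a pcB0 Cut.none Ext.none :=
  certB0 (fam := false) (s1 := false) (s2 := false) (a := 2) (b := 0) (c := 2) (cn := .pp) (n1 := ndB1q2b) (n2 := ndB2q2a) (pc := pcB0) (cut := Cut.none) (xt := Ext.none) (P1 := 1239849684) (W1 := 370763052) (P2 := 0) (W2 := 536870912) (P3 := 649613803) (W3 := 48318383) (N0 := 3) (En := eng) (mo := mog) (C1 := cd1q2b) (C2 := cd2q2a) (C3 := pd0)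
    rfl k0_mm_202_ba

noncomputable def f_mm_202_bb : ℕ → ℕ → ℕ → ℕ → Bool := onCell 1239849684 370763052 1239849684 370763052 649613803 48318383
    (rowB 3 eng mog cd1q2b cd2q2b pd0 0 false false false .pp 2 0 2 (qsf 1239849684 370763052 1239849684 370763052 0) ndB1q2b ndB2q2b pcB0 Cut.none Ext.none)

def k0_mm_202_bb : ∃ t, chk3 f_mm_202_bb t 1 1 1 = true :=
  ⟨(l 3), by decide +kernel⟩

theorem c_mm_202_bb : CertB 1239849684 370763052 1239849684 370763052 649613803 48318383 3 eng mog cd1q2b cd2q2b pd0 false false false .pp 2 0 2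
    ndB1q2b ndB2q2b pcB0 Cut.none Ext.none :=
  certB0 (fam := false) (s1 := false) (s2 := false) (a := 2) (b := 0) (c := 2) (cn := .pp) (n1 := ndB1q2b) (n2 := ndB2q2b) (pc := pcB0) (cut := Cut.none) (xt := Ext.none) (P1 := 1239849684) (W1 := 370763052) (P2 := 1239849684) (W2 := 370763052) (P3 := 649613803) (W3 := 48318383) (N0 := 3) (En := eng) (mo := mog) (C1 := cd1q2b) (C2 := cd2q2b) (C3 := pd0)
    rfl k0_mm_202_bb

noncomputable def f_mm_203_a : ℕ → ℕ → ℕ → ℕ → Bool := onCell 0 536870912 0 536870912 649613803 48318383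
    (rowB 3 eng mog cd1q2a cd2q3 pd0 1 false false false .up 2 0 3 (qsf 0 536870912 1610612736 536870912 0) ndB1q2a ndB2q3 pcB0 Cut.none Ext.none)

def k0_mm_203_a : ∃ t, chk3 f_mm_203_a t 1 1 1 = true :=
  ⟨(l 3), by decide +kernel⟩

theorem c_mm_203_a : CertB 0 536870912 1610612736 536870912 649613803 48318383 3 eng mog cd1q2a cd2q3 pd0 false false false .up 2 0 3
    ndB1q2a ndB2q3 pcB0 Cut.none Ext.none :=
  certB1 (fam := false) (s1 := false) (s2 := false) (a := 2) (b := 0) (c := 3) (cn := .up) (n1 := ndB1q2a) (n2 := ndB2q3) (pc := pcB0) (cut := Cut.none) (xt := Ext.none) (P1 := 0) (W1 := 536870912) (P2 := 1610612736) (W2 := 536870912) (P3 := 649613803) (W3 := 48318383) (N0 := 3) (En := eng) (mo := mog) (C1 := cd1q2a) (C2 := cd2q3) (C3 := pd0)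
    rfl (fun _ => rfl) k0_mm_203_a

noncomputable def f_mm_203_b : ℕ → ℕ → ℕ → ℕ → Bool := onCell 1239849684 370763052 1610612736 536870912 649613803 48318383
    (rowB 3 eng mog cd1q2b cd2q3 pd0 0 false false false .up 2 0 3 (qsf 1239849684 370763052 1610612736 536870912 0) ndB1q2b ndB2q3 pcB0 Cut.none Ext.none)

def k0_mm_203_b : ∃ t, chk3 f_mm_203_b t 1 1 1 = true :=
  ⟨(l 3), by decide +kernel⟩

theorem c_mm_203_b : CertB 1239849684 370763052 1610612736 536870912 649613803 48318383 3 eng mog cd1q2b cd2q3 pd0 false false false .up 2 0 3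
    ndB1q2b ndB2q3 pcB0 Cut.none Ext.none :=
  certB0 (fam := false) (s1 := false) (s2 := false) (a := 2) (b := 0) (c := 3) (cn := .up) (n1 := ndB1q2b) (n2 := ndB2q3) (pc := pcB0) (cut := Cut.none) (xt := Ext.none) (P1 := 1239849684) (W1 := 370763052) (P2 := 1610612736) (W2 := 536870912) (P3 := 649613803) (W3 := 48318383) (N0 := 3) (En := eng) (mo := mog) (C1 := cd1q2b) (C2 := cd2q3) (C3 := pd0)
    rfl k0_mm_203_b

noncomputable def f_mm_213_a : ℕ → ℕ → ℕ → ℕ → Bool := onCell 0 536870912 1610612736 536870912 649613803 48318383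
    (rowB 3 eng mog cd1q2a cd2q3 pd1 0 false false false .pnn 2 1 3 (qsf 0 536870912 1610612736 536870912 1) ndB1q2a ndB2q3 pcB1 Cut.none Ext.none)

def k0_mm_213_a : ∃ t, chk3 f_mm_213_a t 1 1 1 = true :=
  ⟨(a (l 3) (l 5)), by decide +kernel⟩

theorem c_mm_213_a : CertB 0 536870912 1610612736 536870912 649613803 48318383 3 eng mog cd1q2a cd2q3 pd1 false false false .pnn 2 1 3
    ndB1q2a ndB2q3 pcB1 Cut.none Ext.none :=
  certB0 (fam := false) (s1 := false) (s2 := false) (a := 2) (b := 1) (c := 3) (cn := .pnn) (n1 := ndB1q2a) (n2 := ndB2q3) (pc := pcB1) (cut := Cut.none) (xt := Ext.none) (P1 := 0) (W1 := 536870912) (P2 := 1610612736) (W2 := 536870912) (P3 := 649613803) (W3 := 48318383) (N0 := 3) (En := eng) (mo := mog) (C1 := cd1q2a) (C2 := cd2q3) (C3 := pd1)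
    rfl k0_mm_213_a

noncomputable def f_mm_213_b : ℕ → ℕ → ℕ → ℕ → Bool := onCell 1239849684 370763052 1610612736 536870912 649613803 48318383
    (rowB 3 eng mog cd1q2b cd2q3 pd1 0 false false false .pnn 2 1 3 (qsf 1239849684 370763052 1610612736 536870912 1) ndB1q2b ndB2q3 pcB1 Cut.none Ext.none)

def k0_mm_213_b : ∃ t, chk3 f_mm_213_b t 1 1 1 = true :=
  ⟨(l 3), by decide +kernel⟩

theorem c_mm_213_b : CertB 1239849684 370763052 1610612736 536870912 649613803 48318383 3 eng mog cd1q2b cd2q3 pd1 false false false .pnn 2 1 3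
    ndB1q2b ndB2q3 pcB1 Cut.none Ext.none :=
  certB0 (fam := false) (s1 := false) (s2 := false) (a := 2) (b := 1) (c := 3) (cn := .pnn) (n1 := ndB1q2b) (n2 := ndB2q3) (pc := pcB1) (cut := Cut.none) (xt := Ext.none) (P1 := 1239849684) (W1 := 370763052) (P2 := 1610612736) (W2 := 536870912) (P3 := 649613803) (W3 := 48318383) (N0 := 3) (En := eng) (mo := mog) (C1 := cd1q2b) (C2 := cd2q3) (C3 := pd1)
    rfl k0_mm_213_b

noncomputable def f_mm_303 : ℕ → ℕ → ℕ → ℕ → Bool := onCell 1610612736 536870912 1610612736 536870912 649613803 48318383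
    (rowB 3 eng mog cd1q3 cd2q3 pd0 0 false false false .npn 3 0 3 (qsf 1610612736 536870912 1610612736 536870912 0) ndB1q3 ndB2q3 pcB0 Cut.none Ext.none)

def k0_mm_303 : ∃ t, chk3 f_mm_303 t 1 1 1 = true :=
  ⟨(l 3), by decide +kernel⟩

theorem c_mm_303 : CertB 1610612736 536870912 1610612736 536870912 649613803 48318383 3 eng mog cd1q3 cd2q3 pd0 false false false .npn 3 0 3
    ndB1q3 ndB2q3 pcB0 Cut.none Ext.none :=
  certB0 (fam := false) (s1 := false) (s2 := false) (a := 3) (b := 0) (c := 3) (cn := .npn) (n1 := ndB1q3) (n2 := ndB2q3) (pc := pcB0) (cut := Cut.none) (xt := Ext.none) (P1 := 1610612736) (W1 := 536870912) (P2 := 1610612736) (W2 := 536870912) (P3 := 649613803) (W3 := 48318383) (N0 := 3) (En := eng) (mo := mog) (C1 := cd1q3) (C2 := cd2q3) (C3 := pd0)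
    rfl k0_mm_303

noncomputable def f_mm_313 : ℕ → ℕ → ℕ → ℕ → Bool := onCell 1610612736 536870912 1610612736 536870912 649613803 48318383
    (rowB 3 eng mog cd1q3 cd2q3 pd1 0 false false false .dn 3 1 3 (qsf 1610612736 536870912 1610612736 536870912 1) ndB1q3 ndB2q3 pcB1 Cut.none Ext.none)

def k0_mm_313 : ∃ t, chk3 f_mm_313 t 1 1 1 = true :=
  ⟨(l 3), by decide +kernel⟩

theorem c_mm_313 : CertB 1610612736 536870912 1610612736 536870912 649613803 48318383 3 eng mog cd1q3 cd2q3 pd1 false false false .dn 3 1 3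
    ndB1q3 ndB2q3 pcB1 Cut.none Ext.none :=
  certB0 (fam := false) (s1 := false) (s2 := false) (a := 3) (b := 1) (c := 3) (cn := .dn) (n1 := ndB1q3) (n2 := ndB2q3) (pc := pcB1) (cut := Cut.none) (xt := Ext.none) (P1 := 1610612736) (W1 := 536870912) (P2 := 1610612736) (W2 := 536870912) (P3 := 649613803) (W3 := 48318383) (N0 := 3) (En := eng) (mo := mog) (C1 := cd1q3) (C2 := cd2q3) (C3 := pd1)
    rfl k0_mm_313

end Pool.Agent.Strip051.G.I6050_6500.Tab.C.BB12

namespace Pool.Agent.Strip051.G.I6050_6500.Tab.C.BB13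

open Pool.Agent.Strip051.PB Pool.Agent.Strip051.PB.T
open Pool.Agent.Strip051.G.I6050_6500.Tab

noncomputable def f_pp_001 : ℕ → ℕ → ℕ → ℕ → Bool := onCell 0 536870912 536870912 536870912 649613803 48318383
    (rowB 3 eng mog cd1q0 cd3q1 pd0 0 false true true .up 0 0 1 (qsf 0 536870912 536870912 536870912 0) ndB1q0 ndB3q1 pcB0 Cut.none Ext.none)

def k0_pp_001 : ∃ t, chk3 f_pp_001 t 1 1 1 = true :=
  ⟨(l 3), by decide +kernel⟩

theorem c_pp_001 : CertB 0 536870912 536870912 536870912 649613803 48318383 3 eng mog cd1q0 cd3q1 pd0 false true true .up 0 0 1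
    ndB1q0 ndB3q1 pcB0 Cut.none Ext.none :=
  certB0 (fam := false) (s1 := true) (s2 := true) (a := 0) (b := 0) (c := 1) (cn := .up) (n1 := ndB1q0) (n2 := ndB3q1) (pc := pcB0) (cut := Cut.none) (xt := Ext.none) (P1 := 0) (W1 := 536870912) (P2 := 536870912) (W2 := 536870912) (P3 := 649613803) (W3 := 48318383) (N0 := 3) (En := eng) (mo := mog) (C1 := cd1q0) (C2 := cd3q1) (C3 := pd0)
    rfl k0_pp_001

noncomputable def f_pp_011 : ℕ → ℕ → ℕ → ℕ → Bool := onCell 0 536870912 536870912 536870912 649613803 48318383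
    (rowB 3 eng mog cd1q0 cd3q1 pd1 0 false true true .pnn 0 1 1 (qsf 0 536870912 536870912 536870912 1) ndB1q0 ndB3q1 pcB1 Cut.none Ext.none)

def k0_pp_011 : ∃ t, chk3 f_pp_011 t 1 1 1 = true :=
  ⟨(l 3), by decide +kernel⟩

theorem c_pp_011 : CertB 0 536870912 536870912 536870912 649613803 48318383 3 eng mog cd1q0 cd3q1 pd1 false true true .pnn 0 1 1
    ndB1q0 ndB3q1 pcB1 Cut.none Ext.none :=
  certB0 (fam := false) (s1 := true) (s2 := true) (a := 0) (b := 1) (c := 1) (cn := .pnn) (n1 := ndB1q0) (n2 := ndB3q1) (pc := pcB1) (cut := Cut.none) (xt := Ext.none) (P1 := 0) (W1 := 536870912) (P2 := 536870912) (W2 := 536870912) (P3 := 649613803) (W3 := 48318383) (N0 := 3) (En := eng) (mo := mog) (C1 := cd1q0) (C2 := cd3q1) (C3 := pd1)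
    rfl k0_pp_011

noncomputable def cut_pp_012_a : Cut := Cut.of [[⟨0, 0, 0, 67108864⟩, ⟨1, 1, 0, 67108864⟩, ⟨2, 1, 0, 67108864⟩]]

noncomputable def f_pp_012_a : ℕ → ℕ → ℕ → ℕ → Bool := onCell 536870912 536870912 0 536870912 649613803 48318383
    (rowB 3 eng mog cd1q0 cd3q2a pd1 2 false true true .pnp 0 1 2 (qsf 0 536870912 0 536870912 1) ndB1q0 ndB3q2a pcB1 cut_pp_012_a Ext.none)

def k0_pp_012_a : ∃ t, chk3 f_pp_012_a t 2 1 1 = true :=
  ⟨(l 3), by decide +kernel⟩

def k1_pp_012_a : ∃ t, chk3 f_pp_012_a t 6 1 1 = true :=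
  ⟨(b (a (b (a (l 3) (b (a (l 48486107303) (a (l 16736536) (l 66202719063))) (l 3))) (l 3)) (b (a (b (a (l 16716048) (l 16741384)) (a (b (l 16753432) (l 3)) (b (l 16715304) (a (l 16731288) (l 16722616))))) (b (a (b (l 16678984) (l 16688152)) (l 16668552)) (a (c (l 16746152) (l 16745368)) (b (l 16682528) (l 16693048))))) (a (b (b (a (l 3) (l 10905121895)) (l 3)) (l 3)) (b (b (a (a (l 16726088) (l 16717320)) (l 16746648)) (a (l 16734944) (l 10905088263))) (b (a (l 3) (l 44727995223)) (l 3)))))) (l 3)), by decide +kernel⟩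

def k2_pp_012_a : ∃ t, chk3 f_pp_012_a t 7 2 1 = true :=
  ⟨(a (a (b (b (l 16648160) (a (l 16672992) (l 16658808))) (b (a (b (l 16689176) (l 16743712)) (b (l 16675056) (l 16687120))) (a (b (a (l 16719648) (l 16711736)) (a (l 3) (l 16726968))) (b (l 16690088) (a (l 16718984) (l 16711400)))))) (b (b (l 16622472) (a (l 16645776) (l 16632680))) (b (a (l 16688672) (l 16654416)) (a (b (l 16686568) (l 16700672)) (b (l 16673616) (l 16687296)))))) (b (a (b (l 16597336) (l 16633640)) (b (a (l 16577472) (l 16563464)) (a (l 16591656) (l 16576832)))) (a (b (a (l 16640328) (l 16625760)) (c (a (l 16687320) (l 16651120)) (a (l 16667800) (l 16651696)))) (a (b (l 16610648) (l 16634984)) (b (b (l 16589616) (l 16599952)) (b (l 16611528) (l 16624192))))))), by decide +kernel⟩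

def k3_pp_012_a : ∃ t, chk3 f_pp_012_a t 7 3 1 = true :=
  ⟨(a (b (a (b (a (l 3) (b (a (l 16735248) (l 16727112)) (l 3))) (l 3)) (b (a (b (a (l 16719480) (l 16712400)) (b (l 16749208) (l 17884505575))) (b (l 16702296) (l 16718528))) (a (l 3) (b (a (l 167134504663) (l 16732936)) (b (l 83919593607) (l 3)))))) (l 3)) (b (a (b (a (b (l 16689584) (l 16705688)) (b (l 16673272) (l 16689232))) (a (b (l 16723216) (a (l 16766928) (l 16737104))) (b (l 16726880) (a (l 16728240) (l 16720056))))) (b (c (a (b (l 16656416) (a (l 16676208) (l 16688568))) (b (l 16660472) (l 16676912))) (a (b (l 16655712) (l 16670984)) (b (l 16632568) (l 16654520)))) (a (b (l 16699400) (l 16708840)) (b (c (l 16682360) (l 16673592)) (a (l 16697720) (l 16690208)))))) (a (b (b (a (b (a (l 3) (l 16750792)) (l 3)) (a (b (l 16743208) (l 16753928)) (l 16741136))) (a (l 3) (a (l 3) (b (l 16756232) (l 41506824871))))) (l 3)) (b (a (b (a (l 16733600) (l 16726064)) (a (b (l 16747664) (l 16768120)) (b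 (l 16739456) (l 16749184)))) (b (a (l 16718096) (l 16710112)) (a (b (l 16731264) (l 16740936)) (b (l 16723088) (l 6))))) (a (b (b (a (b (l 16765600) (l 3)) (l 6)) (l 6)) (l 3)) (l 6)))))), by decide +kernel⟩

theorem s4_pp_012_a : ∃ t, chk3 f_pp_012_a t 7 1 1 = true := ex3_b k2_pp_012_a k3_pp_012_a

theorem s5_pp_012_a : ∃ t, chk3 f_pp_012_a t 3 1 1 = true := ex3_a k1_pp_012_a s4_pp_012_a

theorem s6_pp_012_a : ∃ t, chk3 f_pp_012_a t 1 1 1 = true := ex3_a k0_pp_012_a s5_pp_012_a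

theorem c_pp_012_a : CertB 0 536870912 0 536870912 649613803 48318383 3 eng mog cd1q0 cd3q2a pd1 false true true .pnp 0 1 2
    ndB1q0 ndB3q2a pcB1 cut_pp_012_a Ext.none :=
  certB2 (fam := false) (s1 := true) (s2 := true) (a := 0) (b := 1) (c := 2) (cn := .pnp) (n1 := ndB1q0) (n2 := ndB3q2a) (pc := pcB1) (cut := cut_pp_012_a) (xt := Ext.none) (P1 := 0) (W1 := 536870912) (P2 := 0) (W2 := 536870912) (P3 := 649613803) (W3 := 48318383) (N0 := 3) (En := eng) (mo := mog) (C1 := cd1q0) (C2 := cd3q2a) (C3 := pd1)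
    rfl (fun _ => rfl) s6_pp_012_a

noncomputable def cut_pp_012_b : Cut := Cut.of [[⟨0, 0, 0, 67108864⟩, ⟨1, 1, 0, 67108864⟩, ⟨2, 1, 0, 67108864⟩]]

noncomputable def f_pp_012_b : ℕ → ℕ → ℕ → ℕ → Bool := onCell 536870912 536870912 1239849684 370763052 649613803 48318383
    (rowB 3 eng mog cd1q0 cd3q2b pd1 2 false true true .pnp 0 1 2 (qsf 0 536870912 1239849684 370763052 1) ndB1q0 ndB3q2b pcB1 cut_pp_012_b Ext.none)

def k0_pp_012_b : ∃ t, chk3 f_pp_012_b t 1 1 1 = true :=
  ⟨(b (a (l 3) (a (a (b (a (l 3) (b (a (a (l 27548178983) (l 16728760)) (a (l 16721024) (l 16712936))) (a (l 16681040) (l 16677032)))) (a (l 3) (b (a (l 3) (l 16640072)) (l 52780795271)))) (b (a (a (b (a (l 16683696) (l 16675408)) (l 16629160)) (b (l 16684064) (l 16612304))) (b (b (l 16653320) (l 16626248)) (b (l 16663216) (l 16638080)))) (a (b (a (l 16581912) (l 16564920)) (l 16557360)) (b (b (l 16613424) (l 16529568)) (l 16518208))))) (a (b (a (b (l 16657720) (l 16555928)) (b (b (l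 16601048) (l 16571080)) (l 16528136))) (b (a (l 16517552) (l 16476728)) (a (l 16481000) (l 16445568)))) (b (a (b (b (l 16577408) (l 16549464)) (l 16505888)) (b (a (b (l 16558776) (l 16532280)) (b (l 16545592) (l 16520280))) (l 16528992))) (b (a (l 16450528) (l 16472904)) (a (l 16413104) (l 16384680))))))) (a (l 2) (b (a (a (l 2) (a (b (l 16556680) (l 2)) (b (l 16511616) (l 16513992)))) (a (a (b (l 16469216) (l 16466344)) (l 16423264)) (a (l 16382376) (b (l 16354752) (l 16336872))))) (a (l 2) (a (a (l 2) (l 16429072)) (a (l 16378944) (l 16393856))))))), by decide +kernel⟩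

theorem c_pp_012_b : CertB 0 536870912 1239849684 370763052 649613803 48318383 3 eng mog cd1q0 cd3q2b pd1 false true true .pnp 0 1 2
    ndB1q0 ndB3q2b pcB1 cut_pp_012_b Ext.none :=
  certB2 (fam := false) (s1 := true) (s2 := true) (a := 0) (b := 1) (c := 2) (cn := .pnp) (n1 := ndB1q0) (n2 := ndB3q2b) (pc := pcB1) (cut := cut_pp_012_b) (xt := Ext.none) (P1 := 0) (W1 := 536870912) (P2 := 1239849684) (W2 := 370763052) (P3 := 649613803) (W3 := 48318383) (N0 := 3) (En := eng) (mo := mog) (C1 := cd1q0) (C2 := cd3q2b) (C3 := pd1)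
    rfl (fun _ => rfl) k0_pp_012_b

noncomputable def cut_pp_022_a : Cut := Cut.of [[⟨0, 0, 0, 67108864⟩, ⟨1, 1, 0, 67108864⟩, ⟨2, 1, 0, 67108864⟩]]

noncomputable def f_pp_022_a : ℕ → ℕ → ℕ → ℕ → Bool := onCell 1073741824 536870912 0 536870912 649613803 48318383
    (rowB 3 eng mog cd1q0 cd3q2a pd2 2 false true true .pp 0 2 2 (qsf 0 536870912 0 536870912 2) ndB1q0 ndB3q2a pcB2 cut_pp_022_a Ext.none)

def k0_pp_022_a : ∃ t, chk3 f_pp_022_a t 2 2 1 = true :=
  ⟨(a (a (b (a (b (a (b (l 16543240) (l 16548712)) (b (c (l 16531608) (l 16526552)) (l 16534440))) (a (b (l 16555544) (l 16563520)) (l 16586576))) (b (c (b (l 16555520) (l 16559968)) (b (l 16558856) (l 16532712))) (b (l 16521296) (l 16528712)))) (b (a (a (b (l 16572600) (l 16583032)) (b (l 16557136) (l 16567800))) (b (l 16537384) (l 16547560))) (a (a (b (l 16616008) (l 16629840)) (b (l 16580312) (l 16594304))) (b (l 16559048) (l 16613600))))) (b (a (b (a (b (l 16493896) (l 16498160)) (c (l 16488904) (l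 16479848))) (b (l 16497408) (l 16503480))) (b (a (c (l 16478024) (l 16467872)) (c (l 16467112) (l 16455776))) (a (l 16481488) (l 16468544)))) (a (b (b (l 16510664) (l 16519176)) (b (l 16528776) (a (l 16547592) (l 16530784)))) (b (a (b (l 16489696) (l 16496744)) (b (l 16475288) (l 16481224))) (a (b (l 16504704) (l 16513336)) (b (l 16487952) (c (l 16501344) (l 16488616)))))))) (a (a (b (a (b (c (l 16456216) (l 16443584)) (b (l 16453880) (l 16456768))) (a (b (l 16441872) (b (l 16444352) (l 16446344))) (b (l 16436160) (a (l 16461392) (a (l 240014221895) (l 1)))))) (a (b (b (l 16460504) (l 16465192)) (b (c (l 16477256) (l 16463320)) (c (l 16483336) (l 16468640)))) (a (b (b (l 16449128) (l 16452768)) (l 1)) (l 1)))) (b (b (l 1) (l 1)) (l 1))) (l 1))), by decide +kernel⟩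

def k1_pp_022_a : ∃ t, chk3 f_pp_022_a t 2 3 1 = true :=
  ⟨(a (a (b (a (b (b (a (l 16624712) (l 16609496)) (a (l 16642136) (l 16625816))) (a (b (l 16660632) (l 16680040)) (b (l 16643032) (a (l 16665808) (l 16676968))))) (b (b (a (l 16593520) (l 16576824)) (a (l 16608648) (l 16590656))) (b (a (l 16645448) (l 16625984)) (a (c (l 16664048) (l 16659184)) (b (l 16616016) (a (l 16628640) (l 16617576))))))) (a (b (b (a (a (l 16720472) (l 16694752)) (a (l 16705296) (b (l 16669144) (l 16678040)))) (l 6)) (l 6)) (b (b (a (b (a (l 16658384) (l 16647344)) (a (l 16666784) (l 16655232))) (b (a (l 16636040) (l 16624480)) (a (b (l 16641632) (l 6)) (b (l 16629672) (l 16632936))))) (a (l 6) (a (l 6) (a (l 6) (l 1))))) (a (l 6) (l 1))))) (b (b (a (b (a (l 16559408) (l 16541288)) (a (l 16571856) (b (l 16549440) (l 16554984)))) (a (b (c (l 16527944) (l 16516488)) (b (l 16529384) (l 51035857527))) (b (c (l 16509200) (l 16495776)) (l 1)))) (a (b (a (b (l 16581360) (l 16587824))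 (b (a (l 16565816) (l 16555136)) (a (l 16571608) (l 16560456)))) (a (b (a (l 16599824) (l 16588712)) (a (l 16606224) (l 51572831191))) (b (a (l 16598328) (l 1)) (l 1)))) (b (a (b (l 55867704119) (l 1)) (l 1)) (l 1)))) (a (b (b (a (b (a (l 56941575639) (l 16600464)) (a (l 16639848) (l 1))) (l 1)) (l 1)) (l 1)) (l 1)))) (b (l 1) (l 1))), by decide +kernel⟩

def k2_pp_022_a : ∃ t, chk3 f_pp_022_a t 3 1 1 = true :=
  ⟨(l 1), by decide +kernel⟩

theorem s3_pp_022_a : ∃ t, chk3 f_pp_022_a t 2 1 1 = true := ex3_b k0_pp_022_a k1_pp_022_a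

theorem s4_pp_022_a : ∃ t, chk3 f_pp_022_a t 1 1 1 = true := ex3_a s3_pp_022_a k2_pp_022_a

theorem c_pp_022_a : CertB 0 536870912 0 536870912 649613803 48318383 3 eng mog cd1q0 cd3q2a pd2 false true true .pp 0 2 2
    ndB1q0 ndB3q2a pcB2 cut_pp_022_a Ext.none :=
  certB2 (fam := false) (s1 := true) (s2 := true) (a := 0) (b := 2) (c := 2) (cn := .pp) (n1 := ndB1q0) (n2 := ndB3q2a) (pc := pcB2) (cut := cut_pp_022_a) (xt := Ext.none) (P1 := 0) (W1 := 536870912) (P2 := 0) (W2 := 536870912) (P3 := 649613803) (W3 := 48318383) (N0 := 3) (En := eng) (mo := mog) (C1 := cd1q0) (C2 := cd3q2a) (C3 := pd2)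
    rfl (fun _ => rfl) s4_pp_022_a

noncomputable def cut_pp_022_b : Cut := Cut.of [[⟨0, 0, 0, 67108864⟩, ⟨1, 1, 0, 67108864⟩, ⟨2, 1, 0, 67108864⟩]]

noncomputable def f_pp_022_b : ℕ → ℕ → ℕ → ℕ → Bool := onCell 1073741824 536870912 1239849684 370763052 649613803 48318383
    (rowB 3 eng mog cd1q0 cd3q2b pd2 2 false true true .pp 0 2 2 (qsf 0 536870912 1239849684 370763052 2) ndB1q0 ndB3q2b pcB2 cut_pp_022_b Ext.none)

def k0_pp_022_b : ∃ t, chk3 f_pp_022_b t 2 1 1 = true :=
  ⟨(a (b (b (a (b (b (a (a (l 16527392) (c (l 16516440) (l 16511800))) (b (a (l 16527928) (l 16495208)) (a (l 16493944) (l 16480624)))) (a (l 16504608) (a (l 16475472) (l 16461680)))) (a (l 16505200) (b (l 16549208) (l 16314624)))) (b (a (b (a (l 16477000) (l 16466296)) (a (l 16448552) (l 16437040))) (b (c (l 16455000) (l 16465424)) (a (l 16426480) (l 16415904)))) (a (a (l 16413072) (l 16462600)) (a (l 16449680) (l 16395704))))) (b (a (a (l 16437120) (l 16381200)) (a (l 16340056) (b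 (l 16346240) (l 16325488)))) (a (a (l 16343416) (l 16328272)) (l 16426496)))) (a (b (a (b (l 16308080) (l 16286504)) (b (l 16292392) (l 16271120))) (a (b (l 16275912) (l 16276440)) (l 16258864))) (b (b (l 16341488) (l 16445544)) (a (l 16238104) (l 16211976))))) (b (a (b (b (a (b (c (l 16455576) (a (l 16427512) (l 16416256))) (a (l 16405360) (l 16394888))) (a (a (b (l 16415656) (l 16387088)) (b (a (l 16411744) (l 122439434807)) (l 16381856))) (b (l 276521367831) (l 16370088)))) (a (b (l 16372312) (l 16345304)) (a (a (l 16345792) (l 16340680)) (l 16332776)))) (a (b (b (l 16320048) (l 16298080)) (l 16265560)) (b (a (l 16416792) (l 16285208)) (a (l 16244584) (l 16241112))))) (b (b (a (a (b (l 1) (l 274373794535)) (l 1)) (l 1)) (a (b (a (l 16330120) (l 195453659815)) (a (l 16309736) (l 16296472))) (b (a (l 276521107415) (l 1)) (a (l 219612763975) (l 273299822695))))) (b (a (b (l 16285464) (l 16268024)) (b (a (l 16268776) (l 237866359559)) (l 16251968))) (a (l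 16242096) (l 16235384))))) (a (b (a (l 16198176) (a (l 16171272) (l 16166408))) (a (l 16179472) (a (l 16151040) (l 16139560)))) (b (b (a (l 16207928) (l 16211408)) (l 16180448)) (l 16316072))))), by decide +kernel⟩

def k1_pp_022_b : ∃ t, chk3 f_pp_022_b t 3 1 1 = true :=
  ⟨(b (a (b (l 1) (a (b (a (b (a (l 266320453623) (l 1)) (a (l 237866432455) (l 337724332407))) (b (l 1) (a (l 362420283303) (l 1)))) (a (l 16221144) (b (l 250751119319) (l 16200584)))) (a (a (b (l 1) (l 313564981415)) (l 1)) (l 1)))) (l 1)) (a (b (a (b (a (l 16206976) (l 16197480)) (l 16193968)) (b (a (a (l 16186968) (l 305512116583)) (b (l 350072166935) (l 282963568503))) (a (l 16185160) (l 16179224)))) (a (b (l 16184952) (l 16171000)) (a (l 16188960) (l 16191752)))) (a (b (b (l 1) (a (l 351682790839) (l 394632449287))) (b (a (l 16186096) (l 223370966279)) (l 16200632))) (b (l 1) (a (a (l 318933981687) (l 397853732823)) (l 422012929111)))))), by decide +kernel⟩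

theorem s2_pp_022_b : ∃ t, chk3 f_pp_022_b t 1 1 1 = true := ex3_a k0_pp_022_b k1_pp_022_b

theorem c_pp_022_b : CertB 0 536870912 1239849684 370763052 649613803 48318383 3 eng mog cd1q0 cd3q2b pd2 false true true .pp 0 2 2
    ndB1q0 ndB3q2b pcB2 cut_pp_022_b Ext.none :=
  certB2 (fam := false) (s1 := true) (s2 := true) (a := 0) (b := 2) (c := 2) (cn := .pp) (n1 := ndB1q0) (n2 := ndB3q2b) (pc := pcB2) (cut := cut_pp_022_b) (xt := Ext.none) (P1 := 0) (W1 := 536870912) (P2 := 1239849684) (W2 := 370763052) (P3 := 649613803) (W3 := 48318383) (N0 := 3) (En := eng) (mo := mog) (C1 := cd1q0) (C2 := cd3q2b) (C3 := pd2)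
    rfl (fun _ => rfl) s2_pp_022_b

noncomputable def f_pp_023 : ℕ → ℕ → ℕ → ℕ → Bool := onCell 1073741824 536870912 1610612736 536870912 649613803 48318383
    (rowB 3 eng mog cd1q0 cd3q3 pd2 2 false true true .up 0 2 3 (qsf 0 536870912 1610612736 536870912 2) ndB1q0 ndB3q3 pcB2 Cut.none Ext.none)

def k0_pp_023 : ∃ t, chk3 f_pp_023 t 1 1 1 = true :=
  ⟨(a (a (b (b (a (b (a (l 16321648) (l 16296520)) (l 16364304)) (b (l 16259128) (l 16300840))) (a (l 2) (l 209479631271))) (l 2)) (b (a (b (a (l 16228736) (b (l 16184984) (l 16222760))) (a (l 16356688) (l 16319048))) (b (b (l 16162848) (l 16215728)) (l 16312008))) (a (l 2) (b (l 16475552) (l 2))))) (b (a (b (a (l 16240208) (b (l 16184768) (l 16164168))) (a (l 16292752) (l 16275584))) (b (a (b (l 16205096) (l 16226224)) (b (l 16212240) (l 16241216))) (a (l 16281464) (l 16298016)))) (a (b (a (l 16502016) (l 16513608)) (l 561667730727)) (b (a (l 16517400) (l 16506344)) (l 16625776))))), by decide +kernel⟩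

theorem c_pp_023 : CertB 0 536870912 1610612736 536870912 649613803 48318383 3 eng mog cd1q0 cd3q3 pd2 false true true .up 0 2 3
    ndB1q0 ndB3q3 pcB2 Cut.none Ext.none :=
  certB2 (fam := false) (s1 := true) (s2 := true) (a := 0) (b := 2) (c := 3) (cn := .up) (n1 := ndB1q0) (n2 := ndB3q3) (pc := pcB2) (cut := Cut.none) (xt := Ext.none) (P1 := 0) (W1 := 536870912) (P2 := 1610612736) (W2 := 536870912) (P3 := 649613803) (W3 := 48318383) (N0 := 3) (En := eng) (mo := mog) (C1 := cd1q0) (C2 := cd3q3) (C3 := pd2)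
    rfl (fun _ => rfl) k0_pp_023

noncomputable def f_pp_033 : ℕ → ℕ → ℕ → ℕ → Bool := onCell 1610612736 536870912 1610612736 536870912 649613803 48318383
    (rowB 3 eng mog cd1q0 cd3q3 pd3 2 false true true .pnn 0 3 3 (qsf 0 536870912 1610612736 536870912 3) ndB1q0 ndB3q3 pcB3 Cut.none Ext.none)

def k0_pp_033 : ∃ t, chk3 f_pp_033 t 1 1 1 = true :=
  ⟨(a (b (a (a (b (l 394096017015) (l 16236304)) (b (l 445635047095) (b (l 16138376) (l 16227144)))) (b (a (b (l 1) (l 488584693447)) (l 1)) (a (l 400538107095) (l 469794311911)))) (a (a (b (l 16446256) (l 16599952)) (b (l 16383888) (l 16558704))) (b (a (l 16420664) (a (l 16310968) (l 16303752))) (a (l 16581616) (l 16471952))))) (b (a (b (l 1) (a (b (l 1) (a (l 16231576) (l 1))) (l 1))) (l 1)) (b (a (l 4) (a (b (l 1) (l 4)) (l 1))) (l 4)))), by decide +kernel⟩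

theorem c_pp_033 : CertB 0 536870912 1610612736 536870912 649613803 48318383 3 eng mog cd1q0 cd3q3 pd3 false true true .pnn 0 3 3
    ndB1q0 ndB3q3 pcB3 Cut.none Ext.none :=
  certB2 (fam := false) (s1 := true) (s2 := true) (a := 0) (b := 3) (c := 3) (cn := .pnn) (n1 := ndB1q0) (n2 := ndB3q3) (pc := pcB3) (cut := Cut.none) (xt := Ext.none) (P1 := 0) (W1 := 536870912) (P2 := 1610612736) (W2 := 536870912) (P3 := 649613803) (W3 := 48318383) (N0 := 3) (En := eng) (mo := mog) (C1 := cd1q0) (C2 := cd3q3) (C3 := pd3)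
    rfl (fun _ => rfl) k0_pp_033

noncomputable def f_pp_101 : ℕ → ℕ → ℕ → ℕ → Bool := onCell 536870912 536870912 536870912 536870912 649613803 48318383
    (rowB 3 eng mog cd1q1 cd3q1 pd0 0 false true true .npn 1 0 1 (qsf 536870912 536870912 536870912 536870912 0) ndB1q1 ndB3q1 pcB0 Cut.none Ext.none)

def k0_pp_101 : ∃ t, chk3 f_pp_101 t 1 1 1 = true :=
  ⟨(l 3), by decide +kernel⟩

theorem c_pp_101 : CertB 536870912 536870912 536870912 536870912 649613803 48318383 3 eng mog cd1q1 cd3q1 pd0 false true true .npn 1 0 1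
    ndB1q1 ndB3q1 pcB0 Cut.none Ext.none :=
  certB0 (fam := false) (s1 := true) (s2 := true) (a := 1) (b := 0) (c := 1) (cn := .npn) (n1 := ndB1q1) (n2 := ndB3q1) (pc := pcB0) (cut := Cut.none) (xt := Ext.none) (P1 := 536870912) (W1 := 536870912) (P2 := 536870912) (W2 := 536870912) (P3 := 649613803) (W3 := 48318383) (N0 := 3) (En := eng) (mo := mog) (C1 := cd1q1) (C2 := cd3q1) (C3 := pd0)
    rfl k0_pp_101

noncomputable def f_pp_102_a : ℕ → ℕ → ℕ → ℕ → Bool := onCell 536870912 536870912 0 536870912 649613803 48318383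
    (rowB 3 eng mog cd1q1 cd3q2a pd0 0 false true true .npp 1 0 2 (qsf 536870912 536870912 0 536870912 0) ndB1q1 ndB3q2a pcB0 Cut.none Ext.none)

def k0_pp_102_a : ∃ t, chk3 f_pp_102_a t 1 1 1 = true :=
  ⟨(a (l 3) (l 3)), by decide +kernel⟩

theorem c_pp_102_a : CertB 536870912 536870912 0 536870912 649613803 48318383 3 eng mog cd1q1 cd3q2a pd0 false true true .npp 1 0 2
    ndB1q1 ndB3q2a pcB0 Cut.none Ext.none :=
  certB0 (fam := false) (s1 := true) (s2 := true) (a := 1) (b := 0) (c := 2) (cn := .npp) (n1 := ndB1q1) (n2 := ndB3q2a) (pc := pcB0) (cut := Cut.none) (xt := Ext.none) (P1 := 536870912) (W1 := 536870912) (P2 := 0) (W2 := 536870912) (P3 := 649613803) (W3 := 48318383) (N0 := 3) (En := eng) (mo := mog) (C1 := cd1q1) (C2 := cd3q2a) (C3 := pd0)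
    rfl k0_pp_102_a

noncomputable def f_pp_102_b : ℕ → ℕ → ℕ → ℕ → Bool := onCell 536870912 536870912 0 536870912 649613803 48318383
    (rowB 3 eng mog cd1q1 cd3q2b pd0 1 false true true .npp 1 0 2 (qsf 536870912 536870912 1239849684 370763052 0) ndB1q1 ndB3q2b pcB0 Cut.none Ext.none)

def k0_pp_102_b : ∃ t, chk3 f_pp_102_b t 1 1 1 = true :=
  ⟨(l 3), by decide +kernel⟩

theorem c_pp_102_b : CertB 536870912 536870912 1239849684 370763052 649613803 48318383 3 eng mog cd1q1 cd3q2b pd0 false true true .npp 1 0 2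
    ndB1q1 ndB3q2b pcB0 Cut.none Ext.none :=
  certB1 (fam := false) (s1 := true) (s2 := true) (a := 1) (b := 0) (c := 2) (cn := .npp) (n1 := ndB1q1) (n2 := ndB3q2b) (pc := pcB0) (cut := Cut.none) (xt := Ext.none) (P1 := 536870912) (W1 := 536870912) (P2 := 1239849684) (W2 := 370763052) (P3 := 649613803) (W3 := 48318383) (N0 := 3) (En := eng) (mo := mog) (C1 := cd1q1) (C2 := cd3q2b) (C3 := pd0)
    rfl (fun _ => rfl) k0_pp_102_b

noncomputable def f_pp_112_a : ℕ → ℕ → ℕ → ℕ → Bool := onCell 536870912 536870912 0 536870912 649613803 48318383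
    (rowB 3 eng mog cd1q1 cd3q2a pd1 0 false true true .dn 1 1 2 (qsf 536870912 536870912 0 536870912 1) ndB1q1 ndB3q2a pcB1 Cut.none Ext.none)

def k0_pp_112_a : ∃ t, chk3 f_pp_112_a t 1 1 1 = true :=
  ⟨(a (l 3) (l 1)), by decide +kernel⟩

theorem c_pp_112_a : CertB 536870912 536870912 0 536870912 649613803 48318383 3 eng mog cd1q1 cd3q2a pd1 false true true .dn 1 1 2
    ndB1q1 ndB3q2a pcB1 Cut.none Ext.none :=
  certB0 (fam := false) (s1 := true) (s2 := true) (a := 1) (b := 1) (c := 2) (cn := .dn) (n1 := ndB1q1) (n2 := ndB3q2a) (pc := pcB1) (cut := Cut.none) (xt := Ext.none) (P1 := 536870912) (W1 := 536870912) (P2 := 0) (W2 := 536870912) (P3 := 649613803) (W3 := 48318383) (N0 := 3) (En := eng) (mo := mog) (C1 := cd1q1) (C2 := cd3q2a) (C3 := pd1)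
    rfl k0_pp_112_a

noncomputable def f_pp_112_b : ℕ → ℕ → ℕ → ℕ → Bool := onCell 536870912 536870912 1239849684 370763052 649613803 48318383
    (rowB 3 eng mog cd1q1 cd3q2b pd1 2 false true true .dn 1 1 2 (qsf 536870912 536870912 1239849684 370763052 1) ndB1q1 ndB3q2b pcB1 Cut.none Ext.none)

def k0_pp_112_b : ∃ t, chk3 f_pp_112_b t 1 1 1 = true :=
  ⟨(b (a (l 3) (b (l 1) (a (a (a (l 3) (b (a (l 3) (l 1)) (l 16696552))) (a (b (l 1) (l 68752751479)) (l 1))) (l 1)))) (a (l 3) (b (a (a (l 3) (a (b (l 16574224) (l 16589752)) (b (l 16528328) (l 16534912)))) (a (a (b (l 1) (l 16485536)) (l 63383852551)) (l 1))) (a (a (l 3) (a (b (l 39359232807) (l 174650774775)) (b (l 16559296) (a (l 16622848) (l 16588536))))) (a (a (b (l 16542576) (a (l 16555464) (l 16522176))) (l 16457152)) (a (l 16404376) (b (l 1) (l 16362328)))))))), by decide +kernel⟩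

theorem c_pp_112_b : CertB 536870912 536870912 1239849684 370763052 649613803 48318383 3 eng mog cd1q1 cd3q2b pd1 false true true .dn 1 1 2
    ndB1q1 ndB3q2b pcB1 Cut.none Ext.none :=
  certB2 (fam := false) (s1 := true) (s2 := true) (a := 1) (b := 1) (c := 2) (cn := .dn) (n1 := ndB1q1) (n2 := ndB3q2b) (pc := pcB1) (cut := Cut.none) (xt := Ext.none) (P1 := 536870912) (W1 := 536870912) (P2 := 1239849684) (W2 := 370763052) (P3 := 649613803) (W3 := 48318383) (N0 := 3) (En := eng) (mo := mog) (C1 := cd1q1) (C2 := cd3q2b) (C3 := pd1)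
    rfl (fun _ => rfl) k0_pp_112_b

noncomputable def f_pp_113 : ℕ → ℕ → ℕ → ℕ → Bool := onCell 536870912 536870912 536870912 536870912 649613803 48318383
    (rowB 3 eng mog cd1q1 cd3q3 pd1 1 false true true .nn 1 1 3 (qsf 536870912 536870912 1610612736 536870912 1) ndB1q1 ndB3q3 pcB1 Cut.none Ext.none)

def k0_pp_113 : ∃ t, chk3 f_pp_113 t 1 1 1 = true :=
  ⟨(a (b (l 3) (b (b (a (l 1) (l 3)) (a (b (l 1) (a (l 1) (l 77342784599))) (b (a (l 102710087431) (l 3)) (a (b (l 16691888) (l 16687488)) (l 119890027479))))) (b (a (b (a (l 1) (a (l 106870566775) (l 16594304))) (a (l 160557551351) (l 16547736))) (b (a (b (l 16685360) (l 16685424)) (l 16821984)) (a (l 16687024) (l 16812896)))) (a (a (l 108481043623) (l 16520496)) (b (l 16678304) (l 16719312)))))) (b (l 3) (b (a (a (l 3) (l 3)) (l 3)) (b (b (a (a (b (l 16937096) (l 16913240)) (b (l 3) (l 16816896))) (l 3)) (a (a (a (l 16868848) (l 16897304)) (b (l 16964528) (l 16938336))) (a (b (l 307257712295) (l 253570670311))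 (a (l 3) (l 3))))) (a (b (a (b (l 16856488) (l 16839320)) (b (l 16914520) (l 16890400))) (a (l 16815280) (l 16858048))) (b (b (a (l 16858256) (a (l 301889182759) (l 460803047751))) (a (l 16911528) (a (l 16842832) (l 331417043719)))) (a (b (l 16881928) (l 16855216)) (b (a (l 16844624) (l 16799776)) (l 16821736))))))))), by decide +kernel⟩

theorem c_pp_113 : CertB 536870912 536870912 1610612736 536870912 649613803 48318383 3 eng mog cd1q1 cd3q3 pd1 false true true .nn 1 1 3
    ndB1q1 ndB3q3 pcB1 Cut.none Ext.none :=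
  certB1 (fam := false) (s1 := true) (s2 := true) (a := 1) (b := 1) (c := 3) (cn := .nn) (n1 := ndB1q1) (n2 := ndB3q3) (pc := pcB1) (cut := Cut.none) (xt := Ext.none) (P1 := 536870912) (W1 := 536870912) (P2 := 1610612736) (W2 := 536870912) (P3 := 649613803) (W3 := 48318383) (N0 := 3) (En := eng) (mo := mog) (C1 := cd1q1) (C2 := cd3q3) (C3 := pd1)
    rfl (fun _ => rfl) k0_pp_113

noncomputable def f_pp_123 : ℕ → ℕ → ℕ → ℕ → Bool := onCell 1073741824 536870912 1610612736 536870912 649613803 48318383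
    (rowB 3 eng mog cd1q1 cd3q3 pd2 2 false true true .npn 1 2 3 (qsf 536870912 536870912 1610612736 536870912 2) ndB1q1 ndB3q3 pcB2 Cut.none Ext.none)

def k0_pp_123 : ∃ t, chk3 f_pp_123 t 1 1 1 = true :=
  ⟨(a (a (b (b (a (b (a (l 16356344) (l 16331536)) (a (l 16451520) (l 16397176))) (b (l 16308720) (l 16340632))) (a (b (l 16568160) (l 16665560)) (b (l 16433120) (l 16543480)))) (b (a (b (l 16728208) (l 16765984)) (b (l 16613336) (l 16653744))) (a (b (l 16889056) (a (l 16783600) (l 16745512))) (b (l 16673320) (l 16669928))))) (b (a (b (a (l 16294280) (l 1)) (a (l 16407984) (l 16362848))) (b (l 1) (l 16367392))) (b (a (a (l 16561920) (l 16521856)) (l 16521696)) (a (a (a (l 16721896) (l 16595496)) (b (l 16566792) (l 16578320))) (l 16645840))))) (b (a (b (l 1) (a (l 16397360) (l 1))) (l 1)) (a (a (b (l 16529304) (l 16601384)) (a (l 16811192) (l 16738136))) (b (l 16582584) (l 16642912))))), by decide +kernel⟩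

theorem c_pp_123 : CertB 536870912 536870912 1610612736 536870912 649613803 48318383 3 eng mog cd1q1 cd3q3 pd2 false true true .npn 1 2 3
    ndB1q1 ndB3q3 pcB2 Cut.none Ext.none :=
  certB2 (fam := false) (s1 := true) (s2 := true) (a := 1) (b := 2) (c := 3) (cn := .npn) (n1 := ndB1q1) (n2 := ndB3q3) (pc := pcB2) (cut := Cut.none) (xt := Ext.none) (P1 := 536870912) (W1 := 536870912) (P2 := 1610612736) (W2 := 536870912) (P3 := 649613803) (W3 := 48318383) (N0 := 3) (En := eng) (mo := mog) (C1 := cd1q1) (C2 := cd3q3) (C3 := pd2)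
    rfl (fun _ => rfl) k0_pp_123

noncomputable def f_pp_133 : ℕ → ℕ → ℕ → ℕ → Bool := onCell 1610612736 536870912 1610612736 536870912 649613803 48318383
    (rowB 3 eng mog cd1q1 cd3q3 pd3 2 false true true .dn 1 3 3 (qsf 536870912 536870912 1610612736 536870912 3) ndB1q1 ndB3q3 pcB3 Cut.none Ext.none)

def k0_pp_133 : ∃ t, chk3 f_pp_133 t 1 1 1 = true :=
  ⟨(a (b (l 1) (a (a (l 371011537879) (l 1)) (l 1))) (l 1)), by decide +kernel⟩

theorem c_pp_133 : CertB 536870912 536870912 1610612736 536870912 649613803 48318383 3 eng mog cd1q1 cd3q3 pd3 false true true .dn 1 3 3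
    ndB1q1 ndB3q3 pcB3 Cut.none Ext.none :=
  certB2 (fam := false) (s1 := true) (s2 := true) (a := 1) (b := 3) (c := 3) (cn := .dn) (n1 := ndB1q1) (n2 := ndB3q3) (pc := pcB3) (cut := Cut.none) (xt := Ext.none) (P1 := 536870912) (W1 := 536870912) (P2 := 1610612736) (W2 := 536870912) (P3 := 649613803) (W3 := 48318383) (N0 := 3) (En := eng) (mo := mog) (C1 := cd1q1) (C2 := cd3q3) (C3 := pd3)
    rfl (fun _ => rfl) k0_pp_133

noncomputable def f_pp_202_aa : ℕ → ℕ → ℕ → ℕ → Bool := onCell 0 536870912 0 536870912 649613803 48318383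
    (rowB 3 eng mog cd1q2a cd3q2a pd0 0 false true true .pp 2 0 2 (qsf 0 536870912 0 536870912 0) ndB1q2a ndB3q2a pcB0 Cut.none Ext.none)

def k0_pp_202_aa : ∃ t, chk3 f_pp_202_aa t 1 1 1 = true :=
  ⟨(l 3), by decide +kernel⟩

theorem c_pp_202_aa : CertB 0 536870912 0 536870912 649613803 48318383 3 eng mog cd1q2a cd3q2a pd0 false true true .pp 2 0 2
    ndB1q2a ndB3q2a pcB0 Cut.none Ext.none :=
  certB0 (fam := false) (s1 := true) (s2 := true) (a := 2) (b := 0) (c := 2) (cn := .pp) (n1 := ndB1q2a) (n2 := ndB3q2a) (pc := pcB0) (cut := Cut.none) (xt := Ext.none) (P1 := 0) (W1 := 536870912) (P2 := 0) (W2 := 536870912) (P3 := 649613803) (W3 := 48318383) (N0 := 3) (En := eng) (mo := mog) (C1 := cd1q2a) (C2 := cd3q2a) (C3 := pd0)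
    rfl k0_pp_202_aa

noncomputable def f_pp_202_ab : ℕ → ℕ → ℕ → ℕ → Bool := onCell 0 536870912 1239849684 370763052 649613803 48318383
    (rowB 3 eng mog cd1q2a cd3q2b pd0 0 false true true .pp 2 0 2 (qsf 0 536870912 1239849684 370763052 0) ndB1q2a ndB3q2b pcB0 Cut.none Ext.none)

def k0_pp_202_ab : ∃ t, chk3 f_pp_202_ab t 1 1 1 = true :=
  ⟨(l 3), by decide +kernel⟩

theorem c_pp_202_ab : CertB 0 536870912 1239849684 370763052 649613803 48318383 3 eng mog cd1q2a cd3q2b pd0 false true true .pp 2 0 2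
    ndB1q2a ndB3q2b pcB0 Cut.none Ext.none :=
  certB0 (fam := false) (s1 := true) (s2 := true) (a := 2) (b := 0) (c := 2) (cn := .pp) (n1 := ndB1q2a) (n2 := ndB3q2b) (pc := pcB0) (cut := Cut.none) (xt := Ext.none) (P1 := 0) (W1 := 536870912) (P2 := 1239849684) (W2 := 370763052) (P3 := 649613803) (W3 := 48318383) (N0 := 3) (En := eng) (mo := mog) (C1 := cd1q2a) (C2 := cd3q2b) (C3 := pd0)
    rfl k0_pp_202_ab

noncomputable def f_pp_202_ba : ℕ → ℕ → ℕ → ℕ → Bool := onCell 1239849684 370763052 0 536870912 649613803 48318383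
    (rowB 3 eng mog cd1q2b cd3q2a pd0 0 false true true .pp 2 0 2 (qsf 1239849684 370763052 0 536870912 0) ndB1q2b ndB3q2a pcB0 Cut.none Ext.none)

def k0_pp_202_ba : ∃ t, chk3 f_pp_202_ba t 1 1 1 = true :=
  ⟨(l 3), by decide +kernel⟩

theorem c_pp_202_ba : CertB 1239849684 370763052 0 536870912 649613803 48318383 3 eng mog cd1q2b cd3q2a pd0 false true true .pp 2 0 2
    ndB1q2b ndB3q2a pcB0 Cut.none Ext.none :=
  certB0 (fam := false) (s1 := true) (s2 := true) (a := 2) (b := 0) (c := 2) (cn := .pp) (n1 := ndB1q2b) (n2 := ndB3q2a) (pc := pcB0) (cut := Cut.none) (xt := Ext.none) (P1 := 1239849684) (W1 := 370763052) (P2 := 0) (W2 := 536870912) (P3 := 649613803) (W3 := 48318383) (N0 := 3) (En := eng) (mo := mog) (C1 := cd1q2b) (C2 := cd3q2a) (C3 := pd0)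
    rfl k0_pp_202_ba

noncomputable def f_pp_202_bb : ℕ → ℕ → ℕ → ℕ → Bool := onCell 1239849684 370763052 1239849684 370763052 649613803 48318383
    (rowB 3 eng mog cd1q2b cd3q2b pd0 0 false true true .pp 2 0 2 (qsf 1239849684 370763052 1239849684 370763052 0) ndB1q2b ndB3q2b pcB0 Cut.none Ext.none)

def k0_pp_202_bb : ∃ t, chk3 f_pp_202_bb t 1 1 1 = true :=
  ⟨(l 3), by decide +kernel⟩

theorem c_pp_202_bb : CertB 1239849684 370763052 1239849684 370763052 649613803 48318383 3 eng mog cd1q2b cd3q2b pd0 false true true .pp 2 0 2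
    ndB1q2b ndB3q2b pcB0 Cut.none Ext.none :=
  certB0 (fam := false) (s1 := true) (s2 := true) (a := 2) (b := 0) (c := 2) (cn := .pp) (n1 := ndB1q2b) (n2 := ndB3q2b) (pc := pcB0) (cut := Cut.none) (xt := Ext.none) (P1 := 1239849684) (W1 := 370763052) (P2 := 1239849684) (W2 := 370763052) (P3 := 649613803) (W3 := 48318383) (N0 := 3) (En := eng) (mo := mog) (C1 := cd1q2b) (C2 := cd3q2b) (C3 := pd0)
    rfl k0_pp_202_bb

noncomputable def f_pp_203_a : ℕ → ℕ → ℕ → ℕ → Bool := onCell 0 536870912 0 536870912 649613803 48318383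
    (rowB 3 eng mog cd1q2a cd3q3 pd0 1 false true true .up 2 0 3 (qsf 0 536870912 1610612736 536870912 0) ndB1q2a ndB3q3 pcB0 Cut.none Ext.none)

def k0_pp_203_a : ∃ t, chk3 f_pp_203_a t 1 1 1 = true :=
  ⟨(l 3), by decide +kernel⟩

theorem c_pp_203_a : CertB 0 536870912 1610612736 536870912 649613803 48318383 3 eng mog cd1q2a cd3q3 pd0 false true true .up 2 0 3
    ndB1q2a ndB3q3 pcB0 Cut.none Ext.none :=
  certB1 (fam := false) (s1 := true) (s2 := true) (a := 2) (b := 0) (c := 3) (cn := .up) (n1 := ndB1q2a) (n2 := ndB3q3) (pc := pcB0) (cut := Cut.none) (xt := Ext.none) (P1 := 0) (W1 := 536870912) (P2 := 1610612736) (W2 := 536870912) (P3 := 649613803) (W3 := 48318383) (N0 := 3) (En := eng) (mo := mog) (C1 := cd1q2a) (C2 := cd3q3) (C3 := pd0)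
    rfl (fun _ => rfl) k0_pp_203_a

noncomputable def f_pp_203_b : ℕ → ℕ → ℕ → ℕ → Bool := onCell 1239849684 370763052 1610612736 536870912 649613803 48318383
    (rowB 3 eng mog cd1q2b cd3q3 pd0 0 false true true .up 2 0 3 (qsf 1239849684 370763052 1610612736 536870912 0) ndB1q2b ndB3q3 pcB0 Cut.none Ext.none)

def k0_pp_203_b : ∃ t, chk3 f_pp_203_b t 1 1 1 = true :=
  ⟨(l 3), by decide +kernel⟩

theorem c_pp_203_b : CertB 1239849684 370763052 1610612736 536870912 649613803 48318383 3 eng mog cd1q2b cd3q3 pd0 false true true .up 2 0 3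
    ndB1q2b ndB3q3 pcB0 Cut.none Ext.none :=
  certB0 (fam := false) (s1 := true) (s2 := true) (a := 2) (b := 0) (c := 3) (cn := .up) (n1 := ndB1q2b) (n2 := ndB3q3) (pc := pcB0) (cut := Cut.none) (xt := Ext.none) (P1 := 1239849684) (W1 := 370763052) (P2 := 1610612736) (W2 := 536870912) (P3 := 649613803) (W3 := 48318383) (N0 := 3) (En := eng) (mo := mog) (C1 := cd1q2b) (C2 := cd3q3) (C3 := pd0)
    rfl k0_pp_203_b

noncomputable def cut_pp_213_a : Cut := Cut.of [[⟨0, 1, 0, 67108864⟩, ⟨1, 1, 0, 67108864⟩, ⟨2, 2, 0, 16777216⟩]]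

noncomputable def f_pp_213_a : ℕ → ℕ → ℕ → ℕ → Bool := onCell 0 536870912 1610612736 536870912 649613803 48318383
    (rowB 3 eng mog cd1q2a cd3q3 pd1 0 false true true .pnn 2 1 3 (qsf 0 536870912 1610612736 536870912 1) ndB1q2a ndB3q3 pcB1 cut_pp_213_a Ext.none)

def k0_pp_213_a : ∃ t, chk3 f_pp_213_a t 1 1 1 = true :=
  ⟨(b (l 3) (a (l 3) (b (l 3) (a (l 3) (b (l 3) (a (l 3) (b (l 3) (b (l 3) (b (l 3) (l 6)))))))))), by decide +kernel⟩

theorem c_pp_213_a : CertB 0 536870912 1610612736 536870912 649613803 48318383 3 eng mog cd1q2a cd3q3 pd1 false true true .pnn 2 1 3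
    ndB1q2a ndB3q3 pcB1 cut_pp_213_a Ext.none :=
  certB0 (fam := false) (s1 := true) (s2 := true) (a := 2) (b := 1) (c := 3) (cn := .pnn) (n1 := ndB1q2a) (n2 := ndB3q3) (pc := pcB1) (cut := cut_pp_213_a) (xt := Ext.none) (P1 := 0) (W1 := 536870912) (P2 := 1610612736) (W2 := 536870912) (P3 := 649613803) (W3 := 48318383) (N0 := 3) (En := eng) (mo := mog) (C1 := cd1q2a) (C2 := cd3q3) (C3 := pd1)
    rfl k0_pp_213_a

noncomputable def cut_pp_213_b : Cut := Cut.of [[⟨0, 1, 0, 67108864⟩, ⟨1, 1, 0, 67108864⟩, ⟨2, 2, 0, 16777216⟩]]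

noncomputable def f_pp_213_b : ℕ → ℕ → ℕ → ℕ → Bool := onCell 1239849684 370763052 1610612736 536870912 649613803 48318383
    (rowB 3 eng mog cd1q2b cd3q3 pd1 0 false true true .pnn 2 1 3 (qsf 1239849684 370763052 1610612736 536870912 1) ndB1q2b ndB3q3 pcB1 cut_pp_213_b Ext.none)

def k0_pp_213_b : ∃ t, chk3 f_pp_213_b t 1 1 1 = true :=
  ⟨(l 3), by decide +kernel⟩

theorem c_pp_213_b : CertB 1239849684 370763052 1610612736 536870912 649613803 48318383 3 eng mog cd1q2b cd3q3 pd1 false true true .pnn 2 1 3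
    ndB1q2b ndB3q3 pcB1 cut_pp_213_b Ext.none :=
  certB0 (fam := false) (s1 := true) (s2 := true) (a := 2) (b := 1) (c := 3) (cn := .pnn) (n1 := ndB1q2b) (n2 := ndB3q3) (pc := pcB1) (cut := cut_pp_213_b) (xt := Ext.none) (P1 := 1239849684) (W1 := 370763052) (P2 := 1610612736) (W2 := 536870912) (P3 := 649613803) (W3 := 48318383) (N0 := 3) (En := eng) (mo := mog) (C1 := cd1q2b) (C2 := cd3q3) (C3 := pd1)
    rfl k0_pp_213_b

noncomputable def f_pp_303 : ℕ → ℕ → ℕ → ℕ → Bool := onCell 1610612736 536870912 1610612736 536870912 649613803 48318383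
    (rowB 3 eng mog cd1q3 cd3q3 pd0 0 false true true .npn 3 0 3 (qsf 1610612736 536870912 1610612736 536870912 0) ndB1q3 ndB3q3 pcB0 Cut.none Ext.none)

def k0_pp_303 : ∃ t, chk3 f_pp_303 t 1 1 1 = true :=
  ⟨(l 3), by decide +kernel⟩

theorem c_pp_303 : CertB 1610612736 536870912 1610612736 536870912 649613803 48318383 3 eng mog cd1q3 cd3q3 pd0 false true true .npn 3 0 3
    ndB1q3 ndB3q3 pcB0 Cut.none Ext.none :=
  certB0 (fam := false) (s1 := true) (s2 := true) (a := 3) (b := 0) (c := 3) (cn := .npn) (n1 := ndB1q3) (n2 := ndB3q3) (pc := pcB0) (cut := Cut.none) (xt := Ext.none) (P1 := 1610612736) (W1 := 536870912) (P2 := 1610612736) (W2 := 536870912) (P3 := 649613803) (W3 := 48318383) (N0 := 3) (En := eng) (mo := mog) (C1 := cd1q3) (C2 := cd3q3) (C3 := pd0)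
    rfl k0_pp_303

noncomputable def f_pp_313 : ℕ → ℕ → ℕ → ℕ → Bool := onCell 1610612736 536870912 1610612736 536870912 649613803 48318383
    (rowB 3 eng mog cd1q3 cd3q3 pd1 0 false true true .dn 3 1 3 (qsf 1610612736 536870912 1610612736 536870912 1) ndB1q3 ndB3q3 pcB1 Cut.none Ext.none)

def k0_pp_313 : ∃ t, chk3 f_pp_313 t 1 1 1 = true :=
  ⟨(l 3), by decide +kernel⟩

theorem c_pp_313 : CertB 1610612736 536870912 1610612736 536870912 649613803 48318383 3 eng mog cd1q3 cd3q3 pd1 false true true .dn 3 1 3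
    ndB1q3 ndB3q3 pcB1 Cut.none Ext.none :=
  certB0 (fam := false) (s1 := true) (s2 := true) (a := 3) (b := 1) (c := 3) (cn := .dn) (n1 := ndB1q3) (n2 := ndB3q3) (pc := pcB1) (cut := Cut.none) (xt := Ext.none) (P1 := 1610612736) (W1 := 536870912) (P2 := 1610612736) (W2 := 536870912) (P3 := 649613803) (W3 := 48318383) (N0 := 3) (En := eng) (mo := mog) (C1 := cd1q3) (C2 := cd3q3) (C3 := pd1)
    rfl k0_pp_313

noncomputable def f_pm_001 : ℕ → ℕ → ℕ → ℕ → Bool := onCell 0 536870912 536870912 536870912 649613803 48318383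
    (rowB 3 eng mog cd1q0 cd3q1 pd0 0 false true false .up 0 0 1 (qsf 0 536870912 536870912 536870912 0) ndB1q0 ndB3q1 pcB0 Cut.none Ext.none)

def k0_pm_001 : ∃ t, chk3 f_pm_001 t 1 1 1 = true :=
  ⟨(l 4), by decide +kernel⟩

theorem c_pm_001 : CertB 0 536870912 536870912 536870912 649613803 48318383 3 eng mog cd1q0 cd3q1 pd0 false true false .up 0 0 1
    ndB1q0 ndB3q1 pcB0 Cut.none Ext.none :=
  certB0 (fam := false) (s1 := true) (s2 := false) (a := 0) (b := 0) (c := 1) (cn := .up) (n1 := ndB1q0) (n2 := ndB3q1) (pc := pcB0) (cut := Cut.none) (xt := Ext.none) (P1 := 0) (W1 := 536870912) (P2 := 536870912) (W2 := 536870912) (P3 := 649613803) (W3 := 48318383) (N0 := 3) (En := eng) (mo := mog) (C1 := cd1q0) (C2 := cd3q1) (C3 := pd0)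
    rfl k0_pm_001

noncomputable def f_pm_011 : ℕ → ℕ → ℕ → ℕ → Bool := onCell 0 536870912 536870912 536870912 649613803 48318383
    (rowB 3 eng mog cd1q0 cd3q1 pd1 0 false true false .pnn 0 1 1 (qsf 0 536870912 536870912 536870912 1) ndB1q0 ndB3q1 pcB1 Cut.none Ext.none)

def k0_pm_011 : ∃ t, chk3 f_pm_011 t 1 1 1 = true :=
  ⟨(l 4), by decide +kernel⟩

theorem c_pm_011 : CertB 0 536870912 536870912 536870912 649613803 48318383 3 eng mog cd1q0 cd3q1 pd1 false true false .pnn 0 1 1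
    ndB1q0 ndB3q1 pcB1 Cut.none Ext.none :=
  certB0 (fam := false) (s1 := true) (s2 := false) (a := 0) (b := 1) (c := 1) (cn := .pnn) (n1 := ndB1q0) (n2 := ndB3q1) (pc := pcB1) (cut := Cut.none) (xt := Ext.none) (P1 := 0) (W1 := 536870912) (P2 := 536870912) (W2 := 536870912) (P3 := 649613803) (W3 := 48318383) (N0 := 3) (En := eng) (mo := mog) (C1 := cd1q0) (C2 := cd3q1) (C3 := pd1)
    rfl k0_pm_011

noncomputable def cut_pm_012_a : Cut := Cut.of [[⟨0, 0, 0, 67108864⟩, ⟨1, 1, 0, 67108864⟩, ⟨2, 1, 0, 67108864⟩]]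

noncomputable def f_pm_012_a : ℕ → ℕ → ℕ → ℕ → Bool := onCell 536870912 536870912 0 536870912 649613803 48318383
    (rowB 3 eng mog cd1q0 cd3q2a pd1 2 false true false .pnp 0 1 2 (qsf 0 536870912 0 536870912 1) ndB1q0 ndB3q2a pcB1 cut_pm_012_a Ext.none)

def k0_pm_012_a : ∃ t, chk3 f_pm_012_a t 2 1 1 = true :=
  ⟨(b (a (b (l 2) (a (l 2) (l 16502160))) (a (b (l 16543152) (l 16502872)) (b (l 16506992) (b (l 16469472) (l 16446072))))) (b (a (a (l 2) (b (l 16434288) (l 16389480))) (a (b (l 16433296) (b (l 16412304) (l 16401288))) (b (l 16490048) (a (l 16415096) (l 16419320))))) (a (b (a (l 16305824) (l 16355360)) (a (l 16319176) (l 16405592))) (a (b (b (l 16394080) (l 16393280)) (b (l 16398128) (l 16450560))) (b (b (l 16419304) (l 16428912)) (b (l 16445072) (l 16509872))))))), by decide +kernel⟩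

def k1_pm_012_a : ∃ t, chk3 f_pm_012_a t 3 2 1 = true :=
  ⟨(a (a (b (a (l 16477856) (l 16457568)) (b (l 16437824) (l 16423808))) (b (a (l 16500440) (l 16443296)) (b (a (l 16413632) (l 16403320)) (a (l 16407200) (l 16402048))))) (a (b (a (b (l 16415488) (l 16400960)) (b (l 16401232) (l 16389400))) (b (a (l 16395072) (l 16387616)) (a (l 16399568) (l 16398056)))) (b (a (b (l 16387216) (l 16378192)) (b (a (l 16377344) (l 16371232)) (a (l 16370520) (l 16365928)))) (b (a (l 16380768) (b (l 16371584) (l 16379136))) (a (b (l 16391232) (l 16403592)) (b (l 16390768) (l 16405808))))))), by decide +kernel⟩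

def k2_pm_012_a : ∃ t, chk3 f_pm_012_a t 3 3 1 = true :=
  ⟨(a (b (a (b (a (l 16420544) (l 16416136)) (a (l 16423408) (l 16427800))) (b (a (a (l 16412784) (l 16411944)) (l 16414496)) (a (a (l 16431304) (l 16435032)) (l 16485872)))) (a (b (a (l 16467016) (l 16524240)) (b (l 16534432) (a (l 16513232) (l 16543816)))) (a (b (b (l 16462896) (l 16513072)) (b (l 16529008) (l 16626784))) (b (b (l 16480776) (l 16514920)) (b (l 16557240) (b (l 16592832) (l 16596384))))))) (b (a (b (a (l 16418784) (l 16444984)) (a (l 16498680) (b (l 16456192) (l 16486032)))) (a (b (b (l 16419824) (l 16441712)) (a (l 16524872) (b (l 16473408) (l 16508224)))) (b (a (l 16457672) (b (l 16427208) (l 16452544))) (a (b (l 16479272) (l 16514336)) (b (l 16482888) (l 16519512)))))) (a (b (a (b (l 16500960) (l 16540392)) (b (l 16544064) (l 16587928))) (b (a (l 16609136) (a (l 16609360) (l 16623904))) (a (b (l 16618688) (a (b (l 16626416) (l 16636784)) (l 16647080))) (b (l 16649232) (b (l 16687576)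 (a (l 16669888) (l 16687344))))))) (b (a (a (b (l 16539632) (l 16584400)) (b (l 16548200) (l 16615040))) (b (a (l 16555656) (a (l 16561040) (l 16564528))) (a (b (l 16590640) (l 16616168)) (a (l 16610176) (l 16656544))))) (b (a (a (l 16635792) (b (l 16633048) (l 16661632))) (a (b (l 16664744) (l 6)) (l 6))) (a (a (b (l 16674640) (b (l 16713704) (l 16715656))) (b (l 16713016) (l 6))) (l 6))))))), by decide +kernel⟩

theorem s3_pm_012_a : ∃ t, chk3 f_pm_012_a t 3 1 1 = true := ex3_b k1_pm_012_a k2_pm_012_a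

theorem s4_pm_012_a : ∃ t, chk3 f_pm_012_a t 1 1 1 = true := ex3_a k0_pm_012_a s3_pm_012_a

theorem c_pm_012_a : CertB 0 536870912 0 536870912 649613803 48318383 3 eng mog cd1q0 cd3q2a pd1 false true false .pnp 0 1 2
    ndB1q0 ndB3q2a pcB1 cut_pm_012_a Ext.none :=
  certB2 (fam := false) (s1 := true) (s2 := false) (a := 0) (b := 1) (c := 2) (cn := .pnp) (n1 := ndB1q0) (n2 := ndB3q2a) (pc := pcB1) (cut := cut_pm_012_a) (xt := Ext.none) (P1 := 0) (W1 := 536870912) (P2 := 0) (W2 := 536870912) (P3 := 649613803) (W3 := 48318383) (N0 := 3) (En := eng) (mo := mog) (C1 := cd1q0) (C2 := cd3q2a) (C3 := pd1)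
    rfl (fun _ => rfl) s4_pm_012_a

noncomputable def cut_pm_012_b : Cut := Cut.of [[⟨0, 0, 0, 67108864⟩, ⟨1, 1, 0, 67108864⟩, ⟨2, 1, 0, 67108864⟩]]

noncomputable def f_pm_012_b : ℕ → ℕ → ℕ → ℕ → Bool := onCell 536870912 536870912 1239849684 370763052 649613803 48318383
    (rowB 3 eng mog cd1q0 cd3q2b pd1 2 false true false .pnp 0 1 2 (qsf 0 536870912 1239849684 370763052 1) ndB1q0 ndB3q2b pcB1 cut_pm_012_b Ext.none)

def k0_pm_012_b : ∃ t, chk3 f_pm_012_b t 1 1 1 = true :=
  ⟨(a (a (l 2) (b (b (a (b (l 16582088) (l 2)) (b (l 16535232) (l 16547352))) (a (l 2) (b (l 16567288) (l 2)))) (l 2))) (b (a (b (a (b (a (l 16497480) (l 16470840)) (l 16482472)) (b (a (l 16485600) (l 16420592)) (a (l 16428544) (l 16395456)))) (a (b (l 16493672) (l 16505368)) (b (a (l 16430680) (l 16390192)) (l 16414600)))) (a (b (b (a (l 16398344) (b (l 16392168) (l 16361376))) (a (l 16362064) (l 16327336))) (b (a (l 16348272) (l 16303688)) (l 16319544))) (b (b (a (b (l 16373632) (l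 16335752)) (a (l 16358400) (b (l 16351192) (l 16303616)))) (a (b (l 16304464) (l 16280096)) (b (l 16271536) (l 16240112)))) (b (a (b (l 16262736) (l 16251448)) (b (l 16216080) (l 16199112))) (a (l 16240016) (l 16182296)))))) (a (a (l 2) (b (a (l 16463416) (l 16412960)) (l 2))) (b (a (b (l 16324536) (l 16342480)) (b (a (l 16238440) (l 16175768)) (l 16218192))) (a (l 16393352) (l 16343504)))))), by decide +kernel⟩

theorem c_pm_012_b : CertB 0 536870912 1239849684 370763052 649613803 48318383 3 eng mog cd1q0 cd3q2b pd1 false true false .pnp 0 1 2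
    ndB1q0 ndB3q2b pcB1 cut_pm_012_b Ext.none :=
  certB2 (fam := false) (s1 := true) (s2 := false) (a := 0) (b := 1) (c := 2) (cn := .pnp) (n1 := ndB1q0) (n2 := ndB3q2b) (pc := pcB1) (cut := cut_pm_012_b) (xt := Ext.none) (P1 := 0) (W1 := 536870912) (P2 := 1239849684) (W2 := 370763052) (P3 := 649613803) (W3 := 48318383) (N0 := 3) (En := eng) (mo := mog) (C1 := cd1q0) (C2 := cd3q2b) (C3 := pd1)
    rfl (fun _ => rfl) k0_pm_012_b

noncomputable def cut_pm_022_a : Cut := Cut.of [[⟨0, 0, 0, 67108864⟩, ⟨1, 1, 0, 67108864⟩, ⟨2, 1, 0, 67108864⟩]]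

noncomputable def f_pm_022_a : ℕ → ℕ → ℕ → ℕ → Bool := onCell 1073741824 536870912 0 536870912 649613803 48318383
    (rowB 3 eng mog cd1q0 cd3q2a pd2 2 false true false .pp 0 2 2 (qsf 0 536870912 0 536870912 2) ndB1q0 ndB3q2a pcB2 cut_pm_022_a Ext.none)

def k0_pm_022_a : ∃ t, chk3 f_pm_022_a t 2 2 1 = true :=
  ⟨(a (a (b (a (b (a (l 16363320) (l 16372976)) (a (l 16358800) (l 16371024))) (b (l 16405920) (b (l 16384176) (l 16387928)))) (a (a (b (b (l 16363936) (l 16373032)) (b (l 16386440) (l 16404160))) (b (b (l 16377864) (l 16387624)) (l 16410696))) (b (b (l 16395184) (l 16406568)) (b (l 16422304) (l 16442672))))) (b (a (b (l 16420408) (a (l 16400392) (l 16409920))) (b (a (l 16410568) (l 16417952)) (b (l 16419904) (l 16469952)))) (b (a (b (l 16417680) (l 16431424)) (b (a (l 16434272) (l 16444968)) (a (l 16449592) (l 16461224)))) (b (a (l 16470504) (a (l 16469248) (l 16481784))) (a (l 16514208) (a (l 16493504) (c (l 16507384) (l 16506928)))))))) (a (b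 (b (a (b (l 16468728) (a (l 16426616) (l 16433928))) (l 1)) (a (a (b (l 16432800) (l 16442232)) (b (l 16440880) (l 16451072))) (l 1))) (a (b (b (a (l 16455192) (l 61236262967)) (a (l 16472256) (c (l 16482656) (l 16483080)))) (a (b (c (l 16493904) (l 16493920)) (l 111702307191)) (l 1))) (l 1))) (l 1))), by decide +kernel⟩

def k1_pm_022_a : ∃ t, chk3 f_pm_022_a t 2 3 1 = true :=
  ⟨(a (b (a (a (b (b (l 16434808) (l 16504928)) (b (a (l 16487136) (l 16506920)) (a (l 16526872) (l 16548064)))) (b (b (l 16489032) (a (l 16490112) (l 16507680))) (b (a (l 16526224) (l 16545000)) (a (l 16589624) (l 16588592))))) (b (a (b (a (l 16492160) (l 16507688)) (a (l 16524784) (l 16541328))) (a (b (b (l 16514728) (l 16530616)) (l 88080037031)) (b (l 96133087607) (l 1)))) (a (a (b (l 16563184) (a (l 16603080) (l 153578355623))) (b (a (l 16576392) (l 16584952)) (b (l 353294310103) (l 1)))) (b (a (l 426845552871) (l 1)) (l 1))))) (a (b (a (b (a (a (l 16567512) (l 16578968)) (b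 (l 16582976) (l 16629656))) (l 6)) (b (a (b (l 16625464) (l 16630808)) (a (l 16633496) (b (l 16630336) (l 381211638999)))) (a (l 6) (b (a (l 6) (l 515429409079)) (l 599181266615))))) (a (l 6) (a (l 6) (l 1)))) (b (a (b (a (b (l 373695437799) (l 644278395367)) (l 1)) (l 1)) (l 1)) (l 1)))) (b (l 1) (l 1))), by decide +kernel⟩

def k2_pm_022_a : ∃ t, chk3 f_pm_022_a t 3 1 1 = true :=
  ⟨(l 1), by decide +kernel⟩

theorem s3_pm_022_a : ∃ t, chk3 f_pm_022_a t 2 1 1 = true := ex3_b k0_pm_022_a k1_pm_022_a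

theorem s4_pm_022_a : ∃ t, chk3 f_pm_022_a t 1 1 1 = true := ex3_a s3_pm_022_a k2_pm_022_a

theorem c_pm_022_a : CertB 0 536870912 0 536870912 649613803 48318383 3 eng mog cd1q0 cd3q2a pd2 false true false .pp 0 2 2
    ndB1q0 ndB3q2a pcB2 cut_pm_022_a Ext.none :=
  certB2 (fam := false) (s1 := true) (s2 := false) (a := 0) (b := 2) (c := 2) (cn := .pp) (n1 := ndB1q0) (n2 := ndB3q2a) (pc := pcB2) (cut := cut_pm_022_a) (xt := Ext.none) (P1 := 0) (W1 := 536870912) (P2 := 0) (W2 := 536870912) (P3 := 649613803) (W3 := 48318383) (N0 := 3) (En := eng) (mo := mog) (C1 := cd1q0) (C2 := cd3q2a) (C3 := pd2)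
    rfl (fun _ => rfl) s4_pm_022_a

noncomputable def cut_pm_022_b : Cut := Cut.of [[⟨0, 0, 0, 67108864⟩, ⟨1, 1, 0, 67108864⟩, ⟨2, 1, 0, 67108864⟩]]

noncomputable def f_pm_022_b : ℕ → ℕ → ℕ → ℕ → Bool := onCell 1073741824 536870912 1239849684 370763052 649613803 48318383
    (rowB 3 eng mog cd1q0 cd3q2b pd2 2 false true false .pp 0 2 2 (qsf 0 536870912 1239849684 370763052 2) ndB1q0 ndB3q2b pcB2 cut_pm_022_b Ext.none)

def k0_pm_022_b : ∃ t, chk3 f_pm_022_b t 2 1 1 = true :=
  ⟨(a (b (b (a (b (a (b (l 16367056) (a (l 16291776) (l 16298320))) (b (l 16444064) (l 16308304))) (a (a (a (l 16271032) (l 16272928)) (l 16276888)) (b (l 16262264) (l 16222784)))) (b (b (a (l 16372552) (l 16426976)) (a (l 16341200) (l 16331848))) (a (b (l 16272832) (l 16231184)) (b (l 16283112) (l 16239400))))) (a (b (a (b (l 16311160) (l 16164064)) (b (l 16190184) (l 16185328))) (a (l 16141960) (a (l 16136736) (l 16135488)))) (b (a (b (l 16195664) (l 16166608)) (b (l 16201528) (l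 16170312))) (a (l 16134256) (l 16134504))))) (b (a (b (a (l 16130064) (l 16116536)) (a (l 16135480) (l 16114872))) (b (a (l 16107688) (l 16101320)) (a (l 16098504) (l 16086864)))) (a (b (l 16140392) (l 16168856)) (b (a (l 16106088) (l 16088024)) (l 16112832))))) (b (b (a (b (a (b (a (l 16394432) (l 16421488)) (l 16343776)) (a (b (b (l 102575273543) (l 16392496)) (l 16352440)) (b (a (l 16433336) (l 1)) (l 16361200)))) (a (b (l 16294184) (l 16248792)) (a (l 16341952) (l 16308968)))) (b (b (l 1) (a (a (c (l 16372568) (l 16367456)) (l 1)) (l 1))) (a (b (a (l 16320312) (l 16326304)) (l 16278392)) (b (l 123513181303) (l 16285696))))) (a (b (a (b (l 16208088) (l 16173936)) (a (b (l 16214592) (l 16177552)) (l 16204376))) (a (l 16135592) (a (l 16136000) (l 16141592)))) (b (a (b (l 16236784) (l 16199544)) (b (l 16245168) (l 16208592))) (a (l 16152728) (l 16160992))))) (a (b (a (b (l 16097704) (l 16076448)) (b (l 16098192) (l 16072184))) (a (l 16118576) (l 16065104)))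 (b (a (l 16133624) (b (l 16107928) (l 16076848))) (a (l 16068632) (l 16064488)))))), by decide +kernel⟩

def k1_pm_022_b : ∃ t, chk3 f_pm_022_b t 3 1 1 = true :=
  ⟨(b (a (b (l 1) (a (b (a (b (l 16241960) (l 16206672)) (l 222297372839)) (a (l 16159624) (l 16145968))) (a (b (l 1) (l 280815987367)) (l 1)))) (l 1)) (a (a (b (b (l 16130608) (l 16041816)) (a (l 16048856) (l 16020848))) (b (a (l 16166080) (l 182031426087)) (a (l 15981568) (l 15926984)))) (a (b (b (l 1) (a (l 16103856) (l 302827257751))) (a (l 15937288) (l 196527107271))) (b (l 1) (l 4))))), by decide +kernel⟩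

theorem s2_pm_022_b : ∃ t, chk3 f_pm_022_b t 1 1 1 = true := ex3_a k0_pm_022_b k1_pm_022_b

theorem c_pm_022_b : CertB 0 536870912 1239849684 370763052 649613803 48318383 3 eng mog cd1q0 cd3q2b pd2 false true false .pp 0 2 2
    ndB1q0 ndB3q2b pcB2 cut_pm_022_b Ext.none :=
  certB2 (fam := false) (s1 := true) (s2 := false) (a := 0) (b := 2) (c := 2) (cn := .pp) (n1 := ndB1q0) (n2 := ndB3q2b) (pc := pcB2) (cut := cut_pm_022_b) (xt := Ext.none) (P1 := 0) (W1 := 536870912) (P2 := 1239849684) (W2 := 370763052) (P3 := 649613803) (W3 := 48318383) (N0 := 3) (En := eng) (mo := mog) (C1 := cd1q0) (C2 := cd3q2b) (C3 := pd2)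
    rfl (fun _ => rfl) s2_pm_022_b

noncomputable def f_pm_023 : ℕ → ℕ → ℕ → ℕ → Bool := onCell 0 536870912 1073741824 536870912 649613803 48318383
    (rowB 3 eng mog cd1q0 cd3q3 pd2 1 false true false .up 0 2 3 (qsf 0 536870912 1610612736 536870912 2) ndB1q0 ndB3q3 pcB2 Cut.none Ext.none)

def k0_pm_023 : ∃ t, chk3 f_pm_023 t 1 1 1 = true :=
  ⟨(b (a (b (l 1) (a (l 1) (b (l 1) (l 265246981751)))) (b (a (b (l 1) (a (l 1) (l 157335817975))) (b (a (l 164314935687) (l 16167984)) (a (l 16112056) (l 16150920)))) (a (b (a (l 263099376359) (l 169683864455)) (a (l 16069984) (l 16104688))) (b (a (l 16105568) (l 16145104)) (a (l 16147072) (l 16194208)))))) (b (a (a (b (l 1) (a (l 1) (l 234644940679))) (b (l 221760247351) (b (l 15957104) (l 15930088)))) (a (b (l 16119056) (l 16257624)) (b (l 16246472) (l 16370512)))) (a (a (b (b (l 265783518023) (l 322154653575)) (b (l 325912999127) (l 4))) (b (l 225518083879) (a (l 15948072) (l 16106064)))) (a (b (l 16222120) (l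 16374032)) (b (l 16486856) (l 16575456)))))), by decide +kernel⟩

theorem c_pm_023 : CertB 0 536870912 1610612736 536870912 649613803 48318383 3 eng mog cd1q0 cd3q3 pd2 false true false .up 0 2 3
    ndB1q0 ndB3q3 pcB2 Cut.none Ext.none :=
  certB1 (fam := false) (s1 := true) (s2 := false) (a := 0) (b := 2) (c := 3) (cn := .up) (n1 := ndB1q0) (n2 := ndB3q3) (pc := pcB2) (cut := Cut.none) (xt := Ext.none) (P1 := 0) (W1 := 536870912) (P2 := 1610612736) (W2 := 536870912) (P3 := 649613803) (W3 := 48318383) (N0 := 3) (En := eng) (mo := mog) (C1 := cd1q0) (C2 := cd3q3) (C3 := pd2)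
    rfl (fun _ => rfl) k0_pm_023

noncomputable def f_pm_033 : ℕ → ℕ → ℕ → ℕ → Bool := onCell 0 536870912 1610612736 536870912 649613803 48318383
    (rowB 3 eng mog cd1q0 cd3q3 pd3 1 false true false .pnn 0 3 3 (qsf 0 536870912 1610612736 536870912 3) ndB1q0 ndB3q3 pcB3 Cut.none Ext.none)

def k0_pm_033 : ∃ t, chk3 f_pm_033 t 1 1 1 = true :=
  ⟨(a (b (b (a (l 4) (b (l 445836781559) (l 4))) (l 4)) (a (l 4) (b (l 4) (a (b (l 4) (l 2)) (l 2))))) (b (a (b (b (l 16464024) (l 232699977095)) (b (l 16563576) (l 16587528))) (b (b (l 16622392) (l 16658856)) (a (b (l 16658760) (l 2)) (l 2)))) (a (b (a (b (l 4) (l 2)) (l 2)) (l 2)) (l 2)))), by decide +kernel⟩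

theorem c_pm_033 : CertB 0 536870912 1610612736 536870912 649613803 48318383 3 eng mog cd1q0 cd3q3 pd3 false true false .pnn 0 3 3
    ndB1q0 ndB3q3 pcB3 Cut.none Ext.none :=
  certB1 (fam := false) (s1 := true) (s2 := false) (a := 0) (b := 3) (c := 3) (cn := .pnn) (n1 := ndB1q0) (n2 := ndB3q3) (pc := pcB3) (cut := Cut.none) (xt := Ext.none) (P1 := 0) (W1 := 536870912) (P2 := 1610612736) (W2 := 536870912) (P3 := 649613803) (W3 := 48318383) (N0 := 3) (En := eng) (mo := mog) (C1 := cd1q0) (C2 := cd3q3) (C3 := pd3)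
    rfl (fun _ => rfl) k0_pm_033

noncomputable def f_pm_101 : ℕ → ℕ → ℕ → ℕ → Bool := onCell 0 536870912 536870912 536870912 649613803 48318383
    (rowB 3 eng mog cd1q1 cd3q1 pd0 2 false true false .npn 1 0 1 (qsf 536870912 536870912 536870912 536870912 0) ndB1q1 ndB3q1 pcB0 Cut.none Ext.none)

def k0_pm_101 : ∃ t, chk3 f_pm_101 t 1 1 1 = true :=
  ⟨(a (b (l 4) (b (l 4) (b (a (a (b (l 4) (a (a (l 16177504) (l 16178176)) (l 16182112))) (l 4)) (l 4)) (a (a (b (a (a (l 16183168) (l 16167408)) (b (l 16149200) (l 16141808))) (a (a (l 16216088) (l 16186032)) (b (l 16145344) (l 16149152)))) (a (b (l 16231728) (l 16092744)) (b (l 4) (a (l 16055240) (l 16037344))))) (a (a (b (l 4) (l 16021792)) (l 4)) (l 4)))))) (l 4)), by decide +kernel⟩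

theorem c_pm_101 : CertB 536870912 536870912 536870912 536870912 649613803 48318383 3 eng mog cd1q1 cd3q1 pd0 false true false .npn 1 0 1
    ndB1q1 ndB3q1 pcB0 Cut.none Ext.none :=
  certB2 (fam := false) (s1 := true) (s2 := false) (a := 1) (b := 0) (c := 1) (cn := .npn) (n1 := ndB1q1) (n2 := ndB3q1) (pc := pcB0) (cut := Cut.none) (xt := Ext.none) (P1 := 536870912) (W1 := 536870912) (P2 := 536870912) (W2 := 536870912) (P3 := 649613803) (W3 := 48318383) (N0 := 3) (En := eng) (mo := mog) (C1 := cd1q1) (C2 := cd3q1) (C3 := pd0)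
    rfl (fun _ => rfl) k0_pm_101

noncomputable def xt_pm_102_a : Ext := extD2 3 ⟨7, 3, 3, 10, 377, 200, 77, 100, 17, 50, 3, 16⟩ eng cd1q1 cd3q2a pd0 false true false .npp 1 0 2 rfl ndB1q1 ndB3q2a pcB0

noncomputable def f_pm_102_a : ℕ → ℕ → ℕ → ℕ → Bool := onCell 536870912 536870912 0 536870912 649613803 48318383
    (rowB 3 eng mog cd1q1 cd3q2a pd0 0 false true false .npp 1 0 2 (qsf 536870912 536870912 0 536870912 0) ndB1q1 ndB3q2a pcB0 Cut.none xt_pm_102_a)

def k0_pm_102_a : ∃ t, chk3 f_pm_102_a t 2 1 1 = true :=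
  ⟨(b (a (b (l 2) (a (l 2) (l 16540248))) (b (a (b (l 16689944) (l 16660976)) (b (l 16719888) (l 16784888))) (a (b (l 16616096) (l 16540184)) (b (a (l 16655528) (l 16683976)) (l 16581544))))) (a (a (b (l 2) (b (b (l 16403168) (l 16372392)) (b (l 16412440) (a (l 16330448) (l 16347496))))) (b (b (l 16471392) (b (l 16459776) (l 16443888))) (b (b (l 16413936) (a (l 16386080) (l 16413616))) (b (a (l 16377248) (b (l 16415736) (l 16421080))) (a (a (l 16373424) (b (l 16392832) (l 16403192))) (a (b (l 16417792) (l 16425848)) (b (l 16441016) (l 16449768)))))))) (b (b (a (l 16496168) (b (l 16580168) (l 16572808))) (a (b (l 16490040) (l 16489520)) (b (l 16549544) (a (l 16553280) (l 16568672))))) (b (b (a (a (l 16454032) (l 16511024)) (a (l 16532576) (l 16576160))) (a (a (l 16456424) (l 16513712)) (a (a (l 16547040) (b (l 16565392) (l 16568920))) (b (l 16601376) (l 16606112))))) (a (b (a (b (l 16465392) (l 16472952)) (b (l 16520760) (b (l 16504856) (l 16508096)))) (a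 (b (b (l 16480408) (l 16486368)) (a (l 16479832) (a (l 16503504) (l 16495512)))) (a (b (l 16502992) (b (l 16507272) (c (l 16549296) (l 16486824)))) (b (b (l 16539160) (l 141612389889409135)) (a (b (l 16537008) (a (l 16536208) (l 16543040))) (b (l 16548720) (l 16554744))))))) (a (a (b (b (l 16551392) (l 16555816)) (b (b (l 16560456) (l 16565280)) (l 16574264))) (b (b (l 16573608) (l 16581152)) (a (l 16590048) (l 16603920)))) (b (b (l 16612664) (l 16620984)) (b (l 16630968) (a (l 16629784) (l 16654944)))))))))), by decide +kernel⟩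

def k1_pm_102_a : ∃ t, chk3 f_pm_102_a t 6 2 1 = true :=
  ⟨(b (a (b (a (l 16727616) (b (l 16717952) (l 16722000))) (a (l 16723464) (l 16725872))) (b (a (a (l 16705448) (l 16693768)) (a (b (a (l 16681608) (l 16675680)) (l 16684704)) (b (a (l 16669856) (l 16664168)) (b (l 16671256) (l 16674384))))) (a (a (l 16716360) (l 16727048)) (a (b (l 16691272) (l 16698192)) (l 16683272))))) (a (b (a (l 16708552) (l 16725336)) (a (a (l 16653688) (l 16675152)) (a (l 16695648) (l 16712376)))) (a (b (l 16721456) (b (l 16724728) (l 16720944))) (b (b (a (l 16705664) (l 16694632)) (l 16708368)) (b (l 16715608) (l 16721872)))))), by decide +kernel⟩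

def k2_pm_102_a : ∃ t, chk3 f_pm_102_a t 14 2 1 = true :=
  ⟨(b (a (b (a (b (a (b (l 137606512967) (l 16659944)) (b (l 3) (l 132237794439))) (a (l 16664264) (b (l 16657336) (l 16660232)))) (b (l 3) (a (b (l 121500384263) (l 16676008)) (l 3)))) (a (b (a (l 16670792) (b (l 16663424) (l 16666856))) (a (l 16678136) (l 16690288))) (b (a (b (l 16658072) (l 16661424)) (b (l 134922185111) (l 16656176))) (a (b (l 16665016) (l 16668888)) (b (l 16659816) (l 16663600)))))) (b (l 3) (a (b (a (b (l 3) (l 160691989239)) (l 3)) (a (b (l 16654312) (l 16658488)) (b (l 197199139543) (l 162839501463)))) (b (l 3) (a (b (l 3) (l 177334911863)) (l 3)))))) (a (b (a (b (l 16683432) (l 16692360)) (b (a (l 16675096) (b (l 16667664) (l 16671880))) (l 16681528))) (b (a (l 16701912) (l 16712272)) (a (l 16711184) (l 16701472)))) (b (a (b (a (b (l 16662640) (l 16666896)) (b (l 16657032) (l 16662048))) (a (l 16673728) (b (l 16666504) (l 16671024)))) (b (a (b (l 180556243895) (l 166060742983))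 (b (l 3) (a (l 192904184711) (l 173039946151)))) (a (b (l 16661376) (l 16666432)) (b (b (l 175724412615) (l 16655848)) (l 16660688))))) (a (b (l 16680760) (l 16712216)) (b (a (l 16673528) (b (l 16666736) (l 16671424))) (l 16681136)))))), by decide +kernel⟩

def k3_pm_102_a : ∃ t, chk3 f_pm_102_a t 15 2 1 = true :=
  ⟨(b (l 3) (a (b (a (b (l 3) (a (b (a (l 181093025159) (l 3)) (a (l 226190204775) (c (l 16672352) (l 16672672)))) (b (l 3) (a (l 169818721943) (l 3))))) (l 3)) (a (b (a (b (l 16692320) (l 16666808)) (b (a (b (l 16652168) (l 16655544)) (l 180019296135)) (a (l 16660976) (c (l 16656848) (l 16657280))))) (a (b (l 16672288) (l 16677352)) (b (a (l 16668344) (l 16664496)) (a (l 16674416) (l 16671928))))) (b (a (b (l 3) (a (c (l 190756736503) (l 16674224)) (l 166060628887))) (l 3)) (a (b (a (l 16660208) (b (l 16654248) (l 16657904))) (a (l 16667944) (l 16663792))) (b (a (l 179482432999) (l 3)) (a (l 199346651687) (l 176798100119))))))) (b (l 3) (a (b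 (l 3) (a (b (l 3) (a (l 171966227879) (l 3))) (l 3))) (l 3))))), by decide +kernel⟩

def k4_pm_102_a : ∃ t, chk3 f_pm_102_a t 6 3 1 = true :=
  ⟨(a (b (a (b (l 16628624) (l 16629088)) (b (l 16662432) (l 16643640))) (b (b (a (l 16707832) (l 16683216)) (a (l 16651224) (l 16670504))) (a (c (b (l 16668144) (c (l 16686368) (l 16684072))) (b (l 16661648) (a (l 16670768) (l 16737264)))) (a (b (l 16695744) (b (l 16707896) (l 16717048))) (b (l 16709632) (l 16766224)))))) (a (b (b (b (l 16707120) (l 16682560)) (b (l 16680352) (l 16687504))) (b (b (b (l 16698480) (l 16684448)) (l 16687064)) (b (l 16757544) (b (l 16725992) (c (l 16731512) (l 16762080)))))) (b (b (a (l 16826048) (b (l 16724184) (l 16725240))) (b (l 16740160) (l 16613936))) (b (b (l 16683712) (l 16712784)) (b (a (l 16719536) (l 16721072)) (b (l 16835288) (a (l 16738944) (l 16738800)))))))), by decide +kernel⟩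

def k5_pm_102_a : ∃ t, chk3 f_pm_102_a t 7 6 1 = true :=
  ⟨(a (a (b (b (l 16757984) (a (l 16726152) (l 16720648))) (b (l 16749464) (l 16711136))) (b (b (a (l 16701992) (l 16692456)) (l 16708464)) (b (a (l 16723432) (l 16735936)) (a (l 16730368) (l 16769208))))) (a (b (a (b (a (l 16685256) (l 16681520)) (b (l 16691968) (l 16698048))) (b (a (b (a (l 16675872) (l 16671472)) (l 16680640)) (b (a (l 16667376) (l 16663096)) (a (l 16675320) (l 16670816)))) (a (l 16688816) (l 16686032)))) (b (a (l 16706936) (b (l 16696536) (l 16702416))) (a (l 16719168) (b (l 16707824) (l 16712784))))) (b (a (b (a (b (a (l 142975243335) (l 159618208311)) (a (l 16624752) (l 16662856))) (b (l 3) (a (b (l 16657976) (l 16661328)) (b (l 3) (l 16658536))))) (a (b (a (l 16674408) (b (l 16668200) (l 16671768))) (l 16680912)) (b (a (b (l 16664664) (l 16667976)) (b (l 16661840) (l 16665024))) (a (b (l 16671240) (l 16675464)) (b (l 16668088) (l 16671696)))))) (b (l 3) (a (b (a (b (l 3) (l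 16662592)) (l 3)) (a (b (l 16665920) (l 16669224)) (b (l 16663456) (l 16666904)))) (l 3)))) (a (b (a (b (l 16690680) (l 16696864)) (b (b (l 16689120) (l 16684024)) (l 16692408))) (a (l 16703744) (b (l 16697184) (l 16701600)))) (b (a (b (a (l 16678680) (b (l 16670408) (l 16674208))) (a (l 16685872) (l 16681424))) (b (a (l 88214336823) (l 124184685319)) (a (l 16677952) (l 16653856)))) (a (b (l 16692616) (a (l 16698824) (l 16696600))) (b (a (l 16688200) (l 16694440)) (a (l 16694288) (l 16692792))))))))), by decide +kernel⟩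

def k6_pm_102_a : ∃ t, chk3 f_pm_102_a t 7 7 1 = true :=
  ⟨(b (a (a (b (a (l 16707520) (l 16710936)) (a (l 16716048) (l 16843008))) (b (a (l 16717824) (l 16732536)) (b (l 16864432) (l 16717872)))) (a (b (a (l 16729216) (b (l 16718816) (l 16722904))) (b (a (l 16732872) (l 16728240)) (a (l 16725568) (b (l 16732016) (l 16732824))))) (b (a (b (l 16709456) (a (l 16715856) (l 16648840))) (b (a (l 16702048) (a (l 16699376) (l 16697424))) (a (l 16706696) (l 16702176)))) (a (b (a (l 16721528) (l 16716936)) (a (l 16727456) (l 16785776))) (a (b (l 16712512) (b (l 16717112) (l 16720144))) (b (b (l 16665224) (l 16709848)) (b (l 16712896) (l 16715840)))))))) (a (b (a (a (l 16721520) (l 16721272)) (l 16805112)) (a (b (l 16730152) (l 16737888)) (a (l 16732872) (l 16731784)))) (a (b (a (l 16721512) (l 16724032)) (a (l 16730176) (l 16790976))) (b (a (b (l 16728416) (l 16730392)) (b (a (l 16722216) (l 16718120)) (l 16723096))) (a (b (l 16724376) (l 16728024)) (b (a (l 16727912)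 (l 16723688)) (a (l 16729424) (l 16725664)))))))), by decide +kernel⟩

theorem s7_pm_102_a : ∃ t, chk3 f_pm_102_a t 7 3 1 = true := ex3_b k5_pm_102_a k6_pm_102_a

theorem s8_pm_102_a : ∃ t, chk3 f_pm_102_a t 3 3 1 = true := ex3_a k4_pm_102_a s7_pm_102_a

theorem s9_pm_102_a : ∃ t, chk3 f_pm_102_a t 7 2 1 = true := ex3_a k2_pm_102_a k3_pm_102_a

theorem s10_pm_102_a : ∃ t, chk3 f_pm_102_a t 3 2 1 = true := ex3_a k1_pm_102_a s9_pm_102_a

theorem s11_pm_102_a : ∃ t, chk3 f_pm_102_a t 3 1 1 = true := ex3_b s10_pm_102_a s8_pm_102_a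

theorem s12_pm_102_a : ∃ t, chk3 f_pm_102_a t 1 1 1 = true := ex3_a k0_pm_102_a s11_pm_102_a

theorem c_pm_102_a : CertB 536870912 536870912 0 536870912 649613803 48318383 3 eng mog cd1q1 cd3q2a pd0 false true false .npp 1 0 2
    ndB1q1 ndB3q2a pcB0 Cut.none xt_pm_102_a :=
  certB0 (fam := false) (s1 := true) (s2 := false) (a := 1) (b := 0) (c := 2) (cn := .npp) (n1 := ndB1q1) (n2 := ndB3q2a) (pc := pcB0) (cut := Cut.none) (xt := xt_pm_102_a) (P1 := 536870912) (W1 := 536870912) (P2 := 0) (W2 := 536870912) (P3 := 649613803) (W3 := 48318383) (N0 := 3) (En := eng) (mo := mog) (C1 := cd1q1) (C2 := cd3q2a) (C3 := pd0)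
    rfl s12_pm_102_a

noncomputable def f_pm_102_b : ℕ → ℕ → ℕ → ℕ → Bool := onCell 536870912 536870912 0 536870912 649613803 48318383
    (rowB 3 eng mog cd1q1 cd3q2b pd0 1 false true false .npp 1 0 2 (qsf 536870912 536870912 1239849684 370763052 0) ndB1q1 ndB3q2b pcB0 Cut.none Ext.none)

def k0_pm_102_b : ∃ t, chk3 f_pm_102_b t 2 1 1 = true :=
  ⟨(b (l 1) (b (l 1) (a (l 1) (b (a (l 1) (b (a (l 1) (l 264710952023)) (a (l 272763773687) (l 16727536)))) (a (b (l 400538967031) (l 284038176759)) (b (a (l 16721544) (l 16705936)) (l 16698248))))))), by decide +kernel⟩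

def k1_pm_102_b : ∃ t, chk3 f_pm_102_b t 3 2 1 = true :=
  ⟨(b (l 1) (a (l 1) (l 3))), by decide +kernel⟩

def k2_pm_102_b : ∃ t, chk3 f_pm_102_b t 6 3 1 = true :=
  ⟨(b (b (a (l 1) (b (a (l 1) (a (l 1) (a (l 1) (a (l 1) (l 3))))) (b (a (l 1) (a (l 16715360) (a (l 16670192) (a (l 16658240) (l 16650376))))) (a (l 129956211815) (a (l 16673704) (a (l 16649744) (a (l 16637920) (l 16630104)))))))) (a (b (a (l 1) (l 163242316023)) (a (l 273837377623) (a (l 16726928) (l 16700160)))) (a (b (b (l 16701784) (l 16681944)) (l 16653256)) (a (b (b (l 16590664) (l 16634048)) (a (l 16613480) (l 16660688))) (b (a (l 16630600) (b (b (l 16619160) (l 16609432)) (c (l 16594568) (l 16594992)))) (b (b (l 16588648) (l 16579264)) (l 16554736))))))) (b (a (a (b (l 78953565335) (l 16695328)) (b (l 16678056) (l 16643728))) (a (b (l 16595656) (l 16666160)) (a (b (l 16652712) (l 16538968)) (b (b (l 16546792) (a (l 16536576) (l 16522688))) (a (l 16583376) (l 16509800)))))) (a (a (l 16797496)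 (l 16583224)) (a (l 16556568) (a (l 16523752) (b (l 16505144) (l 16500144))))))), by decide +kernel⟩

def k3_pm_102_b : ∃ t, chk3 f_pm_102_b t 7 3 1 = true :=
  ⟨(a (a (a (b (b (b (l 3) (a (a (b (l 3) (l 117742190103)) (l 3)) (l 3))) (b (a (b (a (b (l 16607600) (l 16597904)) (l 3)) (c (a (l 16582816) (l 153712465847)) (l 159618063559))) (l 3)) (b (a (b (c (l 16564496) (l 16566184)) (l 16556400)) (b (l 3) (l 270750221911))) (a (c (l 16540320) (l 16543560)) (b (l 127942538359) (l 130089999415)))))) (b (b (b (c (a (l 16521136) (a (l 16515600) (l 183240300151))) (a (l 16525888) (l 16512496))) (a (l 16510648) (l 16500112))) (b (l 16497472) (l 16490656))) (b (l 16483184) (l 16478752)))) (b (l 3) (b (b (a (b (l 3) (l 175723995191)) (l 3)) (b (a (l 169281532519) (l 3)) (l 147806679511))) (b (b (l 142437959111) (l 135458627735)) (b (l 16456856) (l 16456672)))))) (b (l 3) (a (b (l 3) (b (l 3) (b (l 137606044935) (l 135458590743)))) (l 3)))) (l 3)), by decide +kernel⟩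

theorem s4_pm_102_b : ∃ t, chk3 f_pm_102_b t 3 3 1 = true := ex3_a k2_pm_102_b k3_pm_102_b

theorem s5_pm_102_b : ∃ t, chk3 f_pm_102_b t 3 1 1 = true := ex3_b k1_pm_102_b s4_pm_102_b

theorem s6_pm_102_b : ∃ t, chk3 f_pm_102_b t 1 1 1 = true := ex3_a k0_pm_102_b s5_pm_102_b

theorem c_pm_102_b : CertB 536870912 536870912 1239849684 370763052 649613803 48318383 3 eng mog cd1q1 cd3q2b pd0 false true false .npp 1 0 2
    ndB1q1 ndB3q2b pcB0 Cut.none Ext.none :=
  certB1 (fam := false) (s1 := true) (s2 := false) (a := 1) (b := 0) (c := 2) (cn := .npp) (n1 := ndB1q1) (n2 := ndB3q2b) (pc := pcB0) (cut := Cut.none) (xt := Ext.none) (P1 := 536870912) (W1 := 536870912) (P2 := 1239849684) (W2 := 370763052) (P3 := 649613803) (W3 := 48318383) (N0 := 3) (En := eng) (mo := mog) (C1 := cd1q1) (C2 := cd3q2b) (C3 := pd0)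
    rfl (fun _ => rfl) s6_pm_102_b

noncomputable def f_pm_112_a : ℕ → ℕ → ℕ → ℕ → Bool := onCell 536870912 536870912 0 536870912 649613803 48318383
    (rowB 3 eng mog cd1q1 cd3q2a pd1 2 false true false .dn 1 1 2 (qsf 536870912 536870912 0 536870912 1) ndB1q1 ndB3q2a pcB1 Cut.none Ext.none)

def k0_pm_112_a : ∃ t, chk3 f_pm_112_a t 1 1 1 = true :=
  ⟨(a (b (a (a (b (b (l 16625360) (l 16594344)) (l 16532584)) (b (l 16578320) (l 16507656))) (a (b (l 16541848) (l 103649267127)) (l 1))) (a (b (a (b (l 16450344) (l 16429712)) (b (l 16442992) (l 16506040))) (a (b (l 16331408) (b (l 16303352) (l 16292816))) (b (l 154114654631) (l 1)))) (b (l 1) (l 1)))) (l 1)), by decide +kernel⟩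

theorem c_pm_112_a : CertB 536870912 536870912 0 536870912 649613803 48318383 3 eng mog cd1q1 cd3q2a pd1 false true false .dn 1 1 2
    ndB1q1 ndB3q2a pcB1 Cut.none Ext.none :=
  certB2 (fam := false) (s1 := true) (s2 := false) (a := 1) (b := 1) (c := 2) (cn := .dn) (n1 := ndB1q1) (n2 := ndB3q2a) (pc := pcB1) (cut := Cut.none) (xt := Ext.none) (P1 := 536870912) (W1 := 536870912) (P2 := 0) (W2 := 536870912) (P3 := 649613803) (W3 := 48318383) (N0 := 3) (En := eng) (mo := mog) (C1 := cd1q1) (C2 := cd3q2a) (C3 := pd1)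
    rfl (fun _ => rfl) k0_pm_112_a

noncomputable def f_pm_112_b : ℕ → ℕ → ℕ → ℕ → Bool := onCell 536870912 536870912 1239849684 370763052 649613803 48318383
    (rowB 3 eng mog cd1q1 cd3q2b pd1 0 false true false .dn 1 1 2 (qsf 536870912 536870912 1239849684 370763052 1) ndB1q1 ndB3q2b pcB1 Cut.none Ext.none)

def k0_pm_112_b : ∃ t, chk3 f_pm_112_b t 1 1 1 = true :=
  ⟨(a (b (a (b (a (b (l 16586488) (l 16570936)) (b (l 16627448) (l 16620352))) (a (b (l 16548928) (l 16514344)) (b (l 16606360) (l 16586192)))) (a (b (b (l 16657672) (l 16653752)) (l 16678752)) (b (b (l 315713596343) (l 16663192)) (b (l 16648384) (l 16645144))))) (a (a (b (b (l 16474800) (l 16435400)) (l 16375344)) (b (b (l 16564376) (l 16541784)) (b (l 16582816) (l 16499408)))) (a (b (l 16665168) (b (l 16621608) (a (l 16597072) (l 16651640)))) (b (l 16656664) (l 16698976))))) (b (b (l 1) (a (a (b (a (l 16632288) (l 16614528)) (a (l 16627896) (l 16606040))) (a (b (l 1) (l 16572840)) (l 1)))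 (l 1))) (a (b (a (a (l 16646688) (l 16622240)) (a (l 16581344) (a (l 16544944) (b (l 385506628247) (l 16524720))))) (a (a (l 16714440) (l 16697040)) (a (l 16654024) (b (l 16567392) (l 16619440))))) (a (b (b (l 1) (a (a (a (l 16503240) (l 16488256)) (b (l 237329954471) (a (l 16474968) (l 16458064)))) (a (a (b (l 1) (c (l 98951405831) (l 16435896))) (l 1)) (l 1)))) (a (b (a (a (l 16524800) (l 16528880)) (b (c (l 16484488) (l 16465192)) (l 16488592))) (a (l 16560472) (a (c (l 16547104) (l 16513712)) (c (l 16524944) (l 16493776))))) (b (a (b (c (a (l 16455952) (l 127942407735)) (l 107004477975)) (a (l 16460096) (a (l 16445720) (l 126868674983)))) (l 3)) (a (b (a (l 16477512) (a (l 16462064) (l 75329090935))) (a (l 16501104) (l 16478920))) (a (c (b (l 132774236087) (a (l 66202300615) (l 130089911911))) (l 123110602103)) (l 3)))))) (l 3))))), by decide +kernel⟩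

theorem c_pm_112_b : CertB 536870912 536870912 1239849684 370763052 649613803 48318383 3 eng mog cd1q1 cd3q2b pd1 false true false .dn 1 1 2
    ndB1q1 ndB3q2b pcB1 Cut.none Ext.none :=
  certB0 (fam := false) (s1 := true) (s2 := false) (a := 1) (b := 1) (c := 2) (cn := .dn) (n1 := ndB1q1) (n2 := ndB3q2b) (pc := pcB1) (cut := Cut.none) (xt := Ext.none) (P1 := 536870912) (W1 := 536870912) (P2 := 1239849684) (W2 := 370763052) (P3 := 649613803) (W3 := 48318383) (N0 := 3) (En := eng) (mo := mog) (C1 := cd1q1) (C2 := cd3q2b) (C3 := pd1)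
    rfl k0_pm_112_b

noncomputable def f_pm_113 : ℕ → ℕ → ℕ → ℕ → Bool := onCell 536870912 536870912 536870912 536870912 649613803 48318383
    (rowB 3 eng mog cd1q1 cd3q3 pd1 1 false true false .nn 1 1 3 (qsf 536870912 536870912 1610612736 536870912 1) ndB1q1 ndB3q3 pcB1 Cut.none Ext.none)

def k0_pm_113 : ∃ t, chk3 f_pm_113 t 1 2 1 = true :=
  ⟨(a (b (l 1) (a (l 1) (b (l 1) (l 98281015975)))) (b (a (b (l 1) (a (l 1) (l 124587417399))) (b (a (a (l 1) (a (l 1) (a (l 1) (l 3)))) (l 3)) (a (a (a (l 127271711879) (b (l 16543144) (l 16589960))) (b (a (l 16520880) (l 89824754551)) (a (l 16572128) (l 16552592)))) (a (a (b (l 3) (l 289540800471)) (l 3)) (l 3))))) (a (a (b (l 16693784) (l 16771400)) (b (a (l 16710336) (l 16709512)) (l 16867680))) (b (a (b (a (l 16658712) (a (l 16641160) (l 16625488))) (a (l 16743344) (b (l 16703176) (l 16746624)))) (a (a (b (l 16612200) (l 16685672)) (b (l 3) (l 250349253175))) (l 3))) (a (a (l 16889272) (b (a (l 16804128) (l 16771736))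 (l 16838432))) (a (b (a (l 16736928) (l 258402379591)) (b (l 16753888) (l 16775352))) (b (l 3) (a (l 295446788519) (l 3))))))))), by decide +kernel⟩

def k1_pm_113 : ∃ t, chk3 f_pm_113 t 1 3 1 = true :=
  ⟨(b (a (a (b (l 1) (a (l 1) (l 137472286359))) (b (a (l 16609176) (l 16720304)) (a (l 95596365015) (l 16772744)))) (a (b (a (l 16883376) (l 17080768)) (a (l 16864608) (l 16950488))) (b (a (a (l 16988856) (b (l 16883136) (l 16923216))) (a (a (b (l 16829184) (l 16866824)) (b (l 16789952) (l 16831816))) (b (a (l 287393904519) (l 3)) (a (l 162839413031) (l 292225774951))))) (a (l 16855480) (a (b (a (l 16905624) (l 16872384)) (l 16917496)) (b (a (l 16840704) (l 238001531239)) (a (l 16870144) (l 238538634295)))))))) (a (a (a (b (l 16377152) (l 16309216)) (b (l 16465088) (l 16424072))) (b (a (l 16611016) (l 16730240)) (a (l 16588168) (l 16667992)))) (a (b (a (l 16785832) (l 16851584)) (a (l 16720432) (l 16776472))) (b (a (l 16905488) (a (b (l 16935320) (l 16897472))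 (b (a (l 16881936) (l 16854640)) (a (l 16879952) (l 16849624))))) (a (l 16815520) (a (l 16824304) (b (l 16948808) (l 16860208)))))))), by decide +kernel⟩

theorem s2_pm_113 : ∃ t, chk3 f_pm_113 t 1 1 1 = true := ex3_b k0_pm_113 k1_pm_113

theorem c_pm_113 : CertB 536870912 536870912 1610612736 536870912 649613803 48318383 3 eng mog cd1q1 cd3q3 pd1 false true false .nn 1 1 3
    ndB1q1 ndB3q3 pcB1 Cut.none Ext.none :=
  certB1 (fam := false) (s1 := true) (s2 := false) (a := 1) (b := 1) (c := 3) (cn := .nn) (n1 := ndB1q1) (n2 := ndB3q3) (pc := pcB1) (cut := Cut.none) (xt := Ext.none) (P1 := 536870912) (W1 := 536870912) (P2 := 1610612736) (W2 := 536870912) (P3 := 649613803) (W3 := 48318383) (N0 := 3) (En := eng) (mo := mog) (C1 := cd1q1) (C2 := cd3q3) (C3 := pd1)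
    rfl (fun _ => rfl) s2_pm_113

noncomputable def f_pm_123 : ℕ → ℕ → ℕ → ℕ → Bool := onCell 1073741824 536870912 1610612736 536870912 649613803 48318383
    (rowB 3 eng mog cd1q1 cd3q3 pd2 2 false true false .npn 1 2 3 (qsf 536870912 536870912 1610612736 536870912 2) ndB1q1 ndB3q3 pcB2 Cut.none Ext.none)

def k0_pm_123 : ∃ t, chk3 f_pm_123 t 1 1 1 = true :=
  ⟨(a (b (a (b (a (b (l 16229064) (l 16325136)) (b (l 16174640) (l 16215960))) (a (b (l 16472752) (l 16567232)) (b (l 16306856) (l 16409120)))) (a (b (b (l 1) (l 16177800)) (a (l 16271264) (l 16233040))) (b (l 1) (l 126734534151)))) (a (b (a (b (c (l 16646008) (l 16566208)) (a (l 16702072) (l 16633472))) (b (l 16484024) (l 16646072))) (a (b (a (l 16731192) (l 16674112)) (a (l 16752752) (l 16710976))) (b (a (l 16616904) (l 16562632)) (a (l 16667144) (l 16623176))))) (a (a (b (b (l 16394136) (l 16455200)) (a (l 16727160) (l 16578240))) (b (b (l 16356696) (l 16415168)) (b (l 16476072) (l 16546328)))) (b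 (b (l 16368472) (l 16434880)) (b (l 16494048) (l 16561000)))))) (a (b (a (b (l 1) (l 16287888)) (l 1)) (b (a (l 16424744) (l 131029640551)) (a (b (l 16524504) (l 16586832)) (b (l 16547808) (l 16612600))))) (b (l 1) (a (b (l 16489344) (l 16673000)) (b (l 1) (l 16623664)))))), by decide +kernel⟩

theorem c_pm_123 : CertB 536870912 536870912 1610612736 536870912 649613803 48318383 3 eng mog cd1q1 cd3q3 pd2 false true false .npn 1 2 3
    ndB1q1 ndB3q3 pcB2 Cut.none Ext.none :=
  certB2 (fam := false) (s1 := true) (s2 := false) (a := 1) (b := 2) (c := 3) (cn := .npn) (n1 := ndB1q1) (n2 := ndB3q3) (pc := pcB2) (cut := Cut.none) (xt := Ext.none) (P1 := 536870912) (W1 := 536870912) (P2 := 1610612736) (W2 := 536870912) (P3 := 649613803) (W3 := 48318383) (N0 := 3) (En := eng) (mo := mog) (C1 := cd1q1) (C2 := cd3q3) (C3 := pd2)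
    rfl (fun _ => rfl) k0_pm_123

noncomputable def f_pm_133 : ℕ → ℕ → ℕ → ℕ → Bool := onCell 536870912 536870912 1610612736 536870912 649613803 48318383
    (rowB 3 eng mog cd1q1 cd3q3 pd3 0 false true false .dn 1 3 3 (qsf 536870912 536870912 1610612736 536870912 3) ndB1q1 ndB3q3 pcB3 Cut.none Ext.none)

def k0_pm_133 : ∃ t, chk3 f_pm_133 t 1 1 1 = true :=
  ⟨(a (b (l 1) (a (b (l 1) (l 16806512)) (l 1))) (l 1)), by decide +kernel⟩

theorem c_pm_133 : CertB 536870912 536870912 1610612736 536870912 649613803 48318383 3 eng mog cd1q1 cd3q3 pd3 false true false .dn 1 3 3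
    ndB1q1 ndB3q3 pcB3 Cut.none Ext.none :=
  certB0 (fam := false) (s1 := true) (s2 := false) (a := 1) (b := 3) (c := 3) (cn := .dn) (n1 := ndB1q1) (n2 := ndB3q3) (pc := pcB3) (cut := Cut.none) (xt := Ext.none) (P1 := 536870912) (W1 := 536870912) (P2 := 1610612736) (W2 := 536870912) (P3 := 649613803) (W3 := 48318383) (N0 := 3) (En := eng) (mo := mog) (C1 := cd1q1) (C2 := cd3q3) (C3 := pd3)
    rfl k0_pm_133

noncomputable def cut_pm_202_aa : Cut := Cut.of [[⟨0, 1, 0, 67108864⟩, ⟨1, 0, 0, 67108864⟩, ⟨2, 1, 0, 67108864⟩]]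

noncomputable def f_pm_202_aa : ℕ → ℕ → ℕ → ℕ → Bool := onCell 0 536870912 0 536870912 649613803 48318383
    (rowB 3 eng mog cd1q2a cd3q2a pd0 0 false true false .pp 2 0 2 (qsf 0 536870912 0 536870912 0) ndB1q2a ndB3q2a pcB0 cut_pm_202_aa Ext.none)

def k0_pm_202_aa : ∃ t, chk3 f_pm_202_aa t 1 1 1 = true :=
  ⟨(a (l 3) (b (l 3) (a (l 3) (b (l 3) (b (l 3) (a (l 3) (l 6))))))), by decide +kernel⟩

theorem c_pm_202_aa : CertB 0 536870912 0 536870912 649613803 48318383 3 eng mog cd1q2a cd3q2a pd0 false true false .pp 2 0 2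
    ndB1q2a ndB3q2a pcB0 cut_pm_202_aa Ext.none :=
  certB0 (fam := false) (s1 := true) (s2 := false) (a := 2) (b := 0) (c := 2) (cn := .pp) (n1 := ndB1q2a) (n2 := ndB3q2a) (pc := pcB0) (cut := cut_pm_202_aa) (xt := Ext.none) (P1 := 0) (W1 := 536870912) (P2 := 0) (W2 := 536870912) (P3 := 649613803) (W3 := 48318383) (N0 := 3) (En := eng) (mo := mog) (C1 := cd1q2a) (C2 := cd3q2a) (C3 := pd0)
    rfl k0_pm_202_aa

noncomputable def cut_pm_202_ab : Cut := Cut.of [[⟨0, 1, 0, 67108864⟩, ⟨1, 0, 0, 67108864⟩, ⟨2, 1, 0, 67108864⟩]]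

noncomputable def f_pm_202_ab : ℕ → ℕ → ℕ → ℕ → Bool := onCell 0 536870912 1239849684 370763052 649613803 48318383
    (rowB 3 eng mog cd1q2a cd3q2b pd0 0 false true false .pp 2 0 2 (qsf 0 536870912 1239849684 370763052 0) ndB1q2a ndB3q2b pcB0 cut_pm_202_ab Ext.none)

def k0_pm_202_ab : ∃ t, chk3 f_pm_202_ab t 1 1 1 = true :=
  ⟨(l 3), by decide +kernel⟩

theorem c_pm_202_ab : CertB 0 536870912 1239849684 370763052 649613803 48318383 3 eng mog cd1q2a cd3q2b pd0 false true false .pp 2 0 2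
    ndB1q2a ndB3q2b pcB0 cut_pm_202_ab Ext.none :=
  certB0 (fam := false) (s1 := true) (s2 := false) (a := 2) (b := 0) (c := 2) (cn := .pp) (n1 := ndB1q2a) (n2 := ndB3q2b) (pc := pcB0) (cut := cut_pm_202_ab) (xt := Ext.none) (P1 := 0) (W1 := 536870912) (P2 := 1239849684) (W2 := 370763052) (P3 := 649613803) (W3 := 48318383) (N0 := 3) (En := eng) (mo := mog) (C1 := cd1q2a) (C2 := cd3q2b) (C3 := pd0)
    rfl k0_pm_202_ab

noncomputable def cut_pm_202_ba : Cut := Cut.of [[⟨0, 1, 0, 67108864⟩, ⟨1, 0, 0, 67108864⟩, ⟨2, 1, 0, 67108864⟩]]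

noncomputable def f_pm_202_ba : ℕ → ℕ → ℕ → ℕ → Bool := onCell 1239849684 370763052 0 536870912 649613803 48318383
    (rowB 3 eng mog cd1q2b cd3q2a pd0 0 false true false .pp 2 0 2 (qsf 1239849684 370763052 0 536870912 0) ndB1q2b ndB3q2a pcB0 cut_pm_202_ba Ext.none)

def k0_pm_202_ba : ∃ t, chk3 f_pm_202_ba t 1 1 1 = true :=
  ⟨(l 3), by decide +kernel⟩

theorem c_pm_202_ba : CertB 1239849684 370763052 0 536870912 649613803 48318383 3 eng mog cd1q2b cd3q2a pd0 false true false .pp 2 0 2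
    ndB1q2b ndB3q2a pcB0 cut_pm_202_ba Ext.none :=
  certB0 (fam := false) (s1 := true) (s2 := false) (a := 2) (b := 0) (c := 2) (cn := .pp) (n1 := ndB1q2b) (n2 := ndB3q2a) (pc := pcB0) (cut := cut_pm_202_ba) (xt := Ext.none) (P1 := 1239849684) (W1 := 370763052) (P2 := 0) (W2 := 536870912) (P3 := 649613803) (W3 := 48318383) (N0 := 3) (En := eng) (mo := mog) (C1 := cd1q2b) (C2 := cd3q2a) (C3 := pd0)
    rfl k0_pm_202_ba

noncomputable def cut_pm_202_bb : Cut := Cut.of [[⟨0, 1, 0, 67108864⟩, ⟨1, 0, 0, 67108864⟩, ⟨2, 1, 0, 67108864⟩]]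

noncomputable def f_pm_202_bb : ℕ → ℕ → ℕ → ℕ → Bool := onCell 1239849684 370763052 1239849684 370763052 649613803 48318383
    (rowB 3 eng mog cd1q2b cd3q2b pd0 0 false true false .pp 2 0 2 (qsf 1239849684 370763052 1239849684 370763052 0) ndB1q2b ndB3q2b pcB0 cut_pm_202_bb Ext.none)

def k0_pm_202_bb : ∃ t, chk3 f_pm_202_bb t 1 1 1 = true :=
  ⟨(l 3), by decide +kernel⟩

theorem c_pm_202_bb : CertB 1239849684 370763052 1239849684 370763052 649613803 48318383 3 eng mog cd1q2b cd3q2b pd0 false true false .pp 2 0 2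
    ndB1q2b ndB3q2b pcB0 cut_pm_202_bb Ext.none :=
  certB0 (fam := false) (s1 := true) (s2 := false) (a := 2) (b := 0) (c := 2) (cn := .pp) (n1 := ndB1q2b) (n2 := ndB3q2b) (pc := pcB0) (cut := cut_pm_202_bb) (xt := Ext.none) (P1 := 1239849684) (W1 := 370763052) (P2 := 1239849684) (W2 := 370763052) (P3 := 649613803) (W3 := 48318383) (N0 := 3) (En := eng) (mo := mog) (C1 := cd1q2b) (C2 := cd3q2b) (C3 := pd0)
    rfl k0_pm_202_bb

noncomputable def f_pm_203_a : ℕ → ℕ → ℕ → ℕ → Bool := onCell 0 536870912 0 536870912 649613803 48318383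
    (rowB 3 eng mog cd1q2a cd3q3 pd0 1 false true false .up 2 0 3 (qsf 0 536870912 1610612736 536870912 0) ndB1q2a ndB3q3 pcB0 Cut.none Ext.none)

def k0_pm_203_a : ∃ t, chk3 f_pm_203_a t 1 1 1 = true :=
  ⟨(l 3), by decide +kernel⟩

theorem c_pm_203_a : CertB 0 536870912 1610612736 536870912 649613803 48318383 3 eng mog cd1q2a cd3q3 pd0 false true false .up 2 0 3
    ndB1q2a ndB3q3 pcB0 Cut.none Ext.none :=
  certB1 (fam := false) (s1 := true) (s2 := false) (a := 2) (b := 0) (c := 3) (cn := .up) (n1 := ndB1q2a) (n2 := ndB3q3) (pc := pcB0) (cut := Cut.none) (xt := Ext.none) (P1 := 0) (W1 := 536870912) (P2 := 1610612736) (W2 := 536870912) (P3 := 649613803) (W3 := 48318383) (N0 := 3) (En := eng) (mo := mog) (C1 := cd1q2a) (C2 := cd3q3) (C3 := pd0)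
    rfl (fun _ => rfl) k0_pm_203_a

noncomputable def f_pm_203_b : ℕ → ℕ → ℕ → ℕ → Bool := onCell 1239849684 370763052 1610612736 536870912 649613803 48318383
    (rowB 3 eng mog cd1q2b cd3q3 pd0 0 false true false .up 2 0 3 (qsf 1239849684 370763052 1610612736 536870912 0) ndB1q2b ndB3q3 pcB0 Cut.none Ext.none)

def k0_pm_203_b : ∃ t, chk3 f_pm_203_b t 1 1 1 = true :=
  ⟨(l 3), by decide +kernel⟩

theorem c_pm_203_b : CertB 1239849684 370763052 1610612736 536870912 649613803 48318383 3 eng mog cd1q2b cd3q3 pd0 false true false .up 2 0 3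
    ndB1q2b ndB3q3 pcB0 Cut.none Ext.none :=
  certB0 (fam := false) (s1 := true) (s2 := false) (a := 2) (b := 0) (c := 3) (cn := .up) (n1 := ndB1q2b) (n2 := ndB3q3) (pc := pcB0) (cut := Cut.none) (xt := Ext.none) (P1 := 1239849684) (W1 := 370763052) (P2 := 1610612736) (W2 := 536870912) (P3 := 649613803) (W3 := 48318383) (N0 := 3) (En := eng) (mo := mog) (C1 := cd1q2b) (C2 := cd3q3) (C3 := pd0)
    rfl k0_pm_203_b

noncomputable def cut_pm_213_a : Cut := Cut.of [[⟨0, 1, 0, 67108864⟩, ⟨1, 1, 0, 67108864⟩, ⟨2, 2, 0, 16777216⟩]]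

noncomputable def f_pm_213_a : ℕ → ℕ → ℕ → ℕ → Bool := onCell 0 536870912 1610612736 536870912 649613803 48318383
    (rowB 3 eng mog cd1q2a cd3q3 pd1 0 false true false .pnn 2 1 3 (qsf 0 536870912 1610612736 536870912 1) ndB1q2a ndB3q3 pcB1 cut_pm_213_a Ext.none)

def k0_pm_213_a : ∃ t, chk3 f_pm_213_a t 1 1 1 = true :=
  ⟨(b (l 3) (a (l 3) (b (l 3) (a (l 3) (b (l 3) (b (l 3) (b (l 3) (b (l 3) (a (l 3) (l 6)))))))))), by decide +kernel⟩

theorem c_pm_213_a : CertB 0 536870912 1610612736 536870912 649613803 48318383 3 eng mog cd1q2a cd3q3 pd1 false true false .pnn 2 1 3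
    ndB1q2a ndB3q3 pcB1 cut_pm_213_a Ext.none :=
  certB0 (fam := false) (s1 := true) (s2 := false) (a := 2) (b := 1) (c := 3) (cn := .pnn) (n1 := ndB1q2a) (n2 := ndB3q3) (pc := pcB1) (cut := cut_pm_213_a) (xt := Ext.none) (P1 := 0) (W1 := 536870912) (P2 := 1610612736) (W2 := 536870912) (P3 := 649613803) (W3 := 48318383) (N0 := 3) (En := eng) (mo := mog) (C1 := cd1q2a) (C2 := cd3q3) (C3 := pd1)
    rfl k0_pm_213_a

noncomputable def cut_pm_213_b : Cut := Cut.of [[⟨0, 1, 0, 67108864⟩, ⟨1, 1, 0, 67108864⟩, ⟨2, 2, 0, 16777216⟩]]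

noncomputable def f_pm_213_b : ℕ → ℕ → ℕ → ℕ → Bool := onCell 1239849684 370763052 1610612736 536870912 649613803 48318383
    (rowB 3 eng mog cd1q2b cd3q3 pd1 0 false true false .pnn 2 1 3 (qsf 1239849684 370763052 1610612736 536870912 1) ndB1q2b ndB3q3 pcB1 cut_pm_213_b Ext.none)

def k0_pm_213_b : ∃ t, chk3 f_pm_213_b t 1 1 1 = true :=
  ⟨(l 3), by decide +kernel⟩

theorem c_pm_213_b : CertB 1239849684 370763052 1610612736 536870912 649613803 48318383 3 eng mog cd1q2b cd3q3 pd1 false true false .pnn 2 1 3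
    ndB1q2b ndB3q3 pcB1 cut_pm_213_b Ext.none :=
  certB0 (fam := false) (s1 := true) (s2 := false) (a := 2) (b := 1) (c := 3) (cn := .pnn) (n1 := ndB1q2b) (n2 := ndB3q3) (pc := pcB1) (cut := cut_pm_213_b) (xt := Ext.none) (P1 := 1239849684) (W1 := 370763052) (P2 := 1610612736) (W2 := 536870912) (P3 := 649613803) (W3 := 48318383) (N0 := 3) (En := eng) (mo := mog) (C1 := cd1q2b) (C2 := cd3q3) (C3 := pd1)
    rfl k0_pm_213_b

noncomputable def f_pm_303 : ℕ → ℕ → ℕ → ℕ → Bool := onCell 1610612736 536870912 1610612736 536870912 649613803 48318383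
    (rowB 3 eng mog cd1q3 cd3q3 pd0 0 false true false .npn 3 0 3 (qsf 1610612736 536870912 1610612736 536870912 0) ndB1q3 ndB3q3 pcB0 Cut.none Ext.none)

def k0_pm_303 : ∃ t, chk3 f_pm_303 t 1 1 1 = true :=
  ⟨(l 3), by decide +kernel⟩

theorem c_pm_303 : CertB 1610612736 536870912 1610612736 536870912 649613803 48318383 3 eng mog cd1q3 cd3q3 pd0 false true false .npn 3 0 3
    ndB1q3 ndB3q3 pcB0 Cut.none Ext.none :=
  certB0 (fam := false) (s1 := true) (s2 := false) (a := 3) (b := 0) (c := 3) (cn := .npn) (n1 := ndB1q3) (n2 := ndB3q3) (pc := pcB0) (cut := Cut.none) (xt := Ext.none) (P1 := 1610612736) (W1 := 536870912) (P2 := 1610612736) (W2 := 536870912) (P3 := 649613803) (W3 := 48318383) (N0 := 3) (En := eng) (mo := mog) (C1 := cd1q3) (C2 := cd3q3) (C3 := pd0)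
    rfl k0_pm_303

noncomputable def f_pm_313 : ℕ → ℕ → ℕ → ℕ → Bool := onCell 1610612736 536870912 1610612736 536870912 649613803 48318383
    (rowB 3 eng mog cd1q3 cd3q3 pd1 0 false true false .dn 3 1 3 (qsf 1610612736 536870912 1610612736 536870912 1) ndB1q3 ndB3q3 pcB1 Cut.none Ext.none)

def k0_pm_313 : ∃ t, chk3 f_pm_313 t 1 1 1 = true :=
  ⟨(l 3), by decide +kernel⟩

theorem c_pm_313 : CertB 1610612736 536870912 1610612736 536870912 649613803 48318383 3 eng mog cd1q3 cd3q3 pd1 false true false .dn 3 1 3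
    ndB1q3 ndB3q3 pcB1 Cut.none Ext.none :=
  certB0 (fam := false) (s1 := true) (s2 := false) (a := 3) (b := 1) (c := 3) (cn := .dn) (n1 := ndB1q3) (n2 := ndB3q3) (pc := pcB1) (cut := Cut.none) (xt := Ext.none) (P1 := 1610612736) (W1 := 536870912) (P2 := 1610612736) (W2 := 536870912) (P3 := 649613803) (W3 := 48318383) (N0 := 3) (En := eng) (mo := mog) (C1 := cd1q3) (C2 := cd3q3) (C3 := pd1)
    rfl k0_pm_313

noncomputable def f_mm_001 : ℕ → ℕ → ℕ → ℕ → Bool := onCell 0 536870912 536870912 536870912 649613803 48318383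
    (rowB 3 eng mog cd1q0 cd3q1 pd0 0 false false false .up 0 0 1 (qsf 0 536870912 536870912 536870912 0) ndB1q0 ndB3q1 pcB0 Cut.none Ext.none)

def k0_mm_001 : ∃ t, chk3 f_mm_001 t 1 1 1 = true :=
  ⟨(l 3), by decide +kernel⟩

theorem c_mm_001 : CertB 0 536870912 536870912 536870912 649613803 48318383 3 eng mog cd1q0 cd3q1 pd0 false false false .up 0 0 1
    ndB1q0 ndB3q1 pcB0 Cut.none Ext.none :=
  certB0 (fam := false) (s1 := false) (s2 := false) (a := 0) (b := 0) (c := 1) (cn := .up) (n1 := ndB1q0) (n2 := ndB3q1) (pc := pcB0) (cut := Cut.none) (xt := Ext.none) (P1 := 0) (W1 := 536870912) (P2 := 536870912) (W2 := 536870912) (P3 := 649613803) (W3 := 48318383) (N0 := 3) (En := eng) (mo := mog) (C1 := cd1q0) (C2 := cd3q1) (C3 := pd0)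
    rfl k0_mm_001

noncomputable def f_mm_011 : ℕ → ℕ → ℕ → ℕ → Bool := onCell 0 536870912 536870912 536870912 649613803 48318383
    (rowB 3 eng mog cd1q0 cd3q1 pd1 0 false false false .pnn 0 1 1 (qsf 0 536870912 536870912 536870912 1) ndB1q0 ndB3q1 pcB1 Cut.none Ext.none)

def k0_mm_011 : ∃ t, chk3 f_mm_011 t 1 1 1 = true :=
  ⟨(l 3), by decide +kernel⟩

theorem c_mm_011 : CertB 0 536870912 536870912 536870912 649613803 48318383 3 eng mog cd1q0 cd3q1 pd1 false false false .pnn 0 1 1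
    ndB1q0 ndB3q1 pcB1 Cut.none Ext.none :=
  certB0 (fam := false) (s1 := false) (s2 := false) (a := 0) (b := 1) (c := 1) (cn := .pnn) (n1 := ndB1q0) (n2 := ndB3q1) (pc := pcB1) (cut := Cut.none) (xt := Ext.none) (P1 := 0) (W1 := 536870912) (P2 := 536870912) (W2 := 536870912) (P3 := 649613803) (W3 := 48318383) (N0 := 3) (En := eng) (mo := mog) (C1 := cd1q0) (C2 := cd3q1) (C3 := pd1)
    rfl k0_mm_011

noncomputable def f_mm_012_a : ℕ → ℕ → ℕ → ℕ → Bool := onCell 0 536870912 0 536870912 649613803 48318383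
    (rowB 3 eng mog cd1q0 cd3q2a pd1 0 false false false .pnp 0 1 2 (qsf 0 536870912 0 536870912 1) ndB1q0 ndB3q2a pcB1 Cut.none Ext.none)

def k0_mm_012_a : ∃ t, chk3 f_mm_012_a t 1 1 1 = true :=
  ⟨(l 5), by decide +kernel⟩

theorem c_mm_012_a : CertB 0 536870912 0 536870912 649613803 48318383 3 eng mog cd1q0 cd3q2a pd1 false false false .pnp 0 1 2
    ndB1q0 ndB3q2a pcB1 Cut.none Ext.none :=
  certB0 (fam := false) (s1 := false) (s2 := false) (a := 0) (b := 1) (c := 2) (cn := .pnp) (n1 := ndB1q0) (n2 := ndB3q2a) (pc := pcB1) (cut := Cut.none) (xt := Ext.none) (P1 := 0) (W1 := 536870912) (P2 := 0) (W2 := 536870912) (P3 := 649613803) (W3 := 48318383) (N0 := 3) (En := eng) (mo := mog) (C1 := cd1q0) (C2 := cd3q2a) (C3 := pd1)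
    rfl k0_mm_012_a

noncomputable def f_mm_012_b : ℕ → ℕ → ℕ → ℕ → Bool := onCell 0 536870912 1239849684 370763052 649613803 48318383
    (rowB 3 eng mog cd1q0 cd3q2b pd1 0 false false false .pnp 0 1 2 (qsf 0 536870912 1239849684 370763052 1) ndB1q0 ndB3q2b pcB1 Cut.none Ext.none)

def k0_mm_012_b : ∃ t, chk3 f_mm_012_b t 1 1 1 = true :=
  ⟨(l 5), by decide +kernel⟩

theorem c_mm_012_b : CertB 0 536870912 1239849684 370763052 649613803 48318383 3 eng mog cd1q0 cd3q2b pd1 false false false .pnp 0 1 2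
    ndB1q0 ndB3q2b pcB1 Cut.none Ext.none :=
  certB0 (fam := false) (s1 := false) (s2 := false) (a := 0) (b := 1) (c := 2) (cn := .pnp) (n1 := ndB1q0) (n2 := ndB3q2b) (pc := pcB1) (cut := Cut.none) (xt := Ext.none) (P1 := 0) (W1 := 536870912) (P2 := 1239849684) (W2 := 370763052) (P3 := 649613803) (W3 := 48318383) (N0 := 3) (En := eng) (mo := mog) (C1 := cd1q0) (C2 := cd3q2b) (C3 := pd1)
    rfl k0_mm_012_b

noncomputable def f_mm_022_a : ℕ → ℕ → ℕ → ℕ → Bool := onCell 0 536870912 0 536870912 649613803 48318383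
    (rowB 3 eng mog cd1q0 cd3q2a pd2 0 false false false .pp 0 2 2 (qsf 0 536870912 0 536870912 2) ndB1q0 ndB3q2a pcB2 Cut.none Ext.none)

def k0_mm_022_a : ∃ t, chk3 f_mm_022_a t 1 1 1 = true :=
  ⟨(l 5), by decide +kernel⟩

theorem c_mm_022_a : CertB 0 536870912 0 536870912 649613803 48318383 3 eng mog cd1q0 cd3q2a pd2 false false false .pp 0 2 2
    ndB1q0 ndB3q2a pcB2 Cut.none Ext.none :=
  certB0 (fam := false) (s1 := false) (s2 := false) (a := 0) (b := 2) (c := 2) (cn := .pp) (n1 := ndB1q0) (n2 := ndB3q2a) (pc := pcB2) (cut := Cut.none) (xt := Ext.none) (P1 := 0) (W1 := 536870912) (P2 := 0) (W2 := 536870912) (P3 := 649613803) (W3 := 48318383) (N0 := 3) (En := eng) (mo := mog) (C1 := cd1q0) (C2 := cd3q2a) (C3 := pd2)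
    rfl k0_mm_022_a

noncomputable def f_mm_022_b : ℕ → ℕ → ℕ → ℕ → Bool := onCell 0 536870912 1239849684 370763052 649613803 48318383
    (rowB 3 eng mog cd1q0 cd3q2b pd2 0 false false false .pp 0 2 2 (qsf 0 536870912 1239849684 370763052 2) ndB1q0 ndB3q2b pcB2 Cut.none Ext.none)

def k0_mm_022_b : ∃ t, chk3 f_mm_022_b t 1 1 1 = true :=
  ⟨(l 5), by decide +kernel⟩

theorem c_mm_022_b : CertB 0 536870912 1239849684 370763052 649613803 48318383 3 eng mog cd1q0 cd3q2b pd2 false false false .pp 0 2 2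
    ndB1q0 ndB3q2b pcB2 Cut.none Ext.none :=
  certB0 (fam := false) (s1 := false) (s2 := false) (a := 0) (b := 2) (c := 2) (cn := .pp) (n1 := ndB1q0) (n2 := ndB3q2b) (pc := pcB2) (cut := Cut.none) (xt := Ext.none) (P1 := 0) (W1 := 536870912) (P2 := 1239849684) (W2 := 370763052) (P3 := 649613803) (W3 := 48318383) (N0 := 3) (En := eng) (mo := mog) (C1 := cd1q0) (C2 := cd3q2b) (C3 := pd2)
    rfl k0_mm_022_b

noncomputable def f_mm_023 : ℕ → ℕ → ℕ → ℕ → Bool := onCell 0 536870912 1610612736 536870912 649613803 48318383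
    (rowB 3 eng mog cd1q0 cd3q3 pd2 0 false false false .up 0 2 3 (qsf 0 536870912 1610612736 536870912 2) ndB1q0 ndB3q3 pcB2 Cut.none Ext.none)

def k0_mm_023 : ∃ t, chk3 f_mm_023 t 1 1 1 = true :=
  ⟨(l 5), by decide +kernel⟩

theorem c_mm_023 : CertB 0 536870912 1610612736 536870912 649613803 48318383 3 eng mog cd1q0 cd3q3 pd2 false false false .up 0 2 3
    ndB1q0 ndB3q3 pcB2 Cut.none Ext.none :=
  certB0 (fam := false) (s1 := false) (s2 := false) (a := 0) (b := 2) (c := 3) (cn := .up) (n1 := ndB1q0) (n2 := ndB3q3) (pc := pcB2) (cut := Cut.none) (xt := Ext.none) (P1 := 0) (W1 := 536870912) (P2 := 1610612736) (W2 := 536870912) (P3 := 649613803) (W3 := 48318383) (N0 := 3) (En := eng) (mo := mog) (C1 := cd1q0) (C2 := cd3q3) (C3 := pd2)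
    rfl k0_mm_023

noncomputable def f_mm_033 : ℕ → ℕ → ℕ → ℕ → Bool := onCell 0 536870912 1610612736 536870912 649613803 48318383
    (rowB 3 eng mog cd1q0 cd3q3 pd3 0 false false false .pnn 0 3 3 (qsf 0 536870912 1610612736 536870912 3) ndB1q0 ndB3q3 pcB3 Cut.none Ext.none)

def k0_mm_033 : ∃ t, chk3 f_mm_033 t 1 1 1 = true :=
  ⟨(l 5), by decide +kernel⟩

theorem c_mm_033 : CertB 0 536870912 1610612736 536870912 649613803 48318383 3 eng mog cd1q0 cd3q3 pd3 false false false .pnn 0 3 3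
    ndB1q0 ndB3q3 pcB3 Cut.none Ext.none :=
  certB0 (fam := false) (s1 := false) (s2 := false) (a := 0) (b := 3) (c := 3) (cn := .pnn) (n1 := ndB1q0) (n2 := ndB3q3) (pc := pcB3) (cut := Cut.none) (xt := Ext.none) (P1 := 0) (W1 := 536870912) (P2 := 1610612736) (W2 := 536870912) (P3 := 649613803) (W3 := 48318383) (N0 := 3) (En := eng) (mo := mog) (C1 := cd1q0) (C2 := cd3q3) (C3 := pd3)
    rfl k0_mm_033

noncomputable def f_mm_101 : ℕ → ℕ → ℕ → ℕ → Bool := onCell 536870912 536870912 536870912 536870912 649613803 48318383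
    (rowB 3 eng mog cd1q1 cd3q1 pd0 0 false false false .npn 1 0 1 (qsf 536870912 536870912 536870912 536870912 0) ndB1q1 ndB3q1 pcB0 Cut.none Ext.none)

def k0_mm_101 : ∃ t, chk3 f_mm_101 t 1 1 1 = true :=
  ⟨(l 3), by decide +kernel⟩

theorem c_mm_101 : CertB 536870912 536870912 536870912 536870912 649613803 48318383 3 eng mog cd1q1 cd3q1 pd0 false false false .npn 1 0 1
    ndB1q1 ndB3q1 pcB0 Cut.none Ext.none :=
  certB0 (fam := false) (s1 := false) (s2 := false) (a := 1) (b := 0) (c := 1) (cn := .npn) (n1 := ndB1q1) (n2 := ndB3q1) (pc := pcB0) (cut := Cut.none) (xt := Ext.none) (P1 := 536870912) (W1 := 536870912) (P2 := 536870912) (W2 := 536870912) (P3 := 649613803) (W3 := 48318383) (N0 := 3) (En := eng) (mo := mog) (C1 := cd1q1) (C2 := cd3q1) (C3 := pd0)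
    rfl k0_mm_101

noncomputable def f_mm_102_a : ℕ → ℕ → ℕ → ℕ → Bool := onCell 536870912 536870912 0 536870912 649613803 48318383
    (rowB 3 eng mog cd1q1 cd3q2a pd0 0 false false false .npp 1 0 2 (qsf 536870912 536870912 0 536870912 0) ndB1q1 ndB3q2a pcB0 Cut.none Ext.none)

def k0_mm_102_a : ∃ t, chk3 f_mm_102_a t 1 1 1 = true :=
  ⟨(l 5), by decide +kernel⟩

theorem c_mm_102_a : CertB 536870912 536870912 0 536870912 649613803 48318383 3 eng mog cd1q1 cd3q2a pd0 false false false .npp 1 0 2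
    ndB1q1 ndB3q2a pcB0 Cut.none Ext.none :=
  certB0 (fam := false) (s1 := false) (s2 := false) (a := 1) (b := 0) (c := 2) (cn := .npp) (n1 := ndB1q1) (n2 := ndB3q2a) (pc := pcB0) (cut := Cut.none) (xt := Ext.none) (P1 := 536870912) (W1 := 536870912) (P2 := 0) (W2 := 536870912) (P3 := 649613803) (W3 := 48318383) (N0 := 3) (En := eng) (mo := mog) (C1 := cd1q1) (C2 := cd3q2a) (C3 := pd0)
    rfl k0_mm_102_a

noncomputable def f_mm_102_b : ℕ → ℕ → ℕ → ℕ → Bool := onCell 536870912 536870912 1239849684 370763052 649613803 48318383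
    (rowB 3 eng mog cd1q1 cd3q2b pd0 0 false false false .npp 1 0 2 (qsf 536870912 536870912 1239849684 370763052 0) ndB1q1 ndB3q2b pcB0 Cut.none Ext.none)

def k0_mm_102_b : ∃ t, chk3 f_mm_102_b t 1 1 1 = true :=
  ⟨(l 5), by decide +kernel⟩

theorem c_mm_102_b : CertB 536870912 536870912 1239849684 370763052 649613803 48318383 3 eng mog cd1q1 cd3q2b pd0 false false false .npp 1 0 2
    ndB1q1 ndB3q2b pcB0 Cut.none Ext.none :=
  certB0 (fam := false) (s1 := false) (s2 := false) (a := 1) (b := 0) (c := 2) (cn := .npp) (n1 := ndB1q1) (n2 := ndB3q2b) (pc := pcB0) (cut := Cut.none) (xt := Ext.none) (P1 := 536870912) (W1 := 536870912) (P2 := 1239849684) (W2 := 370763052) (P3 := 649613803) (W3 := 48318383) (N0 := 3) (En := eng) (mo := mog) (C1 := cd1q1) (C2 := cd3q2b) (C3 := pd0)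
    rfl k0_mm_102_b

noncomputable def f_mm_112_a : ℕ → ℕ → ℕ → ℕ → Bool := onCell 536870912 536870912 0 536870912 649613803 48318383
    (rowB 3 eng mog cd1q1 cd3q2a pd1 0 false false false .dn 1 1 2 (qsf 536870912 536870912 0 536870912 1) ndB1q1 ndB3q2a pcB1 Cut.none Ext.none)

def k0_mm_112_a : ∃ t, chk3 f_mm_112_a t 1 1 1 = true :=
  ⟨(l 5), by decide +kernel⟩

theorem c_mm_112_a : CertB 536870912 536870912 0 536870912 649613803 48318383 3 eng mog cd1q1 cd3q2a pd1 false false false .dn 1 1 2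
    ndB1q1 ndB3q2a pcB1 Cut.none Ext.none :=
  certB0 (fam := false) (s1 := false) (s2 := false) (a := 1) (b := 1) (c := 2) (cn := .dn) (n1 := ndB1q1) (n2 := ndB3q2a) (pc := pcB1) (cut := Cut.none) (xt := Ext.none) (P1 := 536870912) (W1 := 536870912) (P2 := 0) (W2 := 536870912) (P3 := 649613803) (W3 := 48318383) (N0 := 3) (En := eng) (mo := mog) (C1 := cd1q1) (C2 := cd3q2a) (C3 := pd1)
    rfl k0_mm_112_a

noncomputable def f_mm_112_b : ℕ → ℕ → ℕ → ℕ → Bool := onCell 536870912 536870912 1239849684 370763052 649613803 48318383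
    (rowB 3 eng mog cd1q1 cd3q2b pd1 0 false false false .dn 1 1 2 (qsf 536870912 536870912 1239849684 370763052 1) ndB1q1 ndB3q2b pcB1 Cut.none Ext.none)

def k0_mm_112_b : ∃ t, chk3 f_mm_112_b t 1 1 1 = true :=
  ⟨(l 5), by decide +kernel⟩

theorem c_mm_112_b : CertB 536870912 536870912 1239849684 370763052 649613803 48318383 3 eng mog cd1q1 cd3q2b pd1 false false false .dn 1 1 2
    ndB1q1 ndB3q2b pcB1 Cut.none Ext.none :=
  certB0 (fam := false) (s1 := false) (s2 := false) (a := 1) (b := 1) (c := 2) (cn := .dn) (n1 := ndB1q1) (n2 := ndB3q2b) (pc := pcB1) (cut := Cut.none) (xt := Ext.none) (P1 := 536870912) (W1 := 536870912) (P2 := 1239849684) (W2 := 370763052) (P3 := 649613803) (W3 := 48318383) (N0 := 3) (En := eng) (mo := mog) (C1 := cd1q1) (C2 := cd3q2b) (C3 := pd1)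
    rfl k0_mm_112_b

noncomputable def f_mm_113 : ℕ → ℕ → ℕ → ℕ → Bool := onCell 536870912 536870912 1610612736 536870912 649613803 48318383
    (rowB 3 eng mog cd1q1 cd3q3 pd1 0 false false false .nn 1 1 3 (qsf 536870912 536870912 1610612736 536870912 1) ndB1q1 ndB3q3 pcB1 Cut.none Ext.none)

def k0_mm_113 : ∃ t, chk3 f_mm_113 t 1 1 1 = true :=
  ⟨(l 5), by decide +kernel⟩

theorem c_mm_113 : CertB 536870912 536870912 1610612736 536870912 649613803 48318383 3 eng mog cd1q1 cd3q3 pd1 false false false .nn 1 1 3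
    ndB1q1 ndB3q3 pcB1 Cut.none Ext.none :=
  certB0 (fam := false) (s1 := false) (s2 := false) (a := 1) (b := 1) (c := 3) (cn := .nn) (n1 := ndB1q1) (n2 := ndB3q3) (pc := pcB1) (cut := Cut.none) (xt := Ext.none) (P1 := 536870912) (W1 := 536870912) (P2 := 1610612736) (W2 := 536870912) (P3 := 649613803) (W3 := 48318383) (N0 := 3) (En := eng) (mo := mog) (C1 := cd1q1) (C2 := cd3q3) (C3 := pd1)
    rfl k0_mm_113

noncomputable def f_mm_123 : ℕ → ℕ → ℕ → ℕ → Bool := onCell 536870912 536870912 1610612736 536870912 649613803 48318383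
    (rowB 3 eng mog cd1q1 cd3q3 pd2 0 false false false .npn 1 2 3 (qsf 536870912 536870912 1610612736 536870912 2) ndB1q1 ndB3q3 pcB2 Cut.none Ext.none)

def k0_mm_123 : ∃ t, chk3 f_mm_123 t 1 1 1 = true :=
  ⟨(l 5), by decide +kernel⟩

theorem c_mm_123 : CertB 536870912 536870912 1610612736 536870912 649613803 48318383 3 eng mog cd1q1 cd3q3 pd2 false false false .npn 1 2 3
    ndB1q1 ndB3q3 pcB2 Cut.none Ext.none :=
  certB0 (fam := false) (s1 := false) (s2 := false) (a := 1) (b := 2) (c := 3) (cn := .npn) (n1 := ndB1q1) (n2 := ndB3q3) (pc := pcB2) (cut := Cut.none) (xt := Ext.none) (P1 := 536870912) (W1 := 536870912) (P2 := 1610612736) (W2 := 536870912) (P3 := 649613803) (W3 := 48318383) (N0 := 3) (En := eng) (mo := mog) (C1 := cd1q1) (C2 := cd3q3) (C3 := pd2)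
    rfl k0_mm_123

noncomputable def f_mm_133 : ℕ → ℕ → ℕ → ℕ → Bool := onCell 536870912 536870912 1610612736 536870912 649613803 48318383
    (rowB 3 eng mog cd1q1 cd3q3 pd3 0 false false false .dn 1 3 3 (qsf 536870912 536870912 1610612736 536870912 3) ndB1q1 ndB3q3 pcB3 Cut.none Ext.none)

def k0_mm_133 : ∃ t, chk3 f_mm_133 t 1 1 1 = true :=
  ⟨(l 5), by decide +kernel⟩

theorem c_mm_133 : CertB 536870912 536870912 1610612736 536870912 649613803 48318383 3 eng mog cd1q1 cd3q3 pd3 false false false .dn 1 3 3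
    ndB1q1 ndB3q3 pcB3 Cut.none Ext.none :=
  certB0 (fam := false) (s1 := false) (s2 := false) (a := 1) (b := 3) (c := 3) (cn := .dn) (n1 := ndB1q1) (n2 := ndB3q3) (pc := pcB3) (cut := Cut.none) (xt := Ext.none) (P1 := 536870912) (W1 := 536870912) (P2 := 1610612736) (W2 := 536870912) (P3 := 649613803) (W3 := 48318383) (N0 := 3) (En := eng) (mo := mog) (C1 := cd1q1) (C2 := cd3q3) (C3 := pd3)
    rfl k0_mm_133

noncomputable def f_mm_202_aa : ℕ → ℕ → ℕ → ℕ → Bool := onCell 0 536870912 0 536870912 649613803 48318383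
    (rowB 3 eng mog cd1q2a cd3q2a pd0 0 false false false .pp 2 0 2 (qsf 0 536870912 0 536870912 0) ndB1q2a ndB3q2a pcB0 Cut.none Ext.none)

def k0_mm_202_aa : ∃ t, chk3 f_mm_202_aa t 1 1 1 = true :=
  ⟨(l 3), by decide +kernel⟩

theorem c_mm_202_aa : CertB 0 536870912 0 536870912 649613803 48318383 3 eng mog cd1q2a cd3q2a pd0 false false false .pp 2 0 2
    ndB1q2a ndB3q2a pcB0 Cut.none Ext.none :=
  certB0 (fam := false) (s1 := false) (s2 := false) (a := 2) (b := 0) (c := 2) (cn := .pp) (n1 := ndB1q2a) (n2 := ndB3q2a) (pc := pcB0) (cut := Cut.none) (xt := Ext.none) (P1 := 0) (W1 := 536870912) (P2 := 0) (W2 := 536870912) (P3 := 649613803) (W3 := 48318383) (N0 := 3) (En := eng) (mo := mog) (C1 := cd1q2a) (C2 := cd3q2a) (C3 := pd0)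
    rfl k0_mm_202_aa

noncomputable def f_mm_202_ab : ℕ → ℕ → ℕ → ℕ → Bool := onCell 0 536870912 1239849684 370763052 649613803 48318383
    (rowB 3 eng mog cd1q2a cd3q2b pd0 0 false false false .pp 2 0 2 (qsf 0 536870912 1239849684 370763052 0) ndB1q2a ndB3q2b pcB0 Cut.none Ext.none)

def k0_mm_202_ab : ∃ t, chk3 f_mm_202_ab t 1 1 1 = true :=
  ⟨(l 3), by decide +kernel⟩

theorem c_mm_202_ab : CertB 0 536870912 1239849684 370763052 649613803 48318383 3 eng mog cd1q2a cd3q2b pd0 false false false .pp 2 0 2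
    ndB1q2a ndB3q2b pcB0 Cut.none Ext.none :=
  certB0 (fam := false) (s1 := false) (s2 := false) (a := 2) (b := 0) (c := 2) (cn := .pp) (n1 := ndB1q2a) (n2 := ndB3q2b) (pc := pcB0) (cut := Cut.none) (xt := Ext.none) (P1 := 0) (W1 := 536870912) (P2 := 1239849684) (W2 := 370763052) (P3 := 649613803) (W3 := 48318383) (N0 := 3) (En := eng) (mo := mog) (C1 := cd1q2a) (C2 := cd3q2b) (C3 := pd0)
    rfl k0_mm_202_ab

noncomputable def f_mm_202_ba : ℕ → ℕ → ℕ → ℕ → Bool := onCell 1239849684 370763052 0 536870912 649613803 48318383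
    (rowB 3 eng mog cd1q2b cd3q2a pd0 0 false false false .pp 2 0 2 (qsf 1239849684 370763052 0 536870912 0) ndB1q2b ndB3q2a pcB0 Cut.none Ext.none)

def k0_mm_202_ba : ∃ t, chk3 f_mm_202_ba t 1 1 1 = true :=
  ⟨(l 3), by decide +kernel⟩

theorem c_mm_202_ba : CertB 1239849684 370763052 0 536870912 649613803 48318383 3 eng mog cd1q2b cd3q2a pd0 false false false .pp 2 0 2
    ndB1q2b ndB3q2a pcB0 Cut.none Ext.none :=
  certB0 (fam := false) (s1 := false) (s2 := false) (a := 2) (b := 0) (c := 2) (cn := .pp) (n1 := ndB1q2b) (n2 := ndB3q2a) (pc := pcB0) (cut := Cut.none) (xt := Ext.none) (P1 := 1239849684) (W1 := 370763052) (P2 := 0) (W2 := 536870912) (P3 := 649613803) (W3 := 48318383) (N0 := 3) (En := eng) (mo := mog) (C1 := cd1q2b) (C2 := cd3q2a) (C3 := pd0)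
    rfl k0_mm_202_ba

noncomputable def f_mm_202_bb : ℕ → ℕ → ℕ → ℕ → Bool := onCell 1239849684 370763052 1239849684 370763052 649613803 48318383
    (rowB 3 eng mog cd1q2b cd3q2b pd0 0 false false false .pp 2 0 2 (qsf 1239849684 370763052 1239849684 370763052 0) ndB1q2b ndB3q2b pcB0 Cut.none Ext.none)

def k0_mm_202_bb : ∃ t, chk3 f_mm_202_bb t 1 1 1 = true :=
  ⟨(l 3), by decide +kernel⟩

theorem c_mm_202_bb : CertB 1239849684 370763052 1239849684 370763052 649613803 48318383 3 eng mog cd1q2b cd3q2b pd0 false false false .pp 2 0 2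
    ndB1q2b ndB3q2b pcB0 Cut.none Ext.none :=
  certB0 (fam := false) (s1 := false) (s2 := false) (a := 2) (b := 0) (c := 2) (cn := .pp) (n1 := ndB1q2b) (n2 := ndB3q2b) (pc := pcB0) (cut := Cut.none) (xt := Ext.none) (P1 := 1239849684) (W1 := 370763052) (P2 := 1239849684) (W2 := 370763052) (P3 := 649613803) (W3 := 48318383) (N0 := 3) (En := eng) (mo := mog) (C1 := cd1q2b) (C2 := cd3q2b) (C3 := pd0)
    rfl k0_mm_202_bb

noncomputable def f_mm_203_a : ℕ → ℕ → ℕ → ℕ → Bool := onCell 0 536870912 0 536870912 649613803 48318383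
    (rowB 3 eng mog cd1q2a cd3q3 pd0 1 false false false .up 2 0 3 (qsf 0 536870912 1610612736 536870912 0) ndB1q2a ndB3q3 pcB0 Cut.none Ext.none)

def k0_mm_203_a : ∃ t, chk3 f_mm_203_a t 1 1 1 = true :=
  ⟨(l 3), by decide +kernel⟩

theorem c_mm_203_a : CertB 0 536870912 1610612736 536870912 649613803 48318383 3 eng mog cd1q2a cd3q3 pd0 false false false .up 2 0 3
    ndB1q2a ndB3q3 pcB0 Cut.none Ext.none :=
  certB1 (fam := false) (s1 := false) (s2 := false) (a := 2) (b := 0) (c := 3) (cn := .up) (n1 := ndB1q2a) (n2 := ndB3q3) (pc := pcB0) (cut := Cut.none) (xt := Ext.none) (P1 := 0) (W1 := 536870912) (P2 := 1610612736) (W2 := 536870912) (P3 := 649613803) (W3 := 48318383) (N0 := 3) (En := eng) (mo := mog) (C1 := cd1q2a) (C2 := cd3q3) (C3 := pd0)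
    rfl (fun _ => rfl) k0_mm_203_a

noncomputable def f_mm_203_b : ℕ → ℕ → ℕ → ℕ → Bool := onCell 1239849684 370763052 1610612736 536870912 649613803 48318383
    (rowB 3 eng mog cd1q2b cd3q3 pd0 0 false false false .up 2 0 3 (qsf 1239849684 370763052 1610612736 536870912 0) ndB1q2b ndB3q3 pcB0 Cut.none Ext.none)

def k0_mm_203_b : ∃ t, chk3 f_mm_203_b t 1 1 1 = true :=
  ⟨(l 3), by decide +kernel⟩

theorem c_mm_203_b : CertB 1239849684 370763052 1610612736 536870912 649613803 48318383 3 eng mog cd1q2b cd3q3 pd0 false false false .up 2 0 3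
    ndB1q2b ndB3q3 pcB0 Cut.none Ext.none :=
  certB0 (fam := false) (s1 := false) (s2 := false) (a := 2) (b := 0) (c := 3) (cn := .up) (n1 := ndB1q2b) (n2 := ndB3q3) (pc := pcB0) (cut := Cut.none) (xt := Ext.none) (P1 := 1239849684) (W1 := 370763052) (P2 := 1610612736) (W2 := 536870912) (P3 := 649613803) (W3 := 48318383) (N0 := 3) (En := eng) (mo := mog) (C1 := cd1q2b) (C2 := cd3q3) (C3 := pd0)
    rfl k0_mm_203_b

noncomputable def f_mm_213_a : ℕ → ℕ → ℕ → ℕ → Bool := onCell 0 536870912 1610612736 536870912 649613803 48318383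
    (rowB 3 eng mog cd1q2a cd3q3 pd1 0 false false false .pnn 2 1 3 (qsf 0 536870912 1610612736 536870912 1) ndB1q2a ndB3q3 pcB1 Cut.none Ext.none)

def k0_mm_213_a : ∃ t, chk3 f_mm_213_a t 1 1 1 = true :=
  ⟨(a (l 3) (l 5)), by decide +kernel⟩

theorem c_mm_213_a : CertB 0 536870912 1610612736 536870912 649613803 48318383 3 eng mog cd1q2a cd3q3 pd1 false false false .pnn 2 1 3
    ndB1q2a ndB3q3 pcB1 Cut.none Ext.none :=
  certB0 (fam := false) (s1 := false) (s2 := false) (a := 2) (b := 1) (c := 3) (cn := .pnn) (n1 := ndB1q2a) (n2 := ndB3q3) (pc := pcB1) (cut := Cut.none) (xt := Ext.none) (P1 := 0) (W1 := 536870912) (P2 := 1610612736) (W2 := 536870912) (P3 := 649613803) (W3 := 48318383) (N0 := 3) (En := eng) (mo := mog) (C1 := cd1q2a) (C2 := cd3q3) (C3 := pd1)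
    rfl k0_mm_213_a

noncomputable def f_mm_213_b : ℕ → ℕ → ℕ → ℕ → Bool := onCell 1239849684 370763052 1610612736 536870912 649613803 48318383
    (rowB 3 eng mog cd1q2b cd3q3 pd1 0 false false false .pnn 2 1 3 (qsf 1239849684 370763052 1610612736 536870912 1) ndB1q2b ndB3q3 pcB1 Cut.none Ext.none)

def k0_mm_213_b : ∃ t, chk3 f_mm_213_b t 1 1 1 = true :=
  ⟨(l 3), by decide +kernel⟩

theorem c_mm_213_b : CertB 1239849684 370763052 1610612736 536870912 649613803 48318383 3 eng mog cd1q2b cd3q3 pd1 false false false .pnn 2 1 3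
    ndB1q2b ndB3q3 pcB1 Cut.none Ext.none :=
  certB0 (fam := false) (s1 := false) (s2 := false) (a := 2) (b := 1) (c := 3) (cn := .pnn) (n1 := ndB1q2b) (n2 := ndB3q3) (pc := pcB1) (cut := Cut.none) (xt := Ext.none) (P1 := 1239849684) (W1 := 370763052) (P2 := 1610612736) (W2 := 536870912) (P3 := 649613803) (W3 := 48318383) (N0 := 3) (En := eng) (mo := mog) (C1 := cd1q2b) (C2 := cd3q3) (C3 := pd1)
    rfl k0_mm_213_b

noncomputable def f_mm_303 : ℕ → ℕ → ℕ → ℕ → Bool := onCell 1610612736 536870912 1610612736 536870912 649613803 48318383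
    (rowB 3 eng mog cd1q3 cd3q3 pd0 0 false false false .npn 3 0 3 (qsf 1610612736 536870912 1610612736 536870912 0) ndB1q3 ndB3q3 pcB0 Cut.none Ext.none)

def k0_mm_303 : ∃ t, chk3 f_mm_303 t 1 1 1 = true :=
  ⟨(l 3), by decide +kernel⟩

theorem c_mm_303 : CertB 1610612736 536870912 1610612736 536870912 649613803 48318383 3 eng mog cd1q3 cd3q3 pd0 false false false .npn 3 0 3
    ndB1q3 ndB3q3 pcB0 Cut.none Ext.none :=
  certB0 (fam := false) (s1 := false) (s2 := false) (a := 3) (b := 0) (c := 3) (cn := .npn) (n1 := ndB1q3) (n2 := ndB3q3) (pc := pcB0) (cut := Cut.none) (xt := Ext.none) (P1 := 1610612736) (W1 := 536870912) (P2 := 1610612736) (W2 := 536870912) (P3 := 649613803) (W3 := 48318383) (N0 := 3) (En := eng) (mo := mog) (C1 := cd1q3) (C2 := cd3q3) (C3 := pd0)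
    rfl k0_mm_303

noncomputable def f_mm_313 : ℕ → ℕ → ℕ → ℕ → Bool := onCell 1610612736 536870912 1610612736 536870912 649613803 48318383
    (rowB 3 eng mog cd1q3 cd3q3 pd1 0 false false false .dn 3 1 3 (qsf 1610612736 536870912 1610612736 536870912 1) ndB1q3 ndB3q3 pcB1 Cut.none Ext.none)

def k0_mm_313 : ∃ t, chk3 f_mm_313 t 1 1 1 = true :=
  ⟨(l 3), by decide +kernel⟩

theorem c_mm_313 : CertB 1610612736 536870912 1610612736 536870912 649613803 48318383 3 eng mog cd1q3 cd3q3 pd1 false false false .dn 3 1 3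
    ndB1q3 ndB3q3 pcB1 Cut.none Ext.none :=
  certB0 (fam := false) (s1 := false) (s2 := false) (a := 3) (b := 1) (c := 3) (cn := .dn) (n1 := ndB1q3) (n2 := ndB3q3) (pc := pcB1) (cut := Cut.none) (xt := Ext.none) (P1 := 1610612736) (W1 := 536870912) (P2 := 1610612736) (W2 := 536870912) (P3 := 649613803) (W3 := 48318383) (N0 := 3) (En := eng) (mo := mog) (C1 := cd1q3) (C2 := cd3q3) (C3 := pd1)
    rfl k0_mm_313

end Pool.Agent.Strip051.G.I6050_6500.Tab.C.BB13

namespace Pool.Agent.Strip051.G.I6050_6500.Tab.C.BB14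

open Pool.Agent.Strip051.PB Pool.Agent.Strip051.PB.T
open Pool.Agent.Strip051.G.I6050_6500.Tab

noncomputable def f_pp_001 : ℕ → ℕ → ℕ → ℕ → Bool := onCell 0 536870912 536870912 536870912 649613803 48318383
    (rowB 3 eng mog cd1q0 cd4q1 pd0 0 false true true .up 0 0 1 (qsf 0 536870912 536870912 536870912 0) ndB1q0 ndB4q1 pcB0 Cut.none Ext.none)

def k0_pp_001 : ∃ t, chk3 f_pp_001 t 1 1 1 = true :=
  ⟨(l 3), by decide +kernel⟩

theorem c_pp_001 : CertB 0 536870912 536870912 536870912 649613803 48318383 3 eng mog cd1q0 cd4q1 pd0 false true true .up 0 0 1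
    ndB1q0 ndB4q1 pcB0 Cut.none Ext.none :=
  certB0 (fam := false) (s1 := true) (s2 := true) (a := 0) (b := 0) (c := 1) (cn := .up) (n1 := ndB1q0) (n2 := ndB4q1) (pc := pcB0) (cut := Cut.none) (xt := Ext.none) (P1 := 0) (W1 := 536870912) (P2 := 536870912) (W2 := 536870912) (P3 := 649613803) (W3 := 48318383) (N0 := 3) (En := eng) (mo := mog) (C1 := cd1q0) (C2 := cd4q1) (C3 := pd0)
    rfl k0_pp_001

noncomputable def f_pp_011 : ℕ → ℕ → ℕ → ℕ → Bool := onCell 0 536870912 536870912 536870912 649613803 48318383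
    (rowB 3 eng mog cd1q0 cd4q1 pd1 0 false true true .pnn 0 1 1 (qsf 0 536870912 536870912 536870912 1) ndB1q0 ndB4q1 pcB1 Cut.none Ext.none)

def k0_pp_011 : ∃ t, chk3 f_pp_011 t 1 1 1 = true :=
  ⟨(l 3), by decide +kernel⟩

theorem c_pp_011 : CertB 0 536870912 536870912 536870912 649613803 48318383 3 eng mog cd1q0 cd4q1 pd1 false true true .pnn 0 1 1
    ndB1q0 ndB4q1 pcB1 Cut.none Ext.none :=
  certB0 (fam := false) (s1 := true) (s2 := true) (a := 0) (b := 1) (c := 1) (cn := .pnn) (n1 := ndB1q0) (n2 := ndB4q1) (pc := pcB1) (cut := Cut.none) (xt := Ext.none) (P1 := 0) (W1 := 536870912) (P2 := 536870912) (W2 := 536870912) (P3 := 649613803) (W3 := 48318383) (N0 := 3) (En := eng) (mo := mog) (C1 := cd1q0) (C2 := cd4q1) (C3 := pd1)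
    rfl k0_pp_011

noncomputable def cut_pp_012_a : Cut := Cut.of [[⟨0, 0, 0, 67108864⟩, ⟨1, 1, 0, 67108864⟩, ⟨2, 1, 0, 67108864⟩]]

noncomputable def f_pp_012_a : ℕ → ℕ → ℕ → ℕ → Bool := onCell 536870912 536870912 0 536870912 649613803 48318383
    (rowB 3 eng mog cd1q0 cd4q2a pd1 2 false true true .pnp 0 1 2 (qsf 0 536870912 0 536870912 1) ndB1q0 ndB4q2a pcB1 cut_pp_012_a Ext.none)

def k0_pp_012_a : ∃ t, chk3 f_pp_012_a t 1 1 1 = true :=
  ⟨(a (l 3) (a (l 3) (b (a (a (l 3) (b (b (a (l 3) (l 16663616)) (l 3)) (l 3))) (a (b (a (b (l 60297050375) (b (l 16651840) (l 16656864))) (b (l 16611560) (l 16638624))) (a (b (l 84456373367) (l 3)) (b (b (l 16646328) (l 16653440)) (b (l 52780965383) (l 52244115815))))) (b (b (a (l 16619120) (l 16607152)) (a (l 16624280) (l 16610976))) (b (a (l 16635136) (b (l 16617800) (l 16624552))) (a (b (l 16646880) (l 16656968)) (b (l 16632960) (l 16643168))))))) (a (l 3) (b (a (b (a (l 3) (b (l 59760315287) (l 3))) (l 3)) (b (a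 (b (l 16668896) (a (l 16686488) (l 16679136))) (b (a (l 16658568) (l 16651072)) (l 16687872))) (a (b (a (l 16723080) (l 16693136)) (a (l 3) (l 16708000))) (b (l 16700904) (a (l 16698976) (l 16690152)))))) (a (l 3) (b (a (b (a (l 3) (b (l 16720400) (l 16729448))) (l 3)) (b (a (b (l 16711064) (l 16719776)) (b (l 16702240) (l 16710944))) (a (b (a (l 16731432) (l 16726808)) (a (l 16741592) (l 6))) (b (l 16741184) (l 6))))) (a (l 3) (l 6))))))))), by decide +kernel⟩

theorem c_pp_012_a : CertB 0 536870912 0 536870912 649613803 48318383 3 eng mog cd1q0 cd4q2a pd1 false true true .pnp 0 1 2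
    ndB1q0 ndB4q2a pcB1 cut_pp_012_a Ext.none :=
  certB2 (fam := false) (s1 := true) (s2 := true) (a := 0) (b := 1) (c := 2) (cn := .pnp) (n1 := ndB1q0) (n2 := ndB4q2a) (pc := pcB1) (cut := cut_pp_012_a) (xt := Ext.none) (P1 := 0) (W1 := 536870912) (P2 := 0) (W2 := 536870912) (P3 := 649613803) (W3 := 48318383) (N0 := 3) (En := eng) (mo := mog) (C1 := cd1q0) (C2 := cd4q2a) (C3 := pd1)
    rfl (fun _ => rfl) k0_pp_012_a

noncomputable def cut_pp_012_b : Cut := Cut.of [[⟨0, 0, 0, 67108864⟩, ⟨1, 1, 0, 67108864⟩, ⟨2, 1, 0, 67108864⟩]]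

noncomputable def f_pp_012_b : ℕ → ℕ → ℕ → ℕ → Bool := onCell 536870912 536870912 1239849684 370763052 649613803 48318383
    (rowB 3 eng mog cd1q0 cd4q2b pd1 2 false true true .pnp 0 1 2 (qsf 0 536870912 1239849684 370763052 1) ndB1q0 ndB4q2b pcB1 cut_pp_012_b Ext.none)

def k0_pp_012_b : ∃ t, chk3 f_pp_012_b t 1 1 1 = true :=
  ⟨(a (l 3) (a (l 3) (a (a (l 3) (a (l 3) (b (b (b (b (l 16668936) (l 16623960)) (l 33453461959)) (b (b (l 16562088) (l 16544928)) (l 16521136))) (b (b (l 16492408) (l 3)) (l 3))))) (b (b (b (a (a (b (a (l 16635816) (l 16628584)) (l 16607376)) (b (l 16618040) (l 16592600))) (a (l 16591648) (l 16579352))) (a (a (b (l 16583984) (l 16562328)) (l 16577640)) (a (l 16541360) (l 16527264)))) (a (b (a (l 16554152) (l 16514792)) (a (l 16499848) (l 16479928))) (b (a (l 16497152) (l 16480592)) (a (l 16460304) (l 16441336))))) (a (b (b (a (l 16470496) (l 16450064)) (l 16458424)) (a (l 16442296) (l 16418168))) (b (b (a (l 16429560) (l 16409240))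 (l 16395352)) (b (l 16384264) (l 16382544)))))))), by decide +kernel⟩

theorem c_pp_012_b : CertB 0 536870912 1239849684 370763052 649613803 48318383 3 eng mog cd1q0 cd4q2b pd1 false true true .pnp 0 1 2
    ndB1q0 ndB4q2b pcB1 cut_pp_012_b Ext.none :=
  certB2 (fam := false) (s1 := true) (s2 := true) (a := 0) (b := 1) (c := 2) (cn := .pnp) (n1 := ndB1q0) (n2 := ndB4q2b) (pc := pcB1) (cut := cut_pp_012_b) (xt := Ext.none) (P1 := 0) (W1 := 536870912) (P2 := 1239849684) (W2 := 370763052) (P3 := 649613803) (W3 := 48318383) (N0 := 3) (En := eng) (mo := mog) (C1 := cd1q0) (C2 := cd4q2b) (C3 := pd1)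
    rfl (fun _ => rfl) k0_pp_012_b

noncomputable def cut_pp_022_a : Cut := Cut.of [[⟨0, 0, 0, 67108864⟩, ⟨1, 1, 0, 67108864⟩, ⟨2, 1, 0, 67108864⟩]]

noncomputable def f_pp_022_a : ℕ → ℕ → ℕ → ℕ → Bool := onCell 1073741824 536870912 0 536870912 649613803 48318383
    (rowB 3 eng mog cd1q0 cd4q2a pd2 2 false true true .pp 0 2 2 (qsf 0 536870912 0 536870912 2) ndB1q0 ndB4q2a pcB2 cut_pp_022_a Ext.none)

def k0_pp_022_a : ∃ t, chk3 f_pp_022_a t 2 2 1 = true :=
  ⟨(a (a (b (a (b (a (l 16590016) (l 16572552)) (l 16654776)) (b (a (l 16554576) (l 16538280)) (l 16598792))) (b (a (a (l 16608272) (l 16596520)) (a (l 16579392) (l 16561752))) (a (b (l 16669864) (a (l 16629776) (l 16620320))) (a (l 16597312) (l 16578352))))) (b (a (b (l 16512408) (l 16521440)) (b (a (l 16484624) (l 16464968)) (a (l 16492456) (l 16513840)))) (a (b (a (l 16543072) (l 16523384)) (a (l 16558272) (b (l 16533376) (l 16540736)))) (b (a (l 16523632) (c (b (l 16484616) (l 16489520)) (l 16474216)))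 (c (a (b (l 16516816) (l 16523376)) (b (a (l 16500464) (l 16489168)) (a (l 16506312) (l 81637392551)))) (a (l 16530048) (b (l 16481728) (l 91301059895)))))))) (a (a (a (c (b (b (l 16451984) (a (l 16462928) (l 16452312))) (b (b (a (l 16468568) (l 16457432)) (a (l 16472888) (l 81100457207))) (b (a (l 87006069639) (l 32245214439)) (a (l 36540213511) (l 1))))) (b (b (l 16436368) (l 16442464)) (b (b (l 16447912) (l 16451912)) (b (l 58551881863) (l 35466441671))))) (a (b (b (b (l 16426824) (l 16428960)) (c (b (l 16439832) (l 16442648)) (l 16424376))) (b (c (b (l 46203826103) (l 70899894871)) (l 83247909015)) (l 1))) (b (a (b (b (l 16418240) (l 16420176)) (c (l 132103161863) (l 16414720))) (b (b (a (c (l 16422976) (l 16404000)) (a (a (a (l 16411624) (a (l 16411184) (b (l 16410352) (l 1)))) (l 16410280)) (l 1))) (a (l 16415376) (l 1))) (a (c (l 98280292199) (l 16409392)) (l 1)))) (l 1)))) (b (b (l 1) (l 1)) (l 1))) (l 1))), by decide +kernel⟩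

def k1_pp_022_a : ∃ t, chk3 f_pp_022_a t 2 3 1 = true :=
  ⟨(a (a (a (b (b (a (b (l 16640248) (l 16651976)) (l 16637952)) (a (a (b (l 16666808) (l 16681912)) (l 16692568)) (a (l 16668352) (l 16679416)))) (b (b (a (a (b (l 16694400) (l 16703376)) (l 16696072)) (a (l 16690144) (a (l 16681424) (l 16685992)))) (l 6)) (l 6))) (b (b (a (l 16639384) (b (l 16592480) (l 16602680))) (a (b (l 16635712) (a (l 16653656) (l 16642040))) (b (l 16613216) (a (l 16630120) (l 16617888))))) (b (b (a (b (a (l 16663176) (l 16651008)) (a (l 16669656) (l 16657080))) (b (a (l 16638520) (l 16625720)) (a (l 16654672) (a (l 16634320) (l 16627616))))) (a (l 6) (a (l 6) (a (l 6) (l 1))))) (a (l 6) (l 1))))) (a (b (b (a (b (l 16571056) (l 16580160)) (b (l 16548464) (a (l 16562512) (l 16550320)))) (b (a (a (l 16595528) (l 16583344)) (a (b (l 16568736) (l 16572928)) (b (l 16556056) (l 16559888)))) (a (a (b (l 16602840) (l 16607688)) (b (l 16590128) (l 56404662487))) (a (b (l 16598080) (l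 1)) (l 1))))) (b (b (a (b (a (l 61236535927) (l 16599048)) (a (l 16617368) (l 1))) (l 1)) (l 1)) (l 1))) (b (b (a (b (a (l 16530744) (c (l 16524376) (l 16512264))) (a (b (l 16536032) (l 16539592)) (b (l 16523344) (l 16526568)))) (b (c (a (l 71436880247) (l 16499960)) (l 66068138519)) (l 1))) (a (b (a (b (l 16543064) (l 1)) (l 1)) (l 1)) (l 1))) (l 1)))) (b (l 1) (l 1))), by decide +kernel⟩

def k2_pp_022_a : ∃ t, chk3 f_pp_022_a t 3 1 1 = true :=
  ⟨(l 1), by decide +kernel⟩

theorem s3_pp_022_a : ∃ t, chk3 f_pp_022_a t 2 1 1 = true := ex3_b k0_pp_022_a k1_pp_022_a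

theorem s4_pp_022_a : ∃ t, chk3 f_pp_022_a t 1 1 1 = true := ex3_a s3_pp_022_a k2_pp_022_a

theorem c_pp_022_a : CertB 0 536870912 0 536870912 649613803 48318383 3 eng mog cd1q0 cd4q2a pd2 false true true .pp 0 2 2
    ndB1q0 ndB4q2a pcB2 cut_pp_022_a Ext.none :=
  certB2 (fam := false) (s1 := true) (s2 := true) (a := 0) (b := 2) (c := 2) (cn := .pp) (n1 := ndB1q0) (n2 := ndB4q2a) (pc := pcB2) (cut := cut_pp_022_a) (xt := Ext.none) (P1 := 0) (W1 := 536870912) (P2 := 0) (W2 := 536870912) (P3 := 649613803) (W3 := 48318383) (N0 := 3) (En := eng) (mo := mog) (C1 := cd1q0) (C2 := cd4q2a) (C3 := pd2)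
    rfl (fun _ => rfl) s4_pp_022_a

noncomputable def cut_pp_022_b : Cut := Cut.of [[⟨0, 0, 0, 67108864⟩, ⟨1, 1, 0, 67108864⟩, ⟨2, 1, 0, 67108864⟩]]

noncomputable def f_pp_022_b : ℕ → ℕ → ℕ → ℕ → Bool := onCell 0 536870912 1073741824 536870912 649613803 48318383
    (rowB 3 eng mog cd1q0 cd4q2b pd2 1 false true true .pp 0 2 2 (qsf 0 536870912 1239849684 370763052 2) ndB1q0 ndB4q2b pcB2 cut_pp_022_b Ext.none)

def k0_pp_022_b : ∃ t, chk3 f_pp_022_b t 1 4 1 = true :=
  ⟨(a (a (b (a (l 1) (b (a (l 1) (b (l 1) (a (l 1) (l 16581488)))) (a (b (l 1) (l 67142077495)) (b (l 16598952) (l 16524888))))) (a (b (a (l 1) (a (l 1) (l 80026893479))) (a (a (l 1) (b (l 1) (l 125123924487))) (b (l 106870370199) (l 56404437671)))) (b (a (b (l 16523400) (l 16491488)) (b (l 16493960) (l 16464208))) (a (b (l 16460832) (l 16431400)) (l 16463680))))) (b (a (b (a (b (l 16592008) (l 16623016)) (l 16566184)) (a (b (l 16529296) (l 16499576)) (l 16488872))) (b (b (l 16524016) (l 16501800))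 (l 16508168))) (a (b (a (l 16456976) (l 16436080)) (a (l 16403728) (l 16386624))) (b (l 16399008) (l 16354824))))) (a (b (a (b (b (l 16500128) (l 16418184)) (l 16387200)) (b (a (l 16390240) (l 16370616)) (l 16349392))) (a (l 16508240) (b (l 16318112) (l 16286784)))) (b (a (b (l 16351464) (l 16332472)) (l 16337344)) (a (l 16301512) (l 16310496))))), by decide +kernel⟩

def k1_pp_022_b : ∃ t, chk3 f_pp_022_b t 1 5 1 = true :=
  ⟨(a (a (b (b (b (a (a (a (l 133176950983) (l 16461704)) (l 16466624)) (a (l 16403192) (l 16381752))) (b (a (a (a (l 147135513879) (l 16417504)) (l 16402776)) (a (l 16382864) (l 16362784))) (a (a (b (a (l 16415240) (l 16406040)) (b (a (l 159483476951) (l 16400208)) (a (b (b (b (l 16406616) (b (l 16406120) (a (l 16407776) (l 16403536)))) (l 16405056)) (l 16403656)) (l 16396120)))) (b (l 16392056) (b (l 16386704) (l 16383096)))) (b (l 16363488) (a (b (l 16368248) (l 16365192)) (l 16348384)))))) (a (a (b (a (b (l 16395360) (l 16380840))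 (l 16380112)) (a (l 16357656) (l 16351440))) (b (l 16367864) (l 16341688))) (a (b (l 16350848) (l 16327824)) (l 16343912)))) (a (a (a (b (a (b (l 16329504) (l 16302816)) (l 16314352)) (b (a (l 16279064) (l 16279080)) (l 16258704))) (b (l 16312040) (l 16269296))) (b (a (l 16308696) (l 16305056)) (l 16269768))) (a (b (l 16299064) (l 16269160)) (l 16277608)))) (b (b (b (a (l 16359400) (l 16364768)) (b (a (l 16342256) (l 16307384)) (a (b (l 16334168) (l 16330104)) (b (l 16300160) (l 16297344))))) (a (l 16517584) (l 16277208))) (a (a (l 16278208) (l 16278728)) (l 16267664)))) (b (a (b (b (l 16300680) (a (l 16243512) (l 16248864))) (l 16318384)) (b (b (l 16280208) (l 2)) (l 2))) (a (a (l 16224248) (l 16197184)) (l 2)))), by decide +kernel⟩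

def k2_pp_022_b : ∃ t, chk3 f_pp_022_b t 1 3 1 = true :=
  ⟨(a (b (a (b (a (a (b (a (b (l 16241176) (l 16226480)) (l 16237584)) (a (b (l 16214632) (l 16205584)) (l 16216800))) (b (l 16242992) (l 16226496))) (a (l 16325664) (l 16247832))) (a (b (a (b (l 16203888) (a (l 16196288) (l 16206488))) (l 16219800)) (a (a (b (l 16197120) (l 16200920)) (l 16209680)) (l 16223944))) (b (l 16239200) (l 16247928)))) (b (a (l 16264840) (l 16275360)) (a (b (l 16269984) (l 16288480)) (l 16311112)))) (a (b (a (b (a (a (b (l 16206472) (l 16213704)) (l 16220856)) (l 16237088)) (a (b (l 16292352) (l 16240176)) (l 16257384))) (b (l 16265848) (l 16288472))) (a (b (b (l 16264768) (l 16278752)) (a (l 16289496) (l 16313360))) (l 16330000))) (b (a (l 16324288) (l 2)) (l 2)))) (b (a (b (a (l 16263240) (l 2)) (l 2)) (l 2)) (l 2))), by decide +kernel⟩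

theorem s3_pp_022_b : ∃ t, chk3 f_pp_022_b t 1 2 1 = true := ex3_b k0_pp_022_b k1_pp_022_b

theorem s4_pp_022_b : ∃ t, chk3 f_pp_022_b t 1 1 1 = true := ex3_b s3_pp_022_b k2_pp_022_b

theorem c_pp_022_b : CertB 0 536870912 1239849684 370763052 649613803 48318383 3 eng mog cd1q0 cd4q2b pd2 false true true .pp 0 2 2
    ndB1q0 ndB4q2b pcB2 cut_pp_022_b Ext.none :=
  certB1 (fam := false) (s1 := true) (s2 := true) (a := 0) (b := 2) (c := 2) (cn := .pp) (n1 := ndB1q0) (n2 := ndB4q2b) (pc := pcB2) (cut := cut_pp_022_b) (xt := Ext.none) (P1 := 0) (W1 := 536870912) (P2 := 1239849684) (W2 := 370763052) (P3 := 649613803) (W3 := 48318383) (N0 := 3) (En := eng) (mo := mog) (C1 := cd1q0) (C2 := cd4q2b) (C3 := pd2)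
    rfl (fun _ => rfl) s4_pp_022_b

noncomputable def f_pp_023 : ℕ → ℕ → ℕ → ℕ → Bool := onCell 1073741824 536870912 1610612736 536870912 649613803 48318383
    (rowB 3 eng mog cd1q0 cd4q3 pd2 2 false true true .up 0 2 3 (qsf 0 536870912 1610612736 536870912 2) ndB1q0 ndB4q3 pcB2 Cut.none Ext.none)

def k0_pp_023 : ∃ t, chk3 f_pp_023 t 1 1 1 = true :=
  ⟨(a (a (b (b (a (b (l 16381640) (l 16414440)) (b (l 16337352) (l 16361560))) (a (l 2) (b (l 16408280) (l 2)))) (l 2)) (b (b (a (a (a (l 16312040) (b (l 16288792) (l 16310976))) (b (l 16263120) (l 16289360))) (b (l 16208800) (l 16259112))) (a (a (b (a (l 16365128) (l 16349776)) (l 2)) (b (l 16326528) (l 16436048))) (b (l 16309192) (l 16428224)))) (a (l 2) (b (b (l 16511360) (l 2)) (l 2))))) (b (a (b (a (b (l 16250064) (l 16202744)) (b (l 16530672) (l 16297736))) (a (b (l 16260888) (l 16417712)) (b (l 16282216) (l 16405920)))) (b (a (b (l 16281280) (l 16328280)) (b (a (l 16278528) (l 16281208)) (l 16331312)))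 (b (a (l 16363112) (l 16381416)) (a (l 16407520) (l 16409112))))) (a (b (a (l 16544880) (b (l 16515408) (l 16576064))) (a (l 2) (l 345844677031))) (b (a (b (l 16507072) (l 16579640)) (b (l 16489128) (l 16570224))) (a (l 16506016) (l 16639320)))))), by decide +kernel⟩

theorem c_pp_023 : CertB 0 536870912 1610612736 536870912 649613803 48318383 3 eng mog cd1q0 cd4q3 pd2 false true true .up 0 2 3
    ndB1q0 ndB4q3 pcB2 Cut.none Ext.none :=
  certB2 (fam := false) (s1 := true) (s2 := true) (a := 0) (b := 2) (c := 3) (cn := .up) (n1 := ndB1q0) (n2 := ndB4q3) (pc := pcB2) (cut := Cut.none) (xt := Ext.none) (P1 := 0) (W1 := 536870912) (P2 := 1610612736) (W2 := 536870912) (P3 := 649613803) (W3 := 48318383) (N0 := 3) (En := eng) (mo := mog) (C1 := cd1q0) (C2 := cd4q3) (C3 := pd2)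
    rfl (fun _ => rfl) k0_pp_023

noncomputable def f_pp_033 : ℕ → ℕ → ℕ → ℕ → Bool := onCell 1610612736 536870912 1610612736 536870912 649613803 48318383
    (rowB 3 eng mog cd1q0 cd4q3 pd3 2 false true true .pnn 0 3 3 (qsf 0 536870912 1610612736 536870912 3) ndB1q0 ndB4q3 pcB3 Cut.none Ext.none)

def k0_pp_033 : ∃ t, chk3 f_pp_033 t 1 1 1 = true :=
  ⟨(a (b (a (a (b (b (l 331818827495) (l 16226488)) (b (l 16267976) (l 16318496))) (b (b (a (l 428992098743) (l 1)) (a (l 16173048) (l 358662244487))) (b (b (l 16198496) (l 16214200)) (l 16248824)))) (b (a (b (l 1) (a (l 420939049591) (l 1))) (l 1)) (a (b (l 385505838103) (l 16211440)) (b (b (l 1) (l 476237144647)) (a (l 16197400) (l 16201856)))))) (a (a (b (b (l 16405088) (l 16503288)) (l 16597368)) (b (b (l 16330792) (l 16434880)) (l 16563992))) (b (a (b (l 16275504) (l 16375976)) (b (l 16248224) (l 16331280))) (a (l 16643504) (l 16470528))))) (b (a (b (l 1) (a (b (l 1) (a (l 535829914663) (l 1))) (l 1)))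 (l 1)) (b (a (a (b (a (l 16249328) (l 563210550551)) (l 108145489431)) (l 4)) (a (b (l 1) (l 4)) (l 1))) (a (l 4) (l 4))))), by decide +kernel⟩

theorem c_pp_033 : CertB 0 536870912 1610612736 536870912 649613803 48318383 3 eng mog cd1q0 cd4q3 pd3 false true true .pnn 0 3 3
    ndB1q0 ndB4q3 pcB3 Cut.none Ext.none :=
  certB2 (fam := false) (s1 := true) (s2 := true) (a := 0) (b := 3) (c := 3) (cn := .pnn) (n1 := ndB1q0) (n2 := ndB4q3) (pc := pcB3) (cut := Cut.none) (xt := Ext.none) (P1 := 0) (W1 := 536870912) (P2 := 1610612736) (W2 := 536870912) (P3 := 649613803) (W3 := 48318383) (N0 := 3) (En := eng) (mo := mog) (C1 := cd1q0) (C2 := cd4q3) (C3 := pd3)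
    rfl (fun _ => rfl) k0_pp_033

noncomputable def f_pp_101 : ℕ → ℕ → ℕ → ℕ → Bool := onCell 536870912 536870912 536870912 536870912 649613803 48318383
    (rowB 3 eng mog cd1q1 cd4q1 pd0 0 false true true .npn 1 0 1 (qsf 536870912 536870912 536870912 536870912 0) ndB1q1 ndB4q1 pcB0 Cut.none Ext.none)

def k0_pp_101 : ∃ t, chk3 f_pp_101 t 1 1 1 = true :=
  ⟨(l 3), by decide +kernel⟩

theorem c_pp_101 : CertB 536870912 536870912 536870912 536870912 649613803 48318383 3 eng mog cd1q1 cd4q1 pd0 false true true .npn 1 0 1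
    ndB1q1 ndB4q1 pcB0 Cut.none Ext.none :=
  certB0 (fam := false) (s1 := true) (s2 := true) (a := 1) (b := 0) (c := 1) (cn := .npn) (n1 := ndB1q1) (n2 := ndB4q1) (pc := pcB0) (cut := Cut.none) (xt := Ext.none) (P1 := 536870912) (W1 := 536870912) (P2 := 536870912) (W2 := 536870912) (P3 := 649613803) (W3 := 48318383) (N0 := 3) (En := eng) (mo := mog) (C1 := cd1q1) (C2 := cd4q1) (C3 := pd0)
    rfl k0_pp_101

noncomputable def f_pp_102_a : ℕ → ℕ → ℕ → ℕ → Bool := onCell 536870912 536870912 0 536870912 649613803 48318383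
    (rowB 3 eng mog cd1q1 cd4q2a pd0 0 false true true .npp 1 0 2 (qsf 536870912 536870912 0 536870912 0) ndB1q1 ndB4q2a pcB0 Cut.none Ext.none)

def k0_pp_102_a : ∃ t, chk3 f_pp_102_a t 1 1 1 = true :=
  ⟨(l 3), by decide +kernel⟩

theorem c_pp_102_a : CertB 536870912 536870912 0 536870912 649613803 48318383 3 eng mog cd1q1 cd4q2a pd0 false true true .npp 1 0 2
    ndB1q1 ndB4q2a pcB0 Cut.none Ext.none :=
  certB0 (fam := false) (s1 := true) (s2 := true) (a := 1) (b := 0) (c := 2) (cn := .npp) (n1 := ndB1q1) (n2 := ndB4q2a) (pc := pcB0) (cut := Cut.none) (xt := Ext.none) (P1 := 536870912) (W1 := 536870912) (P2 := 0) (W2 := 536870912) (P3 := 649613803) (W3 := 48318383) (N0 := 3) (En := eng) (mo := mog) (C1 := cd1q1) (C2 := cd4q2a) (C3 := pd0)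
    rfl k0_pp_102_a

noncomputable def f_pp_102_b : ℕ → ℕ → ℕ → ℕ → Bool := onCell 536870912 536870912 0 536870912 649613803 48318383
    (rowB 3 eng mog cd1q1 cd4q2b pd0 1 false true true .npp 1 0 2 (qsf 536870912 536870912 1239849684 370763052 0) ndB1q1 ndB4q2b pcB0 Cut.none Ext.none)

def k0_pp_102_b : ∃ t, chk3 f_pp_102_b t 1 1 1 = true :=
  ⟨(l 3), by decide +kernel⟩

theorem c_pp_102_b : CertB 536870912 536870912 1239849684 370763052 649613803 48318383 3 eng mog cd1q1 cd4q2b pd0 false true true .npp 1 0 2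
    ndB1q1 ndB4q2b pcB0 Cut.none Ext.none :=
  certB1 (fam := false) (s1 := true) (s2 := true) (a := 1) (b := 0) (c := 2) (cn := .npp) (n1 := ndB1q1) (n2 := ndB4q2b) (pc := pcB0) (cut := Cut.none) (xt := Ext.none) (P1 := 536870912) (W1 := 536870912) (P2 := 1239849684) (W2 := 370763052) (P3 := 649613803) (W3 := 48318383) (N0 := 3) (En := eng) (mo := mog) (C1 := cd1q1) (C2 := cd4q2b) (C3 := pd0)
    rfl (fun _ => rfl) k0_pp_102_b

noncomputable def f_pp_112_a : ℕ → ℕ → ℕ → ℕ → Bool := onCell 536870912 536870912 0 536870912 649613803 48318383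
    (rowB 3 eng mog cd1q1 cd4q2a pd1 0 false true true .dn 1 1 2 (qsf 536870912 536870912 0 536870912 1) ndB1q1 ndB4q2a pcB1 Cut.none Ext.none)

def k0_pp_112_a : ∃ t, chk3 f_pp_112_a t 1 1 1 = true :=
  ⟨(l 3), by decide +kernel⟩

theorem c_pp_112_a : CertB 536870912 536870912 0 536870912 649613803 48318383 3 eng mog cd1q1 cd4q2a pd1 false true true .dn 1 1 2
    ndB1q1 ndB4q2a pcB1 Cut.none Ext.none :=
  certB0 (fam := false) (s1 := true) (s2 := true) (a := 1) (b := 1) (c := 2) (cn := .dn) (n1 := ndB1q1) (n2 := ndB4q2a) (pc := pcB1) (cut := Cut.none) (xt := Ext.none) (P1 := 536870912) (W1 := 536870912) (P2 := 0) (W2 := 536870912) (P3 := 649613803) (W3 := 48318383) (N0 := 3) (En := eng) (mo := mog) (C1 := cd1q1) (C2 := cd4q2a) (C3 := pd1)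
    rfl k0_pp_112_a

noncomputable def f_pp_112_b : ℕ → ℕ → ℕ → ℕ → Bool := onCell 536870912 536870912 1239849684 370763052 649613803 48318383
    (rowB 3 eng mog cd1q1 cd4q2b pd1 2 false true true .dn 1 1 2 (qsf 536870912 536870912 1239849684 370763052 1) ndB1q1 ndB4q2b pcB1 Cut.none Ext.none)

def k0_pp_112_b : ∃ t, chk3 f_pp_112_b t 1 1 1 = true :=
  ⟨(a (l 3) (a (l 3) (b (l 1) (a (a (l 3) (a (l 3) (b (l 1) (l 3)))) (b (l 1) (a (b (l 33319068055) (l 16482552)) (b (l 1) (l 16410760)))))))), by decide +kernel⟩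

theorem c_pp_112_b : CertB 536870912 536870912 1239849684 370763052 649613803 48318383 3 eng mog cd1q1 cd4q2b pd1 false true true .dn 1 1 2
    ndB1q1 ndB4q2b pcB1 Cut.none Ext.none :=
  certB2 (fam := false) (s1 := true) (s2 := true) (a := 1) (b := 1) (c := 2) (cn := .dn) (n1 := ndB1q1) (n2 := ndB4q2b) (pc := pcB1) (cut := Cut.none) (xt := Ext.none) (P1 := 536870912) (W1 := 536870912) (P2 := 1239849684) (W2 := 370763052) (P3 := 649613803) (W3 := 48318383) (N0 := 3) (En := eng) (mo := mog) (C1 := cd1q1) (C2 := cd4q2b) (C3 := pd1)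
    rfl (fun _ => rfl) k0_pp_112_b

noncomputable def f_pp_113 : ℕ → ℕ → ℕ → ℕ → Bool := onCell 536870912 536870912 536870912 536870912 649613803 48318383
    (rowB 3 eng mog cd1q1 cd4q3 pd1 1 false true true .nn 1 1 3 (qsf 536870912 536870912 1610612736 536870912 1) ndB1q1 ndB4q3 pcB1 Cut.none Ext.none)

def k0_pp_113 : ∃ t, chk3 f_pp_113 t 1 1 1 = true :=
  ⟨(b (l 3) (b (a (l 3) (l 3)) (a (b (a (b (l 3) (l 3)) (l 3)) (a (b (a (a (l 175052938471) (l 16515112)) (b (l 16580840) (l 16568144))) (a (b (l 16475240) (l 16456408)) (b (l 16555368) (l 16542104)))) (b (a (b (l 16692144) (a (l 16666616) (l 16718608))) (b (a (l 128479734663) (l 148880921047)) (a (l 16768000) (l 16822744)))) (a (b (a (l 16659552) (l 16705984)) (a (l 16642328) (l 16698936))) (b (a (l 16764088) (l 16816576)) (a (l 16760688) (l 16809944))))))) (b (a (l 3) (l 3)) (a (a (b (a (b (l 169818926695) (l 16865984)) (b (l 154786877255) (l 16827136))) (a (b (l 16856064) (l 16845024)) (b (l 16880792)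 (l 16840552)))) (b (b (l 3) (a (l 16925280) (l 16939184))) (b (l 16906392) (l 16881008)))) (b (b (l 3) (a (b (l 278803527639) (l 16681992)) (a (l 335711970279) (l 859161246423)))) (a (b (l 16899400) (l 16874464)) (b (a (l 16828320) (l 16791832)) (l 16896736))))))))), by decide +kernel⟩

theorem c_pp_113 : CertB 536870912 536870912 1610612736 536870912 649613803 48318383 3 eng mog cd1q1 cd4q3 pd1 false true true .nn 1 1 3
    ndB1q1 ndB4q3 pcB1 Cut.none Ext.none :=
  certB1 (fam := false) (s1 := true) (s2 := true) (a := 1) (b := 1) (c := 3) (cn := .nn) (n1 := ndB1q1) (n2 := ndB4q3) (pc := pcB1) (cut := Cut.none) (xt := Ext.none) (P1 := 536870912) (W1 := 536870912) (P2 := 1610612736) (W2 := 536870912) (P3 := 649613803) (W3 := 48318383) (N0 := 3) (En := eng) (mo := mog) (C1 := cd1q1) (C2 := cd4q3) (C3 := pd1)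
    rfl (fun _ => rfl) k0_pp_113

end Pool.Agent.Strip051.G.I6050_6500.Tab.C.BB14

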