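import Pool.Agent.Strip051.G.I6050_6500.Tab
import Pool.Agent.Strip051.PB.ExtD2

/-! # Certificates B32 (generated) -/

set_option linter.all false
set_option maxRecDepth 100000

namespace Pool.Agent.Strip051.G.I6050_6500.Tab.C.BB14

open Pool.Agent.Strip051.PB Pool.Agent.Strip051.PB.T
open Pool.Agent.Strip051.G.I6050_6500.Tab

noncomputable def f_pp_123 : ℕ → ℕ → ℕ → ℕ → Bool := onCell 1073741824 536870912 1610612736 536870912 649613803 48318383
    (rowB 3 eng mog cd1q1 cd4q3 pd2 2 false true true .npn 1 2 3 (qsf 536870912 536870912 1610612736 536870912 2) ndB1q1 ndB4q3 pcB2 Cut.none Ext.none)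

def k0_pp_123 : ∃ t, chk3 f_pp_123 t 1 1 1 = true :=
  ⟨(a (a (b (b (a (b (a (l 16425864) (l 16405984)) (a (l 16497920) (l 16451384))) (b (l 16388128) (l 16402368))) (a (b (a (l 16627336) (l 16564408)) (a (l 16747872) (l 16690744))) (b (l 16474008) (l 16607112)))) (b (a (b (b (l 16781008) (l 16796176)) (a (l 16834792) (l 16781272))) (b (l 16643744) (l 16685824))) (a (b (a (l 16831984) (l 16784216)) (a (l 16791320) (l 16754816))) (b (l 16705896) (l 16682256))))) (b (b (a (a (a (l 16373848) (l 1)) (l 1)) (l 1)) (a (a (b (a (l 16413840) (l 16396792)) (a (l 16539936) (l 16515496))) (b (l 16376208) (l 16481840))) (b (l 16385368) (l 16466080)))) (b (a (b (a (a (l 16621328) (l 16598344)) (l 16566464)) (a (a (l 16644240) (l 16621808)) (l 16592448))) (b (l 16552800) (l 16589760))) (a (b (a (a (l 16641088) (l 16598288)) (l 16595272)) (a (a (l 16630384) (l 16840720)) (l 16586488))) (b (l 16600776) (l 16598472)))))) (b (a (b (l 1) (a (l 216392346583) (l 1)))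 (l 1)) (a (b (a (b (l 16549344) (l 16592968)) (l 248066914103)) (a (l 16720296) (l 16630896))) (b (b (l 1) (l 16623472)) (a (l 16649712) (l 16638712)))))), by decide +kernel⟩

theorem c_pp_123 : CertB 536870912 536870912 1610612736 536870912 649613803 48318383 3 eng mog cd1q1 cd4q3 pd2 false true true .npn 1 2 3
    ndB1q1 ndB4q3 pcB2 Cut.none Ext.none :=
  certB2 (fam := false) (s1 := true) (s2 := true) (a := 1) (b := 2) (c := 3) (cn := .npn) (n1 := ndB1q1) (n2 := ndB4q3) (pc := pcB2) (cut := Cut.none) (xt := Ext.none) (P1 := 536870912) (W1 := 536870912) (P2 := 1610612736) (W2 := 536870912) (P3 := 649613803) (W3 := 48318383) (N0 := 3) (En := eng) (mo := mog) (C1 := cd1q1) (C2 := cd4q3) (C3 := pd2)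
    rfl (fun _ => rfl) k0_pp_123

noncomputable def f_pp_133 : ℕ → ℕ → ℕ → ℕ → Bool := onCell 536870912 536870912 1610612736 536870912 649613803 48318383
    (rowB 3 eng mog cd1q1 cd4q3 pd3 0 false true true .dn 1 3 3 (qsf 536870912 536870912 1610612736 536870912 3) ndB1q1 ndB4q3 pcB3 Cut.none Ext.none)

def k0_pp_133 : ∃ t, chk3 f_pp_133 t 1 1 1 = true :=
  ⟨(a (b (l 1) (b (l 1) (a (a (l 424161962151) (l 1)) (l 1)))) (l 1)), by decide +kernel⟩

theorem c_pp_133 : CertB 536870912 536870912 1610612736 536870912 649613803 48318383 3 eng mog cd1q1 cd4q3 pd3 false true true .dn 1 3 3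
    ndB1q1 ndB4q3 pcB3 Cut.none Ext.none :=
  certB0 (fam := false) (s1 := true) (s2 := true) (a := 1) (b := 3) (c := 3) (cn := .dn) (n1 := ndB1q1) (n2 := ndB4q3) (pc := pcB3) (cut := Cut.none) (xt := Ext.none) (P1 := 536870912) (W1 := 536870912) (P2 := 1610612736) (W2 := 536870912) (P3 := 649613803) (W3 := 48318383) (N0 := 3) (En := eng) (mo := mog) (C1 := cd1q1) (C2 := cd4q3) (C3 := pd3)
    rfl k0_pp_133

noncomputable def f_pp_202_aa : ℕ → ℕ → ℕ → ℕ → Bool := onCell 0 536870912 0 536870912 649613803 48318383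
    (rowB 3 eng mog cd1q2a cd4q2a pd0 0 false true true .pp 2 0 2 (qsf 0 536870912 0 536870912 0) ndB1q2a ndB4q2a pcB0 Cut.none Ext.none)

def k0_pp_202_aa : ∃ t, chk3 f_pp_202_aa t 1 1 1 = true :=
  ⟨(l 3), by decide +kernel⟩

theorem c_pp_202_aa : CertB 0 536870912 0 536870912 649613803 48318383 3 eng mog cd1q2a cd4q2a pd0 false true true .pp 2 0 2
    ndB1q2a ndB4q2a pcB0 Cut.none Ext.none :=
  certB0 (fam := false) (s1 := true) (s2 := true) (a := 2) (b := 0) (c := 2) (cn := .pp) (n1 := ndB1q2a) (n2 := ndB4q2a) (pc := pcB0) (cut := Cut.none) (xt := Ext.none) (P1 := 0) (W1 := 536870912) (P2 := 0) (W2 := 536870912) (P3 := 649613803) (W3 := 48318383) (N0 := 3) (En := eng) (mo := mog) (C1 := cd1q2a) (C2 := cd4q2a) (C3 := pd0)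
    rfl k0_pp_202_aa

noncomputable def f_pp_202_ab : ℕ → ℕ → ℕ → ℕ → Bool := onCell 0 536870912 1239849684 370763052 649613803 48318383
    (rowB 3 eng mog cd1q2a cd4q2b pd0 0 false true true .pp 2 0 2 (qsf 0 536870912 1239849684 370763052 0) ndB1q2a ndB4q2b pcB0 Cut.none Ext.none)

def k0_pp_202_ab : ∃ t, chk3 f_pp_202_ab t 1 1 1 = true :=
  ⟨(l 3), by decide +kernel⟩

theorem c_pp_202_ab : CertB 0 536870912 1239849684 370763052 649613803 48318383 3 eng mog cd1q2a cd4q2b pd0 false true true .pp 2 0 2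
    ndB1q2a ndB4q2b pcB0 Cut.none Ext.none :=
  certB0 (fam := false) (s1 := true) (s2 := true) (a := 2) (b := 0) (c := 2) (cn := .pp) (n1 := ndB1q2a) (n2 := ndB4q2b) (pc := pcB0) (cut := Cut.none) (xt := Ext.none) (P1 := 0) (W1 := 536870912) (P2 := 1239849684) (W2 := 370763052) (P3 := 649613803) (W3 := 48318383) (N0 := 3) (En := eng) (mo := mog) (C1 := cd1q2a) (C2 := cd4q2b) (C3 := pd0)
    rfl k0_pp_202_ab

noncomputable def f_pp_202_ba : ℕ → ℕ → ℕ → ℕ → Bool := onCell 1239849684 370763052 0 536870912 649613803 48318383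
    (rowB 3 eng mog cd1q2b cd4q2a pd0 0 false true true .pp 2 0 2 (qsf 1239849684 370763052 0 536870912 0) ndB1q2b ndB4q2a pcB0 Cut.none Ext.none)

def k0_pp_202_ba : ∃ t, chk3 f_pp_202_ba t 1 1 1 = true :=
  ⟨(l 3), by decide +kernel⟩

theorem c_pp_202_ba : CertB 1239849684 370763052 0 536870912 649613803 48318383 3 eng mog cd1q2b cd4q2a pd0 false true true .pp 2 0 2
    ndB1q2b ndB4q2a pcB0 Cut.none Ext.none :=
  certB0 (fam := false) (s1 := true) (s2 := true) (a := 2) (b := 0) (c := 2) (cn := .pp) (n1 := ndB1q2b) (n2 := ndB4q2a) (pc := pcB0) (cut := Cut.none) (xt := Ext.none) (P1 := 1239849684) (W1 := 370763052) (P2 := 0) (W2 := 536870912) (P3 := 649613803) (W3 := 48318383) (N0 := 3) (En := eng) (mo := mog) (C1 := cd1q2b) (C2 := cd4q2a) (C3 := pd0)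
    rfl k0_pp_202_ba

noncomputable def f_pp_202_bb : ℕ → ℕ → ℕ → ℕ → Bool := onCell 1239849684 370763052 1239849684 370763052 649613803 48318383
    (rowB 3 eng mog cd1q2b cd4q2b pd0 0 false true true .pp 2 0 2 (qsf 1239849684 370763052 1239849684 370763052 0) ndB1q2b ndB4q2b pcB0 Cut.none Ext.none)

def k0_pp_202_bb : ∃ t, chk3 f_pp_202_bb t 1 1 1 = true :=
  ⟨(l 3), by decide +kernel⟩

theorem c_pp_202_bb : CertB 1239849684 370763052 1239849684 370763052 649613803 48318383 3 eng mog cd1q2b cd4q2b pd0 false true true .pp 2 0 2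
    ndB1q2b ndB4q2b pcB0 Cut.none Ext.none :=
  certB0 (fam := false) (s1 := true) (s2 := true) (a := 2) (b := 0) (c := 2) (cn := .pp) (n1 := ndB1q2b) (n2 := ndB4q2b) (pc := pcB0) (cut := Cut.none) (xt := Ext.none) (P1 := 1239849684) (W1 := 370763052) (P2 := 1239849684) (W2 := 370763052) (P3 := 649613803) (W3 := 48318383) (N0 := 3) (En := eng) (mo := mog) (C1 := cd1q2b) (C2 := cd4q2b) (C3 := pd0)
    rfl k0_pp_202_bb

noncomputable def f_pp_203_a : ℕ → ℕ → ℕ → ℕ → Bool := onCell 0 536870912 0 536870912 649613803 48318383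
    (rowB 3 eng mog cd1q2a cd4q3 pd0 1 false true true .up 2 0 3 (qsf 0 536870912 1610612736 536870912 0) ndB1q2a ndB4q3 pcB0 Cut.none Ext.none)

def k0_pp_203_a : ∃ t, chk3 f_pp_203_a t 1 1 1 = true :=
  ⟨(l 3), by decide +kernel⟩

theorem c_pp_203_a : CertB 0 536870912 1610612736 536870912 649613803 48318383 3 eng mog cd1q2a cd4q3 pd0 false true true .up 2 0 3
    ndB1q2a ndB4q3 pcB0 Cut.none Ext.none :=
  certB1 (fam := false) (s1 := true) (s2 := true) (a := 2) (b := 0) (c := 3) (cn := .up) (n1 := ndB1q2a) (n2 := ndB4q3) (pc := pcB0) (cut := Cut.none) (xt := Ext.none) (P1 := 0) (W1 := 536870912) (P2 := 1610612736) (W2 := 536870912) (P3 := 649613803) (W3 := 48318383) (N0 := 3) (En := eng) (mo := mog) (C1 := cd1q2a) (C2 := cd4q3) (C3 := pd0)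
    rfl (fun _ => rfl) k0_pp_203_a

noncomputable def f_pp_203_b : ℕ → ℕ → ℕ → ℕ → Bool := onCell 1239849684 370763052 1610612736 536870912 649613803 48318383
    (rowB 3 eng mog cd1q2b cd4q3 pd0 0 false true true .up 2 0 3 (qsf 1239849684 370763052 1610612736 536870912 0) ndB1q2b ndB4q3 pcB0 Cut.none Ext.none)

def k0_pp_203_b : ∃ t, chk3 f_pp_203_b t 1 1 1 = true :=
  ⟨(l 3), by decide +kernel⟩

theorem c_pp_203_b : CertB 1239849684 370763052 1610612736 536870912 649613803 48318383 3 eng mog cd1q2b cd4q3 pd0 false true true .up 2 0 3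
    ndB1q2b ndB4q3 pcB0 Cut.none Ext.none :=
  certB0 (fam := false) (s1 := true) (s2 := true) (a := 2) (b := 0) (c := 3) (cn := .up) (n1 := ndB1q2b) (n2 := ndB4q3) (pc := pcB0) (cut := Cut.none) (xt := Ext.none) (P1 := 1239849684) (W1 := 370763052) (P2 := 1610612736) (W2 := 536870912) (P3 := 649613803) (W3 := 48318383) (N0 := 3) (En := eng) (mo := mog) (C1 := cd1q2b) (C2 := cd4q3) (C3 := pd0)
    rfl k0_pp_203_b

noncomputable def cut_pp_213_a : Cut := Cut.of [[⟨0, 1, 0, 67108864⟩, ⟨1, 1, 0, 67108864⟩, ⟨2, 2, 0, 16777216⟩]]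

noncomputable def f_pp_213_a : ℕ → ℕ → ℕ → ℕ → Bool := onCell 0 536870912 1610612736 536870912 649613803 48318383
    (rowB 3 eng mog cd1q2a cd4q3 pd1 0 false true true .pnn 2 1 3 (qsf 0 536870912 1610612736 536870912 1) ndB1q2a ndB4q3 pcB1 cut_pp_213_a Ext.none)

def k0_pp_213_a : ∃ t, chk3 f_pp_213_a t 1 1 1 = true :=
  ⟨(b (l 3) (a (l 3) (b (l 3) (a (l 3) (b (l 3) (a (l 3) (b (l 3) (b (l 3) (b (l 3) (l 6)))))))))), by decide +kernel⟩

theorem c_pp_213_a : CertB 0 536870912 1610612736 536870912 649613803 48318383 3 eng mog cd1q2a cd4q3 pd1 false true true .pnn 2 1 3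
    ndB1q2a ndB4q3 pcB1 cut_pp_213_a Ext.none :=
  certB0 (fam := false) (s1 := true) (s2 := true) (a := 2) (b := 1) (c := 3) (cn := .pnn) (n1 := ndB1q2a) (n2 := ndB4q3) (pc := pcB1) (cut := cut_pp_213_a) (xt := Ext.none) (P1 := 0) (W1 := 536870912) (P2 := 1610612736) (W2 := 536870912) (P3 := 649613803) (W3 := 48318383) (N0 := 3) (En := eng) (mo := mog) (C1 := cd1q2a) (C2 := cd4q3) (C3 := pd1)
    rfl k0_pp_213_a

noncomputable def cut_pp_213_b : Cut := Cut.of [[⟨0, 1, 0, 67108864⟩, ⟨1, 1, 0, 67108864⟩, ⟨2, 2, 0, 16777216⟩]]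

noncomputable def f_pp_213_b : ℕ → ℕ → ℕ → ℕ → Bool := onCell 1239849684 370763052 1610612736 536870912 649613803 48318383
    (rowB 3 eng mog cd1q2b cd4q3 pd1 0 false true true .pnn 2 1 3 (qsf 1239849684 370763052 1610612736 536870912 1) ndB1q2b ndB4q3 pcB1 cut_pp_213_b Ext.none)

def k0_pp_213_b : ∃ t, chk3 f_pp_213_b t 1 1 1 = true :=
  ⟨(l 3), by decide +kernel⟩

theorem c_pp_213_b : CertB 1239849684 370763052 1610612736 536870912 649613803 48318383 3 eng mog cd1q2b cd4q3 pd1 false true true .pnn 2 1 3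
    ndB1q2b ndB4q3 pcB1 cut_pp_213_b Ext.none :=
  certB0 (fam := false) (s1 := true) (s2 := true) (a := 2) (b := 1) (c := 3) (cn := .pnn) (n1 := ndB1q2b) (n2 := ndB4q3) (pc := pcB1) (cut := cut_pp_213_b) (xt := Ext.none) (P1 := 1239849684) (W1 := 370763052) (P2 := 1610612736) (W2 := 536870912) (P3 := 649613803) (W3 := 48318383) (N0 := 3) (En := eng) (mo := mog) (C1 := cd1q2b) (C2 := cd4q3) (C3 := pd1)
    rfl k0_pp_213_b

noncomputable def f_pp_303 : ℕ → ℕ → ℕ → ℕ → Bool := onCell 1610612736 536870912 1610612736 536870912 649613803 48318383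
    (rowB 3 eng mog cd1q3 cd4q3 pd0 0 false true true .npn 3 0 3 (qsf 1610612736 536870912 1610612736 536870912 0) ndB1q3 ndB4q3 pcB0 Cut.none Ext.none)

def k0_pp_303 : ∃ t, chk3 f_pp_303 t 1 1 1 = true :=
  ⟨(l 3), by decide +kernel⟩

theorem c_pp_303 : CertB 1610612736 536870912 1610612736 536870912 649613803 48318383 3 eng mog cd1q3 cd4q3 pd0 false true true .npn 3 0 3
    ndB1q3 ndB4q3 pcB0 Cut.none Ext.none :=
  certB0 (fam := false) (s1 := true) (s2 := true) (a := 3) (b := 0) (c := 3) (cn := .npn) (n1 := ndB1q3) (n2 := ndB4q3) (pc := pcB0) (cut := Cut.none) (xt := Ext.none) (P1 := 1610612736) (W1 := 536870912) (P2 := 1610612736) (W2 := 536870912) (P3 := 649613803) (W3 := 48318383) (N0 := 3) (En := eng) (mo := mog) (C1 := cd1q3) (C2 := cd4q3) (C3 := pd0)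
    rfl k0_pp_303

noncomputable def f_pp_313 : ℕ → ℕ → ℕ → ℕ → Bool := onCell 1610612736 536870912 1610612736 536870912 649613803 48318383
    (rowB 3 eng mog cd1q3 cd4q3 pd1 0 false true true .dn 3 1 3 (qsf 1610612736 536870912 1610612736 536870912 1) ndB1q3 ndB4q3 pcB1 Cut.none Ext.none)

def k0_pp_313 : ∃ t, chk3 f_pp_313 t 1 1 1 = true :=
  ⟨(l 3), by decide +kernel⟩

theorem c_pp_313 : CertB 1610612736 536870912 1610612736 536870912 649613803 48318383 3 eng mog cd1q3 cd4q3 pd1 false true true .dn 3 1 3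
    ndB1q3 ndB4q3 pcB1 Cut.none Ext.none :=
  certB0 (fam := false) (s1 := true) (s2 := true) (a := 3) (b := 1) (c := 3) (cn := .dn) (n1 := ndB1q3) (n2 := ndB4q3) (pc := pcB1) (cut := Cut.none) (xt := Ext.none) (P1 := 1610612736) (W1 := 536870912) (P2 := 1610612736) (W2 := 536870912) (P3 := 649613803) (W3 := 48318383) (N0 := 3) (En := eng) (mo := mog) (C1 := cd1q3) (C2 := cd4q3) (C3 := pd1)
    rfl k0_pp_313

noncomputable def f_pm_001 : ℕ → ℕ → ℕ → ℕ → Bool := onCell 0 536870912 536870912 536870912 649613803 48318383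
    (rowB 3 eng mog cd1q0 cd4q1 pd0 0 false true false .up 0 0 1 (qsf 0 536870912 536870912 536870912 0) ndB1q0 ndB4q1 pcB0 Cut.none Ext.none)

def k0_pm_001 : ∃ t, chk3 f_pm_001 t 1 1 1 = true :=
  ⟨(l 4), by decide +kernel⟩

theorem c_pm_001 : CertB 0 536870912 536870912 536870912 649613803 48318383 3 eng mog cd1q0 cd4q1 pd0 false true false .up 0 0 1
    ndB1q0 ndB4q1 pcB0 Cut.none Ext.none :=
  certB0 (fam := false) (s1 := true) (s2 := false) (a := 0) (b := 0) (c := 1) (cn := .up) (n1 := ndB1q0) (n2 := ndB4q1) (pc := pcB0) (cut := Cut.none) (xt := Ext.none) (P1 := 0) (W1 := 536870912) (P2 := 536870912) (W2 := 536870912) (P3 := 649613803) (W3 := 48318383) (N0 := 3) (En := eng) (mo := mog) (C1 := cd1q0) (C2 := cd4q1) (C3 := pd0)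
    rfl k0_pm_001

noncomputable def f_pm_011 : ℕ → ℕ → ℕ → ℕ → Bool := onCell 0 536870912 536870912 536870912 649613803 48318383
    (rowB 3 eng mog cd1q0 cd4q1 pd1 0 false true false .pnn 0 1 1 (qsf 0 536870912 536870912 536870912 1) ndB1q0 ndB4q1 pcB1 Cut.none Ext.none)

def k0_pm_011 : ∃ t, chk3 f_pm_011 t 1 1 1 = true :=
  ⟨(l 4), by decide +kernel⟩

theorem c_pm_011 : CertB 0 536870912 536870912 536870912 649613803 48318383 3 eng mog cd1q0 cd4q1 pd1 false true false .pnn 0 1 1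
    ndB1q0 ndB4q1 pcB1 Cut.none Ext.none :=
  certB0 (fam := false) (s1 := true) (s2 := false) (a := 0) (b := 1) (c := 1) (cn := .pnn) (n1 := ndB1q0) (n2 := ndB4q1) (pc := pcB1) (cut := Cut.none) (xt := Ext.none) (P1 := 0) (W1 := 536870912) (P2 := 536870912) (W2 := 536870912) (P3 := 649613803) (W3 := 48318383) (N0 := 3) (En := eng) (mo := mog) (C1 := cd1q0) (C2 := cd4q1) (C3 := pd1)
    rfl k0_pm_011

noncomputable def cut_pm_012_a : Cut := Cut.of [[⟨0, 0, 0, 67108864⟩, ⟨1, 1, 0, 67108864⟩, ⟨2, 1, 0, 67108864⟩]]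

noncomputable def f_pm_012_a : ℕ → ℕ → ℕ → ℕ → Bool := onCell 536870912 536870912 0 536870912 649613803 48318383
    (rowB 3 eng mog cd1q0 cd4q2a pd1 2 false true false .pnp 0 1 2 (qsf 0 536870912 0 536870912 1) ndB1q0 ndB4q2a pcB1 cut_pm_012_a Ext.none)

def k0_pm_012_a : ∃ t, chk3 f_pm_012_a t 2 1 1 = true :=
  ⟨(b (a (b (l 2) (a (l 2) (l 16371472))) (a (b (l 16401440) (l 16365808)) (b (l 16374960) (l 16353888)))) (a (b (a (l 2) (a (l 16328872) (l 16339968))) (b (a (l 16272424) (l 16325704)) (a (l 16286344) (l 16397448)))) (b (a (b (l 16351024) (l 16352984)) (b (l 16354680) (l 16369992))) (a (b (l 16472000) (b (l 16386824) (l 16447064))) (b (b (l 16390720) (l 16410408)) (b (l 16435016) (l 16506816))))))), by decide +kernel⟩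

def k1_pm_012_a : ∃ t, chk3 f_pm_012_a t 3 2 1 = true :=
  ⟨(a (a (b (l 16344104) (b (l 16334792) (l 16339120))) (b (a (l 16319784) (l 16309904)) (a (b (l 16318112) (l 16329896)) (b (l 16313224) (l 16329928))))) (a (b (a (l 16301936) (b (l 16292976) (l 16295224))) (a (b (l 16310560) (l 16332312)) (b (l 16308632) (l 16335320)))) (b (a (b (l 16284120) (l 16289464)) (b (l 16317688) (a (l 16285576) (l 16283312)))) (a (b (l 16307056) (a (l 16338032) (l 16340264))) (b (a (l 16306520) (l 16306568)) (a (l 16342848) (b (l 16333672) (l 16357728)))))))), by decide +kernel⟩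

def k2_pm_012_a : ∃ t, chk3 f_pm_012_a t 3 3 1 = true :=
  ⟨(a (b (a (b (l 16354408) (a (l 16380600) (l 16387864))) (b (a (l 16354600) (l 16360816)) (a (l 16396032) (l 16409416)))) (a (b (a (l 16424616) (l 16462168)) (b (l 16525512) (a (l 16510472) (l 16541280)))) (b (a (b (l 16439928) (l 16477056)) (b (l 16459192) (l 16500704))) (a (b (l 16520784) (l 16634800)) (b (l 16549448) (b (l 16590912) (l 16601160))))))) (b (a (a (b (l 16369168) (l 16424712)) (b (l 16378272) (b (l 16422680) (l 16459992)))) (a (b (a (l 16385944) (l 16391576)) (b (l 16438864) (a (l 16475176) (l 16484352)))) (b (a (b (l 16381264) (l 16413592)) (b (l 16386056) (l 16418432))) (a (b (l 16450248) (l 16491264)) (b (l 16455056) (l 16497208)))))) (a (b (a (b (l 16480624) (l 16547856)) (b (l 16503856) (a (l 16547760) (l 16581784)))) (b (a (l 16601704) (b (l 16595624) (l 16625032))) (a (b (l 16638816) (a (b (l 16626000) (l 16636672)) (l 16646984))) (b (l 16649280) (a (l 16674544) (b (l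 16675488) (l 16687464))))))) (b (a (b (a (l 16521096) (l 16530064)) (a (l 16571784) (l 16581624))) (a (b (l 16537912) (a (l 16588768) (l 16593440))) (b (a (l 16543568) (l 16547248)) (a (l 16619000) (b (l 16587800) (l 6)))))) (b (a (a (l 16628688) (b (l 16624664) (b (l 16647816) (l 16663896)))) (a (b (l 16656448) (l 6)) (l 6))) (a (a (b (l 16675376) (b (l 16693232) (b (l 16702304) (l 16708408)))) (b (l 16710016) (l 6))) (l 6))))))), by decide +kernel⟩

theorem s3_pm_012_a : ∃ t, chk3 f_pm_012_a t 3 1 1 = true := ex3_b k1_pm_012_a k2_pm_012_a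

theorem s4_pm_012_a : ∃ t, chk3 f_pm_012_a t 1 1 1 = true := ex3_a k0_pm_012_a s3_pm_012_a

theorem c_pm_012_a : CertB 0 536870912 0 536870912 649613803 48318383 3 eng mog cd1q0 cd4q2a pd1 false true false .pnp 0 1 2
    ndB1q0 ndB4q2a pcB1 cut_pm_012_a Ext.none :=
  certB2 (fam := false) (s1 := true) (s2 := false) (a := 0) (b := 1) (c := 2) (cn := .pnp) (n1 := ndB1q0) (n2 := ndB4q2a) (pc := pcB1) (cut := cut_pm_012_a) (xt := Ext.none) (P1 := 0) (W1 := 536870912) (P2 := 0) (W2 := 536870912) (P3 := 649613803) (W3 := 48318383) (N0 := 3) (En := eng) (mo := mog) (C1 := cd1q0) (C2 := cd4q2a) (C3 := pd1)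
    rfl (fun _ => rfl) s4_pm_012_a

noncomputable def cut_pm_012_b : Cut := Cut.of [[⟨0, 0, 0, 67108864⟩, ⟨1, 1, 0, 67108864⟩, ⟨2, 1, 0, 67108864⟩]]

noncomputable def f_pm_012_b : ℕ → ℕ → ℕ → ℕ → Bool := onCell 536870912 536870912 1239849684 370763052 649613803 48318383
    (rowB 3 eng mog cd1q0 cd4q2b pd1 2 false true false .pnp 0 1 2 (qsf 0 536870912 1239849684 370763052 1) ndB1q0 ndB4q2b pcB1 cut_pm_012_b Ext.none)

def k0_pm_012_b : ∃ t, chk3 f_pm_012_b t 1 1 1 = true :=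
  ⟨(a (a (l 2) (b (b (a (l 16439688) (b (l 16389360) (l 16394744))) (a (l 2) (l 16429824))) (l 2))) (b (a (b (a (b (l 16343376) (l 16331696)) (a (b (l 16306624) (l 16280224)) (b (l 16288328) (l 16251264)))) (a (b (l 16336536) (l 16358528)) (b (a (l 16273184) (l 16236496)) (l 16263512)))) (b (a (a (b (l 16271456) (l 16222808)) (b (l 16275664) (l 16193456))) (a (b (a (l 16242120) (l 16233704)) (a (l 16170888) (l 16155712))) (b (a (l 16225208) (b (l 16243856) (l 16191040))) (a (l 16140392) (b (l 16145192) (l 16106208)))))) (a (b (a (l 16198544) (l 16158584)) (a (l 16196072) (l 16148936))) (a (b (l 16116568) (l 16097368)) (b (b (l 16084840) (l 16062264)) (a (l 16056496) (l 16028216))))))) (a (b (a (l 2) (b (l 16290872) (l 16330840))) (l 2)) (b (a (b (l 16187304) (l 16217808)) (b (a (l 16102400) (b (l 16038368) (l 16043856))) (a (l 16124712) (l 16057376)))) (a (l 16281440) (b (l 16122248) (l 16168432))))))), by decide +kernel⟩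

theorem c_pm_012_b : CertB 0 536870912 1239849684 370763052 649613803 48318383 3 eng mog cd1q0 cd4q2b pd1 false true false .pnp 0 1 2
    ndB1q0 ndB4q2b pcB1 cut_pm_012_b Ext.none :=
  certB2 (fam := false) (s1 := true) (s2 := false) (a := 0) (b := 1) (c := 2) (cn := .pnp) (n1 := ndB1q0) (n2 := ndB4q2b) (pc := pcB1) (cut := cut_pm_012_b) (xt := Ext.none) (P1 := 0) (W1 := 536870912) (P2 := 1239849684) (W2 := 370763052) (P3 := 649613803) (W3 := 48318383) (N0 := 3) (En := eng) (mo := mog) (C1 := cd1q0) (C2 := cd4q2b) (C3 := pd1)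
    rfl (fun _ => rfl) k0_pm_012_b

noncomputable def cut_pm_022_a : Cut := Cut.of [[⟨0, 0, 0, 67108864⟩, ⟨1, 1, 0, 67108864⟩, ⟨2, 1, 0, 67108864⟩]]

noncomputable def f_pm_022_a : ℕ → ℕ → ℕ → ℕ → Bool := onCell 1073741824 536870912 0 536870912 649613803 48318383
    (rowB 3 eng mog cd1q0 cd4q2a pd2 2 false true false .pp 0 2 2 (qsf 0 536870912 0 536870912 2) ndB1q0 ndB4q2a pcB2 cut_pm_022_a Ext.none)

def k0_pm_022_a : ∃ t, chk3 f_pm_022_a t 1 1 1 = true :=
  ⟨(a (b (a (a (b (a (b (a (l 16277048) (l 16299696)) (a (l 16288944) (l 16312520))) (b (l 16330000) (l 16364632))) (a (b (a (l 16314928) (l 16338784)) (a (b (l 16343928) (l 16368448)) (l 16379632))) (b (l 16433568) (a (l 16401784) (l 16423392))))) (b (a (b (l 16367104) (l 16382352)) (b (l 16423368) (a (l 16410096) (l 16428016)))) (a (b (l 16473944) (a (l 16444552) (l 16507976))) (b (a (l 16440488) (l 16459800)) (l 4))))) (a (b (a (b (a (l 16427024) (b (l 16439072) (l 4))) (a (l 16445352) (l 4)))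 (l 4)) (l 4)) (l 1))) (a (a (b (a (b (a (b (l 16396832) (l 16429744)) (l 16479152)) (a (b (l 16467760) (l 16532368)) (b (l 16492424) (l 16536576)))) (b (a (l 16481368) (b (l 16465616) (l 16500568))) (b (a (l 16516472) (a (l 16534864) (l 4))) (a (a (l 16555280) (l 16568400)) (l 4))))) (a (b (b (a (a (l 16554544) (l 16567600)) (a (l 16580440) (l 16614552))) (l 6)) (l 6)) (b (b (a (a (b (l 16593312) (l 4)) (l 4)) (l 4)) (l 4)) (l 4)))) (b (a (b (b (a (l 16488320) (l 4)) (l 4)) (l 4)) (l 4)) (l 4))) (b (l 1) (l 1)))) (l 1)), by decide +kernel⟩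

theorem c_pm_022_a : CertB 0 536870912 0 536870912 649613803 48318383 3 eng mog cd1q0 cd4q2a pd2 false true false .pp 0 2 2
    ndB1q0 ndB4q2a pcB2 cut_pm_022_a Ext.none :=
  certB2 (fam := false) (s1 := true) (s2 := false) (a := 0) (b := 2) (c := 2) (cn := .pp) (n1 := ndB1q0) (n2 := ndB4q2a) (pc := pcB2) (cut := cut_pm_022_a) (xt := Ext.none) (P1 := 0) (W1 := 536870912) (P2 := 0) (W2 := 536870912) (P3 := 649613803) (W3 := 48318383) (N0 := 3) (En := eng) (mo := mog) (C1 := cd1q0) (C2 := cd4q2a) (C3 := pd2)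
    rfl (fun _ => rfl) k0_pm_022_a

noncomputable def cut_pm_022_b : Cut := Cut.of [[⟨0, 0, 0, 67108864⟩, ⟨1, 1, 0, 67108864⟩, ⟨2, 1, 0, 67108864⟩]]

noncomputable def f_pm_022_b : ℕ → ℕ → ℕ → ℕ → Bool := onCell 1073741824 536870912 1239849684 370763052 649613803 48318383
    (rowB 3 eng mog cd1q0 cd4q2b pd2 2 false true false .pp 0 2 2 (qsf 0 536870912 1239849684 370763052 2) ndB1q0 ndB4q2b pcB2 cut_pm_022_b Ext.none)

def k0_pm_022_b : ∃ t, chk3 f_pm_022_b t 1 1 1 = true :=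
  ⟨(a (a (b (a (b (a (b (a (b (l 16244664) (l 16188944)) (l 16237112)) (a (b (l 16140112) (l 16098168)) (l 16136656))) (b (a (l 16320192) (l 16381184)) (a (l 16154520) (l 16171936)))) (a (b (a (l 16174360) (l 16063088)) (a (l 16008168) (l 16017912))) (b (a (l 16077632) (l 16092112)) (l 16033208)))) (b (b (a (a (l 16357384) (l 16311944)) (a (l 16328992) (l 16345512))) (a (a (l 16188792) (l 16205056)) (a (l 16220872) (l 16236312)))) (a (b (l 16113624) (l 16054608)) (b (l 16141024) (l 16076752))))) (b (a (b (a (l 16062032) (l 16009144)) (a (l 16008520) (l 16009352))) (b (a (l 16021600) (l 16036064)) (a (l 16012992) (l 16019328)))) (a (b (l 16027336) (l 16061408)) (b (l 16020832) (l 16040608))))) (b (a (b (a (b (a (l 16382224) (b (l 16405992) (l 16347160))) (l 16300856)) (b (l 4) (a (l 16280368) (l 4)))) (a (b (l 16166784) (l 16097992)) (a (b (l 16185288) (l 16111800)) (l 110292682951)))) (b (l 4) (l 4))) (a (b (a (b (l 16051728) (l 16027592)) (b (l 16066960)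 (l 16037432))) (a (l 16027472) (l 16029104))) (b (a (l 16145096) (l 176864495159)) (a (l 16032944) (l 16031832)))))) (b (a (b (l 1) (l 4)) (l 1)) (a (a (b (l 4) (a (l 16024336) (l 4))) (l 4)) (a (l 4) (b (l 1) (l 4)))))), by decide +kernel⟩

theorem c_pm_022_b : CertB 0 536870912 1239849684 370763052 649613803 48318383 3 eng mog cd1q0 cd4q2b pd2 false true false .pp 0 2 2
    ndB1q0 ndB4q2b pcB2 cut_pm_022_b Ext.none :=
  certB2 (fam := false) (s1 := true) (s2 := false) (a := 0) (b := 2) (c := 2) (cn := .pp) (n1 := ndB1q0) (n2 := ndB4q2b) (pc := pcB2) (cut := cut_pm_022_b) (xt := Ext.none) (P1 := 0) (W1 := 536870912) (P2 := 1239849684) (W2 := 370763052) (P3 := 649613803) (W3 := 48318383) (N0 := 3) (En := eng) (mo := mog) (C1 := cd1q0) (C2 := cd4q2b) (C3 := pd2)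
    rfl (fun _ => rfl) k0_pm_022_b

noncomputable def f_pm_023 : ℕ → ℕ → ℕ → ℕ → Bool := onCell 0 536870912 1073741824 536870912 649613803 48318383
    (rowB 3 eng mog cd1q0 cd4q3 pd2 1 false true false .up 0 2 3 (qsf 0 536870912 1610612736 536870912 2) ndB1q0 ndB4q3 pcB2 Cut.none Ext.none)

def k0_pm_023 : ∃ t, chk3 f_pm_023 t 1 1 1 = true :=
  ⟨(b (b (a (l 1) (a (b (l 1) (a (l 1) (l 16073560))) (b (a (l 234644909479) (l 16053216)) (a (l 16034792) (l 16084760))))) (a (a (l 1) (b (l 1) (a (l 1) (l 16025176)))) (a (b (a (l 265246768535) (l 16030552)) (l 16193824)) (b (a (l 16066728) (b (l 16112304) (l 16131720))) (a (l 16123368) (l 16170608)))))) (a (a (l 4) (b (a (l 4) (b (l 16006144) (l 4))) (l 4))) (b (a (b (a (l 16042632) (l 16108480)) (a (l 165590160983) (l 16121880))) (b (a (l 16164704) (l 16270560)) (a (l 16276712) (l 16389920)))) (a (b (a (l 16078120) (l 16278240)) (a (l 4) (l 16417624))) (b (a (l 16414360) (l 16506544)) (l 16564416)))))), by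 decide +kernel⟩

theorem c_pm_023 : CertB 0 536870912 1610612736 536870912 649613803 48318383 3 eng mog cd1q0 cd4q3 pd2 false true false .up 0 2 3
    ndB1q0 ndB4q3 pcB2 Cut.none Ext.none :=
  certB1 (fam := false) (s1 := true) (s2 := false) (a := 0) (b := 2) (c := 3) (cn := .up) (n1 := ndB1q0) (n2 := ndB4q3) (pc := pcB2) (cut := Cut.none) (xt := Ext.none) (P1 := 0) (W1 := 536870912) (P2 := 1610612736) (W2 := 536870912) (P3 := 649613803) (W3 := 48318383) (N0 := 3) (En := eng) (mo := mog) (C1 := cd1q0) (C2 := cd4q3) (C3 := pd2)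
    rfl (fun _ => rfl) k0_pm_023

noncomputable def f_pm_033 : ℕ → ℕ → ℕ → ℕ → Bool := onCell 0 536870912 1610612736 536870912 649613803 48318383
    (rowB 3 eng mog cd1q0 cd4q3 pd3 1 false true false .pnn 0 3 3 (qsf 0 536870912 1610612736 536870912 3) ndB1q0 ndB4q3 pcB3 Cut.none Ext.none)

def k0_pm_033 : ∃ t, chk3 f_pm_033 t 1 1 1 = true :=
  ⟨(a (b (b (l 4) (l 4)) (a (l 4) (b (l 4) (a (b (l 4) (l 2)) (l 2))))) (b (a (b (b (l 228941759671) (l 97944371463)) (b (l 16563816) (l 16755240))) (b (b (l 16625376) (l 16660376)) (a (b (l 16661856) (l 2)) (l 2)))) (a (b (a (b (l 16654824) (l 2)) (l 2)) (l 2)) (l 2)))), by decide +kernel⟩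

theorem c_pm_033 : CertB 0 536870912 1610612736 536870912 649613803 48318383 3 eng mog cd1q0 cd4q3 pd3 false true false .pnn 0 3 3
    ndB1q0 ndB4q3 pcB3 Cut.none Ext.none :=
  certB1 (fam := false) (s1 := true) (s2 := false) (a := 0) (b := 3) (c := 3) (cn := .pnn) (n1 := ndB1q0) (n2 := ndB4q3) (pc := pcB3) (cut := Cut.none) (xt := Ext.none) (P1 := 0) (W1 := 536870912) (P2 := 1610612736) (W2 := 536870912) (P3 := 649613803) (W3 := 48318383) (N0 := 3) (En := eng) (mo := mog) (C1 := cd1q0) (C2 := cd4q3) (C3 := pd3)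
    rfl (fun _ => rfl) k0_pm_033

noncomputable def f_pm_101 : ℕ → ℕ → ℕ → ℕ → Bool := onCell 536870912 536870912 536870912 536870912 649613803 48318383
    (rowB 3 eng mog cd1q1 cd4q1 pd0 0 false true false .npn 1 0 1 (qsf 536870912 536870912 536870912 536870912 0) ndB1q1 ndB4q1 pcB0 Cut.none Ext.none)

def k0_pm_101 : ∃ t, chk3 f_pm_101 t 1 1 1 = true :=
  ⟨(l 4), by decide +kernel⟩

theorem c_pm_101 : CertB 536870912 536870912 536870912 536870912 649613803 48318383 3 eng mog cd1q1 cd4q1 pd0 false true false .npn 1 0 1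
    ndB1q1 ndB4q1 pcB0 Cut.none Ext.none :=
  certB0 (fam := false) (s1 := true) (s2 := false) (a := 1) (b := 0) (c := 1) (cn := .npn) (n1 := ndB1q1) (n2 := ndB4q1) (pc := pcB0) (cut := Cut.none) (xt := Ext.none) (P1 := 536870912) (W1 := 536870912) (P2 := 536870912) (W2 := 536870912) (P3 := 649613803) (W3 := 48318383) (N0 := 3) (En := eng) (mo := mog) (C1 := cd1q1) (C2 := cd4q1) (C3 := pd0)
    rfl k0_pm_101

noncomputable def f_pm_102_a : ℕ → ℕ → ℕ → ℕ → Bool := onCell 0 536870912 0 536870912 649613803 48318383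
    (rowB 3 eng mog cd1q1 cd4q2a pd0 2 false true false .npp 1 0 2 (qsf 536870912 536870912 0 536870912 0) ndB1q1 ndB4q2a pcB0 Cut.none Ext.none)

def k0_pm_102_a : ∃ t, chk3 f_pm_102_a t 4 1 1 = true :=
  ⟨(b (a (l 2) (b (l 2) (a (l 2) (b (l 2) (a (l 2) (b (l 2) (a (l 2) (b (l 16621592) (l 16627688))))))))) (a (b (l 2) (b (a (l 2) (b (a (l 2) (b (l 2) (a (l 2) (l 16681392)))) (a (b (l 2) (a (l 16691448) (l 16695336))) (b (a (l 16689120) (l 16692904)) (l 16701912))))) (a (b (a (l 2) (b (a (l 2) (l 16698072)) (l 16728536))) (a (b (a (l 2) (l 16713120)) (b (l 16719880) (l 16725784))) (b (a (l 16716928) (l 16721576)) (l 16724656)))) (b (a (b (l 16704520) (l 16716472)) (l 16718176)) (b (l 16780264) (l 16729144)))))) (b (a (b (l 2) (a (a (l 2) (b (l 2) (b (l 16657448) (l 16667768)))) (b (b (a (l 2) (l 16647392)) (a (l 16651792) (l 16656416))) (b (a (l 16662176) (l 16666240)) (l 16674616))))) (b (b (a (a (l 2) (b (l 2) (l 16632792))) (a (b (l 16630136) (l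 16636472)) (l 16637240))) (a (a (b (l 2) (l 16643120)) (l 16643560)) (a (l 16647648) (l 16652904)))) (b (a (b (l 299674512103) (l 16663768)) (l 16669008)) (a (l 16679248) (l 16689472))))) (b (a (b (a (b (l 16676688) (a (l 16685968) (l 16690848))) (b (l 16685800) (l 16698152))) (a (l 16705408) (l 16712352))) (b (a (b (l 16695688) (l 16705872)) (l 16708232)) (l 16697248))) (a (b (a (l 16708400) (l 16705416)) (l 16726440)) (b (l 16704016) (l 16727808))))))), by decide +kernel⟩

def k1_pm_102_a : ∃ t, chk3 f_pm_102_a t 5 1 1 = true :=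
  ⟨(b (a (b (a (a (l 2) (b (a (l 2) (b (l 290547521111) (l 329202300583))) (a (a (l 2) (l 675484015239)) (b (l 282494506167) (l 16604784))))) (a (b (a (a (b (l 16601280) (l 16603040)) (b (l 16604992) (l 16604016))) (l 16606432)) (b (l 16605896) (a (l 16607592) (l 16611520)))) (b (l 16611216) (b (l 16613936) (l 16618272))))) (a (b (a (a (l 2) (b (l 16605080) (l 16610936))) (b (a (l 16606912) (l 16609464)) (a (l 16613464) (l 16617408)))) (a (b (a (l 16616464) (l 16619680)) (a (l 16627760) (l 16630856))) (b (a (l 16623024) (l 16627128)) (l 16637192)))) (b (a (b (l 16615720) (l 16623704)) (l 16629816)) (a (b (l 16634520) (l 16647696)) (l 16652712))))) (b (a (b (a (l 16620480) (l 16630944)) (l 16632312)) (b (l 16669384) (a (l 16649960) (l 16661600)))) (a (b (a (l 16640920) (l 16653160)) (l 16690600)) (b (l 16711536) (l 16683928))))) (b (a (b (a (a (b (l 16663408) (l 16660304)) (b (l 16652720) (l 16669808))) (a (l 16672088) (l 16681672))) (a (b (l 16683792)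 (l 16763760)) (b (l 16697672) (l 16732272)))) (a (b (l 16690968) (l 16770240)) (b (l 16680272) (l 16815728)))) (a (b (a (b (l 16694816) (l 16686784)) (b (l 16673296) (l 16681112))) (a (b (l 16702592) (l 16770288)) (b (l 16699328) (a (l 16727184) (l 16723704))))) (b (a (l 16667872) (l 16760368)) (a (b (l 16691608) (a (l 16719328) (l 16711336))) (b (l 16694848) (a (l 16697784) (l 16677704)))))))), by decide +kernel⟩

def k2_pm_102_a : ∃ t, chk3 f_pm_102_a t 3 1 1 = true :=
  ⟨(a (a (b (b (a (b (l 16670696) (l 16674984)) (l 16683984)) (a (l 16682344) (l 16662504))) (b (b (a (l 16632608) (l 16602424)) (a (l 16625000) (l 16590752))) (b (a (l 16626440) (l 16583256)) (a (b (l 16633944) (a (l 16655024) (l 16630640))) (b (l 16584736) (a (l 16604568) (l 16576800))))))) (b (b (a (l 16678056) (l 16653728)) (a (l 16616384) (l 16565472))) (b (a (b (l 16566744) (l 16546752)) (b (l 16526712) (l 16505456))) (a (b (a (l 16545384) (l 16522936)) (a (b (l 16543624) (l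 16547288)) (b (l 16521304) (a (l 16527472) (l 16522656))))) (b (l 16473256) (a (b (l 16505496) (l 16511408)) (l 16482128))))))) (b (a (b (l 16601920) (b (l 16525880) (l 16495224))) (b (l 16533312) (l 16414320))) (a (b (a (l 16475664) (l 16421248)) (a (b (l 16441936) (a (l 16449320) (l 16423096))) (b (l 16375288) (a (l 16402824) (l 16375184))))) (b (l 16428936) (b (l 16344248) (a (l 16427760) (l 16363024))))))), by decide +kernel⟩

theorem s3_pm_102_a : ∃ t, chk3 f_pm_102_a t 2 1 1 = true := ex3_a k0_pm_102_a k1_pm_102_a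

theorem s4_pm_102_a : ∃ t, chk3 f_pm_102_a t 1 1 1 = true := ex3_a s3_pm_102_a k2_pm_102_a

theorem c_pm_102_a : CertB 536870912 536870912 0 536870912 649613803 48318383 3 eng mog cd1q1 cd4q2a pd0 false true false .npp 1 0 2
    ndB1q1 ndB4q2a pcB0 Cut.none Ext.none :=
  certB2 (fam := false) (s1 := true) (s2 := false) (a := 1) (b := 0) (c := 2) (cn := .npp) (n1 := ndB1q1) (n2 := ndB4q2a) (pc := pcB0) (cut := Cut.none) (xt := Ext.none) (P1 := 536870912) (W1 := 536870912) (P2 := 0) (W2 := 536870912) (P3 := 649613803) (W3 := 48318383) (N0 := 3) (En := eng) (mo := mog) (C1 := cd1q1) (C2 := cd4q2a) (C3 := pd0)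
    rfl (fun _ => rfl) s4_pm_102_a

noncomputable def f_pm_102_b : ℕ → ℕ → ℕ → ℕ → Bool := onCell 536870912 536870912 1239849684 370763052 649613803 48318383
    (rowB 3 eng mog cd1q1 cd4q2b pd0 0 false true false .npp 1 0 2 (qsf 536870912 536870912 1239849684 370763052 0) ndB1q1 ndB4q2b pcB0 Cut.none Ext.none)

def k0_pm_102_b : ∃ t, chk3 f_pm_102_b t 1 1 1 = true :=
  ⟨(a (b (a (l 2) (b (a (l 16601104) (l 16639560)) (a (l 2) (l 16658488)))) (l 2)) (b (a (b (a (b (a (l 16661320) (l 16677304)) (l 16666304)) (b (a (l 16679072) (l 16919904)) (a (l 16656672) (l 16678096)))) (a (l 16653896) (a (l 16627616) (l 16723752)))) (a (b (a (b (l 16856856) (l 16609152)) (b (a (l 16628680) (l 16616112)) (l 16579808))) (a (l 16668448) (b (l 16543592) (l 16513840)))) (b (a (b (a (l 16646096) (b (l 16606144) (l 16602168))) (a (l 16558680) (a (l 16549064) (l 16543232)))) (a (b (l 16584864) (l 16535520)) (b (a (a (l 16580776) (l 16579592)) (a (l 16620376) (b (l 16586256)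 (l 16563584)))) (a (b (l 16541720) (l 16517344)) (b (l 16538888) (l 16513912)))))) (a (a (b (l 16519304) (l 16486640)) (b (l 16504744) (l 16470168))) (a (b (l 16491920) (l 16455392)) (a (b (b (l 16494520) (l 16473536)) (l 16445584)) (b (b (l 16490392) (l 16468816)) (b (l 16449240) (l 16431608))))))))) (a (b (a (l 2) (a (l 16611896) (l 16572424))) (l 2)) (a (b (a (l 16528712) (b (l 16490440) (l 16477912))) (a (l 2) (l 16491696))) (b (a (b (l 16451224) (l 16433072)) (a (b (l 16425200) (l 16402680)) (b (a (l 16435240) (b (l 16415776) (l 16400976))) (a (l 16410864) (b (l 16387552) (l 16378304)))))) (a (l 16434952) (a (l 16394280) (b (a (l 16378088) (l 16368288)) (a (l 16375960) (l 16363624)))))))))), by decide +kernel⟩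

theorem c_pm_102_b : CertB 536870912 536870912 1239849684 370763052 649613803 48318383 3 eng mog cd1q1 cd4q2b pd0 false true false .npp 1 0 2
    ndB1q1 ndB4q2b pcB0 Cut.none Ext.none :=
  certB0 (fam := false) (s1 := true) (s2 := false) (a := 1) (b := 0) (c := 2) (cn := .npp) (n1 := ndB1q1) (n2 := ndB4q2b) (pc := pcB0) (cut := Cut.none) (xt := Ext.none) (P1 := 536870912) (W1 := 536870912) (P2 := 1239849684) (W2 := 370763052) (P3 := 649613803) (W3 := 48318383) (N0 := 3) (En := eng) (mo := mog) (C1 := cd1q1) (C2 := cd4q2b) (C3 := pd0)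
    rfl k0_pm_102_b

noncomputable def f_pm_112_a : ℕ → ℕ → ℕ → ℕ → Bool := onCell 536870912 536870912 0 536870912 649613803 48318383
    (rowB 3 eng mog cd1q1 cd4q2a pd1 2 false true false .dn 1 1 2 (qsf 536870912 536870912 0 536870912 1) ndB1q1 ndB4q2a pcB1 Cut.none Ext.none)

def k0_pm_112_a : ∃ t, chk3 f_pm_112_a t 1 1 1 = true :=
  ⟨(a (b (a (b (a (l 16459320) (l 16430624)) (a (l 16398824) (l 16382512))) (a (b (l 16404632) (l 16370888)) (l 1))) (a (b (a (l 16397800) (l 16472552)) (b (a (l 16297752) (l 16362504)) (a (l 26339297511) (l 1)))) (b (l 1) (l 1)))) (l 1)), by decide +kernel⟩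

theorem c_pm_112_a : CertB 536870912 536870912 0 536870912 649613803 48318383 3 eng mog cd1q1 cd4q2a pd1 false true false .dn 1 1 2
    ndB1q1 ndB4q2a pcB1 Cut.none Ext.none :=
  certB2 (fam := false) (s1 := true) (s2 := false) (a := 1) (b := 1) (c := 2) (cn := .dn) (n1 := ndB1q1) (n2 := ndB4q2a) (pc := pcB1) (cut := Cut.none) (xt := Ext.none) (P1 := 536870912) (W1 := 536870912) (P2 := 0) (W2 := 536870912) (P3 := 649613803) (W3 := 48318383) (N0 := 3) (En := eng) (mo := mog) (C1 := cd1q1) (C2 := cd4q2a) (C3 := pd1)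
    rfl (fun _ => rfl) k0_pm_112_a

noncomputable def f_pm_112_b : ℕ → ℕ → ℕ → ℕ → Bool := onCell 536870912 536870912 1239849684 370763052 649613803 48318383
    (rowB 3 eng mog cd1q1 cd4q2b pd1 0 false true false .dn 1 1 2 (qsf 536870912 536870912 1239849684 370763052 1) ndB1q1 ndB4q2b pcB1 Cut.none Ext.none)

def k0_pm_112_b : ∃ t, chk3 f_pm_112_b t 1 1 1 = true :=
  ⟨(a (b (a (b (a (l 16433088) (l 16482304)) (a (l 16387672) (l 16468408))) (b (a (l 16527888) (l 16565592)) (a (l 16538832) (l 16591808)))) (a (b (a (b (l 16343544) (l 16314288)) (l 16565440)) (a (l 16262864) (b (l 16411216) (l 16396304)))) (b (a (l 16538328) (l 16610712)) (a (l 16538688) (l 16650656))))) (a (b (b (l 1) (a (l 16616104) (l 230351322679))) (a (b (l 16641144) (l 16708560)) (b (l 16695152) (l 16680384)))) (b (l 1) (a (a (b (l 16559864) (l 16605200)) (b (l 344704533191) (l 16541216))) (b (l 1) (a (l 16519176) (a (l 16427992) (b (l 1) (a (l 16403648) (l 16382712)))))))))),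 by decide +kernel⟩

theorem c_pm_112_b : CertB 536870912 536870912 1239849684 370763052 649613803 48318383 3 eng mog cd1q1 cd4q2b pd1 false true false .dn 1 1 2
    ndB1q1 ndB4q2b pcB1 Cut.none Ext.none :=
  certB0 (fam := false) (s1 := true) (s2 := false) (a := 1) (b := 1) (c := 2) (cn := .dn) (n1 := ndB1q1) (n2 := ndB4q2b) (pc := pcB1) (cut := Cut.none) (xt := Ext.none) (P1 := 536870912) (W1 := 536870912) (P2 := 1239849684) (W2 := 370763052) (P3 := 649613803) (W3 := 48318383) (N0 := 3) (En := eng) (mo := mog) (C1 := cd1q1) (C2 := cd4q2b) (C3 := pd1)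
    rfl k0_pm_112_b

noncomputable def f_pm_113 : ℕ → ℕ → ℕ → ℕ → Bool := onCell 536870912 536870912 536870912 536870912 649613803 48318383
    (rowB 3 eng mog cd1q1 cd4q3 pd1 1 false true false .nn 1 1 3 (qsf 536870912 536870912 1610612736 536870912 1) ndB1q1 ndB4q3 pcB1 Cut.none Ext.none)

def k0_pm_113 : ∃ t, chk3 f_pm_113 t 1 1 1 = true :=
  ⟨(b (a (a (l 1) (b (l 1) (b (l 1) (l 16571000)))) (b (a (a (l 1) (b (l 1) (l 16672544))) (a (a (l 16627136) (b (l 16568176) (l 16648400))) (b (a (l 16527296) (a (l 16485456) (b (b (l 16436760) (l 16446928)) (l 16468536)))) (a (l 16612232) (a (l 16571424) (b (l 16511424) (l 16572208))))))) (a (a (b (l 16686512) (l 16758960)) (l 16833824)) (a (b (a (l 16802072) (l 16800384)) (a (l 17021208) (b (l 16926704) (l 16963656)))) (b (a (b (l 16725384) (l 16796232)) (a (b (l 16684896) (l 16730816)) (b (c (l 16663304) (l 16613064)) (b (l 16679512) (l 16712912))))) (a (b (l 16839264) (l 16888736)) (a (l 16815600) (b (l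 16758632) (l 16807944))))))))) (a (b (a (b (l 1) (a (l 1) (l 16380448))) (b (l 16577624) (a (l 16507120) (l 16715616)))) (a (a (b (l 16250376) (l 16189744)) (b (l 16349952) (l 16325912))) (a (b (l 16523176) (a (l 16486600) (l 16550416))) (b (a (l 16652920) (l 16702224)) (b (l 16633016) (l 16591376)))))) (b (a (a (b (l 16869160) (a (l 16798976) (l 16796432))) (b (a (l 16969896) (l 17035832)) (a (l 16858432) (l 16913088)))) (a (b (a (l 17091624) (l 17028600)) (a (l 16942912) (b (l 17006952) (l 16942912)))) (b (a (b (l 16931464) (l 16962416)) (a (b (l 16878920) (l 16902672)) (b (l 16718216) (l 16862224)))) (a (b (l 16982328) (l 16973944)) (a (l 16921648) (b (l 16877624) (l 16885288))))))) (a (a (b (a (l 16739128) (l 16758712)) (b (l 16667480) (l 16634728))) (b (c (l 16747960) (l 16538648)) (a (l 16718664) (l 16752720)))) (a (b (a (l 16844656) (l 16872192)) (l 16873592)) (b (a (l 16892496) (a (l 16903560) (l 16876032))) (a (l 16809880) (a (l 16813616)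 (l 16897840))))))))), by decide +kernel⟩

theorem c_pm_113 : CertB 536870912 536870912 1610612736 536870912 649613803 48318383 3 eng mog cd1q1 cd4q3 pd1 false true false .nn 1 1 3
    ndB1q1 ndB4q3 pcB1 Cut.none Ext.none :=
  certB1 (fam := false) (s1 := true) (s2 := false) (a := 1) (b := 1) (c := 3) (cn := .nn) (n1 := ndB1q1) (n2 := ndB4q3) (pc := pcB1) (cut := Cut.none) (xt := Ext.none) (P1 := 536870912) (W1 := 536870912) (P2 := 1610612736) (W2 := 536870912) (P3 := 649613803) (W3 := 48318383) (N0 := 3) (En := eng) (mo := mog) (C1 := cd1q1) (C2 := cd4q3) (C3 := pd1)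
    rfl (fun _ => rfl) k0_pm_113

noncomputable def f_pm_123 : ℕ → ℕ → ℕ → ℕ → Bool := onCell 1073741824 536870912 1610612736 536870912 649613803 48318383
    (rowB 3 eng mog cd1q1 cd4q3 pd2 2 false true false .npn 1 2 3 (qsf 536870912 536870912 1610612736 536870912 2) ndB1q1 ndB4q3 pcB2 Cut.none Ext.none)

def k0_pm_123 : ∃ t, chk3 f_pm_123 t 1 1 1 = true :=
  ⟨(a (b (a (b (a (b (a (l 16134952) (l 16110320)) (a (l 16270968) (l 16211664))) (b (l 16101376) (l 16163216))) (a (b (b (l 16388192) (l 16438768)) (b (l 16474352) (l 16489520))) (b (b (l 16244520) (l 16302288)) (l 16352840)))) (b (a (b (l 1) (l 16145504)) (l 1)) (a (b (a (l 16208528) (l 16192160)) (a (l 16279328) (l 16248784))) (b (l 16215696) (l 16252176))))) (a (b (b (a (b (l 16553672) (l 16591640)) (b (l 16401480) (l 16443216))) (a (a (l 16679528) (l 16604328)) (b (l 16485104) (l 16517912)))) (a (b (a (l 16716680) (l 16658664)) (b (l 16798312) (a (l 16752432) (l 16713592)))) (b (a (l 16597744)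 (l 16540592)) (b (l 16741088) (l 16655648))))) (b (a (a (b (l 16347040) (l 16418672)) (b (l 16317672) (l 16386848))) (b (l 16306856) (l 16407360))) (a (b (a (l 16488792) (l 16452592)) (a (a (l 16582384) (l 16560360)) (l 16537672))) (b (l 16475120) (l 16553304)))))) (b (a (b (l 1) (a (l 224981418359) (l 1))) (l 1)) (a (b (a (b (l 16347104) (l 16429752)) (b (l 16377240) (l 16456040))) (a (b (l 16506808) (l 16580992)) (b (l 16529144) (l 16606968)))) (b (a (b (l 1) (l 16495040)) (l 1)) (a (l 16774728) (l 16623096)))))), by decide +kernel⟩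

theorem c_pm_123 : CertB 536870912 536870912 1610612736 536870912 649613803 48318383 3 eng mog cd1q1 cd4q3 pd2 false true false .npn 1 2 3
    ndB1q1 ndB4q3 pcB2 Cut.none Ext.none :=
  certB2 (fam := false) (s1 := true) (s2 := false) (a := 1) (b := 2) (c := 3) (cn := .npn) (n1 := ndB1q1) (n2 := ndB4q3) (pc := pcB2) (cut := Cut.none) (xt := Ext.none) (P1 := 536870912) (W1 := 536870912) (P2 := 1610612736) (W2 := 536870912) (P3 := 649613803) (W3 := 48318383) (N0 := 3) (En := eng) (mo := mog) (C1 := cd1q1) (C2 := cd4q3) (C3 := pd2)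
    rfl (fun _ => rfl) k0_pm_123

noncomputable def f_pm_133 : ℕ → ℕ → ℕ → ℕ → Bool := onCell 1610612736 536870912 1610612736 536870912 649613803 48318383
    (rowB 3 eng mog cd1q1 cd4q3 pd3 2 false true false .dn 1 3 3 (qsf 536870912 536870912 1610612736 536870912 3) ndB1q1 ndB4q3 pcB3 Cut.none Ext.none)

def k0_pm_133 : ∃ t, chk3 f_pm_133 t 1 1 1 = true :=
  ⟨(a (b (l 1) (a (b (l 1) (a (l 16635624) (l 1))) (l 1))) (l 1)), by decide +kernel⟩

theorem c_pm_133 : CertB 536870912 536870912 1610612736 536870912 649613803 48318383 3 eng mog cd1q1 cd4q3 pd3 false true false .dn 1 3 3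
    ndB1q1 ndB4q3 pcB3 Cut.none Ext.none :=
  certB2 (fam := false) (s1 := true) (s2 := false) (a := 1) (b := 3) (c := 3) (cn := .dn) (n1 := ndB1q1) (n2 := ndB4q3) (pc := pcB3) (cut := Cut.none) (xt := Ext.none) (P1 := 536870912) (W1 := 536870912) (P2 := 1610612736) (W2 := 536870912) (P3 := 649613803) (W3 := 48318383) (N0 := 3) (En := eng) (mo := mog) (C1 := cd1q1) (C2 := cd4q3) (C3 := pd3)
    rfl (fun _ => rfl) k0_pm_133

noncomputable def cut_pm_202_aa : Cut := Cut.of [[⟨0, 1, 0, 67108864⟩, ⟨1, 0, 0, 67108864⟩, ⟨2, 1, 0, 67108864⟩]]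

noncomputable def f_pm_202_aa : ℕ → ℕ → ℕ → ℕ → Bool := onCell 0 536870912 0 536870912 649613803 48318383
    (rowB 3 eng mog cd1q2a cd4q2a pd0 0 false true false .pp 2 0 2 (qsf 0 536870912 0 536870912 0) ndB1q2a ndB4q2a pcB0 cut_pm_202_aa Ext.none)

def k0_pm_202_aa : ∃ t, chk3 f_pm_202_aa t 1 1 1 = true :=
  ⟨(a (l 3) (b (l 3) (a (l 3) (b (l 3) (a (l 3) (b (l 3) (l 6))))))), by decide +kernel⟩

theorem c_pm_202_aa : CertB 0 536870912 0 536870912 649613803 48318383 3 eng mog cd1q2a cd4q2a pd0 false true false .pp 2 0 2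
    ndB1q2a ndB4q2a pcB0 cut_pm_202_aa Ext.none :=
  certB0 (fam := false) (s1 := true) (s2 := false) (a := 2) (b := 0) (c := 2) (cn := .pp) (n1 := ndB1q2a) (n2 := ndB4q2a) (pc := pcB0) (cut := cut_pm_202_aa) (xt := Ext.none) (P1 := 0) (W1 := 536870912) (P2 := 0) (W2 := 536870912) (P3 := 649613803) (W3 := 48318383) (N0 := 3) (En := eng) (mo := mog) (C1 := cd1q2a) (C2 := cd4q2a) (C3 := pd0)
    rfl k0_pm_202_aa

noncomputable def cut_pm_202_ab : Cut := Cut.of [[⟨0, 1, 0, 67108864⟩, ⟨1, 0, 0, 67108864⟩, ⟨2, 1, 0, 67108864⟩]]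

noncomputable def f_pm_202_ab : ℕ → ℕ → ℕ → ℕ → Bool := onCell 0 536870912 1239849684 370763052 649613803 48318383
    (rowB 3 eng mog cd1q2a cd4q2b pd0 0 false true false .pp 2 0 2 (qsf 0 536870912 1239849684 370763052 0) ndB1q2a ndB4q2b pcB0 cut_pm_202_ab Ext.none)

def k0_pm_202_ab : ∃ t, chk3 f_pm_202_ab t 1 1 1 = true :=
  ⟨(l 3), by decide +kernel⟩

theorem c_pm_202_ab : CertB 0 536870912 1239849684 370763052 649613803 48318383 3 eng mog cd1q2a cd4q2b pd0 false true false .pp 2 0 2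
    ndB1q2a ndB4q2b pcB0 cut_pm_202_ab Ext.none :=
  certB0 (fam := false) (s1 := true) (s2 := false) (a := 2) (b := 0) (c := 2) (cn := .pp) (n1 := ndB1q2a) (n2 := ndB4q2b) (pc := pcB0) (cut := cut_pm_202_ab) (xt := Ext.none) (P1 := 0) (W1 := 536870912) (P2 := 1239849684) (W2 := 370763052) (P3 := 649613803) (W3 := 48318383) (N0 := 3) (En := eng) (mo := mog) (C1 := cd1q2a) (C2 := cd4q2b) (C3 := pd0)
    rfl k0_pm_202_ab

noncomputable def cut_pm_202_ba : Cut := Cut.of [[⟨0, 1, 0, 67108864⟩, ⟨1, 0, 0, 67108864⟩, ⟨2, 1, 0, 67108864⟩]]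

noncomputable def f_pm_202_ba : ℕ → ℕ → ℕ → ℕ → Bool := onCell 1239849684 370763052 0 536870912 649613803 48318383
    (rowB 3 eng mog cd1q2b cd4q2a pd0 0 false true false .pp 2 0 2 (qsf 1239849684 370763052 0 536870912 0) ndB1q2b ndB4q2a pcB0 cut_pm_202_ba Ext.none)

def k0_pm_202_ba : ∃ t, chk3 f_pm_202_ba t 1 1 1 = true :=
  ⟨(l 3), by decide +kernel⟩

theorem c_pm_202_ba : CertB 1239849684 370763052 0 536870912 649613803 48318383 3 eng mog cd1q2b cd4q2a pd0 false true false .pp 2 0 2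
    ndB1q2b ndB4q2a pcB0 cut_pm_202_ba Ext.none :=
  certB0 (fam := false) (s1 := true) (s2 := false) (a := 2) (b := 0) (c := 2) (cn := .pp) (n1 := ndB1q2b) (n2 := ndB4q2a) (pc := pcB0) (cut := cut_pm_202_ba) (xt := Ext.none) (P1 := 1239849684) (W1 := 370763052) (P2 := 0) (W2 := 536870912) (P3 := 649613803) (W3 := 48318383) (N0 := 3) (En := eng) (mo := mog) (C1 := cd1q2b) (C2 := cd4q2a) (C3 := pd0)
    rfl k0_pm_202_ba

noncomputable def cut_pm_202_bb : Cut := Cut.of [[⟨0, 1, 0, 67108864⟩, ⟨1, 0, 0, 67108864⟩, ⟨2, 1, 0, 67108864⟩]]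

noncomputable def f_pm_202_bb : ℕ → ℕ → ℕ → ℕ → Bool := onCell 1239849684 370763052 1239849684 370763052 649613803 48318383
    (rowB 3 eng mog cd1q2b cd4q2b pd0 0 false true false .pp 2 0 2 (qsf 1239849684 370763052 1239849684 370763052 0) ndB1q2b ndB4q2b pcB0 cut_pm_202_bb Ext.none)

def k0_pm_202_bb : ∃ t, chk3 f_pm_202_bb t 1 1 1 = true :=
  ⟨(l 3), by decide +kernel⟩

theorem c_pm_202_bb : CertB 1239849684 370763052 1239849684 370763052 649613803 48318383 3 eng mog cd1q2b cd4q2b pd0 false true false .pp 2 0 2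
    ndB1q2b ndB4q2b pcB0 cut_pm_202_bb Ext.none :=
  certB0 (fam := false) (s1 := true) (s2 := false) (a := 2) (b := 0) (c := 2) (cn := .pp) (n1 := ndB1q2b) (n2 := ndB4q2b) (pc := pcB0) (cut := cut_pm_202_bb) (xt := Ext.none) (P1 := 1239849684) (W1 := 370763052) (P2 := 1239849684) (W2 := 370763052) (P3 := 649613803) (W3 := 48318383) (N0 := 3) (En := eng) (mo := mog) (C1 := cd1q2b) (C2 := cd4q2b) (C3 := pd0)
    rfl k0_pm_202_bb

noncomputable def f_pm_203_a : ℕ → ℕ → ℕ → ℕ → Bool := onCell 0 536870912 0 536870912 649613803 48318383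
    (rowB 3 eng mog cd1q2a cd4q3 pd0 1 false true false .up 2 0 3 (qsf 0 536870912 1610612736 536870912 0) ndB1q2a ndB4q3 pcB0 Cut.none Ext.none)

def k0_pm_203_a : ∃ t, chk3 f_pm_203_a t 1 1 1 = true :=
  ⟨(b (l 1) (l 3)), by decide +kernel⟩

theorem c_pm_203_a : CertB 0 536870912 1610612736 536870912 649613803 48318383 3 eng mog cd1q2a cd4q3 pd0 false true false .up 2 0 3
    ndB1q2a ndB4q3 pcB0 Cut.none Ext.none :=
  certB1 (fam := false) (s1 := true) (s2 := false) (a := 2) (b := 0) (c := 3) (cn := .up) (n1 := ndB1q2a) (n2 := ndB4q3) (pc := pcB0) (cut := Cut.none) (xt := Ext.none) (P1 := 0) (W1 := 536870912) (P2 := 1610612736) (W2 := 536870912) (P3 := 649613803) (W3 := 48318383) (N0 := 3) (En := eng) (mo := mog) (C1 := cd1q2a) (C2 := cd4q3) (C3 := pd0)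
    rfl (fun _ => rfl) k0_pm_203_a

noncomputable def f_pm_203_b : ℕ → ℕ → ℕ → ℕ → Bool := onCell 1239849684 370763052 1610612736 536870912 649613803 48318383
    (rowB 3 eng mog cd1q2b cd4q3 pd0 0 false true false .up 2 0 3 (qsf 1239849684 370763052 1610612736 536870912 0) ndB1q2b ndB4q3 pcB0 Cut.none Ext.none)

def k0_pm_203_b : ∃ t, chk3 f_pm_203_b t 1 1 1 = true :=
  ⟨(l 3), by decide +kernel⟩

theorem c_pm_203_b : CertB 1239849684 370763052 1610612736 536870912 649613803 48318383 3 eng mog cd1q2b cd4q3 pd0 false true false .up 2 0 3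
    ndB1q2b ndB4q3 pcB0 Cut.none Ext.none :=
  certB0 (fam := false) (s1 := true) (s2 := false) (a := 2) (b := 0) (c := 3) (cn := .up) (n1 := ndB1q2b) (n2 := ndB4q3) (pc := pcB0) (cut := Cut.none) (xt := Ext.none) (P1 := 1239849684) (W1 := 370763052) (P2 := 1610612736) (W2 := 536870912) (P3 := 649613803) (W3 := 48318383) (N0 := 3) (En := eng) (mo := mog) (C1 := cd1q2b) (C2 := cd4q3) (C3 := pd0)
    rfl k0_pm_203_b

noncomputable def cut_pm_213_a : Cut := Cut.of [[⟨0, 1, 0, 67108864⟩, ⟨1, 1, 0, 67108864⟩, ⟨2, 2, 0, 16777216⟩]]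

noncomputable def f_pm_213_a : ℕ → ℕ → ℕ → ℕ → Bool := onCell 0 536870912 1610612736 536870912 649613803 48318383
    (rowB 3 eng mog cd1q2a cd4q3 pd1 0 false true false .pnn 2 1 3 (qsf 0 536870912 1610612736 536870912 1) ndB1q2a ndB4q3 pcB1 cut_pm_213_a Ext.none)

def k0_pm_213_a : ∃ t, chk3 f_pm_213_a t 1 1 1 = true :=
  ⟨(a (l 3) (a (l 3) (b (l 3) (b (l 3) (b (l 3) (b (l 3) (a (l 3) (b (l 3) (b (l 3) (l 6)))))))))), by decide +kernel⟩

theorem c_pm_213_a : CertB 0 536870912 1610612736 536870912 649613803 48318383 3 eng mog cd1q2a cd4q3 pd1 false true false .pnn 2 1 3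
    ndB1q2a ndB4q3 pcB1 cut_pm_213_a Ext.none :=
  certB0 (fam := false) (s1 := true) (s2 := false) (a := 2) (b := 1) (c := 3) (cn := .pnn) (n1 := ndB1q2a) (n2 := ndB4q3) (pc := pcB1) (cut := cut_pm_213_a) (xt := Ext.none) (P1 := 0) (W1 := 536870912) (P2 := 1610612736) (W2 := 536870912) (P3 := 649613803) (W3 := 48318383) (N0 := 3) (En := eng) (mo := mog) (C1 := cd1q2a) (C2 := cd4q3) (C3 := pd1)
    rfl k0_pm_213_a

noncomputable def cut_pm_213_b : Cut := Cut.of [[⟨0, 1, 0, 67108864⟩, ⟨1, 1, 0, 67108864⟩, ⟨2, 2, 0, 16777216⟩]]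

noncomputable def f_pm_213_b : ℕ → ℕ → ℕ → ℕ → Bool := onCell 1239849684 370763052 1610612736 536870912 649613803 48318383
    (rowB 3 eng mog cd1q2b cd4q3 pd1 0 false true false .pnn 2 1 3 (qsf 1239849684 370763052 1610612736 536870912 1) ndB1q2b ndB4q3 pcB1 cut_pm_213_b Ext.none)

def k0_pm_213_b : ∃ t, chk3 f_pm_213_b t 1 1 1 = true :=
  ⟨(l 3), by decide +kernel⟩

theorem c_pm_213_b : CertB 1239849684 370763052 1610612736 536870912 649613803 48318383 3 eng mog cd1q2b cd4q3 pd1 false true false .pnn 2 1 3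
    ndB1q2b ndB4q3 pcB1 cut_pm_213_b Ext.none :=
  certB0 (fam := false) (s1 := true) (s2 := false) (a := 2) (b := 1) (c := 3) (cn := .pnn) (n1 := ndB1q2b) (n2 := ndB4q3) (pc := pcB1) (cut := cut_pm_213_b) (xt := Ext.none) (P1 := 1239849684) (W1 := 370763052) (P2 := 1610612736) (W2 := 536870912) (P3 := 649613803) (W3 := 48318383) (N0 := 3) (En := eng) (mo := mog) (C1 := cd1q2b) (C2 := cd4q3) (C3 := pd1)
    rfl k0_pm_213_b

noncomputable def f_pm_303 : ℕ → ℕ → ℕ → ℕ → Bool := onCell 1610612736 536870912 1610612736 536870912 649613803 48318383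
    (rowB 3 eng mog cd1q3 cd4q3 pd0 0 false true false .npn 3 0 3 (qsf 1610612736 536870912 1610612736 536870912 0) ndB1q3 ndB4q3 pcB0 Cut.none Ext.none)

def k0_pm_303 : ∃ t, chk3 f_pm_303 t 1 1 1 = true :=
  ⟨(l 3), by decide +kernel⟩

theorem c_pm_303 : CertB 1610612736 536870912 1610612736 536870912 649613803 48318383 3 eng mog cd1q3 cd4q3 pd0 false true false .npn 3 0 3
    ndB1q3 ndB4q3 pcB0 Cut.none Ext.none :=
  certB0 (fam := false) (s1 := true) (s2 := false) (a := 3) (b := 0) (c := 3) (cn := .npn) (n1 := ndB1q3) (n2 := ndB4q3) (pc := pcB0) (cut := Cut.none) (xt := Ext.none) (P1 := 1610612736) (W1 := 536870912) (P2 := 1610612736) (W2 := 536870912) (P3 := 649613803) (W3 := 48318383) (N0 := 3) (En := eng) (mo := mog) (C1 := cd1q3) (C2 := cd4q3) (C3 := pd0)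
    rfl k0_pm_303

noncomputable def f_pm_313 : ℕ → ℕ → ℕ → ℕ → Bool := onCell 1610612736 536870912 1610612736 536870912 649613803 48318383
    (rowB 3 eng mog cd1q3 cd4q3 pd1 0 false true false .dn 3 1 3 (qsf 1610612736 536870912 1610612736 536870912 1) ndB1q3 ndB4q3 pcB1 Cut.none Ext.none)

def k0_pm_313 : ∃ t, chk3 f_pm_313 t 1 1 1 = true :=
  ⟨(l 3), by decide +kernel⟩

theorem c_pm_313 : CertB 1610612736 536870912 1610612736 536870912 649613803 48318383 3 eng mog cd1q3 cd4q3 pd1 false true false .dn 3 1 3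
    ndB1q3 ndB4q3 pcB1 Cut.none Ext.none :=
  certB0 (fam := false) (s1 := true) (s2 := false) (a := 3) (b := 1) (c := 3) (cn := .dn) (n1 := ndB1q3) (n2 := ndB4q3) (pc := pcB1) (cut := Cut.none) (xt := Ext.none) (P1 := 1610612736) (W1 := 536870912) (P2 := 1610612736) (W2 := 536870912) (P3 := 649613803) (W3 := 48318383) (N0 := 3) (En := eng) (mo := mog) (C1 := cd1q3) (C2 := cd4q3) (C3 := pd1)
    rfl k0_pm_313

noncomputable def f_mm_001 : ℕ → ℕ → ℕ → ℕ → Bool := onCell 0 536870912 536870912 536870912 649613803 48318383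
    (rowB 3 eng mog cd1q0 cd4q1 pd0 0 false false false .up 0 0 1 (qsf 0 536870912 536870912 536870912 0) ndB1q0 ndB4q1 pcB0 Cut.none Ext.none)

def k0_mm_001 : ∃ t, chk3 f_mm_001 t 1 1 1 = true :=
  ⟨(l 3), by decide +kernel⟩

theorem c_mm_001 : CertB 0 536870912 536870912 536870912 649613803 48318383 3 eng mog cd1q0 cd4q1 pd0 false false false .up 0 0 1
    ndB1q0 ndB4q1 pcB0 Cut.none Ext.none :=
  certB0 (fam := false) (s1 := false) (s2 := false) (a := 0) (b := 0) (c := 1) (cn := .up) (n1 := ndB1q0) (n2 := ndB4q1) (pc := pcB0) (cut := Cut.none) (xt := Ext.none) (P1 := 0) (W1 := 536870912) (P2 := 536870912) (W2 := 536870912) (P3 := 649613803) (W3 := 48318383) (N0 := 3) (En := eng) (mo := mog) (C1 := cd1q0) (C2 := cd4q1) (C3 := pd0)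
    rfl k0_mm_001

noncomputable def f_mm_011 : ℕ → ℕ → ℕ → ℕ → Bool := onCell 0 536870912 536870912 536870912 649613803 48318383
    (rowB 3 eng mog cd1q0 cd4q1 pd1 0 false false false .pnn 0 1 1 (qsf 0 536870912 536870912 536870912 1) ndB1q0 ndB4q1 pcB1 Cut.none Ext.none)

def k0_mm_011 : ∃ t, chk3 f_mm_011 t 1 1 1 = true :=
  ⟨(l 3), by decide +kernel⟩

theorem c_mm_011 : CertB 0 536870912 536870912 536870912 649613803 48318383 3 eng mog cd1q0 cd4q1 pd1 false false false .pnn 0 1 1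
    ndB1q0 ndB4q1 pcB1 Cut.none Ext.none :=
  certB0 (fam := false) (s1 := false) (s2 := false) (a := 0) (b := 1) (c := 1) (cn := .pnn) (n1 := ndB1q0) (n2 := ndB4q1) (pc := pcB1) (cut := Cut.none) (xt := Ext.none) (P1 := 0) (W1 := 536870912) (P2 := 536870912) (W2 := 536870912) (P3 := 649613803) (W3 := 48318383) (N0 := 3) (En := eng) (mo := mog) (C1 := cd1q0) (C2 := cd4q1) (C3 := pd1)
    rfl k0_mm_011

noncomputable def f_mm_012_a : ℕ → ℕ → ℕ → ℕ → Bool := onCell 0 536870912 0 536870912 649613803 48318383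
    (rowB 3 eng mog cd1q0 cd4q2a pd1 0 false false false .pnp 0 1 2 (qsf 0 536870912 0 536870912 1) ndB1q0 ndB4q2a pcB1 Cut.none Ext.none)

def k0_mm_012_a : ∃ t, chk3 f_mm_012_a t 1 1 1 = true :=
  ⟨(l 5), by decide +kernel⟩

theorem c_mm_012_a : CertB 0 536870912 0 536870912 649613803 48318383 3 eng mog cd1q0 cd4q2a pd1 false false false .pnp 0 1 2
    ndB1q0 ndB4q2a pcB1 Cut.none Ext.none :=
  certB0 (fam := false) (s1 := false) (s2 := false) (a := 0) (b := 1) (c := 2) (cn := .pnp) (n1 := ndB1q0) (n2 := ndB4q2a) (pc := pcB1) (cut := Cut.none) (xt := Ext.none) (P1 := 0) (W1 := 536870912) (P2 := 0) (W2 := 536870912) (P3 := 649613803) (W3 := 48318383) (N0 := 3) (En := eng) (mo := mog) (C1 := cd1q0) (C2 := cd4q2a) (C3 := pd1)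
    rfl k0_mm_012_a

noncomputable def f_mm_012_b : ℕ → ℕ → ℕ → ℕ → Bool := onCell 0 536870912 1239849684 370763052 649613803 48318383
    (rowB 3 eng mog cd1q0 cd4q2b pd1 0 false false false .pnp 0 1 2 (qsf 0 536870912 1239849684 370763052 1) ndB1q0 ndB4q2b pcB1 Cut.none Ext.none)

def k0_mm_012_b : ∃ t, chk3 f_mm_012_b t 1 1 1 = true :=
  ⟨(l 5), by decide +kernel⟩

theorem c_mm_012_b : CertB 0 536870912 1239849684 370763052 649613803 48318383 3 eng mog cd1q0 cd4q2b pd1 false false false .pnp 0 1 2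
    ndB1q0 ndB4q2b pcB1 Cut.none Ext.none :=
  certB0 (fam := false) (s1 := false) (s2 := false) (a := 0) (b := 1) (c := 2) (cn := .pnp) (n1 := ndB1q0) (n2 := ndB4q2b) (pc := pcB1) (cut := Cut.none) (xt := Ext.none) (P1 := 0) (W1 := 536870912) (P2 := 1239849684) (W2 := 370763052) (P3 := 649613803) (W3 := 48318383) (N0 := 3) (En := eng) (mo := mog) (C1 := cd1q0) (C2 := cd4q2b) (C3 := pd1)
    rfl k0_mm_012_b

noncomputable def f_mm_022_a : ℕ → ℕ → ℕ → ℕ → Bool := onCell 0 536870912 0 536870912 649613803 48318383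
    (rowB 3 eng mog cd1q0 cd4q2a pd2 0 false false false .pp 0 2 2 (qsf 0 536870912 0 536870912 2) ndB1q0 ndB4q2a pcB2 Cut.none Ext.none)

def k0_mm_022_a : ∃ t, chk3 f_mm_022_a t 1 1 1 = true :=
  ⟨(l 5), by decide +kernel⟩

theorem c_mm_022_a : CertB 0 536870912 0 536870912 649613803 48318383 3 eng mog cd1q0 cd4q2a pd2 false false false .pp 0 2 2
    ndB1q0 ndB4q2a pcB2 Cut.none Ext.none :=
  certB0 (fam := false) (s1 := false) (s2 := false) (a := 0) (b := 2) (c := 2) (cn := .pp) (n1 := ndB1q0) (n2 := ndB4q2a) (pc := pcB2) (cut := Cut.none) (xt := Ext.none) (P1 := 0) (W1 := 536870912) (P2 := 0) (W2 := 536870912) (P3 := 649613803) (W3 := 48318383) (N0 := 3) (En := eng) (mo := mog) (C1 := cd1q0) (C2 := cd4q2a) (C3 := pd2)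
    rfl k0_mm_022_a

noncomputable def f_mm_022_b : ℕ → ℕ → ℕ → ℕ → Bool := onCell 0 536870912 1239849684 370763052 649613803 48318383
    (rowB 3 eng mog cd1q0 cd4q2b pd2 0 false false false .pp 0 2 2 (qsf 0 536870912 1239849684 370763052 2) ndB1q0 ndB4q2b pcB2 Cut.none Ext.none)

def k0_mm_022_b : ∃ t, chk3 f_mm_022_b t 1 1 1 = true :=
  ⟨(l 5), by decide +kernel⟩

theorem c_mm_022_b : CertB 0 536870912 1239849684 370763052 649613803 48318383 3 eng mog cd1q0 cd4q2b pd2 false false false .pp 0 2 2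
    ndB1q0 ndB4q2b pcB2 Cut.none Ext.none :=
  certB0 (fam := false) (s1 := false) (s2 := false) (a := 0) (b := 2) (c := 2) (cn := .pp) (n1 := ndB1q0) (n2 := ndB4q2b) (pc := pcB2) (cut := Cut.none) (xt := Ext.none) (P1 := 0) (W1 := 536870912) (P2 := 1239849684) (W2 := 370763052) (P3 := 649613803) (W3 := 48318383) (N0 := 3) (En := eng) (mo := mog) (C1 := cd1q0) (C2 := cd4q2b) (C3 := pd2)
    rfl k0_mm_022_b

noncomputable def f_mm_023 : ℕ → ℕ → ℕ → ℕ → Bool := onCell 0 536870912 1610612736 536870912 649613803 48318383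
    (rowB 3 eng mog cd1q0 cd4q3 pd2 0 false false false .up 0 2 3 (qsf 0 536870912 1610612736 536870912 2) ndB1q0 ndB4q3 pcB2 Cut.none Ext.none)

def k0_mm_023 : ∃ t, chk3 f_mm_023 t 1 1 1 = true :=
  ⟨(l 5), by decide +kernel⟩

theorem c_mm_023 : CertB 0 536870912 1610612736 536870912 649613803 48318383 3 eng mog cd1q0 cd4q3 pd2 false false false .up 0 2 3
    ndB1q0 ndB4q3 pcB2 Cut.none Ext.none :=
  certB0 (fam := false) (s1 := false) (s2 := false) (a := 0) (b := 2) (c := 3) (cn := .up) (n1 := ndB1q0) (n2 := ndB4q3) (pc := pcB2) (cut := Cut.none) (xt := Ext.none) (P1 := 0) (W1 := 536870912) (P2 := 1610612736) (W2 := 536870912) (P3 := 649613803) (W3 := 48318383) (N0 := 3) (En := eng) (mo := mog) (C1 := cd1q0) (C2 := cd4q3) (C3 := pd2)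
    rfl k0_mm_023

noncomputable def f_mm_033 : ℕ → ℕ → ℕ → ℕ → Bool := onCell 0 536870912 1610612736 536870912 649613803 48318383
    (rowB 3 eng mog cd1q0 cd4q3 pd3 0 false false false .pnn 0 3 3 (qsf 0 536870912 1610612736 536870912 3) ndB1q0 ndB4q3 pcB3 Cut.none Ext.none)

def k0_mm_033 : ∃ t, chk3 f_mm_033 t 1 1 1 = true :=
  ⟨(l 5), by decide +kernel⟩

theorem c_mm_033 : CertB 0 536870912 1610612736 536870912 649613803 48318383 3 eng mog cd1q0 cd4q3 pd3 false false false .pnn 0 3 3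
    ndB1q0 ndB4q3 pcB3 Cut.none Ext.none :=
  certB0 (fam := false) (s1 := false) (s2 := false) (a := 0) (b := 3) (c := 3) (cn := .pnn) (n1 := ndB1q0) (n2 := ndB4q3) (pc := pcB3) (cut := Cut.none) (xt := Ext.none) (P1 := 0) (W1 := 536870912) (P2 := 1610612736) (W2 := 536870912) (P3 := 649613803) (W3 := 48318383) (N0 := 3) (En := eng) (mo := mog) (C1 := cd1q0) (C2 := cd4q3) (C3 := pd3)
    rfl k0_mm_033

noncomputable def f_mm_101 : ℕ → ℕ → ℕ → ℕ → Bool := onCell 536870912 536870912 536870912 536870912 649613803 48318383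
    (rowB 3 eng mog cd1q1 cd4q1 pd0 0 false false false .npn 1 0 1 (qsf 536870912 536870912 536870912 536870912 0) ndB1q1 ndB4q1 pcB0 Cut.none Ext.none)

def k0_mm_101 : ∃ t, chk3 f_mm_101 t 1 1 1 = true :=
  ⟨(l 3), by decide +kernel⟩

theorem c_mm_101 : CertB 536870912 536870912 536870912 536870912 649613803 48318383 3 eng mog cd1q1 cd4q1 pd0 false false false .npn 1 0 1
    ndB1q1 ndB4q1 pcB0 Cut.none Ext.none :=
  certB0 (fam := false) (s1 := false) (s2 := false) (a := 1) (b := 0) (c := 1) (cn := .npn) (n1 := ndB1q1) (n2 := ndB4q1) (pc := pcB0) (cut := Cut.none) (xt := Ext.none) (P1 := 536870912) (W1 := 536870912) (P2 := 536870912) (W2 := 536870912) (P3 := 649613803) (W3 := 48318383) (N0 := 3) (En := eng) (mo := mog) (C1 := cd1q1) (C2 := cd4q1) (C3 := pd0)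
    rfl k0_mm_101

noncomputable def f_mm_102_a : ℕ → ℕ → ℕ → ℕ → Bool := onCell 536870912 536870912 0 536870912 649613803 48318383
    (rowB 3 eng mog cd1q1 cd4q2a pd0 0 false false false .npp 1 0 2 (qsf 536870912 536870912 0 536870912 0) ndB1q1 ndB4q2a pcB0 Cut.none Ext.none)

def k0_mm_102_a : ∃ t, chk3 f_mm_102_a t 1 1 1 = true :=
  ⟨(l 3), by decide +kernel⟩

theorem c_mm_102_a : CertB 536870912 536870912 0 536870912 649613803 48318383 3 eng mog cd1q1 cd4q2a pd0 false false false .npp 1 0 2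
    ndB1q1 ndB4q2a pcB0 Cut.none Ext.none :=
  certB0 (fam := false) (s1 := false) (s2 := false) (a := 1) (b := 0) (c := 2) (cn := .npp) (n1 := ndB1q1) (n2 := ndB4q2a) (pc := pcB0) (cut := Cut.none) (xt := Ext.none) (P1 := 536870912) (W1 := 536870912) (P2 := 0) (W2 := 536870912) (P3 := 649613803) (W3 := 48318383) (N0 := 3) (En := eng) (mo := mog) (C1 := cd1q1) (C2 := cd4q2a) (C3 := pd0)
    rfl k0_mm_102_a

noncomputable def f_mm_102_b : ℕ → ℕ → ℕ → ℕ → Bool := onCell 536870912 536870912 1239849684 370763052 649613803 48318383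
    (rowB 3 eng mog cd1q1 cd4q2b pd0 0 false false false .npp 1 0 2 (qsf 536870912 536870912 1239849684 370763052 0) ndB1q1 ndB4q2b pcB0 Cut.none Ext.none)

def k0_mm_102_b : ∃ t, chk3 f_mm_102_b t 1 1 1 = true :=
  ⟨(l 5), by decide +kernel⟩

theorem c_mm_102_b : CertB 536870912 536870912 1239849684 370763052 649613803 48318383 3 eng mog cd1q1 cd4q2b pd0 false false false .npp 1 0 2
    ndB1q1 ndB4q2b pcB0 Cut.none Ext.none :=
  certB0 (fam := false) (s1 := false) (s2 := false) (a := 1) (b := 0) (c := 2) (cn := .npp) (n1 := ndB1q1) (n2 := ndB4q2b) (pc := pcB0) (cut := Cut.none) (xt := Ext.none) (P1 := 536870912) (W1 := 536870912) (P2 := 1239849684) (W2 := 370763052) (P3 := 649613803) (W3 := 48318383) (N0 := 3) (En := eng) (mo := mog) (C1 := cd1q1) (C2 := cd4q2b) (C3 := pd0)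
    rfl k0_mm_102_b

noncomputable def f_mm_112_a : ℕ → ℕ → ℕ → ℕ → Bool := onCell 536870912 536870912 0 536870912 649613803 48318383
    (rowB 3 eng mog cd1q1 cd4q2a pd1 0 false false false .dn 1 1 2 (qsf 536870912 536870912 0 536870912 1) ndB1q1 ndB4q2a pcB1 Cut.none Ext.none)

def k0_mm_112_a : ∃ t, chk3 f_mm_112_a t 1 1 1 = true :=
  ⟨(l 3), by decide +kernel⟩

theorem c_mm_112_a : CertB 536870912 536870912 0 536870912 649613803 48318383 3 eng mog cd1q1 cd4q2a pd1 false false false .dn 1 1 2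
    ndB1q1 ndB4q2a pcB1 Cut.none Ext.none :=
  certB0 (fam := false) (s1 := false) (s2 := false) (a := 1) (b := 1) (c := 2) (cn := .dn) (n1 := ndB1q1) (n2 := ndB4q2a) (pc := pcB1) (cut := Cut.none) (xt := Ext.none) (P1 := 536870912) (W1 := 536870912) (P2 := 0) (W2 := 536870912) (P3 := 649613803) (W3 := 48318383) (N0 := 3) (En := eng) (mo := mog) (C1 := cd1q1) (C2 := cd4q2a) (C3 := pd1)
    rfl k0_mm_112_a

noncomputable def f_mm_112_b : ℕ → ℕ → ℕ → ℕ → Bool := onCell 536870912 536870912 1239849684 370763052 649613803 48318383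
    (rowB 3 eng mog cd1q1 cd4q2b pd1 0 false false false .dn 1 1 2 (qsf 536870912 536870912 1239849684 370763052 1) ndB1q1 ndB4q2b pcB1 Cut.none Ext.none)

def k0_mm_112_b : ∃ t, chk3 f_mm_112_b t 1 1 1 = true :=
  ⟨(l 5), by decide +kernel⟩

theorem c_mm_112_b : CertB 536870912 536870912 1239849684 370763052 649613803 48318383 3 eng mog cd1q1 cd4q2b pd1 false false false .dn 1 1 2
    ndB1q1 ndB4q2b pcB1 Cut.none Ext.none :=
  certB0 (fam := false) (s1 := false) (s2 := false) (a := 1) (b := 1) (c := 2) (cn := .dn) (n1 := ndB1q1) (n2 := ndB4q2b) (pc := pcB1) (cut := Cut.none) (xt := Ext.none) (P1 := 536870912) (W1 := 536870912) (P2 := 1239849684) (W2 := 370763052) (P3 := 649613803) (W3 := 48318383) (N0 := 3) (En := eng) (mo := mog) (C1 := cd1q1) (C2 := cd4q2b) (C3 := pd1)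
    rfl k0_mm_112_b

noncomputable def f_mm_113 : ℕ → ℕ → ℕ → ℕ → Bool := onCell 536870912 536870912 1610612736 536870912 649613803 48318383
    (rowB 3 eng mog cd1q1 cd4q3 pd1 0 false false false .nn 1 1 3 (qsf 536870912 536870912 1610612736 536870912 1) ndB1q1 ndB4q3 pcB1 Cut.none Ext.none)

def k0_mm_113 : ∃ t, chk3 f_mm_113 t 1 1 1 = true :=
  ⟨(l 5), by decide +kernel⟩

theorem c_mm_113 : CertB 536870912 536870912 1610612736 536870912 649613803 48318383 3 eng mog cd1q1 cd4q3 pd1 false false false .nn 1 1 3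
    ndB1q1 ndB4q3 pcB1 Cut.none Ext.none :=
  certB0 (fam := false) (s1 := false) (s2 := false) (a := 1) (b := 1) (c := 3) (cn := .nn) (n1 := ndB1q1) (n2 := ndB4q3) (pc := pcB1) (cut := Cut.none) (xt := Ext.none) (P1 := 536870912) (W1 := 536870912) (P2 := 1610612736) (W2 := 536870912) (P3 := 649613803) (W3 := 48318383) (N0 := 3) (En := eng) (mo := mog) (C1 := cd1q1) (C2 := cd4q3) (C3 := pd1)
    rfl k0_mm_113

noncomputable def f_mm_123 : ℕ → ℕ → ℕ → ℕ → Bool := onCell 536870912 536870912 1610612736 536870912 649613803 48318383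
    (rowB 3 eng mog cd1q1 cd4q3 pd2 0 false false false .npn 1 2 3 (qsf 536870912 536870912 1610612736 536870912 2) ndB1q1 ndB4q3 pcB2 Cut.none Ext.none)

def k0_mm_123 : ∃ t, chk3 f_mm_123 t 1 1 1 = true :=
  ⟨(l 5), by decide +kernel⟩

theorem c_mm_123 : CertB 536870912 536870912 1610612736 536870912 649613803 48318383 3 eng mog cd1q1 cd4q3 pd2 false false false .npn 1 2 3
    ndB1q1 ndB4q3 pcB2 Cut.none Ext.none :=
  certB0 (fam := false) (s1 := false) (s2 := false) (a := 1) (b := 2) (c := 3) (cn := .npn) (n1 := ndB1q1) (n2 := ndB4q3) (pc := pcB2) (cut := Cut.none) (xt := Ext.none) (P1 := 536870912) (W1 := 536870912) (P2 := 1610612736) (W2 := 536870912) (P3 := 649613803) (W3 := 48318383) (N0 := 3) (En := eng) (mo := mog) (C1 := cd1q1) (C2 := cd4q3) (C3 := pd2)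
    rfl k0_mm_123

noncomputable def f_mm_133 : ℕ → ℕ → ℕ → ℕ → Bool := onCell 536870912 536870912 1610612736 536870912 649613803 48318383
    (rowB 3 eng mog cd1q1 cd4q3 pd3 0 false false false .dn 1 3 3 (qsf 536870912 536870912 1610612736 536870912 3) ndB1q1 ndB4q3 pcB3 Cut.none Ext.none)

def k0_mm_133 : ∃ t, chk3 f_mm_133 t 1 1 1 = true :=
  ⟨(l 5), by decide +kernel⟩

theorem c_mm_133 : CertB 536870912 536870912 1610612736 536870912 649613803 48318383 3 eng mog cd1q1 cd4q3 pd3 false false false .dn 1 3 3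
    ndB1q1 ndB4q3 pcB3 Cut.none Ext.none :=
  certB0 (fam := false) (s1 := false) (s2 := false) (a := 1) (b := 3) (c := 3) (cn := .dn) (n1 := ndB1q1) (n2 := ndB4q3) (pc := pcB3) (cut := Cut.none) (xt := Ext.none) (P1 := 536870912) (W1 := 536870912) (P2 := 1610612736) (W2 := 536870912) (P3 := 649613803) (W3 := 48318383) (N0 := 3) (En := eng) (mo := mog) (C1 := cd1q1) (C2 := cd4q3) (C3 := pd3)
    rfl k0_mm_133

noncomputable def f_mm_202_aa : ℕ → ℕ → ℕ → ℕ → Bool := onCell 0 536870912 0 536870912 649613803 48318383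
    (rowB 3 eng mog cd1q2a cd4q2a pd0 0 false false false .pp 2 0 2 (qsf 0 536870912 0 536870912 0) ndB1q2a ndB4q2a pcB0 Cut.none Ext.none)

def k0_mm_202_aa : ∃ t, chk3 f_mm_202_aa t 1 1 1 = true :=
  ⟨(l 3), by decide +kernel⟩

theorem c_mm_202_aa : CertB 0 536870912 0 536870912 649613803 48318383 3 eng mog cd1q2a cd4q2a pd0 false false false .pp 2 0 2
    ndB1q2a ndB4q2a pcB0 Cut.none Ext.none :=
  certB0 (fam := false) (s1 := false) (s2 := false) (a := 2) (b := 0) (c := 2) (cn := .pp) (n1 := ndB1q2a) (n2 := ndB4q2a) (pc := pcB0) (cut := Cut.none) (xt := Ext.none) (P1 := 0) (W1 := 536870912) (P2 := 0) (W2 := 536870912) (P3 := 649613803) (W3 := 48318383) (N0 := 3) (En := eng) (mo := mog) (C1 := cd1q2a) (C2 := cd4q2a) (C3 := pd0)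
    rfl k0_mm_202_aa

noncomputable def f_mm_202_ab : ℕ → ℕ → ℕ → ℕ → Bool := onCell 0 536870912 1239849684 370763052 649613803 48318383
    (rowB 3 eng mog cd1q2a cd4q2b pd0 0 false false false .pp 2 0 2 (qsf 0 536870912 1239849684 370763052 0) ndB1q2a ndB4q2b pcB0 Cut.none Ext.none)

def k0_mm_202_ab : ∃ t, chk3 f_mm_202_ab t 1 1 1 = true :=
  ⟨(l 3), by decide +kernel⟩

theorem c_mm_202_ab : CertB 0 536870912 1239849684 370763052 649613803 48318383 3 eng mog cd1q2a cd4q2b pd0 false false false .pp 2 0 2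
    ndB1q2a ndB4q2b pcB0 Cut.none Ext.none :=
  certB0 (fam := false) (s1 := false) (s2 := false) (a := 2) (b := 0) (c := 2) (cn := .pp) (n1 := ndB1q2a) (n2 := ndB4q2b) (pc := pcB0) (cut := Cut.none) (xt := Ext.none) (P1 := 0) (W1 := 536870912) (P2 := 1239849684) (W2 := 370763052) (P3 := 649613803) (W3 := 48318383) (N0 := 3) (En := eng) (mo := mog) (C1 := cd1q2a) (C2 := cd4q2b) (C3 := pd0)
    rfl k0_mm_202_ab

noncomputable def f_mm_202_ba : ℕ → ℕ → ℕ → ℕ → Bool := onCell 1239849684 370763052 0 536870912 649613803 48318383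
    (rowB 3 eng mog cd1q2b cd4q2a pd0 0 false false false .pp 2 0 2 (qsf 1239849684 370763052 0 536870912 0) ndB1q2b ndB4q2a pcB0 Cut.none Ext.none)

def k0_mm_202_ba : ∃ t, chk3 f_mm_202_ba t 1 1 1 = true :=
  ⟨(l 3), by decide +kernel⟩

theorem c_mm_202_ba : CertB 1239849684 370763052 0 536870912 649613803 48318383 3 eng mog cd1q2b cd4q2a pd0 false false false .pp 2 0 2
    ndB1q2b ndB4q2a pcB0 Cut.none Ext.none :=
  certB0 (fam := false) (s1 := false) (s2 := false) (a := 2) (b := 0) (c := 2) (cn := .pp) (n1 := ndB1q2b) (n2 := ndB4q2a) (pc := pcB0) (cut := Cut.none) (xt := Ext.none) (P1 := 1239849684) (W1 := 370763052) (P2 := 0) (W2 := 536870912) (P3 := 649613803) (W3 := 48318383) (N0 := 3) (En := eng) (mo := mog) (C1 := cd1q2b) (C2 := cd4q2a) (C3 := pd0)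
    rfl k0_mm_202_ba

noncomputable def f_mm_202_bb : ℕ → ℕ → ℕ → ℕ → Bool := onCell 1239849684 370763052 1239849684 370763052 649613803 48318383
    (rowB 3 eng mog cd1q2b cd4q2b pd0 0 false false false .pp 2 0 2 (qsf 1239849684 370763052 1239849684 370763052 0) ndB1q2b ndB4q2b pcB0 Cut.none Ext.none)

def k0_mm_202_bb : ∃ t, chk3 f_mm_202_bb t 1 1 1 = true :=
  ⟨(l 3), by decide +kernel⟩

theorem c_mm_202_bb : CertB 1239849684 370763052 1239849684 370763052 649613803 48318383 3 eng mog cd1q2b cd4q2b pd0 false false false .pp 2 0 2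
    ndB1q2b ndB4q2b pcB0 Cut.none Ext.none :=
  certB0 (fam := false) (s1 := false) (s2 := false) (a := 2) (b := 0) (c := 2) (cn := .pp) (n1 := ndB1q2b) (n2 := ndB4q2b) (pc := pcB0) (cut := Cut.none) (xt := Ext.none) (P1 := 1239849684) (W1 := 370763052) (P2 := 1239849684) (W2 := 370763052) (P3 := 649613803) (W3 := 48318383) (N0 := 3) (En := eng) (mo := mog) (C1 := cd1q2b) (C2 := cd4q2b) (C3 := pd0)
    rfl k0_mm_202_bb

noncomputable def f_mm_203_a : ℕ → ℕ → ℕ → ℕ → Bool := onCell 0 536870912 0 536870912 649613803 48318383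
    (rowB 3 eng mog cd1q2a cd4q3 pd0 1 false false false .up 2 0 3 (qsf 0 536870912 1610612736 536870912 0) ndB1q2a ndB4q3 pcB0 Cut.none Ext.none)

def k0_mm_203_a : ∃ t, chk3 f_mm_203_a t 1 1 1 = true :=
  ⟨(l 3), by decide +kernel⟩

theorem c_mm_203_a : CertB 0 536870912 1610612736 536870912 649613803 48318383 3 eng mog cd1q2a cd4q3 pd0 false false false .up 2 0 3
    ndB1q2a ndB4q3 pcB0 Cut.none Ext.none :=
  certB1 (fam := false) (s1 := false) (s2 := false) (a := 2) (b := 0) (c := 3) (cn := .up) (n1 := ndB1q2a) (n2 := ndB4q3) (pc := pcB0) (cut := Cut.none) (xt := Ext.none) (P1 := 0) (W1 := 536870912) (P2 := 1610612736) (W2 := 536870912) (P3 := 649613803) (W3 := 48318383) (N0 := 3) (En := eng) (mo := mog) (C1 := cd1q2a) (C2 := cd4q3) (C3 := pd0)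
    rfl (fun _ => rfl) k0_mm_203_a

noncomputable def f_mm_203_b : ℕ → ℕ → ℕ → ℕ → Bool := onCell 1239849684 370763052 1610612736 536870912 649613803 48318383
    (rowB 3 eng mog cd1q2b cd4q3 pd0 0 false false false .up 2 0 3 (qsf 1239849684 370763052 1610612736 536870912 0) ndB1q2b ndB4q3 pcB0 Cut.none Ext.none)

def k0_mm_203_b : ∃ t, chk3 f_mm_203_b t 1 1 1 = true :=
  ⟨(l 3), by decide +kernel⟩

theorem c_mm_203_b : CertB 1239849684 370763052 1610612736 536870912 649613803 48318383 3 eng mog cd1q2b cd4q3 pd0 false false false .up 2 0 3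
    ndB1q2b ndB4q3 pcB0 Cut.none Ext.none :=
  certB0 (fam := false) (s1 := false) (s2 := false) (a := 2) (b := 0) (c := 3) (cn := .up) (n1 := ndB1q2b) (n2 := ndB4q3) (pc := pcB0) (cut := Cut.none) (xt := Ext.none) (P1 := 1239849684) (W1 := 370763052) (P2 := 1610612736) (W2 := 536870912) (P3 := 649613803) (W3 := 48318383) (N0 := 3) (En := eng) (mo := mog) (C1 := cd1q2b) (C2 := cd4q3) (C3 := pd0)
    rfl k0_mm_203_b

noncomputable def f_mm_213_a : ℕ → ℕ → ℕ → ℕ → Bool := onCell 0 536870912 1610612736 536870912 649613803 48318383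
    (rowB 3 eng mog cd1q2a cd4q3 pd1 0 false false false .pnn 2 1 3 (qsf 0 536870912 1610612736 536870912 1) ndB1q2a ndB4q3 pcB1 Cut.none Ext.none)

def k0_mm_213_a : ∃ t, chk3 f_mm_213_a t 1 1 1 = true :=
  ⟨(b (l 3) (a (l 3) (l 5))), by decide +kernel⟩

theorem c_mm_213_a : CertB 0 536870912 1610612736 536870912 649613803 48318383 3 eng mog cd1q2a cd4q3 pd1 false false false .pnn 2 1 3
    ndB1q2a ndB4q3 pcB1 Cut.none Ext.none :=
  certB0 (fam := false) (s1 := false) (s2 := false) (a := 2) (b := 1) (c := 3) (cn := .pnn) (n1 := ndB1q2a) (n2 := ndB4q3) (pc := pcB1) (cut := Cut.none) (xt := Ext.none) (P1 := 0) (W1 := 536870912) (P2 := 1610612736) (W2 := 536870912) (P3 := 649613803) (W3 := 48318383) (N0 := 3) (En := eng) (mo := mog) (C1 := cd1q2a) (C2 := cd4q3) (C3 := pd1)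
    rfl k0_mm_213_a

noncomputable def f_mm_213_b : ℕ → ℕ → ℕ → ℕ → Bool := onCell 1239849684 370763052 1610612736 536870912 649613803 48318383
    (rowB 3 eng mog cd1q2b cd4q3 pd1 0 false false false .pnn 2 1 3 (qsf 1239849684 370763052 1610612736 536870912 1) ndB1q2b ndB4q3 pcB1 Cut.none Ext.none)

def k0_mm_213_b : ∃ t, chk3 f_mm_213_b t 1 1 1 = true :=
  ⟨(l 3), by decide +kernel⟩

theorem c_mm_213_b : CertB 1239849684 370763052 1610612736 536870912 649613803 48318383 3 eng mog cd1q2b cd4q3 pd1 false false false .pnn 2 1 3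
    ndB1q2b ndB4q3 pcB1 Cut.none Ext.none :=
  certB0 (fam := false) (s1 := false) (s2 := false) (a := 2) (b := 1) (c := 3) (cn := .pnn) (n1 := ndB1q2b) (n2 := ndB4q3) (pc := pcB1) (cut := Cut.none) (xt := Ext.none) (P1 := 1239849684) (W1 := 370763052) (P2 := 1610612736) (W2 := 536870912) (P3 := 649613803) (W3 := 48318383) (N0 := 3) (En := eng) (mo := mog) (C1 := cd1q2b) (C2 := cd4q3) (C3 := pd1)
    rfl k0_mm_213_b

noncomputable def f_mm_303 : ℕ → ℕ → ℕ → ℕ → Bool := onCell 1610612736 536870912 1610612736 536870912 649613803 48318383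
    (rowB 3 eng mog cd1q3 cd4q3 pd0 0 false false false .npn 3 0 3 (qsf 1610612736 536870912 1610612736 536870912 0) ndB1q3 ndB4q3 pcB0 Cut.none Ext.none)

def k0_mm_303 : ∃ t, chk3 f_mm_303 t 1 1 1 = true :=
  ⟨(l 3), by decide +kernel⟩

theorem c_mm_303 : CertB 1610612736 536870912 1610612736 536870912 649613803 48318383 3 eng mog cd1q3 cd4q3 pd0 false false false .npn 3 0 3
    ndB1q3 ndB4q3 pcB0 Cut.none Ext.none :=
  certB0 (fam := false) (s1 := false) (s2 := false) (a := 3) (b := 0) (c := 3) (cn := .npn) (n1 := ndB1q3) (n2 := ndB4q3) (pc := pcB0) (cut := Cut.none) (xt := Ext.none) (P1 := 1610612736) (W1 := 536870912) (P2 := 1610612736) (W2 := 536870912) (P3 := 649613803) (W3 := 48318383) (N0 := 3) (En := eng) (mo := mog) (C1 := cd1q3) (C2 := cd4q3) (C3 := pd0)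
    rfl k0_mm_303

noncomputable def f_mm_313 : ℕ → ℕ → ℕ → ℕ → Bool := onCell 1610612736 536870912 1610612736 536870912 649613803 48318383
    (rowB 3 eng mog cd1q3 cd4q3 pd1 0 false false false .dn 3 1 3 (qsf 1610612736 536870912 1610612736 536870912 1) ndB1q3 ndB4q3 pcB1 Cut.none Ext.none)

def k0_mm_313 : ∃ t, chk3 f_mm_313 t 1 1 1 = true :=
  ⟨(l 3), by decide +kernel⟩

theorem c_mm_313 : CertB 1610612736 536870912 1610612736 536870912 649613803 48318383 3 eng mog cd1q3 cd4q3 pd1 false false false .dn 3 1 3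
    ndB1q3 ndB4q3 pcB1 Cut.none Ext.none :=
  certB0 (fam := false) (s1 := false) (s2 := false) (a := 3) (b := 1) (c := 3) (cn := .dn) (n1 := ndB1q3) (n2 := ndB4q3) (pc := pcB1) (cut := Cut.none) (xt := Ext.none) (P1 := 1610612736) (W1 := 536870912) (P2 := 1610612736) (W2 := 536870912) (P3 := 649613803) (W3 := 48318383) (N0 := 3) (En := eng) (mo := mog) (C1 := cd1q3) (C2 := cd4q3) (C3 := pd1)
    rfl k0_mm_313

end Pool.Agent.Strip051.G.I6050_6500.Tab.C.BB14

namespace Pool.Agent.Strip051.G.I6050_6500.Tab.C.BB15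

open Pool.Agent.Strip051.PB Pool.Agent.Strip051.PB.T
open Pool.Agent.Strip051.G.I6050_6500.Tab

noncomputable def f_pp_001 : ℕ → ℕ → ℕ → ℕ → Bool := onCell 0 536870912 0 536870912 649613803 48318383
    (rowB 3 eng mog cd1q0 cd5q1 pd0 1 false true true .up 0 0 1 (qsf 0 536870912 536870912 536870912 0) ndB1q0 ndB5q1 pcB0 Cut.none Ext.none)

def k0_pp_001 : ∃ t, chk3 f_pp_001 t 1 1 1 = true :=
  ⟨(l 3), by decide +kernel⟩

theorem c_pp_001 : CertB 0 536870912 536870912 536870912 649613803 48318383 3 eng mog cd1q0 cd5q1 pd0 false true true .up 0 0 1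
    ndB1q0 ndB5q1 pcB0 Cut.none Ext.none :=
  certB1 (fam := false) (s1 := true) (s2 := true) (a := 0) (b := 0) (c := 1) (cn := .up) (n1 := ndB1q0) (n2 := ndB5q1) (pc := pcB0) (cut := Cut.none) (xt := Ext.none) (P1 := 0) (W1 := 536870912) (P2 := 536870912) (W2 := 536870912) (P3 := 649613803) (W3 := 48318383) (N0 := 3) (En := eng) (mo := mog) (C1 := cd1q0) (C2 := cd5q1) (C3 := pd0)
    rfl (fun _ => rfl) k0_pp_001

noncomputable def cut_pp_011 : Cut := Cut.of [[⟨0, 0, 0, 67108864⟩, ⟨1, 1, 0, 67108864⟩, ⟨2, 1, 0, 67108864⟩]]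

noncomputable def f_pp_011 : ℕ → ℕ → ℕ → ℕ → Bool := onCell 0 536870912 536870912 536870912 649613803 48318383
    (rowB 3 eng mog cd1q0 cd5q1 pd1 1 false true true .pnn 0 1 1 (qsf 0 536870912 536870912 536870912 1) ndB1q0 ndB5q1 pcB1 cut_pp_011 Ext.none)

def k0_pp_011 : ∃ t, chk3 f_pp_011 t 1 1 1 = true :=
  ⟨(b (l 3) (b (l 3) (a (b (l 3) (a (a (b (l 3) (a (l 6) (l 3))) (l 3)) (l 2))) (l 2)))), by decide +kernel⟩

theorem c_pp_011 : CertB 0 536870912 536870912 536870912 649613803 48318383 3 eng mog cd1q0 cd5q1 pd1 false true true .pnn 0 1 1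
    ndB1q0 ndB5q1 pcB1 cut_pp_011 Ext.none :=
  certB1 (fam := false) (s1 := true) (s2 := true) (a := 0) (b := 1) (c := 1) (cn := .pnn) (n1 := ndB1q0) (n2 := ndB5q1) (pc := pcB1) (cut := cut_pp_011) (xt := Ext.none) (P1 := 0) (W1 := 536870912) (P2 := 536870912) (W2 := 536870912) (P3 := 649613803) (W3 := 48318383) (N0 := 3) (En := eng) (mo := mog) (C1 := cd1q0) (C2 := cd5q1) (C3 := pd1)
    rfl (fun _ => rfl) k0_pp_011

noncomputable def f_pp_012 : ℕ → ℕ → ℕ → ℕ → Bool := onCell 0 536870912 536870912 536870912 649613803 48318383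
    (rowB 3 eng mog cd1q0 cd5q2 pd1 1 false true true .pnp 0 1 2 (qsf 0 536870912 1073741824 536870912 1) ndB1q0 ndB5q2 pcB1 Cut.none Ext.none)

def k0_pp_012 : ∃ t, chk3 f_pp_012 t 1 1 1 = true :=
  ⟨(l 3), by decide +kernel⟩

theorem c_pp_012 : CertB 0 536870912 1073741824 536870912 649613803 48318383 3 eng mog cd1q0 cd5q2 pd1 false true true .pnp 0 1 2
    ndB1q0 ndB5q2 pcB1 Cut.none Ext.none :=
  certB1 (fam := false) (s1 := true) (s2 := true) (a := 0) (b := 1) (c := 2) (cn := .pnp) (n1 := ndB1q0) (n2 := ndB5q2) (pc := pcB1) (cut := Cut.none) (xt := Ext.none) (P1 := 0) (W1 := 536870912) (P2 := 1073741824) (W2 := 536870912) (P3 := 649613803) (W3 := 48318383) (N0 := 3) (En := eng) (mo := mog) (C1 := cd1q0) (C2 := cd5q2) (C3 := pd1)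
    rfl (fun _ => rfl) k0_pp_012

noncomputable def f_pp_022 : ℕ → ℕ → ℕ → ℕ → Bool := onCell 0 536870912 1073741824 536870912 649613803 48318383
    (rowB 3 eng mog cd1q0 cd5q2 pd2 1 false true true .pp 0 2 2 (qsf 0 536870912 1073741824 536870912 2) ndB1q0 ndB5q2 pcB2 Cut.none Ext.none)

def k0_pp_022 : ∃ t, chk3 f_pp_022 t 1 4 1 = true :=
  ⟨(b (a (l 3) (a (l 3) (b (l 3) (a (l 3) (b (l 3) (l 198809476791)))))) (a (a (b (l 3) (b (a (b (l 3) (b (l 3) (a (c (l 463486761287) (l 460265473607)) (c (a (l 16533408) (l 16525416)) (l 16532632))))) (a (b (l 3) (a (c (b (l 16526320) (l 16522160)) (l 140827480903)) (b (l 16525528) (l 16522048)))) (b (a (l 3) (l 16527288)) (b (l 16522504) (l 16579176))))) (a (a (a (c (b (b (l 16537560) (l 16528584)) (b (l 16519720) (l 16511304))) (b (b (l 16527752) (l 16518376)) (b (l 16509224) (l 16500856)))) (b (b (l 16536096) (l 16527104)) (l 16577256))) (b (b (c (a (l 16527288) (l 16520200)) (l 16590296)) (a (l 16522976) (l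 16516048))) (a (l 16512880) (l 16550432)))) (a (b (a (b (l 16519008) (l 16515064)) (l 16578344)) (l 16543888)) (b (l 16505560) (a (l 16493376) (l 16489040))))))) (b (a (l 3) (b (l 3) (a (l 16562256) (b (l 3) (l 16525928))))) (b (a (a (b (l 16522592) (a (l 16566528) (l 16510520))) (b (l 16515968) (l 16507400))) (a (b (l 16508608) (l 16504464)) (b (l 16552104) (l 16502016)))) (a (b (a (l 16500664) (l 16499864)) (a (l 16489336) (l 16491592))) (a (b (l 16499216) (l 16493920)) (l 16540104)))))) (b (a (a (b (l 3) (a (l 16603512) (l 16486816))) (b (l 16535128) (a (l 16476152) (l 16550232)))) (a (b (l 220821313271) (b (l 16548328) (l 16460440))) (b (a (l 16406680) (l 2)) (l 2)))) (a (b (a (b (l 16498192) (l 16478064)) (b (l 16486872) (l 16495344))) (a (a (l 16501072) (l 16502880)) (a (l 16503128) (l 16500624)))) (a (b (b (l 16474344) (l 16482752)) (a (l 16494216) (l 2))) (l 2)))))), by decide +kernel⟩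

def k1_pp_022 : ∃ t, chk3 f_pp_022 t 4 10 1 = true :=
  ⟨(b (b (a (b (a (a (c (a (l 16498088) (l 16499664)) (l 16488672)) (c (l 16501184) (l 16493544))) (a (l 16519680) (l 16493696))) (a (a (c (l 16481928) (l 16471616)) (l 16481112)) (a (l 16480056) (l 16475080)))) (b (a (a (l 16487728) (l 16482888)) (l 16477528)) (a (a (l 16470944) (l 16467848)) (l 16464896)))) (b (a (a (a (b (l 16464136) (l 16455352)) (b (l 16467904) (l 16458560))) (b (a (l 16465504) (l 16461648)) (a (l 16455792) (l 16452952)))) (a (b (l 16457968) (l 16450656)) (b (l 16456048) (l 16449936)))) (b (a (a (a (b (l 16448360) (l 16443504)) (b (l 16451200) (l 16446176))) (b (l 16447464) (l 16443120))) (a (l 16443360) (l 16443560))) (a (b (a (a (b (l 16440160) (l 16438192)) (l 16462432)) (l 16438856)) (b (b (b (a (a (l 16436864) (l 16438736)) (l 16436448)) (b (a (a (l 16436392) (l 16438208)) (l 16436024)) (a (a (l 16435904) (l 16437736)) (l 16435704)))) (a (a (l 16435272) (l 16436984))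 (l 16435048))) (a (a (l 16433720) (l 16435184)) (l 16433472)))) (b (a (l 16437976) (l 16439184)) (b (a (b (b (l 16436072) (l 16456784)) (l 16435152)) (b (b (l 16437792) (l 16437880)) (l 16437352))) (a (l 16433848) (l 16436272)))))))) (a (a (b (a (a (l 16434880) (l 16415248)) (l 16415328)) (l 16400360)) (b (l 16416176) (l 16386216))) (a (b (l 16419504) (l 16394744)) (l 16413912)))), by decide +kernel⟩

def k2_pp_022 : ∃ t, chk3 f_pp_022 t 5 10 1 = true :=
  ⟨(b (b (a (b (l 16502552) (a (l 16469376) (l 16477424))) (b (a (l 16489480) (l 16494552)) (a (l 16484392) (l 16490152)))) (b (a (a (b (l 16462440) (l 16456872)) (l 16469096)) (a (l 16477080) (l 16484536))) (b (a (a (l 16451592) (l 16462632)) (l 16477040)) (a (b (a (l 16448280) (l 16460456)) (a (c (l 16458024) (b (l 16520192) (l 16435008))) (c (l 16471624) (l 16448856)))) (b (l 16476592) (a (l 16472344) (l 16483816))))))) (a (a (b (l 16437120) (l 16420728)) (l 16446008)) (a (l 16461792) (l 16476896)))),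 by decide +kernel⟩

def k3_pp_022 : ∃ t, chk3 f_pp_022 t 2 11 1 = true :=
  ⟨(a (a (a (b (a (b (l 16344272) (l 16314368)) (l 16336096)) (a (b (l 16288264) (l 16265872)) (l 16288984))) (b (a (l 16343664) (l 16351384)) (a (l 16301224) (l 16313200)))) (a (b (l 16362992) (a (l 16324824) (l 16336032))) (b (a (l 16374304) (l 16381864)) (a (l 16346760) (l 16357328))))) (a (a (b (l 16420896) (l 16379928)) (b (l 16423984) (l 16409504))) (b (l 16456480) (l 16448480)))), by decide +kernel⟩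

def k4_pp_022 : ∃ t, chk3 f_pp_022 t 3 5 1 = true :=
  ⟨(b (b (b (a (a (b (l 16502008) (l 16498856)) (a (l 16504056) (l 16502944))) (a (l 16494608) (l 2))) (a (b (a (l 16496352) (l 16505416)) (b (a (l 16496080) (l 16509120)) (a (b (l 16498192) (l 16502216)) (b (l 16514176) (l 16520984))))) (l 2))) (a (a (l 16500472) (b (l 16523624) (l 16525776))) (l 2))) (a (a (b (l 16496984) (l 16496536)) (b (l 16527664) (l 2))) (l 2))), by decide +kernel⟩

def k5_pp_022 : ∃ t, chk3 f_pp_022 t 1 3 1 = true :=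
  ⟨(a (b (a (b (a (a (b (a (b (l 16247064) (l 16231552)) (l 16276360)) (a (b (l 16218632) (l 16208552)) (b (l 16237424) (l 16228904)))) (b (b (l 16285184) (a (l 16265656) (l 16281808))) (a (l 16251920) (l 16270472)))) (b (a (b (l 16313328) (l 16305056)) (l 16336032)) (a (l 16296824) (l 16328776)))) (a (a (b (a (b (l 16201648) (l 16198576)) (l 16327768)) (a (c (l 16239376) (l 16164016)) (l 16227592))) (b (a (l 16245344) (l 16266696)) (a (l 16252576) (l 16275936)))) (b (a (l 16296816) (l 16332152)) (a (l 16371128) (l 16345456))))) (b (a (b (a (l 16368704) (l 16402296)) (a (l 16365320) (l 16402720))) (b (l 16446584) (l 16449664))) (a (b (a (l 16371752) (l 16409736)) (l 16406320)) (b (l 16459736) (l 2))))) (a (b (a (a (b (b (a (l 16211912) (l 16239896)) (a (l 16262712) (l 16249248))) (a (b (l 16232176) (l 16245416)) (l 16266664))) (b (b (l 16278336) (l 16287312)) (l 16305824))) (b (a (l 16326768) (l 16365328)) (a (l 16352096) (l 16392512)))) (a (a (b (c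 (a (l 16333560) (l 16364304)) (l 16227304)) (c (a (l 16392352) (l 16423968)) (l 16267144))) (b (l 16363184) (l 16393304))) (b (a (l 16390304) (l 2)) (l 2)))) (b (a (b (l 16429064) (l 2)) (l 2)) (l 2)))) (b (a (b (a (l 16500544) (l 2)) (l 2)) (l 2)) (l 2))), by decide +kernel⟩

theorem s6_pp_022 : ∃ t, chk3 f_pp_022 t 2 10 1 = true := ex3_a k1_pp_022 k2_pp_022

theorem s7_pp_022 : ∃ t, chk3 f_pp_022 t 2 5 1 = true := ex3_b s6_pp_022 k3_pp_022

theorem s8_pp_022 : ∃ t, chk3 f_pp_022 t 1 5 1 = true := ex3_a s7_pp_022 k4_pp_022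

theorem s9_pp_022 : ∃ t, chk3 f_pp_022 t 1 2 1 = true := ex3_b k0_pp_022 s8_pp_022

theorem s10_pp_022 : ∃ t, chk3 f_pp_022 t 1 1 1 = true := ex3_b s9_pp_022 k5_pp_022

theorem c_pp_022 : CertB 0 536870912 1073741824 536870912 649613803 48318383 3 eng mog cd1q0 cd5q2 pd2 false true true .pp 0 2 2
    ndB1q0 ndB5q2 pcB2 Cut.none Ext.none :=
  certB1 (fam := false) (s1 := true) (s2 := true) (a := 0) (b := 2) (c := 2) (cn := .pp) (n1 := ndB1q0) (n2 := ndB5q2) (pc := pcB2) (cut := Cut.none) (xt := Ext.none) (P1 := 0) (W1 := 536870912) (P2 := 1073741824) (W2 := 536870912) (P3 := 649613803) (W3 := 48318383) (N0 := 3) (En := eng) (mo := mog) (C1 := cd1q0) (C2 := cd5q2) (C3 := pd2)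
    rfl (fun _ => rfl) s10_pp_022

noncomputable def f_pp_023 : ℕ → ℕ → ℕ → ℕ → Bool := onCell 1073741824 536870912 0 1230186008 649613803 48318383
    (rowB 3 eng mog cd1q0 cd5q3 pd2 2 false true true .up 0 2 3 (qsf 0 536870912 0 1230186008 2) ndB1q0 ndB5q3 pcB2 Cut.none Ext.none)

def k0_pp_023 : ∃ t, chk3 f_pp_023 t 1 1 1 = true :=
  ⟨(b (a (l 2) (a (l 2) (b (l 429060803735) (a (l 16648632) (l 16667840))))) (b (a (a (l 2) (a (l 2) (b (l 2) (l 16595336)))) (a (b (l 276589372839) (a (l 16585184) (l 16578376))) (b (a (l 16639120) (l 16637856)) (a (l 16582080) (b (l 16605200) (l 16576752)))))) (a (a (b (l 2) (a (b (l 2) (a (l 3) (a (l 3) (l 16514768)))) (b (a (b (l 2) (a (l 16550920) (l 16546624))) (b (a (l 16554664) (l 16541976)) (a (l 16537432) (l 16525032)))) (a (a (b (l 16520832) (l 16493344)) (l 16542576)) (a (l 16494056) (l 16481256)))))) (b (b (a (a (l 2) (l 16559056)) (l 16536752)) (b (a (a (l 2) (l 16514432)) (l 16485192)) (a (a (a (b (l 2)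 (l 16546200)) (a (l 16540760) (b (l 16544576) (l 16538592)))) (l 16519960)) (l 16458304)))) (b (a (a (a (b (l 16529912) (l 16512256)) (a (b (l 16521744) (l 16503312)) (a (b (l 16518728) (l 16499968)) (b (l 16519800) (a (l 16499760) (l 16500608)))))) (b (l 16499824) (l 16478624))) (b (l 16423192) (l 16466000))) (a (a (a (l 16464816) (a (l 16450488) (a (l 16445440) (a (l 16459784) (l 16475792))))) (l 16494216)) (l 16544896))))) (b (b (a (a (l 16515048) (l 16510024)) (a (l 16529264) (l 16536288))) (a (b (a (l 16465824) (l 16505456)) (a (l 16460000) (l 16479768))) (b (a (l 16502856) (l 16491192)) (a (l 16460592) (l 16433592))))) (b (a (a (b (l 16476696) (l 16478680)) (b (l 16466968) (l 16446856))) (b (a (l 16432336) (l 16393680)) (a (l 16399544) (l 16352760)))) (a (a (l 16466192) (l 16538840)) (a (a (l 16370128) (l 16341064)) (b (l 16322784) (a (l 16304552) (l 16286392)))))))))), by decide +kernel⟩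

theorem c_pp_023 : CertB 0 536870912 0 1230186008 649613803 48318383 3 eng mog cd1q0 cd5q3 pd2 false true true .up 0 2 3
    ndB1q0 ndB5q3 pcB2 Cut.none Ext.none :=
  certB2 (fam := false) (s1 := true) (s2 := true) (a := 0) (b := 2) (c := 3) (cn := .up) (n1 := ndB1q0) (n2 := ndB5q3) (pc := pcB2) (cut := Cut.none) (xt := Ext.none) (P1 := 0) (W1 := 536870912) (P2 := 0) (W2 := 1230186008) (P3 := 649613803) (W3 := 48318383) (N0 := 3) (En := eng) (mo := mog) (C1 := cd1q0) (C2 := cd5q3) (C3 := pd2)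
    rfl (fun _ => rfl) k0_pp_023

noncomputable def f_pp_033 : ℕ → ℕ → ℕ → ℕ → Bool := onCell 1610612736 536870912 0 1230186008 649613803 48318383
    (rowB 3 eng mog cd1q0 cd5q3 pd3 2 false true true .pnn 0 3 3 (qsf 0 536870912 0 1230186008 3) ndB1q0 ndB5q3 pcB3 Cut.none Ext.none)

def k0_pp_033 : ∃ t, chk3 f_pp_033 t 1 2 1 = true :=
  ⟨(b (a (a (a (l 16638096) (l 16661528)) (l 120494049303)) (l 4)) (a (a (a (l 16630960) (l 16575000)) (a (b (l 16557616) (l 16507536)) (l 16546984))) (a (a (b (l 16460960) (l 16410968)) (l 4)) (l 4)))), by decide +kernel⟩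

def k1_pp_033 : ∃ t, chk3 f_pp_033 t 1 3 1 = true :=
  ⟨(b (a (a (a (b (l 16557392) (l 16472904)) (b (l 16572104) (a (l 16405184) (l 16369144)))) (a (a (b (l 16438680) (b (l 16361992) (a (l 16317056) (l 16302656)))) (b (l 16407256) (b (l 16330784) (a (l 16294208) (l 16282856))))) (b (b (l 16393016) (l 16342576)) (b (l 16299136) (l 197601375991))))) (a (a (b (a (l 16343656) (l 16333864)) (a (b (l 16285584) (l 16248160)) (b (l 16280816) (l 16247072)))) (b (a (l 16321568) (l 627635216535)) (a (b (l 16282560) (l 1)) (l 1)))) (b (a (l 4) (l 1)) (l 1)))) (a (b (a (b (a (l 16398776) (a (l 16323016) (l 16291008))) (a (b (b (l 16365144) (l 16343600)) (b (l 16299648) (l 16281224))) (b (a (b (l 16290376) (l 16269560)) (b (l 16264192) (l 16242760))) (a (b (l 16220584) (l 16204568)) (b (a (l 16197312) (l 16184936)) (l 16167280)))))) (a (b (a (a (l 16271616) (l 16280624)) (a (l 16261168) (l 16252392))) (a (b (a (b (l 16245928) (l 16223800)) (b (l 16233208) (c (l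 16260912) (l 16159896)))) (a (b (l 16170752) (l 16145528)) (b (a (l 16157400) (c (l 16223328) (l 16085048))) (a (l 16130936) (l 1))))) (b (b (a (l 16242192) (l 16235776)) (a (c (l 16263040) (l 16162552)) (l 353293720711))) (a (a (b (l 259877638279) (l 1)) (l 1)) (l 1))))) (b (a (l 16232096) (l 390337650567)) (l 1)))) (a (b (a (b (l 16261472) (l 16230056)) (b (a (l 16188792) (b (l 16156272) (l 16142472))) (a (l 178273403639) (l 250214016839)))) (a (b (l 181495018535) (l 227665919607)) (a (l 231423639655) (l 1)))) (b (a (a (b (a (l 256656337383) (l 1)) (l 1)) (l 1)) (l 1)) (l 1)))) (l 1))), by decide +kernel⟩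

theorem s2_pp_033 : ∃ t, chk3 f_pp_033 t 1 1 1 = true := ex3_b k0_pp_033 k1_pp_033

theorem c_pp_033 : CertB 0 536870912 0 1230186008 649613803 48318383 3 eng mog cd1q0 cd5q3 pd3 false true true .pnn 0 3 3
    ndB1q0 ndB5q3 pcB3 Cut.none Ext.none :=
  certB2 (fam := false) (s1 := true) (s2 := true) (a := 0) (b := 3) (c := 3) (cn := .pnn) (n1 := ndB1q0) (n2 := ndB5q3) (pc := pcB3) (cut := Cut.none) (xt := Ext.none) (P1 := 0) (W1 := 536870912) (P2 := 0) (W2 := 1230186008) (P3 := 649613803) (W3 := 48318383) (N0 := 3) (En := eng) (mo := mog) (C1 := cd1q0) (C2 := cd5q3) (C3 := pd3)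
    rfl (fun _ => rfl) s2_pp_033

noncomputable def f_pp_101 : ℕ → ℕ → ℕ → ℕ → Bool := onCell 536870912 536870912 536870912 536870912 649613803 48318383
    (rowB 3 eng mog cd1q1 cd5q1 pd0 0 false true true .npn 1 0 1 (qsf 536870912 536870912 536870912 536870912 0) ndB1q1 ndB5q1 pcB0 Cut.none Ext.none)

def k0_pp_101 : ∃ t, chk3 f_pp_101 t 1 1 1 = true :=
  ⟨(a (l 3) (l 5)), by decide +kernel⟩

theorem c_pp_101 : CertB 536870912 536870912 536870912 536870912 649613803 48318383 3 eng mog cd1q1 cd5q1 pd0 false true true .npn 1 0 1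
    ndB1q1 ndB5q1 pcB0 Cut.none Ext.none :=
  certB0 (fam := false) (s1 := true) (s2 := true) (a := 1) (b := 0) (c := 1) (cn := .npn) (n1 := ndB1q1) (n2 := ndB5q1) (pc := pcB0) (cut := Cut.none) (xt := Ext.none) (P1 := 536870912) (W1 := 536870912) (P2 := 536870912) (W2 := 536870912) (P3 := 649613803) (W3 := 48318383) (N0 := 3) (En := eng) (mo := mog) (C1 := cd1q1) (C2 := cd5q1) (C3 := pd0)
    rfl k0_pp_101

noncomputable def f_pp_102 : ℕ → ℕ → ℕ → ℕ → Bool := onCell 536870912 536870912 0 536870912 649613803 48318383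
    (rowB 3 eng mog cd1q1 cd5q2 pd0 1 false true true .npp 1 0 2 (qsf 536870912 536870912 1073741824 536870912 0) ndB1q1 ndB5q2 pcB0 Cut.none Ext.none)

def k0_pp_102 : ∃ t, chk3 f_pp_102 t 1 1 1 = true :=
  ⟨(l 3), by decide +kernel⟩

theorem c_pp_102 : CertB 536870912 536870912 1073741824 536870912 649613803 48318383 3 eng mog cd1q1 cd5q2 pd0 false true true .npp 1 0 2
    ndB1q1 ndB5q2 pcB0 Cut.none Ext.none :=
  certB1 (fam := false) (s1 := true) (s2 := true) (a := 1) (b := 0) (c := 2) (cn := .npp) (n1 := ndB1q1) (n2 := ndB5q2) (pc := pcB0) (cut := Cut.none) (xt := Ext.none) (P1 := 536870912) (W1 := 536870912) (P2 := 1073741824) (W2 := 536870912) (P3 := 649613803) (W3 := 48318383) (N0 := 3) (En := eng) (mo := mog) (C1 := cd1q1) (C2 := cd5q2) (C3 := pd0)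
    rfl (fun _ => rfl) k0_pp_102

noncomputable def f_pp_112 : ℕ → ℕ → ℕ → ℕ → Bool := onCell 536870912 536870912 1073741824 536870912 649613803 48318383
    (rowB 3 eng mog cd1q1 cd5q2 pd1 2 false true true .dn 1 1 2 (qsf 536870912 536870912 1073741824 536870912 1) ndB1q1 ndB5q2 pcB1 Cut.none Ext.none)

def k0_pp_112 : ∃ t, chk3 f_pp_112 t 1 1 1 = true :=
  ⟨(l 3), by decide +kernel⟩

theorem c_pp_112 : CertB 536870912 536870912 1073741824 536870912 649613803 48318383 3 eng mog cd1q1 cd5q2 pd1 false true true .dn 1 1 2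
    ndB1q1 ndB5q2 pcB1 Cut.none Ext.none :=
  certB2 (fam := false) (s1 := true) (s2 := true) (a := 1) (b := 1) (c := 2) (cn := .dn) (n1 := ndB1q1) (n2 := ndB5q2) (pc := pcB1) (cut := Cut.none) (xt := Ext.none) (P1 := 536870912) (W1 := 536870912) (P2 := 1073741824) (W2 := 536870912) (P3 := 649613803) (W3 := 48318383) (N0 := 3) (En := eng) (mo := mog) (C1 := cd1q1) (C2 := cd5q2) (C3 := pd1)
    rfl (fun _ => rfl) k0_pp_112

noncomputable def f_pp_113 : ℕ → ℕ → ℕ → ℕ → Bool := onCell 536870912 536870912 0 1230186008 649613803 48318383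
    (rowB 3 eng mog cd1q1 cd5q3 pd1 2 false true true .nn 1 1 3 (qsf 536870912 536870912 0 1230186008 1) ndB1q1 ndB5q3 pcB1 Cut.none Ext.none)

def k0_pp_113 : ∃ t, chk3 f_pp_113 t 1 1 1 = true :=
  ⟨(a (b (l 2) (b (l 3) (l 3))) (b (a (l 2) (a (l 3) (b (a (l 2) (a (b (l 2) (a (l 3) (l 391009822599))) (b (l 1070621446055) (a (l 16779856) (l 16789696))))) (a (l 3) (a (l 3) (b (l 369535197287) (l 3))))))) (b (a (l 3) (l 3)) (l 3)))), by decide +kernel⟩

theorem c_pp_113 : CertB 536870912 536870912 0 1230186008 649613803 48318383 3 eng mog cd1q1 cd5q3 pd1 false true true .nn 1 1 3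
    ndB1q1 ndB5q3 pcB1 Cut.none Ext.none :=
  certB2 (fam := false) (s1 := true) (s2 := true) (a := 1) (b := 1) (c := 3) (cn := .nn) (n1 := ndB1q1) (n2 := ndB5q3) (pc := pcB1) (cut := Cut.none) (xt := Ext.none) (P1 := 536870912) (W1 := 536870912) (P2 := 0) (W2 := 1230186008) (P3 := 649613803) (W3 := 48318383) (N0 := 3) (En := eng) (mo := mog) (C1 := cd1q1) (C2 := cd5q3) (C3 := pd1)
    rfl (fun _ => rfl) k0_pp_113

noncomputable def xt_pp_123 : Ext := extD2 3 ⟨7, 3, 3, 10, 377, 200, 77, 100, 17, 50, 3, 16⟩ eng cd1q1 cd5q3 pd2 false true true .npn 1 2 3 rfl ndB1q1 ndB5q3 pcB2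

noncomputable def f_pp_123 : ℕ → ℕ → ℕ → ℕ → Bool := onCell 1073741824 536870912 0 1230186008 649613803 48318383
    (rowB 3 eng mog cd1q1 cd5q3 pd2 2 false true true .npn 1 2 3 (qsf 536870912 536870912 0 1230186008 2) ndB1q1 ndB5q3 pcB2 Cut.none xt_pp_123)

def k0_pp_123 : ∃ t, chk3 f_pp_123 t 1 2 1 = true :=
  ⟨(a (a (a (b (a (b (l 16764128) (l 16782200)) (l 16782960)) (a (b (a (l 16858744) (l 16803888)) (a (a (l 153713232007) (l 16912520)) (b (l 16828464) (l 16843640)))) (b (l 16777864) (l 16868272)))) (b (b (l 16687944) (l 16698304)) (b (l 16736984) (l 16886848)))) (b (a (a (a (l 16641824) (l 16644368)) (b (l 16596976) (l 16605384))) (l 16630296)) (a (b (a (a (l 16661728) (l 16561256)) (l 16621880)) (a (a (l 16684552) (l 16441376)) (l 16648784))) (b (l 16622088) (l 16639864))))) (a (b (a (l 16629704) (l 16713024)) (a (b (l 16637792) (l 16642328)) (l 16655872))) (b (a (l 16672480) (l 16682216)) (a (l 16664928) (l 16687440))))), by decide +kernel⟩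

def k1_pp_123 : ∃ t, chk3 f_pp_123 t 1 6 1 = true :=
  ⟨(b (a (a (b (a (a (a (l 3) (l 16857368)) (l 16823200)) (l 16760928)) (a (a (a (l 3) (b (l 16864640) (l 190220195511))) (a (l 16840696) (l 16779896))) (a (l 605972372287255492957199) (l 16754680)))) (a (a (a (l 16718424) (l 16728264)) (l 16680904)) (l 16659648))) (a (a (l 16646080) (l 16540360)) (l 16882864))) (a (a (a (a (b (a (l 3) (l 348596878007)) (l 3)) (b (a (a (l 16731376) (l 16827736)) (l 16814224)) (a (a (l 343228193079) (l 16739768)) (b (l 16797512) (l 16757728))))) (a (b (a (l 16795400) (l 16775360)) (a (l 16768936) (l 16748496))) (a (l 16659400) (l 16722952)))) (a (a (a (l 16704320) (a (l 16691272) (l 16688496))) (l 16665856)) (l 16634056))) (a (a (l 16611888) (l 16614328)) (l 1)))), by decide +kernel⟩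

def k2_pp_123 : ∃ t, chk3 f_pp_123 t 1 7 1 = true :=
  ⟨(a (a (a (a (l 3) (a (b (b (a (l 3) (l 247128200023)) (l 3)) (l 3)) (b (b (b (l 16735320) (a (l 16710792) (l 16721400))) (b (b (a (l 16705344) (l 16695064)) (a (b (l 16693744) (l 16702680)) (b (l 16683160) (l 16691776)))) (b (b (a (l 16715880) (l 16699264)) (a (l 16714608) (l 16697584))) (l 224579624039)))) (b (b (b (l 16652656) (l 16630568)) (l 224579523895)) (l 213842151927))))) (b (b (a (a (l 16722400) (l 16702368)) (a (l 16680432) (l 16659904))) (a (b (b (a (l 16681896) (l 16659944)) (a (b (l 16669240) (l 16676280)) (l 16648624))) (b (a (b (l 16678728) (l 16678496)) (l 16655840)) (a (l 16656416) (l 16638000)))) (b (b (l 16624232) (a (l 16623632) (l 16601992))) (b (a (l 16633184) (l 16613832)) (l 16610824))))) (b (a (b (a (b (l 16632464) (l 16614088)) (l 16609168)) (a (a (l 16591152) (l 16588648)) (l 16584760))) (b (a (l 16596072) (l 16583792)) (a (l 16578000) (l 1)))) (a (a (b (l 16558288)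 (l 1)) (l 1)) (l 1))))) (b (b (a (a (a (l 16639800) (l 16630072)) (l 16601520)) (l 16571768)) (a (a (a (b (b (l 16594200) (l 16584664)) (b (l 16598728) (l 16589872))) (b (b (l 16586696) (l 16620904)) (a (l 16586040) (b (l 16591280) (l 1))))) (b (l 16556248) (l 16573960))) (l 1))) (b (a (a (a (b (l 16574936) (l 1)) (l 1)) (l 1)) (l 1)) (l 1)))) (l 1)), by decide +kernel⟩

theorem s3_pp_123 : ∃ t, chk3 f_pp_123 t 1 3 1 = true := ex3_b k1_pp_123 k2_pp_123

theorem s4_pp_123 : ∃ t, chk3 f_pp_123 t 1 1 1 = true := ex3_b k0_pp_123 s3_pp_123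

theorem c_pp_123 : CertB 536870912 536870912 0 1230186008 649613803 48318383 3 eng mog cd1q1 cd5q3 pd2 false true true .npn 1 2 3
    ndB1q1 ndB5q3 pcB2 Cut.none xt_pp_123 :=
  certB2 (fam := false) (s1 := true) (s2 := true) (a := 1) (b := 2) (c := 3) (cn := .npn) (n1 := ndB1q1) (n2 := ndB5q3) (pc := pcB2) (cut := Cut.none) (xt := xt_pp_123) (P1 := 536870912) (W1 := 536870912) (P2 := 0) (W2 := 1230186008) (P3 := 649613803) (W3 := 48318383) (N0 := 3) (En := eng) (mo := mog) (C1 := cd1q1) (C2 := cd5q3) (C3 := pd2)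
    rfl (fun _ => rfl) s4_pp_123

noncomputable def f_pp_133 : ℕ → ℕ → ℕ → ℕ → Bool := onCell 536870912 536870912 0 1230186008 649613803 48318383
    (rowB 3 eng mog cd1q1 cd5q3 pd3 0 false true true .dn 1 3 3 (qsf 536870912 536870912 0 1230186008 3) ndB1q1 ndB5q3 pcB3 Cut.none Ext.none)

def k0_pp_133 : ∃ t, chk3 f_pp_133 t 1 1 1 = true :=
  ⟨(b (b (a (a (l 780644275351) (l 1)) (l 1)) (l 1)) (l 1)), by decide +kernel⟩

theorem c_pp_133 : CertB 536870912 536870912 0 1230186008 649613803 48318383 3 eng mog cd1q1 cd5q3 pd3 false true true .dn 1 3 3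
    ndB1q1 ndB5q3 pcB3 Cut.none Ext.none :=
  certB0 (fam := false) (s1 := true) (s2 := true) (a := 1) (b := 3) (c := 3) (cn := .dn) (n1 := ndB1q1) (n2 := ndB5q3) (pc := pcB3) (cut := Cut.none) (xt := Ext.none) (P1 := 536870912) (W1 := 536870912) (P2 := 0) (W2 := 1230186008) (P3 := 649613803) (W3 := 48318383) (N0 := 3) (En := eng) (mo := mog) (C1 := cd1q1) (C2 := cd5q3) (C3 := pd3)
    rfl k0_pp_133

noncomputable def f_pp_202_a : ℕ → ℕ → ℕ → ℕ → Bool := onCell 0 536870912 1073741824 536870912 649613803 48318383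
    (rowB 3 eng mog cd1q2a cd5q2 pd0 0 false true true .pp 2 0 2 (qsf 0 536870912 1073741824 536870912 0) ndB1q2a ndB5q2 pcB0 Cut.none Ext.none)

def k0_pp_202_a : ∃ t, chk3 f_pp_202_a t 1 1 1 = true :=
  ⟨(l 3), by decide +kernel⟩

theorem c_pp_202_a : CertB 0 536870912 1073741824 536870912 649613803 48318383 3 eng mog cd1q2a cd5q2 pd0 false true true .pp 2 0 2
    ndB1q2a ndB5q2 pcB0 Cut.none Ext.none :=
  certB0 (fam := false) (s1 := true) (s2 := true) (a := 2) (b := 0) (c := 2) (cn := .pp) (n1 := ndB1q2a) (n2 := ndB5q2) (pc := pcB0) (cut := Cut.none) (xt := Ext.none) (P1 := 0) (W1 := 536870912) (P2 := 1073741824) (W2 := 536870912) (P3 := 649613803) (W3 := 48318383) (N0 := 3) (En := eng) (mo := mog) (C1 := cd1q2a) (C2 := cd5q2) (C3 := pd0)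
    rfl k0_pp_202_a

noncomputable def f_pp_202_b : ℕ → ℕ → ℕ → ℕ → Bool := onCell 1239849684 370763052 1073741824 536870912 649613803 48318383
    (rowB 3 eng mog cd1q2b cd5q2 pd0 0 false true true .pp 2 0 2 (qsf 1239849684 370763052 1073741824 536870912 0) ndB1q2b ndB5q2 pcB0 Cut.none Ext.none)

def k0_pp_202_b : ∃ t, chk3 f_pp_202_b t 1 1 1 = true :=
  ⟨(l 3), by decide +kernel⟩

theorem c_pp_202_b : CertB 1239849684 370763052 1073741824 536870912 649613803 48318383 3 eng mog cd1q2b cd5q2 pd0 false true true .pp 2 0 2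
    ndB1q2b ndB5q2 pcB0 Cut.none Ext.none :=
  certB0 (fam := false) (s1 := true) (s2 := true) (a := 2) (b := 0) (c := 2) (cn := .pp) (n1 := ndB1q2b) (n2 := ndB5q2) (pc := pcB0) (cut := Cut.none) (xt := Ext.none) (P1 := 1239849684) (W1 := 370763052) (P2 := 1073741824) (W2 := 536870912) (P3 := 649613803) (W3 := 48318383) (N0 := 3) (En := eng) (mo := mog) (C1 := cd1q2b) (C2 := cd5q2) (C3 := pd0)
    rfl k0_pp_202_b

noncomputable def f_pp_203_a : ℕ → ℕ → ℕ → ℕ → Bool := onCell 0 536870912 0 1230186008 649613803 48318383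
    (rowB 3 eng mog cd1q2a cd5q3 pd0 0 false true true .up 2 0 3 (qsf 0 536870912 0 1230186008 0) ndB1q2a ndB5q3 pcB0 Cut.none Ext.none)

def k0_pp_203_a : ∃ t, chk3 f_pp_203_a t 1 1 1 = true :=
  ⟨(b (l 2) (l 3)), by decide +kernel⟩

theorem c_pp_203_a : CertB 0 536870912 0 1230186008 649613803 48318383 3 eng mog cd1q2a cd5q3 pd0 false true true .up 2 0 3
    ndB1q2a ndB5q3 pcB0 Cut.none Ext.none :=
  certB0 (fam := false) (s1 := true) (s2 := true) (a := 2) (b := 0) (c := 3) (cn := .up) (n1 := ndB1q2a) (n2 := ndB5q3) (pc := pcB0) (cut := Cut.none) (xt := Ext.none) (P1 := 0) (W1 := 536870912) (P2 := 0) (W2 := 1230186008) (P3 := 649613803) (W3 := 48318383) (N0 := 3) (En := eng) (mo := mog) (C1 := cd1q2a) (C2 := cd5q3) (C3 := pd0)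
    rfl k0_pp_203_a

noncomputable def f_pp_203_b : ℕ → ℕ → ℕ → ℕ → Bool := onCell 1239849684 370763052 0 1230186008 649613803 48318383
    (rowB 3 eng mog cd1q2b cd5q3 pd0 0 false true true .up 2 0 3 (qsf 1239849684 370763052 0 1230186008 0) ndB1q2b ndB5q3 pcB0 Cut.none Ext.none)

def k0_pp_203_b : ∃ t, chk3 f_pp_203_b t 1 1 1 = true :=
  ⟨(b (l 3) (l 3)), by decide +kernel⟩

theorem c_pp_203_b : CertB 1239849684 370763052 0 1230186008 649613803 48318383 3 eng mog cd1q2b cd5q3 pd0 false true true .up 2 0 3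
    ndB1q2b ndB5q3 pcB0 Cut.none Ext.none :=
  certB0 (fam := false) (s1 := true) (s2 := true) (a := 2) (b := 0) (c := 3) (cn := .up) (n1 := ndB1q2b) (n2 := ndB5q3) (pc := pcB0) (cut := Cut.none) (xt := Ext.none) (P1 := 1239849684) (W1 := 370763052) (P2 := 0) (W2 := 1230186008) (P3 := 649613803) (W3 := 48318383) (N0 := 3) (En := eng) (mo := mog) (C1 := cd1q2b) (C2 := cd5q3) (C3 := pd0)
    rfl k0_pp_203_b

noncomputable def cut_pp_213_a : Cut := Cut.of [[⟨0, 1, 0, 67108864⟩, ⟨1, 1, 0, 67108864⟩, ⟨2, 2, 0, 16777216⟩]]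

noncomputable def f_pp_213_a : ℕ → ℕ → ℕ → ℕ → Bool := onCell 0 536870912 0 1230186008 649613803 48318383
    (rowB 3 eng mog cd1q2a cd5q3 pd1 0 false true true .pnn 2 1 3 (qsf 0 536870912 0 1230186008 1) ndB1q2a ndB5q3 pcB1 cut_pp_213_a Ext.none)

def k0_pp_213_a : ∃ t, chk3 f_pp_213_a t 1 1 1 = true :=
  ⟨(b (a (l 3) (b (a (l 3) (a (l 3) (b (l 6) (l 3)))) (l 3))) (l 3)), by decide +kernel⟩

theorem c_pp_213_a : CertB 0 536870912 0 1230186008 649613803 48318383 3 eng mog cd1q2a cd5q3 pd1 false true true .pnn 2 1 3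
    ndB1q2a ndB5q3 pcB1 cut_pp_213_a Ext.none :=
  certB0 (fam := false) (s1 := true) (s2 := true) (a := 2) (b := 1) (c := 3) (cn := .pnn) (n1 := ndB1q2a) (n2 := ndB5q3) (pc := pcB1) (cut := cut_pp_213_a) (xt := Ext.none) (P1 := 0) (W1 := 536870912) (P2 := 0) (W2 := 1230186008) (P3 := 649613803) (W3 := 48318383) (N0 := 3) (En := eng) (mo := mog) (C1 := cd1q2a) (C2 := cd5q3) (C3 := pd1)
    rfl k0_pp_213_a

noncomputable def cut_pp_213_b : Cut := Cut.of [[⟨0, 1, 0, 67108864⟩, ⟨1, 1, 0, 67108864⟩, ⟨2, 2, 0, 16777216⟩]]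

noncomputable def f_pp_213_b : ℕ → ℕ → ℕ → ℕ → Bool := onCell 1239849684 370763052 0 1230186008 649613803 48318383
    (rowB 3 eng mog cd1q2b cd5q3 pd1 0 false true true .pnn 2 1 3 (qsf 1239849684 370763052 0 1230186008 1) ndB1q2b ndB5q3 pcB1 cut_pp_213_b Ext.none)

def k0_pp_213_b : ∃ t, chk3 f_pp_213_b t 1 1 1 = true :=
  ⟨(b (l 3) (l 3)), by decide +kernel⟩

theorem c_pp_213_b : CertB 1239849684 370763052 0 1230186008 649613803 48318383 3 eng mog cd1q2b cd5q3 pd1 false true true .pnn 2 1 3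
    ndB1q2b ndB5q3 pcB1 cut_pp_213_b Ext.none :=
  certB0 (fam := false) (s1 := true) (s2 := true) (a := 2) (b := 1) (c := 3) (cn := .pnn) (n1 := ndB1q2b) (n2 := ndB5q3) (pc := pcB1) (cut := cut_pp_213_b) (xt := Ext.none) (P1 := 1239849684) (W1 := 370763052) (P2 := 0) (W2 := 1230186008) (P3 := 649613803) (W3 := 48318383) (N0 := 3) (En := eng) (mo := mog) (C1 := cd1q2b) (C2 := cd5q3) (C3 := pd1)
    rfl k0_pp_213_b

noncomputable def f_pp_303 : ℕ → ℕ → ℕ → ℕ → Bool := onCell 1610612736 536870912 0 1230186008 649613803 48318383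
    (rowB 3 eng mog cd1q3 cd5q3 pd0 0 false true true .npn 3 0 3 (qsf 1610612736 536870912 0 1230186008 0) ndB1q3 ndB5q3 pcB0 Cut.none Ext.none)

def k0_pp_303 : ∃ t, chk3 f_pp_303 t 1 1 1 = true :=
  ⟨(b (l 3) (l 3)), by decide +kernel⟩

theorem c_pp_303 : CertB 1610612736 536870912 0 1230186008 649613803 48318383 3 eng mog cd1q3 cd5q3 pd0 false true true .npn 3 0 3
    ndB1q3 ndB5q3 pcB0 Cut.none Ext.none :=
  certB0 (fam := false) (s1 := true) (s2 := true) (a := 3) (b := 0) (c := 3) (cn := .npn) (n1 := ndB1q3) (n2 := ndB5q3) (pc := pcB0) (cut := Cut.none) (xt := Ext.none) (P1 := 1610612736) (W1 := 536870912) (P2 := 0) (W2 := 1230186008) (P3 := 649613803) (W3 := 48318383) (N0 := 3) (En := eng) (mo := mog) (C1 := cd1q3) (C2 := cd5q3) (C3 := pd0)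
    rfl k0_pp_303

noncomputable def f_pp_313 : ℕ → ℕ → ℕ → ℕ → Bool := onCell 1610612736 536870912 0 1230186008 649613803 48318383
    (rowB 3 eng mog cd1q3 cd5q3 pd1 0 false true true .dn 3 1 3 (qsf 1610612736 536870912 0 1230186008 1) ndB1q3 ndB5q3 pcB1 Cut.none Ext.none)

def k0_pp_313 : ∃ t, chk3 f_pp_313 t 1 1 1 = true :=
  ⟨(b (l 3) (l 1)), by decide +kernel⟩

theorem c_pp_313 : CertB 1610612736 536870912 0 1230186008 649613803 48318383 3 eng mog cd1q3 cd5q3 pd1 false true true .dn 3 1 3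
    ndB1q3 ndB5q3 pcB1 Cut.none Ext.none :=
  certB0 (fam := false) (s1 := true) (s2 := true) (a := 3) (b := 1) (c := 3) (cn := .dn) (n1 := ndB1q3) (n2 := ndB5q3) (pc := pcB1) (cut := Cut.none) (xt := Ext.none) (P1 := 1610612736) (W1 := 536870912) (P2 := 0) (W2 := 1230186008) (P3 := 649613803) (W3 := 48318383) (N0 := 3) (En := eng) (mo := mog) (C1 := cd1q3) (C2 := cd5q3) (C3 := pd1)
    rfl k0_pp_313

noncomputable def f_pm_001 : ℕ → ℕ → ℕ → ℕ → Bool := onCell 0 536870912 536870912 536870912 649613803 48318383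
    (rowB 3 eng mog cd1q0 cd5q1 pd0 0 false true false .up 0 0 1 (qsf 0 536870912 536870912 536870912 0) ndB1q0 ndB5q1 pcB0 Cut.none Ext.none)

def k0_pm_001 : ∃ t, chk3 f_pm_001 t 1 1 1 = true :=
  ⟨(l 4), by decide +kernel⟩

theorem c_pm_001 : CertB 0 536870912 536870912 536870912 649613803 48318383 3 eng mog cd1q0 cd5q1 pd0 false true false .up 0 0 1
    ndB1q0 ndB5q1 pcB0 Cut.none Ext.none :=
  certB0 (fam := false) (s1 := true) (s2 := false) (a := 0) (b := 0) (c := 1) (cn := .up) (n1 := ndB1q0) (n2 := ndB5q1) (pc := pcB0) (cut := Cut.none) (xt := Ext.none) (P1 := 0) (W1 := 536870912) (P2 := 536870912) (W2 := 536870912) (P3 := 649613803) (W3 := 48318383) (N0 := 3) (En := eng) (mo := mog) (C1 := cd1q0) (C2 := cd5q1) (C3 := pd0)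
    rfl k0_pm_001

noncomputable def f_pm_011 : ℕ → ℕ → ℕ → ℕ → Bool := onCell 0 536870912 536870912 536870912 649613803 48318383
    (rowB 3 eng mog cd1q0 cd5q1 pd1 0 false true false .pnn 0 1 1 (qsf 0 536870912 536870912 536870912 1) ndB1q0 ndB5q1 pcB1 Cut.none Ext.none)

def k0_pm_011 : ∃ t, chk3 f_pm_011 t 1 1 1 = true :=
  ⟨(l 4), by decide +kernel⟩

theorem c_pm_011 : CertB 0 536870912 536870912 536870912 649613803 48318383 3 eng mog cd1q0 cd5q1 pd1 false true false .pnn 0 1 1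
    ndB1q0 ndB5q1 pcB1 Cut.none Ext.none :=
  certB0 (fam := false) (s1 := true) (s2 := false) (a := 0) (b := 1) (c := 1) (cn := .pnn) (n1 := ndB1q0) (n2 := ndB5q1) (pc := pcB1) (cut := Cut.none) (xt := Ext.none) (P1 := 0) (W1 := 536870912) (P2 := 536870912) (W2 := 536870912) (P3 := 649613803) (W3 := 48318383) (N0 := 3) (En := eng) (mo := mog) (C1 := cd1q0) (C2 := cd5q1) (C3 := pd1)
    rfl k0_pm_011

noncomputable def f_pm_012 : ℕ → ℕ → ℕ → ℕ → Bool := onCell 0 536870912 1073741824 536870912 649613803 48318383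
    (rowB 3 eng mog cd1q0 cd5q2 pd1 0 false true false .pnp 0 1 2 (qsf 0 536870912 1073741824 536870912 1) ndB1q0 ndB5q2 pcB1 Cut.none Ext.none)

def k0_pm_012 : ∃ t, chk3 f_pm_012 t 1 1 1 = true :=
  ⟨(a (l 4) (a (l 4) (b (l 4) (l 4)))), by decide +kernel⟩

theorem c_pm_012 : CertB 0 536870912 1073741824 536870912 649613803 48318383 3 eng mog cd1q0 cd5q2 pd1 false true false .pnp 0 1 2
    ndB1q0 ndB5q2 pcB1 Cut.none Ext.none :=
  certB0 (fam := false) (s1 := true) (s2 := false) (a := 0) (b := 1) (c := 2) (cn := .pnp) (n1 := ndB1q0) (n2 := ndB5q2) (pc := pcB1) (cut := Cut.none) (xt := Ext.none) (P1 := 0) (W1 := 536870912) (P2 := 1073741824) (W2 := 536870912) (P3 := 649613803) (W3 := 48318383) (N0 := 3) (En := eng) (mo := mog) (C1 := cd1q0) (C2 := cd5q2) (C3 := pd1)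
    rfl k0_pm_012

noncomputable def f_pm_022 : ℕ → ℕ → ℕ → ℕ → Bool := onCell 0 536870912 1073741824 536870912 649613803 48318383
    (rowB 3 eng mog cd1q0 cd5q2 pd2 0 false true false .pp 0 2 2 (qsf 0 536870912 1073741824 536870912 2) ndB1q0 ndB5q2 pcB2 Cut.none Ext.none)

def k0_pm_022 : ∃ t, chk3 f_pm_022 t 1 1 1 = true :=
  ⟨(a (l 4) (a (l 4) (b (l 1) (l 4)))), by decide +kernel⟩

theorem c_pm_022 : CertB 0 536870912 1073741824 536870912 649613803 48318383 3 eng mog cd1q0 cd5q2 pd2 false true false .pp 0 2 2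
    ndB1q0 ndB5q2 pcB2 Cut.none Ext.none :=
  certB0 (fam := false) (s1 := true) (s2 := false) (a := 0) (b := 2) (c := 2) (cn := .pp) (n1 := ndB1q0) (n2 := ndB5q2) (pc := pcB2) (cut := Cut.none) (xt := Ext.none) (P1 := 0) (W1 := 536870912) (P2 := 1073741824) (W2 := 536870912) (P3 := 649613803) (W3 := 48318383) (N0 := 3) (En := eng) (mo := mog) (C1 := cd1q0) (C2 := cd5q2) (C3 := pd2)
    rfl k0_pm_022

noncomputable def f_pm_023 : ℕ → ℕ → ℕ → ℕ → Bool := onCell 0 536870912 0 1230186008 649613803 48318383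
    (rowB 3 eng mog cd1q0 cd5q3 pd2 0 false true false .up 0 2 3 (qsf 0 536870912 0 1230186008 2) ndB1q0 ndB5q3 pcB2 Cut.none Ext.none)

def k0_pm_023 : ∃ t, chk3 f_pm_023 t 1 1 1 = true :=
  ⟨(a (b (l 2) (l 4)) (b (a (l 2) (b (a (l 2) (l 16821752)) (a (b (l 16582032) (a (l 4) (l 16542216))) (b (l 16594296) (b (l 16554920) (l 16518648)))))) (b (a (l 4) (b (a (l 4) (b (l 16471032) (a (l 16416168) (l 16400088)))) (a (l 4) (a (l 4) (b (l 16330600) (l 16251840)))))) (b (b (a (l 4) (a (l 4) (l 16167024))) (l 4)) (l 4))))), by decide +kernel⟩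

theorem c_pm_023 : CertB 0 536870912 0 1230186008 649613803 48318383 3 eng mog cd1q0 cd5q3 pd2 false true false .up 0 2 3
    ndB1q0 ndB5q3 pcB2 Cut.none Ext.none :=
  certB0 (fam := false) (s1 := true) (s2 := false) (a := 0) (b := 2) (c := 3) (cn := .up) (n1 := ndB1q0) (n2 := ndB5q3) (pc := pcB2) (cut := Cut.none) (xt := Ext.none) (P1 := 0) (W1 := 536870912) (P2 := 0) (W2 := 1230186008) (P3 := 649613803) (W3 := 48318383) (N0 := 3) (En := eng) (mo := mog) (C1 := cd1q0) (C2 := cd5q3) (C3 := pd2)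
    rfl k0_pm_023

noncomputable def f_pm_033 : ℕ → ℕ → ℕ → ℕ → Bool := onCell 1610612736 536870912 0 1230186008 649613803 48318383
    (rowB 3 eng mog cd1q0 cd5q3 pd3 2 false true false .pnn 0 3 3 (qsf 0 536870912 0 1230186008 3) ndB1q0 ndB5q3 pcB3 Cut.none Ext.none)

def k0_pm_033 : ∃ t, chk3 f_pm_033 t 1 1 1 = true :=
  ⟨(b (a (a (a (a (l 16703976) (l 16607832)) (l 16809176)) (b (l 16580312) (l 4))) (l 4)) (b (a (l 4) (a (l 4) (b (a (l 4) (l 1)) (l 1)))) (a (b (l 4) (a (l 4) (b (a (l 4) (l 1)) (l 1)))) (l 1)))), by decide +kernel⟩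

theorem c_pm_033 : CertB 0 536870912 0 1230186008 649613803 48318383 3 eng mog cd1q0 cd5q3 pd3 false true false .pnn 0 3 3
    ndB1q0 ndB5q3 pcB3 Cut.none Ext.none :=
  certB2 (fam := false) (s1 := true) (s2 := false) (a := 0) (b := 3) (c := 3) (cn := .pnn) (n1 := ndB1q0) (n2 := ndB5q3) (pc := pcB3) (cut := Cut.none) (xt := Ext.none) (P1 := 0) (W1 := 536870912) (P2 := 0) (W2 := 1230186008) (P3 := 649613803) (W3 := 48318383) (N0 := 3) (En := eng) (mo := mog) (C1 := cd1q0) (C2 := cd5q3) (C3 := pd3)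
    rfl (fun _ => rfl) k0_pm_033

noncomputable def f_pm_101 : ℕ → ℕ → ℕ → ℕ → Bool := onCell 536870912 536870912 536870912 536870912 649613803 48318383
    (rowB 3 eng mog cd1q1 cd5q1 pd0 0 false true false .npn 1 0 1 (qsf 536870912 536870912 536870912 536870912 0) ndB1q1 ndB5q1 pcB0 Cut.none Ext.none)

def k0_pm_101 : ∃ t, chk3 f_pm_101 t 1 1 1 = true :=
  ⟨(l 4), by decide +kernel⟩

theorem c_pm_101 : CertB 536870912 536870912 536870912 536870912 649613803 48318383 3 eng mog cd1q1 cd5q1 pd0 false true false .npn 1 0 1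
    ndB1q1 ndB5q1 pcB0 Cut.none Ext.none :=
  certB0 (fam := false) (s1 := true) (s2 := false) (a := 1) (b := 0) (c := 1) (cn := .npn) (n1 := ndB1q1) (n2 := ndB5q1) (pc := pcB0) (cut := Cut.none) (xt := Ext.none) (P1 := 536870912) (W1 := 536870912) (P2 := 536870912) (W2 := 536870912) (P3 := 649613803) (W3 := 48318383) (N0 := 3) (En := eng) (mo := mog) (C1 := cd1q1) (C2 := cd5q1) (C3 := pd0)
    rfl k0_pm_101

noncomputable def f_pm_102 : ℕ → ℕ → ℕ → ℕ → Bool := onCell 536870912 536870912 0 536870912 649613803 48318383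
    (rowB 3 eng mog cd1q1 cd5q2 pd0 1 false true false .npp 1 0 2 (qsf 536870912 536870912 1073741824 536870912 0) ndB1q1 ndB5q2 pcB0 Cut.none Ext.none)

def k0_pm_102 : ∃ t, chk3 f_pm_102 t 2 1 1 = true :=
  ⟨(b (b (l 1) (a (l 1) (b (l 1) (a (l 1) (b (l 1) (a (l 1) (l 16216024))))))) (b (a (b (l 1) (a (l 1) (l 265783591847))) (a (b (l 258267271447) (b (l 16040424) (l 15980976))) (b (b (l 234108522663) (l 16197168)) (b (l 16091096) (l 16073176))))) (b (a (a (b (l 1) (l 255046168935)) (b (l 216391013575) (l 15913544))) (a (b (l 15941096) (l 15891696)) (b (l 16057984) (l 16030504)))) (a (a (b (l 16126312) (l 16133336)) (b (l 15937184) (l 15937160))) (a (a (l 15911320) (l 15923168)) (a (l 16100352) (l 16159944))))))), by decide +kernel⟩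

def k1_pm_102 : ∃ t, chk3 f_pm_102 t 3 2 1 = true :=
  ⟨(b (a (b (l 1) (a (l 1) (b (l 1) (b (l 1) (l 270616274791))))) (b (a (b (l 1) (a (l 1) (b (l 1) (a (l 1) (l 16491016))))) (b (a (b (l 1) (a (l 1) (a (l 1) (l 16506432)))) (a (b (l 16686408) (l 16504904)) (l 16508808))) (a (a (b (a (l 1) (l 16505432)) (l 16477328)) (l 126734963959)) (a (l 16485232) (l 16496128))))) (a (a (b (b (l 1) (l 16459544)) (b (l 16432288) (l 16409128))) (b (b (l 16470384) (l 16441800)) (b (l 16418584) (l 16405936)))) (b (a (a (l 16445800) (l 16461912)) (l 16487328)) (a (l 16460624) (l 16478240)))))) (a (a (b (b (l 1) (l 328061335495)) (b (l 263099831623) (l 238403674119))) (b (b (l 248067644471) (a (l 16339872) (l 16339592))) (b (a (l 16296376) (l 16312592)) (a (l 16272680) (l 16300720))))) (b (a (a (b (l 16628544) (l 16352760)) (b (l 16401424) (l 16411832))) (a (b (l 16468520) (l 16472008)) (b (l 16643160) (a (l 16476928) (l 16466664))))) (a (b (l 16386384) (a (l 16360800)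 (l 16445920))) (a (b (l 16646576) (l 16493856)) (b (l 16482600) (l 16496608))))))), by decide +kernel⟩

def k2_pm_102 : ∃ t, chk3 f_pm_102 t 3 3 1 = true :=
  ⟨(b (b (a (a (b (l 16210352) (l 16193448)) (b (l 16276168) (l 16302816))) (a (a (b (l 16381456) (l 16429136)) (b (l 16475824) (l 16509952))) (b (l 16517016) (l 16526760)))) (a (a (b (a (l 16157008) (l 16207440)) (a (l 16152744) (l 16212968))) (b (b (l 16299712) (l 16321960)) (b (l 16354704) (l 16393168)))) (b (a (a (l 16483600) (l 16540352)) (a (l 16545136) (l 16512128))) (a (a (l 16531568) (l 16563712)) (a (l 16552912) (l 16511456)))))) (b (a (a (b (a (l 16155464) (l 16248152)) (a (l 16167432) (l 16297544))) (b (a (l 16376208) (l 16498272)) (a (l 16441912) (l 16537912)))) (a (b (l 16576672) (l 16594016)) (b (l 16533584) (l 16530432)))) (a (a (a (l 16263280) (l 16394312)) (b (l 16526624) (l 16571368))) (a (a (l 16616536) (l 16597352)) (a (l 16549632) (l 16487808)))))), by decide +kernel⟩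

theorem s3_pm_102 : ∃ t, chk3 f_pm_102 t 3 1 1 = true := ex3_b k1_pm_102 k2_pm_102

theorem s4_pm_102 : ∃ t, chk3 f_pm_102 t 1 1 1 = true := ex3_a k0_pm_102 s3_pm_102

theorem c_pm_102 : CertB 536870912 536870912 1073741824 536870912 649613803 48318383 3 eng mog cd1q1 cd5q2 pd0 false true false .npp 1 0 2
    ndB1q1 ndB5q2 pcB0 Cut.none Ext.none :=
  certB1 (fam := false) (s1 := true) (s2 := false) (a := 1) (b := 0) (c := 2) (cn := .npp) (n1 := ndB1q1) (n2 := ndB5q2) (pc := pcB0) (cut := Cut.none) (xt := Ext.none) (P1 := 536870912) (W1 := 536870912) (P2 := 1073741824) (W2 := 536870912) (P3 := 649613803) (W3 := 48318383) (N0 := 3) (En := eng) (mo := mog) (C1 := cd1q1) (C2 := cd5q2) (C3 := pd0)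
    rfl (fun _ => rfl) s4_pm_102

noncomputable def f_pm_112 : ℕ → ℕ → ℕ → ℕ → Bool := onCell 536870912 536870912 1073741824 536870912 649613803 48318383
    (rowB 3 eng mog cd1q1 cd5q2 pd1 2 false true false .dn 1 1 2 (qsf 536870912 536870912 1073741824 536870912 1) ndB1q1 ndB5q2 pcB1 Cut.none Ext.none)

def k0_pm_112 : ∃ t, chk3 f_pm_112 t 1 1 1 = true :=
  ⟨(a (b (a (b (a (b (a (l 16040584) (l 4)) (a (l 15950720) (l 15998008))) (b (l 4) (a (l 15981720) (l 4)))) (a (b (b (a (l 15915000) (l 15923032)) (a (l 15930544) (l 15923064))) (b (l 16033592) (l 16155016))) (b (b (l 16048872) (a (l 15923592) (l 15929120))) (b (l 16145616) (l 16082800))))) (b (l 4) (a (b (b (l 4) (l 96870489607)) (a (l 16103152) (l 16006432))) (b (l 4) (l 87206588407))))) (b (a (b (a (l 16323528) (l 16224232)) (a (l 16521152) (l 16421312))) (b (a (a (l 16159368) (l 16114504)) (l 16112608)) (a (l 16306784) (b (l 16156376) (l 16232632))))) (a (b (a (l 16652240) (l 16612280)) (a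 (l 16675480) (l 16734200))) (b (a (l 16507064) (l 16373680)) (a (l 16708608) (l 16600768)))))) (b (l 4) (a (b (a (b (l 16019720) (a (l 16117936) (l 16066096))) (b (l 4) (l 16007888))) (a (b (a (l 16271168) (l 16201616)) (l 16444856)) (b (a (l 16136048) (l 16076320)) (l 16277360)))) (b (l 4) (a (b (l 15998656) (b (l 16087376) (l 16168704))) (b (l 4) (l 66268920391))))))), by decide +kernel⟩

theorem c_pm_112 : CertB 536870912 536870912 1073741824 536870912 649613803 48318383 3 eng mog cd1q1 cd5q2 pd1 false true false .dn 1 1 2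
    ndB1q1 ndB5q2 pcB1 Cut.none Ext.none :=
  certB2 (fam := false) (s1 := true) (s2 := false) (a := 1) (b := 1) (c := 2) (cn := .dn) (n1 := ndB1q1) (n2 := ndB5q2) (pc := pcB1) (cut := Cut.none) (xt := Ext.none) (P1 := 536870912) (W1 := 536870912) (P2 := 1073741824) (W2 := 536870912) (P3 := 649613803) (W3 := 48318383) (N0 := 3) (En := eng) (mo := mog) (C1 := cd1q1) (C2 := cd5q2) (C3 := pd1)
    rfl (fun _ => rfl) k0_pm_112

noncomputable def f_pm_113 : ℕ → ℕ → ℕ → ℕ → Bool := onCell 536870912 536870912 0 1230186008 649613803 48318383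
    (rowB 3 eng mog cd1q1 cd5q3 pd1 0 false true false .nn 1 1 3 (qsf 536870912 536870912 0 1230186008 1) ndB1q1 ndB5q3 pcB1 Cut.none Ext.none)

def k0_pm_113 : ∃ t, chk3 f_pm_113 t 1 1 1 = true :=
  ⟨(b (a (l 2) (a (l 2) (b (a (l 2) (a (l 2) (b (a (l 2) (l 16770000)) (l 16781200)))) (a (b (l 16736584) (l 16756576)) (b (a (l 16776992) (l 16811960)) (a (l 16811904) (l 16856800))))))) (b (a (a (l 2) (b (l 2) (a (l 2) (a (l 2) (l 184247232583))))) (a (b (a (l 2) (b (l 16671128) (l 16671440))) (a (b (l 16543168) (l 16566184)) (b (l 16687416) (l 16711784)))) (a (b (b (l 16775304) (l 16789976)) (b (l 16821024) (l 16861312))) (b (a (l 16858280) (b (l 16900888) (l 16939944))) (b (l 16955888) (l 17026368)))))) (a (a (b (l 2) (a (b (l 2) (b (l 169750453879) (l 159013146711))) (b (b (l 16049384) (l 16058496)) (l 16104448)))) (b (b (a (b (l 2) (l 188541577415)) (l 16454256)) (b (a (a (l 2) (l 16353752)) (l 16434280)) (a (b (l 16276208) (l 16276304)) (b (l 16451024)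 (l 16451720))))) (b (b (a (l 16284616) (l 16459192)) (a (l 16287672) (l 16466448))) (a (l 16303016) (l 16513288))))) (b (b (a (a (l 16594464) (l 16742480)) (a (l 16912816) (l 17081440))) (a (b (a (l 16615080) (b (l 16765912) (l 16769376))) (a (b (l 16594792) (l 16596224)) (b (l 16754536) (l 16760416)))) (b (a (l 16954576) (b (l 17085088) (l 17098416))) (a (l 16950040) (a (l 17129160) (l 17076440)))))) (b (b (a (a (l 16606600) (l 16776264)) (a (l 16976200) (l 17099032))) (a (a (l 16618712) (l 16794312)) (a (l 17003784) (l 16964832)))) (a (a (l 16668984) (l 16850344)) (a (l 16898632) (a (l 16825488) (l 16745448))))))))), by decide +kernel⟩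

theorem c_pm_113 : CertB 536870912 536870912 0 1230186008 649613803 48318383 3 eng mog cd1q1 cd5q3 pd1 false true false .nn 1 1 3
    ndB1q1 ndB5q3 pcB1 Cut.none Ext.none :=
  certB0 (fam := false) (s1 := true) (s2 := false) (a := 1) (b := 1) (c := 3) (cn := .nn) (n1 := ndB1q1) (n2 := ndB5q3) (pc := pcB1) (cut := Cut.none) (xt := Ext.none) (P1 := 536870912) (W1 := 536870912) (P2 := 0) (W2 := 1230186008) (P3 := 649613803) (W3 := 48318383) (N0 := 3) (En := eng) (mo := mog) (C1 := cd1q1) (C2 := cd5q3) (C3 := pd1)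
    rfl k0_pm_113

noncomputable def f_pm_123 : ℕ → ℕ → ℕ → ℕ → Bool := onCell 1073741824 536870912 0 1230186008 649613803 48318383
    (rowB 3 eng mog cd1q1 cd5q3 pd2 2 false true false .npn 1 2 3 (qsf 536870912 536870912 0 1230186008 2) ndB1q1 ndB5q3 pcB2 Cut.none Ext.none)

def k0_pm_123 : ∃ t, chk3 f_pm_123 t 1 1 1 = true :=
  ⟨(a (b (a (b (a (b (l 16740824) (a (l 16748008) (l 16710480))) (b (l 16672848) (l 16650240))) (a (b (a (l 16741344) (l 16696736)) (a (l 16736584) (l 16669584))) (b (l 16598032) (a (l 16598272) (l 16532984))))) (b (a (a (b (l 16658680) (l 16584352)) (l 16688088)) (l 16574792)) (a (b (a (l 16537328) (l 16498440)) (a (l 16480232) (l 16451448))) (b (l 16521808) (l 16473960))))) (b (a (b (a (b (a (l 16698504) (l 16607232)) (l 16371032)) (b (l 16499328) (l 16445784))) (a (b (a (l 16551408) (l 16478168)) (b (l 16482528) (l 16510960))) (b (l 16417288) (l 16342488)))) (b (a (a (l 16408136) (l 16554304)) (l 16631376)) (a (a (l 16321096)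 (l 16302904)) (l 16304488)))) (b (b (a (a (a (l 16395304) (l 16335368)) (l 16268912)) (a (l 16215656) (l 16208160))) (a (b (a (b (l 16303424) (l 16243832)) (l 16193424)) (a (b (l 16193176) (l 16146248)) (b (l 16106096) (l 16070624)))) (a (b (a (l 16152440) (l 16149192)) (a (l 16080168) (l 4))) (l 1)))) (a (b (a (b (l 16075536) (l 15993688)) (b (l 16035464) (l 16000960))) (a (a (l 15934200) (l 15951016)) (l 4))) (l 4))))) (b (a (b (a (l 16601120) (l 16415416)) (a (b (l 16552432) (l 16497656)) (b (l 16571864) (l 16520328)))) (b (a (l 16625896) (l 16652424)) (a (l 16586336) (l 16601136)))) (b (a (b (a (l 16418624) (l 16631000)) (a (l 16319680) (a (l 16345440) (l 1)))) (a (b (l 16482632) (l 1)) (l 1))) (l 1)))), by decide +kernel⟩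

theorem c_pm_123 : CertB 536870912 536870912 0 1230186008 649613803 48318383 3 eng mog cd1q1 cd5q3 pd2 false true false .npn 1 2 3
    ndB1q1 ndB5q3 pcB2 Cut.none Ext.none :=
  certB2 (fam := false) (s1 := true) (s2 := false) (a := 1) (b := 2) (c := 3) (cn := .npn) (n1 := ndB1q1) (n2 := ndB5q3) (pc := pcB2) (cut := Cut.none) (xt := Ext.none) (P1 := 536870912) (W1 := 536870912) (P2 := 0) (W2 := 1230186008) (P3 := 649613803) (W3 := 48318383) (N0 := 3) (En := eng) (mo := mog) (C1 := cd1q1) (C2 := cd5q3) (C3 := pd2)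
    rfl (fun _ => rfl) k0_pm_123

noncomputable def f_pm_133 : ℕ → ℕ → ℕ → ℕ → Bool := onCell 1610612736 536870912 0 1230186008 649613803 48318383
    (rowB 3 eng mog cd1q1 cd5q3 pd3 2 false true false .dn 1 3 3 (qsf 536870912 536870912 0 1230186008 3) ndB1q1 ndB5q3 pcB3 Cut.none Ext.none)

def k0_pm_133 : ∃ t, chk3 f_pm_133 t 1 1 1 = true :=
  ⟨(b (a (a (a (l 83785652471) (l 1)) (l 1)) (l 1)) (l 1)), by decide +kernel⟩

theorem c_pm_133 : CertB 536870912 536870912 0 1230186008 649613803 48318383 3 eng mog cd1q1 cd5q3 pd3 false true false .dn 1 3 3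
    ndB1q1 ndB5q3 pcB3 Cut.none Ext.none :=
  certB2 (fam := false) (s1 := true) (s2 := false) (a := 1) (b := 3) (c := 3) (cn := .dn) (n1 := ndB1q1) (n2 := ndB5q3) (pc := pcB3) (cut := Cut.none) (xt := Ext.none) (P1 := 536870912) (W1 := 536870912) (P2 := 0) (W2 := 1230186008) (P3 := 649613803) (W3 := 48318383) (N0 := 3) (En := eng) (mo := mog) (C1 := cd1q1) (C2 := cd5q3) (C3 := pd3)
    rfl (fun _ => rfl) k0_pm_133

noncomputable def f_pm_202_a : ℕ → ℕ → ℕ → ℕ → Bool := onCell 0 536870912 1073741824 536870912 649613803 48318383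
    (rowB 3 eng mog cd1q2a cd5q2 pd0 0 false true false .pp 2 0 2 (qsf 0 536870912 1073741824 536870912 0) ndB1q2a ndB5q2 pcB0 Cut.none Ext.none)

def k0_pm_202_a : ∃ t, chk3 f_pm_202_a t 2 1 1 = true :=
  ⟨(b (a (l 3) (b (b (l 1) (b (l 1) (a (l 1) (b (l 1) (b (l 1) (l 3)))))) (b (l 3) (l 3)))) (l 3)), by decide +kernel⟩

def k1_pm_202_a : ∃ t, chk3 f_pm_202_a t 3 4 1 = true :=
  ⟨(a (b (l 1) (a (b (l 1) (a (a (b (l 1) (b (c (l 1522598957143) (l 1257384776471)) (a (c (b (a (l 16516944) (l 16525752)) (a (l 16523464) (l 16526296))) (b (a (l 16510696) (l 16514664)) (a (l 16512616) (l 16515728)))) (c (l 16583544) (b (l 16522128) (l 16524312)))))) (b (l 16548864) (a (b (l 16539864) (l 16536280)) (l 16547592)))) (b (a (l 16558128) (l 16558104)) (c (l 16547048) (l 16550968))))) (b (b (a (l 1) (l 16574480)) (a (l 16567440) (l 16563624))) (a (b (l 16536176) (l 16526368)) (b (l 16553224) (l 16543424)))))) (b (a (b (l 1) (a (b (l 1) (l 16581160)) (b (b (l 16590048)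 (l 16582984)) (l 16574080)))) (b (b (a (l 1) (a (l 16588848) (l 16581152))) (a (a (b (l 1) (l 16587480)) (a (l 16647552) (l 16581720))) (a (b (l 16579752) (l 16574080)) (l 16568808)))) (a (b (b (l 16578648) (l 16573264)) (l 16562592)) (b (l 16561384) (l 16550384))))) (a (b (a (b (l 16569568) (l 16558408)) (l 16556136)) (a (l 16542848) (l 16535296))) (a (b (l 16545568) (l 16525528)) (b (l 16534168) (l 16516120)))))), by decide +kernel⟩

def k2_pm_202_a : ∃ t, chk3 f_pm_202_a t 6 10 1 = true :=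
  ⟨(a (a (b (a (a (b (b (b (c (l 16525784) (l 16515744)) (l 163375875447)) (a (l 16522552) (l 16567056))) (l 16442224)) (b (b (c (l 16594984) (a (b (l 16520664) (l 16522008)) (l 16525968))) (a (c (l 16530320) (l 16544096)) (l 16573160))) (b (l 16550360) (c (l 118278897063) (l 16528128))))) (b (b (a (b (l 16536928) (l 16536328)) (l 16561240)) (a (a (l 16533056) (l 16624016)) (b (l 16536728) (l 16534328)))) (b (a (a (l 16530064) (l 16530472)) (b (l 16532064) (l 16529896))) (a (a (l 16525904) (l 16526280)) (l 16568712))))) (a (a (l 3) (b (b (a (l 16521328) (l 16521672)) (l 116131411111)) (l 134385073815))) (b (a (b (l 16522200) (c (l 16518264) (l 16520576))) (b (l 16522840) (l 16519344))) (a (c (l 16518680) (l 16521096)) (c (l 16519552) (l 16521152)))))) (b (b (a (b (b (l 16542152) (l 16602840)) (b (a (l 16537216) (l 16537512)) (l 16535064))) (b (l 16541152) (b (l 16537800) (l 16535448)))) (b (a (a (b (l 16532600) (l 16530376)) (l 16531936)) (l 16531992))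 (a (a (l 16527224) (l 16527456)) (b (l 16528744) (l 16526672))))) (a (b (a (b (l 16523256) (l 16519720)) (b (l 16523448) (l 16519880))) (a (l 16530768) (c (l 16521624) (l 16520768)))) (b (b (l 16523624) (l 16519968)) (c (l 16522904) (l 16520144)))))) (b (b (a (l 16485696) (l 16534312)) (b (a (a (l 16532032) (l 16530880)) (l 16527976)) (a (a (l 16527656) (l 16526520)) (l 16524176)))) (a (b (a (b (l 16523528) (l 16519904)) (l 16520520)) (a (l 16541800) (l 16519976))) (b (a (l 16518488) (l 16517432)) (l 16517864))))), by decide +kernel⟩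

def k3_pm_202_a : ∃ t, chk3 f_pm_202_a t 6 11 1 = true :=
  ⟨(a (a (b (a (l 3) (a (l 162302478903) (b (l 16520456) (l 16518200)))) (a (l 3) (b (c (l 208473242023) (l 230484868215)) (l 236927340263)))) (b (a (b (a (l 16521064) (l 16521624)) (l 16520160)) (b (a (l 16521896) (l 16522336)) (l 16521664))) (a (b (a (l 16514912) (l 16517112)) (a (l 16512840) (l 16514392))) (b (l 16519640) (l 16517552))))) (a (b (b (a (l 16522688) (l 16522136)) (a (l 16522544) (l 16522616))) (a (b (l 16521448) (l 16519968)) (b (l 16522016) (l 16520456)))) (b (b (a (l 16520864) (l 16520160)) (l 16542712)) (b (l 16521704) (l 16520608))))), by decide +kernel⟩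

def k4_pm_202_a : ∃ t, chk3 f_pm_202_a t 7 5 1 = true :=
  ⟨(b (a (b (a (l 16524976) (l 16518096)) (b (a (a (l 16515616) (l 16512224)) (l 16507936)) (a (a (l 16515392) (l 16512848)) (l 16509792)))) (b (a (l 16509776) (l 16503112)) (a (b (l 16501208) (l 16503536)) (b (l 16496976) (l 16499928))))) (a (b (a (l 16539680) (b (l 16513344) (l 16515696))) (a (b (l 16519792) (l 16519192)) (l 16516520))) (b (a (b (l 16508912) (l 16511272)) (l 16507640)) (a (l 16512696) (l 16510376))))), by decide +kernel⟩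

def k5_pm_202_a : ∃ t, chk3 f_pm_202_a t 3 3 1 = true :=
  ⟨(a (b (b (a (a (b (a (l 3) (b (l 274508273063) (l 3))) (l 3)) (a (b (b (a (l 16511168) (l 16512704)) (a (l 16510000) (l 16510840))) (a (l 219747471463) (l 250885916903))) (b (a (b (l 16513824) (l 16511864)) (l 16617360)) (a (l 16509416) (l 16508968))))) (a (b (a (l 16515832) (l 16517200)) (a (a (l 16569976) (l 16508744)) (l 16510104))) (b (b (l 16518824) (l 16516144)) (a (l 16510976) (l 16511664))))) (a (a (l 3) (b (b (a (a (l 3) (l 16510016)) (l 16507424)) (a (l 3) (l 16507400))) (a (l 3) (b (l 16508496) (l 16509992))))) (a (b (a (b (l 16502600) (l 16500944)) (l 16501440)) (b (a (l 16500392) (l 16493704)) (l 16535832))) (b (l 16504512) (l 16494000))))) (b (a (a (l 3) (b (a (l 3) (l 146733187831)) (l 3))) (b (a (a (l 16500080) (l 16484144)) (l 16481656)) (a (a (l 196661970119) (l 16481216)) (a (l 16466096) (l 16468512))))) (a (l 3) (a (b (a (l 176797746999) (l 16479112)) (a (l 134922080871)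 (b (l 16478168) (l 16477784)))) (b (a (l 16453496) (l 16450296)) (a (l 16492504) (l 16426128))))))) (b (b (a (b (a (l 16517104) (b (l 16515264) (l 16513584))) (a (l 16511832) (l 16573480))) (b (a (l 16511312) (l 16509536)) (a (l 16507808) (l 16507120)))) (a (a (b (l 16505024) (l 16495544)) (b (l 16504736) (l 16496192))) (b (a (l 16503304) (l 16503048)) (a (l 16495280) (l 16495608))))) (a (b (b (a (l 16484152) (l 16484744)) (a (l 16470160) (l 16470304))) (a (l 16441768) (l 16445760))) (b (a (l 16478552) (l 16480616)) (a (l 16447280) (l 16452432)))))), by decide +kernel⟩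

theorem s6_pm_202_a : ∃ t, chk3 f_pm_202_a t 6 5 1 = true := ex3_b k2_pm_202_a k3_pm_202_a

theorem s7_pm_202_a : ∃ t, chk3 f_pm_202_a t 3 5 1 = true := ex3_a s6_pm_202_a k4_pm_202_a

theorem s8_pm_202_a : ∃ t, chk3 f_pm_202_a t 3 2 1 = true := ex3_b k1_pm_202_a s7_pm_202_a

theorem s9_pm_202_a : ∃ t, chk3 f_pm_202_a t 3 1 1 = true := ex3_b s8_pm_202_a k5_pm_202_a

theorem s10_pm_202_a : ∃ t, chk3 f_pm_202_a t 1 1 1 = true := ex3_a k0_pm_202_a s9_pm_202_a

theorem c_pm_202_a : CertB 0 536870912 1073741824 536870912 649613803 48318383 3 eng mog cd1q2a cd5q2 pd0 false true false .pp 2 0 2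
    ndB1q2a ndB5q2 pcB0 Cut.none Ext.none :=
  certB0 (fam := false) (s1 := true) (s2 := false) (a := 2) (b := 0) (c := 2) (cn := .pp) (n1 := ndB1q2a) (n2 := ndB5q2) (pc := pcB0) (cut := Cut.none) (xt := Ext.none) (P1 := 0) (W1 := 536870912) (P2 := 1073741824) (W2 := 536870912) (P3 := 649613803) (W3 := 48318383) (N0 := 3) (En := eng) (mo := mog) (C1 := cd1q2a) (C2 := cd5q2) (C3 := pd0)
    rfl s10_pm_202_a

noncomputable def f_pm_202_b : ℕ → ℕ → ℕ → ℕ → Bool := onCell 1239849684 370763052 1073741824 536870912 649613803 48318383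
    (rowB 3 eng mog cd1q2b cd5q2 pd0 0 false true false .pp 2 0 2 (qsf 1239849684 370763052 1073741824 536870912 0) ndB1q2b ndB5q2 pcB0 Cut.none Ext.none)

def k0_pm_202_b : ∃ t, chk3 f_pm_202_b t 1 1 1 = true :=
  ⟨(l 3), by decide +kernel⟩

theorem c_pm_202_b : CertB 1239849684 370763052 1073741824 536870912 649613803 48318383 3 eng mog cd1q2b cd5q2 pd0 false true false .pp 2 0 2
    ndB1q2b ndB5q2 pcB0 Cut.none Ext.none :=
  certB0 (fam := false) (s1 := true) (s2 := false) (a := 2) (b := 0) (c := 2) (cn := .pp) (n1 := ndB1q2b) (n2 := ndB5q2) (pc := pcB0) (cut := Cut.none) (xt := Ext.none) (P1 := 1239849684) (W1 := 370763052) (P2 := 1073741824) (W2 := 536870912) (P3 := 649613803) (W3 := 48318383) (N0 := 3) (En := eng) (mo := mog) (C1 := cd1q2b) (C2 := cd5q2) (C3 := pd0)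
    rfl k0_pm_202_b

noncomputable def f_pm_203_a : ℕ → ℕ → ℕ → ℕ → Bool := onCell 0 536870912 0 1230186008 649613803 48318383
    (rowB 3 eng mog cd1q2a cd5q3 pd0 0 false true false .up 2 0 3 (qsf 0 536870912 0 1230186008 0) ndB1q2a ndB5q3 pcB0 Cut.none Ext.none)

def k0_pm_203_a : ∃ t, chk3 f_pm_203_a t 1 1 1 = true :=
  ⟨(b (l 2) (b (l 2) (a (l 3) (b (l 2) (a (a (l 3) (a (a (l 3) (b (l 3) (b (l 16556928) (b (l 16493872) (l 16483472))))) (b (b (l 2) (a (b (l 2) (l 16539520)) (l 70967266119))) (b (a (l 109152209303) (l 16517088)) (a (b (l 16493096) (l 16482640)) (l 16490864)))))) (b (a (b (l 2) (a (a (l 16553936) (l 2)) (l 2))) (l 2)) (a (a (a (b (l 16520944) (l 16492704)) (l 16509984)) (l 16518064)) (a (l 16531504) (l 16550032))))))))), by decide +kernel⟩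

theorem c_pm_203_a : CertB 0 536870912 0 1230186008 649613803 48318383 3 eng mog cd1q2a cd5q3 pd0 false true false .up 2 0 3
    ndB1q2a ndB5q3 pcB0 Cut.none Ext.none :=
  certB0 (fam := false) (s1 := true) (s2 := false) (a := 2) (b := 0) (c := 3) (cn := .up) (n1 := ndB1q2a) (n2 := ndB5q3) (pc := pcB0) (cut := Cut.none) (xt := Ext.none) (P1 := 0) (W1 := 536870912) (P2 := 0) (W2 := 1230186008) (P3 := 649613803) (W3 := 48318383) (N0 := 3) (En := eng) (mo := mog) (C1 := cd1q2a) (C2 := cd5q3) (C3 := pd0)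
    rfl k0_pm_203_a

noncomputable def f_pm_203_b : ℕ → ℕ → ℕ → ℕ → Bool := onCell 1239849684 370763052 0 1230186008 649613803 48318383
    (rowB 3 eng mog cd1q2b cd5q3 pd0 0 false true false .up 2 0 3 (qsf 1239849684 370763052 0 1230186008 0) ndB1q2b ndB5q3 pcB0 Cut.none Ext.none)

def k0_pm_203_b : ∃ t, chk3 f_pm_203_b t 1 1 1 = true :=
  ⟨(b (l 3) (l 3)), by decide +kernel⟩

theorem c_pm_203_b : CertB 1239849684 370763052 0 1230186008 649613803 48318383 3 eng mog cd1q2b cd5q3 pd0 false true false .up 2 0 3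
    ndB1q2b ndB5q3 pcB0 Cut.none Ext.none :=
  certB0 (fam := false) (s1 := true) (s2 := false) (a := 2) (b := 0) (c := 3) (cn := .up) (n1 := ndB1q2b) (n2 := ndB5q3) (pc := pcB0) (cut := Cut.none) (xt := Ext.none) (P1 := 1239849684) (W1 := 370763052) (P2 := 0) (W2 := 1230186008) (P3 := 649613803) (W3 := 48318383) (N0 := 3) (En := eng) (mo := mog) (C1 := cd1q2b) (C2 := cd5q3) (C3 := pd0)
    rfl k0_pm_203_b

noncomputable def cut_pm_213_a : Cut := Cut.of [[⟨0, 1, 0, 67108864⟩, ⟨1, 1, 0, 67108864⟩, ⟨2, 2, 0, 16777216⟩]]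

noncomputable def f_pm_213_a : ℕ → ℕ → ℕ → ℕ → Bool := onCell 0 536870912 0 1230186008 649613803 48318383
    (rowB 3 eng mog cd1q2a cd5q3 pd1 0 false true false .pnn 2 1 3 (qsf 0 536870912 0 1230186008 1) ndB1q2a ndB5q3 pcB1 cut_pm_213_a Ext.none)

def k0_pm_213_a : ∃ t, chk3 f_pm_213_a t 1 2 1 = true :=
  ⟨(a (l 3) (a (l 3) (b (a (l 3) (b (l 6) (a (a (l 3) (b (l 3) (b (l 3) (b (l 417316501671) (l 307257971479))))) (b (a (l 6) (l 6)) (a (a (b (a (l 370608731511) (l 16793312)) (l 16798560)) (b (l 16794280) (l 16800072))) (l 16798496)))))) (b (a (l 3) (a (b (a (l 3) (b (a (l 429664546567) (l 252497132311)) (a (l 243907158871) (l 16809600)))) (a (b (l 301352416823) (a (l 3) (l 238538482919))) (b (a (l 220821757767) (l 16816536)) (l 16822360)))) (a (b (b (l 16805664) (l 16812584)) (l 16823864)) (b (l 16812792) (l 16828664))))) (a (a (l 3) (a (l 3) (b (b (l 3) (l 3)) (a (b (l 3) (l 236391150535)) (b (l 263234690087) (l 16877096)))))) (a (b (a (b (a (l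 258939585175) (l 254644623527)) (a (l 220284892759) (l 16829368))) (b (l 16829176) (l 16835616))) (a (b (a (l 16828928) (l 16833848)) (l 16834416)) (l 16823360))) (b (a (l 16839144) (l 16846992)) (a (l 16854768) (l 16866080))))))))), by decide +kernel⟩

def k1_pm_213_a : ∃ t, chk3 f_pm_213_a t 2 3 1 = true :=
  ⟨(b (l 3) (l 3)), by decide +kernel⟩

def k2_pm_213_a : ∃ t, chk3 f_pm_213_a t 3 6 1 = true :=
  ⟨(b (a (l 3) (a (b (a (l 3) (a (b (l 3) (b (l 181093325927) (l 176798356503))) (b (a (l 211695098263) (l 16824776)) (b (l 16862544) (l 16820624))))) (a (l 3) (a (b (b (a (l 3) (l 169819010535)) (b (l 163913429095) (l 161229081047))) (b (a (l 153712853911) (l 16804448)) (l 142975449495))) (b (b (l 16820808) (b (l 16821120) (l 16821656))) (b (l 16820064) (l 16817176)))))) (b (a (a (b (l 16752872) (l 16838736)) (l 16854168)) (a (l 16869992) (l 16886032))) (a (a (b (l 16757000) (l 16754936)) (b (l 16861344) (l 16859808))) (l 16893360))))) (a (l 3) (a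 (b (a (a (l 3) (a (b (l 3) (l 220284939031)) (b (l 289004456999) (l 154249848935)))) (b (a (b (l 16770864) (l 16788584)) (l 16813424)) (a (l 16763296) (l 16808520)))) (a (a (b (l 3) (l 178408951735)) (b (b (l 158544766647) (l 16756568)) (b (l 16751240) (l 16744432)))) (b (a (l 16778256) (l 16802984)) (a (l 16768304) (l 16791896))))) (a (b (a (b (l 16836792) (l 16832728)) (l 16730568)) (b (l 16837152) (l 16829576))) (b (l 16892792) (l 16887296)))))), by decide +kernel⟩

def k3_pm_213_a : ∃ t, chk3 f_pm_213_a t 3 7 1 = true :=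
  ⟨(a (a (l 3) (b (a (l 3) (b (b (l 3) (l 130627196775)) (a (l 3) (b (b (l 16642864) (b (l 111836706023) (l 16632144))) (b (b (l 16639912) (l 16642008)) (l 16622432)))))) (b (a (l 3) (b (b (l 103246634823) (l 94656666727)) (a (b (l 16557936) (l 16542744)) (l 16566504)))) (l 1)))) (b (b (a (a (a (b (l 130627388151) (l 16685808)) (b (l 16730696) (l 16704880))) (b (a (l 16751288) (l 16774032)) (a (l 16728192) (l 16752008)))) (b (l 16845512) (l 16828768))) (a (b (a (b (l 16669408) (b (l 16657528) (l 16665736))) (b (l 16716928) (b (l 16707600) (l 16718528)))) (b (a (b (l 16675768) (l 16677728)) (b (l 16734128) (l 16736792))) (a (l 16657632) (l 16712120)))) (b (b (l 16812400) (b (l 16785112) (l 16819656))) (b (a (l 16784808) (l 16836768)) (a (l 16784808) (l 16877712)))))) (b (a (b (a (b (l 16634608) (l 16616352)) (l 16670360)) (a (a (l 16586624) (l 16600872)) (l 16630792))) (b (b (l 16771912) (l 16756104)) (b (l 16724296) (l 16691128)))) (a (a (a (b (l 16557344)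 (l 1)) (l 16558136)) (l 16574624)) (a (l 16641824) (l 16635120)))))), by decide +kernel⟩

theorem s4_pm_213_a : ∃ t, chk3 f_pm_213_a t 3 3 1 = true := ex3_b k2_pm_213_a k3_pm_213_a

theorem s5_pm_213_a : ∃ t, chk3 f_pm_213_a t 1 3 1 = true := ex3_a k1_pm_213_a s4_pm_213_a

theorem s6_pm_213_a : ∃ t, chk3 f_pm_213_a t 1 1 1 = true := ex3_b k0_pm_213_a s5_pm_213_a

theorem c_pm_213_a : CertB 0 536870912 0 1230186008 649613803 48318383 3 eng mog cd1q2a cd5q3 pd1 false true false .pnn 2 1 3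
    ndB1q2a ndB5q3 pcB1 cut_pm_213_a Ext.none :=
  certB0 (fam := false) (s1 := true) (s2 := false) (a := 2) (b := 1) (c := 3) (cn := .pnn) (n1 := ndB1q2a) (n2 := ndB5q3) (pc := pcB1) (cut := cut_pm_213_a) (xt := Ext.none) (P1 := 0) (W1 := 536870912) (P2 := 0) (W2 := 1230186008) (P3 := 649613803) (W3 := 48318383) (N0 := 3) (En := eng) (mo := mog) (C1 := cd1q2a) (C2 := cd5q3) (C3 := pd1)
    rfl s6_pm_213_a

noncomputable def cut_pm_213_b : Cut := Cut.of [[⟨0, 1, 0, 67108864⟩, ⟨1, 1, 0, 67108864⟩, ⟨2, 2, 0, 16777216⟩]]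

noncomputable def f_pm_213_b : ℕ → ℕ → ℕ → ℕ → Bool := onCell 1239849684 370763052 0 1230186008 649613803 48318383
    (rowB 3 eng mog cd1q2b cd5q3 pd1 0 false true false .pnn 2 1 3 (qsf 1239849684 370763052 0 1230186008 1) ndB1q2b ndB5q3 pcB1 cut_pm_213_b Ext.none)

def k0_pm_213_b : ∃ t, chk3 f_pm_213_b t 1 1 1 = true :=
  ⟨(b (l 3) (l 3)), by decide +kernel⟩

theorem c_pm_213_b : CertB 1239849684 370763052 0 1230186008 649613803 48318383 3 eng mog cd1q2b cd5q3 pd1 false true false .pnn 2 1 3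
    ndB1q2b ndB5q3 pcB1 cut_pm_213_b Ext.none :=
  certB0 (fam := false) (s1 := true) (s2 := false) (a := 2) (b := 1) (c := 3) (cn := .pnn) (n1 := ndB1q2b) (n2 := ndB5q3) (pc := pcB1) (cut := cut_pm_213_b) (xt := Ext.none) (P1 := 1239849684) (W1 := 370763052) (P2 := 0) (W2 := 1230186008) (P3 := 649613803) (W3 := 48318383) (N0 := 3) (En := eng) (mo := mog) (C1 := cd1q2b) (C2 := cd5q3) (C3 := pd1)
    rfl k0_pm_213_b

noncomputable def f_pm_303 : ℕ → ℕ → ℕ → ℕ → Bool := onCell 1610612736 536870912 0 1230186008 649613803 48318383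
    (rowB 3 eng mog cd1q3 cd5q3 pd0 0 false true false .npn 3 0 3 (qsf 1610612736 536870912 0 1230186008 0) ndB1q3 ndB5q3 pcB0 Cut.none Ext.none)

def k0_pm_303 : ∃ t, chk3 f_pm_303 t 1 1 1 = true :=
  ⟨(b (l 3) (l 3)), by decide +kernel⟩

theorem c_pm_303 : CertB 1610612736 536870912 0 1230186008 649613803 48318383 3 eng mog cd1q3 cd5q3 pd0 false true false .npn 3 0 3
    ndB1q3 ndB5q3 pcB0 Cut.none Ext.none :=
  certB0 (fam := false) (s1 := true) (s2 := false) (a := 3) (b := 0) (c := 3) (cn := .npn) (n1 := ndB1q3) (n2 := ndB5q3) (pc := pcB0) (cut := Cut.none) (xt := Ext.none) (P1 := 1610612736) (W1 := 536870912) (P2 := 0) (W2 := 1230186008) (P3 := 649613803) (W3 := 48318383) (N0 := 3) (En := eng) (mo := mog) (C1 := cd1q3) (C2 := cd5q3) (C3 := pd0)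
    rfl k0_pm_303

noncomputable def f_pm_313 : ℕ → ℕ → ℕ → ℕ → Bool := onCell 1610612736 536870912 0 1230186008 649613803 48318383
    (rowB 3 eng mog cd1q3 cd5q3 pd1 0 false true false .dn 3 1 3 (qsf 1610612736 536870912 0 1230186008 1) ndB1q3 ndB5q3 pcB1 Cut.none Ext.none)

def k0_pm_313 : ∃ t, chk3 f_pm_313 t 1 1 1 = true :=
  ⟨(b (l 3) (l 1)), by decide +kernel⟩

theorem c_pm_313 : CertB 1610612736 536870912 0 1230186008 649613803 48318383 3 eng mog cd1q3 cd5q3 pd1 false true false .dn 3 1 3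
    ndB1q3 ndB5q3 pcB1 Cut.none Ext.none :=
  certB0 (fam := false) (s1 := true) (s2 := false) (a := 3) (b := 1) (c := 3) (cn := .dn) (n1 := ndB1q3) (n2 := ndB5q3) (pc := pcB1) (cut := Cut.none) (xt := Ext.none) (P1 := 1610612736) (W1 := 536870912) (P2 := 0) (W2 := 1230186008) (P3 := 649613803) (W3 := 48318383) (N0 := 3) (En := eng) (mo := mog) (C1 := cd1q3) (C2 := cd5q3) (C3 := pd1)
    rfl k0_pm_313

noncomputable def f_mm_001 : ℕ → ℕ → ℕ → ℕ → Bool := onCell 0 536870912 0 536870912 649613803 48318383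
    (rowB 3 eng mog cd1q0 cd5q1 pd0 1 false false false .up 0 0 1 (qsf 0 536870912 536870912 536870912 0) ndB1q0 ndB5q1 pcB0 Cut.none Ext.none)

def k0_mm_001 : ∃ t, chk3 f_mm_001 t 1 1 1 = true :=
  ⟨(l 3), by decide +kernel⟩

theorem c_mm_001 : CertB 0 536870912 536870912 536870912 649613803 48318383 3 eng mog cd1q0 cd5q1 pd0 false false false .up 0 0 1
    ndB1q0 ndB5q1 pcB0 Cut.none Ext.none :=
  certB1 (fam := false) (s1 := false) (s2 := false) (a := 0) (b := 0) (c := 1) (cn := .up) (n1 := ndB1q0) (n2 := ndB5q1) (pc := pcB0) (cut := Cut.none) (xt := Ext.none) (P1 := 0) (W1 := 536870912) (P2 := 536870912) (W2 := 536870912) (P3 := 649613803) (W3 := 48318383) (N0 := 3) (En := eng) (mo := mog) (C1 := cd1q0) (C2 := cd5q1) (C3 := pd0)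
    rfl (fun _ => rfl) k0_mm_001

noncomputable def f_mm_011 : ℕ → ℕ → ℕ → ℕ → Bool := onCell 0 536870912 536870912 536870912 649613803 48318383
    (rowB 3 eng mog cd1q0 cd5q1 pd1 1 false false false .pnn 0 1 1 (qsf 0 536870912 536870912 536870912 1) ndB1q0 ndB5q1 pcB1 Cut.none Ext.none)

def k0_mm_011 : ∃ t, chk3 f_mm_011 t 1 1 1 = true :=
  ⟨(l 5), by decide +kernel⟩

theorem c_mm_011 : CertB 0 536870912 536870912 536870912 649613803 48318383 3 eng mog cd1q0 cd5q1 pd1 false false false .pnn 0 1 1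
    ndB1q0 ndB5q1 pcB1 Cut.none Ext.none :=
  certB1 (fam := false) (s1 := false) (s2 := false) (a := 0) (b := 1) (c := 1) (cn := .pnn) (n1 := ndB1q0) (n2 := ndB5q1) (pc := pcB1) (cut := Cut.none) (xt := Ext.none) (P1 := 0) (W1 := 536870912) (P2 := 536870912) (W2 := 536870912) (P3 := 649613803) (W3 := 48318383) (N0 := 3) (En := eng) (mo := mog) (C1 := cd1q0) (C2 := cd5q1) (C3 := pd1)
    rfl (fun _ => rfl) k0_mm_011

noncomputable def f_mm_012 : ℕ → ℕ → ℕ → ℕ → Bool := onCell 0 536870912 1073741824 536870912 649613803 48318383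
    (rowB 3 eng mog cd1q0 cd5q2 pd1 0 false false false .pnp 0 1 2 (qsf 0 536870912 1073741824 536870912 1) ndB1q0 ndB5q2 pcB1 Cut.none Ext.none)

def k0_mm_012 : ∃ t, chk3 f_mm_012 t 1 1 1 = true :=
  ⟨(l 5), by decide +kernel⟩

theorem c_mm_012 : CertB 0 536870912 1073741824 536870912 649613803 48318383 3 eng mog cd1q0 cd5q2 pd1 false false false .pnp 0 1 2
    ndB1q0 ndB5q2 pcB1 Cut.none Ext.none :=
  certB0 (fam := false) (s1 := false) (s2 := false) (a := 0) (b := 1) (c := 2) (cn := .pnp) (n1 := ndB1q0) (n2 := ndB5q2) (pc := pcB1) (cut := Cut.none) (xt := Ext.none) (P1 := 0) (W1 := 536870912) (P2 := 1073741824) (W2 := 536870912) (P3 := 649613803) (W3 := 48318383) (N0 := 3) (En := eng) (mo := mog) (C1 := cd1q0) (C2 := cd5q2) (C3 := pd1)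
    rfl k0_mm_012

noncomputable def f_mm_022 : ℕ → ℕ → ℕ → ℕ → Bool := onCell 0 536870912 1073741824 536870912 649613803 48318383
    (rowB 3 eng mog cd1q0 cd5q2 pd2 0 false false false .pp 0 2 2 (qsf 0 536870912 1073741824 536870912 2) ndB1q0 ndB5q2 pcB2 Cut.none Ext.none)

def k0_mm_022 : ∃ t, chk3 f_mm_022 t 1 1 1 = true :=
  ⟨(l 5), by decide +kernel⟩

theorem c_mm_022 : CertB 0 536870912 1073741824 536870912 649613803 48318383 3 eng mog cd1q0 cd5q2 pd2 false false false .pp 0 2 2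
    ndB1q0 ndB5q2 pcB2 Cut.none Ext.none :=
  certB0 (fam := false) (s1 := false) (s2 := false) (a := 0) (b := 2) (c := 2) (cn := .pp) (n1 := ndB1q0) (n2 := ndB5q2) (pc := pcB2) (cut := Cut.none) (xt := Ext.none) (P1 := 0) (W1 := 536870912) (P2 := 1073741824) (W2 := 536870912) (P3 := 649613803) (W3 := 48318383) (N0 := 3) (En := eng) (mo := mog) (C1 := cd1q0) (C2 := cd5q2) (C3 := pd2)
    rfl k0_mm_022

noncomputable def f_mm_023 : ℕ → ℕ → ℕ → ℕ → Bool := onCell 0 536870912 0 1230186008 649613803 48318383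
    (rowB 3 eng mog cd1q0 cd5q3 pd2 0 false false false .up 0 2 3 (qsf 0 536870912 0 1230186008 2) ndB1q0 ndB5q3 pcB2 Cut.none Ext.none)

def k0_mm_023 : ∃ t, chk3 f_mm_023 t 1 1 1 = true :=
  ⟨(l 5), by decide +kernel⟩

theorem c_mm_023 : CertB 0 536870912 0 1230186008 649613803 48318383 3 eng mog cd1q0 cd5q3 pd2 false false false .up 0 2 3
    ndB1q0 ndB5q3 pcB2 Cut.none Ext.none :=
  certB0 (fam := false) (s1 := false) (s2 := false) (a := 0) (b := 2) (c := 3) (cn := .up) (n1 := ndB1q0) (n2 := ndB5q3) (pc := pcB2) (cut := Cut.none) (xt := Ext.none) (P1 := 0) (W1 := 536870912) (P2 := 0) (W2 := 1230186008) (P3 := 649613803) (W3 := 48318383) (N0 := 3) (En := eng) (mo := mog) (C1 := cd1q0) (C2 := cd5q3) (C3 := pd2)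
    rfl k0_mm_023

noncomputable def f_mm_033 : ℕ → ℕ → ℕ → ℕ → Bool := onCell 0 536870912 0 1230186008 649613803 48318383
    (rowB 3 eng mog cd1q0 cd5q3 pd3 0 false false false .pnn 0 3 3 (qsf 0 536870912 0 1230186008 3) ndB1q0 ndB5q3 pcB3 Cut.none Ext.none)

def k0_mm_033 : ∃ t, chk3 f_mm_033 t 1 1 1 = true :=
  ⟨(l 5), by decide +kernel⟩

theorem c_mm_033 : CertB 0 536870912 0 1230186008 649613803 48318383 3 eng mog cd1q0 cd5q3 pd3 false false false .pnn 0 3 3
    ndB1q0 ndB5q3 pcB3 Cut.none Ext.none :=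
  certB0 (fam := false) (s1 := false) (s2 := false) (a := 0) (b := 3) (c := 3) (cn := .pnn) (n1 := ndB1q0) (n2 := ndB5q3) (pc := pcB3) (cut := Cut.none) (xt := Ext.none) (P1 := 0) (W1 := 536870912) (P2 := 0) (W2 := 1230186008) (P3 := 649613803) (W3 := 48318383) (N0 := 3) (En := eng) (mo := mog) (C1 := cd1q0) (C2 := cd5q3) (C3 := pd3)
    rfl k0_mm_033

noncomputable def f_mm_101 : ℕ → ℕ → ℕ → ℕ → Bool := onCell 536870912 536870912 0 536870912 649613803 48318383
    (rowB 3 eng mog cd1q1 cd5q1 pd0 1 false false false .npn 1 0 1 (qsf 536870912 536870912 536870912 536870912 0) ndB1q1 ndB5q1 pcB0 Cut.none Ext.none)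

def k0_mm_101 : ∃ t, chk3 f_mm_101 t 1 1 1 = true :=
  ⟨(b (l 3) (l 3)), by decide +kernel⟩

theorem c_mm_101 : CertB 536870912 536870912 536870912 536870912 649613803 48318383 3 eng mog cd1q1 cd5q1 pd0 false false false .npn 1 0 1
    ndB1q1 ndB5q1 pcB0 Cut.none Ext.none :=
  certB1 (fam := false) (s1 := false) (s2 := false) (a := 1) (b := 0) (c := 1) (cn := .npn) (n1 := ndB1q1) (n2 := ndB5q1) (pc := pcB0) (cut := Cut.none) (xt := Ext.none) (P1 := 536870912) (W1 := 536870912) (P2 := 536870912) (W2 := 536870912) (P3 := 649613803) (W3 := 48318383) (N0 := 3) (En := eng) (mo := mog) (C1 := cd1q1) (C2 := cd5q1) (C3 := pd0)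
    rfl (fun _ => rfl) k0_mm_101

noncomputable def f_mm_102 : ℕ → ℕ → ℕ → ℕ → Bool := onCell 536870912 536870912 0 536870912 649613803 48318383
    (rowB 3 eng mog cd1q1 cd5q2 pd0 1 false false false .npp 1 0 2 (qsf 536870912 536870912 1073741824 536870912 0) ndB1q1 ndB5q2 pcB0 Cut.none Ext.none)

def k0_mm_102 : ∃ t, chk3 f_mm_102 t 1 1 1 = true :=
  ⟨(l 3), by decide +kernel⟩

theorem c_mm_102 : CertB 536870912 536870912 1073741824 536870912 649613803 48318383 3 eng mog cd1q1 cd5q2 pd0 false false false .npp 1 0 2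
    ndB1q1 ndB5q2 pcB0 Cut.none Ext.none :=
  certB1 (fam := false) (s1 := false) (s2 := false) (a := 1) (b := 0) (c := 2) (cn := .npp) (n1 := ndB1q1) (n2 := ndB5q2) (pc := pcB0) (cut := Cut.none) (xt := Ext.none) (P1 := 536870912) (W1 := 536870912) (P2 := 1073741824) (W2 := 536870912) (P3 := 649613803) (W3 := 48318383) (N0 := 3) (En := eng) (mo := mog) (C1 := cd1q1) (C2 := cd5q2) (C3 := pd0)
    rfl (fun _ => rfl) k0_mm_102

noncomputable def f_mm_112 : ℕ → ℕ → ℕ → ℕ → Bool := onCell 536870912 536870912 1073741824 536870912 649613803 48318383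
    (rowB 3 eng mog cd1q1 cd5q2 pd1 2 false false false .dn 1 1 2 (qsf 536870912 536870912 1073741824 536870912 1) ndB1q1 ndB5q2 pcB1 Cut.none Ext.none)

def k0_mm_112 : ∃ t, chk3 f_mm_112 t 1 1 1 = true :=
  ⟨(l 3), by decide +kernel⟩

theorem c_mm_112 : CertB 536870912 536870912 1073741824 536870912 649613803 48318383 3 eng mog cd1q1 cd5q2 pd1 false false false .dn 1 1 2
    ndB1q1 ndB5q2 pcB1 Cut.none Ext.none :=
  certB2 (fam := false) (s1 := false) (s2 := false) (a := 1) (b := 1) (c := 2) (cn := .dn) (n1 := ndB1q1) (n2 := ndB5q2) (pc := pcB1) (cut := Cut.none) (xt := Ext.none) (P1 := 536870912) (W1 := 536870912) (P2 := 1073741824) (W2 := 536870912) (P3 := 649613803) (W3 := 48318383) (N0 := 3) (En := eng) (mo := mog) (C1 := cd1q1) (C2 := cd5q2) (C3 := pd1)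
    rfl (fun _ => rfl) k0_mm_112

noncomputable def f_mm_113 : ℕ → ℕ → ℕ → ℕ → Bool := onCell 536870912 536870912 0 1230186008 649613803 48318383
    (rowB 3 eng mog cd1q1 cd5q3 pd1 0 false false false .nn 1 1 3 (qsf 536870912 536870912 0 1230186008 1) ndB1q1 ndB5q3 pcB1 Cut.none Ext.none)

def k0_mm_113 : ∃ t, chk3 f_mm_113 t 1 1 1 = true :=
  ⟨(b (l 5) (l 5)), by decide +kernel⟩

theorem c_mm_113 : CertB 536870912 536870912 0 1230186008 649613803 48318383 3 eng mog cd1q1 cd5q3 pd1 false false false .nn 1 1 3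
    ndB1q1 ndB5q3 pcB1 Cut.none Ext.none :=
  certB0 (fam := false) (s1 := false) (s2 := false) (a := 1) (b := 1) (c := 3) (cn := .nn) (n1 := ndB1q1) (n2 := ndB5q3) (pc := pcB1) (cut := Cut.none) (xt := Ext.none) (P1 := 536870912) (W1 := 536870912) (P2 := 0) (W2 := 1230186008) (P3 := 649613803) (W3 := 48318383) (N0 := 3) (En := eng) (mo := mog) (C1 := cd1q1) (C2 := cd5q3) (C3 := pd1)
    rfl k0_mm_113

noncomputable def f_mm_123 : ℕ → ℕ → ℕ → ℕ → Bool := onCell 536870912 536870912 0 1230186008 649613803 48318383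
    (rowB 3 eng mog cd1q1 cd5q3 pd2 0 false false false .npn 1 2 3 (qsf 536870912 536870912 0 1230186008 2) ndB1q1 ndB5q3 pcB2 Cut.none Ext.none)

def k0_mm_123 : ∃ t, chk3 f_mm_123 t 1 1 1 = true :=
  ⟨(b (l 5) (l 5)), by decide +kernel⟩

theorem c_mm_123 : CertB 536870912 536870912 0 1230186008 649613803 48318383 3 eng mog cd1q1 cd5q3 pd2 false false false .npn 1 2 3
    ndB1q1 ndB5q3 pcB2 Cut.none Ext.none :=
  certB0 (fam := false) (s1 := false) (s2 := false) (a := 1) (b := 2) (c := 3) (cn := .npn) (n1 := ndB1q1) (n2 := ndB5q3) (pc := pcB2) (cut := Cut.none) (xt := Ext.none) (P1 := 536870912) (W1 := 536870912) (P2 := 0) (W2 := 1230186008) (P3 := 649613803) (W3 := 48318383) (N0 := 3) (En := eng) (mo := mog) (C1 := cd1q1) (C2 := cd5q3) (C3 := pd2)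
    rfl k0_mm_123

noncomputable def f_mm_133 : ℕ → ℕ → ℕ → ℕ → Bool := onCell 536870912 536870912 0 1230186008 649613803 48318383
    (rowB 3 eng mog cd1q1 cd5q3 pd3 0 false false false .dn 1 3 3 (qsf 536870912 536870912 0 1230186008 3) ndB1q1 ndB5q3 pcB3 Cut.none Ext.none)

def k0_mm_133 : ∃ t, chk3 f_mm_133 t 1 1 1 = true :=
  ⟨(b (l 5) (l 1)), by decide +kernel⟩

theorem c_mm_133 : CertB 536870912 536870912 0 1230186008 649613803 48318383 3 eng mog cd1q1 cd5q3 pd3 false false false .dn 1 3 3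
    ndB1q1 ndB5q3 pcB3 Cut.none Ext.none :=
  certB0 (fam := false) (s1 := false) (s2 := false) (a := 1) (b := 3) (c := 3) (cn := .dn) (n1 := ndB1q1) (n2 := ndB5q3) (pc := pcB3) (cut := Cut.none) (xt := Ext.none) (P1 := 536870912) (W1 := 536870912) (P2 := 0) (W2 := 1230186008) (P3 := 649613803) (W3 := 48318383) (N0 := 3) (En := eng) (mo := mog) (C1 := cd1q1) (C2 := cd5q3) (C3 := pd3)
    rfl k0_mm_133

noncomputable def f_mm_202_a : ℕ → ℕ → ℕ → ℕ → Bool := onCell 0 536870912 1073741824 536870912 649613803 48318383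
    (rowB 3 eng mog cd1q2a cd5q2 pd0 0 false false false .pp 2 0 2 (qsf 0 536870912 1073741824 536870912 0) ndB1q2a ndB5q2 pcB0 Cut.none Ext.none)

def k0_mm_202_a : ∃ t, chk3 f_mm_202_a t 1 1 1 = true :=
  ⟨(l 3), by decide +kernel⟩

theorem c_mm_202_a : CertB 0 536870912 1073741824 536870912 649613803 48318383 3 eng mog cd1q2a cd5q2 pd0 false false false .pp 2 0 2
    ndB1q2a ndB5q2 pcB0 Cut.none Ext.none :=
  certB0 (fam := false) (s1 := false) (s2 := false) (a := 2) (b := 0) (c := 2) (cn := .pp) (n1 := ndB1q2a) (n2 := ndB5q2) (pc := pcB0) (cut := Cut.none) (xt := Ext.none) (P1 := 0) (W1 := 536870912) (P2 := 1073741824) (W2 := 536870912) (P3 := 649613803) (W3 := 48318383) (N0 := 3) (En := eng) (mo := mog) (C1 := cd1q2a) (C2 := cd5q2) (C3 := pd0)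
    rfl k0_mm_202_a

noncomputable def f_mm_202_b : ℕ → ℕ → ℕ → ℕ → Bool := onCell 1239849684 370763052 1073741824 536870912 649613803 48318383
    (rowB 3 eng mog cd1q2b cd5q2 pd0 0 false false false .pp 2 0 2 (qsf 1239849684 370763052 1073741824 536870912 0) ndB1q2b ndB5q2 pcB0 Cut.none Ext.none)

def k0_mm_202_b : ∃ t, chk3 f_mm_202_b t 1 1 1 = true :=
  ⟨(l 3), by decide +kernel⟩

theorem c_mm_202_b : CertB 1239849684 370763052 1073741824 536870912 649613803 48318383 3 eng mog cd1q2b cd5q2 pd0 false false false .pp 2 0 2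
    ndB1q2b ndB5q2 pcB0 Cut.none Ext.none :=
  certB0 (fam := false) (s1 := false) (s2 := false) (a := 2) (b := 0) (c := 2) (cn := .pp) (n1 := ndB1q2b) (n2 := ndB5q2) (pc := pcB0) (cut := Cut.none) (xt := Ext.none) (P1 := 1239849684) (W1 := 370763052) (P2 := 1073741824) (W2 := 536870912) (P3 := 649613803) (W3 := 48318383) (N0 := 3) (En := eng) (mo := mog) (C1 := cd1q2b) (C2 := cd5q2) (C3 := pd0)
    rfl k0_mm_202_b

noncomputable def f_mm_203_a : ℕ → ℕ → ℕ → ℕ → Bool := onCell 0 536870912 0 1230186008 649613803 48318383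
    (rowB 3 eng mog cd1q2a cd5q3 pd0 0 false false false .up 2 0 3 (qsf 0 536870912 0 1230186008 0) ndB1q2a ndB5q3 pcB0 Cut.none Ext.none)

def k0_mm_203_a : ∃ t, chk3 f_mm_203_a t 1 1 1 = true :=
  ⟨(b (l 2) (l 3)), by decide +kernel⟩

theorem c_mm_203_a : CertB 0 536870912 0 1230186008 649613803 48318383 3 eng mog cd1q2a cd5q3 pd0 false false false .up 2 0 3
    ndB1q2a ndB5q3 pcB0 Cut.none Ext.none :=
  certB0 (fam := false) (s1 := false) (s2 := false) (a := 2) (b := 0) (c := 3) (cn := .up) (n1 := ndB1q2a) (n2 := ndB5q3) (pc := pcB0) (cut := Cut.none) (xt := Ext.none) (P1 := 0) (W1 := 536870912) (P2 := 0) (W2 := 1230186008) (P3 := 649613803) (W3 := 48318383) (N0 := 3) (En := eng) (mo := mog) (C1 := cd1q2a) (C2 := cd5q3) (C3 := pd0)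
    rfl k0_mm_203_a

noncomputable def f_mm_203_b : ℕ → ℕ → ℕ → ℕ → Bool := onCell 1239849684 370763052 0 1230186008 649613803 48318383
    (rowB 3 eng mog cd1q2b cd5q3 pd0 0 false false false .up 2 0 3 (qsf 1239849684 370763052 0 1230186008 0) ndB1q2b ndB5q3 pcB0 Cut.none Ext.none)

def k0_mm_203_b : ∃ t, chk3 f_mm_203_b t 1 1 1 = true :=
  ⟨(b (l 3) (l 3)), by decide +kernel⟩

theorem c_mm_203_b : CertB 1239849684 370763052 0 1230186008 649613803 48318383 3 eng mog cd1q2b cd5q3 pd0 false false false .up 2 0 3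
    ndB1q2b ndB5q3 pcB0 Cut.none Ext.none :=
  certB0 (fam := false) (s1 := false) (s2 := false) (a := 2) (b := 0) (c := 3) (cn := .up) (n1 := ndB1q2b) (n2 := ndB5q3) (pc := pcB0) (cut := Cut.none) (xt := Ext.none) (P1 := 1239849684) (W1 := 370763052) (P2 := 0) (W2 := 1230186008) (P3 := 649613803) (W3 := 48318383) (N0 := 3) (En := eng) (mo := mog) (C1 := cd1q2b) (C2 := cd5q3) (C3 := pd0)
    rfl k0_mm_203_b

noncomputable def f_mm_213_a : ℕ → ℕ → ℕ → ℕ → Bool := onCell 0 536870912 0 1230186008 649613803 48318383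
    (rowB 3 eng mog cd1q2a cd5q3 pd1 0 false false false .pnn 2 1 3 (qsf 0 536870912 0 1230186008 1) ndB1q2a ndB5q3 pcB1 Cut.none Ext.none)

def k0_mm_213_a : ∃ t, chk3 f_mm_213_a t 1 1 1 = true :=
  ⟨(b (a (l 3) (l 5)) (l 3)), by decide +kernel⟩

theorem c_mm_213_a : CertB 0 536870912 0 1230186008 649613803 48318383 3 eng mog cd1q2a cd5q3 pd1 false false false .pnn 2 1 3
    ndB1q2a ndB5q3 pcB1 Cut.none Ext.none :=
  certB0 (fam := false) (s1 := false) (s2 := false) (a := 2) (b := 1) (c := 3) (cn := .pnn) (n1 := ndB1q2a) (n2 := ndB5q3) (pc := pcB1) (cut := Cut.none) (xt := Ext.none) (P1 := 0) (W1 := 536870912) (P2 := 0) (W2 := 1230186008) (P3 := 649613803) (W3 := 48318383) (N0 := 3) (En := eng) (mo := mog) (C1 := cd1q2a) (C2 := cd5q3) (C3 := pd1)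
    rfl k0_mm_213_a

noncomputable def f_mm_213_b : ℕ → ℕ → ℕ → ℕ → Bool := onCell 1239849684 370763052 0 1230186008 649613803 48318383
    (rowB 3 eng mog cd1q2b cd5q3 pd1 0 false false false .pnn 2 1 3 (qsf 1239849684 370763052 0 1230186008 1) ndB1q2b ndB5q3 pcB1 Cut.none Ext.none)

def k0_mm_213_b : ∃ t, chk3 f_mm_213_b t 1 1 1 = true :=
  ⟨(b (l 3) (l 3)), by decide +kernel⟩

theorem c_mm_213_b : CertB 1239849684 370763052 0 1230186008 649613803 48318383 3 eng mog cd1q2b cd5q3 pd1 false false false .pnn 2 1 3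
    ndB1q2b ndB5q3 pcB1 Cut.none Ext.none :=
  certB0 (fam := false) (s1 := false) (s2 := false) (a := 2) (b := 1) (c := 3) (cn := .pnn) (n1 := ndB1q2b) (n2 := ndB5q3) (pc := pcB1) (cut := Cut.none) (xt := Ext.none) (P1 := 1239849684) (W1 := 370763052) (P2 := 0) (W2 := 1230186008) (P3 := 649613803) (W3 := 48318383) (N0 := 3) (En := eng) (mo := mog) (C1 := cd1q2b) (C2 := cd5q3) (C3 := pd1)
    rfl k0_mm_213_b

noncomputable def f_mm_303 : ℕ → ℕ → ℕ → ℕ → Bool := onCell 1610612736 536870912 0 1230186008 649613803 48318383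
    (rowB 3 eng mog cd1q3 cd5q3 pd0 0 false false false .npn 3 0 3 (qsf 1610612736 536870912 0 1230186008 0) ndB1q3 ndB5q3 pcB0 Cut.none Ext.none)

def k0_mm_303 : ∃ t, chk3 f_mm_303 t 1 1 1 = true :=
  ⟨(b (l 3) (l 3)), by decide +kernel⟩

theorem c_mm_303 : CertB 1610612736 536870912 0 1230186008 649613803 48318383 3 eng mog cd1q3 cd5q3 pd0 false false false .npn 3 0 3
    ndB1q3 ndB5q3 pcB0 Cut.none Ext.none :=
  certB0 (fam := false) (s1 := false) (s2 := false) (a := 3) (b := 0) (c := 3) (cn := .npn) (n1 := ndB1q3) (n2 := ndB5q3) (pc := pcB0) (cut := Cut.none) (xt := Ext.none) (P1 := 1610612736) (W1 := 536870912) (P2 := 0) (W2 := 1230186008) (P3 := 649613803) (W3 := 48318383) (N0 := 3) (En := eng) (mo := mog) (C1 := cd1q3) (C2 := cd5q3) (C3 := pd0)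
    rfl k0_mm_303

noncomputable def f_mm_313 : ℕ → ℕ → ℕ → ℕ → Bool := onCell 1610612736 536870912 0 1230186008 649613803 48318383
    (rowB 3 eng mog cd1q3 cd5q3 pd1 0 false false false .dn 3 1 3 (qsf 1610612736 536870912 0 1230186008 1) ndB1q3 ndB5q3 pcB1 Cut.none Ext.none)

def k0_mm_313 : ∃ t, chk3 f_mm_313 t 1 1 1 = true :=
  ⟨(b (l 3) (l 1)), by decide +kernel⟩

theorem c_mm_313 : CertB 1610612736 536870912 0 1230186008 649613803 48318383 3 eng mog cd1q3 cd5q3 pd1 false false false .dn 3 1 3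
    ndB1q3 ndB5q3 pcB1 Cut.none Ext.none :=
  certB0 (fam := false) (s1 := false) (s2 := false) (a := 3) (b := 1) (c := 3) (cn := .dn) (n1 := ndB1q3) (n2 := ndB5q3) (pc := pcB1) (cut := Cut.none) (xt := Ext.none) (P1 := 1610612736) (W1 := 536870912) (P2 := 0) (W2 := 1230186008) (P3 := 649613803) (W3 := 48318383) (N0 := 3) (En := eng) (mo := mog) (C1 := cd1q3) (C2 := cd5q3) (C3 := pd1)
    rfl k0_mm_313

end Pool.Agent.Strip051.G.I6050_6500.Tab.C.BB15

namespace Pool.Agent.Strip051.G.I6050_6500.Tab.C.BB16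

open Pool.Agent.Strip051.PB Pool.Agent.Strip051.PB.T
open Pool.Agent.Strip051.G.I6050_6500.Tab

noncomputable def f_pp_001 : ℕ → ℕ → ℕ → ℕ → Bool := onCell 0 536870912 0 536870912 649613803 48318383
    (rowB 3 eng mog cd1q0 cd6q1 pd0 1 false true true .up 0 0 1 (qsf 0 536870912 536870912 536870912 0) ndB1q0 ndB6q1 pcB0 Cut.none Ext.none)

def k0_pp_001 : ∃ t, chk3 f_pp_001 t 1 1 1 = true :=
  ⟨(l 3), by decide +kernel⟩

theorem c_pp_001 : CertB 0 536870912 536870912 536870912 649613803 48318383 3 eng mog cd1q0 cd6q1 pd0 false true true .up 0 0 1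
    ndB1q0 ndB6q1 pcB0 Cut.none Ext.none :=
  certB1 (fam := false) (s1 := true) (s2 := true) (a := 0) (b := 0) (c := 1) (cn := .up) (n1 := ndB1q0) (n2 := ndB6q1) (pc := pcB0) (cut := Cut.none) (xt := Ext.none) (P1 := 0) (W1 := 536870912) (P2 := 536870912) (W2 := 536870912) (P3 := 649613803) (W3 := 48318383) (N0 := 3) (En := eng) (mo := mog) (C1 := cd1q0) (C2 := cd6q1) (C3 := pd0)
    rfl (fun _ => rfl) k0_pp_001

noncomputable def cut_pp_011 : Cut := Cut.of [[⟨0, 0, 0, 67108864⟩, ⟨1, 1, 0, 67108864⟩, ⟨2, 1, 0, 67108864⟩]]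

noncomputable def f_pp_011 : ℕ → ℕ → ℕ → ℕ → Bool := onCell 0 536870912 536870912 536870912 649613803 48318383
    (rowB 3 eng mog cd1q0 cd6q1 pd1 1 false true true .pnn 0 1 1 (qsf 0 536870912 536870912 536870912 1) ndB1q0 ndB6q1 pcB1 cut_pp_011 Ext.none)

def k0_pp_011 : ∃ t, chk3 f_pp_011 t 1 1 1 = true :=
  ⟨(b (l 3) (b (l 3) (a (b (l 3) (a (a (b (l 3) (a (l 6) (l 3))) (l 3)) (l 2))) (l 2)))), by decide +kernel⟩

theorem c_pp_011 : CertB 0 536870912 536870912 536870912 649613803 48318383 3 eng mog cd1q0 cd6q1 pd1 false true true .pnn 0 1 1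
    ndB1q0 ndB6q1 pcB1 cut_pp_011 Ext.none :=
  certB1 (fam := false) (s1 := true) (s2 := true) (a := 0) (b := 1) (c := 1) (cn := .pnn) (n1 := ndB1q0) (n2 := ndB6q1) (pc := pcB1) (cut := cut_pp_011) (xt := Ext.none) (P1 := 0) (W1 := 536870912) (P2 := 536870912) (W2 := 536870912) (P3 := 649613803) (W3 := 48318383) (N0 := 3) (En := eng) (mo := mog) (C1 := cd1q0) (C2 := cd6q1) (C3 := pd1)
    rfl (fun _ => rfl) k0_pp_011

noncomputable def f_pp_012 : ℕ → ℕ → ℕ → ℕ → Bool := onCell 0 536870912 536870912 536870912 649613803 48318383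
    (rowB 3 eng mog cd1q0 cd6q2 pd1 1 false true true .pnp 0 1 2 (qsf 0 536870912 1073741824 536870912 1) ndB1q0 ndB6q2 pcB1 Cut.none Ext.none)

def k0_pp_012 : ∃ t, chk3 f_pp_012 t 1 1 1 = true :=
  ⟨(l 3), by decide +kernel⟩

theorem c_pp_012 : CertB 0 536870912 1073741824 536870912 649613803 48318383 3 eng mog cd1q0 cd6q2 pd1 false true true .pnp 0 1 2
    ndB1q0 ndB6q2 pcB1 Cut.none Ext.none :=
  certB1 (fam := false) (s1 := true) (s2 := true) (a := 0) (b := 1) (c := 2) (cn := .pnp) (n1 := ndB1q0) (n2 := ndB6q2) (pc := pcB1) (cut := Cut.none) (xt := Ext.none) (P1 := 0) (W1 := 536870912) (P2 := 1073741824) (W2 := 536870912) (P3 := 649613803) (W3 := 48318383) (N0 := 3) (En := eng) (mo := mog) (C1 := cd1q0) (C2 := cd6q2) (C3 := pd1)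
    rfl (fun _ => rfl) k0_pp_012

noncomputable def f_pp_022 : ℕ → ℕ → ℕ → ℕ → Bool := onCell 1073741824 536870912 1073741824 536870912 649613803 48318383
    (rowB 3 eng mog cd1q0 cd6q2 pd2 2 false true true .pp 0 2 2 (qsf 0 536870912 1073741824 536870912 2) ndB1q0 ndB6q2 pcB2 Cut.none Ext.none)

def k0_pp_022 : ∃ t, chk3 f_pp_022 t 2 2 1 = true :=
  ⟨(a (l 3) (a (a (a (l 3) (b (l 1) (a (l 3) (b (b (a (l 3) (b (l 1) (b (l 1) (a (a (l 3) (a (l 16359928) (l 16358960))) (a (a (a (l 16358200) (c (l 16440544) (l 16444056))) (l 16398936)) (l 16439392)))))) (a (l 3) (a (a (b (c (l 16462616) (l 16442768)) (l 16446736)) (a (b (c (l 16440168) (l 16441368)) (l 16445296)) (b (c (l 16439176) (l 16440424)) (l 16444320)))) (a (a (a (b (c (l 16438408) (l 16439680)) (l 16443592)) (a (b (c (l 16438040) (l 16439344)) (l 16443304)) (b (c (l 16437824) (l 16439200)) (l 16443136)))) (b (c (l 16437232) (l 16438664)) (l 16442568))) (b (c (l 16435736) (l 16437224)) (l 16441112))))))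 (a (a (b (l 3) (l 16476168)) (b (b (c (l 16459864) (l 16460712)) (l 16466560)) (l 16471896))) (a (a (b (b (c (l 16456704) (l 16457608)) (l 16463624)) (l 16468728)) (b (b (c (l 16454712) (l 16455704)) (l 16461648)) (l 16466648))) (b (b (a (b (a (a (l 16430080) (c (l 16450960) (l 16452024))) (l 16450040)) (l 16454632)) (l 16450784)) (l 16458888)) (l 16463648)))))))) (b (l 1) (b (c (b (b (l 1) (a (l 16421880) (l 1))) (b (a (b (l 16419104) (a (l 16426136) (l 16409832))) (b (l 1) (l 16384728))) (a (l 16424544) (l 16391384)))) (b (l 16404296) (b (a (b (l 16401048) (l 16419512)) (l 16388632)) (a (l 16425984) (l 16394128))))) (b (b (a (l 16297776) (l 16401528)) (l 16425128)) (l 16490720))))) (b (l 1) (b (b (l 1) (b (l 1) (a (l 16340736) (l 1)))) (b (a (b (l 16347992) (l 16349960)) (l 16268384)) (a (b (l 16353752) (l 16359128)) (b (l 16276664) (l 16284624)))))))), by decide +kernel⟩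

def k1_pp_022 : ∃ t, chk3 f_pp_022 t 2 3 1 = true :=
  ⟨(a (l 3) (a (a (a (b (l 3) (a (b (l 3) (a (l 3) (b (l 3) (l 16599488)))) (b (a (l 63518267975) (b (l 16559512) (l 16573496))) (a (b (l 16588928) (l 16598744)) (b (l 16586408) (l 16596640)))))) (a (b (b (a (l 3) (b (b (l 3) (l 16489456)) (l 16500728))) (a (b (a (l 3) (l 16521064)) (l 16559424)) (b (a (l 16517400) (l 16514136)) (l 16531288)))) (b (a (b (l 16554120) (l 16568960)) (b (l 16546872) (l 16562928))) (a (b (l 16582144) (l 16593656)) (l 16604504)))) (b (a (b (a (b (l 16480576) (l 16494256)) (b (b (l 16474408) (l 16478288)) (l 16489928))) (b (a (l 16509992) (l 16506416)) (a (l 16525816) (l 16522744)))) (b (a (b (a (l 16473192) (l 16471296)) (l 16486064)) (b (b (l 16466704) (l 16470200)) (l 16481952))) (a (b (l 16502864) (l 16519784)) (a (a (a (b (l 16500928) (l 16518520)) (b (c (l 16504928) (l 16495624)) (l 16519608))) (b (l 16500616) (l 16520072))) (b (l 16499368) (l 16519024)))))) (a (b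 (b (l 16540688) (l 16557528)) (b (l 16573232) (l 16588144))) (b (a (b (l 16537160) (l 16555960)) (a (b (b (l 16533144) (l 16543496)) (l 16642808)) (l 16549504))) (a (b (l 16574336) (l 16591400)) (b (l 16598976) (l 16596200)))))))) (b (b (b (b (l 16433080) (l 16437872)) (b (l 16444680) (l 16453576))) (b (b (l 16464560) (l 16476576)) (l 16494712))) (b (b (l 16518592) (l 16542792)) (b (l 16566776) (l 16589224))))) (b (b (b (a (l 16369624) (l 16299464)) (a (l 16386712) (l 16322976))) (b (a (l 16431376) (l 16350112)) (a (l 16441440) (l 16383848)))) (b (b (l 16449184) (l 16484400)) (b (l 16518416) (l 16551024)))))), by decide +kernel⟩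

def k2_pp_022 : ∃ t, chk3 f_pp_022 t 3 1 1 = true :=
  ⟨(b (a (b (l 1) (a (b (l 1) (b (l 1) (a (l 16201176) (l 1)))) (l 1))) (l 1)) (a (b (b (a (b (a (l 16225376) (l 16148104)) (a (l 16255336) (l 16183880))) (b (l 1) (l 16072032))) (a (b (a (l 16289632) (l 16224808)) (a (l 16327560) (l 16269912))) (b (a (l 16156704) (l 16086256)) (l 62309459463)))) (b (a (b (a (l 16369720) (l 16315408)) (a (l 16416184) (l 16363288))) (b (l 16234168) (l 16288864))) (a (a (l 16483032) (l 16439360)) (b (l 16342952) (l 16396248))))) (b (a (b (l 1) (b (l 1) (l 16046848))) (l 1)) (b (a (b (l 75194263079) (l 16187880)) (b (l 1) (l 16143432))) (a (b (l 16254112) (l 16314096)) (b (l 16161144) (l 16236504))))))), by decide +kernel⟩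

theorem s3_pp_022 : ∃ t, chk3 f_pp_022 t 2 1 1 = true := ex3_b k0_pp_022 k1_pp_022

theorem s4_pp_022 : ∃ t, chk3 f_pp_022 t 1 1 1 = true := ex3_a s3_pp_022 k2_pp_022

theorem c_pp_022 : CertB 0 536870912 1073741824 536870912 649613803 48318383 3 eng mog cd1q0 cd6q2 pd2 false true true .pp 0 2 2
    ndB1q0 ndB6q2 pcB2 Cut.none Ext.none :=
  certB2 (fam := false) (s1 := true) (s2 := true) (a := 0) (b := 2) (c := 2) (cn := .pp) (n1 := ndB1q0) (n2 := ndB6q2) (pc := pcB2) (cut := Cut.none) (xt := Ext.none) (P1 := 0) (W1 := 536870912) (P2 := 1073741824) (W2 := 536870912) (P3 := 649613803) (W3 := 48318383) (N0 := 3) (En := eng) (mo := mog) (C1 := cd1q0) (C2 := cd6q2) (C3 := pd2)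
    rfl (fun _ => rfl) s4_pp_022

noncomputable def f_pp_023 : ℕ → ℕ → ℕ → ℕ → Bool := onCell 1073741824 536870912 0 1230186008 649613803 48318383
    (rowB 3 eng mog cd1q0 cd6q3 pd2 2 false true true .up 0 2 3 (qsf 0 536870912 0 1230186008 2) ndB1q0 ndB6q3 pcB2 Cut.none Ext.none)

def k0_pp_023 : ∃ t, chk3 f_pp_023 t 1 1 1 = true :=
  ⟨(b (a (l 2) (a (l 2) (b (l 359804477479) (a (l 16695032) (b (l 16707328) (l 16721080)))))) (b (a (a (l 2) (a (l 2) (b (l 2) (l 238470765991)))) (a (b (l 16728400) (a (l 16639400) (l 16654112))) (b (a (l 16686456) (l 16697592)) (a (l 16648168) (l 16630664))))) (b (a (a (l 2) (a (a (b (l 2) (a (l 16660008) (a (l 16653024) (a (l 16650192) (b (l 2) (l 16641128)))))) (l 16653952)) (l 16566056))) (a (b (a (l 16637816) (l 16630592)) (a (l 16634424) (l 16592200))) (a (b (l 16592240) (l 16530448)) (b (l 16537168) (l 16456864))))) (a (a (a (l 3) (a (l 3) (a (l 3) (b (l 33453610679) (a (l 3) (l 16588360)))))) (a (a (a (b (a (l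 16627016) (l 16619216)) (a (b (l 16593472) (l 16571424)) (b (l 16582848) (l 16579592)))) (a (b (l 16613216) (b (l 16571272) (l 16580640))) (b (a (l 16607600) (a (l 16606440) (l 16605872))) (a (l 16578648) (a (l 16591400) (b (l 16600600) (l 16604632))))))) (b (l 16598040) (l 16616056))) (b (l 16635856) (b (l 16619056) (l 16589824))))) (a (a (b (l 16604600) (b (l 16563792) (l 16527208))) (b (l 16532648) (l 16457248))) (b (a (l 16453120) (l 16367624)) (a (l 16366240) (l 16279800)))))))), by decide +kernel⟩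

theorem c_pp_023 : CertB 0 536870912 0 1230186008 649613803 48318383 3 eng mog cd1q0 cd6q3 pd2 false true true .up 0 2 3
    ndB1q0 ndB6q3 pcB2 Cut.none Ext.none :=
  certB2 (fam := false) (s1 := true) (s2 := true) (a := 0) (b := 2) (c := 3) (cn := .up) (n1 := ndB1q0) (n2 := ndB6q3) (pc := pcB2) (cut := Cut.none) (xt := Ext.none) (P1 := 0) (W1 := 536870912) (P2 := 0) (W2 := 1230186008) (P3 := 649613803) (W3 := 48318383) (N0 := 3) (En := eng) (mo := mog) (C1 := cd1q0) (C2 := cd6q3) (C3 := pd2)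
    rfl (fun _ => rfl) k0_pp_023

noncomputable def f_pp_033 : ℕ → ℕ → ℕ → ℕ → Bool := onCell 1610612736 536870912 0 1230186008 649613803 48318383
    (rowB 3 eng mog cd1q0 cd6q3 pd3 2 false true true .pnn 0 3 3 (qsf 0 536870912 0 1230186008 3) ndB1q0 ndB6q3 pcB3 Cut.none Ext.none)

def k0_pp_033 : ∃ t, chk3 f_pp_033 t 1 1 1 = true :=
  ⟨(b (b (a (a (b (l 16702472) (l 16829904)) (a (l 16594104) (l 16550400))) (a (a (l 16500632) (l 4)) (l 4))) (a (a (a (l 16648992) (b (l 16619496) (l 16589576))) (a (b (l 16570536) (a (l 16546288) (l 16516408))) (l 16710704))) (a (a (b (l 16475544) (l 16618248)) (a (l 16419992) (l 16398296))) (l 4)))) (b (a (a (a (b (l 16604104) (l 16516032)) (b (a (l 16544984) (l 16510616)) (a (l 16448024) (l 16409488)))) (a (a (b (a (l 16485128) (l 16468432)) (a (l 16381488) (b (l 16392528) (l 16330688)))) (b (a (l 16455688) (l 16439456)) (a (b (l 16387768) (l 16333896)) (b (l 16374232) (l 16327368))))) (b (b (l 16422720) (l 16380704))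 (b (l 16334992) (a (l 16300648) (l 16268128)))))) (b (a (a (a (b (l 16388208) (l 16350680)) (l 16361960)) (a (l 16350456) (l 16339056))) (a (a (l 16520168) (l 1)) (l 1))) (a (a (a (b (l 16304520) (l 16242896)) (b (l 16291792) (l 16227240))) (a (b (l 16287088) (l 1)) (l 1))) (l 1)))) (a (b (a (a (b (l 16408392) (l 16322872)) (b (l 16325200) (l 16244248))) (a (a (a (l 16224680) (b (l 16266664) (l 16189496))) (a (b (l 16266736) (l 16179768)) (b (l 16256616) (l 16161656)))) (b (a (l 16227104) (l 202969722775)) (l 1)))) (a (a (b (l 16242528) (l 16163064)) (b (l 88616265495) (l 120291416551))) (b (a (a (a (l 16118232) (l 1)) (l 1)) (l 1)) (l 1)))) (l 1)))), by decide +kernel⟩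

theorem c_pp_033 : CertB 0 536870912 0 1230186008 649613803 48318383 3 eng mog cd1q0 cd6q3 pd3 false true true .pnn 0 3 3
    ndB1q0 ndB6q3 pcB3 Cut.none Ext.none :=
  certB2 (fam := false) (s1 := true) (s2 := true) (a := 0) (b := 3) (c := 3) (cn := .pnn) (n1 := ndB1q0) (n2 := ndB6q3) (pc := pcB3) (cut := Cut.none) (xt := Ext.none) (P1 := 0) (W1 := 536870912) (P2 := 0) (W2 := 1230186008) (P3 := 649613803) (W3 := 48318383) (N0 := 3) (En := eng) (mo := mog) (C1 := cd1q0) (C2 := cd6q3) (C3 := pd3)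
    rfl (fun _ => rfl) k0_pp_033

noncomputable def f_pp_101 : ℕ → ℕ → ℕ → ℕ → Bool := onCell 536870912 536870912 0 536870912 649613803 48318383
    (rowB 3 eng mog cd1q1 cd6q1 pd0 1 false true true .npn 1 0 1 (qsf 536870912 536870912 536870912 536870912 0) ndB1q1 ndB6q1 pcB0 Cut.none Ext.none)

def k0_pp_101 : ∃ t, chk3 f_pp_101 t 1 1 1 = true :=
  ⟨(l 3), by decide +kernel⟩

theorem c_pp_101 : CertB 536870912 536870912 536870912 536870912 649613803 48318383 3 eng mog cd1q1 cd6q1 pd0 false true true .npn 1 0 1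
    ndB1q1 ndB6q1 pcB0 Cut.none Ext.none :=
  certB1 (fam := false) (s1 := true) (s2 := true) (a := 1) (b := 0) (c := 1) (cn := .npn) (n1 := ndB1q1) (n2 := ndB6q1) (pc := pcB0) (cut := Cut.none) (xt := Ext.none) (P1 := 536870912) (W1 := 536870912) (P2 := 536870912) (W2 := 536870912) (P3 := 649613803) (W3 := 48318383) (N0 := 3) (En := eng) (mo := mog) (C1 := cd1q1) (C2 := cd6q1) (C3 := pd0)
    rfl (fun _ => rfl) k0_pp_101

noncomputable def f_pp_102 : ℕ → ℕ → ℕ → ℕ → Bool := onCell 536870912 536870912 1073741824 536870912 649613803 48318383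
    (rowB 3 eng mog cd1q1 cd6q2 pd0 0 false true true .npp 1 0 2 (qsf 536870912 536870912 1073741824 536870912 0) ndB1q1 ndB6q2 pcB0 Cut.none Ext.none)

def k0_pp_102 : ∃ t, chk3 f_pp_102 t 1 1 1 = true :=
  ⟨(l 3), by decide +kernel⟩

theorem c_pp_102 : CertB 536870912 536870912 1073741824 536870912 649613803 48318383 3 eng mog cd1q1 cd6q2 pd0 false true true .npp 1 0 2
    ndB1q1 ndB6q2 pcB0 Cut.none Ext.none :=
  certB0 (fam := false) (s1 := true) (s2 := true) (a := 1) (b := 0) (c := 2) (cn := .npp) (n1 := ndB1q1) (n2 := ndB6q2) (pc := pcB0) (cut := Cut.none) (xt := Ext.none) (P1 := 536870912) (W1 := 536870912) (P2 := 1073741824) (W2 := 536870912) (P3 := 649613803) (W3 := 48318383) (N0 := 3) (En := eng) (mo := mog) (C1 := cd1q1) (C2 := cd6q2) (C3 := pd0)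
    rfl k0_pp_102

noncomputable def f_pp_112 : ℕ → ℕ → ℕ → ℕ → Bool := onCell 536870912 536870912 1073741824 536870912 649613803 48318383
    (rowB 3 eng mog cd1q1 cd6q2 pd1 0 false true true .dn 1 1 2 (qsf 536870912 536870912 1073741824 536870912 1) ndB1q1 ndB6q2 pcB1 Cut.none Ext.none)

def k0_pp_112 : ∃ t, chk3 f_pp_112 t 1 1 1 = true :=
  ⟨(l 3), by decide +kernel⟩

theorem c_pp_112 : CertB 536870912 536870912 1073741824 536870912 649613803 48318383 3 eng mog cd1q1 cd6q2 pd1 false true true .dn 1 1 2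
    ndB1q1 ndB6q2 pcB1 Cut.none Ext.none :=
  certB0 (fam := false) (s1 := true) (s2 := true) (a := 1) (b := 1) (c := 2) (cn := .dn) (n1 := ndB1q1) (n2 := ndB6q2) (pc := pcB1) (cut := Cut.none) (xt := Ext.none) (P1 := 536870912) (W1 := 536870912) (P2 := 1073741824) (W2 := 536870912) (P3 := 649613803) (W3 := 48318383) (N0 := 3) (En := eng) (mo := mog) (C1 := cd1q1) (C2 := cd6q2) (C3 := pd1)
    rfl k0_pp_112

noncomputable def f_pp_113 : ℕ → ℕ → ℕ → ℕ → Bool := onCell 536870912 536870912 0 1230186008 649613803 48318383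
    (rowB 3 eng mog cd1q1 cd6q3 pd1 2 false true true .nn 1 1 3 (qsf 536870912 536870912 0 1230186008 1) ndB1q1 ndB6q3 pcB1 Cut.none Ext.none)

def k0_pp_113 : ∃ t, chk3 f_pp_113 t 1 1 1 = true :=
  ⟨(a (b (l 2) (b (l 3) (a (l 3) (l 3)))) (b (a (l 2) (b (a (l 2) (a (l 2) (b (a (l 2) (b (l 1098538703799) (a (l 2) (l 16775344)))) (a (l 3) (b (l 431275103175) (l 3)))))) (l 3))) (b (l 3) (l 3)))), by decide +kernel⟩

theorem c_pp_113 : CertB 536870912 536870912 0 1230186008 649613803 48318383 3 eng mog cd1q1 cd6q3 pd1 false true true .nn 1 1 3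
    ndB1q1 ndB6q3 pcB1 Cut.none Ext.none :=
  certB2 (fam := false) (s1 := true) (s2 := true) (a := 1) (b := 1) (c := 3) (cn := .nn) (n1 := ndB1q1) (n2 := ndB6q3) (pc := pcB1) (cut := Cut.none) (xt := Ext.none) (P1 := 536870912) (W1 := 536870912) (P2 := 0) (W2 := 1230186008) (P3 := 649613803) (W3 := 48318383) (N0 := 3) (En := eng) (mo := mog) (C1 := cd1q1) (C2 := cd6q3) (C3 := pd1)
    rfl (fun _ => rfl) k0_pp_113

noncomputable def f_pp_123 : ℕ → ℕ → ℕ → ℕ → Bool := onCell 1073741824 536870912 0 1230186008 649613803 48318383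
    (rowB 3 eng mog cd1q1 cd6q3 pd2 2 false true true .npn 1 2 3 (qsf 536870912 536870912 0 1230186008 2) ndB1q1 ndB6q3 pcB2 Cut.none Ext.none)

def k0_pp_123 : ∃ t, chk3 f_pp_123 t 4 1 1 = true :=
  ⟨(b (a (b (a (b (l 16767040) (a (b (l 16787968) (l 295983764439)) (l 16887568))) (b (l 16741056) (l 16764072))) (a (b (a (l 3) (b (l 16848608) (l 349134034135))) (l 3)) (b (a (b (l 16794832) (l 16811656)) (l 16787952)) (a (b (l 304573831399) (l 3)) (b (l 16808528) (l 250349816775)))))) (b (b (l 16694304) (l 16778400)) (a (b (l 16824616) (b (l 16824496) (a (l 16802552) (l 16764248)))) (b (l 16721816) (a (l 16781064) (l 16765624)))))) (a (b (a (l 3) (b (a (l 3) (b (l 366850794327) (l 3))) (l 3))) (l 3)) (b (a (b (a (b (b (a (l 16810304) (l 16802928)) (a (l 16790608) (l 16803968))) (l 346986295239)) (b (a (l 16797728) (l 16793856)) (a (b (l 16806240) (l 16807584)) (l 16802896)))) (a (b (l 346449483959) (l 3)) (b (a (l 291688617111) (b (l 16806792) (l 16803568)))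 (a (l 16808984) (l 16802528))))) (b (a (b (l 16782648) (b (l 16793800) (l 16797840))) (b (l 16767736) (l 16780712))) (a (b (b (l 16797464) (l 16797232)) (a (l 16774656) (l 16790808))) (b (l 16786104) (l 16760048))))) (a (b (l 3) (l 3)) (b (a (b (a (l 16787032) (l 16778440)) (l 16731032)) (b (l 16765424) (l 16715768))) (a (l 3) (b (l 16675600) (l 1)))))))), by decide +kernel⟩

def k1_pp_123 : ∃ t, chk3 f_pp_123 t 5 1 1 = true :=
  ⟨(b (b (b (a (a (a (l 16647120) (l 16859144)) (l 16604960)) (l 16612480)) (a (a (l 16773440) (l 16633864)) (l 16634040))) (a (a (a (b (l 16694608) (l 16641912)) (b (l 16684456) (l 16804600))) (l 16723832)) (l 16670064))) (b (a (a (a (b (b (l 16753680) (l 16765632)) (b (l 16770808) (l 16768408))) (b (a (l 16750616) (a (l 16748688) (a (l 16749600) (l 16752408)))) (a (l 16758472) (a (l 16753984) (a (l 16753920) (l 16756528)))))) (b (l 16737648) (l 16699040))) (b (l 16706024) (l 16704360))) (a (a (a (b (b (l 16751256) (l 16704104))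 (b (a (l 16671848) (l 1)) (l 1))) (b (a (b (l 16739696) (l 16697120)) (a (l 16710488) (a (l 16707824) (l 16710480)))) (l 1))) (b (l 16696400) (l 1))) (b (l 16604400) (l 1))))), by decide +kernel⟩

def k2_pp_123 : ∃ t, chk3 f_pp_123 t 3 1 1 = true :=
  ⟨(b (a (b (a (l 16771824) (l 16653160)) (a (l 16705816) (l 16847416))) (b (a (l 16683176) (l 16708728)) (a (l 16711864) (l 685618132807)))) (b (a (b (l 16851960) (a (l 16597120) (l 16681896))) (a (l 16872888) (l 1))) (l 1))), by decide +kernel⟩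

theorem s3_pp_123 : ∃ t, chk3 f_pp_123 t 2 1 1 = true := ex3_a k0_pp_123 k1_pp_123

theorem s4_pp_123 : ∃ t, chk3 f_pp_123 t 1 1 1 = true := ex3_a s3_pp_123 k2_pp_123

theorem c_pp_123 : CertB 536870912 536870912 0 1230186008 649613803 48318383 3 eng mog cd1q1 cd6q3 pd2 false true true .npn 1 2 3
    ndB1q1 ndB6q3 pcB2 Cut.none Ext.none :=
  certB2 (fam := false) (s1 := true) (s2 := true) (a := 1) (b := 2) (c := 3) (cn := .npn) (n1 := ndB1q1) (n2 := ndB6q3) (pc := pcB2) (cut := Cut.none) (xt := Ext.none) (P1 := 536870912) (W1 := 536870912) (P2 := 0) (W2 := 1230186008) (P3 := 649613803) (W3 := 48318383) (N0 := 3) (En := eng) (mo := mog) (C1 := cd1q1) (C2 := cd6q3) (C3 := pd2)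
    rfl (fun _ => rfl) s4_pp_123

noncomputable def f_pp_133 : ℕ → ℕ → ℕ → ℕ → Bool := onCell 536870912 536870912 0 1230186008 649613803 48318383
    (rowB 3 eng mog cd1q1 cd6q3 pd3 0 false true true .dn 1 3 3 (qsf 536870912 536870912 0 1230186008 3) ndB1q1 ndB6q3 pcB3 Cut.none Ext.none)

def k0_pp_133 : ∃ t, chk3 f_pp_133 t 1 1 1 = true :=
  ⟨(b (b (a (a (l 1036731703463) (l 1)) (l 1)) (l 1)) (l 1)), by decide +kernel⟩

theorem c_pp_133 : CertB 536870912 536870912 0 1230186008 649613803 48318383 3 eng mog cd1q1 cd6q3 pd3 false true true .dn 1 3 3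
    ndB1q1 ndB6q3 pcB3 Cut.none Ext.none :=
  certB0 (fam := false) (s1 := true) (s2 := true) (a := 1) (b := 3) (c := 3) (cn := .dn) (n1 := ndB1q1) (n2 := ndB6q3) (pc := pcB3) (cut := Cut.none) (xt := Ext.none) (P1 := 536870912) (W1 := 536870912) (P2 := 0) (W2 := 1230186008) (P3 := 649613803) (W3 := 48318383) (N0 := 3) (En := eng) (mo := mog) (C1 := cd1q1) (C2 := cd6q3) (C3 := pd3)
    rfl k0_pp_133

noncomputable def f_pp_202_a : ℕ → ℕ → ℕ → ℕ → Bool := onCell 0 536870912 0 536870912 649613803 48318383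
    (rowB 3 eng mog cd1q2a cd6q2 pd0 1 false true true .pp 2 0 2 (qsf 0 536870912 1073741824 536870912 0) ndB1q2a ndB6q2 pcB0 Cut.none Ext.none)

def k0_pp_202_a : ∃ t, chk3 f_pp_202_a t 1 1 1 = true :=
  ⟨(l 3), by decide +kernel⟩

theorem c_pp_202_a : CertB 0 536870912 1073741824 536870912 649613803 48318383 3 eng mog cd1q2a cd6q2 pd0 false true true .pp 2 0 2
    ndB1q2a ndB6q2 pcB0 Cut.none Ext.none :=
  certB1 (fam := false) (s1 := true) (s2 := true) (a := 2) (b := 0) (c := 2) (cn := .pp) (n1 := ndB1q2a) (n2 := ndB6q2) (pc := pcB0) (cut := Cut.none) (xt := Ext.none) (P1 := 0) (W1 := 536870912) (P2 := 1073741824) (W2 := 536870912) (P3 := 649613803) (W3 := 48318383) (N0 := 3) (En := eng) (mo := mog) (C1 := cd1q2a) (C2 := cd6q2) (C3 := pd0)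
    rfl (fun _ => rfl) k0_pp_202_a

noncomputable def f_pp_202_b : ℕ → ℕ → ℕ → ℕ → Bool := onCell 1239849684 370763052 1073741824 536870912 649613803 48318383
    (rowB 3 eng mog cd1q2b cd6q2 pd0 0 false true true .pp 2 0 2 (qsf 1239849684 370763052 1073741824 536870912 0) ndB1q2b ndB6q2 pcB0 Cut.none Ext.none)

def k0_pp_202_b : ∃ t, chk3 f_pp_202_b t 1 1 1 = true :=
  ⟨(l 5), by decide +kernel⟩

theorem c_pp_202_b : CertB 1239849684 370763052 1073741824 536870912 649613803 48318383 3 eng mog cd1q2b cd6q2 pd0 false true true .pp 2 0 2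
    ndB1q2b ndB6q2 pcB0 Cut.none Ext.none :=
  certB0 (fam := false) (s1 := true) (s2 := true) (a := 2) (b := 0) (c := 2) (cn := .pp) (n1 := ndB1q2b) (n2 := ndB6q2) (pc := pcB0) (cut := Cut.none) (xt := Ext.none) (P1 := 1239849684) (W1 := 370763052) (P2 := 1073741824) (W2 := 536870912) (P3 := 649613803) (W3 := 48318383) (N0 := 3) (En := eng) (mo := mog) (C1 := cd1q2b) (C2 := cd6q2) (C3 := pd0)
    rfl k0_pp_202_b

noncomputable def f_pp_203_a : ℕ → ℕ → ℕ → ℕ → Bool := onCell 0 536870912 0 1230186008 649613803 48318383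
    (rowB 3 eng mog cd1q2a cd6q3 pd0 0 false true true .up 2 0 3 (qsf 0 536870912 0 1230186008 0) ndB1q2a ndB6q3 pcB0 Cut.none Ext.none)

def k0_pp_203_a : ∃ t, chk3 f_pp_203_a t 1 1 1 = true :=
  ⟨(b (l 2) (l 3)), by decide +kernel⟩

theorem c_pp_203_a : CertB 0 536870912 0 1230186008 649613803 48318383 3 eng mog cd1q2a cd6q3 pd0 false true true .up 2 0 3
    ndB1q2a ndB6q3 pcB0 Cut.none Ext.none :=
  certB0 (fam := false) (s1 := true) (s2 := true) (a := 2) (b := 0) (c := 3) (cn := .up) (n1 := ndB1q2a) (n2 := ndB6q3) (pc := pcB0) (cut := Cut.none) (xt := Ext.none) (P1 := 0) (W1 := 536870912) (P2 := 0) (W2 := 1230186008) (P3 := 649613803) (W3 := 48318383) (N0 := 3) (En := eng) (mo := mog) (C1 := cd1q2a) (C2 := cd6q3) (C3 := pd0)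
    rfl k0_pp_203_a

noncomputable def f_pp_203_b : ℕ → ℕ → ℕ → ℕ → Bool := onCell 1239849684 370763052 0 1230186008 649613803 48318383
    (rowB 3 eng mog cd1q2b cd6q3 pd0 0 false true true .up 2 0 3 (qsf 1239849684 370763052 0 1230186008 0) ndB1q2b ndB6q3 pcB0 Cut.none Ext.none)

def k0_pp_203_b : ∃ t, chk3 f_pp_203_b t 1 1 1 = true :=
  ⟨(b (l 3) (l 3)), by decide +kernel⟩

theorem c_pp_203_b : CertB 1239849684 370763052 0 1230186008 649613803 48318383 3 eng mog cd1q2b cd6q3 pd0 false true true .up 2 0 3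
    ndB1q2b ndB6q3 pcB0 Cut.none Ext.none :=
  certB0 (fam := false) (s1 := true) (s2 := true) (a := 2) (b := 0) (c := 3) (cn := .up) (n1 := ndB1q2b) (n2 := ndB6q3) (pc := pcB0) (cut := Cut.none) (xt := Ext.none) (P1 := 1239849684) (W1 := 370763052) (P2 := 0) (W2 := 1230186008) (P3 := 649613803) (W3 := 48318383) (N0 := 3) (En := eng) (mo := mog) (C1 := cd1q2b) (C2 := cd6q3) (C3 := pd0)
    rfl k0_pp_203_b

noncomputable def cut_pp_213_a : Cut := Cut.of [[⟨0, 1, 0, 67108864⟩, ⟨1, 1, 0, 67108864⟩, ⟨2, 2, 0, 16777216⟩]]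

noncomputable def f_pp_213_a : ℕ → ℕ → ℕ → ℕ → Bool := onCell 0 536870912 0 1230186008 649613803 48318383
    (rowB 3 eng mog cd1q2a cd6q3 pd1 0 false true true .pnn 2 1 3 (qsf 0 536870912 0 1230186008 1) ndB1q2a ndB6q3 pcB1 cut_pp_213_a Ext.none)

def k0_pp_213_a : ∃ t, chk3 f_pp_213_a t 1 1 1 = true :=
  ⟨(b (a (l 3) (b (a (l 3) (a (l 3) (b (l 6) (l 3)))) (l 3))) (l 3)), by decide +kernel⟩

theorem c_pp_213_a : CertB 0 536870912 0 1230186008 649613803 48318383 3 eng mog cd1q2a cd6q3 pd1 false true true .pnn 2 1 3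
    ndB1q2a ndB6q3 pcB1 cut_pp_213_a Ext.none :=
  certB0 (fam := false) (s1 := true) (s2 := true) (a := 2) (b := 1) (c := 3) (cn := .pnn) (n1 := ndB1q2a) (n2 := ndB6q3) (pc := pcB1) (cut := cut_pp_213_a) (xt := Ext.none) (P1 := 0) (W1 := 536870912) (P2 := 0) (W2 := 1230186008) (P3 := 649613803) (W3 := 48318383) (N0 := 3) (En := eng) (mo := mog) (C1 := cd1q2a) (C2 := cd6q3) (C3 := pd1)
    rfl k0_pp_213_a

noncomputable def cut_pp_213_b : Cut := Cut.of [[⟨0, 1, 0, 67108864⟩, ⟨1, 1, 0, 67108864⟩, ⟨2, 2, 0, 16777216⟩]]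

noncomputable def f_pp_213_b : ℕ → ℕ → ℕ → ℕ → Bool := onCell 1239849684 370763052 0 1230186008 649613803 48318383
    (rowB 3 eng mog cd1q2b cd6q3 pd1 0 false true true .pnn 2 1 3 (qsf 1239849684 370763052 0 1230186008 1) ndB1q2b ndB6q3 pcB1 cut_pp_213_b Ext.none)

def k0_pp_213_b : ∃ t, chk3 f_pp_213_b t 1 1 1 = true :=
  ⟨(b (l 3) (l 3)), by decide +kernel⟩

theorem c_pp_213_b : CertB 1239849684 370763052 0 1230186008 649613803 48318383 3 eng mog cd1q2b cd6q3 pd1 false true true .pnn 2 1 3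
    ndB1q2b ndB6q3 pcB1 cut_pp_213_b Ext.none :=
  certB0 (fam := false) (s1 := true) (s2 := true) (a := 2) (b := 1) (c := 3) (cn := .pnn) (n1 := ndB1q2b) (n2 := ndB6q3) (pc := pcB1) (cut := cut_pp_213_b) (xt := Ext.none) (P1 := 1239849684) (W1 := 370763052) (P2 := 0) (W2 := 1230186008) (P3 := 649613803) (W3 := 48318383) (N0 := 3) (En := eng) (mo := mog) (C1 := cd1q2b) (C2 := cd6q3) (C3 := pd1)
    rfl k0_pp_213_b

noncomputable def f_pp_303 : ℕ → ℕ → ℕ → ℕ → Bool := onCell 1610612736 536870912 0 1230186008 649613803 48318383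
    (rowB 3 eng mog cd1q3 cd6q3 pd0 0 false true true .npn 3 0 3 (qsf 1610612736 536870912 0 1230186008 0) ndB1q3 ndB6q3 pcB0 Cut.none Ext.none)

def k0_pp_303 : ∃ t, chk3 f_pp_303 t 1 1 1 = true :=
  ⟨(b (l 3) (l 3)), by decide +kernel⟩

theorem c_pp_303 : CertB 1610612736 536870912 0 1230186008 649613803 48318383 3 eng mog cd1q3 cd6q3 pd0 false true true .npn 3 0 3
    ndB1q3 ndB6q3 pcB0 Cut.none Ext.none :=
  certB0 (fam := false) (s1 := true) (s2 := true) (a := 3) (b := 0) (c := 3) (cn := .npn) (n1 := ndB1q3) (n2 := ndB6q3) (pc := pcB0) (cut := Cut.none) (xt := Ext.none) (P1 := 1610612736) (W1 := 536870912) (P2 := 0) (W2 := 1230186008) (P3 := 649613803) (W3 := 48318383) (N0 := 3) (En := eng) (mo := mog) (C1 := cd1q3) (C2 := cd6q3) (C3 := pd0)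
    rfl k0_pp_303

noncomputable def f_pp_313 : ℕ → ℕ → ℕ → ℕ → Bool := onCell 1610612736 536870912 0 1230186008 649613803 48318383
    (rowB 3 eng mog cd1q3 cd6q3 pd1 0 false true true .dn 3 1 3 (qsf 1610612736 536870912 0 1230186008 1) ndB1q3 ndB6q3 pcB1 Cut.none Ext.none)

def k0_pp_313 : ∃ t, chk3 f_pp_313 t 1 1 1 = true :=
  ⟨(b (l 3) (l 1)), by decide +kernel⟩

theorem c_pp_313 : CertB 1610612736 536870912 0 1230186008 649613803 48318383 3 eng mog cd1q3 cd6q3 pd1 false true true .dn 3 1 3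
    ndB1q3 ndB6q3 pcB1 Cut.none Ext.none :=
  certB0 (fam := false) (s1 := true) (s2 := true) (a := 3) (b := 1) (c := 3) (cn := .dn) (n1 := ndB1q3) (n2 := ndB6q3) (pc := pcB1) (cut := Cut.none) (xt := Ext.none) (P1 := 1610612736) (W1 := 536870912) (P2 := 0) (W2 := 1230186008) (P3 := 649613803) (W3 := 48318383) (N0 := 3) (En := eng) (mo := mog) (C1 := cd1q3) (C2 := cd6q3) (C3 := pd1)
    rfl k0_pp_313

noncomputable def f_pm_001 : ℕ → ℕ → ℕ → ℕ → Bool := onCell 0 536870912 536870912 536870912 649613803 48318383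
    (rowB 3 eng mog cd1q0 cd6q1 pd0 0 false true false .up 0 0 1 (qsf 0 536870912 536870912 536870912 0) ndB1q0 ndB6q1 pcB0 Cut.none Ext.none)

def k0_pm_001 : ∃ t, chk3 f_pm_001 t 1 1 1 = true :=
  ⟨(l 4), by decide +kernel⟩

theorem c_pm_001 : CertB 0 536870912 536870912 536870912 649613803 48318383 3 eng mog cd1q0 cd6q1 pd0 false true false .up 0 0 1
    ndB1q0 ndB6q1 pcB0 Cut.none Ext.none :=
  certB0 (fam := false) (s1 := true) (s2 := false) (a := 0) (b := 0) (c := 1) (cn := .up) (n1 := ndB1q0) (n2 := ndB6q1) (pc := pcB0) (cut := Cut.none) (xt := Ext.none) (P1 := 0) (W1 := 536870912) (P2 := 536870912) (W2 := 536870912) (P3 := 649613803) (W3 := 48318383) (N0 := 3) (En := eng) (mo := mog) (C1 := cd1q0) (C2 := cd6q1) (C3 := pd0)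
    rfl k0_pm_001

noncomputable def f_pm_011 : ℕ → ℕ → ℕ → ℕ → Bool := onCell 0 536870912 536870912 536870912 649613803 48318383
    (rowB 3 eng mog cd1q0 cd6q1 pd1 0 false true false .pnn 0 1 1 (qsf 0 536870912 536870912 536870912 1) ndB1q0 ndB6q1 pcB1 Cut.none Ext.none)

def k0_pm_011 : ∃ t, chk3 f_pm_011 t 1 1 1 = true :=
  ⟨(l 4), by decide +kernel⟩

theorem c_pm_011 : CertB 0 536870912 536870912 536870912 649613803 48318383 3 eng mog cd1q0 cd6q1 pd1 false true false .pnn 0 1 1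
    ndB1q0 ndB6q1 pcB1 Cut.none Ext.none :=
  certB0 (fam := false) (s1 := true) (s2 := false) (a := 0) (b := 1) (c := 1) (cn := .pnn) (n1 := ndB1q0) (n2 := ndB6q1) (pc := pcB1) (cut := Cut.none) (xt := Ext.none) (P1 := 0) (W1 := 536870912) (P2 := 536870912) (W2 := 536870912) (P3 := 649613803) (W3 := 48318383) (N0 := 3) (En := eng) (mo := mog) (C1 := cd1q0) (C2 := cd6q1) (C3 := pd1)
    rfl k0_pm_011

noncomputable def f_pm_012 : ℕ → ℕ → ℕ → ℕ → Bool := onCell 0 536870912 1073741824 536870912 649613803 48318383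
    (rowB 3 eng mog cd1q0 cd6q2 pd1 0 false true false .pnp 0 1 2 (qsf 0 536870912 1073741824 536870912 1) ndB1q0 ndB6q2 pcB1 Cut.none Ext.none)

def k0_pm_012 : ∃ t, chk3 f_pm_012 t 1 1 1 = true :=
  ⟨(l 4), by decide +kernel⟩

theorem c_pm_012 : CertB 0 536870912 1073741824 536870912 649613803 48318383 3 eng mog cd1q0 cd6q2 pd1 false true false .pnp 0 1 2
    ndB1q0 ndB6q2 pcB1 Cut.none Ext.none :=
  certB0 (fam := false) (s1 := true) (s2 := false) (a := 0) (b := 1) (c := 2) (cn := .pnp) (n1 := ndB1q0) (n2 := ndB6q2) (pc := pcB1) (cut := Cut.none) (xt := Ext.none) (P1 := 0) (W1 := 536870912) (P2 := 1073741824) (W2 := 536870912) (P3 := 649613803) (W3 := 48318383) (N0 := 3) (En := eng) (mo := mog) (C1 := cd1q0) (C2 := cd6q2) (C3 := pd1)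
    rfl k0_pm_012

noncomputable def f_pm_022 : ℕ → ℕ → ℕ → ℕ → Bool := onCell 0 536870912 1073741824 536870912 649613803 48318383
    (rowB 3 eng mog cd1q0 cd6q2 pd2 0 false true false .pp 0 2 2 (qsf 0 536870912 1073741824 536870912 2) ndB1q0 ndB6q2 pcB2 Cut.none Ext.none)

def k0_pm_022 : ∃ t, chk3 f_pm_022 t 1 1 1 = true :=
  ⟨(l 4), by decide +kernel⟩

theorem c_pm_022 : CertB 0 536870912 1073741824 536870912 649613803 48318383 3 eng mog cd1q0 cd6q2 pd2 false true false .pp 0 2 2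
    ndB1q0 ndB6q2 pcB2 Cut.none Ext.none :=
  certB0 (fam := false) (s1 := true) (s2 := false) (a := 0) (b := 2) (c := 2) (cn := .pp) (n1 := ndB1q0) (n2 := ndB6q2) (pc := pcB2) (cut := Cut.none) (xt := Ext.none) (P1 := 0) (W1 := 536870912) (P2 := 1073741824) (W2 := 536870912) (P3 := 649613803) (W3 := 48318383) (N0 := 3) (En := eng) (mo := mog) (C1 := cd1q0) (C2 := cd6q2) (C3 := pd2)
    rfl k0_pm_022

noncomputable def f_pm_023 : ℕ → ℕ → ℕ → ℕ → Bool := onCell 0 536870912 0 1230186008 649613803 48318383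
    (rowB 3 eng mog cd1q0 cd6q3 pd2 0 false true false .up 0 2 3 (qsf 0 536870912 0 1230186008 2) ndB1q0 ndB6q3 pcB2 Cut.none Ext.none)

def k0_pm_023 : ∃ t, chk3 f_pm_023 t 1 1 1 = true :=
  ⟨(b (a (l 2) (a (l 2) (b (a (l 2) (l 16802272)) (a (b (l 4) (l 4)) (a (l 161296282135) (b (l 16581760) (l 16528872))))))) (b (l 4) (l 4))), by decide +kernel⟩

theorem c_pm_023 : CertB 0 536870912 0 1230186008 649613803 48318383 3 eng mog cd1q0 cd6q3 pd2 false true false .up 0 2 3
    ndB1q0 ndB6q3 pcB2 Cut.none Ext.none :=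
  certB0 (fam := false) (s1 := true) (s2 := false) (a := 0) (b := 2) (c := 3) (cn := .up) (n1 := ndB1q0) (n2 := ndB6q3) (pc := pcB2) (cut := Cut.none) (xt := Ext.none) (P1 := 0) (W1 := 536870912) (P2 := 0) (W2 := 1230186008) (P3 := 649613803) (W3 := 48318383) (N0 := 3) (En := eng) (mo := mog) (C1 := cd1q0) (C2 := cd6q3) (C3 := pd2)
    rfl k0_pm_023

noncomputable def f_pm_033 : ℕ → ℕ → ℕ → ℕ → Bool := onCell 0 536870912 0 1230186008 649613803 48318383
    (rowB 3 eng mog cd1q0 cd6q3 pd3 0 false true false .pnn 0 3 3 (qsf 0 536870912 0 1230186008 3) ndB1q0 ndB6q3 pcB3 Cut.none Ext.none)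

def k0_pm_033 : ∃ t, chk3 f_pm_033 t 1 1 1 = true :=
  ⟨(b (a (l 4) (a (b (a (l 4) (l 16794896)) (l 4)) (b (a (l 16611888) (l 16635080)) (a (b (l 4) (l 4)) (b (l 16585216) (a (l 4) (l 1))))))) (b (l 4) (l 4))), by decide +kernel⟩

theorem c_pm_033 : CertB 0 536870912 0 1230186008 649613803 48318383 3 eng mog cd1q0 cd6q3 pd3 false true false .pnn 0 3 3
    ndB1q0 ndB6q3 pcB3 Cut.none Ext.none :=
  certB0 (fam := false) (s1 := true) (s2 := false) (a := 0) (b := 3) (c := 3) (cn := .pnn) (n1 := ndB1q0) (n2 := ndB6q3) (pc := pcB3) (cut := Cut.none) (xt := Ext.none) (P1 := 0) (W1 := 536870912) (P2 := 0) (W2 := 1230186008) (P3 := 649613803) (W3 := 48318383) (N0 := 3) (En := eng) (mo := mog) (C1 := cd1q0) (C2 := cd6q3) (C3 := pd3)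
    rfl k0_pm_033

noncomputable def f_pm_101 : ℕ → ℕ → ℕ → ℕ → Bool := onCell 536870912 536870912 536870912 536870912 649613803 48318383
    (rowB 3 eng mog cd1q1 cd6q1 pd0 0 false true false .npn 1 0 1 (qsf 536870912 536870912 536870912 536870912 0) ndB1q1 ndB6q1 pcB0 Cut.none Ext.none)

def k0_pm_101 : ∃ t, chk3 f_pm_101 t 1 1 1 = true :=
  ⟨(l 4), by decide +kernel⟩

theorem c_pm_101 : CertB 536870912 536870912 536870912 536870912 649613803 48318383 3 eng mog cd1q1 cd6q1 pd0 false true false .npn 1 0 1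
    ndB1q1 ndB6q1 pcB0 Cut.none Ext.none :=
  certB0 (fam := false) (s1 := true) (s2 := false) (a := 1) (b := 0) (c := 1) (cn := .npn) (n1 := ndB1q1) (n2 := ndB6q1) (pc := pcB0) (cut := Cut.none) (xt := Ext.none) (P1 := 536870912) (W1 := 536870912) (P2 := 536870912) (W2 := 536870912) (P3 := 649613803) (W3 := 48318383) (N0 := 3) (En := eng) (mo := mog) (C1 := cd1q1) (C2 := cd6q1) (C3 := pd0)
    rfl k0_pm_101

noncomputable def f_pm_102 : ℕ → ℕ → ℕ → ℕ → Bool := onCell 536870912 536870912 0 536870912 649613803 48318383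
    (rowB 3 eng mog cd1q1 cd6q2 pd0 1 false true false .npp 1 0 2 (qsf 536870912 536870912 1073741824 536870912 0) ndB1q1 ndB6q2 pcB0 Cut.none Ext.none)

def k0_pm_102 : ∃ t, chk3 f_pm_102 t 1 1 1 = true :=
  ⟨(a (l 4) (a (a (b (l 4) (b (l 4) (b (b (l 4) (l 15981416)) (l 16092440)))) (b (a (b (l 1) (l 4)) (b (b (l 1) (b (l 1) (l 16260672))) (b (b (l 16026304) (l 16003472)) (l 16181544)))) (b (b (b (l 16001104) (l 11507779975)) (b (l 45867841479) (l 16103176))) (b (a (l 16145528) (l 16297792)) (a (l 16295040) (l 16443936)))))) (b (b (b (a (a (l 1) (b (l 1) (l 16139968))) (a (b (c (l 16250256) (l 16134336)) (l 16228832)) (b (c (l 16292192) (l 16189776)) (a (l 16228024) (l 16329664))))) (a (b (a (l 16083376) (l 16129272)) (a (l 16055584) (l 16117432))) (a (b (l 16179936) (l 16198704)) (b (a (l 16246152) (l 16275376)) (a (l 16265064) (l 16290704)))))) (b (a (b (l 16196696) (l 16100840)) (a (b (l 16216912) (l 16228872)) (b (a (l 16278336) (l 16310080))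 (b (l 16313256) (l 16331456))))) (a (b (l 16110512) (a (l 16083160) (l 16167912))) (a (b (a (l 16215752) (l 16273296)) (l 16300088)) (b (l 16372048) (l 16429312)))))) (b (b (a (a (b (l 16099736) (l 16152680)) (b (l 16221992) (l 16309600))) (a (l 16423560) (b (l 16479928) (l 16521872)))) (a (a (l 16286704) (l 16439464)) (b (a (l 16510936) (l 16557984)) (a (l 16557824) (l 16585536))))) (b (a (b (a (l 16416928) (l 16533392)) (a (l 16478680) (l 16581376))) (b (a (l 16597704) (l 16609472)) (a (l 16633896) (l 16640992)))) (a (l 16613464) (a (l 16694600) (l 16686464)))))))), by decide +kernel⟩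

theorem c_pm_102 : CertB 536870912 536870912 1073741824 536870912 649613803 48318383 3 eng mog cd1q1 cd6q2 pd0 false true false .npp 1 0 2
    ndB1q1 ndB6q2 pcB0 Cut.none Ext.none :=
  certB1 (fam := false) (s1 := true) (s2 := false) (a := 1) (b := 0) (c := 2) (cn := .npp) (n1 := ndB1q1) (n2 := ndB6q2) (pc := pcB0) (cut := Cut.none) (xt := Ext.none) (P1 := 536870912) (W1 := 536870912) (P2 := 1073741824) (W2 := 536870912) (P3 := 649613803) (W3 := 48318383) (N0 := 3) (En := eng) (mo := mog) (C1 := cd1q1) (C2 := cd6q2) (C3 := pd0)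
    rfl (fun _ => rfl) k0_pm_102

noncomputable def f_pm_112 : ℕ → ℕ → ℕ → ℕ → Bool := onCell 536870912 536870912 1073741824 536870912 649613803 48318383
    (rowB 3 eng mog cd1q1 cd6q2 pd1 2 false true false .dn 1 1 2 (qsf 536870912 536870912 1073741824 536870912 1) ndB1q1 ndB6q2 pcB1 Cut.none Ext.none)

def k0_pm_112 : ∃ t, chk3 f_pm_112 t 1 1 1 = true :=
  ⟨(b (l 4) (a (a (b (a (b (l 16080320) (l 16367360)) (l 16223960)) (a (b (l 16621184) (l 16792248)) (b (l 16494896) (l 16751424)))) (b (l 4) (a (b (l 16332760) (l 16615264)) (l 16305088)))) (a (b (l 4) (l 61437293319)) (l 4)))), by decide +kernel⟩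

theorem c_pm_112 : CertB 536870912 536870912 1073741824 536870912 649613803 48318383 3 eng mog cd1q1 cd6q2 pd1 false true false .dn 1 1 2
    ndB1q1 ndB6q2 pcB1 Cut.none Ext.none :=
  certB2 (fam := false) (s1 := true) (s2 := false) (a := 1) (b := 1) (c := 2) (cn := .dn) (n1 := ndB1q1) (n2 := ndB6q2) (pc := pcB1) (cut := Cut.none) (xt := Ext.none) (P1 := 536870912) (W1 := 536870912) (P2 := 1073741824) (W2 := 536870912) (P3 := 649613803) (W3 := 48318383) (N0 := 3) (En := eng) (mo := mog) (C1 := cd1q1) (C2 := cd6q2) (C3 := pd1)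
    rfl (fun _ => rfl) k0_pm_112

noncomputable def f_pm_113 : ℕ → ℕ → ℕ → ℕ → Bool := onCell 536870912 536870912 0 1230186008 649613803 48318383
    (rowB 3 eng mog cd1q1 cd6q3 pd1 0 false true false .nn 1 1 3 (qsf 536870912 536870912 0 1230186008 1) ndB1q1 ndB6q3 pcB1 Cut.none Ext.none)

def k0_pm_113 : ∃ t, chk3 f_pm_113 t 1 1 1 = true :=
  ⟨(b (a (l 2) (a (l 2) (b (a (l 2) (a (l 2) (a (l 1407239811911) (b (l 16768032) (l 16786272))))) (a (b (l 16734376) (l 16743192)) (b (a (l 16773928) (l 16803808)) (l 16820264)))))) (b (a (b (l 2) (a (l 2) (a (l 2) (b (l 2) (l 205184882647))))) (a (b (a (l 2) (l 16624304)) (a (b (l 16478704) (l 16468800)) (l 16614568))) (b (a (l 16748608) (a (l 16831072) (l 16880208))) (a (b (l 16747400) (l 16749952)) (b (l 16885152) (l 16905312)))))) (a (b (a (l 2) (a (b (a (l 2) (l 16162592)) (l 187467161255)) (b (l 16304184) (a (l 16250432) (l 16338128))))) (a (l 4) (b (a (l 16135824) (a (l 16261832) (l 16320080))) (a (l 4)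 (l 16330136))))) (b (a (a (b (l 16461248) (l 16454352)) (b (l 16606584) (l 16594416))) (a (b (l 16758032) (l 16775960)) (l 16940240))) (a (b (a (l 16457968) (l 16631088)) (a (l 16487720) (l 16652544))) (a (b (l 16807272) (l 16832040)) (b (l 16991592) (l 16974808)))))))), by decide +kernel⟩

theorem c_pm_113 : CertB 536870912 536870912 0 1230186008 649613803 48318383 3 eng mog cd1q1 cd6q3 pd1 false true false .nn 1 1 3
    ndB1q1 ndB6q3 pcB1 Cut.none Ext.none :=
  certB0 (fam := false) (s1 := true) (s2 := false) (a := 1) (b := 1) (c := 3) (cn := .nn) (n1 := ndB1q1) (n2 := ndB6q3) (pc := pcB1) (cut := Cut.none) (xt := Ext.none) (P1 := 536870912) (W1 := 536870912) (P2 := 0) (W2 := 1230186008) (P3 := 649613803) (W3 := 48318383) (N0 := 3) (En := eng) (mo := mog) (C1 := cd1q1) (C2 := cd6q3) (C3 := pd1)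
    rfl k0_pm_113

noncomputable def f_pm_123 : ℕ → ℕ → ℕ → ℕ → Bool := onCell 1073741824 536870912 0 1230186008 649613803 48318383
    (rowB 3 eng mog cd1q1 cd6q3 pd2 2 false true false .npn 1 2 3 (qsf 536870912 536870912 0 1230186008 2) ndB1q1 ndB6q3 pcB2 Cut.none Ext.none)

def k0_pm_123 : ∃ t, chk3 f_pm_123 t 1 1 1 = true :=
  ⟨(a (a (b (b (a (b (a (l 16753432) (l 16722816)) (a (l 16743288) (l 16705608))) (b (l 16670344) (l 16643328))) (a (b (l 16724816) (a (l 16730168) (l 16651424))) (b (l 16609128) (a (l 16576736) (l 16516480))))) (b (a (b (b (l 16604872) (a (l 16564640) (l 16494424))) (b (l 16452616) (l 16354472))) (b (b (l 16475064) (l 16427224)) (b (l 16362576) (l 16282064)))) (b (a (a (l 16190432) (l 16157144)) (b (l 16165432) (l 4))) (l 4)))) (b (b (a (a (a (l 16601632) (l 16622104)) (a (l 16554800) (l 16549112))) (b (l 16585080) (l 16550064))) (a (b (a (l 16523024) (l 16488440)) (a (l 16472936) (l 16451088))) (b (l 16514400) (l 16468808))))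 (b (b (a (a (l 16406176) (l 16391048)) (l 16398088)) (a (a (l 16297744) (l 16292992)) (l 16299248))) (l 4)))) (b (a (b (a (b (l 16609608) (l 16580696)) (b (l 16633240) (l 16600520))) (a (b (l 16539384) (l 16489104)) (b (l 16562536) (l 16509048)))) (b (a (l 16625816) (l 16654288)) (a (b (l 16585312) (l 16562736)) (l 16358160)))) (b (a (b (a (l 16416008) (a (l 16437320) (l 16458344))) (l 4)) (l 4)) (l 1)))), by decide +kernel⟩

theorem c_pm_123 : CertB 536870912 536870912 0 1230186008 649613803 48318383 3 eng mog cd1q1 cd6q3 pd2 false true false .npn 1 2 3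
    ndB1q1 ndB6q3 pcB2 Cut.none Ext.none :=
  certB2 (fam := false) (s1 := true) (s2 := false) (a := 1) (b := 2) (c := 3) (cn := .npn) (n1 := ndB1q1) (n2 := ndB6q3) (pc := pcB2) (cut := Cut.none) (xt := Ext.none) (P1 := 536870912) (W1 := 536870912) (P2 := 0) (W2 := 1230186008) (P3 := 649613803) (W3 := 48318383) (N0 := 3) (En := eng) (mo := mog) (C1 := cd1q1) (C2 := cd6q3) (C3 := pd2)
    rfl (fun _ => rfl) k0_pm_123

noncomputable def f_pm_133 : ℕ → ℕ → ℕ → ℕ → Bool := onCell 1610612736 536870912 0 1230186008 649613803 48318383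
    (rowB 3 eng mog cd1q1 cd6q3 pd3 2 false true false .dn 1 3 3 (qsf 536870912 536870912 0 1230186008 3) ndB1q1 ndB6q3 pcB3 Cut.none Ext.none)

def k0_pm_133 : ∃ t, chk3 f_pm_133 t 1 1 1 = true :=
  ⟨(b (a (a (a (l 16794496) (l 1)) (l 1)) (l 1)) (l 1)), by decide +kernel⟩

theorem c_pm_133 : CertB 536870912 536870912 0 1230186008 649613803 48318383 3 eng mog cd1q1 cd6q3 pd3 false true false .dn 1 3 3
    ndB1q1 ndB6q3 pcB3 Cut.none Ext.none :=
  certB2 (fam := false) (s1 := true) (s2 := false) (a := 1) (b := 3) (c := 3) (cn := .dn) (n1 := ndB1q1) (n2 := ndB6q3) (pc := pcB3) (cut := Cut.none) (xt := Ext.none) (P1 := 536870912) (W1 := 536870912) (P2 := 0) (W2 := 1230186008) (P3 := 649613803) (W3 := 48318383) (N0 := 3) (En := eng) (mo := mog) (C1 := cd1q1) (C2 := cd6q3) (C3 := pd3)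
    rfl (fun _ => rfl) k0_pm_133

noncomputable def f_pm_202_a : ℕ → ℕ → ℕ → ℕ → Bool := onCell 0 536870912 0 536870912 649613803 48318383
    (rowB 3 eng mog cd1q2a cd6q2 pd0 1 false true false .pp 2 0 2 (qsf 0 536870912 1073741824 536870912 0) ndB1q2a ndB6q2 pcB0 Cut.none Ext.none)

def k0_pm_202_a : ∃ t, chk3 f_pm_202_a t 2 16 1 = true :=
  ⟨(b (a (a (a (a (a (l 3) (b (c (b (l 115057569671) (l 16459784)) (b (l 16441856) (l 16440648))) (c (b (l 16459504) (l 16438280)) (l 119889344375)))) (b (a (c (b (l 16439232) (l 16438008)) (l 16432984)) (l 16438424)) (b (a (a (b (l 16458408) (l 16437056)) (b (l 16437016) (l 16436720))) (l 16457472)) (a (b (b (a (l 16436856) (l 16436424)) (l 16457128)) (a (l 16436232) (l 16435808))) (a (c (l 16457568) (l 16436504)) (l 16456536)))))) (a (b (l 16438256) (b (l 16436336) (c (l 16436392) (l 16435368)))) (l 16437136))) (a (l 16459488) (l 16441768))) (a (a (l 16446776) (l 16451632)) (a (a (l 16454728) (l 16456232)) (l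 16457024)))) (a (a (a (a (l 120426224839) (a (b (b (c (a (l 16438816) (l 16438544)) (l 16438592)) (l 16441024)) (c (l 16446632) (l 16446992))) (a (b (b (a (l 16436920) (l 16436864)) (l 16440144)) (b (l 16443464) (l 16446112))) (b (b (l 16457424) (l 16439760)) (a (l 16444488) (l 16444112)))))) (b (b (a (b (c (l 16478448) (l 16435184)) (a (l 16457328) (l 16435912))) (l 16435280)) (c (a (a (l 16482320) (l 16440192)) (l 16439712)) (a (a (l 16439664) (l 16438792)) (l 16437528)))) (b (c (a (c (l 16517976) (l 16442432)) (c (l 16465208) (l 16441504))) (a (l 16463448) (l 16440768))) (a (a (a (l 16445376) (l 16445088)) (l 16465432)) (a (l 16444104) (l 16443784)))))) (a (b (l 16437064) (l 16442440)) (b (l 16438784) (l 16442344)))) (a (a (b (l 16443032) (l 16443384)) (l 16488320)) (a (l 16449536) (a (l 16449928) (l 16450016)))))), by decide +kernel⟩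

def k1_pm_202_a : ∃ t, chk3 f_pm_202_a t 2 17 1 = true :=
  ⟨(a (a (a (a (l 3) (b (c (b (l 116131308983) (l 115594449287)) (l 120426243399)) (l 113983869335))) (b (a (a (b (c (b (l 16448672) (l 16451512)) (l 16450520)) (a (l 16454344) (l 16454280))) (b (b (l 16447568) (l 16450168)) (c (l 16454328) (l 16454552)))) (b (a (b (a (l 16447024) (l 16446888)) (l 16449752)) (b (l 16446720) (l 16449440))) (c (a (l 16455312) (l 16475168)) (l 16451808)))) (a (b (a (l 16458768) (b (l 16457368) (l 16459296))) (a (l 16463024) (l 16461800))) (b (a (l 16457480) (l 16458056)) (a (l 16462032) (l 16461112)))))) (b (a (a (b (a (b (l 16446464) (l 16449360)) (b (l 16446680) (l 16449208))) (a (l 16453232) (l 16453368))) (b (l 16448400) (c (b (l 16496088) (l 16457312)) (l 16431304)))) (l 16452184)) (b (a (a (a (l 16457928) (l 16458096)) (b (l 16457376) (l 16459728))) (a (b (l 16458344) (l 16460448)) (l 16460976))) (a (a (a (l 16462144) (l 16462304)) (b (l 16461824) (l 16463824)))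 (a (l 16432600) (l 16465728)))))) (a (b (a (l 16452968) (b (l 16447544) (l 16454664))) (a (l 16465672) (l 16465576))) (a (b (l 16511528) (l 16461152)) (b (b (l 16445464) (l 16443872)) (l 16450984))))), by decide +kernel⟩

def k2_pm_202_a : ∃ t, chk3 f_pm_202_a t 2 9 1 = true :=
  ⟨(a (a (a (l 3) (b (b (a (a (l 16468456) (b (l 16465160) (l 16468016))) (a (l 16528568) (l 16508544))) (b (l 98951607671) (l 105394028135))) (b (a (l 311552318759) (b (l 16472000) (l 16474536))) (b (l 16480192) (l 117741922359))))) (b (a (a (b (a (l 16486768) (l 16467496)) (l 16534192)) (b (b (a (l 16466408) (l 16466840)) (l 16470184)) (l 16515800))) (b (a (b (l 16468048) (l 16522408)) (b (l 16469728) (l 16473896))) (a (b (l 16474256) (l 16477008)) (b (l 16476928) (l 16479416))))) (a (a (b (b (l 16472312) (l 16473280)) (b (l 16474944) (l 16477688))) (b (l 16536792) (b (l 16477248) (l 16478672)))) (a (b (l 16478752) (b (l 16479704) (l 16480912))) (b (l 16482320) (l 16484296))))))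 (a (b (a (b (b (l 16473312) (a (l 16475776) (l 16478744))) (a (l 16481616) (b (l 16482304) (l 16485728)))) (b (l 16477856) (l 16487472))) (a (b (a (l 16486184) (l 16490256)) (a (l 16488424) (l 16493488))) (b (a (l 16492912) (l 16495280)) (a (l 16497568) (l 16501256))))) (b (b (l 16471856) (l 16485272)) (a (b (l 16497624) (b (l 16503288) (l 16505808))) (l 16499080))))), by decide +kernel⟩

def k3_pm_202_a : ∃ t, chk3 f_pm_202_a t 2 5 1 = true :=
  ⟨(a (b (b (b (a (l 166597195015) (a (a (l 16505872) (l 16483968)) (a (l 16486440) (l 16488784)))) (a (l 3) (a (a (l 16494192) (c (l 16495400) (l 16487648))) (a (l 16493960) (l 16495288))))) (a (l 3) (a (b (a (l 123110751751) (a (l 16501456) (l 16501704))) (b (c (l 96804150567) (l 103783441367)) (l 127405751383))) (a (b (l 16502184) (a (l 16510728) (l 16511000))) (b (l 16503496) (l 16511352)))))) (a (l 3) (a (b (a (l 3) (b (l 129016388631) (a (l 3) (l 16529560)))) (l 3)) (b (b (a (a (l 16519808) (l 16519912))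 (l 16520144)) (a (a (l 16528800) (l 16529184)) (a (l 16529024) (l 16529104)))) (b (a (a (l 16539176) (l 16538432)) (a (l 16538440) (l 16537952))) (b (a (l 16547152) (l 16545800)) (l 122037154567))))))) (b (a (b (b (a (a (l 16492144) (l 16495864)) (l 16503120)) (a (l 16499304) (l 16627840))) (a (a (b (l 16504112) (l 16512120)) (l 16509368)) (b (l 16508648) (l 16512616)))) (b (a (b (l 16509976) (l 16514472)) (b (l 16511584) (l 16516488))) (a (b (l 16517240) (l 16519144)) (b (l 16521600) (l 16524728))))) (a (b (a (a (l 16525032) (l 16524680)) (a (l 16523088) (l 16521152))) (a (b (l 16537656) (a (l 16567104) (l 16546456))) (b (l 16533736) (l 16542384)))) (b (a (b (l 16521728) (l 16523680)) (l 16629384)) (a (l 16529072) (l 16532152)))))), by decide +kernel⟩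

def k4_pm_202_a : ∃ t, chk3 f_pm_202_a t 2 3 1 = true :=
  ⟨(b (a (a (l 3) (a (l 3) (b (b (b (a (l 16562312) (l 16558872)) (a (l 3) (l 16570080))) (b (a (l 3) (l 16581408)) (l 3))) (l 3)))) (b (a (b (a (b (a (a (l 16557720) (l 16556728)) (l 16555816)) (a (l 16567496) (l 16565016))) (a (l 16557264) (l 16553224))) (a (b (a (l 16577568) (l 16574568)) (a (l 16587912) (l 16584232))) (b (l 16568184) (l 16576256)))) (a (b (l 16584952) (l 16559192)) (b (l 16533976) (l 16533728)))) (a (a (a (b (b (l 16598024) (l 250886226071)) (l 3)) (b (b (l 16593608) (l 16602728)) (b (b (l 16609096) (l 145659519287)) (l 1749762648231)))) (b (b (l 16584816) (a (l 16596800) (l 16590168))) (b (a (l 16604912) (l 16597896)) (a (l 230954898583) (l 16604960))))) (a (b (l 16574328) (l 16588400)) (b (l 16546648) (l 16558848)))))) (a (l 2) (b (a (l 2) (a (l 2) (b (l 16570424) (l 2)))) (l 2)))), by decide +kernel⟩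

def k5_pm_202_a : ∃ t, chk3 f_pm_202_a t 3 2 1 = true :=
  ⟨(b (a (b (a (b (b (l 16454360) (l 16445880)) (a (b (l 16588648) (a (l 16441400) (l 16478008))) (b (l 16434760) (l 16429008)))) (b (b (l 16444424) (l 16432632)) (a (l 16422848) (l 16413024)))) (a (b (a (l 16460136) (b (a (l 16436064) (l 16426600)) (l 16447352))) (l 16502968)) (b (a (b (l 16414960) (l 16423024)) (l 16548072)) (a (b (l 16440560) (l 16457408)) (b (l 16410320) (l 16430784)))))) (b (a (b (a (b (l 16518608) (l 16420200)) (b (l 16418864) (l 16408288))) (a (l 16403344) (b (l 16399976) (l 16388856)))) (b (b (a (b (l 16403320) (l 16397704)) (a (b (l 16388184) (l 16382792)) (c (l 16412360) (l 16338144)))) (a (l 16390000) (a (l 16375840) (l 16367504)))) (a (l 16440616) (b (l 16365136) (l 16360560))))) (a (b (a (l 16388856) (l 16460464)) (a (b (l 16385880) (l 16398288)) (b (l 16371872) (l 16373304)))) (b (a (b (l 16370552) (l 16365216)) (b (l 16357800) (l 16356792))) (a (b (l 16361000)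 (l 16361712)) (b (l 16357656) (a (l 16359744) (l 16361704)))))))) (a (b (a (b (a (l 16510520) (l 16498400)) (a (b (l 16520648) (l 16524904)) (l 16516896))) (b (a (l 16480304) (l 16456368)) (l 16495576))) (a (b (a (l 16531864) (l 16527280)) (a (l 16536760) (l 16535800))) (b (l 16515088) (a (l 16530192) (l 16523280))))) (b (b (a (a (l 16430424) (b (l 16386960) (l 16409128))) (a (b (l 16365336) (l 16380032)) (b (l 16594680) (a (l 16369624) (l 16373832))))) (a (a (l 16463992) (l 16440656)) (a (l 16414288) (b (a (l 16387800) (l 16387320)) (l 16410168))))) (a (b (l 16586976) (l 16507008)) (b (a (l 16455312) (l 16444464)) (a (l 16487960) (l 16483216))))))), by decide +kernel⟩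

def k6_pm_202_a : ∃ t, chk3 f_pm_202_a t 3 3 1 = true :=
  ⟨(b (b (a (a (a (a (l 16540472) (l 16558512)) (l 16538000)) (b (a (l 16539792) (l 16533560)) (l 16546136))) (a (b (l 16525704) (a (l 16539352) (l 16537968))) (b (a (l 16514760) (l 16514872)) (a (l 16536304) (l 16541248))))) (a (a (a (l 16536800) (b (l 16545888) (l 16544024))) (b (l 16549648) (l 16544312))) (b (a (l 16549072) (l 16555984)) (a (l 16556008) (l 16566448))))) (b (a (a (b (l 133244491959) (l 2)) (a (l 16546728) (l 16549336))) (a (l 16558896) (b (l 16573440) (l 16580784)))) (a (l 2) (a (l 16552880) (a (l 16578192) (l 16597704)))))), by decide +kernel⟩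

theorem s7_pm_202_a : ∃ t, chk3 f_pm_202_a t 3 1 1 = true := ex3_b k5_pm_202_a k6_pm_202_a

theorem s8_pm_202_a : ∃ t, chk3 f_pm_202_a t 2 8 1 = true := ex3_b k0_pm_202_a k1_pm_202_a

theorem s9_pm_202_a : ∃ t, chk3 f_pm_202_a t 2 4 1 = true := ex3_b s8_pm_202_a k2_pm_202_a

theorem s10_pm_202_a : ∃ t, chk3 f_pm_202_a t 2 2 1 = true := ex3_b s9_pm_202_a k3_pm_202_a

theorem s11_pm_202_a : ∃ t, chk3 f_pm_202_a t 2 1 1 = true := ex3_b s10_pm_202_a k4_pm_202_a

theorem s12_pm_202_a : ∃ t, chk3 f_pm_202_a t 1 1 1 = true := ex3_a s11_pm_202_a s7_pm_202_a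

theorem c_pm_202_a : CertB 0 536870912 1073741824 536870912 649613803 48318383 3 eng mog cd1q2a cd6q2 pd0 false true false .pp 2 0 2
    ndB1q2a ndB6q2 pcB0 Cut.none Ext.none :=
  certB1 (fam := false) (s1 := true) (s2 := false) (a := 2) (b := 0) (c := 2) (cn := .pp) (n1 := ndB1q2a) (n2 := ndB6q2) (pc := pcB0) (cut := Cut.none) (xt := Ext.none) (P1 := 0) (W1 := 536870912) (P2 := 1073741824) (W2 := 536870912) (P3 := 649613803) (W3 := 48318383) (N0 := 3) (En := eng) (mo := mog) (C1 := cd1q2a) (C2 := cd6q2) (C3 := pd0)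
    rfl (fun _ => rfl) s12_pm_202_a

noncomputable def f_pm_202_b : ℕ → ℕ → ℕ → ℕ → Bool := onCell 1239849684 370763052 0 536870912 649613803 48318383
    (rowB 3 eng mog cd1q2b cd6q2 pd0 1 false true false .pp 2 0 2 (qsf 1239849684 370763052 1073741824 536870912 0) ndB1q2b ndB6q2 pcB0 Cut.none Ext.none)

def k0_pm_202_b : ∃ t, chk3 f_pm_202_b t 1 1 1 = true :=
  ⟨(b (b (a (b (l 3) (l 3)) (l 3)) (l 3)) (b (l 3) (l 2))), by decide +kernel⟩

theorem c_pm_202_b : CertB 1239849684 370763052 1073741824 536870912 649613803 48318383 3 eng mog cd1q2b cd6q2 pd0 false true false .pp 2 0 2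
    ndB1q2b ndB6q2 pcB0 Cut.none Ext.none :=
  certB1 (fam := false) (s1 := true) (s2 := false) (a := 2) (b := 0) (c := 2) (cn := .pp) (n1 := ndB1q2b) (n2 := ndB6q2) (pc := pcB0) (cut := Cut.none) (xt := Ext.none) (P1 := 1239849684) (W1 := 370763052) (P2 := 1073741824) (W2 := 536870912) (P3 := 649613803) (W3 := 48318383) (N0 := 3) (En := eng) (mo := mog) (C1 := cd1q2b) (C2 := cd6q2) (C3 := pd0)
    rfl (fun _ => rfl) k0_pm_202_b

noncomputable def f_pm_203_a : ℕ → ℕ → ℕ → ℕ → Bool := onCell 0 536870912 0 1230186008 649613803 48318383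
    (rowB 3 eng mog cd1q2a cd6q3 pd0 0 false true false .up 2 0 3 (qsf 0 536870912 0 1230186008 0) ndB1q2a ndB6q3 pcB0 Cut.none Ext.none)

def k0_pm_203_a : ∃ t, chk3 f_pm_203_a t 1 1 1 = true :=
  ⟨(b (l 2) (b (l 2) (a (a (l 3) (b (a (l 3) (a (a (l 3) (l 2)) (l 2))) (b (a (b (l 3) (a (l 3) (a (l 3) (l 195588405735)))) (b (a (a (l 16653256) (l 16635072)) (a (l 16641848) (l 16644568))) (a (a (l 16609648) (l 16616952)) (a (l 16621416) (l 16626896))))) (a (b (a (l 3) (a (l 16637064) (l 16623688))) (a (b (l 3) (a (l 3) (l 16609440))) (b (l 16592288) (l 16575408)))) (b (a (a (l 16589248) (l 16594176)) (l 16601904)) (a (a (l 16596704) (l 16564504)) (l 16572016))))))) (b (l 2) (a (b (a (a (l 16643024) (l 16652064)) (a (l 16658184) (l 16672656))) (a (b (l 16608712) (l 16555696)) (b (l 16621416) (l 16591128)))) (b (a (l 16707712) (l 2)) (a (l 16618944) (l 16673232)))))))), by decide +kernel⟩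

theorem c_pm_203_a : CertB 0 536870912 0 1230186008 649613803 48318383 3 eng mog cd1q2a cd6q3 pd0 false true false .up 2 0 3
    ndB1q2a ndB6q3 pcB0 Cut.none Ext.none :=
  certB0 (fam := false) (s1 := true) (s2 := false) (a := 2) (b := 0) (c := 3) (cn := .up) (n1 := ndB1q2a) (n2 := ndB6q3) (pc := pcB0) (cut := Cut.none) (xt := Ext.none) (P1 := 0) (W1 := 536870912) (P2 := 0) (W2 := 1230186008) (P3 := 649613803) (W3 := 48318383) (N0 := 3) (En := eng) (mo := mog) (C1 := cd1q2a) (C2 := cd6q3) (C3 := pd0)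
    rfl k0_pm_203_a

noncomputable def f_pm_203_b : ℕ → ℕ → ℕ → ℕ → Bool := onCell 0 536870912 0 1230186008 649613803 48318383
    (rowB 3 eng mog cd1q2b cd6q3 pd0 2 false true false .up 2 0 3 (qsf 1239849684 370763052 0 1230186008 0) ndB1q2b ndB6q3 pcB0 Cut.none Ext.none)

def k0_pm_203_b : ∃ t, chk3 f_pm_203_b t 1 1 1 = true :=
  ⟨(b (l 3) (l 3)), by decide +kernel⟩

theorem c_pm_203_b : CertB 1239849684 370763052 0 1230186008 649613803 48318383 3 eng mog cd1q2b cd6q3 pd0 false true false .up 2 0 3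
    ndB1q2b ndB6q3 pcB0 Cut.none Ext.none :=
  certB2 (fam := false) (s1 := true) (s2 := false) (a := 2) (b := 0) (c := 3) (cn := .up) (n1 := ndB1q2b) (n2 := ndB6q3) (pc := pcB0) (cut := Cut.none) (xt := Ext.none) (P1 := 1239849684) (W1 := 370763052) (P2 := 0) (W2 := 1230186008) (P3 := 649613803) (W3 := 48318383) (N0 := 3) (En := eng) (mo := mog) (C1 := cd1q2b) (C2 := cd6q3) (C3 := pd0)
    rfl (fun _ => rfl) k0_pm_203_b

noncomputable def cut_pm_213_a : Cut := Cut.of [[⟨0, 1, 0, 67108864⟩, ⟨1, 1, 0, 67108864⟩, ⟨2, 2, 0, 16777216⟩]]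

noncomputable def f_pm_213_a : ℕ → ℕ → ℕ → ℕ → Bool := onCell 0 536870912 0 1230186008 649613803 48318383
    (rowB 3 eng mog cd1q2a cd6q3 pd1 0 false true false .pnn 2 1 3 (qsf 0 536870912 0 1230186008 1) ndB1q2a ndB6q3 pcB1 cut_pm_213_a Ext.none)

def k0_pm_213_a : ∃ t, chk3 f_pm_213_a t 2 1 1 = true :=
  ⟨(b (l 3) (b (b (l 3) (l 3)) (a (l 3) (b (a (l 3) (b (a (l 3) (b (a (l 3) (l 207399875415)) (a (l 202568031575) (l 16728808)))) (b (a (l 3) (a (l 16697624) (l 16709784))) (a (a (l 3) (l 16663640)) (a (l 16675728) (l 16694104)))))) (b (a (l 1) (b (a (a (l 170355655831) (l 16647840)) (a (l 16672432) (l 16683400))) (l 1))) (l 1)))))), by decide +kernel⟩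

def k1_pm_213_a : ∃ t, chk3 f_pm_213_a t 3 2 1 = true :=
  ⟨(b (a (l 3) (a (b (l 3) (a (l 3) (b (l 3) (a (l 3) (b (l 379735524279) (a (l 341080829847) (l 260013326871))))))) (b (l 6) (a (b (a (l 6) (l 6)) (a (b (a (b (l 294373054359) (l 256792085655)) (l 16791120)) (l 16795760)) (b (l 16791392) (l 16797032)))) (b (a (l 6) (l 6)) (a (l 16794248) (l 16793232))))))) (a (b (l 3) (a (l 3) (a (l 3) (b (a (l 3) (b (l 3) (a (l 3) (l 207936844551)))) (b (a (a (l 3) (l 196662534919)) (b (l 209010580775) (l 164987204503))) (a (a (b (l 3) (l 167134621975)) (b (l 198810036551) (l 16780080))) (a (l 16807384) (l 16793048)))))))) (b (a (a (b (l 3) (a (b (l 3) (l 276119436839)) (b (a (l 282025040183) (l 254644630215)) (a (l 196125655175) (l 16782880))))) (b (a (b (l 295446806471) (a (l 256792110327) (l 265382045767))) (b (a (l 257328965687) (l 16799256)) (l 16803736))) (a (b (a (l 16803224) (l 16805624)) (l 16808576)) (l 16811584)))) (a (b (a (l 16804160) (l 16808120))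 (a (l 16816960) (l 16824544))) (b (a (l 16806568) (l 16807120)) (l 16824432)))) (a (b (a (a (b (a (l 236927881911) (l 207936843847)) (b (l 16787072) (l 16799400))) (b (l 16763312) (l 16808024))) (b (l 16816184) (l 16822104))) (a (a (b (l 16800568) (l 16802856)) (l 16814184)) (a (l 16826176) (l 16838768)))) (a (l 16846824) (l 16857992)))))), by decide +kernel⟩

def k2_pm_213_a : ∃ t, chk3 f_pm_213_a t 3 3 1 = true :=
  ⟨(b (b (b (a (a (l 3) (a (b (a (l 3) (b (l 175724548135) (l 138143581991))) (a (l 301352329495) (b (l 134385530711) (l 16770736)))) (a (b (b (a (l 153712889591) (l 16780712)) (a (l 16775384) (l 16781832))) (l 16782080)) (b (l 16770840) (l 16796296))))) (a (a (b (l 16750680) (l 16776112)) (l 16848784)) (l 17000520))) (a (a (a (l 3) (b (l 3) (l 275582505799))) (a (b (a (l 234780432775) (l 16775656)) (a (l 16750512) (l 16785416))) (b (a (l 16790208) (l 16806888)) (l 16766952)))) (a (a (b (l 16828736) (l 16841992)) (l 16870512)) (a (l 16907496)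 (l 16938256))))) (a (b (a (a (l 3) (b (a (l 284172467143) (l 271824349191)) (a (l 260550093447) (l 16778920)))) (a (b (l 16748840) (l 16799648)) (b (l 16817952) (l 16829688)))) (a (a (a (b (l 3) (l 214916082103)) (b (l 275045621751) (l 16765440))) (b (b (l 16777736) (l 16779784)) (a (l 16776640) (l 16790120)))) (a (b (b (l 16802744) (l 16805328)) (a (l 16803400) (l 16822152))) (l 16845056)))) (a (b (l 16883176) (a (l 16889224) (l 16931080))) (b (a (l 16939304) (l 16973336)) (l 17006424))))) (a (b (a (b (a (b (b (l 16758856) (l 16756232)) (b (l 16753560) (l 16751624))) (b (a (l 16779664) (l 16792568)) (l 16754824))) (a (b (a (l 16726864) (l 16739920)) (a (l 16706728) (l 16720608))) (l 16751648))) (b (a (l 16825712) (l 16873312)) (a (l 16789984) (l 16827432)))) (b (a (a (l 16695552) (l 16715136)) (a (l 16727744) (l 16753504))) (l 1))) (b (b (a (a (l 16916720) (l 16974720)) (l 17060968)) (a (l 16930744) (l 17104304))) (b (a (l 16817360) (l 16966200))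 (a (a (l 16710632) (l 16734448)) (l 16807208)))))), by decide +kernel⟩

theorem s3_pm_213_a : ∃ t, chk3 f_pm_213_a t 3 1 1 = true := ex3_b k1_pm_213_a k2_pm_213_a

theorem s4_pm_213_a : ∃ t, chk3 f_pm_213_a t 1 1 1 = true := ex3_a k0_pm_213_a s3_pm_213_a

theorem c_pm_213_a : CertB 0 536870912 0 1230186008 649613803 48318383 3 eng mog cd1q2a cd6q3 pd1 false true false .pnn 2 1 3
    ndB1q2a ndB6q3 pcB1 cut_pm_213_a Ext.none :=
  certB0 (fam := false) (s1 := true) (s2 := false) (a := 2) (b := 1) (c := 3) (cn := .pnn) (n1 := ndB1q2a) (n2 := ndB6q3) (pc := pcB1) (cut := cut_pm_213_a) (xt := Ext.none) (P1 := 0) (W1 := 536870912) (P2 := 0) (W2 := 1230186008) (P3 := 649613803) (W3 := 48318383) (N0 := 3) (En := eng) (mo := mog) (C1 := cd1q2a) (C2 := cd6q3) (C3 := pd1)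
    rfl s4_pm_213_a

noncomputable def cut_pm_213_b : Cut := Cut.of [[⟨0, 1, 0, 67108864⟩, ⟨1, 1, 0, 67108864⟩, ⟨2, 2, 0, 16777216⟩]]

noncomputable def f_pm_213_b : ℕ → ℕ → ℕ → ℕ → Bool := onCell 1239849684 370763052 0 1230186008 649613803 48318383
    (rowB 3 eng mog cd1q2b cd6q3 pd1 0 false true false .pnn 2 1 3 (qsf 1239849684 370763052 0 1230186008 1) ndB1q2b ndB6q3 pcB1 cut_pm_213_b Ext.none)

def k0_pm_213_b : ∃ t, chk3 f_pm_213_b t 1 1 1 = true :=
  ⟨(b (l 3) (b (l 3) (l 3))), by decide +kernel⟩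

theorem c_pm_213_b : CertB 1239849684 370763052 0 1230186008 649613803 48318383 3 eng mog cd1q2b cd6q3 pd1 false true false .pnn 2 1 3
    ndB1q2b ndB6q3 pcB1 cut_pm_213_b Ext.none :=
  certB0 (fam := false) (s1 := true) (s2 := false) (a := 2) (b := 1) (c := 3) (cn := .pnn) (n1 := ndB1q2b) (n2 := ndB6q3) (pc := pcB1) (cut := cut_pm_213_b) (xt := Ext.none) (P1 := 1239849684) (W1 := 370763052) (P2 := 0) (W2 := 1230186008) (P3 := 649613803) (W3 := 48318383) (N0 := 3) (En := eng) (mo := mog) (C1 := cd1q2b) (C2 := cd6q3) (C3 := pd1)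
    rfl k0_pm_213_b

noncomputable def f_pm_303 : ℕ → ℕ → ℕ → ℕ → Bool := onCell 1610612736 536870912 0 1230186008 649613803 48318383
    (rowB 3 eng mog cd1q3 cd6q3 pd0 0 false true false .npn 3 0 3 (qsf 1610612736 536870912 0 1230186008 0) ndB1q3 ndB6q3 pcB0 Cut.none Ext.none)

def k0_pm_303 : ∃ t, chk3 f_pm_303 t 1 1 1 = true :=
  ⟨(b (l 3) (l 3)), by decide +kernel⟩

theorem c_pm_303 : CertB 1610612736 536870912 0 1230186008 649613803 48318383 3 eng mog cd1q3 cd6q3 pd0 false true false .npn 3 0 3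
    ndB1q3 ndB6q3 pcB0 Cut.none Ext.none :=
  certB0 (fam := false) (s1 := true) (s2 := false) (a := 3) (b := 0) (c := 3) (cn := .npn) (n1 := ndB1q3) (n2 := ndB6q3) (pc := pcB0) (cut := Cut.none) (xt := Ext.none) (P1 := 1610612736) (W1 := 536870912) (P2 := 0) (W2 := 1230186008) (P3 := 649613803) (W3 := 48318383) (N0 := 3) (En := eng) (mo := mog) (C1 := cd1q3) (C2 := cd6q3) (C3 := pd0)
    rfl k0_pm_303

noncomputable def f_pm_313 : ℕ → ℕ → ℕ → ℕ → Bool := onCell 1610612736 536870912 0 1230186008 649613803 48318383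
    (rowB 3 eng mog cd1q3 cd6q3 pd1 0 false true false .dn 3 1 3 (qsf 1610612736 536870912 0 1230186008 1) ndB1q3 ndB6q3 pcB1 Cut.none Ext.none)

def k0_pm_313 : ∃ t, chk3 f_pm_313 t 1 1 1 = true :=
  ⟨(b (l 3) (l 1)), by decide +kernel⟩

theorem c_pm_313 : CertB 1610612736 536870912 0 1230186008 649613803 48318383 3 eng mog cd1q3 cd6q3 pd1 false true false .dn 3 1 3
    ndB1q3 ndB6q3 pcB1 Cut.none Ext.none :=
  certB0 (fam := false) (s1 := true) (s2 := false) (a := 3) (b := 1) (c := 3) (cn := .dn) (n1 := ndB1q3) (n2 := ndB6q3) (pc := pcB1) (cut := Cut.none) (xt := Ext.none) (P1 := 1610612736) (W1 := 536870912) (P2 := 0) (W2 := 1230186008) (P3 := 649613803) (W3 := 48318383) (N0 := 3) (En := eng) (mo := mog) (C1 := cd1q3) (C2 := cd6q3) (C3 := pd1)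
    rfl k0_pm_313

noncomputable def f_mm_001 : ℕ → ℕ → ℕ → ℕ → Bool := onCell 0 536870912 0 536870912 649613803 48318383
    (rowB 3 eng mog cd1q0 cd6q1 pd0 1 false false false .up 0 0 1 (qsf 0 536870912 536870912 536870912 0) ndB1q0 ndB6q1 pcB0 Cut.none Ext.none)

def k0_mm_001 : ∃ t, chk3 f_mm_001 t 1 1 1 = true :=
  ⟨(l 3), by decide +kernel⟩

theorem c_mm_001 : CertB 0 536870912 536870912 536870912 649613803 48318383 3 eng mog cd1q0 cd6q1 pd0 false false false .up 0 0 1
    ndB1q0 ndB6q1 pcB0 Cut.none Ext.none :=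
  certB1 (fam := false) (s1 := false) (s2 := false) (a := 0) (b := 0) (c := 1) (cn := .up) (n1 := ndB1q0) (n2 := ndB6q1) (pc := pcB0) (cut := Cut.none) (xt := Ext.none) (P1 := 0) (W1 := 536870912) (P2 := 536870912) (W2 := 536870912) (P3 := 649613803) (W3 := 48318383) (N0 := 3) (En := eng) (mo := mog) (C1 := cd1q0) (C2 := cd6q1) (C3 := pd0)
    rfl (fun _ => rfl) k0_mm_001

noncomputable def f_mm_011 : ℕ → ℕ → ℕ → ℕ → Bool := onCell 0 536870912 536870912 536870912 649613803 48318383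
    (rowB 3 eng mog cd1q0 cd6q1 pd1 1 false false false .pnn 0 1 1 (qsf 0 536870912 536870912 536870912 1) ndB1q0 ndB6q1 pcB1 Cut.none Ext.none)

def k0_mm_011 : ∃ t, chk3 f_mm_011 t 1 1 1 = true :=
  ⟨(l 5), by decide +kernel⟩

theorem c_mm_011 : CertB 0 536870912 536870912 536870912 649613803 48318383 3 eng mog cd1q0 cd6q1 pd1 false false false .pnn 0 1 1
    ndB1q0 ndB6q1 pcB1 Cut.none Ext.none :=
  certB1 (fam := false) (s1 := false) (s2 := false) (a := 0) (b := 1) (c := 1) (cn := .pnn) (n1 := ndB1q0) (n2 := ndB6q1) (pc := pcB1) (cut := Cut.none) (xt := Ext.none) (P1 := 0) (W1 := 536870912) (P2 := 536870912) (W2 := 536870912) (P3 := 649613803) (W3 := 48318383) (N0 := 3) (En := eng) (mo := mog) (C1 := cd1q0) (C2 := cd6q1) (C3 := pd1)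
    rfl (fun _ => rfl) k0_mm_011

noncomputable def f_mm_012 : ℕ → ℕ → ℕ → ℕ → Bool := onCell 0 536870912 1073741824 536870912 649613803 48318383
    (rowB 3 eng mog cd1q0 cd6q2 pd1 0 false false false .pnp 0 1 2 (qsf 0 536870912 1073741824 536870912 1) ndB1q0 ndB6q2 pcB1 Cut.none Ext.none)

def k0_mm_012 : ∃ t, chk3 f_mm_012 t 1 1 1 = true :=
  ⟨(l 5), by decide +kernel⟩

theorem c_mm_012 : CertB 0 536870912 1073741824 536870912 649613803 48318383 3 eng mog cd1q0 cd6q2 pd1 false false false .pnp 0 1 2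
    ndB1q0 ndB6q2 pcB1 Cut.none Ext.none :=
  certB0 (fam := false) (s1 := false) (s2 := false) (a := 0) (b := 1) (c := 2) (cn := .pnp) (n1 := ndB1q0) (n2 := ndB6q2) (pc := pcB1) (cut := Cut.none) (xt := Ext.none) (P1 := 0) (W1 := 536870912) (P2 := 1073741824) (W2 := 536870912) (P3 := 649613803) (W3 := 48318383) (N0 := 3) (En := eng) (mo := mog) (C1 := cd1q0) (C2 := cd6q2) (C3 := pd1)
    rfl k0_mm_012

noncomputable def f_mm_022 : ℕ → ℕ → ℕ → ℕ → Bool := onCell 0 536870912 1073741824 536870912 649613803 48318383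
    (rowB 3 eng mog cd1q0 cd6q2 pd2 0 false false false .pp 0 2 2 (qsf 0 536870912 1073741824 536870912 2) ndB1q0 ndB6q2 pcB2 Cut.none Ext.none)

def k0_mm_022 : ∃ t, chk3 f_mm_022 t 1 1 1 = true :=
  ⟨(l 5), by decide +kernel⟩

theorem c_mm_022 : CertB 0 536870912 1073741824 536870912 649613803 48318383 3 eng mog cd1q0 cd6q2 pd2 false false false .pp 0 2 2
    ndB1q0 ndB6q2 pcB2 Cut.none Ext.none :=
  certB0 (fam := false) (s1 := false) (s2 := false) (a := 0) (b := 2) (c := 2) (cn := .pp) (n1 := ndB1q0) (n2 := ndB6q2) (pc := pcB2) (cut := Cut.none) (xt := Ext.none) (P1 := 0) (W1 := 536870912) (P2 := 1073741824) (W2 := 536870912) (P3 := 649613803) (W3 := 48318383) (N0 := 3) (En := eng) (mo := mog) (C1 := cd1q0) (C2 := cd6q2) (C3 := pd2)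
    rfl k0_mm_022

noncomputable def f_mm_023 : ℕ → ℕ → ℕ → ℕ → Bool := onCell 0 536870912 0 1230186008 649613803 48318383
    (rowB 3 eng mog cd1q0 cd6q3 pd2 0 false false false .up 0 2 3 (qsf 0 536870912 0 1230186008 2) ndB1q0 ndB6q3 pcB2 Cut.none Ext.none)

def k0_mm_023 : ∃ t, chk3 f_mm_023 t 1 1 1 = true :=
  ⟨(l 5), by decide +kernel⟩

theorem c_mm_023 : CertB 0 536870912 0 1230186008 649613803 48318383 3 eng mog cd1q0 cd6q3 pd2 false false false .up 0 2 3
    ndB1q0 ndB6q3 pcB2 Cut.none Ext.none :=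
  certB0 (fam := false) (s1 := false) (s2 := false) (a := 0) (b := 2) (c := 3) (cn := .up) (n1 := ndB1q0) (n2 := ndB6q3) (pc := pcB2) (cut := Cut.none) (xt := Ext.none) (P1 := 0) (W1 := 536870912) (P2 := 0) (W2 := 1230186008) (P3 := 649613803) (W3 := 48318383) (N0 := 3) (En := eng) (mo := mog) (C1 := cd1q0) (C2 := cd6q3) (C3 := pd2)
    rfl k0_mm_023

noncomputable def f_mm_033 : ℕ → ℕ → ℕ → ℕ → Bool := onCell 0 536870912 0 1230186008 649613803 48318383
    (rowB 3 eng mog cd1q0 cd6q3 pd3 0 false false false .pnn 0 3 3 (qsf 0 536870912 0 1230186008 3) ndB1q0 ndB6q3 pcB3 Cut.none Ext.none)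

def k0_mm_033 : ∃ t, chk3 f_mm_033 t 1 1 1 = true :=
  ⟨(l 5), by decide +kernel⟩

theorem c_mm_033 : CertB 0 536870912 0 1230186008 649613803 48318383 3 eng mog cd1q0 cd6q3 pd3 false false false .pnn 0 3 3
    ndB1q0 ndB6q3 pcB3 Cut.none Ext.none :=
  certB0 (fam := false) (s1 := false) (s2 := false) (a := 0) (b := 3) (c := 3) (cn := .pnn) (n1 := ndB1q0) (n2 := ndB6q3) (pc := pcB3) (cut := Cut.none) (xt := Ext.none) (P1 := 0) (W1 := 536870912) (P2 := 0) (W2 := 1230186008) (P3 := 649613803) (W3 := 48318383) (N0 := 3) (En := eng) (mo := mog) (C1 := cd1q0) (C2 := cd6q3) (C3 := pd3)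
    rfl k0_mm_033

noncomputable def f_mm_101 : ℕ → ℕ → ℕ → ℕ → Bool := onCell 536870912 536870912 0 536870912 649613803 48318383
    (rowB 3 eng mog cd1q1 cd6q1 pd0 1 false false false .npn 1 0 1 (qsf 536870912 536870912 536870912 536870912 0) ndB1q1 ndB6q1 pcB0 Cut.none Ext.none)

def k0_mm_101 : ∃ t, chk3 f_mm_101 t 1 1 1 = true :=
  ⟨(l 3), by decide +kernel⟩

theorem c_mm_101 : CertB 536870912 536870912 536870912 536870912 649613803 48318383 3 eng mog cd1q1 cd6q1 pd0 false false false .npn 1 0 1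
    ndB1q1 ndB6q1 pcB0 Cut.none Ext.none :=
  certB1 (fam := false) (s1 := false) (s2 := false) (a := 1) (b := 0) (c := 1) (cn := .npn) (n1 := ndB1q1) (n2 := ndB6q1) (pc := pcB0) (cut := Cut.none) (xt := Ext.none) (P1 := 536870912) (W1 := 536870912) (P2 := 536870912) (W2 := 536870912) (P3 := 649613803) (W3 := 48318383) (N0 := 3) (En := eng) (mo := mog) (C1 := cd1q1) (C2 := cd6q1) (C3 := pd0)
    rfl (fun _ => rfl) k0_mm_101

noncomputable def f_mm_102 : ℕ → ℕ → ℕ → ℕ → Bool := onCell 536870912 536870912 1073741824 536870912 649613803 48318383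
    (rowB 3 eng mog cd1q1 cd6q2 pd0 0 false false false .npp 1 0 2 (qsf 536870912 536870912 1073741824 536870912 0) ndB1q1 ndB6q2 pcB0 Cut.none Ext.none)

def k0_mm_102 : ∃ t, chk3 f_mm_102 t 1 1 1 = true :=
  ⟨(l 3), by decide +kernel⟩

theorem c_mm_102 : CertB 536870912 536870912 1073741824 536870912 649613803 48318383 3 eng mog cd1q1 cd6q2 pd0 false false false .npp 1 0 2
    ndB1q1 ndB6q2 pcB0 Cut.none Ext.none :=
  certB0 (fam := false) (s1 := false) (s2 := false) (a := 1) (b := 0) (c := 2) (cn := .npp) (n1 := ndB1q1) (n2 := ndB6q2) (pc := pcB0) (cut := Cut.none) (xt := Ext.none) (P1 := 536870912) (W1 := 536870912) (P2 := 1073741824) (W2 := 536870912) (P3 := 649613803) (W3 := 48318383) (N0 := 3) (En := eng) (mo := mog) (C1 := cd1q1) (C2 := cd6q2) (C3 := pd0)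
    rfl k0_mm_102

noncomputable def f_mm_112 : ℕ → ℕ → ℕ → ℕ → Bool := onCell 536870912 536870912 1073741824 536870912 649613803 48318383
    (rowB 3 eng mog cd1q1 cd6q2 pd1 0 false false false .dn 1 1 2 (qsf 536870912 536870912 1073741824 536870912 1) ndB1q1 ndB6q2 pcB1 Cut.none Ext.none)

def k0_mm_112 : ∃ t, chk3 f_mm_112 t 1 1 1 = true :=
  ⟨(l 3), by decide +kernel⟩

theorem c_mm_112 : CertB 536870912 536870912 1073741824 536870912 649613803 48318383 3 eng mog cd1q1 cd6q2 pd1 false false false .dn 1 1 2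
    ndB1q1 ndB6q2 pcB1 Cut.none Ext.none :=
  certB0 (fam := false) (s1 := false) (s2 := false) (a := 1) (b := 1) (c := 2) (cn := .dn) (n1 := ndB1q1) (n2 := ndB6q2) (pc := pcB1) (cut := Cut.none) (xt := Ext.none) (P1 := 536870912) (W1 := 536870912) (P2 := 1073741824) (W2 := 536870912) (P3 := 649613803) (W3 := 48318383) (N0 := 3) (En := eng) (mo := mog) (C1 := cd1q1) (C2 := cd6q2) (C3 := pd1)
    rfl k0_mm_112

noncomputable def f_mm_113 : ℕ → ℕ → ℕ → ℕ → Bool := onCell 536870912 536870912 0 1230186008 649613803 48318383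
    (rowB 3 eng mog cd1q1 cd6q3 pd1 0 false false false .nn 1 1 3 (qsf 536870912 536870912 0 1230186008 1) ndB1q1 ndB6q3 pcB1 Cut.none Ext.none)

def k0_mm_113 : ∃ t, chk3 f_mm_113 t 1 1 1 = true :=
  ⟨(b (l 5) (b (l 5) (l 5))), by decide +kernel⟩

theorem c_mm_113 : CertB 536870912 536870912 0 1230186008 649613803 48318383 3 eng mog cd1q1 cd6q3 pd1 false false false .nn 1 1 3
    ndB1q1 ndB6q3 pcB1 Cut.none Ext.none :=
  certB0 (fam := false) (s1 := false) (s2 := false) (a := 1) (b := 1) (c := 3) (cn := .nn) (n1 := ndB1q1) (n2 := ndB6q3) (pc := pcB1) (cut := Cut.none) (xt := Ext.none) (P1 := 536870912) (W1 := 536870912) (P2 := 0) (W2 := 1230186008) (P3 := 649613803) (W3 := 48318383) (N0 := 3) (En := eng) (mo := mog) (C1 := cd1q1) (C2 := cd6q3) (C3 := pd1)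
    rfl k0_mm_113

noncomputable def f_mm_123 : ℕ → ℕ → ℕ → ℕ → Bool := onCell 1073741824 536870912 0 1230186008 649613803 48318383
    (rowB 3 eng mog cd1q1 cd6q3 pd2 2 false false false .npn 1 2 3 (qsf 536870912 536870912 0 1230186008 2) ndB1q1 ndB6q3 pcB2 Cut.none Ext.none)

def k0_mm_123 : ∃ t, chk3 f_mm_123 t 1 1 1 = true :=
  ⟨(b (l 5) (l 5)), by decide +kernel⟩

theorem c_mm_123 : CertB 536870912 536870912 0 1230186008 649613803 48318383 3 eng mog cd1q1 cd6q3 pd2 false false false .npn 1 2 3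
    ndB1q1 ndB6q3 pcB2 Cut.none Ext.none :=
  certB2 (fam := false) (s1 := false) (s2 := false) (a := 1) (b := 2) (c := 3) (cn := .npn) (n1 := ndB1q1) (n2 := ndB6q3) (pc := pcB2) (cut := Cut.none) (xt := Ext.none) (P1 := 536870912) (W1 := 536870912) (P2 := 0) (W2 := 1230186008) (P3 := 649613803) (W3 := 48318383) (N0 := 3) (En := eng) (mo := mog) (C1 := cd1q1) (C2 := cd6q3) (C3 := pd2)
    rfl (fun _ => rfl) k0_mm_123

noncomputable def f_mm_133 : ℕ → ℕ → ℕ → ℕ → Bool := onCell 536870912 536870912 0 1230186008 649613803 48318383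
    (rowB 3 eng mog cd1q1 cd6q3 pd3 0 false false false .dn 1 3 3 (qsf 536870912 536870912 0 1230186008 3) ndB1q1 ndB6q3 pcB3 Cut.none Ext.none)

def k0_mm_133 : ∃ t, chk3 f_mm_133 t 1 1 1 = true :=
  ⟨(b (l 5) (l 1)), by decide +kernel⟩

theorem c_mm_133 : CertB 536870912 536870912 0 1230186008 649613803 48318383 3 eng mog cd1q1 cd6q3 pd3 false false false .dn 1 3 3
    ndB1q1 ndB6q3 pcB3 Cut.none Ext.none :=
  certB0 (fam := false) (s1 := false) (s2 := false) (a := 1) (b := 3) (c := 3) (cn := .dn) (n1 := ndB1q1) (n2 := ndB6q3) (pc := pcB3) (cut := Cut.none) (xt := Ext.none) (P1 := 536870912) (W1 := 536870912) (P2 := 0) (W2 := 1230186008) (P3 := 649613803) (W3 := 48318383) (N0 := 3) (En := eng) (mo := mog) (C1 := cd1q1) (C2 := cd6q3) (C3 := pd3)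
    rfl k0_mm_133

noncomputable def f_mm_202_a : ℕ → ℕ → ℕ → ℕ → Bool := onCell 0 536870912 0 536870912 649613803 48318383
    (rowB 3 eng mog cd1q2a cd6q2 pd0 1 false false false .pp 2 0 2 (qsf 0 536870912 1073741824 536870912 0) ndB1q2a ndB6q2 pcB0 Cut.none Ext.none)

def k0_mm_202_a : ∃ t, chk3 f_mm_202_a t 1 1 1 = true :=
  ⟨(l 3), by decide +kernel⟩

theorem c_mm_202_a : CertB 0 536870912 1073741824 536870912 649613803 48318383 3 eng mog cd1q2a cd6q2 pd0 false false false .pp 2 0 2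
    ndB1q2a ndB6q2 pcB0 Cut.none Ext.none :=
  certB1 (fam := false) (s1 := false) (s2 := false) (a := 2) (b := 0) (c := 2) (cn := .pp) (n1 := ndB1q2a) (n2 := ndB6q2) (pc := pcB0) (cut := Cut.none) (xt := Ext.none) (P1 := 0) (W1 := 536870912) (P2 := 1073741824) (W2 := 536870912) (P3 := 649613803) (W3 := 48318383) (N0 := 3) (En := eng) (mo := mog) (C1 := cd1q2a) (C2 := cd6q2) (C3 := pd0)
    rfl (fun _ => rfl) k0_mm_202_a

noncomputable def f_mm_202_b : ℕ → ℕ → ℕ → ℕ → Bool := onCell 1239849684 370763052 0 536870912 649613803 48318383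
    (rowB 3 eng mog cd1q2b cd6q2 pd0 1 false false false .pp 2 0 2 (qsf 1239849684 370763052 1073741824 536870912 0) ndB1q2b ndB6q2 pcB0 Cut.none Ext.none)

def k0_mm_202_b : ∃ t, chk3 f_mm_202_b t 1 1 1 = true :=
  ⟨(b (l 3) (b (l 3) (l 2))), by decide +kernel⟩

theorem c_mm_202_b : CertB 1239849684 370763052 1073741824 536870912 649613803 48318383 3 eng mog cd1q2b cd6q2 pd0 false false false .pp 2 0 2
    ndB1q2b ndB6q2 pcB0 Cut.none Ext.none :=
  certB1 (fam := false) (s1 := false) (s2 := false) (a := 2) (b := 0) (c := 2) (cn := .pp) (n1 := ndB1q2b) (n2 := ndB6q2) (pc := pcB0) (cut := Cut.none) (xt := Ext.none) (P1 := 1239849684) (W1 := 370763052) (P2 := 1073741824) (W2 := 536870912) (P3 := 649613803) (W3 := 48318383) (N0 := 3) (En := eng) (mo := mog) (C1 := cd1q2b) (C2 := cd6q2) (C3 := pd0)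
    rfl (fun _ => rfl) k0_mm_202_b

noncomputable def f_mm_203_a : ℕ → ℕ → ℕ → ℕ → Bool := onCell 0 536870912 0 1230186008 649613803 48318383
    (rowB 3 eng mog cd1q2a cd6q3 pd0 0 false false false .up 2 0 3 (qsf 0 536870912 0 1230186008 0) ndB1q2a ndB6q3 pcB0 Cut.none Ext.none)

def k0_mm_203_a : ∃ t, chk3 f_mm_203_a t 1 1 1 = true :=
  ⟨(b (l 2) (l 3)), by decide +kernel⟩

theorem c_mm_203_a : CertB 0 536870912 0 1230186008 649613803 48318383 3 eng mog cd1q2a cd6q3 pd0 false false false .up 2 0 3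
    ndB1q2a ndB6q3 pcB0 Cut.none Ext.none :=
  certB0 (fam := false) (s1 := false) (s2 := false) (a := 2) (b := 0) (c := 3) (cn := .up) (n1 := ndB1q2a) (n2 := ndB6q3) (pc := pcB0) (cut := Cut.none) (xt := Ext.none) (P1 := 0) (W1 := 536870912) (P2 := 0) (W2 := 1230186008) (P3 := 649613803) (W3 := 48318383) (N0 := 3) (En := eng) (mo := mog) (C1 := cd1q2a) (C2 := cd6q3) (C3 := pd0)
    rfl k0_mm_203_a

noncomputable def f_mm_203_b : ℕ → ℕ → ℕ → ℕ → Bool := onCell 1239849684 370763052 0 1230186008 649613803 48318383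
    (rowB 3 eng mog cd1q2b cd6q3 pd0 0 false false false .up 2 0 3 (qsf 1239849684 370763052 0 1230186008 0) ndB1q2b ndB6q3 pcB0 Cut.none Ext.none)

def k0_mm_203_b : ∃ t, chk3 f_mm_203_b t 1 1 1 = true :=
  ⟨(b (l 3) (l 3)), by decide +kernel⟩

theorem c_mm_203_b : CertB 1239849684 370763052 0 1230186008 649613803 48318383 3 eng mog cd1q2b cd6q3 pd0 false false false .up 2 0 3
    ndB1q2b ndB6q3 pcB0 Cut.none Ext.none :=
  certB0 (fam := false) (s1 := false) (s2 := false) (a := 2) (b := 0) (c := 3) (cn := .up) (n1 := ndB1q2b) (n2 := ndB6q3) (pc := pcB0) (cut := Cut.none) (xt := Ext.none) (P1 := 1239849684) (W1 := 370763052) (P2 := 0) (W2 := 1230186008) (P3 := 649613803) (W3 := 48318383) (N0 := 3) (En := eng) (mo := mog) (C1 := cd1q2b) (C2 := cd6q3) (C3 := pd0)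
    rfl k0_mm_203_b

noncomputable def f_mm_213_a : ℕ → ℕ → ℕ → ℕ → Bool := onCell 0 536870912 0 1230186008 649613803 48318383
    (rowB 3 eng mog cd1q2a cd6q3 pd1 0 false false false .pnn 2 1 3 (qsf 0 536870912 0 1230186008 1) ndB1q2a ndB6q3 pcB1 Cut.none Ext.none)

def k0_mm_213_a : ∃ t, chk3 f_mm_213_a t 1 1 1 = true :=
  ⟨(b (a (l 3) (l 5)) (l 3)), by decide +kernel⟩

theorem c_mm_213_a : CertB 0 536870912 0 1230186008 649613803 48318383 3 eng mog cd1q2a cd6q3 pd1 false false false .pnn 2 1 3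
    ndB1q2a ndB6q3 pcB1 Cut.none Ext.none :=
  certB0 (fam := false) (s1 := false) (s2 := false) (a := 2) (b := 1) (c := 3) (cn := .pnn) (n1 := ndB1q2a) (n2 := ndB6q3) (pc := pcB1) (cut := Cut.none) (xt := Ext.none) (P1 := 0) (W1 := 536870912) (P2 := 0) (W2 := 1230186008) (P3 := 649613803) (W3 := 48318383) (N0 := 3) (En := eng) (mo := mog) (C1 := cd1q2a) (C2 := cd6q3) (C3 := pd1)
    rfl k0_mm_213_a

noncomputable def f_mm_213_b : ℕ → ℕ → ℕ → ℕ → Bool := onCell 1239849684 370763052 0 1230186008 649613803 48318383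
    (rowB 3 eng mog cd1q2b cd6q3 pd1 0 false false false .pnn 2 1 3 (qsf 1239849684 370763052 0 1230186008 1) ndB1q2b ndB6q3 pcB1 Cut.none Ext.none)

def k0_mm_213_b : ∃ t, chk3 f_mm_213_b t 1 1 1 = true :=
  ⟨(b (l 3) (l 3)), by decide +kernel⟩

theorem c_mm_213_b : CertB 1239849684 370763052 0 1230186008 649613803 48318383 3 eng mog cd1q2b cd6q3 pd1 false false false .pnn 2 1 3
    ndB1q2b ndB6q3 pcB1 Cut.none Ext.none :=
  certB0 (fam := false) (s1 := false) (s2 := false) (a := 2) (b := 1) (c := 3) (cn := .pnn) (n1 := ndB1q2b) (n2 := ndB6q3) (pc := pcB1) (cut := Cut.none) (xt := Ext.none) (P1 := 1239849684) (W1 := 370763052) (P2 := 0) (W2 := 1230186008) (P3 := 649613803) (W3 := 48318383) (N0 := 3) (En := eng) (mo := mog) (C1 := cd1q2b) (C2 := cd6q3) (C3 := pd1)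
    rfl k0_mm_213_b

noncomputable def f_mm_303 : ℕ → ℕ → ℕ → ℕ → Bool := onCell 1610612736 536870912 0 1230186008 649613803 48318383
    (rowB 3 eng mog cd1q3 cd6q3 pd0 0 false false false .npn 3 0 3 (qsf 1610612736 536870912 0 1230186008 0) ndB1q3 ndB6q3 pcB0 Cut.none Ext.none)

def k0_mm_303 : ∃ t, chk3 f_mm_303 t 1 1 1 = true :=
  ⟨(b (l 3) (l 3)), by decide +kernel⟩

theorem c_mm_303 : CertB 1610612736 536870912 0 1230186008 649613803 48318383 3 eng mog cd1q3 cd6q3 pd0 false false false .npn 3 0 3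
    ndB1q3 ndB6q3 pcB0 Cut.none Ext.none :=
  certB0 (fam := false) (s1 := false) (s2 := false) (a := 3) (b := 0) (c := 3) (cn := .npn) (n1 := ndB1q3) (n2 := ndB6q3) (pc := pcB0) (cut := Cut.none) (xt := Ext.none) (P1 := 1610612736) (W1 := 536870912) (P2 := 0) (W2 := 1230186008) (P3 := 649613803) (W3 := 48318383) (N0 := 3) (En := eng) (mo := mog) (C1 := cd1q3) (C2 := cd6q3) (C3 := pd0)
    rfl k0_mm_303

noncomputable def f_mm_313 : ℕ → ℕ → ℕ → ℕ → Bool := onCell 1610612736 536870912 0 1230186008 649613803 48318383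
    (rowB 3 eng mog cd1q3 cd6q3 pd1 0 false false false .dn 3 1 3 (qsf 1610612736 536870912 0 1230186008 1) ndB1q3 ndB6q3 pcB1 Cut.none Ext.none)

def k0_mm_313 : ∃ t, chk3 f_mm_313 t 1 1 1 = true :=
  ⟨(b (l 3) (l 1)), by decide +kernel⟩

theorem c_mm_313 : CertB 1610612736 536870912 0 1230186008 649613803 48318383 3 eng mog cd1q3 cd6q3 pd1 false false false .dn 3 1 3
    ndB1q3 ndB6q3 pcB1 Cut.none Ext.none :=
  certB0 (fam := false) (s1 := false) (s2 := false) (a := 3) (b := 1) (c := 3) (cn := .dn) (n1 := ndB1q3) (n2 := ndB6q3) (pc := pcB1) (cut := Cut.none) (xt := Ext.none) (P1 := 1610612736) (W1 := 536870912) (P2 := 0) (W2 := 1230186008) (P3 := 649613803) (W3 := 48318383) (N0 := 3) (En := eng) (mo := mog) (C1 := cd1q3) (C2 := cd6q3) (C3 := pd1)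
    rfl k0_mm_313

end Pool.Agent.Strip051.G.I6050_6500.Tab.C.BB16

namespace Pool.Agent.Strip051.G.I6050_6500.Tab.C.BB17

open Pool.Agent.Strip051.PB Pool.Agent.Strip051.PB.T
open Pool.Agent.Strip051.G.I6050_6500.Tab

noncomputable def f_pp_001 : ℕ → ℕ → ℕ → ℕ → Bool := onCell 0 536870912 0 536870912 649613803 48318383
    (rowB 3 eng mog cd1q0 cd7q1 pd0 1 false true true .up 0 0 1 (qsf 0 536870912 536870912 536870912 0) ndB1q0 ndB7q1 pcB0 Cut.none Ext.none)

def k0_pp_001 : ∃ t, chk3 f_pp_001 t 1 1 1 = true :=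
  ⟨(l 3), by decide +kernel⟩

theorem c_pp_001 : CertB 0 536870912 536870912 536870912 649613803 48318383 3 eng mog cd1q0 cd7q1 pd0 false true true .up 0 0 1
    ndB1q0 ndB7q1 pcB0 Cut.none Ext.none :=
  certB1 (fam := false) (s1 := true) (s2 := true) (a := 0) (b := 0) (c := 1) (cn := .up) (n1 := ndB1q0) (n2 := ndB7q1) (pc := pcB0) (cut := Cut.none) (xt := Ext.none) (P1 := 0) (W1 := 536870912) (P2 := 536870912) (W2 := 536870912) (P3 := 649613803) (W3 := 48318383) (N0 := 3) (En := eng) (mo := mog) (C1 := cd1q0) (C2 := cd7q1) (C3 := pd0)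
    rfl (fun _ => rfl) k0_pp_001

noncomputable def cut_pp_011 : Cut := Cut.of [[⟨0, 0, 0, 67108864⟩, ⟨1, 1, 0, 67108864⟩, ⟨2, 1, 0, 67108864⟩]]

noncomputable def f_pp_011 : ℕ → ℕ → ℕ → ℕ → Bool := onCell 0 536870912 536870912 536870912 649613803 48318383
    (rowB 3 eng mog cd1q0 cd7q1 pd1 1 false true true .pnn 0 1 1 (qsf 0 536870912 536870912 536870912 1) ndB1q0 ndB7q1 pcB1 cut_pp_011 Ext.none)

def k0_pp_011 : ∃ t, chk3 f_pp_011 t 1 1 1 = true :=
  ⟨(b (l 3) (b (l 3) (a (b (l 3) (a (a (b (l 3) (a (l 6) (l 3))) (l 3)) (l 2))) (l 2)))), by decide +kernel⟩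

theorem c_pp_011 : CertB 0 536870912 536870912 536870912 649613803 48318383 3 eng mog cd1q0 cd7q1 pd1 false true true .pnn 0 1 1
    ndB1q0 ndB7q1 pcB1 cut_pp_011 Ext.none :=
  certB1 (fam := false) (s1 := true) (s2 := true) (a := 0) (b := 1) (c := 1) (cn := .pnn) (n1 := ndB1q0) (n2 := ndB7q1) (pc := pcB1) (cut := cut_pp_011) (xt := Ext.none) (P1 := 0) (W1 := 536870912) (P2 := 536870912) (W2 := 536870912) (P3 := 649613803) (W3 := 48318383) (N0 := 3) (En := eng) (mo := mog) (C1 := cd1q0) (C2 := cd7q1) (C3 := pd1)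
    rfl (fun _ => rfl) k0_pp_011

noncomputable def f_pp_012 : ℕ → ℕ → ℕ → ℕ → Bool := onCell 0 536870912 536870912 536870912 649613803 48318383
    (rowB 3 eng mog cd1q0 cd7q2 pd1 1 false true true .pnp 0 1 2 (qsf 0 536870912 1073741824 536870912 1) ndB1q0 ndB7q2 pcB1 Cut.none Ext.none)

def k0_pp_012 : ∃ t, chk3 f_pp_012 t 1 1 1 = true :=
  ⟨(l 3), by decide +kernel⟩

theorem c_pp_012 : CertB 0 536870912 1073741824 536870912 649613803 48318383 3 eng mog cd1q0 cd7q2 pd1 false true true .pnp 0 1 2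
    ndB1q0 ndB7q2 pcB1 Cut.none Ext.none :=
  certB1 (fam := false) (s1 := true) (s2 := true) (a := 0) (b := 1) (c := 2) (cn := .pnp) (n1 := ndB1q0) (n2 := ndB7q2) (pc := pcB1) (cut := Cut.none) (xt := Ext.none) (P1 := 0) (W1 := 536870912) (P2 := 1073741824) (W2 := 536870912) (P3 := 649613803) (W3 := 48318383) (N0 := 3) (En := eng) (mo := mog) (C1 := cd1q0) (C2 := cd7q2) (C3 := pd1)
    rfl (fun _ => rfl) k0_pp_012

noncomputable def f_pp_022 : ℕ → ℕ → ℕ → ℕ → Bool := onCell 1073741824 536870912 1073741824 536870912 649613803 48318383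
    (rowB 3 eng mog cd1q0 cd7q2 pd2 2 false true true .pp 0 2 2 (qsf 0 536870912 1073741824 536870912 2) ndB1q0 ndB7q2 pcB2 Cut.none Ext.none)

def k0_pp_022 : ∃ t, chk3 f_pp_022 t 4 2 1 = true :=
  ⟨(a (l 3) (a (l 3) (b (a (l 3) (b (l 1) (b (l 1) (l 3)))) (l 3)))), by decide +kernel⟩

def k1_pp_022 : ∃ t, chk3 f_pp_022 t 5 4 1 = true :=
  ⟨(a (b (l 1) (a (a (b (l 1) (a (a (l 633675032183) (l 1)) (l 1))) (l 1)) (l 1))) (l 1)), by decide +kernel⟩

def k2_pp_022 : ∃ t, chk3 f_pp_022 t 5 5 1 = true :=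
  ⟨(a (a (a (b (a (b (b (a (l 3) (b (l 16494552) (l 16496208))) (l 3)) (l 3)) (b (b (a (b (l 16484048) (l 16485840)) (b (l 1) (l 16475592))) (a (a (l 16491424) (l 16486320)) (a (l 16481160) (l 16476032)))) (b (a (l 16514048) (a (l 16486032) (l 16480920))) (a (l 3) (l 16493176))))) (a (l 3) (b (a (l 3) (c (l 16511376) (l 16509576))) (l 3)))) (a (b (b (a (b (l 16465264) (a (l 16471160) (l 16466824))) (b (l 1) (l 16439160))) (a (b (a (l 16475848) (l 16471416)) (a (l 16485992) (l 16481328))) (b (l 16464920) (l 16474816)))) (b (a (b (l 16490736) (l 16505752)) (b (l 16486680) (l 16496840))) (a (l 16581136) (l 16530248)))) (a (b (b (b (l 1) (a (l 16453064) (l 16432160))) (b (a (l 16458008) (l 16453136)) (l 16465640))) (b (l 16482712) (a (l 16502576) (l 16497792)))) (b (b (b (l 1) (b (l 1) (a (l 16463704) (a (a (a (l 16438480) (l 16457760)) (l 16435312)) (l 16433384))))) (a (b (c (l 16448512) (l 16446320)) (c (l 16459168) (l 16478008))) (a (a (a (b (l 16442760)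 (l 16453520)) (b (c (l 16443104) (l 16439832)) (l 16451888))) (b (l 16439584) (l 16450392))) (b (l 16437672) (l 16448488))))) (a (b (b (l 16469848) (l 16480312)) (l 16493000)) (b (b (c (l 16569432) (l 16462720)) (l 16474280)) (b (l 16525800) (l 16553928)))))))) (b (b (a (b (l 1) (l 16410208)) (l 1)) (b (a (b (l 16414392) (l 16417560)) (l 16375184)) (a (l 16426952) (l 16386480)))) (b (b (l 16445824) (l 16430928)) (a (l 16464808) (l 16425000))))) (b (b (l 1) (a (b (l 1) (l 16326072)) (l 1))) (b (a (b (a (l 16359376) (l 16319424)) (l 16392944)) (l 16308088)) (a (a (l 16385152) (l 16345312)) (l 16424720))))), by decide +kernel⟩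

def k3_pp_022 : ∃ t, chk3 f_pp_022 t 4 3 1 = true :=
  ⟨(l 3), by decide +kernel⟩

def k4_pp_022 : ∃ t, chk3 f_pp_022 t 10 3 1 = true :=
  ⟨(a (a (l 3) (a (b (b (a (l 3) (b (l 113983981799) (l 656223639207))) (l 3)) (l 3)) (b (a (b (b (a (l 16515816) (l 16511168)) (a (l 16535912) (l 16531296))) (b (a (b (l 16551568) (l 3)) (c (b (l 16546592) (l 16557040)) (l 16614152))) (a (l 3) (a (l 3) (l 16573688))))) (b (a (b (l 16506136) (a (l 16527784) (l 16525056))) (b (b (c (l 16519328) (l 16495648)) (l 16504968)) (c (l 16522040) (l 16519208)))) (a (a (b (b (l 16543688) (l 16554352)) (b (l 16565896) (l 16577160))) (b (b (l 16541344) (a (l 16552744) (l 16551536))) (a (l 16569984) (l 16568896)))) (b (b (l 16537408) (b (l 16534920) (l 16551360))) (a (a (a (l 16568072) (a (l 16567536) (l 16567112))) (l 16566360)) (l 16564752)))))) (a (l 3) (b (a (a (b (l 16593504) (l 3)) (a (b (l 16592248) (l 3)) (b (l 16591208) (l 16612848)))) (a (a (a (b (l 16590488) (l 16612136))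 (a (b (l 16590128) (l 16611808)) (b (b (l 16584120) (l 16595520)) (l 16611624)))) (b (l 16589240) (l 16611096))) (b (l 16587760) (l 16609776)))) (a (l 3) (a (a (a (b (l 3) (l 16647752)) (a (b (l 16631016) (l 16647552)) (b (l 16630840) (l 16647384)))) (l 16680944)) (l 16679912)))))))) (b (b (b (b (l 16455592) (l 16463248)) (b (l 16472472) (l 16483392))) (b (b (l 16495552) (a (l 16527240) (l 16488944))) (b (c (l 16545120) (l 16518672)) (l 16556232)))) (b (b (b (l 16569344) (l 16561248)) (b (l 16573784) (l 16586104))) (b (l 16603568) (l 16624456))))), by decide +kernel⟩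

def k5_pp_022 : ∃ t, chk3 f_pp_022 t 11 3 1 = true :=
  ⟨(b (b (a (b (l 16422424) (b (l 16394056) (l 16403888))) (b (l 16343016) (b (l 16316056) (l 16327120)))) (b (a (b (a (l 16434672) (l 16395456)) (c (l 16464360) (l 16425008))) (b (l 16338904) (l 16352064))) (a (b (l 16446120) (l 16463064)) (b (l 16368304) (l 16386704))))) (b (b (a (l 16508968) (l 16416928)) (a (l 16519424) (l 16455896))) (b (a (l 16549792) (l 16492840)) (a (l 16578632) (l 16528600))))), by decide +kernel⟩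

def k6_pp_022 : ∃ t, chk3 f_pp_022 t 3 1 1 = true :=
  ⟨(b (a (b (l 1) (a (b (l 1) (b (l 1) (a (l 16270056) (l 1)))) (l 1))) (l 1)) (b (a (b (a (b (a (a (l 16241304) (l 16201560)) (l 16142200)) (a (l 16243216) (b (l 16158048) (l 16170864)))) (b (l 1) (a (l 16085096) (l 1)))) (a (b (a (b (l 16262480) (l 16277328)) (b (l 16185064) (l 16201424))) (a (l 16303408) (l 16230728))) (b (a (b (l 16106664) (l 16124200)) (l 16036656)) (a (l 16156400) (l 16080504))))) (a (b (l 1) (b (l 1) (l 15965080))) (l 1))) (a (b (a (b (a (l 16343656) (l 16272928)) (a (l 16388688) (l 16319664))) (b (l 16168768) (l 16221760))) (a (b (l 16402912) (l 16449664)) (b (l 16277928) (l 16336736)))) (b (a (b (l 16023136) (l 16088576)) (b (l 1) (l 15947560))) (a (l 16192560) (l 16074408)))))), by decide +kernel⟩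

theorem s7_pp_022 : ∃ t, chk3 f_pp_022 t 5 3 1 = true := ex3_a k4_pp_022 k5_pp_022

theorem s8_pp_022 : ∃ t, chk3 f_pp_022 t 2 3 1 = true := ex3_a k3_pp_022 s7_pp_022

theorem s9_pp_022 : ∃ t, chk3 f_pp_022 t 5 2 1 = true := ex3_b k1_pp_022 k2_pp_022

theorem s10_pp_022 : ∃ t, chk3 f_pp_022 t 2 2 1 = true := ex3_a k0_pp_022 s9_pp_022

theorem s11_pp_022 : ∃ t, chk3 f_pp_022 t 2 1 1 = true := ex3_b s10_pp_022 s8_pp_022

theorem s12_pp_022 : ∃ t, chk3 f_pp_022 t 1 1 1 = true := ex3_a s11_pp_022 k6_pp_022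

theorem c_pp_022 : CertB 0 536870912 1073741824 536870912 649613803 48318383 3 eng mog cd1q0 cd7q2 pd2 false true true .pp 0 2 2
    ndB1q0 ndB7q2 pcB2 Cut.none Ext.none :=
  certB2 (fam := false) (s1 := true) (s2 := true) (a := 0) (b := 2) (c := 2) (cn := .pp) (n1 := ndB1q0) (n2 := ndB7q2) (pc := pcB2) (cut := Cut.none) (xt := Ext.none) (P1 := 0) (W1 := 536870912) (P2 := 1073741824) (W2 := 536870912) (P3 := 649613803) (W3 := 48318383) (N0 := 3) (En := eng) (mo := mog) (C1 := cd1q0) (C2 := cd7q2) (C3 := pd2)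
    rfl (fun _ => rfl) s12_pp_022

noncomputable def f_pp_023 : ℕ → ℕ → ℕ → ℕ → Bool := onCell 1073741824 536870912 0 1230186008 649613803 48318383
    (rowB 3 eng mog cd1q0 cd7q3 pd2 2 false true true .up 0 2 3 (qsf 0 536870912 0 1230186008 2) ndB1q0 ndB7q3 pcB2 Cut.none Ext.none)

def k0_pp_023 : ∃ t, chk3 f_pp_023 t 1 1 1 = true :=
  ⟨(b (a (l 2) (a (l 2) (b (l 360878316583) (b (l 157404284167) (a (l 16756696) (l 16781792)))))) (b (a (a (l 2) (a (l 2) (b (l 2) (l 206259206087)))) (a (b (a (l 2) (l 16736424)) (a (l 16800024) (l 16720400))) (b (a (l 16741648) (l 16743472)) (a (l 16697968) (b (l 16689848) (l 16632416)))))) (a (a (l 3) (b (b (a (a (l 2) (l 16715248)) (l 16718144)) (a (a (b (l 2) (a (l 3) (a (l 87677673095) (a (l 16705712) (a (l 16701680) (l 16699360)))))) (l 16685512)) (l 16670696))) (a (a (a (l 3) (a (b (a (l 3) (l 16693920)) (l 3)) (a (b (l 16687328) (b (l 16655592) (l 3))) (a (b (l 16681944) (a (l 16648680) (l 16711232))) (b (l 16678880)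 (a (a (a (l 16647936) (a (l 16647928) (l 16668928))) (l 16647872)) (l 16647608))))))) (b (l 16649712) (b (l 16636208) (l 16637808)))) (b (a (l 16631888) (l 16625760)) (b (l 16605744) (l 16582880)))))) (a (b (a (b (l 16721216) (l 16669384)) (b (l 16680800) (l 16615712))) (b (a (l 16572192) (l 16522184)) (a (l 16555208) (l 16417736)))) (b (b (a (l 16622328) (l 16548720)) (a (l 16539608) (l 16451736))) (b (a (l 16436752) (l 16343864)) (a (l 16317760) (l 16220080)))))))), by decide +kernel⟩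

theorem c_pp_023 : CertB 0 536870912 0 1230186008 649613803 48318383 3 eng mog cd1q0 cd7q3 pd2 false true true .up 0 2 3
    ndB1q0 ndB7q3 pcB2 Cut.none Ext.none :=
  certB2 (fam := false) (s1 := true) (s2 := true) (a := 0) (b := 2) (c := 3) (cn := .up) (n1 := ndB1q0) (n2 := ndB7q3) (pc := pcB2) (cut := Cut.none) (xt := Ext.none) (P1 := 0) (W1 := 536870912) (P2 := 0) (W2 := 1230186008) (P3 := 649613803) (W3 := 48318383) (N0 := 3) (En := eng) (mo := mog) (C1 := cd1q0) (C2 := cd7q3) (C3 := pd2)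
    rfl (fun _ => rfl) k0_pp_023

noncomputable def f_pp_033 : ℕ → ℕ → ℕ → ℕ → Bool := onCell 1610612736 536870912 0 1230186008 649613803 48318383
    (rowB 3 eng mog cd1q0 cd7q3 pd3 2 false true true .pnn 0 3 3 (qsf 0 536870912 0 1230186008 3) ndB1q0 ndB7q3 pcB3 Cut.none Ext.none)

def k0_pp_033 : ∃ t, chk3 f_pp_033 t 1 1 1 = true :=
  ⟨(b (b (a (a (a (l 16665280) (a (l 16634808) (l 16623216))) (a (l 16599128) (l 16554808))) (a (a (l 16506384) (l 4)) (l 4))) (a (b (a (a (l 16684080) (l 16389376)) (a (a (l 16604416) (l 16576480)) (l 16537328))) (a (a (l 16685264) (a (l 16635504) (l 16604656))) (a (a (a (l 16580856) (l 16564512)) (a (l 16551600) (l 16535680))) (l 16498376)))) (a (a (b (l 16487072) (a (l 16455360) (l 16437080))) (a (l 16601688) (l 16434168))) (a (a (l 16399960) (l 16382144)) (l 4))))) (b (a (a (a (b (l 16642736) (b (l 16580200) (l 16517984))) (b (a (l 16584328) (l 16548120)) (b (l 16502760) (l 16441800)))) (a (a (b (a (l 16520736) (l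 16502040)) (b (l 16444712) (l 16385760))) (b (a (l 16495576) (l 16481784)) (a (l 16413744) (l 16374960)))) (b (b (l 16451480) (l 16411344)) (b (l 16359432) (l 16519376))))) (b (a (a (a (l 16390128) (b (l 16389872) (l 16347224))) (a (b (l 16379232) (l 16334968)) (b (l 16375176) (l 16552912)))) (a (a (l 369400386791) (l 1)) (l 1))) (a (a (b (a (l 16312856) (l 16285792)) (a (l 16232104) (l 16203280))) (a (b (l 16268416) (l 1)) (l 1))) (l 1)))) (a (b (a (a (b (l 16427784) (l 16317784)) (b (l 16349088) (l 16227800))) (a (b (a (l 16302928) (l 16261712)) (l 16150992)) (b (a (l 16210056) (l 16158312)) (l 1)))) (a (b (l 16149032) (b (l 16056272) (l 15998520))) (b (a (l 15980704) (l 1)) (l 1)))) (l 1)))), by decide +kernel⟩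

theorem c_pp_033 : CertB 0 536870912 0 1230186008 649613803 48318383 3 eng mog cd1q0 cd7q3 pd3 false true true .pnn 0 3 3
    ndB1q0 ndB7q3 pcB3 Cut.none Ext.none :=
  certB2 (fam := false) (s1 := true) (s2 := true) (a := 0) (b := 3) (c := 3) (cn := .pnn) (n1 := ndB1q0) (n2 := ndB7q3) (pc := pcB3) (cut := Cut.none) (xt := Ext.none) (P1 := 0) (W1 := 536870912) (P2 := 0) (W2 := 1230186008) (P3 := 649613803) (W3 := 48318383) (N0 := 3) (En := eng) (mo := mog) (C1 := cd1q0) (C2 := cd7q3) (C3 := pd3)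
    rfl (fun _ => rfl) k0_pp_033

noncomputable def f_pp_101 : ℕ → ℕ → ℕ → ℕ → Bool := onCell 536870912 536870912 0 536870912 649613803 48318383
    (rowB 3 eng mog cd1q1 cd7q1 pd0 1 false true true .npn 1 0 1 (qsf 536870912 536870912 536870912 536870912 0) ndB1q1 ndB7q1 pcB0 Cut.none Ext.none)

def k0_pp_101 : ∃ t, chk3 f_pp_101 t 1 1 1 = true :=
  ⟨(l 3), by decide +kernel⟩

theorem c_pp_101 : CertB 536870912 536870912 536870912 536870912 649613803 48318383 3 eng mog cd1q1 cd7q1 pd0 false true true .npn 1 0 1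
    ndB1q1 ndB7q1 pcB0 Cut.none Ext.none :=
  certB1 (fam := false) (s1 := true) (s2 := true) (a := 1) (b := 0) (c := 1) (cn := .npn) (n1 := ndB1q1) (n2 := ndB7q1) (pc := pcB0) (cut := Cut.none) (xt := Ext.none) (P1 := 536870912) (W1 := 536870912) (P2 := 536870912) (W2 := 536870912) (P3 := 649613803) (W3 := 48318383) (N0 := 3) (En := eng) (mo := mog) (C1 := cd1q1) (C2 := cd7q1) (C3 := pd0)
    rfl (fun _ => rfl) k0_pp_101

noncomputable def f_pp_102 : ℕ → ℕ → ℕ → ℕ → Bool := onCell 536870912 536870912 1073741824 536870912 649613803 48318383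
    (rowB 3 eng mog cd1q1 cd7q2 pd0 0 false true true .npp 1 0 2 (qsf 536870912 536870912 1073741824 536870912 0) ndB1q1 ndB7q2 pcB0 Cut.none Ext.none)

def k0_pp_102 : ∃ t, chk3 f_pp_102 t 1 1 1 = true :=
  ⟨(l 3), by decide +kernel⟩

theorem c_pp_102 : CertB 536870912 536870912 1073741824 536870912 649613803 48318383 3 eng mog cd1q1 cd7q2 pd0 false true true .npp 1 0 2
    ndB1q1 ndB7q2 pcB0 Cut.none Ext.none :=
  certB0 (fam := false) (s1 := true) (s2 := true) (a := 1) (b := 0) (c := 2) (cn := .npp) (n1 := ndB1q1) (n2 := ndB7q2) (pc := pcB0) (cut := Cut.none) (xt := Ext.none) (P1 := 536870912) (W1 := 536870912) (P2 := 1073741824) (W2 := 536870912) (P3 := 649613803) (W3 := 48318383) (N0 := 3) (En := eng) (mo := mog) (C1 := cd1q1) (C2 := cd7q2) (C3 := pd0)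
    rfl k0_pp_102

noncomputable def f_pp_112 : ℕ → ℕ → ℕ → ℕ → Bool := onCell 536870912 536870912 1073741824 536870912 649613803 48318383
    (rowB 3 eng mog cd1q1 cd7q2 pd1 0 false true true .dn 1 1 2 (qsf 536870912 536870912 1073741824 536870912 1) ndB1q1 ndB7q2 pcB1 Cut.none Ext.none)

def k0_pp_112 : ∃ t, chk3 f_pp_112 t 1 1 1 = true :=
  ⟨(l 3), by decide +kernel⟩

theorem c_pp_112 : CertB 536870912 536870912 1073741824 536870912 649613803 48318383 3 eng mog cd1q1 cd7q2 pd1 false true true .dn 1 1 2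
    ndB1q1 ndB7q2 pcB1 Cut.none Ext.none :=
  certB0 (fam := false) (s1 := true) (s2 := true) (a := 1) (b := 1) (c := 2) (cn := .dn) (n1 := ndB1q1) (n2 := ndB7q2) (pc := pcB1) (cut := Cut.none) (xt := Ext.none) (P1 := 536870912) (W1 := 536870912) (P2 := 1073741824) (W2 := 536870912) (P3 := 649613803) (W3 := 48318383) (N0 := 3) (En := eng) (mo := mog) (C1 := cd1q1) (C2 := cd7q2) (C3 := pd1)
    rfl k0_pp_112

noncomputable def f_pp_113 : ℕ → ℕ → ℕ → ℕ → Bool := onCell 536870912 536870912 0 1230186008 649613803 48318383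
    (rowB 3 eng mog cd1q1 cd7q3 pd1 2 false true true .nn 1 1 3 (qsf 536870912 536870912 0 1230186008 1) ndB1q1 ndB7q3 pcB1 Cut.none Ext.none)

def k0_pp_113 : ∃ t, chk3 f_pp_113 t 1 1 1 = true :=
  ⟨(a (b (l 2) (b (l 3) (a (b (l 2) (l 3)) (l 3)))) (b (a (l 2) (b (a (l 2) (a (l 2) (b (a (l 2) (b (l 1210207850807) (l 455434333031))) (l 3)))) (l 3))) (b (l 3) (l 3)))), by decide +kernel⟩

theorem c_pp_113 : CertB 536870912 536870912 0 1230186008 649613803 48318383 3 eng mog cd1q1 cd7q3 pd1 false true true .nn 1 1 3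
    ndB1q1 ndB7q3 pcB1 Cut.none Ext.none :=
  certB2 (fam := false) (s1 := true) (s2 := true) (a := 1) (b := 1) (c := 3) (cn := .nn) (n1 := ndB1q1) (n2 := ndB7q3) (pc := pcB1) (cut := Cut.none) (xt := Ext.none) (P1 := 536870912) (W1 := 536870912) (P2 := 0) (W2 := 1230186008) (P3 := 649613803) (W3 := 48318383) (N0 := 3) (En := eng) (mo := mog) (C1 := cd1q1) (C2 := cd7q3) (C3 := pd1)
    rfl (fun _ => rfl) k0_pp_113

noncomputable def f_pp_123 : ℕ → ℕ → ℕ → ℕ → Bool := onCell 1073741824 536870912 0 1230186008 649613803 48318383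
    (rowB 3 eng mog cd1q1 cd7q3 pd2 2 false true true .npn 1 2 3 (qsf 536870912 536870912 0 1230186008 2) ndB1q1 ndB7q3 pcB2 Cut.none Ext.none)

def k0_pp_123 : ∃ t, chk3 f_pp_123 t 4 1 1 = true :=
  ⟨(b (a (b (a (b (b (l 16764088) (a (l 16800712) (l 16770616))) (a (b (l 355039440727) (l 3)) (b (l 16868416) (l 341080806999)))) (b (l 16745112) (a (b (l 16773448) (l 180556590375)) (l 16768136)))) (a (l 3) (b (a (b (l 367387497991) (l 3)) (b (l 157471159127) (l 385104285911))) (l 3)))) (b (b (l 16700840) (a (b (l 16739440) (l 16756536)) (l 16718008))) (a (b (a (b (l 16780784) (b (l 16791784) (l 16842584))) (b (l 16766072) (l 16783320))) (a (b (l 471540639367) (l 3)) (b (a (b (l 16798376) (l 16799408)) (l 16793616)) (a (l 556366097463) (l 384567436967))))) (b (a (b (l 16751912) (l 16771400)) (l 16765208)) (a (b (b (l 16781160) (l 16784320)) (a (b (l 16791696) (l 16750608)) (b (l 16784752) (l 16790824)))) (b (l 16810312) (a (l 16763816) (l 16780360))))))))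 (a (l 3) (b (a (b (a (l 3) (b (a (l 3) (l 433959513415)) (l 3))) (l 3)) (a (b (b (a (a (l 303499952615) (l 307794908199)) (b (a (l 16797912) (l 16797720)) (l 284709344151))) (a (l 3) (l 515026987319))) (l 3)) (b (b (a (b (l 16794640) (l 16801176)) (l 16794960)) (a (l 16813360) (b (l 16804496) (l 16811312)))) (a (l 439328423367) (b (l 16818120) (l 3)))))) (l 3)))), by decide +kernel⟩

def k1_pp_123 : ∃ t, chk3 f_pp_123 t 5 1 1 = true :=
  ⟨(b (b (a (a (a (l 16672288) (b (a (l 16640784) (l 16631888)) (l 16686240))) (b (l 16634576) (l 16664256))) (b (l 16620200) (l 16660112))) (a (a (a (b (l 16816992) (b (l 16752872) (l 16772232))) (b (a (l 16720168) (l 16720736)) (a (l 16753536) (a (l 16752272) (a (l 16753864) (l 16757456)))))) (b (l 16709056) (l 16749424))) (b (l 16702824) (l 16739424)))) (a (a (b (a (b (b (a (l 16791232) (l 16787576)) (a (l 16802800) (l 16798408))) (a (b (l 16811608) (l 16817200)) (b (l 16803064) (l 16807224)))) (a (b (b (l 16782304)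 (l 16794400)) (b (l 16797256) (l 16797416))) (a (b (l 16782120) (b (l 16794680) (l 16788408))) (a (b (l 16780168) (l 16876856)) (b (l 16784976) (b (l 16800240) (l 16794336))))))) (a (b (a (l 3) (b (l 16794160) (l 3))) (l 3)) (b (a (b (l 16804584) (a (l 16758664) (l 16753872))) (b (a (l 16775336) (a (l 16772696) (l 16773824))) (a (l 16748680) (a (l 16746224) (l 16745040))))) (l 1)))) (b (b (l 16773504) (l 16780976)) (b (l 158410636327) (l 1)))) (b (b (l 16754048) (b (l 16762064) (l 16759696))) (b (b (l 16731760) (l 1)) (l 1))))), by decide +kernel⟩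

def k2_pp_123 : ∃ t, chk3 f_pp_123 t 3 1 1 = true :=
  ⟨(b (a (b (a (l 16657504) (b (l 16659056) (l 16697536))) (a (l 16721408) (b (l 16725864) (l 16746552)))) (b (a (l 16690416) (l 16716912)) (a (b (l 16762952) (l 16758144)) (l 794066142823)))) (b (a (b (a (l 16749856) (l 16745336)) (a (l 16855096) (l 16741384))) (b (l 292091795911) (l 1))) (l 1))), by decide +kernel⟩

theorem s3_pp_123 : ∃ t, chk3 f_pp_123 t 2 1 1 = true := ex3_a k0_pp_123 k1_pp_123

theorem s4_pp_123 : ∃ t, chk3 f_pp_123 t 1 1 1 = true := ex3_a s3_pp_123 k2_pp_123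

theorem c_pp_123 : CertB 536870912 536870912 0 1230186008 649613803 48318383 3 eng mog cd1q1 cd7q3 pd2 false true true .npn 1 2 3
    ndB1q1 ndB7q3 pcB2 Cut.none Ext.none :=
  certB2 (fam := false) (s1 := true) (s2 := true) (a := 1) (b := 2) (c := 3) (cn := .npn) (n1 := ndB1q1) (n2 := ndB7q3) (pc := pcB2) (cut := Cut.none) (xt := Ext.none) (P1 := 536870912) (W1 := 536870912) (P2 := 0) (W2 := 1230186008) (P3 := 649613803) (W3 := 48318383) (N0 := 3) (En := eng) (mo := mog) (C1 := cd1q1) (C2 := cd7q3) (C3 := pd2)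
    rfl (fun _ => rfl) s4_pp_123

noncomputable def f_pp_133 : ℕ → ℕ → ℕ → ℕ → Bool := onCell 536870912 536870912 0 1230186008 649613803 48318383
    (rowB 3 eng mog cd1q1 cd7q3 pd3 0 false true true .dn 1 3 3 (qsf 536870912 536870912 0 1230186008 3) ndB1q1 ndB7q3 pcB3 Cut.none Ext.none)

def k0_pp_133 : ∃ t, chk3 f_pp_133 t 1 1 1 = true :=
  ⟨(b (b (a (a (l 1313220242871) (l 1)) (l 1)) (l 1)) (l 1)), by decide +kernel⟩

theorem c_pp_133 : CertB 536870912 536870912 0 1230186008 649613803 48318383 3 eng mog cd1q1 cd7q3 pd3 false true true .dn 1 3 3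
    ndB1q1 ndB7q3 pcB3 Cut.none Ext.none :=
  certB0 (fam := false) (s1 := true) (s2 := true) (a := 1) (b := 3) (c := 3) (cn := .dn) (n1 := ndB1q1) (n2 := ndB7q3) (pc := pcB3) (cut := Cut.none) (xt := Ext.none) (P1 := 536870912) (W1 := 536870912) (P2 := 0) (W2 := 1230186008) (P3 := 649613803) (W3 := 48318383) (N0 := 3) (En := eng) (mo := mog) (C1 := cd1q1) (C2 := cd7q3) (C3 := pd3)
    rfl k0_pp_133

noncomputable def f_pp_202_a : ℕ → ℕ → ℕ → ℕ → Bool := onCell 0 536870912 1073741824 536870912 649613803 48318383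
    (rowB 3 eng mog cd1q2a cd7q2 pd0 0 false true true .pp 2 0 2 (qsf 0 536870912 1073741824 536870912 0) ndB1q2a ndB7q2 pcB0 Cut.none Ext.none)

def k0_pp_202_a : ∃ t, chk3 f_pp_202_a t 1 1 1 = true :=
  ⟨(l 5), by decide +kernel⟩

theorem c_pp_202_a : CertB 0 536870912 1073741824 536870912 649613803 48318383 3 eng mog cd1q2a cd7q2 pd0 false true true .pp 2 0 2
    ndB1q2a ndB7q2 pcB0 Cut.none Ext.none :=
  certB0 (fam := false) (s1 := true) (s2 := true) (a := 2) (b := 0) (c := 2) (cn := .pp) (n1 := ndB1q2a) (n2 := ndB7q2) (pc := pcB0) (cut := Cut.none) (xt := Ext.none) (P1 := 0) (W1 := 536870912) (P2 := 1073741824) (W2 := 536870912) (P3 := 649613803) (W3 := 48318383) (N0 := 3) (En := eng) (mo := mog) (C1 := cd1q2a) (C2 := cd7q2) (C3 := pd0)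
    rfl k0_pp_202_a

noncomputable def f_pp_202_b : ℕ → ℕ → ℕ → ℕ → Bool := onCell 1239849684 370763052 1073741824 536870912 649613803 48318383
    (rowB 3 eng mog cd1q2b cd7q2 pd0 0 false true true .pp 2 0 2 (qsf 1239849684 370763052 1073741824 536870912 0) ndB1q2b ndB7q2 pcB0 Cut.none Ext.none)

def k0_pp_202_b : ∃ t, chk3 f_pp_202_b t 1 1 1 = true :=
  ⟨(l 5), by decide +kernel⟩

theorem c_pp_202_b : CertB 1239849684 370763052 1073741824 536870912 649613803 48318383 3 eng mog cd1q2b cd7q2 pd0 false true true .pp 2 0 2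
    ndB1q2b ndB7q2 pcB0 Cut.none Ext.none :=
  certB0 (fam := false) (s1 := true) (s2 := true) (a := 2) (b := 0) (c := 2) (cn := .pp) (n1 := ndB1q2b) (n2 := ndB7q2) (pc := pcB0) (cut := Cut.none) (xt := Ext.none) (P1 := 1239849684) (W1 := 370763052) (P2 := 1073741824) (W2 := 536870912) (P3 := 649613803) (W3 := 48318383) (N0 := 3) (En := eng) (mo := mog) (C1 := cd1q2b) (C2 := cd7q2) (C3 := pd0)
    rfl k0_pp_202_b

noncomputable def f_pp_203_a : ℕ → ℕ → ℕ → ℕ → Bool := onCell 0 536870912 0 1230186008 649613803 48318383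
    (rowB 3 eng mog cd1q2a cd7q3 pd0 0 false true true .up 2 0 3 (qsf 0 536870912 0 1230186008 0) ndB1q2a ndB7q3 pcB0 Cut.none Ext.none)

def k0_pp_203_a : ∃ t, chk3 f_pp_203_a t 1 1 1 = true :=
  ⟨(b (l 2) (b (l 2) (a (l 3) (l 3)))), by decide +kernel⟩

theorem c_pp_203_a : CertB 0 536870912 0 1230186008 649613803 48318383 3 eng mog cd1q2a cd7q3 pd0 false true true .up 2 0 3
    ndB1q2a ndB7q3 pcB0 Cut.none Ext.none :=
  certB0 (fam := false) (s1 := true) (s2 := true) (a := 2) (b := 0) (c := 3) (cn := .up) (n1 := ndB1q2a) (n2 := ndB7q3) (pc := pcB0) (cut := Cut.none) (xt := Ext.none) (P1 := 0) (W1 := 536870912) (P2 := 0) (W2 := 1230186008) (P3 := 649613803) (W3 := 48318383) (N0 := 3) (En := eng) (mo := mog) (C1 := cd1q2a) (C2 := cd7q3) (C3 := pd0)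
    rfl k0_pp_203_a

noncomputable def f_pp_203_b : ℕ → ℕ → ℕ → ℕ → Bool := onCell 1239849684 370763052 0 1230186008 649613803 48318383
    (rowB 3 eng mog cd1q2b cd7q3 pd0 0 false true true .up 2 0 3 (qsf 1239849684 370763052 0 1230186008 0) ndB1q2b ndB7q3 pcB0 Cut.none Ext.none)

def k0_pp_203_b : ∃ t, chk3 f_pp_203_b t 1 1 1 = true :=
  ⟨(b (l 3) (l 5)), by decide +kernel⟩

theorem c_pp_203_b : CertB 1239849684 370763052 0 1230186008 649613803 48318383 3 eng mog cd1q2b cd7q3 pd0 false true true .up 2 0 3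
    ndB1q2b ndB7q3 pcB0 Cut.none Ext.none :=
  certB0 (fam := false) (s1 := true) (s2 := true) (a := 2) (b := 0) (c := 3) (cn := .up) (n1 := ndB1q2b) (n2 := ndB7q3) (pc := pcB0) (cut := Cut.none) (xt := Ext.none) (P1 := 1239849684) (W1 := 370763052) (P2 := 0) (W2 := 1230186008) (P3 := 649613803) (W3 := 48318383) (N0 := 3) (En := eng) (mo := mog) (C1 := cd1q2b) (C2 := cd7q3) (C3 := pd0)
    rfl k0_pp_203_b

noncomputable def cut_pp_213_a : Cut := Cut.of [[⟨0, 1, 0, 67108864⟩, ⟨1, 1, 0, 67108864⟩, ⟨2, 2, 0, 16777216⟩]]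

noncomputable def f_pp_213_a : ℕ → ℕ → ℕ → ℕ → Bool := onCell 0 536870912 0 1230186008 649613803 48318383
    (rowB 3 eng mog cd1q2a cd7q3 pd1 0 false true true .pnn 2 1 3 (qsf 0 536870912 0 1230186008 1) ndB1q2a ndB7q3 pcB1 cut_pp_213_a Ext.none)

def k0_pp_213_a : ∃ t, chk3 f_pp_213_a t 1 1 1 = true :=
  ⟨(b (a (l 3) (b (a (l 3) (a (l 3) (b (l 6) (l 3)))) (l 3))) (b (l 3) (b (l 3) (l 3)))), by decide +kernel⟩

theorem c_pp_213_a : CertB 0 536870912 0 1230186008 649613803 48318383 3 eng mog cd1q2a cd7q3 pd1 false true true .pnn 2 1 3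
    ndB1q2a ndB7q3 pcB1 cut_pp_213_a Ext.none :=
  certB0 (fam := false) (s1 := true) (s2 := true) (a := 2) (b := 1) (c := 3) (cn := .pnn) (n1 := ndB1q2a) (n2 := ndB7q3) (pc := pcB1) (cut := cut_pp_213_a) (xt := Ext.none) (P1 := 0) (W1 := 536870912) (P2 := 0) (W2 := 1230186008) (P3 := 649613803) (W3 := 48318383) (N0 := 3) (En := eng) (mo := mog) (C1 := cd1q2a) (C2 := cd7q3) (C3 := pd1)
    rfl k0_pp_213_a

noncomputable def cut_pp_213_b : Cut := Cut.of [[⟨0, 1, 0, 67108864⟩, ⟨1, 1, 0, 67108864⟩, ⟨2, 2, 0, 16777216⟩]]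

noncomputable def f_pp_213_b : ℕ → ℕ → ℕ → ℕ → Bool := onCell 1239849684 370763052 0 1230186008 649613803 48318383
    (rowB 3 eng mog cd1q2b cd7q3 pd1 0 false true true .pnn 2 1 3 (qsf 1239849684 370763052 0 1230186008 1) ndB1q2b ndB7q3 pcB1 cut_pp_213_b Ext.none)

def k0_pp_213_b : ∃ t, chk3 f_pp_213_b t 1 1 1 = true :=
  ⟨(b (l 3) (l 5)), by decide +kernel⟩

theorem c_pp_213_b : CertB 1239849684 370763052 0 1230186008 649613803 48318383 3 eng mog cd1q2b cd7q3 pd1 false true true .pnn 2 1 3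
    ndB1q2b ndB7q3 pcB1 cut_pp_213_b Ext.none :=
  certB0 (fam := false) (s1 := true) (s2 := true) (a := 2) (b := 1) (c := 3) (cn := .pnn) (n1 := ndB1q2b) (n2 := ndB7q3) (pc := pcB1) (cut := cut_pp_213_b) (xt := Ext.none) (P1 := 1239849684) (W1 := 370763052) (P2 := 0) (W2 := 1230186008) (P3 := 649613803) (W3 := 48318383) (N0 := 3) (En := eng) (mo := mog) (C1 := cd1q2b) (C2 := cd7q3) (C3 := pd1)
    rfl k0_pp_213_b

noncomputable def f_pp_303 : ℕ → ℕ → ℕ → ℕ → Bool := onCell 1610612736 536870912 0 1230186008 649613803 48318383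
    (rowB 3 eng mog cd1q3 cd7q3 pd0 0 false true true .npn 3 0 3 (qsf 1610612736 536870912 0 1230186008 0) ndB1q3 ndB7q3 pcB0 Cut.none Ext.none)

def k0_pp_303 : ∃ t, chk3 f_pp_303 t 1 1 1 = true :=
  ⟨(b (l 3) (l 5)), by decide +kernel⟩

theorem c_pp_303 : CertB 1610612736 536870912 0 1230186008 649613803 48318383 3 eng mog cd1q3 cd7q3 pd0 false true true .npn 3 0 3
    ndB1q3 ndB7q3 pcB0 Cut.none Ext.none :=
  certB0 (fam := false) (s1 := true) (s2 := true) (a := 3) (b := 0) (c := 3) (cn := .npn) (n1 := ndB1q3) (n2 := ndB7q3) (pc := pcB0) (cut := Cut.none) (xt := Ext.none) (P1 := 1610612736) (W1 := 536870912) (P2 := 0) (W2 := 1230186008) (P3 := 649613803) (W3 := 48318383) (N0 := 3) (En := eng) (mo := mog) (C1 := cd1q3) (C2 := cd7q3) (C3 := pd0)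
    rfl k0_pp_303

noncomputable def f_pp_313 : ℕ → ℕ → ℕ → ℕ → Bool := onCell 1610612736 536870912 0 1230186008 649613803 48318383
    (rowB 3 eng mog cd1q3 cd7q3 pd1 0 false true true .dn 3 1 3 (qsf 1610612736 536870912 0 1230186008 1) ndB1q3 ndB7q3 pcB1 Cut.none Ext.none)

def k0_pp_313 : ∃ t, chk3 f_pp_313 t 1 1 1 = true :=
  ⟨(b (l 3) (l 1)), by decide +kernel⟩

theorem c_pp_313 : CertB 1610612736 536870912 0 1230186008 649613803 48318383 3 eng mog cd1q3 cd7q3 pd1 false true true .dn 3 1 3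
    ndB1q3 ndB7q3 pcB1 Cut.none Ext.none :=
  certB0 (fam := false) (s1 := true) (s2 := true) (a := 3) (b := 1) (c := 3) (cn := .dn) (n1 := ndB1q3) (n2 := ndB7q3) (pc := pcB1) (cut := Cut.none) (xt := Ext.none) (P1 := 1610612736) (W1 := 536870912) (P2 := 0) (W2 := 1230186008) (P3 := 649613803) (W3 := 48318383) (N0 := 3) (En := eng) (mo := mog) (C1 := cd1q3) (C2 := cd7q3) (C3 := pd1)
    rfl k0_pp_313

noncomputable def f_pm_001 : ℕ → ℕ → ℕ → ℕ → Bool := onCell 0 536870912 536870912 536870912 649613803 48318383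
    (rowB 3 eng mog cd1q0 cd7q1 pd0 0 false true false .up 0 0 1 (qsf 0 536870912 536870912 536870912 0) ndB1q0 ndB7q1 pcB0 Cut.none Ext.none)

def k0_pm_001 : ∃ t, chk3 f_pm_001 t 1 1 1 = true :=
  ⟨(l 4), by decide +kernel⟩

theorem c_pm_001 : CertB 0 536870912 536870912 536870912 649613803 48318383 3 eng mog cd1q0 cd7q1 pd0 false true false .up 0 0 1
    ndB1q0 ndB7q1 pcB0 Cut.none Ext.none :=
  certB0 (fam := false) (s1 := true) (s2 := false) (a := 0) (b := 0) (c := 1) (cn := .up) (n1 := ndB1q0) (n2 := ndB7q1) (pc := pcB0) (cut := Cut.none) (xt := Ext.none) (P1 := 0) (W1 := 536870912) (P2 := 536870912) (W2 := 536870912) (P3 := 649613803) (W3 := 48318383) (N0 := 3) (En := eng) (mo := mog) (C1 := cd1q0) (C2 := cd7q1) (C3 := pd0)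
    rfl k0_pm_001

noncomputable def f_pm_011 : ℕ → ℕ → ℕ → ℕ → Bool := onCell 0 536870912 536870912 536870912 649613803 48318383
    (rowB 3 eng mog cd1q0 cd7q1 pd1 0 false true false .pnn 0 1 1 (qsf 0 536870912 536870912 536870912 1) ndB1q0 ndB7q1 pcB1 Cut.none Ext.none)

def k0_pm_011 : ∃ t, chk3 f_pm_011 t 1 1 1 = true :=
  ⟨(l 4), by decide +kernel⟩

theorem c_pm_011 : CertB 0 536870912 536870912 536870912 649613803 48318383 3 eng mog cd1q0 cd7q1 pd1 false true false .pnn 0 1 1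
    ndB1q0 ndB7q1 pcB1 Cut.none Ext.none :=
  certB0 (fam := false) (s1 := true) (s2 := false) (a := 0) (b := 1) (c := 1) (cn := .pnn) (n1 := ndB1q0) (n2 := ndB7q1) (pc := pcB1) (cut := Cut.none) (xt := Ext.none) (P1 := 0) (W1 := 536870912) (P2 := 536870912) (W2 := 536870912) (P3 := 649613803) (W3 := 48318383) (N0 := 3) (En := eng) (mo := mog) (C1 := cd1q0) (C2 := cd7q1) (C3 := pd1)
    rfl k0_pm_011

noncomputable def f_pm_012 : ℕ → ℕ → ℕ → ℕ → Bool := onCell 0 536870912 1073741824 536870912 649613803 48318383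
    (rowB 3 eng mog cd1q0 cd7q2 pd1 0 false true false .pnp 0 1 2 (qsf 0 536870912 1073741824 536870912 1) ndB1q0 ndB7q2 pcB1 Cut.none Ext.none)

def k0_pm_012 : ∃ t, chk3 f_pm_012 t 1 1 1 = true :=
  ⟨(l 4), by decide +kernel⟩

theorem c_pm_012 : CertB 0 536870912 1073741824 536870912 649613803 48318383 3 eng mog cd1q0 cd7q2 pd1 false true false .pnp 0 1 2
    ndB1q0 ndB7q2 pcB1 Cut.none Ext.none :=
  certB0 (fam := false) (s1 := true) (s2 := false) (a := 0) (b := 1) (c := 2) (cn := .pnp) (n1 := ndB1q0) (n2 := ndB7q2) (pc := pcB1) (cut := Cut.none) (xt := Ext.none) (P1 := 0) (W1 := 536870912) (P2 := 1073741824) (W2 := 536870912) (P3 := 649613803) (W3 := 48318383) (N0 := 3) (En := eng) (mo := mog) (C1 := cd1q0) (C2 := cd7q2) (C3 := pd1)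
    rfl k0_pm_012

noncomputable def f_pm_022 : ℕ → ℕ → ℕ → ℕ → Bool := onCell 0 536870912 1073741824 536870912 649613803 48318383
    (rowB 3 eng mog cd1q0 cd7q2 pd2 0 false true false .pp 0 2 2 (qsf 0 536870912 1073741824 536870912 2) ndB1q0 ndB7q2 pcB2 Cut.none Ext.none)

def k0_pm_022 : ∃ t, chk3 f_pm_022 t 1 1 1 = true :=
  ⟨(l 4), by decide +kernel⟩

theorem c_pm_022 : CertB 0 536870912 1073741824 536870912 649613803 48318383 3 eng mog cd1q0 cd7q2 pd2 false true false .pp 0 2 2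
    ndB1q0 ndB7q2 pcB2 Cut.none Ext.none :=
  certB0 (fam := false) (s1 := true) (s2 := false) (a := 0) (b := 2) (c := 2) (cn := .pp) (n1 := ndB1q0) (n2 := ndB7q2) (pc := pcB2) (cut := Cut.none) (xt := Ext.none) (P1 := 0) (W1 := 536870912) (P2 := 1073741824) (W2 := 536870912) (P3 := 649613803) (W3 := 48318383) (N0 := 3) (En := eng) (mo := mog) (C1 := cd1q0) (C2 := cd7q2) (C3 := pd2)
    rfl k0_pm_022

end Pool.Agent.Strip051.G.I6050_6500.Tab.C.BB17

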