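import Pool.Agent.Strip051.G.I6050_6500.CrnB
import Pool.Agent.Strip051.G.I6050_6500.CG_2
import Pool.Agent.Strip051.G.I6050_6500.CW_2

/-! # Aligned corners: the alternatives (generated) -/

set_option linter.all false

namespace Pool.Agent.Strip051.G.I6050_6500.Tab

open Pool.Agent.Strip051.PB Pool.Agent.StripNear Pool.Agent.Strip051.LC

theorem altB_B022L_18 {κ x : ℝ} (hκ : κ * h0 = ken x) (hx : ((649613803 : ℕ) : ℝ) / S ≤ x) (hx' : x ≤ (((649613803 : ℕ) : ℝ) + (48318383 : ℕ)) / S) :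
    AltEB 3 κ (eng.v x) (3 / 40) (tnt (h0 * x) (3 / 10)) PP tK tL tC pcB (scP esg pd) [⟨0, 0, 0, 67108864⟩, ⟨1, 1, 0, 67108864⟩, ⟨2, 1, 0, 67108864⟩] 0 2 2 1 8 (sgb true) (sgb true) x := by
  have X : XR 67108864 x := XR.of hx hx' (by norm_num) (by norm_num) (by norm_num) (by norm_num)
  have hen : 0 < eng.v x := en_pos X.x0.le
  refine CornW.altB (C := cB022L) (j := (1 : Fin 9)) (k := (8 : Fin 9)) (Ef := esg) (pd := pd) (o := 3 / 40)
    (cornW_of (C := cB022L) (C0 := c0B) (En := eng) (mo := mog) (j := (1 : Fin 9)) (k := (8 : Fin 9)) (lo := 0) (hi := 4) (W := 67108864) (N0 := 3) cB022L_q (sideB hx hx') gokB (pinU hx hx') dokB X (by norm_num) (by norm_num) (l := (0 : Fin 9)) rfl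
      (gatB10 x) (gatB82 x) (gatB02 x) (datB10 x) (datB82 x) (datB02 x) ?_)
    (cornS_of (C := cB022L) (C0 := c0B) (j := (1 : Fin 9)) (k := (8 : Fin 9)) (lo := 0) (hi := 4) (W := 67108864) (N0 := 3) cB022L_q (sideB hx hx') gokB X (by norm_num) (by norm_num) (l := (0 : Fin 9)) rfl
      (gatB10 x) (gatB82 x) (gatB02 x) ?_)
    (thU (pinU hx hx')) rfl hκ (fun j q y => tC_eq j q y x) (esg_rng X.x0.le (by linarith [X.b, X.p0])).1 (mo_v x) le_rfl le_rfl
  · intro ρ a B hρ hd i h1 h2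
    fin_cases i
    · exact corW_cert (G1 := gB1q0) (G2 := gB8q2) (Ga := gB0q2) (Gb := gB1q2) (D1 := dB1q0) (D2 := dB8q2) (Da := dB0q2) (Db := dB1q2) cB022L_ok B hρ hen (gatB10 x) (gatB82 x) (fun _ => gatB02 x) (fun _ => gatB12 x) (datB10 x) (datB82 x) (fun _ => datB02 x) (fun _ => datB12 x) hd hx hx' CW.B022L_180
    · exact corW_cert (G1 := gB1q0) (G2 := gB8q2) (Ga := gB1q2) (Gb := gB2q2) (D1 := dB1q0) (D2 := dB8q2) (Da := dB1q2) (Db := dB2q2) cB022L_ok B hρ hen (gatB10 x) (gatB82 x) (fun _ => gatB12 x) (fun _ => gatB22 x) (datB10 x) (datB82 x) (fun _ => datB12 x) (fun _ => datB22 x) hd hx hx' CW.B022L_181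
    · exact corW_cert (G1 := gB1q0) (G2 := gB8q2) (Ga := gB2q2) (Gb := gB3q2) (D1 := dB1q0) (D2 := dB8q2) (Da := dB2q2) (Db := dB3q2) cB022L_ok B hρ hen (gatB10 x) (gatB82 x) (fun _ => gatB22 x) (fun _ => gatB32 x) (datB10 x) (datB82 x) (fun _ => datB22 x) (fun _ => datB32 x) hd hx hx' CW.B022L_182
    · exact corW_cert (G1 := gB1q0) (G2 := gB8q2) (Ga := gB3q2) (Gb := gB4q2) (D1 := dB1q0) (D2 := dB8q2) (Da := dB3q2) (Db := dB4q2) cB022L_ok B hρ hen (gatB10 x) (gatB82 x) (fun _ => gatB32 x) (fun _ => gatB42 x) (datB10 x) (datB82 x) (fun _ => datB32 x) (fun _ => datB42 x) hd hx hx' CW.B022L_183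
    · exact corW_cert (G1 := gB1q0) (G2 := gB8q2) (Ga := gB4q2) (Gb := gB5q2) (D1 := dB1q0) (D2 := dB8q2) (Da := dB4q2) (Db := dB5q2) cB022L_ok B hρ hen (gatB10 x) (gatB82 x) (fun _ => gatB42 x) (fun h => absurd h (by decide)) (datB10 x) (datB82 x) (fun _ => datB42 x) (fun h => absurd h (by decide)) hd hx hx' CW.B022L_184
    · exact absurd h2 (by norm_num)
    · exact absurd h2 (by norm_num)
    · exact absurd h2 (by norm_num)
  · intro ρ a B hρ hd i h1 h2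
    fin_cases i
    · exact corT_cert (G1 := gB1q0) (G2 := gB8q2) (Ga := gB0q2) (Gb := gB1q2) cB022L_ok B hρ (gatB10 x) (gatB82 x) (fun _ => gatB02 x) (fun _ => gatB12 x) hd hx hx' CG.B022L_180
    · exact corT_cert (G1 := gB1q0) (G2 := gB8q2) (Ga := gB1q2) (Gb := gB2q2) cB022L_ok B hρ (gatB10 x) (gatB82 x) (fun _ => gatB12 x) (fun _ => gatB22 x) hd hx hx' CG.B022L_181
    · exact corT_cert (G1 := gB1q0) (G2 := gB8q2) (Ga := gB2q2) (Gb := gB3q2) cB022L_ok B hρ (gatB10 x) (gatB82 x) (fun _ => gatB22 x) (fun _ => gatB32 x) hd hx hx' CG.B022L_182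
    · exact corT_cert (G1 := gB1q0) (G2 := gB8q2) (Ga := gB3q2) (Gb := gB4q2) cB022L_ok B hρ (gatB10 x) (gatB82 x) (fun _ => gatB32 x) (fun _ => gatB42 x) hd hx hx' CG.B022L_183
    · exact corT_cert (G1 := gB1q0) (G2 := gB8q2) (Ga := gB4q2) (Gb := gB5q2) cB022L_ok B hρ (gatB10 x) (gatB82 x) (fun _ => gatB42 x) (fun h => absurd h (by decide)) hd hx hx' CG.B022L_184
    · exact absurd h2 (by norm_num)
    · exact absurd h2 (by norm_num)
    · exact absurd h2 (by norm_num)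

theorem altB_B022L_28 {κ x : ℝ} (hκ : κ * h0 = ken x) (hx : ((649613803 : ℕ) : ℝ) / S ≤ x) (hx' : x ≤ (((649613803 : ℕ) : ℝ) + (48318383 : ℕ)) / S) :
    AltEB 3 κ (eng.v x) (3 / 40) (tnt (h0 * x) (3 / 10)) PP tK tL tC pcB (scP esg pd) [⟨0, 0, 0, 67108864⟩, ⟨1, 1, 0, 67108864⟩, ⟨2, 1, 0, 67108864⟩] 0 2 2 2 8 (sgb true) (sgb true) x := by
  have X : XR 67108864 x := XR.of hx hx' (by norm_num) (by norm_num) (by norm_num) (by norm_num)
  have hen : 0 < eng.v x := en_pos X.x0.le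
  refine CornW.altB (C := cB022L) (j := (2 : Fin 9)) (k := (8 : Fin 9)) (Ef := esg) (pd := pd) (o := 3 / 40)
    (cornW_of (C := cB022L) (C0 := c0B) (En := eng) (mo := mog) (j := (2 : Fin 9)) (k := (8 : Fin 9)) (lo := 0) (hi := 4) (W := 67108864) (N0 := 3) cB022L_q (sideB hx hx') gokB (pinU hx hx') dokB X (by norm_num) (by norm_num) (l := (0 : Fin 9)) rfl
      (gatB20 x) (gatB82 x) (gatB02 x) (datB20 x) (datB82 x) (datB02 x) ?_)
    (cornS_of (C := cB022L) (C0 := c0B) (j := (2 : Fin 9)) (k := (8 : Fin 9)) (lo := 0) (hi := 4) (W := 67108864) (N0 := 3) cB022L_q (sideB hx hx') gokB X (by norm_num) (by norm_num) (l := (0 : Fin 9)) rfl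
      (gatB20 x) (gatB82 x) (gatB02 x) ?_)
    (thU (pinU hx hx')) rfl hκ (fun j q y => tC_eq j q y x) (esg_rng X.x0.le (by linarith [X.b, X.p0])).1 (mo_v x) le_rfl le_rfl
  · intro ρ a B hρ hd i h1 h2
    fin_cases i
    · exact corW_cert (G1 := gB2q0) (G2 := gB8q2) (Ga := gB0q2) (Gb := gB1q2) (D1 := dB2q0) (D2 := dB8q2) (Da := dB0q2) (Db := dB1q2) cB022L_ok B hρ hen (gatB20 x) (gatB82 x) (fun _ => gatB02 x) (fun _ => gatB12 x) (datB20 x) (datB82 x) (fun _ => datB02 x) (fun _ => datB12 x) hd hx hx' CW.B022L_280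
    · exact corW_cert (G1 := gB2q0) (G2 := gB8q2) (Ga := gB1q2) (Gb := gB2q2) (D1 := dB2q0) (D2 := dB8q2) (Da := dB1q2) (Db := dB2q2) cB022L_ok B hρ hen (gatB20 x) (gatB82 x) (fun _ => gatB12 x) (fun _ => gatB22 x) (datB20 x) (datB82 x) (fun _ => datB12 x) (fun _ => datB22 x) hd hx hx' CW.B022L_281
    · exact corW_cert (G1 := gB2q0) (G2 := gB8q2) (Ga := gB2q2) (Gb := gB3q2) (D1 := dB2q0) (D2 := dB8q2) (Da := dB2q2) (Db := dB3q2) cB022L_ok B hρ hen (gatB20 x) (gatB82 x) (fun _ => gatB22 x) (fun _ => gatB32 x) (datB20 x) (datB82 x) (fun _ => datB22 x) (fun _ => datB32 x) hd hx hx' CW.B022L_282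
    · exact corW_cert (G1 := gB2q0) (G2 := gB8q2) (Ga := gB3q2) (Gb := gB4q2) (D1 := dB2q0) (D2 := dB8q2) (Da := dB3q2) (Db := dB4q2) cB022L_ok B hρ hen (gatB20 x) (gatB82 x) (fun _ => gatB32 x) (fun _ => gatB42 x) (datB20 x) (datB82 x) (fun _ => datB32 x) (fun _ => datB42 x) hd hx hx' CW.B022L_283
    · exact corW_cert (G1 := gB2q0) (G2 := gB8q2) (Ga := gB4q2) (Gb := gB5q2) (D1 := dB2q0) (D2 := dB8q2) (Da := dB4q2) (Db := dB5q2) cB022L_ok B hρ hen (gatB20 x) (gatB82 x) (fun _ => gatB42 x) (fun h => absurd h (by decide)) (datB20 x) (datB82 x) (fun _ => datB42 x) (fun h => absurd h (by decide)) hd hx hx' CW.B022L_284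
    · exact absurd h2 (by norm_num)
    · exact absurd h2 (by norm_num)
    · exact absurd h2 (by norm_num)
  · intro ρ a B hρ hd i h1 h2
    fin_cases i
    · exact corT_cert (G1 := gB2q0) (G2 := gB8q2) (Ga := gB0q2) (Gb := gB1q2) cB022L_ok B hρ (gatB20 x) (gatB82 x) (fun _ => gatB02 x) (fun _ => gatB12 x) hd hx hx' CG.B022L_280
    · exact corT_cert (G1 := gB2q0) (G2 := gB8q2) (Ga := gB1q2) (Gb := gB2q2) cB022L_ok B hρ (gatB20 x) (gatB82 x) (fun _ => gatB12 x) (fun _ => gatB22 x) hd hx hx' CG.B022L_281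
    · exact corT_cert (G1 := gB2q0) (G2 := gB8q2) (Ga := gB2q2) (Gb := gB3q2) cB022L_ok B hρ (gatB20 x) (gatB82 x) (fun _ => gatB22 x) (fun _ => gatB32 x) hd hx hx' CG.B022L_282
    · exact corT_cert (G1 := gB2q0) (G2 := gB8q2) (Ga := gB3q2) (Gb := gB4q2) cB022L_ok B hρ (gatB20 x) (gatB82 x) (fun _ => gatB32 x) (fun _ => gatB42 x) hd hx hx' CG.B022L_283
    · exact corT_cert (G1 := gB2q0) (G2 := gB8q2) (Ga := gB4q2) (Gb := gB5q2) cB022L_ok B hρ (gatB20 x) (gatB82 x) (fun _ => gatB42 x) (fun h => absurd h (by decide)) hd hx hx' CG.B022L_284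
    · exact absurd h2 (by norm_num)
    · exact absurd h2 (by norm_num)
    · exact absurd h2 (by norm_num)

theorem altB_B022L_38 {κ x : ℝ} (hκ : κ * h0 = ken x) (hx : ((649613803 : ℕ) : ℝ) / S ≤ x) (hx' : x ≤ (((649613803 : ℕ) : ℝ) + (48318383 : ℕ)) / S) :
    AltEB 3 κ (eng.v x) (3 / 40) (tnt (h0 * x) (3 / 10)) PP tK tL tC pcB (scP esg pd) [⟨0, 0, 0, 67108864⟩, ⟨1, 1, 0, 67108864⟩, ⟨2, 1, 0, 67108864⟩] 0 2 2 3 8 (sgb true) (sgb true) x := by
  have X : XR 67108864 x := XR.of hx hx' (by norm_num) (by norm_num) (by norm_num) (by norm_num)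
  have hen : 0 < eng.v x := en_pos X.x0.le
  refine CornW.altB (C := cB022L) (j := (3 : Fin 9)) (k := (8 : Fin 9)) (Ef := esg) (pd := pd) (o := 3 / 40)
    (cornW_of (C := cB022L) (C0 := c0B) (En := eng) (mo := mog) (j := (3 : Fin 9)) (k := (8 : Fin 9)) (lo := 0) (hi := 4) (W := 67108864) (N0 := 3) cB022L_q (sideB hx hx') gokB (pinU hx hx') dokB X (by norm_num) (by norm_num) (l := (0 : Fin 9)) rfl
      (gatB30 x) (gatB82 x) (gatB02 x) (datB30 x) (datB82 x) (datB02 x) ?_)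
    (cornS_of (C := cB022L) (C0 := c0B) (j := (3 : Fin 9)) (k := (8 : Fin 9)) (lo := 0) (hi := 4) (W := 67108864) (N0 := 3) cB022L_q (sideB hx hx') gokB X (by norm_num) (by norm_num) (l := (0 : Fin 9)) rfl
      (gatB30 x) (gatB82 x) (gatB02 x) ?_)
    (thU (pinU hx hx')) rfl hκ (fun j q y => tC_eq j q y x) (esg_rng X.x0.le (by linarith [X.b, X.p0])).1 (mo_v x) le_rfl le_rfl
  · intro ρ a B hρ hd i h1 h2
    fin_cases i
    · exact corW_cert (G1 := gB3q0) (G2 := gB8q2) (Ga := gB0q2) (Gb := gB1q2) (D1 := dB3q0) (D2 := dB8q2) (Da := dB0q2) (Db := dB1q2) cB022L_ok B hρ hen (gatB30 x) (gatB82 x) (fun _ => gatB02 x) (fun _ => gatB12 x) (datB30 x) (datB82 x) (fun _ => datB02 x) (fun _ => datB12 x) hd hx hx' CW.B022L_380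
    · exact corW_cert (G1 := gB3q0) (G2 := gB8q2) (Ga := gB1q2) (Gb := gB2q2) (D1 := dB3q0) (D2 := dB8q2) (Da := dB1q2) (Db := dB2q2) cB022L_ok B hρ hen (gatB30 x) (gatB82 x) (fun _ => gatB12 x) (fun _ => gatB22 x) (datB30 x) (datB82 x) (fun _ => datB12 x) (fun _ => datB22 x) hd hx hx' CW.B022L_381
    · exact corW_cert (G1 := gB3q0) (G2 := gB8q2) (Ga := gB2q2) (Gb := gB3q2) (D1 := dB3q0) (D2 := dB8q2) (Da := dB2q2) (Db := dB3q2) cB022L_ok B hρ hen (gatB30 x) (gatB82 x) (fun _ => gatB22 x) (fun _ => gatB32 x) (datB30 x) (datB82 x) (fun _ => datB22 x) (fun _ => datB32 x) hd hx hx' CW.B022L_382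
    · exact corW_cert (G1 := gB3q0) (G2 := gB8q2) (Ga := gB3q2) (Gb := gB4q2) (D1 := dB3q0) (D2 := dB8q2) (Da := dB3q2) (Db := dB4q2) cB022L_ok B hρ hen (gatB30 x) (gatB82 x) (fun _ => gatB32 x) (fun _ => gatB42 x) (datB30 x) (datB82 x) (fun _ => datB32 x) (fun _ => datB42 x) hd hx hx' CW.B022L_383
    · exact corW_cert (G1 := gB3q0) (G2 := gB8q2) (Ga := gB4q2) (Gb := gB5q2) (D1 := dB3q0) (D2 := dB8q2) (Da := dB4q2) (Db := dB5q2) cB022L_ok B hρ hen (gatB30 x) (gatB82 x) (fun _ => gatB42 x) (fun h => absurd h (by decide)) (datB30 x) (datB82 x) (fun _ => datB42 x) (fun h => absurd h (by decide)) hd hx hx' CW.B022L_384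
    · exact absurd h2 (by norm_num)
    · exact absurd h2 (by norm_num)
    · exact absurd h2 (by norm_num)
  · intro ρ a B hρ hd i h1 h2
    fin_cases i
    · exact corT_cert (G1 := gB3q0) (G2 := gB8q2) (Ga := gB0q2) (Gb := gB1q2) cB022L_ok B hρ (gatB30 x) (gatB82 x) (fun _ => gatB02 x) (fun _ => gatB12 x) hd hx hx' CG.B022L_380
    · exact corT_cert (G1 := gB3q0) (G2 := gB8q2) (Ga := gB1q2) (Gb := gB2q2) cB022L_ok B hρ (gatB30 x) (gatB82 x) (fun _ => gatB12 x) (fun _ => gatB22 x) hd hx hx' CG.B022L_381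
    · exact corT_cert (G1 := gB3q0) (G2 := gB8q2) (Ga := gB2q2) (Gb := gB3q2) cB022L_ok B hρ (gatB30 x) (gatB82 x) (fun _ => gatB22 x) (fun _ => gatB32 x) hd hx hx' CG.B022L_382
    · exact corT_cert (G1 := gB3q0) (G2 := gB8q2) (Ga := gB3q2) (Gb := gB4q2) cB022L_ok B hρ (gatB30 x) (gatB82 x) (fun _ => gatB32 x) (fun _ => gatB42 x) hd hx hx' CG.B022L_383
    · exact corT_cert (G1 := gB3q0) (G2 := gB8q2) (Ga := gB4q2) (Gb := gB5q2) cB022L_ok B hρ (gatB30 x) (gatB82 x) (fun _ => gatB42 x) (fun h => absurd h (by decide)) hd hx hx' CG.B022L_384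
    · exact absurd h2 (by norm_num)
    · exact absurd h2 (by norm_num)
    · exact absurd h2 (by norm_num)

theorem altB_B022L_48 {κ x : ℝ} (hκ : κ * h0 = ken x) (hx : ((649613803 : ℕ) : ℝ) / S ≤ x) (hx' : x ≤ (((649613803 : ℕ) : ℝ) + (48318383 : ℕ)) / S) :
    AltEB 3 κ (eng.v x) (3 / 40) (tnt (h0 * x) (3 / 10)) PP tK tL tC pcB (scP esg pd) [⟨0, 0, 0, 67108864⟩, ⟨1, 1, 0, 67108864⟩, ⟨2, 1, 0, 67108864⟩] 0 2 2 4 8 (sgb true) (sgb true) x := by
  have X : XR 67108864 x := XR.of hx hx' (by norm_num) (by norm_num) (by norm_num) (by norm_num)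
  have hen : 0 < eng.v x := en_pos X.x0.le
  refine CornW.altB (C := cB022L) (j := (4 : Fin 9)) (k := (8 : Fin 9)) (Ef := esg) (pd := pd) (o := 3 / 40)
    (cornW_of (C := cB022L) (C0 := c0B) (En := eng) (mo := mog) (j := (4 : Fin 9)) (k := (8 : Fin 9)) (lo := 0) (hi := 4) (W := 67108864) (N0 := 3) cB022L_q (sideB hx hx') gokB (pinU hx hx') dokB X (by norm_num) (by norm_num) (l := (0 : Fin 9)) rfl
      (gatB40 x) (gatB82 x) (gatB02 x) (datB40 x) (datB82 x) (datB02 x) ?_)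
    (cornS_of (C := cB022L) (C0 := c0B) (j := (4 : Fin 9)) (k := (8 : Fin 9)) (lo := 0) (hi := 4) (W := 67108864) (N0 := 3) cB022L_q (sideB hx hx') gokB X (by norm_num) (by norm_num) (l := (0 : Fin 9)) rfl
      (gatB40 x) (gatB82 x) (gatB02 x) ?_)
    (thU (pinU hx hx')) rfl hκ (fun j q y => tC_eq j q y x) (esg_rng X.x0.le (by linarith [X.b, X.p0])).1 (mo_v x) le_rfl le_rfl
  · intro ρ a B hρ hd i h1 h2
    fin_cases i
    · exact corW_cert (G1 := gB4q0) (G2 := gB8q2) (Ga := gB0q2) (Gb := gB1q2) (D1 := dB4q0) (D2 := dB8q2) (Da := dB0q2) (Db := dB1q2) cB022L_ok B hρ hen (gatB40 x) (gatB82 x) (fun _ => gatB02 x) (fun _ => gatB12 x) (datB40 x) (datB82 x) (fun _ => datB02 x) (fun _ => datB12 x) hd hx hx' CW.B022L_480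
    · exact corW_cert (G1 := gB4q0) (G2 := gB8q2) (Ga := gB1q2) (Gb := gB2q2) (D1 := dB4q0) (D2 := dB8q2) (Da := dB1q2) (Db := dB2q2) cB022L_ok B hρ hen (gatB40 x) (gatB82 x) (fun _ => gatB12 x) (fun _ => gatB22 x) (datB40 x) (datB82 x) (fun _ => datB12 x) (fun _ => datB22 x) hd hx hx' CW.B022L_481
    · exact corW_cert (G1 := gB4q0) (G2 := gB8q2) (Ga := gB2q2) (Gb := gB3q2) (D1 := dB4q0) (D2 := dB8q2) (Da := dB2q2) (Db := dB3q2) cB022L_ok B hρ hen (gatB40 x) (gatB82 x) (fun _ => gatB22 x) (fun _ => gatB32 x) (datB40 x) (datB82 x) (fun _ => datB22 x) (fun _ => datB32 x) hd hx hx' CW.B022L_482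
    · exact corW_cert (G1 := gB4q0) (G2 := gB8q2) (Ga := gB3q2) (Gb := gB4q2) (D1 := dB4q0) (D2 := dB8q2) (Da := dB3q2) (Db := dB4q2) cB022L_ok B hρ hen (gatB40 x) (gatB82 x) (fun _ => gatB32 x) (fun _ => gatB42 x) (datB40 x) (datB82 x) (fun _ => datB32 x) (fun _ => datB42 x) hd hx hx' CW.B022L_483
    · exact corW_cert (G1 := gB4q0) (G2 := gB8q2) (Ga := gB4q2) (Gb := gB5q2) (D1 := dB4q0) (D2 := dB8q2) (Da := dB4q2) (Db := dB5q2) cB022L_ok B hρ hen (gatB40 x) (gatB82 x) (fun _ => gatB42 x) (fun h => absurd h (by decide)) (datB40 x) (datB82 x) (fun _ => datB42 x) (fun h => absurd h (by decide)) hd hx hx' CW.B022L_484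
    · exact absurd h2 (by norm_num)
    · exact absurd h2 (by norm_num)
    · exact absurd h2 (by norm_num)
  · intro ρ a B hρ hd i h1 h2
    fin_cases i
    · exact corT_cert (G1 := gB4q0) (G2 := gB8q2) (Ga := gB0q2) (Gb := gB1q2) cB022L_ok B hρ (gatB40 x) (gatB82 x) (fun _ => gatB02 x) (fun _ => gatB12 x) hd hx hx' CG.B022L_480
    · exact corT_cert (G1 := gB4q0) (G2 := gB8q2) (Ga := gB1q2) (Gb := gB2q2) cB022L_ok B hρ (gatB40 x) (gatB82 x) (fun _ => gatB12 x) (fun _ => gatB22 x) hd hx hx' CG.B022L_481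
    · exact corT_cert (G1 := gB4q0) (G2 := gB8q2) (Ga := gB2q2) (Gb := gB3q2) cB022L_ok B hρ (gatB40 x) (gatB82 x) (fun _ => gatB22 x) (fun _ => gatB32 x) hd hx hx' CG.B022L_482
    · exact corT_cert (G1 := gB4q0) (G2 := gB8q2) (Ga := gB3q2) (Gb := gB4q2) cB022L_ok B hρ (gatB40 x) (gatB82 x) (fun _ => gatB32 x) (fun _ => gatB42 x) hd hx hx' CG.B022L_483
    · exact corT_cert (G1 := gB4q0) (G2 := gB8q2) (Ga := gB4q2) (Gb := gB5q2) cB022L_ok B hρ (gatB40 x) (gatB82 x) (fun _ => gatB42 x) (fun h => absurd h (by decide)) hd hx hx' CG.B022L_484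
    · exact absurd h2 (by norm_num)
    · exact absurd h2 (by norm_num)
    · exact absurd h2 (by norm_num)

theorem altB_B022R_00 {κ x : ℝ} (hκ : κ * h0 = ken x) (hx : ((649613803 : ℕ) : ℝ) / S ≤ x) (hx' : x ≤ (((649613803 : ℕ) : ℝ) + (48318383 : ℕ)) / S) :
    AltEB 3 κ (eng.v x) (3 / 40) (tnt (h0 * x) (3 / 10)) PP tK tL tC pcB (scP esg pd) [⟨0, 0, 0, 67108864⟩, ⟨1, 1, 0, 67108864⟩, ⟨2, 1, 0, 67108864⟩] 0 2 2 0 0 (sgb true) (sgb false) x := by
  have X : XR 67108864 x := XR.of hx hx' (by norm_num) (by norm_num) (by norm_num) (by norm_num)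
  have hen : 0 < eng.v x := en_pos X.x0.le
  refine CornW.altB (C := cB022R) (j := (0 : Fin 9)) (k := (0 : Fin 9)) (Ef := esg) (pd := pd) (o := 3 / 40)
    (cornW_of (C := cB022R) (C0 := c0B) (En := eng) (mo := mog) (j := (0 : Fin 9)) (k := (0 : Fin 9)) (lo := 8) (hi := 8) (W := 67108864) (N0 := 3) cB022R_q (sideB hx hx') gokB (pinU hx hx') dokB X (by norm_num) (by norm_num) (l := (8 : Fin 9)) rfl
      (gatB00 x) (gatB02 x) (gatB82 x) (datB00 x) (datB02 x) (datB82 x) ?_)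
    (cornS_of (C := cB022R) (C0 := c0B) (j := (0 : Fin 9)) (k := (0 : Fin 9)) (lo := 8) (hi := 8) (W := 67108864) (N0 := 3) cB022R_q (sideB hx hx') gokB X (by norm_num) (by norm_num) (l := (8 : Fin 9)) rfl
      (gatB00 x) (gatB02 x) (gatB82 x) ?_)
    (thU (pinU hx hx')) rfl hκ (fun j q y => tC_eq j q y x) (esg_rng X.x0.le (by linarith [X.b, X.p0])).1 (mo_v x) le_rfl le_rfl
  · intro ρ a B hρ hd i h1 h2
    fin_cases i
    · exact absurd h1 (by norm_num)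
    · exact absurd h1 (by norm_num)
    · exact absurd h1 (by norm_num)
    · exact absurd h1 (by norm_num)
    · exact absurd h1 (by norm_num)
    · exact absurd h1 (by norm_num)
    · exact absurd h1 (by norm_num)
    · exact corW_cert (G1 := gB0q0) (G2 := gB0q2) (Ga := gB7q2) (Gb := gB8q2) (D1 := dB0q0) (D2 := dB0q2) (Da := dB7q2) (Db := dB8q2) cB022R_ok B hρ hen (gatB00 x) (gatB02 x) (fun h => absurd h (by decide)) (fun _ => gatB82 x) (datB00 x) (datB02 x) (fun h => absurd h (by decide)) (fun _ => datB82 x) hd hx hx' CW.B022R_007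
  · intro ρ a B hρ hd i h1 h2
    fin_cases i
    · exact absurd h1 (by norm_num)
    · exact absurd h1 (by norm_num)
    · exact absurd h1 (by norm_num)
    · exact absurd h1 (by norm_num)
    · exact absurd h1 (by norm_num)
    · exact absurd h1 (by norm_num)
    · exact absurd h1 (by norm_num)
    · exact corT_cert (G1 := gB0q0) (G2 := gB0q2) (Ga := gB7q2) (Gb := gB8q2) cB022R_ok B hρ (gatB00 x) (gatB02 x) (fun h => absurd h (by decide)) (fun _ => gatB82 x) hd hx hx' CG.B022R_007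

theorem altB_B022R_01 {κ x : ℝ} (hκ : κ * h0 = ken x) (hx : ((649613803 : ℕ) : ℝ) / S ≤ x) (hx' : x ≤ (((649613803 : ℕ) : ℝ) + (48318383 : ℕ)) / S) :
    AltEB 3 κ (eng.v x) (3 / 40) (tnt (h0 * x) (3 / 10)) PP tK tL tC pcB (scP esg pd) [⟨0, 0, 0, 67108864⟩, ⟨1, 1, 0, 67108864⟩, ⟨2, 1, 0, 67108864⟩] 0 2 2 0 1 (sgb true) (sgb false) x := by
  have X : XR 67108864 x := XR.of hx hx' (by norm_num) (by norm_num) (by norm_num) (by norm_num)
  have hen : 0 < eng.v x := en_pos X.x0.le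
  refine CornW.altB (C := cB022R) (j := (0 : Fin 9)) (k := (1 : Fin 9)) (Ef := esg) (pd := pd) (o := 3 / 40)
    (cornW_of (C := cB022R) (C0 := c0B) (En := eng) (mo := mog) (j := (0 : Fin 9)) (k := (1 : Fin 9)) (lo := 8) (hi := 8) (W := 67108864) (N0 := 3) cB022R_q (sideB hx hx') gokB (pinU hx hx') dokB X (by norm_num) (by norm_num) (l := (8 : Fin 9)) rfl
      (gatB00 x) (gatB12 x) (gatB82 x) (datB00 x) (datB12 x) (datB82 x) ?_)
    (cornS_of (C := cB022R) (C0 := c0B) (j := (0 : Fin 9)) (k := (1 : Fin 9)) (lo := 8) (hi := 8) (W := 67108864) (N0 := 3) cB022R_q (sideB hx hx') gokB X (by norm_num) (by norm_num) (l := (8 : Fin 9)) rfl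
      (gatB00 x) (gatB12 x) (gatB82 x) ?_)
    (thU (pinU hx hx')) rfl hκ (fun j q y => tC_eq j q y x) (esg_rng X.x0.le (by linarith [X.b, X.p0])).1 (mo_v x) le_rfl le_rfl
  · intro ρ a B hρ hd i h1 h2
    fin_cases i
    · exact absurd h1 (by norm_num)
    · exact absurd h1 (by norm_num)
    · exact absurd h1 (by norm_num)
    · exact absurd h1 (by norm_num)
    · exact absurd h1 (by norm_num)
    · exact absurd h1 (by norm_num)
    · exact absurd h1 (by norm_num)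
    · exact corW_cert (G1 := gB0q0) (G2 := gB1q2) (Ga := gB7q2) (Gb := gB8q2) (D1 := dB0q0) (D2 := dB1q2) (Da := dB7q2) (Db := dB8q2) cB022R_ok B hρ hen (gatB00 x) (gatB12 x) (fun h => absurd h (by decide)) (fun _ => gatB82 x) (datB00 x) (datB12 x) (fun h => absurd h (by decide)) (fun _ => datB82 x) hd hx hx' CW.B022R_017
  · intro ρ a B hρ hd i h1 h2
    fin_cases i
    · exact absurd h1 (by norm_num)
    · exact absurd h1 (by norm_num)
    · exact absurd h1 (by norm_num)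
    · exact absurd h1 (by norm_num)
    · exact absurd h1 (by norm_num)
    · exact absurd h1 (by norm_num)
    · exact absurd h1 (by norm_num)
    · exact corT_cert (G1 := gB0q0) (G2 := gB1q2) (Ga := gB7q2) (Gb := gB8q2) cB022R_ok B hρ (gatB00 x) (gatB12 x) (fun h => absurd h (by decide)) (fun _ => gatB82 x) hd hx hx' CG.B022R_017

theorem altB_B022R_02 {κ x : ℝ} (hκ : κ * h0 = ken x) (hx : ((649613803 : ℕ) : ℝ) / S ≤ x) (hx' : x ≤ (((649613803 : ℕ) : ℝ) + (48318383 : ℕ)) / S) :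
    AltEB 3 κ (eng.v x) (3 / 40) (tnt (h0 * x) (3 / 10)) PP tK tL tC pcB (scP esg pd) [⟨0, 0, 0, 67108864⟩, ⟨1, 1, 0, 67108864⟩, ⟨2, 1, 0, 67108864⟩] 0 2 2 0 2 (sgb true) (sgb false) x := by
  have X : XR 67108864 x := XR.of hx hx' (by norm_num) (by norm_num) (by norm_num) (by norm_num)
  have hen : 0 < eng.v x := en_pos X.x0.le
  refine CornW.altB (C := cB022R) (j := (0 : Fin 9)) (k := (2 : Fin 9)) (Ef := esg) (pd := pd) (o := 3 / 40)
    (cornW_of (C := cB022R) (C0 := c0B) (En := eng) (mo := mog) (j := (0 : Fin 9)) (k := (2 : Fin 9)) (lo := 8) (hi := 8) (W := 67108864) (N0 := 3) cB022R_q (sideB hx hx') gokB (pinU hx hx') dokB X (by norm_num) (by norm_num) (l := (8 : Fin 9)) rfl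
      (gatB00 x) (gatB22 x) (gatB82 x) (datB00 x) (datB22 x) (datB82 x) ?_)
    (cornS_of (C := cB022R) (C0 := c0B) (j := (0 : Fin 9)) (k := (2 : Fin 9)) (lo := 8) (hi := 8) (W := 67108864) (N0 := 3) cB022R_q (sideB hx hx') gokB X (by norm_num) (by norm_num) (l := (8 : Fin 9)) rfl
      (gatB00 x) (gatB22 x) (gatB82 x) ?_)
    (thU (pinU hx hx')) rfl hκ (fun j q y => tC_eq j q y x) (esg_rng X.x0.le (by linarith [X.b, X.p0])).1 (mo_v x) le_rfl le_rfl
  · intro ρ a B hρ hd i h1 h2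
    fin_cases i
    · exact absurd h1 (by norm_num)
    · exact absurd h1 (by norm_num)
    · exact absurd h1 (by norm_num)
    · exact absurd h1 (by norm_num)
    · exact absurd h1 (by norm_num)
    · exact absurd h1 (by norm_num)
    · exact absurd h1 (by norm_num)
    · exact corW_cert (G1 := gB0q0) (G2 := gB2q2) (Ga := gB7q2) (Gb := gB8q2) (D1 := dB0q0) (D2 := dB2q2) (Da := dB7q2) (Db := dB8q2) cB022R_ok B hρ hen (gatB00 x) (gatB22 x) (fun h => absurd h (by decide)) (fun _ => gatB82 x) (datB00 x) (datB22 x) (fun h => absurd h (by decide)) (fun _ => datB82 x) hd hx hx' CW.B022R_027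
  · intro ρ a B hρ hd i h1 h2
    fin_cases i
    · exact absurd h1 (by norm_num)
    · exact absurd h1 (by norm_num)
    · exact absurd h1 (by norm_num)
    · exact absurd h1 (by norm_num)
    · exact absurd h1 (by norm_num)
    · exact absurd h1 (by norm_num)
    · exact absurd h1 (by norm_num)
    · exact corT_cert (G1 := gB0q0) (G2 := gB2q2) (Ga := gB7q2) (Gb := gB8q2) cB022R_ok B hρ (gatB00 x) (gatB22 x) (fun h => absurd h (by decide)) (fun _ => gatB82 x) hd hx hx' CG.B022R_027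

theorem altB_B022R_03 {κ x : ℝ} (hκ : κ * h0 = ken x) (hx : ((649613803 : ℕ) : ℝ) / S ≤ x) (hx' : x ≤ (((649613803 : ℕ) : ℝ) + (48318383 : ℕ)) / S) :
    AltEB 3 κ (eng.v x) (3 / 40) (tnt (h0 * x) (3 / 10)) PP tK tL tC pcB (scP esg pd) [⟨0, 0, 0, 67108864⟩, ⟨1, 1, 0, 67108864⟩, ⟨2, 1, 0, 67108864⟩] 0 2 2 0 3 (sgb true) (sgb false) x := by
  have X : XR 67108864 x := XR.of hx hx' (by norm_num) (by norm_num) (by norm_num) (by norm_num)
  have hen : 0 < eng.v x := en_pos X.x0.le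
  refine CornW.altB (C := cB022R) (j := (0 : Fin 9)) (k := (3 : Fin 9)) (Ef := esg) (pd := pd) (o := 3 / 40)
    (cornW_of (C := cB022R) (C0 := c0B) (En := eng) (mo := mog) (j := (0 : Fin 9)) (k := (3 : Fin 9)) (lo := 8) (hi := 8) (W := 67108864) (N0 := 3) cB022R_q (sideB hx hx') gokB (pinU hx hx') dokB X (by norm_num) (by norm_num) (l := (8 : Fin 9)) rfl
      (gatB00 x) (gatB32 x) (gatB82 x) (datB00 x) (datB32 x) (datB82 x) ?_)
    (cornS_of (C := cB022R) (C0 := c0B) (j := (0 : Fin 9)) (k := (3 : Fin 9)) (lo := 8) (hi := 8) (W := 67108864) (N0 := 3) cB022R_q (sideB hx hx') gokB X (by norm_num) (by norm_num) (l := (8 : Fin 9)) rfl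
      (gatB00 x) (gatB32 x) (gatB82 x) ?_)
    (thU (pinU hx hx')) rfl hκ (fun j q y => tC_eq j q y x) (esg_rng X.x0.le (by linarith [X.b, X.p0])).1 (mo_v x) le_rfl le_rfl
  · intro ρ a B hρ hd i h1 h2
    fin_cases i
    · exact absurd h1 (by norm_num)
    · exact absurd h1 (by norm_num)
    · exact absurd h1 (by norm_num)
    · exact absurd h1 (by norm_num)
    · exact absurd h1 (by norm_num)
    · exact absurd h1 (by norm_num)
    · exact absurd h1 (by norm_num)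
    · exact corW_cert (G1 := gB0q0) (G2 := gB3q2) (Ga := gB7q2) (Gb := gB8q2) (D1 := dB0q0) (D2 := dB3q2) (Da := dB7q2) (Db := dB8q2) cB022R_ok B hρ hen (gatB00 x) (gatB32 x) (fun h => absurd h (by decide)) (fun _ => gatB82 x) (datB00 x) (datB32 x) (fun h => absurd h (by decide)) (fun _ => datB82 x) hd hx hx' CW.B022R_037
  · intro ρ a B hρ hd i h1 h2
    fin_cases i
    · exact absurd h1 (by norm_num)
    · exact absurd h1 (by norm_num)
    · exact absurd h1 (by norm_num)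
    · exact absurd h1 (by norm_num)
    · exact absurd h1 (by norm_num)
    · exact absurd h1 (by norm_num)
    · exact absurd h1 (by norm_num)
    · exact corT_cert (G1 := gB0q0) (G2 := gB3q2) (Ga := gB7q2) (Gb := gB8q2) cB022R_ok B hρ (gatB00 x) (gatB32 x) (fun h => absurd h (by decide)) (fun _ => gatB82 x) hd hx hx' CG.B022R_037

theorem altB_B022R_04 {κ x : ℝ} (hκ : κ * h0 = ken x) (hx : ((649613803 : ℕ) : ℝ) / S ≤ x) (hx' : x ≤ (((649613803 : ℕ) : ℝ) + (48318383 : ℕ)) / S) :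
    AltEB 3 κ (eng.v x) (3 / 40) (tnt (h0 * x) (3 / 10)) PP tK tL tC pcB (scP esg pd) [⟨0, 0, 0, 67108864⟩, ⟨1, 1, 0, 67108864⟩, ⟨2, 1, 0, 67108864⟩] 0 2 2 0 4 (sgb true) (sgb false) x := by
  have X : XR 67108864 x := XR.of hx hx' (by norm_num) (by norm_num) (by norm_num) (by norm_num)
  have hen : 0 < eng.v x := en_pos X.x0.le
  refine CornW.altB (C := cB022R) (j := (0 : Fin 9)) (k := (4 : Fin 9)) (Ef := esg) (pd := pd) (o := 3 / 40)
    (cornW_of (C := cB022R) (C0 := c0B) (En := eng) (mo := mog) (j := (0 : Fin 9)) (k := (4 : Fin 9)) (lo := 8) (hi := 8) (W := 67108864) (N0 := 3) cB022R_q (sideB hx hx') gokB (pinU hx hx') dokB X (by norm_num) (by norm_num) (l := (8 : Fin 9)) rfl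
      (gatB00 x) (gatB42 x) (gatB82 x) (datB00 x) (datB42 x) (datB82 x) ?_)
    (cornS_of (C := cB022R) (C0 := c0B) (j := (0 : Fin 9)) (k := (4 : Fin 9)) (lo := 8) (hi := 8) (W := 67108864) (N0 := 3) cB022R_q (sideB hx hx') gokB X (by norm_num) (by norm_num) (l := (8 : Fin 9)) rfl
      (gatB00 x) (gatB42 x) (gatB82 x) ?_)
    (thU (pinU hx hx')) rfl hκ (fun j q y => tC_eq j q y x) (esg_rng X.x0.le (by linarith [X.b, X.p0])).1 (mo_v x) le_rfl le_rfl
  · intro ρ a B hρ hd i h1 h2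
    fin_cases i
    · exact absurd h1 (by norm_num)
    · exact absurd h1 (by norm_num)
    · exact absurd h1 (by norm_num)
    · exact absurd h1 (by norm_num)
    · exact absurd h1 (by norm_num)
    · exact absurd h1 (by norm_num)
    · exact absurd h1 (by norm_num)
    · exact corW_cert (G1 := gB0q0) (G2 := gB4q2) (Ga := gB7q2) (Gb := gB8q2) (D1 := dB0q0) (D2 := dB4q2) (Da := dB7q2) (Db := dB8q2) cB022R_ok B hρ hen (gatB00 x) (gatB42 x) (fun h => absurd h (by decide)) (fun _ => gatB82 x) (datB00 x) (datB42 x) (fun h => absurd h (by decide)) (fun _ => datB82 x) hd hx hx' CW.B022R_047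
  · intro ρ a B hρ hd i h1 h2
    fin_cases i
    · exact absurd h1 (by norm_num)
    · exact absurd h1 (by norm_num)
    · exact absurd h1 (by norm_num)
    · exact absurd h1 (by norm_num)
    · exact absurd h1 (by norm_num)
    · exact absurd h1 (by norm_num)
    · exact absurd h1 (by norm_num)
    · exact corT_cert (G1 := gB0q0) (G2 := gB4q2) (Ga := gB7q2) (Gb := gB8q2) cB022R_ok B hρ (gatB00 x) (gatB42 x) (fun h => absurd h (by decide)) (fun _ => gatB82 x) hd hx hx' CG.B022R_047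

theorem altB_B022R_10 {κ x : ℝ} (hκ : κ * h0 = ken x) (hx : ((649613803 : ℕ) : ℝ) / S ≤ x) (hx' : x ≤ (((649613803 : ℕ) : ℝ) + (48318383 : ℕ)) / S) :
    AltEB 3 κ (eng.v x) (3 / 40) (tnt (h0 * x) (3 / 10)) PP tK tL tC pcB (scP esg pd) [⟨0, 0, 0, 67108864⟩, ⟨1, 1, 0, 67108864⟩, ⟨2, 1, 0, 67108864⟩] 0 2 2 1 0 (sgb true) (sgb false) x := by
  have X : XR 67108864 x := XR.of hx hx' (by norm_num) (by norm_num) (by norm_num) (by norm_num)
  have hen : 0 < eng.v x := en_pos X.x0.le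
  refine CornW.altB (C := cB022R) (j := (1 : Fin 9)) (k := (0 : Fin 9)) (Ef := esg) (pd := pd) (o := 3 / 40)
    (cornW_of (C := cB022R) (C0 := c0B) (En := eng) (mo := mog) (j := (1 : Fin 9)) (k := (0 : Fin 9)) (lo := 8) (hi := 8) (W := 67108864) (N0 := 3) cB022R_q (sideB hx hx') gokB (pinU hx hx') dokB X (by norm_num) (by norm_num) (l := (8 : Fin 9)) rfl
      (gatB10 x) (gatB02 x) (gatB82 x) (datB10 x) (datB02 x) (datB82 x) ?_)
    (cornS_of (C := cB022R) (C0 := c0B) (j := (1 : Fin 9)) (k := (0 : Fin 9)) (lo := 8) (hi := 8) (W := 67108864) (N0 := 3) cB022R_q (sideB hx hx') gokB X (by norm_num) (by norm_num) (l := (8 : Fin 9)) rfl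
      (gatB10 x) (gatB02 x) (gatB82 x) ?_)
    (thU (pinU hx hx')) rfl hκ (fun j q y => tC_eq j q y x) (esg_rng X.x0.le (by linarith [X.b, X.p0])).1 (mo_v x) le_rfl le_rfl
  · intro ρ a B hρ hd i h1 h2
    fin_cases i
    · exact absurd h1 (by norm_num)
    · exact absurd h1 (by norm_num)
    · exact absurd h1 (by norm_num)
    · exact absurd h1 (by norm_num)
    · exact absurd h1 (by norm_num)
    · exact absurd h1 (by norm_num)
    · exact absurd h1 (by norm_num)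
    · exact corW_cert (G1 := gB1q0) (G2 := gB0q2) (Ga := gB7q2) (Gb := gB8q2) (D1 := dB1q0) (D2 := dB0q2) (Da := dB7q2) (Db := dB8q2) cB022R_ok B hρ hen (gatB10 x) (gatB02 x) (fun h => absurd h (by decide)) (fun _ => gatB82 x) (datB10 x) (datB02 x) (fun h => absurd h (by decide)) (fun _ => datB82 x) hd hx hx' CW.B022R_107
  · intro ρ a B hρ hd i h1 h2
    fin_cases i
    · exact absurd h1 (by norm_num)
    · exact absurd h1 (by norm_num)
    · exact absurd h1 (by norm_num)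
    · exact absurd h1 (by norm_num)
    · exact absurd h1 (by norm_num)
    · exact absurd h1 (by norm_num)
    · exact absurd h1 (by norm_num)
    · exact corT_cert (G1 := gB1q0) (G2 := gB0q2) (Ga := gB7q2) (Gb := gB8q2) cB022R_ok B hρ (gatB10 x) (gatB02 x) (fun h => absurd h (by decide)) (fun _ => gatB82 x) hd hx hx' CG.B022R_107

theorem altB_B022R_11 {κ x : ℝ} (hκ : κ * h0 = ken x) (hx : ((649613803 : ℕ) : ℝ) / S ≤ x) (hx' : x ≤ (((649613803 : ℕ) : ℝ) + (48318383 : ℕ)) / S) :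
    AltEB 3 κ (eng.v x) (3 / 40) (tnt (h0 * x) (3 / 10)) PP tK tL tC pcB (scP esg pd) [⟨0, 0, 0, 67108864⟩, ⟨1, 1, 0, 67108864⟩, ⟨2, 1, 0, 67108864⟩] 0 2 2 1 1 (sgb true) (sgb false) x := by
  have X : XR 67108864 x := XR.of hx hx' (by norm_num) (by norm_num) (by norm_num) (by norm_num)
  have hen : 0 < eng.v x := en_pos X.x0.le
  refine CornW.altB (C := cB022R) (j := (1 : Fin 9)) (k := (1 : Fin 9)) (Ef := esg) (pd := pd) (o := 3 / 40)
    (cornW_of (C := cB022R) (C0 := c0B) (En := eng) (mo := mog) (j := (1 : Fin 9)) (k := (1 : Fin 9)) (lo := 8) (hi := 8) (W := 67108864) (N0 := 3) cB022R_q (sideB hx hx') gokB (pinU hx hx') dokB X (by norm_num) (by norm_num) (l := (8 : Fin 9)) rfl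
      (gatB10 x) (gatB12 x) (gatB82 x) (datB10 x) (datB12 x) (datB82 x) ?_)
    (cornS_of (C := cB022R) (C0 := c0B) (j := (1 : Fin 9)) (k := (1 : Fin 9)) (lo := 8) (hi := 8) (W := 67108864) (N0 := 3) cB022R_q (sideB hx hx') gokB X (by norm_num) (by norm_num) (l := (8 : Fin 9)) rfl
      (gatB10 x) (gatB12 x) (gatB82 x) ?_)
    (thU (pinU hx hx')) rfl hκ (fun j q y => tC_eq j q y x) (esg_rng X.x0.le (by linarith [X.b, X.p0])).1 (mo_v x) le_rfl le_rfl
  · intro ρ a B hρ hd i h1 h2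
    fin_cases i
    · exact absurd h1 (by norm_num)
    · exact absurd h1 (by norm_num)
    · exact absurd h1 (by norm_num)
    · exact absurd h1 (by norm_num)
    · exact absurd h1 (by norm_num)
    · exact absurd h1 (by norm_num)
    · exact absurd h1 (by norm_num)
    · exact corW_cert (G1 := gB1q0) (G2 := gB1q2) (Ga := gB7q2) (Gb := gB8q2) (D1 := dB1q0) (D2 := dB1q2) (Da := dB7q2) (Db := dB8q2) cB022R_ok B hρ hen (gatB10 x) (gatB12 x) (fun h => absurd h (by decide)) (fun _ => gatB82 x) (datB10 x) (datB12 x) (fun h => absurd h (by decide)) (fun _ => datB82 x) hd hx hx' CW.B022R_117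
  · intro ρ a B hρ hd i h1 h2
    fin_cases i
    · exact absurd h1 (by norm_num)
    · exact absurd h1 (by norm_num)
    · exact absurd h1 (by norm_num)
    · exact absurd h1 (by norm_num)
    · exact absurd h1 (by norm_num)
    · exact absurd h1 (by norm_num)
    · exact absurd h1 (by norm_num)
    · exact corT_cert (G1 := gB1q0) (G2 := gB1q2) (Ga := gB7q2) (Gb := gB8q2) cB022R_ok B hρ (gatB10 x) (gatB12 x) (fun h => absurd h (by decide)) (fun _ => gatB82 x) hd hx hx' CG.B022R_117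

theorem altB_B022R_12 {κ x : ℝ} (hκ : κ * h0 = ken x) (hx : ((649613803 : ℕ) : ℝ) / S ≤ x) (hx' : x ≤ (((649613803 : ℕ) : ℝ) + (48318383 : ℕ)) / S) :
    AltEB 3 κ (eng.v x) (3 / 40) (tnt (h0 * x) (3 / 10)) PP tK tL tC pcB (scP esg pd) [⟨0, 0, 0, 67108864⟩, ⟨1, 1, 0, 67108864⟩, ⟨2, 1, 0, 67108864⟩] 0 2 2 1 2 (sgb true) (sgb false) x := by
  have X : XR 67108864 x := XR.of hx hx' (by norm_num) (by norm_num) (by norm_num) (by norm_num)
  have hen : 0 < eng.v x := en_pos X.x0.le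
  refine CornW.altB (C := cB022R) (j := (1 : Fin 9)) (k := (2 : Fin 9)) (Ef := esg) (pd := pd) (o := 3 / 40)
    (cornW_of (C := cB022R) (C0 := c0B) (En := eng) (mo := mog) (j := (1 : Fin 9)) (k := (2 : Fin 9)) (lo := 8) (hi := 8) (W := 67108864) (N0 := 3) cB022R_q (sideB hx hx') gokB (pinU hx hx') dokB X (by norm_num) (by norm_num) (l := (8 : Fin 9)) rfl
      (gatB10 x) (gatB22 x) (gatB82 x) (datB10 x) (datB22 x) (datB82 x) ?_)
    (cornS_of (C := cB022R) (C0 := c0B) (j := (1 : Fin 9)) (k := (2 : Fin 9)) (lo := 8) (hi := 8) (W := 67108864) (N0 := 3) cB022R_q (sideB hx hx') gokB X (by norm_num) (by norm_num) (l := (8 : Fin 9)) rfl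
      (gatB10 x) (gatB22 x) (gatB82 x) ?_)
    (thU (pinU hx hx')) rfl hκ (fun j q y => tC_eq j q y x) (esg_rng X.x0.le (by linarith [X.b, X.p0])).1 (mo_v x) le_rfl le_rfl
  · intro ρ a B hρ hd i h1 h2
    fin_cases i
    · exact absurd h1 (by norm_num)
    · exact absurd h1 (by norm_num)
    · exact absurd h1 (by norm_num)
    · exact absurd h1 (by norm_num)
    · exact absurd h1 (by norm_num)
    · exact absurd h1 (by norm_num)
    · exact absurd h1 (by norm_num)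
    · exact corW_cert (G1 := gB1q0) (G2 := gB2q2) (Ga := gB7q2) (Gb := gB8q2) (D1 := dB1q0) (D2 := dB2q2) (Da := dB7q2) (Db := dB8q2) cB022R_ok B hρ hen (gatB10 x) (gatB22 x) (fun h => absurd h (by decide)) (fun _ => gatB82 x) (datB10 x) (datB22 x) (fun h => absurd h (by decide)) (fun _ => datB82 x) hd hx hx' CW.B022R_127
  · intro ρ a B hρ hd i h1 h2
    fin_cases i
    · exact absurd h1 (by norm_num)
    · exact absurd h1 (by norm_num)
    · exact absurd h1 (by norm_num)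
    · exact absurd h1 (by norm_num)
    · exact absurd h1 (by norm_num)
    · exact absurd h1 (by norm_num)
    · exact absurd h1 (by norm_num)
    · exact corT_cert (G1 := gB1q0) (G2 := gB2q2) (Ga := gB7q2) (Gb := gB8q2) cB022R_ok B hρ (gatB10 x) (gatB22 x) (fun h => absurd h (by decide)) (fun _ => gatB82 x) hd hx hx' CG.B022R_127

theorem altB_B022R_13 {κ x : ℝ} (hκ : κ * h0 = ken x) (hx : ((649613803 : ℕ) : ℝ) / S ≤ x) (hx' : x ≤ (((649613803 : ℕ) : ℝ) + (48318383 : ℕ)) / S) :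
    AltEB 3 κ (eng.v x) (3 / 40) (tnt (h0 * x) (3 / 10)) PP tK tL tC pcB (scP esg pd) [⟨0, 0, 0, 67108864⟩, ⟨1, 1, 0, 67108864⟩, ⟨2, 1, 0, 67108864⟩] 0 2 2 1 3 (sgb true) (sgb false) x := by
  have X : XR 67108864 x := XR.of hx hx' (by norm_num) (by norm_num) (by norm_num) (by norm_num)
  have hen : 0 < eng.v x := en_pos X.x0.le
  refine CornW.altB (C := cB022R) (j := (1 : Fin 9)) (k := (3 : Fin 9)) (Ef := esg) (pd := pd) (o := 3 / 40)
    (cornW_of (C := cB022R) (C0 := c0B) (En := eng) (mo := mog) (j := (1 : Fin 9)) (k := (3 : Fin 9)) (lo := 8) (hi := 8) (W := 67108864) (N0 := 3) cB022R_q (sideB hx hx') gokB (pinU hx hx') dokB X (by norm_num) (by norm_num) (l := (8 : Fin 9)) rfl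
      (gatB10 x) (gatB32 x) (gatB82 x) (datB10 x) (datB32 x) (datB82 x) ?_)
    (cornS_of (C := cB022R) (C0 := c0B) (j := (1 : Fin 9)) (k := (3 : Fin 9)) (lo := 8) (hi := 8) (W := 67108864) (N0 := 3) cB022R_q (sideB hx hx') gokB X (by norm_num) (by norm_num) (l := (8 : Fin 9)) rfl
      (gatB10 x) (gatB32 x) (gatB82 x) ?_)
    (thU (pinU hx hx')) rfl hκ (fun j q y => tC_eq j q y x) (esg_rng X.x0.le (by linarith [X.b, X.p0])).1 (mo_v x) le_rfl le_rfl
  · intro ρ a B hρ hd i h1 h2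
    fin_cases i
    · exact absurd h1 (by norm_num)
    · exact absurd h1 (by norm_num)
    · exact absurd h1 (by norm_num)
    · exact absurd h1 (by norm_num)
    · exact absurd h1 (by norm_num)
    · exact absurd h1 (by norm_num)
    · exact absurd h1 (by norm_num)
    · exact corW_cert (G1 := gB1q0) (G2 := gB3q2) (Ga := gB7q2) (Gb := gB8q2) (D1 := dB1q0) (D2 := dB3q2) (Da := dB7q2) (Db := dB8q2) cB022R_ok B hρ hen (gatB10 x) (gatB32 x) (fun h => absurd h (by decide)) (fun _ => gatB82 x) (datB10 x) (datB32 x) (fun h => absurd h (by decide)) (fun _ => datB82 x) hd hx hx' CW.B022R_137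
  · intro ρ a B hρ hd i h1 h2
    fin_cases i
    · exact absurd h1 (by norm_num)
    · exact absurd h1 (by norm_num)
    · exact absurd h1 (by norm_num)
    · exact absurd h1 (by norm_num)
    · exact absurd h1 (by norm_num)
    · exact absurd h1 (by norm_num)
    · exact absurd h1 (by norm_num)
    · exact corT_cert (G1 := gB1q0) (G2 := gB3q2) (Ga := gB7q2) (Gb := gB8q2) cB022R_ok B hρ (gatB10 x) (gatB32 x) (fun h => absurd h (by decide)) (fun _ => gatB82 x) hd hx hx' CG.B022R_137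

theorem altB_B022R_14 {κ x : ℝ} (hκ : κ * h0 = ken x) (hx : ((649613803 : ℕ) : ℝ) / S ≤ x) (hx' : x ≤ (((649613803 : ℕ) : ℝ) + (48318383 : ℕ)) / S) :
    AltEB 3 κ (eng.v x) (3 / 40) (tnt (h0 * x) (3 / 10)) PP tK tL tC pcB (scP esg pd) [⟨0, 0, 0, 67108864⟩, ⟨1, 1, 0, 67108864⟩, ⟨2, 1, 0, 67108864⟩] 0 2 2 1 4 (sgb true) (sgb false) x := by
  have X : XR 67108864 x := XR.of hx hx' (by norm_num) (by norm_num) (by norm_num) (by norm_num)
  have hen : 0 < eng.v x := en_pos X.x0.le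
  refine CornW.altB (C := cB022R) (j := (1 : Fin 9)) (k := (4 : Fin 9)) (Ef := esg) (pd := pd) (o := 3 / 40)
    (cornW_of (C := cB022R) (C0 := c0B) (En := eng) (mo := mog) (j := (1 : Fin 9)) (k := (4 : Fin 9)) (lo := 8) (hi := 8) (W := 67108864) (N0 := 3) cB022R_q (sideB hx hx') gokB (pinU hx hx') dokB X (by norm_num) (by norm_num) (l := (8 : Fin 9)) rfl
      (gatB10 x) (gatB42 x) (gatB82 x) (datB10 x) (datB42 x) (datB82 x) ?_)
    (cornS_of (C := cB022R) (C0 := c0B) (j := (1 : Fin 9)) (k := (4 : Fin 9)) (lo := 8) (hi := 8) (W := 67108864) (N0 := 3) cB022R_q (sideB hx hx') gokB X (by norm_num) (by norm_num) (l := (8 : Fin 9)) rfl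
      (gatB10 x) (gatB42 x) (gatB82 x) ?_)
    (thU (pinU hx hx')) rfl hκ (fun j q y => tC_eq j q y x) (esg_rng X.x0.le (by linarith [X.b, X.p0])).1 (mo_v x) le_rfl le_rfl
  · intro ρ a B hρ hd i h1 h2
    fin_cases i
    · exact absurd h1 (by norm_num)
    · exact absurd h1 (by norm_num)
    · exact absurd h1 (by norm_num)
    · exact absurd h1 (by norm_num)
    · exact absurd h1 (by norm_num)
    · exact absurd h1 (by norm_num)
    · exact absurd h1 (by norm_num)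
    · exact corW_cert (G1 := gB1q0) (G2 := gB4q2) (Ga := gB7q2) (Gb := gB8q2) (D1 := dB1q0) (D2 := dB4q2) (Da := dB7q2) (Db := dB8q2) cB022R_ok B hρ hen (gatB10 x) (gatB42 x) (fun h => absurd h (by decide)) (fun _ => gatB82 x) (datB10 x) (datB42 x) (fun h => absurd h (by decide)) (fun _ => datB82 x) hd hx hx' CW.B022R_147
  · intro ρ a B hρ hd i h1 h2
    fin_cases i
    · exact absurd h1 (by norm_num)
    · exact absurd h1 (by norm_num)
    · exact absurd h1 (by norm_num)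
    · exact absurd h1 (by norm_num)
    · exact absurd h1 (by norm_num)
    · exact absurd h1 (by norm_num)
    · exact absurd h1 (by norm_num)
    · exact corT_cert (G1 := gB1q0) (G2 := gB4q2) (Ga := gB7q2) (Gb := gB8q2) cB022R_ok B hρ (gatB10 x) (gatB42 x) (fun h => absurd h (by decide)) (fun _ => gatB82 x) hd hx hx' CG.B022R_147

theorem altB_B022R_20 {κ x : ℝ} (hκ : κ * h0 = ken x) (hx : ((649613803 : ℕ) : ℝ) / S ≤ x) (hx' : x ≤ (((649613803 : ℕ) : ℝ) + (48318383 : ℕ)) / S) :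
    AltEB 3 κ (eng.v x) (3 / 40) (tnt (h0 * x) (3 / 10)) PP tK tL tC pcB (scP esg pd) [⟨0, 0, 0, 67108864⟩, ⟨1, 1, 0, 67108864⟩, ⟨2, 1, 0, 67108864⟩] 0 2 2 2 0 (sgb true) (sgb false) x := by
  have X : XR 67108864 x := XR.of hx hx' (by norm_num) (by norm_num) (by norm_num) (by norm_num)
  have hen : 0 < eng.v x := en_pos X.x0.le
  refine CornW.altB (C := cB022R) (j := (2 : Fin 9)) (k := (0 : Fin 9)) (Ef := esg) (pd := pd) (o := 3 / 40)
    (cornW_of (C := cB022R) (C0 := c0B) (En := eng) (mo := mog) (j := (2 : Fin 9)) (k := (0 : Fin 9)) (lo := 8) (hi := 8) (W := 67108864) (N0 := 3) cB022R_q (sideB hx hx') gokB (pinU hx hx') dokB X (by norm_num) (by norm_num) (l := (8 : Fin 9)) rfl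
      (gatB20 x) (gatB02 x) (gatB82 x) (datB20 x) (datB02 x) (datB82 x) ?_)
    (cornS_of (C := cB022R) (C0 := c0B) (j := (2 : Fin 9)) (k := (0 : Fin 9)) (lo := 8) (hi := 8) (W := 67108864) (N0 := 3) cB022R_q (sideB hx hx') gokB X (by norm_num) (by norm_num) (l := (8 : Fin 9)) rfl
      (gatB20 x) (gatB02 x) (gatB82 x) ?_)
    (thU (pinU hx hx')) rfl hκ (fun j q y => tC_eq j q y x) (esg_rng X.x0.le (by linarith [X.b, X.p0])).1 (mo_v x) le_rfl le_rfl
  · intro ρ a B hρ hd i h1 h2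
    fin_cases i
    · exact absurd h1 (by norm_num)
    · exact absurd h1 (by norm_num)
    · exact absurd h1 (by norm_num)
    · exact absurd h1 (by norm_num)
    · exact absurd h1 (by norm_num)
    · exact absurd h1 (by norm_num)
    · exact absurd h1 (by norm_num)
    · exact corW_cert (G1 := gB2q0) (G2 := gB0q2) (Ga := gB7q2) (Gb := gB8q2) (D1 := dB2q0) (D2 := dB0q2) (Da := dB7q2) (Db := dB8q2) cB022R_ok B hρ hen (gatB20 x) (gatB02 x) (fun h => absurd h (by decide)) (fun _ => gatB82 x) (datB20 x) (datB02 x) (fun h => absurd h (by decide)) (fun _ => datB82 x) hd hx hx' CW.B022R_207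
  · intro ρ a B hρ hd i h1 h2
    fin_cases i
    · exact absurd h1 (by norm_num)
    · exact absurd h1 (by norm_num)
    · exact absurd h1 (by norm_num)
    · exact absurd h1 (by norm_num)
    · exact absurd h1 (by norm_num)
    · exact absurd h1 (by norm_num)
    · exact absurd h1 (by norm_num)
    · exact corT_cert (G1 := gB2q0) (G2 := gB0q2) (Ga := gB7q2) (Gb := gB8q2) cB022R_ok B hρ (gatB20 x) (gatB02 x) (fun h => absurd h (by decide)) (fun _ => gatB82 x) hd hx hx' CG.B022R_207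

theorem altB_B022R_21 {κ x : ℝ} (hκ : κ * h0 = ken x) (hx : ((649613803 : ℕ) : ℝ) / S ≤ x) (hx' : x ≤ (((649613803 : ℕ) : ℝ) + (48318383 : ℕ)) / S) :
    AltEB 3 κ (eng.v x) (3 / 40) (tnt (h0 * x) (3 / 10)) PP tK tL tC pcB (scP esg pd) [⟨0, 0, 0, 67108864⟩, ⟨1, 1, 0, 67108864⟩, ⟨2, 1, 0, 67108864⟩] 0 2 2 2 1 (sgb true) (sgb false) x := by
  have X : XR 67108864 x := XR.of hx hx' (by norm_num) (by norm_num) (by norm_num) (by norm_num)
  have hen : 0 < eng.v x := en_pos X.x0.le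
  refine CornW.altB (C := cB022R) (j := (2 : Fin 9)) (k := (1 : Fin 9)) (Ef := esg) (pd := pd) (o := 3 / 40)
    (cornW_of (C := cB022R) (C0 := c0B) (En := eng) (mo := mog) (j := (2 : Fin 9)) (k := (1 : Fin 9)) (lo := 8) (hi := 8) (W := 67108864) (N0 := 3) cB022R_q (sideB hx hx') gokB (pinU hx hx') dokB X (by norm_num) (by norm_num) (l := (8 : Fin 9)) rfl
      (gatB20 x) (gatB12 x) (gatB82 x) (datB20 x) (datB12 x) (datB82 x) ?_)
    (cornS_of (C := cB022R) (C0 := c0B) (j := (2 : Fin 9)) (k := (1 : Fin 9)) (lo := 8) (hi := 8) (W := 67108864) (N0 := 3) cB022R_q (sideB hx hx') gokB X (by norm_num) (by norm_num) (l := (8 : Fin 9)) rfl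
      (gatB20 x) (gatB12 x) (gatB82 x) ?_)
    (thU (pinU hx hx')) rfl hκ (fun j q y => tC_eq j q y x) (esg_rng X.x0.le (by linarith [X.b, X.p0])).1 (mo_v x) le_rfl le_rfl
  · intro ρ a B hρ hd i h1 h2
    fin_cases i
    · exact absurd h1 (by norm_num)
    · exact absurd h1 (by norm_num)
    · exact absurd h1 (by norm_num)
    · exact absurd h1 (by norm_num)
    · exact absurd h1 (by norm_num)
    · exact absurd h1 (by norm_num)
    · exact absurd h1 (by norm_num)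
    · exact corW_cert (G1 := gB2q0) (G2 := gB1q2) (Ga := gB7q2) (Gb := gB8q2) (D1 := dB2q0) (D2 := dB1q2) (Da := dB7q2) (Db := dB8q2) cB022R_ok B hρ hen (gatB20 x) (gatB12 x) (fun h => absurd h (by decide)) (fun _ => gatB82 x) (datB20 x) (datB12 x) (fun h => absurd h (by decide)) (fun _ => datB82 x) hd hx hx' CW.B022R_217
  · intro ρ a B hρ hd i h1 h2
    fin_cases i
    · exact absurd h1 (by norm_num)
    · exact absurd h1 (by norm_num)
    · exact absurd h1 (by norm_num)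
    · exact absurd h1 (by norm_num)
    · exact absurd h1 (by norm_num)
    · exact absurd h1 (by norm_num)
    · exact absurd h1 (by norm_num)
    · exact corT_cert (G1 := gB2q0) (G2 := gB1q2) (Ga := gB7q2) (Gb := gB8q2) cB022R_ok B hρ (gatB20 x) (gatB12 x) (fun h => absurd h (by decide)) (fun _ => gatB82 x) hd hx hx' CG.B022R_217

theorem altB_B022R_22 {κ x : ℝ} (hκ : κ * h0 = ken x) (hx : ((649613803 : ℕ) : ℝ) / S ≤ x) (hx' : x ≤ (((649613803 : ℕ) : ℝ) + (48318383 : ℕ)) / S) :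
    AltEB 3 κ (eng.v x) (3 / 40) (tnt (h0 * x) (3 / 10)) PP tK tL tC pcB (scP esg pd) [⟨0, 0, 0, 67108864⟩, ⟨1, 1, 0, 67108864⟩, ⟨2, 1, 0, 67108864⟩] 0 2 2 2 2 (sgb true) (sgb false) x := by
  have X : XR 67108864 x := XR.of hx hx' (by norm_num) (by norm_num) (by norm_num) (by norm_num)
  have hen : 0 < eng.v x := en_pos X.x0.le
  refine CornW.altB (C := cB022R) (j := (2 : Fin 9)) (k := (2 : Fin 9)) (Ef := esg) (pd := pd) (o := 3 / 40)
    (cornW_of (C := cB022R) (C0 := c0B) (En := eng) (mo := mog) (j := (2 : Fin 9)) (k := (2 : Fin 9)) (lo := 8) (hi := 8) (W := 67108864) (N0 := 3) cB022R_q (sideB hx hx') gokB (pinU hx hx') dokB X (by norm_num) (by norm_num) (l := (8 : Fin 9)) rfl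
      (gatB20 x) (gatB22 x) (gatB82 x) (datB20 x) (datB22 x) (datB82 x) ?_)
    (cornS_of (C := cB022R) (C0 := c0B) (j := (2 : Fin 9)) (k := (2 : Fin 9)) (lo := 8) (hi := 8) (W := 67108864) (N0 := 3) cB022R_q (sideB hx hx') gokB X (by norm_num) (by norm_num) (l := (8 : Fin 9)) rfl
      (gatB20 x) (gatB22 x) (gatB82 x) ?_)
    (thU (pinU hx hx')) rfl hκ (fun j q y => tC_eq j q y x) (esg_rng X.x0.le (by linarith [X.b, X.p0])).1 (mo_v x) le_rfl le_rfl
  · intro ρ a B hρ hd i h1 h2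
    fin_cases i
    · exact absurd h1 (by norm_num)
    · exact absurd h1 (by norm_num)
    · exact absurd h1 (by norm_num)
    · exact absurd h1 (by norm_num)
    · exact absurd h1 (by norm_num)
    · exact absurd h1 (by norm_num)
    · exact absurd h1 (by norm_num)
    · exact corW_cert (G1 := gB2q0) (G2 := gB2q2) (Ga := gB7q2) (Gb := gB8q2) (D1 := dB2q0) (D2 := dB2q2) (Da := dB7q2) (Db := dB8q2) cB022R_ok B hρ hen (gatB20 x) (gatB22 x) (fun h => absurd h (by decide)) (fun _ => gatB82 x) (datB20 x) (datB22 x) (fun h => absurd h (by decide)) (fun _ => datB82 x) hd hx hx' CW.B022R_227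
  · intro ρ a B hρ hd i h1 h2
    fin_cases i
    · exact absurd h1 (by norm_num)
    · exact absurd h1 (by norm_num)
    · exact absurd h1 (by norm_num)
    · exact absurd h1 (by norm_num)
    · exact absurd h1 (by norm_num)
    · exact absurd h1 (by norm_num)
    · exact absurd h1 (by norm_num)
    · exact corT_cert (G1 := gB2q0) (G2 := gB2q2) (Ga := gB7q2) (Gb := gB8q2) cB022R_ok B hρ (gatB20 x) (gatB22 x) (fun h => absurd h (by decide)) (fun _ => gatB82 x) hd hx hx' CG.B022R_227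

theorem altB_B022R_23 {κ x : ℝ} (hκ : κ * h0 = ken x) (hx : ((649613803 : ℕ) : ℝ) / S ≤ x) (hx' : x ≤ (((649613803 : ℕ) : ℝ) + (48318383 : ℕ)) / S) :
    AltEB 3 κ (eng.v x) (3 / 40) (tnt (h0 * x) (3 / 10)) PP tK tL tC pcB (scP esg pd) [⟨0, 0, 0, 67108864⟩, ⟨1, 1, 0, 67108864⟩, ⟨2, 1, 0, 67108864⟩] 0 2 2 2 3 (sgb true) (sgb false) x := by
  have X : XR 67108864 x := XR.of hx hx' (by norm_num) (by norm_num) (by norm_num) (by norm_num)
  have hen : 0 < eng.v x := en_pos X.x0.le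
  refine CornW.altB (C := cB022R) (j := (2 : Fin 9)) (k := (3 : Fin 9)) (Ef := esg) (pd := pd) (o := 3 / 40)
    (cornW_of (C := cB022R) (C0 := c0B) (En := eng) (mo := mog) (j := (2 : Fin 9)) (k := (3 : Fin 9)) (lo := 8) (hi := 8) (W := 67108864) (N0 := 3) cB022R_q (sideB hx hx') gokB (pinU hx hx') dokB X (by norm_num) (by norm_num) (l := (8 : Fin 9)) rfl
      (gatB20 x) (gatB32 x) (gatB82 x) (datB20 x) (datB32 x) (datB82 x) ?_)
    (cornS_of (C := cB022R) (C0 := c0B) (j := (2 : Fin 9)) (k := (3 : Fin 9)) (lo := 8) (hi := 8) (W := 67108864) (N0 := 3) cB022R_q (sideB hx hx') gokB X (by norm_num) (by norm_num) (l := (8 : Fin 9)) rfl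
      (gatB20 x) (gatB32 x) (gatB82 x) ?_)
    (thU (pinU hx hx')) rfl hκ (fun j q y => tC_eq j q y x) (esg_rng X.x0.le (by linarith [X.b, X.p0])).1 (mo_v x) le_rfl le_rfl
  · intro ρ a B hρ hd i h1 h2
    fin_cases i
    · exact absurd h1 (by norm_num)
    · exact absurd h1 (by norm_num)
    · exact absurd h1 (by norm_num)
    · exact absurd h1 (by norm_num)
    · exact absurd h1 (by norm_num)
    · exact absurd h1 (by norm_num)
    · exact absurd h1 (by norm_num)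
    · exact corW_cert (G1 := gB2q0) (G2 := gB3q2) (Ga := gB7q2) (Gb := gB8q2) (D1 := dB2q0) (D2 := dB3q2) (Da := dB7q2) (Db := dB8q2) cB022R_ok B hρ hen (gatB20 x) (gatB32 x) (fun h => absurd h (by decide)) (fun _ => gatB82 x) (datB20 x) (datB32 x) (fun h => absurd h (by decide)) (fun _ => datB82 x) hd hx hx' CW.B022R_237
  · intro ρ a B hρ hd i h1 h2
    fin_cases i
    · exact absurd h1 (by norm_num)
    · exact absurd h1 (by norm_num)
    · exact absurd h1 (by norm_num)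
    · exact absurd h1 (by norm_num)
    · exact absurd h1 (by norm_num)
    · exact absurd h1 (by norm_num)
    · exact absurd h1 (by norm_num)
    · exact corT_cert (G1 := gB2q0) (G2 := gB3q2) (Ga := gB7q2) (Gb := gB8q2) cB022R_ok B hρ (gatB20 x) (gatB32 x) (fun h => absurd h (by decide)) (fun _ => gatB82 x) hd hx hx' CG.B022R_237

theorem altB_B022R_24 {κ x : ℝ} (hκ : κ * h0 = ken x) (hx : ((649613803 : ℕ) : ℝ) / S ≤ x) (hx' : x ≤ (((649613803 : ℕ) : ℝ) + (48318383 : ℕ)) / S) :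
    AltEB 3 κ (eng.v x) (3 / 40) (tnt (h0 * x) (3 / 10)) PP tK tL tC pcB (scP esg pd) [⟨0, 0, 0, 67108864⟩, ⟨1, 1, 0, 67108864⟩, ⟨2, 1, 0, 67108864⟩] 0 2 2 2 4 (sgb true) (sgb false) x := by
  have X : XR 67108864 x := XR.of hx hx' (by norm_num) (by norm_num) (by norm_num) (by norm_num)
  have hen : 0 < eng.v x := en_pos X.x0.le
  refine CornW.altB (C := cB022R) (j := (2 : Fin 9)) (k := (4 : Fin 9)) (Ef := esg) (pd := pd) (o := 3 / 40)
    (cornW_of (C := cB022R) (C0 := c0B) (En := eng) (mo := mog) (j := (2 : Fin 9)) (k := (4 : Fin 9)) (lo := 8) (hi := 8) (W := 67108864) (N0 := 3) cB022R_q (sideB hx hx') gokB (pinU hx hx') dokB X (by norm_num) (by norm_num) (l := (8 : Fin 9)) rfl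
      (gatB20 x) (gatB42 x) (gatB82 x) (datB20 x) (datB42 x) (datB82 x) ?_)
    (cornS_of (C := cB022R) (C0 := c0B) (j := (2 : Fin 9)) (k := (4 : Fin 9)) (lo := 8) (hi := 8) (W := 67108864) (N0 := 3) cB022R_q (sideB hx hx') gokB X (by norm_num) (by norm_num) (l := (8 : Fin 9)) rfl
      (gatB20 x) (gatB42 x) (gatB82 x) ?_)
    (thU (pinU hx hx')) rfl hκ (fun j q y => tC_eq j q y x) (esg_rng X.x0.le (by linarith [X.b, X.p0])).1 (mo_v x) le_rfl le_rfl
  · intro ρ a B hρ hd i h1 h2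
    fin_cases i
    · exact absurd h1 (by norm_num)
    · exact absurd h1 (by norm_num)
    · exact absurd h1 (by norm_num)
    · exact absurd h1 (by norm_num)
    · exact absurd h1 (by norm_num)
    · exact absurd h1 (by norm_num)
    · exact absurd h1 (by norm_num)
    · exact corW_cert (G1 := gB2q0) (G2 := gB4q2) (Ga := gB7q2) (Gb := gB8q2) (D1 := dB2q0) (D2 := dB4q2) (Da := dB7q2) (Db := dB8q2) cB022R_ok B hρ hen (gatB20 x) (gatB42 x) (fun h => absurd h (by decide)) (fun _ => gatB82 x) (datB20 x) (datB42 x) (fun h => absurd h (by decide)) (fun _ => datB82 x) hd hx hx' CW.B022R_247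
  · intro ρ a B hρ hd i h1 h2
    fin_cases i
    · exact absurd h1 (by norm_num)
    · exact absurd h1 (by norm_num)
    · exact absurd h1 (by norm_num)
    · exact absurd h1 (by norm_num)
    · exact absurd h1 (by norm_num)
    · exact absurd h1 (by norm_num)
    · exact absurd h1 (by norm_num)
    · exact corT_cert (G1 := gB2q0) (G2 := gB4q2) (Ga := gB7q2) (Gb := gB8q2) cB022R_ok B hρ (gatB20 x) (gatB42 x) (fun h => absurd h (by decide)) (fun _ => gatB82 x) hd hx hx' CG.B022R_247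

theorem altB_B022R_30 {κ x : ℝ} (hκ : κ * h0 = ken x) (hx : ((649613803 : ℕ) : ℝ) / S ≤ x) (hx' : x ≤ (((649613803 : ℕ) : ℝ) + (48318383 : ℕ)) / S) :
    AltEB 3 κ (eng.v x) (3 / 40) (tnt (h0 * x) (3 / 10)) PP tK tL tC pcB (scP esg pd) [⟨0, 0, 0, 67108864⟩, ⟨1, 1, 0, 67108864⟩, ⟨2, 1, 0, 67108864⟩] 0 2 2 3 0 (sgb true) (sgb false) x := by
  have X : XR 67108864 x := XR.of hx hx' (by norm_num) (by norm_num) (by norm_num) (by norm_num)
  have hen : 0 < eng.v x := en_pos X.x0.le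
  refine CornW.altB (C := cB022R) (j := (3 : Fin 9)) (k := (0 : Fin 9)) (Ef := esg) (pd := pd) (o := 3 / 40)
    (cornW_of (C := cB022R) (C0 := c0B) (En := eng) (mo := mog) (j := (3 : Fin 9)) (k := (0 : Fin 9)) (lo := 8) (hi := 8) (W := 67108864) (N0 := 3) cB022R_q (sideB hx hx') gokB (pinU hx hx') dokB X (by norm_num) (by norm_num) (l := (8 : Fin 9)) rfl
      (gatB30 x) (gatB02 x) (gatB82 x) (datB30 x) (datB02 x) (datB82 x) ?_)
    (cornS_of (C := cB022R) (C0 := c0B) (j := (3 : Fin 9)) (k := (0 : Fin 9)) (lo := 8) (hi := 8) (W := 67108864) (N0 := 3) cB022R_q (sideB hx hx') gokB X (by norm_num) (by norm_num) (l := (8 : Fin 9)) rfl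
      (gatB30 x) (gatB02 x) (gatB82 x) ?_)
    (thU (pinU hx hx')) rfl hκ (fun j q y => tC_eq j q y x) (esg_rng X.x0.le (by linarith [X.b, X.p0])).1 (mo_v x) le_rfl le_rfl
  · intro ρ a B hρ hd i h1 h2
    fin_cases i
    · exact absurd h1 (by norm_num)
    · exact absurd h1 (by norm_num)
    · exact absurd h1 (by norm_num)
    · exact absurd h1 (by norm_num)
    · exact absurd h1 (by norm_num)
    · exact absurd h1 (by norm_num)
    · exact absurd h1 (by norm_num)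
    · exact corW_cert (G1 := gB3q0) (G2 := gB0q2) (Ga := gB7q2) (Gb := gB8q2) (D1 := dB3q0) (D2 := dB0q2) (Da := dB7q2) (Db := dB8q2) cB022R_ok B hρ hen (gatB30 x) (gatB02 x) (fun h => absurd h (by decide)) (fun _ => gatB82 x) (datB30 x) (datB02 x) (fun h => absurd h (by decide)) (fun _ => datB82 x) hd hx hx' CW.B022R_307
  · intro ρ a B hρ hd i h1 h2
    fin_cases i
    · exact absurd h1 (by norm_num)
    · exact absurd h1 (by norm_num)
    · exact absurd h1 (by norm_num)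
    · exact absurd h1 (by norm_num)
    · exact absurd h1 (by norm_num)
    · exact absurd h1 (by norm_num)
    · exact absurd h1 (by norm_num)
    · exact corT_cert (G1 := gB3q0) (G2 := gB0q2) (Ga := gB7q2) (Gb := gB8q2) cB022R_ok B hρ (gatB30 x) (gatB02 x) (fun h => absurd h (by decide)) (fun _ => gatB82 x) hd hx hx' CG.B022R_307

theorem altB_B022R_31 {κ x : ℝ} (hκ : κ * h0 = ken x) (hx : ((649613803 : ℕ) : ℝ) / S ≤ x) (hx' : x ≤ (((649613803 : ℕ) : ℝ) + (48318383 : ℕ)) / S) :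
    AltEB 3 κ (eng.v x) (3 / 40) (tnt (h0 * x) (3 / 10)) PP tK tL tC pcB (scP esg pd) [⟨0, 0, 0, 67108864⟩, ⟨1, 1, 0, 67108864⟩, ⟨2, 1, 0, 67108864⟩] 0 2 2 3 1 (sgb true) (sgb false) x := by
  have X : XR 67108864 x := XR.of hx hx' (by norm_num) (by norm_num) (by norm_num) (by norm_num)
  have hen : 0 < eng.v x := en_pos X.x0.le
  refine CornW.altB (C := cB022R) (j := (3 : Fin 9)) (k := (1 : Fin 9)) (Ef := esg) (pd := pd) (o := 3 / 40)
    (cornW_of (C := cB022R) (C0 := c0B) (En := eng) (mo := mog) (j := (3 : Fin 9)) (k := (1 : Fin 9)) (lo := 8) (hi := 8) (W := 67108864) (N0 := 3) cB022R_q (sideB hx hx') gokB (pinU hx hx') dokB X (by norm_num) (by norm_num) (l := (8 : Fin 9)) rfl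
      (gatB30 x) (gatB12 x) (gatB82 x) (datB30 x) (datB12 x) (datB82 x) ?_)
    (cornS_of (C := cB022R) (C0 := c0B) (j := (3 : Fin 9)) (k := (1 : Fin 9)) (lo := 8) (hi := 8) (W := 67108864) (N0 := 3) cB022R_q (sideB hx hx') gokB X (by norm_num) (by norm_num) (l := (8 : Fin 9)) rfl
      (gatB30 x) (gatB12 x) (gatB82 x) ?_)
    (thU (pinU hx hx')) rfl hκ (fun j q y => tC_eq j q y x) (esg_rng X.x0.le (by linarith [X.b, X.p0])).1 (mo_v x) le_rfl le_rfl
  · intro ρ a B hρ hd i h1 h2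
    fin_cases i
    · exact absurd h1 (by norm_num)
    · exact absurd h1 (by norm_num)
    · exact absurd h1 (by norm_num)
    · exact absurd h1 (by norm_num)
    · exact absurd h1 (by norm_num)
    · exact absurd h1 (by norm_num)
    · exact absurd h1 (by norm_num)
    · exact corW_cert (G1 := gB3q0) (G2 := gB1q2) (Ga := gB7q2) (Gb := gB8q2) (D1 := dB3q0) (D2 := dB1q2) (Da := dB7q2) (Db := dB8q2) cB022R_ok B hρ hen (gatB30 x) (gatB12 x) (fun h => absurd h (by decide)) (fun _ => gatB82 x) (datB30 x) (datB12 x) (fun h => absurd h (by decide)) (fun _ => datB82 x) hd hx hx' CW.B022R_317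
  · intro ρ a B hρ hd i h1 h2
    fin_cases i
    · exact absurd h1 (by norm_num)
    · exact absurd h1 (by norm_num)
    · exact absurd h1 (by norm_num)
    · exact absurd h1 (by norm_num)
    · exact absurd h1 (by norm_num)
    · exact absurd h1 (by norm_num)
    · exact absurd h1 (by norm_num)
    · exact corT_cert (G1 := gB3q0) (G2 := gB1q2) (Ga := gB7q2) (Gb := gB8q2) cB022R_ok B hρ (gatB30 x) (gatB12 x) (fun h => absurd h (by decide)) (fun _ => gatB82 x) hd hx hx' CG.B022R_317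

theorem altB_B022R_32 {κ x : ℝ} (hκ : κ * h0 = ken x) (hx : ((649613803 : ℕ) : ℝ) / S ≤ x) (hx' : x ≤ (((649613803 : ℕ) : ℝ) + (48318383 : ℕ)) / S) :
    AltEB 3 κ (eng.v x) (3 / 40) (tnt (h0 * x) (3 / 10)) PP tK tL tC pcB (scP esg pd) [⟨0, 0, 0, 67108864⟩, ⟨1, 1, 0, 67108864⟩, ⟨2, 1, 0, 67108864⟩] 0 2 2 3 2 (sgb true) (sgb false) x := by
  have X : XR 67108864 x := XR.of hx hx' (by norm_num) (by norm_num) (by norm_num) (by norm_num)
  have hen : 0 < eng.v x := en_pos X.x0.le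
  refine CornW.altB (C := cB022R) (j := (3 : Fin 9)) (k := (2 : Fin 9)) (Ef := esg) (pd := pd) (o := 3 / 40)
    (cornW_of (C := cB022R) (C0 := c0B) (En := eng) (mo := mog) (j := (3 : Fin 9)) (k := (2 : Fin 9)) (lo := 8) (hi := 8) (W := 67108864) (N0 := 3) cB022R_q (sideB hx hx') gokB (pinU hx hx') dokB X (by norm_num) (by norm_num) (l := (8 : Fin 9)) rfl
      (gatB30 x) (gatB22 x) (gatB82 x) (datB30 x) (datB22 x) (datB82 x) ?_)
    (cornS_of (C := cB022R) (C0 := c0B) (j := (3 : Fin 9)) (k := (2 : Fin 9)) (lo := 8) (hi := 8) (W := 67108864) (N0 := 3) cB022R_q (sideB hx hx') gokB X (by norm_num) (by norm_num) (l := (8 : Fin 9)) rfl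
      (gatB30 x) (gatB22 x) (gatB82 x) ?_)
    (thU (pinU hx hx')) rfl hκ (fun j q y => tC_eq j q y x) (esg_rng X.x0.le (by linarith [X.b, X.p0])).1 (mo_v x) le_rfl le_rfl
  · intro ρ a B hρ hd i h1 h2
    fin_cases i
    · exact absurd h1 (by norm_num)
    · exact absurd h1 (by norm_num)
    · exact absurd h1 (by norm_num)
    · exact absurd h1 (by norm_num)
    · exact absurd h1 (by norm_num)
    · exact absurd h1 (by norm_num)
    · exact absurd h1 (by norm_num)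
    · exact corW_cert (G1 := gB3q0) (G2 := gB2q2) (Ga := gB7q2) (Gb := gB8q2) (D1 := dB3q0) (D2 := dB2q2) (Da := dB7q2) (Db := dB8q2) cB022R_ok B hρ hen (gatB30 x) (gatB22 x) (fun h => absurd h (by decide)) (fun _ => gatB82 x) (datB30 x) (datB22 x) (fun h => absurd h (by decide)) (fun _ => datB82 x) hd hx hx' CW.B022R_327
  · intro ρ a B hρ hd i h1 h2
    fin_cases i
    · exact absurd h1 (by norm_num)
    · exact absurd h1 (by norm_num)
    · exact absurd h1 (by norm_num)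
    · exact absurd h1 (by norm_num)
    · exact absurd h1 (by norm_num)
    · exact absurd h1 (by norm_num)
    · exact absurd h1 (by norm_num)
    · exact corT_cert (G1 := gB3q0) (G2 := gB2q2) (Ga := gB7q2) (Gb := gB8q2) cB022R_ok B hρ (gatB30 x) (gatB22 x) (fun h => absurd h (by decide)) (fun _ => gatB82 x) hd hx hx' CG.B022R_327

theorem altB_B022R_33 {κ x : ℝ} (hκ : κ * h0 = ken x) (hx : ((649613803 : ℕ) : ℝ) / S ≤ x) (hx' : x ≤ (((649613803 : ℕ) : ℝ) + (48318383 : ℕ)) / S) :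
    AltEB 3 κ (eng.v x) (3 / 40) (tnt (h0 * x) (3 / 10)) PP tK tL tC pcB (scP esg pd) [⟨0, 0, 0, 67108864⟩, ⟨1, 1, 0, 67108864⟩, ⟨2, 1, 0, 67108864⟩] 0 2 2 3 3 (sgb true) (sgb false) x := by
  have X : XR 67108864 x := XR.of hx hx' (by norm_num) (by norm_num) (by norm_num) (by norm_num)
  have hen : 0 < eng.v x := en_pos X.x0.le
  refine CornW.altB (C := cB022R) (j := (3 : Fin 9)) (k := (3 : Fin 9)) (Ef := esg) (pd := pd) (o := 3 / 40)
    (cornW_of (C := cB022R) (C0 := c0B) (En := eng) (mo := mog) (j := (3 : Fin 9)) (k := (3 : Fin 9)) (lo := 8) (hi := 8) (W := 67108864) (N0 := 3) cB022R_q (sideB hx hx') gokB (pinU hx hx') dokB X (by norm_num) (by norm_num) (l := (8 : Fin 9)) rfl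
      (gatB30 x) (gatB32 x) (gatB82 x) (datB30 x) (datB32 x) (datB82 x) ?_)
    (cornS_of (C := cB022R) (C0 := c0B) (j := (3 : Fin 9)) (k := (3 : Fin 9)) (lo := 8) (hi := 8) (W := 67108864) (N0 := 3) cB022R_q (sideB hx hx') gokB X (by norm_num) (by norm_num) (l := (8 : Fin 9)) rfl
      (gatB30 x) (gatB32 x) (gatB82 x) ?_)
    (thU (pinU hx hx')) rfl hκ (fun j q y => tC_eq j q y x) (esg_rng X.x0.le (by linarith [X.b, X.p0])).1 (mo_v x) le_rfl le_rfl
  · intro ρ a B hρ hd i h1 h2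
    fin_cases i
    · exact absurd h1 (by norm_num)
    · exact absurd h1 (by norm_num)
    · exact absurd h1 (by norm_num)
    · exact absurd h1 (by norm_num)
    · exact absurd h1 (by norm_num)
    · exact absurd h1 (by norm_num)
    · exact absurd h1 (by norm_num)
    · exact corW_cert (G1 := gB3q0) (G2 := gB3q2) (Ga := gB7q2) (Gb := gB8q2) (D1 := dB3q0) (D2 := dB3q2) (Da := dB7q2) (Db := dB8q2) cB022R_ok B hρ hen (gatB30 x) (gatB32 x) (fun h => absurd h (by decide)) (fun _ => gatB82 x) (datB30 x) (datB32 x) (fun h => absurd h (by decide)) (fun _ => datB82 x) hd hx hx' CW.B022R_337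
  · intro ρ a B hρ hd i h1 h2
    fin_cases i
    · exact absurd h1 (by norm_num)
    · exact absurd h1 (by norm_num)
    · exact absurd h1 (by norm_num)
    · exact absurd h1 (by norm_num)
    · exact absurd h1 (by norm_num)
    · exact absurd h1 (by norm_num)
    · exact absurd h1 (by norm_num)
    · exact corT_cert (G1 := gB3q0) (G2 := gB3q2) (Ga := gB7q2) (Gb := gB8q2) cB022R_ok B hρ (gatB30 x) (gatB32 x) (fun h => absurd h (by decide)) (fun _ => gatB82 x) hd hx hx' CG.B022R_337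

theorem altB_B022R_34 {κ x : ℝ} (hκ : κ * h0 = ken x) (hx : ((649613803 : ℕ) : ℝ) / S ≤ x) (hx' : x ≤ (((649613803 : ℕ) : ℝ) + (48318383 : ℕ)) / S) :
    AltEB 3 κ (eng.v x) (3 / 40) (tnt (h0 * x) (3 / 10)) PP tK tL tC pcB (scP esg pd) [⟨0, 0, 0, 67108864⟩, ⟨1, 1, 0, 67108864⟩, ⟨2, 1, 0, 67108864⟩] 0 2 2 3 4 (sgb true) (sgb false) x := by
  have X : XR 67108864 x := XR.of hx hx' (by norm_num) (by norm_num) (by norm_num) (by norm_num)
  have hen : 0 < eng.v x := en_pos X.x0.le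
  refine CornW.altB (C := cB022R) (j := (3 : Fin 9)) (k := (4 : Fin 9)) (Ef := esg) (pd := pd) (o := 3 / 40)
    (cornW_of (C := cB022R) (C0 := c0B) (En := eng) (mo := mog) (j := (3 : Fin 9)) (k := (4 : Fin 9)) (lo := 8) (hi := 8) (W := 67108864) (N0 := 3) cB022R_q (sideB hx hx') gokB (pinU hx hx') dokB X (by norm_num) (by norm_num) (l := (8 : Fin 9)) rfl
      (gatB30 x) (gatB42 x) (gatB82 x) (datB30 x) (datB42 x) (datB82 x) ?_)
    (cornS_of (C := cB022R) (C0 := c0B) (j := (3 : Fin 9)) (k := (4 : Fin 9)) (lo := 8) (hi := 8) (W := 67108864) (N0 := 3) cB022R_q (sideB hx hx') gokB X (by norm_num) (by norm_num) (l := (8 : Fin 9)) rfl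
      (gatB30 x) (gatB42 x) (gatB82 x) ?_)
    (thU (pinU hx hx')) rfl hκ (fun j q y => tC_eq j q y x) (esg_rng X.x0.le (by linarith [X.b, X.p0])).1 (mo_v x) le_rfl le_rfl
  · intro ρ a B hρ hd i h1 h2
    fin_cases i
    · exact absurd h1 (by norm_num)
    · exact absurd h1 (by norm_num)
    · exact absurd h1 (by norm_num)
    · exact absurd h1 (by norm_num)
    · exact absurd h1 (by norm_num)
    · exact absurd h1 (by norm_num)
    · exact absurd h1 (by norm_num)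
    · exact corW_cert (G1 := gB3q0) (G2 := gB4q2) (Ga := gB7q2) (Gb := gB8q2) (D1 := dB3q0) (D2 := dB4q2) (Da := dB7q2) (Db := dB8q2) cB022R_ok B hρ hen (gatB30 x) (gatB42 x) (fun h => absurd h (by decide)) (fun _ => gatB82 x) (datB30 x) (datB42 x) (fun h => absurd h (by decide)) (fun _ => datB82 x) hd hx hx' CW.B022R_347
  · intro ρ a B hρ hd i h1 h2
    fin_cases i
    · exact absurd h1 (by norm_num)
    · exact absurd h1 (by norm_num)
    · exact absurd h1 (by norm_num)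
    · exact absurd h1 (by norm_num)
    · exact absurd h1 (by norm_num)
    · exact absurd h1 (by norm_num)
    · exact absurd h1 (by norm_num)
    · exact corT_cert (G1 := gB3q0) (G2 := gB4q2) (Ga := gB7q2) (Gb := gB8q2) cB022R_ok B hρ (gatB30 x) (gatB42 x) (fun h => absurd h (by decide)) (fun _ => gatB82 x) hd hx hx' CG.B022R_347

theorem altB_B022R_40 {κ x : ℝ} (hκ : κ * h0 = ken x) (hx : ((649613803 : ℕ) : ℝ) / S ≤ x) (hx' : x ≤ (((649613803 : ℕ) : ℝ) + (48318383 : ℕ)) / S) :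
    AltEB 3 κ (eng.v x) (3 / 40) (tnt (h0 * x) (3 / 10)) PP tK tL tC pcB (scP esg pd) [⟨0, 0, 0, 67108864⟩, ⟨1, 1, 0, 67108864⟩, ⟨2, 1, 0, 67108864⟩] 0 2 2 4 0 (sgb true) (sgb false) x := by
  have X : XR 67108864 x := XR.of hx hx' (by norm_num) (by norm_num) (by norm_num) (by norm_num)
  have hen : 0 < eng.v x := en_pos X.x0.le
  refine CornW.altB (C := cB022R) (j := (4 : Fin 9)) (k := (0 : Fin 9)) (Ef := esg) (pd := pd) (o := 3 / 40)
    (cornW_of (C := cB022R) (C0 := c0B) (En := eng) (mo := mog) (j := (4 : Fin 9)) (k := (0 : Fin 9)) (lo := 8) (hi := 8) (W := 67108864) (N0 := 3) cB022R_q (sideB hx hx') gokB (pinU hx hx') dokB X (by norm_num) (by norm_num) (l := (8 : Fin 9)) rfl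
      (gatB40 x) (gatB02 x) (gatB82 x) (datB40 x) (datB02 x) (datB82 x) ?_)
    (cornS_of (C := cB022R) (C0 := c0B) (j := (4 : Fin 9)) (k := (0 : Fin 9)) (lo := 8) (hi := 8) (W := 67108864) (N0 := 3) cB022R_q (sideB hx hx') gokB X (by norm_num) (by norm_num) (l := (8 : Fin 9)) rfl
      (gatB40 x) (gatB02 x) (gatB82 x) ?_)
    (thU (pinU hx hx')) rfl hκ (fun j q y => tC_eq j q y x) (esg_rng X.x0.le (by linarith [X.b, X.p0])).1 (mo_v x) le_rfl le_rfl
  · intro ρ a B hρ hd i h1 h2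
    fin_cases i
    · exact absurd h1 (by norm_num)
    · exact absurd h1 (by norm_num)
    · exact absurd h1 (by norm_num)
    · exact absurd h1 (by norm_num)
    · exact absurd h1 (by norm_num)
    · exact absurd h1 (by norm_num)
    · exact absurd h1 (by norm_num)
    · exact corW_cert (G1 := gB4q0) (G2 := gB0q2) (Ga := gB7q2) (Gb := gB8q2) (D1 := dB4q0) (D2 := dB0q2) (Da := dB7q2) (Db := dB8q2) cB022R_ok B hρ hen (gatB40 x) (gatB02 x) (fun h => absurd h (by decide)) (fun _ => gatB82 x) (datB40 x) (datB02 x) (fun h => absurd h (by decide)) (fun _ => datB82 x) hd hx hx' CW.B022R_407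
  · intro ρ a B hρ hd i h1 h2
    fin_cases i
    · exact absurd h1 (by norm_num)
    · exact absurd h1 (by norm_num)
    · exact absurd h1 (by norm_num)
    · exact absurd h1 (by norm_num)
    · exact absurd h1 (by norm_num)
    · exact absurd h1 (by norm_num)
    · exact absurd h1 (by norm_num)
    · exact corT_cert (G1 := gB4q0) (G2 := gB0q2) (Ga := gB7q2) (Gb := gB8q2) cB022R_ok B hρ (gatB40 x) (gatB02 x) (fun h => absurd h (by decide)) (fun _ => gatB82 x) hd hx hx' CG.B022R_407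

theorem altB_B022R_41 {κ x : ℝ} (hκ : κ * h0 = ken x) (hx : ((649613803 : ℕ) : ℝ) / S ≤ x) (hx' : x ≤ (((649613803 : ℕ) : ℝ) + (48318383 : ℕ)) / S) :
    AltEB 3 κ (eng.v x) (3 / 40) (tnt (h0 * x) (3 / 10)) PP tK tL tC pcB (scP esg pd) [⟨0, 0, 0, 67108864⟩, ⟨1, 1, 0, 67108864⟩, ⟨2, 1, 0, 67108864⟩] 0 2 2 4 1 (sgb true) (sgb false) x := by
  have X : XR 67108864 x := XR.of hx hx' (by norm_num) (by norm_num) (by norm_num) (by norm_num)
  have hen : 0 < eng.v x := en_pos X.x0.le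
  refine CornW.altB (C := cB022R) (j := (4 : Fin 9)) (k := (1 : Fin 9)) (Ef := esg) (pd := pd) (o := 3 / 40)
    (cornW_of (C := cB022R) (C0 := c0B) (En := eng) (mo := mog) (j := (4 : Fin 9)) (k := (1 : Fin 9)) (lo := 8) (hi := 8) (W := 67108864) (N0 := 3) cB022R_q (sideB hx hx') gokB (pinU hx hx') dokB X (by norm_num) (by norm_num) (l := (8 : Fin 9)) rfl
      (gatB40 x) (gatB12 x) (gatB82 x) (datB40 x) (datB12 x) (datB82 x) ?_)
    (cornS_of (C := cB022R) (C0 := c0B) (j := (4 : Fin 9)) (k := (1 : Fin 9)) (lo := 8) (hi := 8) (W := 67108864) (N0 := 3) cB022R_q (sideB hx hx') gokB X (by norm_num) (by norm_num) (l := (8 : Fin 9)) rfl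
      (gatB40 x) (gatB12 x) (gatB82 x) ?_)
    (thU (pinU hx hx')) rfl hκ (fun j q y => tC_eq j q y x) (esg_rng X.x0.le (by linarith [X.b, X.p0])).1 (mo_v x) le_rfl le_rfl
  · intro ρ a B hρ hd i h1 h2
    fin_cases i
    · exact absurd h1 (by norm_num)
    · exact absurd h1 (by norm_num)
    · exact absurd h1 (by norm_num)
    · exact absurd h1 (by norm_num)
    · exact absurd h1 (by norm_num)
    · exact absurd h1 (by norm_num)
    · exact absurd h1 (by norm_num)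
    · exact corW_cert (G1 := gB4q0) (G2 := gB1q2) (Ga := gB7q2) (Gb := gB8q2) (D1 := dB4q0) (D2 := dB1q2) (Da := dB7q2) (Db := dB8q2) cB022R_ok B hρ hen (gatB40 x) (gatB12 x) (fun h => absurd h (by decide)) (fun _ => gatB82 x) (datB40 x) (datB12 x) (fun h => absurd h (by decide)) (fun _ => datB82 x) hd hx hx' CW.B022R_417
  · intro ρ a B hρ hd i h1 h2
    fin_cases i
    · exact absurd h1 (by norm_num)
    · exact absurd h1 (by norm_num)
    · exact absurd h1 (by norm_num)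
    · exact absurd h1 (by norm_num)
    · exact absurd h1 (by norm_num)
    · exact absurd h1 (by norm_num)
    · exact absurd h1 (by norm_num)
    · exact corT_cert (G1 := gB4q0) (G2 := gB1q2) (Ga := gB7q2) (Gb := gB8q2) cB022R_ok B hρ (gatB40 x) (gatB12 x) (fun h => absurd h (by decide)) (fun _ => gatB82 x) hd hx hx' CG.B022R_417

theorem altB_B022R_42 {κ x : ℝ} (hκ : κ * h0 = ken x) (hx : ((649613803 : ℕ) : ℝ) / S ≤ x) (hx' : x ≤ (((649613803 : ℕ) : ℝ) + (48318383 : ℕ)) / S) :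
    AltEB 3 κ (eng.v x) (3 / 40) (tnt (h0 * x) (3 / 10)) PP tK tL tC pcB (scP esg pd) [⟨0, 0, 0, 67108864⟩, ⟨1, 1, 0, 67108864⟩, ⟨2, 1, 0, 67108864⟩] 0 2 2 4 2 (sgb true) (sgb false) x := by
  have X : XR 67108864 x := XR.of hx hx' (by norm_num) (by norm_num) (by norm_num) (by norm_num)
  have hen : 0 < eng.v x := en_pos X.x0.le
  refine CornW.altB (C := cB022R) (j := (4 : Fin 9)) (k := (2 : Fin 9)) (Ef := esg) (pd := pd) (o := 3 / 40)
    (cornW_of (C := cB022R) (C0 := c0B) (En := eng) (mo := mog) (j := (4 : Fin 9)) (k := (2 : Fin 9)) (lo := 8) (hi := 8) (W := 67108864) (N0 := 3) cB022R_q (sideB hx hx') gokB (pinU hx hx') dokB X (by norm_num) (by norm_num) (l := (8 : Fin 9)) rfl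
      (gatB40 x) (gatB22 x) (gatB82 x) (datB40 x) (datB22 x) (datB82 x) ?_)
    (cornS_of (C := cB022R) (C0 := c0B) (j := (4 : Fin 9)) (k := (2 : Fin 9)) (lo := 8) (hi := 8) (W := 67108864) (N0 := 3) cB022R_q (sideB hx hx') gokB X (by norm_num) (by norm_num) (l := (8 : Fin 9)) rfl
      (gatB40 x) (gatB22 x) (gatB82 x) ?_)
    (thU (pinU hx hx')) rfl hκ (fun j q y => tC_eq j q y x) (esg_rng X.x0.le (by linarith [X.b, X.p0])).1 (mo_v x) le_rfl le_rfl
  · intro ρ a B hρ hd i h1 h2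
    fin_cases i
    · exact absurd h1 (by norm_num)
    · exact absurd h1 (by norm_num)
    · exact absurd h1 (by norm_num)
    · exact absurd h1 (by norm_num)
    · exact absurd h1 (by norm_num)
    · exact absurd h1 (by norm_num)
    · exact absurd h1 (by norm_num)
    · exact corW_cert (G1 := gB4q0) (G2 := gB2q2) (Ga := gB7q2) (Gb := gB8q2) (D1 := dB4q0) (D2 := dB2q2) (Da := dB7q2) (Db := dB8q2) cB022R_ok B hρ hen (gatB40 x) (gatB22 x) (fun h => absurd h (by decide)) (fun _ => gatB82 x) (datB40 x) (datB22 x) (fun h => absurd h (by decide)) (fun _ => datB82 x) hd hx hx' CW.B022R_427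
  · intro ρ a B hρ hd i h1 h2
    fin_cases i
    · exact absurd h1 (by norm_num)
    · exact absurd h1 (by norm_num)
    · exact absurd h1 (by norm_num)
    · exact absurd h1 (by norm_num)
    · exact absurd h1 (by norm_num)
    · exact absurd h1 (by norm_num)
    · exact absurd h1 (by norm_num)
    · exact corT_cert (G1 := gB4q0) (G2 := gB2q2) (Ga := gB7q2) (Gb := gB8q2) cB022R_ok B hρ (gatB40 x) (gatB22 x) (fun h => absurd h (by decide)) (fun _ => gatB82 x) hd hx hx' CG.B022R_427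

theorem altB_B022R_43 {κ x : ℝ} (hκ : κ * h0 = ken x) (hx : ((649613803 : ℕ) : ℝ) / S ≤ x) (hx' : x ≤ (((649613803 : ℕ) : ℝ) + (48318383 : ℕ)) / S) :
    AltEB 3 κ (eng.v x) (3 / 40) (tnt (h0 * x) (3 / 10)) PP tK tL tC pcB (scP esg pd) [⟨0, 0, 0, 67108864⟩, ⟨1, 1, 0, 67108864⟩, ⟨2, 1, 0, 67108864⟩] 0 2 2 4 3 (sgb true) (sgb false) x := by
  have X : XR 67108864 x := XR.of hx hx' (by norm_num) (by norm_num) (by norm_num) (by norm_num)
  have hen : 0 < eng.v x := en_pos X.x0.le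
  refine CornW.altB (C := cB022R) (j := (4 : Fin 9)) (k := (3 : Fin 9)) (Ef := esg) (pd := pd) (o := 3 / 40)
    (cornW_of (C := cB022R) (C0 := c0B) (En := eng) (mo := mog) (j := (4 : Fin 9)) (k := (3 : Fin 9)) (lo := 8) (hi := 8) (W := 67108864) (N0 := 3) cB022R_q (sideB hx hx') gokB (pinU hx hx') dokB X (by norm_num) (by norm_num) (l := (8 : Fin 9)) rfl
      (gatB40 x) (gatB32 x) (gatB82 x) (datB40 x) (datB32 x) (datB82 x) ?_)
    (cornS_of (C := cB022R) (C0 := c0B) (j := (4 : Fin 9)) (k := (3 : Fin 9)) (lo := 8) (hi := 8) (W := 67108864) (N0 := 3) cB022R_q (sideB hx hx') gokB X (by norm_num) (by norm_num) (l := (8 : Fin 9)) rfl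
      (gatB40 x) (gatB32 x) (gatB82 x) ?_)
    (thU (pinU hx hx')) rfl hκ (fun j q y => tC_eq j q y x) (esg_rng X.x0.le (by linarith [X.b, X.p0])).1 (mo_v x) le_rfl le_rfl
  · intro ρ a B hρ hd i h1 h2
    fin_cases i
    · exact absurd h1 (by norm_num)
    · exact absurd h1 (by norm_num)
    · exact absurd h1 (by norm_num)
    · exact absurd h1 (by norm_num)
    · exact absurd h1 (by norm_num)
    · exact absurd h1 (by norm_num)
    · exact absurd h1 (by norm_num)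
    · exact corW_cert (G1 := gB4q0) (G2 := gB3q2) (Ga := gB7q2) (Gb := gB8q2) (D1 := dB4q0) (D2 := dB3q2) (Da := dB7q2) (Db := dB8q2) cB022R_ok B hρ hen (gatB40 x) (gatB32 x) (fun h => absurd h (by decide)) (fun _ => gatB82 x) (datB40 x) (datB32 x) (fun h => absurd h (by decide)) (fun _ => datB82 x) hd hx hx' CW.B022R_437
  · intro ρ a B hρ hd i h1 h2
    fin_cases i
    · exact absurd h1 (by norm_num)
    · exact absurd h1 (by norm_num)
    · exact absurd h1 (by norm_num)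
    · exact absurd h1 (by norm_num)
    · exact absurd h1 (by norm_num)
    · exact absurd h1 (by norm_num)
    · exact absurd h1 (by norm_num)
    · exact corT_cert (G1 := gB4q0) (G2 := gB3q2) (Ga := gB7q2) (Gb := gB8q2) cB022R_ok B hρ (gatB40 x) (gatB32 x) (fun h => absurd h (by decide)) (fun _ => gatB82 x) hd hx hx' CG.B022R_437

theorem altB_B022R_44 {κ x : ℝ} (hκ : κ * h0 = ken x) (hx : ((649613803 : ℕ) : ℝ) / S ≤ x) (hx' : x ≤ (((649613803 : ℕ) : ℝ) + (48318383 : ℕ)) / S) :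
    AltEB 3 κ (eng.v x) (3 / 40) (tnt (h0 * x) (3 / 10)) PP tK tL tC pcB (scP esg pd) [⟨0, 0, 0, 67108864⟩, ⟨1, 1, 0, 67108864⟩, ⟨2, 1, 0, 67108864⟩] 0 2 2 4 4 (sgb true) (sgb false) x := by
  have X : XR 67108864 x := XR.of hx hx' (by norm_num) (by norm_num) (by norm_num) (by norm_num)
  have hen : 0 < eng.v x := en_pos X.x0.le
  refine CornW.altB (C := cB022R) (j := (4 : Fin 9)) (k := (4 : Fin 9)) (Ef := esg) (pd := pd) (o := 3 / 40)
    (cornW_of (C := cB022R) (C0 := c0B) (En := eng) (mo := mog) (j := (4 : Fin 9)) (k := (4 : Fin 9)) (lo := 8) (hi := 8) (W := 67108864) (N0 := 3) cB022R_q (sideB hx hx') gokB (pinU hx hx') dokB X (by norm_num) (by norm_num) (l := (8 : Fin 9)) rfl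
      (gatB40 x) (gatB42 x) (gatB82 x) (datB40 x) (datB42 x) (datB82 x) ?_)
    (cornS_of (C := cB022R) (C0 := c0B) (j := (4 : Fin 9)) (k := (4 : Fin 9)) (lo := 8) (hi := 8) (W := 67108864) (N0 := 3) cB022R_q (sideB hx hx') gokB X (by norm_num) (by norm_num) (l := (8 : Fin 9)) rfl
      (gatB40 x) (gatB42 x) (gatB82 x) ?_)
    (thU (pinU hx hx')) rfl hκ (fun j q y => tC_eq j q y x) (esg_rng X.x0.le (by linarith [X.b, X.p0])).1 (mo_v x) le_rfl le_rfl
  · intro ρ a B hρ hd i h1 h2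
    fin_cases i
    · exact absurd h1 (by norm_num)
    · exact absurd h1 (by norm_num)
    · exact absurd h1 (by norm_num)
    · exact absurd h1 (by norm_num)
    · exact absurd h1 (by norm_num)
    · exact absurd h1 (by norm_num)
    · exact absurd h1 (by norm_num)
    · exact corW_cert (G1 := gB4q0) (G2 := gB4q2) (Ga := gB7q2) (Gb := gB8q2) (D1 := dB4q0) (D2 := dB4q2) (Da := dB7q2) (Db := dB8q2) cB022R_ok B hρ hen (gatB40 x) (gatB42 x) (fun h => absurd h (by decide)) (fun _ => gatB82 x) (datB40 x) (datB42 x) (fun h => absurd h (by decide)) (fun _ => datB82 x) hd hx hx' CW.B022R_447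
  · intro ρ a B hρ hd i h1 h2
    fin_cases i
    · exact absurd h1 (by norm_num)
    · exact absurd h1 (by norm_num)
    · exact absurd h1 (by norm_num)
    · exact absurd h1 (by norm_num)
    · exact absurd h1 (by norm_num)
    · exact absurd h1 (by norm_num)
    · exact absurd h1 (by norm_num)
    · exact corT_cert (G1 := gB4q0) (G2 := gB4q2) (Ga := gB7q2) (Gb := gB8q2) cB022R_ok B hρ (gatB40 x) (gatB42 x) (fun h => absurd h (by decide)) (fun _ => gatB82 x) hd hx hx' CG.B022R_447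

theorem altB_B101E_00 {κ x : ℝ} (hκ : κ * h0 = ken x) (hx : ((649613803 : ℕ) : ℝ) / S ≤ x) (hx' : x ≤ (((649613803 : ℕ) : ℝ) + (48318383 : ℕ)) / S) :
    AltEB 3 κ (eng.v x) (3 / 40) (tnt (h0 * x) (3 / 10)) PP tK tL tC pcB (scP esg pd) [⟨0, 1, 0, 67108864⟩, ⟨1, 0, 0, 67108864⟩, ⟨2, 1, 0, 67108864⟩] 1 0 1 0 0 (sgb true) (sgb false) x := by
  have X : XR 67108864 x := XR.of hx hx' (by norm_num) (by norm_num) (by norm_num) (by norm_num)
  have hen : 0 < eng.v x := en_pos X.x0.le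
  refine CornW.altB (C := cB101E) (j := (0 : Fin 9)) (k := (0 : Fin 9)) (Ef := esg) (pd := pd) (o := 3 / 40)
    (cornW_of (C := cB101E) (C0 := c0B) (En := eng) (mo := mog) (j := (0 : Fin 9)) (k := (0 : Fin 9)) (lo := 0) (hi := 4) (W := 67108864) (N0 := 3) cB101E_q (sideB hx hx') gokB (pinU hx hx') dokB X (by norm_num) (by norm_num) (l := (0 : Fin 9)) rfl
      (gatB01 x) (gatB01 x) (gatB00 x) (datB01 x) (datB01 x) (datB00 x) ?_)
    (cornS_of (C := cB101E) (C0 := c0B) (j := (0 : Fin 9)) (k := (0 : Fin 9)) (lo := 0) (hi := 4) (W := 67108864) (N0 := 3) cB101E_q (sideB hx hx') gokB X (by norm_num) (by norm_num) (l := (0 : Fin 9)) rfl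
      (gatB01 x) (gatB01 x) (gatB00 x) ?_)
    (thU (pinU hx hx')) rfl hκ (fun j q y => tC_eq j q y x) (esg_rng X.x0.le (by linarith [X.b, X.p0])).1 (mo_v x) le_rfl le_rfl
  · intro ρ a B hρ hd i h1 h2
    fin_cases i
    · exact corW_cert (G1 := gB0q1) (G2 := gB0q1) (Ga := gB0q0) (Gb := gB1q0) (D1 := dB0q1) (D2 := dB0q1) (Da := dB0q0) (Db := dB1q0) cB101E_ok B hρ hen (gatB01 x) (gatB01 x) (fun _ => gatB00 x) (fun _ => gatB10 x) (datB01 x) (datB01 x) (fun _ => datB00 x) (fun _ => datB10 x) hd hx hx' CW.B101E_000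
    · exact corW_cert (G1 := gB0q1) (G2 := gB0q1) (Ga := gB1q0) (Gb := gB2q0) (D1 := dB0q1) (D2 := dB0q1) (Da := dB1q0) (Db := dB2q0) cB101E_ok B hρ hen (gatB01 x) (gatB01 x) (fun _ => gatB10 x) (fun _ => gatB20 x) (datB01 x) (datB01 x) (fun _ => datB10 x) (fun _ => datB20 x) hd hx hx' CW.B101E_001
    · exact corW_cert (G1 := gB0q1) (G2 := gB0q1) (Ga := gB2q0) (Gb := gB3q0) (D1 := dB0q1) (D2 := dB0q1) (Da := dB2q0) (Db := dB3q0) cB101E_ok B hρ hen (gatB01 x) (gatB01 x) (fun _ => gatB20 x) (fun _ => gatB30 x) (datB01 x) (datB01 x) (fun _ => datB20 x) (fun _ => datB30 x) hd hx hx' CW.B101E_002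
    · exact corW_cert (G1 := gB0q1) (G2 := gB0q1) (Ga := gB3q0) (Gb := gB4q0) (D1 := dB0q1) (D2 := dB0q1) (Da := dB3q0) (Db := dB4q0) cB101E_ok B hρ hen (gatB01 x) (gatB01 x) (fun _ => gatB30 x) (fun _ => gatB40 x) (datB01 x) (datB01 x) (fun _ => datB30 x) (fun _ => datB40 x) hd hx hx' CW.B101E_003
    · exact corW_cert (G1 := gB0q1) (G2 := gB0q1) (Ga := gB4q0) (Gb := gB5q0) (D1 := dB0q1) (D2 := dB0q1) (Da := dB4q0) (Db := dB5q0) cB101E_ok B hρ hen (gatB01 x) (gatB01 x) (fun _ => gatB40 x) (fun h => absurd h (by decide)) (datB01 x) (datB01 x) (fun _ => datB40 x) (fun h => absurd h (by decide)) hd hx hx' CW.B101E_004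
    · exact absurd h2 (by norm_num)
    · exact absurd h2 (by norm_num)
    · exact absurd h2 (by norm_num)
  · intro ρ a B hρ hd i h1 h2
    fin_cases i
    · exact corT_cert (G1 := gB0q1) (G2 := gB0q1) (Ga := gB0q0) (Gb := gB1q0) cB101E_ok B hρ (gatB01 x) (gatB01 x) (fun _ => gatB00 x) (fun _ => gatB10 x) hd hx hx' CG.B101E_000
    · exact corT_cert (G1 := gB0q1) (G2 := gB0q1) (Ga := gB1q0) (Gb := gB2q0) cB101E_ok B hρ (gatB01 x) (gatB01 x) (fun _ => gatB10 x) (fun _ => gatB20 x) hd hx hx' CG.B101E_001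
    · exact corT_cert (G1 := gB0q1) (G2 := gB0q1) (Ga := gB2q0) (Gb := gB3q0) cB101E_ok B hρ (gatB01 x) (gatB01 x) (fun _ => gatB20 x) (fun _ => gatB30 x) hd hx hx' CG.B101E_002
    · exact corT_cert (G1 := gB0q1) (G2 := gB0q1) (Ga := gB3q0) (Gb := gB4q0) cB101E_ok B hρ (gatB01 x) (gatB01 x) (fun _ => gatB30 x) (fun _ => gatB40 x) hd hx hx' CG.B101E_003
    · exact corT_cert (G1 := gB0q1) (G2 := gB0q1) (Ga := gB4q0) (Gb := gB5q0) cB101E_ok B hρ (gatB01 x) (gatB01 x) (fun _ => gatB40 x) (fun h => absurd h (by decide)) hd hx hx' CG.B101E_004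
    · exact absurd h2 (by norm_num)
    · exact absurd h2 (by norm_num)
    · exact absurd h2 (by norm_num)

theorem altB_B101L_50 {κ x : ℝ} (hκ : κ * h0 = ken x) (hx : ((649613803 : ℕ) : ℝ) / S ≤ x) (hx' : x ≤ (((649613803 : ℕ) : ℝ) + (48318383 : ℕ)) / S) :
    AltEB 3 κ (eng.v x) (3 / 40) (tnt (h0 * x) (3 / 10)) PP tK tL tC pcB (scP esg pd) [⟨0, 1, 0, 67108864⟩, ⟨1, 0, 0, 67108864⟩, ⟨2, 1, 0, 67108864⟩] 1 0 1 5 0 (sgb true) (sgb true) x := by
  have X : XR 67108864 x := XR.of hx hx' (by norm_num) (by norm_num) (by norm_num) (by norm_num)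
  have hen : 0 < eng.v x := en_pos X.x0.le
  refine CornW.altB (C := cB101L) (j := (5 : Fin 9)) (k := (0 : Fin 9)) (Ef := esg) (pd := pd) (o := 3 / 40)
    (cornW_of (C := cB101L) (C0 := c0B) (En := eng) (mo := mog) (j := (5 : Fin 9)) (k := (0 : Fin 9)) (lo := 0) (hi := 4) (W := 67108864) (N0 := 3) cB101L_q (sideB hx hx') gokB (pinU hx hx') dokB X (by norm_num) (by norm_num) (l := (0 : Fin 9)) rfl
      (gatB51 x) (gatB01 x) (gatB00 x) (datB51 x) (datB01 x) (datB00 x) ?_)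
    (cornS_of (C := cB101L) (C0 := c0B) (j := (5 : Fin 9)) (k := (0 : Fin 9)) (lo := 0) (hi := 4) (W := 67108864) (N0 := 3) cB101L_q (sideB hx hx') gokB X (by norm_num) (by norm_num) (l := (0 : Fin 9)) rfl
      (gatB51 x) (gatB01 x) (gatB00 x) ?_)
    (thU (pinU hx hx')) rfl hκ (fun j q y => tC_eq j q y x) (esg_rng X.x0.le (by linarith [X.b, X.p0])).1 (mo_v x) le_rfl le_rfl
  · intro ρ a B hρ hd i h1 h2
    fin_cases i
    · exact corW_cert (G1 := gB5q1) (G2 := gB0q1) (Ga := gB0q0) (Gb := gB1q0) (D1 := dB5q1) (D2 := dB0q1) (Da := dB0q0) (Db := dB1q0) cB101L_ok B hρ hen (gatB51 x) (gatB01 x) (fun _ => gatB00 x) (fun _ => gatB10 x) (datB51 x) (datB01 x) (fun _ => datB00 x) (fun _ => datB10 x) hd hx hx' CW.B101L_500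
    · exact corW_cert (G1 := gB5q1) (G2 := gB0q1) (Ga := gB1q0) (Gb := gB2q0) (D1 := dB5q1) (D2 := dB0q1) (Da := dB1q0) (Db := dB2q0) cB101L_ok B hρ hen (gatB51 x) (gatB01 x) (fun _ => gatB10 x) (fun _ => gatB20 x) (datB51 x) (datB01 x) (fun _ => datB10 x) (fun _ => datB20 x) hd hx hx' CW.B101L_501
    · exact corW_cert (G1 := gB5q1) (G2 := gB0q1) (Ga := gB2q0) (Gb := gB3q0) (D1 := dB5q1) (D2 := dB0q1) (Da := dB2q0) (Db := dB3q0) cB101L_ok B hρ hen (gatB51 x) (gatB01 x) (fun _ => gatB20 x) (fun _ => gatB30 x) (datB51 x) (datB01 x) (fun _ => datB20 x) (fun _ => datB30 x) hd hx hx' CW.B101L_502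
    · exact corW_cert (G1 := gB5q1) (G2 := gB0q1) (Ga := gB3q0) (Gb := gB4q0) (D1 := dB5q1) (D2 := dB0q1) (Da := dB3q0) (Db := dB4q0) cB101L_ok B hρ hen (gatB51 x) (gatB01 x) (fun _ => gatB30 x) (fun _ => gatB40 x) (datB51 x) (datB01 x) (fun _ => datB30 x) (fun _ => datB40 x) hd hx hx' CW.B101L_503
    · exact corW_cert (G1 := gB5q1) (G2 := gB0q1) (Ga := gB4q0) (Gb := gB5q0) (D1 := dB5q1) (D2 := dB0q1) (Da := dB4q0) (Db := dB5q0) cB101L_ok B hρ hen (gatB51 x) (gatB01 x) (fun _ => gatB40 x) (fun h => absurd h (by decide)) (datB51 x) (datB01 x) (fun _ => datB40 x) (fun h => absurd h (by decide)) hd hx hx' CW.B101L_504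
    · exact absurd h2 (by norm_num)
    · exact absurd h2 (by norm_num)
    · exact absurd h2 (by norm_num)
  · intro ρ a B hρ hd i h1 h2
    fin_cases i
    · exact corT_cert (G1 := gB5q1) (G2 := gB0q1) (Ga := gB0q0) (Gb := gB1q0) cB101L_ok B hρ (gatB51 x) (gatB01 x) (fun _ => gatB00 x) (fun _ => gatB10 x) hd hx hx' CG.B101L_500
    · exact corT_cert (G1 := gB5q1) (G2 := gB0q1) (Ga := gB1q0) (Gb := gB2q0) cB101L_ok B hρ (gatB51 x) (gatB01 x) (fun _ => gatB10 x) (fun _ => gatB20 x) hd hx hx' CG.B101L_501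
    · exact corT_cert (G1 := gB5q1) (G2 := gB0q1) (Ga := gB2q0) (Gb := gB3q0) cB101L_ok B hρ (gatB51 x) (gatB01 x) (fun _ => gatB20 x) (fun _ => gatB30 x) hd hx hx' CG.B101L_502
    · exact corT_cert (G1 := gB5q1) (G2 := gB0q1) (Ga := gB3q0) (Gb := gB4q0) cB101L_ok B hρ (gatB51 x) (gatB01 x) (fun _ => gatB30 x) (fun _ => gatB40 x) hd hx hx' CG.B101L_503
    · exact corT_cert (G1 := gB5q1) (G2 := gB0q1) (Ga := gB4q0) (Gb := gB5q0) cB101L_ok B hρ (gatB51 x) (gatB01 x) (fun _ => gatB40 x) (fun h => absurd h (by decide)) hd hx hx' CG.B101L_504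
    · exact absurd h2 (by norm_num)
    · exact absurd h2 (by norm_num)
    · exact absurd h2 (by norm_num)

theorem altB_B101L_60 {κ x : ℝ} (hκ : κ * h0 = ken x) (hx : ((649613803 : ℕ) : ℝ) / S ≤ x) (hx' : x ≤ (((649613803 : ℕ) : ℝ) + (48318383 : ℕ)) / S) :
    AltEB 3 κ (eng.v x) (3 / 40) (tnt (h0 * x) (3 / 10)) PP tK tL tC pcB (scP esg pd) [⟨0, 1, 0, 67108864⟩, ⟨1, 0, 0, 67108864⟩, ⟨2, 1, 0, 67108864⟩] 1 0 1 6 0 (sgb true) (sgb true) x := by
  have X : XR 67108864 x := XR.of hx hx' (by norm_num) (by norm_num) (by norm_num) (by norm_num)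
  have hen : 0 < eng.v x := en_pos X.x0.le
  refine CornW.altB (C := cB101L) (j := (6 : Fin 9)) (k := (0 : Fin 9)) (Ef := esg) (pd := pd) (o := 3 / 40)
    (cornW_of (C := cB101L) (C0 := c0B) (En := eng) (mo := mog) (j := (6 : Fin 9)) (k := (0 : Fin 9)) (lo := 0) (hi := 4) (W := 67108864) (N0 := 3) cB101L_q (sideB hx hx') gokB (pinU hx hx') dokB X (by norm_num) (by norm_num) (l := (0 : Fin 9)) rfl
      (gatB61 x) (gatB01 x) (gatB00 x) (datB61 x) (datB01 x) (datB00 x) ?_)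
    (cornS_of (C := cB101L) (C0 := c0B) (j := (6 : Fin 9)) (k := (0 : Fin 9)) (lo := 0) (hi := 4) (W := 67108864) (N0 := 3) cB101L_q (sideB hx hx') gokB X (by norm_num) (by norm_num) (l := (0 : Fin 9)) rfl
      (gatB61 x) (gatB01 x) (gatB00 x) ?_)
    (thU (pinU hx hx')) rfl hκ (fun j q y => tC_eq j q y x) (esg_rng X.x0.le (by linarith [X.b, X.p0])).1 (mo_v x) le_rfl le_rfl
  · intro ρ a B hρ hd i h1 h2
    fin_cases i
    · exact corW_cert (G1 := gB6q1) (G2 := gB0q1) (Ga := gB0q0) (Gb := gB1q0) (D1 := dB6q1) (D2 := dB0q1) (Da := dB0q0) (Db := dB1q0) cB101L_ok B hρ hen (gatB61 x) (gatB01 x) (fun _ => gatB00 x) (fun _ => gatB10 x) (datB61 x) (datB01 x) (fun _ => datB00 x) (fun _ => datB10 x) hd hx hx' CW.B101L_600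
    · exact corW_cert (G1 := gB6q1) (G2 := gB0q1) (Ga := gB1q0) (Gb := gB2q0) (D1 := dB6q1) (D2 := dB0q1) (Da := dB1q0) (Db := dB2q0) cB101L_ok B hρ hen (gatB61 x) (gatB01 x) (fun _ => gatB10 x) (fun _ => gatB20 x) (datB61 x) (datB01 x) (fun _ => datB10 x) (fun _ => datB20 x) hd hx hx' CW.B101L_601
    · exact corW_cert (G1 := gB6q1) (G2 := gB0q1) (Ga := gB2q0) (Gb := gB3q0) (D1 := dB6q1) (D2 := dB0q1) (Da := dB2q0) (Db := dB3q0) cB101L_ok B hρ hen (gatB61 x) (gatB01 x) (fun _ => gatB20 x) (fun _ => gatB30 x) (datB61 x) (datB01 x) (fun _ => datB20 x) (fun _ => datB30 x) hd hx hx' CW.B101L_602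
    · exact corW_cert (G1 := gB6q1) (G2 := gB0q1) (Ga := gB3q0) (Gb := gB4q0) (D1 := dB6q1) (D2 := dB0q1) (Da := dB3q0) (Db := dB4q0) cB101L_ok B hρ hen (gatB61 x) (gatB01 x) (fun _ => gatB30 x) (fun _ => gatB40 x) (datB61 x) (datB01 x) (fun _ => datB30 x) (fun _ => datB40 x) hd hx hx' CW.B101L_603
    · exact corW_cert (G1 := gB6q1) (G2 := gB0q1) (Ga := gB4q0) (Gb := gB5q0) (D1 := dB6q1) (D2 := dB0q1) (Da := dB4q0) (Db := dB5q0) cB101L_ok B hρ hen (gatB61 x) (gatB01 x) (fun _ => gatB40 x) (fun h => absurd h (by decide)) (datB61 x) (datB01 x) (fun _ => datB40 x) (fun h => absurd h (by decide)) hd hx hx' CW.B101L_604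
    · exact absurd h2 (by norm_num)
    · exact absurd h2 (by norm_num)
    · exact absurd h2 (by norm_num)
  · intro ρ a B hρ hd i h1 h2
    fin_cases i
    · exact corT_cert (G1 := gB6q1) (G2 := gB0q1) (Ga := gB0q0) (Gb := gB1q0) cB101L_ok B hρ (gatB61 x) (gatB01 x) (fun _ => gatB00 x) (fun _ => gatB10 x) hd hx hx' CG.B101L_600
    · exact corT_cert (G1 := gB6q1) (G2 := gB0q1) (Ga := gB1q0) (Gb := gB2q0) cB101L_ok B hρ (gatB61 x) (gatB01 x) (fun _ => gatB10 x) (fun _ => gatB20 x) hd hx hx' CG.B101L_601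
    · exact corT_cert (G1 := gB6q1) (G2 := gB0q1) (Ga := gB2q0) (Gb := gB3q0) cB101L_ok B hρ (gatB61 x) (gatB01 x) (fun _ => gatB20 x) (fun _ => gatB30 x) hd hx hx' CG.B101L_602
    · exact corT_cert (G1 := gB6q1) (G2 := gB0q1) (Ga := gB3q0) (Gb := gB4q0) cB101L_ok B hρ (gatB61 x) (gatB01 x) (fun _ => gatB30 x) (fun _ => gatB40 x) hd hx hx' CG.B101L_603
    · exact corT_cert (G1 := gB6q1) (G2 := gB0q1) (Ga := gB4q0) (Gb := gB5q0) cB101L_ok B hρ (gatB61 x) (gatB01 x) (fun _ => gatB40 x) (fun h => absurd h (by decide)) hd hx hx' CG.B101L_604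
    · exact absurd h2 (by norm_num)
    · exact absurd h2 (by norm_num)
    · exact absurd h2 (by norm_num)

theorem altB_B101L_70 {κ x : ℝ} (hκ : κ * h0 = ken x) (hx : ((649613803 : ℕ) : ℝ) / S ≤ x) (hx' : x ≤ (((649613803 : ℕ) : ℝ) + (48318383 : ℕ)) / S) :
    AltEB 3 κ (eng.v x) (3 / 40) (tnt (h0 * x) (3 / 10)) PP tK tL tC pcB (scP esg pd) [⟨0, 1, 0, 67108864⟩, ⟨1, 0, 0, 67108864⟩, ⟨2, 1, 0, 67108864⟩] 1 0 1 7 0 (sgb true) (sgb true) x := by
  have X : XR 67108864 x := XR.of hx hx' (by norm_num) (by norm_num) (by norm_num) (by norm_num)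
  have hen : 0 < eng.v x := en_pos X.x0.le
  refine CornW.altB (C := cB101L) (j := (7 : Fin 9)) (k := (0 : Fin 9)) (Ef := esg) (pd := pd) (o := 3 / 40)
    (cornW_of (C := cB101L) (C0 := c0B) (En := eng) (mo := mog) (j := (7 : Fin 9)) (k := (0 : Fin 9)) (lo := 0) (hi := 4) (W := 67108864) (N0 := 3) cB101L_q (sideB hx hx') gokB (pinU hx hx') dokB X (by norm_num) (by norm_num) (l := (0 : Fin 9)) rfl
      (gatB71 x) (gatB01 x) (gatB00 x) (datB71 x) (datB01 x) (datB00 x) ?_)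
    (cornS_of (C := cB101L) (C0 := c0B) (j := (7 : Fin 9)) (k := (0 : Fin 9)) (lo := 0) (hi := 4) (W := 67108864) (N0 := 3) cB101L_q (sideB hx hx') gokB X (by norm_num) (by norm_num) (l := (0 : Fin 9)) rfl
      (gatB71 x) (gatB01 x) (gatB00 x) ?_)
    (thU (pinU hx hx')) rfl hκ (fun j q y => tC_eq j q y x) (esg_rng X.x0.le (by linarith [X.b, X.p0])).1 (mo_v x) le_rfl le_rfl
  · intro ρ a B hρ hd i h1 h2
    fin_cases i
    · exact corW_cert (G1 := gB7q1) (G2 := gB0q1) (Ga := gB0q0) (Gb := gB1q0) (D1 := dB7q1) (D2 := dB0q1) (Da := dB0q0) (Db := dB1q0) cB101L_ok B hρ hen (gatB71 x) (gatB01 x) (fun _ => gatB00 x) (fun _ => gatB10 x) (datB71 x) (datB01 x) (fun _ => datB00 x) (fun _ => datB10 x) hd hx hx' CW.B101L_700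
    · exact corW_cert (G1 := gB7q1) (G2 := gB0q1) (Ga := gB1q0) (Gb := gB2q0) (D1 := dB7q1) (D2 := dB0q1) (Da := dB1q0) (Db := dB2q0) cB101L_ok B hρ hen (gatB71 x) (gatB01 x) (fun _ => gatB10 x) (fun _ => gatB20 x) (datB71 x) (datB01 x) (fun _ => datB10 x) (fun _ => datB20 x) hd hx hx' CW.B101L_701
    · exact corW_cert (G1 := gB7q1) (G2 := gB0q1) (Ga := gB2q0) (Gb := gB3q0) (D1 := dB7q1) (D2 := dB0q1) (Da := dB2q0) (Db := dB3q0) cB101L_ok B hρ hen (gatB71 x) (gatB01 x) (fun _ => gatB20 x) (fun _ => gatB30 x) (datB71 x) (datB01 x) (fun _ => datB20 x) (fun _ => datB30 x) hd hx hx' CW.B101L_702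
    · exact corW_cert (G1 := gB7q1) (G2 := gB0q1) (Ga := gB3q0) (Gb := gB4q0) (D1 := dB7q1) (D2 := dB0q1) (Da := dB3q0) (Db := dB4q0) cB101L_ok B hρ hen (gatB71 x) (gatB01 x) (fun _ => gatB30 x) (fun _ => gatB40 x) (datB71 x) (datB01 x) (fun _ => datB30 x) (fun _ => datB40 x) hd hx hx' CW.B101L_703
    · exact corW_cert (G1 := gB7q1) (G2 := gB0q1) (Ga := gB4q0) (Gb := gB5q0) (D1 := dB7q1) (D2 := dB0q1) (Da := dB4q0) (Db := dB5q0) cB101L_ok B hρ hen (gatB71 x) (gatB01 x) (fun _ => gatB40 x) (fun h => absurd h (by decide)) (datB71 x) (datB01 x) (fun _ => datB40 x) (fun h => absurd h (by decide)) hd hx hx' CW.B101L_704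
    · exact absurd h2 (by norm_num)
    · exact absurd h2 (by norm_num)
    · exact absurd h2 (by norm_num)
  · intro ρ a B hρ hd i h1 h2
    fin_cases i
    · exact corT_cert (G1 := gB7q1) (G2 := gB0q1) (Ga := gB0q0) (Gb := gB1q0) cB101L_ok B hρ (gatB71 x) (gatB01 x) (fun _ => gatB00 x) (fun _ => gatB10 x) hd hx hx' CG.B101L_700
    · exact corT_cert (G1 := gB7q1) (G2 := gB0q1) (Ga := gB1q0) (Gb := gB2q0) cB101L_ok B hρ (gatB71 x) (gatB01 x) (fun _ => gatB10 x) (fun _ => gatB20 x) hd hx hx' CG.B101L_701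
    · exact corT_cert (G1 := gB7q1) (G2 := gB0q1) (Ga := gB2q0) (Gb := gB3q0) cB101L_ok B hρ (gatB71 x) (gatB01 x) (fun _ => gatB20 x) (fun _ => gatB30 x) hd hx hx' CG.B101L_702
    · exact corT_cert (G1 := gB7q1) (G2 := gB0q1) (Ga := gB3q0) (Gb := gB4q0) cB101L_ok B hρ (gatB71 x) (gatB01 x) (fun _ => gatB30 x) (fun _ => gatB40 x) hd hx hx' CG.B101L_703
    · exact corT_cert (G1 := gB7q1) (G2 := gB0q1) (Ga := gB4q0) (Gb := gB5q0) cB101L_ok B hρ (gatB71 x) (gatB01 x) (fun _ => gatB40 x) (fun h => absurd h (by decide)) hd hx hx' CG.B101L_704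
    · exact absurd h2 (by norm_num)
    · exact absurd h2 (by norm_num)
    · exact absurd h2 (by norm_num)

theorem altB_B101L_80 {κ x : ℝ} (hκ : κ * h0 = ken x) (hx : ((649613803 : ℕ) : ℝ) / S ≤ x) (hx' : x ≤ (((649613803 : ℕ) : ℝ) + (48318383 : ℕ)) / S) :
    AltEB 3 κ (eng.v x) (3 / 40) (tnt (h0 * x) (3 / 10)) PP tK tL tC pcB (scP esg pd) [⟨0, 1, 0, 53687091⟩, ⟨1, 0, 0, 53687091⟩, ⟨2, 1, 0, 53687091⟩] 1 0 1 8 0 (sgb true) (sgb true) x := by
  have X : XR 53687091 x := XR.of hx hx' (by norm_num) (by norm_num) (by norm_num) (by norm_num)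
  have hen : 0 < eng.v x := en_pos X.x0.le
  refine CornW.altB (C := cB101L) (j := (8 : Fin 9)) (k := (0 : Fin 9)) (Ef := esg) (pd := pd) (o := 3 / 40)
    (cornW_of (C := cB101L) (C0 := c0B) (En := eng) (mo := mog) (j := (8 : Fin 9)) (k := (0 : Fin 9)) (lo := 0) (hi := 4) (W := 53687091) (N0 := 3) cB101L_q (sideB hx hx') gokB (pinU hx hx') dokB X (by norm_num) (by norm_num) (l := (0 : Fin 9)) rfl
      (gatB81 x) (gatB01 x) (gatB00 x) (datB81 x) (datB01 x) (datB00 x) ?_)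
    (cornS_of (C := cB101L) (C0 := c0B) (j := (8 : Fin 9)) (k := (0 : Fin 9)) (lo := 0) (hi := 4) (W := 53687091) (N0 := 3) cB101L_q (sideB hx hx') gokB X (by norm_num) (by norm_num) (l := (0 : Fin 9)) rfl
      (gatB81 x) (gatB01 x) (gatB00 x) ?_)
    (thU (pinU hx hx')) rfl hκ (fun j q y => tC_eq j q y x) (esg_rng X.x0.le (by linarith [X.b, X.p0])).1 (mo_v x) le_rfl le_rfl
  · intro ρ a B hρ hd i h1 h2
    fin_cases i
    · exact corW_cert (G1 := gB8q1) (G2 := gB0q1) (Ga := gB0q0) (Gb := gB1q0) (D1 := dB8q1) (D2 := dB0q1) (Da := dB0q0) (Db := dB1q0) cB101L_ok B hρ hen (gatB81 x) (gatB01 x) (fun _ => gatB00 x) (fun _ => gatB10 x) (datB81 x) (datB01 x) (fun _ => datB00 x) (fun _ => datB10 x) hd hx hx' CW.B101L_800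
    · exact corW_cert (G1 := gB8q1) (G2 := gB0q1) (Ga := gB1q0) (Gb := gB2q0) (D1 := dB8q1) (D2 := dB0q1) (Da := dB1q0) (Db := dB2q0) cB101L_ok B hρ hen (gatB81 x) (gatB01 x) (fun _ => gatB10 x) (fun _ => gatB20 x) (datB81 x) (datB01 x) (fun _ => datB10 x) (fun _ => datB20 x) hd hx hx' CW.B101L_801
    · exact corW_cert (G1 := gB8q1) (G2 := gB0q1) (Ga := gB2q0) (Gb := gB3q0) (D1 := dB8q1) (D2 := dB0q1) (Da := dB2q0) (Db := dB3q0) cB101L_ok B hρ hen (gatB81 x) (gatB01 x) (fun _ => gatB20 x) (fun _ => gatB30 x) (datB81 x) (datB01 x) (fun _ => datB20 x) (fun _ => datB30 x) hd hx hx' CW.B101L_802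
    · exact corW_cert (G1 := gB8q1) (G2 := gB0q1) (Ga := gB3q0) (Gb := gB4q0) (D1 := dB8q1) (D2 := dB0q1) (Da := dB3q0) (Db := dB4q0) cB101L_ok B hρ hen (gatB81 x) (gatB01 x) (fun _ => gatB30 x) (fun _ => gatB40 x) (datB81 x) (datB01 x) (fun _ => datB30 x) (fun _ => datB40 x) hd hx hx' CW.B101L_803
    · exact corW_cert (G1 := gB8q1) (G2 := gB0q1) (Ga := gB4q0) (Gb := gB5q0) (D1 := dB8q1) (D2 := dB0q1) (Da := dB4q0) (Db := dB5q0) cB101L_ok B hρ hen (gatB81 x) (gatB01 x) (fun _ => gatB40 x) (fun h => absurd h (by decide)) (datB81 x) (datB01 x) (fun _ => datB40 x) (fun h => absurd h (by decide)) hd hx hx' CW.B101L_804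
    · exact absurd h2 (by norm_num)
    · exact absurd h2 (by norm_num)
    · exact absurd h2 (by norm_num)
  · intro ρ a B hρ hd i h1 h2
    fin_cases i
    · exact corX_cert (G1 := gB8q1) (G2 := gB0q1) (Ga := gB0q0) (Gb := gB1q0) (GT := gB0q0) cB101L_ok tB101L_ok B hρ (gatB81 x) (gatB01 x) (fun _ => gatB00 x) (fun _ => gatB10 x) rfl (tgh_B101L (kodd x) (gpt1 x) (gpu1 x) (gpu0 x) (gatB81 x) (gatB01 x) (gatB00 x) B (le_sixteenth hd (by norm_num))) hd hx hx' CG.B101L_800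
    · exact corT_cert (G1 := gB8q1) (G2 := gB0q1) (Ga := gB1q0) (Gb := gB2q0) cB101L_ok B hρ (gatB81 x) (gatB01 x) (fun _ => gatB10 x) (fun _ => gatB20 x) hd hx hx' CG.B101L_801
    · exact corT_cert (G1 := gB8q1) (G2 := gB0q1) (Ga := gB2q0) (Gb := gB3q0) cB101L_ok B hρ (gatB81 x) (gatB01 x) (fun _ => gatB20 x) (fun _ => gatB30 x) hd hx hx' CG.B101L_802
    · exact corT_cert (G1 := gB8q1) (G2 := gB0q1) (Ga := gB3q0) (Gb := gB4q0) cB101L_ok B hρ (gatB81 x) (gatB01 x) (fun _ => gatB30 x) (fun _ => gatB40 x) hd hx hx' CG.B101L_803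
    · exact corT_cert (G1 := gB8q1) (G2 := gB0q1) (Ga := gB4q0) (Gb := gB5q0) cB101L_ok B hρ (gatB81 x) (gatB01 x) (fun _ => gatB40 x) (fun h => absurd h (by decide)) hd hx hx' CG.B101L_804
    · exact absurd h2 (by norm_num)
    · exact absurd h2 (by norm_num)
    · exact absurd h2 (by norm_num)

theorem altB_B101R_05 {κ x : ℝ} (hκ : κ * h0 = ken x) (hx : ((649613803 : ℕ) : ℝ) / S ≤ x) (hx' : x ≤ (((649613803 : ℕ) : ℝ) + (48318383 : ℕ)) / S) :
    AltEB 3 κ (eng.v x) (3 / 40) (tnt (h0 * x) (3 / 10)) PP tK tL tC pcB (scP esg pd) [⟨0, 1, 0, 67108864⟩, ⟨1, 0, 0, 67108864⟩, ⟨2, 1, 0, 67108864⟩] 1 0 1 0 5 (sgb false) (sgb false) x := by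
  have X : XR 67108864 x := XR.of hx hx' (by norm_num) (by norm_num) (by norm_num) (by norm_num)
  have hen : 0 < eng.v x := en_pos X.x0.le
  refine CornW.altB (C := cB101R) (j := (0 : Fin 9)) (k := (5 : Fin 9)) (Ef := esg) (pd := pd) (o := 3 / 40)
    (cornW_of (C := cB101R) (C0 := c0B) (En := eng) (mo := mog) (j := (0 : Fin 9)) (k := (5 : Fin 9)) (lo := 0) (hi := 4) (W := 67108864) (N0 := 3) cB101R_q (sideB hx hx') gokB (pinU hx hx') dokB X (by norm_num) (by norm_num) (l := (0 : Fin 9)) rfl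
      (gatB01 x) (gatB51 x) (gatB00 x) (datB01 x) (datB51 x) (datB00 x) ?_)
    (cornS_of (C := cB101R) (C0 := c0B) (j := (0 : Fin 9)) (k := (5 : Fin 9)) (lo := 0) (hi := 4) (W := 67108864) (N0 := 3) cB101R_q (sideB hx hx') gokB X (by norm_num) (by norm_num) (l := (0 : Fin 9)) rfl
      (gatB01 x) (gatB51 x) (gatB00 x) ?_)
    (thU (pinU hx hx')) rfl hκ (fun j q y => tC_eq j q y x) (esg_rng X.x0.le (by linarith [X.b, X.p0])).1 (mo_v x) le_rfl le_rfl
  · intro ρ a B hρ hd i h1 h2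
    fin_cases i
    · exact corW_cert (G1 := gB0q1) (G2 := gB5q1) (Ga := gB0q0) (Gb := gB1q0) (D1 := dB0q1) (D2 := dB5q1) (Da := dB0q0) (Db := dB1q0) cB101R_ok B hρ hen (gatB01 x) (gatB51 x) (fun _ => gatB00 x) (fun _ => gatB10 x) (datB01 x) (datB51 x) (fun _ => datB00 x) (fun _ => datB10 x) hd hx hx' CW.B101R_050
    · exact corW_cert (G1 := gB0q1) (G2 := gB5q1) (Ga := gB1q0) (Gb := gB2q0) (D1 := dB0q1) (D2 := dB5q1) (Da := dB1q0) (Db := dB2q0) cB101R_ok B hρ hen (gatB01 x) (gatB51 x) (fun _ => gatB10 x) (fun _ => gatB20 x) (datB01 x) (datB51 x) (fun _ => datB10 x) (fun _ => datB20 x) hd hx hx' CW.B101R_051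
    · exact corW_cert (G1 := gB0q1) (G2 := gB5q1) (Ga := gB2q0) (Gb := gB3q0) (D1 := dB0q1) (D2 := dB5q1) (Da := dB2q0) (Db := dB3q0) cB101R_ok B hρ hen (gatB01 x) (gatB51 x) (fun _ => gatB20 x) (fun _ => gatB30 x) (datB01 x) (datB51 x) (fun _ => datB20 x) (fun _ => datB30 x) hd hx hx' CW.B101R_052
    · exact corW_cert (G1 := gB0q1) (G2 := gB5q1) (Ga := gB3q0) (Gb := gB4q0) (D1 := dB0q1) (D2 := dB5q1) (Da := dB3q0) (Db := dB4q0) cB101R_ok B hρ hen (gatB01 x) (gatB51 x) (fun _ => gatB30 x) (fun _ => gatB40 x) (datB01 x) (datB51 x) (fun _ => datB30 x) (fun _ => datB40 x) hd hx hx' CW.B101R_053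
    · exact corW_cert (G1 := gB0q1) (G2 := gB5q1) (Ga := gB4q0) (Gb := gB5q0) (D1 := dB0q1) (D2 := dB5q1) (Da := dB4q0) (Db := dB5q0) cB101R_ok B hρ hen (gatB01 x) (gatB51 x) (fun _ => gatB40 x) (fun h => absurd h (by decide)) (datB01 x) (datB51 x) (fun _ => datB40 x) (fun h => absurd h (by decide)) hd hx hx' CW.B101R_054
    · exact absurd h2 (by norm_num)
    · exact absurd h2 (by norm_num)
    · exact absurd h2 (by norm_num)
  · intro ρ a B hρ hd i h1 h2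
    fin_cases i
    · exact corT_cert (G1 := gB0q1) (G2 := gB5q1) (Ga := gB0q0) (Gb := gB1q0) cB101R_ok B hρ (gatB01 x) (gatB51 x) (fun _ => gatB00 x) (fun _ => gatB10 x) hd hx hx' CG.B101R_050
    · exact corT_cert (G1 := gB0q1) (G2 := gB5q1) (Ga := gB1q0) (Gb := gB2q0) cB101R_ok B hρ (gatB01 x) (gatB51 x) (fun _ => gatB10 x) (fun _ => gatB20 x) hd hx hx' CG.B101R_051
    · exact corT_cert (G1 := gB0q1) (G2 := gB5q1) (Ga := gB2q0) (Gb := gB3q0) cB101R_ok B hρ (gatB01 x) (gatB51 x) (fun _ => gatB20 x) (fun _ => gatB30 x) hd hx hx' CG.B101R_052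
    · exact corT_cert (G1 := gB0q1) (G2 := gB5q1) (Ga := gB3q0) (Gb := gB4q0) cB101R_ok B hρ (gatB01 x) (gatB51 x) (fun _ => gatB30 x) (fun _ => gatB40 x) hd hx hx' CG.B101R_053
    · exact corT_cert (G1 := gB0q1) (G2 := gB5q1) (Ga := gB4q0) (Gb := gB5q0) cB101R_ok B hρ (gatB01 x) (gatB51 x) (fun _ => gatB40 x) (fun h => absurd h (by decide)) hd hx hx' CG.B101R_054
    · exact absurd h2 (by norm_num)
    · exact absurd h2 (by norm_num)
    · exact absurd h2 (by norm_num)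

theorem altB_B101R_06 {κ x : ℝ} (hκ : κ * h0 = ken x) (hx : ((649613803 : ℕ) : ℝ) / S ≤ x) (hx' : x ≤ (((649613803 : ℕ) : ℝ) + (48318383 : ℕ)) / S) :
    AltEB 3 κ (eng.v x) (3 / 40) (tnt (h0 * x) (3 / 10)) PP tK tL tC pcB (scP esg pd) [⟨0, 1, 0, 67108864⟩, ⟨1, 0, 0, 67108864⟩, ⟨2, 1, 0, 67108864⟩] 1 0 1 0 6 (sgb false) (sgb false) x := by
  have X : XR 67108864 x := XR.of hx hx' (by norm_num) (by norm_num) (by norm_num) (by norm_num)
  have hen : 0 < eng.v x := en_pos X.x0.le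
  refine CornW.altB (C := cB101R) (j := (0 : Fin 9)) (k := (6 : Fin 9)) (Ef := esg) (pd := pd) (o := 3 / 40)
    (cornW_of (C := cB101R) (C0 := c0B) (En := eng) (mo := mog) (j := (0 : Fin 9)) (k := (6 : Fin 9)) (lo := 0) (hi := 4) (W := 67108864) (N0 := 3) cB101R_q (sideB hx hx') gokB (pinU hx hx') dokB X (by norm_num) (by norm_num) (l := (0 : Fin 9)) rfl
      (gatB01 x) (gatB61 x) (gatB00 x) (datB01 x) (datB61 x) (datB00 x) ?_)
    (cornS_of (C := cB101R) (C0 := c0B) (j := (0 : Fin 9)) (k := (6 : Fin 9)) (lo := 0) (hi := 4) (W := 67108864) (N0 := 3) cB101R_q (sideB hx hx') gokB X (by norm_num) (by norm_num) (l := (0 : Fin 9)) rfl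
      (gatB01 x) (gatB61 x) (gatB00 x) ?_)
    (thU (pinU hx hx')) rfl hκ (fun j q y => tC_eq j q y x) (esg_rng X.x0.le (by linarith [X.b, X.p0])).1 (mo_v x) le_rfl le_rfl
  · intro ρ a B hρ hd i h1 h2
    fin_cases i
    · exact corW_cert (G1 := gB0q1) (G2 := gB6q1) (Ga := gB0q0) (Gb := gB1q0) (D1 := dB0q1) (D2 := dB6q1) (Da := dB0q0) (Db := dB1q0) cB101R_ok B hρ hen (gatB01 x) (gatB61 x) (fun _ => gatB00 x) (fun _ => gatB10 x) (datB01 x) (datB61 x) (fun _ => datB00 x) (fun _ => datB10 x) hd hx hx' CW.B101R_060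
    · exact corW_cert (G1 := gB0q1) (G2 := gB6q1) (Ga := gB1q0) (Gb := gB2q0) (D1 := dB0q1) (D2 := dB6q1) (Da := dB1q0) (Db := dB2q0) cB101R_ok B hρ hen (gatB01 x) (gatB61 x) (fun _ => gatB10 x) (fun _ => gatB20 x) (datB01 x) (datB61 x) (fun _ => datB10 x) (fun _ => datB20 x) hd hx hx' CW.B101R_061
    · exact corW_cert (G1 := gB0q1) (G2 := gB6q1) (Ga := gB2q0) (Gb := gB3q0) (D1 := dB0q1) (D2 := dB6q1) (Da := dB2q0) (Db := dB3q0) cB101R_ok B hρ hen (gatB01 x) (gatB61 x) (fun _ => gatB20 x) (fun _ => gatB30 x) (datB01 x) (datB61 x) (fun _ => datB20 x) (fun _ => datB30 x) hd hx hx' CW.B101R_062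
    · exact corW_cert (G1 := gB0q1) (G2 := gB6q1) (Ga := gB3q0) (Gb := gB4q0) (D1 := dB0q1) (D2 := dB6q1) (Da := dB3q0) (Db := dB4q0) cB101R_ok B hρ hen (gatB01 x) (gatB61 x) (fun _ => gatB30 x) (fun _ => gatB40 x) (datB01 x) (datB61 x) (fun _ => datB30 x) (fun _ => datB40 x) hd hx hx' CW.B101R_063
    · exact corW_cert (G1 := gB0q1) (G2 := gB6q1) (Ga := gB4q0) (Gb := gB5q0) (D1 := dB0q1) (D2 := dB6q1) (Da := dB4q0) (Db := dB5q0) cB101R_ok B hρ hen (gatB01 x) (gatB61 x) (fun _ => gatB40 x) (fun h => absurd h (by decide)) (datB01 x) (datB61 x) (fun _ => datB40 x) (fun h => absurd h (by decide)) hd hx hx' CW.B101R_064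
    · exact absurd h2 (by norm_num)
    · exact absurd h2 (by norm_num)
    · exact absurd h2 (by norm_num)
  · intro ρ a B hρ hd i h1 h2
    fin_cases i
    · exact corT_cert (G1 := gB0q1) (G2 := gB6q1) (Ga := gB0q0) (Gb := gB1q0) cB101R_ok B hρ (gatB01 x) (gatB61 x) (fun _ => gatB00 x) (fun _ => gatB10 x) hd hx hx' CG.B101R_060
    · exact corT_cert (G1 := gB0q1) (G2 := gB6q1) (Ga := gB1q0) (Gb := gB2q0) cB101R_ok B hρ (gatB01 x) (gatB61 x) (fun _ => gatB10 x) (fun _ => gatB20 x) hd hx hx' CG.B101R_061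
    · exact corT_cert (G1 := gB0q1) (G2 := gB6q1) (Ga := gB2q0) (Gb := gB3q0) cB101R_ok B hρ (gatB01 x) (gatB61 x) (fun _ => gatB20 x) (fun _ => gatB30 x) hd hx hx' CG.B101R_062
    · exact corT_cert (G1 := gB0q1) (G2 := gB6q1) (Ga := gB3q0) (Gb := gB4q0) cB101R_ok B hρ (gatB01 x) (gatB61 x) (fun _ => gatB30 x) (fun _ => gatB40 x) hd hx hx' CG.B101R_063
    · exact corT_cert (G1 := gB0q1) (G2 := gB6q1) (Ga := gB4q0) (Gb := gB5q0) cB101R_ok B hρ (gatB01 x) (gatB61 x) (fun _ => gatB40 x) (fun h => absurd h (by decide)) hd hx hx' CG.B101R_064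
    · exact absurd h2 (by norm_num)
    · exact absurd h2 (by norm_num)
    · exact absurd h2 (by norm_num)

theorem altB_B101R_07 {κ x : ℝ} (hκ : κ * h0 = ken x) (hx : ((649613803 : ℕ) : ℝ) / S ≤ x) (hx' : x ≤ (((649613803 : ℕ) : ℝ) + (48318383 : ℕ)) / S) :
    AltEB 3 κ (eng.v x) (3 / 40) (tnt (h0 * x) (3 / 10)) PP tK tL tC pcB (scP esg pd) [⟨0, 1, 0, 67108864⟩, ⟨1, 0, 0, 67108864⟩, ⟨2, 1, 0, 67108864⟩] 1 0 1 0 7 (sgb false) (sgb false) x := by
  have X : XR 67108864 x := XR.of hx hx' (by norm_num) (by norm_num) (by norm_num) (by norm_num)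
  have hen : 0 < eng.v x := en_pos X.x0.le
  refine CornW.altB (C := cB101R) (j := (0 : Fin 9)) (k := (7 : Fin 9)) (Ef := esg) (pd := pd) (o := 3 / 40)
    (cornW_of (C := cB101R) (C0 := c0B) (En := eng) (mo := mog) (j := (0 : Fin 9)) (k := (7 : Fin 9)) (lo := 0) (hi := 4) (W := 67108864) (N0 := 3) cB101R_q (sideB hx hx') gokB (pinU hx hx') dokB X (by norm_num) (by norm_num) (l := (0 : Fin 9)) rfl
      (gatB01 x) (gatB71 x) (gatB00 x) (datB01 x) (datB71 x) (datB00 x) ?_)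
    (cornS_of (C := cB101R) (C0 := c0B) (j := (0 : Fin 9)) (k := (7 : Fin 9)) (lo := 0) (hi := 4) (W := 67108864) (N0 := 3) cB101R_q (sideB hx hx') gokB X (by norm_num) (by norm_num) (l := (0 : Fin 9)) rfl
      (gatB01 x) (gatB71 x) (gatB00 x) ?_)
    (thU (pinU hx hx')) rfl hκ (fun j q y => tC_eq j q y x) (esg_rng X.x0.le (by linarith [X.b, X.p0])).1 (mo_v x) le_rfl le_rfl
  · intro ρ a B hρ hd i h1 h2
    fin_cases i
    · exact corW_cert (G1 := gB0q1) (G2 := gB7q1) (Ga := gB0q0) (Gb := gB1q0) (D1 := dB0q1) (D2 := dB7q1) (Da := dB0q0) (Db := dB1q0) cB101R_ok B hρ hen (gatB01 x) (gatB71 x) (fun _ => gatB00 x) (fun _ => gatB10 x) (datB01 x) (datB71 x) (fun _ => datB00 x) (fun _ => datB10 x) hd hx hx' CW.B101R_070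
    · exact corW_cert (G1 := gB0q1) (G2 := gB7q1) (Ga := gB1q0) (Gb := gB2q0) (D1 := dB0q1) (D2 := dB7q1) (Da := dB1q0) (Db := dB2q0) cB101R_ok B hρ hen (gatB01 x) (gatB71 x) (fun _ => gatB10 x) (fun _ => gatB20 x) (datB01 x) (datB71 x) (fun _ => datB10 x) (fun _ => datB20 x) hd hx hx' CW.B101R_071
    · exact corW_cert (G1 := gB0q1) (G2 := gB7q1) (Ga := gB2q0) (Gb := gB3q0) (D1 := dB0q1) (D2 := dB7q1) (Da := dB2q0) (Db := dB3q0) cB101R_ok B hρ hen (gatB01 x) (gatB71 x) (fun _ => gatB20 x) (fun _ => gatB30 x) (datB01 x) (datB71 x) (fun _ => datB20 x) (fun _ => datB30 x) hd hx hx' CW.B101R_072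
    · exact corW_cert (G1 := gB0q1) (G2 := gB7q1) (Ga := gB3q0) (Gb := gB4q0) (D1 := dB0q1) (D2 := dB7q1) (Da := dB3q0) (Db := dB4q0) cB101R_ok B hρ hen (gatB01 x) (gatB71 x) (fun _ => gatB30 x) (fun _ => gatB40 x) (datB01 x) (datB71 x) (fun _ => datB30 x) (fun _ => datB40 x) hd hx hx' CW.B101R_073
    · exact corW_cert (G1 := gB0q1) (G2 := gB7q1) (Ga := gB4q0) (Gb := gB5q0) (D1 := dB0q1) (D2 := dB7q1) (Da := dB4q0) (Db := dB5q0) cB101R_ok B hρ hen (gatB01 x) (gatB71 x) (fun _ => gatB40 x) (fun h => absurd h (by decide)) (datB01 x) (datB71 x) (fun _ => datB40 x) (fun h => absurd h (by decide)) hd hx hx' CW.B101R_074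
    · exact absurd h2 (by norm_num)
    · exact absurd h2 (by norm_num)
    · exact absurd h2 (by norm_num)
  · intro ρ a B hρ hd i h1 h2
    fin_cases i
    · exact corT_cert (G1 := gB0q1) (G2 := gB7q1) (Ga := gB0q0) (Gb := gB1q0) cB101R_ok B hρ (gatB01 x) (gatB71 x) (fun _ => gatB00 x) (fun _ => gatB10 x) hd hx hx' CG.B101R_070
    · exact corT_cert (G1 := gB0q1) (G2 := gB7q1) (Ga := gB1q0) (Gb := gB2q0) cB101R_ok B hρ (gatB01 x) (gatB71 x) (fun _ => gatB10 x) (fun _ => gatB20 x) hd hx hx' CG.B101R_071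
    · exact corT_cert (G1 := gB0q1) (G2 := gB7q1) (Ga := gB2q0) (Gb := gB3q0) cB101R_ok B hρ (gatB01 x) (gatB71 x) (fun _ => gatB20 x) (fun _ => gatB30 x) hd hx hx' CG.B101R_072
    · exact corT_cert (G1 := gB0q1) (G2 := gB7q1) (Ga := gB3q0) (Gb := gB4q0) cB101R_ok B hρ (gatB01 x) (gatB71 x) (fun _ => gatB30 x) (fun _ => gatB40 x) hd hx hx' CG.B101R_073
    · exact corT_cert (G1 := gB0q1) (G2 := gB7q1) (Ga := gB4q0) (Gb := gB5q0) cB101R_ok B hρ (gatB01 x) (gatB71 x) (fun _ => gatB40 x) (fun h => absurd h (by decide)) hd hx hx' CG.B101R_074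
    · exact absurd h2 (by norm_num)
    · exact absurd h2 (by norm_num)
    · exact absurd h2 (by norm_num)

theorem altB_B101R_08 {κ x : ℝ} (hκ : κ * h0 = ken x) (hx : ((649613803 : ℕ) : ℝ) / S ≤ x) (hx' : x ≤ (((649613803 : ℕ) : ℝ) + (48318383 : ℕ)) / S) :
    AltEB 3 κ (eng.v x) (3 / 40) (tnt (h0 * x) (3 / 10)) PP tK tL tC pcB (scP esg pd) [⟨0, 1, 0, 67108864⟩, ⟨1, 0, 0, 67108864⟩, ⟨2, 1, 0, 67108864⟩] 1 0 1 0 8 (sgb false) (sgb false) x := by
  have X : XR 67108864 x := XR.of hx hx' (by norm_num) (by norm_num) (by norm_num) (by norm_num)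
  have hen : 0 < eng.v x := en_pos X.x0.le
  refine CornW.altB (C := cB101R) (j := (0 : Fin 9)) (k := (8 : Fin 9)) (Ef := esg) (pd := pd) (o := 3 / 40)
    (cornW_of (C := cB101R) (C0 := c0B) (En := eng) (mo := mog) (j := (0 : Fin 9)) (k := (8 : Fin 9)) (lo := 0) (hi := 4) (W := 67108864) (N0 := 3) cB101R_q (sideB hx hx') gokB (pinU hx hx') dokB X (by norm_num) (by norm_num) (l := (0 : Fin 9)) rfl
      (gatB01 x) (gatB81 x) (gatB00 x) (datB01 x) (datB81 x) (datB00 x) ?_)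
    (cornS_of (C := cB101R) (C0 := c0B) (j := (0 : Fin 9)) (k := (8 : Fin 9)) (lo := 0) (hi := 4) (W := 67108864) (N0 := 3) cB101R_q (sideB hx hx') gokB X (by norm_num) (by norm_num) (l := (0 : Fin 9)) rfl
      (gatB01 x) (gatB81 x) (gatB00 x) ?_)
    (thU (pinU hx hx')) rfl hκ (fun j q y => tC_eq j q y x) (esg_rng X.x0.le (by linarith [X.b, X.p0])).1 (mo_v x) le_rfl le_rfl
  · intro ρ a B hρ hd i h1 h2
    fin_cases i
    · exact corW_cert (G1 := gB0q1) (G2 := gB8q1) (Ga := gB0q0) (Gb := gB1q0) (D1 := dB0q1) (D2 := dB8q1) (Da := dB0q0) (Db := dB1q0) cB101R_ok B hρ hen (gatB01 x) (gatB81 x) (fun _ => gatB00 x) (fun _ => gatB10 x) (datB01 x) (datB81 x) (fun _ => datB00 x) (fun _ => datB10 x) hd hx hx' CW.B101R_080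
    · exact corW_cert (G1 := gB0q1) (G2 := gB8q1) (Ga := gB1q0) (Gb := gB2q0) (D1 := dB0q1) (D2 := dB8q1) (Da := dB1q0) (Db := dB2q0) cB101R_ok B hρ hen (gatB01 x) (gatB81 x) (fun _ => gatB10 x) (fun _ => gatB20 x) (datB01 x) (datB81 x) (fun _ => datB10 x) (fun _ => datB20 x) hd hx hx' CW.B101R_081
    · exact corW_cert (G1 := gB0q1) (G2 := gB8q1) (Ga := gB2q0) (Gb := gB3q0) (D1 := dB0q1) (D2 := dB8q1) (Da := dB2q0) (Db := dB3q0) cB101R_ok B hρ hen (gatB01 x) (gatB81 x) (fun _ => gatB20 x) (fun _ => gatB30 x) (datB01 x) (datB81 x) (fun _ => datB20 x) (fun _ => datB30 x) hd hx hx' CW.B101R_082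
    · exact corW_cert (G1 := gB0q1) (G2 := gB8q1) (Ga := gB3q0) (Gb := gB4q0) (D1 := dB0q1) (D2 := dB8q1) (Da := dB3q0) (Db := dB4q0) cB101R_ok B hρ hen (gatB01 x) (gatB81 x) (fun _ => gatB30 x) (fun _ => gatB40 x) (datB01 x) (datB81 x) (fun _ => datB30 x) (fun _ => datB40 x) hd hx hx' CW.B101R_083
    · exact corW_cert (G1 := gB0q1) (G2 := gB8q1) (Ga := gB4q0) (Gb := gB5q0) (D1 := dB0q1) (D2 := dB8q1) (Da := dB4q0) (Db := dB5q0) cB101R_ok B hρ hen (gatB01 x) (gatB81 x) (fun _ => gatB40 x) (fun h => absurd h (by decide)) (datB01 x) (datB81 x) (fun _ => datB40 x) (fun h => absurd h (by decide)) hd hx hx' CW.B101R_084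
    · exact absurd h2 (by norm_num)
    · exact absurd h2 (by norm_num)
    · exact absurd h2 (by norm_num)
  · intro ρ a B hρ hd i h1 h2
    fin_cases i
    · exact corT_cert (G1 := gB0q1) (G2 := gB8q1) (Ga := gB0q0) (Gb := gB1q0) cB101R_ok B hρ (gatB01 x) (gatB81 x) (fun _ => gatB00 x) (fun _ => gatB10 x) hd hx hx' CG.B101R_080
    · exact corT_cert (G1 := gB0q1) (G2 := gB8q1) (Ga := gB1q0) (Gb := gB2q0) cB101R_ok B hρ (gatB01 x) (gatB81 x) (fun _ => gatB10 x) (fun _ => gatB20 x) hd hx hx' CG.B101R_081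
    · exact corT_cert (G1 := gB0q1) (G2 := gB8q1) (Ga := gB2q0) (Gb := gB3q0) cB101R_ok B hρ (gatB01 x) (gatB81 x) (fun _ => gatB20 x) (fun _ => gatB30 x) hd hx hx' CG.B101R_082
    · exact corT_cert (G1 := gB0q1) (G2 := gB8q1) (Ga := gB3q0) (Gb := gB4q0) cB101R_ok B hρ (gatB01 x) (gatB81 x) (fun _ => gatB30 x) (fun _ => gatB40 x) hd hx hx' CG.B101R_083
    · exact corT_cert (G1 := gB0q1) (G2 := gB8q1) (Ga := gB4q0) (Gb := gB5q0) cB101R_ok B hρ (gatB01 x) (gatB81 x) (fun _ => gatB40 x) (fun h => absurd h (by decide)) hd hx hx' CG.B101R_084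
    · exact absurd h2 (by norm_num)
    · exact absurd h2 (by norm_num)
    · exact absurd h2 (by norm_num)

theorem altB_B102E_00 {κ x : ℝ} (hκ : κ * h0 = ken x) (hx : ((649613803 : ℕ) : ℝ) / S ≤ x) (hx' : x ≤ (((649613803 : ℕ) : ℝ) + (48318383 : ℕ)) / S) :
    AltEB 3 κ (eng.v x) (3 / 40) (tnt (h0 * x) (3 / 10)) PP tK tL tC pcB (scP esg pd) [⟨0, 1, 0, 33554432⟩, ⟨1, 0, 0, 33554432⟩, ⟨2, 1, 0, 33554432⟩] 1 0 2 0 0 (sgb true) (sgb false) x := by
  have X : XR 33554432 x := XR.of hx hx' (by norm_num) (by norm_num) (by norm_num) (by norm_num)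
  have hen : 0 < eng.v x := en_pos X.x0.le
  refine CornW.altB (C := cB102E) (j := (0 : Fin 9)) (k := (0 : Fin 9)) (Ef := esg) (pd := pd) (o := 3 / 40)
    (cornW_of (C := cB102E) (C0 := c0B) (En := eng) (mo := mog) (j := (0 : Fin 9)) (k := (0 : Fin 9)) (lo := 0) (hi := 4) (W := 33554432) (N0 := 3) cB102E_q (sideB hx hx') gokB (pinU hx hx') dokB X (by norm_num) (by norm_num) (l := (0 : Fin 9)) rfl
      (gatB01 x) (gatB02 x) (gatB00 x) (datB01 x) (datB02 x) (datB00 x) ?_)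
    (cornS_of (C := cB102E) (C0 := c0B) (j := (0 : Fin 9)) (k := (0 : Fin 9)) (lo := 0) (hi := 4) (W := 33554432) (N0 := 3) cB102E_q (sideB hx hx') gokB X (by norm_num) (by norm_num) (l := (0 : Fin 9)) rfl
      (gatB01 x) (gatB02 x) (gatB00 x) ?_)
    (thU (pinU hx hx')) rfl hκ (fun j q y => tC_eq j q y x) (esg_rng X.x0.le (by linarith [X.b, X.p0])).1 (mo_v x) le_rfl le_rfl
  · intro ρ a B hρ hd i h1 h2
    fin_cases i
    · exact corW_cert (G1 := gB0q1) (G2 := gB0q2) (Ga := gB0q0) (Gb := gB1q0) (D1 := dB0q1) (D2 := dB0q2) (Da := dB0q0) (Db := dB1q0) cB102E_ok B hρ hen (gatB01 x) (gatB02 x) (fun _ => gatB00 x) (fun _ => gatB10 x) (datB01 x) (datB02 x) (fun _ => datB00 x) (fun _ => datB10 x) hd hx hx' CW.B102E_000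
    · exact corW_cert (G1 := gB0q1) (G2 := gB0q2) (Ga := gB1q0) (Gb := gB2q0) (D1 := dB0q1) (D2 := dB0q2) (Da := dB1q0) (Db := dB2q0) cB102E_ok B hρ hen (gatB01 x) (gatB02 x) (fun _ => gatB10 x) (fun _ => gatB20 x) (datB01 x) (datB02 x) (fun _ => datB10 x) (fun _ => datB20 x) hd hx hx' CW.B102E_001
    · exact corW_cert (G1 := gB0q1) (G2 := gB0q2) (Ga := gB2q0) (Gb := gB3q0) (D1 := dB0q1) (D2 := dB0q2) (Da := dB2q0) (Db := dB3q0) cB102E_ok B hρ hen (gatB01 x) (gatB02 x) (fun _ => gatB20 x) (fun _ => gatB30 x) (datB01 x) (datB02 x) (fun _ => datB20 x) (fun _ => datB30 x) hd hx hx' CW.B102E_002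
    · exact corW_cert (G1 := gB0q1) (G2 := gB0q2) (Ga := gB3q0) (Gb := gB4q0) (D1 := dB0q1) (D2 := dB0q2) (Da := dB3q0) (Db := dB4q0) cB102E_ok B hρ hen (gatB01 x) (gatB02 x) (fun _ => gatB30 x) (fun _ => gatB40 x) (datB01 x) (datB02 x) (fun _ => datB30 x) (fun _ => datB40 x) hd hx hx' CW.B102E_003
    · exact corW_cert (G1 := gB0q1) (G2 := gB0q2) (Ga := gB4q0) (Gb := gB5q0) (D1 := dB0q1) (D2 := dB0q2) (Da := dB4q0) (Db := dB5q0) cB102E_ok B hρ hen (gatB01 x) (gatB02 x) (fun _ => gatB40 x) (fun h => absurd h (by decide)) (datB01 x) (datB02 x) (fun _ => datB40 x) (fun h => absurd h (by decide)) hd hx hx' CW.B102E_004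
    · exact absurd h2 (by norm_num)
    · exact absurd h2 (by norm_num)
    · exact absurd h2 (by norm_num)
  · intro ρ a B hρ hd i h1 h2
    fin_cases i
    · exact corX_cert (G1 := gB0q1) (G2 := gB0q2) (Ga := gB0q0) (Gb := gB1q0) (GT := gB0q0) cB102E_ok tB102E_ok B hρ (gatB01 x) (gatB02 x) (fun _ => gatB00 x) (fun _ => gatB10 x) rfl (tgh_B102E (kodd x) (gpu1 x) (gpu2 x) (gpu0 x) (gatB01 x) (gatB02 x) (gatB00 x) B (le_sixteenth hd (by norm_num))) hd hx hx' CG.B102E_000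
    · exact corT_cert (G1 := gB0q1) (G2 := gB0q2) (Ga := gB1q0) (Gb := gB2q0) cB102E_ok B hρ (gatB01 x) (gatB02 x) (fun _ => gatB10 x) (fun _ => gatB20 x) hd hx hx' CG.B102E_001
    · exact corT_cert (G1 := gB0q1) (G2 := gB0q2) (Ga := gB2q0) (Gb := gB3q0) cB102E_ok B hρ (gatB01 x) (gatB02 x) (fun _ => gatB20 x) (fun _ => gatB30 x) hd hx hx' CG.B102E_002
    · exact corT_cert (G1 := gB0q1) (G2 := gB0q2) (Ga := gB3q0) (Gb := gB4q0) cB102E_ok B hρ (gatB01 x) (gatB02 x) (fun _ => gatB30 x) (fun _ => gatB40 x) hd hx hx' CG.B102E_003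
    · exact corT_cert (G1 := gB0q1) (G2 := gB0q2) (Ga := gB4q0) (Gb := gB5q0) cB102E_ok B hρ (gatB01 x) (gatB02 x) (fun _ => gatB40 x) (fun h => absurd h (by decide)) hd hx hx' CG.B102E_004
    · exact absurd h2 (by norm_num)
    · exact absurd h2 (by norm_num)
    · exact absurd h2 (by norm_num)

theorem altB_B102E_01 {κ x : ℝ} (hκ : κ * h0 = ken x) (hx : ((649613803 : ℕ) : ℝ) / S ≤ x) (hx' : x ≤ (((649613803 : ℕ) : ℝ) + (48318383 : ℕ)) / S) :
    AltEB 3 κ (eng.v x) (3 / 40) (tnt (h0 * x) (3 / 10)) PP tK tL tC pcB (scP esg pd) [⟨0, 1, 0, 67108864⟩, ⟨1, 0, 0, 67108864⟩, ⟨2, 1, 0, 67108864⟩] 1 0 2 0 1 (sgb true) (sgb false) x := by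
  have X : XR 67108864 x := XR.of hx hx' (by norm_num) (by norm_num) (by norm_num) (by norm_num)
  have hen : 0 < eng.v x := en_pos X.x0.le
  refine CornW.altB (C := cB102E) (j := (0 : Fin 9)) (k := (1 : Fin 9)) (Ef := esg) (pd := pd) (o := 3 / 40)
    (cornW_of (C := cB102E) (C0 := c0B) (En := eng) (mo := mog) (j := (0 : Fin 9)) (k := (1 : Fin 9)) (lo := 0) (hi := 4) (W := 67108864) (N0 := 3) cB102E_q (sideB hx hx') gokB (pinU hx hx') dokB X (by norm_num) (by norm_num) (l := (0 : Fin 9)) rfl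
      (gatB01 x) (gatB12 x) (gatB00 x) (datB01 x) (datB12 x) (datB00 x) ?_)
    (cornS_of (C := cB102E) (C0 := c0B) (j := (0 : Fin 9)) (k := (1 : Fin 9)) (lo := 0) (hi := 4) (W := 67108864) (N0 := 3) cB102E_q (sideB hx hx') gokB X (by norm_num) (by norm_num) (l := (0 : Fin 9)) rfl
      (gatB01 x) (gatB12 x) (gatB00 x) ?_)
    (thU (pinU hx hx')) rfl hκ (fun j q y => tC_eq j q y x) (esg_rng X.x0.le (by linarith [X.b, X.p0])).1 (mo_v x) le_rfl le_rfl
  · intro ρ a B hρ hd i h1 h2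
    fin_cases i
    · exact corW_cert (G1 := gB0q1) (G2 := gB1q2) (Ga := gB0q0) (Gb := gB1q0) (D1 := dB0q1) (D2 := dB1q2) (Da := dB0q0) (Db := dB1q0) cB102E_ok B hρ hen (gatB01 x) (gatB12 x) (fun _ => gatB00 x) (fun _ => gatB10 x) (datB01 x) (datB12 x) (fun _ => datB00 x) (fun _ => datB10 x) hd hx hx' CW.B102E_010
    · exact corW_cert (G1 := gB0q1) (G2 := gB1q2) (Ga := gB1q0) (Gb := gB2q0) (D1 := dB0q1) (D2 := dB1q2) (Da := dB1q0) (Db := dB2q0) cB102E_ok B hρ hen (gatB01 x) (gatB12 x) (fun _ => gatB10 x) (fun _ => gatB20 x) (datB01 x) (datB12 x) (fun _ => datB10 x) (fun _ => datB20 x) hd hx hx' CW.B102E_011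
    · exact corW_cert (G1 := gB0q1) (G2 := gB1q2) (Ga := gB2q0) (Gb := gB3q0) (D1 := dB0q1) (D2 := dB1q2) (Da := dB2q0) (Db := dB3q0) cB102E_ok B hρ hen (gatB01 x) (gatB12 x) (fun _ => gatB20 x) (fun _ => gatB30 x) (datB01 x) (datB12 x) (fun _ => datB20 x) (fun _ => datB30 x) hd hx hx' CW.B102E_012
    · exact corW_cert (G1 := gB0q1) (G2 := gB1q2) (Ga := gB3q0) (Gb := gB4q0) (D1 := dB0q1) (D2 := dB1q2) (Da := dB3q0) (Db := dB4q0) cB102E_ok B hρ hen (gatB01 x) (gatB12 x) (fun _ => gatB30 x) (fun _ => gatB40 x) (datB01 x) (datB12 x) (fun _ => datB30 x) (fun _ => datB40 x) hd hx hx' CW.B102E_013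
    · exact corW_cert (G1 := gB0q1) (G2 := gB1q2) (Ga := gB4q0) (Gb := gB5q0) (D1 := dB0q1) (D2 := dB1q2) (Da := dB4q0) (Db := dB5q0) cB102E_ok B hρ hen (gatB01 x) (gatB12 x) (fun _ => gatB40 x) (fun h => absurd h (by decide)) (datB01 x) (datB12 x) (fun _ => datB40 x) (fun h => absurd h (by decide)) hd hx hx' CW.B102E_014
    · exact absurd h2 (by norm_num)
    · exact absurd h2 (by norm_num)
    · exact absurd h2 (by norm_num)
  · intro ρ a B hρ hd i h1 h2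
    fin_cases i
    · exact corT_cert (G1 := gB0q1) (G2 := gB1q2) (Ga := gB0q0) (Gb := gB1q0) cB102E_ok B hρ (gatB01 x) (gatB12 x) (fun _ => gatB00 x) (fun _ => gatB10 x) hd hx hx' CG.B102E_010
    · exact corT_cert (G1 := gB0q1) (G2 := gB1q2) (Ga := gB1q0) (Gb := gB2q0) cB102E_ok B hρ (gatB01 x) (gatB12 x) (fun _ => gatB10 x) (fun _ => gatB20 x) hd hx hx' CG.B102E_011
    · exact corT_cert (G1 := gB0q1) (G2 := gB1q2) (Ga := gB2q0) (Gb := gB3q0) cB102E_ok B hρ (gatB01 x) (gatB12 x) (fun _ => gatB20 x) (fun _ => gatB30 x) hd hx hx' CG.B102E_012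
    · exact corT_cert (G1 := gB0q1) (G2 := gB1q2) (Ga := gB3q0) (Gb := gB4q0) cB102E_ok B hρ (gatB01 x) (gatB12 x) (fun _ => gatB30 x) (fun _ => gatB40 x) hd hx hx' CG.B102E_013
    · exact corT_cert (G1 := gB0q1) (G2 := gB1q2) (Ga := gB4q0) (Gb := gB5q0) cB102E_ok B hρ (gatB01 x) (gatB12 x) (fun _ => gatB40 x) (fun h => absurd h (by decide)) hd hx hx' CG.B102E_014
    · exact absurd h2 (by norm_num)
    · exact absurd h2 (by norm_num)
    · exact absurd h2 (by norm_num)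

theorem altB_B102E_02 {κ x : ℝ} (hκ : κ * h0 = ken x) (hx : ((649613803 : ℕ) : ℝ) / S ≤ x) (hx' : x ≤ (((649613803 : ℕ) : ℝ) + (48318383 : ℕ)) / S) :
    AltEB 3 κ (eng.v x) (3 / 40) (tnt (h0 * x) (3 / 10)) PP tK tL tC pcB (scP esg pd) [⟨0, 1, 0, 67108864⟩, ⟨1, 0, 0, 67108864⟩, ⟨2, 1, 0, 67108864⟩] 1 0 2 0 2 (sgb true) (sgb false) x := by
  have X : XR 67108864 x := XR.of hx hx' (by norm_num) (by norm_num) (by norm_num) (by norm_num)
  have hen : 0 < eng.v x := en_pos X.x0.le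
  refine CornW.altB (C := cB102E) (j := (0 : Fin 9)) (k := (2 : Fin 9)) (Ef := esg) (pd := pd) (o := 3 / 40)
    (cornW_of (C := cB102E) (C0 := c0B) (En := eng) (mo := mog) (j := (0 : Fin 9)) (k := (2 : Fin 9)) (lo := 0) (hi := 4) (W := 67108864) (N0 := 3) cB102E_q (sideB hx hx') gokB (pinU hx hx') dokB X (by norm_num) (by norm_num) (l := (0 : Fin 9)) rfl
      (gatB01 x) (gatB22 x) (gatB00 x) (datB01 x) (datB22 x) (datB00 x) ?_)
    (cornS_of (C := cB102E) (C0 := c0B) (j := (0 : Fin 9)) (k := (2 : Fin 9)) (lo := 0) (hi := 4) (W := 67108864) (N0 := 3) cB102E_q (sideB hx hx') gokB X (by norm_num) (by norm_num) (l := (0 : Fin 9)) rfl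
      (gatB01 x) (gatB22 x) (gatB00 x) ?_)
    (thU (pinU hx hx')) rfl hκ (fun j q y => tC_eq j q y x) (esg_rng X.x0.le (by linarith [X.b, X.p0])).1 (mo_v x) le_rfl le_rfl
  · intro ρ a B hρ hd i h1 h2
    fin_cases i
    · exact corW_cert (G1 := gB0q1) (G2 := gB2q2) (Ga := gB0q0) (Gb := gB1q0) (D1 := dB0q1) (D2 := dB2q2) (Da := dB0q0) (Db := dB1q0) cB102E_ok B hρ hen (gatB01 x) (gatB22 x) (fun _ => gatB00 x) (fun _ => gatB10 x) (datB01 x) (datB22 x) (fun _ => datB00 x) (fun _ => datB10 x) hd hx hx' CW.B102E_020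
    · exact corW_cert (G1 := gB0q1) (G2 := gB2q2) (Ga := gB1q0) (Gb := gB2q0) (D1 := dB0q1) (D2 := dB2q2) (Da := dB1q0) (Db := dB2q0) cB102E_ok B hρ hen (gatB01 x) (gatB22 x) (fun _ => gatB10 x) (fun _ => gatB20 x) (datB01 x) (datB22 x) (fun _ => datB10 x) (fun _ => datB20 x) hd hx hx' CW.B102E_021
    · exact corW_cert (G1 := gB0q1) (G2 := gB2q2) (Ga := gB2q0) (Gb := gB3q0) (D1 := dB0q1) (D2 := dB2q2) (Da := dB2q0) (Db := dB3q0) cB102E_ok B hρ hen (gatB01 x) (gatB22 x) (fun _ => gatB20 x) (fun _ => gatB30 x) (datB01 x) (datB22 x) (fun _ => datB20 x) (fun _ => datB30 x) hd hx hx' CW.B102E_022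
    · exact corW_cert (G1 := gB0q1) (G2 := gB2q2) (Ga := gB3q0) (Gb := gB4q0) (D1 := dB0q1) (D2 := dB2q2) (Da := dB3q0) (Db := dB4q0) cB102E_ok B hρ hen (gatB01 x) (gatB22 x) (fun _ => gatB30 x) (fun _ => gatB40 x) (datB01 x) (datB22 x) (fun _ => datB30 x) (fun _ => datB40 x) hd hx hx' CW.B102E_023
    · exact corW_cert (G1 := gB0q1) (G2 := gB2q2) (Ga := gB4q0) (Gb := gB5q0) (D1 := dB0q1) (D2 := dB2q2) (Da := dB4q0) (Db := dB5q0) cB102E_ok B hρ hen (gatB01 x) (gatB22 x) (fun _ => gatB40 x) (fun h => absurd h (by decide)) (datB01 x) (datB22 x) (fun _ => datB40 x) (fun h => absurd h (by decide)) hd hx hx' CW.B102E_024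
    · exact absurd h2 (by norm_num)
    · exact absurd h2 (by norm_num)
    · exact absurd h2 (by norm_num)
  · intro ρ a B hρ hd i h1 h2
    fin_cases i
    · exact corT_cert (G1 := gB0q1) (G2 := gB2q2) (Ga := gB0q0) (Gb := gB1q0) cB102E_ok B hρ (gatB01 x) (gatB22 x) (fun _ => gatB00 x) (fun _ => gatB10 x) hd hx hx' CG.B102E_020
    · exact corT_cert (G1 := gB0q1) (G2 := gB2q2) (Ga := gB1q0) (Gb := gB2q0) cB102E_ok B hρ (gatB01 x) (gatB22 x) (fun _ => gatB10 x) (fun _ => gatB20 x) hd hx hx' CG.B102E_021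
    · exact corT_cert (G1 := gB0q1) (G2 := gB2q2) (Ga := gB2q0) (Gb := gB3q0) cB102E_ok B hρ (gatB01 x) (gatB22 x) (fun _ => gatB20 x) (fun _ => gatB30 x) hd hx hx' CG.B102E_022
    · exact corT_cert (G1 := gB0q1) (G2 := gB2q2) (Ga := gB3q0) (Gb := gB4q0) cB102E_ok B hρ (gatB01 x) (gatB22 x) (fun _ => gatB30 x) (fun _ => gatB40 x) hd hx hx' CG.B102E_023
    · exact corT_cert (G1 := gB0q1) (G2 := gB2q2) (Ga := gB4q0) (Gb := gB5q0) cB102E_ok B hρ (gatB01 x) (gatB22 x) (fun _ => gatB40 x) (fun h => absurd h (by decide)) hd hx hx' CG.B102E_024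
    · exact absurd h2 (by norm_num)
    · exact absurd h2 (by norm_num)
    · exact absurd h2 (by norm_num)

theorem altB_B102E_03 {κ x : ℝ} (hκ : κ * h0 = ken x) (hx : ((649613803 : ℕ) : ℝ) / S ≤ x) (hx' : x ≤ (((649613803 : ℕ) : ℝ) + (48318383 : ℕ)) / S) :
    AltEB 3 κ (eng.v x) (3 / 40) (tnt (h0 * x) (3 / 10)) PP tK tL tC pcB (scP esg pd) [⟨0, 1, 0, 67108864⟩, ⟨1, 0, 0, 67108864⟩, ⟨2, 1, 0, 67108864⟩] 1 0 2 0 3 (sgb true) (sgb false) x := by
  have X : XR 67108864 x := XR.of hx hx' (by norm_num) (by norm_num) (by norm_num) (by norm_num)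
  have hen : 0 < eng.v x := en_pos X.x0.le
  refine CornW.altB (C := cB102E) (j := (0 : Fin 9)) (k := (3 : Fin 9)) (Ef := esg) (pd := pd) (o := 3 / 40)
    (cornW_of (C := cB102E) (C0 := c0B) (En := eng) (mo := mog) (j := (0 : Fin 9)) (k := (3 : Fin 9)) (lo := 0) (hi := 4) (W := 67108864) (N0 := 3) cB102E_q (sideB hx hx') gokB (pinU hx hx') dokB X (by norm_num) (by norm_num) (l := (0 : Fin 9)) rfl
      (gatB01 x) (gatB32 x) (gatB00 x) (datB01 x) (datB32 x) (datB00 x) ?_)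
    (cornS_of (C := cB102E) (C0 := c0B) (j := (0 : Fin 9)) (k := (3 : Fin 9)) (lo := 0) (hi := 4) (W := 67108864) (N0 := 3) cB102E_q (sideB hx hx') gokB X (by norm_num) (by norm_num) (l := (0 : Fin 9)) rfl
      (gatB01 x) (gatB32 x) (gatB00 x) ?_)
    (thU (pinU hx hx')) rfl hκ (fun j q y => tC_eq j q y x) (esg_rng X.x0.le (by linarith [X.b, X.p0])).1 (mo_v x) le_rfl le_rfl
  · intro ρ a B hρ hd i h1 h2
    fin_cases i
    · exact corW_cert (G1 := gB0q1) (G2 := gB3q2) (Ga := gB0q0) (Gb := gB1q0) (D1 := dB0q1) (D2 := dB3q2) (Da := dB0q0) (Db := dB1q0) cB102E_ok B hρ hen (gatB01 x) (gatB32 x) (fun _ => gatB00 x) (fun _ => gatB10 x) (datB01 x) (datB32 x) (fun _ => datB00 x) (fun _ => datB10 x) hd hx hx' CW.B102E_030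
    · exact corW_cert (G1 := gB0q1) (G2 := gB3q2) (Ga := gB1q0) (Gb := gB2q0) (D1 := dB0q1) (D2 := dB3q2) (Da := dB1q0) (Db := dB2q0) cB102E_ok B hρ hen (gatB01 x) (gatB32 x) (fun _ => gatB10 x) (fun _ => gatB20 x) (datB01 x) (datB32 x) (fun _ => datB10 x) (fun _ => datB20 x) hd hx hx' CW.B102E_031
    · exact corW_cert (G1 := gB0q1) (G2 := gB3q2) (Ga := gB2q0) (Gb := gB3q0) (D1 := dB0q1) (D2 := dB3q2) (Da := dB2q0) (Db := dB3q0) cB102E_ok B hρ hen (gatB01 x) (gatB32 x) (fun _ => gatB20 x) (fun _ => gatB30 x) (datB01 x) (datB32 x) (fun _ => datB20 x) (fun _ => datB30 x) hd hx hx' CW.B102E_032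
    · exact corW_cert (G1 := gB0q1) (G2 := gB3q2) (Ga := gB3q0) (Gb := gB4q0) (D1 := dB0q1) (D2 := dB3q2) (Da := dB3q0) (Db := dB4q0) cB102E_ok B hρ hen (gatB01 x) (gatB32 x) (fun _ => gatB30 x) (fun _ => gatB40 x) (datB01 x) (datB32 x) (fun _ => datB30 x) (fun _ => datB40 x) hd hx hx' CW.B102E_033
    · exact corW_cert (G1 := gB0q1) (G2 := gB3q2) (Ga := gB4q0) (Gb := gB5q0) (D1 := dB0q1) (D2 := dB3q2) (Da := dB4q0) (Db := dB5q0) cB102E_ok B hρ hen (gatB01 x) (gatB32 x) (fun _ => gatB40 x) (fun h => absurd h (by decide)) (datB01 x) (datB32 x) (fun _ => datB40 x) (fun h => absurd h (by decide)) hd hx hx' CW.B102E_034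
    · exact absurd h2 (by norm_num)
    · exact absurd h2 (by norm_num)
    · exact absurd h2 (by norm_num)
  · intro ρ a B hρ hd i h1 h2
    fin_cases i
    · exact corT_cert (G1 := gB0q1) (G2 := gB3q2) (Ga := gB0q0) (Gb := gB1q0) cB102E_ok B hρ (gatB01 x) (gatB32 x) (fun _ => gatB00 x) (fun _ => gatB10 x) hd hx hx' CG.B102E_030
    · exact corT_cert (G1 := gB0q1) (G2 := gB3q2) (Ga := gB1q0) (Gb := gB2q0) cB102E_ok B hρ (gatB01 x) (gatB32 x) (fun _ => gatB10 x) (fun _ => gatB20 x) hd hx hx' CG.B102E_031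
    · exact corT_cert (G1 := gB0q1) (G2 := gB3q2) (Ga := gB2q0) (Gb := gB3q0) cB102E_ok B hρ (gatB01 x) (gatB32 x) (fun _ => gatB20 x) (fun _ => gatB30 x) hd hx hx' CG.B102E_032
    · exact corT_cert (G1 := gB0q1) (G2 := gB3q2) (Ga := gB3q0) (Gb := gB4q0) cB102E_ok B hρ (gatB01 x) (gatB32 x) (fun _ => gatB30 x) (fun _ => gatB40 x) hd hx hx' CG.B102E_033
    · exact corT_cert (G1 := gB0q1) (G2 := gB3q2) (Ga := gB4q0) (Gb := gB5q0) cB102E_ok B hρ (gatB01 x) (gatB32 x) (fun _ => gatB40 x) (fun h => absurd h (by decide)) hd hx hx' CG.B102E_034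
    · exact absurd h2 (by norm_num)
    · exact absurd h2 (by norm_num)
    · exact absurd h2 (by norm_num)

theorem altB_B102E_04 {κ x : ℝ} (hκ : κ * h0 = ken x) (hx : ((649613803 : ℕ) : ℝ) / S ≤ x) (hx' : x ≤ (((649613803 : ℕ) : ℝ) + (48318383 : ℕ)) / S) :
    AltEB 3 κ (eng.v x) (3 / 40) (tnt (h0 * x) (3 / 10)) PP tK tL tC pcB (scP esg pd) [⟨0, 1, 0, 67108864⟩, ⟨1, 0, 0, 67108864⟩, ⟨2, 1, 0, 67108864⟩] 1 0 2 0 4 (sgb true) (sgb false) x := by
  have X : XR 67108864 x := XR.of hx hx' (by norm_num) (by norm_num) (by norm_num) (by norm_num)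
  have hen : 0 < eng.v x := en_pos X.x0.le
  refine CornW.altB (C := cB102E) (j := (0 : Fin 9)) (k := (4 : Fin 9)) (Ef := esg) (pd := pd) (o := 3 / 40)
    (cornW_of (C := cB102E) (C0 := c0B) (En := eng) (mo := mog) (j := (0 : Fin 9)) (k := (4 : Fin 9)) (lo := 0) (hi := 4) (W := 67108864) (N0 := 3) cB102E_q (sideB hx hx') gokB (pinU hx hx') dokB X (by norm_num) (by norm_num) (l := (0 : Fin 9)) rfl
      (gatB01 x) (gatB42 x) (gatB00 x) (datB01 x) (datB42 x) (datB00 x) ?_)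
    (cornS_of (C := cB102E) (C0 := c0B) (j := (0 : Fin 9)) (k := (4 : Fin 9)) (lo := 0) (hi := 4) (W := 67108864) (N0 := 3) cB102E_q (sideB hx hx') gokB X (by norm_num) (by norm_num) (l := (0 : Fin 9)) rfl
      (gatB01 x) (gatB42 x) (gatB00 x) ?_)
    (thU (pinU hx hx')) rfl hκ (fun j q y => tC_eq j q y x) (esg_rng X.x0.le (by linarith [X.b, X.p0])).1 (mo_v x) le_rfl le_rfl
  · intro ρ a B hρ hd i h1 h2
    fin_cases i
    · exact corW_cert (G1 := gB0q1) (G2 := gB4q2) (Ga := gB0q0) (Gb := gB1q0) (D1 := dB0q1) (D2 := dB4q2) (Da := dB0q0) (Db := dB1q0) cB102E_ok B hρ hen (gatB01 x) (gatB42 x) (fun _ => gatB00 x) (fun _ => gatB10 x) (datB01 x) (datB42 x) (fun _ => datB00 x) (fun _ => datB10 x) hd hx hx' CW.B102E_040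
    · exact corW_cert (G1 := gB0q1) (G2 := gB4q2) (Ga := gB1q0) (Gb := gB2q0) (D1 := dB0q1) (D2 := dB4q2) (Da := dB1q0) (Db := dB2q0) cB102E_ok B hρ hen (gatB01 x) (gatB42 x) (fun _ => gatB10 x) (fun _ => gatB20 x) (datB01 x) (datB42 x) (fun _ => datB10 x) (fun _ => datB20 x) hd hx hx' CW.B102E_041
    · exact corW_cert (G1 := gB0q1) (G2 := gB4q2) (Ga := gB2q0) (Gb := gB3q0) (D1 := dB0q1) (D2 := dB4q2) (Da := dB2q0) (Db := dB3q0) cB102E_ok B hρ hen (gatB01 x) (gatB42 x) (fun _ => gatB20 x) (fun _ => gatB30 x) (datB01 x) (datB42 x) (fun _ => datB20 x) (fun _ => datB30 x) hd hx hx' CW.B102E_042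
    · exact corW_cert (G1 := gB0q1) (G2 := gB4q2) (Ga := gB3q0) (Gb := gB4q0) (D1 := dB0q1) (D2 := dB4q2) (Da := dB3q0) (Db := dB4q0) cB102E_ok B hρ hen (gatB01 x) (gatB42 x) (fun _ => gatB30 x) (fun _ => gatB40 x) (datB01 x) (datB42 x) (fun _ => datB30 x) (fun _ => datB40 x) hd hx hx' CW.B102E_043
    · exact corW_cert (G1 := gB0q1) (G2 := gB4q2) (Ga := gB4q0) (Gb := gB5q0) (D1 := dB0q1) (D2 := dB4q2) (Da := dB4q0) (Db := dB5q0) cB102E_ok B hρ hen (gatB01 x) (gatB42 x) (fun _ => gatB40 x) (fun h => absurd h (by decide)) (datB01 x) (datB42 x) (fun _ => datB40 x) (fun h => absurd h (by decide)) hd hx hx' CW.B102E_044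
    · exact absurd h2 (by norm_num)
    · exact absurd h2 (by norm_num)
    · exact absurd h2 (by norm_num)
  · intro ρ a B hρ hd i h1 h2
    fin_cases i
    · exact corT_cert (G1 := gB0q1) (G2 := gB4q2) (Ga := gB0q0) (Gb := gB1q0) cB102E_ok B hρ (gatB01 x) (gatB42 x) (fun _ => gatB00 x) (fun _ => gatB10 x) hd hx hx' CG.B102E_040
    · exact corT_cert (G1 := gB0q1) (G2 := gB4q2) (Ga := gB1q0) (Gb := gB2q0) cB102E_ok B hρ (gatB01 x) (gatB42 x) (fun _ => gatB10 x) (fun _ => gatB20 x) hd hx hx' CG.B102E_041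
    · exact corT_cert (G1 := gB0q1) (G2 := gB4q2) (Ga := gB2q0) (Gb := gB3q0) cB102E_ok B hρ (gatB01 x) (gatB42 x) (fun _ => gatB20 x) (fun _ => gatB30 x) hd hx hx' CG.B102E_042
    · exact corT_cert (G1 := gB0q1) (G2 := gB4q2) (Ga := gB3q0) (Gb := gB4q0) cB102E_ok B hρ (gatB01 x) (gatB42 x) (fun _ => gatB30 x) (fun _ => gatB40 x) hd hx hx' CG.B102E_043
    · exact corT_cert (G1 := gB0q1) (G2 := gB4q2) (Ga := gB4q0) (Gb := gB5q0) cB102E_ok B hρ (gatB01 x) (gatB42 x) (fun _ => gatB40 x) (fun h => absurd h (by decide)) hd hx hx' CG.B102E_044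
    · exact absurd h2 (by norm_num)
    · exact absurd h2 (by norm_num)
    · exact absurd h2 (by norm_num)

theorem altB_B102L_50 {κ x : ℝ} (hκ : κ * h0 = ken x) (hx : ((649613803 : ℕ) : ℝ) / S ≤ x) (hx' : x ≤ (((649613803 : ℕ) : ℝ) + (48318383 : ℕ)) / S) :
    AltEB 3 κ (eng.v x) (3 / 40) (tnt (h0 * x) (3 / 10)) PP tK tL tC pcB (scP esg pd) [⟨0, 1, 0, 67108864⟩, ⟨1, 0, 0, 67108864⟩, ⟨2, 1, 0, 67108864⟩] 1 0 2 5 0 (sgb true) (sgb true) x := by
  have X : XR 67108864 x := XR.of hx hx' (by norm_num) (by norm_num) (by norm_num) (by norm_num)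
  have hen : 0 < eng.v x := en_pos X.x0.le
  refine CornW.altB (C := cB102L) (j := (5 : Fin 9)) (k := (0 : Fin 9)) (Ef := esg) (pd := pd) (o := 3 / 40)
    (cornW_of (C := cB102L) (C0 := c0B) (En := eng) (mo := mog) (j := (5 : Fin 9)) (k := (0 : Fin 9)) (lo := 0) (hi := 4) (W := 67108864) (N0 := 3) cB102L_q (sideB hx hx') gokB (pinU hx hx') dokB X (by norm_num) (by norm_num) (l := (0 : Fin 9)) rfl
      (gatB51 x) (gatB02 x) (gatB00 x) (datB51 x) (datB02 x) (datB00 x) ?_)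
    (cornS_of (C := cB102L) (C0 := c0B) (j := (5 : Fin 9)) (k := (0 : Fin 9)) (lo := 0) (hi := 4) (W := 67108864) (N0 := 3) cB102L_q (sideB hx hx') gokB X (by norm_num) (by norm_num) (l := (0 : Fin 9)) rfl
      (gatB51 x) (gatB02 x) (gatB00 x) ?_)
    (thU (pinU hx hx')) rfl hκ (fun j q y => tC_eq j q y x) (esg_rng X.x0.le (by linarith [X.b, X.p0])).1 (mo_v x) le_rfl le_rfl
  · intro ρ a B hρ hd i h1 h2
    fin_cases i
    · exact corW_cert (G1 := gB5q1) (G2 := gB0q2) (Ga := gB0q0) (Gb := gB1q0) (D1 := dB5q1) (D2 := dB0q2) (Da := dB0q0) (Db := dB1q0) cB102L_ok B hρ hen (gatB51 x) (gatB02 x) (fun _ => gatB00 x) (fun _ => gatB10 x) (datB51 x) (datB02 x) (fun _ => datB00 x) (fun _ => datB10 x) hd hx hx' CW.B102L_500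
    · exact corW_cert (G1 := gB5q1) (G2 := gB0q2) (Ga := gB1q0) (Gb := gB2q0) (D1 := dB5q1) (D2 := dB0q2) (Da := dB1q0) (Db := dB2q0) cB102L_ok B hρ hen (gatB51 x) (gatB02 x) (fun _ => gatB10 x) (fun _ => gatB20 x) (datB51 x) (datB02 x) (fun _ => datB10 x) (fun _ => datB20 x) hd hx hx' CW.B102L_501
    · exact corW_cert (G1 := gB5q1) (G2 := gB0q2) (Ga := gB2q0) (Gb := gB3q0) (D1 := dB5q1) (D2 := dB0q2) (Da := dB2q0) (Db := dB3q0) cB102L_ok B hρ hen (gatB51 x) (gatB02 x) (fun _ => gatB20 x) (fun _ => gatB30 x) (datB51 x) (datB02 x) (fun _ => datB20 x) (fun _ => datB30 x) hd hx hx' CW.B102L_502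
    · exact corW_cert (G1 := gB5q1) (G2 := gB0q2) (Ga := gB3q0) (Gb := gB4q0) (D1 := dB5q1) (D2 := dB0q2) (Da := dB3q0) (Db := dB4q0) cB102L_ok B hρ hen (gatB51 x) (gatB02 x) (fun _ => gatB30 x) (fun _ => gatB40 x) (datB51 x) (datB02 x) (fun _ => datB30 x) (fun _ => datB40 x) hd hx hx' CW.B102L_503
    · exact corW_cert (G1 := gB5q1) (G2 := gB0q2) (Ga := gB4q0) (Gb := gB5q0) (D1 := dB5q1) (D2 := dB0q2) (Da := dB4q0) (Db := dB5q0) cB102L_ok B hρ hen (gatB51 x) (gatB02 x) (fun _ => gatB40 x) (fun h => absurd h (by decide)) (datB51 x) (datB02 x) (fun _ => datB40 x) (fun h => absurd h (by decide)) hd hx hx' CW.B102L_504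
    · exact absurd h2 (by norm_num)
    · exact absurd h2 (by norm_num)
    · exact absurd h2 (by norm_num)
  · intro ρ a B hρ hd i h1 h2
    fin_cases i
    · exact corT_cert (G1 := gB5q1) (G2 := gB0q2) (Ga := gB0q0) (Gb := gB1q0) cB102L_ok B hρ (gatB51 x) (gatB02 x) (fun _ => gatB00 x) (fun _ => gatB10 x) hd hx hx' CG.B102L_500
    · exact corT_cert (G1 := gB5q1) (G2 := gB0q2) (Ga := gB1q0) (Gb := gB2q0) cB102L_ok B hρ (gatB51 x) (gatB02 x) (fun _ => gatB10 x) (fun _ => gatB20 x) hd hx hx' CG.B102L_501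
    · exact corT_cert (G1 := gB5q1) (G2 := gB0q2) (Ga := gB2q0) (Gb := gB3q0) cB102L_ok B hρ (gatB51 x) (gatB02 x) (fun _ => gatB20 x) (fun _ => gatB30 x) hd hx hx' CG.B102L_502
    · exact corT_cert (G1 := gB5q1) (G2 := gB0q2) (Ga := gB3q0) (Gb := gB4q0) cB102L_ok B hρ (gatB51 x) (gatB02 x) (fun _ => gatB30 x) (fun _ => gatB40 x) hd hx hx' CG.B102L_503
    · exact corT_cert (G1 := gB5q1) (G2 := gB0q2) (Ga := gB4q0) (Gb := gB5q0) cB102L_ok B hρ (gatB51 x) (gatB02 x) (fun _ => gatB40 x) (fun h => absurd h (by decide)) hd hx hx' CG.B102L_504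
    · exact absurd h2 (by norm_num)
    · exact absurd h2 (by norm_num)
    · exact absurd h2 (by norm_num)

theorem altB_B102L_51 {κ x : ℝ} (hκ : κ * h0 = ken x) (hx : ((649613803 : ℕ) : ℝ) / S ≤ x) (hx' : x ≤ (((649613803 : ℕ) : ℝ) + (48318383 : ℕ)) / S) :
    AltEB 3 κ (eng.v x) (3 / 40) (tnt (h0 * x) (3 / 10)) PP tK tL tC pcB (scP esg pd) [⟨0, 1, 0, 67108864⟩, ⟨1, 0, 0, 67108864⟩, ⟨2, 1, 0, 67108864⟩] 1 0 2 5 1 (sgb true) (sgb true) x := by
  have X : XR 67108864 x := XR.of hx hx' (by norm_num) (by norm_num) (by norm_num) (by norm_num)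
  have hen : 0 < eng.v x := en_pos X.x0.le
  refine CornW.altB (C := cB102L) (j := (5 : Fin 9)) (k := (1 : Fin 9)) (Ef := esg) (pd := pd) (o := 3 / 40)
    (cornW_of (C := cB102L) (C0 := c0B) (En := eng) (mo := mog) (j := (5 : Fin 9)) (k := (1 : Fin 9)) (lo := 0) (hi := 4) (W := 67108864) (N0 := 3) cB102L_q (sideB hx hx') gokB (pinU hx hx') dokB X (by norm_num) (by norm_num) (l := (0 : Fin 9)) rfl
      (gatB51 x) (gatB12 x) (gatB00 x) (datB51 x) (datB12 x) (datB00 x) ?_)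
    (cornS_of (C := cB102L) (C0 := c0B) (j := (5 : Fin 9)) (k := (1 : Fin 9)) (lo := 0) (hi := 4) (W := 67108864) (N0 := 3) cB102L_q (sideB hx hx') gokB X (by norm_num) (by norm_num) (l := (0 : Fin 9)) rfl
      (gatB51 x) (gatB12 x) (gatB00 x) ?_)
    (thU (pinU hx hx')) rfl hκ (fun j q y => tC_eq j q y x) (esg_rng X.x0.le (by linarith [X.b, X.p0])).1 (mo_v x) le_rfl le_rfl
  · intro ρ a B hρ hd i h1 h2
    fin_cases i
    · exact corW_cert (G1 := gB5q1) (G2 := gB1q2) (Ga := gB0q0) (Gb := gB1q0) (D1 := dB5q1) (D2 := dB1q2) (Da := dB0q0) (Db := dB1q0) cB102L_ok B hρ hen (gatB51 x) (gatB12 x) (fun _ => gatB00 x) (fun _ => gatB10 x) (datB51 x) (datB12 x) (fun _ => datB00 x) (fun _ => datB10 x) hd hx hx' CW.B102L_510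
    · exact corW_cert (G1 := gB5q1) (G2 := gB1q2) (Ga := gB1q0) (Gb := gB2q0) (D1 := dB5q1) (D2 := dB1q2) (Da := dB1q0) (Db := dB2q0) cB102L_ok B hρ hen (gatB51 x) (gatB12 x) (fun _ => gatB10 x) (fun _ => gatB20 x) (datB51 x) (datB12 x) (fun _ => datB10 x) (fun _ => datB20 x) hd hx hx' CW.B102L_511
    · exact corW_cert (G1 := gB5q1) (G2 := gB1q2) (Ga := gB2q0) (Gb := gB3q0) (D1 := dB5q1) (D2 := dB1q2) (Da := dB2q0) (Db := dB3q0) cB102L_ok B hρ hen (gatB51 x) (gatB12 x) (fun _ => gatB20 x) (fun _ => gatB30 x) (datB51 x) (datB12 x) (fun _ => datB20 x) (fun _ => datB30 x) hd hx hx' CW.B102L_512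
    · exact corW_cert (G1 := gB5q1) (G2 := gB1q2) (Ga := gB3q0) (Gb := gB4q0) (D1 := dB5q1) (D2 := dB1q2) (Da := dB3q0) (Db := dB4q0) cB102L_ok B hρ hen (gatB51 x) (gatB12 x) (fun _ => gatB30 x) (fun _ => gatB40 x) (datB51 x) (datB12 x) (fun _ => datB30 x) (fun _ => datB40 x) hd hx hx' CW.B102L_513
    · exact corW_cert (G1 := gB5q1) (G2 := gB1q2) (Ga := gB4q0) (Gb := gB5q0) (D1 := dB5q1) (D2 := dB1q2) (Da := dB4q0) (Db := dB5q0) cB102L_ok B hρ hen (gatB51 x) (gatB12 x) (fun _ => gatB40 x) (fun h => absurd h (by decide)) (datB51 x) (datB12 x) (fun _ => datB40 x) (fun h => absurd h (by decide)) hd hx hx' CW.B102L_514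
    · exact absurd h2 (by norm_num)
    · exact absurd h2 (by norm_num)
    · exact absurd h2 (by norm_num)
  · intro ρ a B hρ hd i h1 h2
    fin_cases i
    · exact corT_cert (G1 := gB5q1) (G2 := gB1q2) (Ga := gB0q0) (Gb := gB1q0) cB102L_ok B hρ (gatB51 x) (gatB12 x) (fun _ => gatB00 x) (fun _ => gatB10 x) hd hx hx' CG.B102L_510
    · exact corT_cert (G1 := gB5q1) (G2 := gB1q2) (Ga := gB1q0) (Gb := gB2q0) cB102L_ok B hρ (gatB51 x) (gatB12 x) (fun _ => gatB10 x) (fun _ => gatB20 x) hd hx hx' CG.B102L_511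
    · exact corT_cert (G1 := gB5q1) (G2 := gB1q2) (Ga := gB2q0) (Gb := gB3q0) cB102L_ok B hρ (gatB51 x) (gatB12 x) (fun _ => gatB20 x) (fun _ => gatB30 x) hd hx hx' CG.B102L_512
    · exact corT_cert (G1 := gB5q1) (G2 := gB1q2) (Ga := gB3q0) (Gb := gB4q0) cB102L_ok B hρ (gatB51 x) (gatB12 x) (fun _ => gatB30 x) (fun _ => gatB40 x) hd hx hx' CG.B102L_513
    · exact corT_cert (G1 := gB5q1) (G2 := gB1q2) (Ga := gB4q0) (Gb := gB5q0) cB102L_ok B hρ (gatB51 x) (gatB12 x) (fun _ => gatB40 x) (fun h => absurd h (by decide)) hd hx hx' CG.B102L_514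
    · exact absurd h2 (by norm_num)
    · exact absurd h2 (by norm_num)
    · exact absurd h2 (by norm_num)

theorem altB_B102L_52 {κ x : ℝ} (hκ : κ * h0 = ken x) (hx : ((649613803 : ℕ) : ℝ) / S ≤ x) (hx' : x ≤ (((649613803 : ℕ) : ℝ) + (48318383 : ℕ)) / S) :
    AltEB 3 κ (eng.v x) (3 / 40) (tnt (h0 * x) (3 / 10)) PP tK tL tC pcB (scP esg pd) [⟨0, 1, 0, 67108864⟩, ⟨1, 0, 0, 67108864⟩, ⟨2, 1, 0, 67108864⟩] 1 0 2 5 2 (sgb true) (sgb true) x := by
  have X : XR 67108864 x := XR.of hx hx' (by norm_num) (by norm_num) (by norm_num) (by norm_num)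
  have hen : 0 < eng.v x := en_pos X.x0.le
  refine CornW.altB (C := cB102L) (j := (5 : Fin 9)) (k := (2 : Fin 9)) (Ef := esg) (pd := pd) (o := 3 / 40)
    (cornW_of (C := cB102L) (C0 := c0B) (En := eng) (mo := mog) (j := (5 : Fin 9)) (k := (2 : Fin 9)) (lo := 0) (hi := 4) (W := 67108864) (N0 := 3) cB102L_q (sideB hx hx') gokB (pinU hx hx') dokB X (by norm_num) (by norm_num) (l := (0 : Fin 9)) rfl
      (gatB51 x) (gatB22 x) (gatB00 x) (datB51 x) (datB22 x) (datB00 x) ?_)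
    (cornS_of (C := cB102L) (C0 := c0B) (j := (5 : Fin 9)) (k := (2 : Fin 9)) (lo := 0) (hi := 4) (W := 67108864) (N0 := 3) cB102L_q (sideB hx hx') gokB X (by norm_num) (by norm_num) (l := (0 : Fin 9)) rfl
      (gatB51 x) (gatB22 x) (gatB00 x) ?_)
    (thU (pinU hx hx')) rfl hκ (fun j q y => tC_eq j q y x) (esg_rng X.x0.le (by linarith [X.b, X.p0])).1 (mo_v x) le_rfl le_rfl
  · intro ρ a B hρ hd i h1 h2
    fin_cases i
    · exact corW_cert (G1 := gB5q1) (G2 := gB2q2) (Ga := gB0q0) (Gb := gB1q0) (D1 := dB5q1) (D2 := dB2q2) (Da := dB0q0) (Db := dB1q0) cB102L_ok B hρ hen (gatB51 x) (gatB22 x) (fun _ => gatB00 x) (fun _ => gatB10 x) (datB51 x) (datB22 x) (fun _ => datB00 x) (fun _ => datB10 x) hd hx hx' CW.B102L_520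
    · exact corW_cert (G1 := gB5q1) (G2 := gB2q2) (Ga := gB1q0) (Gb := gB2q0) (D1 := dB5q1) (D2 := dB2q2) (Da := dB1q0) (Db := dB2q0) cB102L_ok B hρ hen (gatB51 x) (gatB22 x) (fun _ => gatB10 x) (fun _ => gatB20 x) (datB51 x) (datB22 x) (fun _ => datB10 x) (fun _ => datB20 x) hd hx hx' CW.B102L_521
    · exact corW_cert (G1 := gB5q1) (G2 := gB2q2) (Ga := gB2q0) (Gb := gB3q0) (D1 := dB5q1) (D2 := dB2q2) (Da := dB2q0) (Db := dB3q0) cB102L_ok B hρ hen (gatB51 x) (gatB22 x) (fun _ => gatB20 x) (fun _ => gatB30 x) (datB51 x) (datB22 x) (fun _ => datB20 x) (fun _ => datB30 x) hd hx hx' CW.B102L_522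
    · exact corW_cert (G1 := gB5q1) (G2 := gB2q2) (Ga := gB3q0) (Gb := gB4q0) (D1 := dB5q1) (D2 := dB2q2) (Da := dB3q0) (Db := dB4q0) cB102L_ok B hρ hen (gatB51 x) (gatB22 x) (fun _ => gatB30 x) (fun _ => gatB40 x) (datB51 x) (datB22 x) (fun _ => datB30 x) (fun _ => datB40 x) hd hx hx' CW.B102L_523
    · exact corW_cert (G1 := gB5q1) (G2 := gB2q2) (Ga := gB4q0) (Gb := gB5q0) (D1 := dB5q1) (D2 := dB2q2) (Da := dB4q0) (Db := dB5q0) cB102L_ok B hρ hen (gatB51 x) (gatB22 x) (fun _ => gatB40 x) (fun h => absurd h (by decide)) (datB51 x) (datB22 x) (fun _ => datB40 x) (fun h => absurd h (by decide)) hd hx hx' CW.B102L_524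
    · exact absurd h2 (by norm_num)
    · exact absurd h2 (by norm_num)
    · exact absurd h2 (by norm_num)
  · intro ρ a B hρ hd i h1 h2
    fin_cases i
    · exact corT_cert (G1 := gB5q1) (G2 := gB2q2) (Ga := gB0q0) (Gb := gB1q0) cB102L_ok B hρ (gatB51 x) (gatB22 x) (fun _ => gatB00 x) (fun _ => gatB10 x) hd hx hx' CG.B102L_520
    · exact corT_cert (G1 := gB5q1) (G2 := gB2q2) (Ga := gB1q0) (Gb := gB2q0) cB102L_ok B hρ (gatB51 x) (gatB22 x) (fun _ => gatB10 x) (fun _ => gatB20 x) hd hx hx' CG.B102L_521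
    · exact corT_cert (G1 := gB5q1) (G2 := gB2q2) (Ga := gB2q0) (Gb := gB3q0) cB102L_ok B hρ (gatB51 x) (gatB22 x) (fun _ => gatB20 x) (fun _ => gatB30 x) hd hx hx' CG.B102L_522
    · exact corT_cert (G1 := gB5q1) (G2 := gB2q2) (Ga := gB3q0) (Gb := gB4q0) cB102L_ok B hρ (gatB51 x) (gatB22 x) (fun _ => gatB30 x) (fun _ => gatB40 x) hd hx hx' CG.B102L_523
    · exact corT_cert (G1 := gB5q1) (G2 := gB2q2) (Ga := gB4q0) (Gb := gB5q0) cB102L_ok B hρ (gatB51 x) (gatB22 x) (fun _ => gatB40 x) (fun h => absurd h (by decide)) hd hx hx' CG.B102L_524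
    · exact absurd h2 (by norm_num)
    · exact absurd h2 (by norm_num)
    · exact absurd h2 (by norm_num)

theorem altB_B102L_53 {κ x : ℝ} (hκ : κ * h0 = ken x) (hx : ((649613803 : ℕ) : ℝ) / S ≤ x) (hx' : x ≤ (((649613803 : ℕ) : ℝ) + (48318383 : ℕ)) / S) :
    AltEB 3 κ (eng.v x) (3 / 40) (tnt (h0 * x) (3 / 10)) PP tK tL tC pcB (scP esg pd) [⟨0, 1, 0, 67108864⟩, ⟨1, 0, 0, 67108864⟩, ⟨2, 1, 0, 67108864⟩] 1 0 2 5 3 (sgb true) (sgb true) x := by
  have X : XR 67108864 x := XR.of hx hx' (by norm_num) (by norm_num) (by norm_num) (by norm_num)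
  have hen : 0 < eng.v x := en_pos X.x0.le
  refine CornW.altB (C := cB102L) (j := (5 : Fin 9)) (k := (3 : Fin 9)) (Ef := esg) (pd := pd) (o := 3 / 40)
    (cornW_of (C := cB102L) (C0 := c0B) (En := eng) (mo := mog) (j := (5 : Fin 9)) (k := (3 : Fin 9)) (lo := 0) (hi := 4) (W := 67108864) (N0 := 3) cB102L_q (sideB hx hx') gokB (pinU hx hx') dokB X (by norm_num) (by norm_num) (l := (0 : Fin 9)) rfl
      (gatB51 x) (gatB32 x) (gatB00 x) (datB51 x) (datB32 x) (datB00 x) ?_)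
    (cornS_of (C := cB102L) (C0 := c0B) (j := (5 : Fin 9)) (k := (3 : Fin 9)) (lo := 0) (hi := 4) (W := 67108864) (N0 := 3) cB102L_q (sideB hx hx') gokB X (by norm_num) (by norm_num) (l := (0 : Fin 9)) rfl
      (gatB51 x) (gatB32 x) (gatB00 x) ?_)
    (thU (pinU hx hx')) rfl hκ (fun j q y => tC_eq j q y x) (esg_rng X.x0.le (by linarith [X.b, X.p0])).1 (mo_v x) le_rfl le_rfl
  · intro ρ a B hρ hd i h1 h2
    fin_cases i
    · exact corW_cert (G1 := gB5q1) (G2 := gB3q2) (Ga := gB0q0) (Gb := gB1q0) (D1 := dB5q1) (D2 := dB3q2) (Da := dB0q0) (Db := dB1q0) cB102L_ok B hρ hen (gatB51 x) (gatB32 x) (fun _ => gatB00 x) (fun _ => gatB10 x) (datB51 x) (datB32 x) (fun _ => datB00 x) (fun _ => datB10 x) hd hx hx' CW.B102L_530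
    · exact corW_cert (G1 := gB5q1) (G2 := gB3q2) (Ga := gB1q0) (Gb := gB2q0) (D1 := dB5q1) (D2 := dB3q2) (Da := dB1q0) (Db := dB2q0) cB102L_ok B hρ hen (gatB51 x) (gatB32 x) (fun _ => gatB10 x) (fun _ => gatB20 x) (datB51 x) (datB32 x) (fun _ => datB10 x) (fun _ => datB20 x) hd hx hx' CW.B102L_531
    · exact corW_cert (G1 := gB5q1) (G2 := gB3q2) (Ga := gB2q0) (Gb := gB3q0) (D1 := dB5q1) (D2 := dB3q2) (Da := dB2q0) (Db := dB3q0) cB102L_ok B hρ hen (gatB51 x) (gatB32 x) (fun _ => gatB20 x) (fun _ => gatB30 x) (datB51 x) (datB32 x) (fun _ => datB20 x) (fun _ => datB30 x) hd hx hx' CW.B102L_532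
    · exact corW_cert (G1 := gB5q1) (G2 := gB3q2) (Ga := gB3q0) (Gb := gB4q0) (D1 := dB5q1) (D2 := dB3q2) (Da := dB3q0) (Db := dB4q0) cB102L_ok B hρ hen (gatB51 x) (gatB32 x) (fun _ => gatB30 x) (fun _ => gatB40 x) (datB51 x) (datB32 x) (fun _ => datB30 x) (fun _ => datB40 x) hd hx hx' CW.B102L_533
    · exact corW_cert (G1 := gB5q1) (G2 := gB3q2) (Ga := gB4q0) (Gb := gB5q0) (D1 := dB5q1) (D2 := dB3q2) (Da := dB4q0) (Db := dB5q0) cB102L_ok B hρ hen (gatB51 x) (gatB32 x) (fun _ => gatB40 x) (fun h => absurd h (by decide)) (datB51 x) (datB32 x) (fun _ => datB40 x) (fun h => absurd h (by decide)) hd hx hx' CW.B102L_534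
    · exact absurd h2 (by norm_num)
    · exact absurd h2 (by norm_num)
    · exact absurd h2 (by norm_num)
  · intro ρ a B hρ hd i h1 h2
    fin_cases i
    · exact corT_cert (G1 := gB5q1) (G2 := gB3q2) (Ga := gB0q0) (Gb := gB1q0) cB102L_ok B hρ (gatB51 x) (gatB32 x) (fun _ => gatB00 x) (fun _ => gatB10 x) hd hx hx' CG.B102L_530
    · exact corT_cert (G1 := gB5q1) (G2 := gB3q2) (Ga := gB1q0) (Gb := gB2q0) cB102L_ok B hρ (gatB51 x) (gatB32 x) (fun _ => gatB10 x) (fun _ => gatB20 x) hd hx hx' CG.B102L_531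
    · exact corT_cert (G1 := gB5q1) (G2 := gB3q2) (Ga := gB2q0) (Gb := gB3q0) cB102L_ok B hρ (gatB51 x) (gatB32 x) (fun _ => gatB20 x) (fun _ => gatB30 x) hd hx hx' CG.B102L_532
    · exact corT_cert (G1 := gB5q1) (G2 := gB3q2) (Ga := gB3q0) (Gb := gB4q0) cB102L_ok B hρ (gatB51 x) (gatB32 x) (fun _ => gatB30 x) (fun _ => gatB40 x) hd hx hx' CG.B102L_533
    · exact corT_cert (G1 := gB5q1) (G2 := gB3q2) (Ga := gB4q0) (Gb := gB5q0) cB102L_ok B hρ (gatB51 x) (gatB32 x) (fun _ => gatB40 x) (fun h => absurd h (by decide)) hd hx hx' CG.B102L_534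
    · exact absurd h2 (by norm_num)
    · exact absurd h2 (by norm_num)
    · exact absurd h2 (by norm_num)

theorem altB_B102L_54 {κ x : ℝ} (hκ : κ * h0 = ken x) (hx : ((649613803 : ℕ) : ℝ) / S ≤ x) (hx' : x ≤ (((649613803 : ℕ) : ℝ) + (48318383 : ℕ)) / S) :
    AltEB 3 κ (eng.v x) (3 / 40) (tnt (h0 * x) (3 / 10)) PP tK tL tC pcB (scP esg pd) [⟨0, 1, 0, 67108864⟩, ⟨1, 0, 0, 67108864⟩, ⟨2, 1, 0, 67108864⟩] 1 0 2 5 4 (sgb true) (sgb true) x := by
  have X : XR 67108864 x := XR.of hx hx' (by norm_num) (by norm_num) (by norm_num) (by norm_num)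
  have hen : 0 < eng.v x := en_pos X.x0.le
  refine CornW.altB (C := cB102L) (j := (5 : Fin 9)) (k := (4 : Fin 9)) (Ef := esg) (pd := pd) (o := 3 / 40)
    (cornW_of (C := cB102L) (C0 := c0B) (En := eng) (mo := mog) (j := (5 : Fin 9)) (k := (4 : Fin 9)) (lo := 0) (hi := 4) (W := 67108864) (N0 := 3) cB102L_q (sideB hx hx') gokB (pinU hx hx') dokB X (by norm_num) (by norm_num) (l := (0 : Fin 9)) rfl
      (gatB51 x) (gatB42 x) (gatB00 x) (datB51 x) (datB42 x) (datB00 x) ?_)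
    (cornS_of (C := cB102L) (C0 := c0B) (j := (5 : Fin 9)) (k := (4 : Fin 9)) (lo := 0) (hi := 4) (W := 67108864) (N0 := 3) cB102L_q (sideB hx hx') gokB X (by norm_num) (by norm_num) (l := (0 : Fin 9)) rfl
      (gatB51 x) (gatB42 x) (gatB00 x) ?_)
    (thU (pinU hx hx')) rfl hκ (fun j q y => tC_eq j q y x) (esg_rng X.x0.le (by linarith [X.b, X.p0])).1 (mo_v x) le_rfl le_rfl
  · intro ρ a B hρ hd i h1 h2
    fin_cases i
    · exact corW_cert (G1 := gB5q1) (G2 := gB4q2) (Ga := gB0q0) (Gb := gB1q0) (D1 := dB5q1) (D2 := dB4q2) (Da := dB0q0) (Db := dB1q0) cB102L_ok B hρ hen (gatB51 x) (gatB42 x) (fun _ => gatB00 x) (fun _ => gatB10 x) (datB51 x) (datB42 x) (fun _ => datB00 x) (fun _ => datB10 x) hd hx hx' CW.B102L_540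
    · exact corW_cert (G1 := gB5q1) (G2 := gB4q2) (Ga := gB1q0) (Gb := gB2q0) (D1 := dB5q1) (D2 := dB4q2) (Da := dB1q0) (Db := dB2q0) cB102L_ok B hρ hen (gatB51 x) (gatB42 x) (fun _ => gatB10 x) (fun _ => gatB20 x) (datB51 x) (datB42 x) (fun _ => datB10 x) (fun _ => datB20 x) hd hx hx' CW.B102L_541
    · exact corW_cert (G1 := gB5q1) (G2 := gB4q2) (Ga := gB2q0) (Gb := gB3q0) (D1 := dB5q1) (D2 := dB4q2) (Da := dB2q0) (Db := dB3q0) cB102L_ok B hρ hen (gatB51 x) (gatB42 x) (fun _ => gatB20 x) (fun _ => gatB30 x) (datB51 x) (datB42 x) (fun _ => datB20 x) (fun _ => datB30 x) hd hx hx' CW.B102L_542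
    · exact corW_cert (G1 := gB5q1) (G2 := gB4q2) (Ga := gB3q0) (Gb := gB4q0) (D1 := dB5q1) (D2 := dB4q2) (Da := dB3q0) (Db := dB4q0) cB102L_ok B hρ hen (gatB51 x) (gatB42 x) (fun _ => gatB30 x) (fun _ => gatB40 x) (datB51 x) (datB42 x) (fun _ => datB30 x) (fun _ => datB40 x) hd hx hx' CW.B102L_543
    · exact corW_cert (G1 := gB5q1) (G2 := gB4q2) (Ga := gB4q0) (Gb := gB5q0) (D1 := dB5q1) (D2 := dB4q2) (Da := dB4q0) (Db := dB5q0) cB102L_ok B hρ hen (gatB51 x) (gatB42 x) (fun _ => gatB40 x) (fun h => absurd h (by decide)) (datB51 x) (datB42 x) (fun _ => datB40 x) (fun h => absurd h (by decide)) hd hx hx' CW.B102L_544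
    · exact absurd h2 (by norm_num)
    · exact absurd h2 (by norm_num)
    · exact absurd h2 (by norm_num)
  · intro ρ a B hρ hd i h1 h2
    fin_cases i
    · exact corT_cert (G1 := gB5q1) (G2 := gB4q2) (Ga := gB0q0) (Gb := gB1q0) cB102L_ok B hρ (gatB51 x) (gatB42 x) (fun _ => gatB00 x) (fun _ => gatB10 x) hd hx hx' CG.B102L_540
    · exact corT_cert (G1 := gB5q1) (G2 := gB4q2) (Ga := gB1q0) (Gb := gB2q0) cB102L_ok B hρ (gatB51 x) (gatB42 x) (fun _ => gatB10 x) (fun _ => gatB20 x) hd hx hx' CG.B102L_541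
    · exact corT_cert (G1 := gB5q1) (G2 := gB4q2) (Ga := gB2q0) (Gb := gB3q0) cB102L_ok B hρ (gatB51 x) (gatB42 x) (fun _ => gatB20 x) (fun _ => gatB30 x) hd hx hx' CG.B102L_542
    · exact corT_cert (G1 := gB5q1) (G2 := gB4q2) (Ga := gB3q0) (Gb := gB4q0) cB102L_ok B hρ (gatB51 x) (gatB42 x) (fun _ => gatB30 x) (fun _ => gatB40 x) hd hx hx' CG.B102L_543
    · exact corT_cert (G1 := gB5q1) (G2 := gB4q2) (Ga := gB4q0) (Gb := gB5q0) cB102L_ok B hρ (gatB51 x) (gatB42 x) (fun _ => gatB40 x) (fun h => absurd h (by decide)) hd hx hx' CG.B102L_544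
    · exact absurd h2 (by norm_num)
    · exact absurd h2 (by norm_num)
    · exact absurd h2 (by norm_num)

theorem altB_B102L_60 {κ x : ℝ} (hκ : κ * h0 = ken x) (hx : ((649613803 : ℕ) : ℝ) / S ≤ x) (hx' : x ≤ (((649613803 : ℕ) : ℝ) + (48318383 : ℕ)) / S) :
    AltEB 3 κ (eng.v x) (3 / 40) (tnt (h0 * x) (3 / 10)) PP tK tL tC pcB (scP esg pd) [⟨0, 1, 0, 67108864⟩, ⟨1, 0, 0, 67108864⟩, ⟨2, 1, 0, 67108864⟩] 1 0 2 6 0 (sgb true) (sgb true) x := by
  have X : XR 67108864 x := XR.of hx hx' (by norm_num) (by norm_num) (by norm_num) (by norm_num)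
  have hen : 0 < eng.v x := en_pos X.x0.le
  refine CornW.altB (C := cB102L) (j := (6 : Fin 9)) (k := (0 : Fin 9)) (Ef := esg) (pd := pd) (o := 3 / 40)
    (cornW_of (C := cB102L) (C0 := c0B) (En := eng) (mo := mog) (j := (6 : Fin 9)) (k := (0 : Fin 9)) (lo := 0) (hi := 4) (W := 67108864) (N0 := 3) cB102L_q (sideB hx hx') gokB (pinU hx hx') dokB X (by norm_num) (by norm_num) (l := (0 : Fin 9)) rfl
      (gatB61 x) (gatB02 x) (gatB00 x) (datB61 x) (datB02 x) (datB00 x) ?_)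
    (cornS_of (C := cB102L) (C0 := c0B) (j := (6 : Fin 9)) (k := (0 : Fin 9)) (lo := 0) (hi := 4) (W := 67108864) (N0 := 3) cB102L_q (sideB hx hx') gokB X (by norm_num) (by norm_num) (l := (0 : Fin 9)) rfl
      (gatB61 x) (gatB02 x) (gatB00 x) ?_)
    (thU (pinU hx hx')) rfl hκ (fun j q y => tC_eq j q y x) (esg_rng X.x0.le (by linarith [X.b, X.p0])).1 (mo_v x) le_rfl le_rfl
  · intro ρ a B hρ hd i h1 h2
    fin_cases i
    · exact corW_cert (G1 := gB6q1) (G2 := gB0q2) (Ga := gB0q0) (Gb := gB1q0) (D1 := dB6q1) (D2 := dB0q2) (Da := dB0q0) (Db := dB1q0) cB102L_ok B hρ hen (gatB61 x) (gatB02 x) (fun _ => gatB00 x) (fun _ => gatB10 x) (datB61 x) (datB02 x) (fun _ => datB00 x) (fun _ => datB10 x) hd hx hx' CW.B102L_600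
    · exact corW_cert (G1 := gB6q1) (G2 := gB0q2) (Ga := gB1q0) (Gb := gB2q0) (D1 := dB6q1) (D2 := dB0q2) (Da := dB1q0) (Db := dB2q0) cB102L_ok B hρ hen (gatB61 x) (gatB02 x) (fun _ => gatB10 x) (fun _ => gatB20 x) (datB61 x) (datB02 x) (fun _ => datB10 x) (fun _ => datB20 x) hd hx hx' CW.B102L_601
    · exact corW_cert (G1 := gB6q1) (G2 := gB0q2) (Ga := gB2q0) (Gb := gB3q0) (D1 := dB6q1) (D2 := dB0q2) (Da := dB2q0) (Db := dB3q0) cB102L_ok B hρ hen (gatB61 x) (gatB02 x) (fun _ => gatB20 x) (fun _ => gatB30 x) (datB61 x) (datB02 x) (fun _ => datB20 x) (fun _ => datB30 x) hd hx hx' CW.B102L_602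
    · exact corW_cert (G1 := gB6q1) (G2 := gB0q2) (Ga := gB3q0) (Gb := gB4q0) (D1 := dB6q1) (D2 := dB0q2) (Da := dB3q0) (Db := dB4q0) cB102L_ok B hρ hen (gatB61 x) (gatB02 x) (fun _ => gatB30 x) (fun _ => gatB40 x) (datB61 x) (datB02 x) (fun _ => datB30 x) (fun _ => datB40 x) hd hx hx' CW.B102L_603
    · exact corW_cert (G1 := gB6q1) (G2 := gB0q2) (Ga := gB4q0) (Gb := gB5q0) (D1 := dB6q1) (D2 := dB0q2) (Da := dB4q0) (Db := dB5q0) cB102L_ok B hρ hen (gatB61 x) (gatB02 x) (fun _ => gatB40 x) (fun h => absurd h (by decide)) (datB61 x) (datB02 x) (fun _ => datB40 x) (fun h => absurd h (by decide)) hd hx hx' CW.B102L_604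
    · exact absurd h2 (by norm_num)
    · exact absurd h2 (by norm_num)
    · exact absurd h2 (by norm_num)
  · intro ρ a B hρ hd i h1 h2
    fin_cases i
    · exact corT_cert (G1 := gB6q1) (G2 := gB0q2) (Ga := gB0q0) (Gb := gB1q0) cB102L_ok B hρ (gatB61 x) (gatB02 x) (fun _ => gatB00 x) (fun _ => gatB10 x) hd hx hx' CG.B102L_600
    · exact corT_cert (G1 := gB6q1) (G2 := gB0q2) (Ga := gB1q0) (Gb := gB2q0) cB102L_ok B hρ (gatB61 x) (gatB02 x) (fun _ => gatB10 x) (fun _ => gatB20 x) hd hx hx' CG.B102L_601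
    · exact corT_cert (G1 := gB6q1) (G2 := gB0q2) (Ga := gB2q0) (Gb := gB3q0) cB102L_ok B hρ (gatB61 x) (gatB02 x) (fun _ => gatB20 x) (fun _ => gatB30 x) hd hx hx' CG.B102L_602
    · exact corT_cert (G1 := gB6q1) (G2 := gB0q2) (Ga := gB3q0) (Gb := gB4q0) cB102L_ok B hρ (gatB61 x) (gatB02 x) (fun _ => gatB30 x) (fun _ => gatB40 x) hd hx hx' CG.B102L_603
    · exact corT_cert (G1 := gB6q1) (G2 := gB0q2) (Ga := gB4q0) (Gb := gB5q0) cB102L_ok B hρ (gatB61 x) (gatB02 x) (fun _ => gatB40 x) (fun h => absurd h (by decide)) hd hx hx' CG.B102L_604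
    · exact absurd h2 (by norm_num)
    · exact absurd h2 (by norm_num)
    · exact absurd h2 (by norm_num)

theorem altB_B102L_61 {κ x : ℝ} (hκ : κ * h0 = ken x) (hx : ((649613803 : ℕ) : ℝ) / S ≤ x) (hx' : x ≤ (((649613803 : ℕ) : ℝ) + (48318383 : ℕ)) / S) :
    AltEB 3 κ (eng.v x) (3 / 40) (tnt (h0 * x) (3 / 10)) PP tK tL tC pcB (scP esg pd) [⟨0, 1, 0, 67108864⟩, ⟨1, 0, 0, 67108864⟩, ⟨2, 1, 0, 67108864⟩] 1 0 2 6 1 (sgb true) (sgb true) x := by
  have X : XR 67108864 x := XR.of hx hx' (by norm_num) (by norm_num) (by norm_num) (by norm_num)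
  have hen : 0 < eng.v x := en_pos X.x0.le
  refine CornW.altB (C := cB102L) (j := (6 : Fin 9)) (k := (1 : Fin 9)) (Ef := esg) (pd := pd) (o := 3 / 40)
    (cornW_of (C := cB102L) (C0 := c0B) (En := eng) (mo := mog) (j := (6 : Fin 9)) (k := (1 : Fin 9)) (lo := 0) (hi := 4) (W := 67108864) (N0 := 3) cB102L_q (sideB hx hx') gokB (pinU hx hx') dokB X (by norm_num) (by norm_num) (l := (0 : Fin 9)) rfl
      (gatB61 x) (gatB12 x) (gatB00 x) (datB61 x) (datB12 x) (datB00 x) ?_)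
    (cornS_of (C := cB102L) (C0 := c0B) (j := (6 : Fin 9)) (k := (1 : Fin 9)) (lo := 0) (hi := 4) (W := 67108864) (N0 := 3) cB102L_q (sideB hx hx') gokB X (by norm_num) (by norm_num) (l := (0 : Fin 9)) rfl
      (gatB61 x) (gatB12 x) (gatB00 x) ?_)
    (thU (pinU hx hx')) rfl hκ (fun j q y => tC_eq j q y x) (esg_rng X.x0.le (by linarith [X.b, X.p0])).1 (mo_v x) le_rfl le_rfl
  · intro ρ a B hρ hd i h1 h2
    fin_cases i
    · exact corW_cert (G1 := gB6q1) (G2 := gB1q2) (Ga := gB0q0) (Gb := gB1q0) (D1 := dB6q1) (D2 := dB1q2) (Da := dB0q0) (Db := dB1q0) cB102L_ok B hρ hen (gatB61 x) (gatB12 x) (fun _ => gatB00 x) (fun _ => gatB10 x) (datB61 x) (datB12 x) (fun _ => datB00 x) (fun _ => datB10 x) hd hx hx' CW.B102L_610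
    · exact corW_cert (G1 := gB6q1) (G2 := gB1q2) (Ga := gB1q0) (Gb := gB2q0) (D1 := dB6q1) (D2 := dB1q2) (Da := dB1q0) (Db := dB2q0) cB102L_ok B hρ hen (gatB61 x) (gatB12 x) (fun _ => gatB10 x) (fun _ => gatB20 x) (datB61 x) (datB12 x) (fun _ => datB10 x) (fun _ => datB20 x) hd hx hx' CW.B102L_611
    · exact corW_cert (G1 := gB6q1) (G2 := gB1q2) (Ga := gB2q0) (Gb := gB3q0) (D1 := dB6q1) (D2 := dB1q2) (Da := dB2q0) (Db := dB3q0) cB102L_ok B hρ hen (gatB61 x) (gatB12 x) (fun _ => gatB20 x) (fun _ => gatB30 x) (datB61 x) (datB12 x) (fun _ => datB20 x) (fun _ => datB30 x) hd hx hx' CW.B102L_612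
    · exact corW_cert (G1 := gB6q1) (G2 := gB1q2) (Ga := gB3q0) (Gb := gB4q0) (D1 := dB6q1) (D2 := dB1q2) (Da := dB3q0) (Db := dB4q0) cB102L_ok B hρ hen (gatB61 x) (gatB12 x) (fun _ => gatB30 x) (fun _ => gatB40 x) (datB61 x) (datB12 x) (fun _ => datB30 x) (fun _ => datB40 x) hd hx hx' CW.B102L_613
    · exact corW_cert (G1 := gB6q1) (G2 := gB1q2) (Ga := gB4q0) (Gb := gB5q0) (D1 := dB6q1) (D2 := dB1q2) (Da := dB4q0) (Db := dB5q0) cB102L_ok B hρ hen (gatB61 x) (gatB12 x) (fun _ => gatB40 x) (fun h => absurd h (by decide)) (datB61 x) (datB12 x) (fun _ => datB40 x) (fun h => absurd h (by decide)) hd hx hx' CW.B102L_614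
    · exact absurd h2 (by norm_num)
    · exact absurd h2 (by norm_num)
    · exact absurd h2 (by norm_num)
  · intro ρ a B hρ hd i h1 h2
    fin_cases i
    · exact corT_cert (G1 := gB6q1) (G2 := gB1q2) (Ga := gB0q0) (Gb := gB1q0) cB102L_ok B hρ (gatB61 x) (gatB12 x) (fun _ => gatB00 x) (fun _ => gatB10 x) hd hx hx' CG.B102L_610
    · exact corT_cert (G1 := gB6q1) (G2 := gB1q2) (Ga := gB1q0) (Gb := gB2q0) cB102L_ok B hρ (gatB61 x) (gatB12 x) (fun _ => gatB10 x) (fun _ => gatB20 x) hd hx hx' CG.B102L_611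
    · exact corT_cert (G1 := gB6q1) (G2 := gB1q2) (Ga := gB2q0) (Gb := gB3q0) cB102L_ok B hρ (gatB61 x) (gatB12 x) (fun _ => gatB20 x) (fun _ => gatB30 x) hd hx hx' CG.B102L_612
    · exact corT_cert (G1 := gB6q1) (G2 := gB1q2) (Ga := gB3q0) (Gb := gB4q0) cB102L_ok B hρ (gatB61 x) (gatB12 x) (fun _ => gatB30 x) (fun _ => gatB40 x) hd hx hx' CG.B102L_613
    · exact corT_cert (G1 := gB6q1) (G2 := gB1q2) (Ga := gB4q0) (Gb := gB5q0) cB102L_ok B hρ (gatB61 x) (gatB12 x) (fun _ => gatB40 x) (fun h => absurd h (by decide)) hd hx hx' CG.B102L_614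
    · exact absurd h2 (by norm_num)
    · exact absurd h2 (by norm_num)
    · exact absurd h2 (by norm_num)

theorem altB_B102L_62 {κ x : ℝ} (hκ : κ * h0 = ken x) (hx : ((649613803 : ℕ) : ℝ) / S ≤ x) (hx' : x ≤ (((649613803 : ℕ) : ℝ) + (48318383 : ℕ)) / S) :
    AltEB 3 κ (eng.v x) (3 / 40) (tnt (h0 * x) (3 / 10)) PP tK tL tC pcB (scP esg pd) [⟨0, 1, 0, 67108864⟩, ⟨1, 0, 0, 67108864⟩, ⟨2, 1, 0, 67108864⟩] 1 0 2 6 2 (sgb true) (sgb true) x := by
  have X : XR 67108864 x := XR.of hx hx' (by norm_num) (by norm_num) (by norm_num) (by norm_num)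
  have hen : 0 < eng.v x := en_pos X.x0.le
  refine CornW.altB (C := cB102L) (j := (6 : Fin 9)) (k := (2 : Fin 9)) (Ef := esg) (pd := pd) (o := 3 / 40)
    (cornW_of (C := cB102L) (C0 := c0B) (En := eng) (mo := mog) (j := (6 : Fin 9)) (k := (2 : Fin 9)) (lo := 0) (hi := 4) (W := 67108864) (N0 := 3) cB102L_q (sideB hx hx') gokB (pinU hx hx') dokB X (by norm_num) (by norm_num) (l := (0 : Fin 9)) rfl
      (gatB61 x) (gatB22 x) (gatB00 x) (datB61 x) (datB22 x) (datB00 x) ?_)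
    (cornS_of (C := cB102L) (C0 := c0B) (j := (6 : Fin 9)) (k := (2 : Fin 9)) (lo := 0) (hi := 4) (W := 67108864) (N0 := 3) cB102L_q (sideB hx hx') gokB X (by norm_num) (by norm_num) (l := (0 : Fin 9)) rfl
      (gatB61 x) (gatB22 x) (gatB00 x) ?_)
    (thU (pinU hx hx')) rfl hκ (fun j q y => tC_eq j q y x) (esg_rng X.x0.le (by linarith [X.b, X.p0])).1 (mo_v x) le_rfl le_rfl
  · intro ρ a B hρ hd i h1 h2
    fin_cases i
    · exact corW_cert (G1 := gB6q1) (G2 := gB2q2) (Ga := gB0q0) (Gb := gB1q0) (D1 := dB6q1) (D2 := dB2q2) (Da := dB0q0) (Db := dB1q0) cB102L_ok B hρ hen (gatB61 x) (gatB22 x) (fun _ => gatB00 x) (fun _ => gatB10 x) (datB61 x) (datB22 x) (fun _ => datB00 x) (fun _ => datB10 x) hd hx hx' CW.B102L_620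
    · exact corW_cert (G1 := gB6q1) (G2 := gB2q2) (Ga := gB1q0) (Gb := gB2q0) (D1 := dB6q1) (D2 := dB2q2) (Da := dB1q0) (Db := dB2q0) cB102L_ok B hρ hen (gatB61 x) (gatB22 x) (fun _ => gatB10 x) (fun _ => gatB20 x) (datB61 x) (datB22 x) (fun _ => datB10 x) (fun _ => datB20 x) hd hx hx' CW.B102L_621
    · exact corW_cert (G1 := gB6q1) (G2 := gB2q2) (Ga := gB2q0) (Gb := gB3q0) (D1 := dB6q1) (D2 := dB2q2) (Da := dB2q0) (Db := dB3q0) cB102L_ok B hρ hen (gatB61 x) (gatB22 x) (fun _ => gatB20 x) (fun _ => gatB30 x) (datB61 x) (datB22 x) (fun _ => datB20 x) (fun _ => datB30 x) hd hx hx' CW.B102L_622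
    · exact corW_cert (G1 := gB6q1) (G2 := gB2q2) (Ga := gB3q0) (Gb := gB4q0) (D1 := dB6q1) (D2 := dB2q2) (Da := dB3q0) (Db := dB4q0) cB102L_ok B hρ hen (gatB61 x) (gatB22 x) (fun _ => gatB30 x) (fun _ => gatB40 x) (datB61 x) (datB22 x) (fun _ => datB30 x) (fun _ => datB40 x) hd hx hx' CW.B102L_623
    · exact corW_cert (G1 := gB6q1) (G2 := gB2q2) (Ga := gB4q0) (Gb := gB5q0) (D1 := dB6q1) (D2 := dB2q2) (Da := dB4q0) (Db := dB5q0) cB102L_ok B hρ hen (gatB61 x) (gatB22 x) (fun _ => gatB40 x) (fun h => absurd h (by decide)) (datB61 x) (datB22 x) (fun _ => datB40 x) (fun h => absurd h (by decide)) hd hx hx' CW.B102L_624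
    · exact absurd h2 (by norm_num)
    · exact absurd h2 (by norm_num)
    · exact absurd h2 (by norm_num)
  · intro ρ a B hρ hd i h1 h2
    fin_cases i
    · exact corT_cert (G1 := gB6q1) (G2 := gB2q2) (Ga := gB0q0) (Gb := gB1q0) cB102L_ok B hρ (gatB61 x) (gatB22 x) (fun _ => gatB00 x) (fun _ => gatB10 x) hd hx hx' CG.B102L_620
    · exact corT_cert (G1 := gB6q1) (G2 := gB2q2) (Ga := gB1q0) (Gb := gB2q0) cB102L_ok B hρ (gatB61 x) (gatB22 x) (fun _ => gatB10 x) (fun _ => gatB20 x) hd hx hx' CG.B102L_621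
    · exact corT_cert (G1 := gB6q1) (G2 := gB2q2) (Ga := gB2q0) (Gb := gB3q0) cB102L_ok B hρ (gatB61 x) (gatB22 x) (fun _ => gatB20 x) (fun _ => gatB30 x) hd hx hx' CG.B102L_622
    · exact corT_cert (G1 := gB6q1) (G2 := gB2q2) (Ga := gB3q0) (Gb := gB4q0) cB102L_ok B hρ (gatB61 x) (gatB22 x) (fun _ => gatB30 x) (fun _ => gatB40 x) hd hx hx' CG.B102L_623
    · exact corT_cert (G1 := gB6q1) (G2 := gB2q2) (Ga := gB4q0) (Gb := gB5q0) cB102L_ok B hρ (gatB61 x) (gatB22 x) (fun _ => gatB40 x) (fun h => absurd h (by decide)) hd hx hx' CG.B102L_624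
    · exact absurd h2 (by norm_num)
    · exact absurd h2 (by norm_num)
    · exact absurd h2 (by norm_num)

theorem altB_B102L_63 {κ x : ℝ} (hκ : κ * h0 = ken x) (hx : ((649613803 : ℕ) : ℝ) / S ≤ x) (hx' : x ≤ (((649613803 : ℕ) : ℝ) + (48318383 : ℕ)) / S) :
    AltEB 3 κ (eng.v x) (3 / 40) (tnt (h0 * x) (3 / 10)) PP tK tL tC pcB (scP esg pd) [⟨0, 1, 0, 67108864⟩, ⟨1, 0, 0, 67108864⟩, ⟨2, 1, 0, 67108864⟩] 1 0 2 6 3 (sgb true) (sgb true) x := by
  have X : XR 67108864 x := XR.of hx hx' (by norm_num) (by norm_num) (by norm_num) (by norm_num)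
  have hen : 0 < eng.v x := en_pos X.x0.le
  refine CornW.altB (C := cB102L) (j := (6 : Fin 9)) (k := (3 : Fin 9)) (Ef := esg) (pd := pd) (o := 3 / 40)
    (cornW_of (C := cB102L) (C0 := c0B) (En := eng) (mo := mog) (j := (6 : Fin 9)) (k := (3 : Fin 9)) (lo := 0) (hi := 4) (W := 67108864) (N0 := 3) cB102L_q (sideB hx hx') gokB (pinU hx hx') dokB X (by norm_num) (by norm_num) (l := (0 : Fin 9)) rfl
      (gatB61 x) (gatB32 x) (gatB00 x) (datB61 x) (datB32 x) (datB00 x) ?_)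
    (cornS_of (C := cB102L) (C0 := c0B) (j := (6 : Fin 9)) (k := (3 : Fin 9)) (lo := 0) (hi := 4) (W := 67108864) (N0 := 3) cB102L_q (sideB hx hx') gokB X (by norm_num) (by norm_num) (l := (0 : Fin 9)) rfl
      (gatB61 x) (gatB32 x) (gatB00 x) ?_)
    (thU (pinU hx hx')) rfl hκ (fun j q y => tC_eq j q y x) (esg_rng X.x0.le (by linarith [X.b, X.p0])).1 (mo_v x) le_rfl le_rfl
  · intro ρ a B hρ hd i h1 h2
    fin_cases i
    · exact corW_cert (G1 := gB6q1) (G2 := gB3q2) (Ga := gB0q0) (Gb := gB1q0) (D1 := dB6q1) (D2 := dB3q2) (Da := dB0q0) (Db := dB1q0) cB102L_ok B hρ hen (gatB61 x) (gatB32 x) (fun _ => gatB00 x) (fun _ => gatB10 x) (datB61 x) (datB32 x) (fun _ => datB00 x) (fun _ => datB10 x) hd hx hx' CW.B102L_630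
    · exact corW_cert (G1 := gB6q1) (G2 := gB3q2) (Ga := gB1q0) (Gb := gB2q0) (D1 := dB6q1) (D2 := dB3q2) (Da := dB1q0) (Db := dB2q0) cB102L_ok B hρ hen (gatB61 x) (gatB32 x) (fun _ => gatB10 x) (fun _ => gatB20 x) (datB61 x) (datB32 x) (fun _ => datB10 x) (fun _ => datB20 x) hd hx hx' CW.B102L_631
    · exact corW_cert (G1 := gB6q1) (G2 := gB3q2) (Ga := gB2q0) (Gb := gB3q0) (D1 := dB6q1) (D2 := dB3q2) (Da := dB2q0) (Db := dB3q0) cB102L_ok B hρ hen (gatB61 x) (gatB32 x) (fun _ => gatB20 x) (fun _ => gatB30 x) (datB61 x) (datB32 x) (fun _ => datB20 x) (fun _ => datB30 x) hd hx hx' CW.B102L_632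
    · exact corW_cert (G1 := gB6q1) (G2 := gB3q2) (Ga := gB3q0) (Gb := gB4q0) (D1 := dB6q1) (D2 := dB3q2) (Da := dB3q0) (Db := dB4q0) cB102L_ok B hρ hen (gatB61 x) (gatB32 x) (fun _ => gatB30 x) (fun _ => gatB40 x) (datB61 x) (datB32 x) (fun _ => datB30 x) (fun _ => datB40 x) hd hx hx' CW.B102L_633
    · exact corW_cert (G1 := gB6q1) (G2 := gB3q2) (Ga := gB4q0) (Gb := gB5q0) (D1 := dB6q1) (D2 := dB3q2) (Da := dB4q0) (Db := dB5q0) cB102L_ok B hρ hen (gatB61 x) (gatB32 x) (fun _ => gatB40 x) (fun h => absurd h (by decide)) (datB61 x) (datB32 x) (fun _ => datB40 x) (fun h => absurd h (by decide)) hd hx hx' CW.B102L_634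
    · exact absurd h2 (by norm_num)
    · exact absurd h2 (by norm_num)
    · exact absurd h2 (by norm_num)
  · intro ρ a B hρ hd i h1 h2
    fin_cases i
    · exact corT_cert (G1 := gB6q1) (G2 := gB3q2) (Ga := gB0q0) (Gb := gB1q0) cB102L_ok B hρ (gatB61 x) (gatB32 x) (fun _ => gatB00 x) (fun _ => gatB10 x) hd hx hx' CG.B102L_630
    · exact corT_cert (G1 := gB6q1) (G2 := gB3q2) (Ga := gB1q0) (Gb := gB2q0) cB102L_ok B hρ (gatB61 x) (gatB32 x) (fun _ => gatB10 x) (fun _ => gatB20 x) hd hx hx' CG.B102L_631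
    · exact corT_cert (G1 := gB6q1) (G2 := gB3q2) (Ga := gB2q0) (Gb := gB3q0) cB102L_ok B hρ (gatB61 x) (gatB32 x) (fun _ => gatB20 x) (fun _ => gatB30 x) hd hx hx' CG.B102L_632
    · exact corT_cert (G1 := gB6q1) (G2 := gB3q2) (Ga := gB3q0) (Gb := gB4q0) cB102L_ok B hρ (gatB61 x) (gatB32 x) (fun _ => gatB30 x) (fun _ => gatB40 x) hd hx hx' CG.B102L_633
    · exact corT_cert (G1 := gB6q1) (G2 := gB3q2) (Ga := gB4q0) (Gb := gB5q0) cB102L_ok B hρ (gatB61 x) (gatB32 x) (fun _ => gatB40 x) (fun h => absurd h (by decide)) hd hx hx' CG.B102L_634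
    · exact absurd h2 (by norm_num)
    · exact absurd h2 (by norm_num)
    · exact absurd h2 (by norm_num)

theorem altB_B102L_64 {κ x : ℝ} (hκ : κ * h0 = ken x) (hx : ((649613803 : ℕ) : ℝ) / S ≤ x) (hx' : x ≤ (((649613803 : ℕ) : ℝ) + (48318383 : ℕ)) / S) :
    AltEB 3 κ (eng.v x) (3 / 40) (tnt (h0 * x) (3 / 10)) PP tK tL tC pcB (scP esg pd) [⟨0, 1, 0, 67108864⟩, ⟨1, 0, 0, 67108864⟩, ⟨2, 1, 0, 67108864⟩] 1 0 2 6 4 (sgb true) (sgb true) x := by
  have X : XR 67108864 x := XR.of hx hx' (by norm_num) (by norm_num) (by norm_num) (by norm_num)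
  have hen : 0 < eng.v x := en_pos X.x0.le
  refine CornW.altB (C := cB102L) (j := (6 : Fin 9)) (k := (4 : Fin 9)) (Ef := esg) (pd := pd) (o := 3 / 40)
    (cornW_of (C := cB102L) (C0 := c0B) (En := eng) (mo := mog) (j := (6 : Fin 9)) (k := (4 : Fin 9)) (lo := 0) (hi := 4) (W := 67108864) (N0 := 3) cB102L_q (sideB hx hx') gokB (pinU hx hx') dokB X (by norm_num) (by norm_num) (l := (0 : Fin 9)) rfl
      (gatB61 x) (gatB42 x) (gatB00 x) (datB61 x) (datB42 x) (datB00 x) ?_)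
    (cornS_of (C := cB102L) (C0 := c0B) (j := (6 : Fin 9)) (k := (4 : Fin 9)) (lo := 0) (hi := 4) (W := 67108864) (N0 := 3) cB102L_q (sideB hx hx') gokB X (by norm_num) (by norm_num) (l := (0 : Fin 9)) rfl
      (gatB61 x) (gatB42 x) (gatB00 x) ?_)
    (thU (pinU hx hx')) rfl hκ (fun j q y => tC_eq j q y x) (esg_rng X.x0.le (by linarith [X.b, X.p0])).1 (mo_v x) le_rfl le_rfl
  · intro ρ a B hρ hd i h1 h2
    fin_cases i
    · exact corW_cert (G1 := gB6q1) (G2 := gB4q2) (Ga := gB0q0) (Gb := gB1q0) (D1 := dB6q1) (D2 := dB4q2) (Da := dB0q0) (Db := dB1q0) cB102L_ok B hρ hen (gatB61 x) (gatB42 x) (fun _ => gatB00 x) (fun _ => gatB10 x) (datB61 x) (datB42 x) (fun _ => datB00 x) (fun _ => datB10 x) hd hx hx' CW.B102L_640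
    · exact corW_cert (G1 := gB6q1) (G2 := gB4q2) (Ga := gB1q0) (Gb := gB2q0) (D1 := dB6q1) (D2 := dB4q2) (Da := dB1q0) (Db := dB2q0) cB102L_ok B hρ hen (gatB61 x) (gatB42 x) (fun _ => gatB10 x) (fun _ => gatB20 x) (datB61 x) (datB42 x) (fun _ => datB10 x) (fun _ => datB20 x) hd hx hx' CW.B102L_641
    · exact corW_cert (G1 := gB6q1) (G2 := gB4q2) (Ga := gB2q0) (Gb := gB3q0) (D1 := dB6q1) (D2 := dB4q2) (Da := dB2q0) (Db := dB3q0) cB102L_ok B hρ hen (gatB61 x) (gatB42 x) (fun _ => gatB20 x) (fun _ => gatB30 x) (datB61 x) (datB42 x) (fun _ => datB20 x) (fun _ => datB30 x) hd hx hx' CW.B102L_642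
    · exact corW_cert (G1 := gB6q1) (G2 := gB4q2) (Ga := gB3q0) (Gb := gB4q0) (D1 := dB6q1) (D2 := dB4q2) (Da := dB3q0) (Db := dB4q0) cB102L_ok B hρ hen (gatB61 x) (gatB42 x) (fun _ => gatB30 x) (fun _ => gatB40 x) (datB61 x) (datB42 x) (fun _ => datB30 x) (fun _ => datB40 x) hd hx hx' CW.B102L_643
    · exact corW_cert (G1 := gB6q1) (G2 := gB4q2) (Ga := gB4q0) (Gb := gB5q0) (D1 := dB6q1) (D2 := dB4q2) (Da := dB4q0) (Db := dB5q0) cB102L_ok B hρ hen (gatB61 x) (gatB42 x) (fun _ => gatB40 x) (fun h => absurd h (by decide)) (datB61 x) (datB42 x) (fun _ => datB40 x) (fun h => absurd h (by decide)) hd hx hx' CW.B102L_644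
    · exact absurd h2 (by norm_num)
    · exact absurd h2 (by norm_num)
    · exact absurd h2 (by norm_num)
  · intro ρ a B hρ hd i h1 h2
    fin_cases i
    · exact corT_cert (G1 := gB6q1) (G2 := gB4q2) (Ga := gB0q0) (Gb := gB1q0) cB102L_ok B hρ (gatB61 x) (gatB42 x) (fun _ => gatB00 x) (fun _ => gatB10 x) hd hx hx' CG.B102L_640
    · exact corT_cert (G1 := gB6q1) (G2 := gB4q2) (Ga := gB1q0) (Gb := gB2q0) cB102L_ok B hρ (gatB61 x) (gatB42 x) (fun _ => gatB10 x) (fun _ => gatB20 x) hd hx hx' CG.B102L_641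
    · exact corT_cert (G1 := gB6q1) (G2 := gB4q2) (Ga := gB2q0) (Gb := gB3q0) cB102L_ok B hρ (gatB61 x) (gatB42 x) (fun _ => gatB20 x) (fun _ => gatB30 x) hd hx hx' CG.B102L_642
    · exact corT_cert (G1 := gB6q1) (G2 := gB4q2) (Ga := gB3q0) (Gb := gB4q0) cB102L_ok B hρ (gatB61 x) (gatB42 x) (fun _ => gatB30 x) (fun _ => gatB40 x) hd hx hx' CG.B102L_643
    · exact corT_cert (G1 := gB6q1) (G2 := gB4q2) (Ga := gB4q0) (Gb := gB5q0) cB102L_ok B hρ (gatB61 x) (gatB42 x) (fun _ => gatB40 x) (fun h => absurd h (by decide)) hd hx hx' CG.B102L_644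
    · exact absurd h2 (by norm_num)
    · exact absurd h2 (by norm_num)
    · exact absurd h2 (by norm_num)

theorem altB_B102L_70 {κ x : ℝ} (hκ : κ * h0 = ken x) (hx : ((649613803 : ℕ) : ℝ) / S ≤ x) (hx' : x ≤ (((649613803 : ℕ) : ℝ) + (48318383 : ℕ)) / S) :
    AltEB 3 κ (eng.v x) (3 / 40) (tnt (h0 * x) (3 / 10)) PP tK tL tC pcB (scP esg pd) [⟨0, 1, 0, 67108864⟩, ⟨1, 0, 0, 67108864⟩, ⟨2, 1, 0, 67108864⟩] 1 0 2 7 0 (sgb true) (sgb true) x := by
  have X : XR 67108864 x := XR.of hx hx' (by norm_num) (by norm_num) (by norm_num) (by norm_num)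
  have hen : 0 < eng.v x := en_pos X.x0.le
  refine CornW.altB (C := cB102L) (j := (7 : Fin 9)) (k := (0 : Fin 9)) (Ef := esg) (pd := pd) (o := 3 / 40)
    (cornW_of (C := cB102L) (C0 := c0B) (En := eng) (mo := mog) (j := (7 : Fin 9)) (k := (0 : Fin 9)) (lo := 0) (hi := 4) (W := 67108864) (N0 := 3) cB102L_q (sideB hx hx') gokB (pinU hx hx') dokB X (by norm_num) (by norm_num) (l := (0 : Fin 9)) rfl
      (gatB71 x) (gatB02 x) (gatB00 x) (datB71 x) (datB02 x) (datB00 x) ?_)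
    (cornS_of (C := cB102L) (C0 := c0B) (j := (7 : Fin 9)) (k := (0 : Fin 9)) (lo := 0) (hi := 4) (W := 67108864) (N0 := 3) cB102L_q (sideB hx hx') gokB X (by norm_num) (by norm_num) (l := (0 : Fin 9)) rfl
      (gatB71 x) (gatB02 x) (gatB00 x) ?_)
    (thU (pinU hx hx')) rfl hκ (fun j q y => tC_eq j q y x) (esg_rng X.x0.le (by linarith [X.b, X.p0])).1 (mo_v x) le_rfl le_rfl
  · intro ρ a B hρ hd i h1 h2
    fin_cases i
    · exact corW_cert (G1 := gB7q1) (G2 := gB0q2) (Ga := gB0q0) (Gb := gB1q0) (D1 := dB7q1) (D2 := dB0q2) (Da := dB0q0) (Db := dB1q0) cB102L_ok B hρ hen (gatB71 x) (gatB02 x) (fun _ => gatB00 x) (fun _ => gatB10 x) (datB71 x) (datB02 x) (fun _ => datB00 x) (fun _ => datB10 x) hd hx hx' CW.B102L_700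
    · exact corW_cert (G1 := gB7q1) (G2 := gB0q2) (Ga := gB1q0) (Gb := gB2q0) (D1 := dB7q1) (D2 := dB0q2) (Da := dB1q0) (Db := dB2q0) cB102L_ok B hρ hen (gatB71 x) (gatB02 x) (fun _ => gatB10 x) (fun _ => gatB20 x) (datB71 x) (datB02 x) (fun _ => datB10 x) (fun _ => datB20 x) hd hx hx' CW.B102L_701
    · exact corW_cert (G1 := gB7q1) (G2 := gB0q2) (Ga := gB2q0) (Gb := gB3q0) (D1 := dB7q1) (D2 := dB0q2) (Da := dB2q0) (Db := dB3q0) cB102L_ok B hρ hen (gatB71 x) (gatB02 x) (fun _ => gatB20 x) (fun _ => gatB30 x) (datB71 x) (datB02 x) (fun _ => datB20 x) (fun _ => datB30 x) hd hx hx' CW.B102L_702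
    · exact corW_cert (G1 := gB7q1) (G2 := gB0q2) (Ga := gB3q0) (Gb := gB4q0) (D1 := dB7q1) (D2 := dB0q2) (Da := dB3q0) (Db := dB4q0) cB102L_ok B hρ hen (gatB71 x) (gatB02 x) (fun _ => gatB30 x) (fun _ => gatB40 x) (datB71 x) (datB02 x) (fun _ => datB30 x) (fun _ => datB40 x) hd hx hx' CW.B102L_703
    · exact corW_cert (G1 := gB7q1) (G2 := gB0q2) (Ga := gB4q0) (Gb := gB5q0) (D1 := dB7q1) (D2 := dB0q2) (Da := dB4q0) (Db := dB5q0) cB102L_ok B hρ hen (gatB71 x) (gatB02 x) (fun _ => gatB40 x) (fun h => absurd h (by decide)) (datB71 x) (datB02 x) (fun _ => datB40 x) (fun h => absurd h (by decide)) hd hx hx' CW.B102L_704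
    · exact absurd h2 (by norm_num)
    · exact absurd h2 (by norm_num)
    · exact absurd h2 (by norm_num)
  · intro ρ a B hρ hd i h1 h2
    fin_cases i
    · exact corT_cert (G1 := gB7q1) (G2 := gB0q2) (Ga := gB0q0) (Gb := gB1q0) cB102L_ok B hρ (gatB71 x) (gatB02 x) (fun _ => gatB00 x) (fun _ => gatB10 x) hd hx hx' CG.B102L_700
    · exact corT_cert (G1 := gB7q1) (G2 := gB0q2) (Ga := gB1q0) (Gb := gB2q0) cB102L_ok B hρ (gatB71 x) (gatB02 x) (fun _ => gatB10 x) (fun _ => gatB20 x) hd hx hx' CG.B102L_701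
    · exact corT_cert (G1 := gB7q1) (G2 := gB0q2) (Ga := gB2q0) (Gb := gB3q0) cB102L_ok B hρ (gatB71 x) (gatB02 x) (fun _ => gatB20 x) (fun _ => gatB30 x) hd hx hx' CG.B102L_702
    · exact corT_cert (G1 := gB7q1) (G2 := gB0q2) (Ga := gB3q0) (Gb := gB4q0) cB102L_ok B hρ (gatB71 x) (gatB02 x) (fun _ => gatB30 x) (fun _ => gatB40 x) hd hx hx' CG.B102L_703
    · exact corT_cert (G1 := gB7q1) (G2 := gB0q2) (Ga := gB4q0) (Gb := gB5q0) cB102L_ok B hρ (gatB71 x) (gatB02 x) (fun _ => gatB40 x) (fun h => absurd h (by decide)) hd hx hx' CG.B102L_704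
    · exact absurd h2 (by norm_num)
    · exact absurd h2 (by norm_num)
    · exact absurd h2 (by norm_num)

theorem altB_B102L_71 {κ x : ℝ} (hκ : κ * h0 = ken x) (hx : ((649613803 : ℕ) : ℝ) / S ≤ x) (hx' : x ≤ (((649613803 : ℕ) : ℝ) + (48318383 : ℕ)) / S) :
    AltEB 3 κ (eng.v x) (3 / 40) (tnt (h0 * x) (3 / 10)) PP tK tL tC pcB (scP esg pd) [⟨0, 1, 0, 67108864⟩, ⟨1, 0, 0, 67108864⟩, ⟨2, 1, 0, 67108864⟩] 1 0 2 7 1 (sgb true) (sgb true) x := by
  have X : XR 67108864 x := XR.of hx hx' (by norm_num) (by norm_num) (by norm_num) (by norm_num)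
  have hen : 0 < eng.v x := en_pos X.x0.le
  refine CornW.altB (C := cB102L) (j := (7 : Fin 9)) (k := (1 : Fin 9)) (Ef := esg) (pd := pd) (o := 3 / 40)
    (cornW_of (C := cB102L) (C0 := c0B) (En := eng) (mo := mog) (j := (7 : Fin 9)) (k := (1 : Fin 9)) (lo := 0) (hi := 4) (W := 67108864) (N0 := 3) cB102L_q (sideB hx hx') gokB (pinU hx hx') dokB X (by norm_num) (by norm_num) (l := (0 : Fin 9)) rfl
      (gatB71 x) (gatB12 x) (gatB00 x) (datB71 x) (datB12 x) (datB00 x) ?_)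
    (cornS_of (C := cB102L) (C0 := c0B) (j := (7 : Fin 9)) (k := (1 : Fin 9)) (lo := 0) (hi := 4) (W := 67108864) (N0 := 3) cB102L_q (sideB hx hx') gokB X (by norm_num) (by norm_num) (l := (0 : Fin 9)) rfl
      (gatB71 x) (gatB12 x) (gatB00 x) ?_)
    (thU (pinU hx hx')) rfl hκ (fun j q y => tC_eq j q y x) (esg_rng X.x0.le (by linarith [X.b, X.p0])).1 (mo_v x) le_rfl le_rfl
  · intro ρ a B hρ hd i h1 h2
    fin_cases i
    · exact corW_cert (G1 := gB7q1) (G2 := gB1q2) (Ga := gB0q0) (Gb := gB1q0) (D1 := dB7q1) (D2 := dB1q2) (Da := dB0q0) (Db := dB1q0) cB102L_ok B hρ hen (gatB71 x) (gatB12 x) (fun _ => gatB00 x) (fun _ => gatB10 x) (datB71 x) (datB12 x) (fun _ => datB00 x) (fun _ => datB10 x) hd hx hx' CW.B102L_710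
    · exact corW_cert (G1 := gB7q1) (G2 := gB1q2) (Ga := gB1q0) (Gb := gB2q0) (D1 := dB7q1) (D2 := dB1q2) (Da := dB1q0) (Db := dB2q0) cB102L_ok B hρ hen (gatB71 x) (gatB12 x) (fun _ => gatB10 x) (fun _ => gatB20 x) (datB71 x) (datB12 x) (fun _ => datB10 x) (fun _ => datB20 x) hd hx hx' CW.B102L_711
    · exact corW_cert (G1 := gB7q1) (G2 := gB1q2) (Ga := gB2q0) (Gb := gB3q0) (D1 := dB7q1) (D2 := dB1q2) (Da := dB2q0) (Db := dB3q0) cB102L_ok B hρ hen (gatB71 x) (gatB12 x) (fun _ => gatB20 x) (fun _ => gatB30 x) (datB71 x) (datB12 x) (fun _ => datB20 x) (fun _ => datB30 x) hd hx hx' CW.B102L_712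
    · exact corW_cert (G1 := gB7q1) (G2 := gB1q2) (Ga := gB3q0) (Gb := gB4q0) (D1 := dB7q1) (D2 := dB1q2) (Da := dB3q0) (Db := dB4q0) cB102L_ok B hρ hen (gatB71 x) (gatB12 x) (fun _ => gatB30 x) (fun _ => gatB40 x) (datB71 x) (datB12 x) (fun _ => datB30 x) (fun _ => datB40 x) hd hx hx' CW.B102L_713
    · exact corW_cert (G1 := gB7q1) (G2 := gB1q2) (Ga := gB4q0) (Gb := gB5q0) (D1 := dB7q1) (D2 := dB1q2) (Da := dB4q0) (Db := dB5q0) cB102L_ok B hρ hen (gatB71 x) (gatB12 x) (fun _ => gatB40 x) (fun h => absurd h (by decide)) (datB71 x) (datB12 x) (fun _ => datB40 x) (fun h => absurd h (by decide)) hd hx hx' CW.B102L_714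
    · exact absurd h2 (by norm_num)
    · exact absurd h2 (by norm_num)
    · exact absurd h2 (by norm_num)
  · intro ρ a B hρ hd i h1 h2
    fin_cases i
    · exact corT_cert (G1 := gB7q1) (G2 := gB1q2) (Ga := gB0q0) (Gb := gB1q0) cB102L_ok B hρ (gatB71 x) (gatB12 x) (fun _ => gatB00 x) (fun _ => gatB10 x) hd hx hx' CG.B102L_710
    · exact corT_cert (G1 := gB7q1) (G2 := gB1q2) (Ga := gB1q0) (Gb := gB2q0) cB102L_ok B hρ (gatB71 x) (gatB12 x) (fun _ => gatB10 x) (fun _ => gatB20 x) hd hx hx' CG.B102L_711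
    · exact corT_cert (G1 := gB7q1) (G2 := gB1q2) (Ga := gB2q0) (Gb := gB3q0) cB102L_ok B hρ (gatB71 x) (gatB12 x) (fun _ => gatB20 x) (fun _ => gatB30 x) hd hx hx' CG.B102L_712
    · exact corT_cert (G1 := gB7q1) (G2 := gB1q2) (Ga := gB3q0) (Gb := gB4q0) cB102L_ok B hρ (gatB71 x) (gatB12 x) (fun _ => gatB30 x) (fun _ => gatB40 x) hd hx hx' CG.B102L_713
    · exact corT_cert (G1 := gB7q1) (G2 := gB1q2) (Ga := gB4q0) (Gb := gB5q0) cB102L_ok B hρ (gatB71 x) (gatB12 x) (fun _ => gatB40 x) (fun h => absurd h (by decide)) hd hx hx' CG.B102L_714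
    · exact absurd h2 (by norm_num)
    · exact absurd h2 (by norm_num)
    · exact absurd h2 (by norm_num)

theorem altB_B102L_72 {κ x : ℝ} (hκ : κ * h0 = ken x) (hx : ((649613803 : ℕ) : ℝ) / S ≤ x) (hx' : x ≤ (((649613803 : ℕ) : ℝ) + (48318383 : ℕ)) / S) :
    AltEB 3 κ (eng.v x) (3 / 40) (tnt (h0 * x) (3 / 10)) PP tK tL tC pcB (scP esg pd) [⟨0, 1, 0, 67108864⟩, ⟨1, 0, 0, 67108864⟩, ⟨2, 1, 0, 67108864⟩] 1 0 2 7 2 (sgb true) (sgb true) x := by
  have X : XR 67108864 x := XR.of hx hx' (by norm_num) (by norm_num) (by norm_num) (by norm_num)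
  have hen : 0 < eng.v x := en_pos X.x0.le
  refine CornW.altB (C := cB102L) (j := (7 : Fin 9)) (k := (2 : Fin 9)) (Ef := esg) (pd := pd) (o := 3 / 40)
    (cornW_of (C := cB102L) (C0 := c0B) (En := eng) (mo := mog) (j := (7 : Fin 9)) (k := (2 : Fin 9)) (lo := 0) (hi := 4) (W := 67108864) (N0 := 3) cB102L_q (sideB hx hx') gokB (pinU hx hx') dokB X (by norm_num) (by norm_num) (l := (0 : Fin 9)) rfl
      (gatB71 x) (gatB22 x) (gatB00 x) (datB71 x) (datB22 x) (datB00 x) ?_)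
    (cornS_of (C := cB102L) (C0 := c0B) (j := (7 : Fin 9)) (k := (2 : Fin 9)) (lo := 0) (hi := 4) (W := 67108864) (N0 := 3) cB102L_q (sideB hx hx') gokB X (by norm_num) (by norm_num) (l := (0 : Fin 9)) rfl
      (gatB71 x) (gatB22 x) (gatB00 x) ?_)
    (thU (pinU hx hx')) rfl hκ (fun j q y => tC_eq j q y x) (esg_rng X.x0.le (by linarith [X.b, X.p0])).1 (mo_v x) le_rfl le_rfl
  · intro ρ a B hρ hd i h1 h2
    fin_cases i
    · exact corW_cert (G1 := gB7q1) (G2 := gB2q2) (Ga := gB0q0) (Gb := gB1q0) (D1 := dB7q1) (D2 := dB2q2) (Da := dB0q0) (Db := dB1q0) cB102L_ok B hρ hen (gatB71 x) (gatB22 x) (fun _ => gatB00 x) (fun _ => gatB10 x) (datB71 x) (datB22 x) (fun _ => datB00 x) (fun _ => datB10 x) hd hx hx' CW.B102L_720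
    · exact corW_cert (G1 := gB7q1) (G2 := gB2q2) (Ga := gB1q0) (Gb := gB2q0) (D1 := dB7q1) (D2 := dB2q2) (Da := dB1q0) (Db := dB2q0) cB102L_ok B hρ hen (gatB71 x) (gatB22 x) (fun _ => gatB10 x) (fun _ => gatB20 x) (datB71 x) (datB22 x) (fun _ => datB10 x) (fun _ => datB20 x) hd hx hx' CW.B102L_721
    · exact corW_cert (G1 := gB7q1) (G2 := gB2q2) (Ga := gB2q0) (Gb := gB3q0) (D1 := dB7q1) (D2 := dB2q2) (Da := dB2q0) (Db := dB3q0) cB102L_ok B hρ hen (gatB71 x) (gatB22 x) (fun _ => gatB20 x) (fun _ => gatB30 x) (datB71 x) (datB22 x) (fun _ => datB20 x) (fun _ => datB30 x) hd hx hx' CW.B102L_722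
    · exact corW_cert (G1 := gB7q1) (G2 := gB2q2) (Ga := gB3q0) (Gb := gB4q0) (D1 := dB7q1) (D2 := dB2q2) (Da := dB3q0) (Db := dB4q0) cB102L_ok B hρ hen (gatB71 x) (gatB22 x) (fun _ => gatB30 x) (fun _ => gatB40 x) (datB71 x) (datB22 x) (fun _ => datB30 x) (fun _ => datB40 x) hd hx hx' CW.B102L_723
    · exact corW_cert (G1 := gB7q1) (G2 := gB2q2) (Ga := gB4q0) (Gb := gB5q0) (D1 := dB7q1) (D2 := dB2q2) (Da := dB4q0) (Db := dB5q0) cB102L_ok B hρ hen (gatB71 x) (gatB22 x) (fun _ => gatB40 x) (fun h => absurd h (by decide)) (datB71 x) (datB22 x) (fun _ => datB40 x) (fun h => absurd h (by decide)) hd hx hx' CW.B102L_724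
    · exact absurd h2 (by norm_num)
    · exact absurd h2 (by norm_num)
    · exact absurd h2 (by norm_num)
  · intro ρ a B hρ hd i h1 h2
    fin_cases i
    · exact corT_cert (G1 := gB7q1) (G2 := gB2q2) (Ga := gB0q0) (Gb := gB1q0) cB102L_ok B hρ (gatB71 x) (gatB22 x) (fun _ => gatB00 x) (fun _ => gatB10 x) hd hx hx' CG.B102L_720
    · exact corT_cert (G1 := gB7q1) (G2 := gB2q2) (Ga := gB1q0) (Gb := gB2q0) cB102L_ok B hρ (gatB71 x) (gatB22 x) (fun _ => gatB10 x) (fun _ => gatB20 x) hd hx hx' CG.B102L_721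
    · exact corT_cert (G1 := gB7q1) (G2 := gB2q2) (Ga := gB2q0) (Gb := gB3q0) cB102L_ok B hρ (gatB71 x) (gatB22 x) (fun _ => gatB20 x) (fun _ => gatB30 x) hd hx hx' CG.B102L_722
    · exact corT_cert (G1 := gB7q1) (G2 := gB2q2) (Ga := gB3q0) (Gb := gB4q0) cB102L_ok B hρ (gatB71 x) (gatB22 x) (fun _ => gatB30 x) (fun _ => gatB40 x) hd hx hx' CG.B102L_723
    · exact corT_cert (G1 := gB7q1) (G2 := gB2q2) (Ga := gB4q0) (Gb := gB5q0) cB102L_ok B hρ (gatB71 x) (gatB22 x) (fun _ => gatB40 x) (fun h => absurd h (by decide)) hd hx hx' CG.B102L_724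
    · exact absurd h2 (by norm_num)
    · exact absurd h2 (by norm_num)
    · exact absurd h2 (by norm_num)

theorem altB_B102L_73 {κ x : ℝ} (hκ : κ * h0 = ken x) (hx : ((649613803 : ℕ) : ℝ) / S ≤ x) (hx' : x ≤ (((649613803 : ℕ) : ℝ) + (48318383 : ℕ)) / S) :
    AltEB 3 κ (eng.v x) (3 / 40) (tnt (h0 * x) (3 / 10)) PP tK tL tC pcB (scP esg pd) [⟨0, 1, 0, 67108864⟩, ⟨1, 0, 0, 67108864⟩, ⟨2, 1, 0, 67108864⟩] 1 0 2 7 3 (sgb true) (sgb true) x := by
  have X : XR 67108864 x := XR.of hx hx' (by norm_num) (by norm_num) (by norm_num) (by norm_num)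
  have hen : 0 < eng.v x := en_pos X.x0.le
  refine CornW.altB (C := cB102L) (j := (7 : Fin 9)) (k := (3 : Fin 9)) (Ef := esg) (pd := pd) (o := 3 / 40)
    (cornW_of (C := cB102L) (C0 := c0B) (En := eng) (mo := mog) (j := (7 : Fin 9)) (k := (3 : Fin 9)) (lo := 0) (hi := 4) (W := 67108864) (N0 := 3) cB102L_q (sideB hx hx') gokB (pinU hx hx') dokB X (by norm_num) (by norm_num) (l := (0 : Fin 9)) rfl
      (gatB71 x) (gatB32 x) (gatB00 x) (datB71 x) (datB32 x) (datB00 x) ?_)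
    (cornS_of (C := cB102L) (C0 := c0B) (j := (7 : Fin 9)) (k := (3 : Fin 9)) (lo := 0) (hi := 4) (W := 67108864) (N0 := 3) cB102L_q (sideB hx hx') gokB X (by norm_num) (by norm_num) (l := (0 : Fin 9)) rfl
      (gatB71 x) (gatB32 x) (gatB00 x) ?_)
    (thU (pinU hx hx')) rfl hκ (fun j q y => tC_eq j q y x) (esg_rng X.x0.le (by linarith [X.b, X.p0])).1 (mo_v x) le_rfl le_rfl
  · intro ρ a B hρ hd i h1 h2
    fin_cases i
    · exact corW_cert (G1 := gB7q1) (G2 := gB3q2) (Ga := gB0q0) (Gb := gB1q0) (D1 := dB7q1) (D2 := dB3q2) (Da := dB0q0) (Db := dB1q0) cB102L_ok B hρ hen (gatB71 x) (gatB32 x) (fun _ => gatB00 x) (fun _ => gatB10 x) (datB71 x) (datB32 x) (fun _ => datB00 x) (fun _ => datB10 x) hd hx hx' CW.B102L_730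
    · exact corW_cert (G1 := gB7q1) (G2 := gB3q2) (Ga := gB1q0) (Gb := gB2q0) (D1 := dB7q1) (D2 := dB3q2) (Da := dB1q0) (Db := dB2q0) cB102L_ok B hρ hen (gatB71 x) (gatB32 x) (fun _ => gatB10 x) (fun _ => gatB20 x) (datB71 x) (datB32 x) (fun _ => datB10 x) (fun _ => datB20 x) hd hx hx' CW.B102L_731
    · exact corW_cert (G1 := gB7q1) (G2 := gB3q2) (Ga := gB2q0) (Gb := gB3q0) (D1 := dB7q1) (D2 := dB3q2) (Da := dB2q0) (Db := dB3q0) cB102L_ok B hρ hen (gatB71 x) (gatB32 x) (fun _ => gatB20 x) (fun _ => gatB30 x) (datB71 x) (datB32 x) (fun _ => datB20 x) (fun _ => datB30 x) hd hx hx' CW.B102L_732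
    · exact corW_cert (G1 := gB7q1) (G2 := gB3q2) (Ga := gB3q0) (Gb := gB4q0) (D1 := dB7q1) (D2 := dB3q2) (Da := dB3q0) (Db := dB4q0) cB102L_ok B hρ hen (gatB71 x) (gatB32 x) (fun _ => gatB30 x) (fun _ => gatB40 x) (datB71 x) (datB32 x) (fun _ => datB30 x) (fun _ => datB40 x) hd hx hx' CW.B102L_733
    · exact corW_cert (G1 := gB7q1) (G2 := gB3q2) (Ga := gB4q0) (Gb := gB5q0) (D1 := dB7q1) (D2 := dB3q2) (Da := dB4q0) (Db := dB5q0) cB102L_ok B hρ hen (gatB71 x) (gatB32 x) (fun _ => gatB40 x) (fun h => absurd h (by decide)) (datB71 x) (datB32 x) (fun _ => datB40 x) (fun h => absurd h (by decide)) hd hx hx' CW.B102L_734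
    · exact absurd h2 (by norm_num)
    · exact absurd h2 (by norm_num)
    · exact absurd h2 (by norm_num)
  · intro ρ a B hρ hd i h1 h2
    fin_cases i
    · exact corT_cert (G1 := gB7q1) (G2 := gB3q2) (Ga := gB0q0) (Gb := gB1q0) cB102L_ok B hρ (gatB71 x) (gatB32 x) (fun _ => gatB00 x) (fun _ => gatB10 x) hd hx hx' CG.B102L_730
    · exact corT_cert (G1 := gB7q1) (G2 := gB3q2) (Ga := gB1q0) (Gb := gB2q0) cB102L_ok B hρ (gatB71 x) (gatB32 x) (fun _ => gatB10 x) (fun _ => gatB20 x) hd hx hx' CG.B102L_731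
    · exact corT_cert (G1 := gB7q1) (G2 := gB3q2) (Ga := gB2q0) (Gb := gB3q0) cB102L_ok B hρ (gatB71 x) (gatB32 x) (fun _ => gatB20 x) (fun _ => gatB30 x) hd hx hx' CG.B102L_732
    · exact corT_cert (G1 := gB7q1) (G2 := gB3q2) (Ga := gB3q0) (Gb := gB4q0) cB102L_ok B hρ (gatB71 x) (gatB32 x) (fun _ => gatB30 x) (fun _ => gatB40 x) hd hx hx' CG.B102L_733
    · exact corT_cert (G1 := gB7q1) (G2 := gB3q2) (Ga := gB4q0) (Gb := gB5q0) cB102L_ok B hρ (gatB71 x) (gatB32 x) (fun _ => gatB40 x) (fun h => absurd h (by decide)) hd hx hx' CG.B102L_734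
    · exact absurd h2 (by norm_num)
    · exact absurd h2 (by norm_num)
    · exact absurd h2 (by norm_num)

theorem altB_B102L_74 {κ x : ℝ} (hκ : κ * h0 = ken x) (hx : ((649613803 : ℕ) : ℝ) / S ≤ x) (hx' : x ≤ (((649613803 : ℕ) : ℝ) + (48318383 : ℕ)) / S) :
    AltEB 3 κ (eng.v x) (3 / 40) (tnt (h0 * x) (3 / 10)) PP tK tL tC pcB (scP esg pd) [⟨0, 1, 0, 67108864⟩, ⟨1, 0, 0, 67108864⟩, ⟨2, 1, 0, 67108864⟩] 1 0 2 7 4 (sgb true) (sgb true) x := by
  have X : XR 67108864 x := XR.of hx hx' (by norm_num) (by norm_num) (by norm_num) (by norm_num)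
  have hen : 0 < eng.v x := en_pos X.x0.le
  refine CornW.altB (C := cB102L) (j := (7 : Fin 9)) (k := (4 : Fin 9)) (Ef := esg) (pd := pd) (o := 3 / 40)
    (cornW_of (C := cB102L) (C0 := c0B) (En := eng) (mo := mog) (j := (7 : Fin 9)) (k := (4 : Fin 9)) (lo := 0) (hi := 4) (W := 67108864) (N0 := 3) cB102L_q (sideB hx hx') gokB (pinU hx hx') dokB X (by norm_num) (by norm_num) (l := (0 : Fin 9)) rfl
      (gatB71 x) (gatB42 x) (gatB00 x) (datB71 x) (datB42 x) (datB00 x) ?_)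
    (cornS_of (C := cB102L) (C0 := c0B) (j := (7 : Fin 9)) (k := (4 : Fin 9)) (lo := 0) (hi := 4) (W := 67108864) (N0 := 3) cB102L_q (sideB hx hx') gokB X (by norm_num) (by norm_num) (l := (0 : Fin 9)) rfl
      (gatB71 x) (gatB42 x) (gatB00 x) ?_)
    (thU (pinU hx hx')) rfl hκ (fun j q y => tC_eq j q y x) (esg_rng X.x0.le (by linarith [X.b, X.p0])).1 (mo_v x) le_rfl le_rfl
  · intro ρ a B hρ hd i h1 h2
    fin_cases i
    · exact corW_cert (G1 := gB7q1) (G2 := gB4q2) (Ga := gB0q0) (Gb := gB1q0) (D1 := dB7q1) (D2 := dB4q2) (Da := dB0q0) (Db := dB1q0) cB102L_ok B hρ hen (gatB71 x) (gatB42 x) (fun _ => gatB00 x) (fun _ => gatB10 x) (datB71 x) (datB42 x) (fun _ => datB00 x) (fun _ => datB10 x) hd hx hx' CW.B102L_740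
    · exact corW_cert (G1 := gB7q1) (G2 := gB4q2) (Ga := gB1q0) (Gb := gB2q0) (D1 := dB7q1) (D2 := dB4q2) (Da := dB1q0) (Db := dB2q0) cB102L_ok B hρ hen (gatB71 x) (gatB42 x) (fun _ => gatB10 x) (fun _ => gatB20 x) (datB71 x) (datB42 x) (fun _ => datB10 x) (fun _ => datB20 x) hd hx hx' CW.B102L_741
    · exact corW_cert (G1 := gB7q1) (G2 := gB4q2) (Ga := gB2q0) (Gb := gB3q0) (D1 := dB7q1) (D2 := dB4q2) (Da := dB2q0) (Db := dB3q0) cB102L_ok B hρ hen (gatB71 x) (gatB42 x) (fun _ => gatB20 x) (fun _ => gatB30 x) (datB71 x) (datB42 x) (fun _ => datB20 x) (fun _ => datB30 x) hd hx hx' CW.B102L_742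
    · exact corW_cert (G1 := gB7q1) (G2 := gB4q2) (Ga := gB3q0) (Gb := gB4q0) (D1 := dB7q1) (D2 := dB4q2) (Da := dB3q0) (Db := dB4q0) cB102L_ok B hρ hen (gatB71 x) (gatB42 x) (fun _ => gatB30 x) (fun _ => gatB40 x) (datB71 x) (datB42 x) (fun _ => datB30 x) (fun _ => datB40 x) hd hx hx' CW.B102L_743
    · exact corW_cert (G1 := gB7q1) (G2 := gB4q2) (Ga := gB4q0) (Gb := gB5q0) (D1 := dB7q1) (D2 := dB4q2) (Da := dB4q0) (Db := dB5q0) cB102L_ok B hρ hen (gatB71 x) (gatB42 x) (fun _ => gatB40 x) (fun h => absurd h (by decide)) (datB71 x) (datB42 x) (fun _ => datB40 x) (fun h => absurd h (by decide)) hd hx hx' CW.B102L_744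
    · exact absurd h2 (by norm_num)
    · exact absurd h2 (by norm_num)
    · exact absurd h2 (by norm_num)
  · intro ρ a B hρ hd i h1 h2
    fin_cases i
    · exact corT_cert (G1 := gB7q1) (G2 := gB4q2) (Ga := gB0q0) (Gb := gB1q0) cB102L_ok B hρ (gatB71 x) (gatB42 x) (fun _ => gatB00 x) (fun _ => gatB10 x) hd hx hx' CG.B102L_740
    · exact corT_cert (G1 := gB7q1) (G2 := gB4q2) (Ga := gB1q0) (Gb := gB2q0) cB102L_ok B hρ (gatB71 x) (gatB42 x) (fun _ => gatB10 x) (fun _ => gatB20 x) hd hx hx' CG.B102L_741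
    · exact corT_cert (G1 := gB7q1) (G2 := gB4q2) (Ga := gB2q0) (Gb := gB3q0) cB102L_ok B hρ (gatB71 x) (gatB42 x) (fun _ => gatB20 x) (fun _ => gatB30 x) hd hx hx' CG.B102L_742
    · exact corT_cert (G1 := gB7q1) (G2 := gB4q2) (Ga := gB3q0) (Gb := gB4q0) cB102L_ok B hρ (gatB71 x) (gatB42 x) (fun _ => gatB30 x) (fun _ => gatB40 x) hd hx hx' CG.B102L_743
    · exact corT_cert (G1 := gB7q1) (G2 := gB4q2) (Ga := gB4q0) (Gb := gB5q0) cB102L_ok B hρ (gatB71 x) (gatB42 x) (fun _ => gatB40 x) (fun h => absurd h (by decide)) hd hx hx' CG.B102L_744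
    · exact absurd h2 (by norm_num)
    · exact absurd h2 (by norm_num)
    · exact absurd h2 (by norm_num)

theorem altB_B102L_80 {κ x : ℝ} (hκ : κ * h0 = ken x) (hx : ((649613803 : ℕ) : ℝ) / S ≤ x) (hx' : x ≤ (((649613803 : ℕ) : ℝ) + (48318383 : ℕ)) / S) :
    AltEB 3 κ (eng.v x) (3 / 40) (tnt (h0 * x) (3 / 10)) PP tK tL tC pcB (scP esg pd) [⟨0, 1, 0, 67108864⟩, ⟨1, 0, 0, 67108864⟩, ⟨2, 1, 0, 67108864⟩] 1 0 2 8 0 (sgb true) (sgb true) x := by
  have X : XR 67108864 x := XR.of hx hx' (by norm_num) (by norm_num) (by norm_num) (by norm_num)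
  have hen : 0 < eng.v x := en_pos X.x0.le
  refine CornW.altB (C := cB102L) (j := (8 : Fin 9)) (k := (0 : Fin 9)) (Ef := esg) (pd := pd) (o := 3 / 40)
    (cornW_of (C := cB102L) (C0 := c0B) (En := eng) (mo := mog) (j := (8 : Fin 9)) (k := (0 : Fin 9)) (lo := 0) (hi := 4) (W := 67108864) (N0 := 3) cB102L_q (sideB hx hx') gokB (pinU hx hx') dokB X (by norm_num) (by norm_num) (l := (0 : Fin 9)) rfl
      (gatB81 x) (gatB02 x) (gatB00 x) (datB81 x) (datB02 x) (datB00 x) ?_)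
    (cornS_of (C := cB102L) (C0 := c0B) (j := (8 : Fin 9)) (k := (0 : Fin 9)) (lo := 0) (hi := 4) (W := 67108864) (N0 := 3) cB102L_q (sideB hx hx') gokB X (by norm_num) (by norm_num) (l := (0 : Fin 9)) rfl
      (gatB81 x) (gatB02 x) (gatB00 x) ?_)
    (thU (pinU hx hx')) rfl hκ (fun j q y => tC_eq j q y x) (esg_rng X.x0.le (by linarith [X.b, X.p0])).1 (mo_v x) le_rfl le_rfl
  · intro ρ a B hρ hd i h1 h2
    fin_cases i
    · exact corW_cert (G1 := gB8q1) (G2 := gB0q2) (Ga := gB0q0) (Gb := gB1q0) (D1 := dB8q1) (D2 := dB0q2) (Da := dB0q0) (Db := dB1q0) cB102L_ok B hρ hen (gatB81 x) (gatB02 x) (fun _ => gatB00 x) (fun _ => gatB10 x) (datB81 x) (datB02 x) (fun _ => datB00 x) (fun _ => datB10 x) hd hx hx' CW.B102L_800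
    · exact corW_cert (G1 := gB8q1) (G2 := gB0q2) (Ga := gB1q0) (Gb := gB2q0) (D1 := dB8q1) (D2 := dB0q2) (Da := dB1q0) (Db := dB2q0) cB102L_ok B hρ hen (gatB81 x) (gatB02 x) (fun _ => gatB10 x) (fun _ => gatB20 x) (datB81 x) (datB02 x) (fun _ => datB10 x) (fun _ => datB20 x) hd hx hx' CW.B102L_801
    · exact corW_cert (G1 := gB8q1) (G2 := gB0q2) (Ga := gB2q0) (Gb := gB3q0) (D1 := dB8q1) (D2 := dB0q2) (Da := dB2q0) (Db := dB3q0) cB102L_ok B hρ hen (gatB81 x) (gatB02 x) (fun _ => gatB20 x) (fun _ => gatB30 x) (datB81 x) (datB02 x) (fun _ => datB20 x) (fun _ => datB30 x) hd hx hx' CW.B102L_802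
    · exact corW_cert (G1 := gB8q1) (G2 := gB0q2) (Ga := gB3q0) (Gb := gB4q0) (D1 := dB8q1) (D2 := dB0q2) (Da := dB3q0) (Db := dB4q0) cB102L_ok B hρ hen (gatB81 x) (gatB02 x) (fun _ => gatB30 x) (fun _ => gatB40 x) (datB81 x) (datB02 x) (fun _ => datB30 x) (fun _ => datB40 x) hd hx hx' CW.B102L_803
    · exact corW_cert (G1 := gB8q1) (G2 := gB0q2) (Ga := gB4q0) (Gb := gB5q0) (D1 := dB8q1) (D2 := dB0q2) (Da := dB4q0) (Db := dB5q0) cB102L_ok B hρ hen (gatB81 x) (gatB02 x) (fun _ => gatB40 x) (fun h => absurd h (by decide)) (datB81 x) (datB02 x) (fun _ => datB40 x) (fun h => absurd h (by decide)) hd hx hx' CW.B102L_804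
    · exact absurd h2 (by norm_num)
    · exact absurd h2 (by norm_num)
    · exact absurd h2 (by norm_num)
  · intro ρ a B hρ hd i h1 h2
    fin_cases i
    · exact corT_cert (G1 := gB8q1) (G2 := gB0q2) (Ga := gB0q0) (Gb := gB1q0) cB102L_ok B hρ (gatB81 x) (gatB02 x) (fun _ => gatB00 x) (fun _ => gatB10 x) hd hx hx' CG.B102L_800
    · exact corT_cert (G1 := gB8q1) (G2 := gB0q2) (Ga := gB1q0) (Gb := gB2q0) cB102L_ok B hρ (gatB81 x) (gatB02 x) (fun _ => gatB10 x) (fun _ => gatB20 x) hd hx hx' CG.B102L_801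
    · exact corT_cert (G1 := gB8q1) (G2 := gB0q2) (Ga := gB2q0) (Gb := gB3q0) cB102L_ok B hρ (gatB81 x) (gatB02 x) (fun _ => gatB20 x) (fun _ => gatB30 x) hd hx hx' CG.B102L_802
    · exact corT_cert (G1 := gB8q1) (G2 := gB0q2) (Ga := gB3q0) (Gb := gB4q0) cB102L_ok B hρ (gatB81 x) (gatB02 x) (fun _ => gatB30 x) (fun _ => gatB40 x) hd hx hx' CG.B102L_803
    · exact corT_cert (G1 := gB8q1) (G2 := gB0q2) (Ga := gB4q0) (Gb := gB5q0) cB102L_ok B hρ (gatB81 x) (gatB02 x) (fun _ => gatB40 x) (fun h => absurd h (by decide)) hd hx hx' CG.B102L_804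
    · exact absurd h2 (by norm_num)
    · exact absurd h2 (by norm_num)
    · exact absurd h2 (by norm_num)

theorem altB_B102L_81 {κ x : ℝ} (hκ : κ * h0 = ken x) (hx : ((649613803 : ℕ) : ℝ) / S ≤ x) (hx' : x ≤ (((649613803 : ℕ) : ℝ) + (48318383 : ℕ)) / S) :
    AltEB 3 κ (eng.v x) (3 / 40) (tnt (h0 * x) (3 / 10)) PP tK tL tC pcB (scP esg pd) [⟨0, 1, 0, 67108864⟩, ⟨1, 0, 0, 67108864⟩, ⟨2, 1, 0, 67108864⟩] 1 0 2 8 1 (sgb true) (sgb true) x := by
  have X : XR 67108864 x := XR.of hx hx' (by norm_num) (by norm_num) (by norm_num) (by norm_num)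
  have hen : 0 < eng.v x := en_pos X.x0.le
  refine CornW.altB (C := cB102L) (j := (8 : Fin 9)) (k := (1 : Fin 9)) (Ef := esg) (pd := pd) (o := 3 / 40)
    (cornW_of (C := cB102L) (C0 := c0B) (En := eng) (mo := mog) (j := (8 : Fin 9)) (k := (1 : Fin 9)) (lo := 0) (hi := 4) (W := 67108864) (N0 := 3) cB102L_q (sideB hx hx') gokB (pinU hx hx') dokB X (by norm_num) (by norm_num) (l := (0 : Fin 9)) rfl
      (gatB81 x) (gatB12 x) (gatB00 x) (datB81 x) (datB12 x) (datB00 x) ?_)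
    (cornS_of (C := cB102L) (C0 := c0B) (j := (8 : Fin 9)) (k := (1 : Fin 9)) (lo := 0) (hi := 4) (W := 67108864) (N0 := 3) cB102L_q (sideB hx hx') gokB X (by norm_num) (by norm_num) (l := (0 : Fin 9)) rfl
      (gatB81 x) (gatB12 x) (gatB00 x) ?_)
    (thU (pinU hx hx')) rfl hκ (fun j q y => tC_eq j q y x) (esg_rng X.x0.le (by linarith [X.b, X.p0])).1 (mo_v x) le_rfl le_rfl
  · intro ρ a B hρ hd i h1 h2
    fin_cases i
    · exact corW_cert (G1 := gB8q1) (G2 := gB1q2) (Ga := gB0q0) (Gb := gB1q0) (D1 := dB8q1) (D2 := dB1q2) (Da := dB0q0) (Db := dB1q0) cB102L_ok B hρ hen (gatB81 x) (gatB12 x) (fun _ => gatB00 x) (fun _ => gatB10 x) (datB81 x) (datB12 x) (fun _ => datB00 x) (fun _ => datB10 x) hd hx hx' CW.B102L_810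
    · exact corW_cert (G1 := gB8q1) (G2 := gB1q2) (Ga := gB1q0) (Gb := gB2q0) (D1 := dB8q1) (D2 := dB1q2) (Da := dB1q0) (Db := dB2q0) cB102L_ok B hρ hen (gatB81 x) (gatB12 x) (fun _ => gatB10 x) (fun _ => gatB20 x) (datB81 x) (datB12 x) (fun _ => datB10 x) (fun _ => datB20 x) hd hx hx' CW.B102L_811
    · exact corW_cert (G1 := gB8q1) (G2 := gB1q2) (Ga := gB2q0) (Gb := gB3q0) (D1 := dB8q1) (D2 := dB1q2) (Da := dB2q0) (Db := dB3q0) cB102L_ok B hρ hen (gatB81 x) (gatB12 x) (fun _ => gatB20 x) (fun _ => gatB30 x) (datB81 x) (datB12 x) (fun _ => datB20 x) (fun _ => datB30 x) hd hx hx' CW.B102L_812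
    · exact corW_cert (G1 := gB8q1) (G2 := gB1q2) (Ga := gB3q0) (Gb := gB4q0) (D1 := dB8q1) (D2 := dB1q2) (Da := dB3q0) (Db := dB4q0) cB102L_ok B hρ hen (gatB81 x) (gatB12 x) (fun _ => gatB30 x) (fun _ => gatB40 x) (datB81 x) (datB12 x) (fun _ => datB30 x) (fun _ => datB40 x) hd hx hx' CW.B102L_813
    · exact corW_cert (G1 := gB8q1) (G2 := gB1q2) (Ga := gB4q0) (Gb := gB5q0) (D1 := dB8q1) (D2 := dB1q2) (Da := dB4q0) (Db := dB5q0) cB102L_ok B hρ hen (gatB81 x) (gatB12 x) (fun _ => gatB40 x) (fun h => absurd h (by decide)) (datB81 x) (datB12 x) (fun _ => datB40 x) (fun h => absurd h (by decide)) hd hx hx' CW.B102L_814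
    · exact absurd h2 (by norm_num)
    · exact absurd h2 (by norm_num)
    · exact absurd h2 (by norm_num)
  · intro ρ a B hρ hd i h1 h2
    fin_cases i
    · exact corT_cert (G1 := gB8q1) (G2 := gB1q2) (Ga := gB0q0) (Gb := gB1q0) cB102L_ok B hρ (gatB81 x) (gatB12 x) (fun _ => gatB00 x) (fun _ => gatB10 x) hd hx hx' CG.B102L_810
    · exact corT_cert (G1 := gB8q1) (G2 := gB1q2) (Ga := gB1q0) (Gb := gB2q0) cB102L_ok B hρ (gatB81 x) (gatB12 x) (fun _ => gatB10 x) (fun _ => gatB20 x) hd hx hx' CG.B102L_811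
    · exact corT_cert (G1 := gB8q1) (G2 := gB1q2) (Ga := gB2q0) (Gb := gB3q0) cB102L_ok B hρ (gatB81 x) (gatB12 x) (fun _ => gatB20 x) (fun _ => gatB30 x) hd hx hx' CG.B102L_812
    · exact corT_cert (G1 := gB8q1) (G2 := gB1q2) (Ga := gB3q0) (Gb := gB4q0) cB102L_ok B hρ (gatB81 x) (gatB12 x) (fun _ => gatB30 x) (fun _ => gatB40 x) hd hx hx' CG.B102L_813
    · exact corT_cert (G1 := gB8q1) (G2 := gB1q2) (Ga := gB4q0) (Gb := gB5q0) cB102L_ok B hρ (gatB81 x) (gatB12 x) (fun _ => gatB40 x) (fun h => absurd h (by decide)) hd hx hx' CG.B102L_814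
    · exact absurd h2 (by norm_num)
    · exact absurd h2 (by norm_num)
    · exact absurd h2 (by norm_num)

end Pool.Agent.Strip051.G.I6050_6500.Tab
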