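import Pool.Agent.Strip051.G.I6050_6500.Tab

/-! # Certificates B33 (generated) -/

set_option linter.all false
set_option maxRecDepth 100000

namespace Pool.Agent.Strip051.G.I6050_6500.Tab.C.BB17

open Pool.Agent.Strip051.PB Pool.Agent.Strip051.PB.T
open Pool.Agent.Strip051.G.I6050_6500.Tab

noncomputable def f_pm_023 : ℕ → ℕ → ℕ → ℕ → Bool := onCell 0 536870912 0 1230186008 649613803 48318383
    (rowB 3 eng mog cd1q0 cd7q3 pd2 0 false true false .up 0 2 3 (qsf 0 536870912 0 1230186008 2) ndB1q0 ndB7q3 pcB2 Cut.none Ext.none)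

def k0_pm_023 : ∃ t, chk3 f_pm_023 t 1 1 1 = true :=
  ⟨(b (a (l 2) (a (l 2) (b (a (l 2) (l 16805136)) (a (l 4) (b (l 16615720) (l 4)))))) (l 4)), by decide +kernel⟩

theorem c_pm_023 : CertB 0 536870912 0 1230186008 649613803 48318383 3 eng mog cd1q0 cd7q3 pd2 false true false .up 0 2 3
    ndB1q0 ndB7q3 pcB2 Cut.none Ext.none :=
  certB0 (fam := false) (s1 := true) (s2 := false) (a := 0) (b := 2) (c := 3) (cn := .up) (n1 := ndB1q0) (n2 := ndB7q3) (pc := pcB2) (cut := Cut.none) (xt := Ext.none) (P1 := 0) (W1 := 536870912) (P2 := 0) (W2 := 1230186008) (P3 := 649613803) (W3 := 48318383) (N0 := 3) (En := eng) (mo := mog) (C1 := cd1q0) (C2 := cd7q3) (C3 := pd2)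
    rfl k0_pm_023

noncomputable def f_pm_033 : ℕ → ℕ → ℕ → ℕ → Bool := onCell 0 536870912 0 1230186008 649613803 48318383
    (rowB 3 eng mog cd1q0 cd7q3 pd3 0 false true false .pnn 0 3 3 (qsf 0 536870912 0 1230186008 3) ndB1q0 ndB7q3 pcB3 Cut.none Ext.none)

def k0_pm_033 : ∃ t, chk3 f_pm_033 t 1 1 1 = true :=
  ⟨(b (a (l 4) (a (b (a (l 4) (l 16794280)) (l 4)) (b (a (l 16612832) (l 16637816)) (a (l 4) (b (l 16618608) (l 4)))))) (l 4)), by decide +kernel⟩

theorem c_pm_033 : CertB 0 536870912 0 1230186008 649613803 48318383 3 eng mog cd1q0 cd7q3 pd3 false true false .pnn 0 3 3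
    ndB1q0 ndB7q3 pcB3 Cut.none Ext.none :=
  certB0 (fam := false) (s1 := true) (s2 := false) (a := 0) (b := 3) (c := 3) (cn := .pnn) (n1 := ndB1q0) (n2 := ndB7q3) (pc := pcB3) (cut := Cut.none) (xt := Ext.none) (P1 := 0) (W1 := 536870912) (P2 := 0) (W2 := 1230186008) (P3 := 649613803) (W3 := 48318383) (N0 := 3) (En := eng) (mo := mog) (C1 := cd1q0) (C2 := cd7q3) (C3 := pd3)
    rfl k0_pm_033

noncomputable def f_pm_101 : ℕ → ℕ → ℕ → ℕ → Bool := onCell 536870912 536870912 536870912 536870912 649613803 48318383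
    (rowB 3 eng mog cd1q1 cd7q1 pd0 0 false true false .npn 1 0 1 (qsf 536870912 536870912 536870912 536870912 0) ndB1q1 ndB7q1 pcB0 Cut.none Ext.none)

def k0_pm_101 : ∃ t, chk3 f_pm_101 t 1 1 1 = true :=
  ⟨(l 4), by decide +kernel⟩

theorem c_pm_101 : CertB 536870912 536870912 536870912 536870912 649613803 48318383 3 eng mog cd1q1 cd7q1 pd0 false true false .npn 1 0 1
    ndB1q1 ndB7q1 pcB0 Cut.none Ext.none :=
  certB0 (fam := false) (s1 := true) (s2 := false) (a := 1) (b := 0) (c := 1) (cn := .npn) (n1 := ndB1q1) (n2 := ndB7q1) (pc := pcB0) (cut := Cut.none) (xt := Ext.none) (P1 := 536870912) (W1 := 536870912) (P2 := 536870912) (W2 := 536870912) (P3 := 649613803) (W3 := 48318383) (N0 := 3) (En := eng) (mo := mog) (C1 := cd1q1) (C2 := cd7q1) (C3 := pd0)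
    rfl k0_pm_101

noncomputable def f_pm_102 : ℕ → ℕ → ℕ → ℕ → Bool := onCell 536870912 536870912 0 536870912 649613803 48318383
    (rowB 3 eng mog cd1q1 cd7q2 pd0 1 false true false .npp 1 0 2 (qsf 536870912 536870912 1073741824 536870912 0) ndB1q1 ndB7q2 pcB0 Cut.none Ext.none)

def k0_pm_102 : ∃ t, chk3 f_pm_102 t 1 1 1 = true :=
  ⟨(a (l 4) (a (l 4) (a (b (l 4) (b (l 4) (b (l 4) (l 16508592)))) (b (b (l 4) (b (l 4) (b (l 4) (a (l 4) (l 16253456))))) (b (b (a (l 4) (l 16376328)) (l 16496560)) (b (b (l 16605200) (l 16696664)) (l 16801664))))))), by decide +kernel⟩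

theorem c_pm_102 : CertB 536870912 536870912 1073741824 536870912 649613803 48318383 3 eng mog cd1q1 cd7q2 pd0 false true false .npp 1 0 2
    ndB1q1 ndB7q2 pcB0 Cut.none Ext.none :=
  certB1 (fam := false) (s1 := true) (s2 := false) (a := 1) (b := 0) (c := 2) (cn := .npp) (n1 := ndB1q1) (n2 := ndB7q2) (pc := pcB0) (cut := Cut.none) (xt := Ext.none) (P1 := 536870912) (W1 := 536870912) (P2 := 1073741824) (W2 := 536870912) (P3 := 649613803) (W3 := 48318383) (N0 := 3) (En := eng) (mo := mog) (C1 := cd1q1) (C2 := cd7q2) (C3 := pd0)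
    rfl (fun _ => rfl) k0_pm_102

noncomputable def f_pm_112 : ℕ → ℕ → ℕ → ℕ → Bool := onCell 536870912 536870912 1073741824 536870912 649613803 48318383
    (rowB 3 eng mog cd1q1 cd7q2 pd1 2 false true false .dn 1 1 2 (qsf 536870912 536870912 1073741824 536870912 1) ndB1q1 ndB7q2 pcB1 Cut.none Ext.none)

def k0_pm_112 : ∃ t, chk3 f_pm_112 t 1 1 1 = true :=
  ⟨(a (b (l 4) (a (b (l 4) (a (l 16636256) (l 16474704))) (l 4))) (l 4)), by decide +kernel⟩

theorem c_pm_112 : CertB 536870912 536870912 1073741824 536870912 649613803 48318383 3 eng mog cd1q1 cd7q2 pd1 false true false .dn 1 1 2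
    ndB1q1 ndB7q2 pcB1 Cut.none Ext.none :=
  certB2 (fam := false) (s1 := true) (s2 := false) (a := 1) (b := 1) (c := 2) (cn := .dn) (n1 := ndB1q1) (n2 := ndB7q2) (pc := pcB1) (cut := Cut.none) (xt := Ext.none) (P1 := 536870912) (W1 := 536870912) (P2 := 1073741824) (W2 := 536870912) (P3 := 649613803) (W3 := 48318383) (N0 := 3) (En := eng) (mo := mog) (C1 := cd1q1) (C2 := cd7q2) (C3 := pd1)
    rfl (fun _ => rfl) k0_pm_112

noncomputable def f_pm_113 : ℕ → ℕ → ℕ → ℕ → Bool := onCell 536870912 536870912 0 1230186008 649613803 48318383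
    (rowB 3 eng mog cd1q1 cd7q3 pd1 0 false true false .nn 1 1 3 (qsf 536870912 536870912 0 1230186008 1) ndB1q1 ndB7q3 pcB1 Cut.none Ext.none)

def k0_pm_113 : ∃ t, chk3 f_pm_113 t 1 1 1 = true :=
  ⟨(b (a (l 2) (a (l 2) (b (a (l 2) (a (l 2) (a (l 1670306601383) (b (l 16767616) (l 16782872))))) (a (b (l 16736680) (a (l 16681104) (l 16730088))) (b (l 16956656) (l 16795808)))))) (b (a (a (l 2) (b (l 2) (b (l 2) (b (l 2) (l 4))))) (a (b (a (l 2) (b (l 16575504) (l 16554072))) (a (b (l 16392784) (l 16616352)) (b (l 16535328) (l 16512440)))) (b (a (l 16679896) (b (l 16796968) (l 16784608))) (a (b (l 16658104) (l 16645728)) (b (l 16777392) (l 16762648)))))) (a (b (l 4) (l 4)) (b (a (a (b (l 54995432359) (l 16354192)) (b (l 16739624) (a (l 16449904) (l 16524704)))) (b (a (l 16637552) (l 16772312)) (a (l 16636104) (l 16802936)))) (a (b (b (l 16439504) (l 16437288)) (l 27614459703)) (b (a (l 16654624) (l 16799128)) (a (l 16662960) (l 16837016)))))))), by decide +kernel⟩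

theorem c_pm_113 : CertB 536870912 536870912 0 1230186008 649613803 48318383 3 eng mog cd1q1 cd7q3 pd1 false true false .nn 1 1 3
    ndB1q1 ndB7q3 pcB1 Cut.none Ext.none :=
  certB0 (fam := false) (s1 := true) (s2 := false) (a := 1) (b := 1) (c := 3) (cn := .nn) (n1 := ndB1q1) (n2 := ndB7q3) (pc := pcB1) (cut := Cut.none) (xt := Ext.none) (P1 := 536870912) (W1 := 536870912) (P2 := 0) (W2 := 1230186008) (P3 := 649613803) (W3 := 48318383) (N0 := 3) (En := eng) (mo := mog) (C1 := cd1q1) (C2 := cd7q3) (C3 := pd1)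
    rfl k0_pm_113

noncomputable def f_pm_123 : ℕ → ℕ → ℕ → ℕ → Bool := onCell 1073741824 536870912 0 1230186008 649613803 48318383
    (rowB 3 eng mog cd1q1 cd7q3 pd2 2 false true false .npn 1 2 3 (qsf 536870912 536870912 0 1230186008 2) ndB1q1 ndB7q3 pcB2 Cut.none Ext.none)

def k0_pm_123 : ∃ t, chk3 f_pm_123 t 1 1 1 = true :=
  ⟨(a (a (b (b (a (b (a (l 16750560) (l 16720512)) (a (l 16741744) (l 16705104))) (b (l 16667328) (l 16637624))) (a (b (a (l 16752624) (l 16691336)) (b (l 16677104) (l 16721608))) (b (a (l 16625920) (l 16564624)) (b (l 16541000) (l 16497528))))) (b (b (a (b (a (l 16582776) (l 16518544)) (l 16469896)) (b (l 16448472) (l 16390320))) (a (a (b (l 16401728) (l 16304168)) (l 16326456)) (b (l 16331504) (l 4)))) (l 4))) (b (b (a (a (b (a (l 16616144) (l 16594568)) (l 16561104)) (b (l 16569496) (l 16520792))) (b (l 16580000) (l 16542568))) (a (b (a (l 16514328) (l 16486616)) (a (l 16464488) (l 16449648))) (b (b (l 16518080) (l 16497784)) (a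 (l 16457800) (l 16465792))))) (b (a (b (a (l 16393040) (l 16389888)) (l 4)) (b (a (l 16396392) (l 16406192)) (l 4))) (l 4)))) (b (a (b (a (b (l 16606080) (l 16571744)) (a (l 16608416) (l 16630528))) (a (b (a (l 16526856) (l 16536896)) (l 16497800)) (a (b (l 16545608) (l 16501632)) (l 16557144)))) (a (b (l 16627856) (l 16462840)) (b (l 16657576) (l 16412120)))) (a (b (a (b (l 16521768) (l 4)) (l 4)) (l 1)) (l 4)))), by decide +kernel⟩

theorem c_pm_123 : CertB 536870912 536870912 0 1230186008 649613803 48318383 3 eng mog cd1q1 cd7q3 pd2 false true false .npn 1 2 3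
    ndB1q1 ndB7q3 pcB2 Cut.none Ext.none :=
  certB2 (fam := false) (s1 := true) (s2 := false) (a := 1) (b := 2) (c := 3) (cn := .npn) (n1 := ndB1q1) (n2 := ndB7q3) (pc := pcB2) (cut := Cut.none) (xt := Ext.none) (P1 := 536870912) (W1 := 536870912) (P2 := 0) (W2 := 1230186008) (P3 := 649613803) (W3 := 48318383) (N0 := 3) (En := eng) (mo := mog) (C1 := cd1q1) (C2 := cd7q3) (C3 := pd2)
    rfl (fun _ => rfl) k0_pm_123

noncomputable def f_pm_133 : ℕ → ℕ → ℕ → ℕ → Bool := onCell 1610612736 536870912 0 1230186008 649613803 48318383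
    (rowB 3 eng mog cd1q1 cd7q3 pd3 2 false true false .dn 1 3 3 (qsf 536870912 536870912 0 1230186008 3) ndB1q1 ndB7q3 pcB3 Cut.none Ext.none)

def k0_pm_133 : ∃ t, chk3 f_pm_133 t 1 1 1 = true :=
  ⟨(b (a (a (a (l 16780680) (l 1)) (l 1)) (l 1)) (l 1)), by decide +kernel⟩

theorem c_pm_133 : CertB 536870912 536870912 0 1230186008 649613803 48318383 3 eng mog cd1q1 cd7q3 pd3 false true false .dn 1 3 3
    ndB1q1 ndB7q3 pcB3 Cut.none Ext.none :=
  certB2 (fam := false) (s1 := true) (s2 := false) (a := 1) (b := 3) (c := 3) (cn := .dn) (n1 := ndB1q1) (n2 := ndB7q3) (pc := pcB3) (cut := Cut.none) (xt := Ext.none) (P1 := 536870912) (W1 := 536870912) (P2 := 0) (W2 := 1230186008) (P3 := 649613803) (W3 := 48318383) (N0 := 3) (En := eng) (mo := mog) (C1 := cd1q1) (C2 := cd7q3) (C3 := pd3)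
    rfl (fun _ => rfl) k0_pm_133

noncomputable def f_pm_202_a : ℕ → ℕ → ℕ → ℕ → Bool := onCell 0 536870912 0 536870912 649613803 48318383
    (rowB 3 eng mog cd1q2a cd7q2 pd0 1 false true false .pp 2 0 2 (qsf 0 536870912 1073741824 536870912 0) ndB1q2a ndB7q2 pcB0 Cut.none Ext.none)

def k0_pm_202_a : ∃ t, chk3 f_pm_202_a t 2 2 1 = true :=
  ⟨(b (b (a (b (a (b (l 16403448) (l 16416960)) (b (l 16391816) (l 16403600))) (a (b (l 16539976) (l 16473048)) (l 16432072))) (a (b (a (b (l 16383056) (l 16392656)) (b (l 16374576) (l 16382824))) (b (l 16404000) (l 16424736))) (b (b (l 16346144) (l 16357056)) (a (b (l 16381360) (l 16400320)) (b (l 16356344) (l 16374128)))))) (a (b (a (l 16474440) (a (b (l 16460632) (l 16476088)) (l 16464264))) (a (l 16498376) (b (l 16552056) (l 16501768)))) (a (b (l 16453800) (b (l 16480072) (a (l 16498520) (l 16492072)))) (b (a (l 16432224) (b (l 16397640) (l 16418312))) (l 16460256))))) (a (b (a (b (b (l 16512408) (a (l 16538648) (l 16520624)))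 (b (a (b (l 16524160) (l 16527560)) (b (l 16525592) (l 16527936))) (a (l 16533760) (b (l 16532032) (l 16536208))))) (b (l 16519000) (b (l 16533248) (a (l 16537816) (l 16543544))))) (a (b (a (b (l 16540960) (l 16546224)) (l 16544408)) (a (l 16653256) (b (l 16553112) (l 16558616)))) (b (a (b (l 16543640) (l 16550640)) (b (l 16551072) (l 16554952))) (b (l 16539712) (l 16565864))))) (b (b (a (a (l 16519144) (b (l 16507200) (l 16521176))) (l 16495784)) (a (b (l 16535856) (l 16547168)) (a (b (l 16526464) (l 16540064)) (l 16518888)))) (a (b (b (l 16558176) (l 16567776)) (b (l 16574208) (l 16579552))) (b (a (l 16559552) (l 16547656)) (l 16579736)))))), by decide +kernel⟩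

def k1_pm_202_a : ∃ t, chk3 f_pm_202_a t 2 3 1 = true :=
  ⟨(b (b (a (a (b (a (l 16573120) (l 16568352)) (a (b (l 16593448) (l 16606800)) (l 16583024))) (b (a (l 16570712) (l 16579392)) (a (l 16582424) (l 16588600)))) (a (b (a (l 16587984) (l 16656472)) (l 16605584)) (b (l 16599616) (a (l 16613048) (l 16613808))))) (a (b (a (a (b (l 16619792) (l 16632144)) (l 16609016)) (a (l 16589296) (l 16598928))) (b (a (a (l 16644096) (l 16627416)) (l 16596560)) (l 2))) (a (b (a (l 16608160) (l 16620776)) (a (l 16617600) (l 16626856))) (b (a (l 16626904) (l 16627264)) (l 16639496))))) (a (l 2) (b (a (l 2) (b (l 16637504) (l 2))) (l 2)))), by decide +kernel⟩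

def k2_pm_202_a : ∃ t, chk3 f_pm_202_a t 3 2 1 = true :=
  ⟨(b (b (b (a (a (b (a (l 16303712) (l 16266896)) (l 16298088)) (a (b (a (l 16235000) (l 16213832)) (l 16235824)) (b (l 16174008) (l 16189728)))) (a (b (a (l 16119120) (l 16059424)) (a (l 16135144) (l 16077104))) (a (b (b (a (l 16007688) (l 15974240)) (l 15999960)) (l 16015264)) (a (b (b (b (l 15937600) (l 15942480)) (l 15950432)) (l 15969520)) (b (a (b (b (l 15914888) (l 15919288)) (l 15927856)) (l 4)) (a (l 15950112) (l 15948032))))))) (a (a (b (l 16310080) (l 16323816)) (a (l 16257592) (b (a (l 16216696) (l 16192288)) (l 16220000)))) (a (a (l 16161640) (l 16107056)) (a (b (l 16038680) (l 16064408)) (a (l 16014528) (b (l 15983464) (l 16016832))))))) (a (a (b (a (l 16375264) (l 16334008)) (a (b (l 16410288) (l 16430336)) (l 16383392))) (b (a (l 16290256) (b (l 16234936) (l 16254024))) (b (l 16303176) (l 16330984)))) (a (b (a (a (l 16213520) (l 16188320)) (l 16152080)) (a (b (l 16253080) (l 16258872))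 (b (l 16188344) (l 16214856)))) (b (a (l 16105688) (b (l 16059000) (l 16094696))) (a (l 16163728) (b (l 16130472) (l 16158768))))))) (a (a (b (b (a (l 16460208) (l 16427864)) (l 16629384)) (b (a (l 16529216) (l 16504160)) (a (l 16560120) (l 16538680)))) (b (b (l 16368968) (a (l 16434904) (l 16397584))) (b (l 16501728) (l 16499960)))) (b (a (b (a (l 16304760) (b (l 16246136) (l 16278216))) (a (l 16360912) (l 16324728))) (b (a (l 16225464) (l 16198360)) (a (l 16298832) (l 16262752)))) (a (b (l 16399736) (l 16453600)) (b (a (l 16367960) (l 16343840)) (l 16434344)))))), by decide +kernel⟩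

def k3_pm_202_a : ∃ t, chk3 f_pm_202_a t 3 3 1 = true :=
  ⟨(b (b (a (a (b (a (l 16587584) (l 16570960)) (l 16604440)) (b (a (l 16550736) (l 16528672)) (a (l 16582960) (l 16566600)))) (a (a (a (l 16535552) (l 16527816)) (l 16520528)) (a (l 16518760) (l 16536624)))) (a (b (a (l 16622624) (a (l 16608968) (l 16598320))) (a (l 16636360) (l 16624960))) (b (b (a (l 16579112) (l 16592192)) (a (l 16595144) (l 16612320))) (a (a (l 16619224) (l 16622088)) (a (l 16635456) (l 16664440)))))) (b (a (b (a (l 16647696) (l 16642400)) (a (l 2) (l 16657816))) (b (a (l 16652968) (l 16691688)) (a (l 16685280) (l 16729424)))) (a (l 2) (a (b (l 16701456) (l 2)) (b (l 16778768) (l 16828624)))))), by decide +kernel⟩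

theorem s4_pm_202_a : ∃ t, chk3 f_pm_202_a t 3 1 1 = true := ex3_b k2_pm_202_a k3_pm_202_a

theorem s5_pm_202_a : ∃ t, chk3 f_pm_202_a t 2 1 1 = true := ex3_b k0_pm_202_a k1_pm_202_a

theorem s6_pm_202_a : ∃ t, chk3 f_pm_202_a t 1 1 1 = true := ex3_a s5_pm_202_a s4_pm_202_a

theorem c_pm_202_a : CertB 0 536870912 1073741824 536870912 649613803 48318383 3 eng mog cd1q2a cd7q2 pd0 false true false .pp 2 0 2
    ndB1q2a ndB7q2 pcB0 Cut.none Ext.none :=
  certB1 (fam := false) (s1 := true) (s2 := false) (a := 2) (b := 0) (c := 2) (cn := .pp) (n1 := ndB1q2a) (n2 := ndB7q2) (pc := pcB0) (cut := Cut.none) (xt := Ext.none) (P1 := 0) (W1 := 536870912) (P2 := 1073741824) (W2 := 536870912) (P3 := 649613803) (W3 := 48318383) (N0 := 3) (En := eng) (mo := mog) (C1 := cd1q2a) (C2 := cd7q2) (C3 := pd0)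
    rfl (fun _ => rfl) s6_pm_202_a

noncomputable def f_pm_202_b : ℕ → ℕ → ℕ → ℕ → Bool := onCell 0 536870912 1073741824 536870912 649613803 48318383
    (rowB 3 eng mog cd1q2b cd7q2 pd0 2 false true false .pp 2 0 2 (qsf 1239849684 370763052 1073741824 536870912 0) ndB1q2b ndB7q2 pcB0 Cut.none Ext.none)

def k0_pm_202_b : ∃ t, chk3 f_pm_202_b t 1 1 1 = true :=
  ⟨(a (b (a (b (l 1) (a (b (a (b (l 233035138759) (a (l 16402480) (l 16449648))) (b (l 1) (b (l 1) (l 16461400)))) (a (b (a (l 16379032) (l 16407520)) (l 16361336)) (b (l 16448144) (l 16419848)))) (b (l 1) (b (a (l 257194353975) (l 1)) (a (l 16476256) (l 265247394999)))))) (l 1)) (a (b (a (b (a (l 16280920) (l 16348416)) (b (l 16228872) (l 16210000))) (b (a (b (l 16438920) (l 16384128)) (b (a (l 16483224) (l 16511656)) (l 16450208))) (a (b (l 16326088) (l 16278400)) (b (a (l 16373104) (l 16404416)) (a (l 16333672) (l 16365496)))))) (a (b (a (l 16121096) (l 16179296)) (a (b (l 16106112) (l 16120384)) (b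 (l 16163000) (l 16176528)))) (b (a (b (l 16254072) (l 16232072)) (b (l 16334464) (l 16297128))) (a (b (b (l 16232432) (l 16223664)) (l 16231840)) (b (l 16282528) (l 16281088)))))) (b (a (b (a (b (l 274374110503) (a (l 16475128) (b (l 16537712) (l 16515832)))) (b (l 1) (a (l 307123480391) (l 1)))) (a (b (b (l 16473312) (l 16440160)) (l 16414080)) (b (b (l 245920225575) (l 276521598215)) (l 16474656)))) (b (l 1) (a (b (b (l 1) (l 287796201655)) (b (l 308733913607) (l 16525440))) (b (l 1) (b (l 1) (l 350609864551)))))) (a (b (b (a (l 16383240) (l 16447920)) (l 16519400)) (b (l 16416824) (b (l 16367304) (l 16365024)))) (b (a (l 16535656) (b (l 161631486903) (l 16536096))) (b (a (l 16464176) (l 16517896)) (a (l 16447640) (l 16500128)))))))) (a (b (l 1) (b (l 1) (a (b (b (a (l 291017304839) (l 1)) (a (l 16602104) (l 249678317399))) (b (a (l 16567136) (l 16608368)) (a (l 16571768) (l 16596760)))) (b (l 1) (a (b (l 215855527095) (l 16655072)) (b (l 1) (a (l 180422085495)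 (l 1)))))))) (l 1))), by decide +kernel⟩

theorem c_pm_202_b : CertB 1239849684 370763052 1073741824 536870912 649613803 48318383 3 eng mog cd1q2b cd7q2 pd0 false true false .pp 2 0 2
    ndB1q2b ndB7q2 pcB0 Cut.none Ext.none :=
  certB2 (fam := false) (s1 := true) (s2 := false) (a := 2) (b := 0) (c := 2) (cn := .pp) (n1 := ndB1q2b) (n2 := ndB7q2) (pc := pcB0) (cut := Cut.none) (xt := Ext.none) (P1 := 1239849684) (W1 := 370763052) (P2 := 1073741824) (W2 := 536870912) (P3 := 649613803) (W3 := 48318383) (N0 := 3) (En := eng) (mo := mog) (C1 := cd1q2b) (C2 := cd7q2) (C3 := pd0)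
    rfl (fun _ => rfl) k0_pm_202_b

noncomputable def f_pm_203_a : ℕ → ℕ → ℕ → ℕ → Bool := onCell 0 536870912 0 1230186008 649613803 48318383
    (rowB 3 eng mog cd1q2a cd7q3 pd0 0 false true false .up 2 0 3 (qsf 0 536870912 0 1230186008 0) ndB1q2a ndB7q3 pcB0 Cut.none Ext.none)

def k0_pm_203_a : ∃ t, chk3 f_pm_203_a t 1 1 1 = true :=
  ⟨(b (l 2) (b (l 2) (a (b (b (l 2) (b (a (l 2) (l 2)) (a (a (a (l 3) (a (l 151028392567) (l 185924990807))) (a (a (l 16700472) (l 16706480)) (a (l 16710440) (l 16718560)))) (a (l 16758416) (l 16745504))))) (a (b (a (a (b (a (l 3) (l 181093139223)) (b (a (l 16669640) (l 16670440)) (a (l 16663016) (l 16665048)))) (b (a (l 16702744) (l 16687992)) (b (a (l 16675240) (l 16678136)) (a (l 16667552) (l 16670544))))) (b (a (b (a (l 16695120) (l 16699912)) (a (l 16688416) (l 16694064))) (l 16705392)) (a (l 16680472) (l 16689752)))) (a (b (b (a (a (l 16653872) (l 16655256)) (l 16641056)) (a (a (l 16646880) (l 16638816)) (l 16642432)))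 (a (l 16661752) (l 16618352))) (b (a (l 16657048) (l 16662016)) (l 16679352)))) (b (a (b (l 16695544) (l 16694800)) (l 16772024)) (a (b (l 16677168) (l 16646744)) (b (l 16688440) (l 16658608)))))) (b (l 2) (a (b (a (l 16730448) (l 16761408)) (a (l 16679312) (b (l 16707968) (l 16675480)))) (b (a (l 16822664) (l 2)) (a (l 16737848) (l 16883952)))))))), by decide +kernel⟩

theorem c_pm_203_a : CertB 0 536870912 0 1230186008 649613803 48318383 3 eng mog cd1q2a cd7q3 pd0 false true false .up 2 0 3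
    ndB1q2a ndB7q3 pcB0 Cut.none Ext.none :=
  certB0 (fam := false) (s1 := true) (s2 := false) (a := 2) (b := 0) (c := 3) (cn := .up) (n1 := ndB1q2a) (n2 := ndB7q3) (pc := pcB0) (cut := Cut.none) (xt := Ext.none) (P1 := 0) (W1 := 536870912) (P2 := 0) (W2 := 1230186008) (P3 := 649613803) (W3 := 48318383) (N0 := 3) (En := eng) (mo := mog) (C1 := cd1q2a) (C2 := cd7q3) (C3 := pd0)
    rfl k0_pm_203_a

noncomputable def f_pm_203_b : ℕ → ℕ → ℕ → ℕ → Bool := onCell 1239849684 370763052 0 1230186008 649613803 48318383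
    (rowB 3 eng mog cd1q2b cd7q3 pd0 0 false true false .up 2 0 3 (qsf 1239849684 370763052 0 1230186008 0) ndB1q2b ndB7q3 pcB0 Cut.none Ext.none)

def k0_pm_203_b : ∃ t, chk3 f_pm_203_b t 1 1 1 = true :=
  ⟨(b (l 3) (b (l 3) (b (l 3) (b (a (a (a (b (l 3) (a (b (l 3) (l 16657936)) (l 3))) (l 3)) (l 3)) (l 3)) (b (a (a (a (b (a (l 16654248) (l 16645848)) (a (l 16650864) (l 16638024))) (b (l 16620808) (l 16607144))) (a (a (l 16577696) (l 3)) (l 3))) (l 3)) (a (a (a (b (a (l 16646304) (l 16628584)) (l 16628736)) (b (l 16591896) (l 16575752))) (a (a (l 16539232) (l 16504000)) (a (l 16469888) (l 16434752)))) (a (a (l 16381768) (l 16309960)) (l 3)))))))), by decide +kernel⟩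

theorem c_pm_203_b : CertB 1239849684 370763052 0 1230186008 649613803 48318383 3 eng mog cd1q2b cd7q3 pd0 false true false .up 2 0 3
    ndB1q2b ndB7q3 pcB0 Cut.none Ext.none :=
  certB0 (fam := false) (s1 := true) (s2 := false) (a := 2) (b := 0) (c := 3) (cn := .up) (n1 := ndB1q2b) (n2 := ndB7q3) (pc := pcB0) (cut := Cut.none) (xt := Ext.none) (P1 := 1239849684) (W1 := 370763052) (P2 := 0) (W2 := 1230186008) (P3 := 649613803) (W3 := 48318383) (N0 := 3) (En := eng) (mo := mog) (C1 := cd1q2b) (C2 := cd7q3) (C3 := pd0)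
    rfl k0_pm_203_b

noncomputable def cut_pm_213_a : Cut := Cut.of [[⟨0, 1, 0, 67108864⟩, ⟨1, 1, 0, 67108864⟩, ⟨2, 2, 0, 16777216⟩]]

noncomputable def f_pm_213_a : ℕ → ℕ → ℕ → ℕ → Bool := onCell 0 536870912 0 1230186008 649613803 48318383
    (rowB 3 eng mog cd1q2a cd7q3 pd1 0 false true false .pnn 2 1 3 (qsf 0 536870912 0 1230186008 1) ndB1q2a ndB7q3 pcB1 cut_pm_213_a Ext.none)

def k0_pm_213_a : ∃ t, chk3 f_pm_213_a t 1 2 1 = true :=
  ⟨(a (b (l 3) (b (l 3) (l 3))) (b (a (l 3) (a (b (l 3) (b (a (l 3) (a (b (l 3) (b (l 3) (a (l 3) (b (l 297594266023) (l 247128400775))))) (l 6))) (a (b (a (l 3) (b (l 3) (a (l 3) (l 272898209735)))) (a (b (l 3) (l 282025019895)) (b (a (l 255181471751) (l 16786072)) (l 268066395015)))) (a (b (b (a (l 298668010583) (l 16772440)) (l 228874801175)) (l 16788560)) (b (l 16785144) (l 16790400)))))) (b (l 6) (a (b (a (l 6) (l 6)) (a (l 16789032) (l 16788208))) (b (a (l 6) (l 6)) (l 16789200)))))) (a (b (a (l 3) (b (a (l 3) (b (a (l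 3) (l 312089811575)) (a (l 306721079527) (b (l 263771415607) (l 245517809431))))) (a (b (a (l 3) (l 320679700983)) (a (l 301352342263) (b (l 250349634839) (l 16765664)))) (b (a (b (l 248739005063) (l 214916131399)) (l 16793592)) (a (l 16769848) (l 16796472)))))) (a (b (a (l 3) (b (a (l 3) (b (l 3) (l 234780360023))) (a (b (l 3) (l 220821707543)) (b (l 195588783047) (l 16758920))))) (a (b (a (l 3) (b (l 3) (l 176261414423))) (a (b (l 3) (l 176798280471)) (b (l 172503350423) (l 16771704)))) (a (b (b (l 173040221735) (l 162839607991)) (l 16778184)) (b (l 16758824) (l 16787792))))) (b (a (b (a (b (l 239075337303) (l 16782344)) (l 16767200)) (a (l 16784384) (l 16792544))) (b (l 16798032) (l 16803896))) (a (b (l 16751808) (l 16800128)) (l 16817800))))) (a (b (b (a (b (a (b (l 260550187463) (l 250349630887)) (l 16793120)) (a (l 16794368) (l 16796824))) (a (l 16837864) (l 16798216))) (a (b (l 16820992) (l 16806336)) (l 16812504))) (b (l 16828968) (l 16847208))) (b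 (b (l 16820160) (l 16813528)) (b (l 16828000) (l 16848032))))))), by decide +kernel⟩

def k1_pm_213_a : ∃ t, chk3 f_pm_213_a t 1 6 1 = true :=
  ⟨(a (b (a (l 3) (a (l 3) (b (a (l 3) (b (a (l 3) (b (l 3) (l 321216555655))) (a (l 317995334359) (b (l 16748920) (l 16776448))))) (a (b (a (l 3) (l 250349610711)) (a (l 242296558951) (l 16765016))) (b (b (l 16748544) (l 16788704)) (a (l 16796480) (l 16809432))))))) (a (b (l 3) (a (l 3) (a (l 3) (b (l 3) (a (l 3) (l 183240725511)))))) (b (a (a (b (l 3) (a (l 3) (l 221895458791))) (b (a (l 3) (l 246054609671)) (a (l 248738969639) (l 16789432)))) (a (b (a (l 16790016) (l 16801072)) (a (l 16802304) (l 16815120))) (b (b (l 16815504) (l 16821976)) (l 16825616)))) (a (a (b (a (l 196125640151) (l 219747925703)) (a (l 186998794359) (l 16784488))) (b (a (l 16785864) (l 16801160)) (l 16826384))) (a (b (l 16813624) (l 16842072)) (l 16862336)))))) (a (b (a (b (a (b (a (b (l 162839602359) (l 16772552)) (l 16758888)) (a (l 16784048)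 (l 16797472))) (b (b (l 16771432) (l 16778312)) (a (l 16806520) (l 16817264)))) (a (b (a (l 16803680) (l 16813464)) (l 16836648)) (l 16840296))) (b (l 16836248) (a (l 16864456) (l 16876144)))) (a (b (a (l 16855632) (l 16867904)) (b (l 16867880) (l 16873280))) (b (b (l 16881992) (l 16888960)) (l 16889488)))) (b (a (b (a (l 16863920) (l 16862248)) (a (l 16877104) (l 16874032))) (b (l 16857880) (l 16870208))) (a (b (l 16886264) (l 16890520)) (b (l 16878912) (l 16887144)))))), by decide +kernel⟩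

def k2_pm_213_a : ∃ t, chk3 f_pm_213_a t 1 7 1 = true :=
  ⟨(a (b (a (b (a (l 3) (b (a (l 3) (a (l 176261377527) (l 16762712))) (a (a (l 3) (l 171966398343)) (a (l 16751224) (l 16766640))))) (a (a (l 3) (a (b (l 3) (l 164450171895)) (b (l 153712735191) (l 179482583015)))) (a (b (a (l 174650738183) (l 16735288)) (a (l 16723880) (l 16741232))) (b (a (l 16752640) (l 16761624)) (a (l 16749920) (l 16760128)))))) (b (a (b (a (a (l 16778632) (l 16794328)) (l 16804264)) (a (l 16839968) (l 16802352))) (a (l 16828736) (l 16851936))) (a (a (l 16774248) (l 16789224)) (a (l 16858656) (l 16815504))))) (a (l 1) (b (a (l 1) (l 1309462203015)) (l 1)))) (b (a (a (b (l 16895088) (l 16852800)) (b (l 16886784) (l 16895688))) (b (a (l 16896312) (l 16881176)) (l 16890256))) (b (a (a (l 16790352) (l 16845456)) (l 16945696)) (a (l 1) (l 17019520))))), by decide +kernel⟩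

theorem s3_pm_213_a : ∃ t, chk3 f_pm_213_a t 1 3 1 = true := ex3_b k1_pm_213_a k2_pm_213_a

theorem s4_pm_213_a : ∃ t, chk3 f_pm_213_a t 1 1 1 = true := ex3_b k0_pm_213_a s3_pm_213_a

theorem c_pm_213_a : CertB 0 536870912 0 1230186008 649613803 48318383 3 eng mog cd1q2a cd7q3 pd1 false true false .pnn 2 1 3
    ndB1q2a ndB7q3 pcB1 cut_pm_213_a Ext.none :=
  certB0 (fam := false) (s1 := true) (s2 := false) (a := 2) (b := 1) (c := 3) (cn := .pnn) (n1 := ndB1q2a) (n2 := ndB7q3) (pc := pcB1) (cut := cut_pm_213_a) (xt := Ext.none) (P1 := 0) (W1 := 536870912) (P2 := 0) (W2 := 1230186008) (P3 := 649613803) (W3 := 48318383) (N0 := 3) (En := eng) (mo := mog) (C1 := cd1q2a) (C2 := cd7q3) (C3 := pd1)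
    rfl s4_pm_213_a

noncomputable def cut_pm_213_b : Cut := Cut.of [[⟨0, 1, 0, 67108864⟩, ⟨1, 1, 0, 67108864⟩, ⟨2, 2, 0, 16777216⟩]]

noncomputable def f_pm_213_b : ℕ → ℕ → ℕ → ℕ → Bool := onCell 1239849684 370763052 0 1230186008 649613803 48318383
    (rowB 3 eng mog cd1q2b cd7q3 pd1 0 false true false .pnn 2 1 3 (qsf 1239849684 370763052 0 1230186008 1) ndB1q2b ndB7q3 pcB1 cut_pm_213_b Ext.none)

def k0_pm_213_b : ∃ t, chk3 f_pm_213_b t 1 1 1 = true :=
  ⟨(b (l 3) (b (l 3) (b (l 3) (l 1)))), by decide +kernel⟩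

theorem c_pm_213_b : CertB 1239849684 370763052 0 1230186008 649613803 48318383 3 eng mog cd1q2b cd7q3 pd1 false true false .pnn 2 1 3
    ndB1q2b ndB7q3 pcB1 cut_pm_213_b Ext.none :=
  certB0 (fam := false) (s1 := true) (s2 := false) (a := 2) (b := 1) (c := 3) (cn := .pnn) (n1 := ndB1q2b) (n2 := ndB7q3) (pc := pcB1) (cut := cut_pm_213_b) (xt := Ext.none) (P1 := 1239849684) (W1 := 370763052) (P2 := 0) (W2 := 1230186008) (P3 := 649613803) (W3 := 48318383) (N0 := 3) (En := eng) (mo := mog) (C1 := cd1q2b) (C2 := cd7q3) (C3 := pd1)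
    rfl k0_pm_213_b

noncomputable def f_pm_303 : ℕ → ℕ → ℕ → ℕ → Bool := onCell 1610612736 536870912 0 1230186008 649613803 48318383
    (rowB 3 eng mog cd1q3 cd7q3 pd0 0 false true false .npn 3 0 3 (qsf 1610612736 536870912 0 1230186008 0) ndB1q3 ndB7q3 pcB0 Cut.none Ext.none)

def k0_pm_303 : ∃ t, chk3 f_pm_303 t 1 1 1 = true :=
  ⟨(b (l 3) (b (l 3) (a (b (l 3) (b (l 3) (a (l 3) (l 1)))) (l 1)))), by decide +kernel⟩

theorem c_pm_303 : CertB 1610612736 536870912 0 1230186008 649613803 48318383 3 eng mog cd1q3 cd7q3 pd0 false true false .npn 3 0 3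
    ndB1q3 ndB7q3 pcB0 Cut.none Ext.none :=
  certB0 (fam := false) (s1 := true) (s2 := false) (a := 3) (b := 0) (c := 3) (cn := .npn) (n1 := ndB1q3) (n2 := ndB7q3) (pc := pcB0) (cut := Cut.none) (xt := Ext.none) (P1 := 1610612736) (W1 := 536870912) (P2 := 0) (W2 := 1230186008) (P3 := 649613803) (W3 := 48318383) (N0 := 3) (En := eng) (mo := mog) (C1 := cd1q3) (C2 := cd7q3) (C3 := pd0)
    rfl k0_pm_303

noncomputable def f_pm_313 : ℕ → ℕ → ℕ → ℕ → Bool := onCell 1610612736 536870912 0 1230186008 649613803 48318383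
    (rowB 3 eng mog cd1q3 cd7q3 pd1 0 false true false .dn 3 1 3 (qsf 1610612736 536870912 0 1230186008 1) ndB1q3 ndB7q3 pcB1 Cut.none Ext.none)

def k0_pm_313 : ∃ t, chk3 f_pm_313 t 1 1 1 = true :=
  ⟨(b (l 3) (l 1)), by decide +kernel⟩

theorem c_pm_313 : CertB 1610612736 536870912 0 1230186008 649613803 48318383 3 eng mog cd1q3 cd7q3 pd1 false true false .dn 3 1 3
    ndB1q3 ndB7q3 pcB1 Cut.none Ext.none :=
  certB0 (fam := false) (s1 := true) (s2 := false) (a := 3) (b := 1) (c := 3) (cn := .dn) (n1 := ndB1q3) (n2 := ndB7q3) (pc := pcB1) (cut := Cut.none) (xt := Ext.none) (P1 := 1610612736) (W1 := 536870912) (P2 := 0) (W2 := 1230186008) (P3 := 649613803) (W3 := 48318383) (N0 := 3) (En := eng) (mo := mog) (C1 := cd1q3) (C2 := cd7q3) (C3 := pd1)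
    rfl k0_pm_313

noncomputable def f_mm_001 : ℕ → ℕ → ℕ → ℕ → Bool := onCell 0 536870912 0 536870912 649613803 48318383
    (rowB 3 eng mog cd1q0 cd7q1 pd0 1 false false false .up 0 0 1 (qsf 0 536870912 536870912 536870912 0) ndB1q0 ndB7q1 pcB0 Cut.none Ext.none)

def k0_mm_001 : ∃ t, chk3 f_mm_001 t 1 1 1 = true :=
  ⟨(l 3), by decide +kernel⟩

theorem c_mm_001 : CertB 0 536870912 536870912 536870912 649613803 48318383 3 eng mog cd1q0 cd7q1 pd0 false false false .up 0 0 1
    ndB1q0 ndB7q1 pcB0 Cut.none Ext.none :=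
  certB1 (fam := false) (s1 := false) (s2 := false) (a := 0) (b := 0) (c := 1) (cn := .up) (n1 := ndB1q0) (n2 := ndB7q1) (pc := pcB0) (cut := Cut.none) (xt := Ext.none) (P1 := 0) (W1 := 536870912) (P2 := 536870912) (W2 := 536870912) (P3 := 649613803) (W3 := 48318383) (N0 := 3) (En := eng) (mo := mog) (C1 := cd1q0) (C2 := cd7q1) (C3 := pd0)
    rfl (fun _ => rfl) k0_mm_001

noncomputable def f_mm_011 : ℕ → ℕ → ℕ → ℕ → Bool := onCell 0 536870912 536870912 536870912 649613803 48318383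
    (rowB 3 eng mog cd1q0 cd7q1 pd1 1 false false false .pnn 0 1 1 (qsf 0 536870912 536870912 536870912 1) ndB1q0 ndB7q1 pcB1 Cut.none Ext.none)

def k0_mm_011 : ∃ t, chk3 f_mm_011 t 1 1 1 = true :=
  ⟨(l 5), by decide +kernel⟩

theorem c_mm_011 : CertB 0 536870912 536870912 536870912 649613803 48318383 3 eng mog cd1q0 cd7q1 pd1 false false false .pnn 0 1 1
    ndB1q0 ndB7q1 pcB1 Cut.none Ext.none :=
  certB1 (fam := false) (s1 := false) (s2 := false) (a := 0) (b := 1) (c := 1) (cn := .pnn) (n1 := ndB1q0) (n2 := ndB7q1) (pc := pcB1) (cut := Cut.none) (xt := Ext.none) (P1 := 0) (W1 := 536870912) (P2 := 536870912) (W2 := 536870912) (P3 := 649613803) (W3 := 48318383) (N0 := 3) (En := eng) (mo := mog) (C1 := cd1q0) (C2 := cd7q1) (C3 := pd1)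
    rfl (fun _ => rfl) k0_mm_011

noncomputable def f_mm_012 : ℕ → ℕ → ℕ → ℕ → Bool := onCell 0 536870912 1073741824 536870912 649613803 48318383
    (rowB 3 eng mog cd1q0 cd7q2 pd1 0 false false false .pnp 0 1 2 (qsf 0 536870912 1073741824 536870912 1) ndB1q0 ndB7q2 pcB1 Cut.none Ext.none)

def k0_mm_012 : ∃ t, chk3 f_mm_012 t 1 1 1 = true :=
  ⟨(l 5), by decide +kernel⟩

theorem c_mm_012 : CertB 0 536870912 1073741824 536870912 649613803 48318383 3 eng mog cd1q0 cd7q2 pd1 false false false .pnp 0 1 2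
    ndB1q0 ndB7q2 pcB1 Cut.none Ext.none :=
  certB0 (fam := false) (s1 := false) (s2 := false) (a := 0) (b := 1) (c := 2) (cn := .pnp) (n1 := ndB1q0) (n2 := ndB7q2) (pc := pcB1) (cut := Cut.none) (xt := Ext.none) (P1 := 0) (W1 := 536870912) (P2 := 1073741824) (W2 := 536870912) (P3 := 649613803) (W3 := 48318383) (N0 := 3) (En := eng) (mo := mog) (C1 := cd1q0) (C2 := cd7q2) (C3 := pd1)
    rfl k0_mm_012

noncomputable def f_mm_022 : ℕ → ℕ → ℕ → ℕ → Bool := onCell 0 536870912 1073741824 536870912 649613803 48318383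
    (rowB 3 eng mog cd1q0 cd7q2 pd2 0 false false false .pp 0 2 2 (qsf 0 536870912 1073741824 536870912 2) ndB1q0 ndB7q2 pcB2 Cut.none Ext.none)

def k0_mm_022 : ∃ t, chk3 f_mm_022 t 1 1 1 = true :=
  ⟨(l 5), by decide +kernel⟩

theorem c_mm_022 : CertB 0 536870912 1073741824 536870912 649613803 48318383 3 eng mog cd1q0 cd7q2 pd2 false false false .pp 0 2 2
    ndB1q0 ndB7q2 pcB2 Cut.none Ext.none :=
  certB0 (fam := false) (s1 := false) (s2 := false) (a := 0) (b := 2) (c := 2) (cn := .pp) (n1 := ndB1q0) (n2 := ndB7q2) (pc := pcB2) (cut := Cut.none) (xt := Ext.none) (P1 := 0) (W1 := 536870912) (P2 := 1073741824) (W2 := 536870912) (P3 := 649613803) (W3 := 48318383) (N0 := 3) (En := eng) (mo := mog) (C1 := cd1q0) (C2 := cd7q2) (C3 := pd2)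
    rfl k0_mm_022

noncomputable def f_mm_023 : ℕ → ℕ → ℕ → ℕ → Bool := onCell 0 536870912 0 1230186008 649613803 48318383
    (rowB 3 eng mog cd1q0 cd7q3 pd2 0 false false false .up 0 2 3 (qsf 0 536870912 0 1230186008 2) ndB1q0 ndB7q3 pcB2 Cut.none Ext.none)

def k0_mm_023 : ∃ t, chk3 f_mm_023 t 1 1 1 = true :=
  ⟨(l 5), by decide +kernel⟩

theorem c_mm_023 : CertB 0 536870912 0 1230186008 649613803 48318383 3 eng mog cd1q0 cd7q3 pd2 false false false .up 0 2 3
    ndB1q0 ndB7q3 pcB2 Cut.none Ext.none :=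
  certB0 (fam := false) (s1 := false) (s2 := false) (a := 0) (b := 2) (c := 3) (cn := .up) (n1 := ndB1q0) (n2 := ndB7q3) (pc := pcB2) (cut := Cut.none) (xt := Ext.none) (P1 := 0) (W1 := 536870912) (P2 := 0) (W2 := 1230186008) (P3 := 649613803) (W3 := 48318383) (N0 := 3) (En := eng) (mo := mog) (C1 := cd1q0) (C2 := cd7q3) (C3 := pd2)
    rfl k0_mm_023

noncomputable def f_mm_033 : ℕ → ℕ → ℕ → ℕ → Bool := onCell 0 536870912 0 1230186008 649613803 48318383
    (rowB 3 eng mog cd1q0 cd7q3 pd3 0 false false false .pnn 0 3 3 (qsf 0 536870912 0 1230186008 3) ndB1q0 ndB7q3 pcB3 Cut.none Ext.none)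

def k0_mm_033 : ∃ t, chk3 f_mm_033 t 1 1 1 = true :=
  ⟨(l 5), by decide +kernel⟩

theorem c_mm_033 : CertB 0 536870912 0 1230186008 649613803 48318383 3 eng mog cd1q0 cd7q3 pd3 false false false .pnn 0 3 3
    ndB1q0 ndB7q3 pcB3 Cut.none Ext.none :=
  certB0 (fam := false) (s1 := false) (s2 := false) (a := 0) (b := 3) (c := 3) (cn := .pnn) (n1 := ndB1q0) (n2 := ndB7q3) (pc := pcB3) (cut := Cut.none) (xt := Ext.none) (P1 := 0) (W1 := 536870912) (P2 := 0) (W2 := 1230186008) (P3 := 649613803) (W3 := 48318383) (N0 := 3) (En := eng) (mo := mog) (C1 := cd1q0) (C2 := cd7q3) (C3 := pd3)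
    rfl k0_mm_033

noncomputable def f_mm_101 : ℕ → ℕ → ℕ → ℕ → Bool := onCell 536870912 536870912 0 536870912 649613803 48318383
    (rowB 3 eng mog cd1q1 cd7q1 pd0 1 false false false .npn 1 0 1 (qsf 536870912 536870912 536870912 536870912 0) ndB1q1 ndB7q1 pcB0 Cut.none Ext.none)

def k0_mm_101 : ∃ t, chk3 f_mm_101 t 1 1 1 = true :=
  ⟨(l 3), by decide +kernel⟩

theorem c_mm_101 : CertB 536870912 536870912 536870912 536870912 649613803 48318383 3 eng mog cd1q1 cd7q1 pd0 false false false .npn 1 0 1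
    ndB1q1 ndB7q1 pcB0 Cut.none Ext.none :=
  certB1 (fam := false) (s1 := false) (s2 := false) (a := 1) (b := 0) (c := 1) (cn := .npn) (n1 := ndB1q1) (n2 := ndB7q1) (pc := pcB0) (cut := Cut.none) (xt := Ext.none) (P1 := 536870912) (W1 := 536870912) (P2 := 536870912) (W2 := 536870912) (P3 := 649613803) (W3 := 48318383) (N0 := 3) (En := eng) (mo := mog) (C1 := cd1q1) (C2 := cd7q1) (C3 := pd0)
    rfl (fun _ => rfl) k0_mm_101

noncomputable def f_mm_102 : ℕ → ℕ → ℕ → ℕ → Bool := onCell 536870912 536870912 1073741824 536870912 649613803 48318383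
    (rowB 3 eng mog cd1q1 cd7q2 pd0 0 false false false .npp 1 0 2 (qsf 536870912 536870912 1073741824 536870912 0) ndB1q1 ndB7q2 pcB0 Cut.none Ext.none)

def k0_mm_102 : ∃ t, chk3 f_mm_102 t 1 1 1 = true :=
  ⟨(l 3), by decide +kernel⟩

theorem c_mm_102 : CertB 536870912 536870912 1073741824 536870912 649613803 48318383 3 eng mog cd1q1 cd7q2 pd0 false false false .npp 1 0 2
    ndB1q1 ndB7q2 pcB0 Cut.none Ext.none :=
  certB0 (fam := false) (s1 := false) (s2 := false) (a := 1) (b := 0) (c := 2) (cn := .npp) (n1 := ndB1q1) (n2 := ndB7q2) (pc := pcB0) (cut := Cut.none) (xt := Ext.none) (P1 := 536870912) (W1 := 536870912) (P2 := 1073741824) (W2 := 536870912) (P3 := 649613803) (W3 := 48318383) (N0 := 3) (En := eng) (mo := mog) (C1 := cd1q1) (C2 := cd7q2) (C3 := pd0)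
    rfl k0_mm_102

noncomputable def f_mm_112 : ℕ → ℕ → ℕ → ℕ → Bool := onCell 536870912 536870912 1073741824 536870912 649613803 48318383
    (rowB 3 eng mog cd1q1 cd7q2 pd1 0 false false false .dn 1 1 2 (qsf 536870912 536870912 1073741824 536870912 1) ndB1q1 ndB7q2 pcB1 Cut.none Ext.none)

def k0_mm_112 : ∃ t, chk3 f_mm_112 t 1 1 1 = true :=
  ⟨(l 3), by decide +kernel⟩

theorem c_mm_112 : CertB 536870912 536870912 1073741824 536870912 649613803 48318383 3 eng mog cd1q1 cd7q2 pd1 false false false .dn 1 1 2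
    ndB1q1 ndB7q2 pcB1 Cut.none Ext.none :=
  certB0 (fam := false) (s1 := false) (s2 := false) (a := 1) (b := 1) (c := 2) (cn := .dn) (n1 := ndB1q1) (n2 := ndB7q2) (pc := pcB1) (cut := Cut.none) (xt := Ext.none) (P1 := 536870912) (W1 := 536870912) (P2 := 1073741824) (W2 := 536870912) (P3 := 649613803) (W3 := 48318383) (N0 := 3) (En := eng) (mo := mog) (C1 := cd1q1) (C2 := cd7q2) (C3 := pd1)
    rfl k0_mm_112

noncomputable def f_mm_113 : ℕ → ℕ → ℕ → ℕ → Bool := onCell 536870912 536870912 0 1230186008 649613803 48318383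
    (rowB 3 eng mog cd1q1 cd7q3 pd1 0 false false false .nn 1 1 3 (qsf 536870912 536870912 0 1230186008 1) ndB1q1 ndB7q3 pcB1 Cut.none Ext.none)

def k0_mm_113 : ∃ t, chk3 f_mm_113 t 1 1 1 = true :=
  ⟨(b (l 5) (b (l 5) (a (l 5) (l 3)))), by decide +kernel⟩

theorem c_mm_113 : CertB 536870912 536870912 0 1230186008 649613803 48318383 3 eng mog cd1q1 cd7q3 pd1 false false false .nn 1 1 3
    ndB1q1 ndB7q3 pcB1 Cut.none Ext.none :=
  certB0 (fam := false) (s1 := false) (s2 := false) (a := 1) (b := 1) (c := 3) (cn := .nn) (n1 := ndB1q1) (n2 := ndB7q3) (pc := pcB1) (cut := Cut.none) (xt := Ext.none) (P1 := 536870912) (W1 := 536870912) (P2 := 0) (W2 := 1230186008) (P3 := 649613803) (W3 := 48318383) (N0 := 3) (En := eng) (mo := mog) (C1 := cd1q1) (C2 := cd7q3) (C3 := pd1)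
    rfl k0_mm_113

noncomputable def f_mm_123 : ℕ → ℕ → ℕ → ℕ → Bool := onCell 1073741824 536870912 0 1230186008 649613803 48318383
    (rowB 3 eng mog cd1q1 cd7q3 pd2 2 false false false .npn 1 2 3 (qsf 536870912 536870912 0 1230186008 2) ndB1q1 ndB7q3 pcB2 Cut.none Ext.none)

def k0_mm_123 : ∃ t, chk3 f_mm_123 t 1 1 1 = true :=
  ⟨(b (l 5) (l 5)), by decide +kernel⟩

theorem c_mm_123 : CertB 536870912 536870912 0 1230186008 649613803 48318383 3 eng mog cd1q1 cd7q3 pd2 false false false .npn 1 2 3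
    ndB1q1 ndB7q3 pcB2 Cut.none Ext.none :=
  certB2 (fam := false) (s1 := false) (s2 := false) (a := 1) (b := 2) (c := 3) (cn := .npn) (n1 := ndB1q1) (n2 := ndB7q3) (pc := pcB2) (cut := Cut.none) (xt := Ext.none) (P1 := 536870912) (W1 := 536870912) (P2 := 0) (W2 := 1230186008) (P3 := 649613803) (W3 := 48318383) (N0 := 3) (En := eng) (mo := mog) (C1 := cd1q1) (C2 := cd7q3) (C3 := pd2)
    rfl (fun _ => rfl) k0_mm_123

noncomputable def f_mm_133 : ℕ → ℕ → ℕ → ℕ → Bool := onCell 536870912 536870912 0 1230186008 649613803 48318383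
    (rowB 3 eng mog cd1q1 cd7q3 pd3 0 false false false .dn 1 3 3 (qsf 536870912 536870912 0 1230186008 3) ndB1q1 ndB7q3 pcB3 Cut.none Ext.none)

def k0_mm_133 : ∃ t, chk3 f_mm_133 t 1 1 1 = true :=
  ⟨(b (l 5) (l 1)), by decide +kernel⟩

theorem c_mm_133 : CertB 536870912 536870912 0 1230186008 649613803 48318383 3 eng mog cd1q1 cd7q3 pd3 false false false .dn 1 3 3
    ndB1q1 ndB7q3 pcB3 Cut.none Ext.none :=
  certB0 (fam := false) (s1 := false) (s2 := false) (a := 1) (b := 3) (c := 3) (cn := .dn) (n1 := ndB1q1) (n2 := ndB7q3) (pc := pcB3) (cut := Cut.none) (xt := Ext.none) (P1 := 536870912) (W1 := 536870912) (P2 := 0) (W2 := 1230186008) (P3 := 649613803) (W3 := 48318383) (N0 := 3) (En := eng) (mo := mog) (C1 := cd1q1) (C2 := cd7q3) (C3 := pd3)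
    rfl k0_mm_133

noncomputable def f_mm_202_a : ℕ → ℕ → ℕ → ℕ → Bool := onCell 0 536870912 0 536870912 649613803 48318383
    (rowB 3 eng mog cd1q2a cd7q2 pd0 1 false false false .pp 2 0 2 (qsf 0 536870912 1073741824 536870912 0) ndB1q2a ndB7q2 pcB0 Cut.none Ext.none)

def k0_mm_202_a : ∃ t, chk3 f_mm_202_a t 4 4 1 = true :=
  ⟨(b (a (b (b (l 16433320) (l 16444472)) (a (l 16463160) (b (l 16460984) (a (l 16470016) (l 16472848))))) (b (b (l 16470416) (a (l 16453440) (a (b (l 16456072) (l 16482472)) (b (l 16502744) (a (l 16465040) (b (l 16465824) (l 16468880))))))) (a (b (b (l 16462592) (l 16448320)) (a (b (l 16473608) (l 16479416)) (b (l 16476224) (l 16482840)))) (b (b (a (l 16594888) (c (l 16559936) (l 16576920))) (a (c (l 16582176) (l 16473824)) (a (l 16500128) (l 16480872)))) (a (b (a (l 16480448) (l 16482552)) (l 16508848)) (b (c (l 16593336) (l 16485888)) (a (l 16490824) (l 16493096)))))))) (a (b (a (b (b (l 16477352) (l 16480160)) (b (a (l 16485896) (l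 16487624)) (l 16491912))) (b (a (b (l 16479368) (l 16484480)) (b (l 16481816) (l 16486600))) (a (l 16488888) (l 16535496)))) (a (b (a (l 16497040) (l 16578672)) (a (l 16503448) (l 16505192))) (b (a (l 16499864) (l 16499056)) (b (l 16544496) (l 16601272))))) (b (a (b (a (b (l 16483752) (l 16490184)) (b (l 16488616) (l 16492272))) (a (b (l 16494456) (l 16496832)) (b (l 16497320) (l 16502264)))) (b (a (b (l 16492520) (l 16498552)) (c (l 97340862791) (l 16500984))) (c (b (l 152638607719) (l 146733058375)) (l 16572120)))) (a (a (b (l 16545432) (b (l 16508656) (l 16512856))) (b (l 16590376) (l 16536880))) (a (b (b (l 16511080) (l 16515816)) (l 16555624)) (l 169818618151)))))), by decide +kernel⟩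

def k1_mm_202_a : ∃ t, chk3 f_mm_202_a t 5 4 1 = true :=
  ⟨(a (b (b (a (b (a (b (l 16461376) (l 16526800)) (b (a (l 16466240) (b (l 16469240) (l 16491408))) (b (a (l 16488992) (a (l 16470880) (l 16493904))) (a (l 16469624) (a (l 16472320) (l 16495424)))))) (a (b (a (b (l 16464472) (l 16465768)) (b (l 16467600) (l 16490552))) (c (a (l 16535736) (l 16496080)) (a (l 16531416) (l 16492256)))) (b (b (a (a (l 16470472) (l 16472040)) (c (l 168744758359) (l 16515928))) (a (a (l 16471816) (l 16473568)) (l 16476720))) (a (b (a (l 16473648) (l 16475272)) (l 16477208)) (l 16479616))))) (b (a (b (b (a (a (l 16472256) (l 16495408)) (l 185924535799)) (b (l 181629587335) (l 185387665559))) (b (l 178408359975) (l 187535154743))) (l 3)) (l 3))) (a (b (a (b (a (a (l 16476008) (l 16477536)) (a (l 16479160) (l 16480320))) (a (a (l 16483056) (l 16484176)) (a (l 16485728) (l 16487448)))) (b (b (l 198272652247) (l 16486424)) (l 16492008))) (a (a (b (l 16469336) (l 16496568)) (l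 16496896)) (l 3))) (l 3))) (b (b (l 223505560407) (l 3)) (l 3))) (l 3)), by decide +kernel⟩

def k2_mm_202_a : ∃ t, chk3 f_mm_202_a t 2 5 1 = true :=
  ⟨(a (b (a (b (a (b (a (l 16512592) (l 16512368)) (a (l 16520576) (l 16521856))) (a (b (l 16514512) (l 16526024)) (b (l 16518032) (b (l 16525936) (l 16542312))))) (a (b (a (l 16528824) (l 16533416)) (a (l 16582840) (l 16545264))) (a (a (b (l 16536296) (b (l 16545312) (l 16552016))) (b (b (l 16535488) (l 16541448)) (b (l 16547544) (l 16554464)))) (a (b (b (l 16537496) (l 16543784)) (b (l 16549728) (l 16556264))) (b (b (l 16539928) (l 16545752)) (c (b (l 16552072) (l 104320304103)) (l 16553472))))))) (a (a (b (b (l 16521656) (b (l 16531560) (l 16537632))) (a (b (b (l 16541968) (l 16548024)) (b (l 188609014199) (l 3))) (b (l 213305064823) (l 3)))) (b (b (l 84992938151) (c (l 207936389815) (l 159081222215))) (l 3))) (l 3))) (a (b (b (a (a (l 16554480) (a (l 16558032) (b (l 16556832) (l 16563816)))) (b (a (a (l 16559184)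 (l 16561096)) (a (l 96804119031) (l 125258287703))) (a (l 16566952) (c (l 105930935767) (l 16569592))))) (b (a (a (l 16565024) (c (l 16571232) (l 16567352))) (a (c (l 93046062951) (l 16571064)) (l 130090138903))) (a (a (l 16572032) (a (l 16575600) (l 16577680))) (a (c (l 94656701847) (l 16578024)) (l 3))))) (a (a (b (b (l 16578784) (l 16585928)) (b (l 16593416) (l 16600616))) (b (b (l 16583592) (l 80698079543)) (b (l 84456196647) (l 89288053639)))) (a (a (b (b (l 91435483415) (l 98414824487)) (l 3)) (l 3)) (l 3)))) (l 3))) (l 3)), by decide +kernel⟩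

def k3_mm_202_a : ∃ t, chk3 f_mm_202_a t 2 3 1 = true :=
  ⟨(b (a (b (a (a (b (b (a (b (l 16607976) (l 16615512)) (a (l 93046186455) (l 3))) (a (l 79624445895) (l 3))) (b (a (l 106468008151) (l 3)) (l 3))) (l 3)) (l 3)) (l 3)) (l 3)) (l 3)), by decide +kernel⟩

def k4_mm_202_a : ∃ t, chk3 f_mm_202_a t 3 1 1 = true :=
  ⟨(l 3), by decide +kernel⟩

theorem s5_mm_202_a : ∃ t, chk3 f_mm_202_a t 2 4 1 = true := ex3_a k0_mm_202_a k1_mm_202_a

theorem s6_mm_202_a : ∃ t, chk3 f_mm_202_a t 2 2 1 = true := ex3_b s5_mm_202_a k2_mm_202_a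

theorem s7_mm_202_a : ∃ t, chk3 f_mm_202_a t 2 1 1 = true := ex3_b s6_mm_202_a k3_mm_202_a

theorem s8_mm_202_a : ∃ t, chk3 f_mm_202_a t 1 1 1 = true := ex3_a s7_mm_202_a k4_mm_202_a

theorem c_mm_202_a : CertB 0 536870912 1073741824 536870912 649613803 48318383 3 eng mog cd1q2a cd7q2 pd0 false false false .pp 2 0 2
    ndB1q2a ndB7q2 pcB0 Cut.none Ext.none :=
  certB1 (fam := false) (s1 := false) (s2 := false) (a := 2) (b := 0) (c := 2) (cn := .pp) (n1 := ndB1q2a) (n2 := ndB7q2) (pc := pcB0) (cut := Cut.none) (xt := Ext.none) (P1 := 0) (W1 := 536870912) (P2 := 1073741824) (W2 := 536870912) (P3 := 649613803) (W3 := 48318383) (N0 := 3) (En := eng) (mo := mog) (C1 := cd1q2a) (C2 := cd7q2) (C3 := pd0)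
    rfl (fun _ => rfl) s8_mm_202_a

noncomputable def f_mm_202_b : ℕ → ℕ → ℕ → ℕ → Bool := onCell 0 536870912 1073741824 536870912 649613803 48318383
    (rowB 3 eng mog cd1q2b cd7q2 pd0 2 false false false .pp 2 0 2 (qsf 1239849684 370763052 1073741824 536870912 0) ndB1q2b ndB7q2 pcB0 Cut.none Ext.none)

def k0_mm_202_b : ∃ t, chk3 f_mm_202_b t 2 2 1 = true :=
  ⟨(a (b (l 1) (a (a (b (b (l 16496336) (l 81100699735)) (b (l 16394232) (l 16346952))) (b (b (l 1) (l 169147626823)) (b (l 16459168) (l 16414168)))) (b (l 1) (a (b (l 224445125735) (a (l 16464512) (l 213170688807))) (a (b (l 1) (l 380137608711)) (l 1)))))) (l 1)), by decide +kernel⟩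

def k1_mm_202_b : ∃ t, chk3 f_mm_202_b t 2 3 1 = true :=
  ⟨(b (a (a (b (b (l 16488080) (a (l 16222448) (l 16455344))) (a (b (l 16167584) (a (l 16108480) (l 16139480))) (b (a (l 16218072) (b (l 16269208) (l 16241528))) (a (l 16222040) (b (l 16224568) (l 16205336)))))) (b (a (a (b (l 16529064) (l 16431888)) (b (l 16444256) (l 16421208))) (b (a (l 16479800) (l 16515048)) (a (l 16418688) (l 16455328)))) (b (a (a (l 16333264) (b (l 16342392) (l 16318152))) (b (l 16396816) (l 16372432))) (a (a (l 16291856) (l 16286592)) (b (l 16350728) (l 16331992)))))) (a (b (a (b (a (l 308733848151) (l 1)) (a (l 16493280) (l 16532328))) (a (b (l 1) (l 273837300631)) (l 1))) (b (a (b (l 16471120) (l 16446928)) (b (l 173442472199) (c (l 64457676471) (l 16518584)))) (a (b (l 16426256) (l 16406160)) (b (l 16499432) (l 16479992))))) (b (l 1) (b (a (a (b (l 1) (l 194380502871)) (l 1)) (l 1)) (b (a (l 96670060135) (l 1)) (a (l 16569168) (a (l 16656528) (l 1)))))))) (b (b (a (a (a (a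 (l 16077776) (l 16115072)) (b (l 16177312) (l 16166120))) (a (l 16261368) (b (l 16314552) (l 16302752)))) (a (a (b (l 16387952) (l 16373336)) (b (l 16461552) (l 16444680))) (a (b (l 16530448) (l 16576064)) (b (c (l 41909252743) (l 16611888)) (a (l 16561592) (l 16613600)))))) (a (a (l 3) (a (l 3) (l 16292744))) (b (a (a (l 16384832) (l 16429296)) (a (l 16558952) (a (l 16544968) (l 16576856)))) (a (l 3) (a (l 16483216) (a (l 16530832) (l 16562200))))))) (l 3))), by decide +kernel⟩

def k2_mm_202_b : ∃ t, chk3 f_mm_202_b t 3 1 1 = true :=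
  ⟨(a (b (l 1) (b (l 1) (a (b (a (a (b (b (l 1) (b (l 1) (l 16617944))) (b (l 16607280) (l 16592952))) (b (l 1) (b (l 78953341591) (l 16622128)))) (b (l 1) (a (b (l 1) (l 93985760791)) (l 1)))) (b (b (a (l 51707105047) (a (l 16658264) (a (l 16656328) (l 1)))) (l 3)) (l 3))) (b (l 1) (b (a (a (b (l 1) (l 3)) (l 1)) (l 1)) (l 3)))))) (l 1)), by decide +kernel⟩

theorem s3_mm_202_b : ∃ t, chk3 f_mm_202_b t 2 1 1 = true := ex3_b k0_mm_202_b k1_mm_202_b

theorem s4_mm_202_b : ∃ t, chk3 f_mm_202_b t 1 1 1 = true := ex3_a s3_mm_202_b k2_mm_202_b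

theorem c_mm_202_b : CertB 1239849684 370763052 1073741824 536870912 649613803 48318383 3 eng mog cd1q2b cd7q2 pd0 false false false .pp 2 0 2
    ndB1q2b ndB7q2 pcB0 Cut.none Ext.none :=
  certB2 (fam := false) (s1 := false) (s2 := false) (a := 2) (b := 0) (c := 2) (cn := .pp) (n1 := ndB1q2b) (n2 := ndB7q2) (pc := pcB0) (cut := Cut.none) (xt := Ext.none) (P1 := 1239849684) (W1 := 370763052) (P2 := 1073741824) (W2 := 536870912) (P3 := 649613803) (W3 := 48318383) (N0 := 3) (En := eng) (mo := mog) (C1 := cd1q2b) (C2 := cd7q2) (C3 := pd0)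
    rfl (fun _ => rfl) s4_mm_202_b

noncomputable def f_mm_203_a : ℕ → ℕ → ℕ → ℕ → Bool := onCell 0 536870912 0 1230186008 649613803 48318383
    (rowB 3 eng mog cd1q2a cd7q3 pd0 0 false false false .up 2 0 3 (qsf 0 536870912 0 1230186008 0) ndB1q2a ndB7q3 pcB0 Cut.none Ext.none)

def k0_mm_203_a : ∃ t, chk3 f_mm_203_a t 1 1 1 = true :=
  ⟨(b (l 2) (b (l 2) (a (l 3) (l 3)))), by decide +kernel⟩

theorem c_mm_203_a : CertB 0 536870912 0 1230186008 649613803 48318383 3 eng mog cd1q2a cd7q3 pd0 false false false .up 2 0 3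
    ndB1q2a ndB7q3 pcB0 Cut.none Ext.none :=
  certB0 (fam := false) (s1 := false) (s2 := false) (a := 2) (b := 0) (c := 3) (cn := .up) (n1 := ndB1q2a) (n2 := ndB7q3) (pc := pcB0) (cut := Cut.none) (xt := Ext.none) (P1 := 0) (W1 := 536870912) (P2 := 0) (W2 := 1230186008) (P3 := 649613803) (W3 := 48318383) (N0 := 3) (En := eng) (mo := mog) (C1 := cd1q2a) (C2 := cd7q3) (C3 := pd0)
    rfl k0_mm_203_a

noncomputable def f_mm_203_b : ℕ → ℕ → ℕ → ℕ → Bool := onCell 1239849684 370763052 0 1230186008 649613803 48318383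
    (rowB 3 eng mog cd1q2b cd7q3 pd0 0 false false false .up 2 0 3 (qsf 1239849684 370763052 0 1230186008 0) ndB1q2b ndB7q3 pcB0 Cut.none Ext.none)

def k0_mm_203_b : ∃ t, chk3 f_mm_203_b t 1 1 1 = true :=
  ⟨(b (l 3) (b (l 3) (a (l 3) (l 3)))), by decide +kernel⟩

theorem c_mm_203_b : CertB 1239849684 370763052 0 1230186008 649613803 48318383 3 eng mog cd1q2b cd7q3 pd0 false false false .up 2 0 3
    ndB1q2b ndB7q3 pcB0 Cut.none Ext.none :=
  certB0 (fam := false) (s1 := false) (s2 := false) (a := 2) (b := 0) (c := 3) (cn := .up) (n1 := ndB1q2b) (n2 := ndB7q3) (pc := pcB0) (cut := Cut.none) (xt := Ext.none) (P1 := 1239849684) (W1 := 370763052) (P2 := 0) (W2 := 1230186008) (P3 := 649613803) (W3 := 48318383) (N0 := 3) (En := eng) (mo := mog) (C1 := cd1q2b) (C2 := cd7q3) (C3 := pd0)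
    rfl k0_mm_203_b

noncomputable def f_mm_213_a : ℕ → ℕ → ℕ → ℕ → Bool := onCell 0 536870912 0 1230186008 649613803 48318383
    (rowB 3 eng mog cd1q2a cd7q3 pd1 0 false false false .pnn 2 1 3 (qsf 0 536870912 0 1230186008 1) ndB1q2a ndB7q3 pcB1 Cut.none Ext.none)

def k0_mm_213_a : ∃ t, chk3 f_mm_213_a t 1 1 1 = true :=
  ⟨(b (a (l 3) (b (l 5) (l 3))) (b (l 3) (b (l 3) (l 3)))), by decide +kernel⟩

theorem c_mm_213_a : CertB 0 536870912 0 1230186008 649613803 48318383 3 eng mog cd1q2a cd7q3 pd1 false false false .pnn 2 1 3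
    ndB1q2a ndB7q3 pcB1 Cut.none Ext.none :=
  certB0 (fam := false) (s1 := false) (s2 := false) (a := 2) (b := 1) (c := 3) (cn := .pnn) (n1 := ndB1q2a) (n2 := ndB7q3) (pc := pcB1) (cut := Cut.none) (xt := Ext.none) (P1 := 0) (W1 := 536870912) (P2 := 0) (W2 := 1230186008) (P3 := 649613803) (W3 := 48318383) (N0 := 3) (En := eng) (mo := mog) (C1 := cd1q2a) (C2 := cd7q3) (C3 := pd1)
    rfl k0_mm_213_a

noncomputable def f_mm_213_b : ℕ → ℕ → ℕ → ℕ → Bool := onCell 1239849684 370763052 0 1230186008 649613803 48318383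
    (rowB 3 eng mog cd1q2b cd7q3 pd1 0 false false false .pnn 2 1 3 (qsf 1239849684 370763052 0 1230186008 1) ndB1q2b ndB7q3 pcB1 Cut.none Ext.none)

def k0_mm_213_b : ∃ t, chk3 f_mm_213_b t 1 1 1 = true :=
  ⟨(b (l 3) (b (l 3) (a (l 3) (l 1)))), by decide +kernel⟩

theorem c_mm_213_b : CertB 1239849684 370763052 0 1230186008 649613803 48318383 3 eng mog cd1q2b cd7q3 pd1 false false false .pnn 2 1 3
    ndB1q2b ndB7q3 pcB1 Cut.none Ext.none :=
  certB0 (fam := false) (s1 := false) (s2 := false) (a := 2) (b := 1) (c := 3) (cn := .pnn) (n1 := ndB1q2b) (n2 := ndB7q3) (pc := pcB1) (cut := Cut.none) (xt := Ext.none) (P1 := 1239849684) (W1 := 370763052) (P2 := 0) (W2 := 1230186008) (P3 := 649613803) (W3 := 48318383) (N0 := 3) (En := eng) (mo := mog) (C1 := cd1q2b) (C2 := cd7q3) (C3 := pd1)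
    rfl k0_mm_213_b

noncomputable def f_mm_303 : ℕ → ℕ → ℕ → ℕ → Bool := onCell 1610612736 536870912 0 1230186008 649613803 48318383
    (rowB 3 eng mog cd1q3 cd7q3 pd0 0 false false false .npn 3 0 3 (qsf 1610612736 536870912 0 1230186008 0) ndB1q3 ndB7q3 pcB0 Cut.none Ext.none)

def k0_mm_303 : ∃ t, chk3 f_mm_303 t 1 1 1 = true :=
  ⟨(b (l 3) (b (l 3) (a (l 3) (l 1)))), by decide +kernel⟩

theorem c_mm_303 : CertB 1610612736 536870912 0 1230186008 649613803 48318383 3 eng mog cd1q3 cd7q3 pd0 false false false .npn 3 0 3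
    ndB1q3 ndB7q3 pcB0 Cut.none Ext.none :=
  certB0 (fam := false) (s1 := false) (s2 := false) (a := 3) (b := 0) (c := 3) (cn := .npn) (n1 := ndB1q3) (n2 := ndB7q3) (pc := pcB0) (cut := Cut.none) (xt := Ext.none) (P1 := 1610612736) (W1 := 536870912) (P2 := 0) (W2 := 1230186008) (P3 := 649613803) (W3 := 48318383) (N0 := 3) (En := eng) (mo := mog) (C1 := cd1q3) (C2 := cd7q3) (C3 := pd0)
    rfl k0_mm_303

noncomputable def f_mm_313 : ℕ → ℕ → ℕ → ℕ → Bool := onCell 1610612736 536870912 0 1230186008 649613803 48318383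
    (rowB 3 eng mog cd1q3 cd7q3 pd1 0 false false false .dn 3 1 3 (qsf 1610612736 536870912 0 1230186008 1) ndB1q3 ndB7q3 pcB1 Cut.none Ext.none)

def k0_mm_313 : ∃ t, chk3 f_mm_313 t 1 1 1 = true :=
  ⟨(b (l 3) (l 1)), by decide +kernel⟩

theorem c_mm_313 : CertB 1610612736 536870912 0 1230186008 649613803 48318383 3 eng mog cd1q3 cd7q3 pd1 false false false .dn 3 1 3
    ndB1q3 ndB7q3 pcB1 Cut.none Ext.none :=
  certB0 (fam := false) (s1 := false) (s2 := false) (a := 3) (b := 1) (c := 3) (cn := .dn) (n1 := ndB1q3) (n2 := ndB7q3) (pc := pcB1) (cut := Cut.none) (xt := Ext.none) (P1 := 1610612736) (W1 := 536870912) (P2 := 0) (W2 := 1230186008) (P3 := 649613803) (W3 := 48318383) (N0 := 3) (En := eng) (mo := mog) (C1 := cd1q3) (C2 := cd7q3) (C3 := pd1)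
    rfl k0_mm_313

end Pool.Agent.Strip051.G.I6050_6500.Tab.C.BB17

namespace Pool.Agent.Strip051.G.I6050_6500.Tab.C.BB18

open Pool.Agent.Strip051.PB Pool.Agent.Strip051.PB.T
open Pool.Agent.Strip051.G.I6050_6500.Tab

noncomputable def f_pp_001 : ℕ → ℕ → ℕ → ℕ → Bool := onCell 0 536870912 0 536870912 649613803 48318383
    (rowB 3 eng mog cd1q0 cd8q1 pd0 1 false true true .up 0 0 1 (qsf 0 536870912 536870912 536870912 0) ndB1q0 ndB8q1 pcB0 Cut.none Ext.none)

def k0_pp_001 : ∃ t, chk3 f_pp_001 t 1 1 1 = true :=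
  ⟨(l 3), by decide +kernel⟩

theorem c_pp_001 : CertB 0 536870912 536870912 536870912 649613803 48318383 3 eng mog cd1q0 cd8q1 pd0 false true true .up 0 0 1
    ndB1q0 ndB8q1 pcB0 Cut.none Ext.none :=
  certB1 (fam := false) (s1 := true) (s2 := true) (a := 0) (b := 0) (c := 1) (cn := .up) (n1 := ndB1q0) (n2 := ndB8q1) (pc := pcB0) (cut := Cut.none) (xt := Ext.none) (P1 := 0) (W1 := 536870912) (P2 := 536870912) (W2 := 536870912) (P3 := 649613803) (W3 := 48318383) (N0 := 3) (En := eng) (mo := mog) (C1 := cd1q0) (C2 := cd8q1) (C3 := pd0)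
    rfl (fun _ => rfl) k0_pp_001

noncomputable def cut_pp_011 : Cut := Cut.of [[⟨0, 0, 0, 67108864⟩, ⟨1, 1, 0, 67108864⟩, ⟨2, 1, 0, 67108864⟩]]

noncomputable def f_pp_011 : ℕ → ℕ → ℕ → ℕ → Bool := onCell 0 536870912 536870912 536870912 649613803 48318383
    (rowB 3 eng mog cd1q0 cd8q1 pd1 1 false true true .pnn 0 1 1 (qsf 0 536870912 536870912 536870912 1) ndB1q0 ndB8q1 pcB1 cut_pp_011 Ext.none)

def k0_pp_011 : ∃ t, chk3 f_pp_011 t 1 1 1 = true :=
  ⟨(b (l 3) (b (l 3) (a (b (l 3) (a (a (b (l 3) (a (l 6) (l 3))) (l 3)) (l 2))) (l 2)))), by decide +kernel⟩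

theorem c_pp_011 : CertB 0 536870912 536870912 536870912 649613803 48318383 3 eng mog cd1q0 cd8q1 pd1 false true true .pnn 0 1 1
    ndB1q0 ndB8q1 pcB1 cut_pp_011 Ext.none :=
  certB1 (fam := false) (s1 := true) (s2 := true) (a := 0) (b := 1) (c := 1) (cn := .pnn) (n1 := ndB1q0) (n2 := ndB8q1) (pc := pcB1) (cut := cut_pp_011) (xt := Ext.none) (P1 := 0) (W1 := 536870912) (P2 := 536870912) (W2 := 536870912) (P3 := 649613803) (W3 := 48318383) (N0 := 3) (En := eng) (mo := mog) (C1 := cd1q0) (C2 := cd8q1) (C3 := pd1)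
    rfl (fun _ => rfl) k0_pp_011

noncomputable def cut_pp_012 : Cut := Cut.of [[⟨0, 0, 0, 67108864⟩, ⟨1, 1, 0, 67108864⟩, ⟨2, 1, 0, 67108864⟩]]

noncomputable def f_pp_012 : ℕ → ℕ → ℕ → ℕ → Bool := onCell 0 536870912 536870912 536870912 649613803 48318383
    (rowB 3 eng mog cd1q0 cd8q2 pd1 1 false true true .pnp 0 1 2 (qsf 0 536870912 1073741824 536870912 1) ndB1q0 ndB8q2 pcB1 cut_pp_012 Ext.none)

def k0_pp_012 : ∃ t, chk3 f_pp_012 t 1 1 1 = true :=
  ⟨(b (l 3) (a (b (l 3) (a (a (a (b (l 1) (b (l 3) (l 6))) (l 3)) (l 3)) (l 3))) (l 3))), by decide +kernel⟩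

theorem c_pp_012 : CertB 0 536870912 1073741824 536870912 649613803 48318383 3 eng mog cd1q0 cd8q2 pd1 false true true .pnp 0 1 2
    ndB1q0 ndB8q2 pcB1 cut_pp_012 Ext.none :=
  certB1 (fam := false) (s1 := true) (s2 := true) (a := 0) (b := 1) (c := 2) (cn := .pnp) (n1 := ndB1q0) (n2 := ndB8q2) (pc := pcB1) (cut := cut_pp_012) (xt := Ext.none) (P1 := 0) (W1 := 536870912) (P2 := 1073741824) (W2 := 536870912) (P3 := 649613803) (W3 := 48318383) (N0 := 3) (En := eng) (mo := mog) (C1 := cd1q0) (C2 := cd8q2) (C3 := pd1)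
    rfl (fun _ => rfl) k0_pp_012

noncomputable def cut_pp_022 : Cut := Cut.of [[⟨0, 0, 0, 67108864⟩, ⟨1, 1, 0, 67108864⟩, ⟨2, 1, 0, 67108864⟩]]

noncomputable def f_pp_022 : ℕ → ℕ → ℕ → ℕ → Bool := onCell 0 536870912 1073741824 536870912 649613803 48318383
    (rowB 3 eng mog cd1q0 cd8q2 pd2 1 false true true .pp 0 2 2 (qsf 0 536870912 1073741824 536870912 2) ndB1q0 ndB8q2 pcB2 cut_pp_022 Ext.none)

def k0_pp_022 : ∃ t, chk3 f_pp_022 t 8 8 1 = true :=
  ⟨(b (a (b (l 6) (a (l 6) (b (l 6) (a (l 6) (b (l 6) (a (l 6) (l 16745008))))))) (b (l 3) (b (a (b (a (l 6) (l 3)) (a (b (l 6) (a (l 6) (l 16766968))) (b (l 3) (l 253033963271)))) (l 3)) (a (a (b (a (l 16757312) (b (l 16763200) (l 16759208))) (a (l 16748680) (l 16752680))) (b (b (l 81772138439) (a (l 16762856) (l 16766368))) (a (l 16756840) (l 16765768)))) (a (b (l 300815477799) (b (l 16767592) (l 16763768))) (l 3)))))) (a (a (b (a (l 6) (b (l 6) (l 16697760))) (b (b (l 16680864) (l 16672584)) (l 16673384)))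 (b (b (a (l 16728928) (l 16730856)) (a (l 16706464) (l 16714304))) (b (a (l 16689832) (l 16697840)) (l 16677408)))) (b (a (b (a (b (l 16742336) (l 16733968)) (b (l 16750000) (l 16741320))) (a (l 16721584) (b (l 16733032) (l 16724720)))) (b (a (b (b (l 16759888) (l 16755824)) (l 16749368)) (b (l 16771392) (b (l 16758816) (l 16754832)))) (b (a (l 16740400) (l 16748520)) (a (l 16732048) (l 16739600))))) (a (b (l 16708712) (l 16692000)) (b (a (l 16719656) (l 16726944)) (l 16706512)))))), by decide +kernel⟩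

def k1_pp_022 : ∃ t, chk3 f_pp_022 t 9 8 1 = true :=
  ⟨(b (l 3) (b (a (b (a (b (l 3) (a (l 16763784) (l 3))) (l 3)) (a (a (b (l 16760944) (l 16747568)) (b (l 16762672) (l 16754576))) (b (l 3) (a (l 16761472) (l 3))))) (l 3)) (a (a (b (a (l 16734280) (b (l 16746080) (l 16737608))) (b (l 16725320) (l 16716544))) (a (b (b (l 16753024) (l 16744376)) (l 16731640)) (b (b (l 16759800) (l 16751144)) (b (l 16742480) (l 16733944))))) (b (a (b (l 3) (a (l 16757744) (l 3))) (l 3)) (a (a (b (l 16749080) (l 16740424)) (b (l 16755512) (l 16746832))) (b (l 3) (a (l 16753088) (l 16780592)))))))), by decide +kernel⟩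

def k2_pp_022 : ∃ t, chk3 f_pp_022 t 5 8 1 = true :=
  ⟨(b (l 3) (l 3)), by decide +kernel⟩

def k3_pp_022 : ∃ t, chk3 f_pp_022 t 4 9 1 = true :=
  ⟨(b (a (a (b (a (a (l 16631872) (l 16640632)) (b (l 16660872) (l 16643912))) (a (l 16625192) (l 16639384))) (b (a (b (l 16674520) (l 16657216)) (b (l 16688736) (l 16671008))) (a (b (l 16640128) (l 16622944)) (b (l 16653432) (l 16635728))))) (b (a (a (b (l 16702904) (l 16684904)) (b (b (l 16721560) (l 16712264)) (l 16698656))) (a (b (b (a (l 16731760) (l 16738128)) (l 16726192)) (l 16733256)) (a (b (b (l 16744352) (l 16735600)) (l 16722120)) (a (b (l 16757656) (l 16737360)) (b (l 16748480) (l 16741224)))))) (b (a (a (l 16667112) (l 16680512)) (a (l 16693728) (l 16727904))) (a (l 16676664) (a (l 16675160) (l 16687736)))))) (a (a (b (a (l 16571288) (l 16584456)) (a (l 16537328) (l 16550440))) (b (a (l 16597272) (l 16636072)) (a (l 16563168) (l 16596432)))) (b (a (a (b (l 16631104) (l 16613312)) (l 16666448)) (b (l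 16684000) (l 16644568))) (a (b (a (l 16595968) (l 16607744)) (l 16605416)) (a (b (l 16619888) (l 16601392)) (l 16664248)))))), by decide +kernel⟩

def k4_pp_022 : ∃ t, chk3 f_pp_022 t 5 9 1 = true :=
  ⟨(b (a (b (a (b (a (a (l 66739760311) (l 213842380631)) (l 3)) (a (b (l 16755072) (l 16751696)) (b (l 271824408503) (l 16749184)))) (l 3)) (a (b (a (b (l 16726856) (l 16716480)) (b (l 40969895975) (l 16731320))) (a (l 16701296) (b (l 16721416) (l 16710920)))) (b (b (a (l 357723690583) (l 3)) (a (a (l 16741728) (l 16748368)) (l 340007039847))) (a (b (a (l 16731784) (l 16738896)) (a (l 16721816) (l 16728896))) (b (l 120963715127) (a (l 16735872) (l 16742864))))))) (b (l 3) (a (b (l 3) (a (b (l 3) (l 304573554855)) (l 3))) (l 3)))) (a (b (a (b (a (l 16682352) (l 16696264)) (a (l 16663800) (l 16635688))) (b (a (l 16710520) (b (a (l 16726024) (l 16732848)) (a (l 16716184) (l 16723128)))) (b (l 16723960) (l 16735328)))) (b (a (l 16652216) (a (l 16672864) (l 16686128)))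 (a (l 16633504) (a (l 16654312) (l 16667640))))) (b (a (b (b (a (l 16742528) (l 342154525991)) (a (a (l 16729760) (l 16736392)) (l 153175972375))) (b (a (a (l 16719872) (l 16726288)) (b (l 16738376) (l 16733168))) (a (l 16713016) (a (l 16722416) (l 16728456))))) (b (l 3) (b (a (l 279340640263) (l 3)) (a (l 16737272) (l 327122152887))))) (a (b (a (l 16698640) (b (l 16715744) (l 16705808))) (a (l 16680248) (l 16691800))) (b (a (b (l 16727048) (l 16738096)) (b (l 16738904) (l 16749592))) (a (l 16702424) (b (l 16739632) (l 16708752)))))))), by decide +kernel⟩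

def k5_pp_022 : ∃ t, chk3 f_pp_022 t 2 10 1 = true :=
  ⟨(a (b (b (a (a (b (l 16518344) (l 16501048)) (b (l 16543776) (l 16526536))) (a (b (l 16567256) (l 16549944)) (b (a (l 16583264) (l 16593968)) (a (l 16565752) (l 16575448))))) (b (a (a (l 16483376) (l 16509048)) (a (l 16532504) (l 16595040))) (b (a (a (l 16469512) (l 16495448)) (a (l 16519072) (l 16539632))) (a (b (a (a (l 16454704) (l 16468296)) (l 16487736)) (b (b (b (a (l 16457952) (l 16484296)) (b (a (l 16456984) (l 16483392)) (a (a (l 16449032) (l 16462760)) (l 16503400)))) (a (l 16455128) (l 16481632))) (a (l 16453584) (l 16480064)))) (b (a (l 16511576) (l 16532264)) (a (a (a (l 16496768) (l 16502608)) (l 16529352)) (a (l 16542368) (l 16551920)))))))) (a (a (b (a (l 16429392) (l 16442952)) (a (l 16397224) (l 16410432))) (a (l 16554816) (l 16556528))) (a (b (l 16485808) (l 16451320)) (b (l 16505816) (l 16469336))))) (b (b (a (a (b (l 16614424) (a (l 16588072) (l 16601976))) (b (l 16642088) (l 16622608)))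 (b (a (a (l 16661336) (l 16673024)) (a (l 16683504) (l 16694376))) (a (l 16647616) (a (l 16663752) (l 16675544))))) (b (a (a (b (l 16580800) (l 16571800)) (b (l 16607632) (l 16597712))) (a (l 16648312) (b (l 16656096) (l 16647632)))) (b (a (a (l 16562864) (l 16587744)) (a (l 16611192) (l 16636464))) (a (b (a (l 16555696) (l 16580376)) (a (c (l 16571848) (l 16549264)) (l 16619352))) (b (a (l 16623352) (l 16644888)) (b (b (b (a (l 16598808) (l 16618960)) (a (l 16597736) (a (l 16611584) (l 16622816)))) (a (l 16596912) (l 16616056))) (a (l 16595040) (l 16614168)))))))) (a (a (l 16579456) (b (l 16553096) (l 16513736))) (a (b (l 16573688) (l 16532872)) (b (l 16613832) (l 16563208)))))), by decide +kernel⟩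

def k6_pp_022 : ∃ t, chk3 f_pp_022 t 2 11 1 = true :=
  ⟨(a (a (a (b (b (l 16350952) (l 16340224)) (l 16303544)) (b (a (l 16436944) (l 16384976)) (l 16313664))) (a (b (l 16451776) (l 16328904)) (b (l 16434720) (l 16380152)))) (a (b (a (l 16474344) (b (l 16473384) (l 16438328))) (a (b (l 16377568) (l 16343584)) (b (l 16407816) (l 16382000)))) (b (a (b (l 16500592) (l 16473232)) (b (l 16537440) (l 16514456))) (a (b (l 16449784) (l 16429256)) (b (l 16515400) (l 16477192)))))), by decide +kernel⟩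

def k7_pp_022 : ∃ t, chk3 f_pp_022 t 2 3 1 = true :=
  ⟨(a (b (b (a (b (a (l 16230248) (l 16246584)) (a (l 16165224) (l 16176840))) (b (a (l 16318720) (b (l 16285256) (l 16254112))) (a (l 16301800) (a (l 16217184) (l 16235608))))) (a (a (a (l 16215208) (l 16249896)) (b (l 16125936) (l 16235224))) (a (b (a (l 16148720) (l 16167696)) (l 16133256)) (b (l 16265072) (l 16183584))))) (a (b (b (a (l 16163352) (l 16063768)) (a (l 15993360) (l 16046600))) (a (b (l 15977256) (l 15965568)) (b (l 16033304) (l 16020600)))) (b (a (b (l 16115360) (l 16100840)) (b (l 16167984) (l 16154040))) (b (a (l 16087720) (l 2)) (l 2))))) (b (b (a (b (a (b (l 16313920) (l 16291864)) (b (l 16360616) (l 16328864))) (a (l 16317744) (a (l 16318176) (l 16346304)))) (b (a (b (l 16411792) (l 16398872)) (b (l 16463192) (l 16453304))) (a (l 16512240) (l 16439256)))) (a (b (a (l 16278616) (l 16316864)) (a (l 16241768) (l 16300688))) (b (a (l 16371360) (l 2)) (l 2)))) (b (a (b (a (l 16226680) (l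 2)) (l 2)) (l 2)) (l 2)))), by decide +kernel⟩

def k8_pp_022 : ∃ t, chk3 f_pp_022 t 6 1 1 = true :=
  ⟨(b (b (b (l 3) (b (l 3) (a (b (l 3) (a (b (a (b (l 380272374951) (l 16761160)) (b (l 3) (l 331417122503))) (b (a (l 16758744) (l 292762402295)) (a (l 16719960) (l 16730680)))) (b (l 3) (b (a (l 304036708167) (l 3)) (a (l 16762168) (l 498920740679)))))) (l 3)))) (b (b (b (a (b (a (b (a (l 16710056) (l 16720704)) (l 16705728)) (a (b (l 16751952) (l 16721048)) (b (l 16741224) (l 16752048)))) (a (a (l 16687264) (l 16698128)) (b (a (l 16711648) (l 16721816)) (l 16709872)))) (b (a (b (a (l 318532214151) (l 3)) (a (l 16741472) (l 16751560))) (l 3)) (a (b (a (l 16732096) (l 16742848)) (l 16749480)) (b (l 396915345767) (l 172503356455))))) (b (a (a (b (l 16703688) (l 16676320)) (b (l 16705200) (l 16701392))) (b (a (a (l 16718848) (l 16726848)) (a (l 16736880) (l 16746416))) (a (l 16721112) (l 16734656)))) (b (a (a (l 16666368) (b (l 16697016) (l 16691880))) (a (l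 16732472) (l 16731992))) (a (b (a (l 16654448) (l 16683408)) (b (a (b (b (l 16647040) (l 16663064)) (l 16639616)) (b (b (l 16676184) (l 16671368)) (l 16668736))) (a (l 16638312) (l 16667560)))) (a (a (b (l 16703168) (l 16699680)) (b (l 16714976) (l 16703880))) (a (b (l 16724376) (l 16714640)) (l 2))))))) (a (a (b (l 16623800) (l 16598464)) (b (l 16654472) (l 16631760))) (a (b (l 16681752) (l 16662024)) (b (l 16704664) (l 2))))) (a (b (a (b (l 16575856) (l 16576896)) (b (l 16612072) (l 16595352))) (a (b (l 16539160) (l 16525448)) (l 16551368))) (b (a (b (l 16645224) (l 2)) (l 2)) (l 2))))) (b (b (a (b (a (l 16611088) (l 2)) (l 2)) (l 2)) (l 2)) (l 2))), by decide +kernel⟩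

def k9_pp_022 : ∃ t, chk3 f_pp_022 t 7 1 1 = true :=
  ⟨(b (b (l 3) (b (b (b (b (l 3) (l 2)) (l 2)) (l 2)) (l 2))) (l 2)), by decide +kernel⟩

theorem s10_pp_022 : ∃ t, chk3 f_pp_022 t 3 1 1 = true := ex3_a k8_pp_022 k9_pp_022

theorem s11_pp_022 : ∃ t, chk3 f_pp_022 t 2 5 1 = true := ex3_b k5_pp_022 k6_pp_022

theorem s12_pp_022 : ∃ t, chk3 f_pp_022 t 2 9 1 = true := ex3_a k3_pp_022 k4_pp_022

theorem s13_pp_022 : ∃ t, chk3 f_pp_022 t 4 8 1 = true := ex3_a k0_pp_022 k1_pp_022

theorem s14_pp_022 : ∃ t, chk3 f_pp_022 t 2 8 1 = true := ex3_a s13_pp_022 k2_pp_022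

theorem s15_pp_022 : ∃ t, chk3 f_pp_022 t 2 4 1 = true := ex3_b s14_pp_022 s12_pp_022

theorem s16_pp_022 : ∃ t, chk3 f_pp_022 t 2 2 1 = true := ex3_b s15_pp_022 s11_pp_022

theorem s17_pp_022 : ∃ t, chk3 f_pp_022 t 2 1 1 = true := ex3_b s16_pp_022 k7_pp_022

theorem s18_pp_022 : ∃ t, chk3 f_pp_022 t 1 1 1 = true := ex3_a s17_pp_022 s10_pp_022

theorem c_pp_022 : CertB 0 536870912 1073741824 536870912 649613803 48318383 3 eng mog cd1q0 cd8q2 pd2 false true true .pp 0 2 2
    ndB1q0 ndB8q2 pcB2 cut_pp_022 Ext.none :=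
  certB1 (fam := false) (s1 := true) (s2 := true) (a := 0) (b := 2) (c := 2) (cn := .pp) (n1 := ndB1q0) (n2 := ndB8q2) (pc := pcB2) (cut := cut_pp_022) (xt := Ext.none) (P1 := 0) (W1 := 536870912) (P2 := 1073741824) (W2 := 536870912) (P3 := 649613803) (W3 := 48318383) (N0 := 3) (En := eng) (mo := mog) (C1 := cd1q0) (C2 := cd8q2) (C3 := pd2)
    rfl (fun _ => rfl) s18_pp_022

noncomputable def f_pp_023 : ℕ → ℕ → ℕ → ℕ → Bool := onCell 1073741824 536870912 0 1230186008 649613803 48318383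
    (rowB 3 eng mog cd1q0 cd8q3 pd2 2 false true true .up 0 2 3 (qsf 0 536870912 0 1230186008 2) ndB1q0 ndB8q3 pcB2 Cut.none Ext.none)

def k0_pp_023 : ∃ t, chk3 f_pp_023 t 1 2 1 = true :=
  ⟨(a (l 2) (a (l 2) (b (a (l 2) (l 16711384)) (b (a (l 16755600) (l 16781576)) (a (l 16741432) (l 16774472)))))), by decide +kernel⟩

def k1_pp_023 : ∃ t, chk3 f_pp_023 t 1 3 1 = true :=
  ⟨(a (a (b (l 2) (l 3)) (b (a (l 2) (b (l 2) (b (l 2) (l 438723873703)))) (a (a (a (b (l 3) (b (l 3) (a (l 3) (a (l 3) (b (l 3) (l 350207607159)))))) (b (a (l 3) (b (l 2) (a (l 3) (b (l 2) (a (l 16772928) (a (a (a (l 16771776) (l 16771480)) (l 16771064)) (l 16770168))))))) (a (b (a (l 3) (b (l 3) (l 16771432))) (a (b (l 378124878951) (b (l 16756064) (l 16745608))) (b (l 16782016) (l 16773312)))) (b (a (b (l 16804600) (a (l 16768560) (l 16765984))) (b (a (l 16770160) (a (a (a (l 16768968) (l 16768488)) (l 16767824)) (l 16766776))) (a (l 16763120) (l 16759232)))) (a (b (a (l 16756088) (l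 16752152)) (a (l 16735952) (l 16733328))) (b (a (l 16747480) (l 16784352)) (a (c (l 16750136) (l 16750576)) (b (l 16727224) (l 16716048))))))))) (b (b (l 16739832) (l 16742488)) (b (b (l 16736744) (l 16722096)) (b (l 16705656) (l 16749016))))) (b (b (l 16721192) (l 16691432)) (b (b (l 16665688) (l 16647048)) (b (l 16719856) (a (l 16623552) (l 16578488)))))))) (b (a (b (a (l 2) (b (l 16730416) (l 16727992))) (a (b (l 16733816) (l 16727864)) (l 16723104))) (b (b (a (l 16742408) (l 16769728)) (l 16745016)) (a (b (l 16726000) (l 16689560)) (b (l 16718544) (l 16652848))))) (b (a (b (a (l 16694232) (l 16659000)) (a (l 16637960) (l 16569552))) (b (l 16666152) (l 16506232))) (a (b (a (l 16587760) (l 16461128)) (a (b (l 16505576) (a (l 16488328) (l 16419784))) (b (l 16375560) (l 16313336)))) (b (a (l 16344040) (l 16220952)) (a (b (l 16236528) (l 16167640)) (b (l 16098904) (l 16030816)))))))), by decide +kernel⟩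

theorem s2_pp_023 : ∃ t, chk3 f_pp_023 t 1 1 1 = true := ex3_b k0_pp_023 k1_pp_023

theorem c_pp_023 : CertB 0 536870912 0 1230186008 649613803 48318383 3 eng mog cd1q0 cd8q3 pd2 false true true .up 0 2 3
    ndB1q0 ndB8q3 pcB2 Cut.none Ext.none :=
  certB2 (fam := false) (s1 := true) (s2 := true) (a := 0) (b := 2) (c := 3) (cn := .up) (n1 := ndB1q0) (n2 := ndB8q3) (pc := pcB2) (cut := Cut.none) (xt := Ext.none) (P1 := 0) (W1 := 536870912) (P2 := 0) (W2 := 1230186008) (P3 := 649613803) (W3 := 48318383) (N0 := 3) (En := eng) (mo := mog) (C1 := cd1q0) (C2 := cd8q3) (C3 := pd2)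
    rfl (fun _ => rfl) s2_pp_023

noncomputable def f_pp_033 : ℕ → ℕ → ℕ → ℕ → Bool := onCell 1610612736 536870912 0 1230186008 649613803 48318383
    (rowB 3 eng mog cd1q0 cd8q3 pd3 2 false true true .pnn 0 3 3 (qsf 0 536870912 0 1230186008 3) ndB1q0 ndB8q3 pcB3 Cut.none Ext.none)

def k0_pp_033 : ∃ t, chk3 f_pp_033 t 1 1 1 = true :=
  ⟨(b (b (a (a (a (l 16821960) (l 16647584)) (a (b (l 16602216) (l 16613968)) (l 16563032))) (a (a (l 16515160) (l 65196125191)) (l 4))) (b (a (a (a (l 16733720) (b (l 16673104) (l 16671000))) (a (b (l 16851056) (a (l 16625800) (l 16596888))) (l 16663944))) (a (a (l 16506600) (a (l 16465688) (l 16447064))) (a (a (l 16427360) (l 4)) (l 4)))) (a (a (a (l 16719048) (a (l 16665296) (l 16631776))) (a (a (a (l 16605704) (l 16587448)) (a (l 16579208) (l 16564680))) (b (l 16531816) (l 16502744)))) (a (a (a (l 16467288) (l 16502408)) (a (b (l 16441240) (l 16408296)) (l 16415472))) (a (a (l 16400888) (l 16405952)) (a (l 637299015447) (l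 1))))))) (b (a (a (b (a (l 16676200) (b (l 16616472) (l 16587376))) (a (b (l 16613288) (l 16540656)) (l 16500160))) (a (b (a (b (l 16559760) (l 16531688)) (a (l 16520096) (l 16500576))) (b (a (l 16481368) (l 16436488)) (l 16377200))) (b (b (l 16467784) (l 16424576)) (b (l 16369504) (l 16299640))))) (b (a (a (b (a (l 16412520) (l 16387184)) (a (l 16371304) (l 16345632))) (b (a (l 16370616) (l 16362072)) (a (l 16320600) (l 16308240)))) (a (a (b (l 16356488) (l 1)) (l 1)) (l 1))) (a (a (b (a (l 16311424) (l 16281808)) (a (l 16234456) (l 16198880))) (b (a (l 16255704) (l 1)) (l 1))) (l 1)))) (a (b (a (b (l 16392392) (l 16228232)) (a (l 16198888) (b (l 16198200) (l 1)))) (a (b (l 16070104) (a (l 16083504) (l 322154716423))) (b (a (l 15902744) (l 1)) (l 1)))) (l 1)))), by decide +kernel⟩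

theorem c_pp_033 : CertB 0 536870912 0 1230186008 649613803 48318383 3 eng mog cd1q0 cd8q3 pd3 false true true .pnn 0 3 3
    ndB1q0 ndB8q3 pcB3 Cut.none Ext.none :=
  certB2 (fam := false) (s1 := true) (s2 := true) (a := 0) (b := 3) (c := 3) (cn := .pnn) (n1 := ndB1q0) (n2 := ndB8q3) (pc := pcB3) (cut := Cut.none) (xt := Ext.none) (P1 := 0) (W1 := 536870912) (P2 := 0) (W2 := 1230186008) (P3 := 649613803) (W3 := 48318383) (N0 := 3) (En := eng) (mo := mog) (C1 := cd1q0) (C2 := cd8q3) (C3 := pd3)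
    rfl (fun _ => rfl) k0_pp_033

noncomputable def f_pp_101 : ℕ → ℕ → ℕ → ℕ → Bool := onCell 536870912 536870912 0 536870912 649613803 48318383
    (rowB 3 eng mog cd1q1 cd8q1 pd0 1 false true true .npn 1 0 1 (qsf 536870912 536870912 536870912 536870912 0) ndB1q1 ndB8q1 pcB0 Cut.none Ext.none)

def k0_pp_101 : ∃ t, chk3 f_pp_101 t 1 1 1 = true :=
  ⟨(l 3), by decide +kernel⟩

theorem c_pp_101 : CertB 536870912 536870912 536870912 536870912 649613803 48318383 3 eng mog cd1q1 cd8q1 pd0 false true true .npn 1 0 1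
    ndB1q1 ndB8q1 pcB0 Cut.none Ext.none :=
  certB1 (fam := false) (s1 := true) (s2 := true) (a := 1) (b := 0) (c := 1) (cn := .npn) (n1 := ndB1q1) (n2 := ndB8q1) (pc := pcB0) (cut := Cut.none) (xt := Ext.none) (P1 := 536870912) (W1 := 536870912) (P2 := 536870912) (W2 := 536870912) (P3 := 649613803) (W3 := 48318383) (N0 := 3) (En := eng) (mo := mog) (C1 := cd1q1) (C2 := cd8q1) (C3 := pd0)
    rfl (fun _ => rfl) k0_pp_101

noncomputable def f_pp_102 : ℕ → ℕ → ℕ → ℕ → Bool := onCell 536870912 536870912 0 536870912 649613803 48318383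
    (rowB 3 eng mog cd1q1 cd8q2 pd0 1 false true true .npp 1 0 2 (qsf 536870912 536870912 1073741824 536870912 0) ndB1q1 ndB8q2 pcB0 Cut.none Ext.none)

def k0_pp_102 : ∃ t, chk3 f_pp_102 t 1 1 1 = true :=
  ⟨(l 3), by decide +kernel⟩

theorem c_pp_102 : CertB 536870912 536870912 1073741824 536870912 649613803 48318383 3 eng mog cd1q1 cd8q2 pd0 false true true .npp 1 0 2
    ndB1q1 ndB8q2 pcB0 Cut.none Ext.none :=
  certB1 (fam := false) (s1 := true) (s2 := true) (a := 1) (b := 0) (c := 2) (cn := .npp) (n1 := ndB1q1) (n2 := ndB8q2) (pc := pcB0) (cut := Cut.none) (xt := Ext.none) (P1 := 536870912) (W1 := 536870912) (P2 := 1073741824) (W2 := 536870912) (P3 := 649613803) (W3 := 48318383) (N0 := 3) (En := eng) (mo := mog) (C1 := cd1q1) (C2 := cd8q2) (C3 := pd0)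
    rfl (fun _ => rfl) k0_pp_102

noncomputable def f_pp_112 : ℕ → ℕ → ℕ → ℕ → Bool := onCell 536870912 536870912 1073741824 536870912 649613803 48318383
    (rowB 3 eng mog cd1q1 cd8q2 pd1 0 false true true .dn 1 1 2 (qsf 536870912 536870912 1073741824 536870912 1) ndB1q1 ndB8q2 pcB1 Cut.none Ext.none)

def k0_pp_112 : ∃ t, chk3 f_pp_112 t 1 1 1 = true :=
  ⟨(a (l 3) (l 3)), by decide +kernel⟩

theorem c_pp_112 : CertB 536870912 536870912 1073741824 536870912 649613803 48318383 3 eng mog cd1q1 cd8q2 pd1 false true true .dn 1 1 2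
    ndB1q1 ndB8q2 pcB1 Cut.none Ext.none :=
  certB0 (fam := false) (s1 := true) (s2 := true) (a := 1) (b := 1) (c := 2) (cn := .dn) (n1 := ndB1q1) (n2 := ndB8q2) (pc := pcB1) (cut := Cut.none) (xt := Ext.none) (P1 := 536870912) (W1 := 536870912) (P2 := 1073741824) (W2 := 536870912) (P3 := 649613803) (W3 := 48318383) (N0 := 3) (En := eng) (mo := mog) (C1 := cd1q1) (C2 := cd8q2) (C3 := pd1)
    rfl k0_pp_112

noncomputable def f_pp_113 : ℕ → ℕ → ℕ → ℕ → Bool := onCell 536870912 536870912 0 1230186008 649613803 48318383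
    (rowB 3 eng mog cd1q1 cd8q3 pd1 2 false true true .nn 1 1 3 (qsf 536870912 536870912 0 1230186008 1) ndB1q1 ndB8q3 pcB1 Cut.none Ext.none)

def k0_pp_113 : ∃ t, chk3 f_pp_113 t 1 1 1 = true :=
  ⟨(b (a (l 2) (a (l 2) (b (a (l 2) (b (a (l 2) (a (l 2) (a (l 2) (b (l 1170479394359) (l 499994556007))))) (l 3))) (l 3)))) (a (b (a (l 2) (b (l 2) (a (l 2) (l 3)))) (a (b (l 2) (l 3)) (l 3))) (b (a (l 3) (l 3)) (l 3)))), by decide +kernel⟩

theorem c_pp_113 : CertB 536870912 536870912 0 1230186008 649613803 48318383 3 eng mog cd1q1 cd8q3 pd1 false true true .nn 1 1 3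
    ndB1q1 ndB8q3 pcB1 Cut.none Ext.none :=
  certB2 (fam := false) (s1 := true) (s2 := true) (a := 1) (b := 1) (c := 3) (cn := .nn) (n1 := ndB1q1) (n2 := ndB8q3) (pc := pcB1) (cut := Cut.none) (xt := Ext.none) (P1 := 536870912) (W1 := 536870912) (P2 := 0) (W2 := 1230186008) (P3 := 649613803) (W3 := 48318383) (N0 := 3) (En := eng) (mo := mog) (C1 := cd1q1) (C2 := cd8q3) (C3 := pd1)
    rfl (fun _ => rfl) k0_pp_113

noncomputable def f_pp_123 : ℕ → ℕ → ℕ → ℕ → Bool := onCell 1073741824 536870912 0 1230186008 649613803 48318383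
    (rowB 3 eng mog cd1q1 cd8q3 pd2 2 false true true .npn 1 2 3 (qsf 536870912 536870912 0 1230186008 2) ndB1q1 ndB8q3 pcB2 Cut.none Ext.none)

def k0_pp_123 : ∃ t, chk3 f_pp_123 t 4 1 1 = true :=
  ⟨(b (a (b (b (a (b (l 16765272) (a (b (l 16779016) (l 355039516663)) (l 16813184))) (b (l 16742536) (l 16757920))) (a (b (a (l 3) (l 333564603303)) (l 3)) (b (a (b (l 16773352) (l 237464865223)) (l 16764496)) (a (l 378124887207) (b (l 16776288) (l 313163675943)))))) (b (a (l 3) (b (a (l 3) (l 463487367367)) (l 3))) (l 3))) (b (a (b (l 16722208) (b (l 16753888) (a (l 16808928) (l 16763264)))) (b (l 16690464) (a (l 16788760) (l 16759520)))) (a (b (b (a (b (a (l 16826976) (l 16777536)) (l 410874146727)) (a (b (l 16774576) (l 16801696)) (l 16835480))) (a (l 567640323735) (a (l 521469499895) (b (l 321753579559) (l 523616991463))))) (l 3)) (b (a (b (b (l 16765600) (l 16832568)) (b (l 16820776) (a (a (l 16783848) (l 16783696)) (l 16780472)))) (b (b (l 16756432) (l 16764296))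 (b (l 16771760) (l 16818688)))) (a (b (a (b (l 551534258343) (l 3)) (b (l 16781424) (l 547239269719))) (l 3)) (b (a (b (l 16778840) (l 16778320)) (b (l 16778696) (l 16777080))) (a (b (l 525764412679) (l 584820178023)) (b (l 16771384) (a (l 16766304) (l 16764720)))))))))) (b (a (l 3) (a (l 3) (b (a (l 3) (b (a (l 3) (b (l 521469356167) (l 3))) (l 3))) (l 3)))) (l 3))), by decide +kernel⟩

def k1_pp_123 : ∃ t, chk3 f_pp_123 t 5 2 1 = true :=
  ⟨(b (a (b (a (a (l 16663432) (l 16646280)) (l 16727328)) (a (a (l 16723152) (a (l 16714616) (l 16714216))) (l 16698720))) (b (l 16627560) (l 16695432))) (a (a (a (b (b (l 16751608) (a (l 16768928) (l 16764544))) (b (b (l 16839216) (a (l 16774112) (l 16772312))) (a (b (l 16770048) (l 16764048)) (b (l 16766584) (l 16764928))))) (b (a (b (l 16747008) (l 16760912)) (a (l 16793448) (a (l 16793792) (b (l 16745712) (l 16759744))))) (a (b (l 16794904) (b (l 16767920) (l 16764288))) (b (a (l 16771656) (b (l 16767752) (l 16850688)))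 (a (l 16766312) (a (l 16764248) (l 16827312))))))) (b (b (l 16739160) (l 16754256)) (b (l 16762496) (l 16759528)))) (b (b (l 16731272) (l 16741472)) (b (l 16747192) (l 16746672))))), by decide +kernel⟩

def k2_pp_123 : ∃ t, chk3 f_pp_123 t 5 3 1 = true :=
  ⟨(b (a (a (a (b (a (b (b (a (l 16760384) (l 16760336)) (l 498920739831)) (l 3)) (b (b (l 16761704) (a (l 16760056) (l 16762224))) (b (l 469392837639) (l 441475553943)))) (l 3)) (b (a (b (a (l 16764424) (l 16766264)) (a (l 16765352) (l 16770280))) (b (a (l 16764952) (a (l 16763904) (b (l 16759144) (l 16762400)))) (a (l 16772008) (a (l 16770848) (l 16765688))))) (a (b (a (l 16765344) (l 16769448)) (l 3)) (b (a (l 16775160) (a (l 16778136) (l 16797912))) (a (l 537575650231) (a (l 16837704) (a (b (l 16776784) (l 16764848)) (l 16777248)))))))) (b (b (l 16757584) (l 16767896)) (b (l 16779704) (l 16778232)))) (b (b (l 16742440) (l 16745064)) (b (l 16759960) (l 16755216)))) (a (a (a (b (l 3) (b (l 3) (l 1))) (b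 (a (l 3) (a (l 3) (a (b (l 809769178247) (a (l 16762856) (l 16785008))) (b (b (c (l 16775832) (l 16753704)) (l 16772544)) (a (a (a (l 16764808) (a (l 16765080) (l 16765248))) (l 16765616)) (l 16766616)))))) (l 1))) (b (b (l 16777728) (l 16775496)) (l 1))) (b (b (l 16731424) (l 1)) (l 1)))), by decide +kernel⟩

def k3_pp_123 : ∃ t, chk3 f_pp_123 t 3 1 1 = true :=
  ⟨(b (b (a (a (b (l 16647416) (l 16705296)) (b (l 16658096) (l 16732184))) (a (b (l 16688576) (l 16774056)) (l 16731328))) (a (b (a (l 16732488) (l 16736832)) (a (b (l 16733496) (l 16731232)) (l 16872168))) (b (a (l 16745720) (l 16764176)) (a (l 16733808) (l 16758296))))) (b (a (b (a (b (l 16721648) (l 16715944)) (b (l 16727344) (l 16726248))) (a (b (l 16736696) (l 16743296)) (l 16738104))) (b (b (l 16747920) (l 1)) (l 1))) (l 1))), by decide +kernel⟩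

theorem s4_pp_123 : ∃ t, chk3 f_pp_123 t 5 1 1 = true := ex3_b k1_pp_123 k2_pp_123

theorem s5_pp_123 : ∃ t, chk3 f_pp_123 t 2 1 1 = true := ex3_a k0_pp_123 s4_pp_123

theorem s6_pp_123 : ∃ t, chk3 f_pp_123 t 1 1 1 = true := ex3_a s5_pp_123 k3_pp_123

theorem c_pp_123 : CertB 536870912 536870912 0 1230186008 649613803 48318383 3 eng mog cd1q1 cd8q3 pd2 false true true .npn 1 2 3
    ndB1q1 ndB8q3 pcB2 Cut.none Ext.none :=
  certB2 (fam := false) (s1 := true) (s2 := true) (a := 1) (b := 2) (c := 3) (cn := .npn) (n1 := ndB1q1) (n2 := ndB8q3) (pc := pcB2) (cut := Cut.none) (xt := Ext.none) (P1 := 536870912) (W1 := 536870912) (P2 := 0) (W2 := 1230186008) (P3 := 649613803) (W3 := 48318383) (N0 := 3) (En := eng) (mo := mog) (C1 := cd1q1) (C2 := cd8q3) (C3 := pd2)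
    rfl (fun _ => rfl) s6_pp_123

noncomputable def f_pp_133 : ℕ → ℕ → ℕ → ℕ → Bool := onCell 536870912 536870912 0 1230186008 649613803 48318383
    (rowB 3 eng mog cd1q1 cd8q3 pd3 0 false true true .dn 1 3 3 (qsf 536870912 536870912 0 1230186008 3) ndB1q1 ndB8q3 pcB3 Cut.none Ext.none)

def k0_pp_133 : ∃ t, chk3 f_pp_133 t 1 1 1 = true :=
  ⟨(b (b (a (a (a (l 16850416) (l 1)) (l 1)) (l 1)) (l 1)) (l 1)), by decide +kernel⟩

theorem c_pp_133 : CertB 536870912 536870912 0 1230186008 649613803 48318383 3 eng mog cd1q1 cd8q3 pd3 false true true .dn 1 3 3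
    ndB1q1 ndB8q3 pcB3 Cut.none Ext.none :=
  certB0 (fam := false) (s1 := true) (s2 := true) (a := 1) (b := 3) (c := 3) (cn := .dn) (n1 := ndB1q1) (n2 := ndB8q3) (pc := pcB3) (cut := Cut.none) (xt := Ext.none) (P1 := 536870912) (W1 := 536870912) (P2 := 0) (W2 := 1230186008) (P3 := 649613803) (W3 := 48318383) (N0 := 3) (En := eng) (mo := mog) (C1 := cd1q1) (C2 := cd8q3) (C3 := pd3)
    rfl k0_pp_133

noncomputable def f_pp_202_a : ℕ → ℕ → ℕ → ℕ → Bool := onCell 0 536870912 1073741824 536870912 649613803 48318383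
    (rowB 3 eng mog cd1q2a cd8q2 pd0 0 false true true .pp 2 0 2 (qsf 0 536870912 1073741824 536870912 0) ndB1q2a ndB8q2 pcB0 Cut.none Ext.none)

def k0_pp_202_a : ∃ t, chk3 f_pp_202_a t 1 1 1 = true :=
  ⟨(l 5), by decide +kernel⟩

theorem c_pp_202_a : CertB 0 536870912 1073741824 536870912 649613803 48318383 3 eng mog cd1q2a cd8q2 pd0 false true true .pp 2 0 2
    ndB1q2a ndB8q2 pcB0 Cut.none Ext.none :=
  certB0 (fam := false) (s1 := true) (s2 := true) (a := 2) (b := 0) (c := 2) (cn := .pp) (n1 := ndB1q2a) (n2 := ndB8q2) (pc := pcB0) (cut := Cut.none) (xt := Ext.none) (P1 := 0) (W1 := 536870912) (P2 := 1073741824) (W2 := 536870912) (P3 := 649613803) (W3 := 48318383) (N0 := 3) (En := eng) (mo := mog) (C1 := cd1q2a) (C2 := cd8q2) (C3 := pd0)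
    rfl k0_pp_202_a

noncomputable def f_pp_202_b : ℕ → ℕ → ℕ → ℕ → Bool := onCell 1239849684 370763052 1073741824 536870912 649613803 48318383
    (rowB 3 eng mog cd1q2b cd8q2 pd0 0 false true true .pp 2 0 2 (qsf 1239849684 370763052 1073741824 536870912 0) ndB1q2b ndB8q2 pcB0 Cut.none Ext.none)

def k0_pp_202_b : ∃ t, chk3 f_pp_202_b t 1 1 1 = true :=
  ⟨(l 5), by decide +kernel⟩

theorem c_pp_202_b : CertB 1239849684 370763052 1073741824 536870912 649613803 48318383 3 eng mog cd1q2b cd8q2 pd0 false true true .pp 2 0 2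
    ndB1q2b ndB8q2 pcB0 Cut.none Ext.none :=
  certB0 (fam := false) (s1 := true) (s2 := true) (a := 2) (b := 0) (c := 2) (cn := .pp) (n1 := ndB1q2b) (n2 := ndB8q2) (pc := pcB0) (cut := Cut.none) (xt := Ext.none) (P1 := 1239849684) (W1 := 370763052) (P2 := 1073741824) (W2 := 536870912) (P3 := 649613803) (W3 := 48318383) (N0 := 3) (En := eng) (mo := mog) (C1 := cd1q2b) (C2 := cd8q2) (C3 := pd0)
    rfl k0_pp_202_b

noncomputable def f_pp_203_a : ℕ → ℕ → ℕ → ℕ → Bool := onCell 0 536870912 0 1230186008 649613803 48318383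
    (rowB 3 eng mog cd1q2a cd8q3 pd0 0 false true true .up 2 0 3 (qsf 0 536870912 0 1230186008 0) ndB1q2a ndB8q3 pcB0 Cut.none Ext.none)

def k0_pp_203_a : ∃ t, chk3 f_pp_203_a t 1 1 1 = true :=
  ⟨(b (l 2) (a (l 5) (l 3))), by decide +kernel⟩

theorem c_pp_203_a : CertB 0 536870912 0 1230186008 649613803 48318383 3 eng mog cd1q2a cd8q3 pd0 false true true .up 2 0 3
    ndB1q2a ndB8q3 pcB0 Cut.none Ext.none :=
  certB0 (fam := false) (s1 := true) (s2 := true) (a := 2) (b := 0) (c := 3) (cn := .up) (n1 := ndB1q2a) (n2 := ndB8q3) (pc := pcB0) (cut := Cut.none) (xt := Ext.none) (P1 := 0) (W1 := 536870912) (P2 := 0) (W2 := 1230186008) (P3 := 649613803) (W3 := 48318383) (N0 := 3) (En := eng) (mo := mog) (C1 := cd1q2a) (C2 := cd8q3) (C3 := pd0)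
    rfl k0_pp_203_a

noncomputable def f_pp_203_b : ℕ → ℕ → ℕ → ℕ → Bool := onCell 1239849684 370763052 0 1230186008 649613803 48318383
    (rowB 3 eng mog cd1q2b cd8q3 pd0 0 false true true .up 2 0 3 (qsf 1239849684 370763052 0 1230186008 0) ndB1q2b ndB8q3 pcB0 Cut.none Ext.none)

def k0_pp_203_b : ∃ t, chk3 f_pp_203_b t 1 1 1 = true :=
  ⟨(b (l 3) (l 5)), by decide +kernel⟩

theorem c_pp_203_b : CertB 1239849684 370763052 0 1230186008 649613803 48318383 3 eng mog cd1q2b cd8q3 pd0 false true true .up 2 0 3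
    ndB1q2b ndB8q3 pcB0 Cut.none Ext.none :=
  certB0 (fam := false) (s1 := true) (s2 := true) (a := 2) (b := 0) (c := 3) (cn := .up) (n1 := ndB1q2b) (n2 := ndB8q3) (pc := pcB0) (cut := Cut.none) (xt := Ext.none) (P1 := 1239849684) (W1 := 370763052) (P2 := 0) (W2 := 1230186008) (P3 := 649613803) (W3 := 48318383) (N0 := 3) (En := eng) (mo := mog) (C1 := cd1q2b) (C2 := cd8q3) (C3 := pd0)
    rfl k0_pp_203_b

noncomputable def cut_pp_213_a : Cut := Cut.of [[⟨0, 1, 0, 67108864⟩, ⟨1, 1, 0, 67108864⟩, ⟨2, 2, 0, 16777216⟩]]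

noncomputable def f_pp_213_a : ℕ → ℕ → ℕ → ℕ → Bool := onCell 0 536870912 0 1230186008 649613803 48318383
    (rowB 3 eng mog cd1q2a cd8q3 pd1 0 false true true .pnn 2 1 3 (qsf 0 536870912 0 1230186008 1) ndB1q2a ndB8q3 pcB1 cut_pp_213_a Ext.none)

def k0_pp_213_a : ∃ t, chk3 f_pp_213_a t 1 1 1 = true :=
  ⟨(a (b (l 3) (l 5)) (b (b (a (l 3) (b (a (l 3) (l 6)) (l 3))) (l 3)) (l 3))), by decide +kernel⟩

theorem c_pp_213_a : CertB 0 536870912 0 1230186008 649613803 48318383 3 eng mog cd1q2a cd8q3 pd1 false true true .pnn 2 1 3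
    ndB1q2a ndB8q3 pcB1 cut_pp_213_a Ext.none :=
  certB0 (fam := false) (s1 := true) (s2 := true) (a := 2) (b := 1) (c := 3) (cn := .pnn) (n1 := ndB1q2a) (n2 := ndB8q3) (pc := pcB1) (cut := cut_pp_213_a) (xt := Ext.none) (P1 := 0) (W1 := 536870912) (P2 := 0) (W2 := 1230186008) (P3 := 649613803) (W3 := 48318383) (N0 := 3) (En := eng) (mo := mog) (C1 := cd1q2a) (C2 := cd8q3) (C3 := pd1)
    rfl k0_pp_213_a

noncomputable def cut_pp_213_b : Cut := Cut.of [[⟨0, 1, 0, 67108864⟩, ⟨1, 1, 0, 67108864⟩, ⟨2, 2, 0, 16777216⟩]]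

noncomputable def f_pp_213_b : ℕ → ℕ → ℕ → ℕ → Bool := onCell 1239849684 370763052 0 1230186008 649613803 48318383
    (rowB 3 eng mog cd1q2b cd8q3 pd1 0 false true true .pnn 2 1 3 (qsf 1239849684 370763052 0 1230186008 1) ndB1q2b ndB8q3 pcB1 cut_pp_213_b Ext.none)

def k0_pp_213_b : ∃ t, chk3 f_pp_213_b t 1 1 1 = true :=
  ⟨(b (l 3) (l 5)), by decide +kernel⟩

theorem c_pp_213_b : CertB 1239849684 370763052 0 1230186008 649613803 48318383 3 eng mog cd1q2b cd8q3 pd1 false true true .pnn 2 1 3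
    ndB1q2b ndB8q3 pcB1 cut_pp_213_b Ext.none :=
  certB0 (fam := false) (s1 := true) (s2 := true) (a := 2) (b := 1) (c := 3) (cn := .pnn) (n1 := ndB1q2b) (n2 := ndB8q3) (pc := pcB1) (cut := cut_pp_213_b) (xt := Ext.none) (P1 := 1239849684) (W1 := 370763052) (P2 := 0) (W2 := 1230186008) (P3 := 649613803) (W3 := 48318383) (N0 := 3) (En := eng) (mo := mog) (C1 := cd1q2b) (C2 := cd8q3) (C3 := pd1)
    rfl k0_pp_213_b

noncomputable def f_pp_303 : ℕ → ℕ → ℕ → ℕ → Bool := onCell 1610612736 536870912 0 1230186008 649613803 48318383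
    (rowB 3 eng mog cd1q3 cd8q3 pd0 0 false true true .npn 3 0 3 (qsf 1610612736 536870912 0 1230186008 0) ndB1q3 ndB8q3 pcB0 Cut.none Ext.none)

def k0_pp_303 : ∃ t, chk3 f_pp_303 t 1 1 1 = true :=
  ⟨(b (l 3) (l 5)), by decide +kernel⟩

theorem c_pp_303 : CertB 1610612736 536870912 0 1230186008 649613803 48318383 3 eng mog cd1q3 cd8q3 pd0 false true true .npn 3 0 3
    ndB1q3 ndB8q3 pcB0 Cut.none Ext.none :=
  certB0 (fam := false) (s1 := true) (s2 := true) (a := 3) (b := 0) (c := 3) (cn := .npn) (n1 := ndB1q3) (n2 := ndB8q3) (pc := pcB0) (cut := Cut.none) (xt := Ext.none) (P1 := 1610612736) (W1 := 536870912) (P2 := 0) (W2 := 1230186008) (P3 := 649613803) (W3 := 48318383) (N0 := 3) (En := eng) (mo := mog) (C1 := cd1q3) (C2 := cd8q3) (C3 := pd0)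
    rfl k0_pp_303

noncomputable def f_pp_313 : ℕ → ℕ → ℕ → ℕ → Bool := onCell 1610612736 536870912 0 1230186008 649613803 48318383
    (rowB 3 eng mog cd1q3 cd8q3 pd1 0 false true true .dn 3 1 3 (qsf 1610612736 536870912 0 1230186008 1) ndB1q3 ndB8q3 pcB1 Cut.none Ext.none)

def k0_pp_313 : ∃ t, chk3 f_pp_313 t 1 1 1 = true :=
  ⟨(b (l 3) (l 1)), by decide +kernel⟩

theorem c_pp_313 : CertB 1610612736 536870912 0 1230186008 649613803 48318383 3 eng mog cd1q3 cd8q3 pd1 false true true .dn 3 1 3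
    ndB1q3 ndB8q3 pcB1 Cut.none Ext.none :=
  certB0 (fam := false) (s1 := true) (s2 := true) (a := 3) (b := 1) (c := 3) (cn := .dn) (n1 := ndB1q3) (n2 := ndB8q3) (pc := pcB1) (cut := Cut.none) (xt := Ext.none) (P1 := 1610612736) (W1 := 536870912) (P2 := 0) (W2 := 1230186008) (P3 := 649613803) (W3 := 48318383) (N0 := 3) (En := eng) (mo := mog) (C1 := cd1q3) (C2 := cd8q3) (C3 := pd1)
    rfl k0_pp_313

noncomputable def f_pm_001 : ℕ → ℕ → ℕ → ℕ → Bool := onCell 0 536870912 536870912 536870912 649613803 48318383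
    (rowB 3 eng mog cd1q0 cd8q1 pd0 0 false true false .up 0 0 1 (qsf 0 536870912 536870912 536870912 0) ndB1q0 ndB8q1 pcB0 Cut.none Ext.none)

def k0_pm_001 : ∃ t, chk3 f_pm_001 t 1 1 1 = true :=
  ⟨(l 4), by decide +kernel⟩

theorem c_pm_001 : CertB 0 536870912 536870912 536870912 649613803 48318383 3 eng mog cd1q0 cd8q1 pd0 false true false .up 0 0 1
    ndB1q0 ndB8q1 pcB0 Cut.none Ext.none :=
  certB0 (fam := false) (s1 := true) (s2 := false) (a := 0) (b := 0) (c := 1) (cn := .up) (n1 := ndB1q0) (n2 := ndB8q1) (pc := pcB0) (cut := Cut.none) (xt := Ext.none) (P1 := 0) (W1 := 536870912) (P2 := 536870912) (W2 := 536870912) (P3 := 649613803) (W3 := 48318383) (N0 := 3) (En := eng) (mo := mog) (C1 := cd1q0) (C2 := cd8q1) (C3 := pd0)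
    rfl k0_pm_001

noncomputable def f_pm_011 : ℕ → ℕ → ℕ → ℕ → Bool := onCell 0 536870912 536870912 536870912 649613803 48318383
    (rowB 3 eng mog cd1q0 cd8q1 pd1 0 false true false .pnn 0 1 1 (qsf 0 536870912 536870912 536870912 1) ndB1q0 ndB8q1 pcB1 Cut.none Ext.none)

def k0_pm_011 : ∃ t, chk3 f_pm_011 t 1 1 1 = true :=
  ⟨(l 4), by decide +kernel⟩

theorem c_pm_011 : CertB 0 536870912 536870912 536870912 649613803 48318383 3 eng mog cd1q0 cd8q1 pd1 false true false .pnn 0 1 1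
    ndB1q0 ndB8q1 pcB1 Cut.none Ext.none :=
  certB0 (fam := false) (s1 := true) (s2 := false) (a := 0) (b := 1) (c := 1) (cn := .pnn) (n1 := ndB1q0) (n2 := ndB8q1) (pc := pcB1) (cut := Cut.none) (xt := Ext.none) (P1 := 0) (W1 := 536870912) (P2 := 536870912) (W2 := 536870912) (P3 := 649613803) (W3 := 48318383) (N0 := 3) (En := eng) (mo := mog) (C1 := cd1q0) (C2 := cd8q1) (C3 := pd1)
    rfl k0_pm_011

noncomputable def f_pm_012 : ℕ → ℕ → ℕ → ℕ → Bool := onCell 0 536870912 1073741824 536870912 649613803 48318383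
    (rowB 3 eng mog cd1q0 cd8q2 pd1 0 false true false .pnp 0 1 2 (qsf 0 536870912 1073741824 536870912 1) ndB1q0 ndB8q2 pcB1 Cut.none Ext.none)

def k0_pm_012 : ∃ t, chk3 f_pm_012 t 1 1 1 = true :=
  ⟨(l 4), by decide +kernel⟩

theorem c_pm_012 : CertB 0 536870912 1073741824 536870912 649613803 48318383 3 eng mog cd1q0 cd8q2 pd1 false true false .pnp 0 1 2
    ndB1q0 ndB8q2 pcB1 Cut.none Ext.none :=
  certB0 (fam := false) (s1 := true) (s2 := false) (a := 0) (b := 1) (c := 2) (cn := .pnp) (n1 := ndB1q0) (n2 := ndB8q2) (pc := pcB1) (cut := Cut.none) (xt := Ext.none) (P1 := 0) (W1 := 536870912) (P2 := 1073741824) (W2 := 536870912) (P3 := 649613803) (W3 := 48318383) (N0 := 3) (En := eng) (mo := mog) (C1 := cd1q0) (C2 := cd8q2) (C3 := pd1)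
    rfl k0_pm_012

noncomputable def f_pm_022 : ℕ → ℕ → ℕ → ℕ → Bool := onCell 0 536870912 1073741824 536870912 649613803 48318383
    (rowB 3 eng mog cd1q0 cd8q2 pd2 0 false true false .pp 0 2 2 (qsf 0 536870912 1073741824 536870912 2) ndB1q0 ndB8q2 pcB2 Cut.none Ext.none)

def k0_pm_022 : ∃ t, chk3 f_pm_022 t 1 1 1 = true :=
  ⟨(l 4), by decide +kernel⟩

theorem c_pm_022 : CertB 0 536870912 1073741824 536870912 649613803 48318383 3 eng mog cd1q0 cd8q2 pd2 false true false .pp 0 2 2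
    ndB1q0 ndB8q2 pcB2 Cut.none Ext.none :=
  certB0 (fam := false) (s1 := true) (s2 := false) (a := 0) (b := 2) (c := 2) (cn := .pp) (n1 := ndB1q0) (n2 := ndB8q2) (pc := pcB2) (cut := Cut.none) (xt := Ext.none) (P1 := 0) (W1 := 536870912) (P2 := 1073741824) (W2 := 536870912) (P3 := 649613803) (W3 := 48318383) (N0 := 3) (En := eng) (mo := mog) (C1 := cd1q0) (C2 := cd8q2) (C3 := pd2)
    rfl k0_pm_022

noncomputable def f_pm_023 : ℕ → ℕ → ℕ → ℕ → Bool := onCell 0 536870912 0 1230186008 649613803 48318383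
    (rowB 3 eng mog cd1q0 cd8q3 pd2 0 false true false .up 0 2 3 (qsf 0 536870912 0 1230186008 2) ndB1q0 ndB8q3 pcB2 Cut.none Ext.none)

def k0_pm_023 : ∃ t, chk3 f_pm_023 t 1 1 1 = true :=
  ⟨(b (b (a (l 2) (a (l 2) (a (l 2) (b (l 16660648) (l 16683728))))) (l 4)) (l 4)), by decide +kernel⟩

theorem c_pm_023 : CertB 0 536870912 0 1230186008 649613803 48318383 3 eng mog cd1q0 cd8q3 pd2 false true false .up 0 2 3
    ndB1q0 ndB8q3 pcB2 Cut.none Ext.none :=
  certB0 (fam := false) (s1 := true) (s2 := false) (a := 0) (b := 2) (c := 3) (cn := .up) (n1 := ndB1q0) (n2 := ndB8q3) (pc := pcB2) (cut := Cut.none) (xt := Ext.none) (P1 := 0) (W1 := 536870912) (P2 := 0) (W2 := 1230186008) (P3 := 649613803) (W3 := 48318383) (N0 := 3) (En := eng) (mo := mog) (C1 := cd1q0) (C2 := cd8q3) (C3 := pd2)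
    rfl k0_pm_023

noncomputable def f_pm_033 : ℕ → ℕ → ℕ → ℕ → Bool := onCell 0 536870912 0 1230186008 649613803 48318383
    (rowB 3 eng mog cd1q0 cd8q3 pd3 0 false true false .pnn 0 3 3 (qsf 0 536870912 0 1230186008 3) ndB1q0 ndB8q3 pcB3 Cut.none Ext.none)

def k0_pm_033 : ∃ t, chk3 f_pm_033 t 1 1 1 = true :=
  ⟨(b (b (a (l 4) (a (a (l 4) (l 16584896)) (a (l 16615656) (l 16832000)))) (l 4)) (l 4)), by decide +kernel⟩

theorem c_pm_033 : CertB 0 536870912 0 1230186008 649613803 48318383 3 eng mog cd1q0 cd8q3 pd3 false true false .pnn 0 3 3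
    ndB1q0 ndB8q3 pcB3 Cut.none Ext.none :=
  certB0 (fam := false) (s1 := true) (s2 := false) (a := 0) (b := 3) (c := 3) (cn := .pnn) (n1 := ndB1q0) (n2 := ndB8q3) (pc := pcB3) (cut := Cut.none) (xt := Ext.none) (P1 := 0) (W1 := 536870912) (P2 := 0) (W2 := 1230186008) (P3 := 649613803) (W3 := 48318383) (N0 := 3) (En := eng) (mo := mog) (C1 := cd1q0) (C2 := cd8q3) (C3 := pd3)
    rfl k0_pm_033

noncomputable def f_pm_101 : ℕ → ℕ → ℕ → ℕ → Bool := onCell 536870912 536870912 536870912 536870912 649613803 48318383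
    (rowB 3 eng mog cd1q1 cd8q1 pd0 0 false true false .npn 1 0 1 (qsf 536870912 536870912 536870912 536870912 0) ndB1q1 ndB8q1 pcB0 Cut.none Ext.none)

def k0_pm_101 : ∃ t, chk3 f_pm_101 t 1 1 1 = true :=
  ⟨(l 4), by decide +kernel⟩

theorem c_pm_101 : CertB 536870912 536870912 536870912 536870912 649613803 48318383 3 eng mog cd1q1 cd8q1 pd0 false true false .npn 1 0 1
    ndB1q1 ndB8q1 pcB0 Cut.none Ext.none :=
  certB0 (fam := false) (s1 := true) (s2 := false) (a := 1) (b := 0) (c := 1) (cn := .npn) (n1 := ndB1q1) (n2 := ndB8q1) (pc := pcB0) (cut := Cut.none) (xt := Ext.none) (P1 := 536870912) (W1 := 536870912) (P2 := 536870912) (W2 := 536870912) (P3 := 649613803) (W3 := 48318383) (N0 := 3) (En := eng) (mo := mog) (C1 := cd1q1) (C2 := cd8q1) (C3 := pd0)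
    rfl k0_pm_101

noncomputable def f_pm_102 : ℕ → ℕ → ℕ → ℕ → Bool := onCell 536870912 536870912 1073741824 536870912 649613803 48318383
    (rowB 3 eng mog cd1q1 cd8q2 pd0 0 false true false .npp 1 0 2 (qsf 536870912 536870912 1073741824 536870912 0) ndB1q1 ndB8q2 pcB0 Cut.none Ext.none)

def k0_pm_102 : ∃ t, chk3 f_pm_102 t 1 1 1 = true :=
  ⟨(a (l 4) (b (l 4) (l 4))), by decide +kernel⟩

theorem c_pm_102 : CertB 536870912 536870912 1073741824 536870912 649613803 48318383 3 eng mog cd1q1 cd8q2 pd0 false true false .npp 1 0 2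
    ndB1q1 ndB8q2 pcB0 Cut.none Ext.none :=
  certB0 (fam := false) (s1 := true) (s2 := false) (a := 1) (b := 0) (c := 2) (cn := .npp) (n1 := ndB1q1) (n2 := ndB8q2) (pc := pcB0) (cut := Cut.none) (xt := Ext.none) (P1 := 536870912) (W1 := 536870912) (P2 := 1073741824) (W2 := 536870912) (P3 := 649613803) (W3 := 48318383) (N0 := 3) (En := eng) (mo := mog) (C1 := cd1q1) (C2 := cd8q2) (C3 := pd0)
    rfl k0_pm_102

noncomputable def f_pm_112 : ℕ → ℕ → ℕ → ℕ → Bool := onCell 536870912 536870912 1073741824 536870912 649613803 48318383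
    (rowB 3 eng mog cd1q1 cd8q2 pd1 0 false true false .dn 1 1 2 (qsf 536870912 536870912 1073741824 536870912 1) ndB1q1 ndB8q2 pcB1 Cut.none Ext.none)

def k0_pm_112 : ∃ t, chk3 f_pm_112 t 1 1 1 = true :=
  ⟨(b (l 4) (a (l 4) (l 4))), by decide +kernel⟩

theorem c_pm_112 : CertB 536870912 536870912 1073741824 536870912 649613803 48318383 3 eng mog cd1q1 cd8q2 pd1 false true false .dn 1 1 2
    ndB1q1 ndB8q2 pcB1 Cut.none Ext.none :=
  certB0 (fam := false) (s1 := true) (s2 := false) (a := 1) (b := 1) (c := 2) (cn := .dn) (n1 := ndB1q1) (n2 := ndB8q2) (pc := pcB1) (cut := Cut.none) (xt := Ext.none) (P1 := 536870912) (W1 := 536870912) (P2 := 1073741824) (W2 := 536870912) (P3 := 649613803) (W3 := 48318383) (N0 := 3) (En := eng) (mo := mog) (C1 := cd1q1) (C2 := cd8q2) (C3 := pd1)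
    rfl k0_pm_112

noncomputable def f_pm_113 : ℕ → ℕ → ℕ → ℕ → Bool := onCell 536870912 536870912 0 1230186008 649613803 48318383
    (rowB 3 eng mog cd1q1 cd8q3 pd1 0 false true false .nn 1 1 3 (qsf 536870912 536870912 0 1230186008 1) ndB1q1 ndB8q3 pcB1 Cut.none Ext.none)

def k0_pm_113 : ∃ t, chk3 f_pm_113 t 1 1 1 = true :=
  ⟨(b (a (l 2) (a (l 2) (b (a (l 2) (a (l 2) (b (b (l 16762536) (l 16768256)) (l 16769600)))) (b (a (l 382889789671) (b (l 16775168) (l 16770856))) (a (l 16651456) (l 16832128)))))) (b (a (b (l 2) (l 4)) (a (b (a (l 2) (b (l 16506088) (l 16474192))) (a (b (l 16345760) (l 4)) (b (l 16450096) (l 16451736)))) (b (b (a (l 16727432) (l 16711112)) (a (l 16588432) (l 16513296))) (a (b (l 16557048) (l 16764648)) (b (l 16568696) (l 16612640)))))) (a (l 4) (b (a (l 4) (b (a (l 16578872) (l 16666288)) (a (l 16556192) (l 16670352)))) (a (l 4) (b (l 16721576) (a (l 4) (l 16694704)))))))), by decide +kernel⟩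

theorem c_pm_113 : CertB 536870912 536870912 0 1230186008 649613803 48318383 3 eng mog cd1q1 cd8q3 pd1 false true false .nn 1 1 3
    ndB1q1 ndB8q3 pcB1 Cut.none Ext.none :=
  certB0 (fam := false) (s1 := true) (s2 := false) (a := 1) (b := 1) (c := 3) (cn := .nn) (n1 := ndB1q1) (n2 := ndB8q3) (pc := pcB1) (cut := Cut.none) (xt := Ext.none) (P1 := 536870912) (W1 := 536870912) (P2 := 0) (W2 := 1230186008) (P3 := 649613803) (W3 := 48318383) (N0 := 3) (En := eng) (mo := mog) (C1 := cd1q1) (C2 := cd8q3) (C3 := pd1)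
    rfl k0_pm_113

noncomputable def f_pm_123 : ℕ → ℕ → ℕ → ℕ → Bool := onCell 1073741824 536870912 0 1230186008 649613803 48318383
    (rowB 3 eng mog cd1q1 cd8q3 pd2 2 false true false .npn 1 2 3 (qsf 536870912 536870912 0 1230186008 2) ndB1q1 ndB8q3 pcB2 Cut.none Ext.none)

def k0_pm_123 : ∃ t, chk3 f_pm_123 t 1 1 1 = true :=
  ⟨(b (a (a (b (a (b (a (l 16834608) (l 16719560)) (a (l 16749536) (l 16711576))) (b (l 16665520) (a (l 16663088) (l 16609480)))) (b (a (b (l 16727872) (l 16689536)) (b (l 16599712) (l 16559544))) (a (b (a (l 16661328) (l 16590032)) (l 16580672)) (b (l 16513648) (l 16461000))))) (b (a (a (b (a (l 16612856) (l 16590520)) (l 16556272)) (b (l 16564592) (l 16518128))) (b (a (l 16568576) (l 16582608)) (l 16730832))) (a (b (a (l 16510760) (l 16489424)) (a (l 16447408) (l 16440704))) (b (b (l 16518256) (l 16495984)) (b (l 16465960) (l 16439904)))))) (a (b (a (b (l 16606712) (b (l 16577688) (l 16559256))) (b (l 16636128) (a (l 16581904) (l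 16598016)))) (a (b (b (l 16540600) (l 16514008)) (l 16554128)) (b (a (l 16545280) (l 16562432)) (l 4)))) (b (a (l 16633840) (l 16664576)) (a (l 7214450487) (l 13656881495))))) (b (a (a (b (a (b (l 16484544) (l 16412696)) (b (l 16409832) (l 16375888))) (a (b (l 16358504) (l 4)) (l 4))) (b (a (b (l 16589992) (l 4)) (l 4)) (l 4))) (l 4)) (l 4))), by decide +kernel⟩

theorem c_pm_123 : CertB 536870912 536870912 0 1230186008 649613803 48318383 3 eng mog cd1q1 cd8q3 pd2 false true false .npn 1 2 3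
    ndB1q1 ndB8q3 pcB2 Cut.none Ext.none :=
  certB2 (fam := false) (s1 := true) (s2 := false) (a := 1) (b := 2) (c := 3) (cn := .npn) (n1 := ndB1q1) (n2 := ndB8q3) (pc := pcB2) (cut := Cut.none) (xt := Ext.none) (P1 := 536870912) (W1 := 536870912) (P2 := 0) (W2 := 1230186008) (P3 := 649613803) (W3 := 48318383) (N0 := 3) (En := eng) (mo := mog) (C1 := cd1q1) (C2 := cd8q3) (C3 := pd2)
    rfl (fun _ => rfl) k0_pm_123

noncomputable def f_pm_133 : ℕ → ℕ → ℕ → ℕ → Bool := onCell 1610612736 536870912 0 1230186008 649613803 48318383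
    (rowB 3 eng mog cd1q1 cd8q3 pd3 2 false true false .dn 1 3 3 (qsf 536870912 536870912 0 1230186008 3) ndB1q1 ndB8q3 pcB3 Cut.none Ext.none)

def k0_pm_133 : ∃ t, chk3 f_pm_133 t 1 1 1 = true :=
  ⟨(b (a (a (b (a (l 16664944) (l 1)) (l 1)) (l 1)) (l 1)) (l 1)), by decide +kernel⟩

theorem c_pm_133 : CertB 536870912 536870912 0 1230186008 649613803 48318383 3 eng mog cd1q1 cd8q3 pd3 false true false .dn 1 3 3
    ndB1q1 ndB8q3 pcB3 Cut.none Ext.none :=
  certB2 (fam := false) (s1 := true) (s2 := false) (a := 1) (b := 3) (c := 3) (cn := .dn) (n1 := ndB1q1) (n2 := ndB8q3) (pc := pcB3) (cut := Cut.none) (xt := Ext.none) (P1 := 536870912) (W1 := 536870912) (P2 := 0) (W2 := 1230186008) (P3 := 649613803) (W3 := 48318383) (N0 := 3) (En := eng) (mo := mog) (C1 := cd1q1) (C2 := cd8q3) (C3 := pd3)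
    rfl (fun _ => rfl) k0_pm_133

noncomputable def f_pm_202_a : ℕ → ℕ → ℕ → ℕ → Bool := onCell 0 536870912 1073741824 536870912 649613803 48318383
    (rowB 3 eng mog cd1q2a cd8q2 pd0 0 false true false .pp 2 0 2 (qsf 0 536870912 1073741824 536870912 0) ndB1q2a ndB8q2 pcB0 Cut.none Ext.none)

def k0_pm_202_a : ∃ t, chk3 f_pm_202_a t 2 1 1 = true :=
  ⟨(b (a (b (l 1) (b (b (a (l 16274152) (b (l 1) (l 16258960))) (a (l 16335528) (l 16300608))) (b (l 16370296) (a (l 16430432) (l 16403672))))) (b (b (l 1) (a (l 1) (b (l 1) (l 16054816)))) (a (b (b (l 16198648) (l 16266488)) (b (l 16319520) (l 16371608))) (b (b (l 16142840) (l 16205112)) (b (l 16266072) (l 16329656)))))) (a (b (b (a (b (l 16472024) (l 16513704)) (b (l 16451816) (l 16494240))) (b (a (l 16551704) (l 16536096)) (a (l 16586472) (l 16575520)))) (b (a (l 16628728) (b (l 16609600) (l 16639144))) (b (a (l 16659856) (l 16663320)) (a (a (l 16682136) (l 16680760)) (l 16892504))))) (a (b (b (b (l 16423960)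 (l 16471000)) (b (l 16517432) (l 16558920))) (b (b (l 16599144) (l 16633200)) (b (b (l 16655144) (l 16668536)) (l 16916936)))) (b (b (b (l 16381752) (l 16431720)) (b (l 16483768) (l 16534224))) (b (b (l 16576960) (l 16616672)) (b (b (a (l 16647288) (l 16639536)) (l 16848224)) (b (l 16674528) (l 16687944)))))))), by decide +kernel⟩

def k1_pm_202_a : ∃ t, chk3 f_pm_202_a t 3 1 1 = true :=
  ⟨(a (b (b (a (b (l 1) (b (l 1) (a (l 16011920) (l 15991128)))) (l 4)) (b (a (b (l 16067816) (l 16127976)) (b (l 4) (l 16072696))) (a (b (l 16193776) (l 16260432)) (b (l 16282504) (l 16204056))))) (b (b (a (b (l 16324280) (l 16388152)) (b (l 16275728) (l 16348512))) (b (a (l 16443280) (l 16418840)) (a (l 16498880) (l 16487040)))) (b (b (a (l 16552808) (l 16546488)) (a (a (l 16602848) (l 16597664)) (l 16601624))) (a (b (a (l 16643072) (l 16640520)) (a (l 16677712) (l 16678984))) (b (a (l 16645376) (l 16659096)) (a (l 16687296) (l 16706192))))))) (b (l 4) (b (b (a (a (l 16316448)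 (l 4)) (l 4)) (a (l 16491752) (l 16501000))) (b (a (a (l 16603168) (l 16605168)) (b (l 16588072) (l 16632888))) (a (b (l 16692040) (a (l 16736368) (l 16712616))) (l 16680192)))))), by decide +kernel⟩

theorem s2_pm_202_a : ∃ t, chk3 f_pm_202_a t 1 1 1 = true := ex3_a k0_pm_202_a k1_pm_202_a

theorem c_pm_202_a : CertB 0 536870912 1073741824 536870912 649613803 48318383 3 eng mog cd1q2a cd8q2 pd0 false true false .pp 2 0 2
    ndB1q2a ndB8q2 pcB0 Cut.none Ext.none :=
  certB0 (fam := false) (s1 := true) (s2 := false) (a := 2) (b := 0) (c := 2) (cn := .pp) (n1 := ndB1q2a) (n2 := ndB8q2) (pc := pcB0) (cut := Cut.none) (xt := Ext.none) (P1 := 0) (W1 := 536870912) (P2 := 1073741824) (W2 := 536870912) (P3 := 649613803) (W3 := 48318383) (N0 := 3) (En := eng) (mo := mog) (C1 := cd1q2a) (C2 := cd8q2) (C3 := pd0)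
    rfl s2_pm_202_a

noncomputable def f_pm_202_b : ℕ → ℕ → ℕ → ℕ → Bool := onCell 0 536870912 1073741824 536870912 649613803 48318383
    (rowB 3 eng mog cd1q2b cd8q2 pd0 2 false true false .pp 2 0 2 (qsf 1239849684 370763052 1073741824 536870912 0) ndB1q2b ndB8q2 pcB0 Cut.none Ext.none)

def k0_pm_202_b : ∃ t, chk3 f_pm_202_b t 1 1 1 = true :=
  ⟨(a (b (a (b (l 1) (b (a (a (l 431140380071) (l 413960510151)) (l 1)) (a (a (l 16365352) (l 16507568)) (a (l 300144213271) (l 343630810919))))) (l 1)) (a (b (a (b (a (l 16350944) (l 16400552)) (l 16312352)) (b (a (l 16444920) (l 16484328)) (a (l 16403920) (l 16458544)))) (a (b (l 16174960) (l 16134808)) (b (l 16301624) (l 16251656)))) (b (a (b (a (l 16518416) (l 294238394231)) (a (b (l 16517144) (l 16494464)) (b (l 16556856) (l 16546240)))) (b (l 1) (a (l 229814032631) (l 317860657399)))) (b (a (l 16451360) (a (l 16550560) (l 16604240))) (a (l 16364392) (a (l 16435440) (l 16481936))))))) (a (b (l 1) (b (l 1) (a (b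 (b (l 333429975687) (l 330209067943)) (a (l 16569928) (l 16621832))) (b (l 1) (b (l 357052674551) (l 317324124471)))))) (l 1))), by decide +kernel⟩

theorem c_pm_202_b : CertB 1239849684 370763052 1073741824 536870912 649613803 48318383 3 eng mog cd1q2b cd8q2 pd0 false true false .pp 2 0 2
    ndB1q2b ndB8q2 pcB0 Cut.none Ext.none :=
  certB2 (fam := false) (s1 := true) (s2 := false) (a := 2) (b := 0) (c := 2) (cn := .pp) (n1 := ndB1q2b) (n2 := ndB8q2) (pc := pcB0) (cut := Cut.none) (xt := Ext.none) (P1 := 1239849684) (W1 := 370763052) (P2 := 1073741824) (W2 := 536870912) (P3 := 649613803) (W3 := 48318383) (N0 := 3) (En := eng) (mo := mog) (C1 := cd1q2b) (C2 := cd8q2) (C3 := pd0)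
    rfl (fun _ => rfl) k0_pm_202_b

noncomputable def f_pm_203_a : ℕ → ℕ → ℕ → ℕ → Bool := onCell 0 536870912 0 1230186008 649613803 48318383
    (rowB 3 eng mog cd1q2a cd8q3 pd0 0 false true false .up 2 0 3 (qsf 0 536870912 0 1230186008 0) ndB1q2a ndB8q3 pcB0 Cut.none Ext.none)

def k0_pm_203_a : ∃ t, chk3 f_pm_203_a t 1 1 1 = true :=
  ⟨(b (l 2) (b (l 2) (a (b (b (l 2) (a (a (a (l 16919432) (l 16770752)) (l 16783616)) (l 72578801943))) (b (a (a (b (l 16761256) (l 16746448)) (l 16751240)) (b (l 16773600) (a (l 16750104) (l 16758160)))) (a (b (a (l 16724632) (l 16725056)) (a (l 16703744) (l 16830080))) (b (a (l 16730008) (l 16734232)) (a (l 16707616) (b (l 16715344) (l 16701520))))))) (b (l 2) (a (b (a (b (l 16806688) (l 16780256)) (b (l 2) (l 16803448))) (b (a (l 16748656) (l 16764840)) (a (b (l 16722192) (l 16703696)) (a (l 16731208) (l 16759016))))) (b (a (b (l 2) (l 16760616)) (l 2)) (a (b (l 16756360) (l 16746720)) (b (a (l 16746040) (l 2)) (l 16716144))))))))),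 by decide +kernel⟩

theorem c_pm_203_a : CertB 0 536870912 0 1230186008 649613803 48318383 3 eng mog cd1q2a cd8q3 pd0 false true false .up 2 0 3
    ndB1q2a ndB8q3 pcB0 Cut.none Ext.none :=
  certB0 (fam := false) (s1 := true) (s2 := false) (a := 2) (b := 0) (c := 3) (cn := .up) (n1 := ndB1q2a) (n2 := ndB8q3) (pc := pcB0) (cut := Cut.none) (xt := Ext.none) (P1 := 0) (W1 := 536870912) (P2 := 0) (W2 := 1230186008) (P3 := 649613803) (W3 := 48318383) (N0 := 3) (En := eng) (mo := mog) (C1 := cd1q2a) (C2 := cd8q3) (C3 := pd0)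
    rfl k0_pm_203_a

noncomputable def f_pm_203_b : ℕ → ℕ → ℕ → ℕ → Bool := onCell 0 536870912 0 1230186008 649613803 48318383
    (rowB 3 eng mog cd1q2b cd8q3 pd0 2 false true false .up 2 0 3 (qsf 1239849684 370763052 0 1230186008 0) ndB1q2b ndB8q3 pcB0 Cut.none Ext.none)

def k0_pm_203_b : ∃ t, chk3 f_pm_203_b t 1 1 1 = true :=
  ⟨(b (l 3) (b (a (l 3) (a (l 3) (l 3))) (a (b (a (l 2) (b (l 3) (a (l 118815655511) (l 16439360)))) (a (b (a (l 2) (a (l 16178768) (l 16237072))) (a (l 16111480) (l 16212896))) (b (a (b (l 16313080) (l 16317024)) (b (l 16421160) (l 16427128))) (a (l 16331624) (b (l 16428568) (l 16445968)))))) (a (b (a (b (l 197199292455) (l 16528944)) (b (l 139754223111) (b (l 16610608) (l 16602456)))) (b (b (l 16561800) (l 16562704)) (a (b (l 16529272) (l 16533584)) (b (l 16618520) (l 16651568))))) (b (a (b (a (l 16669840) (b (l 16692744) (l 16684096))) (b (a (l 16653072) (l 16674024)) (l 16650224))) (b (b (a (l 16706896) (l 16720504)) (a (l 16700712)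 (b (l 16716920) (l 16708832)))) (b (l 16705144) (l 16749424)))) (b (a (b (l 16669952) (l 16715160)) (l 394097140247)) (a (b (l 16696112) (l 398928539767)) (l 1)))))))), by decide +kernel⟩

theorem c_pm_203_b : CertB 1239849684 370763052 0 1230186008 649613803 48318383 3 eng mog cd1q2b cd8q3 pd0 false true false .up 2 0 3
    ndB1q2b ndB8q3 pcB0 Cut.none Ext.none :=
  certB2 (fam := false) (s1 := true) (s2 := false) (a := 2) (b := 0) (c := 3) (cn := .up) (n1 := ndB1q2b) (n2 := ndB8q3) (pc := pcB0) (cut := Cut.none) (xt := Ext.none) (P1 := 1239849684) (W1 := 370763052) (P2 := 0) (W2 := 1230186008) (P3 := 649613803) (W3 := 48318383) (N0 := 3) (En := eng) (mo := mog) (C1 := cd1q2b) (C2 := cd8q3) (C3 := pd0)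
    rfl (fun _ => rfl) k0_pm_203_b

noncomputable def cut_pm_213_a : Cut := Cut.of [[⟨0, 1, 0, 67108864⟩, ⟨1, 1, 0, 67108864⟩, ⟨2, 2, 0, 16777216⟩]]

noncomputable def f_pm_213_a : ℕ → ℕ → ℕ → ℕ → Bool := onCell 0 536870912 0 1230186008 649613803 48318383
    (rowB 3 eng mog cd1q2a cd8q3 pd1 0 false true false .pnn 2 1 3 (qsf 0 536870912 0 1230186008 1) ndB1q2a ndB8q3 pcB1 cut_pm_213_a Ext.none)

def k0_pm_213_a : ∃ t, chk3 f_pm_213_a t 2 2 1 = true :=
  ⟨(a (l 3) (b (l 3) (b (l 3) (a (b (l 3) (a (l 3) (b (a (l 3) (b (l 3) (l 294909893383))) (a (b (l 3) (a (l 297594250151) (l 285783114263))) (b (a (l 284172478647) (b (l 289541189639) (l 16775616))) (b (l 225116697959) (l 16772440))))))) (b (a (b (l 3) (a (l 3) (b (l 3) (l 294909906263)))) (b (a (b (l 3) (l 320142825543)) (b (l 314774118487) (a (l 290078060039) (l 16776176)))) (a (b (a (l 300278605383) (l 272898192327)) (l 230485402903)) (b (l 16775200) (l 16774192))))) (a (b (a (b (l 293299281431) (a (l 287930575959)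 (l 234243496167))) (b (a (l 265918869415) (l 16774592)) (l 16771400))) (a (b (l 16771936) (l 16767544)) (l 16764792))) (b (a (l 16770864) (l 16769328)) (a (l 16763744) (l 16764624))))))))), by decide +kernel⟩

def k1_pm_213_a : ∃ t, chk3 f_pm_213_a t 3 4 1 = true :=
  ⟨(a (b (l 3) (a (l 3) (b (l 3) (a (b (l 3) (a (l 3) (b (l 3) (l 350744471575)))) (b (a (l 3) (b (a (l 3) (l 326048411639)) (a (l 320142832135) (b (l 279340645079) (l 16777072))))) (a (b (a (l 3) (b (l 335712088071) (l 284172482215))) (a (b (l 305110446695) (l 250886488551)) (l 16776392))) (b (a (b (l 264308265543) (l 16776888)) (l 16777592)) (l 16778080)))))))) (a (a (b (l 3) (b (b (a (l 3) (b (l 3) (a (l 3) (b (l 3) (l 319069090631))))) (a (b (l 3) (a (l 343228279959) (b (l 318532220151) (l 279340645303)))) (b (a (b (l 336248958855) (l 292225546135)) (b (l 275045677623) (l 16776776))) (a (l 254107719207) (l 16777336))))) (b (a (b (a (b (l 298667997351) (l 266455750647)) (l 16777304)) (l 16777832))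 (l 16778456)) (a (l 16779368) (l 16781416))))) (b (l 6) (a (b (a (b (b (l 361481890775) (b (l 292225557031) (l 257865815991))) (l 16778024)) (b (l 6) (l 16779200))) (b (l 16780904) (l 16786424))) (b (l 6) (l 16845536))))) (b (l 6) (b (a (a (l 6) (l 6)) (b (l 6) (l 16783568))) (a (l 16787832) (l 16789880)))))), by decide +kernel⟩

def k2_pm_213_a : ∃ t, chk3 f_pm_213_a t 3 5 1 = true :=
  ⟨(a (b (a (b (a (l 3) (b (l 3) (a (l 3) (b (l 343228288039) (a (l 315310992743) (l 241759680887)))))) (a (b (a (l 3) (b (l 3) (a (l 3) (l 320142829207)))) (a (b (l 343228273927) (a (l 328195891687) (l 284709351463))) (b (a (l 314237250375) (l 241222815863)) (l 16776272)))) (b (a (b (a (l 347523244647) (l 282561868023)) (a (l 279340654039) (l 16777264))) (b (a (l 16777112) (l 16778440)) (l 16779688))) (a (l 16789960) (l 16781224))))) (b (a (b (a (b (l 3) (a (l 362018760215) (b (l 341617667575) (l 282561869111)))) (b (a (l 322290315431) (b (l 286319966087) (l 16776816))) (a (l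 242833432647) (l 16777424)))) (a (b (a (b (l 310479155335) (l 16776280)) (l 16777376)) (l 16778808)) (l 16779824))) (b (a (b (l 16776872) (l 16778200)) (l 16780080)) (a (l 16781424) (l 16786312)))) (a (b (a (l 16782296) (l 16786520)) (l 16787808)) (b (l 16790760) (l 16791760))))) (a (b (a (b (a (b (a (l 273971938679) (l 16775776)) (l 16775584)) (l 16777040)) (a (l 16774600) (l 16776848))) (b (a (l 16779144) (l 16782888)) (l 16785944))) (a (b (a (l 16772256) (l 16774088)) (l 16766904)) (l 16776352))) (b (a (l 16786344) (l 16790768)) (a (l 16781064) (l 16790280))))) (b (a (b (a (b (a (l 16783648) (l 16787944)) (l 16791528)) (l 16792376)) (a (l 16794400) (l 16796424))) (b (a (l 16795024) (l 16796440)) (l 16799144))) (a (b (l 16798824) (l 16793616)) (b (l 16800936) (l 16801712))))), by decide +kernel⟩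

def k3_pm_213_a : ∃ t, chk3 f_pm_213_a t 2 12 1 = true :=
  ⟨(a (a (l 3) (b (a (l 3) (b (l 3) (a (l 3) (b (l 3) (a (l 340007054871) (b (l 304036705159) (l 269676986087))))))) (b (a (a (l 3) (b (l 3) (b (l 3) (b (l 357723794855) (l 349670732231))))) (a (b (a (l 3) (b (l 345912635367) (l 289004320743))) (a (b (l 294373029319) (l 257865823543)) (l 250349630295))) (b (a (b (l 278266903191) (l 16776648)) (l 16774896)) (l 16773392)))) (b (a (a (l 387251693207) (a (b (l 351281345159) (l 282561870151)) (b (l 275582548551) (l 16778016)))) (l 16773528)) (a (a (a (b (l 3) (a (l 358797538455) (l 292225538279))) (b (a (l 309942275239) (l 270213838967)) (l 16776888))) (l 16777336)) (l 16771096)))))) (b (a (b (a (a (b (l 3) (l 327122150487)) (b (a (l 3) (l 291151800999)) (a (b (l 297057381943) (l 268066373687)) (b (l 256792053575) (l 16774160))))) (a (b (a (b (l 287930577511) (l 16775736)) (l 16773824)) (l 16770456)) (l 16766928))) (a (a (b (a (b (l 333564603495) (l 294909900167))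 (b (l 280414385975) (l 16776024))) (a (l 246591538807) (l 16772688))) (b (l 16771976) (l 16768096))) (a (l 16764168) (l 16760096)))) (a (b (a (l 16718800) (l 16759416)) (a (l 16756800) (l 16754592))) (l 16756992))) (a (b (a (a (l 16769552) (l 16763536)) (a (l 16760672) (l 16756336))) (a (a (l 16766120) (l 16760744)) (l 16754744))) (b (l 16752472) (l 16748056))))), by decide +kernel⟩

def k4_pm_213_a : ∃ t, chk3 f_pm_213_a t 4 26 1 = true :=
  ⟨(a (a (b (l 3) (a (b (l 3) (a (l 3) (b (l 3) (a (l 3) (b (l 3) (a (l 3) (b (l 3) (l 301352352439)))))))) (b (a (l 3) (b (l 3) (a (l 378124891479) (b (l 364166248551) (a (l 301352352135) (l 16776144)))))) (a (b (a (l 3) (b (l 3) (a (l 362018765271) (l 293299288599)))) (a (b (a (l 364166248871) (l 298131121703)) (a (l 251423352183) (l 16776440))) (l 236390979079))) (b (a (b (a (l 306184190407) (l 258402679095)) (l 16776384)) (l 16777264)) (l 16779544)))))) (b (a (b (l 3) (a (l 3) (b (l 373829923511) (a (b (l 371682440823)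 (l 298667997303)) (b (l 256255195143) (l 16776040)))))) (b (a (b (l 3) (a (l 3) (l 310479151575))) (b (a (l 3) (l 304036711287)) (b (l 256792055559) (l 16776232)))) (a (b (a (b (l 307794802407) (l 259476420407)) (l 249812749303)) (l 16777808)) (l 16779400)))) (a (b (a (b (a (b (l 3) (l 308331673767)) (b (l 302962964647) (l 248738997047))) (a (l 250886496567) (l 16777728))) (b (l 16777240) (l 16779648))) (l 16779168)) (l 16778592)))) (a (b (a (b (b (l 251423370711) (l 16778408)) (l 16777696)) (l 16775152)) (b (l 16774720) (l 16774848))) (b (b (l 16770624) (l 16770408)) (l 16766368)))), by decide +kernel⟩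

def k5_pm_213_a : ∃ t, chk3 f_pm_213_a t 4 27 1 = true :=
  ⟨(a (b (a (a (b (a (b (l 412484628839) (a (b (l 3) (a (b (l 3) (c (l 356650054327) (l 359334408711))) (b (c (l 305647317623) (l 306721059271)) (l 251423357479)))) (b (a (b (l 3) (c (l 302962965607) (l 297057385383))) (b (l 293836159895) (l 16776448))) (l 232632879351)))) (b (a (b (l 371145570775) (a (b (l 363629378391) (l 254107712263)) (l 246054648135))) (b (a (b (l 305110448887) (l 243370297223)) (l 16776352)) (l 16777416))) (l 16773928))) (a (b (a (b (a (a (b (l 294373029591) (l 16776760)) (l 16774160)) (l 16777512)) (l 16778688)) (l 16778720)) (l 16778136)) (l 16778232))) (b (a (l 16779088) (l 16778800)) (l 16777704))) (a (l 16775816) (l 16775968))) (a (b (l 16775136) (l 16774800)) (b (l 16774200) (l 16770768)))) (a (b (a (l 16773104) (l 16768440)) (l 16764968)) (l 16756128))), by decide +kernel⟩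

def k6_pm_213_a : ∃ t, chk3 f_pm_213_a t 5 13 1 = true :=
  ⟨(b (a (b (l 16755168) (l 16749152)) (l 16818096)) (a (l 16878392) (l 16733112))), by decide +kernel⟩

def k7_pm_213_a : ∃ t, chk3 f_pm_213_a t 3 6 1 = true :=
  ⟨(b (a (b (a (b (l 16764304) (l 16762168)) (a (l 16779936) (l 16787336))) (a (l 16836736) (l 16781464))) (b (a (l 16792672) (l 16795136)) (a (l 16790176) (l 16785112)))) (a (b (a (l 16753432) (l 16773256)) (a (l 16739008) (l 16763432))) (a (b (l 16783704) (l 16765616)) (l 16765280)))), by decide +kernel⟩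

def k8_pm_213_a : ∃ t, chk3 f_pm_213_a t 1 7 1 = true :=
  ⟨(a (b (a (b (a (a (b (b (l 16775024) (l 16770632)) (l 16764472)) (l 16758320)) (b (l 16752960) (l 16760360))) (a (b (a (l 16749784) (l 16746608)) (l 16898344)) (b (l 16731680) (l 16716000)))) (b (a (l 16727408) (l 16715984)) (a (l 16796400) (l 16714400)))) (a (l 1) (b (a (l 1) (l 16659040)) (l 1)))) (b (b (a (l 16754584) (a (l 16749888) (l 16748352))) (a (a (l 16707552) (l 16726824)) (l 16822592))) (a (b (a (l 16682160) (l 16723048)) (l 1)) (b (l 16724760) (a (l 16726552) (l 16717280)))))), by decide +kernel⟩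

theorem s9_pm_213_a : ∃ t, chk3 f_pm_213_a t 4 13 1 = true := ex3_b k4_pm_213_a k5_pm_213_a

theorem s10_pm_213_a : ∃ t, chk3 f_pm_213_a t 2 13 1 = true := ex3_a s9_pm_213_a k6_pm_213_a

theorem s11_pm_213_a : ∃ t, chk3 f_pm_213_a t 2 6 1 = true := ex3_b k3_pm_213_a s10_pm_213_a

theorem s12_pm_213_a : ∃ t, chk3 f_pm_213_a t 1 6 1 = true := ex3_a s11_pm_213_a k7_pm_213_a

theorem s13_pm_213_a : ∃ t, chk3 f_pm_213_a t 1 3 1 = true := ex3_b s12_pm_213_a k8_pm_213_a

theorem s14_pm_213_a : ∃ t, chk3 f_pm_213_a t 3 2 1 = true := ex3_b k1_pm_213_a k2_pm_213_a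

theorem s15_pm_213_a : ∃ t, chk3 f_pm_213_a t 1 2 1 = true := ex3_a k0_pm_213_a s14_pm_213_a

theorem s16_pm_213_a : ∃ t, chk3 f_pm_213_a t 1 1 1 = true := ex3_b s15_pm_213_a s13_pm_213_a

theorem c_pm_213_a : CertB 0 536870912 0 1230186008 649613803 48318383 3 eng mog cd1q2a cd8q3 pd1 false true false .pnn 2 1 3
    ndB1q2a ndB8q3 pcB1 cut_pm_213_a Ext.none :=
  certB0 (fam := false) (s1 := true) (s2 := false) (a := 2) (b := 1) (c := 3) (cn := .pnn) (n1 := ndB1q2a) (n2 := ndB8q3) (pc := pcB1) (cut := cut_pm_213_a) (xt := Ext.none) (P1 := 0) (W1 := 536870912) (P2 := 0) (W2 := 1230186008) (P3 := 649613803) (W3 := 48318383) (N0 := 3) (En := eng) (mo := mog) (C1 := cd1q2a) (C2 := cd8q3) (C3 := pd1)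
    rfl s16_pm_213_a

noncomputable def cut_pm_213_b : Cut := Cut.of [[⟨0, 1, 0, 67108864⟩, ⟨1, 1, 0, 67108864⟩, ⟨2, 2, 0, 16777216⟩]]

noncomputable def f_pm_213_b : ℕ → ℕ → ℕ → ℕ → Bool := onCell 1239849684 370763052 0 1230186008 649613803 48318383
    (rowB 3 eng mog cd1q2b cd8q3 pd1 0 false true false .pnn 2 1 3 (qsf 1239849684 370763052 0 1230186008 1) ndB1q2b ndB8q3 pcB1 cut_pm_213_b Ext.none)

def k0_pm_213_b : ∃ t, chk3 f_pm_213_b t 1 1 1 = true :=
  ⟨(b (l 3) (b (a (b (l 3) (a (b (l 3) (b (b (l 3) (a (a (a (b (a (b (b (c (l 296520512359) (l 297594256087)) (l 16775280)) (l 16774864)) (l 352891952055)) (l 16772464)) (l 297057368823)) (l 3)) (l 3))) (a (a (a (a (l 16781760) (l 16775056)) (l 16763848)) (l 16778432)) (a (l 299741791239) (l 16735040))))) (l 3))) (l 3)) (a (b (a (b (a (b (a (l 16782424) (l 16753656)) (a (l 16782312) (l 16770376))) (b (b (l 16735480) (l 16732928)) (a (l 16739168) (l 1)))) (b (l 16771200) (l 16764192))) (l 1)) (l 1)) (l 1)))),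 by decide +kernel⟩

theorem c_pm_213_b : CertB 1239849684 370763052 0 1230186008 649613803 48318383 3 eng mog cd1q2b cd8q3 pd1 false true false .pnn 2 1 3
    ndB1q2b ndB8q3 pcB1 cut_pm_213_b Ext.none :=
  certB0 (fam := false) (s1 := true) (s2 := false) (a := 2) (b := 1) (c := 3) (cn := .pnn) (n1 := ndB1q2b) (n2 := ndB8q3) (pc := pcB1) (cut := cut_pm_213_b) (xt := Ext.none) (P1 := 1239849684) (W1 := 370763052) (P2 := 0) (W2 := 1230186008) (P3 := 649613803) (W3 := 48318383) (N0 := 3) (En := eng) (mo := mog) (C1 := cd1q2b) (C2 := cd8q3) (C3 := pd1)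
    rfl k0_pm_213_b

noncomputable def f_pm_303 : ℕ → ℕ → ℕ → ℕ → Bool := onCell 0 536870912 0 1230186008 649613803 48318383
    (rowB 3 eng mog cd1q3 cd8q3 pd0 2 false true false .npn 3 0 3 (qsf 1610612736 536870912 0 1230186008 0) ndB1q3 ndB8q3 pcB0 Cut.none Ext.none)

def k0_pm_303 : ∃ t, chk3 f_pm_303 t 1 1 1 = true :=
  ⟨(b (l 3) (b (a (l 3) (a (l 3) (l 3))) (a (b (b (l 3) (a (a (b (l 3) (l 16112680)) (l 16228432)) (a (l 118278756087) (l 1)))) (a (b (a (l 16072520) (a (l 16156168) (l 16217920))) (a (l 16094296) (l 16201272))) (b (a (b (l 16297176) (l 1)) (l 1)) (l 1)))) (l 1)))), by decide +kernel⟩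

theorem c_pm_303 : CertB 1610612736 536870912 0 1230186008 649613803 48318383 3 eng mog cd1q3 cd8q3 pd0 false true false .npn 3 0 3
    ndB1q3 ndB8q3 pcB0 Cut.none Ext.none :=
  certB2 (fam := false) (s1 := true) (s2 := false) (a := 3) (b := 0) (c := 3) (cn := .npn) (n1 := ndB1q3) (n2 := ndB8q3) (pc := pcB0) (cut := Cut.none) (xt := Ext.none) (P1 := 1610612736) (W1 := 536870912) (P2 := 0) (W2 := 1230186008) (P3 := 649613803) (W3 := 48318383) (N0 := 3) (En := eng) (mo := mog) (C1 := cd1q3) (C2 := cd8q3) (C3 := pd0)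
    rfl (fun _ => rfl) k0_pm_303

noncomputable def f_pm_313 : ℕ → ℕ → ℕ → ℕ → Bool := onCell 1610612736 536870912 0 1230186008 649613803 48318383
    (rowB 3 eng mog cd1q3 cd8q3 pd1 0 false true false .dn 3 1 3 (qsf 1610612736 536870912 0 1230186008 1) ndB1q3 ndB8q3 pcB1 Cut.none Ext.none)

def k0_pm_313 : ∃ t, chk3 f_pm_313 t 1 1 1 = true :=
  ⟨(b (l 3) (l 1)), by decide +kernel⟩

theorem c_pm_313 : CertB 1610612736 536870912 0 1230186008 649613803 48318383 3 eng mog cd1q3 cd8q3 pd1 false true false .dn 3 1 3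
    ndB1q3 ndB8q3 pcB1 Cut.none Ext.none :=
  certB0 (fam := false) (s1 := true) (s2 := false) (a := 3) (b := 1) (c := 3) (cn := .dn) (n1 := ndB1q3) (n2 := ndB8q3) (pc := pcB1) (cut := Cut.none) (xt := Ext.none) (P1 := 1610612736) (W1 := 536870912) (P2 := 0) (W2 := 1230186008) (P3 := 649613803) (W3 := 48318383) (N0 := 3) (En := eng) (mo := mog) (C1 := cd1q3) (C2 := cd8q3) (C3 := pd1)
    rfl k0_pm_313

noncomputable def f_mm_001 : ℕ → ℕ → ℕ → ℕ → Bool := onCell 0 536870912 0 536870912 649613803 48318383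
    (rowB 3 eng mog cd1q0 cd8q1 pd0 1 false false false .up 0 0 1 (qsf 0 536870912 536870912 536870912 0) ndB1q0 ndB8q1 pcB0 Cut.none Ext.none)

def k0_mm_001 : ∃ t, chk3 f_mm_001 t 1 1 1 = true :=
  ⟨(l 3), by decide +kernel⟩

theorem c_mm_001 : CertB 0 536870912 536870912 536870912 649613803 48318383 3 eng mog cd1q0 cd8q1 pd0 false false false .up 0 0 1
    ndB1q0 ndB8q1 pcB0 Cut.none Ext.none :=
  certB1 (fam := false) (s1 := false) (s2 := false) (a := 0) (b := 0) (c := 1) (cn := .up) (n1 := ndB1q0) (n2 := ndB8q1) (pc := pcB0) (cut := Cut.none) (xt := Ext.none) (P1 := 0) (W1 := 536870912) (P2 := 536870912) (W2 := 536870912) (P3 := 649613803) (W3 := 48318383) (N0 := 3) (En := eng) (mo := mog) (C1 := cd1q0) (C2 := cd8q1) (C3 := pd0)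
    rfl (fun _ => rfl) k0_mm_001

noncomputable def f_mm_011 : ℕ → ℕ → ℕ → ℕ → Bool := onCell 0 536870912 536870912 536870912 649613803 48318383
    (rowB 3 eng mog cd1q0 cd8q1 pd1 1 false false false .pnn 0 1 1 (qsf 0 536870912 536870912 536870912 1) ndB1q0 ndB8q1 pcB1 Cut.none Ext.none)

def k0_mm_011 : ∃ t, chk3 f_mm_011 t 1 1 1 = true :=
  ⟨(l 5), by decide +kernel⟩

theorem c_mm_011 : CertB 0 536870912 536870912 536870912 649613803 48318383 3 eng mog cd1q0 cd8q1 pd1 false false false .pnn 0 1 1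
    ndB1q0 ndB8q1 pcB1 Cut.none Ext.none :=
  certB1 (fam := false) (s1 := false) (s2 := false) (a := 0) (b := 1) (c := 1) (cn := .pnn) (n1 := ndB1q0) (n2 := ndB8q1) (pc := pcB1) (cut := Cut.none) (xt := Ext.none) (P1 := 0) (W1 := 536870912) (P2 := 536870912) (W2 := 536870912) (P3 := 649613803) (W3 := 48318383) (N0 := 3) (En := eng) (mo := mog) (C1 := cd1q0) (C2 := cd8q1) (C3 := pd1)
    rfl (fun _ => rfl) k0_mm_011

noncomputable def f_mm_012 : ℕ → ℕ → ℕ → ℕ → Bool := onCell 0 536870912 1073741824 536870912 649613803 48318383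
    (rowB 3 eng mog cd1q0 cd8q2 pd1 0 false false false .pnp 0 1 2 (qsf 0 536870912 1073741824 536870912 1) ndB1q0 ndB8q2 pcB1 Cut.none Ext.none)

def k0_mm_012 : ∃ t, chk3 f_mm_012 t 1 1 1 = true :=
  ⟨(l 5), by decide +kernel⟩

theorem c_mm_012 : CertB 0 536870912 1073741824 536870912 649613803 48318383 3 eng mog cd1q0 cd8q2 pd1 false false false .pnp 0 1 2
    ndB1q0 ndB8q2 pcB1 Cut.none Ext.none :=
  certB0 (fam := false) (s1 := false) (s2 := false) (a := 0) (b := 1) (c := 2) (cn := .pnp) (n1 := ndB1q0) (n2 := ndB8q2) (pc := pcB1) (cut := Cut.none) (xt := Ext.none) (P1 := 0) (W1 := 536870912) (P2 := 1073741824) (W2 := 536870912) (P3 := 649613803) (W3 := 48318383) (N0 := 3) (En := eng) (mo := mog) (C1 := cd1q0) (C2 := cd8q2) (C3 := pd1)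
    rfl k0_mm_012

noncomputable def f_mm_022 : ℕ → ℕ → ℕ → ℕ → Bool := onCell 0 536870912 1073741824 536870912 649613803 48318383
    (rowB 3 eng mog cd1q0 cd8q2 pd2 0 false false false .pp 0 2 2 (qsf 0 536870912 1073741824 536870912 2) ndB1q0 ndB8q2 pcB2 Cut.none Ext.none)

def k0_mm_022 : ∃ t, chk3 f_mm_022 t 1 1 1 = true :=
  ⟨(l 5), by decide +kernel⟩

theorem c_mm_022 : CertB 0 536870912 1073741824 536870912 649613803 48318383 3 eng mog cd1q0 cd8q2 pd2 false false false .pp 0 2 2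
    ndB1q0 ndB8q2 pcB2 Cut.none Ext.none :=
  certB0 (fam := false) (s1 := false) (s2 := false) (a := 0) (b := 2) (c := 2) (cn := .pp) (n1 := ndB1q0) (n2 := ndB8q2) (pc := pcB2) (cut := Cut.none) (xt := Ext.none) (P1 := 0) (W1 := 536870912) (P2 := 1073741824) (W2 := 536870912) (P3 := 649613803) (W3 := 48318383) (N0 := 3) (En := eng) (mo := mog) (C1 := cd1q0) (C2 := cd8q2) (C3 := pd2)
    rfl k0_mm_022

noncomputable def f_mm_023 : ℕ → ℕ → ℕ → ℕ → Bool := onCell 0 536870912 0 1230186008 649613803 48318383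
    (rowB 3 eng mog cd1q0 cd8q3 pd2 0 false false false .up 0 2 3 (qsf 0 536870912 0 1230186008 2) ndB1q0 ndB8q3 pcB2 Cut.none Ext.none)

def k0_mm_023 : ∃ t, chk3 f_mm_023 t 1 1 1 = true :=
  ⟨(l 5), by decide +kernel⟩

theorem c_mm_023 : CertB 0 536870912 0 1230186008 649613803 48318383 3 eng mog cd1q0 cd8q3 pd2 false false false .up 0 2 3
    ndB1q0 ndB8q3 pcB2 Cut.none Ext.none :=
  certB0 (fam := false) (s1 := false) (s2 := false) (a := 0) (b := 2) (c := 3) (cn := .up) (n1 := ndB1q0) (n2 := ndB8q3) (pc := pcB2) (cut := Cut.none) (xt := Ext.none) (P1 := 0) (W1 := 536870912) (P2 := 0) (W2 := 1230186008) (P3 := 649613803) (W3 := 48318383) (N0 := 3) (En := eng) (mo := mog) (C1 := cd1q0) (C2 := cd8q3) (C3 := pd2)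
    rfl k0_mm_023

noncomputable def f_mm_033 : ℕ → ℕ → ℕ → ℕ → Bool := onCell 0 536870912 0 1230186008 649613803 48318383
    (rowB 3 eng mog cd1q0 cd8q3 pd3 0 false false false .pnn 0 3 3 (qsf 0 536870912 0 1230186008 3) ndB1q0 ndB8q3 pcB3 Cut.none Ext.none)

def k0_mm_033 : ∃ t, chk3 f_mm_033 t 1 1 1 = true :=
  ⟨(l 5), by decide +kernel⟩

theorem c_mm_033 : CertB 0 536870912 0 1230186008 649613803 48318383 3 eng mog cd1q0 cd8q3 pd3 false false false .pnn 0 3 3
    ndB1q0 ndB8q3 pcB3 Cut.none Ext.none :=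
  certB0 (fam := false) (s1 := false) (s2 := false) (a := 0) (b := 3) (c := 3) (cn := .pnn) (n1 := ndB1q0) (n2 := ndB8q3) (pc := pcB3) (cut := Cut.none) (xt := Ext.none) (P1 := 0) (W1 := 536870912) (P2 := 0) (W2 := 1230186008) (P3 := 649613803) (W3 := 48318383) (N0 := 3) (En := eng) (mo := mog) (C1 := cd1q0) (C2 := cd8q3) (C3 := pd3)
    rfl k0_mm_033

noncomputable def f_mm_101 : ℕ → ℕ → ℕ → ℕ → Bool := onCell 536870912 536870912 0 536870912 649613803 48318383
    (rowB 3 eng mog cd1q1 cd8q1 pd0 1 false false false .npn 1 0 1 (qsf 536870912 536870912 536870912 536870912 0) ndB1q1 ndB8q1 pcB0 Cut.none Ext.none)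

def k0_mm_101 : ∃ t, chk3 f_mm_101 t 1 1 1 = true :=
  ⟨(l 3), by decide +kernel⟩

theorem c_mm_101 : CertB 536870912 536870912 536870912 536870912 649613803 48318383 3 eng mog cd1q1 cd8q1 pd0 false false false .npn 1 0 1
    ndB1q1 ndB8q1 pcB0 Cut.none Ext.none :=
  certB1 (fam := false) (s1 := false) (s2 := false) (a := 1) (b := 0) (c := 1) (cn := .npn) (n1 := ndB1q1) (n2 := ndB8q1) (pc := pcB0) (cut := Cut.none) (xt := Ext.none) (P1 := 536870912) (W1 := 536870912) (P2 := 536870912) (W2 := 536870912) (P3 := 649613803) (W3 := 48318383) (N0 := 3) (En := eng) (mo := mog) (C1 := cd1q1) (C2 := cd8q1) (C3 := pd0)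
    rfl (fun _ => rfl) k0_mm_101

noncomputable def f_mm_102 : ℕ → ℕ → ℕ → ℕ → Bool := onCell 536870912 536870912 0 536870912 649613803 48318383
    (rowB 3 eng mog cd1q1 cd8q2 pd0 1 false false false .npp 1 0 2 (qsf 536870912 536870912 1073741824 536870912 0) ndB1q1 ndB8q2 pcB0 Cut.none Ext.none)

def k0_mm_102 : ∃ t, chk3 f_mm_102 t 1 1 1 = true :=
  ⟨(l 3), by decide +kernel⟩

theorem c_mm_102 : CertB 536870912 536870912 1073741824 536870912 649613803 48318383 3 eng mog cd1q1 cd8q2 pd0 false false false .npp 1 0 2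
    ndB1q1 ndB8q2 pcB0 Cut.none Ext.none :=
  certB1 (fam := false) (s1 := false) (s2 := false) (a := 1) (b := 0) (c := 2) (cn := .npp) (n1 := ndB1q1) (n2 := ndB8q2) (pc := pcB0) (cut := Cut.none) (xt := Ext.none) (P1 := 536870912) (W1 := 536870912) (P2 := 1073741824) (W2 := 536870912) (P3 := 649613803) (W3 := 48318383) (N0 := 3) (En := eng) (mo := mog) (C1 := cd1q1) (C2 := cd8q2) (C3 := pd0)
    rfl (fun _ => rfl) k0_mm_102

noncomputable def f_mm_112 : ℕ → ℕ → ℕ → ℕ → Bool := onCell 536870912 536870912 1073741824 536870912 649613803 48318383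
    (rowB 3 eng mog cd1q1 cd8q2 pd1 0 false false false .dn 1 1 2 (qsf 536870912 536870912 1073741824 536870912 1) ndB1q1 ndB8q2 pcB1 Cut.none Ext.none)

def k0_mm_112 : ∃ t, chk3 f_mm_112 t 1 1 1 = true :=
  ⟨(a (l 3) (l 3)), by decide +kernel⟩

theorem c_mm_112 : CertB 536870912 536870912 1073741824 536870912 649613803 48318383 3 eng mog cd1q1 cd8q2 pd1 false false false .dn 1 1 2
    ndB1q1 ndB8q2 pcB1 Cut.none Ext.none :=
  certB0 (fam := false) (s1 := false) (s2 := false) (a := 1) (b := 1) (c := 2) (cn := .dn) (n1 := ndB1q1) (n2 := ndB8q2) (pc := pcB1) (cut := Cut.none) (xt := Ext.none) (P1 := 536870912) (W1 := 536870912) (P2 := 1073741824) (W2 := 536870912) (P3 := 649613803) (W3 := 48318383) (N0 := 3) (En := eng) (mo := mog) (C1 := cd1q1) (C2 := cd8q2) (C3 := pd1)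
    rfl k0_mm_112

noncomputable def f_mm_113 : ℕ → ℕ → ℕ → ℕ → Bool := onCell 536870912 536870912 0 1230186008 649613803 48318383
    (rowB 3 eng mog cd1q1 cd8q3 pd1 0 false false false .nn 1 1 3 (qsf 536870912 536870912 0 1230186008 1) ndB1q1 ndB8q3 pcB1 Cut.none Ext.none)

def k0_mm_113 : ∃ t, chk3 f_mm_113 t 1 1 1 = true :=
  ⟨(b (l 5) (b (l 5) (a (l 5) (l 3)))), by decide +kernel⟩

theorem c_mm_113 : CertB 536870912 536870912 0 1230186008 649613803 48318383 3 eng mog cd1q1 cd8q3 pd1 false false false .nn 1 1 3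
    ndB1q1 ndB8q3 pcB1 Cut.none Ext.none :=
  certB0 (fam := false) (s1 := false) (s2 := false) (a := 1) (b := 1) (c := 3) (cn := .nn) (n1 := ndB1q1) (n2 := ndB8q3) (pc := pcB1) (cut := Cut.none) (xt := Ext.none) (P1 := 536870912) (W1 := 536870912) (P2 := 0) (W2 := 1230186008) (P3 := 649613803) (W3 := 48318383) (N0 := 3) (En := eng) (mo := mog) (C1 := cd1q1) (C2 := cd8q3) (C3 := pd1)
    rfl k0_mm_113

noncomputable def f_mm_123 : ℕ → ℕ → ℕ → ℕ → Bool := onCell 1073741824 536870912 0 1230186008 649613803 48318383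
    (rowB 3 eng mog cd1q1 cd8q3 pd2 2 false false false .npn 1 2 3 (qsf 536870912 536870912 0 1230186008 2) ndB1q1 ndB8q3 pcB2 Cut.none Ext.none)

def k0_mm_123 : ∃ t, chk3 f_mm_123 t 1 1 1 = true :=
  ⟨(b (l 5) (l 5)), by decide +kernel⟩

theorem c_mm_123 : CertB 536870912 536870912 0 1230186008 649613803 48318383 3 eng mog cd1q1 cd8q3 pd2 false false false .npn 1 2 3
    ndB1q1 ndB8q3 pcB2 Cut.none Ext.none :=
  certB2 (fam := false) (s1 := false) (s2 := false) (a := 1) (b := 2) (c := 3) (cn := .npn) (n1 := ndB1q1) (n2 := ndB8q3) (pc := pcB2) (cut := Cut.none) (xt := Ext.none) (P1 := 536870912) (W1 := 536870912) (P2 := 0) (W2 := 1230186008) (P3 := 649613803) (W3 := 48318383) (N0 := 3) (En := eng) (mo := mog) (C1 := cd1q1) (C2 := cd8q3) (C3 := pd2)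
    rfl (fun _ => rfl) k0_mm_123

noncomputable def f_mm_133 : ℕ → ℕ → ℕ → ℕ → Bool := onCell 536870912 536870912 0 1230186008 649613803 48318383
    (rowB 3 eng mog cd1q1 cd8q3 pd3 0 false false false .dn 1 3 3 (qsf 536870912 536870912 0 1230186008 3) ndB1q1 ndB8q3 pcB3 Cut.none Ext.none)

def k0_mm_133 : ∃ t, chk3 f_mm_133 t 1 1 1 = true :=
  ⟨(b (l 5) (l 1)), by decide +kernel⟩

theorem c_mm_133 : CertB 536870912 536870912 0 1230186008 649613803 48318383 3 eng mog cd1q1 cd8q3 pd3 false false false .dn 1 3 3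
    ndB1q1 ndB8q3 pcB3 Cut.none Ext.none :=
  certB0 (fam := false) (s1 := false) (s2 := false) (a := 1) (b := 3) (c := 3) (cn := .dn) (n1 := ndB1q1) (n2 := ndB8q3) (pc := pcB3) (cut := Cut.none) (xt := Ext.none) (P1 := 536870912) (W1 := 536870912) (P2 := 0) (W2 := 1230186008) (P3 := 649613803) (W3 := 48318383) (N0 := 3) (En := eng) (mo := mog) (C1 := cd1q1) (C2 := cd8q3) (C3 := pd3)
    rfl k0_mm_133

noncomputable def cut_mm_202_a : Cut := Cut.of [[⟨0, 1, 0, 67108864⟩, ⟨1, 0, 0, 67108864⟩, ⟨2, 1, 0, 67108864⟩]]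

noncomputable def f_mm_202_a : ℕ → ℕ → ℕ → ℕ → Bool := onCell 0 536870912 0 536870912 649613803 48318383
    (rowB 3 eng mog cd1q2a cd8q2 pd0 1 false false false .pp 2 0 2 (qsf 0 536870912 1073741824 536870912 0) ndB1q2a ndB8q2 pcB0 cut_mm_202_a Ext.none)

def k0_mm_202_a : ∃ t, chk3 f_mm_202_a t 2 2 1 = true :=
  ⟨(b (b (a (b (l 16488704) (a (l 16437320) (l 16454904))) (a (b (l 16519392) (l 16515936)) (b (b (l 16456936) (l 16477096)) (l 16505984)))) (a (b (a (l 16476592) (l 16492336)) (a (l 16513488) (l 16526784))) (b (a (l 16510176) (l 16541544)) (a (l 16543232) (b (a (l 16555760) (b (l 16571968) (l 16579904))) (a (l 16570712) (l 16591688))))))) (b (a (b (l 16552816) (a (l 16576360) (l 16571128))) (b (a (a (l 16564008) (b (l 16570352) (l 16585312))) (a (b (l 16586192) (l 16600712)) (b (l 16583760) (l 16622032)))) (a (a (b (l 16587880) (l 16601432)) (l 16603480)) (a (b (l 16615472) (l 16631088)) (b (l 16637552) (a (l 16646592) (l 16658592))))))) (a (b (a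 (l 16595712) (b (l 16603744) (l 16615352))) (a (b (l 16616608) (l 16627760)) (a (l 16623752) (l 16638288)))) (a (b (a (l 16618584) (b (l 16628672) (l 16641912))) (a (l 16648744) (b (l 16654784) (l 16666664)))) (b (a (b (l 16645168) (l 16658584)) (b (l 16667168) (l 16703072))) (a (b (l 16714144) (l 16685528)) (b (l 16694864) (a (l 16701736) (b (l 16711008) (l 16696520)))))))))), by decide +kernel⟩

def k1_mm_202_a : ∃ t, chk3 f_mm_202_a t 4 6 1 = true :=
  ⟨(b (b (a (l 16640040) (a (l 16655504) (l 16662056))) (a (b (l 16663720) (l 16676192)) (b (l 16669280) (l 16680288)))) (a (b (b (l 16686744) (l 16697032)) (l 16730728)) (b (a (l 16697336) (l 16707472)) (a (l 16722944) (b (l 16724896) (l 2)))))), by decide +kernel⟩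

def k2_mm_202_a : ∃ t, chk3 f_mm_202_a t 5 6 1 = true :=
  ⟨(b (a (b (a (b (l 16665848) (l 16676536)) (b (l 16679800) (l 16691328))) (a (l 16695152) (b (l 16702632) (a (l 16709768) (l 16718160))))) (b (a (b (l 16697528) (a (l 16704360) (l 16714832))) (b (a (l 16714360) (b (l 16724584) (l 16731192))) (a (b (l 16724520) (l 16731016)) (a (l 16753720) (b (l 16741656) (b (l 16747008) (l 161765878695))))))) (a (b (a (l 16715936) (b (l 16724704) (l 16731184))) (a (l 16759488) (b (l 16738184) (a (l 16741864) (l 16757944))))) (b (a (a (l 16758912) (b (l 16741440) (l 150491590647))) (b (a (b (l 16746856) (l 158007781319)) (a (b (l 170892682519) (l 248202092647)) (l 254644548039))) (a (b (l 223506026279) (l 249275838743)) (l 3)))) (a (b (a (l 152102202103) (b (l 219211059079) (l 245517742359))) (a (b (l 217063575591) (l 242296516887)) (l 3))) (l 3)))))) (a (b (a (b (l 16710776) (a (l 16719912) (l 16725880))) (b (a (l 16721272) (l 16731704)) (a (l 16735152) (b (l 16741896)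 (l 16759328))))) (b (a (a (l 16732368) (l 16739912)) (a (b (l 16745384) (l 16751544)) (b (a (l 16753176) (b (l 235317199687) (l 247665230887))) (a (l 255181421975) (l 241759661639))))) (b (a (l 16766352) (a (a (l 16754920) (l 241222792551)) (a (l 247665243143) (l 3)))) (l 2)))) (a (b (b (a (b (l 16739360) (l 156934044887)) (b (a (l 16759528) (b (l 216526704759) (l 240685904071))) (a (b (l 232632832055) (l 239612162007)) (l 3)))) (a (b (a (l 16760944) (b (l 239612154279) (l 247665225863))) (a (b (l 210084266455) (l 247128357543)) (l 244444012007))) (l 3))) (b (a (b (a (l 236927821447) (l 3)) (l 3)) (l 3)) (l 3))) (l 3)))), by decide +kernel⟩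

def k3_mm_202_a : ∃ t, chk3 f_mm_202_a t 2 7 1 = true :=
  ⟨(a (l 2) (a (l 2) (l 3))), by decide +kernel⟩

def k4_mm_202_a : ∃ t, chk3 f_mm_202_a t 6 4 1 = true :=
  ⟨(b (a (b (b (l 16505616) (l 16526312)) (a (l 16541216) (l 16570792))) (b (b (a (l 16552664) (l 16588296)) (a (l 16573944) (l 16610072))) (b (a (l 16594208) (a (l 16621712) (l 16667528))) (a (b (l 16608744) (l 16634416)) (b (a (l 16637344) (l 16654408)) (a (l 16645384) (l 16663472))))))) (a (b (b (a (l 16568288) (b (l 16593728) (a (l 16594536) (l 16610424)))) (a (b (l 16580960) (l 16589152)) (b (l 16610808) (l 16619064)))) (b (a (b (l 16597320) (l 16605136)) (a (l 16622640) (l 16660136))) (a (b (l 16612872) (l 16620264)) (a (l 16638880) (l 16654808))))) (b (a (b (b (a (l 16618256) (l 16635760)) (l 16635544)) (a (l 16663112) (b (l 16652928) (l 16661184)))) (b (b (a (l 16654264) (l 16651336)) (a (l 16662952) (l 16680792))) (a (b (l 16671320) (l 16679752)) (b (l 16689440) (l 16697920))))) (a (b (b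 (l 16660496) (l 16668504)) (a (b (l 16667504) (l 16675176)) (l 16689112))) (b (a (b (l 16687992) (l 16696048)) (b (l 16706112) (l 16714248))) (a (l 16749792) (b (l 16722160) (a (l 16725232) (l 16754504))))))))), by decide +kernel⟩

def k5_mm_202_a : ∃ t, chk3 f_mm_202_a t 14 8 1 = true :=
  ⟨(b (a (b (b (l 16620560) (l 16632016)) (l 16648664)) (b (b (a (l 16651240) (l 6)) (l 16715808)) (b (a (l 16674448) (a (l 16690856) (l 16724376))) (a (b (l 16683856) (l 16709872)) (b (a (l 16699288) (l 16709952)) (a (l 16704008) (l 16715664))))))) (a (b (b (a (l 16655632) (b (l 16673648) (l 16677384))) (a (b (l 16662144) (l 16666560)) (b (l 16682152) (l 16687616)))) (b (a (l 16673472) (a (l 16688552) (l 16656408))) (a (b (l 16680296) (l 16684536)) (l 16702208)))) (b (a (b (b (a (l 16687800) (l 16698136)) (l 16698584)) (a (l 16721192) (l 16709288))) (b (a (b (l 16708704) (l 16713048)) (b (l 16698224) (l 16723792))) (a (l 16719864) (b (l 16728304) (l 16732896))))) (a (b (a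 (l 16708344) (l 16749544)) (a (l 16717456) (l 16727384))) (b (a (b (l 16705792) (l 16710104)) (l 16760368)) (a (l 16737856) (b (l 16746320) (l 16768032)))))))), by decide +kernel⟩

def k6_mm_202_a : ∃ t, chk3 f_mm_202_a t 15 8 1 = true :=
  ⟨(b (a (b (l 6) (a (b (l 6) (b (a (l 16722056) (l 6)) (a (l 16725632) (l 16736944)))) (l 6))) (l 6)) (a (b (a (b (a (b (l 16730248) (l 16734928)) (b (a (l 16738768) (l 16744336)) (l 16745864))) (a (b (l 16739256) (l 16743744)) (a (l 16749976) (b (l 16753328) (l 16771832))))) (b (a (b (a (l 16749632) (l 6)) (a (l 16754272) (c (l 16770464) (l 16770600)))) (b (l 6) (a (b (l 6) (l 16771464)) (l 6)))) (a (a (b (c (l 16769448) (l 16769608)) (l 16770896)) (b (b (l 16763024) (l 16765176)) (b (l 16772488) (a (l 16767952) (l 100562625495))))) (a (b (a (l 16771976) (b (l 16772248) (a (l 16773312) (l 192367548775)))) (a (b (c (l 111300044103) (l 104857593063)) (l 226727287351)) (b (l 229411642951) (l 3)))) (b (a (b (a (l 109152560103)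 (l 194515033511)) (l 3)) (l 3)) (l 3)))))) (a (b (b (a (l 16748312) (a (l 16756768) (l 16767304))) (a (a (l 16750032) (l 16755616)) (a (l 16771432) (c (l 124184939911) (l 118279359591))))) (b (a (b (l 16766592) (l 16768672)) (a (l 16770128) (a (b (l 16767576) (c (l 144049168599) (l 173577065799))) (b (l 227801024759) (l 3))))) (a (a (l 16758696) (l 16769104)) (a (a (b (l 16766560) (l 131701133015)) (b (l 145659777911) (l 257865797815))) (a (b (l 240685929703) (l 3)) (l 3)))))) (a (b (b (b (a (l 16766128) (a (l 111300042231) (l 224579802679))) (a (l 101099493991) (a (c (l 221358577431) (l 225116673799)) (l 3)))) (a (a (b (l 16771352) (l 226190413207)) (b (l 222969188935) (l 3))) (l 3))) (l 3)) (l 3)))) (b (b (l 6) (l 3)) (l 3)))), by decide +kernel⟩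

def k7_mm_202_a : ∃ t, chk3 f_mm_202_a t 14 18 1 = true :=
  ⟨(a (b (a (b (l 16649096) (a (l 16694984) (l 16704840))) (b (a (l 16706096) (l 16716336)) (a (l 16714856) (l 16724888)))) (a (b (l 16708488) (l 16716840)) (a (l 16727712) (b (l 16733616) (l 16757480))))) (b (a (b (a (l 16726024) (l 16736312)) (a (l 16734912) (l 16766192))) (b (a (b (l 16744544) (l 16764840)) (b (b (l 16764528) (l 16766600)) (c (l 16769656) (l 16769712)))) (b (a (l 16763648) (a (l 16760728) (c (l 86067105879) (l 86067105255)))) (a (l 16767720) (a (c (l 89825199783) (l 90362070151)) (a (b (l 95193908823) (l 165523997415)) (b (l 208473671431) (l 3)))))))) (a (a (b (l 16759360) (a (l 16748608) (l 16753528))) (b (b (l 16761808) (l 16765560)) (a (l 16766400) (b (l 16766856) (a (l 102710097735) (l 166597734263)))))) (a (b (a (c (l 90362068711) (l 16768568)) (b (l 93583294503) (a (b (l 16765416) (l 84993363767)) (b (l 122037453751) (l 3))))) (a (b (a (l 86067104007) (b (l 86603975527) (l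 3))) (a (l 215452992055) (l 3))) (l 3))) (b (a (b (a (b (l 16769040) (l 165523995351)) (l 210621152263)) (l 3)) (l 3)) (l 3)))))), by decide +kernel⟩

def k8_mm_202_a : ∃ t, chk3 f_mm_202_a t 14 19 1 = true :=
  ⟨(a (b (a (b (l 16725240) (a (l 16728472) (l 16737488))) (a (b (l 16760688) (l 16760080)) (b (l 16764952) (a (l 16754504) (c (l 113984387159) (l 113447517031)))))) (a (b (a (l 16735304) (l 16765824)) (a (l 16763920) (b (l 16751008) (l 16766064)))) (b (a (a (l 16752504) (b (l 16766128) (l 16765216))) (a (b (l 140827929671) (a (l 174650801191) (l 246054628487))) (b (a (l 229948497767) (l 247128372087)) (l 3)))) (a (b (a (l 16764256) (b (l 169818962391) (l 260013269895))) (a (a (l 152102218215) (l 243907141111)) (l 3))) (l 3))))) (b (a (b (a (a (l 16766976) (b (l 16759584) (l 115595001367))) (a (b (b (l 16768960) (l 96804523463)) (a (l 213842375735) (l 3))) (b (a (l 214916119303) (l 3)) (l 3)))) (a (a (b (l 113447517095) (l 237464692279)) (b (a (l 213305503127)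 (l 3)) (l 3))) (l 3))) (l 3)) (l 3))), by decide +kernel⟩

def k9_mm_202_a : ∃ t, chk3 f_mm_202_a t 15 9 1 = true :=
  ⟨(b (a (a (b (a (b (a (b (l 16762824) (a (l 16770744) (b (l 16767008) (l 95730783431)))) (b (a (l 16770464) (b (l 16770656) (l 199883737207))) (a (b (l 199883736167) (l 3)) (l 3)))) (a (b (a (b (l 98415136791) (l 3)) (l 3)) (l 3)) (l 3))) (b (a (b (a (b (l 232632863895) (l 3)) (l 3)) (l 3)) (l 3)) (l 3))) (l 3)) (l 3)) (l 3)) (l 3)), by decide +kernel⟩

def k10_mm_202_a : ∃ t, chk3 f_mm_202_a t 6 10 1 = true :=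
  ⟨(a (b (a (b (l 16653328) (l 16647848)) (b (a (l 16654416) (l 16670368)) (a (l 16670080) (l 16707552)))) (a (b (a (l 16656440) (l 16670544)) (l 16742144)) (b (a (l 16686336) (l 16702376)) (a (l 16701760) (a (l 16714040) (l 16763920)))))) (b (a (b (a (l 16687136) (l 16704888)) (a (l 16703088) (a (l 16716296) (b (l 16721488) (l 16698008))))) (b (a (b (l 16719536) (a (l 16722960) (l 16732024))) (b (b (l 16756584) (l 16760800)) (a (l 16741160) (l 16766288)))) (a (b (a (l 16730944) (l 16740136)) (a (l 16739056) (l 16748160))) (a (b (l 16759720) (a (l 131164251511) (b (l 16762744) (l 200957461815)))) (b (a (b (l 16754208) (l 16763440)) (b (l 124721802759) (l 192904402375))) (a (b (a (l 131164250295) (l 228874753031)) (l 3)) (l 3))))))) (a (b (a (b (l 16715072) (l 16743872)) (b (c (l 16754848) (l 16774008)) (a (l 16757216) (l 16745320)))) (a (b (a (l 16726528) (l 16735176)) (a (l 16734296) (l 16763608))) (b (a (l 16743872) (a (l 16750616) (b (l 16753320) (l 176798274103))))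 (a (b (l 16749480) (l 141901662231)) (a (b (l 143512276935) (l 235854068439)) (b (l 264845099511) (l 3))))))) (b (a (b (a (l 16746976) (b (l 16764544) (a (l 16755728) (l 173577056151)))) (a (b (l 16763264) (a (l 16754224) (a (l 16760400) (l 215452980631)))) (b (a (l 180556374871) (l 3)) (l 265381980391)))) (b (a (a (b (l 205252430391) (l 3)) (l 3)) (l 3)) (l 3))) (a (a (b (a (b (l 190756918055) (l 280951228807)) (b (l 268603199783) (l 3))) (l 3)) (l 3)) (l 3)))))), by decide +kernel⟩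

def k11_mm_202_a : ∃ t, chk3 f_mm_202_a t 6 11 1 = true :=
  ⟨(a (b (a (b (l 16715048) (a (l 16701216) (a (l 16712048) (l 16740344)))) (b (a (b (l 16713232) (l 16741440)) (a (b (l 16725448) (l 16732904)) (b (l 16733568) (l 16740672)))) (a (b (a (l 16723824) (l 16731928)) (l 16755808)) (a (b (l 16739840) (l 16757288)) (b (l 16755776) (a (b (l 16751000) (l 177872009575)) (b (l 173577047767) (l 270750675975)))))))) (a (b (a (a (l 16711096) (l 16717984)) (b (l 16726144) (l 16732752))) (a (b (l 16724936) (l 16731712)) (b (l 16755432) (a (l 16742856) (b (l 16756760) (a (l 16750472) (l 238538412247))))))) (b (a (b (a (l 16737552) (l 16756080)) (a (l 16754928) (b (l 155323430455) (a (l 16757624) (l 266992574999))))) (b (a (a (b (l 16750016) (l 181093234791)) (b (l 187535687783) (l 270750673815))) (a (l 274508775623) (l 3))) (a (a (b (l 278803736375) (l 3)) (l 3)) (l 3)))) (a (b (a (a (l 158544651943) (b (l 16757080) (l 236390930615))) (a (b (l 244980866359) (l 3))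 (l 3))) (a (a (b (l 237464671367) (l 3)) (l 3)) (l 3))) (l 3))))) (b (a (b (a (b (a (l 16741576) (b (l 16748144) (l 144586017575))) (a (b (l 16767960) (l 16761040)) (a (b (l 16763720) (a (l 140291049575) (l 234780322663))) (b (a (l 133848600167) (l 237464678695)) (l 3))))) (a (b (a (b (l 16759856) (a (l 144049144215) (l 238538422071))) (b (l 235317193191) (l 3))) (l 3)) (l 3))) (a (a (b (a (b (l 16752032) (l 170355824439)) (b (l 197736231367) (l 3))) (a (l 275045648823) (l 3))) (l 3)) (l 3))) (l 3)) (l 3))), by decide +kernel⟩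

def k12_mm_202_a : ∃ t, chk3 f_mm_202_a t 7 5 1 = true :=
  ⟨(b (a (b (a (b (a (b (a (a (l 16749592) (l 16765040)) (a (b (l 16757416) (l 138680445159)) (b (a (l 16766432) (l 220821689895)) (l 249812724647)))) (a (a (b (l 16755728) (l 116131869607)) (b (l 118279354295) (l 224042917239))) (a (b (l 231022240871) (l 3)) (l 3)))) (b (a (a (b (l 264308241223) (l 3)) (l 3)) (l 3)) (l 3))) (a (a (b (a (b (l 224579781207) (l 3)) (l 3)) (l 3)) (l 3)) (l 3))) (l 3)) (l 3)) (l 3)) (l 3)), by decide +kernel⟩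

def k13_mm_202_a : ∃ t, chk3 f_mm_202_a t 3 3 1 = true :=
  ⟨(b (a (b (a (b (a (b (a (b (l 16749096) (a (l 16741928) (a (l 16758064) (b (l 16749608) (l 236927796823))))) (b (a (b (l 16758696) (a (l 16749864) (l 244980861703))) (b (a (l 238538411447) (l 3)) (l 3))) (a (a (b (l 241222764695) (l 3)) (l 3)) (l 3)))) (a (b (a (b (l 16747288) (l 173577040535)) (a (b (l 227800990791) (l 270750672167)) (l 274508773543))) (a (a (b (l 183777585783) (l 243907125671)) (l 261086999687)) (l 3))) (l 3))) (l 3)) (l 3)) (l 3)) (l 3)) (l 3)) (l 3)), by decide +kernel⟩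

theorem s14_mm_202_a : ∃ t, chk3 f_mm_202_a t 6 5 1 = true := ex3_b k10_mm_202_a k11_mm_202_a

theorem s15_mm_202_a : ∃ t, chk3 f_mm_202_a t 3 5 1 = true := ex3_a s14_mm_202_a k12_mm_202_a

theorem s16_mm_202_a : ∃ t, chk3 f_mm_202_a t 14 9 1 = true := ex3_b k7_mm_202_a k8_mm_202_a

theorem s17_mm_202_a : ∃ t, chk3 f_mm_202_a t 7 9 1 = true := ex3_a s16_mm_202_a k9_mm_202_a

theorem s18_mm_202_a : ∃ t, chk3 f_mm_202_a t 7 8 1 = true := ex3_a k5_mm_202_a k6_mm_202_a

theorem s19_mm_202_a : ∃ t, chk3 f_mm_202_a t 7 4 1 = true := ex3_b s18_mm_202_a s17_mm_202_a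

theorem s20_mm_202_a : ∃ t, chk3 f_mm_202_a t 3 4 1 = true := ex3_a k4_mm_202_a s19_mm_202_a

theorem s21_mm_202_a : ∃ t, chk3 f_mm_202_a t 3 2 1 = true := ex3_b s20_mm_202_a s15_mm_202_a

theorem s22_mm_202_a : ∃ t, chk3 f_mm_202_a t 3 1 1 = true := ex3_b s21_mm_202_a k13_mm_202_a

theorem s23_mm_202_a : ∃ t, chk3 f_mm_202_a t 2 6 1 = true := ex3_a k1_mm_202_a k2_mm_202_a

theorem s24_mm_202_a : ∃ t, chk3 f_mm_202_a t 2 3 1 = true := ex3_b s23_mm_202_a k3_mm_202_a

theorem s25_mm_202_a : ∃ t, chk3 f_mm_202_a t 2 1 1 = true := ex3_b k0_mm_202_a s24_mm_202_a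

theorem s26_mm_202_a : ∃ t, chk3 f_mm_202_a t 1 1 1 = true := ex3_a s25_mm_202_a s22_mm_202_a

theorem c_mm_202_a : CertB 0 536870912 1073741824 536870912 649613803 48318383 3 eng mog cd1q2a cd8q2 pd0 false false false .pp 2 0 2
    ndB1q2a ndB8q2 pcB0 cut_mm_202_a Ext.none :=
  certB1 (fam := false) (s1 := false) (s2 := false) (a := 2) (b := 0) (c := 2) (cn := .pp) (n1 := ndB1q2a) (n2 := ndB8q2) (pc := pcB0) (cut := cut_mm_202_a) (xt := Ext.none) (P1 := 0) (W1 := 536870912) (P2 := 1073741824) (W2 := 536870912) (P3 := 649613803) (W3 := 48318383) (N0 := 3) (En := eng) (mo := mog) (C1 := cd1q2a) (C2 := cd8q2) (C3 := pd0)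
    rfl (fun _ => rfl) s26_mm_202_a

noncomputable def cut_mm_202_b : Cut := Cut.of [[⟨0, 1, 0, 67108864⟩, ⟨1, 0, 0, 67108864⟩, ⟨2, 1, 0, 67108864⟩]]

noncomputable def f_mm_202_b : ℕ → ℕ → ℕ → ℕ → Bool := onCell 0 536870912 1073741824 536870912 649613803 48318383
    (rowB 3 eng mog cd1q2b cd8q2 pd0 2 false false false .pp 2 0 2 (qsf 1239849684 370763052 1073741824 536870912 0) ndB1q2b ndB8q2 pcB0 cut_mm_202_b Ext.none)

def k0_mm_202_b : ∃ t, chk3 f_mm_202_b t 1 1 1 = true :=
  ⟨(a (b (a (b (l 1) (b (a (a (b (l 16386488) (l 16385256)) (l 309270888263)) (l 1)) (a (a (l 16371408) (l 16423016)) (a (l 16470264) (l 311418423463))))) (l 1)) (b (a (a (b (a (l 16326440) (l 16385656)) (l 16256512)) (b (a (l 16442024) (b (l 16504920) (l 16486120))) (a (l 16365000) (l 16429808)))) (a (b (a (b (l 16550960) (l 16539608)) (l 263100006039)) (a (l 16495040) (l 16556168))) (b (l 1) (a (l 302291498919) (l 375305740807))))) (a (a (b (l 16139288) (l 16081488)) (b (l 16267376)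 (a (l 16175888) (l 16233472)))) (a (b (a (l 16363216) (l 16650944)) (b (l 16348856) (l 16332544))) (b (a (l 16513888) (b (l 16614896) (l 16560768))) (b (l 16477328) (l 16557520))))))) (a (b (l 1) (b (l 1) (a (b (b (a (l 16673224) (l 1)) (l 285648558151)) (b (l 16626240) (l 16564728))) (b (l 1) (b (l 454226083895) (l 289943654663)))))) (l 1))), by decide +kernel⟩

theorem c_mm_202_b : CertB 1239849684 370763052 1073741824 536870912 649613803 48318383 3 eng mog cd1q2b cd8q2 pd0 false false false .pp 2 0 2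
    ndB1q2b ndB8q2 pcB0 cut_mm_202_b Ext.none :=
  certB2 (fam := false) (s1 := false) (s2 := false) (a := 2) (b := 0) (c := 2) (cn := .pp) (n1 := ndB1q2b) (n2 := ndB8q2) (pc := pcB0) (cut := cut_mm_202_b) (xt := Ext.none) (P1 := 1239849684) (W1 := 370763052) (P2 := 1073741824) (W2 := 536870912) (P3 := 649613803) (W3 := 48318383) (N0 := 3) (En := eng) (mo := mog) (C1 := cd1q2b) (C2 := cd8q2) (C3 := pd0)
    rfl (fun _ => rfl) k0_mm_202_b

noncomputable def f_mm_203_a : ℕ → ℕ → ℕ → ℕ → Bool := onCell 0 536870912 0 1230186008 649613803 48318383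
    (rowB 3 eng mog cd1q2a cd8q3 pd0 0 false false false .up 2 0 3 (qsf 0 536870912 0 1230186008 0) ndB1q2a ndB8q3 pcB0 Cut.none Ext.none)

def k0_mm_203_a : ∃ t, chk3 f_mm_203_a t 1 2 1 = true :=
  ⟨(l 2), by decide +kernel⟩

def k1_mm_203_a : ∃ t, chk3 f_mm_203_a t 2 6 1 = true :=
  ⟨(l 2), by decide +kernel⟩

def k2_mm_203_a : ∃ t, chk3 f_mm_203_a t 2 14 1 = true :=
  ⟨(a (b (l 2) (a (b (l 2) (a (a (b (l 16772248) (l 16771472)) (b (l 283568510407) (l 16771792))) (b (a (a (b (a (l 504759314359) (b (l 2) (l 323900917959))) (a (l 16772168) (b (l 237464706839) (l 16771832)))) (b (l 3) (a (b (l 326585283255) (l 238538459959)) (l 342154540967)))) (l 3)) (a (a (l 16772000) (b (a (l 16771752) (b (l 287930568807) (l 16771376))) (l 16771808))) (a (b (a (b (l 336785831015) (l 287393703703)) (l 345375766439)) (a (l 16771232) (b (l 289541187655) (l 16771336)))) (b (l 3) (a (l 315310993495) (l 3)))))))) (l 3))) (l 3)), by decide +kernel⟩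

def k3_mm_203_a : ∃ t, chk3 f_mm_203_a t 2 30 1 = true :=
  ⟨(a (a (b (a (b (a (l 16769592) (l 16770440)) (a (l 16766248) (l 16767168))) (a (b (l 16771032) (l 16768872)) (b (a (l 16771280) (b (a (l 195051906999) (b (l 316921604519) (l 226190424359))) (l 16770832))) (l 16769808)))) (a (l 16758448) (b (a (l 16764088) (l 16766616)) (a (l 16757992) (l 16760064))))) (b (a (b (a (a (b (l 328732767719) (b (a (l 223506070535) (l 324974668503)) (l 236927830999))) (b (l 3) (l 338396444215))) (l 3)) (b (a (a (l 16770224) (a (b (l 286319958695) (l 16769448)) (b (l 322827185159) (l 284709346231)))) (l 3)) (a (l 184314492887) (a (a (b (l 283098733719) (l 16769816)) (l 308331669031)) (l 3))))) (l 3)) (a (b (a (l 16767976) (a (b (l 192904423159) (l 16768112)) (b (b (l 309405390167) (l 278266893703)) (l 225653546759)))) (a (l 16763400) (l 16765752))) (b (a (a (b (l 3) (a (l 280414379031) (l 302426089687))) (l 3)) (l 3)) (a (a (b (a (l 16767608) (l 232632865367)) (l 16766336))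 (b (l 291688669479) (a (l 16766968) (l 268603217927)))) (b (l 3) (a (l 287930573031) (l 3)))))))) (l 3)), by decide +kernel⟩

def k4_mm_203_a : ∃ t, chk3 f_mm_203_a t 2 31 1 = true :=
  ⟨(a (a (b (a (l 16739832) (l 16745352)) (b (l 16720768) (l 16705992))) (b (a (b (a (l 16754720) (l 16759104)) (a (l 16744992) (l 16748528))) (b (a (l 16783544) (a (b (a (l 16766352) (l 270213825287)) (l 16763744)) (b (l 291688669319) (a (l 16776920) (l 263234503127))))) (a (l 16754096) (b (l 16761176) (l 16756648))))) (a (l 16728248) (b (a (l 16741232) (l 16748064)) (a (l 16729000) (l 16734424)))))) (a (b (a (b (a (b (l 3) (a (l 283098734311) (l 3))) (l 3)) (a (a (b (a (l 229411634711) (l 268603211159)) (l 16760928)) (b (l 275045669655) (a (l 225116668711) (l 284172465767)))) (b (l 3) (a (l 269676958887) (l 3))))) (l 3)) (a (b (a (b (l 16768200) (l 16751936)) (a (b (a (l 224579805143) (l 277193141271)) (l 16768448)) (b (b (l 3) (l 268603212439)) (b (l 266992592743) (l 233706608855)))))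 (a (l 16742568) (b (a (l 16752064) (l 211158017031)) (l 16748000)))) (b (l 3) (a (a (b (b (l 263234496487) (l 238538445943)) (l 209547403367)) (b (l 3) (b (l 254644561607) (l 235317219895)))) (l 3))))) (l 3))), by decide +kernel⟩

def k5_mm_203_a : ∃ t, chk3 f_mm_203_a t 3 3 1 = true :=
  ⟨(l 3), by decide +kernel⟩

theorem s6_mm_203_a : ∃ t, chk3 f_mm_203_a t 2 15 1 = true := ex3_b k3_mm_203_a k4_mm_203_a

theorem s7_mm_203_a : ∃ t, chk3 f_mm_203_a t 2 7 1 = true := ex3_b k2_mm_203_a s6_mm_203_a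

theorem s8_mm_203_a : ∃ t, chk3 f_mm_203_a t 2 3 1 = true := ex3_b k1_mm_203_a s7_mm_203_a

theorem s9_mm_203_a : ∃ t, chk3 f_mm_203_a t 1 3 1 = true := ex3_a s8_mm_203_a k5_mm_203_a

theorem s10_mm_203_a : ∃ t, chk3 f_mm_203_a t 1 1 1 = true := ex3_b k0_mm_203_a s9_mm_203_a

theorem c_mm_203_a : CertB 0 536870912 0 1230186008 649613803 48318383 3 eng mog cd1q2a cd8q3 pd0 false false false .up 2 0 3
    ndB1q2a ndB8q3 pcB0 Cut.none Ext.none :=
  certB0 (fam := false) (s1 := false) (s2 := false) (a := 2) (b := 0) (c := 3) (cn := .up) (n1 := ndB1q2a) (n2 := ndB8q3) (pc := pcB0) (cut := Cut.none) (xt := Ext.none) (P1 := 0) (W1 := 536870912) (P2 := 0) (W2 := 1230186008) (P3 := 649613803) (W3 := 48318383) (N0 := 3) (En := eng) (mo := mog) (C1 := cd1q2a) (C2 := cd8q3) (C3 := pd0)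
    rfl s10_mm_203_a

noncomputable def f_mm_203_b : ℕ → ℕ → ℕ → ℕ → Bool := onCell 0 536870912 0 1230186008 649613803 48318383
    (rowB 3 eng mog cd1q2b cd8q3 pd0 2 false false false .up 2 0 3 (qsf 1239849684 370763052 0 1230186008 0) ndB1q2b ndB8q3 pcB0 Cut.none Ext.none)

def k0_mm_203_b : ∃ t, chk3 f_mm_203_b t 1 1 1 = true :=
  ⟨(b (l 3) (b (l 3) (a (b (l 3) (a (b (a (l 2) (a (l 16227952) (l 16179808))) (a (l 16284392) (b (l 16161408) (l 16177152)))) (b (a (b (l 16270808) (l 16270568)) (l 16497232)) (a (b (b (l 16277872) (l 16292264)) (l 16304528)) (b (l 16410472) (l 16435432)))))) (b (b (l 3) (a (a (l 132237790375) (a (l 16581464) (l 16684592))) (a (a (l 142438327223) (a (l 141901500855) (b (l 141901625639) (l 16714336)))) (b (a (b (l 3) (l 16712320)) (b (l 16758120) (l 16738504))) (a (b (l 16713120) (l 16713648)) (b (l 16727968) (l 16750696))))))) (a (b (a (b (l 16566600) (l 16512408)) (a (l 16581808) (l 16686832))) (b (a (l 16529216) (l 16620456))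 (a (l 16549408) (l 16667480)))) (a (b (b (b (a (l 16655872) (l 16682352)) (l 16667040)) (l 16711512)) (b (l 337725201863) (l 455299873687))) (b (b (a (l 16756672) (l 357052457223)) (l 475701120551)) (l 1)))))))), by decide +kernel⟩

theorem c_mm_203_b : CertB 1239849684 370763052 0 1230186008 649613803 48318383 3 eng mog cd1q2b cd8q3 pd0 false false false .up 2 0 3
    ndB1q2b ndB8q3 pcB0 Cut.none Ext.none :=
  certB2 (fam := false) (s1 := false) (s2 := false) (a := 2) (b := 0) (c := 3) (cn := .up) (n1 := ndB1q2b) (n2 := ndB8q3) (pc := pcB0) (cut := Cut.none) (xt := Ext.none) (P1 := 1239849684) (W1 := 370763052) (P2 := 0) (W2 := 1230186008) (P3 := 649613803) (W3 := 48318383) (N0 := 3) (En := eng) (mo := mog) (C1 := cd1q2b) (C2 := cd8q3) (C3 := pd0)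
    rfl (fun _ => rfl) k0_mm_203_b

noncomputable def f_mm_213_a : ℕ → ℕ → ℕ → ℕ → Bool := onCell 0 536870912 0 1230186008 649613803 48318383
    (rowB 3 eng mog cd1q2a cd8q3 pd1 0 false false false .pnn 2 1 3 (qsf 0 536870912 0 1230186008 1) ndB1q2a ndB8q3 pcB1 Cut.none Ext.none)

def k0_mm_213_a : ∃ t, chk3 f_mm_213_a t 2 1 1 = true :=
  ⟨(b (l 3) (b (l 3) (b (a (a (b (b (l 3) (a (a (b (l 3) (a (b (l 3) (a (b (a (a (a (b (l 3) (l 326585285079)) (l 340007058599)) (l 362018765927)) (l 3)) (a (a (l 16776920) (b (l 271824451367) (l 16776768))) (b (l 338396443031) (a (l 16776056) (l 280414391479))))) (b (l 3) (l 368998087255)))) (l 3))) (l 3)) (l 3))) (b (a (a (b (a (b (a (l 16777672) (b (a (a (l 239612193655) (b (l 330880252071) (l 16776000))) (a (b (l 350207605463) (l 272898192631)) (l 334638349079))) (l 16777408))) (l 16777784)) (b (a (b (l 3) (a (b (a (l 279877514727) (l 342154541287)) (l 251960224807)) (l 333027733559))) (l 3)) (a (b (a (l 16777056) (b (l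 260013288295) (l 16776416))) (l 16777544)) (b (a (b (l 337859573815) (l 266992611367)) (l 337859574327)) (a (l 16776584) (b (l 272898191815) (l 16775656))))))) (b (l 16777024) (l 16774456))) (b (a (b (l 3) (a (b (l 3) (a (b (l 346449508455) (c (l 277730030375) (l 327122154055))) (l 3))) (l 3))) (l 3)) (a (b (a (b (a (l 16775952) (b (l 329269637959) (l 16774952))) (l 16777048)) (b (l 334101477671) (a (l 244444030167) (b (l 335712089111) (l 264845126567))))) (l 16777512)) (b (a (l 360408152375) (l 3)) (a (b (a (b (l 271287577815) (l 16775088)) (b (l 341080798407) (l 324437798407))) (l 16776232)) (b (l 343228283111) (a (b (l 328195894999) (l 16774344)) (l 334101476119)))))))) (l 3)) (b (a (a (l 16769160) (b (a (l 16776424) (b (l 223506071351) (l 16777368))) (l 1))) (a (b (a (a (b (a (b (l 340543926279) (l 264845128743)) (l 337859572679)) (a (l 16775816) (l 251423350711))) (b (l 3) (a (l 329269636663) (l 341080798311)))) (l 3)) (l 1)) (l 3))) (l 1)))) (l 3)) (l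 3)) (b (a (l 1) (l 3)) (l 1))))), by decide +kernel⟩

def k1_mm_213_a : ∃ t, chk3 f_mm_213_a t 3 1 1 = true :=
  ⟨(b (b (l 5) (l 3)) (l 3)), by decide +kernel⟩

theorem s2_mm_213_a : ∃ t, chk3 f_mm_213_a t 1 1 1 = true := ex3_a k0_mm_213_a k1_mm_213_a

theorem c_mm_213_a : CertB 0 536870912 0 1230186008 649613803 48318383 3 eng mog cd1q2a cd8q3 pd1 false false false .pnn 2 1 3
    ndB1q2a ndB8q3 pcB1 Cut.none Ext.none :=
  certB0 (fam := false) (s1 := false) (s2 := false) (a := 2) (b := 1) (c := 3) (cn := .pnn) (n1 := ndB1q2a) (n2 := ndB8q3) (pc := pcB1) (cut := Cut.none) (xt := Ext.none) (P1 := 0) (W1 := 536870912) (P2 := 0) (W2 := 1230186008) (P3 := 649613803) (W3 := 48318383) (N0 := 3) (En := eng) (mo := mog) (C1 := cd1q2a) (C2 := cd8q3) (C3 := pd1)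
    rfl s2_mm_213_a

noncomputable def f_mm_213_b : ℕ → ℕ → ℕ → ℕ → Bool := onCell 1239849684 370763052 0 1230186008 649613803 48318383
    (rowB 3 eng mog cd1q2b cd8q3 pd1 0 false false false .pnn 2 1 3 (qsf 1239849684 370763052 0 1230186008 1) ndB1q2b ndB8q3 pcB1 Cut.none Ext.none)

def k0_mm_213_b : ∃ t, chk3 f_mm_213_b t 1 1 1 = true :=
  ⟨(b (l 3) (b (l 3) (a (b (a (b (a (b (l 3) (b (l 3) (b (l 3) (a (a (a (b (b (l 3) (b (l 345912636695) (l 16773984))) (l 16772888)) (l 338396431287)) (l 3)) (l 3))))) (l 3)) (a (b (b (a (b (a (l 16768888) (l 16759536)) (l 16762064)) (l 315311006551)) (a (l 16771184) (l 1))) (a (b (l 16776432) (l 1)) (l 1))) (l 1))) (l 1)) (l 1)) (l 1)))), by decide +kernel⟩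

theorem c_mm_213_b : CertB 1239849684 370763052 0 1230186008 649613803 48318383 3 eng mog cd1q2b cd8q3 pd1 false false false .pnn 2 1 3
    ndB1q2b ndB8q3 pcB1 Cut.none Ext.none :=
  certB0 (fam := false) (s1 := false) (s2 := false) (a := 2) (b := 1) (c := 3) (cn := .pnn) (n1 := ndB1q2b) (n2 := ndB8q3) (pc := pcB1) (cut := Cut.none) (xt := Ext.none) (P1 := 1239849684) (W1 := 370763052) (P2 := 0) (W2 := 1230186008) (P3 := 649613803) (W3 := 48318383) (N0 := 3) (En := eng) (mo := mog) (C1 := cd1q2b) (C2 := cd8q3) (C3 := pd1)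
    rfl k0_mm_213_b

noncomputable def f_mm_303 : ℕ → ℕ → ℕ → ℕ → Bool := onCell 0 536870912 0 1230186008 649613803 48318383
    (rowB 3 eng mog cd1q3 cd8q3 pd0 2 false false false .npn 3 0 3 (qsf 1610612736 536870912 0 1230186008 0) ndB1q3 ndB8q3 pcB0 Cut.none Ext.none)

def k0_mm_303 : ∃ t, chk3 f_mm_303 t 1 1 1 = true :=
  ⟨(b (l 3) (b (l 3) (a (b (l 3) (a (b (a (b (l 16076200) (l 16049392)) (a (l 16209016) (l 16199376))) (a (l 16280632) (b (l 16175544) (l 1)))) (b (a (b (l 16287288) (l 1)) (l 1)) (l 1)))) (l 1)))), by decide +kernel⟩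

theorem c_mm_303 : CertB 1610612736 536870912 0 1230186008 649613803 48318383 3 eng mog cd1q3 cd8q3 pd0 false false false .npn 3 0 3
    ndB1q3 ndB8q3 pcB0 Cut.none Ext.none :=
  certB2 (fam := false) (s1 := false) (s2 := false) (a := 3) (b := 0) (c := 3) (cn := .npn) (n1 := ndB1q3) (n2 := ndB8q3) (pc := pcB0) (cut := Cut.none) (xt := Ext.none) (P1 := 1610612736) (W1 := 536870912) (P2 := 0) (W2 := 1230186008) (P3 := 649613803) (W3 := 48318383) (N0 := 3) (En := eng) (mo := mog) (C1 := cd1q3) (C2 := cd8q3) (C3 := pd0)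
    rfl (fun _ => rfl) k0_mm_303

noncomputable def f_mm_313 : ℕ → ℕ → ℕ → ℕ → Bool := onCell 1610612736 536870912 0 1230186008 649613803 48318383
    (rowB 3 eng mog cd1q3 cd8q3 pd1 0 false false false .dn 3 1 3 (qsf 1610612736 536870912 0 1230186008 1) ndB1q3 ndB8q3 pcB1 Cut.none Ext.none)

def k0_mm_313 : ∃ t, chk3 f_mm_313 t 1 1 1 = true :=
  ⟨(b (l 3) (l 1)), by decide +kernel⟩

theorem c_mm_313 : CertB 1610612736 536870912 0 1230186008 649613803 48318383 3 eng mog cd1q3 cd8q3 pd1 false false false .dn 3 1 3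
    ndB1q3 ndB8q3 pcB1 Cut.none Ext.none :=
  certB0 (fam := false) (s1 := false) (s2 := false) (a := 3) (b := 1) (c := 3) (cn := .dn) (n1 := ndB1q3) (n2 := ndB8q3) (pc := pcB1) (cut := Cut.none) (xt := Ext.none) (P1 := 1610612736) (W1 := 536870912) (P2 := 0) (W2 := 1230186008) (P3 := 649613803) (W3 := 48318383) (N0 := 3) (En := eng) (mo := mog) (C1 := cd1q3) (C2 := cd8q3) (C3 := pd1)
    rfl k0_mm_313

end Pool.Agent.Strip051.G.I6050_6500.Tab.C.BB18

namespace Pool.Agent.Strip051.G.I6050_6500.Tab.C.BB20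

open Pool.Agent.Strip051.PB Pool.Agent.Strip051.PB.T
open Pool.Agent.Strip051.G.I6050_6500.Tab

noncomputable def f_pp_001 : ℕ → ℕ → ℕ → ℕ → Bool := onCell 0 536870912 0 536870912 649613803 48318383
    (rowB 3 eng mog cd2q0 cd0q1 pd0 1 false true true .up 0 0 1 (qsf 0 536870912 536870912 536870912 0) ndB2q0 ndB0q1 pcB0 Cut.none Ext.none)

def k0_pp_001 : ∃ t, chk3 f_pp_001 t 1 1 1 = true :=
  ⟨(l 3), by decide +kernel⟩

theorem c_pp_001 : CertB 0 536870912 536870912 536870912 649613803 48318383 3 eng mog cd2q0 cd0q1 pd0 false true true .up 0 0 1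
    ndB2q0 ndB0q1 pcB0 Cut.none Ext.none :=
  certB1 (fam := false) (s1 := true) (s2 := true) (a := 0) (b := 0) (c := 1) (cn := .up) (n1 := ndB2q0) (n2 := ndB0q1) (pc := pcB0) (cut := Cut.none) (xt := Ext.none) (P1 := 0) (W1 := 536870912) (P2 := 536870912) (W2 := 536870912) (P3 := 649613803) (W3 := 48318383) (N0 := 3) (En := eng) (mo := mog) (C1 := cd2q0) (C2 := cd0q1) (C3 := pd0)
    rfl (fun _ => rfl) k0_pp_001

noncomputable def cut_pp_011 : Cut := Cut.of [[⟨0, 0, 0, 67108864⟩, ⟨1, 1, 0, 67108864⟩, ⟨2, 1, 0, 67108864⟩]]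

noncomputable def f_pp_011 : ℕ → ℕ → ℕ → ℕ → Bool := onCell 0 536870912 536870912 536870912 649613803 48318383
    (rowB 3 eng mog cd2q0 cd0q1 pd1 0 false true true .pnn 0 1 1 (qsf 0 536870912 536870912 536870912 1) ndB2q0 ndB0q1 pcB1 cut_pp_011 Ext.none)

def k0_pp_011 : ∃ t, chk3 f_pp_011 t 1 1 1 = true :=
  ⟨(a (b (l 3) (b (l 3) (a (b (l 3) (a (b (l 3) (a (b (l 3) (l 6)) (l 3))) (l 3))) (l 3)))) (l 3)), by decide +kernel⟩

theorem c_pp_011 : CertB 0 536870912 536870912 536870912 649613803 48318383 3 eng mog cd2q0 cd0q1 pd1 false true true .pnn 0 1 1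
    ndB2q0 ndB0q1 pcB1 cut_pp_011 Ext.none :=
  certB0 (fam := false) (s1 := true) (s2 := true) (a := 0) (b := 1) (c := 1) (cn := .pnn) (n1 := ndB2q0) (n2 := ndB0q1) (pc := pcB1) (cut := cut_pp_011) (xt := Ext.none) (P1 := 0) (W1 := 536870912) (P2 := 536870912) (W2 := 536870912) (P3 := 649613803) (W3 := 48318383) (N0 := 3) (En := eng) (mo := mog) (C1 := cd2q0) (C2 := cd0q1) (C3 := pd1)
    rfl k0_pp_011

noncomputable def cut_pp_012 : Cut := Cut.of [[⟨0, 0, 0, 33554432⟩, ⟨1, 1, 0, 33554432⟩, ⟨2, 1, 0, 33554432⟩]]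

noncomputable def f_pp_012 : ℕ → ℕ → ℕ → ℕ → Bool := onCell 536870912 536870912 0 536870912 649613803 48318383
    (rowB 3 eng mog cd2q0 cd0q2 pd1 2 false true true .pnp 0 1 2 (qsf 0 536870912 0 536870912 1) ndB2q0 ndB0q2 pcB1 cut_pp_012 Ext.none)

def k0_pp_012 : ∃ t, chk3 f_pp_012 t 2 1 1 = true :=
  ⟨(b (a (b (l 2) (b (l 2) (l 3))) (b (b (a (b (l 16683744) (l 16699520)) (l 16657688)) (a (b (l 16713808) (l 50029590711)) (b (l 16685512) (l 16764632)))) (a (b (a (b (b (l 16728272) (a (l 16718728) (l 16726736))) (b (a (l 16700400) (l 16717496)) (a (b (l 16707232) (l 201964003815)) (l 16693336)))) (b (b (l 16728056) (l 16731112)) (a (b (l 16727328) (l 16714632)) (b (l 16732224) (l 16727224))))) (a (b (a (b (b (a (l 197736117543) (l 127942913815)) (l 205789182439)) (l 3)) (b (a (b (l 16693400) (l 133311604727)) (l 16694968)) (a (l 3) (l 181629993767)))) (l 3)) (b (a (b (l 16694872) (a (l 126869159879) (l 16703864))) (b (l 16708504) (l 16703688))) (b (a (l 191830552967)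 (a (l 131701017735) (l 16714416))) (l 200420500599))))) (b (a (b (l 16723648) (a (l 16734208) (l 16733352))) (l 16767312)) (a (b (b (a (l 16725936) (l 16734704)) (a (l 16704736) (l 16721864))) (a (b (l 16714336) (a (l 161228941415) (l 104857511367))) (b (l 16713920) (l 16727056)))) (b (a (b (l 16737328) (l 16735088)) (l 16738952)) (a (l 16718856) (a (l 16718608) (l 16727744))))))))) (a (l 3) (b (a (l 3) (b (a (b (a (l 3) (b (l 144049101543) (l 3))) (l 3)) (a (b (b (l 16741976) (l 135996080871)) (l 3)) (b (b (l 16737992) (l 16757128)) (l 168745236407)))) (l 3))) (l 3)))), by decide +kernel⟩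

def k1_pp_012 : ∃ t, chk3 f_pp_012 t 6 1 1 = true :=
  ⟨(b (b (a (b (l 16621040) (a (l 16668312) (l 16648424))) (b (l 16603872) (a (l 16627688) (l 16607024)))) (a (a (b (l 16705512) (b (l 16733904) (b (l 16743984) (a (l 16730208) (l 16744544))))) (b (b (l 16676592) (l 16697392)) (b (l 16719440) (l 16741016)))) (b (a (b (l 16656224) (l 16675720)) (b (l 16633880) (l 16653368))) (a (b (l 16697728) (l 16721160)) (b (l 16674352) (l 16697248)))))) (b (a (b (a (b (a (l 16761928) (a (l 16736880) (l 16735152))) (b (a (l 84456446151) (l 16761416)) (a (l 169818994039) (b (l 16776688) (l 112910687335))))) (b (a (b (l 16745600) (l 16739032)) (l 16750808)) (a (b (l 16752224) (l 16770072)) (b (l 16745072) (l 16758232))))) (a (l 3) (b (a (b (b (l 93046466503) (l 131701175015)) (l 3)) (a (b (l 85530315767) (l 158544727159)) (b (l 16771488) (l 114521343863)))) (l 3)))) (b (a (b (a (l 16748168) (l 16738816)) (a (l 16805376) (l 16751400))) (b (l 16721496) (a (l 16749248) (l 16739392))))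 (a (b (a (b (l 16760480) (a (l 97878345207) (l 16773632))) (b (l 16749088) (l 16762472))) (a (a (l 231559171703) (b (l 184314522487) (l 3))) (a (b (l 133311841127) (l 3)) (b (l 16796280) (l 231022295223))))) (b (a (b (l 16745488) (l 16751368)) (l 16754024)) (a (b (l 16785120) (b (a (l 16801096) (l 16771824)) (a (l 228874803367) (l 144049221511)))) (b (l 16753160) (a (l 16768504) (l 16762552)))))))) (a (l 3) (b (a (l 3) (b (b (a (a (l 3) (l 220284877159)) (b (a (l 171429599159) (l 16773312)) (a (l 215453031367) (l 191830696199)))) (l 3)) (l 3))) (l 3))))), by decide +kernel⟩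

def k2_pp_012 : ∃ t, chk3 f_pp_012 t 7 2 1 = true :=
  ⟨(b (a (b (a (l 16557584) (l 16543512)) (a (l 16587608) (l 16570680))) (b (a (l 16532504) (l 16525304)) (a (l 16557504) (l 16549368)))) (a (b (a (b (l 16612816) (l 16631544)) (l 16603344)) (a (b (a (l 16657344) (l 16646656)) (l 16684184)) (b (l 16631592) (l 16652464)))) (a (b (l 16609360) (b (l 16615344) (l 16634736))) (b (b (l 16565744) (l 16577864)) (b (l 16591896) (a (l 16615256) (l 16600944))))))), by decide +kernel⟩

def k3_pp_012 : ∃ t, chk3 f_pp_012 t 7 6 1 = true :=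
  ⟨(a (b (a (b (a (l 16703072) (l 16690888)) (a (l 16727232) (l 16714504))) (b (l 16673872) (l 16696224))) (a (b (a (l 16749376) (l 16738000)) (a (b (l 16751088) (l 16755984)) (b (l 16754112) (l 16756968)))) (b (l 16656368) (a (b (l 16743144) (l 16754680)) (l 16736672))))) (b (a (b (l 16654968) (l 16675048)) (b (a (l 16634456) (l 16577768)) (l 16690928))) (a (b (l 16696224) (l 16745768)) (b (l 16714344) (a (l 16699096) (l 16686216)))))), by decide +kernel⟩

def k4_pp_012 : ∃ t, chk3 f_pp_012 t 14 7 1 = true :=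
  ⟨(b (a (b (a (b (a (b (l 16767584) (l 16775048)) (l 16766280)) (a (b (l 201494376535) (l 3)) (b (l 16798392) (l 207399961927)))) (b (l 16781608) (a (b (l 16772600) (l 16801408)) (l 16772272)))) (a (l 3) (b (a (b (l 202031259527) (l 3)) (b (l 131701202711) (l 198810042183))) (l 3)))) (b (a (b (l 16762808) (a (l 16768784) (l 16766072))) (b (l 16755248) (l 16767000))) (a (b (a (b (l 16780072) (l 132774947655)) (l 16801552)) (a (b (l 197736309799) (l 3)) (b (b (l 16790952) (l 180556390935)) (b (l 184314541895) (l 3))))) (b (a (l 16777152) (l 16772368)) (b (a (l 16788344) (l 16781008)) (a (c (l 90899019143) (l 189146335367)) (b (l 16785432) (l 16788448)))))))) (a (l 3) (b (b (a (l 3) (b (a (b (l 193978218935) (l 3)) (a (l 202031230295) (a (l 163913448327) (l 16800720)))) (l 3))) (l 3)) (l 3)))), by decide +kernel⟩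

def k5_pp_012 : ∃ t, chk3 f_pp_012 t 15 7 1 = true :=
  ⟨(b (a (b (a (b (l 16742656) (l 16754416)) (b (l 16728224) (l 16738952))) (b (a (l 16723520) (l 16749944)) (a (a (b (l 16773488) (l 16779192)) (l 16770528)) (a (l 16765064) (l 16757328))))) (b (a (l 16718680) (l 16712704)) (a (b (l 16734664) (a (l 16749600) (l 16741944))) (b (a (l 16723328) (l 16716464)) (a (b (l 16731696) (l 16737208)) (b (l 16724176) (l 16729944))))))) (a (b (a (b (b (a (l 102710150503) (l 16777680)) (a (b (a (l 171966510935) (l 16788072)) (a (l 3) (l 195588813143))) (a (l 116131923447) (l 16782008)))) (b (a (l 3) (b (a (l 196125682999) (l 129016825959)) (a (l 3) (l 197199423927)))) (l 3))) (b (a (b (l 16770896) (l 16776416)) (l 16789752)) (a (b (b (l 16781136) (a (l 137606758599) (l 16782504))) (a (b (l 198273164951) (l 3)) (b (l 144586078775) (l 200420647895)))) (b (l 16796320) (a (b (l 16782040) (l 153712882183)) (l 16779968)))))) (b (a (l 3) (b (a (l 3) (b (a (l 3) (l 154249752375))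 (l 3))) (l 3))) (l 3))) (b (a (a (b (l 16761168) (b (l 16769992) (l 16795472))) (b (l 16753496) (b (l 16762400) (l 16768488)))) (a (b (l 16756368) (b (l 16754752) (l 16760840))) (b (a (l 16740240) (l 16736520)) (a (l 16761264) (b (l 16745280) (l 6)))))) (a (b (a (b (b (a (l 16781216) (l 16777544)) (a (b (l 126869330199) (l 161765933959)) (l 16791352))) (b (a (l 3) (b (l 91435849383) (l 147807300167))) (l 3))) (b (a (l 16775552) (l 16772752)) (b (a (l 103783876903) (l 16776784)) (a (a (l 166597779047) (a (l 154786618231) (l 124721842231))) (b (l 16779256) (l 6)))))) (a (l 3) (a (l 3) (l 6)))) (b (a (b (a (l 16768952) (l 16765112)) (l 6)) (l 6)) (l 6)))))), by decide +kernel⟩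

theorem s6_pp_012 : ∃ t, chk3 f_pp_012 t 7 7 1 = true := ex3_a k4_pp_012 k5_pp_012

theorem s7_pp_012 : ∃ t, chk3 f_pp_012 t 7 3 1 = true := ex3_b k3_pp_012 s6_pp_012

theorem s8_pp_012 : ∃ t, chk3 f_pp_012 t 7 1 1 = true := ex3_b k2_pp_012 s7_pp_012

theorem s9_pp_012 : ∃ t, chk3 f_pp_012 t 3 1 1 = true := ex3_a k1_pp_012 s8_pp_012

theorem s10_pp_012 : ∃ t, chk3 f_pp_012 t 1 1 1 = true := ex3_a k0_pp_012 s9_pp_012

theorem c_pp_012 : CertB 0 536870912 0 536870912 649613803 48318383 3 eng mog cd2q0 cd0q2 pd1 false true true .pnp 0 1 2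
    ndB2q0 ndB0q2 pcB1 cut_pp_012 Ext.none :=
  certB2 (fam := false) (s1 := true) (s2 := true) (a := 0) (b := 1) (c := 2) (cn := .pnp) (n1 := ndB2q0) (n2 := ndB0q2) (pc := pcB1) (cut := cut_pp_012) (xt := Ext.none) (P1 := 0) (W1 := 536870912) (P2 := 0) (W2 := 536870912) (P3 := 649613803) (W3 := 48318383) (N0 := 3) (En := eng) (mo := mog) (C1 := cd2q0) (C2 := cd0q2) (C3 := pd1)
    rfl (fun _ => rfl) s10_pp_012

noncomputable def cut_pp_022 : Cut := Cut.of [[⟨0, 0, 0, 67108864⟩, ⟨1, 1, 0, 67108864⟩, ⟨2, 1, 0, 67108864⟩]]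

noncomputable def f_pp_022 : ℕ → ℕ → ℕ → ℕ → Bool := onCell 1073741824 536870912 0 536870912 649613803 48318383
    (rowB 3 eng mog cd2q0 cd0q2 pd2 2 false true true .pp 0 2 2 (qsf 0 536870912 0 536870912 2) ndB2q0 ndB0q2 pcB2 cut_pp_022 Ext.none)

def k0_pp_022 : ∃ t, chk3 f_pp_022 t 4 2 1 = true :=
  ⟨(b (a (b (a (l 16512184) (l 16492320)) (a (l 16557224) (l 16507424))) (a (b (l 16479912) (l 16526480)) (b (l 16558184) (b (l 16475032) (l 16482984))))) (a (b (a (b (l 16547048) (a (c (l 16561248) (l 16555832)) (l 16588408))) (a (b (l 16525544) (l 16557648)) (b (l 16516696) (a (l 16529608) (l 16524992))))) (a (b (a (l 16577040) (c (l 16562968) (l 16557776))) (c (a (l 16590488) (l 16579792)) (a (l 16586856) (l 16575552)))) (b (c (a (l 16552880) (l 16542968)) (a (l 16547440) (l 16537096))) (c (a (l 16569272) (l 16558736)) (a (l 16522400) (l 16573928)))))) (c (b (a (b (l 16506376) (l 16516432)) (b (l 16491584) (a (l 16503816) (l 16495920)))) (a (a (b (l 16533248)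 (l 16548184)) (b (l 16523712) (l 16537592))) (b (a (a (l 16516672) (l 16512040)) (c (l 16464912) (l 16503216))) (a (b (l 16523512) (l 16530360)) (b (l 16513216) (l 16519240)))))) (b (a (b (l 16459720) (a (l 16515008) (l 16505856))) (b (b (l 16484736) (l 16487552)) (a (l 16496872) (b (l 16486408) (l 16489680))))) (a (b (a (l 16526752) (l 16516392)) (a (l 16562368) (b (l 16525976) (l 16533312)))) (b (a (b (l 16503448) (l 16508616)) (b (l 16493472) (l 16497816))) (a (b (l 16514456) (l 16520944)) (b (l 16502784) (l 16524064))))))))), by decide +kernel⟩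

def k1_pp_022 : ∃ t, chk3 f_pp_022 t 5 2 1 = true :=
  ⟨(a (b (a (a (b (b (l 16449816) (l 16453880)) (b (l 16461600) (l 16471840))) (b (b (l 242698553847) (c (l 16445432) (l 16448816))) (c (b (l 16452280) (l 16461640)) (l 124050260903)))) (b (l 1) (l 1))) (a (b (b (c (a (l 16481128) (l 133177045559)) (a (l 16475384) (l 67141834695))) (c (a (b (l 16486624) (l 16490128)) (l 309807549879)) (a (b (l 16478144) (l 16480592)) (l 666289731703)))) (a (b (c (c (l 50498853063) (l 57478192071)) (b (l 65531249767) (l 59088810599))) (b (c (l 16502896) (l 50498887591)) (l 1))) (l 1))) (l 1))) (l 1)), by decide +kernel⟩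

def k2_pp_022 : ∃ t, chk3 f_pp_022 t 2 3 1 = true :=
  ⟨(a (a (b (b (a (b (a (b (l 16604240) (l 16611256)) (b (l 16593080) (l 16603864))) (b (l 16615112) (l 16624168))) (b (a (b (l 16581664) (l 16592344)) (b (l 16570000) (l 16580016))) (a (l 16607832) (l 16594088)))) (a (b (a (l 16641432) (l 16635128)) (a (l 16661464) (l 16655520))) (b (a (l 16628000) (l 16654080)) (a (l 16646880) (b (l 16624592) (l 16569296)))))) (b (b (b (a (a (l 16677720) (l 16672024)) (a (l 16659560) (a (l 16623344) (l 16633792)))) (a (a (l 16689328) (l 16683800)) (a (a (l 16672504) (l 16619848)) (a (c (l 16653576) (l 16647568)) (l 121903004791))))) (a (l 6) (a (l 6) (a (l 6) (a (l 6) (l 1)))))) (a (l 6) (a (l 6) (l 1))))) (b (b (a (b (c (b (l 16586760) (l 16605992)) (a (b (l 16554216) (l 16563408)) (b (l 16541280) (l 16549448)))) (a (c (l 16582840) (l 16596792)) (c (l 16568728) (l 16580992)))) (a (b (c (b (l 16537712) (l 16544976)) (b (l 16528016) (l 16535000))) (b (a (l 16550112) (l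 16542488)) (l 107944186711))) (b (b (a (l 16544808) (l 16538352)) (c (l 99891071223) (l 109554747543))) (l 1)))) (a (a (b (b (l 16549696) (l 16525656)) (a (b (l 16589720) (l 16617232)) (b (l 16601120) (l 16606904)))) (b (b (a (l 16579096) (l 16570480)) (a (l 16585504) (l 16576168))) (b (l 96669970455) (l 1)))) (a (b (b (l 91838074999) (l 1)) (l 1)) (l 1)))) (b (a (b (a (b (a (l 16636056) (l 16611816)) (a (l 104723108967) (l 1))) (l 1)) (l 1)) (l 1)) (l 1)))) (b (l 1) (l 1))), by decide +kernel⟩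

def k3_pp_022 : ∃ t, chk3 f_pp_022 t 3 1 1 = true :=
  ⟨(l 1), by decide +kernel⟩

theorem s4_pp_022 : ∃ t, chk3 f_pp_022 t 2 2 1 = true := ex3_a k0_pp_022 k1_pp_022

theorem s5_pp_022 : ∃ t, chk3 f_pp_022 t 2 1 1 = true := ex3_b s4_pp_022 k2_pp_022

theorem s6_pp_022 : ∃ t, chk3 f_pp_022 t 1 1 1 = true := ex3_a s5_pp_022 k3_pp_022

theorem c_pp_022 : CertB 0 536870912 0 536870912 649613803 48318383 3 eng mog cd2q0 cd0q2 pd2 false true true .pp 0 2 2
    ndB2q0 ndB0q2 pcB2 cut_pp_022 Ext.none :=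
  certB2 (fam := false) (s1 := true) (s2 := true) (a := 0) (b := 2) (c := 2) (cn := .pp) (n1 := ndB2q0) (n2 := ndB0q2) (pc := pcB2) (cut := cut_pp_022) (xt := Ext.none) (P1 := 0) (W1 := 536870912) (P2 := 0) (W2 := 536870912) (P3 := 649613803) (W3 := 48318383) (N0 := 3) (En := eng) (mo := mog) (C1 := cd2q0) (C2 := cd0q2) (C3 := pd2)
    rfl (fun _ => rfl) s6_pp_022

noncomputable def f_pp_101 : ℕ → ℕ → ℕ → ℕ → Bool := onCell 536870912 536870912 536870912 536870912 649613803 48318383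
    (rowB 3 eng mog cd2q1 cd0q1 pd0 0 false true true .npn 1 0 1 (qsf 536870912 536870912 536870912 536870912 0) ndB2q1 ndB0q1 pcB0 Cut.none Ext.none)

def k0_pp_101 : ∃ t, chk3 f_pp_101 t 1 1 1 = true :=
  ⟨(l 3), by decide +kernel⟩

theorem c_pp_101 : CertB 536870912 536870912 536870912 536870912 649613803 48318383 3 eng mog cd2q1 cd0q1 pd0 false true true .npn 1 0 1
    ndB2q1 ndB0q1 pcB0 Cut.none Ext.none :=
  certB0 (fam := false) (s1 := true) (s2 := true) (a := 1) (b := 0) (c := 1) (cn := .npn) (n1 := ndB2q1) (n2 := ndB0q1) (pc := pcB0) (cut := Cut.none) (xt := Ext.none) (P1 := 536870912) (W1 := 536870912) (P2 := 536870912) (W2 := 536870912) (P3 := 649613803) (W3 := 48318383) (N0 := 3) (En := eng) (mo := mog) (C1 := cd2q1) (C2 := cd0q1) (C3 := pd0)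
    rfl k0_pp_101

noncomputable def f_pp_102 : ℕ → ℕ → ℕ → ℕ → Bool := onCell 0 536870912 0 536870912 649613803 48318383
    (rowB 3 eng mog cd2q1 cd0q2 pd0 2 false true true .npp 1 0 2 (qsf 536870912 536870912 0 536870912 0) ndB2q1 ndB0q2 pcB0 Cut.none Ext.none)

def k0_pp_102 : ∃ t, chk3 f_pp_102 t 1 1 1 = true :=
  ⟨(b (a (a (l 3) (l 3)) (a (l 3) (b (a (b (b (a (a (l 3) (b (l 203641596775) (l 3))) (a (b (l 194514841943) (l 208473438855)) (b (l 16666376) (l 191293583607)))) (l 3)) (l 3)) (b (a (b (a (b (l 16673608) (l 16667864)) (b (l 16680544) (l 16675176))) (a (b (l 192904197911) (l 3)) (b (l 16668600) (l 193977939575)))) (b (b (l 16690000) (a (l 16682128) (l 16688808))) (a (b (l 16676024) (l 168745040775)) (b (l 16683232) (l 16676192))))) (a (l 3) (b (a (b (l 197199163655) (l 3)) (b (l 177871835623) (l 199883516151))) (l 3))))) (l 3)))) (l 3)), by decide +kernel⟩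

theorem c_pp_102 : CertB 536870912 536870912 0 536870912 649613803 48318383 3 eng mog cd2q1 cd0q2 pd0 false true true .npp 1 0 2
    ndB2q1 ndB0q2 pcB0 Cut.none Ext.none :=
  certB2 (fam := false) (s1 := true) (s2 := true) (a := 1) (b := 0) (c := 2) (cn := .npp) (n1 := ndB2q1) (n2 := ndB0q2) (pc := pcB0) (cut := Cut.none) (xt := Ext.none) (P1 := 536870912) (W1 := 536870912) (P2 := 0) (W2 := 536870912) (P3 := 649613803) (W3 := 48318383) (N0 := 3) (En := eng) (mo := mog) (C1 := cd2q1) (C2 := cd0q2) (C3 := pd0)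
    rfl (fun _ => rfl) k0_pp_102

noncomputable def f_pp_112 : ℕ → ℕ → ℕ → ℕ → Bool := onCell 536870912 536870912 0 536870912 649613803 48318383
    (rowB 3 eng mog cd2q1 cd0q2 pd1 2 false true true .dn 1 1 2 (qsf 536870912 536870912 0 536870912 1) ndB2q1 ndB0q2 pcB1 Cut.none Ext.none)

def k0_pp_112 : ∃ t, chk3 f_pp_112 t 1 1 1 = true :=
  ⟨(a (b (a (b (a (b (a (b (l 16687528) (b (l 16688776) (a (l 16683680) (l 16688776)))) (l 16692368)) (a (b (b (a (l 16677968) (l 16684920)) (a (b (l 16670640) (l 165523788903)) (l 16677664))) (b (a (l 199346642151) (b (l 134385289799) (l 175724333479))) (l 3))) (b (a (b (l 16690176) (l 16685392)) (l 16692880)) (b (a (l 16676904) (l 16685336)) (a (b (l 141901477015) (l 183240523703)) (l 105394258119)))))) (b (b (l 16682960) (l 16692088)) (a (b (a (l 16695960) (l 16696656)) (b (a (l 16691312) (l 16695176)) (a (l 16684936) (l 16691240)))) (b (l 16695176) (a (l 16696256) (l 16697040)))))) (b (a (a (l 3) (b (b (a (l 3) (b (l 159618212135)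 (l 3))) (l 3)) (l 3))) (a (b (b (a (b (l 16677544) (l 120426640295)) (l 16684296)) (a (l 172503106023) (b (l 16676368) (l 127942835143)))) (b (a (l 3) (l 174650585047)) (l 3))) (b (b (a (l 16690784) (l 16694416)) (a (l 16683416) (l 16689968))) (b (a (b (a (l 113447325575) (l 16677344)) (a (l 173039980823) (l 134385286087))) (l 53317794471)) (a (l 3) (b (a (l 138680249415) (l 16673808)) (a (l 3) (l 140827728119)))))))) (l 3))) (a (a (b (b (l 16672600) (l 16691592)) (b (b (b (l 16695928) (a (l 16693472) (l 16694576))) (a (b (l 16688192) (b (l 16680944) (a (l 74255746039) (l 16676456)))) (l 532609301223))) (a (b (b (a (b (l 141901464023) (l 3)) (a (b (l 109689217527) (l 1)) (l 1))) (l 3)) (l 3)) (l 1)))) (b (b (l 1) (l 1)) (l 1))) (l 1))) (a (l 3) (b (l 1) (l 1)))) (l 1)), by decide +kernel⟩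

theorem c_pp_112 : CertB 536870912 536870912 0 536870912 649613803 48318383 3 eng mog cd2q1 cd0q2 pd1 false true true .dn 1 1 2
    ndB2q1 ndB0q2 pcB1 Cut.none Ext.none :=
  certB2 (fam := false) (s1 := true) (s2 := true) (a := 1) (b := 1) (c := 2) (cn := .dn) (n1 := ndB2q1) (n2 := ndB0q2) (pc := pcB1) (cut := Cut.none) (xt := Ext.none) (P1 := 536870912) (W1 := 536870912) (P2 := 0) (W2 := 536870912) (P3 := 649613803) (W3 := 48318383) (N0 := 3) (En := eng) (mo := mog) (C1 := cd2q1) (C2 := cd0q2) (C3 := pd1)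
    rfl (fun _ => rfl) k0_pp_112

noncomputable def f_pp_202_a : ℕ → ℕ → ℕ → ℕ → Bool := onCell 0 536870912 0 536870912 649613803 48318383
    (rowB 3 eng mog cd2q2a cd0q2 pd0 0 false true true .pp 2 0 2 (qsf 0 536870912 0 536870912 0) ndB2q2a ndB0q2 pcB0 Cut.none Ext.none)

def k0_pp_202_a : ∃ t, chk3 f_pp_202_a t 1 1 1 = true :=
  ⟨(l 3), by decide +kernel⟩

theorem c_pp_202_a : CertB 0 536870912 0 536870912 649613803 48318383 3 eng mog cd2q2a cd0q2 pd0 false true true .pp 2 0 2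
    ndB2q2a ndB0q2 pcB0 Cut.none Ext.none :=
  certB0 (fam := false) (s1 := true) (s2 := true) (a := 2) (b := 0) (c := 2) (cn := .pp) (n1 := ndB2q2a) (n2 := ndB0q2) (pc := pcB0) (cut := Cut.none) (xt := Ext.none) (P1 := 0) (W1 := 536870912) (P2 := 0) (W2 := 536870912) (P3 := 649613803) (W3 := 48318383) (N0 := 3) (En := eng) (mo := mog) (C1 := cd2q2a) (C2 := cd0q2) (C3 := pd0)
    rfl k0_pp_202_a

noncomputable def f_pp_202_b : ℕ → ℕ → ℕ → ℕ → Bool := onCell 1239849684 370763052 0 536870912 649613803 48318383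
    (rowB 3 eng mog cd2q2b cd0q2 pd0 0 false true true .pp 2 0 2 (qsf 1239849684 370763052 0 536870912 0) ndB2q2b ndB0q2 pcB0 Cut.none Ext.none)

def k0_pp_202_b : ∃ t, chk3 f_pp_202_b t 1 1 1 = true :=
  ⟨(l 3), by decide +kernel⟩

theorem c_pp_202_b : CertB 1239849684 370763052 0 536870912 649613803 48318383 3 eng mog cd2q2b cd0q2 pd0 false true true .pp 2 0 2
    ndB2q2b ndB0q2 pcB0 Cut.none Ext.none :=
  certB0 (fam := false) (s1 := true) (s2 := true) (a := 2) (b := 0) (c := 2) (cn := .pp) (n1 := ndB2q2b) (n2 := ndB0q2) (pc := pcB0) (cut := Cut.none) (xt := Ext.none) (P1 := 1239849684) (W1 := 370763052) (P2 := 0) (W2 := 536870912) (P3 := 649613803) (W3 := 48318383) (N0 := 3) (En := eng) (mo := mog) (C1 := cd2q2b) (C2 := cd0q2) (C3 := pd0)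
    rfl k0_pp_202_b

noncomputable def f_pm_001 : ℕ → ℕ → ℕ → ℕ → Bool := onCell 0 536870912 0 536870912 649613803 48318383
    (rowB 3 eng mog cd2q0 cd0q1 pd0 1 false true false .up 0 0 1 (qsf 0 536870912 536870912 536870912 0) ndB2q0 ndB0q1 pcB0 Cut.none Ext.none)

def k0_pm_001 : ∃ t, chk3 f_pm_001 t 1 1 1 = true :=
  ⟨(a (l 4) (b (l 4) (a (l 4) (b (b (l 4) (a (l 4) (b (l 4) (a (l 4) (l 16480112))))) (b (a (b (l 4) (a (l 4) (l 16595168))) (b (a (b (l 4) (l 16500040)) (l 16481848)) (a (l 16509960) (l 16338600)))) (a (b (a (l 4) (l 16561656)) (a (a (l 4) (l 16509688)) (b (l 16451424) (l 16427552)))) (b (a (l 16394504) (b (l 16314528) (l 16305744))) (a (b (l 16363096) (l 16346600)) (b (l 16297592) (l 16321520)))))))))), by decide +kernel⟩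

theorem c_pm_001 : CertB 0 536870912 536870912 536870912 649613803 48318383 3 eng mog cd2q0 cd0q1 pd0 false true false .up 0 0 1
    ndB2q0 ndB0q1 pcB0 Cut.none Ext.none :=
  certB1 (fam := false) (s1 := true) (s2 := false) (a := 0) (b := 0) (c := 1) (cn := .up) (n1 := ndB2q0) (n2 := ndB0q1) (pc := pcB0) (cut := Cut.none) (xt := Ext.none) (P1 := 0) (W1 := 536870912) (P2 := 536870912) (W2 := 536870912) (P3 := 649613803) (W3 := 48318383) (N0 := 3) (En := eng) (mo := mog) (C1 := cd2q0) (C2 := cd0q1) (C3 := pd0)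
    rfl (fun _ => rfl) k0_pm_001

end Pool.Agent.Strip051.G.I6050_6500.Tab.C.BB20

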