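import Pool.Agent.Strip051.G.I6050_6500.Tab

/-! # Certificates B34 (generated) -/

set_option linter.all false
set_option maxRecDepth 100000

namespace Pool.Agent.Strip051.G.I6050_6500.Tab.C.BB20

open Pool.Agent.Strip051.PB Pool.Agent.Strip051.PB.T
open Pool.Agent.Strip051.G.I6050_6500.Tab

noncomputable def cut_pm_011 : Cut := Cut.of [[⟨0, 0, 0, 67108864⟩, ⟨1, 1, 0, 67108864⟩, ⟨2, 1, 0, 67108864⟩]]

noncomputable def f_pm_011 : ℕ → ℕ → ℕ → ℕ → Bool := onCell 0 536870912 536870912 536870912 649613803 48318383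
    (rowB 3 eng mog cd2q0 cd0q1 pd1 0 false true false .pnn 0 1 1 (qsf 0 536870912 536870912 536870912 1) ndB2q0 ndB0q1 pcB1 cut_pm_011 Ext.none)

def k0_pm_011 : ∃ t, chk3 f_pm_011 t 1 1 1 = true :=
  ⟨(b (l 4) (a (b (l 4) (b (a (l 4) (l 4)) (b (a (l 4) (a (a (l 4) (b (l 4) (a (l 16666712) (l 16710648)))) (a (b (l 42647463047) (c (l 16707088) (l 16723904))) (b (l 16697128) (l 16586824))))) (a (a (b (l 4) (a (l 6) (b (a (l 4) (a (c (l 16767488) (l 101166607975)) (l 16777440))) (a (l 6) (b (l 16765312) (l 16722256)))))) (b (a (a (l 4) (b (l 4) (l 16742536))) (a (b (l 4) (l 16704312)) (l 16760296))) (b (a (a (a (l 16750216) (l 16718448)) (l 16749224)) (a (l 16689568) (l 16673104))) (a (a (b (l 16712160) (l 16705696)) (b (l 16695912) (l 16689232))) (a (l 16676144) (l 16659544)))))) (a (b (a (a (l 16740184) (l 16677088)) (a (l 16658616) (l 16620136))) (a (b (l 16644528) (l 16630920)) (b (l 16608384) (l 16595184)))) (a (b (l 16699872) (b (l 16575736) (l 16563352)))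 (b (l 16625216) (l 16538400)))))))) (b (a (l 4) (a (a (l 4) (l 1)) (l 1))) (a (b (a (b (l 4) (b (l 4) (a (l 16688320) (l 16568368)))) (a (b (l 4) (l 16543168)) (b (l 16592216) (l 16504696)))) (a (b (b (a (l 16578264) (l 16543984)) (a (l 16553424) (l 16520656))) (b (a (l 16529984) (l 16498664)) (l 16534680))) (b (a (l 16581960) (l 16526608)) (b (l 16494632) (l 16476680))))) (b (a (b (a (l 16508744) (l 16466824)) (l 16476400)) (b (l 1) (l 16382728))) (b (a (a (l 16428896) (l 16393384)) (l 16338496)) (a (a (l 16398552) (l 16368000)) (l 16320976)))))))), by decide +kernel⟩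

theorem c_pm_011 : CertB 0 536870912 536870912 536870912 649613803 48318383 3 eng mog cd2q0 cd0q1 pd1 false true false .pnn 0 1 1
    ndB2q0 ndB0q1 pcB1 cut_pm_011 Ext.none :=
  certB0 (fam := false) (s1 := true) (s2 := false) (a := 0) (b := 1) (c := 1) (cn := .pnn) (n1 := ndB2q0) (n2 := ndB0q1) (pc := pcB1) (cut := cut_pm_011) (xt := Ext.none) (P1 := 0) (W1 := 536870912) (P2 := 536870912) (W2 := 536870912) (P3 := 649613803) (W3 := 48318383) (N0 := 3) (En := eng) (mo := mog) (C1 := cd2q0) (C2 := cd0q1) (C3 := pd1)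
    rfl k0_pm_011

noncomputable def cut_pm_012 : Cut := Cut.of [[⟨0, 0, 0, 67108864⟩, ⟨1, 1, 0, 67108864⟩, ⟨2, 1, 0, 67108864⟩]]

noncomputable def f_pm_012 : ℕ → ℕ → ℕ → ℕ → Bool := onCell 536870912 536870912 0 536870912 649613803 48318383
    (rowB 3 eng mog cd2q0 cd0q2 pd1 2 false true false .pnp 0 1 2 (qsf 0 536870912 0 536870912 1) ndB2q0 ndB0q2 pcB1 cut_pm_012 Ext.none)

def k0_pm_012 : ∃ t, chk3 f_pm_012 t 2 1 1 = true :=
  ⟨(b (a (b (l 2) (b (l 2) (a (l 2) (l 16567040)))) (b (b (a (l 16654568) (l 16620608)) (a (l 16615576) (l 16584664))) (b (a (l 16580200) (l 16549720)) (a (l 16540520) (l 16514920))))) (b (a (a (l 2) (b (l 16507376) (l 16443008))) (b (a (l 16491872) (l 16477112)) (a (l 16444176) (l 16446208)))) (a (b (a (l 16375240) (l 16395640)) (a (l 16308360) (b (l 16375984) (l 16371288)))) (b (a (l 16415920) (l 16437424)) (a (b (l 16412376) (a (l 16407760) (l 16432008))) (b (a (l 16440416) (l 16501432)) (b (l 16463784) (l 16496552)))))))),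 by decide +kernel⟩

def k1_pm_012 : ∃ t, chk3 f_pm_012 t 3 1 1 = true :=
  ⟨(b (a (b (a (b (l 16585192) (l 16551840)) (b (a (l 16558752) (l 16543376)) (l 16516976))) (a (b (l 16518336) (l 16489320)) (b (l 16488200) (a (l 16470424) (l 16463144))))) (b (b (a (a (l 16528928) (l 16515272)) (l 16497408)) (a (l 16489912) (a (l 16473760) (l 16466048)))) (a (b (a (l 16471992) (l 16462904)) (a (l 16457912) (l 16453912))) (b (a (l 16455448) (l 16471432)) (a (l 16451760) (b (l 16448912) (l 16455512))))))) (b (a (b (a (l 16463272) (a (l 16454272) (l 16454624))) (a (a (l 16448784) (l 16451312)) (a (b (l 16452016) (l 16457992)) (l 16507088)))) (a (b (a (l 16457504) (l 16462112)) (a (l 16541016) (l 16504000))) (b (a (l 16553040) (b (l 16468496) (l 16488080))) (a (b (l 16498192) (l 16544592)) (a (l 16545352) (a (l 16529896) (l 16533496))))))) (a (b (a (b (l 16455096) (l 16468960)) (a (b (l 16471720) (l 16493600)) (b (l 16488864) (l 16515728)))) (a (b (b (l 16484648)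 (l 16539904)) (b (l 16555744) (l 16531912))) (b (a (b (l 16515480) (l 16553960)) (l 16551704)) (a (b (l 16637336) (l 16576288)) (b (l 16585256) (l 16610944)))))) (b (a (a (l 16545984) (b (l 16532304) (l 16568768))) (a (a (l 16611016) (b (l 16560888) (l 16599840))) (b (a (l 16570824) (l 16580920)) (a (l 16632664) (a (l 16620664) (l 16647664)))))) (a (b (a (l 16582552) (l 16654832)) (b (a (l 16661224) (l 16702776)) (a (l 16733520) (a (l 16692288) (l 16728992))))) (b (b (a (a (l 16621080) (l 16634240)) (a (l 16647512) (l 6))) (a (l 16674016) (l 6))) (a (a (b (l 16672744) (a (l 16741712) (l 16749568))) (b (l 16688272) (l 6))) (l 6)))))))), by decide +kernel⟩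

theorem s2_pm_012 : ∃ t, chk3 f_pm_012 t 1 1 1 = true := ex3_a k0_pm_012 k1_pm_012

theorem c_pm_012 : CertB 0 536870912 0 536870912 649613803 48318383 3 eng mog cd2q0 cd0q2 pd1 false true false .pnp 0 1 2
    ndB2q0 ndB0q2 pcB1 cut_pm_012 Ext.none :=
  certB2 (fam := false) (s1 := true) (s2 := false) (a := 0) (b := 1) (c := 2) (cn := .pnp) (n1 := ndB2q0) (n2 := ndB0q2) (pc := pcB1) (cut := cut_pm_012) (xt := Ext.none) (P1 := 0) (W1 := 536870912) (P2 := 0) (W2 := 536870912) (P3 := 649613803) (W3 := 48318383) (N0 := 3) (En := eng) (mo := mog) (C1 := cd2q0) (C2 := cd0q2) (C3 := pd1)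
    rfl (fun _ => rfl) s2_pm_012

noncomputable def cut_pm_022 : Cut := Cut.of [[⟨0, 0, 0, 67108864⟩, ⟨1, 1, 0, 67108864⟩, ⟨2, 1, 0, 67108864⟩]]

noncomputable def f_pm_022 : ℕ → ℕ → ℕ → ℕ → Bool := onCell 0 536870912 0 536870912 649613803 48318383
    (rowB 3 eng mog cd2q0 cd0q2 pd2 0 false true false .pp 0 2 2 (qsf 0 536870912 0 536870912 2) ndB2q0 ndB0q2 pcB2 cut_pm_022 Ext.none)

def k0_pm_022 : ∃ t, chk3 f_pm_022 t 4 2 1 = true :=
  ⟨(b (a (b (a (c (a (l 16445112) (l 16448904)) (l 16449208)) (l 16456392)) (a (c (a (l 16475840) (l 16455776)) (b (l 16453584) (l 16459432))) (c (l 16520752) (l 16457904)))) (b (a (l 16467960) (l 16482600)) (a (l 16460792) (l 16465624)))) (b (a (a (b (c (l 16466496) (l 16467000)) (a (l 16494072) (l 16474904))) (b (l 16483912) (l 16469376))) (a (b (l 16459680) (l 16461568)) (b (l 16457000) (l 16453680)))) (a (a (b (b (c (l 16507888) (l 16486568)) (a (l 16497104) (l 16491320))) (a (b (l 16506416) (c (l 16516632) (l 16517344)))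 (b (l 16499672) (l 16509040)))) (b (b (l 16475904) (l 16481856)) (a (l 16496608) (l 16488368)))) (b (a (b (l 16464576) (l 16468304)) (l 16515096)) (a (l 16475240) (l 16456448)))))), by decide +kernel⟩

def k1_pm_022 : ∃ t, chk3 f_pm_022 t 4 3 1 = true :=
  ⟨(b (a (b (a (c (b (a (b (l 16527776) (l 16539840)) (l 16530536)) (a (b (l 16552792) (l 16563608)) (l 16549104))) (a (b (b (l 16528872) (l 16541392)) (b (a (l 16552304) (l 16551968)) (a (b (l 16558664) (l 16563144)) (l 16561256)))) (b (l 16525064) (l 16549688)))) (b (b (l 16526072) (l 16535616)) (b (l 16524992) (l 16536072)))) (a (a (b (a (b (c (l 16573792) (l 16570368)) (c (l 16584632) (l 16580880))) (b (l 16571944) (l 16582504))) (a (b (c (l 16596448) (l 16592496)) (c (l 16609384) (l 16605384))) (b (l 16594096) (l 16606888)))) (b (b (l 16569072) (l 16581400)) (a (l 16599648) (l 16598464)))) (b (a (l 16561232) (l 16566544)) (a (l 16586368) (l 16588752))))) (b (a (b (l 16508696) (l 16545200)) (b (l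 16463592) (l 16515296))) (a (b (a (l 16529080) (l 16511808)) (a (l 16548208) (l 16527664))) (b (l 16547248) (l 1))))) (a (b (b (a (a (a (b (a (l 16632256) (l 16621528)) (b (l 16643688) (l 6))) (b (l 16621000) (l 16636504))) (a (l 16648632) (l 16626216))) (a (l 16611600) (b (l 16584232) (l 16595040)))) (a (l 6) (a (l 6) (b (l 16605640) (l 16636976))))) (a (l 6) (a (l 6) (l 1)))) (a (b (b (b (l 16592560) (l 16621576)) (l 1)) (l 1)) (l 1)))), by decide +kernel⟩

def k2_pm_022 : ∃ t, chk3 f_pm_022 t 5 1 1 = true :=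
  ⟨(b (a (a (b (b (l 16497808) (l 16469232)) (b (b (l 16451688) (l 16442192)) (b (l 16455000) (l 16432432)))) (b (a (l 1706209180407) (l 1)) (l 1))) (l 1)) (b (l 1) (l 1))), by decide +kernel⟩

def k3_pm_022 : ∃ t, chk3 f_pm_022 t 3 1 1 = true :=
  ⟨(l 1), by decide +kernel⟩

theorem s4_pm_022 : ∃ t, chk3 f_pm_022 t 4 1 1 = true := ex3_b k0_pm_022 k1_pm_022

theorem s5_pm_022 : ∃ t, chk3 f_pm_022 t 2 1 1 = true := ex3_a s4_pm_022 k2_pm_022

theorem s6_pm_022 : ∃ t, chk3 f_pm_022 t 1 1 1 = true := ex3_a s5_pm_022 k3_pm_022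

theorem c_pm_022 : CertB 0 536870912 0 536870912 649613803 48318383 3 eng mog cd2q0 cd0q2 pd2 false true false .pp 0 2 2
    ndB2q0 ndB0q2 pcB2 cut_pm_022 Ext.none :=
  certB0 (fam := false) (s1 := true) (s2 := false) (a := 0) (b := 2) (c := 2) (cn := .pp) (n1 := ndB2q0) (n2 := ndB0q2) (pc := pcB2) (cut := cut_pm_022) (xt := Ext.none) (P1 := 0) (W1 := 536870912) (P2 := 0) (W2 := 536870912) (P3 := 649613803) (W3 := 48318383) (N0 := 3) (En := eng) (mo := mog) (C1 := cd2q0) (C2 := cd0q2) (C3 := pd2)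
    rfl s6_pm_022

noncomputable def f_pm_101 : ℕ → ℕ → ℕ → ℕ → Bool := onCell 0 536870912 536870912 536870912 649613803 48318383
    (rowB 3 eng mog cd2q1 cd0q1 pd0 2 false true false .npn 1 0 1 (qsf 536870912 536870912 536870912 536870912 0) ndB2q1 ndB0q1 pcB0 Cut.none Ext.none)

def k0_pm_101 : ∃ t, chk3 f_pm_101 t 2 2 1 = true :=
  ⟨(b (l 4) (a (b (l 4) (b (l 4) (a (a (l 16558168) (l 16572224)) (a (l 16586560) (l 4))))) (l 4))), by decide +kernel⟩

def k1_pm_101 : ∃ t, chk3 f_pm_101 t 2 6 1 = true :=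
  ⟨(a (b (a (b (a (l 16546720) (l 16549152)) (a (l 16547232) (l 16542152))) (b (a (l 16553472) (a (l 16557848) (l 16561664))) (a (l 16537456) (l 16532896)))) (a (b (a (b (l 16551480) (l 16556344)) (b (l 16542032) (l 16544488))) (b (a (b (l 16560664) (a (l 16567560) (l 16561864))) (l 16548832)) (a (a (l 16569440) (b (l 16561712) (l 16564184))) (b (a (l 16556288) (l 16550536)) (l 16553944))))) (b (a (l 16553656) (b (l 16523120) (l 16520304))) (a (b (l 16534680) (b (l 16537928) (a (l 16542976) (l 16537008)))) (b (l 16520152) (a (l 16528744) (l 16518832))))))) (b (a (b (a (l 16599440) (l 4)) (a (l 16527880) (l 16525432))) (b (l 4) (a (l 16524976) (l 16525184)))) (a (b (a (l 16506376) (l 16490816)) (a (b (l 16498424) (l 16497520)) (l 16513120))) (b (a (l 16476968) (l 16464016)) (a (l 16446152) (l 16422336)))))), by decide +kernel⟩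

def k2_pm_101 : ∃ t, chk3 f_pm_101 t 2 7 1 = true :=
  ⟨(a (b (a (b (a (b (l 16570608) (l 16576944)) (b (a (l 16560376) (l 16553216)) (a (l 16565336) (l 16557424)))) (a (b (l 16585752) (l 16596784)) (b (l 16568512) (l 16577840)))) (b (a (b (l 16541696) (a (l 16549032) (l 16540016))) (b (a (l 16528352) (b (l 16521584) (l 16521584))) (a (l 16530792) (l 16521304)))) (a (b (a (l 16554560) (l 16544736)) (a (l 16562128) (l 16551296))) (a (b (l 16534192) (l 16539808)) (b (l 16523056) (l 16527256)))))) (b (a (b (a (l 16653344) (l 16588936)) (a (l 16611448) (l 16718992))) (a (b (l 16565704) (b (l 16573512) (l 16573984))) (b (a (l 16546768) (l 16533208)) (a (b (l 16553544) (l 16554144)) (b (l 16538200) (l 16539512)))))) (a (a (l 16608856) (l 16655592)) (a (b (l 16574352) (l 16574536)) (a (l 16557480) (b (l 16542696) (l 16545312))))))) (b (b (a (a (b (b (a (l 16508464) (l 16490896)) (a (l 16507312) (l 16490072))) (l 16498296)) (b (b (l 16466032) (l 16466576)) (l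 16462296))) (a (b (l 16432776) (l 16426544)) (b (l 16401112) (l 16393080)))) (a (a (a (a (l 16513520) (l 16504768)) (l 16491448)) (a (l 16473064) (l 16454136))) (a (l 16487904) (l 16384456)))) (a (b (a (b (b (l 16505728) (l 16508856)) (b (l 16512384) (a (l 16523928) (l 16506600)))) (b (l 16468768) (a (l 16550288) (l 16466304)))) (a (b (l 16519496) (l 16524160)) (b (c (l 16491840) (l 16472504)) (a (l 16499040) (l 16478296))))) (b (a (b (l 16427200) (l 16496072)) (a (l 16395840) (l 16372624))) (a (b (c (l 16449984) (l 16421944)) (l 16444480)) (b (a (l 16399904) (l 16375552)) (l 16395232))))))), by decide +kernel⟩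

def k3_pm_101 : ∃ t, chk3 f_pm_101 t 3 1 1 = true :=
  ⟨(b (l 4) (a (b (b (l 4) (a (b (a (l 16452464) (l 16480488)) (l 16470440)) (b (a (l 16508384) (l 4)) (a (l 16401792) (l 16460296))))) (a (b (a (b (l 16365376) (l 16339936)) (b (l 16329632) (l 16298080))) (b (a (l 16336960) (l 16288112)) (b (a (l 16338104) (l 16285944)) (c (l 16338024) (l 16290544))))) (b (b (a (l 16294456) (l 16324712)) (a (l 16257920) (l 16216856))) (b (l 16233136) (a (a (l 16238480) (l 16211568)) (b (l 16174952) (l 16171112))))))) (b (a (b (l 1) (b (l 1) (a (l 153041544663) (l 1)))) (l 1)) (a (b (b (a (l 16372544) (l 16417824)) (a (l 16271256) (l 16312512))) (b (a (l 16191256) (l 16265448)) (a (l 16203272) (l 16211440)))) (b (b (l 1) (a (l 16379464) (l 1))) (b (a (l 16317936) (l 16353856)) (a (l 16268400) (l 16306728)))))))), by decide +kernel⟩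

theorem s4_pm_101 : ∃ t, chk3 f_pm_101 t 2 3 1 = true := ex3_b k1_pm_101 k2_pm_101

theorem s5_pm_101 : ∃ t, chk3 f_pm_101 t 2 1 1 = true := ex3_b k0_pm_101 s4_pm_101

theorem s6_pm_101 : ∃ t, chk3 f_pm_101 t 1 1 1 = true := ex3_a s5_pm_101 k3_pm_101

theorem c_pm_101 : CertB 536870912 536870912 536870912 536870912 649613803 48318383 3 eng mog cd2q1 cd0q1 pd0 false true false .npn 1 0 1
    ndB2q1 ndB0q1 pcB0 Cut.none Ext.none :=
  certB2 (fam := false) (s1 := true) (s2 := false) (a := 1) (b := 0) (c := 1) (cn := .npn) (n1 := ndB2q1) (n2 := ndB0q1) (pc := pcB0) (cut := Cut.none) (xt := Ext.none) (P1 := 536870912) (W1 := 536870912) (P2 := 536870912) (W2 := 536870912) (P3 := 649613803) (W3 := 48318383) (N0 := 3) (En := eng) (mo := mog) (C1 := cd2q1) (C2 := cd0q1) (C3 := pd0)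
    rfl (fun _ => rfl) s6_pm_101

noncomputable def f_pm_102 : ℕ → ℕ → ℕ → ℕ → Bool := onCell 0 536870912 0 536870912 649613803 48318383
    (rowB 3 eng mog cd2q1 cd0q2 pd0 2 false true false .npp 1 0 2 (qsf 536870912 536870912 0 536870912 0) ndB2q1 ndB0q2 pcB0 Cut.none Ext.none)

def k0_pm_102 : ∃ t, chk3 f_pm_102 t 4 2 1 = true :=
  ⟨(b (l 2) (a (l 2) (b (l 2) (a (l 2) (b (l 2) (a (l 2) (a (l 2) (b (l 3) (b (a (l 3) (l 131163939367)) (a (l 126868980087) (l 137069537559))))))))))), by decide +kernel⟩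

def k1_pm_102 : ∃ t, chk3 f_pm_102 t 5 4 1 = true :=
  ⟨(a (l 3) (l 3)), by decide +kernel⟩

def k2_pm_102 : ∃ t, chk3 f_pm_102 t 10 5 1 = true :=
  ⟨(b (a (l 3) (b (l 3) (a (l 3) (a (l 3) (b (l 3) (b (l 3) (a (l 16607144) (l 16609640)))))))) (a (b (a (l 3) (b (l 3) (b (l 3) (a (a (l 3) (l 135458944439)) (a (l 16602528) (l 16605304)))))) (a (b (a (b (l 3) (l 131163916023)) (a (l 126332081495) (l 128479617527))) (b (a (l 131163949191) (a (b (l 16604520) (l 16607264)) (b (l 16607848) (l 16610944)))) (a (a (l 16604896) (l 16608264)) (b (l 16612640) (l 16616616))))) (b (a (b (b (a (l 16600640) (l 16603136)) (l 16604288)) (b (l 16607304) (l 16610224))) (b (a (l 16607712) (l 16611392)) (b (l 16614176) (l 16617728)))) (a (b (b (l 16613360) (l 16617160)) (l 16622824)) (l 16626944))))) (b (a (b (a (l 3) (b (l 3) (a (l 16604544) (l 16607232)))) (b (a (a (l 16603456) (l 16606208)) (a (l 16609368) (l 16612880))) (a (a (l 16608528) (l 16612208)) (a (l 16615648) (l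 16618920))))) (b (a (b (a (l 16605776) (l 16608376)) (a (l 16610296) (l 16613672))) (b (a (l 16611320) (l 16614544)) (a (l 16617176) (l 16620296)))) (b (a (a (l 16616448) (l 16619600)) (l 16624256)) (l 16627168)))) (b (a (a (b (b (l 16615032) (l 16618200)) (l 16623368)) (l 16626960)) (l 16636624)) (a (b (l 16634000) (l 16640736)) (l 16643824)))))), by decide +kernel⟩

def k3_pm_102 : ∃ t, chk3 f_pm_102 t 11 5 1 = true :=
  ⟨(b (a (b (a (l 3) (l 134385227879)) (b (a (l 148880696775) (l 104320450983)) (a (b (a (l 16609848) (l 16615128)) (a (l 16614016) (l 16620152))) (a (b (l 16620776) (l 16625472)) (l 16669680))))) (b (a (l 114521062247) (b (l 112373511543) (b (l 16624912) (l 16648928)))) (a (a (b (l 16666448) (l 16631608)) (b (l 16648864) (l 16634416))) (b (l 16653960) (l 16639640))))) (a (b (b (a (a (b (l 16619488) (l 16624616)) (b (l 16625040) (l 16630264))) (l 16633488)) (a (l 16634920) (l 16640552))) (b (a (l 16642048) (l 16648472)) (l 16653008)))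 (b (b (a (l 16639776) (l 16647120)) (l 16651512)) (a (l 16660080) (l 16667568))))), by decide +kernel⟩

def k4_pm_102 : ∃ t, chk3 f_pm_102 t 4 3 1 = true :=
  ⟨(b (a (l 2) (a (b (l 2) (b (a (l 2) (b (l 16726752) (l 16641192))) (b (l 69893679431) (l 16640728)))) (b (b (b (a (l 2) (b (a (l 16600576) (a (l 16624944) (l 16607472))) (a (l 143981799687) (l 16613552)))) (a (a (l 2) (b (l 2) (l 16616752))) (a (b (l 16614696) (l 16623872)) (a (l 16624808) (l 16628800))))) (b (a (b (a (l 2) (l 16625632)) (l 170288580439)) (l 16642256)) (a (b (l 16642256) (l 16643168)) (l 16647784)))) (b (b (l 16647672) (l 16650768)) (l 16655904))))) (b (a (a (l 2) (b (a (l 2) (l 16630944)) (l 16630800))) (a (b (a (l 16639472) (l 16648456)) (l 16648696)) (b (l 16660320) (l 16649632)))) (a (b (a (b (l 16617632) (l 16640248)) (b (l 16632992) (l 16634960))) (a (b (l 16618368) (l 16615888)) (b (l 16607512) (l 16594480)))) (b (a (b (l 16639496) (l 16607912)) (b (l 16603888) (l 16588664)))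 (a (l 16584072) (a (l 16570176) (l 16559960))))))), by decide +kernel⟩

def k5_pm_102 : ∃ t, chk3 f_pm_102 t 5 3 1 = true :=
  ⟨(b (b (a (a (b (b (a (b (l 16618384) (l 16626960)) (b (l 16634432) (l 16642136))) (a (b (l 16634896) (l 16644192)) (l 16646744))) (b (a (l 16647280) (l 16652520)) (l 16655736))) (b (b (l 16647856) (l 16654624)) (b (l 16662848) (l 16669784)))) (b (a (b (l 16660928) (l 16669816)) (a (b (l 16672496) (l 16680344)) (l 16683288))) (a (l 16681056) (a (l 16689584) (l 16691712))))) (a (b (a (l 16642464) (b (l 16676848) (l 16682376))) (a (l 16671648) (l 16679424))) (b (a (l 16731280) (b (l 16691040) (l 16681944))) (a (l 16670480) (l 16641296))))) (b (a (a (b (l 16665648) (l 16613984)) (b (l 16647720) (l 16583376))) (a (b (l 16602400) (l 16553704)) (b (l 16564128) (l 16518920)))) (a (b (a (b (l 16583032) (l 16569312)) (b (l 16558696) (l 16543584))) (a (a (l 16548608) (l 16536216)) (a (l 16521816) (l 16503448)))) (b (a (b (l 16525488) (l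 16506928)) (a (l 16486328) (l 16464056))) (a (b (l 16483640) (l 16460000)) (l 16425000)))))), by decide +kernel⟩

def k6_pm_102 : ∃ t, chk3 f_pm_102 t 6 2 1 = true :=
  ⟨(b (a (b (l 3) (a (b (l 3) (a (b (l 3) (l 104857267879)) (b (l 151028308215) (b (l 16628096) (l 16630984))))) (b (a (l 166060619543) (a (l 162839364567) (l 163376293127))) (a (b (l 103783639943) (a (l 16635704) (l 16639952))) (a (b (l 16638440) (l 16644216)) (l 16666696)))))) (b (a (a (a (l 3) (l 204178483831)) (b (l 3) (a (l 195588502775) (l 193441047895)))) (b (a (l 3) (b (l 3) (l 201494102823))) (a (b (b (l 198809740167) (l 177871813703)) (l 16648856)) (b (l 191830466551) (l 16656568))))) (a (b (a (b (l 131164049607) (l 16664480)) (b (a (l 16644240) (l 16648168)) (l 16651560))) (a (l 16672928) (l 16659336))) (b (b (a (l 16653960) (l 16661512)) (l 16662608)) (l 16669416))))) (a (b (a (b (a (b (a (l 16625688) (l 16692344)) (l 16628568)) (b (b (l 16633928) (l 16636984)) (l 16641600)))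 (b (l 16644168) (a (l 16647184) (l 16655312)))) (b (a (l 16646824) (l 16655032)) (b (l 16660328) (l 16666864)))) (b (a (a (l 16658992) (l 16666424)) (l 16676552)) (a (b (l 16674112) (l 16681080)) (b (l 16684760) (l 16689152))))) (b (b (a (l 16708072) (l 16678072)) (a (l 16676328) (l 16684296))) (b (a (l 16684920) (a (l 16687496) (l 16687736))) (a (l 16689320) (l 16683760)))))), by decide +kernel⟩

def k7_pm_102 : ∃ t, chk3 f_pm_102 t 6 3 1 = true :=
  ⟨(a (a (b (b (b (l 16689088) (l 16688856)) (b (l 16748912) (l 16597368))) (b (l 16500416) (b (l 16428128) (l 16372856)))) (b (b (b (l 16688992) (l 16674472)) (b (l 16632920) (l 16554536))) (b (l 16454504) (b (l 16375384) (l 16315896))))) (b (b (a (b (l 16679792) (l 16652400)) (b (l 16665776) (l 16629120))) (a (b (l 16599168) (l 16518672)) (b (l 16569592) (l 16489376)))) (b (a (a (l 16416688) (l 16396472)) (a (l 16381984) (l 16357760))) (a (b (a (l 16332192) (l 16312832)) (a (l 16270024) (l 16246144))) (a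 (b (l 16302640) (l 16228848)) (l 16239560)))))), by decide +kernel⟩

def k8_pm_102 : ∃ t, chk3 f_pm_102 t 7 1 1 = true :=
  ⟨(b (b (a (b (a (b (a (b (l 200420366407) (l 197736054567)) (b (l 197736064103) (l 16661752))) (a (b (l 16659152) (l 16664048)) (b (l 16666544) (l 16670920)))) (b (a (b (l 16664264) (l 16669120)) (b (l 16671528) (l 16676112))) (l 16678776))) (a (b (l 16673848) (l 16680776)) (b (l 16684520) (l 16688432)))) (b (b (a (a (b (l 16678504) (l 16682456)) (l 16686656)) (l 16694528)) (l 16693080)) (b (l 16695032) (l 16692536)))) (b (a (a (l 16687024) (l 16688056)) (b (l 16687984) (l 16680392))) (a (b (a (l 16686152) (l 16680576)) (l 16669832)) (b (l 16667648) (l 16646008))))) (b (b (a (a (l 16631864) (l 16613288)) (l 16630752)) (a (a (b (l 16544648) (l 16466408)) (l 16505136)) (b (l 16500168) (l 16440376)))) (a (b (a (l 16340560) (l 16346896)) (a (a (l 16202272) (l 16190296)) (b (l 16257520) (l 16212160)))) (b (l 16367408) (b (l 16314336)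 (l 16284504)))))), by decide +kernel⟩

theorem s9_pm_102 : ∃ t, chk3 f_pm_102 t 6 1 1 = true := ex3_b k6_pm_102 k7_pm_102

theorem s10_pm_102 : ∃ t, chk3 f_pm_102 t 3 1 1 = true := ex3_a s9_pm_102 k8_pm_102

theorem s11_pm_102 : ∃ t, chk3 f_pm_102 t 2 3 1 = true := ex3_a k4_pm_102 k5_pm_102

theorem s12_pm_102 : ∃ t, chk3 f_pm_102 t 5 5 1 = true := ex3_a k2_pm_102 k3_pm_102

theorem s13_pm_102 : ∃ t, chk3 f_pm_102 t 5 2 1 = true := ex3_b k1_pm_102 s12_pm_102

theorem s14_pm_102 : ∃ t, chk3 f_pm_102 t 2 2 1 = true := ex3_a k0_pm_102 s13_pm_102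

theorem s15_pm_102 : ∃ t, chk3 f_pm_102 t 2 1 1 = true := ex3_b s14_pm_102 s11_pm_102

theorem s16_pm_102 : ∃ t, chk3 f_pm_102 t 1 1 1 = true := ex3_a s15_pm_102 s10_pm_102

theorem c_pm_102 : CertB 536870912 536870912 0 536870912 649613803 48318383 3 eng mog cd2q1 cd0q2 pd0 false true false .npp 1 0 2
    ndB2q1 ndB0q2 pcB0 Cut.none Ext.none :=
  certB2 (fam := false) (s1 := true) (s2 := false) (a := 1) (b := 0) (c := 2) (cn := .npp) (n1 := ndB2q1) (n2 := ndB0q2) (pc := pcB0) (cut := Cut.none) (xt := Ext.none) (P1 := 536870912) (W1 := 536870912) (P2 := 0) (W2 := 536870912) (P3 := 649613803) (W3 := 48318383) (N0 := 3) (En := eng) (mo := mog) (C1 := cd2q1) (C2 := cd0q2) (C3 := pd0)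
    rfl (fun _ => rfl) s16_pm_102

noncomputable def f_pm_112 : ℕ → ℕ → ℕ → ℕ → Bool := onCell 536870912 536870912 0 536870912 649613803 48318383
    (rowB 3 eng mog cd2q1 cd0q2 pd1 2 false true false .dn 1 1 2 (qsf 536870912 536870912 0 536870912 1) ndB2q1 ndB0q2 pcB1 Cut.none Ext.none)

def k0_pm_112 : ∃ t, chk3 f_pm_112 t 1 1 1 = true :=
  ⟨(a (b (a (b (b (a (b (l 16681352) (l 16672488)) (a (l 16669736) (l 16657600))) (a (l 16650544) (l 16630568))) (b (a (b (l 16626184) (l 16610904)) (l 16598320)) (a (l 16578672) (l 16556512)))) (a (b (b (l 16633712) (l 16598512)) (b (l 16564744) (l 16526448))) (l 1))) (b (a (b (a (l 16519848) (l 16502832)) (a (l 16449360) (l 16444720))) (l 1)) (a (b (a (l 16388520) (l 16400480)) (a (b (l 16355736) (l 16341096)) (l 1))) (l 1)))) (l 1)), by decide +kernel⟩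

theorem c_pm_112 : CertB 536870912 536870912 0 536870912 649613803 48318383 3 eng mog cd2q1 cd0q2 pd1 false true false .dn 1 1 2
    ndB2q1 ndB0q2 pcB1 Cut.none Ext.none :=
  certB2 (fam := false) (s1 := true) (s2 := false) (a := 1) (b := 1) (c := 2) (cn := .dn) (n1 := ndB2q1) (n2 := ndB0q2) (pc := pcB1) (cut := Cut.none) (xt := Ext.none) (P1 := 536870912) (W1 := 536870912) (P2 := 0) (W2 := 536870912) (P3 := 649613803) (W3 := 48318383) (N0 := 3) (En := eng) (mo := mog) (C1 := cd2q1) (C2 := cd0q2) (C3 := pd1)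
    rfl (fun _ => rfl) k0_pm_112

noncomputable def cut_pm_202_a : Cut := Cut.of [[⟨0, 1, 0, 67108864⟩, ⟨1, 0, 0, 67108864⟩, ⟨2, 1, 0, 67108864⟩]]

noncomputable def f_pm_202_a : ℕ → ℕ → ℕ → ℕ → Bool := onCell 0 536870912 0 536870912 649613803 48318383
    (rowB 3 eng mog cd2q2a cd0q2 pd0 0 false true false .pp 2 0 2 (qsf 0 536870912 0 536870912 0) ndB2q2a ndB0q2 pcB0 cut_pm_202_a Ext.none)

def k0_pm_202_a : ∃ t, chk3 f_pm_202_a t 1 1 1 = true :=
  ⟨(a (l 3) (b (l 3) (b (l 3) (a (l 3) (b (l 3) (a (l 3) (l 6))))))), by decide +kernel⟩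

theorem c_pm_202_a : CertB 0 536870912 0 536870912 649613803 48318383 3 eng mog cd2q2a cd0q2 pd0 false true false .pp 2 0 2
    ndB2q2a ndB0q2 pcB0 cut_pm_202_a Ext.none :=
  certB0 (fam := false) (s1 := true) (s2 := false) (a := 2) (b := 0) (c := 2) (cn := .pp) (n1 := ndB2q2a) (n2 := ndB0q2) (pc := pcB0) (cut := cut_pm_202_a) (xt := Ext.none) (P1 := 0) (W1 := 536870912) (P2 := 0) (W2 := 536870912) (P3 := 649613803) (W3 := 48318383) (N0 := 3) (En := eng) (mo := mog) (C1 := cd2q2a) (C2 := cd0q2) (C3 := pd0)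
    rfl k0_pm_202_a

noncomputable def cut_pm_202_b : Cut := Cut.of [[⟨0, 1, 0, 67108864⟩, ⟨1, 0, 0, 67108864⟩, ⟨2, 1, 0, 67108864⟩]]

noncomputable def f_pm_202_b : ℕ → ℕ → ℕ → ℕ → Bool := onCell 1239849684 370763052 0 536870912 649613803 48318383
    (rowB 3 eng mog cd2q2b cd0q2 pd0 0 false true false .pp 2 0 2 (qsf 1239849684 370763052 0 536870912 0) ndB2q2b ndB0q2 pcB0 cut_pm_202_b Ext.none)

def k0_pm_202_b : ∃ t, chk3 f_pm_202_b t 1 1 1 = true :=
  ⟨(l 3), by decide +kernel⟩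

theorem c_pm_202_b : CertB 1239849684 370763052 0 536870912 649613803 48318383 3 eng mog cd2q2b cd0q2 pd0 false true false .pp 2 0 2
    ndB2q2b ndB0q2 pcB0 cut_pm_202_b Ext.none :=
  certB0 (fam := false) (s1 := true) (s2 := false) (a := 2) (b := 0) (c := 2) (cn := .pp) (n1 := ndB2q2b) (n2 := ndB0q2) (pc := pcB0) (cut := cut_pm_202_b) (xt := Ext.none) (P1 := 1239849684) (W1 := 370763052) (P2 := 0) (W2 := 536870912) (P3 := 649613803) (W3 := 48318383) (N0 := 3) (En := eng) (mo := mog) (C1 := cd2q2b) (C2 := cd0q2) (C3 := pd0)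
    rfl k0_pm_202_b

noncomputable def f_mm_001 : ℕ → ℕ → ℕ → ℕ → Bool := onCell 0 536870912 536870912 536870912 649613803 48318383
    (rowB 3 eng mog cd2q0 cd0q1 pd0 0 false false false .up 0 0 1 (qsf 0 536870912 536870912 536870912 0) ndB2q0 ndB0q1 pcB0 Cut.none Ext.none)

def k0_mm_001 : ∃ t, chk3 f_mm_001 t 1 1 1 = true :=
  ⟨(l 5), by decide +kernel⟩

theorem c_mm_001 : CertB 0 536870912 536870912 536870912 649613803 48318383 3 eng mog cd2q0 cd0q1 pd0 false false false .up 0 0 1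
    ndB2q0 ndB0q1 pcB0 Cut.none Ext.none :=
  certB0 (fam := false) (s1 := false) (s2 := false) (a := 0) (b := 0) (c := 1) (cn := .up) (n1 := ndB2q0) (n2 := ndB0q1) (pc := pcB0) (cut := Cut.none) (xt := Ext.none) (P1 := 0) (W1 := 536870912) (P2 := 536870912) (W2 := 536870912) (P3 := 649613803) (W3 := 48318383) (N0 := 3) (En := eng) (mo := mog) (C1 := cd2q0) (C2 := cd0q1) (C3 := pd0)
    rfl k0_mm_001

noncomputable def f_mm_011 : ℕ → ℕ → ℕ → ℕ → Bool := onCell 0 536870912 536870912 536870912 649613803 48318383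
    (rowB 3 eng mog cd2q0 cd0q1 pd1 0 false false false .pnn 0 1 1 (qsf 0 536870912 536870912 536870912 1) ndB2q0 ndB0q1 pcB1 Cut.none Ext.none)

def k0_mm_011 : ∃ t, chk3 f_mm_011 t 1 1 1 = true :=
  ⟨(l 5), by decide +kernel⟩

theorem c_mm_011 : CertB 0 536870912 536870912 536870912 649613803 48318383 3 eng mog cd2q0 cd0q1 pd1 false false false .pnn 0 1 1
    ndB2q0 ndB0q1 pcB1 Cut.none Ext.none :=
  certB0 (fam := false) (s1 := false) (s2 := false) (a := 0) (b := 1) (c := 1) (cn := .pnn) (n1 := ndB2q0) (n2 := ndB0q1) (pc := pcB1) (cut := Cut.none) (xt := Ext.none) (P1 := 0) (W1 := 536870912) (P2 := 536870912) (W2 := 536870912) (P3 := 649613803) (W3 := 48318383) (N0 := 3) (En := eng) (mo := mog) (C1 := cd2q0) (C2 := cd0q1) (C3 := pd1)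
    rfl k0_mm_011

noncomputable def f_mm_012 : ℕ → ℕ → ℕ → ℕ → Bool := onCell 0 536870912 0 536870912 649613803 48318383
    (rowB 3 eng mog cd2q0 cd0q2 pd1 0 false false false .pnp 0 1 2 (qsf 0 536870912 0 536870912 1) ndB2q0 ndB0q2 pcB1 Cut.none Ext.none)

def k0_mm_012 : ∃ t, chk3 f_mm_012 t 1 1 1 = true :=
  ⟨(l 5), by decide +kernel⟩

theorem c_mm_012 : CertB 0 536870912 0 536870912 649613803 48318383 3 eng mog cd2q0 cd0q2 pd1 false false false .pnp 0 1 2
    ndB2q0 ndB0q2 pcB1 Cut.none Ext.none :=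
  certB0 (fam := false) (s1 := false) (s2 := false) (a := 0) (b := 1) (c := 2) (cn := .pnp) (n1 := ndB2q0) (n2 := ndB0q2) (pc := pcB1) (cut := Cut.none) (xt := Ext.none) (P1 := 0) (W1 := 536870912) (P2 := 0) (W2 := 536870912) (P3 := 649613803) (W3 := 48318383) (N0 := 3) (En := eng) (mo := mog) (C1 := cd2q0) (C2 := cd0q2) (C3 := pd1)
    rfl k0_mm_012

noncomputable def f_mm_022 : ℕ → ℕ → ℕ → ℕ → Bool := onCell 0 536870912 0 536870912 649613803 48318383
    (rowB 3 eng mog cd2q0 cd0q2 pd2 0 false false false .pp 0 2 2 (qsf 0 536870912 0 536870912 2) ndB2q0 ndB0q2 pcB2 Cut.none Ext.none)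

def k0_mm_022 : ∃ t, chk3 f_mm_022 t 1 1 1 = true :=
  ⟨(l 5), by decide +kernel⟩

theorem c_mm_022 : CertB 0 536870912 0 536870912 649613803 48318383 3 eng mog cd2q0 cd0q2 pd2 false false false .pp 0 2 2
    ndB2q0 ndB0q2 pcB2 Cut.none Ext.none :=
  certB0 (fam := false) (s1 := false) (s2 := false) (a := 0) (b := 2) (c := 2) (cn := .pp) (n1 := ndB2q0) (n2 := ndB0q2) (pc := pcB2) (cut := Cut.none) (xt := Ext.none) (P1 := 0) (W1 := 536870912) (P2 := 0) (W2 := 536870912) (P3 := 649613803) (W3 := 48318383) (N0 := 3) (En := eng) (mo := mog) (C1 := cd2q0) (C2 := cd0q2) (C3 := pd2)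
    rfl k0_mm_022

noncomputable def f_mm_101 : ℕ → ℕ → ℕ → ℕ → Bool := onCell 536870912 536870912 536870912 536870912 649613803 48318383
    (rowB 3 eng mog cd2q1 cd0q1 pd0 0 false false false .npn 1 0 1 (qsf 536870912 536870912 536870912 536870912 0) ndB2q1 ndB0q1 pcB0 Cut.none Ext.none)

def k0_mm_101 : ∃ t, chk3 f_mm_101 t 1 1 1 = true :=
  ⟨(l 3), by decide +kernel⟩

theorem c_mm_101 : CertB 536870912 536870912 536870912 536870912 649613803 48318383 3 eng mog cd2q1 cd0q1 pd0 false false false .npn 1 0 1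
    ndB2q1 ndB0q1 pcB0 Cut.none Ext.none :=
  certB0 (fam := false) (s1 := false) (s2 := false) (a := 1) (b := 0) (c := 1) (cn := .npn) (n1 := ndB2q1) (n2 := ndB0q1) (pc := pcB0) (cut := Cut.none) (xt := Ext.none) (P1 := 536870912) (W1 := 536870912) (P2 := 536870912) (W2 := 536870912) (P3 := 649613803) (W3 := 48318383) (N0 := 3) (En := eng) (mo := mog) (C1 := cd2q1) (C2 := cd0q1) (C3 := pd0)
    rfl k0_mm_101

noncomputable def f_mm_102 : ℕ → ℕ → ℕ → ℕ → Bool := onCell 536870912 536870912 0 536870912 649613803 48318383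
    (rowB 3 eng mog cd2q1 cd0q2 pd0 0 false false false .npp 1 0 2 (qsf 536870912 536870912 0 536870912 0) ndB2q1 ndB0q2 pcB0 Cut.none Ext.none)

def k0_mm_102 : ∃ t, chk3 f_mm_102 t 1 1 1 = true :=
  ⟨(l 5), by decide +kernel⟩

theorem c_mm_102 : CertB 536870912 536870912 0 536870912 649613803 48318383 3 eng mog cd2q1 cd0q2 pd0 false false false .npp 1 0 2
    ndB2q1 ndB0q2 pcB0 Cut.none Ext.none :=
  certB0 (fam := false) (s1 := false) (s2 := false) (a := 1) (b := 0) (c := 2) (cn := .npp) (n1 := ndB2q1) (n2 := ndB0q2) (pc := pcB0) (cut := Cut.none) (xt := Ext.none) (P1 := 536870912) (W1 := 536870912) (P2 := 0) (W2 := 536870912) (P3 := 649613803) (W3 := 48318383) (N0 := 3) (En := eng) (mo := mog) (C1 := cd2q1) (C2 := cd0q2) (C3 := pd0)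
    rfl k0_mm_102

noncomputable def f_mm_112 : ℕ → ℕ → ℕ → ℕ → Bool := onCell 536870912 536870912 0 536870912 649613803 48318383
    (rowB 3 eng mog cd2q1 cd0q2 pd1 0 false false false .dn 1 1 2 (qsf 536870912 536870912 0 536870912 1) ndB2q1 ndB0q2 pcB1 Cut.none Ext.none)

def k0_mm_112 : ∃ t, chk3 f_mm_112 t 1 1 1 = true :=
  ⟨(l 5), by decide +kernel⟩

theorem c_mm_112 : CertB 536870912 536870912 0 536870912 649613803 48318383 3 eng mog cd2q1 cd0q2 pd1 false false false .dn 1 1 2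
    ndB2q1 ndB0q2 pcB1 Cut.none Ext.none :=
  certB0 (fam := false) (s1 := false) (s2 := false) (a := 1) (b := 1) (c := 2) (cn := .dn) (n1 := ndB2q1) (n2 := ndB0q2) (pc := pcB1) (cut := Cut.none) (xt := Ext.none) (P1 := 536870912) (W1 := 536870912) (P2 := 0) (W2 := 536870912) (P3 := 649613803) (W3 := 48318383) (N0 := 3) (En := eng) (mo := mog) (C1 := cd2q1) (C2 := cd0q2) (C3 := pd1)
    rfl k0_mm_112

noncomputable def f_mm_202_a : ℕ → ℕ → ℕ → ℕ → Bool := onCell 0 536870912 0 536870912 649613803 48318383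
    (rowB 3 eng mog cd2q2a cd0q2 pd0 0 false false false .pp 2 0 2 (qsf 0 536870912 0 536870912 0) ndB2q2a ndB0q2 pcB0 Cut.none Ext.none)

def k0_mm_202_a : ∃ t, chk3 f_mm_202_a t 1 1 1 = true :=
  ⟨(l 3), by decide +kernel⟩

theorem c_mm_202_a : CertB 0 536870912 0 536870912 649613803 48318383 3 eng mog cd2q2a cd0q2 pd0 false false false .pp 2 0 2
    ndB2q2a ndB0q2 pcB0 Cut.none Ext.none :=
  certB0 (fam := false) (s1 := false) (s2 := false) (a := 2) (b := 0) (c := 2) (cn := .pp) (n1 := ndB2q2a) (n2 := ndB0q2) (pc := pcB0) (cut := Cut.none) (xt := Ext.none) (P1 := 0) (W1 := 536870912) (P2 := 0) (W2 := 536870912) (P3 := 649613803) (W3 := 48318383) (N0 := 3) (En := eng) (mo := mog) (C1 := cd2q2a) (C2 := cd0q2) (C3 := pd0)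
    rfl k0_mm_202_a

noncomputable def f_mm_202_b : ℕ → ℕ → ℕ → ℕ → Bool := onCell 1239849684 370763052 0 536870912 649613803 48318383
    (rowB 3 eng mog cd2q2b cd0q2 pd0 0 false false false .pp 2 0 2 (qsf 1239849684 370763052 0 536870912 0) ndB2q2b ndB0q2 pcB0 Cut.none Ext.none)

def k0_mm_202_b : ∃ t, chk3 f_mm_202_b t 1 1 1 = true :=
  ⟨(l 3), by decide +kernel⟩

theorem c_mm_202_b : CertB 1239849684 370763052 0 536870912 649613803 48318383 3 eng mog cd2q2b cd0q2 pd0 false false false .pp 2 0 2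
    ndB2q2b ndB0q2 pcB0 Cut.none Ext.none :=
  certB0 (fam := false) (s1 := false) (s2 := false) (a := 2) (b := 0) (c := 2) (cn := .pp) (n1 := ndB2q2b) (n2 := ndB0q2) (pc := pcB0) (cut := Cut.none) (xt := Ext.none) (P1 := 1239849684) (W1 := 370763052) (P2 := 0) (W2 := 536870912) (P3 := 649613803) (W3 := 48318383) (N0 := 3) (En := eng) (mo := mog) (C1 := cd2q2b) (C2 := cd0q2) (C3 := pd0)
    rfl k0_mm_202_b

end Pool.Agent.Strip051.G.I6050_6500.Tab.C.BB20

namespace Pool.Agent.Strip051.G.I6050_6500.Tab.C.BB21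

open Pool.Agent.Strip051.PB Pool.Agent.Strip051.PB.T
open Pool.Agent.Strip051.G.I6050_6500.Tab

noncomputable def f_pp_001 : ℕ → ℕ → ℕ → ℕ → Bool := onCell 0 536870912 0 536870912 649613803 48318383
    (rowB 3 eng mog cd2q0 cd1q1 pd0 1 false true true .up 0 0 1 (qsf 0 536870912 536870912 536870912 0) ndB2q0 ndB1q1 pcB0 Cut.none Ext.none)

def k0_pp_001 : ∃ t, chk3 f_pp_001 t 1 1 1 = true :=
  ⟨(l 3), by decide +kernel⟩

theorem c_pp_001 : CertB 0 536870912 536870912 536870912 649613803 48318383 3 eng mog cd2q0 cd1q1 pd0 false true true .up 0 0 1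
    ndB2q0 ndB1q1 pcB0 Cut.none Ext.none :=
  certB1 (fam := false) (s1 := true) (s2 := true) (a := 0) (b := 0) (c := 1) (cn := .up) (n1 := ndB2q0) (n2 := ndB1q1) (pc := pcB0) (cut := Cut.none) (xt := Ext.none) (P1 := 0) (W1 := 536870912) (P2 := 536870912) (W2 := 536870912) (P3 := 649613803) (W3 := 48318383) (N0 := 3) (En := eng) (mo := mog) (C1 := cd2q0) (C2 := cd1q1) (C3 := pd0)
    rfl (fun _ => rfl) k0_pp_001

noncomputable def f_pp_011 : ℕ → ℕ → ℕ → ℕ → Bool := onCell 0 536870912 536870912 536870912 649613803 48318383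
    (rowB 3 eng mog cd2q0 cd1q1 pd1 0 false true true .pnn 0 1 1 (qsf 0 536870912 536870912 536870912 1) ndB2q0 ndB1q1 pcB1 Cut.none Ext.none)

def k0_pp_011 : ∃ t, chk3 f_pp_011 t 1 1 1 = true :=
  ⟨(a (b (l 3) (l 3)) (l 3)), by decide +kernel⟩

theorem c_pp_011 : CertB 0 536870912 536870912 536870912 649613803 48318383 3 eng mog cd2q0 cd1q1 pd1 false true true .pnn 0 1 1
    ndB2q0 ndB1q1 pcB1 Cut.none Ext.none :=
  certB0 (fam := false) (s1 := true) (s2 := true) (a := 0) (b := 1) (c := 1) (cn := .pnn) (n1 := ndB2q0) (n2 := ndB1q1) (pc := pcB1) (cut := Cut.none) (xt := Ext.none) (P1 := 0) (W1 := 536870912) (P2 := 536870912) (W2 := 536870912) (P3 := 649613803) (W3 := 48318383) (N0 := 3) (En := eng) (mo := mog) (C1 := cd2q0) (C2 := cd1q1) (C3 := pd1)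
    rfl k0_pp_011

noncomputable def cut_pp_012_a : Cut := Cut.of [[⟨0, 0, 0, 44739242⟩, ⟨1, 1, 0, 44739242⟩, ⟨2, 1, 0, 44739242⟩]]

noncomputable def f_pp_012_a : ℕ → ℕ → ℕ → ℕ → Bool := onCell 536870912 536870912 0 536870912 649613803 48318383
    (rowB 3 eng mog cd2q0 cd1q2a pd1 2 false true true .pnp 0 1 2 (qsf 0 536870912 0 536870912 1) ndB2q0 ndB1q2a pcB1 cut_pp_012_a Ext.none)

def k0_pp_012_a : ∃ t, chk3 f_pp_012_a t 2 1 1 = true :=
  ⟨(a (b (b (l 2) (b (l 2) (l 3))) (l 3)) (b (a (b (b (a (l 16714168) (l 16700952)) (a (b (l 16726744) (a (l 2) (l 16728296))) (l 16724648))) (b (a (b (a (l 113917167639) (l 16717808)) (a (a (l 2) (l 147270288615)) (b (l 16689408) (l 176798136855)))) (b (a (b (l 16729048) (l 16724304)) (l 16732048)) (a (l 16704680) (l 16716840)))) (a (l 3) (b (a (l 184314348343) (b (l 16705568) (l 169818871367))) (l 3))))) (b (b (a (l 16686704) (l 16669928)) (a (l 16714912) (l 16700144))) (b (b (a (l 16732240) (l 16723152)) (a (a (l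 16730040) (l 16736144)) (a (l 16737480) (l 16734352)))) (a (b (a (l 71034633399) (l 16712392)) (a (l 171429488823) (l 110763118391))) (b (a (l 16730520) (l 16740688)) (a (l 84456454231) (l 16730464))))))) (b (a (l 3) (a (l 3) (b (b (a (l 149954711319) (l 106468171671)) (l 3)) (l 3)))) (l 3)))), by decide +kernel⟩

def k1_pp_012_a : ∃ t, chk3 f_pp_012_a t 6 1 1 = true :=
  ⟨(b (a (b (b (l 16640856) (a (l 16724896) (l 16748104))) (b (a (l 16717696) (l 16720816)) (a (b (a (l 16743168) (l 16740200)) (a (l 16728736) (l 16743840))) (b (l 16729800) (a (l 16749424) (l 16745792)))))) (b (b (a (l 16610392) (l 16590416)) (a (b (l 16634136) (l 16651176)) (l 16620456))) (b (a (b (l 16667792) (l 16686776)) (b (l 16644968) (l 16662888))) (b (a (l 16707328) (l 16682720)) (a (l 16729464) (l 16704712)))))) (b (a (b (a (b (a (l 81235288343) (l 16748560)) (b (a (l 3) (l 16773352)) (l 3))) (b (a (l 16742528) (l 16744432)) (a (b (l 16763584) (l 123648108215)) (b (l 16752512)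 (l 16766936))))) (a (l 3) (b (a (l 3) (b (l 145659746055) (l 3))) (l 3)))) (b (a (b (a (l 16752072) (l 16745072)) (a (l 16747920) (l 16746432))) (b (l 16727680) (a (l 16752224) (l 16743760)))) (a (b (a (b (l 16767904) (l 169818991239)) (b (l 16754200) (l 16809640))) (a (l 3) (b (b (l 149417974119) (l 217063639063)) (l 3)))) (b (a (l 16770824) (l 16752312)) (a (b (b (l 16763352) (l 127406258439)) (b (l 213842398455) (l 3))) (b (l 16754488) (a (l 181093315847) (l 16764528)))))))) (a (l 3) (b (a (l 3) (b (a (l 3) (b (b (l 221358591991) (l 3)) (l 3))) (l 3))) (l 3))))), by decide +kernel⟩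

def k2_pp_012_a : ∃ t, chk3 f_pp_012_a t 7 2 1 = true :=
  ⟨(b (a (a (b (l 16571808) (l 16599280)) (b (l 16555688) (l 16580560))) (a (b (l 16543272) (l 16565584)) (b (l 16536128) (l 16555712)))) (a (b (a (b (l 16622544) (l 16640144)) (l 16611200)) (a (a (l 16696616) (l 16747928)) (b (l 16638072) (l 16657528)))) (a (b (l 16595024) (a (l 16634168) (l 16624176))) (b (a (l 16582416) (l 16570312)) (b (l 16595736) (l 16611888)))))), by decide +kernel⟩

def k3_pp_012_a : ∃ t, chk3 f_pp_012_a t 14 3 1 = true :=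
  ⟨(b (a (b (b (l 16702248) (l 16641232)) (b (a (l 16751888) (l 16741008)) (a (b (l 16749568) (l 16757232)) (b (l 16754912) (l 16754424))))) (b (b (l 16678168) (l 16699728)) (b (l 16700928) (a (b (l 16745216) (l 16755768)) (l 16738624))))) (b (a (b (a (b (b (l 16787640) (l 169282177047)) (a (l 3) (l 215989891095))) (b (l 16782592) (a (l 184851387511) (l 16804264)))) (a (l 3) (b (a (l 3) (l 202031261671)) (l 3)))) (b (a (b (l 16762304) (a (l 16769184) (l 16766328))) (b (l 16756304) (l 16767472))) (a (b (a (l 140291136375) (b (l 16777056) (l 16785352))) (b (l 195588803559) (l 3))) (b (a (l 16777696) (l 16772856)) (b (a (l 116131934647) (l 16781624)) (a (l 180019593399) (l 172503308855))))))) (a (l 3) (b (b (a (l 3) (b (a (l 3) (l 233706611687)) (l 3))) (l 3)) (l 3))))), by decide +kernel⟩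

def k4_pp_012_a : ∃ t, chk3 f_pp_012_a t 15 3 1 = true :=
  ⟨(b (a (b (b (l 16658072) (l 16677704)) (b (l 16698424) (a (l 16726168) (l 16713736)))) (b (b (l 16651272) (l 16672360)) (b (l 16694912) (a (l 16700216) (l 16687096))))) (b (a (b (a (b (l 16744160) (l 16755144)) (b (l 16729256) (l 16739912))) (b (a (l 16724184) (l 16750616)) (a (a (b (l 16774072) (l 16779680)) (l 16770496)) (a (l 16765608) (l 16757888))))) (b (a (a (l 16723048) (l 16715968)) (b (l 16700800) (l 16710120))) (b (a (l 16735448) (a (l 16702912) (l 16716808))) (a (a (l 16750152) (l 16742496)) (a (l 16734928) (b (l 16724848) (l 16730232))))))) (a (b (a (b (b (a (b (l 16784048) (l 119890023639)) (l 16777920)) (a (b (l 233169775143) (l 3)) (b (l 16782296) (l 131164310599)))) (a (l 3) (a (l 3) (b (l 202031259543) (l 3))))) (b (a (b (l 16771016) (l 16776336)) (l 16789928)) (a (b (a (l 154249757303) (l 16791488)) (a (l 3) (l 206326246263))) (b (l 16775408) (a (l 195051937863) (l 16790712))))))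 (b (a (l 3) (a (l 3) (b (a (l 3) (b (l 184851383031) (l 3))) (l 3)))) (l 3))) (b (a (a (b (l 16761352) (b (l 16770088) (l 16795656))) (b (l 16753664) (b (l 16762496) (l 16768664)))) (a (b (b (l 16743208) (l 16748792)) (b (l 16754832) (l 6))) (b (a (l 16740352) (l 16736608)) (l 6)))) (a (b (a (b (b (a (l 16792032) (l 16777760)) (a (l 168208384023) (l 16786424))) (a (l 3) (a (l 3) (l 6)))) (b (a (l 16775760) (l 6)) (l 6))) (l 6)) (l 6)))))), by decide +kernel⟩

theorem s5_pp_012_a : ∃ t, chk3 f_pp_012_a t 7 3 1 = true := ex3_a k3_pp_012_a k4_pp_012_a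

theorem s6_pp_012_a : ∃ t, chk3 f_pp_012_a t 7 1 1 = true := ex3_b k2_pp_012_a s5_pp_012_a

theorem s7_pp_012_a : ∃ t, chk3 f_pp_012_a t 3 1 1 = true := ex3_a k1_pp_012_a s6_pp_012_a

theorem s8_pp_012_a : ∃ t, chk3 f_pp_012_a t 1 1 1 = true := ex3_a k0_pp_012_a s7_pp_012_a

theorem c_pp_012_a : CertB 0 536870912 0 536870912 649613803 48318383 3 eng mog cd2q0 cd1q2a pd1 false true true .pnp 0 1 2
    ndB2q0 ndB1q2a pcB1 cut_pp_012_a Ext.none :=
  certB2 (fam := false) (s1 := true) (s2 := true) (a := 0) (b := 1) (c := 2) (cn := .pnp) (n1 := ndB2q0) (n2 := ndB1q2a) (pc := pcB1) (cut := cut_pp_012_a) (xt := Ext.none) (P1 := 0) (W1 := 536870912) (P2 := 0) (W2 := 536870912) (P3 := 649613803) (W3 := 48318383) (N0 := 3) (En := eng) (mo := mog) (C1 := cd2q0) (C2 := cd1q2a) (C3 := pd1)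
    rfl (fun _ => rfl) s8_pp_012_a

noncomputable def cut_pp_012_b : Cut := Cut.of [[⟨0, 0, 0, 44739242⟩, ⟨1, 1, 0, 44739242⟩, ⟨2, 1, 0, 44739242⟩]]

noncomputable def f_pp_012_b : ℕ → ℕ → ℕ → ℕ → Bool := onCell 536870912 536870912 1239849684 370763052 649613803 48318383
    (rowB 3 eng mog cd2q0 cd1q2b pd1 2 false true true .pnp 0 1 2 (qsf 0 536870912 1239849684 370763052 1) ndB2q0 ndB1q2b pcB1 cut_pp_012_b Ext.none)

def k0_pp_012_b : ∃ t, chk3 f_pp_012_b t 1 1 1 = true :=
  ⟨(a (a (l 2) (b (b (a (b (l 16687696) (l 2)) (l 16640400)) (a (l 2) (l 16627376))) (l 2))) (a (b (a (b (b (l 16607704) (l 16581688)) (l 16563664)) (b (b (l 16583904) (l 16526184)) (l 16494288))) (a (l 2) (b (l 16493584) (l 2)))) (b (a (b (a (l 16507128) (l 16548064)) (l 16423800)) (b (a (l 16466136) (b (l 16488304) (l 16417224))) (a (l 16372096) (l 16339104)))) (a (b (l 16405296) (l 16439000)) (b (l 16313536) (l 16331360)))))), by decide +kernel⟩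

theorem c_pp_012_b : CertB 0 536870912 1239849684 370763052 649613803 48318383 3 eng mog cd2q0 cd1q2b pd1 false true true .pnp 0 1 2
    ndB2q0 ndB1q2b pcB1 cut_pp_012_b Ext.none :=
  certB2 (fam := false) (s1 := true) (s2 := true) (a := 0) (b := 1) (c := 2) (cn := .pnp) (n1 := ndB2q0) (n2 := ndB1q2b) (pc := pcB1) (cut := cut_pp_012_b) (xt := Ext.none) (P1 := 0) (W1 := 536870912) (P2 := 1239849684) (W2 := 370763052) (P3 := 649613803) (W3 := 48318383) (N0 := 3) (En := eng) (mo := mog) (C1 := cd2q0) (C2 := cd1q2b) (C3 := pd1)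
    rfl (fun _ => rfl) k0_pp_012_b

noncomputable def cut_pp_022_a : Cut := Cut.of [[⟨0, 0, 0, 67108864⟩, ⟨1, 1, 0, 67108864⟩, ⟨2, 1, 0, 67108864⟩]]

noncomputable def f_pp_022_a : ℕ → ℕ → ℕ → ℕ → Bool := onCell 1073741824 536870912 0 536870912 649613803 48318383
    (rowB 3 eng mog cd2q0 cd1q2a pd2 2 false true true .pp 0 2 2 (qsf 0 536870912 0 536870912 2) ndB2q0 ndB1q2a pcB2 cut_pp_022_a Ext.none)

def k0_pp_022_a : ∃ t, chk3 f_pp_022_a t 2 2 1 = true :=
  ⟨(a (b (a (b (a (l 16519400) (l 16497832)) (a (b (l 16529192) (l 16536864)) (l 16506192))) (b (a (l 16483416) (l 16552504)) (a (b (l 16491392) (l 16498144)) (a (l 16484032) (a (l 16479064) (l 16475944)))))) (b (a (a (b (a (l 16509688) (l 16559832)) (c (l 16558632) (l 16553416))) (b (c (l 16568384) (l 16541888)) (c (l 16474368) (a (l 16536504) (l 16526344))))) (a (b (a (l 16510048) (l 16501232)) (c (l 16517984) (a (l 16516216) (l 16506112)))) (c (b (a (l 16495496) (l 16487624)) (a (l 16504088) (l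 16495128))) (b (a (l 16489000) (l 16480312)) (a (l 16496048) (l 16486016)))))) (b (a (a (a (l 16575136) (l 16563544)) (c (l 16550272) (a (l 16549968) (l 16538952)))) (a (c (a (l 16534776) (l 16524512)) (a (l 16527808) (l 16516536))) (c (a (l 16514272) (a (l 16506600) (l 16501488))) (a (l 16505136) (a (l 16496488) (l 16490688)))))) (a (a (a (l 16592208) (l 16580960)) (a (l 16569720) (c (l 16560808) (l 16554896)))) (a (a (c (l 16549656) (l 16542560)) (c (l 16538344) (l 16529936))) (a (c (l 16547816) (l 16517016)) (a (l 16526264) (a (l 16508448) (l 16505280))))))))) (a (b (b (a (c (a (l 16453728) (b (l 16443632) (l 16448368))) (l 147135677335)) (l 1)) (a (a (b (l 16465640) (l 16493904)) (b (l 137472008855) (b (l 16506608) (l 16498728)))) (l 1))) (a (a (b (c (b (l 16480176) (c (l 16488152) (l 16484264))) (b (b (l 16471072) (l 16472392)) (l 72510555911))) (a (b (c (l 16496376) (l 16484840)) (c (l 16506160) (l 16493576))) (b (c (l 16491256) (l 16478960)) (l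 1)))) (b (c (b (l 78416072231) (l 280816469799)) (b (b (l 16463144) (l 16463656)) (l 189011527719))) (l 1))) (l 1))) (l 1))), by decide +kernel⟩

def k1_pp_022_a : ∃ t, chk3 f_pp_022_a t 2 3 1 = true :=
  ⟨(a (a (b (b (a (b (a (l 16651840) (l 16600904)) (l 16623176)) (b (a (l 16588640) (a (l 16579152) (l 16572680))) (a (l 16608104) (l 16593608)))) (a (b (l 16672904) (a (l 16663512) (l 16657680))) (a (b (l 16627480) (a (l 16650872) (l 16641648))) (b (l 16646312) (b (l 16581800) (c (l 16633664) (l 16627304))))))) (b (b (a (a (a (l 16707416) (l 16683904)) (b (l 16674040) (l 16685152))) (a (b (l 16637496) (b (l 16643520) (l 6))) (b (a (l 16600880) (l 16632024)) (a (b (l 16648016) (l 6)) (c (l 16652000) (l 118681756007)))))) (a (l 6) (a (l 6) (a (l 6) (a (l 6) (l 1)))))) (a (l 6) (a (l 6) (l 1))))) (b (b (a (b (a (c (l 16565936) (l 16579608)) (c (l 16553048) (l 16565144))) (a (c (l 16581824) (l 16574216)) (b (l 16559192) (l 16586840)))) (a (b (b (a (l 16535576)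 (l 16528648)) (l 16537640)) (b (l 16558952) (l 111702282999))) (b (b (a (l 16521592) (l 16514376)) (l 128345229127)) (l 1)))) (a (a (b (c (l 16597080) (l 16610160)) (b (b (l 16623792) (l 16626896)) (a (l 16615304) (l 16604640)))) (b (b (l 146598932519) (a (l 16583032) (l 16573272))) (b (a (l 16589200) (l 1)) (l 1)))) (b (a (b (l 91838074263) (l 1)) (l 1)) (l 1)))) (b (a (b (a (b (a (l 121366099687) (l 16609448)) (a (l 94522560951) (l 1))) (l 1)) (l 1)) (l 1)) (l 1)))) (b (l 1) (l 1))), by decide +kernel⟩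

def k2_pp_022_a : ∃ t, chk3 f_pp_022_a t 3 1 1 = true :=
  ⟨(l 1), by decide +kernel⟩

theorem s3_pp_022_a : ∃ t, chk3 f_pp_022_a t 2 1 1 = true := ex3_b k0_pp_022_a k1_pp_022_a

theorem s4_pp_022_a : ∃ t, chk3 f_pp_022_a t 1 1 1 = true := ex3_a s3_pp_022_a k2_pp_022_a

theorem c_pp_022_a : CertB 0 536870912 0 536870912 649613803 48318383 3 eng mog cd2q0 cd1q2a pd2 false true true .pp 0 2 2
    ndB2q0 ndB1q2a pcB2 cut_pp_022_a Ext.none :=
  certB2 (fam := false) (s1 := true) (s2 := true) (a := 0) (b := 2) (c := 2) (cn := .pp) (n1 := ndB2q0) (n2 := ndB1q2a) (pc := pcB2) (cut := cut_pp_022_a) (xt := Ext.none) (P1 := 0) (W1 := 536870912) (P2 := 0) (W2 := 536870912) (P3 := 649613803) (W3 := 48318383) (N0 := 3) (En := eng) (mo := mog) (C1 := cd2q0) (C2 := cd1q2a) (C3 := pd2)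
    rfl (fun _ => rfl) s4_pp_022_a

noncomputable def cut_pp_022_b : Cut := Cut.of [[⟨0, 0, 0, 67108864⟩, ⟨1, 1, 0, 67108864⟩, ⟨2, 1, 0, 67108864⟩]]

noncomputable def f_pp_022_b : ℕ → ℕ → ℕ → ℕ → Bool := onCell 0 536870912 1073741824 536870912 649613803 48318383
    (rowB 3 eng mog cd2q0 cd1q2b pd2 1 false true true .pp 0 2 2 (qsf 0 536870912 1239849684 370763052 2) ndB2q0 ndB1q2b pcB2 cut_pp_022_b Ext.none)

def k0_pp_022_b : ∃ t, chk3 f_pp_022_b t 1 1 1 = true :=
  ⟨(b (a (b (a (b (a (l 1) (b (l 417181752983) (a (l 419329179639) (l 16490088)))) (a (b (l 329671822263) (a (b (l 1) (l 154115092839)) (l 16523624))) (b (l 32245352391) (l 16434136)))) (b (a (b (a (l 234108818167) (l 16472168)) (l 16416560)) (l 16459768)) (a (l 16430128) (l 16247536)))) (a (b (a (a (b (b (l 16568168) (c (l 16445544) (l 16426944))) (b (c (b (l 16397824) (l 16380744)) (l 16389968)) (c (l 16362744) (l 16363888)))) (b (c (l 16384088) (l 16384512)) (b (b (l 16339336) (l 16322536))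 (l 16306336)))) (b (c (l 16344136) (l 16298216)) (b (l 16418040) (l 16228488)))) (a (b (l 16487296) (l 16241752)) (l 16322672))) (b (b (a (l 16208664) (l 16147976)) (b (l 16346888) (l 16187520))) (a (l 16115784) (l 16091504))))) (b (a (b (a (l 16283552) (l 16246400)) (l 16167656)) (b (l 16253608) (l 16192768))) (b (a (b (l 16112840) (l 16090424)) (l 16158328)) (a (l 16107520) (l 2))))) (b (a (a (b (a (a (l 16186360) (l 16157888)) (l 16109456)) (a (b (l 16122176) (l 16102432)) (l 16076576))) (b (l 16025872) (l 16015072))) (b (l 16391184) (l 2))) (a (a (b (a (l 16089920) (l 16082064)) (a (l 16097328) (l 16110656))) (b (l 16070040) (l 2))) (l 2)))), by decide +kernel⟩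

theorem c_pp_022_b : CertB 0 536870912 1239849684 370763052 649613803 48318383 3 eng mog cd2q0 cd1q2b pd2 false true true .pp 0 2 2
    ndB2q0 ndB1q2b pcB2 cut_pp_022_b Ext.none :=
  certB1 (fam := false) (s1 := true) (s2 := true) (a := 0) (b := 2) (c := 2) (cn := .pp) (n1 := ndB2q0) (n2 := ndB1q2b) (pc := pcB2) (cut := cut_pp_022_b) (xt := Ext.none) (P1 := 0) (W1 := 536870912) (P2 := 1239849684) (W2 := 370763052) (P3 := 649613803) (W3 := 48318383) (N0 := 3) (En := eng) (mo := mog) (C1 := cd2q0) (C2 := cd1q2b) (C3 := pd2)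
    rfl (fun _ => rfl) k0_pp_022_b

noncomputable def f_pp_023 : ℕ → ℕ → ℕ → ℕ → Bool := onCell 0 536870912 1073741824 536870912 649613803 48318383
    (rowB 3 eng mog cd2q0 cd1q3 pd2 1 false true true .up 0 2 3 (qsf 0 536870912 1610612736 536870912 2) ndB2q0 ndB1q3 pcB2 Cut.none Ext.none)

def k0_pp_023 : ∃ t, chk3 f_pp_023 t 1 1 1 = true :=
  ⟨(b (a (b (l 1) (a (l 1) (b (l 1) (l 402685684903)))) (b (a (b (l 1) (l 16170048)) (b (l 16262416) (l 16204992))) (b (a (l 209949242311) (l 16173616)) (a (l 16116864) (l 16226888))))) (b (a (a (b (l 1) (l 469257866263)) (b (l 16035080) (l 15998160))) (b (l 16389912) (a (l 16112392) (l 16417816)))) (a (a (b (l 411812652295) (l 474089699607)) (b (l 16047536) (l 16108744))) (a (b (l 16267040) (l 16402024)) (l 16550944))))), by decide +kernel⟩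

theorem c_pp_023 : CertB 0 536870912 1610612736 536870912 649613803 48318383 3 eng mog cd2q0 cd1q3 pd2 false true true .up 0 2 3
    ndB2q0 ndB1q3 pcB2 Cut.none Ext.none :=
  certB1 (fam := false) (s1 := true) (s2 := true) (a := 0) (b := 2) (c := 3) (cn := .up) (n1 := ndB2q0) (n2 := ndB1q3) (pc := pcB2) (cut := Cut.none) (xt := Ext.none) (P1 := 0) (W1 := 536870912) (P2 := 1610612736) (W2 := 536870912) (P3 := 649613803) (W3 := 48318383) (N0 := 3) (En := eng) (mo := mog) (C1 := cd2q0) (C2 := cd1q3) (C3 := pd2)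
    rfl (fun _ => rfl) k0_pp_023

noncomputable def f_pp_033 : ℕ → ℕ → ℕ → ℕ → Bool := onCell 0 536870912 1610612736 536870912 649613803 48318383
    (rowB 3 eng mog cd2q0 cd1q3 pd3 1 false true true .pnn 0 3 3 (qsf 0 536870912 1610612736 536870912 3) ndB2q0 ndB1q3 pcB3 Cut.none Ext.none)

def k0_pp_033 : ∃ t, chk3 f_pp_033 t 1 1 1 = true :=
  ⟨(a (b (b (b (a (l 16069992) (l 16231776)) (a (l 16083024) (l 16318488))) (b (a (l 16199360) (l 4)) (l 4))) (b (l 4) (a (l 4) (a (b (l 4) (l 2)) (l 2))))) (b (b (b (l 16557976) (l 16598248)) (a (l 4) (a (b (l 4) (l 2)) (l 2)))) (a (b (a (b (l 4) (l 2)) (l 2)) (l 2)) (l 2)))), by decide +kernel⟩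

theorem c_pp_033 : CertB 0 536870912 1610612736 536870912 649613803 48318383 3 eng mog cd2q0 cd1q3 pd3 false true true .pnn 0 3 3
    ndB2q0 ndB1q3 pcB3 Cut.none Ext.none :=
  certB1 (fam := false) (s1 := true) (s2 := true) (a := 0) (b := 3) (c := 3) (cn := .pnn) (n1 := ndB2q0) (n2 := ndB1q3) (pc := pcB3) (cut := Cut.none) (xt := Ext.none) (P1 := 0) (W1 := 536870912) (P2 := 1610612736) (W2 := 536870912) (P3 := 649613803) (W3 := 48318383) (N0 := 3) (En := eng) (mo := mog) (C1 := cd2q0) (C2 := cd1q3) (C3 := pd3)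
    rfl (fun _ => rfl) k0_pp_033

noncomputable def f_pp_101 : ℕ → ℕ → ℕ → ℕ → Bool := onCell 536870912 536870912 536870912 536870912 649613803 48318383
    (rowB 3 eng mog cd2q1 cd1q1 pd0 0 false true true .npn 1 0 1 (qsf 536870912 536870912 536870912 536870912 0) ndB2q1 ndB1q1 pcB0 Cut.none Ext.none)

def k0_pp_101 : ∃ t, chk3 f_pp_101 t 1 1 1 = true :=
  ⟨(l 3), by decide +kernel⟩

theorem c_pp_101 : CertB 536870912 536870912 536870912 536870912 649613803 48318383 3 eng mog cd2q1 cd1q1 pd0 false true true .npn 1 0 1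
    ndB2q1 ndB1q1 pcB0 Cut.none Ext.none :=
  certB0 (fam := false) (s1 := true) (s2 := true) (a := 1) (b := 0) (c := 1) (cn := .npn) (n1 := ndB2q1) (n2 := ndB1q1) (pc := pcB0) (cut := Cut.none) (xt := Ext.none) (P1 := 536870912) (W1 := 536870912) (P2 := 536870912) (W2 := 536870912) (P3 := 649613803) (W3 := 48318383) (N0 := 3) (En := eng) (mo := mog) (C1 := cd2q1) (C2 := cd1q1) (C3 := pd0)
    rfl k0_pp_101

noncomputable def f_pp_102_a : ℕ → ℕ → ℕ → ℕ → Bool := onCell 0 536870912 0 536870912 649613803 48318383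
    (rowB 3 eng mog cd2q1 cd1q2a pd0 2 false true true .npp 1 0 2 (qsf 536870912 536870912 0 536870912 0) ndB2q1 ndB1q2a pcB0 Cut.none Ext.none)

def k0_pp_102_a : ∃ t, chk3 f_pp_102_a t 1 1 1 = true :=
  ⟨(b (a (l 3) (a (l 3) (a (l 3) (b (b (b (a (a (b (l 203104737223) (l 3)) (b (l 181629940119) (l 200957253799))) (a (b (l 16671784) (l 182703676567)) (b (l 16679288) (l 16672080)))) (a (l 3) (a (l 3) (b (l 185388010759) (l 3))))) (l 3)) (l 3))))) (l 3)), by decide +kernel⟩

theorem c_pp_102_a : CertB 536870912 536870912 0 536870912 649613803 48318383 3 eng mog cd2q1 cd1q2a pd0 false true true .npp 1 0 2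
    ndB2q1 ndB1q2a pcB0 Cut.none Ext.none :=
  certB2 (fam := false) (s1 := true) (s2 := true) (a := 1) (b := 0) (c := 2) (cn := .npp) (n1 := ndB2q1) (n2 := ndB1q2a) (pc := pcB0) (cut := Cut.none) (xt := Ext.none) (P1 := 536870912) (W1 := 536870912) (P2 := 0) (W2 := 536870912) (P3 := 649613803) (W3 := 48318383) (N0 := 3) (En := eng) (mo := mog) (C1 := cd2q1) (C2 := cd1q2a) (C3 := pd0)
    rfl (fun _ => rfl) k0_pp_102_a

noncomputable def f_pp_102_b : ℕ → ℕ → ℕ → ℕ → Bool := onCell 0 536870912 1239849684 370763052 649613803 48318383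
    (rowB 3 eng mog cd2q1 cd1q2b pd0 2 false true true .npp 1 0 2 (qsf 536870912 536870912 1239849684 370763052 0) ndB2q1 ndB1q2b pcB0 Cut.none Ext.none)

def k0_pp_102_b : ∃ t, chk3 f_pp_102_b t 1 1 1 = true :=
  ⟨(a (l 3) (a (b (l 3) (l 3)) (b (a (b (l 3) (l 3)) (b (b (a (a (l 212231599127) (l 16651152)) (a (l 16659400) (l 16667520))) (a (l 3) (a (l 16623184) (l 16633312)))) (a (l 3) (b (l 197199168967) (l 3))))) (a (l 3) (l 3))))), by decide +kernel⟩

theorem c_pp_102_b : CertB 536870912 536870912 1239849684 370763052 649613803 48318383 3 eng mog cd2q1 cd1q2b pd0 false true true .npp 1 0 2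
    ndB2q1 ndB1q2b pcB0 Cut.none Ext.none :=
  certB2 (fam := false) (s1 := true) (s2 := true) (a := 1) (b := 0) (c := 2) (cn := .npp) (n1 := ndB2q1) (n2 := ndB1q2b) (pc := pcB0) (cut := Cut.none) (xt := Ext.none) (P1 := 536870912) (W1 := 536870912) (P2 := 1239849684) (W2 := 370763052) (P3 := 649613803) (W3 := 48318383) (N0 := 3) (En := eng) (mo := mog) (C1 := cd2q1) (C2 := cd1q2b) (C3 := pd0)
    rfl (fun _ => rfl) k0_pp_102_b

noncomputable def f_pp_112_a : ℕ → ℕ → ℕ → ℕ → Bool := onCell 536870912 536870912 0 536870912 649613803 48318383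
    (rowB 3 eng mog cd2q1 cd1q2a pd1 2 false true true .dn 1 1 2 (qsf 536870912 536870912 0 536870912 1) ndB2q1 ndB1q2a pcB1 Cut.none Ext.none)

def k0_pp_112_a : ∃ t, chk3 f_pp_112_a t 1 1 1 = true :=
  ⟨(a (a (b (b (a (b (a (a (b (b (l 16684680) (l 16680968)) (b (l 16673968) (l 162302562103))) (b (l 16688216) (l 104320518839))) (b (a (l 16692032) (l 16693960)) (a (b (l 16687864) (l 16682520)) (l 16690816)))) (a (b (a (l 3) (b (l 163913174727) (l 3))) (l 3)) (b (a (b (l 16674272) (l 169281884007)) (b (l 16683120) (l 112373574535))) (a (l 3) (l 174113777111))))) (b (a (b (l 16694424) (a (l 16694536) (l 16695824))) (l 16693032)) (a (a (b (l 16686960) (b (l 112910447319) (l 162839434567))) (b (l 16692096) (b (l 16683992) (l 111836706807)))) (a (b (l 16695152) (l 16687792)) (b (l 16696320) (a (l 16691600) (l 16693232))))))) (a (l 3) (b (b (a (a (l 3) (l 168745027959)) (a (b (a (l 135459038071) (l 16678464)) (l 162839437367)) (b (l 16684928) (b (l 86603798631)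 (l 130090326295))))) (l 3)) (l 3)))) (l 3)) (b (a (a (b (b (l 16683976) (b (l 16693728) (b (l 16695464) (a (l 16693744) (l 16694632))))) (b (a (b (b (l 16690544) (l 16684904)) (b (b (l 82308827463) (l 129553449271)) (l 3))) (b (l 16691752) (b (l 1) (l 1)))) (l 3))) (b (b (l 1) (l 1)) (l 1))) (l 1)) (b (l 1) (l 1)))) (l 1)), by decide +kernel⟩

theorem c_pp_112_a : CertB 536870912 536870912 0 536870912 649613803 48318383 3 eng mog cd2q1 cd1q2a pd1 false true true .dn 1 1 2
    ndB2q1 ndB1q2a pcB1 Cut.none Ext.none :=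
  certB2 (fam := false) (s1 := true) (s2 := true) (a := 1) (b := 1) (c := 2) (cn := .dn) (n1 := ndB2q1) (n2 := ndB1q2a) (pc := pcB1) (cut := Cut.none) (xt := Ext.none) (P1 := 536870912) (W1 := 536870912) (P2 := 0) (W2 := 536870912) (P3 := 649613803) (W3 := 48318383) (N0 := 3) (En := eng) (mo := mog) (C1 := cd2q1) (C2 := cd1q2a) (C3 := pd1)
    rfl (fun _ => rfl) k0_pp_112_a

noncomputable def f_pp_112_b : ℕ → ℕ → ℕ → ℕ → Bool := onCell 536870912 536870912 1239849684 370763052 649613803 48318383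
    (rowB 3 eng mog cd2q1 cd1q2b pd1 2 false true true .dn 1 1 2 (qsf 536870912 536870912 1239849684 370763052 1) ndB2q1 ndB1q2b pcB1 Cut.none Ext.none)

def k0_pp_112_b : ∃ t, chk3 f_pp_112_b t 1 1 1 = true :=
  ⟨(a (a (b (a (b (a (a (b (l 16672656) (l 16643128)) (b (l 16677824) (l 16650928))) (b (l 16682728) (l 16788072))) (a (b (l 53317926391) (l 146733371591)) (b (l 16656296) (l 16605816)))) (b (b (l 16683008) (l 16668568)) (a (b (l 16651184) (l 16629680)) (l 16650560)))) (a (b (a (l 3) (b (l 118816064951) (l 3))) (l 3)) (b (a (a (l 109152481623) (l 96804555079)) (b (l 16632408) (l 16617400))) (a (b (l 116131585383) (l 3)) (b (l 16641408) (l 132774741223)))))) (b (a (b (b (l 16663304) (l 16654536)) (l 16648848)) (b (l 16663032) (l 16618056))) (a (b (a (l 16648008) (l 16656768)) (a (b (l 16641944) (l 16638000)) (l 16680112))) (b (l 16644472) (l 16711448))))) (a (b (b (l 1) (a (l 16562704) (l 16500008))) (a (b (l 16589600) (l 16680656)) (l 54257444023)))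 (b (l 1) (a (l 194380507719) (l 214781538983))))), by decide +kernel⟩

theorem c_pp_112_b : CertB 536870912 536870912 1239849684 370763052 649613803 48318383 3 eng mog cd2q1 cd1q2b pd1 false true true .dn 1 1 2
    ndB2q1 ndB1q2b pcB1 Cut.none Ext.none :=
  certB2 (fam := false) (s1 := true) (s2 := true) (a := 1) (b := 1) (c := 2) (cn := .dn) (n1 := ndB2q1) (n2 := ndB1q2b) (pc := pcB1) (cut := Cut.none) (xt := Ext.none) (P1 := 536870912) (W1 := 536870912) (P2 := 1239849684) (W2 := 370763052) (P3 := 649613803) (W3 := 48318383) (N0 := 3) (En := eng) (mo := mog) (C1 := cd2q1) (C2 := cd1q2b) (C3 := pd1)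
    rfl (fun _ => rfl) k0_pp_112_b

noncomputable def f_pp_113 : ℕ → ℕ → ℕ → ℕ → Bool := onCell 536870912 536870912 536870912 536870912 649613803 48318383
    (rowB 3 eng mog cd2q1 cd1q3 pd1 1 false true true .nn 1 1 3 (qsf 536870912 536870912 1610612736 536870912 1) ndB2q1 ndB1q3 pcB1 Cut.none Ext.none)

def k0_pp_113 : ∃ t, chk3 f_pp_113 t 1 1 1 = true :=
  ⟨(b (b (a (l 1) (a (b (l 1) (a (l 1) (b (l 1) (l 256657567079)))) (l 3))) (a (a (l 1) (b (l 1) (l 16667792))) (b (a (a (l 224982403607) (b (l 16620848) (l 16680144))) (a (b (l 185387892407) (l 114520927319)) (l 3))) (a (a (l 16751504) (b (l 16755312) (l 16858560))) (a (b (l 16731016) (l 16760528)) (b (l 228337413511) (l 179482154247))))))) (b (a (a (l 175590405943) (b (l 16703760) (l 16759744))) (b (a (l 16991856) (a (b (l 16820224) (l 16865312)) (b (l 16623224) (l 16686552)))) (a (l 17100904) (a (l 16942024) (b (l 16808624) (l 16842704)))))) (a (a (l 16498376) (l 16828712)) (a (b (l 16979408) (l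 16887360)) (b (l 16922864) (l 16873960)))))), by decide +kernel⟩

theorem c_pp_113 : CertB 536870912 536870912 1610612736 536870912 649613803 48318383 3 eng mog cd2q1 cd1q3 pd1 false true true .nn 1 1 3
    ndB2q1 ndB1q3 pcB1 Cut.none Ext.none :=
  certB1 (fam := false) (s1 := true) (s2 := true) (a := 1) (b := 1) (c := 3) (cn := .nn) (n1 := ndB2q1) (n2 := ndB1q3) (pc := pcB1) (cut := Cut.none) (xt := Ext.none) (P1 := 536870912) (W1 := 536870912) (P2 := 1610612736) (W2 := 536870912) (P3 := 649613803) (W3 := 48318383) (N0 := 3) (En := eng) (mo := mog) (C1 := cd2q1) (C2 := cd1q3) (C3 := pd1)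
    rfl (fun _ => rfl) k0_pp_113

noncomputable def f_pp_123 : ℕ → ℕ → ℕ → ℕ → Bool := onCell 1073741824 536870912 1610612736 536870912 649613803 48318383
    (rowB 3 eng mog cd2q1 cd1q3 pd2 2 false true true .npn 1 2 3 (qsf 536870912 536870912 1610612736 536870912 2) ndB2q1 ndB1q3 pcB2 Cut.none Ext.none)

def k0_pp_123 : ∃ t, chk3 f_pp_123 t 1 1 1 = true :=
  ⟨(a (a (b (b (a (l 16424136) (l 16314280)) (a (l 16694296) (l 16521896))) (b (a (l 16780608) (l 16636240)) (a (l 16764024) (l 16656104)))) (b (a (b (l 16263048) (l 16385192)) (l 260415558071)) (b (a (l 16447536) (l 16496920)) (a (a (l 16579712) (l 16540256)) (l 16558224))))) (a (b (a (l 269542495079) (l 1)) (b (a (l 16513272) (l 16530656)) (l 16599184))) (b (l 1) (b (l 16577240) (l 16644424))))), by decide +kernel⟩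

theorem c_pp_123 : CertB 536870912 536870912 1610612736 536870912 649613803 48318383 3 eng mog cd2q1 cd1q3 pd2 false true true .npn 1 2 3
    ndB2q1 ndB1q3 pcB2 Cut.none Ext.none :=
  certB2 (fam := false) (s1 := true) (s2 := true) (a := 1) (b := 2) (c := 3) (cn := .npn) (n1 := ndB2q1) (n2 := ndB1q3) (pc := pcB2) (cut := Cut.none) (xt := Ext.none) (P1 := 536870912) (W1 := 536870912) (P2 := 1610612736) (W2 := 536870912) (P3 := 649613803) (W3 := 48318383) (N0 := 3) (En := eng) (mo := mog) (C1 := cd2q1) (C2 := cd1q3) (C3 := pd2)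
    rfl (fun _ => rfl) k0_pp_123

noncomputable def f_pp_133 : ℕ → ℕ → ℕ → ℕ → Bool := onCell 1610612736 536870912 1610612736 536870912 649613803 48318383
    (rowB 3 eng mog cd2q1 cd1q3 pd3 2 false true true .dn 1 3 3 (qsf 536870912 536870912 1610612736 536870912 3) ndB2q1 ndB1q3 pcB3 Cut.none Ext.none)

def k0_pp_133 : ∃ t, chk3 f_pp_133 t 1 1 1 = true :=
  ⟨(a (b (l 1) (a (a (l 16632576) (l 1)) (l 1))) (l 1)), by decide +kernel⟩

theorem c_pp_133 : CertB 536870912 536870912 1610612736 536870912 649613803 48318383 3 eng mog cd2q1 cd1q3 pd3 false true true .dn 1 3 3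
    ndB2q1 ndB1q3 pcB3 Cut.none Ext.none :=
  certB2 (fam := false) (s1 := true) (s2 := true) (a := 1) (b := 3) (c := 3) (cn := .dn) (n1 := ndB2q1) (n2 := ndB1q3) (pc := pcB3) (cut := Cut.none) (xt := Ext.none) (P1 := 536870912) (W1 := 536870912) (P2 := 1610612736) (W2 := 536870912) (P3 := 649613803) (W3 := 48318383) (N0 := 3) (En := eng) (mo := mog) (C1 := cd2q1) (C2 := cd1q3) (C3 := pd3)
    rfl (fun _ => rfl) k0_pp_133

noncomputable def f_pp_202_aa : ℕ → ℕ → ℕ → ℕ → Bool := onCell 0 536870912 0 536870912 649613803 48318383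
    (rowB 3 eng mog cd2q2a cd1q2a pd0 0 false true true .pp 2 0 2 (qsf 0 536870912 0 536870912 0) ndB2q2a ndB1q2a pcB0 Cut.none Ext.none)

def k0_pp_202_aa : ∃ t, chk3 f_pp_202_aa t 1 1 1 = true :=
  ⟨(l 3), by decide +kernel⟩

theorem c_pp_202_aa : CertB 0 536870912 0 536870912 649613803 48318383 3 eng mog cd2q2a cd1q2a pd0 false true true .pp 2 0 2
    ndB2q2a ndB1q2a pcB0 Cut.none Ext.none :=
  certB0 (fam := false) (s1 := true) (s2 := true) (a := 2) (b := 0) (c := 2) (cn := .pp) (n1 := ndB2q2a) (n2 := ndB1q2a) (pc := pcB0) (cut := Cut.none) (xt := Ext.none) (P1 := 0) (W1 := 536870912) (P2 := 0) (W2 := 536870912) (P3 := 649613803) (W3 := 48318383) (N0 := 3) (En := eng) (mo := mog) (C1 := cd2q2a) (C2 := cd1q2a) (C3 := pd0)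
    rfl k0_pp_202_aa

noncomputable def f_pp_202_ab : ℕ → ℕ → ℕ → ℕ → Bool := onCell 0 536870912 1239849684 370763052 649613803 48318383
    (rowB 3 eng mog cd2q2a cd1q2b pd0 0 false true true .pp 2 0 2 (qsf 0 536870912 1239849684 370763052 0) ndB2q2a ndB1q2b pcB0 Cut.none Ext.none)

def k0_pp_202_ab : ∃ t, chk3 f_pp_202_ab t 1 1 1 = true :=
  ⟨(l 3), by decide +kernel⟩

theorem c_pp_202_ab : CertB 0 536870912 1239849684 370763052 649613803 48318383 3 eng mog cd2q2a cd1q2b pd0 false true true .pp 2 0 2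
    ndB2q2a ndB1q2b pcB0 Cut.none Ext.none :=
  certB0 (fam := false) (s1 := true) (s2 := true) (a := 2) (b := 0) (c := 2) (cn := .pp) (n1 := ndB2q2a) (n2 := ndB1q2b) (pc := pcB0) (cut := Cut.none) (xt := Ext.none) (P1 := 0) (W1 := 536870912) (P2 := 1239849684) (W2 := 370763052) (P3 := 649613803) (W3 := 48318383) (N0 := 3) (En := eng) (mo := mog) (C1 := cd2q2a) (C2 := cd1q2b) (C3 := pd0)
    rfl k0_pp_202_ab

noncomputable def f_pp_202_ba : ℕ → ℕ → ℕ → ℕ → Bool := onCell 1239849684 370763052 0 536870912 649613803 48318383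
    (rowB 3 eng mog cd2q2b cd1q2a pd0 0 false true true .pp 2 0 2 (qsf 1239849684 370763052 0 536870912 0) ndB2q2b ndB1q2a pcB0 Cut.none Ext.none)

def k0_pp_202_ba : ∃ t, chk3 f_pp_202_ba t 1 1 1 = true :=
  ⟨(l 3), by decide +kernel⟩

theorem c_pp_202_ba : CertB 1239849684 370763052 0 536870912 649613803 48318383 3 eng mog cd2q2b cd1q2a pd0 false true true .pp 2 0 2
    ndB2q2b ndB1q2a pcB0 Cut.none Ext.none :=
  certB0 (fam := false) (s1 := true) (s2 := true) (a := 2) (b := 0) (c := 2) (cn := .pp) (n1 := ndB2q2b) (n2 := ndB1q2a) (pc := pcB0) (cut := Cut.none) (xt := Ext.none) (P1 := 1239849684) (W1 := 370763052) (P2 := 0) (W2 := 536870912) (P3 := 649613803) (W3 := 48318383) (N0 := 3) (En := eng) (mo := mog) (C1 := cd2q2b) (C2 := cd1q2a) (C3 := pd0)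
    rfl k0_pp_202_ba

noncomputable def f_pp_202_bb : ℕ → ℕ → ℕ → ℕ → Bool := onCell 1239849684 370763052 1239849684 370763052 649613803 48318383
    (rowB 3 eng mog cd2q2b cd1q2b pd0 0 false true true .pp 2 0 2 (qsf 1239849684 370763052 1239849684 370763052 0) ndB2q2b ndB1q2b pcB0 Cut.none Ext.none)

def k0_pp_202_bb : ∃ t, chk3 f_pp_202_bb t 1 1 1 = true :=
  ⟨(l 3), by decide +kernel⟩

theorem c_pp_202_bb : CertB 1239849684 370763052 1239849684 370763052 649613803 48318383 3 eng mog cd2q2b cd1q2b pd0 false true true .pp 2 0 2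
    ndB2q2b ndB1q2b pcB0 Cut.none Ext.none :=
  certB0 (fam := false) (s1 := true) (s2 := true) (a := 2) (b := 0) (c := 2) (cn := .pp) (n1 := ndB2q2b) (n2 := ndB1q2b) (pc := pcB0) (cut := Cut.none) (xt := Ext.none) (P1 := 1239849684) (W1 := 370763052) (P2 := 1239849684) (W2 := 370763052) (P3 := 649613803) (W3 := 48318383) (N0 := 3) (En := eng) (mo := mog) (C1 := cd2q2b) (C2 := cd1q2b) (C3 := pd0)
    rfl k0_pp_202_bb

noncomputable def f_pp_203_a : ℕ → ℕ → ℕ → ℕ → Bool := onCell 0 536870912 0 536870912 649613803 48318383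
    (rowB 3 eng mog cd2q2a cd1q3 pd0 1 false true true .up 2 0 3 (qsf 0 536870912 1610612736 536870912 0) ndB2q2a ndB1q3 pcB0 Cut.none Ext.none)

def k0_pp_203_a : ∃ t, chk3 f_pp_203_a t 1 1 1 = true :=
  ⟨(l 3), by decide +kernel⟩

theorem c_pp_203_a : CertB 0 536870912 1610612736 536870912 649613803 48318383 3 eng mog cd2q2a cd1q3 pd0 false true true .up 2 0 3
    ndB2q2a ndB1q3 pcB0 Cut.none Ext.none :=
  certB1 (fam := false) (s1 := true) (s2 := true) (a := 2) (b := 0) (c := 3) (cn := .up) (n1 := ndB2q2a) (n2 := ndB1q3) (pc := pcB0) (cut := Cut.none) (xt := Ext.none) (P1 := 0) (W1 := 536870912) (P2 := 1610612736) (W2 := 536870912) (P3 := 649613803) (W3 := 48318383) (N0 := 3) (En := eng) (mo := mog) (C1 := cd2q2a) (C2 := cd1q3) (C3 := pd0)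
    rfl (fun _ => rfl) k0_pp_203_a

noncomputable def f_pp_203_b : ℕ → ℕ → ℕ → ℕ → Bool := onCell 1239849684 370763052 1610612736 536870912 649613803 48318383
    (rowB 3 eng mog cd2q2b cd1q3 pd0 0 false true true .up 2 0 3 (qsf 1239849684 370763052 1610612736 536870912 0) ndB2q2b ndB1q3 pcB0 Cut.none Ext.none)

def k0_pp_203_b : ∃ t, chk3 f_pp_203_b t 1 1 1 = true :=
  ⟨(l 3), by decide +kernel⟩

theorem c_pp_203_b : CertB 1239849684 370763052 1610612736 536870912 649613803 48318383 3 eng mog cd2q2b cd1q3 pd0 false true true .up 2 0 3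
    ndB2q2b ndB1q3 pcB0 Cut.none Ext.none :=
  certB0 (fam := false) (s1 := true) (s2 := true) (a := 2) (b := 0) (c := 3) (cn := .up) (n1 := ndB2q2b) (n2 := ndB1q3) (pc := pcB0) (cut := Cut.none) (xt := Ext.none) (P1 := 1239849684) (W1 := 370763052) (P2 := 1610612736) (W2 := 536870912) (P3 := 649613803) (W3 := 48318383) (N0 := 3) (En := eng) (mo := mog) (C1 := cd2q2b) (C2 := cd1q3) (C3 := pd0)
    rfl k0_pp_203_b

noncomputable def cut_pp_213_a : Cut := Cut.of [[⟨0, 1, 0, 67108864⟩, ⟨1, 1, 0, 67108864⟩, ⟨2, 2, 0, 16777216⟩]]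

noncomputable def f_pp_213_a : ℕ → ℕ → ℕ → ℕ → Bool := onCell 0 536870912 1610612736 536870912 649613803 48318383
    (rowB 3 eng mog cd2q2a cd1q3 pd1 0 false true true .pnn 2 1 3 (qsf 0 536870912 1610612736 536870912 1) ndB2q2a ndB1q3 pcB1 cut_pp_213_a Ext.none)

def k0_pp_213_a : ∃ t, chk3 f_pp_213_a t 1 1 1 = true :=
  ⟨(b (l 3) (a (l 3) (b (l 3) (a (l 3) (b (l 3) (a (l 3) (b (l 3) (b (l 3) (b (l 3) (l 6)))))))))), by decide +kernel⟩

theorem c_pp_213_a : CertB 0 536870912 1610612736 536870912 649613803 48318383 3 eng mog cd2q2a cd1q3 pd1 false true true .pnn 2 1 3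
    ndB2q2a ndB1q3 pcB1 cut_pp_213_a Ext.none :=
  certB0 (fam := false) (s1 := true) (s2 := true) (a := 2) (b := 1) (c := 3) (cn := .pnn) (n1 := ndB2q2a) (n2 := ndB1q3) (pc := pcB1) (cut := cut_pp_213_a) (xt := Ext.none) (P1 := 0) (W1 := 536870912) (P2 := 1610612736) (W2 := 536870912) (P3 := 649613803) (W3 := 48318383) (N0 := 3) (En := eng) (mo := mog) (C1 := cd2q2a) (C2 := cd1q3) (C3 := pd1)
    rfl k0_pp_213_a

noncomputable def cut_pp_213_b : Cut := Cut.of [[⟨0, 1, 0, 67108864⟩, ⟨1, 1, 0, 67108864⟩, ⟨2, 2, 0, 16777216⟩]]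

noncomputable def f_pp_213_b : ℕ → ℕ → ℕ → ℕ → Bool := onCell 1239849684 370763052 1610612736 536870912 649613803 48318383
    (rowB 3 eng mog cd2q2b cd1q3 pd1 0 false true true .pnn 2 1 3 (qsf 1239849684 370763052 1610612736 536870912 1) ndB2q2b ndB1q3 pcB1 cut_pp_213_b Ext.none)

def k0_pp_213_b : ∃ t, chk3 f_pp_213_b t 1 1 1 = true :=
  ⟨(l 3), by decide +kernel⟩

theorem c_pp_213_b : CertB 1239849684 370763052 1610612736 536870912 649613803 48318383 3 eng mog cd2q2b cd1q3 pd1 false true true .pnn 2 1 3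
    ndB2q2b ndB1q3 pcB1 cut_pp_213_b Ext.none :=
  certB0 (fam := false) (s1 := true) (s2 := true) (a := 2) (b := 1) (c := 3) (cn := .pnn) (n1 := ndB2q2b) (n2 := ndB1q3) (pc := pcB1) (cut := cut_pp_213_b) (xt := Ext.none) (P1 := 1239849684) (W1 := 370763052) (P2 := 1610612736) (W2 := 536870912) (P3 := 649613803) (W3 := 48318383) (N0 := 3) (En := eng) (mo := mog) (C1 := cd2q2b) (C2 := cd1q3) (C3 := pd1)
    rfl k0_pp_213_b

noncomputable def f_pp_303 : ℕ → ℕ → ℕ → ℕ → Bool := onCell 1610612736 536870912 1610612736 536870912 649613803 48318383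
    (rowB 3 eng mog cd2q3 cd1q3 pd0 0 false true true .npn 3 0 3 (qsf 1610612736 536870912 1610612736 536870912 0) ndB2q3 ndB1q3 pcB0 Cut.none Ext.none)

def k0_pp_303 : ∃ t, chk3 f_pp_303 t 1 1 1 = true :=
  ⟨(l 3), by decide +kernel⟩

theorem c_pp_303 : CertB 1610612736 536870912 1610612736 536870912 649613803 48318383 3 eng mog cd2q3 cd1q3 pd0 false true true .npn 3 0 3
    ndB2q3 ndB1q3 pcB0 Cut.none Ext.none :=
  certB0 (fam := false) (s1 := true) (s2 := true) (a := 3) (b := 0) (c := 3) (cn := .npn) (n1 := ndB2q3) (n2 := ndB1q3) (pc := pcB0) (cut := Cut.none) (xt := Ext.none) (P1 := 1610612736) (W1 := 536870912) (P2 := 1610612736) (W2 := 536870912) (P3 := 649613803) (W3 := 48318383) (N0 := 3) (En := eng) (mo := mog) (C1 := cd2q3) (C2 := cd1q3) (C3 := pd0)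
    rfl k0_pp_303

noncomputable def f_pp_313 : ℕ → ℕ → ℕ → ℕ → Bool := onCell 1610612736 536870912 1610612736 536870912 649613803 48318383
    (rowB 3 eng mog cd2q3 cd1q3 pd1 0 false true true .dn 3 1 3 (qsf 1610612736 536870912 1610612736 536870912 1) ndB2q3 ndB1q3 pcB1 Cut.none Ext.none)

def k0_pp_313 : ∃ t, chk3 f_pp_313 t 1 1 1 = true :=
  ⟨(l 3), by decide +kernel⟩

theorem c_pp_313 : CertB 1610612736 536870912 1610612736 536870912 649613803 48318383 3 eng mog cd2q3 cd1q3 pd1 false true true .dn 3 1 3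
    ndB2q3 ndB1q3 pcB1 Cut.none Ext.none :=
  certB0 (fam := false) (s1 := true) (s2 := true) (a := 3) (b := 1) (c := 3) (cn := .dn) (n1 := ndB2q3) (n2 := ndB1q3) (pc := pcB1) (cut := Cut.none) (xt := Ext.none) (P1 := 1610612736) (W1 := 536870912) (P2 := 1610612736) (W2 := 536870912) (P3 := 649613803) (W3 := 48318383) (N0 := 3) (En := eng) (mo := mog) (C1 := cd2q3) (C2 := cd1q3) (C3 := pd1)
    rfl k0_pp_313

noncomputable def f_pm_001 : ℕ → ℕ → ℕ → ℕ → Bool := onCell 0 536870912 0 536870912 649613803 48318383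
    (rowB 3 eng mog cd2q0 cd1q1 pd0 1 false true false .up 0 0 1 (qsf 0 536870912 536870912 536870912 0) ndB2q0 ndB1q1 pcB0 Cut.none Ext.none)

def k0_pm_001 : ∃ t, chk3 f_pm_001 t 1 1 1 = true :=
  ⟨(a (l 4) (b (l 4) (b (l 4) (a (l 4) (a (l 4) (b (a (l 4) (b (l 4) (l 16333296))) (b (a (l 4) (l 16301936)) (a (l 16341680) (b (l 16281624) (l 16267328)))))))))), by decide +kernel⟩

theorem c_pm_001 : CertB 0 536870912 536870912 536870912 649613803 48318383 3 eng mog cd2q0 cd1q1 pd0 false true false .up 0 0 1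
    ndB2q0 ndB1q1 pcB0 Cut.none Ext.none :=
  certB1 (fam := false) (s1 := true) (s2 := false) (a := 0) (b := 0) (c := 1) (cn := .up) (n1 := ndB2q0) (n2 := ndB1q1) (pc := pcB0) (cut := Cut.none) (xt := Ext.none) (P1 := 0) (W1 := 536870912) (P2 := 536870912) (W2 := 536870912) (P3 := 649613803) (W3 := 48318383) (N0 := 3) (En := eng) (mo := mog) (C1 := cd2q0) (C2 := cd1q1) (C3 := pd0)
    rfl (fun _ => rfl) k0_pm_001

noncomputable def f_pm_011 : ℕ → ℕ → ℕ → ℕ → Bool := onCell 0 536870912 536870912 536870912 649613803 48318383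
    (rowB 3 eng mog cd2q0 cd1q1 pd1 0 false true false .pnn 0 1 1 (qsf 0 536870912 536870912 536870912 1) ndB2q0 ndB1q1 pcB1 Cut.none Ext.none)

def k0_pm_011 : ∃ t, chk3 f_pm_011 t 1 1 1 = true :=
  ⟨(b (l 4) (a (l 4) (b (l 4) (a (b (l 4) (a (l 4) (b (l 4) (a (b (l 4) (l 16418272)) (l 16525064))))) (a (b (l 4) (b (a (l 16402448) (l 16366272)) (a (l 16389904) (l 16337296)))) (b (a (l 4) (l 1)) (b (a (l 16329240) (l 16291336)) (l 16263856)))))))), by decide +kernel⟩

theorem c_pm_011 : CertB 0 536870912 536870912 536870912 649613803 48318383 3 eng mog cd2q0 cd1q1 pd1 false true false .pnn 0 1 1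
    ndB2q0 ndB1q1 pcB1 Cut.none Ext.none :=
  certB0 (fam := false) (s1 := true) (s2 := false) (a := 0) (b := 1) (c := 1) (cn := .pnn) (n1 := ndB2q0) (n2 := ndB1q1) (pc := pcB1) (cut := Cut.none) (xt := Ext.none) (P1 := 0) (W1 := 536870912) (P2 := 536870912) (W2 := 536870912) (P3 := 649613803) (W3 := 48318383) (N0 := 3) (En := eng) (mo := mog) (C1 := cd2q0) (C2 := cd1q1) (C3 := pd1)
    rfl k0_pm_011

noncomputable def cut_pm_012_a : Cut := Cut.of [[⟨0, 0, 0, 67108864⟩, ⟨1, 1, 0, 67108864⟩, ⟨2, 1, 0, 67108864⟩]]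

noncomputable def f_pm_012_a : ℕ → ℕ → ℕ → ℕ → Bool := onCell 536870912 536870912 0 536870912 649613803 48318383
    (rowB 3 eng mog cd2q0 cd1q2a pd1 2 false true false .pnp 0 1 2 (qsf 0 536870912 0 536870912 1) ndB2q0 ndB1q2a pcB1 cut_pm_012_a Ext.none)

def k0_pm_012_a : ∃ t, chk3 f_pm_012_a t 2 1 1 = true :=
  ⟨(b (a (b (l 2) (b (l 2) (l 16586176))) (b (a (l 16759968) (l 16749200)) (a (l 16627632) (b (l 16532920) (l 16500704))))) (b (a (a (l 2) (b (l 16496392) (l 16436344))) (b (a (l 16481160) (l 16466472)) (a (l 16437416) (l 16439304)))) (a (b (a (l 16372032) (l 16392448)) (a (l 16306976) (b (l 16374144) (l 16370856)))) (b (a (l 16412688) (l 16434120)) (a (b (l 16410656) (l 16503304)) (b (b (l 16444456) (l 16452800)) (b (l 16463120) (l 16496344)))))))), by decide +kernel⟩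

def k1_pm_012_a : ∃ t, chk3 f_pm_012_a t 3 1 1 = true :=
  ⟨(b (a (b (a (b (l 16564088) (l 16529864)) (a (l 16520920) (l 16505112))) (a (b (l 16501208) (l 16475120)) (b (l 16471128) (l 16473776)))) (b (a (b (l 16498776) (l 16470040)) (a (l 16530784) (b (l 16471096) (l 16446784)))) (a (b (l 16534720) (a (l 16444568) (l 16440904))) (a (b (l 16439192) (l 16438992)) (b (l 16434104) (b (l 16435176) (l 16443720))))))) (a (b (a (b (l 16452584) (l 16443008)) (b (a (l 16443584) (l 16444136)) (a (l 16447920) (l 16457784)))) (a (b (b (l 16450792) (l 16466120)) (b (b (l 16482600) (l 16538640)) (b (l 16534056) (l 16531704)))) (b (b (a (l 16467328) (l 16484392)) (a (l 16490656) (l 16512712))) (b (a (b (l 16513424) (l 16552608)) (l 16570152)) (a (b (l 16573600) (l 16576064)) (b (l 16584376) (l 16610720))))))) (b (a (b (a (l 16447208) (l 16451912)) (a (l 16470528) (l 16527552))) (b (a (l 16521872) (b (l 16458328) (l 16499944))) (a (b (l 16489560) (l 16537960)) (b (l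 16504304) (l 16576328))))) (b (a (a (l 16542136) (b (l 16527504) (l 16565456))) (a (b (l 16613344) (a (l 16584624) (l 16596208))) (b (a (l 16565456) (l 16575352)) (a (l 16628888) (a (l 16616776) (l 16622736)))))) (a (b (a (l 16580776) (l 16652976)) (b (a (l 16660600) (l 16701992)) (a (l 16733368) (a (l 16692128) (l 16728832))))) (b (a (a (b (l 16618816) (l 16644360)) (b (l 16631904) (l 16658424))) (b (a (l 16645120) (l 6)) (l 6))) (a (b (a (l 16671712) (b (l 16679688) (l 6))) (a (a (l 16719656) (l 16749336)) (l 6))) (l 6)))))))), by decide +kernel⟩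

theorem s2_pm_012_a : ∃ t, chk3 f_pm_012_a t 1 1 1 = true := ex3_a k0_pm_012_a k1_pm_012_a

theorem c_pm_012_a : CertB 0 536870912 0 536870912 649613803 48318383 3 eng mog cd2q0 cd1q2a pd1 false true false .pnp 0 1 2
    ndB2q0 ndB1q2a pcB1 cut_pm_012_a Ext.none :=
  certB2 (fam := false) (s1 := true) (s2 := false) (a := 0) (b := 1) (c := 2) (cn := .pnp) (n1 := ndB2q0) (n2 := ndB1q2a) (pc := pcB1) (cut := cut_pm_012_a) (xt := Ext.none) (P1 := 0) (W1 := 536870912) (P2 := 0) (W2 := 536870912) (P3 := 649613803) (W3 := 48318383) (N0 := 3) (En := eng) (mo := mog) (C1 := cd2q0) (C2 := cd1q2a) (C3 := pd1)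
    rfl (fun _ => rfl) s2_pm_012_a

noncomputable def cut_pm_012_b : Cut := Cut.of [[⟨0, 0, 0, 67108864⟩, ⟨1, 1, 0, 67108864⟩, ⟨2, 1, 0, 67108864⟩]]

noncomputable def f_pm_012_b : ℕ → ℕ → ℕ → ℕ → Bool := onCell 536870912 536870912 1239849684 370763052 649613803 48318383
    (rowB 3 eng mog cd2q0 cd1q2b pd1 2 false true false .pnp 0 1 2 (qsf 0 536870912 1239849684 370763052 1) ndB2q0 ndB1q2b pcB1 cut_pm_012_b Ext.none)

def k0_pm_012_b : ∃ t, chk3 f_pm_012_b t 1 1 1 = true :=
  ⟨(a (a (l 2) (b (a (b (l 16641328) (l 2)) (b (l 16598336) (l 16595200))) (l 2))) (a (b (a (b (l 16574192) (l 16533272)) (b (a (l 16517376) (l 16494920)) (l 16465208))) (a (l 2) (b (l 16480128) (l 2)))) (b (a (b (b (l 16506024) (l 16435184)) (l 16392240)) (b (a (l 16423096) (b (l 16441784) (l 16365576))) (a (l 16329504) (l 16287176)))) (a (b (l 16389512) (l 16445288)) (b (l 16279856) (l 16322600)))))), by decide +kernel⟩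

theorem c_pm_012_b : CertB 0 536870912 1239849684 370763052 649613803 48318383 3 eng mog cd2q0 cd1q2b pd1 false true false .pnp 0 1 2
    ndB2q0 ndB1q2b pcB1 cut_pm_012_b Ext.none :=
  certB2 (fam := false) (s1 := true) (s2 := false) (a := 0) (b := 1) (c := 2) (cn := .pnp) (n1 := ndB2q0) (n2 := ndB1q2b) (pc := pcB1) (cut := cut_pm_012_b) (xt := Ext.none) (P1 := 0) (W1 := 536870912) (P2 := 1239849684) (W2 := 370763052) (P3 := 649613803) (W3 := 48318383) (N0 := 3) (En := eng) (mo := mog) (C1 := cd2q0) (C2 := cd1q2b) (C3 := pd1)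
    rfl (fun _ => rfl) k0_pm_012_b

noncomputable def cut_pm_022_a : Cut := Cut.of [[⟨0, 0, 0, 67108864⟩, ⟨1, 1, 0, 67108864⟩, ⟨2, 1, 0, 67108864⟩]]

noncomputable def f_pm_022_a : ℕ → ℕ → ℕ → ℕ → Bool := onCell 0 536870912 0 536870912 649613803 48318383
    (rowB 3 eng mog cd2q0 cd1q2a pd2 0 false true false .pp 0 2 2 (qsf 0 536870912 0 536870912 2) ndB2q0 ndB1q2a pcB2 cut_pm_022_a Ext.none)

def k0_pm_022_a : ∃ t, chk3 f_pm_022_a t 4 1 1 = true :=
  ⟨(b (b (a (b (a (c (l 16487832) (l 16447488)) (l 16450864)) (a (c (b (l 16450416) (l 16456336)) (l 16451504)) (b (l 16450256) (l 16452568)))) (b (a (l 16457368) (l 16466056)) (a (l 16450368) (l 16449936)))) (a (b (b (a (a (l 16465000) (l 16461736)) (l 16456504)) (a (b (l 16491680) (l 16476864)) (b (l 16460944) (l 16465512)))) (b (a (a (b (l 16486608) (l 16495032)) (l 16484208)) (l 16494312)) (a (a (c (l 16531040) (b (l 16504544) (l 16515024))) (l 16522240)) (a (l 16492184) (l 16482552))))) (b (a (b (l 16449096)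 (l 16451184)) (b (l 16441648) (l 16438456))) (a (b (l 16457400) (l 16467200)) (b (l 16440312) (l 16445208)))))) (b (a (a (b (a (b (b (a (l 16528488) (l 16523728)) (l 16538376)) (b (a (l 16554416) (l 16548656)) (a (l 16564344) (l 16562256)))) (b (c (l 16543552) (l 16542400)) (b (l 16539592) (l 16552376)))) (a (a (b (b (l 16574424) (l 16574464)) (b (l 16606744) (l 16609672))) (b (l 16579416) (l 16610328))) (b (l 16572440) (b (l 16593848) (l 16607520))))) (b (b (a (l 16510712) (l 16498904)) (a (l 16574592) (l 16518504))) (b (a (l 16556680) (l 16540008)) (a (l 16582360) (l 16583880))))) (b (a (b (l 16480072) (l 16516896)) (b (l 16453008) (l 16484352))) (b (a (a (l 16522464) (l 16504080)) (l 16537752)) (a (a (l 16542424) (l 16520928)) (l 1))))) (a (a (b (b (a (b (a (a (l 16624104) (l 16623840)) (l 16623288)) (b (a (l 16635176) (l 16634400)) (l 6))) (b (l 16621552) (l 16636448))) (l 6)) (l 6)) (a (b (b (l 16607816) (l 6)) (l 6)) (b (b (b (l 16579432) (l 16590944))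 (b (l 16601768) (l 16633496))) (l 1)))) (b (a (b (a (b (l 16556536) (l 16566320)) (l 1)) (l 1)) (l 1)) (l 1))))), by decide +kernel⟩

def k1_pm_022_a : ∃ t, chk3 f_pm_022_a t 5 1 1 = true :=
  ⟨(b (a (a (b (b (l 16474368) (l 16447544)) (a (b (l 16431184) (l 16488496)) (b (l 16423032) (l 1)))) (b (b (l 1) (l 1)) (l 1))) (l 1)) (b (l 1) (l 1))), by decide +kernel⟩

def k2_pm_022_a : ∃ t, chk3 f_pm_022_a t 3 1 1 = true :=
  ⟨(l 1), by decide +kernel⟩

theorem s3_pm_022_a : ∃ t, chk3 f_pm_022_a t 2 1 1 = true := ex3_a k0_pm_022_a k1_pm_022_a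

theorem s4_pm_022_a : ∃ t, chk3 f_pm_022_a t 1 1 1 = true := ex3_a s3_pm_022_a k2_pm_022_a

theorem c_pm_022_a : CertB 0 536870912 0 536870912 649613803 48318383 3 eng mog cd2q0 cd1q2a pd2 false true false .pp 0 2 2
    ndB2q0 ndB1q2a pcB2 cut_pm_022_a Ext.none :=
  certB0 (fam := false) (s1 := true) (s2 := false) (a := 0) (b := 2) (c := 2) (cn := .pp) (n1 := ndB2q0) (n2 := ndB1q2a) (pc := pcB2) (cut := cut_pm_022_a) (xt := Ext.none) (P1 := 0) (W1 := 536870912) (P2 := 0) (W2 := 536870912) (P3 := 649613803) (W3 := 48318383) (N0 := 3) (En := eng) (mo := mog) (C1 := cd2q0) (C2 := cd1q2a) (C3 := pd2)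
    rfl s4_pm_022_a

noncomputable def cut_pm_022_b : Cut := Cut.of [[⟨0, 0, 0, 67108864⟩, ⟨1, 1, 0, 67108864⟩, ⟨2, 1, 0, 67108864⟩]]

noncomputable def f_pm_022_b : ℕ → ℕ → ℕ → ℕ → Bool := onCell 0 536870912 1073741824 536870912 649613803 48318383
    (rowB 3 eng mog cd2q0 cd1q2b pd2 1 false true false .pp 0 2 2 (qsf 0 536870912 1239849684 370763052 2) ndB2q0 ndB1q2b pcB2 cut_pm_022_b Ext.none)

def k0_pm_022_b : ∃ t, chk3 f_pm_022_b t 1 1 1 = true :=
  ⟨(b (a (b (a (a (b (l 1) (b (l 347388565463) (a (l 243235696631) (l 16511984)))) (b (b (l 384432679415) (l 254509975431)) (a (l 16619536) (l 16440776)))) (b (a (a (l 16633248) (l 16380912)) (l 16428496)) (a (b (l 16327696) (l 16245856)) (l 16195856)))) (a (b (b (a (a (b (l 16523024) (l 16485936)) (l 16396664)) (l 16432512)) (b (a (c (a (l 16409480) (l 16327752)) (l 16418168)) (l 16260944)) (a (a (l 16360328) (l 16300304)) (l 16219152)))) (a (a (l 16480416) (l 16303488)) (b (l 16192064) (l 16147240))))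 (b (b (a (l 16191288) (l 16131368)) (a (l 16168160) (l 16100352))) (a (l 16111864) (l 16090560))))) (b (a (b (l 16401272) (l 16143560)) (b (l 16228144) (l 16191640))) (b (a (b (l 16104688) (l 16090896)) (l 16175472)) (a (l 16114888) (l 2))))) (b (a (a (b (a (a (l 16178680) (l 16140824)) (l 16075384)) (a (a (b (l 16111648) (l 16079744)) (l 16110656)) (l 16022312))) (b (l 16045816) (l 16212120))) (a (b (l 16132248) (l 2)) (l 2))) (a (a (b (a (b (l 16050072) (l 16038712)) (l 16014784)) (a (l 16031680) (l 16026192))) (b (l 15968024) (l 2))) (l 2)))), by decide +kernel⟩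

theorem c_pm_022_b : CertB 0 536870912 1239849684 370763052 649613803 48318383 3 eng mog cd2q0 cd1q2b pd2 false true false .pp 0 2 2
    ndB2q0 ndB1q2b pcB2 cut_pm_022_b Ext.none :=
  certB1 (fam := false) (s1 := true) (s2 := false) (a := 0) (b := 2) (c := 2) (cn := .pp) (n1 := ndB2q0) (n2 := ndB1q2b) (pc := pcB2) (cut := cut_pm_022_b) (xt := Ext.none) (P1 := 0) (W1 := 536870912) (P2 := 1239849684) (W2 := 370763052) (P3 := 649613803) (W3 := 48318383) (N0 := 3) (En := eng) (mo := mog) (C1 := cd2q0) (C2 := cd1q2b) (C3 := pd2)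
    rfl (fun _ => rfl) k0_pm_022_b

noncomputable def f_pm_023 : ℕ → ℕ → ℕ → ℕ → Bool := onCell 0 536870912 1073741824 536870912 649613803 48318383
    (rowB 3 eng mog cd2q0 cd1q3 pd2 1 false true false .up 0 2 3 (qsf 0 536870912 1610612736 536870912 2) ndB2q0 ndB1q3 pcB2 Cut.none Ext.none)

def k0_pm_023 : ∃ t, chk3 f_pm_023 t 1 1 1 = true :=
  ⟨(b (a (b (l 1) (a (l 1) (b (l 1) (l 402148553383)))) (b (a (b (l 1) (l 16141376)) (l 202433232263)) (b (a (l 237329632247) (l 16160880)) (a (l 16106576) (l 16213520))))) (b (a (a (b (l 1) (l 397316772647)) (b (l 16038592) (l 16152456))) (b (a (l 16118048) (l 16290952)) (a (l 16107024) (l 16400472)))) (a (a (b (l 475699983607) (l 419328779431)) (b (l 15993416) (l 16065952))) (a (b (l 16249216) (l 16389144)) (l 16543008))))), by decide +kernel⟩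

theorem c_pm_023 : CertB 0 536870912 1610612736 536870912 649613803 48318383 3 eng mog cd2q0 cd1q3 pd2 false true false .up 0 2 3
    ndB2q0 ndB1q3 pcB2 Cut.none Ext.none :=
  certB1 (fam := false) (s1 := true) (s2 := false) (a := 0) (b := 2) (c := 3) (cn := .up) (n1 := ndB2q0) (n2 := ndB1q3) (pc := pcB2) (cut := Cut.none) (xt := Ext.none) (P1 := 0) (W1 := 536870912) (P2 := 1610612736) (W2 := 536870912) (P3 := 649613803) (W3 := 48318383) (N0 := 3) (En := eng) (mo := mog) (C1 := cd2q0) (C2 := cd1q3) (C3 := pd2)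
    rfl (fun _ => rfl) k0_pm_023

noncomputable def f_pm_033 : ℕ → ℕ → ℕ → ℕ → Bool := onCell 0 536870912 1610612736 536870912 649613803 48318383
    (rowB 3 eng mog cd2q0 cd1q3 pd3 1 false true false .pnn 0 3 3 (qsf 0 536870912 1610612736 536870912 3) ndB2q0 ndB1q3 pcB3 Cut.none Ext.none)

def k0_pm_033 : ∃ t, chk3 f_pm_033 t 1 1 1 = true :=
  ⟨(a (b (b (b (a (l 16116032) (l 16215224)) (a (b (l 16028680) (l 16101072)) (l 16318152))) (l 4)) (b (l 4) (a (l 4) (a (b (l 4) (l 2)) (l 2))))) (b (b (b (l 16555680) (l 16682504)) (a (l 4) (a (b (l 4) (l 2)) (l 2)))) (a (b (a (b (l 4) (l 2)) (l 2)) (l 2)) (l 2)))), by decide +kernel⟩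

theorem c_pm_033 : CertB 0 536870912 1610612736 536870912 649613803 48318383 3 eng mog cd2q0 cd1q3 pd3 false true false .pnn 0 3 3
    ndB2q0 ndB1q3 pcB3 Cut.none Ext.none :=
  certB1 (fam := false) (s1 := true) (s2 := false) (a := 0) (b := 3) (c := 3) (cn := .pnn) (n1 := ndB2q0) (n2 := ndB1q3) (pc := pcB3) (cut := Cut.none) (xt := Ext.none) (P1 := 0) (W1 := 536870912) (P2 := 1610612736) (W2 := 536870912) (P3 := 649613803) (W3 := 48318383) (N0 := 3) (En := eng) (mo := mog) (C1 := cd2q0) (C2 := cd1q3) (C3 := pd3)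
    rfl (fun _ => rfl) k0_pm_033

noncomputable def f_pm_101 : ℕ → ℕ → ℕ → ℕ → Bool := onCell 0 536870912 536870912 536870912 649613803 48318383
    (rowB 3 eng mog cd2q1 cd1q1 pd0 2 false true false .npn 1 0 1 (qsf 536870912 536870912 536870912 536870912 0) ndB2q1 ndB1q1 pcB0 Cut.none Ext.none)

def k0_pm_101 : ∃ t, chk3 f_pm_101 t 1 1 1 = true :=
  ⟨(a (b (l 4) (a (b (a (b (b (a (l 16486464) (l 4)) (a (l 16461280) (l 16467384))) (b (a (l 16454080) (l 16449888)) (a (l 16458480) (l 16448312)))) (b (b (l 4) (a (l 16474288) (l 16480952))) (a (b (l 16444424) (l 16436056)) (b (l 16438712) (l 16421952))))) (b (a (b (b (l 16462128) (a (l 16603400) (l 16465120))) (a (l 16490440) (b (l 16466816) (l 16475720)))) (b (a (l 16441704) (l 16422048)) (a (b (l 16576664) (l 16455816)) (b (c (l 16452288) (l 16435816)) (l 16432280))))) (b (a (a (l 16518232) (l 16489208)) (a (l 16464416) (a (l 16444712) (l 16431096)))) (a (b (a (l 16531624) (l 16504640)) (a (l 16535000)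 (l 16512400))) (a (b (l 16475064) (l 16484376)) (a (l 16457848) (l 16438880))))))) (b (b (l 4) (b (a (a (l 16433888) (l 16430336)) (l 4)) (a (a (l 16403672) (l 16384176)) (a (l 16367248) (l 16352480))))) (b (a (b (a (l 16394784) (l 16364304)) (b (c (l 16402088) (l 16354872)) (a (l 16399216) (l 16360656)))) (a (b (l 16333944) (l 16317672)) (l 16290144))) (b (a (a (l 16402168) (l 16356136)) (a (a (l 16319064) (l 16294176)) (l 16279104))) (a (a (l 16406664) (l 16360112)) (a (l 16308648) (l 16253912)))))))) (b (l 4) (a (b (a (b (l 4) (a (l 16441512) (l 4))) (l 4)) (a (b (a (l 16254848) (l 16312232)) (b (a (l 16211136) (l 16163408)) (l 16167936))) (b (b (a (l 16301144) (l 16328824)) (a (l 16222392) (l 16255864))) (b (l 16140856) (a (l 16113800) (l 16136248)))))) (b (l 4) (b (b (l 4) (a (a (l 16310720) (l 16324016)) (a (l 16357376) (l 1)))) (a (b (a (l 16217448) (l 16258960)) (a (l 16163944) (l 16206256))) (b (a (l 16295336) (l 16327896)) (a (l 16242168) (l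 16272568))))))))), by decide +kernel⟩

theorem c_pm_101 : CertB 536870912 536870912 536870912 536870912 649613803 48318383 3 eng mog cd2q1 cd1q1 pd0 false true false .npn 1 0 1
    ndB2q1 ndB1q1 pcB0 Cut.none Ext.none :=
  certB2 (fam := false) (s1 := true) (s2 := false) (a := 1) (b := 0) (c := 1) (cn := .npn) (n1 := ndB2q1) (n2 := ndB1q1) (pc := pcB0) (cut := Cut.none) (xt := Ext.none) (P1 := 536870912) (W1 := 536870912) (P2 := 536870912) (W2 := 536870912) (P3 := 649613803) (W3 := 48318383) (N0 := 3) (En := eng) (mo := mog) (C1 := cd2q1) (C2 := cd1q1) (C3 := pd0)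
    rfl (fun _ => rfl) k0_pm_101

noncomputable def f_pm_102_a : ℕ → ℕ → ℕ → ℕ → Bool := onCell 0 536870912 0 536870912 649613803 48318383
    (rowB 3 eng mog cd2q1 cd1q2a pd0 2 false true false .npp 1 0 2 (qsf 536870912 536870912 0 536870912 0) ndB2q1 ndB1q2a pcB0 Cut.none Ext.none)

def k0_pm_102_a : ∃ t, chk3 f_pm_102_a t 4 2 1 = true :=
  ⟨(a (l 2) (b (l 2) (b (l 2) (a (l 2) (a (l 2) (b (l 2) (a (l 2) (a (b (l 2) (l 1160278443223)) (b (l 1009954509463) (l 16622136)))))))))), by decide +kernel⟩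

def k1_pm_102_a : ∃ t, chk3 f_pm_102_a t 5 4 1 = true :=
  ⟨(a (l 3) (b (l 3) (a (l 3) (b (l 3) (a (l 134922119463) (b (l 115057835943) (a (l 16615944) (l 16619328)))))))), by decide +kernel⟩

def k2_pm_102_a : ∃ t, chk3 f_pm_102_a t 10 5 1 = true :=
  ⟨(b (a (l 3) (b (l 3) (a (b (l 3) (c (a (l 137069581831) (l 117742247815)) (a (b (l 3) (l 140290793479)) (b (l 140827678439) (l 118815975799))))) (b (a (c (l 135995880871) (l 140827682023)) (a (l 122037240375) (l 121500373959))) (a (b (a (l 16600160) (l 16603328)) (a (l 16605080) (l 16608608))) (b (l 16608520) (l 16613160))))))) (a (b (a (b (l 3) (a (b (l 3) (l 120426507943)) (l 134385176807))) (b (c (a (l 142438197207) (l 124184672135)) (a (l 133848293319) (b (l 139217034887) (l 125258398679)))) (b (a (a (l 16593656) (l 16596672)) (a (l 16600280) (l 16603752))) (a (a (l 16598784) (l 16602256)) (a (l 16606016) (l 16609952)))))) (b (a (b (a (a (l 16591376) (l 16594088)) (a (l 16597120) (l 16600672))) (a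 (a (l 16595448) (l 16598896)) (l 16605448))) (a (a (l 16649520) (l 16612184)) (l 16618152))) (a (b (l 16608416) (l 16616264)) (a (l 16624264) (l 16631488))))) (b (a (b (a (b (a (l 16596632) (l 16599848)) (a (l 16601752) (l 16605240))) (b (a (l 16603456) (l 16606976)) (a (l 16608592) (l 16612176)))) (a (b (a (l 16607288) (l 16611056)) (l 16615432)) (l 16619280))) (b (a (b (a (l 16610176) (l 16613528)) (l 16617088)) (l 16620712)) (l 16628952))) (b (a (l 16628536) (l 16635536)) (l 16639216))))), by decide +kernel⟩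

def k3_pm_102_a : ∃ t, chk3 f_pm_102_a t 11 5 1 = true :=
  ⟨(b (a (b (a (b (l 3) (a (l 144585691623) (l 79624330935))) (b (l 133311477111) (a (l 16611088) (b (l 16614088) (l 16617696))))) (a (b (a (b (l 16605280) (l 16609968)) (b (l 16611312) (l 16615656))) (a (b (l 16614464) (l 16619200)) (l 16622360))) (a (b (l 16660216) (l 16625640)) (l 16678576)))) (b (a (a (b (l 16614344) (l 16641136)) (b (l 16638664) (l 16623320))) (b (a (l 16621120) (l 16624704)) (l 16628072))) (b (l 16630528) (l 16637200)))) (b (a (a (b (l 16627608) (l 16634344)) (b (l 16633504) (l 16640544))) (b (l 16644312) (l 16651752))) (a (l 16648064) (a (b (l 16655784) (l 16663760)) (l 16667256))))), by decide +kernel⟩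

def k4_pm_102_a : ∃ t, chk3 f_pm_102_a t 2 3 1 = true :=
  ⟨(a (a (b (l 2) (b (a (l 2) (b (a (l 2) (l 16626192)) (l 16627368))) (b (a (b (l 16614928) (l 16617696)) (b (l 16630200) (l 16633040))) (a (a (l 16613408) (l 16619408)) (b (l 16605968) (l 16593912)))))) (b (b (a (l 2) (b (a (b (l 2) (b (l 2) (l 16658000))) (b (a (b (l 16603016) (l 16611688)) (b (l 16611088) (l 16618904))) (b (l 16623992) (l 16633312)))) (b (a (l 16740896) (l 16639696)) (a (l 16638256) (l 16642648))))) (a (b (a (l 2) (b (l 16635240) (l 16636936))) (l 16613824)) (b (b (l 16643344) (l 16647032)) (l 16650824)))) (b (a (b (a (l 16634984) (l 16644136)) (l 16645272)) (b (l 16655872) (l 16645560))) (b (a (l 16726432) (b (l 16599584) (l 16584896))) (a (l 16582792) (l 16584904)))))) (b (b (a (a (b (b (a (a (l 16623288) (l 16631944)) (l 16638320)) (a (l 16639216) (l 16643448))) (b (l 16646984) (l 16651840))) (b (b (l 16645464) (l 16653296)) (l 16663880))) (a (b (l 16664752) (l 16678880))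 (b (a (l 16675376) (l 16681064)) (l 16687984)))) (a (b (a (l 16660648) (b (l 16673760) (l 16677016))) (a (l 16666408) (l 16672864))) (b (a (l 16685576) (b (l 16686128) (l 16671800))) (a (l 16661952) (l 16631736))))) (b (a (a (b (l 16660320) (l 16609488)) (b (l 16641216) (l 16577864))) (a (b (l 16595816) (l 16547280)) (b (l 16554968) (l 16511632)))) (a (b (a (b (l 16577832) (l 16564120)) (b (l 16553232) (l 16538200))) (a (l 16562024) (a (l 16519992) (l 16501560)))) (b (a (a (l 16522152) (l 16503112)) (a (l 16482160) (l 16459720))) (a (l 16491160) (l 16422936))))))), by decide +kernel⟩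

def k5_pm_102_a : ∃ t, chk3 f_pm_102_a t 6 1 1 = true :=
  ⟨(b (b (a (b (a (l 3) (b (l 3) (a (l 166060571831) (a (l 165523767975) (l 152101999895))))) (a (b (a (b (l 3) (l 142975248055)) (l 131164037031)) (a (a (b (l 16565768) (l 16623144)) (b (l 16622112) (l 16626992))) (b (a (l 16626080) (l 16630256)) (l 16633072)))) (a (b (b (l 16648288) (a (l 16629712) (l 16634032))) (b (l 16636752) (l 16641528))) (b (a (l 16636160) (l 16640576)) (l 16647688))))) (b (a (b (a (b (l 3) (l 166060647031)) (a (l 196662244567) (l 161765687607))) (a (b (l 132774658423) (l 16640384)) (b (l 16644400) (l 16648552)))) (b (a (b (l 177871815495) (l 16648312)) (b (l 16652352) (l 16656120))) (a (b (l 16652264) (l 16656128)) (l 16661688)))) (b (a (a (l 16647032) (l 16654704)) (l 16665192)) (a (l 16659384) (l 16672360))))) (a (b (a (b (a (l 16632968) (l 16641008)) (a (l 16645616) (l 16653568))) (b (a (l 16649440) (l 16657728)) (l 16664944))) (b (a (l 16663368) (b (l 16673488) (l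 16678720))) (a (b (l 16673752) (l 16679720)) (l 16684560)))) (b (a (b (l 16668008) (l 16676408)) (a (l 16679032) (l 16681560))) (a (b (l 16683184) (l 16683160)) (b (l 16684136) (l 16676008)))))) (a (b (b (a (b (l 16685840) (l 16683720)) (b (l 16683504) (l 16667120))) (a (b (l 16657224) (l 16588336)) (l 16756560))) (b (a (l 16491672) (l 16445224)) (b (a (l 16423600) (l 16370616)) (a (l 16370728) (l 16313752))))) (b (a (b (l 16660504) (b (l 16589936) (l 16511208))) (b (l 16640480) (b (l 16560728) (l 16482328)))) (a (b (a (l 16407032) (l 16387056)) (a (l 16302400) (b (l 16307496) (l 16243840)))) (b (a (l 16373208) (l 16348488)) (a (l 16264992) (l 16234472))))))), by decide +kernel⟩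

def k6_pm_102_a : ∃ t, chk3 f_pm_102_a t 7 1 1 = true :=
  ⟨(b (b (a (b (a (b (a (b (l 16659984) (l 16663504)) (b (l 16667264) (l 16670384))) (l 16671768)) (b (l 16678656) (l 16682576))) (b (a (l 16677096) (l 16685264)) (l 16683736))) (b (b (l 16692480) (l 16693072)) (l 16688536))) (b (a (a (l 16683232) (l 16682688)) (l 16781800)) (a (a (l 16674048) (l 16663920)) (l 16647112)))) (a (b (b (a (l 16622096) (b (l 16624016) (l 16577672))) (a (l 16499224) (l 16480768))) (b (a (l 16339944) (l 16346168)) (a (a (l 16197216) (l 16191112)) (b (l 16256936) (l 16212544))))) (b (b (l 16620144) (l 16505888)) (b (l 16366072) (b (l 16312704) (l 16284184)))))), by decide +kernel⟩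

theorem s7_pm_102_a : ∃ t, chk3 f_pm_102_a t 3 1 1 = true := ex3_a k5_pm_102_a k6_pm_102_a

theorem s8_pm_102_a : ∃ t, chk3 f_pm_102_a t 5 5 1 = true := ex3_a k2_pm_102_a k3_pm_102_a

theorem s9_pm_102_a : ∃ t, chk3 f_pm_102_a t 5 2 1 = true := ex3_b k1_pm_102_a s8_pm_102_a

theorem s10_pm_102_a : ∃ t, chk3 f_pm_102_a t 2 2 1 = true := ex3_a k0_pm_102_a s9_pm_102_a

theorem s11_pm_102_a : ∃ t, chk3 f_pm_102_a t 2 1 1 = true := ex3_b s10_pm_102_a k4_pm_102_a

theorem s12_pm_102_a : ∃ t, chk3 f_pm_102_a t 1 1 1 = true := ex3_a s11_pm_102_a s7_pm_102_a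

theorem c_pm_102_a : CertB 536870912 536870912 0 536870912 649613803 48318383 3 eng mog cd2q1 cd1q2a pd0 false true false .npp 1 0 2
    ndB2q1 ndB1q2a pcB0 Cut.none Ext.none :=
  certB2 (fam := false) (s1 := true) (s2 := false) (a := 1) (b := 0) (c := 2) (cn := .npp) (n1 := ndB2q1) (n2 := ndB1q2a) (pc := pcB0) (cut := Cut.none) (xt := Ext.none) (P1 := 536870912) (W1 := 536870912) (P2 := 0) (W2 := 536870912) (P3 := 649613803) (W3 := 48318383) (N0 := 3) (En := eng) (mo := mog) (C1 := cd2q1) (C2 := cd1q2a) (C3 := pd0)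
    rfl (fun _ => rfl) s12_pm_102_a

noncomputable def f_pm_102_b : ℕ → ℕ → ℕ → ℕ → Bool := onCell 536870912 536870912 0 536870912 649613803 48318383
    (rowB 3 eng mog cd2q1 cd1q2b pd0 1 false true false .npp 1 0 2 (qsf 536870912 536870912 1239849684 370763052 0) ndB2q1 ndB1q2b pcB0 Cut.none Ext.none)

def k0_pm_102_b : ∃ t, chk3 f_pm_102_b t 1 1 1 = true :=
  ⟨(a (b (l 1) (b (l 1) (a (l 1) (a (b (l 1) (b (l 16725568) (l 16706120))) (b (a (l 16759184) (l 96670261431)) (l 16662392)))))) (b (a (l 1) (l 3)) (a (a (b (b (l 1) (b (a (l 1) (a (l 1) (l 3))) (a (b (l 1) (l 16677696)) (b (a (l 207802415687) (b (l 381345874663) (l 16637176))) (l 95193710023))))) (b (b (a (b (l 16665544) (l 16654144)) (b (l 16626080) (l 16615120))) (a (l 16638656) (l 16600616))) (b (a (l 16621440) (l 16585104)) (a (l 16608632) (l 16574120))))) (b (l 3) (a (b (b (l 337322450455) (l 135458956679)) (b (l 16546024) (l 16537152))) (b (l 3) (b (l 16504784) (l 16496976)))))) (a (b (l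 3) (l 3)) (l 3))))), by decide +kernel⟩

theorem c_pm_102_b : CertB 536870912 536870912 1239849684 370763052 649613803 48318383 3 eng mog cd2q1 cd1q2b pd0 false true false .npp 1 0 2
    ndB2q1 ndB1q2b pcB0 Cut.none Ext.none :=
  certB1 (fam := false) (s1 := true) (s2 := false) (a := 1) (b := 0) (c := 2) (cn := .npp) (n1 := ndB2q1) (n2 := ndB1q2b) (pc := pcB0) (cut := Cut.none) (xt := Ext.none) (P1 := 536870912) (W1 := 536870912) (P2 := 1239849684) (W2 := 370763052) (P3 := 649613803) (W3 := 48318383) (N0 := 3) (En := eng) (mo := mog) (C1 := cd2q1) (C2 := cd1q2b) (C3 := pd0)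
    rfl (fun _ => rfl) k0_pm_102_b

noncomputable def f_pm_112_a : ℕ → ℕ → ℕ → ℕ → Bool := onCell 536870912 536870912 0 536870912 649613803 48318383
    (rowB 3 eng mog cd2q1 cd1q2a pd1 0 false true false .dn 1 1 2 (qsf 536870912 536870912 0 536870912 1) ndB2q1 ndB1q2a pcB1 Cut.none Ext.none)

def k0_pm_112_a : ∃ t, chk3 f_pm_112_a t 1 1 1 = true :=
  ⟨(a (b (a (a (b (b (l 16631792) (l 16602160)) (b (l 16574480) (l 16541904))) (b (b (l 16656088) (l 16626552)) (b (l 16600560) (l 16564472)))) (a (b (b (a (l 16664080) (l 1)) (l 16639176)) (b (a (l 16611664) (l 1)) (l 16724448))) (l 1))) (a (b (b (a (l 16496664) (l 16512536)) (b (l 16459064) (l 16425688))) (b (l 15065603479) (b (l 16494960) (l 16437072)))) (b (l 1) (l 1)))) (l 1)), by decide +kernel⟩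

theorem c_pm_112_a : CertB 536870912 536870912 0 536870912 649613803 48318383 3 eng mog cd2q1 cd1q2a pd1 false true false .dn 1 1 2
    ndB2q1 ndB1q2a pcB1 Cut.none Ext.none :=
  certB0 (fam := false) (s1 := true) (s2 := false) (a := 1) (b := 1) (c := 2) (cn := .dn) (n1 := ndB2q1) (n2 := ndB1q2a) (pc := pcB1) (cut := Cut.none) (xt := Ext.none) (P1 := 536870912) (W1 := 536870912) (P2 := 0) (W2 := 536870912) (P3 := 649613803) (W3 := 48318383) (N0 := 3) (En := eng) (mo := mog) (C1 := cd2q1) (C2 := cd1q2a) (C3 := pd1)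
    rfl k0_pm_112_a

noncomputable def f_pm_112_b : ℕ → ℕ → ℕ → ℕ → Bool := onCell 536870912 536870912 1239849684 370763052 649613803 48318383
    (rowB 3 eng mog cd2q1 cd1q2b pd1 2 false true false .dn 1 1 2 (qsf 536870912 536870912 1239849684 370763052 1) ndB2q1 ndB1q2b pcB1 Cut.none Ext.none)

def k0_pm_112_b : ∃ t, chk3 f_pm_112_b t 1 1 1 = true :=
  ⟨(a (a (b (b (a (a (l 16654064) (l 16657872)) (l 16652464)) (a (a (b (l 16615616) (a (l 16572344) (l 16587288))) (l 16618320)) (l 16634400))) (a (b (a (b (a (b (l 16538848) (l 16510320)) (l 16544376)) (l 149417617463)) (b (l 16570624) (l 16593336))) (a (b (l 193440627079) (l 3)) (b (l 116131548679) (l 186461548215)))) (b (a (l 16589528) (l 16620200)) (a (b (l 16538144) (l 118815891319)) (b (l 16594832) (l 16562208)))))) (b (b (a (l 16623520) (l 16583008)) (a (l 16625216) (l 16587160))) (a (b (l 16642592) (a (l 16636272) (l 16678512))) (b (l 16627056) (l 16705680))))) (a (b (b (l 1) (a (l 16532280) (l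 191159236679))) (a (l 16614984) (b (l 16497240) (l 16591432)))) (b (l 1) (a (l 191696221079) (l 218539538215))))), by decide +kernel⟩

theorem c_pm_112_b : CertB 536870912 536870912 1239849684 370763052 649613803 48318383 3 eng mog cd2q1 cd1q2b pd1 false true false .dn 1 1 2
    ndB2q1 ndB1q2b pcB1 Cut.none Ext.none :=
  certB2 (fam := false) (s1 := true) (s2 := false) (a := 1) (b := 1) (c := 2) (cn := .dn) (n1 := ndB2q1) (n2 := ndB1q2b) (pc := pcB1) (cut := Cut.none) (xt := Ext.none) (P1 := 536870912) (W1 := 536870912) (P2 := 1239849684) (W2 := 370763052) (P3 := 649613803) (W3 := 48318383) (N0 := 3) (En := eng) (mo := mog) (C1 := cd2q1) (C2 := cd1q2b) (C3 := pd1)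
    rfl (fun _ => rfl) k0_pm_112_b

noncomputable def f_pm_113 : ℕ → ℕ → ℕ → ℕ → Bool := onCell 536870912 536870912 536870912 536870912 649613803 48318383
    (rowB 3 eng mog cd2q1 cd1q3 pd1 1 false true false .nn 1 1 3 (qsf 536870912 536870912 1610612736 536870912 1) ndB2q1 ndB1q3 pcB1 Cut.none Ext.none)

def k0_pm_113 : ∃ t, chk3 f_pm_113 t 1 1 1 = true :=
  ⟨(b (b (a (l 1) (b (a (l 1) (a (b (l 1) (l 169281729031)) (l 3))) (a (a (l 1) (l 228740388167)) (a (b (l 16506424) (l 16557112)) (b (l 3) (l 231021730343)))))) (b (a (l 1) (a (a (l 16661904) (l 16671584)) (a (b (l 16618416) (l 16704200)) (b (l 167134101447) (l 164449803239))))) (a (l 181496052583) (a (l 16801392) (a (b (l 16776688) (l 16843128)) (b (l 159617990455) (b (l 16726048) (l 16742856)))))))) (b (a (a (l 197602071079) (l 16716440)) (b (a (l 17011312) (a (l 16911456) (b (l 16726456) (l 16801760)))) (a (l 17069456) (a (l 16986096) (b (l 16840432) (l 16869752)))))) (a (a (l 199212300583) (l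 16772872)) (a (l 16910672) (b (l 16947944) (l 16862624)))))), by decide +kernel⟩

theorem c_pm_113 : CertB 536870912 536870912 1610612736 536870912 649613803 48318383 3 eng mog cd2q1 cd1q3 pd1 false true false .nn 1 1 3
    ndB2q1 ndB1q3 pcB1 Cut.none Ext.none :=
  certB1 (fam := false) (s1 := true) (s2 := false) (a := 1) (b := 1) (c := 3) (cn := .nn) (n1 := ndB2q1) (n2 := ndB1q3) (pc := pcB1) (cut := Cut.none) (xt := Ext.none) (P1 := 536870912) (W1 := 536870912) (P2 := 1610612736) (W2 := 536870912) (P3 := 649613803) (W3 := 48318383) (N0 := 3) (En := eng) (mo := mog) (C1 := cd2q1) (C2 := cd1q3) (C3 := pd1)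
    rfl (fun _ => rfl) k0_pm_113

noncomputable def f_pm_123 : ℕ → ℕ → ℕ → ℕ → Bool := onCell 1073741824 536870912 1610612736 536870912 649613803 48318383
    (rowB 3 eng mog cd2q1 cd1q3 pd2 2 false true false .npn 1 2 3 (qsf 536870912 536870912 1610612736 536870912 2) ndB2q1 ndB1q3 pcB2 Cut.none Ext.none)

def k0_pm_123 : ∃ t, chk3 f_pm_123 t 1 1 1 = true :=
  ⟨(a (a (b (b (a (l 16392000) (l 16289112)) (a (l 16672872) (l 16496680))) (a (b (l 16766336) (l 16757744)) (b (l 16614864) (l 16647224)))) (b (a (b (l 16248976) (l 16370024)) (l 278132270647)) (b (a (l 16450424) (l 16481680)) (a (a (l 16570712) (l 16532104)) (l 16552488))))) (a (b (a (l 291554168503) (l 1)) (a (b (l 16497016) (l 16580800)) (l 16729048))) (b (l 1) (b (l 16564824) (l 16639944))))), by decide +kernel⟩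

theorem c_pm_123 : CertB 536870912 536870912 1610612736 536870912 649613803 48318383 3 eng mog cd2q1 cd1q3 pd2 false true false .npn 1 2 3
    ndB2q1 ndB1q3 pcB2 Cut.none Ext.none :=
  certB2 (fam := false) (s1 := true) (s2 := false) (a := 1) (b := 2) (c := 3) (cn := .npn) (n1 := ndB2q1) (n2 := ndB1q3) (pc := pcB2) (cut := Cut.none) (xt := Ext.none) (P1 := 536870912) (W1 := 536870912) (P2 := 1610612736) (W2 := 536870912) (P3 := 649613803) (W3 := 48318383) (N0 := 3) (En := eng) (mo := mog) (C1 := cd2q1) (C2 := cd1q3) (C3 := pd2)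
    rfl (fun _ => rfl) k0_pm_123

noncomputable def f_pm_133 : ℕ → ℕ → ℕ → ℕ → Bool := onCell 1610612736 536870912 1610612736 536870912 649613803 48318383
    (rowB 3 eng mog cd2q1 cd1q3 pd3 2 false true false .dn 1 3 3 (qsf 536870912 536870912 1610612736 536870912 3) ndB2q1 ndB1q3 pcB3 Cut.none Ext.none)

def k0_pm_133 : ∃ t, chk3 f_pm_133 t 1 1 1 = true :=
  ⟨(a (b (l 1) (a (a (l 16690800) (l 1)) (l 1))) (l 1)), by decide +kernel⟩

theorem c_pm_133 : CertB 536870912 536870912 1610612736 536870912 649613803 48318383 3 eng mog cd2q1 cd1q3 pd3 false true false .dn 1 3 3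
    ndB2q1 ndB1q3 pcB3 Cut.none Ext.none :=
  certB2 (fam := false) (s1 := true) (s2 := false) (a := 1) (b := 3) (c := 3) (cn := .dn) (n1 := ndB2q1) (n2 := ndB1q3) (pc := pcB3) (cut := Cut.none) (xt := Ext.none) (P1 := 536870912) (W1 := 536870912) (P2 := 1610612736) (W2 := 536870912) (P3 := 649613803) (W3 := 48318383) (N0 := 3) (En := eng) (mo := mog) (C1 := cd2q1) (C2 := cd1q3) (C3 := pd3)
    rfl (fun _ => rfl) k0_pm_133

noncomputable def cut_pm_202_aa : Cut := Cut.of [[⟨0, 1, 0, 67108864⟩, ⟨1, 0, 0, 67108864⟩, ⟨2, 1, 0, 67108864⟩]]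

noncomputable def f_pm_202_aa : ℕ → ℕ → ℕ → ℕ → Bool := onCell 0 536870912 0 536870912 649613803 48318383
    (rowB 3 eng mog cd2q2a cd1q2a pd0 0 false true false .pp 2 0 2 (qsf 0 536870912 0 536870912 0) ndB2q2a ndB1q2a pcB0 cut_pm_202_aa Ext.none)

def k0_pm_202_aa : ∃ t, chk3 f_pm_202_aa t 1 1 1 = true :=
  ⟨(a (l 3) (b (l 3) (a (l 3) (b (l 3) (b (l 3) (a (l 3) (l 6))))))), by decide +kernel⟩

theorem c_pm_202_aa : CertB 0 536870912 0 536870912 649613803 48318383 3 eng mog cd2q2a cd1q2a pd0 false true false .pp 2 0 2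
    ndB2q2a ndB1q2a pcB0 cut_pm_202_aa Ext.none :=
  certB0 (fam := false) (s1 := true) (s2 := false) (a := 2) (b := 0) (c := 2) (cn := .pp) (n1 := ndB2q2a) (n2 := ndB1q2a) (pc := pcB0) (cut := cut_pm_202_aa) (xt := Ext.none) (P1 := 0) (W1 := 536870912) (P2 := 0) (W2 := 536870912) (P3 := 649613803) (W3 := 48318383) (N0 := 3) (En := eng) (mo := mog) (C1 := cd2q2a) (C2 := cd1q2a) (C3 := pd0)
    rfl k0_pm_202_aa

noncomputable def cut_pm_202_ab : Cut := Cut.of [[⟨0, 1, 0, 67108864⟩, ⟨1, 0, 0, 67108864⟩, ⟨2, 1, 0, 67108864⟩]]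

noncomputable def f_pm_202_ab : ℕ → ℕ → ℕ → ℕ → Bool := onCell 0 536870912 1239849684 370763052 649613803 48318383
    (rowB 3 eng mog cd2q2a cd1q2b pd0 0 false true false .pp 2 0 2 (qsf 0 536870912 1239849684 370763052 0) ndB2q2a ndB1q2b pcB0 cut_pm_202_ab Ext.none)

def k0_pm_202_ab : ∃ t, chk3 f_pm_202_ab t 1 1 1 = true :=
  ⟨(l 3), by decide +kernel⟩

theorem c_pm_202_ab : CertB 0 536870912 1239849684 370763052 649613803 48318383 3 eng mog cd2q2a cd1q2b pd0 false true false .pp 2 0 2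
    ndB2q2a ndB1q2b pcB0 cut_pm_202_ab Ext.none :=
  certB0 (fam := false) (s1 := true) (s2 := false) (a := 2) (b := 0) (c := 2) (cn := .pp) (n1 := ndB2q2a) (n2 := ndB1q2b) (pc := pcB0) (cut := cut_pm_202_ab) (xt := Ext.none) (P1 := 0) (W1 := 536870912) (P2 := 1239849684) (W2 := 370763052) (P3 := 649613803) (W3 := 48318383) (N0 := 3) (En := eng) (mo := mog) (C1 := cd2q2a) (C2 := cd1q2b) (C3 := pd0)
    rfl k0_pm_202_ab

noncomputable def cut_pm_202_ba : Cut := Cut.of [[⟨0, 1, 0, 67108864⟩, ⟨1, 0, 0, 67108864⟩, ⟨2, 1, 0, 67108864⟩]]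

noncomputable def f_pm_202_ba : ℕ → ℕ → ℕ → ℕ → Bool := onCell 1239849684 370763052 0 536870912 649613803 48318383
    (rowB 3 eng mog cd2q2b cd1q2a pd0 0 false true false .pp 2 0 2 (qsf 1239849684 370763052 0 536870912 0) ndB2q2b ndB1q2a pcB0 cut_pm_202_ba Ext.none)

def k0_pm_202_ba : ∃ t, chk3 f_pm_202_ba t 1 1 1 = true :=
  ⟨(l 3), by decide +kernel⟩

theorem c_pm_202_ba : CertB 1239849684 370763052 0 536870912 649613803 48318383 3 eng mog cd2q2b cd1q2a pd0 false true false .pp 2 0 2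
    ndB2q2b ndB1q2a pcB0 cut_pm_202_ba Ext.none :=
  certB0 (fam := false) (s1 := true) (s2 := false) (a := 2) (b := 0) (c := 2) (cn := .pp) (n1 := ndB2q2b) (n2 := ndB1q2a) (pc := pcB0) (cut := cut_pm_202_ba) (xt := Ext.none) (P1 := 1239849684) (W1 := 370763052) (P2 := 0) (W2 := 536870912) (P3 := 649613803) (W3 := 48318383) (N0 := 3) (En := eng) (mo := mog) (C1 := cd2q2b) (C2 := cd1q2a) (C3 := pd0)
    rfl k0_pm_202_ba

noncomputable def cut_pm_202_bb : Cut := Cut.of [[⟨0, 1, 0, 67108864⟩, ⟨1, 0, 0, 67108864⟩, ⟨2, 1, 0, 67108864⟩]]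

noncomputable def f_pm_202_bb : ℕ → ℕ → ℕ → ℕ → Bool := onCell 1239849684 370763052 1239849684 370763052 649613803 48318383
    (rowB 3 eng mog cd2q2b cd1q2b pd0 0 false true false .pp 2 0 2 (qsf 1239849684 370763052 1239849684 370763052 0) ndB2q2b ndB1q2b pcB0 cut_pm_202_bb Ext.none)

def k0_pm_202_bb : ∃ t, chk3 f_pm_202_bb t 1 1 1 = true :=
  ⟨(l 3), by decide +kernel⟩

theorem c_pm_202_bb : CertB 1239849684 370763052 1239849684 370763052 649613803 48318383 3 eng mog cd2q2b cd1q2b pd0 false true false .pp 2 0 2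
    ndB2q2b ndB1q2b pcB0 cut_pm_202_bb Ext.none :=
  certB0 (fam := false) (s1 := true) (s2 := false) (a := 2) (b := 0) (c := 2) (cn := .pp) (n1 := ndB2q2b) (n2 := ndB1q2b) (pc := pcB0) (cut := cut_pm_202_bb) (xt := Ext.none) (P1 := 1239849684) (W1 := 370763052) (P2 := 1239849684) (W2 := 370763052) (P3 := 649613803) (W3 := 48318383) (N0 := 3) (En := eng) (mo := mog) (C1 := cd2q2b) (C2 := cd1q2b) (C3 := pd0)
    rfl k0_pm_202_bb

noncomputable def f_pm_203_a : ℕ → ℕ → ℕ → ℕ → Bool := onCell 0 536870912 0 536870912 649613803 48318383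
    (rowB 3 eng mog cd2q2a cd1q3 pd0 1 false true false .up 2 0 3 (qsf 0 536870912 1610612736 536870912 0) ndB2q2a ndB1q3 pcB0 Cut.none Ext.none)

def k0_pm_203_a : ∃ t, chk3 f_pm_203_a t 1 1 1 = true :=
  ⟨(l 3), by decide +kernel⟩

theorem c_pm_203_a : CertB 0 536870912 1610612736 536870912 649613803 48318383 3 eng mog cd2q2a cd1q3 pd0 false true false .up 2 0 3
    ndB2q2a ndB1q3 pcB0 Cut.none Ext.none :=
  certB1 (fam := false) (s1 := true) (s2 := false) (a := 2) (b := 0) (c := 3) (cn := .up) (n1 := ndB2q2a) (n2 := ndB1q3) (pc := pcB0) (cut := Cut.none) (xt := Ext.none) (P1 := 0) (W1 := 536870912) (P2 := 1610612736) (W2 := 536870912) (P3 := 649613803) (W3 := 48318383) (N0 := 3) (En := eng) (mo := mog) (C1 := cd2q2a) (C2 := cd1q3) (C3 := pd0)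
    rfl (fun _ => rfl) k0_pm_203_a

noncomputable def f_pm_203_b : ℕ → ℕ → ℕ → ℕ → Bool := onCell 1239849684 370763052 1610612736 536870912 649613803 48318383
    (rowB 3 eng mog cd2q2b cd1q3 pd0 0 false true false .up 2 0 3 (qsf 1239849684 370763052 1610612736 536870912 0) ndB2q2b ndB1q3 pcB0 Cut.none Ext.none)

def k0_pm_203_b : ∃ t, chk3 f_pm_203_b t 1 1 1 = true :=
  ⟨(l 3), by decide +kernel⟩

theorem c_pm_203_b : CertB 1239849684 370763052 1610612736 536870912 649613803 48318383 3 eng mog cd2q2b cd1q3 pd0 false true false .up 2 0 3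
    ndB2q2b ndB1q3 pcB0 Cut.none Ext.none :=
  certB0 (fam := false) (s1 := true) (s2 := false) (a := 2) (b := 0) (c := 3) (cn := .up) (n1 := ndB2q2b) (n2 := ndB1q3) (pc := pcB0) (cut := Cut.none) (xt := Ext.none) (P1 := 1239849684) (W1 := 370763052) (P2 := 1610612736) (W2 := 536870912) (P3 := 649613803) (W3 := 48318383) (N0 := 3) (En := eng) (mo := mog) (C1 := cd2q2b) (C2 := cd1q3) (C3 := pd0)
    rfl k0_pm_203_b

noncomputable def cut_pm_213_a : Cut := Cut.of [[⟨0, 1, 0, 67108864⟩, ⟨1, 1, 0, 67108864⟩, ⟨2, 2, 0, 16777216⟩]]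

noncomputable def f_pm_213_a : ℕ → ℕ → ℕ → ℕ → Bool := onCell 0 536870912 1610612736 536870912 649613803 48318383
    (rowB 3 eng mog cd2q2a cd1q3 pd1 0 false true false .pnn 2 1 3 (qsf 0 536870912 1610612736 536870912 1) ndB2q2a ndB1q3 pcB1 cut_pm_213_a Ext.none)

def k0_pm_213_a : ∃ t, chk3 f_pm_213_a t 1 1 1 = true :=
  ⟨(b (l 3) (a (l 3) (b (l 3) (a (l 3) (b (l 3) (a (l 3) (b (l 3) (b (l 3) (b (l 3) (l 6)))))))))), by decide +kernel⟩

theorem c_pm_213_a : CertB 0 536870912 1610612736 536870912 649613803 48318383 3 eng mog cd2q2a cd1q3 pd1 false true false .pnn 2 1 3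
    ndB2q2a ndB1q3 pcB1 cut_pm_213_a Ext.none :=
  certB0 (fam := false) (s1 := true) (s2 := false) (a := 2) (b := 1) (c := 3) (cn := .pnn) (n1 := ndB2q2a) (n2 := ndB1q3) (pc := pcB1) (cut := cut_pm_213_a) (xt := Ext.none) (P1 := 0) (W1 := 536870912) (P2 := 1610612736) (W2 := 536870912) (P3 := 649613803) (W3 := 48318383) (N0 := 3) (En := eng) (mo := mog) (C1 := cd2q2a) (C2 := cd1q3) (C3 := pd1)
    rfl k0_pm_213_a

noncomputable def cut_pm_213_b : Cut := Cut.of [[⟨0, 1, 0, 67108864⟩, ⟨1, 1, 0, 67108864⟩, ⟨2, 2, 0, 16777216⟩]]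

noncomputable def f_pm_213_b : ℕ → ℕ → ℕ → ℕ → Bool := onCell 1239849684 370763052 1610612736 536870912 649613803 48318383
    (rowB 3 eng mog cd2q2b cd1q3 pd1 0 false true false .pnn 2 1 3 (qsf 1239849684 370763052 1610612736 536870912 1) ndB2q2b ndB1q3 pcB1 cut_pm_213_b Ext.none)

def k0_pm_213_b : ∃ t, chk3 f_pm_213_b t 1 1 1 = true :=
  ⟨(l 3), by decide +kernel⟩

theorem c_pm_213_b : CertB 1239849684 370763052 1610612736 536870912 649613803 48318383 3 eng mog cd2q2b cd1q3 pd1 false true false .pnn 2 1 3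
    ndB2q2b ndB1q3 pcB1 cut_pm_213_b Ext.none :=
  certB0 (fam := false) (s1 := true) (s2 := false) (a := 2) (b := 1) (c := 3) (cn := .pnn) (n1 := ndB2q2b) (n2 := ndB1q3) (pc := pcB1) (cut := cut_pm_213_b) (xt := Ext.none) (P1 := 1239849684) (W1 := 370763052) (P2 := 1610612736) (W2 := 536870912) (P3 := 649613803) (W3 := 48318383) (N0 := 3) (En := eng) (mo := mog) (C1 := cd2q2b) (C2 := cd1q3) (C3 := pd1)
    rfl k0_pm_213_b

noncomputable def f_pm_303 : ℕ → ℕ → ℕ → ℕ → Bool := onCell 1610612736 536870912 1610612736 536870912 649613803 48318383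
    (rowB 3 eng mog cd2q3 cd1q3 pd0 0 false true false .npn 3 0 3 (qsf 1610612736 536870912 1610612736 536870912 0) ndB2q3 ndB1q3 pcB0 Cut.none Ext.none)

def k0_pm_303 : ∃ t, chk3 f_pm_303 t 1 1 1 = true :=
  ⟨(l 3), by decide +kernel⟩

theorem c_pm_303 : CertB 1610612736 536870912 1610612736 536870912 649613803 48318383 3 eng mog cd2q3 cd1q3 pd0 false true false .npn 3 0 3
    ndB2q3 ndB1q3 pcB0 Cut.none Ext.none :=
  certB0 (fam := false) (s1 := true) (s2 := false) (a := 3) (b := 0) (c := 3) (cn := .npn) (n1 := ndB2q3) (n2 := ndB1q3) (pc := pcB0) (cut := Cut.none) (xt := Ext.none) (P1 := 1610612736) (W1 := 536870912) (P2 := 1610612736) (W2 := 536870912) (P3 := 649613803) (W3 := 48318383) (N0 := 3) (En := eng) (mo := mog) (C1 := cd2q3) (C2 := cd1q3) (C3 := pd0)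
    rfl k0_pm_303

noncomputable def f_pm_313 : ℕ → ℕ → ℕ → ℕ → Bool := onCell 1610612736 536870912 1610612736 536870912 649613803 48318383
    (rowB 3 eng mog cd2q3 cd1q3 pd1 0 false true false .dn 3 1 3 (qsf 1610612736 536870912 1610612736 536870912 1) ndB2q3 ndB1q3 pcB1 Cut.none Ext.none)

def k0_pm_313 : ∃ t, chk3 f_pm_313 t 1 1 1 = true :=
  ⟨(l 3), by decide +kernel⟩

theorem c_pm_313 : CertB 1610612736 536870912 1610612736 536870912 649613803 48318383 3 eng mog cd2q3 cd1q3 pd1 false true false .dn 3 1 3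
    ndB2q3 ndB1q3 pcB1 Cut.none Ext.none :=
  certB0 (fam := false) (s1 := true) (s2 := false) (a := 3) (b := 1) (c := 3) (cn := .dn) (n1 := ndB2q3) (n2 := ndB1q3) (pc := pcB1) (cut := Cut.none) (xt := Ext.none) (P1 := 1610612736) (W1 := 536870912) (P2 := 1610612736) (W2 := 536870912) (P3 := 649613803) (W3 := 48318383) (N0 := 3) (En := eng) (mo := mog) (C1 := cd2q3) (C2 := cd1q3) (C3 := pd1)
    rfl k0_pm_313

noncomputable def f_mm_001 : ℕ → ℕ → ℕ → ℕ → Bool := onCell 0 536870912 0 536870912 649613803 48318383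
    (rowB 3 eng mog cd2q0 cd1q1 pd0 1 false false false .up 0 0 1 (qsf 0 536870912 536870912 536870912 0) ndB2q0 ndB1q1 pcB0 Cut.none Ext.none)

def k0_mm_001 : ∃ t, chk3 f_mm_001 t 1 1 1 = true :=
  ⟨(l 3), by decide +kernel⟩

theorem c_mm_001 : CertB 0 536870912 536870912 536870912 649613803 48318383 3 eng mog cd2q0 cd1q1 pd0 false false false .up 0 0 1
    ndB2q0 ndB1q1 pcB0 Cut.none Ext.none :=
  certB1 (fam := false) (s1 := false) (s2 := false) (a := 0) (b := 0) (c := 1) (cn := .up) (n1 := ndB2q0) (n2 := ndB1q1) (pc := pcB0) (cut := Cut.none) (xt := Ext.none) (P1 := 0) (W1 := 536870912) (P2 := 536870912) (W2 := 536870912) (P3 := 649613803) (W3 := 48318383) (N0 := 3) (En := eng) (mo := mog) (C1 := cd2q0) (C2 := cd1q1) (C3 := pd0)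
    rfl (fun _ => rfl) k0_mm_001

noncomputable def f_mm_011 : ℕ → ℕ → ℕ → ℕ → Bool := onCell 0 536870912 536870912 536870912 649613803 48318383
    (rowB 3 eng mog cd2q0 cd1q1 pd1 1 false false false .pnn 0 1 1 (qsf 0 536870912 536870912 536870912 1) ndB2q0 ndB1q1 pcB1 Cut.none Ext.none)

def k0_mm_011 : ∃ t, chk3 f_mm_011 t 1 1 1 = true :=
  ⟨(l 5), by decide +kernel⟩

theorem c_mm_011 : CertB 0 536870912 536870912 536870912 649613803 48318383 3 eng mog cd2q0 cd1q1 pd1 false false false .pnn 0 1 1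
    ndB2q0 ndB1q1 pcB1 Cut.none Ext.none :=
  certB1 (fam := false) (s1 := false) (s2 := false) (a := 0) (b := 1) (c := 1) (cn := .pnn) (n1 := ndB2q0) (n2 := ndB1q1) (pc := pcB1) (cut := Cut.none) (xt := Ext.none) (P1 := 0) (W1 := 536870912) (P2 := 536870912) (W2 := 536870912) (P3 := 649613803) (W3 := 48318383) (N0 := 3) (En := eng) (mo := mog) (C1 := cd2q0) (C2 := cd1q1) (C3 := pd1)
    rfl (fun _ => rfl) k0_mm_011

noncomputable def f_mm_012_a : ℕ → ℕ → ℕ → ℕ → Bool := onCell 0 536870912 0 536870912 649613803 48318383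
    (rowB 3 eng mog cd2q0 cd1q2a pd1 0 false false false .pnp 0 1 2 (qsf 0 536870912 0 536870912 1) ndB2q0 ndB1q2a pcB1 Cut.none Ext.none)

def k0_mm_012_a : ∃ t, chk3 f_mm_012_a t 1 1 1 = true :=
  ⟨(l 5), by decide +kernel⟩

theorem c_mm_012_a : CertB 0 536870912 0 536870912 649613803 48318383 3 eng mog cd2q0 cd1q2a pd1 false false false .pnp 0 1 2
    ndB2q0 ndB1q2a pcB1 Cut.none Ext.none :=
  certB0 (fam := false) (s1 := false) (s2 := false) (a := 0) (b := 1) (c := 2) (cn := .pnp) (n1 := ndB2q0) (n2 := ndB1q2a) (pc := pcB1) (cut := Cut.none) (xt := Ext.none) (P1 := 0) (W1 := 536870912) (P2 := 0) (W2 := 536870912) (P3 := 649613803) (W3 := 48318383) (N0 := 3) (En := eng) (mo := mog) (C1 := cd2q0) (C2 := cd1q2a) (C3 := pd1)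
    rfl k0_mm_012_a

noncomputable def f_mm_012_b : ℕ → ℕ → ℕ → ℕ → Bool := onCell 0 536870912 1239849684 370763052 649613803 48318383
    (rowB 3 eng mog cd2q0 cd1q2b pd1 0 false false false .pnp 0 1 2 (qsf 0 536870912 1239849684 370763052 1) ndB2q0 ndB1q2b pcB1 Cut.none Ext.none)

def k0_mm_012_b : ∃ t, chk3 f_mm_012_b t 1 1 1 = true :=
  ⟨(l 5), by decide +kernel⟩

theorem c_mm_012_b : CertB 0 536870912 1239849684 370763052 649613803 48318383 3 eng mog cd2q0 cd1q2b pd1 false false false .pnp 0 1 2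
    ndB2q0 ndB1q2b pcB1 Cut.none Ext.none :=
  certB0 (fam := false) (s1 := false) (s2 := false) (a := 0) (b := 1) (c := 2) (cn := .pnp) (n1 := ndB2q0) (n2 := ndB1q2b) (pc := pcB1) (cut := Cut.none) (xt := Ext.none) (P1 := 0) (W1 := 536870912) (P2 := 1239849684) (W2 := 370763052) (P3 := 649613803) (W3 := 48318383) (N0 := 3) (En := eng) (mo := mog) (C1 := cd2q0) (C2 := cd1q2b) (C3 := pd1)
    rfl k0_mm_012_b

noncomputable def f_mm_022_a : ℕ → ℕ → ℕ → ℕ → Bool := onCell 0 536870912 0 536870912 649613803 48318383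
    (rowB 3 eng mog cd2q0 cd1q2a pd2 0 false false false .pp 0 2 2 (qsf 0 536870912 0 536870912 2) ndB2q0 ndB1q2a pcB2 Cut.none Ext.none)

def k0_mm_022_a : ∃ t, chk3 f_mm_022_a t 1 1 1 = true :=
  ⟨(l 5), by decide +kernel⟩

theorem c_mm_022_a : CertB 0 536870912 0 536870912 649613803 48318383 3 eng mog cd2q0 cd1q2a pd2 false false false .pp 0 2 2
    ndB2q0 ndB1q2a pcB2 Cut.none Ext.none :=
  certB0 (fam := false) (s1 := false) (s2 := false) (a := 0) (b := 2) (c := 2) (cn := .pp) (n1 := ndB2q0) (n2 := ndB1q2a) (pc := pcB2) (cut := Cut.none) (xt := Ext.none) (P1 := 0) (W1 := 536870912) (P2 := 0) (W2 := 536870912) (P3 := 649613803) (W3 := 48318383) (N0 := 3) (En := eng) (mo := mog) (C1 := cd2q0) (C2 := cd1q2a) (C3 := pd2)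
    rfl k0_mm_022_a

noncomputable def f_mm_022_b : ℕ → ℕ → ℕ → ℕ → Bool := onCell 0 536870912 1239849684 370763052 649613803 48318383
    (rowB 3 eng mog cd2q0 cd1q2b pd2 0 false false false .pp 0 2 2 (qsf 0 536870912 1239849684 370763052 2) ndB2q0 ndB1q2b pcB2 Cut.none Ext.none)

def k0_mm_022_b : ∃ t, chk3 f_mm_022_b t 1 1 1 = true :=
  ⟨(l 5), by decide +kernel⟩

theorem c_mm_022_b : CertB 0 536870912 1239849684 370763052 649613803 48318383 3 eng mog cd2q0 cd1q2b pd2 false false false .pp 0 2 2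
    ndB2q0 ndB1q2b pcB2 Cut.none Ext.none :=
  certB0 (fam := false) (s1 := false) (s2 := false) (a := 0) (b := 2) (c := 2) (cn := .pp) (n1 := ndB2q0) (n2 := ndB1q2b) (pc := pcB2) (cut := Cut.none) (xt := Ext.none) (P1 := 0) (W1 := 536870912) (P2 := 1239849684) (W2 := 370763052) (P3 := 649613803) (W3 := 48318383) (N0 := 3) (En := eng) (mo := mog) (C1 := cd2q0) (C2 := cd1q2b) (C3 := pd2)
    rfl k0_mm_022_b

noncomputable def f_mm_023 : ℕ → ℕ → ℕ → ℕ → Bool := onCell 0 536870912 1610612736 536870912 649613803 48318383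
    (rowB 3 eng mog cd2q0 cd1q3 pd2 0 false false false .up 0 2 3 (qsf 0 536870912 1610612736 536870912 2) ndB2q0 ndB1q3 pcB2 Cut.none Ext.none)

def k0_mm_023 : ∃ t, chk3 f_mm_023 t 1 1 1 = true :=
  ⟨(l 5), by decide +kernel⟩

theorem c_mm_023 : CertB 0 536870912 1610612736 536870912 649613803 48318383 3 eng mog cd2q0 cd1q3 pd2 false false false .up 0 2 3
    ndB2q0 ndB1q3 pcB2 Cut.none Ext.none :=
  certB0 (fam := false) (s1 := false) (s2 := false) (a := 0) (b := 2) (c := 3) (cn := .up) (n1 := ndB2q0) (n2 := ndB1q3) (pc := pcB2) (cut := Cut.none) (xt := Ext.none) (P1 := 0) (W1 := 536870912) (P2 := 1610612736) (W2 := 536870912) (P3 := 649613803) (W3 := 48318383) (N0 := 3) (En := eng) (mo := mog) (C1 := cd2q0) (C2 := cd1q3) (C3 := pd2)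
    rfl k0_mm_023

noncomputable def f_mm_033 : ℕ → ℕ → ℕ → ℕ → Bool := onCell 0 536870912 1610612736 536870912 649613803 48318383
    (rowB 3 eng mog cd2q0 cd1q3 pd3 0 false false false .pnn 0 3 3 (qsf 0 536870912 1610612736 536870912 3) ndB2q0 ndB1q3 pcB3 Cut.none Ext.none)

def k0_mm_033 : ∃ t, chk3 f_mm_033 t 1 1 1 = true :=
  ⟨(l 5), by decide +kernel⟩

theorem c_mm_033 : CertB 0 536870912 1610612736 536870912 649613803 48318383 3 eng mog cd2q0 cd1q3 pd3 false false false .pnn 0 3 3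
    ndB2q0 ndB1q3 pcB3 Cut.none Ext.none :=
  certB0 (fam := false) (s1 := false) (s2 := false) (a := 0) (b := 3) (c := 3) (cn := .pnn) (n1 := ndB2q0) (n2 := ndB1q3) (pc := pcB3) (cut := Cut.none) (xt := Ext.none) (P1 := 0) (W1 := 536870912) (P2 := 1610612736) (W2 := 536870912) (P3 := 649613803) (W3 := 48318383) (N0 := 3) (En := eng) (mo := mog) (C1 := cd2q0) (C2 := cd1q3) (C3 := pd3)
    rfl k0_mm_033

noncomputable def f_mm_101 : ℕ → ℕ → ℕ → ℕ → Bool := onCell 536870912 536870912 536870912 536870912 649613803 48318383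
    (rowB 3 eng mog cd2q1 cd1q1 pd0 0 false false false .npn 1 0 1 (qsf 536870912 536870912 536870912 536870912 0) ndB2q1 ndB1q1 pcB0 Cut.none Ext.none)

def k0_mm_101 : ∃ t, chk3 f_mm_101 t 1 1 1 = true :=
  ⟨(l 3), by decide +kernel⟩

theorem c_mm_101 : CertB 536870912 536870912 536870912 536870912 649613803 48318383 3 eng mog cd2q1 cd1q1 pd0 false false false .npn 1 0 1
    ndB2q1 ndB1q1 pcB0 Cut.none Ext.none :=
  certB0 (fam := false) (s1 := false) (s2 := false) (a := 1) (b := 0) (c := 1) (cn := .npn) (n1 := ndB2q1) (n2 := ndB1q1) (pc := pcB0) (cut := Cut.none) (xt := Ext.none) (P1 := 536870912) (W1 := 536870912) (P2 := 536870912) (W2 := 536870912) (P3 := 649613803) (W3 := 48318383) (N0 := 3) (En := eng) (mo := mog) (C1 := cd2q1) (C2 := cd1q1) (C3 := pd0)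
    rfl k0_mm_101

noncomputable def f_mm_102_a : ℕ → ℕ → ℕ → ℕ → Bool := onCell 536870912 536870912 0 536870912 649613803 48318383
    (rowB 3 eng mog cd2q1 cd1q2a pd0 0 false false false .npp 1 0 2 (qsf 536870912 536870912 0 536870912 0) ndB2q1 ndB1q2a pcB0 Cut.none Ext.none)

def k0_mm_102_a : ∃ t, chk3 f_mm_102_a t 1 1 1 = true :=
  ⟨(l 5), by decide +kernel⟩

theorem c_mm_102_a : CertB 536870912 536870912 0 536870912 649613803 48318383 3 eng mog cd2q1 cd1q2a pd0 false false false .npp 1 0 2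
    ndB2q1 ndB1q2a pcB0 Cut.none Ext.none :=
  certB0 (fam := false) (s1 := false) (s2 := false) (a := 1) (b := 0) (c := 2) (cn := .npp) (n1 := ndB2q1) (n2 := ndB1q2a) (pc := pcB0) (cut := Cut.none) (xt := Ext.none) (P1 := 536870912) (W1 := 536870912) (P2 := 0) (W2 := 536870912) (P3 := 649613803) (W3 := 48318383) (N0 := 3) (En := eng) (mo := mog) (C1 := cd2q1) (C2 := cd1q2a) (C3 := pd0)
    rfl k0_mm_102_a

noncomputable def f_mm_102_b : ℕ → ℕ → ℕ → ℕ → Bool := onCell 536870912 536870912 1239849684 370763052 649613803 48318383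
    (rowB 3 eng mog cd2q1 cd1q2b pd0 0 false false false .npp 1 0 2 (qsf 536870912 536870912 1239849684 370763052 0) ndB2q1 ndB1q2b pcB0 Cut.none Ext.none)

def k0_mm_102_b : ∃ t, chk3 f_mm_102_b t 1 1 1 = true :=
  ⟨(l 5), by decide +kernel⟩

theorem c_mm_102_b : CertB 536870912 536870912 1239849684 370763052 649613803 48318383 3 eng mog cd2q1 cd1q2b pd0 false false false .npp 1 0 2
    ndB2q1 ndB1q2b pcB0 Cut.none Ext.none :=
  certB0 (fam := false) (s1 := false) (s2 := false) (a := 1) (b := 0) (c := 2) (cn := .npp) (n1 := ndB2q1) (n2 := ndB1q2b) (pc := pcB0) (cut := Cut.none) (xt := Ext.none) (P1 := 536870912) (W1 := 536870912) (P2 := 1239849684) (W2 := 370763052) (P3 := 649613803) (W3 := 48318383) (N0 := 3) (En := eng) (mo := mog) (C1 := cd2q1) (C2 := cd1q2b) (C3 := pd0)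
    rfl k0_mm_102_b

noncomputable def f_mm_112_a : ℕ → ℕ → ℕ → ℕ → Bool := onCell 536870912 536870912 0 536870912 649613803 48318383
    (rowB 3 eng mog cd2q1 cd1q2a pd1 0 false false false .dn 1 1 2 (qsf 536870912 536870912 0 536870912 1) ndB2q1 ndB1q2a pcB1 Cut.none Ext.none)

def k0_mm_112_a : ∃ t, chk3 f_mm_112_a t 1 1 1 = true :=
  ⟨(l 5), by decide +kernel⟩

theorem c_mm_112_a : CertB 536870912 536870912 0 536870912 649613803 48318383 3 eng mog cd2q1 cd1q2a pd1 false false false .dn 1 1 2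
    ndB2q1 ndB1q2a pcB1 Cut.none Ext.none :=
  certB0 (fam := false) (s1 := false) (s2 := false) (a := 1) (b := 1) (c := 2) (cn := .dn) (n1 := ndB2q1) (n2 := ndB1q2a) (pc := pcB1) (cut := Cut.none) (xt := Ext.none) (P1 := 536870912) (W1 := 536870912) (P2 := 0) (W2 := 536870912) (P3 := 649613803) (W3 := 48318383) (N0 := 3) (En := eng) (mo := mog) (C1 := cd2q1) (C2 := cd1q2a) (C3 := pd1)
    rfl k0_mm_112_a

noncomputable def f_mm_112_b : ℕ → ℕ → ℕ → ℕ → Bool := onCell 536870912 536870912 1239849684 370763052 649613803 48318383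
    (rowB 3 eng mog cd2q1 cd1q2b pd1 0 false false false .dn 1 1 2 (qsf 536870912 536870912 1239849684 370763052 1) ndB2q1 ndB1q2b pcB1 Cut.none Ext.none)

def k0_mm_112_b : ∃ t, chk3 f_mm_112_b t 1 1 1 = true :=
  ⟨(l 5), by decide +kernel⟩

theorem c_mm_112_b : CertB 536870912 536870912 1239849684 370763052 649613803 48318383 3 eng mog cd2q1 cd1q2b pd1 false false false .dn 1 1 2
    ndB2q1 ndB1q2b pcB1 Cut.none Ext.none :=
  certB0 (fam := false) (s1 := false) (s2 := false) (a := 1) (b := 1) (c := 2) (cn := .dn) (n1 := ndB2q1) (n2 := ndB1q2b) (pc := pcB1) (cut := Cut.none) (xt := Ext.none) (P1 := 536870912) (W1 := 536870912) (P2 := 1239849684) (W2 := 370763052) (P3 := 649613803) (W3 := 48318383) (N0 := 3) (En := eng) (mo := mog) (C1 := cd2q1) (C2 := cd1q2b) (C3 := pd1)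
    rfl k0_mm_112_b

noncomputable def f_mm_113 : ℕ → ℕ → ℕ → ℕ → Bool := onCell 536870912 536870912 1610612736 536870912 649613803 48318383
    (rowB 3 eng mog cd2q1 cd1q3 pd1 0 false false false .nn 1 1 3 (qsf 536870912 536870912 1610612736 536870912 1) ndB2q1 ndB1q3 pcB1 Cut.none Ext.none)

def k0_mm_113 : ∃ t, chk3 f_mm_113 t 1 1 1 = true :=
  ⟨(l 5), by decide +kernel⟩

theorem c_mm_113 : CertB 536870912 536870912 1610612736 536870912 649613803 48318383 3 eng mog cd2q1 cd1q3 pd1 false false false .nn 1 1 3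
    ndB2q1 ndB1q3 pcB1 Cut.none Ext.none :=
  certB0 (fam := false) (s1 := false) (s2 := false) (a := 1) (b := 1) (c := 3) (cn := .nn) (n1 := ndB2q1) (n2 := ndB1q3) (pc := pcB1) (cut := Cut.none) (xt := Ext.none) (P1 := 536870912) (W1 := 536870912) (P2 := 1610612736) (W2 := 536870912) (P3 := 649613803) (W3 := 48318383) (N0 := 3) (En := eng) (mo := mog) (C1 := cd2q1) (C2 := cd1q3) (C3 := pd1)
    rfl k0_mm_113

noncomputable def f_mm_123 : ℕ → ℕ → ℕ → ℕ → Bool := onCell 536870912 536870912 1610612736 536870912 649613803 48318383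
    (rowB 3 eng mog cd2q1 cd1q3 pd2 0 false false false .npn 1 2 3 (qsf 536870912 536870912 1610612736 536870912 2) ndB2q1 ndB1q3 pcB2 Cut.none Ext.none)

def k0_mm_123 : ∃ t, chk3 f_mm_123 t 1 1 1 = true :=
  ⟨(l 5), by decide +kernel⟩

theorem c_mm_123 : CertB 536870912 536870912 1610612736 536870912 649613803 48318383 3 eng mog cd2q1 cd1q3 pd2 false false false .npn 1 2 3
    ndB2q1 ndB1q3 pcB2 Cut.none Ext.none :=
  certB0 (fam := false) (s1 := false) (s2 := false) (a := 1) (b := 2) (c := 3) (cn := .npn) (n1 := ndB2q1) (n2 := ndB1q3) (pc := pcB2) (cut := Cut.none) (xt := Ext.none) (P1 := 536870912) (W1 := 536870912) (P2 := 1610612736) (W2 := 536870912) (P3 := 649613803) (W3 := 48318383) (N0 := 3) (En := eng) (mo := mog) (C1 := cd2q1) (C2 := cd1q3) (C3 := pd2)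
    rfl k0_mm_123

noncomputable def f_mm_133 : ℕ → ℕ → ℕ → ℕ → Bool := onCell 536870912 536870912 1610612736 536870912 649613803 48318383
    (rowB 3 eng mog cd2q1 cd1q3 pd3 0 false false false .dn 1 3 3 (qsf 536870912 536870912 1610612736 536870912 3) ndB2q1 ndB1q3 pcB3 Cut.none Ext.none)

def k0_mm_133 : ∃ t, chk3 f_mm_133 t 1 1 1 = true :=
  ⟨(l 5), by decide +kernel⟩

theorem c_mm_133 : CertB 536870912 536870912 1610612736 536870912 649613803 48318383 3 eng mog cd2q1 cd1q3 pd3 false false false .dn 1 3 3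
    ndB2q1 ndB1q3 pcB3 Cut.none Ext.none :=
  certB0 (fam := false) (s1 := false) (s2 := false) (a := 1) (b := 3) (c := 3) (cn := .dn) (n1 := ndB2q1) (n2 := ndB1q3) (pc := pcB3) (cut := Cut.none) (xt := Ext.none) (P1 := 536870912) (W1 := 536870912) (P2 := 1610612736) (W2 := 536870912) (P3 := 649613803) (W3 := 48318383) (N0 := 3) (En := eng) (mo := mog) (C1 := cd2q1) (C2 := cd1q3) (C3 := pd3)
    rfl k0_mm_133

noncomputable def f_mm_202_aa : ℕ → ℕ → ℕ → ℕ → Bool := onCell 0 536870912 0 536870912 649613803 48318383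
    (rowB 3 eng mog cd2q2a cd1q2a pd0 0 false false false .pp 2 0 2 (qsf 0 536870912 0 536870912 0) ndB2q2a ndB1q2a pcB0 Cut.none Ext.none)

def k0_mm_202_aa : ∃ t, chk3 f_mm_202_aa t 1 1 1 = true :=
  ⟨(l 3), by decide +kernel⟩

theorem c_mm_202_aa : CertB 0 536870912 0 536870912 649613803 48318383 3 eng mog cd2q2a cd1q2a pd0 false false false .pp 2 0 2
    ndB2q2a ndB1q2a pcB0 Cut.none Ext.none :=
  certB0 (fam := false) (s1 := false) (s2 := false) (a := 2) (b := 0) (c := 2) (cn := .pp) (n1 := ndB2q2a) (n2 := ndB1q2a) (pc := pcB0) (cut := Cut.none) (xt := Ext.none) (P1 := 0) (W1 := 536870912) (P2 := 0) (W2 := 536870912) (P3 := 649613803) (W3 := 48318383) (N0 := 3) (En := eng) (mo := mog) (C1 := cd2q2a) (C2 := cd1q2a) (C3 := pd0)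
    rfl k0_mm_202_aa

noncomputable def f_mm_202_ab : ℕ → ℕ → ℕ → ℕ → Bool := onCell 0 536870912 1239849684 370763052 649613803 48318383
    (rowB 3 eng mog cd2q2a cd1q2b pd0 0 false false false .pp 2 0 2 (qsf 0 536870912 1239849684 370763052 0) ndB2q2a ndB1q2b pcB0 Cut.none Ext.none)

def k0_mm_202_ab : ∃ t, chk3 f_mm_202_ab t 1 1 1 = true :=
  ⟨(l 3), by decide +kernel⟩

theorem c_mm_202_ab : CertB 0 536870912 1239849684 370763052 649613803 48318383 3 eng mog cd2q2a cd1q2b pd0 false false false .pp 2 0 2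
    ndB2q2a ndB1q2b pcB0 Cut.none Ext.none :=
  certB0 (fam := false) (s1 := false) (s2 := false) (a := 2) (b := 0) (c := 2) (cn := .pp) (n1 := ndB2q2a) (n2 := ndB1q2b) (pc := pcB0) (cut := Cut.none) (xt := Ext.none) (P1 := 0) (W1 := 536870912) (P2 := 1239849684) (W2 := 370763052) (P3 := 649613803) (W3 := 48318383) (N0 := 3) (En := eng) (mo := mog) (C1 := cd2q2a) (C2 := cd1q2b) (C3 := pd0)
    rfl k0_mm_202_ab

noncomputable def f_mm_202_ba : ℕ → ℕ → ℕ → ℕ → Bool := onCell 1239849684 370763052 0 536870912 649613803 48318383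
    (rowB 3 eng mog cd2q2b cd1q2a pd0 0 false false false .pp 2 0 2 (qsf 1239849684 370763052 0 536870912 0) ndB2q2b ndB1q2a pcB0 Cut.none Ext.none)

def k0_mm_202_ba : ∃ t, chk3 f_mm_202_ba t 1 1 1 = true :=
  ⟨(l 3), by decide +kernel⟩

theorem c_mm_202_ba : CertB 1239849684 370763052 0 536870912 649613803 48318383 3 eng mog cd2q2b cd1q2a pd0 false false false .pp 2 0 2
    ndB2q2b ndB1q2a pcB0 Cut.none Ext.none :=
  certB0 (fam := false) (s1 := false) (s2 := false) (a := 2) (b := 0) (c := 2) (cn := .pp) (n1 := ndB2q2b) (n2 := ndB1q2a) (pc := pcB0) (cut := Cut.none) (xt := Ext.none) (P1 := 1239849684) (W1 := 370763052) (P2 := 0) (W2 := 536870912) (P3 := 649613803) (W3 := 48318383) (N0 := 3) (En := eng) (mo := mog) (C1 := cd2q2b) (C2 := cd1q2a) (C3 := pd0)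
    rfl k0_mm_202_ba

noncomputable def f_mm_202_bb : ℕ → ℕ → ℕ → ℕ → Bool := onCell 1239849684 370763052 1239849684 370763052 649613803 48318383
    (rowB 3 eng mog cd2q2b cd1q2b pd0 0 false false false .pp 2 0 2 (qsf 1239849684 370763052 1239849684 370763052 0) ndB2q2b ndB1q2b pcB0 Cut.none Ext.none)

def k0_mm_202_bb : ∃ t, chk3 f_mm_202_bb t 1 1 1 = true :=
  ⟨(l 3), by decide +kernel⟩

theorem c_mm_202_bb : CertB 1239849684 370763052 1239849684 370763052 649613803 48318383 3 eng mog cd2q2b cd1q2b pd0 false false false .pp 2 0 2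
    ndB2q2b ndB1q2b pcB0 Cut.none Ext.none :=
  certB0 (fam := false) (s1 := false) (s2 := false) (a := 2) (b := 0) (c := 2) (cn := .pp) (n1 := ndB2q2b) (n2 := ndB1q2b) (pc := pcB0) (cut := Cut.none) (xt := Ext.none) (P1 := 1239849684) (W1 := 370763052) (P2 := 1239849684) (W2 := 370763052) (P3 := 649613803) (W3 := 48318383) (N0 := 3) (En := eng) (mo := mog) (C1 := cd2q2b) (C2 := cd1q2b) (C3 := pd0)
    rfl k0_mm_202_bb

noncomputable def f_mm_203_a : ℕ → ℕ → ℕ → ℕ → Bool := onCell 0 536870912 1610612736 536870912 649613803 48318383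
    (rowB 3 eng mog cd2q2a cd1q3 pd0 0 false false false .up 2 0 3 (qsf 0 536870912 1610612736 536870912 0) ndB2q2a ndB1q3 pcB0 Cut.none Ext.none)

def k0_mm_203_a : ∃ t, chk3 f_mm_203_a t 1 1 1 = true :=
  ⟨(l 5), by decide +kernel⟩

theorem c_mm_203_a : CertB 0 536870912 1610612736 536870912 649613803 48318383 3 eng mog cd2q2a cd1q3 pd0 false false false .up 2 0 3
    ndB2q2a ndB1q3 pcB0 Cut.none Ext.none :=
  certB0 (fam := false) (s1 := false) (s2 := false) (a := 2) (b := 0) (c := 3) (cn := .up) (n1 := ndB2q2a) (n2 := ndB1q3) (pc := pcB0) (cut := Cut.none) (xt := Ext.none) (P1 := 0) (W1 := 536870912) (P2 := 1610612736) (W2 := 536870912) (P3 := 649613803) (W3 := 48318383) (N0 := 3) (En := eng) (mo := mog) (C1 := cd2q2a) (C2 := cd1q3) (C3 := pd0)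
    rfl k0_mm_203_a

noncomputable def f_mm_203_b : ℕ → ℕ → ℕ → ℕ → Bool := onCell 1239849684 370763052 1610612736 536870912 649613803 48318383
    (rowB 3 eng mog cd2q2b cd1q3 pd0 0 false false false .up 2 0 3 (qsf 1239849684 370763052 1610612736 536870912 0) ndB2q2b ndB1q3 pcB0 Cut.none Ext.none)

def k0_mm_203_b : ∃ t, chk3 f_mm_203_b t 1 1 1 = true :=
  ⟨(l 3), by decide +kernel⟩

theorem c_mm_203_b : CertB 1239849684 370763052 1610612736 536870912 649613803 48318383 3 eng mog cd2q2b cd1q3 pd0 false false false .up 2 0 3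
    ndB2q2b ndB1q3 pcB0 Cut.none Ext.none :=
  certB0 (fam := false) (s1 := false) (s2 := false) (a := 2) (b := 0) (c := 3) (cn := .up) (n1 := ndB2q2b) (n2 := ndB1q3) (pc := pcB0) (cut := Cut.none) (xt := Ext.none) (P1 := 1239849684) (W1 := 370763052) (P2 := 1610612736) (W2 := 536870912) (P3 := 649613803) (W3 := 48318383) (N0 := 3) (En := eng) (mo := mog) (C1 := cd2q2b) (C2 := cd1q3) (C3 := pd0)
    rfl k0_mm_203_b

noncomputable def f_mm_213_a : ℕ → ℕ → ℕ → ℕ → Bool := onCell 0 536870912 1610612736 536870912 649613803 48318383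
    (rowB 3 eng mog cd2q2a cd1q3 pd1 0 false false false .pnn 2 1 3 (qsf 0 536870912 1610612736 536870912 1) ndB2q2a ndB1q3 pcB1 Cut.none Ext.none)

def k0_mm_213_a : ∃ t, chk3 f_mm_213_a t 1 1 1 = true :=
  ⟨(l 5), by decide +kernel⟩

theorem c_mm_213_a : CertB 0 536870912 1610612736 536870912 649613803 48318383 3 eng mog cd2q2a cd1q3 pd1 false false false .pnn 2 1 3
    ndB2q2a ndB1q3 pcB1 Cut.none Ext.none :=
  certB0 (fam := false) (s1 := false) (s2 := false) (a := 2) (b := 1) (c := 3) (cn := .pnn) (n1 := ndB2q2a) (n2 := ndB1q3) (pc := pcB1) (cut := Cut.none) (xt := Ext.none) (P1 := 0) (W1 := 536870912) (P2 := 1610612736) (W2 := 536870912) (P3 := 649613803) (W3 := 48318383) (N0 := 3) (En := eng) (mo := mog) (C1 := cd2q2a) (C2 := cd1q3) (C3 := pd1)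
    rfl k0_mm_213_a

noncomputable def f_mm_213_b : ℕ → ℕ → ℕ → ℕ → Bool := onCell 1239849684 370763052 1610612736 536870912 649613803 48318383
    (rowB 3 eng mog cd2q2b cd1q3 pd1 0 false false false .pnn 2 1 3 (qsf 1239849684 370763052 1610612736 536870912 1) ndB2q2b ndB1q3 pcB1 Cut.none Ext.none)

def k0_mm_213_b : ∃ t, chk3 f_mm_213_b t 1 1 1 = true :=
  ⟨(l 3), by decide +kernel⟩

theorem c_mm_213_b : CertB 1239849684 370763052 1610612736 536870912 649613803 48318383 3 eng mog cd2q2b cd1q3 pd1 false false false .pnn 2 1 3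
    ndB2q2b ndB1q3 pcB1 Cut.none Ext.none :=
  certB0 (fam := false) (s1 := false) (s2 := false) (a := 2) (b := 1) (c := 3) (cn := .pnn) (n1 := ndB2q2b) (n2 := ndB1q3) (pc := pcB1) (cut := Cut.none) (xt := Ext.none) (P1 := 1239849684) (W1 := 370763052) (P2 := 1610612736) (W2 := 536870912) (P3 := 649613803) (W3 := 48318383) (N0 := 3) (En := eng) (mo := mog) (C1 := cd2q2b) (C2 := cd1q3) (C3 := pd1)
    rfl k0_mm_213_b

noncomputable def f_mm_303 : ℕ → ℕ → ℕ → ℕ → Bool := onCell 1610612736 536870912 1610612736 536870912 649613803 48318383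
    (rowB 3 eng mog cd2q3 cd1q3 pd0 0 false false false .npn 3 0 3 (qsf 1610612736 536870912 1610612736 536870912 0) ndB2q3 ndB1q3 pcB0 Cut.none Ext.none)

def k0_mm_303 : ∃ t, chk3 f_mm_303 t 1 1 1 = true :=
  ⟨(l 3), by decide +kernel⟩

theorem c_mm_303 : CertB 1610612736 536870912 1610612736 536870912 649613803 48318383 3 eng mog cd2q3 cd1q3 pd0 false false false .npn 3 0 3
    ndB2q3 ndB1q3 pcB0 Cut.none Ext.none :=
  certB0 (fam := false) (s1 := false) (s2 := false) (a := 3) (b := 0) (c := 3) (cn := .npn) (n1 := ndB2q3) (n2 := ndB1q3) (pc := pcB0) (cut := Cut.none) (xt := Ext.none) (P1 := 1610612736) (W1 := 536870912) (P2 := 1610612736) (W2 := 536870912) (P3 := 649613803) (W3 := 48318383) (N0 := 3) (En := eng) (mo := mog) (C1 := cd2q3) (C2 := cd1q3) (C3 := pd0)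
    rfl k0_mm_303

noncomputable def f_mm_313 : ℕ → ℕ → ℕ → ℕ → Bool := onCell 1610612736 536870912 1610612736 536870912 649613803 48318383
    (rowB 3 eng mog cd2q3 cd1q3 pd1 0 false false false .dn 3 1 3 (qsf 1610612736 536870912 1610612736 536870912 1) ndB2q3 ndB1q3 pcB1 Cut.none Ext.none)

def k0_mm_313 : ∃ t, chk3 f_mm_313 t 1 1 1 = true :=
  ⟨(l 3), by decide +kernel⟩

theorem c_mm_313 : CertB 1610612736 536870912 1610612736 536870912 649613803 48318383 3 eng mog cd2q3 cd1q3 pd1 false false false .dn 3 1 3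
    ndB2q3 ndB1q3 pcB1 Cut.none Ext.none :=
  certB0 (fam := false) (s1 := false) (s2 := false) (a := 3) (b := 1) (c := 3) (cn := .dn) (n1 := ndB2q3) (n2 := ndB1q3) (pc := pcB1) (cut := Cut.none) (xt := Ext.none) (P1 := 1610612736) (W1 := 536870912) (P2 := 1610612736) (W2 := 536870912) (P3 := 649613803) (W3 := 48318383) (N0 := 3) (En := eng) (mo := mog) (C1 := cd2q3) (C2 := cd1q3) (C3 := pd1)
    rfl k0_mm_313

end Pool.Agent.Strip051.G.I6050_6500.Tab.C.BB21

namespace Pool.Agent.Strip051.G.I6050_6500.Tab.C.BB22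

open Pool.Agent.Strip051.PB Pool.Agent.Strip051.PB.T
open Pool.Agent.Strip051.G.I6050_6500.Tab

noncomputable def f_pp_001 : ℕ → ℕ → ℕ → ℕ → Bool := onCell 0 536870912 536870912 536870912 649613803 48318383
    (rowB 3 eng mog cd2q0 cd2q1 pd0 0 false true true .up 0 0 1 (qsf 0 536870912 536870912 536870912 0) ndB2q0 ndB2q1 pcB0 Cut.none Ext.none)

def k0_pp_001 : ∃ t, chk3 f_pp_001 t 1 1 1 = true :=
  ⟨(l 3), by decide +kernel⟩

theorem c_pp_001 : CertB 0 536870912 536870912 536870912 649613803 48318383 3 eng mog cd2q0 cd2q1 pd0 false true true .up 0 0 1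
    ndB2q0 ndB2q1 pcB0 Cut.none Ext.none :=
  certB0 (fam := false) (s1 := true) (s2 := true) (a := 0) (b := 0) (c := 1) (cn := .up) (n1 := ndB2q0) (n2 := ndB2q1) (pc := pcB0) (cut := Cut.none) (xt := Ext.none) (P1 := 0) (W1 := 536870912) (P2 := 536870912) (W2 := 536870912) (P3 := 649613803) (W3 := 48318383) (N0 := 3) (En := eng) (mo := mog) (C1 := cd2q0) (C2 := cd2q1) (C3 := pd0)
    rfl k0_pp_001

noncomputable def f_pp_011 : ℕ → ℕ → ℕ → ℕ → Bool := onCell 0 536870912 536870912 536870912 649613803 48318383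
    (rowB 3 eng mog cd2q0 cd2q1 pd1 0 false true true .pnn 0 1 1 (qsf 0 536870912 536870912 536870912 1) ndB2q0 ndB2q1 pcB1 Cut.none Ext.none)

def k0_pp_011 : ∃ t, chk3 f_pp_011 t 1 1 1 = true :=
  ⟨(l 3), by decide +kernel⟩

theorem c_pp_011 : CertB 0 536870912 536870912 536870912 649613803 48318383 3 eng mog cd2q0 cd2q1 pd1 false true true .pnn 0 1 1
    ndB2q0 ndB2q1 pcB1 Cut.none Ext.none :=
  certB0 (fam := false) (s1 := true) (s2 := true) (a := 0) (b := 1) (c := 1) (cn := .pnn) (n1 := ndB2q0) (n2 := ndB2q1) (pc := pcB1) (cut := Cut.none) (xt := Ext.none) (P1 := 0) (W1 := 536870912) (P2 := 536870912) (W2 := 536870912) (P3 := 649613803) (W3 := 48318383) (N0 := 3) (En := eng) (mo := mog) (C1 := cd2q0) (C2 := cd2q1) (C3 := pd1)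
    rfl k0_pp_011

noncomputable def cut_pp_012_a : Cut := Cut.of [[⟨0, 0, 0, 53687091⟩, ⟨1, 1, 0, 53687091⟩, ⟨2, 1, 0, 53687091⟩]]

noncomputable def f_pp_012_a : ℕ → ℕ → ℕ → ℕ → Bool := onCell 536870912 536870912 0 536870912 649613803 48318383
    (rowB 3 eng mog cd2q0 cd2q2a pd1 2 false true true .pnp 0 1 2 (qsf 0 536870912 0 536870912 1) ndB2q0 ndB2q2a pcB1 cut_pp_012_a Ext.none)

def k0_pp_012_a : ∃ t, chk3 f_pp_012_a t 1 2 1 = true :=
  ⟨(b (a (a (l 2) (a (a (a (l 2) (b (b (l 16726944) (l 16721920)) (b (l 16704728) (l 169818853463)))) (b (b (l 16724656) (a (l 16726528) (l 16727720))) (b (a (l 16718440) (l 16726088)) (a (l 16692152) (l 16712520))))) (b (l 16714256) (a (b (a (l 16729456) (l 16729120)) (a (l 16725400) (l 16731512))) (b (l 16722888) (l 16753336)))))) (a (a (a (l 16745360) (b (l 16669816) (l 16697240))) (a (b (l 16689992) (l 16673584)) (b (l 16624344) (l 16648312)))) (a (a (b (l 16601208) (l 16624024)) (b (l 16580536) (l 16601512)))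 (a (l 16573616) (l 16623992))))) (a (a (l 3) (a (a (l 3) (b (b (a (l 192904251623) (l 16702360)) (l 3)) (l 3))) (b (a (b (a (l 16699928) (l 16721024)) (l 144585949415)) (b (a (l 16733784) (l 16737336)) (a (l 16716024) (l 16727432)))) (a (l 3) (b (a (l 16728264) (l 16731016)) (l 3)))))) (a (a (a (b (b (l 16734648) (a (l 16740864) (l 16742032))) (b (a (l 16729584) (l 16736064)) (a (l 16748048) (l 16744128)))) (a (b (l 16732216) (a (l 16734656) (l 16745608))) (b (l 16722520) (l 16791016)))) (b (a (l 16703448) (l 16677072)) (b (a (l 16729608) (l 16702672)) (a (l 16745128) (l 16721784))))) (a (a (b (l 16672384) (b (l 16675976) (l 16694352))) (b (l 16628208) (l 16660088))) (a (b (l 16608240) (l 16638720)) (b (l 16589064) (a (l 16622904) (l 16607928)))))))), by decide +kernel⟩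

def k1_pp_012_a : ∃ t, chk3 f_pp_012_a t 2 3 1 = true :=
  ⟨(l 3), by decide +kernel⟩

def k2_pp_012_a : ∃ t, chk3 f_pp_012_a t 3 3 1 = true :=
  ⟨(b (a (a (b (a (l 3) (b (a (l 16759000) (l 16749784)) (l 221895414935))) (l 3)) (b (b (a (a (l 16742664) (l 16751904)) (l 16739992)) (a (a (l 128480007255) (l 16769792)) (a (l 16751672) (l 16750504)))) (a (b (a (l 3) (l 256255185383)) (l 3)) (b (a (l 187535811079) (l 16770296)) (a (l 3) (l 241222794103)))))) (a (b (a (b (l 16714088) (a (l 16739912) (l 16726968))) (a (l 16724648) (l 16691088))) (a (a (b (l 16755248) (b (l 16752688) (l 185925155271))) (b (l 16746264) (l 16778488))) (b (a (l 16734288) (l 16679368)) (a (l 16754224) (l 16721680))))) (a (b (l 16673976) (b (l 16703616) (a (l 16730688) (l 16717504)))) (a (b (l 16655544) (l 16737048)) (b (l 16640224) (b (l 16669552) (l 16690680))))))) (a (l 3) (a (b (a (b (a (l 3) (b (l 151565412375) (l 238538461559))) (l 3)) (b (a (a (l 146733591639) (l 16794664))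 (b (l 16758936) (l 16768288))) (a (b (l 197199416087) (l 3)) (b (l 106468256215) (l 221895487815))))) (l 3)) (b (a (b (a (l 16751880) (l 16737224)) (a (b (l 16725680) (a (l 180556347799) (l 16771264))) (a (b (l 16756072) (l 16766856)) (l 16722320)))) (b (a (b (l 16717112) (l 16726584)) (b (l 16703096) (l 16711472))) (b (a (l 16715736) (a (l 16725376) (l 16697200))) (a (a (l 16751400) (l 16743744)) (a (l 16736160) (l 16728696)))))) (a (b (a (b (b (l 113984455271) (l 233706647271)) (l 3)) (a (b (b (l 16772176) (l 217063581943)) (l 217063644583)) (b (l 16791048) (b (l 186998809879) (l 138143630167))))) (l 3)) (b (a (a (b (l 16762504) (b (l 16771008) (a (l 16798408) (l 16773744)))) (b (l 16754824) (b (l 16763424) (l 6)))) (a (b (l 16726224) (l 6)) (l 6))) (a (a (a (a (l 3) (l 6)) (l 6)) (l 6)) (l 6)))))))), by decide +kernel⟩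

theorem s3_pp_012_a : ∃ t, chk3 f_pp_012_a t 1 3 1 = true := ex3_a k1_pp_012_a k2_pp_012_a

theorem s4_pp_012_a : ∃ t, chk3 f_pp_012_a t 1 1 1 = true := ex3_b k0_pp_012_a s3_pp_012_a

theorem c_pp_012_a : CertB 0 536870912 0 536870912 649613803 48318383 3 eng mog cd2q0 cd2q2a pd1 false true true .pnp 0 1 2
    ndB2q0 ndB2q2a pcB1 cut_pp_012_a Ext.none :=
  certB2 (fam := false) (s1 := true) (s2 := true) (a := 0) (b := 1) (c := 2) (cn := .pnp) (n1 := ndB2q0) (n2 := ndB2q2a) (pc := pcB1) (cut := cut_pp_012_a) (xt := Ext.none) (P1 := 0) (W1 := 536870912) (P2 := 0) (W2 := 536870912) (P3 := 649613803) (W3 := 48318383) (N0 := 3) (En := eng) (mo := mog) (C1 := cd2q0) (C2 := cd2q2a) (C3 := pd1)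
    rfl (fun _ => rfl) s4_pp_012_a

noncomputable def cut_pp_012_b : Cut := Cut.of [[⟨0, 0, 0, 53687091⟩, ⟨1, 1, 0, 53687091⟩, ⟨2, 1, 0, 53687091⟩]]

noncomputable def f_pp_012_b : ℕ → ℕ → ℕ → ℕ → Bool := onCell 536870912 536870912 1239849684 370763052 649613803 48318383
    (rowB 3 eng mog cd2q0 cd2q2b pd1 2 false true true .pnp 0 1 2 (qsf 0 536870912 1239849684 370763052 1) ndB2q0 ndB2q2b pcB1 cut_pp_012_b Ext.none)

def k0_pp_012_b : ∃ t, chk3 f_pp_012_b t 1 1 1 = true :=
  ⟨(a (a (l 2) (b (a (b (a (b (l 16724168) (l 2)) (l 16791640)) (l 2)) (b (b (l 16691488) (l 16671184)) (l 16655768))) (l 2))) (a (b (a (b (b (a (l 16661128) (l 16638352)) (l 16619888)) (l 16634840)) (b (b (a (l 16613592) (l 16588168)) (l 16582184)) (l 16710344))) (a (l 2) (b (l 16507584) (l 2)))) (b (a (b (b (a (l 16563608) (l 16541184)) (l 16501720)) (b (l 16462352) (l 16434936))) (b (a (b (l 16522280) (l 16462384)) (b (l 16508360) (l 16441512))) (b (l 16399528) (l 16360416))))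 (b (a (l 16415840) (l 16325976)) (a (l 16430536) (l 16324536)))))), by decide +kernel⟩

theorem c_pp_012_b : CertB 0 536870912 1239849684 370763052 649613803 48318383 3 eng mog cd2q0 cd2q2b pd1 false true true .pnp 0 1 2
    ndB2q0 ndB2q2b pcB1 cut_pp_012_b Ext.none :=
  certB2 (fam := false) (s1 := true) (s2 := true) (a := 0) (b := 1) (c := 2) (cn := .pnp) (n1 := ndB2q0) (n2 := ndB2q2b) (pc := pcB1) (cut := cut_pp_012_b) (xt := Ext.none) (P1 := 0) (W1 := 536870912) (P2 := 1239849684) (W2 := 370763052) (P3 := 649613803) (W3 := 48318383) (N0 := 3) (En := eng) (mo := mog) (C1 := cd2q0) (C2 := cd2q2b) (C3 := pd1)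
    rfl (fun _ => rfl) k0_pp_012_b

noncomputable def cut_pp_022_a : Cut := Cut.of [[⟨0, 0, 0, 67108864⟩, ⟨1, 1, 0, 67108864⟩, ⟨2, 1, 0, 67108864⟩]]

noncomputable def f_pp_022_a : ℕ → ℕ → ℕ → ℕ → Bool := onCell 0 536870912 0 536870912 649613803 48318383
    (rowB 3 eng mog cd2q0 cd2q2a pd2 0 false true true .pp 0 2 2 (qsf 0 536870912 0 536870912 2) ndB2q0 ndB2q2a pcB2 cut_pp_022_a Ext.none)

def k0_pp_022_a : ∃ t, chk3 f_pp_022_a t 4 2 1 = true :=
  ⟨(b (a (a (a (b (b (l 16475872) (l 16458520)) (c (l 16466440) (b (l 16456304) (l 16460128)))) (b (l 16528064) (c (l 16474912) (l 16468016)))) (b (c (l 16477304) (l 16473440)) (a (c (l 16483648) (l 16477776)) (l 16511544)))) (a (b (l 16512936) (c (l 16506760) (l 16502488))) (b (l 16509872) (c (l 16526576) (l 16522672))))) (a (a (a (b (c (b (l 16475912) (l 16486328)) (b (l 16466224) (l 16476008))) (b (c (b (l 16496136) (l 16503072)) (l 16509896)) (c (l 16514296) (l 16503192)))) (b (c (l 16491992) (b (l 16477808)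 (l 16488872))) (b (c (l 16575248) (l 16503272)) (l 16524392)))) (a (b (b (l 16493272) (l 16505672)) (b (c (l 16524688) (l 16517168)) (l 16538968))) (b (b (l 16504000) (l 16517344)) (b (l 16534112) (l 16552984))))) (a (b (c (l 16576520) (b (l 16475416) (l 16531896))) (b (a (l 16546456) (l 16558424)) (l 16572992))) (b (b (l 16562312) (l 16619728)) (b (b (l 16570608) (l 16601928)) (l 16596400)))))), by decide +kernel⟩

def k1_pp_022_a : ∃ t, chk3 f_pp_022_a t 4 3 1 = true :=
  ⟨(b (a (a (b (b (a (c (l 16531832) (l 16520640)) (l 16543416)) (a (c (l 16552800) (l 16562888)) (l 16587024))) (a (b (c (l 16598552) (a (l 16562072) (l 16572784))) (a (b (l 16589040) (l 16604640)) (b (l 16599832) (l 16615840)))) (b (b (l 16585520) (l 16599936)) (b (l 16636456) (a (l 16626728) (l 16637296)))))) (b (b (a (l 16559432) (l 16574736)) (a (l 16583496) (l 16600080))) (b (a (a (l 16627904) (l 16616096)) (l 16629384)) (a (b (l 16635360) (l 16652600)) (l 16663000))))) (b (b (a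 (l 16596408) (l 16617064)) (a (l 16623384) (l 134251057735))) (a (b (l 17750131479) (a (l 95596400295) (l 452078644791))) (b (l 407518355527) (l 1))))) (a (b (b (b (a (a (a (l 16642536) (l 16633152)) (c (l 16652488) (l 16667872))) (a (l 16671128) (l 16682736))) (a (b (a (a (l 16635184) (l 16647040)) (a (l 16658568) (l 16669776))) (l 6)) (a (l 16689936) (a (l 16693800) (l 16654120))))) (a (l 6) (a (l 6) (a (l 6) (a (l 6) (l 1)))))) (a (l 6) (a (l 6) (l 1)))) (b (a (b (a (b (l 151967730247) (l 413960871239)) (l 1)) (l 1)) (l 1)) (l 1)))), by decide +kernel⟩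

def k2_pp_022_a : ∃ t, chk3 f_pp_022_a t 5 1 1 = true :=
  ⟨(b (a (a (b (b (l 16533600) (c (l 16550688) (l 16547928))) (b (c (l 16646280) (l 16636560)) (b (a (l 16628528) (l 1)) (l 264173719879)))) (b (b (l 1) (l 1)) (l 1))) (l 1)) (b (l 1) (l 1))), by decide +kernel⟩

def k3_pp_022_a : ∃ t, chk3 f_pp_022_a t 3 1 1 = true :=
  ⟨(l 1), by decide +kernel⟩

theorem s4_pp_022_a : ∃ t, chk3 f_pp_022_a t 4 1 1 = true := ex3_b k0_pp_022_a k1_pp_022_a

theorem s5_pp_022_a : ∃ t, chk3 f_pp_022_a t 2 1 1 = true := ex3_a s4_pp_022_a k2_pp_022_a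

theorem s6_pp_022_a : ∃ t, chk3 f_pp_022_a t 1 1 1 = true := ex3_a s5_pp_022_a k3_pp_022_a

theorem c_pp_022_a : CertB 0 536870912 0 536870912 649613803 48318383 3 eng mog cd2q0 cd2q2a pd2 false true true .pp 0 2 2
    ndB2q0 ndB2q2a pcB2 cut_pp_022_a Ext.none :=
  certB0 (fam := false) (s1 := true) (s2 := true) (a := 0) (b := 2) (c := 2) (cn := .pp) (n1 := ndB2q0) (n2 := ndB2q2a) (pc := pcB2) (cut := cut_pp_022_a) (xt := Ext.none) (P1 := 0) (W1 := 536870912) (P2 := 0) (W2 := 536870912) (P3 := 649613803) (W3 := 48318383) (N0 := 3) (En := eng) (mo := mog) (C1 := cd2q0) (C2 := cd2q2a) (C3 := pd2)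
    rfl s6_pp_022_a

noncomputable def cut_pp_022_b : Cut := Cut.of [[⟨0, 0, 0, 67108864⟩, ⟨1, 1, 0, 67108864⟩, ⟨2, 1, 0, 67108864⟩]]

noncomputable def f_pp_022_b : ℕ → ℕ → ℕ → ℕ → Bool := onCell 0 536870912 1073741824 536870912 649613803 48318383
    (rowB 3 eng mog cd2q0 cd2q2b pd2 1 false true true .pp 0 2 2 (qsf 0 536870912 1239849684 370763052 2) ndB2q0 ndB2q2b pcB2 cut_pp_022_b Ext.none)

def k0_pp_022_b : ∃ t, chk3 f_pp_022_b t 1 1 1 = true :=
  ⟨(b (a (b (a (b (a (l 1) (a (b (l 1) (l 292627714791)) (b (l 326450575463) (l 206191448231)))) (a (a (b (l 1) (b (l 1) (l 213170881543))) (b (l 253973056583) (b (l 209949601703) (l 16452848)))) (b (a (l 145525076631) (l 16437840)) (l 16516144)))) (b (a (a (b (l 188474779335) (l 16460552)) (l 16550888)) (l 16524016)) (a (l 16496768) (l 16252816)))) (a (b (a (b (a (a (b (l 185253584695) (l 16554336)) (l 16565440)) (l 16482328)) (b (c (a (b (l 16428480) (l 16495416)) (l 16366408)) (l 16501160)) (a (l 16456600)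 (l 16319168)))) (b (l 16423704) (b (l 16309240) (l 16242416)))) (a (a (b (b (l 16339856) (l 16306928)) (l 16263176)) (l 16316296)) (l 16378896))) (b (b (a (l 16229424) (l 16166384)) (a (l 16172400) (l 16139632))) (a (l 16115656) (l 16087816))))) (b (a (b (a (l 16390408) (l 16263104)) (l 16313112)) (b (l 16248464) (l 16190224))) (b (a (b (l 16121672) (l 16131120)) (l 16205064)) (a (l 16095480) (l 2))))) (b (a (a (b (a (b (l 16266552) (l 16170744)) (l 16142504)) (a (b (a (l 16151176) (l 16143144)) (l 16136616)) (l 16148704))) (b (l 16113416) (l 16107552))) (a (b (l 16078872) (l 2)) (l 2))) (a (a (a (b (a (l 16134304) (l 16140784)) (l 16166312)) (b (l 16147944) (l 16190080))) (b (l 16169280) (l 2))) (l 2)))), by decide +kernel⟩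

theorem c_pp_022_b : CertB 0 536870912 1239849684 370763052 649613803 48318383 3 eng mog cd2q0 cd2q2b pd2 false true true .pp 0 2 2
    ndB2q0 ndB2q2b pcB2 cut_pp_022_b Ext.none :=
  certB1 (fam := false) (s1 := true) (s2 := true) (a := 0) (b := 2) (c := 2) (cn := .pp) (n1 := ndB2q0) (n2 := ndB2q2b) (pc := pcB2) (cut := cut_pp_022_b) (xt := Ext.none) (P1 := 0) (W1 := 536870912) (P2 := 1239849684) (W2 := 370763052) (P3 := 649613803) (W3 := 48318383) (N0 := 3) (En := eng) (mo := mog) (C1 := cd2q0) (C2 := cd2q2b) (C3 := pd2)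
    rfl (fun _ => rfl) k0_pp_022_b

noncomputable def f_pp_023 : ℕ → ℕ → ℕ → ℕ → Bool := onCell 0 536870912 1073741824 536870912 649613803 48318383
    (rowB 3 eng mog cd2q0 cd2q3 pd2 1 false true true .up 0 2 3 (qsf 0 536870912 1610612736 536870912 2) ndB2q0 ndB2q3 pcB2 Cut.none Ext.none)

def k0_pp_023 : ∃ t, chk3 f_pp_023 t 1 1 1 = true :=
  ⟨(b (a (b (l 1) (a (l 1) (b (l 1) (l 342019492839)))) (b (a (b (l 1) (l 16363264)) (l 166462987319)) (b (a (l 195990755255) (l 16188608)) (a (l 16126120) (l 16241128))))) (b (a (a (b (l 1) (l 495564609063)) (b (l 16169296) (l 16086784))) (a (b (l 16135184) (l 16115928)) (b (l 16327752) (l 16435424)))) (a (a (b (l 420402670407) (l 464962988263)) (b (l 16112904) (l 16158968))) (a (b (l 16290400) (l 16416128)) (l 16558120))))), by decide +kernel⟩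

theorem c_pp_023 : CertB 0 536870912 1610612736 536870912 649613803 48318383 3 eng mog cd2q0 cd2q3 pd2 false true true .up 0 2 3
    ndB2q0 ndB2q3 pcB2 Cut.none Ext.none :=
  certB1 (fam := false) (s1 := true) (s2 := true) (a := 0) (b := 2) (c := 3) (cn := .up) (n1 := ndB2q0) (n2 := ndB2q3) (pc := pcB2) (cut := Cut.none) (xt := Ext.none) (P1 := 0) (W1 := 536870912) (P2 := 1610612736) (W2 := 536870912) (P3 := 649613803) (W3 := 48318383) (N0 := 3) (En := eng) (mo := mog) (C1 := cd2q0) (C2 := cd2q3) (C3 := pd2)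
    rfl (fun _ => rfl) k0_pp_023

noncomputable def f_pp_033 : ℕ → ℕ → ℕ → ℕ → Bool := onCell 0 536870912 1610612736 536870912 649613803 48318383
    (rowB 3 eng mog cd2q0 cd2q3 pd3 1 false true true .pnn 0 3 3 (qsf 0 536870912 1610612736 536870912 3) ndB2q0 ndB2q3 pcB3 Cut.none Ext.none)

def k0_pp_033 : ∃ t, chk3 f_pp_033 t 1 1 1 = true :=
  ⟨(a (b (b (b (a (a (l 16099664) (l 16115800)) (l 16254656)) (a (l 16128440) (l 16321024))) (b (a (l 16199048) (l 16385880)) (a (l 16279992) (l 4)))) (a (l 4) (b (l 4) (a (b (l 4) (l 2)) (l 2))))) (b (b (b (l 16560464) (a (l 16517928) (l 16657288))) (a (b (l 16564480) (l 4)) (a (b (l 4) (l 2)) (l 2)))) (a (b (a (b (l 4) (l 2)) (l 2)) (l 2)) (l 2)))), by decide +kernel⟩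

theorem c_pp_033 : CertB 0 536870912 1610612736 536870912 649613803 48318383 3 eng mog cd2q0 cd2q3 pd3 false true true .pnn 0 3 3
    ndB2q0 ndB2q3 pcB3 Cut.none Ext.none :=
  certB1 (fam := false) (s1 := true) (s2 := true) (a := 0) (b := 3) (c := 3) (cn := .pnn) (n1 := ndB2q0) (n2 := ndB2q3) (pc := pcB3) (cut := Cut.none) (xt := Ext.none) (P1 := 0) (W1 := 536870912) (P2 := 1610612736) (W2 := 536870912) (P3 := 649613803) (W3 := 48318383) (N0 := 3) (En := eng) (mo := mog) (C1 := cd2q0) (C2 := cd2q3) (C3 := pd3)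
    rfl (fun _ => rfl) k0_pp_033

noncomputable def f_pp_101 : ℕ → ℕ → ℕ → ℕ → Bool := onCell 536870912 536870912 536870912 536870912 649613803 48318383
    (rowB 3 eng mog cd2q1 cd2q1 pd0 0 false true true .npn 1 0 1 (qsf 536870912 536870912 536870912 536870912 0) ndB2q1 ndB2q1 pcB0 Cut.none Ext.none)

def k0_pp_101 : ∃ t, chk3 f_pp_101 t 1 1 1 = true :=
  ⟨(l 3), by decide +kernel⟩

theorem c_pp_101 : CertB 536870912 536870912 536870912 536870912 649613803 48318383 3 eng mog cd2q1 cd2q1 pd0 false true true .npn 1 0 1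
    ndB2q1 ndB2q1 pcB0 Cut.none Ext.none :=
  certB0 (fam := false) (s1 := true) (s2 := true) (a := 1) (b := 0) (c := 1) (cn := .npn) (n1 := ndB2q1) (n2 := ndB2q1) (pc := pcB0) (cut := Cut.none) (xt := Ext.none) (P1 := 536870912) (W1 := 536870912) (P2 := 536870912) (W2 := 536870912) (P3 := 649613803) (W3 := 48318383) (N0 := 3) (En := eng) (mo := mog) (C1 := cd2q1) (C2 := cd2q1) (C3 := pd0)
    rfl k0_pp_101

noncomputable def f_pp_102_a : ℕ → ℕ → ℕ → ℕ → Bool := onCell 0 536870912 0 536870912 649613803 48318383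
    (rowB 3 eng mog cd2q1 cd2q2a pd0 2 false true true .npp 1 0 2 (qsf 536870912 536870912 0 536870912 0) ndB2q1 ndB2q2a pcB0 Cut.none Ext.none)

def k0_pp_102_a : ∃ t, chk3 f_pp_102_a t 1 1 1 = true :=
  ⟨(a (a (l 3) (l 3)) (l 3)), by decide +kernel⟩

theorem c_pp_102_a : CertB 536870912 536870912 0 536870912 649613803 48318383 3 eng mog cd2q1 cd2q2a pd0 false true true .npp 1 0 2
    ndB2q1 ndB2q2a pcB0 Cut.none Ext.none :=
  certB2 (fam := false) (s1 := true) (s2 := true) (a := 1) (b := 0) (c := 2) (cn := .npp) (n1 := ndB2q1) (n2 := ndB2q2a) (pc := pcB0) (cut := Cut.none) (xt := Ext.none) (P1 := 536870912) (W1 := 536870912) (P2 := 0) (W2 := 536870912) (P3 := 649613803) (W3 := 48318383) (N0 := 3) (En := eng) (mo := mog) (C1 := cd2q1) (C2 := cd2q2a) (C3 := pd0)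
    rfl (fun _ => rfl) k0_pp_102_a

noncomputable def f_pp_102_b : ℕ → ℕ → ℕ → ℕ → Bool := onCell 536870912 536870912 0 536870912 649613803 48318383
    (rowB 3 eng mog cd2q1 cd2q2b pd0 1 false true true .npp 1 0 2 (qsf 536870912 536870912 1239849684 370763052 0) ndB2q1 ndB2q2b pcB0 Cut.none Ext.none)

def k0_pp_102_b : ∃ t, chk3 f_pp_102_b t 1 1 1 = true :=
  ⟨(a (a (l 1) (l 3)) (l 3)), by decide +kernel⟩

theorem c_pp_102_b : CertB 536870912 536870912 1239849684 370763052 649613803 48318383 3 eng mog cd2q1 cd2q2b pd0 false true true .npp 1 0 2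
    ndB2q1 ndB2q2b pcB0 Cut.none Ext.none :=
  certB1 (fam := false) (s1 := true) (s2 := true) (a := 1) (b := 0) (c := 2) (cn := .npp) (n1 := ndB2q1) (n2 := ndB2q2b) (pc := pcB0) (cut := Cut.none) (xt := Ext.none) (P1 := 536870912) (W1 := 536870912) (P2 := 1239849684) (W2 := 370763052) (P3 := 649613803) (W3 := 48318383) (N0 := 3) (En := eng) (mo := mog) (C1 := cd2q1) (C2 := cd2q2b) (C3 := pd0)
    rfl (fun _ => rfl) k0_pp_102_b

noncomputable def f_pp_112_a : ℕ → ℕ → ℕ → ℕ → Bool := onCell 536870912 536870912 0 536870912 649613803 48318383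
    (rowB 3 eng mog cd2q1 cd2q2a pd1 0 false true true .dn 1 1 2 (qsf 536870912 536870912 0 536870912 1) ndB2q1 ndB2q2a pcB1 Cut.none Ext.none)

def k0_pp_112_a : ∃ t, chk3 f_pp_112_a t 1 1 1 = true :=
  ⟨(a (b (a (b (a (b (a (b (a (l 16693880) (l 16694048)) (a (l 16691080) (l 16688336))) (b (a (l 16691968) (l 16687832)) (a (l 16682648) (b (l 16678152) (l 140827746967))))) (a (b (a (l 16682960) (l 93583107431)) (a (l 123647861911) (l 3))) (b (a (l 140827729799) (l 3)) (l 3)))) (b (a (b (a (l 16680888) (b (l 16675624) (l 154786374935))) (a (l 157470724135) (l 3))) (b (a (l 171429363047) (l 3)) (l 3))) (l 3))) (l 3)) (l 3)) (l 3)) (l 1)), by decide +kernel⟩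

theorem c_pp_112_a : CertB 536870912 536870912 0 536870912 649613803 48318383 3 eng mog cd2q1 cd2q2a pd1 false true true .dn 1 1 2
    ndB2q1 ndB2q2a pcB1 Cut.none Ext.none :=
  certB0 (fam := false) (s1 := true) (s2 := true) (a := 1) (b := 1) (c := 2) (cn := .dn) (n1 := ndB2q1) (n2 := ndB2q2a) (pc := pcB1) (cut := Cut.none) (xt := Ext.none) (P1 := 536870912) (W1 := 536870912) (P2 := 0) (W2 := 536870912) (P3 := 649613803) (W3 := 48318383) (N0 := 3) (En := eng) (mo := mog) (C1 := cd2q1) (C2 := cd2q2a) (C3 := pd1)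
    rfl k0_pp_112_a

noncomputable def f_pp_112_b : ℕ → ℕ → ℕ → ℕ → Bool := onCell 536870912 536870912 1239849684 370763052 649613803 48318383
    (rowB 3 eng mog cd2q1 cd2q2b pd1 2 false true true .dn 1 1 2 (qsf 536870912 536870912 1239849684 370763052 1) ndB2q1 ndB2q2b pcB1 Cut.none Ext.none)

def k0_pp_112_b : ∃ t, chk3 f_pp_112_b t 1 1 1 = true :=
  ⟨(a (a (b (a (b (a (l 3) (b (a (l 3) (b (l 16672120) (l 16670288))) (l 3))) (l 3)) (b (a (b (b (l 16684528) (l 16681848)) (l 16672616)) (b (a (l 16690696) (l 16692800)) (l 16682760))) (a (b (l 173577009671) (l 3)) (b (l 16669776) (l 16653704))))) (a (l 3) (b (a (l 3) (l 177872157191)) (l 3)))) (b (a (b (a (b (l 16692512) (l 16684664)) (l 16680936)) (a (b (l 16674896) (l 16666584)) (b (l 16670424) (l 16667368)))) (b (l 212634435495) (l 16645840))) (a (b (a (l 120963864279) (a (l 16668232) (l 16671248))) (a (b (l 181630184327) (l 3)) (b (l 134385614679) (l 158007947783)))) (a (b (l 16712864) (b (l 16698856)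 (a (l 16718672) (l 16732048)))) (b (l 16652488) (l 16823464)))))) (a (b (b (l 1) (a (l 16592864) (l 223371640807))) (a (b (l 16607872) (l 16685360)) (b (l 16529448) (l 16591232)))) (b (l 1) (b (l 221224142535) (l 16427368))))), by decide +kernel⟩

theorem c_pp_112_b : CertB 536870912 536870912 1239849684 370763052 649613803 48318383 3 eng mog cd2q1 cd2q2b pd1 false true true .dn 1 1 2
    ndB2q1 ndB2q2b pcB1 Cut.none Ext.none :=
  certB2 (fam := false) (s1 := true) (s2 := true) (a := 1) (b := 1) (c := 2) (cn := .dn) (n1 := ndB2q1) (n2 := ndB2q2b) (pc := pcB1) (cut := Cut.none) (xt := Ext.none) (P1 := 536870912) (W1 := 536870912) (P2 := 1239849684) (W2 := 370763052) (P3 := 649613803) (W3 := 48318383) (N0 := 3) (En := eng) (mo := mog) (C1 := cd2q1) (C2 := cd2q2b) (C3 := pd1)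
    rfl (fun _ => rfl) k0_pp_112_b

noncomputable def f_pp_113 : ℕ → ℕ → ℕ → ℕ → Bool := onCell 536870912 536870912 536870912 536870912 649613803 48318383
    (rowB 3 eng mog cd2q1 cd2q3 pd1 1 false true true .nn 1 1 3 (qsf 536870912 536870912 1610612736 536870912 1) ndB2q1 ndB2q3 pcB1 Cut.none Ext.none)

def k0_pp_113 : ∃ t, chk3 f_pp_113 t 1 1 1 = true :=
  ⟨(b (b (a (l 1) (a (l 3) (l 3))) (a (b (l 1) (a (l 1) (b (l 1) (l 266858492215)))) (b (a (b (a (l 1) (l 3)) (a (l 280816948183) (l 183240586039))) (l 3)) (a (b (a (l 16709984) (a (l 16721936) (l 16727904))) (a (l 16770432) (l 16713824))) (b (l 3) (a (a (l 16736864) (l 3)) (l 3))))))) (b (a (a (b (l 1) (l 16561144)) (b (l 16716328) (l 16771472))) (b (a (b (a (l 16846520) (l 16811288)) (a (l 16941328) (l 16923984))) (a (b (l 104857237815) (l 16737848)) (b (l 261623342119) (l 154249138887)))) (a (l 17104488) (b (a (l 16870112) (l 16759352)) (a (l 16918312) (l 16815664)))))) (a (a (l 162705197591) (b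 (l 16855936) (l 16816248))) (b (a (l 17005256) (a (l 16955552) (l 16843600))) (a (l 16909096) (l 16888920)))))), by decide +kernel⟩

theorem c_pp_113 : CertB 536870912 536870912 1610612736 536870912 649613803 48318383 3 eng mog cd2q1 cd2q3 pd1 false true true .nn 1 1 3
    ndB2q1 ndB2q3 pcB1 Cut.none Ext.none :=
  certB1 (fam := false) (s1 := true) (s2 := true) (a := 1) (b := 1) (c := 3) (cn := .nn) (n1 := ndB2q1) (n2 := ndB2q3) (pc := pcB1) (cut := Cut.none) (xt := Ext.none) (P1 := 536870912) (W1 := 536870912) (P2 := 1610612736) (W2 := 536870912) (P3 := 649613803) (W3 := 48318383) (N0 := 3) (En := eng) (mo := mog) (C1 := cd2q1) (C2 := cd2q3) (C3 := pd1)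
    rfl (fun _ => rfl) k0_pp_113

noncomputable def f_pp_123 : ℕ → ℕ → ℕ → ℕ → Bool := onCell 1073741824 536870912 1610612736 536870912 649613803 48318383
    (rowB 3 eng mog cd2q1 cd2q3 pd2 2 false true true .npn 1 2 3 (qsf 536870912 536870912 1610612736 536870912 2) ndB2q1 ndB2q3 pcB2 Cut.none Ext.none)

def k0_pp_123 : ∃ t, chk3 f_pp_123 t 1 1 1 = true :=
  ⟨(a (a (b (b (a (l 16433440) (l 16336344)) (a (l 16706896) (l 16543992))) (b (a (l 16795208) (l 16657224)) (a (l 16812584) (l 16665568)))) (b (a (b (l 16447440) (l 16404088)) (b (l 1) (l 16388088))) (b (a (l 16531128) (l 16512584)) (a (a (l 16590008) (l 16549872)) (l 16629312))))) (a (b (a (l 264710160343) (l 1)) (b (a (l 16530688) (l 16547840)) (l 16606488))) (b (l 1) (b (l 16588600) (l 16649120))))), by decide +kernel⟩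

theorem c_pp_123 : CertB 536870912 536870912 1610612736 536870912 649613803 48318383 3 eng mog cd2q1 cd2q3 pd2 false true true .npn 1 2 3
    ndB2q1 ndB2q3 pcB2 Cut.none Ext.none :=
  certB2 (fam := false) (s1 := true) (s2 := true) (a := 1) (b := 2) (c := 3) (cn := .npn) (n1 := ndB2q1) (n2 := ndB2q3) (pc := pcB2) (cut := Cut.none) (xt := Ext.none) (P1 := 536870912) (W1 := 536870912) (P2 := 1610612736) (W2 := 536870912) (P3 := 649613803) (W3 := 48318383) (N0 := 3) (En := eng) (mo := mog) (C1 := cd2q1) (C2 := cd2q3) (C3 := pd2)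
    rfl (fun _ => rfl) k0_pp_123

noncomputable def f_pp_133 : ℕ → ℕ → ℕ → ℕ → Bool := onCell 1610612736 536870912 1610612736 536870912 649613803 48318383
    (rowB 3 eng mog cd2q1 cd2q3 pd3 2 false true true .dn 1 3 3 (qsf 536870912 536870912 1610612736 536870912 3) ndB2q1 ndB2q3 pcB3 Cut.none Ext.none)

def k0_pp_133 : ∃ t, chk3 f_pp_133 t 1 1 1 = true :=
  ⟨(a (b (l 1) (a (a (l 16637728) (l 1)) (l 1))) (l 1)), by decide +kernel⟩

theorem c_pp_133 : CertB 536870912 536870912 1610612736 536870912 649613803 48318383 3 eng mog cd2q1 cd2q3 pd3 false true true .dn 1 3 3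
    ndB2q1 ndB2q3 pcB3 Cut.none Ext.none :=
  certB2 (fam := false) (s1 := true) (s2 := true) (a := 1) (b := 3) (c := 3) (cn := .dn) (n1 := ndB2q1) (n2 := ndB2q3) (pc := pcB3) (cut := Cut.none) (xt := Ext.none) (P1 := 536870912) (W1 := 536870912) (P2 := 1610612736) (W2 := 536870912) (P3 := 649613803) (W3 := 48318383) (N0 := 3) (En := eng) (mo := mog) (C1 := cd2q1) (C2 := cd2q3) (C3 := pd3)
    rfl (fun _ => rfl) k0_pp_133

noncomputable def f_pp_202_aa : ℕ → ℕ → ℕ → ℕ → Bool := onCell 0 536870912 0 536870912 649613803 48318383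
    (rowB 3 eng mog cd2q2a cd2q2a pd0 0 false true true .pp 2 0 2 (qsf 0 536870912 0 536870912 0) ndB2q2a ndB2q2a pcB0 Cut.none Ext.none)

def k0_pp_202_aa : ∃ t, chk3 f_pp_202_aa t 1 1 1 = true :=
  ⟨(l 3), by decide +kernel⟩

theorem c_pp_202_aa : CertB 0 536870912 0 536870912 649613803 48318383 3 eng mog cd2q2a cd2q2a pd0 false true true .pp 2 0 2
    ndB2q2a ndB2q2a pcB0 Cut.none Ext.none :=
  certB0 (fam := false) (s1 := true) (s2 := true) (a := 2) (b := 0) (c := 2) (cn := .pp) (n1 := ndB2q2a) (n2 := ndB2q2a) (pc := pcB0) (cut := Cut.none) (xt := Ext.none) (P1 := 0) (W1 := 536870912) (P2 := 0) (W2 := 536870912) (P3 := 649613803) (W3 := 48318383) (N0 := 3) (En := eng) (mo := mog) (C1 := cd2q2a) (C2 := cd2q2a) (C3 := pd0)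
    rfl k0_pp_202_aa

noncomputable def f_pp_202_ab : ℕ → ℕ → ℕ → ℕ → Bool := onCell 0 536870912 1239849684 370763052 649613803 48318383
    (rowB 3 eng mog cd2q2a cd2q2b pd0 0 false true true .pp 2 0 2 (qsf 0 536870912 1239849684 370763052 0) ndB2q2a ndB2q2b pcB0 Cut.none Ext.none)

def k0_pp_202_ab : ∃ t, chk3 f_pp_202_ab t 1 1 1 = true :=
  ⟨(l 3), by decide +kernel⟩

theorem c_pp_202_ab : CertB 0 536870912 1239849684 370763052 649613803 48318383 3 eng mog cd2q2a cd2q2b pd0 false true true .pp 2 0 2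
    ndB2q2a ndB2q2b pcB0 Cut.none Ext.none :=
  certB0 (fam := false) (s1 := true) (s2 := true) (a := 2) (b := 0) (c := 2) (cn := .pp) (n1 := ndB2q2a) (n2 := ndB2q2b) (pc := pcB0) (cut := Cut.none) (xt := Ext.none) (P1 := 0) (W1 := 536870912) (P2 := 1239849684) (W2 := 370763052) (P3 := 649613803) (W3 := 48318383) (N0 := 3) (En := eng) (mo := mog) (C1 := cd2q2a) (C2 := cd2q2b) (C3 := pd0)
    rfl k0_pp_202_ab

noncomputable def f_pp_202_ba : ℕ → ℕ → ℕ → ℕ → Bool := onCell 1239849684 370763052 0 536870912 649613803 48318383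
    (rowB 3 eng mog cd2q2b cd2q2a pd0 0 false true true .pp 2 0 2 (qsf 1239849684 370763052 0 536870912 0) ndB2q2b ndB2q2a pcB0 Cut.none Ext.none)

def k0_pp_202_ba : ∃ t, chk3 f_pp_202_ba t 1 1 1 = true :=
  ⟨(l 3), by decide +kernel⟩

theorem c_pp_202_ba : CertB 1239849684 370763052 0 536870912 649613803 48318383 3 eng mog cd2q2b cd2q2a pd0 false true true .pp 2 0 2
    ndB2q2b ndB2q2a pcB0 Cut.none Ext.none :=
  certB0 (fam := false) (s1 := true) (s2 := true) (a := 2) (b := 0) (c := 2) (cn := .pp) (n1 := ndB2q2b) (n2 := ndB2q2a) (pc := pcB0) (cut := Cut.none) (xt := Ext.none) (P1 := 1239849684) (W1 := 370763052) (P2 := 0) (W2 := 536870912) (P3 := 649613803) (W3 := 48318383) (N0 := 3) (En := eng) (mo := mog) (C1 := cd2q2b) (C2 := cd2q2a) (C3 := pd0)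
    rfl k0_pp_202_ba

noncomputable def f_pp_202_bb : ℕ → ℕ → ℕ → ℕ → Bool := onCell 1239849684 370763052 1239849684 370763052 649613803 48318383
    (rowB 3 eng mog cd2q2b cd2q2b pd0 0 false true true .pp 2 0 2 (qsf 1239849684 370763052 1239849684 370763052 0) ndB2q2b ndB2q2b pcB0 Cut.none Ext.none)

def k0_pp_202_bb : ∃ t, chk3 f_pp_202_bb t 1 1 1 = true :=
  ⟨(l 3), by decide +kernel⟩

theorem c_pp_202_bb : CertB 1239849684 370763052 1239849684 370763052 649613803 48318383 3 eng mog cd2q2b cd2q2b pd0 false true true .pp 2 0 2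
    ndB2q2b ndB2q2b pcB0 Cut.none Ext.none :=
  certB0 (fam := false) (s1 := true) (s2 := true) (a := 2) (b := 0) (c := 2) (cn := .pp) (n1 := ndB2q2b) (n2 := ndB2q2b) (pc := pcB0) (cut := Cut.none) (xt := Ext.none) (P1 := 1239849684) (W1 := 370763052) (P2 := 1239849684) (W2 := 370763052) (P3 := 649613803) (W3 := 48318383) (N0 := 3) (En := eng) (mo := mog) (C1 := cd2q2b) (C2 := cd2q2b) (C3 := pd0)
    rfl k0_pp_202_bb

noncomputable def f_pp_203_a : ℕ → ℕ → ℕ → ℕ → Bool := onCell 0 536870912 0 536870912 649613803 48318383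
    (rowB 3 eng mog cd2q2a cd2q3 pd0 1 false true true .up 2 0 3 (qsf 0 536870912 1610612736 536870912 0) ndB2q2a ndB2q3 pcB0 Cut.none Ext.none)

def k0_pp_203_a : ∃ t, chk3 f_pp_203_a t 1 1 1 = true :=
  ⟨(l 3), by decide +kernel⟩

theorem c_pp_203_a : CertB 0 536870912 1610612736 536870912 649613803 48318383 3 eng mog cd2q2a cd2q3 pd0 false true true .up 2 0 3
    ndB2q2a ndB2q3 pcB0 Cut.none Ext.none :=
  certB1 (fam := false) (s1 := true) (s2 := true) (a := 2) (b := 0) (c := 3) (cn := .up) (n1 := ndB2q2a) (n2 := ndB2q3) (pc := pcB0) (cut := Cut.none) (xt := Ext.none) (P1 := 0) (W1 := 536870912) (P2 := 1610612736) (W2 := 536870912) (P3 := 649613803) (W3 := 48318383) (N0 := 3) (En := eng) (mo := mog) (C1 := cd2q2a) (C2 := cd2q3) (C3 := pd0)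
    rfl (fun _ => rfl) k0_pp_203_a

noncomputable def f_pp_203_b : ℕ → ℕ → ℕ → ℕ → Bool := onCell 1239849684 370763052 1610612736 536870912 649613803 48318383
    (rowB 3 eng mog cd2q2b cd2q3 pd0 0 false true true .up 2 0 3 (qsf 1239849684 370763052 1610612736 536870912 0) ndB2q2b ndB2q3 pcB0 Cut.none Ext.none)

def k0_pp_203_b : ∃ t, chk3 f_pp_203_b t 1 1 1 = true :=
  ⟨(l 3), by decide +kernel⟩

theorem c_pp_203_b : CertB 1239849684 370763052 1610612736 536870912 649613803 48318383 3 eng mog cd2q2b cd2q3 pd0 false true true .up 2 0 3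
    ndB2q2b ndB2q3 pcB0 Cut.none Ext.none :=
  certB0 (fam := false) (s1 := true) (s2 := true) (a := 2) (b := 0) (c := 3) (cn := .up) (n1 := ndB2q2b) (n2 := ndB2q3) (pc := pcB0) (cut := Cut.none) (xt := Ext.none) (P1 := 1239849684) (W1 := 370763052) (P2 := 1610612736) (W2 := 536870912) (P3 := 649613803) (W3 := 48318383) (N0 := 3) (En := eng) (mo := mog) (C1 := cd2q2b) (C2 := cd2q3) (C3 := pd0)
    rfl k0_pp_203_b

noncomputable def cut_pp_213_a : Cut := Cut.of [[⟨0, 1, 0, 67108864⟩, ⟨1, 1, 0, 67108864⟩, ⟨2, 2, 0, 16777216⟩]]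

noncomputable def f_pp_213_a : ℕ → ℕ → ℕ → ℕ → Bool := onCell 0 536870912 1610612736 536870912 649613803 48318383
    (rowB 3 eng mog cd2q2a cd2q3 pd1 0 false true true .pnn 2 1 3 (qsf 0 536870912 1610612736 536870912 1) ndB2q2a ndB2q3 pcB1 cut_pp_213_a Ext.none)

def k0_pp_213_a : ∃ t, chk3 f_pp_213_a t 1 1 1 = true :=
  ⟨(b (l 3) (a (l 3) (b (l 3) (a (l 3) (b (l 3) (a (l 3) (b (l 3) (b (l 3) (b (l 3) (l 6)))))))))), by decide +kernel⟩

theorem c_pp_213_a : CertB 0 536870912 1610612736 536870912 649613803 48318383 3 eng mog cd2q2a cd2q3 pd1 false true true .pnn 2 1 3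
    ndB2q2a ndB2q3 pcB1 cut_pp_213_a Ext.none :=
  certB0 (fam := false) (s1 := true) (s2 := true) (a := 2) (b := 1) (c := 3) (cn := .pnn) (n1 := ndB2q2a) (n2 := ndB2q3) (pc := pcB1) (cut := cut_pp_213_a) (xt := Ext.none) (P1 := 0) (W1 := 536870912) (P2 := 1610612736) (W2 := 536870912) (P3 := 649613803) (W3 := 48318383) (N0 := 3) (En := eng) (mo := mog) (C1 := cd2q2a) (C2 := cd2q3) (C3 := pd1)
    rfl k0_pp_213_a

noncomputable def cut_pp_213_b : Cut := Cut.of [[⟨0, 1, 0, 67108864⟩, ⟨1, 1, 0, 67108864⟩, ⟨2, 2, 0, 16777216⟩]]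

noncomputable def f_pp_213_b : ℕ → ℕ → ℕ → ℕ → Bool := onCell 1239849684 370763052 1610612736 536870912 649613803 48318383
    (rowB 3 eng mog cd2q2b cd2q3 pd1 0 false true true .pnn 2 1 3 (qsf 1239849684 370763052 1610612736 536870912 1) ndB2q2b ndB2q3 pcB1 cut_pp_213_b Ext.none)

def k0_pp_213_b : ∃ t, chk3 f_pp_213_b t 1 1 1 = true :=
  ⟨(l 3), by decide +kernel⟩

theorem c_pp_213_b : CertB 1239849684 370763052 1610612736 536870912 649613803 48318383 3 eng mog cd2q2b cd2q3 pd1 false true true .pnn 2 1 3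
    ndB2q2b ndB2q3 pcB1 cut_pp_213_b Ext.none :=
  certB0 (fam := false) (s1 := true) (s2 := true) (a := 2) (b := 1) (c := 3) (cn := .pnn) (n1 := ndB2q2b) (n2 := ndB2q3) (pc := pcB1) (cut := cut_pp_213_b) (xt := Ext.none) (P1 := 1239849684) (W1 := 370763052) (P2 := 1610612736) (W2 := 536870912) (P3 := 649613803) (W3 := 48318383) (N0 := 3) (En := eng) (mo := mog) (C1 := cd2q2b) (C2 := cd2q3) (C3 := pd1)
    rfl k0_pp_213_b

noncomputable def f_pp_303 : ℕ → ℕ → ℕ → ℕ → Bool := onCell 1610612736 536870912 1610612736 536870912 649613803 48318383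
    (rowB 3 eng mog cd2q3 cd2q3 pd0 0 false true true .npn 3 0 3 (qsf 1610612736 536870912 1610612736 536870912 0) ndB2q3 ndB2q3 pcB0 Cut.none Ext.none)

def k0_pp_303 : ∃ t, chk3 f_pp_303 t 1 1 1 = true :=
  ⟨(l 3), by decide +kernel⟩

theorem c_pp_303 : CertB 1610612736 536870912 1610612736 536870912 649613803 48318383 3 eng mog cd2q3 cd2q3 pd0 false true true .npn 3 0 3
    ndB2q3 ndB2q3 pcB0 Cut.none Ext.none :=
  certB0 (fam := false) (s1 := true) (s2 := true) (a := 3) (b := 0) (c := 3) (cn := .npn) (n1 := ndB2q3) (n2 := ndB2q3) (pc := pcB0) (cut := Cut.none) (xt := Ext.none) (P1 := 1610612736) (W1 := 536870912) (P2 := 1610612736) (W2 := 536870912) (P3 := 649613803) (W3 := 48318383) (N0 := 3) (En := eng) (mo := mog) (C1 := cd2q3) (C2 := cd2q3) (C3 := pd0)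
    rfl k0_pp_303

noncomputable def f_pp_313 : ℕ → ℕ → ℕ → ℕ → Bool := onCell 1610612736 536870912 1610612736 536870912 649613803 48318383
    (rowB 3 eng mog cd2q3 cd2q3 pd1 0 false true true .dn 3 1 3 (qsf 1610612736 536870912 1610612736 536870912 1) ndB2q3 ndB2q3 pcB1 Cut.none Ext.none)

def k0_pp_313 : ∃ t, chk3 f_pp_313 t 1 1 1 = true :=
  ⟨(l 3), by decide +kernel⟩

theorem c_pp_313 : CertB 1610612736 536870912 1610612736 536870912 649613803 48318383 3 eng mog cd2q3 cd2q3 pd1 false true true .dn 3 1 3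
    ndB2q3 ndB2q3 pcB1 Cut.none Ext.none :=
  certB0 (fam := false) (s1 := true) (s2 := true) (a := 3) (b := 1) (c := 3) (cn := .dn) (n1 := ndB2q3) (n2 := ndB2q3) (pc := pcB1) (cut := Cut.none) (xt := Ext.none) (P1 := 1610612736) (W1 := 536870912) (P2 := 1610612736) (W2 := 536870912) (P3 := 649613803) (W3 := 48318383) (N0 := 3) (En := eng) (mo := mog) (C1 := cd2q3) (C2 := cd2q3) (C3 := pd1)
    rfl k0_pp_313

noncomputable def f_pm_001 : ℕ → ℕ → ℕ → ℕ → Bool := onCell 0 536870912 536870912 536870912 649613803 48318383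
    (rowB 3 eng mog cd2q0 cd2q1 pd0 0 false true false .up 0 0 1 (qsf 0 536870912 536870912 536870912 0) ndB2q0 ndB2q1 pcB0 Cut.none Ext.none)

def k0_pm_001 : ∃ t, chk3 f_pm_001 t 1 1 1 = true :=
  ⟨(l 4), by decide +kernel⟩

theorem c_pm_001 : CertB 0 536870912 536870912 536870912 649613803 48318383 3 eng mog cd2q0 cd2q1 pd0 false true false .up 0 0 1
    ndB2q0 ndB2q1 pcB0 Cut.none Ext.none :=
  certB0 (fam := false) (s1 := true) (s2 := false) (a := 0) (b := 0) (c := 1) (cn := .up) (n1 := ndB2q0) (n2 := ndB2q1) (pc := pcB0) (cut := Cut.none) (xt := Ext.none) (P1 := 0) (W1 := 536870912) (P2 := 536870912) (W2 := 536870912) (P3 := 649613803) (W3 := 48318383) (N0 := 3) (En := eng) (mo := mog) (C1 := cd2q0) (C2 := cd2q1) (C3 := pd0)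
    rfl k0_pm_001

noncomputable def f_pm_011 : ℕ → ℕ → ℕ → ℕ → Bool := onCell 0 536870912 536870912 536870912 649613803 48318383
    (rowB 3 eng mog cd2q0 cd2q1 pd1 0 false true false .pnn 0 1 1 (qsf 0 536870912 536870912 536870912 1) ndB2q0 ndB2q1 pcB1 Cut.none Ext.none)

def k0_pm_011 : ∃ t, chk3 f_pm_011 t 1 1 1 = true :=
  ⟨(l 4), by decide +kernel⟩

theorem c_pm_011 : CertB 0 536870912 536870912 536870912 649613803 48318383 3 eng mog cd2q0 cd2q1 pd1 false true false .pnn 0 1 1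
    ndB2q0 ndB2q1 pcB1 Cut.none Ext.none :=
  certB0 (fam := false) (s1 := true) (s2 := false) (a := 0) (b := 1) (c := 1) (cn := .pnn) (n1 := ndB2q0) (n2 := ndB2q1) (pc := pcB1) (cut := Cut.none) (xt := Ext.none) (P1 := 0) (W1 := 536870912) (P2 := 536870912) (W2 := 536870912) (P3 := 649613803) (W3 := 48318383) (N0 := 3) (En := eng) (mo := mog) (C1 := cd2q0) (C2 := cd2q1) (C3 := pd1)
    rfl k0_pm_011

noncomputable def cut_pm_012_a : Cut := Cut.of [[⟨0, 0, 0, 67108864⟩, ⟨1, 1, 0, 67108864⟩, ⟨2, 1, 0, 67108864⟩]]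

noncomputable def f_pm_012_a : ℕ → ℕ → ℕ → ℕ → Bool := onCell 536870912 536870912 0 536870912 649613803 48318383
    (rowB 3 eng mog cd2q0 cd2q2a pd1 2 false true false .pnp 0 1 2 (qsf 0 536870912 0 536870912 1) ndB2q0 ndB2q2a pcB1 cut_pm_012_a Ext.none)

def k0_pm_012_a : ∃ t, chk3 f_pm_012_a t 2 1 1 = true :=
  ⟨(b (a (b (l 2) (a (l 2) (l 16533512))) (b (a (l 16567184) (l 16533160)) (a (l 16505992) (l 16478664)))) (b (b (a (l 16623336) (a (l 16455960) (l 16442408))) (a (l 16528224) (a (l 16424664) (l 16426232)))) (a (a (b (l 16386600) (l 16431208)) (b (l 16385600) (b (l 16371784) (l 16370056)))) (b (a (l 16405744) (l 16427024)) (a (b (l 16408128) (l 16481488)) (b (l 16445824) (l 16614952))))))), by decide +kernel⟩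

def k1_pm_012_a : ∃ t, chk3 f_pm_012_a t 3 1 1 = true :=
  ⟨(b (a (b (a (l 16498048) (l 16568704)) (a (l 16471904) (b (l 16432352) (l 16420912)))) (a (b (a (l 16444528) (l 16433216)) (b (l 16414992) (l 16476920))) (b (a (l 16423264) (b (l 16423648) (l 16406000))) (a (b (l 16405352) (l 16412944)) (b (l 16401384) (l 16415056)))))) (a (b (a (b (l 16429536) (l 16429520)) (b (a (l 16421184) (l 16422488)) (a (l 16433968) (l 16443464)))) (a (b (b (l 16441936) (l 16460104)) (b (a (l 16476040) (l 16601584)) (b (l 16511552) (l 16531232)))) (b (a (l 16596896) (l 16553352)) (b (b (l 16605976) (a (l 16550072) (l 16557640))) (a (b (l 16551016) (l 16575576)) (b (l 16582576) (l 16610216))))))) (b (a (b (a (l 16426320) (l 16431688)) (a (l 16455664) (l 16490960))) (a (b (l 16460216) (b (l 16471312) (l 16501896))) (b (b (l 16437968) (l 16458288)) (a (l 16540016) (l 16588320))))) (b (a (a (b (l 16494760) (l 16531400)) (b (l 16517128) (l 16621264))) (a (a (b (l 16534504)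 (l 16577120)) (b (l 16544376) (l 16588408))) (b (a (l 16553688) (l 16563120)) (a (l 16620784) (b (l 16598464) (l 16645200)))))) (a (b (a (b (l 16564464) (l 16588936)) (l 16648768)) (b (a (l 16659328) (l 16695256)) (a (l 16667128) (a (l 16670496) (l 16728504))))) (b (a (a (l 16668968) (a (l 16657984) (l 16664688))) (b (a (l 16639248) (l 6)) (l 6))) (a (a (b (l 16690736) (l 16752088)) (b (b (l 16677016) (l 6)) (l 6))) (l 6)))))))), by decide +kernel⟩

theorem s2_pm_012_a : ∃ t, chk3 f_pm_012_a t 1 1 1 = true := ex3_a k0_pm_012_a k1_pm_012_a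

theorem c_pm_012_a : CertB 0 536870912 0 536870912 649613803 48318383 3 eng mog cd2q0 cd2q2a pd1 false true false .pnp 0 1 2
    ndB2q0 ndB2q2a pcB1 cut_pm_012_a Ext.none :=
  certB2 (fam := false) (s1 := true) (s2 := false) (a := 0) (b := 1) (c := 2) (cn := .pnp) (n1 := ndB2q0) (n2 := ndB2q2a) (pc := pcB1) (cut := cut_pm_012_a) (xt := Ext.none) (P1 := 0) (W1 := 536870912) (P2 := 0) (W2 := 536870912) (P3 := 649613803) (W3 := 48318383) (N0 := 3) (En := eng) (mo := mog) (C1 := cd2q0) (C2 := cd2q2a) (C3 := pd1)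
    rfl (fun _ => rfl) s2_pm_012_a

noncomputable def cut_pm_012_b : Cut := Cut.of [[⟨0, 0, 0, 67108864⟩, ⟨1, 1, 0, 67108864⟩, ⟨2, 1, 0, 67108864⟩]]

noncomputable def f_pm_012_b : ℕ → ℕ → ℕ → ℕ → Bool := onCell 536870912 536870912 1239849684 370763052 649613803 48318383
    (rowB 3 eng mog cd2q0 cd2q2b pd1 2 false true false .pnp 0 1 2 (qsf 0 536870912 1239849684 370763052 1) ndB2q0 ndB2q2b pcB1 cut_pm_012_b Ext.none)

def k0_pm_012_b : ∃ t, chk3 f_pm_012_b t 1 1 1 = true :=
  ⟨(a (a (l 2) (b (b (a (l 16596872) (l 16552808)) (a (l 2) (l 16563888))) (l 2))) (a (b (a (b (l 16503848) (l 16497560)) (b (b (l 16469120) (l 16437240)) (l 16420720))) (b (a (l 2) (l 16452576)) (l 2))) (b (b (a (b (l 16430584) (l 16380144)) (a (l 16514672) (b (l 16388048) (l 16308096)))) (a (l 16361976) (b (l 16270712) (l 16241032)))) (b (a (l 16352072) (l 16236464)) (a (l 16432160) (l 16299296)))))), by decide +kernel⟩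

theorem c_pm_012_b : CertB 0 536870912 1239849684 370763052 649613803 48318383 3 eng mog cd2q0 cd2q2b pd1 false true false .pnp 0 1 2
    ndB2q0 ndB2q2b pcB1 cut_pm_012_b Ext.none :=
  certB2 (fam := false) (s1 := true) (s2 := false) (a := 0) (b := 1) (c := 2) (cn := .pnp) (n1 := ndB2q0) (n2 := ndB2q2b) (pc := pcB1) (cut := cut_pm_012_b) (xt := Ext.none) (P1 := 0) (W1 := 536870912) (P2 := 1239849684) (W2 := 370763052) (P3 := 649613803) (W3 := 48318383) (N0 := 3) (En := eng) (mo := mog) (C1 := cd2q0) (C2 := cd2q2b) (C3 := pd1)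
    rfl (fun _ => rfl) k0_pm_012_b

noncomputable def cut_pm_022_a : Cut := Cut.of [[⟨0, 0, 0, 67108864⟩, ⟨1, 1, 0, 67108864⟩, ⟨2, 1, 0, 67108864⟩]]

noncomputable def f_pm_022_a : ℕ → ℕ → ℕ → ℕ → Bool := onCell 0 536870912 0 536870912 649613803 48318383
    (rowB 3 eng mog cd2q0 cd2q2a pd2 0 false true false .pp 0 2 2 (qsf 0 536870912 0 536870912 2) ndB2q0 ndB2q2a pcB2 cut_pm_022_a Ext.none)

def k0_pm_022_a : ∃ t, chk3 f_pm_022_a t 1 1 1 = true :=
  ⟨(a (b (a (b (b (a (a (a (l 16443112) (l 16441064)) (l 16437840)) (a (l 16433488) (l 16429496))) (b (a (a (a (l 16447960) (l 16444008)) (l 16437520)) (l 16486608)) (a (a (l 16472848) (l 16440768)) (a (l 16428376) (l 16414496))))) (a (a (b (b (a (l 16463040) (l 16456552)) (a (l 16475168) (l 16467256))) (b (a (c (l 16491056) (l 16490488)) (l 16481080)) (a (c (l 16509168) (l 16508976)) (l 16497792)))) (b (b (l 16445816) (l 16454216)) (b (l 16486576) (l 16500664)))) (b (a (l 16474608) (l 16413648)) (a (b (l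 16442880) (l 16453232)) (b (l 16418144) (l 16424368)))))) (a (a (b (b (l 16423328) (l 16505160)) (b (l 16389608) (l 17212881255))) (b (b (l 1) (l 1)) (l 1))) (l 1))) (a (b (a (a (a (b (b (l 16551000) (l 16554128)) (b (a (l 16584864) (l 16577096)) (a (l 16630160) (l 16606464)))) (b (b (l 16538192) (l 16539424)) (b (l 16564424) (l 16592104)))) (b (b (l 16538288) (a (l 16523752) (l 16507184))) (b (a (l 16546616) (l 16527800)) (a (l 16592904) (l 16550640))))) (b (a (b (l 16465864) (l 16480736)) (b (l 16432560) (l 16463584))) (a (b (a (l 16508016) (l 16487288)) (a (l 16528240) (l 16504744))) (b (l 16517232) (l 1))))) (a (a (b (b (a (a (b (l 16629304) (b (l 16639984) (l 6))) (l 16656776)) (b (l 16614280) (l 16629856))) (l 6)) (l 6)) (a (b (b (b (l 16592192) (l 16606376)) (l 6)) (l 6)) (b (b (b (l 16568856) (l 16581576)) (b (l 16593360) (l 16646960))) (l 1)))) (b (b (a (a (b (l 16544296) (l 16555464)) (l 1)) (l 1)) (l 1)) (l 1)))) (b (l 1) (l 1)))) (l 1)), by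 decide +kernel⟩

theorem c_pm_022_a : CertB 0 536870912 0 536870912 649613803 48318383 3 eng mog cd2q0 cd2q2a pd2 false true false .pp 0 2 2
    ndB2q0 ndB2q2a pcB2 cut_pm_022_a Ext.none :=
  certB0 (fam := false) (s1 := true) (s2 := false) (a := 0) (b := 2) (c := 2) (cn := .pp) (n1 := ndB2q0) (n2 := ndB2q2a) (pc := pcB2) (cut := cut_pm_022_a) (xt := Ext.none) (P1 := 0) (W1 := 536870912) (P2 := 0) (W2 := 536870912) (P3 := 649613803) (W3 := 48318383) (N0 := 3) (En := eng) (mo := mog) (C1 := cd2q0) (C2 := cd2q2a) (C3 := pd2)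
    rfl k0_pm_022_a

noncomputable def cut_pm_022_b : Cut := Cut.of [[⟨0, 0, 0, 67108864⟩, ⟨1, 1, 0, 67108864⟩, ⟨2, 1, 0, 67108864⟩]]

noncomputable def f_pm_022_b : ℕ → ℕ → ℕ → ℕ → Bool := onCell 1073741824 536870912 1239849684 370763052 649613803 48318383
    (rowB 3 eng mog cd2q0 cd2q2b pd2 2 false true false .pp 0 2 2 (qsf 0 536870912 1239849684 370763052 2) ndB2q0 ndB2q2b pcB2 cut_pm_022_b Ext.none)

def k0_pm_022_b : ∃ t, chk3 f_pm_022_b t 1 1 1 = true :=
  ⟨(a (a (b (b (a (b (a (l 16384784) (l 16449928)) (l 16318000)) (b (a (l 16472024) (l 16473288)) (a (l 16297504) (l 16297768)))) (a (b (l 16228904) (l 16182672)) (b (l 16224128) (l 16169392)))) (b (a (l 16154792) (l 16165568)) (a (l 16189096) (l 16127576)))) (b (b (a (a (b (c (l 16456216) (l 16410936)) (l 16298904)) (b (a (c (l 146061891767) (l 16439144)) (b (l 207265208839) (l 16374744))) (a (l 16300272) (l 16306984)))) (a (b (b (l 1) (l 383895128055)) (l 70363047559)) (b (l 1) (l 420402747367))))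 (b (a (a (l 16220552) (a (l 16219664) (l 16226488))) (a (l 16237400) (l 16301272))) (a (a (l 16161240) (l 16159424)) (a (l 16170472) (l 16172696))))) (a (b (a (l 16106448) (l 16121624)) (l 16297288)) (b (a (l 16108288) (l 16108656)) (l 16087112))))) (b (a (b (l 1) (a (b (a (l 337724409623) (l 536366452935)) (a (l 16160336) (l 336650432007))) (b (l 1) (a (l 524555153255) (l 1))))) (l 1)) (a (a (b (b (l 16160784) (l 16062976)) (l 16055280)) (b (a (b (l 352219527847) (l 16027376)) (b (l 354367014951) (l 16035528))) (a (l 15986832) (l 15959072)))) (a (a (b (a (l 385505419383) (l 460130463623)) (l 15979096)) (b (l 490732085223) (l 258803739207))) (b (l 1) (a (l 382284173927) (l 466572771095))))))), by decide +kernel⟩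

theorem c_pm_022_b : CertB 0 536870912 1239849684 370763052 649613803 48318383 3 eng mog cd2q0 cd2q2b pd2 false true false .pp 0 2 2
    ndB2q0 ndB2q2b pcB2 cut_pm_022_b Ext.none :=
  certB2 (fam := false) (s1 := true) (s2 := false) (a := 0) (b := 2) (c := 2) (cn := .pp) (n1 := ndB2q0) (n2 := ndB2q2b) (pc := pcB2) (cut := cut_pm_022_b) (xt := Ext.none) (P1 := 0) (W1 := 536870912) (P2 := 1239849684) (W2 := 370763052) (P3 := 649613803) (W3 := 48318383) (N0 := 3) (En := eng) (mo := mog) (C1 := cd2q0) (C2 := cd2q2b) (C3 := pd2)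
    rfl (fun _ => rfl) k0_pm_022_b

noncomputable def f_pm_023 : ℕ → ℕ → ℕ → ℕ → Bool := onCell 1073741824 536870912 1610612736 536870912 649613803 48318383
    (rowB 3 eng mog cd2q0 cd2q3 pd2 2 false true false .up 0 2 3 (qsf 0 536870912 1610612736 536870912 2) ndB2q0 ndB2q3 pcB2 Cut.none Ext.none)

def k0_pm_023 : ∃ t, chk3 f_pm_023 t 1 1 1 = true :=
  ⟨(a (a (b (b (a (l 16274336) (l 16182112)) (a (l 2) (l 16348216))) (l 2)) (b (a (b (l 16120512) (l 16261368)) (b (l 16112520) (l 16235384))) (b (a (l 2) (l 16395400)) (l 2)))) (a (b (a (b (l 16082432) (l 16211456)) (b (l 15987712) (l 16146784))) (a (b (l 16424664) (l 2)) (b (l 16436080) (l 16551040)))) (b (a (b (l 16210072) (l 16132192)) (b (b (l 15999464) (l 15997552)) (l 16131816))) (a (l 16534440) (l 16578456))))), by decide +kernel⟩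

theorem c_pm_023 : CertB 0 536870912 1610612736 536870912 649613803 48318383 3 eng mog cd2q0 cd2q3 pd2 false true false .up 0 2 3
    ndB2q0 ndB2q3 pcB2 Cut.none Ext.none :=
  certB2 (fam := false) (s1 := true) (s2 := false) (a := 0) (b := 2) (c := 3) (cn := .up) (n1 := ndB2q0) (n2 := ndB2q3) (pc := pcB2) (cut := Cut.none) (xt := Ext.none) (P1 := 0) (W1 := 536870912) (P2 := 1610612736) (W2 := 536870912) (P3 := 649613803) (W3 := 48318383) (N0 := 3) (En := eng) (mo := mog) (C1 := cd2q0) (C2 := cd2q3) (C3 := pd2)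
    rfl (fun _ => rfl) k0_pm_023

noncomputable def f_pm_033 : ℕ → ℕ → ℕ → ℕ → Bool := onCell 0 536870912 1610612736 536870912 649613803 48318383
    (rowB 3 eng mog cd2q0 cd2q3 pd3 1 false true false .pnn 0 3 3 (qsf 0 536870912 1610612736 536870912 3) ndB2q0 ndB2q3 pcB3 Cut.none Ext.none)

def k0_pm_033 : ∃ t, chk3 f_pm_033 t 1 1 1 = true :=
  ⟨(a (b (b (b (a (a (l 16113024) (l 16000448)) (l 16201016)) (l 4)) (l 4)) (a (l 4) (b (l 4) (a (b (l 4) (l 2)) (l 2))))) (b (b (b (a (l 16460568) (l 16619528)) (a (l 16519408) (l 16658960))) (a (l 4) (a (b (l 16661200) (l 2)) (l 2)))) (a (b (a (b (l 4) (l 2)) (l 2)) (l 2)) (l 2)))), by decide +kernel⟩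

theorem c_pm_033 : CertB 0 536870912 1610612736 536870912 649613803 48318383 3 eng mog cd2q0 cd2q3 pd3 false true false .pnn 0 3 3
    ndB2q0 ndB2q3 pcB3 Cut.none Ext.none :=
  certB1 (fam := false) (s1 := true) (s2 := false) (a := 0) (b := 3) (c := 3) (cn := .pnn) (n1 := ndB2q0) (n2 := ndB2q3) (pc := pcB3) (cut := Cut.none) (xt := Ext.none) (P1 := 0) (W1 := 536870912) (P2 := 1610612736) (W2 := 536870912) (P3 := 649613803) (W3 := 48318383) (N0 := 3) (En := eng) (mo := mog) (C1 := cd2q0) (C2 := cd2q3) (C3 := pd3)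
    rfl (fun _ => rfl) k0_pm_033

noncomputable def f_pm_101 : ℕ → ℕ → ℕ → ℕ → Bool := onCell 0 536870912 536870912 536870912 649613803 48318383
    (rowB 3 eng mog cd2q1 cd2q1 pd0 2 false true false .npn 1 0 1 (qsf 536870912 536870912 536870912 536870912 0) ndB2q1 ndB2q1 pcB0 Cut.none Ext.none)

def k0_pm_101 : ∃ t, chk3 f_pm_101 t 1 1 1 = true :=
  ⟨(b (l 4) (a (a (b (a (b (l 4) (a (b (l 4) (l 16297112)) (l 4))) (l 4)) (a (a (b (b (l 16267760) (l 16271312)) (b (b (l 16284248) (l 16298192)) (b (l 16424640) (l 16323384)))) (b (b (l 16266664) (l 16252912)) (b (l 16263200) (b (l 16277344) (l 16285320))))) (b (a (b (l 16264432) (l 16230824)) (b (l 4) (l 16418880))) (b (a (l 16229344) (l 16190984)) (a (l 16242784) (l 16191360)))))) (b (l 4) (a (b (a (b (l 4) (l 16189040)) (l 4)) (b (a (l 16146696) (l 16105744)) (l 16273008))) (b (l 4) (b (a (l 16087080) (l 4)) (a (l 16087400) (l 16087920))))))) (a (b (l 4) (a (b (l 4) (b (l 4) (l 9360808023))) (l 4))) (l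 4)))), by decide +kernel⟩

theorem c_pm_101 : CertB 536870912 536870912 536870912 536870912 649613803 48318383 3 eng mog cd2q1 cd2q1 pd0 false true false .npn 1 0 1
    ndB2q1 ndB2q1 pcB0 Cut.none Ext.none :=
  certB2 (fam := false) (s1 := true) (s2 := false) (a := 1) (b := 0) (c := 1) (cn := .npn) (n1 := ndB2q1) (n2 := ndB2q1) (pc := pcB0) (cut := Cut.none) (xt := Ext.none) (P1 := 536870912) (W1 := 536870912) (P2 := 536870912) (W2 := 536870912) (P3 := 649613803) (W3 := 48318383) (N0 := 3) (En := eng) (mo := mog) (C1 := cd2q1) (C2 := cd2q1) (C3 := pd0)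
    rfl (fun _ => rfl) k0_pm_101

noncomputable def f_pm_102_a : ℕ → ℕ → ℕ → ℕ → Bool := onCell 0 536870912 0 536870912 649613803 48318383
    (rowB 3 eng mog cd2q1 cd2q2a pd0 2 false true false .npp 1 0 2 (qsf 536870912 536870912 0 536870912 0) ndB2q1 ndB2q2a pcB0 Cut.none Ext.none)

def k0_pm_102_a : ∃ t, chk3 f_pm_102_a t 2 2 1 = true :=
  ⟨(a (a (l 2) (b (l 2) (a (l 2) (b (l 2) (a (l 2) (b (l 2) (b (a (l 2) (l 16600168)) (l 16610944)))))))) (b (a (a (l 3) (b (l 3) (b (l 3) (a (l 161228645911) (b (l 159618072679) (a (l 16588000) (l 16614768))))))) (a (a (b (l 3) (b (l 140290770823) (b (c (l 16642344) (l 130090258551)) (a (l 16619688) (l 16603960))))) (b (l 142438214071) (a (b (l 131164013895) (l 16646928)) (b (l 127405907399) (l 16607256))))) (a (b (l 120426559255) (b (b (a (l 16602504) (l 16605824)) (l 16628480)) (l 16612184))) (b (b (l 113447176231) (b (l 72108125111) (l 16608416))) (b (l 16613040) (l 16619920)))))) (a (b (a (b (a (l 3) (a (b (l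 3) (l 120963388999)) (b (l 152638785959) (b (l 16616712) (a (l 16580448) (l 16584024)))))) (a (a (l 2) (b (l 16575768) (c (l 16626800) (l 263703976071)))) (a (b (a (l 135995797015) (b (l 16581016) (l 16585096))) (l 16568920)) (b (b (a (l 16584592) (l 16588072)) (l 16590960)) (l 16598272))))) (b (a (b (a (l 126868999223) (b (l 16585200) (l 16588952))) (a (b (a (l 16583640) (l 16587296)) (l 16578176)) (l 16609056))) (a (b (l 16610312) (l 16600816)) (l 16665312))) (a (b (l 16599448) (l 16608880)) (b (l 16609248) (l 16613976))))) (a (b (a (b (a (l 16584232) (l 16593200)) (a (l 16575568) (l 16604456))) (b (a (l 16601360) (l 16608416)) (l 16615144))) (a (b (l 16613408) (l 16620000)) (l 16621368))) (b (a (b (l 16614184) (l 16618760)) (l 16621536)) (b (l 16627072) (l 16633696))))) (b (a (b (a (b (l 16605768) (l 16609720)) (b (l 16611312) (l 16616136))) (a (b (l 16614624) (l 16619600)) (l 16624016))) (b (b (l 16622648) (l 16627416)) (l 16635880))) (a (b (l 16632056)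 (l 16645888)) (b (a (l 16644768) (l 16652848)) (l 16661680))))))), by decide +kernel⟩

def k1_pm_102_a : ∃ t, chk3 f_pm_102_a t 2 3 1 = true :=
  ⟨(a (b (a (l 2) (b (a (l 2) (b (a (l 909023122423) (b (l 16621264) (l 16624272))) (a (l 16623680) (l 16629232)))) (a (b (b (l 16622024) (l 16621616)) (l 83315442087)) (b (l 16633896) (l 16641272))))) (a (b (a (l 2) (b (l 73651775607) (l 16620176))) (b (a (b (l 16609488) (l 16614104)) (b (l 16624176) (l 16627488))) (a (a (l 16611536) (l 16617424)) (b (l 16602696) (l 16592688))))) (b (a (a (l 16631208) (l 16639752)) (b (l 16646632) (l 16636968))) (b (a (l 16659360) (b (l 16592856) (l 16577336))) (a (l 16580120) (l 16560864)))))) (b (a (b (b (a (b (l 16627408) (l 16631920)) (l 16643600)) (a (l 16640336) (a (l 16653048) (l 16661432)))) (a (b (l 16650384) (l 16656176)) (a (l 16663408) (l 16665416)))) (b (a (b (l 16660136) (l 16672104)) (b (l 16673392) (l 16678280))) (a (l 16724568) (l 16746792)))) (b (a (a (l 16634216)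 (b (l 16628032) (l 16566296))) (a (l 16551736) (l 16557704))) (a (b (a (l 16691256) (b (l 16545616) (l 16529528))) (a (l 16537552) (a (l 16516168) (l 16497600)))) (a (b (l 16671600) (l 16466064)) (b (l 16460976) (l 16418616))))))), by decide +kernel⟩

def k2_pm_102_a : ∃ t, chk3 f_pm_102_a t 3 1 1 = true :=
  ⟨(a (b (b (a (b (a (a (a (b (l 16629336) (a (l 16674880) (l 16676912))) (b (l 88214404167) (l 16680000))) (b (a (a (l 16636360) (l 16617528)) (l 16641752)) (l 16623296))) (b (a (b (l 16626328) (l 16628320)) (l 16636224)) (l 16636512))) (a (a (b (l 16620704) (l 16628448)) (b (l 16629368) (l 16636976))) (b (l 16642800) (l 16649608)))) (b (a (b (l 16648944) (l 16653520)) (b (l 16663424) (l 16666120))) (a (l 16661016) (l 16670256)))) (a (b (a (b (l 16641704) (l 16652152)) (b (l 16657240) (l 16665912))) (a (l 16668128) (l 16673432))) (b (a (b (l 16668384) (l 16672032)) (l 16757672)) (a (l 16669752) (l 16660480))))) (a (b (b (b (l 16715400) (a (l 16668792)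 (l 16647360))) (a (l 16607720) (l 16570584))) (b (a (l 16473160) (l 16425560)) (a (b (l 16412336) (l 16366280)) (b (l 16358528) (l 16309240))))) (b (a (b (b (l 16650816) (l 16620208)) (l 16558152)) (b (l 16614768) (l 16509712))) (a (b (a (l 16386568) (l 16367296)) (a (l 16290464) (b (l 16294240) (l 16239024)))) (b (l 16321792) (a (l 16253016) (l 16222272))))))) (b (a (b (b (l 16677912) (a (l 16674696) (l 16675360))) (b (l 16668232) (l 16643240))) (b (b (l 16681248) (l 16670568)) (b (l 16651784) (l 16615328)))) (a (b (b (a (l 16594872) (l 16574664)) (a (l 16486728) (l 16469392))) (b (a (l 16359296) (l 16344480)) (a (a (l 16185352) (l 16196112)) (a (l 16220440) (l 16249008))))) (b (b (b (l 16569472) (l 16526216)) (l 16453376)) (b (a (l 16357496) (l 16366888)) (a (l 16280992) (l 16310536))))))), by decide +kernel⟩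

theorem s3_pm_102_a : ∃ t, chk3 f_pm_102_a t 2 1 1 = true := ex3_b k0_pm_102_a k1_pm_102_a

theorem s4_pm_102_a : ∃ t, chk3 f_pm_102_a t 1 1 1 = true := ex3_a s3_pm_102_a k2_pm_102_a

theorem c_pm_102_a : CertB 536870912 536870912 0 536870912 649613803 48318383 3 eng mog cd2q1 cd2q2a pd0 false true false .npp 1 0 2
    ndB2q1 ndB2q2a pcB0 Cut.none Ext.none :=
  certB2 (fam := false) (s1 := true) (s2 := false) (a := 1) (b := 0) (c := 2) (cn := .npp) (n1 := ndB2q1) (n2 := ndB2q2a) (pc := pcB0) (cut := Cut.none) (xt := Ext.none) (P1 := 536870912) (W1 := 536870912) (P2 := 0) (W2 := 536870912) (P3 := 649613803) (W3 := 48318383) (N0 := 3) (En := eng) (mo := mog) (C1 := cd2q1) (C2 := cd2q2a) (C3 := pd0)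
    rfl (fun _ => rfl) s4_pm_102_a

noncomputable def f_pm_102_b : ℕ → ℕ → ℕ → ℕ → Bool := onCell 536870912 536870912 0 536870912 649613803 48318383
    (rowB 3 eng mog cd2q1 cd2q2b pd0 1 false true false .npp 1 0 2 (qsf 536870912 536870912 1239849684 370763052 0) ndB2q1 ndB2q2b pcB0 Cut.none Ext.none)

def k0_pm_102_b : ∃ t, chk3 f_pm_102_b t 1 1 1 = true :=
  ⟨(a (b (l 1) (b (l 1) (a (l 1) (b (a (l 1) (b (l 177737697079) (l 147672980743))) (a (b (l 223371645911) (l 16691496)) (l 119755776327)))))) (b (b (l 1) (a (l 1) (a (a (a (l 1) (l 3)) (l 3)) (l 3)))) (a (b (b (a (l 1) (a (b (l 1) (l 138009284999)) (b (a (l 1) (l 98280773351)) (a (l 16640656) (l 16613288))))) (a (a (b (l 1) (l 161631663799)) (b (l 155189205479) (l 16659696))) (b (a (l 16644592) (a (l 16605824) (l 16579376))) (a (l 16613328) (l 16563280))))) (b (a (b (l 16694392) (l 16628320)) (b (l 16563104) (l 16542328))) (a (l 16600680) (l 16520760)))) (a (a (b (b (b (a (l 16644880) (b (l 16626864)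 (l 16585912))) (a (l 16585800) (b (l 16567224) (l 16549872)))) (b (a (l 16552800) (l 156933685479)) (a (l 16524792) (l 16499200)))) (b (b (a (l 16501320) (l 16476656)) (l 16470496)) (a (l 16463736) (l 16439712)))) (a (b (b (l 3) (b (l 196662070167) (l 199883280023))) (b (b (l 16452176) (l 16433848)) (a (l 16421904) (l 16409384)))) (b (l 3) (b (b (l 343764570823) (l 16409616)) (b (l 16395224) (l 16388104)))))) (a (b (l 3) (b (l 3) (b (a (l 16371656) (l 3)) (a (l 16364016) (l 16342576))))) (l 3)))))), by decide +kernel⟩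

theorem c_pm_102_b : CertB 536870912 536870912 1239849684 370763052 649613803 48318383 3 eng mog cd2q1 cd2q2b pd0 false true false .npp 1 0 2
    ndB2q1 ndB2q2b pcB0 Cut.none Ext.none :=
  certB1 (fam := false) (s1 := true) (s2 := false) (a := 1) (b := 0) (c := 2) (cn := .npp) (n1 := ndB2q1) (n2 := ndB2q2b) (pc := pcB0) (cut := Cut.none) (xt := Ext.none) (P1 := 536870912) (W1 := 536870912) (P2 := 1239849684) (W2 := 370763052) (P3 := 649613803) (W3 := 48318383) (N0 := 3) (En := eng) (mo := mog) (C1 := cd2q1) (C2 := cd2q2b) (C3 := pd0)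
    rfl (fun _ => rfl) k0_pm_102_b

noncomputable def f_pm_112_a : ℕ → ℕ → ℕ → ℕ → Bool := onCell 536870912 536870912 0 536870912 649613803 48318383
    (rowB 3 eng mog cd2q1 cd2q2a pd1 2 false true false .dn 1 1 2 (qsf 536870912 536870912 0 536870912 1) ndB2q1 ndB2q2a pcB1 Cut.none Ext.none)

def k0_pm_112_a : ∃ t, chk3 f_pm_112_a t 1 1 1 = true :=
  ⟨(a (b (a (b (a (b (l 16621552) (l 16596600)) (l 16588744)) (a (l 16548576) (l 16525024))) (a (b (l 16553768) (l 16494480)) (l 1))) (b (a (b (l 16579872) (l 16426728)) (l 1)) (a (b (a (l 16376664) (l 16389120)) (a (l 16596408) (l 1))) (l 1)))) (l 1)), by decide +kernel⟩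

theorem c_pm_112_a : CertB 536870912 536870912 0 536870912 649613803 48318383 3 eng mog cd2q1 cd2q2a pd1 false true false .dn 1 1 2
    ndB2q1 ndB2q2a pcB1 Cut.none Ext.none :=
  certB2 (fam := false) (s1 := true) (s2 := false) (a := 1) (b := 1) (c := 2) (cn := .dn) (n1 := ndB2q1) (n2 := ndB2q2a) (pc := pcB1) (cut := Cut.none) (xt := Ext.none) (P1 := 536870912) (W1 := 536870912) (P2 := 0) (W2 := 536870912) (P3 := 649613803) (W3 := 48318383) (N0 := 3) (En := eng) (mo := mog) (C1 := cd2q1) (C2 := cd2q2a) (C3 := pd1)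
    rfl (fun _ => rfl) k0_pm_112_a

noncomputable def f_pm_112_b : ℕ → ℕ → ℕ → ℕ → Bool := onCell 536870912 536870912 536870912 536870912 649613803 48318383
    (rowB 3 eng mog cd2q1 cd2q2b pd1 1 false true false .dn 1 1 2 (qsf 536870912 536870912 1239849684 370763052 1) ndB2q1 ndB2q2b pcB1 Cut.none Ext.none)

def k0_pm_112_b : ∃ t, chk3 f_pm_112_b t 1 1 1 = true :=
  ⟨(b (b (a (a (b (a (l 1) (l 345241266855)) (a (l 266321314071) (l 16615040))) (b (a (l 16631648) (l 16616048)) (l 16615344))) (a (b (a (l 16584840) (l 16533072)) (a (l 16600280) (l 16569504))) (b (a (a (l 16473984) (a (l 16436784) (l 16411976))) (a (a (l 16383272) (l 164986528871)) (b (l 3) (l 280950555463)))) (a (b (l 16480144) (l 16533048)) (b (l 399532078455) (l 2)))))) (a (a (b (a (l 16581696) (l 16588928)) (l 16554808)) (b (l 16617488) (l 16641456))) (a (a (l 16697232) (l 16737680)) (b (a (l 16642496) (l 2)) (l 2))))) (b (a (a (b (l 16528712) (l 16506248)) (b (l 16690992) (l 16770344)))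 (b (a (l 17021152) (l 2)) (l 2))) (a (a (a (l 16429824) (l 16567416)) (a (l 16797288) (l 2))) (l 2)))), by decide +kernel⟩

theorem c_pm_112_b : CertB 536870912 536870912 1239849684 370763052 649613803 48318383 3 eng mog cd2q1 cd2q2b pd1 false true false .dn 1 1 2
    ndB2q1 ndB2q2b pcB1 Cut.none Ext.none :=
  certB1 (fam := false) (s1 := true) (s2 := false) (a := 1) (b := 1) (c := 2) (cn := .dn) (n1 := ndB2q1) (n2 := ndB2q2b) (pc := pcB1) (cut := Cut.none) (xt := Ext.none) (P1 := 536870912) (W1 := 536870912) (P2 := 1239849684) (W2 := 370763052) (P3 := 649613803) (W3 := 48318383) (N0 := 3) (En := eng) (mo := mog) (C1 := cd2q1) (C2 := cd2q2b) (C3 := pd1)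
    rfl (fun _ => rfl) k0_pm_112_b

noncomputable def f_pm_113 : ℕ → ℕ → ℕ → ℕ → Bool := onCell 536870912 536870912 536870912 536870912 649613803 48318383
    (rowB 3 eng mog cd2q1 cd2q3 pd1 1 false true false .nn 1 1 3 (qsf 536870912 536870912 1610612736 536870912 1) ndB2q1 ndB2q3 pcB1 Cut.none Ext.none)

def k0_pm_113 : ∃ t, chk3 f_pm_113 t 1 1 1 = true :=
  ⟨(b (b (a (l 1) (a (a (l 1) (l 200286353831)) (b (a (b (l 1) (l 16611904)) (b (a (l 236256320791) (l 3)) (l 184850859399))) (a (b (l 16523304) (l 16585160)) (b (a (l 16481160) (l 16476632)) (a (l 16544816) (l 16520784))))))) (a (a (l 1) (l 191696565063)) (a (a (l 16709568) (l 16774008)) (b (a (l 16707656) (b (l 16605464) (l 16601864))) (a (l 16893120) (b (l 16732992) (l 16753568))))))) (b (a (a (b (l 1) (l 16491272)) (l 155189200647)) (b (a (l 17029680) (a (l 16976696) (b (l 16813136) (l 16855232)))) (a (l 17034760) (a (l 17032328) (l 16892536))))) (a (a (l 229813842855) (b (l 16818096) (l 16755448)))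 (a (l 16888192) (b (l 16971112) (l 16850976)))))), by decide +kernel⟩

theorem c_pm_113 : CertB 536870912 536870912 1610612736 536870912 649613803 48318383 3 eng mog cd2q1 cd2q3 pd1 false true false .nn 1 1 3
    ndB2q1 ndB2q3 pcB1 Cut.none Ext.none :=
  certB1 (fam := false) (s1 := true) (s2 := false) (a := 1) (b := 1) (c := 3) (cn := .nn) (n1 := ndB2q1) (n2 := ndB2q3) (pc := pcB1) (cut := Cut.none) (xt := Ext.none) (P1 := 536870912) (W1 := 536870912) (P2 := 1610612736) (W2 := 536870912) (P3 := 649613803) (W3 := 48318383) (N0 := 3) (En := eng) (mo := mog) (C1 := cd2q1) (C2 := cd2q3) (C3 := pd1)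
    rfl (fun _ => rfl) k0_pm_113

noncomputable def f_pm_123 : ℕ → ℕ → ℕ → ℕ → Bool := onCell 1073741824 536870912 1610612736 536870912 649613803 48318383
    (rowB 3 eng mog cd2q1 cd2q3 pd2 2 false true false .npn 1 2 3 (qsf 536870912 536870912 1610612736 536870912 2) ndB2q1 ndB2q3 pcB2 Cut.none Ext.none)

def k0_pm_123 : ∃ t, chk3 f_pm_123 t 1 1 1 = true :=
  ⟨(a (b (a (b (a (l 16351712) (l 16262232)) (a (l 16636776) (l 16468960))) (a (b (l 16233904) (l 16353792)) (b (l 1) (l 16339728)))) (a (b (a (l 16746192) (l 16590768)) (a (l 16939848) (l 16637952))) (a (b (l 16475592) (l 16626448)) (b (l 16465648) (l 16545464))))) (a (b (a (l 311417933799) (l 1)) (a (b (l 16479112) (l 16573648)) (b (l 16499232) (l 16593568)))) (b (l 1) (a (l 16583808) (l 16610272))))), by decide +kernel⟩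

theorem c_pm_123 : CertB 536870912 536870912 1610612736 536870912 649613803 48318383 3 eng mog cd2q1 cd2q3 pd2 false true false .npn 1 2 3
    ndB2q1 ndB2q3 pcB2 Cut.none Ext.none :=
  certB2 (fam := false) (s1 := true) (s2 := false) (a := 1) (b := 2) (c := 3) (cn := .npn) (n1 := ndB2q1) (n2 := ndB2q3) (pc := pcB2) (cut := Cut.none) (xt := Ext.none) (P1 := 536870912) (W1 := 536870912) (P2 := 1610612736) (W2 := 536870912) (P3 := 649613803) (W3 := 48318383) (N0 := 3) (En := eng) (mo := mog) (C1 := cd2q1) (C2 := cd2q3) (C3 := pd2)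
    rfl (fun _ => rfl) k0_pm_123

noncomputable def f_pm_133 : ℕ → ℕ → ℕ → ℕ → Bool := onCell 1610612736 536870912 1610612736 536870912 649613803 48318383
    (rowB 3 eng mog cd2q1 cd2q3 pd3 2 false true false .dn 1 3 3 (qsf 536870912 536870912 1610612736 536870912 3) ndB2q1 ndB2q3 pcB3 Cut.none Ext.none)

def k0_pm_133 : ∃ t, chk3 f_pm_133 t 1 1 1 = true :=
  ⟨(a (b (l 1) (a (a (l 16813064) (l 1)) (l 1))) (l 1)), by decide +kernel⟩

theorem c_pm_133 : CertB 536870912 536870912 1610612736 536870912 649613803 48318383 3 eng mog cd2q1 cd2q3 pd3 false true false .dn 1 3 3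
    ndB2q1 ndB2q3 pcB3 Cut.none Ext.none :=
  certB2 (fam := false) (s1 := true) (s2 := false) (a := 1) (b := 3) (c := 3) (cn := .dn) (n1 := ndB2q1) (n2 := ndB2q3) (pc := pcB3) (cut := Cut.none) (xt := Ext.none) (P1 := 536870912) (W1 := 536870912) (P2 := 1610612736) (W2 := 536870912) (P3 := 649613803) (W3 := 48318383) (N0 := 3) (En := eng) (mo := mog) (C1 := cd2q1) (C2 := cd2q3) (C3 := pd3)
    rfl (fun _ => rfl) k0_pm_133

noncomputable def cut_pm_202_aa : Cut := Cut.of [[⟨0, 1, 0, 67108864⟩, ⟨1, 0, 0, 67108864⟩, ⟨2, 1, 0, 67108864⟩]]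

noncomputable def f_pm_202_aa : ℕ → ℕ → ℕ → ℕ → Bool := onCell 0 536870912 0 536870912 649613803 48318383
    (rowB 3 eng mog cd2q2a cd2q2a pd0 0 false true false .pp 2 0 2 (qsf 0 536870912 0 536870912 0) ndB2q2a ndB2q2a pcB0 cut_pm_202_aa Ext.none)

def k0_pm_202_aa : ∃ t, chk3 f_pm_202_aa t 1 1 1 = true :=
  ⟨(a (l 3) (b (l 3) (a (l 3) (b (l 3) (b (l 3) (a (l 3) (l 6))))))), by decide +kernel⟩

theorem c_pm_202_aa : CertB 0 536870912 0 536870912 649613803 48318383 3 eng mog cd2q2a cd2q2a pd0 false true false .pp 2 0 2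
    ndB2q2a ndB2q2a pcB0 cut_pm_202_aa Ext.none :=
  certB0 (fam := false) (s1 := true) (s2 := false) (a := 2) (b := 0) (c := 2) (cn := .pp) (n1 := ndB2q2a) (n2 := ndB2q2a) (pc := pcB0) (cut := cut_pm_202_aa) (xt := Ext.none) (P1 := 0) (W1 := 536870912) (P2 := 0) (W2 := 536870912) (P3 := 649613803) (W3 := 48318383) (N0 := 3) (En := eng) (mo := mog) (C1 := cd2q2a) (C2 := cd2q2a) (C3 := pd0)
    rfl k0_pm_202_aa

noncomputable def cut_pm_202_ab : Cut := Cut.of [[⟨0, 1, 0, 67108864⟩, ⟨1, 0, 0, 67108864⟩, ⟨2, 1, 0, 67108864⟩]]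

noncomputable def f_pm_202_ab : ℕ → ℕ → ℕ → ℕ → Bool := onCell 0 536870912 1239849684 370763052 649613803 48318383
    (rowB 3 eng mog cd2q2a cd2q2b pd0 0 false true false .pp 2 0 2 (qsf 0 536870912 1239849684 370763052 0) ndB2q2a ndB2q2b pcB0 cut_pm_202_ab Ext.none)

def k0_pm_202_ab : ∃ t, chk3 f_pm_202_ab t 1 1 1 = true :=
  ⟨(l 3), by decide +kernel⟩

theorem c_pm_202_ab : CertB 0 536870912 1239849684 370763052 649613803 48318383 3 eng mog cd2q2a cd2q2b pd0 false true false .pp 2 0 2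
    ndB2q2a ndB2q2b pcB0 cut_pm_202_ab Ext.none :=
  certB0 (fam := false) (s1 := true) (s2 := false) (a := 2) (b := 0) (c := 2) (cn := .pp) (n1 := ndB2q2a) (n2 := ndB2q2b) (pc := pcB0) (cut := cut_pm_202_ab) (xt := Ext.none) (P1 := 0) (W1 := 536870912) (P2 := 1239849684) (W2 := 370763052) (P3 := 649613803) (W3 := 48318383) (N0 := 3) (En := eng) (mo := mog) (C1 := cd2q2a) (C2 := cd2q2b) (C3 := pd0)
    rfl k0_pm_202_ab

noncomputable def cut_pm_202_ba : Cut := Cut.of [[⟨0, 1, 0, 67108864⟩, ⟨1, 0, 0, 67108864⟩, ⟨2, 1, 0, 67108864⟩]]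

noncomputable def f_pm_202_ba : ℕ → ℕ → ℕ → ℕ → Bool := onCell 1239849684 370763052 0 536870912 649613803 48318383
    (rowB 3 eng mog cd2q2b cd2q2a pd0 0 false true false .pp 2 0 2 (qsf 1239849684 370763052 0 536870912 0) ndB2q2b ndB2q2a pcB0 cut_pm_202_ba Ext.none)

def k0_pm_202_ba : ∃ t, chk3 f_pm_202_ba t 1 1 1 = true :=
  ⟨(l 3), by decide +kernel⟩

theorem c_pm_202_ba : CertB 1239849684 370763052 0 536870912 649613803 48318383 3 eng mog cd2q2b cd2q2a pd0 false true false .pp 2 0 2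
    ndB2q2b ndB2q2a pcB0 cut_pm_202_ba Ext.none :=
  certB0 (fam := false) (s1 := true) (s2 := false) (a := 2) (b := 0) (c := 2) (cn := .pp) (n1 := ndB2q2b) (n2 := ndB2q2a) (pc := pcB0) (cut := cut_pm_202_ba) (xt := Ext.none) (P1 := 1239849684) (W1 := 370763052) (P2 := 0) (W2 := 536870912) (P3 := 649613803) (W3 := 48318383) (N0 := 3) (En := eng) (mo := mog) (C1 := cd2q2b) (C2 := cd2q2a) (C3 := pd0)
    rfl k0_pm_202_ba

noncomputable def cut_pm_202_bb : Cut := Cut.of [[⟨0, 1, 0, 67108864⟩, ⟨1, 0, 0, 67108864⟩, ⟨2, 1, 0, 67108864⟩]]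

noncomputable def f_pm_202_bb : ℕ → ℕ → ℕ → ℕ → Bool := onCell 1239849684 370763052 1239849684 370763052 649613803 48318383
    (rowB 3 eng mog cd2q2b cd2q2b pd0 0 false true false .pp 2 0 2 (qsf 1239849684 370763052 1239849684 370763052 0) ndB2q2b ndB2q2b pcB0 cut_pm_202_bb Ext.none)

def k0_pm_202_bb : ∃ t, chk3 f_pm_202_bb t 1 1 1 = true :=
  ⟨(l 3), by decide +kernel⟩

theorem c_pm_202_bb : CertB 1239849684 370763052 1239849684 370763052 649613803 48318383 3 eng mog cd2q2b cd2q2b pd0 false true false .pp 2 0 2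
    ndB2q2b ndB2q2b pcB0 cut_pm_202_bb Ext.none :=
  certB0 (fam := false) (s1 := true) (s2 := false) (a := 2) (b := 0) (c := 2) (cn := .pp) (n1 := ndB2q2b) (n2 := ndB2q2b) (pc := pcB0) (cut := cut_pm_202_bb) (xt := Ext.none) (P1 := 1239849684) (W1 := 370763052) (P2 := 1239849684) (W2 := 370763052) (P3 := 649613803) (W3 := 48318383) (N0 := 3) (En := eng) (mo := mog) (C1 := cd2q2b) (C2 := cd2q2b) (C3 := pd0)
    rfl k0_pm_202_bb

noncomputable def f_pm_203_a : ℕ → ℕ → ℕ → ℕ → Bool := onCell 0 536870912 0 536870912 649613803 48318383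
    (rowB 3 eng mog cd2q2a cd2q3 pd0 1 false true false .up 2 0 3 (qsf 0 536870912 1610612736 536870912 0) ndB2q2a ndB2q3 pcB0 Cut.none Ext.none)

def k0_pm_203_a : ∃ t, chk3 f_pm_203_a t 1 1 1 = true :=
  ⟨(l 3), by decide +kernel⟩

theorem c_pm_203_a : CertB 0 536870912 1610612736 536870912 649613803 48318383 3 eng mog cd2q2a cd2q3 pd0 false true false .up 2 0 3
    ndB2q2a ndB2q3 pcB0 Cut.none Ext.none :=
  certB1 (fam := false) (s1 := true) (s2 := false) (a := 2) (b := 0) (c := 3) (cn := .up) (n1 := ndB2q2a) (n2 := ndB2q3) (pc := pcB0) (cut := Cut.none) (xt := Ext.none) (P1 := 0) (W1 := 536870912) (P2 := 1610612736) (W2 := 536870912) (P3 := 649613803) (W3 := 48318383) (N0 := 3) (En := eng) (mo := mog) (C1 := cd2q2a) (C2 := cd2q3) (C3 := pd0)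
    rfl (fun _ => rfl) k0_pm_203_a

noncomputable def f_pm_203_b : ℕ → ℕ → ℕ → ℕ → Bool := onCell 1239849684 370763052 1610612736 536870912 649613803 48318383
    (rowB 3 eng mog cd2q2b cd2q3 pd0 0 false true false .up 2 0 3 (qsf 1239849684 370763052 1610612736 536870912 0) ndB2q2b ndB2q3 pcB0 Cut.none Ext.none)

def k0_pm_203_b : ∃ t, chk3 f_pm_203_b t 1 1 1 = true :=
  ⟨(l 3), by decide +kernel⟩

theorem c_pm_203_b : CertB 1239849684 370763052 1610612736 536870912 649613803 48318383 3 eng mog cd2q2b cd2q3 pd0 false true false .up 2 0 3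
    ndB2q2b ndB2q3 pcB0 Cut.none Ext.none :=
  certB0 (fam := false) (s1 := true) (s2 := false) (a := 2) (b := 0) (c := 3) (cn := .up) (n1 := ndB2q2b) (n2 := ndB2q3) (pc := pcB0) (cut := Cut.none) (xt := Ext.none) (P1 := 1239849684) (W1 := 370763052) (P2 := 1610612736) (W2 := 536870912) (P3 := 649613803) (W3 := 48318383) (N0 := 3) (En := eng) (mo := mog) (C1 := cd2q2b) (C2 := cd2q3) (C3 := pd0)
    rfl k0_pm_203_b

noncomputable def cut_pm_213_a : Cut := Cut.of [[⟨0, 1, 0, 67108864⟩, ⟨1, 1, 0, 67108864⟩, ⟨2, 2, 0, 16777216⟩]]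

noncomputable def f_pm_213_a : ℕ → ℕ → ℕ → ℕ → Bool := onCell 0 536870912 1610612736 536870912 649613803 48318383
    (rowB 3 eng mog cd2q2a cd2q3 pd1 0 false true false .pnn 2 1 3 (qsf 0 536870912 1610612736 536870912 1) ndB2q2a ndB2q3 pcB1 cut_pm_213_a Ext.none)

def k0_pm_213_a : ∃ t, chk3 f_pm_213_a t 1 1 1 = true :=
  ⟨(b (l 3) (a (l 3) (b (l 3) (a (l 3) (b (l 3) (b (l 3) (a (l 3) (b (l 3) (b (l 3) (l 6)))))))))), by decide +kernel⟩

theorem c_pm_213_a : CertB 0 536870912 1610612736 536870912 649613803 48318383 3 eng mog cd2q2a cd2q3 pd1 false true false .pnn 2 1 3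
    ndB2q2a ndB2q3 pcB1 cut_pm_213_a Ext.none :=
  certB0 (fam := false) (s1 := true) (s2 := false) (a := 2) (b := 1) (c := 3) (cn := .pnn) (n1 := ndB2q2a) (n2 := ndB2q3) (pc := pcB1) (cut := cut_pm_213_a) (xt := Ext.none) (P1 := 0) (W1 := 536870912) (P2 := 1610612736) (W2 := 536870912) (P3 := 649613803) (W3 := 48318383) (N0 := 3) (En := eng) (mo := mog) (C1 := cd2q2a) (C2 := cd2q3) (C3 := pd1)
    rfl k0_pm_213_a

noncomputable def cut_pm_213_b : Cut := Cut.of [[⟨0, 1, 0, 67108864⟩, ⟨1, 1, 0, 67108864⟩, ⟨2, 2, 0, 16777216⟩]]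

noncomputable def f_pm_213_b : ℕ → ℕ → ℕ → ℕ → Bool := onCell 1239849684 370763052 1610612736 536870912 649613803 48318383
    (rowB 3 eng mog cd2q2b cd2q3 pd1 0 false true false .pnn 2 1 3 (qsf 1239849684 370763052 1610612736 536870912 1) ndB2q2b ndB2q3 pcB1 cut_pm_213_b Ext.none)

def k0_pm_213_b : ∃ t, chk3 f_pm_213_b t 1 1 1 = true :=
  ⟨(l 3), by decide +kernel⟩

theorem c_pm_213_b : CertB 1239849684 370763052 1610612736 536870912 649613803 48318383 3 eng mog cd2q2b cd2q3 pd1 false true false .pnn 2 1 3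
    ndB2q2b ndB2q3 pcB1 cut_pm_213_b Ext.none :=
  certB0 (fam := false) (s1 := true) (s2 := false) (a := 2) (b := 1) (c := 3) (cn := .pnn) (n1 := ndB2q2b) (n2 := ndB2q3) (pc := pcB1) (cut := cut_pm_213_b) (xt := Ext.none) (P1 := 1239849684) (W1 := 370763052) (P2 := 1610612736) (W2 := 536870912) (P3 := 649613803) (W3 := 48318383) (N0 := 3) (En := eng) (mo := mog) (C1 := cd2q2b) (C2 := cd2q3) (C3 := pd1)
    rfl k0_pm_213_b

noncomputable def f_pm_303 : ℕ → ℕ → ℕ → ℕ → Bool := onCell 1610612736 536870912 1610612736 536870912 649613803 48318383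
    (rowB 3 eng mog cd2q3 cd2q3 pd0 0 false true false .npn 3 0 3 (qsf 1610612736 536870912 1610612736 536870912 0) ndB2q3 ndB2q3 pcB0 Cut.none Ext.none)

def k0_pm_303 : ∃ t, chk3 f_pm_303 t 1 1 1 = true :=
  ⟨(l 3), by decide +kernel⟩

theorem c_pm_303 : CertB 1610612736 536870912 1610612736 536870912 649613803 48318383 3 eng mog cd2q3 cd2q3 pd0 false true false .npn 3 0 3
    ndB2q3 ndB2q3 pcB0 Cut.none Ext.none :=
  certB0 (fam := false) (s1 := true) (s2 := false) (a := 3) (b := 0) (c := 3) (cn := .npn) (n1 := ndB2q3) (n2 := ndB2q3) (pc := pcB0) (cut := Cut.none) (xt := Ext.none) (P1 := 1610612736) (W1 := 536870912) (P2 := 1610612736) (W2 := 536870912) (P3 := 649613803) (W3 := 48318383) (N0 := 3) (En := eng) (mo := mog) (C1 := cd2q3) (C2 := cd2q3) (C3 := pd0)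
    rfl k0_pm_303

noncomputable def f_pm_313 : ℕ → ℕ → ℕ → ℕ → Bool := onCell 1610612736 536870912 1610612736 536870912 649613803 48318383
    (rowB 3 eng mog cd2q3 cd2q3 pd1 0 false true false .dn 3 1 3 (qsf 1610612736 536870912 1610612736 536870912 1) ndB2q3 ndB2q3 pcB1 Cut.none Ext.none)

def k0_pm_313 : ∃ t, chk3 f_pm_313 t 1 1 1 = true :=
  ⟨(l 3), by decide +kernel⟩

theorem c_pm_313 : CertB 1610612736 536870912 1610612736 536870912 649613803 48318383 3 eng mog cd2q3 cd2q3 pd1 false true false .dn 3 1 3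
    ndB2q3 ndB2q3 pcB1 Cut.none Ext.none :=
  certB0 (fam := false) (s1 := true) (s2 := false) (a := 3) (b := 1) (c := 3) (cn := .dn) (n1 := ndB2q3) (n2 := ndB2q3) (pc := pcB1) (cut := Cut.none) (xt := Ext.none) (P1 := 1610612736) (W1 := 536870912) (P2 := 1610612736) (W2 := 536870912) (P3 := 649613803) (W3 := 48318383) (N0 := 3) (En := eng) (mo := mog) (C1 := cd2q3) (C2 := cd2q3) (C3 := pd1)
    rfl k0_pm_313

noncomputable def f_mm_001 : ℕ → ℕ → ℕ → ℕ → Bool := onCell 0 536870912 536870912 536870912 649613803 48318383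
    (rowB 3 eng mog cd2q0 cd2q1 pd0 0 false false false .up 0 0 1 (qsf 0 536870912 536870912 536870912 0) ndB2q0 ndB2q1 pcB0 Cut.none Ext.none)

def k0_mm_001 : ∃ t, chk3 f_mm_001 t 1 1 1 = true :=
  ⟨(l 3), by decide +kernel⟩

theorem c_mm_001 : CertB 0 536870912 536870912 536870912 649613803 48318383 3 eng mog cd2q0 cd2q1 pd0 false false false .up 0 0 1
    ndB2q0 ndB2q1 pcB0 Cut.none Ext.none :=
  certB0 (fam := false) (s1 := false) (s2 := false) (a := 0) (b := 0) (c := 1) (cn := .up) (n1 := ndB2q0) (n2 := ndB2q1) (pc := pcB0) (cut := Cut.none) (xt := Ext.none) (P1 := 0) (W1 := 536870912) (P2 := 536870912) (W2 := 536870912) (P3 := 649613803) (W3 := 48318383) (N0 := 3) (En := eng) (mo := mog) (C1 := cd2q0) (C2 := cd2q1) (C3 := pd0)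
    rfl k0_mm_001

noncomputable def f_mm_011 : ℕ → ℕ → ℕ → ℕ → Bool := onCell 0 536870912 536870912 536870912 649613803 48318383
    (rowB 3 eng mog cd2q0 cd2q1 pd1 0 false false false .pnn 0 1 1 (qsf 0 536870912 536870912 536870912 1) ndB2q0 ndB2q1 pcB1 Cut.none Ext.none)

def k0_mm_011 : ∃ t, chk3 f_mm_011 t 1 1 1 = true :=
  ⟨(l 3), by decide +kernel⟩

theorem c_mm_011 : CertB 0 536870912 536870912 536870912 649613803 48318383 3 eng mog cd2q0 cd2q1 pd1 false false false .pnn 0 1 1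
    ndB2q0 ndB2q1 pcB1 Cut.none Ext.none :=
  certB0 (fam := false) (s1 := false) (s2 := false) (a := 0) (b := 1) (c := 1) (cn := .pnn) (n1 := ndB2q0) (n2 := ndB2q1) (pc := pcB1) (cut := Cut.none) (xt := Ext.none) (P1 := 0) (W1 := 536870912) (P2 := 536870912) (W2 := 536870912) (P3 := 649613803) (W3 := 48318383) (N0 := 3) (En := eng) (mo := mog) (C1 := cd2q0) (C2 := cd2q1) (C3 := pd1)
    rfl k0_mm_011

noncomputable def f_mm_012_a : ℕ → ℕ → ℕ → ℕ → Bool := onCell 0 536870912 0 536870912 649613803 48318383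
    (rowB 3 eng mog cd2q0 cd2q2a pd1 0 false false false .pnp 0 1 2 (qsf 0 536870912 0 536870912 1) ndB2q0 ndB2q2a pcB1 Cut.none Ext.none)

def k0_mm_012_a : ∃ t, chk3 f_mm_012_a t 1 1 1 = true :=
  ⟨(l 5), by decide +kernel⟩

theorem c_mm_012_a : CertB 0 536870912 0 536870912 649613803 48318383 3 eng mog cd2q0 cd2q2a pd1 false false false .pnp 0 1 2
    ndB2q0 ndB2q2a pcB1 Cut.none Ext.none :=
  certB0 (fam := false) (s1 := false) (s2 := false) (a := 0) (b := 1) (c := 2) (cn := .pnp) (n1 := ndB2q0) (n2 := ndB2q2a) (pc := pcB1) (cut := Cut.none) (xt := Ext.none) (P1 := 0) (W1 := 536870912) (P2 := 0) (W2 := 536870912) (P3 := 649613803) (W3 := 48318383) (N0 := 3) (En := eng) (mo := mog) (C1 := cd2q0) (C2 := cd2q2a) (C3 := pd1)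
    rfl k0_mm_012_a

noncomputable def f_mm_012_b : ℕ → ℕ → ℕ → ℕ → Bool := onCell 0 536870912 1239849684 370763052 649613803 48318383
    (rowB 3 eng mog cd2q0 cd2q2b pd1 0 false false false .pnp 0 1 2 (qsf 0 536870912 1239849684 370763052 1) ndB2q0 ndB2q2b pcB1 Cut.none Ext.none)

def k0_mm_012_b : ∃ t, chk3 f_mm_012_b t 1 1 1 = true :=
  ⟨(l 5), by decide +kernel⟩

theorem c_mm_012_b : CertB 0 536870912 1239849684 370763052 649613803 48318383 3 eng mog cd2q0 cd2q2b pd1 false false false .pnp 0 1 2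
    ndB2q0 ndB2q2b pcB1 Cut.none Ext.none :=
  certB0 (fam := false) (s1 := false) (s2 := false) (a := 0) (b := 1) (c := 2) (cn := .pnp) (n1 := ndB2q0) (n2 := ndB2q2b) (pc := pcB1) (cut := Cut.none) (xt := Ext.none) (P1 := 0) (W1 := 536870912) (P2 := 1239849684) (W2 := 370763052) (P3 := 649613803) (W3 := 48318383) (N0 := 3) (En := eng) (mo := mog) (C1 := cd2q0) (C2 := cd2q2b) (C3 := pd1)
    rfl k0_mm_012_b

noncomputable def f_mm_022_a : ℕ → ℕ → ℕ → ℕ → Bool := onCell 0 536870912 0 536870912 649613803 48318383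
    (rowB 3 eng mog cd2q0 cd2q2a pd2 0 false false false .pp 0 2 2 (qsf 0 536870912 0 536870912 2) ndB2q0 ndB2q2a pcB2 Cut.none Ext.none)

def k0_mm_022_a : ∃ t, chk3 f_mm_022_a t 1 1 1 = true :=
  ⟨(l 5), by decide +kernel⟩

theorem c_mm_022_a : CertB 0 536870912 0 536870912 649613803 48318383 3 eng mog cd2q0 cd2q2a pd2 false false false .pp 0 2 2
    ndB2q0 ndB2q2a pcB2 Cut.none Ext.none :=
  certB0 (fam := false) (s1 := false) (s2 := false) (a := 0) (b := 2) (c := 2) (cn := .pp) (n1 := ndB2q0) (n2 := ndB2q2a) (pc := pcB2) (cut := Cut.none) (xt := Ext.none) (P1 := 0) (W1 := 536870912) (P2 := 0) (W2 := 536870912) (P3 := 649613803) (W3 := 48318383) (N0 := 3) (En := eng) (mo := mog) (C1 := cd2q0) (C2 := cd2q2a) (C3 := pd2)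
    rfl k0_mm_022_a

noncomputable def f_mm_022_b : ℕ → ℕ → ℕ → ℕ → Bool := onCell 0 536870912 1239849684 370763052 649613803 48318383
    (rowB 3 eng mog cd2q0 cd2q2b pd2 0 false false false .pp 0 2 2 (qsf 0 536870912 1239849684 370763052 2) ndB2q0 ndB2q2b pcB2 Cut.none Ext.none)

def k0_mm_022_b : ∃ t, chk3 f_mm_022_b t 1 1 1 = true :=
  ⟨(l 5), by decide +kernel⟩

theorem c_mm_022_b : CertB 0 536870912 1239849684 370763052 649613803 48318383 3 eng mog cd2q0 cd2q2b pd2 false false false .pp 0 2 2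
    ndB2q0 ndB2q2b pcB2 Cut.none Ext.none :=
  certB0 (fam := false) (s1 := false) (s2 := false) (a := 0) (b := 2) (c := 2) (cn := .pp) (n1 := ndB2q0) (n2 := ndB2q2b) (pc := pcB2) (cut := Cut.none) (xt := Ext.none) (P1 := 0) (W1 := 536870912) (P2 := 1239849684) (W2 := 370763052) (P3 := 649613803) (W3 := 48318383) (N0 := 3) (En := eng) (mo := mog) (C1 := cd2q0) (C2 := cd2q2b) (C3 := pd2)
    rfl k0_mm_022_b

noncomputable def f_mm_023 : ℕ → ℕ → ℕ → ℕ → Bool := onCell 0 536870912 1610612736 536870912 649613803 48318383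
    (rowB 3 eng mog cd2q0 cd2q3 pd2 0 false false false .up 0 2 3 (qsf 0 536870912 1610612736 536870912 2) ndB2q0 ndB2q3 pcB2 Cut.none Ext.none)

def k0_mm_023 : ∃ t, chk3 f_mm_023 t 1 1 1 = true :=
  ⟨(l 5), by decide +kernel⟩

theorem c_mm_023 : CertB 0 536870912 1610612736 536870912 649613803 48318383 3 eng mog cd2q0 cd2q3 pd2 false false false .up 0 2 3
    ndB2q0 ndB2q3 pcB2 Cut.none Ext.none :=
  certB0 (fam := false) (s1 := false) (s2 := false) (a := 0) (b := 2) (c := 3) (cn := .up) (n1 := ndB2q0) (n2 := ndB2q3) (pc := pcB2) (cut := Cut.none) (xt := Ext.none) (P1 := 0) (W1 := 536870912) (P2 := 1610612736) (W2 := 536870912) (P3 := 649613803) (W3 := 48318383) (N0 := 3) (En := eng) (mo := mog) (C1 := cd2q0) (C2 := cd2q3) (C3 := pd2)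
    rfl k0_mm_023

noncomputable def f_mm_033 : ℕ → ℕ → ℕ → ℕ → Bool := onCell 0 536870912 1610612736 536870912 649613803 48318383
    (rowB 3 eng mog cd2q0 cd2q3 pd3 0 false false false .pnn 0 3 3 (qsf 0 536870912 1610612736 536870912 3) ndB2q0 ndB2q3 pcB3 Cut.none Ext.none)

def k0_mm_033 : ∃ t, chk3 f_mm_033 t 1 1 1 = true :=
  ⟨(l 5), by decide +kernel⟩

theorem c_mm_033 : CertB 0 536870912 1610612736 536870912 649613803 48318383 3 eng mog cd2q0 cd2q3 pd3 false false false .pnn 0 3 3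
    ndB2q0 ndB2q3 pcB3 Cut.none Ext.none :=
  certB0 (fam := false) (s1 := false) (s2 := false) (a := 0) (b := 3) (c := 3) (cn := .pnn) (n1 := ndB2q0) (n2 := ndB2q3) (pc := pcB3) (cut := Cut.none) (xt := Ext.none) (P1 := 0) (W1 := 536870912) (P2 := 1610612736) (W2 := 536870912) (P3 := 649613803) (W3 := 48318383) (N0 := 3) (En := eng) (mo := mog) (C1 := cd2q0) (C2 := cd2q3) (C3 := pd3)
    rfl k0_mm_033

noncomputable def f_mm_101 : ℕ → ℕ → ℕ → ℕ → Bool := onCell 536870912 536870912 536870912 536870912 649613803 48318383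
    (rowB 3 eng mog cd2q1 cd2q1 pd0 0 false false false .npn 1 0 1 (qsf 536870912 536870912 536870912 536870912 0) ndB2q1 ndB2q1 pcB0 Cut.none Ext.none)

def k0_mm_101 : ∃ t, chk3 f_mm_101 t 1 1 1 = true :=
  ⟨(l 3), by decide +kernel⟩

theorem c_mm_101 : CertB 536870912 536870912 536870912 536870912 649613803 48318383 3 eng mog cd2q1 cd2q1 pd0 false false false .npn 1 0 1
    ndB2q1 ndB2q1 pcB0 Cut.none Ext.none :=
  certB0 (fam := false) (s1 := false) (s2 := false) (a := 1) (b := 0) (c := 1) (cn := .npn) (n1 := ndB2q1) (n2 := ndB2q1) (pc := pcB0) (cut := Cut.none) (xt := Ext.none) (P1 := 536870912) (W1 := 536870912) (P2 := 536870912) (W2 := 536870912) (P3 := 649613803) (W3 := 48318383) (N0 := 3) (En := eng) (mo := mog) (C1 := cd2q1) (C2 := cd2q1) (C3 := pd0)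
    rfl k0_mm_101

noncomputable def f_mm_102_a : ℕ → ℕ → ℕ → ℕ → Bool := onCell 536870912 536870912 0 536870912 649613803 48318383
    (rowB 3 eng mog cd2q1 cd2q2a pd0 0 false false false .npp 1 0 2 (qsf 536870912 536870912 0 536870912 0) ndB2q1 ndB2q2a pcB0 Cut.none Ext.none)

def k0_mm_102_a : ∃ t, chk3 f_mm_102_a t 1 1 1 = true :=
  ⟨(l 5), by decide +kernel⟩

theorem c_mm_102_a : CertB 536870912 536870912 0 536870912 649613803 48318383 3 eng mog cd2q1 cd2q2a pd0 false false false .npp 1 0 2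
    ndB2q1 ndB2q2a pcB0 Cut.none Ext.none :=
  certB0 (fam := false) (s1 := false) (s2 := false) (a := 1) (b := 0) (c := 2) (cn := .npp) (n1 := ndB2q1) (n2 := ndB2q2a) (pc := pcB0) (cut := Cut.none) (xt := Ext.none) (P1 := 536870912) (W1 := 536870912) (P2 := 0) (W2 := 536870912) (P3 := 649613803) (W3 := 48318383) (N0 := 3) (En := eng) (mo := mog) (C1 := cd2q1) (C2 := cd2q2a) (C3 := pd0)
    rfl k0_mm_102_a

noncomputable def f_mm_102_b : ℕ → ℕ → ℕ → ℕ → Bool := onCell 536870912 536870912 1239849684 370763052 649613803 48318383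
    (rowB 3 eng mog cd2q1 cd2q2b pd0 0 false false false .npp 1 0 2 (qsf 536870912 536870912 1239849684 370763052 0) ndB2q1 ndB2q2b pcB0 Cut.none Ext.none)

def k0_mm_102_b : ∃ t, chk3 f_mm_102_b t 1 1 1 = true :=
  ⟨(l 5), by decide +kernel⟩

theorem c_mm_102_b : CertB 536870912 536870912 1239849684 370763052 649613803 48318383 3 eng mog cd2q1 cd2q2b pd0 false false false .npp 1 0 2
    ndB2q1 ndB2q2b pcB0 Cut.none Ext.none :=
  certB0 (fam := false) (s1 := false) (s2 := false) (a := 1) (b := 0) (c := 2) (cn := .npp) (n1 := ndB2q1) (n2 := ndB2q2b) (pc := pcB0) (cut := Cut.none) (xt := Ext.none) (P1 := 536870912) (W1 := 536870912) (P2 := 1239849684) (W2 := 370763052) (P3 := 649613803) (W3 := 48318383) (N0 := 3) (En := eng) (mo := mog) (C1 := cd2q1) (C2 := cd2q2b) (C3 := pd0)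
    rfl k0_mm_102_b

noncomputable def f_mm_112_a : ℕ → ℕ → ℕ → ℕ → Bool := onCell 536870912 536870912 0 536870912 649613803 48318383
    (rowB 3 eng mog cd2q1 cd2q2a pd1 0 false false false .dn 1 1 2 (qsf 536870912 536870912 0 536870912 1) ndB2q1 ndB2q2a pcB1 Cut.none Ext.none)

def k0_mm_112_a : ∃ t, chk3 f_mm_112_a t 1 1 1 = true :=
  ⟨(l 5), by decide +kernel⟩

theorem c_mm_112_a : CertB 536870912 536870912 0 536870912 649613803 48318383 3 eng mog cd2q1 cd2q2a pd1 false false false .dn 1 1 2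
    ndB2q1 ndB2q2a pcB1 Cut.none Ext.none :=
  certB0 (fam := false) (s1 := false) (s2 := false) (a := 1) (b := 1) (c := 2) (cn := .dn) (n1 := ndB2q1) (n2 := ndB2q2a) (pc := pcB1) (cut := Cut.none) (xt := Ext.none) (P1 := 536870912) (W1 := 536870912) (P2 := 0) (W2 := 536870912) (P3 := 649613803) (W3 := 48318383) (N0 := 3) (En := eng) (mo := mog) (C1 := cd2q1) (C2 := cd2q2a) (C3 := pd1)
    rfl k0_mm_112_a

noncomputable def f_mm_112_b : ℕ → ℕ → ℕ → ℕ → Bool := onCell 536870912 536870912 1239849684 370763052 649613803 48318383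
    (rowB 3 eng mog cd2q1 cd2q2b pd1 0 false false false .dn 1 1 2 (qsf 536870912 536870912 1239849684 370763052 1) ndB2q1 ndB2q2b pcB1 Cut.none Ext.none)

def k0_mm_112_b : ∃ t, chk3 f_mm_112_b t 1 1 1 = true :=
  ⟨(l 5), by decide +kernel⟩

theorem c_mm_112_b : CertB 536870912 536870912 1239849684 370763052 649613803 48318383 3 eng mog cd2q1 cd2q2b pd1 false false false .dn 1 1 2
    ndB2q1 ndB2q2b pcB1 Cut.none Ext.none :=
  certB0 (fam := false) (s1 := false) (s2 := false) (a := 1) (b := 1) (c := 2) (cn := .dn) (n1 := ndB2q1) (n2 := ndB2q2b) (pc := pcB1) (cut := Cut.none) (xt := Ext.none) (P1 := 536870912) (W1 := 536870912) (P2 := 1239849684) (W2 := 370763052) (P3 := 649613803) (W3 := 48318383) (N0 := 3) (En := eng) (mo := mog) (C1 := cd2q1) (C2 := cd2q2b) (C3 := pd1)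
    rfl k0_mm_112_b

noncomputable def f_mm_113 : ℕ → ℕ → ℕ → ℕ → Bool := onCell 536870912 536870912 1610612736 536870912 649613803 48318383
    (rowB 3 eng mog cd2q1 cd2q3 pd1 0 false false false .nn 1 1 3 (qsf 536870912 536870912 1610612736 536870912 1) ndB2q1 ndB2q3 pcB1 Cut.none Ext.none)

def k0_mm_113 : ∃ t, chk3 f_mm_113 t 1 1 1 = true :=
  ⟨(l 5), by decide +kernel⟩

theorem c_mm_113 : CertB 536870912 536870912 1610612736 536870912 649613803 48318383 3 eng mog cd2q1 cd2q3 pd1 false false false .nn 1 1 3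
    ndB2q1 ndB2q3 pcB1 Cut.none Ext.none :=
  certB0 (fam := false) (s1 := false) (s2 := false) (a := 1) (b := 1) (c := 3) (cn := .nn) (n1 := ndB2q1) (n2 := ndB2q3) (pc := pcB1) (cut := Cut.none) (xt := Ext.none) (P1 := 536870912) (W1 := 536870912) (P2 := 1610612736) (W2 := 536870912) (P3 := 649613803) (W3 := 48318383) (N0 := 3) (En := eng) (mo := mog) (C1 := cd2q1) (C2 := cd2q3) (C3 := pd1)
    rfl k0_mm_113

noncomputable def f_mm_123 : ℕ → ℕ → ℕ → ℕ → Bool := onCell 536870912 536870912 1610612736 536870912 649613803 48318383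
    (rowB 3 eng mog cd2q1 cd2q3 pd2 0 false false false .npn 1 2 3 (qsf 536870912 536870912 1610612736 536870912 2) ndB2q1 ndB2q3 pcB2 Cut.none Ext.none)

def k0_mm_123 : ∃ t, chk3 f_mm_123 t 1 1 1 = true :=
  ⟨(l 5), by decide +kernel⟩

theorem c_mm_123 : CertB 536870912 536870912 1610612736 536870912 649613803 48318383 3 eng mog cd2q1 cd2q3 pd2 false false false .npn 1 2 3
    ndB2q1 ndB2q3 pcB2 Cut.none Ext.none :=
  certB0 (fam := false) (s1 := false) (s2 := false) (a := 1) (b := 2) (c := 3) (cn := .npn) (n1 := ndB2q1) (n2 := ndB2q3) (pc := pcB2) (cut := Cut.none) (xt := Ext.none) (P1 := 536870912) (W1 := 536870912) (P2 := 1610612736) (W2 := 536870912) (P3 := 649613803) (W3 := 48318383) (N0 := 3) (En := eng) (mo := mog) (C1 := cd2q1) (C2 := cd2q3) (C3 := pd2)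
    rfl k0_mm_123

noncomputable def f_mm_133 : ℕ → ℕ → ℕ → ℕ → Bool := onCell 536870912 536870912 1610612736 536870912 649613803 48318383
    (rowB 3 eng mog cd2q1 cd2q3 pd3 0 false false false .dn 1 3 3 (qsf 536870912 536870912 1610612736 536870912 3) ndB2q1 ndB2q3 pcB3 Cut.none Ext.none)

def k0_mm_133 : ∃ t, chk3 f_mm_133 t 1 1 1 = true :=
  ⟨(l 5), by decide +kernel⟩

theorem c_mm_133 : CertB 536870912 536870912 1610612736 536870912 649613803 48318383 3 eng mog cd2q1 cd2q3 pd3 false false false .dn 1 3 3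
    ndB2q1 ndB2q3 pcB3 Cut.none Ext.none :=
  certB0 (fam := false) (s1 := false) (s2 := false) (a := 1) (b := 3) (c := 3) (cn := .dn) (n1 := ndB2q1) (n2 := ndB2q3) (pc := pcB3) (cut := Cut.none) (xt := Ext.none) (P1 := 536870912) (W1 := 536870912) (P2 := 1610612736) (W2 := 536870912) (P3 := 649613803) (W3 := 48318383) (N0 := 3) (En := eng) (mo := mog) (C1 := cd2q1) (C2 := cd2q3) (C3 := pd3)
    rfl k0_mm_133

noncomputable def f_mm_202_aa : ℕ → ℕ → ℕ → ℕ → Bool := onCell 0 536870912 0 536870912 649613803 48318383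
    (rowB 3 eng mog cd2q2a cd2q2a pd0 0 false false false .pp 2 0 2 (qsf 0 536870912 0 536870912 0) ndB2q2a ndB2q2a pcB0 Cut.none Ext.none)

def k0_mm_202_aa : ∃ t, chk3 f_mm_202_aa t 1 1 1 = true :=
  ⟨(l 3), by decide +kernel⟩

theorem c_mm_202_aa : CertB 0 536870912 0 536870912 649613803 48318383 3 eng mog cd2q2a cd2q2a pd0 false false false .pp 2 0 2
    ndB2q2a ndB2q2a pcB0 Cut.none Ext.none :=
  certB0 (fam := false) (s1 := false) (s2 := false) (a := 2) (b := 0) (c := 2) (cn := .pp) (n1 := ndB2q2a) (n2 := ndB2q2a) (pc := pcB0) (cut := Cut.none) (xt := Ext.none) (P1 := 0) (W1 := 536870912) (P2 := 0) (W2 := 536870912) (P3 := 649613803) (W3 := 48318383) (N0 := 3) (En := eng) (mo := mog) (C1 := cd2q2a) (C2 := cd2q2a) (C3 := pd0)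
    rfl k0_mm_202_aa

noncomputable def f_mm_202_ab : ℕ → ℕ → ℕ → ℕ → Bool := onCell 0 536870912 1239849684 370763052 649613803 48318383
    (rowB 3 eng mog cd2q2a cd2q2b pd0 0 false false false .pp 2 0 2 (qsf 0 536870912 1239849684 370763052 0) ndB2q2a ndB2q2b pcB0 Cut.none Ext.none)

def k0_mm_202_ab : ∃ t, chk3 f_mm_202_ab t 1 1 1 = true :=
  ⟨(l 3), by decide +kernel⟩

theorem c_mm_202_ab : CertB 0 536870912 1239849684 370763052 649613803 48318383 3 eng mog cd2q2a cd2q2b pd0 false false false .pp 2 0 2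
    ndB2q2a ndB2q2b pcB0 Cut.none Ext.none :=
  certB0 (fam := false) (s1 := false) (s2 := false) (a := 2) (b := 0) (c := 2) (cn := .pp) (n1 := ndB2q2a) (n2 := ndB2q2b) (pc := pcB0) (cut := Cut.none) (xt := Ext.none) (P1 := 0) (W1 := 536870912) (P2 := 1239849684) (W2 := 370763052) (P3 := 649613803) (W3 := 48318383) (N0 := 3) (En := eng) (mo := mog) (C1 := cd2q2a) (C2 := cd2q2b) (C3 := pd0)
    rfl k0_mm_202_ab

noncomputable def f_mm_202_ba : ℕ → ℕ → ℕ → ℕ → Bool := onCell 1239849684 370763052 0 536870912 649613803 48318383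
    (rowB 3 eng mog cd2q2b cd2q2a pd0 0 false false false .pp 2 0 2 (qsf 1239849684 370763052 0 536870912 0) ndB2q2b ndB2q2a pcB0 Cut.none Ext.none)

def k0_mm_202_ba : ∃ t, chk3 f_mm_202_ba t 1 1 1 = true :=
  ⟨(l 3), by decide +kernel⟩

theorem c_mm_202_ba : CertB 1239849684 370763052 0 536870912 649613803 48318383 3 eng mog cd2q2b cd2q2a pd0 false false false .pp 2 0 2
    ndB2q2b ndB2q2a pcB0 Cut.none Ext.none :=
  certB0 (fam := false) (s1 := false) (s2 := false) (a := 2) (b := 0) (c := 2) (cn := .pp) (n1 := ndB2q2b) (n2 := ndB2q2a) (pc := pcB0) (cut := Cut.none) (xt := Ext.none) (P1 := 1239849684) (W1 := 370763052) (P2 := 0) (W2 := 536870912) (P3 := 649613803) (W3 := 48318383) (N0 := 3) (En := eng) (mo := mog) (C1 := cd2q2b) (C2 := cd2q2a) (C3 := pd0)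
    rfl k0_mm_202_ba

noncomputable def f_mm_202_bb : ℕ → ℕ → ℕ → ℕ → Bool := onCell 1239849684 370763052 1239849684 370763052 649613803 48318383
    (rowB 3 eng mog cd2q2b cd2q2b pd0 0 false false false .pp 2 0 2 (qsf 1239849684 370763052 1239849684 370763052 0) ndB2q2b ndB2q2b pcB0 Cut.none Ext.none)

def k0_mm_202_bb : ∃ t, chk3 f_mm_202_bb t 1 1 1 = true :=
  ⟨(l 3), by decide +kernel⟩

theorem c_mm_202_bb : CertB 1239849684 370763052 1239849684 370763052 649613803 48318383 3 eng mog cd2q2b cd2q2b pd0 false false false .pp 2 0 2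
    ndB2q2b ndB2q2b pcB0 Cut.none Ext.none :=
  certB0 (fam := false) (s1 := false) (s2 := false) (a := 2) (b := 0) (c := 2) (cn := .pp) (n1 := ndB2q2b) (n2 := ndB2q2b) (pc := pcB0) (cut := Cut.none) (xt := Ext.none) (P1 := 1239849684) (W1 := 370763052) (P2 := 1239849684) (W2 := 370763052) (P3 := 649613803) (W3 := 48318383) (N0 := 3) (En := eng) (mo := mog) (C1 := cd2q2b) (C2 := cd2q2b) (C3 := pd0)
    rfl k0_mm_202_bb

noncomputable def f_mm_203_a : ℕ → ℕ → ℕ → ℕ → Bool := onCell 0 536870912 0 536870912 649613803 48318383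
    (rowB 3 eng mog cd2q2a cd2q3 pd0 1 false false false .up 2 0 3 (qsf 0 536870912 1610612736 536870912 0) ndB2q2a ndB2q3 pcB0 Cut.none Ext.none)

def k0_mm_203_a : ∃ t, chk3 f_mm_203_a t 1 1 1 = true :=
  ⟨(l 3), by decide +kernel⟩

theorem c_mm_203_a : CertB 0 536870912 1610612736 536870912 649613803 48318383 3 eng mog cd2q2a cd2q3 pd0 false false false .up 2 0 3
    ndB2q2a ndB2q3 pcB0 Cut.none Ext.none :=
  certB1 (fam := false) (s1 := false) (s2 := false) (a := 2) (b := 0) (c := 3) (cn := .up) (n1 := ndB2q2a) (n2 := ndB2q3) (pc := pcB0) (cut := Cut.none) (xt := Ext.none) (P1 := 0) (W1 := 536870912) (P2 := 1610612736) (W2 := 536870912) (P3 := 649613803) (W3 := 48318383) (N0 := 3) (En := eng) (mo := mog) (C1 := cd2q2a) (C2 := cd2q3) (C3 := pd0)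
    rfl (fun _ => rfl) k0_mm_203_a

noncomputable def f_mm_203_b : ℕ → ℕ → ℕ → ℕ → Bool := onCell 1239849684 370763052 1610612736 536870912 649613803 48318383
    (rowB 3 eng mog cd2q2b cd2q3 pd0 0 false false false .up 2 0 3 (qsf 1239849684 370763052 1610612736 536870912 0) ndB2q2b ndB2q3 pcB0 Cut.none Ext.none)

def k0_mm_203_b : ∃ t, chk3 f_mm_203_b t 1 1 1 = true :=
  ⟨(l 3), by decide +kernel⟩

theorem c_mm_203_b : CertB 1239849684 370763052 1610612736 536870912 649613803 48318383 3 eng mog cd2q2b cd2q3 pd0 false false false .up 2 0 3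
    ndB2q2b ndB2q3 pcB0 Cut.none Ext.none :=
  certB0 (fam := false) (s1 := false) (s2 := false) (a := 2) (b := 0) (c := 3) (cn := .up) (n1 := ndB2q2b) (n2 := ndB2q3) (pc := pcB0) (cut := Cut.none) (xt := Ext.none) (P1 := 1239849684) (W1 := 370763052) (P2 := 1610612736) (W2 := 536870912) (P3 := 649613803) (W3 := 48318383) (N0 := 3) (En := eng) (mo := mog) (C1 := cd2q2b) (C2 := cd2q3) (C3 := pd0)
    rfl k0_mm_203_b

noncomputable def f_mm_213_a : ℕ → ℕ → ℕ → ℕ → Bool := onCell 0 536870912 1610612736 536870912 649613803 48318383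
    (rowB 3 eng mog cd2q2a cd2q3 pd1 0 false false false .pnn 2 1 3 (qsf 0 536870912 1610612736 536870912 1) ndB2q2a ndB2q3 pcB1 Cut.none Ext.none)

def k0_mm_213_a : ∃ t, chk3 f_mm_213_a t 1 1 1 = true :=
  ⟨(b (l 3) (l 5)), by decide +kernel⟩

theorem c_mm_213_a : CertB 0 536870912 1610612736 536870912 649613803 48318383 3 eng mog cd2q2a cd2q3 pd1 false false false .pnn 2 1 3
    ndB2q2a ndB2q3 pcB1 Cut.none Ext.none :=
  certB0 (fam := false) (s1 := false) (s2 := false) (a := 2) (b := 1) (c := 3) (cn := .pnn) (n1 := ndB2q2a) (n2 := ndB2q3) (pc := pcB1) (cut := Cut.none) (xt := Ext.none) (P1 := 0) (W1 := 536870912) (P2 := 1610612736) (W2 := 536870912) (P3 := 649613803) (W3 := 48318383) (N0 := 3) (En := eng) (mo := mog) (C1 := cd2q2a) (C2 := cd2q3) (C3 := pd1)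
    rfl k0_mm_213_a

noncomputable def f_mm_213_b : ℕ → ℕ → ℕ → ℕ → Bool := onCell 1239849684 370763052 1610612736 536870912 649613803 48318383
    (rowB 3 eng mog cd2q2b cd2q3 pd1 0 false false false .pnn 2 1 3 (qsf 1239849684 370763052 1610612736 536870912 1) ndB2q2b ndB2q3 pcB1 Cut.none Ext.none)

def k0_mm_213_b : ∃ t, chk3 f_mm_213_b t 1 1 1 = true :=
  ⟨(l 3), by decide +kernel⟩

theorem c_mm_213_b : CertB 1239849684 370763052 1610612736 536870912 649613803 48318383 3 eng mog cd2q2b cd2q3 pd1 false false false .pnn 2 1 3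
    ndB2q2b ndB2q3 pcB1 Cut.none Ext.none :=
  certB0 (fam := false) (s1 := false) (s2 := false) (a := 2) (b := 1) (c := 3) (cn := .pnn) (n1 := ndB2q2b) (n2 := ndB2q3) (pc := pcB1) (cut := Cut.none) (xt := Ext.none) (P1 := 1239849684) (W1 := 370763052) (P2 := 1610612736) (W2 := 536870912) (P3 := 649613803) (W3 := 48318383) (N0 := 3) (En := eng) (mo := mog) (C1 := cd2q2b) (C2 := cd2q3) (C3 := pd1)
    rfl k0_mm_213_b

noncomputable def f_mm_303 : ℕ → ℕ → ℕ → ℕ → Bool := onCell 1610612736 536870912 1610612736 536870912 649613803 48318383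
    (rowB 3 eng mog cd2q3 cd2q3 pd0 0 false false false .npn 3 0 3 (qsf 1610612736 536870912 1610612736 536870912 0) ndB2q3 ndB2q3 pcB0 Cut.none Ext.none)

def k0_mm_303 : ∃ t, chk3 f_mm_303 t 1 1 1 = true :=
  ⟨(l 3), by decide +kernel⟩

theorem c_mm_303 : CertB 1610612736 536870912 1610612736 536870912 649613803 48318383 3 eng mog cd2q3 cd2q3 pd0 false false false .npn 3 0 3
    ndB2q3 ndB2q3 pcB0 Cut.none Ext.none :=
  certB0 (fam := false) (s1 := false) (s2 := false) (a := 3) (b := 0) (c := 3) (cn := .npn) (n1 := ndB2q3) (n2 := ndB2q3) (pc := pcB0) (cut := Cut.none) (xt := Ext.none) (P1 := 1610612736) (W1 := 536870912) (P2 := 1610612736) (W2 := 536870912) (P3 := 649613803) (W3 := 48318383) (N0 := 3) (En := eng) (mo := mog) (C1 := cd2q3) (C2 := cd2q3) (C3 := pd0)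
    rfl k0_mm_303

noncomputable def f_mm_313 : ℕ → ℕ → ℕ → ℕ → Bool := onCell 1610612736 536870912 1610612736 536870912 649613803 48318383
    (rowB 3 eng mog cd2q3 cd2q3 pd1 0 false false false .dn 3 1 3 (qsf 1610612736 536870912 1610612736 536870912 1) ndB2q3 ndB2q3 pcB1 Cut.none Ext.none)

def k0_mm_313 : ∃ t, chk3 f_mm_313 t 1 1 1 = true :=
  ⟨(l 3), by decide +kernel⟩

theorem c_mm_313 : CertB 1610612736 536870912 1610612736 536870912 649613803 48318383 3 eng mog cd2q3 cd2q3 pd1 false false false .dn 3 1 3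
    ndB2q3 ndB2q3 pcB1 Cut.none Ext.none :=
  certB0 (fam := false) (s1 := false) (s2 := false) (a := 3) (b := 1) (c := 3) (cn := .dn) (n1 := ndB2q3) (n2 := ndB2q3) (pc := pcB1) (cut := Cut.none) (xt := Ext.none) (P1 := 1610612736) (W1 := 536870912) (P2 := 1610612736) (W2 := 536870912) (P3 := 649613803) (W3 := 48318383) (N0 := 3) (En := eng) (mo := mog) (C1 := cd2q3) (C2 := cd2q3) (C3 := pd1)
    rfl k0_mm_313

end Pool.Agent.Strip051.G.I6050_6500.Tab.C.BB22

namespace Pool.Agent.Strip051.G.I6050_6500.Tab.C.BB23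

open Pool.Agent.Strip051.PB Pool.Agent.Strip051.PB.T
open Pool.Agent.Strip051.G.I6050_6500.Tab

noncomputable def f_pp_001 : ℕ → ℕ → ℕ → ℕ → Bool := onCell 0 536870912 536870912 536870912 649613803 48318383
    (rowB 3 eng mog cd2q0 cd3q1 pd0 0 false true true .up 0 0 1 (qsf 0 536870912 536870912 536870912 0) ndB2q0 ndB3q1 pcB0 Cut.none Ext.none)

def k0_pp_001 : ∃ t, chk3 f_pp_001 t 1 1 1 = true :=
  ⟨(l 3), by decide +kernel⟩

theorem c_pp_001 : CertB 0 536870912 536870912 536870912 649613803 48318383 3 eng mog cd2q0 cd3q1 pd0 false true true .up 0 0 1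
    ndB2q0 ndB3q1 pcB0 Cut.none Ext.none :=
  certB0 (fam := false) (s1 := true) (s2 := true) (a := 0) (b := 0) (c := 1) (cn := .up) (n1 := ndB2q0) (n2 := ndB3q1) (pc := pcB0) (cut := Cut.none) (xt := Ext.none) (P1 := 0) (W1 := 536870912) (P2 := 536870912) (W2 := 536870912) (P3 := 649613803) (W3 := 48318383) (N0 := 3) (En := eng) (mo := mog) (C1 := cd2q0) (C2 := cd3q1) (C3 := pd0)
    rfl k0_pp_001

noncomputable def f_pp_011 : ℕ → ℕ → ℕ → ℕ → Bool := onCell 0 536870912 536870912 536870912 649613803 48318383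
    (rowB 3 eng mog cd2q0 cd3q1 pd1 0 false true true .pnn 0 1 1 (qsf 0 536870912 536870912 536870912 1) ndB2q0 ndB3q1 pcB1 Cut.none Ext.none)

def k0_pp_011 : ∃ t, chk3 f_pp_011 t 1 1 1 = true :=
  ⟨(l 3), by decide +kernel⟩

theorem c_pp_011 : CertB 0 536870912 536870912 536870912 649613803 48318383 3 eng mog cd2q0 cd3q1 pd1 false true true .pnn 0 1 1
    ndB2q0 ndB3q1 pcB1 Cut.none Ext.none :=
  certB0 (fam := false) (s1 := true) (s2 := true) (a := 0) (b := 1) (c := 1) (cn := .pnn) (n1 := ndB2q0) (n2 := ndB3q1) (pc := pcB1) (cut := Cut.none) (xt := Ext.none) (P1 := 0) (W1 := 536870912) (P2 := 536870912) (W2 := 536870912) (P3 := 649613803) (W3 := 48318383) (N0 := 3) (En := eng) (mo := mog) (C1 := cd2q0) (C2 := cd3q1) (C3 := pd1)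
    rfl k0_pp_011

noncomputable def cut_pp_012_a : Cut := Cut.of [[⟨0, 0, 0, 67108864⟩, ⟨1, 1, 0, 67108864⟩, ⟨2, 1, 0, 67108864⟩]]

noncomputable def f_pp_012_a : ℕ → ℕ → ℕ → ℕ → Bool := onCell 536870912 536870912 0 536870912 649613803 48318383
    (rowB 3 eng mog cd2q0 cd3q2a pd1 2 false true true .pnp 0 1 2 (qsf 0 536870912 0 536870912 1) ndB2q0 ndB3q2a pcB1 cut_pp_012_a Ext.none)

def k0_pp_012_a : ∃ t, chk3 f_pp_012_a t 2 1 1 = true :=
  ⟨(a (l 3) (b (a (l 3) (b (a (b (a (l 3) (l 16736368)) (l 3)) (a (b (l 16746840) (l 3)) (b (l 16750136) (l 16728712)))) (l 3))) (l 3))), by decide +kernel⟩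

def k1_pp_012_a : ∃ t, chk3 f_pp_012_a t 6 1 1 = true :=
  ⟨(b (a (b (a (a (b (l 16745544) (l 16746472)) (b (l 16736424) (l 16751696))) (b (l 16804080) (l 16782560))) (b (a (a (l 3) (l 16736176)) (a (l 16745536) (l 16751840))) (l 3))) (b (a (b (l 16692000) (l 16733928)) (b (l 16663000) (l 16683192))) (a (b (a (l 16743048) (l 16729360)) (a (l 16720528) (l 16749832))) (b (a (l 16714472) (l 16699744)) (a (l 16739864) (l 16726336)))))) (a (l 3) (b (a (l 3) (b (b (l 43117542183) (l 189146457735)) (l 3))) (l 3)))), by decide +kernel⟩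

def k2_pp_012_a : ∃ t, chk3 f_pp_012_a t 7 1 1 = true :=
  ⟨(b (a (b (a (l 16645560) (l 16621032)) (a (b (a (l 16685016) (l 16670672)) (a (l 16712392) (l 16698312))) (b (l 16608376) (b (l 16670168) (l 16684328))))) (b (a (l 16643208) (b (l 16570408) (l 16584720))) (a (b (l 16626848) (l 16651896)) (b (l 16603864) (l 16628672))))) (a (b (a (b (a (l 16761936) (l 16728192)) (b (a (l 16766992) (l 16750192)) (a (l 3) (l 195588832455)))) (b (a (l 16714816) (b (l 16693184) (l 16709488))) (a (b (l 16739576) (l 16777176)) (b (l 16727080) (l 16746024))))) (b (a (l 3) (b (a (l 3) (l 127943048743)) (l 3))) (l 3))) (b (a (b (b (l 16673856) (l 16690280)) (a (l 16745248) (b (l 16702328) (l 16720416)))) (b (a (l 16665520) (l 16650584)) (a (b (l 16689152) (l 16705960)) (b (l 16676016) (l 16690904))))) (b (a (b (a (l 16774888) (l 16738720)) (a (b (l 113984305687) (l 203641888183)) (a (b (l 16757136) (l 16767496)) (l 16775456)))) (b (a (l 16723088) (a (l 16711632) (l 16704424)))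 (a (b (l 16737424) (a (l 16751784) (l 16744000))) (a (b (l 16725840) (l 16736264)) (b (l 16718224) (l 6)))))) (a (b (a (l 3) (b (a (l 306721008631) (b (l 16767600) (l 16771120))) (l 3))) (l 3)) (b (a (b (a (l 16762560) (l 6)) (l 6)) (l 6)) (l 6))))))), by decide +kernel⟩

theorem s3_pp_012_a : ∃ t, chk3 f_pp_012_a t 3 1 1 = true := ex3_a k1_pp_012_a k2_pp_012_a

theorem s4_pp_012_a : ∃ t, chk3 f_pp_012_a t 1 1 1 = true := ex3_a k0_pp_012_a s3_pp_012_a

theorem c_pp_012_a : CertB 0 536870912 0 536870912 649613803 48318383 3 eng mog cd2q0 cd3q2a pd1 false true true .pnp 0 1 2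
    ndB2q0 ndB3q2a pcB1 cut_pp_012_a Ext.none :=
  certB2 (fam := false) (s1 := true) (s2 := true) (a := 0) (b := 1) (c := 2) (cn := .pnp) (n1 := ndB2q0) (n2 := ndB3q2a) (pc := pcB1) (cut := cut_pp_012_a) (xt := Ext.none) (P1 := 0) (W1 := 536870912) (P2 := 0) (W2 := 536870912) (P3 := 649613803) (W3 := 48318383) (N0 := 3) (En := eng) (mo := mog) (C1 := cd2q0) (C2 := cd3q2a) (C3 := pd1)
    rfl (fun _ => rfl) s4_pp_012_a

noncomputable def cut_pp_012_b : Cut := Cut.of [[⟨0, 0, 0, 67108864⟩, ⟨1, 1, 0, 67108864⟩, ⟨2, 1, 0, 67108864⟩]]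

noncomputable def f_pp_012_b : ℕ → ℕ → ℕ → ℕ → Bool := onCell 536870912 536870912 1239849684 370763052 649613803 48318383
    (rowB 3 eng mog cd2q0 cd3q2b pd1 2 false true true .pnp 0 1 2 (qsf 0 536870912 1239849684 370763052 1) ndB2q0 ndB3q2b pcB1 cut_pp_012_b Ext.none)

def k0_pp_012_b : ∃ t, chk3 f_pp_012_b t 1 1 1 = true :=
  ⟨(a (a (l 2) (b (a (l 3) (b (a (b (b (l 16746864) (l 16739568)) (l 16718104)) (b (l 16734192) (l 16698544))) (a (l 2) (b (l 16665208) (l 2))))) (l 2))) (a (b (a (b (a (b (l 16774128) (l 16669304)) (b (l 16685632) (l 16639336))) (a (b (l 16632456) (l 2)) (b (l 16599048) (l 16589136)))) (b (b (a (l 16655480) (l 16625872)) (a (l 16605464) (l 16572736))) (b (l 16648792) (l 16526736)))) (a (l 2) (b (l 16529824) (l 2)))) (b (a (b (b (a (l 16640592) (l 16575008)) (l 16528712)) (b (l 16477632) (l 16449904))) (b (a (b (l 16555984) (l 16493384)) (b (l 16536768) (l 16476880))) (b (l 16467848) (l 16382992)))) (a (b (l 16437624) (l 16465584))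 (b (l 16391560) (l 16357336)))))), by decide +kernel⟩

theorem c_pp_012_b : CertB 0 536870912 1239849684 370763052 649613803 48318383 3 eng mog cd2q0 cd3q2b pd1 false true true .pnp 0 1 2
    ndB2q0 ndB3q2b pcB1 cut_pp_012_b Ext.none :=
  certB2 (fam := false) (s1 := true) (s2 := true) (a := 0) (b := 1) (c := 2) (cn := .pnp) (n1 := ndB2q0) (n2 := ndB3q2b) (pc := pcB1) (cut := cut_pp_012_b) (xt := Ext.none) (P1 := 0) (W1 := 536870912) (P2 := 1239849684) (W2 := 370763052) (P3 := 649613803) (W3 := 48318383) (N0 := 3) (En := eng) (mo := mog) (C1 := cd2q0) (C2 := cd3q2b) (C3 := pd1)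
    rfl (fun _ => rfl) k0_pp_012_b

noncomputable def cut_pp_022_a : Cut := Cut.of [[⟨0, 0, 0, 67108864⟩, ⟨1, 1, 0, 67108864⟩, ⟨2, 1, 0, 67108864⟩]]

noncomputable def f_pp_022_a : ℕ → ℕ → ℕ → ℕ → Bool := onCell 0 536870912 0 536870912 649613803 48318383
    (rowB 3 eng mog cd2q0 cd3q2a pd2 0 false true true .pp 0 2 2 (qsf 0 536870912 0 536870912 2) ndB2q0 ndB3q2a pcB2 cut_pp_022_a Ext.none)

def k0_pp_022_a : ∃ t, chk3 f_pp_022_a t 4 2 1 = true :=
  ⟨(a (b (b (a (a (c (l 16447488) (l 16433768)) (c (l 16459008) (l 16446776))) (c (l 16517968) (l 16507784))) (b (a (a (a (l 16442528) (l 16449488)) (l 16459688)) (a (l 16472928) (l 16485784))) (a (a (a (l 16447336) (l 16454920)) (l 16465968)) (l 16487168)))) (a (b (a (b (a (l 16454632) (l 16462800)) (a (l 16464792) (l 16473536))) (b (l 16474664) (l 16486208))) (a (b (a (l 16477864) (l 16487168)) (c (l 16504840) (l 16492472))) (b (l 16500648) (l 16518104)))) (b (b (l 16497280) (l 16510272)) (a (b (l 16517880)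 (l 16536328)) (l 16606912))))) (b (a (b (c (l 16540104) (l 16511296)) (b (l 16504392) (l 16513688))) (a (b (l 16511544) (l 16527312)) (b (l 16522728) (l 16539120)))) (b (a (b (l 16525376) (l 16539960)) (l 16559272)) (a (a (l 16643928) (l 16575272)) (l 16596704))))), by decide +kernel⟩

def k1_pp_022_a : ∃ t, chk3 f_pp_022_a t 4 3 1 = true :=
  ⟨(b (a (a (b (b (a (b (l 16513152) (l 16523792)) (l 16538752)) (a (a (b (l 16529888) (l 16542192)) (l 16547008)) (l 16583864))) (a (b (a (b (l 16555400) (l 16569688)) (l 16595024)) (a (b (l 16605976) (l 16622112)) (b (l 16596952) (l 16613376)))) (a (b (l 16585264) (l 16637832)) (b (l 16596160) (l 16649232))))) (b (a (b (l 16557976) (l 16583104)) (b (l 16576184) (l 16602200))) (b (a (b (l 16604232) (l 16619656)) (l 16631880)) (a (a (l 16639320) (l 16650048)) (l 16665496))))) (b (a (a (l 16627744) (l 16623368)) (b (l 16627600) (l 184716936983))) (a (b (a (l 16650624) (l 16657664)) (a (l 121366212359) (l 482143415239)))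 (b (l 502007630135) (l 1))))) (a (b (b (b (a (a (a (a (l 16615320) (l 16621664)) (l 16630984)) (c (l 16672592) (l 16646064))) (a (l 16671816) (l 16685872))) (a (a (a (b (l 16632352) (l 6)) (l 16670776)) (a (l 16683144) (l 16674176))) (a (l 16691448) (a (l 16696472) (l 133714168375))))) (a (l 6) (a (l 6) (a (l 6) (a (l 6) (l 1)))))) (a (l 6) (a (l 6) (l 1)))) (b (a (b (a (b (l 164852638919) (l 424698293879)) (l 1)) (l 1)) (l 1)) (l 1)))), by decide +kernel⟩

def k2_pp_022_a : ∃ t, chk3 f_pp_022_a t 5 1 1 = true :=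
  ⟨(b (a (a (b (b (b (l 16539872) (l 16545800)) (l 16685528)) (b (l 16582088) (l 238403969431))) (b (b (l 1) (l 1)) (l 1))) (l 1)) (b (l 1) (l 1))), by decide +kernel⟩

def k3_pp_022_a : ∃ t, chk3 f_pp_022_a t 3 1 1 = true :=
  ⟨(l 1), by decide +kernel⟩

theorem s4_pp_022_a : ∃ t, chk3 f_pp_022_a t 4 1 1 = true := ex3_b k0_pp_022_a k1_pp_022_a

theorem s5_pp_022_a : ∃ t, chk3 f_pp_022_a t 2 1 1 = true := ex3_a s4_pp_022_a k2_pp_022_a

theorem s6_pp_022_a : ∃ t, chk3 f_pp_022_a t 1 1 1 = true := ex3_a s5_pp_022_a k3_pp_022_a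

theorem c_pp_022_a : CertB 0 536870912 0 536870912 649613803 48318383 3 eng mog cd2q0 cd3q2a pd2 false true true .pp 0 2 2
    ndB2q0 ndB3q2a pcB2 cut_pp_022_a Ext.none :=
  certB0 (fam := false) (s1 := true) (s2 := true) (a := 0) (b := 2) (c := 2) (cn := .pp) (n1 := ndB2q0) (n2 := ndB3q2a) (pc := pcB2) (cut := cut_pp_022_a) (xt := Ext.none) (P1 := 0) (W1 := 536870912) (P2 := 0) (W2 := 536870912) (P3 := 649613803) (W3 := 48318383) (N0 := 3) (En := eng) (mo := mog) (C1 := cd2q0) (C2 := cd3q2a) (C3 := pd2)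
    rfl s6_pp_022_a

noncomputable def cut_pp_022_b : Cut := Cut.of [[⟨0, 0, 0, 67108864⟩, ⟨1, 1, 0, 67108864⟩, ⟨2, 1, 0, 67108864⟩]]

noncomputable def f_pp_022_b : ℕ → ℕ → ℕ → ℕ → Bool := onCell 1073741824 536870912 1239849684 370763052 649613803 48318383
    (rowB 3 eng mog cd2q0 cd3q2b pd2 2 false true true .pp 0 2 2 (qsf 0 536870912 1239849684 370763052 2) ndB2q0 ndB3q2b pcB2 cut_pp_022_b Ext.none)

def k0_pp_022_b : ∃ t, chk3 f_pp_022_b t 2 1 1 = true :=
  ⟨(a (b (b (a (b (a (b (l 16522392) (l 16494120)) (a (l 16489568) (a (l 16584696) (l 16578488)))) (a (l 16450240) (l 16429944))) (b (a (b (a (l 16479392) (l 16468584)) (l 16570616)) (b (a (l 16457680) (l 16446688)) (l 16464952))) (a (l 16405768) (b (l 16394288) (l 16367584))))) (b (a (l 16423728) (a (l 16354256) (l 16330888))) (a (l 16329032) (l 16287680)))) (a (b (l 16279640) (l 16267280)) (b (l 16233912) (l 16211120)))) (b (a (b (b (a (b (a (l 16456584) (c (l 16430352) (l 16417200))) (a (l 16406944)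 (l 16396216))) (a (a (b (l 16436944) (l 16388128)) (b (a (l 16411720) (l 218002460887)) (l 16382656))) (b (l 365641881143) (l 243772199175)))) (a (b (l 16373416) (l 16345344)) (a (b (l 16357768) (l 16330088)) (l 16354536)))) (a (b (l 16306296) (l 16252904)) (b (a (l 16414544) (l 16283888)) (l 16297480)))) (b (b (a (b (l 1) (a (l 365641792519) (l 1))) (l 1)) (a (b (a (l 271689379623) (l 305512174759)) (a (l 16310280) (l 16296840))) (b (a (l 379600321511) (l 1)) (a (l 315712658823) (l 374768424775))))) (b (a (b (l 16285600) (l 16267128)) (b (a (l 16268960) (l 333966236615)) (l 16251808))) (a (l 16237952) (l 16233656))))) (a (b (a (l 16190464) (l 16267320)) (a (l 16162296) (l 16132448))) (b (b (a (l 16194912) (l 16204608)) (l 16158936)) (l 16106080))))), by decide +kernel⟩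

def k1_pp_022_b : ∃ t, chk3 f_pp_022_b t 3 1 1 = true :=
  ⟨(b (a (b (l 1) (a (b (a (b (a (l 366715314231) (l 1)) (b (a (l 16236552) (l 412349306887)) (l 335040018583))) (b (l 1) (a (l 466573240791) (l 1)))) (a (l 16262392) (b (l 370473333015) (l 16221096)))) (a (a (b (l 1) (l 435434679783)) (l 1)) (l 1)))) (l 1)) (a (b (a (b (a (l 16203456) (l 16195560)) (l 16186512)) (b (a (a (l 16185872) (l 421476254935)) (b (l 476236834071) (l 403759269655))) (a (l 16181712) (l 345240613383)))) (a (l 16221584) (b (l 16201656) (l 16180784)))) (a (b (b (l 1) (a (b (l 487511125175) (l 363494239655)) (l 528850184295))) (b (a (l 16182824) (l 344166956311)) (l 16193672))) (b (l 1) (b (a (l 540661378311) (l 1)) (a (l 16201736) (l 490196022167))))))), by decide +kernel⟩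

theorem s2_pp_022_b : ∃ t, chk3 f_pp_022_b t 1 1 1 = true := ex3_a k0_pp_022_b k1_pp_022_b

theorem c_pp_022_b : CertB 0 536870912 1239849684 370763052 649613803 48318383 3 eng mog cd2q0 cd3q2b pd2 false true true .pp 0 2 2
    ndB2q0 ndB3q2b pcB2 cut_pp_022_b Ext.none :=
  certB2 (fam := false) (s1 := true) (s2 := true) (a := 0) (b := 2) (c := 2) (cn := .pp) (n1 := ndB2q0) (n2 := ndB3q2b) (pc := pcB2) (cut := cut_pp_022_b) (xt := Ext.none) (P1 := 0) (W1 := 536870912) (P2 := 1239849684) (W2 := 370763052) (P3 := 649613803) (W3 := 48318383) (N0 := 3) (En := eng) (mo := mog) (C1 := cd2q0) (C2 := cd3q2b) (C3 := pd2)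
    rfl (fun _ => rfl) s2_pp_022_b

noncomputable def f_pp_023 : ℕ → ℕ → ℕ → ℕ → Bool := onCell 1073741824 536870912 1610612736 536870912 649613803 48318383
    (rowB 3 eng mog cd2q0 cd3q3 pd2 2 false true true .up 0 2 3 (qsf 0 536870912 1610612736 536870912 2) ndB2q0 ndB3q3 pcB2 Cut.none Ext.none)

def k0_pp_023 : ∃ t, chk3 f_pp_023 t 1 1 1 = true :=
  ⟨(a (b (a (b (a (l 16365024) (l 16280848)) (a (l 2) (l 16452488))) (a (b (a (l 16217032) (l 16182048)) (l 16352136)) (b (l 16174328) (l 16316656)))) (a (l 2) (b (a (l 2) (l 16470280)) (l 2)))) (a (b (b (a (l 16103480) (b (l 16155888) (l 16109328))) (a (l 16285400) (l 16250112))) (b (a (l 16498856) (l 16506608)) (l 462883457223))) (b (b (a (b (l 16192848) (l 16199488)) (b (l 16204968) (l 16225368))) (a (l 16252280) (l 16271384))) (a (l 16656296) (b (l 16486784) (l 16621888)))))), by decide +kernel⟩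

theorem c_pp_023 : CertB 0 536870912 1610612736 536870912 649613803 48318383 3 eng mog cd2q0 cd3q3 pd2 false true true .up 0 2 3
    ndB2q0 ndB3q3 pcB2 Cut.none Ext.none :=
  certB2 (fam := false) (s1 := true) (s2 := true) (a := 0) (b := 2) (c := 3) (cn := .up) (n1 := ndB2q0) (n2 := ndB3q3) (pc := pcB2) (cut := Cut.none) (xt := Ext.none) (P1 := 0) (W1 := 536870912) (P2 := 1610612736) (W2 := 536870912) (P3 := 649613803) (W3 := 48318383) (N0 := 3) (En := eng) (mo := mog) (C1 := cd2q0) (C2 := cd3q3) (C3 := pd2)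
    rfl (fun _ => rfl) k0_pp_023

noncomputable def f_pp_033 : ℕ → ℕ → ℕ → ℕ → Bool := onCell 0 536870912 1610612736 536870912 649613803 48318383
    (rowB 3 eng mog cd2q0 cd3q3 pd3 1 false true true .pnn 0 3 3 (qsf 0 536870912 1610612736 536870912 3) ndB2q0 ndB3q3 pcB3 Cut.none Ext.none)

def k0_pp_033 : ∃ t, chk3 f_pp_033 t 1 1 1 = true :=
  ⟨(a (b (b (a (b (a (l 16149944) (l 16163408)) (a (l 16111680) (l 16174392))) (b (l 16273512) (l 16328640))) (b (a (a (l 16167696) (l 16238976)) (l 16384912)) (a (a (l 16238560) (l 16303664)) (l 16431568)))) (a (b (l 4) (l 4)) (b (l 4) (a (b (l 4) (l 2)) (l 2))))) (b (a (b (b (l 16485872) (l 16647952)) (b (l 16563840) (l 4))) (b (b (l 16642872) (l 16664808)) (a (b (l 4) (l 2)) (l 2)))) (a (b (a (b (l 4) (l 2)) (l 2)) (l 2)) (l 2)))), by decide +kernel⟩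

theorem c_pp_033 : CertB 0 536870912 1610612736 536870912 649613803 48318383 3 eng mog cd2q0 cd3q3 pd3 false true true .pnn 0 3 3
    ndB2q0 ndB3q3 pcB3 Cut.none Ext.none :=
  certB1 (fam := false) (s1 := true) (s2 := true) (a := 0) (b := 3) (c := 3) (cn := .pnn) (n1 := ndB2q0) (n2 := ndB3q3) (pc := pcB3) (cut := Cut.none) (xt := Ext.none) (P1 := 0) (W1 := 536870912) (P2 := 1610612736) (W2 := 536870912) (P3 := 649613803) (W3 := 48318383) (N0 := 3) (En := eng) (mo := mog) (C1 := cd2q0) (C2 := cd3q3) (C3 := pd3)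
    rfl (fun _ => rfl) k0_pp_033

noncomputable def f_pp_101 : ℕ → ℕ → ℕ → ℕ → Bool := onCell 536870912 536870912 536870912 536870912 649613803 48318383
    (rowB 3 eng mog cd2q1 cd3q1 pd0 0 false true true .npn 1 0 1 (qsf 536870912 536870912 536870912 536870912 0) ndB2q1 ndB3q1 pcB0 Cut.none Ext.none)

def k0_pp_101 : ∃ t, chk3 f_pp_101 t 1 1 1 = true :=
  ⟨(l 3), by decide +kernel⟩

theorem c_pp_101 : CertB 536870912 536870912 536870912 536870912 649613803 48318383 3 eng mog cd2q1 cd3q1 pd0 false true true .npn 1 0 1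
    ndB2q1 ndB3q1 pcB0 Cut.none Ext.none :=
  certB0 (fam := false) (s1 := true) (s2 := true) (a := 1) (b := 0) (c := 1) (cn := .npn) (n1 := ndB2q1) (n2 := ndB3q1) (pc := pcB0) (cut := Cut.none) (xt := Ext.none) (P1 := 536870912) (W1 := 536870912) (P2 := 536870912) (W2 := 536870912) (P3 := 649613803) (W3 := 48318383) (N0 := 3) (En := eng) (mo := mog) (C1 := cd2q1) (C2 := cd3q1) (C3 := pd0)
    rfl k0_pp_101

noncomputable def f_pp_102_a : ℕ → ℕ → ℕ → ℕ → Bool := onCell 0 536870912 0 536870912 649613803 48318383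
    (rowB 3 eng mog cd2q1 cd3q2a pd0 2 false true true .npp 1 0 2 (qsf 536870912 536870912 0 536870912 0) ndB2q1 ndB3q2a pcB0 Cut.none Ext.none)

def k0_pp_102_a : ∃ t, chk3 f_pp_102_a t 1 1 1 = true :=
  ⟨(a (l 3) (l 3)), by decide +kernel⟩

theorem c_pp_102_a : CertB 536870912 536870912 0 536870912 649613803 48318383 3 eng mog cd2q1 cd3q2a pd0 false true true .npp 1 0 2
    ndB2q1 ndB3q2a pcB0 Cut.none Ext.none :=
  certB2 (fam := false) (s1 := true) (s2 := true) (a := 1) (b := 0) (c := 2) (cn := .npp) (n1 := ndB2q1) (n2 := ndB3q2a) (pc := pcB0) (cut := Cut.none) (xt := Ext.none) (P1 := 536870912) (W1 := 536870912) (P2 := 0) (W2 := 536870912) (P3 := 649613803) (W3 := 48318383) (N0 := 3) (En := eng) (mo := mog) (C1 := cd2q1) (C2 := cd3q2a) (C3 := pd0)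
    rfl (fun _ => rfl) k0_pp_102_a

noncomputable def f_pp_102_b : ℕ → ℕ → ℕ → ℕ → Bool := onCell 536870912 536870912 0 536870912 649613803 48318383
    (rowB 3 eng mog cd2q1 cd3q2b pd0 1 false true true .npp 1 0 2 (qsf 536870912 536870912 1239849684 370763052 0) ndB2q1 ndB3q2b pcB0 Cut.none Ext.none)

def k0_pp_102_b : ∃ t, chk3 f_pp_102_b t 1 1 1 = true :=
  ⟨(l 3), by decide +kernel⟩

theorem c_pp_102_b : CertB 536870912 536870912 1239849684 370763052 649613803 48318383 3 eng mog cd2q1 cd3q2b pd0 false true true .npp 1 0 2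
    ndB2q1 ndB3q2b pcB0 Cut.none Ext.none :=
  certB1 (fam := false) (s1 := true) (s2 := true) (a := 1) (b := 0) (c := 2) (cn := .npp) (n1 := ndB2q1) (n2 := ndB3q2b) (pc := pcB0) (cut := Cut.none) (xt := Ext.none) (P1 := 536870912) (W1 := 536870912) (P2 := 1239849684) (W2 := 370763052) (P3 := 649613803) (W3 := 48318383) (N0 := 3) (En := eng) (mo := mog) (C1 := cd2q1) (C2 := cd3q2b) (C3 := pd0)
    rfl (fun _ => rfl) k0_pp_102_b

noncomputable def f_pp_112_a : ℕ → ℕ → ℕ → ℕ → Bool := onCell 536870912 536870912 0 536870912 649613803 48318383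
    (rowB 3 eng mog cd2q1 cd3q2a pd1 0 false true true .dn 1 1 2 (qsf 536870912 536870912 0 536870912 1) ndB2q1 ndB3q2a pcB1 Cut.none Ext.none)

def k0_pp_112_a : ∃ t, chk3 f_pp_112_a t 1 1 1 = true :=
  ⟨(a (b (l 3) (l 3)) (l 1)), by decide +kernel⟩

theorem c_pp_112_a : CertB 536870912 536870912 0 536870912 649613803 48318383 3 eng mog cd2q1 cd3q2a pd1 false true true .dn 1 1 2
    ndB2q1 ndB3q2a pcB1 Cut.none Ext.none :=
  certB0 (fam := false) (s1 := true) (s2 := true) (a := 1) (b := 1) (c := 2) (cn := .dn) (n1 := ndB2q1) (n2 := ndB3q2a) (pc := pcB1) (cut := Cut.none) (xt := Ext.none) (P1 := 536870912) (W1 := 536870912) (P2 := 0) (W2 := 536870912) (P3 := 649613803) (W3 := 48318383) (N0 := 3) (En := eng) (mo := mog) (C1 := cd2q1) (C2 := cd3q2a) (C3 := pd1)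
    rfl k0_pp_112_a

noncomputable def f_pp_112_b : ℕ → ℕ → ℕ → ℕ → Bool := onCell 536870912 536870912 1239849684 370763052 649613803 48318383
    (rowB 3 eng mog cd2q1 cd3q2b pd1 2 false true true .dn 1 1 2 (qsf 536870912 536870912 1239849684 370763052 1) ndB2q1 ndB3q2b pcB1 Cut.none Ext.none)

def k0_pp_112_b : ∃ t, chk3 f_pp_112_b t 1 1 1 = true :=
  ⟨(a (a (l 3) (b (a (l 3) (b (a (b (l 212097506343) (l 16701584)) (b (l 1) (l 16687616))) (a (l 117205684087) (b (l 16668976) (l 16667272))))) (a (l 3) (a (l 3) (b (l 145659920263) (b (l 291688766375) (l 3))))))) (a (b (b (l 1) (a (a (l 47278263207) (l 69826798807)) (l 190085828615))) (a (a (b (l 16659512) (a (l 16789488) (l 16720384))) (b (l 16622480) (l 16698960))) (b (l 16555296) (a (l 16653992) (l 16597928))))) (b (l 1) (a (b (l 16472864) (l 16514296)) (b (l 1) (l 16411648)))))), by decide +kernel⟩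

theorem c_pp_112_b : CertB 536870912 536870912 1239849684 370763052 649613803 48318383 3 eng mog cd2q1 cd3q2b pd1 false true true .dn 1 1 2
    ndB2q1 ndB3q2b pcB1 Cut.none Ext.none :=
  certB2 (fam := false) (s1 := true) (s2 := true) (a := 1) (b := 1) (c := 2) (cn := .dn) (n1 := ndB2q1) (n2 := ndB3q2b) (pc := pcB1) (cut := Cut.none) (xt := Ext.none) (P1 := 536870912) (W1 := 536870912) (P2 := 1239849684) (W2 := 370763052) (P3 := 649613803) (W3 := 48318383) (N0 := 3) (En := eng) (mo := mog) (C1 := cd2q1) (C2 := cd3q2b) (C3 := pd1)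
    rfl (fun _ => rfl) k0_pp_112_b

noncomputable def f_pp_113 : ℕ → ℕ → ℕ → ℕ → Bool := onCell 536870912 536870912 536870912 536870912 649613803 48318383
    (rowB 3 eng mog cd2q1 cd3q3 pd1 1 false true true .nn 1 1 3 (qsf 536870912 536870912 1610612736 536870912 1) ndB2q1 ndB3q3 pcB1 Cut.none Ext.none)

def k0_pp_113 : ∃ t, chk3 f_pp_113 t 1 1 1 = true :=
  ⟨(a (b (a (l 1) (a (l 1) (a (l 1) (l 3)))) (b (b (a (l 1) (b (a (l 1) (l 16751816)) (a (l 16703552) (l 16794504)))) (a (l 171832214711) (b (a (l 16710768) (l 16845200)) (l 16803128)))) (b (a (l 133177448455) (l 16869376)) (a (l 16519816) (l 16819960))))) (a (b (l 3) (b (b (b (a (l 237464686039) (l 3)) (a (l 16894432) (b (l 16825560) (l 16856712)))) (b (a (l 17038256) (l 16912040)) (a (l 17109376) (l 16975200)))) (b (a (l 17015584) (l 17046144)) (l 16935256)))) (b (l 3) (b (b (b (l 3) (a (b (l 3) (l 16767728)) (l 3))) (a (b (l 58149405335) (l 16861976)) (b (b (l 3) (l 16744096)) (l 94119682183))))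 (b (b (a (l 16902368) (l 16808792)) (l 16878704)) (b (l 16884440) (l 16872904))))))), by decide +kernel⟩

theorem c_pp_113 : CertB 536870912 536870912 1610612736 536870912 649613803 48318383 3 eng mog cd2q1 cd3q3 pd1 false true true .nn 1 1 3
    ndB2q1 ndB3q3 pcB1 Cut.none Ext.none :=
  certB1 (fam := false) (s1 := true) (s2 := true) (a := 1) (b := 1) (c := 3) (cn := .nn) (n1 := ndB2q1) (n2 := ndB3q3) (pc := pcB1) (cut := Cut.none) (xt := Ext.none) (P1 := 536870912) (W1 := 536870912) (P2 := 1610612736) (W2 := 536870912) (P3 := 649613803) (W3 := 48318383) (N0 := 3) (En := eng) (mo := mog) (C1 := cd2q1) (C2 := cd3q3) (C3 := pd1)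
    rfl (fun _ => rfl) k0_pp_113

noncomputable def f_pp_123 : ℕ → ℕ → ℕ → ℕ → Bool := onCell 1073741824 536870912 1610612736 536870912 649613803 48318383
    (rowB 3 eng mog cd2q1 cd3q3 pd2 2 false true true .npn 1 2 3 (qsf 536870912 536870912 1610612736 536870912 2) ndB2q1 ndB3q3 pcB2 Cut.none Ext.none)

def k0_pp_123 : ∃ t, chk3 f_pp_123 t 1 1 1 = true :=
  ⟨(a (b (a (b (a (l 16442960) (l 16363912)) (a (l 16725080) (l 16574896))) (a (b (l 198138512631) (l 16443592)) (b (l 1) (l 16421304)))) (a (b (a (l 16816672) (l 16688336)) (a (l 17028808) (l 16679448))) (a (b (l 16568824) (a (l 16626120) (l 16565536))) (b (l 16544040) (b (l 16577912) (l 16581936)))))) (b (a (a (l 230350639287) (l 1)) (l 1)) (a (a (b (l 16556568) (l 16604056)) (l 276522232087)) (a (l 16751112) (l 16770712))))), by decide +kernel⟩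

theorem c_pp_123 : CertB 536870912 536870912 1610612736 536870912 649613803 48318383 3 eng mog cd2q1 cd3q3 pd2 false true true .npn 1 2 3
    ndB2q1 ndB3q3 pcB2 Cut.none Ext.none :=
  certB2 (fam := false) (s1 := true) (s2 := true) (a := 1) (b := 2) (c := 3) (cn := .npn) (n1 := ndB2q1) (n2 := ndB3q3) (pc := pcB2) (cut := Cut.none) (xt := Ext.none) (P1 := 536870912) (W1 := 536870912) (P2 := 1610612736) (W2 := 536870912) (P3 := 649613803) (W3 := 48318383) (N0 := 3) (En := eng) (mo := mog) (C1 := cd2q1) (C2 := cd3q3) (C3 := pd2)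
    rfl (fun _ => rfl) k0_pp_123

end Pool.Agent.Strip051.G.I6050_6500.Tab.C.BB23

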