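import Pool.Agent.Strip051.G.I6050_6500.Tab

/-! # Certificates B36 (generated) -/

set_option linter.all false
set_option maxRecDepth 100000

namespace Pool.Agent.Strip051.G.I6050_6500.Tab.C.BB27

open Pool.Agent.Strip051.PB Pool.Agent.Strip051.PB.T
open Pool.Agent.Strip051.G.I6050_6500.Tab

noncomputable def f_pm_113 : ℕ → ℕ → ℕ → ℕ → Bool := onCell 536870912 536870912 0 1230186008 649613803 48318383
    (rowB 3 eng mog cd2q1 cd7q3 pd1 0 false true false .nn 1 1 3 (qsf 536870912 536870912 0 1230186008 1) ndB2q1 ndB7q3 pcB1 Cut.none Ext.none)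

def k0_pm_113 : ∃ t, chk3 f_pm_113 t 1 1 1 = true :=
  ⟨(b (a (l 2) (a (l 2) (b (a (l 2) (b (l 16744696) (l 16760024))) (a (l 16681712) (l 16835104))))) (b (b (a (l 2) (a (a (l 2) (l 16558312)) (b (l 16675808) (l 16673832)))) (a (l 4) (a (a (l 264777880679) (b (l 16523616) (l 16532472))) (b (l 16675768) (a (l 16615872) (l 16720912)))))) (a (l 4) (b (a (l 4) (a (l 16398936) (l 16855608))) (a (l 4) (b (l 16766752) (l 16807408))))))), by decide +kernel⟩

theorem c_pm_113 : CertB 536870912 536870912 0 1230186008 649613803 48318383 3 eng mog cd2q1 cd7q3 pd1 false true false .nn 1 1 3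
    ndB2q1 ndB7q3 pcB1 Cut.none Ext.none :=
  certB0 (fam := false) (s1 := true) (s2 := false) (a := 1) (b := 1) (c := 3) (cn := .nn) (n1 := ndB2q1) (n2 := ndB7q3) (pc := pcB1) (cut := Cut.none) (xt := Ext.none) (P1 := 536870912) (W1 := 536870912) (P2 := 0) (W2 := 1230186008) (P3 := 649613803) (W3 := 48318383) (N0 := 3) (En := eng) (mo := mog) (C1 := cd2q1) (C2 := cd7q3) (C3 := pd1)
    rfl k0_pm_113

noncomputable def f_pm_123 : ℕ → ℕ → ℕ → ℕ → Bool := onCell 1073741824 536870912 0 1230186008 649613803 48318383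
    (rowB 3 eng mog cd2q1 cd7q3 pd2 2 false true false .npn 1 2 3 (qsf 536870912 536870912 0 1230186008 2) ndB2q1 ndB7q3 pcB2 Cut.none Ext.none)

def k0_pm_123 : ∃ t, chk3 f_pm_123 t 1 1 1 = true :=
  ⟨(b (a (a (b (a (b (l 16729056) (l 16732744)) (l 16633816)) (a (b (l 16688728) (l 16778744)) (b (l 16577000) (l 16527288)))) (b (a (l 16703744) (l 16565424)) (a (b (l 16521688) (l 16488136)) (b (l 16530128) (l 16495592))))) (a (b (a (l 16584016) (l 16617136)) (a (l 16555000) (l 21171974503))) (a (l 16913736) (l 16761712)))) (b (a (a (a (b (b (l 16536880) (l 16484432)) (l 16512640)) (b (l 16463464) (l 4))) (a (b (l 16674440) (l 4)) (l 4))) (l 4)) (l 4))), by decide +kernel⟩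

theorem c_pm_123 : CertB 536870912 536870912 0 1230186008 649613803 48318383 3 eng mog cd2q1 cd7q3 pd2 false true false .npn 1 2 3
    ndB2q1 ndB7q3 pcB2 Cut.none Ext.none :=
  certB2 (fam := false) (s1 := true) (s2 := false) (a := 1) (b := 2) (c := 3) (cn := .npn) (n1 := ndB2q1) (n2 := ndB7q3) (pc := pcB2) (cut := Cut.none) (xt := Ext.none) (P1 := 536870912) (W1 := 536870912) (P2 := 0) (W2 := 1230186008) (P3 := 649613803) (W3 := 48318383) (N0 := 3) (En := eng) (mo := mog) (C1 := cd2q1) (C2 := cd7q3) (C3 := pd2)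
    rfl (fun _ => rfl) k0_pm_123

noncomputable def f_pm_133 : ℕ → ℕ → ℕ → ℕ → Bool := onCell 1610612736 536870912 0 1230186008 649613803 48318383
    (rowB 3 eng mog cd2q1 cd7q3 pd3 2 false true false .dn 1 3 3 (qsf 536870912 536870912 0 1230186008 3) ndB2q1 ndB7q3 pcB3 Cut.none Ext.none)

def k0_pm_133 : ∃ t, chk3 f_pm_133 t 1 1 1 = true :=
  ⟨(b (a (a (a (l 16684896) (l 1)) (l 1)) (l 1)) (l 1)), by decide +kernel⟩

theorem c_pm_133 : CertB 536870912 536870912 0 1230186008 649613803 48318383 3 eng mog cd2q1 cd7q3 pd3 false true false .dn 1 3 3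
    ndB2q1 ndB7q3 pcB3 Cut.none Ext.none :=
  certB2 (fam := false) (s1 := true) (s2 := false) (a := 1) (b := 3) (c := 3) (cn := .dn) (n1 := ndB2q1) (n2 := ndB7q3) (pc := pcB3) (cut := Cut.none) (xt := Ext.none) (P1 := 536870912) (W1 := 536870912) (P2 := 0) (W2 := 1230186008) (P3 := 649613803) (W3 := 48318383) (N0 := 3) (En := eng) (mo := mog) (C1 := cd2q1) (C2 := cd7q3) (C3 := pd3)
    rfl (fun _ => rfl) k0_pm_133

noncomputable def f_pm_202_a : ℕ → ℕ → ℕ → ℕ → Bool := onCell 0 536870912 0 536870912 649613803 48318383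
    (rowB 3 eng mog cd2q2a cd7q2 pd0 1 false true false .pp 2 0 2 (qsf 0 536870912 1073741824 536870912 0) ndB2q2a ndB7q2 pcB0 Cut.none Ext.none)

def k0_pm_202_a : ∃ t, chk3 f_pm_202_a t 2 1 1 = true :=
  ⟨(b (b (b (a (b (a (l 16389712) (b (a (l 16372616) (l 16365704)) (l 16465208))) (a (l 16426248) (l 16411824))) (b (a (l 16437656) (l 16315224)) (a (a (l 16396512) (l 16380616)) (l 16408784)))) (a (b (a (b (l 16452896) (l 16468512)) (l 16450160)) (a (b (l 16483240) (l 16496848)) (b (l 16475448) (l 16490328)))) (a (b (l 16639664) (l 16468168)) (b (b (l 16379280) (l 16403432)) (b (l 16424120) (l 16443384)))))) (b (a (a (b (l 16513816) (b (l 16528584) (l 16537384))) (b (b (l 16504112) (l 16517280)) (b (l 16528536) (l 16539832)))) (b (a (l 16501056) (l 16471504)) (a (b (l 16522168) (l 16535584)) (l 16506296)))) (a (b (a (b (l 16544128) (l 16546936)) (l 16555256)) (a (b (l 16552568) (l 16559416)) (b (l 16564904) (l 16567928)))) (b (a (l 16640192) (l 16747056))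 (a (l 16577488) (l 16567208)))))) (b (b (a (b (a (l 16568696) (l 16579304)) (a (a (l 16575056) (l 16579832)) (l 16590584))) (a (b (b (l 16589680) (l 16595352)) (l 16604024)) (l 16601232))) (a (a (b (l 16586960) (l 16589952)) (b (l 16590320) (l 16606312))) (b (a (l 16617360) (l 16622304)) (a (l 16626664) (l 16634952))))) (a (l 2) (b (l 1175848171479) (l 2))))), by decide +kernel⟩

def k1_pm_202_a : ∃ t, chk3 f_pm_202_a t 3 2 1 = true :=
  ⟨(b (b (a (b (a (a (l 16275504) (b (l 16236304) (l 16248104))) (b (l 16173120) (l 16190208))) (a (b (l 16278896) (l 16293568)) (a (l 16421256) (l 16190104)))) (a (b (b (a (l 16097664) (l 16042952)) (l 16213768)) (a (l 16141328) (l 16091512))) (a (b (b (b (l 15980392) (l 15989976)) (l 16005448)) (b (l 16029168) (l 16055256))) (b (a (b (b (a (l 15942592) (l 15926872)) (l 15945136)) (l 15964352)) (b (a (b (b (l 4) (l 15918208)) (l 15926192)) (l 4)) (a (l 15947856) (l 15947624)))) (a (l 16009672) (b (l 15981880) (l 16015072)))))))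 (b (a (a (l 16327480) (a (l 16267752) (b (l 16218048) (l 16235424)))) (a (a (l 16181736) (l 16137640)) (a (l 16097136) (b (l 16056048) (l 16091912))))) (a (a (l 16377864) (b (l 16282992) (l 16313968))) (a (a (b (l 16216904) (l 16246392)) (l 16188568)) (a (l 16156040) (b (l 16127264) (l 16155488))))))) (a (b (a (b (l 16445168) (l 16462848)) (b (l 16353264) (l 16402544))) (b (a (l 16500136) (l 16449816)) (a (l 16536680) (l 16491152)))) (b (a (b (a (l 16290528) (l 16252072)) (l 16457120)) (b (a (l 16218944) (l 16195320)) (a (l 16292456) (l 16260048)))) (a (b (l 16390488) (l 16445768)) (b (a (l 16364600) (l 16341440)) (l 16432728)))))), by decide +kernel⟩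

def k2_pm_202_a : ∃ t, chk3 f_pm_202_a t 3 3 1 = true :=
  ⟨(b (b (a (b (a (l 16569552) (l 16532792)) (a (a (l 16601800) (l 16591640)) (l 16570512))) (a (b (l 16497264) (l 16544232)) (b (l 16494976) (l 16552832)))) (a (b (a (l 16618696) (b (l 16594664) (l 16608560))) (a (l 16632976) (b (l 16619512) (l 16630192)))) (b (b (a (l 16576640) (l 16592080)) (a (l 16595800) (l 16615416))) (a (b (l 16611848) (l 16626904)) (b (l 16636952) (l 16657464)))))) (b (a (b (a (l 16644608) (l 16645552)) (a (l 2) (l 16661480))) (b (a (l 16652384) (l 16690848)) (a (l 16687936) (l 16729640)))) (a (l 2) (a (b (l 16710040) (l 2)) (b (l 16780424) (l 16832952)))))), by decide +kernel⟩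

theorem s3_pm_202_a : ∃ t, chk3 f_pm_202_a t 3 1 1 = true := ex3_b k1_pm_202_a k2_pm_202_a

theorem s4_pm_202_a : ∃ t, chk3 f_pm_202_a t 1 1 1 = true := ex3_a k0_pm_202_a s3_pm_202_a

theorem c_pm_202_a : CertB 0 536870912 1073741824 536870912 649613803 48318383 3 eng mog cd2q2a cd7q2 pd0 false true false .pp 2 0 2
    ndB2q2a ndB7q2 pcB0 Cut.none Ext.none :=
  certB1 (fam := false) (s1 := true) (s2 := false) (a := 2) (b := 0) (c := 2) (cn := .pp) (n1 := ndB2q2a) (n2 := ndB7q2) (pc := pcB0) (cut := Cut.none) (xt := Ext.none) (P1 := 0) (W1 := 536870912) (P2 := 1073741824) (W2 := 536870912) (P3 := 649613803) (W3 := 48318383) (N0 := 3) (En := eng) (mo := mog) (C1 := cd2q2a) (C2 := cd7q2) (C3 := pd0)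
    rfl (fun _ => rfl) s4_pm_202_a

noncomputable def f_pm_202_b : ℕ → ℕ → ℕ → ℕ → Bool := onCell 0 536870912 1073741824 536870912 649613803 48318383
    (rowB 3 eng mog cd2q2b cd7q2 pd0 2 false true false .pp 2 0 2 (qsf 1239849684 370763052 1073741824 536870912 0) ndB2q2b ndB7q2 pcB0 Cut.none Ext.none)

def k0_pm_202_b : ∃ t, chk3 f_pm_202_b t 1 1 1 = true :=
  ⟨(b (a (a (b (l 1) (a (b (a (b (l 410202384935) (l 377453267527)) (b (l 1) (l 405907635095))) (a (b (l 16391640) (l 16375600)) (b (l 16452936) (l 16423048)))) (b (l 1) (a (b (l 449931003751) (a (l 16454568) (l 16474144))) (b (l 1) (l 430603723559)))))) (l 1)) (l 1)) (a (a (b (a (b (a (l 16315312) (l 16418248)) (a (l 16208888) (l 16270064))) (b (a (b (a (l 16435712) (l 16459152)) (l 16412320)) (b (l 16491792) (l 16467112))) (b (l 16389168) (l 16342944)))) (a (b (l 16191296) (l 16181032)) (b (a (l 16277152) (l 16325832)) (a (l 16258232) (l 16530488))))) (b (a (b (a (b (l 425234946711) (l 359199592743))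 (b (l 1) (l 390875178871))) (a (b (l 16459288) (l 16420384)) (b (c (l 401612419383) (l 406444437815)) (l 16481880)))) (b (l 1) (a (b (l 597033638135) (a (l 16551264) (l 379064388167))) (b (l 1) (l 583074986519))))) (b (a (a (b (l 16396008) (l 16377336)) (b (l 16445352) (l 16429536))) (a (l 16650360) (b (l 348999345543) (l 16516032)))) (a (b (l 16394312) (l 16383992)) (a (b (l 16467200) (l 16461728)) (l 16509352)))))) (a (b (l 1) (a (b (b (a (l 497175845143) (l 1)) (a (l 16563184) (l 419866503943))) (a (l 16568336) (b (l 16571256) (l 16575624)))) (b (l 1) (a (b (l 454762894551) (l 16585816)) (l 442951818935))))) (l 1)))), by decide +kernel⟩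

theorem c_pm_202_b : CertB 1239849684 370763052 1073741824 536870912 649613803 48318383 3 eng mog cd2q2b cd7q2 pd0 false true false .pp 2 0 2
    ndB2q2b ndB7q2 pcB0 Cut.none Ext.none :=
  certB2 (fam := false) (s1 := true) (s2 := false) (a := 2) (b := 0) (c := 2) (cn := .pp) (n1 := ndB2q2b) (n2 := ndB7q2) (pc := pcB0) (cut := Cut.none) (xt := Ext.none) (P1 := 1239849684) (W1 := 370763052) (P2 := 1073741824) (W2 := 536870912) (P3 := 649613803) (W3 := 48318383) (N0 := 3) (En := eng) (mo := mog) (C1 := cd2q2b) (C2 := cd7q2) (C3 := pd0)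
    rfl (fun _ => rfl) k0_pm_202_b

noncomputable def f_pm_203_a : ℕ → ℕ → ℕ → ℕ → Bool := onCell 0 536870912 0 1230186008 649613803 48318383
    (rowB 3 eng mog cd2q2a cd7q3 pd0 0 false true false .up 2 0 3 (qsf 0 536870912 0 1230186008 0) ndB2q2a ndB7q3 pcB0 Cut.none Ext.none)

def k0_pm_203_a : ∃ t, chk3 f_pm_203_a t 1 1 1 = true :=
  ⟨(b (l 2) (b (l 2) (a (b (b (l 2) (a (a (b (l 2) (a (b (l 16703840) (l 16701400)) (l 16710832))) (l 105864145687)) (l 137539885591))) (a (b (a (b (l 16697336) (l 16677360)) (l 16667824)) (a (b (l 16645216) (l 16614952)) (b (l 16662032) (l 16628432)))) (b (a (l 16715920) (l 16716128)) (a (l 16567200) (l 16667912))))) (b (l 2) (a (b (l 16734584) (a (b (l 16691832) (l 16663272)) (b (l 16712864) (l 16676032)))) (b (a (l 16828072) (l 2)) (a (l 16743712) (l 16890952)))))))), by decide +kernel⟩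

theorem c_pm_203_a : CertB 0 536870912 0 1230186008 649613803 48318383 3 eng mog cd2q2a cd7q3 pd0 false true false .up 2 0 3
    ndB2q2a ndB7q3 pcB0 Cut.none Ext.none :=
  certB0 (fam := false) (s1 := true) (s2 := false) (a := 2) (b := 0) (c := 3) (cn := .up) (n1 := ndB2q2a) (n2 := ndB7q3) (pc := pcB0) (cut := Cut.none) (xt := Ext.none) (P1 := 0) (W1 := 536870912) (P2 := 0) (W2 := 1230186008) (P3 := 649613803) (W3 := 48318383) (N0 := 3) (En := eng) (mo := mog) (C1 := cd2q2a) (C2 := cd7q3) (C3 := pd0)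
    rfl k0_pm_203_a

noncomputable def f_pm_203_b : ℕ → ℕ → ℕ → ℕ → Bool := onCell 0 536870912 0 1230186008 649613803 48318383
    (rowB 3 eng mog cd2q2b cd7q3 pd0 2 false true false .up 2 0 3 (qsf 1239849684 370763052 0 1230186008 0) ndB2q2b ndB7q3 pcB0 Cut.none Ext.none)

def k0_pm_203_b : ∃ t, chk3 f_pm_203_b t 1 1 1 = true :=
  ⟨(b (l 3) (b (l 3) (a (b (l 3) (a (b (a (l 2) (l 16307120)) (a (b (l 205184672535) (l 16179984)) (b (l 16275136) (l 16286128)))) (a (b (l 187535412407) (a (l 16339232) (l 16400416))) (b (l 16685368) (b (l 16464456) (l 16470352)))))) (a (b (a (l 3) (a (l 3) (l 221358351047))) (b (a (l 71571543351) (a (l 16600392) (l 16620856))) (a (l 16529768) (b (l 16601440) (l 16596232))))) (b (b (l 3) (a (a (l 16659824) (l 87677514087)) (a (b (l 16670216) (b (l 16646520) (l 16646544))) (b (b (l 16670872) (l 16671288)) (b (l 16681328) (l 16699168)))))) (a (b (b (a (l 16635720) (l 16644136)) (l 16631120)) (b (l 424161313927) (l 467111057575)))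 (b (a (b (b (l 16669224) (l 16687184)) (l 16706168)) (l 456910608647)) (l 1)))))))), by decide +kernel⟩

theorem c_pm_203_b : CertB 1239849684 370763052 0 1230186008 649613803 48318383 3 eng mog cd2q2b cd7q3 pd0 false true false .up 2 0 3
    ndB2q2b ndB7q3 pcB0 Cut.none Ext.none :=
  certB2 (fam := false) (s1 := true) (s2 := false) (a := 2) (b := 0) (c := 3) (cn := .up) (n1 := ndB2q2b) (n2 := ndB7q3) (pc := pcB0) (cut := Cut.none) (xt := Ext.none) (P1 := 1239849684) (W1 := 370763052) (P2 := 0) (W2 := 1230186008) (P3 := 649613803) (W3 := 48318383) (N0 := 3) (En := eng) (mo := mog) (C1 := cd2q2b) (C2 := cd7q3) (C3 := pd0)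
    rfl (fun _ => rfl) k0_pm_203_b

noncomputable def cut_pm_213_a : Cut := Cut.of [[⟨0, 1, 0, 67108864⟩, ⟨1, 1, 0, 67108864⟩, ⟨2, 2, 0, 16777216⟩]]

noncomputable def f_pm_213_a : ℕ → ℕ → ℕ → ℕ → Bool := onCell 0 536870912 0 1230186008 649613803 48318383
    (rowB 3 eng mog cd2q2a cd7q3 pd1 0 false true false .pnn 2 1 3 (qsf 0 536870912 0 1230186008 1) ndB2q2a ndB7q3 pcB1 cut_pm_213_a Ext.none)

def k0_pm_213_a : ∃ t, chk3 f_pm_213_a t 1 2 1 = true :=
  ⟨(a (b (l 3) (b (l 3) (a (l 3) (b (l 3) (a (l 3) (a (b (l 3) (l 255718287111)) (b (l 247665229767) (l 158544577031)))))))) (b (a (b (l 3) (a (l 3) (b (l 3) (a (l 3) (b (l 3) (l 289004332951)))))) (a (a (b (l 3) (b (b (l 3) (l 356113188311)) (b (a (l 330880263031) (l 233706630855)) (l 228337979287)))) (b (l 6) (a (b (b (l 352891960983) (l 241222819751)) (l 16807808)) (b (l 6) (l 16788248))))) (b (l 6) (b (b (l 6) (a (l 16814432) (l 16782792))) (a (b (l 16785808) (l 16790328)) (l 16789128)))))) (a (b (a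 (b (l 3) (a (l 3) (b (l 3) (l 244980909271)))) (b (a (b (l 3) (l 301889240183)) (b (l 257865870023) (l 233706698567))) (a (b (l 244980976103) (l 16788576)) (b (l 16794240) (l 16798768))))) (a (b (a (b (l 280414371479) (a (l 242833400807) (l 16769792))) (b (l 173577105463) (l 16780816))) (a (b (l 152638987463) (l 16778584)) (b (l 16786640) (l 16795328)))) (a (b (b (l 16791584) (l 16796960)) (b (l 16803608) (l 16815544))) (b (l 16831752) (l 16829568))))) (b (a (b (a (b (l 16792128) (l 16796408)) (b (l 16795160) (l 16801672))) (a (b (l 16802424) (l 16809920)) (l 16811912))) (b (l 16798752) (l 16812928))) (a (b (l 16827304) (l 16844528)) (b (l 16827344) (l 16844736))))))), by decide +kernel⟩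

def k1_pm_213_a : ∃ t, chk3 f_pm_213_a t 1 3 1 = true :=
  ⟨(b (a (b (a (l 3) (b (a (b (l 3) (a (l 3) (l 302426016743))) (a (b (l 211694814551) (l 16747824)) (b (l 16772192) (l 16789944)))) (a (b (a (l 246054625015) (l 203104887959)) (a (l 263234451655) (l 16782440))) (b (a (l 16786352) (l 16804984)) (a (l 16801984) (l 16824240)))))) (a (b (a (l 3) (b (l 285783105687) (l 247128394679))) (a (b (l 323364079735) (a (l 3) (l 221895389543))) (b (a (l 220821646647) (l 16777504)) (a (l 16767528) (l 16785712))))) (b (b (a (a (l 16778144) (l 16797552)) (l 16820264)) (a (a (l 16789720) (l 16808392)) (l 16850832))) (a (b (l 16803648) (l 16831608)) (l 16907936))))) (a (b (a (b (a (b (l 16792864) (l 16808032)) (l 16820768)) (l 16849976)) (b (l 16853504) (l 16863224))) (a (b (l 16860560) (l 16893392)) (b (l 16893512) (l 16876408)))) (b (a (b (l 16861224) (l 16870128)) (l 16864536)) (b (a (l 16881424) (l 16877472)) (a (l 16885480) (l 16884272)))))) (a (b (a (b (a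 (b (a (l 206863005959) (l 134385423495)) (a (b (l 16740584) (l 16740696)) (l 16780760))) (b (l 16805304) (l 16776464))) (a (a (b (b (l 16742256) (l 16744128)) (b (l 16743256) (l 1))) (b (l 16770144) (l 16757080))) (b (l 16778120) (l 16771552)))) (b (a (l 16924480) (l 16848808)) (a (l 16870200) (l 16815912)))) (a (l 1) (b (l 1257922686711) (l 1)))) (b (a (b (a (l 16867016) (l 16873872)) (l 16974904)) (b (a (l 16890296) (l 16878496)) (l 16886192))) (a (b (a (l 16791936) (l 16851536)) (l 1)) (b (l 16874928) (l 16873312)))))), by decide +kernel⟩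

theorem s2_pm_213_a : ∃ t, chk3 f_pm_213_a t 1 1 1 = true := ex3_b k0_pm_213_a k1_pm_213_a

theorem c_pm_213_a : CertB 0 536870912 0 1230186008 649613803 48318383 3 eng mog cd2q2a cd7q3 pd1 false true false .pnn 2 1 3
    ndB2q2a ndB7q3 pcB1 cut_pm_213_a Ext.none :=
  certB0 (fam := false) (s1 := true) (s2 := false) (a := 2) (b := 1) (c := 3) (cn := .pnn) (n1 := ndB2q2a) (n2 := ndB7q3) (pc := pcB1) (cut := cut_pm_213_a) (xt := Ext.none) (P1 := 0) (W1 := 536870912) (P2 := 0) (W2 := 1230186008) (P3 := 649613803) (W3 := 48318383) (N0 := 3) (En := eng) (mo := mog) (C1 := cd2q2a) (C2 := cd7q3) (C3 := pd1)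
    rfl s2_pm_213_a

noncomputable def cut_pm_213_b : Cut := Cut.of [[⟨0, 1, 0, 67108864⟩, ⟨1, 1, 0, 67108864⟩, ⟨2, 2, 0, 16777216⟩]]

noncomputable def f_pm_213_b : ℕ → ℕ → ℕ → ℕ → Bool := onCell 1239849684 370763052 0 1230186008 649613803 48318383
    (rowB 3 eng mog cd2q2b cd7q3 pd1 0 false true false .pnn 2 1 3 (qsf 1239849684 370763052 0 1230186008 1) ndB2q2b ndB7q3 pcB1 cut_pm_213_b Ext.none)

def k0_pm_213_b : ∃ t, chk3 f_pm_213_b t 1 1 1 = true :=
  ⟨(b (l 3) (b (a (l 3) (l 3)) (a (b (a (b (a (b (l 3) (a (b (l 3) (l 16713296)) (l 3))) (l 3)) (a (b (a (l 16711296) (l 16677712)) (a (l 16705744) (l 1))) (l 1))) (l 1)) (l 1)) (l 1)))), by decide +kernel⟩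

theorem c_pm_213_b : CertB 1239849684 370763052 0 1230186008 649613803 48318383 3 eng mog cd2q2b cd7q3 pd1 false true false .pnn 2 1 3
    ndB2q2b ndB7q3 pcB1 cut_pm_213_b Ext.none :=
  certB0 (fam := false) (s1 := true) (s2 := false) (a := 2) (b := 1) (c := 3) (cn := .pnn) (n1 := ndB2q2b) (n2 := ndB7q3) (pc := pcB1) (cut := cut_pm_213_b) (xt := Ext.none) (P1 := 1239849684) (W1 := 370763052) (P2 := 0) (W2 := 1230186008) (P3 := 649613803) (W3 := 48318383) (N0 := 3) (En := eng) (mo := mog) (C1 := cd2q2b) (C2 := cd7q3) (C3 := pd1)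
    rfl k0_pm_213_b

noncomputable def f_pm_303 : ℕ → ℕ → ℕ → ℕ → Bool := onCell 0 536870912 0 1230186008 649613803 48318383
    (rowB 3 eng mog cd2q3 cd7q3 pd0 2 false true false .npn 3 0 3 (qsf 1610612736 536870912 0 1230186008 0) ndB2q3 ndB7q3 pcB0 Cut.none Ext.none)

def k0_pm_303 : ∃ t, chk3 f_pm_303 t 1 1 1 = true :=
  ⟨(b (l 3) (b (l 3) (a (b (l 3) (a (b (a (l 16152600) (l 16249576)) (a (b (l 16318768) (l 16138408)) (b (l 16237272) (l 1)))) (a (b (l 119889602967) (l 1)) (l 1)))) (l 1)))), by decide +kernel⟩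

theorem c_pm_303 : CertB 1610612736 536870912 0 1230186008 649613803 48318383 3 eng mog cd2q3 cd7q3 pd0 false true false .npn 3 0 3
    ndB2q3 ndB7q3 pcB0 Cut.none Ext.none :=
  certB2 (fam := false) (s1 := true) (s2 := false) (a := 3) (b := 0) (c := 3) (cn := .npn) (n1 := ndB2q3) (n2 := ndB7q3) (pc := pcB0) (cut := Cut.none) (xt := Ext.none) (P1 := 1610612736) (W1 := 536870912) (P2 := 0) (W2 := 1230186008) (P3 := 649613803) (W3 := 48318383) (N0 := 3) (En := eng) (mo := mog) (C1 := cd2q3) (C2 := cd7q3) (C3 := pd0)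
    rfl (fun _ => rfl) k0_pm_303

noncomputable def f_pm_313 : ℕ → ℕ → ℕ → ℕ → Bool := onCell 1610612736 536870912 0 1230186008 649613803 48318383
    (rowB 3 eng mog cd2q3 cd7q3 pd1 0 false true false .dn 3 1 3 (qsf 1610612736 536870912 0 1230186008 1) ndB2q3 ndB7q3 pcB1 Cut.none Ext.none)

def k0_pm_313 : ∃ t, chk3 f_pm_313 t 1 1 1 = true :=
  ⟨(b (l 3) (l 1)), by decide +kernel⟩

theorem c_pm_313 : CertB 1610612736 536870912 0 1230186008 649613803 48318383 3 eng mog cd2q3 cd7q3 pd1 false true false .dn 3 1 3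
    ndB2q3 ndB7q3 pcB1 Cut.none Ext.none :=
  certB0 (fam := false) (s1 := true) (s2 := false) (a := 3) (b := 1) (c := 3) (cn := .dn) (n1 := ndB2q3) (n2 := ndB7q3) (pc := pcB1) (cut := Cut.none) (xt := Ext.none) (P1 := 1610612736) (W1 := 536870912) (P2 := 0) (W2 := 1230186008) (P3 := 649613803) (W3 := 48318383) (N0 := 3) (En := eng) (mo := mog) (C1 := cd2q3) (C2 := cd7q3) (C3 := pd1)
    rfl k0_pm_313

noncomputable def f_mm_001 : ℕ → ℕ → ℕ → ℕ → Bool := onCell 0 536870912 0 536870912 649613803 48318383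
    (rowB 3 eng mog cd2q0 cd7q1 pd0 1 false false false .up 0 0 1 (qsf 0 536870912 536870912 536870912 0) ndB2q0 ndB7q1 pcB0 Cut.none Ext.none)

def k0_mm_001 : ∃ t, chk3 f_mm_001 t 1 1 1 = true :=
  ⟨(l 3), by decide +kernel⟩

theorem c_mm_001 : CertB 0 536870912 536870912 536870912 649613803 48318383 3 eng mog cd2q0 cd7q1 pd0 false false false .up 0 0 1
    ndB2q0 ndB7q1 pcB0 Cut.none Ext.none :=
  certB1 (fam := false) (s1 := false) (s2 := false) (a := 0) (b := 0) (c := 1) (cn := .up) (n1 := ndB2q0) (n2 := ndB7q1) (pc := pcB0) (cut := Cut.none) (xt := Ext.none) (P1 := 0) (W1 := 536870912) (P2 := 536870912) (W2 := 536870912) (P3 := 649613803) (W3 := 48318383) (N0 := 3) (En := eng) (mo := mog) (C1 := cd2q0) (C2 := cd7q1) (C3 := pd0)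
    rfl (fun _ => rfl) k0_mm_001

noncomputable def f_mm_011 : ℕ → ℕ → ℕ → ℕ → Bool := onCell 0 536870912 536870912 536870912 649613803 48318383
    (rowB 3 eng mog cd2q0 cd7q1 pd1 1 false false false .pnn 0 1 1 (qsf 0 536870912 536870912 536870912 1) ndB2q0 ndB7q1 pcB1 Cut.none Ext.none)

def k0_mm_011 : ∃ t, chk3 f_mm_011 t 1 1 1 = true :=
  ⟨(l 5), by decide +kernel⟩

theorem c_mm_011 : CertB 0 536870912 536870912 536870912 649613803 48318383 3 eng mog cd2q0 cd7q1 pd1 false false false .pnn 0 1 1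
    ndB2q0 ndB7q1 pcB1 Cut.none Ext.none :=
  certB1 (fam := false) (s1 := false) (s2 := false) (a := 0) (b := 1) (c := 1) (cn := .pnn) (n1 := ndB2q0) (n2 := ndB7q1) (pc := pcB1) (cut := Cut.none) (xt := Ext.none) (P1 := 0) (W1 := 536870912) (P2 := 536870912) (W2 := 536870912) (P3 := 649613803) (W3 := 48318383) (N0 := 3) (En := eng) (mo := mog) (C1 := cd2q0) (C2 := cd7q1) (C3 := pd1)
    rfl (fun _ => rfl) k0_mm_011

noncomputable def f_mm_012 : ℕ → ℕ → ℕ → ℕ → Bool := onCell 0 536870912 1073741824 536870912 649613803 48318383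
    (rowB 3 eng mog cd2q0 cd7q2 pd1 0 false false false .pnp 0 1 2 (qsf 0 536870912 1073741824 536870912 1) ndB2q0 ndB7q2 pcB1 Cut.none Ext.none)

def k0_mm_012 : ∃ t, chk3 f_mm_012 t 1 1 1 = true :=
  ⟨(l 5), by decide +kernel⟩

theorem c_mm_012 : CertB 0 536870912 1073741824 536870912 649613803 48318383 3 eng mog cd2q0 cd7q2 pd1 false false false .pnp 0 1 2
    ndB2q0 ndB7q2 pcB1 Cut.none Ext.none :=
  certB0 (fam := false) (s1 := false) (s2 := false) (a := 0) (b := 1) (c := 2) (cn := .pnp) (n1 := ndB2q0) (n2 := ndB7q2) (pc := pcB1) (cut := Cut.none) (xt := Ext.none) (P1 := 0) (W1 := 536870912) (P2 := 1073741824) (W2 := 536870912) (P3 := 649613803) (W3 := 48318383) (N0 := 3) (En := eng) (mo := mog) (C1 := cd2q0) (C2 := cd7q2) (C3 := pd1)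
    rfl k0_mm_012

noncomputable def f_mm_022 : ℕ → ℕ → ℕ → ℕ → Bool := onCell 0 536870912 1073741824 536870912 649613803 48318383
    (rowB 3 eng mog cd2q0 cd7q2 pd2 0 false false false .pp 0 2 2 (qsf 0 536870912 1073741824 536870912 2) ndB2q0 ndB7q2 pcB2 Cut.none Ext.none)

def k0_mm_022 : ∃ t, chk3 f_mm_022 t 1 1 1 = true :=
  ⟨(l 5), by decide +kernel⟩

theorem c_mm_022 : CertB 0 536870912 1073741824 536870912 649613803 48318383 3 eng mog cd2q0 cd7q2 pd2 false false false .pp 0 2 2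
    ndB2q0 ndB7q2 pcB2 Cut.none Ext.none :=
  certB0 (fam := false) (s1 := false) (s2 := false) (a := 0) (b := 2) (c := 2) (cn := .pp) (n1 := ndB2q0) (n2 := ndB7q2) (pc := pcB2) (cut := Cut.none) (xt := Ext.none) (P1 := 0) (W1 := 536870912) (P2 := 1073741824) (W2 := 536870912) (P3 := 649613803) (W3 := 48318383) (N0 := 3) (En := eng) (mo := mog) (C1 := cd2q0) (C2 := cd7q2) (C3 := pd2)
    rfl k0_mm_022

noncomputable def f_mm_023 : ℕ → ℕ → ℕ → ℕ → Bool := onCell 0 536870912 0 1230186008 649613803 48318383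
    (rowB 3 eng mog cd2q0 cd7q3 pd2 0 false false false .up 0 2 3 (qsf 0 536870912 0 1230186008 2) ndB2q0 ndB7q3 pcB2 Cut.none Ext.none)

def k0_mm_023 : ∃ t, chk3 f_mm_023 t 1 1 1 = true :=
  ⟨(l 5), by decide +kernel⟩

theorem c_mm_023 : CertB 0 536870912 0 1230186008 649613803 48318383 3 eng mog cd2q0 cd7q3 pd2 false false false .up 0 2 3
    ndB2q0 ndB7q3 pcB2 Cut.none Ext.none :=
  certB0 (fam := false) (s1 := false) (s2 := false) (a := 0) (b := 2) (c := 3) (cn := .up) (n1 := ndB2q0) (n2 := ndB7q3) (pc := pcB2) (cut := Cut.none) (xt := Ext.none) (P1 := 0) (W1 := 536870912) (P2 := 0) (W2 := 1230186008) (P3 := 649613803) (W3 := 48318383) (N0 := 3) (En := eng) (mo := mog) (C1 := cd2q0) (C2 := cd7q3) (C3 := pd2)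
    rfl k0_mm_023

noncomputable def f_mm_033 : ℕ → ℕ → ℕ → ℕ → Bool := onCell 0 536870912 0 1230186008 649613803 48318383
    (rowB 3 eng mog cd2q0 cd7q3 pd3 0 false false false .pnn 0 3 3 (qsf 0 536870912 0 1230186008 3) ndB2q0 ndB7q3 pcB3 Cut.none Ext.none)

def k0_mm_033 : ∃ t, chk3 f_mm_033 t 1 1 1 = true :=
  ⟨(l 5), by decide +kernel⟩

theorem c_mm_033 : CertB 0 536870912 0 1230186008 649613803 48318383 3 eng mog cd2q0 cd7q3 pd3 false false false .pnn 0 3 3
    ndB2q0 ndB7q3 pcB3 Cut.none Ext.none :=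
  certB0 (fam := false) (s1 := false) (s2 := false) (a := 0) (b := 3) (c := 3) (cn := .pnn) (n1 := ndB2q0) (n2 := ndB7q3) (pc := pcB3) (cut := Cut.none) (xt := Ext.none) (P1 := 0) (W1 := 536870912) (P2 := 0) (W2 := 1230186008) (P3 := 649613803) (W3 := 48318383) (N0 := 3) (En := eng) (mo := mog) (C1 := cd2q0) (C2 := cd7q3) (C3 := pd3)
    rfl k0_mm_033

noncomputable def f_mm_101 : ℕ → ℕ → ℕ → ℕ → Bool := onCell 536870912 536870912 0 536870912 649613803 48318383
    (rowB 3 eng mog cd2q1 cd7q1 pd0 1 false false false .npn 1 0 1 (qsf 536870912 536870912 536870912 536870912 0) ndB2q1 ndB7q1 pcB0 Cut.none Ext.none)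

def k0_mm_101 : ∃ t, chk3 f_mm_101 t 1 1 1 = true :=
  ⟨(l 3), by decide +kernel⟩

theorem c_mm_101 : CertB 536870912 536870912 536870912 536870912 649613803 48318383 3 eng mog cd2q1 cd7q1 pd0 false false false .npn 1 0 1
    ndB2q1 ndB7q1 pcB0 Cut.none Ext.none :=
  certB1 (fam := false) (s1 := false) (s2 := false) (a := 1) (b := 0) (c := 1) (cn := .npn) (n1 := ndB2q1) (n2 := ndB7q1) (pc := pcB0) (cut := Cut.none) (xt := Ext.none) (P1 := 536870912) (W1 := 536870912) (P2 := 536870912) (W2 := 536870912) (P3 := 649613803) (W3 := 48318383) (N0 := 3) (En := eng) (mo := mog) (C1 := cd2q1) (C2 := cd7q1) (C3 := pd0)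
    rfl (fun _ => rfl) k0_mm_101

noncomputable def f_mm_102 : ℕ → ℕ → ℕ → ℕ → Bool := onCell 536870912 536870912 1073741824 536870912 649613803 48318383
    (rowB 3 eng mog cd2q1 cd7q2 pd0 0 false false false .npp 1 0 2 (qsf 536870912 536870912 1073741824 536870912 0) ndB2q1 ndB7q2 pcB0 Cut.none Ext.none)

def k0_mm_102 : ∃ t, chk3 f_mm_102 t 1 1 1 = true :=
  ⟨(l 3), by decide +kernel⟩

theorem c_mm_102 : CertB 536870912 536870912 1073741824 536870912 649613803 48318383 3 eng mog cd2q1 cd7q2 pd0 false false false .npp 1 0 2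
    ndB2q1 ndB7q2 pcB0 Cut.none Ext.none :=
  certB0 (fam := false) (s1 := false) (s2 := false) (a := 1) (b := 0) (c := 2) (cn := .npp) (n1 := ndB2q1) (n2 := ndB7q2) (pc := pcB0) (cut := Cut.none) (xt := Ext.none) (P1 := 536870912) (W1 := 536870912) (P2 := 1073741824) (W2 := 536870912) (P3 := 649613803) (W3 := 48318383) (N0 := 3) (En := eng) (mo := mog) (C1 := cd2q1) (C2 := cd7q2) (C3 := pd0)
    rfl k0_mm_102

noncomputable def f_mm_112 : ℕ → ℕ → ℕ → ℕ → Bool := onCell 536870912 536870912 1073741824 536870912 649613803 48318383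
    (rowB 3 eng mog cd2q1 cd7q2 pd1 0 false false false .dn 1 1 2 (qsf 536870912 536870912 1073741824 536870912 1) ndB2q1 ndB7q2 pcB1 Cut.none Ext.none)

def k0_mm_112 : ∃ t, chk3 f_mm_112 t 1 1 1 = true :=
  ⟨(l 3), by decide +kernel⟩

theorem c_mm_112 : CertB 536870912 536870912 1073741824 536870912 649613803 48318383 3 eng mog cd2q1 cd7q2 pd1 false false false .dn 1 1 2
    ndB2q1 ndB7q2 pcB1 Cut.none Ext.none :=
  certB0 (fam := false) (s1 := false) (s2 := false) (a := 1) (b := 1) (c := 2) (cn := .dn) (n1 := ndB2q1) (n2 := ndB7q2) (pc := pcB1) (cut := Cut.none) (xt := Ext.none) (P1 := 536870912) (W1 := 536870912) (P2 := 1073741824) (W2 := 536870912) (P3 := 649613803) (W3 := 48318383) (N0 := 3) (En := eng) (mo := mog) (C1 := cd2q1) (C2 := cd7q2) (C3 := pd1)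
    rfl k0_mm_112

noncomputable def f_mm_113 : ℕ → ℕ → ℕ → ℕ → Bool := onCell 536870912 536870912 0 1230186008 649613803 48318383
    (rowB 3 eng mog cd2q1 cd7q3 pd1 0 false false false .nn 1 1 3 (qsf 536870912 536870912 0 1230186008 1) ndB2q1 ndB7q3 pcB1 Cut.none Ext.none)

def k0_mm_113 : ∃ t, chk3 f_mm_113 t 1 1 1 = true :=
  ⟨(b (l 5) (l 5)), by decide +kernel⟩

theorem c_mm_113 : CertB 536870912 536870912 0 1230186008 649613803 48318383 3 eng mog cd2q1 cd7q3 pd1 false false false .nn 1 1 3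
    ndB2q1 ndB7q3 pcB1 Cut.none Ext.none :=
  certB0 (fam := false) (s1 := false) (s2 := false) (a := 1) (b := 1) (c := 3) (cn := .nn) (n1 := ndB2q1) (n2 := ndB7q3) (pc := pcB1) (cut := Cut.none) (xt := Ext.none) (P1 := 536870912) (W1 := 536870912) (P2 := 0) (W2 := 1230186008) (P3 := 649613803) (W3 := 48318383) (N0 := 3) (En := eng) (mo := mog) (C1 := cd2q1) (C2 := cd7q3) (C3 := pd1)
    rfl k0_mm_113

noncomputable def f_mm_123 : ℕ → ℕ → ℕ → ℕ → Bool := onCell 536870912 536870912 0 1230186008 649613803 48318383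
    (rowB 3 eng mog cd2q1 cd7q3 pd2 0 false false false .npn 1 2 3 (qsf 536870912 536870912 0 1230186008 2) ndB2q1 ndB7q3 pcB2 Cut.none Ext.none)

def k0_mm_123 : ∃ t, chk3 f_mm_123 t 1 1 1 = true :=
  ⟨(b (l 5) (l 5)), by decide +kernel⟩

theorem c_mm_123 : CertB 536870912 536870912 0 1230186008 649613803 48318383 3 eng mog cd2q1 cd7q3 pd2 false false false .npn 1 2 3
    ndB2q1 ndB7q3 pcB2 Cut.none Ext.none :=
  certB0 (fam := false) (s1 := false) (s2 := false) (a := 1) (b := 2) (c := 3) (cn := .npn) (n1 := ndB2q1) (n2 := ndB7q3) (pc := pcB2) (cut := Cut.none) (xt := Ext.none) (P1 := 536870912) (W1 := 536870912) (P2 := 0) (W2 := 1230186008) (P3 := 649613803) (W3 := 48318383) (N0 := 3) (En := eng) (mo := mog) (C1 := cd2q1) (C2 := cd7q3) (C3 := pd2)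
    rfl k0_mm_123

noncomputable def f_mm_133 : ℕ → ℕ → ℕ → ℕ → Bool := onCell 536870912 536870912 0 1230186008 649613803 48318383
    (rowB 3 eng mog cd2q1 cd7q3 pd3 0 false false false .dn 1 3 3 (qsf 536870912 536870912 0 1230186008 3) ndB2q1 ndB7q3 pcB3 Cut.none Ext.none)

def k0_mm_133 : ∃ t, chk3 f_mm_133 t 1 1 1 = true :=
  ⟨(b (l 5) (l 1)), by decide +kernel⟩

theorem c_mm_133 : CertB 536870912 536870912 0 1230186008 649613803 48318383 3 eng mog cd2q1 cd7q3 pd3 false false false .dn 1 3 3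
    ndB2q1 ndB7q3 pcB3 Cut.none Ext.none :=
  certB0 (fam := false) (s1 := false) (s2 := false) (a := 1) (b := 3) (c := 3) (cn := .dn) (n1 := ndB2q1) (n2 := ndB7q3) (pc := pcB3) (cut := Cut.none) (xt := Ext.none) (P1 := 536870912) (W1 := 536870912) (P2 := 0) (W2 := 1230186008) (P3 := 649613803) (W3 := 48318383) (N0 := 3) (En := eng) (mo := mog) (C1 := cd2q1) (C2 := cd7q3) (C3 := pd3)
    rfl k0_mm_133

noncomputable def f_mm_202_a : ℕ → ℕ → ℕ → ℕ → Bool := onCell 0 536870912 0 536870912 649613803 48318383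
    (rowB 3 eng mog cd2q2a cd7q2 pd0 1 false false false .pp 2 0 2 (qsf 0 536870912 1073741824 536870912 0) ndB2q2a ndB7q2 pcB0 Cut.none Ext.none)

def k0_mm_202_a : ∃ t, chk3 f_mm_202_a t 1 1 1 = true :=
  ⟨(b (a (a (b (b (a (b (b (a (l 16440616) (b (l 16443848) (a (l 16444784) (a (l 16446944) (c (l 16492072) (l 16510648)))))) (b (a (l 16446632) (a (c (l 16535200) (l 16552760)) (b (a (l 16449728) (b (l 16513544) (l 16452064))) (a (l 16453832) (l 16455088))))) (a (c (l 16601704) (l 16451088)) (a (a (l 16560576) (b (l 16455528) (l 16458632))) (a (l 16479632) (b (a (l 16458096) (l 16458832)) (l 16462080))))))) (a (a (b (b (l 16543272) (l 16464960)) (b (l 16471728) (l 16475880))) (b (b (l 16439952) (a (l 16466936) (l 16467056))) (b (l 16473136) (l 16479112)))) (a (b (a (l 16470720) (b (l 16464056) (l 16469840))) (l 16499704)) (b (c (l 16513152) (l 16469728)) (l 16483088))))) (b (a (b (b (b (a (l 16447864) (a (l 16472088) (l 3))) (a (a (l 16448120) (a (l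 16470496) (l 16450784))) (l 16454320))) (a (a (b (b (l 16449368) (l 16450056)) (a (l 16492792) (l 16451848))) (l 170355273383)) (l 3))) (b (a (b (b (l 168744689175) (l 16455208)) (l 16458056)) (l 3)) (l 183240207447))) (l 3)) (l 3))) (a (b (a (b (a (b (l 16481408) (l 16487208)) (l 16528160)) (l 119352715799)) (b (a (l 135458774007) (l 3)) (l 3))) (a (b (b (l 117742122183) (l 118815862551)) (l 253033489975)) (l 3))) (l 3))) (b (l 3) (l 3))) (l 3)) (l 3)) (l 3)), by decide +kernel⟩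

theorem c_mm_202_a : CertB 0 536870912 1073741824 536870912 649613803 48318383 3 eng mog cd2q2a cd7q2 pd0 false false false .pp 2 0 2
    ndB2q2a ndB7q2 pcB0 Cut.none Ext.none :=
  certB1 (fam := false) (s1 := false) (s2 := false) (a := 2) (b := 0) (c := 2) (cn := .pp) (n1 := ndB2q2a) (n2 := ndB7q2) (pc := pcB0) (cut := Cut.none) (xt := Ext.none) (P1 := 0) (W1 := 536870912) (P2 := 1073741824) (W2 := 536870912) (P3 := 649613803) (W3 := 48318383) (N0 := 3) (En := eng) (mo := mog) (C1 := cd2q2a) (C2 := cd7q2) (C3 := pd0)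
    rfl (fun _ => rfl) k0_mm_202_a

noncomputable def f_mm_202_b : ℕ → ℕ → ℕ → ℕ → Bool := onCell 1239849684 370763052 0 536870912 649613803 48318383
    (rowB 3 eng mog cd2q2b cd7q2 pd0 1 false false false .pp 2 0 2 (qsf 1239849684 370763052 1073741824 536870912 0) ndB2q2b ndB7q2 pcB0 Cut.none Ext.none)

def k0_mm_202_b : ∃ t, chk3 f_mm_202_b t 1 1 1 = true :=
  ⟨(a (b (b (b (a (b (a (b (a (l 16420856) (l 16385112)) (a (l 16430968) (l 16393416))) (a (b (l 16346088) (l 16455128)) (b (l 16298272) (a (l 16377408) (l 16355200))))) (a (a (b (b (l 16440368) (l 16445088)) (b (l 16451536) (l 16454800))) (b (a (l 16413040) (a (l 16398808) (l 16489352))) (l 16516080))) (b (a (a (l 16495088) (l 16365368)) (l 175723776423)) (l 195051213575)))) (a (b (b (a (b (l 16251680) (l 16254304)) (l 228873712119)) (l 223505136071)) (a (l 247664295223) (l 3))) (l 3))) (a (a (b (a (b (a (l 16472536) (l 16452256)) (a (l 16480200) (l 16458304))) (b (l 16480816) (a (l 16438232)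 (l 16418896)))) (a (b (a (l 16488944) (l 16469040)) (l 249275356151)) (l 267528851031))) (b (a (b (l 227800332343) (l 3)) (l 3)) (l 3))) (l 3))) (b (a (b (a (l 3) (l 3)) (l 3)) (l 3)) (l 3))) (l 3)) (b (b (l 3) (l 3)) (l 2))), by decide +kernel⟩

theorem c_mm_202_b : CertB 1239849684 370763052 1073741824 536870912 649613803 48318383 3 eng mog cd2q2b cd7q2 pd0 false false false .pp 2 0 2
    ndB2q2b ndB7q2 pcB0 Cut.none Ext.none :=
  certB1 (fam := false) (s1 := false) (s2 := false) (a := 2) (b := 0) (c := 2) (cn := .pp) (n1 := ndB2q2b) (n2 := ndB7q2) (pc := pcB0) (cut := Cut.none) (xt := Ext.none) (P1 := 1239849684) (W1 := 370763052) (P2 := 1073741824) (W2 := 536870912) (P3 := 649613803) (W3 := 48318383) (N0 := 3) (En := eng) (mo := mog) (C1 := cd2q2b) (C2 := cd7q2) (C3 := pd0)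
    rfl (fun _ => rfl) k0_mm_202_b

noncomputable def f_mm_203_a : ℕ → ℕ → ℕ → ℕ → Bool := onCell 0 536870912 0 1230186008 649613803 48318383
    (rowB 3 eng mog cd2q2a cd7q3 pd0 0 false false false .up 2 0 3 (qsf 0 536870912 0 1230186008 0) ndB2q2a ndB7q3 pcB0 Cut.none Ext.none)

def k0_mm_203_a : ∃ t, chk3 f_mm_203_a t 1 1 1 = true :=
  ⟨(b (l 2) (l 3)), by decide +kernel⟩

theorem c_mm_203_a : CertB 0 536870912 0 1230186008 649613803 48318383 3 eng mog cd2q2a cd7q3 pd0 false false false .up 2 0 3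
    ndB2q2a ndB7q3 pcB0 Cut.none Ext.none :=
  certB0 (fam := false) (s1 := false) (s2 := false) (a := 2) (b := 0) (c := 3) (cn := .up) (n1 := ndB2q2a) (n2 := ndB7q3) (pc := pcB0) (cut := Cut.none) (xt := Ext.none) (P1 := 0) (W1 := 536870912) (P2 := 0) (W2 := 1230186008) (P3 := 649613803) (W3 := 48318383) (N0 := 3) (En := eng) (mo := mog) (C1 := cd2q2a) (C2 := cd7q3) (C3 := pd0)
    rfl k0_mm_203_a

noncomputable def f_mm_203_b : ℕ → ℕ → ℕ → ℕ → Bool := onCell 0 536870912 0 1230186008 649613803 48318383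
    (rowB 3 eng mog cd2q2b cd7q3 pd0 2 false false false .up 2 0 3 (qsf 1239849684 370763052 0 1230186008 0) ndB2q2b ndB7q3 pcB0 Cut.none Ext.none)

def k0_mm_203_b : ∃ t, chk3 f_mm_203_b t 1 1 1 = true :=
  ⟨(b (l 3) (l 3)), by decide +kernel⟩

theorem c_mm_203_b : CertB 1239849684 370763052 0 1230186008 649613803 48318383 3 eng mog cd2q2b cd7q3 pd0 false false false .up 2 0 3
    ndB2q2b ndB7q3 pcB0 Cut.none Ext.none :=
  certB2 (fam := false) (s1 := false) (s2 := false) (a := 2) (b := 0) (c := 3) (cn := .up) (n1 := ndB2q2b) (n2 := ndB7q3) (pc := pcB0) (cut := Cut.none) (xt := Ext.none) (P1 := 1239849684) (W1 := 370763052) (P2 := 0) (W2 := 1230186008) (P3 := 649613803) (W3 := 48318383) (N0 := 3) (En := eng) (mo := mog) (C1 := cd2q2b) (C2 := cd7q3) (C3 := pd0)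
    rfl (fun _ => rfl) k0_mm_203_b

noncomputable def f_mm_213_a : ℕ → ℕ → ℕ → ℕ → Bool := onCell 0 536870912 0 1230186008 649613803 48318383
    (rowB 3 eng mog cd2q2a cd7q3 pd1 0 false false false .pnn 2 1 3 (qsf 0 536870912 0 1230186008 1) ndB2q2a ndB7q3 pcB1 Cut.none Ext.none)

def k0_mm_213_a : ∃ t, chk3 f_mm_213_a t 1 1 1 = true :=
  ⟨(b (a (l 3) (l 5)) (l 3)), by decide +kernel⟩

theorem c_mm_213_a : CertB 0 536870912 0 1230186008 649613803 48318383 3 eng mog cd2q2a cd7q3 pd1 false false false .pnn 2 1 3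
    ndB2q2a ndB7q3 pcB1 Cut.none Ext.none :=
  certB0 (fam := false) (s1 := false) (s2 := false) (a := 2) (b := 1) (c := 3) (cn := .pnn) (n1 := ndB2q2a) (n2 := ndB7q3) (pc := pcB1) (cut := Cut.none) (xt := Ext.none) (P1 := 0) (W1 := 536870912) (P2 := 0) (W2 := 1230186008) (P3 := 649613803) (W3 := 48318383) (N0 := 3) (En := eng) (mo := mog) (C1 := cd2q2a) (C2 := cd7q3) (C3 := pd1)
    rfl k0_mm_213_a

noncomputable def f_mm_213_b : ℕ → ℕ → ℕ → ℕ → Bool := onCell 1239849684 370763052 0 1230186008 649613803 48318383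
    (rowB 3 eng mog cd2q2b cd7q3 pd1 0 false false false .pnn 2 1 3 (qsf 1239849684 370763052 0 1230186008 1) ndB2q2b ndB7q3 pcB1 Cut.none Ext.none)

def k0_mm_213_b : ∃ t, chk3 f_mm_213_b t 1 1 1 = true :=
  ⟨(b (l 3) (b (l 3) (l 3))), by decide +kernel⟩

theorem c_mm_213_b : CertB 1239849684 370763052 0 1230186008 649613803 48318383 3 eng mog cd2q2b cd7q3 pd1 false false false .pnn 2 1 3
    ndB2q2b ndB7q3 pcB1 Cut.none Ext.none :=
  certB0 (fam := false) (s1 := false) (s2 := false) (a := 2) (b := 1) (c := 3) (cn := .pnn) (n1 := ndB2q2b) (n2 := ndB7q3) (pc := pcB1) (cut := Cut.none) (xt := Ext.none) (P1 := 1239849684) (W1 := 370763052) (P2 := 0) (W2 := 1230186008) (P3 := 649613803) (W3 := 48318383) (N0 := 3) (En := eng) (mo := mog) (C1 := cd2q2b) (C2 := cd7q3) (C3 := pd1)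
    rfl k0_mm_213_b

noncomputable def f_mm_303 : ℕ → ℕ → ℕ → ℕ → Bool := onCell 0 536870912 0 1230186008 649613803 48318383
    (rowB 3 eng mog cd2q3 cd7q3 pd0 2 false false false .npn 3 0 3 (qsf 1610612736 536870912 0 1230186008 0) ndB2q3 ndB7q3 pcB0 Cut.none Ext.none)

def k0_mm_303 : ∃ t, chk3 f_mm_303 t 1 1 1 = true :=
  ⟨(b (l 3) (l 3)), by decide +kernel⟩

theorem c_mm_303 : CertB 1610612736 536870912 0 1230186008 649613803 48318383 3 eng mog cd2q3 cd7q3 pd0 false false false .npn 3 0 3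
    ndB2q3 ndB7q3 pcB0 Cut.none Ext.none :=
  certB2 (fam := false) (s1 := false) (s2 := false) (a := 3) (b := 0) (c := 3) (cn := .npn) (n1 := ndB2q3) (n2 := ndB7q3) (pc := pcB0) (cut := Cut.none) (xt := Ext.none) (P1 := 1610612736) (W1 := 536870912) (P2 := 0) (W2 := 1230186008) (P3 := 649613803) (W3 := 48318383) (N0 := 3) (En := eng) (mo := mog) (C1 := cd2q3) (C2 := cd7q3) (C3 := pd0)
    rfl (fun _ => rfl) k0_mm_303

noncomputable def f_mm_313 : ℕ → ℕ → ℕ → ℕ → Bool := onCell 1610612736 536870912 0 1230186008 649613803 48318383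
    (rowB 3 eng mog cd2q3 cd7q3 pd1 0 false false false .dn 3 1 3 (qsf 1610612736 536870912 0 1230186008 1) ndB2q3 ndB7q3 pcB1 Cut.none Ext.none)

def k0_mm_313 : ∃ t, chk3 f_mm_313 t 1 1 1 = true :=
  ⟨(b (l 3) (l 1)), by decide +kernel⟩

theorem c_mm_313 : CertB 1610612736 536870912 0 1230186008 649613803 48318383 3 eng mog cd2q3 cd7q3 pd1 false false false .dn 3 1 3
    ndB2q3 ndB7q3 pcB1 Cut.none Ext.none :=
  certB0 (fam := false) (s1 := false) (s2 := false) (a := 3) (b := 1) (c := 3) (cn := .dn) (n1 := ndB2q3) (n2 := ndB7q3) (pc := pcB1) (cut := Cut.none) (xt := Ext.none) (P1 := 1610612736) (W1 := 536870912) (P2 := 0) (W2 := 1230186008) (P3 := 649613803) (W3 := 48318383) (N0 := 3) (En := eng) (mo := mog) (C1 := cd2q3) (C2 := cd7q3) (C3 := pd1)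
    rfl k0_mm_313

end Pool.Agent.Strip051.G.I6050_6500.Tab.C.BB27

namespace Pool.Agent.Strip051.G.I6050_6500.Tab.C.BB28

open Pool.Agent.Strip051.PB Pool.Agent.Strip051.PB.T
open Pool.Agent.Strip051.G.I6050_6500.Tab

noncomputable def f_pp_001 : ℕ → ℕ → ℕ → ℕ → Bool := onCell 0 536870912 0 536870912 649613803 48318383
    (rowB 3 eng mog cd2q0 cd8q1 pd0 1 false true true .up 0 0 1 (qsf 0 536870912 536870912 536870912 0) ndB2q0 ndB8q1 pcB0 Cut.none Ext.none)

def k0_pp_001 : ∃ t, chk3 f_pp_001 t 1 1 1 = true :=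
  ⟨(l 3), by decide +kernel⟩

theorem c_pp_001 : CertB 0 536870912 536870912 536870912 649613803 48318383 3 eng mog cd2q0 cd8q1 pd0 false true true .up 0 0 1
    ndB2q0 ndB8q1 pcB0 Cut.none Ext.none :=
  certB1 (fam := false) (s1 := true) (s2 := true) (a := 0) (b := 0) (c := 1) (cn := .up) (n1 := ndB2q0) (n2 := ndB8q1) (pc := pcB0) (cut := Cut.none) (xt := Ext.none) (P1 := 0) (W1 := 536870912) (P2 := 536870912) (W2 := 536870912) (P3 := 649613803) (W3 := 48318383) (N0 := 3) (En := eng) (mo := mog) (C1 := cd2q0) (C2 := cd8q1) (C3 := pd0)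
    rfl (fun _ => rfl) k0_pp_001

noncomputable def cut_pp_011 : Cut := Cut.of [[⟨0, 0, 0, 67108864⟩, ⟨1, 1, 0, 67108864⟩, ⟨2, 1, 0, 67108864⟩]]

noncomputable def f_pp_011 : ℕ → ℕ → ℕ → ℕ → Bool := onCell 0 536870912 536870912 536870912 649613803 48318383
    (rowB 3 eng mog cd2q0 cd8q1 pd1 1 false true true .pnn 0 1 1 (qsf 0 536870912 536870912 536870912 1) ndB2q0 ndB8q1 pcB1 cut_pp_011 Ext.none)

def k0_pp_011 : ∃ t, chk3 f_pp_011 t 1 1 1 = true :=
  ⟨(b (l 3) (b (l 3) (a (a (b (l 3) (a (b (l 3) (a (l 6) (l 3))) (l 3))) (l 3)) (l 2)))), by decide +kernel⟩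

theorem c_pp_011 : CertB 0 536870912 536870912 536870912 649613803 48318383 3 eng mog cd2q0 cd8q1 pd1 false true true .pnn 0 1 1
    ndB2q0 ndB8q1 pcB1 cut_pp_011 Ext.none :=
  certB1 (fam := false) (s1 := true) (s2 := true) (a := 0) (b := 1) (c := 1) (cn := .pnn) (n1 := ndB2q0) (n2 := ndB8q1) (pc := pcB1) (cut := cut_pp_011) (xt := Ext.none) (P1 := 0) (W1 := 536870912) (P2 := 536870912) (W2 := 536870912) (P3 := 649613803) (W3 := 48318383) (N0 := 3) (En := eng) (mo := mog) (C1 := cd2q0) (C2 := cd8q1) (C3 := pd1)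
    rfl (fun _ => rfl) k0_pp_011

noncomputable def cut_pp_012 : Cut := Cut.of [[⟨0, 0, 0, 67108864⟩, ⟨1, 1, 0, 67108864⟩, ⟨2, 1, 0, 67108864⟩]]

noncomputable def f_pp_012 : ℕ → ℕ → ℕ → ℕ → Bool := onCell 0 536870912 536870912 536870912 649613803 48318383
    (rowB 3 eng mog cd2q0 cd8q2 pd1 1 false true true .pnp 0 1 2 (qsf 0 536870912 1073741824 536870912 1) ndB2q0 ndB8q2 pcB1 cut_pp_012 Ext.none)

def k0_pp_012 : ∃ t, chk3 f_pp_012 t 1 1 1 = true :=
  ⟨(b (l 3) (a (b (l 3) (a (a (a (b (l 1) (b (l 3) (l 6))) (l 3)) (l 3)) (l 3))) (l 3))), by decide +kernel⟩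

theorem c_pp_012 : CertB 0 536870912 1073741824 536870912 649613803 48318383 3 eng mog cd2q0 cd8q2 pd1 false true true .pnp 0 1 2
    ndB2q0 ndB8q2 pcB1 cut_pp_012 Ext.none :=
  certB1 (fam := false) (s1 := true) (s2 := true) (a := 0) (b := 1) (c := 2) (cn := .pnp) (n1 := ndB2q0) (n2 := ndB8q2) (pc := pcB1) (cut := cut_pp_012) (xt := Ext.none) (P1 := 0) (W1 := 536870912) (P2 := 1073741824) (W2 := 536870912) (P3 := 649613803) (W3 := 48318383) (N0 := 3) (En := eng) (mo := mog) (C1 := cd2q0) (C2 := cd8q2) (C3 := pd1)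
    rfl (fun _ => rfl) k0_pp_012

noncomputable def cut_pp_022 : Cut := Cut.of [[⟨0, 0, 0, 67108864⟩, ⟨1, 1, 0, 67108864⟩, ⟨2, 1, 0, 67108864⟩]]

noncomputable def f_pp_022 : ℕ → ℕ → ℕ → ℕ → Bool := onCell 0 536870912 1073741824 536870912 649613803 48318383
    (rowB 3 eng mog cd2q0 cd8q2 pd2 1 false true true .pp 0 2 2 (qsf 0 536870912 1073741824 536870912 2) ndB2q0 ndB8q2 pcB2 cut_pp_022 Ext.none)

def k0_pp_022 : ∃ t, chk3 f_pp_022 t 2 8 1 = true :=
  ⟨(a (a (b (a (b (l 6) (a (l 6) (b (l 6) (a (l 6) (b (l 6) (a (l 6) (l 16743304))))))) (b (l 3) (b (l 3) (a (b (l 220284798503) (a (l 16752880) (l 16753920))) (l 3))))) (a (a (b (a (l 6) (b (l 6) (l 16698912))) (a (b (l 16672624) (l 16656192)) (l 16684576))) (b (b (a (l 16721856) (b (l 16732904) (l 16724912))) (a (l 16705352) (l 16711984))) (b (l 16692232) (l 16675736)))) (b (a (b (a (b (l 16740128) (l 16730912)) (b (l 16745760) (l 16738152))) (a (l 16719040) (l 16740632))) (b (l 212768593255) (a (l 16732392)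 (l 16739160)))) (a (b (a (l 16702232) (l 16709344)) (a (l 16685640) (l 16671368))) (b (a (l 16727240) (l 16723064)) (a (l 16699152) (l 16685088))))))) (a (b (l 3) (b (l 3) (b (a (l 16731704) (l 3)) (a (b (l 16720440) (l 16712528)) (l 16729040))))) (l 3))) (l 3)), by decide +kernel⟩

def k1_pp_022 : ∃ t, chk3 f_pp_022 t 2 9 1 = true :=
  ⟨(a (b (a (a (a (b (a (l 16632280) (l 16641024)) (l 16625312)) (b (b (l 16658512) (l 16641432)) (l 16615976))) (b (a (l 16673024) (b (a (l 16681304) (l 16688040)) (l 16666920))) (a (l 16648816) (l 16640432)))) (a (b (a (b (b (l 16682752) (l 16693896)) (a (l 16676800) (l 16683512))) (b (l 16711832) (b (l 16678656) (l 16689872)))) (b (a (l 16662376) (l 16633632)) (a (l 16644416) (l 16657128)))) (b (b (l 16729952) (a (l 16706880) (l 16719512))) (b (a (a (l 16686392) (l 16693608)) (l 16711864)) (a (l 16670048) (l 16683800)))))) (a (a (b (a (l 16570512) (l 16582152)) (a (l 16536624) (l 16548344))) (b (a (l 16593448) (l 16605264))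 (a (l 16559744) (l 16582648)))) (b (b (a (l 16570008) (a (l 16651472) (l 16663976))) (a (l 16636096) (a (l 16633496) (l 16645328)))) (a (b (l 16681240) (a (l 16573408) (l 16585352))) (b (a (l 16615568) (l 16627336)) (l 16540520)))))) (b (a (a (b (l 3) (b (l 253570705655) (a (l 16695136) (l 16708240)))) (l 3)) (l 3)) (b (a (a (b (a (l 16698744) (l 16690272)) (a (l 16658168) (l 16671816))) (b (l 16729152) (b (l 16695160) (l 16685608)))) (l 3)) (a (a (a (b (l 16640000) (l 16622256)) (b (l 16652864) (l 16635488))) (b (a (l 16665912) (l 16677976)) (a (l 16648024) (l 16660440)))) (a (b (l 16695632) (l 16761824)) (b (l 3) (l 16720464))))))), by decide +kernel⟩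

def k2_pp_022 : ∃ t, chk3 f_pp_022 t 2 5 1 = true :=
  ⟨(b (a (b (b (a (a (b (l 16517096) (l 16499904)) (a (l 16525944) (l 16537168))) (a (b (l 16564632) (a (l 16539696) (l 16550040))) (b (l 16585064) (l 16566696)))) (b (a (a (l 16482368) (l 16506200)) (a (l 16528256) (a (l 16606208) (l 16553456)))) (b (a (a (l 16447648) (l 16451032)) (a (l 16515512) (l 16535712))) (a (a (b (a (l 16454280) (l 16467064)) (b (b (b (l 16457168) (a (c (l 16471224) (l 16468888)) (l 16482808))) (l 16454368)) (l 16452824))) (b (l 16422576) (a (a (l 16574968) (l 16560160)) (l 16611144)))) (b (a (l 16508416) (l 16528960)) (a (a (l 16580824) (l 16591888)) (l 16523384))))))) (a (a (b (a (l 16429024) (l 16441904)) (a (l 16396904) (l 16409528))) (a (l 16521856) (l 16512688))) (a (b (l 16483336) (l 16449528)) (l 16506904)))) (b (b (a (a (b (a (l 16604104) (l 16617776)) (l 16592552)) (b (a (l 16630984) (l 16643384)) (l 16703296))) (b (a (l 16723296) (l 360407945687)) (a (l 16644176)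 (l 16665280)))) (b (a (a (l 16573752) (l 16601512)) (a (l 16626624) (l 16690936))) (b (a (a (l 16559232) (l 16586712)) (a (l 16612728) (l 16636152))) (a (b (a (l 16593752) (l 16577792)) (a (l 16546392) (a (a (l 16561552) (l 16567672)) (l 16577128)))) (b (l 16637072) (a (l 16596352) (l 16620080))))))) (a (a (l 16508144) (l 16532768)) (a (l 16557408) (l 16579912))))) (a (a (a (a (b (b (l 16365168) (l 16333752)) (l 16287104)) (b (l 16382512) (l 16298320))) (b (b (l 16394944) (l 16362424)) (l 16313544))) (b (a (l 16398672) (l 16414528)) (a (l 16329944) (l 16361880)))) (a (b (a (l 16434648) (l 16458904)) (a (l 16359640) (l 16403672))) (b (a (l 16490880) (l 16531280)) (a (l 16451328) (l 16498504)))))), by decide +kernel⟩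

def k3_pp_022 : ∃ t, chk3 f_pp_022 t 2 3 1 = true :=
  ⟨(a (b (b (a (b (a (l 16230312) (l 16247496)) (a (l 16165648) (l 16177152))) (b (a (l 16300872) (l 16353040)) (a (l 16196008) (l 16234000)))) (a (a (b (l 16100376) (l 16051960)) (b (l 16124808) (l 16089672))) (a (b (l 16161984) (l 16137864)) (b (l 16210432) (l 16191016))))) (a (b (b (a (l 16100680) (l 16065304)) (a (l 15993720) (l 16048056))) (a (b (l 15977424) (l 15965520)) (b (l 16034120) (l 16025080)))) (b (a (b (l 16119312) (l 16104656)) (b (l 16175584) (l 16165720))) (b (a (l 16096024) (l 2)) (l 2))))) (b (b (a (b (a (l 16313400) (l 16367536)) (a (l 16287832) (l 16346936))) (b (a (l 16422912) (l 16492056)) (a (l 16401624) (l 16449616)))) (a (a (b (l 16268520) (l 16251880)) (b (l 16328672) (l 16314008))) (b (l 16536712) (l 2)))) (b (a (a (b (l 16239824) (l 2)) (l 2)) (l 2)) (l 2)))), by decide +kernel⟩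

def k4_pp_022 : ∃ t, chk3 f_pp_022 t 3 1 1 = true :=
  ⟨(a (b (b (b (l 3) (b (l 3) (l 3))) (b (b (b (a (b (a (l 16744264) (l 3)) (a (l 16685880) (l 16704832))) (l 3)) (b (a (b (a (l 16673944) (l 16693136)) (a (l 16666176) (l 16686056))) (a (a (l 16724696) (l 16713888)) (l 328732653831))) (b (a (a (l 16657712) (l 16678208)) (a (l 16698568) (l 16719552))) (a (b (a (l 16650288) (l 16671240)) (a (l 16643416) (l 16666080))) (b (a (l 16692768) (l 16715128)) (a (l 16688408) (l 16711392))))))) (a (a (l 16605520) (l 16634176)) (a (l 16651984) (l 16682512)))) (a (b (a (l 16569864) (l 16599496)) (a (l 16538072) (l 16568792))) (b (a (l 16618592) (l 2)) (l 2))))) (b (b (a (b (l 16529992) (l 2)) (l 2)) (l 2)) (l 2))) (b (b (l 3) (b (b (b (l 3) (l 2)) (l 2)) (l 2))) (l 2))), by decide +kernel⟩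

theorem s5_pp_022 : ∃ t, chk3 f_pp_022 t 2 4 1 = true := ex3_b k0_pp_022 k1_pp_022

theorem s6_pp_022 : ∃ t, chk3 f_pp_022 t 2 2 1 = true := ex3_b s5_pp_022 k2_pp_022

theorem s7_pp_022 : ∃ t, chk3 f_pp_022 t 2 1 1 = true := ex3_b s6_pp_022 k3_pp_022

theorem s8_pp_022 : ∃ t, chk3 f_pp_022 t 1 1 1 = true := ex3_a s7_pp_022 k4_pp_022

theorem c_pp_022 : CertB 0 536870912 1073741824 536870912 649613803 48318383 3 eng mog cd2q0 cd8q2 pd2 false true true .pp 0 2 2
    ndB2q0 ndB8q2 pcB2 cut_pp_022 Ext.none :=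
  certB1 (fam := false) (s1 := true) (s2 := true) (a := 0) (b := 2) (c := 2) (cn := .pp) (n1 := ndB2q0) (n2 := ndB8q2) (pc := pcB2) (cut := cut_pp_022) (xt := Ext.none) (P1 := 0) (W1 := 536870912) (P2 := 1073741824) (W2 := 536870912) (P3 := 649613803) (W3 := 48318383) (N0 := 3) (En := eng) (mo := mog) (C1 := cd2q0) (C2 := cd8q2) (C3 := pd2)
    rfl (fun _ => rfl) s8_pp_022

noncomputable def f_pp_023 : ℕ → ℕ → ℕ → ℕ → Bool := onCell 1073741824 536870912 0 1230186008 649613803 48318383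
    (rowB 3 eng mog cd2q0 cd8q3 pd2 2 false true true .up 0 2 3 (qsf 0 536870912 0 1230186008 2) ndB2q0 ndB8q3 pcB2 Cut.none Ext.none)

def k0_pp_023 : ∃ t, chk3 f_pp_023 t 1 1 1 = true :=
  ⟨(b (a (l 2) (a (l 2) (b (a (l 2) (l 16712336)) (b (l 16890720) (a (l 16749944) (l 16772280)))))) (a (a (b (l 2) (l 3)) (b (a (l 2) (b (l 2) (l 16762752))) (a (a (a (b (l 3) (l 3)) (b (b (l 2) (a (l 3) (a (l 16778456) (a (l 16776344) (l 16774736))))) (a (l 3) (b (a (l 3) (a (l 16760768) (l 16758688))) (a (b (l 16745216) (l 16724792)) (b (a (l 16740080) (l 16736896)) (a (l 16718480) (l 16713608)))))))) (b (b (l 16769560) (l 16759680)) (b (l 16735616) (l 16748040)))) (b (b (l 16724304) (l 16682288)) (b (l 16626336) (b (l 16610408) (l 16585960))))))) (b (a (b (b (l 16742304) (l 16740016)) (a (l 16743008) (l 16730512))) (b (b (l 16755872) (l 16746208)) (b (l 16722704) (l 16678408)))) (b (a (b (l 16717904) (l 16701528)) (b (l 16594880) (l 16469840))) (a (b (b (l 16548792)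 (l 16502016)) (b (l 16473792) (a (l 16463848) (l 16325384)))) (b (a (l 16366192) (l 16243312)) (b (a (l 16253224) (l 16111544)) (a (l 16177376) (l 16034128))))))))), by decide +kernel⟩

theorem c_pp_023 : CertB 0 536870912 0 1230186008 649613803 48318383 3 eng mog cd2q0 cd8q3 pd2 false true true .up 0 2 3
    ndB2q0 ndB8q3 pcB2 Cut.none Ext.none :=
  certB2 (fam := false) (s1 := true) (s2 := true) (a := 0) (b := 2) (c := 3) (cn := .up) (n1 := ndB2q0) (n2 := ndB8q3) (pc := pcB2) (cut := Cut.none) (xt := Ext.none) (P1 := 0) (W1 := 536870912) (P2 := 0) (W2 := 1230186008) (P3 := 649613803) (W3 := 48318383) (N0 := 3) (En := eng) (mo := mog) (C1 := cd2q0) (C2 := cd8q3) (C3 := pd2)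
    rfl (fun _ => rfl) k0_pp_023

noncomputable def f_pp_033 : ℕ → ℕ → ℕ → ℕ → Bool := onCell 1610612736 536870912 0 1230186008 649613803 48318383
    (rowB 3 eng mog cd2q0 cd8q3 pd3 2 false true true .pnn 0 3 3 (qsf 0 536870912 0 1230186008 3) ndB2q0 ndB8q3 pcB3 Cut.none Ext.none)

def k0_pp_033 : ∃ t, chk3 f_pp_033 t 1 1 1 = true :=
  ⟨(b (b (a (a (a (l 16686064) (l 16643152)) (a (l 16609808) (l 16566880))) (a (a (l 16519952) (l 4)) (l 4))) (a (a (a (b (l 16717512) (l 16708704)) (b (l 16667512) (l 16684792))) (a (a (b (l 16629552) (a (l 16603440) (l 16586808))) (b (l 16605600) (b (l 16580216) (l 16560376)))) (b (l 16563408) (l 16581352)))) (a (a (b (l 16511568) (b (l 16579664) (l 16505672))) (b (a (l 16474464) (l 16450104)) (a (b (l 16445272) (l 16412640)) (l 16417304)))) (a (b (a (l 16429008) (l 4)) (a (l 16401456) (l 782791063559))) (a (b (l 4) (l 799970904167)) (l 4)))))) (b (a (a (b (a (l 16673320) (l 16597528)) (a (l 16582736) (b (l 16540296)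 (l 16462488)))) (a (b (a (a (l 16552472) (l 16533544)) (b (l 16532056) (l 16494128))) (b (a (l 16485752) (l 16440968)) (l 16383048))) (b (b (l 16472504) (l 16429920)) (b (l 16393472) (l 16300360))))) (b (a (a (b (l 16613120) (a (l 16376024) (l 16348000))) (b (a (l 16374400) (l 16362568)) (a (l 16321256) (l 16307896)))) (a (a (b (l 16352672) (l 1)) (l 1)) (l 1))) (a (a (b (a (l 16312416) (l 16282160)) (a (l 16235160) (l 16204072))) (b (a (l 16254864) (l 1)) (l 1))) (l 1)))) (a (b (a (b (l 16398616) (l 16233592)) (b (a (l 16272120) (l 16199080)) (l 124586347447))) (a (b (a (l 16128176) (l 16014824)) (b (l 118680852951) (a (l 15941096) (l 1)))) (b (a (l 515428144951) (l 1)) (l 1)))) (l 1)))), by decide +kernel⟩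

theorem c_pp_033 : CertB 0 536870912 0 1230186008 649613803 48318383 3 eng mog cd2q0 cd8q3 pd3 false true true .pnn 0 3 3
    ndB2q0 ndB8q3 pcB3 Cut.none Ext.none :=
  certB2 (fam := false) (s1 := true) (s2 := true) (a := 0) (b := 3) (c := 3) (cn := .pnn) (n1 := ndB2q0) (n2 := ndB8q3) (pc := pcB3) (cut := Cut.none) (xt := Ext.none) (P1 := 0) (W1 := 536870912) (P2 := 0) (W2 := 1230186008) (P3 := 649613803) (W3 := 48318383) (N0 := 3) (En := eng) (mo := mog) (C1 := cd2q0) (C2 := cd8q3) (C3 := pd3)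
    rfl (fun _ => rfl) k0_pp_033

noncomputable def f_pp_101 : ℕ → ℕ → ℕ → ℕ → Bool := onCell 536870912 536870912 0 536870912 649613803 48318383
    (rowB 3 eng mog cd2q1 cd8q1 pd0 1 false true true .npn 1 0 1 (qsf 536870912 536870912 536870912 536870912 0) ndB2q1 ndB8q1 pcB0 Cut.none Ext.none)

def k0_pp_101 : ∃ t, chk3 f_pp_101 t 1 1 1 = true :=
  ⟨(l 3), by decide +kernel⟩

theorem c_pp_101 : CertB 536870912 536870912 536870912 536870912 649613803 48318383 3 eng mog cd2q1 cd8q1 pd0 false true true .npn 1 0 1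
    ndB2q1 ndB8q1 pcB0 Cut.none Ext.none :=
  certB1 (fam := false) (s1 := true) (s2 := true) (a := 1) (b := 0) (c := 1) (cn := .npn) (n1 := ndB2q1) (n2 := ndB8q1) (pc := pcB0) (cut := Cut.none) (xt := Ext.none) (P1 := 536870912) (W1 := 536870912) (P2 := 536870912) (W2 := 536870912) (P3 := 649613803) (W3 := 48318383) (N0 := 3) (En := eng) (mo := mog) (C1 := cd2q1) (C2 := cd8q1) (C3 := pd0)
    rfl (fun _ => rfl) k0_pp_101

noncomputable def f_pp_102 : ℕ → ℕ → ℕ → ℕ → Bool := onCell 536870912 536870912 1073741824 536870912 649613803 48318383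
    (rowB 3 eng mog cd2q1 cd8q2 pd0 0 false true true .npp 1 0 2 (qsf 536870912 536870912 1073741824 536870912 0) ndB2q1 ndB8q2 pcB0 Cut.none Ext.none)

def k0_pp_102 : ∃ t, chk3 f_pp_102 t 1 1 1 = true :=
  ⟨(l 3), by decide +kernel⟩

theorem c_pp_102 : CertB 536870912 536870912 1073741824 536870912 649613803 48318383 3 eng mog cd2q1 cd8q2 pd0 false true true .npp 1 0 2
    ndB2q1 ndB8q2 pcB0 Cut.none Ext.none :=
  certB0 (fam := false) (s1 := true) (s2 := true) (a := 1) (b := 0) (c := 2) (cn := .npp) (n1 := ndB2q1) (n2 := ndB8q2) (pc := pcB0) (cut := Cut.none) (xt := Ext.none) (P1 := 536870912) (W1 := 536870912) (P2 := 1073741824) (W2 := 536870912) (P3 := 649613803) (W3 := 48318383) (N0 := 3) (En := eng) (mo := mog) (C1 := cd2q1) (C2 := cd8q2) (C3 := pd0)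
    rfl k0_pp_102

noncomputable def f_pp_112 : ℕ → ℕ → ℕ → ℕ → Bool := onCell 536870912 536870912 1073741824 536870912 649613803 48318383
    (rowB 3 eng mog cd2q1 cd8q2 pd1 0 false true true .dn 1 1 2 (qsf 536870912 536870912 1073741824 536870912 1) ndB2q1 ndB8q2 pcB1 Cut.none Ext.none)

def k0_pp_112 : ∃ t, chk3 f_pp_112 t 1 1 1 = true :=
  ⟨(l 3), by decide +kernel⟩

theorem c_pp_112 : CertB 536870912 536870912 1073741824 536870912 649613803 48318383 3 eng mog cd2q1 cd8q2 pd1 false true true .dn 1 1 2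
    ndB2q1 ndB8q2 pcB1 Cut.none Ext.none :=
  certB0 (fam := false) (s1 := true) (s2 := true) (a := 1) (b := 1) (c := 2) (cn := .dn) (n1 := ndB2q1) (n2 := ndB8q2) (pc := pcB1) (cut := Cut.none) (xt := Ext.none) (P1 := 536870912) (W1 := 536870912) (P2 := 1073741824) (W2 := 536870912) (P3 := 649613803) (W3 := 48318383) (N0 := 3) (En := eng) (mo := mog) (C1 := cd2q1) (C2 := cd8q2) (C3 := pd1)
    rfl k0_pp_112

noncomputable def f_pp_113 : ℕ → ℕ → ℕ → ℕ → Bool := onCell 536870912 536870912 0 1230186008 649613803 48318383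
    (rowB 3 eng mog cd2q1 cd8q3 pd1 2 false true true .nn 1 1 3 (qsf 536870912 536870912 0 1230186008 1) ndB2q1 ndB8q3 pcB1 Cut.none Ext.none)

def k0_pp_113 : ∃ t, chk3 f_pp_113 t 1 1 1 = true :=
  ⟨(b (a (l 2) (a (l 2) (b (a (l 2) (a (l 2) (b (l 16790512) (b (l 16767896) (l 410874172663))))) (a (l 3) (l 3))))) (a (b (l 3) (b (l 3) (l 3))) (b (l 3) (l 3)))), by decide +kernel⟩

theorem c_pp_113 : CertB 536870912 536870912 0 1230186008 649613803 48318383 3 eng mog cd2q1 cd8q3 pd1 false true true .nn 1 1 3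
    ndB2q1 ndB8q3 pcB1 Cut.none Ext.none :=
  certB2 (fam := false) (s1 := true) (s2 := true) (a := 1) (b := 1) (c := 3) (cn := .nn) (n1 := ndB2q1) (n2 := ndB8q3) (pc := pcB1) (cut := Cut.none) (xt := Ext.none) (P1 := 536870912) (W1 := 536870912) (P2 := 0) (W2 := 1230186008) (P3 := 649613803) (W3 := 48318383) (N0 := 3) (En := eng) (mo := mog) (C1 := cd2q1) (C2 := cd8q3) (C3 := pd1)
    rfl (fun _ => rfl) k0_pp_113

noncomputable def f_pp_123 : ℕ → ℕ → ℕ → ℕ → Bool := onCell 1073741824 536870912 0 1230186008 649613803 48318383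
    (rowB 3 eng mog cd2q1 cd8q3 pd2 2 false true true .npn 1 2 3 (qsf 536870912 536870912 0 1230186008 2) ndB2q1 ndB8q3 pcB2 Cut.none Ext.none)

def k0_pp_123 : ∃ t, chk3 f_pp_123 t 2 1 1 = true :=
  ⟨(a (b (a (b (b (l 16732608) (a (l 16781120) (l 16751376))) (b (a (b (l 16794960) (l 557439902295)) (b (l 16792320) (l 16800872))) (a (l 3) (b (l 537038883687) (l 3))))) (b (b (l 16673800) (l 16707544)) (a (b (l 16988192) (b (a (l 16797848) (l 16795032)) (a (l 16809488) (l 16784424)))) (b (b (l 16729416) (l 16767032)) (b (l 16946992) (a (l 16777184) (l 16773152))))))) (b (a (l 3) (a (b (a (l 3) (b (l 422148122871) (l 3))) (l 3)) (b (a (b (l 318532039175) (l 472077132871)) (b (b (l 16760352) (l 16758208)) (l 16755504))) (a (l 3) (l 475835506967))))) (l 3))) (b (b (a (a (b (l 16624616) (l 16857312)) (b (l 16593832) (l 16644688))) (b (l 16613104) (l 16662176))) (a (b (a (a (l 16725416) (l 16722264)) (l 16709336)) (a (a (b (l 16788112) (l 16765064)) (a (l 16961440)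 (a (l 16794496) (a (l 16788088) (l 16778768))))) (l 16785688))) (b (l 16716512) (l 16768208)))) (b (a (a (a (b (b (l 16758784) (l 16746768)) (a (l 16747016) (l 16769264))) (b (a (b (l 16751008) (l 16744320)) (a (l 16748720) (a (l 16745760) (l 16738528)))) (a (l 16794032) (a (l 16753272) (a (l 16750352) (l 16740120)))))) (b (l 16739352) (l 16740576))) (b (l 16758368) (l 16779944))) (a (a (a (b (l 3) (l 3)) (b (a (b (l 16744912) (l 3)) (b (a (l 16752216) (a (l 16754992) (l 16754264))) (a (l 16739640) (a (l 16741784) (l 16743624))))) (l 1))) (b (b (l 16760480) (l 16756016)) (l 1))) (b (l 246994663767) (l 1)))))), by decide +kernel⟩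

def k1_pp_123 : ∃ t, chk3 f_pp_123 t 3 1 1 = true :=
  ⟨(b (b (a (a (l 16833336) (l 16686080)) (a (l 16712896) (l 16755280))) (a (b (a (l 16736712) (l 16744328)) (l 16894040)) (b (l 16966464) (a (l 16734360) (l 16725912))))) (b (a (b (a (l 16743040) (l 16727360)) (a (l 16738784) (l 16735216))) (b (l 16776096) (l 1))) (l 1))), by decide +kernel⟩

theorem s2_pp_123 : ∃ t, chk3 f_pp_123 t 1 1 1 = true := ex3_a k0_pp_123 k1_pp_123

theorem c_pp_123 : CertB 536870912 536870912 0 1230186008 649613803 48318383 3 eng mog cd2q1 cd8q3 pd2 false true true .npn 1 2 3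
    ndB2q1 ndB8q3 pcB2 Cut.none Ext.none :=
  certB2 (fam := false) (s1 := true) (s2 := true) (a := 1) (b := 2) (c := 3) (cn := .npn) (n1 := ndB2q1) (n2 := ndB8q3) (pc := pcB2) (cut := Cut.none) (xt := Ext.none) (P1 := 536870912) (W1 := 536870912) (P2 := 0) (W2 := 1230186008) (P3 := 649613803) (W3 := 48318383) (N0 := 3) (En := eng) (mo := mog) (C1 := cd2q1) (C2 := cd8q3) (C3 := pd2)
    rfl (fun _ => rfl) s2_pp_123

noncomputable def f_pp_133 : ℕ → ℕ → ℕ → ℕ → Bool := onCell 1610612736 536870912 0 1230186008 649613803 48318383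
    (rowB 3 eng mog cd2q1 cd8q3 pd3 2 false true true .dn 1 3 3 (qsf 536870912 536870912 0 1230186008 3) ndB2q1 ndB8q3 pcB3 Cut.none Ext.none)

def k0_pp_133 : ∃ t, chk3 f_pp_133 t 1 1 1 = true :=
  ⟨(b (b (a (a (a (l 16737328) (l 1)) (l 1)) (l 1)) (l 1)) (l 1)), by decide +kernel⟩

theorem c_pp_133 : CertB 536870912 536870912 0 1230186008 649613803 48318383 3 eng mog cd2q1 cd8q3 pd3 false true true .dn 1 3 3
    ndB2q1 ndB8q3 pcB3 Cut.none Ext.none :=
  certB2 (fam := false) (s1 := true) (s2 := true) (a := 1) (b := 3) (c := 3) (cn := .dn) (n1 := ndB2q1) (n2 := ndB8q3) (pc := pcB3) (cut := Cut.none) (xt := Ext.none) (P1 := 536870912) (W1 := 536870912) (P2 := 0) (W2 := 1230186008) (P3 := 649613803) (W3 := 48318383) (N0 := 3) (En := eng) (mo := mog) (C1 := cd2q1) (C2 := cd8q3) (C3 := pd3)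
    rfl (fun _ => rfl) k0_pp_133

noncomputable def f_pp_202_a : ℕ → ℕ → ℕ → ℕ → Bool := onCell 0 536870912 1073741824 536870912 649613803 48318383
    (rowB 3 eng mog cd2q2a cd8q2 pd0 0 false true true .pp 2 0 2 (qsf 0 536870912 1073741824 536870912 0) ndB2q2a ndB8q2 pcB0 Cut.none Ext.none)

def k0_pp_202_a : ∃ t, chk3 f_pp_202_a t 1 1 1 = true :=
  ⟨(l 5), by decide +kernel⟩

theorem c_pp_202_a : CertB 0 536870912 1073741824 536870912 649613803 48318383 3 eng mog cd2q2a cd8q2 pd0 false true true .pp 2 0 2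
    ndB2q2a ndB8q2 pcB0 Cut.none Ext.none :=
  certB0 (fam := false) (s1 := true) (s2 := true) (a := 2) (b := 0) (c := 2) (cn := .pp) (n1 := ndB2q2a) (n2 := ndB8q2) (pc := pcB0) (cut := Cut.none) (xt := Ext.none) (P1 := 0) (W1 := 536870912) (P2 := 1073741824) (W2 := 536870912) (P3 := 649613803) (W3 := 48318383) (N0 := 3) (En := eng) (mo := mog) (C1 := cd2q2a) (C2 := cd8q2) (C3 := pd0)
    rfl k0_pp_202_a

noncomputable def f_pp_202_b : ℕ → ℕ → ℕ → ℕ → Bool := onCell 1239849684 370763052 1073741824 536870912 649613803 48318383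
    (rowB 3 eng mog cd2q2b cd8q2 pd0 0 false true true .pp 2 0 2 (qsf 1239849684 370763052 1073741824 536870912 0) ndB2q2b ndB8q2 pcB0 Cut.none Ext.none)

def k0_pp_202_b : ∃ t, chk3 f_pp_202_b t 1 1 1 = true :=
  ⟨(l 5), by decide +kernel⟩

theorem c_pp_202_b : CertB 1239849684 370763052 1073741824 536870912 649613803 48318383 3 eng mog cd2q2b cd8q2 pd0 false true true .pp 2 0 2
    ndB2q2b ndB8q2 pcB0 Cut.none Ext.none :=
  certB0 (fam := false) (s1 := true) (s2 := true) (a := 2) (b := 0) (c := 2) (cn := .pp) (n1 := ndB2q2b) (n2 := ndB8q2) (pc := pcB0) (cut := Cut.none) (xt := Ext.none) (P1 := 1239849684) (W1 := 370763052) (P2 := 1073741824) (W2 := 536870912) (P3 := 649613803) (W3 := 48318383) (N0 := 3) (En := eng) (mo := mog) (C1 := cd2q2b) (C2 := cd8q2) (C3 := pd0)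
    rfl k0_pp_202_b

noncomputable def f_pp_203_a : ℕ → ℕ → ℕ → ℕ → Bool := onCell 0 536870912 0 1230186008 649613803 48318383
    (rowB 3 eng mog cd2q2a cd8q3 pd0 0 false true true .up 2 0 3 (qsf 0 536870912 0 1230186008 0) ndB2q2a ndB8q3 pcB0 Cut.none Ext.none)

def k0_pp_203_a : ∃ t, chk3 f_pp_203_a t 1 1 1 = true :=
  ⟨(b (l 2) (a (l 5) (l 3))), by decide +kernel⟩

theorem c_pp_203_a : CertB 0 536870912 0 1230186008 649613803 48318383 3 eng mog cd2q2a cd8q3 pd0 false true true .up 2 0 3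
    ndB2q2a ndB8q3 pcB0 Cut.none Ext.none :=
  certB0 (fam := false) (s1 := true) (s2 := true) (a := 2) (b := 0) (c := 3) (cn := .up) (n1 := ndB2q2a) (n2 := ndB8q3) (pc := pcB0) (cut := Cut.none) (xt := Ext.none) (P1 := 0) (W1 := 536870912) (P2 := 0) (W2 := 1230186008) (P3 := 649613803) (W3 := 48318383) (N0 := 3) (En := eng) (mo := mog) (C1 := cd2q2a) (C2 := cd8q3) (C3 := pd0)
    rfl k0_pp_203_a

noncomputable def f_pp_203_b : ℕ → ℕ → ℕ → ℕ → Bool := onCell 1239849684 370763052 0 1230186008 649613803 48318383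
    (rowB 3 eng mog cd2q2b cd8q3 pd0 0 false true true .up 2 0 3 (qsf 1239849684 370763052 0 1230186008 0) ndB2q2b ndB8q3 pcB0 Cut.none Ext.none)

def k0_pp_203_b : ∃ t, chk3 f_pp_203_b t 1 1 1 = true :=
  ⟨(b (l 3) (l 5)), by decide +kernel⟩

theorem c_pp_203_b : CertB 1239849684 370763052 0 1230186008 649613803 48318383 3 eng mog cd2q2b cd8q3 pd0 false true true .up 2 0 3
    ndB2q2b ndB8q3 pcB0 Cut.none Ext.none :=
  certB0 (fam := false) (s1 := true) (s2 := true) (a := 2) (b := 0) (c := 3) (cn := .up) (n1 := ndB2q2b) (n2 := ndB8q3) (pc := pcB0) (cut := Cut.none) (xt := Ext.none) (P1 := 1239849684) (W1 := 370763052) (P2 := 0) (W2 := 1230186008) (P3 := 649613803) (W3 := 48318383) (N0 := 3) (En := eng) (mo := mog) (C1 := cd2q2b) (C2 := cd8q3) (C3 := pd0)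
    rfl k0_pp_203_b

noncomputable def cut_pp_213_a : Cut := Cut.of [[⟨0, 1, 0, 67108864⟩, ⟨1, 1, 0, 67108864⟩, ⟨2, 2, 0, 16777216⟩]]

noncomputable def f_pp_213_a : ℕ → ℕ → ℕ → ℕ → Bool := onCell 0 536870912 0 1230186008 649613803 48318383
    (rowB 3 eng mog cd2q2a cd8q3 pd1 0 false true true .pnn 2 1 3 (qsf 0 536870912 0 1230186008 1) ndB2q2a ndB8q3 pcB1 cut_pp_213_a Ext.none)

def k0_pp_213_a : ∃ t, chk3 f_pp_213_a t 1 1 1 = true :=
  ⟨(a (b (l 3) (l 5)) (b (b (a (l 3) (b (a (l 3) (l 6)) (l 3))) (l 3)) (l 3))), by decide +kernel⟩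

theorem c_pp_213_a : CertB 0 536870912 0 1230186008 649613803 48318383 3 eng mog cd2q2a cd8q3 pd1 false true true .pnn 2 1 3
    ndB2q2a ndB8q3 pcB1 cut_pp_213_a Ext.none :=
  certB0 (fam := false) (s1 := true) (s2 := true) (a := 2) (b := 1) (c := 3) (cn := .pnn) (n1 := ndB2q2a) (n2 := ndB8q3) (pc := pcB1) (cut := cut_pp_213_a) (xt := Ext.none) (P1 := 0) (W1 := 536870912) (P2 := 0) (W2 := 1230186008) (P3 := 649613803) (W3 := 48318383) (N0 := 3) (En := eng) (mo := mog) (C1 := cd2q2a) (C2 := cd8q3) (C3 := pd1)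
    rfl k0_pp_213_a

noncomputable def cut_pp_213_b : Cut := Cut.of [[⟨0, 1, 0, 67108864⟩, ⟨1, 1, 0, 67108864⟩, ⟨2, 2, 0, 16777216⟩]]

noncomputable def f_pp_213_b : ℕ → ℕ → ℕ → ℕ → Bool := onCell 1239849684 370763052 0 1230186008 649613803 48318383
    (rowB 3 eng mog cd2q2b cd8q3 pd1 0 false true true .pnn 2 1 3 (qsf 1239849684 370763052 0 1230186008 1) ndB2q2b ndB8q3 pcB1 cut_pp_213_b Ext.none)

def k0_pp_213_b : ∃ t, chk3 f_pp_213_b t 1 1 1 = true :=
  ⟨(b (l 3) (l 5)), by decide +kernel⟩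

theorem c_pp_213_b : CertB 1239849684 370763052 0 1230186008 649613803 48318383 3 eng mog cd2q2b cd8q3 pd1 false true true .pnn 2 1 3
    ndB2q2b ndB8q3 pcB1 cut_pp_213_b Ext.none :=
  certB0 (fam := false) (s1 := true) (s2 := true) (a := 2) (b := 1) (c := 3) (cn := .pnn) (n1 := ndB2q2b) (n2 := ndB8q3) (pc := pcB1) (cut := cut_pp_213_b) (xt := Ext.none) (P1 := 1239849684) (W1 := 370763052) (P2 := 0) (W2 := 1230186008) (P3 := 649613803) (W3 := 48318383) (N0 := 3) (En := eng) (mo := mog) (C1 := cd2q2b) (C2 := cd8q3) (C3 := pd1)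
    rfl k0_pp_213_b

noncomputable def f_pp_303 : ℕ → ℕ → ℕ → ℕ → Bool := onCell 1610612736 536870912 0 1230186008 649613803 48318383
    (rowB 3 eng mog cd2q3 cd8q3 pd0 0 false true true .npn 3 0 3 (qsf 1610612736 536870912 0 1230186008 0) ndB2q3 ndB8q3 pcB0 Cut.none Ext.none)

def k0_pp_303 : ∃ t, chk3 f_pp_303 t 1 1 1 = true :=
  ⟨(b (l 3) (l 5)), by decide +kernel⟩

theorem c_pp_303 : CertB 1610612736 536870912 0 1230186008 649613803 48318383 3 eng mog cd2q3 cd8q3 pd0 false true true .npn 3 0 3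
    ndB2q3 ndB8q3 pcB0 Cut.none Ext.none :=
  certB0 (fam := false) (s1 := true) (s2 := true) (a := 3) (b := 0) (c := 3) (cn := .npn) (n1 := ndB2q3) (n2 := ndB8q3) (pc := pcB0) (cut := Cut.none) (xt := Ext.none) (P1 := 1610612736) (W1 := 536870912) (P2 := 0) (W2 := 1230186008) (P3 := 649613803) (W3 := 48318383) (N0 := 3) (En := eng) (mo := mog) (C1 := cd2q3) (C2 := cd8q3) (C3 := pd0)
    rfl k0_pp_303

noncomputable def f_pp_313 : ℕ → ℕ → ℕ → ℕ → Bool := onCell 1610612736 536870912 0 1230186008 649613803 48318383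
    (rowB 3 eng mog cd2q3 cd8q3 pd1 0 false true true .dn 3 1 3 (qsf 1610612736 536870912 0 1230186008 1) ndB2q3 ndB8q3 pcB1 Cut.none Ext.none)

def k0_pp_313 : ∃ t, chk3 f_pp_313 t 1 1 1 = true :=
  ⟨(b (l 3) (l 1)), by decide +kernel⟩

theorem c_pp_313 : CertB 1610612736 536870912 0 1230186008 649613803 48318383 3 eng mog cd2q3 cd8q3 pd1 false true true .dn 3 1 3
    ndB2q3 ndB8q3 pcB1 Cut.none Ext.none :=
  certB0 (fam := false) (s1 := true) (s2 := true) (a := 3) (b := 1) (c := 3) (cn := .dn) (n1 := ndB2q3) (n2 := ndB8q3) (pc := pcB1) (cut := Cut.none) (xt := Ext.none) (P1 := 1610612736) (W1 := 536870912) (P2 := 0) (W2 := 1230186008) (P3 := 649613803) (W3 := 48318383) (N0 := 3) (En := eng) (mo := mog) (C1 := cd2q3) (C2 := cd8q3) (C3 := pd1)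
    rfl k0_pp_313

noncomputable def f_pm_001 : ℕ → ℕ → ℕ → ℕ → Bool := onCell 0 536870912 536870912 536870912 649613803 48318383
    (rowB 3 eng mog cd2q0 cd8q1 pd0 0 false true false .up 0 0 1 (qsf 0 536870912 536870912 536870912 0) ndB2q0 ndB8q1 pcB0 Cut.none Ext.none)

def k0_pm_001 : ∃ t, chk3 f_pm_001 t 1 1 1 = true :=
  ⟨(l 4), by decide +kernel⟩

theorem c_pm_001 : CertB 0 536870912 536870912 536870912 649613803 48318383 3 eng mog cd2q0 cd8q1 pd0 false true false .up 0 0 1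
    ndB2q0 ndB8q1 pcB0 Cut.none Ext.none :=
  certB0 (fam := false) (s1 := true) (s2 := false) (a := 0) (b := 0) (c := 1) (cn := .up) (n1 := ndB2q0) (n2 := ndB8q1) (pc := pcB0) (cut := Cut.none) (xt := Ext.none) (P1 := 0) (W1 := 536870912) (P2 := 536870912) (W2 := 536870912) (P3 := 649613803) (W3 := 48318383) (N0 := 3) (En := eng) (mo := mog) (C1 := cd2q0) (C2 := cd8q1) (C3 := pd0)
    rfl k0_pm_001

noncomputable def f_pm_011 : ℕ → ℕ → ℕ → ℕ → Bool := onCell 0 536870912 536870912 536870912 649613803 48318383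
    (rowB 3 eng mog cd2q0 cd8q1 pd1 0 false true false .pnn 0 1 1 (qsf 0 536870912 536870912 536870912 1) ndB2q0 ndB8q1 pcB1 Cut.none Ext.none)

def k0_pm_011 : ∃ t, chk3 f_pm_011 t 1 1 1 = true :=
  ⟨(l 4), by decide +kernel⟩

theorem c_pm_011 : CertB 0 536870912 536870912 536870912 649613803 48318383 3 eng mog cd2q0 cd8q1 pd1 false true false .pnn 0 1 1
    ndB2q0 ndB8q1 pcB1 Cut.none Ext.none :=
  certB0 (fam := false) (s1 := true) (s2 := false) (a := 0) (b := 1) (c := 1) (cn := .pnn) (n1 := ndB2q0) (n2 := ndB8q1) (pc := pcB1) (cut := Cut.none) (xt := Ext.none) (P1 := 0) (W1 := 536870912) (P2 := 536870912) (W2 := 536870912) (P3 := 649613803) (W3 := 48318383) (N0 := 3) (En := eng) (mo := mog) (C1 := cd2q0) (C2 := cd8q1) (C3 := pd1)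
    rfl k0_pm_011

noncomputable def f_pm_012 : ℕ → ℕ → ℕ → ℕ → Bool := onCell 0 536870912 1073741824 536870912 649613803 48318383
    (rowB 3 eng mog cd2q0 cd8q2 pd1 0 false true false .pnp 0 1 2 (qsf 0 536870912 1073741824 536870912 1) ndB2q0 ndB8q2 pcB1 Cut.none Ext.none)

def k0_pm_012 : ∃ t, chk3 f_pm_012 t 1 1 1 = true :=
  ⟨(l 4), by decide +kernel⟩

theorem c_pm_012 : CertB 0 536870912 1073741824 536870912 649613803 48318383 3 eng mog cd2q0 cd8q2 pd1 false true false .pnp 0 1 2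
    ndB2q0 ndB8q2 pcB1 Cut.none Ext.none :=
  certB0 (fam := false) (s1 := true) (s2 := false) (a := 0) (b := 1) (c := 2) (cn := .pnp) (n1 := ndB2q0) (n2 := ndB8q2) (pc := pcB1) (cut := Cut.none) (xt := Ext.none) (P1 := 0) (W1 := 536870912) (P2 := 1073741824) (W2 := 536870912) (P3 := 649613803) (W3 := 48318383) (N0 := 3) (En := eng) (mo := mog) (C1 := cd2q0) (C2 := cd8q2) (C3 := pd1)
    rfl k0_pm_012

noncomputable def f_pm_022 : ℕ → ℕ → ℕ → ℕ → Bool := onCell 0 536870912 1073741824 536870912 649613803 48318383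
    (rowB 3 eng mog cd2q0 cd8q2 pd2 0 false true false .pp 0 2 2 (qsf 0 536870912 1073741824 536870912 2) ndB2q0 ndB8q2 pcB2 Cut.none Ext.none)

def k0_pm_022 : ∃ t, chk3 f_pm_022 t 1 1 1 = true :=
  ⟨(l 4), by decide +kernel⟩

theorem c_pm_022 : CertB 0 536870912 1073741824 536870912 649613803 48318383 3 eng mog cd2q0 cd8q2 pd2 false true false .pp 0 2 2
    ndB2q0 ndB8q2 pcB2 Cut.none Ext.none :=
  certB0 (fam := false) (s1 := true) (s2 := false) (a := 0) (b := 2) (c := 2) (cn := .pp) (n1 := ndB2q0) (n2 := ndB8q2) (pc := pcB2) (cut := Cut.none) (xt := Ext.none) (P1 := 0) (W1 := 536870912) (P2 := 1073741824) (W2 := 536870912) (P3 := 649613803) (W3 := 48318383) (N0 := 3) (En := eng) (mo := mog) (C1 := cd2q0) (C2 := cd8q2) (C3 := pd2)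
    rfl k0_pm_022

noncomputable def f_pm_023 : ℕ → ℕ → ℕ → ℕ → Bool := onCell 0 536870912 0 1230186008 649613803 48318383
    (rowB 3 eng mog cd2q0 cd8q3 pd2 0 false true false .up 0 2 3 (qsf 0 536870912 0 1230186008 2) ndB2q0 ndB8q3 pcB2 Cut.none Ext.none)

def k0_pm_023 : ∃ t, chk3 f_pm_023 t 1 1 1 = true :=
  ⟨(b (b (a (l 2) (a (l 2) (a (l 2) (l 16653040)))) (l 4)) (l 4)), by decide +kernel⟩

theorem c_pm_023 : CertB 0 536870912 0 1230186008 649613803 48318383 3 eng mog cd2q0 cd8q3 pd2 false true false .up 0 2 3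
    ndB2q0 ndB8q3 pcB2 Cut.none Ext.none :=
  certB0 (fam := false) (s1 := true) (s2 := false) (a := 0) (b := 2) (c := 3) (cn := .up) (n1 := ndB2q0) (n2 := ndB8q3) (pc := pcB2) (cut := Cut.none) (xt := Ext.none) (P1 := 0) (W1 := 536870912) (P2 := 0) (W2 := 1230186008) (P3 := 649613803) (W3 := 48318383) (N0 := 3) (En := eng) (mo := mog) (C1 := cd2q0) (C2 := cd8q3) (C3 := pd2)
    rfl k0_pm_023

noncomputable def f_pm_033 : ℕ → ℕ → ℕ → ℕ → Bool := onCell 0 536870912 0 1230186008 649613803 48318383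
    (rowB 3 eng mog cd2q0 cd8q3 pd3 0 false true false .pnn 0 3 3 (qsf 0 536870912 0 1230186008 3) ndB2q0 ndB8q3 pcB3 Cut.none Ext.none)

def k0_pm_033 : ∃ t, chk3 f_pm_033 t 1 1 1 = true :=
  ⟨(b (a (l 4) (b (a (l 4) (a (l 16623720) (l 16645872))) (l 4))) (l 4)), by decide +kernel⟩

theorem c_pm_033 : CertB 0 536870912 0 1230186008 649613803 48318383 3 eng mog cd2q0 cd8q3 pd3 false true false .pnn 0 3 3
    ndB2q0 ndB8q3 pcB3 Cut.none Ext.none :=
  certB0 (fam := false) (s1 := true) (s2 := false) (a := 0) (b := 3) (c := 3) (cn := .pnn) (n1 := ndB2q0) (n2 := ndB8q3) (pc := pcB3) (cut := Cut.none) (xt := Ext.none) (P1 := 0) (W1 := 536870912) (P2 := 0) (W2 := 1230186008) (P3 := 649613803) (W3 := 48318383) (N0 := 3) (En := eng) (mo := mog) (C1 := cd2q0) (C2 := cd8q3) (C3 := pd3)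
    rfl k0_pm_033

noncomputable def f_pm_101 : ℕ → ℕ → ℕ → ℕ → Bool := onCell 536870912 536870912 536870912 536870912 649613803 48318383
    (rowB 3 eng mog cd2q1 cd8q1 pd0 0 false true false .npn 1 0 1 (qsf 536870912 536870912 536870912 536870912 0) ndB2q1 ndB8q1 pcB0 Cut.none Ext.none)

def k0_pm_101 : ∃ t, chk3 f_pm_101 t 1 1 1 = true :=
  ⟨(l 4), by decide +kernel⟩

theorem c_pm_101 : CertB 536870912 536870912 536870912 536870912 649613803 48318383 3 eng mog cd2q1 cd8q1 pd0 false true false .npn 1 0 1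
    ndB2q1 ndB8q1 pcB0 Cut.none Ext.none :=
  certB0 (fam := false) (s1 := true) (s2 := false) (a := 1) (b := 0) (c := 1) (cn := .npn) (n1 := ndB2q1) (n2 := ndB8q1) (pc := pcB0) (cut := Cut.none) (xt := Ext.none) (P1 := 536870912) (W1 := 536870912) (P2 := 536870912) (W2 := 536870912) (P3 := 649613803) (W3 := 48318383) (N0 := 3) (En := eng) (mo := mog) (C1 := cd2q1) (C2 := cd8q1) (C3 := pd0)
    rfl k0_pm_101

noncomputable def f_pm_102 : ℕ → ℕ → ℕ → ℕ → Bool := onCell 536870912 536870912 1073741824 536870912 649613803 48318383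
    (rowB 3 eng mog cd2q1 cd8q2 pd0 0 false true false .npp 1 0 2 (qsf 536870912 536870912 1073741824 536870912 0) ndB2q1 ndB8q2 pcB0 Cut.none Ext.none)

def k0_pm_102 : ∃ t, chk3 f_pm_102 t 1 1 1 = true :=
  ⟨(l 4), by decide +kernel⟩

theorem c_pm_102 : CertB 536870912 536870912 1073741824 536870912 649613803 48318383 3 eng mog cd2q1 cd8q2 pd0 false true false .npp 1 0 2
    ndB2q1 ndB8q2 pcB0 Cut.none Ext.none :=
  certB0 (fam := false) (s1 := true) (s2 := false) (a := 1) (b := 0) (c := 2) (cn := .npp) (n1 := ndB2q1) (n2 := ndB8q2) (pc := pcB0) (cut := Cut.none) (xt := Ext.none) (P1 := 536870912) (W1 := 536870912) (P2 := 1073741824) (W2 := 536870912) (P3 := 649613803) (W3 := 48318383) (N0 := 3) (En := eng) (mo := mog) (C1 := cd2q1) (C2 := cd8q2) (C3 := pd0)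
    rfl k0_pm_102

noncomputable def f_pm_112 : ℕ → ℕ → ℕ → ℕ → Bool := onCell 536870912 536870912 1073741824 536870912 649613803 48318383
    (rowB 3 eng mog cd2q1 cd8q2 pd1 0 false true false .dn 1 1 2 (qsf 536870912 536870912 1073741824 536870912 1) ndB2q1 ndB8q2 pcB1 Cut.none Ext.none)

def k0_pm_112 : ∃ t, chk3 f_pm_112 t 1 1 1 = true :=
  ⟨(l 4), by decide +kernel⟩

theorem c_pm_112 : CertB 536870912 536870912 1073741824 536870912 649613803 48318383 3 eng mog cd2q1 cd8q2 pd1 false true false .dn 1 1 2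
    ndB2q1 ndB8q2 pcB1 Cut.none Ext.none :=
  certB0 (fam := false) (s1 := true) (s2 := false) (a := 1) (b := 1) (c := 2) (cn := .dn) (n1 := ndB2q1) (n2 := ndB8q2) (pc := pcB1) (cut := Cut.none) (xt := Ext.none) (P1 := 536870912) (W1 := 536870912) (P2 := 1073741824) (W2 := 536870912) (P3 := 649613803) (W3 := 48318383) (N0 := 3) (En := eng) (mo := mog) (C1 := cd2q1) (C2 := cd8q2) (C3 := pd1)
    rfl k0_pm_112

noncomputable def f_pm_113 : ℕ → ℕ → ℕ → ℕ → Bool := onCell 536870912 536870912 0 1230186008 649613803 48318383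
    (rowB 3 eng mog cd2q1 cd8q3 pd1 0 false true false .nn 1 1 3 (qsf 536870912 536870912 0 1230186008 1) ndB2q1 ndB8q3 pcB1 Cut.none Ext.none)

def k0_pm_113 : ∃ t, chk3 f_pm_113 t 1 1 1 = true :=
  ⟨(a (b (l 2) (l 4)) (a (b (l 2) (b (b (a (l 2) (l 340476766695)) (l 4)) (l 4))) (b (b (b (a (l 2) (l 16749368)) (l 16924544)) (b (l 16691632) (l 16873576))) (b (b (a (l 16707896) (b (l 16647264) (l 16623904))) (b (l 16621416) (l 16647376))) (b (l 21173132567) (l 4)))))), by decide +kernel⟩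

theorem c_pm_113 : CertB 536870912 536870912 0 1230186008 649613803 48318383 3 eng mog cd2q1 cd8q3 pd1 false true false .nn 1 1 3
    ndB2q1 ndB8q3 pcB1 Cut.none Ext.none :=
  certB0 (fam := false) (s1 := true) (s2 := false) (a := 1) (b := 1) (c := 3) (cn := .nn) (n1 := ndB2q1) (n2 := ndB8q3) (pc := pcB1) (cut := Cut.none) (xt := Ext.none) (P1 := 536870912) (W1 := 536870912) (P2 := 0) (W2 := 1230186008) (P3 := 649613803) (W3 := 48318383) (N0 := 3) (En := eng) (mo := mog) (C1 := cd2q1) (C2 := cd8q3) (C3 := pd1)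
    rfl k0_pm_113

noncomputable def f_pm_123 : ℕ → ℕ → ℕ → ℕ → Bool := onCell 1073741824 536870912 0 1230186008 649613803 48318383
    (rowB 3 eng mog cd2q1 cd8q3 pd2 2 false true false .npn 1 2 3 (qsf 536870912 536870912 0 1230186008 2) ndB2q1 ndB8q3 pcB2 Cut.none Ext.none)

def k0_pm_123 : ∃ t, chk3 f_pm_123 t 1 1 1 = true :=
  ⟨(b (a (a (b (a (b (l 16731576) (l 16710480)) (b (l 16651592) (l 16613304))) (a (b (b (l 16677088) (l 16630088)) (b (l 16583504) (l 16528632))) (b (l 16662216) (b (l 16512624) (l 16480544))))) (b (a (b (l 16569560) (l 16618520)) (l 16716784)) (b (a (a (l 16529088) (l 16518472)) (l 16541912)) (a (l 16726464) (l 16536576))))) (a (b (a (l 16589264) (l 16624352)) (a (b (l 16578720) (l 4)) (l 16846184))) (b (a (l 16667640) (l 16704944)) (l 4)))) (a (b (b (a (b (a (l 16491792) (l 4)) (l 4)) (l 4)) (l 4)) (l 4)) (l 4))), by decide +kernel⟩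

theorem c_pm_123 : CertB 536870912 536870912 0 1230186008 649613803 48318383 3 eng mog cd2q1 cd8q3 pd2 false true false .npn 1 2 3
    ndB2q1 ndB8q3 pcB2 Cut.none Ext.none :=
  certB2 (fam := false) (s1 := true) (s2 := false) (a := 1) (b := 2) (c := 3) (cn := .npn) (n1 := ndB2q1) (n2 := ndB8q3) (pc := pcB2) (cut := Cut.none) (xt := Ext.none) (P1 := 536870912) (W1 := 536870912) (P2 := 0) (W2 := 1230186008) (P3 := 649613803) (W3 := 48318383) (N0 := 3) (En := eng) (mo := mog) (C1 := cd2q1) (C2 := cd8q3) (C3 := pd2)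
    rfl (fun _ => rfl) k0_pm_123

noncomputable def f_pm_133 : ℕ → ℕ → ℕ → ℕ → Bool := onCell 1610612736 536870912 0 1230186008 649613803 48318383
    (rowB 3 eng mog cd2q1 cd8q3 pd3 2 false true false .dn 1 3 3 (qsf 536870912 536870912 0 1230186008 3) ndB2q1 ndB8q3 pcB3 Cut.none Ext.none)

def k0_pm_133 : ∃ t, chk3 f_pm_133 t 1 1 1 = true :=
  ⟨(b (a (a (b (l 16693616) (l 1)) (l 1)) (l 1)) (l 1)), by decide +kernel⟩

theorem c_pm_133 : CertB 536870912 536870912 0 1230186008 649613803 48318383 3 eng mog cd2q1 cd8q3 pd3 false true false .dn 1 3 3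
    ndB2q1 ndB8q3 pcB3 Cut.none Ext.none :=
  certB2 (fam := false) (s1 := true) (s2 := false) (a := 1) (b := 3) (c := 3) (cn := .dn) (n1 := ndB2q1) (n2 := ndB8q3) (pc := pcB3) (cut := Cut.none) (xt := Ext.none) (P1 := 536870912) (W1 := 536870912) (P2 := 0) (W2 := 1230186008) (P3 := 649613803) (W3 := 48318383) (N0 := 3) (En := eng) (mo := mog) (C1 := cd2q1) (C2 := cd8q3) (C3 := pd3)
    rfl (fun _ => rfl) k0_pm_133

noncomputable def f_pm_202_a : ℕ → ℕ → ℕ → ℕ → Bool := onCell 0 536870912 0 536870912 649613803 48318383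
    (rowB 3 eng mog cd2q2a cd8q2 pd0 1 false true false .pp 2 0 2 (qsf 0 536870912 1073741824 536870912 0) ndB2q2a ndB8q2 pcB0 Cut.none Ext.none)

def k0_pm_202_a : ∃ t, chk3 f_pm_202_a t 1 1 1 = true :=
  ⟨(a (b (b (b (a (b (a (l 16281336) (l 16237760)) (a (l 16333168) (l 16296472))) (b (a (l 16176816) (l 16092984)) (l 16194544))) (a (b (a (l 16385168) (l 16347960)) (l 16418216)) (b (l 16257144) (a (l 16356280) (l 16279800))))) (b (a (a (b (l 16479920) (l 16521440)) (l 16600072)) (a (b (l 16406064) (l 16457440)) (b (l 16342200) (l 16399528)))) (a (b (a (l 16562528) (l 16540360)) (a (l 16598496) (l 16580760))) (b (a (l 16505912) (l 16451072)) (a (l 16552840) (l 16505120)))))) (b (b (a (b (a (l 16629536) (l 16616760)) (a (l 16655248) (l 16646736))) (b (a (l 16592344) (l 16555368)) (a (l 16629304) (l 16598008)))) (b (a (l 16671936) (b (a (l 16652784) (l 16626456)) (l 16803528))) (a (a (l 16695088) (l 16692824)) (b (a (l 16679936) (l 16662472)) (l 16684584)))))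 (b (a (l 2) (b (l 16704200) (l 2))) (l 2)))) (b (b (a (b (a (b (l 16014944) (l 16065128)) (l 4)) (a (b (l 16121840) (l 16184848)) (b (l 4) (l 16107672)))) (l 4)) (a (b (a (l 16285376) (b (l 16170584) (l 16238952))) (a (b (l 16384296) (l 16447632)) (l 16347176))) (b (l 4) (a (l 16309752) (l 4))))) (b (b (a (b (a (l 16503200) (l 16452816)) (a (l 16557232) (l 16519616))) (a (l 16473088) (l 4))) (a (a (b (l 16820736) (l 16837360)) (l 16603352)) (a (l 16606088) (l 16540832)))) (b (a (b (a (l 16770280) (l 16679384)) (a (l 2) (l 16725800))) (b (l 16594968) (l 16694680))) (a (l 2) (a (l 16669264) (l 16708080))))))), by decide +kernel⟩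

theorem c_pm_202_a : CertB 0 536870912 1073741824 536870912 649613803 48318383 3 eng mog cd2q2a cd8q2 pd0 false true false .pp 2 0 2
    ndB2q2a ndB8q2 pcB0 Cut.none Ext.none :=
  certB1 (fam := false) (s1 := true) (s2 := false) (a := 2) (b := 0) (c := 2) (cn := .pp) (n1 := ndB2q2a) (n2 := ndB8q2) (pc := pcB0) (cut := Cut.none) (xt := Ext.none) (P1 := 0) (W1 := 536870912) (P2 := 1073741824) (W2 := 536870912) (P3 := 649613803) (W3 := 48318383) (N0 := 3) (En := eng) (mo := mog) (C1 := cd2q2a) (C2 := cd8q2) (C3 := pd0)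
    rfl (fun _ => rfl) k0_pm_202_a

noncomputable def f_pm_202_b : ℕ → ℕ → ℕ → ℕ → Bool := onCell 0 536870912 1073741824 536870912 649613803 48318383
    (rowB 3 eng mog cd2q2b cd8q2 pd0 2 false true false .pp 2 0 2 (qsf 1239849684 370763052 1073741824 536870912 0) ndB2q2b ndB8q2 pcB0 Cut.none Ext.none)

def k0_pm_202_b : ∃ t, chk3 f_pm_202_b t 1 1 1 = true :=
  ⟨(a (b (a (b (l 1) (a (a (b (l 579853645367) (l 16350864)) (b (l 614213217799) (l 16369424))) (b (l 1) (a (l 538514540807) (l 539051582439))))) (l 1)) (a (b (a (b (l 16586880) (a (l 16334416) (l 16392888))) (b (a (l 16440848) (l 424698319383)) (a (l 16445392) (l 16486512)))) (a (b (l 16232528) (l 16193280)) (b (l 16380632) (l 16299968)))) (b (b (a (a (l 428456445063) (l 446172902487)) (l 1)) (a (a (l 16518816) (l 16543352)) (b (l 442414751479) (l 16579688)))) (a (b (a (l 16477512) (l 16528592)) (l 16401480)) (b (a (l 16575416) (l 463889753111)) (l 16514736)))))) (a (b (l 1) (b (l 1) (a (b (b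 (l 461742187399) (l 16643848)) (b (l 16643200) (l 16616888))) (b (l 1) (a (l 478385499975) (l 437583379639)))))) (l 1))), by decide +kernel⟩

theorem c_pm_202_b : CertB 1239849684 370763052 1073741824 536870912 649613803 48318383 3 eng mog cd2q2b cd8q2 pd0 false true false .pp 2 0 2
    ndB2q2b ndB8q2 pcB0 Cut.none Ext.none :=
  certB2 (fam := false) (s1 := true) (s2 := false) (a := 2) (b := 0) (c := 2) (cn := .pp) (n1 := ndB2q2b) (n2 := ndB8q2) (pc := pcB0) (cut := Cut.none) (xt := Ext.none) (P1 := 1239849684) (W1 := 370763052) (P2 := 1073741824) (W2 := 536870912) (P3 := 649613803) (W3 := 48318383) (N0 := 3) (En := eng) (mo := mog) (C1 := cd2q2b) (C2 := cd8q2) (C3 := pd0)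
    rfl (fun _ => rfl) k0_pm_202_b

noncomputable def f_pm_203_a : ℕ → ℕ → ℕ → ℕ → Bool := onCell 0 536870912 0 1230186008 649613803 48318383
    (rowB 3 eng mog cd2q2a cd8q3 pd0 0 false true false .up 2 0 3 (qsf 0 536870912 0 1230186008 0) ndB2q2a ndB8q3 pcB0 Cut.none Ext.none)

def k0_pm_203_a : ∃ t, chk3 f_pm_203_a t 1 1 1 = true :=
  ⟨(b (l 2) (b (l 2) (a (b (b (l 2) (a (l 81705289399) (l 16793336))) (b (a (b (l 16755048) (l 16740360)) (a (l 16757160) (l 16768480))) (a (b (a (l 16718568) (l 16720520)) (a (l 16697904) (l 16697944))) (b (l 16726176) (a (l 16699552) (b (l 16707144) (l 16691480))))))) (b (l 2) (a (b (a (l 16798288) (l 16787080)) (b (a (l 16746952) (l 16755384)) (a (b (l 16717976) (l 16698168)) (l 16765304)))) (b (a (l 16771952) (l 2)) (a (l 16733480) (b (b (l 2) (l 16723144)) (l 16717376))))))))), by decide +kernel⟩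

theorem c_pm_203_a : CertB 0 536870912 0 1230186008 649613803 48318383 3 eng mog cd2q2a cd8q3 pd0 false true false .up 2 0 3
    ndB2q2a ndB8q3 pcB0 Cut.none Ext.none :=
  certB0 (fam := false) (s1 := true) (s2 := false) (a := 2) (b := 0) (c := 3) (cn := .up) (n1 := ndB2q2a) (n2 := ndB8q3) (pc := pcB0) (cut := Cut.none) (xt := Ext.none) (P1 := 0) (W1 := 536870912) (P2 := 0) (W2 := 1230186008) (P3 := 649613803) (W3 := 48318383) (N0 := 3) (En := eng) (mo := mog) (C1 := cd2q2a) (C2 := cd8q3) (C3 := pd0)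
    rfl k0_pm_203_a

noncomputable def f_pm_203_b : ℕ → ℕ → ℕ → ℕ → Bool := onCell 0 536870912 0 1230186008 649613803 48318383
    (rowB 3 eng mog cd2q2b cd8q3 pd0 2 false true false .up 2 0 3 (qsf 1239849684 370763052 0 1230186008 0) ndB2q2b ndB8q3 pcB0 Cut.none Ext.none)

def k0_pm_203_b : ∃ t, chk3 f_pm_203_b t 1 1 1 = true :=
  ⟨(b (l 3) (b (b (l 3) (a (l 3) (b (a (l 3) (a (l 3) (l 169819271351))) (a (a (l 212231610375) (l 213842333319)) (a (a (l 16707040) (l 16714944)) (a (l 16785416) (b (l 16728072) (l 16725632)))))))) (a (b (a (l 2) (b (a (l 16467680) (l 16537472)) (a (l 16458864) (b (l 16490880) (l 16477384))))) (a (b (a (l 2) (l 16273648)) (a (l 16182048) (l 16285760))) (a (b (l 16372912) (l 16379264)) (b (b (l 16458120) (l 16460208)) (b (l 16457504) (l 16471952)))))) (a (b (b (a (l 16596368) (b (l 16657464) (l 16643664))) (l 16694480)) (a (b (l 16539720) (b (l 16537928) (l 16543424))) (b (l 16589616) (b (l 16648208) (a (l 16656368) (l 16695168))))))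 (b (b (a (b (l 16693000) (l 16687240)) (l 16713912)) (l 16882864)) (b (a (l 16707792) (l 383359868055)) (a (l 404834630455) (l 1)))))))), by decide +kernel⟩

theorem c_pm_203_b : CertB 1239849684 370763052 0 1230186008 649613803 48318383 3 eng mog cd2q2b cd8q3 pd0 false true false .up 2 0 3
    ndB2q2b ndB8q3 pcB0 Cut.none Ext.none :=
  certB2 (fam := false) (s1 := true) (s2 := false) (a := 2) (b := 0) (c := 3) (cn := .up) (n1 := ndB2q2b) (n2 := ndB8q3) (pc := pcB0) (cut := Cut.none) (xt := Ext.none) (P1 := 1239849684) (W1 := 370763052) (P2 := 0) (W2 := 1230186008) (P3 := 649613803) (W3 := 48318383) (N0 := 3) (En := eng) (mo := mog) (C1 := cd2q2b) (C2 := cd8q3) (C3 := pd0)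
    rfl (fun _ => rfl) k0_pm_203_b

noncomputable def cut_pm_213_a : Cut := Cut.of [[⟨0, 1, 0, 67108864⟩, ⟨1, 1, 0, 67108864⟩, ⟨2, 2, 0, 16777216⟩]]

noncomputable def f_pm_213_a : ℕ → ℕ → ℕ → ℕ → Bool := onCell 0 536870912 0 1230186008 649613803 48318383
    (rowB 3 eng mog cd2q2a cd8q3 pd1 0 false true false .pnn 2 1 3 (qsf 0 536870912 0 1230186008 1) ndB2q2a ndB8q3 pcB1 cut_pm_213_a Ext.none)

def k0_pm_213_a : ∃ t, chk3 f_pm_213_a t 1 2 1 = true :=
  ⟨(a (b (l 3) (b (a (l 3) (b (l 3) (a (l 3) (a (b (l 3) (l 326585262215)) (b (l 319069071847) (l 274508847863)))))) (a (b (l 3) (a (l 3) (b (l 3) (a (l 3) (b (l 312089756567) (l 274508876663)))))) (b (a (b (a (l 3) (l 317995326887)) (a (l 3) (l 290614962903))) (a (b (a (l 310479141175) (l 279877542167)) (l 16776032)) (b (l 16775744) (l 16778152)))) (a (b (a (a (l 320142818919) (l 287393750263)) (l 16777320)) (a (a (l 16775760) (l 16773696)) (l 16768216))) (b (a (l 16772192) (l 16772248)) (a (l 16766512)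 (l 16765360)))))))) (b (a (b (l 3) (a (l 3) (b (a (l 3) (b (l 3) (a (l 3) (l 301352346807)))) (a (b (a (l 3) (l 333027725911)) (a (l 317458469335) (l 283098735143))) (b (a (l 286856830935) (l 239075348151)) (l 16798248)))))) (b (a (a (l 3) (l 6)) (l 6)) (a (b (a (b (a (l 3) (l 308331691239)) (a (l 262697644807) (l 16776728))) (a (b (l 237464740903) (l 16778632)) (l 6))) (a (b (a (l 16777968) (l 16778136)) (a (l 16780160) (l 16782808))) (b (l 16802096) (l 16787096)))) (b (a (a (l 6) (l 6)) (l 16782152)) (a (l 16787168) (l 16789808)))))) (a (b (a (b (a (b (l 3) (l 317458484615)) (b (a (l 355576301207) (l 272898185463)) (l 228874830743))) (a (b (a (l 277730020519) (l 16774184)) (l 16778096)) (b (l 16778928) (l 16780232)))) (a (b (b (l 240149115575) (l 16779992)) (l 16843808)) (b (b (l 16781616) (l 16785200)) (l 16786816)))) (a (b (b (a (l 16779328) (l 16778928)) (l 16776160)) (l 16769336)) (b (l 16783216) (l 16780424)))) (b (a (b (a (l 16847616) (l 16791904))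 (l 16794352)) (b (l 16795632) (l 16800232))) (a (b (l 16794920) (l 16790672)) (l 16880088)))))), by decide +kernel⟩

def k1_pm_213_a : ∃ t, chk3 f_pm_213_a t 1 3 1 = true :=
  ⟨(b (a (b (a (b (a (b (l 3) (a (l 3) (b (l 322827180375) (l 297057380327)))) (b (a (a (l 312089759751) (l 262160846887)) (l 226190512583)) (a (a (l 253034030775) (l 16777576)) (l 16770040)))) (a (b (a (b (l 329806504215) (l 291151822983)) (b (l 16796488) (l 16779632))) (a (b (l 257328971239) (l 16780168)) (l 16776296))) (b (a (l 16773584) (l 16774352)) (l 16774504)))) (a (b (b (a (l 16767264) (l 16763456)) (l 16862592)) (b (l 16757296) (l 16752712))) (b (l 16756352) (l 16762032)))) (a (b (a (b (a (b (l 16777936) (l 16778152)) (l 16781424)) (l 16780024)) (b (l 16763800) (l 16757848))) (b (a (l 16767144) (l 16755448)) (l 16867800))) (b (a (l 16758032) (l 16745352)) (l 16891768)))) (b (a (b (a (l 16743800) (l 16774944)) (a (l 16759416) (l 16770168))) (b (a (l 16786344) (l 16793824))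 (a (l 16786072) (l 16780032)))) (a (b (a (l 16747552) (l 16765744)) (l 16763168)) (b (l 16768960) (l 16756640))))) (a (b (a (b (a (l 16762536) (l 16734472)) (a (l 16718968) (l 16723160))) (b (l 16731984) (l 16947744))) (b (a (l 1) (a (l 1) (l 16676808))) (l 1))) (b (a (b (l 16728520) (a (l 16703480) (l 16722168))) (b (l 16590312) (a (l 16738272) (l 16727528)))) (a (b (l 16719152) (l 1)) (b (l 16726112) (a (l 16708184) (l 16718368))))))), by decide +kernel⟩

theorem s2_pm_213_a : ∃ t, chk3 f_pm_213_a t 1 1 1 = true := ex3_b k0_pm_213_a k1_pm_213_a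

theorem c_pm_213_a : CertB 0 536870912 0 1230186008 649613803 48318383 3 eng mog cd2q2a cd8q3 pd1 false true false .pnn 2 1 3
    ndB2q2a ndB8q3 pcB1 cut_pm_213_a Ext.none :=
  certB0 (fam := false) (s1 := true) (s2 := false) (a := 2) (b := 1) (c := 3) (cn := .pnn) (n1 := ndB2q2a) (n2 := ndB8q3) (pc := pcB1) (cut := cut_pm_213_a) (xt := Ext.none) (P1 := 0) (W1 := 536870912) (P2 := 0) (W2 := 1230186008) (P3 := 649613803) (W3 := 48318383) (N0 := 3) (En := eng) (mo := mog) (C1 := cd2q2a) (C2 := cd8q3) (C3 := pd1)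
    rfl s2_pm_213_a

noncomputable def cut_pm_213_b : Cut := Cut.of [[⟨0, 1, 0, 67108864⟩, ⟨1, 1, 0, 67108864⟩, ⟨2, 2, 0, 16777216⟩]]

noncomputable def f_pm_213_b : ℕ → ℕ → ℕ → ℕ → Bool := onCell 1239849684 370763052 0 1230186008 649613803 48318383
    (rowB 3 eng mog cd2q2b cd8q3 pd1 0 false true false .pnn 2 1 3 (qsf 1239849684 370763052 0 1230186008 1) ndB2q2b ndB8q3 pcB1 cut_pm_213_b Ext.none)

def k0_pm_213_b : ∃ t, chk3 f_pm_213_b t 1 1 1 = true :=
  ⟨(b (l 3) (b (a (b (a (b (l 3) (a (b (l 3) (a (a (b (l 244980915399) (l 16774376)) (l 287393704487)) (l 313700385255))) (l 3))) (l 3)) (a (b (b (a (a (l 16773360) (l 16765488)) (b (l 16772616) (l 16752240))) (a (a (l 16786336) (l 16768000)) (l 16800192))) (a (l 16787096) (b (l 16755648) (l 16755320)))) (b (b (l 3) (a (l 16742448) (l 292225628423))) (a (b (l 16744264) (l 16742600)) (l 1))))) (b (l 3) (l 1))) (a (b (a (b (b (l 16779792) (l 16772824)) (l 16746568)) (l 1)) (l 1)) (l 1)))), by decide +kernel⟩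

theorem c_pm_213_b : CertB 1239849684 370763052 0 1230186008 649613803 48318383 3 eng mog cd2q2b cd8q3 pd1 false true false .pnn 2 1 3
    ndB2q2b ndB8q3 pcB1 cut_pm_213_b Ext.none :=
  certB0 (fam := false) (s1 := true) (s2 := false) (a := 2) (b := 1) (c := 3) (cn := .pnn) (n1 := ndB2q2b) (n2 := ndB8q3) (pc := pcB1) (cut := cut_pm_213_b) (xt := Ext.none) (P1 := 1239849684) (W1 := 370763052) (P2 := 0) (W2 := 1230186008) (P3 := 649613803) (W3 := 48318383) (N0 := 3) (En := eng) (mo := mog) (C1 := cd2q2b) (C2 := cd8q3) (C3 := pd1)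
    rfl k0_pm_213_b

noncomputable def f_pm_303 : ℕ → ℕ → ℕ → ℕ → Bool := onCell 0 536870912 0 1230186008 649613803 48318383
    (rowB 3 eng mog cd2q3 cd8q3 pd0 2 false true false .npn 3 0 3 (qsf 1610612736 536870912 0 1230186008 0) ndB2q3 ndB8q3 pcB0 Cut.none Ext.none)

def k0_pm_303 : ∃ t, chk3 f_pm_303 t 1 1 1 = true :=
  ⟨(b (l 3) (b (b (l 3) (a (l 3) (a (b (l 3) (a (l 199346684951) (l 1))) (l 1)))) (a (b (a (b (a (l 130089371943) (l 16325048)) (a (b (l 16175232) (l 16129208)) (b (l 16256008) (l 16217440)))) (b (a (l 16400528) (l 16481472)) (a (l 16438464) (l 1)))) (a (b (a (l 16112280) (l 16213640)) (a (l 16131936) (l 16250768))) (a (b (l 16332568) (l 1)) (l 1)))) (l 1)))), by decide +kernel⟩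

theorem c_pm_303 : CertB 1610612736 536870912 0 1230186008 649613803 48318383 3 eng mog cd2q3 cd8q3 pd0 false true false .npn 3 0 3
    ndB2q3 ndB8q3 pcB0 Cut.none Ext.none :=
  certB2 (fam := false) (s1 := true) (s2 := false) (a := 3) (b := 0) (c := 3) (cn := .npn) (n1 := ndB2q3) (n2 := ndB8q3) (pc := pcB0) (cut := Cut.none) (xt := Ext.none) (P1 := 1610612736) (W1 := 536870912) (P2 := 0) (W2 := 1230186008) (P3 := 649613803) (W3 := 48318383) (N0 := 3) (En := eng) (mo := mog) (C1 := cd2q3) (C2 := cd8q3) (C3 := pd0)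
    rfl (fun _ => rfl) k0_pm_303

noncomputable def f_pm_313 : ℕ → ℕ → ℕ → ℕ → Bool := onCell 1610612736 536870912 0 1230186008 649613803 48318383
    (rowB 3 eng mog cd2q3 cd8q3 pd1 0 false true false .dn 3 1 3 (qsf 1610612736 536870912 0 1230186008 1) ndB2q3 ndB8q3 pcB1 Cut.none Ext.none)

def k0_pm_313 : ∃ t, chk3 f_pm_313 t 1 1 1 = true :=
  ⟨(b (l 3) (l 1)), by decide +kernel⟩

theorem c_pm_313 : CertB 1610612736 536870912 0 1230186008 649613803 48318383 3 eng mog cd2q3 cd8q3 pd1 false true false .dn 3 1 3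
    ndB2q3 ndB8q3 pcB1 Cut.none Ext.none :=
  certB0 (fam := false) (s1 := true) (s2 := false) (a := 3) (b := 1) (c := 3) (cn := .dn) (n1 := ndB2q3) (n2 := ndB8q3) (pc := pcB1) (cut := Cut.none) (xt := Ext.none) (P1 := 1610612736) (W1 := 536870912) (P2 := 0) (W2 := 1230186008) (P3 := 649613803) (W3 := 48318383) (N0 := 3) (En := eng) (mo := mog) (C1 := cd2q3) (C2 := cd8q3) (C3 := pd1)
    rfl k0_pm_313

noncomputable def f_mm_001 : ℕ → ℕ → ℕ → ℕ → Bool := onCell 0 536870912 0 536870912 649613803 48318383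
    (rowB 3 eng mog cd2q0 cd8q1 pd0 1 false false false .up 0 0 1 (qsf 0 536870912 536870912 536870912 0) ndB2q0 ndB8q1 pcB0 Cut.none Ext.none)

def k0_mm_001 : ∃ t, chk3 f_mm_001 t 1 1 1 = true :=
  ⟨(l 3), by decide +kernel⟩

theorem c_mm_001 : CertB 0 536870912 536870912 536870912 649613803 48318383 3 eng mog cd2q0 cd8q1 pd0 false false false .up 0 0 1
    ndB2q0 ndB8q1 pcB0 Cut.none Ext.none :=
  certB1 (fam := false) (s1 := false) (s2 := false) (a := 0) (b := 0) (c := 1) (cn := .up) (n1 := ndB2q0) (n2 := ndB8q1) (pc := pcB0) (cut := Cut.none) (xt := Ext.none) (P1 := 0) (W1 := 536870912) (P2 := 536870912) (W2 := 536870912) (P3 := 649613803) (W3 := 48318383) (N0 := 3) (En := eng) (mo := mog) (C1 := cd2q0) (C2 := cd8q1) (C3 := pd0)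
    rfl (fun _ => rfl) k0_mm_001

noncomputable def f_mm_011 : ℕ → ℕ → ℕ → ℕ → Bool := onCell 0 536870912 536870912 536870912 649613803 48318383
    (rowB 3 eng mog cd2q0 cd8q1 pd1 1 false false false .pnn 0 1 1 (qsf 0 536870912 536870912 536870912 1) ndB2q0 ndB8q1 pcB1 Cut.none Ext.none)

def k0_mm_011 : ∃ t, chk3 f_mm_011 t 1 1 1 = true :=
  ⟨(l 5), by decide +kernel⟩

theorem c_mm_011 : CertB 0 536870912 536870912 536870912 649613803 48318383 3 eng mog cd2q0 cd8q1 pd1 false false false .pnn 0 1 1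
    ndB2q0 ndB8q1 pcB1 Cut.none Ext.none :=
  certB1 (fam := false) (s1 := false) (s2 := false) (a := 0) (b := 1) (c := 1) (cn := .pnn) (n1 := ndB2q0) (n2 := ndB8q1) (pc := pcB1) (cut := Cut.none) (xt := Ext.none) (P1 := 0) (W1 := 536870912) (P2 := 536870912) (W2 := 536870912) (P3 := 649613803) (W3 := 48318383) (N0 := 3) (En := eng) (mo := mog) (C1 := cd2q0) (C2 := cd8q1) (C3 := pd1)
    rfl (fun _ => rfl) k0_mm_011

noncomputable def f_mm_012 : ℕ → ℕ → ℕ → ℕ → Bool := onCell 0 536870912 1073741824 536870912 649613803 48318383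
    (rowB 3 eng mog cd2q0 cd8q2 pd1 0 false false false .pnp 0 1 2 (qsf 0 536870912 1073741824 536870912 1) ndB2q0 ndB8q2 pcB1 Cut.none Ext.none)

def k0_mm_012 : ∃ t, chk3 f_mm_012 t 1 1 1 = true :=
  ⟨(l 5), by decide +kernel⟩

theorem c_mm_012 : CertB 0 536870912 1073741824 536870912 649613803 48318383 3 eng mog cd2q0 cd8q2 pd1 false false false .pnp 0 1 2
    ndB2q0 ndB8q2 pcB1 Cut.none Ext.none :=
  certB0 (fam := false) (s1 := false) (s2 := false) (a := 0) (b := 1) (c := 2) (cn := .pnp) (n1 := ndB2q0) (n2 := ndB8q2) (pc := pcB1) (cut := Cut.none) (xt := Ext.none) (P1 := 0) (W1 := 536870912) (P2 := 1073741824) (W2 := 536870912) (P3 := 649613803) (W3 := 48318383) (N0 := 3) (En := eng) (mo := mog) (C1 := cd2q0) (C2 := cd8q2) (C3 := pd1)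
    rfl k0_mm_012

noncomputable def f_mm_022 : ℕ → ℕ → ℕ → ℕ → Bool := onCell 0 536870912 1073741824 536870912 649613803 48318383
    (rowB 3 eng mog cd2q0 cd8q2 pd2 0 false false false .pp 0 2 2 (qsf 0 536870912 1073741824 536870912 2) ndB2q0 ndB8q2 pcB2 Cut.none Ext.none)

def k0_mm_022 : ∃ t, chk3 f_mm_022 t 1 1 1 = true :=
  ⟨(l 5), by decide +kernel⟩

theorem c_mm_022 : CertB 0 536870912 1073741824 536870912 649613803 48318383 3 eng mog cd2q0 cd8q2 pd2 false false false .pp 0 2 2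
    ndB2q0 ndB8q2 pcB2 Cut.none Ext.none :=
  certB0 (fam := false) (s1 := false) (s2 := false) (a := 0) (b := 2) (c := 2) (cn := .pp) (n1 := ndB2q0) (n2 := ndB8q2) (pc := pcB2) (cut := Cut.none) (xt := Ext.none) (P1 := 0) (W1 := 536870912) (P2 := 1073741824) (W2 := 536870912) (P3 := 649613803) (W3 := 48318383) (N0 := 3) (En := eng) (mo := mog) (C1 := cd2q0) (C2 := cd8q2) (C3 := pd2)
    rfl k0_mm_022

noncomputable def f_mm_023 : ℕ → ℕ → ℕ → ℕ → Bool := onCell 0 536870912 0 1230186008 649613803 48318383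
    (rowB 3 eng mog cd2q0 cd8q3 pd2 0 false false false .up 0 2 3 (qsf 0 536870912 0 1230186008 2) ndB2q0 ndB8q3 pcB2 Cut.none Ext.none)

def k0_mm_023 : ∃ t, chk3 f_mm_023 t 1 1 1 = true :=
  ⟨(l 5), by decide +kernel⟩

theorem c_mm_023 : CertB 0 536870912 0 1230186008 649613803 48318383 3 eng mog cd2q0 cd8q3 pd2 false false false .up 0 2 3
    ndB2q0 ndB8q3 pcB2 Cut.none Ext.none :=
  certB0 (fam := false) (s1 := false) (s2 := false) (a := 0) (b := 2) (c := 3) (cn := .up) (n1 := ndB2q0) (n2 := ndB8q3) (pc := pcB2) (cut := Cut.none) (xt := Ext.none) (P1 := 0) (W1 := 536870912) (P2 := 0) (W2 := 1230186008) (P3 := 649613803) (W3 := 48318383) (N0 := 3) (En := eng) (mo := mog) (C1 := cd2q0) (C2 := cd8q3) (C3 := pd2)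
    rfl k0_mm_023

noncomputable def f_mm_033 : ℕ → ℕ → ℕ → ℕ → Bool := onCell 0 536870912 0 1230186008 649613803 48318383
    (rowB 3 eng mog cd2q0 cd8q3 pd3 0 false false false .pnn 0 3 3 (qsf 0 536870912 0 1230186008 3) ndB2q0 ndB8q3 pcB3 Cut.none Ext.none)

def k0_mm_033 : ∃ t, chk3 f_mm_033 t 1 1 1 = true :=
  ⟨(l 5), by decide +kernel⟩

theorem c_mm_033 : CertB 0 536870912 0 1230186008 649613803 48318383 3 eng mog cd2q0 cd8q3 pd3 false false false .pnn 0 3 3
    ndB2q0 ndB8q3 pcB3 Cut.none Ext.none :=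
  certB0 (fam := false) (s1 := false) (s2 := false) (a := 0) (b := 3) (c := 3) (cn := .pnn) (n1 := ndB2q0) (n2 := ndB8q3) (pc := pcB3) (cut := Cut.none) (xt := Ext.none) (P1 := 0) (W1 := 536870912) (P2 := 0) (W2 := 1230186008) (P3 := 649613803) (W3 := 48318383) (N0 := 3) (En := eng) (mo := mog) (C1 := cd2q0) (C2 := cd8q3) (C3 := pd3)
    rfl k0_mm_033

noncomputable def f_mm_101 : ℕ → ℕ → ℕ → ℕ → Bool := onCell 536870912 536870912 0 536870912 649613803 48318383
    (rowB 3 eng mog cd2q1 cd8q1 pd0 1 false false false .npn 1 0 1 (qsf 536870912 536870912 536870912 536870912 0) ndB2q1 ndB8q1 pcB0 Cut.none Ext.none)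

def k0_mm_101 : ∃ t, chk3 f_mm_101 t 1 1 1 = true :=
  ⟨(l 3), by decide +kernel⟩

theorem c_mm_101 : CertB 536870912 536870912 536870912 536870912 649613803 48318383 3 eng mog cd2q1 cd8q1 pd0 false false false .npn 1 0 1
    ndB2q1 ndB8q1 pcB0 Cut.none Ext.none :=
  certB1 (fam := false) (s1 := false) (s2 := false) (a := 1) (b := 0) (c := 1) (cn := .npn) (n1 := ndB2q1) (n2 := ndB8q1) (pc := pcB0) (cut := Cut.none) (xt := Ext.none) (P1 := 536870912) (W1 := 536870912) (P2 := 536870912) (W2 := 536870912) (P3 := 649613803) (W3 := 48318383) (N0 := 3) (En := eng) (mo := mog) (C1 := cd2q1) (C2 := cd8q1) (C3 := pd0)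
    rfl (fun _ => rfl) k0_mm_101

noncomputable def f_mm_102 : ℕ → ℕ → ℕ → ℕ → Bool := onCell 536870912 536870912 1073741824 536870912 649613803 48318383
    (rowB 3 eng mog cd2q1 cd8q2 pd0 0 false false false .npp 1 0 2 (qsf 536870912 536870912 1073741824 536870912 0) ndB2q1 ndB8q2 pcB0 Cut.none Ext.none)

def k0_mm_102 : ∃ t, chk3 f_mm_102 t 1 1 1 = true :=
  ⟨(l 3), by decide +kernel⟩

theorem c_mm_102 : CertB 536870912 536870912 1073741824 536870912 649613803 48318383 3 eng mog cd2q1 cd8q2 pd0 false false false .npp 1 0 2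
    ndB2q1 ndB8q2 pcB0 Cut.none Ext.none :=
  certB0 (fam := false) (s1 := false) (s2 := false) (a := 1) (b := 0) (c := 2) (cn := .npp) (n1 := ndB2q1) (n2 := ndB8q2) (pc := pcB0) (cut := Cut.none) (xt := Ext.none) (P1 := 536870912) (W1 := 536870912) (P2 := 1073741824) (W2 := 536870912) (P3 := 649613803) (W3 := 48318383) (N0 := 3) (En := eng) (mo := mog) (C1 := cd2q1) (C2 := cd8q2) (C3 := pd0)
    rfl k0_mm_102

noncomputable def f_mm_112 : ℕ → ℕ → ℕ → ℕ → Bool := onCell 536870912 536870912 1073741824 536870912 649613803 48318383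
    (rowB 3 eng mog cd2q1 cd8q2 pd1 0 false false false .dn 1 1 2 (qsf 536870912 536870912 1073741824 536870912 1) ndB2q1 ndB8q2 pcB1 Cut.none Ext.none)

def k0_mm_112 : ∃ t, chk3 f_mm_112 t 1 1 1 = true :=
  ⟨(l 3), by decide +kernel⟩

theorem c_mm_112 : CertB 536870912 536870912 1073741824 536870912 649613803 48318383 3 eng mog cd2q1 cd8q2 pd1 false false false .dn 1 1 2
    ndB2q1 ndB8q2 pcB1 Cut.none Ext.none :=
  certB0 (fam := false) (s1 := false) (s2 := false) (a := 1) (b := 1) (c := 2) (cn := .dn) (n1 := ndB2q1) (n2 := ndB8q2) (pc := pcB1) (cut := Cut.none) (xt := Ext.none) (P1 := 536870912) (W1 := 536870912) (P2 := 1073741824) (W2 := 536870912) (P3 := 649613803) (W3 := 48318383) (N0 := 3) (En := eng) (mo := mog) (C1 := cd2q1) (C2 := cd8q2) (C3 := pd1)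
    rfl k0_mm_112

noncomputable def f_mm_113 : ℕ → ℕ → ℕ → ℕ → Bool := onCell 536870912 536870912 0 1230186008 649613803 48318383
    (rowB 3 eng mog cd2q1 cd8q3 pd1 0 false false false .nn 1 1 3 (qsf 536870912 536870912 0 1230186008 1) ndB2q1 ndB8q3 pcB1 Cut.none Ext.none)

def k0_mm_113 : ∃ t, chk3 f_mm_113 t 1 1 1 = true :=
  ⟨(b (l 5) (b (l 5) (a (l 5) (l 3)))), by decide +kernel⟩

theorem c_mm_113 : CertB 536870912 536870912 0 1230186008 649613803 48318383 3 eng mog cd2q1 cd8q3 pd1 false false false .nn 1 1 3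
    ndB2q1 ndB8q3 pcB1 Cut.none Ext.none :=
  certB0 (fam := false) (s1 := false) (s2 := false) (a := 1) (b := 1) (c := 3) (cn := .nn) (n1 := ndB2q1) (n2 := ndB8q3) (pc := pcB1) (cut := Cut.none) (xt := Ext.none) (P1 := 536870912) (W1 := 536870912) (P2 := 0) (W2 := 1230186008) (P3 := 649613803) (W3 := 48318383) (N0 := 3) (En := eng) (mo := mog) (C1 := cd2q1) (C2 := cd8q3) (C3 := pd1)
    rfl k0_mm_113

noncomputable def f_mm_123 : ℕ → ℕ → ℕ → ℕ → Bool := onCell 1073741824 536870912 0 1230186008 649613803 48318383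
    (rowB 3 eng mog cd2q1 cd8q3 pd2 2 false false false .npn 1 2 3 (qsf 536870912 536870912 0 1230186008 2) ndB2q1 ndB8q3 pcB2 Cut.none Ext.none)

def k0_mm_123 : ∃ t, chk3 f_mm_123 t 1 1 1 = true :=
  ⟨(b (l 5) (l 5)), by decide +kernel⟩

theorem c_mm_123 : CertB 536870912 536870912 0 1230186008 649613803 48318383 3 eng mog cd2q1 cd8q3 pd2 false false false .npn 1 2 3
    ndB2q1 ndB8q3 pcB2 Cut.none Ext.none :=
  certB2 (fam := false) (s1 := false) (s2 := false) (a := 1) (b := 2) (c := 3) (cn := .npn) (n1 := ndB2q1) (n2 := ndB8q3) (pc := pcB2) (cut := Cut.none) (xt := Ext.none) (P1 := 536870912) (W1 := 536870912) (P2 := 0) (W2 := 1230186008) (P3 := 649613803) (W3 := 48318383) (N0 := 3) (En := eng) (mo := mog) (C1 := cd2q1) (C2 := cd8q3) (C3 := pd2)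
    rfl (fun _ => rfl) k0_mm_123

noncomputable def f_mm_133 : ℕ → ℕ → ℕ → ℕ → Bool := onCell 536870912 536870912 0 1230186008 649613803 48318383
    (rowB 3 eng mog cd2q1 cd8q3 pd3 0 false false false .dn 1 3 3 (qsf 536870912 536870912 0 1230186008 3) ndB2q1 ndB8q3 pcB3 Cut.none Ext.none)

def k0_mm_133 : ∃ t, chk3 f_mm_133 t 1 1 1 = true :=
  ⟨(b (l 5) (l 1)), by decide +kernel⟩

theorem c_mm_133 : CertB 536870912 536870912 0 1230186008 649613803 48318383 3 eng mog cd2q1 cd8q3 pd3 false false false .dn 1 3 3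
    ndB2q1 ndB8q3 pcB3 Cut.none Ext.none :=
  certB0 (fam := false) (s1 := false) (s2 := false) (a := 1) (b := 3) (c := 3) (cn := .dn) (n1 := ndB2q1) (n2 := ndB8q3) (pc := pcB3) (cut := Cut.none) (xt := Ext.none) (P1 := 536870912) (W1 := 536870912) (P2 := 0) (W2 := 1230186008) (P3 := 649613803) (W3 := 48318383) (N0 := 3) (En := eng) (mo := mog) (C1 := cd2q1) (C2 := cd8q3) (C3 := pd3)
    rfl k0_mm_133

noncomputable def cut_mm_202_a : Cut := Cut.of [[⟨0, 1, 0, 67108864⟩, ⟨1, 0, 0, 67108864⟩, ⟨2, 1, 0, 67108864⟩]]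

noncomputable def f_mm_202_a : ℕ → ℕ → ℕ → ℕ → Bool := onCell 0 536870912 0 536870912 649613803 48318383
    (rowB 3 eng mog cd2q2a cd8q2 pd0 1 false false false .pp 2 0 2 (qsf 0 536870912 1073741824 536870912 0) ndB2q2a ndB8q2 pcB0 cut_mm_202_a Ext.none)

def k0_mm_202_a : ∃ t, chk3 f_mm_202_a t 4 1 1 = true :=
  ⟨(b (b (b (b (a (l 16417448) (l 16452704)) (a (l 16456256) (l 16469408))) (b (a (l 16492560) (l 16503768)) (a (l 16525224) (a (l 16531600) (l 16513264))))) (b (b (a (l 16549392) (b (l 16595128) (a (l 16565512) (l 16571704)))) (a (l 16564424) (b (l 16577824) (l 16592888)))) (b (a (a (l 16601864) (l 16600920)) (b (l 16609952) (l 16621784))) (a (b (l 16622416) (l 16635072)) (a (l 16650552) (b (l 16636392) (l 16648952))))))) (b (b (a (b (a (l 16648936) (l 16666904)) (a (l 16668624) (l 16673656))) (b (a (b (l 16651320) (l 16662432)) (l 16665680)) (a (b (l 16677888) (l 16694744)) (b (a (l 16688440) (l 16695744)) (a (l 16705264) (l 16712696))))))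 (b (a (a (l 16693504) (b (l 16696496) (l 16711776))) (a (b (a (l 16707416) (l 16714416)) (b (l 16722568) (l 16730008))) (b (a (l 16721448) (l 160692138183)) (a (l 195051888775) (l 226727231095))))) (b (a (a (l 16711400) (l 218070200103)) (a (b (l 16737160) (l 2)) (a (l 233169737367) (l 3)))) (l 2)))) (l 2))), by decide +kernel⟩

def k1_mm_202_a : ∃ t, chk3 f_mm_202_a t 5 2 1 = true :=
  ⟨(b (b (a (b (b (l 16441632) (l 16461152)) (l 16488552)) (b (l 16609488) (l 16583816))) (b (a (l 16522096) (b (a (l 16536512) (b (l 16552080) (l 16560024))) (a (b (l 16548088) (l 16555952)) (b (l 16568184) (l 16575912))))) (a (b (a (l 16535904) (b (l 16546944) (l 16554760))) (a (l 16552976) (l 16565280))) (b (a (l 16567400) (b (l 16583504) (l 16590936))) (a (b (l 16578032) (l 16585048)) (l 16602336)))))) (b (a (b (b (a (l 16566712) (l 16579184)) (a (l 16580448) (l 16595032))) (a (b (l 16596000) (l 16609736)) (b (l 16609352) (l 16623288)))) (b (a (b (l 16597040) (l 16611808))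 (b (a (l 16611536) (l 16622448)) (a (l 16626728) (l 16638464)))) (a (b (l 16647592) (l 16642232)) (b (l 16648352) (a (l 16657288) (b (l 16665048) (l 16672128))))))) (a (b (a (b (l 16622968) (l 16635936)) (b (l 16638088) (l 16650488))) (a (b (l 16648120) (l 16658752)) (b (a (l 16657648) (l 16715880)) (a (l 16668648) (l 16679488))))) (b (a (b (l 16655760) (a (l 16663648) (b (l 16670192) (l 16676592)))) (b (a (b (l 16667856) (l 16674616)) (b (l 16679456) (l 16685704))) (a (l 16715904) (b (l 16691832) (l 178945653015))))) (a (b (a (l 16675040) (b (l 16682120) (l 16689968))) (a (l 16690976) (b (l 16719792) (l 226727200183)))) (b (a (b (l 16694192) (l 221358448663)) (b (l 238001447639) (l 3))) (a (l 277193041815) (l 3)))))))), by decide +kernel⟩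

def k2_mm_202_a : ∃ t, chk3 f_mm_202_a t 5 3 1 = true :=
  ⟨(b (b (a (b (a (b (a (l 16667968) (l 16675832)) (a (l 16685784) (l 16693704))) (b (a (l 16686224) (b (l 16692872) (l 16701776))) (a (l 169818826615) (b (l 159081484119) (l 218137247335))))) (a (b (a (l 16703304) (l 113984345447)) (a (l 145659740183) (b (l 177871986791) (l 226727207543)))) (b (a (b (l 166060815959) (l 221895356247)) (l 3)) (l 3)))) (b (a (b (a (b (a (l 16701408) (l 171966370359)) (l 217063487783)) (l 251960118807)) (l 3)) (l 3)) (l 3))) (a (b (a (b (a (l 219211022999) (l 3)) (l 3)) (l 3)) (l 3)) (l 3))) (l 3)), by decide +kernel⟩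

def k3_mm_202_a : ∃ t, chk3 f_mm_202_a t 6 4 1 = true :=
  ⟨(b (b (a (b (l 16518496) (l 16538728)) (b (a (l 16561376) (l 16616144)) (a (l 16582256) (l 16637592)))) (a (b (l 16557832) (a (l 16552176) (b (l 16564416) (a (l 16586616) (l 16600936))))) (b (a (b (l 16597184) (b (l 16605016) (l 16609472))) (b (a (l 16623712) (l 16641336)) (a (l 16626768) (l 16650912)))) (a (b (a (l 16607568) (l 16623864)) (a (l 16616256) (l 16632616))) (b (a (l 16641672) (b (l 16656760) (l 16661048))) (a (l 16649640) (l 16667680))))))) (a (b (b (a (b (l 16784872) (l 16583496)) (b (l 16602192) (a (l 16603312) (l 16617752)))) (a (b (l 16591528) (l 16599352)) (b (l 16618672) (l 16626680)))) (a (b (b (l 16607304) (l 16614760)) (b (l 16622104) (l 16629136))) (b (a (l 16631072) (b (l 16641784) (l 16649496))) (a (l 16646024) (l 16660744))))) (b (a (b (b (a (l 16624800) (l 16641000)) (a (l 16633104) (l 16649480))) (a (b (l 16641360) (l 16649432)) (b (l 16657800) (l 16686896)))) (b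 (b (a (l 16658312) (a (l 16671784) (l 16680984))) (a (l 16603928) (l 16684792))) (a (a (l 16674808) (l 16683704)) (b (l 16693280) (l 16722520))))) (a (b (a (l 16661304) (l 16677824)) (b (a (l 16672632) (l 16710336)) (a (l 16701096) (a (l 16692672) (l 16701592))))) (b (a (b (l 16691400) (l 16720272)) (b (a (l 16704944) (l 16714192)) (a (l 16712896) (l 16737872)))) (a (b (a (l 16702656) (l 16711736)) (b (l 123648001799) (l 128479845543))) (b (a (l 117205555015) (l 254644490327)) (l 250886400839)))))))), by decide +kernel⟩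

def k4_mm_202_a : ∃ t, chk3 f_mm_202_a t 14 8 1 = true :=
  ⟨(b (b (a (b (l 16627488) (l 16638848)) (b (a (l 16657480) (l 6)) (a (l 16669176) (l 16717216)))) (a (b (l 16670880) (a (l 16651296) (b (l 16668760) (l 16672848)))) (a (b (b (l 16677736) (l 16704440)) (b (a (l 16682944) (l 16692816)) (l 16714000))) (b (b (a (l 16694080) (l 6)) (a (l 16698272) (l 16709312))) (b (a (l 16703488) (l 16691968)) (a (l 16707280) (l 16739216))))))) (a (b (b (a (b (l 16657584) (l 16662272)) (b (l 16678312) (l 16640072))) (a (b (l 16666864) (l 16671104)) (b (l 16665464) (l 16691016)))) (b (a (l 16677856) (a (l 16692856) (l 16702640))) (a (b (l 16663592) (l 16667856)) (a (l 16701464) (l 16711536))))) (b (a (b (b (a (l 16692016) (l 16701872)) (l 16680504)) (a (b (l 16701088) (l 16705608)) (b (l 16689920) (l 16715320)))) (b (a (b (l 16711952) (l 16695424)) (b (l 16722128) (l 16705672))) (a (b (l 16699888) (l 16725384)) (b (l 16731368) (l 16746192))))) (a (a (b (l 16712200)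 (l 16742296)) (b (l 16743296) (b (l 16728688) (l 16732864)))) (b (a (b (l 16751032) (l 16744824)) (b (a (l 16737336) (l 16742360)) (l 16751864))) (a (b (l 16738376) (l 16752928)) (b (b (l 60834143879) (l 71571566375)) (l 193978120791)))))))), by decide +kernel⟩

def k5_mm_202_a : ∃ t, chk3 f_mm_202_a t 15 8 1 = true :=
  ⟨(b (a (b (l 6) (a (b (l 6) (b (a (l 16745144) (l 6)) (a (b (l 16706056) (l 16708184)) (l 16738800)))) (l 6))) (l 6)) (a (b (a (b (a (b (l 16732624) (l 16747840)) (a (b (l 16740880) (l 16752904)) (b (l 16756560) (l 16750200)))) (a (a (b (l 16738968) (l 16743208)) (b (l 16744040) (l 16748256))) (b (a (l 16749224) (l 75329661943)) (a (l 73719055063) (l 3))))) (b (a (b (a (b (l 16750064) (l 16752192)) (l 6)) (a (c (l 77477154263) (l 74255928631)) (l 199346846359))) (b (l 6) (l 3))) (a (b (a (l 201494327927) (l 3)) (l 3)) (l 3)))) (a (b (a (b (a (l 16747336) (l 72645311239)) (l 191293769783)) (l 3)) (l 3)) (l 3))) (l 3))), by decide +kernel⟩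

def k6_mm_202_a : ∃ t, chk3 f_mm_202_a t 7 9 1 = true :=
  ⟨(a (b (a (b (a (b (l 16695248) (l 16725016)) (b (a (l 16710288) (l 16741304)) (a (l 16739776) (c (l 16749432) (l 16749312))))) (a (b (b (l 16731280) (l 16735328)) (b (l 16739344) (l 16743352))) (b (a (l 16726912) (l 106468150311)) (a (l 110226240775) (l 3))))) (b (a (b (a (a (l 16727248) (l 16731976)) (b (l 16737000) (l 16751480))) (a (b (l 16735712) (l 16750168)) (b (l 82308978583) (l 3)))) (b (a (b (a (l 16744072) (l 3)) (l 3)) (l 3)) (l 3))) (a (b (a (l 215452944583) (l 3)) (l 3)) (l 3)))) (a (b (a (b (a (l 16723568) (l 116131830087)) (a (l 219211017319) (l 3))) (l 3)) (l 3)) (l 3))) (l 3)), by decide +kernel⟩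

def k7_mm_202_a : ∃ t, chk3 f_mm_202_a t 3 5 1 = true :=
  ⟨(a (b (a (b (a (b (a (l 16634576) (l 16668784)) (l 16656880)) (b (b (l 16664816) (a (l 16665392) (l 16680184))) (a (b (l 16673240) (l 16702296)) (a (b (l 16684448) (l 16692456)) (l 16727728))))) (a (b (a (b (l 16662080) (l 16669608)) (b (l 16675024) (a (l 16679496) (l 16686136)))) (a (b (l 16698200) (l 16684520)) (b (l 16690032) (l 16717936)))) (b (a (b (l 16689216) (l 16717536)) (b (l 179482532471) (l 238001455671))) (a (b (l 175724445479) (l 259476291879)) (l 3))))) (b (a (b (a (b (a (l 16683912) (l 16692280)) (l 16701664)) (b (a (l 16700976) (l 16730824)) (a (l 16730152) (l 238001467783)))) (a (b (a (l 16700336) (b (l 16706640) (l 16710632))) (c (l 217600362775) (l 185925005719))) (b (l 256255086311) (l 3)))) (b (a (b (l 249812638647) (l 3)) (l 3)) (l 3))) (a (b (a (b (l 260550051447) (l 3)) (l 3)) (l 3)) (l 3)))) (a (b (a (b (a (a (l 16712120) (l 154786479287)) (b (l 139217233367) (l 233169617911)))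 (a (b (l 154249612983) (l 241222684839)) (l 3))) (l 3)) (l 3)) (l 3))) (l 3)), by decide +kernel⟩

def k8_mm_202_a : ∃ t, chk3 f_mm_202_a t 3 3 1 = true :=
  ⟨(l 3), by decide +kernel⟩

theorem s9_mm_202_a : ∃ t, chk3 f_mm_202_a t 7 8 1 = true := ex3_a k4_mm_202_a k5_mm_202_a

theorem s10_mm_202_a : ∃ t, chk3 f_mm_202_a t 7 4 1 = true := ex3_b s9_mm_202_a k6_mm_202_a

theorem s11_mm_202_a : ∃ t, chk3 f_mm_202_a t 3 4 1 = true := ex3_a k3_mm_202_a s10_mm_202_a

theorem s12_mm_202_a : ∃ t, chk3 f_mm_202_a t 3 2 1 = true := ex3_b s11_mm_202_a k7_mm_202_a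

theorem s13_mm_202_a : ∃ t, chk3 f_mm_202_a t 3 1 1 = true := ex3_b s12_mm_202_a k8_mm_202_a

theorem s14_mm_202_a : ∃ t, chk3 f_mm_202_a t 5 1 1 = true := ex3_b k1_mm_202_a k2_mm_202_a

theorem s15_mm_202_a : ∃ t, chk3 f_mm_202_a t 2 1 1 = true := ex3_a k0_mm_202_a s14_mm_202_a

theorem s16_mm_202_a : ∃ t, chk3 f_mm_202_a t 1 1 1 = true := ex3_a s15_mm_202_a s13_mm_202_a

theorem c_mm_202_a : CertB 0 536870912 1073741824 536870912 649613803 48318383 3 eng mog cd2q2a cd8q2 pd0 false false false .pp 2 0 2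
    ndB2q2a ndB8q2 pcB0 cut_mm_202_a Ext.none :=
  certB1 (fam := false) (s1 := false) (s2 := false) (a := 2) (b := 0) (c := 2) (cn := .pp) (n1 := ndB2q2a) (n2 := ndB8q2) (pc := pcB0) (cut := cut_mm_202_a) (xt := Ext.none) (P1 := 0) (W1 := 536870912) (P2 := 1073741824) (W2 := 536870912) (P3 := 649613803) (W3 := 48318383) (N0 := 3) (En := eng) (mo := mog) (C1 := cd2q2a) (C2 := cd8q2) (C3 := pd0)
    rfl (fun _ => rfl) s16_mm_202_a

noncomputable def cut_mm_202_b : Cut := Cut.of [[⟨0, 1, 0, 67108864⟩, ⟨1, 0, 0, 67108864⟩, ⟨2, 1, 0, 67108864⟩]]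

noncomputable def f_mm_202_b : ℕ → ℕ → ℕ → ℕ → Bool := onCell 0 536870912 1073741824 536870912 649613803 48318383
    (rowB 3 eng mog cd2q2b cd8q2 pd0 2 false false false .pp 2 0 2 (qsf 1239849684 370763052 1073741824 536870912 0) ndB2q2b ndB8q2 pcB0 cut_mm_202_b Ext.none)

def k0_mm_202_b : ∃ t, chk3 f_mm_202_b t 1 1 1 = true :=
  ⟨(a (b (a (b (l 1) (a (b (a (l 16420032) (l 16481664)) (a (l 16371120) (l 16435272))) (b (l 1) (a (l 16562944) (l 16562016))))) (l 1)) (b (a (a (b (a (l 16295144) (l 16365424)) (l 16346384)) (b (a (l 16432288) (l 16501288)) (l 16358040))) (a (b (l 210486424919) (b (a (l 16500664) (l 16572704)) (a (l 16431904) (l 16517168)))) (b (l 1) (a (l 16581848) (l 279206117399))))) (a (b (a (l 16094904) (a (l 16256408) (a (l 16291368) (l 16436832)))) (a (a (l 15996872) (l 16262952)) (a (b (l 16146480) (l 16119032)) (b (l 16193464) (l 16325312))))) (a (b (b (a (l 16368512) (l 16443800)) (a (l 16323376) (l 16404832))) (b (a (l 16293072)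 (l 16371072)) (b (l 16309968) (l 16293888)))) (b (b (a (l 16533960) (l 16621152)) (a (l 16481280) (l 16551896))) (b (l 16483464) (l 16472328))))))) (a (b (l 1) (b (l 1) (b (a (b (l 316250285959) (l 16686856)) (l 1)) (a (b (l 16619000) (l 16611376)) (b (l 339335878471) (a (l 16687976) (l 292091250823))))))) (l 1))), by decide +kernel⟩

theorem c_mm_202_b : CertB 1239849684 370763052 1073741824 536870912 649613803 48318383 3 eng mog cd2q2b cd8q2 pd0 false false false .pp 2 0 2
    ndB2q2b ndB8q2 pcB0 cut_mm_202_b Ext.none :=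
  certB2 (fam := false) (s1 := false) (s2 := false) (a := 2) (b := 0) (c := 2) (cn := .pp) (n1 := ndB2q2b) (n2 := ndB8q2) (pc := pcB0) (cut := cut_mm_202_b) (xt := Ext.none) (P1 := 1239849684) (W1 := 370763052) (P2 := 1073741824) (W2 := 536870912) (P3 := 649613803) (W3 := 48318383) (N0 := 3) (En := eng) (mo := mog) (C1 := cd2q2b) (C2 := cd8q2) (C3 := pd0)
    rfl (fun _ => rfl) k0_mm_202_b

noncomputable def f_mm_203_a : ℕ → ℕ → ℕ → ℕ → Bool := onCell 0 536870912 0 1230186008 649613803 48318383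
    (rowB 3 eng mog cd2q2a cd8q3 pd0 0 false false false .up 2 0 3 (qsf 0 536870912 0 1230186008 0) ndB2q2a ndB8q3 pcB0 Cut.none Ext.none)

def k0_mm_203_a : ∃ t, chk3 f_mm_203_a t 1 1 1 = true :=
  ⟨(b (l 2) (b (l 2) (b (l 3) (a (a (b (a (b (l 3) (a (b (a (l 306184176471) (l 3)) (a (b (l 258939522055) (l 16756024)) (l 298667979367))) (l 3))) (l 3)) (b (a (a (b (b (l 191293816855) (l 16749296)) (a (l 16739184) (l 16744896))) (b (a (l 293299244071) (l 3)) (b (l 249812702167) (l 217600487623)))) (l 3)) (a (b (a (a (l 16725800) (l 16731376)) (a (l 16740296) (l 192367553543))) (a (l 16713648) (a (l 16725288) (l 16733728)))) (a (b (b (l 268066328695) (l 234780340679)) (b (l 221358574919) (l 197199378935))) (l 3))))) (l 3)) (l 3))))), by decide +kernel⟩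

theorem c_mm_203_a : CertB 0 536870912 0 1230186008 649613803 48318383 3 eng mog cd2q2a cd8q3 pd0 false false false .up 2 0 3
    ndB2q2a ndB8q3 pcB0 Cut.none Ext.none :=
  certB0 (fam := false) (s1 := false) (s2 := false) (a := 2) (b := 0) (c := 3) (cn := .up) (n1 := ndB2q2a) (n2 := ndB8q3) (pc := pcB0) (cut := Cut.none) (xt := Ext.none) (P1 := 0) (W1 := 536870912) (P2 := 0) (W2 := 1230186008) (P3 := 649613803) (W3 := 48318383) (N0 := 3) (En := eng) (mo := mog) (C1 := cd2q2a) (C2 := cd8q3) (C3 := pd0)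
    rfl k0_mm_203_a

noncomputable def f_mm_203_b : ℕ → ℕ → ℕ → ℕ → Bool := onCell 1239849684 370763052 0 1230186008 649613803 48318383
    (rowB 3 eng mog cd2q2b cd8q3 pd0 0 false false false .up 2 0 3 (qsf 1239849684 370763052 0 1230186008 0) ndB2q2b ndB8q3 pcB0 Cut.none Ext.none)

def k0_mm_203_b : ∃ t, chk3 f_mm_203_b t 1 1 1 = true :=
  ⟨(b (l 3) (b (l 3) (b (l 3) (b (a (b (l 3) (a (a (b (a (b (l 3) (a (l 302426072871) (l 16738968))) (l 3)) (a (l 16780192) (l 16725952))) (b (l 3) (a (l 16670016) (l 16633152)))) (l 3))) (l 3)) (a (a (b (a (b (a (l 16726408) (l 16692816)) (a (l 16714536) (l 16679560))) (b (a (l 16656200) (l 16617136)) (l 16662560))) (a (l 16696576) (b (l 16602376) (l 16583264)))) (b (a (b (l 16637928) (l 16554192)) (a (l 16539568) (l 69423724903))) (a (b (l 16511464) (l 16489344)) (a (l 16594632) (l 16440768))))) (a (b (a (b (l 3) (l 16344960)) (l 16305232)) (a (b (l 16316640) (l 16290448)) (b (l 16215176) (l 16254040)))) (b (a (l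 16166992) (l 16076072)) (a (b (l 16120256) (a (l 16113544) (l 16064504))) (b (l 16106272) (l 15993848)))))))))), by decide +kernel⟩

theorem c_mm_203_b : CertB 1239849684 370763052 0 1230186008 649613803 48318383 3 eng mog cd2q2b cd8q3 pd0 false false false .up 2 0 3
    ndB2q2b ndB8q3 pcB0 Cut.none Ext.none :=
  certB0 (fam := false) (s1 := false) (s2 := false) (a := 2) (b := 0) (c := 3) (cn := .up) (n1 := ndB2q2b) (n2 := ndB8q3) (pc := pcB0) (cut := Cut.none) (xt := Ext.none) (P1 := 1239849684) (W1 := 370763052) (P2 := 0) (W2 := 1230186008) (P3 := 649613803) (W3 := 48318383) (N0 := 3) (En := eng) (mo := mog) (C1 := cd2q2b) (C2 := cd8q3) (C3 := pd0)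
    rfl k0_mm_203_b

noncomputable def f_mm_213_a : ℕ → ℕ → ℕ → ℕ → Bool := onCell 0 536870912 0 1230186008 649613803 48318383
    (rowB 3 eng mog cd2q2a cd8q3 pd1 0 false false false .pnn 2 1 3 (qsf 0 536870912 0 1230186008 1) ndB2q2a ndB8q3 pcB1 Cut.none Ext.none)

def k0_mm_213_a : ∃ t, chk3 f_mm_213_a t 1 1 1 = true :=
  ⟨(b (a (l 3) (b (l 5) (l 3))) (a (b (l 3) (a (b (l 3) (l 1)) (l 3))) (l 3))), by decide +kernel⟩

theorem c_mm_213_a : CertB 0 536870912 0 1230186008 649613803 48318383 3 eng mog cd2q2a cd8q3 pd1 false false false .pnn 2 1 3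
    ndB2q2a ndB8q3 pcB1 Cut.none Ext.none :=
  certB0 (fam := false) (s1 := false) (s2 := false) (a := 2) (b := 1) (c := 3) (cn := .pnn) (n1 := ndB2q2a) (n2 := ndB8q3) (pc := pcB1) (cut := Cut.none) (xt := Ext.none) (P1 := 0) (W1 := 536870912) (P2 := 0) (W2 := 1230186008) (P3 := 649613803) (W3 := 48318383) (N0 := 3) (En := eng) (mo := mog) (C1 := cd2q2a) (C2 := cd8q3) (C3 := pd1)
    rfl k0_mm_213_a

noncomputable def f_mm_213_b : ℕ → ℕ → ℕ → ℕ → Bool := onCell 1239849684 370763052 0 1230186008 649613803 48318383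
    (rowB 3 eng mog cd2q2b cd8q3 pd1 0 false false false .pnn 2 1 3 (qsf 1239849684 370763052 0 1230186008 1) ndB2q2b ndB8q3 pcB1 Cut.none Ext.none)

def k0_mm_213_b : ∃ t, chk3 f_mm_213_b t 1 1 1 = true :=
  ⟨(b (l 3) (b (l 3) (b (l 3) (l 1)))), by decide +kernel⟩

theorem c_mm_213_b : CertB 1239849684 370763052 0 1230186008 649613803 48318383 3 eng mog cd2q2b cd8q3 pd1 false false false .pnn 2 1 3
    ndB2q2b ndB8q3 pcB1 Cut.none Ext.none :=
  certB0 (fam := false) (s1 := false) (s2 := false) (a := 2) (b := 1) (c := 3) (cn := .pnn) (n1 := ndB2q2b) (n2 := ndB8q3) (pc := pcB1) (cut := Cut.none) (xt := Ext.none) (P1 := 1239849684) (W1 := 370763052) (P2 := 0) (W2 := 1230186008) (P3 := 649613803) (W3 := 48318383) (N0 := 3) (En := eng) (mo := mog) (C1 := cd2q2b) (C2 := cd8q3) (C3 := pd1)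
    rfl k0_mm_213_b

noncomputable def f_mm_303 : ℕ → ℕ → ℕ → ℕ → Bool := onCell 0 536870912 0 1230186008 649613803 48318383
    (rowB 3 eng mog cd2q3 cd8q3 pd0 2 false false false .npn 3 0 3 (qsf 1610612736 536870912 0 1230186008 0) ndB2q3 ndB8q3 pcB0 Cut.none Ext.none)

def k0_mm_303 : ∃ t, chk3 f_mm_303 t 1 1 1 = true :=
  ⟨(b (l 3) (b (l 3) (b (l 3) (a (b (l 3) (a (a (b (a (l 16012520) (l 16072656)) (a (l 16001480) (l 16067272))) (b (l 16161840) (l 1))) (l 1))) (l 1))))), by decide +kernel⟩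

theorem c_mm_303 : CertB 1610612736 536870912 0 1230186008 649613803 48318383 3 eng mog cd2q3 cd8q3 pd0 false false false .npn 3 0 3
    ndB2q3 ndB8q3 pcB0 Cut.none Ext.none :=
  certB2 (fam := false) (s1 := false) (s2 := false) (a := 3) (b := 0) (c := 3) (cn := .npn) (n1 := ndB2q3) (n2 := ndB8q3) (pc := pcB0) (cut := Cut.none) (xt := Ext.none) (P1 := 1610612736) (W1 := 536870912) (P2 := 0) (W2 := 1230186008) (P3 := 649613803) (W3 := 48318383) (N0 := 3) (En := eng) (mo := mog) (C1 := cd2q3) (C2 := cd8q3) (C3 := pd0)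
    rfl (fun _ => rfl) k0_mm_303

noncomputable def f_mm_313 : ℕ → ℕ → ℕ → ℕ → Bool := onCell 1610612736 536870912 0 1230186008 649613803 48318383
    (rowB 3 eng mog cd2q3 cd8q3 pd1 0 false false false .dn 3 1 3 (qsf 1610612736 536870912 0 1230186008 1) ndB2q3 ndB8q3 pcB1 Cut.none Ext.none)

def k0_mm_313 : ∃ t, chk3 f_mm_313 t 1 1 1 = true :=
  ⟨(b (l 3) (l 1)), by decide +kernel⟩

theorem c_mm_313 : CertB 1610612736 536870912 0 1230186008 649613803 48318383 3 eng mog cd2q3 cd8q3 pd1 false false false .dn 3 1 3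
    ndB2q3 ndB8q3 pcB1 Cut.none Ext.none :=
  certB0 (fam := false) (s1 := false) (s2 := false) (a := 3) (b := 1) (c := 3) (cn := .dn) (n1 := ndB2q3) (n2 := ndB8q3) (pc := pcB1) (cut := Cut.none) (xt := Ext.none) (P1 := 1610612736) (W1 := 536870912) (P2 := 0) (W2 := 1230186008) (P3 := 649613803) (W3 := 48318383) (N0 := 3) (En := eng) (mo := mog) (C1 := cd2q3) (C2 := cd8q3) (C3 := pd1)
    rfl k0_mm_313

end Pool.Agent.Strip051.G.I6050_6500.Tab.C.BB28

namespace Pool.Agent.Strip051.G.I6050_6500.Tab.C.BB30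

open Pool.Agent.Strip051.PB Pool.Agent.Strip051.PB.T
open Pool.Agent.Strip051.G.I6050_6500.Tab

noncomputable def f_pp_001 : ℕ → ℕ → ℕ → ℕ → Bool := onCell 0 536870912 0 536870912 649613803 48318383
    (rowB 3 eng mog cd3q0 cd0q1 pd0 1 false true true .up 0 0 1 (qsf 0 536870912 536870912 536870912 0) ndB3q0 ndB0q1 pcB0 Cut.none Ext.none)

def k0_pp_001 : ∃ t, chk3 f_pp_001 t 1 1 1 = true :=
  ⟨(l 3), by decide +kernel⟩

theorem c_pp_001 : CertB 0 536870912 536870912 536870912 649613803 48318383 3 eng mog cd3q0 cd0q1 pd0 false true true .up 0 0 1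
    ndB3q0 ndB0q1 pcB0 Cut.none Ext.none :=
  certB1 (fam := false) (s1 := true) (s2 := true) (a := 0) (b := 0) (c := 1) (cn := .up) (n1 := ndB3q0) (n2 := ndB0q1) (pc := pcB0) (cut := Cut.none) (xt := Ext.none) (P1 := 0) (W1 := 536870912) (P2 := 536870912) (W2 := 536870912) (P3 := 649613803) (W3 := 48318383) (N0 := 3) (En := eng) (mo := mog) (C1 := cd3q0) (C2 := cd0q1) (C3 := pd0)
    rfl (fun _ => rfl) k0_pp_001

noncomputable def cut_pp_011 : Cut := Cut.of [[⟨0, 0, 0, 67108864⟩, ⟨1, 1, 0, 67108864⟩, ⟨2, 1, 0, 67108864⟩]]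

noncomputable def f_pp_011 : ℕ → ℕ → ℕ → ℕ → Bool := onCell 0 536870912 536870912 536870912 649613803 48318383
    (rowB 3 eng mog cd3q0 cd0q1 pd1 0 false true true .pnn 0 1 1 (qsf 0 536870912 536870912 536870912 1) ndB3q0 ndB0q1 pcB1 cut_pp_011 Ext.none)

def k0_pp_011 : ∃ t, chk3 f_pp_011 t 1 1 1 = true :=
  ⟨(a (b (l 3) (b (l 3) (a (b (l 3) (a (b (l 3) (b (l 3) (a (l 6) (l 3)))) (l 3))) (l 3)))) (l 3)), by decide +kernel⟩

theorem c_pp_011 : CertB 0 536870912 536870912 536870912 649613803 48318383 3 eng mog cd3q0 cd0q1 pd1 false true true .pnn 0 1 1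
    ndB3q0 ndB0q1 pcB1 cut_pp_011 Ext.none :=
  certB0 (fam := false) (s1 := true) (s2 := true) (a := 0) (b := 1) (c := 1) (cn := .pnn) (n1 := ndB3q0) (n2 := ndB0q1) (pc := pcB1) (cut := cut_pp_011) (xt := Ext.none) (P1 := 0) (W1 := 536870912) (P2 := 536870912) (W2 := 536870912) (P3 := 649613803) (W3 := 48318383) (N0 := 3) (En := eng) (mo := mog) (C1 := cd3q0) (C2 := cd0q1) (C3 := pd1)
    rfl k0_pp_011

noncomputable def cut_pp_012 : Cut := Cut.of [[⟨0, 0, 0, 33554432⟩, ⟨1, 1, 0, 33554432⟩, ⟨2, 1, 0, 33554432⟩]]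

noncomputable def f_pp_012 : ℕ → ℕ → ℕ → ℕ → Bool := onCell 536870912 536870912 0 536870912 649613803 48318383
    (rowB 3 eng mog cd3q0 cd0q2 pd1 2 false true true .pnp 0 1 2 (qsf 0 536870912 0 536870912 1) ndB3q0 ndB0q2 pcB1 cut_pp_012 Ext.none)

def k0_pp_012 : ∃ t, chk3 f_pp_012 t 2 1 1 = true :=
  ⟨(b (a (b (l 2) (a (l 2) (a (l 2) (a (l 2) (b (l 2) (l 16654392)))))) (b (b (a (l 16621120) (l 16601264)) (a (l 16651576) (l 16635888))) (b (a (b (l 16669976) (l 16678688)) (b (l 16660160) (l 16676200))) (b (a (l 16679168) (l 16687376)) (a (l 16659160) (l 16690184)))))) (a (b (a (l 2) (b (a (l 2) (a (b (l 16594240) (l 117205372455)) (b (l 16584008) (l 16635408)))) (l 3))) (l 3)) (b (a (b (a (b (l 16621784) (l 16632184)) (b (l 16602088) (b (l 16612736) (l 16628544)))) (b (a (b (l 144048860935) (l 3)) (b (l 16647112) (l 135458990631))) (l 3))) (b (b (l 16662328) (a (l 16635816) (l 16650360))) (a (b (l 16673920) (b (l 185924971447) (l 3))) (b (a (l 16682544)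 (l 16685520)) (b (a (l 16724032) (l 16727528)) (a (l 262160721975) (l 200420567623))))))) (a (l 3) (b (a (l 3) (l 3)) (l 3)))))), by decide +kernel⟩

def k1_pp_012 : ∃ t, chk3 f_pp_012 t 3 2 1 = true :=
  ⟨(a (b (a (b (l 16577520) (l 16614576)) (b (a (l 16555368) (l 16541552)) (a (l 16593224) (l 16578816)))) (b (a (a (l 16657064) (l 16645936)) (a (l 16631896) (l 16616152))) (a (b (a (l 16684744) (l 16676696)) (a (l 16699024) (l 16696040))) (a (b (l 16664128) (l 16686872)) (b (l 16648000) (l 16671616)))))) (b (a (b (a (l 16527488) (l 16513544)) (a (l 16564264) (l 16550184))) (b (l 16495672) (a (l 16538344) (l 16530512)))) (a (b (a (l 16599688) (b (l 16574568) (l 16592872))) (a (b (l 16630312) (l 16653160)) (b (l 16612864) (l 16634376)))) (b (a (l 16570568) (l 16562048)) (a (b (l 16598056) (l 16618048)) (b (l 16588144) (l 16606536))))))), by decide +kernel⟩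

def k2_pp_012 : ∃ t, chk3 f_pp_012 t 6 3 1 = true :=
  ⟨(b (a (b (b (a (l 16700112) (l 16710520)) (a (l 16664288) (l 16697688))) (b (a (b (l 16682960) (l 16680256)) (l 16694128)) (a (a (b (l 16728192) (l 16758840)) (l 16741872)) (a (l 16740192) (l 16736368))))) (b (a (b (l 16707496) (l 16719392)) (b (l 16694736) (l 16715824))) (b (a (l 16701072) (l 16727264)) (a (a (l 16730144) (l 16725456)) (a (l 16721888) (l 16720576)))))) (a (b (a (b (b (a (l 239612218055) (l 160155325175)) (l 3)) (l 3)) (b (b (a (l 16781344) (l 16773680)) (a (l 213842457159) (a (l 138680521495) (l 16798224)))) (l 3))) (l 3)) (b (a (b (b (a (l 16763816) (l 16754440)) (a (l 16852360) (l 16777064))) (b (a (b (l 118816414807) (l 3)) (a (l 16846864) (l 16797648))) (l 3))) (b (a (l 16755400) (l 16747448)) (b (a (l 16807936) (l 16775304)) (a (b (l 182167163479) (l 3)) (b (l 16790880) (l 173040343719)))))) (a (l 3) (b (b (l 3) (l 3)) (l 3)))))), by decide +kernel⟩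

def k3_pp_012 : ∃ t, chk3 f_pp_012 t 7 6 1 = true :=
  ⟨(a (b (a (b (l 16676800) (l 16699880)) (b (l 16656872) (l 16679552))) (a (b (l 16721552) (l 16736184)) (b (l 16702320) (l 16725696)))) (b (a (b (l 16638768) (l 16660112)) (b (l 16624992) (l 16643032))) (a (b (l 16681352) (l 16640888)) (b (l 16661456) (l 16659624))))), by decide +kernel⟩

def k4_pp_012 : ∃ t, chk3 f_pp_012 t 7 7 1 = true :=
  ⟨(a (b (a (b (b (l 16733632) (l 16809856)) (b (a (l 16766584) (l 16759936)) (a (l 16827752) (l 16777712)))) (b (a (l 16744536) (l 16744544)) (a (b (l 16754960) (l 16771256)) (b (l 16751952) (l 16763304))))) (a (b (b (a (b (l 162839797591) (l 3)) (a (l 144586179799) (l 127406294311))) (a (l 3) (l 3))) (l 3)) (b (b (a (b (l 16784408) (l 16835016)) (l 16798808)) (a (b (a (l 165524132199) (l 16798760)) (l 3)) (b (l 16810440) (a (l 168745338631) (l 157471033463))))) (b (a (l 3) (l 3)) (l 3))))) (b (b (a (a (l 16733976) (l 16720904)) (a (l 16707808) (l 16653656)))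 (a (a (b (l 16751616) (l 16755872)) (b (l 16738440) (l 16750960))) (a (a (l 16776216) (l 16769496)) (a (l 16742216) (l 16736200))))) (a (b (a (b (l 16766840) (a (l 16805808) (l 16779112))) (b (l 16761248) (b (l 16766944) (l 16795360)))) (b (a (b (a (b (l 164450348407) (l 3)) (b (l 16788992) (l 164450338839))) (l 3)) (b (a (l 16785152) (l 16779296)) (a (b (l 152102297847) (l 3)) (a (l 157470998295) (l 169282150055))))) (a (l 3) (b (a (l 3) (l 3)) (l 3))))) (b (a (b (l 16749904) (a (l 16765272) (l 16759728))) (b (a (l 16740008) (b (l 16730080) (l 16736488))) (a (b (l 16749656) (l 16756400)) (b (l 16743048) (l 16728768))))) (b (a (a (b (l 16773496) (b (l 16779248) (l 16804080))) (b (l 16768416) (l 16796208))) (a (b (l 16763248) (l 6)) (l 6))) (a (b (a (b (a (l 140291121543) (l 161229078855)) (l 3)) (b (a (l 16782432) (l 6)) (l 6))) (a (l 3) (l 6))) (l 6))))))), by decide +kernel⟩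

theorem s5_pp_012 : ∃ t, chk3 f_pp_012 t 7 3 1 = true := ex3_b k3_pp_012 k4_pp_012

theorem s6_pp_012 : ∃ t, chk3 f_pp_012 t 3 3 1 = true := ex3_a k2_pp_012 s5_pp_012

theorem s7_pp_012 : ∃ t, chk3 f_pp_012 t 3 1 1 = true := ex3_b k1_pp_012 s6_pp_012

theorem s8_pp_012 : ∃ t, chk3 f_pp_012 t 1 1 1 = true := ex3_a k0_pp_012 s7_pp_012

theorem c_pp_012 : CertB 0 536870912 0 536870912 649613803 48318383 3 eng mog cd3q0 cd0q2 pd1 false true true .pnp 0 1 2
    ndB3q0 ndB0q2 pcB1 cut_pp_012 Ext.none :=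
  certB2 (fam := false) (s1 := true) (s2 := true) (a := 0) (b := 1) (c := 2) (cn := .pnp) (n1 := ndB3q0) (n2 := ndB0q2) (pc := pcB1) (cut := cut_pp_012) (xt := Ext.none) (P1 := 0) (W1 := 536870912) (P2 := 0) (W2 := 536870912) (P3 := 649613803) (W3 := 48318383) (N0 := 3) (En := eng) (mo := mog) (C1 := cd3q0) (C2 := cd0q2) (C3 := pd1)
    rfl (fun _ => rfl) s8_pp_012

noncomputable def cut_pp_022 : Cut := Cut.of [[⟨0, 0, 0, 67108864⟩, ⟨1, 1, 0, 67108864⟩, ⟨2, 1, 0, 67108864⟩]]

noncomputable def f_pp_022 : ℕ → ℕ → ℕ → ℕ → Bool := onCell 0 536870912 0 536870912 649613803 48318383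
    (rowB 3 eng mog cd3q0 cd0q2 pd2 0 false true true .pp 0 2 2 (qsf 0 536870912 0 536870912 2) ndB3q0 ndB0q2 pcB2 cut_pp_022 Ext.none)

def k0_pp_022 : ∃ t, chk3 f_pp_022 t 2 2 1 = true :=
  ⟨(a (b (a (a (b (a (c (b (l 16443288) (l 16446256)) (l 16447712)) (l 16493112)) (a (c (b (l 16454072) (l 16465240)) (l 16527600)) (b (l 16462192) (l 16474400)))) (b (l 16481440) (a (l 16497048) (l 16484712)))) (b (a (l 16473752) (l 16487680)) (a (l 16582976) (l 16568264)))) (a (b (a (b (a (a (b (l 16475688) (l 16478656)) (l 16501928)) (l 16549616)) (a (b (c (l 16488016) (l 16500720)) (c (l 16493168) (l 16505080))) (c (l 16499296) (b (l 16489328) (l 16494544))))) (b (a (l 16494528) (l 16502600)) (a (c (l 16508096) (l 16501784)) (l 16514736)))) (a (b (c (a (c (l 16504376) (b (l 16497216) (l 16504048))) (l 16512912)) (a (a (b (l 16486632) (l 16492928)) (l 16516656)) (b (l 16500792) (l 16508184)))) (a (c (c (c (l 16479488) (l 16540656)) (b (l 16512000) (l 16521136)))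 (b (a (l 16500488) (l 16507112)) (a (l 16509376) (l 16516456)))) (c (b (l 16525608) (l 16535552)) (b (l 16516832) (l 16526816))))) (b (a (b (l 16515832) (l 16524112)) (l 16551488)) (c (a (l 16542064) (l 16553288)) (a (b (l 16529408) (l 16540160)) (l 16547272)))))) (b (a (b (l 16515312) (l 16570888)) (b (l 16533584) (l 16548512))) (b (a (a (l 16540984) (l 16551400)) (l 16609056)) (a (a (l 16562224) (l 16573488)) (c (l 16588120) (l 16588384))))))) (a (a (b (b (l 16500088) (b (l 16531008) (l 16542976))) (b (c (l 16566752) (l 16561424)) (b (l 16589072) (l 258805089191)))) (b (b (l 1) (l 1)) (l 1))) (l 1))), by decide +kernel⟩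

def k1_pp_022 : ∃ t, chk3 f_pp_022 t 2 3 1 = true :=
  ⟨(b (a (b (a (a (a (b (c (b (a (l 16530280) (l 16536944)) (a (l 16541088) (l 16548448))) (b (a (l 16519592) (l 16527128)) (a (l 16530592) (l 16538880)))) (b (c (l 16555728) (l 16545944)) (a (l 16579520) (l 16567720)))) (b (c (b (l 16546672) (l 16558952)) (b (l 16538128) (l 16550728))) (a (l 16570280) (b (l 16572000) (l 16585168))))) (b (a (b (l 16556200) (l 16569408)) (l 16659696)) (a (b (l 16583440) (l 16597000)) (b (l 16591232) (l 16601984))))) (a (b (a (l 16585432) (l 16592488)) (a (b (l 16597432) (l 16606816)) (b (l 16603680) (l 16611360)))) (b (a (l 16599480) (l 16606328)) (a (b (l 16609728) (l 16616048)) (l 1))))) (a (b (a (a (c (a (l 16602760) (l 16591280)) (b (l 16570992) (l 16605720))) (c (l 16604880) (l 16598192))) (a (l 16615992) (l 16620608))) (b (a (a (a (l 16619152) (l 16608976)) (l 16624464)) (l 16637896)) (a (a (a (l 16633944) (l 16624304)) (l 16640528)) (l 16651520)))) (a (b (a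 (l 16624608) (l 16628064)) (a (l 16670760) (l 16673328))) (b (b (a (l 16625424) (l 1)) (l 1)) (l 1))))) (l 1)) (a (b (a (a (b (b (a (a (c (l 16631944) (l 16624712)) (l 16640424)) (l 16657376)) (a (b (a (l 16640848) (l 16653056)) (l 6)) (l 16675048))) (l 6)) (b (a (b (l 16663848) (l 16678568)) (b (l 16667024) (l 16681184))) (a (l 6) (b (l 121366264711) (l 359200116407))))) (a (b (a (b (l 16669440) (l 16683008)) (l 1)) (l 1)) (l 1))) (a (a (l 6) (a (l 6) (l 1))) (l 1))) (l 1))), by decide +kernel⟩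

def k2_pp_022 : ∃ t, chk3 f_pp_022 t 3 1 1 = true :=
  ⟨(l 1), by decide +kernel⟩

theorem s3_pp_022 : ∃ t, chk3 f_pp_022 t 2 1 1 = true := ex3_b k0_pp_022 k1_pp_022

theorem s4_pp_022 : ∃ t, chk3 f_pp_022 t 1 1 1 = true := ex3_a s3_pp_022 k2_pp_022

theorem c_pp_022 : CertB 0 536870912 0 536870912 649613803 48318383 3 eng mog cd3q0 cd0q2 pd2 false true true .pp 0 2 2
    ndB3q0 ndB0q2 pcB2 cut_pp_022 Ext.none :=
  certB0 (fam := false) (s1 := true) (s2 := true) (a := 0) (b := 2) (c := 2) (cn := .pp) (n1 := ndB3q0) (n2 := ndB0q2) (pc := pcB2) (cut := cut_pp_022) (xt := Ext.none) (P1 := 0) (W1 := 536870912) (P2 := 0) (W2 := 536870912) (P3 := 649613803) (W3 := 48318383) (N0 := 3) (En := eng) (mo := mog) (C1 := cd3q0) (C2 := cd0q2) (C3 := pd2)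
    rfl s4_pp_022

noncomputable def f_pp_101 : ℕ → ℕ → ℕ → ℕ → Bool := onCell 536870912 536870912 536870912 536870912 649613803 48318383
    (rowB 3 eng mog cd3q1 cd0q1 pd0 0 false true true .npn 1 0 1 (qsf 536870912 536870912 536870912 536870912 0) ndB3q1 ndB0q1 pcB0 Cut.none Ext.none)

def k0_pp_101 : ∃ t, chk3 f_pp_101 t 1 1 1 = true :=
  ⟨(l 3), by decide +kernel⟩

theorem c_pp_101 : CertB 536870912 536870912 536870912 536870912 649613803 48318383 3 eng mog cd3q1 cd0q1 pd0 false true true .npn 1 0 1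
    ndB3q1 ndB0q1 pcB0 Cut.none Ext.none :=
  certB0 (fam := false) (s1 := true) (s2 := true) (a := 1) (b := 0) (c := 1) (cn := .npn) (n1 := ndB3q1) (n2 := ndB0q1) (pc := pcB0) (cut := Cut.none) (xt := Ext.none) (P1 := 536870912) (W1 := 536870912) (P2 := 536870912) (W2 := 536870912) (P3 := 649613803) (W3 := 48318383) (N0 := 3) (En := eng) (mo := mog) (C1 := cd3q1) (C2 := cd0q1) (C3 := pd0)
    rfl k0_pp_101

noncomputable def f_pp_102 : ℕ → ℕ → ℕ → ℕ → Bool := onCell 0 536870912 0 536870912 649613803 48318383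
    (rowB 3 eng mog cd3q1 cd0q2 pd0 2 false true true .npp 1 0 2 (qsf 536870912 536870912 0 536870912 0) ndB3q1 ndB0q2 pcB0 Cut.none Ext.none)

def k0_pp_102 : ∃ t, chk3 f_pp_102 t 2 1 1 = true :=
  ⟨(b (b (a (l 2) (a (b (a (b (a (l 2) (l 180555985591)) (l 3)) (b (a (b (l 16523536) (l 181629461111)) (b (l 16524528) (l 16523720))) (l 228337398215))) (l 3)) (b (a (b (b (l 16528520) (l 16624512)) (b (b (l 16614024) (l 184851028727)) (l 197199012791))) (b (a (l 16530160) (l 16532544)) (a (l 16552208) (l 16532648)))) (a (l 3) (b (l 175724171607) (l 3)))))) (l 3)) (l 3)), by decide +kernel⟩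

def k1_pp_102 : ∃ t, chk3 f_pp_102 t 3 1 1 = true :=
  ⟨(b (a (b (a (b (a (b (l 16538056) (l 16536576)) (b (l 16547208) (l 16544208))) (a (a (b (l 169281820919) (l 203641406807)) (b (l 16579224) (l 199883344311))) (a (b (l 16540616) (l 166597363655)) (b (l 16544416) (b (l 16543448) (l 16543304)))))) (b (b (l 16563816) (a (l 16554136) (l 16566512))) (a (b (l 16551456) (a (b (l 16547472) (l 16547128)) (l 16552560))) (b (l 16563152) (a (l 16558056) (l 16563584)))))) (b (a (a (l 3) (b (a (l 3) (b (l 197198962567) (l 3))) (l 3))) (a (b (a (l 162302408647) (b (l 16551936) (l 200957046743))) (l 3)) (b (a (b (l 16556960) (l 158544300071)) (b (l 16562152) (l 16561512))) (b (a (l 180019085895) (l 184850973591)) (l 3))))) (l 3))) (b (b (a (l 16585536) (l 16604464)) (a (b (l 16580696) (l 16577608)) (b (l 16601664) (l 16598808)))) (a (b (a (b (b (l 16570080) (a (l 16566472) (l 16571504))) (a (b (l 16565312) (l 184314067463)) (b (l 16569992) (l 168207994599)))) (b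 (b (l 16580672) (l 16579144)) (b (l 16577152) (l 16574024)))) (b (a (a (l 3) (b (l 189682778359) (l 3))) (b (a (l 151028121271) (l 16571416)) (l 192367132215))) (l 3))) (b (b (l 16595832) (a (b (l 16586800) (l 16583040)) (b (l 16597560) (l 16593456)))) (a (b (b (l 16577512) (l 137606388327)) (b (l 178945409143) (l 3))) (b (b (l 16587352) (l 16578600)) (b (l 124184583143) (l 162839307495)))))))) (a (l 3) (l 3))), by decide +kernel⟩

theorem s2_pp_102 : ∃ t, chk3 f_pp_102 t 1 1 1 = true := ex3_a k0_pp_102 k1_pp_102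

theorem c_pp_102 : CertB 536870912 536870912 0 536870912 649613803 48318383 3 eng mog cd3q1 cd0q2 pd0 false true true .npp 1 0 2
    ndB3q1 ndB0q2 pcB0 Cut.none Ext.none :=
  certB2 (fam := false) (s1 := true) (s2 := true) (a := 1) (b := 0) (c := 2) (cn := .npp) (n1 := ndB3q1) (n2 := ndB0q2) (pc := pcB0) (cut := Cut.none) (xt := Ext.none) (P1 := 536870912) (W1 := 536870912) (P2 := 0) (W2 := 536870912) (P3 := 649613803) (W3 := 48318383) (N0 := 3) (En := eng) (mo := mog) (C1 := cd3q1) (C2 := cd0q2) (C3 := pd0)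
    rfl (fun _ => rfl) s2_pp_102

noncomputable def f_pp_112 : ℕ → ℕ → ℕ → ℕ → Bool := onCell 536870912 536870912 0 536870912 649613803 48318383
    (rowB 3 eng mog cd3q1 cd0q2 pd1 2 false true true .dn 1 1 2 (qsf 536870912 536870912 0 536870912 1) ndB3q1 ndB0q2 pcB1 Cut.none Ext.none)

def k0_pp_112 : ∃ t, chk3 f_pp_112 t 1 1 1 = true :=
  ⟨(a (b (a (b (b (l 16609160) (a (l 16601064) (l 16607416))) (b (a (b (l 16606256) (l 16607808)) (b (l 16617728) (l 16619928))) (a (a (b (b (l 16598816) (l 16591896)) (a (l 57075626087) (l 16574400))) (b (b (l 16607976) (l 16601640)) (b (l 16590888) (l 16573944)))) (b (l 16616280) (a (b (l 16600832) (l 16586248)) (b (l 16608800) (l 16596632))))))) (a (b (b (l 16573200) (l 16597680)) (b (b (l 16611976) (l 88617084263)) (b (l 103649473623) (l 281890563207)))) (l 1))) (a (b (b (b (b (a (a (l 101635859799) (l 16549048)) (a (l 16564456) (l 16578552))) (a (a (l 3) (l 80697886855)) (a (l 16533536) (l 16552392)))) (a (l 3)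 (a (b (l 83919085223) (l 3)) (b (l 16579064) (a (l 105930721575) (l 1)))))) (l 3)) (l 3)) (b (l 1) (l 1)))) (l 1)), by decide +kernel⟩

theorem c_pp_112 : CertB 536870912 536870912 0 536870912 649613803 48318383 3 eng mog cd3q1 cd0q2 pd1 false true true .dn 1 1 2
    ndB3q1 ndB0q2 pcB1 Cut.none Ext.none :=
  certB2 (fam := false) (s1 := true) (s2 := true) (a := 1) (b := 1) (c := 2) (cn := .dn) (n1 := ndB3q1) (n2 := ndB0q2) (pc := pcB1) (cut := Cut.none) (xt := Ext.none) (P1 := 536870912) (W1 := 536870912) (P2 := 0) (W2 := 536870912) (P3 := 649613803) (W3 := 48318383) (N0 := 3) (En := eng) (mo := mog) (C1 := cd3q1) (C2 := cd0q2) (C3 := pd1)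
    rfl (fun _ => rfl) k0_pp_112

noncomputable def f_pp_202_a : ℕ → ℕ → ℕ → ℕ → Bool := onCell 0 536870912 0 536870912 649613803 48318383
    (rowB 3 eng mog cd3q2a cd0q2 pd0 0 false true true .pp 2 0 2 (qsf 0 536870912 0 536870912 0) ndB3q2a ndB0q2 pcB0 Cut.none Ext.none)

def k0_pp_202_a : ∃ t, chk3 f_pp_202_a t 1 1 1 = true :=
  ⟨(l 3), by decide +kernel⟩

theorem c_pp_202_a : CertB 0 536870912 0 536870912 649613803 48318383 3 eng mog cd3q2a cd0q2 pd0 false true true .pp 2 0 2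
    ndB3q2a ndB0q2 pcB0 Cut.none Ext.none :=
  certB0 (fam := false) (s1 := true) (s2 := true) (a := 2) (b := 0) (c := 2) (cn := .pp) (n1 := ndB3q2a) (n2 := ndB0q2) (pc := pcB0) (cut := Cut.none) (xt := Ext.none) (P1 := 0) (W1 := 536870912) (P2 := 0) (W2 := 536870912) (P3 := 649613803) (W3 := 48318383) (N0 := 3) (En := eng) (mo := mog) (C1 := cd3q2a) (C2 := cd0q2) (C3 := pd0)
    rfl k0_pp_202_a

noncomputable def f_pp_202_b : ℕ → ℕ → ℕ → ℕ → Bool := onCell 1239849684 370763052 0 536870912 649613803 48318383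
    (rowB 3 eng mog cd3q2b cd0q2 pd0 0 false true true .pp 2 0 2 (qsf 1239849684 370763052 0 536870912 0) ndB3q2b ndB0q2 pcB0 Cut.none Ext.none)

def k0_pp_202_b : ∃ t, chk3 f_pp_202_b t 1 1 1 = true :=
  ⟨(l 3), by decide +kernel⟩

theorem c_pp_202_b : CertB 1239849684 370763052 0 536870912 649613803 48318383 3 eng mog cd3q2b cd0q2 pd0 false true true .pp 2 0 2
    ndB3q2b ndB0q2 pcB0 Cut.none Ext.none :=
  certB0 (fam := false) (s1 := true) (s2 := true) (a := 2) (b := 0) (c := 2) (cn := .pp) (n1 := ndB3q2b) (n2 := ndB0q2) (pc := pcB0) (cut := Cut.none) (xt := Ext.none) (P1 := 1239849684) (W1 := 370763052) (P2 := 0) (W2 := 536870912) (P3 := 649613803) (W3 := 48318383) (N0 := 3) (En := eng) (mo := mog) (C1 := cd3q2b) (C2 := cd0q2) (C3 := pd0)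
    rfl k0_pp_202_b

noncomputable def f_pm_001 : ℕ → ℕ → ℕ → ℕ → Bool := onCell 0 536870912 0 536870912 649613803 48318383
    (rowB 3 eng mog cd3q0 cd0q1 pd0 1 false true false .up 0 0 1 (qsf 0 536870912 536870912 536870912 0) ndB3q0 ndB0q1 pcB0 Cut.none Ext.none)

def k0_pm_001 : ∃ t, chk3 f_pm_001 t 1 1 1 = true :=
  ⟨(a (l 4) (b (l 4) (b (l 4) (a (l 4) (b (l 4) (a (l 4) (b (l 4) (a (l 4) (l 16338632))))))))), by decide +kernel⟩

theorem c_pm_001 : CertB 0 536870912 536870912 536870912 649613803 48318383 3 eng mog cd3q0 cd0q1 pd0 false true false .up 0 0 1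
    ndB3q0 ndB0q1 pcB0 Cut.none Ext.none :=
  certB1 (fam := false) (s1 := true) (s2 := false) (a := 0) (b := 0) (c := 1) (cn := .up) (n1 := ndB3q0) (n2 := ndB0q1) (pc := pcB0) (cut := Cut.none) (xt := Ext.none) (P1 := 0) (W1 := 536870912) (P2 := 536870912) (W2 := 536870912) (P3 := 649613803) (W3 := 48318383) (N0 := 3) (En := eng) (mo := mog) (C1 := cd3q0) (C2 := cd0q1) (C3 := pd0)
    rfl (fun _ => rfl) k0_pm_001

noncomputable def cut_pm_011 : Cut := Cut.of [[⟨0, 0, 0, 67108864⟩, ⟨1, 1, 0, 67108864⟩, ⟨2, 1, 0, 67108864⟩]]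

noncomputable def f_pm_011 : ℕ → ℕ → ℕ → ℕ → Bool := onCell 0 536870912 536870912 536870912 649613803 48318383
    (rowB 3 eng mog cd3q0 cd0q1 pd1 0 false true false .pnn 0 1 1 (qsf 0 536870912 536870912 536870912 1) ndB3q0 ndB0q1 pcB1 cut_pm_011 Ext.none)

def k0_pm_011 : ∃ t, chk3 f_pm_011 t 1 1 1 = true :=
  ⟨(b (l 4) (b (l 4) (b (l 4) (b (a (l 4) (l 4)) (a (a (a (a (b (l 4) (l 6)) (l 4)) (l 4)) (l 4)) (a (a (l 4) (b (l 4) (l 16534472))) (a (b (l 4) (l 16384784)) (l 16494168)))))))), by decide +kernel⟩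

theorem c_pm_011 : CertB 0 536870912 536870912 536870912 649613803 48318383 3 eng mog cd3q0 cd0q1 pd1 false true false .pnn 0 1 1
    ndB3q0 ndB0q1 pcB1 cut_pm_011 Ext.none :=
  certB0 (fam := false) (s1 := true) (s2 := false) (a := 0) (b := 1) (c := 1) (cn := .pnn) (n1 := ndB3q0) (n2 := ndB0q1) (pc := pcB1) (cut := cut_pm_011) (xt := Ext.none) (P1 := 0) (W1 := 536870912) (P2 := 536870912) (W2 := 536870912) (P3 := 649613803) (W3 := 48318383) (N0 := 3) (En := eng) (mo := mog) (C1 := cd3q0) (C2 := cd0q1) (C3 := pd1)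
    rfl k0_pm_011

noncomputable def cut_pm_012 : Cut := Cut.of [[⟨0, 0, 0, 67108864⟩, ⟨1, 1, 0, 67108864⟩, ⟨2, 1, 0, 67108864⟩]]

noncomputable def f_pm_012 : ℕ → ℕ → ℕ → ℕ → Bool := onCell 536870912 536870912 0 536870912 649613803 48318383
    (rowB 3 eng mog cd3q0 cd0q2 pd1 2 false true false .pnp 0 1 2 (qsf 0 536870912 0 536870912 1) ndB3q0 ndB0q2 pcB1 cut_pm_012 Ext.none)

def k0_pm_012 : ∃ t, chk3 f_pm_012 t 2 1 1 = true :=
  ⟨(b (b (a (l 2) (a (l 16571064) (l 16545184))) (a (b (l 2) (l 16524328)) (b (l 16507712) (l 16685824)))) (b (a (b (l 16473800) (l 16525152)) (b (l 16566432) (a (l 16410568) (l 16408960)))) (a (b (a (l 16376800) (l 16384544)) (a (b (l 16351216) (l 16341208)) (b (l 16372968) (l 16374232)))) (a (b (l 16520776) (b (l 16397456) (l 16409704))) (b (a (l 16405864) (l 16414832)) (b (l 16428144) (a (l 16439904) (l 16462712)))))))), by decide +kernel⟩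

def k1_pm_012 : ∃ t, chk3 f_pm_012 t 3 1 1 = true :=
  ⟨(b (a (b (a (l 16516728) (b (l 16505128) (l 16468352))) (a (b (l 16466344) (l 16440104)) (b (l 16440584) (l 16420744)))) (b (a (b (l 16479544) (l 16447280)) (b (l 16458064) (l 16430600))) (a (b (l 16425400) (l 16415848)) (b (a (l 16416672) (l 16413560)) (a (l 16414936) (l 16417320)))))) (b (a (a (b (l 16420176) (l 16495608)) (b (a (l 16412128) (l 16414552)) (a (l 16417992) (l 16428464)))) (a (b (a (l 16419672) (l 16426088)) (a (l 16441952) (l 16458008))) (b (a (l 16455664) (b (l 16435312) (l 16456168))) (a (b (l 16462968) (l 16491056)) (b (l 16481064) (l 16512824)))))) (a (b (a (b (l 16424360) (a (l 16434736) (l 16448536))) (a (b (l 16438576) (l 16589608)) (b (l 16455616) (l 16528640)))) (b (b (a (l 16458032) (a (l 16488000) (l 16533032))) (a (l 16472936) (a (l 16508208) (l 16536848)))) (b (a (l 16658096) (a (l 16531448) (l 16562640))) (a (a (l 16498096) (l 4)) (l 4))))) (b (a (a (b (l 16477232)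 (l 16637024)) (b (l 16500864) (l 16686136))) (a (b (l 16526080) (a (l 16561408) (l 16575600))) (b (a (l 16544960) (l 16558280)) (a (l 16590480) (b (l 16593024) (l 16619088)))))) (a (b (a (b (l 16544400) (a (l 16560408) (l 16639432))) (b (a (l 16568040) (l 16582200)) (a (l 16654856) (a (l 16689064) (l 16675472))))) (b (a (a (l 16587992) (l 16627968)) (a (l 16643696) (b (l 16630744) (l 16645736)))) (l 4))) (b (a (a (b (l 16597200) (l 16667744)) (a (l 16727896) (l 16694512))) (b (a (l 16630144) (l 6)) (l 6))) (a (a (b (a (l 16715056) (l 16723144)) (b (l 16683520) (l 4))) (b (a (c (l 16754672) (l 16669504)) (l 6)) (l 6))) (l 6)))))))), by decide +kernel⟩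

theorem s2_pm_012 : ∃ t, chk3 f_pm_012 t 1 1 1 = true := ex3_a k0_pm_012 k1_pm_012

theorem c_pm_012 : CertB 0 536870912 0 536870912 649613803 48318383 3 eng mog cd3q0 cd0q2 pd1 false true false .pnp 0 1 2
    ndB3q0 ndB0q2 pcB1 cut_pm_012 Ext.none :=
  certB2 (fam := false) (s1 := true) (s2 := false) (a := 0) (b := 1) (c := 2) (cn := .pnp) (n1 := ndB3q0) (n2 := ndB0q2) (pc := pcB1) (cut := cut_pm_012) (xt := Ext.none) (P1 := 0) (W1 := 536870912) (P2 := 0) (W2 := 536870912) (P3 := 649613803) (W3 := 48318383) (N0 := 3) (En := eng) (mo := mog) (C1 := cd3q0) (C2 := cd0q2) (C3 := pd1)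
    rfl (fun _ => rfl) s2_pm_012

noncomputable def cut_pm_022 : Cut := Cut.of [[⟨0, 0, 0, 67108864⟩, ⟨1, 1, 0, 67108864⟩, ⟨2, 1, 0, 67108864⟩]]

noncomputable def f_pm_022 : ℕ → ℕ → ℕ → ℕ → Bool := onCell 0 536870912 0 536870912 649613803 48318383
    (rowB 3 eng mog cd3q0 cd0q2 pd2 0 false true false .pp 0 2 2 (qsf 0 536870912 0 536870912 2) ndB3q0 ndB0q2 pcB2 cut_pm_022 Ext.none)

def k0_pm_022 : ∃ t, chk3 f_pm_022 t 4 2 1 = true :=
  ⟨(b (a (a (a (b (c (l 16444776) (l 16446840)) (c (l 16475464) (l 16455944))) (b (l 16447712) (l 16454032))) (b (l 16451488) (l 16452248))) (b (l 16510648) (a (l 16448016) (l 16441440)))) (a (b (a (b (c (l 16486472) (l 16465488)) (a (b (l 16474520) (l 16480896)) (l 16472384))) (b (l 16457064) (l 16483592))) (a (b (a (b (l 16488224) (l 16496392)) (l 16506128)) (a (b (l 16510912) (a (l 16518224) (l 16513640))) (l 16522520))) (b (l 16472240) (l 16527160)))) (b (a (b (l 16445784) (l 16446352)) (b (l 16431096) (l 16426256)))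 (a (b (l 16451096) (l 16458968)) (b (l 16425488) (l 16427712)))))), by decide +kernel⟩

def k1_pm_022 : ∃ t, chk3 f_pm_022 t 4 3 1 = true :=
  ⟨(b (a (b (b (a (a (b (c (l 16527088) (l 16527912)) (a (l 16521392) (l 16536664))) (b (l 16516328) (l 16527416))) (a (l 16508856) (l 16494400))) (c (a (a (b (l 16531024) (a (l 16564336) (l 16562488))) (l 16546032)) (l 16565672)) (a (a (a (b (l 16552784) (a (l 16561040) (l 16561800))) (l 16557304)) (l 16545768)) (l 16519920)))) (a (a (b (a (b (a (c (l 16574168) (l 16570528)) (l 16572944)) (c (l 16585152) (a (l 16581072) (l 16581832)))) (b (l 16573536) (l 16584200))) (a (a (b (l 16594896) (l 16607840)) (b (l 16595360) (l 16608288))) (b (l 16595904) (l 16608824)))) (b (l 16551080) (l 16599424))) (b (l 16543568) (a (l 16577688) (l 16553960))))) (b (a (b (l 16470080) (l 16483992)) (b (l 16432704) (l 16439928))) (a (b (l 16520320) (a (l 16528248) (l 16500544))) (b (l 16447944) (l 1))))) (a (b (b (a (a (a (b (b (l 16618616)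 (l 16626096)) (a (c (l 16639672) (l 16635808)) (l 16638216))) (b (l 16623072) (l 16638720))) (a (l 16631232) (l 16621000))) (a (l 16601784) (l 16595232))) (a (l 6) (a (l 6) (b (l 16588728) (l 16598056))))) (a (l 6) (a (l 6) (l 1)))) (b (b (a (a (l 16544528) (l 1)) (l 1)) (l 1)) (l 1)))), by decide +kernel⟩

def k2_pm_022 : ∃ t, chk3 f_pm_022 t 5 1 1 = true :=
  ⟨(b (a (a (b (b (l 16460584) (l 16430384)) (b (b (l 16410760) (l 16399896)) (l 16411832))) (b (l 2635532385655) (l 1))) (l 1)) (b (l 1) (l 1))), by decide +kernel⟩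

def k3_pm_022 : ∃ t, chk3 f_pm_022 t 3 1 1 = true :=
  ⟨(l 1), by decide +kernel⟩

theorem s4_pm_022 : ∃ t, chk3 f_pm_022 t 4 1 1 = true := ex3_b k0_pm_022 k1_pm_022

theorem s5_pm_022 : ∃ t, chk3 f_pm_022 t 2 1 1 = true := ex3_a s4_pm_022 k2_pm_022

theorem s6_pm_022 : ∃ t, chk3 f_pm_022 t 1 1 1 = true := ex3_a s5_pm_022 k3_pm_022

theorem c_pm_022 : CertB 0 536870912 0 536870912 649613803 48318383 3 eng mog cd3q0 cd0q2 pd2 false true false .pp 0 2 2
    ndB3q0 ndB0q2 pcB2 cut_pm_022 Ext.none :=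
  certB0 (fam := false) (s1 := true) (s2 := false) (a := 0) (b := 2) (c := 2) (cn := .pp) (n1 := ndB3q0) (n2 := ndB0q2) (pc := pcB2) (cut := cut_pm_022) (xt := Ext.none) (P1 := 0) (W1 := 536870912) (P2 := 0) (W2 := 536870912) (P3 := 649613803) (W3 := 48318383) (N0 := 3) (En := eng) (mo := mog) (C1 := cd3q0) (C2 := cd0q2) (C3 := pd2)
    rfl s6_pm_022

noncomputable def f_pm_101 : ℕ → ℕ → ℕ → ℕ → Bool := onCell 0 536870912 536870912 536870912 649613803 48318383
    (rowB 3 eng mog cd3q1 cd0q1 pd0 2 false true false .npn 1 0 1 (qsf 536870912 536870912 536870912 536870912 0) ndB3q1 ndB0q1 pcB0 Cut.none Ext.none)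

def k0_pm_101 : ∃ t, chk3 f_pm_101 t 1 2 1 = true :=
  ⟨(l 4), by decide +kernel⟩

def k1_pm_101 : ∃ t, chk3 f_pm_101 t 2 6 1 = true :=
  ⟨(a (a (b (l 4) (b (l 4) (a (b (l 4) (l 16437824)) (l 4)))) (l 4)) (l 4)), by decide +kernel⟩

def k2_pm_101 : ∃ t, chk3 f_pm_101 t 4 7 1 = true :=
  ⟨(a (b (b (a (b (a (l 16252832) (l 16254856)) (l 16252224)) (b (a (l 16256192) (l 16278344)) (l 16246264))) (a (b (l 16255792) (l 16264240)) (b (l 16245200) (l 16248944)))) (b (a (b (a (l 16280072) (l 16272408)) (a (l 16297680) (l 16287480))) (b (a (l 16262440) (l 16250432)) (a (l 16274864) (l 16260152)))) (b (a (b (a (l 16312688) (l 16300616)) (a (b (c (l 16357056) (l 16284456)) (l 16324968)) (b (l 16308328) (l 16310856)))) (b (l 16277544) (a (b (l 16291376) (l 16295120)) (l 16275264)))) (a (b (a (b (l 16329256) (a (l 16336472) (l 16329760))) (l 16316176)) (a (b (l 16336560) (l 16339072)) (l 16319808))) (b (a (l 16297992) (b (l 16277160) (l 16278264))) (a (l 16298960)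 (l 16277104))))))) (b (b (a (b (a (l 16258824) (l 4)) (a (l 16238328) (l 16233584))) (b (l 4) (a (l 16228816) (l 16223664)))) (a (b (a (l 16232592) (l 16222928)) (l 16310360)) (a (b (l 16212968) (l 16206320)) (a (l 16200240) (l 16172864))))) (b (a (b (l 16250272) (a (l 16243744) (l 16225928))) (a (b (l 16204744) (l 16206880)) (b (a (l 16191704) (l 16182920)) (l 16270368)))) (b (a (a (l 16252560) (l 16232112)) (a (l 16210688) (l 16195328))) (a (b (a (b (l 16257608) (l 16257112)) (b (l 16235528) (l 16238224))) (l 16264424)) (b (a (l 16229080) (l 16227592)) (a (l 16256656) (l 16251880)))))))), by decide +kernel⟩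

def k3_pm_101 : ∃ t, chk3 f_pm_101 t 5 7 1 = true :=
  ⟨(b (a (b (a (b (l 4) (l 4)) (l 4)) (a (b (a (l 16190360) (l 16191216)) (l 16172496)) (b (l 16207296) (l 16194488)))) (b (l 4) (a (b (l 4) (l 16213808)) (l 16238448)))) (b (a (a (a (b (l 16168440) (l 16174224)) (a (l 16237192) (l 16178744))) (a (l 16185032) (l 16192920))) (a (l 16204160) (l 16218744))) (a (a (b (a (l 16198616) (l 16201576)) (b (l 16225048) (a (l 16247040) (l 16242864)))) (b (l 16206480) (a (b (l 16223720) (l 16239632)) (l 16230616)))) (a (l 16346856) (l 16226656))))), by decide +kernel⟩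

def k4_pm_101 : ∃ t, chk3 f_pm_101 t 3 3 1 = true :=
  ⟨(b (l 4) (b (a (a (b (l 4) (a (l 16257320) (l 4))) (l 4)) (l 4)) (a (a (b (a (l 16233416) (l 16248824)) (l 16237736)) (b (a (l 16264976) (l 16281800)) (l 16258224))) (a (b (a (l 16299608) (l 16318488)) (l 16472752)) (b (l 4) (l 16377048)))))), by decide +kernel⟩

theorem s5_pm_101 : ∃ t, chk3 f_pm_101 t 2 7 1 = true := ex3_a k2_pm_101 k3_pm_101

theorem s6_pm_101 : ∃ t, chk3 f_pm_101 t 2 3 1 = true := ex3_b k1_pm_101 s5_pm_101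

theorem s7_pm_101 : ∃ t, chk3 f_pm_101 t 1 3 1 = true := ex3_a s6_pm_101 k4_pm_101

theorem s8_pm_101 : ∃ t, chk3 f_pm_101 t 1 1 1 = true := ex3_b k0_pm_101 s7_pm_101

theorem c_pm_101 : CertB 536870912 536870912 536870912 536870912 649613803 48318383 3 eng mog cd3q1 cd0q1 pd0 false true false .npn 1 0 1
    ndB3q1 ndB0q1 pcB0 Cut.none Ext.none :=
  certB2 (fam := false) (s1 := true) (s2 := false) (a := 1) (b := 0) (c := 1) (cn := .npn) (n1 := ndB3q1) (n2 := ndB0q1) (pc := pcB0) (cut := Cut.none) (xt := Ext.none) (P1 := 536870912) (W1 := 536870912) (P2 := 536870912) (W2 := 536870912) (P3 := 649613803) (W3 := 48318383) (N0 := 3) (En := eng) (mo := mog) (C1 := cd3q1) (C2 := cd0q1) (C3 := pd0)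
    rfl (fun _ => rfl) s8_pm_101

noncomputable def f_pm_102 : ℕ → ℕ → ℕ → ℕ → Bool := onCell 0 536870912 0 536870912 649613803 48318383
    (rowB 3 eng mog cd3q1 cd0q2 pd0 2 false true false .npp 1 0 2 (qsf 536870912 536870912 0 536870912 0) ndB3q1 ndB0q2 pcB0 Cut.none Ext.none)

def k0_pm_102 : ∃ t, chk3 f_pm_102 t 2 2 1 = true :=
  ⟨(a (b (l 2) (a (l 2) (b (l 2) (a (l 2) (b (l 2) (l 16514680)))))) (b (a (b (a (a (l 2) (a (l 2) (b (l 205721731079) (l 16523088)))) (b (b (a (l 16519752) (l 16528384)) (l 16612264)) (a (l 16529296) (l 16526440)))) (a (b (l 16654184) (l 16526944)) (b (l 16526336) (l 16528016)))) (a (b (b (l 16570464) (l 16528272)) (b (l 16530912) (l 16534976))) (b (b (l 16533392) (l 16534960)) (b (l 16539528) (l 16545096))))) (a (b (b (a (l 16526720) (l 16531528)) (a (l 16526248) (l 16534432))) (a (b (l 16525976) (l 16526352)) (b (l 16536904) (l 16539240)))) (b (a (b (l 16540776) (l 16545512)) (b (l 16551848) (l 16557032))) (a (b (l 16548576)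 (l 16550168)) (b (l 16558992) (l 16558040))))))), by decide +kernel⟩

def k1_pm_102 : ∃ t, chk3 f_pm_102 t 2 3 1 = true :=
  ⟨(a (a (b (l 2) (b (a (l 2) (b (a (l 2) (l 16453784)) (a (b (l 2) (l 16430304)) (l 16444568)))) (b (a (a (l 2) (b (l 16414664) (l 16379520))) (a (b (l 16420688) (l 16406536)) (l 16416400))) (a (a (b (a (l 2) (l 16381592)) (b (l 16367288) (a (l 16356672) (l 16353232)))) (b (a (l 16383280) (l 16385776)) (b (l 16365032) (l 16341920)))) (b (a (l 16382368) (l 16373304)) (a (l 16340952) (l 16327224))))))) (b (b (a (l 2) (b (l 16511608) (a (l 16503480) (l 16512568)))) (a (b (l 16481680) (l 16475704)) (b (l 16501168) (l 16492856)))) (b (a (b (a (l 16463968) (l 16471472)) (l 16451424)) (b (a (l 16475528) (l 16476512)) (a (l 16448816) (l 16443912)))) (b (a (b (l 16422560) (l 16394392)) (a (l 16397448) (l 16388552))) (a (b (l 16357200) (l 16310304)) (a (l 16319744) (b (l 16332568) (l 16288608)))))))) (b (b (a (a (b (l 16526880) (l 16567264))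 (b (l 16540168) (b (l 16538464) (l 16532992)))) (b (a (l 16548368) (l 16551952)) (a (l 16540576) (l 16538552)))) (a (a (b (l 16515480) (l 16499992)) (b (l 16521568) (l 16497824))) (a (l 16505584) (l 16496032)))) (b (a (b (a (l 16472744) (l 16461704)) (a (l 16432032) (l 16413824))) (b (a (l 16447624) (l 16434160)) (c (l 16414888) (l 16387544)))) (a (b (a (l 16372352) (l 16352648)) (a (b (l 16317400) (l 16276752)) (a (l 16285984) (l 16279776)))) (a (b (l 16337784) (a (l 16275464) (l 16272600))) (b (l 16328168) (l 16270160))))))), by decide +kernel⟩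

def k2_pm_102 : ∃ t, chk3 f_pm_102 t 3 1 1 = true :=
  ⟨(a (a (b (b (b (a (b (l 16540760) (l 16544592)) (l 16552848)) (a (l 16552680) (l 16562184))) (b (b (a (l 16561336) (l 16568792)) (a (l 16565496) (l 16571440))) (a (b (l 16565128) (l 16560872)) (b (l 16568024) (l 16560856))))) (b (b (b (a (l 16550560) (l 16547536)) (a (l 16532464) (l 16526136))) (a (l 16486296) (l 16477816))) (b (b (l 16419584) (l 16371184)) (b (l 16320504) (l 16270496))))) (b (b (b (a (l 16563384) (l 16575320)) (a (l 16570960) (l 16580312))) (b (a (b (l 16575152) (l 16576168)) (b (l 16581784) (l 16581176))) (a (a (l 16566160) (l 16567784)) (a (l 16570424) (l 16571536))))) (b (a (b (a (l 16532680) (l 16638936)) (a (l 16471856) (l 16470312))) (b (a (l 16537824) (l 16535920)) (a (l 16470808) (l 16468064)))) (b (a (l 16388248) (l 16385224)) (a (l 16296776) (l 16300896)))))) (b (b (b (a (l 16590640) (l 16605552)) (a (l 16592080) (l 16601512))) (a (b (a (l 16587608) (l 16590104)) (a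 (l 16571672) (l 16568352))) (b (l 16592320) (l 16561048)))) (a (b (a (b (l 16572280) (l 16462448)) (b (l 16519088) (l 16449416))) (b (a (l 16383192) (l 16375536)) (a (l 16305952) (l 16310536)))) (b (b (l 16498336) (b (l 16444392) (l 16411304))) (b (a (l 16369616) (l 16367896)) (b (l 16330728) (l 16310936))))))), by decide +kernel⟩

theorem s3_pm_102 : ∃ t, chk3 f_pm_102 t 2 1 1 = true := ex3_b k0_pm_102 k1_pm_102

theorem s4_pm_102 : ∃ t, chk3 f_pm_102 t 1 1 1 = true := ex3_a s3_pm_102 k2_pm_102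

theorem c_pm_102 : CertB 536870912 536870912 0 536870912 649613803 48318383 3 eng mog cd3q1 cd0q2 pd0 false true false .npp 1 0 2
    ndB3q1 ndB0q2 pcB0 Cut.none Ext.none :=
  certB2 (fam := false) (s1 := true) (s2 := false) (a := 1) (b := 0) (c := 2) (cn := .npp) (n1 := ndB3q1) (n2 := ndB0q2) (pc := pcB0) (cut := Cut.none) (xt := Ext.none) (P1 := 536870912) (W1 := 536870912) (P2 := 0) (W2 := 536870912) (P3 := 649613803) (W3 := 48318383) (N0 := 3) (En := eng) (mo := mog) (C1 := cd3q1) (C2 := cd0q2) (C3 := pd0)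
    rfl (fun _ => rfl) s4_pm_102

noncomputable def f_pm_112 : ℕ → ℕ → ℕ → ℕ → Bool := onCell 536870912 536870912 0 536870912 649613803 48318383
    (rowB 3 eng mog cd3q1 cd0q2 pd1 2 false true false .dn 1 1 2 (qsf 536870912 536870912 0 536870912 1) ndB3q1 ndB0q2 pcB1 Cut.none Ext.none)

def k0_pm_112 : ∃ t, chk3 f_pm_112 t 1 1 1 = true :=
  ⟨(a (b (b (a (b (l 16569456) (l 16542960)) (l 242162317399)) (a (b (l 16515336) (l 16528480)) (b (l 16467504) (l 248067735415)))) (a (b (b (l 16444552) (l 16398928)) (a (b (l 16362928) (l 85395649687)) (b (l 16362120) (l 1)))) (b (l 1) (l 1)))) (l 1)), by decide +kernel⟩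

theorem c_pm_112 : CertB 536870912 536870912 0 536870912 649613803 48318383 3 eng mog cd3q1 cd0q2 pd1 false true false .dn 1 1 2
    ndB3q1 ndB0q2 pcB1 Cut.none Ext.none :=
  certB2 (fam := false) (s1 := true) (s2 := false) (a := 1) (b := 1) (c := 2) (cn := .dn) (n1 := ndB3q1) (n2 := ndB0q2) (pc := pcB1) (cut := Cut.none) (xt := Ext.none) (P1 := 536870912) (W1 := 536870912) (P2 := 0) (W2 := 536870912) (P3 := 649613803) (W3 := 48318383) (N0 := 3) (En := eng) (mo := mog) (C1 := cd3q1) (C2 := cd0q2) (C3 := pd1)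
    rfl (fun _ => rfl) k0_pm_112

noncomputable def cut_pm_202_a : Cut := Cut.of [[⟨0, 1, 0, 67108864⟩, ⟨1, 0, 0, 67108864⟩, ⟨2, 1, 0, 67108864⟩]]

noncomputable def f_pm_202_a : ℕ → ℕ → ℕ → ℕ → Bool := onCell 0 536870912 0 536870912 649613803 48318383
    (rowB 3 eng mog cd3q2a cd0q2 pd0 0 false true false .pp 2 0 2 (qsf 0 536870912 0 536870912 0) ndB3q2a ndB0q2 pcB0 cut_pm_202_a Ext.none)

def k0_pm_202_a : ∃ t, chk3 f_pm_202_a t 1 1 1 = true :=
  ⟨(a (l 3) (b (l 3) (b (l 3) (a (l 3) (b (l 3) (a (l 3) (l 6))))))), by decide +kernel⟩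

theorem c_pm_202_a : CertB 0 536870912 0 536870912 649613803 48318383 3 eng mog cd3q2a cd0q2 pd0 false true false .pp 2 0 2
    ndB3q2a ndB0q2 pcB0 cut_pm_202_a Ext.none :=
  certB0 (fam := false) (s1 := true) (s2 := false) (a := 2) (b := 0) (c := 2) (cn := .pp) (n1 := ndB3q2a) (n2 := ndB0q2) (pc := pcB0) (cut := cut_pm_202_a) (xt := Ext.none) (P1 := 0) (W1 := 536870912) (P2 := 0) (W2 := 536870912) (P3 := 649613803) (W3 := 48318383) (N0 := 3) (En := eng) (mo := mog) (C1 := cd3q2a) (C2 := cd0q2) (C3 := pd0)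
    rfl k0_pm_202_a

noncomputable def cut_pm_202_b : Cut := Cut.of [[⟨0, 1, 0, 67108864⟩, ⟨1, 0, 0, 67108864⟩, ⟨2, 1, 0, 67108864⟩]]

noncomputable def f_pm_202_b : ℕ → ℕ → ℕ → ℕ → Bool := onCell 1239849684 370763052 0 536870912 649613803 48318383
    (rowB 3 eng mog cd3q2b cd0q2 pd0 0 false true false .pp 2 0 2 (qsf 1239849684 370763052 0 536870912 0) ndB3q2b ndB0q2 pcB0 cut_pm_202_b Ext.none)

def k0_pm_202_b : ∃ t, chk3 f_pm_202_b t 1 1 1 = true :=
  ⟨(l 3), by decide +kernel⟩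

theorem c_pm_202_b : CertB 1239849684 370763052 0 536870912 649613803 48318383 3 eng mog cd3q2b cd0q2 pd0 false true false .pp 2 0 2
    ndB3q2b ndB0q2 pcB0 cut_pm_202_b Ext.none :=
  certB0 (fam := false) (s1 := true) (s2 := false) (a := 2) (b := 0) (c := 2) (cn := .pp) (n1 := ndB3q2b) (n2 := ndB0q2) (pc := pcB0) (cut := cut_pm_202_b) (xt := Ext.none) (P1 := 1239849684) (W1 := 370763052) (P2 := 0) (W2 := 536870912) (P3 := 649613803) (W3 := 48318383) (N0 := 3) (En := eng) (mo := mog) (C1 := cd3q2b) (C2 := cd0q2) (C3 := pd0)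
    rfl k0_pm_202_b

noncomputable def f_mm_001 : ℕ → ℕ → ℕ → ℕ → Bool := onCell 0 536870912 536870912 536870912 649613803 48318383
    (rowB 3 eng mog cd3q0 cd0q1 pd0 0 false false false .up 0 0 1 (qsf 0 536870912 536870912 536870912 0) ndB3q0 ndB0q1 pcB0 Cut.none Ext.none)

def k0_mm_001 : ∃ t, chk3 f_mm_001 t 1 1 1 = true :=
  ⟨(l 5), by decide +kernel⟩

theorem c_mm_001 : CertB 0 536870912 536870912 536870912 649613803 48318383 3 eng mog cd3q0 cd0q1 pd0 false false false .up 0 0 1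
    ndB3q0 ndB0q1 pcB0 Cut.none Ext.none :=
  certB0 (fam := false) (s1 := false) (s2 := false) (a := 0) (b := 0) (c := 1) (cn := .up) (n1 := ndB3q0) (n2 := ndB0q1) (pc := pcB0) (cut := Cut.none) (xt := Ext.none) (P1 := 0) (W1 := 536870912) (P2 := 536870912) (W2 := 536870912) (P3 := 649613803) (W3 := 48318383) (N0 := 3) (En := eng) (mo := mog) (C1 := cd3q0) (C2 := cd0q1) (C3 := pd0)
    rfl k0_mm_001

noncomputable def f_mm_011 : ℕ → ℕ → ℕ → ℕ → Bool := onCell 0 536870912 536870912 536870912 649613803 48318383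
    (rowB 3 eng mog cd3q0 cd0q1 pd1 0 false false false .pnn 0 1 1 (qsf 0 536870912 536870912 536870912 1) ndB3q0 ndB0q1 pcB1 Cut.none Ext.none)

def k0_mm_011 : ∃ t, chk3 f_mm_011 t 1 1 1 = true :=
  ⟨(l 5), by decide +kernel⟩

theorem c_mm_011 : CertB 0 536870912 536870912 536870912 649613803 48318383 3 eng mog cd3q0 cd0q1 pd1 false false false .pnn 0 1 1
    ndB3q0 ndB0q1 pcB1 Cut.none Ext.none :=
  certB0 (fam := false) (s1 := false) (s2 := false) (a := 0) (b := 1) (c := 1) (cn := .pnn) (n1 := ndB3q0) (n2 := ndB0q1) (pc := pcB1) (cut := Cut.none) (xt := Ext.none) (P1 := 0) (W1 := 536870912) (P2 := 536870912) (W2 := 536870912) (P3 := 649613803) (W3 := 48318383) (N0 := 3) (En := eng) (mo := mog) (C1 := cd3q0) (C2 := cd0q1) (C3 := pd1)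
    rfl k0_mm_011

noncomputable def f_mm_012 : ℕ → ℕ → ℕ → ℕ → Bool := onCell 0 536870912 0 536870912 649613803 48318383
    (rowB 3 eng mog cd3q0 cd0q2 pd1 0 false false false .pnp 0 1 2 (qsf 0 536870912 0 536870912 1) ndB3q0 ndB0q2 pcB1 Cut.none Ext.none)

def k0_mm_012 : ∃ t, chk3 f_mm_012 t 1 1 1 = true :=
  ⟨(l 5), by decide +kernel⟩

theorem c_mm_012 : CertB 0 536870912 0 536870912 649613803 48318383 3 eng mog cd3q0 cd0q2 pd1 false false false .pnp 0 1 2
    ndB3q0 ndB0q2 pcB1 Cut.none Ext.none :=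
  certB0 (fam := false) (s1 := false) (s2 := false) (a := 0) (b := 1) (c := 2) (cn := .pnp) (n1 := ndB3q0) (n2 := ndB0q2) (pc := pcB1) (cut := Cut.none) (xt := Ext.none) (P1 := 0) (W1 := 536870912) (P2 := 0) (W2 := 536870912) (P3 := 649613803) (W3 := 48318383) (N0 := 3) (En := eng) (mo := mog) (C1 := cd3q0) (C2 := cd0q2) (C3 := pd1)
    rfl k0_mm_012

noncomputable def f_mm_022 : ℕ → ℕ → ℕ → ℕ → Bool := onCell 0 536870912 0 536870912 649613803 48318383
    (rowB 3 eng mog cd3q0 cd0q2 pd2 0 false false false .pp 0 2 2 (qsf 0 536870912 0 536870912 2) ndB3q0 ndB0q2 pcB2 Cut.none Ext.none)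

def k0_mm_022 : ∃ t, chk3 f_mm_022 t 1 1 1 = true :=
  ⟨(l 5), by decide +kernel⟩

theorem c_mm_022 : CertB 0 536870912 0 536870912 649613803 48318383 3 eng mog cd3q0 cd0q2 pd2 false false false .pp 0 2 2
    ndB3q0 ndB0q2 pcB2 Cut.none Ext.none :=
  certB0 (fam := false) (s1 := false) (s2 := false) (a := 0) (b := 2) (c := 2) (cn := .pp) (n1 := ndB3q0) (n2 := ndB0q2) (pc := pcB2) (cut := Cut.none) (xt := Ext.none) (P1 := 0) (W1 := 536870912) (P2 := 0) (W2 := 536870912) (P3 := 649613803) (W3 := 48318383) (N0 := 3) (En := eng) (mo := mog) (C1 := cd3q0) (C2 := cd0q2) (C3 := pd2)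
    rfl k0_mm_022

noncomputable def f_mm_101 : ℕ → ℕ → ℕ → ℕ → Bool := onCell 536870912 536870912 536870912 536870912 649613803 48318383
    (rowB 3 eng mog cd3q1 cd0q1 pd0 0 false false false .npn 1 0 1 (qsf 536870912 536870912 536870912 536870912 0) ndB3q1 ndB0q1 pcB0 Cut.none Ext.none)

def k0_mm_101 : ∃ t, chk3 f_mm_101 t 1 1 1 = true :=
  ⟨(l 3), by decide +kernel⟩

theorem c_mm_101 : CertB 536870912 536870912 536870912 536870912 649613803 48318383 3 eng mog cd3q1 cd0q1 pd0 false false false .npn 1 0 1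
    ndB3q1 ndB0q1 pcB0 Cut.none Ext.none :=
  certB0 (fam := false) (s1 := false) (s2 := false) (a := 1) (b := 0) (c := 1) (cn := .npn) (n1 := ndB3q1) (n2 := ndB0q1) (pc := pcB0) (cut := Cut.none) (xt := Ext.none) (P1 := 536870912) (W1 := 536870912) (P2 := 536870912) (W2 := 536870912) (P3 := 649613803) (W3 := 48318383) (N0 := 3) (En := eng) (mo := mog) (C1 := cd3q1) (C2 := cd0q1) (C3 := pd0)
    rfl k0_mm_101

noncomputable def f_mm_102 : ℕ → ℕ → ℕ → ℕ → Bool := onCell 536870912 536870912 0 536870912 649613803 48318383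
    (rowB 3 eng mog cd3q1 cd0q2 pd0 0 false false false .npp 1 0 2 (qsf 536870912 536870912 0 536870912 0) ndB3q1 ndB0q2 pcB0 Cut.none Ext.none)

def k0_mm_102 : ∃ t, chk3 f_mm_102 t 1 1 1 = true :=
  ⟨(l 5), by decide +kernel⟩

theorem c_mm_102 : CertB 536870912 536870912 0 536870912 649613803 48318383 3 eng mog cd3q1 cd0q2 pd0 false false false .npp 1 0 2
    ndB3q1 ndB0q2 pcB0 Cut.none Ext.none :=
  certB0 (fam := false) (s1 := false) (s2 := false) (a := 1) (b := 0) (c := 2) (cn := .npp) (n1 := ndB3q1) (n2 := ndB0q2) (pc := pcB0) (cut := Cut.none) (xt := Ext.none) (P1 := 536870912) (W1 := 536870912) (P2 := 0) (W2 := 536870912) (P3 := 649613803) (W3 := 48318383) (N0 := 3) (En := eng) (mo := mog) (C1 := cd3q1) (C2 := cd0q2) (C3 := pd0)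
    rfl k0_mm_102

noncomputable def f_mm_112 : ℕ → ℕ → ℕ → ℕ → Bool := onCell 536870912 536870912 0 536870912 649613803 48318383
    (rowB 3 eng mog cd3q1 cd0q2 pd1 0 false false false .dn 1 1 2 (qsf 536870912 536870912 0 536870912 1) ndB3q1 ndB0q2 pcB1 Cut.none Ext.none)

def k0_mm_112 : ∃ t, chk3 f_mm_112 t 1 1 1 = true :=
  ⟨(l 5), by decide +kernel⟩

theorem c_mm_112 : CertB 536870912 536870912 0 536870912 649613803 48318383 3 eng mog cd3q1 cd0q2 pd1 false false false .dn 1 1 2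
    ndB3q1 ndB0q2 pcB1 Cut.none Ext.none :=
  certB0 (fam := false) (s1 := false) (s2 := false) (a := 1) (b := 1) (c := 2) (cn := .dn) (n1 := ndB3q1) (n2 := ndB0q2) (pc := pcB1) (cut := Cut.none) (xt := Ext.none) (P1 := 536870912) (W1 := 536870912) (P2 := 0) (W2 := 536870912) (P3 := 649613803) (W3 := 48318383) (N0 := 3) (En := eng) (mo := mog) (C1 := cd3q1) (C2 := cd0q2) (C3 := pd1)
    rfl k0_mm_112

noncomputable def f_mm_202_a : ℕ → ℕ → ℕ → ℕ → Bool := onCell 0 536870912 0 536870912 649613803 48318383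
    (rowB 3 eng mog cd3q2a cd0q2 pd0 0 false false false .pp 2 0 2 (qsf 0 536870912 0 536870912 0) ndB3q2a ndB0q2 pcB0 Cut.none Ext.none)

def k0_mm_202_a : ∃ t, chk3 f_mm_202_a t 1 1 1 = true :=
  ⟨(l 3), by decide +kernel⟩

theorem c_mm_202_a : CertB 0 536870912 0 536870912 649613803 48318383 3 eng mog cd3q2a cd0q2 pd0 false false false .pp 2 0 2
    ndB3q2a ndB0q2 pcB0 Cut.none Ext.none :=
  certB0 (fam := false) (s1 := false) (s2 := false) (a := 2) (b := 0) (c := 2) (cn := .pp) (n1 := ndB3q2a) (n2 := ndB0q2) (pc := pcB0) (cut := Cut.none) (xt := Ext.none) (P1 := 0) (W1 := 536870912) (P2 := 0) (W2 := 536870912) (P3 := 649613803) (W3 := 48318383) (N0 := 3) (En := eng) (mo := mog) (C1 := cd3q2a) (C2 := cd0q2) (C3 := pd0)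
    rfl k0_mm_202_a

noncomputable def f_mm_202_b : ℕ → ℕ → ℕ → ℕ → Bool := onCell 1239849684 370763052 0 536870912 649613803 48318383
    (rowB 3 eng mog cd3q2b cd0q2 pd0 0 false false false .pp 2 0 2 (qsf 1239849684 370763052 0 536870912 0) ndB3q2b ndB0q2 pcB0 Cut.none Ext.none)

def k0_mm_202_b : ∃ t, chk3 f_mm_202_b t 1 1 1 = true :=
  ⟨(l 3), by decide +kernel⟩

theorem c_mm_202_b : CertB 1239849684 370763052 0 536870912 649613803 48318383 3 eng mog cd3q2b cd0q2 pd0 false false false .pp 2 0 2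
    ndB3q2b ndB0q2 pcB0 Cut.none Ext.none :=
  certB0 (fam := false) (s1 := false) (s2 := false) (a := 2) (b := 0) (c := 2) (cn := .pp) (n1 := ndB3q2b) (n2 := ndB0q2) (pc := pcB0) (cut := Cut.none) (xt := Ext.none) (P1 := 1239849684) (W1 := 370763052) (P2 := 0) (W2 := 536870912) (P3 := 649613803) (W3 := 48318383) (N0 := 3) (En := eng) (mo := mog) (C1 := cd3q2b) (C2 := cd0q2) (C3 := pd0)
    rfl k0_mm_202_b

end Pool.Agent.Strip051.G.I6050_6500.Tab.C.BB30

namespace Pool.Agent.Strip051.G.I6050_6500.Tab.C.BB31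

open Pool.Agent.Strip051.PB Pool.Agent.Strip051.PB.T
open Pool.Agent.Strip051.G.I6050_6500.Tab

noncomputable def f_pp_001 : ℕ → ℕ → ℕ → ℕ → Bool := onCell 0 536870912 0 536870912 649613803 48318383
    (rowB 3 eng mog cd3q0 cd1q1 pd0 1 false true true .up 0 0 1 (qsf 0 536870912 536870912 536870912 0) ndB3q0 ndB1q1 pcB0 Cut.none Ext.none)

def k0_pp_001 : ∃ t, chk3 f_pp_001 t 1 1 1 = true :=
  ⟨(l 3), by decide +kernel⟩

theorem c_pp_001 : CertB 0 536870912 536870912 536870912 649613803 48318383 3 eng mog cd3q0 cd1q1 pd0 false true true .up 0 0 1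
    ndB3q0 ndB1q1 pcB0 Cut.none Ext.none :=
  certB1 (fam := false) (s1 := true) (s2 := true) (a := 0) (b := 0) (c := 1) (cn := .up) (n1 := ndB3q0) (n2 := ndB1q1) (pc := pcB0) (cut := Cut.none) (xt := Ext.none) (P1 := 0) (W1 := 536870912) (P2 := 536870912) (W2 := 536870912) (P3 := 649613803) (W3 := 48318383) (N0 := 3) (En := eng) (mo := mog) (C1 := cd3q0) (C2 := cd1q1) (C3 := pd0)
    rfl (fun _ => rfl) k0_pp_001

noncomputable def f_pp_011 : ℕ → ℕ → ℕ → ℕ → Bool := onCell 0 536870912 536870912 536870912 649613803 48318383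
    (rowB 3 eng mog cd3q0 cd1q1 pd1 0 false true true .pnn 0 1 1 (qsf 0 536870912 536870912 536870912 1) ndB3q0 ndB1q1 pcB1 Cut.none Ext.none)

def k0_pp_011 : ∃ t, chk3 f_pp_011 t 1 1 1 = true :=
  ⟨(a (b (l 3) (l 3)) (l 3)), by decide +kernel⟩

theorem c_pp_011 : CertB 0 536870912 536870912 536870912 649613803 48318383 3 eng mog cd3q0 cd1q1 pd1 false true true .pnn 0 1 1
    ndB3q0 ndB1q1 pcB1 Cut.none Ext.none :=
  certB0 (fam := false) (s1 := true) (s2 := true) (a := 0) (b := 1) (c := 1) (cn := .pnn) (n1 := ndB3q0) (n2 := ndB1q1) (pc := pcB1) (cut := Cut.none) (xt := Ext.none) (P1 := 0) (W1 := 536870912) (P2 := 536870912) (W2 := 536870912) (P3 := 649613803) (W3 := 48318383) (N0 := 3) (En := eng) (mo := mog) (C1 := cd3q0) (C2 := cd1q1) (C3 := pd1)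
    rfl k0_pp_011

noncomputable def cut_pp_012_a : Cut := Cut.of [[⟨0, 0, 0, 33554432⟩, ⟨1, 1, 0, 33554432⟩, ⟨2, 1, 0, 33554432⟩]]

noncomputable def f_pp_012_a : ℕ → ℕ → ℕ → ℕ → Bool := onCell 536870912 536870912 0 536870912 649613803 48318383
    (rowB 3 eng mog cd3q0 cd1q2a pd1 2 false true true .pnp 0 1 2 (qsf 0 536870912 0 536870912 1) ndB3q0 ndB1q2a pcB1 cut_pp_012_a Ext.none)

def k0_pp_012_a : ∃ t, chk3 f_pp_012_a t 1 2 1 = true :=
  ⟨(a (a (b (l 2) (a (l 2) (b (l 2) (a (l 2) (b (l 2) (l 16591080)))))) (a (b (l 16672784) (b (b (l 16676896) (l 16680904)) (a (b (l 16667960) (l 16623920)) (l 16671064)))) (b (l 16740688) (b (b (l 16671144) (l 16683416)) (a (l 16686024) (l 16695592)))))) (a (b (a (b (l 16597288) (l 16629360)) (b (a (l 16575272) (l 16561096)) (a (l 16607672) (l 16591976)))) (a (b (a (l 16668832) (l 16657632)) (a (l 16698368) (l 16757528))) (b (a (l 16643496) (l 16626752)) (a (b (l 16673984) (l 16694360)) (l 16731176))))) (b (a (a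 (b (l 16546880) (l 16575816)) (b (l 16533152) (l 16560344))) (b (a (l 16521032) (l 16512016)) (a (l 16547192) (l 16538528)))) (a (b (a (l 16609008) (l 16612808)) (a (b (l 16638176) (l 16659944)) (b (l 16619528) (l 16640088)))) (b (a (l 16577224) (l 16567432)) (a (l 16613240) (l 16601320))))))), by decide +kernel⟩

def k1_pp_012_a : ∃ t, chk3 f_pp_012_a t 2 3 1 = true :=
  ⟨(a (b (a (l 2) (b (a (l 2) (b (l 16666816) (b (l 168208083751) (l 3)))) (l 3))) (l 3)) (b (a (b (a (b (l 16587208) (l 101099257799)) (b (l 16605864) (l 16630632))) (a (l 3) (b (l 176798106871) (l 3)))) (b (a (b (l 16624280) (l 16644408)) (b (l 16661968) (l 16637624))) (a (b (b (l 16674368) (l 180019362055)) (l 250349501175)) (b (l 16697784) (b (a (l 252496993879) (l 16738904)) (l 236390933063)))))) (l 3))), by decide +kernel⟩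

def k2_pp_012_a : ∃ t, chk3 f_pp_012_a t 6 3 1 = true :=
  ⟨(b (a (b (b (l 16706208) (a (l 16671400) (l 16685608))) (b (a (a (l 16700720) (l 16702120)) (c (l 16687520) (l 16704368))) (a (b (l 16738352) (a (l 226727266087) (l 16765952))) (a (l 16748088) (l 16743400))))) (b (a (b (l 16712680) (l 16719928)) (b (l 16700456) (l 16719624))) (a (b (l 16705056) (a (l 16735296) (l 16729088))) (b (l 16727272) (a (l 16724672) (l 16722272)))))) (b (b (a (a (a (l 3) (l 234243538647)) (b (a (l 170892745559) (l 16779560)) (a (l 3) (l 174114017031)))) (a (a (a (l 143512348759) (l 16862120)) (a (l 16772336) (l 16766424))) (a (l 16757992) (l 16749216)))) (a (l 3) (a (b (a (l 179482735495) (l 142975622839)) (l 3)) (b (a (l 16830920) (l 16776664)) (a (l 228337978311) (l 177335334903)))))) (l 3))), by decide +kernel⟩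

def k3_pp_012_a : ∃ t, chk3 f_pp_012_a t 7 3 1 = true :=
  ⟨(a (b (b (a (b (l 16682024) (l 16703880)) (b (l 16661552) (l 16682960))) (a (b (l 16724448) (l 16735832)) (b (l 16705056) (l 16727560)))) (b (a (b (b (l 16735368) (l 16726416)) (b (a (l 16767488) (l 16760560)) (a (l 123648213687) (l 16778328)))) (a (b (l 16742984) (b (l 16755416) (l 16771768))) (b (l 16745568) (l 16819880)))) (b (a (b (a (l 211694976119) (b (l 16834448) (l 168745370823))) (l 3)) (b (a (a (l 16812368) (l 16786504)) (l 16798864)) (a (a (l 207400012919) (l 200957547367)) (b (l 16821024) (b (l 80698498599) (l 176798398295)))))) (l 3)))) (b (b (a (l 16653128) (b (l 16627528) (l 16645520))) (a (b (l 16683544) (l 16621408)) (b (l 16663112) (l 16660616)))) (b (a (b (a (l 16735096) (l 16721936)) (a (b (l 16752456) (l 16755984)) (b (l 16739136) (l 16751400)))) (b (a (l 16708672) (l 16654368)) (a (a (l 16776968) (l 16791048)) (b (l 16712784) (a (l 16727568) (l 16721280)))))) (a (b (a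 (b (l 16766912) (a (l 16808576) (l 16779232))) (b (l 16760992) (b (l 16766992) (l 16795544)))) (b (a (b (a (l 200957535287) (l 172503399751)) (l 3)) (b (a (l 16806368) (l 16779512)) (a (b (l 151565427063) (l 3)) (a (l 159618481895) (l 171966504775))))) (l 3))) (b (a (b (l 16750072) (a (l 16765216) (l 16759864))) (a (b (l 16739960) (l 16753168)) (b (b (l 16730424) (l 16736448)) (b (l 16743096) (l 16728920))))) (b (a (a (b (l 16773712) (b (l 16779432) (l 16793768))) (b (l 16768552) (l 16796376))) (a (b (l 16763432) (l 6)) (l 6))) (a (b (a (b (a (l 140291121767) (l 162302820743)) (l 3)) (b (a (l 16782560) (l 6)) (l 6))) (l 3)) (l 6)))))))), by decide +kernel⟩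

theorem s4_pp_012_a : ∃ t, chk3 f_pp_012_a t 3 3 1 = true := ex3_a k2_pp_012_a k3_pp_012_a

theorem s5_pp_012_a : ∃ t, chk3 f_pp_012_a t 1 3 1 = true := ex3_a k1_pp_012_a s4_pp_012_a

theorem s6_pp_012_a : ∃ t, chk3 f_pp_012_a t 1 1 1 = true := ex3_b k0_pp_012_a s5_pp_012_a

theorem c_pp_012_a : CertB 0 536870912 0 536870912 649613803 48318383 3 eng mog cd3q0 cd1q2a pd1 false true true .pnp 0 1 2
    ndB3q0 ndB1q2a pcB1 cut_pp_012_a Ext.none :=
  certB2 (fam := false) (s1 := true) (s2 := true) (a := 0) (b := 1) (c := 2) (cn := .pnp) (n1 := ndB3q0) (n2 := ndB1q2a) (pc := pcB1) (cut := cut_pp_012_a) (xt := Ext.none) (P1 := 0) (W1 := 536870912) (P2 := 0) (W2 := 536870912) (P3 := 649613803) (W3 := 48318383) (N0 := 3) (En := eng) (mo := mog) (C1 := cd3q0) (C2 := cd1q2a) (C3 := pd1)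
    rfl (fun _ => rfl) s6_pp_012_a

noncomputable def cut_pp_012_b : Cut := Cut.of [[⟨0, 0, 0, 33554432⟩, ⟨1, 1, 0, 33554432⟩, ⟨2, 1, 0, 33554432⟩]]

noncomputable def f_pp_012_b : ℕ → ℕ → ℕ → ℕ → Bool := onCell 536870912 536870912 1239849684 370763052 649613803 48318383
    (rowB 3 eng mog cd3q0 cd1q2b pd1 2 false true true .pnp 0 1 2 (qsf 0 536870912 1239849684 370763052 1) ndB3q0 ndB1q2b pcB1 cut_pp_012_b Ext.none)

def k0_pp_012_b : ∃ t, chk3 f_pp_012_b t 1 1 1 = true :=
  ⟨(a (b (a (l 2) (b (a (l 16609560) (l 16580440)) (l 16734312))) (l 2)) (a (b (a (b (b (l 16562744) (l 16532808)) (l 16512416)) (b (b (l 16611376) (l 16484872)) (l 16448688))) (a (l 2) (l 16477584))) (b (b (a (b (l 16658632) (l 16434656)) (a (l 16596208) (b (l 16449552) (l 16370792)))) (a (l 16379632) (l 16387480))) (b (a (l 16362424) (l 16259032)) (l 16353680))))), by decide +kernel⟩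

theorem c_pp_012_b : CertB 0 536870912 1239849684 370763052 649613803 48318383 3 eng mog cd3q0 cd1q2b pd1 false true true .pnp 0 1 2
    ndB3q0 ndB1q2b pcB1 cut_pp_012_b Ext.none :=
  certB2 (fam := false) (s1 := true) (s2 := true) (a := 0) (b := 1) (c := 2) (cn := .pnp) (n1 := ndB3q0) (n2 := ndB1q2b) (pc := pcB1) (cut := cut_pp_012_b) (xt := Ext.none) (P1 := 0) (W1 := 536870912) (P2 := 1239849684) (W2 := 370763052) (P3 := 649613803) (W3 := 48318383) (N0 := 3) (En := eng) (mo := mog) (C1 := cd3q0) (C2 := cd1q2b) (C3 := pd1)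
    rfl (fun _ => rfl) k0_pp_012_b

noncomputable def cut_pp_022_a : Cut := Cut.of [[⟨0, 0, 0, 67108864⟩, ⟨1, 1, 0, 67108864⟩, ⟨2, 1, 0, 67108864⟩]]

noncomputable def f_pp_022_a : ℕ → ℕ → ℕ → ℕ → Bool := onCell 0 536870912 0 536870912 649613803 48318383
    (rowB 3 eng mog cd3q0 cd1q2a pd2 0 false true true .pp 0 2 2 (qsf 0 536870912 0 536870912 2) ndB3q0 ndB1q2a pcB2 cut_pp_022_a Ext.none)

def k0_pp_022_a : ∃ t, chk3 f_pp_022_a t 2 2 1 = true :=
  ⟨(a (b (a (a (b (a (c (b (l 16443944) (l 16449128)) (l 16450480)) (l 16512096)) (b (c (l 16481856) (l 16465992)) (a (a (l 16531872) (l 16472688)) (l 16478360)))) (b (l 16528560) (a (l 16480320) (l 16488776)))) (a (b (l 16483000) (l 16502424)) (b (l 16502672) (l 16520032)))) (a (a (b (a (b (c (l 16479680) (c (l 16473832) (l 16468240))) (c (c (l 16490520) (l 16497288)) (a (l 16475912) (l 16481648)))) (b (c (l 16488144) (l 16480968)) (c (l 16498736) (l 16511104)))) (a (b (c (c (l 16503080) (l 16519824)) (b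 (l 16507720) (l 16493760))) (c (c (l 16456888) (l 16515440)) (a (l 16523968) (l 16510416)))) (b (c (l 16512488) (b (l 16499264) (l 16507072))) (c (l 16530600) (b (l 16516192) (l 16526376)))))) (b (b (a (l 16494224) (l 16503360)) (c (l 16513528) (l 16517184))) (b (a (c (l 16523576) (l 16536632)) (l 16531584)) (a (c (l 16542944) (l 16535184)) (l 16552192))))) (a (b (b (l 16517344) (l 16573032)) (b (a (l 16542792) (l 16553816)) (a (l 16564368) (l 16576160)))) (b (c (l 16546552) (l 16541800)) (b (l 16570160) (l 16608768)))))) (a (a (b (b (l 16522280) (l 16542216)) (b (c (l 16569856) (l 16565232)) (b (l 16587576) (l 275448069895)))) (b (b (l 1) (l 1)) (l 1))) (l 1))), by decide +kernel⟩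

def k1_pp_022_a : ∃ t, chk3 f_pp_022_a t 2 3 1 = true :=
  ⟨(b (a (b (a (a (a (b (a (b (a (l 16521504) (l 16525568)) (l 16533152)) (c (l 16541256) (l 16530904))) (c (a (l 16554632) (l 16563544)) (a (l 16543864) (l 16553768)))) (b (c (l 16552352) (c (l 16483120) (l 16540488))) (c (l 16576328) (l 16568040)))) (a (b (b (l 16556984) (l 16569744)) (l 16589664)) (b (l 16640248) (l 16599824)))) (a (b (b (l 16584976) (l 16634584)) (b (l 16664304) (l 16611928))) (b (c (l 16601064) (l 16602984)) (a (l 106333710327) (l 1))))) (a (a (a (a (b (c (l 16579272) (l 16569432)) (b (l 16617296) (l 16631856))) (b (c (l 16610152) (l 16580360)) (c (l 16618432) (l 16631872)))) (b (c (l 16603368) (l 16596080)) (a (l 16625992) (l 16636608)))) (b (a (l 16618888) (l 16623824)) (a (l 16644960) (l 16648776)))) (a (b (a (l 16627728) (l 16631024)) (a (l 143377810951) (l 16696160))) (b (l 331819561671) (l 1))))) (l 1)) (a (b (a (a (b (b (a (a (c (l 16630232) (l 16622576)) (c (l 16641816)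 (l 16635232))) (l 16656152)) (a (b (a (l 16639424) (l 16651896)) (l 6)) (l 16695400))) (l 6)) (b (a (b (l 16665888) (l 16679904)) (b (l 16668976) (l 16682424))) (a (l 6) (b (l 125661232903) (l 365642567159))))) (a (b (a (b (l 16671256) (l 16684120)) (l 1)) (l 1)) (l 1))) (a (a (l 6) (a (l 6) (l 1))) (l 1))) (l 1))), by decide +kernel⟩

def k2_pp_022_a : ∃ t, chk3 f_pp_022_a t 3 1 1 = true :=
  ⟨(l 1), by decide +kernel⟩

theorem s3_pp_022_a : ∃ t, chk3 f_pp_022_a t 2 1 1 = true := ex3_b k0_pp_022_a k1_pp_022_a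

theorem s4_pp_022_a : ∃ t, chk3 f_pp_022_a t 1 1 1 = true := ex3_a s3_pp_022_a k2_pp_022_a

theorem c_pp_022_a : CertB 0 536870912 0 536870912 649613803 48318383 3 eng mog cd3q0 cd1q2a pd2 false true true .pp 0 2 2
    ndB3q0 ndB1q2a pcB2 cut_pp_022_a Ext.none :=
  certB0 (fam := false) (s1 := true) (s2 := true) (a := 0) (b := 2) (c := 2) (cn := .pp) (n1 := ndB3q0) (n2 := ndB1q2a) (pc := pcB2) (cut := cut_pp_022_a) (xt := Ext.none) (P1 := 0) (W1 := 536870912) (P2 := 0) (W2 := 536870912) (P3 := 649613803) (W3 := 48318383) (N0 := 3) (En := eng) (mo := mog) (C1 := cd3q0) (C2 := cd1q2a) (C3 := pd2)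
    rfl s4_pp_022_a

noncomputable def cut_pp_022_b : Cut := Cut.of [[⟨0, 0, 0, 67108864⟩, ⟨1, 1, 0, 67108864⟩, ⟨2, 1, 0, 67108864⟩]]

noncomputable def f_pp_022_b : ℕ → ℕ → ℕ → ℕ → Bool := onCell 0 536870912 1073741824 536870912 649613803 48318383
    (rowB 3 eng mog cd3q0 cd1q2b pd2 1 false true true .pp 0 2 2 (qsf 0 536870912 1239849684 370763052 2) ndB3q0 ndB1q2b pcB2 cut_pp_022_b Ext.none)

def k0_pp_022_b : ∃ t, chk3 f_pp_022_b t 1 1 1 = true :=
  ⟨(b (a (b (a (a (b (l 1) (a (b (l 1) (a (l 1) (l 237330144807))) (b (l 325913810631) (l 16518752)))) (b (b (l 507913163815) (l 260415661351)) (b (l 16521288) (l 16404840)))) (b (a (a (l 16457592) (l 16393304)) (l 16437248)) (a (l 16308696) (l 16203816)))) (a (b (a (b (a (b (l 151430775815) (c (l 16486880) (l 16425832))) (l 16464808)) (b (a (c (b (l 16397400) (l 16401400)) (l 16410064)) (l 16434224)) (a (c (l 16383528) (l 16363168)) (l 16305392)))) (b (l 16347808) (b (l 16332704) (l 16228408)))) (a (a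 (b (l 16409008) (l 16262080)) (l 16329656)) (l 16326600))) (b (a (b (l 16202000) (l 16177832)) (b (l 16137832) (l 16105568))) (a (l 16119784) (l 16092448))))) (b (a (b (l 16373832) (l 16138784)) (l 16183072)) (a (b (l 16240696) (l 16107880)) (b (l 16167864) (l 2))))) (b (a (a (b (a (a (l 16249032) (l 16156192)) (l 16102408)) (a (b (l 16225112) (l 16099808)) (l 16065128))) (b (l 16040728) (l 16174984))) (b (a (l 16118392) (l 2)) (l 2))) (a (a (b (a (l 16232664) (l 16067888)) (a (a (l 16091104) (l 16094528)) (l 16091472))) (b (l 16031280) (l 2))) (l 2)))), by decide +kernel⟩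

theorem c_pp_022_b : CertB 0 536870912 1239849684 370763052 649613803 48318383 3 eng mog cd3q0 cd1q2b pd2 false true true .pp 0 2 2
    ndB3q0 ndB1q2b pcB2 cut_pp_022_b Ext.none :=
  certB1 (fam := false) (s1 := true) (s2 := true) (a := 0) (b := 2) (c := 2) (cn := .pp) (n1 := ndB3q0) (n2 := ndB1q2b) (pc := pcB2) (cut := cut_pp_022_b) (xt := Ext.none) (P1 := 0) (W1 := 536870912) (P2 := 1239849684) (W2 := 370763052) (P3 := 649613803) (W3 := 48318383) (N0 := 3) (En := eng) (mo := mog) (C1 := cd3q0) (C2 := cd1q2b) (C3 := pd2)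
    rfl (fun _ => rfl) k0_pp_022_b

noncomputable def f_pp_023 : ℕ → ℕ → ℕ → ℕ → Bool := onCell 1073741824 536870912 1610612736 536870912 649613803 48318383
    (rowB 3 eng mog cd3q0 cd1q3 pd2 2 false true true .up 0 2 3 (qsf 0 536870912 1610612736 536870912 2) ndB3q0 ndB1q3 pcB2 Cut.none Ext.none)

def k0_pp_023 : ∃ t, chk3 f_pp_023 t 1 1 1 = true :=
  ⟨(a (a (b (b (l 16265872) (l 16465272)) (l 2)) (b (b (a (l 16149280) (l 16138032)) (a (l 16331912) (l 16292472))) (a (l 2) (b (l 16437688) (l 2))))) (a (b (b (a (l 16103784) (l 15995344)) (a (l 16257744) (l 16189064))) (a (l 16494360) (l 16523416))) (a (b (b (b (l 16046472) (l 16003616)) (l 16154688)) (l 16458320)) (b (b (b (l 16082624) (l 16075384)) (l 16160128)) (l 16538216))))), by decide +kernel⟩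

theorem c_pp_023 : CertB 0 536870912 1610612736 536870912 649613803 48318383 3 eng mog cd3q0 cd1q3 pd2 false true true .up 0 2 3
    ndB3q0 ndB1q3 pcB2 Cut.none Ext.none :=
  certB2 (fam := false) (s1 := true) (s2 := true) (a := 0) (b := 2) (c := 3) (cn := .up) (n1 := ndB3q0) (n2 := ndB1q3) (pc := pcB2) (cut := Cut.none) (xt := Ext.none) (P1 := 0) (W1 := 536870912) (P2 := 1610612736) (W2 := 536870912) (P3 := 649613803) (W3 := 48318383) (N0 := 3) (En := eng) (mo := mog) (C1 := cd3q0) (C2 := cd1q3) (C3 := pd2)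
    rfl (fun _ => rfl) k0_pp_023

noncomputable def f_pp_033 : ℕ → ℕ → ℕ → ℕ → Bool := onCell 0 536870912 1610612736 536870912 649613803 48318383
    (rowB 3 eng mog cd3q0 cd1q3 pd3 1 false true true .pnn 0 3 3 (qsf 0 536870912 1610612736 536870912 3) ndB3q0 ndB1q3 pcB3 Cut.none Ext.none)

def k0_pp_033 : ∃ t, chk3 f_pp_033 t 1 1 1 = true :=
  ⟨(a (b (b (a (b (a (l 16057496) (l 16060080)) (a (l 16042584) (l 16137112))) (b (l 16216720) (l 16321432))) (b (a (l 16212776) (l 4)) (l 4))) (b (l 4) (a (l 4) (a (b (l 4) (l 2)) (l 2))))) (b (b (b (l 16705880) (l 4)) (a (l 4) (a (b (l 4) (l 2)) (l 2)))) (a (b (a (b (l 4) (l 2)) (l 2)) (l 2)) (l 2)))), by decide +kernel⟩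

theorem c_pp_033 : CertB 0 536870912 1610612736 536870912 649613803 48318383 3 eng mog cd3q0 cd1q3 pd3 false true true .pnn 0 3 3
    ndB3q0 ndB1q3 pcB3 Cut.none Ext.none :=
  certB1 (fam := false) (s1 := true) (s2 := true) (a := 0) (b := 3) (c := 3) (cn := .pnn) (n1 := ndB3q0) (n2 := ndB1q3) (pc := pcB3) (cut := Cut.none) (xt := Ext.none) (P1 := 0) (W1 := 536870912) (P2 := 1610612736) (W2 := 536870912) (P3 := 649613803) (W3 := 48318383) (N0 := 3) (En := eng) (mo := mog) (C1 := cd3q0) (C2 := cd1q3) (C3 := pd3)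
    rfl (fun _ => rfl) k0_pp_033

noncomputable def f_pp_101 : ℕ → ℕ → ℕ → ℕ → Bool := onCell 536870912 536870912 536870912 536870912 649613803 48318383
    (rowB 3 eng mog cd3q1 cd1q1 pd0 0 false true true .npn 1 0 1 (qsf 536870912 536870912 536870912 536870912 0) ndB3q1 ndB1q1 pcB0 Cut.none Ext.none)

def k0_pp_101 : ∃ t, chk3 f_pp_101 t 1 1 1 = true :=
  ⟨(l 3), by decide +kernel⟩

theorem c_pp_101 : CertB 536870912 536870912 536870912 536870912 649613803 48318383 3 eng mog cd3q1 cd1q1 pd0 false true true .npn 1 0 1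
    ndB3q1 ndB1q1 pcB0 Cut.none Ext.none :=
  certB0 (fam := false) (s1 := true) (s2 := true) (a := 1) (b := 0) (c := 1) (cn := .npn) (n1 := ndB3q1) (n2 := ndB1q1) (pc := pcB0) (cut := Cut.none) (xt := Ext.none) (P1 := 536870912) (W1 := 536870912) (P2 := 536870912) (W2 := 536870912) (P3 := 649613803) (W3 := 48318383) (N0 := 3) (En := eng) (mo := mog) (C1 := cd3q1) (C2 := cd1q1) (C3 := pd0)
    rfl k0_pp_101

noncomputable def f_pp_102_a : ℕ → ℕ → ℕ → ℕ → Bool := onCell 0 536870912 0 536870912 649613803 48318383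
    (rowB 3 eng mog cd3q1 cd1q2a pd0 2 false true true .npp 1 0 2 (qsf 536870912 536870912 0 536870912 0) ndB3q1 ndB1q2a pcB0 Cut.none Ext.none)

def k0_pp_102_a : ∃ t, chk3 f_pp_102_a t 1 1 1 = true :=
  ⟨(b (b (a (a (l 2) (a (l 3) (b (b (a (a (l 213841945543) (l 16580736)) (a (l 16549736) (l 16530128))) (a (l 3) (l 175724150471))) (l 3)))) (a (a (b (a (b (l 16533960) (a (l 174113639079) (l 16575120))) (b (l 16541512) (a (l 16536560) (l 16540448)))) (a (a (l 3) (l 194514637543)) (b (a (l 166060479047) (l 128479538183)) (a (l 3) (l 160154825591))))) (b (b (l 16557584) (a (l 16547464) (l 16559392))) (a (b (a (l 16563312) (l 16547616)) (a (l 159081171415) (l 156933686263))) (a (b (l 16553328) (l 140290718631)) (b (l 16559144) (b (l 16557208) (l 16556480))))))) (a (b (b (l 16581648) (l 16577328)) (b (l 16573648) (a (b (l 16565544) (l 16564440)) (b (l 16576680) (l 16575232))))) (b (a (l 16595824) (l 16605416)) (b (l 16595608) (l 16592416)))))) (a (l 3) (a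 (a (l 3) (b (a (l 3) (b (a (l 173576645943) (l 150491269831)) (l 3))) (l 3))) (a (b (a (b (a (b (l 16561056) (l 188609074711)) (b (l 16566144) (l 16565216))) (a (l 3) (b (l 193440910903) (l 3)))) (b (b (l 16573880) (l 16572456)) (b (l 144048864087) (l 196125315063)))) (l 3)) (b (a (b (b (l 16584240) (l 16582368)) (b (l 16578688) (l 16573720))) (b (l 16594368) (b (l 16589200) (l 16583728)))) (a (b (b (l 175724221815) (l 3)) (l 3)) (b (a (l 16569896) (l 16574424)) (a (l 3) (l 162839183511))))))))) (a (l 3) (l 3))), by decide +kernel⟩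

theorem c_pp_102_a : CertB 536870912 536870912 0 536870912 649613803 48318383 3 eng mog cd3q1 cd1q2a pd0 false true true .npp 1 0 2
    ndB3q1 ndB1q2a pcB0 Cut.none Ext.none :=
  certB2 (fam := false) (s1 := true) (s2 := true) (a := 1) (b := 0) (c := 2) (cn := .npp) (n1 := ndB3q1) (n2 := ndB1q2a) (pc := pcB0) (cut := Cut.none) (xt := Ext.none) (P1 := 536870912) (W1 := 536870912) (P2 := 0) (W2 := 536870912) (P3 := 649613803) (W3 := 48318383) (N0 := 3) (En := eng) (mo := mog) (C1 := cd3q1) (C2 := cd1q2a) (C3 := pd0)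
    rfl (fun _ => rfl) k0_pp_102_a

noncomputable def f_pp_102_b : ℕ → ℕ → ℕ → ℕ → Bool := onCell 536870912 536870912 0 536870912 649613803 48318383
    (rowB 3 eng mog cd3q1 cd1q2b pd0 1 false true true .npp 1 0 2 (qsf 536870912 536870912 1239849684 370763052 0) ndB3q1 ndB1q2b pcB0 Cut.none Ext.none)

def k0_pp_102_b : ∃ t, chk3 f_pp_102_b t 1 1 1 = true :=
  ⟨(a (b (l 1) (b (l 1) (a (l 1) (b (a (l 1) (l 16615752)) (l 16687440))))) (b (b (l 1) (a (l 1) (b (a (l 1) (a (a (l 1) (b (l 1) (l 416644835111))) (l 3))) (a (a (l 204044370711) (a (l 164315869447) (a (l 16546200) (l 134251092871)))) (a (b (a (l 16538088) (l 16512552)) (a (l 16487376) (l 16460400))) (b (l 280414027527) (a (l 16432984) (l 3)))))))) (b (a (b (a (l 1) (b (l 16627720) (l 16586064))) (a (l 16663752) (l 16577856))) (b (a (b (l 16528584) (l 16469200)) (b (a (a (l 16442336) (l 16415704)) (l 150491046999)) (a (l 16393312) (l 16341984)))) (a (l 16426464) (b (a (l 16366512) (l 16318080))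 (a (l 16348408) (l 16302568)))))) (a (b (a (l 16547064) (l 16472536)) (l 16489824)) (b (a (l 16396344) (a (l 16335400) (b (l 16294648) (l 16293776)))) (a (l 16396960) (l 16327696))))))), by decide +kernel⟩

theorem c_pp_102_b : CertB 536870912 536870912 1239849684 370763052 649613803 48318383 3 eng mog cd3q1 cd1q2b pd0 false true true .npp 1 0 2
    ndB3q1 ndB1q2b pcB0 Cut.none Ext.none :=
  certB1 (fam := false) (s1 := true) (s2 := true) (a := 1) (b := 0) (c := 2) (cn := .npp) (n1 := ndB3q1) (n2 := ndB1q2b) (pc := pcB0) (cut := Cut.none) (xt := Ext.none) (P1 := 536870912) (W1 := 536870912) (P2 := 1239849684) (W2 := 370763052) (P3 := 649613803) (W3 := 48318383) (N0 := 3) (En := eng) (mo := mog) (C1 := cd3q1) (C2 := cd1q2b) (C3 := pd0)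
    rfl (fun _ => rfl) k0_pp_102_b

noncomputable def f_pp_112_a : ℕ → ℕ → ℕ → ℕ → Bool := onCell 536870912 536870912 0 536870912 649613803 48318383
    (rowB 3 eng mog cd3q1 cd1q2a pd1 2 false true true .dn 1 1 2 (qsf 536870912 536870912 0 536870912 1) ndB3q1 ndB1q2a pcB1 Cut.none Ext.none)

def k0_pp_112_a : ∃ t, chk3 f_pp_112_a t 1 1 1 = true :=
  ⟨(a (b (a (b (b (l 16598864) (a (l 16602816) (l 16614000))) (a (b (a (b (l 16601480) (b (l 16599848) (l 16596224))) (l 16610032)) (a (b (b (l 16590312) (l 16579248)) (b (l 16625752) (l 147270041799))) (b (b (l 16600880) (l 16591184)) (b (l 16575888) (l 16555000))))) (b (b (l 16618984) (l 16618848)) (a (b (l 16606440) (b (l 16588808) (l 16570144))) (b (l 16614040) (b (l 16599512) (l 16584176))))))) (a (b (l 151431003223) (a (b (l 70363434919) (b (l 16618392) (l 16601680))) (l 1))) (l 1))) (a (b (b (a (a (l 3) (b (b (l 96267197143) (l 3)) (l 3))) (b (a (b (l 16544368) (l 16512296)) (a (l 16543328) (l 16552768)))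 (a (l 3) (b (l 95193423719) (l 3))))) (l 3)) (l 3)) (b (l 1) (l 1)))) (l 1)), by decide +kernel⟩

theorem c_pp_112_a : CertB 536870912 536870912 0 536870912 649613803 48318383 3 eng mog cd3q1 cd1q2a pd1 false true true .dn 1 1 2
    ndB3q1 ndB1q2a pcB1 Cut.none Ext.none :=
  certB2 (fam := false) (s1 := true) (s2 := true) (a := 1) (b := 1) (c := 2) (cn := .dn) (n1 := ndB3q1) (n2 := ndB1q2a) (pc := pcB1) (cut := Cut.none) (xt := Ext.none) (P1 := 536870912) (W1 := 536870912) (P2 := 0) (W2 := 536870912) (P3 := 649613803) (W3 := 48318383) (N0 := 3) (En := eng) (mo := mog) (C1 := cd3q1) (C2 := cd1q2a) (C3 := pd1)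
    rfl (fun _ => rfl) k0_pp_112_a

noncomputable def f_pp_112_b : ℕ → ℕ → ℕ → ℕ → Bool := onCell 536870912 536870912 1239849684 370763052 649613803 48318383
    (rowB 3 eng mog cd3q1 cd1q2b pd1 2 false true true .dn 1 1 2 (qsf 536870912 536870912 1239849684 370763052 1) ndB3q1 ndB1q2b pcB1 Cut.none Ext.none)

def k0_pp_112_b : ∃ t, chk3 f_pp_112_b t 1 1 1 = true :=
  ⟨(a (b (a (b (l 16699856) (l 16545056)) (b (l 160558019335) (l 16552744))) (a (a (b (l 16494896) (b (l 16467624) (l 16444904))) (b (l 16552256) (l 16561560))) (a (l 16610704) (l 16620608)))) (b (a (a (l 304439312839) (l 390338058215)) (l 1)) (a (a (l 16587640) (l 16518448)) (l 325913919927)))), by decide +kernel⟩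

theorem c_pp_112_b : CertB 536870912 536870912 1239849684 370763052 649613803 48318383 3 eng mog cd3q1 cd1q2b pd1 false true true .dn 1 1 2
    ndB3q1 ndB1q2b pcB1 Cut.none Ext.none :=
  certB2 (fam := false) (s1 := true) (s2 := true) (a := 1) (b := 1) (c := 2) (cn := .dn) (n1 := ndB3q1) (n2 := ndB1q2b) (pc := pcB1) (cut := Cut.none) (xt := Ext.none) (P1 := 536870912) (W1 := 536870912) (P2 := 1239849684) (W2 := 370763052) (P3 := 649613803) (W3 := 48318383) (N0 := 3) (En := eng) (mo := mog) (C1 := cd3q1) (C2 := cd1q2b) (C3 := pd1)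
    rfl (fun _ => rfl) k0_pp_112_b

noncomputable def f_pp_113 : ℕ → ℕ → ℕ → ℕ → Bool := onCell 536870912 536870912 536870912 536870912 649613803 48318383
    (rowB 3 eng mog cd3q1 cd1q3 pd1 1 false true true .nn 1 1 3 (qsf 536870912 536870912 1610612736 536870912 1) ndB3q1 ndB1q3 pcB1 Cut.none Ext.none)

def k0_pp_113 : ∃ t, chk3 f_pp_113 t 1 1 1 = true :=
  ⟨(b (a (b (l 1) (l 292091395335)) (b (a (l 16564816) (b (a (l 16458904) (l 16412816)) (l 16540760))) (a (l 16723544) (b (l 16766008) (l 16904024))))) (a (b (a (l 329135405655) (l 16736136)) (l 260415612199)) (b (a (l 17257832) (l 16982504)) (a (l 17035920) (l 16973248))))), by decide +kernel⟩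

theorem c_pp_113 : CertB 536870912 536870912 1610612736 536870912 649613803 48318383 3 eng mog cd3q1 cd1q3 pd1 false true true .nn 1 1 3
    ndB3q1 ndB1q3 pcB1 Cut.none Ext.none :=
  certB1 (fam := false) (s1 := true) (s2 := true) (a := 1) (b := 1) (c := 3) (cn := .nn) (n1 := ndB3q1) (n2 := ndB1q3) (pc := pcB1) (cut := Cut.none) (xt := Ext.none) (P1 := 536870912) (W1 := 536870912) (P2 := 1610612736) (W2 := 536870912) (P3 := 649613803) (W3 := 48318383) (N0 := 3) (En := eng) (mo := mog) (C1 := cd3q1) (C2 := cd1q3) (C3 := pd1)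
    rfl (fun _ => rfl) k0_pp_113

noncomputable def f_pp_123 : ℕ → ℕ → ℕ → ℕ → Bool := onCell 1073741824 536870912 1610612736 536870912 649613803 48318383
    (rowB 3 eng mog cd3q1 cd1q3 pd2 2 false true true .npn 1 2 3 (qsf 536870912 536870912 1610612736 536870912 2) ndB3q1 ndB1q3 pcB2 Cut.none Ext.none)

def k0_pp_123 : ∃ t, chk3 f_pp_123 t 1 1 1 = true :=
  ⟨(a (b (a (b (l 16385752) (l 16716432)) (a (l 391948983831) (l 437583035239))) (a (b (l 16776488) (a (l 16791760) (l 16665600))) (b (a (l 16595368) (l 16569152)) (l 16815936)))) (a (a (b (l 455299873111) (l 16592432)) (b (l 1) (l 16603872))) (b (l 1) (a (l 16626920) (l 16645272))))), by decide +kernel⟩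

theorem c_pp_123 : CertB 536870912 536870912 1610612736 536870912 649613803 48318383 3 eng mog cd3q1 cd1q3 pd2 false true true .npn 1 2 3
    ndB3q1 ndB1q3 pcB2 Cut.none Ext.none :=
  certB2 (fam := false) (s1 := true) (s2 := true) (a := 1) (b := 2) (c := 3) (cn := .npn) (n1 := ndB3q1) (n2 := ndB1q3) (pc := pcB2) (cut := Cut.none) (xt := Ext.none) (P1 := 536870912) (W1 := 536870912) (P2 := 1610612736) (W2 := 536870912) (P3 := 649613803) (W3 := 48318383) (N0 := 3) (En := eng) (mo := mog) (C1 := cd3q1) (C2 := cd1q3) (C3 := pd2)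
    rfl (fun _ => rfl) k0_pp_123

noncomputable def f_pp_133 : ℕ → ℕ → ℕ → ℕ → Bool := onCell 1610612736 536870912 1610612736 536870912 649613803 48318383
    (rowB 3 eng mog cd3q1 cd1q3 pd3 2 false true true .dn 1 3 3 (qsf 536870912 536870912 1610612736 536870912 3) ndB3q1 ndB1q3 pcB3 Cut.none Ext.none)

def k0_pp_133 : ∃ t, chk3 f_pp_133 t 1 1 1 = true :=
  ⟨(a (b (l 1) (a (a (l 16658600) (l 1)) (l 1))) (l 1)), by decide +kernel⟩

theorem c_pp_133 : CertB 536870912 536870912 1610612736 536870912 649613803 48318383 3 eng mog cd3q1 cd1q3 pd3 false true true .dn 1 3 3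
    ndB3q1 ndB1q3 pcB3 Cut.none Ext.none :=
  certB2 (fam := false) (s1 := true) (s2 := true) (a := 1) (b := 3) (c := 3) (cn := .dn) (n1 := ndB3q1) (n2 := ndB1q3) (pc := pcB3) (cut := Cut.none) (xt := Ext.none) (P1 := 536870912) (W1 := 536870912) (P2 := 1610612736) (W2 := 536870912) (P3 := 649613803) (W3 := 48318383) (N0 := 3) (En := eng) (mo := mog) (C1 := cd3q1) (C2 := cd1q3) (C3 := pd3)
    rfl (fun _ => rfl) k0_pp_133

noncomputable def f_pp_202_aa : ℕ → ℕ → ℕ → ℕ → Bool := onCell 0 536870912 0 536870912 649613803 48318383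
    (rowB 3 eng mog cd3q2a cd1q2a pd0 0 false true true .pp 2 0 2 (qsf 0 536870912 0 536870912 0) ndB3q2a ndB1q2a pcB0 Cut.none Ext.none)

def k0_pp_202_aa : ∃ t, chk3 f_pp_202_aa t 1 1 1 = true :=
  ⟨(l 3), by decide +kernel⟩

theorem c_pp_202_aa : CertB 0 536870912 0 536870912 649613803 48318383 3 eng mog cd3q2a cd1q2a pd0 false true true .pp 2 0 2
    ndB3q2a ndB1q2a pcB0 Cut.none Ext.none :=
  certB0 (fam := false) (s1 := true) (s2 := true) (a := 2) (b := 0) (c := 2) (cn := .pp) (n1 := ndB3q2a) (n2 := ndB1q2a) (pc := pcB0) (cut := Cut.none) (xt := Ext.none) (P1 := 0) (W1 := 536870912) (P2 := 0) (W2 := 536870912) (P3 := 649613803) (W3 := 48318383) (N0 := 3) (En := eng) (mo := mog) (C1 := cd3q2a) (C2 := cd1q2a) (C3 := pd0)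
    rfl k0_pp_202_aa

noncomputable def f_pp_202_ab : ℕ → ℕ → ℕ → ℕ → Bool := onCell 0 536870912 1239849684 370763052 649613803 48318383
    (rowB 3 eng mog cd3q2a cd1q2b pd0 0 false true true .pp 2 0 2 (qsf 0 536870912 1239849684 370763052 0) ndB3q2a ndB1q2b pcB0 Cut.none Ext.none)

def k0_pp_202_ab : ∃ t, chk3 f_pp_202_ab t 1 1 1 = true :=
  ⟨(l 3), by decide +kernel⟩

theorem c_pp_202_ab : CertB 0 536870912 1239849684 370763052 649613803 48318383 3 eng mog cd3q2a cd1q2b pd0 false true true .pp 2 0 2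
    ndB3q2a ndB1q2b pcB0 Cut.none Ext.none :=
  certB0 (fam := false) (s1 := true) (s2 := true) (a := 2) (b := 0) (c := 2) (cn := .pp) (n1 := ndB3q2a) (n2 := ndB1q2b) (pc := pcB0) (cut := Cut.none) (xt := Ext.none) (P1 := 0) (W1 := 536870912) (P2 := 1239849684) (W2 := 370763052) (P3 := 649613803) (W3 := 48318383) (N0 := 3) (En := eng) (mo := mog) (C1 := cd3q2a) (C2 := cd1q2b) (C3 := pd0)
    rfl k0_pp_202_ab

noncomputable def f_pp_202_ba : ℕ → ℕ → ℕ → ℕ → Bool := onCell 1239849684 370763052 0 536870912 649613803 48318383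
    (rowB 3 eng mog cd3q2b cd1q2a pd0 0 false true true .pp 2 0 2 (qsf 1239849684 370763052 0 536870912 0) ndB3q2b ndB1q2a pcB0 Cut.none Ext.none)

def k0_pp_202_ba : ∃ t, chk3 f_pp_202_ba t 1 1 1 = true :=
  ⟨(l 3), by decide +kernel⟩

theorem c_pp_202_ba : CertB 1239849684 370763052 0 536870912 649613803 48318383 3 eng mog cd3q2b cd1q2a pd0 false true true .pp 2 0 2
    ndB3q2b ndB1q2a pcB0 Cut.none Ext.none :=
  certB0 (fam := false) (s1 := true) (s2 := true) (a := 2) (b := 0) (c := 2) (cn := .pp) (n1 := ndB3q2b) (n2 := ndB1q2a) (pc := pcB0) (cut := Cut.none) (xt := Ext.none) (P1 := 1239849684) (W1 := 370763052) (P2 := 0) (W2 := 536870912) (P3 := 649613803) (W3 := 48318383) (N0 := 3) (En := eng) (mo := mog) (C1 := cd3q2b) (C2 := cd1q2a) (C3 := pd0)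
    rfl k0_pp_202_ba

noncomputable def f_pp_202_bb : ℕ → ℕ → ℕ → ℕ → Bool := onCell 1239849684 370763052 1239849684 370763052 649613803 48318383
    (rowB 3 eng mog cd3q2b cd1q2b pd0 0 false true true .pp 2 0 2 (qsf 1239849684 370763052 1239849684 370763052 0) ndB3q2b ndB1q2b pcB0 Cut.none Ext.none)

def k0_pp_202_bb : ∃ t, chk3 f_pp_202_bb t 1 1 1 = true :=
  ⟨(l 3), by decide +kernel⟩

theorem c_pp_202_bb : CertB 1239849684 370763052 1239849684 370763052 649613803 48318383 3 eng mog cd3q2b cd1q2b pd0 false true true .pp 2 0 2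
    ndB3q2b ndB1q2b pcB0 Cut.none Ext.none :=
  certB0 (fam := false) (s1 := true) (s2 := true) (a := 2) (b := 0) (c := 2) (cn := .pp) (n1 := ndB3q2b) (n2 := ndB1q2b) (pc := pcB0) (cut := Cut.none) (xt := Ext.none) (P1 := 1239849684) (W1 := 370763052) (P2 := 1239849684) (W2 := 370763052) (P3 := 649613803) (W3 := 48318383) (N0 := 3) (En := eng) (mo := mog) (C1 := cd3q2b) (C2 := cd1q2b) (C3 := pd0)
    rfl k0_pp_202_bb

noncomputable def f_pp_203_a : ℕ → ℕ → ℕ → ℕ → Bool := onCell 0 536870912 0 536870912 649613803 48318383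
    (rowB 3 eng mog cd3q2a cd1q3 pd0 1 false true true .up 2 0 3 (qsf 0 536870912 1610612736 536870912 0) ndB3q2a ndB1q3 pcB0 Cut.none Ext.none)

def k0_pp_203_a : ∃ t, chk3 f_pp_203_a t 1 1 1 = true :=
  ⟨(l 3), by decide +kernel⟩

theorem c_pp_203_a : CertB 0 536870912 1610612736 536870912 649613803 48318383 3 eng mog cd3q2a cd1q3 pd0 false true true .up 2 0 3
    ndB3q2a ndB1q3 pcB0 Cut.none Ext.none :=
  certB1 (fam := false) (s1 := true) (s2 := true) (a := 2) (b := 0) (c := 3) (cn := .up) (n1 := ndB3q2a) (n2 := ndB1q3) (pc := pcB0) (cut := Cut.none) (xt := Ext.none) (P1 := 0) (W1 := 536870912) (P2 := 1610612736) (W2 := 536870912) (P3 := 649613803) (W3 := 48318383) (N0 := 3) (En := eng) (mo := mog) (C1 := cd3q2a) (C2 := cd1q3) (C3 := pd0)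
    rfl (fun _ => rfl) k0_pp_203_a

noncomputable def f_pp_203_b : ℕ → ℕ → ℕ → ℕ → Bool := onCell 1239849684 370763052 1610612736 536870912 649613803 48318383
    (rowB 3 eng mog cd3q2b cd1q3 pd0 0 false true true .up 2 0 3 (qsf 1239849684 370763052 1610612736 536870912 0) ndB3q2b ndB1q3 pcB0 Cut.none Ext.none)

def k0_pp_203_b : ∃ t, chk3 f_pp_203_b t 1 1 1 = true :=
  ⟨(l 3), by decide +kernel⟩

theorem c_pp_203_b : CertB 1239849684 370763052 1610612736 536870912 649613803 48318383 3 eng mog cd3q2b cd1q3 pd0 false true true .up 2 0 3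
    ndB3q2b ndB1q3 pcB0 Cut.none Ext.none :=
  certB0 (fam := false) (s1 := true) (s2 := true) (a := 2) (b := 0) (c := 3) (cn := .up) (n1 := ndB3q2b) (n2 := ndB1q3) (pc := pcB0) (cut := Cut.none) (xt := Ext.none) (P1 := 1239849684) (W1 := 370763052) (P2 := 1610612736) (W2 := 536870912) (P3 := 649613803) (W3 := 48318383) (N0 := 3) (En := eng) (mo := mog) (C1 := cd3q2b) (C2 := cd1q3) (C3 := pd0)
    rfl k0_pp_203_b

noncomputable def cut_pp_213_a : Cut := Cut.of [[⟨0, 1, 0, 67108864⟩, ⟨1, 1, 0, 67108864⟩, ⟨2, 2, 0, 16777216⟩]]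

noncomputable def f_pp_213_a : ℕ → ℕ → ℕ → ℕ → Bool := onCell 0 536870912 1610612736 536870912 649613803 48318383
    (rowB 3 eng mog cd3q2a cd1q3 pd1 0 false true true .pnn 2 1 3 (qsf 0 536870912 1610612736 536870912 1) ndB3q2a ndB1q3 pcB1 cut_pp_213_a Ext.none)

def k0_pp_213_a : ∃ t, chk3 f_pp_213_a t 1 1 1 = true :=
  ⟨(b (l 3) (a (l 3) (b (l 3) (a (l 3) (b (l 3) (a (l 3) (b (l 3) (b (l 3) (b (l 3) (l 6)))))))))), by decide +kernel⟩

theorem c_pp_213_a : CertB 0 536870912 1610612736 536870912 649613803 48318383 3 eng mog cd3q2a cd1q3 pd1 false true true .pnn 2 1 3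
    ndB3q2a ndB1q3 pcB1 cut_pp_213_a Ext.none :=
  certB0 (fam := false) (s1 := true) (s2 := true) (a := 2) (b := 1) (c := 3) (cn := .pnn) (n1 := ndB3q2a) (n2 := ndB1q3) (pc := pcB1) (cut := cut_pp_213_a) (xt := Ext.none) (P1 := 0) (W1 := 536870912) (P2 := 1610612736) (W2 := 536870912) (P3 := 649613803) (W3 := 48318383) (N0 := 3) (En := eng) (mo := mog) (C1 := cd3q2a) (C2 := cd1q3) (C3 := pd1)
    rfl k0_pp_213_a

noncomputable def cut_pp_213_b : Cut := Cut.of [[⟨0, 1, 0, 67108864⟩, ⟨1, 1, 0, 67108864⟩, ⟨2, 2, 0, 16777216⟩]]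

noncomputable def f_pp_213_b : ℕ → ℕ → ℕ → ℕ → Bool := onCell 1239849684 370763052 1610612736 536870912 649613803 48318383
    (rowB 3 eng mog cd3q2b cd1q3 pd1 0 false true true .pnn 2 1 3 (qsf 1239849684 370763052 1610612736 536870912 1) ndB3q2b ndB1q3 pcB1 cut_pp_213_b Ext.none)

def k0_pp_213_b : ∃ t, chk3 f_pp_213_b t 1 1 1 = true :=
  ⟨(l 3), by decide +kernel⟩

theorem c_pp_213_b : CertB 1239849684 370763052 1610612736 536870912 649613803 48318383 3 eng mog cd3q2b cd1q3 pd1 false true true .pnn 2 1 3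
    ndB3q2b ndB1q3 pcB1 cut_pp_213_b Ext.none :=
  certB0 (fam := false) (s1 := true) (s2 := true) (a := 2) (b := 1) (c := 3) (cn := .pnn) (n1 := ndB3q2b) (n2 := ndB1q3) (pc := pcB1) (cut := cut_pp_213_b) (xt := Ext.none) (P1 := 1239849684) (W1 := 370763052) (P2 := 1610612736) (W2 := 536870912) (P3 := 649613803) (W3 := 48318383) (N0 := 3) (En := eng) (mo := mog) (C1 := cd3q2b) (C2 := cd1q3) (C3 := pd1)
    rfl k0_pp_213_b

noncomputable def f_pp_303 : ℕ → ℕ → ℕ → ℕ → Bool := onCell 1610612736 536870912 1610612736 536870912 649613803 48318383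
    (rowB 3 eng mog cd3q3 cd1q3 pd0 0 false true true .npn 3 0 3 (qsf 1610612736 536870912 1610612736 536870912 0) ndB3q3 ndB1q3 pcB0 Cut.none Ext.none)

def k0_pp_303 : ∃ t, chk3 f_pp_303 t 1 1 1 = true :=
  ⟨(l 3), by decide +kernel⟩

theorem c_pp_303 : CertB 1610612736 536870912 1610612736 536870912 649613803 48318383 3 eng mog cd3q3 cd1q3 pd0 false true true .npn 3 0 3
    ndB3q3 ndB1q3 pcB0 Cut.none Ext.none :=
  certB0 (fam := false) (s1 := true) (s2 := true) (a := 3) (b := 0) (c := 3) (cn := .npn) (n1 := ndB3q3) (n2 := ndB1q3) (pc := pcB0) (cut := Cut.none) (xt := Ext.none) (P1 := 1610612736) (W1 := 536870912) (P2 := 1610612736) (W2 := 536870912) (P3 := 649613803) (W3 := 48318383) (N0 := 3) (En := eng) (mo := mog) (C1 := cd3q3) (C2 := cd1q3) (C3 := pd0)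
    rfl k0_pp_303

noncomputable def f_pp_313 : ℕ → ℕ → ℕ → ℕ → Bool := onCell 1610612736 536870912 1610612736 536870912 649613803 48318383
    (rowB 3 eng mog cd3q3 cd1q3 pd1 0 false true true .dn 3 1 3 (qsf 1610612736 536870912 1610612736 536870912 1) ndB3q3 ndB1q3 pcB1 Cut.none Ext.none)

def k0_pp_313 : ∃ t, chk3 f_pp_313 t 1 1 1 = true :=
  ⟨(l 3), by decide +kernel⟩

theorem c_pp_313 : CertB 1610612736 536870912 1610612736 536870912 649613803 48318383 3 eng mog cd3q3 cd1q3 pd1 false true true .dn 3 1 3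
    ndB3q3 ndB1q3 pcB1 Cut.none Ext.none :=
  certB0 (fam := false) (s1 := true) (s2 := true) (a := 3) (b := 1) (c := 3) (cn := .dn) (n1 := ndB3q3) (n2 := ndB1q3) (pc := pcB1) (cut := Cut.none) (xt := Ext.none) (P1 := 1610612736) (W1 := 536870912) (P2 := 1610612736) (W2 := 536870912) (P3 := 649613803) (W3 := 48318383) (N0 := 3) (En := eng) (mo := mog) (C1 := cd3q3) (C2 := cd1q3) (C3 := pd1)
    rfl k0_pp_313

noncomputable def f_pm_001 : ℕ → ℕ → ℕ → ℕ → Bool := onCell 0 536870912 536870912 536870912 649613803 48318383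
    (rowB 3 eng mog cd3q0 cd1q1 pd0 0 false true false .up 0 0 1 (qsf 0 536870912 536870912 536870912 0) ndB3q0 ndB1q1 pcB0 Cut.none Ext.none)

def k0_pm_001 : ∃ t, chk3 f_pm_001 t 1 1 1 = true :=
  ⟨(b (l 4) (l 4)), by decide +kernel⟩

theorem c_pm_001 : CertB 0 536870912 536870912 536870912 649613803 48318383 3 eng mog cd3q0 cd1q1 pd0 false true false .up 0 0 1
    ndB3q0 ndB1q1 pcB0 Cut.none Ext.none :=
  certB0 (fam := false) (s1 := true) (s2 := false) (a := 0) (b := 0) (c := 1) (cn := .up) (n1 := ndB3q0) (n2 := ndB1q1) (pc := pcB0) (cut := Cut.none) (xt := Ext.none) (P1 := 0) (W1 := 536870912) (P2 := 536870912) (W2 := 536870912) (P3 := 649613803) (W3 := 48318383) (N0 := 3) (En := eng) (mo := mog) (C1 := cd3q0) (C2 := cd1q1) (C3 := pd0)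
    rfl k0_pm_001

noncomputable def f_pm_011 : ℕ → ℕ → ℕ → ℕ → Bool := onCell 0 536870912 536870912 536870912 649613803 48318383
    (rowB 3 eng mog cd3q0 cd1q1 pd1 0 false true false .pnn 0 1 1 (qsf 0 536870912 536870912 536870912 1) ndB3q0 ndB1q1 pcB1 Cut.none Ext.none)

def k0_pm_011 : ∃ t, chk3 f_pm_011 t 1 1 1 = true :=
  ⟨(b (l 4) (l 4)), by decide +kernel⟩

theorem c_pm_011 : CertB 0 536870912 536870912 536870912 649613803 48318383 3 eng mog cd3q0 cd1q1 pd1 false true false .pnn 0 1 1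
    ndB3q0 ndB1q1 pcB1 Cut.none Ext.none :=
  certB0 (fam := false) (s1 := true) (s2 := false) (a := 0) (b := 1) (c := 1) (cn := .pnn) (n1 := ndB3q0) (n2 := ndB1q1) (pc := pcB1) (cut := Cut.none) (xt := Ext.none) (P1 := 0) (W1 := 536870912) (P2 := 536870912) (W2 := 536870912) (P3 := 649613803) (W3 := 48318383) (N0 := 3) (En := eng) (mo := mog) (C1 := cd3q0) (C2 := cd1q1) (C3 := pd1)
    rfl k0_pm_011

noncomputable def cut_pm_012_a : Cut := Cut.of [[⟨0, 0, 0, 67108864⟩, ⟨1, 1, 0, 67108864⟩, ⟨2, 1, 0, 67108864⟩]]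

noncomputable def f_pm_012_a : ℕ → ℕ → ℕ → ℕ → Bool := onCell 536870912 536870912 0 536870912 649613803 48318383
    (rowB 3 eng mog cd3q0 cd1q2a pd1 2 false true false .pnp 0 1 2 (qsf 0 536870912 0 536870912 1) ndB3q0 ndB1q2a pcB1 cut_pm_012_a Ext.none)

def k0_pm_012_a : ∃ t, chk3 f_pm_012_a t 2 1 1 = true :=
  ⟨(b (b (a (l 2) (l 16600192)) (a (b (l 2) (l 16509752)) (a (l 16488448) (l 16462488)))) (a (b (b (l 16461024) (l 16477632)) (b (a (l 16373648) (l 16381592)) (a (l 16596584) (b (l 16371040) (l 16373680))))) (b (b (l 16492904) (a (l 16404816) (l 16402736))) (a (b (l 16497024) (b (l 16395536) (l 16409152))) (b (b (l 16401464) (l 16410512)) (b (l 16426160) (a (l 16439344) (l 16462176)))))))), by decide +kernel⟩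

def k1_pm_012_a : ∃ t, chk3 f_pm_012_a t 3 1 1 = true :=
  ⟨(b (a (b (a (l 16493336) (l 16463568)) (a (b (l 16449056) (l 16426944)) (b (l 16423104) (l 16407208)))) (b (a (l 16441728) (a (l 16427712) (l 16421048))) (a (b (l 16408592) (l 16485416)) (a (b (l 16400208) (l 16401504)) (b (l 16397144) (l 16404648)))))) (a (b (a (b (l 16409480) (l 16551480)) (b (l 16507264) (a (l 16410960) (l 16421336)))) (b (a (a (l 16422304) (a (l 16454128) (l 16522904))) (a (b (l 16434760) (l 16587568)) (b (l 16451112) (l 16505368)))) (b (b (a (l 16456056) (a (l 16486216) (l 16511920))) (a (l 16471320) (a (l 16507056) (l 16535432)))) (a (b (l 16699352) (l 4)) (b (a (l 16531024) (l 16562256)) (l 4)))))) (b (a (b (a (l 16408144) (l 16414448)) (a (l 16434688) (l 16450528))) (a (b (l 16423768) (b (l 16454368) (l 16484328))) (b (b (l 16425088) (l 16445176)) (b (l 16472032) (l 16547736))))) (b (a (a (b (l 16472408) (l 16613624)) (b (l 16495904) (b (l 16525536) (l 16568768))))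 (a (b (l 16520904) (a (l 16557840) (l 16571928))) (b (a (l 16539560) (l 16552712)) (a (l 16586688) (a (l 16598200) (l 16606120)))))) (a (b (a (a (l 16651088) (b (l 16550632) (l 16618208))) (b (a (l 16565608) (l 16580752)) (a (l 16654464) (b (l 16601256) (l 16614352))))) (b (a (l 16700808) (a (l 16643840) (l 16659640))) (l 4))) (b (b (a (a (l 16595360) (l 16610824)) (a (l 16627736) (l 6))) (a (a (b (l 16615960) (l 16756664)) (l 16724424)) (l 6))) (a (a (b (a (l 16715160) (l 16723120)) (l 4)) (b (a (l 16731232) (l 6)) (l 6))) (l 6)))))))), by decide +kernel⟩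

theorem s2_pm_012_a : ∃ t, chk3 f_pm_012_a t 1 1 1 = true := ex3_a k0_pm_012_a k1_pm_012_a

theorem c_pm_012_a : CertB 0 536870912 0 536870912 649613803 48318383 3 eng mog cd3q0 cd1q2a pd1 false true false .pnp 0 1 2
    ndB3q0 ndB1q2a pcB1 cut_pm_012_a Ext.none :=
  certB2 (fam := false) (s1 := true) (s2 := false) (a := 0) (b := 1) (c := 2) (cn := .pnp) (n1 := ndB3q0) (n2 := ndB1q2a) (pc := pcB1) (cut := cut_pm_012_a) (xt := Ext.none) (P1 := 0) (W1 := 536870912) (P2 := 0) (W2 := 536870912) (P3 := 649613803) (W3 := 48318383) (N0 := 3) (En := eng) (mo := mog) (C1 := cd3q0) (C2 := cd1q2a) (C3 := pd1)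
    rfl (fun _ => rfl) s2_pm_012_a

noncomputable def cut_pm_012_b : Cut := Cut.of [[⟨0, 0, 0, 67108864⟩, ⟨1, 1, 0, 67108864⟩, ⟨2, 1, 0, 67108864⟩]]

noncomputable def f_pm_012_b : ℕ → ℕ → ℕ → ℕ → Bool := onCell 536870912 536870912 1239849684 370763052 649613803 48318383
    (rowB 3 eng mog cd3q0 cd1q2b pd1 2 false true false .pnp 0 1 2 (qsf 0 536870912 1239849684 370763052 1) ndB3q0 ndB1q2b pcB1 cut_pm_012_b Ext.none)

def k0_pm_012_b : ∃ t, chk3 f_pm_012_b t 1 1 1 = true :=
  ⟨(a (b (a (l 2) (b (a (l 16570080) (l 16534848)) (l 16554160))) (l 2)) (b (a (b (a (l 16494592) (b (l 16472088) (l 16430792))) (a (l 16468408) (l 16400184))) (b (a (b (l 16438168) (l 16380984)) (a (l 16396888) (l 16524032))) (a (l 16329424) (l 16313696)))) (a (a (l 2) (l 16452768)) (b (a (l 16325128) (l 16217448)) (l 16335496))))), by decide +kernel⟩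

theorem c_pm_012_b : CertB 0 536870912 1239849684 370763052 649613803 48318383 3 eng mog cd3q0 cd1q2b pd1 false true false .pnp 0 1 2
    ndB3q0 ndB1q2b pcB1 cut_pm_012_b Ext.none :=
  certB2 (fam := false) (s1 := true) (s2 := false) (a := 0) (b := 1) (c := 2) (cn := .pnp) (n1 := ndB3q0) (n2 := ndB1q2b) (pc := pcB1) (cut := cut_pm_012_b) (xt := Ext.none) (P1 := 0) (W1 := 536870912) (P2 := 1239849684) (W2 := 370763052) (P3 := 649613803) (W3 := 48318383) (N0 := 3) (En := eng) (mo := mog) (C1 := cd3q0) (C2 := cd1q2b) (C3 := pd1)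
    rfl (fun _ => rfl) k0_pm_012_b

noncomputable def cut_pm_022_a : Cut := Cut.of [[⟨0, 0, 0, 67108864⟩, ⟨1, 1, 0, 67108864⟩, ⟨2, 1, 0, 67108864⟩]]

noncomputable def f_pm_022_a : ℕ → ℕ → ℕ → ℕ → Bool := onCell 0 536870912 0 536870912 649613803 48318383
    (rowB 3 eng mog cd3q0 cd1q2a pd2 0 false true false .pp 0 2 2 (qsf 0 536870912 0 536870912 2) ndB3q0 ndB1q2a pcB2 cut_pm_022_a Ext.none)

def k0_pm_022_a : ∃ t, chk3 f_pm_022_a t 2 2 1 = true :=
  ⟨(a (b (a (a (b (c (l 16487056) (l 16446200)) (a (b (l 16450016) (l 16456312)) (l 16451008))) (b (l 16445912) (l 16425312))) (b (l 16476040) (a (l 16437456) (l 16425592)))) (b (a (b (a (a (l 16464424) (l 16459488)) (l 16450232)) (a (a (b (l 16472368) (l 16478816)) (l 16469080)) (l 16457008))) (b (a (l 16434728) (l 16415504)) (l 16488720))) (a (a (b (a (b (l 16485928) (l 16494320)) (l 16481632)) (a (a (b (l 16506080) (l 16519240)) (l 16527424)) (l 16519392))) (b (l 16466576) (l 16501032))) (a (b (l 16442248)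 (l 16450888)) (l 16457072))))) (a (a (b (b (l 16437048) (l 16408640)) (b (l 16388048) (l 16375608))) (b (l 2564665198567) (l 1))) (l 1))), by decide +kernel⟩

def k1_pm_022_a : ∃ t, chk3 f_pm_022_a t 2 3 1 = true :=
  ⟨(a (b (a (a (b (a (b (a (b (l 16528096) (l 16540560)) (b (l 16522400) (l 16534320))) (a (b (l 16553960) (l 16564832)) (l 16553928))) (b (b (l 16513152) (l 16524216)) (l 16542472))) (a (b (a (b (l 16574944) (a (l 16585272) (l 16585720))) (l 16581056)) (a (b (a (l 16596624) (l 16597064)) (a (l 16610080) (l 16610520))) (l 16604336))) (b (l 16568456) (l 16596240)))) (b (b (a (l 16504464) (l 16488728)) (a (l 16525720) (l 16507312))) (b (a (l 16548944) (l 16527608)) (a (l 16594640) (l 16549072))))) (b (a (b (l 16462384) (l 16476632)) (b (l 16422112) (l 16429968))) (a (b (l 16513136) (a (l 16522456) (l 16493808))) (b (l 16438480) (l 1))))) (a (a (b (b (a (b (a (a (l 16624440) (l 16624872)) (l 16625352)) (a (b (l 16635896) (l 6)) (l 16640568)))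 (a (l 16630160) (l 16617720))) (l 6)) (l 6)) (a (b (b (b (l 16591656) (l 16604200)) (l 6)) (l 6)) (b (b (l 16611704) (b (l 16584856) (l 16594584))) (l 1)))) (b (b (a (a (l 16560256) (l 1)) (l 1)) (l 1)) (l 1)))) (b (l 1) (l 1))), by decide +kernel⟩

def k2_pm_022_a : ∃ t, chk3 f_pm_022_a t 3 1 1 = true :=
  ⟨(l 1), by decide +kernel⟩

theorem s3_pm_022_a : ∃ t, chk3 f_pm_022_a t 2 1 1 = true := ex3_b k0_pm_022_a k1_pm_022_a

theorem s4_pm_022_a : ∃ t, chk3 f_pm_022_a t 1 1 1 = true := ex3_a s3_pm_022_a k2_pm_022_a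

theorem c_pm_022_a : CertB 0 536870912 0 536870912 649613803 48318383 3 eng mog cd3q0 cd1q2a pd2 false true false .pp 0 2 2
    ndB3q0 ndB1q2a pcB2 cut_pm_022_a Ext.none :=
  certB0 (fam := false) (s1 := true) (s2 := false) (a := 0) (b := 2) (c := 2) (cn := .pp) (n1 := ndB3q0) (n2 := ndB1q2a) (pc := pcB2) (cut := cut_pm_022_a) (xt := Ext.none) (P1 := 0) (W1 := 536870912) (P2 := 0) (W2 := 536870912) (P3 := 649613803) (W3 := 48318383) (N0 := 3) (En := eng) (mo := mog) (C1 := cd3q0) (C2 := cd1q2a) (C3 := pd2)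
    rfl s4_pm_022_a

noncomputable def cut_pm_022_b : Cut := Cut.of [[⟨0, 0, 0, 67108864⟩, ⟨1, 1, 0, 67108864⟩, ⟨2, 1, 0, 67108864⟩]]

noncomputable def f_pm_022_b : ℕ → ℕ → ℕ → ℕ → Bool := onCell 0 536870912 1073741824 536870912 649613803 48318383
    (rowB 3 eng mog cd3q0 cd1q2b pd2 1 false true false .pp 0 2 2 (qsf 0 536870912 1239849684 370763052 2) ndB3q0 ndB1q2b pcB2 cut_pm_022_b Ext.none)

def k0_pm_022_b : ∃ t, chk3 f_pm_022_b t 1 1 1 = true :=
  ⟨(b (a (b (a (a (b (l 1) (b (l 461742077447) (a (l 376916607223) (l 16444312)))) (b (b (l 383359213735) (l 16676672)) (a (l 16557616) (l 16344328)))) (a (b (a (l 16412880) (l 16344184)) (l 16341992)) (b (l 16258576) (l 16172072)))) (a (b (a (b (a (a (a (l 16571544) (l 16470056)) (l 16423072)) (l 16372872)) (b (a (c (l 16430088) (l 16386976)) (l 16323376)) (a (l 16391320) (l 16299272)))) (b (l 16365080) (b (l 16238216) (l 16218664)))) (a (a (a (l 16408904) (l 16279400)) (l 16282992)) (b (l 16193360) (l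 16151696)))) (b (a (b (l 16183888) (l 16144936)) (l 16107608)) (a (l 16113288) (l 16088776))))) (b (a (b (l 16219608) (l 16113336)) (l 16169488)) (a (b (l 16214880) (l 16112040)) (b (l 16182520) (l 2))))) (b (a (a (b (a (b (l 16247024) (l 16121104)) (l 16072400)) (a (a (b (l 16110736) (l 16078272)) (l 16053648)) (l 16160056))) (b (a (l 16050368) (l 16063272)) (l 16172688))) (b (a (l 16135576) (l 2)) (l 2))) (a (a (b (a (a (l 16089840) (l 16031976)) (l 16003400)) (a (l 16026920) (l 16009352))) (b (l 15920400) (l 2))) (l 2)))), by decide +kernel⟩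

theorem c_pm_022_b : CertB 0 536870912 1239849684 370763052 649613803 48318383 3 eng mog cd3q0 cd1q2b pd2 false true false .pp 0 2 2
    ndB3q0 ndB1q2b pcB2 cut_pm_022_b Ext.none :=
  certB1 (fam := false) (s1 := true) (s2 := false) (a := 0) (b := 2) (c := 2) (cn := .pp) (n1 := ndB3q0) (n2 := ndB1q2b) (pc := pcB2) (cut := cut_pm_022_b) (xt := Ext.none) (P1 := 0) (W1 := 536870912) (P2 := 1239849684) (W2 := 370763052) (P3 := 649613803) (W3 := 48318383) (N0 := 3) (En := eng) (mo := mog) (C1 := cd3q0) (C2 := cd1q2b) (C3 := pd2)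
    rfl (fun _ => rfl) k0_pm_022_b

noncomputable def f_pm_023 : ℕ → ℕ → ℕ → ℕ → Bool := onCell 1073741824 536870912 1610612736 536870912 649613803 48318383
    (rowB 3 eng mog cd3q0 cd1q3 pd2 2 false true false .up 0 2 3 (qsf 0 536870912 1610612736 536870912 2) ndB3q0 ndB1q3 pcB2 Cut.none Ext.none)

def k0_pm_023 : ∃ t, chk3 f_pm_023 t 1 1 1 = true :=
  ⟨(a (a (b (b (l 16234536) (l 16433600)) (l 2)) (b (a (b (l 16136200) (l 16316824)) (b (l 16125664) (l 16277624))) (b (a (l 2) (l 16423144)) (l 2)))) (a (b (b (a (l 16096144) (l 16002920)) (a (l 16243080) (l 16179016))) (a (l 16484432) (l 16325552))) (b (b (a (l 16232640) (b (l 16037400) (l 16025328))) (a (l 16133688) (l 16132992))) (a (l 16492128) (l 16531448))))), by decide +kernel⟩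

theorem c_pm_023 : CertB 0 536870912 1610612736 536870912 649613803 48318383 3 eng mog cd3q0 cd1q3 pd2 false true false .up 0 2 3
    ndB3q0 ndB1q3 pcB2 Cut.none Ext.none :=
  certB2 (fam := false) (s1 := true) (s2 := false) (a := 0) (b := 2) (c := 3) (cn := .up) (n1 := ndB3q0) (n2 := ndB1q3) (pc := pcB2) (cut := Cut.none) (xt := Ext.none) (P1 := 0) (W1 := 536870912) (P2 := 1610612736) (W2 := 536870912) (P3 := 649613803) (W3 := 48318383) (N0 := 3) (En := eng) (mo := mog) (C1 := cd3q0) (C2 := cd1q3) (C3 := pd2)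
    rfl (fun _ => rfl) k0_pm_023

noncomputable def f_pm_033 : ℕ → ℕ → ℕ → ℕ → Bool := onCell 0 536870912 1610612736 536870912 649613803 48318383
    (rowB 3 eng mog cd3q0 cd1q3 pd3 1 false true false .pnn 0 3 3 (qsf 0 536870912 1610612736 536870912 3) ndB3q0 ndB1q3 pcB3 Cut.none Ext.none)

def k0_pm_033 : ∃ t, chk3 f_pm_033 t 1 1 1 = true :=
  ⟨(a (b (b (a (b (a (l 16019976) (l 16022904)) (b (l 16028136) (l 16103976))) (b (l 16206344) (l 4))) (l 4)) (b (l 4) (a (l 4) (a (b (l 4) (l 2)) (l 2))))) (b (b (b (l 16557520) (l 4)) (a (l 4) (a (b (l 4) (l 2)) (l 2)))) (a (b (a (b (l 4) (l 2)) (l 2)) (l 2)) (l 2)))), by decide +kernel⟩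

theorem c_pm_033 : CertB 0 536870912 1610612736 536870912 649613803 48318383 3 eng mog cd3q0 cd1q3 pd3 false true false .pnn 0 3 3
    ndB3q0 ndB1q3 pcB3 Cut.none Ext.none :=
  certB1 (fam := false) (s1 := true) (s2 := false) (a := 0) (b := 3) (c := 3) (cn := .pnn) (n1 := ndB3q0) (n2 := ndB1q3) (pc := pcB3) (cut := Cut.none) (xt := Ext.none) (P1 := 0) (W1 := 536870912) (P2 := 1610612736) (W2 := 536870912) (P3 := 649613803) (W3 := 48318383) (N0 := 3) (En := eng) (mo := mog) (C1 := cd3q0) (C2 := cd1q3) (C3 := pd3)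
    rfl (fun _ => rfl) k0_pm_033

noncomputable def f_pm_101 : ℕ → ℕ → ℕ → ℕ → Bool := onCell 0 536870912 536870912 536870912 649613803 48318383
    (rowB 3 eng mog cd3q1 cd1q1 pd0 2 false true false .npn 1 0 1 (qsf 536870912 536870912 536870912 536870912 0) ndB3q1 ndB1q1 pcB0 Cut.none Ext.none)

def k0_pm_101 : ∃ t, chk3 f_pm_101 t 1 1 1 = true :=
  ⟨(b (l 4) (b (l 4) (b (a (b (l 4) (a (a (a (b (l 16183768) (l 16173872)) (b (l 4) (l 16166560))) (a (l 16169216) (l 4))) (l 4))) (l 4)) (b (a (a (a (a (b (l 16178472) (l 16188664)) (l 16160480)) (a (b (l 16132056) (l 16124592)) (b (a (l 16116464) (l 16124752)) (l 16123128)))) (a (a (b (l 4) (l 16135064)) (l 16194072)) (l 4))) (l 4)) (a (a (a (b (a (a (l 16220216) (l 16193728)) (l 16166144)) (a (b (l 16210328) (l 16214760)) (l 16174088))) (a (l 16170184) (a (l 16151920) (l 16152384)))) (a (a (l 16152640) (l 16219880)) (a (l 16164800) (l 16174352)))) (a (a (a (l 16184856) (l 16196016)) (l 4)) (l 4))))))),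 by decide +kernel⟩

theorem c_pm_101 : CertB 536870912 536870912 536870912 536870912 649613803 48318383 3 eng mog cd3q1 cd1q1 pd0 false true false .npn 1 0 1
    ndB3q1 ndB1q1 pcB0 Cut.none Ext.none :=
  certB2 (fam := false) (s1 := true) (s2 := false) (a := 1) (b := 0) (c := 1) (cn := .npn) (n1 := ndB3q1) (n2 := ndB1q1) (pc := pcB0) (cut := Cut.none) (xt := Ext.none) (P1 := 536870912) (W1 := 536870912) (P2 := 536870912) (W2 := 536870912) (P3 := 649613803) (W3 := 48318383) (N0 := 3) (En := eng) (mo := mog) (C1 := cd3q1) (C2 := cd1q1) (C3 := pd0)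
    rfl (fun _ => rfl) k0_pm_101

end Pool.Agent.Strip051.G.I6050_6500.Tab.C.BB31

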