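import Pool.Agent.Strip051.G.I6050_6500.Tab
import Pool.Agent.Strip051.PB.ExtD2

/-! # Certificates B38 (generated) -/

set_option linter.all false
set_option maxRecDepth 100000

namespace Pool.Agent.Strip051.G.I6050_6500.Tab.C.BB36

open Pool.Agent.Strip051.PB Pool.Agent.Strip051.PB.T
open Pool.Agent.Strip051.G.I6050_6500.Tab

noncomputable def f_pp_022 : ℕ → ℕ → ℕ → ℕ → Bool := onCell 0 536870912 1073741824 536870912 649613803 48318383
    (rowB 3 eng mog cd3q0 cd6q2 pd2 1 false true true .pp 0 2 2 (qsf 0 536870912 1073741824 536870912 2) ndB3q0 ndB6q2 pcB2 Cut.none Ext.none)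

def k0_pp_022 : ∃ t, chk3 f_pp_022 t 1 4 1 = true :=
  ⟨(a (b (l 3) (a (l 3) (b (l 3) (a (l 3) (b (l 3) (a (l 16560336) (l 16538544))))))) (b (a (l 3) (b (l 3) (a (l 3) (l 16574152)))) (b (a (a (l 3) (b (l 3) (l 16556704))) (a (l 118816007671) (l 16543848))) (a (b (a (l 16552168) (l 16543312)) (a (l 16534816) (l 16527032))) (a (b (l 16535056) (l 16520352)) (l 2)))))), by decide +kernel⟩

def k1_pp_022 : ∃ t, chk3 f_pp_022 t 2 20 1 = true :=
  ⟨(b (a (a (l 3) (b (l 3) (a (l 3) (l 471540037191)))) (a (b (l 335711750231) (a (l 16506008) (l 16509776))) (b (a (l 16523896) (l 16522208)) (a (l 16510904) (l 16511576))))) (b (a (a (a (l 3) (b (l 3) (c (l 874193041223) (l 1135112263127)))) (a (b (l 692730761831) (a (l 16474696) (l 16479440))) (b (l 16491040) (l 16483440)))) (a (a (b (l 16495384) (l 16488232)) (l 16497784)) (a (l 16505008) (l 16512688)))) (a (a (b (b (a (l 3) (a (l 16456160) (l 16453360))) (a (a (l 3) (a (a (l 16441312) (l 16442544)) (l 16446544)))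 (c (l 16458952) (l 16457656)))) (b (a (a (c (b (l 16441672) (c (l 16440168) (l 16439216))) (b (l 16443096) (a (l 16442920) (l 16438792)))) (a (b (l 16439728) (a (l 16437112) (l 16439608))) (b (l 16444536) (l 16443296)))) (c (b (l 16456680) (a (l 16451264) (l 16458824))) (b (l 16455496) (l 16454312)))) (a (a (a (b (b (b (l 16376640) (c (l 16459664) (l 16440888))) (l 16375320)) (l 16373608)) (b (b (b (l 16436352) (l 16435912)) (l 16435216)) (l 16433728))) (c (a (l 16437744) (l 16442720)) (l 16439968))) (c (l 16470248) (l 16452568))))) (b (a (b (l 16472328) (l 16469008)) (l 16476216)) (b (a (l 16508088) (l 16471192)) (a (a (a (l 16459360) (l 16461800)) (l 16527640)) (l 16469504))))) (a (b (a (l 16482480) (l 16492488)) (b (a (l 16480152) (l 16493592)) (a (l 16481232) (l 16496536)))) (b (l 16510672) (b (l 16514168) (a (l 16512576) (l 16523408)))))))), by decide +kernel⟩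

def k2_pp_022 : ∃ t, chk3 f_pp_022 t 2 21 1 = true :=
  ⟨(a (a (a (a (a (b (c (b (l 16426424) (l 16411584)) (l 16421136)) (l 16242320)) (b (c (b (l 16427312) (l 16415840)) (l 16416928)) (l 16398848))) (b (c (l 16365568) (l 16429256)) (l 16404624))) (a (b (l 16435992) (l 16409240)) (l 16470432))) (a (a (l 16431360) (l 16435960)) (l 16445360))) (a (a (l 16464216) (l 16486704)) (l 16513168))), by decide +kernel⟩

def k3_pp_022 : ∃ t, chk3 f_pp_022 t 3 10 1 = true :=
  ⟨(b (b (a (a (b (l 16518704) (l 16513200)) (l 16504704)) (a (l 16499744) (l 2))) (a (b (a (l 16518896) (l 16499000)) (b (a (l 16524504) (l 16505224)) (a (b (l 16526392) (l 16530168)) (l 16521192)))) (l 2))) (a (a (l 16532504) (l 16534216)) (l 2))), by decide +kernel⟩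

def k4_pp_022 : ∃ t, chk3 f_pp_022 t 1 11 1 = true :=
  ⟨(a (b (a (a (a (c (l 16507440) (l 16347272)) (a (l 16360456) (l 16367928))) (a (l 16382584) (l 16406456))) (a (a (l 16437048) (l 16468560)) (l 16501952))) (a (a (a (b (l 16304032) (l 16275984)) (l 16313344)) (a (l 16344320) (l 16379584))) (a (l 16499888) (l 16492952)))) (a (a (l 16532216) (l 16545816)) (l 2))), by decide +kernel⟩

def k5_pp_022 : ∃ t, chk3 f_pp_022 t 1 3 1 = true :=
  ⟨(a (b (a (a (b (a (b (a (l 16232448) (l 16248384)) (a (l 16193920) (l 16215968))) (b (l 16339584) (l 16252704))) (a (b (l 16225696) (l 16176792)) (b (l 16240984) (l 16240496)))) (b (a (b (l 16319752) (l 16304720)) (b (l 16365312) (l 16354152))) (a (l 16296968) (l 16348560)))) (b (a (a (l 16548872) (l 16438552)) (l 16484712)) (a (l 16415840) (l 16492376)))) (a (a (b (a (b (l 16182072) (l 16197064)) (l 16276768)) (a (b (l 16221240) (l 16253016)) (l 16304176))) (b (l 16342776) (a (l 16365144) (l 2)))) (b (a (l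 16444384) (l 2)) (l 2)))) (b (a (b (a (l 16594912) (l 2)) (l 2)) (l 2)) (l 2))), by decide +kernel⟩

theorem s6_pp_022 : ∃ t, chk3 f_pp_022 t 2 10 1 = true := ex3_b k1_pp_022 k2_pp_022

theorem s7_pp_022 : ∃ t, chk3 f_pp_022 t 1 10 1 = true := ex3_a s6_pp_022 k3_pp_022

theorem s8_pp_022 : ∃ t, chk3 f_pp_022 t 1 5 1 = true := ex3_b s7_pp_022 k4_pp_022

theorem s9_pp_022 : ∃ t, chk3 f_pp_022 t 1 2 1 = true := ex3_b k0_pp_022 s8_pp_022

theorem s10_pp_022 : ∃ t, chk3 f_pp_022 t 1 1 1 = true := ex3_b s9_pp_022 k5_pp_022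

theorem c_pp_022 : CertB 0 536870912 1073741824 536870912 649613803 48318383 3 eng mog cd3q0 cd6q2 pd2 false true true .pp 0 2 2
    ndB3q0 ndB6q2 pcB2 Cut.none Ext.none :=
  certB1 (fam := false) (s1 := true) (s2 := true) (a := 0) (b := 2) (c := 2) (cn := .pp) (n1 := ndB3q0) (n2 := ndB6q2) (pc := pcB2) (cut := Cut.none) (xt := Ext.none) (P1 := 0) (W1 := 536870912) (P2 := 1073741824) (W2 := 536870912) (P3 := 649613803) (W3 := 48318383) (N0 := 3) (En := eng) (mo := mog) (C1 := cd3q0) (C2 := cd6q2) (C3 := pd2)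
    rfl (fun _ => rfl) s10_pp_022

noncomputable def f_pp_023 : ℕ → ℕ → ℕ → ℕ → Bool := onCell 1073741824 536870912 0 1230186008 649613803 48318383
    (rowB 3 eng mog cd3q0 cd6q3 pd2 2 false true true .up 0 2 3 (qsf 0 536870912 0 1230186008 2) ndB3q0 ndB6q3 pcB2 Cut.none Ext.none)

def k0_pp_023 : ∃ t, chk3 f_pp_023 t 1 1 1 = true :=
  ⟨(b (a (l 2) (a (l 2) (b (l 16661936) (a (l 16668816) (l 16687816))))) (a (a (b (l 2) (b (l 2) (a (a (l 16734536) (l 16676144)) (a (b (l 16677536) (l 16604760)) (b (l 16640112) (l 16585768)))))) (b (a (l 2) (b (l 2) (l 16618800))) (b (a (a (l 16790968) (l 16640720)) (l 16596704)) (a (a (a (l 16587000) (a (l 16578688) (b (l 16611112) (a (l 16547200) (l 16547432))))) (b (l 16584144) (l 16520056))) (b (l 16513552) (l 16519672)))))) (b (a (b (l 16622112) (l 16598696)) (b (l 16639896) (l 16606512))) (a (b (a (l 16518120) (l 16486784)) (b (a (l 16497608) (l 16490736)) (a (l 16501696) (l 16442344)))) (b (a (l 16511128)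 (l 16494576)) (b (a (l 16441792) (l 16371600)) (a (l 16366328) (l 16282528)))))))), by decide +kernel⟩

theorem c_pp_023 : CertB 0 536870912 0 1230186008 649613803 48318383 3 eng mog cd3q0 cd6q3 pd2 false true true .up 0 2 3
    ndB3q0 ndB6q3 pcB2 Cut.none Ext.none :=
  certB2 (fam := false) (s1 := true) (s2 := true) (a := 0) (b := 2) (c := 3) (cn := .up) (n1 := ndB3q0) (n2 := ndB6q3) (pc := pcB2) (cut := Cut.none) (xt := Ext.none) (P1 := 0) (W1 := 536870912) (P2 := 0) (W2 := 1230186008) (P3 := 649613803) (W3 := 48318383) (N0 := 3) (En := eng) (mo := mog) (C1 := cd3q0) (C2 := cd6q3) (C3 := pd2)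
    rfl (fun _ => rfl) k0_pp_023

noncomputable def f_pp_033 : ℕ → ℕ → ℕ → ℕ → Bool := onCell 1610612736 536870912 0 1230186008 649613803 48318383
    (rowB 3 eng mog cd3q0 cd6q3 pd3 2 false true true .pnn 0 3 3 (qsf 0 536870912 0 1230186008 3) ndB3q0 ndB6q3 pcB3 Cut.none Ext.none)

def k0_pp_033 : ∃ t, chk3 f_pp_033 t 1 1 1 = true :=
  ⟨(b (b (a (a (l 16650040) (l 16585584)) (l 4)) (a (a (a (l 16633896) (l 16600072)) (a (b (l 16578352) (l 16534376)) (l 16512152))) (a (a (l 16697344) (a (l 16428504) (l 16404312))) (a (l 4) (l 4))))) (b (a (a (a (b (l 16583904) (l 16504152)) (b (l 16522992) (b (l 16453104) (l 16391056)))) (a (a (b (l 16478736) (b (l 16403752) (a (l 16347080) (l 16330680)))) (b (l 16449984) (b (l 16378088) (a (l 16332296) (l 16323744))))) (b (b (l 16432064) (l 16387424)) (b (l 16337496) (a (l 16298800) (l 16268496)))))) (b (a (a (a (l 16383016) (l 16366952)) (a (l 503618123495) (l 876743382311))) (a (a (l 930967319607) (l 1)) (l 1)))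 (a (a (b (a (l 16307768) (l 16292536)) (a (l 595422423751) (l 606159897815))) (a (b (l 700649368471) (l 1)) (l 1))) (l 1)))) (a (b (a (a (b (l 16401104) (l 16315576)) (b (l 16316216) (a (l 16249088) (l 16221392)))) (a (a (b (a (l 16275984) (l 16260344)) (a (l 16201688) (l 448856280663))) (b (a (l 16265112) (l 16257520)) (a (l 455836027831) (l 457446367271)))) (b (a (l 500933252087) (b (l 511133587751) (l 1))) (l 1)))) (a (b (a (l 16242688) (a (l 375842221111) (l 377989614887))) (a (b (l 16183240) (l 375842252935)) (b (l 371009996327) (l 1)))) (b (a (a (b (l 408054322551) (l 1)) (l 1)) (l 1)) (l 1)))) (l 1)))), by decide +kernel⟩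

theorem c_pp_033 : CertB 0 536870912 0 1230186008 649613803 48318383 3 eng mog cd3q0 cd6q3 pd3 false true true .pnn 0 3 3
    ndB3q0 ndB6q3 pcB3 Cut.none Ext.none :=
  certB2 (fam := false) (s1 := true) (s2 := true) (a := 0) (b := 3) (c := 3) (cn := .pnn) (n1 := ndB3q0) (n2 := ndB6q3) (pc := pcB3) (cut := Cut.none) (xt := Ext.none) (P1 := 0) (W1 := 536870912) (P2 := 0) (W2 := 1230186008) (P3 := 649613803) (W3 := 48318383) (N0 := 3) (En := eng) (mo := mog) (C1 := cd3q0) (C2 := cd6q3) (C3 := pd3)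
    rfl (fun _ => rfl) k0_pp_033

noncomputable def f_pp_101 : ℕ → ℕ → ℕ → ℕ → Bool := onCell 536870912 536870912 536870912 536870912 649613803 48318383
    (rowB 3 eng mog cd3q1 cd6q1 pd0 0 false true true .npn 1 0 1 (qsf 536870912 536870912 536870912 536870912 0) ndB3q1 ndB6q1 pcB0 Cut.none Ext.none)

def k0_pp_101 : ∃ t, chk3 f_pp_101 t 1 1 1 = true :=
  ⟨(l 3), by decide +kernel⟩

theorem c_pp_101 : CertB 536870912 536870912 536870912 536870912 649613803 48318383 3 eng mog cd3q1 cd6q1 pd0 false true true .npn 1 0 1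
    ndB3q1 ndB6q1 pcB0 Cut.none Ext.none :=
  certB0 (fam := false) (s1 := true) (s2 := true) (a := 1) (b := 0) (c := 1) (cn := .npn) (n1 := ndB3q1) (n2 := ndB6q1) (pc := pcB0) (cut := Cut.none) (xt := Ext.none) (P1 := 536870912) (W1 := 536870912) (P2 := 536870912) (W2 := 536870912) (P3 := 649613803) (W3 := 48318383) (N0 := 3) (En := eng) (mo := mog) (C1 := cd3q1) (C2 := cd6q1) (C3 := pd0)
    rfl k0_pp_101

noncomputable def f_pp_102 : ℕ → ℕ → ℕ → ℕ → Bool := onCell 536870912 536870912 0 536870912 649613803 48318383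
    (rowB 3 eng mog cd3q1 cd6q2 pd0 1 false true true .npp 1 0 2 (qsf 536870912 536870912 1073741824 536870912 0) ndB3q1 ndB6q2 pcB0 Cut.none Ext.none)

def k0_pp_102 : ∃ t, chk3 f_pp_102 t 1 1 1 = true :=
  ⟨(l 3), by decide +kernel⟩

theorem c_pp_102 : CertB 536870912 536870912 1073741824 536870912 649613803 48318383 3 eng mog cd3q1 cd6q2 pd0 false true true .npp 1 0 2
    ndB3q1 ndB6q2 pcB0 Cut.none Ext.none :=
  certB1 (fam := false) (s1 := true) (s2 := true) (a := 1) (b := 0) (c := 2) (cn := .npp) (n1 := ndB3q1) (n2 := ndB6q2) (pc := pcB0) (cut := Cut.none) (xt := Ext.none) (P1 := 536870912) (W1 := 536870912) (P2 := 1073741824) (W2 := 536870912) (P3 := 649613803) (W3 := 48318383) (N0 := 3) (En := eng) (mo := mog) (C1 := cd3q1) (C2 := cd6q2) (C3 := pd0)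
    rfl (fun _ => rfl) k0_pp_102

noncomputable def f_pp_112 : ℕ → ℕ → ℕ → ℕ → Bool := onCell 536870912 536870912 1073741824 536870912 649613803 48318383
    (rowB 3 eng mog cd3q1 cd6q2 pd1 2 false true true .dn 1 1 2 (qsf 536870912 536870912 1073741824 536870912 1) ndB3q1 ndB6q2 pcB1 Cut.none Ext.none)

def k0_pp_112 : ∃ t, chk3 f_pp_112 t 1 1 1 = true :=
  ⟨(l 3), by decide +kernel⟩

theorem c_pp_112 : CertB 536870912 536870912 1073741824 536870912 649613803 48318383 3 eng mog cd3q1 cd6q2 pd1 false true true .dn 1 1 2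
    ndB3q1 ndB6q2 pcB1 Cut.none Ext.none :=
  certB2 (fam := false) (s1 := true) (s2 := true) (a := 1) (b := 1) (c := 2) (cn := .dn) (n1 := ndB3q1) (n2 := ndB6q2) (pc := pcB1) (cut := Cut.none) (xt := Ext.none) (P1 := 536870912) (W1 := 536870912) (P2 := 1073741824) (W2 := 536870912) (P3 := 649613803) (W3 := 48318383) (N0 := 3) (En := eng) (mo := mog) (C1 := cd3q1) (C2 := cd6q2) (C3 := pd1)
    rfl (fun _ => rfl) k0_pp_112

noncomputable def f_pp_113 : ℕ → ℕ → ℕ → ℕ → Bool := onCell 536870912 536870912 0 1230186008 649613803 48318383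
    (rowB 3 eng mog cd3q1 cd6q3 pd1 2 false true true .nn 1 1 3 (qsf 536870912 536870912 0 1230186008 1) ndB3q1 ndB6q3 pcB1 Cut.none Ext.none)

def k0_pp_113 : ∃ t, chk3 f_pp_113 t 1 1 1 = true :=
  ⟨(a (b (l 2) (b (l 3) (l 3))) (b (a (l 2) (a (b (l 2) (b (l 16741352) (a (l 16819336) (l 16775704)))) (b (l 16776152) (b (l 16796512) (l 16818264))))) (a (b (a (l 3) (l 3)) (l 3)) (b (a (b (a (l 391547056903) (l 293836687047)) (a (l 3) (l 317458033015))) (a (b (l 16841256) (a (l 304036473927) (l 16737184))) (b (l 16891752) (l 16941800)))) (a (l 3) (b (a (l 250886282279) (l 16990904)) (l 3))))))), by decide +kernel⟩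

theorem c_pp_113 : CertB 536870912 536870912 0 1230186008 649613803 48318383 3 eng mog cd3q1 cd6q3 pd1 false true true .nn 1 1 3
    ndB3q1 ndB6q3 pcB1 Cut.none Ext.none :=
  certB2 (fam := false) (s1 := true) (s2 := true) (a := 1) (b := 1) (c := 3) (cn := .nn) (n1 := ndB3q1) (n2 := ndB6q3) (pc := pcB1) (cut := Cut.none) (xt := Ext.none) (P1 := 536870912) (W1 := 536870912) (P2 := 0) (W2 := 1230186008) (P3 := 649613803) (W3 := 48318383) (N0 := 3) (En := eng) (mo := mog) (C1 := cd3q1) (C2 := cd6q3) (C3 := pd1)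
    rfl (fun _ => rfl) k0_pp_113

noncomputable def f_pp_123 : ℕ → ℕ → ℕ → ℕ → Bool := onCell 1073741824 536870912 0 1230186008 649613803 48318383
    (rowB 3 eng mog cd3q1 cd6q3 pd2 2 false true true .npn 1 2 3 (qsf 536870912 536870912 0 1230186008 2) ndB3q1 ndB6q3 pcB2 Cut.none Ext.none)

def k0_pp_123 : ∃ t, chk3 f_pp_123 t 1 1 1 = true :=
  ⟨(a (a (b (b (a (l 16754496) (l 16658400)) (a (b (l 16806152) (l 16866408)) (l 16739536))) (b (b (a (l 16953168) (l 16850920)) (a (l 17041344) (l 16936912))) (a (b (b (l 17085616) (l 56540273287)) (a (l 16876568) (l 16784928))) (a (b (l 16979192) (l 311955796519)) (b (l 16865832) (l 330746394743)))))) (b (b (a (l 16592712) (l 16612608)) (a (b (l 16623752) (l 16673896)) (l 16647200))) (b (a (b (a (l 16769264) (l 16722528)) (a (l 16854624) (l 16797848))) (b (l 16713776) (l 16764808))) (b (a (a (l 16796872) (l 16744664)) (l 16712816)) (a (a (a (l 16689272) (l 1)) (l 1)) (l 1)))))) (b (a (b (b (l 16653568) (l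 16660848)) (b (l 16673904) (l 16684960))) (b (l 16720008) (a (l 16724800) (l 16755600)))) (b (a (b (l 16709312) (l 16723200)) (b (l 16724824) (l 1))) (l 1)))), by decide +kernel⟩

theorem c_pp_123 : CertB 536870912 536870912 0 1230186008 649613803 48318383 3 eng mog cd3q1 cd6q3 pd2 false true true .npn 1 2 3
    ndB3q1 ndB6q3 pcB2 Cut.none Ext.none :=
  certB2 (fam := false) (s1 := true) (s2 := true) (a := 1) (b := 2) (c := 3) (cn := .npn) (n1 := ndB3q1) (n2 := ndB6q3) (pc := pcB2) (cut := Cut.none) (xt := Ext.none) (P1 := 536870912) (W1 := 536870912) (P2 := 0) (W2 := 1230186008) (P3 := 649613803) (W3 := 48318383) (N0 := 3) (En := eng) (mo := mog) (C1 := cd3q1) (C2 := cd6q3) (C3 := pd2)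
    rfl (fun _ => rfl) k0_pp_123

noncomputable def f_pp_133 : ℕ → ℕ → ℕ → ℕ → Bool := onCell 1610612736 536870912 0 1230186008 649613803 48318383
    (rowB 3 eng mog cd3q1 cd6q3 pd3 2 false true true .dn 1 3 3 (qsf 536870912 536870912 0 1230186008 3) ndB3q1 ndB6q3 pcB3 Cut.none Ext.none)

def k0_pp_133 : ∃ t, chk3 f_pp_133 t 1 1 1 = true :=
  ⟨(b (b (a (a (l 16728560) (l 1)) (l 1)) (l 1)) (l 1)), by decide +kernel⟩

theorem c_pp_133 : CertB 536870912 536870912 0 1230186008 649613803 48318383 3 eng mog cd3q1 cd6q3 pd3 false true true .dn 1 3 3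
    ndB3q1 ndB6q3 pcB3 Cut.none Ext.none :=
  certB2 (fam := false) (s1 := true) (s2 := true) (a := 1) (b := 3) (c := 3) (cn := .dn) (n1 := ndB3q1) (n2 := ndB6q3) (pc := pcB3) (cut := Cut.none) (xt := Ext.none) (P1 := 536870912) (W1 := 536870912) (P2 := 0) (W2 := 1230186008) (P3 := 649613803) (W3 := 48318383) (N0 := 3) (En := eng) (mo := mog) (C1 := cd3q1) (C2 := cd6q3) (C3 := pd3)
    rfl (fun _ => rfl) k0_pp_133

noncomputable def f_pp_202_a : ℕ → ℕ → ℕ → ℕ → Bool := onCell 0 536870912 1073741824 536870912 649613803 48318383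
    (rowB 3 eng mog cd3q2a cd6q2 pd0 0 false true true .pp 2 0 2 (qsf 0 536870912 1073741824 536870912 0) ndB3q2a ndB6q2 pcB0 Cut.none Ext.none)

def k0_pp_202_a : ∃ t, chk3 f_pp_202_a t 1 1 1 = true :=
  ⟨(l 3), by decide +kernel⟩

theorem c_pp_202_a : CertB 0 536870912 1073741824 536870912 649613803 48318383 3 eng mog cd3q2a cd6q2 pd0 false true true .pp 2 0 2
    ndB3q2a ndB6q2 pcB0 Cut.none Ext.none :=
  certB0 (fam := false) (s1 := true) (s2 := true) (a := 2) (b := 0) (c := 2) (cn := .pp) (n1 := ndB3q2a) (n2 := ndB6q2) (pc := pcB0) (cut := Cut.none) (xt := Ext.none) (P1 := 0) (W1 := 536870912) (P2 := 1073741824) (W2 := 536870912) (P3 := 649613803) (W3 := 48318383) (N0 := 3) (En := eng) (mo := mog) (C1 := cd3q2a) (C2 := cd6q2) (C3 := pd0)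
    rfl k0_pp_202_a

noncomputable def f_pp_202_b : ℕ → ℕ → ℕ → ℕ → Bool := onCell 1239849684 370763052 1073741824 536870912 649613803 48318383
    (rowB 3 eng mog cd3q2b cd6q2 pd0 0 false true true .pp 2 0 2 (qsf 1239849684 370763052 1073741824 536870912 0) ndB3q2b ndB6q2 pcB0 Cut.none Ext.none)

def k0_pp_202_b : ∃ t, chk3 f_pp_202_b t 1 1 1 = true :=
  ⟨(l 3), by decide +kernel⟩

theorem c_pp_202_b : CertB 1239849684 370763052 1073741824 536870912 649613803 48318383 3 eng mog cd3q2b cd6q2 pd0 false true true .pp 2 0 2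
    ndB3q2b ndB6q2 pcB0 Cut.none Ext.none :=
  certB0 (fam := false) (s1 := true) (s2 := true) (a := 2) (b := 0) (c := 2) (cn := .pp) (n1 := ndB3q2b) (n2 := ndB6q2) (pc := pcB0) (cut := Cut.none) (xt := Ext.none) (P1 := 1239849684) (W1 := 370763052) (P2 := 1073741824) (W2 := 536870912) (P3 := 649613803) (W3 := 48318383) (N0 := 3) (En := eng) (mo := mog) (C1 := cd3q2b) (C2 := cd6q2) (C3 := pd0)
    rfl k0_pp_202_b

noncomputable def f_pp_203_a : ℕ → ℕ → ℕ → ℕ → Bool := onCell 0 536870912 0 1230186008 649613803 48318383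
    (rowB 3 eng mog cd3q2a cd6q3 pd0 0 false true true .up 2 0 3 (qsf 0 536870912 0 1230186008 0) ndB3q2a ndB6q3 pcB0 Cut.none Ext.none)

def k0_pp_203_a : ∃ t, chk3 f_pp_203_a t 1 1 1 = true :=
  ⟨(b (l 2) (l 3)), by decide +kernel⟩

theorem c_pp_203_a : CertB 0 536870912 0 1230186008 649613803 48318383 3 eng mog cd3q2a cd6q3 pd0 false true true .up 2 0 3
    ndB3q2a ndB6q3 pcB0 Cut.none Ext.none :=
  certB0 (fam := false) (s1 := true) (s2 := true) (a := 2) (b := 0) (c := 3) (cn := .up) (n1 := ndB3q2a) (n2 := ndB6q3) (pc := pcB0) (cut := Cut.none) (xt := Ext.none) (P1 := 0) (W1 := 536870912) (P2 := 0) (W2 := 1230186008) (P3 := 649613803) (W3 := 48318383) (N0 := 3) (En := eng) (mo := mog) (C1 := cd3q2a) (C2 := cd6q3) (C3 := pd0)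
    rfl k0_pp_203_a

noncomputable def f_pp_203_b : ℕ → ℕ → ℕ → ℕ → Bool := onCell 1239849684 370763052 0 1230186008 649613803 48318383
    (rowB 3 eng mog cd3q2b cd6q3 pd0 0 false true true .up 2 0 3 (qsf 1239849684 370763052 0 1230186008 0) ndB3q2b ndB6q3 pcB0 Cut.none Ext.none)

def k0_pp_203_b : ∃ t, chk3 f_pp_203_b t 1 1 1 = true :=
  ⟨(b (l 3) (l 3)), by decide +kernel⟩

theorem c_pp_203_b : CertB 1239849684 370763052 0 1230186008 649613803 48318383 3 eng mog cd3q2b cd6q3 pd0 false true true .up 2 0 3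
    ndB3q2b ndB6q3 pcB0 Cut.none Ext.none :=
  certB0 (fam := false) (s1 := true) (s2 := true) (a := 2) (b := 0) (c := 3) (cn := .up) (n1 := ndB3q2b) (n2 := ndB6q3) (pc := pcB0) (cut := Cut.none) (xt := Ext.none) (P1 := 1239849684) (W1 := 370763052) (P2 := 0) (W2 := 1230186008) (P3 := 649613803) (W3 := 48318383) (N0 := 3) (En := eng) (mo := mog) (C1 := cd3q2b) (C2 := cd6q3) (C3 := pd0)
    rfl k0_pp_203_b

noncomputable def cut_pp_213_a : Cut := Cut.of [[⟨0, 1, 0, 67108864⟩, ⟨1, 1, 0, 67108864⟩, ⟨2, 2, 0, 16777216⟩]]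

noncomputable def f_pp_213_a : ℕ → ℕ → ℕ → ℕ → Bool := onCell 0 536870912 0 1230186008 649613803 48318383
    (rowB 3 eng mog cd3q2a cd6q3 pd1 0 false true true .pnn 2 1 3 (qsf 0 536870912 0 1230186008 1) ndB3q2a ndB6q3 pcB1 cut_pp_213_a Ext.none)

def k0_pp_213_a : ∃ t, chk3 f_pp_213_a t 1 1 1 = true :=
  ⟨(b (a (l 3) (b (a (l 3) (b (a (l 3) (l 6)) (l 3))) (l 3))) (l 3)), by decide +kernel⟩

theorem c_pp_213_a : CertB 0 536870912 0 1230186008 649613803 48318383 3 eng mog cd3q2a cd6q3 pd1 false true true .pnn 2 1 3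
    ndB3q2a ndB6q3 pcB1 cut_pp_213_a Ext.none :=
  certB0 (fam := false) (s1 := true) (s2 := true) (a := 2) (b := 1) (c := 3) (cn := .pnn) (n1 := ndB3q2a) (n2 := ndB6q3) (pc := pcB1) (cut := cut_pp_213_a) (xt := Ext.none) (P1 := 0) (W1 := 536870912) (P2 := 0) (W2 := 1230186008) (P3 := 649613803) (W3 := 48318383) (N0 := 3) (En := eng) (mo := mog) (C1 := cd3q2a) (C2 := cd6q3) (C3 := pd1)
    rfl k0_pp_213_a

noncomputable def cut_pp_213_b : Cut := Cut.of [[⟨0, 1, 0, 67108864⟩, ⟨1, 1, 0, 67108864⟩, ⟨2, 2, 0, 16777216⟩]]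

noncomputable def f_pp_213_b : ℕ → ℕ → ℕ → ℕ → Bool := onCell 1239849684 370763052 0 1230186008 649613803 48318383
    (rowB 3 eng mog cd3q2b cd6q3 pd1 0 false true true .pnn 2 1 3 (qsf 1239849684 370763052 0 1230186008 1) ndB3q2b ndB6q3 pcB1 cut_pp_213_b Ext.none)

def k0_pp_213_b : ∃ t, chk3 f_pp_213_b t 1 1 1 = true :=
  ⟨(b (l 3) (l 3)), by decide +kernel⟩

theorem c_pp_213_b : CertB 1239849684 370763052 0 1230186008 649613803 48318383 3 eng mog cd3q2b cd6q3 pd1 false true true .pnn 2 1 3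
    ndB3q2b ndB6q3 pcB1 cut_pp_213_b Ext.none :=
  certB0 (fam := false) (s1 := true) (s2 := true) (a := 2) (b := 1) (c := 3) (cn := .pnn) (n1 := ndB3q2b) (n2 := ndB6q3) (pc := pcB1) (cut := cut_pp_213_b) (xt := Ext.none) (P1 := 1239849684) (W1 := 370763052) (P2 := 0) (W2 := 1230186008) (P3 := 649613803) (W3 := 48318383) (N0 := 3) (En := eng) (mo := mog) (C1 := cd3q2b) (C2 := cd6q3) (C3 := pd1)
    rfl k0_pp_213_b

noncomputable def f_pp_303 : ℕ → ℕ → ℕ → ℕ → Bool := onCell 1610612736 536870912 0 1230186008 649613803 48318383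
    (rowB 3 eng mog cd3q3 cd6q3 pd0 0 false true true .npn 3 0 3 (qsf 1610612736 536870912 0 1230186008 0) ndB3q3 ndB6q3 pcB0 Cut.none Ext.none)

def k0_pp_303 : ∃ t, chk3 f_pp_303 t 1 1 1 = true :=
  ⟨(b (l 3) (l 3)), by decide +kernel⟩

theorem c_pp_303 : CertB 1610612736 536870912 0 1230186008 649613803 48318383 3 eng mog cd3q3 cd6q3 pd0 false true true .npn 3 0 3
    ndB3q3 ndB6q3 pcB0 Cut.none Ext.none :=
  certB0 (fam := false) (s1 := true) (s2 := true) (a := 3) (b := 0) (c := 3) (cn := .npn) (n1 := ndB3q3) (n2 := ndB6q3) (pc := pcB0) (cut := Cut.none) (xt := Ext.none) (P1 := 1610612736) (W1 := 536870912) (P2 := 0) (W2 := 1230186008) (P3 := 649613803) (W3 := 48318383) (N0 := 3) (En := eng) (mo := mog) (C1 := cd3q3) (C2 := cd6q3) (C3 := pd0)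
    rfl k0_pp_303

noncomputable def f_pp_313 : ℕ → ℕ → ℕ → ℕ → Bool := onCell 1610612736 536870912 0 1230186008 649613803 48318383
    (rowB 3 eng mog cd3q3 cd6q3 pd1 0 false true true .dn 3 1 3 (qsf 1610612736 536870912 0 1230186008 1) ndB3q3 ndB6q3 pcB1 Cut.none Ext.none)

def k0_pp_313 : ∃ t, chk3 f_pp_313 t 1 1 1 = true :=
  ⟨(b (l 3) (l 1)), by decide +kernel⟩

theorem c_pp_313 : CertB 1610612736 536870912 0 1230186008 649613803 48318383 3 eng mog cd3q3 cd6q3 pd1 false true true .dn 3 1 3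
    ndB3q3 ndB6q3 pcB1 Cut.none Ext.none :=
  certB0 (fam := false) (s1 := true) (s2 := true) (a := 3) (b := 1) (c := 3) (cn := .dn) (n1 := ndB3q3) (n2 := ndB6q3) (pc := pcB1) (cut := Cut.none) (xt := Ext.none) (P1 := 1610612736) (W1 := 536870912) (P2 := 0) (W2 := 1230186008) (P3 := 649613803) (W3 := 48318383) (N0 := 3) (En := eng) (mo := mog) (C1 := cd3q3) (C2 := cd6q3) (C3 := pd1)
    rfl k0_pp_313

noncomputable def f_pm_001 : ℕ → ℕ → ℕ → ℕ → Bool := onCell 0 536870912 536870912 536870912 649613803 48318383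
    (rowB 3 eng mog cd3q0 cd6q1 pd0 0 false true false .up 0 0 1 (qsf 0 536870912 536870912 536870912 0) ndB3q0 ndB6q1 pcB0 Cut.none Ext.none)

def k0_pm_001 : ∃ t, chk3 f_pm_001 t 1 1 1 = true :=
  ⟨(l 4), by decide +kernel⟩

theorem c_pm_001 : CertB 0 536870912 536870912 536870912 649613803 48318383 3 eng mog cd3q0 cd6q1 pd0 false true false .up 0 0 1
    ndB3q0 ndB6q1 pcB0 Cut.none Ext.none :=
  certB0 (fam := false) (s1 := true) (s2 := false) (a := 0) (b := 0) (c := 1) (cn := .up) (n1 := ndB3q0) (n2 := ndB6q1) (pc := pcB0) (cut := Cut.none) (xt := Ext.none) (P1 := 0) (W1 := 536870912) (P2 := 536870912) (W2 := 536870912) (P3 := 649613803) (W3 := 48318383) (N0 := 3) (En := eng) (mo := mog) (C1 := cd3q0) (C2 := cd6q1) (C3 := pd0)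
    rfl k0_pm_001

noncomputable def f_pm_011 : ℕ → ℕ → ℕ → ℕ → Bool := onCell 0 536870912 536870912 536870912 649613803 48318383
    (rowB 3 eng mog cd3q0 cd6q1 pd1 0 false true false .pnn 0 1 1 (qsf 0 536870912 536870912 536870912 1) ndB3q0 ndB6q1 pcB1 Cut.none Ext.none)

def k0_pm_011 : ∃ t, chk3 f_pm_011 t 1 1 1 = true :=
  ⟨(l 4), by decide +kernel⟩

theorem c_pm_011 : CertB 0 536870912 536870912 536870912 649613803 48318383 3 eng mog cd3q0 cd6q1 pd1 false true false .pnn 0 1 1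
    ndB3q0 ndB6q1 pcB1 Cut.none Ext.none :=
  certB0 (fam := false) (s1 := true) (s2 := false) (a := 0) (b := 1) (c := 1) (cn := .pnn) (n1 := ndB3q0) (n2 := ndB6q1) (pc := pcB1) (cut := Cut.none) (xt := Ext.none) (P1 := 0) (W1 := 536870912) (P2 := 536870912) (W2 := 536870912) (P3 := 649613803) (W3 := 48318383) (N0 := 3) (En := eng) (mo := mog) (C1 := cd3q0) (C2 := cd6q1) (C3 := pd1)
    rfl k0_pm_011

noncomputable def f_pm_012 : ℕ → ℕ → ℕ → ℕ → Bool := onCell 0 536870912 1073741824 536870912 649613803 48318383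
    (rowB 3 eng mog cd3q0 cd6q2 pd1 0 false true false .pnp 0 1 2 (qsf 0 536870912 1073741824 536870912 1) ndB3q0 ndB6q2 pcB1 Cut.none Ext.none)

def k0_pm_012 : ∃ t, chk3 f_pm_012 t 1 1 1 = true :=
  ⟨(l 4), by decide +kernel⟩

theorem c_pm_012 : CertB 0 536870912 1073741824 536870912 649613803 48318383 3 eng mog cd3q0 cd6q2 pd1 false true false .pnp 0 1 2
    ndB3q0 ndB6q2 pcB1 Cut.none Ext.none :=
  certB0 (fam := false) (s1 := true) (s2 := false) (a := 0) (b := 1) (c := 2) (cn := .pnp) (n1 := ndB3q0) (n2 := ndB6q2) (pc := pcB1) (cut := Cut.none) (xt := Ext.none) (P1 := 0) (W1 := 536870912) (P2 := 1073741824) (W2 := 536870912) (P3 := 649613803) (W3 := 48318383) (N0 := 3) (En := eng) (mo := mog) (C1 := cd3q0) (C2 := cd6q2) (C3 := pd1)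
    rfl k0_pm_012

noncomputable def f_pm_022 : ℕ → ℕ → ℕ → ℕ → Bool := onCell 0 536870912 1073741824 536870912 649613803 48318383
    (rowB 3 eng mog cd3q0 cd6q2 pd2 0 false true false .pp 0 2 2 (qsf 0 536870912 1073741824 536870912 2) ndB3q0 ndB6q2 pcB2 Cut.none Ext.none)

def k0_pm_022 : ∃ t, chk3 f_pm_022 t 1 1 1 = true :=
  ⟨(l 4), by decide +kernel⟩

theorem c_pm_022 : CertB 0 536870912 1073741824 536870912 649613803 48318383 3 eng mog cd3q0 cd6q2 pd2 false true false .pp 0 2 2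
    ndB3q0 ndB6q2 pcB2 Cut.none Ext.none :=
  certB0 (fam := false) (s1 := true) (s2 := false) (a := 0) (b := 2) (c := 2) (cn := .pp) (n1 := ndB3q0) (n2 := ndB6q2) (pc := pcB2) (cut := Cut.none) (xt := Ext.none) (P1 := 0) (W1 := 536870912) (P2 := 1073741824) (W2 := 536870912) (P3 := 649613803) (W3 := 48318383) (N0 := 3) (En := eng) (mo := mog) (C1 := cd3q0) (C2 := cd6q2) (C3 := pd2)
    rfl k0_pm_022

noncomputable def f_pm_023 : ℕ → ℕ → ℕ → ℕ → Bool := onCell 0 536870912 0 1230186008 649613803 48318383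
    (rowB 3 eng mog cd3q0 cd6q3 pd2 0 false true false .up 0 2 3 (qsf 0 536870912 0 1230186008 2) ndB3q0 ndB6q3 pcB2 Cut.none Ext.none)

def k0_pm_023 : ∃ t, chk3 f_pm_023 t 1 1 1 = true :=
  ⟨(b (b (a (l 2) (a (l 2) (a (l 2) (l 16666944)))) (l 4)) (l 4)), by decide +kernel⟩

theorem c_pm_023 : CertB 0 536870912 0 1230186008 649613803 48318383 3 eng mog cd3q0 cd6q3 pd2 false true false .up 0 2 3
    ndB3q0 ndB6q3 pcB2 Cut.none Ext.none :=
  certB0 (fam := false) (s1 := true) (s2 := false) (a := 0) (b := 2) (c := 3) (cn := .up) (n1 := ndB3q0) (n2 := ndB6q3) (pc := pcB2) (cut := Cut.none) (xt := Ext.none) (P1 := 0) (W1 := 536870912) (P2 := 0) (W2 := 1230186008) (P3 := 649613803) (W3 := 48318383) (N0 := 3) (En := eng) (mo := mog) (C1 := cd3q0) (C2 := cd6q3) (C3 := pd2)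
    rfl k0_pm_023

noncomputable def f_pm_033 : ℕ → ℕ → ℕ → ℕ → Bool := onCell 0 536870912 0 1230186008 649613803 48318383
    (rowB 3 eng mog cd3q0 cd6q3 pd3 0 false true false .pnn 0 3 3 (qsf 0 536870912 0 1230186008 3) ndB3q0 ndB6q3 pcB3 Cut.none Ext.none)

def k0_pm_033 : ∃ t, chk3 f_pm_033 t 1 1 1 = true :=
  ⟨(b (a (l 4) (a (l 4) (b (a (l 4) (l 16660080)) (l 4)))) (l 4)), by decide +kernel⟩

theorem c_pm_033 : CertB 0 536870912 0 1230186008 649613803 48318383 3 eng mog cd3q0 cd6q3 pd3 false true false .pnn 0 3 3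
    ndB3q0 ndB6q3 pcB3 Cut.none Ext.none :=
  certB0 (fam := false) (s1 := true) (s2 := false) (a := 0) (b := 3) (c := 3) (cn := .pnn) (n1 := ndB3q0) (n2 := ndB6q3) (pc := pcB3) (cut := Cut.none) (xt := Ext.none) (P1 := 0) (W1 := 536870912) (P2 := 0) (W2 := 1230186008) (P3 := 649613803) (W3 := 48318383) (N0 := 3) (En := eng) (mo := mog) (C1 := cd3q0) (C2 := cd6q3) (C3 := pd3)
    rfl k0_pm_033

noncomputable def f_pm_101 : ℕ → ℕ → ℕ → ℕ → Bool := onCell 536870912 536870912 536870912 536870912 649613803 48318383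
    (rowB 3 eng mog cd3q1 cd6q1 pd0 0 false true false .npn 1 0 1 (qsf 536870912 536870912 536870912 536870912 0) ndB3q1 ndB6q1 pcB0 Cut.none Ext.none)

def k0_pm_101 : ∃ t, chk3 f_pm_101 t 1 1 1 = true :=
  ⟨(l 4), by decide +kernel⟩

theorem c_pm_101 : CertB 536870912 536870912 536870912 536870912 649613803 48318383 3 eng mog cd3q1 cd6q1 pd0 false true false .npn 1 0 1
    ndB3q1 ndB6q1 pcB0 Cut.none Ext.none :=
  certB0 (fam := false) (s1 := true) (s2 := false) (a := 1) (b := 0) (c := 1) (cn := .npn) (n1 := ndB3q1) (n2 := ndB6q1) (pc := pcB0) (cut := Cut.none) (xt := Ext.none) (P1 := 536870912) (W1 := 536870912) (P2 := 536870912) (W2 := 536870912) (P3 := 649613803) (W3 := 48318383) (N0 := 3) (En := eng) (mo := mog) (C1 := cd3q1) (C2 := cd6q1) (C3 := pd0)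
    rfl k0_pm_101

noncomputable def f_pm_102 : ℕ → ℕ → ℕ → ℕ → Bool := onCell 536870912 536870912 1073741824 536870912 649613803 48318383
    (rowB 3 eng mog cd3q1 cd6q2 pd0 0 false true false .npp 1 0 2 (qsf 536870912 536870912 1073741824 536870912 0) ndB3q1 ndB6q2 pcB0 Cut.none Ext.none)

def k0_pm_102 : ∃ t, chk3 f_pm_102 t 1 1 1 = true :=
  ⟨(l 4), by decide +kernel⟩

theorem c_pm_102 : CertB 536870912 536870912 1073741824 536870912 649613803 48318383 3 eng mog cd3q1 cd6q2 pd0 false true false .npp 1 0 2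
    ndB3q1 ndB6q2 pcB0 Cut.none Ext.none :=
  certB0 (fam := false) (s1 := true) (s2 := false) (a := 1) (b := 0) (c := 2) (cn := .npp) (n1 := ndB3q1) (n2 := ndB6q2) (pc := pcB0) (cut := Cut.none) (xt := Ext.none) (P1 := 536870912) (W1 := 536870912) (P2 := 1073741824) (W2 := 536870912) (P3 := 649613803) (W3 := 48318383) (N0 := 3) (En := eng) (mo := mog) (C1 := cd3q1) (C2 := cd6q2) (C3 := pd0)
    rfl k0_pm_102

noncomputable def f_pm_112 : ℕ → ℕ → ℕ → ℕ → Bool := onCell 536870912 536870912 1073741824 536870912 649613803 48318383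
    (rowB 3 eng mog cd3q1 cd6q2 pd1 0 false true false .dn 1 1 2 (qsf 536870912 536870912 1073741824 536870912 1) ndB3q1 ndB6q2 pcB1 Cut.none Ext.none)

def k0_pm_112 : ∃ t, chk3 f_pm_112 t 1 1 1 = true :=
  ⟨(l 4), by decide +kernel⟩

theorem c_pm_112 : CertB 536870912 536870912 1073741824 536870912 649613803 48318383 3 eng mog cd3q1 cd6q2 pd1 false true false .dn 1 1 2
    ndB3q1 ndB6q2 pcB1 Cut.none Ext.none :=
  certB0 (fam := false) (s1 := true) (s2 := false) (a := 1) (b := 1) (c := 2) (cn := .dn) (n1 := ndB3q1) (n2 := ndB6q2) (pc := pcB1) (cut := Cut.none) (xt := Ext.none) (P1 := 536870912) (W1 := 536870912) (P2 := 1073741824) (W2 := 536870912) (P3 := 649613803) (W3 := 48318383) (N0 := 3) (En := eng) (mo := mog) (C1 := cd3q1) (C2 := cd6q2) (C3 := pd1)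
    rfl k0_pm_112

noncomputable def f_pm_113 : ℕ → ℕ → ℕ → ℕ → Bool := onCell 536870912 536870912 0 1230186008 649613803 48318383
    (rowB 3 eng mog cd3q1 cd6q3 pd1 0 false true false .nn 1 1 3 (qsf 536870912 536870912 0 1230186008 1) ndB3q1 ndB6q3 pcB1 Cut.none Ext.none)

def k0_pm_113 : ∃ t, chk3 f_pm_113 t 1 1 1 = true :=
  ⟨(b (a (l 2) (a (l 2) (b (l 16705416) (l 16682624)))) (b (a (l 4) (a (b (l 246523415415) (l 4)) (b (l 16702704) (b (l 16729976) (l 16767704))))) (a (l 4) (b (a (l 4) (l 16908568)) (l 4))))), by decide +kernel⟩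

theorem c_pm_113 : CertB 536870912 536870912 0 1230186008 649613803 48318383 3 eng mog cd3q1 cd6q3 pd1 false true false .nn 1 1 3
    ndB3q1 ndB6q3 pcB1 Cut.none Ext.none :=
  certB0 (fam := false) (s1 := true) (s2 := false) (a := 1) (b := 1) (c := 3) (cn := .nn) (n1 := ndB3q1) (n2 := ndB6q3) (pc := pcB1) (cut := Cut.none) (xt := Ext.none) (P1 := 536870912) (W1 := 536870912) (P2 := 0) (W2 := 1230186008) (P3 := 649613803) (W3 := 48318383) (N0 := 3) (En := eng) (mo := mog) (C1 := cd3q1) (C2 := cd6q3) (C3 := pd1)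
    rfl k0_pm_113

noncomputable def f_pm_123 : ℕ → ℕ → ℕ → ℕ → Bool := onCell 1073741824 536870912 0 1230186008 649613803 48318383
    (rowB 3 eng mog cd3q1 cd6q3 pd2 2 false true false .npn 1 2 3 (qsf 536870912 536870912 0 1230186008 2) ndB3q1 ndB6q3 pcB2 Cut.none Ext.none)

def k0_pm_123 : ∃ t, chk3 f_pm_123 t 1 1 1 = true :=
  ⟨(b (a (a (b (a (l 16701288) (l 16591472)) (a (l 16835800) (l 16616208))) (b (b (l 16594848) (l 16580264)) (l 16747976))) (a (a (l 16633032) (l 16649104)) (a (l 16688992) (l 16720088)))) (a (b (a (b (l 16637800) (l 4)) (l 4)) (l 4)) (l 4))), by decide +kernel⟩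

theorem c_pm_123 : CertB 536870912 536870912 0 1230186008 649613803 48318383 3 eng mog cd3q1 cd6q3 pd2 false true false .npn 1 2 3
    ndB3q1 ndB6q3 pcB2 Cut.none Ext.none :=
  certB2 (fam := false) (s1 := true) (s2 := false) (a := 1) (b := 2) (c := 3) (cn := .npn) (n1 := ndB3q1) (n2 := ndB6q3) (pc := pcB2) (cut := Cut.none) (xt := Ext.none) (P1 := 536870912) (W1 := 536870912) (P2 := 0) (W2 := 1230186008) (P3 := 649613803) (W3 := 48318383) (N0 := 3) (En := eng) (mo := mog) (C1 := cd3q1) (C2 := cd6q3) (C3 := pd2)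
    rfl (fun _ => rfl) k0_pm_123

noncomputable def f_pm_133 : ℕ → ℕ → ℕ → ℕ → Bool := onCell 1610612736 536870912 0 1230186008 649613803 48318383
    (rowB 3 eng mog cd3q1 cd6q3 pd3 2 false true false .dn 1 3 3 (qsf 536870912 536870912 0 1230186008 3) ndB3q1 ndB6q3 pcB3 Cut.none Ext.none)

def k0_pm_133 : ∃ t, chk3 f_pm_133 t 1 1 1 = true :=
  ⟨(b (a (a (l 52848631975) (l 1)) (l 1)) (l 1)), by decide +kernel⟩

theorem c_pm_133 : CertB 536870912 536870912 0 1230186008 649613803 48318383 3 eng mog cd3q1 cd6q3 pd3 false true false .dn 1 3 3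
    ndB3q1 ndB6q3 pcB3 Cut.none Ext.none :=
  certB2 (fam := false) (s1 := true) (s2 := false) (a := 1) (b := 3) (c := 3) (cn := .dn) (n1 := ndB3q1) (n2 := ndB6q3) (pc := pcB3) (cut := Cut.none) (xt := Ext.none) (P1 := 536870912) (W1 := 536870912) (P2 := 0) (W2 := 1230186008) (P3 := 649613803) (W3 := 48318383) (N0 := 3) (En := eng) (mo := mog) (C1 := cd3q1) (C2 := cd6q3) (C3 := pd3)
    rfl (fun _ => rfl) k0_pm_133

noncomputable def f_pm_202_a : ℕ → ℕ → ℕ → ℕ → Bool := onCell 0 536870912 0 536870912 649613803 48318383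
    (rowB 3 eng mog cd3q2a cd6q2 pd0 1 false true false .pp 2 0 2 (qsf 0 536870912 1073741824 536870912 0) ndB3q2a ndB6q2 pcB0 Cut.none Ext.none)

def k0_pm_202_a : ∃ t, chk3 f_pm_202_a t 2 1 1 = true :=
  ⟨(b (b (b (a (b (a (b (l 16419696) (l 16426288)) (b (l 16415144) (l 16417704))) (a (l 16450040) (b (l 16433424) (l 16449440)))) (b (a (l 16432736) (l 16408184)) (a (b (l 16419216) (l 16437144)) (l 16410128)))) (a (b (l 16471920) (l 16487776)) (b (a (l 16460632) (l 16441832)) (a (l 16484536) (l 16471976))))) (b (a (a (b (l 16587016) (l 16578992)) (b (l 16495760) (l 16489680))) (b (l 16499208) (l 16510904))) (a (b (a (l 16505848) (l 16495448)) (a (l 16527680) (l 16508800))) (b (a (l 16505864) (l 16517928)) (a (l 16505144) (l 16517824)))))) (b (b (a (a (b (l 16546712) (l 16563440)) (l 16621272)) (a (l 16507264) (b (l 16522664) (l 16523520)))) (a (a (b (l 16583864) (l 16601456)) (l 16548272)) (a (l 16555880) (l 16512728)))) (a (l 2) (b (a (l 2) (l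 16513208)) (l 2))))), by decide +kernel⟩

def k1_pm_202_a : ∃ t, chk3 f_pm_202_a t 3 1 1 = true :=
  ⟨(b (b (b (a (b (a (b (l 16408912) (l 16400864)) (b (l 16403992) (l 16394576))) (a (l 16392328) (a (l 16383288) (l 16377288)))) (a (b (b (a (l 16392048) (l 16385296)) (l 16379856)) (a (l 16372648) (l 16364288))) (a (b (b (b (l 16381360) (l 16376072)) (l 16368928)) (l 16357992)) (a (b (b (b (l 16376320) (l 16371128)) (l 16364520)) (l 16355184)) (b (b (c (l 16408640) (l 16333656)) (l 16363576)) (l 16356528)))))) (a (b (a (l 16408968) (a (l 16380576) (l 16366848))) (a (l 16445712) (b (l 16390680) (l 16411304)))) (b (a (b (l 16569456) (l 16395440)) (a (l 16349560) (l 16350944))) (a (a (l 16553600) (b (l 16348680) (l 16351400))) (a (b (l 16348432) (l 16347424)) (b (l 16351984) (l 16355096))))))) (a (b (b (a (l 16475480) (l 16440352)) (a (l 16498304) (l 16471736))) (a (l 16521008) (b (l 16496000) (l 16514832)))) (b (a (b (a (l 16403208) (l 16461528)) (l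 16432240)) (b (a (b (l 16352176) (l 16367384)) (b (l 16360088) (a (l 16363072) (l 16371880)))) (a (l 16402816) (b (a (l 16381600) (l 16385240)) (l 16406360))))) (a (b (l 16466880) (l 16493800)) (b (l 16441728) (l 16479592)))))) (b (b (a (a (b (l 16529216) (l 16535888)) (b (l 16528544) (l 16535928))) (a (l 16525264) (b (l 16509864) (l 16535304)))) (a (b (a (l 16538176) (l 16543024)) (l 16545272)) (b (a (l 16544616) (l 16554272)) (a (l 16551040) (l 16565872))))) (a (b (a (l 16526528) (l 16546840)) (l 2)) (b (a (b (l 16554432) (l 16557616)) (b (l 16572760) (l 16579384))) (a (l 16562424) (l 16590144)))))), by decide +kernel⟩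

theorem s2_pm_202_a : ∃ t, chk3 f_pm_202_a t 1 1 1 = true := ex3_a k0_pm_202_a k1_pm_202_a

theorem c_pm_202_a : CertB 0 536870912 1073741824 536870912 649613803 48318383 3 eng mog cd3q2a cd6q2 pd0 false true false .pp 2 0 2
    ndB3q2a ndB6q2 pcB0 Cut.none Ext.none :=
  certB1 (fam := false) (s1 := true) (s2 := false) (a := 2) (b := 0) (c := 2) (cn := .pp) (n1 := ndB3q2a) (n2 := ndB6q2) (pc := pcB0) (cut := Cut.none) (xt := Ext.none) (P1 := 0) (W1 := 536870912) (P2 := 1073741824) (W2 := 536870912) (P3 := 649613803) (W3 := 48318383) (N0 := 3) (En := eng) (mo := mog) (C1 := cd3q2a) (C2 := cd6q2) (C3 := pd0)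
    rfl (fun _ => rfl) s2_pm_202_a

noncomputable def f_pm_202_b : ℕ → ℕ → ℕ → ℕ → Bool := onCell 0 536870912 1073741824 536870912 649613803 48318383
    (rowB 3 eng mog cd3q2b cd6q2 pd0 2 false true false .pp 2 0 2 (qsf 1239849684 370763052 1073741824 536870912 0) ndB3q2b ndB6q2 pcB0 Cut.none Ext.none)

def k0_pm_202_b : ∃ t, chk3 f_pm_202_b t 1 1 1 = true :=
  ⟨(a (b (a (b (l 1) (a (b (a (b (a (l 16515120) (l 1)) (b (a (l 16421240) (l 16437296)) (l 412886633255))) (b (l 1) (b (l 1) (l 600791562103)))) (a (b (l 16411624) (l 16369520)) (b (l 505765247175) (l 16428320)))) (b (l 1) (b (a (l 884259358807) (l 1)) (a (l 399465054999) (l 799970654359)))))) (l 1)) (a (b (a (b (b (l 16344120) (l 16382552)) (a (l 16219832) (l 16280680))) (a (b (l 16409568) (b (l 16353984) (l 16321976))) (b (b (l 16483200) (a (l 16428472) (l 16452336))) (b (a (l 16392720) (l 16419792)) (l 16383568))))) (a (b (a (l 16196368) (b (l 16247952) (l 16243920))) (a (b (a (l 16195640)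 (l 16218480)) (a (l 16233288) (l 16252168))) (b (b (l 16254192) (l 16260680)) (l 16280968)))) (b (a (b (l 16311336) (l 16301312)) (b (l 16359280) (l 16353856))) (b (a (l 16301672) (l 16345272)) (l 65665646087))))) (b (a (b (a (b (l 540662261879) (l 16484536)) (b (l 1) (l 448320549543))) (b (a (l 16456008) (l 16496928)) (a (l 16432872) (l 16478536)))) (b (l 1) (a (b (l 361884448503) (l 16514600)) (b (l 1) (l 285112027543))))) (a (b (b (a (l 16416680) (l 16464768)) (l 16429616)) (b (a (l 16397264) (l 16448184)) (a (l 16397000) (l 16441440)))) (b (a (l 16499760) (l 16532760)) (b (l 16508848) (a (l 16487472) (l 16524104)))))))) (a (b (l 1) (b (l 1) (b (a (b (l 329135484951) (l 148209815639)) (l 1)) (a (b (l 16566728) (l 16568616)) (b (l 307660639079) (l 185790685511)))))) (l 1))), by decide +kernel⟩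

theorem c_pm_202_b : CertB 1239849684 370763052 1073741824 536870912 649613803 48318383 3 eng mog cd3q2b cd6q2 pd0 false true false .pp 2 0 2
    ndB3q2b ndB6q2 pcB0 Cut.none Ext.none :=
  certB2 (fam := false) (s1 := true) (s2 := false) (a := 2) (b := 0) (c := 2) (cn := .pp) (n1 := ndB3q2b) (n2 := ndB6q2) (pc := pcB0) (cut := Cut.none) (xt := Ext.none) (P1 := 1239849684) (W1 := 370763052) (P2 := 1073741824) (W2 := 536870912) (P3 := 649613803) (W3 := 48318383) (N0 := 3) (En := eng) (mo := mog) (C1 := cd3q2b) (C2 := cd6q2) (C3 := pd0)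
    rfl (fun _ => rfl) k0_pm_202_b

noncomputable def f_pm_203_a : ℕ → ℕ → ℕ → ℕ → Bool := onCell 0 536870912 0 1230186008 649613803 48318383
    (rowB 3 eng mog cd3q2a cd6q3 pd0 0 false true false .up 2 0 3 (qsf 0 536870912 0 1230186008 0) ndB3q2a ndB6q3 pcB0 Cut.none Ext.none)

def k0_pm_203_a : ∃ t, chk3 f_pm_203_a t 1 1 1 = true :=
  ⟨(b (l 2) (b (l 2) (a (b (b (l 2) (b (a (l 2) (l 2)) (a (a (l 145122760759) (a (l 16643536) (l 16649176))) (l 16675264)))) (a (b (b (a (a (l 16614600) (l 16620512)) (l 16623032)) (a (a (l 16593280) (l 16589024)) (l 16606168))) (b (a (l 16580496) (l 16575744)) (l 16686416))) (b (a (l 16627824) (l 16628904)) (a (l 16557984) (l 16583192))))) (b (l 2) (a (b (a (l 16653864) (l 16675560)) (a (l 16593120) (l 16602592))) (b (a (l 16711592) (l 2)) (l 16649624))))))), by decide +kernel⟩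

theorem c_pm_203_a : CertB 0 536870912 0 1230186008 649613803 48318383 3 eng mog cd3q2a cd6q3 pd0 false true false .up 2 0 3
    ndB3q2a ndB6q3 pcB0 Cut.none Ext.none :=
  certB0 (fam := false) (s1 := true) (s2 := false) (a := 2) (b := 0) (c := 3) (cn := .up) (n1 := ndB3q2a) (n2 := ndB6q3) (pc := pcB0) (cut := Cut.none) (xt := Ext.none) (P1 := 0) (W1 := 536870912) (P2 := 0) (W2 := 1230186008) (P3 := 649613803) (W3 := 48318383) (N0 := 3) (En := eng) (mo := mog) (C1 := cd3q2a) (C2 := cd6q3) (C3 := pd0)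
    rfl k0_pm_203_a

noncomputable def f_pm_203_b : ℕ → ℕ → ℕ → ℕ → Bool := onCell 1239849684 370763052 0 1230186008 649613803 48318383
    (rowB 3 eng mog cd3q2b cd6q3 pd0 0 false true false .up 2 0 3 (qsf 1239849684 370763052 0 1230186008 0) ndB3q2b ndB6q3 pcB0 Cut.none Ext.none)

def k0_pm_203_b : ∃ t, chk3 f_pm_203_b t 1 1 1 = true :=
  ⟨(b (l 3) (b (l 3) (a (b (a (b (l 3) (a (b (l 3) (a (l 16629256) (l 3))) (l 3))) (l 3)) (a (b (a (a (b (l 16614104) (l 16616456)) (b (l 16652776) (l 16643320))) (b (b (l 3) (l 16669968)) (a (l 16652808) (l 16651680)))) (a (b (a (l 16615888) (l 16629400)) (l 16609200)) (b (a (l 16629144) (l 16620120)) (b (l 16600072) (l 16582480))))) (b (a (b (l 3) (l 133311734679)) (l 3)) (a (b (l 16681528) (a (l 16563720) (l 16541384))) (b (l 16650528) (l 16668192)))))) (b (l 3) (b (l 3) (a (b (l 3) (a (l 16433640) (l 16374456))) (l 3))))))), by decide +kernel⟩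

theorem c_pm_203_b : CertB 1239849684 370763052 0 1230186008 649613803 48318383 3 eng mog cd3q2b cd6q3 pd0 false true false .up 2 0 3
    ndB3q2b ndB6q3 pcB0 Cut.none Ext.none :=
  certB0 (fam := false) (s1 := true) (s2 := false) (a := 2) (b := 0) (c := 3) (cn := .up) (n1 := ndB3q2b) (n2 := ndB6q3) (pc := pcB0) (cut := Cut.none) (xt := Ext.none) (P1 := 1239849684) (W1 := 370763052) (P2 := 0) (W2 := 1230186008) (P3 := 649613803) (W3 := 48318383) (N0 := 3) (En := eng) (mo := mog) (C1 := cd3q2b) (C2 := cd6q3) (C3 := pd0)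
    rfl k0_pm_203_b

noncomputable def cut_pm_213_a : Cut := Cut.of [[⟨0, 1, 0, 67108864⟩, ⟨1, 1, 0, 67108864⟩, ⟨2, 2, 0, 16777216⟩]]

noncomputable def f_pm_213_a : ℕ → ℕ → ℕ → ℕ → Bool := onCell 0 536870912 0 1230186008 649613803 48318383
    (rowB 3 eng mog cd3q2a cd6q3 pd1 0 false true false .pnn 2 1 3 (qsf 0 536870912 0 1230186008 1) ndB3q2a ndB6q3 pcB1 cut_pm_213_a Ext.none)

def k0_pm_213_a : ∃ t, chk3 f_pm_213_a t 1 2 1 = true :=
  ⟨(a (b (l 3) (b (l 3) (l 3))) (b (a (l 3) (a (b (l 3) (b (a (l 3) (b (l 3) (l 341617677671))) (a (l 357186934423) (b (l 197199496119) (l 16790424))))) (b (l 6) (b (b (l 6) (a (l 16786840) (l 16787272))) (a (b (l 16791512) (l 16796392)) (a (l 16794624) (l 16793720))))))) (a (b (a (l 3) (b (a (l 3) (l 318532232519)) (a (l 315310998071) (l 226727374071)))) (a (b (a (l 3) (l 241759662423)) (a (l 250349448807) (b (l 16765024) (l 16766344)))) (b (a (l 186462031991) (l 16791184)) (a (l 16717304) (l 16798904))))) (b (a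 (b (a (b (l 210084356103) (l 16792168)) (l 16797120)) (a (l 16797288) (l 16807976))) (a (b (l 16806240) (l 16823712)) (l 16817216))) (a (b (a (l 16805128) (l 16821448)) (a (l 16813416) (l 16839632))) (b (l 16848432) (l 16870808))))))), by decide +kernel⟩

def k1_pm_213_a : ∃ t, chk3 f_pm_213_a t 1 3 1 = true :=
  ⟨(b (a (b (a (l 3) (a (l 3) (a (b (l 3) (l 251960048807)) (b (l 271287403287) (l 16682544))))) (a (b (l 3) (a (l 3) (l 204715779911))) (b (a (b (l 195588887863) (l 16771552)) (b (l 16845688) (l 16779920))) (a (b (l 16762344) (l 16762024)) (b (l 16775960) (l 16775640)))))) (a (b (b (a (a (b (l 16758904) (l 16764744)) (b (l 16772712) (l 16782024))) (a (b (l 16789736) (l 16799040)) (b (l 16806752) (l 16818040)))) (a (b (a (l 16774704) (l 16793136)) (a (l 16786640) (l 16801592))) (l 16827208))) (a (b (b (l 16815504) (l 16718456)) (l 16824976)) (a (l 16855640) (l 16880704)))) (a (b (b (l 16848784) (l 16875088)) (b (l 16905760) (l 16937448)))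 (b (b (l 16899392) (l 16930064)) (l 16993000))))) (a (b (b (a (b (l 203641966839) (l 183777733031)) (a (b (l 16750232) (l 16736112)) (l 16793016))) (a (a (b (l 16673736) (l 171966266359)) (b (l 16681368) (a (l 16686328) (l 16699016)))) (a (b (l 16717808) (l 16718264)) (l 16753536)))) (a (l 1) (b (a (l 1) (l 16748080)) (l 1)))) (b (b (a (a (l 16849736) (l 16904568)) (l 17033000)) (a (a (l 16783280) (l 16846752)) (l 17072440))) (a (b (a (l 16732592) (l 16768296)) (l 1)) (b (a (l 16834312) (l 16977944)) (l 16766712)))))), by decide +kernel⟩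

theorem s2_pm_213_a : ∃ t, chk3 f_pm_213_a t 1 1 1 = true := ex3_b k0_pm_213_a k1_pm_213_a

theorem c_pm_213_a : CertB 0 536870912 0 1230186008 649613803 48318383 3 eng mog cd3q2a cd6q3 pd1 false true false .pnn 2 1 3
    ndB3q2a ndB6q3 pcB1 cut_pm_213_a Ext.none :=
  certB0 (fam := false) (s1 := true) (s2 := false) (a := 2) (b := 1) (c := 3) (cn := .pnn) (n1 := ndB3q2a) (n2 := ndB6q3) (pc := pcB1) (cut := cut_pm_213_a) (xt := Ext.none) (P1 := 0) (W1 := 536870912) (P2 := 0) (W2 := 1230186008) (P3 := 649613803) (W3 := 48318383) (N0 := 3) (En := eng) (mo := mog) (C1 := cd3q2a) (C2 := cd6q3) (C3 := pd1)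
    rfl s2_pm_213_a

noncomputable def cut_pm_213_b : Cut := Cut.of [[⟨0, 1, 0, 67108864⟩, ⟨1, 1, 0, 67108864⟩, ⟨2, 2, 0, 16777216⟩]]

noncomputable def f_pm_213_b : ℕ → ℕ → ℕ → ℕ → Bool := onCell 1239849684 370763052 0 1230186008 649613803 48318383
    (rowB 3 eng mog cd3q2b cd6q3 pd1 0 false true false .pnn 2 1 3 (qsf 1239849684 370763052 0 1230186008 1) ndB3q2b ndB6q3 pcB1 cut_pm_213_b Ext.none)

def k0_pm_213_b : ∃ t, chk3 f_pm_213_b t 1 1 1 = true :=
  ⟨(b (l 3) (b (l 3) (a (b (a (b (l 3) (b (l 3) (b (l 3) (l 1)))) (l 1)) (l 1)) (l 1)))), by decide +kernel⟩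

theorem c_pm_213_b : CertB 1239849684 370763052 0 1230186008 649613803 48318383 3 eng mog cd3q2b cd6q3 pd1 false true false .pnn 2 1 3
    ndB3q2b ndB6q3 pcB1 cut_pm_213_b Ext.none :=
  certB0 (fam := false) (s1 := true) (s2 := false) (a := 2) (b := 1) (c := 3) (cn := .pnn) (n1 := ndB3q2b) (n2 := ndB6q3) (pc := pcB1) (cut := cut_pm_213_b) (xt := Ext.none) (P1 := 1239849684) (W1 := 370763052) (P2 := 0) (W2 := 1230186008) (P3 := 649613803) (W3 := 48318383) (N0 := 3) (En := eng) (mo := mog) (C1 := cd3q2b) (C2 := cd6q3) (C3 := pd1)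
    rfl k0_pm_213_b

noncomputable def f_pm_303 : ℕ → ℕ → ℕ → ℕ → Bool := onCell 1610612736 536870912 0 1230186008 649613803 48318383
    (rowB 3 eng mog cd3q3 cd6q3 pd0 0 false true false .npn 3 0 3 (qsf 1610612736 536870912 0 1230186008 0) ndB3q3 ndB6q3 pcB0 Cut.none Ext.none)

def k0_pm_303 : ∃ t, chk3 f_pm_303 t 1 1 1 = true :=
  ⟨(b (l 3) (b (l 3) (a (b (l 3) (l 3)) (l 1)))), by decide +kernel⟩

theorem c_pm_303 : CertB 1610612736 536870912 0 1230186008 649613803 48318383 3 eng mog cd3q3 cd6q3 pd0 false true false .npn 3 0 3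
    ndB3q3 ndB6q3 pcB0 Cut.none Ext.none :=
  certB0 (fam := false) (s1 := true) (s2 := false) (a := 3) (b := 0) (c := 3) (cn := .npn) (n1 := ndB3q3) (n2 := ndB6q3) (pc := pcB0) (cut := Cut.none) (xt := Ext.none) (P1 := 1610612736) (W1 := 536870912) (P2 := 0) (W2 := 1230186008) (P3 := 649613803) (W3 := 48318383) (N0 := 3) (En := eng) (mo := mog) (C1 := cd3q3) (C2 := cd6q3) (C3 := pd0)
    rfl k0_pm_303

noncomputable def f_pm_313 : ℕ → ℕ → ℕ → ℕ → Bool := onCell 1610612736 536870912 0 1230186008 649613803 48318383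
    (rowB 3 eng mog cd3q3 cd6q3 pd1 0 false true false .dn 3 1 3 (qsf 1610612736 536870912 0 1230186008 1) ndB3q3 ndB6q3 pcB1 Cut.none Ext.none)

def k0_pm_313 : ∃ t, chk3 f_pm_313 t 1 1 1 = true :=
  ⟨(b (l 3) (l 1)), by decide +kernel⟩

theorem c_pm_313 : CertB 1610612736 536870912 0 1230186008 649613803 48318383 3 eng mog cd3q3 cd6q3 pd1 false true false .dn 3 1 3
    ndB3q3 ndB6q3 pcB1 Cut.none Ext.none :=
  certB0 (fam := false) (s1 := true) (s2 := false) (a := 3) (b := 1) (c := 3) (cn := .dn) (n1 := ndB3q3) (n2 := ndB6q3) (pc := pcB1) (cut := Cut.none) (xt := Ext.none) (P1 := 1610612736) (W1 := 536870912) (P2 := 0) (W2 := 1230186008) (P3 := 649613803) (W3 := 48318383) (N0 := 3) (En := eng) (mo := mog) (C1 := cd3q3) (C2 := cd6q3) (C3 := pd1)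
    rfl k0_pm_313

noncomputable def f_mm_001 : ℕ → ℕ → ℕ → ℕ → Bool := onCell 0 536870912 0 536870912 649613803 48318383
    (rowB 3 eng mog cd3q0 cd6q1 pd0 1 false false false .up 0 0 1 (qsf 0 536870912 536870912 536870912 0) ndB3q0 ndB6q1 pcB0 Cut.none Ext.none)

def k0_mm_001 : ∃ t, chk3 f_mm_001 t 1 1 1 = true :=
  ⟨(l 3), by decide +kernel⟩

theorem c_mm_001 : CertB 0 536870912 536870912 536870912 649613803 48318383 3 eng mog cd3q0 cd6q1 pd0 false false false .up 0 0 1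
    ndB3q0 ndB6q1 pcB0 Cut.none Ext.none :=
  certB1 (fam := false) (s1 := false) (s2 := false) (a := 0) (b := 0) (c := 1) (cn := .up) (n1 := ndB3q0) (n2 := ndB6q1) (pc := pcB0) (cut := Cut.none) (xt := Ext.none) (P1 := 0) (W1 := 536870912) (P2 := 536870912) (W2 := 536870912) (P3 := 649613803) (W3 := 48318383) (N0 := 3) (En := eng) (mo := mog) (C1 := cd3q0) (C2 := cd6q1) (C3 := pd0)
    rfl (fun _ => rfl) k0_mm_001

noncomputable def f_mm_011 : ℕ → ℕ → ℕ → ℕ → Bool := onCell 0 536870912 536870912 536870912 649613803 48318383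
    (rowB 3 eng mog cd3q0 cd6q1 pd1 1 false false false .pnn 0 1 1 (qsf 0 536870912 536870912 536870912 1) ndB3q0 ndB6q1 pcB1 Cut.none Ext.none)

def k0_mm_011 : ∃ t, chk3 f_mm_011 t 1 1 1 = true :=
  ⟨(l 5), by decide +kernel⟩

theorem c_mm_011 : CertB 0 536870912 536870912 536870912 649613803 48318383 3 eng mog cd3q0 cd6q1 pd1 false false false .pnn 0 1 1
    ndB3q0 ndB6q1 pcB1 Cut.none Ext.none :=
  certB1 (fam := false) (s1 := false) (s2 := false) (a := 0) (b := 1) (c := 1) (cn := .pnn) (n1 := ndB3q0) (n2 := ndB6q1) (pc := pcB1) (cut := Cut.none) (xt := Ext.none) (P1 := 0) (W1 := 536870912) (P2 := 536870912) (W2 := 536870912) (P3 := 649613803) (W3 := 48318383) (N0 := 3) (En := eng) (mo := mog) (C1 := cd3q0) (C2 := cd6q1) (C3 := pd1)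
    rfl (fun _ => rfl) k0_mm_011

noncomputable def f_mm_012 : ℕ → ℕ → ℕ → ℕ → Bool := onCell 0 536870912 1073741824 536870912 649613803 48318383
    (rowB 3 eng mog cd3q0 cd6q2 pd1 0 false false false .pnp 0 1 2 (qsf 0 536870912 1073741824 536870912 1) ndB3q0 ndB6q2 pcB1 Cut.none Ext.none)

def k0_mm_012 : ∃ t, chk3 f_mm_012 t 1 1 1 = true :=
  ⟨(l 5), by decide +kernel⟩

theorem c_mm_012 : CertB 0 536870912 1073741824 536870912 649613803 48318383 3 eng mog cd3q0 cd6q2 pd1 false false false .pnp 0 1 2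
    ndB3q0 ndB6q2 pcB1 Cut.none Ext.none :=
  certB0 (fam := false) (s1 := false) (s2 := false) (a := 0) (b := 1) (c := 2) (cn := .pnp) (n1 := ndB3q0) (n2 := ndB6q2) (pc := pcB1) (cut := Cut.none) (xt := Ext.none) (P1 := 0) (W1 := 536870912) (P2 := 1073741824) (W2 := 536870912) (P3 := 649613803) (W3 := 48318383) (N0 := 3) (En := eng) (mo := mog) (C1 := cd3q0) (C2 := cd6q2) (C3 := pd1)
    rfl k0_mm_012

noncomputable def f_mm_022 : ℕ → ℕ → ℕ → ℕ → Bool := onCell 0 536870912 1073741824 536870912 649613803 48318383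
    (rowB 3 eng mog cd3q0 cd6q2 pd2 0 false false false .pp 0 2 2 (qsf 0 536870912 1073741824 536870912 2) ndB3q0 ndB6q2 pcB2 Cut.none Ext.none)

def k0_mm_022 : ∃ t, chk3 f_mm_022 t 1 1 1 = true :=
  ⟨(l 5), by decide +kernel⟩

theorem c_mm_022 : CertB 0 536870912 1073741824 536870912 649613803 48318383 3 eng mog cd3q0 cd6q2 pd2 false false false .pp 0 2 2
    ndB3q0 ndB6q2 pcB2 Cut.none Ext.none :=
  certB0 (fam := false) (s1 := false) (s2 := false) (a := 0) (b := 2) (c := 2) (cn := .pp) (n1 := ndB3q0) (n2 := ndB6q2) (pc := pcB2) (cut := Cut.none) (xt := Ext.none) (P1 := 0) (W1 := 536870912) (P2 := 1073741824) (W2 := 536870912) (P3 := 649613803) (W3 := 48318383) (N0 := 3) (En := eng) (mo := mog) (C1 := cd3q0) (C2 := cd6q2) (C3 := pd2)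
    rfl k0_mm_022

noncomputable def f_mm_023 : ℕ → ℕ → ℕ → ℕ → Bool := onCell 0 536870912 0 1230186008 649613803 48318383
    (rowB 3 eng mog cd3q0 cd6q3 pd2 0 false false false .up 0 2 3 (qsf 0 536870912 0 1230186008 2) ndB3q0 ndB6q3 pcB2 Cut.none Ext.none)

def k0_mm_023 : ∃ t, chk3 f_mm_023 t 1 1 1 = true :=
  ⟨(l 5), by decide +kernel⟩

theorem c_mm_023 : CertB 0 536870912 0 1230186008 649613803 48318383 3 eng mog cd3q0 cd6q3 pd2 false false false .up 0 2 3
    ndB3q0 ndB6q3 pcB2 Cut.none Ext.none :=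
  certB0 (fam := false) (s1 := false) (s2 := false) (a := 0) (b := 2) (c := 3) (cn := .up) (n1 := ndB3q0) (n2 := ndB6q3) (pc := pcB2) (cut := Cut.none) (xt := Ext.none) (P1 := 0) (W1 := 536870912) (P2 := 0) (W2 := 1230186008) (P3 := 649613803) (W3 := 48318383) (N0 := 3) (En := eng) (mo := mog) (C1 := cd3q0) (C2 := cd6q3) (C3 := pd2)
    rfl k0_mm_023

noncomputable def f_mm_033 : ℕ → ℕ → ℕ → ℕ → Bool := onCell 0 536870912 0 1230186008 649613803 48318383
    (rowB 3 eng mog cd3q0 cd6q3 pd3 0 false false false .pnn 0 3 3 (qsf 0 536870912 0 1230186008 3) ndB3q0 ndB6q3 pcB3 Cut.none Ext.none)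

def k0_mm_033 : ∃ t, chk3 f_mm_033 t 1 1 1 = true :=
  ⟨(l 5), by decide +kernel⟩

theorem c_mm_033 : CertB 0 536870912 0 1230186008 649613803 48318383 3 eng mog cd3q0 cd6q3 pd3 false false false .pnn 0 3 3
    ndB3q0 ndB6q3 pcB3 Cut.none Ext.none :=
  certB0 (fam := false) (s1 := false) (s2 := false) (a := 0) (b := 3) (c := 3) (cn := .pnn) (n1 := ndB3q0) (n2 := ndB6q3) (pc := pcB3) (cut := Cut.none) (xt := Ext.none) (P1 := 0) (W1 := 536870912) (P2 := 0) (W2 := 1230186008) (P3 := 649613803) (W3 := 48318383) (N0 := 3) (En := eng) (mo := mog) (C1 := cd3q0) (C2 := cd6q3) (C3 := pd3)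
    rfl k0_mm_033

noncomputable def f_mm_101 : ℕ → ℕ → ℕ → ℕ → Bool := onCell 536870912 536870912 536870912 536870912 649613803 48318383
    (rowB 3 eng mog cd3q1 cd6q1 pd0 0 false false false .npn 1 0 1 (qsf 536870912 536870912 536870912 536870912 0) ndB3q1 ndB6q1 pcB0 Cut.none Ext.none)

def k0_mm_101 : ∃ t, chk3 f_mm_101 t 1 1 1 = true :=
  ⟨(l 3), by decide +kernel⟩

theorem c_mm_101 : CertB 536870912 536870912 536870912 536870912 649613803 48318383 3 eng mog cd3q1 cd6q1 pd0 false false false .npn 1 0 1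
    ndB3q1 ndB6q1 pcB0 Cut.none Ext.none :=
  certB0 (fam := false) (s1 := false) (s2 := false) (a := 1) (b := 0) (c := 1) (cn := .npn) (n1 := ndB3q1) (n2 := ndB6q1) (pc := pcB0) (cut := Cut.none) (xt := Ext.none) (P1 := 536870912) (W1 := 536870912) (P2 := 536870912) (W2 := 536870912) (P3 := 649613803) (W3 := 48318383) (N0 := 3) (En := eng) (mo := mog) (C1 := cd3q1) (C2 := cd6q1) (C3 := pd0)
    rfl k0_mm_101

noncomputable def f_mm_102 : ℕ → ℕ → ℕ → ℕ → Bool := onCell 536870912 536870912 0 536870912 649613803 48318383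
    (rowB 3 eng mog cd3q1 cd6q2 pd0 1 false false false .npp 1 0 2 (qsf 536870912 536870912 1073741824 536870912 0) ndB3q1 ndB6q2 pcB0 Cut.none Ext.none)

def k0_mm_102 : ∃ t, chk3 f_mm_102 t 1 1 1 = true :=
  ⟨(l 3), by decide +kernel⟩

theorem c_mm_102 : CertB 536870912 536870912 1073741824 536870912 649613803 48318383 3 eng mog cd3q1 cd6q2 pd0 false false false .npp 1 0 2
    ndB3q1 ndB6q2 pcB0 Cut.none Ext.none :=
  certB1 (fam := false) (s1 := false) (s2 := false) (a := 1) (b := 0) (c := 2) (cn := .npp) (n1 := ndB3q1) (n2 := ndB6q2) (pc := pcB0) (cut := Cut.none) (xt := Ext.none) (P1 := 536870912) (W1 := 536870912) (P2 := 1073741824) (W2 := 536870912) (P3 := 649613803) (W3 := 48318383) (N0 := 3) (En := eng) (mo := mog) (C1 := cd3q1) (C2 := cd6q2) (C3 := pd0)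
    rfl (fun _ => rfl) k0_mm_102

noncomputable def f_mm_112 : ℕ → ℕ → ℕ → ℕ → Bool := onCell 536870912 536870912 536870912 536870912 649613803 48318383
    (rowB 3 eng mog cd3q1 cd6q2 pd1 1 false false false .dn 1 1 2 (qsf 536870912 536870912 1073741824 536870912 1) ndB3q1 ndB6q2 pcB1 Cut.none Ext.none)

def k0_mm_112 : ∃ t, chk3 f_mm_112 t 1 1 1 = true :=
  ⟨(l 5), by decide +kernel⟩

theorem c_mm_112 : CertB 536870912 536870912 1073741824 536870912 649613803 48318383 3 eng mog cd3q1 cd6q2 pd1 false false false .dn 1 1 2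
    ndB3q1 ndB6q2 pcB1 Cut.none Ext.none :=
  certB1 (fam := false) (s1 := false) (s2 := false) (a := 1) (b := 1) (c := 2) (cn := .dn) (n1 := ndB3q1) (n2 := ndB6q2) (pc := pcB1) (cut := Cut.none) (xt := Ext.none) (P1 := 536870912) (W1 := 536870912) (P2 := 1073741824) (W2 := 536870912) (P3 := 649613803) (W3 := 48318383) (N0 := 3) (En := eng) (mo := mog) (C1 := cd3q1) (C2 := cd6q2) (C3 := pd1)
    rfl (fun _ => rfl) k0_mm_112

noncomputable def f_mm_113 : ℕ → ℕ → ℕ → ℕ → Bool := onCell 536870912 536870912 0 1230186008 649613803 48318383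
    (rowB 3 eng mog cd3q1 cd6q3 pd1 0 false false false .nn 1 1 3 (qsf 536870912 536870912 0 1230186008 1) ndB3q1 ndB6q3 pcB1 Cut.none Ext.none)

def k0_mm_113 : ∃ t, chk3 f_mm_113 t 1 1 1 = true :=
  ⟨(l 5), by decide +kernel⟩

theorem c_mm_113 : CertB 536870912 536870912 0 1230186008 649613803 48318383 3 eng mog cd3q1 cd6q3 pd1 false false false .nn 1 1 3
    ndB3q1 ndB6q3 pcB1 Cut.none Ext.none :=
  certB0 (fam := false) (s1 := false) (s2 := false) (a := 1) (b := 1) (c := 3) (cn := .nn) (n1 := ndB3q1) (n2 := ndB6q3) (pc := pcB1) (cut := Cut.none) (xt := Ext.none) (P1 := 536870912) (W1 := 536870912) (P2 := 0) (W2 := 1230186008) (P3 := 649613803) (W3 := 48318383) (N0 := 3) (En := eng) (mo := mog) (C1 := cd3q1) (C2 := cd6q3) (C3 := pd1)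
    rfl k0_mm_113

noncomputable def f_mm_123 : ℕ → ℕ → ℕ → ℕ → Bool := onCell 536870912 536870912 0 1230186008 649613803 48318383
    (rowB 3 eng mog cd3q1 cd6q3 pd2 0 false false false .npn 1 2 3 (qsf 536870912 536870912 0 1230186008 2) ndB3q1 ndB6q3 pcB2 Cut.none Ext.none)

def k0_mm_123 : ∃ t, chk3 f_mm_123 t 1 1 1 = true :=
  ⟨(l 5), by decide +kernel⟩

theorem c_mm_123 : CertB 536870912 536870912 0 1230186008 649613803 48318383 3 eng mog cd3q1 cd6q3 pd2 false false false .npn 1 2 3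
    ndB3q1 ndB6q3 pcB2 Cut.none Ext.none :=
  certB0 (fam := false) (s1 := false) (s2 := false) (a := 1) (b := 2) (c := 3) (cn := .npn) (n1 := ndB3q1) (n2 := ndB6q3) (pc := pcB2) (cut := Cut.none) (xt := Ext.none) (P1 := 536870912) (W1 := 536870912) (P2 := 0) (W2 := 1230186008) (P3 := 649613803) (W3 := 48318383) (N0 := 3) (En := eng) (mo := mog) (C1 := cd3q1) (C2 := cd6q3) (C3 := pd2)
    rfl k0_mm_123

noncomputable def f_mm_133 : ℕ → ℕ → ℕ → ℕ → Bool := onCell 536870912 536870912 0 1230186008 649613803 48318383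
    (rowB 3 eng mog cd3q1 cd6q3 pd3 0 false false false .dn 1 3 3 (qsf 536870912 536870912 0 1230186008 3) ndB3q1 ndB6q3 pcB3 Cut.none Ext.none)

def k0_mm_133 : ∃ t, chk3 f_mm_133 t 1 1 1 = true :=
  ⟨(l 5), by decide +kernel⟩

theorem c_mm_133 : CertB 536870912 536870912 0 1230186008 649613803 48318383 3 eng mog cd3q1 cd6q3 pd3 false false false .dn 1 3 3
    ndB3q1 ndB6q3 pcB3 Cut.none Ext.none :=
  certB0 (fam := false) (s1 := false) (s2 := false) (a := 1) (b := 3) (c := 3) (cn := .dn) (n1 := ndB3q1) (n2 := ndB6q3) (pc := pcB3) (cut := Cut.none) (xt := Ext.none) (P1 := 536870912) (W1 := 536870912) (P2 := 0) (W2 := 1230186008) (P3 := 649613803) (W3 := 48318383) (N0 := 3) (En := eng) (mo := mog) (C1 := cd3q1) (C2 := cd6q3) (C3 := pd3)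
    rfl k0_mm_133

noncomputable def f_mm_202_a : ℕ → ℕ → ℕ → ℕ → Bool := onCell 0 536870912 1073741824 536870912 649613803 48318383
    (rowB 3 eng mog cd3q2a cd6q2 pd0 0 false false false .pp 2 0 2 (qsf 0 536870912 1073741824 536870912 0) ndB3q2a ndB6q2 pcB0 Cut.none Ext.none)

def k0_mm_202_a : ∃ t, chk3 f_mm_202_a t 1 1 1 = true :=
  ⟨(l 3), by decide +kernel⟩

theorem c_mm_202_a : CertB 0 536870912 1073741824 536870912 649613803 48318383 3 eng mog cd3q2a cd6q2 pd0 false false false .pp 2 0 2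
    ndB3q2a ndB6q2 pcB0 Cut.none Ext.none :=
  certB0 (fam := false) (s1 := false) (s2 := false) (a := 2) (b := 0) (c := 2) (cn := .pp) (n1 := ndB3q2a) (n2 := ndB6q2) (pc := pcB0) (cut := Cut.none) (xt := Ext.none) (P1 := 0) (W1 := 536870912) (P2 := 1073741824) (W2 := 536870912) (P3 := 649613803) (W3 := 48318383) (N0 := 3) (En := eng) (mo := mog) (C1 := cd3q2a) (C2 := cd6q2) (C3 := pd0)
    rfl k0_mm_202_a

noncomputable def f_mm_202_b : ℕ → ℕ → ℕ → ℕ → Bool := onCell 1239849684 370763052 1073741824 536870912 649613803 48318383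
    (rowB 3 eng mog cd3q2b cd6q2 pd0 0 false false false .pp 2 0 2 (qsf 1239849684 370763052 1073741824 536870912 0) ndB3q2b ndB6q2 pcB0 Cut.none Ext.none)

def k0_mm_202_b : ∃ t, chk3 f_mm_202_b t 1 1 1 = true :=
  ⟨(l 3), by decide +kernel⟩

theorem c_mm_202_b : CertB 1239849684 370763052 1073741824 536870912 649613803 48318383 3 eng mog cd3q2b cd6q2 pd0 false false false .pp 2 0 2
    ndB3q2b ndB6q2 pcB0 Cut.none Ext.none :=
  certB0 (fam := false) (s1 := false) (s2 := false) (a := 2) (b := 0) (c := 2) (cn := .pp) (n1 := ndB3q2b) (n2 := ndB6q2) (pc := pcB0) (cut := Cut.none) (xt := Ext.none) (P1 := 1239849684) (W1 := 370763052) (P2 := 1073741824) (W2 := 536870912) (P3 := 649613803) (W3 := 48318383) (N0 := 3) (En := eng) (mo := mog) (C1 := cd3q2b) (C2 := cd6q2) (C3 := pd0)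
    rfl k0_mm_202_b

noncomputable def f_mm_203_a : ℕ → ℕ → ℕ → ℕ → Bool := onCell 0 536870912 0 1230186008 649613803 48318383
    (rowB 3 eng mog cd3q2a cd6q3 pd0 0 false false false .up 2 0 3 (qsf 0 536870912 0 1230186008 0) ndB3q2a ndB6q3 pcB0 Cut.none Ext.none)

def k0_mm_203_a : ∃ t, chk3 f_mm_203_a t 1 1 1 = true :=
  ⟨(b (l 2) (l 3)), by decide +kernel⟩

theorem c_mm_203_a : CertB 0 536870912 0 1230186008 649613803 48318383 3 eng mog cd3q2a cd6q3 pd0 false false false .up 2 0 3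
    ndB3q2a ndB6q3 pcB0 Cut.none Ext.none :=
  certB0 (fam := false) (s1 := false) (s2 := false) (a := 2) (b := 0) (c := 3) (cn := .up) (n1 := ndB3q2a) (n2 := ndB6q3) (pc := pcB0) (cut := Cut.none) (xt := Ext.none) (P1 := 0) (W1 := 536870912) (P2 := 0) (W2 := 1230186008) (P3 := 649613803) (W3 := 48318383) (N0 := 3) (En := eng) (mo := mog) (C1 := cd3q2a) (C2 := cd6q3) (C3 := pd0)
    rfl k0_mm_203_a

noncomputable def f_mm_203_b : ℕ → ℕ → ℕ → ℕ → Bool := onCell 1239849684 370763052 0 1230186008 649613803 48318383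
    (rowB 3 eng mog cd3q2b cd6q3 pd0 0 false false false .up 2 0 3 (qsf 1239849684 370763052 0 1230186008 0) ndB3q2b ndB6q3 pcB0 Cut.none Ext.none)

def k0_mm_203_b : ∃ t, chk3 f_mm_203_b t 1 1 1 = true :=
  ⟨(b (l 3) (l 3)), by decide +kernel⟩

theorem c_mm_203_b : CertB 1239849684 370763052 0 1230186008 649613803 48318383 3 eng mog cd3q2b cd6q3 pd0 false false false .up 2 0 3
    ndB3q2b ndB6q3 pcB0 Cut.none Ext.none :=
  certB0 (fam := false) (s1 := false) (s2 := false) (a := 2) (b := 0) (c := 3) (cn := .up) (n1 := ndB3q2b) (n2 := ndB6q3) (pc := pcB0) (cut := Cut.none) (xt := Ext.none) (P1 := 1239849684) (W1 := 370763052) (P2 := 0) (W2 := 1230186008) (P3 := 649613803) (W3 := 48318383) (N0 := 3) (En := eng) (mo := mog) (C1 := cd3q2b) (C2 := cd6q3) (C3 := pd0)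
    rfl k0_mm_203_b

noncomputable def f_mm_213_a : ℕ → ℕ → ℕ → ℕ → Bool := onCell 0 536870912 0 1230186008 649613803 48318383
    (rowB 3 eng mog cd3q2a cd6q3 pd1 0 false false false .pnn 2 1 3 (qsf 0 536870912 0 1230186008 1) ndB3q2a ndB6q3 pcB1 Cut.none Ext.none)

def k0_mm_213_a : ∃ t, chk3 f_mm_213_a t 1 1 1 = true :=
  ⟨(b (a (l 3) (l 5)) (l 3)), by decide +kernel⟩

theorem c_mm_213_a : CertB 0 536870912 0 1230186008 649613803 48318383 3 eng mog cd3q2a cd6q3 pd1 false false false .pnn 2 1 3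
    ndB3q2a ndB6q3 pcB1 Cut.none Ext.none :=
  certB0 (fam := false) (s1 := false) (s2 := false) (a := 2) (b := 1) (c := 3) (cn := .pnn) (n1 := ndB3q2a) (n2 := ndB6q3) (pc := pcB1) (cut := Cut.none) (xt := Ext.none) (P1 := 0) (W1 := 536870912) (P2 := 0) (W2 := 1230186008) (P3 := 649613803) (W3 := 48318383) (N0 := 3) (En := eng) (mo := mog) (C1 := cd3q2a) (C2 := cd6q3) (C3 := pd1)
    rfl k0_mm_213_a

noncomputable def f_mm_213_b : ℕ → ℕ → ℕ → ℕ → Bool := onCell 1239849684 370763052 0 1230186008 649613803 48318383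
    (rowB 3 eng mog cd3q2b cd6q3 pd1 0 false false false .pnn 2 1 3 (qsf 1239849684 370763052 0 1230186008 1) ndB3q2b ndB6q3 pcB1 Cut.none Ext.none)

def k0_mm_213_b : ∃ t, chk3 f_mm_213_b t 1 1 1 = true :=
  ⟨(b (l 3) (l 3)), by decide +kernel⟩

theorem c_mm_213_b : CertB 1239849684 370763052 0 1230186008 649613803 48318383 3 eng mog cd3q2b cd6q3 pd1 false false false .pnn 2 1 3
    ndB3q2b ndB6q3 pcB1 Cut.none Ext.none :=
  certB0 (fam := false) (s1 := false) (s2 := false) (a := 2) (b := 1) (c := 3) (cn := .pnn) (n1 := ndB3q2b) (n2 := ndB6q3) (pc := pcB1) (cut := Cut.none) (xt := Ext.none) (P1 := 1239849684) (W1 := 370763052) (P2 := 0) (W2 := 1230186008) (P3 := 649613803) (W3 := 48318383) (N0 := 3) (En := eng) (mo := mog) (C1 := cd3q2b) (C2 := cd6q3) (C3 := pd1)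
    rfl k0_mm_213_b

noncomputable def f_mm_303 : ℕ → ℕ → ℕ → ℕ → Bool := onCell 1610612736 536870912 0 1230186008 649613803 48318383
    (rowB 3 eng mog cd3q3 cd6q3 pd0 0 false false false .npn 3 0 3 (qsf 1610612736 536870912 0 1230186008 0) ndB3q3 ndB6q3 pcB0 Cut.none Ext.none)

def k0_mm_303 : ∃ t, chk3 f_mm_303 t 1 1 1 = true :=
  ⟨(b (l 3) (l 3)), by decide +kernel⟩

theorem c_mm_303 : CertB 1610612736 536870912 0 1230186008 649613803 48318383 3 eng mog cd3q3 cd6q3 pd0 false false false .npn 3 0 3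
    ndB3q3 ndB6q3 pcB0 Cut.none Ext.none :=
  certB0 (fam := false) (s1 := false) (s2 := false) (a := 3) (b := 0) (c := 3) (cn := .npn) (n1 := ndB3q3) (n2 := ndB6q3) (pc := pcB0) (cut := Cut.none) (xt := Ext.none) (P1 := 1610612736) (W1 := 536870912) (P2 := 0) (W2 := 1230186008) (P3 := 649613803) (W3 := 48318383) (N0 := 3) (En := eng) (mo := mog) (C1 := cd3q3) (C2 := cd6q3) (C3 := pd0)
    rfl k0_mm_303

noncomputable def f_mm_313 : ℕ → ℕ → ℕ → ℕ → Bool := onCell 1610612736 536870912 0 1230186008 649613803 48318383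
    (rowB 3 eng mog cd3q3 cd6q3 pd1 0 false false false .dn 3 1 3 (qsf 1610612736 536870912 0 1230186008 1) ndB3q3 ndB6q3 pcB1 Cut.none Ext.none)

def k0_mm_313 : ∃ t, chk3 f_mm_313 t 1 1 1 = true :=
  ⟨(b (l 3) (l 1)), by decide +kernel⟩

theorem c_mm_313 : CertB 1610612736 536870912 0 1230186008 649613803 48318383 3 eng mog cd3q3 cd6q3 pd1 false false false .dn 3 1 3
    ndB3q3 ndB6q3 pcB1 Cut.none Ext.none :=
  certB0 (fam := false) (s1 := false) (s2 := false) (a := 3) (b := 1) (c := 3) (cn := .dn) (n1 := ndB3q3) (n2 := ndB6q3) (pc := pcB1) (cut := Cut.none) (xt := Ext.none) (P1 := 1610612736) (W1 := 536870912) (P2 := 0) (W2 := 1230186008) (P3 := 649613803) (W3 := 48318383) (N0 := 3) (En := eng) (mo := mog) (C1 := cd3q3) (C2 := cd6q3) (C3 := pd1)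
    rfl k0_mm_313

end Pool.Agent.Strip051.G.I6050_6500.Tab.C.BB36

namespace Pool.Agent.Strip051.G.I6050_6500.Tab.C.BB37

open Pool.Agent.Strip051.PB Pool.Agent.Strip051.PB.T
open Pool.Agent.Strip051.G.I6050_6500.Tab

noncomputable def f_pp_001 : ℕ → ℕ → ℕ → ℕ → Bool := onCell 0 536870912 0 536870912 649613803 48318383
    (rowB 3 eng mog cd3q0 cd7q1 pd0 1 false true true .up 0 0 1 (qsf 0 536870912 536870912 536870912 0) ndB3q0 ndB7q1 pcB0 Cut.none Ext.none)

def k0_pp_001 : ∃ t, chk3 f_pp_001 t 1 1 1 = true :=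
  ⟨(l 3), by decide +kernel⟩

theorem c_pp_001 : CertB 0 536870912 536870912 536870912 649613803 48318383 3 eng mog cd3q0 cd7q1 pd0 false true true .up 0 0 1
    ndB3q0 ndB7q1 pcB0 Cut.none Ext.none :=
  certB1 (fam := false) (s1 := true) (s2 := true) (a := 0) (b := 0) (c := 1) (cn := .up) (n1 := ndB3q0) (n2 := ndB7q1) (pc := pcB0) (cut := Cut.none) (xt := Ext.none) (P1 := 0) (W1 := 536870912) (P2 := 536870912) (W2 := 536870912) (P3 := 649613803) (W3 := 48318383) (N0 := 3) (En := eng) (mo := mog) (C1 := cd3q0) (C2 := cd7q1) (C3 := pd0)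
    rfl (fun _ => rfl) k0_pp_001

noncomputable def cut_pp_011 : Cut := Cut.of [[⟨0, 0, 0, 67108864⟩, ⟨1, 1, 0, 67108864⟩, ⟨2, 1, 0, 67108864⟩]]

noncomputable def f_pp_011 : ℕ → ℕ → ℕ → ℕ → Bool := onCell 0 536870912 536870912 536870912 649613803 48318383
    (rowB 3 eng mog cd3q0 cd7q1 pd1 1 false true true .pnn 0 1 1 (qsf 0 536870912 536870912 536870912 1) ndB3q0 ndB7q1 pcB1 cut_pp_011 Ext.none)

def k0_pp_011 : ∃ t, chk3 f_pp_011 t 1 1 1 = true :=
  ⟨(b (l 3) (b (l 3) (a (b (l 3) (a (a (b (l 3) (a (l 6) (l 3))) (l 3)) (l 2))) (l 2)))), by decide +kernel⟩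

theorem c_pp_011 : CertB 0 536870912 536870912 536870912 649613803 48318383 3 eng mog cd3q0 cd7q1 pd1 false true true .pnn 0 1 1
    ndB3q0 ndB7q1 pcB1 cut_pp_011 Ext.none :=
  certB1 (fam := false) (s1 := true) (s2 := true) (a := 0) (b := 1) (c := 1) (cn := .pnn) (n1 := ndB3q0) (n2 := ndB7q1) (pc := pcB1) (cut := cut_pp_011) (xt := Ext.none) (P1 := 0) (W1 := 536870912) (P2 := 536870912) (W2 := 536870912) (P3 := 649613803) (W3 := 48318383) (N0 := 3) (En := eng) (mo := mog) (C1 := cd3q0) (C2 := cd7q1) (C3 := pd1)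
    rfl (fun _ => rfl) k0_pp_011

noncomputable def f_pp_012 : ℕ → ℕ → ℕ → ℕ → Bool := onCell 0 536870912 536870912 536870912 649613803 48318383
    (rowB 3 eng mog cd3q0 cd7q2 pd1 1 false true true .pnp 0 1 2 (qsf 0 536870912 1073741824 536870912 1) ndB3q0 ndB7q2 pcB1 Cut.none Ext.none)

def k0_pp_012 : ∃ t, chk3 f_pp_012 t 1 1 1 = true :=
  ⟨(l 3), by decide +kernel⟩

theorem c_pp_012 : CertB 0 536870912 1073741824 536870912 649613803 48318383 3 eng mog cd3q0 cd7q2 pd1 false true true .pnp 0 1 2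
    ndB3q0 ndB7q2 pcB1 Cut.none Ext.none :=
  certB1 (fam := false) (s1 := true) (s2 := true) (a := 0) (b := 1) (c := 2) (cn := .pnp) (n1 := ndB3q0) (n2 := ndB7q2) (pc := pcB1) (cut := Cut.none) (xt := Ext.none) (P1 := 0) (W1 := 536870912) (P2 := 1073741824) (W2 := 536870912) (P3 := 649613803) (W3 := 48318383) (N0 := 3) (En := eng) (mo := mog) (C1 := cd3q0) (C2 := cd7q2) (C3 := pd1)
    rfl (fun _ => rfl) k0_pp_012

noncomputable def f_pp_022 : ℕ → ℕ → ℕ → ℕ → Bool := onCell 0 536870912 1073741824 536870912 649613803 48318383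
    (rowB 3 eng mog cd3q0 cd7q2 pd2 1 false true true .pp 0 2 2 (qsf 0 536870912 1073741824 536870912 2) ndB3q0 ndB7q2 pcB2 Cut.none Ext.none)

def k0_pp_022 : ∃ t, chk3 f_pp_022 t 1 4 1 = true :=
  ⟨(b (l 3) (a (a (l 3) (l 3)) (a (l 3) (b (l 3) (a (b (l 3) (l 16656792)) (l 2)))))), by decide +kernel⟩

def k1_pp_022 : ∃ t, chk3 f_pp_022 t 2 10 1 = true :=
  ⟨(b (b (a (a (a (b (a (b (l 3) (c (l 16495856) (l 16495448))) (l 3)) (a (b (a (l 16496200) (l 16486768)) (a (b (l 16478952) (l 16474360)) (l 16478096))) (b (l 3) (l 16480352)))) (l 3)) (l 3)) (l 3)) (b (a (a (a (b (a (b (a (l 16470000) (l 16471384)) (a (l 16466152) (l 16467504))) (a (l 16471224) (l 16474032))) (a (l 16461080) (b (l 16467544) (l 16464128)))) (b (a (l 16481896) (l 16492464)) (a (l 16476240) (l 16486704)))) (b (l 3) (l 178408461479))) (l 3)) (a (a (b (a (a (b (l 16455056) (l 16450776)) (l 16459352)) (c (l 16603560) (l 16474544))) (b (a (a (a (l 16444280) (l 16467800)) (c (l 16455984)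 (l 16452768))) (l 16470400)) (a (a (b (b (b (l 16441728) (c (l 16442224) (l 16438896))) (l 16438816)) (l 16437224)) (a (a (l 16507024) (l 16468456)) (l 16494352))) (a (l 16470128) (l 16471896))))) (b (a (l 145659291255) (l 16529408)) (b (a (l 16509672) (l 16544856)) (a (l 16484992) (c (l 16586736) (l 16496976)))))) (b (a (l 3) (a (l 3) (l 16563024))) (a (b (a (l 1375093729943) (l 3)) (a (a (a (l 16521344) (l 16512432)) (l 16602544)) (c (a (l 16533392) (l 16541752)) (l 16525208)))) (b (a (l 16583840) (l 16557064)) (a (a (l 16624408) (a (l 16544488) (l 16546936))) (a (l 16550432) (l 16555536))))))))) (a (a (a (a (b (a (l 16439392) (l 16423656)) (l 16351248)) (b (l 16433200) (l 16405592))) (a (l 16431112) (l 16440760))) (a (l 16452840) (l 16466136))) (a (a (l 16565288) (l 16622416)) (a (l 16513144) (l 16530784))))), by decide +kernel⟩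

def k2_pp_022 : ∃ t, chk3 f_pp_022 t 3 10 1 = true :=
  ⟨(a (b (b (a (l 3) (b (l 3) (l 16621560))) (b (a (b (l 16593912) (l 16586224)) (a (l 16603856) (l 16613944))) (b (a (l 16577960) (l 16598592)) (a (b (a (l 16566864) (l 16576888)) (a (l 16563064) (l 16573256))) (b (l 16593272) (l 16592152)))))) (a (a (l 16548176) (l 16568568)) (l 16603784))) (b (b (a (b (l 16647128) (l 2)) (l 2)) (l 2)) (l 2))), by decide +kernel⟩

def k3_pp_022 : ∃ t, chk3 f_pp_022 t 1 11 1 = true :=
  ⟨(a (a (a (a (b (a (l 16387832) (l 16361568)) (a (l 16288960) (l 16297256))) (b (l 16373904) (l 16312424))) (a (b (l 16391048) (l 16336000)) (b (l 16409904) (l 16363320)))) (a (a (b (l 16433648) (l 16397592)) (b (l 16461200) (l 16435016))) (b (a (l 16489488) (l 16517824)) (a (l 16472664) (l 16512240))))) (a (a (b (l 16545832) (l 16578576)) (b (l 16631864) (l 2))) (l 2))), by decide +kernel⟩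

def k4_pp_022 : ∃ t, chk3 f_pp_022 t 1 3 1 = true :=
  ⟨(a (b (a (a (b (a (b (b (l 16246576) (l 16217872)) (a (l 16171032) (l 16186400))) (b (l 16258240) (a (l 16204360) (l 16224672)))) (a (b (a (l 16125104) (l 16146872)) (l 16107424)) (b (l 16184056) (l 16166920)))) (b (a (b (l 16290712) (l 16258040)) (b (l 16328336) (l 16305120))) (a (l 16232720) (l 16294200)))) (b (a (b (l 16395520) (l 16386312)) (b (a (l 16466472) (l 16517920)) (l 16497672))) (a (a (l 16358056) (l 16420224)) (l 16507808)))) (a (a (b (a (b (l 16092936) (l 16093040)) (l 16167464)) (a (l 16122832) (l 16211792))) (b (a (l 16245264) (l 16317864)) (a (l 16299128) (l 2)))) (b (a (b (l 16410760) (l 2)) (l 2)) (l 2)))) (b (a (b (a (b (l 16590304) (l 2)) (l 2)) (l 2)) (l 2)) (l 2))), by decide +kernel⟩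

theorem s5_pp_022 : ∃ t, chk3 f_pp_022 t 1 10 1 = true := ex3_a k1_pp_022 k2_pp_022

theorem s6_pp_022 : ∃ t, chk3 f_pp_022 t 1 5 1 = true := ex3_b s5_pp_022 k3_pp_022

theorem s7_pp_022 : ∃ t, chk3 f_pp_022 t 1 2 1 = true := ex3_b k0_pp_022 s6_pp_022

theorem s8_pp_022 : ∃ t, chk3 f_pp_022 t 1 1 1 = true := ex3_b s7_pp_022 k4_pp_022

theorem c_pp_022 : CertB 0 536870912 1073741824 536870912 649613803 48318383 3 eng mog cd3q0 cd7q2 pd2 false true true .pp 0 2 2
    ndB3q0 ndB7q2 pcB2 Cut.none Ext.none :=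
  certB1 (fam := false) (s1 := true) (s2 := true) (a := 0) (b := 2) (c := 2) (cn := .pp) (n1 := ndB3q0) (n2 := ndB7q2) (pc := pcB2) (cut := Cut.none) (xt := Ext.none) (P1 := 0) (W1 := 536870912) (P2 := 1073741824) (W2 := 536870912) (P3 := 649613803) (W3 := 48318383) (N0 := 3) (En := eng) (mo := mog) (C1 := cd3q0) (C2 := cd7q2) (C3 := pd2)
    rfl (fun _ => rfl) s8_pp_022

noncomputable def f_pp_023 : ℕ → ℕ → ℕ → ℕ → Bool := onCell 1073741824 536870912 0 1230186008 649613803 48318383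
    (rowB 3 eng mog cd3q0 cd7q3 pd2 2 false true true .up 0 2 3 (qsf 0 536870912 0 1230186008 2) ndB3q0 ndB7q3 pcB2 Cut.none Ext.none)

def k0_pp_023 : ∃ t, chk3 f_pp_023 t 1 1 1 = true :=
  ⟨(b (a (l 2) (a (l 2) (b (l 16666560) (l 16901376)))) (b (a (a (l 2) (a (l 2) (l 16660776))) (a (b (l 16659208) (l 16662680)) (b (l 16731432) (l 16663928)))) (b (a (a (l 2) (a (a (a (l 16781928) (a (l 16768872) (b (l 2) (l 16748568)))) (l 16746160)) (l 16700864))) (a (b (l 16634224) (l 16624056)) (b (l 16579408) (l 16499464)))) (a (a (a (l 3) (a (l 3) (a (l 687362498295) (b (l 16730296) (l 16682144))))) (a (a (a (b (l 16718088) (a (l 16672232) (l 16663744))) (a (b (l 16710088) (l 16652936)) (a (b (l 16707184) (l 16644992)) (b (l 16873912) (a (l 16644576) (l 16646504)))))) (b (l 16693320) (l 16617656))) (b (l 16616464) (l 16605688)))) (a (b (a (l 16624000) (l 16546456)) (a (l 16526448) (l 16447096))) (b (a (l 16452888) (l 16354664)) (a (l 16341928) (b (l 16266616)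 (l 16201872))))))))), by decide +kernel⟩

theorem c_pp_023 : CertB 0 536870912 0 1230186008 649613803 48318383 3 eng mog cd3q0 cd7q3 pd2 false true true .up 0 2 3
    ndB3q0 ndB7q3 pcB2 Cut.none Ext.none :=
  certB2 (fam := false) (s1 := true) (s2 := true) (a := 0) (b := 2) (c := 3) (cn := .up) (n1 := ndB3q0) (n2 := ndB7q3) (pc := pcB2) (cut := Cut.none) (xt := Ext.none) (P1 := 0) (W1 := 536870912) (P2 := 0) (W2 := 1230186008) (P3 := 649613803) (W3 := 48318383) (N0 := 3) (En := eng) (mo := mog) (C1 := cd3q0) (C2 := cd7q3) (C3 := pd2)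
    rfl (fun _ => rfl) k0_pp_023

noncomputable def f_pp_033 : ℕ → ℕ → ℕ → ℕ → Bool := onCell 1610612736 536870912 0 1230186008 649613803 48318383
    (rowB 3 eng mog cd3q0 cd7q3 pd3 2 false true true .pnn 0 3 3 (qsf 0 536870912 0 1230186008 3) ndB3q0 ndB7q3 pcB3 Cut.none Ext.none)

def k0_pp_033 : ∃ t, chk3 f_pp_033 t 1 1 1 = true :=
  ⟨(b (b (a (a (l 16664480) (l 16590528)) (l 4)) (a (a (a (l 16673592) (l 16629288)) (a (a (l 16593736) (l 16634624)) (l 16529712))) (a (a (b (l 16502240) (l 16460960)) (a (l 16442808) (l 16424168))) (a (a (l 16570880) (l 1170948730055)) (l 4))))) (b (a (a (a (b (l 16632064) (l 16543624)) (b (a (l 16575568) (l 16543376)) (b (l 16493096) (l 16433496)))) (a (a (b (a (l 16519248) (l 16503024)) (b (l 16438992) (l 16380440))) (b (b (l 16503256) (l 16468168)) (b (l 16588464) (l 16355144)))) (b (b (l 16457824) (l 16416816)) (b (l 16367584) (a (l 16314512) (l 16271976)))))) (b (a (a (a (l 16398408) (b (l 16400776) (l 16353720)))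 (a (b (l 16386248) (l 16336696)) (b (l 16376232) (l 520797930631)))) (a (a (b (l 829498707799) (l 1)) (l 1)) (l 1))) (a (a (b (a (l 16316584) (l 16286656)) (a (l 450467472855) (l 450467360055))) (b (a (l 527240262231) (l 1)) (l 1))) (l 1)))) (a (b (a (a (b (l 16427600) (l 16320848)) (b (l 16353872) (l 16235200))) (a (b (a (l 16305168) (l 16264256)) (b (l 16192088) (l 16132008))) (b (a (l 307659894007) (l 372621195399)) (l 1)))) (a (b (a (l 16208128) (l 306048886759)) (a (l 286184586887) (l 689374264759))) (b (a (a (l 373694428999) (l 1)) (l 1)) (l 1)))) (l 1)))), by decide +kernel⟩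

theorem c_pp_033 : CertB 0 536870912 0 1230186008 649613803 48318383 3 eng mog cd3q0 cd7q3 pd3 false true true .pnn 0 3 3
    ndB3q0 ndB7q3 pcB3 Cut.none Ext.none :=
  certB2 (fam := false) (s1 := true) (s2 := true) (a := 0) (b := 3) (c := 3) (cn := .pnn) (n1 := ndB3q0) (n2 := ndB7q3) (pc := pcB3) (cut := Cut.none) (xt := Ext.none) (P1 := 0) (W1 := 536870912) (P2 := 0) (W2 := 1230186008) (P3 := 649613803) (W3 := 48318383) (N0 := 3) (En := eng) (mo := mog) (C1 := cd3q0) (C2 := cd7q3) (C3 := pd3)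
    rfl (fun _ => rfl) k0_pp_033

noncomputable def f_pp_101 : ℕ → ℕ → ℕ → ℕ → Bool := onCell 536870912 536870912 536870912 536870912 649613803 48318383
    (rowB 3 eng mog cd3q1 cd7q1 pd0 0 false true true .npn 1 0 1 (qsf 536870912 536870912 536870912 536870912 0) ndB3q1 ndB7q1 pcB0 Cut.none Ext.none)

def k0_pp_101 : ∃ t, chk3 f_pp_101 t 1 1 1 = true :=
  ⟨(l 3), by decide +kernel⟩

theorem c_pp_101 : CertB 536870912 536870912 536870912 536870912 649613803 48318383 3 eng mog cd3q1 cd7q1 pd0 false true true .npn 1 0 1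
    ndB3q1 ndB7q1 pcB0 Cut.none Ext.none :=
  certB0 (fam := false) (s1 := true) (s2 := true) (a := 1) (b := 0) (c := 1) (cn := .npn) (n1 := ndB3q1) (n2 := ndB7q1) (pc := pcB0) (cut := Cut.none) (xt := Ext.none) (P1 := 536870912) (W1 := 536870912) (P2 := 536870912) (W2 := 536870912) (P3 := 649613803) (W3 := 48318383) (N0 := 3) (En := eng) (mo := mog) (C1 := cd3q1) (C2 := cd7q1) (C3 := pd0)
    rfl k0_pp_101

noncomputable def f_pp_102 : ℕ → ℕ → ℕ → ℕ → Bool := onCell 536870912 536870912 1073741824 536870912 649613803 48318383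
    (rowB 3 eng mog cd3q1 cd7q2 pd0 0 false true true .npp 1 0 2 (qsf 536870912 536870912 1073741824 536870912 0) ndB3q1 ndB7q2 pcB0 Cut.none Ext.none)

def k0_pp_102 : ∃ t, chk3 f_pp_102 t 1 1 1 = true :=
  ⟨(l 3), by decide +kernel⟩

theorem c_pp_102 : CertB 536870912 536870912 1073741824 536870912 649613803 48318383 3 eng mog cd3q1 cd7q2 pd0 false true true .npp 1 0 2
    ndB3q1 ndB7q2 pcB0 Cut.none Ext.none :=
  certB0 (fam := false) (s1 := true) (s2 := true) (a := 1) (b := 0) (c := 2) (cn := .npp) (n1 := ndB3q1) (n2 := ndB7q2) (pc := pcB0) (cut := Cut.none) (xt := Ext.none) (P1 := 536870912) (W1 := 536870912) (P2 := 1073741824) (W2 := 536870912) (P3 := 649613803) (W3 := 48318383) (N0 := 3) (En := eng) (mo := mog) (C1 := cd3q1) (C2 := cd7q2) (C3 := pd0)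
    rfl k0_pp_102

noncomputable def f_pp_112 : ℕ → ℕ → ℕ → ℕ → Bool := onCell 536870912 536870912 1073741824 536870912 649613803 48318383
    (rowB 3 eng mog cd3q1 cd7q2 pd1 0 false true true .dn 1 1 2 (qsf 536870912 536870912 1073741824 536870912 1) ndB3q1 ndB7q2 pcB1 Cut.none Ext.none)

def k0_pp_112 : ∃ t, chk3 f_pp_112 t 1 1 1 = true :=
  ⟨(l 3), by decide +kernel⟩

theorem c_pp_112 : CertB 536870912 536870912 1073741824 536870912 649613803 48318383 3 eng mog cd3q1 cd7q2 pd1 false true true .dn 1 1 2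
    ndB3q1 ndB7q2 pcB1 Cut.none Ext.none :=
  certB0 (fam := false) (s1 := true) (s2 := true) (a := 1) (b := 1) (c := 2) (cn := .dn) (n1 := ndB3q1) (n2 := ndB7q2) (pc := pcB1) (cut := Cut.none) (xt := Ext.none) (P1 := 536870912) (W1 := 536870912) (P2 := 1073741824) (W2 := 536870912) (P3 := 649613803) (W3 := 48318383) (N0 := 3) (En := eng) (mo := mog) (C1 := cd3q1) (C2 := cd7q2) (C3 := pd1)
    rfl k0_pp_112

noncomputable def f_pp_113 : ℕ → ℕ → ℕ → ℕ → Bool := onCell 536870912 536870912 0 1230186008 649613803 48318383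
    (rowB 3 eng mog cd3q1 cd7q3 pd1 2 false true true .nn 1 1 3 (qsf 536870912 536870912 0 1230186008 1) ndB3q1 ndB7q3 pcB1 Cut.none Ext.none)

def k0_pp_113 : ∃ t, chk3 f_pp_113 t 1 1 1 = true :=
  ⟨(a (b (l 2) (b (l 3) (l 3))) (b (a (l 2) (b (a (l 2) (l 16781256)) (a (b (l 1050220211335) (a (l 462413883687) (l 440402361287))) (b (l 16787624) (a (l 16787568) (l 16827416)))))) (b (a (l 3) (a (l 3) (b (a (l 346449926343) (l 375977675127)) (a (l 3) (l 255717912279))))) (l 3)))), by decide +kernel⟩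

theorem c_pp_113 : CertB 536870912 536870912 0 1230186008 649613803 48318383 3 eng mog cd3q1 cd7q3 pd1 false true true .nn 1 1 3
    ndB3q1 ndB7q3 pcB1 Cut.none Ext.none :=
  certB2 (fam := false) (s1 := true) (s2 := true) (a := 1) (b := 1) (c := 3) (cn := .nn) (n1 := ndB3q1) (n2 := ndB7q3) (pc := pcB1) (cut := Cut.none) (xt := Ext.none) (P1 := 536870912) (W1 := 536870912) (P2 := 0) (W2 := 1230186008) (P3 := 649613803) (W3 := 48318383) (N0 := 3) (En := eng) (mo := mog) (C1 := cd3q1) (C2 := cd7q3) (C3 := pd1)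
    rfl (fun _ => rfl) k0_pp_113

noncomputable def f_pp_123 : ℕ → ℕ → ℕ → ℕ → Bool := onCell 1073741824 536870912 0 1230186008 649613803 48318383
    (rowB 3 eng mog cd3q1 cd7q3 pd2 2 false true true .npn 1 2 3 (qsf 536870912 536870912 0 1230186008 2) ndB3q1 ndB7q3 pcB2 Cut.none Ext.none)

def k0_pp_123 : ∃ t, chk3 f_pp_123 t 1 1 1 = true :=
  ⟨(a (a (b (b (a (l 16743528) (l 16661064)) (b (a (l 16804368) (l 16720648)) (a (l 16882912) (l 16795960)))) (a (b (b (b (l 16889120) (l 16888680)) (a (l 16881696) (l 16904272))) (b (a (l 3) (l 16871992)) (l 3))) (b (b (l 16905976) (a (l 16904016) (l 16919472))) (a (b (l 16890064) (l 3)) (b (l 17061632) (a (l 421477211479) (l 413424153991))))))) (b (b (a (l 16602392) (l 16620456)) (a (b (l 16644768) (a (l 16725840) (l 16688048))) (l 16671560))) (b (a (a (b (l 16840696) (a (l 16926760) (a (l 16929544) (l 16932288)))) (l 16852896)) (l 16813184)) (a (a (a (b (l 16844800) (l 409666026599)) (b (a (l 16823872) (b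 (l 16834928) (l 16788480))) (l 1))) (b (l 16787816) (l 1))) (b (l 16759072) (l 1)))))) (b (a (b (a (l 16656392) (l 16668944)) (a (l 16692672) (l 16705432))) (b (l 16727192) (l 16939744))) (b (a (b (l 16735336) (l 16765712)) (b (l 16765768) (l 1))) (l 1)))), by decide +kernel⟩

theorem c_pp_123 : CertB 536870912 536870912 0 1230186008 649613803 48318383 3 eng mog cd3q1 cd7q3 pd2 false true true .npn 1 2 3
    ndB3q1 ndB7q3 pcB2 Cut.none Ext.none :=
  certB2 (fam := false) (s1 := true) (s2 := true) (a := 1) (b := 2) (c := 3) (cn := .npn) (n1 := ndB3q1) (n2 := ndB7q3) (pc := pcB2) (cut := Cut.none) (xt := Ext.none) (P1 := 536870912) (W1 := 536870912) (P2 := 0) (W2 := 1230186008) (P3 := 649613803) (W3 := 48318383) (N0 := 3) (En := eng) (mo := mog) (C1 := cd3q1) (C2 := cd7q3) (C3 := pd2)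
    rfl (fun _ => rfl) k0_pp_123

noncomputable def f_pp_133 : ℕ → ℕ → ℕ → ℕ → Bool := onCell 1610612736 536870912 0 1230186008 649613803 48318383
    (rowB 3 eng mog cd3q1 cd7q3 pd3 2 false true true .dn 1 3 3 (qsf 536870912 536870912 0 1230186008 3) ndB3q1 ndB7q3 pcB3 Cut.none Ext.none)

def k0_pp_133 : ∃ t, chk3 f_pp_133 t 1 1 1 = true :=
  ⟨(b (b (a (a (l 16748768) (l 1)) (l 1)) (l 1)) (l 1)), by decide +kernel⟩

theorem c_pp_133 : CertB 536870912 536870912 0 1230186008 649613803 48318383 3 eng mog cd3q1 cd7q3 pd3 false true true .dn 1 3 3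
    ndB3q1 ndB7q3 pcB3 Cut.none Ext.none :=
  certB2 (fam := false) (s1 := true) (s2 := true) (a := 1) (b := 3) (c := 3) (cn := .dn) (n1 := ndB3q1) (n2 := ndB7q3) (pc := pcB3) (cut := Cut.none) (xt := Ext.none) (P1 := 536870912) (W1 := 536870912) (P2 := 0) (W2 := 1230186008) (P3 := 649613803) (W3 := 48318383) (N0 := 3) (En := eng) (mo := mog) (C1 := cd3q1) (C2 := cd7q3) (C3 := pd3)
    rfl (fun _ => rfl) k0_pp_133

noncomputable def f_pp_202_a : ℕ → ℕ → ℕ → ℕ → Bool := onCell 0 536870912 1073741824 536870912 649613803 48318383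
    (rowB 3 eng mog cd3q2a cd7q2 pd0 0 false true true .pp 2 0 2 (qsf 0 536870912 1073741824 536870912 0) ndB3q2a ndB7q2 pcB0 Cut.none Ext.none)

def k0_pp_202_a : ∃ t, chk3 f_pp_202_a t 1 1 1 = true :=
  ⟨(l 5), by decide +kernel⟩

theorem c_pp_202_a : CertB 0 536870912 1073741824 536870912 649613803 48318383 3 eng mog cd3q2a cd7q2 pd0 false true true .pp 2 0 2
    ndB3q2a ndB7q2 pcB0 Cut.none Ext.none :=
  certB0 (fam := false) (s1 := true) (s2 := true) (a := 2) (b := 0) (c := 2) (cn := .pp) (n1 := ndB3q2a) (n2 := ndB7q2) (pc := pcB0) (cut := Cut.none) (xt := Ext.none) (P1 := 0) (W1 := 536870912) (P2 := 1073741824) (W2 := 536870912) (P3 := 649613803) (W3 := 48318383) (N0 := 3) (En := eng) (mo := mog) (C1 := cd3q2a) (C2 := cd7q2) (C3 := pd0)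
    rfl k0_pp_202_a

noncomputable def f_pp_202_b : ℕ → ℕ → ℕ → ℕ → Bool := onCell 1239849684 370763052 1073741824 536870912 649613803 48318383
    (rowB 3 eng mog cd3q2b cd7q2 pd0 0 false true true .pp 2 0 2 (qsf 1239849684 370763052 1073741824 536870912 0) ndB3q2b ndB7q2 pcB0 Cut.none Ext.none)

def k0_pp_202_b : ∃ t, chk3 f_pp_202_b t 1 1 1 = true :=
  ⟨(l 5), by decide +kernel⟩

theorem c_pp_202_b : CertB 1239849684 370763052 1073741824 536870912 649613803 48318383 3 eng mog cd3q2b cd7q2 pd0 false true true .pp 2 0 2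
    ndB3q2b ndB7q2 pcB0 Cut.none Ext.none :=
  certB0 (fam := false) (s1 := true) (s2 := true) (a := 2) (b := 0) (c := 2) (cn := .pp) (n1 := ndB3q2b) (n2 := ndB7q2) (pc := pcB0) (cut := Cut.none) (xt := Ext.none) (P1 := 1239849684) (W1 := 370763052) (P2 := 1073741824) (W2 := 536870912) (P3 := 649613803) (W3 := 48318383) (N0 := 3) (En := eng) (mo := mog) (C1 := cd3q2b) (C2 := cd7q2) (C3 := pd0)
    rfl k0_pp_202_b

noncomputable def f_pp_203_a : ℕ → ℕ → ℕ → ℕ → Bool := onCell 0 536870912 0 1230186008 649613803 48318383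
    (rowB 3 eng mog cd3q2a cd7q3 pd0 0 false true true .up 2 0 3 (qsf 0 536870912 0 1230186008 0) ndB3q2a ndB7q3 pcB0 Cut.none Ext.none)

def k0_pp_203_a : ∃ t, chk3 f_pp_203_a t 1 1 1 = true :=
  ⟨(b (l 2) (l 3)), by decide +kernel⟩

theorem c_pp_203_a : CertB 0 536870912 0 1230186008 649613803 48318383 3 eng mog cd3q2a cd7q3 pd0 false true true .up 2 0 3
    ndB3q2a ndB7q3 pcB0 Cut.none Ext.none :=
  certB0 (fam := false) (s1 := true) (s2 := true) (a := 2) (b := 0) (c := 3) (cn := .up) (n1 := ndB3q2a) (n2 := ndB7q3) (pc := pcB0) (cut := Cut.none) (xt := Ext.none) (P1 := 0) (W1 := 536870912) (P2 := 0) (W2 := 1230186008) (P3 := 649613803) (W3 := 48318383) (N0 := 3) (En := eng) (mo := mog) (C1 := cd3q2a) (C2 := cd7q3) (C3 := pd0)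
    rfl k0_pp_203_a

noncomputable def f_pp_203_b : ℕ → ℕ → ℕ → ℕ → Bool := onCell 1239849684 370763052 0 1230186008 649613803 48318383
    (rowB 3 eng mog cd3q2b cd7q3 pd0 0 false true true .up 2 0 3 (qsf 1239849684 370763052 0 1230186008 0) ndB3q2b ndB7q3 pcB0 Cut.none Ext.none)

def k0_pp_203_b : ∃ t, chk3 f_pp_203_b t 1 1 1 = true :=
  ⟨(b (l 3) (l 3)), by decide +kernel⟩

theorem c_pp_203_b : CertB 1239849684 370763052 0 1230186008 649613803 48318383 3 eng mog cd3q2b cd7q3 pd0 false true true .up 2 0 3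
    ndB3q2b ndB7q3 pcB0 Cut.none Ext.none :=
  certB0 (fam := false) (s1 := true) (s2 := true) (a := 2) (b := 0) (c := 3) (cn := .up) (n1 := ndB3q2b) (n2 := ndB7q3) (pc := pcB0) (cut := Cut.none) (xt := Ext.none) (P1 := 1239849684) (W1 := 370763052) (P2 := 0) (W2 := 1230186008) (P3 := 649613803) (W3 := 48318383) (N0 := 3) (En := eng) (mo := mog) (C1 := cd3q2b) (C2 := cd7q3) (C3 := pd0)
    rfl k0_pp_203_b

noncomputable def cut_pp_213_a : Cut := Cut.of [[⟨0, 1, 0, 67108864⟩, ⟨1, 1, 0, 67108864⟩, ⟨2, 2, 0, 16777216⟩]]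

noncomputable def f_pp_213_a : ℕ → ℕ → ℕ → ℕ → Bool := onCell 0 536870912 0 1230186008 649613803 48318383
    (rowB 3 eng mog cd3q2a cd7q3 pd1 0 false true true .pnn 2 1 3 (qsf 0 536870912 0 1230186008 1) ndB3q2a ndB7q3 pcB1 cut_pp_213_a Ext.none)

def k0_pp_213_a : ∃ t, chk3 f_pp_213_a t 1 1 1 = true :=
  ⟨(b (a (l 3) (b (a (l 3) (b (a (l 3) (l 6)) (l 3))) (l 3))) (l 3)), by decide +kernel⟩

theorem c_pp_213_a : CertB 0 536870912 0 1230186008 649613803 48318383 3 eng mog cd3q2a cd7q3 pd1 false true true .pnn 2 1 3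
    ndB3q2a ndB7q3 pcB1 cut_pp_213_a Ext.none :=
  certB0 (fam := false) (s1 := true) (s2 := true) (a := 2) (b := 1) (c := 3) (cn := .pnn) (n1 := ndB3q2a) (n2 := ndB7q3) (pc := pcB1) (cut := cut_pp_213_a) (xt := Ext.none) (P1 := 0) (W1 := 536870912) (P2 := 0) (W2 := 1230186008) (P3 := 649613803) (W3 := 48318383) (N0 := 3) (En := eng) (mo := mog) (C1 := cd3q2a) (C2 := cd7q3) (C3 := pd1)
    rfl k0_pp_213_a

noncomputable def cut_pp_213_b : Cut := Cut.of [[⟨0, 1, 0, 67108864⟩, ⟨1, 1, 0, 67108864⟩, ⟨2, 2, 0, 16777216⟩]]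

noncomputable def f_pp_213_b : ℕ → ℕ → ℕ → ℕ → Bool := onCell 1239849684 370763052 0 1230186008 649613803 48318383
    (rowB 3 eng mog cd3q2b cd7q3 pd1 0 false true true .pnn 2 1 3 (qsf 1239849684 370763052 0 1230186008 1) ndB3q2b ndB7q3 pcB1 cut_pp_213_b Ext.none)

def k0_pp_213_b : ∃ t, chk3 f_pp_213_b t 1 1 1 = true :=
  ⟨(b (l 3) (l 3)), by decide +kernel⟩

theorem c_pp_213_b : CertB 1239849684 370763052 0 1230186008 649613803 48318383 3 eng mog cd3q2b cd7q3 pd1 false true true .pnn 2 1 3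
    ndB3q2b ndB7q3 pcB1 cut_pp_213_b Ext.none :=
  certB0 (fam := false) (s1 := true) (s2 := true) (a := 2) (b := 1) (c := 3) (cn := .pnn) (n1 := ndB3q2b) (n2 := ndB7q3) (pc := pcB1) (cut := cut_pp_213_b) (xt := Ext.none) (P1 := 1239849684) (W1 := 370763052) (P2 := 0) (W2 := 1230186008) (P3 := 649613803) (W3 := 48318383) (N0 := 3) (En := eng) (mo := mog) (C1 := cd3q2b) (C2 := cd7q3) (C3 := pd1)
    rfl k0_pp_213_b

noncomputable def f_pp_303 : ℕ → ℕ → ℕ → ℕ → Bool := onCell 1610612736 536870912 0 1230186008 649613803 48318383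
    (rowB 3 eng mog cd3q3 cd7q3 pd0 0 false true true .npn 3 0 3 (qsf 1610612736 536870912 0 1230186008 0) ndB3q3 ndB7q3 pcB0 Cut.none Ext.none)

def k0_pp_303 : ∃ t, chk3 f_pp_303 t 1 1 1 = true :=
  ⟨(b (l 3) (l 5)), by decide +kernel⟩

theorem c_pp_303 : CertB 1610612736 536870912 0 1230186008 649613803 48318383 3 eng mog cd3q3 cd7q3 pd0 false true true .npn 3 0 3
    ndB3q3 ndB7q3 pcB0 Cut.none Ext.none :=
  certB0 (fam := false) (s1 := true) (s2 := true) (a := 3) (b := 0) (c := 3) (cn := .npn) (n1 := ndB3q3) (n2 := ndB7q3) (pc := pcB0) (cut := Cut.none) (xt := Ext.none) (P1 := 1610612736) (W1 := 536870912) (P2 := 0) (W2 := 1230186008) (P3 := 649613803) (W3 := 48318383) (N0 := 3) (En := eng) (mo := mog) (C1 := cd3q3) (C2 := cd7q3) (C3 := pd0)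
    rfl k0_pp_303

noncomputable def f_pp_313 : ℕ → ℕ → ℕ → ℕ → Bool := onCell 1610612736 536870912 0 1230186008 649613803 48318383
    (rowB 3 eng mog cd3q3 cd7q3 pd1 0 false true true .dn 3 1 3 (qsf 1610612736 536870912 0 1230186008 1) ndB3q3 ndB7q3 pcB1 Cut.none Ext.none)

def k0_pp_313 : ∃ t, chk3 f_pp_313 t 1 1 1 = true :=
  ⟨(b (l 3) (l 1)), by decide +kernel⟩

theorem c_pp_313 : CertB 1610612736 536870912 0 1230186008 649613803 48318383 3 eng mog cd3q3 cd7q3 pd1 false true true .dn 3 1 3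
    ndB3q3 ndB7q3 pcB1 Cut.none Ext.none :=
  certB0 (fam := false) (s1 := true) (s2 := true) (a := 3) (b := 1) (c := 3) (cn := .dn) (n1 := ndB3q3) (n2 := ndB7q3) (pc := pcB1) (cut := Cut.none) (xt := Ext.none) (P1 := 1610612736) (W1 := 536870912) (P2 := 0) (W2 := 1230186008) (P3 := 649613803) (W3 := 48318383) (N0 := 3) (En := eng) (mo := mog) (C1 := cd3q3) (C2 := cd7q3) (C3 := pd1)
    rfl k0_pp_313

noncomputable def f_pm_001 : ℕ → ℕ → ℕ → ℕ → Bool := onCell 0 536870912 536870912 536870912 649613803 48318383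
    (rowB 3 eng mog cd3q0 cd7q1 pd0 0 false true false .up 0 0 1 (qsf 0 536870912 536870912 536870912 0) ndB3q0 ndB7q1 pcB0 Cut.none Ext.none)

def k0_pm_001 : ∃ t, chk3 f_pm_001 t 1 1 1 = true :=
  ⟨(l 4), by decide +kernel⟩

theorem c_pm_001 : CertB 0 536870912 536870912 536870912 649613803 48318383 3 eng mog cd3q0 cd7q1 pd0 false true false .up 0 0 1
    ndB3q0 ndB7q1 pcB0 Cut.none Ext.none :=
  certB0 (fam := false) (s1 := true) (s2 := false) (a := 0) (b := 0) (c := 1) (cn := .up) (n1 := ndB3q0) (n2 := ndB7q1) (pc := pcB0) (cut := Cut.none) (xt := Ext.none) (P1 := 0) (W1 := 536870912) (P2 := 536870912) (W2 := 536870912) (P3 := 649613803) (W3 := 48318383) (N0 := 3) (En := eng) (mo := mog) (C1 := cd3q0) (C2 := cd7q1) (C3 := pd0)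
    rfl k0_pm_001

noncomputable def f_pm_011 : ℕ → ℕ → ℕ → ℕ → Bool := onCell 0 536870912 536870912 536870912 649613803 48318383
    (rowB 3 eng mog cd3q0 cd7q1 pd1 0 false true false .pnn 0 1 1 (qsf 0 536870912 536870912 536870912 1) ndB3q0 ndB7q1 pcB1 Cut.none Ext.none)

def k0_pm_011 : ∃ t, chk3 f_pm_011 t 1 1 1 = true :=
  ⟨(l 4), by decide +kernel⟩

theorem c_pm_011 : CertB 0 536870912 536870912 536870912 649613803 48318383 3 eng mog cd3q0 cd7q1 pd1 false true false .pnn 0 1 1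
    ndB3q0 ndB7q1 pcB1 Cut.none Ext.none :=
  certB0 (fam := false) (s1 := true) (s2 := false) (a := 0) (b := 1) (c := 1) (cn := .pnn) (n1 := ndB3q0) (n2 := ndB7q1) (pc := pcB1) (cut := Cut.none) (xt := Ext.none) (P1 := 0) (W1 := 536870912) (P2 := 536870912) (W2 := 536870912) (P3 := 649613803) (W3 := 48318383) (N0 := 3) (En := eng) (mo := mog) (C1 := cd3q0) (C2 := cd7q1) (C3 := pd1)
    rfl k0_pm_011

noncomputable def f_pm_012 : ℕ → ℕ → ℕ → ℕ → Bool := onCell 0 536870912 1073741824 536870912 649613803 48318383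
    (rowB 3 eng mog cd3q0 cd7q2 pd1 0 false true false .pnp 0 1 2 (qsf 0 536870912 1073741824 536870912 1) ndB3q0 ndB7q2 pcB1 Cut.none Ext.none)

def k0_pm_012 : ∃ t, chk3 f_pm_012 t 1 1 1 = true :=
  ⟨(l 4), by decide +kernel⟩

theorem c_pm_012 : CertB 0 536870912 1073741824 536870912 649613803 48318383 3 eng mog cd3q0 cd7q2 pd1 false true false .pnp 0 1 2
    ndB3q0 ndB7q2 pcB1 Cut.none Ext.none :=
  certB0 (fam := false) (s1 := true) (s2 := false) (a := 0) (b := 1) (c := 2) (cn := .pnp) (n1 := ndB3q0) (n2 := ndB7q2) (pc := pcB1) (cut := Cut.none) (xt := Ext.none) (P1 := 0) (W1 := 536870912) (P2 := 1073741824) (W2 := 536870912) (P3 := 649613803) (W3 := 48318383) (N0 := 3) (En := eng) (mo := mog) (C1 := cd3q0) (C2 := cd7q2) (C3 := pd1)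
    rfl k0_pm_012

noncomputable def f_pm_022 : ℕ → ℕ → ℕ → ℕ → Bool := onCell 0 536870912 1073741824 536870912 649613803 48318383
    (rowB 3 eng mog cd3q0 cd7q2 pd2 0 false true false .pp 0 2 2 (qsf 0 536870912 1073741824 536870912 2) ndB3q0 ndB7q2 pcB2 Cut.none Ext.none)

def k0_pm_022 : ∃ t, chk3 f_pm_022 t 1 1 1 = true :=
  ⟨(l 4), by decide +kernel⟩

theorem c_pm_022 : CertB 0 536870912 1073741824 536870912 649613803 48318383 3 eng mog cd3q0 cd7q2 pd2 false true false .pp 0 2 2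
    ndB3q0 ndB7q2 pcB2 Cut.none Ext.none :=
  certB0 (fam := false) (s1 := true) (s2 := false) (a := 0) (b := 2) (c := 2) (cn := .pp) (n1 := ndB3q0) (n2 := ndB7q2) (pc := pcB2) (cut := Cut.none) (xt := Ext.none) (P1 := 0) (W1 := 536870912) (P2 := 1073741824) (W2 := 536870912) (P3 := 649613803) (W3 := 48318383) (N0 := 3) (En := eng) (mo := mog) (C1 := cd3q0) (C2 := cd7q2) (C3 := pd2)
    rfl k0_pm_022

noncomputable def f_pm_023 : ℕ → ℕ → ℕ → ℕ → Bool := onCell 0 536870912 0 1230186008 649613803 48318383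
    (rowB 3 eng mog cd3q0 cd7q3 pd2 0 false true false .up 0 2 3 (qsf 0 536870912 0 1230186008 2) ndB3q0 ndB7q3 pcB2 Cut.none Ext.none)

def k0_pm_023 : ∃ t, chk3 f_pm_023 t 1 1 1 = true :=
  ⟨(b (b (a (l 2) (a (l 2) (a (l 2) (l 16670312)))) (l 4)) (l 4)), by decide +kernel⟩

theorem c_pm_023 : CertB 0 536870912 0 1230186008 649613803 48318383 3 eng mog cd3q0 cd7q3 pd2 false true false .up 0 2 3
    ndB3q0 ndB7q3 pcB2 Cut.none Ext.none :=
  certB0 (fam := false) (s1 := true) (s2 := false) (a := 0) (b := 2) (c := 3) (cn := .up) (n1 := ndB3q0) (n2 := ndB7q3) (pc := pcB2) (cut := Cut.none) (xt := Ext.none) (P1 := 0) (W1 := 536870912) (P2 := 0) (W2 := 1230186008) (P3 := 649613803) (W3 := 48318383) (N0 := 3) (En := eng) (mo := mog) (C1 := cd3q0) (C2 := cd7q3) (C3 := pd2)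
    rfl k0_pm_023

noncomputable def f_pm_033 : ℕ → ℕ → ℕ → ℕ → Bool := onCell 0 536870912 0 1230186008 649613803 48318383
    (rowB 3 eng mog cd3q0 cd7q3 pd3 0 false true false .pnn 0 3 3 (qsf 0 536870912 0 1230186008 3) ndB3q0 ndB7q3 pcB3 Cut.none Ext.none)

def k0_pm_033 : ∃ t, chk3 f_pm_033 t 1 1 1 = true :=
  ⟨(b (a (l 4) (a (l 4) (b (a (l 4) (l 16663288)) (l 4)))) (l 4)), by decide +kernel⟩

theorem c_pm_033 : CertB 0 536870912 0 1230186008 649613803 48318383 3 eng mog cd3q0 cd7q3 pd3 false true false .pnn 0 3 3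
    ndB3q0 ndB7q3 pcB3 Cut.none Ext.none :=
  certB0 (fam := false) (s1 := true) (s2 := false) (a := 0) (b := 3) (c := 3) (cn := .pnn) (n1 := ndB3q0) (n2 := ndB7q3) (pc := pcB3) (cut := Cut.none) (xt := Ext.none) (P1 := 0) (W1 := 536870912) (P2 := 0) (W2 := 1230186008) (P3 := 649613803) (W3 := 48318383) (N0 := 3) (En := eng) (mo := mog) (C1 := cd3q0) (C2 := cd7q3) (C3 := pd3)
    rfl k0_pm_033

noncomputable def f_pm_101 : ℕ → ℕ → ℕ → ℕ → Bool := onCell 536870912 536870912 536870912 536870912 649613803 48318383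
    (rowB 3 eng mog cd3q1 cd7q1 pd0 0 false true false .npn 1 0 1 (qsf 536870912 536870912 536870912 536870912 0) ndB3q1 ndB7q1 pcB0 Cut.none Ext.none)

def k0_pm_101 : ∃ t, chk3 f_pm_101 t 1 1 1 = true :=
  ⟨(l 4), by decide +kernel⟩

theorem c_pm_101 : CertB 536870912 536870912 536870912 536870912 649613803 48318383 3 eng mog cd3q1 cd7q1 pd0 false true false .npn 1 0 1
    ndB3q1 ndB7q1 pcB0 Cut.none Ext.none :=
  certB0 (fam := false) (s1 := true) (s2 := false) (a := 1) (b := 0) (c := 1) (cn := .npn) (n1 := ndB3q1) (n2 := ndB7q1) (pc := pcB0) (cut := Cut.none) (xt := Ext.none) (P1 := 536870912) (W1 := 536870912) (P2 := 536870912) (W2 := 536870912) (P3 := 649613803) (W3 := 48318383) (N0 := 3) (En := eng) (mo := mog) (C1 := cd3q1) (C2 := cd7q1) (C3 := pd0)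
    rfl k0_pm_101

noncomputable def f_pm_102 : ℕ → ℕ → ℕ → ℕ → Bool := onCell 536870912 536870912 1073741824 536870912 649613803 48318383
    (rowB 3 eng mog cd3q1 cd7q2 pd0 0 false true false .npp 1 0 2 (qsf 536870912 536870912 1073741824 536870912 0) ndB3q1 ndB7q2 pcB0 Cut.none Ext.none)

def k0_pm_102 : ∃ t, chk3 f_pm_102 t 1 1 1 = true :=
  ⟨(l 4), by decide +kernel⟩

theorem c_pm_102 : CertB 536870912 536870912 1073741824 536870912 649613803 48318383 3 eng mog cd3q1 cd7q2 pd0 false true false .npp 1 0 2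
    ndB3q1 ndB7q2 pcB0 Cut.none Ext.none :=
  certB0 (fam := false) (s1 := true) (s2 := false) (a := 1) (b := 0) (c := 2) (cn := .npp) (n1 := ndB3q1) (n2 := ndB7q2) (pc := pcB0) (cut := Cut.none) (xt := Ext.none) (P1 := 536870912) (W1 := 536870912) (P2 := 1073741824) (W2 := 536870912) (P3 := 649613803) (W3 := 48318383) (N0 := 3) (En := eng) (mo := mog) (C1 := cd3q1) (C2 := cd7q2) (C3 := pd0)
    rfl k0_pm_102

noncomputable def f_pm_112 : ℕ → ℕ → ℕ → ℕ → Bool := onCell 536870912 536870912 1073741824 536870912 649613803 48318383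
    (rowB 3 eng mog cd3q1 cd7q2 pd1 0 false true false .dn 1 1 2 (qsf 536870912 536870912 1073741824 536870912 1) ndB3q1 ndB7q2 pcB1 Cut.none Ext.none)

def k0_pm_112 : ∃ t, chk3 f_pm_112 t 1 1 1 = true :=
  ⟨(l 4), by decide +kernel⟩

theorem c_pm_112 : CertB 536870912 536870912 1073741824 536870912 649613803 48318383 3 eng mog cd3q1 cd7q2 pd1 false true false .dn 1 1 2
    ndB3q1 ndB7q2 pcB1 Cut.none Ext.none :=
  certB0 (fam := false) (s1 := true) (s2 := false) (a := 1) (b := 1) (c := 2) (cn := .dn) (n1 := ndB3q1) (n2 := ndB7q2) (pc := pcB1) (cut := Cut.none) (xt := Ext.none) (P1 := 536870912) (W1 := 536870912) (P2 := 1073741824) (W2 := 536870912) (P3 := 649613803) (W3 := 48318383) (N0 := 3) (En := eng) (mo := mog) (C1 := cd3q1) (C2 := cd7q2) (C3 := pd1)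
    rfl k0_pm_112

noncomputable def f_pm_113 : ℕ → ℕ → ℕ → ℕ → Bool := onCell 536870912 536870912 0 1230186008 649613803 48318383
    (rowB 3 eng mog cd3q1 cd7q3 pd1 0 false true false .nn 1 1 3 (qsf 536870912 536870912 0 1230186008 1) ndB3q1 ndB7q3 pcB1 Cut.none Ext.none)

def k0_pm_113 : ∃ t, chk3 f_pm_113 t 1 1 1 = true :=
  ⟨(b (a (l 2) (a (l 2) (b (l 16688648) (l 16905736)))) (b (a (l 4) (a (l 4) (b (l 16656200) (l 4)))) (l 4))), by decide +kernel⟩

theorem c_pm_113 : CertB 536870912 536870912 0 1230186008 649613803 48318383 3 eng mog cd3q1 cd7q3 pd1 false true false .nn 1 1 3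
    ndB3q1 ndB7q3 pcB1 Cut.none Ext.none :=
  certB0 (fam := false) (s1 := true) (s2 := false) (a := 1) (b := 1) (c := 3) (cn := .nn) (n1 := ndB3q1) (n2 := ndB7q3) (pc := pcB1) (cut := Cut.none) (xt := Ext.none) (P1 := 536870912) (W1 := 536870912) (P2 := 0) (W2 := 1230186008) (P3 := 649613803) (W3 := 48318383) (N0 := 3) (En := eng) (mo := mog) (C1 := cd3q1) (C2 := cd7q3) (C3 := pd1)
    rfl k0_pm_113

noncomputable def f_pm_123 : ℕ → ℕ → ℕ → ℕ → Bool := onCell 1073741824 536870912 0 1230186008 649613803 48318383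
    (rowB 3 eng mog cd3q1 cd7q3 pd2 2 false true false .npn 1 2 3 (qsf 536870912 536870912 0 1230186008 2) ndB3q1 ndB7q3 pcB2 Cut.none Ext.none)

def k0_pm_123 : ∃ t, chk3 f_pm_123 t 1 1 1 = true :=
  ⟨(a (b (a (b (a (b (l 16708952) (l 16653528)) (l 16592088)) (a (l 16685536) (l 16397136))) (b (a (l 16567840) (l 16594096)) (l 16604024))) (b (l 4) (l 4))) (b (a (a (l 16649344) (l 16665232)) (a (l 16706176) (l 16739136))) (l 4))), by decide +kernel⟩

theorem c_pm_123 : CertB 536870912 536870912 0 1230186008 649613803 48318383 3 eng mog cd3q1 cd7q3 pd2 false true false .npn 1 2 3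
    ndB3q1 ndB7q3 pcB2 Cut.none Ext.none :=
  certB2 (fam := false) (s1 := true) (s2 := false) (a := 1) (b := 2) (c := 3) (cn := .npn) (n1 := ndB3q1) (n2 := ndB7q3) (pc := pcB2) (cut := Cut.none) (xt := Ext.none) (P1 := 536870912) (W1 := 536870912) (P2 := 0) (W2 := 1230186008) (P3 := 649613803) (W3 := 48318383) (N0 := 3) (En := eng) (mo := mog) (C1 := cd3q1) (C2 := cd7q3) (C3 := pd2)
    rfl (fun _ => rfl) k0_pm_123

noncomputable def f_pm_133 : ℕ → ℕ → ℕ → ℕ → Bool := onCell 1610612736 536870912 0 1230186008 649613803 48318383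
    (rowB 3 eng mog cd3q1 cd7q3 pd3 2 false true false .dn 1 3 3 (qsf 536870912 536870912 0 1230186008 3) ndB3q1 ndB7q3 pcB3 Cut.none Ext.none)

def k0_pm_133 : ∃ t, chk3 f_pm_133 t 1 1 1 = true :=
  ⟨(b (a (a (l 47479956887) (l 1)) (l 1)) (l 1)), by decide +kernel⟩

theorem c_pm_133 : CertB 536870912 536870912 0 1230186008 649613803 48318383 3 eng mog cd3q1 cd7q3 pd3 false true false .dn 1 3 3
    ndB3q1 ndB7q3 pcB3 Cut.none Ext.none :=
  certB2 (fam := false) (s1 := true) (s2 := false) (a := 1) (b := 3) (c := 3) (cn := .dn) (n1 := ndB3q1) (n2 := ndB7q3) (pc := pcB3) (cut := Cut.none) (xt := Ext.none) (P1 := 536870912) (W1 := 536870912) (P2 := 0) (W2 := 1230186008) (P3 := 649613803) (W3 := 48318383) (N0 := 3) (En := eng) (mo := mog) (C1 := cd3q1) (C2 := cd7q3) (C3 := pd3)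
    rfl (fun _ => rfl) k0_pm_133

noncomputable def f_pm_202_a : ℕ → ℕ → ℕ → ℕ → Bool := onCell 0 536870912 0 536870912 649613803 48318383
    (rowB 3 eng mog cd3q2a cd7q2 pd0 1 false true false .pp 2 0 2 (qsf 0 536870912 1073741824 536870912 0) ndB3q2a ndB7q2 pcB0 Cut.none Ext.none)

def k0_pm_202_a : ∃ t, chk3 f_pm_202_a t 1 2 1 = true :=
  ⟨(b (a (a (b (b (a (l 16360288) (l 16336112)) (a (l 16404760) (l 16379904))) (b (a (l 16445472) (l 16425720)) (a (l 16482088) (l 16463928)))) (b (b (a (l 16304240) (b (l 16255552) (l 16267448))) (a (l 16344232) (l 16296272))) (b (l 16370648) (a (l 16437792) (l 16395384))))) (b (a (a (b (l 16206632) (a (l 16251768) (l 16221864))) (b (l 16154016) (l 16167320))) (a (b (b (a (l 16062104) (l 16016328)) (l 16057144)) (a (l 16107448) (l 16066304))) (b (a (b (b (l 15963472) (l 15973200)) (l 15988928)) (a (b (b (a (l 15932456) (l 15921720)) (l 15936896)) (l 15955896)) (b (l 4) (a (l 15944616) (l 4))))) (a (l 16047144)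 (a (l 16001704) (b (l 15979368) (l 16012336))))))) (a (b (a (l 16385832) (a (l 16228080) (l 16187464))) (a (l 16338424) (a (l 16284144) (l 16245656)))) (a (b (l 16131928) (a (l 16202504) (l 16166968))) (b (a (l 16082624) (b (l 16051152) (l 16087280))) (a (l 16142864) (b (l 16122200) (l 16150576)))))))) (a (b (a (b (l 16507032) (b (l 16528880) (l 16542280))) (b (a (l 16474840) (l 16438920)) (a (l 16509256) (l 16476960)))) (a (b (a (l 16567944) (l 16558096)) (l 16587760)) (b (l 16528816) (a (l 16571704) (l 16549016))))) (a (b (b (a (l 16387280) (l 16321088)) (l 16404520)) (a (b (l 16473856) (l 16513320)) (b (l 16424712) (l 16472152)))) (b (a (b (a (l 16269440) (l 16231840)) (l 16316104)) (b (a (l 16207536) (l 16190848)) (a (l 16282952) (l 16256200)))) (a (b (l 16375232) (l 16433192)) (b (l 16359144) (l 16429032))))))), by decide +kernel⟩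

def k1_pm_202_a : ∃ t, chk3 f_pm_202_a t 1 3 1 = true :=
  ⟨(b (b (a (a (b (l 16601992) (l 16601144)) (b (a (l 16597000) (l 16579128)) (a (l 16614624) (l 16604992)))) (a (a (b (l 16551936) (l 16583760)) (b (l 16516584) (l 16557680))) (a (b (l 16486384) (l 16536520)) (b (l 16491920) (l 16550400))))) (a (b (a (l 16621760) (l 16626816)) (a (l 16630648) (l 16627784))) (a (b (a (l 16610376) (l 16591896)) (a (l 16628216) (l 16618544))) (b (a (l 16580696) (l 16602504)) (a (l 16617248) (l 16646120)))))) (b (b (a (l 1183364465095) (a (l 16651384) (a (l 16647944) (l 16688312)))) (a (l 2) (a (l 16653200) (a (l 16687920) (l 16728448))))) (a (l 2) (a (l 2) (a (l 16731128) (l 16808392)))))), by decide +kernel⟩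

theorem s2_pm_202_a : ∃ t, chk3 f_pm_202_a t 1 1 1 = true := ex3_b k0_pm_202_a k1_pm_202_a

theorem c_pm_202_a : CertB 0 536870912 1073741824 536870912 649613803 48318383 3 eng mog cd3q2a cd7q2 pd0 false true false .pp 2 0 2
    ndB3q2a ndB7q2 pcB0 Cut.none Ext.none :=
  certB1 (fam := false) (s1 := true) (s2 := false) (a := 2) (b := 0) (c := 2) (cn := .pp) (n1 := ndB3q2a) (n2 := ndB7q2) (pc := pcB0) (cut := Cut.none) (xt := Ext.none) (P1 := 0) (W1 := 536870912) (P2 := 1073741824) (W2 := 536870912) (P3 := 649613803) (W3 := 48318383) (N0 := 3) (En := eng) (mo := mog) (C1 := cd3q2a) (C2 := cd7q2) (C3 := pd0)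
    rfl (fun _ => rfl) s2_pm_202_a

noncomputable def f_pm_202_b : ℕ → ℕ → ℕ → ℕ → Bool := onCell 1239849684 370763052 0 536870912 649613803 48318383
    (rowB 3 eng mog cd3q2b cd7q2 pd0 1 false true false .pp 2 0 2 (qsf 1239849684 370763052 1073741824 536870912 0) ndB3q2b ndB7q2 pcB0 Cut.none Ext.none)

def k0_pm_202_b : ∃ t, chk3 f_pm_202_b t 1 1 1 = true :=
  ⟨(a (b (b (b (b (a (a (a (l 16381072) (l 16397592)) (b (l 16398408) (l 16416104))) (l 16522248)) (a (a (a (l 16423408) (l 16436984)) (l 16439752)) (l 16354112))) (a (a (b (l 16467424) (l 16498480)) (b (l 16465936) (l 16484056))) (b (l 16499912) (l 16410592)))) (b (a (a (b (a (l 16522712) (l 16520640)) (a (l 16547104) (l 16541088))) (b (l 16491680) (l 16488248))) (b (l 16446048) (l 16470776))) (a (a (b (l 16562328) (l 16568456)) (b (l 16519336) (l 16545776))) (b (a (l 16512272) (l 16500328)) (a (l 16551248) (l 2)))))) (b (b (a (a (b (l 16564200) (l 16572088)) (l 16681728)) (b (a (l 16586336)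 (l 2)) (l 2))) (a (a (b (l 16591720) (l 16618976)) (l 2)) (l 2))) (l 2))) (b (b (b (a (b (l 16228760) (l 16269896)) (b (l 16207088) (l 16266872))) (a (b (l 16323744) (l 16365032)) (b (l 16312464) (l 2)))) (b (a (b (l 16401392) (l 16440664)) (l 2)) (l 2))) (l 2))), by decide +kernel⟩

theorem c_pm_202_b : CertB 1239849684 370763052 1073741824 536870912 649613803 48318383 3 eng mog cd3q2b cd7q2 pd0 false true false .pp 2 0 2
    ndB3q2b ndB7q2 pcB0 Cut.none Ext.none :=
  certB1 (fam := false) (s1 := true) (s2 := false) (a := 2) (b := 0) (c := 2) (cn := .pp) (n1 := ndB3q2b) (n2 := ndB7q2) (pc := pcB0) (cut := Cut.none) (xt := Ext.none) (P1 := 1239849684) (W1 := 370763052) (P2 := 1073741824) (W2 := 536870912) (P3 := 649613803) (W3 := 48318383) (N0 := 3) (En := eng) (mo := mog) (C1 := cd3q2b) (C2 := cd7q2) (C3 := pd0)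
    rfl (fun _ => rfl) k0_pm_202_b

noncomputable def f_pm_203_a : ℕ → ℕ → ℕ → ℕ → Bool := onCell 0 536870912 0 1230186008 649613803 48318383
    (rowB 3 eng mog cd3q2a cd7q3 pd0 0 false true false .up 2 0 3 (qsf 0 536870912 0 1230186008 0) ndB3q2a ndB7q3 pcB0 Cut.none Ext.none)

def k0_pm_203_a : ∃ t, chk3 f_pm_203_a t 1 1 1 = true :=
  ⟨(b (l 2) (b (l 2) (a (b (a (l 172436674023) (l 319539391319)) (b (a (l 16708840) (l 16709112)) (a (b (l 16664080) (l 16644928)) (b (l 16680576) (a (l 16649056) (l 16653072)))))) (b (l 2) (a (b (l 16755328) (b (l 16700672) (l 16672512))) (b (l 16937456) (l 16824112))))))), by decide +kernel⟩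

theorem c_pm_203_a : CertB 0 536870912 0 1230186008 649613803 48318383 3 eng mog cd3q2a cd7q3 pd0 false true false .up 2 0 3
    ndB3q2a ndB7q3 pcB0 Cut.none Ext.none :=
  certB0 (fam := false) (s1 := true) (s2 := false) (a := 2) (b := 0) (c := 3) (cn := .up) (n1 := ndB3q2a) (n2 := ndB7q3) (pc := pcB0) (cut := Cut.none) (xt := Ext.none) (P1 := 0) (W1 := 536870912) (P2 := 0) (W2 := 1230186008) (P3 := 649613803) (W3 := 48318383) (N0 := 3) (En := eng) (mo := mog) (C1 := cd3q2a) (C2 := cd7q3) (C3 := pd0)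
    rfl k0_pm_203_a

noncomputable def f_pm_203_b : ℕ → ℕ → ℕ → ℕ → Bool := onCell 0 536870912 0 1230186008 649613803 48318383
    (rowB 3 eng mog cd3q2b cd7q3 pd0 2 false true false .up 2 0 3 (qsf 1239849684 370763052 0 1230186008 0) ndB3q2b ndB7q3 pcB0 Cut.none Ext.none)

def k0_pm_203_b : ∃ t, chk3 f_pm_203_b t 1 1 1 = true :=
  ⟨(b (l 3) (b (a (l 3) (a (l 3) (b (l 3) (b (l 3) (a (l 180556788631) (a (l 16732560) (l 155323441287))))))) (a (a (b (l 2) (b (a (l 2) (b (l 16298768) (l 16280968))) (a (l 16211432) (l 16302664)))) (b (a (b (l 3) (b (l 16416352) (l 16394456))) (b (l 260013015943) (b (l 16500960) (l 16494488)))) (b (a (l 16397072) (l 16607400)) (a (l 16410016) (a (l 16490432) (l 16534632)))))) (a (b (a (b (l 215989783671) (b (l 16583392) (l 16583408))) (b (l 144049121383) (l 16660208))) (a (b (l 16591224) (l 16593072)) (b (l 16654160) (l 306586033191)))) (b (a (b (a (l 16705000) (l 16722264)) (l 16704376)) (b (b (l 16738944) (l 16734056))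 (l 16704176))) (b (l 290481077607) (a (l 459594501015) (l 1)))))))), by decide +kernel⟩

theorem c_pm_203_b : CertB 1239849684 370763052 0 1230186008 649613803 48318383 3 eng mog cd3q2b cd7q3 pd0 false true false .up 2 0 3
    ndB3q2b ndB7q3 pcB0 Cut.none Ext.none :=
  certB2 (fam := false) (s1 := true) (s2 := false) (a := 2) (b := 0) (c := 3) (cn := .up) (n1 := ndB3q2b) (n2 := ndB7q3) (pc := pcB0) (cut := Cut.none) (xt := Ext.none) (P1 := 1239849684) (W1 := 370763052) (P2 := 0) (W2 := 1230186008) (P3 := 649613803) (W3 := 48318383) (N0 := 3) (En := eng) (mo := mog) (C1 := cd3q2b) (C2 := cd7q3) (C3 := pd0)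
    rfl (fun _ => rfl) k0_pm_203_b

noncomputable def cut_pm_213_a : Cut := Cut.of [[⟨0, 1, 0, 67108864⟩, ⟨1, 1, 0, 67108864⟩, ⟨2, 2, 0, 16777216⟩]]

noncomputable def f_pm_213_a : ℕ → ℕ → ℕ → ℕ → Bool := onCell 0 536870912 0 1230186008 649613803 48318383
    (rowB 3 eng mog cd3q2a cd7q3 pd1 0 false true false .pnn 2 1 3 (qsf 0 536870912 0 1230186008 1) ndB3q2a ndB7q3 pcB1 cut_pm_213_a Ext.none)

def k0_pm_213_a : ∃ t, chk3 f_pm_213_a t 1 2 1 = true :=
  ⟨(a (b (l 3) (b (a (l 3) (a (l 3) (b (l 3) (a (l 3) (l 306721154231))))) (a (b (l 3) (a (l 3) (b (l 3) (l 266455883047)))) (b (a (b (l 3) (l 270750845879)) (b (l 232632994791) (a (l 16759888) (l 16767000)))) (a (b (l 236927982903) (a (l 16760032) (l 16767560))) (b (a (l 16766296) (l 16776616)) (l 16842584))))))) (b (a (b (l 3) (a (l 3) (b (l 3) (a (b (l 3) (l 313163511879)) (b (l 313700428839) (l 16781352)))))) (a (a (b (l 3) (b (b (l 359334403799) (l 211694957703)) (b (l 16781824) (l 16785056))))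 (b (l 6) (b (b (l 203105034455) (l 16782640)) (b (l 16786096) (l 16791632))))) (b (l 6) (b (b (l 6) (a (l 16784368) (l 16783488))) (a (l 16807000) (l 16789728)))))) (a (b (a (b (a (l 3) (l 340543943015)) (a (l 260550256999) (l 16818848))) (b (b (a (l 16778960) (l 16784008)) (a (l 16781048) (l 16786600))) (b (l 16850536) (l 16792528)))) (a (b (a (l 16860584) (l 16784728)) (a (l 16788320) (l 16806528))) (b (l 16883416) (l 16828264)))) (b (a (b (a (l 16857040) (l 16796920)) (l 16813336)) (b (l 16800072) (l 16814200))) (a (b (l 16831568) (l 16847432)) (b (l 16828800) (l 16843400))))))), by decide +kernel⟩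

def k1_pm_213_a : ∃ t, chk3 f_pm_213_a t 1 3 1 = true :=
  ⟨(b (a (b (a (b (a (b (l 3) (l 310479310407)) (b (l 227801184183) (l 16777720))) (a (l 264308463911) (b (l 16791192) (l 16796592)))) (b (a (b (a (l 16770592) (l 16782896)) (l 16787776)) (a (l 16916672) (l 16813864))) (a (b (l 16799240) (l 16829056)) (l 16841720)))) (b (a (a (l 16802944) (l 16819496)) (a (l 16831368) (l 16846408))) (a (a (l 16820208) (l 16827920)) (l 16867648)))) (b (a (b (a (l 16835128) (l 16856144)) (a (l 16852136) (l 16867408))) (a (b (l 16862520) (l 16870992)) (l 16865488))) (a (a (l 16939952) (l 16867424)) (b (l 16875704) (l 16884672))))) (a (b (a (b (l 16810984) (l 16781096)) (b (l 16839632) (l 16812616))) (a (l 1) (b (l 16763064) (l 1)))) (b (a (b (l 16886968) (l 16904280)) (b (l 16880176) (l 16886616))) (a (b (l 16828040) (l 1)) (b (l 16889736) (l 16890216)))))), by decide +kernel⟩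

theorem s2_pm_213_a : ∃ t, chk3 f_pm_213_a t 1 1 1 = true := ex3_b k0_pm_213_a k1_pm_213_a

theorem c_pm_213_a : CertB 0 536870912 0 1230186008 649613803 48318383 3 eng mog cd3q2a cd7q3 pd1 false true false .pnn 2 1 3
    ndB3q2a ndB7q3 pcB1 cut_pm_213_a Ext.none :=
  certB0 (fam := false) (s1 := true) (s2 := false) (a := 2) (b := 1) (c := 3) (cn := .pnn) (n1 := ndB3q2a) (n2 := ndB7q3) (pc := pcB1) (cut := cut_pm_213_a) (xt := Ext.none) (P1 := 0) (W1 := 536870912) (P2 := 0) (W2 := 1230186008) (P3 := 649613803) (W3 := 48318383) (N0 := 3) (En := eng) (mo := mog) (C1 := cd3q2a) (C2 := cd7q3) (C3 := pd1)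
    rfl s2_pm_213_a

noncomputable def cut_pm_213_b : Cut := Cut.of [[⟨0, 1, 0, 67108864⟩, ⟨1, 1, 0, 67108864⟩, ⟨2, 2, 0, 16777216⟩]]

noncomputable def f_pm_213_b : ℕ → ℕ → ℕ → ℕ → Bool := onCell 1239849684 370763052 0 1230186008 649613803 48318383
    (rowB 3 eng mog cd3q2b cd7q3 pd1 0 false true false .pnn 2 1 3 (qsf 1239849684 370763052 0 1230186008 1) ndB3q2b ndB7q3 pcB1 cut_pm_213_b Ext.none)

def k0_pm_213_b : ∃ t, chk3 f_pm_213_b t 1 1 1 = true :=
  ⟨(b (a (l 3) (l 3)) (b (a (b (a (b (l 3) (a (b (l 3) (l 16903528)) (l 3))) (l 3)) (a (b (a (b (l 16779400) (l 16780880)) (l 262161071767)) (a (b (l 16777016) (l 16790776)) (l 16954384))) (a (b (l 257866130967) (a (l 16774712) (l 16743704))) (b (l 3) (l 1))))) (b (l 3) (l 1))) (a (b (a (b (l 17028960) (l 16957568)) (l 1)) (l 1)) (l 1)))), by decide +kernel⟩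

theorem c_pm_213_b : CertB 1239849684 370763052 0 1230186008 649613803 48318383 3 eng mog cd3q2b cd7q3 pd1 false true false .pnn 2 1 3
    ndB3q2b ndB7q3 pcB1 cut_pm_213_b Ext.none :=
  certB0 (fam := false) (s1 := true) (s2 := false) (a := 2) (b := 1) (c := 3) (cn := .pnn) (n1 := ndB3q2b) (n2 := ndB7q3) (pc := pcB1) (cut := cut_pm_213_b) (xt := Ext.none) (P1 := 1239849684) (W1 := 370763052) (P2 := 0) (W2 := 1230186008) (P3 := 649613803) (W3 := 48318383) (N0 := 3) (En := eng) (mo := mog) (C1 := cd3q2b) (C2 := cd7q3) (C3 := pd1)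
    rfl k0_pm_213_b

noncomputable def f_pm_303 : ℕ → ℕ → ℕ → ℕ → Bool := onCell 0 536870912 0 1230186008 649613803 48318383
    (rowB 3 eng mog cd3q3 cd7q3 pd0 2 false true false .npn 3 0 3 (qsf 1610612736 536870912 0 1230186008 0) ndB3q3 ndB7q3 pcB0 Cut.none Ext.none)

def k0_pm_303 : ∃ t, chk3 f_pm_303 t 1 1 1 = true :=
  ⟨(b (l 3) (b (a (l 3) (a (l 3) (b (l 3) (l 1)))) (a (a (b (b (l 3) (a (b (l 3) (l 163375563559)) (l 170355045463))) (b (a (b (l 16149632) (l 16150664)) (a (l 16230280) (l 16287480))) (a (l 16184720) (l 16281912)))) (b (a (b (l 3) (b (l 16380272) (l 16363688))) (b (l 187535269303) (l 1))) (b (a (l 16373056) (l 1)) (l 1)))) (l 1)))), by decide +kernel⟩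

theorem c_pm_303 : CertB 1610612736 536870912 0 1230186008 649613803 48318383 3 eng mog cd3q3 cd7q3 pd0 false true false .npn 3 0 3
    ndB3q3 ndB7q3 pcB0 Cut.none Ext.none :=
  certB2 (fam := false) (s1 := true) (s2 := false) (a := 3) (b := 0) (c := 3) (cn := .npn) (n1 := ndB3q3) (n2 := ndB7q3) (pc := pcB0) (cut := Cut.none) (xt := Ext.none) (P1 := 1610612736) (W1 := 536870912) (P2 := 0) (W2 := 1230186008) (P3 := 649613803) (W3 := 48318383) (N0 := 3) (En := eng) (mo := mog) (C1 := cd3q3) (C2 := cd7q3) (C3 := pd0)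
    rfl (fun _ => rfl) k0_pm_303

noncomputable def f_pm_313 : ℕ → ℕ → ℕ → ℕ → Bool := onCell 1610612736 536870912 0 1230186008 649613803 48318383
    (rowB 3 eng mog cd3q3 cd7q3 pd1 0 false true false .dn 3 1 3 (qsf 1610612736 536870912 0 1230186008 1) ndB3q3 ndB7q3 pcB1 Cut.none Ext.none)

def k0_pm_313 : ∃ t, chk3 f_pm_313 t 1 1 1 = true :=
  ⟨(b (l 3) (l 1)), by decide +kernel⟩

theorem c_pm_313 : CertB 1610612736 536870912 0 1230186008 649613803 48318383 3 eng mog cd3q3 cd7q3 pd1 false true false .dn 3 1 3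
    ndB3q3 ndB7q3 pcB1 Cut.none Ext.none :=
  certB0 (fam := false) (s1 := true) (s2 := false) (a := 3) (b := 1) (c := 3) (cn := .dn) (n1 := ndB3q3) (n2 := ndB7q3) (pc := pcB1) (cut := Cut.none) (xt := Ext.none) (P1 := 1610612736) (W1 := 536870912) (P2 := 0) (W2 := 1230186008) (P3 := 649613803) (W3 := 48318383) (N0 := 3) (En := eng) (mo := mog) (C1 := cd3q3) (C2 := cd7q3) (C3 := pd1)
    rfl k0_pm_313

noncomputable def f_mm_001 : ℕ → ℕ → ℕ → ℕ → Bool := onCell 0 536870912 0 536870912 649613803 48318383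
    (rowB 3 eng mog cd3q0 cd7q1 pd0 1 false false false .up 0 0 1 (qsf 0 536870912 536870912 536870912 0) ndB3q0 ndB7q1 pcB0 Cut.none Ext.none)

def k0_mm_001 : ∃ t, chk3 f_mm_001 t 1 1 1 = true :=
  ⟨(l 3), by decide +kernel⟩

theorem c_mm_001 : CertB 0 536870912 536870912 536870912 649613803 48318383 3 eng mog cd3q0 cd7q1 pd0 false false false .up 0 0 1
    ndB3q0 ndB7q1 pcB0 Cut.none Ext.none :=
  certB1 (fam := false) (s1 := false) (s2 := false) (a := 0) (b := 0) (c := 1) (cn := .up) (n1 := ndB3q0) (n2 := ndB7q1) (pc := pcB0) (cut := Cut.none) (xt := Ext.none) (P1 := 0) (W1 := 536870912) (P2 := 536870912) (W2 := 536870912) (P3 := 649613803) (W3 := 48318383) (N0 := 3) (En := eng) (mo := mog) (C1 := cd3q0) (C2 := cd7q1) (C3 := pd0)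
    rfl (fun _ => rfl) k0_mm_001

noncomputable def f_mm_011 : ℕ → ℕ → ℕ → ℕ → Bool := onCell 0 536870912 536870912 536870912 649613803 48318383
    (rowB 3 eng mog cd3q0 cd7q1 pd1 1 false false false .pnn 0 1 1 (qsf 0 536870912 536870912 536870912 1) ndB3q0 ndB7q1 pcB1 Cut.none Ext.none)

def k0_mm_011 : ∃ t, chk3 f_mm_011 t 1 1 1 = true :=
  ⟨(l 5), by decide +kernel⟩

theorem c_mm_011 : CertB 0 536870912 536870912 536870912 649613803 48318383 3 eng mog cd3q0 cd7q1 pd1 false false false .pnn 0 1 1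
    ndB3q0 ndB7q1 pcB1 Cut.none Ext.none :=
  certB1 (fam := false) (s1 := false) (s2 := false) (a := 0) (b := 1) (c := 1) (cn := .pnn) (n1 := ndB3q0) (n2 := ndB7q1) (pc := pcB1) (cut := Cut.none) (xt := Ext.none) (P1 := 0) (W1 := 536870912) (P2 := 536870912) (W2 := 536870912) (P3 := 649613803) (W3 := 48318383) (N0 := 3) (En := eng) (mo := mog) (C1 := cd3q0) (C2 := cd7q1) (C3 := pd1)
    rfl (fun _ => rfl) k0_mm_011

noncomputable def f_mm_012 : ℕ → ℕ → ℕ → ℕ → Bool := onCell 0 536870912 1073741824 536870912 649613803 48318383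
    (rowB 3 eng mog cd3q0 cd7q2 pd1 0 false false false .pnp 0 1 2 (qsf 0 536870912 1073741824 536870912 1) ndB3q0 ndB7q2 pcB1 Cut.none Ext.none)

def k0_mm_012 : ∃ t, chk3 f_mm_012 t 1 1 1 = true :=
  ⟨(l 5), by decide +kernel⟩

theorem c_mm_012 : CertB 0 536870912 1073741824 536870912 649613803 48318383 3 eng mog cd3q0 cd7q2 pd1 false false false .pnp 0 1 2
    ndB3q0 ndB7q2 pcB1 Cut.none Ext.none :=
  certB0 (fam := false) (s1 := false) (s2 := false) (a := 0) (b := 1) (c := 2) (cn := .pnp) (n1 := ndB3q0) (n2 := ndB7q2) (pc := pcB1) (cut := Cut.none) (xt := Ext.none) (P1 := 0) (W1 := 536870912) (P2 := 1073741824) (W2 := 536870912) (P3 := 649613803) (W3 := 48318383) (N0 := 3) (En := eng) (mo := mog) (C1 := cd3q0) (C2 := cd7q2) (C3 := pd1)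
    rfl k0_mm_012

noncomputable def f_mm_022 : ℕ → ℕ → ℕ → ℕ → Bool := onCell 0 536870912 1073741824 536870912 649613803 48318383
    (rowB 3 eng mog cd3q0 cd7q2 pd2 0 false false false .pp 0 2 2 (qsf 0 536870912 1073741824 536870912 2) ndB3q0 ndB7q2 pcB2 Cut.none Ext.none)

def k0_mm_022 : ∃ t, chk3 f_mm_022 t 1 1 1 = true :=
  ⟨(l 5), by decide +kernel⟩

theorem c_mm_022 : CertB 0 536870912 1073741824 536870912 649613803 48318383 3 eng mog cd3q0 cd7q2 pd2 false false false .pp 0 2 2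
    ndB3q0 ndB7q2 pcB2 Cut.none Ext.none :=
  certB0 (fam := false) (s1 := false) (s2 := false) (a := 0) (b := 2) (c := 2) (cn := .pp) (n1 := ndB3q0) (n2 := ndB7q2) (pc := pcB2) (cut := Cut.none) (xt := Ext.none) (P1 := 0) (W1 := 536870912) (P2 := 1073741824) (W2 := 536870912) (P3 := 649613803) (W3 := 48318383) (N0 := 3) (En := eng) (mo := mog) (C1 := cd3q0) (C2 := cd7q2) (C3 := pd2)
    rfl k0_mm_022

noncomputable def f_mm_023 : ℕ → ℕ → ℕ → ℕ → Bool := onCell 0 536870912 0 1230186008 649613803 48318383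
    (rowB 3 eng mog cd3q0 cd7q3 pd2 0 false false false .up 0 2 3 (qsf 0 536870912 0 1230186008 2) ndB3q0 ndB7q3 pcB2 Cut.none Ext.none)

def k0_mm_023 : ∃ t, chk3 f_mm_023 t 1 1 1 = true :=
  ⟨(l 5), by decide +kernel⟩

theorem c_mm_023 : CertB 0 536870912 0 1230186008 649613803 48318383 3 eng mog cd3q0 cd7q3 pd2 false false false .up 0 2 3
    ndB3q0 ndB7q3 pcB2 Cut.none Ext.none :=
  certB0 (fam := false) (s1 := false) (s2 := false) (a := 0) (b := 2) (c := 3) (cn := .up) (n1 := ndB3q0) (n2 := ndB7q3) (pc := pcB2) (cut := Cut.none) (xt := Ext.none) (P1 := 0) (W1 := 536870912) (P2 := 0) (W2 := 1230186008) (P3 := 649613803) (W3 := 48318383) (N0 := 3) (En := eng) (mo := mog) (C1 := cd3q0) (C2 := cd7q3) (C3 := pd2)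
    rfl k0_mm_023

noncomputable def f_mm_033 : ℕ → ℕ → ℕ → ℕ → Bool := onCell 0 536870912 0 1230186008 649613803 48318383
    (rowB 3 eng mog cd3q0 cd7q3 pd3 0 false false false .pnn 0 3 3 (qsf 0 536870912 0 1230186008 3) ndB3q0 ndB7q3 pcB3 Cut.none Ext.none)

def k0_mm_033 : ∃ t, chk3 f_mm_033 t 1 1 1 = true :=
  ⟨(l 5), by decide +kernel⟩

theorem c_mm_033 : CertB 0 536870912 0 1230186008 649613803 48318383 3 eng mog cd3q0 cd7q3 pd3 false false false .pnn 0 3 3
    ndB3q0 ndB7q3 pcB3 Cut.none Ext.none :=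
  certB0 (fam := false) (s1 := false) (s2 := false) (a := 0) (b := 3) (c := 3) (cn := .pnn) (n1 := ndB3q0) (n2 := ndB7q3) (pc := pcB3) (cut := Cut.none) (xt := Ext.none) (P1 := 0) (W1 := 536870912) (P2 := 0) (W2 := 1230186008) (P3 := 649613803) (W3 := 48318383) (N0 := 3) (En := eng) (mo := mog) (C1 := cd3q0) (C2 := cd7q3) (C3 := pd3)
    rfl k0_mm_033

noncomputable def f_mm_101 : ℕ → ℕ → ℕ → ℕ → Bool := onCell 536870912 536870912 536870912 536870912 649613803 48318383
    (rowB 3 eng mog cd3q1 cd7q1 pd0 0 false false false .npn 1 0 1 (qsf 536870912 536870912 536870912 536870912 0) ndB3q1 ndB7q1 pcB0 Cut.none Ext.none)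

def k0_mm_101 : ∃ t, chk3 f_mm_101 t 1 1 1 = true :=
  ⟨(l 3), by decide +kernel⟩

theorem c_mm_101 : CertB 536870912 536870912 536870912 536870912 649613803 48318383 3 eng mog cd3q1 cd7q1 pd0 false false false .npn 1 0 1
    ndB3q1 ndB7q1 pcB0 Cut.none Ext.none :=
  certB0 (fam := false) (s1 := false) (s2 := false) (a := 1) (b := 0) (c := 1) (cn := .npn) (n1 := ndB3q1) (n2 := ndB7q1) (pc := pcB0) (cut := Cut.none) (xt := Ext.none) (P1 := 536870912) (W1 := 536870912) (P2 := 536870912) (W2 := 536870912) (P3 := 649613803) (W3 := 48318383) (N0 := 3) (En := eng) (mo := mog) (C1 := cd3q1) (C2 := cd7q1) (C3 := pd0)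
    rfl k0_mm_101

noncomputable def f_mm_102 : ℕ → ℕ → ℕ → ℕ → Bool := onCell 536870912 536870912 1073741824 536870912 649613803 48318383
    (rowB 3 eng mog cd3q1 cd7q2 pd0 0 false false false .npp 1 0 2 (qsf 536870912 536870912 1073741824 536870912 0) ndB3q1 ndB7q2 pcB0 Cut.none Ext.none)

def k0_mm_102 : ∃ t, chk3 f_mm_102 t 1 1 1 = true :=
  ⟨(l 3), by decide +kernel⟩

theorem c_mm_102 : CertB 536870912 536870912 1073741824 536870912 649613803 48318383 3 eng mog cd3q1 cd7q2 pd0 false false false .npp 1 0 2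
    ndB3q1 ndB7q2 pcB0 Cut.none Ext.none :=
  certB0 (fam := false) (s1 := false) (s2 := false) (a := 1) (b := 0) (c := 2) (cn := .npp) (n1 := ndB3q1) (n2 := ndB7q2) (pc := pcB0) (cut := Cut.none) (xt := Ext.none) (P1 := 536870912) (W1 := 536870912) (P2 := 1073741824) (W2 := 536870912) (P3 := 649613803) (W3 := 48318383) (N0 := 3) (En := eng) (mo := mog) (C1 := cd3q1) (C2 := cd7q2) (C3 := pd0)
    rfl k0_mm_102

noncomputable def f_mm_112 : ℕ → ℕ → ℕ → ℕ → Bool := onCell 536870912 536870912 1073741824 536870912 649613803 48318383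
    (rowB 3 eng mog cd3q1 cd7q2 pd1 0 false false false .dn 1 1 2 (qsf 536870912 536870912 1073741824 536870912 1) ndB3q1 ndB7q2 pcB1 Cut.none Ext.none)

def k0_mm_112 : ∃ t, chk3 f_mm_112 t 1 1 1 = true :=
  ⟨(l 3), by decide +kernel⟩

theorem c_mm_112 : CertB 536870912 536870912 1073741824 536870912 649613803 48318383 3 eng mog cd3q1 cd7q2 pd1 false false false .dn 1 1 2
    ndB3q1 ndB7q2 pcB1 Cut.none Ext.none :=
  certB0 (fam := false) (s1 := false) (s2 := false) (a := 1) (b := 1) (c := 2) (cn := .dn) (n1 := ndB3q1) (n2 := ndB7q2) (pc := pcB1) (cut := Cut.none) (xt := Ext.none) (P1 := 536870912) (W1 := 536870912) (P2 := 1073741824) (W2 := 536870912) (P3 := 649613803) (W3 := 48318383) (N0 := 3) (En := eng) (mo := mog) (C1 := cd3q1) (C2 := cd7q2) (C3 := pd1)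
    rfl k0_mm_112

noncomputable def f_mm_113 : ℕ → ℕ → ℕ → ℕ → Bool := onCell 536870912 536870912 0 1230186008 649613803 48318383
    (rowB 3 eng mog cd3q1 cd7q3 pd1 0 false false false .nn 1 1 3 (qsf 536870912 536870912 0 1230186008 1) ndB3q1 ndB7q3 pcB1 Cut.none Ext.none)

def k0_mm_113 : ∃ t, chk3 f_mm_113 t 1 1 1 = true :=
  ⟨(l 5), by decide +kernel⟩

theorem c_mm_113 : CertB 536870912 536870912 0 1230186008 649613803 48318383 3 eng mog cd3q1 cd7q3 pd1 false false false .nn 1 1 3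
    ndB3q1 ndB7q3 pcB1 Cut.none Ext.none :=
  certB0 (fam := false) (s1 := false) (s2 := false) (a := 1) (b := 1) (c := 3) (cn := .nn) (n1 := ndB3q1) (n2 := ndB7q3) (pc := pcB1) (cut := Cut.none) (xt := Ext.none) (P1 := 536870912) (W1 := 536870912) (P2 := 0) (W2 := 1230186008) (P3 := 649613803) (W3 := 48318383) (N0 := 3) (En := eng) (mo := mog) (C1 := cd3q1) (C2 := cd7q3) (C3 := pd1)
    rfl k0_mm_113

noncomputable def f_mm_123 : ℕ → ℕ → ℕ → ℕ → Bool := onCell 536870912 536870912 0 1230186008 649613803 48318383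
    (rowB 3 eng mog cd3q1 cd7q3 pd2 0 false false false .npn 1 2 3 (qsf 536870912 536870912 0 1230186008 2) ndB3q1 ndB7q3 pcB2 Cut.none Ext.none)

def k0_mm_123 : ∃ t, chk3 f_mm_123 t 1 1 1 = true :=
  ⟨(l 5), by decide +kernel⟩

theorem c_mm_123 : CertB 536870912 536870912 0 1230186008 649613803 48318383 3 eng mog cd3q1 cd7q3 pd2 false false false .npn 1 2 3
    ndB3q1 ndB7q3 pcB2 Cut.none Ext.none :=
  certB0 (fam := false) (s1 := false) (s2 := false) (a := 1) (b := 2) (c := 3) (cn := .npn) (n1 := ndB3q1) (n2 := ndB7q3) (pc := pcB2) (cut := Cut.none) (xt := Ext.none) (P1 := 536870912) (W1 := 536870912) (P2 := 0) (W2 := 1230186008) (P3 := 649613803) (W3 := 48318383) (N0 := 3) (En := eng) (mo := mog) (C1 := cd3q1) (C2 := cd7q3) (C3 := pd2)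
    rfl k0_mm_123

noncomputable def f_mm_133 : ℕ → ℕ → ℕ → ℕ → Bool := onCell 536870912 536870912 0 1230186008 649613803 48318383
    (rowB 3 eng mog cd3q1 cd7q3 pd3 0 false false false .dn 1 3 3 (qsf 536870912 536870912 0 1230186008 3) ndB3q1 ndB7q3 pcB3 Cut.none Ext.none)

def k0_mm_133 : ∃ t, chk3 f_mm_133 t 1 1 1 = true :=
  ⟨(l 5), by decide +kernel⟩

theorem c_mm_133 : CertB 536870912 536870912 0 1230186008 649613803 48318383 3 eng mog cd3q1 cd7q3 pd3 false false false .dn 1 3 3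
    ndB3q1 ndB7q3 pcB3 Cut.none Ext.none :=
  certB0 (fam := false) (s1 := false) (s2 := false) (a := 1) (b := 3) (c := 3) (cn := .dn) (n1 := ndB3q1) (n2 := ndB7q3) (pc := pcB3) (cut := Cut.none) (xt := Ext.none) (P1 := 536870912) (W1 := 536870912) (P2 := 0) (W2 := 1230186008) (P3 := 649613803) (W3 := 48318383) (N0 := 3) (En := eng) (mo := mog) (C1 := cd3q1) (C2 := cd7q3) (C3 := pd3)
    rfl k0_mm_133

noncomputable def f_mm_202_a : ℕ → ℕ → ℕ → ℕ → Bool := onCell 0 536870912 0 536870912 649613803 48318383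
    (rowB 3 eng mog cd3q2a cd7q2 pd0 1 false false false .pp 2 0 2 (qsf 0 536870912 1073741824 536870912 0) ndB3q2a ndB7q2 pcB0 Cut.none Ext.none)

def k0_mm_202_a : ∃ t, chk3 f_mm_202_a t 1 1 1 = true :=
  ⟨(l 3), by decide +kernel⟩

theorem c_mm_202_a : CertB 0 536870912 1073741824 536870912 649613803 48318383 3 eng mog cd3q2a cd7q2 pd0 false false false .pp 2 0 2
    ndB3q2a ndB7q2 pcB0 Cut.none Ext.none :=
  certB1 (fam := false) (s1 := false) (s2 := false) (a := 2) (b := 0) (c := 2) (cn := .pp) (n1 := ndB3q2a) (n2 := ndB7q2) (pc := pcB0) (cut := Cut.none) (xt := Ext.none) (P1 := 0) (W1 := 536870912) (P2 := 1073741824) (W2 := 536870912) (P3 := 649613803) (W3 := 48318383) (N0 := 3) (En := eng) (mo := mog) (C1 := cd3q2a) (C2 := cd7q2) (C3 := pd0)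
    rfl (fun _ => rfl) k0_mm_202_a

noncomputable def f_mm_202_b : ℕ → ℕ → ℕ → ℕ → Bool := onCell 1239849684 370763052 1073741824 536870912 649613803 48318383
    (rowB 3 eng mog cd3q2b cd7q2 pd0 0 false false false .pp 2 0 2 (qsf 1239849684 370763052 1073741824 536870912 0) ndB3q2b ndB7q2 pcB0 Cut.none Ext.none)

def k0_mm_202_b : ∃ t, chk3 f_mm_202_b t 1 1 1 = true :=
  ⟨(b (a (b (l 1) (l 3)) (l 1)) (l 3)), by decide +kernel⟩

theorem c_mm_202_b : CertB 1239849684 370763052 1073741824 536870912 649613803 48318383 3 eng mog cd3q2b cd7q2 pd0 false false false .pp 2 0 2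
    ndB3q2b ndB7q2 pcB0 Cut.none Ext.none :=
  certB0 (fam := false) (s1 := false) (s2 := false) (a := 2) (b := 0) (c := 2) (cn := .pp) (n1 := ndB3q2b) (n2 := ndB7q2) (pc := pcB0) (cut := Cut.none) (xt := Ext.none) (P1 := 1239849684) (W1 := 370763052) (P2 := 1073741824) (W2 := 536870912) (P3 := 649613803) (W3 := 48318383) (N0 := 3) (En := eng) (mo := mog) (C1 := cd3q2b) (C2 := cd7q2) (C3 := pd0)
    rfl k0_mm_202_b

noncomputable def f_mm_203_a : ℕ → ℕ → ℕ → ℕ → Bool := onCell 0 536870912 0 1230186008 649613803 48318383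
    (rowB 3 eng mog cd3q2a cd7q3 pd0 0 false false false .up 2 0 3 (qsf 0 536870912 0 1230186008 0) ndB3q2a ndB7q3 pcB0 Cut.none Ext.none)

def k0_mm_203_a : ∃ t, chk3 f_mm_203_a t 1 1 1 = true :=
  ⟨(b (l 2) (l 3)), by decide +kernel⟩

theorem c_mm_203_a : CertB 0 536870912 0 1230186008 649613803 48318383 3 eng mog cd3q2a cd7q3 pd0 false false false .up 2 0 3
    ndB3q2a ndB7q3 pcB0 Cut.none Ext.none :=
  certB0 (fam := false) (s1 := false) (s2 := false) (a := 2) (b := 0) (c := 3) (cn := .up) (n1 := ndB3q2a) (n2 := ndB7q3) (pc := pcB0) (cut := Cut.none) (xt := Ext.none) (P1 := 0) (W1 := 536870912) (P2 := 0) (W2 := 1230186008) (P3 := 649613803) (W3 := 48318383) (N0 := 3) (En := eng) (mo := mog) (C1 := cd3q2a) (C2 := cd7q3) (C3 := pd0)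
    rfl k0_mm_203_a

noncomputable def f_mm_203_b : ℕ → ℕ → ℕ → ℕ → Bool := onCell 1239849684 370763052 0 1230186008 649613803 48318383
    (rowB 3 eng mog cd3q2b cd7q3 pd0 0 false false false .up 2 0 3 (qsf 1239849684 370763052 0 1230186008 0) ndB3q2b ndB7q3 pcB0 Cut.none Ext.none)

def k0_mm_203_b : ∃ t, chk3 f_mm_203_b t 1 1 1 = true :=
  ⟨(b (l 3) (l 3)), by decide +kernel⟩

theorem c_mm_203_b : CertB 1239849684 370763052 0 1230186008 649613803 48318383 3 eng mog cd3q2b cd7q3 pd0 false false false .up 2 0 3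
    ndB3q2b ndB7q3 pcB0 Cut.none Ext.none :=
  certB0 (fam := false) (s1 := false) (s2 := false) (a := 2) (b := 0) (c := 3) (cn := .up) (n1 := ndB3q2b) (n2 := ndB7q3) (pc := pcB0) (cut := Cut.none) (xt := Ext.none) (P1 := 1239849684) (W1 := 370763052) (P2 := 0) (W2 := 1230186008) (P3 := 649613803) (W3 := 48318383) (N0 := 3) (En := eng) (mo := mog) (C1 := cd3q2b) (C2 := cd7q3) (C3 := pd0)
    rfl k0_mm_203_b

noncomputable def f_mm_213_a : ℕ → ℕ → ℕ → ℕ → Bool := onCell 0 536870912 0 1230186008 649613803 48318383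
    (rowB 3 eng mog cd3q2a cd7q3 pd1 0 false false false .pnn 2 1 3 (qsf 0 536870912 0 1230186008 1) ndB3q2a ndB7q3 pcB1 Cut.none Ext.none)

def k0_mm_213_a : ∃ t, chk3 f_mm_213_a t 1 1 1 = true :=
  ⟨(b (a (l 3) (l 5)) (l 3)), by decide +kernel⟩

theorem c_mm_213_a : CertB 0 536870912 0 1230186008 649613803 48318383 3 eng mog cd3q2a cd7q3 pd1 false false false .pnn 2 1 3
    ndB3q2a ndB7q3 pcB1 Cut.none Ext.none :=
  certB0 (fam := false) (s1 := false) (s2 := false) (a := 2) (b := 1) (c := 3) (cn := .pnn) (n1 := ndB3q2a) (n2 := ndB7q3) (pc := pcB1) (cut := Cut.none) (xt := Ext.none) (P1 := 0) (W1 := 536870912) (P2 := 0) (W2 := 1230186008) (P3 := 649613803) (W3 := 48318383) (N0 := 3) (En := eng) (mo := mog) (C1 := cd3q2a) (C2 := cd7q3) (C3 := pd1)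
    rfl k0_mm_213_a

noncomputable def f_mm_213_b : ℕ → ℕ → ℕ → ℕ → Bool := onCell 1239849684 370763052 0 1230186008 649613803 48318383
    (rowB 3 eng mog cd3q2b cd7q3 pd1 0 false false false .pnn 2 1 3 (qsf 1239849684 370763052 0 1230186008 1) ndB3q2b ndB7q3 pcB1 Cut.none Ext.none)

def k0_mm_213_b : ∃ t, chk3 f_mm_213_b t 1 1 1 = true :=
  ⟨(b (l 3) (l 3)), by decide +kernel⟩

theorem c_mm_213_b : CertB 1239849684 370763052 0 1230186008 649613803 48318383 3 eng mog cd3q2b cd7q3 pd1 false false false .pnn 2 1 3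
    ndB3q2b ndB7q3 pcB1 Cut.none Ext.none :=
  certB0 (fam := false) (s1 := false) (s2 := false) (a := 2) (b := 1) (c := 3) (cn := .pnn) (n1 := ndB3q2b) (n2 := ndB7q3) (pc := pcB1) (cut := Cut.none) (xt := Ext.none) (P1 := 1239849684) (W1 := 370763052) (P2 := 0) (W2 := 1230186008) (P3 := 649613803) (W3 := 48318383) (N0 := 3) (En := eng) (mo := mog) (C1 := cd3q2b) (C2 := cd7q3) (C3 := pd1)
    rfl k0_mm_213_b

noncomputable def f_mm_303 : ℕ → ℕ → ℕ → ℕ → Bool := onCell 0 536870912 0 1230186008 649613803 48318383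
    (rowB 3 eng mog cd3q3 cd7q3 pd0 2 false false false .npn 3 0 3 (qsf 1610612736 536870912 0 1230186008 0) ndB3q3 ndB7q3 pcB0 Cut.none Ext.none)

def k0_mm_303 : ∃ t, chk3 f_mm_303 t 1 1 1 = true :=
  ⟨(b (l 3) (l 3)), by decide +kernel⟩

theorem c_mm_303 : CertB 1610612736 536870912 0 1230186008 649613803 48318383 3 eng mog cd3q3 cd7q3 pd0 false false false .npn 3 0 3
    ndB3q3 ndB7q3 pcB0 Cut.none Ext.none :=
  certB2 (fam := false) (s1 := false) (s2 := false) (a := 3) (b := 0) (c := 3) (cn := .npn) (n1 := ndB3q3) (n2 := ndB7q3) (pc := pcB0) (cut := Cut.none) (xt := Ext.none) (P1 := 1610612736) (W1 := 536870912) (P2 := 0) (W2 := 1230186008) (P3 := 649613803) (W3 := 48318383) (N0 := 3) (En := eng) (mo := mog) (C1 := cd3q3) (C2 := cd7q3) (C3 := pd0)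
    rfl (fun _ => rfl) k0_mm_303

noncomputable def f_mm_313 : ℕ → ℕ → ℕ → ℕ → Bool := onCell 1610612736 536870912 0 1230186008 649613803 48318383
    (rowB 3 eng mog cd3q3 cd7q3 pd1 0 false false false .dn 3 1 3 (qsf 1610612736 536870912 0 1230186008 1) ndB3q3 ndB7q3 pcB1 Cut.none Ext.none)

def k0_mm_313 : ∃ t, chk3 f_mm_313 t 1 1 1 = true :=
  ⟨(b (l 3) (l 1)), by decide +kernel⟩

theorem c_mm_313 : CertB 1610612736 536870912 0 1230186008 649613803 48318383 3 eng mog cd3q3 cd7q3 pd1 false false false .dn 3 1 3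
    ndB3q3 ndB7q3 pcB1 Cut.none Ext.none :=
  certB0 (fam := false) (s1 := false) (s2 := false) (a := 3) (b := 1) (c := 3) (cn := .dn) (n1 := ndB3q3) (n2 := ndB7q3) (pc := pcB1) (cut := Cut.none) (xt := Ext.none) (P1 := 1610612736) (W1 := 536870912) (P2 := 0) (W2 := 1230186008) (P3 := 649613803) (W3 := 48318383) (N0 := 3) (En := eng) (mo := mog) (C1 := cd3q3) (C2 := cd7q3) (C3 := pd1)
    rfl k0_mm_313

end Pool.Agent.Strip051.G.I6050_6500.Tab.C.BB37

namespace Pool.Agent.Strip051.G.I6050_6500.Tab.C.BB38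

open Pool.Agent.Strip051.PB Pool.Agent.Strip051.PB.T
open Pool.Agent.Strip051.G.I6050_6500.Tab

noncomputable def f_pp_001 : ℕ → ℕ → ℕ → ℕ → Bool := onCell 0 536870912 0 536870912 649613803 48318383
    (rowB 3 eng mog cd3q0 cd8q1 pd0 1 false true true .up 0 0 1 (qsf 0 536870912 536870912 536870912 0) ndB3q0 ndB8q1 pcB0 Cut.none Ext.none)

def k0_pp_001 : ∃ t, chk3 f_pp_001 t 1 1 1 = true :=
  ⟨(l 3), by decide +kernel⟩

theorem c_pp_001 : CertB 0 536870912 536870912 536870912 649613803 48318383 3 eng mog cd3q0 cd8q1 pd0 false true true .up 0 0 1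
    ndB3q0 ndB8q1 pcB0 Cut.none Ext.none :=
  certB1 (fam := false) (s1 := true) (s2 := true) (a := 0) (b := 0) (c := 1) (cn := .up) (n1 := ndB3q0) (n2 := ndB8q1) (pc := pcB0) (cut := Cut.none) (xt := Ext.none) (P1 := 0) (W1 := 536870912) (P2 := 536870912) (W2 := 536870912) (P3 := 649613803) (W3 := 48318383) (N0 := 3) (En := eng) (mo := mog) (C1 := cd3q0) (C2 := cd8q1) (C3 := pd0)
    rfl (fun _ => rfl) k0_pp_001

noncomputable def cut_pp_011 : Cut := Cut.of [[⟨0, 0, 0, 67108864⟩, ⟨1, 1, 0, 67108864⟩, ⟨2, 1, 0, 67108864⟩]]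

noncomputable def f_pp_011 : ℕ → ℕ → ℕ → ℕ → Bool := onCell 0 536870912 536870912 536870912 649613803 48318383
    (rowB 3 eng mog cd3q0 cd8q1 pd1 1 false true true .pnn 0 1 1 (qsf 0 536870912 536870912 536870912 1) ndB3q0 ndB8q1 pcB1 cut_pp_011 Ext.none)

def k0_pp_011 : ∃ t, chk3 f_pp_011 t 1 1 1 = true :=
  ⟨(b (l 3) (b (l 3) (a (a (b (l 3) (a (b (l 3) (a (l 6) (l 3))) (l 3))) (l 3)) (l 2)))), by decide +kernel⟩

theorem c_pp_011 : CertB 0 536870912 536870912 536870912 649613803 48318383 3 eng mog cd3q0 cd8q1 pd1 false true true .pnn 0 1 1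
    ndB3q0 ndB8q1 pcB1 cut_pp_011 Ext.none :=
  certB1 (fam := false) (s1 := true) (s2 := true) (a := 0) (b := 1) (c := 1) (cn := .pnn) (n1 := ndB3q0) (n2 := ndB8q1) (pc := pcB1) (cut := cut_pp_011) (xt := Ext.none) (P1 := 0) (W1 := 536870912) (P2 := 536870912) (W2 := 536870912) (P3 := 649613803) (W3 := 48318383) (N0 := 3) (En := eng) (mo := mog) (C1 := cd3q0) (C2 := cd8q1) (C3 := pd1)
    rfl (fun _ => rfl) k0_pp_011

noncomputable def cut_pp_012 : Cut := Cut.of [[⟨0, 0, 0, 67108864⟩, ⟨1, 1, 0, 67108864⟩, ⟨2, 1, 0, 67108864⟩]]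

noncomputable def f_pp_012 : ℕ → ℕ → ℕ → ℕ → Bool := onCell 0 536870912 536870912 536870912 649613803 48318383
    (rowB 3 eng mog cd3q0 cd8q2 pd1 1 false true true .pnp 0 1 2 (qsf 0 536870912 1073741824 536870912 1) ndB3q0 ndB8q2 pcB1 cut_pp_012 Ext.none)

def k0_pp_012 : ∃ t, chk3 f_pp_012 t 1 1 1 = true :=
  ⟨(b (l 3) (a (b (l 3) (a (a (a (b (l 1) (b (l 3) (l 6))) (l 3)) (l 3)) (l 3))) (l 3))), by decide +kernel⟩

theorem c_pp_012 : CertB 0 536870912 1073741824 536870912 649613803 48318383 3 eng mog cd3q0 cd8q2 pd1 false true true .pnp 0 1 2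
    ndB3q0 ndB8q2 pcB1 cut_pp_012 Ext.none :=
  certB1 (fam := false) (s1 := true) (s2 := true) (a := 0) (b := 1) (c := 2) (cn := .pnp) (n1 := ndB3q0) (n2 := ndB8q2) (pc := pcB1) (cut := cut_pp_012) (xt := Ext.none) (P1 := 0) (W1 := 536870912) (P2 := 1073741824) (W2 := 536870912) (P3 := 649613803) (W3 := 48318383) (N0 := 3) (En := eng) (mo := mog) (C1 := cd3q0) (C2 := cd8q2) (C3 := pd1)
    rfl (fun _ => rfl) k0_pp_012

noncomputable def cut_pp_022 : Cut := Cut.of [[⟨0, 0, 0, 67108864⟩, ⟨1, 1, 0, 67108864⟩, ⟨2, 1, 0, 67108864⟩]]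

noncomputable def f_pp_022 : ℕ → ℕ → ℕ → ℕ → Bool := onCell 0 536870912 1073741824 536870912 649613803 48318383
    (rowB 3 eng mog cd3q0 cd8q2 pd2 1 false true true .pp 0 2 2 (qsf 0 536870912 1073741824 536870912 2) ndB3q0 ndB8q2 pcB2 cut_pp_022 Ext.none)

def k0_pp_022 : ∃ t, chk3 f_pp_022 t 2 4 1 = true :=
  ⟨(b (a (a (b (a (b (l 6) (a (l 6) (b (l 6) (a (l 6) (l 174650752759))))) (l 3)) (a (a (a (b (l 6) (b (l 16673248) (l 16656800))) (b (b (l 6) (l 16697328)) (b (l 16681048) (l 16664664)))) (b (b (a (l 16732584) (l 16725672)) (a (l 16703536) (b (l 16713864) (l 16704776)))) (b (a (l 16686472) (l 16692872)) (a (l 16669872) (l 16675688))))) (b (a (b (l 204178626311) (l 16717048)) (l 3)) (a (b (a (l 16699312) (l 16704352)) (a (l 16682152) (l 16688456))) (b (l 16712192) (l 16696280)))))) (b (l 3) (b (l 3) (a (l 3) (l 3))))) (l 3)) (a (b (a (a (a (b (a (l 16632896) (l 16639152)) (a (l 16600816) (l 16605464))) (b (a (l 16644000) (l 16607456)) (b (l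 16621104) (l 16603968)))) (b (a (a (l 16655128) (l 16672152)) (b (l 16680416) (l 16661368))) (a (l 16623256) (b (l 16644584) (a (l 16623144) (l 16628952)))))) (b (a (a (l 53854679383) (l 16693112)) (l 3)) (a (b (a (l 16658104) (l 16731040)) (a (l 16679984) (l 16672104))) (b (l 16684040) (l 16791808))))) (a (a (b (a (l 16590336) (l 16578696)) (a (l 16556552) (l 16545224))) (b (a (l 16588592) (l 16599832)) (a (l 16562424) (b (l 16573760) (l 16556416))))) (b (a (b (a (l 16620296) (l 16632512)) (a (l 16602888) (l 16614432))) (a (b (l 16644216) (l 16626440)) (b (l 16655584) (l 16637144)))) (a (a (l 16576728) (b (l 16597248) (l 16580048))) (a (b (l 16608432) (l 16591616)) (b (l 16619496) (l 16602472))))))) (a (b (l 3) (b (b (l 3) (a (l 16653840) (l 3))) (a (b (l 16636240) (l 16619424)) (l 271287632375)))) (l 3)))), by decide +kernel⟩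

def k1_pp_022 : ∃ t, chk3 f_pp_022 t 2 5 1 = true :=
  ⟨(b (b (b (a (a (a (a (l 16522424) (l 16511656)) (b (a (l 16529944) (l 16539408)) (l 16518328))) (a (b (l 16556704) (l 16644120)) (b (a (l 16574536) (l 16586016)) (l 16563048)))) (a (a (b (a (l 16597696) (l 16609016)) (l 16587752)) (b (l 16626520) (l 16611736))) (b (l 155860519367) (l 295983383447)))) (a (b (a (a (a (l 16475408) (l 16486232)) (l 16480928)) (a (a (l 16516712) (l 16527256)) (l 16650280))) (a (b (a (l 16446328) (l 16489264)) (a (b (a (l 16453664) (l 16465264)) (b (b (b (l 16456016) (a (c (l 16491784) (l 16489128)) (l 16481120))) (l 16453256)) (l 16451720))) (b (l 16482152) (a (c (l 16515352) (l 16531072)) (l 16565688))))) (b (a (l 16509968) (l 16531624)) (b (a (l 16503568) (l 16524160)) (a (l 16671168) (a (l 16513584) (l 16649472))))))) (b (a (a (l 16676752) (l 16597960)) (a (l 16621352) (l 16642520))) (b (a (a (l 16558512) (l 16586896)) (a (l 16611568) (l 16633680))) (a (b (a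 (l 16549824) (l 16578512)) (a (l 16668800) (l 16571592))) (b (a (l 16605376) (l 16627808)) (l 16674728))))))) (a (a (a (a (b (l 16428488) (l 16396440)) (b (l 16440368) (l 16408232))) (b (l 16478664) (l 16425360))) (a (l 16610016) (l 16630048))) (a (a (l 16508280) (l 16537256)) (a (l 16564432) (l 16588504))))) (a (a (a (b (a (l 16474888) (l 16360616)) (a (l 16307896) (l 16297960))) (b (a (l 16371832) (l 16382608)) (b (l 16329496) (l 16297496)))) (a (b (l 16502608) (l 16331816)) (b (l 16417200) (l 16349608)))) (a (b (l 16619536) (a (l 16371008) (l 16418288))) (a (b (l 16496304) (l 16461160)) (b (l 16527792) (l 16497864)))))), by decide +kernel⟩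

def k2_pp_022 : ∃ t, chk3 f_pp_022 t 2 3 1 = true :=
  ⟨(a (b (b (a (a (b (a (l 16225272) (l 16235328)) (l 16166352)) (b (l 16249040) (l 16180752))) (a (b (l 16306336) (l 16200984)) (b (l 16280528) (l 16248272)))) (b (a (a (l 16099840) (l 16125896)) (a (l 16169680) (l 16223792))) (a (a (l 16051632) (l 16092480)) (a (l 16145408) (l 16203752))))) (a (b (a (b (l 16017360) (l 15994320)) (b (l 16068472) (l 16050472))) (b (a (l 15977744) (l 16038272)) (a (l 15965136) (l 16033992)))) (b (a (b (l 16126360) (l 16115088)) (b (l 16191392) (l 16186928))) (a (l 16115424) (l 2))))) (b (b (a (b (a (l 16331752) (l 16385560)) (a (l 16305288) (l 16361000))) (a (l 16421264) (l 16485432))) (a (a (l 16506168) (l 16461368)) (a (l 16397960) (l 2)))) (b (a (a (l 16263528) (l 2)) (l 2)) (l 2)))), by decide +kernel⟩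

def k3_pp_022 : ∃ t, chk3 f_pp_022 t 3 1 1 = true :=
  ⟨(a (b (b (l 3) (b (b (b (l 3) (b (a (b (l 3) (l 16670080)) (l 3)) (b (a (l 16663800) (l 3)) (a (b (l 16659192) (l 16655808)) (b (l 16696920) (l 16694320)))))) (a (a (l 16611848) (l 16635464)) (a (l 16659632) (l 16685456)))) (a (b (l 16644384) (l 16560680)) (a (l 16581224) (l 2))))) (b (b (a (b (l 16530320) (l 2)) (l 2)) (l 2)) (l 2))) (b (b (l 3) (b (b (b (a (l 3) (l 2)) (l 2)) (l 2)) (l 2))) (l 2))), by decide +kernel⟩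

theorem s4_pp_022 : ∃ t, chk3 f_pp_022 t 2 2 1 = true := ex3_b k0_pp_022 k1_pp_022

theorem s5_pp_022 : ∃ t, chk3 f_pp_022 t 2 1 1 = true := ex3_b s4_pp_022 k2_pp_022

theorem s6_pp_022 : ∃ t, chk3 f_pp_022 t 1 1 1 = true := ex3_a s5_pp_022 k3_pp_022

theorem c_pp_022 : CertB 0 536870912 1073741824 536870912 649613803 48318383 3 eng mog cd3q0 cd8q2 pd2 false true true .pp 0 2 2
    ndB3q0 ndB8q2 pcB2 cut_pp_022 Ext.none :=
  certB1 (fam := false) (s1 := true) (s2 := true) (a := 0) (b := 2) (c := 2) (cn := .pp) (n1 := ndB3q0) (n2 := ndB8q2) (pc := pcB2) (cut := cut_pp_022) (xt := Ext.none) (P1 := 0) (W1 := 536870912) (P2 := 1073741824) (W2 := 536870912) (P3 := 649613803) (W3 := 48318383) (N0 := 3) (En := eng) (mo := mog) (C1 := cd3q0) (C2 := cd8q2) (C3 := pd2)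
    rfl (fun _ => rfl) s6_pp_022

noncomputable def f_pp_023 : ℕ → ℕ → ℕ → ℕ → Bool := onCell 1073741824 536870912 0 1230186008 649613803 48318383
    (rowB 3 eng mog cd3q0 cd8q3 pd2 2 false true true .up 0 2 3 (qsf 0 536870912 0 1230186008 2) ndB3q0 ndB8q3 pcB2 Cut.none Ext.none)

def k0_pp_023 : ∃ t, chk3 f_pp_023 t 1 1 1 = true :=
  ⟨(b (a (l 2) (a (l 2) (b (l 171899654295) (b (l 16766392) (l 16764328))))) (a (a (b (l 2) (b (l 2) (l 3))) (b (a (l 2) (b (l 2) (l 16756760))) (a (a (b (b (l 2) (a (l 16798248) (a (l 16787344) (a (l 16782520) (l 16780056))))) (a (l 3) (a (b (l 16759824) (l 3)) (b (a (l 16754064) (a (l 16752152) (l 16750432))) (a (l 16722952) (a (l 16718776) (l 16715832))))))) (b (l 16781800) (b (l 16735792) (l 16688512)))) (b (l 16882176) (b (l 16658024) (b (l 16587184) (l 16562552))))))) (b (a (b (l 16725960) (b (l 16746192) (l 16740456))) (b (l 16753992) (l 16850480))) (b (a (b (l 16722624) (l 16653160)) (b (l 16603696) (a (l 16537872)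 (l 16450400)))) (a (b (a (l 16579808) (l 16501296)) (a (l 16576600) (l 16375232))) (b (a (l 16395880) (l 16276448)) (a (b (l 16278472) (l 16195416)) (b (l 16132192) (b (l 16062176) (l 16021184)))))))))), by decide +kernel⟩

theorem c_pp_023 : CertB 0 536870912 0 1230186008 649613803 48318383 3 eng mog cd3q0 cd8q3 pd2 false true true .up 0 2 3
    ndB3q0 ndB8q3 pcB2 Cut.none Ext.none :=
  certB2 (fam := false) (s1 := true) (s2 := true) (a := 0) (b := 2) (c := 3) (cn := .up) (n1 := ndB3q0) (n2 := ndB8q3) (pc := pcB2) (cut := Cut.none) (xt := Ext.none) (P1 := 0) (W1 := 536870912) (P2 := 0) (W2 := 1230186008) (P3 := 649613803) (W3 := 48318383) (N0 := 3) (En := eng) (mo := mog) (C1 := cd3q0) (C2 := cd8q3) (C3 := pd2)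
    rfl (fun _ => rfl) k0_pp_023

noncomputable def f_pp_033 : ℕ → ℕ → ℕ → ℕ → Bool := onCell 1610612736 536870912 0 1230186008 649613803 48318383
    (rowB 3 eng mog cd3q0 cd8q3 pd3 2 false true true .pnn 0 3 3 (qsf 0 536870912 0 1230186008 3) ndB3q0 ndB8q3 pcB3 Cut.none Ext.none)

def k0_pp_033 : ∃ t, chk3 f_pp_033 t 1 1 1 = true :=
  ⟨(b (b (a (a (l 16778120) (a (l 16617600) (l 16576312))) (a (a (l 16527168) (l 4)) (l 4))) (b (a (a (a (l 16729168) (l 16670304)) (a (l 16617032) (l 16569424))) (a (a (l 16519088) (l 16469536)) (a (l 4) (l 4)))) (a (a (a (l 16715200) (l 16637384)) (a (a (l 16595480) (l 16569808)) (l 16524704))) (a (a (b (l 16488320) (l 16450192)) (a (l 16439720) (l 16420384))) (a (a (l 200823029223) (l 998076300023)) (a (l 1037804721927) (l 1))))))) (b (a (a (a (b (l 16659392) (l 16582616)) (b (l 16610640) (l 16507568))) (a (b (a (b (l 16554856) (l 16525192)) (b (l 16534512) (l 16499424))) (a (l 16452016) (l 16370272))) (b (b (l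 16478208) (l 16438696)) (b (l 16379128) (a (l 16323768) (l 16279352)))))) (b (a (a (b (l 16522200) (l 16619152)) (b (a (l 16379648) (l 16363368)) (a (l 16322296) (l 340409276327)))) (a (a (b (l 457984095159) (l 1)) (l 1)) (l 1))) (a (a (b (a (l 16315864) (l 16282696)) (a (l 16239208) (l 16208696))) (b (a (l 16253640) (l 1)) (l 1))) (l 1)))) (a (b (a (b (a (l 16447616) (l 16358832)) (l 16325928)) (a (b (l 16276952) (l 16115704)) (b (l 328061031271) (l 1)))) (a (a (b (l 16135136) (a (l 242697936183) (l 583610999591))) (b (l 16015904) (b (l 635150443239) (l 1)))) (b (a (b (l 15947944) (l 1)) (l 1)) (l 1)))) (l 1)))), by decide +kernel⟩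

theorem c_pp_033 : CertB 0 536870912 0 1230186008 649613803 48318383 3 eng mog cd3q0 cd8q3 pd3 false true true .pnn 0 3 3
    ndB3q0 ndB8q3 pcB3 Cut.none Ext.none :=
  certB2 (fam := false) (s1 := true) (s2 := true) (a := 0) (b := 3) (c := 3) (cn := .pnn) (n1 := ndB3q0) (n2 := ndB8q3) (pc := pcB3) (cut := Cut.none) (xt := Ext.none) (P1 := 0) (W1 := 536870912) (P2 := 0) (W2 := 1230186008) (P3 := 649613803) (W3 := 48318383) (N0 := 3) (En := eng) (mo := mog) (C1 := cd3q0) (C2 := cd8q3) (C3 := pd3)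
    rfl (fun _ => rfl) k0_pp_033

noncomputable def f_pp_101 : ℕ → ℕ → ℕ → ℕ → Bool := onCell 536870912 536870912 536870912 536870912 649613803 48318383
    (rowB 3 eng mog cd3q1 cd8q1 pd0 0 false true true .npn 1 0 1 (qsf 536870912 536870912 536870912 536870912 0) ndB3q1 ndB8q1 pcB0 Cut.none Ext.none)

def k0_pp_101 : ∃ t, chk3 f_pp_101 t 1 1 1 = true :=
  ⟨(l 3), by decide +kernel⟩

theorem c_pp_101 : CertB 536870912 536870912 536870912 536870912 649613803 48318383 3 eng mog cd3q1 cd8q1 pd0 false true true .npn 1 0 1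
    ndB3q1 ndB8q1 pcB0 Cut.none Ext.none :=
  certB0 (fam := false) (s1 := true) (s2 := true) (a := 1) (b := 0) (c := 1) (cn := .npn) (n1 := ndB3q1) (n2 := ndB8q1) (pc := pcB0) (cut := Cut.none) (xt := Ext.none) (P1 := 536870912) (W1 := 536870912) (P2 := 536870912) (W2 := 536870912) (P3 := 649613803) (W3 := 48318383) (N0 := 3) (En := eng) (mo := mog) (C1 := cd3q1) (C2 := cd8q1) (C3 := pd0)
    rfl k0_pp_101

noncomputable def f_pp_102 : ℕ → ℕ → ℕ → ℕ → Bool := onCell 536870912 536870912 1073741824 536870912 649613803 48318383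
    (rowB 3 eng mog cd3q1 cd8q2 pd0 0 false true true .npp 1 0 2 (qsf 536870912 536870912 1073741824 536870912 0) ndB3q1 ndB8q2 pcB0 Cut.none Ext.none)

def k0_pp_102 : ∃ t, chk3 f_pp_102 t 1 1 1 = true :=
  ⟨(l 3), by decide +kernel⟩

theorem c_pp_102 : CertB 536870912 536870912 1073741824 536870912 649613803 48318383 3 eng mog cd3q1 cd8q2 pd0 false true true .npp 1 0 2
    ndB3q1 ndB8q2 pcB0 Cut.none Ext.none :=
  certB0 (fam := false) (s1 := true) (s2 := true) (a := 1) (b := 0) (c := 2) (cn := .npp) (n1 := ndB3q1) (n2 := ndB8q2) (pc := pcB0) (cut := Cut.none) (xt := Ext.none) (P1 := 536870912) (W1 := 536870912) (P2 := 1073741824) (W2 := 536870912) (P3 := 649613803) (W3 := 48318383) (N0 := 3) (En := eng) (mo := mog) (C1 := cd3q1) (C2 := cd8q2) (C3 := pd0)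
    rfl k0_pp_102

noncomputable def f_pp_112 : ℕ → ℕ → ℕ → ℕ → Bool := onCell 536870912 536870912 1073741824 536870912 649613803 48318383
    (rowB 3 eng mog cd3q1 cd8q2 pd1 0 false true true .dn 1 1 2 (qsf 536870912 536870912 1073741824 536870912 1) ndB3q1 ndB8q2 pcB1 Cut.none Ext.none)

def k0_pp_112 : ∃ t, chk3 f_pp_112 t 1 1 1 = true :=
  ⟨(l 3), by decide +kernel⟩

theorem c_pp_112 : CertB 536870912 536870912 1073741824 536870912 649613803 48318383 3 eng mog cd3q1 cd8q2 pd1 false true true .dn 1 1 2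
    ndB3q1 ndB8q2 pcB1 Cut.none Ext.none :=
  certB0 (fam := false) (s1 := true) (s2 := true) (a := 1) (b := 1) (c := 2) (cn := .dn) (n1 := ndB3q1) (n2 := ndB8q2) (pc := pcB1) (cut := Cut.none) (xt := Ext.none) (P1 := 536870912) (W1 := 536870912) (P2 := 1073741824) (W2 := 536870912) (P3 := 649613803) (W3 := 48318383) (N0 := 3) (En := eng) (mo := mog) (C1 := cd3q1) (C2 := cd8q2) (C3 := pd1)
    rfl k0_pp_112

noncomputable def f_pp_113 : ℕ → ℕ → ℕ → ℕ → Bool := onCell 536870912 536870912 0 1230186008 649613803 48318383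
    (rowB 3 eng mog cd3q1 cd8q3 pd1 2 false true true .nn 1 1 3 (qsf 536870912 536870912 0 1230186008 1) ndB3q1 ndB8q3 pcB1 Cut.none Ext.none)

def k0_pp_113 : ∃ t, chk3 f_pp_113 t 1 1 1 = true :=
  ⟨(b (a (l 2) (a (l 2) (b (a (l 2) (b (l 16765800) (l 16766992))) (a (b (a (l 2) (b (l 2) (l 16739536))) (l 3)) (b (b (l 16781736) (l 314237713111)) (b (a (l 16757056) (l 16789360)) (l 451676363639))))))) (a (l 3) (b (a (l 3) (a (l 3) (l 3))) (l 3)))), by decide +kernel⟩

theorem c_pp_113 : CertB 536870912 536870912 0 1230186008 649613803 48318383 3 eng mog cd3q1 cd8q3 pd1 false true true .nn 1 1 3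
    ndB3q1 ndB8q3 pcB1 Cut.none Ext.none :=
  certB2 (fam := false) (s1 := true) (s2 := true) (a := 1) (b := 1) (c := 3) (cn := .nn) (n1 := ndB3q1) (n2 := ndB8q3) (pc := pcB1) (cut := Cut.none) (xt := Ext.none) (P1 := 536870912) (W1 := 536870912) (P2 := 0) (W2 := 1230186008) (P3 := 649613803) (W3 := 48318383) (N0 := 3) (En := eng) (mo := mog) (C1 := cd3q1) (C2 := cd8q3) (C3 := pd1)
    rfl (fun _ => rfl) k0_pp_113

noncomputable def f_pp_123 : ℕ → ℕ → ℕ → ℕ → Bool := onCell 1073741824 536870912 0 1230186008 649613803 48318383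
    (rowB 3 eng mog cd3q1 cd8q3 pd2 2 false true true .npn 1 2 3 (qsf 536870912 536870912 0 1230186008 2) ndB3q1 ndB8q3 pcB2 Cut.none Ext.none)

def k0_pp_123 : ∃ t, chk3 f_pp_123 t 1 1 1 = true :=
  ⟨(a (a (b (a (b (b (l 16743264) (l 16756176)) (b (l 16810800) (b (l 16830032) (l 184851910519)))) (b (l 16664984) (b (l 16731088) (l 16848504)))) (b (a (b (a (l 324437952311) (l 264845401735)) (a (l 3) (l 343764684199))) (a (b (l 16847328) (l 16892544)) (b (l 16855944) (a (l 16758032) (l 16744432))))) (a (l 3) (b (a (l 3) (a (l 867213993463) (l 822116880135))) (l 3))))) (b (b (a (l 16693696) (l 16628416)) (a (b (b (l 16651528) (l 16682896)) (a (l 16788560) (l 16748096))) (b (l 16674984) (l 16737232)))) (b (a (a (a (b (l 16798304) (l 16735296)) (b (a (l 16794464) (b (l 16826880) (l 16850536))) (a (l 16729112) (b (l 16765992) (l 16730840))))) (b (l 16797968) (l 16715368))) (b (l 16788520) (l 16715008))) (a (a (a (b (b (l 16716344) (l 16703064)) (l 3))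 (b (a (b (l 16715560) (l 16707024)) (b (a (l 16708472) (l 16659920)) (a (l 16708328) (l 427919352471)))) (l 1))) (b (l 493954427255) (l 1))) (b (l 16784872) (l 1)))))) (b (b (a (a (l 16664312) (l 16709056)) (l 16847344)) (a (b (l 16870512) (a (l 16738480) (l 16761216))) (b (l 16740192) (l 16711496)))) (b (a (b (l 16773680) (l 17008040)) (b (l 16705584) (l 1))) (l 1)))), by decide +kernel⟩

theorem c_pp_123 : CertB 536870912 536870912 0 1230186008 649613803 48318383 3 eng mog cd3q1 cd8q3 pd2 false true true .npn 1 2 3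
    ndB3q1 ndB8q3 pcB2 Cut.none Ext.none :=
  certB2 (fam := false) (s1 := true) (s2 := true) (a := 1) (b := 2) (c := 3) (cn := .npn) (n1 := ndB3q1) (n2 := ndB8q3) (pc := pcB2) (cut := Cut.none) (xt := Ext.none) (P1 := 536870912) (W1 := 536870912) (P2 := 0) (W2 := 1230186008) (P3 := 649613803) (W3 := 48318383) (N0 := 3) (En := eng) (mo := mog) (C1 := cd3q1) (C2 := cd8q3) (C3 := pd2)
    rfl (fun _ => rfl) k0_pp_123

noncomputable def f_pp_133 : ℕ → ℕ → ℕ → ℕ → Bool := onCell 1610612736 536870912 0 1230186008 649613803 48318383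
    (rowB 3 eng mog cd3q1 cd8q3 pd3 2 false true true .dn 1 3 3 (qsf 536870912 536870912 0 1230186008 3) ndB3q1 ndB8q3 pcB3 Cut.none Ext.none)

def k0_pp_133 : ∃ t, chk3 f_pp_133 t 1 1 1 = true :=
  ⟨(b (b (a (a (l 16768072) (l 1)) (l 1)) (l 1)) (l 1)), by decide +kernel⟩

theorem c_pp_133 : CertB 536870912 536870912 0 1230186008 649613803 48318383 3 eng mog cd3q1 cd8q3 pd3 false true true .dn 1 3 3
    ndB3q1 ndB8q3 pcB3 Cut.none Ext.none :=
  certB2 (fam := false) (s1 := true) (s2 := true) (a := 1) (b := 3) (c := 3) (cn := .dn) (n1 := ndB3q1) (n2 := ndB8q3) (pc := pcB3) (cut := Cut.none) (xt := Ext.none) (P1 := 536870912) (W1 := 536870912) (P2 := 0) (W2 := 1230186008) (P3 := 649613803) (W3 := 48318383) (N0 := 3) (En := eng) (mo := mog) (C1 := cd3q1) (C2 := cd8q3) (C3 := pd3)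
    rfl (fun _ => rfl) k0_pp_133

noncomputable def f_pp_202_a : ℕ → ℕ → ℕ → ℕ → Bool := onCell 0 536870912 1073741824 536870912 649613803 48318383
    (rowB 3 eng mog cd3q2a cd8q2 pd0 0 false true true .pp 2 0 2 (qsf 0 536870912 1073741824 536870912 0) ndB3q2a ndB8q2 pcB0 Cut.none Ext.none)

def k0_pp_202_a : ∃ t, chk3 f_pp_202_a t 1 1 1 = true :=
  ⟨(l 5), by decide +kernel⟩

theorem c_pp_202_a : CertB 0 536870912 1073741824 536870912 649613803 48318383 3 eng mog cd3q2a cd8q2 pd0 false true true .pp 2 0 2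
    ndB3q2a ndB8q2 pcB0 Cut.none Ext.none :=
  certB0 (fam := false) (s1 := true) (s2 := true) (a := 2) (b := 0) (c := 2) (cn := .pp) (n1 := ndB3q2a) (n2 := ndB8q2) (pc := pcB0) (cut := Cut.none) (xt := Ext.none) (P1 := 0) (W1 := 536870912) (P2 := 1073741824) (W2 := 536870912) (P3 := 649613803) (W3 := 48318383) (N0 := 3) (En := eng) (mo := mog) (C1 := cd3q2a) (C2 := cd8q2) (C3 := pd0)
    rfl k0_pp_202_a

noncomputable def f_pp_202_b : ℕ → ℕ → ℕ → ℕ → Bool := onCell 1239849684 370763052 1073741824 536870912 649613803 48318383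
    (rowB 3 eng mog cd3q2b cd8q2 pd0 0 false true true .pp 2 0 2 (qsf 1239849684 370763052 1073741824 536870912 0) ndB3q2b ndB8q2 pcB0 Cut.none Ext.none)

def k0_pp_202_b : ∃ t, chk3 f_pp_202_b t 1 1 1 = true :=
  ⟨(l 5), by decide +kernel⟩

theorem c_pp_202_b : CertB 1239849684 370763052 1073741824 536870912 649613803 48318383 3 eng mog cd3q2b cd8q2 pd0 false true true .pp 2 0 2
    ndB3q2b ndB8q2 pcB0 Cut.none Ext.none :=
  certB0 (fam := false) (s1 := true) (s2 := true) (a := 2) (b := 0) (c := 2) (cn := .pp) (n1 := ndB3q2b) (n2 := ndB8q2) (pc := pcB0) (cut := Cut.none) (xt := Ext.none) (P1 := 1239849684) (W1 := 370763052) (P2 := 1073741824) (W2 := 536870912) (P3 := 649613803) (W3 := 48318383) (N0 := 3) (En := eng) (mo := mog) (C1 := cd3q2b) (C2 := cd8q2) (C3 := pd0)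
    rfl k0_pp_202_b

noncomputable def f_pp_203_a : ℕ → ℕ → ℕ → ℕ → Bool := onCell 0 536870912 0 1230186008 649613803 48318383
    (rowB 3 eng mog cd3q2a cd8q3 pd0 0 false true true .up 2 0 3 (qsf 0 536870912 0 1230186008 0) ndB3q2a ndB8q3 pcB0 Cut.none Ext.none)

def k0_pp_203_a : ∃ t, chk3 f_pp_203_a t 1 1 1 = true :=
  ⟨(b (l 2) (b (l 2) (l 3))), by decide +kernel⟩

theorem c_pp_203_a : CertB 0 536870912 0 1230186008 649613803 48318383 3 eng mog cd3q2a cd8q3 pd0 false true true .up 2 0 3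
    ndB3q2a ndB8q3 pcB0 Cut.none Ext.none :=
  certB0 (fam := false) (s1 := true) (s2 := true) (a := 2) (b := 0) (c := 3) (cn := .up) (n1 := ndB3q2a) (n2 := ndB8q3) (pc := pcB0) (cut := Cut.none) (xt := Ext.none) (P1 := 0) (W1 := 536870912) (P2 := 0) (W2 := 1230186008) (P3 := 649613803) (W3 := 48318383) (N0 := 3) (En := eng) (mo := mog) (C1 := cd3q2a) (C2 := cd8q3) (C3 := pd0)
    rfl k0_pp_203_a

noncomputable def f_pp_203_b : ℕ → ℕ → ℕ → ℕ → Bool := onCell 1239849684 370763052 0 1230186008 649613803 48318383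
    (rowB 3 eng mog cd3q2b cd8q3 pd0 0 false true true .up 2 0 3 (qsf 1239849684 370763052 0 1230186008 0) ndB3q2b ndB8q3 pcB0 Cut.none Ext.none)

def k0_pp_203_b : ∃ t, chk3 f_pp_203_b t 1 1 1 = true :=
  ⟨(b (l 3) (l 5)), by decide +kernel⟩

theorem c_pp_203_b : CertB 1239849684 370763052 0 1230186008 649613803 48318383 3 eng mog cd3q2b cd8q3 pd0 false true true .up 2 0 3
    ndB3q2b ndB8q3 pcB0 Cut.none Ext.none :=
  certB0 (fam := false) (s1 := true) (s2 := true) (a := 2) (b := 0) (c := 3) (cn := .up) (n1 := ndB3q2b) (n2 := ndB8q3) (pc := pcB0) (cut := Cut.none) (xt := Ext.none) (P1 := 1239849684) (W1 := 370763052) (P2 := 0) (W2 := 1230186008) (P3 := 649613803) (W3 := 48318383) (N0 := 3) (En := eng) (mo := mog) (C1 := cd3q2b) (C2 := cd8q3) (C3 := pd0)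
    rfl k0_pp_203_b

noncomputable def cut_pp_213_a : Cut := Cut.of [[⟨0, 1, 0, 67108864⟩, ⟨1, 1, 0, 67108864⟩, ⟨2, 2, 0, 16777216⟩]]

noncomputable def f_pp_213_a : ℕ → ℕ → ℕ → ℕ → Bool := onCell 0 536870912 0 1230186008 649613803 48318383
    (rowB 3 eng mog cd3q2a cd8q3 pd1 0 false true true .pnn 2 1 3 (qsf 0 536870912 0 1230186008 1) ndB3q2a ndB8q3 pcB1 cut_pp_213_a Ext.none)

def k0_pp_213_a : ∃ t, chk3 f_pp_213_a t 1 1 1 = true :=
  ⟨(b (a (l 3) (b (a (l 3) (b (a (l 3) (l 6)) (l 3))) (l 3))) (b (l 3) (l 3))), by decide +kernel⟩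

theorem c_pp_213_a : CertB 0 536870912 0 1230186008 649613803 48318383 3 eng mog cd3q2a cd8q3 pd1 false true true .pnn 2 1 3
    ndB3q2a ndB8q3 pcB1 cut_pp_213_a Ext.none :=
  certB0 (fam := false) (s1 := true) (s2 := true) (a := 2) (b := 1) (c := 3) (cn := .pnn) (n1 := ndB3q2a) (n2 := ndB8q3) (pc := pcB1) (cut := cut_pp_213_a) (xt := Ext.none) (P1 := 0) (W1 := 536870912) (P2 := 0) (W2 := 1230186008) (P3 := 649613803) (W3 := 48318383) (N0 := 3) (En := eng) (mo := mog) (C1 := cd3q2a) (C2 := cd8q3) (C3 := pd1)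
    rfl k0_pp_213_a

noncomputable def cut_pp_213_b : Cut := Cut.of [[⟨0, 1, 0, 67108864⟩, ⟨1, 1, 0, 67108864⟩, ⟨2, 2, 0, 16777216⟩]]

noncomputable def f_pp_213_b : ℕ → ℕ → ℕ → ℕ → Bool := onCell 1239849684 370763052 0 1230186008 649613803 48318383
    (rowB 3 eng mog cd3q2b cd8q3 pd1 0 false true true .pnn 2 1 3 (qsf 1239849684 370763052 0 1230186008 1) ndB3q2b ndB8q3 pcB1 cut_pp_213_b Ext.none)

def k0_pp_213_b : ∃ t, chk3 f_pp_213_b t 1 1 1 = true :=
  ⟨(b (l 3) (l 5)), by decide +kernel⟩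

theorem c_pp_213_b : CertB 1239849684 370763052 0 1230186008 649613803 48318383 3 eng mog cd3q2b cd8q3 pd1 false true true .pnn 2 1 3
    ndB3q2b ndB8q3 pcB1 cut_pp_213_b Ext.none :=
  certB0 (fam := false) (s1 := true) (s2 := true) (a := 2) (b := 1) (c := 3) (cn := .pnn) (n1 := ndB3q2b) (n2 := ndB8q3) (pc := pcB1) (cut := cut_pp_213_b) (xt := Ext.none) (P1 := 1239849684) (W1 := 370763052) (P2 := 0) (W2 := 1230186008) (P3 := 649613803) (W3 := 48318383) (N0 := 3) (En := eng) (mo := mog) (C1 := cd3q2b) (C2 := cd8q3) (C3 := pd1)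
    rfl k0_pp_213_b

noncomputable def f_pp_303 : ℕ → ℕ → ℕ → ℕ → Bool := onCell 1610612736 536870912 0 1230186008 649613803 48318383
    (rowB 3 eng mog cd3q3 cd8q3 pd0 0 false true true .npn 3 0 3 (qsf 1610612736 536870912 0 1230186008 0) ndB3q3 ndB8q3 pcB0 Cut.none Ext.none)

def k0_pp_303 : ∃ t, chk3 f_pp_303 t 1 1 1 = true :=
  ⟨(b (l 3) (l 5)), by decide +kernel⟩

theorem c_pp_303 : CertB 1610612736 536870912 0 1230186008 649613803 48318383 3 eng mog cd3q3 cd8q3 pd0 false true true .npn 3 0 3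
    ndB3q3 ndB8q3 pcB0 Cut.none Ext.none :=
  certB0 (fam := false) (s1 := true) (s2 := true) (a := 3) (b := 0) (c := 3) (cn := .npn) (n1 := ndB3q3) (n2 := ndB8q3) (pc := pcB0) (cut := Cut.none) (xt := Ext.none) (P1 := 1610612736) (W1 := 536870912) (P2 := 0) (W2 := 1230186008) (P3 := 649613803) (W3 := 48318383) (N0 := 3) (En := eng) (mo := mog) (C1 := cd3q3) (C2 := cd8q3) (C3 := pd0)
    rfl k0_pp_303

noncomputable def f_pp_313 : ℕ → ℕ → ℕ → ℕ → Bool := onCell 1610612736 536870912 0 1230186008 649613803 48318383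
    (rowB 3 eng mog cd3q3 cd8q3 pd1 0 false true true .dn 3 1 3 (qsf 1610612736 536870912 0 1230186008 1) ndB3q3 ndB8q3 pcB1 Cut.none Ext.none)

def k0_pp_313 : ∃ t, chk3 f_pp_313 t 1 1 1 = true :=
  ⟨(b (l 3) (l 1)), by decide +kernel⟩

theorem c_pp_313 : CertB 1610612736 536870912 0 1230186008 649613803 48318383 3 eng mog cd3q3 cd8q3 pd1 false true true .dn 3 1 3
    ndB3q3 ndB8q3 pcB1 Cut.none Ext.none :=
  certB0 (fam := false) (s1 := true) (s2 := true) (a := 3) (b := 1) (c := 3) (cn := .dn) (n1 := ndB3q3) (n2 := ndB8q3) (pc := pcB1) (cut := Cut.none) (xt := Ext.none) (P1 := 1610612736) (W1 := 536870912) (P2 := 0) (W2 := 1230186008) (P3 := 649613803) (W3 := 48318383) (N0 := 3) (En := eng) (mo := mog) (C1 := cd3q3) (C2 := cd8q3) (C3 := pd1)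
    rfl k0_pp_313

noncomputable def f_pm_001 : ℕ → ℕ → ℕ → ℕ → Bool := onCell 0 536870912 536870912 536870912 649613803 48318383
    (rowB 3 eng mog cd3q0 cd8q1 pd0 0 false true false .up 0 0 1 (qsf 0 536870912 536870912 536870912 0) ndB3q0 ndB8q1 pcB0 Cut.none Ext.none)

def k0_pm_001 : ∃ t, chk3 f_pm_001 t 1 1 1 = true :=
  ⟨(l 4), by decide +kernel⟩

theorem c_pm_001 : CertB 0 536870912 536870912 536870912 649613803 48318383 3 eng mog cd3q0 cd8q1 pd0 false true false .up 0 0 1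
    ndB3q0 ndB8q1 pcB0 Cut.none Ext.none :=
  certB0 (fam := false) (s1 := true) (s2 := false) (a := 0) (b := 0) (c := 1) (cn := .up) (n1 := ndB3q0) (n2 := ndB8q1) (pc := pcB0) (cut := Cut.none) (xt := Ext.none) (P1 := 0) (W1 := 536870912) (P2 := 536870912) (W2 := 536870912) (P3 := 649613803) (W3 := 48318383) (N0 := 3) (En := eng) (mo := mog) (C1 := cd3q0) (C2 := cd8q1) (C3 := pd0)
    rfl k0_pm_001

noncomputable def f_pm_011 : ℕ → ℕ → ℕ → ℕ → Bool := onCell 0 536870912 536870912 536870912 649613803 48318383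
    (rowB 3 eng mog cd3q0 cd8q1 pd1 0 false true false .pnn 0 1 1 (qsf 0 536870912 536870912 536870912 1) ndB3q0 ndB8q1 pcB1 Cut.none Ext.none)

def k0_pm_011 : ∃ t, chk3 f_pm_011 t 1 1 1 = true :=
  ⟨(l 4), by decide +kernel⟩

theorem c_pm_011 : CertB 0 536870912 536870912 536870912 649613803 48318383 3 eng mog cd3q0 cd8q1 pd1 false true false .pnn 0 1 1
    ndB3q0 ndB8q1 pcB1 Cut.none Ext.none :=
  certB0 (fam := false) (s1 := true) (s2 := false) (a := 0) (b := 1) (c := 1) (cn := .pnn) (n1 := ndB3q0) (n2 := ndB8q1) (pc := pcB1) (cut := Cut.none) (xt := Ext.none) (P1 := 0) (W1 := 536870912) (P2 := 536870912) (W2 := 536870912) (P3 := 649613803) (W3 := 48318383) (N0 := 3) (En := eng) (mo := mog) (C1 := cd3q0) (C2 := cd8q1) (C3 := pd1)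
    rfl k0_pm_011

noncomputable def f_pm_012 : ℕ → ℕ → ℕ → ℕ → Bool := onCell 0 536870912 1073741824 536870912 649613803 48318383
    (rowB 3 eng mog cd3q0 cd8q2 pd1 0 false true false .pnp 0 1 2 (qsf 0 536870912 1073741824 536870912 1) ndB3q0 ndB8q2 pcB1 Cut.none Ext.none)

def k0_pm_012 : ∃ t, chk3 f_pm_012 t 1 1 1 = true :=
  ⟨(l 4), by decide +kernel⟩

theorem c_pm_012 : CertB 0 536870912 1073741824 536870912 649613803 48318383 3 eng mog cd3q0 cd8q2 pd1 false true false .pnp 0 1 2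
    ndB3q0 ndB8q2 pcB1 Cut.none Ext.none :=
  certB0 (fam := false) (s1 := true) (s2 := false) (a := 0) (b := 1) (c := 2) (cn := .pnp) (n1 := ndB3q0) (n2 := ndB8q2) (pc := pcB1) (cut := Cut.none) (xt := Ext.none) (P1 := 0) (W1 := 536870912) (P2 := 1073741824) (W2 := 536870912) (P3 := 649613803) (W3 := 48318383) (N0 := 3) (En := eng) (mo := mog) (C1 := cd3q0) (C2 := cd8q2) (C3 := pd1)
    rfl k0_pm_012

noncomputable def f_pm_022 : ℕ → ℕ → ℕ → ℕ → Bool := onCell 0 536870912 1073741824 536870912 649613803 48318383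
    (rowB 3 eng mog cd3q0 cd8q2 pd2 0 false true false .pp 0 2 2 (qsf 0 536870912 1073741824 536870912 2) ndB3q0 ndB8q2 pcB2 Cut.none Ext.none)

def k0_pm_022 : ∃ t, chk3 f_pm_022 t 1 1 1 = true :=
  ⟨(l 4), by decide +kernel⟩

theorem c_pm_022 : CertB 0 536870912 1073741824 536870912 649613803 48318383 3 eng mog cd3q0 cd8q2 pd2 false true false .pp 0 2 2
    ndB3q0 ndB8q2 pcB2 Cut.none Ext.none :=
  certB0 (fam := false) (s1 := true) (s2 := false) (a := 0) (b := 2) (c := 2) (cn := .pp) (n1 := ndB3q0) (n2 := ndB8q2) (pc := pcB2) (cut := Cut.none) (xt := Ext.none) (P1 := 0) (W1 := 536870912) (P2 := 1073741824) (W2 := 536870912) (P3 := 649613803) (W3 := 48318383) (N0 := 3) (En := eng) (mo := mog) (C1 := cd3q0) (C2 := cd8q2) (C3 := pd2)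
    rfl k0_pm_022

noncomputable def f_pm_023 : ℕ → ℕ → ℕ → ℕ → Bool := onCell 0 536870912 0 1230186008 649613803 48318383
    (rowB 3 eng mog cd3q0 cd8q3 pd2 0 false true false .up 0 2 3 (qsf 0 536870912 0 1230186008 2) ndB3q0 ndB8q3 pcB2 Cut.none Ext.none)

def k0_pm_023 : ∃ t, chk3 f_pm_023 t 1 1 1 = true :=
  ⟨(b (b (a (l 2) (a (l 2) (a (l 2) (l 16677328)))) (l 4)) (l 4)), by decide +kernel⟩

theorem c_pm_023 : CertB 0 536870912 0 1230186008 649613803 48318383 3 eng mog cd3q0 cd8q3 pd2 false true false .up 0 2 3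
    ndB3q0 ndB8q3 pcB2 Cut.none Ext.none :=
  certB0 (fam := false) (s1 := true) (s2 := false) (a := 0) (b := 2) (c := 3) (cn := .up) (n1 := ndB3q0) (n2 := ndB8q3) (pc := pcB2) (cut := Cut.none) (xt := Ext.none) (P1 := 0) (W1 := 536870912) (P2 := 0) (W2 := 1230186008) (P3 := 649613803) (W3 := 48318383) (N0 := 3) (En := eng) (mo := mog) (C1 := cd3q0) (C2 := cd8q3) (C3 := pd2)
    rfl k0_pm_023

noncomputable def f_pm_033 : ℕ → ℕ → ℕ → ℕ → Bool := onCell 0 536870912 0 1230186008 649613803 48318383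
    (rowB 3 eng mog cd3q0 cd8q3 pd3 0 false true false .pnn 0 3 3 (qsf 0 536870912 0 1230186008 3) ndB3q0 ndB8q3 pcB3 Cut.none Ext.none)

def k0_pm_033 : ∃ t, chk3 f_pm_033 t 1 1 1 = true :=
  ⟨(b (a (l 4) (b (a (l 4) (a (l 4) (l 16669936))) (l 4))) (l 4)), by decide +kernel⟩

theorem c_pm_033 : CertB 0 536870912 0 1230186008 649613803 48318383 3 eng mog cd3q0 cd8q3 pd3 false true false .pnn 0 3 3
    ndB3q0 ndB8q3 pcB3 Cut.none Ext.none :=
  certB0 (fam := false) (s1 := true) (s2 := false) (a := 0) (b := 3) (c := 3) (cn := .pnn) (n1 := ndB3q0) (n2 := ndB8q3) (pc := pcB3) (cut := Cut.none) (xt := Ext.none) (P1 := 0) (W1 := 536870912) (P2 := 0) (W2 := 1230186008) (P3 := 649613803) (W3 := 48318383) (N0 := 3) (En := eng) (mo := mog) (C1 := cd3q0) (C2 := cd8q3) (C3 := pd3)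
    rfl k0_pm_033

noncomputable def f_pm_101 : ℕ → ℕ → ℕ → ℕ → Bool := onCell 536870912 536870912 536870912 536870912 649613803 48318383
    (rowB 3 eng mog cd3q1 cd8q1 pd0 0 false true false .npn 1 0 1 (qsf 536870912 536870912 536870912 536870912 0) ndB3q1 ndB8q1 pcB0 Cut.none Ext.none)

def k0_pm_101 : ∃ t, chk3 f_pm_101 t 1 1 1 = true :=
  ⟨(l 4), by decide +kernel⟩

theorem c_pm_101 : CertB 536870912 536870912 536870912 536870912 649613803 48318383 3 eng mog cd3q1 cd8q1 pd0 false true false .npn 1 0 1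
    ndB3q1 ndB8q1 pcB0 Cut.none Ext.none :=
  certB0 (fam := false) (s1 := true) (s2 := false) (a := 1) (b := 0) (c := 1) (cn := .npn) (n1 := ndB3q1) (n2 := ndB8q1) (pc := pcB0) (cut := Cut.none) (xt := Ext.none) (P1 := 536870912) (W1 := 536870912) (P2 := 536870912) (W2 := 536870912) (P3 := 649613803) (W3 := 48318383) (N0 := 3) (En := eng) (mo := mog) (C1 := cd3q1) (C2 := cd8q1) (C3 := pd0)
    rfl k0_pm_101

noncomputable def f_pm_102 : ℕ → ℕ → ℕ → ℕ → Bool := onCell 536870912 536870912 1073741824 536870912 649613803 48318383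
    (rowB 3 eng mog cd3q1 cd8q2 pd0 0 false true false .npp 1 0 2 (qsf 536870912 536870912 1073741824 536870912 0) ndB3q1 ndB8q2 pcB0 Cut.none Ext.none)

def k0_pm_102 : ∃ t, chk3 f_pm_102 t 1 1 1 = true :=
  ⟨(l 4), by decide +kernel⟩

theorem c_pm_102 : CertB 536870912 536870912 1073741824 536870912 649613803 48318383 3 eng mog cd3q1 cd8q2 pd0 false true false .npp 1 0 2
    ndB3q1 ndB8q2 pcB0 Cut.none Ext.none :=
  certB0 (fam := false) (s1 := true) (s2 := false) (a := 1) (b := 0) (c := 2) (cn := .npp) (n1 := ndB3q1) (n2 := ndB8q2) (pc := pcB0) (cut := Cut.none) (xt := Ext.none) (P1 := 536870912) (W1 := 536870912) (P2 := 1073741824) (W2 := 536870912) (P3 := 649613803) (W3 := 48318383) (N0 := 3) (En := eng) (mo := mog) (C1 := cd3q1) (C2 := cd8q2) (C3 := pd0)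
    rfl k0_pm_102

noncomputable def f_pm_112 : ℕ → ℕ → ℕ → ℕ → Bool := onCell 536870912 536870912 1073741824 536870912 649613803 48318383
    (rowB 3 eng mog cd3q1 cd8q2 pd1 0 false true false .dn 1 1 2 (qsf 536870912 536870912 1073741824 536870912 1) ndB3q1 ndB8q2 pcB1 Cut.none Ext.none)

def k0_pm_112 : ∃ t, chk3 f_pm_112 t 1 1 1 = true :=
  ⟨(l 4), by decide +kernel⟩

theorem c_pm_112 : CertB 536870912 536870912 1073741824 536870912 649613803 48318383 3 eng mog cd3q1 cd8q2 pd1 false true false .dn 1 1 2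
    ndB3q1 ndB8q2 pcB1 Cut.none Ext.none :=
  certB0 (fam := false) (s1 := true) (s2 := false) (a := 1) (b := 1) (c := 2) (cn := .dn) (n1 := ndB3q1) (n2 := ndB8q2) (pc := pcB1) (cut := Cut.none) (xt := Ext.none) (P1 := 536870912) (W1 := 536870912) (P2 := 1073741824) (W2 := 536870912) (P3 := 649613803) (W3 := 48318383) (N0 := 3) (En := eng) (mo := mog) (C1 := cd3q1) (C2 := cd8q2) (C3 := pd1)
    rfl k0_pm_112

noncomputable def f_pm_113 : ℕ → ℕ → ℕ → ℕ → Bool := onCell 536870912 536870912 0 1230186008 649613803 48318383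
    (rowB 3 eng mog cd3q1 cd8q3 pd1 0 false true false .nn 1 1 3 (qsf 536870912 536870912 0 1230186008 1) ndB3q1 ndB8q3 pcB1 Cut.none Ext.none)

def k0_pm_113 : ∃ t, chk3 f_pm_113 t 1 1 1 = true :=
  ⟨(b (a (l 2) (a (l 2) (b (l 16901848) (b (l 16615880) (l 16595824))))) (b (a (l 4) (b (l 4) (l 4))) (l 4))), by decide +kernel⟩

theorem c_pm_113 : CertB 536870912 536870912 0 1230186008 649613803 48318383 3 eng mog cd3q1 cd8q3 pd1 false true false .nn 1 1 3
    ndB3q1 ndB8q3 pcB1 Cut.none Ext.none :=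
  certB0 (fam := false) (s1 := true) (s2 := false) (a := 1) (b := 1) (c := 3) (cn := .nn) (n1 := ndB3q1) (n2 := ndB8q3) (pc := pcB1) (cut := Cut.none) (xt := Ext.none) (P1 := 536870912) (W1 := 536870912) (P2 := 0) (W2 := 1230186008) (P3 := 649613803) (W3 := 48318383) (N0 := 3) (En := eng) (mo := mog) (C1 := cd3q1) (C2 := cd8q3) (C3 := pd1)
    rfl k0_pm_113

noncomputable def f_pm_123 : ℕ → ℕ → ℕ → ℕ → Bool := onCell 1073741824 536870912 0 1230186008 649613803 48318383
    (rowB 3 eng mog cd3q1 cd8q3 pd2 2 false true false .npn 1 2 3 (qsf 536870912 536870912 0 1230186008 2) ndB3q1 ndB8q3 pcB2 Cut.none Ext.none)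

def k0_pm_123 : ∃ t, chk3 f_pm_123 t 1 1 1 = true :=
  ⟨(b (b (a (a (a (b (l 16701456) (l 16640776)) (l 16599048)) (a (l 16576424) (l 16603904))) (a (a (l 16646896) (l 16666760)) (l 16724648))) (a (a (a (l 16649992) (l 16633760)) (a (l 16624976) (l 16644000))) (l 4))) (a (l 4) (l 4))), by decide +kernel⟩

theorem c_pm_123 : CertB 536870912 536870912 0 1230186008 649613803 48318383 3 eng mog cd3q1 cd8q3 pd2 false true false .npn 1 2 3
    ndB3q1 ndB8q3 pcB2 Cut.none Ext.none :=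
  certB2 (fam := false) (s1 := true) (s2 := false) (a := 1) (b := 2) (c := 3) (cn := .npn) (n1 := ndB3q1) (n2 := ndB8q3) (pc := pcB2) (cut := Cut.none) (xt := Ext.none) (P1 := 536870912) (W1 := 536870912) (P2 := 0) (W2 := 1230186008) (P3 := 649613803) (W3 := 48318383) (N0 := 3) (En := eng) (mo := mog) (C1 := cd3q1) (C2 := cd8q3) (C3 := pd2)
    rfl (fun _ => rfl) k0_pm_123

noncomputable def f_pm_133 : ℕ → ℕ → ℕ → ℕ → Bool := onCell 1610612736 536870912 0 1230186008 649613803 48318383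
    (rowB 3 eng mog cd3q1 cd8q3 pd3 2 false true false .dn 1 3 3 (qsf 536870912 536870912 0 1230186008 3) ndB3q1 ndB8q3 pcB3 Cut.none Ext.none)

def k0_pm_133 : ∃ t, chk3 f_pm_133 t 1 1 1 = true :=
  ⟨(b (a (a (b (l 16747704) (l 1)) (l 1)) (l 1)) (l 1)), by decide +kernel⟩

theorem c_pm_133 : CertB 536870912 536870912 0 1230186008 649613803 48318383 3 eng mog cd3q1 cd8q3 pd3 false true false .dn 1 3 3
    ndB3q1 ndB8q3 pcB3 Cut.none Ext.none :=
  certB2 (fam := false) (s1 := true) (s2 := false) (a := 1) (b := 3) (c := 3) (cn := .dn) (n1 := ndB3q1) (n2 := ndB8q3) (pc := pcB3) (cut := Cut.none) (xt := Ext.none) (P1 := 536870912) (W1 := 536870912) (P2 := 0) (W2 := 1230186008) (P3 := 649613803) (W3 := 48318383) (N0 := 3) (En := eng) (mo := mog) (C1 := cd3q1) (C2 := cd8q3) (C3 := pd3)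
    rfl (fun _ => rfl) k0_pm_133

noncomputable def f_pm_202_a : ℕ → ℕ → ℕ → ℕ → Bool := onCell 0 536870912 1073741824 536870912 649613803 48318383
    (rowB 3 eng mog cd3q2a cd8q2 pd0 0 false true false .pp 2 0 2 (qsf 0 536870912 1073741824 536870912 0) ndB3q2a ndB8q2 pcB0 Cut.none Ext.none)

def k0_pm_202_a : ∃ t, chk3 f_pm_202_a t 1 1 1 = true :=
  ⟨(a (b (a (b (l 1) (b (b (l 16105120) (l 16184640)) (l 16274024))) (b (l 4) (b (b (a (l 16063848) (l 4)) (l 16111296)) (b (l 16165896) (l 16225976))))) (a (b (b (b (l 16367256) (l 16420616)) (b (l 16468168) (l 16518944))) (b (b (l 16565960) (l 16604904)) (b (l 16779264) (a (l 16674688) (l 16664352))))) (b (b (b (l 16289960) (l 16353432)) (b (l 16416920) (l 16472936))) (b (b (l 16523048) (l 16572848)) (b (a (l 16620784) (l 16611576)) (a (l 16655424) (l 16650936))))))) (b (b (l 4) (a (b (l 4) (a (b (l 4) (l 16179360)) (l 4))) (l 4))) (a (b (b (a (l 16276152) (l 16276624)) (a (l 16412312) (l 16418952)))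 (b (a (l 16536736) (l 16553008)) (a (b (l 16613608) (l 16657984)) (b (l 16637944) (l 16688144))))) (b (b (l 4) (a (l 16473072) (l 4))) (b (a (l 16599888) (b (l 16557184) (l 16611272))) (a (b (l 16684056) (l 16717160)) (l 16680816))))))), by decide +kernel⟩

theorem c_pm_202_a : CertB 0 536870912 1073741824 536870912 649613803 48318383 3 eng mog cd3q2a cd8q2 pd0 false true false .pp 2 0 2
    ndB3q2a ndB8q2 pcB0 Cut.none Ext.none :=
  certB0 (fam := false) (s1 := true) (s2 := false) (a := 2) (b := 0) (c := 2) (cn := .pp) (n1 := ndB3q2a) (n2 := ndB8q2) (pc := pcB0) (cut := Cut.none) (xt := Ext.none) (P1 := 0) (W1 := 536870912) (P2 := 1073741824) (W2 := 536870912) (P3 := 649613803) (W3 := 48318383) (N0 := 3) (En := eng) (mo := mog) (C1 := cd3q2a) (C2 := cd8q2) (C3 := pd0)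
    rfl k0_pm_202_a

noncomputable def f_pm_202_b : ℕ → ℕ → ℕ → ℕ → Bool := onCell 0 536870912 1073741824 536870912 649613803 48318383
    (rowB 3 eng mog cd3q2b cd8q2 pd0 2 false true false .pp 2 0 2 (qsf 1239849684 370763052 1073741824 536870912 0) ndB3q2b ndB8q2 pcB0 Cut.none Ext.none)

def k0_pm_202_b : ∃ t, chk3 f_pm_202_b t 1 1 1 = true :=
  ⟨(a (b (a (b (l 1) (b (a (a (l 670047767927) (l 684543247591)) (l 1)) (a (l 541735894455) (l 588443617255)))) (l 1)) (b (a (b (a (b (l 16409120) (l 16447608)) (b (l 16401800) (l 16459064))) (a (l 16462608) (a (l 16510376) (l 16526792)))) (b (a (l 566969002759) (l 1)) (a (l 16589856) (l 534219855991)))) (a (b (a (l 16376008) (l 16495392)) (a (l 16253952) (l 16377144))) (b (a (b (l 16584904) (l 16585424)) (b (l 16587136) (l 16625120))) (a (l 16490416) (l 16629848)))))) (a (b (l 1) (b (l 1) (a (b (l 522945970487) (b (l 16653896) (l 16675992))) (b (l 1) (a (l 674343073735) (l 577169823927)))))) (l 1))), by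 decide +kernel⟩

theorem c_pm_202_b : CertB 1239849684 370763052 1073741824 536870912 649613803 48318383 3 eng mog cd3q2b cd8q2 pd0 false true false .pp 2 0 2
    ndB3q2b ndB8q2 pcB0 Cut.none Ext.none :=
  certB2 (fam := false) (s1 := true) (s2 := false) (a := 2) (b := 0) (c := 2) (cn := .pp) (n1 := ndB3q2b) (n2 := ndB8q2) (pc := pcB0) (cut := Cut.none) (xt := Ext.none) (P1 := 1239849684) (W1 := 370763052) (P2 := 1073741824) (W2 := 536870912) (P3 := 649613803) (W3 := 48318383) (N0 := 3) (En := eng) (mo := mog) (C1 := cd3q2b) (C2 := cd8q2) (C3 := pd0)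
    rfl (fun _ => rfl) k0_pm_202_b

noncomputable def f_pm_203_a : ℕ → ℕ → ℕ → ℕ → Bool := onCell 0 536870912 0 1230186008 649613803 48318383
    (rowB 3 eng mog cd3q2a cd8q3 pd0 0 false true false .up 2 0 3 (qsf 0 536870912 0 1230186008 0) ndB3q2a ndB8q3 pcB0 Cut.none Ext.none)

def k0_pm_203_a : ∃ t, chk3 f_pm_203_a t 1 1 1 = true :=
  ⟨(b (l 2) (b (l 2) (a (b (b (l 2) (a (l 16786240) (b (l 2) (l 16799688)))) (b (a (b (l 16761464) (l 16742032)) (b (l 16776824) (l 16748352))) (a (b (l 16720824) (a (l 16699848) (b (l 16699680) (l 16686048)))) (b (a (l 16716880) (l 16721856)) (a (l 16688008) (l 16687688)))))) (b (l 2) (a (b (b (l 16787504) (l 16749992)) (b (a (l 16743512) (l 16731816)) (a (l 16700088) (l 16741520)))) (b (b (l 2) (l 16775544)) (a (l 16798984) (b (l 16706112) (l 16722208))))))))), by decide +kernel⟩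

theorem c_pm_203_a : CertB 0 536870912 0 1230186008 649613803 48318383 3 eng mog cd3q2a cd8q3 pd0 false true false .up 2 0 3
    ndB3q2a ndB8q3 pcB0 Cut.none Ext.none :=
  certB0 (fam := false) (s1 := true) (s2 := false) (a := 2) (b := 0) (c := 3) (cn := .up) (n1 := ndB3q2a) (n2 := ndB8q3) (pc := pcB0) (cut := Cut.none) (xt := Ext.none) (P1 := 0) (W1 := 536870912) (P2 := 0) (W2 := 1230186008) (P3 := 649613803) (W3 := 48318383) (N0 := 3) (En := eng) (mo := mog) (C1 := cd3q2a) (C2 := cd8q3) (C3 := pd0)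
    rfl k0_pm_203_a

noncomputable def f_pm_203_b : ℕ → ℕ → ℕ → ℕ → Bool := onCell 0 536870912 0 1230186008 649613803 48318383
    (rowB 3 eng mog cd3q2b cd8q3 pd0 2 false true false .up 2 0 3 (qsf 1239849684 370763052 0 1230186008 0) ndB3q2b ndB8q3 pcB0 Cut.none Ext.none)

def k0_pm_203_b : ∃ t, chk3 f_pm_203_b t 1 1 1 = true :=
  ⟨(b (l 3) (b (a (a (l 2) (b (l 2) (b (l 2) (a (l 2) (l 743666477047))))) (a (b (l 3) (a (b (l 216526468727) (l 155793001159)) (b (l 218674080471) (l 16694376)))) (b (b (l 3) (a (l 226727738103) (l 171429821351))) (b (a (l 16791416) (l 16727816)) (l 16921752))))) (a (b (a (l 2) (b (a (l 16436768) (l 16542272)) (a (l 16407296) (l 16506048)))) (a (b (a (l 2) (l 16313808)) (a (l 16219240) (l 16331336))) (a (b (l 16412784) (l 16442872)) (b (l 16514048) (l 16548960))))) (a (a (b (b (l 16612616) (l 16604096)) (b (l 16601400) (l 16884528))) (b (l 16674976) (b (l 16732424) (a (l 16705208) (l 16711144))))) (b (b (l 16748792) (l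 16755600)) (a (b (l 16741288) (l 541199829431)) (b (l 16766928) (l 1)))))))), by decide +kernel⟩

theorem c_pm_203_b : CertB 1239849684 370763052 0 1230186008 649613803 48318383 3 eng mog cd3q2b cd8q3 pd0 false true false .up 2 0 3
    ndB3q2b ndB8q3 pcB0 Cut.none Ext.none :=
  certB2 (fam := false) (s1 := true) (s2 := false) (a := 2) (b := 0) (c := 3) (cn := .up) (n1 := ndB3q2b) (n2 := ndB8q3) (pc := pcB0) (cut := Cut.none) (xt := Ext.none) (P1 := 1239849684) (W1 := 370763052) (P2 := 0) (W2 := 1230186008) (P3 := 649613803) (W3 := 48318383) (N0 := 3) (En := eng) (mo := mog) (C1 := cd3q2b) (C2 := cd8q3) (C3 := pd0)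
    rfl (fun _ => rfl) k0_pm_203_b

noncomputable def cut_pm_213_a : Cut := Cut.of [[⟨0, 1, 0, 67108864⟩, ⟨1, 1, 0, 67108864⟩, ⟨2, 2, 0, 16777216⟩]]

noncomputable def f_pm_213_a : ℕ → ℕ → ℕ → ℕ → Bool := onCell 0 536870912 0 1230186008 649613803 48318383
    (rowB 3 eng mog cd3q2a cd8q3 pd1 0 false true false .pnn 2 1 3 (qsf 0 536870912 0 1230186008 1) ndB3q2a ndB8q3 pcB1 cut_pm_213_a Ext.none)

def k0_pm_213_a : ∃ t, chk3 f_pm_213_a t 1 2 1 = true :=
  ⟨(a (b (b (l 3) (l 3)) (b (a (b (l 3) (a (l 3) (b (l 3) (l 343765180007)))) (b (a (l 3) (b (l 371145583063) (l 253034057687))) (a (b (l 313700491207) (a (l 16761816) (l 16766272))) (b (a (l 16765184) (l 16770752)) (l 16774152))))) (a (b (a (b (a (l 3) (l 355039406311)) (a (l 379198599959) (l 16762392))) (b (l 309942420599) (a (l 16765448) (l 16767456)))) (a (b (a (l 16762096) (l 16763928)) (a (l 16760096) (l 16760880))) (b (l 16829976) (l 16762072)))) (b (a (b (l 16896392) (l 16772976)) (l 16900072))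 (a (l 16754160) (l 16756944)))))) (b (a (b (l 3) (a (b (l 3) (a (l 344838890615) (b (l 306721041783) (l 16768464)))) (b (b (a (l 3) (l 324437788071)) (a (l 306721045607) (l 16771880))) (b (a (l 16770368) (l 16773352)) (a (l 16772184) (l 16773536)))))) (b (a (b (l 3) (a (b (l 3) (l 339470174615)) (l 6))) (l 6)) (a (b (a (b (l 202568161527) (l 16773592)) (b (l 16775288) (l 16778144))) (a (l 16842624) (l 16785128))) (b (b (l 6) (l 16783488)) (l 16790760))))) (a (b (b (a (a (b (l 16766600) (l 16770552)) (l 16836120)) (b (l 16818616) (l 16782744))) (a (l 16865808) (l 16789336))) (b (a (l 16774760) (l 16786288)) (a (l 16769016) (l 16780712)))) (b (a (b (l 16793416) (l 16796072)) (b (l 16796680) (l 16802360))) (a (b (l 16798104) (l 16791896)) (l 16797920)))))), by decide +kernel⟩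

def k1_pm_213_a : ∃ t, chk3 f_pm_213_a t 1 3 1 = true :=
  ⟨(b (a (b (a (b (a (b (l 16760392) (l 16747656)) (l 16743648)) (a (l 16735072) (l 16735064))) (b (l 16941128) (l 16754952))) (a (b (l 16736624) (l 16707480)) (b (l 16726904) (l 16734464)))) (b (a (b (l 16767288) (l 16761296)) (b (a (l 16787008) (l 16772752)) (l 16782504))) (a (b (l 16755648) (l 16739008)) (b (l 16766176) (l 16755040))))) (b (a (a (b (l 16708632) (l 16674160)) (b (l 16703048) (l 16673176))) (a (b (l 16709936) (l 16715480)) (b (l 16745824) (l 16717920)))) (a (b (l 1192961019191) (l 1)) (a (b (l 16697104) (l 1)) (b (l 16733920) (a (l 16714856) (l 16707016))))))), by decide +kernel⟩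

theorem s2_pm_213_a : ∃ t, chk3 f_pm_213_a t 1 1 1 = true := ex3_b k0_pm_213_a k1_pm_213_a

theorem c_pm_213_a : CertB 0 536870912 0 1230186008 649613803 48318383 3 eng mog cd3q2a cd8q3 pd1 false true false .pnn 2 1 3
    ndB3q2a ndB8q3 pcB1 cut_pm_213_a Ext.none :=
  certB0 (fam := false) (s1 := true) (s2 := false) (a := 2) (b := 1) (c := 3) (cn := .pnn) (n1 := ndB3q2a) (n2 := ndB8q3) (pc := pcB1) (cut := cut_pm_213_a) (xt := Ext.none) (P1 := 0) (W1 := 536870912) (P2 := 0) (W2 := 1230186008) (P3 := 649613803) (W3 := 48318383) (N0 := 3) (En := eng) (mo := mog) (C1 := cd3q2a) (C2 := cd8q3) (C3 := pd1)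
    rfl s2_pm_213_a

noncomputable def cut_pm_213_b : Cut := Cut.of [[⟨0, 1, 0, 67108864⟩, ⟨1, 1, 0, 67108864⟩, ⟨2, 2, 0, 16777216⟩]]

noncomputable def f_pm_213_b : ℕ → ℕ → ℕ → ℕ → Bool := onCell 1239849684 370763052 0 1230186008 649613803 48318383
    (rowB 3 eng mog cd3q2b cd8q3 pd1 0 false true false .pnn 2 1 3 (qsf 1239849684 370763052 0 1230186008 1) ndB3q2b ndB8q3 pcB1 cut_pm_213_b Ext.none)

def k0_pm_213_b : ∃ t, chk3 f_pm_213_b t 1 1 1 = true :=
  ⟨(b (a (b (l 3) (a (b (l 3) (b (l 3) (a (b (a (l 280414405431) (l 16744472)) (a (l 16756736) (l 16747344))) (a (b (l 3) (l 16736432)) (l 3))))) (l 3))) (l 3)) (b (a (b (a (a (b (b (a (l 16755304) (l 16748512)) (a (l 16753960) (l 16750128))) (l 16751296)) (b (b (l 16733192) (l 16736184)) (l 16741160))) (b (a (b (l 255718105447) (l 57075818791)) (l 244443696343)) (a (l 16799184) (l 59760885495)))) (a (b (l 16897248) (l 16727640)) (b (l 16847192) (l 16738424)))) (b (a (b (l 3) (a (c (l 257866191879)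 (l 257866192407)) (l 1))) (l 1)) (l 1))) (a (b (a (b (l 16695816) (l 16669032)) (l 1)) (l 1)) (l 1)))), by decide +kernel⟩

theorem c_pm_213_b : CertB 1239849684 370763052 0 1230186008 649613803 48318383 3 eng mog cd3q2b cd8q3 pd1 false true false .pnn 2 1 3
    ndB3q2b ndB8q3 pcB1 cut_pm_213_b Ext.none :=
  certB0 (fam := false) (s1 := true) (s2 := false) (a := 2) (b := 1) (c := 3) (cn := .pnn) (n1 := ndB3q2b) (n2 := ndB8q3) (pc := pcB1) (cut := cut_pm_213_b) (xt := Ext.none) (P1 := 1239849684) (W1 := 370763052) (P2 := 0) (W2 := 1230186008) (P3 := 649613803) (W3 := 48318383) (N0 := 3) (En := eng) (mo := mog) (C1 := cd3q2b) (C2 := cd8q3) (C3 := pd1)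
    rfl k0_pm_213_b

noncomputable def f_pm_303 : ℕ → ℕ → ℕ → ℕ → Bool := onCell 0 536870912 0 1230186008 649613803 48318383
    (rowB 3 eng mog cd3q3 cd8q3 pd0 2 false true false .npn 3 0 3 (qsf 1610612736 536870912 0 1230186008 0) ndB3q3 ndB8q3 pcB0 Cut.none Ext.none)

def k0_pm_303 : ∃ t, chk3 f_pm_303 t 1 1 1 = true :=
  ⟨(b (l 3) (b (b (a (l 3) (a (l 3) (b (l 3) (l 1)))) (a (a (a (l 191830340023) (b (l 3) (b (l 3) (l 174113615975)))) (a (b (l 3) (l 183776825447)) (b (l 201493772599) (b (l 16539960) (l 16527848))))) (a (a (b (l 198809648679) (l 16615432)) (b (l 197199202247) (l 1))) (l 1)))) (a (b (a (b (a (b (a (l 16233328) (l 16273432)) (l 16233360)) (b (l 16332064) (l 16322000))) (a (l 16195136) (l 16269440))) (b (a (l 16401104) (l 16510752)) (a (l 16372840) (l 1)))) (a (a (b (l 16159288) (l 16191440)) (b (l 16280400) (l 16307672))) (a (b (l 16386144) (l 1)) (l 1)))) (l 1)))), by decide +kernel⟩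

theorem c_pm_303 : CertB 1610612736 536870912 0 1230186008 649613803 48318383 3 eng mog cd3q3 cd8q3 pd0 false true false .npn 3 0 3
    ndB3q3 ndB8q3 pcB0 Cut.none Ext.none :=
  certB2 (fam := false) (s1 := true) (s2 := false) (a := 3) (b := 0) (c := 3) (cn := .npn) (n1 := ndB3q3) (n2 := ndB8q3) (pc := pcB0) (cut := Cut.none) (xt := Ext.none) (P1 := 1610612736) (W1 := 536870912) (P2 := 0) (W2 := 1230186008) (P3 := 649613803) (W3 := 48318383) (N0 := 3) (En := eng) (mo := mog) (C1 := cd3q3) (C2 := cd8q3) (C3 := pd0)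
    rfl (fun _ => rfl) k0_pm_303

noncomputable def f_pm_313 : ℕ → ℕ → ℕ → ℕ → Bool := onCell 1610612736 536870912 0 1230186008 649613803 48318383
    (rowB 3 eng mog cd3q3 cd8q3 pd1 0 false true false .dn 3 1 3 (qsf 1610612736 536870912 0 1230186008 1) ndB3q3 ndB8q3 pcB1 Cut.none Ext.none)

def k0_pm_313 : ∃ t, chk3 f_pm_313 t 1 1 1 = true :=
  ⟨(b (l 3) (l 1)), by decide +kernel⟩

theorem c_pm_313 : CertB 1610612736 536870912 0 1230186008 649613803 48318383 3 eng mog cd3q3 cd8q3 pd1 false true false .dn 3 1 3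
    ndB3q3 ndB8q3 pcB1 Cut.none Ext.none :=
  certB0 (fam := false) (s1 := true) (s2 := false) (a := 3) (b := 1) (c := 3) (cn := .dn) (n1 := ndB3q3) (n2 := ndB8q3) (pc := pcB1) (cut := Cut.none) (xt := Ext.none) (P1 := 1610612736) (W1 := 536870912) (P2 := 0) (W2 := 1230186008) (P3 := 649613803) (W3 := 48318383) (N0 := 3) (En := eng) (mo := mog) (C1 := cd3q3) (C2 := cd8q3) (C3 := pd1)
    rfl k0_pm_313

noncomputable def f_mm_001 : ℕ → ℕ → ℕ → ℕ → Bool := onCell 0 536870912 0 536870912 649613803 48318383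
    (rowB 3 eng mog cd3q0 cd8q1 pd0 1 false false false .up 0 0 1 (qsf 0 536870912 536870912 536870912 0) ndB3q0 ndB8q1 pcB0 Cut.none Ext.none)

def k0_mm_001 : ∃ t, chk3 f_mm_001 t 1 1 1 = true :=
  ⟨(l 3), by decide +kernel⟩

theorem c_mm_001 : CertB 0 536870912 536870912 536870912 649613803 48318383 3 eng mog cd3q0 cd8q1 pd0 false false false .up 0 0 1
    ndB3q0 ndB8q1 pcB0 Cut.none Ext.none :=
  certB1 (fam := false) (s1 := false) (s2 := false) (a := 0) (b := 0) (c := 1) (cn := .up) (n1 := ndB3q0) (n2 := ndB8q1) (pc := pcB0) (cut := Cut.none) (xt := Ext.none) (P1 := 0) (W1 := 536870912) (P2 := 536870912) (W2 := 536870912) (P3 := 649613803) (W3 := 48318383) (N0 := 3) (En := eng) (mo := mog) (C1 := cd3q0) (C2 := cd8q1) (C3 := pd0)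
    rfl (fun _ => rfl) k0_mm_001

noncomputable def f_mm_011 : ℕ → ℕ → ℕ → ℕ → Bool := onCell 0 536870912 536870912 536870912 649613803 48318383
    (rowB 3 eng mog cd3q0 cd8q1 pd1 1 false false false .pnn 0 1 1 (qsf 0 536870912 536870912 536870912 1) ndB3q0 ndB8q1 pcB1 Cut.none Ext.none)

def k0_mm_011 : ∃ t, chk3 f_mm_011 t 1 1 1 = true :=
  ⟨(l 5), by decide +kernel⟩

theorem c_mm_011 : CertB 0 536870912 536870912 536870912 649613803 48318383 3 eng mog cd3q0 cd8q1 pd1 false false false .pnn 0 1 1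
    ndB3q0 ndB8q1 pcB1 Cut.none Ext.none :=
  certB1 (fam := false) (s1 := false) (s2 := false) (a := 0) (b := 1) (c := 1) (cn := .pnn) (n1 := ndB3q0) (n2 := ndB8q1) (pc := pcB1) (cut := Cut.none) (xt := Ext.none) (P1 := 0) (W1 := 536870912) (P2 := 536870912) (W2 := 536870912) (P3 := 649613803) (W3 := 48318383) (N0 := 3) (En := eng) (mo := mog) (C1 := cd3q0) (C2 := cd8q1) (C3 := pd1)
    rfl (fun _ => rfl) k0_mm_011

noncomputable def f_mm_012 : ℕ → ℕ → ℕ → ℕ → Bool := onCell 0 536870912 1073741824 536870912 649613803 48318383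
    (rowB 3 eng mog cd3q0 cd8q2 pd1 0 false false false .pnp 0 1 2 (qsf 0 536870912 1073741824 536870912 1) ndB3q0 ndB8q2 pcB1 Cut.none Ext.none)

def k0_mm_012 : ∃ t, chk3 f_mm_012 t 1 1 1 = true :=
  ⟨(l 5), by decide +kernel⟩

theorem c_mm_012 : CertB 0 536870912 1073741824 536870912 649613803 48318383 3 eng mog cd3q0 cd8q2 pd1 false false false .pnp 0 1 2
    ndB3q0 ndB8q2 pcB1 Cut.none Ext.none :=
  certB0 (fam := false) (s1 := false) (s2 := false) (a := 0) (b := 1) (c := 2) (cn := .pnp) (n1 := ndB3q0) (n2 := ndB8q2) (pc := pcB1) (cut := Cut.none) (xt := Ext.none) (P1 := 0) (W1 := 536870912) (P2 := 1073741824) (W2 := 536870912) (P3 := 649613803) (W3 := 48318383) (N0 := 3) (En := eng) (mo := mog) (C1 := cd3q0) (C2 := cd8q2) (C3 := pd1)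
    rfl k0_mm_012

noncomputable def f_mm_022 : ℕ → ℕ → ℕ → ℕ → Bool := onCell 0 536870912 1073741824 536870912 649613803 48318383
    (rowB 3 eng mog cd3q0 cd8q2 pd2 0 false false false .pp 0 2 2 (qsf 0 536870912 1073741824 536870912 2) ndB3q0 ndB8q2 pcB2 Cut.none Ext.none)

def k0_mm_022 : ∃ t, chk3 f_mm_022 t 1 1 1 = true :=
  ⟨(l 5), by decide +kernel⟩

theorem c_mm_022 : CertB 0 536870912 1073741824 536870912 649613803 48318383 3 eng mog cd3q0 cd8q2 pd2 false false false .pp 0 2 2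
    ndB3q0 ndB8q2 pcB2 Cut.none Ext.none :=
  certB0 (fam := false) (s1 := false) (s2 := false) (a := 0) (b := 2) (c := 2) (cn := .pp) (n1 := ndB3q0) (n2 := ndB8q2) (pc := pcB2) (cut := Cut.none) (xt := Ext.none) (P1 := 0) (W1 := 536870912) (P2 := 1073741824) (W2 := 536870912) (P3 := 649613803) (W3 := 48318383) (N0 := 3) (En := eng) (mo := mog) (C1 := cd3q0) (C2 := cd8q2) (C3 := pd2)
    rfl k0_mm_022

noncomputable def f_mm_023 : ℕ → ℕ → ℕ → ℕ → Bool := onCell 0 536870912 0 1230186008 649613803 48318383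
    (rowB 3 eng mog cd3q0 cd8q3 pd2 0 false false false .up 0 2 3 (qsf 0 536870912 0 1230186008 2) ndB3q0 ndB8q3 pcB2 Cut.none Ext.none)

def k0_mm_023 : ∃ t, chk3 f_mm_023 t 1 1 1 = true :=
  ⟨(l 5), by decide +kernel⟩

theorem c_mm_023 : CertB 0 536870912 0 1230186008 649613803 48318383 3 eng mog cd3q0 cd8q3 pd2 false false false .up 0 2 3
    ndB3q0 ndB8q3 pcB2 Cut.none Ext.none :=
  certB0 (fam := false) (s1 := false) (s2 := false) (a := 0) (b := 2) (c := 3) (cn := .up) (n1 := ndB3q0) (n2 := ndB8q3) (pc := pcB2) (cut := Cut.none) (xt := Ext.none) (P1 := 0) (W1 := 536870912) (P2 := 0) (W2 := 1230186008) (P3 := 649613803) (W3 := 48318383) (N0 := 3) (En := eng) (mo := mog) (C1 := cd3q0) (C2 := cd8q3) (C3 := pd2)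
    rfl k0_mm_023

noncomputable def f_mm_033 : ℕ → ℕ → ℕ → ℕ → Bool := onCell 0 536870912 0 1230186008 649613803 48318383
    (rowB 3 eng mog cd3q0 cd8q3 pd3 0 false false false .pnn 0 3 3 (qsf 0 536870912 0 1230186008 3) ndB3q0 ndB8q3 pcB3 Cut.none Ext.none)

def k0_mm_033 : ∃ t, chk3 f_mm_033 t 1 1 1 = true :=
  ⟨(l 5), by decide +kernel⟩

theorem c_mm_033 : CertB 0 536870912 0 1230186008 649613803 48318383 3 eng mog cd3q0 cd8q3 pd3 false false false .pnn 0 3 3
    ndB3q0 ndB8q3 pcB3 Cut.none Ext.none :=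
  certB0 (fam := false) (s1 := false) (s2 := false) (a := 0) (b := 3) (c := 3) (cn := .pnn) (n1 := ndB3q0) (n2 := ndB8q3) (pc := pcB3) (cut := Cut.none) (xt := Ext.none) (P1 := 0) (W1 := 536870912) (P2 := 0) (W2 := 1230186008) (P3 := 649613803) (W3 := 48318383) (N0 := 3) (En := eng) (mo := mog) (C1 := cd3q0) (C2 := cd8q3) (C3 := pd3)
    rfl k0_mm_033

noncomputable def f_mm_101 : ℕ → ℕ → ℕ → ℕ → Bool := onCell 536870912 536870912 536870912 536870912 649613803 48318383
    (rowB 3 eng mog cd3q1 cd8q1 pd0 0 false false false .npn 1 0 1 (qsf 536870912 536870912 536870912 536870912 0) ndB3q1 ndB8q1 pcB0 Cut.none Ext.none)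

def k0_mm_101 : ∃ t, chk3 f_mm_101 t 1 1 1 = true :=
  ⟨(l 3), by decide +kernel⟩

theorem c_mm_101 : CertB 536870912 536870912 536870912 536870912 649613803 48318383 3 eng mog cd3q1 cd8q1 pd0 false false false .npn 1 0 1
    ndB3q1 ndB8q1 pcB0 Cut.none Ext.none :=
  certB0 (fam := false) (s1 := false) (s2 := false) (a := 1) (b := 0) (c := 1) (cn := .npn) (n1 := ndB3q1) (n2 := ndB8q1) (pc := pcB0) (cut := Cut.none) (xt := Ext.none) (P1 := 536870912) (W1 := 536870912) (P2 := 536870912) (W2 := 536870912) (P3 := 649613803) (W3 := 48318383) (N0 := 3) (En := eng) (mo := mog) (C1 := cd3q1) (C2 := cd8q1) (C3 := pd0)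
    rfl k0_mm_101

noncomputable def f_mm_102 : ℕ → ℕ → ℕ → ℕ → Bool := onCell 536870912 536870912 1073741824 536870912 649613803 48318383
    (rowB 3 eng mog cd3q1 cd8q2 pd0 0 false false false .npp 1 0 2 (qsf 536870912 536870912 1073741824 536870912 0) ndB3q1 ndB8q2 pcB0 Cut.none Ext.none)

def k0_mm_102 : ∃ t, chk3 f_mm_102 t 1 1 1 = true :=
  ⟨(l 3), by decide +kernel⟩

theorem c_mm_102 : CertB 536870912 536870912 1073741824 536870912 649613803 48318383 3 eng mog cd3q1 cd8q2 pd0 false false false .npp 1 0 2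
    ndB3q1 ndB8q2 pcB0 Cut.none Ext.none :=
  certB0 (fam := false) (s1 := false) (s2 := false) (a := 1) (b := 0) (c := 2) (cn := .npp) (n1 := ndB3q1) (n2 := ndB8q2) (pc := pcB0) (cut := Cut.none) (xt := Ext.none) (P1 := 536870912) (W1 := 536870912) (P2 := 1073741824) (W2 := 536870912) (P3 := 649613803) (W3 := 48318383) (N0 := 3) (En := eng) (mo := mog) (C1 := cd3q1) (C2 := cd8q2) (C3 := pd0)
    rfl k0_mm_102

noncomputable def f_mm_112 : ℕ → ℕ → ℕ → ℕ → Bool := onCell 536870912 536870912 1073741824 536870912 649613803 48318383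
    (rowB 3 eng mog cd3q1 cd8q2 pd1 0 false false false .dn 1 1 2 (qsf 536870912 536870912 1073741824 536870912 1) ndB3q1 ndB8q2 pcB1 Cut.none Ext.none)

def k0_mm_112 : ∃ t, chk3 f_mm_112 t 1 1 1 = true :=
  ⟨(l 3), by decide +kernel⟩

theorem c_mm_112 : CertB 536870912 536870912 1073741824 536870912 649613803 48318383 3 eng mog cd3q1 cd8q2 pd1 false false false .dn 1 1 2
    ndB3q1 ndB8q2 pcB1 Cut.none Ext.none :=
  certB0 (fam := false) (s1 := false) (s2 := false) (a := 1) (b := 1) (c := 2) (cn := .dn) (n1 := ndB3q1) (n2 := ndB8q2) (pc := pcB1) (cut := Cut.none) (xt := Ext.none) (P1 := 536870912) (W1 := 536870912) (P2 := 1073741824) (W2 := 536870912) (P3 := 649613803) (W3 := 48318383) (N0 := 3) (En := eng) (mo := mog) (C1 := cd3q1) (C2 := cd8q2) (C3 := pd1)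
    rfl k0_mm_112

noncomputable def f_mm_113 : ℕ → ℕ → ℕ → ℕ → Bool := onCell 536870912 536870912 0 1230186008 649613803 48318383
    (rowB 3 eng mog cd3q1 cd8q3 pd1 0 false false false .nn 1 1 3 (qsf 536870912 536870912 0 1230186008 1) ndB3q1 ndB8q3 pcB1 Cut.none Ext.none)

def k0_mm_113 : ∃ t, chk3 f_mm_113 t 1 1 1 = true :=
  ⟨(l 5), by decide +kernel⟩

theorem c_mm_113 : CertB 536870912 536870912 0 1230186008 649613803 48318383 3 eng mog cd3q1 cd8q3 pd1 false false false .nn 1 1 3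
    ndB3q1 ndB8q3 pcB1 Cut.none Ext.none :=
  certB0 (fam := false) (s1 := false) (s2 := false) (a := 1) (b := 1) (c := 3) (cn := .nn) (n1 := ndB3q1) (n2 := ndB8q3) (pc := pcB1) (cut := Cut.none) (xt := Ext.none) (P1 := 536870912) (W1 := 536870912) (P2 := 0) (W2 := 1230186008) (P3 := 649613803) (W3 := 48318383) (N0 := 3) (En := eng) (mo := mog) (C1 := cd3q1) (C2 := cd8q3) (C3 := pd1)
    rfl k0_mm_113

noncomputable def f_mm_123 : ℕ → ℕ → ℕ → ℕ → Bool := onCell 536870912 536870912 0 1230186008 649613803 48318383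
    (rowB 3 eng mog cd3q1 cd8q3 pd2 0 false false false .npn 1 2 3 (qsf 536870912 536870912 0 1230186008 2) ndB3q1 ndB8q3 pcB2 Cut.none Ext.none)

def k0_mm_123 : ∃ t, chk3 f_mm_123 t 1 1 1 = true :=
  ⟨(l 5), by decide +kernel⟩

theorem c_mm_123 : CertB 536870912 536870912 0 1230186008 649613803 48318383 3 eng mog cd3q1 cd8q3 pd2 false false false .npn 1 2 3
    ndB3q1 ndB8q3 pcB2 Cut.none Ext.none :=
  certB0 (fam := false) (s1 := false) (s2 := false) (a := 1) (b := 2) (c := 3) (cn := .npn) (n1 := ndB3q1) (n2 := ndB8q3) (pc := pcB2) (cut := Cut.none) (xt := Ext.none) (P1 := 536870912) (W1 := 536870912) (P2 := 0) (W2 := 1230186008) (P3 := 649613803) (W3 := 48318383) (N0 := 3) (En := eng) (mo := mog) (C1 := cd3q1) (C2 := cd8q3) (C3 := pd2)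
    rfl k0_mm_123

noncomputable def f_mm_133 : ℕ → ℕ → ℕ → ℕ → Bool := onCell 536870912 536870912 0 1230186008 649613803 48318383
    (rowB 3 eng mog cd3q1 cd8q3 pd3 0 false false false .dn 1 3 3 (qsf 536870912 536870912 0 1230186008 3) ndB3q1 ndB8q3 pcB3 Cut.none Ext.none)

def k0_mm_133 : ∃ t, chk3 f_mm_133 t 1 1 1 = true :=
  ⟨(l 5), by decide +kernel⟩

theorem c_mm_133 : CertB 536870912 536870912 0 1230186008 649613803 48318383 3 eng mog cd3q1 cd8q3 pd3 false false false .dn 1 3 3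
    ndB3q1 ndB8q3 pcB3 Cut.none Ext.none :=
  certB0 (fam := false) (s1 := false) (s2 := false) (a := 1) (b := 3) (c := 3) (cn := .dn) (n1 := ndB3q1) (n2 := ndB8q3) (pc := pcB3) (cut := Cut.none) (xt := Ext.none) (P1 := 536870912) (W1 := 536870912) (P2 := 0) (W2 := 1230186008) (P3 := 649613803) (W3 := 48318383) (N0 := 3) (En := eng) (mo := mog) (C1 := cd3q1) (C2 := cd8q3) (C3 := pd3)
    rfl k0_mm_133

noncomputable def cut_mm_202_a : Cut := Cut.of [[⟨0, 1, 0, 67108864⟩, ⟨1, 0, 0, 67108864⟩, ⟨2, 1, 0, 67108864⟩]]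

noncomputable def f_mm_202_a : ℕ → ℕ → ℕ → ℕ → Bool := onCell 0 536870912 0 536870912 649613803 48318383
    (rowB 3 eng mog cd3q2a cd8q2 pd0 1 false false false .pp 2 0 2 (qsf 0 536870912 1073741824 536870912 0) ndB3q2a ndB8q2 pcB0 cut_mm_202_a Ext.none)

def k0_mm_202_a : ∃ t, chk3 f_mm_202_a t 2 4 1 = true :=
  ⟨(b (a (b (a (l 16428592) (l 16443736)) (a (l 16462624) (b (l 16469096) (l 16484584)))) (b (a (b (l 16457816) (l 16475568)) (b (l 16491288) (l 16530472))) (a (b (l 16492136) (a (b (l 16496632) (l 16504024)) (b (l 16657280) (l 16518792)))) (b (a (b (l 16512336) (l 16666936)) (b (b (l 16530320) (l 16639288)) (l 16708576))) (b (a (l 16696480) (l 16538216)) (a (l 16514920) (a (l 16551504) (l 16562488)))))))) (a (b (a (b (l 16485480) (a (l 16683368) (l 16710768))) (a (b (l 16702744) (l 16720144)) (b (a (l 16689176) (l 16695296)) (l 16495440)))) (a (b (a (l 16511176) (l 16515608)) (a (l 16520416) (l 16528424))) (b (a (b (l 16518872) (l 16525872))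 (l 16532368)) (a (l 16535576) (b (l 16541368) (l 16547176)))))) (b (a (b (b (a (l 16511704) (l 16651440)) (a (l 16519032) (l 16534128))) (a (b (l 16526480) (l 16533840)) (b (l 16541424) (l 16547472)))) (b (a (b (l 16544320) (l 16551848)) (b (l 16569720) (a (l 16566952) (l 16578216)))) (a (b (a (l 16554464) (l 16564056)) (l 16587632)) (b (l 16580280) (l 16587424))))) (a (b (a (b (l 16540504) (l 16546768)) (b (l 16555376) (l 16562352))) (a (b (l 16553296) (l 16559800)) (b (l 16568384) (l 16574840)))) (b (a (b (l 16573520) (l 16580240)) (a (l 16655632) (l 16667632))) (a (b (l 16608120) (a (l 16588888) (l 16600432))) (b (l 16662880) (a (l 16612704) (l 3))))))))), by decide +kernel⟩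

def k1_mm_202_a : ∃ t, chk3 f_mm_202_a t 2 5 1 = true :=
  ⟨(b (a (b (a (b (a (l 16537704) (l 16542080)) (a (l 16551456) (l 16555784))) (b (a (b (l 16545432) (l 16552312)) (l 16558960)) (a (l 16564032) (l 16573192)))) (a (b (a (l 16564832) (l 16570896)) (a (l 16579352) (l 16583736))) (b (a (l 16577624) (b (a (l 16581072) (l 16586528)) (a (l 16587728) (l 16593392)))) (a (b (l 16608904) (a (l 16591520) (l 16595920))) (a (b (l 16594424) (l 16599608)) (l 16623072)))))) (a (a (b (b (l 16596512) (b (a (l 16578304) (l 16585536)) (a (l 16585784) (l 16592960)))) (b (b (a (l 16592856) (l 16599744)) (a (l 16599080) (l 16606552))) (a (l 153712577863) (l 3)))) (b (b (b (l 16624496) (a (l 16586032) (l 16595496))) (c (b (l 151565014567) (l 156933747143)) (l 132237728103))) (b (b (a (l 16608496) (l 3)) (l 3)) (l 3)))) (b (b (a (b (l 84993144023) (a (l 16605936) (l 16617280))) (a (b (l 16621080) (l 3)) (l 3))) (a (a (a (l 16657088) (l 3)) (l 3)) (l 3))) (l 3))))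 (a (b (a (a (b (l 16591352) (a (l 16601640) (l 16631592))) (b (a (l 16594448) (l 16629920)) (a (l 16605080) (l 16607192)))) (a (b (a (b (l 16597760) (l 16602416)) (l 16603216)) (b (l 16611096) (l 204178412455))) (b (a (l 141901441991) (l 140827708535)) (l 3)))) (a (b (a (a (l 16611192) (l 16613176)) (b (l 16615400) (l 205252158151))) (a (b (l 16620632) (l 16629584)) (a (l 203641588135) (l 3)))) (b (a (b (l 240685643703) (l 3)) (l 3)) (l 3)))) (l 3))), by decide +kernel⟩

def k2_mm_202_a : ∃ t, chk3 f_mm_202_a t 2 3 1 = true :=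
  ⟨(b (b (a (b (a (a (a (b (l 138143380791) (l 202567867207)) (b (l 198809752903) (l 3))) (l 3)) (l 3)) (l 3)) (l 3)) (l 3)) (l 3)), by decide +kernel⟩

def k3_mm_202_a : ∃ t, chk3 f_mm_202_a t 6 8 1 = true :=
  ⟨(b (a (b (a (l 16523592) (l 16549264)) (b (l 16592720) (a (l 16547096) (b (l 16571192) (a (l 16568480) (l 16582400)))))) (b (a (b (l 16572976) (l 16583344)) (b (l 16605104) (l 16637368))) (b (a (l 16614608) (b (l 16644384) (l 16654760))) (a (b (a (l 16592536) (l 16608408)) (a (l 16534400) (l 16612432))) (b (a (l 16624472) (l 16640856)) (a (l 16628656) (l 16645696))))))) (a (b (a (b (a (l 16654304) (l 16666600)) (b (a (l 16555760) (l 16568168)) (l 16566136))) (b (b (l 16579960) (l 16584176)) (a (l 16583456) (l 16597448)))) (a (b (a (l 16566136) (l 16578592)) (a (l 16574256) (l 16586776))) (a (b (l 16591888) (l 16600128)) (b (l 16605936) (l 16614216))))) (a (b (b (a (l 16603440) (b (l 16616816) (l 16621216))) (a (l 16612312) (l 16638136)))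 (b (a (l 16578672) (l 16636312)) (a (l 16629056) (l 16644584)))) (a (b (b (b (l 16633360) (l 16637416)) (a (l 16639864) (l 16648240))) (b (l 16652496) (l 16660752))) (b (b (b (l 16628784) (l 16654232)) (l 16660760)) (b (l 16669048) (l 127942871031))))))), by decide +kernel⟩

def k4_mm_202_a : ∃ t, chk3 f_mm_202_a t 7 8 1 = true :=
  ⟨(b (a (b (b (a (l 16640480) (b (l 6) (l 16718272))) (a (b (l 16670280) (a (l 16644984) (l 16695480))) (a (b (l 16676904) (l 16705152)) (b (l 6) (b (l 6) (l 16722720)))))) (a (b (b (c (l 16690392) (l 16689768)) (a (l 16653768) (l 16693536))) (a (b (l 16658792) (l 16662832)) (b (l 16697592) (l 16681448)))) (b (b (a (l 16707400) (b (l 16724784) (l 16727336))) (a (a (l 16686016) (l 16695344)) (a (l 16704864) (l 16714008)))) (a (b (l 16717328) (l 16720184)) (b (b (l 16722936) (l 16724968)) (l 89825115655)))))) (a (b (l 6) (b (l 6) (l 3))) (l 6))) (a (a (b (b (a (b (l 16667544) (l 16671832)) (b (l 16685600) (l 16689768)))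 (a (a (l 16673560) (l 16682408)) (l 93046309991))) (a (b (l 113447379831) (l 3)) (l 3))) (b (a (b (l 94120067255) (l 3)) (l 3)) (l 3))) (l 3))), by decide +kernel⟩

def k5_mm_202_a : ∃ t, chk3 f_mm_202_a t 3 9 1 = true :=
  ⟨(a (b (b (a (a (b (a (l 16582240) (l 16594864)) (l 16596328)) (a (a (l 16608736) (l 16615696)) (a (l 16633328) (l 16672056)))) (a (b (l 113984183719) (a (l 344838569927) (l 3))) (l 3))) (a (a (b (l 16667008) (l 16674944)) (a (l 72108282343) (b (l 330343038231) (l 3)))) (l 3))) (a (b (a (a (l 16669824) (b (l 16626736) (l 3))) (l 3)) (l 3)) (l 3))) (l 3)), by decide +kernel⟩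

def k6_mm_202_a : ∃ t, chk3 f_mm_202_a t 3 5 1 = true :=
  ⟨(l 3), by decide +kernel⟩

def k7_mm_202_a : ∃ t, chk3 f_mm_202_a t 3 3 1 = true :=
  ⟨(l 3), by decide +kernel⟩

theorem s8_mm_202_a : ∃ t, chk3 f_mm_202_a t 3 8 1 = true := ex3_a k3_mm_202_a k4_mm_202_a

theorem s9_mm_202_a : ∃ t, chk3 f_mm_202_a t 3 4 1 = true := ex3_b s8_mm_202_a k5_mm_202_a

theorem s10_mm_202_a : ∃ t, chk3 f_mm_202_a t 3 2 1 = true := ex3_b s9_mm_202_a k6_mm_202_a

theorem s11_mm_202_a : ∃ t, chk3 f_mm_202_a t 3 1 1 = true := ex3_b s10_mm_202_a k7_mm_202_a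

theorem s12_mm_202_a : ∃ t, chk3 f_mm_202_a t 2 2 1 = true := ex3_b k0_mm_202_a k1_mm_202_a

theorem s13_mm_202_a : ∃ t, chk3 f_mm_202_a t 2 1 1 = true := ex3_b s12_mm_202_a k2_mm_202_a

theorem s14_mm_202_a : ∃ t, chk3 f_mm_202_a t 1 1 1 = true := ex3_a s13_mm_202_a s11_mm_202_a

theorem c_mm_202_a : CertB 0 536870912 1073741824 536870912 649613803 48318383 3 eng mog cd3q2a cd8q2 pd0 false false false .pp 2 0 2
    ndB3q2a ndB8q2 pcB0 cut_mm_202_a Ext.none :=
  certB1 (fam := false) (s1 := false) (s2 := false) (a := 2) (b := 0) (c := 2) (cn := .pp) (n1 := ndB3q2a) (n2 := ndB8q2) (pc := pcB0) (cut := cut_mm_202_a) (xt := Ext.none) (P1 := 0) (W1 := 536870912) (P2 := 1073741824) (W2 := 536870912) (P3 := 649613803) (W3 := 48318383) (N0 := 3) (En := eng) (mo := mog) (C1 := cd3q2a) (C2 := cd8q2) (C3 := pd0)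
    rfl (fun _ => rfl) s14_mm_202_a

noncomputable def cut_mm_202_b : Cut := Cut.of [[⟨0, 1, 0, 67108864⟩, ⟨1, 0, 0, 67108864⟩, ⟨2, 1, 0, 67108864⟩]]

noncomputable def f_mm_202_b : ℕ → ℕ → ℕ → ℕ → Bool := onCell 0 536870912 1073741824 536870912 649613803 48318383
    (rowB 3 eng mog cd3q2b cd8q2 pd0 2 false false false .pp 2 0 2 (qsf 1239849684 370763052 1073741824 536870912 0) ndB3q2b ndB8q2 pcB0 cut_mm_202_b Ext.none)

def k0_mm_202_b : ∃ t, chk3 f_mm_202_b t 2 1 1 = true :=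
  ⟨(b (a (b (l 1) (a (b (a (b (l 16465288) (l 16420632)) (b (l 1) (l 16503992))) (a (b (l 16374672) (l 16326992)) (b (l 16455008) (l 16403784)))) (b (l 1) (a (b (l 16539392) (l 16485512)) (b (l 1) (a (l 16549280) (l 1))))))) (l 1)) (b (a (a (b (a (b (l 16276832) (l 16223320)) (b (l 16349280) (l 16263576))) (a (b (l 16158960) (l 16075920)) (b (a (l 16202160) (l 16242048)) (a (l 16124128) (l 16165576))))) (b (a (b (a (l 16407496) (b (l 16462664) (l 16433136))) (a (l 16301912) (l 16386664))) (b (a (l 16491408) (l 16534424)) (b (l 16465840) (l 16431912)))) (b (a (a (l 16272288) (l 16316104)) (b (l 16399144) (l 16361936))) (a (a (l 16310720) (l 16301152)) (b (l 16339232) (l 16283360)))))) (b (a (a (b (a (l 16579088) (l 1)) (b (l 16555504) (l 16523560))) (b (l 1) (l 16715992))) (l 1)) (a (b (a (l 16471240) (l 16566336)) (b (a (l 16415056) (l 16513296)) (l 16529208))) (b (a (b (l 1) (l 16666240)) (l 1)) (a (l 16591856) (a (l 16664312) (l 1))))))) (b (a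 (a (a (b (a (l 16014280) (l 16046576)) (b (l 16154496) (l 16022672))) (b (b (l 16256224) (l 16093264)) (l 16203832))) (a (b (b (l 16247192) (l 16164744)) (l 182165835559)) (b (b (l 16252232) (l 16232568)) (l 208472578487)))) (b (a (a (a (l 16386008) (b (l 16362936) (l 16333984))) (b (l 16434080) (l 16404320))) (a (b (l 16532000) (l 16561560)) (b (l 16653208) (a (l 16569200) (l 16617664))))) (b (a (a (l 189682385079) (l 178408193079)) (a (a (l 16445984) (l 16514040)) (a (l 168744829383) (l 147806948631)))) (l 3)))) (l 3)))), by decide +kernel⟩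

def k1_mm_202_b : ∃ t, chk3 f_mm_202_b t 3 1 1 = true :=
  ⟨(a (b (l 1) (b (l 1) (a (b (a (b (b (l 1) (a (l 16670392) (l 1))) (b (a (l 122037261351) (b (l 1) (l 16694680))) (a (l 3) (l 142438392375)))) (a (b (l 1) (b (l 1) (b (l 1) (l 3)))) (l 1))) (l 3)) (b (l 1) (b (b (l 1) (l 3)) (l 3)))))) (l 1)), by decide +kernel⟩

theorem s2_mm_202_b : ∃ t, chk3 f_mm_202_b t 1 1 1 = true := ex3_a k0_mm_202_b k1_mm_202_b

theorem c_mm_202_b : CertB 1239849684 370763052 1073741824 536870912 649613803 48318383 3 eng mog cd3q2b cd8q2 pd0 false false false .pp 2 0 2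
    ndB3q2b ndB8q2 pcB0 cut_mm_202_b Ext.none :=
  certB2 (fam := false) (s1 := false) (s2 := false) (a := 2) (b := 0) (c := 2) (cn := .pp) (n1 := ndB3q2b) (n2 := ndB8q2) (pc := pcB0) (cut := cut_mm_202_b) (xt := Ext.none) (P1 := 1239849684) (W1 := 370763052) (P2 := 1073741824) (W2 := 536870912) (P3 := 649613803) (W3 := 48318383) (N0 := 3) (En := eng) (mo := mog) (C1 := cd3q2b) (C2 := cd8q2) (C3 := pd0)
    rfl (fun _ => rfl) s2_mm_202_b

noncomputable def f_mm_203_a : ℕ → ℕ → ℕ → ℕ → Bool := onCell 0 536870912 0 1230186008 649613803 48318383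
    (rowB 3 eng mog cd3q2a cd8q3 pd0 0 false false false .up 2 0 3 (qsf 0 536870912 0 1230186008 0) ndB3q2a ndB8q3 pcB0 Cut.none Ext.none)

def k0_mm_203_a : ∃ t, chk3 f_mm_203_a t 1 1 1 = true :=
  ⟨(b (l 2) (b (l 2) (l 3))), by decide +kernel⟩

theorem c_mm_203_a : CertB 0 536870912 0 1230186008 649613803 48318383 3 eng mog cd3q2a cd8q3 pd0 false false false .up 2 0 3
    ndB3q2a ndB8q3 pcB0 Cut.none Ext.none :=
  certB0 (fam := false) (s1 := false) (s2 := false) (a := 2) (b := 0) (c := 3) (cn := .up) (n1 := ndB3q2a) (n2 := ndB8q3) (pc := pcB0) (cut := Cut.none) (xt := Ext.none) (P1 := 0) (W1 := 536870912) (P2 := 0) (W2 := 1230186008) (P3 := 649613803) (W3 := 48318383) (N0 := 3) (En := eng) (mo := mog) (C1 := cd3q2a) (C2 := cd8q3) (C3 := pd0)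
    rfl k0_mm_203_a

noncomputable def f_mm_203_b : ℕ → ℕ → ℕ → ℕ → Bool := onCell 1239849684 370763052 0 1230186008 649613803 48318383
    (rowB 3 eng mog cd3q2b cd8q3 pd0 0 false false false .up 2 0 3 (qsf 1239849684 370763052 0 1230186008 0) ndB3q2b ndB8q3 pcB0 Cut.none Ext.none)

def k0_mm_203_b : ∃ t, chk3 f_mm_203_b t 1 1 1 = true :=
  ⟨(b (l 3) (b (l 3) (a (l 3) (l 3)))), by decide +kernel⟩

theorem c_mm_203_b : CertB 1239849684 370763052 0 1230186008 649613803 48318383 3 eng mog cd3q2b cd8q3 pd0 false false false .up 2 0 3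
    ndB3q2b ndB8q3 pcB0 Cut.none Ext.none :=
  certB0 (fam := false) (s1 := false) (s2 := false) (a := 2) (b := 0) (c := 3) (cn := .up) (n1 := ndB3q2b) (n2 := ndB8q3) (pc := pcB0) (cut := Cut.none) (xt := Ext.none) (P1 := 1239849684) (W1 := 370763052) (P2 := 0) (W2 := 1230186008) (P3 := 649613803) (W3 := 48318383) (N0 := 3) (En := eng) (mo := mog) (C1 := cd3q2b) (C2 := cd8q3) (C3 := pd0)
    rfl k0_mm_203_b

noncomputable def f_mm_213_a : ℕ → ℕ → ℕ → ℕ → Bool := onCell 0 536870912 0 1230186008 649613803 48318383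
    (rowB 3 eng mog cd3q2a cd8q3 pd1 0 false false false .pnn 2 1 3 (qsf 0 536870912 0 1230186008 1) ndB3q2a ndB8q3 pcB1 Cut.none Ext.none)

def k0_mm_213_a : ∃ t, chk3 f_mm_213_a t 1 1 1 = true :=
  ⟨(b (a (l 3) (l 5)) (b (l 3) (l 3))), by decide +kernel⟩

theorem c_mm_213_a : CertB 0 536870912 0 1230186008 649613803 48318383 3 eng mog cd3q2a cd8q3 pd1 false false false .pnn 2 1 3
    ndB3q2a ndB8q3 pcB1 Cut.none Ext.none :=
  certB0 (fam := false) (s1 := false) (s2 := false) (a := 2) (b := 1) (c := 3) (cn := .pnn) (n1 := ndB3q2a) (n2 := ndB8q3) (pc := pcB1) (cut := Cut.none) (xt := Ext.none) (P1 := 0) (W1 := 536870912) (P2 := 0) (W2 := 1230186008) (P3 := 649613803) (W3 := 48318383) (N0 := 3) (En := eng) (mo := mog) (C1 := cd3q2a) (C2 := cd8q3) (C3 := pd1)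
    rfl k0_mm_213_a

noncomputable def f_mm_213_b : ℕ → ℕ → ℕ → ℕ → Bool := onCell 1239849684 370763052 0 1230186008 649613803 48318383
    (rowB 3 eng mog cd3q2b cd8q3 pd1 0 false false false .pnn 2 1 3 (qsf 1239849684 370763052 0 1230186008 1) ndB3q2b ndB8q3 pcB1 Cut.none Ext.none)

def k0_mm_213_b : ∃ t, chk3 f_mm_213_b t 1 1 1 = true :=
  ⟨(b (l 3) (b (l 3) (a (l 3) (l 1)))), by decide +kernel⟩

theorem c_mm_213_b : CertB 1239849684 370763052 0 1230186008 649613803 48318383 3 eng mog cd3q2b cd8q3 pd1 false false false .pnn 2 1 3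
    ndB3q2b ndB8q3 pcB1 Cut.none Ext.none :=
  certB0 (fam := false) (s1 := false) (s2 := false) (a := 2) (b := 1) (c := 3) (cn := .pnn) (n1 := ndB3q2b) (n2 := ndB8q3) (pc := pcB1) (cut := Cut.none) (xt := Ext.none) (P1 := 1239849684) (W1 := 370763052) (P2 := 0) (W2 := 1230186008) (P3 := 649613803) (W3 := 48318383) (N0 := 3) (En := eng) (mo := mog) (C1 := cd3q2b) (C2 := cd8q3) (C3 := pd1)
    rfl k0_mm_213_b

noncomputable def f_mm_303 : ℕ → ℕ → ℕ → ℕ → Bool := onCell 0 536870912 0 1230186008 649613803 48318383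
    (rowB 3 eng mog cd3q3 cd8q3 pd0 2 false false false .npn 3 0 3 (qsf 1610612736 536870912 0 1230186008 0) ndB3q3 ndB8q3 pcB0 Cut.none Ext.none)

def k0_mm_303 : ∃ t, chk3 f_mm_303 t 1 1 1 = true :=
  ⟨(b (l 3) (b (l 3) (a (l 3) (l 1)))), by decide +kernel⟩

theorem c_mm_303 : CertB 1610612736 536870912 0 1230186008 649613803 48318383 3 eng mog cd3q3 cd8q3 pd0 false false false .npn 3 0 3
    ndB3q3 ndB8q3 pcB0 Cut.none Ext.none :=
  certB2 (fam := false) (s1 := false) (s2 := false) (a := 3) (b := 0) (c := 3) (cn := .npn) (n1 := ndB3q3) (n2 := ndB8q3) (pc := pcB0) (cut := Cut.none) (xt := Ext.none) (P1 := 1610612736) (W1 := 536870912) (P2 := 0) (W2 := 1230186008) (P3 := 649613803) (W3 := 48318383) (N0 := 3) (En := eng) (mo := mog) (C1 := cd3q3) (C2 := cd8q3) (C3 := pd0)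
    rfl (fun _ => rfl) k0_mm_303

noncomputable def f_mm_313 : ℕ → ℕ → ℕ → ℕ → Bool := onCell 1610612736 536870912 0 1230186008 649613803 48318383
    (rowB 3 eng mog cd3q3 cd8q3 pd1 0 false false false .dn 3 1 3 (qsf 1610612736 536870912 0 1230186008 1) ndB3q3 ndB8q3 pcB1 Cut.none Ext.none)

def k0_mm_313 : ∃ t, chk3 f_mm_313 t 1 1 1 = true :=
  ⟨(b (l 3) (l 1)), by decide +kernel⟩

theorem c_mm_313 : CertB 1610612736 536870912 0 1230186008 649613803 48318383 3 eng mog cd3q3 cd8q3 pd1 false false false .dn 3 1 3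
    ndB3q3 ndB8q3 pcB1 Cut.none Ext.none :=
  certB0 (fam := false) (s1 := false) (s2 := false) (a := 3) (b := 1) (c := 3) (cn := .dn) (n1 := ndB3q3) (n2 := ndB8q3) (pc := pcB1) (cut := Cut.none) (xt := Ext.none) (P1 := 1610612736) (W1 := 536870912) (P2 := 0) (W2 := 1230186008) (P3 := 649613803) (W3 := 48318383) (N0 := 3) (En := eng) (mo := mog) (C1 := cd3q3) (C2 := cd8q3) (C3 := pd1)
    rfl k0_mm_313

end Pool.Agent.Strip051.G.I6050_6500.Tab.C.BB38

namespace Pool.Agent.Strip051.G.I6050_6500.Tab.C.BB40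

open Pool.Agent.Strip051.PB Pool.Agent.Strip051.PB.T
open Pool.Agent.Strip051.G.I6050_6500.Tab

noncomputable def f_pp_001 : ℕ → ℕ → ℕ → ℕ → Bool := onCell 0 536870912 0 536870912 649613803 48318383
    (rowB 3 eng mog cd4q0 cd0q1 pd0 1 false true true .up 0 0 1 (qsf 0 536870912 536870912 536870912 0) ndB4q0 ndB0q1 pcB0 Cut.none Ext.none)

def k0_pp_001 : ∃ t, chk3 f_pp_001 t 1 1 1 = true :=
  ⟨(a (l 3) (l 3)), by decide +kernel⟩

theorem c_pp_001 : CertB 0 536870912 536870912 536870912 649613803 48318383 3 eng mog cd4q0 cd0q1 pd0 false true true .up 0 0 1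
    ndB4q0 ndB0q1 pcB0 Cut.none Ext.none :=
  certB1 (fam := false) (s1 := true) (s2 := true) (a := 0) (b := 0) (c := 1) (cn := .up) (n1 := ndB4q0) (n2 := ndB0q1) (pc := pcB0) (cut := Cut.none) (xt := Ext.none) (P1 := 0) (W1 := 536870912) (P2 := 536870912) (W2 := 536870912) (P3 := 649613803) (W3 := 48318383) (N0 := 3) (En := eng) (mo := mog) (C1 := cd4q0) (C2 := cd0q1) (C3 := pd0)
    rfl (fun _ => rfl) k0_pp_001

noncomputable def cut_pp_011 : Cut := Cut.of [[⟨0, 0, 0, 67108864⟩, ⟨1, 1, 0, 67108864⟩, ⟨2, 1, 0, 67108864⟩]]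

noncomputable def f_pp_011 : ℕ → ℕ → ℕ → ℕ → Bool := onCell 0 536870912 536870912 536870912 649613803 48318383
    (rowB 3 eng mog cd4q0 cd0q1 pd1 0 false true true .pnn 0 1 1 (qsf 0 536870912 536870912 536870912 1) ndB4q0 ndB0q1 pcB1 cut_pp_011 Ext.none)

def k0_pp_011 : ∃ t, chk3 f_pp_011 t 1 1 1 = true :=
  ⟨(b (l 3) (b (l 3) (a (a (b (l 3) (a (b (l 3) (b (l 3) (a (l 6) (l 3)))) (l 3))) (l 3)) (l 3)))), by decide +kernel⟩

theorem c_pp_011 : CertB 0 536870912 536870912 536870912 649613803 48318383 3 eng mog cd4q0 cd0q1 pd1 false true true .pnn 0 1 1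
    ndB4q0 ndB0q1 pcB1 cut_pp_011 Ext.none :=
  certB0 (fam := false) (s1 := true) (s2 := true) (a := 0) (b := 1) (c := 1) (cn := .pnn) (n1 := ndB4q0) (n2 := ndB0q1) (pc := pcB1) (cut := cut_pp_011) (xt := Ext.none) (P1 := 0) (W1 := 536870912) (P2 := 536870912) (W2 := 536870912) (P3 := 649613803) (W3 := 48318383) (N0 := 3) (En := eng) (mo := mog) (C1 := cd4q0) (C2 := cd0q1) (C3 := pd1)
    rfl k0_pp_011

noncomputable def cut_pp_012 : Cut := Cut.of [[⟨0, 0, 0, 26843545⟩, ⟨1, 1, 0, 26843545⟩, ⟨2, 1, 0, 26843545⟩]]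

noncomputable def xt_pp_012 : Ext := extD2 3 ⟨7, 3, 3, 10, 377, 200, 77, 100, 17, 50, 3, 16⟩ eng cd4q0 cd0q2 pd1 false true true .pnp 0 1 2 rfl ndB4q0 ndB0q2 pcB1

noncomputable def f_pp_012 : ℕ → ℕ → ℕ → ℕ → Bool := onCell 536870912 536870912 0 536870912 649613803 48318383
    (rowB 3 eng mog cd4q0 cd0q2 pd1 2 false true true .pnp 0 1 2 (qsf 0 536870912 0 536870912 1) ndB4q0 ndB0q2 pcB1 cut_pp_012 xt_pp_012)

def k0_pp_012 : ∃ t, chk3 f_pp_012 t 2 2 1 = true :=
  ⟨(b (a (l 2) (a (l 16535136) (l 16522576))) (a (b (l 2) (a (l 2) (l 16595328))) (b (a (l 16580536) (l 16580088)) (a (l 16600832) (l 16609760))))), by decide +kernel⟩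

def k1_pp_012 : ∃ t, chk3 f_pp_012 t 2 6 1 = true :=
  ⟨(a (a (l 2) (b (l 16570128) (b (l 16487008) (l 16421080)))) (b (a (l 16588592) (b (l 16617552) (l 16604128))) (a (b (l 16514336) (l 16441832)) (b (a (l 16546344) (l 16572432)) (a (l 16499008) (l 16533880)))))), by decide +kernel⟩

def k2_pp_012 : ∃ t, chk3 f_pp_012 t 2 7 1 = true :=
  ⟨(b (a (a (a (l 2) (b (l 16478656) (b (l 16498808) (a (l 16535792) (l 16515984))))) (a (b (l 16470088) (b (l 16499264) (l 16521448))) (b (l 16467872) (b (l 16508672) (l 16538056))))) (a (b (l 16496144) (a (b (l 16532672) (l 16569960)) (b (l 16567512) (l 16602800)))) (b (a (l 16547200) (l 16584584)) (a (b (l 16598416) (l 16616712)) (b (l 16637720) (l 16658224)))))) (b (a (a (b (b (a (l 2) (a (a (b (l 195051514103) (l 3)) (b (l 16525584) (l 227800541463))) (a (b (l 16526824) (l 236390522487)) (c (l 247664815271) (l 238537980247))))) (l 3)) (l 3)) (b (a (a (b (b (l 16532504) (c (l 142295255370661951) (l 142048002601173055)))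 (l 3455109992601076891853586495)) (b (l 16585224) (a (l 3561495464727138283168596031) (l 3638866717182494547730726975)))) (a (b (l 16554368) (b (l 142275395452731455) (l 3629195310625592632647598143))) (b (l 16569688) (b (l 16583096) (l 3841966254877868178907709503))))) (a (l 3) (l 3)))) (a (a (b (b (l 16599832) (a (a (l 142368854018375743) (l 142461419178115135)) (l 16629480))) (b (a (a (l 3571166871284415475535151167) (l 3590509684398296134145392703)) (a (l 3638866717182934215134068799) (a (l 3687223749967536080910073919) (l 3783937815536567257996968127)))) (l 3))) (b (a (l 16633888) (b (l 16638784) (l 16638896))) (b (a (b (l 142962109374546047) (a (l 345912372263) (l 218137090407))) (a (b (l 16628776) (l 3019896697540274176876789887)) (a (l 161228799991) (l 16649576)))) (a (l 3) (a (l 3) (l 3783937815537027266211496063)))))) (a (b (a (c (l 16686696) (l 16635000)) (l 16695936)) (b (a (a (l 143272584056701055) (l 16714496)) (c (l 16742320) (l 16724904)))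 (a (a (l 3803280628651081166705082495) (l 3812952035208223393873133823)) (b (a (l 214916050631) (l 16759080)) (a (l 3) (l 372219299079)))))) (b (a (l 16718656) (l 16738128)) (b (a (l 16777992) (l 16776480)) (a (a (b (l 16771312) (l 208473717911)) (l 153176063655)) (c (l 141364935831) (l 160155320055)))))))) (a (l 3) (a (l 3) (a (l 3) (a (l 3) (a (l 3) (b (l 232096105095) (l 3))))))))), by decide +kernel⟩

def k3_pp_012 : ∃ t, chk3 f_pp_012 t 3 2 1 = true :=
  ⟨(a (b (a (b (l 16484128) (l 16528496)) (b (l 16466864) (a (l 16517632) (l 16513568)))) (a (b (b (l 16563520) (a (l 16586920) (l 16584152))) (a (l 16613096) (l 16615032))) (a (b (b (l 16557344) (l 16582120)) (b (l 16604368) (l 16626624))) (b (b (l 16554784) (l 16579256)) (l 16613488))))) (b (b (a (l 16454848) (l 16438944)) (a (a (l 16507832) (l 16500040)) (a (l 16490920) (l 16483752)))) (a (b (a (b (l 16549456) (l 16573072)) (b (l 16541272) (l 16563328))) (a (b (l 16594752) (l 16617840)) (l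 16594768))) (b (a (b (l 16531888) (l 16552712)) (l 16534912)) (a (l 16603328) (l 16572704)))))), by decide +kernel⟩

def k4_pp_012 : ∃ t, chk3 f_pp_012 t 6 3 1 = true :=
  ⟨(b (b (a (a (l 16632432) (l 16646760)) (a (b (l 16647728) (l 16664392)) (b (l 16648632) (l 16670800)))) (a (b (a (l 16603144) (l 16637256)) (l 16635232)) (a (b (l 16668480) (l 16641976)) (b (l 16687232) (l 16681120))))) (a (b (b (b (l 16626568) (l 16635432)) (a (b (l 16675080) (l 16693904)) (a (l 16719504) (l 16730376)))) (b (a (b (b (l 16749392) (l 16752248)) (a (b (l 16791560) (l 16806712)) (c (l 16808672) (l 16823136)))) (a (b (l 16778920) (a (l 16827520) (c (l 16813616) (l 16823800)))) (b (l 16784384) (b (l 16811872) (l 16871912))))) (b (a (b (a (a (l 187535803655) (l 180556506951)) (a (l 159081692487) (a (l 138680711559) (l 136533234375)))) (l 3)) (a (b (a (c (l 16864744) (b (l 16861680) (l 160692331207))) (b (l 16869864) (l 16900160))) (l 3)) (a (b (c (l 16840184) (l 16903944))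 (l 3)) (b (l 16867000) (l 213305693799))))) (l 3)))) (a (b (b (l 16676544) (a (l 16732336) (l 16730672))) (b (b (l 16776696) (a (l 16812976) (l 16804088))) (b (a (b (a (l 16841176) (l 16835960)) (b (l 128480170663) (l 3))) (a (l 132775126487) (l 137606949111))) (l 3)))) (b (b (l 16684904) (l 16726648)) (b (b (l 16764592) (a (l 16794960) (l 16786608))) (b (a (a (l 157471160839) (l 16862592)) (a (l 16836120) (l 16831056))) (b (a (l 3) (l 150491811223)) (l 3)))))))), by decide +kernel⟩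

def k5_pp_012 : ∃ t, chk3 f_pp_012 t 7 6 1 = true :=
  ⟨(a (b (a (b (l 16641672) (l 16665216)) (l 16639952)) (a (l 16696312) (l 16686544))) (b (a (b (l 16613200) (l 16634736)) (b (l 16600536) (l 16619728))) (a (b (l 16656952) (l 16680320)) (b (l 16639744) (a (l 16666264) (l 16657728)))))), by decide +kernel⟩

def k6_pp_012 : ∃ t, chk3 f_pp_012 t 7 7 1 = true :=
  ⟨(a (b (b (a (l 16693832) (l 16717248)) (a (l 16722072) (l 16720400))) (b (a (b (l 16775280) (a (l 16779352) (l 16772944))) (b (l 16766576) (a (l 16767712) (l 16763072)))) (b (a (a (a (l 16805408) (l 16822040)) (a (l 16818120) (l 16793752))) (a (a (l 16790768) (l 16787936)) (l 16825704))) (b (a (a (a (l 158544831447) (l 159618572839)) (a (l 161229187335) (a (l 169282228071) (l 171966578263)))) (a (b (a (l 16804712) (l 16801544)) (a (l 155860446855) (l 164450375271))) (a (l 178409023959) (l 16819064)))) (a (l 3) (a (l 3) (a (l 3) (l 148881080279)))))))) (b (a (b (l 16704976) (a (l 16732848)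 (l 16726944))) (a (b (l 16690568) (l 16717256)) (b (l 16681360) (b (l 16700632) (l 16714240))))) (b (a (a (b (l 16740552) (l 16758232)) (b (l 16745312) (l 16753304))) (a (b (l 16738240) (l 16753168)) (b (a (l 16730720) (l 16725920)) (a (l 16745864) (b (l 16736992) (l 16744568)))))) (a (b (a (l 16798992) (l 16792728)) (b (a (a (l 16794888) (l 16791568)) (a (l 16788088) (l 16784424))) (a (b (a (l 142975529847) (l 155323541751)) (l 3)) (b (a (c (l 16795000) (l 16796376)) (c (l 16791200) (l 16792208))) (a (l 3) (c (l 132238068727) (l 132238071911))))))) (b (a (b (l 16760760) (l 16790464)) (a (b (l 16757544) (l 16765424)) (b (l 16752384) (l 6)))) (b (a (a (l 16780608) (l 16776632)) (a (b (l 16770256) (l 6)) (l 6))) (a (a (b (c (l 16787272) (l 16787976)) (b (c (l 154249760071) (l 16791616)) (l 3))) (a (b (l 16784400) (b (l 166597789143) (l 3))) (l 6))) (l 6)))))))), by decide +kernel⟩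

theorem s7_pp_012 : ∃ t, chk3 f_pp_012 t 7 3 1 = true := ex3_b k5_pp_012 k6_pp_012

theorem s8_pp_012 : ∃ t, chk3 f_pp_012 t 3 3 1 = true := ex3_a k4_pp_012 s7_pp_012

theorem s9_pp_012 : ∃ t, chk3 f_pp_012 t 3 1 1 = true := ex3_b k3_pp_012 s8_pp_012

theorem s10_pp_012 : ∃ t, chk3 f_pp_012 t 2 3 1 = true := ex3_b k1_pp_012 k2_pp_012

theorem s11_pp_012 : ∃ t, chk3 f_pp_012 t 2 1 1 = true := ex3_b k0_pp_012 s10_pp_012

theorem s12_pp_012 : ∃ t, chk3 f_pp_012 t 1 1 1 = true := ex3_a s11_pp_012 s9_pp_012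

theorem c_pp_012 : CertB 0 536870912 0 536870912 649613803 48318383 3 eng mog cd4q0 cd0q2 pd1 false true true .pnp 0 1 2
    ndB4q0 ndB0q2 pcB1 cut_pp_012 xt_pp_012 :=
  certB2 (fam := false) (s1 := true) (s2 := true) (a := 0) (b := 1) (c := 2) (cn := .pnp) (n1 := ndB4q0) (n2 := ndB0q2) (pc := pcB1) (cut := cut_pp_012) (xt := xt_pp_012) (P1 := 0) (W1 := 536870912) (P2 := 0) (W2 := 536870912) (P3 := 649613803) (W3 := 48318383) (N0 := 3) (En := eng) (mo := mog) (C1 := cd4q0) (C2 := cd0q2) (C3 := pd1)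
    rfl (fun _ => rfl) s12_pp_012

noncomputable def cut_pp_022 : Cut := Cut.of [[⟨0, 0, 0, 67108864⟩, ⟨1, 1, 0, 67108864⟩, ⟨2, 1, 0, 67108864⟩]]

noncomputable def f_pp_022 : ℕ → ℕ → ℕ → ℕ → Bool := onCell 0 536870912 0 536870912 649613803 48318383
    (rowB 3 eng mog cd4q0 cd0q2 pd2 0 false true true .pp 0 2 2 (qsf 0 536870912 0 536870912 2) ndB4q0 ndB0q2 pcB2 cut_pp_022 Ext.none)

def k0_pp_022 : ∃ t, chk3 f_pp_022 t 2 2 1 = true :=
  ⟨(a (a (b (a (b (a (c (b (l 16442824) (l 16466672)) (l 16446864)) (l 16448752)) (a (c (b (l 16453256) (l 16464448)) (l 16539512)) (b (l 16459232) (l 16471360)))) (b (l 16453536) (b (l 16467416) (l 16480304)))) (b (b (a (a (a (b (l 16475832) (l 16479224)) (l 16482472)) (l 16486544)) (l 16495688)) (b (a (a (c (l 16489016) (a (l 16477928) (l 16483888))) (l 16496400)) (l 16508584)) (a (a (c (l 16525640) (a (l 16482064) (l 16488480))) (l 16502008)) (l 16538592)))) (b (a (a (c (a (c (l 16502352) (l 16519432)) (l 16506712))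 (a (b (l 16487240) (l 16493544)) (l 16518424))) (c (l 16515696) (a (l 16525352) (l 16511144)))) (a (l 16524640) (l 16534752))) (c (a (a (a (b (l 16511752) (l 16520704)) (l 16523224)) (l 16533392)) (l 16547872)) (a (a (a (b (l 16501112) (l 16509992)) (b (l 16508896) (l 16518240))) (a (l 16479384) (l 16528912))) (a (l 16539936) (l 16553952))))))) (b (b (a (l 16456600) (l 16454456)) (a (l 16506560) (l 16494808))) (b (a (a (l 16515112) (l 16522832)) (b (l 16527000) (l 16543144))) (a (b (l 16544664) (l 16562096)) (b (l 16559248) (l 16574896)))))) (a (b (b (l 16440432) (a (l 16498064) (l 1))) (a (b (c (l 16559336) (l 16544560)) (b (l 16576216) (l 16589600))) (l 1))) (l 1))), by decide +kernel⟩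

def k1_pp_022 : ∃ t, chk3 f_pp_022 t 2 3 1 = true :=
  ⟨(b (a (a (b (a (a (a (b (c (b (l 16530816) (l 16541704)) (b (l 16520208) (l 16531296))) (c (a (l 16555600) (l 16560664)) (l 16569128))) (b (c (l 16544296) (b (l 16528912) (l 16540864))) (c (l 16568072) (l 16559272)))) (b (a (b (l 16542176) (l 16554464)) (l 16556136)) (b (l 16655856) (l 16585544)))) (a (b (l 16586784) (c (l 16581632) (l 16587504))) (b (l 16570992) (l 16587840)))) (a (a (b (a (c (a (l 16579792) (l 16585432)) (b (l 16566760) (l 16580248))) (c (l 16593656) (l 16585720))) (a (c (a (l 16628048) (l 16550368)) (b (l 16594568) (l 16609688))) (c (l 16622320) (l 16615440)))) (b (l 16605376) (l 16632584))) (b (a (l 16606744) (l 16607856)) (a (l 16633256) (l 16632968))))) (b (a (b (l 16599728) (a (l 16592248) (l 16596392))) (b (l 16589488) (a (l 16600584) (l 1)))) (a (a (b (l 16608792) (l 16631888)) (b (b (l 16607056) (l 16614176)) (b (l 16624424) (l 1)))) (b (a (l 16613752) (l 1)) (l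 1))))) (l 1)) (a (b (b (a (a (b (a (a (c (l 16653784) (l 16625640)) (l 16643016)) (l 16654256)) (a (a (c (l 16670008) (l 16663480)) (l 16660024)) (l 16669440))) (a (l 16661704) (l 16660416))) (a (a (l 16658328) (l 1)) (l 1))) (a (a (l 6) (a (l 6) (b (l 16681696) (l 337725276567)))) (l 1))) (a (a (l 6) (a (l 6) (l 1))) (l 1))) (l 1))), by decide +kernel⟩

def k2_pp_022 : ∃ t, chk3 f_pp_022 t 3 1 1 = true :=
  ⟨(l 1), by decide +kernel⟩

theorem s3_pp_022 : ∃ t, chk3 f_pp_022 t 2 1 1 = true := ex3_b k0_pp_022 k1_pp_022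

theorem s4_pp_022 : ∃ t, chk3 f_pp_022 t 1 1 1 = true := ex3_a s3_pp_022 k2_pp_022

theorem c_pp_022 : CertB 0 536870912 0 536870912 649613803 48318383 3 eng mog cd4q0 cd0q2 pd2 false true true .pp 0 2 2
    ndB4q0 ndB0q2 pcB2 cut_pp_022 Ext.none :=
  certB0 (fam := false) (s1 := true) (s2 := true) (a := 0) (b := 2) (c := 2) (cn := .pp) (n1 := ndB4q0) (n2 := ndB0q2) (pc := pcB2) (cut := cut_pp_022) (xt := Ext.none) (P1 := 0) (W1 := 536870912) (P2 := 0) (W2 := 536870912) (P3 := 649613803) (W3 := 48318383) (N0 := 3) (En := eng) (mo := mog) (C1 := cd4q0) (C2 := cd0q2) (C3 := pd2)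
    rfl s4_pp_022

noncomputable def f_pp_101 : ℕ → ℕ → ℕ → ℕ → Bool := onCell 536870912 536870912 536870912 536870912 649613803 48318383
    (rowB 3 eng mog cd4q1 cd0q1 pd0 0 false true true .npn 1 0 1 (qsf 536870912 536870912 536870912 536870912 0) ndB4q1 ndB0q1 pcB0 Cut.none Ext.none)

def k0_pp_101 : ∃ t, chk3 f_pp_101 t 1 1 1 = true :=
  ⟨(a (l 3) (l 3)), by decide +kernel⟩

theorem c_pp_101 : CertB 536870912 536870912 536870912 536870912 649613803 48318383 3 eng mog cd4q1 cd0q1 pd0 false true true .npn 1 0 1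
    ndB4q1 ndB0q1 pcB0 Cut.none Ext.none :=
  certB0 (fam := false) (s1 := true) (s2 := true) (a := 1) (b := 0) (c := 1) (cn := .npn) (n1 := ndB4q1) (n2 := ndB0q1) (pc := pcB0) (cut := Cut.none) (xt := Ext.none) (P1 := 536870912) (W1 := 536870912) (P2 := 536870912) (W2 := 536870912) (P3 := 649613803) (W3 := 48318383) (N0 := 3) (En := eng) (mo := mog) (C1 := cd4q1) (C2 := cd0q1) (C3 := pd0)
    rfl k0_pp_101

noncomputable def f_pp_102 : ℕ → ℕ → ℕ → ℕ → Bool := onCell 0 536870912 0 536870912 649613803 48318383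
    (rowB 3 eng mog cd4q1 cd0q2 pd0 2 false true true .npp 1 0 2 (qsf 536870912 536870912 0 536870912 0) ndB4q1 ndB0q2 pcB0 Cut.none Ext.none)

def k0_pp_102 : ∃ t, chk3 f_pp_102 t 2 1 1 = true :=
  ⟨(b (a (b (l 2) (a (l 2) (b (l 2) (b (l 2) (a (l 2) (a (l 2) (l 16383992))))))) (b (b (a (a (l 16227952) (l 16254832)) (a (l 16278752) (l 16301688))) (a (a (l 16264120) (l 16287024)) (l 16318248))) (a (b (a (l 16311208) (a (l 16324600) (l 16333712))) (a (b (l 16356072) (l 16388272)) (b (l 16365888) (l 16393392)))) (b (a (b (l 16334912) (l 16355816)) (l 16360552)) (a (l 16387688) (b (l 16385520) (l 16403864))))))) (a (b (a (l 2) (b (a (l 2) (b (a (l 16425768) (l 16426264)) (b (l 16584704) (l 16503152)))) (a (a (b (l 2) (l 247127986567)) (b (b (l 16513728) (l 16538752)) (b (a (l 16562456) (l 16558560)) (l 3)))) (b (b (a (l 16508120) (l 16502536)) (l 16527744)) (b (a (l 16552560) (l 16544384)) (a (l 243906752935) (l 234779937655))))))) (l 3)) (b (b (a (b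 (a (b (l 16415016) (l 16433736)) (l 16422832)) (a (l 16462064) (l 16453440))) (b (a (l 16422048) (l 16422608)) (a (l 16447000) (l 16442296)))) (a (b (b (a (l 16490816) (l 16476808)) (l 16532000)) (a (b (b (l 16523696) (l 16595752)) (a (l 16544752) (l 16537712))) (b (l 16566200) (b (l 16518712) (l 16526464))))) (b (a (l 16471624) (l 16461208)) (a (b (l 16489968) (b (l 16498920) (l 16504864))) (b (l 16475104) (l 16473712)))))) (b (b (a (a (l 3) (a (l 263770916855) (l 198272739463))) (a (a (l 180019149591) (l 164449874503)) (b (a (l 16497400) (l 16488424)) (b (l 16540784) (l 3))))) (l 3)) (l 3))))), by decide +kernel⟩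

def k1_pp_102 : ∃ t, chk3 f_pp_102 t 3 1 1 = true :=
  ⟨(a (b (a (b (b (l 16331552) (a (l 16345360) (l 16361872))) (b (l 16440672) (b (l 16398352) (l 16413144)))) (b (a (b (l 16359296) (l 16379216)) (b (l 16386184) (l 16401856))) (b (l 16410312) (l 16621512)))) (b (a (b (a (l 16432288) (l 16436712)) (b (a (l 16454248) (l 16452808)) (b (l 16462016) (a (l 16471848) (l 16462712))))) (b (l 16448672) (b (l 16452856) (l 16451864)))) (b (a (b (a (b (l 16561744) (l 109152048135)) (b (l 16465320) (l 16466960))) (a (l 3) (l 3))) (b (a (b (l 16453952) (l 16452264)) (b (l 16443240) (l 16437960))) (b (a (l 16459912) (l 16439032)) (l 3)))) (l 3)))) (b (b (a (b (l 16422072) (l 16434608)) (b (l 16461888) (l 16474352))) (b (l 16551032) (a (l 16462640) (l 16491136)))) (b (b (a (l 16465200) (l 16482448)) (b (a (l 16454536) (l 16457224)) (a (l 16441064) (l 16429712)))) (a (b (b (b (a (l 16432360) (l 16420672)) (a (l 16422864) (l 16406056))) (b (a (l 16411136) (l 16387624))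 (a (l 3) (l 197198738103)))) (l 3)) (b (b (b (l 16401536) (a (l 16387632) (l 16368032))) (b (a (l 16369184) (l 16354408)) (a (l 207936140135) (l 221357891943)))) (l 3)))))), by decide +kernel⟩

theorem s2_pp_102 : ∃ t, chk3 f_pp_102 t 1 1 1 = true := ex3_a k0_pp_102 k1_pp_102

theorem c_pp_102 : CertB 536870912 536870912 0 536870912 649613803 48318383 3 eng mog cd4q1 cd0q2 pd0 false true true .npp 1 0 2
    ndB4q1 ndB0q2 pcB0 Cut.none Ext.none :=
  certB2 (fam := false) (s1 := true) (s2 := true) (a := 1) (b := 0) (c := 2) (cn := .npp) (n1 := ndB4q1) (n2 := ndB0q2) (pc := pcB0) (cut := Cut.none) (xt := Ext.none) (P1 := 536870912) (W1 := 536870912) (P2 := 0) (W2 := 536870912) (P3 := 649613803) (W3 := 48318383) (N0 := 3) (En := eng) (mo := mog) (C1 := cd4q1) (C2 := cd0q2) (C3 := pd0)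
    rfl (fun _ => rfl) s2_pp_102

noncomputable def f_pp_112 : ℕ → ℕ → ℕ → ℕ → Bool := onCell 536870912 536870912 0 536870912 649613803 48318383
    (rowB 3 eng mog cd4q1 cd0q2 pd1 2 false true true .dn 1 1 2 (qsf 536870912 536870912 0 536870912 1) ndB4q1 ndB0q2 pcB1 Cut.none Ext.none)

def k0_pp_112 : ∃ t, chk3 f_pp_112 t 1 1 1 = true :=
  ⟨(a (b (b (a (b (l 16442392) (l 16464352)) (l 280816903047)) (a (b (l 16549184) (a (l 16488120) (l 16508320))) (a (b (l 16499488) (l 16536952)) (l 1)))) (a (b (b (b (l 16500528) (l 16489760)) (b (a (l 16463920) (l 16471800)) (a (l 16432976) (l 16433592)))) (a (b (a (b (l 16387400) (b (l 16332864) (l 16402224))) (b (l 16378560) (b (l 16318912) (l 16312880)))) (b (a (b (l 213304672583) (l 3)) (a (l 214378386119) (l 1))) (l 3))) (b (b (a (l 16375512) (l 1)) (l 1)) (l 1)))) (b (l 1) (l 1)))) (l 1)), by decide +kernel⟩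

theorem c_pp_112 : CertB 536870912 536870912 0 536870912 649613803 48318383 3 eng mog cd4q1 cd0q2 pd1 false true true .dn 1 1 2
    ndB4q1 ndB0q2 pcB1 Cut.none Ext.none :=
  certB2 (fam := false) (s1 := true) (s2 := true) (a := 1) (b := 1) (c := 2) (cn := .dn) (n1 := ndB4q1) (n2 := ndB0q2) (pc := pcB1) (cut := Cut.none) (xt := Ext.none) (P1 := 536870912) (W1 := 536870912) (P2 := 0) (W2 := 536870912) (P3 := 649613803) (W3 := 48318383) (N0 := 3) (En := eng) (mo := mog) (C1 := cd4q1) (C2 := cd0q2) (C3 := pd1)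
    rfl (fun _ => rfl) k0_pp_112

noncomputable def f_pp_202_a : ℕ → ℕ → ℕ → ℕ → Bool := onCell 0 536870912 0 536870912 649613803 48318383
    (rowB 3 eng mog cd4q2a cd0q2 pd0 0 false true true .pp 2 0 2 (qsf 0 536870912 0 536870912 0) ndB4q2a ndB0q2 pcB0 Cut.none Ext.none)

def k0_pp_202_a : ∃ t, chk3 f_pp_202_a t 1 1 1 = true :=
  ⟨(l 3), by decide +kernel⟩

theorem c_pp_202_a : CertB 0 536870912 0 536870912 649613803 48318383 3 eng mog cd4q2a cd0q2 pd0 false true true .pp 2 0 2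
    ndB4q2a ndB0q2 pcB0 Cut.none Ext.none :=
  certB0 (fam := false) (s1 := true) (s2 := true) (a := 2) (b := 0) (c := 2) (cn := .pp) (n1 := ndB4q2a) (n2 := ndB0q2) (pc := pcB0) (cut := Cut.none) (xt := Ext.none) (P1 := 0) (W1 := 536870912) (P2 := 0) (W2 := 536870912) (P3 := 649613803) (W3 := 48318383) (N0 := 3) (En := eng) (mo := mog) (C1 := cd4q2a) (C2 := cd0q2) (C3 := pd0)
    rfl k0_pp_202_a

noncomputable def f_pp_202_b : ℕ → ℕ → ℕ → ℕ → Bool := onCell 1239849684 370763052 0 536870912 649613803 48318383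
    (rowB 3 eng mog cd4q2b cd0q2 pd0 0 false true true .pp 2 0 2 (qsf 1239849684 370763052 0 536870912 0) ndB4q2b ndB0q2 pcB0 Cut.none Ext.none)

def k0_pp_202_b : ∃ t, chk3 f_pp_202_b t 1 1 1 = true :=
  ⟨(l 3), by decide +kernel⟩

theorem c_pp_202_b : CertB 1239849684 370763052 0 536870912 649613803 48318383 3 eng mog cd4q2b cd0q2 pd0 false true true .pp 2 0 2
    ndB4q2b ndB0q2 pcB0 Cut.none Ext.none :=
  certB0 (fam := false) (s1 := true) (s2 := true) (a := 2) (b := 0) (c := 2) (cn := .pp) (n1 := ndB4q2b) (n2 := ndB0q2) (pc := pcB0) (cut := Cut.none) (xt := Ext.none) (P1 := 1239849684) (W1 := 370763052) (P2 := 0) (W2 := 536870912) (P3 := 649613803) (W3 := 48318383) (N0 := 3) (En := eng) (mo := mog) (C1 := cd4q2b) (C2 := cd0q2) (C3 := pd0)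
    rfl k0_pp_202_b

noncomputable def f_pm_001 : ℕ → ℕ → ℕ → ℕ → Bool := onCell 0 536870912 0 536870912 649613803 48318383
    (rowB 3 eng mog cd4q0 cd0q1 pd0 1 false true false .up 0 0 1 (qsf 0 536870912 536870912 536870912 0) ndB4q0 ndB0q1 pcB0 Cut.none Ext.none)

def k0_pm_001 : ∃ t, chk3 f_pm_001 t 1 1 1 = true :=
  ⟨(a (l 4) (l 4)), by decide +kernel⟩

theorem c_pm_001 : CertB 0 536870912 536870912 536870912 649613803 48318383 3 eng mog cd4q0 cd0q1 pd0 false true false .up 0 0 1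
    ndB4q0 ndB0q1 pcB0 Cut.none Ext.none :=
  certB1 (fam := false) (s1 := true) (s2 := false) (a := 0) (b := 0) (c := 1) (cn := .up) (n1 := ndB4q0) (n2 := ndB0q1) (pc := pcB0) (cut := Cut.none) (xt := Ext.none) (P1 := 0) (W1 := 536870912) (P2 := 536870912) (W2 := 536870912) (P3 := 649613803) (W3 := 48318383) (N0 := 3) (En := eng) (mo := mog) (C1 := cd4q0) (C2 := cd0q1) (C3 := pd0)
    rfl (fun _ => rfl) k0_pm_001

noncomputable def cut_pm_011 : Cut := Cut.of [[⟨0, 0, 0, 67108864⟩, ⟨1, 1, 0, 67108864⟩, ⟨2, 1, 0, 67108864⟩]]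

noncomputable def f_pm_011 : ℕ → ℕ → ℕ → ℕ → Bool := onCell 0 536870912 536870912 536870912 649613803 48318383
    (rowB 3 eng mog cd4q0 cd0q1 pd1 0 false true false .pnn 0 1 1 (qsf 0 536870912 536870912 536870912 1) ndB4q0 ndB0q1 pcB1 cut_pm_011 Ext.none)

def k0_pm_011 : ∃ t, chk3 f_pm_011 t 1 1 1 = true :=
  ⟨(b (l 4) (a (b (l 4) (a (b (l 4) (a (b (l 4) (a (b (l 4) (l 6)) (l 4))) (l 4))) (l 4))) (l 4))), by decide +kernel⟩

theorem c_pm_011 : CertB 0 536870912 536870912 536870912 649613803 48318383 3 eng mog cd4q0 cd0q1 pd1 false true false .pnn 0 1 1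
    ndB4q0 ndB0q1 pcB1 cut_pm_011 Ext.none :=
  certB0 (fam := false) (s1 := true) (s2 := false) (a := 0) (b := 1) (c := 1) (cn := .pnn) (n1 := ndB4q0) (n2 := ndB0q1) (pc := pcB1) (cut := cut_pm_011) (xt := Ext.none) (P1 := 0) (W1 := 536870912) (P2 := 536870912) (W2 := 536870912) (P3 := 649613803) (W3 := 48318383) (N0 := 3) (En := eng) (mo := mog) (C1 := cd4q0) (C2 := cd0q1) (C3 := pd1)
    rfl k0_pm_011

noncomputable def cut_pm_012 : Cut := Cut.of [[⟨0, 0, 0, 67108864⟩, ⟨1, 1, 0, 67108864⟩, ⟨2, 1, 0, 67108864⟩]]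

noncomputable def f_pm_012 : ℕ → ℕ → ℕ → ℕ → Bool := onCell 536870912 536870912 0 536870912 649613803 48318383
    (rowB 3 eng mog cd4q0 cd0q2 pd1 2 false true false .pnp 0 1 2 (qsf 0 536870912 0 536870912 1) ndB4q0 ndB0q2 pcB1 cut_pm_012 Ext.none)

def k0_pm_012 : ∃ t, chk3 f_pm_012 t 1 1 1 = true :=
  ⟨(a (b (a (b (l 2) (b (l 2) (l 16435992))) (b (b (l 16475704) (l 16445000)) (a (l 16518600) (b (l 16401784) (l 16374320))))) (b (a (a (l 2) (b (l 16386648) (l 16363400))) (a (b (l 16362952) (l 16351776)) (b (b (l 16359208) (l 16344136)) (l 16346336)))) (l 4))) (b (a (b (a (b (l 16443416) (l 16407912)) (b (l 16424128) (l 16387904))) (a (b (l 16378744) (l 16355096)) (b (l 16364552) (l 16347688)))) (b (a (b (l 16413864) (l 16382448)) (b (l 16401048) (l 16374272))) (a (b (l 16361736) (l 16353024)) (b (l 16463768) (a (l 16359448) (l 16365568)))))) (a (b (a (a (b (l 16343088) (l 16354352)) (b (l 16344056) (l 16357952))) (b (a (l 16342760) (l 16347824))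 (a (l 16447352) (b (l 16363656) (l 16386592))))) (a (l 4) (b (a (l 4) (l 16441528)) (l 4)))) (b (a (b (a (l 16356912) (l 16366912)) (a (b (l 16377128) (l 16402040)) (b (l 16391296) (l 16481720)))) (b (a (l 16378352) (l 16393416)) (a (b (l 16410680) (l 16441416)) (b (l 16433648) (l 16470824))))) (a (b (a (l 16565136) (b (l 16625680) (l 16528888))) (l 4)) (b (a (b (a (l 16496624) (l 16489344)) (a (l 16528040) (b (l 16527488) (l 16556720)))) (a (b (l 16506808) (b (l 16544376) (l 16616088))) (b (l 16525256) (a (l 16575024) (l 16585976))))) (a (b (a (l 4) (l 32983917255)) (l 4)) (a (b (a (l 16684752) (l 6)) (l 4)) (l 6))))))))), by decide +kernel⟩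

theorem c_pm_012 : CertB 0 536870912 0 536870912 649613803 48318383 3 eng mog cd4q0 cd0q2 pd1 false true false .pnp 0 1 2
    ndB4q0 ndB0q2 pcB1 cut_pm_012 Ext.none :=
  certB2 (fam := false) (s1 := true) (s2 := false) (a := 0) (b := 1) (c := 2) (cn := .pnp) (n1 := ndB4q0) (n2 := ndB0q2) (pc := pcB1) (cut := cut_pm_012) (xt := Ext.none) (P1 := 0) (W1 := 536870912) (P2 := 0) (W2 := 536870912) (P3 := 649613803) (W3 := 48318383) (N0 := 3) (En := eng) (mo := mog) (C1 := cd4q0) (C2 := cd0q2) (C3 := pd1)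
    rfl (fun _ => rfl) k0_pm_012

noncomputable def cut_pm_022 : Cut := Cut.of [[⟨0, 0, 0, 67108864⟩, ⟨1, 1, 0, 67108864⟩, ⟨2, 1, 0, 67108864⟩]]

noncomputable def f_pm_022 : ℕ → ℕ → ℕ → ℕ → Bool := onCell 0 536870912 0 536870912 649613803 48318383
    (rowB 3 eng mog cd4q0 cd0q2 pd2 0 false true false .pp 0 2 2 (qsf 0 536870912 0 536870912 2) ndB4q0 ndB0q2 pcB2 cut_pm_022 Ext.none)

def k0_pm_022 : ∃ t, chk3 f_pm_022 t 2 2 1 = true :=
  ⟨(a (b (b (a (a (a (c (l 16444312) (l 16446024)) (l 16445216)) (l 16444432)) (l 16433504)) (a (a (a (b (l 16450376) (l 16457184)) (l 16451312)) (l 16444576)) (a (l 16429264) (l 16404280)))) (a (b (b (a (a (c (l 16466120) (l 16487344)) (l 16460296)) (l 16469032)) (a (a (b (l 16473672) (l 16477248)) (l 16511032)) (l 16496296))) (a (b (a (a (b (l 16510256) (l 16497664)) (l 16489040)) (l 16481448)) (a (a (b (l 16507152) (l 16528184)) (l 16527880)) (l 16518472))) (b (l 16462504) (l 16495528)))) (b (a (b (l 16425792)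 (l 16425888)) (l 16392136)) (a (l 16537048) (l 16385936))))) (a (b (b (l 16436640) (a (l 16373176) (l 1))) (b (l 16451168) (a (l 16330472) (l 1)))) (l 1))), by decide +kernel⟩

def k1_pm_022 : ∃ t, chk3 f_pm_022 t 2 3 1 = true :=
  ⟨(a (b (a (a (b (a (a (b (b (c (l 16528896) (l 16530024)) (a (l 16543432) (l 16540056))) (c (b (l 16554272) (l 16564992)) (a (b (l 16552752) (l 16535208)) (l 16558632)))) (b (b (l 16522808) (l 16534672)) (b (l 16547408) (l 16560952)))) (b (l 16517360) (l 16540704))) (a (b (a (a (b (c (l 16574520) (l 16570936)) (c (l 16585424) (l 16581504))) (b (l 16574096) (l 16584856))) (l 16560312)) (a (a (b (c (l 16597304) (l 16593192)) (c (l 16610320) (l 16606160))) (b (l 16596664) (l 16609688))) (l 16605096))) (b (l 16566344) (l 16592928)))) (b (b (l 16553008) (l 16508720)) (b (l 16529128) (a (l 16565088) (l 16533824))))) (b (a (b (l 16444224) (l 16455784)) (b (l 16387456) (l 16391032))) (a (b (l 16468368) (l 16564304)) (b (l 16394784)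 (l 1))))) (a (b (b (a (a (a (a (b (c (l 16624584) (l 16620536)) (b (l 16634200) (l 6))) (b (l 16624048) (l 16639808))) (b (l 16626080) (l 16641928))) (l 16640648)) (a (l 16608512) (l 16551696))) (a (l 6) (a (l 6) (b (l 16564128) (l 16571968))))) (a (l 6) (a (l 6) (l 1)))) (b (b (a (a (l 16512104) (l 1)) (l 1)) (l 1)) (l 1)))) (b (l 1) (l 1))), by decide +kernel⟩

def k2_pm_022 : ∃ t, chk3 f_pm_022 t 3 1 1 = true :=
  ⟨(l 1), by decide +kernel⟩

theorem s3_pm_022 : ∃ t, chk3 f_pm_022 t 2 1 1 = true := ex3_b k0_pm_022 k1_pm_022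

theorem s4_pm_022 : ∃ t, chk3 f_pm_022 t 1 1 1 = true := ex3_a s3_pm_022 k2_pm_022

theorem c_pm_022 : CertB 0 536870912 0 536870912 649613803 48318383 3 eng mog cd4q0 cd0q2 pd2 false true false .pp 0 2 2
    ndB4q0 ndB0q2 pcB2 cut_pm_022 Ext.none :=
  certB0 (fam := false) (s1 := true) (s2 := false) (a := 0) (b := 2) (c := 2) (cn := .pp) (n1 := ndB4q0) (n2 := ndB0q2) (pc := pcB2) (cut := cut_pm_022) (xt := Ext.none) (P1 := 0) (W1 := 536870912) (P2 := 0) (W2 := 536870912) (P3 := 649613803) (W3 := 48318383) (N0 := 3) (En := eng) (mo := mog) (C1 := cd4q0) (C2 := cd0q2) (C3 := pd2)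
    rfl s4_pm_022

noncomputable def f_pm_101 : ℕ → ℕ → ℕ → ℕ → Bool := onCell 536870912 536870912 536870912 536870912 649613803 48318383
    (rowB 3 eng mog cd4q1 cd0q1 pd0 0 false true false .npn 1 0 1 (qsf 536870912 536870912 536870912 536870912 0) ndB4q1 ndB0q1 pcB0 Cut.none Ext.none)

def k0_pm_101 : ∃ t, chk3 f_pm_101 t 1 1 1 = true :=
  ⟨(l 4), by decide +kernel⟩

theorem c_pm_101 : CertB 536870912 536870912 536870912 536870912 649613803 48318383 3 eng mog cd4q1 cd0q1 pd0 false true false .npn 1 0 1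
    ndB4q1 ndB0q1 pcB0 Cut.none Ext.none :=
  certB0 (fam := false) (s1 := true) (s2 := false) (a := 1) (b := 0) (c := 1) (cn := .npn) (n1 := ndB4q1) (n2 := ndB0q1) (pc := pcB0) (cut := Cut.none) (xt := Ext.none) (P1 := 536870912) (W1 := 536870912) (P2 := 536870912) (W2 := 536870912) (P3 := 649613803) (W3 := 48318383) (N0 := 3) (En := eng) (mo := mog) (C1 := cd4q1) (C2 := cd0q1) (C3 := pd0)
    rfl k0_pm_101

noncomputable def f_pm_102 : ℕ → ℕ → ℕ → ℕ → Bool := onCell 0 536870912 0 536870912 649613803 48318383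
    (rowB 3 eng mog cd4q1 cd0q2 pd0 2 false true false .npp 1 0 2 (qsf 536870912 536870912 0 536870912 0) ndB4q1 ndB0q2 pcB0 Cut.none Ext.none)

def k0_pm_102 : ∃ t, chk3 f_pm_102 t 1 1 1 = true :=
  ⟨(b (a (a (b (l 2) (b (l 2) (a (l 2) (a (l 2) (b (l 2) (b (l 102641664103) (l 123042764775))))))) (b (a (b (a (l 16198272) (l 16230288)) (a (b (l 16182984) (l 16176680)) (b (l 16216016) (l 16209256)))) (b (a (l 16258152) (l 16283808)) (a (l 16239880) (l 16264888)))) (b (a (a (b (l 16170272) (l 16165336)) (l 16200016)) (a (l 16227056) (l 16250720))) (a (b (a (l 16159360) (l 16188744)) (a (b (l 16153056) (l 16147088)) (l 16177896))) (b (l 16225272) (l 16212464)))))) (a (a (b (b (l 16314752) (l 16297192)) (b (l 16283880) (l 16259488))) (b (a (b (l 16343288) (l 16329544)) (b (l 16372960) (l 16359240))) (b (a (l 16316800) (l 16343104)) (l 16309392)))) (a (b (a (b (l 16395928) (l 16382472)) (l 16401336)) (b (a (l 16365712) (l 16374312)) (l 16347504))) (b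 (b (l 16433856) (l 16400912)) (b (l 16377448) (l 16353168)))))) (b (a (a (a (l 2) (b (a (l 2) (b (a (l 16090128) (l 16110144)) (l 162771199367))) (a (b (l 16018496) (l 15990560)) (b (l 16054312) (l 16022944))))) (a (b (a (b (l 16134032) (l 16111648)) (l 16149832)) (a (b (l 16083752) (l 16052848)) (l 16180344))) (b (a (l 16173232) (l 16195048)) (a (l 16122592) (l 16147912))))) (a (a (b (l 16229880) (l 16275904)) (b (l 16282344) (l 16247672))) (a (b (l 16319368) (l 16286896)) (b (l 16336984) (l 16307984))))) (a (a (b (b (a (a (l 2) (b (l 2) (l 4))) (a (l 15967952) (l 16003632))) (l 4)) (l 4)) (l 4)) (l 4)))), by decide +kernel⟩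

theorem c_pm_102 : CertB 536870912 536870912 0 536870912 649613803 48318383 3 eng mog cd4q1 cd0q2 pd0 false true false .npp 1 0 2
    ndB4q1 ndB0q2 pcB0 Cut.none Ext.none :=
  certB2 (fam := false) (s1 := true) (s2 := false) (a := 1) (b := 0) (c := 2) (cn := .npp) (n1 := ndB4q1) (n2 := ndB0q2) (pc := pcB0) (cut := Cut.none) (xt := Ext.none) (P1 := 536870912) (W1 := 536870912) (P2 := 0) (W2 := 536870912) (P3 := 649613803) (W3 := 48318383) (N0 := 3) (En := eng) (mo := mog) (C1 := cd4q1) (C2 := cd0q2) (C3 := pd0)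
    rfl (fun _ => rfl) k0_pm_102

noncomputable def f_pm_112 : ℕ → ℕ → ℕ → ℕ → Bool := onCell 536870912 536870912 0 536870912 649613803 48318383
    (rowB 3 eng mog cd4q1 cd0q2 pd1 2 false true false .dn 1 1 2 (qsf 536870912 536870912 0 536870912 1) ndB4q1 ndB0q2 pcB1 Cut.none Ext.none)

def k0_pm_112 : ∃ t, chk3 f_pm_112 t 1 1 1 = true :=
  ⟨(a (b (a (b (b (l 16424032) (l 16397536)) (b (l 16379560) (l 16361656))) (a (b (l 16406448) (l 16521128)) (l 1))) (b (a (a (l 16334552) (l 16555040)) (l 1)) (l 4))) (l 1)), by decide +kernel⟩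

theorem c_pm_112 : CertB 536870912 536870912 0 536870912 649613803 48318383 3 eng mog cd4q1 cd0q2 pd1 false true false .dn 1 1 2
    ndB4q1 ndB0q2 pcB1 Cut.none Ext.none :=
  certB2 (fam := false) (s1 := true) (s2 := false) (a := 1) (b := 1) (c := 2) (cn := .dn) (n1 := ndB4q1) (n2 := ndB0q2) (pc := pcB1) (cut := Cut.none) (xt := Ext.none) (P1 := 536870912) (W1 := 536870912) (P2 := 0) (W2 := 536870912) (P3 := 649613803) (W3 := 48318383) (N0 := 3) (En := eng) (mo := mog) (C1 := cd4q1) (C2 := cd0q2) (C3 := pd1)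
    rfl (fun _ => rfl) k0_pm_112

noncomputable def cut_pm_202_a : Cut := Cut.of [[⟨0, 1, 0, 67108864⟩, ⟨1, 0, 0, 67108864⟩, ⟨2, 1, 0, 67108864⟩]]

noncomputable def f_pm_202_a : ℕ → ℕ → ℕ → ℕ → Bool := onCell 0 536870912 0 536870912 649613803 48318383
    (rowB 3 eng mog cd4q2a cd0q2 pd0 0 false true false .pp 2 0 2 (qsf 0 536870912 0 536870912 0) ndB4q2a ndB0q2 pcB0 cut_pm_202_a Ext.none)

def k0_pm_202_a : ∃ t, chk3 f_pm_202_a t 1 1 1 = true :=
  ⟨(a (l 3) (b (l 3) (b (l 3) (a (l 3) (b (l 3) (a (l 3) (l 6))))))), by decide +kernel⟩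

theorem c_pm_202_a : CertB 0 536870912 0 536870912 649613803 48318383 3 eng mog cd4q2a cd0q2 pd0 false true false .pp 2 0 2
    ndB4q2a ndB0q2 pcB0 cut_pm_202_a Ext.none :=
  certB0 (fam := false) (s1 := true) (s2 := false) (a := 2) (b := 0) (c := 2) (cn := .pp) (n1 := ndB4q2a) (n2 := ndB0q2) (pc := pcB0) (cut := cut_pm_202_a) (xt := Ext.none) (P1 := 0) (W1 := 536870912) (P2 := 0) (W2 := 536870912) (P3 := 649613803) (W3 := 48318383) (N0 := 3) (En := eng) (mo := mog) (C1 := cd4q2a) (C2 := cd0q2) (C3 := pd0)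
    rfl k0_pm_202_a

noncomputable def cut_pm_202_b : Cut := Cut.of [[⟨0, 1, 0, 67108864⟩, ⟨1, 0, 0, 67108864⟩, ⟨2, 1, 0, 67108864⟩]]

noncomputable def f_pm_202_b : ℕ → ℕ → ℕ → ℕ → Bool := onCell 1239849684 370763052 0 536870912 649613803 48318383
    (rowB 3 eng mog cd4q2b cd0q2 pd0 0 false true false .pp 2 0 2 (qsf 1239849684 370763052 0 536870912 0) ndB4q2b ndB0q2 pcB0 cut_pm_202_b Ext.none)

def k0_pm_202_b : ∃ t, chk3 f_pm_202_b t 1 1 1 = true :=
  ⟨(l 3), by decide +kernel⟩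

theorem c_pm_202_b : CertB 1239849684 370763052 0 536870912 649613803 48318383 3 eng mog cd4q2b cd0q2 pd0 false true false .pp 2 0 2
    ndB4q2b ndB0q2 pcB0 cut_pm_202_b Ext.none :=
  certB0 (fam := false) (s1 := true) (s2 := false) (a := 2) (b := 0) (c := 2) (cn := .pp) (n1 := ndB4q2b) (n2 := ndB0q2) (pc := pcB0) (cut := cut_pm_202_b) (xt := Ext.none) (P1 := 1239849684) (W1 := 370763052) (P2 := 0) (W2 := 536870912) (P3 := 649613803) (W3 := 48318383) (N0 := 3) (En := eng) (mo := mog) (C1 := cd4q2b) (C2 := cd0q2) (C3 := pd0)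
    rfl k0_pm_202_b

noncomputable def f_mm_001 : ℕ → ℕ → ℕ → ℕ → Bool := onCell 0 536870912 536870912 536870912 649613803 48318383
    (rowB 3 eng mog cd4q0 cd0q1 pd0 0 false false false .up 0 0 1 (qsf 0 536870912 536870912 536870912 0) ndB4q0 ndB0q1 pcB0 Cut.none Ext.none)

def k0_mm_001 : ∃ t, chk3 f_mm_001 t 1 1 1 = true :=
  ⟨(l 5), by decide +kernel⟩

theorem c_mm_001 : CertB 0 536870912 536870912 536870912 649613803 48318383 3 eng mog cd4q0 cd0q1 pd0 false false false .up 0 0 1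
    ndB4q0 ndB0q1 pcB0 Cut.none Ext.none :=
  certB0 (fam := false) (s1 := false) (s2 := false) (a := 0) (b := 0) (c := 1) (cn := .up) (n1 := ndB4q0) (n2 := ndB0q1) (pc := pcB0) (cut := Cut.none) (xt := Ext.none) (P1 := 0) (W1 := 536870912) (P2 := 536870912) (W2 := 536870912) (P3 := 649613803) (W3 := 48318383) (N0 := 3) (En := eng) (mo := mog) (C1 := cd4q0) (C2 := cd0q1) (C3 := pd0)
    rfl k0_mm_001

noncomputable def f_mm_011 : ℕ → ℕ → ℕ → ℕ → Bool := onCell 0 536870912 536870912 536870912 649613803 48318383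
    (rowB 3 eng mog cd4q0 cd0q1 pd1 0 false false false .pnn 0 1 1 (qsf 0 536870912 536870912 536870912 1) ndB4q0 ndB0q1 pcB1 Cut.none Ext.none)

def k0_mm_011 : ∃ t, chk3 f_mm_011 t 1 1 1 = true :=
  ⟨(l 5), by decide +kernel⟩

theorem c_mm_011 : CertB 0 536870912 536870912 536870912 649613803 48318383 3 eng mog cd4q0 cd0q1 pd1 false false false .pnn 0 1 1
    ndB4q0 ndB0q1 pcB1 Cut.none Ext.none :=
  certB0 (fam := false) (s1 := false) (s2 := false) (a := 0) (b := 1) (c := 1) (cn := .pnn) (n1 := ndB4q0) (n2 := ndB0q1) (pc := pcB1) (cut := Cut.none) (xt := Ext.none) (P1 := 0) (W1 := 536870912) (P2 := 536870912) (W2 := 536870912) (P3 := 649613803) (W3 := 48318383) (N0 := 3) (En := eng) (mo := mog) (C1 := cd4q0) (C2 := cd0q1) (C3 := pd1)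
    rfl k0_mm_011

noncomputable def f_mm_012 : ℕ → ℕ → ℕ → ℕ → Bool := onCell 0 536870912 0 536870912 649613803 48318383
    (rowB 3 eng mog cd4q0 cd0q2 pd1 0 false false false .pnp 0 1 2 (qsf 0 536870912 0 536870912 1) ndB4q0 ndB0q2 pcB1 Cut.none Ext.none)

def k0_mm_012 : ∃ t, chk3 f_mm_012 t 1 1 1 = true :=
  ⟨(l 5), by decide +kernel⟩

theorem c_mm_012 : CertB 0 536870912 0 536870912 649613803 48318383 3 eng mog cd4q0 cd0q2 pd1 false false false .pnp 0 1 2
    ndB4q0 ndB0q2 pcB1 Cut.none Ext.none :=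
  certB0 (fam := false) (s1 := false) (s2 := false) (a := 0) (b := 1) (c := 2) (cn := .pnp) (n1 := ndB4q0) (n2 := ndB0q2) (pc := pcB1) (cut := Cut.none) (xt := Ext.none) (P1 := 0) (W1 := 536870912) (P2 := 0) (W2 := 536870912) (P3 := 649613803) (W3 := 48318383) (N0 := 3) (En := eng) (mo := mog) (C1 := cd4q0) (C2 := cd0q2) (C3 := pd1)
    rfl k0_mm_012

noncomputable def f_mm_022 : ℕ → ℕ → ℕ → ℕ → Bool := onCell 0 536870912 0 536870912 649613803 48318383
    (rowB 3 eng mog cd4q0 cd0q2 pd2 0 false false false .pp 0 2 2 (qsf 0 536870912 0 536870912 2) ndB4q0 ndB0q2 pcB2 Cut.none Ext.none)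

def k0_mm_022 : ∃ t, chk3 f_mm_022 t 1 1 1 = true :=
  ⟨(l 5), by decide +kernel⟩

theorem c_mm_022 : CertB 0 536870912 0 536870912 649613803 48318383 3 eng mog cd4q0 cd0q2 pd2 false false false .pp 0 2 2
    ndB4q0 ndB0q2 pcB2 Cut.none Ext.none :=
  certB0 (fam := false) (s1 := false) (s2 := false) (a := 0) (b := 2) (c := 2) (cn := .pp) (n1 := ndB4q0) (n2 := ndB0q2) (pc := pcB2) (cut := Cut.none) (xt := Ext.none) (P1 := 0) (W1 := 536870912) (P2 := 0) (W2 := 536870912) (P3 := 649613803) (W3 := 48318383) (N0 := 3) (En := eng) (mo := mog) (C1 := cd4q0) (C2 := cd0q2) (C3 := pd2)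
    rfl k0_mm_022

noncomputable def f_mm_101 : ℕ → ℕ → ℕ → ℕ → Bool := onCell 536870912 536870912 536870912 536870912 649613803 48318383
    (rowB 3 eng mog cd4q1 cd0q1 pd0 0 false false false .npn 1 0 1 (qsf 536870912 536870912 536870912 536870912 0) ndB4q1 ndB0q1 pcB0 Cut.none Ext.none)

def k0_mm_101 : ∃ t, chk3 f_mm_101 t 1 1 1 = true :=
  ⟨(a (l 3) (l 3)), by decide +kernel⟩

theorem c_mm_101 : CertB 536870912 536870912 536870912 536870912 649613803 48318383 3 eng mog cd4q1 cd0q1 pd0 false false false .npn 1 0 1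
    ndB4q1 ndB0q1 pcB0 Cut.none Ext.none :=
  certB0 (fam := false) (s1 := false) (s2 := false) (a := 1) (b := 0) (c := 1) (cn := .npn) (n1 := ndB4q1) (n2 := ndB0q1) (pc := pcB0) (cut := Cut.none) (xt := Ext.none) (P1 := 536870912) (W1 := 536870912) (P2 := 536870912) (W2 := 536870912) (P3 := 649613803) (W3 := 48318383) (N0 := 3) (En := eng) (mo := mog) (C1 := cd4q1) (C2 := cd0q1) (C3 := pd0)
    rfl k0_mm_101

noncomputable def f_mm_102 : ℕ → ℕ → ℕ → ℕ → Bool := onCell 536870912 536870912 0 536870912 649613803 48318383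
    (rowB 3 eng mog cd4q1 cd0q2 pd0 0 false false false .npp 1 0 2 (qsf 536870912 536870912 0 536870912 0) ndB4q1 ndB0q2 pcB0 Cut.none Ext.none)

def k0_mm_102 : ∃ t, chk3 f_mm_102 t 1 1 1 = true :=
  ⟨(l 5), by decide +kernel⟩

theorem c_mm_102 : CertB 536870912 536870912 0 536870912 649613803 48318383 3 eng mog cd4q1 cd0q2 pd0 false false false .npp 1 0 2
    ndB4q1 ndB0q2 pcB0 Cut.none Ext.none :=
  certB0 (fam := false) (s1 := false) (s2 := false) (a := 1) (b := 0) (c := 2) (cn := .npp) (n1 := ndB4q1) (n2 := ndB0q2) (pc := pcB0) (cut := Cut.none) (xt := Ext.none) (P1 := 536870912) (W1 := 536870912) (P2 := 0) (W2 := 536870912) (P3 := 649613803) (W3 := 48318383) (N0 := 3) (En := eng) (mo := mog) (C1 := cd4q1) (C2 := cd0q2) (C3 := pd0)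
    rfl k0_mm_102

noncomputable def f_mm_112 : ℕ → ℕ → ℕ → ℕ → Bool := onCell 536870912 536870912 0 536870912 649613803 48318383
    (rowB 3 eng mog cd4q1 cd0q2 pd1 0 false false false .dn 1 1 2 (qsf 536870912 536870912 0 536870912 1) ndB4q1 ndB0q2 pcB1 Cut.none Ext.none)

def k0_mm_112 : ∃ t, chk3 f_mm_112 t 1 1 1 = true :=
  ⟨(l 5), by decide +kernel⟩

theorem c_mm_112 : CertB 536870912 536870912 0 536870912 649613803 48318383 3 eng mog cd4q1 cd0q2 pd1 false false false .dn 1 1 2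
    ndB4q1 ndB0q2 pcB1 Cut.none Ext.none :=
  certB0 (fam := false) (s1 := false) (s2 := false) (a := 1) (b := 1) (c := 2) (cn := .dn) (n1 := ndB4q1) (n2 := ndB0q2) (pc := pcB1) (cut := Cut.none) (xt := Ext.none) (P1 := 536870912) (W1 := 536870912) (P2 := 0) (W2 := 536870912) (P3 := 649613803) (W3 := 48318383) (N0 := 3) (En := eng) (mo := mog) (C1 := cd4q1) (C2 := cd0q2) (C3 := pd1)
    rfl k0_mm_112

noncomputable def f_mm_202_a : ℕ → ℕ → ℕ → ℕ → Bool := onCell 0 536870912 0 536870912 649613803 48318383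
    (rowB 3 eng mog cd4q2a cd0q2 pd0 0 false false false .pp 2 0 2 (qsf 0 536870912 0 536870912 0) ndB4q2a ndB0q2 pcB0 Cut.none Ext.none)

def k0_mm_202_a : ∃ t, chk3 f_mm_202_a t 1 1 1 = true :=
  ⟨(l 3), by decide +kernel⟩

theorem c_mm_202_a : CertB 0 536870912 0 536870912 649613803 48318383 3 eng mog cd4q2a cd0q2 pd0 false false false .pp 2 0 2
    ndB4q2a ndB0q2 pcB0 Cut.none Ext.none :=
  certB0 (fam := false) (s1 := false) (s2 := false) (a := 2) (b := 0) (c := 2) (cn := .pp) (n1 := ndB4q2a) (n2 := ndB0q2) (pc := pcB0) (cut := Cut.none) (xt := Ext.none) (P1 := 0) (W1 := 536870912) (P2 := 0) (W2 := 536870912) (P3 := 649613803) (W3 := 48318383) (N0 := 3) (En := eng) (mo := mog) (C1 := cd4q2a) (C2 := cd0q2) (C3 := pd0)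
    rfl k0_mm_202_a

noncomputable def f_mm_202_b : ℕ → ℕ → ℕ → ℕ → Bool := onCell 1239849684 370763052 0 536870912 649613803 48318383
    (rowB 3 eng mog cd4q2b cd0q2 pd0 0 false false false .pp 2 0 2 (qsf 1239849684 370763052 0 536870912 0) ndB4q2b ndB0q2 pcB0 Cut.none Ext.none)

def k0_mm_202_b : ∃ t, chk3 f_mm_202_b t 1 1 1 = true :=
  ⟨(l 3), by decide +kernel⟩

theorem c_mm_202_b : CertB 1239849684 370763052 0 536870912 649613803 48318383 3 eng mog cd4q2b cd0q2 pd0 false false false .pp 2 0 2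
    ndB4q2b ndB0q2 pcB0 Cut.none Ext.none :=
  certB0 (fam := false) (s1 := false) (s2 := false) (a := 2) (b := 0) (c := 2) (cn := .pp) (n1 := ndB4q2b) (n2 := ndB0q2) (pc := pcB0) (cut := Cut.none) (xt := Ext.none) (P1 := 1239849684) (W1 := 370763052) (P2 := 0) (W2 := 536870912) (P3 := 649613803) (W3 := 48318383) (N0 := 3) (En := eng) (mo := mog) (C1 := cd4q2b) (C2 := cd0q2) (C3 := pd0)
    rfl k0_mm_202_b

end Pool.Agent.Strip051.G.I6050_6500.Tab.C.BB40

namespace Pool.Agent.Strip051.G.I6050_6500.Tab.C.BB41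

open Pool.Agent.Strip051.PB Pool.Agent.Strip051.PB.T
open Pool.Agent.Strip051.G.I6050_6500.Tab

noncomputable def f_pp_001 : ℕ → ℕ → ℕ → ℕ → Bool := onCell 0 536870912 0 536870912 649613803 48318383
    (rowB 3 eng mog cd4q0 cd1q1 pd0 1 false true true .up 0 0 1 (qsf 0 536870912 536870912 536870912 0) ndB4q0 ndB1q1 pcB0 Cut.none Ext.none)

def k0_pp_001 : ∃ t, chk3 f_pp_001 t 1 1 1 = true :=
  ⟨(b (l 3) (l 3)), by decide +kernel⟩

theorem c_pp_001 : CertB 0 536870912 536870912 536870912 649613803 48318383 3 eng mog cd4q0 cd1q1 pd0 false true true .up 0 0 1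
    ndB4q0 ndB1q1 pcB0 Cut.none Ext.none :=
  certB1 (fam := false) (s1 := true) (s2 := true) (a := 0) (b := 0) (c := 1) (cn := .up) (n1 := ndB4q0) (n2 := ndB1q1) (pc := pcB0) (cut := Cut.none) (xt := Ext.none) (P1 := 0) (W1 := 536870912) (P2 := 536870912) (W2 := 536870912) (P3 := 649613803) (W3 := 48318383) (N0 := 3) (En := eng) (mo := mog) (C1 := cd4q0) (C2 := cd1q1) (C3 := pd0)
    rfl (fun _ => rfl) k0_pp_001

noncomputable def f_pp_011 : ℕ → ℕ → ℕ → ℕ → Bool := onCell 0 536870912 536870912 536870912 649613803 48318383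
    (rowB 3 eng mog cd4q0 cd1q1 pd1 0 false true true .pnn 0 1 1 (qsf 0 536870912 536870912 536870912 1) ndB4q0 ndB1q1 pcB1 Cut.none Ext.none)

def k0_pp_011 : ∃ t, chk3 f_pp_011 t 1 1 1 = true :=
  ⟨(a (b (l 3) (b (l 3) (l 3))) (l 3)), by decide +kernel⟩

theorem c_pp_011 : CertB 0 536870912 536870912 536870912 649613803 48318383 3 eng mog cd4q0 cd1q1 pd1 false true true .pnn 0 1 1
    ndB4q0 ndB1q1 pcB1 Cut.none Ext.none :=
  certB0 (fam := false) (s1 := true) (s2 := true) (a := 0) (b := 1) (c := 1) (cn := .pnn) (n1 := ndB4q0) (n2 := ndB1q1) (pc := pcB1) (cut := Cut.none) (xt := Ext.none) (P1 := 0) (W1 := 536870912) (P2 := 536870912) (W2 := 536870912) (P3 := 649613803) (W3 := 48318383) (N0 := 3) (En := eng) (mo := mog) (C1 := cd4q0) (C2 := cd1q1) (C3 := pd1)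
    rfl k0_pp_011

noncomputable def cut_pp_012_a : Cut := Cut.of [[⟨0, 0, 0, 26843545⟩, ⟨1, 1, 0, 26843545⟩, ⟨2, 1, 0, 26843545⟩]]

noncomputable def xt_pp_012_a : Ext := extD2 3 ⟨7, 3, 3, 10, 377, 200, 77, 100, 17, 50, 3, 16⟩ eng cd4q0 cd1q2a pd1 false true true .pnp 0 1 2 rfl ndB4q0 ndB1q2a pcB1

noncomputable def f_pp_012_a : ℕ → ℕ → ℕ → ℕ → Bool := onCell 536870912 536870912 0 536870912 649613803 48318383
    (rowB 3 eng mog cd4q0 cd1q2a pd1 2 false true true .pnp 0 1 2 (qsf 0 536870912 0 536870912 1) ndB4q0 ndB1q2a pcB1 cut_pp_012_a xt_pp_012_a)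

def k0_pp_012_a : ∃ t, chk3 f_pp_012_a t 2 1 1 = true :=
  ⟨(b (a (b (l 2) (b (l 2) (a (l 2) (l 16596400)))) (b (a (l 16550224) (l 16540880)) (a (b (l 16588328) (l 16603648)) (b (l 16589816) (l 16614808))))) (b (a (a (l 2) (b (l 16562168) (l 16410192))) (b (a (l 16583432) (a (l 16604720) (l 16618712))) (a (b (l 16497416) (l 16449976)) (a (l 16490312) (b (l 16560976) (l 16539912)))))) (b (a (a (a (l 2) (b (l 16483784) (b (l 16502816) (b (l 16514208) (a (l 206862683831) (l 16523432)))))) (b (a (l 16477680) (l 16476584)) (a (a (l 16575720) (l 16516744)) (b (l 16513864) (l 16542128))))) (a (b (l 16525696) (a (b (l 16537624) (l 16574576)) (b (l 16572216) (l 16607400)))) (b (l 16573888) (a (b (l 16603808) (l 16622296)) (b (l 16644216) (l 16685816)))))) (b (b (a (b (a (a (l 2) (a (l 236390470487) (l 244980456071))) (a (a (b (l 216526364551) (l 241759205959)) (b (l 16542984) (l 3890323287662273163339644991))) (a (l 142374969956843583) (l 16573008)))) (a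 (l 3) (a (l 3) (a (l 3706566563080970818814722111) (a (l 3803280628650211246575042623) (l 3870980474548715623811940415)))))) (a (a (b (a (l 16592920) (l 16613032)) (a (a (l 3948351727004101643918213183) (l 4016051572902542799240413247)) (b (l 16627544) (l 3919337507333449156238606399)))) (a (b (l 16627624) (l 16625904)) (b (l 16642568) (l 16641960)))) (a (a (c (l 16690312) (l 16638664)) (l 16699880)) (a (l 16722896) (l 16742432))))) (a (l 3) (b (a (a (a (l 3) (l 4441593461407098633386410047)) (a (a (l 215989604407) (l 218137125255)) (a (b (l 16631488) (l 254107523959)) (b (l 16684816) (l 235853863671))))) (a (a (c (b (l 16718320) (l 229948428183)) (l 195051711463)) (a (l 16730288) (l 16742800))) (a (a (l 16754856) (l 16765848)) (l 16779880)))) (a (l 3) (a (a (l 3) (a (l 331953944727) (l 220821693287))) (a (c (l 207400021111) (l 228874748855)) (a (l 158007935175) (l 152102382455)))))))) (a (l 3) (a (l 3) (l 3))))))), by decide +kernel⟩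

def k1_pp_012_a : ∃ t, chk3 f_pp_012_a t 6 1 1 = true :=
  ⟨(b (b (a (b (l 16507472) (l 16547768)) (a (l 16600656) (l 16512400))) (a (b (a (l 16588368) (l 16585136)) (a (l 16619648) (l 16622480))) (b (a (l 16582504) (l 16578976)) (a (l 16623904) (l 16621336))))) (b (a (b (a (l 16633448) (l 16649648)) (b (l 16613176) (l 16619176))) (b (a (l 16661664) (b (l 16654416) (l 16674968))) (a (b (l 16667272) (l 16644456)) (b (l 16688928) (l 16676576))))) (a (b (b (b (l 16632376) (l 16640528)) (a (b (l 16680664) (l 16698696)) (a (l 16723416) (l 16744552)))) (b (a (b (b (l 16753656) (l 16755696)) (a (a (l 132774928407) (l 16799920)) (c (l 16811216) (l 16825912)))) (a (b (l 16781848) (a (l 16865208) (c (l 16815544) (l 16825896)))) (b (l 16786656) (a (b (l 16815296) (l 16833488)) (l 16820808))))) (b (b (a (a (l 202568216887) (a (l 175724688855) (l 151028755239))) (a (c (l 138680704407) (a (l 162302950055) (l 124722090743))) (a (l 126869565815) (l 16868136))))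 (l 3)) (l 3)))) (b (b (a (l 16680368) (l 16687328)) (a (a (l 16735648) (l 16733568)) (l 16728848))) (b (b (a (l 16778392) (l 16765424)) (a (a (l 16814408) (l 16805200)) (a (l 16795728) (l 16787080)))) (b (a (a (b (l 134922615255) (l 153176250519)) (b (l 16849544) (l 133848874967))) (a (b (l 16816960) (l 189683282887)) (a (l 16836560) (l 16831432)))) (a (l 3) (l 3)))))))), by decide +kernel⟩

def k2_pp_012_a : ∃ t, chk3 f_pp_012_a t 7 2 1 = true :=
  ⟨(b (b (a (l 16478936) (l 16461360)) (a (a (l 16528840) (l 16520496)) (a (l 16510704) (l 16503024)))) (a (b (a (l 16572136) (l 16562000)) (a (l 16613568) (l 16600864))) (b (a (l 16550624) (l 16542056)) (a (l 16587256) (l 16576376))))), by decide +kernel⟩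

def k3_pp_012_a : ∃ t, chk3 f_pp_012_a t 7 3 1 = true :=
  ⟨(b (a (b (a (b (l 16647152) (l 16669552)) (l 16644312)) (a (l 16698512) (l 16689056))) (b (a (l 16627808) (l 16613128)) (a (b (l 16659584) (l 16681760)) (a (l 16825248) (l 16659680))))) (a (b (b (a (l 16694624) (l 16717976)) (a (l 16723384) (l 16721128))) (b (a (b (l 16754608) (a (l 16779632) (l 16773104))) (b (l 16766920) (a (l 16767816) (l 16763168)))) (b (a (a (a (l 16826696) (l 16822304)) (a (l 16818344) (l 16793952))) (a (b (l 16783984) (l 16794936)) (l 16825880))) (b (a (a (a (l 162302925879) (l 162839796487)) (b (a (l 16812056) (l 16808272)) (l 3))) (a (a (l 174650944919) (l 178945904167)) (a (l 182167121239) (l 16819176)))) (a (l 3) (a (l 3) (l 3))))))) (b (a (b (l 16706048) (a (l 16733264) (l 16727568))) (a (b (l 16691432) (l 16717800)) (b (l 16682072) (b (l 16701080) (l 16714640))))) (b (a (b (a (l 16740832) (l 16745312)) (a (l 16758344) (l 16753408))) (a (b (l 16738408) (l 16753280))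 (b (a (l 16730688) (l 16725728)) (a (l 16745936) (a (l 16742096) (l 16739584)))))) (a (b (a (l 16799176) (l 16792912)) (b (a (c (l 29695762903) (l 16794560)) (a (l 16788184) (l 16784520))) (a (b (a (l 146196754311) (l 159081637671)) (l 3)) (a (c (l 167134667287) (l 152102315111)) (b (c (l 16791248) (l 16792264)) (l 3)))))) (b (a (b (l 16760952) (l 16790632)) (a (b (l 16757720) (l 16765568)) (b (l 16752560) (l 6)))) (b (a (a (l 16780704) (l 16776720)) (a (b (l 16770360) (l 6)) (l 6))) (a (a (b (c (l 16787312) (l 16788024)) (b (c (l 158544727127) (l 16791656)) (l 3))) (a (b (l 16784440) (b (l 170355885591) (l 3))) (l 6))) (l 6))))))))), by decide +kernel⟩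

theorem s4_pp_012_a : ∃ t, chk3 f_pp_012_a t 7 1 1 = true := ex3_b k2_pp_012_a k3_pp_012_a

theorem s5_pp_012_a : ∃ t, chk3 f_pp_012_a t 3 1 1 = true := ex3_a k1_pp_012_a s4_pp_012_a

theorem s6_pp_012_a : ∃ t, chk3 f_pp_012_a t 1 1 1 = true := ex3_a k0_pp_012_a s5_pp_012_a

theorem c_pp_012_a : CertB 0 536870912 0 536870912 649613803 48318383 3 eng mog cd4q0 cd1q2a pd1 false true true .pnp 0 1 2
    ndB4q0 ndB1q2a pcB1 cut_pp_012_a xt_pp_012_a :=
  certB2 (fam := false) (s1 := true) (s2 := true) (a := 0) (b := 1) (c := 2) (cn := .pnp) (n1 := ndB4q0) (n2 := ndB1q2a) (pc := pcB1) (cut := cut_pp_012_a) (xt := xt_pp_012_a) (P1 := 0) (W1 := 536870912) (P2 := 0) (W2 := 536870912) (P3 := 649613803) (W3 := 48318383) (N0 := 3) (En := eng) (mo := mog) (C1 := cd4q0) (C2 := cd1q2a) (C3 := pd1)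
    rfl (fun _ => rfl) s6_pp_012_a

noncomputable def cut_pp_012_b : Cut := Cut.of [[⟨0, 0, 0, 26843545⟩, ⟨1, 1, 0, 26843545⟩, ⟨2, 1, 0, 26843545⟩]]

noncomputable def f_pp_012_b : ℕ → ℕ → ℕ → ℕ → Bool := onCell 536870912 536870912 1239849684 370763052 649613803 48318383
    (rowB 3 eng mog cd4q0 cd1q2b pd1 2 false true true .pnp 0 1 2 (qsf 0 536870912 1239849684 370763052 1) ndB4q0 ndB1q2b pcB1 cut_pp_012_b Ext.none)

def k0_pp_012_b : ∃ t, chk3 f_pp_012_b t 1 1 1 = true :=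
  ⟨(a (b (a (l 2) (b (a (l 16503568) (l 16477000)) (l 16481656))) (l 2)) (b (a (b (a (l 16698280) (b (l 16482328) (l 16390920))) (a (l 16405744) (l 16348224))) (b (a (b (a (l 16425040) (l 16413552)) (l 16354144)) (a (b (l 16401216) (l 16322768)) (b (l 16389528) (l 16301808)))) (a (l 16291080) (b (l 16247736) (l 16203848))))) (a (b (l 16392288) (l 2)) (b (a (l 16270904) (l 16176672)) (l 16275920))))), by decide +kernel⟩

theorem c_pp_012_b : CertB 0 536870912 1239849684 370763052 649613803 48318383 3 eng mog cd4q0 cd1q2b pd1 false true true .pnp 0 1 2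
    ndB4q0 ndB1q2b pcB1 cut_pp_012_b Ext.none :=
  certB2 (fam := false) (s1 := true) (s2 := true) (a := 0) (b := 1) (c := 2) (cn := .pnp) (n1 := ndB4q0) (n2 := ndB1q2b) (pc := pcB1) (cut := cut_pp_012_b) (xt := Ext.none) (P1 := 0) (W1 := 536870912) (P2 := 1239849684) (W2 := 370763052) (P3 := 649613803) (W3 := 48318383) (N0 := 3) (En := eng) (mo := mog) (C1 := cd4q0) (C2 := cd1q2b) (C3 := pd1)
    rfl (fun _ => rfl) k0_pp_012_b

noncomputable def cut_pp_022_a : Cut := Cut.of [[⟨0, 0, 0, 67108864⟩, ⟨1, 1, 0, 67108864⟩, ⟨2, 1, 0, 67108864⟩]]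

noncomputable def f_pp_022_a : ℕ → ℕ → ℕ → ℕ → Bool := onCell 0 536870912 0 536870912 649613803 48318383
    (rowB 3 eng mog cd4q0 cd1q2a pd2 0 false true true .pp 0 2 2 (qsf 0 536870912 0 536870912 2) ndB4q0 ndB1q2a pcB2 cut_pp_022_a Ext.none)

def k0_pp_022_a : ∃ t, chk3 f_pp_022_a t 2 2 1 = true :=
  ⟨(a (b (b (a (a (a (c (b (l 16443344) (l 16448320)) (l 16449456)) (b (l 16448536) (l 16454120))) (l 16479904)) (a (l 16467472) (l 16471288))) (a (b (a (a (c (l 16456640) (l 16461544)) (l 16463304)) (l 16472072)) (a (a (a (l 16552912) (l 16471504)) (l 16475488)) (l 16484464))) (a (l 16513264) (l 16506344)))) (a (a (c (a (b (b (l 16522608) (a (c (l 16488576) (l 16484744)) (l 16492768))) (b (a (c (l 16500768) (l 16496400)) (l 16505480)) (a (b (l 16510440) (l 16519576)) (l 16522536)))) (b (l 16558880) (b (l 16515272) (l 16533432)))) (a (b (b (a (b (l 16468104) (l 16470472)) (l 16475376)) (a (l 16497488) (l 16483408))) (b (a (b (l 16484160) (l 16490960))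 (l 16495280)) (b (l 16524264) (l 16533648)))) (b (b (l 16484224) (l 16493448)) (b (l 16506512) (l 16524632))))) (b (a (a (l 16543656) (l 16506656)) (l 16511440)) (a (b (l 16524840) (l 16544328)) (b (l 16537080) (l 16554456))))) (a (b (l 16626584) (b (l 16546352) (l 16562752))) (b (l 16537128) (b (l 16559592) (l 16574240)))))) (a (b (b (l 16488568) (a (l 16518160) (l 1))) (a (b (l 16555232) (b (l 16574744) (l 16587232))) (l 1))) (l 1))), by decide +kernel⟩

def k1_pp_022_a : ∃ t, chk3 f_pp_022_a t 2 3 1 = true :=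
  ⟨(b (a (a (b (a (a (a (b (b (c (l 16529296) (l 16518040)) (l 16534000)) (c (l 16576408) (l 16565736))) (b (c (l 16543184) (l 16554096)) (c (l 16565848) (l 16556360)))) (b (b (l 16546000) (l 16621144)) (a (l 16572144) (l 16582272)))) (b (b (l 16659240) (l 16657416)) (c (l 16638096) (l 16674992)))) (b (a (a (a (b (l 16589800) (l 16603464)) (c (l 16591560) (l 16582992))) (l 16604832)) (l 16668080)) (a (a (a (c (a (l 16626176) (l 16632552)) (b (l 16592512) (l 16607376))) (c (l 16620872) (l 16613560))) (l 16655808)) (a (l 16635504) (l 16635136))))) (b (a (b (l 16578784) (a (l 16591792) (l 16595664))) (b (l 16588248) (l 87543144487))) (a (b (a (l 16610768) (c (l 16611608) (l 16611232))) (a (l 16633928) (l 16632080))) (b (a (l 265247644423) (l 1)) (l 1))))) (l 1)) (a (a (a (b (b (b (a (a (c (l 16631096) (l 16623504)) (l 16641376)) (l 16656336)) (a (a (a (l 16662024) (l 16669320)) (l 16658992)) (l 16670832))) (l 6)) (l 6)) (a (b (b (l 16663440) (l 6))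 (l 6)) (b (b (l 16683032) (b (l 16682800) (l 345778340711))) (l 1)))) (b (a (b (a (l 16659832) (l 1)) (l 1)) (l 1)) (l 1))) (l 1))), by decide +kernel⟩

def k2_pp_022_a : ∃ t, chk3 f_pp_022_a t 3 1 1 = true :=
  ⟨(l 1), by decide +kernel⟩

theorem s3_pp_022_a : ∃ t, chk3 f_pp_022_a t 2 1 1 = true := ex3_b k0_pp_022_a k1_pp_022_a

theorem s4_pp_022_a : ∃ t, chk3 f_pp_022_a t 1 1 1 = true := ex3_a s3_pp_022_a k2_pp_022_a

theorem c_pp_022_a : CertB 0 536870912 0 536870912 649613803 48318383 3 eng mog cd4q0 cd1q2a pd2 false true true .pp 0 2 2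
    ndB4q0 ndB1q2a pcB2 cut_pp_022_a Ext.none :=
  certB0 (fam := false) (s1 := true) (s2 := true) (a := 0) (b := 2) (c := 2) (cn := .pp) (n1 := ndB4q0) (n2 := ndB1q2a) (pc := pcB2) (cut := cut_pp_022_a) (xt := Ext.none) (P1 := 0) (W1 := 536870912) (P2 := 0) (W2 := 536870912) (P3 := 649613803) (W3 := 48318383) (N0 := 3) (En := eng) (mo := mog) (C1 := cd4q0) (C2 := cd1q2a) (C3 := pd2)
    rfl s4_pp_022_a

noncomputable def cut_pp_022_b : Cut := Cut.of [[⟨0, 0, 0, 67108864⟩, ⟨1, 1, 0, 67108864⟩, ⟨2, 1, 0, 67108864⟩]]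

noncomputable def f_pp_022_b : ℕ → ℕ → ℕ → ℕ → Bool := onCell 0 536870912 1073741824 536870912 649613803 48318383
    (rowB 3 eng mog cd4q0 cd1q2b pd2 1 false true true .pp 0 2 2 (qsf 0 536870912 1239849684 370763052 2) ndB4q0 ndB1q2b pcB2 cut_pp_022_b Ext.none)

def k0_pp_022_b : ∃ t, chk3 f_pp_022_b t 1 1 1 = true :=
  ⟨(b (a (b (a (a (b (l 1) (b (a (l 1) (l 340409483543)) (a (b (l 1) (l 332893238423)) (l 16470128)))) (b (b (a (l 1) (l 16529928)) (l 109018282887)) (a (l 16584728) (l 16476968)))) (a (b (l 16459928) (l 16347560)) (b (l 16312272) (l 16170832)))) (a (b (a (a (b (a (b (l 262026178135) (c (l 16438800) (l 16441224))) (c (l 16425344) (l 16425920))) (b (c (b (l 16396832) (l 16442936)) (l 16429840)) (a (c (l 16376672) (l 16377808)) (l 16346672)))) (b (l 16419064) (b (l 16369376) (l 16304392)))) (b (l 16478528) (b (l 16268512) (l 16229320)))) (a (a (b (l 16492752) (l 16262568)) (l 16331328)) (l 16312632))) (b (a (b (l 16192944) (l 16155752))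 (l 16279152)) (a (l 16126272) (l 16093216))))) (b (a (a (b (l 16159904) (l 16115632)) (l 16215320)) (b (l 16130040) (l 16149296))) (a (b (l 16261960) (l 16121504)) (l 16303336)))) (a (b (a (a (b (a (a (l 16192808) (l 16178512)) (l 16154504)) (a (b (l 16128888) (l 16104704)) (l 16094152))) (b (l 16093392) (l 16071760))) (b (a (l 16059984) (l 16063792)) (a (l 15966184) (l 16008544)))) (a (a (b (a (l 16086312) (l 16074088)) (a (l 16088480) (l 16083120))) (b (l 16056320) (l 16074520))) (b (l 15966296) (l 2)))) (b (a (b (l 16147920) (l 2)) (l 2)) (l 2)))), by decide +kernel⟩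

theorem c_pp_022_b : CertB 0 536870912 1239849684 370763052 649613803 48318383 3 eng mog cd4q0 cd1q2b pd2 false true true .pp 0 2 2
    ndB4q0 ndB1q2b pcB2 cut_pp_022_b Ext.none :=
  certB1 (fam := false) (s1 := true) (s2 := true) (a := 0) (b := 2) (c := 2) (cn := .pp) (n1 := ndB4q0) (n2 := ndB1q2b) (pc := pcB2) (cut := cut_pp_022_b) (xt := Ext.none) (P1 := 0) (W1 := 536870912) (P2 := 1239849684) (W2 := 370763052) (P3 := 649613803) (W3 := 48318383) (N0 := 3) (En := eng) (mo := mog) (C1 := cd4q0) (C2 := cd1q2b) (C3 := pd2)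
    rfl (fun _ => rfl) k0_pp_022_b

noncomputable def f_pp_023 : ℕ → ℕ → ℕ → ℕ → Bool := onCell 1073741824 536870912 1610612736 536870912 649613803 48318383
    (rowB 3 eng mog cd4q0 cd1q3 pd2 2 false true true .up 0 2 3 (qsf 0 536870912 1610612736 536870912 2) ndB4q0 ndB1q3 pcB2 Cut.none Ext.none)

def k0_pp_023 : ∃ t, chk3 f_pp_023 t 1 1 1 = true :=
  ⟨(a (a (b (b (l 16232960) (l 16459152)) (l 2)) (b (b (a (l 16160960) (l 16152344)) (l 16347544)) (b (l 16436640) (l 2)))) (a (b (b (a (l 16123056) (l 16182720)) (a (l 16290168) (l 16236632))) (a (l 16324688) (l 16533088))) (a (b (b (b (l 16019112) (l 15939304)) (l 16139064)) (l 16558056)) (b (b (b (l 16216456) (l 16041528)) (l 16133720)) (l 4))))), by decide +kernel⟩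

theorem c_pp_023 : CertB 0 536870912 1610612736 536870912 649613803 48318383 3 eng mog cd4q0 cd1q3 pd2 false true true .up 0 2 3
    ndB4q0 ndB1q3 pcB2 Cut.none Ext.none :=
  certB2 (fam := false) (s1 := true) (s2 := true) (a := 0) (b := 2) (c := 3) (cn := .up) (n1 := ndB4q0) (n2 := ndB1q3) (pc := pcB2) (cut := Cut.none) (xt := Ext.none) (P1 := 0) (W1 := 536870912) (P2 := 1610612736) (W2 := 536870912) (P3 := 649613803) (W3 := 48318383) (N0 := 3) (En := eng) (mo := mog) (C1 := cd4q0) (C2 := cd1q3) (C3 := pd2)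
    rfl (fun _ => rfl) k0_pp_023

noncomputable def f_pp_033 : ℕ → ℕ → ℕ → ℕ → Bool := onCell 0 536870912 1610612736 536870912 649613803 48318383
    (rowB 3 eng mog cd4q0 cd1q3 pd3 1 false true true .pnn 0 3 3 (qsf 0 536870912 1610612736 536870912 3) ndB4q0 ndB1q3 pcB3 Cut.none Ext.none)

def k0_pp_033 : ∃ t, chk3 f_pp_033 t 1 1 1 = true :=
  ⟨(a (b (b (a (b (a (l 16051440) (l 16043520)) (a (l 16040432) (l 16142728))) (b (l 16215144) (l 4))) (a (b (a (l 16167376) (l 4)) (l 4)) (l 4))) (a (l 4) (b (l 4) (a (b (l 4) (l 2)) (l 2))))) (b (b (l 4) (a (l 4) (a (b (l 4) (l 2)) (l 2)))) (a (b (a (b (l 4) (l 2)) (l 2)) (l 2)) (l 2)))), by decide +kernel⟩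

theorem c_pp_033 : CertB 0 536870912 1610612736 536870912 649613803 48318383 3 eng mog cd4q0 cd1q3 pd3 false true true .pnn 0 3 3
    ndB4q0 ndB1q3 pcB3 Cut.none Ext.none :=
  certB1 (fam := false) (s1 := true) (s2 := true) (a := 0) (b := 3) (c := 3) (cn := .pnn) (n1 := ndB4q0) (n2 := ndB1q3) (pc := pcB3) (cut := Cut.none) (xt := Ext.none) (P1 := 0) (W1 := 536870912) (P2 := 1610612736) (W2 := 536870912) (P3 := 649613803) (W3 := 48318383) (N0 := 3) (En := eng) (mo := mog) (C1 := cd4q0) (C2 := cd1q3) (C3 := pd3)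
    rfl (fun _ => rfl) k0_pp_033

noncomputable def f_pp_101 : ℕ → ℕ → ℕ → ℕ → Bool := onCell 536870912 536870912 536870912 536870912 649613803 48318383
    (rowB 3 eng mog cd4q1 cd1q1 pd0 0 false true true .npn 1 0 1 (qsf 536870912 536870912 536870912 536870912 0) ndB4q1 ndB1q1 pcB0 Cut.none Ext.none)

def k0_pp_101 : ∃ t, chk3 f_pp_101 t 1 1 1 = true :=
  ⟨(l 3), by decide +kernel⟩

theorem c_pp_101 : CertB 536870912 536870912 536870912 536870912 649613803 48318383 3 eng mog cd4q1 cd1q1 pd0 false true true .npn 1 0 1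
    ndB4q1 ndB1q1 pcB0 Cut.none Ext.none :=
  certB0 (fam := false) (s1 := true) (s2 := true) (a := 1) (b := 0) (c := 1) (cn := .npn) (n1 := ndB4q1) (n2 := ndB1q1) (pc := pcB0) (cut := Cut.none) (xt := Ext.none) (P1 := 536870912) (W1 := 536870912) (P2 := 536870912) (W2 := 536870912) (P3 := 649613803) (W3 := 48318383) (N0 := 3) (En := eng) (mo := mog) (C1 := cd4q1) (C2 := cd1q1) (C3 := pd0)
    rfl k0_pp_101

noncomputable def f_pp_102_a : ℕ → ℕ → ℕ → ℕ → Bool := onCell 0 536870912 0 536870912 649613803 48318383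
    (rowB 3 eng mog cd4q1 cd1q2a pd0 2 false true true .npp 1 0 2 (qsf 536870912 536870912 0 536870912 0) ndB4q1 ndB1q2a pcB0 Cut.none Ext.none)

def k0_pp_102_a : ∃ t, chk3 f_pp_102_a t 2 1 1 = true :=
  ⟨(b (a (b (l 2) (a (l 2) (b (l 2) (a (l 2) (b (l 2) (l 16495752)))))) (a (b (a (l 16426064) (l 16282848)) (b (a (b (l 16307088) (l 16334144)) (b (l 16325008) (l 16346392))) (a (b (l 16361320) (l 16393840)) (b (l 16370136) (l 16396920))))) (b (a (l 16304256) (b (l 16312024) (l 16335792))) (b (a (l 16349672) (l 16362584)) (b (a (l 16378224) (l 16386336)) (a (l 16400096) (l 16404000))))))) (a (b (a (l 2) (b (a (l 2) (b (b (l 16505808) (l 16484024)) (b (l 16464496) (a (l 16489032) (l 16484560))))) (a (b (a (l 2) (b (l 16517784) (l 16539744))) (l 3)) (b (b (l 16508600) (a (l 16533104) (l 16526096))) (b (l 156396868839) (l 3)))))) (l 3)) (b (a (b (b (a (l 16448904) (l 16424720)) (a (b (l 16455744) (l 16474504)) (l 16455432))) (b (a (b (l 16492896) (b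 (l 16506840) (l 16516104))) (l 16485592)) (a (b (c (l 109689099543) (l 110225948679)) (l 184850993719)) (b (b (l 16504360) (l 16512016)) (l 155323087719))))) (b (b (l 16464848) (a (l 16447752) (l 16442048))) (b (a (l 16471944) (l 16460712)) (a (b (a (l 16494008) (l 16485568)) (a (l 16506912) (l 16496832))) (b (l 16473992) (l 16485680)))))) (a (l 3) (b (b (b (a (a (l 3) (l 16506824)) (a (l 16496200) (l 16487088))) (l 3)) (l 3)) (l 3)))))), by decide +kernel⟩

def k1_pp_102_a : ∃ t, chk3 f_pp_102_a t 3 1 1 = true :=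
  ⟨(a (b (a (b (b (l 16339936) (l 16358784)) (b (l 16379864) (a (l 16401720) (l 16409752)))) (b (a (b (l 16366536) (l 16381504)) (b (l 16391920) (l 16403456))) (b (l 16410784) (l 16535536)))) (b (b (a (b (l 16425952) (l 16544344)) (b (l 16442664) (l 16447760))) (b (a (a (l 16452944) (l 16450752)) (l 16449832)) (a (a (b (l 16462904) (l 16470008)) (b (l 16456368) (l 16460352))) (b (l 16448392) (a (l 16451744) (l 16443880)))))) (b (a (b (a (b (l 16476176) (l 16501832)) (b (l 16463152) (l 16464544))) (l 3)) (b (a (b (l 16451384) (l 146732919767)) (b (l 16440216) (l 16476464))) (a (l 3) (b (l 16428560) (l 3))))) (l 3)))) (b (b (b (a (l 16427216) (l 16466968)) (l 16455816)) (b (a (l 16448640) (l 16483656)) (a (l 16459680) (l 16487944)))) (b (a (b (l 16461720) (b (l 16450272) (l 16436056))) (b (l 16477880) (a (l 16440400) (l 16437376)))) (b (a (b (b (a (l 16428696) (l 16415928)) (a (l 16418624) (l 16400384))) (b (a (l 16407832) (l 16383016)) (l 3))) (a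 (b (b (l 16401968) (l 16380368)) (b (l 16369248) (l 209009869175))) (b (l 16379648) (b (l 16354736) (l 219747273431))))) (l 3))))), by decide +kernel⟩

theorem s2_pp_102_a : ∃ t, chk3 f_pp_102_a t 1 1 1 = true := ex3_a k0_pp_102_a k1_pp_102_a

theorem c_pp_102_a : CertB 536870912 536870912 0 536870912 649613803 48318383 3 eng mog cd4q1 cd1q2a pd0 false true true .npp 1 0 2
    ndB4q1 ndB1q2a pcB0 Cut.none Ext.none :=
  certB2 (fam := false) (s1 := true) (s2 := true) (a := 1) (b := 0) (c := 2) (cn := .npp) (n1 := ndB4q1) (n2 := ndB1q2a) (pc := pcB0) (cut := Cut.none) (xt := Ext.none) (P1 := 536870912) (W1 := 536870912) (P2 := 0) (W2 := 536870912) (P3 := 649613803) (W3 := 48318383) (N0 := 3) (En := eng) (mo := mog) (C1 := cd4q1) (C2 := cd1q2a) (C3 := pd0)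
    rfl (fun _ => rfl) s2_pp_102_a

noncomputable def f_pp_102_b : ℕ → ℕ → ℕ → ℕ → Bool := onCell 536870912 536870912 0 536870912 649613803 48318383
    (rowB 3 eng mog cd4q1 cd1q2b pd0 1 false true true .npp 1 0 2 (qsf 536870912 536870912 1239849684 370763052 0) ndB4q1 ndB1q2b pcB0 Cut.none Ext.none)

def k0_pp_102_b : ∃ t, chk3 f_pp_102_b t 1 1 1 = true :=
  ⟨(a (a (l 1) (b (l 1) (b (l 1) (b (l 233572358599) (l 16464144))))) (a (b (l 1) (b (b (a (l 1) (l 16383304)) (b (l 16428952) (l 16360896))) (b (l 16332312) (l 16320880)))) (b (b (l 1) (b (a (l 1) (b (l 91301206375) (l 16290288))) (a (l 208875995815) (l 16218840)))) (b (b (a (l 16272864) (l 16150304)) (b (l 16179160) (l 16166984))) (b (l 16166344) (l 16200256)))))), by decide +kernel⟩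

theorem c_pp_102_b : CertB 536870912 536870912 1239849684 370763052 649613803 48318383 3 eng mog cd4q1 cd1q2b pd0 false true true .npp 1 0 2
    ndB4q1 ndB1q2b pcB0 Cut.none Ext.none :=
  certB1 (fam := false) (s1 := true) (s2 := true) (a := 1) (b := 0) (c := 2) (cn := .npp) (n1 := ndB4q1) (n2 := ndB1q2b) (pc := pcB0) (cut := Cut.none) (xt := Ext.none) (P1 := 536870912) (W1 := 536870912) (P2 := 1239849684) (W2 := 370763052) (P3 := 649613803) (W3 := 48318383) (N0 := 3) (En := eng) (mo := mog) (C1 := cd4q1) (C2 := cd1q2b) (C3 := pd0)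
    rfl (fun _ => rfl) k0_pp_102_b

noncomputable def f_pp_112_a : ℕ → ℕ → ℕ → ℕ → Bool := onCell 536870912 536870912 0 536870912 649613803 48318383
    (rowB 3 eng mog cd4q1 cd1q2a pd1 2 false true true .dn 1 1 2 (qsf 536870912 536870912 0 536870912 1) ndB4q1 ndB1q2a pcB1 Cut.none Ext.none)

def k0_pp_112_a : ∃ t, chk3 f_pp_112_a t 1 1 1 = true :=
  ⟨(a (b (a (b (l 16463912) (b (l 16679792) (l 16502080))) (b (l 267932029623) (b (a (l 16506200) (l 1)) (l 301754994167)))) (a (b (b (a (l 16485744) (l 16501064)) (a (b (l 16458672) (l 16424760)) (b (l 16465936) (l 16424696)))) (a (a (b (b (l 16441208) (a (l 164986438919) (l 16411056))) (l 3)) (b (b (l 16368144) (b (l 16306736) (l 16358744))) (b (b (l 219747077927) (l 1)) (l 1)))) (b (b (b (l 16382992) (l 645888618551)) (l 1)) (l 1)))) (b (l 1) (l 1)))) (l 1)), by decide +kernel⟩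

theorem c_pp_112_a : CertB 536870912 536870912 0 536870912 649613803 48318383 3 eng mog cd4q1 cd1q2a pd1 false true true .dn 1 1 2
    ndB4q1 ndB1q2a pcB1 Cut.none Ext.none :=
  certB2 (fam := false) (s1 := true) (s2 := true) (a := 1) (b := 1) (c := 2) (cn := .dn) (n1 := ndB4q1) (n2 := ndB1q2a) (pc := pcB1) (cut := Cut.none) (xt := Ext.none) (P1 := 536870912) (W1 := 536870912) (P2 := 0) (W2 := 536870912) (P3 := 649613803) (W3 := 48318383) (N0 := 3) (En := eng) (mo := mog) (C1 := cd4q1) (C2 := cd1q2a) (C3 := pd1)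
    rfl (fun _ => rfl) k0_pp_112_a

noncomputable def f_pp_112_b : ℕ → ℕ → ℕ → ℕ → Bool := onCell 536870912 536870912 1239849684 370763052 649613803 48318383
    (rowB 3 eng mog cd4q1 cd1q2b pd1 2 false true true .dn 1 1 2 (qsf 536870912 536870912 1239849684 370763052 1) ndB4q1 ndB1q2b pcB1 Cut.none Ext.none)

def k0_pp_112_b : ∃ t, chk3 f_pp_112_b t 1 1 1 = true :=
  ⟨(a (a (b (b (l 16419640) (l 16386184)) (l 16413016)) (b (b (l 16428864) (l 16420760)) (l 16527224))) (b (a (b (l 1) (l 403223283463)) (l 1)) (a (l 16475136) (l 444562257271)))), by decide +kernel⟩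

theorem c_pp_112_b : CertB 536870912 536870912 1239849684 370763052 649613803 48318383 3 eng mog cd4q1 cd1q2b pd1 false true true .dn 1 1 2
    ndB4q1 ndB1q2b pcB1 Cut.none Ext.none :=
  certB2 (fam := false) (s1 := true) (s2 := true) (a := 1) (b := 1) (c := 2) (cn := .dn) (n1 := ndB4q1) (n2 := ndB1q2b) (pc := pcB1) (cut := Cut.none) (xt := Ext.none) (P1 := 536870912) (W1 := 536870912) (P2 := 1239849684) (W2 := 370763052) (P3 := 649613803) (W3 := 48318383) (N0 := 3) (En := eng) (mo := mog) (C1 := cd4q1) (C2 := cd1q2b) (C3 := pd1)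
    rfl (fun _ => rfl) k0_pp_112_b

end Pool.Agent.Strip051.G.I6050_6500.Tab.C.BB41

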