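import Pool.Agent.Strip051.PB.DgE
import Pool.Agent.Strip051.PB.DgJ
import Pool.Agent.Strip051.G.I6050_6500.Fact

/-! # The corner (1, 1, 2): parameters of the degenerate charts (generated) -/

set_option linter.all false

namespace Pool.Agent.Strip051.G.I6050_6500.Tab.DG

open Pool.Agent.Strip051.PB Pool.Agent.Strip051.PB.Dg Pool.Agent.StripNear Pool.Agent.Strip051.LC

noncomputable def pFma : Fn1 := ⟨_, _, fun h1 => (enc_norm (enc_add (enc_scale 7676287 30000000 (enc_subr 251 400 h1)) (enc_rat _ 6237683 150000000)))⟩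
noncomputable def pFmb : Fn1 := ⟨_, _, fun h1 => (enc_norm (enc_subr 30572563 150000000 (enc_neg (enc_scale 6963101 3000000 (enc_subr 251 400 h1)))))⟩
noncomputable def pFmu : Fn1 := ⟨_, _, fun h1 => (mug3.enc h1)⟩
noncomputable def pFnx : Fn1 := ⟨_, _, fun h1 => (enc_norm (enc_add h1 (enc_pnc _ 3)))⟩
noncomputable def pFc0 : Fn1 := ⟨_, _, fun h1 => (enc_pnc _ 1)⟩
noncomputable def pFkc : Fn1 := ⟨_, _, fun h1 => (enc_norm (enc_add (enc_scale 1164847 2500000 (enc_subr 251 400 h1)) (enc_rat _ 13309083 100000000)))⟩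
noncomputable def pFjc : Fn1 := ⟨_, _, fun h1 => (enc_norm (enc_subr 3320997 1250000 (enc_scale 1361629 1000000 (enc_subr 251 400 h1))))⟩
noncomputable def pFca : Fn1 := ⟨_, _, fun h1 => (enc_norm (enc_sub (enc_rat _ 681913 500000) (enc_scale 1050243 100000 (enc_subr 251 400 h1))))⟩
noncomputable def pFcb : Fn1 := ⟨_, _, fun h1 => (enc_norm (enc_subr 1404443 1000000 (enc_scale 144787 10000 (enc_subr 251 400 h1))))⟩
noncomputable def pFcc : Fn1 := ⟨_, _, fun h1 => (enc_norm (enc_sub (enc_rat _ 9100759 250000) (enc_scale 680717 50000 (enc_subr 251 400 h1))))⟩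
noncomputable def pFsv : Fn1 := ⟨_, _, fun h1 => (enc_norm (enc_subr 1 16 h1))⟩
noncomputable def pFx11 : Fn1 := ⟨_, _, fun h1 => (cv1m.enc h1)⟩
noncomputable def pFx01 : Fn1 := ⟨_, _, fun h1 => (c1g.enc h1)⟩
noncomputable def pFK11 : Fn2 := ⟨_, _, fun h1 h2 => (kf1q1.enc h1 h2)⟩
noncomputable def pFK01 : Fn2 := ⟨_, _, fun h1 h2 => (kf0q1.enc h1 h2)⟩
noncomputable def pFL11 : Fn2 := ⟨_, _, fun h1 h2 => (l1q1.enc h1 h2)⟩
noncomputable def pFL01 : Fn2 := ⟨_, _, fun h1 h2 => (l0q1.enc h1 h2)⟩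
noncomputable def kFc0 : Fn1 := ⟨_, _, fun h1 => (enc_norm (enc_add (enc_scale 3 2000000 (enc_subr 251 400 h1)) (enc_rat _ 7 20000000)))⟩
noncomputable def kFc0g : Fn1 := ⟨_, _, fun h1 => (enc_norm (enc_subr 6369959 200000 (enc_scale 1361413 100000 (enc_subr 251 400 h1))))⟩
noncomputable def kFc1 : Fn1 := ⟨_, _, fun h1 => (enc_norm (enc_subr 1 4000000 (enc_neg (enc_scale 1 500000 (enc_subr 251 400 h1)))))⟩
noncomputable def kFc1g : Fn1 := ⟨_, _, fun h1 => (enc_norm (enc_sub (enc_rat _ 9227811 1000000) (enc_scale 19 10000 (enc_subr 251 400 h1))))⟩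
noncomputable def kFa0 : Fn1 := ⟨_, _, fun h1 => (enc_norm (enc_sub (enc_rat _ 11 50000000) (enc_scale 37 15000000 (enc_subr 251 400 h1))))⟩
noncomputable def kFa0g : Fn1 := ⟨_, _, fun h1 => (enc_norm (enc_subr 545163 500000 (enc_neg (enc_scale 13007 25000 (enc_subr 251 400 h1)))))⟩
noncomputable def kFa1 : Fn1 := ⟨_, _, fun h1 => (enc_norm (enc_subr 1 75000000 (enc_scale 7 3000000 (enc_subr 251 400 h1))))⟩
noncomputable def kFa1g : Fn1 := ⟨_, _, fun h1 => (enc_norm (enc_subr 635277 250000 (enc_scale 1460083 100000 (enc_subr 251 400 h1))))⟩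
noncomputable def kFa2 : Fn1 := ⟨_, _, fun h1 => (enc_norm (enc_subr 1 100000000 (enc_neg (enc_scale 11 3000000 (enc_subr 251 400 h1)))))⟩
noncomputable def kFa2g : Fn1 := ⟨_, _, fun h1 => (enc_norm (enc_sub (enc_rat _ 1958819 1000000) (enc_scale 978113 100000 (enc_subr 251 400 h1))))⟩
noncomputable def kFb0 : Fn1 := ⟨_, _, fun h1 => (enc_norm (enc_add (enc_scale 1 6000000 (enc_subr 251 400 h1)) (enc_rat _ 11 75000000)))⟩
noncomputable def kFb0g : Fn1 := ⟨_, _, fun h1 => (enc_norm (enc_sub (enc_rat _ 2716781 1000000) (enc_scale 1010523 100000 (enc_subr 251 400 h1))))⟩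
noncomputable def kFb1 : Fn1 := ⟨_, _, fun h1 => (enc_norm (enc_subr 1 10000000 (enc_neg (enc_scale 1 1000000 (enc_subr 251 400 h1)))))⟩
noncomputable def kFb1g : Fn1 := ⟨_, _, fun h1 => (enc_norm (enc_subr 1693521 500000 (enc_neg (enc_scale 24401 25000 (enc_subr 251 400 h1)))))⟩
noncomputable def kFd0 : Fn1 := ⟨_, _, fun h1 => (enc_norm (enc_sub (enc_rat _ 11 50000000) (enc_scale 37 15000000 (enc_subr 251 400 h1))))⟩
noncomputable def kFd0g : Fn1 := ⟨_, _, fun h1 => (enc_norm (enc_subr 545163 500000 (enc_neg (enc_scale 13007 25000 (enc_subr 251 400 h1)))))⟩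
noncomputable def kFd1 : Fn1 := ⟨_, _, fun h1 => (enc_norm (enc_add (enc_scale 1 375000 (enc_subr 251 400 h1)) (enc_rat _ 7 25000000)))⟩
noncomputable def kFd1g : Fn1 := ⟨_, _, fun h1 => (enc_norm (enc_sub (enc_rat _ 1446227 500000) (enc_scale 560963 100000 (enc_subr 251 400 h1))))⟩
noncomputable def kFd2 : Fn1 := ⟨_, _, fun h1 => (enc_norm (enc_subr 1 100000000 (enc_neg (enc_scale 11 3000000 (enc_subr 251 400 h1)))))⟩
noncomputable def kFd2g : Fn1 := ⟨_, _, fun h1 => (enc_norm (enc_sub (enc_rat _ 1958819 1000000) (enc_scale 978113 100000 (enc_subr 251 400 h1))))⟩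
noncomputable def kFd3 : Fn1 := ⟨_, _, fun h1 => (enc_norm (enc_subr 1 5000000 (enc_neg (enc_scale 1 500000 (enc_subr 251 400 h1)))))⟩
noncomputable def kFd3g : Fn1 := ⟨_, _, fun h1 => (enc_norm (enc_subr 1693521 250000 (enc_neg (enc_scale 24401 12500 (enc_subr 251 400 h1)))))⟩
noncomputable def kFe0 : Fn1 := ⟨_, _, fun h1 => (enc_norm (enc_sub (enc_rat _ 11 50000000) (enc_scale 37 15000000 (enc_subr 251 400 h1))))⟩
noncomputable def kFe0g : Fn1 := ⟨_, _, fun h1 => (enc_norm (enc_subr 545163 500000 (enc_neg (enc_scale 13007 25000 (enc_subr 251 400 h1)))))⟩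
noncomputable def kFe1 : Fn1 := ⟨_, _, fun h1 => (enc_norm (enc_add (enc_scale 1 400000 (enc_subr 251 400 h1)) (enc_rat _ 1 7500000)))⟩
noncomputable def kFe1g : Fn1 := ⟨_, _, fun h1 => (enc_norm (enc_add (enc_scale 11239 2500 (enc_subr 251 400 h1)) (enc_rat _ 175673 1000000)))⟩
noncomputable def kFe2 : Fn1 := ⟨_, _, fun h1 => (enc_norm (enc_subr 1 100000000 (enc_neg (enc_scale 11 3000000 (enc_subr 251 400 h1)))))⟩
noncomputable def kFe2g : Fn1 := ⟨_, _, fun h1 => (enc_norm (enc_sub (enc_rat _ 1958819 1000000) (enc_scale 978113 100000 (enc_subr 251 400 h1))))⟩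
noncomputable def kFe3 : Fn1 := ⟨_, _, fun h1 => (enc_norm (enc_subr 1 10000000 (enc_neg (enc_scale 1 1000000 (enc_subr 251 400 h1)))))⟩
noncomputable def kFe3g : Fn1 := ⟨_, _, fun h1 => (enc_norm (enc_subr 1693521 500000 (enc_neg (enc_scale 24401 25000 (enc_subr 251 400 h1)))))⟩
noncomputable def cFxs1 : Fn1 := ⟨_, _, fun h1 => (enc_norm (enc_add (enc_scale 23 25 (dgxi.enc h1)) (enc_scale 2 25 (dgws.enc h1))))⟩
noncomputable def cFsB1_3 : Fn2 := ⟨_, _, fun h1 h2 => (enc_mul h1 (dgxi.enc h1))⟩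
noncomputable def cFsB1_9 : Fn2 := ⟨_, _, fun h1 h2 => (enc_subr 251 400 h2)⟩
noncomputable def cFsB1_20 : Fn2 := ⟨_, _, fun h1 h2 => (enc_inv h1)⟩
noncomputable def cFsB1 : Fn2 := ⟨_, _, fun h1 h2 => (enc_norm (enc_case (enc_sub (enc_rat _ 1 20) (cFsB1_3.enc h1 h2)) (enc_case (enc_sub (enc_rat _ 1 10) (cFsB1_3.enc h1 h2)) (enc_subr 4994127 2500000 (enc_sub (enc_mul (enc_norm (enc_add (enc_scale 573 25000 (cFsB1_9.enc h1 h2)) (enc_rat _ 14627 200000))) (cFsB1_20.enc h1 h2)) (enc_mul (enc_norm (enc_subr 7403 50000 (enc_scale 6261 5000 (cFsB1_9.enc h1 h2)))) (dgxi.enc h1)))) (enc_subr 4994127 2500000 (enc_sub (enc_mul (enc_norm (enc_add (enc_scale 489 12500 (cFsB1_9.enc h1 h2)) (enc_rat _ 19569 1000000))) (cFsB1_20.enc h1 h2)) (enc_mul (enc_norm (enc_subr 17093 25000 (enc_scale 7071 5000 (cFsB1_9.enc h1 h2)))) (dgxi.enc h1))))) (enc_subr 4994127 2500000 (enc_neg (enc_mul (enc_norm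 (enc_subr 10751 10000 (enc_scale 3159 5000 (cFsB1_9.enc h1 h2)))) (dgxi.enc h1))))))⟩
noncomputable def cFBs1 : Fn2 := ⟨_, _, fun h1 h2 => (cFsB1.enc h1 h2)⟩
noncomputable def cFsX1_3 : Fn2 := ⟨_, _, fun h1 h2 => (enc_mul h1 (dgxi.enc h1))⟩
noncomputable def cFsX1_9 : Fn2 := ⟨_, _, fun h1 h2 => (enc_subr 251 400 h2)⟩
noncomputable def cFsX1_22 : Fn2 := ⟨_, _, fun h1 h2 => (enc_inv h1)⟩
noncomputable def cFsX1 : Fn2 := ⟨_, _, fun h1 h2 => (enc_norm (enc_case (enc_sub (enc_rat _ 1 20) (cFsX1_3.enc h1 h2)) (enc_case (enc_sub (enc_rat _ 1 10) (cFsX1_3.enc h1 h2)) (enc_sub (enc_mul (enc_norm (enc_sub (enc_rat _ 11657697006792133 232320522350000000) (enc_scale 11679535433 2113926500000 (cFsX1_9.enc h1 h2)))) (cFsX1_22.enc h1 h2)) (enc_mul (enc_norm (enc_add (enc_scale 18409 5000 (cFsX1_9.enc h1 h2)) (enc_rat _ 11983 12500))) (dgxi.enc h1))) (enc_sub (enc_mul (enc_norm (enc_sub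 (enc_rat _ 3168705120123133 232320522350000000) (enc_scale 21234483213 2113926500000 (cFsX1_9.enc h1 h2)))) (cFsX1_22.enc h1 h2)) (enc_mul (enc_norm (enc_add (enc_scale 18183 5000 (cFsX1_9.enc h1 h2)) (enc_rat _ 14831 25000))) (dgxi.enc h1)))) (enc_neg (enc_mul (enc_norm (enc_add (enc_scale 101402434677 26424081250 (cFsX1_9.enc h1 h2)) (enc_rat _ 3722386213822567 11616026117500000))) (dgxi.enc h1)))))⟩
noncomputable def cFsD1 : Fn2 := ⟨_, _, fun h1 h2 => (enc_norm (enc_neg (enc_mul (enc_norm (enc_sub (enc_rat _ 17249 125000) (enc_scale 79277 12500 (enc_subr 251 400 h2)))) (dgxi.enc h1))))⟩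
noncomputable def cFsDD1 : Fn2 := ⟨_, _, fun h1 h2 => (cFsD1.enc h1 h2)⟩
noncomputable def cFxs2 : Fn1 := ⟨_, _, fun h1 => (enc_norm (enc_add (enc_scale 3 4 (dgxi.enc h1)) (enc_scale 1 4 (dgws.enc h1))))⟩
noncomputable def cFsB2_3 : Fn2 := ⟨_, _, fun h1 h2 => (enc_mul h1 (dgxi.enc h1))⟩
noncomputable def cFsB2_9 : Fn2 := ⟨_, _, fun h1 h2 => (enc_subr 251 400 h2)⟩
noncomputable def cFsB2_24 : Fn2 := ⟨_, _, fun h1 h2 => (enc_inv h1)⟩
noncomputable def cFsB2 : Fn2 := ⟨_, _, fun h1 h2 => (enc_norm (enc_case (enc_sub (enc_rat _ 1 20) (cFsB2_3.enc h1 h2)) (enc_case (enc_sub (enc_rat _ 1 10) (cFsB2_3.enc h1 h2)) (enc_sub (enc_mul (enc_norm (enc_sub (enc_rat _ 36569 500000) (enc_scale 7187 50000 (cFsB2_9.enc h1 h2)))) (cFsB2_24.enc h1 h2)) (enc_mul (enc_norm (enc_sub (enc_rat _ 29999 25000) (enc_scale 721 1250 (cFsB2_9.enc h1 h2)))) (dgxi.enc h1))) (enc_sub (enc_mul (enc_norm (enc_sub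 (enc_rat _ 653 100000) (enc_scale 1061 50000 (cFsB2_9.enc h1 h2)))) (cFsB2_24.enc h1 h2)) (enc_mul (enc_norm (enc_add (enc_scale 1621 2500 (cFsB2_9.enc h1 h2)) (enc_rat _ 13347 25000))) (dgxi.enc h1)))) (enc_neg (enc_mul (enc_norm (enc_add (enc_scale 1341 1250 (cFsB2_9.enc h1 h2)) (enc_rat _ 5041 12500))) (dgxi.enc h1)))))⟩
noncomputable def cFBs2 : Fn2 := ⟨_, _, fun h1 h2 => (cFsB2.enc h1 h2)⟩
noncomputable def cFsX2_3 : Fn2 := ⟨_, _, fun h1 h2 => (enc_mul h1 (dgxi.enc h1))⟩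
noncomputable def cFsX2_9 : Fn2 := ⟨_, _, fun h1 h2 => (enc_subr 251 400 h2)⟩
noncomputable def cFsX2_22 : Fn2 := ⟨_, _, fun h1 h2 => (enc_inv h1)⟩
noncomputable def cFsX2 : Fn2 := ⟨_, _, fun h1 h2 => (enc_norm (enc_case (enc_sub (enc_rat _ 1 20) (cFsX2_3.enc h1 h2)) (enc_case (enc_sub (enc_rat _ 1 10) (cFsX2_3.enc h1 h2)) (enc_sub (enc_mul (enc_norm (enc_sub (enc_rat _ 23919 1000000) (enc_scale 27 20000 (cFsX2_9.enc h1 h2)))) (cFsX2_22.enc h1 h2)) (enc_mul (enc_norm (enc_add (enc_scale 2959 1000 (cFsX2_9.enc h1 h2)) (enc_rat _ 2853 5000))) (dgxi.enc h1))) (enc_sub (enc_mul (enc_norm (enc_add (enc_scale 1 100000 (cFsX2_9.enc h1 h2)) (enc_rat _ 6123 1000000))) (cFsX2_22.enc h1 h2)) (enc_mul (enc_norm (enc_add (enc_scale 14863 5000 (cFsX2_9.enc h1 h2)) (enc_rat _ 1227 3125))) (dgxi.enc h1)))) (enc_neg (enc_mul (enc_norm (enc_add (enc_scale 7431 2500 (cFsX2_9.enc h1 h2)) (enc_rat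 _ 13509 50000))) (dgxi.enc h1)))))⟩
noncomputable def cFsD2 : Fn2 := ⟨_, _, fun h1 h2 => (enc_norm (enc_neg (enc_mul (enc_norm (enc_sub (enc_rat _ 35411 250000) (enc_scale 88093 12500 (enc_subr 251 400 h2)))) (dgxi.enc h1))))⟩
noncomputable def cFsDD2 : Fn2 := ⟨_, _, fun h1 h2 => (cFsD2.enc h1 h2)⟩
noncomputable def cFxs3 : Fn1 := ⟨_, _, fun h1 => (enc_norm (enc_add (enc_half (dgxi.enc h1)) (enc_half (dgws.enc h1))))⟩
noncomputable def cFsB3_3 : Fn2 := ⟨_, _, fun h1 h2 => (enc_mul h1 (dgxi.enc h1))⟩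
noncomputable def cFsB3_9 : Fn2 := ⟨_, _, fun h1 h2 => (enc_subr 251 400 h2)⟩
noncomputable def cFsB3_24 : Fn2 := ⟨_, _, fun h1 h2 => (enc_inv h1)⟩
noncomputable def cFsB3 : Fn2 := ⟨_, _, fun h1 h2 => (enc_norm (enc_case (enc_sub (enc_rat _ 1 20) (cFsB3_3.enc h1 h2)) (enc_case (enc_sub (enc_rat _ 1 10) (cFsB3_3.enc h1 h2)) (enc_sub (enc_mul (enc_norm (enc_sub (enc_rat _ 51291 1000000) (enc_scale 17633 50000 (cFsB3_9.enc h1 h2)))) (cFsB3_24.enc h1 h2)) (enc_mul (enc_norm (enc_sub (enc_rat _ 55869 50000) (enc_scale 6497 2500 (cFsB3_9.enc h1 h2)))) (dgxi.enc h1))) (enc_sub (enc_mul (enc_norm (enc_sub (enc_rat _ 7427 1000000) (enc_scale 1 16 (cFsB3_9.enc h1 h2)))) (cFsB3_24.enc h1 h2)) (enc_mul (enc_norm (enc_add (enc_scale 757 2500 (cFsB3_9.enc h1 h2)) (enc_rat _ 33937 50000))) (dgxi.enc h1)))) (enc_neg (enc_mul (enc_norm (enc_add (enc_scale 1941 1250 (cFsB3_9.enc h1 h2)) (enc_rat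 _ 2651 5000))) (dgxi.enc h1)))))⟩
noncomputable def cFBs3 : Fn2 := ⟨_, _, fun h1 h2 => (cFsB3.enc h1 h2)⟩
noncomputable def cFsX3_3 : Fn2 := ⟨_, _, fun h1 h2 => (enc_mul h1 (dgxi.enc h1))⟩
noncomputable def cFsX3_9 : Fn2 := ⟨_, _, fun h1 h2 => (enc_subr 251 400 h2)⟩
noncomputable def cFsX3_20 : Fn2 := ⟨_, _, fun h1 h2 => (enc_inv h1)⟩
noncomputable def cFsX3 : Fn2 := ⟨_, _, fun h1 h2 => (enc_norm (enc_case (enc_sub (enc_rat _ 1 20) (cFsX3_3.enc h1 h2)) (enc_case (enc_sub (enc_rat _ 1 10) (cFsX3_3.enc h1 h2)) (enc_sub (enc_mul (enc_norm (enc_add (enc_scale 6057 100000 (cFsX3_9.enc h1 h2)) (enc_rat _ 4353 500000))) (cFsX3_20.enc h1 h2)) (enc_mul (enc_norm (enc_add (enc_scale 1927 625 (cFsX3_9.enc h1 h2)) (enc_rat _ 14347 50000))) (dgxi.enc h1))) (enc_sub (enc_mul (enc_norm (enc_add (enc_scale 3403 100000 (cFsX3_9.enc h1 h2)) (enc_rat _ 647 500000))) (cFsX3_20.enc h1 h2)) (enc_mul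 (enc_norm (enc_add (enc_scale 14089 5000 (cFsX3_9.enc h1 h2)) (enc_rat _ 10641 50000))) (dgxi.enc h1)))) (enc_neg (enc_mul (enc_norm (enc_add (enc_scale 5343 2500 (cFsX3_9.enc h1 h2)) (enc_rat _ 9347 50000))) (dgxi.enc h1)))))⟩
noncomputable def cFsD3 : Fn2 := ⟨_, _, fun h1 h2 => (enc_norm (enc_neg (enc_mul (enc_norm (enc_sub (enc_rat _ 6443 125000) (enc_scale 130953 25000 (enc_subr 251 400 h2)))) (dgxi.enc h1))))⟩
noncomputable def cFsDD3 : Fn2 := ⟨_, _, fun h1 h2 => (cFsD3.enc h1 h2)⟩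
noncomputable def cFxs4 : Fn1 := ⟨_, _, fun h1 => (enc_norm (enc_add (enc_scale 3 20 (dgxi.enc h1)) (enc_scale 17 20 (dgws.enc h1))))⟩
noncomputable def cFsB4_3 : Fn2 := ⟨_, _, fun h1 h2 => (enc_mul h1 (dgxi.enc h1))⟩
noncomputable def cFsB4_9 : Fn2 := ⟨_, _, fun h1 h2 => (enc_subr 251 400 h2)⟩
noncomputable def cFsB4_22 : Fn2 := ⟨_, _, fun h1 h2 => (enc_inv h1)⟩
noncomputable def cFsB4 : Fn2 := ⟨_, _, fun h1 h2 => (enc_norm (enc_case (enc_sub (enc_rat _ 1 20) (cFsB4_3.enc h1 h2)) (enc_case (enc_sub (enc_rat _ 1 10) (cFsB4_3.enc h1 h2)) (enc_sub (enc_mul (enc_norm (enc_sub (enc_rat _ 5609 1000000) (enc_scale 4231 20000 (cFsB4_9.enc h1 h2)))) (cFsB4_22.enc h1 h2)) (enc_mul (enc_norm (enc_add (enc_scale 263 5000 (cFsB4_9.enc h1 h2)) (enc_rat _ 6351 10000))) (dgxi.enc h1))) (enc_sub (enc_mul (enc_norm (enc_sub (enc_rat _ 1671 1000000) (enc_scale 7417 100000 (cFsB4_9.enc h1 h2))))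 (cFsB4_22.enc h1 h2)) (enc_mul (enc_norm (enc_add (enc_scale 1783 1250 (cFsB4_9.enc h1 h2)) (enc_rat _ 14893 25000))) (dgxi.enc h1)))) (enc_neg (enc_mul (enc_norm (enc_add (enc_scale 14549 5000 (cFsB4_9.enc h1 h2)) (enc_rat _ 5623 10000))) (dgxi.enc h1)))))⟩
noncomputable def cFBs4 : Fn2 := ⟨_, _, fun h1 h2 => (cFsB4.enc h1 h2)⟩
noncomputable def cFsX4_3 : Fn2 := ⟨_, _, fun h1 h2 => (enc_mul h1 (dgxi.enc h1))⟩
noncomputable def cFsX4_9 : Fn2 := ⟨_, _, fun h1 h2 => (enc_subr 251 400 h2)⟩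
noncomputable def cFsX4_20 : Fn2 := ⟨_, _, fun h1 h2 => (enc_inv h1)⟩
noncomputable def cFsX4 : Fn2 := ⟨_, _, fun h1 h2 => (enc_norm (enc_case (enc_sub (enc_rat _ 1 20) (cFsX4_3.enc h1 h2)) (enc_case (enc_sub (enc_rat _ 1 10) (cFsX4_3.enc h1 h2)) (enc_sub (enc_mul (enc_norm (enc_subr 1527 500000 (enc_scale 10163 50000 (cFsX4_9.enc h1 h2)))) (cFsX4_20.enc h1 h2)) (enc_mul (enc_norm (enc_add (enc_scale 7797 2500 (cFsX4_9.enc h1 h2)) (enc_rat _ 553 50000))) (dgxi.enc h1))) (enc_sub (enc_mul (enc_norm (enc_subr 993 500000 (enc_scale 6901 50000 (cFsX4_9.enc h1 h2)))) (cFsX4_20.enc h1 h2)) (enc_mul (enc_norm (enc_add (enc_scale 3083 1250 (cFsX4_9.enc h1 h2)) (enc_rat _ 1087 50000))) (dgxi.enc h1)))) (enc_neg (enc_mul (enc_norm (enc_sub (enc_rat _ 3073 50000) (enc_scale 147 500 (cFsX4_9.enc h1 h2)))) (dgxi.enc h1)))))⟩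
noncomputable def cFsD4 : Fn2 := ⟨_, _, fun h1 h2 => (enc_norm (enc_neg (enc_mul (enc_norm (enc_subr 7599 125000 (enc_neg (enc_scale 63029 25000 (enc_subr 251 400 h2))))) (dgxi.enc h1))))⟩
noncomputable def cFsDD4 : Fn2 := ⟨_, _, fun h1 h2 => (cFsD4.enc h1 h2)⟩
noncomputable def nFsc4 : Fn1 := ⟨_, _, fun h1 => (enc_scale 17 20 h1)⟩
noncomputable def nFB4_3 : Fn2 := ⟨_, _, fun h1 h2 => (enc_subr 251 400 h2)⟩
noncomputable def nFB4 : Fn2 := ⟨_, _, fun h1 h2 => (enc_norm (enc_sub (enc_subr 299647 1000000 (enc_neg (enc_scale 1548609 100000 (nFB4_3.enc h1 h2)))) (enc_mul (dgw.enc h1) (enc_norm (enc_subr 43747 120000 (enc_neg (enc_scale 249389 12000 (nFB4_3.enc h1 h2))))))))⟩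
noncomputable def nFX4_3 : Fn2 := ⟨_, _, fun h1 h2 => (enc_subr 251 400 h2)⟩
noncomputable def nFX4 : Fn2 := ⟨_, _, fun h1 h2 => (enc_norm (enc_sub (enc_add (enc_scale 127331 50000 (nFX4_3.enc h1 h2)) (enc_rat _ 21061 50000)) (enc_mul (dgw.enc h1) (enc_norm (enc_subr 2597 15000 (enc_scale 75079 12000 (nFX4_3.enc h1 h2)))))))⟩
noncomputable def nFD4_3 : Fn2 := ⟨_, _, fun h1 h2 => (enc_subr 251 400 h2)⟩
noncomputable def nFD4 : Fn2 := ⟨_, _, fun h1 h2 => (enc_norm (enc_sub (enc_sub (enc_rat _ 999999 250000) (enc_scale 363687 100000 (nFD4_3.enc h1 h2))) (enc_mul (dgw.enc h1) (enc_norm (enc_sub (enc_rat _ 105057 125000) (enc_scale 514181 50000 (nFD4_3.enc h1 h2)))))))⟩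
noncomputable def nFsc5 : Fn1 := ⟨_, _, fun h1 => (enc_norm (enc_add (enc_scale 3 4 h1) (enc_rat _ 1 4)))⟩
noncomputable def nFB5 : Fn2 := ⟨_, _, fun h1 h2 => (enc_norm (enc_subr 18097500 22627417 (enc_neg (enc_scale 506399000 67882251 (enc_subr 251 400 h2)))))⟩
noncomputable def nFX5 : Fn2 := ⟨_, _, fun h1 h2 => (enc_norm (enc_sub (enc_rat _ 6279873 22627417) (enc_scale 36365185 22627417 (enc_subr 251 400 h2))))⟩
noncomputable def nFD5 : Fn2 := ⟨_, _, fun h1 h2 => (enc_norm (enc_add (enc_scale 14392605601 3335713003 (enc_subr 251 400 h2)) (enc_rat _ 185531509573 66714260060)))⟩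
noncomputable def nFsc6 : Fn1 := ⟨_, _, fun h1 => (enc_norm (enc_add (enc_half h1) (enc_rat _ 1 2)))⟩
noncomputable def nFB6 : Fn2 := ⟨_, _, fun h1 h2 => (enc_norm (enc_subr 92373250 147732867 (enc_neg (enc_scale 266405000 147732867 (enc_subr 251 400 h2)))))⟩
noncomputable def nFX6 : Fn2 := ⟨_, _, fun h1 h2 => (enc_norm (enc_sub (enc_rat _ 92210095 295465734) (enc_scale 72706975 32829526 (enc_subr 251 400 h2))))⟩
noncomputable def nFD6 : Fn2 := ⟨_, _, fun h1 h2 => (enc_norm (enc_add (enc_scale 9416727500 2004876867 (enc_subr 251 400 h2)) (enc_rat _ 2731230500 2004876867)))⟩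
noncomputable def nFsc7 : Fn1 := ⟨_, _, fun h1 => (enc_norm (enc_add (enc_scale 1 4 h1) (enc_rat _ 3 4)))⟩
noncomputable def nFB7 : Fn2 := ⟨_, _, fun h1 h2 => (enc_norm (enc_subr 81483500 147732867 (enc_neg (enc_scale 8990000 49244289 (enc_subr 251 400 h2)))))⟩
noncomputable def nFX7 : Fn2 := ⟨_, _, fun h1 h2 => (enc_norm (enc_sub (enc_rat _ 100257595 295465734) (enc_scale 948237775 295465734 (enc_subr 251 400 h2))))⟩
noncomputable def nFD7 : Fn2 := ⟨_, _, fun h1 h2 => (enc_norm (enc_add (enc_scale 10267752500 2004876867 (enc_subr 251 400 h2)) (enc_rat _ 364522750 668292289)))⟩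
noncomputable def l12F : List Knk := [⟨1, 20, kFc0, kFc0g⟩, ⟨1, 10, kFc1, kFc1g⟩]
noncomputable def laF : List Knk := [⟨3, 100, kFa0, kFa0g⟩, ⟨3, 50, kFa1, kFa1g⟩, ⟨1, 10, kFa2, kFa2g⟩]
noncomputable def lbF : List Knk := [⟨3, 50, kFb0, kFb0g⟩, ⟨11, 100, kFb1, kFb1g⟩]
noncomputable def l1F : List Knk := [⟨3, 100, kFe0, kFe0g⟩, ⟨3, 50, kFe1, kFe1g⟩, ⟨1, 10, kFe2, kFe2g⟩, ⟨11, 100, kFe3, kFe3g⟩]
noncomputable def l2F : List Knk := [⟨3, 100, kFd0, kFd0g⟩, ⟨3, 50, kFd1, kFd1g⟩, ⟨1, 10, kFd2, kFd2g⟩, ⟨11, 100, kFd3, kFd3g⟩]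
noncomputable def cvF1 : CvP := ⟨cFxs1, cFBs1, cFsX1⟩
noncomputable def cvF2 : CvP := ⟨cFxs2, cFBs2, cFsX2⟩
noncomputable def cvF3 : CvP := ⟨cFxs3, cFBs3, cFsX3⟩
noncomputable def cvF4 : CvP := ⟨cFxs4, cFBs4, cFsX4⟩
noncomputable def ndF4 : NdU := ⟨nFsc4, nFB4, nFX4, nFD4⟩
noncomputable def ndF5 : NdU := ⟨nFsc5, nFB5, nFX5, nFD5⟩
noncomputable def ndF6 : NdU := ⟨nFsc6, nFB6, nFX6, nFD6⟩
noncomputable def ndF7 : NdU := ⟨nFsc7, nFB7, nFX7, nFD7⟩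
noncomputable def pF : Pm := ⟨pFma, pFmb, pFmu, pFnx, pFc0, pFkc, pFjc, pFkc, pFjc, pFkc, pFjc, pFca, pFcb, pFcc, pFcc, pFcc, pFsv, l12F, l12F, l12F, laF, lbF, l1F, l2F, cvF1, pFx11, pFx01, pFK11, pFK01, pFL11, pFL01⟩
noncomputable def pNc0 : Fn1 := ⟨_, _, fun h1 => (eng.enc h1)⟩
noncomputable def pNkc : Fn1 := ⟨_, _, fun h1 => (enc_norm (enc_mul (pNc0.enc h1) (enc_norm (enc_add (enc_scale 1164847 2500000 (enc_subr 251 400 h1)) (enc_rat _ 13309083 100000000)))))⟩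
noncomputable def pNjc : Fn1 := ⟨_, _, fun h1 => (enc_norm (enc_mul (pNc0.enc h1) (enc_norm (enc_subr 3320997 1250000 (enc_scale 1361629 1000000 (enc_subr 251 400 h1))))))⟩
noncomputable def pNcc : Fn1 := ⟨_, _, fun h1 => (enc_norm (enc_mul (pNc0.enc h1) (enc_norm (enc_sub (enc_rat _ 9100759 250000) (enc_scale 680717 50000 (enc_subr 251 400 h1))))))⟩
noncomputable def pNK11 : Fn2 := ⟨_, _, fun h1 h2 => (enc_norm (enc_mul (pNc0.enc h2) (kf1q1.enc h1 h2)))⟩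
noncomputable def pNK01 : Fn2 := ⟨_, _, fun h1 h2 => (enc_norm (enc_mul (pNc0.enc h2) (kf0q1.enc h1 h2)))⟩
noncomputable def kNc0 : Fn1 := ⟨_, _, fun h1 => (enc_norm (enc_mul (pNc0.enc h1) (enc_norm (enc_add (enc_scale 3 2000000 (enc_subr 251 400 h1)) (enc_rat _ 7 20000000)))))⟩
noncomputable def kNc0g : Fn1 := ⟨_, _, fun h1 => (enc_norm (enc_mul (pNc0.enc h1) (enc_norm (enc_subr 6369959 200000 (enc_scale 1361413 100000 (enc_subr 251 400 h1))))))⟩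
noncomputable def kNc1 : Fn1 := ⟨_, _, fun h1 => (enc_norm (enc_mul (pNc0.enc h1) (enc_norm (enc_subr 1 4000000 (enc_neg (enc_scale 1 500000 (enc_subr 251 400 h1)))))))⟩
noncomputable def kNc1g : Fn1 := ⟨_, _, fun h1 => (enc_norm (enc_mul (pNc0.enc h1) (enc_norm (enc_sub (enc_rat _ 9227811 1000000) (enc_scale 19 10000 (enc_subr 251 400 h1))))))⟩
noncomputable def cNBs1 : Fn2 := ⟨_, _, fun h1 h2 => (enc_norm (enc_mul (pNc0.enc h2) (cFsB1.enc h1 h2)))⟩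
noncomputable def cNBs2 : Fn2 := ⟨_, _, fun h1 h2 => (enc_norm (enc_mul (pNc0.enc h2) (cFsB2.enc h1 h2)))⟩
noncomputable def cNBs3 : Fn2 := ⟨_, _, fun h1 h2 => (enc_norm (enc_mul (pNc0.enc h2) (cFsB3.enc h1 h2)))⟩
noncomputable def cNBs4 : Fn2 := ⟨_, _, fun h1 h2 => (enc_norm (enc_mul (pNc0.enc h2) (cFsB4.enc h1 h2)))⟩
noncomputable def nNB4_4 : Fn2 := ⟨_, _, fun h1 h2 => (enc_subr 251 400 h2)⟩
noncomputable def nNB4 : Fn2 := ⟨_, _, fun h1 h2 => (enc_norm (enc_mul (pNc0.enc h2) (enc_norm (enc_sub (enc_subr 299647 1000000 (enc_neg (enc_scale 1548609 100000 (nNB4_4.enc h1 h2)))) (enc_mul (dgw.enc h1) (enc_norm (enc_subr 43747 120000 (enc_neg (enc_scale 249389 12000 (nNB4_4.enc h1 h2))))))))))⟩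
noncomputable def nNB5 : Fn2 := ⟨_, _, fun h1 h2 => (enc_norm (enc_mul (pNc0.enc h2) (enc_norm (enc_subr 18097500 22627417 (enc_neg (enc_scale 506399000 67882251 (enc_subr 251 400 h2)))))))⟩
noncomputable def nNB6 : Fn2 := ⟨_, _, fun h1 h2 => (enc_norm (enc_mul (pNc0.enc h2) (enc_norm (enc_subr 92373250 147732867 (enc_neg (enc_scale 266405000 147732867 (enc_subr 251 400 h2)))))))⟩
noncomputable def nNB7 : Fn2 := ⟨_, _, fun h1 h2 => (enc_norm (enc_mul (pNc0.enc h2) (enc_norm (enc_subr 81483500 147732867 (enc_neg (enc_scale 8990000 49244289 (enc_subr 251 400 h2)))))))⟩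
noncomputable def umo : Fn1 := ⟨_, _, fun h1 => (mog.enc h1)⟩
noncomputable def us1 : Fn1 := ⟨_, _, fun h1 => (enc_norm (enc_subr 34417 80000 (enc_neg (enc_scale 73701 4000 (enc_subr 251 400 h1)))))⟩
noncomputable def us2 : Fn1 := ⟨_, _, fun h1 => (enc_norm (enc_subr 3427 100000 (enc_neg (enc_scale 13531 10000 (enc_subr 251 400 h1)))))⟩
noncomputable def us3 : Fn1 := ⟨_, _, fun h1 => (enc_norm (enc_sub (enc_rat _ 14963 14000) (enc_scale 21401 2800 (enc_subr 251 400 h1))))⟩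
noncomputable def uC11 : Fn2 := ⟨_, _, fun h1 h2 => (kc1q1.enc h1 h2)⟩
noncomputable def uC01 : Fn2 := ⟨_, _, fun h1 h2 => (kc0q1.enc h1 h2)⟩
noncomputable def kNu1_0 : Fn1 := ⟨_, _, fun h1 => (enc_norm (enc_add (enc_scale 16403 500 (enc_subr 251 400 h1)) (enc_rat _ 5529 20000)))⟩
noncomputable def kNu1_0g : Fn1 := ⟨_, _, fun h1 => (enc_pnc _ 0)⟩
noncomputable def kNu2_0 : Fn1 := ⟨_, _, fun h1 => (enc_norm (enc_sub (enc_rat _ 14633 100000) (enc_scale 7513 10000 (enc_subr 251 400 h1))))⟩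
noncomputable def kNu2_0g : Fn1 := ⟨_, _, fun h1 => (enc_pnc _ 0)⟩
noncomputable def l12N : List Knk := [⟨1, 20, kNc0, kNc0g⟩, ⟨1, 10, kNc1, kNc1g⟩]
noncomputable def cvN1 : CvP := ⟨cFxs1, cNBs1, cFsX1⟩
noncomputable def cvN2 : CvP := ⟨cFxs2, cNBs2, cFsX2⟩
noncomputable def cvN3 : CvP := ⟨cFxs3, cNBs3, cFsX3⟩
noncomputable def cvN4 : CvP := ⟨cFxs4, cNBs4, cFsX4⟩
noncomputable def ndN4 : NdU := ⟨nFsc4, nNB4, nFX4, nFD4⟩
noncomputable def ndN5 : NdU := ⟨nFsc5, nNB5, nFX5, nFD5⟩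
noncomputable def ndN6 : NdU := ⟨nFsc6, nNB6, nFX6, nFD6⟩
noncomputable def ndN7 : NdU := ⟨nFsc7, nNB7, nFX7, nFD7⟩
noncomputable def pN : Pm := ⟨pFma, pFmb, pFmu, pFnx, pNc0, pNkc, pNjc, pNkc, pNjc, pNkc, pNjc, pFca, pFcb, pNcc, pNcc, pNcc, pFsv, l12N, l12N, l12N, laF, lbF, l1F, l2F, cvN1, pFx11, pFx01, pNK11, pNK01, pFL11, pFL01⟩
noncomputable def ul1 : List Knk := [⟨2, 25, kNu1_0, kNu1_0g⟩]
noncomputable def ul2 : List Knk := [⟨1, 10, kNu2_0, kNu2_0g⟩]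
noncomputable def ul3 : List Knk := []
noncomputable def qN : Pu := ⟨umo, us1, us2, us3, ul1, ul2, ul3, cFsDD1, uC11, uC01⟩

end Pool.Agent.Strip051.G.I6050_6500.Tab.DG
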