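import Pool.Agent.Strip051.G.I6050_6500.Fs

/-! # Certificates at the floor (generated) -/

set_option linter.all false

namespace Pool.Agent.Strip051.G.I6050_6500.Tab

open Pool.Agent.Strip051.PB

theorem cA_m00 : CertNd 0 536870912 649613803 48318383 (ftMono true 0 mZ) [] ndB0q0 cZ :=
  certNd (T := (ftMono true 0 mZ)) (L := []) (P1 := 0) (W1 := 536870912) (P3 := 649613803) (W3 := 48318383) (n := ndB0q0) (c := cZ)
    ⟨T.a (T.l 0) (T.l 0),
      by decide +kernel⟩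
theorem cA_m01 : CertNd 536870912 536870912 649613803 48318383 (ftMono true 1 mZ) [] ndB0q1 cZ :=
  certNd (T := (ftMono true 1 mZ)) (L := []) (P1 := 536870912) (W1 := 536870912) (P3 := 649613803) (W3 := 48318383) (n := ndB0q1) (c := cZ)
    ⟨T.a (T.a (T.l 0) (T.l 0)) (T.a (T.l 0) (T.l 0)),
      by decide +kernel⟩
theorem cA_g00 : CertGe 0 41875931 649613803 48318383 true [] (((2 : ℕ) : ℝ) / ((1 : ℕ) : ℝ)) 0 ((0 : ℕ) : ℝ)
    (((2 : ℕ) : ℝ) / 2) mZ ndB0q0 cZ :=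
  certGe (z := true) (L := []) (P1 := 0) (W1 := 41875931) (P3 := 649613803) (W3 := 48318383) (oa := 2) (ob := 1)
    (q := 0) (bb := 0) (hB := 2) (M := mZ) (n := ndB0q0) (c := cZ) (sX := c1g_fs) (sK := kf0q0_fs)
    (sL := l0q0_fs) ⟨T.l 0,
      by decide +kernel⟩
theorem cA_w00a : CertNd 41875931 494994981 649613803 48318383 (ftWall true 0 mZ 1 1) [] ndB0q0 cZ :=
  certNd (T := (ftWall true 0 mZ 1 1)) (L := []) (P1 := 41875931) (W1 := 494994981) (P3 := 649613803) (W3 := 48318383) (n := ndB0q0) (c := cZ)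
    ⟨T.a (T.a (T.a (T.c (T.l 0) (T.l 0)) (T.l 0)) (T.a (T.l 0) (T.l 0))) (T.a (T.a (T.l 0) (T.l 0)) (T.a (T.l 0) (T.l 0))),
      by decide +kernel⟩
theorem cA_w01a : CertNd 536870912 92341796 649613803 48318383 (ftWall true 1 mZ 1 1) [] ndB0q1 cZ :=
  certNd (T := (ftWall true 1 mZ 1 1)) (L := []) (P1 := 536870912) (W1 := 92341796) (P3 := 649613803) (W3 := 48318383) (n := ndB0q1) (c := cZ)
    ⟨T.a (T.c (T.l 0) (T.l 0)) (T.a (T.c (T.l 0) (T.l 0)) (T.c (T.c (T.a (T.l 0) (T.l 0)) (T.l 0)) (T.l 0))),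
      by decide +kernel⟩
theorem cA_w01b : CertNd 718333280 318901322 649613803 48318383 (ftWall true 1 mZ 1 1) [] ndB0q1 cZ :=
  certNd (T := (ftWall true 1 mZ 1 1)) (L := []) (P1 := 718333280) (W1 := 318901322) (P3 := 649613803) (W3 := 48318383) (n := ndB0q1) (c := cZ)
    ⟨T.a (T.a (T.a (T.a (T.c (T.l 0) (T.a (T.c (T.l 0) (T.l 0)) (T.l 0))) (T.c (T.l 0) (T.l 0))) (T.a (T.l 0) (T.l 0))) (T.a (T.l 0) (T.l 0))) (T.a (T.l 0) (T.c (T.l 0) (T.l 0))),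
      by decide +kernel⟩
theorem cA_g01 : CertGe 1037234602 36507222 649613803 48318383 true [] (((2 : ℕ) : ℝ) / ((1 : ℕ) : ℝ)) 1 ((1 : ℕ) : ℝ)
    (((1 : ℕ) : ℝ) / 2) mZ ndB0q1 cZ :=
  certGe (z := true) (L := []) (P1 := 1037234602) (W1 := 36507222) (P3 := 649613803) (W3 := 48318383) (oa := 2) (ob := 1)
    (q := 1) (bb := 1) (hB := 1) (M := mZ) (n := ndB0q1) (c := cZ) (sX := c1g_fs) (sK := kf0q1_fs)
    (sL := l0q1_fs) ⟨T.l 0,
      by decide +kernel⟩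
theorem cA_tl : CertTg 629212708 89120572 649613803 48318383 (ftTf true dlg) [⟨6, 0⟩] :=
  certTg (T := (ftTf true dlg)) (L := [⟨6, 0⟩]) (P1 := 629212708) (W1 := 89120572) (P3 := 649613803) (W3 := 48318383)
    ⟨T.l 0,
      by decide +kernel⟩
theorem cA_th : CertTg 629212708 89120572 649613803 48318383 (ftTf false dlg) [⟨5, 0⟩] :=
  certTg (T := (ftTf false dlg)) (L := [⟨5, 0⟩]) (P1 := 629212708) (W1 := 89120572) (P3 := 649613803) (W3 := 48318383)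
    ⟨T.l 0,
      by decide +kernel⟩
theorem cA_m10 : CertNd 0 67108864 649613803 48318383 (ftMono true 0 mZ) [] ndB1q0 cZ :=
  certNd (T := (ftMono true 0 mZ)) (L := []) (P1 := 0) (W1 := 67108864) (P3 := 649613803) (W3 := 48318383) (n := ndB1q0) (c := cZ)
    ⟨T.l 0,
      by decide +kernel⟩
theorem cA_g10 : CertGe 0 67108864 649613803 48318383 true [] (((2 : ℕ) : ℝ) / ((1 : ℕ) : ℝ)) 0 ((0 : ℕ) : ℝ)
    (((2 : ℕ) : ℝ) / 2) mZ ndB1q0 cZ :=
  certGe (z := true) (L := []) (P1 := 0) (W1 := 67108864) (P3 := 649613803) (W3 := 48318383) (oa := 2) (ob := 1)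
    (q := 0) (bb := 0) (hB := 2) (M := mZ) (n := ndB1q0) (c := cZ) (sX := cv1m_fs) (sK := kf1q0_fs)
    (sL := l1q0_fs) ⟨T.l 0,
      by decide +kernel⟩
theorem cA_w10 : CertNd 67108864 469762048 649613803 48318383 (ftWall true 0 mZ 1 1) [] ndB1q0 cZ :=
  certNd (T := (ftWall true 0 mZ 1 1)) (L := []) (P1 := 67108864) (W1 := 469762048) (P3 := 649613803) (W3 := 48318383) (n := ndB1q0) (c := cZ)
    ⟨T.a (T.a (T.l 0) (T.l 0)) (T.l 0),
      by decide +kernel⟩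
theorem cA_w11 : CertNd 536870912 536870912 649613803 48318383 (ftWall true 1 mZ 1 1) [] ndB1q1 cZ :=
  certNd (T := (ftWall true 1 mZ 1 1)) (L := []) (P1 := 536870912) (W1 := 536870912) (P3 := 649613803) (W3 := 48318383) (n := ndB1q1) (c := cZ)
    ⟨T.a (T.a (T.l 0) (T.l 0)) (T.a (T.l 0) (T.l 0)),
      by decide +kernel⟩
theorem cA_m20 : CertNd 0 67108864 649613803 48318383 (ftMono true 0 mZ) [] ndB2q0 cZ :=
  certNd (T := (ftMono true 0 mZ)) (L := []) (P1 := 0) (W1 := 67108864) (P3 := 649613803) (W3 := 48318383) (n := ndB2q0) (c := cZ)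
    ⟨T.l 0,
      by decide +kernel⟩
theorem cA_g20 : CertGe 0 67108864 649613803 48318383 true [] (((2 : ℕ) : ℝ) / ((1 : ℕ) : ℝ)) 0 ((0 : ℕ) : ℝ)
    (((2 : ℕ) : ℝ) / 2) mZ ndB2q0 cZ :=
  certGe (z := true) (L := []) (P1 := 0) (W1 := 67108864) (P3 := 649613803) (W3 := 48318383) (oa := 2) (ob := 1)
    (q := 0) (bb := 0) (hB := 2) (M := mZ) (n := ndB2q0) (c := cZ) (sX := cv2m_fs) (sK := kf2q0_fs)
    (sL := l2q0_fs) ⟨T.l 0,
      by decide +kernel⟩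
theorem cA_w20 : CertNd 67108864 469762048 649613803 48318383 (ftWall true 0 mZ 1 1) [] ndB2q0 cZ :=
  certNd (T := (ftWall true 0 mZ 1 1)) (L := []) (P1 := 67108864) (W1 := 469762048) (P3 := 649613803) (W3 := 48318383) (n := ndB2q0) (c := cZ)
    ⟨T.a (T.a (T.l 0) (T.l 0)) (T.l 0),
      by decide +kernel⟩
theorem cA_w21 : CertNd 536870912 536870912 649613803 48318383 (ftWall true 1 mZ 1 1) [] ndB2q1 cZ :=
  certNd (T := (ftWall true 1 mZ 1 1)) (L := []) (P1 := 536870912) (W1 := 536870912) (P3 := 649613803) (W3 := 48318383) (n := ndB2q1) (c := cZ)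
    ⟨T.a (T.l 0) (T.l 0),
      by decide +kernel⟩
theorem cA_m30 : CertNd 0 67108864 649613803 48318383 (ftMono true 0 mZ) [] ndB3q0 cZ :=
  certNd (T := (ftMono true 0 mZ)) (L := []) (P1 := 0) (W1 := 67108864) (P3 := 649613803) (W3 := 48318383) (n := ndB3q0) (c := cZ)
    ⟨T.l 0,
      by decide +kernel⟩
theorem cA_g30 : CertGe 0 67108864 649613803 48318383 true [] (((2 : ℕ) : ℝ) / ((1 : ℕ) : ℝ)) 0 ((0 : ℕ) : ℝ)
    (((2 : ℕ) : ℝ) / 2) mZ ndB3q0 cZ :=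
  certGe (z := true) (L := []) (P1 := 0) (W1 := 67108864) (P3 := 649613803) (W3 := 48318383) (oa := 2) (ob := 1)
    (q := 0) (bb := 0) (hB := 2) (M := mZ) (n := ndB3q0) (c := cZ) (sX := cv3m_fs) (sK := kf3q0_fs)
    (sL := l3q0_fs) ⟨T.l 0,
      by decide +kernel⟩
theorem cA_w30 : CertNd 67108864 469762048 649613803 48318383 (ftWall true 0 mZ 1 1) [] ndB3q0 cZ :=
  certNd (T := (ftWall true 0 mZ 1 1)) (L := []) (P1 := 67108864) (W1 := 469762048) (P3 := 649613803) (W3 := 48318383) (n := ndB3q0) (c := cZ)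
    ⟨T.a (T.a (T.l 0) (T.l 0)) (T.l 0),
      by decide +kernel⟩
theorem cA_w31 : CertNd 536870912 536870912 649613803 48318383 (ftWall true 1 mZ 1 1) [] ndB3q1 cZ :=
  certNd (T := (ftWall true 1 mZ 1 1)) (L := []) (P1 := 536870912) (W1 := 536870912) (P3 := 649613803) (W3 := 48318383) (n := ndB3q1) (c := cZ)
    ⟨T.a (T.l 0) (T.l 0),
      by decide +kernel⟩
theorem cA_m40 : CertNd 0 67108864 649613803 48318383 (ftMono true 0 mZ) [] ndB4q0 cZ :=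
  certNd (T := (ftMono true 0 mZ)) (L := []) (P1 := 0) (W1 := 67108864) (P3 := 649613803) (W3 := 48318383) (n := ndB4q0) (c := cZ)
    ⟨T.l 0,
      by decide +kernel⟩
theorem cA_g40 : CertGe 0 67108864 649613803 48318383 true [] (((2 : ℕ) : ℝ) / ((1 : ℕ) : ℝ)) 0 ((0 : ℕ) : ℝ)
    (((2 : ℕ) : ℝ) / 2) mZ ndB4q0 cZ :=
  certGe (z := true) (L := []) (P1 := 0) (W1 := 67108864) (P3 := 649613803) (W3 := 48318383) (oa := 2) (ob := 1)
    (q := 0) (bb := 0) (hB := 2) (M := mZ) (n := ndB4q0) (c := cZ) (sX := cv4m_fs) (sK := kf4q0_fs)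
    (sL := l4q0_fs) ⟨T.l 0,
      by decide +kernel⟩
theorem cA_w40 : CertNd 67108864 469762048 649613803 48318383 (ftWall true 0 mZ 1 1) [] ndB4q0 cZ :=
  certNd (T := (ftWall true 0 mZ 1 1)) (L := []) (P1 := 67108864) (W1 := 469762048) (P3 := 649613803) (W3 := 48318383) (n := ndB4q0) (c := cZ)
    ⟨T.a (T.a (T.l 0) (T.l 0)) (T.l 0),
      by decide +kernel⟩
theorem cA_w41 : CertNd 536870912 536870912 649613803 48318383 (ftWall true 1 mZ 1 1) [] ndB4q1 cZ :=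
  certNd (T := (ftWall true 1 mZ 1 1)) (L := []) (P1 := 536870912) (W1 := 536870912) (P3 := 649613803) (W3 := 48318383) (n := ndB4q1) (c := cZ)
    ⟨T.a (T.l 0) (T.l 0),
      by decide +kernel⟩
theorem cA_f50 : CertNd 0 37195508 649613803 48318383 (ftFlat true 0 mZ 1 1) [] ndB5q0 cZ :=
  certNd (T := (ftFlat true 0 mZ 1 1)) (L := []) (P1 := 0) (W1 := 37195508) (P3 := 649613803) (W3 := 48318383) (n := ndB5q0) (c := cZ)
    ⟨T.l 0,
      by decide +kernel⟩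
theorem cA_l50 : CertNd 0 37195508 649613803 48318383 (ftWall true 0 mZ 1 1) [⟨3, 1181116007⟩] ndB5q0 cZ :=
  certNd (T := (ftWall true 0 mZ 1 1)) (L := [⟨3, 1181116007⟩]) (P1 := 0) (W1 := 37195508) (P3 := 649613803) (W3 := 48318383) (n := ndB5q0) (c := cZ)
    ⟨T.l 0,
      by decide +kernel⟩
theorem cA_w50 : CertNd 37195507 499675405 649613803 48318383 (ftWall true 0 mZ 1 1) [] ndB5q0 cZ :=
  certNd (T := (ftWall true 0 mZ 1 1)) (L := []) (P1 := 37195507) (W1 := 499675405) (P3 := 649613803) (W3 := 48318383) (n := ndB5q0) (c := cZ)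
    ⟨T.a (T.a (T.l 0) (T.l 0)) (T.a (T.a (T.l 0) (T.l 0)) (T.l 0)),
      by decide +kernel⟩
theorem cA_w51 : CertNd 536870912 536870912 649613803 48318383 (ftWall true 1 mZ 1 1) [] ndB5q1 cZ :=
  certNd (T := (ftWall true 1 mZ 1 1)) (L := []) (P1 := 536870912) (W1 := 536870912) (P3 := 649613803) (W3 := 48318383) (n := ndB5q1) (c := cZ)
    ⟨T.a (T.l 0) (T.l 0),
      by decide +kernel⟩
theorem cA_w52 : CertNd 1073741824 166215235 649613803 48318383 (ftWall true 2 mZ 1 1) [⟨4, 0⟩] ndB5q2 cZ :=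
  certNd (T := (ftWall true 2 mZ 1 1)) (L := [⟨4, 0⟩]) (P1 := 1073741824) (W1 := 166215235) (P3 := 649613803) (W3 := 48318383) (n := ndB5q2) (c := cZ)
    ⟨T.l 0,
      by decide +kernel⟩
theorem cA_f60 : CertNd 0 37195508 649613803 48318383 (ftFlat true 0 mZ 1 1) [] ndB6q0 cZ :=
  certNd (T := (ftFlat true 0 mZ 1 1)) (L := []) (P1 := 0) (W1 := 37195508) (P3 := 649613803) (W3 := 48318383) (n := ndB6q0) (c := cZ)
    ⟨T.l 0,
      by decide +kernel⟩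
theorem cA_l60 : CertNd 0 37195508 649613803 48318383 (ftWall true 0 mZ 1 1) [⟨3, 1181116007⟩] ndB6q0 cZ :=
  certNd (T := (ftWall true 0 mZ 1 1)) (L := [⟨3, 1181116007⟩]) (P1 := 0) (W1 := 37195508) (P3 := 649613803) (W3 := 48318383) (n := ndB6q0) (c := cZ)
    ⟨T.l 1,
      by decide +kernel⟩
theorem cA_w60 : CertNd 37195507 499675405 649613803 48318383 (ftWall true 0 mZ 1 1) [] ndB6q0 cZ :=
  certNd (T := (ftWall true 0 mZ 1 1)) (L := []) (P1 := 37195507) (W1 := 499675405) (P3 := 649613803) (W3 := 48318383) (n := ndB6q0) (c := cZ)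
    ⟨T.a (T.a (T.a (T.l 0) (T.l 0)) (T.l 0)) (T.l 0),
      by decide +kernel⟩
theorem cA_w61 : CertNd 536870912 536870912 649613803 48318383 (ftWall true 1 mZ 1 1) [] ndB6q1 cZ :=
  certNd (T := (ftWall true 1 mZ 1 1)) (L := []) (P1 := 536870912) (W1 := 536870912) (P3 := 649613803) (W3 := 48318383) (n := ndB6q1) (c := cZ)
    ⟨T.a (T.l 0) (T.l 0),
      by decide +kernel⟩
theorem cA_w62 : CertNd 1073741824 166215235 649613803 48318383 (ftWall true 2 mZ 1 1) [⟨4, 0⟩] ndB6q2 cZ :=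
  certNd (T := (ftWall true 2 mZ 1 1)) (L := [⟨4, 0⟩]) (P1 := 1073741824) (W1 := 166215235) (P3 := 649613803) (W3 := 48318383) (n := ndB6q2) (c := cZ)
    ⟨T.l 0,
      by decide +kernel⟩
theorem cA_f70 : CertNd 0 37195508 649613803 48318383 (ftFlat true 0 mZ 1 1) [] ndB7q0 cZ :=
  certNd (T := (ftFlat true 0 mZ 1 1)) (L := []) (P1 := 0) (W1 := 37195508) (P3 := 649613803) (W3 := 48318383) (n := ndB7q0) (c := cZ)
    ⟨T.l 0,
      by decide +kernel⟩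
theorem cA_l70 : CertNd 0 37195508 649613803 48318383 (ftWall true 0 mZ 1 1) [⟨3, 1181116007⟩] ndB7q0 cZ :=
  certNd (T := (ftWall true 0 mZ 1 1)) (L := [⟨3, 1181116007⟩]) (P1 := 0) (W1 := 37195508) (P3 := 649613803) (W3 := 48318383) (n := ndB7q0) (c := cZ)
    ⟨T.l 1,
      by decide +kernel⟩
theorem cA_w70 : CertNd 37195507 499675405 649613803 48318383 (ftWall true 0 mZ 1 1) [] ndB7q0 cZ :=
  certNd (T := (ftWall true 0 mZ 1 1)) (L := []) (P1 := 37195507) (W1 := 499675405) (P3 := 649613803) (W3 := 48318383) (n := ndB7q0) (c := cZ)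
    ⟨T.a (T.a (T.a (T.c (T.l 0) (T.a (T.l 0) (T.l 0))) (T.l 0)) (T.l 0)) (T.l 0),
      by decide +kernel⟩
theorem cA_w71 : CertNd 536870912 536870912 649613803 48318383 (ftWall true 1 mZ 1 1) [] ndB7q1 cZ :=
  certNd (T := (ftWall true 1 mZ 1 1)) (L := []) (P1 := 536870912) (W1 := 536870912) (P3 := 649613803) (W3 := 48318383) (n := ndB7q1) (c := cZ)
    ⟨T.a (T.l 0) (T.l 0),
      by decide +kernel⟩
theorem cA_w72 : CertNd 1073741824 166215235 649613803 48318383 (ftWall true 2 mZ 1 1) [⟨4, 0⟩] ndB7q2 cZ :=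
  certNd (T := (ftWall true 2 mZ 1 1)) (L := [⟨4, 0⟩]) (P1 := 1073741824) (W1 := 166215235) (P3 := 649613803) (W3 := 48318383) (n := ndB7q2) (c := cZ)
    ⟨T.l 0,
      by decide +kernel⟩
theorem cA_f80 : CertNd 0 37195508 649613803 48318383 (ftFlat true 0 mZ 1 1) [] ndB8q0 cZ :=
  certNd (T := (ftFlat true 0 mZ 1 1)) (L := []) (P1 := 0) (W1 := 37195508) (P3 := 649613803) (W3 := 48318383) (n := ndB8q0) (c := cZ)
    ⟨T.l 0,
      by decide +kernel⟩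
theorem cA_l80 : CertNd 0 37195508 649613803 48318383 (ftWall true 0 mZ 1 1) [⟨3, 1181116007⟩] ndB8q0 cZ :=
  certNd (T := (ftWall true 0 mZ 1 1)) (L := [⟨3, 1181116007⟩]) (P1 := 0) (W1 := 37195508) (P3 := 649613803) (W3 := 48318383) (n := ndB8q0) (c := cZ)
    ⟨T.l 1,
      by decide +kernel⟩
theorem cA_w80 : CertNd 37195507 499675405 649613803 48318383 (ftWall true 0 mZ 1 1) [] ndB8q0 cZ :=
  certNd (T := (ftWall true 0 mZ 1 1)) (L := []) (P1 := 37195507) (W1 := 499675405) (P3 := 649613803) (W3 := 48318383) (n := ndB8q0) (c := cZ)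
    ⟨T.a (T.l 0) (T.l 0),
      by decide +kernel⟩
theorem cA_w81 : CertNd 536870912 536870912 649613803 48318383 (ftWall true 1 mZ 1 1) [] ndB8q1 cZ :=
  certNd (T := (ftWall true 1 mZ 1 1)) (L := []) (P1 := 536870912) (W1 := 536870912) (P3 := 649613803) (W3 := 48318383) (n := ndB8q1) (c := cZ)
    ⟨T.a (T.l 0) (T.l 0),
      by decide +kernel⟩
theorem cA_w82 : CertNd 1073741824 166215235 649613803 48318383 (ftWall true 2 mZ 1 1) [⟨4, 0⟩] ndB8q2 cZ :=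
  certNd (T := (ftWall true 2 mZ 1 1)) (L := [⟨4, 0⟩]) (P1 := 1073741824) (W1 := 166215235) (P3 := 649613803) (W3 := 48318383) (n := ndB8q2) (c := cZ)
    ⟨T.l 0,
      by decide +kernel⟩
theorem cA_ll : CertSd 0 37195508 649613803 48318383 (ftWall true 0 mZ 1 1) [] idF (cnF 1100 1000) pcB0 dZ :=
  certSd (T := (ftWall true 0 mZ 1 1)) (L := []) (P1 := 0) (W1 := 37195508) (P3 := 649613803) (W3 := 48318383) (Y := idF) (X := (cnF 1100 1000))
    (pc := pcB0) (c := dZ) ⟨T.c (T.l 0) (T.l 0),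
      by decide +kernel⟩
theorem cA_st : CertSt 1073741824 27487789 649613803 48318383 true [] (((2 : ℕ) : ℝ) / ((1 : ℕ) : ℝ)) mZ ndB4q2 cZ ndB5q2 cZ :=
  certSt (z := true) (L := []) (P1 := 1073741824) (W1 := 27487789) (P3 := 649613803) (W3 := 48318383) (oa := 2) (ob := 1)
    (M := mZ) (n := ndB4q2) (c := cZ) (n' := ndB5q2) (c' := cZ) (sX := cv4p_fs) (sK := kf4q2_fs) (sL := l4q2_fs)
    ⟨T.l 0,
      by decide +kernel⟩
theorem cA_sm : CertSd 493347248 43523664 649613803 48318383 (ftMono true 2 mZ) [] ygF xsF pcB2 dZ :=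
  certSd (T := (ftMono true 2 mZ)) (L := []) (P1 := 493347248) (W1 := 43523664) (P3 := 649613803) (W3 := 48318383) (Y := ygF) (X := xsF)
    (pc := pcB2) (c := dZ) ⟨T.l 0,
      by decide +kernel⟩
theorem cA_sw : CertSd 0 493347252 649613803 48318383 (ftWall true 2 mZ 1 1) [] ygF xsF pcB2 dZ :=
  certSd (T := (ftWall true 2 mZ 1 1)) (L := []) (P1 := 0) (W1 := 493347252) (P3 := 649613803) (W3 := 48318383) (Y := ygF) (X := xsF)
    (pc := pcB2) (c := dZ) ⟨T.a (T.l 0) (T.a (T.l 0) (T.l 0)),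
      by decide +kernel⟩
theorem cA_h0_01 : CertNd 991880209 78110568 649613803 48318383 (ftHigh true 1 mZ 1 1 200 1100) [] ndB0q1 cZ :=
  certNd (T := (ftHigh true 1 mZ 1 1 200 1100)) (L := []) (P1 := 991880209) (W1 := 78110568) (P3 := 649613803) (W3 := 48318383) (n := ndB0q1) (c := cZ)
    ⟨T.c (T.l 0) (T.l 0),
      by decide +kernel⟩
theorem cA_h0_11 : CertNd 991880209 78110568 649613803 48318383 (ftHigh true 1 mZ 1 1 200 1100) [] ndB1q1 cZ :=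
  certNd (T := (ftHigh true 1 mZ 1 1 200 1100)) (L := []) (P1 := 991880209) (W1 := 78110568) (P3 := 649613803) (W3 := 48318383) (n := ndB1q1) (c := cZ)
    ⟨T.l 0,
      by decide +kernel⟩
theorem cA_h0_21 : CertNd 991880209 78110568 649613803 48318383 (ftHigh true 1 mZ 1 1 200 1100) [] ndB2q1 cZ :=
  certNd (T := (ftHigh true 1 mZ 1 1 200 1100)) (L := []) (P1 := 991880209) (W1 := 78110568) (P3 := 649613803) (W3 := 48318383) (n := ndB2q1) (c := cZ)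
    ⟨T.l 0,
      by decide +kernel⟩
theorem cA_h0_31 : CertNd 991880209 78110568 649613803 48318383 (ftHigh true 1 mZ 1 1 200 1100) [] ndB3q1 cZ :=
  certNd (T := (ftHigh true 1 mZ 1 1 200 1100)) (L := []) (P1 := 991880209) (W1 := 78110568) (P3 := 649613803) (W3 := 48318383) (n := ndB3q1) (c := cZ)
    ⟨T.l 0,
      by decide +kernel⟩
theorem cA_h0_41 : CertNd 991880209 78110568 649613803 48318383 (ftHigh true 1 mZ 1 1 200 1100) [] ndB4q1 cZ :=
  certNd (T := (ftHigh true 1 mZ 1 1 200 1100)) (L := []) (P1 := 991880209) (W1 := 78110568) (P3 := 649613803) (W3 := 48318383) (n := ndB4q1) (c := cZ)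
    ⟨T.l 0,
      by decide +kernel⟩
theorem cA_h0_51 : CertNd 991880209 78110568 649613803 48318383 (ftHigh true 1 mZ 1 1 200 1100) [] ndB5q1 cZ :=
  certNd (T := (ftHigh true 1 mZ 1 1 200 1100)) (L := []) (P1 := 991880209) (W1 := 78110568) (P3 := 649613803) (W3 := 48318383) (n := ndB5q1) (c := cZ)
    ⟨T.l 0,
      by decide +kernel⟩
theorem cA_h0_61 : CertNd 991880209 78110568 649613803 48318383 (ftHigh true 1 mZ 1 1 200 1100) [] ndB6q1 cZ :=
  certNd (T := (ftHigh true 1 mZ 1 1 200 1100)) (L := []) (P1 := 991880209) (W1 := 78110568) (P3 := 649613803) (W3 := 48318383) (n := ndB6q1) (c := cZ)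
    ⟨T.l 0,
      by decide +kernel⟩
theorem cA_h0_71 : CertNd 991880209 78110568 649613803 48318383 (ftHigh true 1 mZ 1 1 200 1100) [] ndB7q1 cZ :=
  certNd (T := (ftHigh true 1 mZ 1 1 200 1100)) (L := []) (P1 := 991880209) (W1 := 78110568) (P3 := 649613803) (W3 := 48318383) (n := ndB7q1) (c := cZ)
    ⟨T.l 0,
      by decide +kernel⟩
theorem cA_h0_81 : CertNd 991880209 78110568 649613803 48318383 (ftHigh true 1 mZ 1 1 200 1100) [] ndB8q1 cZ :=
  certNd (T := (ftHigh true 1 mZ 1 1 200 1100)) (L := []) (P1 := 991880209) (W1 := 78110568) (P3 := 649613803) (W3 := 48318383) (n := ndB8q1) (c := cZ)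
    ⟨T.l 0,
      by decide +kernel⟩
theorem cA_h1_01 : CertNd 1032795268 40946556 649613803 48318383 (ftHigh true 1 mZ 1 1 790 1100) [] ndB0q1 cZ :=
  certNd (T := (ftHigh true 1 mZ 1 1 790 1100)) (L := []) (P1 := 1032795268) (W1 := 40946556) (P3 := 649613803) (W3 := 48318383) (n := ndB0q1) (c := cZ)
    ⟨T.l 0,
      by decide +kernel⟩
theorem cA_h1_11 : CertNd 1032795268 40946556 649613803 48318383 (ftHigh true 1 mZ 1 1 790 1100) [] ndB1q1 cZ :=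
  certNd (T := (ftHigh true 1 mZ 1 1 790 1100)) (L := []) (P1 := 1032795268) (W1 := 40946556) (P3 := 649613803) (W3 := 48318383) (n := ndB1q1) (c := cZ)
    ⟨T.l 0,
      by decide +kernel⟩
theorem cA_h1_21 : CertNd 1032795268 40946556 649613803 48318383 (ftHigh true 1 mZ 1 1 790 1100) [] ndB2q1 cZ :=
  certNd (T := (ftHigh true 1 mZ 1 1 790 1100)) (L := []) (P1 := 1032795268) (W1 := 40946556) (P3 := 649613803) (W3 := 48318383) (n := ndB2q1) (c := cZ)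
    ⟨T.l 0,
      by decide +kernel⟩
theorem cA_h1_31 : CertNd 1032795268 40946556 649613803 48318383 (ftHigh true 1 mZ 1 1 790 1100) [] ndB3q1 cZ :=
  certNd (T := (ftHigh true 1 mZ 1 1 790 1100)) (L := []) (P1 := 1032795268) (W1 := 40946556) (P3 := 649613803) (W3 := 48318383) (n := ndB3q1) (c := cZ)
    ⟨T.l 0,
      by decide +kernel⟩
theorem cA_h1_41 : CertNd 1032795268 40946556 649613803 48318383 (ftHigh true 1 mZ 1 1 790 1100) [] ndB4q1 cZ :=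
  certNd (T := (ftHigh true 1 mZ 1 1 790 1100)) (L := []) (P1 := 1032795268) (W1 := 40946556) (P3 := 649613803) (W3 := 48318383) (n := ndB4q1) (c := cZ)
    ⟨T.l 0,
      by decide +kernel⟩
theorem cA_h1_51 : CertNd 1032795268 40946556 649613803 48318383 (ftHigh true 1 mZ 1 1 790 1100) [] ndB5q1 cZ :=
  certNd (T := (ftHigh true 1 mZ 1 1 790 1100)) (L := []) (P1 := 1032795268) (W1 := 40946556) (P3 := 649613803) (W3 := 48318383) (n := ndB5q1) (c := cZ)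
    ⟨T.l 0,
      by decide +kernel⟩
theorem cA_h1_61 : CertNd 1032795268 40946556 649613803 48318383 (ftHigh true 1 mZ 1 1 790 1100) [] ndB6q1 cZ :=
  certNd (T := (ftHigh true 1 mZ 1 1 790 1100)) (L := []) (P1 := 1032795268) (W1 := 40946556) (P3 := 649613803) (W3 := 48318383) (n := ndB6q1) (c := cZ)
    ⟨T.l 0,
      by decide +kernel⟩
theorem cA_h1_71 : CertNd 1032795268 40946556 649613803 48318383 (ftHigh true 1 mZ 1 1 790 1100) [] ndB7q1 cZ :=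
  certNd (T := (ftHigh true 1 mZ 1 1 790 1100)) (L := []) (P1 := 1032795268) (W1 := 40946556) (P3 := 649613803) (W3 := 48318383) (n := ndB7q1) (c := cZ)
    ⟨T.l 0,
      by decide +kernel⟩
theorem cA_h1_81 : CertNd 1032795268 40946556 649613803 48318383 (ftHigh true 1 mZ 1 1 790 1100) [] ndB8q1 cZ :=
  certNd (T := (ftHigh true 1 mZ 1 1 790 1100)) (L := []) (P1 := 1032795268) (W1 := 40946556) (P3 := 649613803) (W3 := 48318383) (n := ndB8q1) (c := cZ)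
    ⟨T.l 0,
      by decide +kernel⟩
theorem cA_h1_02 : CertNd 0 536870912 649613803 48318383 (ftHigh true 2 mZ 1 1 790 1100) [⟨0, 1032795268⟩, ⟨1, 1200175054⟩] ndB0q2 cZ :=
  certNd (T := (ftHigh true 2 mZ 1 1 790 1100)) (L := [⟨0, 1032795268⟩, ⟨1, 1200175054⟩]) (P1 := 0) (W1 := 536870912) (P3 := 649613803) (W3 := 48318383) (n := ndB0q2) (c := cZ)
    ⟨T.a (T.l 3) (T.a (T.a (T.l 0) (T.l 0)) (T.l 0)),
      by decide +kernel⟩
theorem cA_h1_12 : CertNd 1073741824 126433230 649613803 48318383 (ftHigh true 2 mZ 1 1 790 1100) [] ndB1q2 cZ :=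
  certNd (T := (ftHigh true 2 mZ 1 1 790 1100)) (L := []) (P1 := 1073741824) (W1 := 126433230) (P3 := 649613803) (W3 := 48318383) (n := ndB1q2) (c := cZ)
    ⟨T.a (T.l 0) (T.a (T.l 0) (T.l 0)),
      by decide +kernel⟩
theorem cA_h1_22 : CertNd 1073741824 126433230 649613803 48318383 (ftHigh true 2 mZ 1 1 790 1100) [] ndB2q2 cZ :=
  certNd (T := (ftHigh true 2 mZ 1 1 790 1100)) (L := []) (P1 := 1073741824) (W1 := 126433230) (P3 := 649613803) (W3 := 48318383) (n := ndB2q2) (c := cZ)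
    ⟨T.a (T.l 0) (T.a (T.l 0) (T.l 0)),
      by decide +kernel⟩
theorem cA_h1_32 : CertNd 1073741824 126433230 649613803 48318383 (ftHigh true 2 mZ 1 1 790 1100) [] ndB3q2 cZ :=
  certNd (T := (ftHigh true 2 mZ 1 1 790 1100)) (L := []) (P1 := 1073741824) (W1 := 126433230) (P3 := 649613803) (W3 := 48318383) (n := ndB3q2) (c := cZ)
    ⟨T.a (T.l 0) (T.l 0),
      by decide +kernel⟩
theorem cA_h1_42 : CertNd 1073741824 126433230 649613803 48318383 (ftHigh true 2 mZ 1 1 790 1100) [] ndB4q2 cZ :=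
  certNd (T := (ftHigh true 2 mZ 1 1 790 1100)) (L := []) (P1 := 1073741824) (W1 := 126433230) (P3 := 649613803) (W3 := 48318383) (n := ndB4q2) (c := cZ)
    ⟨T.l 0,
      by decide +kernel⟩
theorem cA_h1_52 : CertNd 1073741824 126433230 649613803 48318383 (ftHigh true 2 mZ 1 1 790 1100) [] ndB5q2 cZ :=
  certNd (T := (ftHigh true 2 mZ 1 1 790 1100)) (L := []) (P1 := 1073741824) (W1 := 126433230) (P3 := 649613803) (W3 := 48318383) (n := ndB5q2) (c := cZ)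
    ⟨T.l 0,
      by decide +kernel⟩
theorem cA_h1_62 : CertNd 1073741824 126433230 649613803 48318383 (ftHigh true 2 mZ 1 1 790 1100) [] ndB6q2 cZ :=
  certNd (T := (ftHigh true 2 mZ 1 1 790 1100)) (L := []) (P1 := 1073741824) (W1 := 126433230) (P3 := 649613803) (W3 := 48318383) (n := ndB6q2) (c := cZ)
    ⟨T.l 0,
      by decide +kernel⟩
theorem cA_h1_72 : CertNd 1073741824 126433230 649613803 48318383 (ftHigh true 2 mZ 1 1 790 1100) [] ndB7q2 cZ :=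
  certNd (T := (ftHigh true 2 mZ 1 1 790 1100)) (L := []) (P1 := 1073741824) (W1 := 126433230) (P3 := 649613803) (W3 := 48318383) (n := ndB7q2) (c := cZ)
    ⟨T.l 0,
      by decide +kernel⟩
theorem cA_h1_82 : CertNd 1073741824 126433230 649613803 48318383 (ftHigh true 2 mZ 1 1 790 1100) [] ndB8q2 cZ :=
  certNd (T := (ftHigh true 2 mZ 1 1 790 1100)) (L := []) (P1 := 1073741824) (W1 := 126433230) (P3 := 649613803) (W3 := 48318383) (n := ndB8q2) (c := cZ)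
    ⟨T.l 0,
      by decide +kernel⟩
theorem cA_h2_02 : CertNd 0 536870912 649613803 48318383 (ftHigh true 2 mZ 1 1 1050 1100) [⟨0, 1162979545⟩, ⟨1, 2144940954⟩] ndB0q2 cZ :=
  certNd (T := (ftHigh true 2 mZ 1 1 1050 1100)) (L := [⟨0, 1162979545⟩, ⟨1, 2144940954⟩]) (P1 := 0) (W1 := 536870912) (P3 := 649613803) (W3 := 48318383) (n := ndB0q2) (c := cZ)
    ⟨T.a (T.a (T.l 0) (T.l 0)) (T.a (T.l 0) (T.l 0)),
      by decide +kernel⟩
theorem cA_h2_12 : CertNd 1162979545 447633191 649613803 48318383 (ftHigh true 2 mZ 1 1 1050 1100) [] ndB1q2 cZ :=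
  certNd (T := (ftHigh true 2 mZ 1 1 1050 1100)) (L := []) (P1 := 1162979545) (W1 := 447633191) (P3 := 649613803) (W3 := 48318383) (n := ndB1q2) (c := cZ)
    ⟨T.a (T.a (T.a (T.l 0) (T.a (T.a (T.l 0) (T.a (T.a (T.l 0) (T.l 0)) (T.l 0))) (T.l 0))) (T.l 0)) (T.l 0),
      by decide +kernel⟩
theorem cA_h2_22 : CertNd 1162979545 447633191 649613803 48318383 (ftHigh true 2 mZ 1 1 1050 1100) [] ndB2q2 cZ :=
  certNd (T := (ftHigh true 2 mZ 1 1 1050 1100)) (L := []) (P1 := 1162979545) (W1 := 447633191) (P3 := 649613803) (W3 := 48318383) (n := ndB2q2) (c := cZ)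
    ⟨T.a (T.a (T.a (T.l 0) (T.a (T.a (T.l 0) (T.a (T.a (T.l 0) (T.l 0)) (T.l 0))) (T.l 0))) (T.l 0)) (T.l 0),
      by decide +kernel⟩
theorem cA_h2_32 : CertNd 1162979545 447633191 649613803 48318383 (ftHigh true 2 mZ 1 1 1050 1100) [] ndB3q2 cZ :=
  certNd (T := (ftHigh true 2 mZ 1 1 1050 1100)) (L := []) (P1 := 1162979545) (W1 := 447633191) (P3 := 649613803) (W3 := 48318383) (n := ndB3q2) (c := cZ)
    ⟨T.a (T.a (T.a (T.l 0) (T.a (T.a (T.l 0) (T.l 0)) (T.l 0))) (T.l 0)) (T.l 0),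
      by decide +kernel⟩
theorem cA_h2_42 : CertNd 1162979545 447633191 649613803 48318383 (ftHigh true 2 mZ 1 1 1050 1100) [] ndB4q2 cZ :=
  certNd (T := (ftHigh true 2 mZ 1 1 1050 1100)) (L := []) (P1 := 1162979545) (W1 := 447633191) (P3 := 649613803) (W3 := 48318383) (n := ndB4q2) (c := cZ)
    ⟨T.a (T.a (T.a (T.l 0) (T.c (T.a (T.a (T.l 0) (T.l 0)) (T.l 0)) (T.l 0))) (T.l 0)) (T.l 0),
      by decide +kernel⟩
theorem cA_h2_52 : CertNd 1162979545 447633191 649613803 48318383 (ftHigh true 2 mZ 1 1 1050 1100) [] ndB5q2 cZ :=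
  certNd (T := (ftHigh true 2 mZ 1 1 1050 1100)) (L := []) (P1 := 1162979545) (W1 := 447633191) (P3 := 649613803) (W3 := 48318383) (n := ndB5q2) (c := cZ)
    ⟨T.a (T.a (T.l 0) (T.l 0)) (T.a (T.l 0) (T.l 0)),
      by decide +kernel⟩
theorem cA_h2_62 : CertNd 1162979545 447633191 649613803 48318383 (ftHigh true 2 mZ 1 1 1050 1100) [] ndB6q2 cZ :=
  certNd (T := (ftHigh true 2 mZ 1 1 1050 1100)) (L := []) (P1 := 1162979545) (W1 := 447633191) (P3 := 649613803) (W3 := 48318383) (n := ndB6q2) (c := cZ)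
    ⟨T.a (T.a (T.l 0) (T.l 0)) (T.l 0),
      by decide +kernel⟩
theorem cA_h2_72 : CertNd 1162979545 447633191 649613803 48318383 (ftHigh true 2 mZ 1 1 1050 1100) [] ndB7q2 cZ :=
  certNd (T := (ftHigh true 2 mZ 1 1 1050 1100)) (L := []) (P1 := 1162979545) (W1 := 447633191) (P3 := 649613803) (W3 := 48318383) (n := ndB7q2) (c := cZ)
    ⟨T.a (T.l 0) (T.l 0),
      by decide +kernel⟩
theorem cA_h2_82 : CertNd 1162979545 447633191 649613803 48318383 (ftHigh true 2 mZ 1 1 1050 1100) [] ndB8q2 cZ :=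
  certNd (T := (ftHigh true 2 mZ 1 1 1050 1100)) (L := []) (P1 := 1162979545) (W1 := 447633191) (P3 := 649613803) (W3 := 48318383) (n := ndB8q2) (c := cZ)
    ⟨T.a (T.a (T.l 0) (T.l 0)) (T.a (T.l 0) (T.l 0)),
      by decide +kernel⟩
theorem cA_h2_13 : CertNd 1610612736 534328218 649613803 48318383 (ftHigh true 3 mZ 1 1 1050 1100) [] ndB1q3 cZ :=
  certNd (T := (ftHigh true 3 mZ 1 1 1050 1100)) (L := []) (P1 := 1610612736) (W1 := 534328218) (P3 := 649613803) (W3 := 48318383) (n := ndB1q3) (c := cZ)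
    ⟨T.a (T.l 0) (T.l 0),
      by decide +kernel⟩
theorem cA_h2_23 : CertNd 1610612736 534328218 649613803 48318383 (ftHigh true 3 mZ 1 1 1050 1100) [] ndB2q3 cZ :=
  certNd (T := (ftHigh true 3 mZ 1 1 1050 1100)) (L := []) (P1 := 1610612736) (W1 := 534328218) (P3 := 649613803) (W3 := 48318383) (n := ndB2q3) (c := cZ)
    ⟨T.a (T.l 0) (T.l 0),
      by decide +kernel⟩
theorem cA_h2_33 : CertNd 1610612736 534328218 649613803 48318383 (ftHigh true 3 mZ 1 1 1050 1100) [] ndB3q3 cZ :=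
  certNd (T := (ftHigh true 3 mZ 1 1 1050 1100)) (L := []) (P1 := 1610612736) (W1 := 534328218) (P3 := 649613803) (W3 := 48318383) (n := ndB3q3) (c := cZ)
    ⟨T.a (T.l 0) (T.l 0),
      by decide +kernel⟩
theorem cA_h2_43 : CertNd 1610612736 534328218 649613803 48318383 (ftHigh true 3 mZ 1 1 1050 1100) [] ndB4q3 cZ :=
  certNd (T := (ftHigh true 3 mZ 1 1 1050 1100)) (L := []) (P1 := 1610612736) (W1 := 534328218) (P3 := 649613803) (W3 := 48318383) (n := ndB4q3) (c := cZ)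
    ⟨T.a (T.a (T.l 0) (T.l 0)) (T.a (T.l 0) (T.l 0)),
      by decide +kernel⟩
theorem cA_h2_53 : CertNd 0 1230186008 649613803 48318383 (ftHigh true 3 mZ 1 1 1050 1100) [⟨0, 1162979545⟩, ⟨1, 2144940954⟩] ndB5q3 cZ :=
  certNd (T := (ftHigh true 3 mZ 1 1 1050 1100)) (L := [⟨0, 1162979545⟩, ⟨1, 2144940954⟩]) (P1 := 0) (W1 := 1230186008) (P3 := 649613803) (W3 := 48318383) (n := ndB5q3) (c := cZ)
    ⟨T.a (T.a (T.l 0) (T.l 0)) (T.a (T.l 0) (T.a (T.a (T.l 0) (T.a (T.l 0) (T.l 0))) (T.a (T.l 0) (T.l 0)))),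
      by decide +kernel⟩
theorem cA_h2_63 : CertNd 0 1230186008 649613803 48318383 (ftHigh true 3 mZ 1 1 1050 1100) [⟨0, 1162979545⟩, ⟨1, 2144940954⟩] ndB6q3 cZ :=
  certNd (T := (ftHigh true 3 mZ 1 1 1050 1100)) (L := [⟨0, 1162979545⟩, ⟨1, 2144940954⟩]) (P1 := 0) (W1 := 1230186008) (P3 := 649613803) (W3 := 48318383) (n := ndB6q3) (c := cZ)
    ⟨T.a (T.a (T.l 0) (T.l 0)) (T.a (T.l 0) (T.a (T.l 0) (T.l 0))),
      by decide +kernel⟩
theorem cA_h2_73 : CertNd 0 1230186008 649613803 48318383 (ftHigh true 3 mZ 1 1 1050 1100) [⟨0, 1162979545⟩, ⟨1, 2144940954⟩] ndB7q3 cZ :=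
  certNd (T := (ftHigh true 3 mZ 1 1 1050 1100)) (L := [⟨0, 1162979545⟩, ⟨1, 2144940954⟩]) (P1 := 0) (W1 := 1230186008) (P3 := 649613803) (W3 := 48318383) (n := ndB7q3) (c := cZ)
    ⟨T.a (T.l 0) (T.a (T.l 0) (T.a (T.l 0) (T.l 0))),
      by decide +kernel⟩
theorem cA_h2_83 : CertNd 0 1230186008 649613803 48318383 (ftHigh true 3 mZ 1 1 1050 1100) [⟨0, 1162979545⟩, ⟨1, 2144940954⟩] ndB8q3 cZ :=
  certNd (T := (ftHigh true 3 mZ 1 1 1050 1100)) (L := [⟨0, 1162979545⟩, ⟨1, 2144940954⟩]) (P1 := 0) (W1 := 1230186008) (P3 := 649613803) (W3 := 48318383) (n := ndB8q3) (c := cZ)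
    ⟨T.a (T.a (T.l 0) (T.l 0)) (T.a (T.a (T.l 0) (T.l 0)) (T.a (T.l 0) (T.l 0))),
      by decide +kernel⟩
theorem cA_r0_02 : CertNd 0 536870912 649613803 48318383 (ftFar true 2 mZ 1 1 1256 1100) [⟨0, 1091068230⟩, ⟨1, 1190256252⟩, ⟨2, 1181116006⟩] ndB0q2 cZ :=
  certNd (T := (ftFar true 2 mZ 1 1 1256 1100)) (L := [⟨0, 1091068230⟩, ⟨1, 1190256252⟩, ⟨2, 1181116006⟩]) (P1 := 0) (W1 := 536870912) (P3 := 649613803) (W3 := 48318383) (n := ndB0q2) (c := cZ)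
    ⟨T.l 5,
      by decide +kernel⟩
theorem cA_r0_12 : CertNd 1091068230 99188022 649613803 48318383 (ftFar true 2 mZ 1 1 1256 1100) [⟨2, 1181116006⟩] ndB1q2 cZ :=
  certNd (T := (ftFar true 2 mZ 1 1 1256 1100)) (L := [⟨2, 1181116006⟩]) (P1 := 1091068230) (W1 := 99188022) (P3 := 649613803) (W3 := 48318383) (n := ndB1q2) (c := cZ)
    ⟨T.l 0,
      by decide +kernel⟩
theorem cA_r0_22 : CertNd 1091068230 99188022 649613803 48318383 (ftFar true 2 mZ 1 1 1256 1100) [⟨2, 1181116006⟩] ndB2q2 cZ :=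
  certNd (T := (ftFar true 2 mZ 1 1 1256 1100)) (L := [⟨2, 1181116006⟩]) (P1 := 1091068230) (W1 := 99188022) (P3 := 649613803) (W3 := 48318383) (n := ndB2q2) (c := cZ)
    ⟨T.l 0,
      by decide +kernel⟩
theorem cA_r0_32 : CertNd 1091068230 99188022 649613803 48318383 (ftFar true 2 mZ 1 1 1256 1100) [⟨2, 1181116006⟩] ndB3q2 cZ :=
  certNd (T := (ftFar true 2 mZ 1 1 1256 1100)) (L := [⟨2, 1181116006⟩]) (P1 := 1091068230) (W1 := 99188022) (P3 := 649613803) (W3 := 48318383) (n := ndB3q2) (c := cZ)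
    ⟨T.l 0,
      by decide +kernel⟩
theorem cA_r0_42 : CertNd 1091068230 99188022 649613803 48318383 (ftFar true 2 mZ 1 1 1256 1100) [⟨2, 1181116006⟩] ndB4q2 cZ :=
  certNd (T := (ftFar true 2 mZ 1 1 1256 1100)) (L := [⟨2, 1181116006⟩]) (P1 := 1091068230) (W1 := 99188022) (P3 := 649613803) (W3 := 48318383) (n := ndB4q2) (c := cZ)
    ⟨T.l 0,
      by decide +kernel⟩
theorem cA_r0_52 : CertNd 1091068230 99188022 649613803 48318383 (ftFar true 2 mZ 1 1 1256 1100) [⟨2, 1181116006⟩] ndB5q2 cZ :=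
  certNd (T := (ftFar true 2 mZ 1 1 1256 1100)) (L := [⟨2, 1181116006⟩]) (P1 := 1091068230) (W1 := 99188022) (P3 := 649613803) (W3 := 48318383) (n := ndB5q2) (c := cZ)
    ⟨T.l 0,
      by decide +kernel⟩
theorem cA_r0_62 : CertNd 1091068230 99188022 649613803 48318383 (ftFar true 2 mZ 1 1 1256 1100) [⟨2, 1181116006⟩] ndB6q2 cZ :=
  certNd (T := (ftFar true 2 mZ 1 1 1256 1100)) (L := [⟨2, 1181116006⟩]) (P1 := 1091068230) (W1 := 99188022) (P3 := 649613803) (W3 := 48318383) (n := ndB6q2) (c := cZ)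
    ⟨T.l 0,
      by decide +kernel⟩
theorem cA_r0_72 : CertNd 1091068230 99188022 649613803 48318383 (ftFar true 2 mZ 1 1 1256 1100) [⟨2, 1181116006⟩] ndB7q2 cZ :=
  certNd (T := (ftFar true 2 mZ 1 1 1256 1100)) (L := [⟨2, 1181116006⟩]) (P1 := 1091068230) (W1 := 99188022) (P3 := 649613803) (W3 := 48318383) (n := ndB7q2) (c := cZ)
    ⟨T.l 0,
      by decide +kernel⟩
theorem cA_r0_82 : CertNd 1091068230 99188022 649613803 48318383 (ftFar true 2 mZ 1 1 1256 1100) [⟨2, 1181116006⟩] ndB8q2 cZ :=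
  certNd (T := (ftFar true 2 mZ 1 1 1256 1100)) (L := [⟨2, 1181116006⟩]) (P1 := 1091068230) (W1 := 99188022) (P3 := 649613803) (W3 := 48318383) (n := ndB8q2) (c := cZ)
    ⟨T.a (T.c (T.l 0) (T.l 0)) (T.l 0),
      by decide +kernel⟩
theorem cA_n0_02z : CertNd 0 5368709 649613803 48318383 (ftNear true 2 mZ 1 1 1256) [⟨0, 1091068230⟩, ⟨1, 1190256252⟩] ⟨ndB0q2.Y, onF, kq02, lq02⟩ cZ :=
  certNd (T := (ftNear true 2 mZ 1 1 1256)) (L := [⟨0, 1091068230⟩, ⟨1, 1190256252⟩]) (P1 := 0) (W1 := 5368709) (P3 := 649613803) (W3 := 48318383) (n := ⟨ndB0q2.Y, onF, kq02, lq02⟩) (c := cZ)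
    ⟨T.l 3,
      by decide +kernel⟩
theorem cA_n0_02 : CertNd 0 536870912 649613803 48318383 (ftNear true 2 mZ 1 1 1256) [⟨0, 1091068230⟩, ⟨1, 1190256252⟩, ⟨2, 5368709⟩, ⟨3, 429496730⟩] ndB0q2 cZ :=
  certNd (T := (ftNear true 2 mZ 1 1 1256)) (L := [⟨0, 1091068230⟩, ⟨1, 1190256252⟩, ⟨2, 5368709⟩, ⟨3, 429496730⟩]) (P1 := 0) (W1 := 536870912) (P3 := 649613803) (W3 := 48318383) (n := ndB0q2) (c := cZ)
    ⟨T.a (T.l 3) (T.a (T.a (T.a (T.a (T.l 3) (T.a (T.l 3) (T.a (T.l 3) (T.l 0)))) (T.a (T.c (T.l 0) (T.l 0)) (T.l 0))) (T.c (T.l 0) (T.l 0))) (T.l 0)),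
      by decide +kernel⟩
theorem cA_n0_12 : CertNd 1091068230 99188022 649613803 48318383 (ftNear true 2 mZ 1 1 1256) [⟨3, 429496730⟩] ndB1q2 cZ :=
  certNd (T := (ftNear true 2 mZ 1 1 1256)) (L := [⟨3, 429496730⟩]) (P1 := 1091068230) (W1 := 99188022) (P3 := 649613803) (W3 := 48318383) (n := ndB1q2) (c := cZ)
    ⟨T.a (T.l 0) (T.a (T.l 0) (T.a (T.l 0) (T.l 0))),
      by decide +kernel⟩
theorem cA_n0_22 : CertNd 1091068230 99188022 649613803 48318383 (ftNear true 2 mZ 1 1 1256) [⟨3, 429496730⟩] ndB2q2 cZ :=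
  certNd (T := (ftNear true 2 mZ 1 1 1256)) (L := [⟨3, 429496730⟩]) (P1 := 1091068230) (W1 := 99188022) (P3 := 649613803) (W3 := 48318383) (n := ndB2q2) (c := cZ)
    ⟨T.a (T.l 0) (T.l 0),
      by decide +kernel⟩
theorem cA_n0_32 : CertNd 1091068230 99188022 649613803 48318383 (ftNear true 2 mZ 1 1 1256) [⟨3, 429496730⟩] ndB3q2 cZ :=
  certNd (T := (ftNear true 2 mZ 1 1 1256)) (L := [⟨3, 429496730⟩]) (P1 := 1091068230) (W1 := 99188022) (P3 := 649613803) (W3 := 48318383) (n := ndB3q2) (c := cZ)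
    ⟨T.l 0,
      by decide +kernel⟩
theorem cA_n0_42 : CertNd 1091068230 99188022 649613803 48318383 (ftNear true 2 mZ 1 1 1256) [⟨3, 429496730⟩] ndB4q2 cZ :=
  certNd (T := (ftNear true 2 mZ 1 1 1256)) (L := [⟨3, 429496730⟩]) (P1 := 1091068230) (W1 := 99188022) (P3 := 649613803) (W3 := 48318383) (n := ndB4q2) (c := cZ)
    ⟨T.l 0,
      by decide +kernel⟩
theorem cA_n0_52 : CertNd 1091068230 99188022 649613803 48318383 (ftNear true 2 mZ 1 1 1256) [⟨3, 429496730⟩] ndB5q2 cZ :=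
  certNd (T := (ftNear true 2 mZ 1 1 1256)) (L := [⟨3, 429496730⟩]) (P1 := 1091068230) (W1 := 99188022) (P3 := 649613803) (W3 := 48318383) (n := ndB5q2) (c := cZ)
    ⟨T.l 0,
      by decide +kernel⟩
theorem cA_n0_62 : CertNd 1091068230 99188022 649613803 48318383 (ftNear true 2 mZ 1 1 1256) [⟨3, 429496730⟩] ndB6q2 cZ :=
  certNd (T := (ftNear true 2 mZ 1 1 1256)) (L := [⟨3, 429496730⟩]) (P1 := 1091068230) (W1 := 99188022) (P3 := 649613803) (W3 := 48318383) (n := ndB6q2) (c := cZ)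
    ⟨T.l 0,
      by decide +kernel⟩
theorem cA_n0_72 : CertNd 1091068230 99188022 649613803 48318383 (ftNear true 2 mZ 1 1 1256) [⟨3, 429496730⟩] ndB7q2 cZ :=
  certNd (T := (ftNear true 2 mZ 1 1 1256)) (L := [⟨3, 429496730⟩]) (P1 := 1091068230) (W1 := 99188022) (P3 := 649613803) (W3 := 48318383) (n := ndB7q2) (c := cZ)
    ⟨T.l 0,
      by decide +kernel⟩
theorem cA_n0_82 : CertNd 1091068230 99188022 649613803 48318383 (ftNear true 2 mZ 1 1 1256) [⟨3, 429496730⟩] ndB8q2 cZ :=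
  certNd (T := (ftNear true 2 mZ 1 1 1256)) (L := [⟨3, 429496730⟩]) (P1 := 1091068230) (W1 := 99188022) (P3 := 649613803) (W3 := 48318383) (n := ndB8q2) (c := cZ)
    ⟨T.l 0,
      by decide +kernel⟩
theorem cA_R0_2 : CertSd 1091068230 99188022 649613803 48318383 (ftFar true 2 mZ 1 1 1256 1100) [] idF (cnF 1100 1000) pcB2 dZ :=
  certSd (T := (ftFar true 2 mZ 1 1 1256 1100)) (L := []) (P1 := 1091068230) (W1 := 99188022) (P3 := 649613803) (W3 := 48318383) (Y := idF) (X := (cnF 1100 1000))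
    (pc := pcB2) (c := dZ) ⟨T.l 0,
      by decide +kernel⟩
theorem cA_N0_2 : CertSd 1136340972 53915280 649613803 48318383 (ftNear true 2 mZ 1 1 1256) [] idF (cnF 400 1000) pcB2 dZ :=
  certSd (T := (ftNear true 2 mZ 1 1 1256)) (L := []) (P1 := 1136340972) (W1 := 53915280) (P3 := 649613803) (W3 := 48318383) (Y := idF) (X := (cnF 400 1000))
    (pc := pcB2) (c := dZ) ⟨T.a (T.l 0) (T.l 0),
      by decide +kernel⟩
theorem cA_r1_02 : CertNd 0 536870912 649613803 48318383 (ftFar true 2 mZ 1 1 1327 1100) [⟨0, 1153060743⟩, ⟨1, 1217532958⟩, ⟨2, 1181116006⟩] ndB0q2 cZ :=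
  certNd (T := (ftFar true 2 mZ 1 1 1327 1100)) (L := [⟨0, 1153060743⟩, ⟨1, 1217532958⟩, ⟨2, 1181116006⟩]) (P1 := 0) (W1 := 536870912) (P3 := 649613803) (W3 := 48318383) (n := ndB0q2) (c := cZ)
    ⟨T.l 5,
      by decide +kernel⟩
theorem cA_r1_12 : CertNd 1153060743 64472215 649613803 48318383 (ftFar true 2 mZ 1 1 1327 1100) [⟨2, 1181116006⟩] ndB1q2 cZ :=
  certNd (T := (ftFar true 2 mZ 1 1 1327 1100)) (L := [⟨2, 1181116006⟩]) (P1 := 1153060743) (W1 := 64472215) (P3 := 649613803) (W3 := 48318383) (n := ndB1q2) (c := cZ)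
    ⟨T.l 0,
      by decide +kernel⟩
theorem cA_r1_22 : CertNd 1153060743 64472215 649613803 48318383 (ftFar true 2 mZ 1 1 1327 1100) [⟨2, 1181116006⟩] ndB2q2 cZ :=
  certNd (T := (ftFar true 2 mZ 1 1 1327 1100)) (L := [⟨2, 1181116006⟩]) (P1 := 1153060743) (W1 := 64472215) (P3 := 649613803) (W3 := 48318383) (n := ndB2q2) (c := cZ)
    ⟨T.l 0,
      by decide +kernel⟩
theorem cA_r1_32 : CertNd 1153060743 64472215 649613803 48318383 (ftFar true 2 mZ 1 1 1327 1100) [⟨2, 1181116006⟩] ndB3q2 cZ :=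
  certNd (T := (ftFar true 2 mZ 1 1 1327 1100)) (L := [⟨2, 1181116006⟩]) (P1 := 1153060743) (W1 := 64472215) (P3 := 649613803) (W3 := 48318383) (n := ndB3q2) (c := cZ)
    ⟨T.l 0,
      by decide +kernel⟩
theorem cA_r1_42 : CertNd 1153060743 64472215 649613803 48318383 (ftFar true 2 mZ 1 1 1327 1100) [⟨2, 1181116006⟩] ndB4q2 cZ :=
  certNd (T := (ftFar true 2 mZ 1 1 1327 1100)) (L := [⟨2, 1181116006⟩]) (P1 := 1153060743) (W1 := 64472215) (P3 := 649613803) (W3 := 48318383) (n := ndB4q2) (c := cZ)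
    ⟨T.l 0,
      by decide +kernel⟩
theorem cA_r1_52 : CertNd 1153060743 64472215 649613803 48318383 (ftFar true 2 mZ 1 1 1327 1100) [⟨2, 1181116006⟩] ndB5q2 cZ :=
  certNd (T := (ftFar true 2 mZ 1 1 1327 1100)) (L := [⟨2, 1181116006⟩]) (P1 := 1153060743) (W1 := 64472215) (P3 := 649613803) (W3 := 48318383) (n := ndB5q2) (c := cZ)
    ⟨T.l 0,
      by decide +kernel⟩
theorem cA_r1_62 : CertNd 1153060743 64472215 649613803 48318383 (ftFar true 2 mZ 1 1 1327 1100) [⟨2, 1181116006⟩] ndB6q2 cZ :=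
  certNd (T := (ftFar true 2 mZ 1 1 1327 1100)) (L := [⟨2, 1181116006⟩]) (P1 := 1153060743) (W1 := 64472215) (P3 := 649613803) (W3 := 48318383) (n := ndB6q2) (c := cZ)
    ⟨T.l 0,
      by decide +kernel⟩
theorem cA_r1_72 : CertNd 1153060743 64472215 649613803 48318383 (ftFar true 2 mZ 1 1 1327 1100) [⟨2, 1181116006⟩] ndB7q2 cZ :=
  certNd (T := (ftFar true 2 mZ 1 1 1327 1100)) (L := [⟨2, 1181116006⟩]) (P1 := 1153060743) (W1 := 64472215) (P3 := 649613803) (W3 := 48318383) (n := ndB7q2) (c := cZ)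
    ⟨T.l 0,
      by decide +kernel⟩
theorem cA_r1_82 : CertNd 1153060743 64472215 649613803 48318383 (ftFar true 2 mZ 1 1 1327 1100) [⟨2, 1181116006⟩] ndB8q2 cZ :=
  certNd (T := (ftFar true 2 mZ 1 1 1327 1100)) (L := [⟨2, 1181116006⟩]) (P1 := 1153060743) (W1 := 64472215) (P3 := 649613803) (W3 := 48318383) (n := ndB8q2) (c := cZ)
    ⟨T.a (T.c (T.l 0) (T.l 0)) (T.l 0),
      by decide +kernel⟩
theorem cA_n1_02z : CertNd 0 5368709 649613803 48318383 (ftNear true 2 mZ 1 1 1327) [⟨0, 1153060743⟩, ⟨1, 1217532958⟩] ⟨ndB0q2.Y, onF, kq02, lq02⟩ cZ :=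
  certNd (T := (ftNear true 2 mZ 1 1 1327)) (L := [⟨0, 1153060743⟩, ⟨1, 1217532958⟩]) (P1 := 0) (W1 := 5368709) (P3 := 649613803) (W3 := 48318383) (n := ⟨ndB0q2.Y, onF, kq02, lq02⟩) (c := cZ)
    ⟨T.l 3,
      by decide +kernel⟩
theorem cA_n1_02 : CertNd 0 536870912 649613803 48318383 (ftNear true 2 mZ 1 1 1327) [⟨0, 1153060743⟩, ⟨1, 1217532958⟩, ⟨2, 5368709⟩, ⟨3, 429496730⟩] ndB0q2 cZ :=
  certNd (T := (ftNear true 2 mZ 1 1 1327)) (L := [⟨0, 1153060743⟩, ⟨1, 1217532958⟩, ⟨2, 5368709⟩, ⟨3, 429496730⟩]) (P1 := 0) (W1 := 536870912) (P3 := 649613803) (W3 := 48318383) (n := ndB0q2) (c := cZ)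
    ⟨T.a (T.a (T.l 3) (T.a (T.l 3) (T.a (T.a (T.c (T.l 0) (T.l 0)) (T.l 0)) (T.l 0)))) (T.a (T.a (T.l 0) (T.l 0)) (T.l 0)),
      by decide +kernel⟩
theorem cA_n1_12 : CertNd 1153060743 64472215 649613803 48318383 (ftNear true 2 mZ 1 1 1327) [⟨3, 429496730⟩] ndB1q2 cZ :=
  certNd (T := (ftNear true 2 mZ 1 1 1327)) (L := [⟨3, 429496730⟩]) (P1 := 1153060743) (W1 := 64472215) (P3 := 649613803) (W3 := 48318383) (n := ndB1q2) (c := cZ)
    ⟨T.a (T.l 0) (T.a (T.l 0) (T.l 0)),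
      by decide +kernel⟩
theorem cA_n1_22 : CertNd 1153060743 64472215 649613803 48318383 (ftNear true 2 mZ 1 1 1327) [⟨3, 429496730⟩] ndB2q2 cZ :=
  certNd (T := (ftNear true 2 mZ 1 1 1327)) (L := [⟨3, 429496730⟩]) (P1 := 1153060743) (W1 := 64472215) (P3 := 649613803) (W3 := 48318383) (n := ndB2q2) (c := cZ)
    ⟨T.a (T.l 0) (T.l 0),
      by decide +kernel⟩
theorem cA_n1_32 : CertNd 1153060743 64472215 649613803 48318383 (ftNear true 2 mZ 1 1 1327) [⟨3, 429496730⟩] ndB3q2 cZ :=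
  certNd (T := (ftNear true 2 mZ 1 1 1327)) (L := [⟨3, 429496730⟩]) (P1 := 1153060743) (W1 := 64472215) (P3 := 649613803) (W3 := 48318383) (n := ndB3q2) (c := cZ)
    ⟨T.l 0,
      by decide +kernel⟩
theorem cA_n1_42 : CertNd 1153060743 64472215 649613803 48318383 (ftNear true 2 mZ 1 1 1327) [⟨3, 429496730⟩] ndB4q2 cZ :=
  certNd (T := (ftNear true 2 mZ 1 1 1327)) (L := [⟨3, 429496730⟩]) (P1 := 1153060743) (W1 := 64472215) (P3 := 649613803) (W3 := 48318383) (n := ndB4q2) (c := cZ)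
    ⟨T.l 0,
      by decide +kernel⟩
theorem cA_n1_52 : CertNd 1153060743 64472215 649613803 48318383 (ftNear true 2 mZ 1 1 1327) [⟨3, 429496730⟩] ndB5q2 cZ :=
  certNd (T := (ftNear true 2 mZ 1 1 1327)) (L := [⟨3, 429496730⟩]) (P1 := 1153060743) (W1 := 64472215) (P3 := 649613803) (W3 := 48318383) (n := ndB5q2) (c := cZ)
    ⟨T.l 0,
      by decide +kernel⟩
theorem cA_n1_62 : CertNd 1153060743 64472215 649613803 48318383 (ftNear true 2 mZ 1 1 1327) [⟨3, 429496730⟩] ndB6q2 cZ :=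
  certNd (T := (ftNear true 2 mZ 1 1 1327)) (L := [⟨3, 429496730⟩]) (P1 := 1153060743) (W1 := 64472215) (P3 := 649613803) (W3 := 48318383) (n := ndB6q2) (c := cZ)
    ⟨T.l 0,
      by decide +kernel⟩
theorem cA_n1_72 : CertNd 1153060743 64472215 649613803 48318383 (ftNear true 2 mZ 1 1 1327) [⟨3, 429496730⟩] ndB7q2 cZ :=
  certNd (T := (ftNear true 2 mZ 1 1 1327)) (L := [⟨3, 429496730⟩]) (P1 := 1153060743) (W1 := 64472215) (P3 := 649613803) (W3 := 48318383) (n := ndB7q2) (c := cZ)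
    ⟨T.l 0,
      by decide +kernel⟩
theorem cA_n1_82 : CertNd 1153060743 64472215 649613803 48318383 (ftNear true 2 mZ 1 1 1327) [⟨3, 429496730⟩] ndB8q2 cZ :=
  certNd (T := (ftNear true 2 mZ 1 1 1327)) (L := [⟨3, 429496730⟩]) (P1 := 1153060743) (W1 := 64472215) (P3 := 649613803) (W3 := 48318383) (n := ndB8q2) (c := cZ)
    ⟨T.l 0,
      by decide +kernel⟩
theorem cA_R1_2 : CertSd 1153060743 64472215 649613803 48318383 (ftFar true 2 mZ 1 1 1327 1100) [] idF (cnF 1100 1000) pcB2 dZ :=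
  certSd (T := (ftFar true 2 mZ 1 1 1327 1100)) (L := []) (P1 := 1153060743) (W1 := 64472215) (P3 := 649613803) (W3 := 48318383) (Y := idF) (X := (cnF 1100 1000))
    (pc := pcB2) (c := dZ) ⟨T.l 0,
      by decide +kernel⟩
theorem cA_N1_2 : CertSd 1153060743 64472215 649613803 48318383 (ftNear true 2 mZ 1 1 1327) [] idF (cnF 400 1000) pcB2 dZ :=
  certSd (T := (ftNear true 2 mZ 1 1 1327)) (L := []) (P1 := 1153060743) (W1 := 64472215) (P3 := 649613803) (W3 := 48318383) (Y := idF) (X := (cnF 400 1000))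
    (pc := pcB2) (c := dZ) ⟨T.a (T.l 0) (T.l 0),
      by decide +kernel⟩
theorem cA_r2_02 : CertNd 0 536870912 649613803 48318383 (ftFar true 2 mZ 1 1 1365 1100) [⟨0, 1180337449⟩, ⟨1, 1228691610⟩, ⟨2, 1181116006⟩] ndB0q2 cZ :=
  certNd (T := (ftFar true 2 mZ 1 1 1365 1100)) (L := [⟨0, 1180337449⟩, ⟨1, 1228691610⟩, ⟨2, 1181116006⟩]) (P1 := 0) (W1 := 536870912) (P3 := 649613803) (W3 := 48318383) (n := ndB0q2) (c := cZ)
    ⟨T.l 5,
      by decide +kernel⟩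
theorem cA_r2_12 : CertNd 1180337449 48354161 649613803 48318383 (ftFar true 2 mZ 1 1 1365 1100) [⟨2, 1181116006⟩] ndB1q2 cZ :=
  certNd (T := (ftFar true 2 mZ 1 1 1365 1100)) (L := [⟨2, 1181116006⟩]) (P1 := 1180337449) (W1 := 48354161) (P3 := 649613803) (W3 := 48318383) (n := ndB1q2) (c := cZ)
    ⟨T.l 0,
      by decide +kernel⟩
theorem cA_r2_22 : CertNd 1180337449 48354161 649613803 48318383 (ftFar true 2 mZ 1 1 1365 1100) [⟨2, 1181116006⟩] ndB2q2 cZ :=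
  certNd (T := (ftFar true 2 mZ 1 1 1365 1100)) (L := [⟨2, 1181116006⟩]) (P1 := 1180337449) (W1 := 48354161) (P3 := 649613803) (W3 := 48318383) (n := ndB2q2) (c := cZ)
    ⟨T.l 0,
      by decide +kernel⟩
theorem cA_r2_32 : CertNd 1180337449 48354161 649613803 48318383 (ftFar true 2 mZ 1 1 1365 1100) [⟨2, 1181116006⟩] ndB3q2 cZ :=
  certNd (T := (ftFar true 2 mZ 1 1 1365 1100)) (L := [⟨2, 1181116006⟩]) (P1 := 1180337449) (W1 := 48354161) (P3 := 649613803) (W3 := 48318383) (n := ndB3q2) (c := cZ)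
    ⟨T.l 0,
      by decide +kernel⟩
theorem cA_r2_42 : CertNd 1180337449 48354161 649613803 48318383 (ftFar true 2 mZ 1 1 1365 1100) [⟨2, 1181116006⟩] ndB4q2 cZ :=
  certNd (T := (ftFar true 2 mZ 1 1 1365 1100)) (L := [⟨2, 1181116006⟩]) (P1 := 1180337449) (W1 := 48354161) (P3 := 649613803) (W3 := 48318383) (n := ndB4q2) (c := cZ)
    ⟨T.l 0,
      by decide +kernel⟩
theorem cA_r2_52 : CertNd 1180337449 48354161 649613803 48318383 (ftFar true 2 mZ 1 1 1365 1100) [⟨2, 1181116006⟩] ndB5q2 cZ :=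
  certNd (T := (ftFar true 2 mZ 1 1 1365 1100)) (L := [⟨2, 1181116006⟩]) (P1 := 1180337449) (W1 := 48354161) (P3 := 649613803) (W3 := 48318383) (n := ndB5q2) (c := cZ)
    ⟨T.l 0,
      by decide +kernel⟩
theorem cA_r2_62 : CertNd 1180337449 48354161 649613803 48318383 (ftFar true 2 mZ 1 1 1365 1100) [⟨2, 1181116006⟩] ndB6q2 cZ :=
  certNd (T := (ftFar true 2 mZ 1 1 1365 1100)) (L := [⟨2, 1181116006⟩]) (P1 := 1180337449) (W1 := 48354161) (P3 := 649613803) (W3 := 48318383) (n := ndB6q2) (c := cZ)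
    ⟨T.l 0,
      by decide +kernel⟩
theorem cA_r2_72 : CertNd 1180337449 48354161 649613803 48318383 (ftFar true 2 mZ 1 1 1365 1100) [⟨2, 1181116006⟩] ndB7q2 cZ :=
  certNd (T := (ftFar true 2 mZ 1 1 1365 1100)) (L := [⟨2, 1181116006⟩]) (P1 := 1180337449) (W1 := 48354161) (P3 := 649613803) (W3 := 48318383) (n := ndB7q2) (c := cZ)
    ⟨T.l 0,
      by decide +kernel⟩
theorem cA_r2_82 : CertNd 1180337449 48354161 649613803 48318383 (ftFar true 2 mZ 1 1 1365 1100) [⟨2, 1181116006⟩] ndB8q2 cZ :=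
  certNd (T := (ftFar true 2 mZ 1 1 1365 1100)) (L := [⟨2, 1181116006⟩]) (P1 := 1180337449) (W1 := 48354161) (P3 := 649613803) (W3 := 48318383) (n := ndB8q2) (c := cZ)
    ⟨T.a (T.c (T.l 0) (T.l 0)) (T.l 0),
      by decide +kernel⟩
theorem cA_n2_02z : CertNd 0 5368709 649613803 48318383 (ftNear true 2 mZ 1 1 1365) [⟨0, 1180337449⟩, ⟨1, 1228691610⟩] ⟨ndB0q2.Y, onF, kq02, lq02⟩ cZ :=
  certNd (T := (ftNear true 2 mZ 1 1 1365)) (L := [⟨0, 1180337449⟩, ⟨1, 1228691610⟩]) (P1 := 0) (W1 := 5368709) (P3 := 649613803) (W3 := 48318383) (n := ⟨ndB0q2.Y, onF, kq02, lq02⟩) (c := cZ)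
    ⟨T.l 3,
      by decide +kernel⟩
theorem cA_n2_02 : CertNd 0 536870912 649613803 48318383 (ftNear true 2 mZ 1 1 1365) [⟨0, 1180337449⟩, ⟨1, 1228691610⟩, ⟨2, 5368709⟩, ⟨3, 429496730⟩] ndB0q2 cZ :=
  certNd (T := (ftNear true 2 mZ 1 1 1365)) (L := [⟨0, 1180337449⟩, ⟨1, 1228691610⟩, ⟨2, 5368709⟩, ⟨3, 429496730⟩]) (P1 := 0) (W1 := 536870912) (P3 := 649613803) (W3 := 48318383) (n := ndB0q2) (c := cZ)
    ⟨T.a (T.a (T.l 3) (T.a (T.a (T.a (T.a (T.l 3) (T.l 0)) (T.l 0)) (T.l 0)) (T.a (T.l 0) (T.l 0)))) (T.a (T.a (T.l 0) (T.l 0)) (T.l 0)),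
      by decide +kernel⟩
theorem cA_n2_12 : CertNd 1180337449 48354161 649613803 48318383 (ftNear true 2 mZ 1 1 1365) [⟨3, 429496730⟩] ndB1q2 cZ :=
  certNd (T := (ftNear true 2 mZ 1 1 1365)) (L := [⟨3, 429496730⟩]) (P1 := 1180337449) (W1 := 48354161) (P3 := 649613803) (W3 := 48318383) (n := ndB1q2) (c := cZ)
    ⟨T.a (T.l 0) (T.a (T.l 0) (T.a (T.l 0) (T.l 0))),
      by decide +kernel⟩
theorem cA_n2_22 : CertNd 1180337449 48354161 649613803 48318383 (ftNear true 2 mZ 1 1 1365) [⟨3, 429496730⟩] ndB2q2 cZ :=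
  certNd (T := (ftNear true 2 mZ 1 1 1365)) (L := [⟨3, 429496730⟩]) (P1 := 1180337449) (W1 := 48354161) (P3 := 649613803) (W3 := 48318383) (n := ndB2q2) (c := cZ)
    ⟨T.a (T.l 0) (T.a (T.l 0) (T.l 0)),
      by decide +kernel⟩
theorem cA_n2_32 : CertNd 1180337449 48354161 649613803 48318383 (ftNear true 2 mZ 1 1 1365) [⟨3, 429496730⟩] ndB3q2 cZ :=
  certNd (T := (ftNear true 2 mZ 1 1 1365)) (L := [⟨3, 429496730⟩]) (P1 := 1180337449) (W1 := 48354161) (P3 := 649613803) (W3 := 48318383) (n := ndB3q2) (c := cZ)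
    ⟨T.l 0,
      by decide +kernel⟩
theorem cA_n2_42 : CertNd 1180337449 48354161 649613803 48318383 (ftNear true 2 mZ 1 1 1365) [⟨3, 429496730⟩] ndB4q2 cZ :=
  certNd (T := (ftNear true 2 mZ 1 1 1365)) (L := [⟨3, 429496730⟩]) (P1 := 1180337449) (W1 := 48354161) (P3 := 649613803) (W3 := 48318383) (n := ndB4q2) (c := cZ)
    ⟨T.l 0,
      by decide +kernel⟩
theorem cA_n2_52 : CertNd 1180337449 48354161 649613803 48318383 (ftNear true 2 mZ 1 1 1365) [⟨3, 429496730⟩] ndB5q2 cZ :=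
  certNd (T := (ftNear true 2 mZ 1 1 1365)) (L := [⟨3, 429496730⟩]) (P1 := 1180337449) (W1 := 48354161) (P3 := 649613803) (W3 := 48318383) (n := ndB5q2) (c := cZ)
    ⟨T.l 0,
      by decide +kernel⟩
theorem cA_n2_62 : CertNd 1180337449 48354161 649613803 48318383 (ftNear true 2 mZ 1 1 1365) [⟨3, 429496730⟩] ndB6q2 cZ :=
  certNd (T := (ftNear true 2 mZ 1 1 1365)) (L := [⟨3, 429496730⟩]) (P1 := 1180337449) (W1 := 48354161) (P3 := 649613803) (W3 := 48318383) (n := ndB6q2) (c := cZ)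
    ⟨T.l 0,
      by decide +kernel⟩
theorem cA_n2_72 : CertNd 1180337449 48354161 649613803 48318383 (ftNear true 2 mZ 1 1 1365) [⟨3, 429496730⟩] ndB7q2 cZ :=
  certNd (T := (ftNear true 2 mZ 1 1 1365)) (L := [⟨3, 429496730⟩]) (P1 := 1180337449) (W1 := 48354161) (P3 := 649613803) (W3 := 48318383) (n := ndB7q2) (c := cZ)
    ⟨T.l 0,
      by decide +kernel⟩
theorem cA_n2_82 : CertNd 1180337449 48354161 649613803 48318383 (ftNear true 2 mZ 1 1 1365) [⟨3, 429496730⟩] ndB8q2 cZ :=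
  certNd (T := (ftNear true 2 mZ 1 1 1365)) (L := [⟨3, 429496730⟩]) (P1 := 1180337449) (W1 := 48354161) (P3 := 649613803) (W3 := 48318383) (n := ndB8q2) (c := cZ)
    ⟨T.l 0,
      by decide +kernel⟩
theorem cA_R2_2 : CertSd 1180337449 48354161 649613803 48318383 (ftFar true 2 mZ 1 1 1365 1100) [] idF (cnF 1100 1000) pcB2 dZ :=
  certSd (T := (ftFar true 2 mZ 1 1 1365 1100)) (L := []) (P1 := 1180337449) (W1 := 48354161) (P3 := 649613803) (W3 := 48318383) (Y := idF) (X := (cnF 1100 1000))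
    (pc := pcB2) (c := dZ) ⟨T.l 0,
      by decide +kernel⟩
theorem cA_N2_2 : CertSd 1180337449 48354161 649613803 48318383 (ftNear true 2 mZ 1 1 1365) [] idF (cnF 400 1000) pcB2 dZ :=
  certSd (T := (ftNear true 2 mZ 1 1 1365)) (L := []) (P1 := 1180337449) (W1 := 48354161) (P3 := 649613803) (W3 := 48318383) (Y := idF) (X := (cnF 400 1000))
    (pc := pcB2) (c := dZ) ⟨T.a (T.l 0) (T.l 0),
      by decide +kernel⟩
theorem cA_r3_02 : CertNd 0 536870912 649613803 48318383 (ftFar true 2 mZ 1 1 1382 1100) [⟨0, 1191496102⟩, ⟨1, 1233651011⟩, ⟨2, 1181116006⟩] ndB0q2 cZ :=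
  certNd (T := (ftFar true 2 mZ 1 1 1382 1100)) (L := [⟨0, 1191496102⟩, ⟨1, 1233651011⟩, ⟨2, 1181116006⟩]) (P1 := 0) (W1 := 536870912) (P3 := 649613803) (W3 := 48318383) (n := ndB0q2) (c := cZ)
    ⟨T.l 5,
      by decide +kernel⟩
theorem cA_r3_12 : CertNd 1191496102 42154909 649613803 48318383 (ftFar true 2 mZ 1 1 1382 1100) [⟨2, 1181116006⟩] ndB1q2 cZ :=
  certNd (T := (ftFar true 2 mZ 1 1 1382 1100)) (L := [⟨2, 1181116006⟩]) (P1 := 1191496102) (W1 := 42154909) (P3 := 649613803) (W3 := 48318383) (n := ndB1q2) (c := cZ)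
    ⟨T.l 0,
      by decide +kernel⟩
theorem cA_r3_22 : CertNd 1191496102 42154909 649613803 48318383 (ftFar true 2 mZ 1 1 1382 1100) [⟨2, 1181116006⟩] ndB2q2 cZ :=
  certNd (T := (ftFar true 2 mZ 1 1 1382 1100)) (L := [⟨2, 1181116006⟩]) (P1 := 1191496102) (W1 := 42154909) (P3 := 649613803) (W3 := 48318383) (n := ndB2q2) (c := cZ)
    ⟨T.l 0,
      by decide +kernel⟩
theorem cA_r3_32 : CertNd 1191496102 42154909 649613803 48318383 (ftFar true 2 mZ 1 1 1382 1100) [⟨2, 1181116006⟩] ndB3q2 cZ :=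
  certNd (T := (ftFar true 2 mZ 1 1 1382 1100)) (L := [⟨2, 1181116006⟩]) (P1 := 1191496102) (W1 := 42154909) (P3 := 649613803) (W3 := 48318383) (n := ndB3q2) (c := cZ)
    ⟨T.l 0,
      by decide +kernel⟩
theorem cA_r3_42 : CertNd 1191496102 42154909 649613803 48318383 (ftFar true 2 mZ 1 1 1382 1100) [⟨2, 1181116006⟩] ndB4q2 cZ :=
  certNd (T := (ftFar true 2 mZ 1 1 1382 1100)) (L := [⟨2, 1181116006⟩]) (P1 := 1191496102) (W1 := 42154909) (P3 := 649613803) (W3 := 48318383) (n := ndB4q2) (c := cZ)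
    ⟨T.l 0,
      by decide +kernel⟩
theorem cA_r3_52 : CertNd 1191496102 42154909 649613803 48318383 (ftFar true 2 mZ 1 1 1382 1100) [⟨2, 1181116006⟩] ndB5q2 cZ :=
  certNd (T := (ftFar true 2 mZ 1 1 1382 1100)) (L := [⟨2, 1181116006⟩]) (P1 := 1191496102) (W1 := 42154909) (P3 := 649613803) (W3 := 48318383) (n := ndB5q2) (c := cZ)
    ⟨T.l 0,
      by decide +kernel⟩
theorem cA_r3_62 : CertNd 1191496102 42154909 649613803 48318383 (ftFar true 2 mZ 1 1 1382 1100) [⟨2, 1181116006⟩] ndB6q2 cZ :=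
  certNd (T := (ftFar true 2 mZ 1 1 1382 1100)) (L := [⟨2, 1181116006⟩]) (P1 := 1191496102) (W1 := 42154909) (P3 := 649613803) (W3 := 48318383) (n := ndB6q2) (c := cZ)
    ⟨T.l 0,
      by decide +kernel⟩
theorem cA_r3_72 : CertNd 1191496102 42154909 649613803 48318383 (ftFar true 2 mZ 1 1 1382 1100) [⟨2, 1181116006⟩] ndB7q2 cZ :=
  certNd (T := (ftFar true 2 mZ 1 1 1382 1100)) (L := [⟨2, 1181116006⟩]) (P1 := 1191496102) (W1 := 42154909) (P3 := 649613803) (W3 := 48318383) (n := ndB7q2) (c := cZ)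
    ⟨T.l 0,
      by decide +kernel⟩
theorem cA_r3_82 : CertNd 1191496102 42154909 649613803 48318383 (ftFar true 2 mZ 1 1 1382 1100) [⟨2, 1181116006⟩] ndB8q2 cZ :=
  certNd (T := (ftFar true 2 mZ 1 1 1382 1100)) (L := [⟨2, 1181116006⟩]) (P1 := 1191496102) (W1 := 42154909) (P3 := 649613803) (W3 := 48318383) (n := ndB8q2) (c := cZ)
    ⟨T.c (T.a (T.c (T.a (T.l 0) (T.l 0)) (T.l 0)) (T.l 0)) (T.l 0),
      by decide +kernel⟩
theorem cA_n3_02z : CertNd 0 5368709 649613803 48318383 (ftNear true 2 mZ 1 1 1382) [⟨0, 1191496102⟩, ⟨1, 1233651011⟩] ⟨ndB0q2.Y, onF, kq02, lq02⟩ cZ :=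
  certNd (T := (ftNear true 2 mZ 1 1 1382)) (L := [⟨0, 1191496102⟩, ⟨1, 1233651011⟩]) (P1 := 0) (W1 := 5368709) (P3 := 649613803) (W3 := 48318383) (n := ⟨ndB0q2.Y, onF, kq02, lq02⟩) (c := cZ)
    ⟨T.l 3,
      by decide +kernel⟩
theorem cA_n3_02 : CertNd 0 536870912 649613803 48318383 (ftNear true 2 mZ 1 1 1382) [⟨0, 1191496102⟩, ⟨1, 1233651011⟩, ⟨2, 5368709⟩, ⟨3, 429496730⟩] ndB0q2 cZ :=
  certNd (T := (ftNear true 2 mZ 1 1 1382)) (L := [⟨0, 1191496102⟩, ⟨1, 1233651011⟩, ⟨2, 5368709⟩, ⟨3, 429496730⟩]) (P1 := 0) (W1 := 536870912) (P3 := 649613803) (W3 := 48318383) (n := ndB0q2) (c := cZ)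
    ⟨T.a (T.a (T.a (T.l 3) (T.a (T.l 3) (T.c (T.l 0) (T.a (T.c (T.l 0) (T.a (T.a (T.l 3) (T.l 0)) (T.l 0))) (T.l 0))))) (T.a (T.a (T.l 0) (T.l 0)) (T.c (T.l 0) (T.l 0)))) (T.a (T.a (T.l 0) (T.l 0)) (T.l 0)),
      by decide +kernel⟩
theorem cA_n3_12 : CertNd 1191496102 42154909 649613803 48318383 (ftNear true 2 mZ 1 1 1382) [⟨3, 429496730⟩] ndB1q2 cZ :=
  certNd (T := (ftNear true 2 mZ 1 1 1382)) (L := [⟨3, 429496730⟩]) (P1 := 1191496102) (W1 := 42154909) (P3 := 649613803) (W3 := 48318383) (n := ndB1q2) (c := cZ)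
    ⟨T.a (T.l 0) (T.a (T.l 0) (T.a (T.l 0) (T.a (T.l 0) (T.l 0)))),
      by decide +kernel⟩
theorem cA_n3_22 : CertNd 1191496102 42154909 649613803 48318383 (ftNear true 2 mZ 1 1 1382) [⟨3, 429496730⟩] ndB2q2 cZ :=
  certNd (T := (ftNear true 2 mZ 1 1 1382)) (L := [⟨3, 429496730⟩]) (P1 := 1191496102) (W1 := 42154909) (P3 := 649613803) (W3 := 48318383) (n := ndB2q2) (c := cZ)
    ⟨T.a (T.l 0) (T.a (T.l 0) (T.l 0)),
      by decide +kernel⟩
theorem cA_n3_32 : CertNd 1191496102 42154909 649613803 48318383 (ftNear true 2 mZ 1 1 1382) [⟨3, 429496730⟩] ndB3q2 cZ :=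
  certNd (T := (ftNear true 2 mZ 1 1 1382)) (L := [⟨3, 429496730⟩]) (P1 := 1191496102) (W1 := 42154909) (P3 := 649613803) (W3 := 48318383) (n := ndB3q2) (c := cZ)
    ⟨T.l 0,
      by decide +kernel⟩
theorem cA_n3_42 : CertNd 1191496102 42154909 649613803 48318383 (ftNear true 2 mZ 1 1 1382) [⟨3, 429496730⟩] ndB4q2 cZ :=
  certNd (T := (ftNear true 2 mZ 1 1 1382)) (L := [⟨3, 429496730⟩]) (P1 := 1191496102) (W1 := 42154909) (P3 := 649613803) (W3 := 48318383) (n := ndB4q2) (c := cZ)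
    ⟨T.l 0,
      by decide +kernel⟩
theorem cA_n3_52 : CertNd 1191496102 42154909 649613803 48318383 (ftNear true 2 mZ 1 1 1382) [⟨3, 429496730⟩] ndB5q2 cZ :=
  certNd (T := (ftNear true 2 mZ 1 1 1382)) (L := [⟨3, 429496730⟩]) (P1 := 1191496102) (W1 := 42154909) (P3 := 649613803) (W3 := 48318383) (n := ndB5q2) (c := cZ)
    ⟨T.l 0,
      by decide +kernel⟩
theorem cA_n3_62 : CertNd 1191496102 42154909 649613803 48318383 (ftNear true 2 mZ 1 1 1382) [⟨3, 429496730⟩] ndB6q2 cZ :=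
  certNd (T := (ftNear true 2 mZ 1 1 1382)) (L := [⟨3, 429496730⟩]) (P1 := 1191496102) (W1 := 42154909) (P3 := 649613803) (W3 := 48318383) (n := ndB6q2) (c := cZ)
    ⟨T.l 0,
      by decide +kernel⟩
theorem cA_n3_72 : CertNd 1191496102 42154909 649613803 48318383 (ftNear true 2 mZ 1 1 1382) [⟨3, 429496730⟩] ndB7q2 cZ :=
  certNd (T := (ftNear true 2 mZ 1 1 1382)) (L := [⟨3, 429496730⟩]) (P1 := 1191496102) (W1 := 42154909) (P3 := 649613803) (W3 := 48318383) (n := ndB7q2) (c := cZ)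
    ⟨T.l 0,
      by decide +kernel⟩
theorem cA_n3_82 : CertNd 1191496102 42154909 649613803 48318383 (ftNear true 2 mZ 1 1 1382) [⟨3, 429496730⟩] ndB8q2 cZ :=
  certNd (T := (ftNear true 2 mZ 1 1 1382)) (L := [⟨3, 429496730⟩]) (P1 := 1191496102) (W1 := 42154909) (P3 := 649613803) (W3 := 48318383) (n := ndB8q2) (c := cZ)
    ⟨T.l 0,
      by decide +kernel⟩
theorem cA_R3_2 : CertSd 1191496102 42154909 649613803 48318383 (ftFar true 2 mZ 1 1 1382 1100) [] idF (cnF 1100 1000) pcB2 dZ :=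
  certSd (T := (ftFar true 2 mZ 1 1 1382 1100)) (L := []) (P1 := 1191496102) (W1 := 42154909) (P3 := 649613803) (W3 := 48318383) (Y := idF) (X := (cnF 1100 1000))
    (pc := pcB2) (c := dZ) ⟨T.l 0,
      by decide +kernel⟩
theorem cA_N3_2 : CertSd 1191496102 42154909 649613803 48318383 (ftNear true 2 mZ 1 1 1382) [] idF (cnF 400 1000) pcB2 dZ :=
  certSd (T := (ftNear true 2 mZ 1 1 1382)) (L := []) (P1 := 1191496102) (W1 := 42154909) (P3 := 649613803) (W3 := 48318383) (Y := idF) (X := (cnF 400 1000))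
    (pc := pcB2) (c := dZ) ⟨T.a (T.l 0) (T.l 0),
      by decide +kernel⟩
theorem cA_r4_02 : CertNd 0 536870912 649613803 48318383 (ftFar true 2 mZ 1 1 1389 1100) [⟨0, 1196455503⟩, ⟨1, 1236130712⟩, ⟨2, 1181116006⟩] ndB0q2 cZ :=
  certNd (T := (ftFar true 2 mZ 1 1 1389 1100)) (L := [⟨0, 1196455503⟩, ⟨1, 1236130712⟩, ⟨2, 1181116006⟩]) (P1 := 0) (W1 := 536870912) (P3 := 649613803) (W3 := 48318383) (n := ndB0q2) (c := cZ)
    ⟨T.l 5,
      by decide +kernel⟩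
theorem cA_r4_12 : CertNd 1196455503 39675209 649613803 48318383 (ftFar true 2 mZ 1 1 1389 1100) [⟨2, 1181116006⟩] ndB1q2 cZ :=
  certNd (T := (ftFar true 2 mZ 1 1 1389 1100)) (L := [⟨2, 1181116006⟩]) (P1 := 1196455503) (W1 := 39675209) (P3 := 649613803) (W3 := 48318383) (n := ndB1q2) (c := cZ)
    ⟨T.l 0,
      by decide +kernel⟩
theorem cA_r4_22 : CertNd 1196455503 39675209 649613803 48318383 (ftFar true 2 mZ 1 1 1389 1100) [⟨2, 1181116006⟩] ndB2q2 cZ :=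
  certNd (T := (ftFar true 2 mZ 1 1 1389 1100)) (L := [⟨2, 1181116006⟩]) (P1 := 1196455503) (W1 := 39675209) (P3 := 649613803) (W3 := 48318383) (n := ndB2q2) (c := cZ)
    ⟨T.l 0,
      by decide +kernel⟩
theorem cA_r4_32 : CertNd 1196455503 39675209 649613803 48318383 (ftFar true 2 mZ 1 1 1389 1100) [⟨2, 1181116006⟩] ndB3q2 cZ :=
  certNd (T := (ftFar true 2 mZ 1 1 1389 1100)) (L := [⟨2, 1181116006⟩]) (P1 := 1196455503) (W1 := 39675209) (P3 := 649613803) (W3 := 48318383) (n := ndB3q2) (c := cZ)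
    ⟨T.l 0,
      by decide +kernel⟩
theorem cA_r4_42 : CertNd 1196455503 39675209 649613803 48318383 (ftFar true 2 mZ 1 1 1389 1100) [⟨2, 1181116006⟩] ndB4q2 cZ :=
  certNd (T := (ftFar true 2 mZ 1 1 1389 1100)) (L := [⟨2, 1181116006⟩]) (P1 := 1196455503) (W1 := 39675209) (P3 := 649613803) (W3 := 48318383) (n := ndB4q2) (c := cZ)
    ⟨T.l 0,
      by decide +kernel⟩
theorem cA_r4_52 : CertNd 1196455503 39675209 649613803 48318383 (ftFar true 2 mZ 1 1 1389 1100) [⟨2, 1181116006⟩] ndB5q2 cZ :=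
  certNd (T := (ftFar true 2 mZ 1 1 1389 1100)) (L := [⟨2, 1181116006⟩]) (P1 := 1196455503) (W1 := 39675209) (P3 := 649613803) (W3 := 48318383) (n := ndB5q2) (c := cZ)
    ⟨T.l 0,
      by decide +kernel⟩
theorem cA_r4_62 : CertNd 1196455503 39675209 649613803 48318383 (ftFar true 2 mZ 1 1 1389 1100) [⟨2, 1181116006⟩] ndB6q2 cZ :=
  certNd (T := (ftFar true 2 mZ 1 1 1389 1100)) (L := [⟨2, 1181116006⟩]) (P1 := 1196455503) (W1 := 39675209) (P3 := 649613803) (W3 := 48318383) (n := ndB6q2) (c := cZ)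
    ⟨T.l 0,
      by decide +kernel⟩
theorem cA_r4_72 : CertNd 1196455503 39675209 649613803 48318383 (ftFar true 2 mZ 1 1 1389 1100) [⟨2, 1181116006⟩] ndB7q2 cZ :=
  certNd (T := (ftFar true 2 mZ 1 1 1389 1100)) (L := [⟨2, 1181116006⟩]) (P1 := 1196455503) (W1 := 39675209) (P3 := 649613803) (W3 := 48318383) (n := ndB7q2) (c := cZ)
    ⟨T.l 0,
      by decide +kernel⟩
theorem cA_r4_82 : CertNd 1196455503 39675209 649613803 48318383 (ftFar true 2 mZ 1 1 1389 1100) [⟨2, 1181116006⟩] ndB8q2 cZ :=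
  certNd (T := (ftFar true 2 mZ 1 1 1389 1100)) (L := [⟨2, 1181116006⟩]) (P1 := 1196455503) (W1 := 39675209) (P3 := 649613803) (W3 := 48318383) (n := ndB8q2) (c := cZ)
    ⟨T.c (T.a (T.c (T.a (T.l 0) (T.l 0)) (T.l 0)) (T.l 0)) (T.l 0),
      by decide +kernel⟩
theorem cA_n4_02z : CertNd 0 5368709 649613803 48318383 (ftNear true 2 mZ 1 1 1389) [⟨0, 1196455503⟩, ⟨1, 1236130712⟩] ⟨ndB0q2.Y, onF, kq02, lq02⟩ cZ :=
  certNd (T := (ftNear true 2 mZ 1 1 1389)) (L := [⟨0, 1196455503⟩, ⟨1, 1236130712⟩]) (P1 := 0) (W1 := 5368709) (P3 := 649613803) (W3 := 48318383) (n := ⟨ndB0q2.Y, onF, kq02, lq02⟩) (c := cZ)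
    ⟨T.l 3,
      by decide +kernel⟩
theorem cA_n4_02 : CertNd 0 536870912 649613803 48318383 (ftNear true 2 mZ 1 1 1389) [⟨0, 1196455503⟩, ⟨1, 1236130712⟩, ⟨2, 5368709⟩, ⟨3, 429496730⟩] ndB0q2 cZ :=
  certNd (T := (ftNear true 2 mZ 1 1 1389)) (L := [⟨0, 1196455503⟩, ⟨1, 1236130712⟩, ⟨2, 5368709⟩, ⟨3, 429496730⟩]) (P1 := 0) (W1 := 536870912) (P3 := 649613803) (W3 := 48318383) (n := ndB0q2) (c := cZ)
    ⟨T.a (T.a (T.a (T.l 3) (T.a (T.c (T.l 0) (T.a (T.c (T.l 0) (T.c (T.l 0) (T.a (T.l 3) (T.l 0)))) (T.c (T.l 0) (T.l 0)))) (T.a (T.l 0) (T.l 0)))) (T.a (T.a (T.l 0) (T.l 0)) (T.l 0))) (T.a (T.a (T.l 0) (T.l 0)) (T.l 0)),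
      by decide +kernel⟩
theorem cA_n4_12 : CertNd 1196455503 39675209 649613803 48318383 (ftNear true 2 mZ 1 1 1389) [⟨3, 429496730⟩] ndB1q2 cZ :=
  certNd (T := (ftNear true 2 mZ 1 1 1389)) (L := [⟨3, 429496730⟩]) (P1 := 1196455503) (W1 := 39675209) (P3 := 649613803) (W3 := 48318383) (n := ndB1q2) (c := cZ)
    ⟨T.a (T.l 0) (T.a (T.l 0) (T.a (T.l 0) (T.a (T.l 0) (T.c (T.l 0) (T.l 0))))),
      by decide +kernel⟩
theorem cA_n4_22 : CertNd 1196455503 39675209 649613803 48318383 (ftNear true 2 mZ 1 1 1389) [⟨3, 429496730⟩] ndB2q2 cZ :=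
  certNd (T := (ftNear true 2 mZ 1 1 1389)) (L := [⟨3, 429496730⟩]) (P1 := 1196455503) (W1 := 39675209) (P3 := 649613803) (W3 := 48318383) (n := ndB2q2) (c := cZ)
    ⟨T.a (T.l 0) (T.a (T.l 0) (T.a (T.l 0) (T.l 0))),
      by decide +kernel⟩
theorem cA_n4_32 : CertNd 1196455503 39675209 649613803 48318383 (ftNear true 2 mZ 1 1 1389) [⟨3, 429496730⟩] ndB3q2 cZ :=
  certNd (T := (ftNear true 2 mZ 1 1 1389)) (L := [⟨3, 429496730⟩]) (P1 := 1196455503) (W1 := 39675209) (P3 := 649613803) (W3 := 48318383) (n := ndB3q2) (c := cZ)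
    ⟨T.a (T.l 0) (T.l 0),
      by decide +kernel⟩
theorem cA_n4_42 : CertNd 1196455503 39675209 649613803 48318383 (ftNear true 2 mZ 1 1 1389) [⟨3, 429496730⟩] ndB4q2 cZ :=
  certNd (T := (ftNear true 2 mZ 1 1 1389)) (L := [⟨3, 429496730⟩]) (P1 := 1196455503) (W1 := 39675209) (P3 := 649613803) (W3 := 48318383) (n := ndB4q2) (c := cZ)
    ⟨T.l 0,
      by decide +kernel⟩
theorem cA_n4_52 : CertNd 1196455503 39675209 649613803 48318383 (ftNear true 2 mZ 1 1 1389) [⟨3, 429496730⟩] ndB5q2 cZ :=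
  certNd (T := (ftNear true 2 mZ 1 1 1389)) (L := [⟨3, 429496730⟩]) (P1 := 1196455503) (W1 := 39675209) (P3 := 649613803) (W3 := 48318383) (n := ndB5q2) (c := cZ)
    ⟨T.l 0,
      by decide +kernel⟩
theorem cA_n4_62 : CertNd 1196455503 39675209 649613803 48318383 (ftNear true 2 mZ 1 1 1389) [⟨3, 429496730⟩] ndB6q2 cZ :=
  certNd (T := (ftNear true 2 mZ 1 1 1389)) (L := [⟨3, 429496730⟩]) (P1 := 1196455503) (W1 := 39675209) (P3 := 649613803) (W3 := 48318383) (n := ndB6q2) (c := cZ)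
    ⟨T.l 0,
      by decide +kernel⟩
theorem cA_n4_72 : CertNd 1196455503 39675209 649613803 48318383 (ftNear true 2 mZ 1 1 1389) [⟨3, 429496730⟩] ndB7q2 cZ :=
  certNd (T := (ftNear true 2 mZ 1 1 1389)) (L := [⟨3, 429496730⟩]) (P1 := 1196455503) (W1 := 39675209) (P3 := 649613803) (W3 := 48318383) (n := ndB7q2) (c := cZ)
    ⟨T.l 0,
      by decide +kernel⟩
theorem cA_n4_82 : CertNd 1196455503 39675209 649613803 48318383 (ftNear true 2 mZ 1 1 1389) [⟨3, 429496730⟩] ndB8q2 cZ :=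
  certNd (T := (ftNear true 2 mZ 1 1 1389)) (L := [⟨3, 429496730⟩]) (P1 := 1196455503) (W1 := 39675209) (P3 := 649613803) (W3 := 48318383) (n := ndB8q2) (c := cZ)
    ⟨T.l 0,
      by decide +kernel⟩
theorem cA_R4_2 : CertSd 1196455503 39675209 649613803 48318383 (ftFar true 2 mZ 1 1 1389 1100) [] idF (cnF 1100 1000) pcB2 dZ :=
  certSd (T := (ftFar true 2 mZ 1 1 1389 1100)) (L := []) (P1 := 1196455503) (W1 := 39675209) (P3 := 649613803) (W3 := 48318383) (Y := idF) (X := (cnF 1100 1000))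
    (pc := pcB2) (c := dZ) ⟨T.l 0,
      by decide +kernel⟩
theorem cA_N4_2 : CertSd 1196455503 39675209 649613803 48318383 (ftNear true 2 mZ 1 1 1389) [] idF (cnF 400 1000) pcB2 dZ :=
  certSd (T := (ftNear true 2 mZ 1 1 1389)) (L := []) (P1 := 1196455503) (W1 := 39675209) (P3 := 649613803) (W3 := 48318383) (Y := idF) (X := (cnF 400 1000))
    (pc := pcB2) (c := dZ) ⟨T.a (T.l 0) (T.l 0),
      by decide +kernel⟩
theorem cA_r5_02 : CertNd 0 536870912 649613803 48318383 (ftFar true 2 mZ 1 1 1392 1100) [⟨0, 1198935203⟩, ⟨1, 1237370562⟩, ⟨2, 1181116006⟩] ndB0q2 cZ :=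
  certNd (T := (ftFar true 2 mZ 1 1 1392 1100)) (L := [⟨0, 1198935203⟩, ⟨1, 1237370562⟩, ⟨2, 1181116006⟩]) (P1 := 0) (W1 := 536870912) (P3 := 649613803) (W3 := 48318383) (n := ndB0q2) (c := cZ)
    ⟨T.l 5,
      by decide +kernel⟩
theorem cA_r5_12 : CertNd 1198935203 38435359 649613803 48318383 (ftFar true 2 mZ 1 1 1392 1100) [⟨2, 1181116006⟩] ndB1q2 cZ :=
  certNd (T := (ftFar true 2 mZ 1 1 1392 1100)) (L := [⟨2, 1181116006⟩]) (P1 := 1198935203) (W1 := 38435359) (P3 := 649613803) (W3 := 48318383) (n := ndB1q2) (c := cZ)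
    ⟨T.l 0,
      by decide +kernel⟩
theorem cA_r5_22 : CertNd 1198935203 38435359 649613803 48318383 (ftFar true 2 mZ 1 1 1392 1100) [⟨2, 1181116006⟩] ndB2q2 cZ :=
  certNd (T := (ftFar true 2 mZ 1 1 1392 1100)) (L := [⟨2, 1181116006⟩]) (P1 := 1198935203) (W1 := 38435359) (P3 := 649613803) (W3 := 48318383) (n := ndB2q2) (c := cZ)
    ⟨T.l 0,
      by decide +kernel⟩
theorem cA_r5_32 : CertNd 1198935203 38435359 649613803 48318383 (ftFar true 2 mZ 1 1 1392 1100) [⟨2, 1181116006⟩] ndB3q2 cZ :=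
  certNd (T := (ftFar true 2 mZ 1 1 1392 1100)) (L := [⟨2, 1181116006⟩]) (P1 := 1198935203) (W1 := 38435359) (P3 := 649613803) (W3 := 48318383) (n := ndB3q2) (c := cZ)
    ⟨T.l 0,
      by decide +kernel⟩
theorem cA_r5_42 : CertNd 1198935203 38435359 649613803 48318383 (ftFar true 2 mZ 1 1 1392 1100) [⟨2, 1181116006⟩] ndB4q2 cZ :=
  certNd (T := (ftFar true 2 mZ 1 1 1392 1100)) (L := [⟨2, 1181116006⟩]) (P1 := 1198935203) (W1 := 38435359) (P3 := 649613803) (W3 := 48318383) (n := ndB4q2) (c := cZ)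
    ⟨T.l 0,
      by decide +kernel⟩
theorem cA_r5_52 : CertNd 1198935203 38435359 649613803 48318383 (ftFar true 2 mZ 1 1 1392 1100) [⟨2, 1181116006⟩] ndB5q2 cZ :=
  certNd (T := (ftFar true 2 mZ 1 1 1392 1100)) (L := [⟨2, 1181116006⟩]) (P1 := 1198935203) (W1 := 38435359) (P3 := 649613803) (W3 := 48318383) (n := ndB5q2) (c := cZ)
    ⟨T.l 0,
      by decide +kernel⟩
theorem cA_r5_62 : CertNd 1198935203 38435359 649613803 48318383 (ftFar true 2 mZ 1 1 1392 1100) [⟨2, 1181116006⟩] ndB6q2 cZ :=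
  certNd (T := (ftFar true 2 mZ 1 1 1392 1100)) (L := [⟨2, 1181116006⟩]) (P1 := 1198935203) (W1 := 38435359) (P3 := 649613803) (W3 := 48318383) (n := ndB6q2) (c := cZ)
    ⟨T.l 0,
      by decide +kernel⟩
theorem cA_r5_72 : CertNd 1198935203 38435359 649613803 48318383 (ftFar true 2 mZ 1 1 1392 1100) [⟨2, 1181116006⟩] ndB7q2 cZ :=
  certNd (T := (ftFar true 2 mZ 1 1 1392 1100)) (L := [⟨2, 1181116006⟩]) (P1 := 1198935203) (W1 := 38435359) (P3 := 649613803) (W3 := 48318383) (n := ndB7q2) (c := cZ)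
    ⟨T.l 0,
      by decide +kernel⟩
theorem cA_r5_82 : CertNd 1198935203 38435359 649613803 48318383 (ftFar true 2 mZ 1 1 1392 1100) [⟨2, 1181116006⟩] ndB8q2 cZ :=
  certNd (T := (ftFar true 2 mZ 1 1 1392 1100)) (L := [⟨2, 1181116006⟩]) (P1 := 1198935203) (W1 := 38435359) (P3 := 649613803) (W3 := 48318383) (n := ndB8q2) (c := cZ)
    ⟨T.c (T.a (T.c (T.c (T.l 0) (T.l 0)) (T.l 0)) (T.l 0)) (T.l 0),
      by decide +kernel⟩
theorem cA_n5_02z : CertNd 0 5368709 649613803 48318383 (ftNear true 2 mZ 1 1 1392) [⟨0, 1198935203⟩, ⟨1, 1237370562⟩] ⟨ndB0q2.Y, onF, kq02, lq02⟩ cZ :=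
  certNd (T := (ftNear true 2 mZ 1 1 1392)) (L := [⟨0, 1198935203⟩, ⟨1, 1237370562⟩]) (P1 := 0) (W1 := 5368709) (P3 := 649613803) (W3 := 48318383) (n := ⟨ndB0q2.Y, onF, kq02, lq02⟩) (c := cZ)
    ⟨T.l 3,
      by decide +kernel⟩
theorem cA_n5_02 : CertNd 0 536870912 649613803 48318383 (ftNear true 2 mZ 1 1 1392) [⟨0, 1198935203⟩, ⟨1, 1237370562⟩, ⟨2, 5368709⟩, ⟨3, 429496730⟩] ndB0q2 cZ :=
  certNd (T := (ftNear true 2 mZ 1 1 1392)) (L := [⟨0, 1198935203⟩, ⟨1, 1237370562⟩, ⟨2, 5368709⟩, ⟨3, 429496730⟩]) (P1 := 0) (W1 := 536870912) (P3 := 649613803) (W3 := 48318383) (n := ndB0q2) (c := cZ)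
    ⟨T.a (T.a (T.a (T.l 3) (T.a (T.c (T.l 0) (T.a (T.a (T.l 0) (T.l 0)) (T.l 0))) (T.a (T.l 0) (T.l 0)))) (T.a (T.a (T.l 0) (T.l 0)) (T.l 0))) (T.a (T.a (T.l 0) (T.l 0)) (T.l 0)),
      by decide +kernel⟩
theorem cA_n5_12 : CertNd 1198935203 38435359 649613803 48318383 (ftNear true 2 mZ 1 1 1392) [⟨3, 429496730⟩] ndB1q2 cZ :=
  certNd (T := (ftNear true 2 mZ 1 1 1392)) (L := [⟨3, 429496730⟩]) (P1 := 1198935203) (W1 := 38435359) (P3 := 649613803) (W3 := 48318383) (n := ndB1q2) (c := cZ)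
    ⟨T.a (T.l 0) (T.a (T.l 0) (T.a (T.l 0) (T.a (T.l 0) (T.a (T.l 0) (T.l 0))))),
      by decide +kernel⟩
theorem cA_n5_22 : CertNd 1198935203 38435359 649613803 48318383 (ftNear true 2 mZ 1 1 1392) [⟨3, 429496730⟩] ndB2q2 cZ :=
  certNd (T := (ftNear true 2 mZ 1 1 1392)) (L := [⟨3, 429496730⟩]) (P1 := 1198935203) (W1 := 38435359) (P3 := 649613803) (W3 := 48318383) (n := ndB2q2) (c := cZ)
    ⟨T.a (T.l 0) (T.a (T.l 0) (T.a (T.l 0) (T.l 0))),
      by decide +kernel⟩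
theorem cA_n5_32 : CertNd 1198935203 38435359 649613803 48318383 (ftNear true 2 mZ 1 1 1392) [⟨3, 429496730⟩] ndB3q2 cZ :=
  certNd (T := (ftNear true 2 mZ 1 1 1392)) (L := [⟨3, 429496730⟩]) (P1 := 1198935203) (W1 := 38435359) (P3 := 649613803) (W3 := 48318383) (n := ndB3q2) (c := cZ)
    ⟨T.a (T.l 0) (T.l 0),
      by decide +kernel⟩
theorem cA_n5_42 : CertNd 1198935203 38435359 649613803 48318383 (ftNear true 2 mZ 1 1 1392) [⟨3, 429496730⟩] ndB4q2 cZ :=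
  certNd (T := (ftNear true 2 mZ 1 1 1392)) (L := [⟨3, 429496730⟩]) (P1 := 1198935203) (W1 := 38435359) (P3 := 649613803) (W3 := 48318383) (n := ndB4q2) (c := cZ)
    ⟨T.l 0,
      by decide +kernel⟩
theorem cA_n5_52 : CertNd 1198935203 38435359 649613803 48318383 (ftNear true 2 mZ 1 1 1392) [⟨3, 429496730⟩] ndB5q2 cZ :=
  certNd (T := (ftNear true 2 mZ 1 1 1392)) (L := [⟨3, 429496730⟩]) (P1 := 1198935203) (W1 := 38435359) (P3 := 649613803) (W3 := 48318383) (n := ndB5q2) (c := cZ)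
    ⟨T.l 0,
      by decide +kernel⟩
theorem cA_n5_62 : CertNd 1198935203 38435359 649613803 48318383 (ftNear true 2 mZ 1 1 1392) [⟨3, 429496730⟩] ndB6q2 cZ :=
  certNd (T := (ftNear true 2 mZ 1 1 1392)) (L := [⟨3, 429496730⟩]) (P1 := 1198935203) (W1 := 38435359) (P3 := 649613803) (W3 := 48318383) (n := ndB6q2) (c := cZ)
    ⟨T.l 0,
      by decide +kernel⟩
theorem cA_n5_72 : CertNd 1198935203 38435359 649613803 48318383 (ftNear true 2 mZ 1 1 1392) [⟨3, 429496730⟩] ndB7q2 cZ :=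
  certNd (T := (ftNear true 2 mZ 1 1 1392)) (L := [⟨3, 429496730⟩]) (P1 := 1198935203) (W1 := 38435359) (P3 := 649613803) (W3 := 48318383) (n := ndB7q2) (c := cZ)
    ⟨T.l 0,
      by decide +kernel⟩
theorem cA_n5_82 : CertNd 1198935203 38435359 649613803 48318383 (ftNear true 2 mZ 1 1 1392) [⟨3, 429496730⟩] ndB8q2 cZ :=
  certNd (T := (ftNear true 2 mZ 1 1 1392)) (L := [⟨3, 429496730⟩]) (P1 := 1198935203) (W1 := 38435359) (P3 := 649613803) (W3 := 48318383) (n := ndB8q2) (c := cZ)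
    ⟨T.l 0,
      by decide +kernel⟩
theorem cA_R5_2 : CertSd 1198935203 38435359 649613803 48318383 (ftFar true 2 mZ 1 1 1392 1100) [] idF (cnF 1100 1000) pcB2 dZ :=
  certSd (T := (ftFar true 2 mZ 1 1 1392 1100)) (L := []) (P1 := 1198935203) (W1 := 38435359) (P3 := 649613803) (W3 := 48318383) (Y := idF) (X := (cnF 1100 1000))
    (pc := pcB2) (c := dZ) ⟨T.l 0,
      by decide +kernel⟩
theorem cA_N5_2 : CertSd 1198935203 38435359 649613803 48318383 (ftNear true 2 mZ 1 1 1392) [] idF (cnF 400 1000) pcB2 dZ :=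
  certSd (T := (ftNear true 2 mZ 1 1 1392)) (L := []) (P1 := 1198935203) (W1 := 38435359) (P3 := 649613803) (W3 := 48318383) (Y := idF) (X := (cnF 400 1000))
    (pc := pcB2) (c := dZ) ⟨T.a (T.l 0) (T.l 0),
      by decide +kernel⟩
theorem cA_r6_02 : CertNd 0 536870912 649613803 48318383 (ftFar true 2 mZ 1 1 1394 1100) [⟨0, 1200175053⟩, ⟨1, 1238610412⟩, ⟨2, 1181116006⟩] ndB0q2 cZ :=
  certNd (T := (ftFar true 2 mZ 1 1 1394 1100)) (L := [⟨0, 1200175053⟩, ⟨1, 1238610412⟩, ⟨2, 1181116006⟩]) (P1 := 0) (W1 := 536870912) (P3 := 649613803) (W3 := 48318383) (n := ndB0q2) (c := cZ)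
    ⟨T.l 5,
      by decide +kernel⟩
theorem cA_r6_12 : CertNd 1200175053 38435359 649613803 48318383 (ftFar true 2 mZ 1 1 1394 1100) [⟨2, 1181116006⟩] ndB1q2 cZ :=
  certNd (T := (ftFar true 2 mZ 1 1 1394 1100)) (L := [⟨2, 1181116006⟩]) (P1 := 1200175053) (W1 := 38435359) (P3 := 649613803) (W3 := 48318383) (n := ndB1q2) (c := cZ)
    ⟨T.l 0,
      by decide +kernel⟩
theorem cA_r6_22 : CertNd 1200175053 38435359 649613803 48318383 (ftFar true 2 mZ 1 1 1394 1100) [⟨2, 1181116006⟩] ndB2q2 cZ :=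
  certNd (T := (ftFar true 2 mZ 1 1 1394 1100)) (L := [⟨2, 1181116006⟩]) (P1 := 1200175053) (W1 := 38435359) (P3 := 649613803) (W3 := 48318383) (n := ndB2q2) (c := cZ)
    ⟨T.l 0,
      by decide +kernel⟩
theorem cA_r6_32 : CertNd 1200175053 38435359 649613803 48318383 (ftFar true 2 mZ 1 1 1394 1100) [⟨2, 1181116006⟩] ndB3q2 cZ :=
  certNd (T := (ftFar true 2 mZ 1 1 1394 1100)) (L := [⟨2, 1181116006⟩]) (P1 := 1200175053) (W1 := 38435359) (P3 := 649613803) (W3 := 48318383) (n := ndB3q2) (c := cZ)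
    ⟨T.l 0,
      by decide +kernel⟩
theorem cA_r6_42 : CertNd 1200175053 38435359 649613803 48318383 (ftFar true 2 mZ 1 1 1394 1100) [⟨2, 1181116006⟩] ndB4q2 cZ :=
  certNd (T := (ftFar true 2 mZ 1 1 1394 1100)) (L := [⟨2, 1181116006⟩]) (P1 := 1200175053) (W1 := 38435359) (P3 := 649613803) (W3 := 48318383) (n := ndB4q2) (c := cZ)
    ⟨T.l 0,
      by decide +kernel⟩
theorem cA_r6_52 : CertNd 1200175053 38435359 649613803 48318383 (ftFar true 2 mZ 1 1 1394 1100) [⟨2, 1181116006⟩] ndB5q2 cZ :=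
  certNd (T := (ftFar true 2 mZ 1 1 1394 1100)) (L := [⟨2, 1181116006⟩]) (P1 := 1200175053) (W1 := 38435359) (P3 := 649613803) (W3 := 48318383) (n := ndB5q2) (c := cZ)
    ⟨T.l 0,
      by decide +kernel⟩
theorem cA_r6_62 : CertNd 1200175053 38435359 649613803 48318383 (ftFar true 2 mZ 1 1 1394 1100) [⟨2, 1181116006⟩] ndB6q2 cZ :=
  certNd (T := (ftFar true 2 mZ 1 1 1394 1100)) (L := [⟨2, 1181116006⟩]) (P1 := 1200175053) (W1 := 38435359) (P3 := 649613803) (W3 := 48318383) (n := ndB6q2) (c := cZ)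
    ⟨T.l 0,
      by decide +kernel⟩
theorem cA_r6_72 : CertNd 1200175053 38435359 649613803 48318383 (ftFar true 2 mZ 1 1 1394 1100) [⟨2, 1181116006⟩] ndB7q2 cZ :=
  certNd (T := (ftFar true 2 mZ 1 1 1394 1100)) (L := [⟨2, 1181116006⟩]) (P1 := 1200175053) (W1 := 38435359) (P3 := 649613803) (W3 := 48318383) (n := ndB7q2) (c := cZ)
    ⟨T.l 0,
      by decide +kernel⟩
theorem cA_r6_82 : CertNd 1200175053 38435359 649613803 48318383 (ftFar true 2 mZ 1 1 1394 1100) [⟨2, 1181116006⟩] ndB8q2 cZ :=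
  certNd (T := (ftFar true 2 mZ 1 1 1394 1100)) (L := [⟨2, 1181116006⟩]) (P1 := 1200175053) (W1 := 38435359) (P3 := 649613803) (W3 := 48318383) (n := ndB8q2) (c := cZ)
    ⟨T.c (T.a (T.c (T.a (T.l 0) (T.l 0)) (T.l 0)) (T.l 0)) (T.l 0),
      by decide +kernel⟩
theorem cA_n6_02z : CertNd 0 5368709 649613803 48318383 (ftNear true 2 mZ 1 1 1394) [⟨0, 1200175053⟩, ⟨1, 1238610412⟩] ⟨ndB0q2.Y, onF, kq02, lq02⟩ cZ :=
  certNd (T := (ftNear true 2 mZ 1 1 1394)) (L := [⟨0, 1200175053⟩, ⟨1, 1238610412⟩]) (P1 := 0) (W1 := 5368709) (P3 := 649613803) (W3 := 48318383) (n := ⟨ndB0q2.Y, onF, kq02, lq02⟩) (c := cZ)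
    ⟨T.l 3,
      by decide +kernel⟩
theorem cA_n6_02 : CertNd 0 536870912 649613803 48318383 (ftNear true 2 mZ 1 1 1394) [⟨0, 1200175053⟩, ⟨1, 1238610412⟩, ⟨2, 5368709⟩, ⟨3, 429496730⟩] ndB0q2 cZ :=
  certNd (T := (ftNear true 2 mZ 1 1 1394)) (L := [⟨0, 1200175053⟩, ⟨1, 1238610412⟩, ⟨2, 5368709⟩, ⟨3, 429496730⟩]) (P1 := 0) (W1 := 536870912) (P3 := 649613803) (W3 := 48318383) (n := ndB0q2) (c := cZ)
    ⟨T.a (T.a (T.a (T.a (T.l 3) (T.c (T.c (T.l 0) (T.l 0)) (T.a (T.c (T.l 0) (T.a (T.l 3) (T.l 0))) (T.a (T.l 0) (T.l 0))))) (T.a (T.c (T.l 0) (T.a (T.l 0) (T.l 0))) (T.c (T.l 0) (T.l 0)))) (T.a (T.a (T.l 0) (T.l 0)) (T.l 0))) (T.a (T.a (T.l 0) (T.l 0)) (T.l 0)),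
      by decide +kernel⟩
theorem cA_n6_12 : CertNd 1200175053 38435359 649613803 48318383 (ftNear true 2 mZ 1 1 1394) [⟨3, 429496730⟩] ndB1q2 cZ :=
  certNd (T := (ftNear true 2 mZ 1 1 1394)) (L := [⟨3, 429496730⟩]) (P1 := 1200175053) (W1 := 38435359) (P3 := 649613803) (W3 := 48318383) (n := ndB1q2) (c := cZ)
    ⟨T.a (T.l 0) (T.a (T.l 0) (T.a (T.l 0) (T.a (T.l 0) (T.a (T.l 0) (T.a (T.l 0) (T.c (T.l 0) (T.l 0))))))),
      by decide +kernel⟩
theorem cA_n6_22 : CertNd 1200175053 38435359 649613803 48318383 (ftNear true 2 mZ 1 1 1394) [⟨3, 429496730⟩] ndB2q2 cZ :=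
  certNd (T := (ftNear true 2 mZ 1 1 1394)) (L := [⟨3, 429496730⟩]) (P1 := 1200175053) (W1 := 38435359) (P3 := 649613803) (W3 := 48318383) (n := ndB2q2) (c := cZ)
    ⟨T.a (T.l 0) (T.a (T.l 0) (T.a (T.l 0) (T.a (T.l 0) (T.l 0)))),
      by decide +kernel⟩
theorem cA_n6_32 : CertNd 1200175053 38435359 649613803 48318383 (ftNear true 2 mZ 1 1 1394) [⟨3, 429496730⟩] ndB3q2 cZ :=
  certNd (T := (ftNear true 2 mZ 1 1 1394)) (L := [⟨3, 429496730⟩]) (P1 := 1200175053) (W1 := 38435359) (P3 := 649613803) (W3 := 48318383) (n := ndB3q2) (c := cZ)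
    ⟨T.a (T.l 0) (T.l 0),
      by decide +kernel⟩
theorem cA_n6_42 : CertNd 1200175053 38435359 649613803 48318383 (ftNear true 2 mZ 1 1 1394) [⟨3, 429496730⟩] ndB4q2 cZ :=
  certNd (T := (ftNear true 2 mZ 1 1 1394)) (L := [⟨3, 429496730⟩]) (P1 := 1200175053) (W1 := 38435359) (P3 := 649613803) (W3 := 48318383) (n := ndB4q2) (c := cZ)
    ⟨T.l 0,
      by decide +kernel⟩
theorem cA_n6_52 : CertNd 1200175053 38435359 649613803 48318383 (ftNear true 2 mZ 1 1 1394) [⟨3, 429496730⟩] ndB5q2 cZ :=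
  certNd (T := (ftNear true 2 mZ 1 1 1394)) (L := [⟨3, 429496730⟩]) (P1 := 1200175053) (W1 := 38435359) (P3 := 649613803) (W3 := 48318383) (n := ndB5q2) (c := cZ)
    ⟨T.l 0,
      by decide +kernel⟩
theorem cA_n6_62 : CertNd 1200175053 38435359 649613803 48318383 (ftNear true 2 mZ 1 1 1394) [⟨3, 429496730⟩] ndB6q2 cZ :=
  certNd (T := (ftNear true 2 mZ 1 1 1394)) (L := [⟨3, 429496730⟩]) (P1 := 1200175053) (W1 := 38435359) (P3 := 649613803) (W3 := 48318383) (n := ndB6q2) (c := cZ)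
    ⟨T.l 0,
      by decide +kernel⟩
theorem cA_n6_72 : CertNd 1200175053 38435359 649613803 48318383 (ftNear true 2 mZ 1 1 1394) [⟨3, 429496730⟩] ndB7q2 cZ :=
  certNd (T := (ftNear true 2 mZ 1 1 1394)) (L := [⟨3, 429496730⟩]) (P1 := 1200175053) (W1 := 38435359) (P3 := 649613803) (W3 := 48318383) (n := ndB7q2) (c := cZ)
    ⟨T.l 0,
      by decide +kernel⟩
theorem cA_n6_82 : CertNd 1200175053 38435359 649613803 48318383 (ftNear true 2 mZ 1 1 1394) [⟨3, 429496730⟩] ndB8q2 cZ :=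
  certNd (T := (ftNear true 2 mZ 1 1 1394)) (L := [⟨3, 429496730⟩]) (P1 := 1200175053) (W1 := 38435359) (P3 := 649613803) (W3 := 48318383) (n := ndB8q2) (c := cZ)
    ⟨T.l 0,
      by decide +kernel⟩
theorem cA_R6_2 : CertSd 1200175053 38435359 649613803 48318383 (ftFar true 2 mZ 1 1 1394 1100) [] idF (cnF 1100 1000) pcB2 dZ :=
  certSd (T := (ftFar true 2 mZ 1 1 1394 1100)) (L := []) (P1 := 1200175053) (W1 := 38435359) (P3 := 649613803) (W3 := 48318383) (Y := idF) (X := (cnF 1100 1000))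
    (pc := pcB2) (c := dZ) ⟨T.l 0,
      by decide +kernel⟩
theorem cA_N6_2 : CertSd 1200175053 38435359 649613803 48318383 (ftNear true 2 mZ 1 1 1394) [] idF (cnF 400 1000) pcB2 dZ :=
  certSd (T := (ftNear true 2 mZ 1 1 1394)) (L := []) (P1 := 1200175053) (W1 := 38435359) (P3 := 649613803) (W3 := 48318383) (Y := idF) (X := (cnF 400 1000))
    (pc := pcB2) (c := dZ) ⟨T.a (T.l 0) (T.l 0),
      by decide +kernel⟩
theorem cA_r7_02 : CertNd 0 536870912 649613803 48318383 (ftFar true 2 mZ 1 1 1396 1100) [⟨0, 1201414904⟩, ⟨1, 1423348102⟩, ⟨2, 1181116006⟩] ndB0q2 cZ :=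
  certNd (T := (ftFar true 2 mZ 1 1 1396 1100)) (L := [⟨0, 1201414904⟩, ⟨1, 1423348102⟩, ⟨2, 1181116006⟩]) (P1 := 0) (W1 := 536870912) (P3 := 649613803) (W3 := 48318383) (n := ndB0q2) (c := cZ)
    ⟨T.l 5,
      by decide +kernel⟩
theorem cA_r7_12 : CertNd 1201414904 221933198 649613803 48318383 (ftFar true 2 mZ 1 1 1396 1100) [⟨2, 1181116006⟩] ndB1q2 cZ :=
  certNd (T := (ftFar true 2 mZ 1 1 1396 1100)) (L := [⟨2, 1181116006⟩]) (P1 := 1201414904) (W1 := 221933198) (P3 := 649613803) (W3 := 48318383) (n := ndB1q2) (c := cZ)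
    ⟨T.l 1,
      by decide +kernel⟩
theorem cA_r7_22 : CertNd 1201414904 221933198 649613803 48318383 (ftFar true 2 mZ 1 1 1396 1100) [⟨2, 1181116006⟩] ndB2q2 cZ :=
  certNd (T := (ftFar true 2 mZ 1 1 1396 1100)) (L := [⟨2, 1181116006⟩]) (P1 := 1201414904) (W1 := 221933198) (P3 := 649613803) (W3 := 48318383) (n := ndB2q2) (c := cZ)
    ⟨T.l 1,
      by decide +kernel⟩
theorem cA_r7_32 : CertNd 1201414904 221933198 649613803 48318383 (ftFar true 2 mZ 1 1 1396 1100) [⟨2, 1181116006⟩] ndB3q2 cZ :=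
  certNd (T := (ftFar true 2 mZ 1 1 1396 1100)) (L := [⟨2, 1181116006⟩]) (P1 := 1201414904) (W1 := 221933198) (P3 := 649613803) (W3 := 48318383) (n := ndB3q2) (c := cZ)
    ⟨T.l 0,
      by decide +kernel⟩
theorem cA_r7_42 : CertNd 1201414904 221933198 649613803 48318383 (ftFar true 2 mZ 1 1 1396 1100) [⟨2, 1181116006⟩] ndB4q2 cZ :=
  certNd (T := (ftFar true 2 mZ 1 1 1396 1100)) (L := [⟨2, 1181116006⟩]) (P1 := 1201414904) (W1 := 221933198) (P3 := 649613803) (W3 := 48318383) (n := ndB4q2) (c := cZ)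
    ⟨T.l 0,
      by decide +kernel⟩
theorem cA_r7_52 : CertNd 1201414904 221933198 649613803 48318383 (ftFar true 2 mZ 1 1 1396 1100) [⟨2, 1181116006⟩] ndB5q2 cZ :=
  certNd (T := (ftFar true 2 mZ 1 1 1396 1100)) (L := [⟨2, 1181116006⟩]) (P1 := 1201414904) (W1 := 221933198) (P3 := 649613803) (W3 := 48318383) (n := ndB5q2) (c := cZ)
    ⟨T.l 0,
      by decide +kernel⟩
theorem cA_r7_62 : CertNd 1201414904 221933198 649613803 48318383 (ftFar true 2 mZ 1 1 1396 1100) [⟨2, 1181116006⟩] ndB6q2 cZ :=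
  certNd (T := (ftFar true 2 mZ 1 1 1396 1100)) (L := [⟨2, 1181116006⟩]) (P1 := 1201414904) (W1 := 221933198) (P3 := 649613803) (W3 := 48318383) (n := ndB6q2) (c := cZ)
    ⟨T.l 0,
      by decide +kernel⟩
theorem cA_r7_72 : CertNd 1201414904 221933198 649613803 48318383 (ftFar true 2 mZ 1 1 1396 1100) [⟨2, 1181116006⟩] ndB7q2 cZ :=
  certNd (T := (ftFar true 2 mZ 1 1 1396 1100)) (L := [⟨2, 1181116006⟩]) (P1 := 1201414904) (W1 := 221933198) (P3 := 649613803) (W3 := 48318383) (n := ndB7q2) (c := cZ)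
    ⟨T.l 0,
      by decide +kernel⟩
theorem cA_r7_82 : CertNd 1201414904 221933198 649613803 48318383 (ftFar true 2 mZ 1 1 1396 1100) [⟨2, 1181116006⟩] ndB8q2 cZ :=
  certNd (T := (ftFar true 2 mZ 1 1 1396 1100)) (L := [⟨2, 1181116006⟩]) (P1 := 1201414904) (W1 := 221933198) (P3 := 649613803) (W3 := 48318383) (n := ndB8q2) (c := cZ)
    ⟨T.a (T.a (T.a (T.c (T.a (T.c (T.c (T.l 0) (T.l 0)) (T.l 0)) (T.l 0)) (T.l 0)) (T.l 0)) (T.l 0)) (T.l 0),
      by decide +kernel⟩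
theorem cA_n7_02z : CertNd 0 5368709 649613803 48318383 (ftNear true 2 mZ 1 1 1396) [⟨0, 1201414904⟩, ⟨1, 1423348102⟩] ⟨ndB0q2.Y, onF, kq02, lq02⟩ cZ :=
  certNd (T := (ftNear true 2 mZ 1 1 1396)) (L := [⟨0, 1201414904⟩, ⟨1, 1423348102⟩]) (P1 := 0) (W1 := 5368709) (P3 := 649613803) (W3 := 48318383) (n := ⟨ndB0q2.Y, onF, kq02, lq02⟩) (c := cZ)
    ⟨T.l 0,
      by decide +kernel⟩
theorem cA_n7_02 : CertNd 0 536870912 649613803 48318383 (ftNear true 2 mZ 1 1 1396) [⟨0, 1201414904⟩, ⟨1, 1423348102⟩, ⟨2, 5368709⟩, ⟨3, 429496730⟩] ndB0q2 cZ :=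
  certNd (T := (ftNear true 2 mZ 1 1 1396)) (L := [⟨0, 1201414904⟩, ⟨1, 1423348102⟩, ⟨2, 5368709⟩, ⟨3, 429496730⟩]) (P1 := 0) (W1 := 536870912) (P3 := 649613803) (W3 := 48318383) (n := ndB0q2) (c := cZ)
    ⟨T.a (T.a (T.a (T.a (T.c (T.a (T.a (T.a (T.l 5) (T.l 0)) (T.l 0)) (T.l 0)) (T.a (T.c (T.a (T.a (T.l 5) (T.l 0)) (T.l 0)) (T.a (T.a (T.l 5) (T.c (T.l 0) (T.a (T.l 0) (T.l 0)))) (T.c (T.l 0) (T.a (T.l 0) (T.l 0))))) (T.c (T.l 0) (T.a (T.a (T.l 0) (T.l 0)) (T.l 0))))) (T.c (T.c (T.l 0) (T.l 0)) (T.a (T.c (T.l 0) (T.a (T.l 0) (T.l 0))) (T.c (T.l 0) (T.l 0))))) (T.a (T.c (T.l 0) (T.a (T.l 0) (T.l 0))) (T.c (T.l 0) (T.l 0)))) (T.a (T.a (T.l 0) (T.l 0)) (T.l 0))) (T.a (T.a (T.l 0) (T.l 0)) (T.l 0)),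
      by decide +kernel⟩
theorem cA_n7_12a : CertNd 0 536870912 649613803 48318383 (ftNear true 2 mZ 1 1 1396) [⟨0, 1201414904⟩, ⟨1, 1423348102⟩, ⟨3, 429496730⟩] ndB1q2a cZ :=
  certNd (T := (ftNear true 2 mZ 1 1 1396)) (L := [⟨0, 1201414904⟩, ⟨1, 1423348102⟩, ⟨3, 429496730⟩]) (P1 := 0) (W1 := 536870912) (P3 := 649613803) (W3 := 48318383) (n := ndB1q2a) (c := cZ)
    ⟨T.a (T.a (T.a (T.a (T.c (T.l 0) (T.c (T.l 0) (T.a (T.c (T.l 0) (T.l 0)) (T.l 0)))) (T.a (T.l 0) (T.l 0))) (T.a (T.l 0) (T.l 0))) (T.a (T.l 0) (T.l 0))) (T.a (T.l 0) (T.l 0)),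
      by decide +kernel⟩
theorem cA_n7_12b : CertNd 1239849684 370763052 649613803 48318383 (ftNear true 2 mZ 1 1 1396) [⟨0, 1201414904⟩, ⟨1, 1423348102⟩, ⟨3, 429496730⟩] ndB1q2b cZ :=
  certNd (T := (ftNear true 2 mZ 1 1 1396)) (L := [⟨0, 1201414904⟩, ⟨1, 1423348102⟩, ⟨3, 429496730⟩]) (P1 := 1239849684) (W1 := 370763052) (P3 := 649613803) (W3 := 48318383) (n := ndB1q2b) (c := cZ)
    ⟨T.a (T.a (T.a (T.c (T.l 0) (T.c (T.l 0) (T.a (T.l 0) (T.l 0)))) (T.l 0)) (T.l 0)) (T.l 0),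
      by decide +kernel⟩
theorem cA_n7_22 : CertNd 1201414904 221933198 649613803 48318383 (ftNear true 2 mZ 1 1 1396) [⟨3, 429496730⟩] ndB2q2 cZ :=
  certNd (T := (ftNear true 2 mZ 1 1 1396)) (L := [⟨3, 429496730⟩]) (P1 := 1201414904) (W1 := 221933198) (P3 := 649613803) (W3 := 48318383) (n := ndB2q2) (c := cZ)
    ⟨T.a (T.a (T.a (T.a (T.l 0) (T.l 0)) (T.a (T.a (T.l 0) (T.a (T.a (T.l 0) (T.a (T.l 0) (T.l 0))) (T.a (T.a (T.a (T.a (T.l 0) (T.a (T.a (T.l 0) (T.a (T.a (T.l 0) (T.l 0)) (T.l 0))) (T.l 0))) (T.l 0)) (T.l 0)) (T.l 0)))) (T.l 0))) (T.l 0)) (T.l 0),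
      by decide +kernel⟩
theorem cA_n7_32 : CertNd 1201414904 221933198 649613803 48318383 (ftNear true 2 mZ 1 1 1396) [⟨3, 429496730⟩] ndB3q2 cZ :=
  certNd (T := (ftNear true 2 mZ 1 1 1396)) (L := [⟨3, 429496730⟩]) (P1 := 1201414904) (W1 := 221933198) (P3 := 649613803) (W3 := 48318383) (n := ndB3q2) (c := cZ)
    ⟨T.a (T.a (T.a (T.l 0) (T.a (T.a (T.l 0) (T.a (T.l 0) (T.l 0))) (T.l 0))) (T.l 0)) (T.l 0),
      by decide +kernel⟩
theorem cA_n7_42 : CertNd 1201414904 221933198 649613803 48318383 (ftNear true 2 mZ 1 1 1396) [⟨3, 429496730⟩] ndB4q2 cZ :=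
  certNd (T := (ftNear true 2 mZ 1 1 1396)) (L := [⟨3, 429496730⟩]) (P1 := 1201414904) (W1 := 221933198) (P3 := 649613803) (W3 := 48318383) (n := ndB4q2) (c := cZ)
    ⟨T.a (T.l 0) (T.l 0),
      by decide +kernel⟩
theorem cA_n7_52 : CertNd 1201414904 221933198 649613803 48318383 (ftNear true 2 mZ 1 1 1396) [⟨3, 429496730⟩] ndB5q2 cZ :=
  certNd (T := (ftNear true 2 mZ 1 1 1396)) (L := [⟨3, 429496730⟩]) (P1 := 1201414904) (W1 := 221933198) (P3 := 649613803) (W3 := 48318383) (n := ndB5q2) (c := cZ)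
    ⟨T.l 0,
      by decide +kernel⟩
theorem cA_n7_62 : CertNd 1201414904 221933198 649613803 48318383 (ftNear true 2 mZ 1 1 1396) [⟨3, 429496730⟩] ndB6q2 cZ :=
  certNd (T := (ftNear true 2 mZ 1 1 1396)) (L := [⟨3, 429496730⟩]) (P1 := 1201414904) (W1 := 221933198) (P3 := 649613803) (W3 := 48318383) (n := ndB6q2) (c := cZ)
    ⟨T.l 0,
      by decide +kernel⟩
theorem cA_n7_72 : CertNd 1201414904 221933198 649613803 48318383 (ftNear true 2 mZ 1 1 1396) [⟨3, 429496730⟩] ndB7q2 cZ :=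
  certNd (T := (ftNear true 2 mZ 1 1 1396)) (L := [⟨3, 429496730⟩]) (P1 := 1201414904) (W1 := 221933198) (P3 := 649613803) (W3 := 48318383) (n := ndB7q2) (c := cZ)
    ⟨T.l 0,
      by decide +kernel⟩
theorem cA_n7_82 : CertNd 1201414904 221933198 649613803 48318383 (ftNear true 2 mZ 1 1 1396) [⟨3, 429496730⟩] ndB8q2 cZ :=
  certNd (T := (ftNear true 2 mZ 1 1 1396)) (L := [⟨3, 429496730⟩]) (P1 := 1201414904) (W1 := 221933198) (P3 := 649613803) (W3 := 48318383) (n := ndB8q2) (c := cZ)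
    ⟨T.l 0,
      by decide +kernel⟩
theorem cA_R7_2 : CertSd 1201414904 221933198 649613803 48318383 (ftFar true 2 mZ 1 1 1396 1100) [] idF (cnF 1100 1000) pcB2 dZ :=
  certSd (T := (ftFar true 2 mZ 1 1 1396 1100)) (L := []) (P1 := 1201414904) (W1 := 221933198) (P3 := 649613803) (W3 := 48318383) (Y := idF) (X := (cnF 1100 1000))
    (pc := pcB2) (c := dZ) ⟨T.l 0,
      by decide +kernel⟩
theorem cA_N7_2 : CertSd 1201414904 221933198 649613803 48318383 (ftNear true 2 mZ 1 1 1396) [] idF (cnF 400 1000) pcB2 dZ :=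
  certSd (T := (ftNear true 2 mZ 1 1 1396)) (L := []) (P1 := 1201414904) (W1 := 221933198) (P3 := 649613803) (W3 := 48318383) (Y := idF) (X := (cnF 400 1000))
    (pc := pcB2) (c := dZ) ⟨T.a (T.a (T.a (T.l 0) (T.a (T.a (T.l 0) (T.l 0)) (T.l 0))) (T.l 0)) (T.l 0),
      by decide +kernel⟩
theorem cA_r8_02 : CertNd 0 536870912 649613803 48318383 (ftFar true 2 mZ 1 1 1804 1100) [⟨0, 1386152593⟩, ⟨1, 1698594860⟩, ⟨2, 1181116006⟩] ndB0q2 cZ :=
  certNd (T := (ftFar true 2 mZ 1 1 1804 1100)) (L := [⟨0, 1386152593⟩, ⟨1, 1698594860⟩, ⟨2, 1181116006⟩]) (P1 := 0) (W1 := 536870912) (P3 := 649613803) (W3 := 48318383) (n := ndB0q2) (c := cZ)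
    ⟨T.l 1,
      by decide +kernel⟩
theorem cA_r8_12 : CertNd 1386152593 224460143 649613803 48318383 (ftFar true 2 mZ 1 1 1804 1100) [⟨2, 1181116006⟩] ndB1q2 cZ :=
  certNd (T := (ftFar true 2 mZ 1 1 1804 1100)) (L := [⟨2, 1181116006⟩]) (P1 := 1386152593) (W1 := 224460143) (P3 := 649613803) (W3 := 48318383) (n := ndB1q2) (c := cZ)
    ⟨T.l 0,
      by decide +kernel⟩
theorem cA_r8_22 : CertNd 1386152593 224460143 649613803 48318383 (ftFar true 2 mZ 1 1 1804 1100) [⟨2, 1181116006⟩] ndB2q2 cZ :=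
  certNd (T := (ftFar true 2 mZ 1 1 1804 1100)) (L := [⟨2, 1181116006⟩]) (P1 := 1386152593) (W1 := 224460143) (P3 := 649613803) (W3 := 48318383) (n := ndB2q2) (c := cZ)
    ⟨T.l 0,
      by decide +kernel⟩
theorem cA_r8_32 : CertNd 1386152593 224460143 649613803 48318383 (ftFar true 2 mZ 1 1 1804 1100) [⟨2, 1181116006⟩] ndB3q2 cZ :=
  certNd (T := (ftFar true 2 mZ 1 1 1804 1100)) (L := [⟨2, 1181116006⟩]) (P1 := 1386152593) (W1 := 224460143) (P3 := 649613803) (W3 := 48318383) (n := ndB3q2) (c := cZ)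
    ⟨T.l 0,
      by decide +kernel⟩
theorem cA_r8_42 : CertNd 1386152593 224460143 649613803 48318383 (ftFar true 2 mZ 1 1 1804 1100) [⟨2, 1181116006⟩] ndB4q2 cZ :=
  certNd (T := (ftFar true 2 mZ 1 1 1804 1100)) (L := [⟨2, 1181116006⟩]) (P1 := 1386152593) (W1 := 224460143) (P3 := 649613803) (W3 := 48318383) (n := ndB4q2) (c := cZ)
    ⟨T.l 0,
      by decide +kernel⟩
theorem cA_r8_52 : CertNd 1386152593 224460143 649613803 48318383 (ftFar true 2 mZ 1 1 1804 1100) [⟨2, 1181116006⟩] ndB5q2 cZ :=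
  certNd (T := (ftFar true 2 mZ 1 1 1804 1100)) (L := [⟨2, 1181116006⟩]) (P1 := 1386152593) (W1 := 224460143) (P3 := 649613803) (W3 := 48318383) (n := ndB5q2) (c := cZ)
    ⟨T.l 0,
      by decide +kernel⟩
theorem cA_r8_62 : CertNd 1386152593 224460143 649613803 48318383 (ftFar true 2 mZ 1 1 1804 1100) [⟨2, 1181116006⟩] ndB6q2 cZ :=
  certNd (T := (ftFar true 2 mZ 1 1 1804 1100)) (L := [⟨2, 1181116006⟩]) (P1 := 1386152593) (W1 := 224460143) (P3 := 649613803) (W3 := 48318383) (n := ndB6q2) (c := cZ)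
    ⟨T.l 0,
      by decide +kernel⟩
theorem cA_r8_72 : CertNd 1386152593 224460143 649613803 48318383 (ftFar true 2 mZ 1 1 1804 1100) [⟨2, 1181116006⟩] ndB7q2 cZ :=
  certNd (T := (ftFar true 2 mZ 1 1 1804 1100)) (L := [⟨2, 1181116006⟩]) (P1 := 1386152593) (W1 := 224460143) (P3 := 649613803) (W3 := 48318383) (n := ndB7q2) (c := cZ)
    ⟨T.l 0,
      by decide +kernel⟩
theorem cA_r8_82 : CertNd 1386152593 224460143 649613803 48318383 (ftFar true 2 mZ 1 1 1804 1100) [⟨2, 1181116006⟩] ndB8q2 cZ :=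
  certNd (T := (ftFar true 2 mZ 1 1 1804 1100)) (L := [⟨2, 1181116006⟩]) (P1 := 1386152593) (W1 := 224460143) (P3 := 649613803) (W3 := 48318383) (n := ndB8q2) (c := cZ)
    ⟨T.a (T.a (T.l 0) (T.l 0)) (T.l 0),
      by decide +kernel⟩
theorem cA_r8_13 : CertNd 1610612736 87982124 649613803 48318383 (ftFar true 3 mZ 1 1 1804 1100) [⟨2, 1181116006⟩] ndB1q3 cZ :=
  certNd (T := (ftFar true 3 mZ 1 1 1804 1100)) (L := [⟨2, 1181116006⟩]) (P1 := 1610612736) (W1 := 87982124) (P3 := 649613803) (W3 := 48318383) (n := ndB1q3) (c := cZ)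
    ⟨T.l 0,
      by decide +kernel⟩
theorem cA_r8_23 : CertNd 1610612736 87982124 649613803 48318383 (ftFar true 3 mZ 1 1 1804 1100) [⟨2, 1181116006⟩] ndB2q3 cZ :=
  certNd (T := (ftFar true 3 mZ 1 1 1804 1100)) (L := [⟨2, 1181116006⟩]) (P1 := 1610612736) (W1 := 87982124) (P3 := 649613803) (W3 := 48318383) (n := ndB2q3) (c := cZ)
    ⟨T.l 0,
      by decide +kernel⟩
theorem cA_r8_33 : CertNd 1610612736 87982124 649613803 48318383 (ftFar true 3 mZ 1 1 1804 1100) [⟨2, 1181116006⟩] ndB3q3 cZ :=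
  certNd (T := (ftFar true 3 mZ 1 1 1804 1100)) (L := [⟨2, 1181116006⟩]) (P1 := 1610612736) (W1 := 87982124) (P3 := 649613803) (W3 := 48318383) (n := ndB3q3) (c := cZ)
    ⟨T.l 0,
      by decide +kernel⟩
theorem cA_r8_43 : CertNd 1610612736 87982124 649613803 48318383 (ftFar true 3 mZ 1 1 1804 1100) [⟨2, 1181116006⟩] ndB4q3 cZ :=
  certNd (T := (ftFar true 3 mZ 1 1 1804 1100)) (L := [⟨2, 1181116006⟩]) (P1 := 1610612736) (W1 := 87982124) (P3 := 649613803) (W3 := 48318383) (n := ndB4q3) (c := cZ)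
    ⟨T.l 0,
      by decide +kernel⟩
theorem cA_r8_53 : CertNd 0 1230186008 649613803 48318383 (ftFar true 3 mZ 1 1 1804 1100) [⟨0, 1386152593⟩, ⟨1, 1698594860⟩, ⟨2, 1181116006⟩] ndB5q3 cZ :=
  certNd (T := (ftFar true 3 mZ 1 1 1804 1100)) (L := [⟨0, 1386152593⟩, ⟨1, 1698594860⟩, ⟨2, 1181116006⟩]) (P1 := 0) (W1 := 1230186008) (P3 := 649613803) (W3 := 48318383) (n := ndB5q3) (c := cZ)
    ⟨T.l 5,
      by decide +kernel⟩
theorem cA_r8_63 : CertNd 0 1230186008 649613803 48318383 (ftFar true 3 mZ 1 1 1804 1100) [⟨0, 1386152593⟩, ⟨1, 1698594860⟩, ⟨2, 1181116006⟩] ndB6q3 cZ :=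
  certNd (T := (ftFar true 3 mZ 1 1 1804 1100)) (L := [⟨0, 1386152593⟩, ⟨1, 1698594860⟩, ⟨2, 1181116006⟩]) (P1 := 0) (W1 := 1230186008) (P3 := 649613803) (W3 := 48318383) (n := ndB6q3) (c := cZ)
    ⟨T.l 5,
      by decide +kernel⟩
theorem cA_r8_73 : CertNd 0 1230186008 649613803 48318383 (ftFar true 3 mZ 1 1 1804 1100) [⟨0, 1386152593⟩, ⟨1, 1698594860⟩, ⟨2, 1181116006⟩] ndB7q3 cZ :=
  certNd (T := (ftFar true 3 mZ 1 1 1804 1100)) (L := [⟨0, 1386152593⟩, ⟨1, 1698594860⟩, ⟨2, 1181116006⟩]) (P1 := 0) (W1 := 1230186008) (P3 := 649613803) (W3 := 48318383) (n := ndB7q3) (c := cZ)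
    ⟨T.l 5,
      by decide +kernel⟩
theorem cA_r8_83 : CertNd 0 1230186008 649613803 48318383 (ftFar true 3 mZ 1 1 1804 1100) [⟨0, 1386152593⟩, ⟨1, 1698594860⟩, ⟨2, 1181116006⟩] ndB8q3 cZ :=
  certNd (T := (ftFar true 3 mZ 1 1 1804 1100)) (L := [⟨0, 1386152593⟩, ⟨1, 1698594860⟩, ⟨2, 1181116006⟩]) (P1 := 0) (W1 := 1230186008) (P3 := 649613803) (W3 := 48318383) (n := ndB8q3) (c := cZ)
    ⟨T.a (T.l 0) (T.a (T.l 0) (T.a (T.l 0) (T.l 0))),
      by decide +kernel⟩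
theorem cA_n8_02z : CertNd 0 5368709 649613803 48318383 (ftNear true 2 mZ 1 1 1804) [⟨0, 1386152593⟩, ⟨1, 1698594860⟩] ⟨ndB0q2.Y, onF, kq02, lq02⟩ cZ :=
  certNd (T := (ftNear true 2 mZ 1 1 1804)) (L := [⟨0, 1386152593⟩, ⟨1, 1698594860⟩]) (P1 := 0) (W1 := 5368709) (P3 := 649613803) (W3 := 48318383) (n := ⟨ndB0q2.Y, onF, kq02, lq02⟩) (c := cZ)
    ⟨T.l 0,
      by decide +kernel⟩
theorem cA_n8_02 : CertNd 0 536870912 649613803 48318383 (ftNear true 2 mZ 1 1 1804) [⟨0, 1386152593⟩, ⟨1, 1698594860⟩, ⟨2, 5368709⟩, ⟨3, 429496730⟩] ndB0q2 cZ :=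
  certNd (T := (ftNear true 2 mZ 1 1 1804)) (L := [⟨0, 1386152593⟩, ⟨1, 1698594860⟩, ⟨2, 5368709⟩, ⟨3, 429496730⟩]) (P1 := 0) (W1 := 536870912) (P3 := 649613803) (W3 := 48318383) (n := ndB0q2) (c := cZ)
    ⟨T.l 1,
      by decide +kernel⟩
theorem cA_n8_12 : CertNd 1386152593 224460143 649613803 48318383 (ftNear true 2 mZ 1 1 1804) [⟨3, 429496730⟩] ndB1q2 cZ :=
  certNd (T := (ftNear true 2 mZ 1 1 1804)) (L := [⟨3, 429496730⟩]) (P1 := 1386152593) (W1 := 224460143) (P3 := 649613803) (W3 := 48318383) (n := ndB1q2) (c := cZ)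
    ⟨T.l 0,
      by decide +kernel⟩
theorem cA_n8_22 : CertNd 1386152593 224460143 649613803 48318383 (ftNear true 2 mZ 1 1 1804) [⟨3, 429496730⟩] ndB2q2 cZ :=
  certNd (T := (ftNear true 2 mZ 1 1 1804)) (L := [⟨3, 429496730⟩]) (P1 := 1386152593) (W1 := 224460143) (P3 := 649613803) (W3 := 48318383) (n := ndB2q2) (c := cZ)
    ⟨T.l 0,
      by decide +kernel⟩
theorem cA_n8_32 : CertNd 1386152593 224460143 649613803 48318383 (ftNear true 2 mZ 1 1 1804) [⟨3, 429496730⟩] ndB3q2 cZ :=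
  certNd (T := (ftNear true 2 mZ 1 1 1804)) (L := [⟨3, 429496730⟩]) (P1 := 1386152593) (W1 := 224460143) (P3 := 649613803) (W3 := 48318383) (n := ndB3q2) (c := cZ)
    ⟨T.l 0,
      by decide +kernel⟩
theorem cA_n8_42 : CertNd 1386152593 224460143 649613803 48318383 (ftNear true 2 mZ 1 1 1804) [⟨3, 429496730⟩] ndB4q2 cZ :=
  certNd (T := (ftNear true 2 mZ 1 1 1804)) (L := [⟨3, 429496730⟩]) (P1 := 1386152593) (W1 := 224460143) (P3 := 649613803) (W3 := 48318383) (n := ndB4q2) (c := cZ)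
    ⟨T.l 0,
      by decide +kernel⟩
theorem cA_n8_52 : CertNd 1386152593 224460143 649613803 48318383 (ftNear true 2 mZ 1 1 1804) [⟨3, 429496730⟩] ndB5q2 cZ :=
  certNd (T := (ftNear true 2 mZ 1 1 1804)) (L := [⟨3, 429496730⟩]) (P1 := 1386152593) (W1 := 224460143) (P3 := 649613803) (W3 := 48318383) (n := ndB5q2) (c := cZ)
    ⟨T.l 0,
      by decide +kernel⟩
theorem cA_n8_62 : CertNd 1386152593 224460143 649613803 48318383 (ftNear true 2 mZ 1 1 1804) [⟨3, 429496730⟩] ndB6q2 cZ :=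
  certNd (T := (ftNear true 2 mZ 1 1 1804)) (L := [⟨3, 429496730⟩]) (P1 := 1386152593) (W1 := 224460143) (P3 := 649613803) (W3 := 48318383) (n := ndB6q2) (c := cZ)
    ⟨T.l 0,
      by decide +kernel⟩
theorem cA_n8_72 : CertNd 1386152593 224460143 649613803 48318383 (ftNear true 2 mZ 1 1 1804) [⟨3, 429496730⟩] ndB7q2 cZ :=
  certNd (T := (ftNear true 2 mZ 1 1 1804)) (L := [⟨3, 429496730⟩]) (P1 := 1386152593) (W1 := 224460143) (P3 := 649613803) (W3 := 48318383) (n := ndB7q2) (c := cZ)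
    ⟨T.l 0,
      by decide +kernel⟩
theorem cA_n8_82 : CertNd 1386152593 224460143 649613803 48318383 (ftNear true 2 mZ 1 1 1804) [⟨3, 429496730⟩] ndB8q2 cZ :=
  certNd (T := (ftNear true 2 mZ 1 1 1804)) (L := [⟨3, 429496730⟩]) (P1 := 1386152593) (W1 := 224460143) (P3 := 649613803) (W3 := 48318383) (n := ndB8q2) (c := cZ)
    ⟨T.l 0,
      by decide +kernel⟩
theorem cA_n8_13 : CertNd 1610612736 87982124 649613803 48318383 (ftNear true 3 mZ 1 1 1804) [⟨3, 429496730⟩] ndB1q3 cZ :=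
  certNd (T := (ftNear true 3 mZ 1 1 1804)) (L := [⟨3, 429496730⟩]) (P1 := 1610612736) (W1 := 87982124) (P3 := 649613803) (W3 := 48318383) (n := ndB1q3) (c := cZ)
    ⟨T.l 0,
      by decide +kernel⟩
theorem cA_n8_23 : CertNd 1610612736 87982124 649613803 48318383 (ftNear true 3 mZ 1 1 1804) [⟨3, 429496730⟩] ndB2q3 cZ :=
  certNd (T := (ftNear true 3 mZ 1 1 1804)) (L := [⟨3, 429496730⟩]) (P1 := 1610612736) (W1 := 87982124) (P3 := 649613803) (W3 := 48318383) (n := ndB2q3) (c := cZ)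
    ⟨T.l 0,
      by decide +kernel⟩
theorem cA_n8_33 : CertNd 1610612736 87982124 649613803 48318383 (ftNear true 3 mZ 1 1 1804) [⟨3, 429496730⟩] ndB3q3 cZ :=
  certNd (T := (ftNear true 3 mZ 1 1 1804)) (L := [⟨3, 429496730⟩]) (P1 := 1610612736) (W1 := 87982124) (P3 := 649613803) (W3 := 48318383) (n := ndB3q3) (c := cZ)
    ⟨T.l 0,
      by decide +kernel⟩
theorem cA_n8_43 : CertNd 1610612736 87982124 649613803 48318383 (ftNear true 3 mZ 1 1 1804) [⟨3, 429496730⟩] ndB4q3 cZ :=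
  certNd (T := (ftNear true 3 mZ 1 1 1804)) (L := [⟨3, 429496730⟩]) (P1 := 1610612736) (W1 := 87982124) (P3 := 649613803) (W3 := 48318383) (n := ndB4q3) (c := cZ)
    ⟨T.l 0,
      by decide +kernel⟩
theorem cA_n8_53 : CertNd 0 1230186008 649613803 48318383 (ftNear true 3 mZ 1 1 1804) [⟨0, 1386152593⟩, ⟨1, 1698594860⟩, ⟨3, 429496730⟩] ndB5q3 cZ :=
  certNd (T := (ftNear true 3 mZ 1 1 1804)) (L := [⟨0, 1386152593⟩, ⟨1, 1698594860⟩, ⟨3, 429496730⟩]) (P1 := 0) (W1 := 1230186008) (P3 := 649613803) (W3 := 48318383) (n := ndB5q3) (c := cZ)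
    ⟨T.a (T.l 3) (T.a (T.l 0) (T.l 5)),
      by decide +kernel⟩
theorem cA_n8_63 : CertNd 0 1230186008 649613803 48318383 (ftNear true 3 mZ 1 1 1804) [⟨0, 1386152593⟩, ⟨1, 1698594860⟩, ⟨3, 429496730⟩] ndB6q3 cZ :=
  certNd (T := (ftNear true 3 mZ 1 1 1804)) (L := [⟨0, 1386152593⟩, ⟨1, 1698594860⟩, ⟨3, 429496730⟩]) (P1 := 0) (W1 := 1230186008) (P3 := 649613803) (W3 := 48318383) (n := ndB6q3) (c := cZ)
    ⟨T.a (T.l 3) (T.a (T.l 0) (T.l 0)),
      by decide +kernel⟩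
theorem cA_n8_73 : CertNd 0 1230186008 649613803 48318383 (ftNear true 3 mZ 1 1 1804) [⟨0, 1386152593⟩, ⟨1, 1698594860⟩, ⟨3, 429496730⟩] ndB7q3 cZ :=
  certNd (T := (ftNear true 3 mZ 1 1 1804)) (L := [⟨0, 1386152593⟩, ⟨1, 1698594860⟩, ⟨3, 429496730⟩]) (P1 := 0) (W1 := 1230186008) (P3 := 649613803) (W3 := 48318383) (n := ndB7q3) (c := cZ)
    ⟨T.a (T.l 3) (T.l 5),
      by decide +kernel⟩
theorem cA_n8_83 : CertNd 0 1230186008 649613803 48318383 (ftNear true 3 mZ 1 1 1804) [⟨0, 1386152593⟩, ⟨1, 1698594860⟩, ⟨3, 429496730⟩] ndB8q3 cZ :=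
  certNd (T := (ftNear true 3 mZ 1 1 1804)) (L := [⟨0, 1386152593⟩, ⟨1, 1698594860⟩, ⟨3, 429496730⟩]) (P1 := 0) (W1 := 1230186008) (P3 := 649613803) (W3 := 48318383) (n := ndB8q3) (c := cZ)
    ⟨T.a (T.l 3) (T.l 5),
      by decide +kernel⟩
theorem cA_R8_2 : CertSd 1386152593 224460143 649613803 48318383 (ftFar true 2 mZ 1 1 1804 1100) [] idF (cnF 1100 1000) pcB2 dZ :=
  certSd (T := (ftFar true 2 mZ 1 1 1804 1100)) (L := []) (P1 := 1386152593) (W1 := 224460143) (P3 := 649613803) (W3 := 48318383) (Y := idF) (X := (cnF 1100 1000))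
    (pc := pcB2) (c := dZ) ⟨T.a (T.l 0) (T.l 0),
      by decide +kernel⟩
theorem cA_N8_2 : CertSd 1386152593 224460143 649613803 48318383 (ftNear true 2 mZ 1 1 1804) [] idF (cnF 400 1000) pcB2 dZ :=
  certSd (T := (ftNear true 2 mZ 1 1 1804)) (L := []) (P1 := 1386152593) (W1 := 224460143) (P3 := 649613803) (W3 := 48318383) (Y := idF) (X := (cnF 400 1000))
    (pc := pcB2) (c := dZ) ⟨T.l 0,
      by decide +kernel⟩
theorem cA_R8_3 : CertSd 1610612736 48318382 649613803 48318383 (ftFar true 3 mZ 1 1 1804 1100) [] idF (cnF 1100 1000) pcB3 dZ :=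
  certSd (T := (ftFar true 3 mZ 1 1 1804 1100)) (L := []) (P1 := 1610612736) (W1 := 48318382) (P3 := 649613803) (W3 := 48318383) (Y := idF) (X := (cnF 1100 1000))
    (pc := pcB3) (c := dZ) ⟨T.l 0,
      by decide +kernel⟩
theorem cA_N8_3 : CertSd 1610612736 87982124 649613803 48318383 (ftNear true 3 mZ 1 1 1804) [] idF (cnF 400 1000) pcB3 dZ :=
  certSd (T := (ftNear true 3 mZ 1 1 1804)) (L := []) (P1 := 1610612736) (W1 := 87982124) (P3 := 649613803) (W3 := 48318383) (Y := idF) (X := (cnF 400 1000))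
    (pc := pcB3) (c := dZ) ⟨T.l 0,
      by decide +kernel⟩

end Pool.Agent.Strip051.G.I6050_6500.Tab
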