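import Pool.Agent.Strip051.G.I6050_6500.Rows
import Pool.Agent.Strip051.PB.CGood
import Pool.Agent.Strip051.PB.FinS
import Pool.Agent.Strip051.G.I6050_6500.Fl
import Pool.Agent.Strip051.G.I6050_6500.Cost

/-! # Rows from certificates (generated) -/

set_option linter.all false
set_option maxRecDepth 100000

namespace Pool.Agent.Strip051.G.I6050_6500.Tab

open Pool.Agent.Strip051.PB Pool.Agent.StripNear Pool.Agent.Strip051.LC

theorem done {x : ℝ} (hx : ((649613803 : ℕ) : ℝ) / S ≤ x) (hx' : x ≤ (((649613803 : ℕ) : ℝ) + (48318383 : ℕ)) / S) : Good (h0 * x) := by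
  have e : (((3 : ℕ) : ℝ) / ((10 : ℕ) : ℝ)) = 3 / 10 := by norm_num
  have c := (rowsE hx hx').certE
  have h := flRow (o := h0 * (3 / 40)) ⟨hx, hx'⟩ (by rw [e]; exact c) (kE_eq (hx1 hx) (hx2 hx'))
  rw [e] at h
  exact good hx hx' (ken_h0 x) c h

theorem doneI {x : ℝ} (h1 : 121 / 200 ≤ x) (h2 : x ≤ 13 / 20) : Good (h0 * x) := by
  refine done ?_ ?_
  · rw [S_num]
    norm_num
    linarith
  · rw [S_num]
    norm_num
    linarith

end Pool.Agent.Strip051.G.I6050_6500.Tab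

namespace Pool.Agent.Strip051.G.I6050_6500

open Pool.Agent.Strip051.PB Pool.Agent.StripNear Pool.Agent.Strip051.LC

theorem good_on {x : ℝ} (hx : ((649613803 : ℕ) : ℝ) / S ≤ x) (hx' : x ≤ (((649613803 : ℕ) : ℝ) + (48318383 : ℕ)) / S) : Good (h0 * x) := Tab.done hx hx'

end Pool.Agent.Strip051.G.I6050_6500
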