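import Pool.Agent.Strip051.G.I6050_6500.Fact
import Pool.Agent.Strip051.G.I6050_6500.FcA

/-! # The floor with the window, vertex A (generated) -/

set_option linter.all false

namespace Pool.Agent.Strip051.G.I6050_6500.Tab

open Pool.Agent.Strip051.PB Pool.Agent.StripNear Pool.Agent.StripSquare
  Pool.Agent.Strip051.Sweep Pool.Agent.Strip051.LC Pool.Agent.Strip051.LC.Exact
open Pool.Agent.Strip051.LC.Floor (G En Qn fS GUn kan k3d k3n zen)

theorem gsg_v (x : ℝ) : gsg.v x = G x := by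
  have : gsg.v = c1n := by funext y; simp [gsg, c1n]
  rw [this]
  rfl
theorem c1gG_v (y : ℝ) : c1g.v y = G y := by
  rw [c1g_v]
  rfl
theorem mug_v (x : ℝ) : mug3.v x = mT.v x := by
  show (((2 : ℕ) : ℝ) * gsg.v x + ((3 : ℕ) : ℝ))⁻¹ = (((3 : ℕ) : ℝ) + ((2 : ℕ) : ℝ) * c1n x)⁻¹
  rw [gsg_v, c1n_G, add_comm]
theorem gug_v (x : ℝ) : gug.v x = GUn x := by
  simp only [gug, gsg_v]
  push_cast
  unfold Pool.Agent.Strip051.LC.Floor.GUn
  ring
theorem eng_v (x : ℝ) : eng.v x = 1 + mT.v x * GUn x := by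
  simp only [eng, mug_v, gug_v]
  push_cast
  ring
theorem esgE_v (x : ℝ) : esg.v x = En x := by
  simp only [esg, gsg_v]
  push_cast
  unfold Pool.Agent.Strip051.LC.Floor.En
  ring
theorem dlg_v (y x : ℝ) : dlg.v y x = kcg.v (3 / 4 * y - G y / 2) x := by
  simp only [dlg, c1gG_v]
  push_cast
  rfl
theorem clKF1 {y x : ℝ} (h0 : 1 / 3 < y) (h1 : y < 1) : kf0q1.v y x = tq 1 y * kan y (dlg.v y x) := by
  have e := kan_hi h0 h1
  have e2 : tq 1 y = y - 1 := rfl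
  rw [e2, dlg_v]
  simp only [kf0q1, kf0q1_10, c1gG_v]
  push_cast
  unfold kan
  linear_combination e
theorem clL1 {y x : ℝ} (ha : 11 / 2198 < 3 / 4 * y - G y / 2) (hb : 3 / 4 * y - G y / 2 < 13 / 134) :
    l0q1.v y x = zen y x (dlg.v y x) := by
  rw [dlg_v]
  simp only [l0q1, txg, txg_4, txg_6, txg_26, txg_29, txg_32, txg_57, txg_101, txg_104, txg_151, txg_196, txg_199, txg_222, txg_261, txg_264, txg_307, txg_350, txg_352, txg_354, txg_356, txg_410, txg_450, txg_451, txg_493, txg_512, c1gG_v]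
  push_cast
  unfold zen Pool.Agent.Strip051.LC.Floor.Qn Pool.Agent.Strip051.LC.Floor.En
  repeat first | rw [if_pos (by linarith)] | rw [if_neg (by linarith)]
  ring1
theorem clC1 {y x : ℝ} (ha : 11 / 2198 < 3 / 4 * y - G y / 2) (hb : 3 / 4 * y - G y / 2 < 13 / 134) :
    kc0q1.v y x = k3d y (dlg.v y x) + 3 / 4 * (y - x) * mZ.v x := by
  rw [dlg_v]
  simp only [kc0q1, kc0q1_3, kc0q1_9, c1gG_v, gug_v]
  push_cast
  unfold k3d Pool.Agent.Strip051.LC.Floor.k3n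
  have ez : mZ.v x = 0 := rfl
  simp only [ez]
  repeat first | rw [if_pos (by linarith)] | rw [if_neg (by linarith)]
  ring1
theorem quK {p x : ℝ} (p0 : 0 < p) (p1 : p ≤ ((5368709 : ℕ) : ℝ) / 1073741824) : kfc02.v p x = p * kq02.v p x := by
  norm_num at p1
  simp only [kfc02, kcg, kcg_3, kcg_6, kcg_9, kcg_12, kcg_13, kcg_16, kcg_28, kcg_36, kcg_41, kcg_53, kcg_61, kcg_62, kcg_67, kcg_79, kcg_86, kcg_87, kcg_92, kcg_102, kcg_107, kcg_112, kcg_125, kcg_135, kcg_138, kcg_139, kcg_143, kcg_156, kcg_161, kcg_164, kcg_175, kcg_183, kcg_184, kcg_187, kcg_195, kcg_203, kcg_206, kcg_214, kcg_219, kcg_226, kcg_227, kcg_228, kcg_248, kcg_257, kcg_277, kcg_278, kcg_299, kq02]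
  push_cast
  repeat first | rw [if_pos (by linarith)] | rw [if_neg (by linarith)]
  ring1
theorem qx_m {p x : ℝ} (p0 : 0 < p) (p1 : p ≤ ((5368709 : ℕ) : ℝ) / 1073741824) (c : ℝ) : txg.v (-p) c x = (91104855290776759 / 929282089400000000) * p ^ 0 * x ^ 0 + (4032688 / 66060203125) * p ^ 0 * x ^ 1 + (25438511489530403 / 232320522350000000) * p ^ 1 * x ^ 0 + (-(627558740527 / 1056963250000)) * p ^ 1 * x ^ 1 + (-(4881047 / 2000000)) * p ^ 2 * x ^ 0 + (12071 / 5000) * p ^ 2 * x ^ 1 := by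
  norm_num at p1
  simp only [txg, txg_4, txg_6, txg_26, txg_29, txg_32, txg_57, txg_101, txg_104, txg_151, txg_196, txg_199, txg_222, txg_261, txg_264, txg_307, txg_350, txg_352, txg_354, txg_356, txg_410, txg_450, txg_451, txg_493, txg_512, kcg, kcg_3, kcg_6, kcg_9, kcg_12, kcg_13, kcg_16, kcg_28, kcg_36, kcg_41, kcg_53, kcg_61, kcg_62, kcg_67, kcg_79, kcg_86, kcg_87, kcg_92, kcg_102, kcg_107, kcg_112, kcg_125, kcg_135, kcg_138, kcg_139, kcg_143, kcg_156, kcg_161, kcg_164, kcg_175, kcg_183, kcg_184, kcg_187, kcg_195, kcg_203, kcg_206, kcg_214, kcg_219, kcg_226, kcg_227, kcg_228, kcg_248, kcg_257, kcg_277, kcg_278, kcg_299]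
  push_cast
  repeat first | rw [if_pos (by linarith)] | rw [if_neg (by linarith)]
  ring1
theorem qx_p {p x : ℝ} (p0 : 0 < p) (p1 : p ≤ ((5368709 : ℕ) : ℝ) / 1073741824) (c : ℝ) : txg.v p c x = (91104855290776759 / 929282089400000000) * p ^ 0 * x ^ 0 + (4032688 / 66060203125) * p ^ 0 * x ^ 1 + (-(25438511489530403 / 232320522350000000)) * p ^ 1 * x ^ 0 + (627558740527 / 1056963250000) * p ^ 1 * x ^ 1 + (-(4881047 / 2000000)) * p ^ 2 * x ^ 0 + (12071 / 5000) * p ^ 2 * x ^ 1 := by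
  norm_num at p1
  simp only [txg, txg_4, txg_6, txg_26, txg_29, txg_32, txg_57, txg_101, txg_104, txg_151, txg_196, txg_199, txg_222, txg_261, txg_264, txg_307, txg_350, txg_352, txg_354, txg_356, txg_410, txg_450, txg_451, txg_493, txg_512, kcg, kcg_3, kcg_6, kcg_9, kcg_12, kcg_13, kcg_16, kcg_28, kcg_36, kcg_41, kcg_53, kcg_61, kcg_62, kcg_67, kcg_79, kcg_86, kcg_87, kcg_92, kcg_102, kcg_107, kcg_112, kcg_125, kcg_135, kcg_138, kcg_139, kcg_143, kcg_156, kcg_161, kcg_164, kcg_175, kcg_183, kcg_184, kcg_187, kcg_195, kcg_203, kcg_206, kcg_214, kcg_219, kcg_226, kcg_227, kcg_228, kcg_248, kcg_257, kcg_277, kcg_278, kcg_299]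
  push_cast
  repeat first | rw [if_pos (by linarith)] | rw [if_neg (by linarith)]
  ring1
theorem quL {p x : ℝ} (p0 : 0 < p) (p1 : p ≤ ((5368709 : ℕ) : ℝ) / 1073741824) : lc02.v p x = p * lq02.v p x := by
  have p2 := p1
  norm_num at p2
  simp only [lc02, lc02_7, lc02_8, qx_m p0 p1, qx_p p0 p1, lq02]
  push_cast
  repeat first | rw [if_pos (by linarith)] | rw [if_neg (by linarith)]
  ring1
theorem quC {p x : ℝ} (p0 : 0 < p) (p1 : p ≤ ((5368709 : ℕ) : ℝ) / 1073741824) : kcc02.v p x = p * cq02.v p x := by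
  norm_num at p1
  simp only [kcc02, kcc02_4, cq02]
  push_cast
  repeat first | rw [if_pos (by linarith)] | rw [if_neg (by linarith)]
  ring1
theorem onA10 {x : ℝ} (hx : Rng 649613803 48318383 x) : On PP tK tL Z0 x (1 : Fin 9) 0
    (WallP (((1 : ℕ) : ℝ) / ((1 : ℕ) : ℝ)) x (mZ.v x) 0) fun _ => True := by
  have x0 := rng_pos hx (by norm_num)
  have x1 := rng_lt hx (by norm_num)
  have hμ : 0 ≤ mZ.v x := le_rfl
  have bK : En x * ndB1q0.K.v 0 x = (En x + mZ.v x * Qn x) * (1) := bK_far (corB10 x).2.1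
  have hm := On.monoY (fun y hy => (atB10 hy).far) cA_m10 hx (fun _ => rfl)
  have g := On.germ0 (fun y hy => (atB10 hy).toAt) cA_g10 hx x0 x1 hμ (corB10 x).1 bK (corB10 x).2.2.1 (hm.sub (by norm_num) (by norm_num)) (((1 : ℕ) : ℝ) / ((1 : ℕ) : ℝ))
  have w := On.wallY (fun y hy => (atB10 hy).far) cA_w10 hx (fun _ => rfl)
  exact (g.join (e := 536870912) w (by norm_num) (by norm_num)).full 0 (by norm_num) (by norm_num)
theorem flA1 {x : ℝ} (hx : Rng 649613803 48318383 x) : On PP tK tL Z0 x (1 : Fin 9) 0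
    (FlatP (((1 : ℕ) : ℝ) / ((1 : ℕ) : ℝ)) x (mZ.v x) 0) fun y => h0 * y ≤ 3 / 100 := by
  have x0 := rng_pos hx (by norm_num)
  have x1 := rng_lt hx (by norm_num)
  have hμ : 0 ≤ mZ.v x := le_rfl
  exact On.flatW (On.monoY (fun y hy => (atB10 hy).far) cA_m10 hx (fun _ => rfl)) (by norm_num) (onA10 hx)
theorem onA11 {x : ℝ} (hx : Rng 649613803 48318383 x) : On PP tK tL Z0 x (1 : Fin 9) 1
    (WallP (((1 : ℕ) : ℝ) / ((1 : ℕ) : ℝ)) x (mZ.v x) 1) fun _ => True := by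
  have x0 := rng_pos hx (by norm_num)
  have x1 := rng_lt hx (by norm_num)
  have hμ : 0 ≤ mZ.v x := le_rfl
  exact (On.wallY (fun y hy => (atB11 hy).far) cA_w11 hx (fun _ => rfl)).full 1 (by norm_num) (by norm_num)
theorem onA20 {x : ℝ} (hx : Rng 649613803 48318383 x) : On PP tK tL Z0 x (2 : Fin 9) 0
    (WallP (((1 : ℕ) : ℝ) / ((1 : ℕ) : ℝ)) x (mZ.v x) 0) fun _ => True := by
  have x0 := rng_pos hx (by norm_num)
  have x1 := rng_lt hx (by norm_num)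
  have hμ : 0 ≤ mZ.v x := le_rfl
  have bK : En x * ndB2q0.K.v 0 x = (En x + mZ.v x * Qn x) * (1) := bK_far (corB20 x).2.1
  have hm := On.monoY (fun y hy => (atB20 hy).far) cA_m20 hx (fun _ => rfl)
  have g := On.germ0 (fun y hy => (atB20 hy).toAt) cA_g20 hx x0 x1 hμ (corB20 x).1 bK (corB20 x).2.2.1 (hm.sub (by norm_num) (by norm_num)) (((1 : ℕ) : ℝ) / ((1 : ℕ) : ℝ))
  have w := On.wallY (fun y hy => (atB20 hy).far) cA_w20 hx (fun _ => rfl)
  exact (g.join (e := 536870912) w (by norm_num) (by norm_num)).full 0 (by norm_num) (by norm_num)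
theorem flA2 {x : ℝ} (hx : Rng 649613803 48318383 x) : On PP tK tL Z0 x (2 : Fin 9) 0
    (FlatP (((1 : ℕ) : ℝ) / ((1 : ℕ) : ℝ)) x (mZ.v x) 0) fun y => h0 * y ≤ 3 / 100 := by
  have x0 := rng_pos hx (by norm_num)
  have x1 := rng_lt hx (by norm_num)
  have hμ : 0 ≤ mZ.v x := le_rfl
  exact On.flatW (On.monoY (fun y hy => (atB20 hy).far) cA_m20 hx (fun _ => rfl)) (by norm_num) (onA20 hx)
theorem onA21 {x : ℝ} (hx : Rng 649613803 48318383 x) : On PP tK tL Z0 x (2 : Fin 9) 1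
    (WallP (((1 : ℕ) : ℝ) / ((1 : ℕ) : ℝ)) x (mZ.v x) 1) fun _ => True := by
  have x0 := rng_pos hx (by norm_num)
  have x1 := rng_lt hx (by norm_num)
  have hμ : 0 ≤ mZ.v x := le_rfl
  exact (On.wallY (fun y hy => (atB21 hy).far) cA_w21 hx (fun _ => rfl)).full 1 (by norm_num) (by norm_num)
theorem onA30 {x : ℝ} (hx : Rng 649613803 48318383 x) : On PP tK tL Z0 x (3 : Fin 9) 0
    (WallP (((1 : ℕ) : ℝ) / ((1 : ℕ) : ℝ)) x (mZ.v x) 0) fun _ => True := by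
  have x0 := rng_pos hx (by norm_num)
  have x1 := rng_lt hx (by norm_num)
  have hμ : 0 ≤ mZ.v x := le_rfl
  have bK : En x * ndB3q0.K.v 0 x = (En x + mZ.v x * Qn x) * (1) := bK_far (corB30 x).2.1
  have hm := On.monoY (fun y hy => (atB30 hy).far) cA_m30 hx (fun _ => rfl)
  have g := On.germ0 (fun y hy => (atB30 hy).toAt) cA_g30 hx x0 x1 hμ (corB30 x).1 bK (corB30 x).2.2.1 (hm.sub (by norm_num) (by norm_num)) (((1 : ℕ) : ℝ) / ((1 : ℕ) : ℝ))
  have w := On.wallY (fun y hy => (atB30 hy).far) cA_w30 hx (fun _ => rfl)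
  exact (g.join (e := 536870912) w (by norm_num) (by norm_num)).full 0 (by norm_num) (by norm_num)
theorem flA3 {x : ℝ} (hx : Rng 649613803 48318383 x) : On PP tK tL Z0 x (3 : Fin 9) 0
    (FlatP (((1 : ℕ) : ℝ) / ((1 : ℕ) : ℝ)) x (mZ.v x) 0) fun y => h0 * y ≤ 3 / 100 := by
  have x0 := rng_pos hx (by norm_num)
  have x1 := rng_lt hx (by norm_num)
  have hμ : 0 ≤ mZ.v x := le_rfl
  exact On.flatW (On.monoY (fun y hy => (atB30 hy).far) cA_m30 hx (fun _ => rfl)) (by norm_num) (onA30 hx)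
theorem onA31 {x : ℝ} (hx : Rng 649613803 48318383 x) : On PP tK tL Z0 x (3 : Fin 9) 1
    (WallP (((1 : ℕ) : ℝ) / ((1 : ℕ) : ℝ)) x (mZ.v x) 1) fun _ => True := by
  have x0 := rng_pos hx (by norm_num)
  have x1 := rng_lt hx (by norm_num)
  have hμ : 0 ≤ mZ.v x := le_rfl
  exact (On.wallY (fun y hy => (atB31 hy).far) cA_w31 hx (fun _ => rfl)).full 1 (by norm_num) (by norm_num)
theorem onA40 {x : ℝ} (hx : Rng 649613803 48318383 x) : On PP tK tL Z0 x (4 : Fin 9) 0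
    (WallP (((1 : ℕ) : ℝ) / ((1 : ℕ) : ℝ)) x (mZ.v x) 0) fun _ => True := by
  have x0 := rng_pos hx (by norm_num)
  have x1 := rng_lt hx (by norm_num)
  have hμ : 0 ≤ mZ.v x := le_rfl
  have bK : En x * ndB4q0.K.v 0 x = (En x + mZ.v x * Qn x) * (1) := bK_far (corB40 x).2.1
  have hm := On.monoY (fun y hy => (atB40 hy).far) cA_m40 hx (fun _ => rfl)
  have g := On.germ0 (fun y hy => (atB40 hy).toAt) cA_g40 hx x0 x1 hμ (corB40 x).1 bK (corB40 x).2.2.1 (hm.sub (by norm_num) (by norm_num)) (((1 : ℕ) : ℝ) / ((1 : ℕ) : ℝ))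
  have w := On.wallY (fun y hy => (atB40 hy).far) cA_w40 hx (fun _ => rfl)
  exact (g.join (e := 536870912) w (by norm_num) (by norm_num)).full 0 (by norm_num) (by norm_num)
theorem flA4 {x : ℝ} (hx : Rng 649613803 48318383 x) : On PP tK tL Z0 x (4 : Fin 9) 0
    (FlatP (((1 : ℕ) : ℝ) / ((1 : ℕ) : ℝ)) x (mZ.v x) 0) fun y => h0 * y ≤ 3 / 100 := by
  have x0 := rng_pos hx (by norm_num)
  have x1 := rng_lt hx (by norm_num)
  have hμ : 0 ≤ mZ.v x := le_rfl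
  exact On.flatW (On.monoY (fun y hy => (atB40 hy).far) cA_m40 hx (fun _ => rfl)) (by norm_num) (onA40 hx)
theorem onA41 {x : ℝ} (hx : Rng 649613803 48318383 x) : On PP tK tL Z0 x (4 : Fin 9) 1
    (WallP (((1 : ℕ) : ℝ) / ((1 : ℕ) : ℝ)) x (mZ.v x) 1) fun _ => True := by
  have x0 := rng_pos hx (by norm_num)
  have x1 := rng_lt hx (by norm_num)
  have hμ : 0 ≤ mZ.v x := le_rfl
  exact (On.wallY (fun y hy => (atB41 hy).far) cA_w41 hx (fun _ => rfl)).full 1 (by norm_num) (by norm_num)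
theorem onA50 {x : ℝ} (hx : Rng 649613803 48318383 x) : On PP tK tL Z0 x (5 : Fin 9) 0
    (WallP (((1 : ℕ) : ℝ) / ((1 : ℕ) : ℝ)) x (mZ.v x) 0) fun y => 3 / 100 ≤ h0 * y := by
  have x0 := rng_pos hx (by norm_num)
  have x1 := rng_lt hx (by norm_num)
  have hμ : 0 ≤ mZ.v x := le_rfl
  exact On.wall3 (On.wallY (fun y hy => (atB50 hy).far) cA_w50 hx (fun _ => rfl)) (by norm_num)
theorem flA5 {x : ℝ} (hx : Rng 649613803 48318383 x) : On PP tK tL Z0 x (5 : Fin 9) 0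
    (FlatP (((1 : ℕ) : ℝ) / ((1 : ℕ) : ℝ)) x (mZ.v x) 0) fun y => h0 * y ≤ 3 / 100 := by
  have x0 := rng_pos hx (by norm_num)
  have x1 := rng_lt hx (by norm_num)
  have hμ : 0 ≤ mZ.v x := le_rfl
  exact On.flatY (fun y hy => (atB50 hy).far) cA_f50 hx (fun _ => rfl)
theorem leA5 {x : ℝ} (hx : Rng 649613803 48318383 x) : On PP tK tL Z0 x (5 : Fin 9) 0
    (WallP (((1 : ℕ) : ℝ) / ((1 : ℕ) : ℝ)) x (mZ.v x) 0) fun y => h0 * y ≤ 3 / 100 ∧ crv PP (5 : Fin 9) 0 y ≤ Dw := by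
  have x0 := rng_pos hx (by norm_num)
  have x1 := rng_lt hx (by norm_num)
  have hμ : 0 ≤ mZ.v x := le_rfl
  exact On.leftY (fun y hy => (atB50 hy).far) cA_l50 hx (fun _ => rfl)
theorem onA51 {x : ℝ} (hx : Rng 649613803 48318383 x) : On PP tK tL Z0 x (5 : Fin 9) 1
    (WallP (((1 : ℕ) : ℝ) / ((1 : ℕ) : ℝ)) x (mZ.v x) 1) fun _ => True := by
  have x0 := rng_pos hx (by norm_num)
  have x1 := rng_lt hx (by norm_num)
  have hμ : 0 ≤ mZ.v x := le_rfl
  exact (On.wallY (fun y hy => (atB51 hy).far) cA_w51 hx (fun _ => rfl)).full 1 (by norm_num) (by norm_num)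
theorem onA52 {x : ℝ} (hx : Rng 649613803 48318383 x) : On PP tK tL Z0 x (5 : Fin 9) 2
    (WallP (((1 : ℕ) : ℝ) / ((1 : ℕ) : ℝ)) x (mZ.v x) 2) fun y => h0 * y ≤ 1 ∧ 1 - G y ≤ crv PP (5 : Fin 9) 2 y := by
  have x0 := rng_pos hx (by norm_num)
  have x1 := rng_lt hx (by norm_num)
  have hμ : 0 ≤ mZ.v x := le_rfl
  exact On.right2 (fun y hy => (atB52 hy).toAt) cA_w52 hx (((1 : ℕ) : ℝ) / ((1 : ℕ) : ℝ))
theorem onA60 {x : ℝ} (hx : Rng 649613803 48318383 x) : On PP tK tL Z0 x (6 : Fin 9) 0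
    (WallP (((1 : ℕ) : ℝ) / ((1 : ℕ) : ℝ)) x (mZ.v x) 0) fun y => 3 / 100 ≤ h0 * y := by
  have x0 := rng_pos hx (by norm_num)
  have x1 := rng_lt hx (by norm_num)
  have hμ : 0 ≤ mZ.v x := le_rfl
  exact On.wall3 (On.wallY (fun y hy => (atB60 hy).far) cA_w60 hx (fun _ => rfl)) (by norm_num)
theorem flA6 {x : ℝ} (hx : Rng 649613803 48318383 x) : On PP tK tL Z0 x (6 : Fin 9) 0
    (FlatP (((1 : ℕ) : ℝ) / ((1 : ℕ) : ℝ)) x (mZ.v x) 0) fun y => h0 * y ≤ 3 / 100 := by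
  have x0 := rng_pos hx (by norm_num)
  have x1 := rng_lt hx (by norm_num)
  have hμ : 0 ≤ mZ.v x := le_rfl
  exact On.flatY (fun y hy => (atB60 hy).far) cA_f60 hx (fun _ => rfl)
theorem leA6 {x : ℝ} (hx : Rng 649613803 48318383 x) : On PP tK tL Z0 x (6 : Fin 9) 0
    (WallP (((1 : ℕ) : ℝ) / ((1 : ℕ) : ℝ)) x (mZ.v x) 0) fun y => h0 * y ≤ 3 / 100 ∧ crv PP (6 : Fin 9) 0 y ≤ Dw := by
  have x0 := rng_pos hx (by norm_num)
  have x1 := rng_lt hx (by norm_num)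
  have hμ : 0 ≤ mZ.v x := le_rfl
  exact On.leftY (fun y hy => (atB60 hy).far) cA_l60 hx (fun _ => rfl)
theorem onA61 {x : ℝ} (hx : Rng 649613803 48318383 x) : On PP tK tL Z0 x (6 : Fin 9) 1
    (WallP (((1 : ℕ) : ℝ) / ((1 : ℕ) : ℝ)) x (mZ.v x) 1) fun _ => True := by
  have x0 := rng_pos hx (by norm_num)
  have x1 := rng_lt hx (by norm_num)
  have hμ : 0 ≤ mZ.v x := le_rfl
  exact (On.wallY (fun y hy => (atB61 hy).far) cA_w61 hx (fun _ => rfl)).full 1 (by norm_num) (by norm_num)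
theorem onA62 {x : ℝ} (hx : Rng 649613803 48318383 x) : On PP tK tL Z0 x (6 : Fin 9) 2
    (WallP (((1 : ℕ) : ℝ) / ((1 : ℕ) : ℝ)) x (mZ.v x) 2) fun y => h0 * y ≤ 1 ∧ 1 - G y ≤ crv PP (6 : Fin 9) 2 y := by
  have x0 := rng_pos hx (by norm_num)
  have x1 := rng_lt hx (by norm_num)
  have hμ : 0 ≤ mZ.v x := le_rfl
  exact On.right2 (fun y hy => (atB62 hy).toAt) cA_w62 hx (((1 : ℕ) : ℝ) / ((1 : ℕ) : ℝ))
theorem onA70 {x : ℝ} (hx : Rng 649613803 48318383 x) : On PP tK tL Z0 x (7 : Fin 9) 0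
    (WallP (((1 : ℕ) : ℝ) / ((1 : ℕ) : ℝ)) x (mZ.v x) 0) fun y => 3 / 100 ≤ h0 * y := by
  have x0 := rng_pos hx (by norm_num)
  have x1 := rng_lt hx (by norm_num)
  have hμ : 0 ≤ mZ.v x := le_rfl
  exact On.wall3 (On.wallY (fun y hy => (atB70 hy).far) cA_w70 hx (fun _ => rfl)) (by norm_num)
theorem flA7 {x : ℝ} (hx : Rng 649613803 48318383 x) : On PP tK tL Z0 x (7 : Fin 9) 0
    (FlatP (((1 : ℕ) : ℝ) / ((1 : ℕ) : ℝ)) x (mZ.v x) 0) fun y => h0 * y ≤ 3 / 100 := by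
  have x0 := rng_pos hx (by norm_num)
  have x1 := rng_lt hx (by norm_num)
  have hμ : 0 ≤ mZ.v x := le_rfl
  exact On.flatY (fun y hy => (atB70 hy).far) cA_f70 hx (fun _ => rfl)
theorem leA7 {x : ℝ} (hx : Rng 649613803 48318383 x) : On PP tK tL Z0 x (7 : Fin 9) 0
    (WallP (((1 : ℕ) : ℝ) / ((1 : ℕ) : ℝ)) x (mZ.v x) 0) fun y => h0 * y ≤ 3 / 100 ∧ crv PP (7 : Fin 9) 0 y ≤ Dw := by
  have x0 := rng_pos hx (by norm_num)
  have x1 := rng_lt hx (by norm_num)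
  have hμ : 0 ≤ mZ.v x := le_rfl
  exact On.leftY (fun y hy => (atB70 hy).far) cA_l70 hx (fun _ => rfl)
theorem onA71 {x : ℝ} (hx : Rng 649613803 48318383 x) : On PP tK tL Z0 x (7 : Fin 9) 1
    (WallP (((1 : ℕ) : ℝ) / ((1 : ℕ) : ℝ)) x (mZ.v x) 1) fun _ => True := by
  have x0 := rng_pos hx (by norm_num)
  have x1 := rng_lt hx (by norm_num)
  have hμ : 0 ≤ mZ.v x := le_rfl
  exact (On.wallY (fun y hy => (atB71 hy).far) cA_w71 hx (fun _ => rfl)).full 1 (by norm_num) (by norm_num)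
theorem onA72 {x : ℝ} (hx : Rng 649613803 48318383 x) : On PP tK tL Z0 x (7 : Fin 9) 2
    (WallP (((1 : ℕ) : ℝ) / ((1 : ℕ) : ℝ)) x (mZ.v x) 2) fun y => h0 * y ≤ 1 ∧ 1 - G y ≤ crv PP (7 : Fin 9) 2 y := by
  have x0 := rng_pos hx (by norm_num)
  have x1 := rng_lt hx (by norm_num)
  have hμ : 0 ≤ mZ.v x := le_rfl
  exact On.right2 (fun y hy => (atB72 hy).toAt) cA_w72 hx (((1 : ℕ) : ℝ) / ((1 : ℕ) : ℝ))
theorem onA80 {x : ℝ} (hx : Rng 649613803 48318383 x) : On PP tK tL Z0 x (8 : Fin 9) 0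
    (WallP (((1 : ℕ) : ℝ) / ((1 : ℕ) : ℝ)) x (mZ.v x) 0) fun y => 3 / 100 ≤ h0 * y := by
  have x0 := rng_pos hx (by norm_num)
  have x1 := rng_lt hx (by norm_num)
  have hμ : 0 ≤ mZ.v x := le_rfl
  exact On.wall3 (On.wallY (fun y hy => (atB80 hy).far) cA_w80 hx (fun _ => rfl)) (by norm_num)
theorem flA8 {x : ℝ} (hx : Rng 649613803 48318383 x) : On PP tK tL Z0 x (8 : Fin 9) 0
    (FlatP (((1 : ℕ) : ℝ) / ((1 : ℕ) : ℝ)) x (mZ.v x) 0) fun y => h0 * y ≤ 3 / 100 := by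
  have x0 := rng_pos hx (by norm_num)
  have x1 := rng_lt hx (by norm_num)
  have hμ : 0 ≤ mZ.v x := le_rfl
  exact On.flatY (fun y hy => (atB80 hy).far) cA_f80 hx (fun _ => rfl)
theorem leA8 {x : ℝ} (hx : Rng 649613803 48318383 x) : On PP tK tL Z0 x (8 : Fin 9) 0
    (WallP (((1 : ℕ) : ℝ) / ((1 : ℕ) : ℝ)) x (mZ.v x) 0) fun y => h0 * y ≤ 3 / 100 ∧ crv PP (8 : Fin 9) 0 y ≤ Dw := by
  have x0 := rng_pos hx (by norm_num)
  have x1 := rng_lt hx (by norm_num)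
  have hμ : 0 ≤ mZ.v x := le_rfl
  exact On.leftY (fun y hy => (atB80 hy).far) cA_l80 hx (fun _ => rfl)
theorem onA81 {x : ℝ} (hx : Rng 649613803 48318383 x) : On PP tK tL Z0 x (8 : Fin 9) 1
    (WallP (((1 : ℕ) : ℝ) / ((1 : ℕ) : ℝ)) x (mZ.v x) 1) fun _ => True := by
  have x0 := rng_pos hx (by norm_num)
  have x1 := rng_lt hx (by norm_num)
  have hμ : 0 ≤ mZ.v x := le_rfl
  exact (On.wallY (fun y hy => (atB81 hy).far) cA_w81 hx (fun _ => rfl)).full 1 (by norm_num) (by norm_num)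
theorem onA82 {x : ℝ} (hx : Rng 649613803 48318383 x) : On PP tK tL Z0 x (8 : Fin 9) 2
    (WallP (((1 : ℕ) : ℝ) / ((1 : ℕ) : ℝ)) x (mZ.v x) 2) fun y => h0 * y ≤ 1 ∧ 1 - G y ≤ crv PP (8 : Fin 9) 2 y := by
  have x0 := rng_pos hx (by norm_num)
  have x1 := rng_lt hx (by norm_num)
  have hμ : 0 ≤ mZ.v x := le_rfl
  exact On.right2 (fun y hy => (atB82 hy).toAt) cA_w82 hx (((1 : ℕ) : ℝ) / ((1 : ℕ) : ℝ))
theorem moA00 {x : ℝ} (hx : Rng 649613803 48318383 x) : On PP tK tL Z0 x (0 : Fin 9) 0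
    (MonoQ x (mZ.v x) 0) fun _ => True := by
  have x0 := rng_pos hx (by norm_num)
  have x1 := rng_lt hx (by norm_num)
  have hμ : 0 ≤ mZ.v x := le_rfl
  exact (On.monoY (fun y hy => (atB00 hy).far) cA_m00 hx (fun _ => rfl)).full 0 (by norm_num) (by norm_num)
theorem onA00 {x : ℝ} (hx : Rng 649613803 48318383 x) : On PP tK tL Z0 x (0 : Fin 9) 0
    (WallP (((1 : ℕ) : ℝ) / ((1 : ℕ) : ℝ)) x (mZ.v x) 0) fun _ => True := by
  have x0 := rng_pos hx (by norm_num)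
  have x1 := rng_lt hx (by norm_num)
  have hμ : 0 ≤ mZ.v x := le_rfl
  have hm := On.monoY (fun y hy => (atB00 hy).far) cA_m00 hx (fun _ => rfl)
  have bK : En x * ndB0q0.K.v 0 x = (En x + mZ.v x * Qn x) * (1) := bK_far (corB00 x).2.1
  have g := On.germ0 (fun y hy => (atB00 hy).toAt) cA_g00 hx x0 x1 hμ (corB00 x).1 bK (corB00 x).2.2.1 (hm.sub (by norm_num) (by norm_num)) (((1 : ℕ) : ℝ) / ((1 : ℕ) : ℝ))
  have wa := On.wallY (fun y hy => (atB00 hy).far) cA_w00a hx (fun _ => rfl)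
  exact (g.join (e := 536870912) wa (by norm_num) (by norm_num)).full 0 (by norm_num) (by norm_num)
theorem flA0 {x : ℝ} (hx : Rng 649613803 48318383 x) : On PP tK tL Z0 x (0 : Fin 9) 0
    (FlatP (((1 : ℕ) : ℝ) / ((1 : ℕ) : ℝ)) x (mZ.v x) 0) fun y => h0 * y ≤ 3 / 100 := by
  have x0 := rng_pos hx (by norm_num)
  have x1 := rng_lt hx (by norm_num)
  have hμ : 0 ≤ mZ.v x := le_rfl
  exact On.flatW (On.monoY (fun y hy => (atB00 hy).far) cA_m00 hx (fun _ => rfl)) (by norm_num) (onA00 hx)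
theorem moA01 {x : ℝ} (hx : Rng 649613803 48318383 x) : On PP tK tL Z0 x (0 : Fin 9) 1
    (MonoQ x (mZ.v x) 1) fun _ => True := by
  have x0 := rng_pos hx (by norm_num)
  have x1 := rng_lt hx (by norm_num)
  have hμ : 0 ≤ mZ.v x := le_rfl
  exact (On.monoY (fun y hy => (atB01 hy).far) cA_m01 hx (fun _ => rfl)).full 1 (by norm_num) (by norm_num)
theorem onA01 {x : ℝ} (hx : Rng 649613803 48318383 x) : On PP tK tL Z0 x (0 : Fin 9) 1
    (WallP (((1 : ℕ) : ℝ) / ((1 : ℕ) : ℝ)) x (mZ.v x) 1) fun _ => True := by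
  have x0 := rng_pos hx (by norm_num)
  have x1 := rng_lt hx (by norm_num)
  have hμ : 0 ≤ mZ.v x := le_rfl
  have hm := On.monoY (fun y hy => (atB01 hy).far) cA_m01 hx (fun _ => rfl)
  have bK : En x * ndB0q1.K.v 1 x = (En x + mZ.v x * Qn x) * (1 / 2) := bK_far (corB01 x).2.1
  have g := On.germ1 (fun y hy => (atB01 hy).toAt) cA_g01 hx x0 x1 hμ (corB01 x).1 bK (corB01 x).2.2.1 (hm.sub (by norm_num) (by norm_num)) (((1 : ℕ) : ℝ) / ((1 : ℕ) : ℝ))
  have wa := On.wallY (fun y hy => (atB01 hy).far) cA_w01a hx (fun _ => rfl)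
  have wb := On.wallY (fun y hy => (atB01 hy).far) cA_w01b hx (fun _ => rfl)
  have hmt : On PP tK tL Z0 x (0 : Fin 9) 1 (MonoQ x (mZ.v x) 1) (Rng 629212708 89120572) :=
    (hm.full 1 (by norm_num) (by norm_num)).imp fun _ _ _ => trivial
  have hf : ∀ y, InQ 1 y → Rng 629212708 89120572 y →
      tK 0 1 y x = tq 1 y * kan y (dlg.v y x) ∧ tL 0 1 y x = zen y x (dlg.v y x) := by
    intro y hq hr
    have y1 : y < 1 := lt_one_of hq (by norm_num)
    have r1 : ((629212708 : ℕ) : ℝ) / S ≤ y := hr.1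
    have r2 : y ≤ ((718333280 : ℕ) : ℝ) / S := by
      have := hr.2
      push_cast at this ⊢
      norm_num at this ⊢
      exact this
    have y0 : 0 < y := rng_pos hr (by norm_num)
    have pa : (11 / 2198 : ℝ) < 3 / 4 * y - G y / 2 := psi_gt (w := 925197294) r1 (by norm_num) (by norm_num)
    have pb : 3 / 4 * y - G y / 2 < (13 / 134 : ℝ) := psi_lt (w := 875168255) y0.le r2 (by norm_num) (by norm_num)
    have A := atB01 (x := x) (show OnC (0 : Fin 9) 1 y from ⟨hq, fun _ => h0y_lt y1⟩)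
    exact ⟨A.K.symm.trans (clKF1 (by linarith [hq.1]) y1), A.L.symm.trans (clL1 pa pb)⟩
  have t := On.tgF (D := dlg) (q := 1) (by norm_num) cA_tl cA_th hx x0 x1 (by norm_num) hf hmt (((1 : ℕ) : ℝ) / ((1 : ℕ) : ℝ))
  exact (((wa.join (e := 181462368) t (by norm_num) (by norm_num)).join (e := 500363690) wb (by norm_num) (by norm_num)).join (e := 536870912) g (by norm_num) (by norm_num)).full 1 (by norm_num) (by norm_num)
abbrev hlA : List (ℕ × ℕ) := [(833, 200), (938, 790)]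
abbrev blA : List (ℕ × ℕ) := [(930, 1256), (952, 1327), (961, 1365), (965, 1382), (967, 1389), (968, 1392), (969, 1394), (1118, 1396)]
theorem hiA00 {x : ℝ} (hx : Rng 649613803 48318383 x) : StpAll (fun t t' a => On PP tK tL Z0 x (0 : Fin 9) 0
    (fun y X A L C => HighP (((1 : ℕ) : ℝ) / ((1 : ℕ) : ℝ)) x (mZ.v x) 0 y X A L C ((a : ℝ) / 1000) Dw) fun y =>
      t ≤ h0 * y ∧ h0 * y ≤ t' + 3 / 100) 1700 800 hlA 1050 :=
  StpAll.cons (On.noLo (by norm_num) (by decide)) (StpAll.cons (On.noLo (by norm_num) (by decide)) (StpAll.nil (On.noLo (by norm_num) (by decide))))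
theorem faA00 {x : ℝ} (hx : Rng 649613803 48318383 x) : StpAll (fun t t' a => On PP tK tL Z0 x (0 : Fin 9) 0
    (fun y X A L C => FarP (((1 : ℕ) : ℝ) / ((1 : ℕ) : ℝ)) x (mZ.v x) 0 y X A L C ((a : ℝ) / 1000) Dw) fun y =>
      t ≤ h0 * y ∧ h0 * y ≤ t' + 3 / 100 ∧ Dw ≤ crv PP (0 : Fin 9) 0 y) 1340 880 blA 1804 :=
  StpAll.cons (On.noLo (by norm_num) (by decide)) (StpAll.cons (On.noLo (by norm_num) (by decide)) (StpAll.cons (On.noLo (by norm_num) (by decide)) (StpAll.cons (On.noLo (by norm_num) (by decide)) (StpAll.cons (On.noLo (by norm_num) (by decide)) (StpAll.cons (On.noLo (by norm_num) (by decide)) (StpAll.cons (On.noLo (by norm_num) (by decide)) (StpAll.cons (On.noLo (by norm_num) (by decide)) (StpAll.nil (On.noLo (by norm_num) (by decide))))))))))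
theorem neA00 {x : ℝ} (hx : Rng 649613803 48318383 x) : StpAll (fun t t' a => On PP tK tL Z0 x (0 : Fin 9) 0
    (fun y X A L C => NearP (((1 : ℕ) : ℝ) / ((1 : ℕ) : ℝ)) x (mZ.v x) 0 y X A L C ((a : ℝ) / 1000)) fun y =>
      t ≤ h0 * y ∧ h0 * y ≤ t' + 3 / 100 ∧ 0 < crv PP (0 : Fin 9) 0 y ∧ crv PP (0 : Fin 9) 0 y ≤ 2 / 5) 1340 880 blA 1804 :=
  StpAll.cons (On.noLo (by norm_num) (by decide)) (StpAll.cons (On.noLo (by norm_num) (by decide)) (StpAll.cons (On.noLo (by norm_num) (by decide)) (StpAll.cons (On.noLo (by norm_num) (by decide)) (StpAll.cons (On.noLo (by norm_num) (by decide)) (StpAll.cons (On.noLo (by norm_num) (by decide)) (StpAll.cons (On.noLo (by norm_num) (by decide)) (StpAll.cons (On.noLo (by norm_num) (by decide)) (StpAll.nil (On.noLo (by norm_num) (by decide))))))))))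
theorem hiA01 {x : ℝ} (hx : Rng 649613803 48318383 x) : StpAll (fun t t' a => On PP tK tL Z0 x (0 : Fin 9) 1
    (fun y X A L C => HighP (((1 : ℕ) : ℝ) / ((1 : ℕ) : ℝ)) x (mZ.v x) 1 y X A L C ((a : ℝ) / 1000) Dw) fun y =>
      t ≤ h0 * y ∧ h0 * y ≤ t' + 3 / 100) 1700 800 hlA 1050 :=
  StpAll.cons (On.stH (fun y hy => (atB01 hy).far) cA_h0_01 hx (fun _ => rfl) (by decide)) (StpAll.cons (On.stH (fun y hy => (atB01 hy).far) cA_h1_01 hx (fun _ => rfl) (by decide)) (StpAll.nil (On.noLo (by norm_num) (by decide))))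
theorem faA01 {x : ℝ} (hx : Rng 649613803 48318383 x) : StpAll (fun t t' a => On PP tK tL Z0 x (0 : Fin 9) 1
    (fun y X A L C => FarP (((1 : ℕ) : ℝ) / ((1 : ℕ) : ℝ)) x (mZ.v x) 1 y X A L C ((a : ℝ) / 1000) Dw) fun y =>
      t ≤ h0 * y ∧ h0 * y ≤ t' + 3 / 100 ∧ Dw ≤ crv PP (0 : Fin 9) 1 y) 1340 880 blA 1804 :=
  StpAll.cons (On.noLo (by norm_num) (by decide)) (StpAll.cons (On.noLo (by norm_num) (by decide)) (StpAll.cons (On.noLo (by norm_num) (by decide)) (StpAll.cons (On.noLo (by norm_num) (by decide)) (StpAll.cons (On.noLo (by norm_num) (by decide)) (StpAll.cons (On.noLo (by norm_num) (by decide)) (StpAll.cons (On.noLo (by norm_num) (by decide)) (StpAll.cons (On.noLo (by norm_num) (by decide)) (StpAll.nil (On.noLo (by norm_num) (by decide))))))))))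
theorem neA01 {x : ℝ} (hx : Rng 649613803 48318383 x) : StpAll (fun t t' a => On PP tK tL Z0 x (0 : Fin 9) 1
    (fun y X A L C => NearP (((1 : ℕ) : ℝ) / ((1 : ℕ) : ℝ)) x (mZ.v x) 1 y X A L C ((a : ℝ) / 1000)) fun y =>
      t ≤ h0 * y ∧ h0 * y ≤ t' + 3 / 100 ∧ 0 < crv PP (0 : Fin 9) 1 y ∧ crv PP (0 : Fin 9) 1 y ≤ 2 / 5) 1340 880 blA 1804 :=
  StpAll.cons (On.noLo (by norm_num) (by decide)) (StpAll.cons (On.noLo (by norm_num) (by decide)) (StpAll.cons (On.noLo (by norm_num) (by decide)) (StpAll.cons (On.noLo (by norm_num) (by decide)) (StpAll.cons (On.noLo (by norm_num) (by decide)) (StpAll.cons (On.noLo (by norm_num) (by decide)) (StpAll.cons (On.noLo (by norm_num) (by decide)) (StpAll.cons (On.noLo (by norm_num) (by decide)) (StpAll.nil (On.noLo (by norm_num) (by decide))))))))))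
theorem hiA02 {x : ℝ} (hx : Rng 649613803 48318383 x) : StpAll (fun t t' a => On PP tK tL Z0 x (0 : Fin 9) 2
    (fun y X A L C => HighP (((1 : ℕ) : ℝ) / ((1 : ℕ) : ℝ)) x (mZ.v x) 2 y X A L C ((a : ℝ) / 1000) Dw) fun y =>
      t ≤ h0 * y ∧ h0 * y ≤ t' + 3 / 100) 1700 800 hlA 1050 :=
  StpAll.cons (On.noHi (by decide)) (StpAll.cons (On.stHc covB02.far cA_h1_02 hx (fun _ => rfl) (by decide)) (StpAll.nil (On.stHc covB02.far cA_h2_02 hx (fun _ => rfl) (by decide))))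
theorem faA02 {x : ℝ} (hx : Rng 649613803 48318383 x) : StpAll (fun t t' a => On PP tK tL Z0 x (0 : Fin 9) 2
    (fun y X A L C => FarP (((1 : ℕ) : ℝ) / ((1 : ℕ) : ℝ)) x (mZ.v x) 2 y X A L C ((a : ℝ) / 1000) Dw) fun y =>
      t ≤ h0 * y ∧ h0 * y ≤ t' + 3 / 100 ∧ Dw ≤ crv PP (0 : Fin 9) 2 y) 1340 880 blA 1804 :=
  StpAll.cons (On.stRc covB02.far cA_r0_02 hx (fun _ => rfl) (by decide)) (StpAll.cons (On.stRc covB02.far cA_r1_02 hx (fun _ => rfl) (by decide)) (StpAll.cons (On.stRc covB02.far cA_r2_02 hx (fun _ => rfl) (by decide)) (StpAll.cons (On.stRc covB02.far cA_r3_02 hx (fun _ => rfl) (by decide)) (StpAll.cons (On.stRc covB02.far cA_r4_02 hx (fun _ => rfl) (by decide)) (StpAll.cons (On.stRc covB02.far cA_r5_02 hx (fun _ => rfl) (by decide)) (StpAll.cons (On.stRc covB02.far cA_r6_02 hx (fun _ => rfl) (by decide)) (StpAll.cons (On.stRc covB02.far cA_r7_02 hx (fun _ => rfl) (by decide)) (StpAll.nil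 (On.stRc covB02.far cA_r8_02 hx (fun _ => rfl) (by decide))))))))))
theorem neA02 {x : ℝ} (hx : Rng 649613803 48318383 x) : StpAll (fun t t' a => On PP tK tL Z0 x (0 : Fin 9) 2
    (fun y X A L C => NearP (((1 : ℕ) : ℝ) / ((1 : ℕ) : ℝ)) x (mZ.v x) 2 y X A L C ((a : ℝ) / 1000)) fun y =>
      t ≤ h0 * y ∧ h0 * y ≤ t' + 3 / 100 ∧ 0 < crv PP (0 : Fin 9) 2 y ∧ crv PP (0 : Fin 9) 2 y ≤ 2 / 5) 1340 880 blA 1804 :=
  StpAll.cons (On.stN0 covB02.far (fun _ => rfl) cA_n0_02 cA_n0_02z hx (fun _ => rfl)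
    (fun p p0 p1 => ⟨quK p0 p1, quL p0 p1, (mul_zero p).symm⟩) (by decide)) (StpAll.cons (On.stN0 covB02.far (fun _ => rfl) cA_n1_02 cA_n1_02z hx (fun _ => rfl)
    (fun p p0 p1 => ⟨quK p0 p1, quL p0 p1, (mul_zero p).symm⟩) (by decide)) (StpAll.cons (On.stN0 covB02.far (fun _ => rfl) cA_n2_02 cA_n2_02z hx (fun _ => rfl)
    (fun p p0 p1 => ⟨quK p0 p1, quL p0 p1, (mul_zero p).symm⟩) (by decide)) (StpAll.cons (On.stN0 covB02.far (fun _ => rfl) cA_n3_02 cA_n3_02z hx (fun _ => rfl)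
    (fun p p0 p1 => ⟨quK p0 p1, quL p0 p1, (mul_zero p).symm⟩) (by decide)) (StpAll.cons (On.stN0 covB02.far (fun _ => rfl) cA_n4_02 cA_n4_02z hx (fun _ => rfl)
    (fun p p0 p1 => ⟨quK p0 p1, quL p0 p1, (mul_zero p).symm⟩) (by decide)) (StpAll.cons (On.stN0 covB02.far (fun _ => rfl) cA_n5_02 cA_n5_02z hx (fun _ => rfl)
    (fun p p0 p1 => ⟨quK p0 p1, quL p0 p1, (mul_zero p).symm⟩) (by decide)) (StpAll.cons (On.stN0 covB02.far (fun _ => rfl) cA_n6_02 cA_n6_02z hx (fun _ => rfl)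
    (fun p p0 p1 => ⟨quK p0 p1, quL p0 p1, (mul_zero p).symm⟩) (by decide)) (StpAll.cons (On.stN0 covB02.far (fun _ => rfl) cA_n7_02 cA_n7_02z hx (fun _ => rfl)
    (fun p p0 p1 => ⟨quK p0 p1, quL p0 p1, (mul_zero p).symm⟩) (by decide)) (StpAll.nil (On.stN0 covB02.far (fun _ => rfl) cA_n8_02 cA_n8_02z hx (fun _ => rfl)
    (fun p p0 p1 => ⟨quK p0 p1, quL p0 p1, (mul_zero p).symm⟩) (by decide))))))))))
theorem hiA03 {x : ℝ} (hx : Rng 649613803 48318383 x) : StpAll (fun t t' a => On PP tK tL Z0 x (0 : Fin 9) 3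
    (fun y X A L C => HighP (((1 : ℕ) : ℝ) / ((1 : ℕ) : ℝ)) x (mZ.v x) 3 y X A L C ((a : ℝ) / 1000) Dw) fun y =>
      t ≤ h0 * y ∧ h0 * y ≤ t' + 3 / 100) 1700 800 hlA 1050 :=
  StpAll.cons (On.no03) (StpAll.cons (On.no03) (StpAll.nil (On.no03)))
theorem faA03 {x : ℝ} (hx : Rng 649613803 48318383 x) : StpAll (fun t t' a => On PP tK tL Z0 x (0 : Fin 9) 3
    (fun y X A L C => FarP (((1 : ℕ) : ℝ) / ((1 : ℕ) : ℝ)) x (mZ.v x) 3 y X A L C ((a : ℝ) / 1000) Dw) fun y =>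
      t ≤ h0 * y ∧ h0 * y ≤ t' + 3 / 100 ∧ Dw ≤ crv PP (0 : Fin 9) 3 y) 1340 880 blA 1804 :=
  StpAll.cons (On.no03) (StpAll.cons (On.no03) (StpAll.cons (On.no03) (StpAll.cons (On.no03) (StpAll.cons (On.no03) (StpAll.cons (On.no03) (StpAll.cons (On.no03) (StpAll.cons (On.no03) (StpAll.nil (On.no03)))))))))
theorem neA03 {x : ℝ} (hx : Rng 649613803 48318383 x) : StpAll (fun t t' a => On PP tK tL Z0 x (0 : Fin 9) 3
    (fun y X A L C => NearP (((1 : ℕ) : ℝ) / ((1 : ℕ) : ℝ)) x (mZ.v x) 3 y X A L C ((a : ℝ) / 1000)) fun y =>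
      t ≤ h0 * y ∧ h0 * y ≤ t' + 3 / 100 ∧ 0 < crv PP (0 : Fin 9) 3 y ∧ crv PP (0 : Fin 9) 3 y ≤ 2 / 5) 1340 880 blA 1804 :=
  StpAll.cons (On.no03) (StpAll.cons (On.no03) (StpAll.cons (On.no03) (StpAll.cons (On.no03) (StpAll.cons (On.no03) (StpAll.cons (On.no03) (StpAll.cons (On.no03) (StpAll.cons (On.no03) (StpAll.nil (On.no03)))))))))
theorem hiA10 {x : ℝ} (hx : Rng 649613803 48318383 x) : StpAll (fun t t' a => On PP tK tL Z0 x (1 : Fin 9) 0
    (fun y X A L C => HighP (((1 : ℕ) : ℝ) / ((1 : ℕ) : ℝ)) x (mZ.v x) 0 y X A L C ((a : ℝ) / 1000) Dw) fun y =>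
      t ≤ h0 * y ∧ h0 * y ≤ t' + 3 / 100) 1700 800 hlA 1050 :=
  StpAll.cons (On.noLo (by norm_num) (by decide)) (StpAll.cons (On.noLo (by norm_num) (by decide)) (StpAll.nil (On.noLo (by norm_num) (by decide))))
theorem faA10 {x : ℝ} (hx : Rng 649613803 48318383 x) : StpAll (fun t t' a => On PP tK tL Z0 x (1 : Fin 9) 0
    (fun y X A L C => FarP (((1 : ℕ) : ℝ) / ((1 : ℕ) : ℝ)) x (mZ.v x) 0 y X A L C ((a : ℝ) / 1000) Dw) fun y =>
      t ≤ h0 * y ∧ h0 * y ≤ t' + 3 / 100 ∧ Dw ≤ crv PP (1 : Fin 9) 0 y) 1340 880 blA 1804 :=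
  StpAll.cons (On.noLo (by norm_num) (by decide)) (StpAll.cons (On.noLo (by norm_num) (by decide)) (StpAll.cons (On.noLo (by norm_num) (by decide)) (StpAll.cons (On.noLo (by norm_num) (by decide)) (StpAll.cons (On.noLo (by norm_num) (by decide)) (StpAll.cons (On.noLo (by norm_num) (by decide)) (StpAll.cons (On.noLo (by norm_num) (by decide)) (StpAll.cons (On.noLo (by norm_num) (by decide)) (StpAll.nil (On.noLo (by norm_num) (by decide))))))))))
theorem neA10 {x : ℝ} (hx : Rng 649613803 48318383 x) : StpAll (fun t t' a => On PP tK tL Z0 x (1 : Fin 9) 0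
    (fun y X A L C => NearP (((1 : ℕ) : ℝ) / ((1 : ℕ) : ℝ)) x (mZ.v x) 0 y X A L C ((a : ℝ) / 1000)) fun y =>
      t ≤ h0 * y ∧ h0 * y ≤ t' + 3 / 100 ∧ 0 < crv PP (1 : Fin 9) 0 y ∧ crv PP (1 : Fin 9) 0 y ≤ 2 / 5) 1340 880 blA 1804 :=
  StpAll.cons (On.noLo (by norm_num) (by decide)) (StpAll.cons (On.noLo (by norm_num) (by decide)) (StpAll.cons (On.noLo (by norm_num) (by decide)) (StpAll.cons (On.noLo (by norm_num) (by decide)) (StpAll.cons (On.noLo (by norm_num) (by decide)) (StpAll.cons (On.noLo (by norm_num) (by decide)) (StpAll.cons (On.noLo (by norm_num) (by decide)) (StpAll.cons (On.noLo (by norm_num) (by decide)) (StpAll.nil (On.noLo (by norm_num) (by decide))))))))))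
theorem hiA11 {x : ℝ} (hx : Rng 649613803 48318383 x) : StpAll (fun t t' a => On PP tK tL Z0 x (1 : Fin 9) 1
    (fun y X A L C => HighP (((1 : ℕ) : ℝ) / ((1 : ℕ) : ℝ)) x (mZ.v x) 1 y X A L C ((a : ℝ) / 1000) Dw) fun y =>
      t ≤ h0 * y ∧ h0 * y ≤ t' + 3 / 100) 1700 800 hlA 1050 :=
  StpAll.cons (On.stH (fun y hy => (atB11 hy).far) cA_h0_11 hx (fun _ => rfl) (by decide)) (StpAll.cons (On.stH (fun y hy => (atB11 hy).far) cA_h1_11 hx (fun _ => rfl) (by decide)) (StpAll.nil (On.noLo (by norm_num) (by decide))))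
theorem faA11 {x : ℝ} (hx : Rng 649613803 48318383 x) : StpAll (fun t t' a => On PP tK tL Z0 x (1 : Fin 9) 1
    (fun y X A L C => FarP (((1 : ℕ) : ℝ) / ((1 : ℕ) : ℝ)) x (mZ.v x) 1 y X A L C ((a : ℝ) / 1000) Dw) fun y =>
      t ≤ h0 * y ∧ h0 * y ≤ t' + 3 / 100 ∧ Dw ≤ crv PP (1 : Fin 9) 1 y) 1340 880 blA 1804 :=
  StpAll.cons (On.noLo (by norm_num) (by decide)) (StpAll.cons (On.noLo (by norm_num) (by decide)) (StpAll.cons (On.noLo (by norm_num) (by decide)) (StpAll.cons (On.noLo (by norm_num) (by decide)) (StpAll.cons (On.noLo (by norm_num) (by decide)) (StpAll.cons (On.noLo (by norm_num) (by decide)) (StpAll.cons (On.noLo (by norm_num) (by decide)) (StpAll.cons (On.noLo (by norm_num) (by decide)) (StpAll.nil (On.noLo (by norm_num) (by decide))))))))))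
theorem neA11 {x : ℝ} (hx : Rng 649613803 48318383 x) : StpAll (fun t t' a => On PP tK tL Z0 x (1 : Fin 9) 1
    (fun y X A L C => NearP (((1 : ℕ) : ℝ) / ((1 : ℕ) : ℝ)) x (mZ.v x) 1 y X A L C ((a : ℝ) / 1000)) fun y =>
      t ≤ h0 * y ∧ h0 * y ≤ t' + 3 / 100 ∧ 0 < crv PP (1 : Fin 9) 1 y ∧ crv PP (1 : Fin 9) 1 y ≤ 2 / 5) 1340 880 blA 1804 :=
  StpAll.cons (On.noLo (by norm_num) (by decide)) (StpAll.cons (On.noLo (by norm_num) (by decide)) (StpAll.cons (On.noLo (by norm_num) (by decide)) (StpAll.cons (On.noLo (by norm_num) (by decide)) (StpAll.cons (On.noLo (by norm_num) (by decide)) (StpAll.cons (On.noLo (by norm_num) (by decide)) (StpAll.cons (On.noLo (by norm_num) (by decide)) (StpAll.cons (On.noLo (by norm_num) (by decide)) (StpAll.nil (On.noLo (by norm_num) (by decide))))))))))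
theorem hiA12 {x : ℝ} (hx : Rng 649613803 48318383 x) : StpAll (fun t t' a => On PP tK tL Z0 x (1 : Fin 9) 2
    (fun y X A L C => HighP (((1 : ℕ) : ℝ) / ((1 : ℕ) : ℝ)) x (mZ.v x) 2 y X A L C ((a : ℝ) / 1000) Dw) fun y =>
      t ≤ h0 * y ∧ h0 * y ≤ t' + 3 / 100) 1700 800 hlA 1050 :=
  StpAll.cons (On.noHi (by decide)) (StpAll.cons (On.stH (fun y hy => (atB12 hy).far) cA_h1_12 hx (fun _ => rfl) (by decide)) (StpAll.nil (On.stH (fun y hy => (atB12 hy).far) cA_h2_12 hx (fun _ => rfl) (by decide))))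
theorem faA12 {x : ℝ} (hx : Rng 649613803 48318383 x) : StpAll (fun t t' a => On PP tK tL Z0 x (1 : Fin 9) 2
    (fun y X A L C => FarP (((1 : ℕ) : ℝ) / ((1 : ℕ) : ℝ)) x (mZ.v x) 2 y X A L C ((a : ℝ) / 1000) Dw) fun y =>
      t ≤ h0 * y ∧ h0 * y ≤ t' + 3 / 100 ∧ Dw ≤ crv PP (1 : Fin 9) 2 y) 1340 880 blA 1804 :=
  StpAll.cons (On.stR (fun y hy => (atB12 hy).far) cA_r0_12 hx (fun _ => rfl) (by decide)) (StpAll.cons (On.stR (fun y hy => (atB12 hy).far) cA_r1_12 hx (fun _ => rfl) (by decide)) (StpAll.cons (On.stR (fun y hy => (atB12 hy).far) cA_r2_12 hx (fun _ => rfl) (by decide)) (StpAll.cons (On.stR (fun y hy => (atB12 hy).far) cA_r3_12 hx (fun _ => rfl) (by decide)) (StpAll.cons (On.stR (fun y hy => (atB12 hy).far) cA_r4_12 hx (fun _ => rfl) (by decide)) (StpAll.cons (On.stR (fun y hy => (atB12 hy).far) cA_r5_12 hx (fun _ => rfl) (by decide)) (StpAll.cons (On.stR (fun y hy => (atB12 hy).far) cA_r6_12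 hx (fun _ => rfl) (by decide)) (StpAll.cons (On.stR (fun y hy => (atB12 hy).far) cA_r7_12 hx (fun _ => rfl) (by decide)) (StpAll.nil (On.stR (fun y hy => (atB12 hy).far) cA_r8_12 hx (fun _ => rfl) (by decide))))))))))
theorem neA12 {x : ℝ} (hx : Rng 649613803 48318383 x) : StpAll (fun t t' a => On PP tK tL Z0 x (1 : Fin 9) 2
    (fun y X A L C => NearP (((1 : ℕ) : ℝ) / ((1 : ℕ) : ℝ)) x (mZ.v x) 2 y X A L C ((a : ℝ) / 1000)) fun y =>
      t ≤ h0 * y ∧ h0 * y ≤ t' + 3 / 100 ∧ 0 < crv PP (1 : Fin 9) 2 y ∧ crv PP (1 : Fin 9) 2 y ≤ 2 / 5) 1340 880 blA 1804 :=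
  StpAll.cons (On.stN (fun y hy => (atB12 hy).far) cA_n0_12 hx (fun _ => rfl) (by decide)) (StpAll.cons (On.stN (fun y hy => (atB12 hy).far) cA_n1_12 hx (fun _ => rfl) (by decide)) (StpAll.cons (On.stN (fun y hy => (atB12 hy).far) cA_n2_12 hx (fun _ => rfl) (by decide)) (StpAll.cons (On.stN (fun y hy => (atB12 hy).far) cA_n3_12 hx (fun _ => rfl) (by decide)) (StpAll.cons (On.stN (fun y hy => (atB12 hy).far) cA_n4_12 hx (fun _ => rfl) (by decide)) (StpAll.cons (On.stN (fun y hy => (atB12 hy).far) cA_n5_12 hx (fun _ => rfl) (by decide)) (StpAll.cons (On.stN (fun y hy => (atB12 hy).far) cA_n6_12 hx (fun _ => rfl) (by decide)) (StpAll.cons (On.stN2 covB12a.far covB12b.far cA_n7_12a cA_n7_12b hx (fun _ => rfl) (by decide)) (StpAll.nil (On.stN (fun y hy => (atB12 hy).far) cA_n8_12 hx (fun _ => rfl) (by decide))))))))))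
theorem hiA13 {x : ℝ} (hx : Rng 649613803 48318383 x) : StpAll (fun t t' a => On PP tK tL Z0 x (1 : Fin 9) 3
    (fun y X A L C => HighP (((1 : ℕ) : ℝ) / ((1 : ℕ) : ℝ)) x (mZ.v x) 3 y X A L C ((a : ℝ) / 1000) Dw) fun y =>
      t ≤ h0 * y ∧ h0 * y ≤ t' + 3 / 100) 1700 800 hlA 1050 :=
  StpAll.cons (On.noHi (by decide)) (StpAll.cons (On.noHi (by decide)) (StpAll.nil (On.stH (fun y hy => (atB13 hy).far) cA_h2_13 hx (fun _ => rfl) (by decide))))
theorem faA13 {x : ℝ} (hx : Rng 649613803 48318383 x) : StpAll (fun t t' a => On PP tK tL Z0 x (1 : Fin 9) 3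
    (fun y X A L C => FarP (((1 : ℕ) : ℝ) / ((1 : ℕ) : ℝ)) x (mZ.v x) 3 y X A L C ((a : ℝ) / 1000) Dw) fun y =>
      t ≤ h0 * y ∧ h0 * y ≤ t' + 3 / 100 ∧ Dw ≤ crv PP (1 : Fin 9) 3 y) 1340 880 blA 1804 :=
  StpAll.cons (On.noHi' (by decide)) (StpAll.cons (On.noHi' (by decide)) (StpAll.cons (On.noHi' (by decide)) (StpAll.cons (On.noHi' (by decide)) (StpAll.cons (On.noHi' (by decide)) (StpAll.cons (On.noHi' (by decide)) (StpAll.cons (On.noHi' (by decide)) (StpAll.cons (On.noHi' (by decide)) (StpAll.nil (On.stR (fun y hy => (atB13 hy).far) cA_r8_13 hx (fun _ => rfl) (by decide))))))))))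
theorem neA13 {x : ℝ} (hx : Rng 649613803 48318383 x) : StpAll (fun t t' a => On PP tK tL Z0 x (1 : Fin 9) 3
    (fun y X A L C => NearP (((1 : ℕ) : ℝ) / ((1 : ℕ) : ℝ)) x (mZ.v x) 3 y X A L C ((a : ℝ) / 1000)) fun y =>
      t ≤ h0 * y ∧ h0 * y ≤ t' + 3 / 100 ∧ 0 < crv PP (1 : Fin 9) 3 y ∧ crv PP (1 : Fin 9) 3 y ≤ 2 / 5) 1340 880 blA 1804 :=
  StpAll.cons (On.noHi' (by decide)) (StpAll.cons (On.noHi' (by decide)) (StpAll.cons (On.noHi' (by decide)) (StpAll.cons (On.noHi' (by decide)) (StpAll.cons (On.noHi' (by decide)) (StpAll.cons (On.noHi' (by decide)) (StpAll.cons (On.noHi' (by decide)) (StpAll.cons (On.noHi' (by decide)) (StpAll.nil (On.stN (fun y hy => (atB13 hy).far) cA_n8_13 hx (fun _ => rfl) (by decide))))))))))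
theorem hiA20 {x : ℝ} (hx : Rng 649613803 48318383 x) : StpAll (fun t t' a => On PP tK tL Z0 x (2 : Fin 9) 0
    (fun y X A L C => HighP (((1 : ℕ) : ℝ) / ((1 : ℕ) : ℝ)) x (mZ.v x) 0 y X A L C ((a : ℝ) / 1000) Dw) fun y =>
      t ≤ h0 * y ∧ h0 * y ≤ t' + 3 / 100) 1700 800 hlA 1050 :=
  StpAll.cons (On.noLo (by norm_num) (by decide)) (StpAll.cons (On.noLo (by norm_num) (by decide)) (StpAll.nil (On.noLo (by norm_num) (by decide))))
theorem faA20 {x : ℝ} (hx : Rng 649613803 48318383 x) : StpAll (fun t t' a => On PP tK tL Z0 x (2 : Fin 9) 0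
    (fun y X A L C => FarP (((1 : ℕ) : ℝ) / ((1 : ℕ) : ℝ)) x (mZ.v x) 0 y X A L C ((a : ℝ) / 1000) Dw) fun y =>
      t ≤ h0 * y ∧ h0 * y ≤ t' + 3 / 100 ∧ Dw ≤ crv PP (2 : Fin 9) 0 y) 1340 880 blA 1804 :=
  StpAll.cons (On.noLo (by norm_num) (by decide)) (StpAll.cons (On.noLo (by norm_num) (by decide)) (StpAll.cons (On.noLo (by norm_num) (by decide)) (StpAll.cons (On.noLo (by norm_num) (by decide)) (StpAll.cons (On.noLo (by norm_num) (by decide)) (StpAll.cons (On.noLo (by norm_num) (by decide)) (StpAll.cons (On.noLo (by norm_num) (by decide)) (StpAll.cons (On.noLo (by norm_num) (by decide)) (StpAll.nil (On.noLo (by norm_num) (by decide))))))))))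
theorem neA20 {x : ℝ} (hx : Rng 649613803 48318383 x) : StpAll (fun t t' a => On PP tK tL Z0 x (2 : Fin 9) 0
    (fun y X A L C => NearP (((1 : ℕ) : ℝ) / ((1 : ℕ) : ℝ)) x (mZ.v x) 0 y X A L C ((a : ℝ) / 1000)) fun y =>
      t ≤ h0 * y ∧ h0 * y ≤ t' + 3 / 100 ∧ 0 < crv PP (2 : Fin 9) 0 y ∧ crv PP (2 : Fin 9) 0 y ≤ 2 / 5) 1340 880 blA 1804 :=
  StpAll.cons (On.noLo (by norm_num) (by decide)) (StpAll.cons (On.noLo (by norm_num) (by decide)) (StpAll.cons (On.noLo (by norm_num) (by decide)) (StpAll.cons (On.noLo (by norm_num) (by decide)) (StpAll.cons (On.noLo (by norm_num) (by decide)) (StpAll.cons (On.noLo (by norm_num) (by decide)) (StpAll.cons (On.noLo (by norm_num) (by decide)) (StpAll.cons (On.noLo (by norm_num) (by decide)) (StpAll.nil (On.noLo (by norm_num) (by decide))))))))))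
theorem hiA21 {x : ℝ} (hx : Rng 649613803 48318383 x) : StpAll (fun t t' a => On PP tK tL Z0 x (2 : Fin 9) 1
    (fun y X A L C => HighP (((1 : ℕ) : ℝ) / ((1 : ℕ) : ℝ)) x (mZ.v x) 1 y X A L C ((a : ℝ) / 1000) Dw) fun y =>
      t ≤ h0 * y ∧ h0 * y ≤ t' + 3 / 100) 1700 800 hlA 1050 :=
  StpAll.cons (On.stH (fun y hy => (atB21 hy).far) cA_h0_21 hx (fun _ => rfl) (by decide)) (StpAll.cons (On.stH (fun y hy => (atB21 hy).far) cA_h1_21 hx (fun _ => rfl) (by decide)) (StpAll.nil (On.noLo (by norm_num) (by decide))))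
theorem faA21 {x : ℝ} (hx : Rng 649613803 48318383 x) : StpAll (fun t t' a => On PP tK tL Z0 x (2 : Fin 9) 1
    (fun y X A L C => FarP (((1 : ℕ) : ℝ) / ((1 : ℕ) : ℝ)) x (mZ.v x) 1 y X A L C ((a : ℝ) / 1000) Dw) fun y =>
      t ≤ h0 * y ∧ h0 * y ≤ t' + 3 / 100 ∧ Dw ≤ crv PP (2 : Fin 9) 1 y) 1340 880 blA 1804 :=
  StpAll.cons (On.noLo (by norm_num) (by decide)) (StpAll.cons (On.noLo (by norm_num) (by decide)) (StpAll.cons (On.noLo (by norm_num) (by decide)) (StpAll.cons (On.noLo (by norm_num) (by decide)) (StpAll.cons (On.noLo (by norm_num) (by decide)) (StpAll.cons (On.noLo (by norm_num) (by decide)) (StpAll.cons (On.noLo (by norm_num) (by decide)) (StpAll.cons (On.noLo (by norm_num) (by decide)) (StpAll.nil (On.noLo (by norm_num) (by decide))))))))))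
theorem neA21 {x : ℝ} (hx : Rng 649613803 48318383 x) : StpAll (fun t t' a => On PP tK tL Z0 x (2 : Fin 9) 1
    (fun y X A L C => NearP (((1 : ℕ) : ℝ) / ((1 : ℕ) : ℝ)) x (mZ.v x) 1 y X A L C ((a : ℝ) / 1000)) fun y =>
      t ≤ h0 * y ∧ h0 * y ≤ t' + 3 / 100 ∧ 0 < crv PP (2 : Fin 9) 1 y ∧ crv PP (2 : Fin 9) 1 y ≤ 2 / 5) 1340 880 blA 1804 :=
  StpAll.cons (On.noLo (by norm_num) (by decide)) (StpAll.cons (On.noLo (by norm_num) (by decide)) (StpAll.cons (On.noLo (by norm_num) (by decide)) (StpAll.cons (On.noLo (by norm_num) (by decide)) (StpAll.cons (On.noLo (by norm_num) (by decide)) (StpAll.cons (On.noLo (by norm_num) (by decide)) (StpAll.cons (On.noLo (by norm_num) (by decide)) (StpAll.cons (On.noLo (by norm_num) (by decide)) (StpAll.nil (On.noLo (by norm_num) (by decide))))))))))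
theorem hiA22 {x : ℝ} (hx : Rng 649613803 48318383 x) : StpAll (fun t t' a => On PP tK tL Z0 x (2 : Fin 9) 2
    (fun y X A L C => HighP (((1 : ℕ) : ℝ) / ((1 : ℕ) : ℝ)) x (mZ.v x) 2 y X A L C ((a : ℝ) / 1000) Dw) fun y =>
      t ≤ h0 * y ∧ h0 * y ≤ t' + 3 / 100) 1700 800 hlA 1050 :=
  StpAll.cons (On.noHi (by decide)) (StpAll.cons (On.stH (fun y hy => (atB22 hy).far) cA_h1_22 hx (fun _ => rfl) (by decide)) (StpAll.nil (On.stH (fun y hy => (atB22 hy).far) cA_h2_22 hx (fun _ => rfl) (by decide))))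
theorem faA22 {x : ℝ} (hx : Rng 649613803 48318383 x) : StpAll (fun t t' a => On PP tK tL Z0 x (2 : Fin 9) 2
    (fun y X A L C => FarP (((1 : ℕ) : ℝ) / ((1 : ℕ) : ℝ)) x (mZ.v x) 2 y X A L C ((a : ℝ) / 1000) Dw) fun y =>
      t ≤ h0 * y ∧ h0 * y ≤ t' + 3 / 100 ∧ Dw ≤ crv PP (2 : Fin 9) 2 y) 1340 880 blA 1804 :=
  StpAll.cons (On.stR (fun y hy => (atB22 hy).far) cA_r0_22 hx (fun _ => rfl) (by decide)) (StpAll.cons (On.stR (fun y hy => (atB22 hy).far) cA_r1_22 hx (fun _ => rfl) (by decide)) (StpAll.cons (On.stR (fun y hy => (atB22 hy).far) cA_r2_22 hx (fun _ => rfl) (by decide)) (StpAll.cons (On.stR (fun y hy => (atB22 hy).far) cA_r3_22 hx (fun _ => rfl) (by decide)) (StpAll.cons (On.stR (fun y hy => (atB22 hy).far) cA_r4_22 hx (fun _ => rfl) (by decide)) (StpAll.cons (On.stR (fun y hy => (atB22 hy).far) cA_r5_22 hx (fun _ => rfl) (by decide)) (StpAll.cons (On.stR (fun y hy => (atB22 hy).far) cA_r6_22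 hx (fun _ => rfl) (by decide)) (StpAll.cons (On.stR (fun y hy => (atB22 hy).far) cA_r7_22 hx (fun _ => rfl) (by decide)) (StpAll.nil (On.stR (fun y hy => (atB22 hy).far) cA_r8_22 hx (fun _ => rfl) (by decide))))))))))
theorem neA22 {x : ℝ} (hx : Rng 649613803 48318383 x) : StpAll (fun t t' a => On PP tK tL Z0 x (2 : Fin 9) 2
    (fun y X A L C => NearP (((1 : ℕ) : ℝ) / ((1 : ℕ) : ℝ)) x (mZ.v x) 2 y X A L C ((a : ℝ) / 1000)) fun y =>
      t ≤ h0 * y ∧ h0 * y ≤ t' + 3 / 100 ∧ 0 < crv PP (2 : Fin 9) 2 y ∧ crv PP (2 : Fin 9) 2 y ≤ 2 / 5) 1340 880 blA 1804 :=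
  StpAll.cons (On.stN (fun y hy => (atB22 hy).far) cA_n0_22 hx (fun _ => rfl) (by decide)) (StpAll.cons (On.stN (fun y hy => (atB22 hy).far) cA_n1_22 hx (fun _ => rfl) (by decide)) (StpAll.cons (On.stN (fun y hy => (atB22 hy).far) cA_n2_22 hx (fun _ => rfl) (by decide)) (StpAll.cons (On.stN (fun y hy => (atB22 hy).far) cA_n3_22 hx (fun _ => rfl) (by decide)) (StpAll.cons (On.stN (fun y hy => (atB22 hy).far) cA_n4_22 hx (fun _ => rfl) (by decide)) (StpAll.cons (On.stN (fun y hy => (atB22 hy).far) cA_n5_22 hx (fun _ => rfl) (by decide)) (StpAll.cons (On.stN (fun y hy => (atB22 hy).far) cA_n6_22 hx (fun _ => rfl) (by decide)) (StpAll.cons (On.stN (fun y hy => (atB22 hy).far) cA_n7_22 hx (fun _ => rfl) (by decide)) (StpAll.nil (On.stN (fun y hy => (atB22 hy).far) cA_n8_22 hx (fun _ => rfl) (by decide))))))))))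
theorem hiA23 {x : ℝ} (hx : Rng 649613803 48318383 x) : StpAll (fun t t' a => On PP tK tL Z0 x (2 : Fin 9) 3
    (fun y X A L C => HighP (((1 : ℕ) : ℝ) / ((1 : ℕ) : ℝ)) x (mZ.v x) 3 y X A L C ((a : ℝ) / 1000) Dw) fun y =>
      t ≤ h0 * y ∧ h0 * y ≤ t' + 3 / 100) 1700 800 hlA 1050 :=
  StpAll.cons (On.noHi (by decide)) (StpAll.cons (On.noHi (by decide)) (StpAll.nil (On.stH (fun y hy => (atB23 hy).far) cA_h2_23 hx (fun _ => rfl) (by decide))))
theorem faA23 {x : ℝ} (hx : Rng 649613803 48318383 x) : StpAll (fun t t' a => On PP tK tL Z0 x (2 : Fin 9) 3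
    (fun y X A L C => FarP (((1 : ℕ) : ℝ) / ((1 : ℕ) : ℝ)) x (mZ.v x) 3 y X A L C ((a : ℝ) / 1000) Dw) fun y =>
      t ≤ h0 * y ∧ h0 * y ≤ t' + 3 / 100 ∧ Dw ≤ crv PP (2 : Fin 9) 3 y) 1340 880 blA 1804 :=
  StpAll.cons (On.noHi' (by decide)) (StpAll.cons (On.noHi' (by decide)) (StpAll.cons (On.noHi' (by decide)) (StpAll.cons (On.noHi' (by decide)) (StpAll.cons (On.noHi' (by decide)) (StpAll.cons (On.noHi' (by decide)) (StpAll.cons (On.noHi' (by decide)) (StpAll.cons (On.noHi' (by decide)) (StpAll.nil (On.stR (fun y hy => (atB23 hy).far) cA_r8_23 hx (fun _ => rfl) (by decide))))))))))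
theorem neA23 {x : ℝ} (hx : Rng 649613803 48318383 x) : StpAll (fun t t' a => On PP tK tL Z0 x (2 : Fin 9) 3
    (fun y X A L C => NearP (((1 : ℕ) : ℝ) / ((1 : ℕ) : ℝ)) x (mZ.v x) 3 y X A L C ((a : ℝ) / 1000)) fun y =>
      t ≤ h0 * y ∧ h0 * y ≤ t' + 3 / 100 ∧ 0 < crv PP (2 : Fin 9) 3 y ∧ crv PP (2 : Fin 9) 3 y ≤ 2 / 5) 1340 880 blA 1804 :=
  StpAll.cons (On.noHi' (by decide)) (StpAll.cons (On.noHi' (by decide)) (StpAll.cons (On.noHi' (by decide)) (StpAll.cons (On.noHi' (by decide)) (StpAll.cons (On.noHi' (by decide)) (StpAll.cons (On.noHi' (by decide)) (StpAll.cons (On.noHi' (by decide)) (StpAll.cons (On.noHi' (by decide)) (StpAll.nil (On.stN (fun y hy => (atB23 hy).far) cA_n8_23 hx (fun _ => rfl) (by decide))))))))))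
theorem hiA30 {x : ℝ} (hx : Rng 649613803 48318383 x) : StpAll (fun t t' a => On PP tK tL Z0 x (3 : Fin 9) 0
    (fun y X A L C => HighP (((1 : ℕ) : ℝ) / ((1 : ℕ) : ℝ)) x (mZ.v x) 0 y X A L C ((a : ℝ) / 1000) Dw) fun y =>
      t ≤ h0 * y ∧ h0 * y ≤ t' + 3 / 100) 1700 800 hlA 1050 :=
  StpAll.cons (On.noLo (by norm_num) (by decide)) (StpAll.cons (On.noLo (by norm_num) (by decide)) (StpAll.nil (On.noLo (by norm_num) (by decide))))
theorem faA30 {x : ℝ} (hx : Rng 649613803 48318383 x) : StpAll (fun t t' a => On PP tK tL Z0 x (3 : Fin 9) 0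
    (fun y X A L C => FarP (((1 : ℕ) : ℝ) / ((1 : ℕ) : ℝ)) x (mZ.v x) 0 y X A L C ((a : ℝ) / 1000) Dw) fun y =>
      t ≤ h0 * y ∧ h0 * y ≤ t' + 3 / 100 ∧ Dw ≤ crv PP (3 : Fin 9) 0 y) 1340 880 blA 1804 :=
  StpAll.cons (On.noLo (by norm_num) (by decide)) (StpAll.cons (On.noLo (by norm_num) (by decide)) (StpAll.cons (On.noLo (by norm_num) (by decide)) (StpAll.cons (On.noLo (by norm_num) (by decide)) (StpAll.cons (On.noLo (by norm_num) (by decide)) (StpAll.cons (On.noLo (by norm_num) (by decide)) (StpAll.cons (On.noLo (by norm_num) (by decide)) (StpAll.cons (On.noLo (by norm_num) (by decide)) (StpAll.nil (On.noLo (by norm_num) (by decide))))))))))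
theorem neA30 {x : ℝ} (hx : Rng 649613803 48318383 x) : StpAll (fun t t' a => On PP tK tL Z0 x (3 : Fin 9) 0
    (fun y X A L C => NearP (((1 : ℕ) : ℝ) / ((1 : ℕ) : ℝ)) x (mZ.v x) 0 y X A L C ((a : ℝ) / 1000)) fun y =>
      t ≤ h0 * y ∧ h0 * y ≤ t' + 3 / 100 ∧ 0 < crv PP (3 : Fin 9) 0 y ∧ crv PP (3 : Fin 9) 0 y ≤ 2 / 5) 1340 880 blA 1804 :=
  StpAll.cons (On.noLo (by norm_num) (by decide)) (StpAll.cons (On.noLo (by norm_num) (by decide)) (StpAll.cons (On.noLo (by norm_num) (by decide)) (StpAll.cons (On.noLo (by norm_num) (by decide)) (StpAll.cons (On.noLo (by norm_num) (by decide)) (StpAll.cons (On.noLo (by norm_num) (by decide)) (StpAll.cons (On.noLo (by norm_num) (by decide)) (StpAll.cons (On.noLo (by norm_num) (by decide)) (StpAll.nil (On.noLo (by norm_num) (by decide))))))))))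
theorem hiA31 {x : ℝ} (hx : Rng 649613803 48318383 x) : StpAll (fun t t' a => On PP tK tL Z0 x (3 : Fin 9) 1
    (fun y X A L C => HighP (((1 : ℕ) : ℝ) / ((1 : ℕ) : ℝ)) x (mZ.v x) 1 y X A L C ((a : ℝ) / 1000) Dw) fun y =>
      t ≤ h0 * y ∧ h0 * y ≤ t' + 3 / 100) 1700 800 hlA 1050 :=
  StpAll.cons (On.stH (fun y hy => (atB31 hy).far) cA_h0_31 hx (fun _ => rfl) (by decide)) (StpAll.cons (On.stH (fun y hy => (atB31 hy).far) cA_h1_31 hx (fun _ => rfl) (by decide)) (StpAll.nil (On.noLo (by norm_num) (by decide))))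
theorem faA31 {x : ℝ} (hx : Rng 649613803 48318383 x) : StpAll (fun t t' a => On PP tK tL Z0 x (3 : Fin 9) 1
    (fun y X A L C => FarP (((1 : ℕ) : ℝ) / ((1 : ℕ) : ℝ)) x (mZ.v x) 1 y X A L C ((a : ℝ) / 1000) Dw) fun y =>
      t ≤ h0 * y ∧ h0 * y ≤ t' + 3 / 100 ∧ Dw ≤ crv PP (3 : Fin 9) 1 y) 1340 880 blA 1804 :=
  StpAll.cons (On.noLo (by norm_num) (by decide)) (StpAll.cons (On.noLo (by norm_num) (by decide)) (StpAll.cons (On.noLo (by norm_num) (by decide)) (StpAll.cons (On.noLo (by norm_num) (by decide)) (StpAll.cons (On.noLo (by norm_num) (by decide)) (StpAll.cons (On.noLo (by norm_num) (by decide)) (StpAll.cons (On.noLo (by norm_num) (by decide)) (StpAll.cons (On.noLo (by norm_num) (by decide)) (StpAll.nil (On.noLo (by norm_num) (by decide))))))))))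
theorem neA31 {x : ℝ} (hx : Rng 649613803 48318383 x) : StpAll (fun t t' a => On PP tK tL Z0 x (3 : Fin 9) 1
    (fun y X A L C => NearP (((1 : ℕ) : ℝ) / ((1 : ℕ) : ℝ)) x (mZ.v x) 1 y X A L C ((a : ℝ) / 1000)) fun y =>
      t ≤ h0 * y ∧ h0 * y ≤ t' + 3 / 100 ∧ 0 < crv PP (3 : Fin 9) 1 y ∧ crv PP (3 : Fin 9) 1 y ≤ 2 / 5) 1340 880 blA 1804 :=
  StpAll.cons (On.noLo (by norm_num) (by decide)) (StpAll.cons (On.noLo (by norm_num) (by decide)) (StpAll.cons (On.noLo (by norm_num) (by decide)) (StpAll.cons (On.noLo (by norm_num) (by decide)) (StpAll.cons (On.noLo (by norm_num) (by decide)) (StpAll.cons (On.noLo (by norm_num) (by decide)) (StpAll.cons (On.noLo (by norm_num) (by decide)) (StpAll.cons (On.noLo (by norm_num) (by decide)) (StpAll.nil (On.noLo (by norm_num) (by decide))))))))))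
theorem hiA32 {x : ℝ} (hx : Rng 649613803 48318383 x) : StpAll (fun t t' a => On PP tK tL Z0 x (3 : Fin 9) 2
    (fun y X A L C => HighP (((1 : ℕ) : ℝ) / ((1 : ℕ) : ℝ)) x (mZ.v x) 2 y X A L C ((a : ℝ) / 1000) Dw) fun y =>
      t ≤ h0 * y ∧ h0 * y ≤ t' + 3 / 100) 1700 800 hlA 1050 :=
  StpAll.cons (On.noHi (by decide)) (StpAll.cons (On.stH (fun y hy => (atB32 hy).far) cA_h1_32 hx (fun _ => rfl) (by decide)) (StpAll.nil (On.stH (fun y hy => (atB32 hy).far) cA_h2_32 hx (fun _ => rfl) (by decide))))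
theorem faA32 {x : ℝ} (hx : Rng 649613803 48318383 x) : StpAll (fun t t' a => On PP tK tL Z0 x (3 : Fin 9) 2
    (fun y X A L C => FarP (((1 : ℕ) : ℝ) / ((1 : ℕ) : ℝ)) x (mZ.v x) 2 y X A L C ((a : ℝ) / 1000) Dw) fun y =>
      t ≤ h0 * y ∧ h0 * y ≤ t' + 3 / 100 ∧ Dw ≤ crv PP (3 : Fin 9) 2 y) 1340 880 blA 1804 :=
  StpAll.cons (On.stR (fun y hy => (atB32 hy).far) cA_r0_32 hx (fun _ => rfl) (by decide)) (StpAll.cons (On.stR (fun y hy => (atB32 hy).far) cA_r1_32 hx (fun _ => rfl) (by decide)) (StpAll.cons (On.stR (fun y hy => (atB32 hy).far) cA_r2_32 hx (fun _ => rfl) (by decide)) (StpAll.cons (On.stR (fun y hy => (atB32 hy).far) cA_r3_32 hx (fun _ => rfl) (by decide)) (StpAll.cons (On.stR (fun y hy => (atB32 hy).far) cA_r4_32 hx (fun _ => rfl) (by decide)) (StpAll.cons (On.stR (fun y hy => (atB32 hy).far) cA_r5_32 hx (fun _ => rfl) (by decide)) (StpAll.cons (On.stR (fun y hy => (atB32 hy).far) cA_r6_32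 hx (fun _ => rfl) (by decide)) (StpAll.cons (On.stR (fun y hy => (atB32 hy).far) cA_r7_32 hx (fun _ => rfl) (by decide)) (StpAll.nil (On.stR (fun y hy => (atB32 hy).far) cA_r8_32 hx (fun _ => rfl) (by decide))))))))))
theorem neA32 {x : ℝ} (hx : Rng 649613803 48318383 x) : StpAll (fun t t' a => On PP tK tL Z0 x (3 : Fin 9) 2
    (fun y X A L C => NearP (((1 : ℕ) : ℝ) / ((1 : ℕ) : ℝ)) x (mZ.v x) 2 y X A L C ((a : ℝ) / 1000)) fun y =>
      t ≤ h0 * y ∧ h0 * y ≤ t' + 3 / 100 ∧ 0 < crv PP (3 : Fin 9) 2 y ∧ crv PP (3 : Fin 9) 2 y ≤ 2 / 5) 1340 880 blA 1804 :=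
  StpAll.cons (On.stN (fun y hy => (atB32 hy).far) cA_n0_32 hx (fun _ => rfl) (by decide)) (StpAll.cons (On.stN (fun y hy => (atB32 hy).far) cA_n1_32 hx (fun _ => rfl) (by decide)) (StpAll.cons (On.stN (fun y hy => (atB32 hy).far) cA_n2_32 hx (fun _ => rfl) (by decide)) (StpAll.cons (On.stN (fun y hy => (atB32 hy).far) cA_n3_32 hx (fun _ => rfl) (by decide)) (StpAll.cons (On.stN (fun y hy => (atB32 hy).far) cA_n4_32 hx (fun _ => rfl) (by decide)) (StpAll.cons (On.stN (fun y hy => (atB32 hy).far) cA_n5_32 hx (fun _ => rfl) (by decide)) (StpAll.cons (On.stN (fun y hy => (atB32 hy).far) cA_n6_32 hx (fun _ => rfl) (by decide)) (StpAll.cons (On.stN (fun y hy => (atB32 hy).far) cA_n7_32 hx (fun _ => rfl) (by decide)) (StpAll.nil (On.stN (fun y hy => (atB32 hy).far) cA_n8_32 hx (fun _ => rfl) (by decide))))))))))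
theorem hiA33 {x : ℝ} (hx : Rng 649613803 48318383 x) : StpAll (fun t t' a => On PP tK tL Z0 x (3 : Fin 9) 3
    (fun y X A L C => HighP (((1 : ℕ) : ℝ) / ((1 : ℕ) : ℝ)) x (mZ.v x) 3 y X A L C ((a : ℝ) / 1000) Dw) fun y =>
      t ≤ h0 * y ∧ h0 * y ≤ t' + 3 / 100) 1700 800 hlA 1050 :=
  StpAll.cons (On.noHi (by decide)) (StpAll.cons (On.noHi (by decide)) (StpAll.nil (On.stH (fun y hy => (atB33 hy).far) cA_h2_33 hx (fun _ => rfl) (by decide))))
theorem faA33 {x : ℝ} (hx : Rng 649613803 48318383 x) : StpAll (fun t t' a => On PP tK tL Z0 x (3 : Fin 9) 3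
    (fun y X A L C => FarP (((1 : ℕ) : ℝ) / ((1 : ℕ) : ℝ)) x (mZ.v x) 3 y X A L C ((a : ℝ) / 1000) Dw) fun y =>
      t ≤ h0 * y ∧ h0 * y ≤ t' + 3 / 100 ∧ Dw ≤ crv PP (3 : Fin 9) 3 y) 1340 880 blA 1804 :=
  StpAll.cons (On.noHi' (by decide)) (StpAll.cons (On.noHi' (by decide)) (StpAll.cons (On.noHi' (by decide)) (StpAll.cons (On.noHi' (by decide)) (StpAll.cons (On.noHi' (by decide)) (StpAll.cons (On.noHi' (by decide)) (StpAll.cons (On.noHi' (by decide)) (StpAll.cons (On.noHi' (by decide)) (StpAll.nil (On.stR (fun y hy => (atB33 hy).far) cA_r8_33 hx (fun _ => rfl) (by decide))))))))))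
theorem neA33 {x : ℝ} (hx : Rng 649613803 48318383 x) : StpAll (fun t t' a => On PP tK tL Z0 x (3 : Fin 9) 3
    (fun y X A L C => NearP (((1 : ℕ) : ℝ) / ((1 : ℕ) : ℝ)) x (mZ.v x) 3 y X A L C ((a : ℝ) / 1000)) fun y =>
      t ≤ h0 * y ∧ h0 * y ≤ t' + 3 / 100 ∧ 0 < crv PP (3 : Fin 9) 3 y ∧ crv PP (3 : Fin 9) 3 y ≤ 2 / 5) 1340 880 blA 1804 :=
  StpAll.cons (On.noHi' (by decide)) (StpAll.cons (On.noHi' (by decide)) (StpAll.cons (On.noHi' (by decide)) (StpAll.cons (On.noHi' (by decide)) (StpAll.cons (On.noHi' (by decide)) (StpAll.cons (On.noHi' (by decide)) (StpAll.cons (On.noHi' (by decide)) (StpAll.cons (On.noHi' (by decide)) (StpAll.nil (On.stN (fun y hy => (atB33 hy).far) cA_n8_33 hx (fun _ => rfl) (by decide))))))))))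
theorem hiA40 {x : ℝ} (hx : Rng 649613803 48318383 x) : StpAll (fun t t' a => On PP tK tL Z0 x (4 : Fin 9) 0
    (fun y X A L C => HighP (((1 : ℕ) : ℝ) / ((1 : ℕ) : ℝ)) x (mZ.v x) 0 y X A L C ((a : ℝ) / 1000) Dw) fun y =>
      t ≤ h0 * y ∧ h0 * y ≤ t' + 3 / 100) 1700 800 hlA 1050 :=
  StpAll.cons (On.noLo (by norm_num) (by decide)) (StpAll.cons (On.noLo (by norm_num) (by decide)) (StpAll.nil (On.noLo (by norm_num) (by decide))))
theorem faA40 {x : ℝ} (hx : Rng 649613803 48318383 x) : StpAll (fun t t' a => On PP tK tL Z0 x (4 : Fin 9) 0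
    (fun y X A L C => FarP (((1 : ℕ) : ℝ) / ((1 : ℕ) : ℝ)) x (mZ.v x) 0 y X A L C ((a : ℝ) / 1000) Dw) fun y =>
      t ≤ h0 * y ∧ h0 * y ≤ t' + 3 / 100 ∧ Dw ≤ crv PP (4 : Fin 9) 0 y) 1340 880 blA 1804 :=
  StpAll.cons (On.noLo (by norm_num) (by decide)) (StpAll.cons (On.noLo (by norm_num) (by decide)) (StpAll.cons (On.noLo (by norm_num) (by decide)) (StpAll.cons (On.noLo (by norm_num) (by decide)) (StpAll.cons (On.noLo (by norm_num) (by decide)) (StpAll.cons (On.noLo (by norm_num) (by decide)) (StpAll.cons (On.noLo (by norm_num) (by decide)) (StpAll.cons (On.noLo (by norm_num) (by decide)) (StpAll.nil (On.noLo (by norm_num) (by decide))))))))))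
theorem neA40 {x : ℝ} (hx : Rng 649613803 48318383 x) : StpAll (fun t t' a => On PP tK tL Z0 x (4 : Fin 9) 0
    (fun y X A L C => NearP (((1 : ℕ) : ℝ) / ((1 : ℕ) : ℝ)) x (mZ.v x) 0 y X A L C ((a : ℝ) / 1000)) fun y =>
      t ≤ h0 * y ∧ h0 * y ≤ t' + 3 / 100 ∧ 0 < crv PP (4 : Fin 9) 0 y ∧ crv PP (4 : Fin 9) 0 y ≤ 2 / 5) 1340 880 blA 1804 :=
  StpAll.cons (On.noLo (by norm_num) (by decide)) (StpAll.cons (On.noLo (by norm_num) (by decide)) (StpAll.cons (On.noLo (by norm_num) (by decide)) (StpAll.cons (On.noLo (by norm_num) (by decide)) (StpAll.cons (On.noLo (by norm_num) (by decide)) (StpAll.cons (On.noLo (by norm_num) (by decide)) (StpAll.cons (On.noLo (by norm_num) (by decide)) (StpAll.cons (On.noLo (by norm_num) (by decide)) (StpAll.nil (On.noLo (by norm_num) (by decide))))))))))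
theorem hiA41 {x : ℝ} (hx : Rng 649613803 48318383 x) : StpAll (fun t t' a => On PP tK tL Z0 x (4 : Fin 9) 1
    (fun y X A L C => HighP (((1 : ℕ) : ℝ) / ((1 : ℕ) : ℝ)) x (mZ.v x) 1 y X A L C ((a : ℝ) / 1000) Dw) fun y =>
      t ≤ h0 * y ∧ h0 * y ≤ t' + 3 / 100) 1700 800 hlA 1050 :=
  StpAll.cons (On.stH (fun y hy => (atB41 hy).far) cA_h0_41 hx (fun _ => rfl) (by decide)) (StpAll.cons (On.stH (fun y hy => (atB41 hy).far) cA_h1_41 hx (fun _ => rfl) (by decide)) (StpAll.nil (On.noLo (by norm_num) (by decide))))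
theorem faA41 {x : ℝ} (hx : Rng 649613803 48318383 x) : StpAll (fun t t' a => On PP tK tL Z0 x (4 : Fin 9) 1
    (fun y X A L C => FarP (((1 : ℕ) : ℝ) / ((1 : ℕ) : ℝ)) x (mZ.v x) 1 y X A L C ((a : ℝ) / 1000) Dw) fun y =>
      t ≤ h0 * y ∧ h0 * y ≤ t' + 3 / 100 ∧ Dw ≤ crv PP (4 : Fin 9) 1 y) 1340 880 blA 1804 :=
  StpAll.cons (On.noLo (by norm_num) (by decide)) (StpAll.cons (On.noLo (by norm_num) (by decide)) (StpAll.cons (On.noLo (by norm_num) (by decide)) (StpAll.cons (On.noLo (by norm_num) (by decide)) (StpAll.cons (On.noLo (by norm_num) (by decide)) (StpAll.cons (On.noLo (by norm_num) (by decide)) (StpAll.cons (On.noLo (by norm_num) (by decide)) (StpAll.cons (On.noLo (by norm_num) (by decide)) (StpAll.nil (On.noLo (by norm_num) (by decide))))))))))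
theorem neA41 {x : ℝ} (hx : Rng 649613803 48318383 x) : StpAll (fun t t' a => On PP tK tL Z0 x (4 : Fin 9) 1
    (fun y X A L C => NearP (((1 : ℕ) : ℝ) / ((1 : ℕ) : ℝ)) x (mZ.v x) 1 y X A L C ((a : ℝ) / 1000)) fun y =>
      t ≤ h0 * y ∧ h0 * y ≤ t' + 3 / 100 ∧ 0 < crv PP (4 : Fin 9) 1 y ∧ crv PP (4 : Fin 9) 1 y ≤ 2 / 5) 1340 880 blA 1804 :=
  StpAll.cons (On.noLo (by norm_num) (by decide)) (StpAll.cons (On.noLo (by norm_num) (by decide)) (StpAll.cons (On.noLo (by norm_num) (by decide)) (StpAll.cons (On.noLo (by norm_num) (by decide)) (StpAll.cons (On.noLo (by norm_num) (by decide)) (StpAll.cons (On.noLo (by norm_num) (by decide)) (StpAll.cons (On.noLo (by norm_num) (by decide)) (StpAll.cons (On.noLo (by norm_num) (by decide)) (StpAll.nil (On.noLo (by norm_num) (by decide))))))))))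
theorem hiA42 {x : ℝ} (hx : Rng 649613803 48318383 x) : StpAll (fun t t' a => On PP tK tL Z0 x (4 : Fin 9) 2
    (fun y X A L C => HighP (((1 : ℕ) : ℝ) / ((1 : ℕ) : ℝ)) x (mZ.v x) 2 y X A L C ((a : ℝ) / 1000) Dw) fun y =>
      t ≤ h0 * y ∧ h0 * y ≤ t' + 3 / 100) 1700 800 hlA 1050 :=
  StpAll.cons (On.noHi (by decide)) (StpAll.cons (On.stH (fun y hy => (atB42 hy).far) cA_h1_42 hx (fun _ => rfl) (by decide)) (StpAll.nil (On.stH (fun y hy => (atB42 hy).far) cA_h2_42 hx (fun _ => rfl) (by decide))))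
theorem faA42 {x : ℝ} (hx : Rng 649613803 48318383 x) : StpAll (fun t t' a => On PP tK tL Z0 x (4 : Fin 9) 2
    (fun y X A L C => FarP (((1 : ℕ) : ℝ) / ((1 : ℕ) : ℝ)) x (mZ.v x) 2 y X A L C ((a : ℝ) / 1000) Dw) fun y =>
      t ≤ h0 * y ∧ h0 * y ≤ t' + 3 / 100 ∧ Dw ≤ crv PP (4 : Fin 9) 2 y) 1340 880 blA 1804 :=
  StpAll.cons (On.stR (fun y hy => (atB42 hy).far) cA_r0_42 hx (fun _ => rfl) (by decide)) (StpAll.cons (On.stR (fun y hy => (atB42 hy).far) cA_r1_42 hx (fun _ => rfl) (by decide)) (StpAll.cons (On.stR (fun y hy => (atB42 hy).far) cA_r2_42 hx (fun _ => rfl) (by decide)) (StpAll.cons (On.stR (fun y hy => (atB42 hy).far) cA_r3_42 hx (fun _ => rfl) (by decide)) (StpAll.cons (On.stR (fun y hy => (atB42 hy).far) cA_r4_42 hx (fun _ => rfl) (by decide)) (StpAll.cons (On.stR (fun y hy => (atB42 hy).far) cA_r5_42 hx (fun _ => rfl) (by decide)) (StpAll.cons (On.stR (fun y hy => (atB42 hy).far) cA_r6_42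 hx (fun _ => rfl) (by decide)) (StpAll.cons (On.stR (fun y hy => (atB42 hy).far) cA_r7_42 hx (fun _ => rfl) (by decide)) (StpAll.nil (On.stR (fun y hy => (atB42 hy).far) cA_r8_42 hx (fun _ => rfl) (by decide))))))))))
theorem neA42 {x : ℝ} (hx : Rng 649613803 48318383 x) : StpAll (fun t t' a => On PP tK tL Z0 x (4 : Fin 9) 2
    (fun y X A L C => NearP (((1 : ℕ) : ℝ) / ((1 : ℕ) : ℝ)) x (mZ.v x) 2 y X A L C ((a : ℝ) / 1000)) fun y =>
      t ≤ h0 * y ∧ h0 * y ≤ t' + 3 / 100 ∧ 0 < crv PP (4 : Fin 9) 2 y ∧ crv PP (4 : Fin 9) 2 y ≤ 2 / 5) 1340 880 blA 1804 :=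
  StpAll.cons (On.stN (fun y hy => (atB42 hy).far) cA_n0_42 hx (fun _ => rfl) (by decide)) (StpAll.cons (On.stN (fun y hy => (atB42 hy).far) cA_n1_42 hx (fun _ => rfl) (by decide)) (StpAll.cons (On.stN (fun y hy => (atB42 hy).far) cA_n2_42 hx (fun _ => rfl) (by decide)) (StpAll.cons (On.stN (fun y hy => (atB42 hy).far) cA_n3_42 hx (fun _ => rfl) (by decide)) (StpAll.cons (On.stN (fun y hy => (atB42 hy).far) cA_n4_42 hx (fun _ => rfl) (by decide)) (StpAll.cons (On.stN (fun y hy => (atB42 hy).far) cA_n5_42 hx (fun _ => rfl) (by decide)) (StpAll.cons (On.stN (fun y hy => (atB42 hy).far) cA_n6_42 hx (fun _ => rfl) (by decide)) (StpAll.cons (On.stN (fun y hy => (atB42 hy).far) cA_n7_42 hx (fun _ => rfl) (by decide)) (StpAll.nil (On.stN (fun y hy => (atB42 hy).far) cA_n8_42 hx (fun _ => rfl) (by decide))))))))))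
theorem hiA43 {x : ℝ} (hx : Rng 649613803 48318383 x) : StpAll (fun t t' a => On PP tK tL Z0 x (4 : Fin 9) 3
    (fun y X A L C => HighP (((1 : ℕ) : ℝ) / ((1 : ℕ) : ℝ)) x (mZ.v x) 3 y X A L C ((a : ℝ) / 1000) Dw) fun y =>
      t ≤ h0 * y ∧ h0 * y ≤ t' + 3 / 100) 1700 800 hlA 1050 :=
  StpAll.cons (On.noHi (by decide)) (StpAll.cons (On.noHi (by decide)) (StpAll.nil (On.stH (fun y hy => (atB43 hy).far) cA_h2_43 hx (fun _ => rfl) (by decide))))
theorem faA43 {x : ℝ} (hx : Rng 649613803 48318383 x) : StpAll (fun t t' a => On PP tK tL Z0 x (4 : Fin 9) 3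
    (fun y X A L C => FarP (((1 : ℕ) : ℝ) / ((1 : ℕ) : ℝ)) x (mZ.v x) 3 y X A L C ((a : ℝ) / 1000) Dw) fun y =>
      t ≤ h0 * y ∧ h0 * y ≤ t' + 3 / 100 ∧ Dw ≤ crv PP (4 : Fin 9) 3 y) 1340 880 blA 1804 :=
  StpAll.cons (On.noHi' (by decide)) (StpAll.cons (On.noHi' (by decide)) (StpAll.cons (On.noHi' (by decide)) (StpAll.cons (On.noHi' (by decide)) (StpAll.cons (On.noHi' (by decide)) (StpAll.cons (On.noHi' (by decide)) (StpAll.cons (On.noHi' (by decide)) (StpAll.cons (On.noHi' (by decide)) (StpAll.nil (On.stR (fun y hy => (atB43 hy).far) cA_r8_43 hx (fun _ => rfl) (by decide))))))))))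
theorem neA43 {x : ℝ} (hx : Rng 649613803 48318383 x) : StpAll (fun t t' a => On PP tK tL Z0 x (4 : Fin 9) 3
    (fun y X A L C => NearP (((1 : ℕ) : ℝ) / ((1 : ℕ) : ℝ)) x (mZ.v x) 3 y X A L C ((a : ℝ) / 1000)) fun y =>
      t ≤ h0 * y ∧ h0 * y ≤ t' + 3 / 100 ∧ 0 < crv PP (4 : Fin 9) 3 y ∧ crv PP (4 : Fin 9) 3 y ≤ 2 / 5) 1340 880 blA 1804 :=
  StpAll.cons (On.noHi' (by decide)) (StpAll.cons (On.noHi' (by decide)) (StpAll.cons (On.noHi' (by decide)) (StpAll.cons (On.noHi' (by decide)) (StpAll.cons (On.noHi' (by decide)) (StpAll.cons (On.noHi' (by decide)) (StpAll.cons (On.noHi' (by decide)) (StpAll.cons (On.noHi' (by decide)) (StpAll.nil (On.stN (fun y hy => (atB43 hy).far) cA_n8_43 hx (fun _ => rfl) (by decide))))))))))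
theorem hiA50 {x : ℝ} (hx : Rng 649613803 48318383 x) : StpAll (fun t t' a => On PP tK tL Z0 x (5 : Fin 9) 0
    (fun y X A L C => HighP (((1 : ℕ) : ℝ) / ((1 : ℕ) : ℝ)) x (mZ.v x) 0 y X A L C ((a : ℝ) / 1000) Dw) fun y =>
      t ≤ h0 * y ∧ h0 * y ≤ t' + 3 / 100) 1700 800 hlA 1050 :=
  StpAll.cons (On.noLo (by norm_num) (by decide)) (StpAll.cons (On.noLo (by norm_num) (by decide)) (StpAll.nil (On.noLo (by norm_num) (by decide))))
theorem faA50 {x : ℝ} (hx : Rng 649613803 48318383 x) : StpAll (fun t t' a => On PP tK tL Z0 x (5 : Fin 9) 0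
    (fun y X A L C => FarP (((1 : ℕ) : ℝ) / ((1 : ℕ) : ℝ)) x (mZ.v x) 0 y X A L C ((a : ℝ) / 1000) Dw) fun y =>
      t ≤ h0 * y ∧ h0 * y ≤ t' + 3 / 100 ∧ Dw ≤ crv PP (5 : Fin 9) 0 y) 1340 880 blA 1804 :=
  StpAll.cons (On.noLo (by norm_num) (by decide)) (StpAll.cons (On.noLo (by norm_num) (by decide)) (StpAll.cons (On.noLo (by norm_num) (by decide)) (StpAll.cons (On.noLo (by norm_num) (by decide)) (StpAll.cons (On.noLo (by norm_num) (by decide)) (StpAll.cons (On.noLo (by norm_num) (by decide)) (StpAll.cons (On.noLo (by norm_num) (by decide)) (StpAll.cons (On.noLo (by norm_num) (by decide)) (StpAll.nil (On.noLo (by norm_num) (by decide))))))))))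
theorem neA50 {x : ℝ} (hx : Rng 649613803 48318383 x) : StpAll (fun t t' a => On PP tK tL Z0 x (5 : Fin 9) 0
    (fun y X A L C => NearP (((1 : ℕ) : ℝ) / ((1 : ℕ) : ℝ)) x (mZ.v x) 0 y X A L C ((a : ℝ) / 1000)) fun y =>
      t ≤ h0 * y ∧ h0 * y ≤ t' + 3 / 100 ∧ 0 < crv PP (5 : Fin 9) 0 y ∧ crv PP (5 : Fin 9) 0 y ≤ 2 / 5) 1340 880 blA 1804 :=
  StpAll.cons (On.noLo (by norm_num) (by decide)) (StpAll.cons (On.noLo (by norm_num) (by decide)) (StpAll.cons (On.noLo (by norm_num) (by decide)) (StpAll.cons (On.noLo (by norm_num) (by decide)) (StpAll.cons (On.noLo (by norm_num) (by decide)) (StpAll.cons (On.noLo (by norm_num) (by decide)) (StpAll.cons (On.noLo (by norm_num) (by decide)) (StpAll.cons (On.noLo (by norm_num) (by decide)) (StpAll.nil (On.noLo (by norm_num) (by decide))))))))))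
theorem hiA51 {x : ℝ} (hx : Rng 649613803 48318383 x) : StpAll (fun t t' a => On PP tK tL Z0 x (5 : Fin 9) 1
    (fun y X A L C => HighP (((1 : ℕ) : ℝ) / ((1 : ℕ) : ℝ)) x (mZ.v x) 1 y X A L C ((a : ℝ) / 1000) Dw) fun y =>
      t ≤ h0 * y ∧ h0 * y ≤ t' + 3 / 100) 1700 800 hlA 1050 :=
  StpAll.cons (On.stH (fun y hy => (atB51 hy).far) cA_h0_51 hx (fun _ => rfl) (by decide)) (StpAll.cons (On.stH (fun y hy => (atB51 hy).far) cA_h1_51 hx (fun _ => rfl) (by decide)) (StpAll.nil (On.noLo (by norm_num) (by decide))))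
theorem faA51 {x : ℝ} (hx : Rng 649613803 48318383 x) : StpAll (fun t t' a => On PP tK tL Z0 x (5 : Fin 9) 1
    (fun y X A L C => FarP (((1 : ℕ) : ℝ) / ((1 : ℕ) : ℝ)) x (mZ.v x) 1 y X A L C ((a : ℝ) / 1000) Dw) fun y =>
      t ≤ h0 * y ∧ h0 * y ≤ t' + 3 / 100 ∧ Dw ≤ crv PP (5 : Fin 9) 1 y) 1340 880 blA 1804 :=
  StpAll.cons (On.noLo (by norm_num) (by decide)) (StpAll.cons (On.noLo (by norm_num) (by decide)) (StpAll.cons (On.noLo (by norm_num) (by decide)) (StpAll.cons (On.noLo (by norm_num) (by decide)) (StpAll.cons (On.noLo (by norm_num) (by decide)) (StpAll.cons (On.noLo (by norm_num) (by decide)) (StpAll.cons (On.noLo (by norm_num) (by decide)) (StpAll.cons (On.noLo (by norm_num) (by decide)) (StpAll.nil (On.noLo (by norm_num) (by decide))))))))))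
theorem neA51 {x : ℝ} (hx : Rng 649613803 48318383 x) : StpAll (fun t t' a => On PP tK tL Z0 x (5 : Fin 9) 1
    (fun y X A L C => NearP (((1 : ℕ) : ℝ) / ((1 : ℕ) : ℝ)) x (mZ.v x) 1 y X A L C ((a : ℝ) / 1000)) fun y =>
      t ≤ h0 * y ∧ h0 * y ≤ t' + 3 / 100 ∧ 0 < crv PP (5 : Fin 9) 1 y ∧ crv PP (5 : Fin 9) 1 y ≤ 2 / 5) 1340 880 blA 1804 :=
  StpAll.cons (On.noLo (by norm_num) (by decide)) (StpAll.cons (On.noLo (by norm_num) (by decide)) (StpAll.cons (On.noLo (by norm_num) (by decide)) (StpAll.cons (On.noLo (by norm_num) (by decide)) (StpAll.cons (On.noLo (by norm_num) (by decide)) (StpAll.cons (On.noLo (by norm_num) (by decide)) (StpAll.cons (On.noLo (by norm_num) (by decide)) (StpAll.cons (On.noLo (by norm_num) (by decide)) (StpAll.nil (On.noLo (by norm_num) (by decide))))))))))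
theorem hiA52 {x : ℝ} (hx : Rng 649613803 48318383 x) : StpAll (fun t t' a => On PP tK tL Z0 x (5 : Fin 9) 2
    (fun y X A L C => HighP (((1 : ℕ) : ℝ) / ((1 : ℕ) : ℝ)) x (mZ.v x) 2 y X A L C ((a : ℝ) / 1000) Dw) fun y =>
      t ≤ h0 * y ∧ h0 * y ≤ t' + 3 / 100) 1700 800 hlA 1050 :=
  StpAll.cons (On.noHi (by decide)) (StpAll.cons (On.stH (fun y hy => (atB52 hy).far) cA_h1_52 hx (fun _ => rfl) (by decide)) (StpAll.nil (On.stH (fun y hy => (atB52 hy).far) cA_h2_52 hx (fun _ => rfl) (by decide))))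
theorem faA52 {x : ℝ} (hx : Rng 649613803 48318383 x) : StpAll (fun t t' a => On PP tK tL Z0 x (5 : Fin 9) 2
    (fun y X A L C => FarP (((1 : ℕ) : ℝ) / ((1 : ℕ) : ℝ)) x (mZ.v x) 2 y X A L C ((a : ℝ) / 1000) Dw) fun y =>
      t ≤ h0 * y ∧ h0 * y ≤ t' + 3 / 100 ∧ Dw ≤ crv PP (5 : Fin 9) 2 y) 1340 880 blA 1804 :=
  StpAll.cons (On.stR (fun y hy => (atB52 hy).far) cA_r0_52 hx (fun _ => rfl) (by decide)) (StpAll.cons (On.stR (fun y hy => (atB52 hy).far) cA_r1_52 hx (fun _ => rfl) (by decide)) (StpAll.cons (On.stR (fun y hy => (atB52 hy).far) cA_r2_52 hx (fun _ => rfl) (by decide)) (StpAll.cons (On.stR (fun y hy => (atB52 hy).far) cA_r3_52 hx (fun _ => rfl) (by decide)) (StpAll.cons (On.stR (fun y hy => (atB52 hy).far) cA_r4_52 hx (fun _ => rfl) (by decide)) (StpAll.cons (On.stR (fun y hy => (atB52 hy).far) cA_r5_52 hx (fun _ => rfl) (by decide)) (StpAll.cons (On.stR (fun y hy => (atB52 hy).far) cA_r6_52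 hx (fun _ => rfl) (by decide)) (StpAll.cons (On.stR (fun y hy => (atB52 hy).far) cA_r7_52 hx (fun _ => rfl) (by decide)) (StpAll.nil (On.stR (fun y hy => (atB52 hy).far) cA_r8_52 hx (fun _ => rfl) (by decide))))))))))
theorem neA52 {x : ℝ} (hx : Rng 649613803 48318383 x) : StpAll (fun t t' a => On PP tK tL Z0 x (5 : Fin 9) 2
    (fun y X A L C => NearP (((1 : ℕ) : ℝ) / ((1 : ℕ) : ℝ)) x (mZ.v x) 2 y X A L C ((a : ℝ) / 1000)) fun y =>
      t ≤ h0 * y ∧ h0 * y ≤ t' + 3 / 100 ∧ 0 < crv PP (5 : Fin 9) 2 y ∧ crv PP (5 : Fin 9) 2 y ≤ 2 / 5) 1340 880 blA 1804 :=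
  StpAll.cons (On.stN (fun y hy => (atB52 hy).far) cA_n0_52 hx (fun _ => rfl) (by decide)) (StpAll.cons (On.stN (fun y hy => (atB52 hy).far) cA_n1_52 hx (fun _ => rfl) (by decide)) (StpAll.cons (On.stN (fun y hy => (atB52 hy).far) cA_n2_52 hx (fun _ => rfl) (by decide)) (StpAll.cons (On.stN (fun y hy => (atB52 hy).far) cA_n3_52 hx (fun _ => rfl) (by decide)) (StpAll.cons (On.stN (fun y hy => (atB52 hy).far) cA_n4_52 hx (fun _ => rfl) (by decide)) (StpAll.cons (On.stN (fun y hy => (atB52 hy).far) cA_n5_52 hx (fun _ => rfl) (by decide)) (StpAll.cons (On.stN (fun y hy => (atB52 hy).far) cA_n6_52 hx (fun _ => rfl) (by decide)) (StpAll.cons (On.stN (fun y hy => (atB52 hy).far) cA_n7_52 hx (fun _ => rfl) (by decide)) (StpAll.nil (On.stN (fun y hy => (atB52 hy).far) cA_n8_52 hx (fun _ => rfl) (by decide))))))))))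
theorem hiA53 {x : ℝ} (hx : Rng 649613803 48318383 x) : StpAll (fun t t' a => On PP tK tL Z0 x (5 : Fin 9) 3
    (fun y X A L C => HighP (((1 : ℕ) : ℝ) / ((1 : ℕ) : ℝ)) x (mZ.v x) 3 y X A L C ((a : ℝ) / 1000) Dw) fun y =>
      t ≤ h0 * y ∧ h0 * y ≤ t' + 3 / 100) 1700 800 hlA 1050 :=
  StpAll.cons (On.noHi (by decide)) (StpAll.cons (On.noHi (by decide)) (StpAll.nil (On.stHc covB53.far cA_h2_53 hx (fun _ => rfl) (by decide))))
theorem faA53 {x : ℝ} (hx : Rng 649613803 48318383 x) : StpAll (fun t t' a => On PP tK tL Z0 x (5 : Fin 9) 3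
    (fun y X A L C => FarP (((1 : ℕ) : ℝ) / ((1 : ℕ) : ℝ)) x (mZ.v x) 3 y X A L C ((a : ℝ) / 1000) Dw) fun y =>
      t ≤ h0 * y ∧ h0 * y ≤ t' + 3 / 100 ∧ Dw ≤ crv PP (5 : Fin 9) 3 y) 1340 880 blA 1804 :=
  StpAll.cons (On.noHi' (by decide)) (StpAll.cons (On.noHi' (by decide)) (StpAll.cons (On.noHi' (by decide)) (StpAll.cons (On.noHi' (by decide)) (StpAll.cons (On.noHi' (by decide)) (StpAll.cons (On.noHi' (by decide)) (StpAll.cons (On.noHi' (by decide)) (StpAll.cons (On.noHi' (by decide)) (StpAll.nil (On.stRc covB53.far cA_r8_53 hx (fun _ => rfl) (by decide))))))))))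
theorem neA53 {x : ℝ} (hx : Rng 649613803 48318383 x) : StpAll (fun t t' a => On PP tK tL Z0 x (5 : Fin 9) 3
    (fun y X A L C => NearP (((1 : ℕ) : ℝ) / ((1 : ℕ) : ℝ)) x (mZ.v x) 3 y X A L C ((a : ℝ) / 1000)) fun y =>
      t ≤ h0 * y ∧ h0 * y ≤ t' + 3 / 100 ∧ 0 < crv PP (5 : Fin 9) 3 y ∧ crv PP (5 : Fin 9) 3 y ≤ 2 / 5) 1340 880 blA 1804 :=
  StpAll.cons (On.noHi' (by decide)) (StpAll.cons (On.noHi' (by decide)) (StpAll.cons (On.noHi' (by decide)) (StpAll.cons (On.noHi' (by decide)) (StpAll.cons (On.noHi' (by decide)) (StpAll.cons (On.noHi' (by decide)) (StpAll.cons (On.noHi' (by decide)) (StpAll.cons (On.noHi' (by decide)) (StpAll.nil (On.stNc covB53.far cA_n8_53 hx (fun _ => rfl) (by decide))))))))))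
theorem hiA60 {x : ℝ} (hx : Rng 649613803 48318383 x) : StpAll (fun t t' a => On PP tK tL Z0 x (6 : Fin 9) 0
    (fun y X A L C => HighP (((1 : ℕ) : ℝ) / ((1 : ℕ) : ℝ)) x (mZ.v x) 0 y X A L C ((a : ℝ) / 1000) Dw) fun y =>
      t ≤ h0 * y ∧ h0 * y ≤ t' + 3 / 100) 1700 800 hlA 1050 :=
  StpAll.cons (On.noLo (by norm_num) (by decide)) (StpAll.cons (On.noLo (by norm_num) (by decide)) (StpAll.nil (On.noLo (by norm_num) (by decide))))
theorem faA60 {x : ℝ} (hx : Rng 649613803 48318383 x) : StpAll (fun t t' a => On PP tK tL Z0 x (6 : Fin 9) 0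
    (fun y X A L C => FarP (((1 : ℕ) : ℝ) / ((1 : ℕ) : ℝ)) x (mZ.v x) 0 y X A L C ((a : ℝ) / 1000) Dw) fun y =>
      t ≤ h0 * y ∧ h0 * y ≤ t' + 3 / 100 ∧ Dw ≤ crv PP (6 : Fin 9) 0 y) 1340 880 blA 1804 :=
  StpAll.cons (On.noLo (by norm_num) (by decide)) (StpAll.cons (On.noLo (by norm_num) (by decide)) (StpAll.cons (On.noLo (by norm_num) (by decide)) (StpAll.cons (On.noLo (by norm_num) (by decide)) (StpAll.cons (On.noLo (by norm_num) (by decide)) (StpAll.cons (On.noLo (by norm_num) (by decide)) (StpAll.cons (On.noLo (by norm_num) (by decide)) (StpAll.cons (On.noLo (by norm_num) (by decide)) (StpAll.nil (On.noLo (by norm_num) (by decide))))))))))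
theorem neA60 {x : ℝ} (hx : Rng 649613803 48318383 x) : StpAll (fun t t' a => On PP tK tL Z0 x (6 : Fin 9) 0
    (fun y X A L C => NearP (((1 : ℕ) : ℝ) / ((1 : ℕ) : ℝ)) x (mZ.v x) 0 y X A L C ((a : ℝ) / 1000)) fun y =>
      t ≤ h0 * y ∧ h0 * y ≤ t' + 3 / 100 ∧ 0 < crv PP (6 : Fin 9) 0 y ∧ crv PP (6 : Fin 9) 0 y ≤ 2 / 5) 1340 880 blA 1804 :=
  StpAll.cons (On.noLo (by norm_num) (by decide)) (StpAll.cons (On.noLo (by norm_num) (by decide)) (StpAll.cons (On.noLo (by norm_num) (by decide)) (StpAll.cons (On.noLo (by norm_num) (by decide)) (StpAll.cons (On.noLo (by norm_num) (by decide)) (StpAll.cons (On.noLo (by norm_num) (by decide)) (StpAll.cons (On.noLo (by norm_num) (by decide)) (StpAll.cons (On.noLo (by norm_num) (by decide)) (StpAll.nil (On.noLo (by norm_num) (by decide))))))))))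
theorem hiA61 {x : ℝ} (hx : Rng 649613803 48318383 x) : StpAll (fun t t' a => On PP tK tL Z0 x (6 : Fin 9) 1
    (fun y X A L C => HighP (((1 : ℕ) : ℝ) / ((1 : ℕ) : ℝ)) x (mZ.v x) 1 y X A L C ((a : ℝ) / 1000) Dw) fun y =>
      t ≤ h0 * y ∧ h0 * y ≤ t' + 3 / 100) 1700 800 hlA 1050 :=
  StpAll.cons (On.stH (fun y hy => (atB61 hy).far) cA_h0_61 hx (fun _ => rfl) (by decide)) (StpAll.cons (On.stH (fun y hy => (atB61 hy).far) cA_h1_61 hx (fun _ => rfl) (by decide)) (StpAll.nil (On.noLo (by norm_num) (by decide))))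
theorem faA61 {x : ℝ} (hx : Rng 649613803 48318383 x) : StpAll (fun t t' a => On PP tK tL Z0 x (6 : Fin 9) 1
    (fun y X A L C => FarP (((1 : ℕ) : ℝ) / ((1 : ℕ) : ℝ)) x (mZ.v x) 1 y X A L C ((a : ℝ) / 1000) Dw) fun y =>
      t ≤ h0 * y ∧ h0 * y ≤ t' + 3 / 100 ∧ Dw ≤ crv PP (6 : Fin 9) 1 y) 1340 880 blA 1804 :=
  StpAll.cons (On.noLo (by norm_num) (by decide)) (StpAll.cons (On.noLo (by norm_num) (by decide)) (StpAll.cons (On.noLo (by norm_num) (by decide)) (StpAll.cons (On.noLo (by norm_num) (by decide)) (StpAll.cons (On.noLo (by norm_num) (by decide)) (StpAll.cons (On.noLo (by norm_num) (by decide)) (StpAll.cons (On.noLo (by norm_num) (by decide)) (StpAll.cons (On.noLo (by norm_num) (by decide)) (StpAll.nil (On.noLo (by norm_num) (by decide))))))))))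
theorem neA61 {x : ℝ} (hx : Rng 649613803 48318383 x) : StpAll (fun t t' a => On PP tK tL Z0 x (6 : Fin 9) 1
    (fun y X A L C => NearP (((1 : ℕ) : ℝ) / ((1 : ℕ) : ℝ)) x (mZ.v x) 1 y X A L C ((a : ℝ) / 1000)) fun y =>
      t ≤ h0 * y ∧ h0 * y ≤ t' + 3 / 100 ∧ 0 < crv PP (6 : Fin 9) 1 y ∧ crv PP (6 : Fin 9) 1 y ≤ 2 / 5) 1340 880 blA 1804 :=
  StpAll.cons (On.noLo (by norm_num) (by decide)) (StpAll.cons (On.noLo (by norm_num) (by decide)) (StpAll.cons (On.noLo (by norm_num) (by decide)) (StpAll.cons (On.noLo (by norm_num) (by decide)) (StpAll.cons (On.noLo (by norm_num) (by decide)) (StpAll.cons (On.noLo (by norm_num) (by decide)) (StpAll.cons (On.noLo (by norm_num) (by decide)) (StpAll.cons (On.noLo (by norm_num) (by decide)) (StpAll.nil (On.noLo (by norm_num) (by decide))))))))))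
theorem hiA62 {x : ℝ} (hx : Rng 649613803 48318383 x) : StpAll (fun t t' a => On PP tK tL Z0 x (6 : Fin 9) 2
    (fun y X A L C => HighP (((1 : ℕ) : ℝ) / ((1 : ℕ) : ℝ)) x (mZ.v x) 2 y X A L C ((a : ℝ) / 1000) Dw) fun y =>
      t ≤ h0 * y ∧ h0 * y ≤ t' + 3 / 100) 1700 800 hlA 1050 :=
  StpAll.cons (On.noHi (by decide)) (StpAll.cons (On.stH (fun y hy => (atB62 hy).far) cA_h1_62 hx (fun _ => rfl) (by decide)) (StpAll.nil (On.stH (fun y hy => (atB62 hy).far) cA_h2_62 hx (fun _ => rfl) (by decide))))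
theorem faA62 {x : ℝ} (hx : Rng 649613803 48318383 x) : StpAll (fun t t' a => On PP tK tL Z0 x (6 : Fin 9) 2
    (fun y X A L C => FarP (((1 : ℕ) : ℝ) / ((1 : ℕ) : ℝ)) x (mZ.v x) 2 y X A L C ((a : ℝ) / 1000) Dw) fun y =>
      t ≤ h0 * y ∧ h0 * y ≤ t' + 3 / 100 ∧ Dw ≤ crv PP (6 : Fin 9) 2 y) 1340 880 blA 1804 :=
  StpAll.cons (On.stR (fun y hy => (atB62 hy).far) cA_r0_62 hx (fun _ => rfl) (by decide)) (StpAll.cons (On.stR (fun y hy => (atB62 hy).far) cA_r1_62 hx (fun _ => rfl) (by decide)) (StpAll.cons (On.stR (fun y hy => (atB62 hy).far) cA_r2_62 hx (fun _ => rfl) (by decide)) (StpAll.cons (On.stR (fun y hy => (atB62 hy).far) cA_r3_62 hx (fun _ => rfl) (by decide)) (StpAll.cons (On.stR (fun y hy => (atB62 hy).far) cA_r4_62 hx (fun _ => rfl) (by decide)) (StpAll.cons (On.stR (fun y hy => (atB62 hy).far) cA_r5_62 hx (fun _ => rfl) (by decide)) (StpAll.cons (On.stR (fun y hy => (atB62 hy).far) cA_r6_62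 hx (fun _ => rfl) (by decide)) (StpAll.cons (On.stR (fun y hy => (atB62 hy).far) cA_r7_62 hx (fun _ => rfl) (by decide)) (StpAll.nil (On.stR (fun y hy => (atB62 hy).far) cA_r8_62 hx (fun _ => rfl) (by decide))))))))))
theorem neA62 {x : ℝ} (hx : Rng 649613803 48318383 x) : StpAll (fun t t' a => On PP tK tL Z0 x (6 : Fin 9) 2
    (fun y X A L C => NearP (((1 : ℕ) : ℝ) / ((1 : ℕ) : ℝ)) x (mZ.v x) 2 y X A L C ((a : ℝ) / 1000)) fun y =>
      t ≤ h0 * y ∧ h0 * y ≤ t' + 3 / 100 ∧ 0 < crv PP (6 : Fin 9) 2 y ∧ crv PP (6 : Fin 9) 2 y ≤ 2 / 5) 1340 880 blA 1804 :=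
  StpAll.cons (On.stN (fun y hy => (atB62 hy).far) cA_n0_62 hx (fun _ => rfl) (by decide)) (StpAll.cons (On.stN (fun y hy => (atB62 hy).far) cA_n1_62 hx (fun _ => rfl) (by decide)) (StpAll.cons (On.stN (fun y hy => (atB62 hy).far) cA_n2_62 hx (fun _ => rfl) (by decide)) (StpAll.cons (On.stN (fun y hy => (atB62 hy).far) cA_n3_62 hx (fun _ => rfl) (by decide)) (StpAll.cons (On.stN (fun y hy => (atB62 hy).far) cA_n4_62 hx (fun _ => rfl) (by decide)) (StpAll.cons (On.stN (fun y hy => (atB62 hy).far) cA_n5_62 hx (fun _ => rfl) (by decide)) (StpAll.cons (On.stN (fun y hy => (atB62 hy).far) cA_n6_62 hx (fun _ => rfl) (by decide)) (StpAll.cons (On.stN (fun y hy => (atB62 hy).far) cA_n7_62 hx (fun _ => rfl) (by decide)) (StpAll.nil (On.stN (fun y hy => (atB62 hy).far) cA_n8_62 hx (fun _ => rfl) (by decide))))))))))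
theorem hiA63 {x : ℝ} (hx : Rng 649613803 48318383 x) : StpAll (fun t t' a => On PP tK tL Z0 x (6 : Fin 9) 3
    (fun y X A L C => HighP (((1 : ℕ) : ℝ) / ((1 : ℕ) : ℝ)) x (mZ.v x) 3 y X A L C ((a : ℝ) / 1000) Dw) fun y =>
      t ≤ h0 * y ∧ h0 * y ≤ t' + 3 / 100) 1700 800 hlA 1050 :=
  StpAll.cons (On.noHi (by decide)) (StpAll.cons (On.noHi (by decide)) (StpAll.nil (On.stHc covB63.far cA_h2_63 hx (fun _ => rfl) (by decide))))
theorem faA63 {x : ℝ} (hx : Rng 649613803 48318383 x) : StpAll (fun t t' a => On PP tK tL Z0 x (6 : Fin 9) 3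
    (fun y X A L C => FarP (((1 : ℕ) : ℝ) / ((1 : ℕ) : ℝ)) x (mZ.v x) 3 y X A L C ((a : ℝ) / 1000) Dw) fun y =>
      t ≤ h0 * y ∧ h0 * y ≤ t' + 3 / 100 ∧ Dw ≤ crv PP (6 : Fin 9) 3 y) 1340 880 blA 1804 :=
  StpAll.cons (On.noHi' (by decide)) (StpAll.cons (On.noHi' (by decide)) (StpAll.cons (On.noHi' (by decide)) (StpAll.cons (On.noHi' (by decide)) (StpAll.cons (On.noHi' (by decide)) (StpAll.cons (On.noHi' (by decide)) (StpAll.cons (On.noHi' (by decide)) (StpAll.cons (On.noHi' (by decide)) (StpAll.nil (On.stRc covB63.far cA_r8_63 hx (fun _ => rfl) (by decide))))))))))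
theorem neA63 {x : ℝ} (hx : Rng 649613803 48318383 x) : StpAll (fun t t' a => On PP tK tL Z0 x (6 : Fin 9) 3
    (fun y X A L C => NearP (((1 : ℕ) : ℝ) / ((1 : ℕ) : ℝ)) x (mZ.v x) 3 y X A L C ((a : ℝ) / 1000)) fun y =>
      t ≤ h0 * y ∧ h0 * y ≤ t' + 3 / 100 ∧ 0 < crv PP (6 : Fin 9) 3 y ∧ crv PP (6 : Fin 9) 3 y ≤ 2 / 5) 1340 880 blA 1804 :=
  StpAll.cons (On.noHi' (by decide)) (StpAll.cons (On.noHi' (by decide)) (StpAll.cons (On.noHi' (by decide)) (StpAll.cons (On.noHi' (by decide)) (StpAll.cons (On.noHi' (by decide)) (StpAll.cons (On.noHi' (by decide)) (StpAll.cons (On.noHi' (by decide)) (StpAll.cons (On.noHi' (by decide)) (StpAll.nil (On.stNc covB63.far cA_n8_63 hx (fun _ => rfl) (by decide))))))))))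
theorem hiA70 {x : ℝ} (hx : Rng 649613803 48318383 x) : StpAll (fun t t' a => On PP tK tL Z0 x (7 : Fin 9) 0
    (fun y X A L C => HighP (((1 : ℕ) : ℝ) / ((1 : ℕ) : ℝ)) x (mZ.v x) 0 y X A L C ((a : ℝ) / 1000) Dw) fun y =>
      t ≤ h0 * y ∧ h0 * y ≤ t' + 3 / 100) 1700 800 hlA 1050 :=
  StpAll.cons (On.noLo (by norm_num) (by decide)) (StpAll.cons (On.noLo (by norm_num) (by decide)) (StpAll.nil (On.noLo (by norm_num) (by decide))))
theorem faA70 {x : ℝ} (hx : Rng 649613803 48318383 x) : StpAll (fun t t' a => On PP tK tL Z0 x (7 : Fin 9) 0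
    (fun y X A L C => FarP (((1 : ℕ) : ℝ) / ((1 : ℕ) : ℝ)) x (mZ.v x) 0 y X A L C ((a : ℝ) / 1000) Dw) fun y =>
      t ≤ h0 * y ∧ h0 * y ≤ t' + 3 / 100 ∧ Dw ≤ crv PP (7 : Fin 9) 0 y) 1340 880 blA 1804 :=
  StpAll.cons (On.noLo (by norm_num) (by decide)) (StpAll.cons (On.noLo (by norm_num) (by decide)) (StpAll.cons (On.noLo (by norm_num) (by decide)) (StpAll.cons (On.noLo (by norm_num) (by decide)) (StpAll.cons (On.noLo (by norm_num) (by decide)) (StpAll.cons (On.noLo (by norm_num) (by decide)) (StpAll.cons (On.noLo (by norm_num) (by decide)) (StpAll.cons (On.noLo (by norm_num) (by decide)) (StpAll.nil (On.noLo (by norm_num) (by decide))))))))))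
theorem neA70 {x : ℝ} (hx : Rng 649613803 48318383 x) : StpAll (fun t t' a => On PP tK tL Z0 x (7 : Fin 9) 0
    (fun y X A L C => NearP (((1 : ℕ) : ℝ) / ((1 : ℕ) : ℝ)) x (mZ.v x) 0 y X A L C ((a : ℝ) / 1000)) fun y =>
      t ≤ h0 * y ∧ h0 * y ≤ t' + 3 / 100 ∧ 0 < crv PP (7 : Fin 9) 0 y ∧ crv PP (7 : Fin 9) 0 y ≤ 2 / 5) 1340 880 blA 1804 :=
  StpAll.cons (On.noLo (by norm_num) (by decide)) (StpAll.cons (On.noLo (by norm_num) (by decide)) (StpAll.cons (On.noLo (by norm_num) (by decide)) (StpAll.cons (On.noLo (by norm_num) (by decide)) (StpAll.cons (On.noLo (by norm_num) (by decide)) (StpAll.cons (On.noLo (by norm_num) (by decide)) (StpAll.cons (On.noLo (by norm_num) (by decide)) (StpAll.cons (On.noLo (by norm_num) (by decide)) (StpAll.nil (On.noLo (by norm_num) (by decide))))))))))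
theorem hiA71 {x : ℝ} (hx : Rng 649613803 48318383 x) : StpAll (fun t t' a => On PP tK tL Z0 x (7 : Fin 9) 1
    (fun y X A L C => HighP (((1 : ℕ) : ℝ) / ((1 : ℕ) : ℝ)) x (mZ.v x) 1 y X A L C ((a : ℝ) / 1000) Dw) fun y =>
      t ≤ h0 * y ∧ h0 * y ≤ t' + 3 / 100) 1700 800 hlA 1050 :=
  StpAll.cons (On.stH (fun y hy => (atB71 hy).far) cA_h0_71 hx (fun _ => rfl) (by decide)) (StpAll.cons (On.stH (fun y hy => (atB71 hy).far) cA_h1_71 hx (fun _ => rfl) (by decide)) (StpAll.nil (On.noLo (by norm_num) (by decide))))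
theorem faA71 {x : ℝ} (hx : Rng 649613803 48318383 x) : StpAll (fun t t' a => On PP tK tL Z0 x (7 : Fin 9) 1
    (fun y X A L C => FarP (((1 : ℕ) : ℝ) / ((1 : ℕ) : ℝ)) x (mZ.v x) 1 y X A L C ((a : ℝ) / 1000) Dw) fun y =>
      t ≤ h0 * y ∧ h0 * y ≤ t' + 3 / 100 ∧ Dw ≤ crv PP (7 : Fin 9) 1 y) 1340 880 blA 1804 :=
  StpAll.cons (On.noLo (by norm_num) (by decide)) (StpAll.cons (On.noLo (by norm_num) (by decide)) (StpAll.cons (On.noLo (by norm_num) (by decide)) (StpAll.cons (On.noLo (by norm_num) (by decide)) (StpAll.cons (On.noLo (by norm_num) (by decide)) (StpAll.cons (On.noLo (by norm_num) (by decide)) (StpAll.cons (On.noLo (by norm_num) (by decide)) (StpAll.cons (On.noLo (by norm_num) (by decide)) (StpAll.nil (On.noLo (by norm_num) (by decide))))))))))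
theorem neA71 {x : ℝ} (hx : Rng 649613803 48318383 x) : StpAll (fun t t' a => On PP tK tL Z0 x (7 : Fin 9) 1
    (fun y X A L C => NearP (((1 : ℕ) : ℝ) / ((1 : ℕ) : ℝ)) x (mZ.v x) 1 y X A L C ((a : ℝ) / 1000)) fun y =>
      t ≤ h0 * y ∧ h0 * y ≤ t' + 3 / 100 ∧ 0 < crv PP (7 : Fin 9) 1 y ∧ crv PP (7 : Fin 9) 1 y ≤ 2 / 5) 1340 880 blA 1804 :=
  StpAll.cons (On.noLo (by norm_num) (by decide)) (StpAll.cons (On.noLo (by norm_num) (by decide)) (StpAll.cons (On.noLo (by norm_num) (by decide)) (StpAll.cons (On.noLo (by norm_num) (by decide)) (StpAll.cons (On.noLo (by norm_num) (by decide)) (StpAll.cons (On.noLo (by norm_num) (by decide)) (StpAll.cons (On.noLo (by norm_num) (by decide)) (StpAll.cons (On.noLo (by norm_num) (by decide)) (StpAll.nil (On.noLo (by norm_num) (by decide))))))))))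
theorem hiA72 {x : ℝ} (hx : Rng 649613803 48318383 x) : StpAll (fun t t' a => On PP tK tL Z0 x (7 : Fin 9) 2
    (fun y X A L C => HighP (((1 : ℕ) : ℝ) / ((1 : ℕ) : ℝ)) x (mZ.v x) 2 y X A L C ((a : ℝ) / 1000) Dw) fun y =>
      t ≤ h0 * y ∧ h0 * y ≤ t' + 3 / 100) 1700 800 hlA 1050 :=
  StpAll.cons (On.noHi (by decide)) (StpAll.cons (On.stH (fun y hy => (atB72 hy).far) cA_h1_72 hx (fun _ => rfl) (by decide)) (StpAll.nil (On.stH (fun y hy => (atB72 hy).far) cA_h2_72 hx (fun _ => rfl) (by decide))))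
theorem faA72 {x : ℝ} (hx : Rng 649613803 48318383 x) : StpAll (fun t t' a => On PP tK tL Z0 x (7 : Fin 9) 2
    (fun y X A L C => FarP (((1 : ℕ) : ℝ) / ((1 : ℕ) : ℝ)) x (mZ.v x) 2 y X A L C ((a : ℝ) / 1000) Dw) fun y =>
      t ≤ h0 * y ∧ h0 * y ≤ t' + 3 / 100 ∧ Dw ≤ crv PP (7 : Fin 9) 2 y) 1340 880 blA 1804 :=
  StpAll.cons (On.stR (fun y hy => (atB72 hy).far) cA_r0_72 hx (fun _ => rfl) (by decide)) (StpAll.cons (On.stR (fun y hy => (atB72 hy).far) cA_r1_72 hx (fun _ => rfl) (by decide)) (StpAll.cons (On.stR (fun y hy => (atB72 hy).far) cA_r2_72 hx (fun _ => rfl) (by decide)) (StpAll.cons (On.stR (fun y hy => (atB72 hy).far) cA_r3_72 hx (fun _ => rfl) (by decide)) (StpAll.cons (On.stR (fun y hy => (atB72 hy).far) cA_r4_72 hx (fun _ => rfl) (by decide)) (StpAll.cons (On.stR (fun y hy => (atB72 hy).far) cA_r5_72 hx (fun _ => rfl) (by decide)) (StpAll.cons (On.stR (fun y hy => (atB72 hy).far) cA_r6_72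 hx (fun _ => rfl) (by decide)) (StpAll.cons (On.stR (fun y hy => (atB72 hy).far) cA_r7_72 hx (fun _ => rfl) (by decide)) (StpAll.nil (On.stR (fun y hy => (atB72 hy).far) cA_r8_72 hx (fun _ => rfl) (by decide))))))))))
theorem neA72 {x : ℝ} (hx : Rng 649613803 48318383 x) : StpAll (fun t t' a => On PP tK tL Z0 x (7 : Fin 9) 2
    (fun y X A L C => NearP (((1 : ℕ) : ℝ) / ((1 : ℕ) : ℝ)) x (mZ.v x) 2 y X A L C ((a : ℝ) / 1000)) fun y =>
      t ≤ h0 * y ∧ h0 * y ≤ t' + 3 / 100 ∧ 0 < crv PP (7 : Fin 9) 2 y ∧ crv PP (7 : Fin 9) 2 y ≤ 2 / 5) 1340 880 blA 1804 :=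
  StpAll.cons (On.stN (fun y hy => (atB72 hy).far) cA_n0_72 hx (fun _ => rfl) (by decide)) (StpAll.cons (On.stN (fun y hy => (atB72 hy).far) cA_n1_72 hx (fun _ => rfl) (by decide)) (StpAll.cons (On.stN (fun y hy => (atB72 hy).far) cA_n2_72 hx (fun _ => rfl) (by decide)) (StpAll.cons (On.stN (fun y hy => (atB72 hy).far) cA_n3_72 hx (fun _ => rfl) (by decide)) (StpAll.cons (On.stN (fun y hy => (atB72 hy).far) cA_n4_72 hx (fun _ => rfl) (by decide)) (StpAll.cons (On.stN (fun y hy => (atB72 hy).far) cA_n5_72 hx (fun _ => rfl) (by decide)) (StpAll.cons (On.stN (fun y hy => (atB72 hy).far) cA_n6_72 hx (fun _ => rfl) (by decide)) (StpAll.cons (On.stN (fun y hy => (atB72 hy).far) cA_n7_72 hx (fun _ => rfl) (by decide)) (StpAll.nil (On.stN (fun y hy => (atB72 hy).far) cA_n8_72 hx (fun _ => rfl) (by decide))))))))))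
theorem hiA73 {x : ℝ} (hx : Rng 649613803 48318383 x) : StpAll (fun t t' a => On PP tK tL Z0 x (7 : Fin 9) 3
    (fun y X A L C => HighP (((1 : ℕ) : ℝ) / ((1 : ℕ) : ℝ)) x (mZ.v x) 3 y X A L C ((a : ℝ) / 1000) Dw) fun y =>
      t ≤ h0 * y ∧ h0 * y ≤ t' + 3 / 100) 1700 800 hlA 1050 :=
  StpAll.cons (On.noHi (by decide)) (StpAll.cons (On.noHi (by decide)) (StpAll.nil (On.stHc covB73.far cA_h2_73 hx (fun _ => rfl) (by decide))))
theorem faA73 {x : ℝ} (hx : Rng 649613803 48318383 x) : StpAll (fun t t' a => On PP tK tL Z0 x (7 : Fin 9) 3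
    (fun y X A L C => FarP (((1 : ℕ) : ℝ) / ((1 : ℕ) : ℝ)) x (mZ.v x) 3 y X A L C ((a : ℝ) / 1000) Dw) fun y =>
      t ≤ h0 * y ∧ h0 * y ≤ t' + 3 / 100 ∧ Dw ≤ crv PP (7 : Fin 9) 3 y) 1340 880 blA 1804 :=
  StpAll.cons (On.noHi' (by decide)) (StpAll.cons (On.noHi' (by decide)) (StpAll.cons (On.noHi' (by decide)) (StpAll.cons (On.noHi' (by decide)) (StpAll.cons (On.noHi' (by decide)) (StpAll.cons (On.noHi' (by decide)) (StpAll.cons (On.noHi' (by decide)) (StpAll.cons (On.noHi' (by decide)) (StpAll.nil (On.stRc covB73.far cA_r8_73 hx (fun _ => rfl) (by decide))))))))))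
theorem neA73 {x : ℝ} (hx : Rng 649613803 48318383 x) : StpAll (fun t t' a => On PP tK tL Z0 x (7 : Fin 9) 3
    (fun y X A L C => NearP (((1 : ℕ) : ℝ) / ((1 : ℕ) : ℝ)) x (mZ.v x) 3 y X A L C ((a : ℝ) / 1000)) fun y =>
      t ≤ h0 * y ∧ h0 * y ≤ t' + 3 / 100 ∧ 0 < crv PP (7 : Fin 9) 3 y ∧ crv PP (7 : Fin 9) 3 y ≤ 2 / 5) 1340 880 blA 1804 :=
  StpAll.cons (On.noHi' (by decide)) (StpAll.cons (On.noHi' (by decide)) (StpAll.cons (On.noHi' (by decide)) (StpAll.cons (On.noHi' (by decide)) (StpAll.cons (On.noHi' (by decide)) (StpAll.cons (On.noHi' (by decide)) (StpAll.cons (On.noHi' (by decide)) (StpAll.cons (On.noHi' (by decide)) (StpAll.nil (On.stNc covB73.far cA_n8_73 hx (fun _ => rfl) (by decide))))))))))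
theorem hiA80 {x : ℝ} (hx : Rng 649613803 48318383 x) : StpAll (fun t t' a => On PP tK tL Z0 x (8 : Fin 9) 0
    (fun y X A L C => HighP (((1 : ℕ) : ℝ) / ((1 : ℕ) : ℝ)) x (mZ.v x) 0 y X A L C ((a : ℝ) / 1000) Dw) fun y =>
      t ≤ h0 * y ∧ h0 * y ≤ t' + 3 / 100) 1700 800 hlA 1050 :=
  StpAll.cons (On.noLo (by norm_num) (by decide)) (StpAll.cons (On.noLo (by norm_num) (by decide)) (StpAll.nil (On.noLo (by norm_num) (by decide))))
theorem faA80 {x : ℝ} (hx : Rng 649613803 48318383 x) : StpAll (fun t t' a => On PP tK tL Z0 x (8 : Fin 9) 0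
    (fun y X A L C => FarP (((1 : ℕ) : ℝ) / ((1 : ℕ) : ℝ)) x (mZ.v x) 0 y X A L C ((a : ℝ) / 1000) Dw) fun y =>
      t ≤ h0 * y ∧ h0 * y ≤ t' + 3 / 100 ∧ Dw ≤ crv PP (8 : Fin 9) 0 y) 1340 880 blA 1804 :=
  StpAll.cons (On.noLo (by norm_num) (by decide)) (StpAll.cons (On.noLo (by norm_num) (by decide)) (StpAll.cons (On.noLo (by norm_num) (by decide)) (StpAll.cons (On.noLo (by norm_num) (by decide)) (StpAll.cons (On.noLo (by norm_num) (by decide)) (StpAll.cons (On.noLo (by norm_num) (by decide)) (StpAll.cons (On.noLo (by norm_num) (by decide)) (StpAll.cons (On.noLo (by norm_num) (by decide)) (StpAll.nil (On.noLo (by norm_num) (by decide))))))))))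
theorem neA80 {x : ℝ} (hx : Rng 649613803 48318383 x) : StpAll (fun t t' a => On PP tK tL Z0 x (8 : Fin 9) 0
    (fun y X A L C => NearP (((1 : ℕ) : ℝ) / ((1 : ℕ) : ℝ)) x (mZ.v x) 0 y X A L C ((a : ℝ) / 1000)) fun y =>
      t ≤ h0 * y ∧ h0 * y ≤ t' + 3 / 100 ∧ 0 < crv PP (8 : Fin 9) 0 y ∧ crv PP (8 : Fin 9) 0 y ≤ 2 / 5) 1340 880 blA 1804 :=
  StpAll.cons (On.noLo (by norm_num) (by decide)) (StpAll.cons (On.noLo (by norm_num) (by decide)) (StpAll.cons (On.noLo (by norm_num) (by decide)) (StpAll.cons (On.noLo (by norm_num) (by decide)) (StpAll.cons (On.noLo (by norm_num) (by decide)) (StpAll.cons (On.noLo (by norm_num) (by decide)) (StpAll.cons (On.noLo (by norm_num) (by decide)) (StpAll.cons (On.noLo (by norm_num) (by decide)) (StpAll.nil (On.noLo (by norm_num) (by decide))))))))))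
theorem hiA81 {x : ℝ} (hx : Rng 649613803 48318383 x) : StpAll (fun t t' a => On PP tK tL Z0 x (8 : Fin 9) 1
    (fun y X A L C => HighP (((1 : ℕ) : ℝ) / ((1 : ℕ) : ℝ)) x (mZ.v x) 1 y X A L C ((a : ℝ) / 1000) Dw) fun y =>
      t ≤ h0 * y ∧ h0 * y ≤ t' + 3 / 100) 1700 800 hlA 1050 :=
  StpAll.cons (On.stH (fun y hy => (atB81 hy).far) cA_h0_81 hx (fun _ => rfl) (by decide)) (StpAll.cons (On.stH (fun y hy => (atB81 hy).far) cA_h1_81 hx (fun _ => rfl) (by decide)) (StpAll.nil (On.noLo (by norm_num) (by decide))))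
theorem faA81 {x : ℝ} (hx : Rng 649613803 48318383 x) : StpAll (fun t t' a => On PP tK tL Z0 x (8 : Fin 9) 1
    (fun y X A L C => FarP (((1 : ℕ) : ℝ) / ((1 : ℕ) : ℝ)) x (mZ.v x) 1 y X A L C ((a : ℝ) / 1000) Dw) fun y =>
      t ≤ h0 * y ∧ h0 * y ≤ t' + 3 / 100 ∧ Dw ≤ crv PP (8 : Fin 9) 1 y) 1340 880 blA 1804 :=
  StpAll.cons (On.noLo (by norm_num) (by decide)) (StpAll.cons (On.noLo (by norm_num) (by decide)) (StpAll.cons (On.noLo (by norm_num) (by decide)) (StpAll.cons (On.noLo (by norm_num) (by decide)) (StpAll.cons (On.noLo (by norm_num) (by decide)) (StpAll.cons (On.noLo (by norm_num) (by decide)) (StpAll.cons (On.noLo (by norm_num) (by decide)) (StpAll.cons (On.noLo (by norm_num) (by decide)) (StpAll.nil (On.noLo (by norm_num) (by decide))))))))))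
theorem neA81 {x : ℝ} (hx : Rng 649613803 48318383 x) : StpAll (fun t t' a => On PP tK tL Z0 x (8 : Fin 9) 1
    (fun y X A L C => NearP (((1 : ℕ) : ℝ) / ((1 : ℕ) : ℝ)) x (mZ.v x) 1 y X A L C ((a : ℝ) / 1000)) fun y =>
      t ≤ h0 * y ∧ h0 * y ≤ t' + 3 / 100 ∧ 0 < crv PP (8 : Fin 9) 1 y ∧ crv PP (8 : Fin 9) 1 y ≤ 2 / 5) 1340 880 blA 1804 :=
  StpAll.cons (On.noLo (by norm_num) (by decide)) (StpAll.cons (On.noLo (by norm_num) (by decide)) (StpAll.cons (On.noLo (by norm_num) (by decide)) (StpAll.cons (On.noLo (by norm_num) (by decide)) (StpAll.cons (On.noLo (by norm_num) (by decide)) (StpAll.cons (On.noLo (by norm_num) (by decide)) (StpAll.cons (On.noLo (by norm_num) (by decide)) (StpAll.cons (On.noLo (by norm_num) (by decide)) (StpAll.nil (On.noLo (by norm_num) (by decide))))))))))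
theorem hiA82 {x : ℝ} (hx : Rng 649613803 48318383 x) : StpAll (fun t t' a => On PP tK tL Z0 x (8 : Fin 9) 2
    (fun y X A L C => HighP (((1 : ℕ) : ℝ) / ((1 : ℕ) : ℝ)) x (mZ.v x) 2 y X A L C ((a : ℝ) / 1000) Dw) fun y =>
      t ≤ h0 * y ∧ h0 * y ≤ t' + 3 / 100) 1700 800 hlA 1050 :=
  StpAll.cons (On.noHi (by decide)) (StpAll.cons (On.stH (fun y hy => (atB82 hy).far) cA_h1_82 hx (fun _ => rfl) (by decide)) (StpAll.nil (On.stH (fun y hy => (atB82 hy).far) cA_h2_82 hx (fun _ => rfl) (by decide))))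
theorem faA82 {x : ℝ} (hx : Rng 649613803 48318383 x) : StpAll (fun t t' a => On PP tK tL Z0 x (8 : Fin 9) 2
    (fun y X A L C => FarP (((1 : ℕ) : ℝ) / ((1 : ℕ) : ℝ)) x (mZ.v x) 2 y X A L C ((a : ℝ) / 1000) Dw) fun y =>
      t ≤ h0 * y ∧ h0 * y ≤ t' + 3 / 100 ∧ Dw ≤ crv PP (8 : Fin 9) 2 y) 1340 880 blA 1804 :=
  StpAll.cons (On.stR (fun y hy => (atB82 hy).far) cA_r0_82 hx (fun _ => rfl) (by decide)) (StpAll.cons (On.stR (fun y hy => (atB82 hy).far) cA_r1_82 hx (fun _ => rfl) (by decide)) (StpAll.cons (On.stR (fun y hy => (atB82 hy).far) cA_r2_82 hx (fun _ => rfl) (by decide)) (StpAll.cons (On.stR (fun y hy => (atB82 hy).far) cA_r3_82 hx (fun _ => rfl) (by decide)) (StpAll.cons (On.stR (fun y hy => (atB82 hy).far) cA_r4_82 hx (fun _ => rfl) (by decide)) (StpAll.cons (On.stR (fun y hy => (atB82 hy).far) cA_r5_82 hx (fun _ => rfl) (by decide)) (StpAll.cons (On.stR (fun y hy => (atB82 hy).far) cA_r6_82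 hx (fun _ => rfl) (by decide)) (StpAll.cons (On.stR (fun y hy => (atB82 hy).far) cA_r7_82 hx (fun _ => rfl) (by decide)) (StpAll.nil (On.stR (fun y hy => (atB82 hy).far) cA_r8_82 hx (fun _ => rfl) (by decide))))))))))
theorem neA82 {x : ℝ} (hx : Rng 649613803 48318383 x) : StpAll (fun t t' a => On PP tK tL Z0 x (8 : Fin 9) 2
    (fun y X A L C => NearP (((1 : ℕ) : ℝ) / ((1 : ℕ) : ℝ)) x (mZ.v x) 2 y X A L C ((a : ℝ) / 1000)) fun y =>
      t ≤ h0 * y ∧ h0 * y ≤ t' + 3 / 100 ∧ 0 < crv PP (8 : Fin 9) 2 y ∧ crv PP (8 : Fin 9) 2 y ≤ 2 / 5) 1340 880 blA 1804 :=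
  StpAll.cons (On.stN (fun y hy => (atB82 hy).far) cA_n0_82 hx (fun _ => rfl) (by decide)) (StpAll.cons (On.stN (fun y hy => (atB82 hy).far) cA_n1_82 hx (fun _ => rfl) (by decide)) (StpAll.cons (On.stN (fun y hy => (atB82 hy).far) cA_n2_82 hx (fun _ => rfl) (by decide)) (StpAll.cons (On.stN (fun y hy => (atB82 hy).far) cA_n3_82 hx (fun _ => rfl) (by decide)) (StpAll.cons (On.stN (fun y hy => (atB82 hy).far) cA_n4_82 hx (fun _ => rfl) (by decide)) (StpAll.cons (On.stN (fun y hy => (atB82 hy).far) cA_n5_82 hx (fun _ => rfl) (by decide)) (StpAll.cons (On.stN (fun y hy => (atB82 hy).far) cA_n6_82 hx (fun _ => rfl) (by decide)) (StpAll.cons (On.stN (fun y hy => (atB82 hy).far) cA_n7_82 hx (fun _ => rfl) (by decide)) (StpAll.nil (On.stN (fun y hy => (atB82 hy).far) cA_n8_82 hx (fun _ => rfl) (by decide))))))))))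
theorem hiA83 {x : ℝ} (hx : Rng 649613803 48318383 x) : StpAll (fun t t' a => On PP tK tL Z0 x (8 : Fin 9) 3
    (fun y X A L C => HighP (((1 : ℕ) : ℝ) / ((1 : ℕ) : ℝ)) x (mZ.v x) 3 y X A L C ((a : ℝ) / 1000) Dw) fun y =>
      t ≤ h0 * y ∧ h0 * y ≤ t' + 3 / 100) 1700 800 hlA 1050 :=
  StpAll.cons (On.noHi (by decide)) (StpAll.cons (On.noHi (by decide)) (StpAll.nil (On.stHc covB83.far cA_h2_83 hx (fun _ => rfl) (by decide))))
theorem faA83 {x : ℝ} (hx : Rng 649613803 48318383 x) : StpAll (fun t t' a => On PP tK tL Z0 x (8 : Fin 9) 3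
    (fun y X A L C => FarP (((1 : ℕ) : ℝ) / ((1 : ℕ) : ℝ)) x (mZ.v x) 3 y X A L C ((a : ℝ) / 1000) Dw) fun y =>
      t ≤ h0 * y ∧ h0 * y ≤ t' + 3 / 100 ∧ Dw ≤ crv PP (8 : Fin 9) 3 y) 1340 880 blA 1804 :=
  StpAll.cons (On.noHi' (by decide)) (StpAll.cons (On.noHi' (by decide)) (StpAll.cons (On.noHi' (by decide)) (StpAll.cons (On.noHi' (by decide)) (StpAll.cons (On.noHi' (by decide)) (StpAll.cons (On.noHi' (by decide)) (StpAll.cons (On.noHi' (by decide)) (StpAll.cons (On.noHi' (by decide)) (StpAll.nil (On.stRc covB83.far cA_r8_83 hx (fun _ => rfl) (by decide))))))))))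
theorem neA83 {x : ℝ} (hx : Rng 649613803 48318383 x) : StpAll (fun t t' a => On PP tK tL Z0 x (8 : Fin 9) 3
    (fun y X A L C => NearP (((1 : ℕ) : ℝ) / ((1 : ℕ) : ℝ)) x (mZ.v x) 3 y X A L C ((a : ℝ) / 1000)) fun y =>
      t ≤ h0 * y ∧ h0 * y ≤ t' + 3 / 100 ∧ 0 < crv PP (8 : Fin 9) 3 y ∧ crv PP (8 : Fin 9) 3 y ≤ 2 / 5) 1340 880 blA 1804 :=
  StpAll.cons (On.noHi' (by decide)) (StpAll.cons (On.noHi' (by decide)) (StpAll.cons (On.noHi' (by decide)) (StpAll.cons (On.noHi' (by decide)) (StpAll.cons (On.noHi' (by decide)) (StpAll.cons (On.noHi' (by decide)) (StpAll.cons (On.noHi' (by decide)) (StpAll.cons (On.noHi' (by decide)) (StpAll.nil (On.stNc covB83.far cA_n8_83 hx (fun _ => rfl) (by decide))))))))))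
theorem fzA0 {x : ℝ} (hx : Rng 649613803 48318383 x) : StpAll (fun t t' a => OnT (fun q => (pcB q).K.v) (fun q => (pcB q).L.v) (fun _ _ _ _ => 0) x 0 (fun _ => Dw)
    (fun y X A L C => FarP (((1 : ℕ) : ℝ) / ((1 : ℕ) : ℝ)) x (mZ.v x) 0 y X A L C ((a : ℝ) / 1000) Dw) fun y =>
      t ≤ h0 * y ∧ h0 * y ≤ t' + 3 / 100 ∧ qqn Dw y ≤ 3) 1340 880 blA 1804 :=
  StpAll.cons (OnT.noLo (by norm_num) (by decide)) (StpAll.cons (OnT.noLo (by norm_num) (by decide)) (StpAll.cons (OnT.noLo (by norm_num) (by decide)) (StpAll.cons (OnT.noLo (by norm_num) (by decide)) (StpAll.cons (OnT.noLo (by norm_num) (by decide)) (StpAll.cons (OnT.noLo (by norm_num) (by decide)) (StpAll.cons (OnT.noLo (by norm_num) (by decide)) (StpAll.cons (OnT.noLo (by norm_num) (by decide)) (StpAll.nil (OnT.noLo (by norm_num) (by decide))))))))))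
theorem nzA0 {x : ℝ} (hx : Rng 649613803 48318383 x) : StpAll (fun t t' a => OnT (fun q => (pcB q).K.v) (fun q => (pcB q).L.v) (fun _ _ _ _ => 0) x 0 (fun _ => 2 / 5)
    (fun y X A L C => NearP (((1 : ℕ) : ℝ) / ((1 : ℕ) : ℝ)) x (mZ.v x) 0 y X A L C ((a : ℝ) / 1000)) fun y =>
      t ≤ h0 * y ∧ h0 * y ≤ t' + 3 / 100 ∧ 1 ≤ qqn (2 / 5) y) 1340 880 blA 1804 :=
  StpAll.cons (OnT.noLo (by norm_num) (by decide)) (StpAll.cons (OnT.noLo (by norm_num) (by decide)) (StpAll.cons (OnT.noLo (by norm_num) (by decide)) (StpAll.cons (OnT.noLo (by norm_num) (by decide)) (StpAll.cons (OnT.noLo (by norm_num) (by decide)) (StpAll.cons (OnT.noLo (by norm_num) (by decide)) (StpAll.cons (OnT.noLo (by norm_num) (by decide)) (StpAll.cons (OnT.noLo (by norm_num) (by decide)) (StpAll.nil (OnT.noLo (by norm_num) (by decide))))))))))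
theorem fzA1 {x : ℝ} (hx : Rng 649613803 48318383 x) : StpAll (fun t t' a => OnT (fun q => (pcB q).K.v) (fun q => (pcB q).L.v) (fun _ _ _ _ => 0) x 1 (fun _ => Dw)
    (fun y X A L C => FarP (((1 : ℕ) : ℝ) / ((1 : ℕ) : ℝ)) x (mZ.v x) 1 y X A L C ((a : ℝ) / 1000) Dw) fun y =>
      t ≤ h0 * y ∧ h0 * y ≤ t' + 3 / 100 ∧ qqn Dw y ≤ 3) 1340 880 blA 1804 :=
  StpAll.cons (OnT.noLo (by norm_num) (by decide)) (StpAll.cons (OnT.noLo (by norm_num) (by decide)) (StpAll.cons (OnT.noLo (by norm_num) (by decide)) (StpAll.cons (OnT.noLo (by norm_num) (by decide)) (StpAll.cons (OnT.noLo (by norm_num) (by decide)) (StpAll.cons (OnT.noLo (by norm_num) (by decide)) (StpAll.cons (OnT.noLo (by norm_num) (by decide)) (StpAll.cons (OnT.noLo (by norm_num) (by decide)) (StpAll.nil (OnT.noLo (by norm_num) (by decide))))))))))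
theorem nzA1 {x : ℝ} (hx : Rng 649613803 48318383 x) : StpAll (fun t t' a => OnT (fun q => (pcB q).K.v) (fun q => (pcB q).L.v) (fun _ _ _ _ => 0) x 1 (fun _ => 2 / 5)
    (fun y X A L C => NearP (((1 : ℕ) : ℝ) / ((1 : ℕ) : ℝ)) x (mZ.v x) 1 y X A L C ((a : ℝ) / 1000)) fun y =>
      t ≤ h0 * y ∧ h0 * y ≤ t' + 3 / 100 ∧ 1 ≤ qqn (2 / 5) y) 1340 880 blA 1804 :=
  StpAll.cons (OnT.noLo (by norm_num) (by decide)) (StpAll.cons (OnT.noLo (by norm_num) (by decide)) (StpAll.cons (OnT.noLo (by norm_num) (by decide)) (StpAll.cons (OnT.noLo (by norm_num) (by decide)) (StpAll.cons (OnT.noLo (by norm_num) (by decide)) (StpAll.cons (OnT.noLo (by norm_num) (by decide)) (StpAll.cons (OnT.noLo (by norm_num) (by decide)) (StpAll.cons (OnT.noLo (by norm_num) (by decide)) (StpAll.nil (OnT.noLo (by norm_num) (by decide))))))))))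
theorem fzA2 {x : ℝ} (hx : Rng 649613803 48318383 x) : StpAll (fun t t' a => OnT (fun q => (pcB q).K.v) (fun q => (pcB q).L.v) (fun _ _ _ _ => 0) x 2 (fun _ => Dw)
    (fun y X A L C => FarP (((1 : ℕ) : ℝ) / ((1 : ℕ) : ℝ)) x (mZ.v x) 2 y X A L C ((a : ℝ) / 1000) Dw) fun y =>
      t ≤ h0 * y ∧ h0 * y ≤ t' + 3 / 100 ∧ qqn Dw y ≤ 3) 1340 880 blA 1804 :=
  StpAll.cons (OnT.stR (pc := pcB2) (c := dZ) cA_R0_2 hx (fun _ _ => rfl) (fun _ _ => rfl)
    (fun _ _ => rfl) (fun _ _ => rfl) (by decide) (by decide)) (StpAll.cons (OnT.stR (pc := pcB2) (c := dZ) cA_R1_2 hx (fun _ _ => rfl) (fun _ _ => rfl)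
    (fun _ _ => rfl) (fun _ _ => rfl) (by decide) (by decide)) (StpAll.cons (OnT.stR (pc := pcB2) (c := dZ) cA_R2_2 hx (fun _ _ => rfl) (fun _ _ => rfl)
    (fun _ _ => rfl) (fun _ _ => rfl) (by decide) (by decide)) (StpAll.cons (OnT.stR (pc := pcB2) (c := dZ) cA_R3_2 hx (fun _ _ => rfl) (fun _ _ => rfl)
    (fun _ _ => rfl) (fun _ _ => rfl) (by decide) (by decide)) (StpAll.cons (OnT.stR (pc := pcB2) (c := dZ) cA_R4_2 hx (fun _ _ => rfl) (fun _ _ => rfl)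
    (fun _ _ => rfl) (fun _ _ => rfl) (by decide) (by decide)) (StpAll.cons (OnT.stR (pc := pcB2) (c := dZ) cA_R5_2 hx (fun _ _ => rfl) (fun _ _ => rfl)
    (fun _ _ => rfl) (fun _ _ => rfl) (by decide) (by decide)) (StpAll.cons (OnT.stR (pc := pcB2) (c := dZ) cA_R6_2 hx (fun _ _ => rfl) (fun _ _ => rfl)
    (fun _ _ => rfl) (fun _ _ => rfl) (by decide) (by decide)) (StpAll.cons (OnT.stR (pc := pcB2) (c := dZ) cA_R7_2 hx (fun _ _ => rfl) (fun _ _ => rfl)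
    (fun _ _ => rfl) (fun _ _ => rfl) (by decide) (by decide)) (StpAll.nil (OnT.stR (pc := pcB2) (c := dZ) cA_R8_2 hx (fun _ _ => rfl) (fun _ _ => rfl)
    (fun _ _ => rfl) (fun _ _ => rfl) (by decide) (by decide))))))))))
theorem nzA2 {x : ℝ} (hx : Rng 649613803 48318383 x) : StpAll (fun t t' a => OnT (fun q => (pcB q).K.v) (fun q => (pcB q).L.v) (fun _ _ _ _ => 0) x 2 (fun _ => 2 / 5)
    (fun y X A L C => NearP (((1 : ℕ) : ℝ) / ((1 : ℕ) : ℝ)) x (mZ.v x) 2 y X A L C ((a : ℝ) / 1000)) fun y =>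
      t ≤ h0 * y ∧ h0 * y ≤ t' + 3 / 100 ∧ 1 ≤ qqn (2 / 5) y) 1340 880 blA 1804 :=
  StpAll.cons (OnT.stN (pc := pcB2) (c := dZ) cA_N0_2 hx (fun _ _ => rfl) (fun _ _ => rfl)
    (fun _ _ => rfl) (fun _ _ => rfl) (by decide) (by decide)) (StpAll.cons (OnT.stN (pc := pcB2) (c := dZ) cA_N1_2 hx (fun _ _ => rfl) (fun _ _ => rfl)
    (fun _ _ => rfl) (fun _ _ => rfl) (by decide) (by decide)) (StpAll.cons (OnT.stN (pc := pcB2) (c := dZ) cA_N2_2 hx (fun _ _ => rfl) (fun _ _ => rfl)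
    (fun _ _ => rfl) (fun _ _ => rfl) (by decide) (by decide)) (StpAll.cons (OnT.stN (pc := pcB2) (c := dZ) cA_N3_2 hx (fun _ _ => rfl) (fun _ _ => rfl)
    (fun _ _ => rfl) (fun _ _ => rfl) (by decide) (by decide)) (StpAll.cons (OnT.stN (pc := pcB2) (c := dZ) cA_N4_2 hx (fun _ _ => rfl) (fun _ _ => rfl)
    (fun _ _ => rfl) (fun _ _ => rfl) (by decide) (by decide)) (StpAll.cons (OnT.stN (pc := pcB2) (c := dZ) cA_N5_2 hx (fun _ _ => rfl) (fun _ _ => rfl)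
    (fun _ _ => rfl) (fun _ _ => rfl) (by decide) (by decide)) (StpAll.cons (OnT.stN (pc := pcB2) (c := dZ) cA_N6_2 hx (fun _ _ => rfl) (fun _ _ => rfl)
    (fun _ _ => rfl) (fun _ _ => rfl) (by decide) (by decide)) (StpAll.cons (OnT.stN (pc := pcB2) (c := dZ) cA_N7_2 hx (fun _ _ => rfl) (fun _ _ => rfl)
    (fun _ _ => rfl) (fun _ _ => rfl) (by decide) (by decide)) (StpAll.nil (OnT.stN (pc := pcB2) (c := dZ) cA_N8_2 hx (fun _ _ => rfl) (fun _ _ => rfl)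
    (fun _ _ => rfl) (fun _ _ => rfl) (by decide) (by decide))))))))))
theorem fzA3 {x : ℝ} (hx : Rng 649613803 48318383 x) : StpAll (fun t t' a => OnT (fun q => (pcB q).K.v) (fun q => (pcB q).L.v) (fun _ _ _ _ => 0) x 3 (fun _ => Dw)
    (fun y X A L C => FarP (((1 : ℕ) : ℝ) / ((1 : ℕ) : ℝ)) x (mZ.v x) 3 y X A L C ((a : ℝ) / 1000) Dw) fun y =>
      t ≤ h0 * y ∧ h0 * y ≤ t' + 3 / 100 ∧ qqn Dw y ≤ 3) 1340 880 blA 1804 :=
  StpAll.cons (OnT.noHi (by decide)) (StpAll.cons (OnT.noHi (by decide)) (StpAll.cons (OnT.noHi (by decide)) (StpAll.cons (OnT.noHi (by decide)) (StpAll.cons (OnT.noHi (by decide)) (StpAll.cons (OnT.noHi (by decide)) (StpAll.cons (OnT.noHi (by decide)) (StpAll.cons (OnT.noHi (by decide)) (StpAll.nil (OnT.stR (pc := pcB3) (c := dZ) cA_R8_3 hx (fun _ _ => rfl) (fun _ _ => rfl)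
    (fun _ _ => rfl) (fun _ _ => rfl) (by decide) (by decide))))))))))
theorem nzA3 {x : ℝ} (hx : Rng 649613803 48318383 x) : StpAll (fun t t' a => OnT (fun q => (pcB q).K.v) (fun q => (pcB q).L.v) (fun _ _ _ _ => 0) x 3 (fun _ => 2 / 5)
    (fun y X A L C => NearP (((1 : ℕ) : ℝ) / ((1 : ℕ) : ℝ)) x (mZ.v x) 3 y X A L C ((a : ℝ) / 1000)) fun y =>
      t ≤ h0 * y ∧ h0 * y ≤ t' + 3 / 100 ∧ 1 ≤ qqn (2 / 5) y) 1340 880 blA 1804 :=
  StpAll.cons (OnT.noHi (by decide)) (StpAll.cons (OnT.noHi (by decide)) (StpAll.cons (OnT.noHi (by decide)) (StpAll.cons (OnT.noHi (by decide)) (StpAll.cons (OnT.noHi (by decide)) (StpAll.cons (OnT.noHi (by decide)) (StpAll.cons (OnT.noHi (by decide)) (StpAll.cons (OnT.noHi (by decide)) (StpAll.nil (OnT.stN (pc := pcB3) (c := dZ) cA_N8_3 hx (fun _ _ => rfl) (fun _ _ => rfl)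
    (fun _ _ => rfl) (fun _ _ => rfl) (by decide) (by decide))))))))))
theorem fvA {x : ℝ} (hx : Rng 649613803 48318383 x) : FV PP x (mZ.v x) (((1 : ℕ) : ℝ) / ((1 : ℕ) : ℝ)) (fun _ => 0) (tbl tK x)
    (tbl tL x) (fun _ _ => 0) tK tL Z0 (fun q => (pcB q).K.v) (fun q => (pcB q).L.v) (fun _ _ _ _ => 0) :=
  FV.two (rng_pos hx (by norm_num)) (rng_lt hx (by norm_num)) le_rfl (sideB hx.1 hx.2).linkK
    (sideB hx.1 hx.2).linkL
theorem hsA {x : ℝ} (hx : Rng 649613803 48318383 x) : ∀ y : ℝ, 1 ≤ y → h0 * y ≤ 1 → GV PP x (mZ.v x)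
    (tbl tK x) (tbl tL x) (fun _ _ => 0) (fun _ => 0) 2 y (1 - G y) := by
  have x0 := rng_pos hx (by norm_num)
  have x1 := rng_lt hx (by norm_num)
  have V := fvA hx
  have bK : En x * ndB4q2.K.v 1 x = (En x + mZ.v x * Qn x) * (1 / 2) := bK_far (corB42 x).2.1
  have pK0 : tK (4 : Fin 9) 2 1 x = tK 0 2 1 x := (pinK hx.1 hx.2).mid _ (le_of_eq_of_le (show PP.ρ (4 : Fin 9) = 17 / 20 from rfl) (by norm_num))
  have pL : tL (4 : Fin 9) 2 1 x = tL 0 2 1 x := (pinL hx.1 hx.2).mid _ (le_of_eq_of_le (show PP.ρ (4 : Fin 9) = 17 / 20 from rfl) (by norm_num))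
  exact V.steepZ (i := (4 : Fin 8)) (jl := (4 : Fin 9)) (jr := (5 : Fin 9)) (by norm_num) rfl rfl
    (by decide) (fun y hy => (atB42 hy).toAt) (fun y hy => (atB52 hy).toAt) (corB42 x).1 bK (corB42 x).2.2.1 pK0 pL
    (pc := pcB2) (fun _ _ => rfl) (fun _ _ => rfl) cA_st cA_sm cA_sw hx (by norm_num) (by norm_num)
    (by norm_num)
theorem winA {x : ℝ} (hx : Rng 649613803 48318383 x) : WinN PP x (mZ.v x) (((1 : ℕ) : ℝ) / ((1 : ℕ) : ℝ)) (fun _ => 0) (tbl tK x) (tbl tL x) (fun _ _ => 0)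
    tK tL (smT h0⁻¹ Z0) (fun q => (pcB q).K.v) (fun q => (pcB q).L.v) (fun q X y x => h0⁻¹ * (fun _ _ _ _ => (0 : ℝ)) q X y x)
    Dw (stp hlA 1050) (stp blA 1804) := by
  refine (fvA hx).winN ?_ ?_ ?_ (hsA hx) ?_ ?_ (by norm_num [Dw]) (by norm_num [Dw]) ?_ ?_ ?_ ?_ ?_ ?_ ?_
  · exact fun j => match j with
    | 0 => (onA00 hx).imp fun _ _ _ => trivial
    | 1 => (onA10 hx).imp fun _ _ _ => trivial
    | 2 => (onA20 hx).imp fun _ _ _ => trivial
    | 3 => (onA30 hx).imp fun _ _ _ => trivial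
    | 4 => (onA40 hx).imp fun _ _ _ => trivial
    | 5 => (onA50 hx)
    | 6 => (onA60 hx)
    | 7 => (onA70 hx)
    | 8 => (onA80 hx)
  · exact fun j => match j with
    | 0 => onA01 hx
    | 1 => onA11 hx
    | 2 => onA21 hx
    | 3 => onA31 hx
    | 4 => onA41 hx
    | 5 => onA51 hx
    | 6 => onA61 hx
    | 7 => onA71 hx
    | 8 => onA81 hx
  · exact fun j => match j with
    | 0 => fun h => absurd h (not_lt.2 (le_of_eq_of_le (show PP.ρ (0 : Fin 9) = 0 from rfl) (by norm_num)))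
    | 1 => fun h => absurd h (not_lt.2 (le_of_eq_of_le (show PP.ρ (1 : Fin 9) = 2 / 25 from rfl) (by norm_num)))
    | 2 => fun h => absurd h (not_lt.2 (le_of_eq_of_le (show PP.ρ (2 : Fin 9) = 1 / 4 from rfl) (by norm_num)))
    | 3 => fun h => absurd h (not_lt.2 (le_of_eq_of_le (show PP.ρ (3 : Fin 9) = 1 / 2 from rfl) (by norm_num)))
    | 4 => fun h => absurd h (not_lt.2 (le_of_eq_of_le (show PP.ρ (4 : Fin 9) = 17 / 20 from rfl) (by norm_num)))
    | 5 => fun _ => onA52 hx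
    | 6 => fun _ => onA62 hx
    | 7 => fun _ => onA72 hx
    | 8 => fun _ => onA82 hx
  · exact fun j => match j with
    | 0 => flA0 hx
    | 1 => flA1 hx
    | 2 => flA2 hx
    | 3 => flA3 hx
    | 4 => flA4 hx
    | 5 => flA5 hx
    | 6 => flA6 hx
    | 7 => flA7 hx
    | 8 => flA8 hx
  · exact fun j => match j with
    | 0 => (onA00 hx).imp fun _ _ _ => trivial
    | 1 => (onA10 hx).imp fun _ _ _ => trivial
    | 2 => (onA20 hx).imp fun _ _ _ => trivial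
    | 3 => (onA30 hx).imp fun _ _ _ => trivial
    | 4 => (onA40 hx).imp fun _ _ _ => trivial
    | 5 => leA5 hx
    | 6 => leA6 hx
    | 7 => leA7 hx
    | 8 => leA8 hx
  · exact OnT.left0 (pc := pcB0) (c := dZ) cA_ll hx (fun _ _ => rfl) (fun _ _ => rfl) (fun _ _ => rfl)
      (fun _ _ => rfl)
  · exact fun j q => match q with
    | 0 => match j with
      | 0 => hiA00 hx
      | 1 => hiA10 hx
      | 2 => hiA20 hx
      | 3 => hiA30 hx
      | 4 => hiA40 hx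
      | 5 => hiA50 hx
      | 6 => hiA60 hx
      | 7 => hiA70 hx
      | 8 => hiA80 hx
    | 1 => match j with
      | 0 => hiA01 hx
      | 1 => hiA11 hx
      | 2 => hiA21 hx
      | 3 => hiA31 hx
      | 4 => hiA41 hx
      | 5 => hiA51 hx
      | 6 => hiA61 hx
      | 7 => hiA71 hx
      | 8 => hiA81 hx
    | 2 => match j with
      | 0 => hiA02 hx
      | 1 => hiA12 hx
      | 2 => hiA22 hx
      | 3 => hiA32 hx
      | 4 => hiA42 hx
      | 5 => hiA52 hx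
      | 6 => hiA62 hx
      | 7 => hiA72 hx
      | 8 => hiA82 hx
    | 3 => match j with
      | 0 => hiA03 hx
      | 1 => hiA13 hx
      | 2 => hiA23 hx
      | 3 => hiA33 hx
      | 4 => hiA43 hx
      | 5 => hiA53 hx
      | 6 => hiA63 hx
      | 7 => hiA73 hx
      | 8 => hiA83 hx
    | q + 4 => StpAll.all fun _ _ _ => On.qbig q
  · exact high0_of (StpAll.cons (Or.inl (by norm_num)) (StpAll.cons (Or.inl (by norm_num)) (StpAll.nil (Or.inr (by norm_num [Dw])))))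
  · exact fun j q => match q with
    | 0 => match j with
      | 0 => faA00 hx
      | 1 => faA10 hx
      | 2 => faA20 hx
      | 3 => faA30 hx
      | 4 => faA40 hx
      | 5 => faA50 hx
      | 6 => faA60 hx
      | 7 => faA70 hx
      | 8 => faA80 hx
    | 1 => match j with
      | 0 => faA01 hx
      | 1 => faA11 hx
      | 2 => faA21 hx
      | 3 => faA31 hx
      | 4 => faA41 hx
      | 5 => faA51 hx
      | 6 => faA61 hx
      | 7 => faA71 hx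
      | 8 => faA81 hx
    | 2 => match j with
      | 0 => faA02 hx
      | 1 => faA12 hx
      | 2 => faA22 hx
      | 3 => faA32 hx
      | 4 => faA42 hx
      | 5 => faA52 hx
      | 6 => faA62 hx
      | 7 => faA72 hx
      | 8 => faA82 hx
    | 3 => match j with
      | 0 => faA03 hx
      | 1 => faA13 hx
      | 2 => faA23 hx
      | 3 => faA33 hx
      | 4 => faA43 hx
      | 5 => faA53 hx
      | 6 => faA63 hx
      | 7 => faA73 hx
      | 8 => faA83 hx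
    | q + 4 => StpAll.all fun _ _ _ => On.qbig q
  · exact fun q => match q with
    | 0 => fzA0 hx
    | 1 => fzA1 hx
    | 2 => fzA2 hx
    | 3 => fzA3 hx
    | q + 4 => StpAll.all fun _ _ _ => OnT.qbig q
  · exact fun j q => match q with
    | 0 => match j with
      | 0 => neA00 hx
      | 1 => neA10 hx
      | 2 => neA20 hx
      | 3 => neA30 hx
      | 4 => neA40 hx
      | 5 => neA50 hx
      | 6 => neA60 hx
      | 7 => neA70 hx
      | 8 => neA80 hx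
    | 1 => match j with
      | 0 => neA01 hx
      | 1 => neA11 hx
      | 2 => neA21 hx
      | 3 => neA31 hx
      | 4 => neA41 hx
      | 5 => neA51 hx
      | 6 => neA61 hx
      | 7 => neA71 hx
      | 8 => neA81 hx
    | 2 => match j with
      | 0 => neA02 hx
      | 1 => neA12 hx
      | 2 => neA22 hx
      | 3 => neA32 hx
      | 4 => neA42 hx
      | 5 => neA52 hx
      | 6 => neA62 hx
      | 7 => neA72 hx
      | 8 => neA82 hx
    | 3 => match j with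
      | 0 => neA03 hx
      | 1 => neA13 hx
      | 2 => neA23 hx
      | 3 => neA33 hx
      | 4 => neA43 hx
      | 5 => neA53 hx
      | 6 => neA63 hx
      | 7 => neA73 hx
      | 8 => neA83 hx
    | q + 4 => StpAll.all fun _ _ _ => On.qbig q
  · exact fun q => match q with
    | 0 => nzA0 hx
    | 1 => nzA1 hx
    | 2 => nzA2 hx
    | 3 => nzA3 hx
    | q + 4 => StpAll.all fun _ _ _ => OnT.qbig q

end Pool.Agent.Strip051.G.I6050_6500.Tab
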