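import Pool.Agent.Strip051.G.I6050_6500.FlA
import Pool.Agent.Strip051.G.I6050_6500.FcB

/-! # The floor with the window, vertex B (generated) -/

set_option linter.all false

namespace Pool.Agent.Strip051.G.I6050_6500.Tab

open Pool.Agent.Strip051.PB Pool.Agent.StripNear Pool.Agent.StripSquare
  Pool.Agent.Strip051.Sweep Pool.Agent.Strip051.LC Pool.Agent.Strip051.LC.Exact
open Pool.Agent.Strip051.LC.Floor (G En Qn fS GUn kan k3d k3n zen)

theorem onB10 {x : ℝ} (hx : Rng 649613803 48318383 x) : On PP (smT (eng.v x) tK) tL tC x (1 : Fin 9) 0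
    (WallP (((3 : ℕ) : ℝ) / ((10 : ℕ) : ℝ)) x (mT.v x) 0) fun _ => True := by
  have x0 := rng_pos hx (by norm_num)
  have x1 := rng_lt hx (by norm_num)
  have hμ : 0 ≤ mT.v x := mT_nn x
  have bK : En x * (Node.sc eng ndB1q0).K.v 0 x = (En x + mT.v x * Qn x) * (1) := bK_eng x0 x1 (eng_v x) (corB10 x).2.1
  have hm := On.monoY (fun y hy => (atB10 hy).amp eng) cB_m10 hx (fun _ => rfl)
  have g := On.germ0C (fun y hy => (atB10 hy).amp eng) cB_g10 hx x0 x1 (by norm_num) hμ (corB10 x).1 bK (corB10 x).2.2.1 (hm.sub (by norm_num) (by norm_num))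
  have w := On.wallY (fun y hy => (atB10 hy).amp eng) cB_w10 hx (fun _ => rfl)
  exact (g.join (e := 536870912) w (by norm_num) (by norm_num)).full 0 (by norm_num) (by norm_num)
theorem flB1 {x : ℝ} (hx : Rng 649613803 48318383 x) : On PP (smT (eng.v x) tK) tL tC x (1 : Fin 9) 0
    (FlatP (((3 : ℕ) : ℝ) / ((10 : ℕ) : ℝ)) x (mT.v x) 0) fun y => h0 * y ≤ 3 / 100 := by
  have x0 := rng_pos hx (by norm_num)
  have x1 := rng_lt hx (by norm_num)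
  have hμ : 0 ≤ mT.v x := mT_nn x
  exact On.flatW (On.monoY (fun y hy => (atB10 hy).amp eng) cB_m10 hx (fun _ => rfl)) (by norm_num) (onB10 hx)
theorem onB11 {x : ℝ} (hx : Rng 649613803 48318383 x) : On PP (smT (eng.v x) tK) tL tC x (1 : Fin 9) 1
    (WallP (((3 : ℕ) : ℝ) / ((10 : ℕ) : ℝ)) x (mT.v x) 1) fun _ => True := by
  have x0 := rng_pos hx (by norm_num)
  have x1 := rng_lt hx (by norm_num)
  have hμ : 0 ≤ mT.v x := mT_nn x
  exact (On.wallY (fun y hy => (atB11 hy).amp eng) cB_w11 hx (fun _ => rfl)).full 1 (by norm_num) (by norm_num)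
theorem onB20 {x : ℝ} (hx : Rng 649613803 48318383 x) : On PP (smT (eng.v x) tK) tL tC x (2 : Fin 9) 0
    (WallP (((3 : ℕ) : ℝ) / ((10 : ℕ) : ℝ)) x (mT.v x) 0) fun _ => True := by
  have x0 := rng_pos hx (by norm_num)
  have x1 := rng_lt hx (by norm_num)
  have hμ : 0 ≤ mT.v x := mT_nn x
  have bK : En x * (Node.sc eng ndB2q0).K.v 0 x = (En x + mT.v x * Qn x) * (1) := bK_eng x0 x1 (eng_v x) (corB20 x).2.1
  have hm := On.monoY (fun y hy => (atB20 hy).amp eng) cB_m20 hx (fun _ => rfl)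
  have g := On.germ0C (fun y hy => (atB20 hy).amp eng) cB_g20 hx x0 x1 (by norm_num) hμ (corB20 x).1 bK (corB20 x).2.2.1 (hm.sub (by norm_num) (by norm_num))
  have w := On.wallY (fun y hy => (atB20 hy).amp eng) cB_w20 hx (fun _ => rfl)
  exact (g.join (e := 536870912) w (by norm_num) (by norm_num)).full 0 (by norm_num) (by norm_num)
theorem flB2 {x : ℝ} (hx : Rng 649613803 48318383 x) : On PP (smT (eng.v x) tK) tL tC x (2 : Fin 9) 0
    (FlatP (((3 : ℕ) : ℝ) / ((10 : ℕ) : ℝ)) x (mT.v x) 0) fun y => h0 * y ≤ 3 / 100 := by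
  have x0 := rng_pos hx (by norm_num)
  have x1 := rng_lt hx (by norm_num)
  have hμ : 0 ≤ mT.v x := mT_nn x
  exact On.flatW (On.monoY (fun y hy => (atB20 hy).amp eng) cB_m20 hx (fun _ => rfl)) (by norm_num) (onB20 hx)
theorem onB21 {x : ℝ} (hx : Rng 649613803 48318383 x) : On PP (smT (eng.v x) tK) tL tC x (2 : Fin 9) 1
    (WallP (((3 : ℕ) : ℝ) / ((10 : ℕ) : ℝ)) x (mT.v x) 1) fun _ => True := by
  have x0 := rng_pos hx (by norm_num)
  have x1 := rng_lt hx (by norm_num)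
  have hμ : 0 ≤ mT.v x := mT_nn x
  exact (On.wallY (fun y hy => (atB21 hy).amp eng) cB_w21 hx (fun _ => rfl)).full 1 (by norm_num) (by norm_num)
theorem onB30 {x : ℝ} (hx : Rng 649613803 48318383 x) : On PP (smT (eng.v x) tK) tL tC x (3 : Fin 9) 0
    (WallP (((3 : ℕ) : ℝ) / ((10 : ℕ) : ℝ)) x (mT.v x) 0) fun _ => True := by
  have x0 := rng_pos hx (by norm_num)
  have x1 := rng_lt hx (by norm_num)
  have hμ : 0 ≤ mT.v x := mT_nn x
  have bK : En x * (Node.sc eng ndB3q0).K.v 0 x = (En x + mT.v x * Qn x) * (1) := bK_eng x0 x1 (eng_v x) (corB30 x).2.1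
  have hm := On.monoY (fun y hy => (atB30 hy).amp eng) cB_m30 hx (fun _ => rfl)
  have g := On.germ0C (fun y hy => (atB30 hy).amp eng) cB_g30 hx x0 x1 (by norm_num) hμ (corB30 x).1 bK (corB30 x).2.2.1 (hm.sub (by norm_num) (by norm_num))
  have w := On.wallY (fun y hy => (atB30 hy).amp eng) cB_w30 hx (fun _ => rfl)
  exact (g.join (e := 536870912) w (by norm_num) (by norm_num)).full 0 (by norm_num) (by norm_num)
theorem flB3 {x : ℝ} (hx : Rng 649613803 48318383 x) : On PP (smT (eng.v x) tK) tL tC x (3 : Fin 9) 0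
    (FlatP (((3 : ℕ) : ℝ) / ((10 : ℕ) : ℝ)) x (mT.v x) 0) fun y => h0 * y ≤ 3 / 100 := by
  have x0 := rng_pos hx (by norm_num)
  have x1 := rng_lt hx (by norm_num)
  have hμ : 0 ≤ mT.v x := mT_nn x
  exact On.flatW (On.monoY (fun y hy => (atB30 hy).amp eng) cB_m30 hx (fun _ => rfl)) (by norm_num) (onB30 hx)
theorem onB31 {x : ℝ} (hx : Rng 649613803 48318383 x) : On PP (smT (eng.v x) tK) tL tC x (3 : Fin 9) 1
    (WallP (((3 : ℕ) : ℝ) / ((10 : ℕ) : ℝ)) x (mT.v x) 1) fun _ => True := by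
  have x0 := rng_pos hx (by norm_num)
  have x1 := rng_lt hx (by norm_num)
  have hμ : 0 ≤ mT.v x := mT_nn x
  exact (On.wallY (fun y hy => (atB31 hy).amp eng) cB_w31 hx (fun _ => rfl)).full 1 (by norm_num) (by norm_num)
theorem onB40 {x : ℝ} (hx : Rng 649613803 48318383 x) : On PP (smT (eng.v x) tK) tL tC x (4 : Fin 9) 0
    (WallP (((3 : ℕ) : ℝ) / ((10 : ℕ) : ℝ)) x (mT.v x) 0) fun _ => True := by
  have x0 := rng_pos hx (by norm_num)
  have x1 := rng_lt hx (by norm_num)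
  have hμ : 0 ≤ mT.v x := mT_nn x
  have bK : En x * (Node.sc eng ndB4q0).K.v 0 x = (En x + mT.v x * Qn x) * (1) := bK_eng x0 x1 (eng_v x) (corB40 x).2.1
  have hm := On.monoY (fun y hy => (atB40 hy).amp eng) cB_m40 hx (fun _ => rfl)
  have g := On.germ0C (fun y hy => (atB40 hy).amp eng) cB_g40 hx x0 x1 (by norm_num) hμ (corB40 x).1 bK (corB40 x).2.2.1 (hm.sub (by norm_num) (by norm_num))
  have w := On.wallY (fun y hy => (atB40 hy).amp eng) cB_w40 hx (fun _ => rfl)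
  exact (g.join (e := 536870912) w (by norm_num) (by norm_num)).full 0 (by norm_num) (by norm_num)
theorem flB4 {x : ℝ} (hx : Rng 649613803 48318383 x) : On PP (smT (eng.v x) tK) tL tC x (4 : Fin 9) 0
    (FlatP (((3 : ℕ) : ℝ) / ((10 : ℕ) : ℝ)) x (mT.v x) 0) fun y => h0 * y ≤ 3 / 100 := by
  have x0 := rng_pos hx (by norm_num)
  have x1 := rng_lt hx (by norm_num)
  have hμ : 0 ≤ mT.v x := mT_nn x
  exact On.flatW (On.monoY (fun y hy => (atB40 hy).amp eng) cB_m40 hx (fun _ => rfl)) (by norm_num) (onB40 hx)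
theorem onB41 {x : ℝ} (hx : Rng 649613803 48318383 x) : On PP (smT (eng.v x) tK) tL tC x (4 : Fin 9) 1
    (WallP (((3 : ℕ) : ℝ) / ((10 : ℕ) : ℝ)) x (mT.v x) 1) fun _ => True := by
  have x0 := rng_pos hx (by norm_num)
  have x1 := rng_lt hx (by norm_num)
  have hμ : 0 ≤ mT.v x := mT_nn x
  exact (On.wallY (fun y hy => (atB41 hy).amp eng) cB_w41 hx (fun _ => rfl)).full 1 (by norm_num) (by norm_num)
theorem onB50 {x : ℝ} (hx : Rng 649613803 48318383 x) : On PP (smT (eng.v x) tK) tL tC x (5 : Fin 9) 0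
    (WallP (((3 : ℕ) : ℝ) / ((10 : ℕ) : ℝ)) x (mT.v x) 0) fun y => 3 / 100 ≤ h0 * y := by
  have x0 := rng_pos hx (by norm_num)
  have x1 := rng_lt hx (by norm_num)
  have hμ : 0 ≤ mT.v x := mT_nn x
  exact On.wall3 (On.wallY (fun y hy => (atB50 hy).amp eng) cB_w50 hx (fun _ => rfl)) (by norm_num)
theorem flB5 {x : ℝ} (hx : Rng 649613803 48318383 x) : On PP (smT (eng.v x) tK) tL tC x (5 : Fin 9) 0
    (FlatP (((3 : ℕ) : ℝ) / ((10 : ℕ) : ℝ)) x (mT.v x) 0) fun y => h0 * y ≤ 3 / 100 := by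
  have x0 := rng_pos hx (by norm_num)
  have x1 := rng_lt hx (by norm_num)
  have hμ : 0 ≤ mT.v x := mT_nn x
  exact On.flatY (fun y hy => (atB50 hy).amp eng) cB_f50 hx (fun _ => rfl)
theorem leB5 {x : ℝ} (hx : Rng 649613803 48318383 x) : On PP (smT (eng.v x) tK) tL tC x (5 : Fin 9) 0
    (WallP (((3 : ℕ) : ℝ) / ((10 : ℕ) : ℝ)) x (mT.v x) 0) fun y => h0 * y ≤ 3 / 100 ∧ crv PP (5 : Fin 9) 0 y ≤ Dw := by
  have x0 := rng_pos hx (by norm_num)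
  have x1 := rng_lt hx (by norm_num)
  have hμ : 0 ≤ mT.v x := mT_nn x
  exact On.leftY (fun y hy => (atB50 hy).amp eng) cB_l50 hx (fun _ => rfl)
theorem onB51 {x : ℝ} (hx : Rng 649613803 48318383 x) : On PP (smT (eng.v x) tK) tL tC x (5 : Fin 9) 1
    (WallP (((3 : ℕ) : ℝ) / ((10 : ℕ) : ℝ)) x (mT.v x) 1) fun _ => True := by
  have x0 := rng_pos hx (by norm_num)
  have x1 := rng_lt hx (by norm_num)
  have hμ : 0 ≤ mT.v x := mT_nn x
  exact (On.wallY (fun y hy => (atB51 hy).amp eng) cB_w51 hx (fun _ => rfl)).full 1 (by norm_num) (by norm_num)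
theorem onB52 {x : ℝ} (hx : Rng 649613803 48318383 x) : On PP (smT (eng.v x) tK) tL tC x (5 : Fin 9) 2
    (WallP (((3 : ℕ) : ℝ) / ((10 : ℕ) : ℝ)) x (mT.v x) 2) fun y => h0 * y ≤ 1 ∧ 1 - G y ≤ crv PP (5 : Fin 9) 2 y := by
  have x0 := rng_pos hx (by norm_num)
  have x1 := rng_lt hx (by norm_num)
  have hμ : 0 ≤ mT.v x := mT_nn x
  exact On.right2C (fun y hy => (atB52 hy).amp eng) cB_w52 hx
theorem onB60 {x : ℝ} (hx : Rng 649613803 48318383 x) : On PP (smT (eng.v x) tK) tL tC x (6 : Fin 9) 0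
    (WallP (((3 : ℕ) : ℝ) / ((10 : ℕ) : ℝ)) x (mT.v x) 0) fun y => 3 / 100 ≤ h0 * y := by
  have x0 := rng_pos hx (by norm_num)
  have x1 := rng_lt hx (by norm_num)
  have hμ : 0 ≤ mT.v x := mT_nn x
  exact On.wall3 (On.wallY (fun y hy => (atB60 hy).amp eng) cB_w60 hx (fun _ => rfl)) (by norm_num)
theorem flB6 {x : ℝ} (hx : Rng 649613803 48318383 x) : On PP (smT (eng.v x) tK) tL tC x (6 : Fin 9) 0
    (FlatP (((3 : ℕ) : ℝ) / ((10 : ℕ) : ℝ)) x (mT.v x) 0) fun y => h0 * y ≤ 3 / 100 := by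
  have x0 := rng_pos hx (by norm_num)
  have x1 := rng_lt hx (by norm_num)
  have hμ : 0 ≤ mT.v x := mT_nn x
  exact On.flatY (fun y hy => (atB60 hy).amp eng) cB_f60 hx (fun _ => rfl)
theorem leB6 {x : ℝ} (hx : Rng 649613803 48318383 x) : On PP (smT (eng.v x) tK) tL tC x (6 : Fin 9) 0
    (WallP (((3 : ℕ) : ℝ) / ((10 : ℕ) : ℝ)) x (mT.v x) 0) fun y => h0 * y ≤ 3 / 100 ∧ crv PP (6 : Fin 9) 0 y ≤ Dw := by
  have x0 := rng_pos hx (by norm_num)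
  have x1 := rng_lt hx (by norm_num)
  have hμ : 0 ≤ mT.v x := mT_nn x
  exact On.leftY (fun y hy => (atB60 hy).amp eng) cB_l60 hx (fun _ => rfl)
theorem onB61 {x : ℝ} (hx : Rng 649613803 48318383 x) : On PP (smT (eng.v x) tK) tL tC x (6 : Fin 9) 1
    (WallP (((3 : ℕ) : ℝ) / ((10 : ℕ) : ℝ)) x (mT.v x) 1) fun _ => True := by
  have x0 := rng_pos hx (by norm_num)
  have x1 := rng_lt hx (by norm_num)
  have hμ : 0 ≤ mT.v x := mT_nn x
  exact (On.wallY (fun y hy => (atB61 hy).amp eng) cB_w61 hx (fun _ => rfl)).full 1 (by norm_num) (by norm_num)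
theorem onB62 {x : ℝ} (hx : Rng 649613803 48318383 x) : On PP (smT (eng.v x) tK) tL tC x (6 : Fin 9) 2
    (WallP (((3 : ℕ) : ℝ) / ((10 : ℕ) : ℝ)) x (mT.v x) 2) fun y => h0 * y ≤ 1 ∧ 1 - G y ≤ crv PP (6 : Fin 9) 2 y := by
  have x0 := rng_pos hx (by norm_num)
  have x1 := rng_lt hx (by norm_num)
  have hμ : 0 ≤ mT.v x := mT_nn x
  exact On.right2C (fun y hy => (atB62 hy).amp eng) cB_w62 hx
theorem onB70 {x : ℝ} (hx : Rng 649613803 48318383 x) : On PP (smT (eng.v x) tK) tL tC x (7 : Fin 9) 0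
    (WallP (((3 : ℕ) : ℝ) / ((10 : ℕ) : ℝ)) x (mT.v x) 0) fun y => 3 / 100 ≤ h0 * y := by
  have x0 := rng_pos hx (by norm_num)
  have x1 := rng_lt hx (by norm_num)
  have hμ : 0 ≤ mT.v x := mT_nn x
  exact On.wall3 (On.wallY (fun y hy => (atB70 hy).amp eng) cB_w70 hx (fun _ => rfl)) (by norm_num)
theorem flB7 {x : ℝ} (hx : Rng 649613803 48318383 x) : On PP (smT (eng.v x) tK) tL tC x (7 : Fin 9) 0
    (FlatP (((3 : ℕ) : ℝ) / ((10 : ℕ) : ℝ)) x (mT.v x) 0) fun y => h0 * y ≤ 3 / 100 := by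
  have x0 := rng_pos hx (by norm_num)
  have x1 := rng_lt hx (by norm_num)
  have hμ : 0 ≤ mT.v x := mT_nn x
  exact On.flatY (fun y hy => (atB70 hy).amp eng) cB_f70 hx (fun _ => rfl)
theorem leB7 {x : ℝ} (hx : Rng 649613803 48318383 x) : On PP (smT (eng.v x) tK) tL tC x (7 : Fin 9) 0
    (WallP (((3 : ℕ) : ℝ) / ((10 : ℕ) : ℝ)) x (mT.v x) 0) fun y => h0 * y ≤ 3 / 100 ∧ crv PP (7 : Fin 9) 0 y ≤ Dw := by
  have x0 := rng_pos hx (by norm_num)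
  have x1 := rng_lt hx (by norm_num)
  have hμ : 0 ≤ mT.v x := mT_nn x
  exact On.leftY (fun y hy => (atB70 hy).amp eng) cB_l70 hx (fun _ => rfl)
theorem onB71 {x : ℝ} (hx : Rng 649613803 48318383 x) : On PP (smT (eng.v x) tK) tL tC x (7 : Fin 9) 1
    (WallP (((3 : ℕ) : ℝ) / ((10 : ℕ) : ℝ)) x (mT.v x) 1) fun _ => True := by
  have x0 := rng_pos hx (by norm_num)
  have x1 := rng_lt hx (by norm_num)
  have hμ : 0 ≤ mT.v x := mT_nn x
  exact (On.wallY (fun y hy => (atB71 hy).amp eng) cB_w71 hx (fun _ => rfl)).full 1 (by norm_num) (by norm_num)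
theorem onB72 {x : ℝ} (hx : Rng 649613803 48318383 x) : On PP (smT (eng.v x) tK) tL tC x (7 : Fin 9) 2
    (WallP (((3 : ℕ) : ℝ) / ((10 : ℕ) : ℝ)) x (mT.v x) 2) fun y => h0 * y ≤ 1 ∧ 1 - G y ≤ crv PP (7 : Fin 9) 2 y := by
  have x0 := rng_pos hx (by norm_num)
  have x1 := rng_lt hx (by norm_num)
  have hμ : 0 ≤ mT.v x := mT_nn x
  exact On.right2C (fun y hy => (atB72 hy).amp eng) cB_w72 hx
theorem onB80 {x : ℝ} (hx : Rng 649613803 48318383 x) : On PP (smT (eng.v x) tK) tL tC x (8 : Fin 9) 0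
    (WallP (((3 : ℕ) : ℝ) / ((10 : ℕ) : ℝ)) x (mT.v x) 0) fun y => 3 / 100 ≤ h0 * y := by
  have x0 := rng_pos hx (by norm_num)
  have x1 := rng_lt hx (by norm_num)
  have hμ : 0 ≤ mT.v x := mT_nn x
  exact On.wall3 (On.wallY (fun y hy => (atB80 hy).amp eng) cB_w80 hx (fun _ => rfl)) (by norm_num)
theorem flB8 {x : ℝ} (hx : Rng 649613803 48318383 x) : On PP (smT (eng.v x) tK) tL tC x (8 : Fin 9) 0
    (FlatP (((3 : ℕ) : ℝ) / ((10 : ℕ) : ℝ)) x (mT.v x) 0) fun y => h0 * y ≤ 3 / 100 := by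
  have x0 := rng_pos hx (by norm_num)
  have x1 := rng_lt hx (by norm_num)
  have hμ : 0 ≤ mT.v x := mT_nn x
  exact On.flatY (fun y hy => (atB80 hy).amp eng) cB_f80 hx (fun _ => rfl)
theorem leB8 {x : ℝ} (hx : Rng 649613803 48318383 x) : On PP (smT (eng.v x) tK) tL tC x (8 : Fin 9) 0
    (WallP (((3 : ℕ) : ℝ) / ((10 : ℕ) : ℝ)) x (mT.v x) 0) fun y => h0 * y ≤ 3 / 100 ∧ crv PP (8 : Fin 9) 0 y ≤ Dw := by
  have x0 := rng_pos hx (by norm_num)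
  have x1 := rng_lt hx (by norm_num)
  have hμ : 0 ≤ mT.v x := mT_nn x
  exact On.leftY (fun y hy => (atB80 hy).amp eng) cB_l80 hx (fun _ => rfl)
theorem onB81 {x : ℝ} (hx : Rng 649613803 48318383 x) : On PP (smT (eng.v x) tK) tL tC x (8 : Fin 9) 1
    (WallP (((3 : ℕ) : ℝ) / ((10 : ℕ) : ℝ)) x (mT.v x) 1) fun _ => True := by
  have x0 := rng_pos hx (by norm_num)
  have x1 := rng_lt hx (by norm_num)
  have hμ : 0 ≤ mT.v x := mT_nn x
  exact (On.wallY (fun y hy => (atB81 hy).amp eng) cB_w81 hx (fun _ => rfl)).full 1 (by norm_num) (by norm_num)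
theorem onB82 {x : ℝ} (hx : Rng 649613803 48318383 x) : On PP (smT (eng.v x) tK) tL tC x (8 : Fin 9) 2
    (WallP (((3 : ℕ) : ℝ) / ((10 : ℕ) : ℝ)) x (mT.v x) 2) fun y => h0 * y ≤ 1 ∧ 1 - G y ≤ crv PP (8 : Fin 9) 2 y := by
  have x0 := rng_pos hx (by norm_num)
  have x1 := rng_lt hx (by norm_num)
  have hμ : 0 ≤ mT.v x := mT_nn x
  exact On.right2C (fun y hy => (atB82 hy).amp eng) cB_w82 hx
theorem moB00 {x : ℝ} (hx : Rng 649613803 48318383 x) : On PP (smT (eng.v x) tK) tL tC x (0 : Fin 9) 0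
    (MonoQ x (mT.v x) 0) fun _ => True := by
  have x0 := rng_pos hx (by norm_num)
  have x1 := rng_lt hx (by norm_num)
  have hμ : 0 ≤ mT.v x := mT_nn x
  exact (On.monoY (fun y hy => (atB00 hy).amp eng) cB_m00 hx (fun _ => rfl)).full 0 (by norm_num) (by norm_num)
theorem onB00 {x : ℝ} (hx : Rng 649613803 48318383 x) : On PP (smT (eng.v x) tK) tL tC x (0 : Fin 9) 0
    (WallP (((3 : ℕ) : ℝ) / ((10 : ℕ) : ℝ)) x (mT.v x) 0) fun _ => True := by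
  have x0 := rng_pos hx (by norm_num)
  have x1 := rng_lt hx (by norm_num)
  have hμ : 0 ≤ mT.v x := mT_nn x
  have hm := On.monoY (fun y hy => (atB00 hy).amp eng) cB_m00 hx (fun _ => rfl)
  have bK : En x * (Node.sc eng ndB0q0).K.v 0 x = (En x + mT.v x * Qn x) * (1) := bK_eng x0 x1 (eng_v x) (corB00 x).2.1
  have g := On.germ0C (fun y hy => (atB00 hy).amp eng) cB_g00 hx x0 x1 (by norm_num) hμ (corB00 x).1 bK (corB00 x).2.2.1 (hm.sub (by norm_num) (by norm_num))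
  have wa := On.wallY (fun y hy => (atB00 hy).amp eng) cB_w00a hx (fun _ => rfl)
  exact (g.join (e := 536870912) wa (by norm_num) (by norm_num)).full 0 (by norm_num) (by norm_num)
theorem flB0 {x : ℝ} (hx : Rng 649613803 48318383 x) : On PP (smT (eng.v x) tK) tL tC x (0 : Fin 9) 0
    (FlatP (((3 : ℕ) : ℝ) / ((10 : ℕ) : ℝ)) x (mT.v x) 0) fun y => h0 * y ≤ 3 / 100 := by
  have x0 := rng_pos hx (by norm_num)
  have x1 := rng_lt hx (by norm_num)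
  have hμ : 0 ≤ mT.v x := mT_nn x
  exact On.flatW (On.monoY (fun y hy => (atB00 hy).amp eng) cB_m00 hx (fun _ => rfl)) (by norm_num) (onB00 hx)
theorem moB01 {x : ℝ} (hx : Rng 649613803 48318383 x) : On PP (smT (eng.v x) tK) tL tC x (0 : Fin 9) 1
    (MonoQ x (mT.v x) 1) fun _ => True := by
  have x0 := rng_pos hx (by norm_num)
  have x1 := rng_lt hx (by norm_num)
  have hμ : 0 ≤ mT.v x := mT_nn x
  exact (On.monoY (fun y hy => (atB01 hy).amp eng) cB_m01 hx (fun _ => rfl)).full 1 (by norm_num) (by norm_num)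
theorem onB01 {x : ℝ} (hx : Rng 649613803 48318383 x) : On PP (smT (eng.v x) tK) tL tC x (0 : Fin 9) 1
    (WallP (((3 : ℕ) : ℝ) / ((10 : ℕ) : ℝ)) x (mT.v x) 1) fun _ => True := by
  have x0 := rng_pos hx (by norm_num)
  have x1 := rng_lt hx (by norm_num)
  have hμ : 0 ≤ mT.v x := mT_nn x
  have hm := On.monoY (fun y hy => (atB01 hy).amp eng) cB_m01 hx (fun _ => rfl)
  have bK : En x * (Node.sc eng ndB0q1).K.v 1 x = (En x + mT.v x * Qn x) * (1 / 2) := bK_eng x0 x1 (eng_v x) (corB01 x).2.1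
  have g := On.germ1C (fun y hy => (atB01 hy).amp eng) cB_g01 hx x0 x1 (by norm_num) hμ (corB01 x).1 bK (corB01 x).2.2.1 (hm.sub (by norm_num) (by norm_num))
  have wa := On.wallY (fun y hy => (atB01 hy).amp eng) cB_w01a hx (fun _ => rfl)
  have wb := On.wallY (fun y hy => (atB01 hy).amp eng) cB_w01b hx (fun _ => rfl)
  have hmt : On PP (smT (eng.v x) tK) tL tC x (0 : Fin 9) 1 (MonoQ x (mT.v x) 1) (Rng 629212708 89120572) :=
    (hm.full 1 (by norm_num) (by norm_num)).imp fun _ _ _ => trivial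
  have hf : ∀ y, InQ 1 y → Rng 629212708 89120572 y →
      TgK x (mT.v x) (mZ.v x) 1 y (dlg.v y x) (smT (eng.v x) tK 0 1 y x) (tL 0 1 y x) (tC 0 1 y x) := by
    intro y hq hr
    have y1 : y < 1 := lt_one_of hq (by norm_num)
    have r1 : ((629212708 : ℕ) : ℝ) / S ≤ y := hr.1
    have r2 : y ≤ ((718333280 : ℕ) : ℝ) / S := by
      have := hr.2
      push_cast at this ⊢
      norm_num at this ⊢
      exact this
    have y0 : 0 < y := rng_pos hr (by norm_num)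
    have pa : (11 / 2198 : ℝ) < 3 / 4 * y - G y / 2 := psi_gt (w := 925197294) r1 (by norm_num) (by norm_num)
    have pb : 3 / 4 * y - G y / 2 < (13 / 134 : ℝ) := psi_lt (w := 875168255) y0.le r2 (by norm_num) (by norm_num)
    have A := atB01 (x := x) (show OnC (0 : Fin 9) 1 y from ⟨hq, fun _ => h0y_lt y1⟩)
    refine ⟨?_, A.L.symm.trans (clL1 pa pb), ?_⟩
    · show eng.v x * tK 0 1 y x = _
      rw [← A.K, eng_v]
      have e : ndB0q1.K.v y x = _ := clKF1 (by linarith [hq.1]) y1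
      rw [e]
      ring
    · rw [← A.C, ← esgE_v, ← clC1 pa pb]
      rfl
  have t : On PP (smT (eng.v x) tK) tL tC x (0 : Fin 9) 1 (WallP (((3 : ℕ) : ℝ) / ((10 : ℕ) : ℝ)) x (mT.v x) 1) (Rng 629212708 89120572) := by
    refine On.tgK (D := dlg) (M := mT) (th := (((3 : ℕ) : ℝ) / ((10 : ℕ) : ℝ))) (q := 1) (by norm_num) cB_tl cB_th
        hx x0 x1 (by norm_num) (by norm_num) hμ (by norm_num) (by norm_num) (by norm_num) ?_ hf hmt
    intro y hr hy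
    have r2 := hr.2
    have r1 := hx.1
    rw [S_val] at r1 r2
    push_cast at r1 r2 ⊢
    linarith
  exact (((wa.join (e := 181462368) t (by norm_num) (by norm_num)).join (e := 500363690) wb (by norm_num) (by norm_num)).join (e := 536870912) g (by norm_num) (by norm_num)).full 1 (by norm_num) (by norm_num)
abbrev hlB : List (ℕ × ℕ) := [(834, 230), (930, 840)]
abbrev blB : List (ℕ × ℕ) := [(961, 1243), (1142, 1350)]
theorem hiB00 {x : ℝ} (hx : Rng 649613803 48318383 x) : StpAll (fun t t' a => On PP (smT (eng.v x) tK) tL tC x (0 : Fin 9) 0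
    (fun y X A L C => HighP (((3 : ℕ) : ℝ) / ((10 : ℕ) : ℝ)) x (mT.v x) 0 y X A L C ((a : ℝ) / 1000) Dw) fun y =>
      t ≤ h0 * y ∧ h0 * y ≤ t' + 3 / 100) 1700 800 hlB 1040 :=
  StpAll.cons (On.noLo (by norm_num) (by decide)) (StpAll.cons (On.noLo (by norm_num) (by decide)) (StpAll.nil (On.noLo (by norm_num) (by decide))))
theorem faB00 {x : ℝ} (hx : Rng 649613803 48318383 x) : StpAll (fun t t' a => On PP (smT (eng.v x) tK) tL tC x (0 : Fin 9) 0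
    (fun y X A L C => FarP (((3 : ℕ) : ℝ) / ((10 : ℕ) : ℝ)) x (mT.v x) 0 y X A L C ((a : ℝ) / 1000) Dw) fun y =>
      t ≤ h0 * y ∧ h0 * y ≤ t' + 3 / 100 ∧ Dw ≤ crv PP (0 : Fin 9) 0 y) 1340 880 blB 1792 :=
  StpAll.cons (On.noLo (by norm_num) (by decide)) (StpAll.cons (On.noLo (by norm_num) (by decide)) (StpAll.nil (On.noLo (by norm_num) (by decide))))
theorem neB00 {x : ℝ} (hx : Rng 649613803 48318383 x) : StpAll (fun t t' a => On PP (smT (eng.v x) tK) tL tC x (0 : Fin 9) 0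
    (fun y X A L C => NearP (((3 : ℕ) : ℝ) / ((10 : ℕ) : ℝ)) x (mT.v x) 0 y X A L C ((a : ℝ) / 1000)) fun y =>
      t ≤ h0 * y ∧ h0 * y ≤ t' + 3 / 100 ∧ 0 < crv PP (0 : Fin 9) 0 y ∧ crv PP (0 : Fin 9) 0 y ≤ 2 / 5) 1340 880 blB 1792 :=
  StpAll.cons (On.noLo (by norm_num) (by decide)) (StpAll.cons (On.noLo (by norm_num) (by decide)) (StpAll.nil (On.noLo (by norm_num) (by decide))))
theorem hiB01 {x : ℝ} (hx : Rng 649613803 48318383 x) : StpAll (fun t t' a => On PP (smT (eng.v x) tK) tL tC x (0 : Fin 9) 1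
    (fun y X A L C => HighP (((3 : ℕ) : ℝ) / ((10 : ℕ) : ℝ)) x (mT.v x) 1 y X A L C ((a : ℝ) / 1000) Dw) fun y =>
      t ≤ h0 * y ∧ h0 * y ≤ t' + 3 / 100) 1700 800 hlB 1040 :=
  StpAll.cons (On.stH (fun y hy => (atB01 hy).amp eng) cB_h0_01 hx (fun _ => rfl) (by decide)) (StpAll.cons (On.stH (fun y hy => (atB01 hy).amp eng) cB_h1_01 hx (fun _ => rfl) (by decide)) (StpAll.nil (On.noLo (by norm_num) (by decide))))
theorem faB01 {x : ℝ} (hx : Rng 649613803 48318383 x) : StpAll (fun t t' a => On PP (smT (eng.v x) tK) tL tC x (0 : Fin 9) 1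
    (fun y X A L C => FarP (((3 : ℕ) : ℝ) / ((10 : ℕ) : ℝ)) x (mT.v x) 1 y X A L C ((a : ℝ) / 1000) Dw) fun y =>
      t ≤ h0 * y ∧ h0 * y ≤ t' + 3 / 100 ∧ Dw ≤ crv PP (0 : Fin 9) 1 y) 1340 880 blB 1792 :=
  StpAll.cons (On.noLo (by norm_num) (by decide)) (StpAll.cons (On.noLo (by norm_num) (by decide)) (StpAll.nil (On.noLo (by norm_num) (by decide))))
theorem neB01 {x : ℝ} (hx : Rng 649613803 48318383 x) : StpAll (fun t t' a => On PP (smT (eng.v x) tK) tL tC x (0 : Fin 9) 1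
    (fun y X A L C => NearP (((3 : ℕ) : ℝ) / ((10 : ℕ) : ℝ)) x (mT.v x) 1 y X A L C ((a : ℝ) / 1000)) fun y =>
      t ≤ h0 * y ∧ h0 * y ≤ t' + 3 / 100 ∧ 0 < crv PP (0 : Fin 9) 1 y ∧ crv PP (0 : Fin 9) 1 y ≤ 2 / 5) 1340 880 blB 1792 :=
  StpAll.cons (On.noLo (by norm_num) (by decide)) (StpAll.cons (On.noLo (by norm_num) (by decide)) (StpAll.nil (On.noLo (by norm_num) (by decide))))
theorem hiB02 {x : ℝ} (hx : Rng 649613803 48318383 x) : StpAll (fun t t' a => On PP (smT (eng.v x) tK) tL tC x (0 : Fin 9) 2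
    (fun y X A L C => HighP (((3 : ℕ) : ℝ) / ((10 : ℕ) : ℝ)) x (mT.v x) 2 y X A L C ((a : ℝ) / 1000) Dw) fun y =>
      t ≤ h0 * y ∧ h0 * y ≤ t' + 3 / 100) 1700 800 hlB 1040 :=
  StpAll.cons (On.noHi (by decide)) (StpAll.cons (On.stHc (covB02.amp eng) cB_h1_02 hx (fun _ => rfl) (by decide)) (StpAll.nil (On.stHc (covB02.amp eng) cB_h2_02 hx (fun _ => rfl) (by decide))))
theorem faB02 {x : ℝ} (hx : Rng 649613803 48318383 x) : StpAll (fun t t' a => On PP (smT (eng.v x) tK) tL tC x (0 : Fin 9) 2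
    (fun y X A L C => FarP (((3 : ℕ) : ℝ) / ((10 : ℕ) : ℝ)) x (mT.v x) 2 y X A L C ((a : ℝ) / 1000) Dw) fun y =>
      t ≤ h0 * y ∧ h0 * y ≤ t' + 3 / 100 ∧ Dw ≤ crv PP (0 : Fin 9) 2 y) 1340 880 blB 1792 :=
  StpAll.cons (On.stRc (covB02.amp eng) cB_r0_02 hx (fun _ => rfl) (by decide)) (StpAll.cons (On.stRc (covB02.amp eng) cB_r1_02 hx (fun _ => rfl) (by decide)) (StpAll.nil (On.stRc (covB02.amp eng) cB_r2_02 hx (fun _ => rfl) (by decide))))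
theorem neB02 {x : ℝ} (hx : Rng 649613803 48318383 x) : StpAll (fun t t' a => On PP (smT (eng.v x) tK) tL tC x (0 : Fin 9) 2
    (fun y X A L C => NearP (((3 : ℕ) : ℝ) / ((10 : ℕ) : ℝ)) x (mT.v x) 2 y X A L C ((a : ℝ) / 1000)) fun y =>
      t ≤ h0 * y ∧ h0 * y ≤ t' + 3 / 100 ∧ 0 < crv PP (0 : Fin 9) 2 y ∧ crv PP (0 : Fin 9) 2 y ≤ 2 / 5) 1340 880 blB 1792 :=
  StpAll.cons (On.stN0 (covB02.amp eng) (fun _ => rfl) cB_n0_02 cB_n0_02z hx (fun _ => rfl)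
    (fun p p0 p1 => ⟨by
    show eng.v x * _ = _ * (eng.v x * _)
    rw [show ndB0q2.K.v p x = _ from quK p0 p1]
    ring, quL p0 p1, by
    show esg.v x * _ = _ * (esg.v x * _)
    rw [show cd0q2.v p x = _ from quC p0 p1]
    ring⟩) (by decide)) (StpAll.cons (On.stN0 (covB02.amp eng) (fun _ => rfl) cB_n1_02 cB_n1_02z hx (fun _ => rfl)
    (fun p p0 p1 => ⟨by
    show eng.v x * _ = _ * (eng.v x * _)
    rw [show ndB0q2.K.v p x = _ from quK p0 p1]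
    ring, quL p0 p1, by
    show esg.v x * _ = _ * (esg.v x * _)
    rw [show cd0q2.v p x = _ from quC p0 p1]
    ring⟩) (by decide)) (StpAll.nil (On.stN0 (covB02.amp eng) (fun _ => rfl) cB_n2_02 cB_n2_02z hx (fun _ => rfl)
    (fun p p0 p1 => ⟨by
    show eng.v x * _ = _ * (eng.v x * _)
    rw [show ndB0q2.K.v p x = _ from quK p0 p1]
    ring, quL p0 p1, by
    show esg.v x * _ = _ * (esg.v x * _)
    rw [show cd0q2.v p x = _ from quC p0 p1]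
    ring⟩) (by decide))))
theorem hiB03 {x : ℝ} (hx : Rng 649613803 48318383 x) : StpAll (fun t t' a => On PP (smT (eng.v x) tK) tL tC x (0 : Fin 9) 3
    (fun y X A L C => HighP (((3 : ℕ) : ℝ) / ((10 : ℕ) : ℝ)) x (mT.v x) 3 y X A L C ((a : ℝ) / 1000) Dw) fun y =>
      t ≤ h0 * y ∧ h0 * y ≤ t' + 3 / 100) 1700 800 hlB 1040 :=
  StpAll.cons (On.no03) (StpAll.cons (On.no03) (StpAll.nil (On.no03)))
theorem faB03 {x : ℝ} (hx : Rng 649613803 48318383 x) : StpAll (fun t t' a => On PP (smT (eng.v x) tK) tL tC x (0 : Fin 9) 3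
    (fun y X A L C => FarP (((3 : ℕ) : ℝ) / ((10 : ℕ) : ℝ)) x (mT.v x) 3 y X A L C ((a : ℝ) / 1000) Dw) fun y =>
      t ≤ h0 * y ∧ h0 * y ≤ t' + 3 / 100 ∧ Dw ≤ crv PP (0 : Fin 9) 3 y) 1340 880 blB 1792 :=
  StpAll.cons (On.no03) (StpAll.cons (On.no03) (StpAll.nil (On.no03)))
theorem neB03 {x : ℝ} (hx : Rng 649613803 48318383 x) : StpAll (fun t t' a => On PP (smT (eng.v x) tK) tL tC x (0 : Fin 9) 3
    (fun y X A L C => NearP (((3 : ℕ) : ℝ) / ((10 : ℕ) : ℝ)) x (mT.v x) 3 y X A L C ((a : ℝ) / 1000)) fun y =>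
      t ≤ h0 * y ∧ h0 * y ≤ t' + 3 / 100 ∧ 0 < crv PP (0 : Fin 9) 3 y ∧ crv PP (0 : Fin 9) 3 y ≤ 2 / 5) 1340 880 blB 1792 :=
  StpAll.cons (On.no03) (StpAll.cons (On.no03) (StpAll.nil (On.no03)))
theorem hiB10 {x : ℝ} (hx : Rng 649613803 48318383 x) : StpAll (fun t t' a => On PP (smT (eng.v x) tK) tL tC x (1 : Fin 9) 0
    (fun y X A L C => HighP (((3 : ℕ) : ℝ) / ((10 : ℕ) : ℝ)) x (mT.v x) 0 y X A L C ((a : ℝ) / 1000) Dw) fun y =>
      t ≤ h0 * y ∧ h0 * y ≤ t' + 3 / 100) 1700 800 hlB 1040 :=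
  StpAll.cons (On.noLo (by norm_num) (by decide)) (StpAll.cons (On.noLo (by norm_num) (by decide)) (StpAll.nil (On.noLo (by norm_num) (by decide))))
theorem faB10 {x : ℝ} (hx : Rng 649613803 48318383 x) : StpAll (fun t t' a => On PP (smT (eng.v x) tK) tL tC x (1 : Fin 9) 0
    (fun y X A L C => FarP (((3 : ℕ) : ℝ) / ((10 : ℕ) : ℝ)) x (mT.v x) 0 y X A L C ((a : ℝ) / 1000) Dw) fun y =>
      t ≤ h0 * y ∧ h0 * y ≤ t' + 3 / 100 ∧ Dw ≤ crv PP (1 : Fin 9) 0 y) 1340 880 blB 1792 :=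
  StpAll.cons (On.noLo (by norm_num) (by decide)) (StpAll.cons (On.noLo (by norm_num) (by decide)) (StpAll.nil (On.noLo (by norm_num) (by decide))))
theorem neB10 {x : ℝ} (hx : Rng 649613803 48318383 x) : StpAll (fun t t' a => On PP (smT (eng.v x) tK) tL tC x (1 : Fin 9) 0
    (fun y X A L C => NearP (((3 : ℕ) : ℝ) / ((10 : ℕ) : ℝ)) x (mT.v x) 0 y X A L C ((a : ℝ) / 1000)) fun y =>
      t ≤ h0 * y ∧ h0 * y ≤ t' + 3 / 100 ∧ 0 < crv PP (1 : Fin 9) 0 y ∧ crv PP (1 : Fin 9) 0 y ≤ 2 / 5) 1340 880 blB 1792 :=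
  StpAll.cons (On.noLo (by norm_num) (by decide)) (StpAll.cons (On.noLo (by norm_num) (by decide)) (StpAll.nil (On.noLo (by norm_num) (by decide))))
theorem hiB11 {x : ℝ} (hx : Rng 649613803 48318383 x) : StpAll (fun t t' a => On PP (smT (eng.v x) tK) tL tC x (1 : Fin 9) 1
    (fun y X A L C => HighP (((3 : ℕ) : ℝ) / ((10 : ℕ) : ℝ)) x (mT.v x) 1 y X A L C ((a : ℝ) / 1000) Dw) fun y =>
      t ≤ h0 * y ∧ h0 * y ≤ t' + 3 / 100) 1700 800 hlB 1040 :=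
  StpAll.cons (On.stH (fun y hy => (atB11 hy).amp eng) cB_h0_11 hx (fun _ => rfl) (by decide)) (StpAll.cons (On.stH (fun y hy => (atB11 hy).amp eng) cB_h1_11 hx (fun _ => rfl) (by decide)) (StpAll.nil (On.noLo (by norm_num) (by decide))))
theorem faB11 {x : ℝ} (hx : Rng 649613803 48318383 x) : StpAll (fun t t' a => On PP (smT (eng.v x) tK) tL tC x (1 : Fin 9) 1
    (fun y X A L C => FarP (((3 : ℕ) : ℝ) / ((10 : ℕ) : ℝ)) x (mT.v x) 1 y X A L C ((a : ℝ) / 1000) Dw) fun y =>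
      t ≤ h0 * y ∧ h0 * y ≤ t' + 3 / 100 ∧ Dw ≤ crv PP (1 : Fin 9) 1 y) 1340 880 blB 1792 :=
  StpAll.cons (On.noLo (by norm_num) (by decide)) (StpAll.cons (On.noLo (by norm_num) (by decide)) (StpAll.nil (On.noLo (by norm_num) (by decide))))
theorem neB11 {x : ℝ} (hx : Rng 649613803 48318383 x) : StpAll (fun t t' a => On PP (smT (eng.v x) tK) tL tC x (1 : Fin 9) 1
    (fun y X A L C => NearP (((3 : ℕ) : ℝ) / ((10 : ℕ) : ℝ)) x (mT.v x) 1 y X A L C ((a : ℝ) / 1000)) fun y =>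
      t ≤ h0 * y ∧ h0 * y ≤ t' + 3 / 100 ∧ 0 < crv PP (1 : Fin 9) 1 y ∧ crv PP (1 : Fin 9) 1 y ≤ 2 / 5) 1340 880 blB 1792 :=
  StpAll.cons (On.noLo (by norm_num) (by decide)) (StpAll.cons (On.noLo (by norm_num) (by decide)) (StpAll.nil (On.noLo (by norm_num) (by decide))))
theorem hiB12 {x : ℝ} (hx : Rng 649613803 48318383 x) : StpAll (fun t t' a => On PP (smT (eng.v x) tK) tL tC x (1 : Fin 9) 2
    (fun y X A L C => HighP (((3 : ℕ) : ℝ) / ((10 : ℕ) : ℝ)) x (mT.v x) 2 y X A L C ((a : ℝ) / 1000) Dw) fun y =>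
      t ≤ h0 * y ∧ h0 * y ≤ t' + 3 / 100) 1700 800 hlB 1040 :=
  StpAll.cons (On.noHi (by decide)) (StpAll.cons (On.stH (fun y hy => (atB12 hy).amp eng) cB_h1_12 hx (fun _ => rfl) (by decide)) (StpAll.nil (On.stH (fun y hy => (atB12 hy).amp eng) cB_h2_12 hx (fun _ => rfl) (by decide))))
theorem faB12 {x : ℝ} (hx : Rng 649613803 48318383 x) : StpAll (fun t t' a => On PP (smT (eng.v x) tK) tL tC x (1 : Fin 9) 2
    (fun y X A L C => FarP (((3 : ℕ) : ℝ) / ((10 : ℕ) : ℝ)) x (mT.v x) 2 y X A L C ((a : ℝ) / 1000) Dw) fun y =>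
      t ≤ h0 * y ∧ h0 * y ≤ t' + 3 / 100 ∧ Dw ≤ crv PP (1 : Fin 9) 2 y) 1340 880 blB 1792 :=
  StpAll.cons (On.stR (fun y hy => (atB12 hy).amp eng) cB_r0_12 hx (fun _ => rfl) (by decide)) (StpAll.cons (On.stR (fun y hy => (atB12 hy).amp eng) cB_r1_12 hx (fun _ => rfl) (by decide)) (StpAll.nil (On.stR (fun y hy => (atB12 hy).amp eng) cB_r2_12 hx (fun _ => rfl) (by decide))))
theorem neB12 {x : ℝ} (hx : Rng 649613803 48318383 x) : StpAll (fun t t' a => On PP (smT (eng.v x) tK) tL tC x (1 : Fin 9) 2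
    (fun y X A L C => NearP (((3 : ℕ) : ℝ) / ((10 : ℕ) : ℝ)) x (mT.v x) 2 y X A L C ((a : ℝ) / 1000)) fun y =>
      t ≤ h0 * y ∧ h0 * y ≤ t' + 3 / 100 ∧ 0 < crv PP (1 : Fin 9) 2 y ∧ crv PP (1 : Fin 9) 2 y ≤ 2 / 5) 1340 880 blB 1792 :=
  StpAll.cons (On.stN (fun y hy => (atB12 hy).amp eng) cB_n0_12 hx (fun _ => rfl) (by decide)) (StpAll.cons (On.stN (fun y hy => (atB12 hy).amp eng) cB_n1_12 hx (fun _ => rfl) (by decide)) (StpAll.nil (On.stN (fun y hy => (atB12 hy).amp eng) cB_n2_12 hx (fun _ => rfl) (by decide))))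
theorem hiB13 {x : ℝ} (hx : Rng 649613803 48318383 x) : StpAll (fun t t' a => On PP (smT (eng.v x) tK) tL tC x (1 : Fin 9) 3
    (fun y X A L C => HighP (((3 : ℕ) : ℝ) / ((10 : ℕ) : ℝ)) x (mT.v x) 3 y X A L C ((a : ℝ) / 1000) Dw) fun y =>
      t ≤ h0 * y ∧ h0 * y ≤ t' + 3 / 100) 1700 800 hlB 1040 :=
  StpAll.cons (On.noHi (by decide)) (StpAll.cons (On.noHi (by decide)) (StpAll.nil (On.stH (fun y hy => (atB13 hy).amp eng) cB_h2_13 hx (fun _ => rfl) (by decide))))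
theorem faB13 {x : ℝ} (hx : Rng 649613803 48318383 x) : StpAll (fun t t' a => On PP (smT (eng.v x) tK) tL tC x (1 : Fin 9) 3
    (fun y X A L C => FarP (((3 : ℕ) : ℝ) / ((10 : ℕ) : ℝ)) x (mT.v x) 3 y X A L C ((a : ℝ) / 1000) Dw) fun y =>
      t ≤ h0 * y ∧ h0 * y ≤ t' + 3 / 100 ∧ Dw ≤ crv PP (1 : Fin 9) 3 y) 1340 880 blB 1792 :=
  StpAll.cons (On.noHi' (by decide)) (StpAll.cons (On.noHi' (by decide)) (StpAll.nil (On.stR (fun y hy => (atB13 hy).amp eng) cB_r2_13 hx (fun _ => rfl) (by decide))))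
theorem neB13 {x : ℝ} (hx : Rng 649613803 48318383 x) : StpAll (fun t t' a => On PP (smT (eng.v x) tK) tL tC x (1 : Fin 9) 3
    (fun y X A L C => NearP (((3 : ℕ) : ℝ) / ((10 : ℕ) : ℝ)) x (mT.v x) 3 y X A L C ((a : ℝ) / 1000)) fun y =>
      t ≤ h0 * y ∧ h0 * y ≤ t' + 3 / 100 ∧ 0 < crv PP (1 : Fin 9) 3 y ∧ crv PP (1 : Fin 9) 3 y ≤ 2 / 5) 1340 880 blB 1792 :=
  StpAll.cons (On.noHi' (by decide)) (StpAll.cons (On.noHi' (by decide)) (StpAll.nil (On.stN (fun y hy => (atB13 hy).amp eng) cB_n2_13 hx (fun _ => rfl) (by decide))))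
theorem hiB20 {x : ℝ} (hx : Rng 649613803 48318383 x) : StpAll (fun t t' a => On PP (smT (eng.v x) tK) tL tC x (2 : Fin 9) 0
    (fun y X A L C => HighP (((3 : ℕ) : ℝ) / ((10 : ℕ) : ℝ)) x (mT.v x) 0 y X A L C ((a : ℝ) / 1000) Dw) fun y =>
      t ≤ h0 * y ∧ h0 * y ≤ t' + 3 / 100) 1700 800 hlB 1040 :=
  StpAll.cons (On.noLo (by norm_num) (by decide)) (StpAll.cons (On.noLo (by norm_num) (by decide)) (StpAll.nil (On.noLo (by norm_num) (by decide))))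
theorem faB20 {x : ℝ} (hx : Rng 649613803 48318383 x) : StpAll (fun t t' a => On PP (smT (eng.v x) tK) tL tC x (2 : Fin 9) 0
    (fun y X A L C => FarP (((3 : ℕ) : ℝ) / ((10 : ℕ) : ℝ)) x (mT.v x) 0 y X A L C ((a : ℝ) / 1000) Dw) fun y =>
      t ≤ h0 * y ∧ h0 * y ≤ t' + 3 / 100 ∧ Dw ≤ crv PP (2 : Fin 9) 0 y) 1340 880 blB 1792 :=
  StpAll.cons (On.noLo (by norm_num) (by decide)) (StpAll.cons (On.noLo (by norm_num) (by decide)) (StpAll.nil (On.noLo (by norm_num) (by decide))))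
theorem neB20 {x : ℝ} (hx : Rng 649613803 48318383 x) : StpAll (fun t t' a => On PP (smT (eng.v x) tK) tL tC x (2 : Fin 9) 0
    (fun y X A L C => NearP (((3 : ℕ) : ℝ) / ((10 : ℕ) : ℝ)) x (mT.v x) 0 y X A L C ((a : ℝ) / 1000)) fun y =>
      t ≤ h0 * y ∧ h0 * y ≤ t' + 3 / 100 ∧ 0 < crv PP (2 : Fin 9) 0 y ∧ crv PP (2 : Fin 9) 0 y ≤ 2 / 5) 1340 880 blB 1792 :=
  StpAll.cons (On.noLo (by norm_num) (by decide)) (StpAll.cons (On.noLo (by norm_num) (by decide)) (StpAll.nil (On.noLo (by norm_num) (by decide))))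
theorem hiB21 {x : ℝ} (hx : Rng 649613803 48318383 x) : StpAll (fun t t' a => On PP (smT (eng.v x) tK) tL tC x (2 : Fin 9) 1
    (fun y X A L C => HighP (((3 : ℕ) : ℝ) / ((10 : ℕ) : ℝ)) x (mT.v x) 1 y X A L C ((a : ℝ) / 1000) Dw) fun y =>
      t ≤ h0 * y ∧ h0 * y ≤ t' + 3 / 100) 1700 800 hlB 1040 :=
  StpAll.cons (On.stH (fun y hy => (atB21 hy).amp eng) cB_h0_21 hx (fun _ => rfl) (by decide)) (StpAll.cons (On.stH (fun y hy => (atB21 hy).amp eng) cB_h1_21 hx (fun _ => rfl) (by decide)) (StpAll.nil (On.noLo (by norm_num) (by decide))))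
theorem faB21 {x : ℝ} (hx : Rng 649613803 48318383 x) : StpAll (fun t t' a => On PP (smT (eng.v x) tK) tL tC x (2 : Fin 9) 1
    (fun y X A L C => FarP (((3 : ℕ) : ℝ) / ((10 : ℕ) : ℝ)) x (mT.v x) 1 y X A L C ((a : ℝ) / 1000) Dw) fun y =>
      t ≤ h0 * y ∧ h0 * y ≤ t' + 3 / 100 ∧ Dw ≤ crv PP (2 : Fin 9) 1 y) 1340 880 blB 1792 :=
  StpAll.cons (On.noLo (by norm_num) (by decide)) (StpAll.cons (On.noLo (by norm_num) (by decide)) (StpAll.nil (On.noLo (by norm_num) (by decide))))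
theorem neB21 {x : ℝ} (hx : Rng 649613803 48318383 x) : StpAll (fun t t' a => On PP (smT (eng.v x) tK) tL tC x (2 : Fin 9) 1
    (fun y X A L C => NearP (((3 : ℕ) : ℝ) / ((10 : ℕ) : ℝ)) x (mT.v x) 1 y X A L C ((a : ℝ) / 1000)) fun y =>
      t ≤ h0 * y ∧ h0 * y ≤ t' + 3 / 100 ∧ 0 < crv PP (2 : Fin 9) 1 y ∧ crv PP (2 : Fin 9) 1 y ≤ 2 / 5) 1340 880 blB 1792 :=
  StpAll.cons (On.noLo (by norm_num) (by decide)) (StpAll.cons (On.noLo (by norm_num) (by decide)) (StpAll.nil (On.noLo (by norm_num) (by decide))))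
theorem hiB22 {x : ℝ} (hx : Rng 649613803 48318383 x) : StpAll (fun t t' a => On PP (smT (eng.v x) tK) tL tC x (2 : Fin 9) 2
    (fun y X A L C => HighP (((3 : ℕ) : ℝ) / ((10 : ℕ) : ℝ)) x (mT.v x) 2 y X A L C ((a : ℝ) / 1000) Dw) fun y =>
      t ≤ h0 * y ∧ h0 * y ≤ t' + 3 / 100) 1700 800 hlB 1040 :=
  StpAll.cons (On.noHi (by decide)) (StpAll.cons (On.stH (fun y hy => (atB22 hy).amp eng) cB_h1_22 hx (fun _ => rfl) (by decide)) (StpAll.nil (On.stH (fun y hy => (atB22 hy).amp eng) cB_h2_22 hx (fun _ => rfl) (by decide))))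
theorem faB22 {x : ℝ} (hx : Rng 649613803 48318383 x) : StpAll (fun t t' a => On PP (smT (eng.v x) tK) tL tC x (2 : Fin 9) 2
    (fun y X A L C => FarP (((3 : ℕ) : ℝ) / ((10 : ℕ) : ℝ)) x (mT.v x) 2 y X A L C ((a : ℝ) / 1000) Dw) fun y =>
      t ≤ h0 * y ∧ h0 * y ≤ t' + 3 / 100 ∧ Dw ≤ crv PP (2 : Fin 9) 2 y) 1340 880 blB 1792 :=
  StpAll.cons (On.stR (fun y hy => (atB22 hy).amp eng) cB_r0_22 hx (fun _ => rfl) (by decide)) (StpAll.cons (On.stR (fun y hy => (atB22 hy).amp eng) cB_r1_22 hx (fun _ => rfl) (by decide)) (StpAll.nil (On.stR (fun y hy => (atB22 hy).amp eng) cB_r2_22 hx (fun _ => rfl) (by decide))))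
theorem neB22 {x : ℝ} (hx : Rng 649613803 48318383 x) : StpAll (fun t t' a => On PP (smT (eng.v x) tK) tL tC x (2 : Fin 9) 2
    (fun y X A L C => NearP (((3 : ℕ) : ℝ) / ((10 : ℕ) : ℝ)) x (mT.v x) 2 y X A L C ((a : ℝ) / 1000)) fun y =>
      t ≤ h0 * y ∧ h0 * y ≤ t' + 3 / 100 ∧ 0 < crv PP (2 : Fin 9) 2 y ∧ crv PP (2 : Fin 9) 2 y ≤ 2 / 5) 1340 880 blB 1792 :=
  StpAll.cons (On.stN (fun y hy => (atB22 hy).amp eng) cB_n0_22 hx (fun _ => rfl) (by decide)) (StpAll.cons (On.stN (fun y hy => (atB22 hy).amp eng) cB_n1_22 hx (fun _ => rfl) (by decide)) (StpAll.nil (On.stN (fun y hy => (atB22 hy).amp eng) cB_n2_22 hx (fun _ => rfl) (by decide))))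
theorem hiB23 {x : ℝ} (hx : Rng 649613803 48318383 x) : StpAll (fun t t' a => On PP (smT (eng.v x) tK) tL tC x (2 : Fin 9) 3
    (fun y X A L C => HighP (((3 : ℕ) : ℝ) / ((10 : ℕ) : ℝ)) x (mT.v x) 3 y X A L C ((a : ℝ) / 1000) Dw) fun y =>
      t ≤ h0 * y ∧ h0 * y ≤ t' + 3 / 100) 1700 800 hlB 1040 :=
  StpAll.cons (On.noHi (by decide)) (StpAll.cons (On.noHi (by decide)) (StpAll.nil (On.stH (fun y hy => (atB23 hy).amp eng) cB_h2_23 hx (fun _ => rfl) (by decide))))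
theorem faB23 {x : ℝ} (hx : Rng 649613803 48318383 x) : StpAll (fun t t' a => On PP (smT (eng.v x) tK) tL tC x (2 : Fin 9) 3
    (fun y X A L C => FarP (((3 : ℕ) : ℝ) / ((10 : ℕ) : ℝ)) x (mT.v x) 3 y X A L C ((a : ℝ) / 1000) Dw) fun y =>
      t ≤ h0 * y ∧ h0 * y ≤ t' + 3 / 100 ∧ Dw ≤ crv PP (2 : Fin 9) 3 y) 1340 880 blB 1792 :=
  StpAll.cons (On.noHi' (by decide)) (StpAll.cons (On.noHi' (by decide)) (StpAll.nil (On.stR (fun y hy => (atB23 hy).amp eng) cB_r2_23 hx (fun _ => rfl) (by decide))))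
theorem neB23 {x : ℝ} (hx : Rng 649613803 48318383 x) : StpAll (fun t t' a => On PP (smT (eng.v x) tK) tL tC x (2 : Fin 9) 3
    (fun y X A L C => NearP (((3 : ℕ) : ℝ) / ((10 : ℕ) : ℝ)) x (mT.v x) 3 y X A L C ((a : ℝ) / 1000)) fun y =>
      t ≤ h0 * y ∧ h0 * y ≤ t' + 3 / 100 ∧ 0 < crv PP (2 : Fin 9) 3 y ∧ crv PP (2 : Fin 9) 3 y ≤ 2 / 5) 1340 880 blB 1792 :=
  StpAll.cons (On.noHi' (by decide)) (StpAll.cons (On.noHi' (by decide)) (StpAll.nil (On.stN (fun y hy => (atB23 hy).amp eng) cB_n2_23 hx (fun _ => rfl) (by decide))))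
theorem hiB30 {x : ℝ} (hx : Rng 649613803 48318383 x) : StpAll (fun t t' a => On PP (smT (eng.v x) tK) tL tC x (3 : Fin 9) 0
    (fun y X A L C => HighP (((3 : ℕ) : ℝ) / ((10 : ℕ) : ℝ)) x (mT.v x) 0 y X A L C ((a : ℝ) / 1000) Dw) fun y =>
      t ≤ h0 * y ∧ h0 * y ≤ t' + 3 / 100) 1700 800 hlB 1040 :=
  StpAll.cons (On.noLo (by norm_num) (by decide)) (StpAll.cons (On.noLo (by norm_num) (by decide)) (StpAll.nil (On.noLo (by norm_num) (by decide))))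
theorem faB30 {x : ℝ} (hx : Rng 649613803 48318383 x) : StpAll (fun t t' a => On PP (smT (eng.v x) tK) tL tC x (3 : Fin 9) 0
    (fun y X A L C => FarP (((3 : ℕ) : ℝ) / ((10 : ℕ) : ℝ)) x (mT.v x) 0 y X A L C ((a : ℝ) / 1000) Dw) fun y =>
      t ≤ h0 * y ∧ h0 * y ≤ t' + 3 / 100 ∧ Dw ≤ crv PP (3 : Fin 9) 0 y) 1340 880 blB 1792 :=
  StpAll.cons (On.noLo (by norm_num) (by decide)) (StpAll.cons (On.noLo (by norm_num) (by decide)) (StpAll.nil (On.noLo (by norm_num) (by decide))))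
theorem neB30 {x : ℝ} (hx : Rng 649613803 48318383 x) : StpAll (fun t t' a => On PP (smT (eng.v x) tK) tL tC x (3 : Fin 9) 0
    (fun y X A L C => NearP (((3 : ℕ) : ℝ) / ((10 : ℕ) : ℝ)) x (mT.v x) 0 y X A L C ((a : ℝ) / 1000)) fun y =>
      t ≤ h0 * y ∧ h0 * y ≤ t' + 3 / 100 ∧ 0 < crv PP (3 : Fin 9) 0 y ∧ crv PP (3 : Fin 9) 0 y ≤ 2 / 5) 1340 880 blB 1792 :=
  StpAll.cons (On.noLo (by norm_num) (by decide)) (StpAll.cons (On.noLo (by norm_num) (by decide)) (StpAll.nil (On.noLo (by norm_num) (by decide))))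
theorem hiB31 {x : ℝ} (hx : Rng 649613803 48318383 x) : StpAll (fun t t' a => On PP (smT (eng.v x) tK) tL tC x (3 : Fin 9) 1
    (fun y X A L C => HighP (((3 : ℕ) : ℝ) / ((10 : ℕ) : ℝ)) x (mT.v x) 1 y X A L C ((a : ℝ) / 1000) Dw) fun y =>
      t ≤ h0 * y ∧ h0 * y ≤ t' + 3 / 100) 1700 800 hlB 1040 :=
  StpAll.cons (On.stH (fun y hy => (atB31 hy).amp eng) cB_h0_31 hx (fun _ => rfl) (by decide)) (StpAll.cons (On.stH (fun y hy => (atB31 hy).amp eng) cB_h1_31 hx (fun _ => rfl) (by decide)) (StpAll.nil (On.noLo (by norm_num) (by decide))))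
theorem faB31 {x : ℝ} (hx : Rng 649613803 48318383 x) : StpAll (fun t t' a => On PP (smT (eng.v x) tK) tL tC x (3 : Fin 9) 1
    (fun y X A L C => FarP (((3 : ℕ) : ℝ) / ((10 : ℕ) : ℝ)) x (mT.v x) 1 y X A L C ((a : ℝ) / 1000) Dw) fun y =>
      t ≤ h0 * y ∧ h0 * y ≤ t' + 3 / 100 ∧ Dw ≤ crv PP (3 : Fin 9) 1 y) 1340 880 blB 1792 :=
  StpAll.cons (On.noLo (by norm_num) (by decide)) (StpAll.cons (On.noLo (by norm_num) (by decide)) (StpAll.nil (On.noLo (by norm_num) (by decide))))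
theorem neB31 {x : ℝ} (hx : Rng 649613803 48318383 x) : StpAll (fun t t' a => On PP (smT (eng.v x) tK) tL tC x (3 : Fin 9) 1
    (fun y X A L C => NearP (((3 : ℕ) : ℝ) / ((10 : ℕ) : ℝ)) x (mT.v x) 1 y X A L C ((a : ℝ) / 1000)) fun y =>
      t ≤ h0 * y ∧ h0 * y ≤ t' + 3 / 100 ∧ 0 < crv PP (3 : Fin 9) 1 y ∧ crv PP (3 : Fin 9) 1 y ≤ 2 / 5) 1340 880 blB 1792 :=
  StpAll.cons (On.noLo (by norm_num) (by decide)) (StpAll.cons (On.noLo (by norm_num) (by decide)) (StpAll.nil (On.noLo (by norm_num) (by decide))))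
theorem hiB32 {x : ℝ} (hx : Rng 649613803 48318383 x) : StpAll (fun t t' a => On PP (smT (eng.v x) tK) tL tC x (3 : Fin 9) 2
    (fun y X A L C => HighP (((3 : ℕ) : ℝ) / ((10 : ℕ) : ℝ)) x (mT.v x) 2 y X A L C ((a : ℝ) / 1000) Dw) fun y =>
      t ≤ h0 * y ∧ h0 * y ≤ t' + 3 / 100) 1700 800 hlB 1040 :=
  StpAll.cons (On.noHi (by decide)) (StpAll.cons (On.stH (fun y hy => (atB32 hy).amp eng) cB_h1_32 hx (fun _ => rfl) (by decide)) (StpAll.nil (On.stH (fun y hy => (atB32 hy).amp eng) cB_h2_32 hx (fun _ => rfl) (by decide))))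
theorem faB32 {x : ℝ} (hx : Rng 649613803 48318383 x) : StpAll (fun t t' a => On PP (smT (eng.v x) tK) tL tC x (3 : Fin 9) 2
    (fun y X A L C => FarP (((3 : ℕ) : ℝ) / ((10 : ℕ) : ℝ)) x (mT.v x) 2 y X A L C ((a : ℝ) / 1000) Dw) fun y =>
      t ≤ h0 * y ∧ h0 * y ≤ t' + 3 / 100 ∧ Dw ≤ crv PP (3 : Fin 9) 2 y) 1340 880 blB 1792 :=
  StpAll.cons (On.stR (fun y hy => (atB32 hy).amp eng) cB_r0_32 hx (fun _ => rfl) (by decide)) (StpAll.cons (On.stR (fun y hy => (atB32 hy).amp eng) cB_r1_32 hx (fun _ => rfl) (by decide)) (StpAll.nil (On.stR (fun y hy => (atB32 hy).amp eng) cB_r2_32 hx (fun _ => rfl) (by decide))))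
theorem neB32 {x : ℝ} (hx : Rng 649613803 48318383 x) : StpAll (fun t t' a => On PP (smT (eng.v x) tK) tL tC x (3 : Fin 9) 2
    (fun y X A L C => NearP (((3 : ℕ) : ℝ) / ((10 : ℕ) : ℝ)) x (mT.v x) 2 y X A L C ((a : ℝ) / 1000)) fun y =>
      t ≤ h0 * y ∧ h0 * y ≤ t' + 3 / 100 ∧ 0 < crv PP (3 : Fin 9) 2 y ∧ crv PP (3 : Fin 9) 2 y ≤ 2 / 5) 1340 880 blB 1792 :=
  StpAll.cons (On.stN (fun y hy => (atB32 hy).amp eng) cB_n0_32 hx (fun _ => rfl) (by decide)) (StpAll.cons (On.stN (fun y hy => (atB32 hy).amp eng) cB_n1_32 hx (fun _ => rfl) (by decide)) (StpAll.nil (On.stN (fun y hy => (atB32 hy).amp eng) cB_n2_32 hx (fun _ => rfl) (by decide))))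
theorem hiB33 {x : ℝ} (hx : Rng 649613803 48318383 x) : StpAll (fun t t' a => On PP (smT (eng.v x) tK) tL tC x (3 : Fin 9) 3
    (fun y X A L C => HighP (((3 : ℕ) : ℝ) / ((10 : ℕ) : ℝ)) x (mT.v x) 3 y X A L C ((a : ℝ) / 1000) Dw) fun y =>
      t ≤ h0 * y ∧ h0 * y ≤ t' + 3 / 100) 1700 800 hlB 1040 :=
  StpAll.cons (On.noHi (by decide)) (StpAll.cons (On.noHi (by decide)) (StpAll.nil (On.stH (fun y hy => (atB33 hy).amp eng) cB_h2_33 hx (fun _ => rfl) (by decide))))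
theorem faB33 {x : ℝ} (hx : Rng 649613803 48318383 x) : StpAll (fun t t' a => On PP (smT (eng.v x) tK) tL tC x (3 : Fin 9) 3
    (fun y X A L C => FarP (((3 : ℕ) : ℝ) / ((10 : ℕ) : ℝ)) x (mT.v x) 3 y X A L C ((a : ℝ) / 1000) Dw) fun y =>
      t ≤ h0 * y ∧ h0 * y ≤ t' + 3 / 100 ∧ Dw ≤ crv PP (3 : Fin 9) 3 y) 1340 880 blB 1792 :=
  StpAll.cons (On.noHi' (by decide)) (StpAll.cons (On.noHi' (by decide)) (StpAll.nil (On.stR (fun y hy => (atB33 hy).amp eng) cB_r2_33 hx (fun _ => rfl) (by decide))))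
theorem neB33 {x : ℝ} (hx : Rng 649613803 48318383 x) : StpAll (fun t t' a => On PP (smT (eng.v x) tK) tL tC x (3 : Fin 9) 3
    (fun y X A L C => NearP (((3 : ℕ) : ℝ) / ((10 : ℕ) : ℝ)) x (mT.v x) 3 y X A L C ((a : ℝ) / 1000)) fun y =>
      t ≤ h0 * y ∧ h0 * y ≤ t' + 3 / 100 ∧ 0 < crv PP (3 : Fin 9) 3 y ∧ crv PP (3 : Fin 9) 3 y ≤ 2 / 5) 1340 880 blB 1792 :=
  StpAll.cons (On.noHi' (by decide)) (StpAll.cons (On.noHi' (by decide)) (StpAll.nil (On.stN (fun y hy => (atB33 hy).amp eng) cB_n2_33 hx (fun _ => rfl) (by decide))))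
theorem hiB40 {x : ℝ} (hx : Rng 649613803 48318383 x) : StpAll (fun t t' a => On PP (smT (eng.v x) tK) tL tC x (4 : Fin 9) 0
    (fun y X A L C => HighP (((3 : ℕ) : ℝ) / ((10 : ℕ) : ℝ)) x (mT.v x) 0 y X A L C ((a : ℝ) / 1000) Dw) fun y =>
      t ≤ h0 * y ∧ h0 * y ≤ t' + 3 / 100) 1700 800 hlB 1040 :=
  StpAll.cons (On.noLo (by norm_num) (by decide)) (StpAll.cons (On.noLo (by norm_num) (by decide)) (StpAll.nil (On.noLo (by norm_num) (by decide))))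
theorem faB40 {x : ℝ} (hx : Rng 649613803 48318383 x) : StpAll (fun t t' a => On PP (smT (eng.v x) tK) tL tC x (4 : Fin 9) 0
    (fun y X A L C => FarP (((3 : ℕ) : ℝ) / ((10 : ℕ) : ℝ)) x (mT.v x) 0 y X A L C ((a : ℝ) / 1000) Dw) fun y =>
      t ≤ h0 * y ∧ h0 * y ≤ t' + 3 / 100 ∧ Dw ≤ crv PP (4 : Fin 9) 0 y) 1340 880 blB 1792 :=
  StpAll.cons (On.noLo (by norm_num) (by decide)) (StpAll.cons (On.noLo (by norm_num) (by decide)) (StpAll.nil (On.noLo (by norm_num) (by decide))))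
theorem neB40 {x : ℝ} (hx : Rng 649613803 48318383 x) : StpAll (fun t t' a => On PP (smT (eng.v x) tK) tL tC x (4 : Fin 9) 0
    (fun y X A L C => NearP (((3 : ℕ) : ℝ) / ((10 : ℕ) : ℝ)) x (mT.v x) 0 y X A L C ((a : ℝ) / 1000)) fun y =>
      t ≤ h0 * y ∧ h0 * y ≤ t' + 3 / 100 ∧ 0 < crv PP (4 : Fin 9) 0 y ∧ crv PP (4 : Fin 9) 0 y ≤ 2 / 5) 1340 880 blB 1792 :=
  StpAll.cons (On.noLo (by norm_num) (by decide)) (StpAll.cons (On.noLo (by norm_num) (by decide)) (StpAll.nil (On.noLo (by norm_num) (by decide))))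
theorem hiB41 {x : ℝ} (hx : Rng 649613803 48318383 x) : StpAll (fun t t' a => On PP (smT (eng.v x) tK) tL tC x (4 : Fin 9) 1
    (fun y X A L C => HighP (((3 : ℕ) : ℝ) / ((10 : ℕ) : ℝ)) x (mT.v x) 1 y X A L C ((a : ℝ) / 1000) Dw) fun y =>
      t ≤ h0 * y ∧ h0 * y ≤ t' + 3 / 100) 1700 800 hlB 1040 :=
  StpAll.cons (On.stH (fun y hy => (atB41 hy).amp eng) cB_h0_41 hx (fun _ => rfl) (by decide)) (StpAll.cons (On.stH (fun y hy => (atB41 hy).amp eng) cB_h1_41 hx (fun _ => rfl) (by decide)) (StpAll.nil (On.noLo (by norm_num) (by decide))))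
theorem faB41 {x : ℝ} (hx : Rng 649613803 48318383 x) : StpAll (fun t t' a => On PP (smT (eng.v x) tK) tL tC x (4 : Fin 9) 1
    (fun y X A L C => FarP (((3 : ℕ) : ℝ) / ((10 : ℕ) : ℝ)) x (mT.v x) 1 y X A L C ((a : ℝ) / 1000) Dw) fun y =>
      t ≤ h0 * y ∧ h0 * y ≤ t' + 3 / 100 ∧ Dw ≤ crv PP (4 : Fin 9) 1 y) 1340 880 blB 1792 :=
  StpAll.cons (On.noLo (by norm_num) (by decide)) (StpAll.cons (On.noLo (by norm_num) (by decide)) (StpAll.nil (On.noLo (by norm_num) (by decide))))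
theorem neB41 {x : ℝ} (hx : Rng 649613803 48318383 x) : StpAll (fun t t' a => On PP (smT (eng.v x) tK) tL tC x (4 : Fin 9) 1
    (fun y X A L C => NearP (((3 : ℕ) : ℝ) / ((10 : ℕ) : ℝ)) x (mT.v x) 1 y X A L C ((a : ℝ) / 1000)) fun y =>
      t ≤ h0 * y ∧ h0 * y ≤ t' + 3 / 100 ∧ 0 < crv PP (4 : Fin 9) 1 y ∧ crv PP (4 : Fin 9) 1 y ≤ 2 / 5) 1340 880 blB 1792 :=
  StpAll.cons (On.noLo (by norm_num) (by decide)) (StpAll.cons (On.noLo (by norm_num) (by decide)) (StpAll.nil (On.noLo (by norm_num) (by decide))))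
theorem hiB42 {x : ℝ} (hx : Rng 649613803 48318383 x) : StpAll (fun t t' a => On PP (smT (eng.v x) tK) tL tC x (4 : Fin 9) 2
    (fun y X A L C => HighP (((3 : ℕ) : ℝ) / ((10 : ℕ) : ℝ)) x (mT.v x) 2 y X A L C ((a : ℝ) / 1000) Dw) fun y =>
      t ≤ h0 * y ∧ h0 * y ≤ t' + 3 / 100) 1700 800 hlB 1040 :=
  StpAll.cons (On.noHi (by decide)) (StpAll.cons (On.stH (fun y hy => (atB42 hy).amp eng) cB_h1_42 hx (fun _ => rfl) (by decide)) (StpAll.nil (On.stH (fun y hy => (atB42 hy).amp eng) cB_h2_42 hx (fun _ => rfl) (by decide))))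
theorem faB42 {x : ℝ} (hx : Rng 649613803 48318383 x) : StpAll (fun t t' a => On PP (smT (eng.v x) tK) tL tC x (4 : Fin 9) 2
    (fun y X A L C => FarP (((3 : ℕ) : ℝ) / ((10 : ℕ) : ℝ)) x (mT.v x) 2 y X A L C ((a : ℝ) / 1000) Dw) fun y =>
      t ≤ h0 * y ∧ h0 * y ≤ t' + 3 / 100 ∧ Dw ≤ crv PP (4 : Fin 9) 2 y) 1340 880 blB 1792 :=
  StpAll.cons (On.stR (fun y hy => (atB42 hy).amp eng) cB_r0_42 hx (fun _ => rfl) (by decide)) (StpAll.cons (On.stR (fun y hy => (atB42 hy).amp eng) cB_r1_42 hx (fun _ => rfl) (by decide)) (StpAll.nil (On.stR (fun y hy => (atB42 hy).amp eng) cB_r2_42 hx (fun _ => rfl) (by decide))))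
theorem neB42 {x : ℝ} (hx : Rng 649613803 48318383 x) : StpAll (fun t t' a => On PP (smT (eng.v x) tK) tL tC x (4 : Fin 9) 2
    (fun y X A L C => NearP (((3 : ℕ) : ℝ) / ((10 : ℕ) : ℝ)) x (mT.v x) 2 y X A L C ((a : ℝ) / 1000)) fun y =>
      t ≤ h0 * y ∧ h0 * y ≤ t' + 3 / 100 ∧ 0 < crv PP (4 : Fin 9) 2 y ∧ crv PP (4 : Fin 9) 2 y ≤ 2 / 5) 1340 880 blB 1792 :=
  StpAll.cons (On.stN (fun y hy => (atB42 hy).amp eng) cB_n0_42 hx (fun _ => rfl) (by decide)) (StpAll.cons (On.stN (fun y hy => (atB42 hy).amp eng) cB_n1_42 hx (fun _ => rfl) (by decide)) (StpAll.nil (On.stN (fun y hy => (atB42 hy).amp eng) cB_n2_42 hx (fun _ => rfl) (by decide))))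
theorem hiB43 {x : ℝ} (hx : Rng 649613803 48318383 x) : StpAll (fun t t' a => On PP (smT (eng.v x) tK) tL tC x (4 : Fin 9) 3
    (fun y X A L C => HighP (((3 : ℕ) : ℝ) / ((10 : ℕ) : ℝ)) x (mT.v x) 3 y X A L C ((a : ℝ) / 1000) Dw) fun y =>
      t ≤ h0 * y ∧ h0 * y ≤ t' + 3 / 100) 1700 800 hlB 1040 :=
  StpAll.cons (On.noHi (by decide)) (StpAll.cons (On.noHi (by decide)) (StpAll.nil (On.stH (fun y hy => (atB43 hy).amp eng) cB_h2_43 hx (fun _ => rfl) (by decide))))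
theorem faB43 {x : ℝ} (hx : Rng 649613803 48318383 x) : StpAll (fun t t' a => On PP (smT (eng.v x) tK) tL tC x (4 : Fin 9) 3
    (fun y X A L C => FarP (((3 : ℕ) : ℝ) / ((10 : ℕ) : ℝ)) x (mT.v x) 3 y X A L C ((a : ℝ) / 1000) Dw) fun y =>
      t ≤ h0 * y ∧ h0 * y ≤ t' + 3 / 100 ∧ Dw ≤ crv PP (4 : Fin 9) 3 y) 1340 880 blB 1792 :=
  StpAll.cons (On.noHi' (by decide)) (StpAll.cons (On.noHi' (by decide)) (StpAll.nil (On.stR (fun y hy => (atB43 hy).amp eng) cB_r2_43 hx (fun _ => rfl) (by decide))))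
theorem neB43 {x : ℝ} (hx : Rng 649613803 48318383 x) : StpAll (fun t t' a => On PP (smT (eng.v x) tK) tL tC x (4 : Fin 9) 3
    (fun y X A L C => NearP (((3 : ℕ) : ℝ) / ((10 : ℕ) : ℝ)) x (mT.v x) 3 y X A L C ((a : ℝ) / 1000)) fun y =>
      t ≤ h0 * y ∧ h0 * y ≤ t' + 3 / 100 ∧ 0 < crv PP (4 : Fin 9) 3 y ∧ crv PP (4 : Fin 9) 3 y ≤ 2 / 5) 1340 880 blB 1792 :=
  StpAll.cons (On.noHi' (by decide)) (StpAll.cons (On.noHi' (by decide)) (StpAll.nil (On.stN (fun y hy => (atB43 hy).amp eng) cB_n2_43 hx (fun _ => rfl) (by decide))))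
theorem hiB50 {x : ℝ} (hx : Rng 649613803 48318383 x) : StpAll (fun t t' a => On PP (smT (eng.v x) tK) tL tC x (5 : Fin 9) 0
    (fun y X A L C => HighP (((3 : ℕ) : ℝ) / ((10 : ℕ) : ℝ)) x (mT.v x) 0 y X A L C ((a : ℝ) / 1000) Dw) fun y =>
      t ≤ h0 * y ∧ h0 * y ≤ t' + 3 / 100) 1700 800 hlB 1040 :=
  StpAll.cons (On.noLo (by norm_num) (by decide)) (StpAll.cons (On.noLo (by norm_num) (by decide)) (StpAll.nil (On.noLo (by norm_num) (by decide))))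
theorem faB50 {x : ℝ} (hx : Rng 649613803 48318383 x) : StpAll (fun t t' a => On PP (smT (eng.v x) tK) tL tC x (5 : Fin 9) 0
    (fun y X A L C => FarP (((3 : ℕ) : ℝ) / ((10 : ℕ) : ℝ)) x (mT.v x) 0 y X A L C ((a : ℝ) / 1000) Dw) fun y =>
      t ≤ h0 * y ∧ h0 * y ≤ t' + 3 / 100 ∧ Dw ≤ crv PP (5 : Fin 9) 0 y) 1340 880 blB 1792 :=
  StpAll.cons (On.noLo (by norm_num) (by decide)) (StpAll.cons (On.noLo (by norm_num) (by decide)) (StpAll.nil (On.noLo (by norm_num) (by decide))))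
theorem neB50 {x : ℝ} (hx : Rng 649613803 48318383 x) : StpAll (fun t t' a => On PP (smT (eng.v x) tK) tL tC x (5 : Fin 9) 0
    (fun y X A L C => NearP (((3 : ℕ) : ℝ) / ((10 : ℕ) : ℝ)) x (mT.v x) 0 y X A L C ((a : ℝ) / 1000)) fun y =>
      t ≤ h0 * y ∧ h0 * y ≤ t' + 3 / 100 ∧ 0 < crv PP (5 : Fin 9) 0 y ∧ crv PP (5 : Fin 9) 0 y ≤ 2 / 5) 1340 880 blB 1792 :=
  StpAll.cons (On.noLo (by norm_num) (by decide)) (StpAll.cons (On.noLo (by norm_num) (by decide)) (StpAll.nil (On.noLo (by norm_num) (by decide))))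
theorem hiB51 {x : ℝ} (hx : Rng 649613803 48318383 x) : StpAll (fun t t' a => On PP (smT (eng.v x) tK) tL tC x (5 : Fin 9) 1
    (fun y X A L C => HighP (((3 : ℕ) : ℝ) / ((10 : ℕ) : ℝ)) x (mT.v x) 1 y X A L C ((a : ℝ) / 1000) Dw) fun y =>
      t ≤ h0 * y ∧ h0 * y ≤ t' + 3 / 100) 1700 800 hlB 1040 :=
  StpAll.cons (On.stH (fun y hy => (atB51 hy).amp eng) cB_h0_51 hx (fun _ => rfl) (by decide)) (StpAll.cons (On.stH (fun y hy => (atB51 hy).amp eng) cB_h1_51 hx (fun _ => rfl) (by decide)) (StpAll.nil (On.noLo (by norm_num) (by decide))))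
theorem faB51 {x : ℝ} (hx : Rng 649613803 48318383 x) : StpAll (fun t t' a => On PP (smT (eng.v x) tK) tL tC x (5 : Fin 9) 1
    (fun y X A L C => FarP (((3 : ℕ) : ℝ) / ((10 : ℕ) : ℝ)) x (mT.v x) 1 y X A L C ((a : ℝ) / 1000) Dw) fun y =>
      t ≤ h0 * y ∧ h0 * y ≤ t' + 3 / 100 ∧ Dw ≤ crv PP (5 : Fin 9) 1 y) 1340 880 blB 1792 :=
  StpAll.cons (On.noLo (by norm_num) (by decide)) (StpAll.cons (On.noLo (by norm_num) (by decide)) (StpAll.nil (On.noLo (by norm_num) (by decide))))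
theorem neB51 {x : ℝ} (hx : Rng 649613803 48318383 x) : StpAll (fun t t' a => On PP (smT (eng.v x) tK) tL tC x (5 : Fin 9) 1
    (fun y X A L C => NearP (((3 : ℕ) : ℝ) / ((10 : ℕ) : ℝ)) x (mT.v x) 1 y X A L C ((a : ℝ) / 1000)) fun y =>
      t ≤ h0 * y ∧ h0 * y ≤ t' + 3 / 100 ∧ 0 < crv PP (5 : Fin 9) 1 y ∧ crv PP (5 : Fin 9) 1 y ≤ 2 / 5) 1340 880 blB 1792 :=
  StpAll.cons (On.noLo (by norm_num) (by decide)) (StpAll.cons (On.noLo (by norm_num) (by decide)) (StpAll.nil (On.noLo (by norm_num) (by decide))))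
theorem hiB52 {x : ℝ} (hx : Rng 649613803 48318383 x) : StpAll (fun t t' a => On PP (smT (eng.v x) tK) tL tC x (5 : Fin 9) 2
    (fun y X A L C => HighP (((3 : ℕ) : ℝ) / ((10 : ℕ) : ℝ)) x (mT.v x) 2 y X A L C ((a : ℝ) / 1000) Dw) fun y =>
      t ≤ h0 * y ∧ h0 * y ≤ t' + 3 / 100) 1700 800 hlB 1040 :=
  StpAll.cons (On.noHi (by decide)) (StpAll.cons (On.stH (fun y hy => (atB52 hy).amp eng) cB_h1_52 hx (fun _ => rfl) (by decide)) (StpAll.nil (On.stH (fun y hy => (atB52 hy).amp eng) cB_h2_52 hx (fun _ => rfl) (by decide))))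
theorem faB52 {x : ℝ} (hx : Rng 649613803 48318383 x) : StpAll (fun t t' a => On PP (smT (eng.v x) tK) tL tC x (5 : Fin 9) 2
    (fun y X A L C => FarP (((3 : ℕ) : ℝ) / ((10 : ℕ) : ℝ)) x (mT.v x) 2 y X A L C ((a : ℝ) / 1000) Dw) fun y =>
      t ≤ h0 * y ∧ h0 * y ≤ t' + 3 / 100 ∧ Dw ≤ crv PP (5 : Fin 9) 2 y) 1340 880 blB 1792 :=
  StpAll.cons (On.stR (fun y hy => (atB52 hy).amp eng) cB_r0_52 hx (fun _ => rfl) (by decide)) (StpAll.cons (On.stR (fun y hy => (atB52 hy).amp eng) cB_r1_52 hx (fun _ => rfl) (by decide)) (StpAll.nil (On.stR (fun y hy => (atB52 hy).amp eng) cB_r2_52 hx (fun _ => rfl) (by decide))))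
theorem neB52 {x : ℝ} (hx : Rng 649613803 48318383 x) : StpAll (fun t t' a => On PP (smT (eng.v x) tK) tL tC x (5 : Fin 9) 2
    (fun y X A L C => NearP (((3 : ℕ) : ℝ) / ((10 : ℕ) : ℝ)) x (mT.v x) 2 y X A L C ((a : ℝ) / 1000)) fun y =>
      t ≤ h0 * y ∧ h0 * y ≤ t' + 3 / 100 ∧ 0 < crv PP (5 : Fin 9) 2 y ∧ crv PP (5 : Fin 9) 2 y ≤ 2 / 5) 1340 880 blB 1792 :=
  StpAll.cons (On.stN (fun y hy => (atB52 hy).amp eng) cB_n0_52 hx (fun _ => rfl) (by decide)) (StpAll.cons (On.stN (fun y hy => (atB52 hy).amp eng) cB_n1_52 hx (fun _ => rfl) (by decide)) (StpAll.nil (On.stN (fun y hy => (atB52 hy).amp eng) cB_n2_52 hx (fun _ => rfl) (by decide))))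
theorem hiB53 {x : ℝ} (hx : Rng 649613803 48318383 x) : StpAll (fun t t' a => On PP (smT (eng.v x) tK) tL tC x (5 : Fin 9) 3
    (fun y X A L C => HighP (((3 : ℕ) : ℝ) / ((10 : ℕ) : ℝ)) x (mT.v x) 3 y X A L C ((a : ℝ) / 1000) Dw) fun y =>
      t ≤ h0 * y ∧ h0 * y ≤ t' + 3 / 100) 1700 800 hlB 1040 :=
  StpAll.cons (On.noHi (by decide)) (StpAll.cons (On.noHi (by decide)) (StpAll.nil (On.stHc (covB53.amp eng) cB_h2_53 hx (fun _ => rfl) (by decide))))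
theorem faB53 {x : ℝ} (hx : Rng 649613803 48318383 x) : StpAll (fun t t' a => On PP (smT (eng.v x) tK) tL tC x (5 : Fin 9) 3
    (fun y X A L C => FarP (((3 : ℕ) : ℝ) / ((10 : ℕ) : ℝ)) x (mT.v x) 3 y X A L C ((a : ℝ) / 1000) Dw) fun y =>
      t ≤ h0 * y ∧ h0 * y ≤ t' + 3 / 100 ∧ Dw ≤ crv PP (5 : Fin 9) 3 y) 1340 880 blB 1792 :=
  StpAll.cons (On.noHi' (by decide)) (StpAll.cons (On.noHi' (by decide)) (StpAll.nil (On.stRc (covB53.amp eng) cB_r2_53 hx (fun _ => rfl) (by decide))))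
theorem neB53 {x : ℝ} (hx : Rng 649613803 48318383 x) : StpAll (fun t t' a => On PP (smT (eng.v x) tK) tL tC x (5 : Fin 9) 3
    (fun y X A L C => NearP (((3 : ℕ) : ℝ) / ((10 : ℕ) : ℝ)) x (mT.v x) 3 y X A L C ((a : ℝ) / 1000)) fun y =>
      t ≤ h0 * y ∧ h0 * y ≤ t' + 3 / 100 ∧ 0 < crv PP (5 : Fin 9) 3 y ∧ crv PP (5 : Fin 9) 3 y ≤ 2 / 5) 1340 880 blB 1792 :=
  StpAll.cons (On.noHi' (by decide)) (StpAll.cons (On.noHi' (by decide)) (StpAll.nil (On.stNc (covB53.amp eng) cB_n2_53 hx (fun _ => rfl) (by decide))))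
theorem hiB60 {x : ℝ} (hx : Rng 649613803 48318383 x) : StpAll (fun t t' a => On PP (smT (eng.v x) tK) tL tC x (6 : Fin 9) 0
    (fun y X A L C => HighP (((3 : ℕ) : ℝ) / ((10 : ℕ) : ℝ)) x (mT.v x) 0 y X A L C ((a : ℝ) / 1000) Dw) fun y =>
      t ≤ h0 * y ∧ h0 * y ≤ t' + 3 / 100) 1700 800 hlB 1040 :=
  StpAll.cons (On.noLo (by norm_num) (by decide)) (StpAll.cons (On.noLo (by norm_num) (by decide)) (StpAll.nil (On.noLo (by norm_num) (by decide))))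
theorem faB60 {x : ℝ} (hx : Rng 649613803 48318383 x) : StpAll (fun t t' a => On PP (smT (eng.v x) tK) tL tC x (6 : Fin 9) 0
    (fun y X A L C => FarP (((3 : ℕ) : ℝ) / ((10 : ℕ) : ℝ)) x (mT.v x) 0 y X A L C ((a : ℝ) / 1000) Dw) fun y =>
      t ≤ h0 * y ∧ h0 * y ≤ t' + 3 / 100 ∧ Dw ≤ crv PP (6 : Fin 9) 0 y) 1340 880 blB 1792 :=
  StpAll.cons (On.noLo (by norm_num) (by decide)) (StpAll.cons (On.noLo (by norm_num) (by decide)) (StpAll.nil (On.noLo (by norm_num) (by decide))))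
theorem neB60 {x : ℝ} (hx : Rng 649613803 48318383 x) : StpAll (fun t t' a => On PP (smT (eng.v x) tK) tL tC x (6 : Fin 9) 0
    (fun y X A L C => NearP (((3 : ℕ) : ℝ) / ((10 : ℕ) : ℝ)) x (mT.v x) 0 y X A L C ((a : ℝ) / 1000)) fun y =>
      t ≤ h0 * y ∧ h0 * y ≤ t' + 3 / 100 ∧ 0 < crv PP (6 : Fin 9) 0 y ∧ crv PP (6 : Fin 9) 0 y ≤ 2 / 5) 1340 880 blB 1792 :=
  StpAll.cons (On.noLo (by norm_num) (by decide)) (StpAll.cons (On.noLo (by norm_num) (by decide)) (StpAll.nil (On.noLo (by norm_num) (by decide))))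
theorem hiB61 {x : ℝ} (hx : Rng 649613803 48318383 x) : StpAll (fun t t' a => On PP (smT (eng.v x) tK) tL tC x (6 : Fin 9) 1
    (fun y X A L C => HighP (((3 : ℕ) : ℝ) / ((10 : ℕ) : ℝ)) x (mT.v x) 1 y X A L C ((a : ℝ) / 1000) Dw) fun y =>
      t ≤ h0 * y ∧ h0 * y ≤ t' + 3 / 100) 1700 800 hlB 1040 :=
  StpAll.cons (On.stH (fun y hy => (atB61 hy).amp eng) cB_h0_61 hx (fun _ => rfl) (by decide)) (StpAll.cons (On.stH (fun y hy => (atB61 hy).amp eng) cB_h1_61 hx (fun _ => rfl) (by decide)) (StpAll.nil (On.noLo (by norm_num) (by decide))))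
theorem faB61 {x : ℝ} (hx : Rng 649613803 48318383 x) : StpAll (fun t t' a => On PP (smT (eng.v x) tK) tL tC x (6 : Fin 9) 1
    (fun y X A L C => FarP (((3 : ℕ) : ℝ) / ((10 : ℕ) : ℝ)) x (mT.v x) 1 y X A L C ((a : ℝ) / 1000) Dw) fun y =>
      t ≤ h0 * y ∧ h0 * y ≤ t' + 3 / 100 ∧ Dw ≤ crv PP (6 : Fin 9) 1 y) 1340 880 blB 1792 :=
  StpAll.cons (On.noLo (by norm_num) (by decide)) (StpAll.cons (On.noLo (by norm_num) (by decide)) (StpAll.nil (On.noLo (by norm_num) (by decide))))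
theorem neB61 {x : ℝ} (hx : Rng 649613803 48318383 x) : StpAll (fun t t' a => On PP (smT (eng.v x) tK) tL tC x (6 : Fin 9) 1
    (fun y X A L C => NearP (((3 : ℕ) : ℝ) / ((10 : ℕ) : ℝ)) x (mT.v x) 1 y X A L C ((a : ℝ) / 1000)) fun y =>
      t ≤ h0 * y ∧ h0 * y ≤ t' + 3 / 100 ∧ 0 < crv PP (6 : Fin 9) 1 y ∧ crv PP (6 : Fin 9) 1 y ≤ 2 / 5) 1340 880 blB 1792 :=
  StpAll.cons (On.noLo (by norm_num) (by decide)) (StpAll.cons (On.noLo (by norm_num) (by decide)) (StpAll.nil (On.noLo (by norm_num) (by decide))))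
theorem hiB62 {x : ℝ} (hx : Rng 649613803 48318383 x) : StpAll (fun t t' a => On PP (smT (eng.v x) tK) tL tC x (6 : Fin 9) 2
    (fun y X A L C => HighP (((3 : ℕ) : ℝ) / ((10 : ℕ) : ℝ)) x (mT.v x) 2 y X A L C ((a : ℝ) / 1000) Dw) fun y =>
      t ≤ h0 * y ∧ h0 * y ≤ t' + 3 / 100) 1700 800 hlB 1040 :=
  StpAll.cons (On.noHi (by decide)) (StpAll.cons (On.stH (fun y hy => (atB62 hy).amp eng) cB_h1_62 hx (fun _ => rfl) (by decide)) (StpAll.nil (On.stH (fun y hy => (atB62 hy).amp eng) cB_h2_62 hx (fun _ => rfl) (by decide))))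
theorem faB62 {x : ℝ} (hx : Rng 649613803 48318383 x) : StpAll (fun t t' a => On PP (smT (eng.v x) tK) tL tC x (6 : Fin 9) 2
    (fun y X A L C => FarP (((3 : ℕ) : ℝ) / ((10 : ℕ) : ℝ)) x (mT.v x) 2 y X A L C ((a : ℝ) / 1000) Dw) fun y =>
      t ≤ h0 * y ∧ h0 * y ≤ t' + 3 / 100 ∧ Dw ≤ crv PP (6 : Fin 9) 2 y) 1340 880 blB 1792 :=
  StpAll.cons (On.stR (fun y hy => (atB62 hy).amp eng) cB_r0_62 hx (fun _ => rfl) (by decide)) (StpAll.cons (On.stR (fun y hy => (atB62 hy).amp eng) cB_r1_62 hx (fun _ => rfl) (by decide)) (StpAll.nil (On.stR (fun y hy => (atB62 hy).amp eng) cB_r2_62 hx (fun _ => rfl) (by decide))))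
theorem neB62 {x : ℝ} (hx : Rng 649613803 48318383 x) : StpAll (fun t t' a => On PP (smT (eng.v x) tK) tL tC x (6 : Fin 9) 2
    (fun y X A L C => NearP (((3 : ℕ) : ℝ) / ((10 : ℕ) : ℝ)) x (mT.v x) 2 y X A L C ((a : ℝ) / 1000)) fun y =>
      t ≤ h0 * y ∧ h0 * y ≤ t' + 3 / 100 ∧ 0 < crv PP (6 : Fin 9) 2 y ∧ crv PP (6 : Fin 9) 2 y ≤ 2 / 5) 1340 880 blB 1792 :=
  StpAll.cons (On.stN (fun y hy => (atB62 hy).amp eng) cB_n0_62 hx (fun _ => rfl) (by decide)) (StpAll.cons (On.stN (fun y hy => (atB62 hy).amp eng) cB_n1_62 hx (fun _ => rfl) (by decide)) (StpAll.nil (On.stN (fun y hy => (atB62 hy).amp eng) cB_n2_62 hx (fun _ => rfl) (by decide))))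
theorem hiB63 {x : ℝ} (hx : Rng 649613803 48318383 x) : StpAll (fun t t' a => On PP (smT (eng.v x) tK) tL tC x (6 : Fin 9) 3
    (fun y X A L C => HighP (((3 : ℕ) : ℝ) / ((10 : ℕ) : ℝ)) x (mT.v x) 3 y X A L C ((a : ℝ) / 1000) Dw) fun y =>
      t ≤ h0 * y ∧ h0 * y ≤ t' + 3 / 100) 1700 800 hlB 1040 :=
  StpAll.cons (On.noHi (by decide)) (StpAll.cons (On.noHi (by decide)) (StpAll.nil (On.stHc (covB63.amp eng) cB_h2_63 hx (fun _ => rfl) (by decide))))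
theorem faB63 {x : ℝ} (hx : Rng 649613803 48318383 x) : StpAll (fun t t' a => On PP (smT (eng.v x) tK) tL tC x (6 : Fin 9) 3
    (fun y X A L C => FarP (((3 : ℕ) : ℝ) / ((10 : ℕ) : ℝ)) x (mT.v x) 3 y X A L C ((a : ℝ) / 1000) Dw) fun y =>
      t ≤ h0 * y ∧ h0 * y ≤ t' + 3 / 100 ∧ Dw ≤ crv PP (6 : Fin 9) 3 y) 1340 880 blB 1792 :=
  StpAll.cons (On.noHi' (by decide)) (StpAll.cons (On.noHi' (by decide)) (StpAll.nil (On.stRc (covB63.amp eng) cB_r2_63 hx (fun _ => rfl) (by decide))))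
theorem neB63 {x : ℝ} (hx : Rng 649613803 48318383 x) : StpAll (fun t t' a => On PP (smT (eng.v x) tK) tL tC x (6 : Fin 9) 3
    (fun y X A L C => NearP (((3 : ℕ) : ℝ) / ((10 : ℕ) : ℝ)) x (mT.v x) 3 y X A L C ((a : ℝ) / 1000)) fun y =>
      t ≤ h0 * y ∧ h0 * y ≤ t' + 3 / 100 ∧ 0 < crv PP (6 : Fin 9) 3 y ∧ crv PP (6 : Fin 9) 3 y ≤ 2 / 5) 1340 880 blB 1792 :=
  StpAll.cons (On.noHi' (by decide)) (StpAll.cons (On.noHi' (by decide)) (StpAll.nil (On.stNc (covB63.amp eng) cB_n2_63 hx (fun _ => rfl) (by decide))))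
theorem hiB70 {x : ℝ} (hx : Rng 649613803 48318383 x) : StpAll (fun t t' a => On PP (smT (eng.v x) tK) tL tC x (7 : Fin 9) 0
    (fun y X A L C => HighP (((3 : ℕ) : ℝ) / ((10 : ℕ) : ℝ)) x (mT.v x) 0 y X A L C ((a : ℝ) / 1000) Dw) fun y =>
      t ≤ h0 * y ∧ h0 * y ≤ t' + 3 / 100) 1700 800 hlB 1040 :=
  StpAll.cons (On.noLo (by norm_num) (by decide)) (StpAll.cons (On.noLo (by norm_num) (by decide)) (StpAll.nil (On.noLo (by norm_num) (by decide))))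
theorem faB70 {x : ℝ} (hx : Rng 649613803 48318383 x) : StpAll (fun t t' a => On PP (smT (eng.v x) tK) tL tC x (7 : Fin 9) 0
    (fun y X A L C => FarP (((3 : ℕ) : ℝ) / ((10 : ℕ) : ℝ)) x (mT.v x) 0 y X A L C ((a : ℝ) / 1000) Dw) fun y =>
      t ≤ h0 * y ∧ h0 * y ≤ t' + 3 / 100 ∧ Dw ≤ crv PP (7 : Fin 9) 0 y) 1340 880 blB 1792 :=
  StpAll.cons (On.noLo (by norm_num) (by decide)) (StpAll.cons (On.noLo (by norm_num) (by decide)) (StpAll.nil (On.noLo (by norm_num) (by decide))))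
theorem neB70 {x : ℝ} (hx : Rng 649613803 48318383 x) : StpAll (fun t t' a => On PP (smT (eng.v x) tK) tL tC x (7 : Fin 9) 0
    (fun y X A L C => NearP (((3 : ℕ) : ℝ) / ((10 : ℕ) : ℝ)) x (mT.v x) 0 y X A L C ((a : ℝ) / 1000)) fun y =>
      t ≤ h0 * y ∧ h0 * y ≤ t' + 3 / 100 ∧ 0 < crv PP (7 : Fin 9) 0 y ∧ crv PP (7 : Fin 9) 0 y ≤ 2 / 5) 1340 880 blB 1792 :=
  StpAll.cons (On.noLo (by norm_num) (by decide)) (StpAll.cons (On.noLo (by norm_num) (by decide)) (StpAll.nil (On.noLo (by norm_num) (by decide))))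
theorem hiB71 {x : ℝ} (hx : Rng 649613803 48318383 x) : StpAll (fun t t' a => On PP (smT (eng.v x) tK) tL tC x (7 : Fin 9) 1
    (fun y X A L C => HighP (((3 : ℕ) : ℝ) / ((10 : ℕ) : ℝ)) x (mT.v x) 1 y X A L C ((a : ℝ) / 1000) Dw) fun y =>
      t ≤ h0 * y ∧ h0 * y ≤ t' + 3 / 100) 1700 800 hlB 1040 :=
  StpAll.cons (On.stH (fun y hy => (atB71 hy).amp eng) cB_h0_71 hx (fun _ => rfl) (by decide)) (StpAll.cons (On.stH (fun y hy => (atB71 hy).amp eng) cB_h1_71 hx (fun _ => rfl) (by decide)) (StpAll.nil (On.noLo (by norm_num) (by decide))))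
theorem faB71 {x : ℝ} (hx : Rng 649613803 48318383 x) : StpAll (fun t t' a => On PP (smT (eng.v x) tK) tL tC x (7 : Fin 9) 1
    (fun y X A L C => FarP (((3 : ℕ) : ℝ) / ((10 : ℕ) : ℝ)) x (mT.v x) 1 y X A L C ((a : ℝ) / 1000) Dw) fun y =>
      t ≤ h0 * y ∧ h0 * y ≤ t' + 3 / 100 ∧ Dw ≤ crv PP (7 : Fin 9) 1 y) 1340 880 blB 1792 :=
  StpAll.cons (On.noLo (by norm_num) (by decide)) (StpAll.cons (On.noLo (by norm_num) (by decide)) (StpAll.nil (On.noLo (by norm_num) (by decide))))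
theorem neB71 {x : ℝ} (hx : Rng 649613803 48318383 x) : StpAll (fun t t' a => On PP (smT (eng.v x) tK) tL tC x (7 : Fin 9) 1
    (fun y X A L C => NearP (((3 : ℕ) : ℝ) / ((10 : ℕ) : ℝ)) x (mT.v x) 1 y X A L C ((a : ℝ) / 1000)) fun y =>
      t ≤ h0 * y ∧ h0 * y ≤ t' + 3 / 100 ∧ 0 < crv PP (7 : Fin 9) 1 y ∧ crv PP (7 : Fin 9) 1 y ≤ 2 / 5) 1340 880 blB 1792 :=
  StpAll.cons (On.noLo (by norm_num) (by decide)) (StpAll.cons (On.noLo (by norm_num) (by decide)) (StpAll.nil (On.noLo (by norm_num) (by decide))))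
theorem hiB72 {x : ℝ} (hx : Rng 649613803 48318383 x) : StpAll (fun t t' a => On PP (smT (eng.v x) tK) tL tC x (7 : Fin 9) 2
    (fun y X A L C => HighP (((3 : ℕ) : ℝ) / ((10 : ℕ) : ℝ)) x (mT.v x) 2 y X A L C ((a : ℝ) / 1000) Dw) fun y =>
      t ≤ h0 * y ∧ h0 * y ≤ t' + 3 / 100) 1700 800 hlB 1040 :=
  StpAll.cons (On.noHi (by decide)) (StpAll.cons (On.stH (fun y hy => (atB72 hy).amp eng) cB_h1_72 hx (fun _ => rfl) (by decide)) (StpAll.nil (On.stH (fun y hy => (atB72 hy).amp eng) cB_h2_72 hx (fun _ => rfl) (by decide))))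
theorem faB72 {x : ℝ} (hx : Rng 649613803 48318383 x) : StpAll (fun t t' a => On PP (smT (eng.v x) tK) tL tC x (7 : Fin 9) 2
    (fun y X A L C => FarP (((3 : ℕ) : ℝ) / ((10 : ℕ) : ℝ)) x (mT.v x) 2 y X A L C ((a : ℝ) / 1000) Dw) fun y =>
      t ≤ h0 * y ∧ h0 * y ≤ t' + 3 / 100 ∧ Dw ≤ crv PP (7 : Fin 9) 2 y) 1340 880 blB 1792 :=
  StpAll.cons (On.stR (fun y hy => (atB72 hy).amp eng) cB_r0_72 hx (fun _ => rfl) (by decide)) (StpAll.cons (On.stR (fun y hy => (atB72 hy).amp eng) cB_r1_72 hx (fun _ => rfl) (by decide)) (StpAll.nil (On.stR (fun y hy => (atB72 hy).amp eng) cB_r2_72 hx (fun _ => rfl) (by decide))))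
theorem neB72 {x : ℝ} (hx : Rng 649613803 48318383 x) : StpAll (fun t t' a => On PP (smT (eng.v x) tK) tL tC x (7 : Fin 9) 2
    (fun y X A L C => NearP (((3 : ℕ) : ℝ) / ((10 : ℕ) : ℝ)) x (mT.v x) 2 y X A L C ((a : ℝ) / 1000)) fun y =>
      t ≤ h0 * y ∧ h0 * y ≤ t' + 3 / 100 ∧ 0 < crv PP (7 : Fin 9) 2 y ∧ crv PP (7 : Fin 9) 2 y ≤ 2 / 5) 1340 880 blB 1792 :=
  StpAll.cons (On.stN (fun y hy => (atB72 hy).amp eng) cB_n0_72 hx (fun _ => rfl) (by decide)) (StpAll.cons (On.stN (fun y hy => (atB72 hy).amp eng) cB_n1_72 hx (fun _ => rfl) (by decide)) (StpAll.nil (On.stN (fun y hy => (atB72 hy).amp eng) cB_n2_72 hx (fun _ => rfl) (by decide))))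
theorem hiB73 {x : ℝ} (hx : Rng 649613803 48318383 x) : StpAll (fun t t' a => On PP (smT (eng.v x) tK) tL tC x (7 : Fin 9) 3
    (fun y X A L C => HighP (((3 : ℕ) : ℝ) / ((10 : ℕ) : ℝ)) x (mT.v x) 3 y X A L C ((a : ℝ) / 1000) Dw) fun y =>
      t ≤ h0 * y ∧ h0 * y ≤ t' + 3 / 100) 1700 800 hlB 1040 :=
  StpAll.cons (On.noHi (by decide)) (StpAll.cons (On.noHi (by decide)) (StpAll.nil (On.stHc (covB73.amp eng) cB_h2_73 hx (fun _ => rfl) (by decide))))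
theorem faB73 {x : ℝ} (hx : Rng 649613803 48318383 x) : StpAll (fun t t' a => On PP (smT (eng.v x) tK) tL tC x (7 : Fin 9) 3
    (fun y X A L C => FarP (((3 : ℕ) : ℝ) / ((10 : ℕ) : ℝ)) x (mT.v x) 3 y X A L C ((a : ℝ) / 1000) Dw) fun y =>
      t ≤ h0 * y ∧ h0 * y ≤ t' + 3 / 100 ∧ Dw ≤ crv PP (7 : Fin 9) 3 y) 1340 880 blB 1792 :=
  StpAll.cons (On.noHi' (by decide)) (StpAll.cons (On.noHi' (by decide)) (StpAll.nil (On.stRc (covB73.amp eng) cB_r2_73 hx (fun _ => rfl) (by decide))))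
theorem neB73 {x : ℝ} (hx : Rng 649613803 48318383 x) : StpAll (fun t t' a => On PP (smT (eng.v x) tK) tL tC x (7 : Fin 9) 3
    (fun y X A L C => NearP (((3 : ℕ) : ℝ) / ((10 : ℕ) : ℝ)) x (mT.v x) 3 y X A L C ((a : ℝ) / 1000)) fun y =>
      t ≤ h0 * y ∧ h0 * y ≤ t' + 3 / 100 ∧ 0 < crv PP (7 : Fin 9) 3 y ∧ crv PP (7 : Fin 9) 3 y ≤ 2 / 5) 1340 880 blB 1792 :=
  StpAll.cons (On.noHi' (by decide)) (StpAll.cons (On.noHi' (by decide)) (StpAll.nil (On.stNc (covB73.amp eng) cB_n2_73 hx (fun _ => rfl) (by decide))))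
theorem hiB80 {x : ℝ} (hx : Rng 649613803 48318383 x) : StpAll (fun t t' a => On PP (smT (eng.v x) tK) tL tC x (8 : Fin 9) 0
    (fun y X A L C => HighP (((3 : ℕ) : ℝ) / ((10 : ℕ) : ℝ)) x (mT.v x) 0 y X A L C ((a : ℝ) / 1000) Dw) fun y =>
      t ≤ h0 * y ∧ h0 * y ≤ t' + 3 / 100) 1700 800 hlB 1040 :=
  StpAll.cons (On.noLo (by norm_num) (by decide)) (StpAll.cons (On.noLo (by norm_num) (by decide)) (StpAll.nil (On.noLo (by norm_num) (by decide))))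
theorem faB80 {x : ℝ} (hx : Rng 649613803 48318383 x) : StpAll (fun t t' a => On PP (smT (eng.v x) tK) tL tC x (8 : Fin 9) 0
    (fun y X A L C => FarP (((3 : ℕ) : ℝ) / ((10 : ℕ) : ℝ)) x (mT.v x) 0 y X A L C ((a : ℝ) / 1000) Dw) fun y =>
      t ≤ h0 * y ∧ h0 * y ≤ t' + 3 / 100 ∧ Dw ≤ crv PP (8 : Fin 9) 0 y) 1340 880 blB 1792 :=
  StpAll.cons (On.noLo (by norm_num) (by decide)) (StpAll.cons (On.noLo (by norm_num) (by decide)) (StpAll.nil (On.noLo (by norm_num) (by decide))))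
theorem neB80 {x : ℝ} (hx : Rng 649613803 48318383 x) : StpAll (fun t t' a => On PP (smT (eng.v x) tK) tL tC x (8 : Fin 9) 0
    (fun y X A L C => NearP (((3 : ℕ) : ℝ) / ((10 : ℕ) : ℝ)) x (mT.v x) 0 y X A L C ((a : ℝ) / 1000)) fun y =>
      t ≤ h0 * y ∧ h0 * y ≤ t' + 3 / 100 ∧ 0 < crv PP (8 : Fin 9) 0 y ∧ crv PP (8 : Fin 9) 0 y ≤ 2 / 5) 1340 880 blB 1792 :=
  StpAll.cons (On.noLo (by norm_num) (by decide)) (StpAll.cons (On.noLo (by norm_num) (by decide)) (StpAll.nil (On.noLo (by norm_num) (by decide))))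
theorem hiB81 {x : ℝ} (hx : Rng 649613803 48318383 x) : StpAll (fun t t' a => On PP (smT (eng.v x) tK) tL tC x (8 : Fin 9) 1
    (fun y X A L C => HighP (((3 : ℕ) : ℝ) / ((10 : ℕ) : ℝ)) x (mT.v x) 1 y X A L C ((a : ℝ) / 1000) Dw) fun y =>
      t ≤ h0 * y ∧ h0 * y ≤ t' + 3 / 100) 1700 800 hlB 1040 :=
  StpAll.cons (On.stH (fun y hy => (atB81 hy).amp eng) cB_h0_81 hx (fun _ => rfl) (by decide)) (StpAll.cons (On.stH (fun y hy => (atB81 hy).amp eng) cB_h1_81 hx (fun _ => rfl) (by decide)) (StpAll.nil (On.noLo (by norm_num) (by decide))))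
theorem faB81 {x : ℝ} (hx : Rng 649613803 48318383 x) : StpAll (fun t t' a => On PP (smT (eng.v x) tK) tL tC x (8 : Fin 9) 1
    (fun y X A L C => FarP (((3 : ℕ) : ℝ) / ((10 : ℕ) : ℝ)) x (mT.v x) 1 y X A L C ((a : ℝ) / 1000) Dw) fun y =>
      t ≤ h0 * y ∧ h0 * y ≤ t' + 3 / 100 ∧ Dw ≤ crv PP (8 : Fin 9) 1 y) 1340 880 blB 1792 :=
  StpAll.cons (On.noLo (by norm_num) (by decide)) (StpAll.cons (On.noLo (by norm_num) (by decide)) (StpAll.nil (On.noLo (by norm_num) (by decide))))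
theorem neB81 {x : ℝ} (hx : Rng 649613803 48318383 x) : StpAll (fun t t' a => On PP (smT (eng.v x) tK) tL tC x (8 : Fin 9) 1
    (fun y X A L C => NearP (((3 : ℕ) : ℝ) / ((10 : ℕ) : ℝ)) x (mT.v x) 1 y X A L C ((a : ℝ) / 1000)) fun y =>
      t ≤ h0 * y ∧ h0 * y ≤ t' + 3 / 100 ∧ 0 < crv PP (8 : Fin 9) 1 y ∧ crv PP (8 : Fin 9) 1 y ≤ 2 / 5) 1340 880 blB 1792 :=
  StpAll.cons (On.noLo (by norm_num) (by decide)) (StpAll.cons (On.noLo (by norm_num) (by decide)) (StpAll.nil (On.noLo (by norm_num) (by decide))))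
theorem hiB82 {x : ℝ} (hx : Rng 649613803 48318383 x) : StpAll (fun t t' a => On PP (smT (eng.v x) tK) tL tC x (8 : Fin 9) 2
    (fun y X A L C => HighP (((3 : ℕ) : ℝ) / ((10 : ℕ) : ℝ)) x (mT.v x) 2 y X A L C ((a : ℝ) / 1000) Dw) fun y =>
      t ≤ h0 * y ∧ h0 * y ≤ t' + 3 / 100) 1700 800 hlB 1040 :=
  StpAll.cons (On.noHi (by decide)) (StpAll.cons (On.stH (fun y hy => (atB82 hy).amp eng) cB_h1_82 hx (fun _ => rfl) (by decide)) (StpAll.nil (On.stH (fun y hy => (atB82 hy).amp eng) cB_h2_82 hx (fun _ => rfl) (by decide))))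
theorem faB82 {x : ℝ} (hx : Rng 649613803 48318383 x) : StpAll (fun t t' a => On PP (smT (eng.v x) tK) tL tC x (8 : Fin 9) 2
    (fun y X A L C => FarP (((3 : ℕ) : ℝ) / ((10 : ℕ) : ℝ)) x (mT.v x) 2 y X A L C ((a : ℝ) / 1000) Dw) fun y =>
      t ≤ h0 * y ∧ h0 * y ≤ t' + 3 / 100 ∧ Dw ≤ crv PP (8 : Fin 9) 2 y) 1340 880 blB 1792 :=
  StpAll.cons (On.stR (fun y hy => (atB82 hy).amp eng) cB_r0_82 hx (fun _ => rfl) (by decide)) (StpAll.cons (On.stR (fun y hy => (atB82 hy).amp eng) cB_r1_82 hx (fun _ => rfl) (by decide)) (StpAll.nil (On.stR (fun y hy => (atB82 hy).amp eng) cB_r2_82 hx (fun _ => rfl) (by decide))))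
theorem neB82 {x : ℝ} (hx : Rng 649613803 48318383 x) : StpAll (fun t t' a => On PP (smT (eng.v x) tK) tL tC x (8 : Fin 9) 2
    (fun y X A L C => NearP (((3 : ℕ) : ℝ) / ((10 : ℕ) : ℝ)) x (mT.v x) 2 y X A L C ((a : ℝ) / 1000)) fun y =>
      t ≤ h0 * y ∧ h0 * y ≤ t' + 3 / 100 ∧ 0 < crv PP (8 : Fin 9) 2 y ∧ crv PP (8 : Fin 9) 2 y ≤ 2 / 5) 1340 880 blB 1792 :=
  StpAll.cons (On.stN (fun y hy => (atB82 hy).amp eng) cB_n0_82 hx (fun _ => rfl) (by decide)) (StpAll.cons (On.stN (fun y hy => (atB82 hy).amp eng) cB_n1_82 hx (fun _ => rfl) (by decide)) (StpAll.nil (On.stN (fun y hy => (atB82 hy).amp eng) cB_n2_82 hx (fun _ => rfl) (by decide))))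
theorem hiB83 {x : ℝ} (hx : Rng 649613803 48318383 x) : StpAll (fun t t' a => On PP (smT (eng.v x) tK) tL tC x (8 : Fin 9) 3
    (fun y X A L C => HighP (((3 : ℕ) : ℝ) / ((10 : ℕ) : ℝ)) x (mT.v x) 3 y X A L C ((a : ℝ) / 1000) Dw) fun y =>
      t ≤ h0 * y ∧ h0 * y ≤ t' + 3 / 100) 1700 800 hlB 1040 :=
  StpAll.cons (On.noHi (by decide)) (StpAll.cons (On.noHi (by decide)) (StpAll.nil (On.stHc (covB83.amp eng) cB_h2_83 hx (fun _ => rfl) (by decide))))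
theorem faB83 {x : ℝ} (hx : Rng 649613803 48318383 x) : StpAll (fun t t' a => On PP (smT (eng.v x) tK) tL tC x (8 : Fin 9) 3
    (fun y X A L C => FarP (((3 : ℕ) : ℝ) / ((10 : ℕ) : ℝ)) x (mT.v x) 3 y X A L C ((a : ℝ) / 1000) Dw) fun y =>
      t ≤ h0 * y ∧ h0 * y ≤ t' + 3 / 100 ∧ Dw ≤ crv PP (8 : Fin 9) 3 y) 1340 880 blB 1792 :=
  StpAll.cons (On.noHi' (by decide)) (StpAll.cons (On.noHi' (by decide)) (StpAll.nil (On.stRc (covB83.amp eng) cB_r2_83 hx (fun _ => rfl) (by decide))))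
theorem neB83 {x : ℝ} (hx : Rng 649613803 48318383 x) : StpAll (fun t t' a => On PP (smT (eng.v x) tK) tL tC x (8 : Fin 9) 3
    (fun y X A L C => NearP (((3 : ℕ) : ℝ) / ((10 : ℕ) : ℝ)) x (mT.v x) 3 y X A L C ((a : ℝ) / 1000)) fun y =>
      t ≤ h0 * y ∧ h0 * y ≤ t' + 3 / 100 ∧ 0 < crv PP (8 : Fin 9) 3 y ∧ crv PP (8 : Fin 9) 3 y ≤ 2 / 5) 1340 880 blB 1792 :=
  StpAll.cons (On.noHi' (by decide)) (StpAll.cons (On.noHi' (by decide)) (StpAll.nil (On.stNc (covB83.amp eng) cB_n2_83 hx (fun _ => rfl) (by decide))))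
theorem fzB0 {x : ℝ} (hx : Rng 649613803 48318383 x) : StpAll (fun t t' a => OnT (fun q X y z => eng.v x * (pcB q).K.v X y z) (fun q => (pcB q).L.v)
      (fun q => (Fn3.sc esg (pd q)).v) x 0 (fun _ => Dw)
    (fun y X A L C => FarP (((3 : ℕ) : ℝ) / ((10 : ℕ) : ℝ)) x (mT.v x) 0 y X A L C ((a : ℝ) / 1000) Dw) fun y =>
      t ≤ h0 * y ∧ h0 * y ≤ t' + 3 / 100 ∧ qqn Dw y ≤ 3) 1340 880 blB 1792 :=
  StpAll.cons (OnT.noLo (by norm_num) (by decide)) (StpAll.cons (OnT.noLo (by norm_num) (by decide)) (StpAll.nil (OnT.noLo (by norm_num) (by decide))))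
theorem nzB0 {x : ℝ} (hx : Rng 649613803 48318383 x) : StpAll (fun t t' a => OnT (fun q X y z => eng.v x * (pcB q).K.v X y z) (fun q => (pcB q).L.v)
      (fun q => (Fn3.sc esg (pd q)).v) x 0 (fun _ => 2 / 5)
    (fun y X A L C => NearP (((3 : ℕ) : ℝ) / ((10 : ℕ) : ℝ)) x (mT.v x) 0 y X A L C ((a : ℝ) / 1000)) fun y =>
      t ≤ h0 * y ∧ h0 * y ≤ t' + 3 / 100 ∧ 1 ≤ qqn (2 / 5) y) 1340 880 blB 1792 :=
  StpAll.cons (OnT.noLo (by norm_num) (by decide)) (StpAll.cons (OnT.noLo (by norm_num) (by decide)) (StpAll.nil (OnT.noLo (by norm_num) (by decide))))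
theorem fzB1 {x : ℝ} (hx : Rng 649613803 48318383 x) : StpAll (fun t t' a => OnT (fun q X y z => eng.v x * (pcB q).K.v X y z) (fun q => (pcB q).L.v)
      (fun q => (Fn3.sc esg (pd q)).v) x 1 (fun _ => Dw)
    (fun y X A L C => FarP (((3 : ℕ) : ℝ) / ((10 : ℕ) : ℝ)) x (mT.v x) 1 y X A L C ((a : ℝ) / 1000) Dw) fun y =>
      t ≤ h0 * y ∧ h0 * y ≤ t' + 3 / 100 ∧ qqn Dw y ≤ 3) 1340 880 blB 1792 :=
  StpAll.cons (OnT.noLo (by norm_num) (by decide)) (StpAll.cons (OnT.noLo (by norm_num) (by decide)) (StpAll.nil (OnT.noLo (by norm_num) (by decide))))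
theorem nzB1 {x : ℝ} (hx : Rng 649613803 48318383 x) : StpAll (fun t t' a => OnT (fun q X y z => eng.v x * (pcB q).K.v X y z) (fun q => (pcB q).L.v)
      (fun q => (Fn3.sc esg (pd q)).v) x 1 (fun _ => 2 / 5)
    (fun y X A L C => NearP (((3 : ℕ) : ℝ) / ((10 : ℕ) : ℝ)) x (mT.v x) 1 y X A L C ((a : ℝ) / 1000)) fun y =>
      t ≤ h0 * y ∧ h0 * y ≤ t' + 3 / 100 ∧ 1 ≤ qqn (2 / 5) y) 1340 880 blB 1792 :=
  StpAll.cons (OnT.noLo (by norm_num) (by decide)) (StpAll.cons (OnT.noLo (by norm_num) (by decide)) (StpAll.nil (OnT.noLo (by norm_num) (by decide))))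
theorem fzB2 {x : ℝ} (hx : Rng 649613803 48318383 x) : StpAll (fun t t' a => OnT (fun q X y z => eng.v x * (pcB q).K.v X y z) (fun q => (pcB q).L.v)
      (fun q => (Fn3.sc esg (pd q)).v) x 2 (fun _ => Dw)
    (fun y X A L C => FarP (((3 : ℕ) : ℝ) / ((10 : ℕ) : ℝ)) x (mT.v x) 2 y X A L C ((a : ℝ) / 1000) Dw) fun y =>
      t ≤ h0 * y ∧ h0 * y ≤ t' + 3 / 100 ∧ qqn Dw y ≤ 3) 1340 880 blB 1792 :=
  StpAll.cons (OnT.stR (pc := pcE2) (c := (Fn3.sc esg pd2)) cB_R0_2 hx (fun _ _ => rfl) (fun _ _ => rfl)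
    (fun _ _ => rfl) (fun _ _ => rfl) (by decide) (by decide)) (StpAll.cons (OnT.stR (pc := pcE2) (c := (Fn3.sc esg pd2)) cB_R1_2 hx (fun _ _ => rfl) (fun _ _ => rfl)
    (fun _ _ => rfl) (fun _ _ => rfl) (by decide) (by decide)) (StpAll.nil (OnT.stR (pc := pcE2) (c := (Fn3.sc esg pd2)) cB_R2_2 hx (fun _ _ => rfl) (fun _ _ => rfl)
    (fun _ _ => rfl) (fun _ _ => rfl) (by decide) (by decide))))
theorem nzB2 {x : ℝ} (hx : Rng 649613803 48318383 x) : StpAll (fun t t' a => OnT (fun q X y z => eng.v x * (pcB q).K.v X y z) (fun q => (pcB q).L.v)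
      (fun q => (Fn3.sc esg (pd q)).v) x 2 (fun _ => 2 / 5)
    (fun y X A L C => NearP (((3 : ℕ) : ℝ) / ((10 : ℕ) : ℝ)) x (mT.v x) 2 y X A L C ((a : ℝ) / 1000)) fun y =>
      t ≤ h0 * y ∧ h0 * y ≤ t' + 3 / 100 ∧ 1 ≤ qqn (2 / 5) y) 1340 880 blB 1792 :=
  StpAll.cons (OnT.stN (pc := pcE2) (c := (Fn3.sc esg pd2)) cB_N0_2 hx (fun _ _ => rfl) (fun _ _ => rfl)
    (fun _ _ => rfl) (fun _ _ => rfl) (by decide) (by decide)) (StpAll.cons (OnT.stN (pc := pcE2) (c := (Fn3.sc esg pd2)) cB_N1_2 hx (fun _ _ => rfl) (fun _ _ => rfl)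
    (fun _ _ => rfl) (fun _ _ => rfl) (by decide) (by decide)) (StpAll.nil (OnT.stN (pc := pcE2) (c := (Fn3.sc esg pd2)) cB_N2_2 hx (fun _ _ => rfl) (fun _ _ => rfl)
    (fun _ _ => rfl) (fun _ _ => rfl) (by decide) (by decide))))
theorem fzB3 {x : ℝ} (hx : Rng 649613803 48318383 x) : StpAll (fun t t' a => OnT (fun q X y z => eng.v x * (pcB q).K.v X y z) (fun q => (pcB q).L.v)
      (fun q => (Fn3.sc esg (pd q)).v) x 3 (fun _ => Dw)
    (fun y X A L C => FarP (((3 : ℕ) : ℝ) / ((10 : ℕ) : ℝ)) x (mT.v x) 3 y X A L C ((a : ℝ) / 1000) Dw) fun y =>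
      t ≤ h0 * y ∧ h0 * y ≤ t' + 3 / 100 ∧ qqn Dw y ≤ 3) 1340 880 blB 1792 :=
  StpAll.cons (OnT.noHi (by decide)) (StpAll.cons (OnT.noHi (by decide)) (StpAll.nil (OnT.stR (pc := pcE3) (c := (Fn3.sc esg pd3)) cB_R2_3 hx (fun _ _ => rfl) (fun _ _ => rfl)
    (fun _ _ => rfl) (fun _ _ => rfl) (by decide) (by decide))))
theorem nzB3 {x : ℝ} (hx : Rng 649613803 48318383 x) : StpAll (fun t t' a => OnT (fun q X y z => eng.v x * (pcB q).K.v X y z) (fun q => (pcB q).L.v)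
      (fun q => (Fn3.sc esg (pd q)).v) x 3 (fun _ => 2 / 5)
    (fun y X A L C => NearP (((3 : ℕ) : ℝ) / ((10 : ℕ) : ℝ)) x (mT.v x) 3 y X A L C ((a : ℝ) / 1000)) fun y =>
      t ≤ h0 * y ∧ h0 * y ≤ t' + 3 / 100 ∧ 1 ≤ qqn (2 / 5) y) 1340 880 blB 1792 :=
  StpAll.cons (OnT.noHi (by decide)) (StpAll.cons (OnT.noHi (by decide)) (StpAll.nil (OnT.stN (pc := pcE3) (c := (Fn3.sc esg pd3)) cB_N2_3 hx (fun _ _ => rfl) (fun _ _ => rfl)
    (fun _ _ => rfl) (fun _ _ => rfl) (by decide) (by decide))))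
theorem fvB {x : ℝ} (hx : Rng 649613803 48318383 x) : FV PP x (mT.v x) (((3 : ℕ) : ℝ) / ((10 : ℕ) : ℝ)) (tnt (h0 * x) (((3 : ℕ) : ℝ) / ((10 : ℕ) : ℝ)))
    (fun T i => eng.v x * tbl tK x T i) (tbl tL x) (tbl (smT h0⁻¹ tC) x) (smT (eng.v x) tK) tL tC
    (fun q X y z => eng.v x * (pcB q).K.v X y z) (fun q => (pcB q).L.v)
      (fun q => (Fn3.sc esg (pd q)).v) :=
  FV.three (th := (((3 : ℕ) : ℝ) / ((10 : ℕ) : ℝ))) (rng_pos hx (by norm_num)) (rng_lt hx (by norm_num)) (mT_nn x) (by norm_num) (by norm_num)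
    (pinK hx.1 hx.2) (sideB hx.1 hx.2).linkK (sideB hx.1 hx.2).linkL (thrB hx.1 hx.2).link
theorem hsB {x : ℝ} (hx : Rng 649613803 48318383 x) : ∀ y : ℝ, 1 ≤ y → h0 * y ≤ 1 → GV PP x (mT.v x)
    (fun T i => eng.v x * tbl tK x T i) (tbl tL x) (tbl (smT h0⁻¹ tC) x) (tnt (h0 * x) (((3 : ℕ) : ℝ) / ((10 : ℕ) : ℝ))) 2 y (1 - G y) := by
  have x0 := rng_pos hx (by norm_num)
  have x1 := rng_lt hx (by norm_num)
  have V := fvB hx
  have bK : En x * (Node.sc eng ndB4q2).K.v 1 x = (En x + mT.v x * Qn x) * (1 / 2) := bK_eng x0 x1 (eng_v x) (corB42 x).2.1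
  have pK0 : tK (4 : Fin 9) 2 1 x = tK 0 2 1 x := (pinK hx.1 hx.2).mid _ (le_of_eq_of_le (show PP.ρ (4 : Fin 9) = 17 / 20 from rfl) (by norm_num))
  have pK : smT (eng.v x) tK (4 : Fin 9) 2 1 x = smT (eng.v x) tK 0 2 1 x := congrArg (fun t => eng.v x * t) pK0
  have pL : tL (4 : Fin 9) 2 1 x = tL 0 2 1 x := (pinL hx.1 hx.2).mid _ (le_of_eq_of_le (show PP.ρ (4 : Fin 9) = 17 / 20 from rfl) (by norm_num))
  exact V.steepC (i := (4 : Fin 8)) (jl := (4 : Fin 9)) (jr := (5 : Fin 9)) (by norm_num) (by norm_num) rfl rfl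
    (by decide) (fun y hy => (atB42 hy).amp eng) (fun y hy => (atB52 hy).amp eng) (corB42 x).1 bK (corB42 x).2.2.1 pK pL
    (pc := pcE2) (c := Fn3.sc esg pd2) (fun _ _ => rfl) (fun _ _ => rfl) (fun _ _ => rfl) cB_st cB_sm cB_sw hx (by norm_num)
    (by norm_num) (by norm_num)
theorem winB {x : ℝ} (hx : Rng 649613803 48318383 x) : WinN PP x (mT.v x) (((3 : ℕ) : ℝ) / ((10 : ℕ) : ℝ)) (tnt (h0 * x) (((3 : ℕ) : ℝ) / ((10 : ℕ) : ℝ))) (fun T i => eng.v x * tbl tK x T i)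
      (tbl tL x) (tbl (smT h0⁻¹ tC) x)
    (smT (eng.v x) tK) tL (smT h0⁻¹ tC) (fun q X y z => eng.v x * (pcB q).K.v X y z) (fun q => (pcB q).L.v)
      (fun q X y x => h0⁻¹ * (Fn3.sc esg (pd q)).v X y x)
    Dw (stp hlB 1040) (stp blB 1792) := by
  refine (fvB hx).winN ?_ ?_ ?_ (hsB hx) ?_ ?_ (by norm_num [Dw]) (by norm_num [Dw]) ?_ ?_ ?_ ?_ ?_ ?_ ?_
  · exact fun j => match j with
    | 0 => (onB00 hx).imp fun _ _ _ => trivial
    | 1 => (onB10 hx).imp fun _ _ _ => trivial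
    | 2 => (onB20 hx).imp fun _ _ _ => trivial
    | 3 => (onB30 hx).imp fun _ _ _ => trivial
    | 4 => (onB40 hx).imp fun _ _ _ => trivial
    | 5 => (onB50 hx)
    | 6 => (onB60 hx)
    | 7 => (onB70 hx)
    | 8 => (onB80 hx)
  · exact fun j => match j with
    | 0 => onB01 hx
    | 1 => onB11 hx
    | 2 => onB21 hx
    | 3 => onB31 hx
    | 4 => onB41 hx
    | 5 => onB51 hx
    | 6 => onB61 hx
    | 7 => onB71 hx
    | 8 => onB81 hx
  · exact fun j => match j with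
    | 0 => fun h => absurd h (not_lt.2 (le_of_eq_of_le (show PP.ρ (0 : Fin 9) = 0 from rfl) (by norm_num)))
    | 1 => fun h => absurd h (not_lt.2 (le_of_eq_of_le (show PP.ρ (1 : Fin 9) = 2 / 25 from rfl) (by norm_num)))
    | 2 => fun h => absurd h (not_lt.2 (le_of_eq_of_le (show PP.ρ (2 : Fin 9) = 1 / 4 from rfl) (by norm_num)))
    | 3 => fun h => absurd h (not_lt.2 (le_of_eq_of_le (show PP.ρ (3 : Fin 9) = 1 / 2 from rfl) (by norm_num)))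
    | 4 => fun h => absurd h (not_lt.2 (le_of_eq_of_le (show PP.ρ (4 : Fin 9) = 17 / 20 from rfl) (by norm_num)))
    | 5 => fun _ => onB52 hx
    | 6 => fun _ => onB62 hx
    | 7 => fun _ => onB72 hx
    | 8 => fun _ => onB82 hx
  · exact fun j => match j with
    | 0 => flB0 hx
    | 1 => flB1 hx
    | 2 => flB2 hx
    | 3 => flB3 hx
    | 4 => flB4 hx
    | 5 => flB5 hx
    | 6 => flB6 hx
    | 7 => flB7 hx
    | 8 => flB8 hx
  · exact fun j => match j with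
    | 0 => (onB00 hx).imp fun _ _ _ => trivial
    | 1 => (onB10 hx).imp fun _ _ _ => trivial
    | 2 => (onB20 hx).imp fun _ _ _ => trivial
    | 3 => (onB30 hx).imp fun _ _ _ => trivial
    | 4 => (onB40 hx).imp fun _ _ _ => trivial
    | 5 => leB5 hx
    | 6 => leB6 hx
    | 7 => leB7 hx
    | 8 => leB8 hx
  · exact OnT.left0 (pc := pcE0) (c := (Fn3.sc esg pd0)) cB_ll hx (fun _ _ => rfl) (fun _ _ => rfl) (fun _ _ => rfl)
      (fun _ _ => rfl)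
  · exact fun j q => match q with
    | 0 => match j with
      | 0 => hiB00 hx
      | 1 => hiB10 hx
      | 2 => hiB20 hx
      | 3 => hiB30 hx
      | 4 => hiB40 hx
      | 5 => hiB50 hx
      | 6 => hiB60 hx
      | 7 => hiB70 hx
      | 8 => hiB80 hx
    | 1 => match j with
      | 0 => hiB01 hx
      | 1 => hiB11 hx
      | 2 => hiB21 hx
      | 3 => hiB31 hx
      | 4 => hiB41 hx
      | 5 => hiB51 hx
      | 6 => hiB61 hx
      | 7 => hiB71 hx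
      | 8 => hiB81 hx
    | 2 => match j with
      | 0 => hiB02 hx
      | 1 => hiB12 hx
      | 2 => hiB22 hx
      | 3 => hiB32 hx
      | 4 => hiB42 hx
      | 5 => hiB52 hx
      | 6 => hiB62 hx
      | 7 => hiB72 hx
      | 8 => hiB82 hx
    | 3 => match j with
      | 0 => hiB03 hx
      | 1 => hiB13 hx
      | 2 => hiB23 hx
      | 3 => hiB33 hx
      | 4 => hiB43 hx
      | 5 => hiB53 hx
      | 6 => hiB63 hx
      | 7 => hiB73 hx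
      | 8 => hiB83 hx
    | q + 4 => StpAll.all fun _ _ _ => On.qbig q
  · exact high0_of (StpAll.cons (Or.inl (by norm_num)) (StpAll.cons (Or.inl (by norm_num)) (StpAll.nil (Or.inr (by norm_num [Dw])))))
  · exact fun j q => match q with
    | 0 => match j with
      | 0 => faB00 hx
      | 1 => faB10 hx
      | 2 => faB20 hx
      | 3 => faB30 hx
      | 4 => faB40 hx
      | 5 => faB50 hx
      | 6 => faB60 hx
      | 7 => faB70 hx
      | 8 => faB80 hx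
    | 1 => match j with
      | 0 => faB01 hx
      | 1 => faB11 hx
      | 2 => faB21 hx
      | 3 => faB31 hx
      | 4 => faB41 hx
      | 5 => faB51 hx
      | 6 => faB61 hx
      | 7 => faB71 hx
      | 8 => faB81 hx
    | 2 => match j with
      | 0 => faB02 hx
      | 1 => faB12 hx
      | 2 => faB22 hx
      | 3 => faB32 hx
      | 4 => faB42 hx
      | 5 => faB52 hx
      | 6 => faB62 hx
      | 7 => faB72 hx
      | 8 => faB82 hx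
    | 3 => match j with
      | 0 => faB03 hx
      | 1 => faB13 hx
      | 2 => faB23 hx
      | 3 => faB33 hx
      | 4 => faB43 hx
      | 5 => faB53 hx
      | 6 => faB63 hx
      | 7 => faB73 hx
      | 8 => faB83 hx
    | q + 4 => StpAll.all fun _ _ _ => On.qbig q
  · exact fun q => match q with
    | 0 => fzB0 hx
    | 1 => fzB1 hx
    | 2 => fzB2 hx
    | 3 => fzB3 hx
    | q + 4 => StpAll.all fun _ _ _ => OnT.qbig q
  · exact fun j q => match q with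
    | 0 => match j with
      | 0 => neB00 hx
      | 1 => neB10 hx
      | 2 => neB20 hx
      | 3 => neB30 hx
      | 4 => neB40 hx
      | 5 => neB50 hx
      | 6 => neB60 hx
      | 7 => neB70 hx
      | 8 => neB80 hx
    | 1 => match j with
      | 0 => neB01 hx
      | 1 => neB11 hx
      | 2 => neB21 hx
      | 3 => neB31 hx
      | 4 => neB41 hx
      | 5 => neB51 hx
      | 6 => neB61 hx
      | 7 => neB71 hx
      | 8 => neB81 hx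
    | 2 => match j with
      | 0 => neB02 hx
      | 1 => neB12 hx
      | 2 => neB22 hx
      | 3 => neB32 hx
      | 4 => neB42 hx
      | 5 => neB52 hx
      | 6 => neB62 hx
      | 7 => neB72 hx
      | 8 => neB82 hx
    | 3 => match j with
      | 0 => neB03 hx
      | 1 => neB13 hx
      | 2 => neB23 hx
      | 3 => neB33 hx
      | 4 => neB43 hx
      | 5 => neB53 hx
      | 6 => neB63 hx
      | 7 => neB73 hx
      | 8 => neB83 hx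
    | q + 4 => StpAll.all fun _ _ _ => On.qbig q
  · exact fun q => match q with
    | 0 => nzB0 hx
    | 1 => nzB1 hx
    | 2 => nzB2 hx
    | 3 => nzB3 hx
    | q + 4 => StpAll.all fun _ _ _ => OnT.qbig q

end Pool.Agent.Strip051.G.I6050_6500.Tab
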