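import Pool.Agent.Strip051.PB.FlAsmY
import Pool.Agent.Strip051.G.I6050_6500.Tab

/-! # Slopes (generated) -/

set_option linter.all false

namespace Pool.Agent.Strip051.G.I6050_6500.Tab

open Pool.Agent.Strip051.PB

attribute [local irreducible] padd psub pneg pmul psq pinv psqrt psqrtg pabs pps pmax pmin pphi
  plam pcase phf pnat prat pscale pnorm pdc pnc pone ppos pnn

noncomputable def c1g_fs : Sl1 c1g := ⟨_, fun h1 => (pr_sqrtg (pr_csub (enc_pnc _ 1) (pr_scale 3 4 (pr_sq h1))))⟩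
noncomputable def kcg_6_fs : Sl2 kcg_6 := ⟨_, fun h1 h2 => (pr_addc h1 (enc_rat _ 1 4))⟩
noncomputable def kcg_9_fs : Sl2 kcg_9 := ⟨_, fun h1 h2 => (pr_addc h1 (enc_rat _ 2 5))⟩
noncomputable def kcg_12_fs : Sl2 kcg_12 := ⟨_, fun h1 h2 => (pr_addc h1 (enc_rat _ 9 20))⟩
noncomputable def kcg_13_fs : Sl2 kcg_13 := ⟨_, fun h1 h2 => (pr_scale 4183229 5000000 h1)⟩
noncomputable def kcg_16_fs : Sl2 kcg_16 := ⟨_, fun h1 h2 => (pr_scale 42557 62500 h1)⟩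
noncomputable def kcg_36_fs : Sl2 kcg_36 := ⟨_, fun h1 h2 => (pr_scale 3027921 2500000 h1)⟩
noncomputable def kcg_41_fs : Sl2 kcg_41 := ⟨_, fun h1 h2 => (pr_scale 93 500000 h1)⟩
noncomputable def kcg_61_fs : Sl2 kcg_61 := ⟨_, fun h1 h2 => (pr_addc h1 (enc_rat _ 7 20))⟩
noncomputable def kcg_62_fs : Sl2 kcg_62 := ⟨_, fun h1 h2 => (pr_scale 5319707 2500000 h1)⟩
noncomputable def kcg_67_fs : Sl2 kcg_67 := ⟨_, fun h1 h2 => (pr_scale 17 250000 h1)⟩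
noncomputable def kcg_86_fs : Sl2 kcg_86 := ⟨_, fun h1 h2 => (pr_addc h1 (enc_rat _ 3 10))⟩
noncomputable def kcg_87_fs : Sl2 kcg_87 := ⟨_, fun h1 h2 => (pr_scale 15008691 5000000 h1)⟩
noncomputable def kcg_92_fs : Sl2 kcg_92 := ⟨_, fun h1 h2 => (pr_scale 1 50000 h1)⟩
noncomputable def kcg_107_fs : Sl2 kcg_107 := ⟨_, fun h1 h2 => (pr_scale 10333621 5000000 h1)⟩
noncomputable def kcg_112_fs : Sl2 kcg_112 := ⟨_, fun h1 h2 => (pr_scale 9 250000 h1)⟩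
noncomputable def kcg_135_fs : Sl2 kcg_135 := ⟨_, fun h1 h2 => (pr_addc h1 (enc_rat _ 3 20))⟩
noncomputable def kcg_138_fs : Sl2 kcg_138 := ⟨_, fun h1 h2 => (pr_addc h1 (enc_rat _ 1 5))⟩
noncomputable def kcg_139_fs : Sl2 kcg_139 := ⟨_, fun h1 h2 => (pr_scale 363483 1000000 h1)⟩
noncomputable def kcg_143_fs : Sl2 kcg_143 := ⟨_, fun h1 h2 => (pr_scale 1 500000 h1)⟩
noncomputable def kcg_161_fs : Sl2 kcg_161 := ⟨_, fun h1 h2 => (pr_scale 2539699 1000000 h1)⟩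
noncomputable def kcg_164_fs : Sl2 kcg_164 := ⟨_, fun h1 h2 => (pr_scale 58439 12500 h1)⟩
noncomputable def kcg_183_fs : Sl2 kcg_183 := ⟨_, fun h1 h2 => (pr_addc h1 (enc_rat _ 1 10))⟩
noncomputable def kcg_184_fs : Sl2 kcg_184 := ⟨_, fun h1 h2 => (pr_scale 15089471 5000000 h1)⟩
noncomputable def kcg_187_fs : Sl2 kcg_187 := ⟨_, fun h1 h2 => (pr_nat 5 h1)⟩
noncomputable def kcg_203_fs : Sl2 kcg_203 := ⟨_, fun h1 h2 => (pr_scale 11569787 5000000 h1)⟩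
noncomputable def kcg_206_fs : Sl2 kcg_206 := ⟨_, fun h1 h2 => (pr_scale 4061 12500 h1)⟩
noncomputable def kcg_219_fs : Sl2 kcg_219 := ⟨_, fun h1 h2 => (pr_scale 4994127 2500000 h1)⟩
noncomputable def kcg_226_fs : Sl2 kcg_226 := ⟨_, fun h1 h2 => (pr_csub (enc_rat _ 1 4) h1)⟩
noncomputable def kcg_227_fs : Sl2 kcg_227 := ⟨_, fun h1 h2 => (pr_csub (enc_rat _ 2 5) h1)⟩
noncomputable def kcg_228_fs : Sl2 kcg_228 := ⟨_, fun h1 h2 => (pr_csub (enc_rat _ 9 20) h1)⟩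
noncomputable def kcg_248_fs : Sl2 kcg_248 := ⟨_, fun h1 h2 => (pr_csub (enc_rat _ 7 20) h1)⟩
noncomputable def kcg_257_fs : Sl2 kcg_257 := ⟨_, fun h1 h2 => (pr_csub (enc_rat _ 3 10) h1)⟩
noncomputable def kcg_277_fs : Sl2 kcg_277 := ⟨_, fun h1 h2 => (pr_csub (enc_rat _ 3 20) h1)⟩
noncomputable def kcg_278_fs : Sl2 kcg_278 := ⟨_, fun h1 h2 => (pr_csub (enc_rat _ 1 5) h1)⟩
noncomputable def kcg_299_fs : Sl2 kcg_299 := ⟨_, fun h1 h2 => (pr_csub (enc_rat _ 1 10) h1)⟩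
noncomputable def kcg_fs : Sl2 kcg := ⟨_, fun h1 h2 => (pr_norm (pr_case h1 (pr_case (kcg_6_fs.snd h1 h2) (pr_case (kcg_9_fs.snd h1 h2) (pr_case (kcg_12_fs.snd h1 h2) (pr_add (pr_add (pr_addc (kcg_13_fs.snd h1 h2) (enc_rat _ 28523207 100000000)) (pr_cmul (enc_norm (kcg_3.enc h1.l h2)) (pr_norm (pr_subr 2015987 2500000 (pr_neg (kcg_16_fs.snd h1 h2)))))) (pr_cmul (enc_norm (kcg_28.enc h1.l h2)) (pr_norm (pr_mul (pr_norm (pr_addc h1 (enc_rat _ 1 2))) (pr_norm (pr_csub (enc_neg (enc_rat _ 9 20)) h1)))))) (pr_add (pr_add (pr_subr 3976777 6250000 (pr_neg (kcg_36_fs.snd h1 h2))) (pr_cmul (enc_norm (kcg_3.enc h1.l h2)) (pr_norm (pr_subr 5000681 10000000 (pr_neg (kcg_41_fs.snd h1 h2)))))) (pr_cmul (enc_norm (kcg_53.enc h1.l h2)) (pr_norm (pr_mul (pr_norm (kcg_12_fs.snd h1 h2)) (pr_norm (pr_csub (enc_neg (enc_rat _ 2 5)) h1))))))) (pr_case (kcg_61_fs.snd h1 h2) (pr_add (pr_add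 (pr_subr 6268563 6250000 (pr_neg (kcg_62_fs.snd h1 h2))) (pr_cmul (enc_norm (kcg_3.enc h1.l h2)) (pr_norm (pr_subr 5000209 10000000 (pr_neg (kcg_67_fs.snd h1 h2)))))) (pr_cmul (enc_norm (kcg_79.enc h1.l h2)) (pr_norm (pr_mul (pr_norm (kcg_9_fs.snd h1 h2)) (pr_norm (pr_csub (enc_neg (enc_rat _ 7 20)) h1)))))) (pr_case (kcg_86_fs.snd h1 h2) (pr_add (pr_add (pr_subr 130881947 100000000 (pr_neg (kcg_87_fs.snd h1 h2))) (pr_cmul (enc_norm (kcg_3.enc h1.l h2)) (pr_norm (pr_subr 5000041 10000000 (pr_neg (kcg_92_fs.snd h1 h2)))))) (pr_cmul (enc_norm (kcg_102.enc h1.l h2)) (pr_norm (pr_mul (pr_norm (kcg_61_fs.snd h1 h2)) (pr_norm (pr_csub (enc_neg (enc_rat _ 3 10)) h1)))))) (pr_add (pr_add (pr_subr 102831527 100000000 (pr_neg (kcg_107_fs.snd h1 h2))) (pr_cmul (enc_norm (kcg_3.enc h1.l h2)) (pr_norm (pr_subr 5000089 10000000 (pr_neg (kcg_112_fs.snd h1 h2)))))) (pr_cmul (enc_norm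 (kcg_125.enc h1.l h2)) (pr_norm (pr_mul (pr_norm (kcg_86_fs.snd h1 h2)) (pr_norm (pr_csub (enc_neg (enc_rat _ 1 4)) h1))))))))) (pr_case (kcg_135_fs.snd h1 h2) (pr_case (kcg_138_fs.snd h1 h2) (pr_add (pr_add (pr_subr 42076347 100000000 (kcg_139_fs.snd h1 h2)) (pr_cmul (enc_norm (kcg_3.enc h1.l h2)) (pr_norm (pr_subr 1250001 2500000 (pr_neg (kcg_143_fs.snd h1 h2)))))) (pr_cmul (enc_norm (kcg_156.enc h1.l h2)) (pr_norm (pr_mul (pr_norm (kcg_6_fs.snd h1 h2)) (pr_norm (pr_csub (enc_neg (enc_rat _ 1 5)) h1)))))) (pr_add (pr_add (pr_addc (kcg_161_fs.snd h1 h2) (enc_rat _ 1447973 100000000)) (pr_cmul (enc_norm (kcg_3.enc h1.l h2)) (pr_norm (pr_addc (kcg_164_fs.snd h1 h2) (enc_rat _ 27189 62500))))) (pr_cmul (enc_norm (kcg_175.enc h1.l h2)) (pr_norm (pr_mul (pr_norm (kcg_138_fs.snd h1 h2)) (pr_norm (pr_csub (enc_neg (enc_rat _ 3 20)) h1))))))) (pr_case (kcg_183_fs.snd h1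 h2) (pr_add (pr_add (pr_addc (kcg_184_fs.snd h1 h2) (enc_rat _ 8620901 100000000)) (pr_cmul (enc_norm (kcg_3.enc h1.l h2)) (pr_norm (pr_addc (kcg_187_fs.snd h1 h2) (enc_rat _ 120939 250000))))) (pr_cmul (enc_norm (kcg_195.enc h1.l h2)) (pr_norm (pr_mul (pr_norm (kcg_135_fs.snd h1 h2)) (pr_norm (pr_csub (enc_neg (enc_rat _ 1 10)) h1)))))) (pr_case (pr_addc h1 (enc_rat _ 1 20)) (pr_add (pr_add (pr_addc (kcg_203_fs.snd h1 h2) (enc_rat _ 1581533 100000000)) (pr_cmul (enc_norm (kcg_3.enc h1.l h2)) (pr_norm (pr_addc (kcg_206_fs.snd h1 h2) (enc_rat _ 4061 250000))))) (pr_cmul (enc_norm (kcg_214.enc h1.l h2)) (pr_norm (pr_mul (pr_norm (kcg_183_fs.snd h1 h2)) (pr_norm (pr_csub (enc_neg (enc_rat _ 1 20)) h1)))))) (kcg_219_fs.snd h1 h2))))) (pr_neg (pr_case (kcg_226_fs.snd h1 h2) (pr_case (kcg_227_fs.snd h1 h2) (pr_case (kcg_228_fs.snd h1 h2) (pr_add (pr_add (pr_csub (enc_rat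 _ 28523207 100000000) (kcg_13_fs.snd h1 h2)) (pr_cmul (enc_norm (kcg_3.enc h1.l h2)) (pr_norm (pr_subr 2015987 2500000 (kcg_16_fs.snd h1 h2))))) (pr_cmul (enc_norm (kcg_28.enc h1.l h2)) (pr_norm (pr_mul (pr_norm (pr_csub (enc_rat _ 1 2) h1)) (pr_norm (pr_subr 9 20 h1)))))) (pr_add (pr_add (pr_subr 3976777 6250000 (kcg_36_fs.snd h1 h2)) (pr_cmul (enc_norm (kcg_3.enc h1.l h2)) (pr_norm (pr_subr 5000681 10000000 (kcg_41_fs.snd h1 h2))))) (pr_cmul (enc_norm (kcg_53.enc h1.l h2)) (pr_norm (pr_mul (pr_norm (kcg_228_fs.snd h1 h2)) (pr_norm (pr_subr 2 5 h1))))))) (pr_case (kcg_248_fs.snd h1 h2) (pr_add (pr_add (pr_subr 6268563 6250000 (kcg_62_fs.snd h1 h2)) (pr_cmul (enc_norm (kcg_3.enc h1.l h2)) (pr_norm (pr_subr 5000209 10000000 (kcg_67_fs.snd h1 h2))))) (pr_cmul (enc_norm (kcg_79.enc h1.l h2)) (pr_norm (pr_mul (pr_norm (kcg_227_fs.snd h1 h2)) (pr_norm (pr_subr 7 20 h1))))))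 (pr_case (kcg_257_fs.snd h1 h2) (pr_add (pr_add (pr_subr 130881947 100000000 (kcg_87_fs.snd h1 h2)) (pr_cmul (enc_norm (kcg_3.enc h1.l h2)) (pr_norm (pr_subr 5000041 10000000 (kcg_92_fs.snd h1 h2))))) (pr_cmul (enc_norm (kcg_102.enc h1.l h2)) (pr_norm (pr_mul (pr_norm (kcg_248_fs.snd h1 h2)) (pr_norm (pr_subr 3 10 h1)))))) (pr_add (pr_add (pr_subr 102831527 100000000 (kcg_107_fs.snd h1 h2)) (pr_cmul (enc_norm (kcg_3.enc h1.l h2)) (pr_norm (pr_subr 5000089 10000000 (kcg_112_fs.snd h1 h2))))) (pr_cmul (enc_norm (kcg_125.enc h1.l h2)) (pr_norm (pr_mul (pr_norm (kcg_257_fs.snd h1 h2)) (pr_norm (pr_subr 1 4 h1))))))))) (pr_case (kcg_277_fs.snd h1 h2) (pr_case (kcg_278_fs.snd h1 h2) (pr_add (pr_add (pr_subr 42076347 100000000 (pr_neg (kcg_139_fs.snd h1 h2))) (pr_cmul (enc_norm (kcg_3.enc h1.l h2)) (pr_norm (pr_subr 1250001 2500000 (kcg_143_fs.snd h1 h2))))) (pr_cmul (enc_norm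 (kcg_156.enc h1.l h2)) (pr_norm (pr_mul (pr_norm (kcg_226_fs.snd h1 h2)) (pr_norm (pr_subr 1 5 h1)))))) (pr_add (pr_add (pr_csub (enc_rat _ 1447973 100000000) (kcg_161_fs.snd h1 h2)) (pr_cmul (enc_norm (kcg_3.enc h1.l h2)) (pr_norm (pr_csub (enc_rat _ 27189 62500) (kcg_164_fs.snd h1 h2))))) (pr_cmul (enc_norm (kcg_175.enc h1.l h2)) (pr_norm (pr_mul (pr_norm (kcg_278_fs.snd h1 h2)) (pr_norm (pr_subr 3 20 h1))))))) (pr_case (kcg_299_fs.snd h1 h2) (pr_add (pr_add (pr_csub (enc_rat _ 8620901 100000000) (kcg_184_fs.snd h1 h2)) (pr_cmul (enc_norm (kcg_3.enc h1.l h2)) (pr_norm (pr_csub (enc_rat _ 120939 250000) (kcg_187_fs.snd h1 h2))))) (pr_cmul (enc_norm (kcg_195.enc h1.l h2)) (pr_norm (pr_mul (pr_norm (kcg_277_fs.snd h1 h2)) (pr_norm (pr_subr 1 10 h1)))))) (pr_case (pr_csub (enc_rat _ 1 20) h1) (pr_add (pr_add (pr_csub (enc_rat _ 1581533 100000000) (kcg_203_fs.snd h1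 h2)) (pr_cmul (enc_norm (kcg_3.enc h1.l h2)) (pr_norm (pr_csub (enc_rat _ 4061 250000) (kcg_206_fs.snd h1 h2))))) (pr_cmul (enc_norm (kcg_214.enc h1.l h2)) (pr_norm (pr_mul (pr_norm (kcg_299_fs.snd h1 h2)) (pr_norm (pr_subr 1 20 h1)))))) (pr_neg (kcg_219_fs.snd h1 h2)))))))))⟩
noncomputable def kf0q0_9_fs : Sl2 kf0q0_9 := ⟨_, fun h1 h2 => (pr_scale 3 2 h1)⟩
noncomputable def kf0q0_12_fs : Sl2 kf0q0_12 := ⟨_, fun h1 h2 => (pr_cadd (enc_pnc _ 1) (c1g_fs.snd h1))⟩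
noncomputable def kf0q0_fs : Sl2 kf0q0 := ⟨_, fun h1 h2 => (pr_norm (pr_add (pr_mul (pr_norm (pr_mul (pr_norm (pr_sub (c1g_fs.snd h1) (kf0q0_9_fs.snd h1 h2))) (pr_norm (kf0q0_12_fs.snd h1 h2)))) (pr_nd (pr_inv (pr_sub (kf0q0_12_fs.snd h1 h2) (kf0q0_9_fs.snd h1 h2))))) (pr_mul h1 (kcg_fs.snd (pr_norm (pr_sub (pr_scale 3 4 h1) (pr_half (c1g_fs.snd h1)))) h2))))⟩
noncomputable def txg_6_fs : Sl3 txg_6 := ⟨_, fun h1 h2 h3 => (pr_add h1 (pr_half h2))⟩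
noncomputable def txg_26_fs : Sl3 txg_26 := ⟨_, fun h1 h2 h3 => (pr_addc h1 (enc_rat _ 1 4))⟩
noncomputable def txg_29_fs : Sl3 txg_29 := ⟨_, fun h1 h2 h3 => (pr_addc h1 (enc_rat _ 2 5))⟩
noncomputable def txg_32_fs : Sl3 txg_32 := ⟨_, fun h1 h2 h3 => (pr_addc h1 (enc_rat _ 47 100))⟩
noncomputable def txg_57_fs : Sl3 txg_57 := ⟨_, fun h1 h2 h3 => (pr_addc h1 (enc_rat _ 11 25))⟩
noncomputable def txg_101_fs : Sl3 txg_101 := ⟨_, fun h1 h2 h3 => (pr_addc h1 (enc_rat _ 33 100))⟩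
noncomputable def txg_104_fs : Sl3 txg_104 := ⟨_, fun h1 h2 h3 => (pr_addc h1 (enc_rat _ 37 100))⟩
noncomputable def txg_151_fs : Sl3 txg_151 := ⟨_, fun h1 h2 h3 => (pr_addc h1 (enc_rat _ 29 100))⟩
noncomputable def txg_196_fs : Sl3 txg_196 := ⟨_, fun h1 h2 h3 => (pr_addc h1 (enc_rat _ 7 50))⟩
noncomputable def txg_199_fs : Sl3 txg_199 := ⟨_, fun h1 h2 h3 => (pr_addc h1 (enc_rat _ 11 50))⟩
noncomputable def txg_222_fs : Sl3 txg_222 := ⟨_, fun h1 h2 h3 => (pr_addc h1 (enc_rat _ 9 50))⟩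
noncomputable def txg_261_fs : Sl3 txg_261 := ⟨_, fun h1 h2 h3 => (pr_addc h1 (enc_rat _ 7 100))⟩
noncomputable def txg_264_fs : Sl3 txg_264 := ⟨_, fun h1 h2 h3 => (pr_addc h1 (enc_rat _ 11 100))⟩
noncomputable def txg_307_fs : Sl3 txg_307 := ⟨_, fun h1 h2 h3 => (pr_addc h1 (enc_rat _ 3 100))⟩
noncomputable def txg_350_fs : Sl3 txg_350 := ⟨_, fun h1 h2 h3 => (pr_subr 13 134 h1)⟩
noncomputable def txg_352_fs : Sl3 txg_352 := ⟨_, fun h1 h2 h3 => (pr_subr 6 25 h1)⟩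
noncomputable def txg_354_fs : Sl3 txg_354 := ⟨_, fun h1 h2 h3 => (pr_subr 3 20 h1)⟩
noncomputable def txg_356_fs : Sl3 txg_356 := ⟨_, fun h1 h2 h3 => (pr_subr 117 1000 h1)⟩
noncomputable def txg_410_fs : Sl3 txg_410 := ⟨_, fun h1 h2 h3 => (pr_subr 19 100 h1)⟩
noncomputable def txg_450_fs : Sl3 txg_450 := ⟨_, fun h1 h2 h3 => (pr_subr 17 50 h1)⟩
noncomputable def txg_451_fs : Sl3 txg_451 := ⟨_, fun h1 h2 h3 => (pr_subr 29 100 h1)⟩
noncomputable def txg_493_fs : Sl3 txg_493 := ⟨_, fun h1 h2 h3 => (pr_subr 39 100 h1)⟩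
noncomputable def txg_512_fs : Sl3 txg_512 := ⟨_, fun h1 h2 h3 => (pr_subr 11 25 h1)⟩
noncomputable def txg_fs : Sl3 txg := ⟨_, fun h1 h2 h3 => (pr_case (pr_subr 11 2198 h1) (pr_case (txg_26_fs.snd h1 h2 h3) (pr_case (txg_29_fs.snd h1 h2 h3) (pr_case (txg_32_fs.snd h1 h2 h3) (pr_add (pr_add (pr_addc (pr_scale 123749 1500000 h1) (enc_rat _ 123749 3000000)) (pr_cmul (enc_norm (txg_4.enc h1.l h2.l h3)) (pr_norm (pr_subr 17759 600000 (pr_neg (pr_scale 17759 300000 h1)))))) (pr_cmul (enc_norm (enc_subr 681913 500000 (enc_scale 1050243 100000 (txg_4.enc h1.l h2.l h3)))) (pr_norm (pr_mul (pr_norm (pr_addc h1 (enc_rat _ 1 2))) (pr_norm (pr_csub (enc_neg (enc_rat _ 47 100)) h1)))))) (pr_case (txg_57_fs.snd h1 h2 h3) (pr_add (pr_add (pr_addc (pr_scale 197429 1500000 h1) (enc_rat _ 965041 15000000)) (pr_cmul (enc_norm (txg_4.enc h1.l h2.l h3)) (pr_norm (pr_subr 9993119 30000000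 (pr_neg (pr_scale 105743 150000 h1)))))) (pr_cmul (enc_norm (enc_subr 547 2000 (enc_scale 1102271 100000 (txg_4.enc h1.l h2.l h3)))) (pr_norm (pr_mul (pr_norm (txg_32_fs.snd h1 h2 h3)) (pr_norm (pr_csub (enc_neg (enc_rat _ 11 25)) h1)))))) (pr_add (pr_add (pr_addc (pr_scale 307 6250 h1) (enc_rat _ 700909 25000000)) (pr_cmul (enc_norm (txg_4.enc h1.l h2.l h3)) (pr_norm (pr_subr 2078139 5000000 (pr_neg (pr_scale 357003 400000 h1)))))) (pr_cmul (enc_norm (enc_sub (enc_rat _ 283451 125000) (enc_scale 89453 25000 (txg_4.enc h1.l h2.l h3)))) (pr_norm (pr_mul (pr_norm (txg_57_fs.snd h1 h2 h3)) (pr_norm (pr_csub (enc_neg (enc_rat _ 2 5)) h1)))))))) (pr_case (txg_101_fs.snd h1 h2 h3) (pr_case (txg_104_fs.snd h1 h2 h3) (pr_add (pr_add (pr_subr 298771 25000000 (pr_neg (pr_scale 1589 31250 h1))) (pr_cmul (enc_norm (txg_4.enc h1.l h2.l h3)) (pr_norm (pr_subr 811529 1875000 (pr_neg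 (pr_scale 280643 300000 h1)))))) (pr_cmul (enc_norm (enc_add (enc_scale 620301 100000 (txg_4.enc h1.l h2.l h3)) (enc_rat _ 308789 1000000))) (pr_norm (pr_mul (pr_norm (txg_29_fs.snd h1 h2 h3)) (pr_norm (pr_csub (enc_neg (enc_rat _ 37 100)) h1)))))) (pr_add (pr_add (pr_subr 368763 100000000 (pr_neg (pr_scale 5703 200000 h1))) (pr_cmul (enc_norm (txg_4.enc h1.l h2.l h3)) (pr_norm (pr_subr 15727773 40000000 (pr_neg (pr_scale 331357 400000 h1)))))) (pr_cmul (enc_norm (enc_subr 394959 500000 (enc_neg (enc_scale 732931 100000 (txg_4.enc h1.l h2.l h3))))) (pr_norm (pr_mul (pr_norm (txg_104_fs.snd h1 h2 h3)) (pr_norm (pr_csub (enc_neg (enc_rat _ 33 100)) h1))))))) (pr_case (txg_151_fs.snd h1 h2 h3) (pr_add (pr_add (pr_subr 3994329 200000000 (pr_neg (pr_scale 155721 2000000 h1))) (pr_cmul (enc_norm (txg_4.enc h1.l h2.l h3)) (pr_norm (pr_addc (pr_scale 325029 400000 h1) (enc_rat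 _ 1186593 8000000))))) (pr_cmul (enc_norm (enc_sub (enc_rat _ 2023557 1000000) (enc_scale 84237 2500 (txg_4.enc h1.l h2.l h3)))) (pr_norm (pr_mul (pr_norm (txg_101_fs.snd h1 h2 h3)) (pr_norm (pr_csub (enc_neg (enc_rat _ 29 100)) h1)))))) (pr_add (pr_add (pr_subr 149219 200000000 (pr_neg (pr_scale 23131 2000000 h1))) (pr_cmul (enc_norm (txg_4.enc h1.l h2.l h3)) (pr_norm (pr_addc (pr_scale 135571 200000 h1) (enc_rat _ 2185121 20000000))))) (pr_cmul (enc_norm (enc_subr 736187 200000 (enc_scale 1853137 50000 (txg_4.enc h1.l h2.l h3)))) (pr_norm (pr_mul (pr_norm (txg_151_fs.snd h1 h2 h3)) (pr_norm (pr_csub (enc_neg (enc_rat _ 1 4)) h1))))))))) (pr_case (txg_196_fs.snd h1 h2 h3) (pr_case (txg_199_fs.snd h1 h2 h3) (pr_add (pr_add (pr_addc (pr_scale 7737 31250 h1) (enc_rat _ 200129 3125000)) (pr_cmul (enc_norm (txg_4.enc h1.l h2.l h3)) (pr_norm (pr_subr 153239 7500000 (pr_scale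 47731 300000 h1))))) (pr_cmul (enc_norm (enc_subr 373041 100000 (enc_neg (enc_scale 3212523 100000 (txg_4.enc h1.l h2.l h3))))) (pr_norm (pr_mul (pr_norm (txg_26_fs.snd h1 h2 h3)) (pr_norm (pr_csub (enc_neg (enc_rat _ 11 50)) h1)))))) (pr_case (txg_222_fs.snd h1 h2 h3) (pr_add (pr_add (pr_addc (pr_scale 846717 2000000 h1) (enc_rat _ 10271167 100000000)) (pr_cmul (enc_norm (txg_4.enc h1.l h2.l h3)) (pr_norm (pr_addc (pr_scale 162863 200000 h1) (enc_rat _ 1237147 10000000))))) (pr_cmul (enc_norm (enc_subr 1596549 1000000 (enc_scale 192841 25000 (txg_4.enc h1.l h2.l h3)))) (pr_norm (pr_mul (pr_norm (txg_199_fs.snd h1 h2 h3)) (pr_norm (pr_csub (enc_neg (enc_rat _ 9 50)) h1)))))) (pr_add (pr_add (pr_addc (pr_scale 950203 2000000 h1) (enc_rat _ 11202541 100000000)) (pr_cmul (enc_norm (txg_4.enc h1.l h2.l h3)) (pr_norm (pr_subr 251761 20000000 (pr_scale 22831 400000 h1)))))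 (pr_cmul (enc_norm (enc_add (enc_scale 560863 50000 (txg_4.enc h1.l h2.l h3)) (enc_rat _ 151487 500000))) (pr_norm (pr_mul (pr_norm (txg_222_fs.snd h1 h2 h3)) (pr_norm (pr_csub (enc_neg (enc_rat _ 7 50)) h1)))))))) (pr_case (txg_261_fs.snd h1 h2 h3) (pr_case (txg_264_fs.snd h1 h2 h3) (pr_add (pr_add (pr_addc (pr_scale 1345091 3000000 h1) (enc_rat _ 16242317 150000000)) (pr_cmul (enc_norm (txg_4.enc h1.l h2.l h3)) (pr_norm (pr_subr 362081 6000000 (pr_neg (pr_scale 85217 300000 h1)))))) (pr_cmul (enc_norm (enc_sub (enc_rat _ 243651 500000) (enc_scale 8963 2500 (txg_4.enc h1.l h2.l h3)))) (pr_norm (pr_mul (pr_norm (txg_196_fs.snd h1 h2 h3)) (pr_norm (pr_csub (enc_neg (enc_rat _ 11 100)) h1)))))) (pr_add (pr_add (pr_addc (pr_scale 1634577 4000000 h1) (enc_rat _ 41565191 400000000)) (pr_cmul (enc_norm (txg_4.enc h1.l h2.l h3)) (pr_norm (pr_subr 1108221 40000000 (pr_scale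 5073 400000 h1))))) (pr_cmul (enc_norm (enc_sub (enc_rat _ 627499 1000000) (enc_scale 472957 100000 (txg_4.enc h1.l h2.l h3)))) (pr_norm (pr_mul (pr_norm (txg_264_fs.snd h1 h2 h3)) (pr_norm (pr_csub (enc_neg (enc_rat _ 7 100)) h1))))))) (pr_case (txg_307_fs.snd h1 h2 h3) (pr_add (pr_add (pr_addc (pr_scale 351077 1000000 h1) (enc_rat _ 9988327 100000000)) (pr_cmul (enc_norm (txg_4.enc h1.l h2.l h3)) (pr_norm (pr_subr 116341 20000000 (pr_scale 2603 8000 h1))))) (pr_cmul (enc_norm (enc_sub (enc_rat _ 162337 200000) (enc_scale 38597 12500 (txg_4.enc h1.l h2.l h3)))) (pr_norm (pr_mul (pr_norm (txg_261_fs.snd h1 h2 h3)) (pr_norm (pr_csub (enc_neg (enc_rat _ 3 100)) h1)))))) (pr_add (pr_add (pr_addc (pr_scale 1329844161414197 4646410447000000 h1) (enc_rat _ 45505655883590503 464641044700000000)) (pr_cmul (enc_norm (txg_4.enc h1.l h2.l h3)) (pr_norm (pr_addc (pr_scale 225510933143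 422785300000 h1) (enc_rat _ 1790517553 4227853000000))))) (pr_cmul (enc_norm (enc_sub (enc_rat _ 925613 1000000) (enc_scale 12071 5000 (txg_4.enc h1.l h2.l h3)))) (pr_norm (pr_mul (pr_norm (txg_307_fs.snd h1 h2 h3)) (pr_norm (pr_csub (enc_rat _ 11 2198) h1)))))))))) (pr_case (txg_350_fs.snd h1 h2 h3) (pr_sub (pr_mul (pr_norm (pr_csub (enc_pnc _ 1) h2)) (pr_norm (pr_subn 1 (pr_nat 2 h2)))) (pr_mul (pr_norm (pr_nat 2 (pr_subc (pr_scale 4 3 (txg_6_fs.snd h1 h2 h3)) h3))) (pr_norm (pr_mul (pr_norm (pr_subn 1 (pr_add (pr_scale 2 3 (txg_6_fs.snd h1 h2 h3)) h2))) (kcg_fs.snd h1 h3))))) (pr_case (txg_352_fs.snd h1 h2 h3) (pr_case (txg_354_fs.snd h1 h2 h3) (pr_case (txg_356_fs.snd h1 h2 h3) (pr_add (pr_add (pr_add (pr_addc (pr_scale 14686686162727 805443314000000 h1) (enc_rat _ 6966814420456357 61957178000000000)) (pr_cmul (enc_norm (txg_4.enc h1.l h2.l h3)) (pr_norm (pr_subr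 978548786833 77446472500000 (pr_scale 3091403746181 4027216570000 h1))))) (pr_cmul (enc_sq (enc_norm (txg_4.enc h1.l h2.l h3))) (pr_norm (pr_csub (enc_rat _ 145062981 5779587500) (pr_scale 32236218 150269275 h1))))) (pr_cmul (enc_norm (enc_add (enc_mul (enc_norm (enc_subr 131293 50000 (enc_scale 102213 10000 (txg_4.enc h1.l h2.l h3)))) (enc_norm (txg_4.enc h1.l h2.l h3))) (enc_rat _ 1972461 1000000))) (pr_norm (pr_mul (pr_norm (txg_350_fs.snd h1 h2 h3)) (pr_norm (pr_csub (enc_rat _ 117 1000) h1)))))) (pr_add (pr_add (pr_csub (enc_rat _ 17147519 137500000) (pr_scale 95241 1100000 h1)) (pr_cmul (enc_norm (txg_4.enc h1.l h2.l h3)) (pr_norm (pr_subr 621883 55000000 (pr_scale 249571 330000 h1))))) (pr_cmul (enc_norm (enc_add (enc_mul (enc_norm (enc_sub (enc_rat _ 24179 12500) (enc_scale 17379 5000 (txg_4.enc h1.l h2.l h3)))) (enc_norm (txg_4.enc h1.l h2.l h3))) (enc_rat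 _ 1981727 1000000))) (pr_norm (pr_mul (pr_norm (txg_356_fs.snd h1 h2 h3)) (pr_norm (pr_csub (enc_rat _ 3 20) h1))))))) (pr_case (txg_410_fs.snd h1 h2 h3) (pr_add (pr_add (pr_csub (enc_rat _ 60166613 400000000) (pr_scale 1031859 4000000 h1)) (pr_cmul (enc_norm (txg_4.enc h1.l h2.l h3)) (pr_norm (pr_csub (enc_rat _ 5247321 40000000) (pr_scale 77463 400000 h1))))) (pr_cmul (enc_norm (enc_add (enc_scale 8861 400 (txg_4.enc h1.l h2.l h3)) (enc_rat _ 529927 200000))) (pr_norm (pr_mul (pr_norm (txg_354_fs.snd h1 h2 h3)) (pr_norm (pr_csub (enc_rat _ 19 100) h1)))))) (pr_add (pr_add (pr_csub (enc_rat _ 85703719 500000000) (pr_scale 230277 625000 h1)) (pr_cmul (enc_norm (txg_4.enc h1.l h2.l h3)) (pr_norm (pr_csub (enc_rat _ 17193627 50000000) (pr_scale 328269 250000 h1))))) (pr_cmul (enc_norm (enc_add (enc_scale 466637 100000 (txg_4.enc h1.l h2.l h3)) (enc_rat _ 1404 15625)))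 (pr_norm (pr_mul (pr_norm (txg_410_fs.snd h1 h2 h3)) (pr_norm (pr_csub (enc_rat _ 6 25) h1)))))))) (pr_case (txg_450_fs.snd h1 h2 h3) (pr_case (txg_451_fs.snd h1 h2 h3) (pr_add (pr_add (pr_csub (enc_rat _ 78961183 500000000) (pr_scale 1561277 5000000 h1)) (pr_cmul (enc_norm (txg_4.enc h1.l h2.l h3)) (pr_norm (pr_subr 2399853 50000000 (pr_scale 159857 500000 h1))))) (pr_cmul (enc_norm (enc_subr 1213611 1000000 (enc_neg (enc_scale 3732217 100000 (txg_4.enc h1.l h2.l h3))))) (pr_norm (pr_mul (pr_norm (txg_352_fs.snd h1 h2 h3)) (pr_norm (pr_csub (enc_rat _ 29 100) h1)))))) (pr_add (pr_add (pr_csub (enc_rat _ 42222933 250000000) (pr_scale 437601 1250000 h1)) (pr_cmul (enc_norm (txg_4.enc h1.l h2.l h3)) (pr_norm (pr_subr 15014099 50000000 (pr_scale 594831 500000 h1))))) (pr_cmul (enc_norm (enc_add (enc_scale 1992323 100000 (txg_4.enc h1.l h2.l h3)) (enc_rat _ 1970119 1000000)))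 (pr_norm (pr_mul (pr_norm (txg_451_fs.snd h1 h2 h3)) (pr_norm (pr_csub (enc_rat _ 17 50) h1))))))) (pr_case (txg_493_fs.snd h1 h2 h3) (pr_add (pr_add (pr_csub (enc_rat _ 41778451 250000000) (pr_scale 862129 2500000 h1)) (pr_cmul (enc_norm (txg_4.enc h1.l h2.l h3)) (pr_norm (pr_addc (pr_scale 5907 250000 h1) (enc_rat _ 4808479 50000000))))) (pr_cmul (enc_norm (enc_subr 129669 62500 (enc_scale 339743 100000 (txg_4.enc h1.l h2.l h3)))) (pr_norm (pr_mul (pr_norm (txg_450_fs.snd h1 h2 h3)) (pr_norm (pr_csub (enc_rat _ 39 100) h1)))))) (pr_case (txg_512_fs.snd h1 h2 h3) (pr_add (pr_add (pr_csub (enc_rat _ 38061907 250000000) (pr_scale 766833 2500000 h1)) (pr_cmul (enc_norm (txg_4.enc h1.l h2.l h3)) (pr_norm (pr_csub (enc_rat _ 12385087 50000000) (pr_scale 91229 250000 h1))))) (pr_cmul (enc_norm (enc_add (enc_scale 437347 100000 (txg_4.enc h1.l h2.l h3)) (enc_rat _ 656169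 500000))) (pr_norm (pr_mul (pr_norm (txg_493_fs.snd h1 h2 h3)) (pr_norm (pr_csub (enc_rat _ 11 25) h1)))))) (pr_add (pr_add (pr_csub (enc_rat _ 864251 6000000) (pr_scale 864251 3000000 h1)) (pr_cmul (enc_norm (txg_4.enc h1.l h2.l h3)) (pr_norm (pr_csub (enc_rat _ 871387 1200000) (pr_scale 871387 600000 h1))))) (pr_cmul (enc_norm (enc_subr 1404443 1000000 (enc_scale 144787 10000 (txg_4.enc h1.l h2.l h3)))) (pr_norm (pr_mul (pr_norm (txg_512_fs.snd h1 h2 h3)) (pr_norm (pr_csub (enc_rat _ 1 2) h1))))))))))))⟩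
noncomputable def l0q0_fs : Sl2 l0q0 := ⟨_, fun h1 h2 => (pr_norm (txg_fs.snd (pr_norm (pr_sub (pr_scale 3 4 h1) (pr_half (c1g_fs.snd h1)))) (pr_nd (c1g_fs.snd h1)) h2))⟩
noncomputable def swg_fs : Sl1 swg := ⟨_, fun h1 => (pr_sqrt (pr_csub (enc_pnc _ 1) (pr_scale 3 4 (pr_sq (pr_norm (pr_subn 1 h1))))))⟩
noncomputable def cv1m_fs : Sl1 cv1m := ⟨_, fun h1 => (pr_norm (pr_add (pr_scale 23 25 (c1g_fs.snd h1)) (pr_scale 2 25 (pr_addc (swg_fs.snd h1) (enc_rat _ 1 2)))))⟩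
noncomputable def bf1q0_fs : Sl2 bf1q0 := ⟨_, fun h1 h2 => (pr_norm (pr_case (pr_subr 23 100 h1) (pr_case (pr_subr 3 25 h1) (pr_add (pr_csub (enc_pnc _ 1) (pr_scale 37237 40000 h1)) (pr_cmul (enc_norm (bf1q0_3.enc h1.l h2)) (pr_nd (pr_scale 881 12000 h1)))) (pr_add (pr_csub (enc_rat _ 12257039 11000000) (pr_scale 41431 22000 h1)) (pr_cmul (enc_norm (bf1q0_3.enc h1.l h2)) (pr_norm (pr_addc (pr_scale 679 11000 h1) (enc_rat _ 1543 1100000)))))) (pr_case (pr_subr 7 20 h1) (pr_add (pr_csub (enc_rat _ 4757851 4000000) (pr_scale 17681 8000 h1)) (pr_cmul (enc_norm (bf1q0_3.enc h1.l h2)) (pr_norm (pr_csub (enc_rat _ 10353 40000) (pr_scale 423 400 h1))))) (pr_case (pr_subr 79 200 h1) (pr_add (pr_csub (enc_rat _ 9670451 9000000) (pr_scale 42337 22500 h1)) (pr_cmul (enc_norm (bf1q0_3.enc h1.l h2)) (pr_norm (pr_csub (enc_rat _ 5803 45000) (pr_scale 3089 4500 h1))))) (pr_add (pr_csub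 (enc_rat _ 20354071 21000000) (pr_scale 84797 52500 h1)) (pr_cmul (enc_norm (bf1q0_3.enc h1.l h2)) (pr_norm (pr_subr 653783 2100000 (pr_scale 1124 2625 h1)))))))))⟩
noncomputable def kf1q0_fs : Sl2 kf1q0 := ⟨_, fun h1 h2 => (pr_norm (pr_mul (cv1m_fs.snd h1) (bf1q0_fs.snd h1 h2)))⟩
noncomputable def bx1q0_fs : Sl2 bx1q0 := ⟨_, fun h1 h2 => (pr_norm (pr_case (pr_subr 23 100 h1) (pr_case (pr_subr 3 25 h1) (pr_sub (pr_scale 10361 120000 h1) (pr_cmul (enc_norm (bx1q0_3.enc h1.l h2)) (pr_nd (pr_scale 109 1000 h1)))) (pr_add (pr_addc (pr_scale 3163 110000 h1) (enc_rat _ 15203 2200000)) (pr_cmul (enc_norm (bx1q0_3.enc h1.l h2)) (pr_norm (pr_csub (enc_rat _ 30141 275000) (pr_scale 5623 5500 h1)))))) (pr_case (pr_subr 7 20 h1) (pr_add (pr_addc (pr_scale 1533 40000 h1) (enc_rat _ 18837 4000000)) (pr_cmul (enc_norm (bx1q0_3.enc h1.l h2)) (pr_norm (pr_subr 382189 1200000 (pr_scale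 10067 12000 h1))))) (pr_case (pr_subr 79 200 h1) (pr_add (pr_subr 1023253 9000000 (pr_scale 4237 11250 h1)) (pr_cmul (enc_norm (bx1q0_3.enc h1.l h2)) (pr_norm (pr_csub (enc_rat _ 44747 900000) (pr_scale 959 4500 h1))))) (pr_add (pr_subr 447793 4200000 (pr_scale 4708 13125 h1)) (pr_cmul (enc_norm (bx1q0_3.enc h1.l h2)) (pr_norm (pr_csub (enc_rat _ 5039 75000) (pr_scale 193 750 h1)))))))))⟩
noncomputable def l1q0_fs : Sl2 l1q0 := ⟨_, fun h1 h2 => (pr_norm (pr_mul (cv1m_fs.snd h1) (bx1q0_fs.snd h1 h2)))⟩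
noncomputable def cv2m_fs : Sl1 cv2m := ⟨_, fun h1 => (pr_norm (pr_add (pr_scale 3 4 (c1g_fs.snd h1)) (pr_scale 1 4 (pr_addc (swg_fs.snd h1) (enc_rat _ 1 2)))))⟩
noncomputable def bf2q0_fs : Sl2 bf2q0 := ⟨_, fun h1 h2 => (pr_norm (pr_case (pr_subr 23 100 h1) (pr_case (pr_subr 3 25 h1) (pr_add (pr_csub (enc_pnc _ 1) (pr_scale 28567 24000 h1)) (pr_cmul (enc_norm (bf2q0_3.enc h1.l h2)) (pr_nd (pr_scale 6649 4000 h1)))) (pr_add (pr_csub (enc_rat _ 12047239 11000000) (pr_scale 109101 55000 h1)) (pr_cmul (enc_norm (bf2q0_3.enc h1.l h2)) (pr_norm (pr_addc (pr_scale 961 1000 h1) (enc_rat _ 1683 20000)))))) (pr_case (pr_subr 7 20 h1) (pr_add (pr_csub (enc_rat _ 6759907 6000000) (pr_scale 127223 60000 h1)) (pr_cmul (enc_norm (bf2q0_3.enc h1.l h2)) (pr_norm (pr_csub (enc_rat _ 1078871 1200000) (pr_scale 6197 2400 h1))))) (pr_case (pr_subr 79 200 h1) (pr_add (pr_csub (enc_rat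 _ 9971003 9000000) (pr_scale 18601 9000 h1)) (pr_cmul (enc_norm (bf2q0_3.enc h1.l h2)) (pr_norm (pr_csub (enc_rat _ 793097 900000) (pr_scale 1139 450 h1))))) (pr_add (pr_csub (enc_rat _ 22541507 21000000) (pr_scale 41569 21000 h1)) (pr_cmul (enc_norm (bf2q0_3.enc h1.l h2)) (pr_norm (pr_csub (enc_rat _ 1354387 2100000) (pr_scale 5074 2625 h1)))))))))⟩
noncomputable def kf2q0_fs : Sl2 kf2q0 := ⟨_, fun h1 h2 => (pr_norm (pr_mul (cv2m_fs.snd h1) (bf2q0_fs.snd h1 h2)))⟩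
noncomputable def bx2q0_fs : Sl2 bx2q0 := ⟨_, fun h1 h2 => (pr_norm (pr_case (pr_subr 23 100 h1) (pr_case (pr_subr 3 25 h1) (pr_add (pr_scale 1159 8000 h1) (pr_cmul (enc_norm (bx2q0_3.enc h1.l h2)) (pr_nd (pr_scale 161 2000 h1)))) (pr_add (pr_addc (pr_scale 13537 110000 h1) (enc_rat _ 28791 11000000)) (pr_cmul (enc_norm (bx2q0_3.enc h1.l h2)) (pr_norm (pr_csub (enc_rat _ 32547 550000) (pr_scale 4539 11000 h1)))))) (pr_case (pr_subr 7 20 h1) (pr_add (pr_addc (pr_scale 2299 30000 h1) (enc_rat _ 39889 3000000)) (pr_cmul (enc_norm (bx2q0_3.enc h1.l h2)) (pr_norm (pr_subr 2969 48000 (pr_scale 1363 12000 h1))))) (pr_case (pr_subr 79 200 h1) (pr_add (pr_subr 57959 4500000 (pr_scale 3407 22500 h1)) (pr_cmul (enc_norm (bx2q0_3.enc h1.l h2)) (pr_norm (pr_csub (enc_rat _ 131 1500) (pr_scale 469 1500 h1))))) (pr_add (pr_subr 507607 21000000 (pr_scale 18901 105000 h1)) (pr_cmul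 (enc_norm (bx2q0_3.enc h1.l h2)) (pr_norm (pr_csub (enc_rat _ 294079 2100000) (pr_scale 1171 2625 h1)))))))))⟩
noncomputable def l2q0_fs : Sl2 l2q0 := ⟨_, fun h1 h2 => (pr_norm (pr_mul (cv2m_fs.snd h1) (bx2q0_fs.snd h1 h2)))⟩
noncomputable def cv3m_fs : Sl1 cv3m := ⟨_, fun h1 => (pr_norm (pr_add (pr_half (c1g_fs.snd h1)) (pr_half (pr_addc (swg_fs.snd h1) (enc_rat _ 1 2)))))⟩
noncomputable def bf3q0_fs : Sl2 bf3q0 := ⟨_, fun h1 h2 => (pr_norm (pr_case (pr_subr 23 100 h1) (pr_case (pr_subr 3 25 h1) (pr_add (pr_csub (enc_pnc _ 1) (pr_scale 12623 8000 h1)) (pr_cmul (enc_norm (bf3q0_3.enc h1.l h2)) (pr_nd (pr_scale 2287 600 h1)))) (pr_add (pr_csub (enc_rat _ 11630033 11000000) (pr_scale 226069 110000 h1)) (pr_cmul (enc_norm (bf3q0_3.enc h1.l h2)) (pr_norm (pr_addc (pr_scale 25987 11000 h1) (enc_rat _ 5978 34375)))))) (pr_case (pr_subr 7 20 h1) (pr_add (pr_csub (enc_rat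 _ 6509269 6000000) (pr_scale 130511 60000 h1)) (pr_cmul (enc_norm (bf3q0_3.enc h1.l h2)) (pr_norm (pr_csub (enc_rat _ 816253 400000) (pr_scale 4603 800 h1))))) (pr_case (pr_subr 79 200 h1) (pr_add (pr_csub (enc_rat _ 2443369 2250000) (pr_scale 4901 2250 h1)) (pr_cmul (enc_norm (bf3q0_3.enc h1.l h2)) (pr_norm (pr_csub (enc_rat _ 34234 28125) (pr_scale 3061 900 h1))))) (pr_add (pr_csub (enc_rat _ 4566733 4200000) (pr_scale 229079 105000 h1)) (pr_cmul (enc_norm (bf3q0_3.enc h1.l h2)) (pr_norm (pr_csub (enc_rat _ 384513 350000) (pr_scale 10853 3500 h1)))))))))⟩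
noncomputable def kf3q0_fs : Sl2 kf3q0 := ⟨_, fun h1 h2 => (pr_norm (pr_mul (cv3m_fs.snd h1) (bf3q0_fs.snd h1 h2)))⟩
noncomputable def bx3q0_fs : Sl2 bx3q0 := ⟨_, fun h1 h2 => (pr_norm (pr_case (pr_subr 23 100 h1) (pr_case (pr_subr 3 25 h1) (pr_add (pr_scale 14407 60000 h1) (pr_cmul (enc_norm (bx3q0_3.enc h1.l h2)) (pr_nd (pr_scale 2747 6000 h1)))) (pr_add (pr_addc (pr_scale 12773 55000 h1) (enc_rat _ 5201 5500000)) (pr_cmul (enc_norm (bx3q0_3.enc h1.l h2)) (pr_norm (pr_addc (pr_scale 421 2750 h1) (enc_rat _ 20113 550000)))))) (pr_case (pr_subr 7 20 h1) (pr_add (pr_addc (pr_scale 4259 60000 h1) (enc_rat _ 228203 6000000)) (pr_cmul (enc_norm (bx3q0_3.enc h1.l h2)) (pr_norm (pr_csub (enc_rat _ 85177 400000) (pr_scale 491 800 h1))))) (pr_case (pr_subr 79 200 h1) (pr_add (pr_csub (enc_rat _ 294221 4500000) (pr_scale 161 22500 h1)) (pr_cmul (enc_norm (bx3q0_3.enc h1.l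 h2)) (pr_norm (pr_csub (enc_rat _ 241217 900000) (pr_scale 347 450 h1))))) (pr_add (pr_csub (enc_rat _ 370289 5250000) (pr_scale 53 2625 h1)) (pr_cmul (enc_norm (bx3q0_3.enc h1.l h2)) (pr_norm (pr_csub (enc_rat _ 16711 75000) (pr_scale 197 300 h1)))))))))⟩
noncomputable def l3q0_fs : Sl2 l3q0 := ⟨_, fun h1 h2 => (pr_norm (pr_mul (cv3m_fs.snd h1) (bx3q0_fs.snd h1 h2)))⟩
noncomputable def cv4m_fs : Sl1 cv4m := ⟨_, fun h1 => (pr_norm (pr_add (pr_scale 3 20 (c1g_fs.snd h1)) (pr_scale 17 20 (pr_addc (swg_fs.snd h1) (enc_rat _ 1 2)))))⟩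
noncomputable def bf4q0_fs : Sl2 bf4q0 := ⟨_, fun h1 h2 => (pr_norm (pr_case (pr_subr 23 100 h1) (pr_case (pr_subr 3 25 h1) (pr_add (pr_csub (enc_pnc _ 1) (pr_scale 128081 60000 h1)) (pr_cmul (enc_norm (bf4q0_3.enc h1.l h2)) (pr_nd (pr_scale 24931 4000 h1)))) (pr_add (pr_csub (enc_rat _ 5449197 5500000) (pr_scale 56587 27500 h1)) (pr_cmul (enc_norm (bf4q0_3.enc h1.l h2)) (pr_norm (pr_addc (pr_scale 11991 2750 h1) (enc_rat _ 49431 220000)))))) (pr_case (pr_subr 7 20 h1) (pr_add (pr_csub (enc_rat _ 2607509 2400000) (pr_scale 59371 24000 h1)) (pr_cmul (enc_norm (bf4q0_3.enc h1.l h2)) (pr_norm (pr_csub (enc_rat _ 2404249 600000) (pr_scale 72509 6000 h1))))) (pr_case (pr_subr 79 200 h1) (pr_add (pr_csub (enc_rat _ 1630207 1800000) (pr_scale 22019 11250 h1)) (pr_cmul (enc_norm (bf4q0_3.enc h1.l h2)) (pr_norm (pr_subr 2173019 900000 (pr_scale 28181 4500 h1))))) (pr_add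 (pr_csub (enc_rat _ 3505417 3500000) (pr_scale 76999 35000 h1)) (pr_cmul (enc_norm (bf4q0_3.enc h1.l h2)) (pr_norm (pr_csub (enc_rat _ 2279611 1050000) (pr_scale 28069 5250 h1)))))))))⟩
noncomputable def kf4q0_fs : Sl2 kf4q0 := ⟨_, fun h1 h2 => (pr_norm (pr_mul (cv4m_fs.snd h1) (bf4q0_fs.snd h1 h2)))⟩
noncomputable def bx4q0_fs : Sl2 bx4q0 := ⟨_, fun h1 h2 => (pr_norm (pr_case (pr_subr 23 100 h1) (pr_case (pr_subr 3 25 h1) (pr_add (pr_scale 46187 120000 h1) (pr_cmul (enc_norm (bx4q0_3.enc h1.l h2)) (pr_nd (pr_scale 14513 12000 h1)))) (pr_add (pr_addc (pr_scale 2186 6875 h1) (enc_rat _ 17669 2200000)) (pr_cmul (enc_norm (bx4q0_3.enc h1.l h2)) (pr_norm (pr_addc (pr_scale 422 1375 h1) (enc_rat _ 119131 1100000)))))) (pr_case (pr_subr 7 20 h1) (pr_add (pr_addc (pr_scale 4273 120000 h1) (enc_rat _ 875677 12000000)) (pr_cmul (enc_norm (bx4q0_3.enc h1.l h2)) (pr_norm (pr_csub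 (enc_rat _ 50871 100000) (pr_scale 717 500 h1))))) (pr_case (pr_subr 79 200 h1) (pr_add (pr_csub (enc_rat _ 181813 1125000) (pr_scale 4897 22500 h1)) (pr_cmul (enc_norm (bx4q0_3.enc h1.l h2)) (pr_norm (pr_csub (enc_rat _ 278569 900000) (pr_scale 973 1125 h1))))) (pr_add (pr_csub (enc_rat _ 771541 5250000) (pr_scale 9479 52500 h1)) (pr_cmul (enc_norm (bx4q0_3.enc h1.l h2)) (pr_norm (pr_csub (enc_rat _ 7087 42000) (pr_scale 5339 10500 h1)))))))))⟩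
noncomputable def l4q0_fs : Sl2 l4q0 := ⟨_, fun h1 h2 => (pr_norm (pr_mul (cv4m_fs.snd h1) (bx4q0_fs.snd h1 h2)))⟩
noncomputable def kf0q1_10_fs : Sl2 kf0q1_10 := ⟨_, fun h1 h2 => (pr_scale 3 2 h1)⟩
noncomputable def kf0q1_fs : Sl2 kf0q1 := ⟨_, fun h1 h2 => (pr_norm (pr_add (pr_mul (pr_norm (pr_mul (pr_norm (pr_cadd (enc_pnc _ 1) (pr_nat 2 (c1g_fs.snd h1)))) (pr_norm (pr_sub (kf0q1_10_fs.snd h1 h2) (c1g_fs.snd h1))))) (pr_nd (pr_inv (pr_nat 2 (pr_sub (pr_cadd (enc_pnc _ 1) (kf0q1_10_fs.snd h1 h2)) (c1g_fs.snd h1)))))) (pr_mul (pr_norm (pr_subn 1 h1)) (kcg_fs.snd (pr_norm (pr_sub (pr_scale 3 4 h1) (pr_half (c1g_fs.snd h1)))) h2))))⟩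
noncomputable def l0q1_fs : Sl2 l0q1 := ⟨_, fun h1 h2 => (pr_norm (txg_fs.snd (pr_norm (pr_sub (pr_scale 3 4 h1) (pr_half (c1g_fs.snd h1)))) (pr_nd (c1g_fs.snd h1)) h2))⟩
noncomputable def cv4p_fs : Sl1 cv4p := ⟨_, fun h1 => (pr_norm (pr_add (pr_scale 3 20 (c1g_fs.snd h1)) (pr_scale 17 20 (pr_subr 1 2 (swg_fs.snd h1)))))⟩
noncomputable def kf4q2_fs : Sl2 kf4q2 := ⟨_, fun h1 h2 => (pr_norm (pr_mul (cv4p_fs.snd h1) (pr_norm (pr_case (pr_csub (enc_pnc _ 1) (pr_scale 3 4 (pr_sq h1))) (pr_case (pr_subr 127 100 h1) (pr_add (pr_csub (enc_rat _ 24600689 5800000) (pr_scale 11348 3625 h1)) (pr_cmul (enc_norm (kf4q2_4.enc h1.l h2)) (pr_norm (pr_csub (enc_rat _ 7705873 2900000) (pr_scale 8161 5800 h1))))) (pr_case (pr_subr 69 50 h1) (pr_add (pr_csub (enc_rat _ 47641351 11000000) (pr_scale 88027 27500 h1)) (pr_cmul (enc_norm (kf4q2_4.enc h1.l h2)) (pr_norm (pr_subr 12870137 1100000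 (pr_scale 108877 11000 h1))))) (pr_add (pr_csub (enc_rat _ 3352081 2000000) (pr_scale 51083 40000 h1)) (pr_cmul (enc_norm (kf4q2_4.enc h1.l h2)) (pr_norm (pr_subr 229233 100000 (pr_scale 4621 1500 h1))))))) (pr_case (pr_subr 1 4 (c1g_fs.snd h1)) (pr_case (pr_subr 1 10 (c1g_fs.snd h1)) (pr_case (pr_subr 1 20 (c1g_fs.snd h1)) (pr_add (pr_addc (pr_scale 43723 50000 (c1g_fs.snd h1)) (enc_rat _ 19623 31250)) (pr_cmul (enc_norm (kf4q2_4.enc h1.l h2)) (pr_norm (pr_csub (enc_rat _ 95281 100000) (pr_scale 27411 5000 (c1g_fs.snd h1)))))) (pr_add (pr_addc (pr_scale 21709 25000 (c1g_fs.snd h1)) (enc_rat _ 628241 1000000)) (pr_cmul (enc_norm (kf4q2_4.enc h1.l h2)) (pr_norm (pr_csub (enc_rat _ 23069 25000) (pr_scale 12203 2500 (c1g_fs.snd h1))))))) (pr_case (pr_subr 3 20 (c1g_fs.snd h1)) (pr_add (pr_addc (pr_scale 21371 25000 (c1g_fs.snd h1)) (enc_rat _ 629593 1000000)) (pr_cmul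 (enc_norm (kf4q2_4.enc h1.l h2)) (pr_norm (pr_csub (enc_rat _ 42677 50000) (pr_scale 4189 1000 (c1g_fs.snd h1)))))) (pr_case (pr_subr 1 5 (c1g_fs.snd h1)) (pr_add (pr_addc (pr_scale 1659 2000 (c1g_fs.snd h1)) (enc_rat _ 316697 500000)) (pr_cmul (enc_norm (kf4q2_4.enc h1.l h2)) (pr_norm (pr_csub (enc_rat _ 1457 2000) (pr_scale 16777 5000 (c1g_fs.snd h1)))))) (pr_add (pr_addc (pr_scale 39731 50000 (c1g_fs.snd h1)) (enc_rat _ 64037 100000)) (pr_cmul (enc_norm (kf4q2_4.enc h1.l h2)) (pr_norm (pr_csub (enc_rat _ 1161 2000) (pr_scale 13077 5000 (c1g_fs.snd h1))))))))) (pr_case (pr_subr 7 20 (c1g_fs.snd h1)) (pr_case (pr_subr 3 10 (c1g_fs.snd h1)) (pr_add (pr_addc (pr_scale 2322 3125 (c1g_fs.snd h1)) (enc_rat _ 130653 200000)) (pr_cmul (enc_norm (kf4q2_4.enc h1.l h2)) (pr_norm (pr_csub (enc_rat _ 7917 20000) (pr_scale 1173 625 (c1g_fs.snd h1)))))) (pr_add (pr_addc (pr_scale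 34167 50000 (c1g_fs.snd h1)) (enc_rat _ 26847 40000)) (pr_cmul (enc_norm (kf4q2_4.enc h1.l h2)) (pr_norm (pr_csub (enc_rat _ 14631 100000) (pr_scale 209 200 (c1g_fs.snd h1))))))) (pr_case (pr_subr 2 5 (c1g_fs.snd h1)) (pr_add (pr_addc (pr_scale 6351 10000 (c1g_fs.snd h1)) (enc_rat _ 688059 1000000)) (pr_cmul (enc_norm (kf4q2_4.enc h1.l h2)) (pr_norm (pr_subr 4757 20000 (pr_scale 263 5000 (c1g_fs.snd h1)))))) (pr_case (pr_subr 9 20 (c1g_fs.snd h1)) (pr_add (pr_addc (pr_scale 14893 25000 (c1g_fs.snd h1)) (enc_rat _ 703811 1000000)) (pr_cmul (enc_norm (kf4q2_4.enc h1.l h2)) (pr_norm (pr_subr 78737 100000 (pr_scale 1783 1250 (c1g_fs.snd h1)))))) (pr_add (pr_addc (pr_scale 5623 10000 (c1g_fs.snd h1)) (enc_rat _ 14377 20000)) (pr_cmul (enc_norm (kf4q2_4.enc h1.l h2)) (pr_norm (pr_subr 14549 10000 (pr_scale 14549 5000 (c1g_fs.snd h1))))))))))))))⟩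
noncomputable def l4q2_fs : Sl2 l4q2 := ⟨_, fun h1 h2 => (pr_norm (pr_mul (cv4p_fs.snd h1) (pr_norm (pr_case (pr_csub (enc_pnc _ 1) (pr_scale 3 4 (pr_sq h1))) (pr_case (pr_subr 127 100 h1) (pr_add (pr_subr 2408057 11600000 (pr_scale 2973 23200 h1)) (pr_cmul (enc_norm (l4q2_4.enc h1.l h2)) (pr_norm (pr_subr 2800261 1160000 (pr_scale 18873 11600 h1))))) (pr_case (pr_subr 69 50 h1) (pr_add (pr_subr 11944631 11000000 (pr_scale 11271 13750 h1)) (pr_cmul (enc_norm (l4q2_4.enc h1.l h2)) (pr_norm (pr_subr 539497 1100000 (pr_scale 309 2750 h1))))) (pr_add (pr_subr 1657597 1000000 (pr_scale 617 500 h1)) (pr_cmul (enc_norm (l4q2_4.enc h1.l h2)) (pr_norm (pr_subr 587 800 (pr_scale 433 1500 h1))))))) (pr_case (pr_subr 1 4 (c1g_fs.snd h1)) (pr_case (pr_subr 1 10 (c1g_fs.snd h1)) (pr_case (pr_subr 1 20 (c1g_fs.snd h1)) (pr_add (pr_subr 29643 500000 (pr_scale 15877 50000 (c1g_fs.snd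 h1))) (pr_cmul (enc_norm (l4q2_4.enc h1.l h2)) (pr_norm (pr_subr 53779 100000 (pr_neg (pr_scale 3007 1250 (c1g_fs.snd h1))))))) (pr_add (pr_subr 2363 40000 (pr_scale 7833 25000 (c1g_fs.snd h1))) (pr_cmul (enc_norm (l4q2_4.enc h1.l h2)) (pr_norm (pr_subr 54171 100000 (pr_neg (pr_scale 2909 1250 (c1g_fs.snd h1)))))))) (pr_case (pr_subr 3 20 (c1g_fs.snd h1)) (pr_add (pr_subr 54509 1000000 (pr_scale 13383 50000 (c1g_fs.snd h1))) (pr_cmul (enc_norm (l4q2_4.enc h1.l h2)) (pr_norm (pr_subr 13041 20000 (pr_neg (pr_scale 6119 5000 (c1g_fs.snd h1))))))) (pr_case (pr_subr 1 5 (c1g_fs.snd h1)) (pr_add (pr_subr 16609 500000 (pr_scale 3143 25000 (c1g_fs.snd h1))) (pr_cmul (enc_norm (l4q2_4.enc h1.l h2)) (pr_norm (pr_subr 104499 100000 (pr_scale 6979 5000 (c1g_fs.snd h1)))))) (pr_add (pr_subr 1633 100000 (pr_scale 129 3125 (c1g_fs.snd h1))) (pr_cmul (enc_norm (l4q2_4.enc h1.l h2))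 (pr_norm (pr_subr 138847 100000 (pr_scale 7783 2500 (c1g_fs.snd h1))))))))) (pr_case (pr_subr 7 20 (c1g_fs.snd h1)) (pr_case (pr_subr 3 10 (c1g_fs.snd h1)) (pr_add (pr_subr 1001 100000 (pr_scale 2 125 (c1g_fs.snd h1))) (pr_cmul (enc_norm (l4q2_4.enc h1.l h2)) (pr_norm (pr_subr 37193 25000 (pr_scale 17551 5000 (c1g_fs.snd h1)))))) (pr_add (pr_subr 128 15625 (pr_scale 497 50000 (c1g_fs.snd h1))) (pr_cmul (enc_norm (l4q2_4.enc h1.l h2)) (pr_norm (pr_subr 72763 50000 (pr_scale 1701 500 (c1g_fs.snd h1))))))) (pr_case (pr_subr 2 5 (c1g_fs.snd h1)) (pr_add (pr_subr 1073 125000 (pr_scale 553 50000 (c1g_fs.snd h1))) (pr_cmul (enc_norm (l4q2_4.enc h1.l h2)) (pr_norm (pr_subr 67807 50000 (pr_scale 7797 2500 (c1g_fs.snd h1)))))) (pr_case (pr_subr 9 20 (c1g_fs.snd h1)) (pr_add (pr_subr 1607 125000 (pr_scale 1087 50000 (c1g_fs.snd h1))) (pr_cmul (enc_norm (l4q2_4.enc h1.l h2))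 (pr_norm (pr_subr 54759 50000 (pr_scale 3083 1250 (c1g_fs.snd h1)))))) (pr_add (pr_subr 3073 100000 (pr_scale 3073 50000 (c1g_fs.snd h1))) (pr_cmul (enc_norm (l4q2_4.enc h1.l h2)) (pr_norm (pr_csub (enc_rat _ 147 1000) (pr_scale 147 500 (c1g_fs.snd h1))))))))))))))⟩
noncomputable def dlg : Fn2 := ⟨_, _, fun h1 h2 => (kcg.enc (enc_norm (enc_sub (enc_scale 3 4 h1) (enc_half (c1g.enc h1)))) h2)⟩
noncomputable def kq02 : Fn2 := ⟨_, _, fun h1 h2 => (enc_norm (enc_sub (enc_rat _ 7494127 2500000) (enc_scale 4994127 2500000 (yag.enc h1))))⟩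
noncomputable def lq02 : Fn2 := ⟨_, _, fun h1 h2 => (enc_norm (enc_sub (enc_rat _ 25438511489530403 116160261175000000) (enc_scale 627558740527 528481625000 h2)))⟩
noncomputable def cq02 : Fn2 := ⟨_, _, fun h1 h2 => (enc_norm (enc_subr 7938553 4000000 (enc_scale 30523 10000 h2)))⟩
noncomputable def pcE0 : Piece := ⟨Fn3.sc eng rsbq0, rlq0⟩
noncomputable def pcE1 : Piece := ⟨Fn3.sc eng rsbq1, rlq1⟩
noncomputable def pcE2 : Piece := ⟨Fn3.sc eng rsbq2, rlq2⟩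
noncomputable def pcE3 : Piece := ⟨Fn3.sc eng rsbq3, rlq3⟩

end Pool.Agent.Strip051.G.I6050_6500.Tab
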