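import Pool.Agent.Strip051.G.I6050_6500.Tab
import Pool.Agent.Strip051.PB.C12G
import Pool.Agent.Strip051.PB.PairB

/-! # Slopes of the tables near the lattice heights (generated) -/

set_option linter.all false

namespace Pool.Agent.Strip051.G.I6050_6500.Tab

open Pool.Agent.Strip051.PB

attribute [local irreducible] padd psub pneg pmul psq pinv psqrt psqrtg pabs pps pmax pmin pphi plam
  pcase phf pnat prat pscale pnorm pdc pnc pone ppos pnn Enc pbad pzero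

noncomputable def idf_s : Sl1 idf := ⟨fun _ _ D => D, fun h => h⟩

theorem cv1r_two {b : ℝ} (h : b = 2) : cv1r.v b = 0 := by
  have e : swg.v = swn := by funext y; simp [swg, swn]
  subst h
  simp only [cv1r, e, swn_two]
  push_cast
  ring
theorem cv2r_two {b : ℝ} (h : b = 2) : cv2r.v b = 0 := by
  have e : swg.v = swn := by funext y; simp [swg, swn]
  subst h
  simp only [cv2r, e, swn_two]
  push_cast
  ring
theorem cv3r_two {b : ℝ} (h : b = 2) : cv3r.v b = 0 := by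
  have e : swg.v = swn := by funext y; simp [swg, swn]
  subst h
  simp only [cv3r, e, swn_two]
  push_cast
  ring
theorem cv4r_two {b : ℝ} (h : b = 2) : cv4r.v b = 0 := by
  have e : swg.v = swn := by funext y; simp [swg, swn]
  subst h
  simp only [cv4r, e, swn_two]
  push_cast
  ring
noncomputable def c1g_s : Sl1 c1g := ⟨_, fun h1 => (pr_sqrtgz (pr_csub (enc_pnc _ 1) (pr_scale 3 4 (pr_sq h1))))⟩
noncomputable def kcg_6_s : Sl2 kcg_6 := ⟨_, fun h1 h2 => (pr_addc h1 (enc_rat _ 1 4))⟩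
noncomputable def kcg_9_s : Sl2 kcg_9 := ⟨_, fun h1 h2 => (pr_addc h1 (enc_rat _ 2 5))⟩
noncomputable def kcg_12_s : Sl2 kcg_12 := ⟨_, fun h1 h2 => (pr_addc h1 (enc_rat _ 9 20))⟩
noncomputable def kcg_13_s : Sl2 kcg_13 := ⟨_, fun h1 h2 => (pr_scale 4183229 5000000 h1)⟩
noncomputable def kcg_16_s : Sl2 kcg_16 := ⟨_, fun h1 h2 => (pr_scale 42557 62500 h1)⟩
noncomputable def kcg_36_s : Sl2 kcg_36 := ⟨_, fun h1 h2 => (pr_scale 3027921 2500000 h1)⟩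
noncomputable def kcg_41_s : Sl2 kcg_41 := ⟨_, fun h1 h2 => (pr_scale 93 500000 h1)⟩
noncomputable def kcg_61_s : Sl2 kcg_61 := ⟨_, fun h1 h2 => (pr_addc h1 (enc_rat _ 7 20))⟩
noncomputable def kcg_62_s : Sl2 kcg_62 := ⟨_, fun h1 h2 => (pr_scale 5319707 2500000 h1)⟩
noncomputable def kcg_67_s : Sl2 kcg_67 := ⟨_, fun h1 h2 => (pr_scale 17 250000 h1)⟩
noncomputable def kcg_86_s : Sl2 kcg_86 := ⟨_, fun h1 h2 => (pr_addc h1 (enc_rat _ 3 10))⟩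
noncomputable def kcg_87_s : Sl2 kcg_87 := ⟨_, fun h1 h2 => (pr_scale 15008691 5000000 h1)⟩
noncomputable def kcg_92_s : Sl2 kcg_92 := ⟨_, fun h1 h2 => (pr_scale 1 50000 h1)⟩
noncomputable def kcg_107_s : Sl2 kcg_107 := ⟨_, fun h1 h2 => (pr_scale 10333621 5000000 h1)⟩
noncomputable def kcg_112_s : Sl2 kcg_112 := ⟨_, fun h1 h2 => (pr_scale 9 250000 h1)⟩
noncomputable def kcg_135_s : Sl2 kcg_135 := ⟨_, fun h1 h2 => (pr_addc h1 (enc_rat _ 3 20))⟩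
noncomputable def kcg_138_s : Sl2 kcg_138 := ⟨_, fun h1 h2 => (pr_addc h1 (enc_rat _ 1 5))⟩
noncomputable def kcg_139_s : Sl2 kcg_139 := ⟨_, fun h1 h2 => (pr_scale 363483 1000000 h1)⟩
noncomputable def kcg_143_s : Sl2 kcg_143 := ⟨_, fun h1 h2 => (pr_scale 1 500000 h1)⟩
noncomputable def kcg_161_s : Sl2 kcg_161 := ⟨_, fun h1 h2 => (pr_scale 2539699 1000000 h1)⟩
noncomputable def kcg_164_s : Sl2 kcg_164 := ⟨_, fun h1 h2 => (pr_scale 58439 12500 h1)⟩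
noncomputable def kcg_183_s : Sl2 kcg_183 := ⟨_, fun h1 h2 => (pr_addc h1 (enc_rat _ 1 10))⟩
noncomputable def kcg_184_s : Sl2 kcg_184 := ⟨_, fun h1 h2 => (pr_scale 15089471 5000000 h1)⟩
noncomputable def kcg_187_s : Sl2 kcg_187 := ⟨_, fun h1 h2 => (pr_nat 5 h1)⟩
noncomputable def kcg_203_s : Sl2 kcg_203 := ⟨_, fun h1 h2 => (pr_scale 11569787 5000000 h1)⟩
noncomputable def kcg_206_s : Sl2 kcg_206 := ⟨_, fun h1 h2 => (pr_scale 4061 12500 h1)⟩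
noncomputable def kcg_219_s : Sl2 kcg_219 := ⟨_, fun h1 h2 => (pr_scale 4994127 2500000 h1)⟩
noncomputable def kcg_226_s : Sl2 kcg_226 := ⟨_, fun h1 h2 => (pr_csub (enc_rat _ 1 4) h1)⟩
noncomputable def kcg_227_s : Sl2 kcg_227 := ⟨_, fun h1 h2 => (pr_csub (enc_rat _ 2 5) h1)⟩
noncomputable def kcg_228_s : Sl2 kcg_228 := ⟨_, fun h1 h2 => (pr_csub (enc_rat _ 9 20) h1)⟩
noncomputable def kcg_248_s : Sl2 kcg_248 := ⟨_, fun h1 h2 => (pr_csub (enc_rat _ 7 20) h1)⟩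
noncomputable def kcg_257_s : Sl2 kcg_257 := ⟨_, fun h1 h2 => (pr_csub (enc_rat _ 3 10) h1)⟩
noncomputable def kcg_277_s : Sl2 kcg_277 := ⟨_, fun h1 h2 => (pr_csub (enc_rat _ 3 20) h1)⟩
noncomputable def kcg_278_s : Sl2 kcg_278 := ⟨_, fun h1 h2 => (pr_csub (enc_rat _ 1 5) h1)⟩
noncomputable def kcg_299_s : Sl2 kcg_299 := ⟨_, fun h1 h2 => (pr_csub (enc_rat _ 1 10) h1)⟩
noncomputable def kcg_s : Sl2 kcg := ⟨_, fun h1 h2 => (pr_norm (pr_case h1 (pr_case (kcg_6_s.snd h1 h2) (pr_case (kcg_9_s.snd h1 h2) (pr_case (kcg_12_s.snd h1 h2) (pr_add (pr_add (pr_addc (kcg_13_s.snd h1 h2) (enc_rat _ 28523207 100000000)) (pr_cmul (enc_norm (kcg_3.enc h1.l h2)) (pr_norm (pr_subr 2015987 2500000 (pr_neg (kcg_16_s.snd h1 h2)))))) (pr_cmul (enc_norm (kcg_28.enc h1.l h2)) (pr_norm (pr_mul (pr_norm (pr_addc h1 (enc_rat _ 1 2))) (pr_norm (pr_csub (enc_neg (enc_rat _ 9 20)) h1)))))) (pr_add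 (pr_add (pr_subr 3976777 6250000 (pr_neg (kcg_36_s.snd h1 h2))) (pr_cmul (enc_norm (kcg_3.enc h1.l h2)) (pr_norm (pr_subr 5000681 10000000 (pr_neg (kcg_41_s.snd h1 h2)))))) (pr_cmul (enc_norm (kcg_53.enc h1.l h2)) (pr_norm (pr_mul (pr_norm (kcg_12_s.snd h1 h2)) (pr_norm (pr_csub (enc_neg (enc_rat _ 2 5)) h1))))))) (pr_case (kcg_61_s.snd h1 h2) (pr_add (pr_add (pr_subr 6268563 6250000 (pr_neg (kcg_62_s.snd h1 h2))) (pr_cmul (enc_norm (kcg_3.enc h1.l h2)) (pr_norm (pr_subr 5000209 10000000 (pr_neg (kcg_67_s.snd h1 h2)))))) (pr_cmul (enc_norm (kcg_79.enc h1.l h2)) (pr_norm (pr_mul (pr_norm (kcg_9_s.snd h1 h2)) (pr_norm (pr_csub (enc_neg (enc_rat _ 7 20)) h1)))))) (pr_case (kcg_86_s.snd h1 h2) (pr_add (pr_add (pr_subr 130881947 100000000 (pr_neg (kcg_87_s.snd h1 h2))) (pr_cmul (enc_norm (kcg_3.enc h1.l h2)) (pr_norm (pr_subr 5000041 10000000 (pr_neg (kcg_92_s.snd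 h1 h2)))))) (pr_cmul (enc_norm (kcg_102.enc h1.l h2)) (pr_norm (pr_mul (pr_norm (kcg_61_s.snd h1 h2)) (pr_norm (pr_csub (enc_neg (enc_rat _ 3 10)) h1)))))) (pr_add (pr_add (pr_subr 102831527 100000000 (pr_neg (kcg_107_s.snd h1 h2))) (pr_cmul (enc_norm (kcg_3.enc h1.l h2)) (pr_norm (pr_subr 5000089 10000000 (pr_neg (kcg_112_s.snd h1 h2)))))) (pr_cmul (enc_norm (kcg_125.enc h1.l h2)) (pr_norm (pr_mul (pr_norm (kcg_86_s.snd h1 h2)) (pr_norm (pr_csub (enc_neg (enc_rat _ 1 4)) h1))))))))) (pr_case (kcg_135_s.snd h1 h2) (pr_case (kcg_138_s.snd h1 h2) (pr_add (pr_add (pr_subr 42076347 100000000 (kcg_139_s.snd h1 h2)) (pr_cmul (enc_norm (kcg_3.enc h1.l h2)) (pr_norm (pr_subr 1250001 2500000 (pr_neg (kcg_143_s.snd h1 h2)))))) (pr_cmul (enc_norm (kcg_156.enc h1.l h2)) (pr_norm (pr_mul (pr_norm (kcg_6_s.snd h1 h2)) (pr_norm (pr_csub (enc_neg (enc_rat _ 1 5)) h1)))))) (pr_add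 (pr_add (pr_addc (kcg_161_s.snd h1 h2) (enc_rat _ 1447973 100000000)) (pr_cmul (enc_norm (kcg_3.enc h1.l h2)) (pr_norm (pr_addc (kcg_164_s.snd h1 h2) (enc_rat _ 27189 62500))))) (pr_cmul (enc_norm (kcg_175.enc h1.l h2)) (pr_norm (pr_mul (pr_norm (kcg_138_s.snd h1 h2)) (pr_norm (pr_csub (enc_neg (enc_rat _ 3 20)) h1))))))) (pr_case (kcg_183_s.snd h1 h2) (pr_add (pr_add (pr_addc (kcg_184_s.snd h1 h2) (enc_rat _ 8620901 100000000)) (pr_cmul (enc_norm (kcg_3.enc h1.l h2)) (pr_norm (pr_addc (kcg_187_s.snd h1 h2) (enc_rat _ 120939 250000))))) (pr_cmul (enc_norm (kcg_195.enc h1.l h2)) (pr_norm (pr_mul (pr_norm (kcg_135_s.snd h1 h2)) (pr_norm (pr_csub (enc_neg (enc_rat _ 1 10)) h1)))))) (pr_case (pr_addc h1 (enc_rat _ 1 20)) (pr_add (pr_add (pr_addc (kcg_203_s.snd h1 h2) (enc_rat _ 1581533 100000000)) (pr_cmul (enc_norm (kcg_3.enc h1.l h2)) (pr_norm (pr_addc (kcg_206_s.snd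 h1 h2) (enc_rat _ 4061 250000))))) (pr_cmul (enc_norm (kcg_214.enc h1.l h2)) (pr_norm (pr_mul (pr_norm (kcg_183_s.snd h1 h2)) (pr_norm (pr_csub (enc_neg (enc_rat _ 1 20)) h1)))))) (kcg_219_s.snd h1 h2))))) (pr_neg (pr_case (kcg_226_s.snd h1 h2) (pr_case (kcg_227_s.snd h1 h2) (pr_case (kcg_228_s.snd h1 h2) (pr_add (pr_add (pr_csub (enc_rat _ 28523207 100000000) (kcg_13_s.snd h1 h2)) (pr_cmul (enc_norm (kcg_3.enc h1.l h2)) (pr_norm (pr_subr 2015987 2500000 (kcg_16_s.snd h1 h2))))) (pr_cmul (enc_norm (kcg_28.enc h1.l h2)) (pr_norm (pr_mul (pr_norm (pr_csub (enc_rat _ 1 2) h1)) (pr_norm (pr_subr 9 20 h1)))))) (pr_add (pr_add (pr_subr 3976777 6250000 (kcg_36_s.snd h1 h2)) (pr_cmul (enc_norm (kcg_3.enc h1.l h2)) (pr_norm (pr_subr 5000681 10000000 (kcg_41_s.snd h1 h2))))) (pr_cmul (enc_norm (kcg_53.enc h1.l h2)) (pr_norm (pr_mul (pr_norm (kcg_228_s.snd h1 h2)) (pr_norm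 (pr_subr 2 5 h1))))))) (pr_case (kcg_248_s.snd h1 h2) (pr_add (pr_add (pr_subr 6268563 6250000 (kcg_62_s.snd h1 h2)) (pr_cmul (enc_norm (kcg_3.enc h1.l h2)) (pr_norm (pr_subr 5000209 10000000 (kcg_67_s.snd h1 h2))))) (pr_cmul (enc_norm (kcg_79.enc h1.l h2)) (pr_norm (pr_mul (pr_norm (kcg_227_s.snd h1 h2)) (pr_norm (pr_subr 7 20 h1)))))) (pr_case (kcg_257_s.snd h1 h2) (pr_add (pr_add (pr_subr 130881947 100000000 (kcg_87_s.snd h1 h2)) (pr_cmul (enc_norm (kcg_3.enc h1.l h2)) (pr_norm (pr_subr 5000041 10000000 (kcg_92_s.snd h1 h2))))) (pr_cmul (enc_norm (kcg_102.enc h1.l h2)) (pr_norm (pr_mul (pr_norm (kcg_248_s.snd h1 h2)) (pr_norm (pr_subr 3 10 h1)))))) (pr_add (pr_add (pr_subr 102831527 100000000 (kcg_107_s.snd h1 h2)) (pr_cmul (enc_norm (kcg_3.enc h1.l h2)) (pr_norm (pr_subr 5000089 10000000 (kcg_112_s.snd h1 h2))))) (pr_cmul (enc_norm (kcg_125.enc h1.l h2)) (pr_norm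 (pr_mul (pr_norm (kcg_257_s.snd h1 h2)) (pr_norm (pr_subr 1 4 h1))))))))) (pr_case (kcg_277_s.snd h1 h2) (pr_case (kcg_278_s.snd h1 h2) (pr_add (pr_add (pr_subr 42076347 100000000 (pr_neg (kcg_139_s.snd h1 h2))) (pr_cmul (enc_norm (kcg_3.enc h1.l h2)) (pr_norm (pr_subr 1250001 2500000 (kcg_143_s.snd h1 h2))))) (pr_cmul (enc_norm (kcg_156.enc h1.l h2)) (pr_norm (pr_mul (pr_norm (kcg_226_s.snd h1 h2)) (pr_norm (pr_subr 1 5 h1)))))) (pr_add (pr_add (pr_csub (enc_rat _ 1447973 100000000) (kcg_161_s.snd h1 h2)) (pr_cmul (enc_norm (kcg_3.enc h1.l h2)) (pr_norm (pr_csub (enc_rat _ 27189 62500) (kcg_164_s.snd h1 h2))))) (pr_cmul (enc_norm (kcg_175.enc h1.l h2)) (pr_norm (pr_mul (pr_norm (kcg_278_s.snd h1 h2)) (pr_norm (pr_subr 3 20 h1))))))) (pr_case (kcg_299_s.snd h1 h2) (pr_add (pr_add (pr_csub (enc_rat _ 8620901 100000000) (kcg_184_s.snd h1 h2)) (pr_cmul (enc_norm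 (kcg_3.enc h1.l h2)) (pr_norm (pr_csub (enc_rat _ 120939 250000) (kcg_187_s.snd h1 h2))))) (pr_cmul (enc_norm (kcg_195.enc h1.l h2)) (pr_norm (pr_mul (pr_norm (kcg_277_s.snd h1 h2)) (pr_norm (pr_subr 1 10 h1)))))) (pr_case (pr_csub (enc_rat _ 1 20) h1) (pr_add (pr_add (pr_csub (enc_rat _ 1581533 100000000) (kcg_203_s.snd h1 h2)) (pr_cmul (enc_norm (kcg_3.enc h1.l h2)) (pr_norm (pr_csub (enc_rat _ 4061 250000) (kcg_206_s.snd h1 h2))))) (pr_cmul (enc_norm (kcg_214.enc h1.l h2)) (pr_norm (pr_mul (pr_norm (kcg_299_s.snd h1 h2)) (pr_norm (pr_subr 1 20 h1)))))) (pr_neg (kcg_219_s.snd h1 h2)))))))))⟩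
noncomputable def kf0q0_9_s : Sl2 kf0q0_9 := ⟨_, fun h1 h2 => (pr_scale 3 2 h1)⟩
noncomputable def kf0q0_12_s : Sl2 kf0q0_12 := ⟨_, fun h1 h2 => (pr_cadd (enc_pnc _ 1) (c1g_s.snd h1))⟩
noncomputable def kf0q0_s : Sl2 kf0q0 := ⟨_, fun h1 h2 => (pr_norm (pr_add (pr_mul (pr_norm (pr_mul (pr_norm (pr_sub (c1g_s.snd h1) (kf0q0_9_s.snd h1 h2))) (pr_norm (kf0q0_12_s.snd h1 h2)))) (pr_nd (pr_inv (pr_sub (kf0q0_12_s.snd h1 h2) (kf0q0_9_s.snd h1 h2))))) (pr_mul h1 (kcg_s.snd (pr_norm (pr_sub (pr_scale 3 4 h1) (pr_half (c1g_s.snd h1)))) h2))))⟩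
noncomputable def txg_6_s : Sl3 txg_6 := ⟨_, fun h1 h2 h3 => (pr_add h1 (pr_half h2))⟩
noncomputable def txg_26_s : Sl3 txg_26 := ⟨_, fun h1 h2 h3 => (pr_addc h1 (enc_rat _ 1 4))⟩
noncomputable def txg_29_s : Sl3 txg_29 := ⟨_, fun h1 h2 h3 => (pr_addc h1 (enc_rat _ 2 5))⟩
noncomputable def txg_32_s : Sl3 txg_32 := ⟨_, fun h1 h2 h3 => (pr_addc h1 (enc_rat _ 47 100))⟩
noncomputable def txg_57_s : Sl3 txg_57 := ⟨_, fun h1 h2 h3 => (pr_addc h1 (enc_rat _ 11 25))⟩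
noncomputable def txg_101_s : Sl3 txg_101 := ⟨_, fun h1 h2 h3 => (pr_addc h1 (enc_rat _ 33 100))⟩
noncomputable def txg_104_s : Sl3 txg_104 := ⟨_, fun h1 h2 h3 => (pr_addc h1 (enc_rat _ 37 100))⟩
noncomputable def txg_151_s : Sl3 txg_151 := ⟨_, fun h1 h2 h3 => (pr_addc h1 (enc_rat _ 29 100))⟩
noncomputable def txg_196_s : Sl3 txg_196 := ⟨_, fun h1 h2 h3 => (pr_addc h1 (enc_rat _ 7 50))⟩
noncomputable def txg_199_s : Sl3 txg_199 := ⟨_, fun h1 h2 h3 => (pr_addc h1 (enc_rat _ 11 50))⟩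
noncomputable def txg_222_s : Sl3 txg_222 := ⟨_, fun h1 h2 h3 => (pr_addc h1 (enc_rat _ 9 50))⟩
noncomputable def txg_261_s : Sl3 txg_261 := ⟨_, fun h1 h2 h3 => (pr_addc h1 (enc_rat _ 7 100))⟩
noncomputable def txg_264_s : Sl3 txg_264 := ⟨_, fun h1 h2 h3 => (pr_addc h1 (enc_rat _ 11 100))⟩
noncomputable def txg_307_s : Sl3 txg_307 := ⟨_, fun h1 h2 h3 => (pr_addc h1 (enc_rat _ 3 100))⟩
noncomputable def txg_350_s : Sl3 txg_350 := ⟨_, fun h1 h2 h3 => (pr_subr 13 134 h1)⟩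
noncomputable def txg_352_s : Sl3 txg_352 := ⟨_, fun h1 h2 h3 => (pr_subr 6 25 h1)⟩
noncomputable def txg_354_s : Sl3 txg_354 := ⟨_, fun h1 h2 h3 => (pr_subr 3 20 h1)⟩
noncomputable def txg_356_s : Sl3 txg_356 := ⟨_, fun h1 h2 h3 => (pr_subr 117 1000 h1)⟩
noncomputable def txg_410_s : Sl3 txg_410 := ⟨_, fun h1 h2 h3 => (pr_subr 19 100 h1)⟩
noncomputable def txg_450_s : Sl3 txg_450 := ⟨_, fun h1 h2 h3 => (pr_subr 17 50 h1)⟩
noncomputable def txg_451_s : Sl3 txg_451 := ⟨_, fun h1 h2 h3 => (pr_subr 29 100 h1)⟩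
noncomputable def txg_493_s : Sl3 txg_493 := ⟨_, fun h1 h2 h3 => (pr_subr 39 100 h1)⟩
noncomputable def txg_512_s : Sl3 txg_512 := ⟨_, fun h1 h2 h3 => (pr_subr 11 25 h1)⟩
noncomputable def txg_s : Sl3 txg := ⟨_, fun h1 h2 h3 => (pr_case (pr_subr 11 2198 h1) (pr_case (txg_26_s.snd h1 h2 h3) (pr_case (txg_29_s.snd h1 h2 h3) (pr_case (txg_32_s.snd h1 h2 h3) (pr_add (pr_add (pr_addc (pr_scale 123749 1500000 h1) (enc_rat _ 123749 3000000)) (pr_cmul (enc_norm (txg_4.enc h1.l h2.l h3)) (pr_norm (pr_subr 17759 600000 (pr_neg (pr_scale 17759 300000 h1)))))) (pr_cmul (enc_norm (enc_subr 681913 500000 (enc_scale 1050243 100000 (txg_4.enc h1.l h2.l h3)))) (pr_norm (pr_mul (pr_norm (pr_addc h1 (enc_rat _ 1 2))) (pr_norm (pr_csub (enc_neg (enc_rat _ 47 100)) h1)))))) (pr_case (txg_57_s.snd h1 h2 h3) (pr_add (pr_add (pr_addc (pr_scale 197429 1500000 h1) (enc_rat _ 965041 15000000))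 (pr_cmul (enc_norm (txg_4.enc h1.l h2.l h3)) (pr_norm (pr_subr 9993119 30000000 (pr_neg (pr_scale 105743 150000 h1)))))) (pr_cmul (enc_norm (enc_subr 547 2000 (enc_scale 1102271 100000 (txg_4.enc h1.l h2.l h3)))) (pr_norm (pr_mul (pr_norm (txg_32_s.snd h1 h2 h3)) (pr_norm (pr_csub (enc_neg (enc_rat _ 11 25)) h1)))))) (pr_add (pr_add (pr_addc (pr_scale 307 6250 h1) (enc_rat _ 700909 25000000)) (pr_cmul (enc_norm (txg_4.enc h1.l h2.l h3)) (pr_norm (pr_subr 2078139 5000000 (pr_neg (pr_scale 357003 400000 h1)))))) (pr_cmul (enc_norm (enc_sub (enc_rat _ 283451 125000) (enc_scale 89453 25000 (txg_4.enc h1.l h2.l h3)))) (pr_norm (pr_mul (pr_norm (txg_57_s.snd h1 h2 h3)) (pr_norm (pr_csub (enc_neg (enc_rat _ 2 5)) h1)))))))) (pr_case (txg_101_s.snd h1 h2 h3) (pr_case (txg_104_s.snd h1 h2 h3) (pr_add (pr_add (pr_subr 298771 25000000 (pr_neg (pr_scale 1589 31250 h1))) (pr_cmul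 (enc_norm (txg_4.enc h1.l h2.l h3)) (pr_norm (pr_subr 811529 1875000 (pr_neg (pr_scale 280643 300000 h1)))))) (pr_cmul (enc_norm (enc_add (enc_scale 620301 100000 (txg_4.enc h1.l h2.l h3)) (enc_rat _ 308789 1000000))) (pr_norm (pr_mul (pr_norm (txg_29_s.snd h1 h2 h3)) (pr_norm (pr_csub (enc_neg (enc_rat _ 37 100)) h1)))))) (pr_add (pr_add (pr_subr 368763 100000000 (pr_neg (pr_scale 5703 200000 h1))) (pr_cmul (enc_norm (txg_4.enc h1.l h2.l h3)) (pr_norm (pr_subr 15727773 40000000 (pr_neg (pr_scale 331357 400000 h1)))))) (pr_cmul (enc_norm (enc_subr 394959 500000 (enc_neg (enc_scale 732931 100000 (txg_4.enc h1.l h2.l h3))))) (pr_norm (pr_mul (pr_norm (txg_104_s.snd h1 h2 h3)) (pr_norm (pr_csub (enc_neg (enc_rat _ 33 100)) h1))))))) (pr_case (txg_151_s.snd h1 h2 h3) (pr_add (pr_add (pr_subr 3994329 200000000 (pr_neg (pr_scale 155721 2000000 h1))) (pr_cmul (enc_norm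 (txg_4.enc h1.l h2.l h3)) (pr_norm (pr_addc (pr_scale 325029 400000 h1) (enc_rat _ 1186593 8000000))))) (pr_cmul (enc_norm (enc_sub (enc_rat _ 2023557 1000000) (enc_scale 84237 2500 (txg_4.enc h1.l h2.l h3)))) (pr_norm (pr_mul (pr_norm (txg_101_s.snd h1 h2 h3)) (pr_norm (pr_csub (enc_neg (enc_rat _ 29 100)) h1)))))) (pr_add (pr_add (pr_subr 149219 200000000 (pr_neg (pr_scale 23131 2000000 h1))) (pr_cmul (enc_norm (txg_4.enc h1.l h2.l h3)) (pr_norm (pr_addc (pr_scale 135571 200000 h1) (enc_rat _ 2185121 20000000))))) (pr_cmul (enc_norm (enc_subr 736187 200000 (enc_scale 1853137 50000 (txg_4.enc h1.l h2.l h3)))) (pr_norm (pr_mul (pr_norm (txg_151_s.snd h1 h2 h3)) (pr_norm (pr_csub (enc_neg (enc_rat _ 1 4)) h1))))))))) (pr_case (txg_196_s.snd h1 h2 h3) (pr_case (txg_199_s.snd h1 h2 h3) (pr_add (pr_add (pr_addc (pr_scale 7737 31250 h1) (enc_rat _ 200129 3125000))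 (pr_cmul (enc_norm (txg_4.enc h1.l h2.l h3)) (pr_norm (pr_subr 153239 7500000 (pr_scale 47731 300000 h1))))) (pr_cmul (enc_norm (enc_subr 373041 100000 (enc_neg (enc_scale 3212523 100000 (txg_4.enc h1.l h2.l h3))))) (pr_norm (pr_mul (pr_norm (txg_26_s.snd h1 h2 h3)) (pr_norm (pr_csub (enc_neg (enc_rat _ 11 50)) h1)))))) (pr_case (txg_222_s.snd h1 h2 h3) (pr_add (pr_add (pr_addc (pr_scale 846717 2000000 h1) (enc_rat _ 10271167 100000000)) (pr_cmul (enc_norm (txg_4.enc h1.l h2.l h3)) (pr_norm (pr_addc (pr_scale 162863 200000 h1) (enc_rat _ 1237147 10000000))))) (pr_cmul (enc_norm (enc_subr 1596549 1000000 (enc_scale 192841 25000 (txg_4.enc h1.l h2.l h3)))) (pr_norm (pr_mul (pr_norm (txg_199_s.snd h1 h2 h3)) (pr_norm (pr_csub (enc_neg (enc_rat _ 9 50)) h1)))))) (pr_add (pr_add (pr_addc (pr_scale 950203 2000000 h1) (enc_rat _ 11202541 100000000)) (pr_cmul (enc_norm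 (txg_4.enc h1.l h2.l h3)) (pr_norm (pr_subr 251761 20000000 (pr_scale 22831 400000 h1))))) (pr_cmul (enc_norm (enc_add (enc_scale 560863 50000 (txg_4.enc h1.l h2.l h3)) (enc_rat _ 151487 500000))) (pr_norm (pr_mul (pr_norm (txg_222_s.snd h1 h2 h3)) (pr_norm (pr_csub (enc_neg (enc_rat _ 7 50)) h1)))))))) (pr_case (txg_261_s.snd h1 h2 h3) (pr_case (txg_264_s.snd h1 h2 h3) (pr_add (pr_add (pr_addc (pr_scale 1345091 3000000 h1) (enc_rat _ 16242317 150000000)) (pr_cmul (enc_norm (txg_4.enc h1.l h2.l h3)) (pr_norm (pr_subr 362081 6000000 (pr_neg (pr_scale 85217 300000 h1)))))) (pr_cmul (enc_norm (enc_sub (enc_rat _ 243651 500000) (enc_scale 8963 2500 (txg_4.enc h1.l h2.l h3)))) (pr_norm (pr_mul (pr_norm (txg_196_s.snd h1 h2 h3)) (pr_norm (pr_csub (enc_neg (enc_rat _ 11 100)) h1)))))) (pr_add (pr_add (pr_addc (pr_scale 1634577 4000000 h1) (enc_rat _ 41565191 400000000))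 (pr_cmul (enc_norm (txg_4.enc h1.l h2.l h3)) (pr_norm (pr_subr 1108221 40000000 (pr_scale 5073 400000 h1))))) (pr_cmul (enc_norm (enc_sub (enc_rat _ 627499 1000000) (enc_scale 472957 100000 (txg_4.enc h1.l h2.l h3)))) (pr_norm (pr_mul (pr_norm (txg_264_s.snd h1 h2 h3)) (pr_norm (pr_csub (enc_neg (enc_rat _ 7 100)) h1))))))) (pr_case (txg_307_s.snd h1 h2 h3) (pr_add (pr_add (pr_addc (pr_scale 351077 1000000 h1) (enc_rat _ 9988327 100000000)) (pr_cmul (enc_norm (txg_4.enc h1.l h2.l h3)) (pr_norm (pr_subr 116341 20000000 (pr_scale 2603 8000 h1))))) (pr_cmul (enc_norm (enc_sub (enc_rat _ 162337 200000) (enc_scale 38597 12500 (txg_4.enc h1.l h2.l h3)))) (pr_norm (pr_mul (pr_norm (txg_261_s.snd h1 h2 h3)) (pr_norm (pr_csub (enc_neg (enc_rat _ 3 100)) h1)))))) (pr_add (pr_add (pr_addc (pr_scale 1329844161414197 4646410447000000 h1) (enc_rat _ 45505655883590503 464641044700000000))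 (pr_cmul (enc_norm (txg_4.enc h1.l h2.l h3)) (pr_norm (pr_addc (pr_scale 225510933143 422785300000 h1) (enc_rat _ 1790517553 4227853000000))))) (pr_cmul (enc_norm (enc_sub (enc_rat _ 925613 1000000) (enc_scale 12071 5000 (txg_4.enc h1.l h2.l h3)))) (pr_norm (pr_mul (pr_norm (txg_307_s.snd h1 h2 h3)) (pr_norm (pr_csub (enc_rat _ 11 2198) h1)))))))))) (pr_case (txg_350_s.snd h1 h2 h3) (pr_sub (pr_mul (pr_norm (pr_csub (enc_pnc _ 1) h2)) (pr_norm (pr_subn 1 (pr_nat 2 h2)))) (pr_mul (pr_norm (pr_nat 2 (pr_subc (pr_scale 4 3 (txg_6_s.snd h1 h2 h3)) h3))) (pr_norm (pr_mul (pr_norm (pr_subn 1 (pr_add (pr_scale 2 3 (txg_6_s.snd h1 h2 h3)) h2))) (kcg_s.snd h1 h3))))) (pr_case (txg_352_s.snd h1 h2 h3) (pr_case (txg_354_s.snd h1 h2 h3) (pr_case (txg_356_s.snd h1 h2 h3) (pr_add (pr_add (pr_add (pr_addc (pr_scale 14686686162727 805443314000000 h1) (enc_rat _ 6966814420456357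 61957178000000000)) (pr_cmul (enc_norm (txg_4.enc h1.l h2.l h3)) (pr_norm (pr_subr 978548786833 77446472500000 (pr_scale 3091403746181 4027216570000 h1))))) (pr_cmul (enc_sq (enc_norm (txg_4.enc h1.l h2.l h3))) (pr_norm (pr_csub (enc_rat _ 145062981 5779587500) (pr_scale 32236218 150269275 h1))))) (pr_cmul (enc_norm (enc_add (enc_mul (enc_norm (enc_subr 131293 50000 (enc_scale 102213 10000 (txg_4.enc h1.l h2.l h3)))) (enc_norm (txg_4.enc h1.l h2.l h3))) (enc_rat _ 1972461 1000000))) (pr_norm (pr_mul (pr_norm (txg_350_s.snd h1 h2 h3)) (pr_norm (pr_csub (enc_rat _ 117 1000) h1)))))) (pr_add (pr_add (pr_csub (enc_rat _ 17147519 137500000) (pr_scale 95241 1100000 h1)) (pr_cmul (enc_norm (txg_4.enc h1.l h2.l h3)) (pr_norm (pr_subr 621883 55000000 (pr_scale 249571 330000 h1))))) (pr_cmul (enc_norm (enc_add (enc_mul (enc_norm (enc_sub (enc_rat _ 24179 12500) (enc_scale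 17379 5000 (txg_4.enc h1.l h2.l h3)))) (enc_norm (txg_4.enc h1.l h2.l h3))) (enc_rat _ 1981727 1000000))) (pr_norm (pr_mul (pr_norm (txg_356_s.snd h1 h2 h3)) (pr_norm (pr_csub (enc_rat _ 3 20) h1))))))) (pr_case (txg_410_s.snd h1 h2 h3) (pr_add (pr_add (pr_csub (enc_rat _ 60166613 400000000) (pr_scale 1031859 4000000 h1)) (pr_cmul (enc_norm (txg_4.enc h1.l h2.l h3)) (pr_norm (pr_csub (enc_rat _ 5247321 40000000) (pr_scale 77463 400000 h1))))) (pr_cmul (enc_norm (enc_add (enc_scale 8861 400 (txg_4.enc h1.l h2.l h3)) (enc_rat _ 529927 200000))) (pr_norm (pr_mul (pr_norm (txg_354_s.snd h1 h2 h3)) (pr_norm (pr_csub (enc_rat _ 19 100) h1)))))) (pr_add (pr_add (pr_csub (enc_rat _ 85703719 500000000) (pr_scale 230277 625000 h1)) (pr_cmul (enc_norm (txg_4.enc h1.l h2.l h3)) (pr_norm (pr_csub (enc_rat _ 17193627 50000000) (pr_scale 328269 250000 h1))))) (pr_cmul (enc_norm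 (enc_add (enc_scale 466637 100000 (txg_4.enc h1.l h2.l h3)) (enc_rat _ 1404 15625))) (pr_norm (pr_mul (pr_norm (txg_410_s.snd h1 h2 h3)) (pr_norm (pr_csub (enc_rat _ 6 25) h1)))))))) (pr_case (txg_450_s.snd h1 h2 h3) (pr_case (txg_451_s.snd h1 h2 h3) (pr_add (pr_add (pr_csub (enc_rat _ 78961183 500000000) (pr_scale 1561277 5000000 h1)) (pr_cmul (enc_norm (txg_4.enc h1.l h2.l h3)) (pr_norm (pr_subr 2399853 50000000 (pr_scale 159857 500000 h1))))) (pr_cmul (enc_norm (enc_subr 1213611 1000000 (enc_neg (enc_scale 3732217 100000 (txg_4.enc h1.l h2.l h3))))) (pr_norm (pr_mul (pr_norm (txg_352_s.snd h1 h2 h3)) (pr_norm (pr_csub (enc_rat _ 29 100) h1)))))) (pr_add (pr_add (pr_csub (enc_rat _ 42222933 250000000) (pr_scale 437601 1250000 h1)) (pr_cmul (enc_norm (txg_4.enc h1.l h2.l h3)) (pr_norm (pr_subr 15014099 50000000 (pr_scale 594831 500000 h1))))) (pr_cmul (enc_norm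 (enc_add (enc_scale 1992323 100000 (txg_4.enc h1.l h2.l h3)) (enc_rat _ 1970119 1000000))) (pr_norm (pr_mul (pr_norm (txg_451_s.snd h1 h2 h3)) (pr_norm (pr_csub (enc_rat _ 17 50) h1))))))) (pr_case (txg_493_s.snd h1 h2 h3) (pr_add (pr_add (pr_csub (enc_rat _ 41778451 250000000) (pr_scale 862129 2500000 h1)) (pr_cmul (enc_norm (txg_4.enc h1.l h2.l h3)) (pr_norm (pr_addc (pr_scale 5907 250000 h1) (enc_rat _ 4808479 50000000))))) (pr_cmul (enc_norm (enc_subr 129669 62500 (enc_scale 339743 100000 (txg_4.enc h1.l h2.l h3)))) (pr_norm (pr_mul (pr_norm (txg_450_s.snd h1 h2 h3)) (pr_norm (pr_csub (enc_rat _ 39 100) h1)))))) (pr_case (txg_512_s.snd h1 h2 h3) (pr_add (pr_add (pr_csub (enc_rat _ 38061907 250000000) (pr_scale 766833 2500000 h1)) (pr_cmul (enc_norm (txg_4.enc h1.l h2.l h3)) (pr_norm (pr_csub (enc_rat _ 12385087 50000000) (pr_scale 91229 250000 h1))))) (pr_cmul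 (enc_norm (enc_add (enc_scale 437347 100000 (txg_4.enc h1.l h2.l h3)) (enc_rat _ 656169 500000))) (pr_norm (pr_mul (pr_norm (txg_493_s.snd h1 h2 h3)) (pr_norm (pr_csub (enc_rat _ 11 25) h1)))))) (pr_add (pr_add (pr_csub (enc_rat _ 864251 6000000) (pr_scale 864251 3000000 h1)) (pr_cmul (enc_norm (txg_4.enc h1.l h2.l h3)) (pr_norm (pr_csub (enc_rat _ 871387 1200000) (pr_scale 871387 600000 h1))))) (pr_cmul (enc_norm (enc_subr 1404443 1000000 (enc_scale 144787 10000 (txg_4.enc h1.l h2.l h3)))) (pr_norm (pr_mul (pr_norm (txg_512_s.snd h1 h2 h3)) (pr_norm (pr_csub (enc_rat _ 1 2) h1))))))))))))⟩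
noncomputable def l0q0_s : Sl2 l0q0 := ⟨_, fun h1 h2 => (pr_norm (txg_s.snd (pr_norm (pr_sub (pr_scale 3 4 h1) (pr_half (c1g_s.snd h1)))) (pr_nd (c1g_s.snd h1)) h2))⟩
noncomputable def kc0q0_8_s : Sl2 kc0q0_8 := ⟨_, fun h1 h2 => (pr_sub (pr_scale 3 4 h1) (pr_half (c1g_s.snd h1)))⟩
noncomputable def kc0q0_s : Sl2 kc0q0 := ⟨_, fun h1 h2 => (pr_norm (pr_case (pr_addc (kc0q0_8_s.snd h1 h2) (enc_rat _ 1 4)) (pr_case (pr_addc (kc0q0_8_s.snd h1 h2) (enc_rat _ 21 50)) (pr_add (pr_addc (pr_scale 12389 40000 (kc0q0_8_s.snd h1 h2)) (enc_rat _ 12389 80000)) (pr_cmul (enc_norm (kc0q0_3.enc h1.l h2)) (pr_norm (pr_addc (pr_scale 54531 4000 (kc0q0_8_s.snd h1 h2)) (enc_rat _ 54531 8000))))) (pr_case (pr_addc (kc0q0_8_s.snd h1 h2) (enc_rat _ 33 100)) (pr_add (pr_addc (pr_scale 227 144 (kc0q0_8_s.snd h1 h2)) (enc_rat _ 257573 375000)) (pr_cmul (enc_norm (kc0q0_3.enc h1.l h2)) (pr_norm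 (pr_subr 163181 150000 (pr_neg (pr_scale 23341 4500 (kc0q0_8_s.snd h1 h2))))))) (pr_add (pr_subr 6220113 8000000 (pr_neg (pr_scale 228889 80000 (kc0q0_8_s.snd h1 h2)))) (pr_cmul (enc_norm (kc0q0_3.enc h1.l h2)) (pr_norm (pr_addc (pr_scale 28893 1000 (kc0q0_8_s.snd h1 h2)) (enc_rat _ 1015849 100000))))))) (pr_case (pr_addc (kc0q0_8_s.snd h1 h2) (enc_rat _ 4 25)) (pr_add (pr_addc (pr_scale 219227 22500 (kc0q0_8_s.snd h1 h2)) (enc_rat _ 1335161 562500)) (pr_cmul (enc_norm (kc0q0_3.enc h1.l h2)) (pr_norm (pr_subr 24345709 900000 (pr_neg (pr_scale 1079497 9000 (kc0q0_8_s.snd h1 h2))))))) (pr_case (pr_addc (kc0q0_8_s.snd h1 h2) (enc_rat _ 2 25)) (pr_add (pr_addc (pr_scale 370639 40000 (kc0q0_8_s.snd h1 h2)) (enc_rat _ 574307 250000)) (pr_cmul (enc_norm (kc0q0_3.enc h1.l h2)) (pr_norm (pr_addc (pr_scale 407983 4000 (kc0q0_8_s.snd h1 h2)) (enc_rat _ 845959 100000)))))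 (pr_add (pr_addc (pr_scale 67470624557 15570000000 (kc0q0_8_s.snd h1 h2)) (enc_rat _ 370297393307 194625000000)) (pr_cmul (enc_norm (kc0q0_3.enc h1.l h2)) (pr_norm (pr_csub (enc_rat _ 329923 18684000) (pr_scale 32962307 9342000 (kc0q0_8_s.snd h1 h2))))))))))⟩
noncomputable def kf0q1_10_s : Sl2 kf0q1_10 := ⟨_, fun h1 h2 => (pr_scale 3 2 h1)⟩
noncomputable def kf0q1_s : Sl2 kf0q1 := ⟨_, fun h1 h2 => (pr_norm (pr_add (pr_mul (pr_norm (pr_mul (pr_norm (pr_cadd (enc_pnc _ 1) (pr_nat 2 (c1g_s.snd h1)))) (pr_norm (pr_sub (kf0q1_10_s.snd h1 h2) (c1g_s.snd h1))))) (pr_nd (pr_inv (pr_nat 2 (pr_sub (pr_cadd (enc_pnc _ 1) (kf0q1_10_s.snd h1 h2)) (c1g_s.snd h1)))))) (pr_mul (pr_norm (pr_subn 1 h1)) (kcg_s.snd (pr_norm (pr_sub (pr_scale 3 4 h1) (pr_half (c1g_s.snd h1)))) h2))))⟩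
noncomputable def l0q1_s : Sl2 l0q1 := ⟨_, fun h1 h2 => (pr_norm (txg_s.snd (pr_norm (pr_sub (pr_scale 3 4 h1) (pr_half (c1g_s.snd h1)))) (pr_nd (c1g_s.snd h1)) h2))⟩
noncomputable def gsg_s : Sl1 gsg := ⟨_, fun h1 => (pr_sqrt (pr_csub (enc_pnc _ 1) (pr_scale 3 4 (pr_sq h1))))⟩
noncomputable def gug_s : Sl1 gug := ⟨_, fun h1 => (pr_norm (pr_add (pr_scale 3 4 h1) (pr_scale 3 2 (pr_csub (enc_pnc _ 1) (gsg_s.snd h1)))))⟩
noncomputable def kc0q1_9_s : Sl2 kc0q1_9 := ⟨_, fun h1 h2 => (pr_sub (pr_scale 3 4 h1) (pr_half (c1g_s.snd h1)))⟩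
noncomputable def kc0q1_s : Sl2 kc0q1 := ⟨_, fun h1 h2 => (pr_norm (pr_case (pr_subr 11 2198 (kc0q1_9_s.snd h1 h2)) (pr_case (pr_addc (kc0q1_9_s.snd h1 h2) (enc_rat _ 1 4)) (pr_case (pr_addc (kc0q1_9_s.snd h1 h2) (enc_rat _ 21 50)) (pr_add (pr_addc (pr_scale 12389 40000 (kc0q1_9_s.snd h1 h2)) (enc_rat _ 12389 80000)) (pr_cmul (enc_norm (kc0q1_3.enc h1.l h2)) (pr_norm (pr_addc (pr_scale 54531 4000 (kc0q1_9_s.snd h1 h2)) (enc_rat _ 54531 8000))))) (pr_case (pr_addc (kc0q1_9_s.snd h1 h2) (enc_rat _ 33 100)) (pr_add (pr_addc (pr_scale 227 144 (kc0q1_9_s.snd h1 h2)) (enc_rat _ 257573 375000)) (pr_cmul (enc_norm (kc0q1_3.enc h1.l h2)) (pr_norm (pr_subr 163181 150000 (pr_neg (pr_scale 23341 4500 (kc0q1_9_s.snd h1 h2))))))) (pr_add (pr_subr 6220113 8000000 (pr_neg (pr_scale 228889 80000 (kc0q1_9_s.snd h1 h2)))) (pr_cmul (enc_norm (kc0q1_3.enc h1.l h2)) (pr_norm (pr_addc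 (pr_scale 28893 1000 (kc0q1_9_s.snd h1 h2)) (enc_rat _ 1015849 100000))))))) (pr_case (pr_addc (kc0q1_9_s.snd h1 h2) (enc_rat _ 4 25)) (pr_add (pr_addc (pr_scale 219227 22500 (kc0q1_9_s.snd h1 h2)) (enc_rat _ 1335161 562500)) (pr_cmul (enc_norm (kc0q1_3.enc h1.l h2)) (pr_norm (pr_subr 24345709 900000 (pr_neg (pr_scale 1079497 9000 (kc0q1_9_s.snd h1 h2))))))) (pr_case (pr_addc (kc0q1_9_s.snd h1 h2) (enc_rat _ 2 25)) (pr_add (pr_addc (pr_scale 370639 40000 (kc0q1_9_s.snd h1 h2)) (enc_rat _ 574307 250000)) (pr_cmul (enc_norm (kc0q1_3.enc h1.l h2)) (pr_norm (pr_addc (pr_scale 407983 4000 (kc0q1_9_s.snd h1 h2)) (enc_rat _ 845959 100000))))) (pr_add (pr_addc (pr_scale 67470624557 15570000000 (kc0q1_9_s.snd h1 h2)) (enc_rat _ 370297393307 194625000000)) (pr_cmul (enc_norm (kc0q1_3.enc h1.l h2)) (pr_norm (pr_csub (enc_rat _ 329923 18684000) (pr_scale 32962307 9342000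 (kc0q1_9_s.snd h1 h2))))))))) (pr_case (pr_subr 13 134 (kc0q1_9_s.snd h1 h2)) (pr_sub (pr_add (pr_cadd (enc_rat _ 3 4) (pr_scale 3 2 h1)) (pr_scale 3 4 (pr_mul (pr_norm (pr_mul h1 (pr_nd (pr_inv (c1g_s.snd h1))))) (gug_s.snd h1)))) (pr_mul (kcg_s.snd (pr_norm (kc0q1_9_s.snd h1 h2)) h2) (pr_norm (pr_add (gug_s.snd h1) (pr_nat 2 (c1g_s.snd h1)))))) (pr_case (pr_subr 13 50 (kc0q1_9_s.snd h1 h2)) (pr_case (pr_subr 9 50 (kc0q1_9_s.snd h1 h2)) (pr_add (pr_csub (enc_rat _ 5200385527513 1390000000000) (pr_scale 572944803057 27800000000 (kc0q1_9_s.snd h1 h2))) (pr_cmul (enc_norm (kc0q1_3.enc h1.l h2)) (pr_norm (pr_csub (enc_rat _ 2175643119217 1390000000000) (pr_scale 458437579913 27800000000 (kc0q1_9_s.snd h1 h2)))))) (pr_add (pr_csub (enc_rat _ 414667 4000000) (pr_scale 32043 80000 (kc0q1_9_s.snd h1 h2))) (pr_cmul (enc_norm (kc0q1_3.enc h1.l h2)) (pr_norm (pr_subr 368587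 80000 (pr_scale 142411 8000 (kc0q1_9_s.snd h1 h2))))))) (pr_case (pr_subr 17 50 (kc0q1_9_s.snd h1 h2)) (pr_add (pr_csub (enc_rat _ 599293 4000000) (pr_scale 9249 16000 (kc0q1_9_s.snd h1 h2))) (pr_cmul (enc_norm (kc0q1_3.enc h1.l h2)) (pr_norm (pr_csub (enc_rat _ 228181 200000) (pr_scale 17229 4000 (kc0q1_9_s.snd h1 h2)))))) (pr_case (pr_subr 21 50 (kc0q1_9_s.snd h1 h2)) (pr_add (pr_subr 395989 4000000 (pr_scale 12301 80000 (kc0q1_9_s.snd h1 h2))) (pr_cmul (enc_norm (kc0q1_3.enc h1.l h2)) (pr_norm (pr_csub (enc_rat _ 913179 200000) (pr_scale 57523 4000 (kc0q1_9_s.snd h1 h2)))))) (pr_add (pr_subr 34417 160000 (pr_scale 34417 80000 (kc0q1_9_s.snd h1 h2))) (pr_cmul (enc_norm (kc0q1_3.enc h1.l h2)) (pr_norm (pr_subr 73701 8000 (pr_scale 73701 4000 (kc0q1_9_s.snd h1 h2))))))))))))⟩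
noncomputable def yag_s : Sl1 yag := ⟨_, fun h1 => (pr_sqrt (pr_scale 4 3 (pr_csub (enc_pnc _ 1) (pr_sq h1))))⟩
noncomputable def kfc02_s : Sl2 kfc02 := ⟨_, fun h1 h2 => (pr_norm (pr_add h1 (pr_mul (pr_norm (pr_subn 1 (yag_s.snd h1))) (kcg_s.snd (pr_nd (pr_neg h1)) h2))))⟩
noncomputable def lc02_7_s : Sl2 lc02_7 := ⟨_, fun h1 h2 => (pr_scale 3 4 (yag_s.snd h1))⟩
noncomputable def lc02_8_s : Sl2 lc02_8 := ⟨_, fun h1 h2 => (pr_half h1)⟩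
noncomputable def lc02_s : Sl2 lc02 := ⟨_, fun h1 h2 => (pr_norm (pr_sub (txg_s.snd (pr_nd (pr_neg h1)) (pr_norm (pr_add (lc02_7_s.snd h1 h2) (lc02_8_s.snd h1 h2))) h2) (txg_s.snd h1 (pr_norm (pr_sub (lc02_7_s.snd h1 h2) (lc02_8_s.snd h1 h2))) h2)))⟩
noncomputable def kcc02_s : Sl2 kcc02 := ⟨_, fun h1 h2 => (pr_norm (pr_case (pr_subr 1 5 h1) (pr_case (pr_subr 1 10 h1) (pr_sub (pr_cmul (enc_norm (kcc02_4.enc h1.l h2)) (pr_nd (pr_scale 30523 10000 h1))) (pr_scale 1733 25000 h1)) (pr_add (pr_subr 777 200000 (pr_neg (pr_scale 3047 100000 h1))) (pr_cmul (enc_norm (kcc02_4.enc h1.l h2)) (pr_norm (pr_addc (pr_scale 13829 10000 h1) (enc_rat _ 8347 50000)))))) (pr_case (pr_subr 3 10 h1) (pr_add (pr_subr 14379 1000000 (pr_scale 11 500 h1)) (pr_cmul (enc_norm (kcc02_4.enc h1.l h2)) (pr_norm (pr_csub (enc_rat _ 31953 50000) (pr_scale 9777 10000 h1))))) (pr_case (pr_subr 2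 5 h1) (pr_add (pr_subr 41397 1000000 (pr_scale 5603 50000 h1)) (pr_cmul (enc_norm (kcc02_4.enc h1.l h2)) (pr_norm (pr_csub (enc_rat _ 97707 100000) (pr_scale 5261 2500 h1))))) (pr_add (pr_csub (enc_rat _ 3427 200000) (pr_scale 3427 100000 h1)) (pr_cmul (enc_norm (kcc02_4.enc h1.l h2)) (pr_norm (pr_csub (enc_rat _ 13531 20000) (pr_scale 13531 10000 h1)))))))))⟩
noncomputable def swg_s : Sl1 swg := ⟨_, fun h1 => (pr_sqrt (pr_csub (enc_pnc _ 1) (pr_scale 3 4 (pr_sq (pr_norm (pr_subn 1 h1))))))⟩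
noncomputable def cv1m_s : Sl1 cv1m := ⟨_, fun h1 => (pr_norm (pr_add (pr_scale 23 25 (c1g_s.snd h1)) (pr_scale 2 25 (pr_addc (swg_s.snd h1) (enc_rat _ 1 2)))))⟩
noncomputable def bf1q0_s : Sl2 bf1q0 := ⟨_, fun h1 h2 => (pr_norm (pr_case (pr_subr 23 100 h1) (pr_case (pr_subr 3 25 h1) (pr_add (pr_csub (enc_pnc _ 1) (pr_scale 37237 40000 h1)) (pr_cmul (enc_norm (bf1q0_3.enc h1.l h2)) (pr_nd (pr_scale 881 12000 h1)))) (pr_add (pr_csub (enc_rat _ 12257039 11000000) (pr_scale 41431 22000 h1)) (pr_cmul (enc_norm (bf1q0_3.enc h1.l h2)) (pr_norm (pr_addc (pr_scale 679 11000 h1) (enc_rat _ 1543 1100000)))))) (pr_case (pr_subr 7 20 h1) (pr_add (pr_csub (enc_rat _ 4757851 4000000) (pr_scale 17681 8000 h1)) (pr_cmul (enc_norm (bf1q0_3.enc h1.l h2)) (pr_norm (pr_csub (enc_rat _ 10353 40000) (pr_scale 423 400 h1))))) (pr_case (pr_subr 79 200 h1) (pr_add (pr_csub (enc_rat _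 9670451 9000000) (pr_scale 42337 22500 h1)) (pr_cmul (enc_norm (bf1q0_3.enc h1.l h2)) (pr_norm (pr_csub (enc_rat _ 5803 45000) (pr_scale 3089 4500 h1))))) (pr_add (pr_csub (enc_rat _ 20354071 21000000) (pr_scale 84797 52500 h1)) (pr_cmul (enc_norm (bf1q0_3.enc h1.l h2)) (pr_norm (pr_subr 653783 2100000 (pr_scale 1124 2625 h1)))))))))⟩
noncomputable def kf1q0_s : Sl2 kf1q0 := ⟨_, fun h1 h2 => (pr_norm (pr_mul (cv1m_s.snd h1) (bf1q0_s.snd h1 h2)))⟩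
noncomputable def bx1q0_s : Sl2 bx1q0 := ⟨_, fun h1 h2 => (pr_norm (pr_case (pr_subr 23 100 h1) (pr_case (pr_subr 3 25 h1) (pr_sub (pr_scale 10361 120000 h1) (pr_cmul (enc_norm (bx1q0_3.enc h1.l h2)) (pr_nd (pr_scale 109 1000 h1)))) (pr_add (pr_addc (pr_scale 3163 110000 h1) (enc_rat _ 15203 2200000)) (pr_cmul (enc_norm (bx1q0_3.enc h1.l h2)) (pr_norm (pr_csub (enc_rat _ 30141 275000) (pr_scale 5623 5500 h1)))))) (pr_case (pr_subr 7 20 h1) (pr_add (pr_addc (pr_scale 1533 40000 h1) (enc_rat _ 18837 4000000)) (pr_cmul (enc_norm (bx1q0_3.enc h1.l h2)) (pr_norm (pr_subr 382189 1200000 (pr_scale 10067 12000 h1))))) (pr_case (pr_subr 79 200 h1) (pr_add (pr_subr 1023253 9000000 (pr_scale 4237 11250 h1)) (pr_cmul (enc_norm (bx1q0_3.enc h1.l h2)) (pr_norm (pr_csub (enc_rat _ 44747 900000) (pr_scale 959 4500 h1))))) (pr_add (pr_subr 447793 4200000 (pr_scale 4708 13125 h1))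 (pr_cmul (enc_norm (bx1q0_3.enc h1.l h2)) (pr_norm (pr_csub (enc_rat _ 5039 75000) (pr_scale 193 750 h1)))))))))⟩
noncomputable def l1q0_s : Sl2 l1q0 := ⟨_, fun h1 h2 => (pr_norm (pr_mul (cv1m_s.snd h1) (bx1q0_s.snd h1 h2)))⟩
noncomputable def bd1q0_s : Sl2 bd1q0 := ⟨_, fun h1 h2 => (pr_norm (pr_sub (pr_scale 18537 100000 h1) (pr_cmul (enc_norm (enc_subr 251 400 h2)) (pr_nd (pr_scale 54497 12500 h1)))))⟩
noncomputable def kc1q0_s : Sl2 kc1q0 := ⟨_, fun h1 h2 => (pr_norm (pr_mul (cv1m_s.snd h1) (bd1q0_s.snd h1 h2)))⟩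
noncomputable def bf1q1_s : Sl2 bf1q1 := ⟨_, fun h1 h2 => (pr_norm (pr_case (pr_subr 7 10 h1) (pr_case (pr_subr 3 5 h1) (pr_add (pr_subr 1095927 1000000 (pr_scale 199487 100000 h1)) (pr_cmul (enc_norm (bf1q1_3.enc h1.l h2)) (pr_norm (pr_csub (enc_rat _ 3939 50000) (pr_scale 1939 10000 h1))))) (pr_add (pr_subr 912741 1000000 (pr_scale 42239 25000 h1)) (pr_cmul (enc_norm (bf1q1_3.enc h1.l h2)) (pr_norm (pr_csub (enc_rat _ 591 3125) (pr_scale 1889 5000 h1)))))) (pr_case (pr_subr 4 5 h1) (pr_add (pr_subr 461071 500000 (pr_scale 170299 100000 h1)) (pr_cmul (enc_norm (bf1q1_3.enc h1.l h2)) (pr_norm (pr_subr 7303 100000 (pr_neg (pr_scale 33 10000 h1)))))) (pr_case (pr_subr 9 10 h1) (pr_add (pr_subr 788551 500000 (pr_scale 252169 100000 h1)) (pr_cmul (enc_norm (bf1q1_3.enc h1.l h2)) (pr_norm (pr_subr 51319 100000 (pr_scale 5469 10000 h1))))) (pr_add (pr_subr 77353 50000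 (pr_scale 248831 100000 h1)) (pr_cmul (enc_norm (bf1q1_3.enc h1.l h2)) (pr_norm (pr_subr 15347 20000 (pr_scale 8293 10000 h1)))))))))⟩
noncomputable def kf1q1_s : Sl2 kf1q1 := ⟨_, fun h1 h2 => (pr_norm (pr_mul (cv1m_s.snd h1) (bf1q1_s.snd h1 h2)))⟩
noncomputable def bx1q1_s : Sl2 bx1q1 := ⟨_, fun h1 h2 => (pr_norm (pr_case (pr_subr 7 10 h1) (pr_case (pr_subr 3 5 h1) (pr_add (pr_subr 108511 1000000 (pr_scale 1084 3125 h1)) (pr_cmul (enc_norm (bx1q1_3.enc h1.l h2)) (pr_norm (pr_subr 563 50000 (pr_neg (pr_scale 31 1000 h1)))))) (pr_add (pr_addc (pr_scale 301 2000 h1) (enc_rat _ 9317 1000000)) (pr_cmul (enc_norm (bx1q1_3.enc h1.l h2)) (pr_norm (pr_subr 1112 3125 (pr_scale 5433 10000 h1)))))) (pr_case (pr_subr 4 5 h1) (pr_add (pr_addc (pr_scale 1423 100000 h1) (enc_rat _ 52353 500000)) (pr_cmul (enc_norm (bx1q1_3.enc h1.l h2)) (pr_norm (pr_csub (enc_rat _ 29173 100000)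 (pr_scale 1909 5000 h1))))) (pr_case (pr_subr 9 10 h1) (pr_add (pr_csub (enc_rat _ 100749 500000) (pr_scale 2669 25000 h1)) (pr_cmul (enc_norm (bx1q1_3.enc h1.l h2)) (pr_norm (pr_csub (enc_rat _ 86077 100000) (pr_scale 10931 10000 h1))))) (pr_add (pr_csub (enc_rat _ 176829 250000) (pr_scale 33439 50000 h1)) (pr_cmul (enc_norm (bx1q1_3.enc h1.l h2)) (pr_norm (pr_subr 1274 625 (pr_scale 10641 5000 h1)))))))))⟩
noncomputable def l1q1_s : Sl2 l1q1 := ⟨_, fun h1 h2 => (pr_norm (pr_mul (cv1m_s.snd h1) (bx1q1_s.snd h1 h2)))⟩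
noncomputable def bd1q1_s : Sl2 bd1q1 := ⟨_, fun h1 h2 => (pr_norm (pr_add (pr_csub (enc_rat _ 959257 200000) (pr_scale 2625651 500000 h1)) (pr_cmul (enc_norm (enc_subr 251 400 h2)) (pr_norm (pr_csub (enc_rat _ 15201 20000) (pr_scale 51151 25000 h1))))))⟩
noncomputable def kc1q1_s : Sl2 kc1q1 := ⟨_, fun h1 h2 => (pr_norm (pr_mul (cv1m_s.snd h1) (bd1q1_s.snd h1 h2)))⟩
noncomputable def cv1p_s : Sl1 cv1p := ⟨_, fun h1 => (pr_norm (pr_add (pr_scale 23 25 (c1g_s.snd h1)) (pr_scale 2 25 (pr_subr 1 2 (swg_s.snd h1)))))⟩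
noncomputable def kf1q2_9_s : Sl2 kf1q2_9 := ⟨_, fun h1 h2 => (pr_csub (enc_pnc _ 1) (pr_scale 4994127 2500000 (pr_subn 1 h1)))⟩
noncomputable def kf1q2_s : Sl2 kf1q2 := ⟨_, fun h1 h2 => (pr_norm (pr_mul (cv1p_s.snd h1) (pr_norm (pr_case (pr_csub (enc_pnc _ 1) (pr_scale 3 4 (pr_sq h1))) (pr_add (kf1q2_9_s.snd h1 h2) (pr_case (pr_subr 127 100 h1) (pr_casec1 (pr_subr 231 200 h1) (enc_pnc _ 0) (pr_add (pr_csub (enc_rat _ 21475839 5750000) (pr_scale 92969 28750 h1)) (pr_cmul (enc_norm (kf1q2_4.enc h1.l h2)) (pr_norm (pr_subr 14776377 1150000 (pr_scale 63967 5750 h1)))))) (pr_case (pr_subr 139 100 h1) (pr_add (pr_csub (enc_rat _ 5595209 1500000) (pr_scale 48449 15000 h1)) (pr_cmul (enc_norm (kf1q2_4.enc h1.l h2)) (pr_norm (pr_subr 968627 75000 (pr_scale 3353 300 h1))))) (pr_add (pr_csub (enc_rat _ 20466653 5500000) (pr_scale 177293 55000 h1)) (pr_cmul (enc_norm (kf1q2_4.enc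 h1.l h2)) (pr_norm (pr_subr 1756611 137500 (pr_scale 60919 5500 h1)))))))) (pr_add (kf1q2_9_s.snd h1 h2) (pr_case (pr_subr 1 4 (c1g_s.snd h1)) (pr_case (pr_subr 1 10 (c1g_s.snd h1)) (pr_case (pr_subr 1 20 (c1g_s.snd h1)) (pr_sub (pr_neg (pr_scale 3563 12500 (c1g_s.snd h1))) (pr_cmul (enc_norm (kf1q2_4.enc h1.l h2)) (pr_nd (pr_scale 47 200 (c1g_s.snd h1))))) (pr_add (pr_csub (enc_rat _ 20797 1000000) (pr_scale 35049 50000 (c1g_s.snd h1))) (pr_cmul (enc_norm (kf1q2_4.enc h1.l h2)) (pr_norm (pr_csub (enc_rat _ 5187 100000) (pr_scale 3181 2500 (c1g_s.snd h1))))))) (pr_case (pr_subr 3 20 (c1g_s.snd h1)) (pr_add (pr_csub (enc_rat _ 42549 1000000) (pr_scale 1837 2000 (c1g_s.snd h1))) (pr_cmul (enc_norm (kf1q2_4.enc h1.l h2)) (pr_norm (pr_csub (enc_rat _ 108207 100000) (pr_scale 7234 625 (c1g_s.snd h1)))))) (pr_case (pr_subr 1 5 (c1g_s.snd h1)) (pr_add (pr_subr 69747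 500000 (pr_scale 3689 12500 (c1g_s.snd h1))) (pr_cmul (enc_norm (kf1q2_4.enc h1.l h2)) (pr_norm (pr_subr 33327 20000 (pr_scale 16871 2500 (c1g_s.snd h1)))))) (pr_add (pr_subr 166831 500000 (pr_scale 31649 25000 (c1g_s.snd h1))) (pr_cmul (enc_norm (kf1q2_4.enc h1.l h2)) (pr_norm (pr_subr 73663 100000 (pr_scale 10499 5000 (c1g_s.snd h1))))))))) (pr_case (pr_subr 7 20 (c1g_s.snd h1)) (pr_case (pr_subr 3 10 (c1g_s.snd h1)) (pr_add (pr_subr 367857 1000000 (pr_scale 70137 50000 (c1g_s.snd h1))) (pr_cmul (enc_norm (kf1q2_4.enc h1.l h2)) (pr_norm (pr_subr 25643 100000 (pr_scale 179 1000 (c1g_s.snd h1)))))) (pr_add (pr_subr 201309 1000000 (pr_scale 42379 50000 (c1g_s.snd h1))) (pr_cmul (enc_norm (kf1q2_4.enc h1.l h2)) (pr_norm (pr_subr 8593 20000 (pr_scale 1891 2500 (c1g_s.snd h1))))))) (pr_case (pr_subr 2 5 (c1g_s.snd h1)) (pr_add (pr_csub (enc_rat _ 29433 200000) (pr_scale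 7403 50000 (c1g_s.snd h1))) (pr_cmul (enc_norm (kf1q2_4.enc h1.l h2)) (pr_norm (pr_subr 30159 50000 (pr_scale 6261 5000 (c1g_s.snd h1)))))) (pr_case (pr_subr 9 20 (c1g_s.snd h1)) (pr_add (pr_csub (enc_rat _ 361429 1000000) (pr_scale 17093 25000 (c1g_s.snd h1))) (pr_cmul (enc_norm (kf1q2_4.enc h1.l h2)) (pr_norm (pr_subr 33399 50000 (pr_scale 7071 5000 (c1g_s.snd h1)))))) (pr_add (pr_csub (enc_rat _ 10751 20000) (pr_scale 10751 10000 (c1g_s.snd h1))) (pr_cmul (enc_norm (kf1q2_4.enc h1.l h2)) (pr_norm (pr_subr 3159 10000 (pr_scale 3159 5000 (c1g_s.snd h1)))))))))))))))⟩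
noncomputable def l1q2_s : Sl2 l1q2 := ⟨_, fun h1 h2 => (pr_norm (pr_mul (cv1p_s.snd h1) (pr_norm (pr_case (pr_csub (enc_pnc _ 1) (pr_scale 3 4 (pr_sq h1))) (pr_cadd (l1q2_11.enc h1.l h2) (pr_case (pr_subr 127 100 h1) (pr_casec1 (pr_subr 231 200 h1) (enc_pnc _ 0) (pr_add (pr_subr 3117807 1000000 (pr_scale 13497 5000 h1)) (pr_cmul (enc_norm (l1q2_4.enc h1.l h2)) (pr_norm (pr_csub (enc_rat _ 16023777 1150000) (pr_scale 69367 5750 h1)))))) (pr_case (pr_subr 139 100 h1) (pr_add (pr_subr 6243361 2000000 (pr_scale 54049 20000 h1)) (pr_cmul (enc_norm (l1q2_4.enc h1.l h2)) (pr_norm (pr_csub (enc_rat _ 103279 7500) (pr_scale 17903 1500 h1))))) (pr_add (pr_subr 17183247 5500000 (pr_scale 297471 110000 h1)) (pr_cmul (enc_norm (l1q2_4.enc h1.l h2)) (pr_norm (pr_csub (enc_rat _ 15111493 1100000) (pr_scale 131029 11000 h1)))))))) (pr_cadd (l1q2_11.enc h1.l h2) (pr_case (pr_subr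 1 4 (c1g_s.snd h1)) (pr_case (pr_subr 1 10 (c1g_s.snd h1)) (pr_case (pr_subr 1 20 (c1g_s.snd h1)) (pr_add (pr_scale 8023 50000 (c1g_s.snd h1)) (pr_cmul (enc_norm (l1q2_4.enc h1.l h2)) (pr_nd (pr_scale 9243 2500 (c1g_s.snd h1))))) (pr_add (pr_subr 4213 200000 (pr_scale 1818 3125 (c1g_s.snd h1))) (pr_cmul (enc_norm (l1q2_4.enc h1.l h2)) (pr_norm (pr_addc (pr_scale 2877 1250 (c1g_s.snd h1)) (enc_rat _ 3489 50000)))))) (pr_case (pr_subr 3 20 (c1g_s.snd h1)) (pr_add (pr_subr 74813 1000000 (pr_scale 27981 25000 (c1g_s.snd h1))) (pr_cmul (enc_norm (l1q2_4.enc h1.l h2)) (pr_norm (pr_subr 1823 50000 (pr_scale 841 250 (c1g_s.snd h1)))))) (pr_case (pr_subr 1 5 (c1g_s.snd h1)) (pr_add (pr_subr 27283 200000 (pr_scale 4781 3125 (c1g_s.snd h1))) (pr_cmul (enc_norm (l1q2_4.enc h1.l h2)) (pr_norm (pr_subr 23017 100000 (pr_scale 23277 5000 (c1g_s.snd h1)))))) (pr_add (pr_subr 183371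 1000000 (pr_scale 17647 10000 (c1g_s.snd h1))) (pr_cmul (enc_norm (l1q2_4.enc h1.l h2)) (pr_norm (pr_subr 15969 100000 (pr_scale 4303 1000 (c1g_s.snd h1))))))))) (pr_case (pr_subr 7 20 (c1g_s.snd h1)) (pr_case (pr_subr 3 10 (c1g_s.snd h1)) (pr_add (pr_subr 117243 500000 (pr_scale 49229 25000 (c1g_s.snd h1))) (pr_cmul (enc_norm (l1q2_4.enc h1.l h2)) (pr_norm (pr_csub (enc_rat _ 146883 50000) (pr_scale 5054 625 (c1g_s.snd h1)))))) (pr_add (pr_subr 5067 50000 (pr_scale 76267 50000 (c1g_s.snd h1))) (pr_cmul (enc_norm (l1q2_4.enc h1.l h2)) (pr_norm (pr_subr 1959 10000 (pr_scale 5897 2500 (c1g_s.snd h1))))))) (pr_case (pr_subr 2 5 (c1g_s.snd h1)) (pr_add (pr_addc (pr_scale 11983 12500 (c1g_s.snd h1)) (enc_rat _ 19401 200000)) (pr_cmul (enc_norm (l1q2_4.enc h1.l h2)) (pr_norm (pr_subr 13179 20000 (pr_scale 18409 5000 (c1g_s.snd h1)))))) (pr_case (pr_subr 9 20 (c1g_s.snd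 h1)) (pr_add (pr_addc (pr_scale 14831 25000 (c1g_s.snd h1)) (enc_rat _ 48633 200000)) (pr_cmul (enc_norm (l1q2_4.enc h1.l h2)) (pr_norm (pr_subr 64087 100000 (pr_scale 18183 5000 (c1g_s.snd h1)))))) (pr_add (pr_addc (pr_scale 3722386213822567 11616026117500000 (c1g_s.snd h1)) (enc_rat _ 85010565898345947 232320522350000000)) (pr_cmul (enc_norm (l1q2_4.enc h1.l h2)) (pr_norm (pr_subr 386465606243 528481625000 (pr_scale 101402434677 26424081250 (c1g_s.snd h1)))))))))))))))⟩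
noncomputable def kc1q2_s : Sl2 kc1q2 := ⟨_, fun h1 h2 => (pr_norm (pr_mul (cv1p_s.snd h1) (pr_norm (pr_case (pr_csub (enc_pnc _ 1) (pr_scale 3 4 (pr_sq h1))) (pr_cadd (kc1q2_9.enc h1.l h2) (pr_casec1 (pr_subr 231 200 h1) (enc_pnc _ 0) (pr_add (pr_subr 147687001 11500000 (pr_scale 1918013 172500 h1)) (pr_cmul (enc_norm (kc1q2_4.enc h1.l h2)) (pr_norm (pr_csub (enc_rat _ 115481443 2300000) (pr_scale 1499759 34500 h1))))))) (pr_cadd (kc1q2_9.enc h1.l h2) (pr_case (pr_subr 1 4 (c1g_s.snd h1)) (pr_sub (pr_scale 17411 125000 (c1g_s.snd h1)) (pr_cmul (enc_norm (kc1q2_4.enc h1.l h2)) (pr_nd (pr_scale 36669 6250 (c1g_s.snd h1))))) (pr_add (pr_addc (pr_scale 17249 125000 (c1g_s.snd h1)) (enc_rat _ 81 250000)) (pr_cmul (enc_norm (kc1q2_4.enc h1.l h2)) (pr_norm (pr_csub (enc_rat _ 5939 50000) (pr_scale 79277 12500 (c1g_s.snd h1))))))))))))⟩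
noncomputable def cv1r_s : Sl1 cv1r := ⟨_, fun h1 => (pr_norm (pr_scale 2 25 (pr_subr 1 2 (swg_s.snd h1))))⟩
noncomputable def bf1q3_s : Sl2 bf1q3 := ⟨_, fun h1 h2 => (pr_norm (pr_case (pr_subr 33 20 h1) (pr_case (pr_subr 321 200 h1) (pr_add (pr_csub (enc_rat _ 416061 175000) (pr_scale 49991 35000 h1)) (pr_cmul (enc_norm (bf1q3_3.enc h1.l h2)) (pr_norm (pr_csub (enc_rat _ 45483719 700000) (pr_scale 73279 1750 h1))))) (pr_add (pr_csub (enc_rat _ 2376987 1000000) (pr_scale 357 250 h1)) (pr_cmul (enc_norm (bf1q3_3.enc h1.l h2)) (pr_norm (pr_csub (enc_rat _ 3896171 60000) (pr_scale 94159 2250 h1)))))) (pr_case (pr_subr 177 100 h1) (pr_add (pr_csub (enc_rat _ 2376217 1000000) (pr_scale 21413 15000 h1)) (pr_cmul (enc_norm (bf1q3_3.enc h1.l h2)) (pr_norm (pr_csub (enc_rat _ 324383 5000) (pr_scale 125437 3000 h1))))) (pr_case (pr_subr 47 25 h1) (pr_add (pr_csub (enc_rat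 _ 408286 171875) (pr_scale 156983 110000 h1)) (pr_cmul (enc_norm (bf1q3_3.enc h1.l h2)) (pr_norm (pr_csub (enc_rat _ 71303431 1100000) (pr_scale 57449 1375 h1))))) (pr_add (pr_csub (enc_rat _ 7124887 3000000) (pr_scale 171221 120000 h1)) (pr_cmul (enc_norm (bf1q3_3.enc h1.l h2)) (pr_norm (pr_csub (enc_rat _ 6479387 100000) (pr_scale 83533 2000 h1)))))))))⟩
noncomputable def kf1q3_s : Sl2 kf1q3 := ⟨_, fun h1 h2 => (pr_norm (pr_mulz (fun ht => cv1r_two (enc_two h1.r ht)) (cv1r_s.snd h1) (bf1q3_s.snd h1 h2)))⟩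
noncomputable def bx1q3_s : Sl2 bx1q3 := ⟨_, fun h1 h2 => (pr_norm (pr_case (pr_subr 33 20 h1) (pr_case (pr_subr 321 200 h1) (pr_add (pr_subr 5048479 7000000 (pr_scale 72017 105000 h1)) (pr_cmul (enc_norm (bx1q3_3.enc h1.l h2)) (pr_norm (pr_subr 661691 50000 (pr_scale 499 60 h1))))) (pr_add (pr_subr 432953 600000 (pr_scale 247 360 h1)) (pr_cmul (enc_norm (bx1q3_3.enc h1.l h2)) (pr_norm (pr_subr 495653 37500 (pr_scale 37379 4500 h1)))))) (pr_case (pr_subr 177 100 h1) (pr_add (pr_subr 288793 400000 (pr_scale 13727 20000 h1)) (pr_cmul (enc_norm (bx1q3_3.enc h1.l h2)) (pr_norm (pr_subr 659459 50000 (pr_scale 6217 750 h1))))) (pr_case (pr_subr 47 25 h1) (pr_add (pr_subr 7942073 11000000 (pr_scale 151 220 h1)) (pr_cmul (enc_norm (bx1q3_3.enc h1.l h2)) (pr_norm (pr_subr 7235051 550000 (pr_scale 11371 1375 h1))))) (pr_add (pr_subr 43301 60000 (pr_scale 82343 120000 h1))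 (pr_cmul (enc_norm (bx1q3_3.enc h1.l h2)) (pr_norm (pr_subr 1970051 150000 (pr_scale 3097 375 h1)))))))))⟩
noncomputable def l1q3_s : Sl2 l1q3 := ⟨_, fun h1 h2 => (pr_norm (pr_mulz (fun ht => cv1r_two (enc_two h1.r ht)) (cv1r_s.snd h1) (bx1q3_s.snd h1 h2)))⟩
noncomputable def bd1q3_s : Sl2 bd1q3 := ⟨_, fun h1 h2 => (pr_norm (pr_add (pr_addc (pr_scale 148083 250000 h1) (enc_rat _ 1394297 500000)) (pr_cmul (enc_norm (enc_subr 251 400 h2)) (pr_norm (pr_csub (enc_rat _ 2796173 100000) (pr_scale 107621 6250 h1))))))⟩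
noncomputable def kc1q3_s : Sl2 kc1q3 := ⟨_, fun h1 h2 => (pr_norm (pr_mulz (fun ht => cv1r_two (enc_two h1.r ht)) (cv1r_s.snd h1) (bd1q3_s.snd h1 h2)))⟩
noncomputable def cv2m_s : Sl1 cv2m := ⟨_, fun h1 => (pr_norm (pr_add (pr_scale 3 4 (c1g_s.snd h1)) (pr_scale 1 4 (pr_addc (swg_s.snd h1) (enc_rat _ 1 2)))))⟩
noncomputable def bf2q0_s : Sl2 bf2q0 := ⟨_, fun h1 h2 => (pr_norm (pr_case (pr_subr 23 100 h1) (pr_case (pr_subr 3 25 h1) (pr_add (pr_csub (enc_pnc _ 1) (pr_scale 28567 24000 h1)) (pr_cmul (enc_norm (bf2q0_3.enc h1.l h2)) (pr_nd (pr_scale 6649 4000 h1)))) (pr_add (pr_csub (enc_rat _ 12047239 11000000) (pr_scale 109101 55000 h1)) (pr_cmul (enc_norm (bf2q0_3.enc h1.l h2)) (pr_norm (pr_addc (pr_scale 961 1000 h1) (enc_rat _ 1683 20000)))))) (pr_case (pr_subr 7 20 h1) (pr_add (pr_csub (enc_rat _ 6759907 6000000) (pr_scale 127223 60000 h1)) (pr_cmul (enc_norm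 (bf2q0_3.enc h1.l h2)) (pr_norm (pr_csub (enc_rat _ 1078871 1200000) (pr_scale 6197 2400 h1))))) (pr_case (pr_subr 79 200 h1) (pr_add (pr_csub (enc_rat _ 9971003 9000000) (pr_scale 18601 9000 h1)) (pr_cmul (enc_norm (bf2q0_3.enc h1.l h2)) (pr_norm (pr_csub (enc_rat _ 793097 900000) (pr_scale 1139 450 h1))))) (pr_add (pr_csub (enc_rat _ 22541507 21000000) (pr_scale 41569 21000 h1)) (pr_cmul (enc_norm (bf2q0_3.enc h1.l h2)) (pr_norm (pr_csub (enc_rat _ 1354387 2100000) (pr_scale 5074 2625 h1)))))))))⟩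
noncomputable def kf2q0_s : Sl2 kf2q0 := ⟨_, fun h1 h2 => (pr_norm (pr_mul (cv2m_s.snd h1) (bf2q0_s.snd h1 h2)))⟩
noncomputable def bx2q0_s : Sl2 bx2q0 := ⟨_, fun h1 h2 => (pr_norm (pr_case (pr_subr 23 100 h1) (pr_case (pr_subr 3 25 h1) (pr_add (pr_scale 1159 8000 h1) (pr_cmul (enc_norm (bx2q0_3.enc h1.l h2)) (pr_nd (pr_scale 161 2000 h1)))) (pr_add (pr_addc (pr_scale 13537 110000 h1) (enc_rat _ 28791 11000000)) (pr_cmul (enc_norm (bx2q0_3.enc h1.l h2)) (pr_norm (pr_csub (enc_rat _ 32547 550000) (pr_scale 4539 11000 h1)))))) (pr_case (pr_subr 7 20 h1) (pr_add (pr_addc (pr_scale 2299 30000 h1) (enc_rat _ 39889 3000000)) (pr_cmul (enc_norm (bx2q0_3.enc h1.l h2)) (pr_norm (pr_subr 2969 48000 (pr_scale 1363 12000 h1))))) (pr_case (pr_subr 79 200 h1) (pr_add (pr_subr 57959 4500000 (pr_scale 3407 22500 h1)) (pr_cmul (enc_norm (bx2q0_3.enc h1.l h2)) (pr_norm (pr_csub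 (enc_rat _ 131 1500) (pr_scale 469 1500 h1))))) (pr_add (pr_subr 507607 21000000 (pr_scale 18901 105000 h1)) (pr_cmul (enc_norm (bx2q0_3.enc h1.l h2)) (pr_norm (pr_csub (enc_rat _ 294079 2100000) (pr_scale 1171 2625 h1)))))))))⟩
noncomputable def l2q0_s : Sl2 l2q0 := ⟨_, fun h1 h2 => (pr_norm (pr_mul (cv2m_s.snd h1) (bx2q0_s.snd h1 h2)))⟩
noncomputable def bd2q0_s : Sl2 bd2q0 := ⟨_, fun h1 h2 => (pr_norm (pr_sub (pr_neg (pr_scale 359929 250000 h1)) (pr_cmul (enc_norm (enc_subr 251 400 h2)) (pr_nd (pr_scale 35631 10000 h1)))))⟩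
noncomputable def kc2q0_s : Sl2 kc2q0 := ⟨_, fun h1 h2 => (pr_norm (pr_mul (cv2m_s.snd h1) (bd2q0_s.snd h1 h2)))⟩
noncomputable def bf2q1_s : Sl2 bf2q1 := ⟨_, fun h1 h2 => (pr_norm (pr_case (pr_subr 67 100 h1) (pr_add (pr_subr 3248679 4250000 (pr_scale 136909 85000 h1)) (pr_cmul (enc_norm (bf2q1_3.enc h1.l h2)) (pr_norm (pr_csub (enc_rat _ 87759 850000) (pr_scale 5787 17000 h1))))) (pr_case (pr_subr 83 100 h1) (pr_add (pr_subr 720581 1000000 (pr_scale 15453 10000 h1)) (pr_cmul (enc_norm (bf2q1_3.enc h1.l h2)) (pr_norm (pr_subr 2183 6250 (pr_scale 67 200 h1))))) (pr_add (pr_subr 1424777 1700000 (pr_scale 71693 42500 h1)) (pr_cmul (enc_norm (bf2q1_3.enc h1.l h2)) (pr_norm (pr_subr 1921693 1700000 (pr_scale 10847 8500 h1))))))))⟩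
noncomputable def kf2q1_s : Sl2 kf2q1 := ⟨_, fun h1 h2 => (pr_norm (pr_mul (cv2m_s.snd h1) (bf2q1_s.snd h1 h2)))⟩
noncomputable def bx2q1_s : Sl2 bx2q1 := ⟨_, fun h1 h2 => (pr_norm (pr_case (pr_subr 67 100 h1) (pr_add (pr_addc (pr_scale 7627 170000 h1) (enc_rat _ 22741 680000)) (pr_cmul (enc_norm (bx2q1_3.enc h1.l h2)) (pr_norm (pr_subr 28353 1700000 (pr_neg (pr_scale 159 2125 h1)))))) (pr_case (pr_subr 83 100 h1) (pr_add (pr_csub (enc_rat _ 549087 8000000) (pr_scale 613 80000 h1)) (pr_cmul (enc_norm (bx2q1_3.enc h1.l h2)) (pr_norm (pr_subr 10031 100000 (pr_scale 1 20 h1))))) (pr_add (pr_subr 1998779 17000000 (pr_scale 36837 170000 h1)) (pr_cmul (enc_norm (bx2q1_3.enc h1.l h2)) (pr_norm (pr_csub (enc_rat _ 743533 850000) (pr_scale 19121 17000 h1))))))))⟩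
noncomputable def l2q1_s : Sl2 l2q1 := ⟨_, fun h1 h2 => (pr_norm (pr_mul (cv2m_s.snd h1) (bx2q1_s.snd h1 h2)))⟩
noncomputable def bd2q1_s : Sl2 bd2q1 := ⟨_, fun h1 h2 => (pr_norm (pr_add (pr_csub (enc_rat _ 920449 250000) (pr_scale 1008073 250000 h1)) (pr_cmul (enc_norm (enc_subr 251 400 h2)) (pr_norm (pr_subr 163613 100000 (pr_scale 9129 12500 h1))))))⟩
noncomputable def kc2q1_s : Sl2 kc2q1 := ⟨_, fun h1 h2 => (pr_norm (pr_mul (cv2m_s.snd h1) (bd2q1_s.snd h1 h2)))⟩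
noncomputable def cv2p_s : Sl1 cv2p := ⟨_, fun h1 => (pr_norm (pr_add (pr_scale 3 4 (c1g_s.snd h1)) (pr_scale 1 4 (pr_subr 1 2 (swg_s.snd h1)))))⟩
noncomputable def kf2q2_s : Sl2 kf2q2 := ⟨_, fun h1 h2 => (pr_norm (pr_mul (cv2p_s.snd h1) (pr_norm (pr_case (pr_csub (enc_pnc _ 1) (pr_scale 3 4 (pr_sq h1))) (pr_case (pr_subr 127 100 h1) (pr_add (pr_csub (enc_rat _ 403757369 58000000) (pr_scale 634521 116000 h1)) (pr_cmul (enc_norm (kf2q2_4.enc h1.l h2)) (pr_norm (pr_subr 18197483 725000 (pr_scale 61269 2900 h1))))) (pr_case (pr_subr 69 50 h1) (pr_add (pr_csub (enc_rat _ 32738837 5500000) (pr_scale 514323 110000 h1)) (pr_cmul (enc_norm (kf2q2_4.enc h1.l h2)) (pr_norm (pr_subr 311703 22000 (pr_scale 34429 2750 h1))))) (pr_add (pr_csub (enc_rat _ 11788591 2000000) (pr_scale 185339 40000 h1)) (pr_cmul (enc_norm (kf2q2_4.enc h1.l h2)) (pr_norm (pr_subr 545049 50000 (pr_scale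 1269 125 h1))))))) (pr_case (pr_subr 1 4 (c1g_s.snd h1)) (pr_case (pr_subr 1 10 (c1g_s.snd h1)) (pr_case (pr_subr 1 20 (c1g_s.snd h1)) (pr_add (pr_csub (enc_rat _ 644267 1000000) (pr_scale 3021 25000 (c1g_s.snd h1))) (pr_cmul (enc_norm (kf2q2_4.enc h1.l h2)) (pr_norm (pr_subr 35099 50000 (pr_scale 9213 1250 (c1g_s.snd h1)))))) (pr_add (pr_csub (enc_rat _ 20083 31250) (pr_scale 4431 50000 (c1g_s.snd h1))) (pr_cmul (enc_norm (kf2q2_4.enc h1.l h2)) (pr_norm (pr_subr 33631 50000 (pr_scale 8479 1250 (c1g_s.snd h1))))))) (pr_case (pr_subr 3 20 (c1g_s.snd h1)) (pr_add (pr_addc (pr_scale 3963 50000 (c1g_s.snd h1)) (enc_rat _ 156467 250000)) (pr_cmul (enc_norm (kf2q2_4.enc h1.l h2)) (pr_norm (pr_subr 6017 12500 (pr_scale 24353 5000 (c1g_s.snd h1)))))) (pr_case (pr_subr 1 5 (c1g_s.snd h1)) (pr_add (pr_addc (pr_scale 55053 50000 (c1g_s.snd h1)) (enc_rat _ 236299 500000))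 (pr_cmul (enc_norm (kf2q2_4.enc h1.l h2)) (pr_norm (pr_addc (pr_scale 1653 5000 (c1g_s.snd h1)) (enc_rat _ 4991 25000))))) (pr_add (pr_addc (pr_scale 65341 50000 (c1g_s.snd h1)) (enc_rat _ 215723 500000)) (pr_cmul (enc_norm (kf2q2_4.enc h1.l h2)) (pr_norm (pr_csub (enc_rat _ 15611 25000) (pr_scale 8967 5000 (c1g_s.snd h1))))))))) (pr_case (pr_subr 7 20 (c1g_s.snd h1)) (pr_case (pr_subr 3 10 (c1g_s.snd h1)) (pr_add (pr_addc (pr_scale 33827 25000 (c1g_s.snd h1)) (enc_rat _ 419881 1000000)) (pr_cmul (enc_norm (kf2q2_4.enc h1.l h2)) (pr_norm (pr_csub (enc_rat _ 40207 50000) (pr_scale 12561 5000 (c1g_s.snd h1)))))) (pr_add (pr_addc (pr_scale 67339 50000 (c1g_s.snd h1)) (enc_rat _ 421771 1000000)) (pr_cmul (enc_norm (kf2q2_4.enc h1.l h2)) (pr_norm (pr_csub (enc_rat _ 17417 25000) (pr_scale 1077 500 (c1g_s.snd h1))))))) (pr_case (pr_subr 2 5 (c1g_s.snd h1)) (pr_add (pr_addc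 (pr_scale 29999 25000 (c1g_s.snd h1)) (enc_rat _ 236579 500000)) (pr_cmul (enc_norm (kf2q2_4.enc h1.l h2)) (pr_norm (pr_csub (enc_rat _ 7233 50000) (pr_scale 721 1250 (c1g_s.snd h1)))))) (pr_case (pr_subr 9 20 (c1g_s.snd h1)) (pr_add (pr_addc (pr_scale 13347 25000 (c1g_s.snd h1)) (enc_rat _ 73959 100000)) (pr_cmul (enc_norm (kf2q2_4.enc h1.l h2)) (pr_norm (pr_subr 17271 50000 (pr_scale 1621 2500 (c1g_s.snd h1)))))) (pr_add (pr_addc (pr_scale 5041 12500 (c1g_s.snd h1)) (enc_rat _ 19959 25000)) (pr_cmul (enc_norm (kf2q2_4.enc h1.l h2)) (pr_norm (pr_subr 1341 2500 (pr_scale 1341 1250 (c1g_s.snd h1))))))))))))))⟩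
noncomputable def l2q2_s : Sl2 l2q2 := ⟨_, fun h1 h2 => (pr_norm (pr_mul (cv2p_s.snd h1) (pr_norm (pr_case (pr_csub (enc_pnc _ 1) (pr_scale 3 4 (pr_sq h1))) (pr_case (pr_subr 127 100 h1) (pr_add (pr_subr 793863 232000 (pr_scale 146979 58000 h1)) (pr_cmul (enc_norm (l2q2_4.enc h1.l h2)) (pr_norm (pr_csub (enc_rat _ 1006033 200000) (pr_scale 2073 400 h1))))) (pr_case (pr_subr 69 50 h1) (pr_add (pr_subr 37439361 11000000 (pr_scale 277173 110000 h1)) (pr_cmul (enc_norm (l2q2_4.enc h1.l h2)) (pr_norm (pr_csub (enc_rat _ 6808579 1100000) (pr_scale 1341 220 h1))))) (pr_add (pr_subr 1699417 500000 (pr_scale 150979 60000 h1)) (pr_cmul (enc_norm (l2q2_4.enc h1.l h2)) (pr_norm (pr_csub (enc_rat _ 274373 40000) (pr_scale 26323 4000 h1))))))) (pr_case (pr_subr 1 4 (c1g_s.snd h1)) (pr_case (pr_subr 1 10 (c1g_s.snd h1)) (pr_case (pr_subr 1 20 (c1g_s.snd h1)) (pr_add (pr_subr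 495693 1000000 (pr_scale 9717 10000 (c1g_s.snd h1))) (pr_cmul (enc_norm (l2q2_4.enc h1.l h2)) (pr_norm (pr_subr 95383 100000 (pr_scale 4729 1250 (c1g_s.snd h1)))))) (pr_add (pr_subr 102169 200000 (pr_scale 63737 50000 (c1g_s.snd h1))) (pr_cmul (enc_norm (l2q2_4.enc h1.l h2)) (pr_norm (pr_subr 2447 2500 (pr_scale 21413 5000 (c1g_s.snd h1))))))) (pr_case (pr_subr 3 20 (c1g_s.snd h1)) (pr_add (pr_subr 509647 1000000 (pr_scale 31569 25000 (c1g_s.snd h1))) (pr_cmul (enc_norm (l2q2_4.enc h1.l h2)) (pr_norm (pr_subr 6309 6250 (pr_scale 4589 1000 (c1g_s.snd h1)))))) (pr_case (pr_subr 1 5 (c1g_s.snd h1)) (pr_add (pr_subr 514579 1000000 (pr_scale 32391 25000 (c1g_s.snd h1))) (pr_cmul (enc_norm (l2q2_4.enc h1.l h2)) (pr_norm (pr_subr 411 800 (pr_scale 3211 2500 (c1g_s.snd h1)))))) (pr_add (pr_subr 550263 1000000 (pr_scale 73703 50000 (c1g_s.snd h1))) (pr_cmul (enc_norm (l2q2_4.enc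 h1.l h2)) (pr_norm (pr_csub (enc_rat _ 35917 100000) (pr_scale 15401 5000 (c1g_s.snd h1))))))))) (pr_case (pr_subr 7 20 (c1g_s.snd h1)) (pr_case (pr_subr 3 10 (c1g_s.snd h1)) (pr_add (pr_subr 274729 500000 (pr_scale 36771 25000 (c1g_s.snd h1))) (pr_cmul (enc_norm (l2q2_4.enc h1.l h2)) (pr_norm (pr_csub (enc_rat _ 4873 25000) (pr_scale 3029 1250 (c1g_s.snd h1)))))) (pr_add (pr_subr 48427 125000 (pr_scale 9307 10000 (c1g_s.snd h1))) (pr_cmul (enc_norm (l2q2_4.enc h1.l h2)) (pr_norm (pr_subr 26327 25000 (pr_scale 2171 1250 (c1g_s.snd h1))))))) (pr_case (pr_subr 2 5 (c1g_s.snd h1)) (pr_add (pr_subr 261381 1000000 (pr_scale 2853 5000 (c1g_s.snd h1))) (pr_cmul (enc_norm (l2q2_4.enc h1.l h2)) (pr_norm (pr_subr 29617 20000 (pr_scale 2959 1000 (c1g_s.snd h1)))))) (pr_case (pr_subr 9 20 (c1g_s.snd h1)) (pr_add (pr_subr 190197 1000000 (pr_scale 1227 3125 (c1g_s.snd h1)))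 (pr_cmul (enc_norm (l2q2_4.enc h1.l h2)) (pr_norm (pr_subr 148629 100000 (pr_scale 14863 5000 (c1g_s.snd h1)))))) (pr_add (pr_subr 13509 100000 (pr_scale 13509 50000 (c1g_s.snd h1))) (pr_cmul (enc_norm (l2q2_4.enc h1.l h2)) (pr_norm (pr_subr 7431 5000 (pr_scale 7431 2500 (c1g_s.snd h1))))))))))))))⟩
noncomputable def kc2q2_s : Sl2 kc2q2 := ⟨_, fun h1 h2 => (pr_norm (pr_mul (cv2p_s.snd h1) (pr_norm (pr_case (pr_csub (enc_pnc _ 1) (pr_scale 3 4 (pr_sq h1))) (pr_add (pr_subr 641426857 43250000 (pr_scale 4330419 346000 h1)) (pr_cmul (enc_norm (kc2q2_4.enc h1.l h2)) (pr_norm (pr_csub (enc_rat _ 330402101 4325000) (pr_scale 2092229 34600 h1))))) (pr_case (pr_subr 1 4 (c1g_s.snd h1)) (pr_add (pr_subr 378827 1000000 (pr_scale 42927 31250 (c1g_s.snd h1))) (pr_cmul (enc_norm (kc2q2_4.enc h1.l h2)) (pr_norm (pr_csub (enc_rat _ 656927 100000) (pr_scale 480741 25000 (c1g_s.snd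 h1)))))) (pr_add (pr_subr 35411 500000 (pr_scale 35411 250000 (c1g_s.snd h1))) (pr_cmul (enc_norm (kc2q2_4.enc h1.l h2)) (pr_norm (pr_csub (enc_rat _ 88093 25000) (pr_scale 88093 12500 (c1g_s.snd h1)))))))))))⟩
noncomputable def cv2r_s : Sl1 cv2r := ⟨_, fun h1 => (pr_norm (pr_scale 1 4 (pr_subr 1 2 (swg_s.snd h1))))⟩
noncomputable def bf2q3_s : Sl2 bf2q3 := ⟨_, fun h1 h2 => (pr_norm (pr_case (pr_subr 33 20 h1) (pr_case (pr_subr 321 200 h1) (pr_add (pr_csub (enc_rat _ 8304749 3500000) (pr_scale 37453 26250 h1)) (pr_cmul (enc_norm (bf2q3_3.enc h1.l h2)) (pr_norm (pr_csub (enc_rat _ 11639767 175000) (pr_scale 37416 875 h1))))) (pr_add (pr_csub (enc_rat _ 110771 46875) (pr_scale 31967 22500 h1)) (pr_cmul (enc_norm (bf2q3_3.enc h1.l h2)) (pr_norm (pr_csub (enc_rat _ 49603 750) (pr_scale 47843 1125 h1)))))) (pr_case (pr_subr 177 100 h1) (pr_add (pr_csub (enc_rat _ 4696951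 2000000) (pr_scale 84713 60000 h1)) (pr_cmul (enc_norm (bf2q3_3.enc h1.l h2)) (pr_norm (pr_csub (enc_rat _ 1312733 20000) (pr_scale 126671 3000 h1))))) (pr_case (pr_subr 47 25 h1) (pr_add (pr_csub (enc_rat _ 25791429 11000000) (pr_scale 155071 110000 h1)) (pr_cmul (enc_norm (bf2q3_3.enc h1.l h2)) (pr_norm (pr_csub (enc_rat _ 72089631 1100000) (pr_scale 92767 2200 h1))))) (pr_add (pr_csub (enc_rat _ 2339437 1000000) (pr_scale 28139 20000 h1)) (pr_cmul (enc_norm (bf2q3_3.enc h1.l h2)) (pr_norm (pr_csub (enc_rat _ 4901539 75000) (pr_scale 504839 12000 h1)))))))))⟩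
noncomputable def kf2q3_s : Sl2 kf2q3 := ⟨_, fun h1 h2 => (pr_norm (pr_mulz (fun ht => cv2r_two (enc_two h1.r ht)) (cv2r_s.snd h1) (bf2q3_s.snd h1 h2)))⟩
noncomputable def bx2q3_s : Sl2 bx2q3 := ⟨_, fun h1 h2 => (pr_norm (pr_case (pr_subr 33 20 h1) (pr_case (pr_subr 321 200 h1) (pr_add (pr_subr 1270921 1750000 (pr_scale 2867 4200 h1)) (pr_cmul (enc_norm (bx2q3_3.enc h1.l h2)) (pr_norm (pr_subr 1765033 140000 (pr_scale 13843 1750 h1))))) (pr_add (pr_subr 547493 750000 (pr_scale 30823 45000 h1)) (pr_cmul (enc_norm (bx2q3_3.enc h1.l h2)) (pr_norm (pr_subr 941453 75000 (pr_scale 35443 4500 h1)))))) (pr_case (pr_subr 177 100 h1) (pr_add (pr_subr 368057 500000 (pr_scale 1033 1500 h1)) (pr_cmul (enc_norm (bx2q3_3.enc h1.l h2)) (pr_norm (pr_subr 2498423 200000 (pr_scale 15679 2000 h1))))) (pr_case (pr_subr 47 25 h1) (pr_add (pr_subr 74343 100000 (pr_scale 433 625 h1))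 (pr_cmul (enc_norm (bx2q3_3.enc h1.l h2)) (pr_norm (pr_subr 3452213 275000 (pr_scale 10827 1375 h1))))) (pr_add (pr_subr 2235883 3000000 (pr_scale 16651 24000 h1)) (pr_cmul (enc_norm (bx2q3_3.enc h1.l h2)) (pr_norm (pr_subr 118244 9375 (pr_scale 23717 3000 h1)))))))))⟩
noncomputable def l2q3_s : Sl2 l2q3 := ⟨_, fun h1 h2 => (pr_norm (pr_mulz (fun ht => cv2r_two (enc_two h1.r ht)) (cv2r_s.snd h1) (bx2q3_s.snd h1 h2)))⟩
noncomputable def bd2q3_s : Sl2 bd2q3 := ⟨_, fun h1 h2 => (pr_norm (pr_add (pr_addc (pr_scale 165153 250000 h1) (enc_rat _ 1334511 500000)) (pr_cmul (enc_norm (enc_subr 251 400 h2)) (pr_norm (pr_csub (enc_rat _ 2593637 100000) (pr_scale 796583 50000 h1))))))⟩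
noncomputable def kc2q3_s : Sl2 kc2q3 := ⟨_, fun h1 h2 => (pr_norm (pr_mulz (fun ht => cv2r_two (enc_two h1.r ht)) (cv2r_s.snd h1) (bd2q3_s.snd h1 h2)))⟩
noncomputable def cv3m_s : Sl1 cv3m := ⟨_, fun h1 => (pr_norm (pr_add (pr_half (c1g_s.snd h1)) (pr_half (pr_addc (swg_s.snd h1) (enc_rat _ 1 2)))))⟩
noncomputable def bf3q0_s : Sl2 bf3q0 := ⟨_, fun h1 h2 => (pr_norm (pr_case (pr_subr 23 100 h1) (pr_case (pr_subr 3 25 h1) (pr_add (pr_csub (enc_pnc _ 1) (pr_scale 12623 8000 h1)) (pr_cmul (enc_norm (bf3q0_3.enc h1.l h2)) (pr_nd (pr_scale 2287 600 h1)))) (pr_add (pr_csub (enc_rat _ 11630033 11000000) (pr_scale 226069 110000 h1)) (pr_cmul (enc_norm (bf3q0_3.enc h1.l h2)) (pr_norm (pr_addc (pr_scale 25987 11000 h1) (enc_rat _ 5978 34375)))))) (pr_case (pr_subr 7 20 h1) (pr_add (pr_csub (enc_rat _ 6509269 6000000) (pr_scale 130511 60000 h1)) (pr_cmul (enc_norm (bf3q0_3.enc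 h1.l h2)) (pr_norm (pr_csub (enc_rat _ 816253 400000) (pr_scale 4603 800 h1))))) (pr_case (pr_subr 79 200 h1) (pr_add (pr_csub (enc_rat _ 2443369 2250000) (pr_scale 4901 2250 h1)) (pr_cmul (enc_norm (bf3q0_3.enc h1.l h2)) (pr_norm (pr_csub (enc_rat _ 34234 28125) (pr_scale 3061 900 h1))))) (pr_add (pr_csub (enc_rat _ 4566733 4200000) (pr_scale 229079 105000 h1)) (pr_cmul (enc_norm (bf3q0_3.enc h1.l h2)) (pr_norm (pr_csub (enc_rat _ 384513 350000) (pr_scale 10853 3500 h1)))))))))⟩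
noncomputable def kf3q0_s : Sl2 kf3q0 := ⟨_, fun h1 h2 => (pr_norm (pr_mul (cv3m_s.snd h1) (bf3q0_s.snd h1 h2)))⟩
noncomputable def bx3q0_s : Sl2 bx3q0 := ⟨_, fun h1 h2 => (pr_norm (pr_case (pr_subr 23 100 h1) (pr_case (pr_subr 3 25 h1) (pr_add (pr_scale 14407 60000 h1) (pr_cmul (enc_norm (bx3q0_3.enc h1.l h2)) (pr_nd (pr_scale 2747 6000 h1)))) (pr_add (pr_addc (pr_scale 12773 55000 h1) (enc_rat _ 5201 5500000)) (pr_cmul (enc_norm (bx3q0_3.enc h1.l h2)) (pr_norm (pr_addc (pr_scale 421 2750 h1) (enc_rat _ 20113 550000)))))) (pr_case (pr_subr 7 20 h1) (pr_add (pr_addc (pr_scale 4259 60000 h1) (enc_rat _ 228203 6000000)) (pr_cmul (enc_norm (bx3q0_3.enc h1.l h2)) (pr_norm (pr_csub (enc_rat _ 85177 400000) (pr_scale 491 800 h1))))) (pr_case (pr_subr 79 200 h1) (pr_add (pr_csub (enc_rat _ 294221 4500000) (pr_scale 161 22500 h1)) (pr_cmul (enc_norm (bx3q0_3.enc h1.l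 h2)) (pr_norm (pr_csub (enc_rat _ 241217 900000) (pr_scale 347 450 h1))))) (pr_add (pr_csub (enc_rat _ 370289 5250000) (pr_scale 53 2625 h1)) (pr_cmul (enc_norm (bx3q0_3.enc h1.l h2)) (pr_norm (pr_csub (enc_rat _ 16711 75000) (pr_scale 197 300 h1)))))))))⟩
noncomputable def l3q0_s : Sl2 l3q0 := ⟨_, fun h1 h2 => (pr_norm (pr_mul (cv3m_s.snd h1) (bx3q0_s.snd h1 h2)))⟩
noncomputable def bd3q0_s : Sl2 bd3q0 := ⟨_, fun h1 h2 => (pr_norm (pr_sub (pr_neg (pr_scale 1731261 500000 h1)) (pr_cmul (enc_norm (enc_subr 251 400 h2)) (pr_nd (pr_scale 121829 50000 h1)))))⟩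
noncomputable def kc3q0_s : Sl2 kc3q0 := ⟨_, fun h1 h2 => (pr_norm (pr_mul (cv3m_s.snd h1) (bd3q0_s.snd h1 h2)))⟩
noncomputable def bf3q1_s : Sl2 bf3q1 := ⟨_, fun h1 h2 => (pr_norm (pr_case (pr_subr 67 100 h1) (pr_add (pr_subr 535167 1000000 (pr_scale 2899 2000 h1)) (pr_cmul (enc_norm (bf3q1_3.enc h1.l h2)) (pr_norm (pr_csub (enc_rat _ 20839 1700000) (pr_scale 2509 8500 h1))))) (pr_case (pr_subr 83 100 h1) (pr_add (pr_subr 1407889 4000000 (pr_scale 47043 40000 h1)) (pr_cmul (enc_norm (bf3q1_3.enc h1.l h2)) (pr_norm (pr_subr 284753 800000 (pr_scale 407 1600 h1))))) (pr_add (pr_subr 1019653 8500000 (pr_scale 38103 42500 h1)) (pr_cmul (enc_norm (bf3q1_3.enc h1.l h2)) (pr_norm (pr_subr 745373 340000 (pr_scale 5242 2125 h1))))))))⟩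
noncomputable def kf3q1_s : Sl2 kf3q1 := ⟨_, fun h1 h2 => (pr_norm (pr_mul (cv3m_s.snd h1) (bf3q1_s.snd h1 h2)))⟩
noncomputable def bx3q1_s : Sl2 bx3q1 := ⟨_, fun h1 h2 => (pr_norm (pr_case (pr_subr 67 100 h1) (pr_add (pr_csub (enc_rat _ 35969 212500) (pr_scale 1933 8500 h1)) (pr_cmul (enc_norm (bx3q1_3.enc h1.l h2)) (pr_norm (pr_subr 462567 1700000 (pr_scale 2781 8500 h1))))) (pr_case (pr_subr 83 100 h1) (pr_add (pr_csub (enc_rat _ 2636907 16000000) (pr_scale 35321 160000 h1)) (pr_cmul (enc_norm (bx3q1_3.enc h1.l h2)) (pr_norm (pr_csub (enc_rat _ 17473 320000) (pr_scale 2567 16000 h1))))) (pr_add (pr_subr 873367 4250000 (pr_scale 38317 170000 h1)) (pr_cmul (enc_norm (bx3q1_3.enc h1.l h2)) (pr_norm (pr_csub (enc_rat _ 289997 1700000) (pr_scale 5103 17000 h1))))))))⟩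
noncomputable def l3q1_s : Sl2 l3q1 := ⟨_, fun h1 h2 => (pr_norm (pr_mul (cv3m_s.snd h1) (bx3q1_s.snd h1 h2)))⟩
noncomputable def bd3q1_s : Sl2 bd3q1 := ⟨_, fun h1 h2 => (pr_norm (pr_add (pr_csub (enc_rat _ 590397 250000) (pr_scale 161081 62500 h1)) (pr_cmul (enc_norm (enc_subr 251 400 h2)) (pr_norm (pr_subr 415097 100000 (pr_scale 18219 5000 h1))))))⟩
noncomputable def kc3q1_s : Sl2 kc3q1 := ⟨_, fun h1 h2 => (pr_norm (pr_mul (cv3m_s.snd h1) (bd3q1_s.snd h1 h2)))⟩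
noncomputable def cv3p_s : Sl1 cv3p := ⟨_, fun h1 => (pr_norm (pr_add (pr_half (c1g_s.snd h1)) (pr_half (pr_subr 1 2 (swg_s.snd h1)))))⟩
noncomputable def kf3q2_s : Sl2 kf3q2 := ⟨_, fun h1 h2 => (pr_norm (pr_mul (cv3p_s.snd h1) (pr_norm (pr_case (pr_csub (enc_pnc _ 1) (pr_scale 3 4 (pr_sq h1))) (pr_case (pr_subr 127 100 h1) (pr_add (pr_csub (enc_rat _ 45916327 5800000) (pr_scale 375201 58000 h1)) (pr_cmul (enc_norm (kf3q2_4.enc h1.l h2)) (pr_norm (pr_subr 243530161 5800000 (pr_scale 83737 2320 h1))))) (pr_case (pr_subr 69 50 h1) (pr_add (pr_csub (enc_rat _ 67567 110000) (pr_scale 791 1100 h1)) (pr_cmul (enc_norm (kf3q2_4.enc h1.l h2)) (pr_norm (pr_csub (enc_rat _ 1031767 100000) (pr_scale 1273 250 h1))))) (pr_add (pr_csub (enc_rat _ 901341 2000000) (pr_scale 72067 120000 h1)) (pr_cmul (enc_norm (kf3q2_4.enc h1.l h2)) (pr_norm (pr_csub (enc_rat _ 1447147 100000)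 (pr_scale 4051 500 h1))))))) (pr_case (pr_subr 1 4 (c1g_s.snd h1)) (pr_case (pr_subr 1 10 (c1g_s.snd h1)) (pr_case (pr_subr 1 20 (c1g_s.snd h1)) (pr_add (pr_addc (pr_scale 52483 50000 (c1g_s.snd h1)) (enc_rat _ 17907 40000)) (pr_cmul (enc_norm (kf3q2_4.enc h1.l h2)) (pr_norm (pr_subr 26319 100000 (pr_scale 28773 2500 (c1g_s.snd h1)))))) (pr_add (pr_addc (pr_scale 53229 50000 (c1g_s.snd h1)) (enc_rat _ 446929 1000000)) (pr_cmul (enc_norm (kf3q2_4.enc h1.l h2)) (pr_norm (pr_subr 11041 50000 (pr_scale 53309 5000 (c1g_s.snd h1))))))) (pr_case (pr_subr 3 20 (c1g_s.snd h1)) (pr_add (pr_addc (pr_scale 3521 3125 (c1g_s.snd h1)) (enc_rat _ 88143 200000)) (pr_cmul (enc_norm (kf3q2_4.enc h1.l h2)) (pr_norm (pr_addc (pr_scale 37677 5000 (c1g_s.snd h1)) (enc_rat _ 4591 50000))))) (pr_case (pr_subr 1 5 (c1g_s.snd h1)) (pr_add (pr_addc (pr_scale 68287 50000 (c1g_s.snd h1)) (enc_rat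 _ 202431 500000)) (pr_cmul (enc_norm (kf3q2_4.enc h1.l h2)) (pr_norm (pr_csub (enc_rat _ 48701 25000) (pr_scale 24197 5000 (c1g_s.snd h1)))))) (pr_add (pr_addc (pr_scale 877 625 (c1g_s.snd h1)) (enc_rat _ 39737 100000)) (pr_cmul (enc_norm (kf3q2_4.enc h1.l h2)) (pr_norm (pr_csub (enc_rat _ 5929 2500) (pr_scale 17393 2500 (c1g_s.snd h1))))))))) (pr_case (pr_subr 7 20 (c1g_s.snd h1)) (pr_case (pr_subr 3 10 (c1g_s.snd h1)) (pr_add (pr_addc (pr_scale 69687 50000 (c1g_s.snd h1)) (enc_rat _ 79947 200000)) (pr_cmul (enc_norm (kf3q2_4.enc h1.l h2)) (pr_norm (pr_csub (enc_rat _ 23367 10000) (pr_scale 4261 625 (c1g_s.snd h1)))))) (pr_add (pr_addc (pr_scale 65827 50000 (c1g_s.snd h1)) (enc_rat _ 84579 200000)) (pr_cmul (enc_norm (kf3q2_4.enc h1.l h2)) (pr_norm (pr_csub (enc_rat _ 90849 50000) (pr_scale 12713 2500 (c1g_s.snd h1))))))) (pr_case (pr_subr 2 5 (c1g_s.snd h1))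 (pr_add (pr_addc (pr_scale 55869 50000 (c1g_s.snd h1)) (enc_rat _ 492601 1000000)) (pr_cmul (enc_norm (kf3q2_4.enc h1.l h2)) (pr_norm (pr_csub (enc_rat _ 47337 50000) (pr_scale 6497 2500 (c1g_s.snd h1)))))) (pr_case (pr_subr 9 20 (c1g_s.snd h1)) (pr_add (pr_addc (pr_scale 33937 50000 (c1g_s.snd h1)) (enc_rat _ 668057 1000000)) (pr_cmul (enc_norm (kf3q2_4.enc h1.l h2)) (pr_norm (pr_subr 2139 10000 (pr_scale 757 2500 (c1g_s.snd h1)))))) (pr_add (pr_addc (pr_scale 2651 5000 (c1g_s.snd h1)) (enc_rat _ 7349 10000)) (pr_cmul (enc_norm (kf3q2_4.enc h1.l h2)) (pr_norm (pr_subr 1941 2500 (pr_scale 1941 1250 (c1g_s.snd h1))))))))))))))⟩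
noncomputable def l3q2_s : Sl2 l3q2 := ⟨_, fun h1 h2 => (pr_norm (pr_mul (cv3p_s.snd h1) (pr_norm (pr_case (pr_csub (enc_pnc _ 1) (pr_scale 3 4 (pr_sq h1))) (pr_case (pr_subr 127 100 h1) (pr_add (pr_subr 53497811 29000000 (pr_scale 4852 3625 h1)) (pr_cmul (enc_norm (l3q2_4.enc h1.l h2)) (pr_norm (pr_csub (enc_rat _ 12942847 2900000) (pr_scale 24427 5800 h1))))) (pr_case (pr_subr 69 50 h1) (pr_add (pr_subr 27299739 11000000 (pr_scale 20241 11000 h1)) (pr_cmul (enc_norm (l3q2_4.enc h1.l h2)) (pr_norm (pr_csub (enc_rat _ 1132847 220000) (pr_scale 52271 11000 h1))))) (pr_add (pr_subr 364963 125000 (pr_scale 25889 12000 h1)) (pr_cmul (enc_norm (l3q2_4.enc h1.l h2)) (pr_norm (pr_csub (enc_rat _ 1342483 100000) (pr_scale 16123 1500 h1))))))) (pr_case (pr_subr 1 4 (c1g_s.snd h1)) (pr_case (pr_subr 1 10 (c1g_s.snd h1)) (pr_case (pr_subr 1 20 (c1g_s.snd h1)) (pr_add (pr_subr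 5983 20000 (pr_scale 2683 3125 (c1g_s.snd h1))) (pr_cmul (enc_norm (l3q2_4.enc h1.l h2)) (pr_norm (pr_subr 39841 100000 (pr_neg (pr_scale 1131 2500 (c1g_s.snd h1))))))) (pr_add (pr_subr 299179 1000000 (pr_scale 42957 50000 (c1g_s.snd h1))) (pr_cmul (enc_norm (l3q2_4.enc h1.l h2)) (pr_norm (pr_subr 4969 12500 (pr_neg (pr_scale 2351 5000 (c1g_s.snd h1)))))))) (pr_case (pr_subr 3 20 (c1g_s.snd h1)) (pr_add (pr_subr 299303 1000000 (pr_scale 43019 50000 (c1g_s.snd h1))) (pr_cmul (enc_norm (l3q2_4.enc h1.l h2)) (pr_norm (pr_subr 8857 25000 (pr_neg (pr_scale 4513 5000 (c1g_s.snd h1))))))) (pr_case (pr_subr 1 5 (c1g_s.snd h1)) (pr_add (pr_subr 299453 1000000 (pr_scale 43069 50000 (c1g_s.snd h1))) (pr_cmul (enc_norm (l3q2_4.enc h1.l h2)) (pr_norm (pr_subr 25021 100000 (pr_neg (pr_scale 3991 2500 (c1g_s.snd h1))))))) (pr_add (pr_subr 290373 1000000 (pr_scale 40799 50000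 (c1g_s.snd h1))) (pr_cmul (enc_norm (l3q2_4.enc h1.l h2)) (pr_norm (pr_subr 41477 100000 (pr_neg (pr_scale 967 1250 (c1g_s.snd h1)))))))))) (pr_case (pr_subr 7 20 (c1g_s.snd h1)) (pr_case (pr_subr 3 10 (c1g_s.snd h1)) (pr_add (pr_subr 60717 250000 (pr_scale 15649 25000 (c1g_s.snd h1))) (pr_cmul (enc_norm (l3q2_4.enc h1.l h2)) (pr_norm (pr_subr 47501 50000 (pr_scale 6837 5000 (c1g_s.snd h1)))))) (pr_add (pr_subr 3591 20000 (pr_scale 4149 10000 (c1g_s.snd h1))) (pr_cmul (enc_norm (l3q2_4.enc h1.l h2)) (pr_norm (pr_subr 68357 50000 (pr_scale 13789 5000 (c1g_s.snd h1))))))) (pr_case (pr_subr 2 5 (c1g_s.snd h1)) (pr_add (pr_subr 33691 250000 (pr_scale 14347 50000 (c1g_s.snd h1))) (pr_cmul (enc_norm (l3q2_4.enc h1.l h2)) (pr_norm (pr_subr 148103 100000 (pr_scale 1927 625 (c1g_s.snd h1)))))) (pr_case (pr_subr 9 20 (c1g_s.snd h1)) (pr_add (pr_subr 26279 250000 (pr_scale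 10641 50000 (c1g_s.snd h1))) (pr_cmul (enc_norm (l3q2_4.enc h1.l h2)) (pr_norm (pr_subr 137487 100000 (pr_scale 14089 5000 (c1g_s.snd h1)))))) (pr_add (pr_subr 9347 100000 (pr_scale 9347 50000 (c1g_s.snd h1))) (pr_cmul (enc_norm (l3q2_4.enc h1.l h2)) (pr_norm (pr_subr 5343 5000 (pr_scale 5343 2500 (c1g_s.snd h1))))))))))))))⟩
noncomputable def kc3q2_s : Sl2 kc3q2 := ⟨_, fun h1 h2 => (pr_norm (pr_mul (cv3p_s.snd h1) (pr_norm (pr_case (pr_csub (enc_pnc _ 1) (pr_scale 3 4 (pr_sq h1))) (pr_add (pr_subr 2726857173 173000000 (pr_scale 1139619 86500 h1)) (pr_cmul (enc_norm (kc3q2_4.enc h1.l h2)) (pr_norm (pr_csub (enc_rat _ 786788221 8650000) (pr_scale 2444101 34600 h1))))) (pr_case (pr_subr 1 4 (c1g_s.snd h1)) (pr_add (pr_subr 34319 62500 (pr_scale 268109 125000 (c1g_s.snd h1))) (pr_cmul (enc_norm (kc3q2_4.enc h1.l h2)) (pr_norm (pr_csub (enc_rat _ 187741 20000) (pr_scale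 100969 3125 (c1g_s.snd h1)))))) (pr_add (pr_subr 6443 250000 (pr_scale 6443 125000 (c1g_s.snd h1))) (pr_cmul (enc_norm (kc3q2_4.enc h1.l h2)) (pr_norm (pr_csub (enc_rat _ 130953 50000) (pr_scale 130953 25000 (c1g_s.snd h1)))))))))))⟩
noncomputable def cv3r_s : Sl1 cv3r := ⟨_, fun h1 => (pr_norm (pr_half (pr_subr 1 2 (swg_s.snd h1))))⟩
noncomputable def bf3q3_s : Sl2 bf3q3 := ⟨_, fun h1 h2 => (pr_norm (pr_case (pr_subr 33 20 h1) (pr_case (pr_subr 321 200 h1) (pr_add (pr_csub (enc_rat _ 15691873 7000000) (pr_scale 11779 8750 h1)) (pr_cmul (enc_norm (bf3q3_3.enc h1.l h2)) (pr_norm (pr_csub (enc_rat _ 1333806 21875) (pr_scale 410917 10500 h1))))) (pr_add (pr_csub (enc_rat _ 573543 250000) (pr_scale 20683 15000 h1)) (pr_cmul (enc_norm (bf3q3_3.enc h1.l h2)) (pr_norm (pr_csub (enc_rat _ 19499447 300000) (pr_scale 18739 450 h1)))))) (pr_case (pr_subr 177 100 h1) (pr_add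 (pr_csub (enc_rat _ 9430183 4000000) (pr_scale 56691 40000 h1)) (pr_cmul (enc_norm (bf3q3_3.enc h1.l h2)) (pr_norm (pr_csub (enc_rat _ 13892703 200000) (pr_scale 88697 2000 h1))))) (pr_case (pr_subr 47 25 h1) (pr_add (pr_csub (enc_rat _ 12550441 5500000) (pr_scale 151199 110000 h1)) (pr_cmul (enc_norm (bf3q3_3.enc h1.l h2)) (pr_norm (pr_csub (enc_rat _ 37057929 550000) (pr_scale 474873 11000 h1))))) (pr_add (pr_csub (enc_rat _ 3356099 1500000) (pr_scale 20263 15000 h1)) (pr_cmul (enc_norm (bf3q3_3.enc h1.l h2)) (pr_norm (pr_csub (enc_rat _ 4908109 75000) (pr_scale 252841 6000 h1)))))))))⟩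
noncomputable def kf3q3_s : Sl2 kf3q3 := ⟨_, fun h1 h2 => (pr_norm (pr_mulz (fun ht => cv3r_two (enc_two h1.r ht)) (cv3r_s.snd h1) (bf3q3_s.snd h1 h2)))⟩
noncomputable def bx3q3_s : Sl2 bx3q3 := ⟨_, fun h1 h2 => (pr_norm (pr_case (pr_subr 33 20 h1) (pr_case (pr_subr 321 200 h1) (pr_add (pr_subr 5454739 7000000 (pr_scale 37141 52500 h1)) (pr_cmul (enc_norm (bx3q3_3.enc h1.l h2)) (pr_norm (pr_subr 605497 70000 (pr_scale 14194 2625 h1))))) (pr_add (pr_subr 2271283 3000000 (pr_scale 15607 22500 h1)) (pr_cmul (enc_norm (bx3q3_3.enc h1.l h2)) (pr_norm (pr_subr 3006983 300000 (pr_scale 28183 4500 h1)))))) (pr_case (pr_subr 177 100 h1) (pr_add (pr_subr 716761 1000000 (pr_scale 1673 2500 h1)) (pr_cmul (enc_norm (bx3q3_3.enc h1.l h2)) (pr_norm (pr_subr 2375667 200000 (pr_scale 44323 6000 h1))))) (pr_case (pr_subr 47 25 h1) (pr_add (pr_subr 1471099 2200000 (pr_scale 4414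 6875 h1)) (pr_cmul (enc_norm (bx3q3_3.enc h1.l h2)) (pr_norm (pr_subr 13712779 1100000 (pr_scale 10614 1375 h1))))) (pr_add (pr_subr 1989389 3000000 (pr_scale 7669 12000 h1)) (pr_cmul (enc_norm (bx3q3_3.enc h1.l h2)) (pr_norm (pr_subr 3795907 300000 (pr_scale 2932 375 h1)))))))))⟩
noncomputable def l3q3_s : Sl2 l3q3 := ⟨_, fun h1 h2 => (pr_norm (pr_mulz (fun ht => cv3r_two (enc_two h1.r ht)) (cv3r_s.snd h1) (bx3q3_s.snd h1 h2)))⟩
noncomputable def bd3q3_s : Sl2 bd3q3 := ⟨_, fun h1 h2 => (pr_norm (pr_add (pr_addc (pr_scale 365571 500000 h1) (enc_rat _ 1268789 500000)) (pr_cmul (enc_norm (enc_subr 251 400 h2)) (pr_norm (pr_csub (enc_rat _ 2203971 100000) (pr_scale 674223 50000 h1))))))⟩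
noncomputable def kc3q3_s : Sl2 kc3q3 := ⟨_, fun h1 h2 => (pr_norm (pr_mulz (fun ht => cv3r_two (enc_two h1.r ht)) (cv3r_s.snd h1) (bd3q3_s.snd h1 h2)))⟩
noncomputable def cv4m_s : Sl1 cv4m := ⟨_, fun h1 => (pr_norm (pr_add (pr_scale 3 20 (c1g_s.snd h1)) (pr_scale 17 20 (pr_addc (swg_s.snd h1) (enc_rat _ 1 2)))))⟩
noncomputable def bf4q0_s : Sl2 bf4q0 := ⟨_, fun h1 h2 => (pr_norm (pr_case (pr_subr 23 100 h1) (pr_case (pr_subr 3 25 h1) (pr_add (pr_csub (enc_pnc _ 1) (pr_scale 128081 60000 h1)) (pr_cmul (enc_norm (bf4q0_3.enc h1.l h2)) (pr_nd (pr_scale 24931 4000 h1)))) (pr_add (pr_csub (enc_rat _ 5449197 5500000) (pr_scale 56587 27500 h1)) (pr_cmul (enc_norm (bf4q0_3.enc h1.l h2)) (pr_norm (pr_addc (pr_scale 11991 2750 h1) (enc_rat _ 49431 220000)))))) (pr_case (pr_subr 7 20 h1) (pr_add (pr_csub (enc_rat _ 2607509 2400000) (pr_scale 59371 24000 h1)) (pr_cmul (enc_norm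 (bf4q0_3.enc h1.l h2)) (pr_norm (pr_csub (enc_rat _ 2404249 600000) (pr_scale 72509 6000 h1))))) (pr_case (pr_subr 79 200 h1) (pr_add (pr_csub (enc_rat _ 1630207 1800000) (pr_scale 22019 11250 h1)) (pr_cmul (enc_norm (bf4q0_3.enc h1.l h2)) (pr_norm (pr_subr 2173019 900000 (pr_scale 28181 4500 h1))))) (pr_add (pr_csub (enc_rat _ 3505417 3500000) (pr_scale 76999 35000 h1)) (pr_cmul (enc_norm (bf4q0_3.enc h1.l h2)) (pr_norm (pr_csub (enc_rat _ 2279611 1050000) (pr_scale 28069 5250 h1)))))))))⟩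
noncomputable def kf4q0_s : Sl2 kf4q0 := ⟨_, fun h1 h2 => (pr_norm (pr_mul (cv4m_s.snd h1) (bf4q0_s.snd h1 h2)))⟩
noncomputable def bx4q0_s : Sl2 bx4q0 := ⟨_, fun h1 h2 => (pr_norm (pr_case (pr_subr 23 100 h1) (pr_case (pr_subr 3 25 h1) (pr_add (pr_scale 46187 120000 h1) (pr_cmul (enc_norm (bx4q0_3.enc h1.l h2)) (pr_nd (pr_scale 14513 12000 h1)))) (pr_add (pr_addc (pr_scale 2186 6875 h1) (enc_rat _ 17669 2200000)) (pr_cmul (enc_norm (bx4q0_3.enc h1.l h2)) (pr_norm (pr_addc (pr_scale 422 1375 h1) (enc_rat _ 119131 1100000)))))) (pr_case (pr_subr 7 20 h1) (pr_add (pr_addc (pr_scale 4273 120000 h1) (enc_rat _ 875677 12000000)) (pr_cmul (enc_norm (bx4q0_3.enc h1.l h2)) (pr_norm (pr_csub (enc_rat _ 50871 100000) (pr_scale 717 500 h1))))) (pr_case (pr_subr 79 200 h1) (pr_add (pr_csub (enc_rat _ 181813 1125000) (pr_scale 4897 22500 h1)) (pr_cmul (enc_norm (bx4q0_3.enc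 h1.l h2)) (pr_norm (pr_csub (enc_rat _ 278569 900000) (pr_scale 973 1125 h1))))) (pr_add (pr_csub (enc_rat _ 771541 5250000) (pr_scale 9479 52500 h1)) (pr_cmul (enc_norm (bx4q0_3.enc h1.l h2)) (pr_norm (pr_csub (enc_rat _ 7087 42000) (pr_scale 5339 10500 h1)))))))))⟩
noncomputable def l4q0_s : Sl2 l4q0 := ⟨_, fun h1 h2 => (pr_norm (pr_mul (cv4m_s.snd h1) (bx4q0_s.snd h1 h2)))⟩
noncomputable def bd4q0_s : Sl2 bd4q0 := ⟨_, fun h1 h2 => (pr_norm (pr_sub (pr_neg (pr_scale 2854123 500000 h1)) (pr_cmul (enc_norm (enc_subr 251 400 h2)) (pr_nd (pr_scale 20777 25000 h1)))))⟩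
noncomputable def kc4q0_s : Sl2 kc4q0 := ⟨_, fun h1 h2 => (pr_norm (pr_mul (cv4m_s.snd h1) (bd4q0_s.snd h1 h2)))⟩
noncomputable def bf4q1_s : Sl2 bf4q1 := ⟨_, fun h1 h2 => (pr_norm (pr_case (pr_subr 67 100 h1) (pr_add (pr_subr 6217993 17000000 (pr_scale 59571 42500 h1)) (pr_cmul (enc_norm (bf4q1_3.enc h1.l h2)) (pr_norm (pr_subr 222159 1700000 (pr_neg (pr_scale 2111 17000 h1)))))) (pr_case (pr_subr 83 100 h1) (pr_add (pr_subr 5428367 16000000 (pr_scale 217941 160000 h1)) (pr_cmul (enc_norm (bf4q1_3.enc h1.l h2)) (pr_norm (pr_subr 234539 1600000 (pr_neg (pr_scale 1607 16000 h1)))))) (pr_add (pr_addc (pr_scale 4107 5000 h1) (enc_rat _ 54767 500000)) (pr_cmul (enc_norm (bf4q1_3.enc h1.l h2)) (pr_norm (pr_subr 1984813 850000 (pr_scale 43117 17000 h1))))))))⟩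
noncomputable def kf4q1_s : Sl2 kf4q1 := ⟨_, fun h1 h2 => (pr_norm (pr_mul (cv4m_s.snd h1) (bf4q1_s.snd h1 h2)))⟩
noncomputable def bx4q1_s : Sl2 bx4q1 := ⟨_, fun h1 h2 => (pr_norm (pr_case (pr_subr 67 100 h1) (pr_add (pr_csub (enc_rat _ 1594733 8500000) (pr_scale 22919 85000 h1)) (pr_cmul (enc_norm (bx4q1_3.enc h1.l h2)) (pr_norm (pr_subr 1348313 1700000 (pr_scale 21751 17000 h1))))) (pr_case (pr_subr 83 100 h1) (pr_add (pr_csub (enc_rat _ 881321 8000000) (pr_scale 12323 80000 h1)) (pr_cmul (enc_norm (bx4q1_3.enc h1.l h2)) (pr_norm (pr_csub (enc_rat _ 331423 800000) (pr_scale 4181 8000 h1))))) (pr_add (pr_subr 170103 17000000 (pr_neg (pr_scale 1573 170000 h1))) (pr_cmul (enc_norm (bx4q1_3.enc h1.l h2)) (pr_norm (pr_csub (enc_rat _ 346301 850000) (pr_scale 1093 2125 h1))))))))⟩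
noncomputable def l4q1_s : Sl2 l4q1 := ⟨_, fun h1 h2 => (pr_norm (pr_mul (cv4m_s.snd h1) (bx4q1_s.snd h1 h2)))⟩
noncomputable def bd4q1_s : Sl2 bd4q1 := ⟨_, fun h1 h2 => (pr_norm (pr_add (pr_csub (enc_rat _ 985861 1000000) (pr_scale 13219 12500 h1)) (pr_cmul (enc_norm (enc_subr 251 400 h2)) (pr_norm (pr_subr 40577 6250 (pr_scale 12691 2000 h1))))))⟩
noncomputable def kc4q1_s : Sl2 kc4q1 := ⟨_, fun h1 h2 => (pr_norm (pr_mul (cv4m_s.snd h1) (bd4q1_s.snd h1 h2)))⟩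
noncomputable def cv4p_s : Sl1 cv4p := ⟨_, fun h1 => (pr_norm (pr_add (pr_scale 3 20 (c1g_s.snd h1)) (pr_scale 17 20 (pr_subr 1 2 (swg_s.snd h1)))))⟩
noncomputable def kf4q2_s : Sl2 kf4q2 := ⟨_, fun h1 h2 => (pr_norm (pr_mul (cv4p_s.snd h1) (pr_norm (pr_case (pr_csub (enc_pnc _ 1) (pr_scale 3 4 (pr_sq h1))) (pr_case (pr_subr 127 100 h1) (pr_add (pr_csub (enc_rat _ 24600689 5800000) (pr_scale 11348 3625 h1)) (pr_cmul (enc_norm (kf4q2_4.enc h1.l h2)) (pr_norm (pr_csub (enc_rat _ 7705873 2900000) (pr_scale 8161 5800 h1))))) (pr_case (pr_subr 69 50 h1) (pr_add (pr_csub (enc_rat _ 47641351 11000000) (pr_scale 88027 27500 h1)) (pr_cmul (enc_norm (kf4q2_4.enc h1.l h2)) (pr_norm (pr_subr 12870137 1100000 (pr_scale 108877 11000 h1))))) (pr_add (pr_csub (enc_rat _ 3352081 2000000) (pr_scale 51083 40000 h1)) (pr_cmul (enc_norm (kf4q2_4.enc h1.l h2)) (pr_norm (pr_subr 229233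 100000 (pr_scale 4621 1500 h1))))))) (pr_case (pr_subr 1 4 (c1g_s.snd h1)) (pr_case (pr_subr 1 10 (c1g_s.snd h1)) (pr_case (pr_subr 1 20 (c1g_s.snd h1)) (pr_add (pr_addc (pr_scale 43723 50000 (c1g_s.snd h1)) (enc_rat _ 19623 31250)) (pr_cmul (enc_norm (kf4q2_4.enc h1.l h2)) (pr_norm (pr_csub (enc_rat _ 95281 100000) (pr_scale 27411 5000 (c1g_s.snd h1)))))) (pr_add (pr_addc (pr_scale 21709 25000 (c1g_s.snd h1)) (enc_rat _ 628241 1000000)) (pr_cmul (enc_norm (kf4q2_4.enc h1.l h2)) (pr_norm (pr_csub (enc_rat _ 23069 25000) (pr_scale 12203 2500 (c1g_s.snd h1))))))) (pr_case (pr_subr 3 20 (c1g_s.snd h1)) (pr_add (pr_addc (pr_scale 21371 25000 (c1g_s.snd h1)) (enc_rat _ 629593 1000000)) (pr_cmul (enc_norm (kf4q2_4.enc h1.l h2)) (pr_norm (pr_csub (enc_rat _ 42677 50000) (pr_scale 4189 1000 (c1g_s.snd h1)))))) (pr_case (pr_subr 1 5 (c1g_s.snd h1)) (pr_add (pr_addc (pr_scale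 1659 2000 (c1g_s.snd h1)) (enc_rat _ 316697 500000)) (pr_cmul (enc_norm (kf4q2_4.enc h1.l h2)) (pr_norm (pr_csub (enc_rat _ 1457 2000) (pr_scale 16777 5000 (c1g_s.snd h1)))))) (pr_add (pr_addc (pr_scale 39731 50000 (c1g_s.snd h1)) (enc_rat _ 64037 100000)) (pr_cmul (enc_norm (kf4q2_4.enc h1.l h2)) (pr_norm (pr_csub (enc_rat _ 1161 2000) (pr_scale 13077 5000 (c1g_s.snd h1))))))))) (pr_case (pr_subr 7 20 (c1g_s.snd h1)) (pr_case (pr_subr 3 10 (c1g_s.snd h1)) (pr_add (pr_addc (pr_scale 2322 3125 (c1g_s.snd h1)) (enc_rat _ 130653 200000)) (pr_cmul (enc_norm (kf4q2_4.enc h1.l h2)) (pr_norm (pr_csub (enc_rat _ 7917 20000) (pr_scale 1173 625 (c1g_s.snd h1)))))) (pr_add (pr_addc (pr_scale 34167 50000 (c1g_s.snd h1)) (enc_rat _ 26847 40000)) (pr_cmul (enc_norm (kf4q2_4.enc h1.l h2)) (pr_norm (pr_csub (enc_rat _ 14631 100000) (pr_scale 209 200 (c1g_s.snd h1))))))) (pr_case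 (pr_subr 2 5 (c1g_s.snd h1)) (pr_add (pr_addc (pr_scale 6351 10000 (c1g_s.snd h1)) (enc_rat _ 688059 1000000)) (pr_cmul (enc_norm (kf4q2_4.enc h1.l h2)) (pr_norm (pr_subr 4757 20000 (pr_scale 263 5000 (c1g_s.snd h1)))))) (pr_case (pr_subr 9 20 (c1g_s.snd h1)) (pr_add (pr_addc (pr_scale 14893 25000 (c1g_s.snd h1)) (enc_rat _ 703811 1000000)) (pr_cmul (enc_norm (kf4q2_4.enc h1.l h2)) (pr_norm (pr_subr 78737 100000 (pr_scale 1783 1250 (c1g_s.snd h1)))))) (pr_add (pr_addc (pr_scale 5623 10000 (c1g_s.snd h1)) (enc_rat _ 14377 20000)) (pr_cmul (enc_norm (kf4q2_4.enc h1.l h2)) (pr_norm (pr_subr 14549 10000 (pr_scale 14549 5000 (c1g_s.snd h1))))))))))))))⟩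
noncomputable def l4q2_s : Sl2 l4q2 := ⟨_, fun h1 h2 => (pr_norm (pr_mul (cv4p_s.snd h1) (pr_norm (pr_case (pr_csub (enc_pnc _ 1) (pr_scale 3 4 (pr_sq h1))) (pr_case (pr_subr 127 100 h1) (pr_add (pr_subr 2408057 11600000 (pr_scale 2973 23200 h1)) (pr_cmul (enc_norm (l4q2_4.enc h1.l h2)) (pr_norm (pr_subr 2800261 1160000 (pr_scale 18873 11600 h1))))) (pr_case (pr_subr 69 50 h1) (pr_add (pr_subr 11944631 11000000 (pr_scale 11271 13750 h1)) (pr_cmul (enc_norm (l4q2_4.enc h1.l h2)) (pr_norm (pr_subr 539497 1100000 (pr_scale 309 2750 h1))))) (pr_add (pr_subr 1657597 1000000 (pr_scale 617 500 h1)) (pr_cmul (enc_norm (l4q2_4.enc h1.l h2)) (pr_norm (pr_subr 587 800 (pr_scale 433 1500 h1))))))) (pr_case (pr_subr 1 4 (c1g_s.snd h1)) (pr_case (pr_subr 1 10 (c1g_s.snd h1)) (pr_case (pr_subr 1 20 (c1g_s.snd h1)) (pr_add (pr_subr 29643 500000 (pr_scale 15877 50000 (c1g_s.snd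 h1))) (pr_cmul (enc_norm (l4q2_4.enc h1.l h2)) (pr_norm (pr_subr 53779 100000 (pr_neg (pr_scale 3007 1250 (c1g_s.snd h1))))))) (pr_add (pr_subr 2363 40000 (pr_scale 7833 25000 (c1g_s.snd h1))) (pr_cmul (enc_norm (l4q2_4.enc h1.l h2)) (pr_norm (pr_subr 54171 100000 (pr_neg (pr_scale 2909 1250 (c1g_s.snd h1)))))))) (pr_case (pr_subr 3 20 (c1g_s.snd h1)) (pr_add (pr_subr 54509 1000000 (pr_scale 13383 50000 (c1g_s.snd h1))) (pr_cmul (enc_norm (l4q2_4.enc h1.l h2)) (pr_norm (pr_subr 13041 20000 (pr_neg (pr_scale 6119 5000 (c1g_s.snd h1))))))) (pr_case (pr_subr 1 5 (c1g_s.snd h1)) (pr_add (pr_subr 16609 500000 (pr_scale 3143 25000 (c1g_s.snd h1))) (pr_cmul (enc_norm (l4q2_4.enc h1.l h2)) (pr_norm (pr_subr 104499 100000 (pr_scale 6979 5000 (c1g_s.snd h1)))))) (pr_add (pr_subr 1633 100000 (pr_scale 129 3125 (c1g_s.snd h1))) (pr_cmul (enc_norm (l4q2_4.enc h1.l h2)) (pr_norm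 (pr_subr 138847 100000 (pr_scale 7783 2500 (c1g_s.snd h1))))))))) (pr_case (pr_subr 7 20 (c1g_s.snd h1)) (pr_case (pr_subr 3 10 (c1g_s.snd h1)) (pr_add (pr_subr 1001 100000 (pr_scale 2 125 (c1g_s.snd h1))) (pr_cmul (enc_norm (l4q2_4.enc h1.l h2)) (pr_norm (pr_subr 37193 25000 (pr_scale 17551 5000 (c1g_s.snd h1)))))) (pr_add (pr_subr 128 15625 (pr_scale 497 50000 (c1g_s.snd h1))) (pr_cmul (enc_norm (l4q2_4.enc h1.l h2)) (pr_norm (pr_subr 72763 50000 (pr_scale 1701 500 (c1g_s.snd h1))))))) (pr_case (pr_subr 2 5 (c1g_s.snd h1)) (pr_add (pr_subr 1073 125000 (pr_scale 553 50000 (c1g_s.snd h1))) (pr_cmul (enc_norm (l4q2_4.enc h1.l h2)) (pr_norm (pr_subr 67807 50000 (pr_scale 7797 2500 (c1g_s.snd h1)))))) (pr_case (pr_subr 9 20 (c1g_s.snd h1)) (pr_add (pr_subr 1607 125000 (pr_scale 1087 50000 (c1g_s.snd h1))) (pr_cmul (enc_norm (l4q2_4.enc h1.l h2)) (pr_norm (pr_subr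 54759 50000 (pr_scale 3083 1250 (c1g_s.snd h1)))))) (pr_add (pr_subr 3073 100000 (pr_scale 3073 50000 (c1g_s.snd h1))) (pr_cmul (enc_norm (l4q2_4.enc h1.l h2)) (pr_norm (pr_csub (enc_rat _ 147 1000) (pr_scale 147 500 (c1g_s.snd h1))))))))))))))⟩
noncomputable def kc4q2_s : Sl2 kc4q2 := ⟨_, fun h1 h2 => (pr_norm (pr_mul (cv4p_s.snd h1) (pr_norm (pr_case (pr_csub (enc_pnc _ 1) (pr_scale 3 4 (pr_sq h1))) (pr_add (pr_subr 13776879 1730000 (pr_scale 1109243 173000 h1)) (pr_cmul (enc_norm (kc4q2_4.enc h1.l h2)) (pr_norm (pr_csub (enc_rat _ 379270919 8650000) (pr_scale 201431 6920 h1))))) (pr_case (pr_subr 1 4 (c1g_s.snd h1)) (pr_add (pr_subr 27981 50000 (pr_scale 287409 125000 (c1g_s.snd h1))) (pr_cmul (enc_norm (kc4q2_4.enc h1.l h2)) (pr_norm (pr_csub (enc_rat _ 511341 50000) (pr_scale 959653 25000 (c1g_s.snd h1)))))) (pr_add (pr_csub (enc_rat _ 7599 250000) (pr_scale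 7599 125000 (c1g_s.snd h1))) (pr_cmul (enc_norm (kc4q2_4.enc h1.l h2)) (pr_norm (pr_csub (enc_rat _ 63029 50000) (pr_scale 63029 25000 (c1g_s.snd h1)))))))))))⟩
noncomputable def cv4r_s : Sl1 cv4r := ⟨_, fun h1 => (pr_norm (pr_scale 17 20 (pr_subr 1 2 (swg_s.snd h1))))⟩
noncomputable def bf4q3_s : Sl2 bf4q3 := ⟨_, fun h1 h2 => (pr_norm (pr_case (pr_subr 33 20 h1) (pr_case (pr_subr 321 200 h1) (pr_add (pr_subr 5529417 7000000 (pr_scale 57301 105000 h1)) (pr_cmul (enc_norm (bf4q3_3.enc h1.l h2)) (pr_norm (pr_subr 8261623 350000 (pr_scale 31343 2100 h1))))) (pr_add (pr_subr 1277881 1500000 (pr_scale 3287 5625 h1)) (pr_cmul (enc_norm (bf4q3_3.enc h1.l h2)) (pr_norm (pr_subr 2384233 100000 (pr_scale 2261 150 h1)))))) (pr_case (pr_subr 177 100 h1) (pr_add (pr_csub (enc_rat _ 9209387 2000000) (pr_scale 163361 60000 h1)) (pr_cmul (enc_norm (bf4q3_3.enc h1.l h2)) (pr_norm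 (pr_csub (enc_rat _ 32355929 200000) (pr_scale 584549 6000 h1))))) (pr_case (pr_subr 47 25 h1) (pr_add (pr_csub (enc_rat _ 1244143 2750000) (pr_scale 10361 27500 h1)) (pr_cmul (enc_norm (bf4q3_3.enc h1.l h2)) (pr_norm (pr_csub (enc_rat _ 1844407 68750) (pr_scale 232989 11000 h1))))) (pr_add (pr_csub (enc_rat _ 1288409 3000000) (pr_scale 43747 120000 h1)) (pr_cmul (enc_norm (bf4q3_3.enc h1.l h2)) (pr_norm (pr_csub (enc_rat _ 7823623 300000) (pr_scale 249389 12000 h1)))))))))⟩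
noncomputable def kf4q3_s : Sl2 kf4q3 := ⟨_, fun h1 h2 => (pr_norm (pr_mulz (fun ht => cv4r_two (enc_two h1.r ht)) (cv4r_s.snd h1) (bf4q3_s.snd h1 h2)))⟩
noncomputable def bx4q3_s : Sl2 bx4q3 := ⟨_, fun h1 h2 => (pr_norm (pr_case (pr_subr 33 20 h1) (pr_case (pr_subr 321 200 h1) (pr_add (pr_subr 12083207 7000000 (pr_scale 135077 105000 h1)) (pr_cmul (enc_norm (bx4q3_3.enc h1.l h2)) (pr_norm (pr_csub (enc_rat _ 808279 140000) (pr_scale 19567 5250 h1))))) (pr_add (pr_subr 869561 1000000 (pr_scale 11291 15000 h1)) (pr_cmul (enc_norm (bx4q3_3.enc h1.l h2)) (pr_norm (pr_subr 836371 300000 (pr_scale 1808 1125 h1)))))) (pr_case (pr_subr 177 100 h1) (pr_add (pr_subr 843161 1000000 (pr_scale 11051 15000 h1)) (pr_cmul (enc_norm (bx4q3_3.enc h1.l h2)) (pr_norm (pr_subr 6887723 400000 (pr_scale 124241 12000 h1))))) (pr_case (pr_subr 47 25 h1) (pr_add (pr_csub (enc_rat _ 525489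 687500) (pr_scale 18861 110000 h1)) (pr_cmul (enc_norm (bx4q3_3.enc h1.l h2)) (pr_norm (pr_subr 998989 100000 (pr_scale 6269 1000 h1))))) (pr_add (pr_csub (enc_rat _ 115123 150000) (pr_scale 2597 15000 h1)) (pr_cmul (enc_norm (bx4q3_3.enc h1.l h2)) (pr_norm (pr_subr 747491 75000 (pr_scale 75079 12000 h1)))))))))⟩
noncomputable def l4q3_s : Sl2 l4q3 := ⟨_, fun h1 h2 => (pr_norm (pr_mulz (fun ht => cv4r_two (enc_two h1.r ht)) (cv4r_s.snd h1) (bx4q3_s.snd h1 h2)))⟩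
noncomputable def bd4q3_s : Sl2 bd4q3 := ⟨_, fun h1 h2 => (pr_norm (pr_add (pr_addc (pr_scale 105057 125000 h1) (enc_rat _ 579771 250000)) (pr_cmul (enc_norm (enc_subr 251 400 h2)) (pr_norm (pr_csub (enc_rat _ 1693037 100000) (pr_scale 514181 50000 h1))))))⟩
noncomputable def kc4q3_s : Sl2 kc4q3 := ⟨_, fun h1 h2 => (pr_norm (pr_mulz (fun ht => cv4r_two (enc_two h1.r ht)) (cv4r_s.snd h1) (bd4q3_s.snd h1 h2)))⟩
noncomputable def c3g_s : Sl1 c3g := ⟨_, fun h1 => (pr_sqrtg (pr_csub (enc_pnc _ 3) (pr_scale 3 4 (pr_sq h1))))⟩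
noncomputable def cv5m_s : Sl1 cv5m := ⟨_, fun h1 => (pr_norm (pr_add (pr_scale 3 4 (pr_addc (swg_s.snd h1) (enc_rat _ 1 2))) (pr_scale 1 4 (c3g_s.snd h1))))⟩
noncomputable def esg_s : Sl1 esg := ⟨_, fun h1 => (pr_norm (pr_subn 1 (pr_add (pr_half h1) (gsg_s.snd h1))))⟩
noncomputable def kf5q0_41_s : Sl2 kf5q0_41 := ⟨_, fun h1 h2 => (pr_csub (enc_pnc _ 1) h1)⟩
noncomputable def kf5q0_42_s : Sl2 kf5q0_42 := ⟨_, fun h1 h2 => (gsg_s.snd (pr_norm (kf5q0_41_s.snd h1 h2)))⟩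
noncomputable def kf5q0_45_s : Sl2 kf5q0_45 := ⟨_, fun h1 h2 => (pr_sub (pr_scale 3 4 (kf5q0_41_s.snd h1 h2)) (pr_half (kf5q0_42_s.snd h1 h2)))⟩
noncomputable def kf5q0_63_s : Sl2 kf5q0_63 := ⟨_, fun h1 h2 => (pr_mul (cv4m_s.snd h1) (bf4q0_s.snd h1 h2))⟩
noncomputable def kf5q0_s : Sl2 kf5q0 := ⟨_, fun h1 h2 => (pr_norm (pr_case (pr_subr 33 100 h1) (pr_mul (cv5m_s.snd h1) (pr_norm (pr_case (pr_subr 4 25 h1) (pr_add (pr_csub (enc_rat _ 744621 1000000) (pr_scale 142741 80000 h1)) (pr_cmul (enc_norm (kf5q0_4.enc h1.l h2)) (pr_norm (pr_addc (pr_scale 102867 16000 h1) (enc_rat _ 55527 100000))))) (pr_add (pr_csub (enc_rat _ 1686132441 2125000000) (pr_scale 355231033 170000000 h1)) (pr_cmul (enc_norm (kf5q0_4.enc h1.l h2)) (pr_norm (pr_csub (enc_rat _ 3307118369 1062500000) (pr_scale 1624182119 170000000 h1)))))))) (pr_case (pr_subr 83 200 h1) (pr_add (kf5q0_63_s.snd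 h1 h2) (pr_mul (pr_norm (pr_mul (pr_norm (pr_sub (pr_mul h1 (pr_norm (pr_sub (pr_mul (pr_norm (pr_sub (kf5q0_45_s.snd h1 h2) (pr_csub (enc_rat _ 1 4) (pr_scale 3 8 (pr_mul (pr_norm (kf5q0_41_s.snd h1 h2)) (pr_nd (pr_inv (kf5q0_42_s.snd h1 h2)))))))) (pr_nd (pr_inv (esg_s.snd (pr_norm (kf5q0_41_s.snd h1 h2)))))) (kcg_s.snd (pr_norm (kf5q0_45_s.snd h1 h2)) h2)))) (kf5q0_63_s.snd h1 h2))) (pr_norm (pr_sub (cv5m_s.snd h1) (cv4m_s.snd h1))))) (pr_nd (pr_inv (pr_sub (pr_addc (swg_s.snd h1) (enc_rat _ 1 2)) (cv4m_s.snd h1)))))) (pr_mul (cv5m_s.snd h1) (pr_norm (pr_add (pr_csub (enc_rat _ 612781623 425000000) (pr_scale 769627873 212500000 h1)) (pr_cmul (enc_norm (kf5q0_4.enc h1.l h2)) (pr_norm (pr_csub (enc_rat _ 173127293 170000000) (pr_scale 197257093 85000000 h1))))))))))⟩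
noncomputable def qsg_s : Sl1 qsg := ⟨_, fun h1 => (pr_norm (pr_mul (pr_norm (pr_csub (enc_pnc _ 1) (gsg_s.snd h1))) (pr_norm (pr_subn 1 (pr_nat 2 (gsg_s.snd h1))))))⟩
noncomputable def l5q0_48_s : Sl2 l5q0_48 := ⟨_, fun h1 h2 => (pr_csub (enc_pnc _ 1) h1)⟩
noncomputable def l5q0_63_s : Sl2 l5q0_63 := ⟨_, fun h1 h2 => (pr_mul (cv4m_s.snd h1) (bx4q0_s.snd h1 h2))⟩
noncomputable def l5q0_s : Sl2 l5q0 := ⟨_, fun h1 h2 => (pr_norm (pr_case (pr_subr 33 100 h1) (pr_mul (cv5m_s.snd h1) (pr_norm (pr_case (pr_subr 4 25 h1) (pr_add (pr_addc (pr_scale 45417 160000 h1) (enc_rat _ 61829 1000000)) (pr_cmul (enc_norm (l5q0_4.enc h1.l h2)) (pr_norm (pr_csub (enc_rat _ 9151 20000) (pr_scale 3713 16000 h1))))) (pr_add (pr_add (pr_csub (enc_rat _ 654732501 5312500000) (pr_scale 42494063 425000000 h1)) (pr_cmul (enc_norm (l5q0_4.enc h1.l h2)) (pr_norm (pr_csub (enc_rat _ 803564569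 1062500000) (pr_scale 356868319 170000000 h1))))) (pr_cmul (enc_sq (enc_norm (l5q0_4.enc h1.l h2))) (pr_norm (pr_subr 8011 1062500 (pr_scale 8011 170000 h1)))))))) (pr_case (pr_subr 83 200 h1) (pr_add (l5q0_63_s.snd h1 h2) (pr_mul (pr_norm (pr_mul (pr_norm (pr_sub (pr_sub (qsg_s.snd (pr_norm (l5q0_48_s.snd h1 h2))) (pr_mul (pr_norm (pr_nat 2 (pr_subc (l5q0_48_s.snd h1 h2) h2))) (pr_norm (pr_mul (esg_s.snd (pr_norm (l5q0_48_s.snd h1 h2))) (kcg_s.snd (pr_norm (pr_sub (pr_scale 3 4 (l5q0_48_s.snd h1 h2)) (pr_half (gsg_s.snd (pr_norm (l5q0_48_s.snd h1 h2)))))) h2))))) (l5q0_63_s.snd h1 h2))) (pr_norm (pr_sub (cv5m_s.snd h1) (cv4m_s.snd h1))))) (pr_nd (pr_inv (pr_sub (pr_addc (swg_s.snd h1) (enc_rat _ 1 2)) (cv4m_s.snd h1)))))) (pr_mul (cv5m_s.snd h1) (pr_norm (pr_add (pr_csub (enc_rat _ 81013443 425000000) (pr_scale 29582309 106250000 h1)) (pr_cmul (enc_norm (l5q0_4.enc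 h1.l h2)) (pr_norm (pr_csub (enc_rat _ 28484303 42500000) (pr_scale 15712439 10625000 h1))))))))))⟩
noncomputable def kc5q0_29_s : Sl2 kc5q0_29 := ⟨_, fun h1 h2 => (pr_csub (enc_pnc _ 1) h1)⟩
noncomputable def kc5q0_30_s : Sl2 kc5q0_30 := ⟨_, fun h1 h2 => (gsg_s.snd (pr_norm (kc5q0_29_s.snd h1 h2)))⟩
noncomputable def kc5q0_34_s : Sl2 kc5q0_34 := ⟨_, fun h1 h2 => (esg_s.snd (pr_norm (kc5q0_29_s.snd h1 h2)))⟩
noncomputable def kc5q0_38_s : Sl2 kc5q0_38 := ⟨_, fun h1 h2 => (gug_s.snd (pr_norm (kc5q0_29_s.snd h1 h2)))⟩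
noncomputable def kc5q0_40_s : Sl2 kc5q0_40 := ⟨_, fun h1 h2 => (pr_mul (pr_norm (kc5q0_29_s.snd h1 h2)) (pr_nd (pr_inv (kc5q0_30_s.snd h1 h2))))⟩
noncomputable def kc5q0_41_s : Sl2 kc5q0_41 := ⟨_, fun h1 h2 => (pr_scale 3 4 (kc5q0_40_s.snd h1 h2))⟩
noncomputable def kc5q0_70_s : Sl2 kc5q0_70 := ⟨_, fun h1 h2 => (pr_mul (cv4m_s.snd h1) (bd4q0_s.snd h1 h2))⟩
noncomputable def kc5q0_s : Sl2 kc5q0 := ⟨_, fun h1 h2 => (pr_norm (pr_case (pr_subr 33 100 h1) (pr_mul (cv5m_s.snd h1) (pr_norm (pr_add (pr_csub (enc_rat _ 28681 500000) (pr_scale 17504354917 3300000000 h1)) (pr_cmul (enc_norm (kc5q0_4.enc h1.l h2)) (pr_norm (pr_csub (enc_rat _ 158807 25000) (pr_scale 5809742809 330000000 h1))))))) (pr_case (pr_subr 83 200 h1) (pr_add (kc5q0_70_s.snd h1 h2) (pr_mul (pr_norm (pr_mul (pr_norm (pr_sub (pr_add (pr_sub (pr_neg (pr_add (pr_cadd (enc_rat _ 3 4) (pr_scale 3 2 (kc5q0_29_s.snd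 h1 h2))) (pr_scale 3 4 (pr_mul (pr_norm (kc5q0_40_s.snd h1 h2)) (kc5q0_38_s.snd h1 h2))))) (pr_mul (pr_norm (pr_sub (pr_mul (pr_norm (pr_mul (pr_norm (kc5q0_41_s.snd h1 h2)) (pr_norm (pr_subn 3 (pr_nat 4 (kc5q0_30_s.snd h1 h2)))))) (kc5q0_34_s.snd h1 h2)) (pr_mul (qsg_s.snd (pr_norm (kc5q0_29_s.snd h1 h2))) (pr_norm (pr_csub (enc_rat _ 1 2) (kc5q0_41_s.snd h1 h2)))))) (pr_nd (pr_inv (pr_mul (pr_nd (pr_nat 2 (kc5q0_34_s.snd h1 h2))) (kc5q0_34_s.snd h1 h2)))))) (pr_mul (kcg_s.snd (pr_norm (pr_sub (pr_scale 3 4 (kc5q0_29_s.snd h1 h2)) (pr_half (kc5q0_30_s.snd h1 h2)))) h2) (pr_norm (pr_cadd (enc_pnc _ 1) (pr_add (kc5q0_38_s.snd h1 h2) (pr_nat 2 (kc5q0_30_s.snd h1 h2))))))) (kc5q0_70_s.snd h1 h2))) (pr_norm (pr_sub (cv5m_s.snd h1) (cv4m_s.snd h1))))) (pr_nd (pr_inv (pr_sub (pr_addc (swg_s.snd h1) (enc_rat _ 1 2)) (cv4m_s.snd h1)))))) (pr_mul (cv5m_s.snd h1) (pr_norm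 (pr_add (pr_subr 136320041 42500000 (pr_scale 88860971 21250000 h1)) (pr_cmul (enc_norm (kc5q0_4.enc h1.l h2)) (pr_norm (pr_csub (enc_rat _ 24796479 2000000) (pr_scale 28912079 1000000 h1))))))))))⟩
noncomputable def bf5q1_s : Sl2 bf5q1 := ⟨_, fun h1 h2 => (pr_norm (pr_case (pr_subr 67 100 h1) (pr_add (pr_subr 896307 3400000 (pr_scale 115237 85000 h1)) (pr_cmul (enc_norm (bf5q1_3.enc h1.l h2)) (pr_norm (pr_subr 394169 1700000 (pr_scale 116 2125 h1))))) (pr_case (pr_subr 83 100 h1) (pr_add (pr_subr 1857751 8000000 (pr_scale 104709 80000 h1)) (pr_cmul (enc_norm (bf5q1_3.enc h1.l h2)) (pr_norm (pr_subr 98533 1600000 (pr_neg (pr_scale 3193 16000 h1)))))) (pr_add (pr_addc (pr_scale 145863 170000 h1) (enc_rat _ 24137 170000)) (pr_cmul (enc_norm (bf5q1_3.enc h1.l h2)) (pr_norm (pr_subr 11361 8500 (pr_scale 11361 8500 h1))))))))⟩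
noncomputable def kf5q1_s : Sl2 kf5q1 := ⟨_, fun h1 h2 => (pr_norm (pr_mul (cv5m_s.snd h1) (bf5q1_s.snd h1 h2)))⟩
noncomputable def bx5q1_s : Sl2 bx5q1 := ⟨_, fun h1 h2 => (pr_norm (pr_case (pr_subr 67 100 h1) (pr_add (pr_csub (enc_rat _ 522989 3400000) (pr_scale 36103 170000 h1)) (pr_cmul (enc_norm (bx5q1_3.enc h1.l h2)) (pr_norm (pr_subr 425449 850000 (pr_scale 7813 8500 h1))))) (pr_case (pr_subr 83 100 h1) (pr_add (pr_csub (enc_rat _ 581621 16000000) (pr_scale 5927 160000 h1)) (pr_cmul (enc_norm (bx5q1_3.enc h1.l h2)) (pr_norm (pr_csub (enc_rat _ 170621 320000) (pr_scale 9979 16000 h1))))) (pr_add (pr_csub (enc_rat _ 1121 34000) (pr_scale 1121 34000 h1)) (pr_cmul (enc_norm (bx5q1_3.enc h1.l h2)) (pr_norm (pr_csub (enc_rat _ 1553 17000) (pr_scale 1553 17000 h1))))))))⟩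
noncomputable def l5q1_s : Sl2 l5q1 := ⟨_, fun h1 h2 => (pr_norm (pr_mul (cv5m_s.snd h1) (bx5q1_s.snd h1 h2)))⟩
noncomputable def bd5q1_s : Sl2 bd5q1 := ⟨_, fun h1 h2 => (pr_norm (pr_add (pr_csub (enc_rat _ 29809 100000) (pr_scale 29809 100000 h1)) (pr_cmul (enc_norm (enc_subr 251 400 h2)) (pr_norm (pr_subr 189589 25000 (pr_scale 189589 25000 h1))))))⟩
noncomputable def kc5q1_s : Sl2 kc5q1 := ⟨_, fun h1 h2 => (pr_norm (pr_mul (cv5m_s.snd h1) (bd5q1_s.snd h1 h2)))⟩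
noncomputable def cv5p_s : Sl1 cv5p := ⟨_, fun h1 => (pr_norm (pr_add (pr_scale 3 4 (pr_subr 1 2 (swg_s.snd h1))) (pr_scale 1 4 (c3g_s.snd h1))))⟩
noncomputable def bf5q2_s : Sl2 bf5q2 := ⟨_, fun h1 h2 => (pr_norm (pr_case (pr_subr 117 100 h1) (pr_add (pr_subr 38963 1000000 (pr_scale 4753 5000 h1)) (pr_cmul (enc_norm (bf5q2_3.enc h1.l h2)) (pr_norm (pr_csub (enc_rat _ 502991 68000) (pr_scale 133929 17000 h1))))) (pr_case (pr_subr 133 100 h1) (pr_add (pr_csub (enc_rat _ 9917267 2000000) (pr_scale 66417 20000 h1)) (pr_cmul (enc_norm (bf5q2_3.enc h1.l h2)) (pr_norm (pr_subr 2467513 320000 (pr_scale 80553 16000 h1))))) (pr_add (pr_csub (enc_rat _ 51319699 8500000) (pr_scale 702459 170000 h1)) (pr_cmul (enc_norm (bf5q2_3.enc h1.l h2)) (pr_norm (pr_subr 6441653 170000 (pr_scale 471361 17000 h1))))))))⟩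
noncomputable def kf5q2_s : Sl2 kf5q2 := ⟨_, fun h1 h2 => (pr_norm (pr_mul (cv5p_s.snd h1) (bf5q2_s.snd h1 h2)))⟩
noncomputable def bx5q2_s : Sl2 bx5q2 := ⟨_, fun h1 h2 => (pr_norm (pr_case (pr_subr 117 100 h1) (pr_add (pr_csub (enc_rat _ 1315431 17000000) (pr_scale 1417 170000 h1)) (pr_cmul (enc_norm (bx5q2_3.enc h1.l h2)) (pr_norm (pr_csub (enc_rat _ 72761 170000) (pr_scale 107 340 h1))))) (pr_case (pr_subr 133 100 h1) (pr_add (pr_csub (enc_rat _ 5428449 16000000) (pr_scale 37149 160000 h1)) (pr_cmul (enc_norm (bx5q2_3.enc h1.l h2)) (pr_norm (pr_subr 564551 1600000 (pr_scale 5643 16000 h1))))) (pr_add (pr_subr 2610323 3400000 (pr_scale 25507 42500 h1)) (pr_cmul (enc_norm (bx5q2_3.enc h1.l h2)) (pr_norm (pr_csub (enc_rat _ 7560737 1700000) (pr_scale 27681 8500 h1))))))))⟩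
noncomputable def l5q2_s : Sl2 l5q2 := ⟨_, fun h1 h2 => (pr_norm (pr_mul (cv5p_s.snd h1) (bx5q2_s.snd h1 h2)))⟩
noncomputable def bd5q2_s : Sl2 bd5q2 := ⟨_, fun h1 h2 => (pr_norm (pr_add (pr_subr 369797 500000 (pr_scale 353407 500000 h1)) (pr_cmul (enc_norm (enc_subr 251 400 h2)) (pr_norm (pr_subr 321317 20000 (pr_scale 733577 50000 h1))))))⟩
noncomputable def kc5q2_s : Sl2 kc5q2 := ⟨_, fun h1 h2 => (pr_norm (pr_mul (cv5p_s.snd h1) (bd5q2_s.snd h1 h2)))⟩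
noncomputable def ycg_s : Sl1 ycg := ⟨_, fun h1 => (pr_sqrtg (pr_scale 4 3 (pr_csub (enc_pnc _ 3) (pr_sq h1))))⟩
noncomputable def xc53_s : Sl1 xc53 := ⟨_, fun h1 => (pr_norm (pr_add (pr_scale 3 4 (pr_subr 1 2 (swg_s.snd (pr_nd (ycg_s.snd h1))))) (pr_scale 1 4 h1)))⟩
noncomputable def kfc53_6_s : Sl2 kfc53_6 := ⟨_, fun h1 h2 => (pr_subr 1 2 (swg_s.snd (pr_nd (ycg_s.snd h1))))⟩
noncomputable def kfc53_9_s : Sl2 kfc53_9 := ⟨_, fun h1 h2 => (pr_add (pr_scale 3 4 (kfc53_6_s.snd h1 h2)) (pr_scale 1 4 h1))⟩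
noncomputable def kfc53_47_s : Sl2 kfc53_47 := ⟨_, fun h1 h2 => (pr_subn 1 (ycg_s.snd h1))⟩
noncomputable def kfc53_48_s : Sl2 kfc53_48 := ⟨_, fun h1 h2 => (gsg_s.snd (pr_norm (kfc53_47_s.snd h1 h2)))⟩
noncomputable def kfc53_49_s : Sl2 kfc53_49 := ⟨_, fun h1 h2 => (pr_scale 3 4 (kfc53_47_s.snd h1 h2))⟩
noncomputable def kfc53_50_s : Sl2 kfc53_50 := ⟨_, fun h1 h2 => (pr_half (kfc53_48_s.snd h1 h2))⟩
noncomputable def kfc53_67_s : Sl2 kfc53_67 := ⟨_, fun h1 h2 => (cv4r_s.snd (pr_nd (ycg_s.snd h1)))⟩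
noncomputable def kfc53_69_s : Sl2 kfc53_69 := ⟨_, fun h1 h2 => (pr_mul (kfc53_67_s.snd h1 h2) (bf4q3_s.snd (pr_nd (ycg_s.snd h1)) h2))⟩
noncomputable def kfc53_s : Sl2 kfc53 := ⟨_, fun h1 h2 => (pr_norm (pr_case (pr_subr 317 200 (ycg_s.snd h1)) (pr_mul (pr_norm (kfc53_9_s.snd h1 h2)) (pr_norm (pr_add (pr_subr 2415608066332779 4134943750000000 (pr_scale 21810127 49619325 h1)) (pr_cmul (enc_norm (kfc53_11.enc h1.l h2)) (pr_norm (pr_csub (enc_rat _ 16237329844905991 930362343750000) (pr_scale 1483711064 89314785 h1))))))) (pr_case (pr_subr 167 100 (ycg_s.snd h1)) (pr_add (kfc53_69_s.snd h1 h2) (pr_mul (pr_norm (pr_mul (pr_norm (pr_sub (pr_mul (pr_norm (pr_subn 2 (ycg_s.snd h1))) (pr_norm (pr_add (pr_mul (pr_norm (pr_sub (pr_sub (kfc53_50_s.snd h1 h2) (kfc53_49_s.snd h1 h2)) (pr_csub (enc_rat _ 1 4) (pr_scale 3 8 (pr_mul (pr_norm (kfc53_47_s.snd h1 h2)) (pr_nd (pr_inv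 (kfc53_48_s.snd h1 h2)))))))) (pr_nd (pr_inv (esg_s.snd (pr_norm (kfc53_47_s.snd h1 h2)))))) (kcg_s.snd (pr_norm (pr_sub (kfc53_49_s.snd h1 h2) (kfc53_50_s.snd h1 h2))) h2)))) (kfc53_69_s.snd h1 h2))) (pr_norm (pr_sub (kfc53_9_s.snd h1 h2) (kfc53_67_s.snd h1 h2))))) (pr_nd (pr_inv (pr_sub (kfc53_6_s.snd h1 h2) (kfc53_67_s.snd h1 h2)))))) (pr_mul (pr_norm (kfc53_9_s.snd h1 h2)) (pr_norm (pr_case (pr_csub (enc_rat _ 67882251 100000000) h1) (pr_add (pr_subr 79627955572709 398602250000000 (pr_scale 79203974 342797935 h1)) (pr_cmul (enc_norm (kfc53_11.enc h1.l h2)) (pr_norm (pr_subr 13930703896186723 637763600000000 (pr_scale 6778594339 274238348 h1))))) (pr_sub (pr_csub (enc_rat _ 1 2) (pr_scale 18097500 22627417 h1)) (pr_cmul (enc_norm (kfc53_11.enc h1.l h2)) (pr_nd (pr_scale 506399000 67882251 h1))))))))))⟩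
noncomputable def lc53_6_s : Sl2 lc53_6 := ⟨_, fun h1 h2 => (pr_subr 1 2 (swg_s.snd (pr_nd (ycg_s.snd h1))))⟩
noncomputable def lc53_9_s : Sl2 lc53_9 := ⟨_, fun h1 h2 => (pr_add (pr_scale 3 4 (lc53_6_s.snd h1 h2)) (pr_scale 1 4 h1))⟩
noncomputable def lc53_54_s : Sl2 lc53_54 := ⟨_, fun h1 h2 => (pr_subn 1 (ycg_s.snd h1))⟩
noncomputable def lc53_67_s : Sl2 lc53_67 := ⟨_, fun h1 h2 => (cv4r_s.snd (pr_nd (ycg_s.snd h1)))⟩
noncomputable def lc53_69_s : Sl2 lc53_69 := ⟨_, fun h1 h2 => (pr_mul (lc53_67_s.snd h1 h2) (bx4q3_s.snd (pr_nd (ycg_s.snd h1)) h2))⟩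
noncomputable def lc53_s : Sl2 lc53 := ⟨_, fun h1 h2 => (pr_norm (pr_case (pr_subr 317 200 (ycg_s.snd h1)) (pr_mul (pr_norm (lc53_9_s.snd h1 h2)) (pr_norm (pr_add (pr_csub (enc_rat _ 21358366354752523 18607246875000000) (pr_scale 396912848 446573925 h1)) (pr_cmul (enc_norm (lc53_11.enc h1.l h2)) (pr_norm (pr_csub (enc_rat _ 13127776092895159 1860724687500000) (pr_scale 572604268 89314785 h1))))))) (pr_case (pr_subr 167 100 (ycg_s.snd h1)) (pr_add (lc53_69_s.snd h1 h2) (pr_mul (pr_norm (pr_mul (pr_norm (pr_sub (pr_sub (qsg_s.snd (pr_norm (lc53_54_s.snd h1 h2))) (pr_mul (pr_norm (pr_nat 2 (pr_subc (lc53_54_s.snd h1 h2) h2))) (pr_norm (pr_mul (esg_s.snd (pr_norm (lc53_54_s.snd h1 h2))) (kcg_s.snd (pr_norm (pr_sub (pr_scale 3 4 (lc53_54_s.snd h1 h2)) (pr_half (gsg_s.snd (pr_norm (lc53_54_s.snd h1 h2)))))) h2))))) (lc53_69_s.snd h1 h2))) (pr_norm (pr_sub (lc53_9_s.snd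 h1 h2) (lc53_67_s.snd h1 h2))))) (pr_nd (pr_inv (pr_sub (lc53_6_s.snd h1 h2) (lc53_67_s.snd h1 h2)))))) (pr_mul (pr_norm (lc53_9_s.snd h1 h2)) (pr_norm (pr_case (pr_csub (enc_rat _ 67882251 100000000) h1) (pr_add (pr_add (pr_csub (enc_rat _ 1617607620891927 3188818000000000) (pr_scale 274419111 1371191740 h1)) (pr_cmul (enc_norm (lc53_11.enc h1.l h2)) (pr_norm (pr_csub (enc_rat _ 177165807316863 63776360000000) (pr_scale 338500795 137119174 h1))))) (pr_cmul (enc_sq (enc_norm (lc53_11.enc h1.l h2))) (pr_norm (pr_subr 58127729397 637763600000 (pr_scale 9205250 68559587 h1))))) (pr_add (pr_addc (pr_scale 6279873 22627417 h1) (enc_rat _ 18302481 100000000)) (pr_cmul (enc_norm (lc53_11.enc h1.l h2)) (pr_norm (pr_csub (enc_rat _ 43861911 20000000) (pr_scale 36365185 22627417 h1)))))))))))⟩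
noncomputable def kcc53_6_s : Sl2 kcc53_6 := ⟨_, fun h1 h2 => (pr_subr 1 2 (swg_s.snd (pr_nd (ycg_s.snd h1))))⟩
noncomputable def kcc53_9_s : Sl2 kcc53_9 := ⟨_, fun h1 h2 => (pr_add (pr_scale 3 4 (kcc53_6_s.snd h1 h2)) (pr_scale 1 4 h1))⟩
noncomputable def kcc53_34_s : Sl2 kcc53_34 := ⟨_, fun h1 h2 => (pr_subn 1 (ycg_s.snd h1))⟩
noncomputable def kcc53_35_s : Sl2 kcc53_35 := ⟨_, fun h1 h2 => (gsg_s.snd (pr_norm (kcc53_34_s.snd h1 h2)))⟩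
noncomputable def kcc53_39_s : Sl2 kcc53_39 := ⟨_, fun h1 h2 => (esg_s.snd (pr_norm (kcc53_34_s.snd h1 h2)))⟩
noncomputable def kcc53_44_s : Sl2 kcc53_44 := ⟨_, fun h1 h2 => (gug_s.snd (pr_norm (kcc53_34_s.snd h1 h2)))⟩
noncomputable def kcc53_46_s : Sl2 kcc53_46 := ⟨_, fun h1 h2 => (pr_mul (pr_norm (kcc53_34_s.snd h1 h2)) (pr_nd (pr_inv (kcc53_35_s.snd h1 h2))))⟩
noncomputable def kcc53_47_s : Sl2 kcc53_47 := ⟨_, fun h1 h2 => (pr_scale 3 4 (kcc53_46_s.snd h1 h2))⟩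
noncomputable def kcc53_72_s : Sl2 kcc53_72 := ⟨_, fun h1 h2 => (cv4r_s.snd (pr_nd (ycg_s.snd h1)))⟩
noncomputable def kcc53_74_s : Sl2 kcc53_74 := ⟨_, fun h1 h2 => (pr_mul (kcc53_72_s.snd h1 h2) (bd4q3_s.snd (pr_nd (ycg_s.snd h1)) h2))⟩
noncomputable def kcc53_s : Sl2 kcc53 := ⟨_, fun h1 h2 => (pr_norm (pr_case (pr_subr 317 200 (ycg_s.snd h1)) (pr_mul (pr_norm (kcc53_9_s.snd h1 h2)) (pr_norm (pr_add (pr_csub (enc_rat _ 272801579812074581 74428987500000000) (pr_scale 965226803 893147850 h1)) (pr_cmul (enc_norm (kcc53_11.enc h1.l h2)) (pr_norm (pr_subr 111315098249071603 1860724687500000 (pr_scale 4960287856 89314785 h1))))))) (pr_case (pr_subr 167 100 (ycg_s.snd h1)) (pr_add (kcc53_74_s.snd h1 h2) (pr_mul (pr_norm (pr_mul (pr_norm (pr_sub (pr_add (pr_sub (pr_add (pr_cadd (enc_rat _ 3 4) (pr_scale 3 2 (kcc53_34_s.snd h1 h2))) (pr_scale 3 4 (pr_mul (pr_norm (kcc53_46_s.snd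 h1 h2)) (kcc53_44_s.snd h1 h2)))) (pr_mul (pr_norm (pr_sub (pr_mul (pr_norm (pr_mul (pr_norm (kcc53_47_s.snd h1 h2)) (pr_norm (pr_subn 3 (pr_nat 4 (kcc53_35_s.snd h1 h2)))))) (kcc53_39_s.snd h1 h2)) (pr_mul (qsg_s.snd (pr_norm (kcc53_34_s.snd h1 h2))) (pr_norm (pr_csub (enc_rat _ 1 2) (kcc53_47_s.snd h1 h2)))))) (pr_nd (pr_inv (pr_mul (pr_nd (pr_nat 2 (kcc53_39_s.snd h1 h2))) (kcc53_39_s.snd h1 h2)))))) (pr_mul (kcg_s.snd (pr_norm (pr_sub (pr_scale 3 4 (kcc53_34_s.snd h1 h2)) (pr_half (kcc53_35_s.snd h1 h2)))) h2) (pr_norm (pr_csub (enc_pnc _ 1) (pr_add (kcc53_44_s.snd h1 h2) (pr_nat 2 (kcc53_35_s.snd h1 h2))))))) (kcc53_74_s.snd h1 h2))) (pr_norm (pr_sub (kcc53_9_s.snd h1 h2) (kcc53_72_s.snd h1 h2))))) (pr_nd (pr_inv (pr_sub (kcc53_6_s.snd h1 h2) (kcc53_72_s.snd h1 h2)))))) (pr_mul (pr_norm (kcc53_9_s.snd h1 h2)) (pr_norm (pr_add (pr_addc (pr_scale 185531509573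 66714260060 h1) (enc_rat _ 14963 28000)) (pr_cmul (enc_norm (kcc53_11.enc h1.l h2)) (pr_norm (pr_subr 21401 5600 (pr_scale 14392605601 3335713003 h1))))))))))⟩
noncomputable def cv6m_s : Sl1 cv6m := ⟨_, fun h1 => (pr_norm (pr_add (pr_half (pr_addc (swg_s.snd h1) (enc_rat _ 1 2))) (pr_half (c3g_s.snd h1))))⟩
noncomputable def bf6q0_s : Sl2 bf6q0 := ⟨_, fun h1 h2 => (pr_norm (pr_case (pr_subr 23 100 h1) (pr_case (pr_subr 3 25 h1) (pr_add (pr_csub (enc_rat _ 262741 500000) (pr_scale 15131 10000 h1)) (pr_cmul (enc_norm (bf6q0_3.enc h1.l h2)) (pr_norm (pr_addc (pr_scale 56071 12000 h1) (enc_rat _ 16867 20000))))) (pr_add (pr_csub (enc_rat _ 2925191 5500000) (pr_scale 172281 110000 h1)) (pr_cmul (enc_norm (bf6q0_3.enc h1.l h2)) (pr_norm (pr_csub (enc_rat _ 1232601 550000) (pr_scale 9591 1375 h1)))))) (pr_case (pr_subr 7 20 h1) (pr_add (pr_csub (enc_rat _ 2123947 4000000)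 (pr_scale 62497 40000 h1)) (pr_cmul (enc_norm (bf6q0_3.enc h1.l h2)) (pr_norm (pr_csub (enc_rat _ 2268773 1200000) (pr_scale 65419 12000 h1))))) (pr_case (pr_subr 79 200 h1) (pr_add (pr_csub (enc_rat _ 133987 250000) (pr_scale 7883 5000 h1)) (pr_cmul (enc_norm (bf6q0_3.enc h1.l h2)) (pr_norm (pr_subr 452609 900000 (pr_scale 3121 2250 h1))))) (pr_add (pr_csub (enc_rat _ 23672207 21000000) (pr_scale 80681 26250 h1)) (pr_cmul (enc_norm (bf6q0_3.enc h1.l h2)) (pr_norm (pr_subr 209479 525000 (pr_scale 11803 10500 h1)))))))))⟩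
noncomputable def kf6q0_s : Sl2 kf6q0 := ⟨_, fun h1 h2 => (pr_norm (pr_mul (cv6m_s.snd h1) (bf6q0_s.snd h1 h2)))⟩
noncomputable def bx6q0_s : Sl2 bx6q0 := ⟨_, fun h1 h2 => (pr_norm (pr_case (pr_subr 23 100 h1) (pr_case (pr_subr 3 25 h1) (pr_add (pr_addc (pr_scale 127 1600 h1) (enc_rat _ 29051 250000)) (pr_cmul (enc_norm (bx6q0_3.enc h1.l h2)) (pr_norm (pr_csub (enc_rat _ 11261 20000) (pr_scale 3213 4000 h1))))) (pr_add (pr_csub (enc_rat _ 320759 2200000) (pr_scale 9199 55000 h1)) (pr_cmul (enc_norm (bx6q0_3.enc h1.l h2)) (pr_norm (pr_csub (enc_rat _ 432511 550000) (pr_scale 7327 2750 h1)))))) (pr_case (pr_subr 7 20 h1) (pr_add (pr_csub (enc_rat _ 898849 6000000) (pr_scale 11081 60000 h1)) (pr_cmul (enc_norm (bx6q0_3.enc h1.l h2)) (pr_norm (pr_csub (enc_rat _ 327823 600000) (pr_scale 389 240 h1))))) (pr_case (pr_subr 79 200 h1) (pr_add (pr_csub (enc_rat _ 1403731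 9000000) (pr_scale 9103 45000 h1)) (pr_cmul (enc_norm (bx6q0_3.enc h1.l h2)) (pr_norm (pr_subr 21731 50000 (pr_scale 591 500 h1))))) (pr_add (pr_csub (enc_rat _ 39189 218750) (pr_scale 4567 17500 h1)) (pr_cmul (enc_norm (bx6q0_3.enc h1.l h2)) (pr_norm (pr_subr 525997 2100000 (pr_scale 1879 2625 h1)))))))))⟩
noncomputable def l6q0_s : Sl2 l6q0 := ⟨_, fun h1 h2 => (pr_norm (pr_mul (cv6m_s.snd h1) (bx6q0_s.snd h1 h2)))⟩
noncomputable def bd6q0_s : Sl2 bd6q0 := ⟨_, fun h1 h2 => (pr_norm (pr_add (pr_csub (enc_rat _ 29799 500000) (pr_scale 1180153 500000 h1)) (pr_cmul (enc_norm (enc_subr 251 400 h2)) (pr_norm (pr_csub (enc_rat _ 43223 4000) (pr_scale 334499 12500 h1))))))⟩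
noncomputable def kc6q0_s : Sl2 kc6q0 := ⟨_, fun h1 h2 => (pr_norm (pr_mul (cv6m_s.snd h1) (bd6q0_s.snd h1 h2)))⟩
noncomputable def bf6q1_s : Sl2 bf6q1 := ⟨_, fun h1 h2 => (pr_norm (pr_case (pr_subr 67 100 h1) (pr_add (pr_subr 1925893 8500000 (pr_scale 226803 170000 h1)) (pr_cmul (enc_norm (bf6q1_3.enc h1.l h2)) (pr_norm (pr_subr 91423 340000 (pr_scale 2463 17000 h1))))) (pr_case (pr_subr 83 100 h1) (pr_add (pr_subr 2394109 16000000 (pr_scale 195087 160000 h1)) (pr_cmul (enc_norm (bf6q1_3.enc h1.l h2)) (pr_norm (pr_subr 4513 80000 (pr_neg (pr_scale 689 4000 h1)))))) (pr_add (pr_addc (pr_scale 68809 85000 h1) (enc_rat _ 16191 85000)) (pr_cmul (enc_norm (bf6q1_3.enc h1.l h2)) (pr_norm (pr_subr 9969 8500 (pr_scale 9969 8500 h1))))))))⟩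
noncomputable def kf6q1_s : Sl2 kf6q1 := ⟨_, fun h1 h2 => (pr_norm (pr_mul (cv6m_s.snd h1) (bf6q1_s.snd h1 h2)))⟩
noncomputable def bx6q1_s : Sl2 bx6q1 := ⟨_, fun h1 h2 => (pr_norm (pr_case (pr_subr 67 100 h1) (pr_add (pr_csub (enc_rat _ 2087919 17000000) (pr_scale 1662 10625 h1)) (pr_cmul (enc_norm (bx6q1_3.enc h1.l h2)) (pr_norm (pr_subr 12149 85000 (pr_scale 1231 3400 h1))))) (pr_case (pr_subr 83 100 h1) (pr_add (pr_csub (enc_rat _ 214837 4000000) (pr_scale 2131 40000 h1)) (pr_cmul (enc_norm (bx6q1_3.enc h1.l h2)) (pr_norm (pr_csub (enc_rat _ 595007 1600000) (pr_scale 6501 16000 h1))))) (pr_add (pr_csub (enc_rat _ 9491 170000) (pr_scale 9491 170000 h1)) (pr_cmul (enc_norm (bx6q1_3.enc h1.l h2)) (pr_norm (pr_csub (enc_rat _ 433 2125) (pr_scale 433 2125 h1))))))))⟩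
noncomputable def l6q1_s : Sl2 l6q1 := ⟨_, fun h1 h2 => (pr_norm (pr_mul (cv6m_s.snd h1) (bx6q1_s.snd h1 h2)))⟩
noncomputable def bd6q1_s : Sl2 bd6q1 := ⟨_, fun h1 h2 => (pr_norm (pr_add (pr_csub (enc_rat _ 13127 100000) (pr_scale 13127 100000 h1)) (pr_cmul (enc_norm (enc_subr 251 400 h2)) (pr_norm (pr_subr 390943 50000 (pr_scale 390943 50000 h1))))))⟩
noncomputable def kc6q1_s : Sl2 kc6q1 := ⟨_, fun h1 h2 => (pr_norm (pr_mul (cv6m_s.snd h1) (bd6q1_s.snd h1 h2)))⟩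
noncomputable def cv6p_s : Sl1 cv6p := ⟨_, fun h1 => (pr_norm (pr_add (pr_half (pr_subr 1 2 (swg_s.snd h1))) (pr_half (c3g_s.snd h1))))⟩
noncomputable def bf6q2_s : Sl2 bf6q2 := ⟨_, fun h1 h2 => (pr_norm (pr_case (pr_subr 117 100 h1) (pr_add (pr_subr 4995009 3400000 (pr_scale 93561 42500 h1)) (pr_cmul (enc_norm (bf6q2_3.enc h1.l h2)) (pr_norm (pr_csub (enc_rat _ 37513223 1700000) (pr_scale 69749 3400 h1))))) (pr_case (pr_subr 133 100 h1) (pr_add (pr_csub (enc_rat _ 68460831 16000000) (pr_scale 433811 160000 h1)) (pr_cmul (enc_norm (bf6q2_3.enc h1.l h2)) (pr_norm (pr_subr 12171287 1600000 (pr_scale 77563 16000 h1))))) (pr_add (pr_csub (enc_rat _ 83011863 17000000) (pr_scale 538159 170000 h1)) (pr_cmul (enc_norm (bf6q2_3.enc h1.l h2)) (pr_norm (pr_subr 157679 6250 (pr_scale 18097 1000 h1))))))))⟩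
noncomputable def kf6q2_s : Sl2 kf6q2 := ⟨_, fun h1 h2 => (pr_norm (pr_mul (cv6p_s.snd h1) (bf6q2_s.snd h1 h2)))⟩
noncomputable def bx6q2_s : Sl2 bx6q2 := ⟨_, fun h1 h2 => (pr_norm (pr_case (pr_subr 117 100 h1) (pr_add (pr_csub (enc_rat _ 3477629 17000000) (pr_scale 14121 85000 h1)) (pr_cmul (enc_norm (bx6q2_3.enc h1.l h2)) (pr_norm (pr_subr 9658943 1700000 (pr_scale 43341 8500 h1))))) (pr_case (pr_subr 133 100 h1) (pr_add (pr_subr 150647 1600000 (pr_scale 1427 16000 h1)) (pr_cmul (enc_norm (bx6q2_3.enc h1.l h2)) (pr_norm (pr_csub (enc_rat _ 605947 320000) (pr_scale 22011 16000 h1))))) (pr_add (pr_subr 1442 265625 (pr_scale 3821 170000 h1)) (pr_cmul (enc_norm (bx6q2_3.enc h1.l h2)) (pr_norm (pr_csub (enc_rat _ 2957391 1700000) (pr_scale 21419 17000 h1))))))))⟩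
noncomputable def l6q2_s : Sl2 l6q2 := ⟨_, fun h1 h2 => (pr_norm (pr_mul (cv6p_s.snd h1) (bx6q2_s.snd h1 h2)))⟩
noncomputable def bd6q2_s : Sl2 bd6q2 := ⟨_, fun h1 h2 => (pr_norm (pr_add (pr_subr 239677 500000 (pr_scale 46941 100000 h1)) (pr_cmul (enc_norm (enc_subr 251 400 h2)) (pr_norm (pr_subr 48803 3125 (pr_scale 43047 3125 h1))))))⟩
noncomputable def kc6q2_s : Sl2 kc6q2 := ⟨_, fun h1 h2 => (pr_norm (pr_mul (cv6p_s.snd h1) (bd6q2_s.snd h1 h2)))⟩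
noncomputable def xc63_s : Sl1 xc63 := ⟨_, fun h1 => (pr_norm (pr_add (pr_half (pr_subr 1 2 (swg_s.snd (pr_nd (ycg_s.snd h1))))) (pr_half h1)))⟩
noncomputable def kfc63_s : Sl2 kfc63 := ⟨_, fun h1 h2 => (pr_norm (pr_mul (pr_norm (pr_add (pr_half (pr_subr 1 2 (swg_s.snd (pr_nd (ycg_s.snd h1))))) (pr_half h1))) (pr_norm (pr_case (pr_csub (enc_rat _ 489419299 500000000) h1) (pr_case (pr_csub (enc_rat _ 1033431783 1000000000) h1) (pr_add (pr_csub (enc_rat _ 1775162943931 2337752937500) (pr_scale 97516000 112212141 h1)) (pr_cmul (enc_norm (kfc63_11.enc h1.l h2)) (pr_norm (pr_csub (enc_rat _ 1318716136523 1870202350000) (pr_scale 41470000 37404047 h1))))) (pr_add (pr_csub (enc_rat _ 37259112554989 54593185000000) (pr_scale 8676600 10918637 h1)) (pr_cmul (enc_norm (kfc63_11.enc h1.l h2)) (pr_norm (pr_subr 120170066983 545931850000 (pr_neg (pr_scale 2330000 10918637 h1)))))))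 (pr_case (pr_csub (enc_rat _ 403213653 500000000) h1) (pr_add (pr_csub (enc_rat _ 24138147206871 43102823000000) (pr_scale 28859000 43102823 h1)) (pr_cmul (enc_norm (kfc63_11.enc h1.l h2)) (pr_norm (pr_subr 557392716341 269392643750 (pr_scale 72220000 43102823 h1))))) (pr_case (pr_csub (enc_rat _ 147732867 250000000) h1) (pr_add (pr_csub (enc_rat _ 1037545505313 2394398200000) (pr_scale 55214000 107747919 h1)) (pr_cmul (enc_norm (kfc63_11.enc h1.l h2)) (pr_norm (pr_subr 1208686621033 598599550000 (pr_scale 173870000 107747919 h1))))) (pr_sub (pr_csub (enc_rat _ 1 2) (pr_scale 92373250 147732867 h1)) (pr_cmul (enc_norm (kfc63_11.enc h1.l h2)) (pr_nd (pr_scale 266405000 147732867 h1))))))))))⟩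
noncomputable def lc63_s : Sl2 lc63 := ⟨_, fun h1 h2 => (pr_norm (pr_mul (pr_norm (pr_add (pr_half (pr_subr 1 2 (swg_s.snd (pr_nd (ycg_s.snd h1))))) (pr_half h1))) (pr_norm (pr_case (pr_csub (enc_rat _ 489419299 500000000) h1) (pr_case (pr_csub (enc_rat _ 1033431783 1000000000) h1) (pr_add (pr_csub (enc_rat _ 8677993576101 7480809400000) (pr_scale 36613000 37404047 h1)) (pr_cmul (enc_norm (lc63_11.enc h1.l h2)) (pr_norm (pr_csub (enc_rat _ 9481157834873 3740404700000) (pr_scale 267070000 112212141 h1))))) (pr_add (pr_csub (enc_rat _ 27887468172477 27296592500000) (pr_scale 9225600 10918637 h1)) (pr_cmul (enc_norm (lc63_11.enc h1.l h2)) (pr_norm (pr_csub (enc_rat _ 5128484796627 2729659250000) (pr_scale 19056000 10918637 h1)))))) (pr_case (pr_csub (enc_rat _ 403213653 500000000) h1) (pr_add (pr_csub (enc_rat _ 73683598500977 86205646000000) (pr_scale 29069750 43102823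 h1)) (pr_cmul (enc_norm (lc63_11.enc h1.l h2)) (pr_norm (pr_csub (enc_rat _ 1903257387251 1077570575000) (pr_scale 70270000 43102823 h1))))) (pr_case (pr_csub (enc_rat _ 147732867 250000000) h1) (pr_add (pr_csub (enc_rat _ 250261712563 478879640000) (pr_scale 9430000 35915973 h1)) (pr_cmul (enc_norm (lc63_11.enc h1.l h2)) (pr_norm (pr_csub (enc_rat _ 99189093677 47887964000) (pr_scale 216415000 107747919 h1))))) (pr_add (pr_addc (pr_scale 92210095 295465734 h1) (enc_rat _ 18302481 100000000)) (pr_cmul (enc_norm (lc63_11.enc h1.l h2)) (pr_norm (pr_csub (enc_rat _ 43861911 20000000) (pr_scale 72706975 32829526 h1)))))))))))⟩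
noncomputable def kcc63_s : Sl2 kcc63 := ⟨_, fun h1 h2 => (pr_norm (pr_mul (pr_norm (pr_add (pr_half (pr_subr 1 2 (swg_s.snd (pr_nd (ycg_s.snd h1))))) (pr_half h1))) (pr_norm (pr_add (pr_addc (pr_scale 2731230500 2004876867 h1) (enc_rat _ 14963 28000)) (pr_cmul (enc_norm (enc_subr 251 400 h2)) (pr_norm (pr_subr 21401 5600 (pr_scale 9416727500 2004876867 h1))))))))⟩
noncomputable def cv7m_s : Sl1 cv7m := ⟨_, fun h1 => (pr_norm (pr_add (pr_scale 1 4 (pr_addc (swg_s.snd h1) (enc_rat _ 1 2))) (pr_scale 3 4 (c3g_s.snd h1))))⟩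
noncomputable def bf7q0_s : Sl2 bf7q0 := ⟨_, fun h1 h2 => (pr_norm (pr_case (pr_subr 23 100 h1) (pr_case (pr_subr 3 25 h1) (pr_add (pr_csub (enc_rat _ 252931 1000000) (pr_scale 13371 20000 h1)) (pr_cmul (enc_norm (bf7q0_3.enc h1.l h2)) (pr_norm (pr_addc (pr_scale 16333 4000 h1) (enc_rat _ 55369 100000))))) (pr_add (pr_csub (enc_rat _ 3432383 11000000) (pr_scale 127719 110000 h1)) (pr_cmul (enc_norm (bf7q0_3.enc h1.l h2)) (pr_norm (pr_csub (enc_rat _ 127607 68750) (pr_scale 9309 1375 h1)))))) (pr_case (pr_subr 7 20 h1) (pr_add (pr_csub (enc_rat _ 1872809 6000000) (pr_scale 69691 60000 h1)) (pr_cmul (enc_norm (bf7q0_3.enc h1.l h2)) (pr_norm (pr_csub (enc_rat _ 19089 25000) (pr_scale 101 50 h1))))) (pr_case (pr_subr 79 200 h1) (pr_add (pr_csub (enc_rat _ 1015619 2250000) (pr_scale 17543 11250 h1)) (pr_cmul (enc_norm (bf7q0_3.enc h1.l h2)) (pr_norm (pr_csub (enc_rat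 _ 1449 25000) (pr_scale 1 250 h1))))) (pr_add (pr_csub (enc_rat _ 17729581 21000000) (pr_scale 268171 105000 h1)) (pr_cmul (enc_norm (bf7q0_3.enc h1.l h2)) (pr_norm (pr_subr 1206827 2100000 (pr_scale 671 420 h1)))))))))⟩
noncomputable def kf7q0_s : Sl2 kf7q0 := ⟨_, fun h1 h2 => (pr_norm (pr_mul (cv7m_s.snd h1) (bf7q0_s.snd h1 h2)))⟩
noncomputable def bx7q0_s : Sl2 bx7q0 := ⟨_, fun h1 h2 => (pr_norm (pr_case (pr_subr 23 100 h1) (pr_case (pr_subr 3 25 h1) (pr_add (pr_csub (enc_rat _ 156409 1000000) (pr_scale 14897 120000 h1)) (pr_cmul (enc_norm (bx7q0_3.enc h1.l h2)) (pr_norm (pr_addc (pr_scale 133 1500 h1) (enc_rat _ 33963 100000))))) (pr_add (pr_csub (enc_rat _ 249647 1375000) (pr_scale 4589 13750 h1)) (pr_cmul (enc_norm (bx7q0_3.enc h1.l h2)) (pr_norm (pr_csub (enc_rat _ 697501 1100000) (pr_scale 26017 11000 h1)))))) (pr_case (pr_subr 7 20 h1) (pr_add (pr_csub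 (enc_rat _ 354629 2400000) (pr_scale 4483 24000 h1)) (pr_cmul (enc_norm (bx7q0_3.enc h1.l h2)) (pr_norm (pr_csub (enc_rat _ 83627 400000) (pr_scale 2069 4000 h1))))) (pr_case (pr_subr 79 200 h1) (pr_add (pr_csub (enc_rat _ 284009 1800000) (pr_scale 4847 22500 h1)) (pr_cmul (enc_norm (bx7q0_3.enc h1.l h2)) (pr_norm (pr_csub (enc_rat _ 3713 100000) (pr_scale 13 500 h1))))) (pr_add (pr_csub (enc_rat _ 18918 109375) (pr_scale 1777 7000 h1)) (pr_cmul (enc_norm (bx7q0_3.enc h1.l h2)) (pr_norm (pr_subr 35471 420000 (pr_scale 2959 10500 h1)))))))))⟩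
noncomputable def l7q0_s : Sl2 l7q0 := ⟨_, fun h1 h2 => (pr_norm (pr_mul (cv7m_s.snd h1) (bx7q0_s.snd h1 h2)))⟩
noncomputable def bd7q0_s : Sl2 bd7q0 := ⟨_, fun h1 h2 => (pr_norm (pr_add (pr_csub (enc_rat _ 89951 125000) (pr_scale 1299781 500000 h1)) (pr_cmul (enc_norm (enc_subr 251 400 h2)) (pr_norm (pr_csub (enc_rat _ 299999 20000) (pr_scale 1838851 50000 h1))))))⟩
noncomputable def kc7q0_s : Sl2 kc7q0 := ⟨_, fun h1 h2 => (pr_norm (pr_mul (cv7m_s.snd h1) (bd7q0_s.snd h1 h2)))⟩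
noncomputable def bf7q1_s : Sl2 bf7q1 := ⟨_, fun h1 h2 => (pr_norm (pr_case (pr_subr 67 100 h1) (pr_add (pr_subr 365401 1700000 (pr_scale 114871 85000 h1)) (pr_cmul (enc_norm (bf7q1_3.enc h1.l h2)) (pr_norm (pr_subr 510583 1700000 (pr_scale 4143 17000 h1))))) (pr_case (pr_subr 83 100 h1) (pr_add (pr_subr 121987 2000000 (pr_scale 22433 20000 h1)) (pr_cmul (enc_norm (bf7q1_3.enc h1.l h2)) (pr_norm (pr_subr 181173 1600000 (pr_neg (pr_scale 569 16000 h1)))))) (pr_add (pr_addc (pr_scale 16253 21250 h1) (enc_rat _ 4997 21250)) (pr_cmul (enc_norm (bf7q1_3.enc h1.l h2)) (pr_norm (pr_subr 571 680 (pr_scale 571 680 h1))))))))⟩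
noncomputable def kf7q1_s : Sl2 kf7q1 := ⟨_, fun h1 h2 => (pr_norm (pr_mul (cv7m_s.snd h1) (bf7q1_s.snd h1 h2)))⟩
noncomputable def bx7q1_s : Sl2 bx7q1 := ⟨_, fun h1 h2 => (pr_norm (pr_case (pr_subr 67 100 h1) (pr_add (pr_csub (enc_rat _ 315577 3400000) (pr_scale 3377 34000 h1)) (pr_cmul (enc_norm (bx7q1_3.enc h1.l h2)) (pr_norm (pr_csub (enc_rat _ 301931 1700000) (pr_scale 3083 17000 h1))))) (pr_case (pr_subr 83 100 h1) (pr_add (pr_csub (enc_rat _ 1223181 16000000) (pr_scale 11983 160000 h1)) (pr_cmul (enc_norm (bx7q1_3.enc h1.l h2)) (pr_norm (pr_csub (enc_rat _ 26929 400000) (pr_scale 67 4000 h1))))) (pr_add (pr_csub (enc_rat _ 14287 170000) (pr_scale 14287 170000 h1)) (pr_cmul (enc_norm (bx7q1_3.enc h1.l h2)) (pr_norm (pr_csub (enc_rat _ 2671 8500) (pr_scale 2671 8500 h1))))))))⟩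
noncomputable def l7q1_s : Sl2 l7q1 := ⟨_, fun h1 h2 => (pr_norm (pr_mul (cv7m_s.snd h1) (bx7q1_s.snd h1 h2)))⟩
noncomputable def bd7q1_s : Sl2 bd7q1 := ⟨_, fun h1 h2 => (pr_norm (pr_add (pr_subr 13089 500000 (pr_scale 13089 500000 h1)) (pr_cmul (enc_norm (enc_subr 251 400 h2)) (pr_norm (pr_subr 402097 50000 (pr_scale 402097 50000 h1))))))⟩
noncomputable def kc7q1_s : Sl2 kc7q1 := ⟨_, fun h1 h2 => (pr_norm (pr_mul (cv7m_s.snd h1) (bd7q1_s.snd h1 h2)))⟩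
noncomputable def cv7p_s : Sl1 cv7p := ⟨_, fun h1 => (pr_norm (pr_add (pr_scale 1 4 (pr_subr 1 2 (swg_s.snd h1))) (pr_scale 3 4 (c3g_s.snd h1))))⟩
noncomputable def bf7q2_s : Sl2 bf7q2 := ⟨_, fun h1 h2 => (pr_norm (pr_case (pr_subr 117 100 h1) (pr_add (pr_addc (pr_scale 40773 85000 h1) (enc_rat _ 1826521 4250000)) (pr_cmul (enc_norm (bf7q2_3.enc h1.l h2)) (pr_norm (pr_csub (enc_rat _ 71329 13600) (pr_scale 10896 2125 h1))))) (pr_case (pr_subr 133 100 h1) (pr_add (pr_csub (enc_rat _ 5583373 2000000) (pr_scale 30781 20000 h1)) (pr_cmul (enc_norm (bf7q2_3.enc h1.l h2)) (pr_norm (pr_csub (enc_rat _ 1210717 1600000) (pr_scale 4133 3200 h1))))) (pr_add (pr_csub (enc_rat _ 347957 85000) (pr_scale 8561 3400 h1)) (pr_cmul (enc_norm (bf7q2_3.enc h1.l h2)) (pr_norm (pr_subr 11754173 850000 (pr_scale 16447 1700 h1))))))))⟩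
noncomputable def kf7q2_s : Sl2 kf7q2 := ⟨_, fun h1 h2 => (pr_norm (pr_mul (cv7p_s.snd h1) (bf7q2_s.snd h1 h2)))⟩
noncomputable def bx7q2_s : Sl2 bx7q2 := ⟨_, fun h1 h2 => (pr_norm (pr_case (pr_subr 117 100 h1) (pr_add (pr_csub (enc_rat _ 1220867 8500000) (pr_scale 13543 85000 h1)) (pr_cmul (enc_norm (bx7q2_3.enc h1.l h2)) (pr_norm (pr_subr 3334117 1700000 (pr_scale 16169 8500 h1))))) (pr_case (pr_subr 133 100 h1) (pr_add (pr_csub (enc_rat _ 1572901 8000000) (pr_scale 16369 80000 h1)) (pr_cmul (enc_norm (bx7q2_3.enc h1.l h2)) (pr_norm (pr_subr 411743 400000 (pr_scale 4423 4000 h1))))) (pr_add (pr_subr 1100181 3400000 (pr_scale 31707 170000 h1)) (pr_cmul (enc_norm (bx7q2_3.enc h1.l h2)) (pr_norm (pr_csub (enc_rat _ 10062321 1700000) (pr_scale 8752 2125 h1))))))))⟩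
noncomputable def l7q2_s : Sl2 l7q2 := ⟨_, fun h1 h2 => (pr_norm (pr_mul (cv7p_s.snd h1) (bx7q2_s.snd h1 h2)))⟩
noncomputable def bd7q2_s : Sl2 bd7q2 := ⟨_, fun h1 h2 => (pr_norm (pr_add (pr_subr 53629 125000 (pr_scale 205047 500000 h1)) (pr_cmul (enc_norm (enc_subr 251 400 h2)) (pr_norm (pr_subr 50221 5000 (pr_scale 457431 50000 h1))))))⟩
noncomputable def kc7q2_s : Sl2 kc7q2 := ⟨_, fun h1 h2 => (pr_norm (pr_mul (cv7p_s.snd h1) (bd7q2_s.snd h1 h2)))⟩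
noncomputable def xc73_s : Sl1 xc73 := ⟨_, fun h1 => (pr_norm (pr_add (pr_scale 1 4 (pr_subr 1 2 (swg_s.snd (pr_nd (ycg_s.snd h1))))) (pr_scale 3 4 h1)))⟩
noncomputable def kfc73_s : Sl2 kfc73 := ⟨_, fun h1 h2 => (pr_norm (pr_mul (pr_norm (pr_add (pr_scale 1 4 (pr_subr 1 2 (swg_s.snd (pr_nd (ycg_s.snd h1))))) (pr_scale 3 4 h1))) (pr_norm (pr_case (pr_csub (enc_rat _ 489419299 500000000) h1) (pr_case (pr_csub (enc_rat _ 1033431783 1000000000) h1) (pr_add (pr_csub (enc_rat _ 23299153216237 18702023500000) (pr_scale 51427000 37404047 h1)) (pr_cmul (enc_norm (kfc73_11.enc h1.l h2)) (pr_norm (pr_subr 4059691106447 3740404700000 (pr_scale 31980000 37404047 h1))))) (pr_add (pr_csub (enc_rat _ 54249007586701 54593185000000) (pr_scale 12348400 10918637 h1)) (pr_cmul (enc_norm (kfc73_11.enc h1.l h2)) (pr_norm (pr_subr 4158527094229 5459318500000 (pr_scale 5916000 10918637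 h1)))))) (pr_case (pr_csub (enc_rat _ 403213653 500000000) h1) (pr_add (pr_csub (enc_rat _ 2018826257449 2693926437500) (pr_scale 37989500 43102823 h1)) (pr_cmul (enc_norm (kfc73_11.enc h1.l h2)) (pr_norm (pr_subr 2289659868799 8620564600000 (pr_scale 1507500 43102823 h1))))) (pr_case (pr_csub (enc_rat _ 147732867 250000000) h1) (pr_add (pr_csub (enc_rat _ 102030012547 187062359375) (pr_scale 67713500 107747919 h1)) (pr_cmul (enc_norm (kfc73_11.enc h1.l h2)) (pr_norm (pr_csub (enc_rat _ 74013545461 299299775000) (pr_scale 64760000 107747919 h1))))) (pr_sub (pr_csub (enc_rat _ 1 2) (pr_scale 81483500 147732867 h1)) (pr_cmul (enc_norm (kfc73_11.enc h1.l h2)) (pr_nd (pr_scale 8990000 49244289 h1))))))))))⟩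
noncomputable def lc73_s : Sl2 lc73 := ⟨_, fun h1 h2 => (pr_norm (pr_mul (pr_norm (pr_add (pr_scale 1 4 (pr_subr 1 2 (swg_s.snd (pr_nd (ycg_s.snd h1))))) (pr_scale 3 4 h1))) (pr_norm (pr_case (pr_csub (enc_rat _ 489419299 500000000) h1) (pr_case (pr_csub (enc_rat _ 1033431783 1000000000) h1) (pr_add (pr_csub (enc_rat _ 4082811993921 4675505875000) (pr_scale 29224000 37404047 h1)) (pr_cmul (enc_norm (lc73_11.enc h1.l h2)) (pr_norm (pr_csub (enc_rat _ 1546988032339 935101175000) (pr_scale 181150000 112212141 h1))))) (pr_add (pr_csub (enc_rat _ 12066464358501 13648296250000) (pr_scale 8645600 10918637 h1)) (pr_cmul (enc_norm (lc73_11.enc h1.l h2)) (pr_norm (pr_csub (enc_rat _ 336679175321 170603703125) (pr_scale 20998000 10918637 h1)))))) (pr_case (pr_csub (enc_rat _ 403213653 500000000) h1) (pr_add (pr_csub (enc_rat _ 40689207560593 43102823000000) (pr_scale 36767500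 43102823 h1)) (pr_cmul (enc_norm (lc73_11.enc h1.l h2)) (pr_norm (pr_csub (enc_rat _ 18092957299027 8620564600000) (pr_scale 88412500 43102823 h1))))) (pr_case (pr_csub (enc_rat _ 147732867 250000000) h1) (pr_add (pr_csub (enc_rat _ 1096916905553 1496498875000) (pr_scale 21239000 35915973 h1)) (pr_cmul (enc_norm (lc73_11.enc h1.l h2)) (pr_norm (pr_subr 32731983847 299299775000 (pr_scale 8225000 11971991 h1))))) (pr_add (pr_addc (pr_scale 100257595 295465734 h1) (enc_rat _ 18302481 100000000)) (pr_cmul (enc_norm (lc73_11.enc h1.l h2)) (pr_norm (pr_csub (enc_rat _ 43861911 20000000) (pr_scale 948237775 295465734 h1)))))))))))⟩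
noncomputable def kcc73_s : Sl2 kcc73 := ⟨_, fun h1 h2 => (pr_norm (pr_mul (pr_norm (pr_add (pr_scale 1 4 (pr_subr 1 2 (swg_s.snd (pr_nd (ycg_s.snd h1))))) (pr_scale 3 4 h1))) (pr_norm (pr_add (pr_addc (pr_scale 364522750 668292289 h1) (enc_rat _ 14963 28000)) (pr_cmul (enc_norm (enc_subr 251 400 h2)) (pr_norm (pr_subr 21401 5600 (pr_scale 10267752500 2004876867 h1))))))))⟩
noncomputable def kf8q0_s : Sl2 kf8q0 := ⟨_, fun h1 h2 => (pr_norm (pr_sub (pr_mul h1 (kcg_s.snd (pr_nd (pr_half h1)) h2)) (pr_mul (pr_norm (pr_mul (pr_nd (pr_sq h1)) (pr_norm (pr_addc (c3g_s.snd h1) (enc_rat _ 3 2))))) (pr_nd (pr_inv (pr_mul (pr_norm (pr_csub (enc_pnc _ 1) h1)) (pr_norm (pr_cadd (enc_pnc _ 1) h1))))))))⟩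
noncomputable def l8q0_6_s : Sl2 l8q0_6 := ⟨_, fun h1 h2 => (pr_half h1)⟩
noncomputable def l8q0_7_s : Sl2 l8q0_7 := ⟨_, fun h1 h2 => (pr_half (c3g_s.snd h1))⟩
noncomputable def l8q0_8_s : Sl2 l8q0_8 := ⟨_, fun h1 h2 => (pr_scale 1 4 h1)⟩
noncomputable def l8q0_s : Sl2 l8q0 := ⟨_, fun h1 h2 => (pr_norm (pr_add (txg_s.snd (pr_nd (l8q0_6_s.snd h1 h2)) (pr_norm (pr_sub (l8q0_7_s.snd h1 h2) (l8q0_8_s.snd h1 h2))) h2) (txg_s.snd (pr_nd (pr_neg (l8q0_6_s.snd h1 h2))) (pr_norm (pr_add (l8q0_7_s.snd h1 h2) (l8q0_8_s.snd h1 h2))) h2)))⟩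
noncomputable def kc8q0_6_s : Sl2 kc8q0_6 := ⟨_, fun h1 h2 => (pr_half h1)⟩
noncomputable def kc8q0_s : Sl2 kc8q0 := ⟨_, fun h1 h2 => (pr_norm (pr_case (pr_subr 1 4 (kc8q0_6_s.snd h1 h2)) (pr_case (pr_subr 13 100 (kc8q0_6_s.snd h1 h2)) (pr_add (pr_csub (enc_rat _ 2160797 1000000) (pr_scale 74657 16250 h1)) (pr_cmul (enc_norm (kc8q0_3.enc h1.l h2)) (pr_norm (pr_csub (enc_rat _ 318647 10000) (pr_scale 504749 6500 h1))))) (pr_add (pr_csub (enc_rat _ 26020103 12000000) (pr_scale 1109591 240000 h1)) (pr_cmul (enc_norm (kc8q0_3.enc h1.l h2)) (pr_norm (pr_csub (enc_rat _ 38185957 1200000) (pr_scale 1859713 24000 h1)))))) (pr_case (pr_subr 19 50 (kc8q0_6_s.snd h1 h2)) (pr_add (pr_subr 3740303 13000000 (pr_scale 75093 260000 h1)) (pr_cmul (enc_norm (kc8q0_3.enc h1.l h2)) (pr_norm (pr_subr 18490807 1300000 (pr_scale 94917 6500 h1))))) (pr_add (pr_subr 68213 240000 (pr_scale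 68213 240000 h1)) (pr_cmul (enc_norm (kc8q0_3.enc h1.l h2)) (pr_norm (pr_subr 312571 24000 (pr_scale 312571 24000 h1))))))))⟩
noncomputable def kf8q1_s : Sl2 kf8q1 := ⟨_, fun h1 h2 => (pr_norm (pr_add (pr_mul (pr_norm (pr_mul h1 (pr_norm (pr_addc (c3g_s.snd h1) (enc_rat _ 3 2))))) (pr_nd (pr_inv (pr_cadd (enc_pnc _ 1) h1)))) (pr_mul (pr_norm (pr_subn 1 h1)) (kcg_s.snd (pr_nd (pr_half h1)) h2))))⟩
noncomputable def l8q1_7_s : Sl2 l8q1_7 := ⟨_, fun h1 h2 => (pr_half h1)⟩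
noncomputable def l8q1_8_s : Sl2 l8q1_8 := ⟨_, fun h1 h2 => (pr_half (c3g_s.snd h1))⟩
noncomputable def l8q1_9_s : Sl2 l8q1_9 := ⟨_, fun h1 h2 => (pr_scale 1 4 h1)⟩
noncomputable def l8q1_s : Sl2 l8q1 := ⟨_, fun h1 h2 => (pr_norm (pr_add (txg_s.snd (pr_nd (l8q1_7_s.snd h1 h2)) (pr_norm (pr_sub (l8q1_8_s.snd h1 h2) (l8q1_9_s.snd h1 h2))) h2) (txg_s.snd (pr_nd (pr_neg (l8q1_7_s.snd h1 h2))) (pr_norm (pr_add (l8q1_8_s.snd h1 h2) (l8q1_9_s.snd h1 h2))) h2)))⟩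
noncomputable def kc8q1_7_s : Sl2 kc8q1_7 := ⟨_, fun h1 h2 => (pr_half h1)⟩
noncomputable def kc8q1_s : Sl2 kc8q1 := ⟨_, fun h1 h2 => (pr_norm (pr_case (pr_subr 1 4 (kc8q1_7_s.snd h1 h2)) (pr_case (pr_subr 13 100 (kc8q1_7_s.snd h1 h2)) (pr_add (pr_csub (enc_rat _ 2160797 1000000) (pr_scale 74657 16250 h1)) (pr_cmul (enc_norm (kc8q1_3.enc h1.l h2)) (pr_norm (pr_csub (enc_rat _ 318647 10000) (pr_scale 504749 6500 h1))))) (pr_add (pr_csub (enc_rat _ 26020103 12000000) (pr_scale 1109591 240000 h1)) (pr_cmul (enc_norm (kc8q1_3.enc h1.l h2)) (pr_norm (pr_csub (enc_rat _ 38185957 1200000) (pr_scale 1859713 24000 h1)))))) (pr_case (pr_subr 19 50 (kc8q1_7_s.snd h1 h2)) (pr_add (pr_subr 3740303 13000000 (pr_scale 75093 260000 h1)) (pr_cmul (enc_norm (kc8q1_3.enc h1.l h2)) (pr_norm (pr_subr 18490807 1300000 (pr_scale 94917 6500 h1))))) (pr_add (pr_subr 68213 240000 (pr_scale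 68213 240000 h1)) (pr_cmul (enc_norm (kc8q1_3.enc h1.l h2)) (pr_norm (pr_subr 312571 24000 (pr_scale 312571 24000 h1))))))))⟩
noncomputable def kf8q2_s : Sl2 kf8q2 := ⟨_, fun h1 h2 => (pr_norm (pr_add (pr_mul (pr_norm (pr_mul (pr_norm (pr_sub (pr_nat 2 (c3g_s.snd h1)) h1)) (pr_norm (pr_sub (pr_addc (c3g_s.snd h1) (enc_pnc _ 3)) (pr_scale 3 2 h1))))) (pr_nd (pr_inv (pr_nat 4 (pr_csub (enc_pnc _ 2) h1))))) (pr_mul (pr_norm (pr_subn 1 h1)) (kcg_s.snd (pr_norm (pr_sub (pr_scale 1 4 h1) (pr_half (c3g_s.snd h1)))) h2))))⟩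
noncomputable def l8q2_7_s : Sl2 l8q2_7 := ⟨_, fun h1 h2 => (pr_half (c3g_s.snd h1))⟩
noncomputable def l8q2_8_s : Sl2 l8q2_8 := ⟨_, fun h1 h2 => (pr_scale 1 4 h1)⟩
noncomputable def l8q2_9_s : Sl2 l8q2_9 := ⟨_, fun h1 h2 => (pr_sub (l8q2_7_s.snd h1 h2) (l8q2_8_s.snd h1 h2))⟩
noncomputable def l8q2_12_s : Sl2 l8q2_12 := ⟨_, fun h1 h2 => (pr_add (pr_scale 1 4 (c3g_s.snd h1)) (pr_scale 3 8 h1))⟩
noncomputable def l8q2_14_s : Sl2 l8q2_14 := ⟨_, fun h1 h2 => (pr_half (l8q2_9_s.snd h1 h2))⟩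
noncomputable def l8q2_s : Sl2 l8q2 := ⟨_, fun h1 h2 => (pr_norm (pr_sub (pr_nat 2 (txg_s.snd (pr_norm (pr_sub (l8q2_8_s.snd h1 h2) (l8q2_7_s.snd h1 h2))) (pr_norm (pr_add (l8q2_12_s.snd h1 h2) (l8q2_14_s.snd h1 h2))) h2)) (txg_s.snd (pr_norm (l8q2_9_s.snd h1 h2)) (pr_norm (pr_sub (l8q2_12_s.snd h1 h2) (l8q2_14_s.snd h1 h2))) h2)))⟩
noncomputable def kc8q2_9_s : Sl2 kc8q2_9 := ⟨_, fun h1 h2 => (pr_sub (pr_half (c3g_s.snd h1)) (pr_scale 1 4 h1))⟩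
noncomputable def kc8q2_s : Sl2 kc8q2 := ⟨_, fun h1 h2 => (pr_norm (pr_case (pr_addc (kc8q2_9_s.snd h1 h2) (enc_rat _ 7 100)) (pr_case (pr_addc (kc8q2_9_s.snd h1 h2) (enc_rat _ 9 25)) (pr_add (pr_addc (pr_scale 14963 14000 (kc8q2_9_s.snd h1 h2)) (enc_rat _ 14963 28000)) (pr_cmul (enc_norm (kc8q2_3.enc h1.l h2)) (pr_norm (pr_subr 21401 5600 (pr_neg (pr_scale 21401 2800 (kc8q2_9_s.snd h1 h2))))))) (pr_case (pr_addc (kc8q2_9_s.snd h1 h2) (enc_rat _ 21 100)) (pr_add (pr_addc (pr_scale 148831 150000 (kc8q2_9_s.snd h1 h2)) (enc_rat _ 1267061 2500000)) (pr_cmul (enc_norm (kc8q2_3.enc h1.l h2)) (pr_norm (pr_addc (pr_scale 13649 3750 (kc8q2_9_s.snd h1 h2)) (enc_rat _ 120127 500000))))) (pr_add (pr_addc (pr_scale 117139 140000 (kc8q2_9_s.snd h1 h2)) (enc_rat _ 948339 2000000)) (pr_cmul (enc_norm (kc8q2_3.enc h1.l h2)) (pr_norm (pr_addc (pr_scale 69557 14000 (kc8q2_9_s.snd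 h1 h2)) (enc_rat _ 103853 200000))))))) (pr_case (pr_subr 21 100 (kc8q2_9_s.snd h1 h2)) (pr_case (pr_subr 7 100 (kc8q2_9_s.snd h1 h2)) (pr_add (pr_addc (pr_scale 22283 28000 (kc8q2_9_s.snd h1 h2)) (enc_rat _ 188523 400000)) (pr_cmul (enc_norm (kc8q2_3.enc h1.l h2)) (pr_norm (pr_addc (pr_scale 60483 7000 (kc8q2_9_s.snd h1 h2)) (enc_rat _ 77631 100000))))) (pr_add (pr_csub (enc_rat _ 644459 1000000) (pr_scale 29361 17500 (kc8q2_9_s.snd h1 h2))) (pr_cmul (enc_norm (kc8q2_3.enc h1.l h2)) (pr_norm (pr_addc (pr_scale 5439 500 (kc8q2_9_s.snd h1 h2)) (enc_rat _ 3873 6250)))))) (pr_case (pr_subr 9 25 (kc8q2_9_s.snd h1 h2)) (pr_add (pr_csub (enc_rat _ 1610137 2500000) (pr_scale 251377 150000 (kc8q2_9_s.snd h1 h2))) (pr_cmul (enc_norm (kc8q2_3.enc h1.l h2)) (pr_norm (pr_csub (enc_rat _ 542099 125000) (pr_scale 51169 7500 (kc8q2_9_s.snd h1 h2)))))) (pr_add (pr_csub (enc_rat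 _ 163 1120) (pr_scale 163 560 (kc8q2_9_s.snd h1 h2))) (pr_cmul (enc_norm (kc8q2_3.enc h1.l h2)) (pr_norm (pr_csub (enc_rat _ 47017 7000) (pr_scale 47017 3500 (kc8q2_9_s.snd h1 h2))))))))))⟩
noncomputable def kfc83_s : Sl2 kfc83 := ⟨_, fun h1 h2 => (pr_norm (pr_sub (pr_mul (pr_norm (pr_subn 2 (ycg_s.snd h1))) (kcg_s.snd (pr_norm (pr_sub (pr_scale 1 4 (ycg_s.snd h1)) (pr_half h1))) h2)) (pr_mul (pr_norm (pr_mul (pr_norm (pr_sub (pr_nat 2 h1) (ycg_s.snd h1))) (pr_norm (pr_sub (pr_addc h1 (enc_pnc _ 3)) (pr_scale 3 2 (ycg_s.snd h1)))))) (pr_nd (pr_inv (pr_nat 4 (pr_subn 1 (ycg_s.snd h1))))))))⟩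
noncomputable def lc83_7_s : Sl2 lc83_7 := ⟨_, fun h1 h2 => (pr_half h1)⟩
noncomputable def lc83_8_s : Sl2 lc83_8 := ⟨_, fun h1 h2 => (pr_scale 1 4 (ycg_s.snd h1))⟩
noncomputable def lc83_9_s : Sl2 lc83_9 := ⟨_, fun h1 h2 => (pr_sub (lc83_7_s.snd h1 h2) (lc83_8_s.snd h1 h2))⟩
noncomputable def lc83_12_s : Sl2 lc83_12 := ⟨_, fun h1 h2 => (pr_add (pr_scale 1 4 h1) (pr_scale 3 8 (ycg_s.snd h1)))⟩
noncomputable def lc83_14_s : Sl2 lc83_14 := ⟨_, fun h1 h2 => (pr_half (lc83_9_s.snd h1 h2))⟩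
noncomputable def lc83_s : Sl2 lc83 := ⟨_, fun h1 h2 => (pr_norm (pr_sub (pr_nat 2 (txg_s.snd (pr_norm (pr_sub (lc83_8_s.snd h1 h2) (lc83_7_s.snd h1 h2))) (pr_norm (pr_add (lc83_12_s.snd h1 h2) (lc83_14_s.snd h1 h2))) h2)) (txg_s.snd (pr_norm (lc83_9_s.snd h1 h2)) (pr_norm (pr_sub (lc83_12_s.snd h1 h2) (lc83_14_s.snd h1 h2))) h2)))⟩
noncomputable def kcc83_9_s : Sl2 kcc83_9 := ⟨_, fun h1 h2 => (pr_sub (pr_half h1) (pr_scale 1 4 (ycg_s.snd h1)))⟩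
noncomputable def kcc83_s : Sl2 kcc83 := ⟨_, fun h1 h2 => (pr_norm (pr_case (pr_addc (kcc83_9_s.snd h1 h2) (enc_rat _ 7 100)) (pr_case (pr_addc (kcc83_9_s.snd h1 h2) (enc_rat _ 9 25)) (pr_add (pr_addc (pr_scale 14963 14000 (kcc83_9_s.snd h1 h2)) (enc_rat _ 14963 28000)) (pr_cmul (enc_norm (kcc83_4.enc h1.l h2)) (pr_norm (pr_subr 21401 5600 (pr_neg (pr_scale 21401 2800 (kcc83_9_s.snd h1 h2))))))) (pr_case (pr_addc (kcc83_9_s.snd h1 h2) (enc_rat _ 21 100)) (pr_add (pr_addc (pr_scale 148831 150000 (kcc83_9_s.snd h1 h2)) (enc_rat _ 1267061 2500000)) (pr_cmul (enc_norm (kcc83_4.enc h1.l h2)) (pr_norm (pr_addc (pr_scale 13649 3750 (kcc83_9_s.snd h1 h2)) (enc_rat _ 120127 500000))))) (pr_add (pr_addc (pr_scale 117139 140000 (kcc83_9_s.snd h1 h2)) (enc_rat _ 948339 2000000)) (pr_cmul (enc_norm (kcc83_4.enc h1.l h2)) (pr_norm (pr_addc (pr_scale 69557 14000 (kcc83_9_s.snd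 h1 h2)) (enc_rat _ 103853 200000))))))) (pr_case (pr_subr 21 100 (kcc83_9_s.snd h1 h2)) (pr_case (pr_subr 7 100 (kcc83_9_s.snd h1 h2)) (pr_add (pr_addc (pr_scale 22283 28000 (kcc83_9_s.snd h1 h2)) (enc_rat _ 188523 400000)) (pr_cmul (enc_norm (kcc83_4.enc h1.l h2)) (pr_norm (pr_addc (pr_scale 60483 7000 (kcc83_9_s.snd h1 h2)) (enc_rat _ 77631 100000))))) (pr_add (pr_csub (enc_rat _ 644459 1000000) (pr_scale 29361 17500 (kcc83_9_s.snd h1 h2))) (pr_cmul (enc_norm (kcc83_4.enc h1.l h2)) (pr_norm (pr_addc (pr_scale 5439 500 (kcc83_9_s.snd h1 h2)) (enc_rat _ 3873 6250)))))) (pr_case (pr_subr 9 25 (kcc83_9_s.snd h1 h2)) (pr_add (pr_csub (enc_rat _ 1610137 2500000) (pr_scale 251377 150000 (kcc83_9_s.snd h1 h2))) (pr_cmul (enc_norm (kcc83_4.enc h1.l h2)) (pr_norm (pr_csub (enc_rat _ 542099 125000) (pr_scale 51169 7500 (kcc83_9_s.snd h1 h2)))))) (pr_add (pr_csub (enc_rat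 _ 163 1120) (pr_scale 163 560 (kcc83_9_s.snd h1 h2))) (pr_cmul (enc_norm (kcc83_4.enc h1.l h2)) (pr_norm (pr_csub (enc_rat _ 47017 7000) (pr_scale 47017 3500 (kcc83_9_s.snd h1 h2))))))))))⟩
noncomputable def gB0q0 : Gn := ⟨ndB0q0, c1g_s, kf0q0_s, l0q0_s, false⟩
noncomputable def dB0q0 : CnW := ⟨cd0q0, kc0q0_s⟩
noncomputable def gB0q1 : Gn := ⟨ndB0q1, c1g_s, kf0q1_s, l0q1_s, false⟩
noncomputable def dB0q1 : CnW := ⟨cd0q1, kc0q1_s⟩
noncomputable def gB0q2 : Gn := ⟨ndB0q2, idf_s, kfc02_s, lc02_s, true⟩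
noncomputable def dB0q2 : CnW := ⟨cd0q2, kcc02_s⟩
noncomputable def gB1q0 : Gn := ⟨ndB1q0, cv1m_s, kf1q0_s, l1q0_s, false⟩
noncomputable def dB1q0 : CnW := ⟨cd1q0, kc1q0_s⟩
noncomputable def gB1q1 : Gn := ⟨ndB1q1, cv1m_s, kf1q1_s, l1q1_s, false⟩
noncomputable def dB1q1 : CnW := ⟨cd1q1, kc1q1_s⟩
noncomputable def gB1q2 : Gn := ⟨ndB1q2, cv1p_s, kf1q2_s, l1q2_s, false⟩
noncomputable def dB1q2 : CnW := ⟨cd1q2, kc1q2_s⟩
noncomputable def gB1q3 : Gn := ⟨ndB1q3, cv1r_s, kf1q3_s, l1q3_s, false⟩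
noncomputable def dB1q3 : CnW := ⟨cd1q3, kc1q3_s⟩
noncomputable def gB2q0 : Gn := ⟨ndB2q0, cv2m_s, kf2q0_s, l2q0_s, false⟩
noncomputable def dB2q0 : CnW := ⟨cd2q0, kc2q0_s⟩
noncomputable def gB2q1 : Gn := ⟨ndB2q1, cv2m_s, kf2q1_s, l2q1_s, false⟩
noncomputable def dB2q1 : CnW := ⟨cd2q1, kc2q1_s⟩
noncomputable def gB2q2 : Gn := ⟨ndB2q2, cv2p_s, kf2q2_s, l2q2_s, false⟩
noncomputable def dB2q2 : CnW := ⟨cd2q2, kc2q2_s⟩
noncomputable def gB2q3 : Gn := ⟨ndB2q3, cv2r_s, kf2q3_s, l2q3_s, false⟩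
noncomputable def dB2q3 : CnW := ⟨cd2q3, kc2q3_s⟩
noncomputable def gB3q0 : Gn := ⟨ndB3q0, cv3m_s, kf3q0_s, l3q0_s, false⟩
noncomputable def dB3q0 : CnW := ⟨cd3q0, kc3q0_s⟩
noncomputable def gB3q1 : Gn := ⟨ndB3q1, cv3m_s, kf3q1_s, l3q1_s, false⟩
noncomputable def dB3q1 : CnW := ⟨cd3q1, kc3q1_s⟩
noncomputable def gB3q2 : Gn := ⟨ndB3q2, cv3p_s, kf3q2_s, l3q2_s, false⟩
noncomputable def dB3q2 : CnW := ⟨cd3q2, kc3q2_s⟩
noncomputable def gB3q3 : Gn := ⟨ndB3q3, cv3r_s, kf3q3_s, l3q3_s, false⟩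
noncomputable def dB3q3 : CnW := ⟨cd3q3, kc3q3_s⟩
noncomputable def gB4q0 : Gn := ⟨ndB4q0, cv4m_s, kf4q0_s, l4q0_s, false⟩
noncomputable def dB4q0 : CnW := ⟨cd4q0, kc4q0_s⟩
noncomputable def gB4q1 : Gn := ⟨ndB4q1, cv4m_s, kf4q1_s, l4q1_s, false⟩
noncomputable def dB4q1 : CnW := ⟨cd4q1, kc4q1_s⟩
noncomputable def gB4q2 : Gn := ⟨ndB4q2, cv4p_s, kf4q2_s, l4q2_s, false⟩
noncomputable def dB4q2 : CnW := ⟨cd4q2, kc4q2_s⟩
noncomputable def gB4q3 : Gn := ⟨ndB4q3, cv4r_s, kf4q3_s, l4q3_s, false⟩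
noncomputable def dB4q3 : CnW := ⟨cd4q3, kc4q3_s⟩
noncomputable def gB5q0 : Gn := ⟨ndB5q0, cv5m_s, kf5q0_s, l5q0_s, false⟩
noncomputable def dB5q0 : CnW := ⟨cd5q0, kc5q0_s⟩
noncomputable def gB5q1 : Gn := ⟨ndB5q1, cv5m_s, kf5q1_s, l5q1_s, false⟩
noncomputable def dB5q1 : CnW := ⟨cd5q1, kc5q1_s⟩
noncomputable def gB5q2 : Gn := ⟨ndB5q2, cv5p_s, kf5q2_s, l5q2_s, false⟩
noncomputable def dB5q2 : CnW := ⟨cd5q2, kc5q2_s⟩
noncomputable def gB5q3 : Gn := ⟨ndB5q3, xc53_s, kfc53_s, lc53_s, false⟩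
noncomputable def dB5q3 : CnW := ⟨cd5q3, kcc53_s⟩
noncomputable def gB6q0 : Gn := ⟨ndB6q0, cv6m_s, kf6q0_s, l6q0_s, false⟩
noncomputable def dB6q0 : CnW := ⟨cd6q0, kc6q0_s⟩
noncomputable def gB6q1 : Gn := ⟨ndB6q1, cv6m_s, kf6q1_s, l6q1_s, false⟩
noncomputable def dB6q1 : CnW := ⟨cd6q1, kc6q1_s⟩
noncomputable def gB6q2 : Gn := ⟨ndB6q2, cv6p_s, kf6q2_s, l6q2_s, false⟩
noncomputable def dB6q2 : CnW := ⟨cd6q2, kc6q2_s⟩
noncomputable def gB6q3 : Gn := ⟨ndB6q3, xc63_s, kfc63_s, lc63_s, false⟩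
noncomputable def dB6q3 : CnW := ⟨cd6q3, kcc63_s⟩
noncomputable def gB7q0 : Gn := ⟨ndB7q0, cv7m_s, kf7q0_s, l7q0_s, false⟩
noncomputable def dB7q0 : CnW := ⟨cd7q0, kc7q0_s⟩
noncomputable def gB7q1 : Gn := ⟨ndB7q1, cv7m_s, kf7q1_s, l7q1_s, false⟩
noncomputable def dB7q1 : CnW := ⟨cd7q1, kc7q1_s⟩
noncomputable def gB7q2 : Gn := ⟨ndB7q2, cv7p_s, kf7q2_s, l7q2_s, false⟩
noncomputable def dB7q2 : CnW := ⟨cd7q2, kc7q2_s⟩
noncomputable def gB7q3 : Gn := ⟨ndB7q3, xc73_s, kfc73_s, lc73_s, false⟩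
noncomputable def dB7q3 : CnW := ⟨cd7q3, kcc73_s⟩
noncomputable def gB8q0 : Gn := ⟨ndB8q0, c3g_s, kf8q0_s, l8q0_s, false⟩
noncomputable def dB8q0 : CnW := ⟨cd8q0, kc8q0_s⟩
noncomputable def gB8q1 : Gn := ⟨ndB8q1, c3g_s, kf8q1_s, l8q1_s, false⟩
noncomputable def dB8q1 : CnW := ⟨cd8q1, kc8q1_s⟩
noncomputable def gB8q2 : Gn := ⟨ndB8q2, c3g_s, kf8q2_s, l8q2_s, false⟩
noncomputable def dB8q2 : CnW := ⟨cd8q2, kc8q2_s⟩
noncomputable def gB8q3 : Gn := ⟨ndB8q3, idf_s, kfc83_s, lc83_s, false⟩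
noncomputable def dB8q3 : CnW := ⟨cd8q3, kcc83_s⟩
noncomputable def gB0q3 : Gn := gz
noncomputable def dB0q3 : CnW := ⟨fz2, fz2_s⟩
noncomputable def gB (j : Fin 9) (q : ℕ) : Gn :=
  match j, q with
  | 0, 0 => gB0q0
  | 0, 1 => gB0q1
  | 0, 2 => gB0q2
  | 0, 3 => gB0q3
  | 1, 0 => gB1q0
  | 1, 1 => gB1q1
  | 1, 2 => gB1q2
  | 1, 3 => gB1q3
  | 2, 0 => gB2q0
  | 2, 1 => gB2q1
  | 2, 2 => gB2q2
  | 2, 3 => gB2q3
  | 3, 0 => gB3q0
  | 3, 1 => gB3q1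
  | 3, 2 => gB3q2
  | 3, 3 => gB3q3
  | 4, 0 => gB4q0
  | 4, 1 => gB4q1
  | 4, 2 => gB4q2
  | 4, 3 => gB4q3
  | 5, 0 => gB5q0
  | 5, 1 => gB5q1
  | 5, 2 => gB5q2
  | 5, 3 => gB5q3
  | 6, 0 => gB6q0
  | 6, 1 => gB6q1
  | 6, 2 => gB6q2
  | 6, 3 => gB6q3
  | 7, 0 => gB7q0
  | 7, 1 => gB7q1
  | 7, 2 => gB7q2
  | 7, 3 => gB7q3
  | 8, 0 => gB8q0
  | 8, 1 => gB8q1
  | 8, 2 => gB8q2
  | 8, 3 => gB8q3
  | _, _ => gB0q0

noncomputable def dB (j : Fin 9) (q : ℕ) : CnW :=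
  match j, q with
  | 0, 0 => dB0q0
  | 0, 1 => dB0q1
  | 0, 2 => dB0q2
  | 0, 3 => dB0q3
  | 1, 0 => dB1q0
  | 1, 1 => dB1q1
  | 1, 2 => dB1q2
  | 1, 3 => dB1q3
  | 2, 0 => dB2q0
  | 2, 1 => dB2q1
  | 2, 2 => dB2q2
  | 2, 3 => dB2q3
  | 3, 0 => dB3q0
  | 3, 1 => dB3q1
  | 3, 2 => dB3q2
  | 3, 3 => dB3q3
  | 4, 0 => dB4q0
  | 4, 1 => dB4q1
  | 4, 2 => dB4q2
  | 4, 3 => dB4q3
  | 5, 0 => dB5q0
  | 5, 1 => dB5q1
  | 5, 2 => dB5q2
  | 5, 3 => dB5q3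
  | 6, 0 => dB6q0
  | 6, 1 => dB6q1
  | 6, 2 => dB6q2
  | 6, 3 => dB6q3
  | 7, 0 => dB7q0
  | 7, 1 => dB7q1
  | 7, 2 => dB7q2
  | 7, 3 => dB7q3
  | 8, 0 => dB8q0
  | 8, 1 => dB8q1
  | 8, 2 => dB8q2
  | 8, 3 => dB8q3
  | _, _ => dB0q0

noncomputable def c0B : Fn1 := ⟨fun _ => pone, fun _ => 1, fun _ => enc_one _⟩

end Pool.Agent.Strip051.G.I6050_6500.Tab
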