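import Pool.Agent.Strip051.G.I6050_6500.StH
import Pool.Agent.Strip051.G.I6050_6500.StF

/-! # Unit strips 0 (generated) -/

set_option linter.all false
set_option maxRecDepth 100000

namespace Pool.Agent.Strip051.G.I6050_6500.Tab.St.C

open Pool.Agent.Strip051.PB Pool.Agent.Strip051.PB.T Pool.Agent.StripNear Pool.Agent.Strip051.LC
open Pool.Agent.Strip051.G.I6050_6500.Tab Pool.Agent.Strip051.G.I6050_6500.Tab.St

noncomputable def cut_A00pm_012_s1 : Cut := Cut.of [[⟨4, 0, 0, 1449551462⟩], [⟨0, 0, 0, 33554432⟩, ⟨1, 1, 0, 33554432⟩, ⟨2, 1, 0, 33554432⟩]]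

noncomputable def xt_A00pm_012_s1 : Ext := strExt6 dd true true false .u0 .u0m .u2 .pnp 0 1 2 rfl rfl gf2 vv ww ndB0q0 ndB0q1

noncomputable def f_A00pm_012_s1 : ℕ → ℕ → ℕ → ℕ → Bool := onCell 0 536870912 1073741824 536870912 649613803 48318383
    (rowF 1 true true false .pnp 0 1 2 (qsf 0 536870912 536870912 536870912 2) ndB0q0 ndB0q1 pcB2 cut_A00pm_012_s1 xt_A00pm_012_s1)

end Pool.Agent.Strip051.G.I6050_6500.Tab.St.C
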