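import Pool.Agent.Strip051.G.I6050_6500.St9
import Pool.Agent.Strip051.G.I6050_6500.St10
import Pool.Agent.Strip051.G.I6050_6500.St11
import Pool.Agent.Strip051.G.I6050_6500.St12
import Pool.Agent.Strip051.G.I6050_6500.StH
import Pool.Agent.Strip051.G.I6050_6500.StF

/-! # Unit strips 13 (generated) -/

set_option linter.all false
set_option maxRecDepth 100000

namespace Pool.Agent.Strip051.G.I6050_6500.Tab.St.C

open Pool.Agent.Strip051.PB Pool.Agent.Strip051.PB.T Pool.Agent.StripNear Pool.Agent.Strip051.LC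
open Pool.Agent.Strip051.G.I6050_6500.Tab Pool.Agent.Strip051.G.I6050_6500.Tab.St

theorem t410_A00pm_102_s1 : ∃ t, chk3 f_A00pm_102_s1 t 6 6 1 = true := ex3_a k406_A00pm_102_s1 k407_A00pm_102_s1

theorem t411_A00pm_102_s1 : ∃ t, chk3 f_A00pm_102_s1 t 6 3 1 = true := ex3_b t410_A00pm_102_s1 k408_A00pm_102_s1

theorem t412_A00pm_102_s1 : ∃ t, chk3 f_A00pm_102_s1 t 3 3 1 = true := ex3_a t411_A00pm_102_s1 k409_A00pm_102_s1

theorem t413_A00pm_102_s1 : ∃ t, chk3 f_A00pm_102_s1 t 7 21 1 = true := ex3_b k403_A00pm_102_s1 k404_A00pm_102_s1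

theorem t414_A00pm_102_s1 : ∃ t, chk3 f_A00pm_102_s1 t 15 83 1 = true := ex3_a k401_A00pm_102_s1 k402_A00pm_102_s1

theorem t415_A00pm_102_s1 : ∃ t, chk3 f_A00pm_102_s1 t 15 41 1 = true := ex3_b k400_A00pm_102_s1 t414_A00pm_102_s1

theorem t416_A00pm_102_s1 : ∃ t, chk3 f_A00pm_102_s1 t 14 670 1 = true := ex3_b k397_A00pm_102_s1 k398_A00pm_102_s1

theorem t417_A00pm_102_s1 : ∃ t, chk3 f_A00pm_102_s1 t 14 335 1 = true := ex3_b t416_A00pm_102_s1 k399_A00pm_102_s1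

theorem t418_A00pm_102_s1 : ∃ t, chk3 f_A00pm_102_s1 t 14 167 1 = true := ex3_b k396_A00pm_102_s1 t417_A00pm_102_s1

theorem t419_A00pm_102_s1 : ∃ t, chk3 f_A00pm_102_s1 t 14 83 1 = true := ex3_b k395_A00pm_102_s1 t418_A00pm_102_s1

theorem t420_A00pm_102_s1 : ∃ t, chk3 f_A00pm_102_s1 t 28 82 1 = true := ex3_a k392_A00pm_102_s1 k393_A00pm_102_s1

theorem t421_A00pm_102_s1 : ∃ t, chk3 f_A00pm_102_s1 t 14 82 1 = true := ex3_a t420_A00pm_102_s1 k394_A00pm_102_s1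

theorem t422_A00pm_102_s1 : ∃ t, chk3 f_A00pm_102_s1 t 14 41 1 = true := ex3_b t421_A00pm_102_s1 t419_A00pm_102_s1

theorem t423_A00pm_102_s1 : ∃ t, chk3 f_A00pm_102_s1 t 7 41 1 = true := ex3_a t422_A00pm_102_s1 t415_A00pm_102_s1

theorem t424_A00pm_102_s1 : ∃ t, chk3 f_A00pm_102_s1 t 113 81 1 = true := ex3_b k387_A00pm_102_s1 k388_A00pm_102_s1

theorem t425_A00pm_102_s1 : ∃ t, chk3 f_A00pm_102_s1 t 56 81 1 = true := ex3_a k386_A00pm_102_s1 t424_A00pm_102_s1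

theorem t426_A00pm_102_s1 : ∃ t, chk3 f_A00pm_102_s1 t 28 81 1 = true := ex3_a t425_A00pm_102_s1 k389_A00pm_102_s1

theorem t427_A00pm_102_s1 : ∃ t, chk3 f_A00pm_102_s1 t 57 80 1 = true := ex3_b k384_A00pm_102_s1 k385_A00pm_102_s1

theorem t428_A00pm_102_s1 : ∃ t, chk3 f_A00pm_102_s1 t 28 80 1 = true := ex3_a k383_A00pm_102_s1 t427_A00pm_102_s1

theorem t429_A00pm_102_s1 : ∃ t, chk3 f_A00pm_102_s1 t 28 40 1 = true := ex3_b t428_A00pm_102_s1 t426_A00pm_102_s1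

theorem t430_A00pm_102_s1 : ∃ t, chk3 f_A00pm_102_s1 t 14 40 1 = true := ex3_a t429_A00pm_102_s1 k390_A00pm_102_s1

theorem t431_A00pm_102_s1 : ∃ t, chk3 f_A00pm_102_s1 t 7 40 1 = true := ex3_a t430_A00pm_102_s1 k391_A00pm_102_s1

theorem t432_A00pm_102_s1 : ∃ t, chk3 f_A00pm_102_s1 t 7 20 1 = true := ex3_b t431_A00pm_102_s1 t423_A00pm_102_s1

theorem t433_A00pm_102_s1 : ∃ t, chk3 f_A00pm_102_s1 t 7 10 1 = true := ex3_b t432_A00pm_102_s1 t413_A00pm_102_s1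

theorem t434_A00pm_102_s1 : ∃ t, chk3 f_A00pm_102_s1 t 7 5 1 = true := ex3_b t433_A00pm_102_s1 k405_A00pm_102_s1

theorem t435_A00pm_102_s1 : ∃ t, chk3 f_A00pm_102_s1 t 13 11 1 = true := ex3_a k381_A00pm_102_s1 k382_A00pm_102_s1

theorem t436_A00pm_102_s1 : ∃ t, chk3 f_A00pm_102_s1 t 6 11 1 = true := ex3_a k380_A00pm_102_s1 t435_A00pm_102_s1

theorem t437_A00pm_102_s1 : ∃ t, chk3 f_A00pm_102_s1 t 13 21 1 = true := ex3_a k378_A00pm_102_s1 k379_A00pm_102_s1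

theorem t438_A00pm_102_s1 : ∃ t, chk3 f_A00pm_102_s1 t 6 21 1 = true := ex3_a k377_A00pm_102_s1 t437_A00pm_102_s1

theorem t439_A00pm_102_s1 : ∃ t, chk3 f_A00pm_102_s1 t 13 2681 1 = true := ex3_b k373_A00pm_102_s1 k374_A00pm_102_s1

theorem t440_A00pm_102_s1 : ∃ t, chk3 f_A00pm_102_s1 t 13 1340 1 = true := ex3_b k372_A00pm_102_s1 t439_A00pm_102_s1

theorem t441_A00pm_102_s1 : ∃ t, chk3 f_A00pm_102_s1 t 13 670 1 = true := ex3_b t440_A00pm_102_s1 k375_A00pm_102_s1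

theorem t442_A00pm_102_s1 : ∃ t, chk3 f_A00pm_102_s1 t 13 335 1 = true := ex3_b t441_A00pm_102_s1 k376_A00pm_102_s1

theorem t443_A00pm_102_s1 : ∃ t, chk3 f_A00pm_102_s1 t 13 167 1 = true := ex3_b k371_A00pm_102_s1 t442_A00pm_102_s1

theorem t444_A00pm_102_s1 : ∃ t, chk3 f_A00pm_102_s1 t 13 83 1 = true := ex3_b k370_A00pm_102_s1 t443_A00pm_102_s1

theorem t445_A00pm_102_s1 : ∃ t, chk3 f_A00pm_102_s1 t 25 167 1 = true := ex3_b k368_A00pm_102_s1 k369_A00pm_102_s1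

theorem t446_A00pm_102_s1 : ∃ t, chk3 f_A00pm_102_s1 t 24 670 1 = true := ex3_b k365_A00pm_102_s1 k366_A00pm_102_s1

theorem t447_A00pm_102_s1 : ∃ t, chk3 f_A00pm_102_s1 t 24 335 1 = true := ex3_b t446_A00pm_102_s1 k367_A00pm_102_s1

theorem t448_A00pm_102_s1 : ∃ t, chk3 f_A00pm_102_s1 t 24 167 1 = true := ex3_b k364_A00pm_102_s1 t447_A00pm_102_s1

theorem t449_A00pm_102_s1 : ∃ t, chk3 f_A00pm_102_s1 t 12 167 1 = true := ex3_a t448_A00pm_102_s1 t445_A00pm_102_s1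

theorem t450_A00pm_102_s1 : ∃ t, chk3 f_A00pm_102_s1 t 48 166 1 = true := ex3_b k360_A00pm_102_s1 k361_A00pm_102_s1

theorem t451_A00pm_102_s1 : ∃ t, chk3 f_A00pm_102_s1 t 24 166 1 = true := ex3_a t450_A00pm_102_s1 k362_A00pm_102_s1

theorem t452_A00pm_102_s1 : ∃ t, chk3 f_A00pm_102_s1 t 12 166 1 = true := ex3_a t451_A00pm_102_s1 k363_A00pm_102_s1

theorem t453_A00pm_102_s1 : ∃ t, chk3 f_A00pm_102_s1 t 12 83 1 = true := ex3_b t452_A00pm_102_s1 t449_A00pm_102_s1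

theorem t454_A00pm_102_s1 : ∃ t, chk3 f_A00pm_102_s1 t 6 83 1 = true := ex3_a t453_A00pm_102_s1 t444_A00pm_102_s1

theorem t455_A00pm_102_s1 : ∃ t, chk3 f_A00pm_102_s1 t 26 82 1 = true := ex3_b k357_A00pm_102_s1 k358_A00pm_102_s1

theorem t456_A00pm_102_s1 : ∃ t, chk3 f_A00pm_102_s1 t 13 82 1 = true := ex3_a t455_A00pm_102_s1 k359_A00pm_102_s1

theorem t457_A00pm_102_s1 : ∃ t, chk3 f_A00pm_102_s1 t 50 165 1 = true := ex3_b k354_A00pm_102_s1 k355_A00pm_102_s1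

theorem t458_A00pm_102_s1 : ∃ t, chk3 f_A00pm_102_s1 t 25 165 1 = true := ex3_a t457_A00pm_102_s1 k356_A00pm_102_s1

theorem t459_A00pm_102_s1 : ∃ t, chk3 f_A00pm_102_s1 t 25 164 1 = true := ex3_a k352_A00pm_102_s1 k353_A00pm_102_s1

theorem t460_A00pm_102_s1 : ∃ t, chk3 f_A00pm_102_s1 t 25 82 1 = true := ex3_b t459_A00pm_102_s1 t458_A00pm_102_s1

theorem t461_A00pm_102_s1 : ∃ t, chk3 f_A00pm_102_s1 t 49 165 1 = true := ex3_b k350_A00pm_102_s1 k351_A00pm_102_s1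

theorem t462_A00pm_102_s1 : ∃ t, chk3 f_A00pm_102_s1 t 24 165 1 = true := ex3_a k349_A00pm_102_s1 t461_A00pm_102_s1

theorem t463_A00pm_102_s1 : ∃ t, chk3 f_A00pm_102_s1 t 24 164 1 = true := ex3_c k347_A00pm_102_s1 k348_A00pm_102_s1

theorem t464_A00pm_102_s1 : ∃ t, chk3 f_A00pm_102_s1 t 24 82 1 = true := ex3_b t463_A00pm_102_s1 t462_A00pm_102_s1

theorem t465_A00pm_102_s1 : ∃ t, chk3 f_A00pm_102_s1 t 12 82 1 = true := ex3_a t464_A00pm_102_s1 t460_A00pm_102_s1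

theorem t466_A00pm_102_s1 : ∃ t, chk3 f_A00pm_102_s1 t 6 82 1 = true := ex3_a t465_A00pm_102_s1 t456_A00pm_102_s1

theorem t467_A00pm_102_s1 : ∃ t, chk3 f_A00pm_102_s1 t 6 41 1 = true := ex3_b t466_A00pm_102_s1 t454_A00pm_102_s1

theorem t468_A00pm_102_s1 : ∃ t, chk3 f_A00pm_102_s1 t 27 81 1 = true := ex3_a k345_A00pm_102_s1 k346_A00pm_102_s1

theorem t469_A00pm_102_s1 : ∃ t, chk3 f_A00pm_102_s1 t 54 80 1 = true := ex3_a k342_A00pm_102_s1 k343_A00pm_102_s1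

theorem t470_A00pm_102_s1 : ∃ t, chk3 f_A00pm_102_s1 t 27 80 1 = true := ex3_a t469_A00pm_102_s1 k344_A00pm_102_s1

theorem t471_A00pm_102_s1 : ∃ t, chk3 f_A00pm_102_s1 t 27 40 1 = true := ex3_b t470_A00pm_102_s1 t468_A00pm_102_s1

theorem t472_A00pm_102_s1 : ∃ t, chk3 f_A00pm_102_s1 t 26 81 1 = true := ex3_a k340_A00pm_102_s1 k341_A00pm_102_s1

theorem t473_A00pm_102_s1 : ∃ t, chk3 f_A00pm_102_s1 t 53 80 1 = true := ex3_b k338_A00pm_102_s1 k339_A00pm_102_s1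

theorem t474_A00pm_102_s1 : ∃ t, chk3 f_A00pm_102_s1 t 26 80 1 = true := ex3_a k337_A00pm_102_s1 t473_A00pm_102_s1

theorem t475_A00pm_102_s1 : ∃ t, chk3 f_A00pm_102_s1 t 26 40 1 = true := ex3_b t474_A00pm_102_s1 t472_A00pm_102_s1

theorem t476_A00pm_102_s1 : ∃ t, chk3 f_A00pm_102_s1 t 13 40 1 = true := ex3_a t475_A00pm_102_s1 t471_A00pm_102_s1

theorem t477_A00pm_102_s1 : ∃ t, chk3 f_A00pm_102_s1 t 50 81 1 = true := ex3_b k334_A00pm_102_s1 k335_A00pm_102_s1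

theorem t478_A00pm_102_s1 : ∃ t, chk3 f_A00pm_102_s1 t 25 81 1 = true := ex3_a t477_A00pm_102_s1 k336_A00pm_102_s1

theorem t479_A00pm_102_s1 : ∃ t, chk3 f_A00pm_102_s1 t 51 160 1 = true := ex3_a k331_A00pm_102_s1 k332_A00pm_102_s1

theorem t480_A00pm_102_s1 : ∃ t, chk3 f_A00pm_102_s1 t 51 80 1 = true := ex3_b t479_A00pm_102_s1 k333_A00pm_102_s1

theorem t481_A00pm_102_s1 : ∃ t, chk3 f_A00pm_102_s1 t 201 646 1 = true := ex3_b k327_A00pm_102_s1 k328_A00pm_102_s1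

theorem t482_A00pm_102_s1 : ∃ t, chk3 f_A00pm_102_s1 t 201 323 1 = true := ex3_b t481_A00pm_102_s1 k329_A00pm_102_s1

theorem t483_A00pm_102_s1 : ∃ t, chk3 f_A00pm_102_s1 t 100 323 1 = true := ex3_a k326_A00pm_102_s1 t482_A00pm_102_s1

theorem t484_A00pm_102_s1 : ∃ t, chk3 f_A00pm_102_s1 t 50 323 1 = true := ex3_a t483_A00pm_102_s1 k330_A00pm_102_s1

theorem t485_A00pm_102_s1 : ∃ t, chk3 f_A00pm_102_s1 t 50 161 1 = true := ex3_b k325_A00pm_102_s1 t484_A00pm_102_s1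

theorem t486_A00pm_102_s1 : ∃ t, chk3 f_A00pm_102_s1 t 50 80 1 = true := ex3_b k324_A00pm_102_s1 t485_A00pm_102_s1

theorem t487_A00pm_102_s1 : ∃ t, chk3 f_A00pm_102_s1 t 25 80 1 = true := ex3_a t486_A00pm_102_s1 t480_A00pm_102_s1

theorem t488_A00pm_102_s1 : ∃ t, chk3 f_A00pm_102_s1 t 25 40 1 = true := ex3_b t487_A00pm_102_s1 t478_A00pm_102_s1

theorem t489_A00pm_102_s1 : ∃ t, chk3 f_A00pm_102_s1 t 96 327 1 = true := ex3_c k320_A00pm_102_s1 k321_A00pm_102_s1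

theorem t490_A00pm_102_s1 : ∃ t, chk3 f_A00pm_102_s1 t 48 327 1 = true := ex3_a t489_A00pm_102_s1 k322_A00pm_102_s1

theorem t491_A00pm_102_s1 : ∃ t, chk3 f_A00pm_102_s1 t 97 326 1 = true := ex3_b k318_A00pm_102_s1 k319_A00pm_102_s1

theorem t492_A00pm_102_s1 : ∃ t, chk3 f_A00pm_102_s1 t 48 326 1 = true := ex3_a k317_A00pm_102_s1 t491_A00pm_102_s1

theorem t493_A00pm_102_s1 : ∃ t, chk3 f_A00pm_102_s1 t 48 163 1 = true := ex3_b t492_A00pm_102_s1 t490_A00pm_102_s1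

theorem t494_A00pm_102_s1 : ∃ t, chk3 f_A00pm_102_s1 t 24 163 1 = true := ex3_a t493_A00pm_102_s1 k323_A00pm_102_s1

theorem t495_A00pm_102_s1 : ∃ t, chk3 f_A00pm_102_s1 t 197 325 1 = true := ex3_b k314_A00pm_102_s1 k315_A00pm_102_s1

theorem t496_A00pm_102_s1 : ∃ t, chk3 f_A00pm_102_s1 t 98 325 1 = true := ex3_a k313_A00pm_102_s1 t495_A00pm_102_s1

theorem t497_A00pm_102_s1 : ∃ t, chk3 f_A00pm_102_s1 t 49 325 1 = true := ex3_a t496_A00pm_102_s1 k316_A00pm_102_s1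

theorem t498_A00pm_102_s1 : ∃ t, chk3 f_A00pm_102_s1 t 199 324 1 = true := ex3_b k311_A00pm_102_s1 k312_A00pm_102_s1

theorem t499_A00pm_102_s1 : ∃ t, chk3 f_A00pm_102_s1 t 99 324 1 = true := ex3_a k310_A00pm_102_s1 t498_A00pm_102_s1

theorem t500_A00pm_102_s1 : ∃ t, chk3 f_A00pm_102_s1 t 49 324 1 = true := ex3_a k309_A00pm_102_s1 t499_A00pm_102_s1

theorem t501_A00pm_102_s1 : ∃ t, chk3 f_A00pm_102_s1 t 49 162 1 = true := ex3_b t500_A00pm_102_s1 t497_A00pm_102_s1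

theorem t502_A00pm_102_s1 : ∃ t, chk3 f_A00pm_102_s1 t 24 162 1 = true := ex3_a k308_A00pm_102_s1 t501_A00pm_102_s1

theorem t503_A00pm_102_s1 : ∃ t, chk3 f_A00pm_102_s1 t 24 81 1 = true := ex3_b t502_A00pm_102_s1 t494_A00pm_102_s1

theorem t504_A00pm_102_s1 : ∃ t, chk3 f_A00pm_102_s1 t 24 40 1 = true := ex3_b k307_A00pm_102_s1 t503_A00pm_102_s1

theorem t505_A00pm_102_s1 : ∃ t, chk3 f_A00pm_102_s1 t 12 40 1 = true := ex3_a t504_A00pm_102_s1 t488_A00pm_102_s1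

theorem t506_A00pm_102_s1 : ∃ t, chk3 f_A00pm_102_s1 t 6 40 1 = true := ex3_a t505_A00pm_102_s1 t476_A00pm_102_s1

theorem t507_A00pm_102_s1 : ∃ t, chk3 f_A00pm_102_s1 t 6 20 1 = true := ex3_b t506_A00pm_102_s1 t467_A00pm_102_s1

theorem t508_A00pm_102_s1 : ∃ t, chk3 f_A00pm_102_s1 t 6 10 1 = true := ex3_b t507_A00pm_102_s1 t438_A00pm_102_s1

theorem t509_A00pm_102_s1 : ∃ t, chk3 f_A00pm_102_s1 t 6 5 1 = true := ex3_b t508_A00pm_102_s1 t436_A00pm_102_s1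

theorem t510_A00pm_102_s1 : ∃ t, chk3 f_A00pm_102_s1 t 3 5 1 = true := ex3_a t509_A00pm_102_s1 t434_A00pm_102_s1

theorem t511_A00pm_102_s1 : ∃ t, chk3 f_A00pm_102_s1 t 28 79 1 = true := ex3_a k303_A00pm_102_s1 k304_A00pm_102_s1

theorem t512_A00pm_102_s1 : ∃ t, chk3 f_A00pm_102_s1 t 56 78 1 = true := ex3_b k300_A00pm_102_s1 k301_A00pm_102_s1

theorem t513_A00pm_102_s1 : ∃ t, chk3 f_A00pm_102_s1 t 28 78 1 = true := ex3_a t512_A00pm_102_s1 k302_A00pm_102_s1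

theorem t514_A00pm_102_s1 : ∃ t, chk3 f_A00pm_102_s1 t 28 39 1 = true := ex3_b t513_A00pm_102_s1 t511_A00pm_102_s1

theorem t515_A00pm_102_s1 : ∃ t, chk3 f_A00pm_102_s1 t 14 39 1 = true := ex3_a t514_A00pm_102_s1 k305_A00pm_102_s1

theorem t516_A00pm_102_s1 : ∃ t, chk3 f_A00pm_102_s1 t 56 77 1 = true := ex3_b k296_A00pm_102_s1 k297_A00pm_102_s1

theorem t517_A00pm_102_s1 : ∃ t, chk3 f_A00pm_102_s1 t 28 77 1 = true := ex3_a t516_A00pm_102_s1 k298_A00pm_102_s1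

theorem t518_A00pm_102_s1 : ∃ t, chk3 f_A00pm_102_s1 t 224 152 1 = true := ex3_b k290_A00pm_102_s1 k291_A00pm_102_s1

theorem t519_A00pm_102_s1 : ∃ t, chk3 f_A00pm_102_s1 t 112 152 1 = true := ex3_a t518_A00pm_102_s1 k292_A00pm_102_s1

theorem t520_A00pm_102_s1 : ∃ t, chk3 f_A00pm_102_s1 t 112 76 1 = true := ex3_b t519_A00pm_102_s1 k293_A00pm_102_s1

theorem t521_A00pm_102_s1 : ∃ t, chk3 f_A00pm_102_s1 t 56 76 1 = true := ex3_a t520_A00pm_102_s1 k294_A00pm_102_s1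

theorem t522_A00pm_102_s1 : ∃ t, chk3 f_A00pm_102_s1 t 28 76 1 = true := ex3_a t521_A00pm_102_s1 k295_A00pm_102_s1

theorem t523_A00pm_102_s1 : ∃ t, chk3 f_A00pm_102_s1 t 28 38 1 = true := ex3_b t522_A00pm_102_s1 t517_A00pm_102_s1

theorem t524_A00pm_102_s1 : ∃ t, chk3 f_A00pm_102_s1 t 14 38 1 = true := ex3_a t523_A00pm_102_s1 k299_A00pm_102_s1

theorem t525_A00pm_102_s1 : ∃ t, chk3 f_A00pm_102_s1 t 14 19 1 = true := ex3_b t524_A00pm_102_s1 t515_A00pm_102_s1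

theorem t526_A00pm_102_s1 : ∃ t, chk3 f_A00pm_102_s1 t 7 19 1 = true := ex3_a t525_A00pm_102_s1 k306_A00pm_102_s1

theorem t527_A00pm_102_s1 : ∃ t, chk3 f_A00pm_102_s1 t 15 18 1 = true := ex3_a k288_A00pm_102_s1 k289_A00pm_102_s1

theorem t528_A00pm_102_s1 : ∃ t, chk3 f_A00pm_102_s1 t 58 74 1 = true := ex3_a k284_A00pm_102_s1 k285_A00pm_102_s1

theorem t529_A00pm_102_s1 : ∃ t, chk3 f_A00pm_102_s1 t 29 74 1 = true := ex3_a t528_A00pm_102_s1 k286_A00pm_102_s1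

theorem t530_A00pm_102_s1 : ∃ t, chk3 f_A00pm_102_s1 t 29 37 1 = true := ex3_b t529_A00pm_102_s1 k287_A00pm_102_s1

theorem t531_A00pm_102_s1 : ∃ t, chk3 f_A00pm_102_s1 t 118 72 1 = true := ex3_b k280_A00pm_102_s1 k281_A00pm_102_s1

theorem t532_A00pm_102_s1 : ∃ t, chk3 f_A00pm_102_s1 t 59 72 1 = true := ex3_a t531_A00pm_102_s1 k282_A00pm_102_s1

theorem t533_A00pm_102_s1 : ∃ t, chk3 f_A00pm_102_s1 t 59 36 1 = true := ex3_b t532_A00pm_102_s1 k283_A00pm_102_s1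

theorem t534_A00pm_102_s1 : ∃ t, chk3 f_A00pm_102_s1 t 234 146 1 = true := ex3_b k276_A00pm_102_s1 k277_A00pm_102_s1

theorem t535_A00pm_102_s1 : ∃ t, chk3 f_A00pm_102_s1 t 117 146 1 = true := ex3_a t534_A00pm_102_s1 k278_A00pm_102_s1

theorem t536_A00pm_102_s1 : ∃ t, chk3 f_A00pm_102_s1 t 117 73 1 = true := ex3_b t535_A00pm_102_s1 k279_A00pm_102_s1

theorem t537_A00pm_102_s1 : ∃ t, chk3 f_A00pm_102_s1 t 116 73 1 = true := ex3_b k274_A00pm_102_s1 k275_A00pm_102_s1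

theorem t538_A00pm_102_s1 : ∃ t, chk3 f_A00pm_102_s1 t 58 73 1 = true := ex3_a t537_A00pm_102_s1 t536_A00pm_102_s1

theorem t539_A00pm_102_s1 : ∃ t, chk3 f_A00pm_102_s1 t 58 72 1 = true := ex3_a k272_A00pm_102_s1 k273_A00pm_102_s1

theorem t540_A00pm_102_s1 : ∃ t, chk3 f_A00pm_102_s1 t 58 36 1 = true := ex3_b t539_A00pm_102_s1 t538_A00pm_102_s1

theorem t541_A00pm_102_s1 : ∃ t, chk3 f_A00pm_102_s1 t 29 36 1 = true := ex3_a t540_A00pm_102_s1 t533_A00pm_102_s1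

theorem t542_A00pm_102_s1 : ∃ t, chk3 f_A00pm_102_s1 t 29 18 1 = true := ex3_b t541_A00pm_102_s1 t530_A00pm_102_s1

theorem t543_A00pm_102_s1 : ∃ t, chk3 f_A00pm_102_s1 t 114 75 1 = true := ex3_b k269_A00pm_102_s1 k270_A00pm_102_s1

theorem t544_A00pm_102_s1 : ∃ t, chk3 f_A00pm_102_s1 t 57 75 1 = true := ex3_a t543_A00pm_102_s1 k271_A00pm_102_s1

theorem t545_A00pm_102_s1 : ∃ t, chk3 f_A00pm_102_s1 t 115 148 1 = true := ex3_a k266_A00pm_102_s1 k267_A00pm_102_s1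

theorem t546_A00pm_102_s1 : ∃ t, chk3 f_A00pm_102_s1 t 115 74 1 = true := ex3_b t545_A00pm_102_s1 k268_A00pm_102_s1

theorem t547_A00pm_102_s1 : ∃ t, chk3 f_A00pm_102_s1 t 57 74 1 = true := ex3_a k265_A00pm_102_s1 t546_A00pm_102_s1

theorem t548_A00pm_102_s1 : ∃ t, chk3 f_A00pm_102_s1 t 57 37 1 = true := ex3_b t547_A00pm_102_s1 t544_A00pm_102_s1

theorem t549_A00pm_102_s1 : ∃ t, chk3 f_A00pm_102_s1 t 226 302 1 = true := ex3_a k261_A00pm_102_s1 k262_A00pm_102_s1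

theorem t550_A00pm_102_s1 : ∃ t, chk3 f_A00pm_102_s1 t 226 151 1 = true := ex3_b t549_A00pm_102_s1 k263_A00pm_102_s1

theorem t551_A00pm_102_s1 : ∃ t, chk3 f_A00pm_102_s1 t 113 151 1 = true := ex3_a t550_A00pm_102_s1 k264_A00pm_102_s1

theorem t552_A00pm_102_s1 : ∃ t, chk3 f_A00pm_102_s1 t 227 150 1 = true := ex3_b k259_A00pm_102_s1 k260_A00pm_102_s1

theorem t553_A00pm_102_s1 : ∃ t, chk3 f_A00pm_102_s1 t 113 150 1 = true := ex3_a k258_A00pm_102_s1 t552_A00pm_102_s1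

theorem t554_A00pm_102_s1 : ∃ t, chk3 f_A00pm_102_s1 t 113 75 1 = true := ex3_b t553_A00pm_102_s1 t551_A00pm_102_s1

theorem t555_A00pm_102_s1 : ∃ t, chk3 f_A00pm_102_s1 t 225 303 1 = true := ex3_a k256_A00pm_102_s1 k257_A00pm_102_s1

theorem t556_A00pm_102_s1 : ∃ t, chk3 f_A00pm_102_s1 t 225 151 1 = true := ex3_b k255_A00pm_102_s1 t555_A00pm_102_s1

theorem t557_A00pm_102_s1 : ∃ t, chk3 f_A00pm_102_s1 t 112 151 1 = true := ex3_a k254_A00pm_102_s1 t556_A00pm_102_s1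

theorem t558_A00pm_102_s1 : ∃ t, chk3 f_A00pm_102_s1 t 112 75 1 = true := ex3_b k253_A00pm_102_s1 t557_A00pm_102_s1

theorem t559_A00pm_102_s1 : ∃ t, chk3 f_A00pm_102_s1 t 56 75 1 = true := ex3_a t558_A00pm_102_s1 t554_A00pm_102_s1

theorem t560_A00pm_102_s1 : ∃ t, chk3 f_A00pm_102_s1 t 56 37 1 = true := ex3_b k252_A00pm_102_s1 t559_A00pm_102_s1

theorem t561_A00pm_102_s1 : ∃ t, chk3 f_A00pm_102_s1 t 28 37 1 = true := ex3_a t560_A00pm_102_s1 t548_A00pm_102_s1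

theorem t562_A00pm_102_s1 : ∃ t, chk3 f_A00pm_102_s1 t 28 18 1 = true := ex3_b k251_A00pm_102_s1 t561_A00pm_102_s1

theorem t563_A00pm_102_s1 : ∃ t, chk3 f_A00pm_102_s1 t 14 18 1 = true := ex3_a t562_A00pm_102_s1 t542_A00pm_102_s1

theorem t564_A00pm_102_s1 : ∃ t, chk3 f_A00pm_102_s1 t 7 18 1 = true := ex3_a t563_A00pm_102_s1 t527_A00pm_102_s1

theorem t565_A00pm_102_s1 : ∃ t, chk3 f_A00pm_102_s1 t 7 9 1 = true := ex3_b t564_A00pm_102_s1 t526_A00pm_102_s1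

theorem t566_A00pm_102_s1 : ∃ t, chk3 f_A00pm_102_s1 t 63 17 1 = true := ex3_b k249_A00pm_102_s1 k250_A00pm_102_s1

theorem t567_A00pm_102_s1 : ∃ t, chk3 f_A00pm_102_s1 t 124 68 1 = true := ex3_b k244_A00pm_102_s1 k245_A00pm_102_s1

theorem t568_A00pm_102_s1 : ∃ t, chk3 f_A00pm_102_s1 t 62 68 1 = true := ex3_a t567_A00pm_102_s1 k246_A00pm_102_s1

theorem t569_A00pm_102_s1 : ∃ t, chk3 f_A00pm_102_s1 t 62 34 1 = true := ex3_b t568_A00pm_102_s1 k247_A00pm_102_s1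

theorem t570_A00pm_102_s1 : ∃ t, chk3 f_A00pm_102_s1 t 62 17 1 = true := ex3_b t569_A00pm_102_s1 k248_A00pm_102_s1

theorem t571_A00pm_102_s1 : ∃ t, chk3 f_A00pm_102_s1 t 31 17 1 = true := ex3_a t570_A00pm_102_s1 t566_A00pm_102_s1

theorem t572_A00pm_102_s1 : ∃ t, chk3 f_A00pm_102_s1 t 61 35 1 = true := ex3_a k242_A00pm_102_s1 k243_A00pm_102_s1

theorem t573_A00pm_102_s1 : ∃ t, chk3 f_A00pm_102_s1 t 242 140 1 = true := ex3_b k237_A00pm_102_s1 k238_A00pm_102_s1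

theorem t574_A00pm_102_s1 : ∃ t, chk3 f_A00pm_102_s1 t 121 140 1 = true := ex3_a t573_A00pm_102_s1 k239_A00pm_102_s1

theorem t575_A00pm_102_s1 : ∃ t, chk3 f_A00pm_102_s1 t 121 70 1 = true := ex3_b t574_A00pm_102_s1 k240_A00pm_102_s1

theorem t576_A00pm_102_s1 : ∃ t, chk3 f_A00pm_102_s1 t 60 70 1 = true := ex3_a k236_A00pm_102_s1 t575_A00pm_102_s1

theorem t577_A00pm_102_s1 : ∃ t, chk3 f_A00pm_102_s1 t 60 35 1 = true := ex3_b t576_A00pm_102_s1 k241_A00pm_102_s1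

theorem t578_A00pm_102_s1 : ∃ t, chk3 f_A00pm_102_s1 t 30 35 1 = true := ex3_a t577_A00pm_102_s1 t572_A00pm_102_s1

theorem t579_A00pm_102_s1 : ∃ t, chk3 f_A00pm_102_s1 t 246 276 1 = true := ex3_c k231_A00pm_102_s1 k232_A00pm_102_s1

theorem t580_A00pm_102_s1 : ∃ t, chk3 f_A00pm_102_s1 t 246 138 1 = true := ex3_b t579_A00pm_102_s1 k233_A00pm_102_s1

theorem t581_A00pm_102_s1 : ∃ t, chk3 f_A00pm_102_s1 t 123 138 1 = true := ex3_a t580_A00pm_102_s1 k234_A00pm_102_s1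

theorem t582_A00pm_102_s1 : ∃ t, chk3 f_A00pm_102_s1 t 123 69 1 = true := ex3_b t581_A00pm_102_s1 k235_A00pm_102_s1

theorem t583_A00pm_102_s1 : ∃ t, chk3 f_A00pm_102_s1 t 245 139 1 = true := ex3_c k229_A00pm_102_s1 k230_A00pm_102_s1

theorem t584_A00pm_102_s1 : ∃ t, chk3 f_A00pm_102_s1 t 488 557 1 = true := ex3_c k225_A00pm_102_s1 k226_A00pm_102_s1

theorem t585_A00pm_102_s1 : ∃ t, chk3 f_A00pm_102_s1 t 977 556 2 = true := ex3_b k222_A00pm_102_s1 k223_A00pm_102_s1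

theorem t586_A00pm_102_s1 : ∃ t, chk3 f_A00pm_102_s1 t 977 556 1 = true := ex3_c t585_A00pm_102_s1 k224_A00pm_102_s1

theorem t587_A00pm_102_s1 : ∃ t, chk3 f_A00pm_102_s1 t 488 556 1 = true := ex3_a k221_A00pm_102_s1 t586_A00pm_102_s1

theorem t588_A00pm_102_s1 : ∃ t, chk3 f_A00pm_102_s1 t 488 278 1 = true := ex3_b t587_A00pm_102_s1 t584_A00pm_102_s1

theorem t589_A00pm_102_s1 : ∃ t, chk3 f_A00pm_102_s1 t 244 278 1 = true := ex3_a t588_A00pm_102_s1 k227_A00pm_102_s1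

theorem t590_A00pm_102_s1 : ∃ t, chk3 f_A00pm_102_s1 t 244 139 1 = true := ex3_b t589_A00pm_102_s1 k228_A00pm_102_s1

theorem t591_A00pm_102_s1 : ∃ t, chk3 f_A00pm_102_s1 t 122 139 1 = true := ex3_a t590_A00pm_102_s1 t583_A00pm_102_s1

theorem t592_A00pm_102_s1 : ∃ t, chk3 f_A00pm_102_s1 t 245 555 1 = true := ex3_c k219_A00pm_102_s1 k220_A00pm_102_s1

theorem t593_A00pm_102_s1 : ∃ t, chk3 f_A00pm_102_s1 t 490 554 1 = true := ex3_c k216_A00pm_102_s1 k217_A00pm_102_s1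

theorem t594_A00pm_102_s1 : ∃ t, chk3 f_A00pm_102_s1 t 245 554 1 = true := ex3_a t593_A00pm_102_s1 k218_A00pm_102_s1

theorem t595_A00pm_102_s1 : ∃ t, chk3 f_A00pm_102_s1 t 245 277 1 = true := ex3_b t594_A00pm_102_s1 t592_A00pm_102_s1

theorem t596_A00pm_102_s1 : ∃ t, chk3 f_A00pm_102_s1 t 491 552 1 = true := ex3_c k213_A00pm_102_s1 k214_A00pm_102_s1

theorem t597_A00pm_102_s1 : ∃ t, chk3 f_A00pm_102_s1 t 491 276 1 = true := ex3_b t596_A00pm_102_s1 k215_A00pm_102_s1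

theorem t598_A00pm_102_s1 : ∃ t, chk3 f_A00pm_102_s1 t 980 553 2 = true := ex3_b k209_A00pm_102_s1 k210_A00pm_102_s1

theorem t599_A00pm_102_s1 : ∃ t, chk3 f_A00pm_102_s1 t 980 553 1 = true := ex3_c t598_A00pm_102_s1 k211_A00pm_102_s1

theorem t600_A00pm_102_s1 : ∃ t, chk3 f_A00pm_102_s1 t 490 553 1 = true := ex3_a t599_A00pm_102_s1 k212_A00pm_102_s1

theorem t601_A00pm_102_s1 : ∃ t, chk3 f_A00pm_102_s1 t 490 552 1 = true := ex3_c k207_A00pm_102_s1 k208_A00pm_102_s1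

theorem t602_A00pm_102_s1 : ∃ t, chk3 f_A00pm_102_s1 t 490 276 1 = true := ex3_b t601_A00pm_102_s1 t600_A00pm_102_s1

theorem t603_A00pm_102_s1 : ∃ t, chk3 f_A00pm_102_s1 t 245 276 1 = true := ex3_a t602_A00pm_102_s1 t597_A00pm_102_s1

theorem t604_A00pm_102_s1 : ∃ t, chk3 f_A00pm_102_s1 t 245 138 1 = true := ex3_b t603_A00pm_102_s1 t595_A00pm_102_s1

theorem t605_A00pm_102_s1 : ∃ t, chk3 f_A00pm_102_s1 t 978 555 2 = true := ex3_b k203_A00pm_102_s1 k204_A00pm_102_s1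

theorem t606_A00pm_102_s1 : ∃ t, chk3 f_A00pm_102_s1 t 978 555 1 = true := ex3_c t605_A00pm_102_s1 k205_A00pm_102_s1

theorem t607_A00pm_102_s1 : ∃ t, chk3 f_A00pm_102_s1 t 489 555 1 = true := ex3_a t606_A00pm_102_s1 k206_A00pm_102_s1

theorem t608_A00pm_102_s1 : ∃ t, chk3 f_A00pm_102_s1 t 979 554 2 = true := ex3_b k200_A00pm_102_s1 k201_A00pm_102_s1

theorem t609_A00pm_102_s1 : ∃ t, chk3 f_A00pm_102_s1 t 979 554 1 = true := ex3_c t608_A00pm_102_s1 k202_A00pm_102_s1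

theorem t610_A00pm_102_s1 : ∃ t, chk3 f_A00pm_102_s1 t 489 554 1 = true := ex3_a k199_A00pm_102_s1 t609_A00pm_102_s1

theorem t611_A00pm_102_s1 : ∃ t, chk3 f_A00pm_102_s1 t 489 277 1 = true := ex3_b t610_A00pm_102_s1 t607_A00pm_102_s1

theorem t612_A00pm_102_s1 : ∃ t, chk3 f_A00pm_102_s1 t 244 277 1 = true := ex3_a k198_A00pm_102_s1 t611_A00pm_102_s1

theorem t613_A00pm_102_s1 : ∃ t, chk3 f_A00pm_102_s1 t 244 138 1 = true := ex3_b k197_A00pm_102_s1 t612_A00pm_102_s1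

theorem t614_A00pm_102_s1 : ∃ t, chk3 f_A00pm_102_s1 t 122 138 1 = true := ex3_a t613_A00pm_102_s1 t604_A00pm_102_s1

theorem t615_A00pm_102_s1 : ∃ t, chk3 f_A00pm_102_s1 t 122 69 1 = true := ex3_b t614_A00pm_102_s1 t591_A00pm_102_s1

theorem t616_A00pm_102_s1 : ∃ t, chk3 f_A00pm_102_s1 t 61 69 1 = true := ex3_a t615_A00pm_102_s1 t582_A00pm_102_s1

theorem t617_A00pm_102_s1 : ∃ t, chk3 f_A00pm_102_s1 t 246 275 1 = true := ex3_b k194_A00pm_102_s1 k195_A00pm_102_s1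

theorem t618_A00pm_102_s1 : ∃ t, chk3 f_A00pm_102_s1 t 246 274 1 = true := ex3_a k192_A00pm_102_s1 k193_A00pm_102_s1

theorem t619_A00pm_102_s1 : ∃ t, chk3 f_A00pm_102_s1 t 246 137 1 = true := ex3_b t618_A00pm_102_s1 t617_A00pm_102_s1

theorem t620_A00pm_102_s1 : ∃ t, chk3 f_A00pm_102_s1 t 123 137 1 = true := ex3_a t619_A00pm_102_s1 k196_A00pm_102_s1

theorem t621_A00pm_102_s1 : ∃ t, chk3 f_A00pm_102_s1 t 247 136 1 = true := ex3_b k190_A00pm_102_s1 k191_A00pm_102_s1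

theorem t622_A00pm_102_s1 : ∃ t, chk3 f_A00pm_102_s1 t 123 136 1 = true := ex3_a k189_A00pm_102_s1 t621_A00pm_102_s1

theorem t623_A00pm_102_s1 : ∃ t, chk3 f_A00pm_102_s1 t 123 68 1 = true := ex3_b t622_A00pm_102_s1 t620_A00pm_102_s1

theorem t624_A00pm_102_s1 : ∃ t, chk3 f_A00pm_102_s1 t 491 551 1 = true := ex3_a k187_A00pm_102_s1 k188_A00pm_102_s1

theorem t625_A00pm_102_s1 : ∃ t, chk3 f_A00pm_102_s1 t 491 275 1 = true := ex3_b k186_A00pm_102_s1 t624_A00pm_102_s1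

theorem t626_A00pm_102_s1 : ∃ t, chk3 f_A00pm_102_s1 t 245 275 1 = true := ex3_a k185_A00pm_102_s1 t625_A00pm_102_s1

theorem t627_A00pm_102_s1 : ∃ t, chk3 f_A00pm_102_s1 t 245 137 1 = true := ex3_b k184_A00pm_102_s1 t626_A00pm_102_s1

theorem t628_A00pm_102_s1 : ∃ t, chk3 f_A00pm_102_s1 t 122 137 1 = true := ex3_a k183_A00pm_102_s1 t627_A00pm_102_s1

theorem t629_A00pm_102_s1 : ∃ t, chk3 f_A00pm_102_s1 t 122 68 1 = true := ex3_b k182_A00pm_102_s1 t628_A00pm_102_s1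

theorem t630_A00pm_102_s1 : ∃ t, chk3 f_A00pm_102_s1 t 61 68 1 = true := ex3_a t629_A00pm_102_s1 t623_A00pm_102_s1

theorem t631_A00pm_102_s1 : ∃ t, chk3 f_A00pm_102_s1 t 61 34 1 = true := ex3_b t630_A00pm_102_s1 t616_A00pm_102_s1

theorem t632_A00pm_102_s1 : ∃ t, chk3 f_A00pm_102_s1 t 487 558 1 = true := ex3_a k179_A00pm_102_s1 k180_A00pm_102_s1

theorem t633_A00pm_102_s1 : ∃ t, chk3 f_A00pm_102_s1 t 487 279 1 = true := ex3_b t632_A00pm_102_s1 k181_A00pm_102_s1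

theorem t634_A00pm_102_s1 : ∃ t, chk3 f_A00pm_102_s1 t 243 279 1 = true := ex3_a k178_A00pm_102_s1 t633_A00pm_102_s1

theorem t635_A00pm_102_s1 : ∃ t, chk3 f_A00pm_102_s1 t 243 139 1 = true := ex3_b k177_A00pm_102_s1 t634_A00pm_102_s1

theorem t636_A00pm_102_s1 : ∃ t, chk3 f_A00pm_102_s1 t 121 139 1 = true := ex3_a k176_A00pm_102_s1 t635_A00pm_102_s1

theorem t637_A00pm_102_s1 : ∃ t, chk3 f_A00pm_102_s1 t 121 69 1 = true := ex3_b k175_A00pm_102_s1 t636_A00pm_102_s1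

theorem t638_A00pm_102_s1 : ∃ t, chk3 f_A00pm_102_s1 t 60 69 1 = true := ex3_a k174_A00pm_102_s1 t637_A00pm_102_s1

theorem t639_A00pm_102_s1 : ∃ t, chk3 f_A00pm_102_s1 t 60 34 1 = true := ex3_b k173_A00pm_102_s1 t638_A00pm_102_s1

theorem t640_A00pm_102_s1 : ∃ t, chk3 f_A00pm_102_s1 t 30 34 1 = true := ex3_a t639_A00pm_102_s1 t631_A00pm_102_s1

theorem t641_A00pm_102_s1 : ∃ t, chk3 f_A00pm_102_s1 t 30 17 1 = true := ex3_b t640_A00pm_102_s1 t578_A00pm_102_s1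

theorem t642_A00pm_102_s1 : ∃ t, chk3 f_A00pm_102_s1 t 15 17 1 = true := ex3_a t641_A00pm_102_s1 t571_A00pm_102_s1

theorem t643_A00pm_102_s1 : ∃ t, chk3 f_A00pm_102_s1 t 504 264 1 = true := ex3_b k165_A00pm_102_s1 k166_A00pm_102_s1

theorem t644_A00pm_102_s1 : ∃ t, chk3 f_A00pm_102_s1 t 252 264 1 = true := ex3_a t643_A00pm_102_s1 k167_A00pm_102_s1

theorem t645_A00pm_102_s1 : ∃ t, chk3 f_A00pm_102_s1 t 252 132 1 = true := ex3_b t644_A00pm_102_s1 k168_A00pm_102_s1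

theorem t646_A00pm_102_s1 : ∃ t, chk3 f_A00pm_102_s1 t 252 66 1 = true := ex3_b t645_A00pm_102_s1 k169_A00pm_102_s1

theorem t647_A00pm_102_s1 : ∃ t, chk3 f_A00pm_102_s1 t 126 66 1 = true := ex3_a t646_A00pm_102_s1 k170_A00pm_102_s1

theorem t648_A00pm_102_s1 : ∃ t, chk3 f_A00pm_102_s1 t 126 33 1 = true := ex3_b t647_A00pm_102_s1 k171_A00pm_102_s1

theorem t649_A00pm_102_s1 : ∃ t, chk3 f_A00pm_102_s1 t 63 33 1 = true := ex3_a t648_A00pm_102_s1 k172_A00pm_102_s1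

theorem t650_A00pm_102_s1 : ∃ t, chk3 f_A00pm_102_s1 t 63 16 1 = true := ex3_b k164_A00pm_102_s1 t649_A00pm_102_s1

theorem t651_A00pm_102_s1 : ∃ t, chk3 f_A00pm_102_s1 t 125 134 1 = true := ex3_a k161_A00pm_102_s1 k162_A00pm_102_s1

theorem t652_A00pm_102_s1 : ∃ t, chk3 f_A00pm_102_s1 t 125 67 1 = true := ex3_b t651_A00pm_102_s1 k163_A00pm_102_s1

theorem t653_A00pm_102_s1 : ∃ t, chk3 f_A00pm_102_s1 t 248 271 1 = true := ex3_a k158_A00pm_102_s1 k159_A00pm_102_s1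

theorem t654_A00pm_102_s1 : ∃ t, chk3 f_A00pm_102_s1 t 248 135 1 = true := ex3_b k157_A00pm_102_s1 t653_A00pm_102_s1

theorem t655_A00pm_102_s1 : ∃ t, chk3 f_A00pm_102_s1 t 124 135 1 = true := ex3_a t654_A00pm_102_s1 k160_A00pm_102_s1

theorem t656_A00pm_102_s1 : ∃ t, chk3 f_A00pm_102_s1 t 249 134 1 = true := ex3_b k155_A00pm_102_s1 k156_A00pm_102_s1

theorem t657_A00pm_102_s1 : ∃ t, chk3 f_A00pm_102_s1 t 124 134 1 = true := ex3_a k154_A00pm_102_s1 t656_A00pm_102_s1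

theorem t658_A00pm_102_s1 : ∃ t, chk3 f_A00pm_102_s1 t 124 67 1 = true := ex3_b t657_A00pm_102_s1 t655_A00pm_102_s1

theorem t659_A00pm_102_s1 : ∃ t, chk3 f_A00pm_102_s1 t 62 67 1 = true := ex3_a t658_A00pm_102_s1 t652_A00pm_102_s1

theorem t660_A00pm_102_s1 : ∃ t, chk3 f_A00pm_102_s1 t 251 266 1 = true := ex3_a k151_A00pm_102_s1 k152_A00pm_102_s1

theorem t661_A00pm_102_s1 : ∃ t, chk3 f_A00pm_102_s1 t 251 133 1 = true := ex3_b t660_A00pm_102_s1 k153_A00pm_102_s1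

theorem t662_A00pm_102_s1 : ∃ t, chk3 f_A00pm_102_s1 t 250 133 1 = true := ex3_b k149_A00pm_102_s1 k150_A00pm_102_s1

theorem t663_A00pm_102_s1 : ∃ t, chk3 f_A00pm_102_s1 t 125 133 1 = true := ex3_a t662_A00pm_102_s1 t661_A00pm_102_s1

theorem t664_A00pm_102_s1 : ∃ t, chk3 f_A00pm_102_s1 t 503 265 1 = true := ex3_b k147_A00pm_102_s1 k148_A00pm_102_s1

theorem t665_A00pm_102_s1 : ∃ t, chk3 f_A00pm_102_s1 t 251 265 1 = true := ex3_a k146_A00pm_102_s1 t664_A00pm_102_s1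

theorem t666_A00pm_102_s1 : ∃ t, chk3 f_A00pm_102_s1 t 503 528 1 = true := ex3_a k143_A00pm_102_s1 k144_A00pm_102_s1

theorem t667_A00pm_102_s1 : ∃ t, chk3 f_A00pm_102_s1 t 503 264 1 = true := ex3_b t666_A00pm_102_s1 k145_A00pm_102_s1

theorem t668_A00pm_102_s1 : ∃ t, chk3 f_A00pm_102_s1 t 251 264 1 = true := ex3_a k142_A00pm_102_s1 t667_A00pm_102_s1

theorem t669_A00pm_102_s1 : ∃ t, chk3 f_A00pm_102_s1 t 251 132 1 = true := ex3_b t668_A00pm_102_s1 t665_A00pm_102_s1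

theorem t670_A00pm_102_s1 : ∃ t, chk3 f_A00pm_102_s1 t 125 132 1 = true := ex3_a k141_A00pm_102_s1 t669_A00pm_102_s1

theorem t671_A00pm_102_s1 : ∃ t, chk3 f_A00pm_102_s1 t 125 66 1 = true := ex3_b t670_A00pm_102_s1 t663_A00pm_102_s1

theorem t672_A00pm_102_s1 : ∃ t, chk3 f_A00pm_102_s1 t 62 66 1 = true := ex3_a k140_A00pm_102_s1 t671_A00pm_102_s1

theorem t673_A00pm_102_s1 : ∃ t, chk3 f_A00pm_102_s1 t 62 33 1 = true := ex3_b t672_A00pm_102_s1 t659_A00pm_102_s1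

theorem t674_A00pm_102_s1 : ∃ t, chk3 f_A00pm_102_s1 t 62 16 1 = true := ex3_b k139_A00pm_102_s1 t673_A00pm_102_s1

theorem t675_A00pm_102_s1 : ∃ t, chk3 f_A00pm_102_s1 t 31 16 1 = true := ex3_a t674_A00pm_102_s1 t650_A00pm_102_s1

theorem t676_A00pm_102_s1 : ∃ t, chk3 f_A00pm_102_s1 t 30 16 1 = true := ex3_b k137_A00pm_102_s1 k138_A00pm_102_s1

theorem t677_A00pm_102_s1 : ∃ t, chk3 f_A00pm_102_s1 t 15 16 1 = true := ex3_a t676_A00pm_102_s1 t675_A00pm_102_s1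

theorem t678_A00pm_102_s1 : ∃ t, chk3 f_A00pm_102_s1 t 15 8 1 = true := ex3_b t677_A00pm_102_s1 t642_A00pm_102_s1

theorem t679_A00pm_102_s1 : ∃ t, chk3 f_A00pm_102_s1 t 119 143 1 = true := ex3_a k135_A00pm_102_s1 k136_A00pm_102_s1

theorem t680_A00pm_102_s1 : ∃ t, chk3 f_A00pm_102_s1 t 119 71 1 = true := ex3_b k134_A00pm_102_s1 t679_A00pm_102_s1

theorem t681_A00pm_102_s1 : ∃ t, chk3 f_A00pm_102_s1 t 59 71 1 = true := ex3_a k133_A00pm_102_s1 t680_A00pm_102_s1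

theorem t682_A00pm_102_s1 : ∃ t, chk3 f_A00pm_102_s1 t 59 35 1 = true := ex3_b k132_A00pm_102_s1 t681_A00pm_102_s1

theorem t683_A00pm_102_s1 : ∃ t, chk3 f_A00pm_102_s1 t 29 35 1 = true := ex3_a k131_A00pm_102_s1 t682_A00pm_102_s1

theorem t684_A00pm_102_s1 : ∃ t, chk3 f_A00pm_102_s1 t 29 17 1 = true := ex3_b k130_A00pm_102_s1 t683_A00pm_102_s1

theorem t685_A00pm_102_s1 : ∃ t, chk3 f_A00pm_102_s1 t 14 17 1 = true := ex3_a k129_A00pm_102_s1 t684_A00pm_102_s1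

theorem t686_A00pm_102_s1 : ∃ t, chk3 f_A00pm_102_s1 t 14 8 1 = true := ex3_b k128_A00pm_102_s1 t685_A00pm_102_s1

theorem t687_A00pm_102_s1 : ∃ t, chk3 f_A00pm_102_s1 t 7 8 1 = true := ex3_a t686_A00pm_102_s1 t678_A00pm_102_s1

theorem t688_A00pm_102_s1 : ∃ t, chk3 f_A00pm_102_s1 t 7 4 1 = true := ex3_b t687_A00pm_102_s1 t565_A00pm_102_s1

theorem t689_A00pm_102_s1 : ∃ t, chk3 f_A00pm_102_s1 t 55 79 1 = true := ex3_b k126_A00pm_102_s1 k127_A00pm_102_s1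

theorem t690_A00pm_102_s1 : ∃ t, chk3 f_A00pm_102_s1 t 109 79 1 = true := ex3_b k124_A00pm_102_s1 k125_A00pm_102_s1

theorem t691_A00pm_102_s1 : ∃ t, chk3 f_A00pm_102_s1 t 54 79 1 = true := ex3_a k123_A00pm_102_s1 t690_A00pm_102_s1

theorem t692_A00pm_102_s1 : ∃ t, chk3 f_A00pm_102_s1 t 27 79 1 = true := ex3_a t691_A00pm_102_s1 t689_A00pm_102_s1

theorem t693_A00pm_102_s1 : ∃ t, chk3 f_A00pm_102_s1 t 55 157 1 = true := ex3_a k121_A00pm_102_s1 k122_A00pm_102_s1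

theorem t694_A00pm_102_s1 : ∃ t, chk3 f_A00pm_102_s1 t 55 78 1 = true := ex3_b k120_A00pm_102_s1 t693_A00pm_102_s1

theorem t695_A00pm_102_s1 : ∃ t, chk3 f_A00pm_102_s1 t 54 156 1 = true := ex3_a k117_A00pm_102_s1 k118_A00pm_102_s1

theorem t696_A00pm_102_s1 : ∃ t, chk3 f_A00pm_102_s1 t 54 78 1 = true := ex3_b t695_A00pm_102_s1 k119_A00pm_102_s1

theorem t697_A00pm_102_s1 : ∃ t, chk3 f_A00pm_102_s1 t 27 78 1 = true := ex3_a t696_A00pm_102_s1 t694_A00pm_102_s1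

theorem t698_A00pm_102_s1 : ∃ t, chk3 f_A00pm_102_s1 t 27 39 1 = true := ex3_b t697_A00pm_102_s1 t692_A00pm_102_s1

theorem t699_A00pm_102_s1 : ∃ t, chk3 f_A00pm_102_s1 t 53 79 1 = true := ex3_b k115_A00pm_102_s1 k116_A00pm_102_s1

theorem t700_A00pm_102_s1 : ∃ t, chk3 f_A00pm_102_s1 t 104 318 1 = true := ex3_a k111_A00pm_102_s1 k112_A00pm_102_s1

theorem t701_A00pm_102_s1 : ∃ t, chk3 f_A00pm_102_s1 t 104 159 1 = true := ex3_b t700_A00pm_102_s1 k113_A00pm_102_s1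

theorem t702_A00pm_102_s1 : ∃ t, chk3 f_A00pm_102_s1 t 52 159 1 = true := ex3_a t701_A00pm_102_s1 k114_A00pm_102_s1

theorem t703_A00pm_102_s1 : ∃ t, chk3 f_A00pm_102_s1 t 211 316 1 = true := ex3_a k108_A00pm_102_s1 k109_A00pm_102_s1

theorem t704_A00pm_102_s1 : ∃ t, chk3 f_A00pm_102_s1 t 105 316 1 = true := ex3_a k107_A00pm_102_s1 t703_A00pm_102_s1

theorem t705_A00pm_102_s1 : ∃ t, chk3 f_A00pm_102_s1 t 105 158 1 = true := ex3_b t704_A00pm_102_s1 k110_A00pm_102_s1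

theorem t706_A00pm_102_s1 : ∃ t, chk3 f_A00pm_102_s1 t 52 158 1 = true := ex3_a k106_A00pm_102_s1 t705_A00pm_102_s1

theorem t707_A00pm_102_s1 : ∃ t, chk3 f_A00pm_102_s1 t 52 79 1 = true := ex3_b t706_A00pm_102_s1 t702_A00pm_102_s1

theorem t708_A00pm_102_s1 : ∃ t, chk3 f_A00pm_102_s1 t 26 79 1 = true := ex3_a t707_A00pm_102_s1 t699_A00pm_102_s1

theorem t709_A00pm_102_s1 : ∃ t, chk3 f_A00pm_102_s1 t 53 157 1 = true := ex3_a k104_A00pm_102_s1 k105_A00pm_102_s1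

theorem t710_A00pm_102_s1 : ∃ t, chk3 f_A00pm_102_s1 t 53 78 1 = true := ex3_b k103_A00pm_102_s1 t709_A00pm_102_s1

theorem t711_A00pm_102_s1 : ∃ t, chk3 f_A00pm_102_s1 t 26 78 1 = true := ex3_a k102_A00pm_102_s1 t710_A00pm_102_s1

theorem t712_A00pm_102_s1 : ∃ t, chk3 f_A00pm_102_s1 t 26 39 1 = true := ex3_b t711_A00pm_102_s1 t708_A00pm_102_s1

theorem t713_A00pm_102_s1 : ∃ t, chk3 f_A00pm_102_s1 t 13 39 1 = true := ex3_a t712_A00pm_102_s1 t698_A00pm_102_s1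

theorem t714_A00pm_102_s1 : ∃ t, chk3 f_A00pm_102_s1 t 55 154 1 = true := ex3_a k99_A00pm_102_s1 k100_A00pm_102_s1

theorem t715_A00pm_102_s1 : ∃ t, chk3 f_A00pm_102_s1 t 55 77 1 = true := ex3_b t714_A00pm_102_s1 k101_A00pm_102_s1

theorem t716_A00pm_102_s1 : ∃ t, chk3 f_A00pm_102_s1 t 54 155 1 = true := ex3_a k97_A00pm_102_s1 k98_A00pm_102_s1

theorem t717_A00pm_102_s1 : ∃ t, chk3 f_A00pm_102_s1 t 54 77 1 = true := ex3_b k96_A00pm_102_s1 t716_A00pm_102_s1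

theorem t718_A00pm_102_s1 : ∃ t, chk3 f_A00pm_102_s1 t 27 77 1 = true := ex3_a t717_A00pm_102_s1 t715_A00pm_102_s1

theorem t719_A00pm_102_s1 : ∃ t, chk3 f_A00pm_102_s1 t 55 153 1 = true := ex3_a k94_A00pm_102_s1 k95_A00pm_102_s1

theorem t720_A00pm_102_s1 : ∃ t, chk3 f_A00pm_102_s1 t 55 76 1 = true := ex3_b k93_A00pm_102_s1 t719_A00pm_102_s1

theorem t721_A00pm_102_s1 : ∃ t, chk3 f_A00pm_102_s1 t 27 76 1 = true := ex3_a k92_A00pm_102_s1 t720_A00pm_102_s1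

theorem t722_A00pm_102_s1 : ∃ t, chk3 f_A00pm_102_s1 t 27 38 1 = true := ex3_b t721_A00pm_102_s1 t718_A00pm_102_s1

theorem t723_A00pm_102_s1 : ∃ t, chk3 f_A00pm_102_s1 t 13 38 1 = true := ex3_a k91_A00pm_102_s1 t722_A00pm_102_s1

theorem t724_A00pm_102_s1 : ∃ t, chk3 f_A00pm_102_s1 t 13 19 1 = true := ex3_b t723_A00pm_102_s1 t713_A00pm_102_s1

theorem t725_A00pm_102_s1 : ∃ t, chk3 f_A00pm_102_s1 t 13 9 1 = true := ex3_b k90_A00pm_102_s1 t724_A00pm_102_s1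

theorem t726_A00pm_102_s1 : ∃ t, chk3 f_A00pm_102_s1 t 51 79 1 = true := ex3_b k88_A00pm_102_s1 k89_A00pm_102_s1

theorem t727_A00pm_102_s1 : ∃ t, chk3 f_A00pm_102_s1 t 25 79 1 = true := ex3_a k87_A00pm_102_s1 t726_A00pm_102_s1

theorem t728_A00pm_102_s1 : ∃ t, chk3 f_A00pm_102_s1 t 25 39 1 = true := ex3_b k86_A00pm_102_s1 t727_A00pm_102_s1

theorem t729_A00pm_102_s1 : ∃ t, chk3 f_A00pm_102_s1 t 12 39 1 = true := ex3_a k85_A00pm_102_s1 t728_A00pm_102_s1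

theorem t730_A00pm_102_s1 : ∃ t, chk3 f_A00pm_102_s1 t 12 19 1 = true := ex3_b k84_A00pm_102_s1 t729_A00pm_102_s1

theorem t731_A00pm_102_s1 : ∃ t, chk3 f_A00pm_102_s1 t 12 9 1 = true := ex3_b k83_A00pm_102_s1 t730_A00pm_102_s1

theorem t732_A00pm_102_s1 : ∃ t, chk3 f_A00pm_102_s1 t 6 9 1 = true := ex3_a t731_A00pm_102_s1 t725_A00pm_102_s1

theorem t733_A00pm_102_s1 : ∃ t, chk3 f_A00pm_102_s1 t 6 4 1 = true := ex3_b k82_A00pm_102_s1 t732_A00pm_102_s1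

theorem t734_A00pm_102_s1 : ∃ t, chk3 f_A00pm_102_s1 t 3 4 1 = true := ex3_a t733_A00pm_102_s1 t688_A00pm_102_s1

theorem t735_A00pm_102_s1 : ∃ t, chk3 f_A00pm_102_s1 t 3 2 1 = true := ex3_b t734_A00pm_102_s1 t510_A00pm_102_s1

theorem t736_A00pm_102_s1 : ∃ t, chk3 f_A00pm_102_s1 t 3 1 1 = true := ex3_b t735_A00pm_102_s1 t412_A00pm_102_s1

theorem t737_A00pm_102_s1 : ∃ t, chk3 f_A00pm_102_s1 t 5 21 1 = true := ex3_a k78_A00pm_102_s1 k79_A00pm_102_s1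

theorem t738_A00pm_102_s1 : ∃ t, chk3 f_A00pm_102_s1 t 2 21 1 = true := ex3_a k77_A00pm_102_s1 t737_A00pm_102_s1

theorem t739_A00pm_102_s1 : ∃ t, chk3 f_A00pm_102_s1 t 11 2682 1 = true := ex3_b k73_A00pm_102_s1 k74_A00pm_102_s1

theorem t740_A00pm_102_s1 : ∃ t, chk3 f_A00pm_102_s1 t 11 1341 1 = true := ex3_b t739_A00pm_102_s1 k75_A00pm_102_s1

theorem t741_A00pm_102_s1 : ∃ t, chk3 f_A00pm_102_s1 t 47 21453 1 = true := ex3_c k70_A00pm_102_s1 k71_A00pm_102_s1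

theorem t742_A00pm_102_s1 : ∃ t, chk3 f_A00pm_102_s1 t 23 21453 1 = true := ex3_a k69_A00pm_102_s1 t741_A00pm_102_s1

theorem t743_A00pm_102_s1 : ∃ t, chk3 f_A00pm_102_s1 t 11 21453 1 = true := ex3_a k68_A00pm_102_s1 t742_A00pm_102_s1

theorem t744_A00pm_102_s1 : ∃ t, chk3 f_A00pm_102_s1 t 11 10726 1 = true := ex3_b k67_A00pm_102_s1 t743_A00pm_102_s1

theorem t745_A00pm_102_s1 : ∃ t, chk3 f_A00pm_102_s1 t 11 5363 1 = true := ex3_b t744_A00pm_102_s1 k72_A00pm_102_s1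

theorem t746_A00pm_102_s1 : ∃ t, chk3 f_A00pm_102_s1 t 11 2681 1 = true := ex3_b k66_A00pm_102_s1 t745_A00pm_102_s1

theorem t747_A00pm_102_s1 : ∃ t, chk3 f_A00pm_102_s1 t 11 1340 1 = true := ex3_b k65_A00pm_102_s1 t746_A00pm_102_s1

theorem t748_A00pm_102_s1 : ∃ t, chk3 f_A00pm_102_s1 t 11 670 1 = true := ex3_b t747_A00pm_102_s1 t740_A00pm_102_s1

theorem t749_A00pm_102_s1 : ∃ t, chk3 f_A00pm_102_s1 t 11 335 1 = true := ex3_b t748_A00pm_102_s1 k76_A00pm_102_s1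

theorem t750_A00pm_102_s1 : ∃ t, chk3 f_A00pm_102_s1 t 23 334 1 = true := ex3_a k63_A00pm_102_s1 k64_A00pm_102_s1

theorem t751_A00pm_102_s1 : ∃ t, chk3 f_A00pm_102_s1 t 11 334 1 = true := ex3_a k62_A00pm_102_s1 t750_A00pm_102_s1

theorem t752_A00pm_102_s1 : ∃ t, chk3 f_A00pm_102_s1 t 11 167 1 = true := ex3_b t751_A00pm_102_s1 t749_A00pm_102_s1

theorem t753_A00pm_102_s1 : ∃ t, chk3 f_A00pm_102_s1 t 10 2681 1 = true := ex3_b k58_A00pm_102_s1 k59_A00pm_102_s1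

theorem t754_A00pm_102_s1 : ∃ t, chk3 f_A00pm_102_s1 t 10 2680 1 = true := ex3_c k56_A00pm_102_s1 k57_A00pm_102_s1

theorem t755_A00pm_102_s1 : ∃ t, chk3 f_A00pm_102_s1 t 10 1340 1 = true := ex3_b t754_A00pm_102_s1 t753_A00pm_102_s1

theorem t756_A00pm_102_s1 : ∃ t, chk3 f_A00pm_102_s1 t 10 670 1 = true := ex3_b t755_A00pm_102_s1 k60_A00pm_102_s1

theorem t757_A00pm_102_s1 : ∃ t, chk3 f_A00pm_102_s1 t 10 335 1 = true := ex3_b t756_A00pm_102_s1 k61_A00pm_102_s1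

theorem t758_A00pm_102_s1 : ∃ t, chk3 f_A00pm_102_s1 t 174 669 3 = true := ex3_c k53_A00pm_102_s1 k54_A00pm_102_s1

theorem t759_A00pm_102_s1 : ∃ t, chk3 f_A00pm_102_s1 t 87 669 3 = true := ex3_a t758_A00pm_102_s1 k55_A00pm_102_s1

theorem t760_A00pm_102_s1 : ∃ t, chk3 f_A00pm_102_s1 t 43 669 3 = true := ex3_a k52_A00pm_102_s1 t759_A00pm_102_s1

theorem t761_A00pm_102_s1 : ∃ t, chk3 f_A00pm_102_s1 t 174 669 2 = true := ex3_c k49_A00pm_102_s1 k50_A00pm_102_s1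

theorem t762_A00pm_102_s1 : ∃ t, chk3 f_A00pm_102_s1 t 87 669 2 = true := ex3_a t761_A00pm_102_s1 k51_A00pm_102_s1

theorem t763_A00pm_102_s1 : ∃ t, chk3 f_A00pm_102_s1 t 43 669 2 = true := ex3_a k48_A00pm_102_s1 t762_A00pm_102_s1

theorem t764_A00pm_102_s1 : ∃ t, chk3 f_A00pm_102_s1 t 43 669 1 = true := ex3_c t763_A00pm_102_s1 t760_A00pm_102_s1

theorem t765_A00pm_102_s1 : ∃ t, chk3 f_A00pm_102_s1 t 42 669 1 = true := ex3_a k46_A00pm_102_s1 k47_A00pm_102_s1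

theorem t766_A00pm_102_s1 : ∃ t, chk3 f_A00pm_102_s1 t 21 669 1 = true := ex3_a t765_A00pm_102_s1 t764_A00pm_102_s1

theorem t767_A00pm_102_s1 : ∃ t, chk3 f_A00pm_102_s1 t 21 668 1 = true := ex3_a k44_A00pm_102_s1 k45_A00pm_102_s1

theorem t768_A00pm_102_s1 : ∃ t, chk3 f_A00pm_102_s1 t 21 334 1 = true := ex3_b t767_A00pm_102_s1 t766_A00pm_102_s1

theorem t769_A00pm_102_s1 : ∃ t, chk3 f_A00pm_102_s1 t 10 334 1 = true := ex3_a k43_A00pm_102_s1 t768_A00pm_102_s1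

theorem t770_A00pm_102_s1 : ∃ t, chk3 f_A00pm_102_s1 t 10 167 1 = true := ex3_b t769_A00pm_102_s1 t757_A00pm_102_s1

theorem t771_A00pm_102_s1 : ∃ t, chk3 f_A00pm_102_s1 t 5 167 1 = true := ex3_a t770_A00pm_102_s1 t752_A00pm_102_s1

theorem t772_A00pm_102_s1 : ∃ t, chk3 f_A00pm_102_s1 t 22 332 1 = true := ex3_a k39_A00pm_102_s1 k40_A00pm_102_s1

theorem t773_A00pm_102_s1 : ∃ t, chk3 f_A00pm_102_s1 t 22 166 1 = true := ex3_b t772_A00pm_102_s1 k41_A00pm_102_s1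

theorem t774_A00pm_102_s1 : ∃ t, chk3 f_A00pm_102_s1 t 11 166 1 = true := ex3_a t773_A00pm_102_s1 k42_A00pm_102_s1

theorem t775_A00pm_102_s1 : ∃ t, chk3 f_A00pm_102_s1 t 10 333 1 = true := ex3_b k37_A00pm_102_s1 k38_A00pm_102_s1

theorem t776_A00pm_102_s1 : ∃ t, chk3 f_A00pm_102_s1 t 21 332 1 = true := ex3_a k35_A00pm_102_s1 k36_A00pm_102_s1

theorem t777_A00pm_102_s1 : ∃ t, chk3 f_A00pm_102_s1 t 10 332 1 = true := ex3_a k34_A00pm_102_s1 t776_A00pm_102_s1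

theorem t778_A00pm_102_s1 : ∃ t, chk3 f_A00pm_102_s1 t 10 166 1 = true := ex3_b t777_A00pm_102_s1 t775_A00pm_102_s1

theorem t779_A00pm_102_s1 : ∃ t, chk3 f_A00pm_102_s1 t 5 166 1 = true := ex3_a t778_A00pm_102_s1 t774_A00pm_102_s1

theorem t780_A00pm_102_s1 : ∃ t, chk3 f_A00pm_102_s1 t 5 83 1 = true := ex3_b t779_A00pm_102_s1 t771_A00pm_102_s1

theorem t781_A00pm_102_s1 : ∃ t, chk3 f_A00pm_102_s1 t 89 330 1 = true := ex3_b k29_A00pm_102_s1 k30_A00pm_102_s1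

theorem t782_A00pm_102_s1 : ∃ t, chk3 f_A00pm_102_s1 t 44 330 1 = true := ex3_a k28_A00pm_102_s1 t781_A00pm_102_s1

theorem t783_A00pm_102_s1 : ∃ t, chk3 f_A00pm_102_s1 t 44 165 1 = true := ex3_b t782_A00pm_102_s1 k31_A00pm_102_s1

theorem t784_A00pm_102_s1 : ∃ t, chk3 f_A00pm_102_s1 t 22 165 1 = true := ex3_a t783_A00pm_102_s1 k32_A00pm_102_s1

theorem t785_A00pm_102_s1 : ∃ t, chk3 f_A00pm_102_s1 t 11 165 1 = true := ex3_a t784_A00pm_102_s1 k33_A00pm_102_s1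

theorem t786_A00pm_102_s1 : ∃ t, chk3 f_A00pm_102_s1 t 10 165 1 = true := ex3_a k26_A00pm_102_s1 k27_A00pm_102_s1

theorem t787_A00pm_102_s1 : ∃ t, chk3 f_A00pm_102_s1 t 5 165 1 = true := ex3_a t786_A00pm_102_s1 t785_A00pm_102_s1

theorem t788_A00pm_102_s1 : ∃ t, chk3 f_A00pm_102_s1 t 95 657 1 = true := ex3_a k23_A00pm_102_s1 k24_A00pm_102_s1

theorem t789_A00pm_102_s1 : ∃ t, chk3 f_A00pm_102_s1 t 191 1313 1 = true := ex3_a k21_A00pm_102_s1 k22_A00pm_102_s1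

theorem t790_A00pm_102_s1 : ∃ t, chk3 f_A00pm_102_s1 t 95 1313 1 = true := ex3_a k20_A00pm_102_s1 t789_A00pm_102_s1

theorem t791_A00pm_102_s1 : ∃ t, chk3 f_A00pm_102_s1 t 95 656 1 = true := ex3_b k19_A00pm_102_s1 t790_A00pm_102_s1

theorem t792_A00pm_102_s1 : ∃ t, chk3 f_A00pm_102_s1 t 95 328 1 = true := ex3_b t791_A00pm_102_s1 t788_A00pm_102_s1

theorem t793_A00pm_102_s1 : ∃ t, chk3 f_A00pm_102_s1 t 47 328 1 = true := ex3_a k18_A00pm_102_s1 t792_A00pm_102_s1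

theorem t794_A00pm_102_s1 : ∃ t, chk3 f_A00pm_102_s1 t 47 164 1 = true := ex3_b t793_A00pm_102_s1 k25_A00pm_102_s1

theorem t795_A00pm_102_s1 : ∃ t, chk3 f_A00pm_102_s1 t 46 164 1 = true := ex3_b k16_A00pm_102_s1 k17_A00pm_102_s1

theorem t796_A00pm_102_s1 : ∃ t, chk3 f_A00pm_102_s1 t 23 164 1 = true := ex3_a t795_A00pm_102_s1 t794_A00pm_102_s1

theorem t797_A00pm_102_s1 : ∃ t, chk3 f_A00pm_102_s1 t 45 329 1 = true := ex3_a k14_A00pm_102_s1 k15_A00pm_102_s1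

theorem t798_A00pm_102_s1 : ∃ t, chk3 f_A00pm_102_s1 t 22 329 1 = true := ex3_a k13_A00pm_102_s1 t797_A00pm_102_s1

theorem t799_A00pm_102_s1 : ∃ t, chk3 f_A00pm_102_s1 t 22 164 1 = true := ex3_b k12_A00pm_102_s1 t798_A00pm_102_s1

theorem t800_A00pm_102_s1 : ∃ t, chk3 f_A00pm_102_s1 t 11 164 1 = true := ex3_a t799_A00pm_102_s1 t796_A00pm_102_s1

theorem t801_A00pm_102_s1 : ∃ t, chk3 f_A00pm_102_s1 t 5 164 1 = true := ex3_a k11_A00pm_102_s1 t800_A00pm_102_s1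

theorem t802_A00pm_102_s1 : ∃ t, chk3 f_A00pm_102_s1 t 5 82 1 = true := ex3_b t801_A00pm_102_s1 t787_A00pm_102_s1

theorem t803_A00pm_102_s1 : ∃ t, chk3 f_A00pm_102_s1 t 5 41 1 = true := ex3_b t802_A00pm_102_s1 t780_A00pm_102_s1

theorem t804_A00pm_102_s1 : ∃ t, chk3 f_A00pm_102_s1 t 2 41 1 = true := ex3_a k10_A00pm_102_s1 t803_A00pm_102_s1

theorem t805_A00pm_102_s1 : ∃ t, chk3 f_A00pm_102_s1 t 47 326 1 = true := ex3_a k7_A00pm_102_s1 k8_A00pm_102_s1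

theorem t806_A00pm_102_s1 : ∃ t, chk3 f_A00pm_102_s1 t 47 163 1 = true := ex3_b t805_A00pm_102_s1 k9_A00pm_102_s1

theorem t807_A00pm_102_s1 : ∃ t, chk3 f_A00pm_102_s1 t 23 163 1 = true := ex3_a k6_A00pm_102_s1 t806_A00pm_102_s1

theorem t808_A00pm_102_s1 : ∃ t, chk3 f_A00pm_102_s1 t 23 81 1 = true := ex3_b k5_A00pm_102_s1 t807_A00pm_102_s1

theorem t809_A00pm_102_s1 : ∃ t, chk3 f_A00pm_102_s1 t 11 81 1 = true := ex3_a k4_A00pm_102_s1 t808_A00pm_102_s1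

theorem t810_A00pm_102_s1 : ∃ t, chk3 f_A00pm_102_s1 t 5 81 1 = true := ex3_a k3_A00pm_102_s1 t809_A00pm_102_s1

theorem t811_A00pm_102_s1 : ∃ t, chk3 f_A00pm_102_s1 t 5 40 1 = true := ex3_b k2_A00pm_102_s1 t810_A00pm_102_s1

theorem t812_A00pm_102_s1 : ∃ t, chk3 f_A00pm_102_s1 t 2 40 1 = true := ex3_a k1_A00pm_102_s1 t811_A00pm_102_s1

theorem t813_A00pm_102_s1 : ∃ t, chk3 f_A00pm_102_s1 t 2 20 1 = true := ex3_b t812_A00pm_102_s1 t804_A00pm_102_s1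

theorem t814_A00pm_102_s1 : ∃ t, chk3 f_A00pm_102_s1 t 2 10 1 = true := ex3_b t813_A00pm_102_s1 t738_A00pm_102_s1

theorem t815_A00pm_102_s1 : ∃ t, chk3 f_A00pm_102_s1 t 2 5 1 = true := ex3_b t814_A00pm_102_s1 k80_A00pm_102_s1

theorem t816_A00pm_102_s1 : ∃ t, chk3 f_A00pm_102_s1 t 2 2 1 = true := ex3_b k0_A00pm_102_s1 t815_A00pm_102_s1

theorem t817_A00pm_102_s1 : ∃ t, chk3 f_A00pm_102_s1 t 2 1 1 = true := ex3_b t816_A00pm_102_s1 k81_A00pm_102_s1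

theorem t818_A00pm_102_s1 : ∃ t, chk3 f_A00pm_102_s1 t 1 1 1 = true := ex3_a t817_A00pm_102_s1 t736_A00pm_102_s1

theorem c_A00pm_102_s1 : CertF 536870912 536870912 0 536870912 649613803 48318383 true true false .npp 1 0 2
    ndB0q1 ndB0q0 pcB2 cut_A00pm_102_s1 xt_A00pm_102_s1 :=
  certF1 (fam := true) (s1 := true) (s2 := false) (a := 1) (b := 0) (c := 2) (cn := .npp) (n1 := ndB0q1) (n2 := ndB0q0) (pc := pcB2) (cut := cut_A00pm_102_s1) (xt := xt_A00pm_102_s1) (P1 := 536870912) (W1 := 536870912) (P2 := 0) (W2 := 536870912) (P3 := 649613803) (W3 := 48318383)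
    rfl (fun _ => rfl) t818_A00pm_102_s1

theorem s_A00pm_102_s1 {κ x : ℝ} (hκ : κ * h0 = ken x) (hx : ((649613803 : ℕ) : ℝ) / S ≤ x)
    (hx' : x ≤ (((649613803 : ℕ) : ℝ) + (48318383 : ℕ)) / S)
    (H : CutA (VFD κ) PP tK tL pcB (Cut.of [[⟨0, 1, 0, 33554432⟩, ⟨1, 0, 0, 33554432⟩, ⟨2, 1, 0, 33554432⟩]]) 1 0 2 0 0 (sgb true) (sgb false) x) :
    AltA (VFD κ) PP tK tL pcB [⟨3, 0, 0, 1449551462⟩] 1 0 2 0 0 (sgb true) (sgb false) x :=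
  strip_altAD (m := 1449551462) true rfl hκ (SH.κ0 hκ (SH.hx1 hx).le (SH.hx2 hx').le) (SH.hx1 hx).le (SH.hx2 hx') (covB01).cov (covB00).cov hx hx' c_A00pm_102_s1 H ((okx6 hx hx').extA (T := tt) (okx hx hx') (sideB hx hx') hκ rfl rfl (.O 1 true) (.O 0 false) rfl)

end Pool.Agent.Strip051.G.I6050_6500.Tab.St.C
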