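import Pool.Agent.Strip051.G.I6050_6500.Tab
import Pool.Agent.Strip051.PB.ExtD2

/-! # Certificates B25 (generated) -/

set_option linter.all false
set_option maxRecDepth 100000

namespace Pool.Agent.Strip051.G.I6050_6500.Tab.C.BB02

open Pool.Agent.Strip051.PB Pool.Agent.Strip051.PB.T
open Pool.Agent.Strip051.G.I6050_6500.Tab

noncomputable def f_pm_101 : ℕ → ℕ → ℕ → ℕ → Bool := onCell 536870912 536870912 536870912 536870912 649613803 48318383
    (rowB 3 eng mog cd0q1 cd2q1 pd0 0 false true false .npn 1 0 1 (qsf 536870912 536870912 536870912 536870912 0) ndB0q1 ndB2q1 pcB0 Cut.none Ext.none)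

def k0_pm_101 : ∃ t, chk3 f_pm_101 t 2 1 1 = true :=
  ⟨(b (a (l 4) (a (l 4) (b (l 1) (b (a (l 4) (l 1)) (a (b (l 4) (l 16555128)) (b (l 16577008) (l 16553248))))))) (a (b (a (l 4) (b (l 4) (a (l 4) (b (l 4) (a (l 16379336) (l 16385392)))))) (a (b (a (l 4) (b (l 4) (a (l 16275232) (l 16166824)))) (b (a (b (l 16189224) (l 16164496)) (a (l 16151800) (l 16140504))) (a (b (l 16143496) (l 16126440)) (b (l 16120032) (l 16101616))))) (b (b (a (a (l 16286120) (l 16295944)) (l 16317144)) (a (l 16223296) (l 16249872))) (b (a (b (l 16132592) (l 16122280)) (l 16153712)) (a (b (l 16110128) (l 16114472)) (b (l 16113368) (l 16093840))))))) (b (a (b (a (l 4) (b (a (l 4) (l 16531512)) (a (l 16497104) (l 16500968)))) (a (b (a (l 16447784) (l 16452480)) (l 16444016)) (b (l 16467000) (l 16432792)))) (b (a (b (l 16532416) (l 16533224)) (b (l 16539136) (l 16529008))) (a (b (l 16577048) (l 16468688)) (b (l 16519112) (l 16589856))))) (a (b (a (b (l 16352328) (l 16296176)) (b (l 16392680) (l 16345664))) (b (a (l 16340392) (b (l 16308864) (l 16276312)))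 (a (b (l 16307720) (l 16145432)) (l 16275416)))) (b (b (a (l 16437720) (l 16485352)) (a (a (l 16386304) (l 16416632)) (a (l 16444688) (l 16468040)))) (b (a (b (l 16365384) (l 16342584)) (a (l 16403048) (l 16432240))) (a (l 16305448) (a (l 16360216) (l 16393320))))))))), by decide +kernel⟩

def k1_pm_101 : ∃ t, chk3 f_pm_101 t 3 2 1 = true :=
  ⟨(a (b (l 1) (a (b (l 1) (a (b (l 1) (l 16560264)) (l 1))) (l 1))) (l 1)), by decide +kernel⟩

def k2_pm_101 : ∃ t, chk3 f_pm_101 t 3 3 1 = true :=
  ⟨(a (b (a (b (a (b (l 16547688) (l 16541856)) (b (l 16557464) (l 16551464))) (a (b (l 16538624) (a (l 16529240) (l 16539800))) (b (l 16550968) (l 16551536)))) (b (a (b (l 1) (l 163242110327)) (l 1)) (b (a (a (l 16557824) (l 16563320)) (a (l 179885005047) (l 1))) (a (b (l 16561896) (a (l 16562936) (b (l 16566640) (l 16564240)))) (a (b (b (l 16569160) (l 93985660871)) (l 16566912)) (b (b (l 1) (l 16574792)) (l 16573152))))))) (b (a (a (b (b (l 16530440) (c (l 16539024) (l 16599880))) (b (l 16508624) (l 16494800))) (b (a (b (l 16549768)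 (l 16544096)) (b (l 16555512) (l 16551944))) (a (l 16529480) (l 16541064)))) (b (a (a (b (l 16558096) (l 16556528)) (l 16562384)) (a (l 16566096) (l 16612544))) (a (a (b (l 16551760) (l 16545528)) (l 16554472)) (b (l 16564632) (l 16560928))))) (a (a (b (l 16469552) (b (l 16443776) (l 16426600))) (b (l 16570808) (b (l 16485576) (l 16494768)))) (b (a (b (l 16686728) (c (l 16538768) (l 16520488))) (b (l 16555816) (a (l 16544368) (l 16553784)))) (a (b (l 16515712) (l 16563792)) (b (a (l 16535920) (l 16608432)) (a (l 16518424) (l 16530928)))))))) (b (a (b (l 1) (b (l 1) (a (b (l 1) (a (l 16581048) (l 1))) (l 1)))) (l 1)) (a (b (b (a (b (a (l 16577712) (l 16587264)) (l 55331058663)) (b (l 1) (l 207802416439))) (a (b (l 16579008) (l 16577536)) (b (l 16600512) (l 16599400)))) (b (a (b (l 16574864) (l 16614832)) (b (l 16598672) (a (l 16590512) (l 16600080)))) (a (b (l 16621544) (l 16547480)) (l 16577128)))) (b (b (l 1) (a (b (l 1) (l 16632024)) (l 1))) (b (a (b (a (l 16619696) (l 16636640)) (l 16615400)) (b (l 1) (l 16633976)))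 (a (l 16596832) (l 16655216))))))), by decide +kernel⟩

theorem s3_pm_101 : ∃ t, chk3 f_pm_101 t 3 1 1 = true := ex3_b k1_pm_101 k2_pm_101

theorem s4_pm_101 : ∃ t, chk3 f_pm_101 t 1 1 1 = true := ex3_a k0_pm_101 s3_pm_101

theorem c_pm_101 : CertB 536870912 536870912 536870912 536870912 649613803 48318383 3 eng mog cd0q1 cd2q1 pd0 false true false .npn 1 0 1
    ndB0q1 ndB2q1 pcB0 Cut.none Ext.none :=
  certB0 (fam := false) (s1 := true) (s2 := false) (a := 1) (b := 0) (c := 1) (cn := .npn) (n1 := ndB0q1) (n2 := ndB2q1) (pc := pcB0) (cut := Cut.none) (xt := Ext.none) (P1 := 536870912) (W1 := 536870912) (P2 := 536870912) (W2 := 536870912) (P3 := 649613803) (W3 := 48318383) (N0 := 3) (En := eng) (mo := mog) (C1 := cd0q1) (C2 := cd2q1) (C3 := pd0)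
    rfl s4_pm_101

noncomputable def cut_pm_102_a : Cut := Cut.of [[⟨0, 1, 0, 67108864⟩, ⟨1, 0, 0, 67108864⟩, ⟨2, 1, 0, 67108864⟩], [⟨0, 0, 1, 20971520⟩, ⟨1, 1, 2, 20971520⟩, ⟨2, 1, 0, 33554432⟩]]

noncomputable def xt_pm_102_a : Ext := extD2 3 ⟨7, 3, 3, 10, 377, 200, 77, 100, 17, 50, 3, 16⟩ eng cd0q1 cd2q2a pd0 false true false .npp 1 0 2 rfl ndB0q1 ndB2q2a pcB0

noncomputable def f_pm_102_a : ℕ → ℕ → ℕ → ℕ → Bool := onCell 536870912 536870912 0 536870912 649613803 48318383
    (rowB 3 eng mog cd0q1 cd2q2a pd0 0 false true false .npp 1 0 2 (qsf 536870912 536870912 0 536870912 0) ndB0q1 ndB2q2a pcB0 cut_pm_102_a xt_pm_102_a)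

def k0_pm_102_a : ∃ t, chk3 f_pm_102_a t 4 2 1 = true :=
  ⟨(b (l 2) (a (l 2) (b (l 2) (a (l 2) (l 16597000))))), by decide +kernel⟩

def k1_pm_102_a : ∃ t, chk3 f_pm_102_a t 10 2 1 = true :=
  ⟨(a (b (a (l 2) (b (b (a (l 2) (l 16756824)) (l 16733064)) (b (l 16692864) (l 16677936)))) (b (l 16690072) (l 16622680))) (b (b (b (a (b (a (l 16764224) (b (l 16757808) (l 16774416))) (l 16742872)) (b (a (l 16772232) (b (l 16768368) (l 16765144))) (a (b (l 16755608) (l 16751240)) (b (l 16761512) (l 16757512))))) (a (l 16749120) (b (a (l 16744312) (l 16751256)) (l 16738304)))) (b (a (l 16706936) (l 16722584)) (a (l 16691032) (l 16706176)))) (b (b (l 16707888) (l 16672520)) (l 16654264)))), by decide +kernel⟩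

def k2_pm_102_a : ∃ t, chk3 f_pm_102_a t 22 8 1 = true :=
  ⟨(b (a (b (a (b (a (l 16770832) (c (l 16772264) (l 16771320))) (l 16769248)) (b (a (b (a (l 16772184) (b (a (l 16771992) (b (c (l 39359339223) (l 38822465671)) (l 16771840))) (l 16772024))) (l 16771984)) (b (a (a (b (c (b (l 49559886471) (l 40969952455)) (b (l 49559883735) (l 39896207895))) (l 16771784)) (b (c (l 50633627079) (l 50096753559)) (b (a (l 40969951431) (l 50096756871)) (l 39896210007)))) (a (b (l 3) (c (l 50096756247) (l 50633625447))) (l 3))) (a (c (l 16772448) (l 16771328)) (b (c (a (l 40433081591) (l 49559886887)) (a (l 39896207959) (l 50096754999))) (c (l 16772232) (l 16771080)))))) (a (l 16771168) (c (l 16772224) (l 16771176))))) (a (l 16764816) (b (l 16769928) (l 16767552)))) (b (a (b (a (b (l 3) (a (b (l 66202881399) (a (a (l 47949273463) (l 50096757063)) (l 52244239815))) (l 3))) (l 3)) (a (b (b (a (c (l 40969952247) (l 40433078679)) (c (l 51707368247) (l 52244237703))) (a (l 16771592) (c (l 43654306663) (l 42580562183)))) (c (l 16772120) (l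 16771032))) (b (a (b (l 3) (l 53854850087)) (l 3)) (a (b (c (l 46338660887) (l 45264916407)) (l 16772528)) (c (l 53854851095) (l 53317977831)))))) (l 3)) (a (b (a (l 16771248) (a (l 16771368) (b (c (l 43117435143) (l 42043690791)) (l 16771256)))) (a (l 16769864) (l 16770760))) (b (a (b (a (b (l 54928591559) (c (l 47412402247) (l 46338658055))) (l 57612945111)) (a (l 16771056) (c (l 48486143815) (l 47412399591)))) (a (c (l 57612945671) (l 57612943399)) (l 3))) (a (c (l 16771592) (l 16770520)) (b (a (c (l 46875530919) (l 45801786695)) (b (l 59223557911) (l 51707368647))) (c (l 16771312) (l 16770280)))))))) (a (b (a (l 16778408) (l 16762856)) (a (l 16748928) (l 16755536))) (b (a (l 16767344) (b (a (l 16770280) (l 16770736)) (l 16769288))) (a (l 16782072) (l 16766024))))), by decide +kernel⟩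

def k3_pm_102_a : ∃ t, chk3 f_pm_102_a t 22 9 1 = true :=
  ⟨(b (a (l 16727424) (b (a (l 16753528) (l 16759664)) (l 16747784))) (a (l 16720248) (l 16733712))), by decide +kernel⟩

def k4_pm_102_a : ∃ t, chk3 f_pm_102_a t 23 4 1 = true :=
  ⟨(b (a (b (b (l 3) (a (b (l 3) (a (b (l 3) (a (b (l 58149819063) (l 49023014007)) (l 60834169863))) (l 3))) (l 3))) (b (a (b (a (b (a (l 16770584) (c (l 51170497431) (l 50633624407))) (l 16770616)) (b (a (l 59760428183) (l 3)) (a (l 50633626215) (b (l 63518527015) (l 57076076967))))) (a (l 16770408) (c (l 16770880) (l 16769864)))) (b (a (b (l 3) (l 71034715175)) (l 3)) (a (a (b (b (l 62981656359) (l 16769760)) (l 16770000)) (b (l 68887232343) (l 55465463719))) (b (l 3) (a (b (l 72645328311) (l 67276623159)) (l 3)))))) (a (b (l 16769776) (l 16768320)) (b (a (l 16770032) (b (a (l 16769424) (b (l 72645331319) (l 61371042599))) (c (l 16770016) (l 16768984)))) (a (l 16769616) (l 16769616)))))) (b (l 3) (b (l 3) (a (b (a (b (a (b (l 3) (l 76403423735)) (l 3)) (a (b (l 69960976727) (l 16768832))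 (b (l 92509550199) (l 74792810823)))) (l 3)) (a (b (a (l 16769088) (c (l 64592266647) (l 16768072))) (l 16769104)) (b (a (b (l 79624648151) (l 72645330215)) (l 86067097767)) (a (l 16768392) (b (l 78014038455) (l 69424104119)))))) (b (l 3) (a (b (l 3) (a (l 84456490055) (l 3))) (l 3))))))) (a (b (b (a (l 16764776) (l 16768224)) (a (l 16758312) (l 16763792))) (b (l 16732120) (l 16743584))) (b (b (a (b (a (l 16769168) (b (l 16768464) (l 16768688))) (l 16768792)) (b (a (b (a (b (l 74792812695) (l 16767712)) (b (l 88214580583) (l 80698391799))) (a (l 16768008) (l 69960973895))) (b (l 3) (a (b (l 85530225751) (l 75329682199)) (l 93046417095)))) (a (l 16768184) (a (l 16767424) (b (c (l 76403422951) (l 78014033671)) (l 16767016)))))) (a (l 16767416) (b (l 16768112) (l 16768008)))) (b (a (l 16763160) (l 16766720)) (l 16743560))))), by decide +kernel⟩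

def k5_pm_102_a : ∃ t, chk3 f_pm_102_a t 11 5 1 = true :=
  ⟨(b (a (b (a (l 16708280) (l 16723672)) (l 16706176)) (a (b (l 16737024) (l 16727976)) (b (l 16747616) (l 16740312)))) (a (l 16691040) (b (a (l 16722200) (l 16735136)) (l 16722800)))), by decide +kernel⟩

def k6_pm_102_a : ∃ t, chk3 f_pm_102_a t 2 6 1 = true :=
  ⟨(a (a (l 2) (b (a (l 2) (l 16589256)) (a (l 16556152) (l 16568296)))) (a (b (a (l 16606768) (l 16658880)) (a (l 16592072) (b (l 16632424) (l 16633416)))) (b (a (b (l 16681544) (l 16678464)) (b (l 16719976) (l 16720512))) (a (b (l 16679808) (l 16680032)) (b (a (l 16715000) (l 16733088)) (a (l 16694696) (l 16737264))))))), by decide +kernel⟩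

def k7_pm_102_a : ∃ t, chk3 f_pm_102_a t 8 14 1 = true :=
  ⟨(a (l 2) (b (l 16531416) (b (l 16524304) (b (a (l 16518552) (l 16523624)) (a (l 16509464) (l 16517696)))))), by decide +kernel⟩

def k8_pm_102_a : ∃ t, chk3 f_pm_102_a t 8 15 1 = true :=
  ⟨(b (a (a (l 2) (b (c (l 16530032) (l 16468456)) (a (b (l 2) (c (l 141892009323020335) (l 5968466771578779683092955183))) (b (c (l 16496096) (l 16456032)) (l 141595622185992239))))) (b (a (c (l 16536800) (l 16474480)) (c (l 16546376) (l 16483272))) (b (a (c (b (l 16504368) (l 16500104)) (l 16482392)) (l 141981138501730351)) (a (b (l 141737390483570735) (l 141684407759126575)) (b (l 141785219262758959) (l 141558788580245551)))))) (a (a (b (a (l 2) (b (l 1471262722612510267331280943) (l 475107847250038647487332399))) (a (b (c (l 141353660877357103) (l 141097818190430255)) (c (b (l 141003397692653615) (c (l 141001198681161775) (l 140903548266594351))) (b (l 140822596674748463) (l 140761161455337519)))) (b (c (l 141086891875696687) (l 140908289879015471)) (c (b (l 141011850196041775)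 (c (l 141016316974759983) (l 140912481806401583))) (l 140968694284828719))))) (b (c (b (l 141484846409465903) (l 141563736352784431)) (b (l 141327547447296047) (l 141385752828608559))) (b (c (a (l 141098917792776239) (l 141120083401981999)) (a (l 140906915496443951) (l 140914268489105455))) (b (c (a (l 141029373672128559) (l 141056655315763247)) (l 141007039768412207)) (c (a (c (l 141040987277508655) (l 140930692477403183)) (c (l 141075965503750191) (l 140958936193957935))) (a (l 140767346222809135) (l 140784457382559791))))))) (a (b (c (b (l 141519481045581871) (l 141432276016021551)) (b (l 141515082916413487) (l 141046209913143343))) (b (c (a (l 141152312849023023) (l 141197392840622127)) (a (l 140931998124720175) (l 140961959829520431))) (c (a (b (l 141095687992148015) (c (l 141123244518670383) (l 140999137101791279))) (b (l 141148327127531567) (c (b (l 141191139380215855) (l 141178701153288239)) (l 141053356785549359)))) (a (b (l 140858880593149999) (l 140813113416663087)) (b (l 140895851685691439) (l 140855101031825455))))))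 (b (b (c (l 141419562954407983) (l 141205432979259439)) (c (a (l 141320675608330287) (l 141383210350231599)) (l 141293737496084527))) (b (c (a (l 141256354169077807) (l 141330021468291119)) (a (l 141004978237358127) (l 141062084140564527))) (c (a (b (l 141215534794735663) (c (b (l 141266593385988143) (l 141257316255563823)) (l 141122626037596207))) (b (l 141298479225045039) (a (c (l 141330365077340207) (l 141185023339085871)) (c (l 141381423661219887) (l 141231958753755183))))) (a (b (l 140946704115187759) (l 141091702207873071)) (b (l 141012468673953839) (c (l 141058785621393455) (l 140907808886554671)))))))))), by decide +kernel⟩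

def k9_pm_102_a : ∃ t, chk3 f_pm_102_a t 9 14 1 = true :=
  ⟨(b (a (l 16539912) (l 16558944)) (b (a (l 16536056) (l 16559824)) (a (b (l 16535552) (a (l 16528448) (l 16540472))) (a (l 16554224) (l 16572912))))), by decide +kernel⟩

def k10_pm_102_a : ∃ t, chk3 f_pm_102_a t 9 30 1 = true :=
  ⟨(a (a (b (b (l 16520232) (l 142116515913220143)) (b (c (l 141679391352897583) (l 141478249356623919)) (c (l 141610809304088623) (l 141387470916517935)))) (c (b (l 16554248) (b (l 141821228391383087) (l 141773880665112623))) (b (l 16510600) (b (l 141592667321679919) (l 141522298569850927))))) (b (a (b (l 16554296) (l 142108407091118127)) (b (c (l 16598728) (l 16554200)) (l 16574616))) (a (b (c (l 142003541210759215) (l 141758487464476719)) (a (l 141794702658601007) (l 141906646714302511))) (b (a (l 142042573867860015) (l 16581024)) (a (l 142019690281713711) (l 142138575005646895)))))), by decide +kernel⟩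

def k11_pm_102_a : ∃ t, chk3 f_pm_102_a t 36 31 1 = true :=
  ⟨(b (b (c (l 141551847984332847) (l 141305763449307183)) (c (a (l 141460313623822383) (l 141552741343477807)) (a (l 141199179523342383) (l 141274496091340847)))) (b (c (a (b (l 141428359063404591) (l 141411385351094319)) (b (l 141530957267583023) (l 141521267821215791))) (a (l 141134308331454511) (l 141402795350884399))) (c (a (b (c (l 141472751866118191) (l 141323012080255023)) (c (b (l 141467597905461295) (a (l 141435505903009839) (l 141496666251870255))) (a (l 141283223496294447) (l 141339023725150255)))) (b (c (l 141594454088302639) (l 141436124366684207)) (b (a (l 141481547957813295) (l 141728250894925871)) (c (a (c (l 141603181468205103) (l 141521886303387695)) (b (l 141632662127820847) (c (l 141676367727886383) (l 141592529942085679)))) (a (l 141398603526471727) (l 141465055276204079)))))) (a (b (l 141094313593290799) (c (a (l 141127298957738031) (l 141178426261504047)) (l 140991509232255023))) (b (l 141373452133531695) (c (a (l 141234226490540079) (l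 141294768364355631)) (a (l 141065863725547567) (l 141121251637854255)))))))), by decide +kernel⟩

def k12_pm_102_a : ∃ t, chk3 f_pm_102_a t 37 31 1 = true :=
  ⟨(b (b (a (l 141914480651796527) (l 141654721055424559)) (a (c (l 141660974545715247) (l 141365961739255855)) (c (l 141781233659445295) (l 141475363173613615)))) (b (a (c (a (l 141617062793478191) (l 141682415031369775)) (a (l 141300197192056879) (l 141357921566834735))) (a (c (l 141750378610262063) (l 141420662464266287)) (b (l 141655820577112111) (c (l 141822259200950319) (l 141479898669269039))))) (a (a (c (b (l 141616169442836527) (b (c (l 141704199118946351) (l 141534324523876399)) (c (b (l 141708184849973295) (c (a (l 141734229540438063) (l 141774499162865711)) (l 141668121383796783))) (c (l 141580160428638255) (l 141492680510324783))))) (b (l 141279581349855279) (c (b (l 141360945235607599) (l 141359708286238767)) (l 141181381194956847)))) (b (c (l 141958255014838319) (l 141343490478686255)) (c (b (c (l 141781302389669935) (l 141607785661677615)) (c (a (b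 (l 141767558491439151) (a (a (l 141846792045821999) (l 141766596418797615)) (l 141871462343802927))) (b (l 141806934760947759) (c (a (l 141845280240353327) (b (l 141863559625457711) (c (l 141886992973725743) (l 141843012496113711)))) (a (l 141757319285243951) (l 141865827343401007))))) (a (c (l 141637678643937327) (l 141548549457920047)) (a (l 141622010597687343) (b (l 141639877665620015) (l 141641320775450671)))))) (b (l 141340054506586159) (c (a (l 141412965893308463) (l 141629226095099951)) (a (l 141228728926863407) (l 141263157392801839))))))) (c (b (a (b (l 141759449585270831) (l 141988216724946991)) (b (l 141824389506433071) (l 141824389507252271))) (a (a (b (c (l 141838133410447407) (l 141662623817121839)) (c (b (l 141841638105006127) (c (b (l 141886786814197807) (l 141887542728736815)) (l 141798138664222767))) (b (l 141663379732316207) (l 141662555098939439)))) (b (l 141781439824674863) (b (l 141961691012792367) (c (c (a (l 141909670405554223) (l 141924926133059631)) (l 141827275729436719)) (l 141690180335337519)))))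 (b (c (l 141914480767549487) (l 141734160809836591)) (c (b (l 142096724820770863) (c (a (c (l 14) (l 141925544607547439)) (l 14)) (a (l 141857099989549103) (b (l 141887336566521903) (l 141888023761616943))))) (b (l 141733267457228847) (c (a (l 141764947145703471) (l 141794496527843375)) (l 141685919725355055))))))) (b (a (c (l 141499277572980783) (l 141319988408893487)) (l 141647024437198895)) (a (b (c (l 141496322637004847) (l 141311329755725871)) (c (b (l 141493436419440687) (l 141490756359995439)) (l 141303083418599471))) (b (l 141455571975045167) (c (b (l 141545663234654255) (l 141543258053148719)) (l 141351461942280239))))))))), by decide +kernel⟩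

def k13_pm_102_a : ∃ t, chk3 f_pm_102_a t 19 62 1 = true :=
  ⟨(a (b (a (l 142084630130442287) (c (l 142034739867631663) (l 141734366938267695))) (a (c (l 141909670392676399) (l 141593079666327599)) (l 142049377068875823))) (b (a (l 142001617059971119) (l 142126961415880751)) (a (b (l 141992477370957871) (l 141988422923173935)) (c (l 142299447357980719) (l 141937707927257135))))), by decide +kernel⟩

def k14_pm_102_a : ∃ t, chk3 f_pm_102_a t 19 126 1 = true :=
  ⟨(b (a (a (c (l 141911594540826671) (l 141573632055132207)) (l 141859505156063279)) (a (c (l 142167712092012591) (l 141799513030819887)) (l 142300959137087535))) (a (a (c (l 141911938139881519) (l 141558651209236527)) (c (l 142037557373550639) (l 141668945996595247))) (a (c (l 142175546115489839) (a (l 141759174691438639) (l 141821090954903599))) (c (l 142325079729504303) (l 141918810074153007))))), by decide +kernel⟩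

def k15_pm_102_a : ∃ t, chk3 f_pm_102_a t 19 127 2 = true :=
  ⟨(a (b (a (a (l 141883213393215535) (l 141944992217677871)) (a (l 142009863419215919) (b (l 142075971571187759) (l 142080026021920815)))) (c (a (c (l 14) (b (a (l 141931110883000367) (l 141995501048086575)) (a (b (l 141933309907255343) (a (a (l 141911113511256111) (l 141926987714183215)) (c (l 14) (l 141927400030257199)))) (b (l 141998455986749487) (l 14))))) (l 14)) (a (b (a (l 141792434940264495) (l 141853732728274991)) (a (b (l 141792366221508655) (c (a (l 141824801824374831) (l 141855794315837487)) (a (l 141729487884156975) (l 141759449583239215)))) (b (l 141854351204417583) (c (a (b (l 141887336563097647) (l 141887886319239215)) (a (l 141911938141732911) (l 141928430820081711))) (a (l 141790167196729391) (l 141821640724594735)))))) (a (b (l 141918122893344815) (b (l 142099611032404015) (a (c (c (l 14) (l 141928705697218607)) (l 141853870166884399)) (c (l 14) (b (l 141886718084448303) (a (l 141878746623492143) (l 141985536694321199))))))) (c (l 14) (b (l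 141935577642893359) (b (l 142026905828507695) (a (b (l 141920459355521071) (c (l 141946572763889711) (l 141895239301070895))) (c (l 14) (l 141929324169461807)))))))))) (a (a (c (l 14) (b (l 142050957672054831) (b (l 142055836757311535) (l 14)))) (l 14)) (a (l 14) (a (l 14) (b (l 142214166506799151) (b (l 142314771823231023) (c (b (l 142509110525575343) (c (a (l 14) (l 142571095495770287)) (l 14))) (l 14)))))))), by decide +kernel⟩

def k16_pm_102_a : ∃ t, chk3 f_pm_102_a t 19 127 3 = true :=
  ⟨(a (a (b (a (l 141517969272619055) (l 141571845355651119)) (b (a (l 141507798790258735) (l 141562843104608303)) (a (c (a (l 141585520541286447) (l 141613832972582959)) (l 141402383087140911)) (c (b (l 141658363203944495) (c (l 141796832963166255) (l 141606617425018927))) (l 141456121731104815))))) (b (a (l 141628676376789039) (b (l 141690798797979695) (l 141686125874036783))) (a (b (l 141801024825032751) (c (b (l 141719179955470383) (a (l 141702412399820847) (c (b (l 141785219390226479) (l 141785013232042031)) (l 141682208867598383))))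 (b (l 141514464580550703) (a (l 141496666232684591) (l 141525803297865775))))) (a (b (l 141846517129592879) (c (b (l 141766733844725807) (c (b (l 141817792429948975) (l 141817723710767151)) (l 141713751114956847))) (b (l 141558719934234671) (l 141555627557945391)))) (b (l 141877509621022767) (c (b (l 141799238164971567) (c (l 141851190103719983) (l 141746049276706863))) (l 141587582121836591))))))) (b (a (a (b (l 141752302744485935) (l 141748317015425071)) (l 141814356447576111)) (a (l 141881701550751791) (l 141952413908959279))) (a (b (a (c (l 141849746991398959) (l 141639259178991663)) (c (l 141918535203864623) (l 141703237027069999))) (a (c (b (l 141849540833853487) (c (a (b (l 141885343691571247) (l 141885618569822255)) (a (l 141911663257518127) (l 141929392886677551))) (a (l 141779172072341551) (l 141813050782384175)))) (b (l 141635685766627375) (c (l 141778072536743983) (l 141578923465195567)))) (c (b (l 142099542306684975) (c (a (c (l 14) (l 141929324166463535)) (l 14)) (a (l 141847754126327855) (b (l 141883144665006127)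 (l 141883419543289903))))) (b (l 141700831846039599) (c (a (l 141738009093636143) (l 141772368840114223)) (l 141643588508172335)))))) (b (a (c (l 141990690671362095) (l 141770375971749935)) (c (l 142066282113400879) (l 141840882171461679))) (a (c (c (l 14) (b (l 141937158185893935) (c (l 14) (a (l 141891803320565807) (l 141928705688207407))))) (b (l 141769207741530159) (c (a (l 141807553220460591) (l 141843630954201135)) (a (l 141694303493963823) (l 141729144276860975))))) (c (l 14) (b (l 141840950892052527) (c (a (b (l 141880327163166767) (l 141880670760992815)) (a (l 141908777033334831) (l 141927881052307503))) (a (l 141764809693642799) (l 141801299744325679)))))))))), by decide +kernel⟩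

def k17_pm_102_a : ∃ t, chk3 f_pm_102_a t 5 14 1 = true :=
  ⟨(a (a (b (l 16592432) (a (l 16591528) (l 16617456))) (b (b (l 16636896) (l 16640320)) (a (l 16639072) (l 16639008)))) (a (b (a (l 16672480) (l 16675392)) (a (b (l 16658000) (b (l 16684432) (l 16689304))) (c (a (l 16716016) (l 16728632)) (l 16678480)))) (b (a (c (l 16730776) (l 16692792)) (l 16724392)) (a (l 16718368) (l 16742384))))), by decide +kernel⟩

def k18_pm_102_a : ∃ t, chk3 f_pm_102_a t 20 30 1 = true :=
  ⟨(b (a (b (l 16601848) (l 16581928)) (b (l 16628040) (l 16629936))) (b (a (l 142341984701415471) (l 142617000100970543)) (a (a (l 142266668141150255) (l 142401358347550767)) (b (l 142612602054934575) (l 142612052299939887))))), by decide +kernel⟩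

def k19_pm_102_a : ∃ t, chk3 f_pm_102_a t 20 62 1 = true :=
  ⟨(b (a (a (l 142258765403766831) (l 142400946033229871)) (a (l 142544157446914095) (l 142503750418382895))) (a (a (b (l 142258490528858159) (l 142261995224940591)) (b (l 142405893837668399) (l 142411460117217327))) (b (a (l 142369541259001903) (l 142689293008224303)) (a (l 142375313697177647) (l 142514264503091247))))), by decide +kernel⟩

def k20_pm_102_a : ∃ t, chk3 f_pm_102_a t 20 126 1 = true :=
  ⟨(b (a (a (l 142358477373653039) (c (l 142426715883307183) (l 142212311025467439))) (a (l 142494885589090351) (l 142520380538847279))) (a (a (a (l 142237874686754863) (l 142362119518748719)) (c (l 142437229966049455) (l 142219457855094831))) (a (c (l 142395723426201775) (l 142380811220926511)) (a (l 142493511220117551) (c (b (l 142919365867028655) (l 142922939281031343)) (l 142375932125511855)))))), by decide +kernel⟩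

def k21_pm_102_a : ∃ t, chk3 f_pm_102_a t 40 127 2 = true :=
  ⟨(b (a (a (l 142314496952434735) (l 142342122194747567)) (a (l 142323499229003951) (l 142303295715016879))) (c (a (a (c (b (l 142605730128298159) (c (b (l 142635623107182767) (a (l 142622016648626351) (l 142656994868428975))) (a (l 14) (b (l 142604974213349551) (l 142608822504947887))))) (l 14)) (b (l 142267973902221487) (b (a (l 142616175489106095) (l 142651016269922479)) (c (a (l 142577692582510767) (l 142702212291117231)) (c (a (b (l 142594872446877871) (l 142596659153715375)) (l 142630675300597935)) (l 14)))))) (a (b (l 142337449305358511) (b (l 142342397108928687) (c (a (l 142736159718588591) (l 142769763548594351)) (a (a (l 142632805603868847) (l 142650054195544239)) (b (l 142674930650415279) (l 142676511198806191)))))) (b (l 142675480423268527) (c (a (l 142801374513299631) (l 142834291148390575)) (b (l 142723446609264815) (a (l 142709565272834223) (l 142743031663853743))))))) (c (a (l 14) (a (a (l 14) (a (l 14) (b (l 142581609580576943) (c (l 142611639998595247)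 (l 14))))) (b (l 142625109016953007) (a (b (l 142612258473001135) (a (l 142606623475237039) (l 142623872066896047))) (b (l 142646549497888943) (a (l 142640914500124847) (l 142657888213844143))))))) (l 14)))), by decide +kernel⟩

def k22_pm_102_a : ∃ t, chk3 f_pm_102_a t 41 127 2 = true :=
  ⟨(a (a (b (l 142371671606280367) (c (b (l 142831817244410031) (b (l 142655689226649775) (a (l 142822196495204527) (l 142854563395862703)))) (b (l 142286321998708911) (a (b (l 142633630232330415) (b (l 142320406857973935) (c (l 142683864180670639) (a (l 142581403419672751) (l 142598514572378287))))) (b (l 142667440220799151) (c (l 142716574657233071) (a (l 142614869810610351) (l 142631774804836527)))))))) (b (l 142438535668793519) (b (c (l 142896551002783919) (l 142353598378164399)) (c (a (b (l 142884112775741615) (l 142886449238655151)) (l 142916891972010159)) (b (l 142357171792068783) (c (a (l 142749491292340399) (l 142782064329998511)) (a (a (l 142648611079585967) (l 142665309915349167)) (b (l 142689567894798511) (l 142690804845756591)))))))))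 (b (b (a (l 142862053814632623) (c (l 143015092119716015) (l 142837177356157103))) (a (l 142866108265054383) (a (l 142914143187665071) (l 142946303908413615)))) (a (a (b (l 142674037326102703) (c (a (l 142940394037149871) (b (l 142954893849116847) (l 142956886693101743))) (b (l 142766533723553967) (a (l 142760623826370735) (a (l 142772718477869231) (b (l 142780277621538991) (b (l 142781033536045231) (a (l 142779590426869935) (l 142783576157208751))))))))) (b (c (l 142975303536853167) (b (l 142794777432752303) (l 142796839017742511))) (a (b (a (l 142696920916312239) (l 142704823657513135)) (c (l 142972211160563887) (b (l 142792372251558063) (l 142793334324576431)))) (c (l 142986710972547247) (c (l 142852982842212527) (l 142762685430710447)))))) (c (a (b (l 143006364745760943) (l 143009594562298031)) (b (l 143037219796205743) (l 143039831137321135))) (b (a (l 142828381262921903) (l 142860885581103279)) (c (a (l 142876759785308335) (l 142908027152679087)) (b (l 142802267856060591) (a (l 142787699324797103) (l 142819516448063663))))))))),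 by decide +kernel⟩

def k23_pm_102_a : ∃ t, chk3 f_pm_102_a t 20 127 3 = true :=
  ⟨(c (a (l 14) (a (a (l 14) (a (l 14) (b (l 142537422940160175) (b (l 142544363609620655) (b (l 142367891994575023) (b (l 142324736163791023) (c (a (l 142589512316256431) (l 142606417310482607)) (l 14)))))))) (a (c (b (l 142635485652123823) (b (a (l 142625109010399407) (b (l 142657475889397935) (l 142659674913423535))) (a (b (l 142628544985383087) (a (l 142622566390235311) (b (l 142638578031034543) (a (l 142635623093190831) (b (l 142643594553852079) (a (c (l 142665172474167471) (l 142618992970858671)) (l 142646274614001839))))))) (a (b (l 142653558879289519) (b (l 142655208147304623) (l 142656376378785967))) (b (l 142670257715052719) (l 142672319300092079)))))) (l 14)) (b (b (a (l 142637547234820271) (l 142672113137664175)) (a (l 142641945282855087) (l 142676648624717999))) (b (a (b (l 142645243818901679) (l 142647511562404015)) (l 142680565636333743)) (a (b (l 142289208211439791) (c (a (l 142688811977375919) (l 142705167215706287)) (c (a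 (l 142619955047448751) (l 142636585163718831)) (l 14)))) (b (l 142682833380016303) (a (c (l 142721385015050415) (a (l 142626071081222319) (l 142634386139365551))) (c (l 142737534094901423) (b (l 142646480769286319) (l 142646961805901999))))))))))) (a (a (b (a (l 141913793551138863) (l 141989247554175023)) (a (b (l 141914961784668207) (b (a (l 141897025998143535) (l 141935577633538095)) (b (a (l 141897713193599023) (l 141936608426442799)) (a (c (c (l 14) (l 141927881051832367)) (l 141838889307029551)) (c (l 14) (l 141967394737438767)))))) (c (l 14) (b (l 141933103729459247) (b (l 141934890437361711) (a (a (l 141906440568127535) (l 142016391735492655)) (b (l 141956124761096239) (l 14)))))))) (a (b (l 142068824726650927) (b (l 142074597166039087) (l 14))) (l 14))) (l 14))), by decide +kernel⟩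

def k24_pm_102_a : ∃ t, chk3 f_pm_102_a t 21 30 1 = true :=
  ⟨(b (a (b (l 16647880) (l 16629840)) (b (l 16647432) (a (l 143075496525430895) (l 143215065807781999)))) (a (a (l 142817661007642799) (a (l 16612576) (l 142802611470549103))) (a (b (l 16626320) (l 142914074483654767)) (a (l 143029935541436527) (l 143117759048728687))))), by decide +kernel⟩

def k25_pm_102_a : ∃ t, chk3 f_pm_102_a t 84 31 1 = true :=
  ⟨(b (b (l 142639265249755311) (a (l 142612876968640687) (b (l 142857449596862639) (l 142503956611121327)))) (a (b (b (l 142441215633309871) (c (c (l 143073572403822767) (l 142898543858679983)) (l 142447812710809775))) (b (c (c (l 143079482280951983) (l 142905347089383599)) (b (l 142634592293929135) (l 142277869491617967))) (c (a (b (l 142800618624368815) (c (l 143069655395418287) (c (l 142938882203123887) (l 142850577656823983)))) (b (l 143011656142831791) (c (l 143099067336589487) (a (l 142917991476887727) (l 142933315922886831))))) (a (c (b (l 142714306905325743) (b (l 142715818734616751) (b (l 142356140972277935)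 (c (l 142761723355021487) (c (l 142694103375888559) (l 142648748501156015)))))) (l 14)) (b (c (l 142747704576884911) (l 142566766157398191)) (b (c (l 142748391772291247) (l 142297248370344111)) (c (c (l 142793265600266415) (a (l 142695615203836079) (l 142711764283687087))) (c (c (a (l 142627720346861743) (l 142644075585192111)) (l 14)) (l 14))))))))) (b (b (l 142512202865344687) (c (l 143052338078154927) (l 142702830745239727))) (c (b (c (l 143140780064948399) (l 142970493164798127)) (c (b (l 143142223174992047) (b (l 143142498053324975) (l 143142498053587119))) (b (l 142971523958030511) (b (l 142971455238979759) (a (l 142956130793275567) (l 142985955051389103)))))) (a (b (l 142329683985842351) (b (l 142421355694031023) (b (c (l 142780621212516527) (l 142330989639336111)) (c (c (l 142824601687130287) (a (l 142727775924551855) (l 142743650126463151))) (c (a (a (l 142633698941714607) (l 142641876560871599)) (b (l 142654246068748463) (l 142653833752002735))) (l 14)))))) (b (l 142364868364140719) (b (l 142409742097596591) (c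 (c (l 142855937773846703) (a (l 142759936645136559) (l 142775810847031471))) (b (l 142274296076877999) (c (a (b (l 142670463868108975) (l 142669914112360623)) (l 142686269339861167)) (a (l 14) (c (l 142618924249677999) (l 14))))))))))))), by decide +kernel⟩

def k26_pm_102_a : ∃ t, chk3 f_pm_102_a t 85 31 1 = true :=
  ⟨(b (b (b (l 142773749288484975) (l 142780346360856687)) (b (a (l 142929536340721775) (l 143006639607496815)) (c (l 143142841642664047) (l 142624421837291695)))) (a (b (b (l 142584770731606127) (c (l 143116934397689967) (l 142776841634873519))) (b (c (c (l 143200772178641007) (l 143034196130939055)) (b (l 142777460111376559) (l 142416270542192815))) (c (c (c (l 143241247960318191) (l 143158234814316719)) (b (l 143032753022517423) (a (l 143015985467818159) (l 143045328689512623)))) (b (a (l 142397784914460847) (l 142430495391137967)) (c (c (a (l 142886724104798383) (l 142917166838317231)) (b (l 142815943028310191) (a (l 142798556997976239) (l 142829412048404655)))) (a (c (b (l 142711970439069871) (a (l 142702212271997103)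 (l 142718086473892015))) (c (b (l 142645243813527727) (a (l 142635210768498863) (l 142651291128873135))) (l 14))) (b (l 142609990732202159) (a (c (l 142733891956293807) (a (l 142641051924414639) (l 142649092104585391))) (c (l 142749559999725743) (b (l 142661805209944239) (l 142660293381341359))))))))))) (b (b (l 142656032841728111) (c (l 143180225046937711) (c (l 142933590791962799) (l 142764403404882095)))) (c (b (c (l 143259252463599855) (l 143096524707315887)) (a (c (l 143241797714395375) (b (l 143077626848706735) (l 143074328313757871))) (b (c (l 143270866057904367) (l 143107451106836655)) (c (a (l 143262069963800815) (l 143279043677618415)) (a (l 143097143184048303) (a (l 143110680923406511) (l 143121195005280431))))))) (a (b (l 142468222475452591) (b (c (l 142908851778142383) (l 142736434575311023)) (c (c (l 142947197254893743) (l 142861297891049647)) (b (l 142732242686967983) (c (b (l 142773680540205231) (l 142772031272632495)) (a (b (l 142677885570302127) (l 142676167583236271)) (l 142692866408186031))))))) (b (l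 142501895025049775) (a (b (l 142666959206400175) (c (b (l 142928505552355503) (c (l 142970424442290351) (l 142885143553851567))) (b (l 142666271993528495) (a (b (l 142749491278856367) (b (l 142748597925626031) (a (l 142745574246711471) (l 142751621583257775)))) (b (l 142759799202250927) (c (l 142804879188410543) (l 142718086471565487))))))) (b (b (l 142864390265979055) (a (l 142857518317371567) (a (l 142864046668824751) (l 142869269350023343)))) (b (c (a (l 142942043291697327) (l 142953656885428399)) (a (l 142771000478711983) (l 142784057181749423))) (c (a (l 142944860791161007) (l 142957161579823279)) (a (c (l 142817386135404719) (l 142731349332934831)) (c (l 142830923874877615) (a (l 142742138292813999) (l 142749216400277679)))))))))))))), by decide +kernel⟩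

def k27_pm_102_a : ∃ t, chk3 f_pm_102_a t 43 31 2 = true :=
  ⟨(b (a (b (l 143266811598651503) (b (l 143272103001079919) (l 143273339953021039))) (b (l 143407068076540143) (a (l 143372914492637423) (b (l 143445344833700079) (l 143450704955080943))))) (b (b (a (a (l 143242003866828911) (l 143304126285414639)) (a (l 143377037663731951) (l 143457439466291439))) (a (a (c (l 143317664028606703) (l 143161189745655919)) (a (l 143287221292089583) (l 143324535974953199))) (c (l 143489119155159279) (l 143359033156042991)))) (b (a (b (a (a (l 143222624972587119) (l 143253617462476911)) (l 143310929516937455)) (a (a (l 143221250583347311) (l 143256503681646703)) (l 143315327564890351))) (c (a (l 143459294897897711) (l 143533580665929967)) (a (l 143325291888132335) (l 143412015883731183)))) (c (a (a (b (l 143319863054090479) (l 143323711346065647)) (b (l 143391812359962863) (l 143396004249403631))) (a (b (l 143465136055369967) (l 143469259225333999)) (b (l 143539353103925487) (l 143543407554396399)))) (c (a (a (b (l 143202765040140527)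 (l 143207369246605551)) (l 143286190501085423)) (a (l 143368653888585967) (l 143452079348711663))) (a (a (b (l 143123600185884847) (l 143128891587297455)) (b (l 143210736498917615) (l 143216440217288943))) (b (l 143344121028116719) (a (l 143305088358858991) (l 143394836012007663))))))))), by decide +kernel⟩

def k28_pm_102_a : ∃ t, chk3 f_pm_102_a t 43 62 3 = true :=
  ⟨(a (b (l 142949327545991343) (a (l 142921496155898031) (l 143001142044164271))) (b (l 142946647518937199) (c (a (l 143158921994125423) (l 143252449219035247)) (l 142884937418358959)))), by decide +kernel⟩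

def k29_pm_102_a : ∃ t, chk3 f_pm_102_a t 86 63 3 = true :=
  ⟨(b (a (b (l 142923351584358575) (c (l 143001073330438319) (l 142837108624539823))) (b (c (l 143077008364929199) (l 142920740241621167)) (a (b (l 142975784555774127) (l 142978189738705071)) (l 143026568259010735)))) (c (b (a (b (l 142998530710323375) (a (l 142977571266642095) (l 143020314789265583))) (l 143090133790458031)) (b (a (a (a (l 142967744380289199) (l 142990627970433199)) (l 143026911861080239)) (l 143099960678678703)) (c (c (a (l 143069449227272367) (l 143161739502059695)) (a (l 143029591922360495) (l 143125112013144239))) (a (a (l 142944585912254639) (b (l 142992620835471535) (l 142996331688329391))) (b (l 143068006115737775) (a (l 143046496915865775) (l 143097005740785839))))))) (a (a (b (b (l 142813400401739951) (l 142810582903390383)) (b (b (l 142810926501429423) (l 142814018878914735)) (b (l 142818279487717551) (a (c (l 142850852526948527) (c (l 142787905473364143) (l 142745711706046639))) (c (l 142877378250047663) (b (l 142793884068610223) (c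 (l 142816836378722479) (l 142775535964782767)))))))) (b (b (l 142853395144622255) (l 142858549107228847)) (b (l 142866795446894767) (b (l 142873117640638639) (a (b (l 142862672278519983) (c (l 142905003485085871) (c (l 142844667772125359) (a (l 142797045165113519) (l 142811407538487471))))) (c (l 142930635854676143) (c (l 142871468373033135) (c (l 142841712833527983) (a (l 142814637354270895) (l 142829137166614703)))))))))) (a (b (l 142909745126654127) (b (l 142921977197199535) (b (l 142928299390927023) (a (c (l 142957367736205487) (c (l 142899505924866223) (c (l 142870368860766383) (a (l 142843636978974895) (l 142858205510795439))))) (c (l 142984168337211567) (c (l 142927543476682927) (c (l 142899093607481519) (a (l 142872774042615983) (l 142887411293929647))))))))) (b (l 142965407913296047) (b (l 142977571264348335) (b (l 142983824738599087) (a (b (l 142973173218050223) (c (l 143012137169617071) (c (l 142956817979408559) (a (l 142912562627412143) (l 142927062439739567))))) (c (l 143038044417114287) (c (l 142983962177700015)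 (c (l 142956817978802351) (l 142938676033224879)))))))))))), by decide +kernel⟩

def k30_pm_102_a : ∃ t, chk3 f_pm_102_a t 87 63 3 = true :=
  ⟨(b (a (b (a (l 143067318914613423) (l 143119477007138927)) (a (l 143079276107514031) (l 143132258833924207))) (c (l 143270797325893743) (l 143140436450279599))) (c (c (b (l 143271072207438063) (b (l 143190051947233519) (a (a (l 143214722228060335) (l 143262482273272047)) (l 143334706445861103)))) (b (l 143205376373424303) (a (a (c (l 143159746634596527) (l 143125043291472047)) (b (l 143189983209078959) (l 143197061317361839))) (a (a (l 143232039537049775) (l 143257809345560751)) (l 143296567137534127))))) (b (a (c (l 143084498789564591) (l 143014198750134447)) (l 143162632848162991)) (a (c (b (l 143095906226192559) (b (l 143101816102977711) (a (a (l 143065119896010927) (l 143092264094384303)) (b (l 143132121398182063) (l 143134114263597231))))) (b (l 143026911857148079) (b (l 143033440209371311) (b (a (l 143007945279111343) (l 143065738369810607)) (a (c (l 143027599042969775) (a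 (l 142978052301062319) (l 143007326803624111))) (c (l 143084567510532271) (l 143051375996403887))))))) (a (b (l 143146140172140719) (c (l 143185791308578991) (a (l 143108275733659823) (l 143137412797169839)))) (b (l 143202902470361263) (c (l 143240835630268591) (l 143181255831371951)))))))), by decide +kernel⟩

def k31_pm_102_a : ∃ t, chk3 f_pm_102_a t 11 30 1 = true :=
  ⟨(a (b (a (b (l 143424935123877999) (a (l 16694088) (a (l 16706200) (l 16713984)))) (c (l 16739376) (l 16719936))) (b (a (a (l 143247432723071087) (l 143440053450244335)) (a (c (l 16742056) (l 16722472)) (c (l 16755352) (l 16740664)))) (a (a (l 143256503698489455) (c (l 16729176) (l 16705816))) (c (l 143797394800427311) (l 143870168693555439))))) (b (a (a (l 16751896) (l 16765544)) (l 16783192)) (a (b (c (a (l 16768016) (l 16779584)) (l 16745128)) (a (l 144229365463630127) (l 16780856))) (b (b (l 16793128) (l 16775880)) (a (l 16794168) (b (l 16805928) (l 16806528))))))), by decide +kernel⟩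

def k32_pm_102_a : ∃ t, chk3 f_pm_102_a t 11 31 2 = true :=
  ⟨(a (b (a (a (b (a (l 16713280) (l 16720320)) (c (l 143625389899251951) (l 143515163831943407))) (b (l 143727575772709103) (c (l 143779596431950127) (l 143695002734117103)))) (b (l 143803716995891503) (a (l 143907208517894447) (l 144079419554726191)))) (a (b (a (c (l 143636522458808559) (b (l 143526296391287023) (l 143534680170381551))) (c (l 143790247955104047) (b (l 143705654257041647) (l 143713625719226607)))) (a (a (a (b (l 143533992979874031) (c (l 143597627231060207) (l 143487676042805487))) (b (l 143574881075871983) (c (l 143635354230554927) (l 143531656515829999)))) (c (b (l 143684763541848367) (l 143692322686861615)) (b (l 143588212653752559) (c (l 143621541608784111) (l 143574262597665007))))) (c (a (b (l 143761454491271471) (l 143768807477838127)) (l 143842406049399087)) (b (a (l 143677479269712111) (l 143767501799784751)) (a (c (l 143707440969777455) (l 143666552871157999)) (l 143776847651782959)))))) (b (a (c (l 143946584791007535) (l 143891540473987375))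 (c (l 144105051930083631) (l 144075846140920111))) (a (a (c (l 143920196510171439) (l 143862678292054319)) (b (l 143972079719629103) (l 143979913742745903))) (c (a (l 144077426698731823) (l 144156591548563823)) (a (l 144045334691545391) (l 144137281366311215))))))) (a (b (a (b (l 16772320) (l 16774224)) (l 144239123669418351)) (a (b (c (l 144264756018970991) (l 144261388757614895)) (c (l 144275407542321519) (a (l 144229640357757231) (l 144321037276053871)))) (b (l 144610208849903983) (c (l 144429064315076975) (l 144453597166649711))))) (b (c (l 16801312) (l 16823280)) (a (b (l 16799528) (l 144463149196607855)) (b (l 16809184) (c (l 16810016) (l 16812960))))))), by decide +kernel⟩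

def k33_pm_102_a : ∃ t, chk3 f_pm_102_a t 11 31 3 = true :=
  ⟨(a (b (a (a (b (a (l 143272996340252783) (l 143380130023653487)) (c (l 143402326424862959) (l 143286740239073391))) (b (l 143546293747777775) (c (l 143608897208418543) (l 143521279854870767)))) (c (b (l 143729499937931503) (l 143744274631344367)) (b (l 143859517173678319) (l 143699125922267375)))) (a (b (a (a (c (l 143371814975045871) (l 143255129277874351)) (c (l 143473725977313519) (l 143370852897538159))) (c (b (l 143623053425672431) (l 143633430070214895)) (a (l 143487538589778159) (l 143605117635117295)))) (a (c (b (a (l 143389063569359087) (l 143490699693654255)) (a (c (l 143428714717446383) (b (l 143371059063390447) (l 143377931013193967))) (c (l 143526777428295919) (l 143479223539630319)))) (b (a (l 143276913358831791) (c (l 143416894959124719) (l 143367416925077679))) (a (b (l 143220975708340399) (a (a (l 143253754893402287) (l 143282342200918191)) (l 143325291881644207))) (c (l 143431463492731119) (b (l 143379442837192879) (l 143387757896401071))))))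 (c (b (a (l 143593160451571951) (l 143696445843095791)) (a (c (l 143625664772767983) (l 143584776674590959)) (c (l 143725308031353071) (l 143691154443124975)))) (b (a (l 143508429317390575) (l 143625527326294255)) (a (c (l 143543957296103663) (l 143503000478892271)) (c (l 143657138294128879) (l 143623259584315631))))))) (c (b (a (a (l 143784681663693039) (l 143889753761382703)) (l 144048289620541743)) (a (a (b (l 143800418429239535) (l 143811894585655535)) (l 143910507050533167)) (a (l 144015441709007151) (l 144120788684144943)))) (b (a (a (l 143723521314046191) (l 143842680907071727)) (l 144022451088408815)) (b (a (a (l 143743381249310959) (l 143861922366931183)) (l 144040661755969775)) (a (a (l 143757674905010415) (l 143875734986227951)) (a (l 143994344823079151) (l 144113435696087279)))))))) (b (a (a (l 144057223174963503) (a (l 144226135675257135) (l 16808320))) (c (b (l 16803168) (l 16805544)) (b (l 16805976) (l 16829856)))) (a (a (b (l 144081756038005039) (c (a (l 144226547975962927) (l 144331139036152111)) (a (l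 144226822850199855) (l 144345295247196463)))) (b (l 144301795836854575) (c (l 144483009103085871) (l 144337186375893295)))) (b (a (l 144691435300929839) (b (l 16815904) (l 16817376))) (a (c (l 144677004214321519) (l 144556745136980271)) (a (l 144854781524738415) (a (l 144927005704601967) (l 144968993311179119)))))))), by decide +kernel⟩

def k34_pm_102_a : ∃ t, chk3 f_pm_102_a t 12 8 1 = true :=
  ⟨(l 3), by decide +kernel⟩

def k35_pm_102_a : ∃ t, chk3 f_pm_102_a t 48 9 1 = true :=
  ⟨(b (a (b (b (l 3) (a (b (a (b (l 3) (l 88214584215)) (l 3)) (a (b (l 76403422519) (l 16766448)) (b (l 95193899751) (c (l 82845870567) (l 86603966423))))) (l 3))) (b (a (a (l 16767008) (c (l 71034712551) (l 16765744))) (b (c (a (b (l 89825191335) (l 76403420535)) (l 98951995287)) (a (b (l 92509543735) (l 78550902151)) (l 101636347703))) (a (l 16765896) (b (c (l 85530223687) (l 88751446935)) (l 16765256))))) (a (l 16767360) (b (l 16768672) (l 16766496))))) (b (l 3) (b (a (b (l 3) (a (b (l 106468186231) (c (l 91435802567) (l 94120154935))) (l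 3))) (l 3)) (a (b (a (b (c (l 78550902583) (l 80698384215)) (l 16765048)) (a (b (l 95730768135) (l 79087772983)) (b (l 3) (l 91435800631)))) (a (l 16765480) (c (l 16765240) (l 16764064)))) (b (a (b (l 3) (l 104857571879)) (l 3)) (a (a (b (l 88214577495) (l 16764184)) (b (l 100562604919) (l 84456480807))) (b (l 3) (c (l 98415121559) (l 101099473959))))))))) (a (b (b (l 16767360) (l 16767400)) (l 16766248)) (b (b (a (l 16765904) (b (a (l 16764456) (b (a (l 80698383543) (l 93046411719)) (l 16763728))) (l 16764672))) (a (l 16766736) (l 16765576))) (l 16767152)))), by decide +kernel⟩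

def k36_pm_102_a : ∃ t, chk3 f_pm_102_a t 49 9 1 = true :=
  ⟨(b (l 3) (b (a (b (a (b (a (b (l 110226279287) (a (l 89288313479) (l 102710086855))) (l 3)) (b (a (c (l 81235251607) (l 84456474775)) (c (l 101636345239) (l 103783826775))) (a (l 16763504) (c (l 88751444231) (a (l 16762184) (l 96804505239)))))) (b (l 3) (a (b (l 3) (l 111836890215)) (l 3)))) (a (b (a (l 16764056) (l 16763112)) (l 16764312)) (b (a (a (b (l 90898924007) (l 16762552)) (b (l 105931310551) (l 87140827399))) (b (l 3) (c (l 104857568903) (l 106468179527)))) (a (l 16762896) (b (c (l 91972667959) (a (l 16761328) (l 99488858023))) (l 16762064)))))) (b (l 3) (a (b (l 3) (a (b (l 113984372007) (a (a (l 88214567767) (l 97878245911)) (l 109152534167))) (l 3))) (l 3)))) (a (b (a (l 16765272) (b (l 16763184) (l 16763936))) (l 16765704)) (b (a (b (a (b (c (l 86603956887) (l 88751438199)) (l 16761824)) (b (c (l 108078792455) (l 109689403095)) (a (l 86067083175) (a (l 96267629959) (l 106468178823))))) (a (l 16762456) (c (l 16761880) (l 16760768)))) (b (a (b (l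 3) (l 117205595511)) (l 3)) (a (b (a (a (l 91435791335) (l 101099469447)) (l 112373757671)) (c (l 89288309511) (l 91435790855))) (a (c (l 111836886935) (l 113447497607)) (l 3))))) (a (l 16763152) (b (a (l 16761112) (b (a (l 89288306679) (a (l 100562597383) (l 110226273175))) (l 16760168))) (l 16761424))))))), by decide +kernel⟩

def k37_pm_102_a : ∃ t, chk3 f_pm_102_a t 25 9 1 = true :=
  ⟨(a (b (l 3) (b (l 3) (a (b (l 3) (a (b (a (b (l 129553624391) (a (a (l 94657014615) (l 104857563767)) (l 116131851959))) (l 3)) (a (b (c (l 93046405335) (l 94120143703)) (l 16759896)) (a (b (l 111836884375) (l 93583275095)) (b (l 3) (a (l 104320691639) (l 113447496503)))))) (l 3))) (l 3)))) (l 3)), by decide +kernel⟩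

def k38_pm_102_a : ∃ t, chk3 f_pm_102_a t 24 10 1 = true :=
  ⟨(b (a (b (a (l 16762248) (l 16766576)) (l 16757840)) (b (a (l 16767024) (b (l 16763720) (l 16765184))) (a (l 16767008) (l 16766824)))) (a (l 16749072) (b (l 16763928) (l 16754264)))), by decide +kernel⟩

def k39_pm_102_a : ∃ t, chk3 f_pm_102_a t 25 40 1 = true :=
  ⟨(a (a (b (a (b (a (l 16760584) (c (l 16759840) (l 16758808))) (l 16760912)) (b (a (b (a (c (l 103783820983) (l 105931302679)) (l 119889946135)) (c (l 96267628487) (l 97341368919))) (c (l 119889945479) (l 121500556311))) (a (l 16759088) (a (b (l 96267627879) (l 16758376)) (b (a (l 109152527639) (l 118279332455)) (l 16757720)))))) (a (l 16762264) (b (l 16759424) (l 16760392)))) (b (a (b (l 3) (a (b (l 3) (c (a (l 108078785959) (l 122574299191)) (l 116131849751))) (l 3))) (l 3)) (a (b (a (b (c (a (l 16757968) (l 104857560135)) (l 100025720807)) (l 16757744)) (a (b (l 120963685351) (a (l 16756912) (l 104857559863))) (c (l 119889943399) (l 122574296247)))) (a (l 16758496) (c (l 93583270711) (l 93583269527))))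 (b (l 3) (a (a (b (c (b (l 119353072391) (l 104857558791)) (l 115058103719)) (l 16756416)) (b (l 129016746951) (c (l 108615654055) (l 107541910647)))) (c (l 126869262359) (l 129553615335))))))) (l 3)), by decide +kernel⟩

def k40_pm_102_a : ∃ t, chk3 f_pm_102_a t 25 41 1 = true :=
  ⟨(a (a (l 16763832) (b (a (l 16759360) (b (a (c (l 16757208) (l 16756384)) (b (c (a (l 102173202663) (l 119353070471)) (a (l 102173201719) (l 122037423559))) (c (l 95730751511) (l 95730750647)))) (a (l 16757904) (l 16756544)))) (a (l 16761472) (l 16758984)))) (a (b (a (b (a (b (l 3) (c (a (l 115058102807) (l 3)) (l 122574293431))) (l 3)) (a (b (c (a (l 16755496) (l 109689393303)) (l 102710070807)) (l 16755400)) (b (c (l 129553614807) (l 132774838967)) (c (a (l 101636328983) (l 123111164199)) (l 111836874551))))) (l 3)) (a (b (a (l 16756280) (a (l 16755208) (b (a (l 16754328) (l 98951974039)) (l 16754808)))) (l 16756936)) (b (a (b (c (a (l 117742454679) (l 3)) (l 125258645559)) (c (a (l 16754304) (l 111836874519)) (l 103246939511))) (b (l 3)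 (l 133311708279))) (a (l 16754136) (a (b (l 104857553511) (l 16754040)) (b (l 126869258071) (l 97878230343))))))) (b (l 3) (a (a (b (l 3) (c (l 129016740599) (l 128479868503))) (l 3)) (l 3))))), by decide +kernel⟩

def k41_pm_102_a : ∃ t, chk3 f_pm_102_a t 25 21 1 = true :=
  ⟨(a (b (a (l 16766480) (l 16763688)) (a (l 16764784) (l 16766504))) (b (a (a (l 16760296) (a (l 16758312) (b (l 16755480) (l 16758296)))) (b (a (b (a (a (l 87677683191) (b (l 113984356103) (l 16753256))) (a (b (l 3) (l 107005034199)) (l 134385448407))) (a (l 16754728) (b (c (l 93583261687) (l 93583261015)) (l 16753592)))) (a (b (l 3) (b (l 129553610119) (a (l 91435777751) (l 118816192631)))) (l 3))) (a (l 16756168) (b (a (c (l 16753488) (l 16752744)) (b (c (l 120426805063) (l 119889932791)) (c (l 94657002023) (l 95193872087)))) (a (l 16754672) (l 16753152)))))) (a (a (l 16764808) (l 16762848)) (a (l 16760376) (b (l 16756144) (l 16759040)))))), by decide +kernel⟩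

def k42_pm_102_a : ∃ t, chk3 f_pm_102_a t 12 11 1 = true :=
  ⟨(a (b (a (l 16744496) (l 16750936)) (a (l 16743848) (l 16749928))) (b (a (l 16734576) (b (a (b (l 16766424) (l 16766576)) (b (l 16763016) (l 16765184))) (a (l 16761680) (l 16766600)))) (a (l 16753624) (l 16734896)))), by decide +kernel⟩

def k43_pm_102_a : ∃ t, chk3 f_pm_102_a t 13 4 1 = true :=
  ⟨(l 3), by decide +kernel⟩

def k44_pm_102_a : ∃ t, chk3 f_pm_102_a t 26 10 1 = true :=
  ⟨(a (b (l 3) (a (b (b (l 3) (a (b (a (l 136532929479) (l 3)) (a (b (c (l 109152515847) (l 109152514439)) (l 83382712887)) (a (l 126332382871) (l 3)))) (l 3))) (b (a (b (a (l 16753120) (b (c (l 97878226647) (l 97878225207)) (l 16751952))) (l 16753872)) (b (a (b (l 140827895815) (c (l 113984352359) (l 113447480023))) (l 3)) (a (c (l 81772098567) (l 81772097783)) (b (l 130627348407) (c (l 101099449591) (l 101099448983)))))) (a (l 16756144) (b (a (l 16753088) (l 16751512)) (l 16753864))))) (b (l 3) (b (l 3) (a (b (a (b (c (l 119889930663) (l 118816187447)) (c (l 88751418583) (l 88751417719)))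 (l 139754151367)) (a (l 16751496) (b (c (l 106468157079) (l 107541898135)) (l 16750288)))) (a (a (b (l 3) (l 127406121175)) (l 3)) (l 3))))))) (l 3)), by decide +kernel⟩

def k45_pm_102_a : ∃ t, chk3 f_pm_102_a t 26 11 1 = true :=
  ⟨(b (a (b (a (b (l 16757664) (l 16760600)) (b (a (b (l 16752288) (l 16753880)) (b (a (b (c (l 93583255079) (l 94120125351)) (l 16750280)) (b (l 145122859591) (c (l 113984348855) (l 112373734807)))) (a (l 16751496) (c (l 77477127879) (l 76940256327))))) (a (l 16756256) (b (l 16752320) (l 16753960))))) (a (b (l 16763288) (l 16765488)) (b (l 16757944) (l 16761032)))) (b (a (b (a (b (l 3) (a (b (l 133848570423) (c (l 101636317863) (l 99488832855))) (l 3))) (l 3)) (a (b (a (l 16749880) (b (c (l 122574281719) (l 122037409591)) (c (l 88751415143) (l 86603930919)))) (a (l 16751552) (l 16749920))) (b (a (l 144585986103) (l 3)) (a (b (a (l 89288285687) (l 134385440519)) (l 74792771399)) (b (l 3) (c (l 141901632919) (l 137069793575))))))) (l 3)) (a (b (a (l 16753312) (b (a (l 16750000) (b (c (l 97341348215)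 (l 94120122295)) (l 16748784))) (l 16750928))) (a (l 16756672) (l 16753536))) (b (a (b (a (b (l 160692112791) (c (l 120426796631) (l 115058086359))) (l 3)) (a (c (l 79624608599) (l 16748048)) (b (l 149417823831) (c (l 108078765287) (l 102173184743))))) (l 3)) (a (b (a (l 16750208) (l 16748544)) (l 16751152)) (b (a (b (l 137606663975) (l 91972635751)) (l 152102176039)) (a (l 16748656) (b (l 116131827687) (l 90362022999))))))))) (a (a (l 16762768) (b (b (l 16763688) (l 16765648)) (l 16765016))) (b (a (b (l 16758440) (l 16761464)) (b (a (l 16753800) (b (l 16749624) (l 16751424))) (l 16755680))) (a (b (l 16764128) (l 16765504)) (b (l 16759032) (l 16772520)))))), by decide +kernel⟩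

def k46_pm_102_a : ∃ t, chk3 f_pm_102_a t 27 5 1 = true :=
  ⟨(b (l 3) (b (a (b (l 3) (a (b (l 3) (a (a (b (l 3) (c (l 151028434839) (l 115058082663))) (l 3)) (l 3))) (l 3))) (l 3)) (a (b (a (b (a (b (a (c (l 98951959415) (l 119889924583)) (b (l 3) (c (l 136532921415) (l 101636311095)))) (a (l 16748928) (b (c (l 100025700663) (l 119353051415)) (l 16747696)))) (b (l 3) (a (b (c (l 150491563495) (l 104320664071)) (c (l 126869245287) (l 106468149623))) (l 3)))) (a (l 16750832) (b (a (c (l 16747608) (b (l 125795502343) (l 16747488))) (a (b (l 93583247671) (l 122574276199)) (c (l 141364758375) (l 91435762615)))) (a (l 16749248) (c (l 16747784) (l 16747208)))))) (b (l 3) (a (b (l 3) (a (b (c (l 140291016807) (a (l 104857536583) (l 78550860151))) (c (l 104857537831) (l 112373728903))) (b (l 3) (c (l 169818915383) (l 101636308711))))) (l 3)))) (a (b (a (l 16754440) (l 16751184)) (l 16756384)) (b (a (b (a (l 16747744) (b (c (l 134922308071) (a (l 107005019431) (l 88214537047))) (c (l 16746704) (l 113984341751)))) (a (l 16749624)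 (l 16747960))) (b (a (b (l 3) (c (l 160692110295) (l 102710051047))) (l 3)) (b (a (c (a (l 16746376) (l 143512242231)) (l 95193859255)) (l 3)) (a (l 16746768) (c (a (l 127406115111) (l 177871979079)) (l 91972633367)))))) (a (l 16751616) (b (a (l 16748208) (c (b (a (l 16746624) (l 120963663943)) (l 16747192)) (l 100025698311))) (l 16749296)))))) (b (l 3) (a (b (l 3) (a (b (a (b (c (l 174650752999) (l 149954690471)) (c (a (l 114521213095) (l 161765852263)) (l 95193859751))) (l 3)) (a (c (b (a (l 16746896) (l 108078762279)) (l 16747472)) (l 16746600)) (c (b (a (b (l 175187624839) (l 141901629319)) (l 3)) (a (l 102173182135) (b (l 163913335975) (l 131701082279)))) (b (l 144585982039) (l 97878214871))))) (l 3))) (l 3)))))), by decide +kernel⟩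

def k47_pm_102_a : ∃ t, chk3 f_pm_102_a t 7 2 1 = true :=
  ⟨(l 3), by decide +kernel⟩

def k48_pm_102_a : ∃ t, chk3 f_pm_102_a t 12 6 1 = true :=
  ⟨(b (a (b (l 16746712) (l 16748528)) (b (a (l 16756656) (b (l 16756328) (l 16757560))) (a (l 16758496) (l 16740048)))) (a (b (a (l 16746928) (l 16758336)) (a (l 16755592) (c (l 16747216) (l 16766632)))) (b (l 16764912) (a (b (l 16769672) (l 16754888)) (b (l 16771672) (l 16776368)))))), by decide +kernel⟩

def k49_pm_102_a : ∃ t, chk3 f_pm_102_a t 26 12 1 = true :=
  ⟨(b (a (l 16735304) (b (a (l 16763440) (l 16765192)) (l 16757240))) (a (b (l 16757784) (l 16761080)) (b (l 16756392) (l 16757272)))), by decide +kernel⟩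

def k50_pm_102_a : ∃ t, chk3 f_pm_102_a t 54 24 1 = true :=
  ⟨(b (a (b (a (l 16761072) (l 16758320)) (l 16762704)) (b (a (l 16755288) (l 16752160)) (a (l 16758728) (l 16755864)))) (a (l 16764992) (b (a (l 16761904) (l 16759248)) (l 16763448)))), by decide +kernel⟩

def k51_pm_102_a : ∃ t, chk3 f_pm_102_a t 55 24 1 = true :=
  ⟨(b (a (b (a (b (c (a (l 16749000) (c (l 16747296) (l 16747240))) (l 16747712)) (l 16749928)) (b (a (c (b (a (b (l 153712788967) (l 120426792727)) (l 177335107879)) (a (l 16746504) (c (b (l 144585983719) (l 110763116503)) (l 130090469431)))) (b (l 107541889863) (l 16745864))) (b (l 3) (c (a (b (l 3) (l 164987077767)) (l 3)) (l 149954690647)))) (a (c (l 16747632) (l 16747320)) (a (b (a (l 101636310903) (b (l 148880951063) (l 16745856))) (l 16746816)) (c (c (a (b (l 158544626983) (l 16746176)) (b (l 183777558983) (l 122574276391))) (l 141364758583)) (l 108078761799)))))) (a (l 16752824) (a (l 16750488) (b (l 16747912) (l 16749896))))) (b (a (b (l 3) (a (c (a (b (l 3) (a (b (l 175724496135) (l 126332372551))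 (l 174650753975))) (l 3)) (l 152639044999)) (l 3))) (l 3)) (a (b (a (c (b (a (c (l 108615632775) (l 16746208)) (a (b (l 162839594631) (l 16745808)) (l 166597690679))) (l 97878214407)) (l 103246924567)) (c (b (l 3) (a (c (b (l 162302723527) (l 125795501767)) (l 145122854791)) (l 184851300807))) (l 145122853127))) (a (l 16748320) (c (a (l 16747128) (b (b (a (l 131164210647) (l 175187625559)) (l 113984341447)) (l 16746808))) (l 87140797271)))) (b (l 3) (a (b (c (a (l 178945721191) (l 3)) (l 171429527703)) (c (b (a (a (l 16745896) (l 162839594999)) (l 3)) (a (l 16746216) (l 167671432999))) (l 135996049063))) (l 3)))))) (b (a (a (l 16756544) (l 16753592)) (a (c (b (l 16749656) (l 16751736)) (l 16750296)) (b (b (a (a (l 16747056) (a (l 16746456) (b (l 145659724679) (l 16746312)))) (a (a (b (l 185925044039) (l 133311694103)) (l 183240689175)) (l 3))) (a (l 16747672) (c (a (l 91435765239) (b (l 181093205623) (l 126332372855))) (l 99488827367)))) (c (a (l 16749264) (l 78013991879)) (l 16748320))))) (a (a (l 16759920) (l 16757312))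 (b (l 16744512) (l 16753936))))), by decide +kernel⟩

def k52_pm_102_a : ∃ t, chk3 f_pm_102_a t 27 25 1 = true :=
  ⟨(a (b (l 16762624) (l 16756536)) (b (a (b (l 16782944) (l 16764272)) (b (a (l 16758128) (l 16755400)) (a (l 16761648) (l 16759048)))) (a (l 16764160) (b (a (l 16764304) (l 16762512)) (l 16765240))))), by decide +kernel⟩

def k53_pm_102_a : ∃ t, chk3 f_pm_102_a t 13 13 1 = true :=
  ⟨(a (b (a (l 16764456) (b (l 16761096) (l 16763304))) (a (l 16773104) (b (l 16767296) (l 16772496)))) (b (a (b (a (l 16757576) (l 16757160)) (a (l 16761128) (l 16759432))) (a (b (l 16757424) (l 16736320)) (l 16736952))) (b (a (l 16742176) (a (l 16760784) (l 16758808))) (a (l 16746504) (l 16762896))))), by decide +kernel⟩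

def k54_pm_102_a : ∃ t, chk3 f_pm_102_a t 6 14 1 = true :=
  ⟨(a (a (b (a (l 16742232) (l 16755104)) (a (a (l 16777744) (l 16764760)) (c (l 16793032) (l 16777352)))) (b (a (l 16720848) (b (l 16784168) (l 16769104))) (a (b (l 16797184) (l 16788592)) (b (l 16779352) (c (l 16806008) (l 16815552)))))) (a (b (b (a (c (l 16778448) (l 16765064)) (a (l 16758368) (l 16777192))) (a (c (l 16784824) (l 16773832)) (a (c (l 16782704) (l 16771808)) (l 16783560)))) (a (b (c (l 16793432) (l 16785080)) (a (c (l 16804488) (l 16819992)) (l 16808712))) (c (l 16793368) (l 16784144)))) (b (a (b (l 16772464) (b (l 16776680) (l 16779592))) (b (l 16767416) (l 16772944))) (a (b (a (l 16788520) (l 16785912)) (l 16796016)) (b (a (l 16761456) (l 16758248)) (l 16768784)))))), by decide +kernel⟩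

def k55_pm_102_a : ∃ t, chk3 f_pm_102_a t 12 30 1 = true :=
  ⟨(b (a (a (l 16781040) (l 16794648)) (a (c (l 16816768) (l 16832440)) (c (l 16817656) (b (l 16811336) (l 16818832))))) (b (a (a (l 16814192) (l 16806880)) (a (c (l 16827200) (l 16825624)) (a (l 16826992) (l 16835088)))) (a (a (a (l 16796072) (l 16804792)) (c (c (l 16824696) (l 16831624)) (b (l 16843120) (l 16826440)))) (a (c (a (l 16833176) (l 16834776)) (a (l 16854128) (l 16836320))) (l 16863944))))), by decide +kernel⟩

def k56_pm_102_a : ∃ t, chk3 f_pm_102_a t 24 31 1 = true :=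
  ⟨(a (b (b (a (l 16839392) (l 16848640)) (c (l 16840640) (a (l 16826120) (l 16837040)))) (c (c (a (l 144730536710996335) (l 16844120)) (b (l 16824104) (a (l 16822176) (l 16830208)))) (a (b (l 16849736) (c (l 16828168) (b (l 16834712) (l 16836360)))) (b (b (l 16838864) (l 16840168)) (b (a (l 16839016) (l 16843992)) (c (l 16838528) (a (l 16845064) (l 16871400)))))))) (b (c (a (l 16828928) (b (l 16833416) (l 16834664))) (b (a (l 16844576) (l 16852864)) (a (l 16846608) (b (l 16854240) (l 16855192))))) (c (b (a (l 16831216) (l 16856840)) (a (c (l 16829424) (b (l 16836528) (l 16837440))) (c (l 16833120) (l 16862152)))) (b (a (a (l 16846720) (l 16872024)) (c (l 16850288) (a (l 16881800) (l 16863456)))) (b (a (a (l 16869600) (c (l 16847536) (l 16858616))) (a (c (l 16850192) (l 16882664)) (l 16857056))) (c (a (a (l 16844952) (l 16848344)) (l 16850936)) (a (a (c (l 16852672) (b (l 16857920) (l 16858704))) (b (c (l 16856464) (l 16862440)) (a (b (l 16859048) (a (l 16858888) (l 16859608))) (l 16860288)))) (c (l 16859168) (a (l 16864544)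 (l 16865728)))))))))), by decide +kernel⟩

def k57_pm_102_a : ∃ t, chk3 f_pm_102_a t 25 31 1 = true :=
  ⟨(a (a (b (c (b (l 16837160) (l 16837760)) (b (l 16880248) (c (l 16853296) (l 16865760)))) (c (c (l 16834696) (b (l 16842736) (l 16843200))) (c (b (l 16852904) (b (l 16852744) (l 16852824))) (b (l 16864728) (b (l 16864072) (a (c (l 16860640) (l 16866584)) (l 16874600))))))) (b (c (c (l 16834784) (l 16844048)) (b (b (l 16862072) (l 16860928)) (l 16859840))) (c (b (l 16839176) (l 16860968)) (c (b (l 16853400) (l 16853440)) (b (l 16864904) (b (l 16864456) (a (l 16864376) (l 16864344)))))))) (b (b (a (c (l 16838936) (l 16902488)) (b (l 16836824) (l 16846768))) (c (l 16838176) (a (l 16858864) (l 16856920)))) (c (b (b (l 16838536) (l 16859864)) (a (l 16860968) (a (l 16839448) (l 16838824)))) (b (c (l 16873112) (a (l 16863976) (l 16862040))) (a (c (l 16853064) (b (l 16863720) (a (l 16864048) (l 16873976)))) (c (l 16872720) (b (l 16862000) (a (l 16873176) (l 16872160))))))))), by decide +kernel⟩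

def k58_pm_102_a : ∃ t, chk3 f_pm_102_a t 13 15 1 = true :=
  ⟨(b (b (a (a (l 16810808) (l 16792984)) (a (l 16784800) (l 16840672))) (a (a (c (l 16825176) (l 16842888)) (c (l 16818440) (l 16833288))) (a (c (l 16810728) (l 16822840)) (c (l 16803864) (l 16813568))))) (b (a (c (a (b (a (l 16834896) (l 16831688)) (l 16834776)) (b (l 16846936) (l 16829416))) (a (b (a (l 16834328) (l 16828424)) (a (l 16854168) (l 16850776))) (b (b (l 16840896) (l 16864320)) (a (l 16846832) (l 16842608))))) (a (b (l 16824176) (a (c (l 16824504) (l 16890536)) (a (b (l 16826584) (l 16827088)) (l 16887968)))) (b (l 16815304) (a (b (l 16820576) (l 16821968)) (b (l 16816664) (l 16839552)))))) (b (a (a (c (a (l 16836544) (l 16834320)) (a (b (l 16853968) (l 16854032)) (l 16871792))) (c (a (l 16831592) (l 16828456)) (a (l 16847104) (l 16842920)))) (a (a (c (l 16824928) (a (l 16839520) (l 16837056))) (l 16847592)) (c (l 16837112) (l 16826312)))) (a (a (c (a (b (l 16837272) (l 16837880)) (l 16856384)) (a (c (l 16870624) (b (l 16859440) (a (l 16860456)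 (l 16859072)))) (c (l 16846928) (b (l 16856224) (a (l 16857528) (l 16855840)))))) (c (a (l 16853744) (a (l 16830528) (l 16828896))) (a (c (l 16843656) (a (l 16853704) (l 16851712))) (a (b (l 16844760) (l 16845448)) (b (l 16842640) (c (l 16839256) (l 16868632))))))) (a (a (c (b (l 16825848) (l 16826552)) (b (a (l 16840288) (l 16837736)) (l 16839520))) (c (l 16822512) (l 16834168))) (c (a (l 16819080) (l 16815936)) (a (l 16829448) (l 16825112)))))))), by decide +kernel⟩

def k59_pm_102_a : ∃ t, chk3 f_pm_102_a t 28 24 1 = true :=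
  ⟨(a (b (l 3) (a (b (a (b (l 3) (b (a (a (a (l 138143532391) (l 171429530087)) (l 3)) (l 3)) (a (a (l 16746960) (b (l 166597691927) (l 111299988391))) (c (l 192367493719) (l 176798237719))))) (l 3)) (a (b (a (l 16745496) (c (b (a (c (l 139217276983) (l 16746352)) (l 185388173207)) (a (l 16747352) (l 134385440167))) (l 92509504455))) (c (l 16744152) (l 16749320))) (b (a (c (b (l 3) (a (c (l 180019464359) (l 181093206631)) (l 3))) (l 165523948551)) (l 3)) (a (c (b (a (l 134922312647) (l 176798242279)) (l 119889928311)) (l 88214540535)) (c (b (l 3) (a (l 174650761783) (l 3))) (l 152639047783)))))) (l 3))) (l 3)), by decide +kernel⟩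

def k60_pm_102_a : ∃ t, chk3 f_pm_102_a t 28 25 1 = true :=
  ⟨(a (b (a (b (a (l 16752440) (b (a (l 16749136) (c (b (a (l 16747304) (l 173577020471)) (l 16747992)) (l 16747656))) (l 16750424))) (l 16749656)) (b (a (b (a (c (b (l 189683140055) (a (l 173577021015) (l 185925045031))) (l 153712790775)) (l 3)) (a (c (b (a (l 16747856) (l 177871991127)) (l 16748544)) (l 16748224)) (c (b (l 185925044711) (a (l 172503283543) (l 187535658823))) (l 154786544279)))) (l 3)) (a (b (a (l 16750208) (c (b (l 156934028695) (l 16749120)) (l 16748800))) (l 16751496)) (b (a (c (b (l 188609400343) (l 171966414823)) (l 119889933047)) (l 3)) (a (c (l 16749152) (l 16749384)) (b (l 184314439687) (c (l 148344097639) (l 66739703751)))))))) (a (b (a (l 16759840) (l 16757240)) (a (l 16763032) (l 16760632))) (b (a (l 16754464) (a (l 16752344) (c (l 16750848) (l 16745688)))) (l 16751584)))) (b (a (b (l 3) (a (b (l 3) (l 192367494135)) (l 3))) (l 3)) (a (b (a (b (a (b (c (l 178945726135) (l 90898896951)) (c (l 122037417879) (l 91435767431))) (c (l 156934016455)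 (l 101636313063))) (a (l 16745256) (b (c (l 123648035463) (l 108615639959)) (c (l 16751752) (l 122574282007))))) (a (a (b (l 3) (l 146196600327)) (l 3)) (l 3))) (a (c (l 16752832) (l 16752768)) (b (c (a (b (l 127943004759) (l 16749752)) (l 147807218471)) (b (l 114521222903) (c (l 123648034967) (l 119353069463)))) (a (l 16751752) (b (c (l 171429538215) (l 141364770743)) (l 16750488)))))) (b (l 3) (a (a (b (l 3) (a (b (l 141901634055) (l 71034681783)) (l 152639051735))) (l 3)) (l 3)))))), by decide +kernel⟩

def k61_pm_102_a : ∃ t, chk3 f_pm_102_a t 29 12 1 = true :=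
  ⟨(l 3), by decide +kernel⟩

def k62_pm_102_a : ∃ t, chk3 f_pm_102_a t 28 13 1 = true :=
  ⟨(b (a (b (a (l 16765048) (b (a (l 16761504) (l 16758984)) (a (l 16764112) (l 16762424)))) (a (l 16758664) (l 16765184))) (b (a (b (a (l 16756624) (l 16754040)) (b (l 16758056) (l 16759680))) (b (a (a (b (b (c (l 162302734135) (l 149954706503)) (l 16751136)) (l 16753056)) (a (b (b (l 146733473383) (l 132237965175)) (l 16751632)) (b (l 146196601927) (b (l 16752512) (l 16751272))))) (a (b (l 3) (a (b (l 159081509143) (l 16750216)) (l 149417833831))) (l 3))) (a (l 16755328) (b (b (a (c (l 16743208) (l 16752432)) (c (l 153712796919) (l 97878226151))) (a (l 16752488) (a (l 16750880) (l 140291030567)))) (a (l 16754408) (c (l 16741976) (l 16742040))))))) (a (b (a (l 16763352) (b (l 16760256) (l 16762016))) (l 16765008)) (b (a (l 16759008) (l 16756664)) (a (l 16741464) (l 16760200)))))) (a (b (a (l 16757776) (l 16758984)) (a (l 16740920) (l 16739488))) (b (a (l 16763672) (b (a (l 16765336) (l 16742864)) (l 16766848))) (a (l 16760880) (l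 16762976))))), by decide +kernel⟩

def k63_pm_102_a : ∃ t, chk3 f_pm_102_a t 29 26 1 = true :=
  ⟨(a (b (a (b (l 3) (a (b (l 161765856583) (a (a (b (l 123111162519) (l 16751576)) (b (l 146196604327) (l 120426806823))) (l 146196602999))) (l 3))) (l 3)) (a (b (a (b (a (c (l 16753184) (l 16753232)) (b (c (l 127406135367) (l 113984357639)) (c (l 139754165383) (l 76940266983)))) (a (l 16755800) (l 16743448))) (b (a (b (l 3) (l 148880965255)) (l 3)) (a (b (c (l 124184909335) (l 121500552407)) (c (l 16755184) (l 79087752375))) (b (l 3) (c (l 110763126887) (l 89825160823)))))) (a (l 16758048) (b (a (l 16754688) (a (a (l 16745448) (l 144586004151)) (b (l 111836874247) (l 16752672)))) (a (l 16757224) (l 16755456))))) (b (l 3) (a (b (a (a (b (l 91972644471) (l 107005036759)) (l 140291026087)) (l 3)) (a (a (a (l 16743592) (l 16756152)) (b (a (l 123111164007) (l 97878229991)) (l 16753448))) (a (b (l 78014002151) (a (l 126869260663) (l 103246940023))) (l 95730747063)))) (l 3))))) (l 3)), by decide +kernel⟩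

def k64_pm_102_a : ∃ t, chk3 f_pm_102_a t 58 27 1 = true :=
  ⟨(b (a (b (a (l 16761576) (l 16759496)) (a (l 16744376) (l 16763152))) (b (a (b (a (l 16756240) (a (a (l 16744376) (l 16756936)) (b (a (l 16753008) (l 108078778983)) (l 16754232)))) (a (l 16758688) (l 16757032))) (b (a (b (c (l 83919583191) (l 80161491399)) (c (a (l 118816199191) (l 93046395511)) (a (b (l 108615648855) (l 16753368)) (l 89288298455)))) (l 3)) (a (a (b (l 16754640) (l 16756128)) (b (a (l 16753808) (b (l 103246939895) (l 16753640))) (l 16755024))) (a (a (b (b (l 82308973415) (a (l 16753232) (l 97878230487))) (l 16754208)) (b (l 80161490951) (b (a (l 16753432) (l 118279326199)) (l 16754024)))) (b (l 3) (a (b (l 88751426503) (a (l 16753616) (l 131701099031))) (b (l 3) (l 104320682727)))))))) (a (l 16761024) (b (a (l 16757760) (a (l 16749568) (b (a (l 16754576) (b (l 130627357271) (l 16754392))) (l 16755760)))) (a (l 16760232) (l 16758488)))))) (a (b (l 16767672) (l 16768288)) (b (a (l 16764920) (b (l 16761648) (l 16763640))) (a (l 16768568) (l 16766856))))),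 by decide +kernel⟩

def k65_pm_102_a : ∃ t, chk3 f_pm_102_a t 59 27 1 = true :=
  ⟨(b (a (b (l 3) (a (b (a (a (b (c (b (l 98415100983) (l 116131843975)) (b (l 94657003863) (l 113447488871))) (c (l 140291036279) (l 137606680743))) (b (l 3) (a (b (l 112910617831) (l 16754232)) (l 101636329591)))) (b (l 3) (l 91972648519))) (a (a (l 16751616) (a (l 16756048) (b (l 16754784) (l 16756232)))) (a (b (b (l 96804490935) (l 120426812551)) (l 16755432)) (b (l 83919586343) (c (l 111836879175) (l 108615652567)))))) (b (l 3) (a (b (l 3) (l 84456457191)) (l 3))))) (l 3)) (a (b (a (a (l 16760648) (b (a (l 16747112) (a (l 16756800) (l 16756264))) (l 16759920))) (b (a (a (b (c (l 112373750679) (l 109689394983)) (l 16756192)) (b (l 88751426023) (l 113447493479))) (b (l 3) (l 87140813255))) (a (c (l 16750096) (l 16752408)) (a (b (l 113447493927) (l 16756968)) (b (l 94120137495) (l 112910623463)))))) (a (b (l 16763392) (l 16765496)) (b (a (l 16760624) (c (l 16748224) (l 16747896))) (l 16762344)))) (b (a (b (l 3) (a (b (l 3) (l 88751427543))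 (l 3))) (l 3)) (a (b (a (b (c (l 101099464983) (l 97878237991)) (l 117742465559)) (b (l 3) (l 89825170951))) (a (l 16754048) (b (l 99488853991) (l 16758032)))) (b (l 3) (a (b (l 3) (l 97341365367)) (l 3))))))), by decide +kernel⟩

def k66_pm_102_a : ∃ t, chk3 f_pm_102_a t 15 6 1 = true :=
  ⟨(b (l 3) (l 3)), by decide +kernel⟩

def k67_pm_102_a : ∃ t, chk3 f_pm_102_a t 14 14 1 = true :=
  ⟨(a (b (a (b (l 16764824) (l 16769840)) (b (a (l 16728312) (b (l 16764120) (l 16765696))) (a (l 16769032) (l 16748864)))) (b (a (a (l 16777608) (l 16776904)) (l 16755088)) (a (b (a (l 16785016) (l 16782704)) (a (l 16788752) (l 16787784))) (b (l 16782024) (a (l 16786368) (l 16785392)))))) (b (a (b (a (l 16766216) (l 16769784)) (a (b (l 16747512) (l 16771984)) (b (l 16770248) (l 16751192)))) (b (a (a (b (l 16768912) (l 16772416)) (b (b (l 16765056) (l 16767592)) (l 16771064))) (b (a (b (a (l 16761976) (l 16749536)) (l 16763584)) (b (a (b (l 94657016263) (l 16758824)) (b (l 132774844823) (l 115058109687))) (a (l 16760736) (b (l 89288307815)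 (l 16759600))))) (a (b (l 16766216) (l 16768768)) (a (l 16764392) (l 16762608))))) (a (l 16773248) (b (a (l 16773216) (b (l 16767024) (l 16769504))) (a (l 16775944) (l 16774000)))))) (a (b (a (l 16776696) (b (l 16755768) (l 16779640))) (a (l 16784184) (b (l 16783200) (l 16786536)))) (b (a (b (l 16777192) (l 16802672)) (b (l 16778776) (l 16779872))) (a (c (l 16782792) (l 16786488)) (b (l 16782104) (l 16783096))))))), by decide +kernel⟩

def k68_pm_102_a : ∃ t, chk3 f_pm_102_a t 60 14 1 = true :=
  ⟨(b (b (a (b (a (a (b (l 3) (b (l 132237975639) (l 110763143207))) (l 3)) (l 3)) (a (b (a (c (l 16754720) (l 16759600)) (b (l 142438524743) (l 103783814583))) (b (l 16758784) (l 16756616))) (b (l 3) (a (b (l 141364784727) (l 108078789687)) (l 3))))) (l 3)) (a (b (a (b (l 16763448) (l 16765568)) (b (a (b (l 16760840) (l 16761904)) (l 125258660359)) (a (l 16763552) (l 16762344)))) (a (b (a (l 16768568) (l 16766960)) (l 16770560)) (b (l 16765136) (l 16767168)))) (b (a (b (l 3) (a (b (l 153712819463) (l 103246949703)) (l 169282073543)))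 (l 3)) (a (b (a (l 16763272) (b (l 163913368279) (l 139217312231))) (a (l 16765192) (l 16763896))) (b (l 173577039863) (a (c (l 141901663655) (l 106468173735)) (l 170892688743))))))) (b (a (b (a (l 16775608) (b (l 16769576) (l 16772664))) (l 16777856)) (b (a (b (l 16766488) (l 16771704)) (b (a (l 16764496) (c (l 141901664823) (l 134922342679))) (a (l 16766504) (l 16765120)))) (a (a (l 16774296) (l 16782440)) (b (l 16767984) (a (l 16771296) (l 16769496)))))) (a (b (l 16778560) (a (l 16781736) (l 16779672))) (b (a (l 16777048) (b (l 16773480) (l 16776280))) (a (l 16778560) (l 16777112)))))), by decide +kernel⟩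

def k69_pm_102_a : ∃ t, chk3 f_pm_102_a t 61 28 1 = true :=
  ⟨(l 3), by decide +kernel⟩

def k70_pm_102_a : ∃ t, chk3 f_pm_102_a t 61 58 1 = true :=
  ⟨(a (b (a (b (a (l 168745206535) (l 3)) (a (c (a (l 112373761559) (l 145659761639)) (l 135459214743)) (c (l 166597724311) (l 168208337047)))) (l 3)) (a (b (a (l 16765768) (c (b (l 156934051703) (l 118279344615)) (l 137069828663))) (a (l 16767912) (l 16766432))) (b (a (c (a (l 162839632999) (l 3)) (l 166060854839)) (l 3)) (a (b (c (a (l 16763856) (l 156397181207)) (l 148880988919)) (c (l 124184926583) (l 16765312))) (b (l 3) (c (a (l 154249698183) (l 3)) (l 156934051767))))))) (l 3)), by decide +kernel⟩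

def k71_pm_102_a : ∃ t, chk3 f_pm_102_a t 61 59 1 = true :=
  ⟨(a (b (a (a (b (l 16770344) (l 16773360)) (b (l 16768656) (l 16771216))) (b (a (l 16767120) (b (c (a (l 130090508007) (b (l 151028472775) (l 148344119319))) (l 146733506503)) (c (a (l 16766648) (l 133311734375)) (l 16765960)))) (a (l 16769480) (l 16767832)))) (a (l 16776128) (b (a (l 16772128) (l 16770312)) (a (l 16775088) (l 16773072))))) (b (a (b (a (a (b (l 3) (c (b (l 148880989751) (l 147270378135)) (l 144586022727))) (l 3)) (l 3)) (a (b (c (a (l 135459218839) (b (l 146733506743) (l 145659766039))) (a (l 16763288) (l 142975410631))) (a (l 16767192) (b (l 16766072) (l 16766656)))) (a (b (c (l 155323440343) (l 153175956503)) (c (c (a (l 145659766599) (l 146733507591)) (l 146196636983)) (l 141901669431))) (b (l 3) (c (l 153712828247) (l 152639086215)))))) (l 3)) (a (b (a (l 16768568) (b (c (a (l 16766488) (c (a (l 136532961031) (l 146733508247)) (l 145122895815))) (a (l 16766576) (l 141364799175))) (c (a (l 16768048) (l 16767160)) (l 16764712)))) (a (l 16771160)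 (l 16769320))) (b (a (b (c (a (b (l 3) (l 148880991223)) (l 3)) (l 158544666199)) (c (a (c (b (l 143512283271) (l 140827929575)) (l 146196638295)) (b (l 3) (l 148344120951))) (a (l 141901670743) (l 151565345671)))) (l 3)) (a (a (b (c (l 16767504) (l 16767272)) (l 16768640)) (b (a (b (l 137606704119) (l 16767040)) (b (l 137606703287) (l 138143575415))) (c (l 16767864) (l 16767624)))) (b (c (a (b (l 3) (l 148344121607)) (l 3)) (l 158007796567)) (c (a (b (c (l 142438542775) (l 139754188087)) (c (l 140827931063) (l 115058124535))) (b (l 3) (l 147807251367))) (a (l 139754188423) (l 151028476055))))))))), by decide +kernel⟩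

def k72_pm_102_a : ∃ t, chk3 f_pm_102_a t 31 14 1 = true :=
  ⟨(b (l 3) (l 3)), by decide +kernel⟩

def k73_pm_102_a : ∃ t, chk3 f_pm_102_a t 14 30 1 = true :=
  ⟨(a (b (a (c (l 16790928) (l 16797984)) (a (l 16792024) (b (l 16748328) (l 16793112)))) (a (c (l 16798920) (l 16806704)) (a (l 16820360) (b (l 16796456) (l 16799440))))) (b (a (b (a (b (l 16788800) (l 16769664)) (l 16789240)) (a (a (l 16793048) (l 16793200)) (a (l 16739896) (l 16748616)))) (a (b (l 16787040) (a (l 16789032) (l 16788328))) (c (l 16763144) (l 16766344)))) (b (a (a (l 16795168) (l 16793120)) (b (a (a (l 16791376) (l 16790032)) (l 16787808)) (a (l 16791560) (a (l 16790312) (l 16788648))))) (a (a (l 16797392) (l 16795248)) (a (c (l 16791560) (l 16795408)) (a (l 16791672) (l 16769920))))))), by decide +kernel⟩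

def k74_pm_102_a : ∃ t, chk3 f_pm_102_a t 14 31 1 = true :=
  ⟨(a (b (a (b (c (l 16804824) (l 16813016)) (a (c (l 16830464) (l 16818328)) (b (l 16809760) (c (l 16807672) (l 16815576))))) (a (b (l 16804528) (c (l 16825304) (l 16811264))) (b (l 16823192) (c (l 16802640) (l 16808624))))) (a (c (c (b (l 16809008) (a (l 16811712) (l 16809520))) (b (l 16812008) (a (l 16814672) (l 16812008)))) (b (a (l 16820320) (l 16816736)) (a (b (l 16820904) (l 16821392)) (b (l 16817376) (l 16817928))))) (b (a (c (b (l 16807032) (l 16807440)) (b (l 16813816) (l 16813888))) (b (c (b (l 16804608) (l 16805208)) (l 16810992)) (c (l 16805720) (l 16811232)))) (c (a (c (l 16807752) (l 16809776)) (c (l 16816648) (l 16807792))) (a (c (l 16812752) (l 16816656)) (c (l 16810288) (l 16813640))))))) (b (a (b (a (l 16820920) (l 16818784)) (a (c (l 16800784) (l 16805872)) (c (l 16799000) (l 16803304)))) (b (a (l 16837696) (c (l 16792360) (l 16795496))) (a (c (l 16797240) (l 16800856)) (c (l 16795400) (l 16798408))))) (b (a (b (a (c (l 16824080) (l 16808080))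 (c (l 16801272) (l 16805464))) (a (c (l 16804184) (l 16808880)) (c (l 16802952) (l 16806952)))) (a (b (l 16801272) (c (b (l 16801104) (l 16801480)) (l 16825912))) (b (l 16799144) (b (l 16826512) (a (l 16801624) (l 16800768)))))) (a (c (a (c (b (l 16804296) (l 16805160)) (l 16806000)) (c (l 16803328) (l 16804328))) (a (c (l 16808080) (l 16810944)) (c (l 16806048) (l 16808472)))) (a (c (c (l 16801936) (l 16802704)) (l 16805056)) (c (c (l 16800456) (l 16801032)) (l 16802952))))))), by decide +kernel⟩

def k75_pm_102_a : ∃ t, chk3 f_pm_102_a t 30 15 1 = true :=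
  ⟨(b (a (b (a (b (l 16782264) (l 16762992)) (a (b (l 16780552) (l 16782048)) (b (l 16778424) (l 16781136)))) (a (b (l 16765344) (b (a (l 16789008) (l 16787360)) (a (l 16790112) (l 16789272)))) (a (b (l 16784344) (c (l 16806544) (l 16766872))) (b (l 16782992) (l 16753976))))) (a (b (b (a (l 16777376) (l 16775920)) (a (b (l 16778568) (l 16780144)) (l 16777384))) (b (a (l 16760640) (b (l 16779832) (l 16780792))) (c (l 16771000) (l 16763456)))) (b (b (a (a (b (l 16774064) (l 16775752)) (b (l 16772032) (l 16774624))) (b (a (l 16770104) (a (b (l 16767456) (l 16769392)) (b (c (b (c (l 141901672535) (l 139754188759)) (l 138680447911)) (l 139754189111)) (l 16768472)))) (a (b (l 16772152) (l 16773584)) (b (l 16770240) (l 16771576))))) (a (l 16776296) (b (a (l 16774936) (b (l 16773032) (l 16774144))) (l 16775600)))) (b (a (b (l 16777728) (l 16779488)) (b (l 16776440) (l 6))) (a (l 16780272) (l 6)))))) (b (a (a (b (c (l 16790376) (l 16792976)) (c (l 16793376) (l 16795848))) (b (a (c (l 16788760) (l 16791008)) (b (b (l 16787384) (l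 16788256)) (l 16789128))) (b (l 16812152) (l 16816320)))) (b (a (a (b (b (l 16786016) (l 16786608)) (a (l 16788152) (l 16787720))) (b (l 16784904) (l 6))) (l 6)) (l 6))) (a (b (a (b (l 16796864) (b (l 16798192) (c (l 16798040) (l 16800320)))) (b (c (l 16793624) (l 16795544)) (l 6))) (a (c (c (l 16798776) (l 16799200)) (l 16800760)) (l 6))) (l 6)))), by decide +kernel⟩

def k76_pm_102_a : ∃ t, chk3 f_pm_102_a t 31 15 1 = true :=
  ⟨(b (a (a (b (b (a (a (a (b (b (c (b (l 3) (l 147807252023)) (l 151028476727)) (c (b (c (l 141364802311) (l 139754189431)) (l 138143577687)) (l 132237995879))) (c (l 16765688) (l 16769352))) (b (b (l 3) (c (b (l 3) (l 147807252695)) (l 151028477383))) (b (c (b (c (l 140291061175) (l 139217319207)) (l 137069836583)) (l 131701125671)) (l 16769208)))) (b (l 3) (a (b (c (b (l 3) (l 147807253383)) (l 151028478055)) (c (b (c (l 139754190967) (l 131701126487)) (l 135459224487)) (l 130627384551))) (b (l 3) (c (b (l 3) (l 147807254071)) (l 151028478743)))))) (l 3)) (a (b (a (b (l 16771032) (l 16772448))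 (a (a (l 16770504) (l 16767400)) (l 6))) (a (b (l 16773600) (l 6)) (l 6))) (l 6))) (l 6)) (l 6)) (l 6)) (l 6)), by decide +kernel⟩

theorem s77_pm_102_a : ∃ t, chk3 f_pm_102_a t 15 15 1 = true := ex3_a k75_pm_102_a k76_pm_102_a

theorem s78_pm_102_a : ∃ t, chk3 f_pm_102_a t 14 15 1 = true := ex3_b k73_pm_102_a k74_pm_102_a

theorem s79_pm_102_a : ∃ t, chk3 f_pm_102_a t 7 15 1 = true := ex3_a s78_pm_102_a s77_pm_102_a

theorem s80_pm_102_a : ∃ t, chk3 f_pm_102_a t 61 29 1 = true := ex3_b k70_pm_102_a k71_pm_102_a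

theorem s81_pm_102_a : ∃ t, chk3 f_pm_102_a t 61 14 1 = true := ex3_b k69_pm_102_a s80_pm_102_a

theorem s82_pm_102_a : ∃ t, chk3 f_pm_102_a t 30 14 1 = true := ex3_a k68_pm_102_a s81_pm_102_a

theorem s83_pm_102_a : ∃ t, chk3 f_pm_102_a t 15 14 1 = true := ex3_a s82_pm_102_a k72_pm_102_a

theorem s84_pm_102_a : ∃ t, chk3 f_pm_102_a t 7 14 1 = true := ex3_a k67_pm_102_a s83_pm_102_a

theorem s85_pm_102_a : ∃ t, chk3 f_pm_102_a t 7 7 1 = true := ex3_b s84_pm_102_a s79_pm_102_a

theorem s86_pm_102_a : ∃ t, chk3 f_pm_102_a t 29 27 1 = true := ex3_a k64_pm_102_a k65_pm_102_a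

theorem s87_pm_102_a : ∃ t, chk3 f_pm_102_a t 29 13 1 = true := ex3_b k63_pm_102_a s86_pm_102_a

theorem s88_pm_102_a : ∃ t, chk3 f_pm_102_a t 14 13 1 = true := ex3_a k62_pm_102_a s87_pm_102_a

theorem s89_pm_102_a : ∃ t, chk3 f_pm_102_a t 28 12 1 = true := ex3_b k59_pm_102_a k60_pm_102_a

theorem s90_pm_102_a : ∃ t, chk3 f_pm_102_a t 14 12 1 = true := ex3_a s89_pm_102_a k61_pm_102_a

theorem s91_pm_102_a : ∃ t, chk3 f_pm_102_a t 14 6 1 = true := ex3_b s90_pm_102_a s88_pm_102_a

theorem s92_pm_102_a : ∃ t, chk3 f_pm_102_a t 7 6 1 = true := ex3_a s91_pm_102_a k66_pm_102_a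

theorem s93_pm_102_a : ∃ t, chk3 f_pm_102_a t 7 3 1 = true := ex3_b s92_pm_102_a s85_pm_102_a

theorem s94_pm_102_a : ∃ t, chk3 f_pm_102_a t 12 31 1 = true := ex3_a k56_pm_102_a k57_pm_102_a

theorem s95_pm_102_a : ∃ t, chk3 f_pm_102_a t 12 15 1 = true := ex3_b k55_pm_102_a s94_pm_102_a

theorem s96_pm_102_a : ∃ t, chk3 f_pm_102_a t 6 15 1 = true := ex3_a s95_pm_102_a k58_pm_102_a

theorem s97_pm_102_a : ∃ t, chk3 f_pm_102_a t 6 7 1 = true := ex3_b k54_pm_102_a s96_pm_102_a

theorem s98_pm_102_a : ∃ t, chk3 f_pm_102_a t 27 24 1 = true := ex3_a k50_pm_102_a k51_pm_102_a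

theorem s99_pm_102_a : ∃ t, chk3 f_pm_102_a t 27 12 1 = true := ex3_b s98_pm_102_a k52_pm_102_a

theorem s100_pm_102_a : ∃ t, chk3 f_pm_102_a t 13 12 1 = true := ex3_a k49_pm_102_a s99_pm_102_a

theorem s101_pm_102_a : ∃ t, chk3 f_pm_102_a t 13 6 1 = true := ex3_b s100_pm_102_a k53_pm_102_a

theorem s102_pm_102_a : ∃ t, chk3 f_pm_102_a t 6 6 1 = true := ex3_a k48_pm_102_a s101_pm_102_a

theorem s103_pm_102_a : ∃ t, chk3 f_pm_102_a t 6 3 1 = true := ex3_b s102_pm_102_a s97_pm_102_a

theorem s104_pm_102_a : ∃ t, chk3 f_pm_102_a t 3 3 1 = true := ex3_a s103_pm_102_a s93_pm_102_a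

theorem s105_pm_102_a : ∃ t, chk3 f_pm_102_a t 26 5 1 = true := ex3_b k44_pm_102_a k45_pm_102_a

theorem s106_pm_102_a : ∃ t, chk3 f_pm_102_a t 13 5 1 = true := ex3_a s105_pm_102_a k46_pm_102_a

theorem s107_pm_102_a : ∃ t, chk3 f_pm_102_a t 13 2 1 = true := ex3_b k43_pm_102_a s106_pm_102_a

theorem s108_pm_102_a : ∃ t, chk3 f_pm_102_a t 25 20 1 = true := ex3_b k39_pm_102_a k40_pm_102_a

theorem s109_pm_102_a : ∃ t, chk3 f_pm_102_a t 25 10 1 = true := ex3_b s108_pm_102_a k41_pm_102_a

theorem s110_pm_102_a : ∃ t, chk3 f_pm_102_a t 12 10 1 = true := ex3_a k38_pm_102_a s109_pm_102_a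

theorem s111_pm_102_a : ∃ t, chk3 f_pm_102_a t 12 5 1 = true := ex3_b s110_pm_102_a k42_pm_102_a

theorem s112_pm_102_a : ∃ t, chk3 f_pm_102_a t 24 9 1 = true := ex3_a k35_pm_102_a k36_pm_102_a

theorem s113_pm_102_a : ∃ t, chk3 f_pm_102_a t 12 9 1 = true := ex3_a s112_pm_102_a k37_pm_102_a

theorem s114_pm_102_a : ∃ t, chk3 f_pm_102_a t 12 4 1 = true := ex3_b k34_pm_102_a s113_pm_102_a

theorem s115_pm_102_a : ∃ t, chk3 f_pm_102_a t 12 2 1 = true := ex3_b s114_pm_102_a s111_pm_102_a

theorem s116_pm_102_a : ∃ t, chk3 f_pm_102_a t 6 2 1 = true := ex3_a s115_pm_102_a s107_pm_102_a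

theorem s117_pm_102_a : ∃ t, chk3 f_pm_102_a t 3 2 1 = true := ex3_a s116_pm_102_a k47_pm_102_a

theorem s118_pm_102_a : ∃ t, chk3 f_pm_102_a t 3 1 1 = true := ex3_b s117_pm_102_a s104_pm_102_a

theorem s119_pm_102_a : ∃ t, chk3 f_pm_102_a t 11 31 1 = true := ex3_c k32_pm_102_a k33_pm_102_a

theorem s120_pm_102_a : ∃ t, chk3 f_pm_102_a t 11 15 1 = true := ex3_b k31_pm_102_a s119_pm_102_a

theorem s121_pm_102_a : ∃ t, chk3 f_pm_102_a t 43 63 3 = true := ex3_a k29_pm_102_a k30_pm_102_a

theorem s122_pm_102_a : ∃ t, chk3 f_pm_102_a t 43 31 3 = true := ex3_b k28_pm_102_a s121_pm_102_a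

theorem s123_pm_102_a : ∃ t, chk3 f_pm_102_a t 43 31 1 = true := ex3_c k27_pm_102_a s122_pm_102_a

theorem s124_pm_102_a : ∃ t, chk3 f_pm_102_a t 42 31 1 = true := ex3_a k25_pm_102_a k26_pm_102_a

theorem s125_pm_102_a : ∃ t, chk3 f_pm_102_a t 21 31 1 = true := ex3_a s124_pm_102_a s123_pm_102_a

theorem s126_pm_102_a : ∃ t, chk3 f_pm_102_a t 21 15 1 = true := ex3_b k24_pm_102_a s125_pm_102_a

theorem s127_pm_102_a : ∃ t, chk3 f_pm_102_a t 20 127 2 = true := ex3_a k21_pm_102_a k22_pm_102_a

theorem s128_pm_102_a : ∃ t, chk3 f_pm_102_a t 20 127 1 = true := ex3_c s127_pm_102_a k23_pm_102_a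

theorem s129_pm_102_a : ∃ t, chk3 f_pm_102_a t 20 63 1 = true := ex3_b k20_pm_102_a s128_pm_102_a

theorem s130_pm_102_a : ∃ t, chk3 f_pm_102_a t 20 31 1 = true := ex3_b k19_pm_102_a s129_pm_102_a

theorem s131_pm_102_a : ∃ t, chk3 f_pm_102_a t 20 15 1 = true := ex3_b k18_pm_102_a s130_pm_102_a

theorem s132_pm_102_a : ∃ t, chk3 f_pm_102_a t 10 15 1 = true := ex3_a s131_pm_102_a s126_pm_102_a

theorem s133_pm_102_a : ∃ t, chk3 f_pm_102_a t 5 15 1 = true := ex3_a s132_pm_102_a s120_pm_102_a

theorem s134_pm_102_a : ∃ t, chk3 f_pm_102_a t 5 7 1 = true := ex3_b k17_pm_102_a s133_pm_102_a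

theorem s135_pm_102_a : ∃ t, chk3 f_pm_102_a t 19 127 1 = true := ex3_c k15_pm_102_a k16_pm_102_a

theorem s136_pm_102_a : ∃ t, chk3 f_pm_102_a t 19 63 1 = true := ex3_b k14_pm_102_a s135_pm_102_a

theorem s137_pm_102_a : ∃ t, chk3 f_pm_102_a t 19 31 1 = true := ex3_b k13_pm_102_a s136_pm_102_a

theorem s138_pm_102_a : ∃ t, chk3 f_pm_102_a t 18 31 1 = true := ex3_a k11_pm_102_a k12_pm_102_a

theorem s139_pm_102_a : ∃ t, chk3 f_pm_102_a t 9 31 1 = true := ex3_a s138_pm_102_a s137_pm_102_a

theorem s140_pm_102_a : ∃ t, chk3 f_pm_102_a t 9 15 1 = true := ex3_b k10_pm_102_a s139_pm_102_a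

theorem s141_pm_102_a : ∃ t, chk3 f_pm_102_a t 9 7 1 = true := ex3_b k9_pm_102_a s140_pm_102_a

theorem s142_pm_102_a : ∃ t, chk3 f_pm_102_a t 8 7 1 = true := ex3_b k7_pm_102_a k8_pm_102_a

theorem s143_pm_102_a : ∃ t, chk3 f_pm_102_a t 4 7 1 = true := ex3_a s142_pm_102_a s141_pm_102_a

theorem s144_pm_102_a : ∃ t, chk3 f_pm_102_a t 2 7 1 = true := ex3_a s143_pm_102_a s134_pm_102_a

theorem s145_pm_102_a : ∃ t, chk3 f_pm_102_a t 2 3 1 = true := ex3_b k6_pm_102_a s144_pm_102_a

theorem s146_pm_102_a : ∃ t, chk3 f_pm_102_a t 22 4 1 = true := ex3_b k2_pm_102_a k3_pm_102_a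

theorem s147_pm_102_a : ∃ t, chk3 f_pm_102_a t 11 4 1 = true := ex3_a s146_pm_102_a k4_pm_102_a

theorem s148_pm_102_a : ∃ t, chk3 f_pm_102_a t 11 2 1 = true := ex3_b s147_pm_102_a k5_pm_102_a

theorem s149_pm_102_a : ∃ t, chk3 f_pm_102_a t 5 2 1 = true := ex3_a k1_pm_102_a s148_pm_102_a

theorem s150_pm_102_a : ∃ t, chk3 f_pm_102_a t 2 2 1 = true := ex3_a k0_pm_102_a s149_pm_102_a

theorem s151_pm_102_a : ∃ t, chk3 f_pm_102_a t 2 1 1 = true := ex3_b s150_pm_102_a s145_pm_102_a

theorem s152_pm_102_a : ∃ t, chk3 f_pm_102_a t 1 1 1 = true := ex3_a s151_pm_102_a s118_pm_102_a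

theorem c_pm_102_a : CertB 536870912 536870912 0 536870912 649613803 48318383 3 eng mog cd0q1 cd2q2a pd0 false true false .npp 1 0 2
    ndB0q1 ndB2q2a pcB0 cut_pm_102_a xt_pm_102_a :=
  certB0 (fam := false) (s1 := true) (s2 := false) (a := 1) (b := 0) (c := 2) (cn := .npp) (n1 := ndB0q1) (n2 := ndB2q2a) (pc := pcB0) (cut := cut_pm_102_a) (xt := xt_pm_102_a) (P1 := 536870912) (W1 := 536870912) (P2 := 0) (W2 := 536870912) (P3 := 649613803) (W3 := 48318383) (N0 := 3) (En := eng) (mo := mog) (C1 := cd0q1) (C2 := cd2q2a) (C3 := pd0)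
    rfl s152_pm_102_a

noncomputable def cut_pm_102_b : Cut := Cut.of [[⟨0, 1, 0, 67108864⟩, ⟨1, 0, 0, 67108864⟩, ⟨2, 1, 0, 67108864⟩], [⟨0, 0, 1, 20971520⟩, ⟨1, 1, 2, 20971520⟩, ⟨2, 1, 0, 33554432⟩]]

noncomputable def f_pm_102_b : ℕ → ℕ → ℕ → ℕ → Bool := onCell 0 536870912 1239849684 370763052 649613803 48318383
    (rowB 3 eng mog cd0q1 cd2q2b pd0 2 false true false .npp 1 0 2 (qsf 536870912 536870912 1239849684 370763052 0) ndB0q1 ndB2q2b pcB0 cut_pm_102_b Ext.none)

def k0_pm_102_b : ∃ t, chk3 f_pm_102_b t 1 1 1 = true :=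
  ⟨(a (l 3) (b (a (l 3) (b (a (l 3) (a (b (a (l 3) (b (a (b (a (b (a (l 3) (b (b (b (c (a (l 43654305911) (l 16772152)) (a (l 42043690487) (l 16770896))) (c (l 43654304983) (l 42043689735))) (l 45264915095)) (l 3))) (l 3)) (b (b (a (b (l 16771560) (l 16770320)) (l 16771336)) (a (l 44728041911) (l 16768944))) (a (l 3) (l 16769968)))) (l 3)) (b (b (a (c (l 16771320) (l 16769960)) (l 16770632)) (a (a (l 16765520) (l 16766208)) (l 16766952))) (b (a (l 16760144) (l 16761808)) (l 74792791655)))) (l 3))) (l 3)) (b (a (b (b (a (b (a (l 16770032) (l 16768944)) (l 16767560)) (b (l 16761336) (l 16766896))) (a (a (l 16760512) (l 16761672)) (l 16762704))) (a (b (l 58149786583) (l 3)) (b (l 16753384) (l 63518487607)))) (b (b (a (b (l 16783328) (l 16764968)) (b (l 16757024) (l 16762008))) (a (l 16763024) (l 16762424))) (a (l 16750944) (l 16753048)))) (a (b (a (l 3) (l 3)) (l 3)) (b (a (b (l 16734688) (l 142975332935)) (l 36138057703)) (l 137606627479)))))) (l 3))) (a (l 3) (l 3)))), by decide +kernel⟩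

theorem c_pm_102_b : CertB 536870912 536870912 1239849684 370763052 649613803 48318383 3 eng mog cd0q1 cd2q2b pd0 false true false .npp 1 0 2
    ndB0q1 ndB2q2b pcB0 cut_pm_102_b Ext.none :=
  certB2 (fam := false) (s1 := true) (s2 := false) (a := 1) (b := 0) (c := 2) (cn := .npp) (n1 := ndB0q1) (n2 := ndB2q2b) (pc := pcB0) (cut := cut_pm_102_b) (xt := Ext.none) (P1 := 536870912) (W1 := 536870912) (P2 := 1239849684) (W2 := 370763052) (P3 := 649613803) (W3 := 48318383) (N0 := 3) (En := eng) (mo := mog) (C1 := cd0q1) (C2 := cd2q2b) (C3 := pd0)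
    rfl (fun _ => rfl) k0_pm_102_b

noncomputable def f_pm_112_a : ℕ → ℕ → ℕ → ℕ → Bool := onCell 536870912 536870912 0 536870912 649613803 48318383
    (rowB 3 eng mog cd0q1 cd2q2a pd1 0 false true false .dn 1 1 2 (qsf 536870912 536870912 0 536870912 1) ndB0q1 ndB2q2a pcB1 Cut.none Ext.none)

def k0_pm_112_a : ∃ t, chk3 f_pm_112_a t 1 1 1 = true :=
  ⟨(a (b (a (b (a (b (a (b (l 16637912) (l 16622416)) (b (a (l 16652016) (l 16661928)) (l 16640656))) (a (l 16600704) (l 16617440))) (a (b (b (a (b (l 16675872) (l 16667640)) (b (l 16686384) (l 16677648))) (a (l 16655032) (l 16665224))) (l 16677272)) (b (b (a (l 16692784) (l 16703824)) (a (b (l 16679512) (l 16671112)) (b (l 16690376) (l 16681384)))) (b (a (l 16658184) (l 16689584)) (l 16645944))))) (a (b (a (l 16654288) (l 16647040)) (a (l 16526624) (l 16576992))) (b (a (l 16599464) (l 16658312)) (a (b (l 16561064) (l 16529288)) (b (l 16575400) (l 16541560)))))) (a (a (b (b (b (a (b (l 16719624) (l 16710432)) (b (l 16730704) (l 16721424))) (a (l 16696776) (l 16707576))) (b (a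 (b (l 16683088) (l 16674312)) (l 16709920)) (a (l 16660768) (b (l 16675360) (l 16666032))))) (b (b (l 16646872) (l 16622320)) (b (l 16592216) (l 16556928)))) (b (b (l 1) (l 1)) (l 1))) (l 1))) (a (b (a (b (a (l 16468760) (l 16469264)) (a (l 16391864) (l 16381488))) (b (a (l 16472816) (l 16480808)) (a (l 16375824) (l 16387416)))) (b (a (b (a (l 16354640) (l 16341056)) (a (a (l 16345600) (l 16338040)) (b (l 16328400) (l 16321368)))) (b (l 201896243271) (l 1))) (a (b (a (a (l 16335248) (l 16326720)) (l 186326924839)) (a (a (a (b (l 16330360) (c (l 40834856551) (l 16321128))) (l 195990551175)) (l 193843031943)) (l 1))) (l 1)))) (b (l 1) (l 1)))) (l 1)), by decide +kernel⟩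

theorem c_pm_112_a : CertB 536870912 536870912 0 536870912 649613803 48318383 3 eng mog cd0q1 cd2q2a pd1 false true false .dn 1 1 2
    ndB0q1 ndB2q2a pcB1 Cut.none Ext.none :=
  certB0 (fam := false) (s1 := true) (s2 := false) (a := 1) (b := 1) (c := 2) (cn := .dn) (n1 := ndB0q1) (n2 := ndB2q2a) (pc := pcB1) (cut := Cut.none) (xt := Ext.none) (P1 := 536870912) (W1 := 536870912) (P2 := 0) (W2 := 536870912) (P3 := 649613803) (W3 := 48318383) (N0 := 3) (En := eng) (mo := mog) (C1 := cd0q1) (C2 := cd2q2a) (C3 := pd1)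
    rfl k0_pm_112_a

noncomputable def f_pm_112_b : ℕ → ℕ → ℕ → ℕ → Bool := onCell 536870912 536870912 536870912 536870912 649613803 48318383
    (rowB 3 eng mog cd0q1 cd2q2b pd1 1 false true false .dn 1 1 2 (qsf 536870912 536870912 1239849684 370763052 1) ndB0q1 ndB2q2b pcB1 Cut.none Ext.none)

def k0_pm_112_b : ∃ t, chk3 f_pm_112_b t 2 2 1 = true :=
  ⟨(b (a (a (b (l 1) (a (b (l 1) (b (l 1) (l 295849172567))) (a (b (l 1) (l 230887809527)) (b (l 309807909911) (a (l 247530803543) (l 226055995687)))))) (b (b (a (l 1) (b (l 1) (a (l 1) (b (l 1) (l 213171174711))))) (a (b (l 1) (a (l 1) (l 244846497495))) (b (a (b (l 1) (l 223908560247)) (b (l 210486820951) (l 180958904407))) (a (l 209413060007) (l 16715360))))) (b (a (b (a (l 251288929943) (l 214244876295)) (a (l 205654889735) (l 16693184))) (b (l 16709128) (l 16705368))) (a (b (l 16686768) (l 16682592)) (l 16696816))))) (b (a (a (b (a (b (a (l 1) (b (l 1) (l 216392425335))) (b (l 202970619671) (l 172368993639))) (b (a (l 201360055415) (l 163779093287)) (l 16735656))) (a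 (b (l 16725904) (l 16722832)) (l 16729016))) (b (a (b (a (l 16743216) (l 16745056)) (l 16739328)) (b (l 16745144) (l 16737192))) (a (l 16729368) (l 16726712)))) (b (a (b (l 16734896) (l 16726784)) (a (a (l 16714048) (l 169282009943)) (l 198273008935))) (a (a (l 16720304) (l 16711600)) (a (l 16700040) (l 16685352))))) (a (a (b (l 16715744) (l 16702512)) (l 16708616)) (b (a (l 16705840) (l 16688848)) (a (l 16699496) (l 16689160)))))) (a (a (b (a (b (a (l 219613485751) (l 241625196567)) (l 16656928)) (b (l 16660952) (l 16645696))) (a (l 16606288) (l 16615104))) (b (a (b (l 16673168) (l 16656736)) (l 16674624)) (a (l 16627480) (l 16643992)))) (b (a (a (l 16683648) (l 16691136)) (a (l 16696896) (b (l 16694048) (l 16704240)))) (a (a (l 16661872) (l 16683504)) (a (l 16706520) (l 16729464)))))), by decide +kernel⟩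

def k1_pm_112_b : ∃ t, chk3 f_pm_112_b t 3 2 1 = true :=
  ⟨(a (a (b (b (a (b (l 3) (l 181093085239)) (l 3)) (a (b (l 137069662407) (l 84456312167)) (b (l 3) (l 175187409319)))) (b (b (a (l 16681344) (l 139753966391)) (a (l 16702232) (l 57612765239))) (b (a (l 16730600) (l 16729440)) (a (l 16767736) (l 16786904))))) (b (l 3) (b (a (b (l 3) (l 192367330423)) (l 3)) (a (b (l 263167191239) (l 2)) (l 2))))) (l 3)), by decide +kernel⟩

def k2_pm_112_b : ∃ t, chk3 f_pm_112_b t 1 3 1 = true :=
  ⟨(a (a (b (a (b (a (l 16553456) (l 16566760)) (b (l 16517296) (l 16489656))) (b (a (l 16586584) (l 16613128)) (b (l 16594224) (l 16557280)))) (a (b (a (l 16434464) (l 16466384)) (a (l 16376504) (l 16420128))) (b (a (l 16509640) (l 16565704)) (l 16555160)))) (b (a (b (a (l 16647200) (l 16685904)) (a (l 16658056) (b (l 16694392) (l 16702800)))) (b (a (l 16731056) (l 16781784)) (a (b (l 16758648) (l 2)) (l 2)))) (a (b (a (l 16636216) (l 2)) (l 2)) (l 2)))) (b (a (a (a (b (l 16838656) (l 2)) (l 2)) (l 2)) (l 2)) (l 2))), by decide +kernel⟩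

theorem s3_pm_112_b : ∃ t, chk3 f_pm_112_b t 1 2 1 = true := ex3_a k0_pm_112_b k1_pm_112_b

theorem s4_pm_112_b : ∃ t, chk3 f_pm_112_b t 1 1 1 = true := ex3_b s3_pm_112_b k2_pm_112_b

theorem c_pm_112_b : CertB 536870912 536870912 1239849684 370763052 649613803 48318383 3 eng mog cd0q1 cd2q2b pd1 false true false .dn 1 1 2
    ndB0q1 ndB2q2b pcB1 Cut.none Ext.none :=
  certB1 (fam := false) (s1 := true) (s2 := false) (a := 1) (b := 1) (c := 2) (cn := .dn) (n1 := ndB0q1) (n2 := ndB2q2b) (pc := pcB1) (cut := Cut.none) (xt := Ext.none) (P1 := 536870912) (W1 := 536870912) (P2 := 1239849684) (W2 := 370763052) (P3 := 649613803) (W3 := 48318383) (N0 := 3) (En := eng) (mo := mog) (C1 := cd0q1) (C2 := cd2q2b) (C3 := pd1)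
    rfl (fun _ => rfl) s4_pm_112_b

noncomputable def cut_pm_113 : Cut := Cut.of [[⟨0, 1, 0, 67108864⟩, ⟨1, 1, 0, 67108864⟩, ⟨2, 2, 0, 16777216⟩]]

noncomputable def f_pm_113 : ℕ → ℕ → ℕ → ℕ → Bool := onCell 536870912 536870912 536870912 536870912 649613803 48318383
    (rowB 3 eng mog cd0q1 cd2q3 pd1 1 false true false .nn 1 1 3 (qsf 536870912 536870912 1610612736 536870912 1) ndB0q1 ndB2q3 pcB1 cut_pm_113 Ext.none)

def k0_pm_113 : ∃ t, chk3 f_pm_113 t 1 2 1 = true :=
  ⟨(a (b (l 1) (a (l 1) (b (l 1) (a (l 1) (l 119755750151))))) (a (a (b (l 1) (b (b (l 1) (a (l 1) (l 16713744))) (b (a (l 16741656) (l 16754688)) (a (l 16771976) (l 16805992))))) (b (l 3) (b (a (b (l 3) (l 229411505943)) (l 3)) (b (a (a (l 16756680) (l 234243361063)) (l 3)) (a (a (l 16823968) (l 16830656)) (l 260013329895)))))) (l 3))), by decide +kernel⟩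

def k1_pm_113 : ∃ t, chk3 f_pm_113 t 2 3 1 = true :=
  ⟨(a (b (a (l 1) (b (l 1) (b (l 1) (l 16526256)))) (a (b (l 106870479959) (l 16350584)) (b (l 58015104423) (l 16441584)))) (b (a (b (a (l 1) (l 16665864)) (a (l 16600448) (l 47814855591))) (b (a (l 16709888) (l 16762336)) (a (b (l 16718744) (l 16726248)) (l 16767800)))) (a (b (a (l 16573864) (l 16649160)) (b (l 16592304) (l 16564224))) (b (a (l 16690304) (l 16716880)) (a (l 16630144) (l 16655008)))))), by decide +kernel⟩

def k2_pm_113 : ∃ t, chk3 f_pm_113 t 3 3 1 = true :=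
  ⟨(b (a (b (a (b (a (l 16806968) (l 16866344)) (l 16869744)) (b (a (l 16922464) (a (l 16887144) (l 235854081591))) (a (l 17035072) (a (l 16959600) (l 16871736))))) (a (a (l 16824216) (l 16875120)) (b (a (l 16972208) (l 16928672)) (a (l 16909128) (l 16970632))))) (a (b (a (b (l 3) (b (l 264845270631) (l 204715724279))) (l 3)) (a (b (b (l 132774925847) (l 16856160)) (a (l 17004448) (l 16943288))) (b (a (l 249276073303) (l 3)) (a (b (l 16895544) (l 16940280)) (l 333027978279))))) (l 3))) (a (b (a (a (l 16747976) (l 16788592)) (b (a (l 16858328) (l 16909408)) (l 16839752))) (a (a (l 16685112) (l 16826912)) (a (l 16742672) (l 16799448)))) (b (a (b (a (l 16906784) (b (l 198810103863) (l 188609600775))) (a (l 16891384) (a (l 16905264) (l 16908368)))) (a (b (a (b (l 3) (l 220284979591)) (l 3)) (a (b (l 189683316743) (l 16895384)) (b (l 321216780999) (l 189683255815)))) (l 3))) (a (a (l 16823952) (b (b (l 16868368) (l 16844224)) (a (l 16811832) (l 16812736)))) (a (a (b (l 16856856) (l 16812088)) (b (b (l 139754295735) (l 16843128))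 (b (l 16820272) (l 16799032)))) (a (b (b (l 349134004983) (a (l 104320803815) (b (l 206863103959) (l 225653593751)))) (b (a (l 16817672) (b (l 112373850807) (l 16810040))) (l 16795080))) (b (l 3) (a (b (b (l 363092584407) (a (l 110226355511) (l 242833435975))) (b (c (l 118279401575) (l 72108516375)) (l 16786216))) (b (l 3) (a (b (b (l 374903707447) (a (l 115058171687) (l 251960235895))) (a (l 16784664) (l 6))) (b (l 3) (l 6)))))))))))), by decide +kernel⟩

theorem s3_pm_113 : ∃ t, chk3 f_pm_113 t 1 3 1 = true := ex3_a k1_pm_113 k2_pm_113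

theorem s4_pm_113 : ∃ t, chk3 f_pm_113 t 1 1 1 = true := ex3_b k0_pm_113 s3_pm_113

theorem c_pm_113 : CertB 536870912 536870912 1610612736 536870912 649613803 48318383 3 eng mog cd0q1 cd2q3 pd1 false true false .nn 1 1 3
    ndB0q1 ndB2q3 pcB1 cut_pm_113 Ext.none :=
  certB1 (fam := false) (s1 := true) (s2 := false) (a := 1) (b := 1) (c := 3) (cn := .nn) (n1 := ndB0q1) (n2 := ndB2q3) (pc := pcB1) (cut := cut_pm_113) (xt := Ext.none) (P1 := 536870912) (W1 := 536870912) (P2 := 1610612736) (W2 := 536870912) (P3 := 649613803) (W3 := 48318383) (N0 := 3) (En := eng) (mo := mog) (C1 := cd0q1) (C2 := cd2q3) (C3 := pd1)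
    rfl (fun _ => rfl) s4_pm_113

noncomputable def cut_pm_123 : Cut := Cut.of [[⟨0, 1, 0, 67108864⟩, ⟨1, 1, 0, 67108864⟩, ⟨2, 2, 0, 16777216⟩]]

noncomputable def f_pm_123 : ℕ → ℕ → ℕ → ℕ → Bool := onCell 536870912 536870912 1073741824 536870912 649613803 48318383
    (rowB 3 eng mog cd0q1 cd2q3 pd2 1 false true false .npn 1 2 3 (qsf 536870912 536870912 1610612736 536870912 2) ndB0q1 ndB2q3 pcB2 cut_pm_123 Ext.none)

def k0_pm_123 : ∃ t, chk3 f_pm_123 t 1 1 1 = true :=
  ⟨(a (b (a (b (a (b (l 16308720) (l 16261824)) (b (l 16413280) (l 16375176))) (b (a (b (l 16232832) (l 16241056)) (b (l 16351248) (l 16348968))) (a (l 16327008) (l 16417704)))) (b (a (b (b (l 16537864) (l 16505592)) (l 16444160)) (b (b (a (l 16582232) (l 16601856)) (l 16621320)) (a (l 16506552) (l 16527360)))) (b (a (b (l 16433984) (l 16427576)) (b (l 16486968) (l 16481856))) (a (l 16486992) (l 16539752))))) (a (b (b (a (l 16434184) (l 16508624)) (l 16561584)) (a (l 16643288) (l 16887320))) (b (a (b (l 16569424) (l 16645080)) (b (l 16618416) (l 16685288)))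 (a (b (l 16710512) (l 2)) (l 2))))) (b (a (b (a (b (a (b (l 16625000) (l 16591352)) (l 16763024)) (a (l 16551144) (l 16580432))) (b (a (b (l 16689376) (l 16654640)) (l 16708304)) (a (l 16615536) (l 16654816)))) (b (a (b (l 16540912) (l 16792776)) (b (b (l 16621424) (a (l 16597472) (l 16645760))) (a (l 16602872) (l 16646128)))) (a (l 16785416) (a (l 16648344) (l 2))))) (b (b (a (a (l 16735472) (b (l 16765504) (l 16737232))) (a (b (l 16770456) (l 16747008)) (a (b (b (l 16775512) (l 16765288)) (l 735613952919)) (b (b (b (a (l 16776632) (l 6)) (a (l 6) (l 856946677959))) (l 863926076439)) (l 2))))) (a (a (l 16750496) (l 16744104)) (a (l 717360671303) (l 2)))) (a (b (b (b (l 16708088) (l 2)) (l 2)) (l 2)) (l 2)))) (a (b (a (b (l 16812688) (l 2)) (l 2)) (l 2)) (l 2)))), by decide +kernel⟩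

theorem c_pm_123 : CertB 536870912 536870912 1610612736 536870912 649613803 48318383 3 eng mog cd0q1 cd2q3 pd2 false true false .npn 1 2 3
    ndB0q1 ndB2q3 pcB2 cut_pm_123 Ext.none :=
  certB1 (fam := false) (s1 := true) (s2 := false) (a := 1) (b := 2) (c := 3) (cn := .npn) (n1 := ndB0q1) (n2 := ndB2q3) (pc := pcB2) (cut := cut_pm_123) (xt := Ext.none) (P1 := 536870912) (W1 := 536870912) (P2 := 1610612736) (W2 := 536870912) (P3 := 649613803) (W3 := 48318383) (N0 := 3) (En := eng) (mo := mog) (C1 := cd0q1) (C2 := cd2q3) (C3 := pd2)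
    rfl (fun _ => rfl) k0_pm_123

noncomputable def f_pm_133 : ℕ → ℕ → ℕ → ℕ → Bool := onCell 536870912 536870912 1610612736 536870912 649613803 48318383
    (rowB 3 eng mog cd0q1 cd2q3 pd3 0 false true false .dn 1 3 3 (qsf 536870912 536870912 1610612736 536870912 3) ndB0q1 ndB2q3 pcB3 Cut.none Ext.none)

def k0_pm_133 : ∃ t, chk3 f_pm_133 t 1 1 1 = true :=
  ⟨(a (a (b (l 1) (b (l 1) (a (l 16674976) (l 1)))) (l 1)) (l 1)), by decide +kernel⟩

theorem c_pm_133 : CertB 536870912 536870912 1610612736 536870912 649613803 48318383 3 eng mog cd0q1 cd2q3 pd3 false true false .dn 1 3 3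
    ndB0q1 ndB2q3 pcB3 Cut.none Ext.none :=
  certB0 (fam := false) (s1 := true) (s2 := false) (a := 1) (b := 3) (c := 3) (cn := .dn) (n1 := ndB0q1) (n2 := ndB2q3) (pc := pcB3) (cut := Cut.none) (xt := Ext.none) (P1 := 536870912) (W1 := 536870912) (P2 := 1610612736) (W2 := 536870912) (P3 := 649613803) (W3 := 48318383) (N0 := 3) (En := eng) (mo := mog) (C1 := cd0q1) (C2 := cd2q3) (C3 := pd3)
    rfl k0_pm_133

noncomputable def cut_pm_202_a : Cut := Cut.of [[⟨0, 1, 0, 67108864⟩, ⟨1, 0, 0, 67108864⟩, ⟨2, 1, 0, 67108864⟩]]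

noncomputable def f_pm_202_a : ℕ → ℕ → ℕ → ℕ → Bool := onCell 0 536870912 0 536870912 649613803 48318383
    (rowB 3 eng mog cd0q2 cd2q2a pd0 0 false true false .pp 2 0 2 (qsf 0 536870912 0 536870912 0) ndB0q2 ndB2q2a pcB0 cut_pm_202_a Ext.none)

def k0_pm_202_a : ∃ t, chk3 f_pm_202_a t 1 1 1 = true :=
  ⟨(a (l 3) (b (l 3) (a (l 3) (b (l 3) (a (l 3) (b (l 3) (l 6))))))), by decide +kernel⟩

theorem c_pm_202_a : CertB 0 536870912 0 536870912 649613803 48318383 3 eng mog cd0q2 cd2q2a pd0 false true false .pp 2 0 2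
    ndB0q2 ndB2q2a pcB0 cut_pm_202_a Ext.none :=
  certB0 (fam := false) (s1 := true) (s2 := false) (a := 2) (b := 0) (c := 2) (cn := .pp) (n1 := ndB0q2) (n2 := ndB2q2a) (pc := pcB0) (cut := cut_pm_202_a) (xt := Ext.none) (P1 := 0) (W1 := 536870912) (P2 := 0) (W2 := 536870912) (P3 := 649613803) (W3 := 48318383) (N0 := 3) (En := eng) (mo := mog) (C1 := cd0q2) (C2 := cd2q2a) (C3 := pd0)
    rfl k0_pm_202_a

noncomputable def cut_pm_202_b : Cut := Cut.of [[⟨0, 1, 0, 67108864⟩, ⟨1, 0, 0, 67108864⟩, ⟨2, 1, 0, 67108864⟩]]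

noncomputable def f_pm_202_b : ℕ → ℕ → ℕ → ℕ → Bool := onCell 0 536870912 1239849684 370763052 649613803 48318383
    (rowB 3 eng mog cd0q2 cd2q2b pd0 0 false true false .pp 2 0 2 (qsf 0 536870912 1239849684 370763052 0) ndB0q2 ndB2q2b pcB0 cut_pm_202_b Ext.none)

def k0_pm_202_b : ∃ t, chk3 f_pm_202_b t 1 1 1 = true :=
  ⟨(l 3), by decide +kernel⟩

theorem c_pm_202_b : CertB 0 536870912 1239849684 370763052 649613803 48318383 3 eng mog cd0q2 cd2q2b pd0 false true false .pp 2 0 2
    ndB0q2 ndB2q2b pcB0 cut_pm_202_b Ext.none :=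
  certB0 (fam := false) (s1 := true) (s2 := false) (a := 2) (b := 0) (c := 2) (cn := .pp) (n1 := ndB0q2) (n2 := ndB2q2b) (pc := pcB0) (cut := cut_pm_202_b) (xt := Ext.none) (P1 := 0) (W1 := 536870912) (P2 := 1239849684) (W2 := 370763052) (P3 := 649613803) (W3 := 48318383) (N0 := 3) (En := eng) (mo := mog) (C1 := cd0q2) (C2 := cd2q2b) (C3 := pd0)
    rfl k0_pm_202_b

noncomputable def f_pm_203 : ℕ → ℕ → ℕ → ℕ → Bool := onCell 0 536870912 0 536870912 649613803 48318383
    (rowB 3 eng mog cd0q2 cd2q3 pd0 1 false true false .up 2 0 3 (qsf 0 536870912 1610612736 536870912 0) ndB0q2 ndB2q3 pcB0 Cut.none Ext.none)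

def k0_pm_203 : ∃ t, chk3 f_pm_203 t 1 1 1 = true :=
  ⟨(l 3), by decide +kernel⟩

theorem c_pm_203 : CertB 0 536870912 1610612736 536870912 649613803 48318383 3 eng mog cd0q2 cd2q3 pd0 false true false .up 2 0 3
    ndB0q2 ndB2q3 pcB0 Cut.none Ext.none :=
  certB1 (fam := false) (s1 := true) (s2 := false) (a := 2) (b := 0) (c := 3) (cn := .up) (n1 := ndB0q2) (n2 := ndB2q3) (pc := pcB0) (cut := Cut.none) (xt := Ext.none) (P1 := 0) (W1 := 536870912) (P2 := 1610612736) (W2 := 536870912) (P3 := 649613803) (W3 := 48318383) (N0 := 3) (En := eng) (mo := mog) (C1 := cd0q2) (C2 := cd2q3) (C3 := pd0)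
    rfl (fun _ => rfl) k0_pm_203

noncomputable def cut_pm_213 : Cut := Cut.of [[⟨0, 1, 0, 67108864⟩, ⟨1, 1, 0, 67108864⟩, ⟨2, 2, 0, 16777216⟩]]

noncomputable def f_pm_213 : ℕ → ℕ → ℕ → ℕ → Bool := onCell 0 536870912 1610612736 536870912 649613803 48318383
    (rowB 3 eng mog cd0q2 cd2q3 pd1 0 false true false .pnn 2 1 3 (qsf 0 536870912 1610612736 536870912 1) ndB0q2 ndB2q3 pcB1 cut_pm_213 Ext.none)

def k0_pm_213 : ∃ t, chk3 f_pm_213 t 1 1 1 = true :=
  ⟨(b (l 3) (a (l 3) (b (l 3) (a (l 3) (b (l 3) (b (l 3) (a (l 3) (b (l 3) (b (l 3) (l 6)))))))))), by decide +kernel⟩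

theorem c_pm_213 : CertB 0 536870912 1610612736 536870912 649613803 48318383 3 eng mog cd0q2 cd2q3 pd1 false true false .pnn 2 1 3
    ndB0q2 ndB2q3 pcB1 cut_pm_213 Ext.none :=
  certB0 (fam := false) (s1 := true) (s2 := false) (a := 2) (b := 1) (c := 3) (cn := .pnn) (n1 := ndB0q2) (n2 := ndB2q3) (pc := pcB1) (cut := cut_pm_213) (xt := Ext.none) (P1 := 0) (W1 := 536870912) (P2 := 1610612736) (W2 := 536870912) (P3 := 649613803) (W3 := 48318383) (N0 := 3) (En := eng) (mo := mog) (C1 := cd0q2) (C2 := cd2q3) (C3 := pd1)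
    rfl k0_pm_213

noncomputable def f_mm_001 : ℕ → ℕ → ℕ → ℕ → Bool := onCell 0 536870912 536870912 536870912 649613803 48318383
    (rowB 3 eng mog cd0q0 cd2q1 pd0 0 false false false .up 0 0 1 (qsf 0 536870912 536870912 536870912 0) ndB0q0 ndB2q1 pcB0 Cut.none Ext.none)

def k0_mm_001 : ∃ t, chk3 f_mm_001 t 1 1 1 = true :=
  ⟨(l 3), by decide +kernel⟩

theorem c_mm_001 : CertB 0 536870912 536870912 536870912 649613803 48318383 3 eng mog cd0q0 cd2q1 pd0 false false false .up 0 0 1
    ndB0q0 ndB2q1 pcB0 Cut.none Ext.none :=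
  certB0 (fam := false) (s1 := false) (s2 := false) (a := 0) (b := 0) (c := 1) (cn := .up) (n1 := ndB0q0) (n2 := ndB2q1) (pc := pcB0) (cut := Cut.none) (xt := Ext.none) (P1 := 0) (W1 := 536870912) (P2 := 536870912) (W2 := 536870912) (P3 := 649613803) (W3 := 48318383) (N0 := 3) (En := eng) (mo := mog) (C1 := cd0q0) (C2 := cd2q1) (C3 := pd0)
    rfl k0_mm_001

noncomputable def f_mm_011 : ℕ → ℕ → ℕ → ℕ → Bool := onCell 0 536870912 536870912 536870912 649613803 48318383
    (rowB 3 eng mog cd0q0 cd2q1 pd1 0 false false false .pnn 0 1 1 (qsf 0 536870912 536870912 536870912 1) ndB0q0 ndB2q1 pcB1 Cut.none Ext.none)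

def k0_mm_011 : ∃ t, chk3 f_mm_011 t 1 1 1 = true :=
  ⟨(l 3), by decide +kernel⟩

theorem c_mm_011 : CertB 0 536870912 536870912 536870912 649613803 48318383 3 eng mog cd0q0 cd2q1 pd1 false false false .pnn 0 1 1
    ndB0q0 ndB2q1 pcB1 Cut.none Ext.none :=
  certB0 (fam := false) (s1 := false) (s2 := false) (a := 0) (b := 1) (c := 1) (cn := .pnn) (n1 := ndB0q0) (n2 := ndB2q1) (pc := pcB1) (cut := Cut.none) (xt := Ext.none) (P1 := 0) (W1 := 536870912) (P2 := 536870912) (W2 := 536870912) (P3 := 649613803) (W3 := 48318383) (N0 := 3) (En := eng) (mo := mog) (C1 := cd0q0) (C2 := cd2q1) (C3 := pd1)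
    rfl k0_mm_011

noncomputable def f_mm_012_a : ℕ → ℕ → ℕ → ℕ → Bool := onCell 0 536870912 0 536870912 649613803 48318383
    (rowB 3 eng mog cd0q0 cd2q2a pd1 0 false false false .pnp 0 1 2 (qsf 0 536870912 0 536870912 1) ndB0q0 ndB2q2a pcB1 Cut.none Ext.none)

def k0_mm_012_a : ∃ t, chk3 f_mm_012_a t 1 1 1 = true :=
  ⟨(l 5), by decide +kernel⟩

theorem c_mm_012_a : CertB 0 536870912 0 536870912 649613803 48318383 3 eng mog cd0q0 cd2q2a pd1 false false false .pnp 0 1 2
    ndB0q0 ndB2q2a pcB1 Cut.none Ext.none :=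
  certB0 (fam := false) (s1 := false) (s2 := false) (a := 0) (b := 1) (c := 2) (cn := .pnp) (n1 := ndB0q0) (n2 := ndB2q2a) (pc := pcB1) (cut := Cut.none) (xt := Ext.none) (P1 := 0) (W1 := 536870912) (P2 := 0) (W2 := 536870912) (P3 := 649613803) (W3 := 48318383) (N0 := 3) (En := eng) (mo := mog) (C1 := cd0q0) (C2 := cd2q2a) (C3 := pd1)
    rfl k0_mm_012_a

noncomputable def f_mm_012_b : ℕ → ℕ → ℕ → ℕ → Bool := onCell 0 536870912 1239849684 370763052 649613803 48318383
    (rowB 3 eng mog cd0q0 cd2q2b pd1 0 false false false .pnp 0 1 2 (qsf 0 536870912 1239849684 370763052 1) ndB0q0 ndB2q2b pcB1 Cut.none Ext.none)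

def k0_mm_012_b : ∃ t, chk3 f_mm_012_b t 1 1 1 = true :=
  ⟨(l 5), by decide +kernel⟩

theorem c_mm_012_b : CertB 0 536870912 1239849684 370763052 649613803 48318383 3 eng mog cd0q0 cd2q2b pd1 false false false .pnp 0 1 2
    ndB0q0 ndB2q2b pcB1 Cut.none Ext.none :=
  certB0 (fam := false) (s1 := false) (s2 := false) (a := 0) (b := 1) (c := 2) (cn := .pnp) (n1 := ndB0q0) (n2 := ndB2q2b) (pc := pcB1) (cut := Cut.none) (xt := Ext.none) (P1 := 0) (W1 := 536870912) (P2 := 1239849684) (W2 := 370763052) (P3 := 649613803) (W3 := 48318383) (N0 := 3) (En := eng) (mo := mog) (C1 := cd0q0) (C2 := cd2q2b) (C3 := pd1)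
    rfl k0_mm_012_b

noncomputable def f_mm_022_a : ℕ → ℕ → ℕ → ℕ → Bool := onCell 0 536870912 0 536870912 649613803 48318383
    (rowB 3 eng mog cd0q0 cd2q2a pd2 0 false false false .pp 0 2 2 (qsf 0 536870912 0 536870912 2) ndB0q0 ndB2q2a pcB2 Cut.none Ext.none)

def k0_mm_022_a : ∃ t, chk3 f_mm_022_a t 1 1 1 = true :=
  ⟨(l 5), by decide +kernel⟩

theorem c_mm_022_a : CertB 0 536870912 0 536870912 649613803 48318383 3 eng mog cd0q0 cd2q2a pd2 false false false .pp 0 2 2
    ndB0q0 ndB2q2a pcB2 Cut.none Ext.none :=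
  certB0 (fam := false) (s1 := false) (s2 := false) (a := 0) (b := 2) (c := 2) (cn := .pp) (n1 := ndB0q0) (n2 := ndB2q2a) (pc := pcB2) (cut := Cut.none) (xt := Ext.none) (P1 := 0) (W1 := 536870912) (P2 := 0) (W2 := 536870912) (P3 := 649613803) (W3 := 48318383) (N0 := 3) (En := eng) (mo := mog) (C1 := cd0q0) (C2 := cd2q2a) (C3 := pd2)
    rfl k0_mm_022_a

noncomputable def f_mm_022_b : ℕ → ℕ → ℕ → ℕ → Bool := onCell 0 536870912 1239849684 370763052 649613803 48318383
    (rowB 3 eng mog cd0q0 cd2q2b pd2 0 false false false .pp 0 2 2 (qsf 0 536870912 1239849684 370763052 2) ndB0q0 ndB2q2b pcB2 Cut.none Ext.none)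

def k0_mm_022_b : ∃ t, chk3 f_mm_022_b t 1 1 1 = true :=
  ⟨(l 5), by decide +kernel⟩

theorem c_mm_022_b : CertB 0 536870912 1239849684 370763052 649613803 48318383 3 eng mog cd0q0 cd2q2b pd2 false false false .pp 0 2 2
    ndB0q0 ndB2q2b pcB2 Cut.none Ext.none :=
  certB0 (fam := false) (s1 := false) (s2 := false) (a := 0) (b := 2) (c := 2) (cn := .pp) (n1 := ndB0q0) (n2 := ndB2q2b) (pc := pcB2) (cut := Cut.none) (xt := Ext.none) (P1 := 0) (W1 := 536870912) (P2 := 1239849684) (W2 := 370763052) (P3 := 649613803) (W3 := 48318383) (N0 := 3) (En := eng) (mo := mog) (C1 := cd0q0) (C2 := cd2q2b) (C3 := pd2)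
    rfl k0_mm_022_b

noncomputable def f_mm_023 : ℕ → ℕ → ℕ → ℕ → Bool := onCell 0 536870912 1610612736 536870912 649613803 48318383
    (rowB 3 eng mog cd0q0 cd2q3 pd2 0 false false false .up 0 2 3 (qsf 0 536870912 1610612736 536870912 2) ndB0q0 ndB2q3 pcB2 Cut.none Ext.none)

def k0_mm_023 : ∃ t, chk3 f_mm_023 t 1 1 1 = true :=
  ⟨(l 5), by decide +kernel⟩

theorem c_mm_023 : CertB 0 536870912 1610612736 536870912 649613803 48318383 3 eng mog cd0q0 cd2q3 pd2 false false false .up 0 2 3
    ndB0q0 ndB2q3 pcB2 Cut.none Ext.none :=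
  certB0 (fam := false) (s1 := false) (s2 := false) (a := 0) (b := 2) (c := 3) (cn := .up) (n1 := ndB0q0) (n2 := ndB2q3) (pc := pcB2) (cut := Cut.none) (xt := Ext.none) (P1 := 0) (W1 := 536870912) (P2 := 1610612736) (W2 := 536870912) (P3 := 649613803) (W3 := 48318383) (N0 := 3) (En := eng) (mo := mog) (C1 := cd0q0) (C2 := cd2q3) (C3 := pd2)
    rfl k0_mm_023

noncomputable def f_mm_033 : ℕ → ℕ → ℕ → ℕ → Bool := onCell 0 536870912 1610612736 536870912 649613803 48318383
    (rowB 3 eng mog cd0q0 cd2q3 pd3 0 false false false .pnn 0 3 3 (qsf 0 536870912 1610612736 536870912 3) ndB0q0 ndB2q3 pcB3 Cut.none Ext.none)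

def k0_mm_033 : ∃ t, chk3 f_mm_033 t 1 1 1 = true :=
  ⟨(l 5), by decide +kernel⟩

theorem c_mm_033 : CertB 0 536870912 1610612736 536870912 649613803 48318383 3 eng mog cd0q0 cd2q3 pd3 false false false .pnn 0 3 3
    ndB0q0 ndB2q3 pcB3 Cut.none Ext.none :=
  certB0 (fam := false) (s1 := false) (s2 := false) (a := 0) (b := 3) (c := 3) (cn := .pnn) (n1 := ndB0q0) (n2 := ndB2q3) (pc := pcB3) (cut := Cut.none) (xt := Ext.none) (P1 := 0) (W1 := 536870912) (P2 := 1610612736) (W2 := 536870912) (P3 := 649613803) (W3 := 48318383) (N0 := 3) (En := eng) (mo := mog) (C1 := cd0q0) (C2 := cd2q3) (C3 := pd3)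
    rfl k0_mm_033

noncomputable def f_mm_101 : ℕ → ℕ → ℕ → ℕ → Bool := onCell 536870912 536870912 536870912 536870912 649613803 48318383
    (rowB 3 eng mog cd0q1 cd2q1 pd0 0 false false false .npn 1 0 1 (qsf 536870912 536870912 536870912 536870912 0) ndB0q1 ndB2q1 pcB0 Cut.none Ext.none)

def k0_mm_101 : ∃ t, chk3 f_mm_101 t 1 1 1 = true :=
  ⟨(l 3), by decide +kernel⟩

theorem c_mm_101 : CertB 536870912 536870912 536870912 536870912 649613803 48318383 3 eng mog cd0q1 cd2q1 pd0 false false false .npn 1 0 1
    ndB0q1 ndB2q1 pcB0 Cut.none Ext.none :=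
  certB0 (fam := false) (s1 := false) (s2 := false) (a := 1) (b := 0) (c := 1) (cn := .npn) (n1 := ndB0q1) (n2 := ndB2q1) (pc := pcB0) (cut := Cut.none) (xt := Ext.none) (P1 := 536870912) (W1 := 536870912) (P2 := 536870912) (W2 := 536870912) (P3 := 649613803) (W3 := 48318383) (N0 := 3) (En := eng) (mo := mog) (C1 := cd0q1) (C2 := cd2q1) (C3 := pd0)
    rfl k0_mm_101

noncomputable def f_mm_102_a : ℕ → ℕ → ℕ → ℕ → Bool := onCell 536870912 536870912 0 536870912 649613803 48318383
    (rowB 3 eng mog cd0q1 cd2q2a pd0 0 false false false .npp 1 0 2 (qsf 536870912 536870912 0 536870912 0) ndB0q1 ndB2q2a pcB0 Cut.none Ext.none)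

def k0_mm_102_a : ∃ t, chk3 f_mm_102_a t 1 1 1 = true :=
  ⟨(a (l 5) (l 3)), by decide +kernel⟩

theorem c_mm_102_a : CertB 536870912 536870912 0 536870912 649613803 48318383 3 eng mog cd0q1 cd2q2a pd0 false false false .npp 1 0 2
    ndB0q1 ndB2q2a pcB0 Cut.none Ext.none :=
  certB0 (fam := false) (s1 := false) (s2 := false) (a := 1) (b := 0) (c := 2) (cn := .npp) (n1 := ndB0q1) (n2 := ndB2q2a) (pc := pcB0) (cut := Cut.none) (xt := Ext.none) (P1 := 536870912) (W1 := 536870912) (P2 := 0) (W2 := 536870912) (P3 := 649613803) (W3 := 48318383) (N0 := 3) (En := eng) (mo := mog) (C1 := cd0q1) (C2 := cd2q2a) (C3 := pd0)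
    rfl k0_mm_102_a

noncomputable def f_mm_102_b : ℕ → ℕ → ℕ → ℕ → Bool := onCell 536870912 536870912 1239849684 370763052 649613803 48318383
    (rowB 3 eng mog cd0q1 cd2q2b pd0 0 false false false .npp 1 0 2 (qsf 536870912 536870912 1239849684 370763052 0) ndB0q1 ndB2q2b pcB0 Cut.none Ext.none)

def k0_mm_102_b : ∃ t, chk3 f_mm_102_b t 1 1 1 = true :=
  ⟨(l 5), by decide +kernel⟩

theorem c_mm_102_b : CertB 536870912 536870912 1239849684 370763052 649613803 48318383 3 eng mog cd0q1 cd2q2b pd0 false false false .npp 1 0 2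
    ndB0q1 ndB2q2b pcB0 Cut.none Ext.none :=
  certB0 (fam := false) (s1 := false) (s2 := false) (a := 1) (b := 0) (c := 2) (cn := .npp) (n1 := ndB0q1) (n2 := ndB2q2b) (pc := pcB0) (cut := Cut.none) (xt := Ext.none) (P1 := 536870912) (W1 := 536870912) (P2 := 1239849684) (W2 := 370763052) (P3 := 649613803) (W3 := 48318383) (N0 := 3) (En := eng) (mo := mog) (C1 := cd0q1) (C2 := cd2q2b) (C3 := pd0)
    rfl k0_mm_102_b

noncomputable def f_mm_112_a : ℕ → ℕ → ℕ → ℕ → Bool := onCell 536870912 536870912 0 536870912 649613803 48318383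
    (rowB 3 eng mog cd0q1 cd2q2a pd1 2 false false false .dn 1 1 2 (qsf 536870912 536870912 0 536870912 1) ndB0q1 ndB2q2a pcB1 Cut.none Ext.none)

def k0_mm_112_a : ∃ t, chk3 f_mm_112_a t 1 1 1 = true :=
  ⟨(l 5), by decide +kernel⟩

theorem c_mm_112_a : CertB 536870912 536870912 0 536870912 649613803 48318383 3 eng mog cd0q1 cd2q2a pd1 false false false .dn 1 1 2
    ndB0q1 ndB2q2a pcB1 Cut.none Ext.none :=
  certB2 (fam := false) (s1 := false) (s2 := false) (a := 1) (b := 1) (c := 2) (cn := .dn) (n1 := ndB0q1) (n2 := ndB2q2a) (pc := pcB1) (cut := Cut.none) (xt := Ext.none) (P1 := 536870912) (W1 := 536870912) (P2 := 0) (W2 := 536870912) (P3 := 649613803) (W3 := 48318383) (N0 := 3) (En := eng) (mo := mog) (C1 := cd0q1) (C2 := cd2q2a) (C3 := pd1)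
    rfl (fun _ => rfl) k0_mm_112_a

noncomputable def f_mm_112_b : ℕ → ℕ → ℕ → ℕ → Bool := onCell 536870912 536870912 1239849684 370763052 649613803 48318383
    (rowB 3 eng mog cd0q1 cd2q2b pd1 0 false false false .dn 1 1 2 (qsf 536870912 536870912 1239849684 370763052 1) ndB0q1 ndB2q2b pcB1 Cut.none Ext.none)

def k0_mm_112_b : ∃ t, chk3 f_mm_112_b t 1 1 1 = true :=
  ⟨(l 5), by decide +kernel⟩

theorem c_mm_112_b : CertB 536870912 536870912 1239849684 370763052 649613803 48318383 3 eng mog cd0q1 cd2q2b pd1 false false false .dn 1 1 2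
    ndB0q1 ndB2q2b pcB1 Cut.none Ext.none :=
  certB0 (fam := false) (s1 := false) (s2 := false) (a := 1) (b := 1) (c := 2) (cn := .dn) (n1 := ndB0q1) (n2 := ndB2q2b) (pc := pcB1) (cut := Cut.none) (xt := Ext.none) (P1 := 536870912) (W1 := 536870912) (P2 := 1239849684) (W2 := 370763052) (P3 := 649613803) (W3 := 48318383) (N0 := 3) (En := eng) (mo := mog) (C1 := cd0q1) (C2 := cd2q2b) (C3 := pd1)
    rfl k0_mm_112_b

noncomputable def f_mm_113 : ℕ → ℕ → ℕ → ℕ → Bool := onCell 536870912 536870912 1610612736 536870912 649613803 48318383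
    (rowB 3 eng mog cd0q1 cd2q3 pd1 0 false false false .nn 1 1 3 (qsf 536870912 536870912 1610612736 536870912 1) ndB0q1 ndB2q3 pcB1 Cut.none Ext.none)

def k0_mm_113 : ∃ t, chk3 f_mm_113 t 1 1 1 = true :=
  ⟨(l 5), by decide +kernel⟩

theorem c_mm_113 : CertB 536870912 536870912 1610612736 536870912 649613803 48318383 3 eng mog cd0q1 cd2q3 pd1 false false false .nn 1 1 3
    ndB0q1 ndB2q3 pcB1 Cut.none Ext.none :=
  certB0 (fam := false) (s1 := false) (s2 := false) (a := 1) (b := 1) (c := 3) (cn := .nn) (n1 := ndB0q1) (n2 := ndB2q3) (pc := pcB1) (cut := Cut.none) (xt := Ext.none) (P1 := 536870912) (W1 := 536870912) (P2 := 1610612736) (W2 := 536870912) (P3 := 649613803) (W3 := 48318383) (N0 := 3) (En := eng) (mo := mog) (C1 := cd0q1) (C2 := cd2q3) (C3 := pd1)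
    rfl k0_mm_113

noncomputable def f_mm_123 : ℕ → ℕ → ℕ → ℕ → Bool := onCell 536870912 536870912 1610612736 536870912 649613803 48318383
    (rowB 3 eng mog cd0q1 cd2q3 pd2 0 false false false .npn 1 2 3 (qsf 536870912 536870912 1610612736 536870912 2) ndB0q1 ndB2q3 pcB2 Cut.none Ext.none)

def k0_mm_123 : ∃ t, chk3 f_mm_123 t 1 1 1 = true :=
  ⟨(l 5), by decide +kernel⟩

theorem c_mm_123 : CertB 536870912 536870912 1610612736 536870912 649613803 48318383 3 eng mog cd0q1 cd2q3 pd2 false false false .npn 1 2 3
    ndB0q1 ndB2q3 pcB2 Cut.none Ext.none :=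
  certB0 (fam := false) (s1 := false) (s2 := false) (a := 1) (b := 2) (c := 3) (cn := .npn) (n1 := ndB0q1) (n2 := ndB2q3) (pc := pcB2) (cut := Cut.none) (xt := Ext.none) (P1 := 536870912) (W1 := 536870912) (P2 := 1610612736) (W2 := 536870912) (P3 := 649613803) (W3 := 48318383) (N0 := 3) (En := eng) (mo := mog) (C1 := cd0q1) (C2 := cd2q3) (C3 := pd2)
    rfl k0_mm_123

noncomputable def f_mm_133 : ℕ → ℕ → ℕ → ℕ → Bool := onCell 536870912 536870912 1610612736 536870912 649613803 48318383
    (rowB 3 eng mog cd0q1 cd2q3 pd3 0 false false false .dn 1 3 3 (qsf 536870912 536870912 1610612736 536870912 3) ndB0q1 ndB2q3 pcB3 Cut.none Ext.none)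

def k0_mm_133 : ∃ t, chk3 f_mm_133 t 1 1 1 = true :=
  ⟨(l 5), by decide +kernel⟩

theorem c_mm_133 : CertB 536870912 536870912 1610612736 536870912 649613803 48318383 3 eng mog cd0q1 cd2q3 pd3 false false false .dn 1 3 3
    ndB0q1 ndB2q3 pcB3 Cut.none Ext.none :=
  certB0 (fam := false) (s1 := false) (s2 := false) (a := 1) (b := 3) (c := 3) (cn := .dn) (n1 := ndB0q1) (n2 := ndB2q3) (pc := pcB3) (cut := Cut.none) (xt := Ext.none) (P1 := 536870912) (W1 := 536870912) (P2 := 1610612736) (W2 := 536870912) (P3 := 649613803) (W3 := 48318383) (N0 := 3) (En := eng) (mo := mog) (C1 := cd0q1) (C2 := cd2q3) (C3 := pd3)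
    rfl k0_mm_133

noncomputable def f_mm_202_a : ℕ → ℕ → ℕ → ℕ → Bool := onCell 0 536870912 0 536870912 649613803 48318383
    (rowB 3 eng mog cd0q2 cd2q2a pd0 0 false false false .pp 2 0 2 (qsf 0 536870912 0 536870912 0) ndB0q2 ndB2q2a pcB0 Cut.none Ext.none)

def k0_mm_202_a : ∃ t, chk3 f_mm_202_a t 1 1 1 = true :=
  ⟨(l 3), by decide +kernel⟩

theorem c_mm_202_a : CertB 0 536870912 0 536870912 649613803 48318383 3 eng mog cd0q2 cd2q2a pd0 false false false .pp 2 0 2
    ndB0q2 ndB2q2a pcB0 Cut.none Ext.none :=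
  certB0 (fam := false) (s1 := false) (s2 := false) (a := 2) (b := 0) (c := 2) (cn := .pp) (n1 := ndB0q2) (n2 := ndB2q2a) (pc := pcB0) (cut := Cut.none) (xt := Ext.none) (P1 := 0) (W1 := 536870912) (P2 := 0) (W2 := 536870912) (P3 := 649613803) (W3 := 48318383) (N0 := 3) (En := eng) (mo := mog) (C1 := cd0q2) (C2 := cd2q2a) (C3 := pd0)
    rfl k0_mm_202_a

noncomputable def f_mm_202_b : ℕ → ℕ → ℕ → ℕ → Bool := onCell 0 536870912 1239849684 370763052 649613803 48318383
    (rowB 3 eng mog cd0q2 cd2q2b pd0 0 false false false .pp 2 0 2 (qsf 0 536870912 1239849684 370763052 0) ndB0q2 ndB2q2b pcB0 Cut.none Ext.none)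

def k0_mm_202_b : ∃ t, chk3 f_mm_202_b t 1 1 1 = true :=
  ⟨(l 3), by decide +kernel⟩

theorem c_mm_202_b : CertB 0 536870912 1239849684 370763052 649613803 48318383 3 eng mog cd0q2 cd2q2b pd0 false false false .pp 2 0 2
    ndB0q2 ndB2q2b pcB0 Cut.none Ext.none :=
  certB0 (fam := false) (s1 := false) (s2 := false) (a := 2) (b := 0) (c := 2) (cn := .pp) (n1 := ndB0q2) (n2 := ndB2q2b) (pc := pcB0) (cut := Cut.none) (xt := Ext.none) (P1 := 0) (W1 := 536870912) (P2 := 1239849684) (W2 := 370763052) (P3 := 649613803) (W3 := 48318383) (N0 := 3) (En := eng) (mo := mog) (C1 := cd0q2) (C2 := cd2q2b) (C3 := pd0)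
    rfl k0_mm_202_b

noncomputable def f_mm_203 : ℕ → ℕ → ℕ → ℕ → Bool := onCell 0 536870912 0 536870912 649613803 48318383
    (rowB 3 eng mog cd0q2 cd2q3 pd0 1 false false false .up 2 0 3 (qsf 0 536870912 1610612736 536870912 0) ndB0q2 ndB2q3 pcB0 Cut.none Ext.none)

def k0_mm_203 : ∃ t, chk3 f_mm_203 t 1 1 1 = true :=
  ⟨(l 3), by decide +kernel⟩

theorem c_mm_203 : CertB 0 536870912 1610612736 536870912 649613803 48318383 3 eng mog cd0q2 cd2q3 pd0 false false false .up 2 0 3
    ndB0q2 ndB2q3 pcB0 Cut.none Ext.none :=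
  certB1 (fam := false) (s1 := false) (s2 := false) (a := 2) (b := 0) (c := 3) (cn := .up) (n1 := ndB0q2) (n2 := ndB2q3) (pc := pcB0) (cut := Cut.none) (xt := Ext.none) (P1 := 0) (W1 := 536870912) (P2 := 1610612736) (W2 := 536870912) (P3 := 649613803) (W3 := 48318383) (N0 := 3) (En := eng) (mo := mog) (C1 := cd0q2) (C2 := cd2q3) (C3 := pd0)
    rfl (fun _ => rfl) k0_mm_203

noncomputable def f_mm_213 : ℕ → ℕ → ℕ → ℕ → Bool := onCell 0 536870912 1610612736 536870912 649613803 48318383
    (rowB 3 eng mog cd0q2 cd2q3 pd1 0 false false false .pnn 2 1 3 (qsf 0 536870912 1610612736 536870912 1) ndB0q2 ndB2q3 pcB1 Cut.none Ext.none)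

def k0_mm_213 : ∃ t, chk3 f_mm_213 t 1 1 1 = true :=
  ⟨(a (l 3) (l 5)), by decide +kernel⟩

theorem c_mm_213 : CertB 0 536870912 1610612736 536870912 649613803 48318383 3 eng mog cd0q2 cd2q3 pd1 false false false .pnn 2 1 3
    ndB0q2 ndB2q3 pcB1 Cut.none Ext.none :=
  certB0 (fam := false) (s1 := false) (s2 := false) (a := 2) (b := 1) (c := 3) (cn := .pnn) (n1 := ndB0q2) (n2 := ndB2q3) (pc := pcB1) (cut := Cut.none) (xt := Ext.none) (P1 := 0) (W1 := 536870912) (P2 := 1610612736) (W2 := 536870912) (P3 := 649613803) (W3 := 48318383) (N0 := 3) (En := eng) (mo := mog) (C1 := cd0q2) (C2 := cd2q3) (C3 := pd1)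
    rfl k0_mm_213

end Pool.Agent.Strip051.G.I6050_6500.Tab.C.BB02

namespace Pool.Agent.Strip051.G.I6050_6500.Tab.C.BB03

open Pool.Agent.Strip051.PB Pool.Agent.Strip051.PB.T
open Pool.Agent.Strip051.G.I6050_6500.Tab

noncomputable def f_pp_001 : ℕ → ℕ → ℕ → ℕ → Bool := onCell 0 536870912 536870912 536870912 649613803 48318383
    (rowB 3 eng mog cd0q0 cd3q1 pd0 0 false true true .up 0 0 1 (qsf 0 536870912 536870912 536870912 0) ndB0q0 ndB3q1 pcB0 Cut.none Ext.none)

def k0_pp_001 : ∃ t, chk3 f_pp_001 t 1 1 1 = true :=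
  ⟨(l 3), by decide +kernel⟩

theorem c_pp_001 : CertB 0 536870912 536870912 536870912 649613803 48318383 3 eng mog cd0q0 cd3q1 pd0 false true true .up 0 0 1
    ndB0q0 ndB3q1 pcB0 Cut.none Ext.none :=
  certB0 (fam := false) (s1 := true) (s2 := true) (a := 0) (b := 0) (c := 1) (cn := .up) (n1 := ndB0q0) (n2 := ndB3q1) (pc := pcB0) (cut := Cut.none) (xt := Ext.none) (P1 := 0) (W1 := 536870912) (P2 := 536870912) (W2 := 536870912) (P3 := 649613803) (W3 := 48318383) (N0 := 3) (En := eng) (mo := mog) (C1 := cd0q0) (C2 := cd3q1) (C3 := pd0)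
    rfl k0_pp_001

noncomputable def f_pp_011 : ℕ → ℕ → ℕ → ℕ → Bool := onCell 0 536870912 536870912 536870912 649613803 48318383
    (rowB 3 eng mog cd0q0 cd3q1 pd1 0 false true true .pnn 0 1 1 (qsf 0 536870912 536870912 536870912 1) ndB0q0 ndB3q1 pcB1 Cut.none Ext.none)

def k0_pp_011 : ∃ t, chk3 f_pp_011 t 1 1 1 = true :=
  ⟨(l 3), by decide +kernel⟩

theorem c_pp_011 : CertB 0 536870912 536870912 536870912 649613803 48318383 3 eng mog cd0q0 cd3q1 pd1 false true true .pnn 0 1 1
    ndB0q0 ndB3q1 pcB1 Cut.none Ext.none :=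
  certB0 (fam := false) (s1 := true) (s2 := true) (a := 0) (b := 1) (c := 1) (cn := .pnn) (n1 := ndB0q0) (n2 := ndB3q1) (pc := pcB1) (cut := Cut.none) (xt := Ext.none) (P1 := 0) (W1 := 536870912) (P2 := 536870912) (W2 := 536870912) (P3 := 649613803) (W3 := 48318383) (N0 := 3) (En := eng) (mo := mog) (C1 := cd0q0) (C2 := cd3q1) (C3 := pd1)
    rfl k0_pp_011

noncomputable def cut_pp_012_a : Cut := Cut.of [[⟨0, 0, 0, 67108864⟩, ⟨1, 1, 0, 67108864⟩, ⟨2, 1, 0, 67108864⟩]]

noncomputable def f_pp_012_a : ℕ → ℕ → ℕ → ℕ → Bool := onCell 536870912 536870912 0 536870912 649613803 48318383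
    (rowB 3 eng mog cd0q0 cd3q2a pd1 2 false true true .pnp 0 1 2 (qsf 0 536870912 0 536870912 1) ndB0q0 ndB3q2a pcB1 cut_pp_012_a Ext.none)

def k0_pp_012_a : ∃ t, chk3 f_pp_012_a t 2 1 1 = true :=
  ⟨(l 3), by decide +kernel⟩

def k1_pp_012_a : ∃ t, chk3 f_pp_012_a t 12 2 1 = true :=
  ⟨(b (l 3) (l 3)), by decide +kernel⟩

def k2_pp_012_a : ∃ t, chk3 f_pp_012_a t 26 4 1 = true :=
  ⟨(b (a (b (a (b (a (b (a (a (c (l 50633522999) (l 58686587063)) (b (b (l 16719344) (l 33453656343)) (l 3))) (c (b (l 16719464) (a (l 32916785751) (l 24326849383))) (b (l 16719544) (a (l 33990523431) (l 24326850087))))) (l 3)) (a (b (c (l 16720784) (l 16720808)) (b (a (l 54391616535) (l 44191068343)) (l 3))) (b (l 16713568) (b (l 16715504) (a (l 50096649255) (l 16717608)))))) (a (l 3) (b (a (l 3) (b (l 54391618183) (l 3))) (l 3)))) (b (a (b (l 16710552) (c (l 16718328) (l 16718304))) (l 16718232)) (a (c (b (a (l 42580456455) (l 16717176)) (l 52244132119)) (b (a (b (l 41506715095) (l 49559780343)) (l 39359230887)) (l 56539099991))) (a (b (l 16712592)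 (c (l 32916780263) (l 38285489815))) (b (l 16710504) (l 40969839463)))))) (a (l 3) (b (a (l 3) (b (a (l 3) (l 46338546791)) (l 3))) (l 3)))) (a (b (b (l 16712088) (a (c (l 16708656) (l 16719040)) (l 16704448))) (a (b (b (c (l 31843036759) (l 37211746231)) (a (l 3) (l 46338549159))) (l 3)) (b (b (l 16708256) (c (l 16710680) (l 16716120))) (b (c (l 36674876087) (l 44191069479)) (l 3))))) (a (b (l 16718848) (b (l 16710520) (b (l 38822349927) (l 44191058055)))) (b (l 16714752) (b (l 16701016) (b (l 16704832) (l 16707464))))))) (a (l 3) (b (a (l 3) (b (a (l 3) (c (l 32916778631) (l 40969844503))) (l 3))) (l 3)))), by decide +kernel⟩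

def k3_pp_012_a : ∃ t, chk3 f_pp_012_a t 27 4 1 = true :=
  ⟨(a (b (b (a (b (l 16685472) (l 16689960)) (l 16679880)) (a (b (l 16694696) (a (l 16701824) (l 16697552))) (b (l 16686520) (l 16691288)))) (b (b (a (a (b (l 16705752) (l 16708432)) (l 16702728)) (a (l 16698432) (l 16694232))) (a (a (c (l 24863710887) (l 30769298039)) (c (l 16707688) (l 16708208))) (a (l 36674854439) (l 16699448)))) (b (a (l 3) (a (b (l 16707856) (l 3)) (b (l 16703520) (l 16706336)))) (l 3)))) (b (b (a (l 16672392) (l 16665224)) (a (l 16701976) (l 16673472))) (b (a (b (l 16688120) (a (l 16695264) (l 16691184))) (b (l 16680320) (l 16716712))) (a (b (a (b (l 16699272) (l 16702056)) (l 16696504)) (a (b (l 16704920) (l 16707856)) (b (l 16700696) (l 16703584)))) (c (b (l 16710912) (c (l 16715872) (l 16695736))) (b (l 16690584) (l 16706640))))))), by decide +kernel⟩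

def k4_pp_012_a : ∃ t, chk3 f_pp_012_a t 13 5 1 = true :=
  ⟨(a (l 3) (b (a (l 3) (b (a (b (a (l 3) (b (l 16706568) (l 3))) (l 3)) (a (b (c (l 19494980327) (l 16704096)) (l 3)) (b (b (l 16698272) (l 16695984)) (b (a (l 16705320) (l 16703240)) (l 3))))) (l 3))) (l 3))), by decide +kernel⟩

def k5_pp_012_a : ∃ t, chk3 f_pp_012_a t 6 3 1 = true :=
  ⟨(l 3), by decide +kernel⟩

def k6_pp_012_a : ∃ t, chk3 f_pp_012_a t 28 4 1 = true :=
  ⟨(a (b (b (l 16675960) (a (l 16666296) (l 16659488))) (a (b (l 16675296) (b (l 16680120) (c (l 16687448) (l 16688384)))) (b (l 16668168) (b (l 16675408) (l 16685920))))) (b (b (l 16641640) (l 16670312)) (a (b (l 16661424) (l 16692008)) (b (l 16654640) (l 16664160))))), by decide +kernel⟩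

def k7_pp_012_a : ∃ t, chk3 f_pp_012_a t 28 10 1 = true :=
  ⟨(a (b (a (a (c (b (c (l 16694440) (l 16695448)) (b (l 16696752) (c (l 12515648311) (l 16702992)))) (b (l 16696032) (b (l 16700520) (l 16703664)))) (b (c (l 16691080) (l 16692192)) (c (b (l 16695408) (c (l 16697816) (l 16698984))) (l 16698176)))) (a (c (b (l 16687240) (c (l 16692376) (l 16709320))) (b (l 16688464) (l 16694392))) (b (l 16684408) (c (l 16699736) (l 16690704))))) (a (b (c (b (a (l 16703296) (c (a (l 16702192) (l 16700168)) (l 16702280))) (a (l 3) (c (a (l 3) (l 16702328)) (l 16705712)))) (a (l 16708712) (b (l 16702912) (l 16706272)))) (l 3)) (b (b (c (a (c (l 16697208) (l 16698352)) (l 16694008)) (a (l 16699056) (l 16695328))) (c (a (c (c (l 31306131735) (a (l 16701920) (l 16699944))) (l 32916747143)) (c (l 16701952) (l 16695216))) (a (l 16702288) (l 16698528)))) (a (b (c (c (a (l 16702696) (c (l 16702776) (l 16703408))) (l 16705144)) (l 16705680)) (l 3)) (c (c (b (a (a (l 37748589703) (l 16700632)) (l 16699176)) (a (c (l 16704368) (l 16704984))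 (a (l 11441916839) (l 16704648)))) (b (a (l 16702152) (l 16700240)) (a (l 16705672) (l 16703680)))) (b (l 16701800) (l 17347499479))))))) (b (a (b (l 16700024) (c (l 16699584) (a (l 16687128) (l 16683656)))) (b (l 16672056) (l 16698728))) (a (c (b (c (l 16702800) (l 16695880)) (a (a (b (l 16703120) (c (l 16704680) (l 16701768))) (c (l 16705064) (l 16698200))) (b (l 16703744) (l 16705824)))) (a (b (l 16693296) (b (l 16698120) (l 16701432))) (b (l 16689760) (c (l 16711792) (l 16696184))))) (a (b (l 16701504) (c (l 16701856) (l 16692696))) (b (l 16682160) (l 16709696)))))), by decide +kernel⟩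

def k8_pp_012_a : ∃ t, chk3 f_pp_012_a t 28 11 1 = true :=
  ⟨(a (b (a (l 3) (a (l 3) (b (b (a (l 3) (a (l 3) (c (c (l 16703224) (l 16706792)) (l 16707288)))) (l 3)) (l 3)))) (l 3)) (b (a (a (b (c (a (b (c (b (l 7146951751) (c (l 16704944) (l 16702912))) (l 16705296)) (l 3)) (b (c (c (l 16707424) (l 16702680)) (l 16702056)) (c (b (c (l 16706200) (l 16705400)) (l 16707032)) (l 16707000)))) (b (a (l 16705808) (l 16703904)) (l 16708488))) (l 3)) (b (c (c (b (l 16707544) (b (l 16708552) (a (c (l 16707480) (l 16705312)) (l 16708456)))) (b (l 16700584) (a (l 31843009751) (l 16703184)))) (b (l 16701184) (l 40969814023))) (b (c (c (a (c (l 16705800) (l 16708216)) (c (b (l 16710104) (l 16706768)) (l 16706232))) (a (l 16708816) (l 16706840))) (l 16708280)) (l 3)))) (c (a (a (b (c (l 16709232) (l 16699616)) (b (c (c (l 16709200) (l 16704344)) (l 16704952)) (b (c (a (l 16707440) (l 16709752)) (l 16707744)) (l 3)))) (b (l 16707824) (b (l 16710584) (c (b (l 16710328) (l 16709600)) (l 16706816))))) (b (l 16705096) (c (c (l 16711760)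 (l 16712096)) (l 16712760)))) (b (a (c (l 16698080) (l 16699336)) (l 16695912)) (a (c (b (l 16704488) (l 40969825511)) (b (l 16704488) (l 16708120))) (c (l 16702752) (l 16702776)))))) (a (l 3) (b (a (a (l 3) (b (c (c (l 16707352) (l 16710704)) (l 16711064)) (l 3))) (c (b (c (b (l 16711336) (l 11441930983)) (l 16707848)) (c (c (l 59223423127) (l 16711232)) (l 16711784))) (b (a (l 16709136) (l 16707312)) (l 16709496)))) (l 3))))), by decide +kernel⟩

def k9_pp_012_a : ∃ t, chk3 f_pp_012_a t 29 2 1 = true :=
  ⟨(a (b (b (a (l 16635320) (l 16649432)) (b (l 16654528) (a (l 16657240) (l 16655240)))) (a (b (b (l 16709384) (b (l 16697656) (l 16709392))) (a (b (b (l 16712832) (c (l 16708600) (l 16699408))) (b (c (b (l 16714176) (b (l 16717032) (l 16718984))) (l 16709192)) (b (c (c (l 16711176) (l 16711944)) (l 16712272)) (l 3)))) (b (b (l 16709080) (l 16716208)) (b (c (l 16712344) (l 16703168)) (b (l 16721592) (c (l 16711656) (l 16712536))))))) (b (b (l 16702480) (a (l 16695368) (l 16691640))) (b (b (l 16703424) (l 16710488)) (b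 (c (l 16696216) (l 16697944)) (c (l 16724888) (l 16705528))))))) (a (b (b (l 16642560) (b (l 16633288) (l 16642656))) (b (b (c (l 16674152) (l 16653688)) (c (l 16664768) (l 16665784))) (b (c (l 16698888) (l 16679176)) (c (l 16701640) (l 16714768))))) (b (b (l 16635672) (b (l 16626112) (l 16635296))) (b (b (b (l 16642944) (l 16648392)) (a (l 16659384) (l 16666104))) (b (c (l 16670416) (l 16671264)) (c (l 16705784) (l 16685760))))))), by decide +kernel⟩

def k10_pp_012_a : ∃ t, chk3 f_pp_012_a t 15 2 1 = true :=
  ⟨(b (a (b (a (b (l 16601016) (l 16607608)) (b (l 16587320) (l 16593592))) (a (b (a (l 16618936) (l 16611760)) (a (l 16627928) (l 16620568))) (b (l 16621976) (a (l 16613224) (l 16605896))))) (b (a (b (l 16573632) (l 16579616)) (b (l 16560048) (l 16565760))) (a (b (l 16586728) (l 16636936)) (b (l 16572592) (l 16601560))))) (a (b (a (a (b (l 16638128) (b (l 16646696) (l 16652968))) (b (l 16630584) (l 16652600))) (b (c (l 16641160) (l 16639928)) (c (l 16652208) (l 16651544)))) (a (b (a (c (l 16662856) (l 16684288))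 (b (l 16651696) (l 16658496))) (c (a (l 16698088) (l 16669400)) (a (l 16677704) (l 16690648)))) (b (a (b (l 16643936) (l 16650696)) (l 16639592)) (a (c (l 16682680) (l 16682656)) (b (l 16649992) (l 16657384)))))) (b (a (b (c (l 16626680) (l 16603736)) (a (l 16619312) (l 16611816))) (b (a (l 16593464) (l 16586176)) (a (l 16604360) (l 16596944)))) (a (b (a (l 16631928) (l 16624320)) (a (b (l 16642264) (l 16649608)) (l 16638232))) (b (a (l 16616752) (l 16609232)) (a (l 16630576) (l 16622944))))))), by decide +kernel⟩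

def k11_pp_012_a : ∃ t, chk3 f_pp_012_a t 14 3 1 = true :=
  ⟨(b (a (l 3) (b (a (b (a (b (b (c (l 16728352) (l 16718624)) (l 3)) (l 3)) (a (b (c (l 16724424) (l 16715000)) (l 3)) (b (l 16721152) (b (l 16716896) (l 3))))) (l 3)) (b (a (b (l 16720448) (b (l 16731848) (l 16725584))) (b (l 16707264) (l 16715472))) (a (b (a (a (l 3) (l 46875455639)) (a (l 31843066679) (l 16729056))) (l 3)) (b (b (l 16732328) (l 16736688)) (a (b (l 16732672) (l 48486081655)) (a (l 16731864) (l 16719360))))))) (a (l 3) (b (a (l 3) (b (a (l 3) (l 64592194263)) (l 3))) (l 3))))) (l 3)), by decide +kernel⟩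

def k12_pp_012_a : ∃ t, chk3 f_pp_012_a t 15 6 1 = true :=
  ⟨(a (b (a (b (a (b (l 16694064) (l 16702224)) (b (l 16680880) (l 16709976))) (a (b (l 16715984) (a (l 16737304) (l 16712296))) (b (l 16718448) (l 16716752)))) (a (b (b (l 16672968) (l 16681056)) (a (l 16706352) (l 16697128))) (b (b (l 16665096) (l 16673160)) (b (l 16681576) (l 16711288))))) (a (b (a (b (c (l 16731680) (l 16734216)) (b (c (l 64592197687) (l 16741168)) (l 50633572423))) (b (l 16736288) (l 16735216))) (a (l 3) (b (a (l 16745552) (l 16742896)) (a (l 3) (l 16745888))))) (b (a (b (l 16707288) (l 16716688)) (a (l 16705992) (l 16702016))) (a (b (l 16736872) (a (b (l 16735640) (l 16740392)) (l 16744568))) (b (l 16718376) (l 16738544)))))) (b (a (b (a (b (l 16657288) (l 16665312)) (b (l 16649536) (l 16657544))) (a (l 16685920) (b (l 16665880) (l 16674576)))) (b (b (l 16658920) (l 16666864)) (a (b (l 16658120) (l 16687720)) (b (l 16650304) (l 16658920))))) (a (b (b (l 16697936) (l 16707264)) (b (a (l 16710392) (l 16702440)) (a (l 16720048) (l 16712072))))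 (b (a (l 16680288) (a (l 16674384) (l 16675752))) (a (l 16709832) (l 16701952)))))), by decide +kernel⟩

def k13_pp_012_a : ∃ t, chk3 f_pp_012_a t 15 7 1 = true :=
  ⟨(a (b (a (l 3) (b (a (b (a (l 3) (b (l 16740888) (l 16745680))) (l 3)) (b (a (b (l 16736920) (l 16743992)) (l 16740552)) (a (b (c (b (l 51170435255) (l 16749984)) (l 99488814647)) (l 3)) (a (b (l 16746752) (b (l 16746304) (l 3))) (b (l 16740864) (b (l 16744192) (l 16746680))))))) (a (l 3) (b (a (l 3) (b (a (l 3) (b (l 16749320) (l 3))) (l 3))) (l 3))))) (l 3)) (b (a (b (b (a (c (l 16734952) (l 16734720)) (l 16722008)) (a (b (a (l 16748440) (l 16734096)) (a (c (l 16747840) (l 16747584)) (l 16749048))) (b (l 16728288) (l 16732696)))) (a (b (a (b (a (b (l 16747112) (l 16751024)) (l 16748968)) (a (l 3) (b (l 16752096) (c (l 16752864) (l 16752784))))) (b (c (l 16754000) (l 16753792)) (b (l 16752320) (a (l 16753200) (l 16748560))))) (a (l 3) (b (a (b (c (l 16755888) (l 16755816)) (l 3)) (b (l 16756296) (c (l 16756320) (l 16756248)))) (a (l 3) (a (l 3) (c (l 97341358039)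 (l 16757224))))))) (b (a (b (l 16739472) (l 16749600)) (l 16737984)) (a (b (a (c (l 16755616) (l 16755512)) (l 16753560)) (b (a (c (l 16756768) (l 16756712)) (l 16752056)) (a (a (l 3) (l 16757176)) (l 6)))) (b (l 16745312) (l 6)))))) (b (a (b (l 16714104) (l 16722704)) (a (l 16723304) (l 16719432))) (a (b (l 16739864) (b (l 16744488) (l 6))) (b (l 16729184) (l 6))))) (a (a (l 3) (b (l 6) (l 3))) (l 6)))), by decide +kernel⟩

theorem s14_pp_012_a : ∃ t, chk3 f_pp_012_a t 15 3 1 = true := ex3_b k12_pp_012_a k13_pp_012_a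

theorem s15_pp_012_a : ∃ t, chk3 f_pp_012_a t 7 3 1 = true := ex3_a k11_pp_012_a s14_pp_012_a

theorem s16_pp_012_a : ∃ t, chk3 f_pp_012_a t 28 5 1 = true := ex3_b k7_pp_012_a k8_pp_012_a

theorem s17_pp_012_a : ∃ t, chk3 f_pp_012_a t 28 2 1 = true := ex3_b k6_pp_012_a s16_pp_012_a

theorem s18_pp_012_a : ∃ t, chk3 f_pp_012_a t 14 2 1 = true := ex3_a s17_pp_012_a k9_pp_012_a

theorem s19_pp_012_a : ∃ t, chk3 f_pp_012_a t 7 2 1 = true := ex3_a s18_pp_012_a k10_pp_012_a

theorem s20_pp_012_a : ∃ t, chk3 f_pp_012_a t 7 1 1 = true := ex3_b s19_pp_012_a s15_pp_012_a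

theorem s21_pp_012_a : ∃ t, chk3 f_pp_012_a t 13 4 1 = true := ex3_a k2_pp_012_a k3_pp_012_a

theorem s22_pp_012_a : ∃ t, chk3 f_pp_012_a t 13 2 1 = true := ex3_b s21_pp_012_a k4_pp_012_a

theorem s23_pp_012_a : ∃ t, chk3 f_pp_012_a t 6 2 1 = true := ex3_a k1_pp_012_a s22_pp_012_a

theorem s24_pp_012_a : ∃ t, chk3 f_pp_012_a t 6 1 1 = true := ex3_b s23_pp_012_a k5_pp_012_a

theorem s25_pp_012_a : ∃ t, chk3 f_pp_012_a t 3 1 1 = true := ex3_a s24_pp_012_a s20_pp_012_a

theorem s26_pp_012_a : ∃ t, chk3 f_pp_012_a t 1 1 1 = true := ex3_a k0_pp_012_a s25_pp_012_a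

theorem c_pp_012_a : CertB 0 536870912 0 536870912 649613803 48318383 3 eng mog cd0q0 cd3q2a pd1 false true true .pnp 0 1 2
    ndB0q0 ndB3q2a pcB1 cut_pp_012_a Ext.none :=
  certB2 (fam := false) (s1 := true) (s2 := true) (a := 0) (b := 1) (c := 2) (cn := .pnp) (n1 := ndB0q0) (n2 := ndB3q2a) (pc := pcB1) (cut := cut_pp_012_a) (xt := Ext.none) (P1 := 0) (W1 := 536870912) (P2 := 0) (W2 := 536870912) (P3 := 649613803) (W3 := 48318383) (N0 := 3) (En := eng) (mo := mog) (C1 := cd0q0) (C2 := cd3q2a) (C3 := pd1)
    rfl (fun _ => rfl) s26_pp_012_a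

end Pool.Agent.Strip051.G.I6050_6500.Tab.C.BB03

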