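import Pool.Agent.Strip051.G.I6050_6500.Tab
import Pool.Agent.Strip051.PB.ExtD2

/-! # Certificates B8 (generated) -/

set_option linter.all false
set_option maxRecDepth 100000

namespace Pool.Agent.Strip051.G.I6050_6500.Tab.C.BA04

open Pool.Agent.Strip051.PB Pool.Agent.Strip051.PB.T
open Pool.Agent.Strip051.G.I6050_6500.Tab

noncomputable def cut_pm_123_a : Cut := Cut.of [[⟨0, 1, 0, 67108864⟩, ⟨1, 1, 0, 67108864⟩, ⟨2, 2, 0, 16777216⟩], [⟨0, 0, 1, 20971520⟩, ⟨1, 1, 0, 33554432⟩, ⟨2, 1, 1, 20971520⟩]]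

noncomputable def xt_pm_123_a : Ext := extD2 3 ⟨7, 3, 3, 10, 377, 200, 77, 100, 17, 50, 3, 16⟩ eng cd0q1 cd4q2a pd3 true true false .npn 1 2 3 rfl ndB0q1 ndB4q2a pcB3

noncomputable def f_pm_123_a : ℕ → ℕ → ℕ → ℕ → Bool := onCell 536870912 536870912 0 536870912 649613803 48318383
    (rowB 3 eng mog cd0q1 cd4q2a pd3 0 true true false .npn 1 2 3 (qsf 536870912 536870912 0 536870912 3) ndB0q1 ndB4q2a pcB3 cut_pm_123_a xt_pm_123_a)

def k0_pm_123_a : ∃ t, chk3 f_pm_123_a t 2 2 1 = true :=
  ⟨(a (a (b (a (b (a (l 16539144) (l 16555384)) (a (l 16529328) (l 16539832))) (l 16593488)) (a (b (a (l 16523032) (b (l 16529248) (l 16526392))) (a (b (l 16513432) (l 16504152)) (b (l 16528000) (l 16524264)))) (b (a (b (l 16554336) (l 16543632)) (l 16580376)) (a (b (l 16535912) (l 16532768)) (b (l 16564112) (l 16552152)))))) (b (a (l 16646952) (l 16689296)) (b (l 16647184) (l 16631560)))) (a (b (a (l 16719800) (l 16736760)) (a (b (l 16704656) (l 16694344)) (b (l 16726736) (l 16721448)))) (b (a (l 16736584)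 (a (l 16730536) (l 16728160))) (a (b (l 16731848) (l 16734120)) (b (l 16723984) (l 16665816)))))), by decide +kernel⟩

def k1_pm_123_a : ∃ t, chk3 f_pm_123_a t 4 6 1 = true :=
  ⟨(a (b (a (l 16500512) (b (a (l 16533648) (l 16544936)) (a (l 16527408) (l 16604584)))) (a (a (l 16476192) (l 16491616)) (b (a (l 16516656) (l 16539480)) (l 16516992)))) (b (a (b (l 16587784) (a (l 16560880) (l 16590976))) (l 16639728)) (a (b (a (b (l 16556352) (l 16556736)) (l 16578480)) (a (l 16552672) (c (l 16591152) (l 16553616)))) (b (l 16624864) (a (b (l 16599736) (l 16593272)) (l 16628008)))))), by decide +kernel⟩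

def k2_pm_123_a : ∃ t, chk3 f_pm_123_a t 8 7 1 = true :=
  ⟨(b (a (b (l 16470128) (l 16459256)) (b (l 16506240) (l 16496464))) (b (a (a (l 16441808) (l 16456480)) (b (l 16487744) (c (l 16499240) (l 16463256)))) (b (a (a (l 140803698870026255) (l 141108882093555727)) (a (l 141260477293723663) (c (l 141401077423685647) (l 141106408228552719)))) (a (a (c (b (l 140875029706358799) (b (l 141038032301965327) (a (c (l 140871112697364495) (l 140765765714280463)) (c (b (l 140931998167646223) (l 141016454403473423)) (l 140819366917701647))))) (b (l 140649148732620815) (b (l 140628258008072207) (a (l 140591218203394063) (l 140818885838864399))))) (c (b (l 141005390583578639) (a (b (l 140950758587613199) (c (a (l 140977490471960591) (l 141012056376901647)) (l 140879702631628815))) (b (l 141021951982043151) (b (l 141011781497470991) (c (a (l 141045454050607119) (l 141083730808291343)) (l 140943749198544911)))))) (b (l 140759924551532559) (a (a (l 140685776221601807) (l 140714226090770447)) (c (l 140826719899926543)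 (l 140691548656582671)))))) (b (a (c (l 141163995173322767) (l 140894683474411535)) (c (l 141348163415572495) (l 141051020319227919))) (b (a (c (a (l 141099948606521359) (l 141183923827179535)) (l 140869394702123023)) (c (a (l 141274289960992783) (l 141371528044396559)) (l 141203508832616463))) (a (c (b (a (l 141088953488031759) (l 141352355262267407)) (a (c (c (a (l 141153755972698127) (l 141196018461179919)) (l 141113211470118927)) (c (l 141049852095987727) (l 140984706015281167))) (c (a (c (l 141239861498101775) (l 141175883648008207)) (b (l 141254636188319759) (c (l 141373520891183119) (l 141217665100087311)))) (c (l 141131009817247759) (l 141062702639480847))))) (a (c (l 140887467930943503) (l 140746386810568719)) (c (l 140961135226552335) (l 140814350387527695)))) (c (a (c (b (l 141331052265046031) (a (c (a (l 141320606903238671) (l 141344658726060047)) (l 141265081550536719)) (c (a (l 141369191585366031) (l 141439148018909199)) (l 141312154403684367)))) (a (l 141164819806846991)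 (l 141299441272471567))) (c (b (l 141431314006523919) (b (l 141514808169365519) (c (a (a (l 141417363950698511) (l 141488282457161743)) (c (a (l 141487526554566671) (l 141514533315739663)) (l 141464642962030607))) (a (l 141358883659481103) (l 141409461206908943))))) (b (l 141283704530124815) (a (l 141251131490582543) (l 141298822819037199))))) (a (c (l 141040437520891919) (l 140887467926781967)) (c (b (l 141130253897809935) (l 141121045486075919)) (l 140966014306287631))))))))))), by decide +kernel⟩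

def k3_pm_123_a : ∃ t, chk3 f_pm_123_a t 18 7 1 = true :=
  ⟨(b (b (a (l 16541576) (a (l 16562328) (l 16575120))) (l 16541792)) (b (b (l 16532032) (a (l 16514600) (l 16539056))) (a (c (b (l 141609572367826959) (b (l 141829543402340367) (b (a (l 141475912955379727) (l 141587925730410511)) (a (a (b (l 141435093576630287) (c (c (c (a (l 141544357576097807) (l 141572395129716751)) (l 141520924227551247)) (l 141464161923940367)) (l 141438392088379407))) (b (l 141488763501297679) (c (c (c (a (l 141600982439280655) (l 141630050785329167)) (l 141576930615230479)) (l 141518587763130383)) (l 141489656830607375)))) (c (b (l 141654583642603535) (a (c (c (a (l 141659600167862287) (l 141689699306340367)) (l 141634998587768847)) (l 141619949005471759)) (c (c (a (l 141720348200796175) (l 141751546851196943)) (l 141695128145182735)) (l 141633280598687759)))) (a (a (l 141444095828344847) (l 141471171308879887)) (a (l 141498727825883151) (l 141526834098847759)))))))) (b (l 141286522019364879) (b (l 141230515634372623)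 (c (a (a (l 141203165279731727) (l 141250856607957007)) (c (l 141458458176684047) (l 141282467573710863))) (a (l 141060366169128975) (l 141331395806527503)))))) (b (b (l 16534256) (l 141637747356188687)) (b (a (c (l 141726326790389775) (l 141376338399166479)) (l 141660149912305679)) (b (a (c (a (l 141676092841246735) (l 141732374106800143)) (a (l 141324523902091279) (l 141373452181536783))) (c (l 141818548351500303) (l 141447737954271247))) (a (c (a (b (l 141661455589638159) (b (l 141833735316160527) (c (c (a (l 141759861909520399) (l 141791816474378255)) (l 141691142412861455)) (l 141652109714030607)))) (b (l 141901286578274319) (c (b (l 141802949030526991) (a (a (a (a (l 141767214894170127) (l 141771269344313359)) (l 141777728976650255)) (l 141880739475357711)) (b (l 141816349331783695) (a (l 141896682397810703) (l 141912350442274831))))) (b (l 141625927608975375) (a (l 141606411273011215) (l 141636441691602959)))))) (a (c (l 141393655715545103) (l 141212923443544079)) (c (a (l 141433925338759183)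 (l 141459901307355151)) (l 141261233247420431)))) (c (b (l 141987804420472847) (a (b (l 141772918608510991) (c (c (a (l 141889535594053647) (l 141919840890601487)) (l 141904791296262159)) (l 141857924575232015))) (a (c (c (c (l 14) (l 141929805216137231)) (l 141861223159185423)) (l 141722203619409935)) (c (c (l 14) (l 141892009492152335)) (l 141931591872086031))))) (c (a (l 141498109345857551) (l 141551092075429903)) (l 141512609111097359)))))))))), by decide +kernel⟩

def k4_pm_123_a : ∃ t, chk3 f_pm_123_a t 19 14 1 = true :=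
  ⟨(b (a (b (l 16589632) (l 16588392)) (b (l 16618296) (l 16611560))) (a (b (l 16587512) (a (l 16575184) (l 16590808))) (b (l 16607728) (a (l 16601768) (l 16610368))))), by decide +kernel⟩

def k5_pm_123_a : ∃ t, chk3 f_pm_123_a t 19 15 1 = true :=
  ⟨(b (a (b (l 16575576) (l 16567904)) (b (c (l 16621552) (l 142179669261680655)) (a (l 16593256) (b (l 16608536) (l 16605992))))) (b (c (a (l 142079476263813135) (l 142381086107058191)) (a (l 141707497635233807) (l 141989247555289103))) (b (a (a (l 141778553599115279) (l 141908983196811279)) (a (l 142051644863823887) (l 142209287379845135))) (a (b (a (c (l 141943549109551119) (l 141556383473451023)) (c (l 142080850656460815) (l 141676711306051599))) (a (c (b (l 142112186703167503) (c (a (b (l 141988422942818319) (c (l 14) (b (l 141938601308585999) (a (l 141920734240423951) (l 142043054916714511))))) (l 14)) (b (l 141829818345799695) (a (a (l 141779309518454799) (l 141900049646436367)) (c (a (l 141890154062544911) (l 141922864541253647)) (l 141808034265137167))))))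 (b (l 141541333905047567) (c (a (l 141602288098230287) (b (l 141663242288726031) (l 141838614392389647))) (a (l 141403551319293967) (l 141457839719153679))))) (c (c (l 14) (b (l 141968356843552783) (a (b (l 141927537464983567) (b (l 142104490159898639) (a (c (l 142045391376023567) (l 141855244556943375)) (c (l 14) (l 141888367352610831))))) (c (l 14) (c (l 14) (a (l 141900049665523727) (l 141934546850988047))))))) (b (l 141840882132828175) (c (a (a (l 141706741728018447) (a (l 141730312514174991) (l 141746255436578831))) (a (l 141883213359497231) (a (l 141795321154633743) (l 141992271178924047)))) (a (l 141515014337642511) (l 141575212613697551))))))) (c (c (a (l 14) (b (l 142480935533461647) (a (l 14) (b (l 142506980220747919) (a (l 14) (c (c (l 142591642634338447) (l 14)) (l 14))))))) (l 14)) (b (a (l 141809408646987791) (l 141955231410634767)) (b (a (l 141972617400926223) (a (l 141899843500212239) (l 141975778539651087))) (a (a (b (l 141749966286618639) (c (c (a (l 141888229910609935)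 (l 141923483010465807)) (l 141798550969597967)) (l 141635548328771599))) (a (c (c (a (l 141953032392294415) (l 14)) (l 141853320405352463)) (l 141687981301825551)) (c (c (l 14) (l 141889191980613647)) (l 141722066170314767)))) (c (a (c (l 14) (c (l 14) (a (l 141897850636042255) (l 141935096601116687)))) (l 14)) (b (l 141994195319619599) (a (a (l 141753883295629327) (l 141969662460936207)) (c (a (l 141883969296678927) (l 141921971176161295)) (l 141786250175643663))))))))))))), by decide +kernel⟩

def k6_pm_123_a : ∃ t, chk3 f_pm_123_a t 5 6 1 = true :=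
  ⟨(a (b (a (l 16685072) (l 16715760)) (a (l 16672792) (l 16711080))) (b (a (l 16733096) (b (l 16737392) (l 16741232))) (a (l 16733136) (c (l 16738472) (l 16753648))))), by decide +kernel⟩

def k7_pm_123_a : ∃ t, chk3 f_pm_123_a t 10 14 1 = true :=
  ⟨(a (b (l 16659760) (b (l 16651344) (a (a (l 16622112) (l 16637112)) (l 16659736)))) (b (l 16705304) (c (l 16703752) (l 16674728)))), by decide +kernel⟩

def k8_pm_123_a : ∃ t, chk3 f_pm_123_a t 40 15 1 = true :=
  ⟨(a (b (b (l 16619688) (b (l 16619720) (l 142479217528291343))) (b (b (a (l 16613480) (l 142301096604286991)) (l 142403557375344655)) (b (l 142364455988461583) (c (b (l 142348719265300495) (c (b (l 142253748967817359) (a (b (l 142573706844897423) (c (a (l 142601263340568719) (l 142636447740297359)) (l 14))) (b (l 142643869442965647) (a (c (l 142671151082143887) (a (l 142566285138690191) (l 142583946047307919))) (c (l 142705442107064463) (l 142610196870561935)))))) (l 14))) (c (l 14) (c (l 14) (b (l 141939494642810895) (b (l 141918397759406095)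 (a (a (l 141845761256226831) (l 141974541564592143)) (a (a (l 141914068431912975) (l 141934134523740175)) (l 14))))))))))) (b (b (l 16610208) (a (l 16605808) (l 142455028255375375))) (b (a (b (l 142368372983889935) (l 142401770645766159)) (b (l 16609960) (l 142402389133082639))) (b (a (l 142294843178123279) (b (l 142376344448466959) (l 142537079345135631))) (c (b (l 142308587115561103) (b (a (l 142443277282869391) (l 142691766922739855)) (b (a (c (l 142712314053820559) (l 142522785696972943)) (l 142326041824100495)) (c (a (c (l 142756157089775759) (a (l 142644762794901647) (l 142678985100312719))) (a (l 142759455623430287) (l 142792509697523855))) (c (a (a (l 14) (a (l 142575424827326607) (l 142592810857988239))) (a (l 142618649364283535) (l 142652734252204175))) (l 14)))))) (l 14)))))), by decide +kernel⟩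

def k9_pm_123_a : ∃ t, chk3 f_pm_123_a t 41 30 1 = true :=
  ⟨(b (a (l 16624712) (l 16660496)) (b (a (l 142565460516175887) (l 16655320)) (c (a (l 16657096) (l 16668512)) (l 16586408)))), by decide +kernel⟩

def k10_pm_123_a : ∃ t, chk3 f_pm_123_a t 82 31 1 = true :=
  ⟨(b (b (c (l 16656336) (l 16599312)) (c (l 142848103754973327) (l 142319169869266959))) (b (a (b (l 142443758266990607) (a (l 142409535962660879) (l 142263369598664719))) (b (l 142326041771261967) (a (l 142385965150846991) (l 142327347442663439)))) (a (b (l 142317726742511631) (c (b (l 142758424826871951) (c (a (l 142826732002771087) (l 142858961442996367)) (b (l 142660636991471759) (a (c (l 142686475521163407) (a (l 142584220918644879) (l 142601332071350415))) (c (l 142719735753736335) (l 142626758271451279)))))) (b (l 142205851437023247) (l 14)))) (c (b (c (l 142922389529690255) (a (l 142729219040018575) (l 142761517199736975))) (b (a (l 142807421822369935) (c (l 142928574284513423) (b (l 142751690313531535) (l 142747635863961743))))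 (c (b (l 142908164596793487) (l 142905003500601487)) (b (l 142727157456584847) (c (l 142768938907664527) (a (l 142660362112188559) (l 142693553625251983))))))) (c (b (l 142384590786379919) (c (b (a (l 142579135672729743) (b (l 142615488282165391) (l 142610677918204047))) (b (l 142588893840539791) (c (a (l 142590543109292175) (l 142624215658774671)) (l 14)))) (l 14))) (l 14)))))), by decide +kernel⟩

def k11_pm_123_a : ∃ t, chk3 f_pm_123_a t 83 31 1 = true :=
  ⟨(b (c (b (l 142990490533707919) (b (l 142971111639302287) (l 142960597558608015))) (b (l 16610288) (l 142436130395848719))) (b (a (b (l 142386583726686223) (l 142463824331538447)) (b (l 142445613767442575) (l 142434343686553743))) (a (b (c (c (l 142983618594160783) (l 142808521330032783)) (l 142359027133726735)) (c (c (a (b (l 142959429334974607) (b (l 142954825129640079) (c (l 142996056824987791) (a (l 142899299781247119) (l 142914830385709199))))) (b (l 142989803348983951) (c (l 143027736509153423) (l 142939638120988815)))) (a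 (b (l 142781789449732239) (a (b (l 142767839393923215) (b (l 142764815736619151) (l 142762754152104079))) (b (l 142783851034804367) (c (a (l 142821165719109775) (l 142829068460310671)) (b (l 142735472513319055) (a (a (l 142727226174816399) (l 142731280624648335)) (l 142737396659142799))))))) (b (l 142813262975565967) (b (l 142807627977900175) (c (l 142848790953574543) (a (l 142750522081427599) (l 142766602441785487))))))) (c (c (b (a (l 142646068454785167) (l 142678435333980303)) (a (b (a (l 142630950167658639) (l 142647442844958863)) (a (b (l 142627308034949263) (l 142624902852984975)) (a (b (l 142639814981894287) (b (l 142638028275286159) (c (l 142659881073541263) (l 142613701575590031)))) (a (c (l 142667783814643855) (c (l 142633286630162575) (l 14))) (l 142648954673971343))))) (b (l 142671906982953103) (c (l 142690323806945423) (a (l 142636241567809679) (l 142652665525616783)))))) (c (b (l 142593910360621199) (a (l 14) (b (l 142603256211488911) (a (l 14) (l 142606692180820111))))) (l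 14))) (l 14)))) (b (c (c (l 143043129671401615) (l 142869819113947279)) (l 142242753747222671)) (b (c (c (l 143034677175124111) (l 142859854788919439)) (a (l 142304120257249423) (l 142246395902427279))) (c (c (c (l 143072404176797839) (b (l 142986779690107023) (l 142983687313391759))) (a (c (l 142881707588550799) (c (l 142814843523530895) (l 142769900976308367))) (c (l 142912493919486095) (b (l 142825632482312335) (l 142821921630208143))))) (c (a (b (l 142658850278588559) (c (c (l 142722690686140559) (b (l 142678297894830223) (l 142676030151852175))) (c (a (l 142623253582954639) (l 142639608821285007)) (l 14)))) (b (l 142691010999320719) (a (c (l 142724065075150991) (c (l 142655964059598991) (l 142610265587417231))) (c (l 142740007996539023) (c (l 142672181858943119) (l 142626620836479119)))))) (l 14)))))))), by decide +kernel⟩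

def k12_pm_123_a : ∃ t, chk3 f_pm_123_a t 42 30 1 = true :=
  ⟨(b (l 16680896) (a (l 16668216) (l 16681808))), by decide +kernel⟩

def k13_pm_123_a : ∃ t, chk3 f_pm_123_a t 42 62 1 = true :=
  ⟨(a (b (l 142975784557936783) (a (b (l 142896413548773519) (l 142516532278722703)) (l 142966713586958479))) (c (l 143236437586477135) (l 142984443210924175))), by decide +kernel⟩

def k14_pm_123_a : ∃ t, chk3 f_pm_123_a t 42 126 1 = true :=
  ⟨(a (c (c (b (l 143151019266637967) (l 143140092868935823)) (b (l 142983618585182351) (l 142970355724845199))) (a (b (l 142687300140318863) (l 142677335815700623)) (b (l 142759936640319631) (c (l 142826388389642383) (l 142650054175932559))))) (a (b (l 143010762780934223) (c (l 143146552497586255) (b (l 142829137166925967) (l 142811819855954063)))) (c (l 143220975703949391) (l 142934827741773967)))), by decide +kernel⟩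

def k15_pm_123_a : ∃ t, chk3 f_pm_123_a t 42 127 2 = true :=
  ⟨(a (c (b (a (l 143101128919875727) (l 143157616339599503)) (c (a (l 143133220924014735) (l 143189777063215247)) (b (l 143079344840982671) (a (l 143044710219219087) (l 143102572028706959))))) (a (b (l 142929536349634703) (b (l 142920534097445007) (a (c (l 142942799214018703) (b (l 142856487532757135) (l 142852982839099535))) (c (l 142972760911085711) (l 142885349718147215))))) (b (l 142987741756571791) (b (l 142979632857743503) (a (c (l 143002379010703503) (l 142915517573693583)) (c (l 143031516073934991) (l 142945341831790735))))))) (a (b (c (l 143214035039879247) (l 143048421065228431)) (c (b (l 143205788701966415) (c (l 143242416191815887) (l 143158990728921231))) (b (l 143037494667231375) (b (l 143033440217792655) (a (l 143016329043918991) (l 143045122531164303)))))) (b (l 143196030530682959) (a (c (b (l 143247845029134543) (l 143242072592548047)) (b (l 143084361358672015) (c (l 143117759032279183) (b (l 143035364361912463)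 (l 143031653509759119))))) (b (l 143199672664277071) (c (l 143270934777872591) (a (l 143100991475515535) (l 143119614457118863)))))))), by decide +kernel⟩

def k16_pm_123_a : ∃ t, chk3 f_pm_123_a t 84 127 3 = true :=
  ⟨(a (b (l 142305013603942543) (b (a (l 142278419184156815) (l 142310030138212495)) (b (a (a (l 142354285488439439) (l 142370365846126735)) (a (l 142386377484304527) (l 142312229168316559))) (c (c (a (a (l 142755882198433935) (l 142771687680835727)) (b (l 142796083099254927) (l 142794227673202831))) (a (c (l 142696302399488143) (a (l 142642907355316367) (l 142659056435167375))) (c (l 142728119522754703) (b (l 142684139048485007) (l 142682146183446671))))) (c (c (a (a (l 14) (l 142613632851722383)) (a (l 142629850651066511) (l 142645999730917519))) (l 14)) (l 14)))))) (a (b (l 142350643430326415) (b (l 142341228775342223) (c (b (l 142785294137819279) (c (l 142826044796420239) (a (l 142729425192321167) (l 142745093235753103)))) (c (b (l 142651359850070159) (a (c (l 142662080091275407)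 (l 142616862666342543)) (c (l 142678023012647055) (l 142633011746193551)))) (l 14))))) (b (l 142380605127377039) (b (l 142372015106277519) (c (b (l 142815943029784719) (c (l 142856624968892559) (a (l 142760692559691919) (l 142776223164137615)))) (a (b (l 142630194246205583) (c (a (l 142667508919451791) (l 142675411671400591)) (l 14))) (b (l 142645999728607375) (b (l 142643388388245647) (c (l 142686406778929295) (c (l 142619061688746127) (l 14))))))))))), by decide +kernel⟩

def k17_pm_123_a : ∃ t, chk3 f_pm_123_a t 85 127 3 = true :=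
  ⟨(a (b (b (l 142437367425040527) (l 142426166062891151)) (a (b (l 142402457839763599) (c (c (l 142888235933565071) (c (l 142822814978064527) (l 142778834503843983))) (b (l 142669570513223823) (c (c (l 142733067323113615) (b (l 142689430446358671) (l 142687712459292815))) (c (a (l 142635966682890383) (l 142651840884785295)) (l 14)))))) (b (c (l 142880401909760143) (b (l 142706747756019855) (l 142703380501364879))) (b (c (l 142876003862921359) (l 142700631722115215)) (c (c (l 142916548363042959) (l 142829686915629199)) (a (c (l 142734166834249871) (b (l 142646068447019151) (c (l 142666821733400719) (l 142622085344985231)))) (c (l 142749628719218831) (c (l 142683245691142287) (l 142638715461173391))))))))) (b (c (l 142962590418436239) (l 142803573516304527)) (a (b (c (l 142917372994961551) (a (l 142733891954409615) (l 142759524324032655))) (b (c (l 142907889705762959) (a (l 142723858909315215) (l 142744543475581071))) (c (c (a (l 142938607318925455) (l 142954000484417679)) (a (l 142852226918662287)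 (b (l 142868994473869455) (l 142866726730858639)))) (c (a (l 142764953165201551) (b (l 142782270476320911) (a (l 142775673405522063) (l 142783713585709199)))) (a (c (l 142698845015064719) (l 142654452224098447)) (b (l 142694584406114447) (a (l 142687712457326735) (b (l 142696439832379535) (l 142695202881650831))))))))) (a (b (l 142868994472525967) (b (l 142855388013904015) (a (c (l 142925481895215247) (c (l 142797113886097551) (c (l 142732173967294607) (l 142688605810196623)))) (c (l 142936820610990223) (c (l 142810033150165135) (l 142724477384130703)))))) (b (l 142713344862322831) (c (a (l 142952076337561743) (l 142963346333843599)) (b (l 142797869799571599) (a (c (l 142822952414216335) (l 142738496160039055)) (c (l 142835871678267535) (a (l 142749010241962127) (l 142756019629899919))))))))))), by decide +kernel⟩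

def k18_pm_123_a : ∃ t, chk3 f_pm_123_a t 43 15 2 = true :=
  ⟨(b (l 16708224) (b (a (l 143358758276841551) (l 16709344)) (a (b (c (l 143378205897064655) (l 143256847274541135)) (c (b (l 143361781940469967) (a (a (l 143304882204950735) (l 143335462377193679)) (c (l 143412840522760399) (l 143345701579325647)))) (b (l 143228672285098063) (a (b (l 143177476266360911) (c (l 143204895344197839) (l 143129303903617167))) (a (c (l 143261588922269903) (l 143192319674908815)) (c (l 143294849154941135) (l 143229015882154191))))))) (b (l 143433250205417679) (c (b (l 143469190501302479) (b (l 143462387272466639) (a (a (l 143418269360996559) (l 143444795083669711)) (c (l 143510903233200335) (l 143454621969580239))))) (b (l 143360957302030543) (c (a (a (l 143326941156376783) (l 143357933646053583)) (a (l 143387826623971535) (l 143416620090130639))) (c (a (l 143296979457605839) (l 143361438338924751)) (a (l 143266536722956495) (l 143334294139863247)))))))))), by decide +kernel⟩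

def k19_pm_123_a : ∃ t, chk3 f_pm_123_a t 43 30 3 = true :=
  ⟨(l 143203933290709071), by decide +kernel⟩

def k20_pm_123_a : ∃ t, chk3 f_pm_123_a t 43 62 3 = true :=
  ⟨(a (l 143162289250009231) (l 143320618955046991)), by decide +kernel⟩

def k21_pm_123_a : ∃ t, chk3 f_pm_123_a t 43 63 3 = true :=
  ⟨(b (a (c (l 143135488652656783) (l 143014130031378575)) (c (l 143290038785130575) (l 143197748508606607))) (b (a (c (l 143094806715957391) (a (l 142908851774341263) (l 143009525826699407))) (c (l 143254373371035727) (l 143149507427795087))) (a (b (c (a (l 143029660640592015) (l 143116109758234767)) (a (l 142879920869752975) (l 142982106750845071))) (a (b (c (l 143018528083574927) (l 142504849963237519)) (a (a (c (l 142976815353806991) (c (l 142855525452218511) (c (l 142794296385896591) (l 142753202130469007)))) (c (l 142999698932957327) (b (l 142844255455084687) (c (l 142879096237113487) (c (l 142819241560621199) (l 142779109378048143)))))) (c (c (l 143071029774565519) (l 142995644492841103))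 (a (c (l 142907065063899279) (c (l 142848997099536527) (a (l 142803092479852687) (l 142817111250370703)))) (b (l 142897100742541455) (c (l 142930017378812047) (c (l 142873255079411855) (a (l 142828381252075663) (l 142842262588981391))))))))) (a (c (c (l 143116247198417039) (a (l 143033989967839375) (l 143056392521433231))) (b (l 142942936641978511) (b (l 142935789815185551) (a (c (l 142954893834027151) (c (l 142899712082919567) (a (l 142856006486917263) (l 142869681662673039)))) (c (l 142979426686451855) (c (l 142925825488994447) (c (l 142898956168118415) (l 142880951661576335)))))))) (c (c (l 143156654258208911) (a (l 143078520197054607) (l 143100304275275919))) (b (l 142992964430512271) (b (l 142985955042705551) (a (c (l 143003547232698511) (c (l 142951457858683023) (a (l 142910020005871759) (l 142923282867404943)))) (c (l 143027392895631503) (c (l 142976815350399119) (a (l 142936477009445007) (l 142949533712531599))))))))))) (a (c (b (l 143197198756020303) (a (c (l 143195824367255695)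 (a (l 143121676036571279) (l 143142772919926927))) (c (l 143233688806080719) (a (l 143163526205866127) (l 143183935894372495))))) (b (l 143078382756167823) (b (l 143065188614389903) (a (b (l 143034677161001103) (a (c (l 143050826241654927) (b (l 142986573517750415) (c (l 143000523574444175) (l 142967744371998863)))) (c (l 143073847270768783) (c (l 143026293383135375) (l 142994544978444431))))) (a (c (l 143098655006589071) (c (l 143052750386741391) (l 143022170213384335))) (c (l 143120988840837263) (a (l 143055705324667023) (l 143067731235455119)))))))) (a (b (l 143200428571197519) (b (l 143189433453101135) (c (c (l 143267430075695311) (l 143210461617619087)) (c (a (l 143142910358192271) (l 143164556997591183)) (c (l 143111505550803087) (l 143083399279116431)))))) (b (l 143240560753508431) (b (l 143229909232844879) (c (c (l 143302889332555983) (l 143249356849053839)) (c (l 143196305402085519) (b (l 143145934015316111) (l 143141467237826703))))))))))), by decide +kernel⟩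

def k22_pm_123_a : ∃ t, chk3 f_pm_123_a t 11 14 1 = true :=
  ⟨(a (b (l 16734376) (b (l 16713400) (l 16712440))) (b (l 16749504) (a (l 16749712) (l 16757416)))), by decide +kernel⟩

def k23_pm_123_a : ∃ t, chk3 f_pm_123_a t 22 15 1 = true :=
  ⟨(a (c (b (l 16724064) (b (a (l 16718144) (l 16726104)) (b (a (l 143532137551446223) (l 16725072)) (b (a (c (l 143560587422367951) (l 143474962936053967)) (c (l 16727864) (l 143571582540480719))) (b (a (c (l 143555433461186767) (l 143464517574115535)) (c (l 143633155205005583) (l 143563061324185807))) (a (c (a (c (l 143555296023232783) (l 143504512319013071)) (c (l 143595909241651471) (l 143550348218892559))) (a (b (l 143431532219072719) (c (l 143452835261612239) (l 143402944910983375))) (c (l 143505817988546767) (l 143462249831170255)))) (c (c (b (l 143650403797549327) (a (l 143632330571628815) (l 143665796963762447))) (a (l 143592267108172047) (l 143630268986867983))) (a (a (l 143521760910328015) (l 143545606573785295)) (a (l 143568421444976911)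 (l 143590136804425999)))))))))) (b (l 16742680) (b (a (l 16707368) (l 16719824)) (b (a (l 143390850277343311) (l 143517431580541135)) (b (a (c (l 143393461619523791) (l 143316014753316943)) (c (l 143512689936859343) (l 143460325685035215))) (a (b (c (l 143377312539902159) (l 143293749639069775)) (a (a (c (c (l 143339791698690255) (l 143290176226197711)) (c (l 143241179229208719) (l 143192800702382223))) (c (a (l 143340891210334415) (l 143357796205019343)) (c (l 143280761655804047) (l 143236025267372175)))) (a (b (l 143343227672789071) (c (l 143379923881132239) (l 143294505554116687))) (c (l 143414695943405775) (l 143336905479913551))))) (a (c (c (l 143482728239349967) (l 143448299774492879)) (c (l 143415176980021455) (l 143383428575412431))) (a (c (l 143508017012490447) (l 143451048554889423)) (c (l 143535023772844239) (l 143483965191536847)))))))))) (c (b (l 16736792) (b (l 16757584) (c (b (l 16737720) (b (a (l 16734664) (l 16740800)) (b (a (l 16734664) (l 16740888)) (a (a (c (l 602767970661131191231759)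 (l 602654984322274913035535)) (c (l 16737608) (l 16735024))) (a (c (l 16740512) (l 16738408)) (l 16742416)))))) (b (l 16735008) (c (b (l 16735112) (a (a (l 602557562427579118642447) (l 603141949993445561127951)) (l 603990500220836212249615))) (a (a (l 602484928351554564449551) (l 603105921196426593653775)) (l 604008082273781464585231))))))) (b (l 16741696) (b (b (l 16737432) (l 16735288)) (a (b (l 16727264) (b (l 602712918560398867866831) (a (c (b (l 16722880) (l 602331013284029016941775)) (l 602218315168745661080783)) (c (l 603031845989755597509647) (l 602990052585213593572367))))) (b (l 16738168) (a (c (l 603722445971015110579215) (l 603778074433612388209679)) (c (l 604370099626228016878607) (l 604506720824523927737359))))))))), by decide +kernel⟩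

def k24_pm_123_a : ∃ t, chk3 f_pm_123_a t 23 15 1 = true :=
  ⟨(b (a (c (l 16747160) (l 16820984)) (c (l 16756608) (l 16792712))) (c (c (b (a (l 16747712) (l 16758176)) (b (a (l 16748752) (l 16759912)) (a (a (b (l 16746344) (a (l 16745192) (l 16747960))) (a (l 16750648) (l 16753536))) (a (l 606854069007903508354063) (l 16764104))))) (b (a (l 16749688) (l 16763112)) (b (a (l 16749520) (l 16763880)) (a (a (a (l 604839626908979165533199) (l 16747232)) (l 606199786054039112029199)) (a (l 16760376) (l 16768128)))))) (b (a (l 606238120694067294802959) (b (l 16773792) (l 16773368))) (a (b (a (l 16748080) (l 16757800)) (a (c (b (l 16745968) (l 605297336746308086977551)) (l 605567120378386092626959)) (a (l 606413941223519835689999) (l 607063324260989652800527)))) (b (a (l 16767720) (l 16777728)) (a (c (l 16764192) (l 608316838166873468883983)) (b (l 16777272) (c (l 16773632) (l 16780560))))))))), by decide +kernel⟩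

def k25_pm_123_a : ∃ t, chk3 f_pm_123_a t 3 2 1 = true :=
  ⟨(a (a (a (b (l 16732056) (b (l 16719888) (l 16722960))) (b (a (b (l 16738416) (l 16728648)) (b (l 16794088) (a (l 16733512) (l 16739496)))) (b (l 16727944) (l 16787296)))) (b (a (a (b (a (l 16752760) (l 16755936)) (a (l 16749656) (l 16750120))) (b (l 4) (a (l 180086793447) (l 4)))) (l 4)) (a (b (a (a (b (l 16735144) (l 16730832)) (b (l 16743168) (l 16734656))) (a (b (l 16748456) (l 16741840)) (b (l 16753984) (l 16748808)))) (b (a (l 16730416) (a (l 16734880) (l 16739984))) (l 16735440))) (b (a (a (b (l 4) (l 136063337719)) (l 4)) (l 4)) (b (a (a (l 16805624) (a (l 16753784) (l 16830960))) (l 4)) (a (a (b (l 16742288) (l 16740256)) (b (l 16792008) (l 16744968))) (a (b (l 128547126087) (l 16753312)) (b (l 4) (a (l 16758872) (l 4)))))))))) (a (l 4) (l 2))), by decide +kernel⟩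

def k26_pm_123_a : ∃ t, chk3 f_pm_123_a t 6 6 1 = true :=
  ⟨(a (b (a (b (l 16730696) (l 16739640)) (b (l 16731256) (l 16739072))) (a (a (l 16751816) (l 16606248)) (b (l 16750256) (l 16761896)))) (b (a (a (l 16695288) (l 16741184)) (a (b (b (a (l 16740992) (l 16743176)) (l 16743856)) (l 16664152)) (b (a (a (l 16743504) (l 16748088)) (b (l 16798536) (l 16773816))) (a (l 16750776) (b (l 16746336) (l 16751672)))))) (a (a (a (l 16759736) (l 16719336)) (l 16805328)) (b (a (l 16757512) (l 16757632)) (a (l 16771856) (l 16771160)))))), by decide +kernel⟩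

def k27_pm_123_a : ∃ t, chk3 f_pm_123_a t 12 7 2 = true :=
  ⟨(b (a (b (l 16755600) (l 16762272)) (b (l 16768120) (l 16779368))) (b (a (a (l 16765680) (l 16774944)) (a (l 16785264) (l 16796032))) (a (a (b (l 16772064) (a (b (l 16771760) (c (l 16770360) (l 16775976))) (b (l 16778272) (c (l 16797672) (b (l 16783552) (l 16784136)))))) (b (l 16782480) (b (l 16786640) (a (b (l 16785952) (c (l 16783352) (a (l 16789992) (l 16793256)))) (c (l 16788264) (l 16796872)))))) (b (a (l 16793560) (l 16805384)) (a (b (l 16798136) (a (c (l 16794064) (l 16802968)) (a (l 16802872) (l 16805976)))) (a (c (l 16804512) (l 16834888)) (c (l 16810576) (l 16820256)))))))), by decide +kernel⟩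

def k28_pm_123_a : ∃ t, chk3 f_pm_123_a t 12 7 3 = true :=
  ⟨(b (a (b (l 16773760) (l 16780416)) (b (l 16785248) (a (l 16796208) (l 16803952)))) (a (a (b (l 16804208) (b (b (l 16789192) (l 16833008)) (b (a (l 16787752) (b (l 16796752) (l 16797512))) (b (a (l 16787632) (c (l 16792672) (l 16803616))) (a (c (l 16783304) (a (l 16789208) (l 16794960))) (a (c (l 16790528) (l 16800680)) (c (l 16795328) (a (l 16804944) (l 16807776))))))))) (b (l 16794200) (b (l 16802312) (c (b (l 16801176) (a (b (l 16800440) (a (b (l 16799808) (l 16800176)) (l 16814088))) (a (l 16805840) (l 16808976)))) (b (l 16813240) (a (b (l 16812472) (b (a (l 16811712) (l 16815424)) (a (c (l 16808848) (b (l 16815224) (l 16815256))) (a (a (l 16825584) (l 16815920)) (l 16817112))))) (b (l 16818952) (c (l 16817440) (a (l 16822504) (l 16825848)))))))))) (a (b (l 16806280) (b (l 16814856) (a (b (l 16816456) (b (l 16819048) (c (l 16825160) (b (l 16827016) (a (l 16836720) (l 16829656)))))) (b (l 16823104) (b (l 16825760) (c (l 16821288)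 (a (l 16843128) (l 16836128)))))))) (b (b (l 16815408) (l 16821784)) (b (l 16828048) (b (a (l 16829832) (l 16836536)) (a (b (l 16832552) (c (l 16827992) (a (l 16839616) (l 16843104)))) (c (l 16833728) (a (l 16845600) (l 16849032)))))))))), by decide +kernel⟩

def k29_pm_123_a : ∃ t, chk3 f_pm_123_a t 13 7 1 = true :=
  ⟨(b (a (b (l 16700456) (b (l 16797376) (l 16816712))) (b (a (l 16788120) (l 16788424)) (c (l 16761032) (l 16816200)))) (a (a (b (c (l 16805608) (b (l 16823376) (l 16832408))) (b (c (l 16816832) (b (l 16838712) (l 16863512))) (c (b (l 16822344) (a (l 16823096) (l 16828976))) (b (l 16882952) (a (c (l 16840224) (l 16854056)) (b (l 16852192) (l 16854184))))))) (b (l 16917376) (a (b (b (l 16832800) (l 16837360)) (b (l 16883632) (c (l 16834512) (b (l 16858048) (l 16860080))))) (b (l 16838928) (c (l 16858184) (c (l 16854720) (l 16889688))))))) (b (a (b (l 16823464) (l 16833672)) (c (l 16823192) (l 16819624))) (b (a (l 16906800) (c (l 16838096) (l 16858640))) (a (c (l 16843160) (b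 (l 16863968) (l 16869352))) (c (l 16848176) (l 16912336))))))), by decide +kernel⟩

def k30_pm_123_a : ∃ t, chk3 f_pm_123_a t 7 6 1 = true :=
  ⟨(a (a (b (a (b (a (b (l 4) (a (l 16757328) (b (l 4) (l 16760016)))) (l 4)) (a (b (a (l 16752576) (l 16760072)) (l 16749168)) (b (a (l 16760424) (b (l 4) (l 16763456))) (a (l 16755496) (l 16825576))))) (b (l 4) (a (b (l 4) (a (b (l 16828304) (l 16761296)) (l 4))) (l 4)))) (a (b (a (l 16716368) (b (b (l 16752584) (l 16756128)) (l 16759352))) (l 16767488)) (b (a (b (a (l 16758096) (b (l 16762664) (l 16762336))) (a (l 16758472) (l 16755576))) (b (a (b (l 4) (l 16764008)) (l 4)) (a (b (l 16763304) (l 16757288)) (b (l 221425804407) (l 16764056))))) (a (l 16766176) (b (a (l 16762664) (l 16799768)) (l 16767304)))))) (b (l 2) (b (a (a (b (l 4) (a (b (l 4) (b (l 16809632) (l 16764800))) (l 4))) (l 4)) (l 2)) (a (a (b (a (b (l 16764592) (l 16759032)) (b (a (l 16765448) (l 322357569767)) (l 16827912))) (a (l 16765712) (b (l 16759936) (l 16765184)))) (b (a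 (b (l 4) (a (l 16766336) (b (l 4) (l 16767968)))) (l 4)) (a (b (a (l 16762912) (l 16767000)) (l 16760872)) (b (a (l 16809072) (b (l 4) (l 16768768))) (a (l 16763200) (l 16809304)))))) (a (b (l 4) (a (b (l 4) (a (b (l 16769112) (l 16765656)) (b (l 4) (l 16769408)))) (l 4))) (l 2)))))) (l 2)), by decide +kernel⟩

def k31_pm_123_a : ∃ t, chk3 f_pm_123_a t 14 7 1 = true :=
  ⟨(b (a (b (a (l 16786224) (b (l 16755088) (l 16785480))) (a (l 16806936) (l 16821496))) (b (a (b (a (l 16771032) (b (a (l 16766928) (l 16761896)) (l 16769712))) (l 16776552)) (b (a (b (a (a (l 16763496) (b (l 16765792) (l 16764456))) (a (b (l 16769648) (l 16765872)) (b (l 4) (l 16769832)))) (a (l 16784024) (a (l 16763880) (b (l 16768600) (l 16764440))))) (b (l 4) (a (a (b (l 16811896) (l 16768536)) (b (l 4) (l 286924038311))) (l 4)))) (a (l 16771008) (b (a (a (l 16764432) (b (l 16768168) (l 16764688))) (a (b (l 283702814279) (l 16767720)) (b (l 4) (c (l 16812184) (l 16822712))))) (a (l 16770008) (b (a (l 16764976) (l 16788328))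 (l 16786600))))))) (a (b (l 16787432) (l 16797816)) (a (b (l 16779776) (l 16790128)) (b (l 16774368) (l 16784816)))))) (a (b (a (l 16871920) (l 16882832)) (c (a (b (l 16838720) (l 16849336)) (b (l 16835840) (b (l 16844128) (l 16849672)))) (a (b (l 16857368) (l 16833192)) (b (l 16852224) (l 16865440))))) (b (a (b (l 16810592) (l 16823264)) (b (l 16798952) (l 16812232))) (b (a (l 16814976) (c (l 16820400) (l 16831168))) (b (a (l 16803464) (l 16793248)) (a (c (l 16843912) (l 16860624)) (c (l 16835168) (l 16826056)))))))), by decide +kernel⟩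

def k32_pm_123_a : ∃ t, chk3 f_pm_123_a t 15 7 1 = true :=
  ⟨(b (a (b (a (b (l 2) (a (b (a (a (a (a (b (l 4) (l 16772904)) (l 4)) (l 4)) (l 4)) (l 2)) (a (a (a (b (l 16768200) (l 16766088)) (l 6)) (l 6)) (l 6))) (l 2))) (l 2)) (a (b (a (a (a (a (l 16772072) (l 6)) (l 6)) (l 6)) (l 6)) (a (b (l 16776056) (l 16781520)) (b (l 6) (l 16775208)))) (b (l 2) (a (l 6) (l 4))))) (l 2)) (a (b (a (a (b (l 16789456) (l 16802608)) (b (b (l 16780736) (l 16785848)) (l 16795568))) (b (a (b (l 6) (a (l 16781168) (l 6))) (l 6)) (a (b (l 16784984) (l 16791648)) (b (l 6) (a (l 16786016) (l 6)))))) (b (a (a (l 16815976) (l 16809104)) (a (l 16822784) (b (l 16790776) (l 16797648)))) (b (a (c (l 16818136) (l 16824488)) (a (l 16812088) (c (l 16801920) (l 16803976)))) (c (a (l 16824192) (a (l 16814832) (l 16808112))) (a (b (l 16827248) (l 16787216)) (a (l 16783904) (a (l 16788328) (l 16781800)))))))) (b (a (b (a (l 6) (l 2)) (l 6)) (l 2)) (a (b (a (b (a (l 16784888) (l 6)) (l 16810592)) (l 6)) (b (a (a (l 16798640)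 (l 16794560)) (a (l 16811368) (l 6))) (c (a (a (l 16802824) (l 16799168)) (b (l 16781472) (a (l 16797000) (l 16787952)))) (a (b (l 16777968) (a (l 16781456) (l 16780392))) (b (a (l 16793544) (l 16790064)) (a (a (l 16780312) (l 16778544)) (a (l 16779408) (b (l 16790376) (l 16780688))))))))) (b (a (l 6) (l 2)) (a (b (l 6) (b (l 6) (a (b (l 6) (c (l 16782264) (a (l 16778968) (l 6)))) (l 6)))) (l 6))))))), by decide +kernel⟩

theorem s33_pm_123_a : ∃ t, chk3 f_pm_123_a t 7 7 1 = true := ex3_a k31_pm_123_a k32_pm_123_a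

theorem s34_pm_123_a : ∃ t, chk3 f_pm_123_a t 7 3 1 = true := ex3_b k30_pm_123_a s33_pm_123_a

theorem s35_pm_123_a : ∃ t, chk3 f_pm_123_a t 12 7 1 = true := ex3_c k27_pm_123_a k28_pm_123_a

theorem s36_pm_123_a : ∃ t, chk3 f_pm_123_a t 6 7 1 = true := ex3_a s35_pm_123_a k29_pm_123_a

theorem s37_pm_123_a : ∃ t, chk3 f_pm_123_a t 6 3 1 = true := ex3_b k26_pm_123_a s36_pm_123_a

theorem s38_pm_123_a : ∃ t, chk3 f_pm_123_a t 3 3 1 = true := ex3_a s37_pm_123_a s34_pm_123_a

theorem s39_pm_123_a : ∃ t, chk3 f_pm_123_a t 3 1 1 = true := ex3_b k25_pm_123_a s38_pm_123_a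

theorem s40_pm_123_a : ∃ t, chk3 f_pm_123_a t 11 15 1 = true := ex3_a k23_pm_123_a k24_pm_123_a

theorem s41_pm_123_a : ∃ t, chk3 f_pm_123_a t 11 7 1 = true := ex3_b k22_pm_123_a s40_pm_123_a

theorem s42_pm_123_a : ∃ t, chk3 f_pm_123_a t 43 31 3 = true := ex3_b k20_pm_123_a k21_pm_123_a

theorem s43_pm_123_a : ∃ t, chk3 f_pm_123_a t 43 15 3 = true := ex3_b k19_pm_123_a s42_pm_123_a

theorem s44_pm_123_a : ∃ t, chk3 f_pm_123_a t 43 15 1 = true := ex3_c k18_pm_123_a s43_pm_123_a

theorem s45_pm_123_a : ∃ t, chk3 f_pm_123_a t 42 127 3 = true := ex3_a k16_pm_123_a k17_pm_123_a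

theorem s46_pm_123_a : ∃ t, chk3 f_pm_123_a t 42 127 1 = true := ex3_c k15_pm_123_a s45_pm_123_a

theorem s47_pm_123_a : ∃ t, chk3 f_pm_123_a t 42 63 1 = true := ex3_b k14_pm_123_a s46_pm_123_a

theorem s48_pm_123_a : ∃ t, chk3 f_pm_123_a t 42 31 1 = true := ex3_b k13_pm_123_a s47_pm_123_a

theorem s49_pm_123_a : ∃ t, chk3 f_pm_123_a t 42 15 1 = true := ex3_b k12_pm_123_a s48_pm_123_a

theorem s50_pm_123_a : ∃ t, chk3 f_pm_123_a t 21 15 1 = true := ex3_a s49_pm_123_a s44_pm_123_a

theorem s51_pm_123_a : ∃ t, chk3 f_pm_123_a t 41 31 1 = true := ex3_a k10_pm_123_a k11_pm_123_a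

theorem s52_pm_123_a : ∃ t, chk3 f_pm_123_a t 41 15 1 = true := ex3_b k9_pm_123_a s51_pm_123_a

theorem s53_pm_123_a : ∃ t, chk3 f_pm_123_a t 20 15 1 = true := ex3_a k8_pm_123_a s52_pm_123_a

theorem s54_pm_123_a : ∃ t, chk3 f_pm_123_a t 10 15 1 = true := ex3_a s53_pm_123_a s50_pm_123_a

theorem s55_pm_123_a : ∃ t, chk3 f_pm_123_a t 10 7 1 = true := ex3_b k7_pm_123_a s54_pm_123_a

theorem s56_pm_123_a : ∃ t, chk3 f_pm_123_a t 5 7 1 = true := ex3_a s55_pm_123_a s41_pm_123_a

theorem s57_pm_123_a : ∃ t, chk3 f_pm_123_a t 5 3 1 = true := ex3_b k6_pm_123_a s56_pm_123_a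

theorem s58_pm_123_a : ∃ t, chk3 f_pm_123_a t 19 7 1 = true := ex3_b k4_pm_123_a k5_pm_123_a

theorem s59_pm_123_a : ∃ t, chk3 f_pm_123_a t 9 7 1 = true := ex3_a k3_pm_123_a s58_pm_123_a

theorem s60_pm_123_a : ∃ t, chk3 f_pm_123_a t 4 7 1 = true := ex3_a k2_pm_123_a s59_pm_123_a

theorem s61_pm_123_a : ∃ t, chk3 f_pm_123_a t 4 3 1 = true := ex3_b k1_pm_123_a s60_pm_123_a

theorem s62_pm_123_a : ∃ t, chk3 f_pm_123_a t 2 3 1 = true := ex3_a s61_pm_123_a s57_pm_123_a

theorem s63_pm_123_a : ∃ t, chk3 f_pm_123_a t 2 1 1 = true := ex3_b k0_pm_123_a s62_pm_123_a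

theorem s64_pm_123_a : ∃ t, chk3 f_pm_123_a t 1 1 1 = true := ex3_a s63_pm_123_a s39_pm_123_a

theorem c_pm_123_a : CertB 536870912 536870912 0 536870912 649613803 48318383 3 eng mog cd0q1 cd4q2a pd3 true true false .npn 1 2 3
    ndB0q1 ndB4q2a pcB3 cut_pm_123_a xt_pm_123_a :=
  certB0 (fam := true) (s1 := true) (s2 := false) (a := 1) (b := 2) (c := 3) (cn := .npn) (n1 := ndB0q1) (n2 := ndB4q2a) (pc := pcB3) (cut := cut_pm_123_a) (xt := xt_pm_123_a) (P1 := 536870912) (W1 := 536870912) (P2 := 0) (W2 := 536870912) (P3 := 649613803) (W3 := 48318383) (N0 := 3) (En := eng) (mo := mog) (C1 := cd0q1) (C2 := cd4q2a) (C3 := pd3)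
    rfl s64_pm_123_a

noncomputable def cut_pm_123_b : Cut := Cut.of [[⟨0, 1, 0, 67108864⟩, ⟨1, 1, 0, 67108864⟩, ⟨2, 2, 0, 16777216⟩], [⟨0, 0, 1, 20971520⟩, ⟨1, 1, 0, 33554432⟩, ⟨2, 1, 1, 20971520⟩]]

noncomputable def f_pm_123_b : ℕ → ℕ → ℕ → ℕ → Bool := onCell 1610612736 536870912 1239849684 370763052 649613803 48318383
    (rowB 3 eng mog cd0q1 cd4q2b pd3 2 true true false .npn 1 2 3 (qsf 536870912 536870912 1239849684 370763052 3) ndB0q1 ndB4q2b pcB3 cut_pm_123_b Ext.none)

def k0_pm_123_b : ∃ t, chk3 f_pm_123_b t 1 1 1 = true :=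
  ⟨(a (b (a (l 1) (a (b (b (a (a (l 1) (l 16525416)) (a (l 16536368) (l 16558384))) (l 1)) (l 1)) (b (b (l 16564152) (l 16610824)) (b (l 16486624) (l 1))))) (l 1)) (a (b (b (a (b (a (l 16690168) (l 16718992)) (l 16598432)) (a (l 16892392) (l 16879288))) (a (a (l 16514240) (l 16687872)) (a (l 16713032) (l 16739176)))) (a (l 1) (b (a (l 16730984) (l 16739968)) (l 1)))) (a (b (b (a (b (l 16735296) (l 16737520)) (b (b (l 16735888) (l 16738816)) (l 16812640))) (a (l 16747336) (b (l 16746448) (l 16734176)))) (b (a (l 16741464) (l 16729896)) (a (l 1) (l 4)))) (b (a (b (a (b (l 16749720) (l 16743480)) (b (l 16748432) (l 16741888))) (a (l 16731384) (l 4))) (a (b (b (a (l 16750504) (l 4)) (l 4)) (l 4)) (l 4))) (l 4))))), by decide +kernel⟩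

theorem c_pm_123_b : CertB 536870912 536870912 1239849684 370763052 649613803 48318383 3 eng mog cd0q1 cd4q2b pd3 true true false .npn 1 2 3
    ndB0q1 ndB4q2b pcB3 cut_pm_123_b Ext.none :=
  certB2 (fam := true) (s1 := true) (s2 := false) (a := 1) (b := 2) (c := 3) (cn := .npn) (n1 := ndB0q1) (n2 := ndB4q2b) (pc := pcB3) (cut := cut_pm_123_b) (xt := Ext.none) (P1 := 536870912) (W1 := 536870912) (P2 := 1239849684) (W2 := 370763052) (P3 := 649613803) (W3 := 48318383) (N0 := 3) (En := eng) (mo := mog) (C1 := cd0q1) (C2 := cd4q2b) (C3 := pd3)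
    rfl (fun _ => rfl) k0_pm_123_b

noncomputable def f_pm_133 : ℕ → ℕ → ℕ → ℕ → Bool := onCell 536870912 536870912 1610612736 536870912 649613803 48318383
    (rowB 3 eng mog cd0q1 cd4q3 pd3 0 true true false .dn 1 3 3 (qsf 536870912 536870912 1610612736 536870912 3) ndB0q1 ndB4q3 pcB3 Cut.none Ext.none)

def k0_pm_133 : ∃ t, chk3 f_pm_133 t 1 1 1 = true :=
  ⟨(a (l 4) (l 2)), by decide +kernel⟩

theorem c_pm_133 : CertB 536870912 536870912 1610612736 536870912 649613803 48318383 3 eng mog cd0q1 cd4q3 pd3 true true false .dn 1 3 3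
    ndB0q1 ndB4q3 pcB3 Cut.none Ext.none :=
  certB0 (fam := true) (s1 := true) (s2 := false) (a := 1) (b := 3) (c := 3) (cn := .dn) (n1 := ndB0q1) (n2 := ndB4q3) (pc := pcB3) (cut := Cut.none) (xt := Ext.none) (P1 := 536870912) (W1 := 536870912) (P2 := 1610612736) (W2 := 536870912) (P3 := 649613803) (W3 := 48318383) (N0 := 3) (En := eng) (mo := mog) (C1 := cd0q1) (C2 := cd4q3) (C3 := pd3)
    rfl k0_pm_133

noncomputable def cut_pm_202 : Cut := Cut.of [[⟨0, 1, 0, 67108864⟩, ⟨1, 0, 0, 67108864⟩, ⟨2, 1, 0, 67108864⟩]]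

noncomputable def f_pm_202 : ℕ → ℕ → ℕ → ℕ → Bool := onCell 0 536870912 1073741824 536870912 649613803 48318383
    (rowB 3 eng mog cd0q2 cd4q0 pd2 1 true true false .pp 2 0 2 (qsf 0 536870912 0 536870912 2) ndB0q2 ndB4q0 pcB2 cut_pm_202 Ext.none)

def k0_pm_202 : ∃ t, chk3 f_pm_202 t 2 4 1 = true :=
  ⟨(b (l 1) (a (l 1) (b (l 1) (a (l 1) (b (l 1) (a (l 1) (b (l 1) (c (a (b (l 1) (l 16507176)) (b (l 16516264) (l 244846034375))) (a (l 371010825447) (l 365642133799)))))))))), by decide +kernel⟩

def k1_pm_202 : ∃ t, chk3 f_pm_202 t 2 20 1 = true :=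
  ⟨(b (a (l 1) (b (a (l 1) (a (c (c (c (l 513818499687) (l 392485648231)) (a (l 16489120) (l 16498600))) (a (l 285648321719) (l 358662780535))) (a (c (b (l 173979060167) (l 16512424)) (l 432750985783)) (c (l 16522272) (b (l 16511312) (l 16514512)))))) (a (a (c (l 251288604903) (l 464426254279)) (c (b (l 466573825495) (l 16487208)) (b (l 16495024) (l 16478096)))) (a (a (c (l 136398087111) (c (l 16448856) (l 16484752))) (c (l 16506336) (b (l 16495504) (l 16499104)))) (a (b (l 16490200) (l 16514088)) (l 16458704)))))) (a (a (b (l 1) (b (l 1) (a (l 16420752) (c (l 16443000) (l 16445976))))) (b (a (l 1) (l 16550536)) (c (a (l 16450368) (c (l 16459048) (l 16459768))) (l 16519304)))) (c (a (a (b (l 16495752) (c (l 16469744) (l 16470624))) (b (l 16486888) (c (l 16481752) (l 16482648)))) (a (b (l 16499152) (c (l 16494008) (l 16494544))) (b (l 16510640) (l 16505288)))) (a (a (a (l 170757722423) (b (l 16474784) (l 16477528))) (b (b (l 16482080) (l 16485984)) (l 16486744))) (a (b (l 16499936) (l 16498136))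 (b (l 16515408) (l 16507832))))))), by decide +kernel⟩

def k2_pm_202 : ∃ t, chk3 f_pm_202 t 2 21 1 = true :=
  ⟨(a (b (a (c (b (a (l 16439648) (l 16440792)) (a (l 16438744) (l 16439176))) (b (l 16438816) (l 16459072))) (c (b (a (l 16446192) (l 16454952)) (a (b (l 16443456) (l 16484296)) (l 16451288))) (a (b (l 16447704) (l 16463120)) (b (l 16456824) (l 16450776))))) (a (a (l 16443632) (l 16443744)) (a (b (a (l 16442512) (l 16444712)) (l 16448544)) (b (l 16450944) (l 16454392))))) (a (b (c (b (a (l 16465664) (l 16477576)) (a (b (l 16462680) (l 16461192)) (b (l 16474512) (l 16472952)))) (a (b (l 16467912) (l 16461824)) (b (l 16479952) (l 16473776)))) (a (c (l 16464600) (l 16462848)) (c (l 16475840) (l 16474248)))) (b (a (c (b (l 16489448) (b (l 16486216) (l 16484536))) (b (l 16491176) (l 16484816))) (c (b (l 16500320) (l 16495912)) (b (l 16500600) (l 16493944)))) (a (c (l 16486904) (l 16484712)) (l 16494120))))), by decide +kernel⟩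

def k3_pm_202 : ∃ t, chk3 f_pm_202 t 2 11 1 = true :=
  ⟨(a (b (a (c (l 16503440) (l 16457440)) (b (a (l 16455800) (b (l 16458200) (l 16462384))) (a (l 16464760) (l 16468864)))) (a (l 16477080) (c (l 16484056) (l 16476504)))) (a (a (b (b (l 16468624) (l 16475432)) (l 16486856)) (b (b (l 16478968) (l 16484312)) (b (l 16490504) (l 16497400)))) (b (a (b (l 16488864) (l 16493320)) (b (l 16497216) (l 16500784))) (a (l 16501128) (l 16507104))))), by decide +kernel⟩

def k4_pm_202 : ∃ t, chk3 f_pm_202 t 2 3 1 = true :=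
  ⟨(b (a (b (a (b (b (l 16491200) (l 16501192)) (a (l 16519200) (l 16515272))) (b (l 16496216) (l 16514464))) (b (a (b (l 16535080) (l 16547720)) (b (l 16530048) (l 16730072))) (a (l 16567232) (b (l 16552760) (l 16564728))))) (b (a (b (a (l 16502024) (l 16508008)) (l 16520816)) (b (a (l 16513352) (l 16517248)) (l 16528560))) (a (b (b (l 16534128) (l 16543936)) (a (l 16705200) (l 16560064))) (b (a (l 16542608) (l 16543184)) (a (l 16561176) (l 16560608)))))) (a (b (b (a (l 16596360) (l 16585744)) (a (l 16631112) (l 16618584))) (b (l 16827360) (l 16692136))) (b (a (b (a (l 16584264) (l 16585400)) (l 16615208)) (b (l 16585216) (l 16611856))) (a (b (l 16647200) (l 16679104)) (b (l 16640808) (l 16669920)))))), by decide +kernel⟩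

def k5_pm_202 : ∃ t, chk3 f_pm_202 t 3 8 1 = true :=
  ⟨(a (l 1) (a (b (l 1) (b (a (l 1) (l 6)) (a (b (l 1) (a (l 1) (b (l 489122698119) (a (l 515966223527) (l 16643768))))) (b (l 6) (a (b (l 6) (l 16615864)) (l 16673560)))))) (b (l 6) (b (l 6) (b (l 6) (a (a (l 16674880) (l 16675360)) (l 16674264))))))), by decide +kernel⟩

def k6_pm_202 : ∃ t, chk3 f_pm_202 t 3 9 1 = true :=
  ⟨(a (b (a (l 1) (b (a (l 1) (b (l 1) (a (l 464963388711) (b (l 510597483031) (a (l 16603592) (l 16570448)))))) (a (b (a (l 1) (l 482143230807)) (a (l 506302418103) (c (a (l 382821983207) (l 16525296)) (l 571800692311)))) (b (a (b (l 533146031223) (a (l 16589744) (l 16535376))) (b (l 16525696) (l 16611088))) (a (b (l 16511960) (l 16597592)) (l 16612048)))))) (a (b (a (a (l 1) (c (l 788159539655) (l 488048695399))) (b (a (l 1) (c (l 808560708183) (l 528850969079))) (a (c (b (l 16546248) (l 16485816)) (l 569116267143)) (a (b (l 248067311655) (l 16555120)) (l 16477504))))) (a (b (a (c (b (l 16524392) (l 260415304087))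 (l 561600034615)) (c (c (l 16467400) (l 206191351591)) (b (l 16526944) (l 16530056)))) (a (c (l 355441473223) (b (l 16518440) (l 16521408))) (b (l 16538096) (l 16540352)))) (a (b (b (l 16442040) (l 16549648)) (l 16549720)) (b (l 16562576) (l 16553536))))) (b (a (b (a (b (a (l 16563064) (l 16508176)) (l 16485560)) (l 16479344)) (a (l 16572816) (l 16582112))) (b (l 16598744) (l 16587440))) (a (b (l 16569616) (l 16559328)) (l 16571168))))) (a (b (a (b (b (a (a (l 502007538327) (c (l 549789046183) (l 546567844743))) (a (b (l 16635512) (l 16636568)) (l 16603192))) (a (b (c (l 16627600) (l 16620472)) (l 16625584)) (l 16642552))) (b (c (l 16627160) (l 16631624)) (l 16616840))) (a (b (b (l 16658384) (l 16645504)) (l 16626640)) (b (l 16653872) (l 16628312)))) (a (b (l 16599136) (l 16576656)) (b (l 16603312) (l 16580408)))) (b (a (b (a (l 16655000) (l 16655296)) (l 16629392)) (b (l 16674976) (l 16627904))) (a (b (l 16604744) (l 16581656)) (b (l 16603264) (l 16580456)))))), by decide +kernel⟩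

def k7_pm_202 : ∃ t, chk3 f_pm_202 t 3 5 1 = true :=
  ⟨(a (a (b (b (c (b (a (a (l 16527360) (l 16532096)) (l 16538344)) (a (b (l 16520552) (l 16514816)) (l 16525232))) (b (a (b (l 16490768) (l 16531288)) (l 16541080)) (a (l 16519072) (l 16523784)))) (b (a (b (l 16507672) (c (l 16504616) (l 16500520))) (b (l 16513184) (l 16506776))) (a (l 16501104) (l 16505528)))) (b (a (l 16504624) (l 16507672)) (a (l 16510856) (l 16512024)))) (b (b (b (a (c (l 16545712) (l 16545280)) (l 16550672)) (b (a (l 16531968) (l 16536192)) (a (l 16524168) (b (l 16529592) (l 16525752))))) (b (a (l 16513432) (l 16516048)) (l 16509408))) (b (a (l 16508992) (l 16509728)) (l 16511416)))) (b (b (a (b (a (l 16555664) (l 16559120)) (b (l 16542960) (b (l 16535944) (a (l 16529568) (l 16533088))))) (b (a (l 16560408) (l 16559896)) (b (l 16546320) (a (l 16579440) (l 16643392))))) (a (b (a (l 16518808) (l 16522104)) (l 16513104)) (a (l 16540896) (l 16543056)))) (a (b (l 16510928) (l 16509968)) (b (a (l 16511136) (l 16512288))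 (a (l 16508864) (l 16509280)))))), by decide +kernel⟩

def k8_pm_202 : ∃ t, chk3 f_pm_202 t 3 3 1 = true :=
  ⟨(b (a (b (a (b (l 16518944) (l 16528224)) (b (l 16515088) (l 16521008))) (a (b (b (l 16536480) (l 16543160)) (l 16555744)) (b (l 16551504) (l 16544448)))) (b (a (b (l 16511296) (l 16515600)) (b (l 16509632) (l 16514384))) (a (b (l 16524328) (l 16537432)) (b (l 16524320) (l 16537904))))) (a (b (a (b (l 16576000) (l 16599600)) (l 16572256)) (a (b (l 16625848) (l 16651168)) (l 16620176))) (b (a (l 16562768) (l 16564072)) (a (l 16609224) (l 16613352))))), by decide +kernel⟩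

theorem s9_pm_202 : ∃ t, chk3 f_pm_202 t 3 4 1 = true := ex3_b k5_pm_202 k6_pm_202

theorem s10_pm_202 : ∃ t, chk3 f_pm_202 t 3 2 1 = true := ex3_b s9_pm_202 k7_pm_202

theorem s11_pm_202 : ∃ t, chk3 f_pm_202 t 3 1 1 = true := ex3_b s10_pm_202 k8_pm_202

theorem s12_pm_202 : ∃ t, chk3 f_pm_202 t 2 10 1 = true := ex3_b k1_pm_202 k2_pm_202

theorem s13_pm_202 : ∃ t, chk3 f_pm_202 t 2 5 1 = true := ex3_b s12_pm_202 k3_pm_202

theorem s14_pm_202 : ∃ t, chk3 f_pm_202 t 2 2 1 = true := ex3_b k0_pm_202 s13_pm_202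

theorem s15_pm_202 : ∃ t, chk3 f_pm_202 t 2 1 1 = true := ex3_b s14_pm_202 k4_pm_202

theorem s16_pm_202 : ∃ t, chk3 f_pm_202 t 1 1 1 = true := ex3_a s15_pm_202 s11_pm_202

theorem c_pm_202 : CertB 0 536870912 0 536870912 649613803 48318383 3 eng mog cd0q2 cd4q0 pd2 true true false .pp 2 0 2
    ndB0q2 ndB4q0 pcB2 cut_pm_202 Ext.none :=
  certB1 (fam := true) (s1 := true) (s2 := false) (a := 2) (b := 0) (c := 2) (cn := .pp) (n1 := ndB0q2) (n2 := ndB4q0) (pc := pcB2) (cut := cut_pm_202) (xt := Ext.none) (P1 := 0) (W1 := 536870912) (P2 := 0) (W2 := 536870912) (P3 := 649613803) (W3 := 48318383) (N0 := 3) (En := eng) (mo := mog) (C1 := cd0q2) (C2 := cd4q0) (C3 := pd2)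
    rfl (fun _ => rfl) s16_pm_202

noncomputable def f_pm_203 : ℕ → ℕ → ℕ → ℕ → Bool := onCell 0 536870912 1610612736 536870912 649613803 48318383
    (rowB 3 eng mog cd0q2 cd4q0 pd3 1 true true false .up 2 0 3 (qsf 0 536870912 0 536870912 3) ndB0q2 ndB4q0 pcB3 Cut.none Ext.none)

def k0_pm_203 : ∃ t, chk3 f_pm_203 t 1 1 1 = true :=
  ⟨(b (a (b (a (b (b (l 16719016) (l 4)) (l 4)) (b (b (l 16723960) (l 16729152)) (l 16763416))) (l 4)) (b (a (b (a (l 16703680) (l 16695216)) (b (l 16766376) (l 16811200))) (b (a (l 16708024) (l 16745080)) (l 16954488))) (a (l 2) (l 2)))) (l 2)), by decide +kernel⟩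

theorem c_pm_203 : CertB 0 536870912 0 536870912 649613803 48318383 3 eng mog cd0q2 cd4q0 pd3 true true false .up 2 0 3
    ndB0q2 ndB4q0 pcB3 Cut.none Ext.none :=
  certB1 (fam := true) (s1 := true) (s2 := false) (a := 2) (b := 0) (c := 3) (cn := .up) (n1 := ndB0q2) (n2 := ndB4q0) (pc := pcB3) (cut := Cut.none) (xt := Ext.none) (P1 := 0) (W1 := 536870912) (P2 := 0) (W2 := 536870912) (P3 := 649613803) (W3 := 48318383) (N0 := 3) (En := eng) (mo := mog) (C1 := cd0q2) (C2 := cd4q0) (C3 := pd3)
    rfl (fun _ => rfl) k0_pm_203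

noncomputable def f_pm_213 : ℕ → ℕ → ℕ → ℕ → Bool := onCell 0 536870912 1610612736 536870912 649613803 48318383
    (rowB 3 eng mog cd0q2 cd4q1 pd3 1 true true false .pnn 2 1 3 (qsf 0 536870912 536870912 536870912 3) ndB0q2 ndB4q1 pcB3 Cut.none Ext.none)

def k0_pm_213 : ∃ t, chk3 f_pm_213 t 1 1 1 = true :=
  ⟨(a (b (b (b (l 1) (b (l 1) (l 4))) (l 4)) (l 4)) (b (b (a (b (l 1) (b (l 16732976) (l 16710152))) (b (a (l 16808792) (l 16902808)) (l 16864608))) (a (b (l 16683424) (l 4)) (b (l 16789608) (l 16721952)))) (b (l 4) (l 4)))), by decide +kernel⟩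

theorem c_pm_213 : CertB 0 536870912 536870912 536870912 649613803 48318383 3 eng mog cd0q2 cd4q1 pd3 true true false .pnn 2 1 3
    ndB0q2 ndB4q1 pcB3 Cut.none Ext.none :=
  certB1 (fam := true) (s1 := true) (s2 := false) (a := 2) (b := 1) (c := 3) (cn := .pnn) (n1 := ndB0q2) (n2 := ndB4q1) (pc := pcB3) (cut := Cut.none) (xt := Ext.none) (P1 := 0) (W1 := 536870912) (P2 := 536870912) (W2 := 536870912) (P3 := 649613803) (W3 := 48318383) (N0 := 3) (En := eng) (mo := mog) (C1 := cd0q2) (C2 := cd4q1) (C3 := pd3)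
    rfl (fun _ => rfl) k0_pm_213

noncomputable def f_mm_001 : ℕ → ℕ → ℕ → ℕ → Bool := onCell 0 536870912 0 536870912 649613803 48318383
    (rowB 3 eng mog cd0q0 cd4q0 pd1 0 true false false .up 0 0 1 (qsf 0 536870912 0 536870912 1) ndB0q0 ndB4q0 pcB1 Cut.none Ext.none)

def k0_mm_001 : ∃ t, chk3 f_mm_001 t 1 1 1 = true :=
  ⟨(l 4), by decide +kernel⟩

theorem c_mm_001 : CertB 0 536870912 0 536870912 649613803 48318383 3 eng mog cd0q0 cd4q0 pd1 true false false .up 0 0 1
    ndB0q0 ndB4q0 pcB1 Cut.none Ext.none :=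
  certB0 (fam := true) (s1 := false) (s2 := false) (a := 0) (b := 0) (c := 1) (cn := .up) (n1 := ndB0q0) (n2 := ndB4q0) (pc := pcB1) (cut := Cut.none) (xt := Ext.none) (P1 := 0) (W1 := 536870912) (P2 := 0) (W2 := 536870912) (P3 := 649613803) (W3 := 48318383) (N0 := 3) (En := eng) (mo := mog) (C1 := cd0q0) (C2 := cd4q0) (C3 := pd1)
    rfl k0_mm_001

noncomputable def f_mm_011 : ℕ → ℕ → ℕ → ℕ → Bool := onCell 0 536870912 536870912 536870912 649613803 48318383
    (rowB 3 eng mog cd0q0 cd4q1 pd1 0 true false false .pnn 0 1 1 (qsf 0 536870912 536870912 536870912 1) ndB0q0 ndB4q1 pcB1 Cut.none Ext.none)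

def k0_mm_011 : ∃ t, chk3 f_mm_011 t 1 1 1 = true :=
  ⟨(l 4), by decide +kernel⟩

theorem c_mm_011 : CertB 0 536870912 536870912 536870912 649613803 48318383 3 eng mog cd0q0 cd4q1 pd1 true false false .pnn 0 1 1
    ndB0q0 ndB4q1 pcB1 Cut.none Ext.none :=
  certB0 (fam := true) (s1 := false) (s2 := false) (a := 0) (b := 1) (c := 1) (cn := .pnn) (n1 := ndB0q0) (n2 := ndB4q1) (pc := pcB1) (cut := Cut.none) (xt := Ext.none) (P1 := 0) (W1 := 536870912) (P2 := 536870912) (W2 := 536870912) (P3 := 649613803) (W3 := 48318383) (N0 := 3) (En := eng) (mo := mog) (C1 := cd0q0) (C2 := cd4q1) (C3 := pd1)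
    rfl k0_mm_011

noncomputable def f_mm_012 : ℕ → ℕ → ℕ → ℕ → Bool := onCell 0 536870912 536870912 536870912 649613803 48318383
    (rowB 3 eng mog cd0q0 cd4q1 pd2 0 true false false .pnp 0 1 2 (qsf 0 536870912 536870912 536870912 2) ndB0q0 ndB4q1 pcB2 Cut.none Ext.none)

def k0_mm_012 : ∃ t, chk3 f_mm_012 t 1 1 1 = true :=
  ⟨(l 4), by decide +kernel⟩

theorem c_mm_012 : CertB 0 536870912 536870912 536870912 649613803 48318383 3 eng mog cd0q0 cd4q1 pd2 true false false .pnp 0 1 2
    ndB0q0 ndB4q1 pcB2 Cut.none Ext.none :=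
  certB0 (fam := true) (s1 := false) (s2 := false) (a := 0) (b := 1) (c := 2) (cn := .pnp) (n1 := ndB0q0) (n2 := ndB4q1) (pc := pcB2) (cut := Cut.none) (xt := Ext.none) (P1 := 0) (W1 := 536870912) (P2 := 536870912) (W2 := 536870912) (P3 := 649613803) (W3 := 48318383) (N0 := 3) (En := eng) (mo := mog) (C1 := cd0q0) (C2 := cd4q1) (C3 := pd2)
    rfl k0_mm_012

noncomputable def f_mm_022_a : ℕ → ℕ → ℕ → ℕ → Bool := onCell 0 536870912 0 536870912 649613803 48318383
    (rowB 3 eng mog cd0q0 cd4q2a pd2 0 true false false .pp 0 2 2 (qsf 0 536870912 0 536870912 2) ndB0q0 ndB4q2a pcB2 Cut.none Ext.none)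

def k0_mm_022_a : ∃ t, chk3 f_mm_022_a t 1 1 1 = true :=
  ⟨(l 5), by decide +kernel⟩

theorem c_mm_022_a : CertB 0 536870912 0 536870912 649613803 48318383 3 eng mog cd0q0 cd4q2a pd2 true false false .pp 0 2 2
    ndB0q0 ndB4q2a pcB2 Cut.none Ext.none :=
  certB0 (fam := true) (s1 := false) (s2 := false) (a := 0) (b := 2) (c := 2) (cn := .pp) (n1 := ndB0q0) (n2 := ndB4q2a) (pc := pcB2) (cut := Cut.none) (xt := Ext.none) (P1 := 0) (W1 := 536870912) (P2 := 0) (W2 := 536870912) (P3 := 649613803) (W3 := 48318383) (N0 := 3) (En := eng) (mo := mog) (C1 := cd0q0) (C2 := cd4q2a) (C3 := pd2)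
    rfl k0_mm_022_a

noncomputable def f_mm_022_b : ℕ → ℕ → ℕ → ℕ → Bool := onCell 0 536870912 1239849684 370763052 649613803 48318383
    (rowB 3 eng mog cd0q0 cd4q2b pd2 0 true false false .pp 0 2 2 (qsf 0 536870912 1239849684 370763052 2) ndB0q0 ndB4q2b pcB2 Cut.none Ext.none)

def k0_mm_022_b : ∃ t, chk3 f_mm_022_b t 1 1 1 = true :=
  ⟨(l 5), by decide +kernel⟩

theorem c_mm_022_b : CertB 0 536870912 1239849684 370763052 649613803 48318383 3 eng mog cd0q0 cd4q2b pd2 true false false .pp 0 2 2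
    ndB0q0 ndB4q2b pcB2 Cut.none Ext.none :=
  certB0 (fam := true) (s1 := false) (s2 := false) (a := 0) (b := 2) (c := 2) (cn := .pp) (n1 := ndB0q0) (n2 := ndB4q2b) (pc := pcB2) (cut := Cut.none) (xt := Ext.none) (P1 := 0) (W1 := 536870912) (P2 := 1239849684) (W2 := 370763052) (P3 := 649613803) (W3 := 48318383) (N0 := 3) (En := eng) (mo := mog) (C1 := cd0q0) (C2 := cd4q2b) (C3 := pd2)
    rfl k0_mm_022_b

noncomputable def f_mm_023_a : ℕ → ℕ → ℕ → ℕ → Bool := onCell 0 536870912 0 536870912 649613803 48318383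
    (rowB 3 eng mog cd0q0 cd4q2a pd3 0 true false false .up 0 2 3 (qsf 0 536870912 0 536870912 3) ndB0q0 ndB4q2a pcB3 Cut.none Ext.none)

def k0_mm_023_a : ∃ t, chk3 f_mm_023_a t 1 1 1 = true :=
  ⟨(l 5), by decide +kernel⟩

theorem c_mm_023_a : CertB 0 536870912 0 536870912 649613803 48318383 3 eng mog cd0q0 cd4q2a pd3 true false false .up 0 2 3
    ndB0q0 ndB4q2a pcB3 Cut.none Ext.none :=
  certB0 (fam := true) (s1 := false) (s2 := false) (a := 0) (b := 2) (c := 3) (cn := .up) (n1 := ndB0q0) (n2 := ndB4q2a) (pc := pcB3) (cut := Cut.none) (xt := Ext.none) (P1 := 0) (W1 := 536870912) (P2 := 0) (W2 := 536870912) (P3 := 649613803) (W3 := 48318383) (N0 := 3) (En := eng) (mo := mog) (C1 := cd0q0) (C2 := cd4q2a) (C3 := pd3)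
    rfl k0_mm_023_a

noncomputable def f_mm_023_b : ℕ → ℕ → ℕ → ℕ → Bool := onCell 0 536870912 1239849684 370763052 649613803 48318383
    (rowB 3 eng mog cd0q0 cd4q2b pd3 0 true false false .up 0 2 3 (qsf 0 536870912 1239849684 370763052 3) ndB0q0 ndB4q2b pcB3 Cut.none Ext.none)

def k0_mm_023_b : ∃ t, chk3 f_mm_023_b t 1 1 1 = true :=
  ⟨(l 5), by decide +kernel⟩

theorem c_mm_023_b : CertB 0 536870912 1239849684 370763052 649613803 48318383 3 eng mog cd0q0 cd4q2b pd3 true false false .up 0 2 3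
    ndB0q0 ndB4q2b pcB3 Cut.none Ext.none :=
  certB0 (fam := true) (s1 := false) (s2 := false) (a := 0) (b := 2) (c := 3) (cn := .up) (n1 := ndB0q0) (n2 := ndB4q2b) (pc := pcB3) (cut := Cut.none) (xt := Ext.none) (P1 := 0) (W1 := 536870912) (P2 := 1239849684) (W2 := 370763052) (P3 := 649613803) (W3 := 48318383) (N0 := 3) (En := eng) (mo := mog) (C1 := cd0q0) (C2 := cd4q2b) (C3 := pd3)
    rfl k0_mm_023_b

noncomputable def f_mm_033 : ℕ → ℕ → ℕ → ℕ → Bool := onCell 0 536870912 1610612736 536870912 649613803 48318383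
    (rowB 3 eng mog cd0q0 cd4q3 pd3 0 true false false .pnn 0 3 3 (qsf 0 536870912 1610612736 536870912 3) ndB0q0 ndB4q3 pcB3 Cut.none Ext.none)

def k0_mm_033 : ∃ t, chk3 f_mm_033 t 1 1 1 = true :=
  ⟨(l 4), by decide +kernel⟩

theorem c_mm_033 : CertB 0 536870912 1610612736 536870912 649613803 48318383 3 eng mog cd0q0 cd4q3 pd3 true false false .pnn 0 3 3
    ndB0q0 ndB4q3 pcB3 Cut.none Ext.none :=
  certB0 (fam := true) (s1 := false) (s2 := false) (a := 0) (b := 3) (c := 3) (cn := .pnn) (n1 := ndB0q0) (n2 := ndB4q3) (pc := pcB3) (cut := Cut.none) (xt := Ext.none) (P1 := 0) (W1 := 536870912) (P2 := 1610612736) (W2 := 536870912) (P3 := 649613803) (W3 := 48318383) (N0 := 3) (En := eng) (mo := mog) (C1 := cd0q0) (C2 := cd4q3) (C3 := pd3)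
    rfl k0_mm_033

noncomputable def cut_mm_101 : Cut := Cut.of [[⟨0, 1, 0, 67108864⟩, ⟨1, 0, 0, 67108864⟩, ⟨2, 1, 0, 67108864⟩]]

noncomputable def f_mm_101 : ℕ → ℕ → ℕ → ℕ → Bool := onCell 536870912 536870912 0 536870912 649613803 48318383
    (rowB 3 eng mog cd0q1 cd4q0 pd1 0 true false false .npn 1 0 1 (qsf 536870912 536870912 0 536870912 1) ndB0q1 ndB4q0 pcB1 cut_mm_101 Ext.none)

def k0_mm_101 : ∃ t, chk3 f_mm_101 t 1 1 1 = true :=
  ⟨(a (l 4) (b (a (l 4) (b (a (l 4) (b (a (l 4) (b (l 6) (l 4))) (l 4))) (l 4))) (l 4))), by decide +kernel⟩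

theorem c_mm_101 : CertB 536870912 536870912 0 536870912 649613803 48318383 3 eng mog cd0q1 cd4q0 pd1 true false false .npn 1 0 1
    ndB0q1 ndB4q0 pcB1 cut_mm_101 Ext.none :=
  certB0 (fam := true) (s1 := false) (s2 := false) (a := 1) (b := 0) (c := 1) (cn := .npn) (n1 := ndB0q1) (n2 := ndB4q0) (pc := pcB1) (cut := cut_mm_101) (xt := Ext.none) (P1 := 536870912) (W1 := 536870912) (P2 := 0) (W2 := 536870912) (P3 := 649613803) (W3 := 48318383) (N0 := 3) (En := eng) (mo := mog) (C1 := cd0q1) (C2 := cd4q0) (C3 := pd1)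
    rfl k0_mm_101

noncomputable def cut_mm_102 : Cut := Cut.of [[⟨0, 1, 0, 67108864⟩, ⟨1, 0, 0, 67108864⟩, ⟨2, 1, 0, 67108864⟩]]

noncomputable def f_mm_102 : ℕ → ℕ → ℕ → ℕ → Bool := onCell 536870912 536870912 0 536870912 649613803 48318383
    (rowB 3 eng mog cd0q1 cd4q0 pd2 0 true false false .npp 1 0 2 (qsf 536870912 536870912 0 536870912 2) ndB0q1 ndB4q0 pcB2 cut_mm_102 Ext.none)

def k0_mm_102 : ∃ t, chk3 f_mm_102 t 1 1 1 = true :=
  ⟨(a (l 4) (b (a (l 4) (b (a (l 4) (a (l 4) (b (b (l 6) (l 4)) (l 4)))) (l 4))) (l 4))), by decide +kernel⟩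

theorem c_mm_102 : CertB 536870912 536870912 0 536870912 649613803 48318383 3 eng mog cd0q1 cd4q0 pd2 true false false .npp 1 0 2
    ndB0q1 ndB4q0 pcB2 cut_mm_102 Ext.none :=
  certB0 (fam := true) (s1 := false) (s2 := false) (a := 1) (b := 0) (c := 2) (cn := .npp) (n1 := ndB0q1) (n2 := ndB4q0) (pc := pcB2) (cut := cut_mm_102) (xt := Ext.none) (P1 := 536870912) (W1 := 536870912) (P2 := 0) (W2 := 536870912) (P3 := 649613803) (W3 := 48318383) (N0 := 3) (En := eng) (mo := mog) (C1 := cd0q1) (C2 := cd4q0) (C3 := pd2)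
    rfl k0_mm_102

noncomputable def f_mm_112 : ℕ → ℕ → ℕ → ℕ → Bool := onCell 536870912 536870912 536870912 536870912 649613803 48318383
    (rowB 3 eng mog cd0q1 cd4q1 pd2 0 true false false .dn 1 1 2 (qsf 536870912 536870912 536870912 536870912 2) ndB0q1 ndB4q1 pcB2 Cut.none Ext.none)

def k0_mm_112 : ∃ t, chk3 f_mm_112 t 1 1 1 = true :=
  ⟨(l 4), by decide +kernel⟩

theorem c_mm_112 : CertB 536870912 536870912 536870912 536870912 649613803 48318383 3 eng mog cd0q1 cd4q1 pd2 true false false .dn 1 1 2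
    ndB0q1 ndB4q1 pcB2 Cut.none Ext.none :=
  certB0 (fam := true) (s1 := false) (s2 := false) (a := 1) (b := 1) (c := 2) (cn := .dn) (n1 := ndB0q1) (n2 := ndB4q1) (pc := pcB2) (cut := Cut.none) (xt := Ext.none) (P1 := 536870912) (W1 := 536870912) (P2 := 536870912) (W2 := 536870912) (P3 := 649613803) (W3 := 48318383) (N0 := 3) (En := eng) (mo := mog) (C1 := cd0q1) (C2 := cd4q1) (C3 := pd2)
    rfl k0_mm_112

noncomputable def f_mm_113 : ℕ → ℕ → ℕ → ℕ → Bool := onCell 536870912 536870912 536870912 536870912 649613803 48318383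
    (rowB 3 eng mog cd0q1 cd4q1 pd3 0 true false false .nn 1 1 3 (qsf 536870912 536870912 536870912 536870912 3) ndB0q1 ndB4q1 pcB3 Cut.none Ext.none)

def k0_mm_113 : ∃ t, chk3 f_mm_113 t 1 1 1 = true :=
  ⟨(l 4), by decide +kernel⟩

theorem c_mm_113 : CertB 536870912 536870912 536870912 536870912 649613803 48318383 3 eng mog cd0q1 cd4q1 pd3 true false false .nn 1 1 3
    ndB0q1 ndB4q1 pcB3 Cut.none Ext.none :=
  certB0 (fam := true) (s1 := false) (s2 := false) (a := 1) (b := 1) (c := 3) (cn := .nn) (n1 := ndB0q1) (n2 := ndB4q1) (pc := pcB3) (cut := Cut.none) (xt := Ext.none) (P1 := 536870912) (W1 := 536870912) (P2 := 536870912) (W2 := 536870912) (P3 := 649613803) (W3 := 48318383) (N0 := 3) (En := eng) (mo := mog) (C1 := cd0q1) (C2 := cd4q1) (C3 := pd3)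
    rfl k0_mm_113

noncomputable def f_mm_123_a : ℕ → ℕ → ℕ → ℕ → Bool := onCell 536870912 536870912 0 536870912 649613803 48318383
    (rowB 3 eng mog cd0q1 cd4q2a pd3 0 true false false .npn 1 2 3 (qsf 536870912 536870912 0 536870912 3) ndB0q1 ndB4q2a pcB3 Cut.none Ext.none)

def k0_mm_123_a : ∃ t, chk3 f_mm_123_a t 1 1 1 = true :=
  ⟨(l 4), by decide +kernel⟩

theorem c_mm_123_a : CertB 536870912 536870912 0 536870912 649613803 48318383 3 eng mog cd0q1 cd4q2a pd3 true false false .npn 1 2 3
    ndB0q1 ndB4q2a pcB3 Cut.none Ext.none :=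
  certB0 (fam := true) (s1 := false) (s2 := false) (a := 1) (b := 2) (c := 3) (cn := .npn) (n1 := ndB0q1) (n2 := ndB4q2a) (pc := pcB3) (cut := Cut.none) (xt := Ext.none) (P1 := 536870912) (W1 := 536870912) (P2 := 0) (W2 := 536870912) (P3 := 649613803) (W3 := 48318383) (N0 := 3) (En := eng) (mo := mog) (C1 := cd0q1) (C2 := cd4q2a) (C3 := pd3)
    rfl k0_mm_123_a

noncomputable def f_mm_123_b : ℕ → ℕ → ℕ → ℕ → Bool := onCell 536870912 536870912 1239849684 370763052 649613803 48318383
    (rowB 3 eng mog cd0q1 cd4q2b pd3 0 true false false .npn 1 2 3 (qsf 536870912 536870912 1239849684 370763052 3) ndB0q1 ndB4q2b pcB3 Cut.none Ext.none)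

def k0_mm_123_b : ∃ t, chk3 f_mm_123_b t 1 1 1 = true :=
  ⟨(l 4), by decide +kernel⟩

theorem c_mm_123_b : CertB 536870912 536870912 1239849684 370763052 649613803 48318383 3 eng mog cd0q1 cd4q2b pd3 true false false .npn 1 2 3
    ndB0q1 ndB4q2b pcB3 Cut.none Ext.none :=
  certB0 (fam := true) (s1 := false) (s2 := false) (a := 1) (b := 2) (c := 3) (cn := .npn) (n1 := ndB0q1) (n2 := ndB4q2b) (pc := pcB3) (cut := Cut.none) (xt := Ext.none) (P1 := 536870912) (W1 := 536870912) (P2 := 1239849684) (W2 := 370763052) (P3 := 649613803) (W3 := 48318383) (N0 := 3) (En := eng) (mo := mog) (C1 := cd0q1) (C2 := cd4q2b) (C3 := pd3)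
    rfl k0_mm_123_b

noncomputable def f_mm_133 : ℕ → ℕ → ℕ → ℕ → Bool := onCell 536870912 536870912 1610612736 536870912 649613803 48318383
    (rowB 3 eng mog cd0q1 cd4q3 pd3 0 true false false .dn 1 3 3 (qsf 536870912 536870912 1610612736 536870912 3) ndB0q1 ndB4q3 pcB3 Cut.none Ext.none)

def k0_mm_133 : ∃ t, chk3 f_mm_133 t 1 1 1 = true :=
  ⟨(l 4), by decide +kernel⟩

theorem c_mm_133 : CertB 536870912 536870912 1610612736 536870912 649613803 48318383 3 eng mog cd0q1 cd4q3 pd3 true false false .dn 1 3 3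
    ndB0q1 ndB4q3 pcB3 Cut.none Ext.none :=
  certB0 (fam := true) (s1 := false) (s2 := false) (a := 1) (b := 3) (c := 3) (cn := .dn) (n1 := ndB0q1) (n2 := ndB4q3) (pc := pcB3) (cut := Cut.none) (xt := Ext.none) (P1 := 536870912) (W1 := 536870912) (P2 := 1610612736) (W2 := 536870912) (P3 := 649613803) (W3 := 48318383) (N0 := 3) (En := eng) (mo := mog) (C1 := cd0q1) (C2 := cd4q3) (C3 := pd3)
    rfl k0_mm_133

noncomputable def cut_mm_202 : Cut := Cut.of [[⟨0, 1, 0, 67108864⟩, ⟨1, 0, 0, 67108864⟩, ⟨2, 1, 0, 67108864⟩]]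

noncomputable def f_mm_202 : ℕ → ℕ → ℕ → ℕ → Bool := onCell 0 536870912 0 536870912 649613803 48318383
    (rowB 3 eng mog cd0q2 cd4q0 pd2 0 true false false .pp 2 0 2 (qsf 0 536870912 0 536870912 2) ndB0q2 ndB4q0 pcB2 cut_mm_202 Ext.none)

def k0_mm_202 : ∃ t, chk3 f_mm_202 t 2 2 1 = true :=
  ⟨(b (b (a (b (b (a (a (c (l 16440632) (l 16440888)) (c (l 16444432) (l 16444528))) (c (a (l 16450472) (l 16458512)) (a (l 16450456) (l 16458296)))) (a (c (b (l 16445536) (l 16451216)) (l 16508928)) (b (a (l 16451040) (l 16458752)) (l 16480600)))) (a (b (l 16457176) (l 16467424)) (a (l 16616680) (b (l 16471528) (l 16483008))))) (b (a (b (a (c (l 16468480) (l 16467832)) (b (a (l 16476376) (l 16472688)) (a (l 16476608) (l 16483712)))) (a (b (l 16468696) (l 16471432)) (b (l 16481320) (l 16483264)))) (b (a (b (a (l 16480632) (l 16499808)) (l 16495992)) (b (a (l 16509616) (c (l 16520448) (l 16521008))) (a (l 16510336) (l 16521296)))) (a (l 16519288) (b (l 16517384) (l 16519688))))) (a (b (a (l 16479872)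 (l 16490240)) (l 16497008)) (a (b (l 16546872) (l 16516424)) (b (b (l 16522696) (l 16526504)) (l 16534872)))))) (a (b (a (a (l 16479904) (l 16484984)) (l 16475392)) (a (a (l 16500824) (l 16507256)) (l 16520072))) (a (b (b (l 16509008) (l 16521272)) (l 16540624)) (b (a (l 16535320) (l 16554136)) (l 16802200))))) (a (b (b (a (l 16528136) (l 16546288)) (a (l 16554648) (l 16574928))) (b (a (l 16583152) (l 16605376)) (a (l 16613800) (l 16636720)))) (b (a (b (l 16568424) (l 16599112)) (b (l 16727768) (l 4))) (l 4)))), by decide +kernel⟩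

def k1_mm_202 : ∃ t, chk3 f_mm_202 t 3 2 1 = true :=
  ⟨(b (a (b (b (b (a (c (a (b (a (l 16532080) (l 16544648)) (l 16542704)) (b (a (l 16558104) (l 16548480)) (l 16567096))) (b (a (a (l 16533104) (l 16546192)) (a (b (l 16554800) (l 16560208)) (b (a (l 16561288) (l 16565864)) (l 16569360)))) (a (l 16539824) (l 16568032)))) (a (b (b (a (c (l 16576904) (l 16573224)) (c (l 16587936) (l 16583920))) (a (l 16581016) (l 16592152))) (a (l 16589440) (l 16601000))) (b (a (b (c (l 16599944) (l 16595720)) (l 16604328)) (b (c (l 16613072) (l 16608792)) (l 16617688))) (a (l 16613600) (l 16627368))))) (a (a (a (l 16536096) (l 16528160)) (a (l 16563040) (l 16577744))) (a (b (l 16599528) (l 16602200)) (b (l 16631072) (l 16633688))))) (a (a (b (l 16548984) (l 16705176)) (b (l 16577112) (l 16586400))) (b (a (l 16607568) (l 16639016)) (a (l 16617032) (l 16649304))))) (a (b (b (a (l 16570760) (l 16640224)) (l 16808000)) (b (l 16760056) (l 16692320))) (b (b (a (l 16629480) (l 16663840)) (a (l 16644904) (l 4)))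 (l 4)))) (b (a (b (b (a (b (b (a (b (l 16634120) (l 16627160)) (a (l 16637072) (l 16655808))) (a (l 16632360) (l 16648400))) (a (l 16642424) (l 16658840))) (b (a (b (l 6) (l 16686800)) (l 6)) (a (l 16687120) (b (l 6) (l 16699440))))) (b (a (l 16663208) (a (l 16687416) (l 16703744))) (a (l 16665648) (l 16732728)))) (b (a (b (l 16668912) (l 16673880)) (b (l 16725120) (l 4))) (a (l 16684688) (l 4)))) (b (a (b (l 6) (b (l 6) (a (l 16726904) (l 4)))) (l 6)) (l 4))) (l 4))) (l 4)), by decide +kernel⟩

def k2_mm_202 : ∃ t, chk3 f_mm_202 t 1 3 1 = true :=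
  ⟨(a (b (a (b (b (a (l 16648608) (l 4)) (l 4)) (l 4)) (l 4)) (l 4)) (l 4)), by decide +kernel⟩

theorem s3_mm_202 : ∃ t, chk3 f_mm_202 t 1 2 1 = true := ex3_a k0_mm_202 k1_mm_202

theorem s4_mm_202 : ∃ t, chk3 f_mm_202 t 1 1 1 = true := ex3_b s3_mm_202 k2_mm_202

theorem c_mm_202 : CertB 0 536870912 0 536870912 649613803 48318383 3 eng mog cd0q2 cd4q0 pd2 true false false .pp 2 0 2
    ndB0q2 ndB4q0 pcB2 cut_mm_202 Ext.none :=
  certB0 (fam := true) (s1 := false) (s2 := false) (a := 2) (b := 0) (c := 2) (cn := .pp) (n1 := ndB0q2) (n2 := ndB4q0) (pc := pcB2) (cut := cut_mm_202) (xt := Ext.none) (P1 := 0) (W1 := 536870912) (P2 := 0) (W2 := 536870912) (P3 := 649613803) (W3 := 48318383) (N0 := 3) (En := eng) (mo := mog) (C1 := cd0q2) (C2 := cd4q0) (C3 := pd2)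
    rfl s4_mm_202

noncomputable def f_mm_203 : ℕ → ℕ → ℕ → ℕ → Bool := onCell 0 536870912 1610612736 536870912 649613803 48318383
    (rowB 3 eng mog cd0q2 cd4q0 pd3 1 true false false .up 2 0 3 (qsf 0 536870912 0 536870912 3) ndB0q2 ndB4q0 pcB3 Cut.none Ext.none)

def k0_mm_203 : ∃ t, chk3 f_mm_203 t 1 1 1 = true :=
  ⟨(b (l 4) (l 2)), by decide +kernel⟩

theorem c_mm_203 : CertB 0 536870912 0 536870912 649613803 48318383 3 eng mog cd0q2 cd4q0 pd3 true false false .up 2 0 3
    ndB0q2 ndB4q0 pcB3 Cut.none Ext.none :=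
  certB1 (fam := true) (s1 := false) (s2 := false) (a := 2) (b := 0) (c := 3) (cn := .up) (n1 := ndB0q2) (n2 := ndB4q0) (pc := pcB3) (cut := Cut.none) (xt := Ext.none) (P1 := 0) (W1 := 536870912) (P2 := 0) (W2 := 536870912) (P3 := 649613803) (W3 := 48318383) (N0 := 3) (En := eng) (mo := mog) (C1 := cd0q2) (C2 := cd4q0) (C3 := pd3)
    rfl (fun _ => rfl) k0_mm_203

noncomputable def f_mm_213 : ℕ → ℕ → ℕ → ℕ → Bool := onCell 0 536870912 536870912 536870912 649613803 48318383
    (rowB 3 eng mog cd0q2 cd4q1 pd3 0 true false false .pnn 2 1 3 (qsf 0 536870912 536870912 536870912 3) ndB0q2 ndB4q1 pcB3 Cut.none Ext.none)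

def k0_mm_213 : ∃ t, chk3 f_mm_213 t 1 1 1 = true :=
  ⟨(l 4), by decide +kernel⟩

theorem c_mm_213 : CertB 0 536870912 536870912 536870912 649613803 48318383 3 eng mog cd0q2 cd4q1 pd3 true false false .pnn 2 1 3
    ndB0q2 ndB4q1 pcB3 Cut.none Ext.none :=
  certB0 (fam := true) (s1 := false) (s2 := false) (a := 2) (b := 1) (c := 3) (cn := .pnn) (n1 := ndB0q2) (n2 := ndB4q1) (pc := pcB3) (cut := Cut.none) (xt := Ext.none) (P1 := 0) (W1 := 536870912) (P2 := 536870912) (W2 := 536870912) (P3 := 649613803) (W3 := 48318383) (N0 := 3) (En := eng) (mo := mog) (C1 := cd0q2) (C2 := cd4q1) (C3 := pd3)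
    rfl k0_mm_213

end Pool.Agent.Strip051.G.I6050_6500.Tab.C.BA04

namespace Pool.Agent.Strip051.G.I6050_6500.Tab.C.BA05

open Pool.Agent.Strip051.PB Pool.Agent.Strip051.PB.T
open Pool.Agent.Strip051.G.I6050_6500.Tab

noncomputable def f_pp_001 : ℕ → ℕ → ℕ → ℕ → Bool := onCell 0 536870912 0 536870912 649613803 48318383
    (rowB 3 eng mog cd0q0 cd5q0 pd1 0 true true true .up 0 0 1 (qsf 0 536870912 0 536870912 1) ndB0q0 ndB5q0 pcB1 Cut.none Ext.none)

def k0_pp_001 : ∃ t, chk3 f_pp_001 t 1 1 1 = true :=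
  ⟨(l 4), by decide +kernel⟩

theorem c_pp_001 : CertB 0 536870912 0 536870912 649613803 48318383 3 eng mog cd0q0 cd5q0 pd1 true true true .up 0 0 1
    ndB0q0 ndB5q0 pcB1 Cut.none Ext.none :=
  certB0 (fam := true) (s1 := true) (s2 := true) (a := 0) (b := 0) (c := 1) (cn := .up) (n1 := ndB0q0) (n2 := ndB5q0) (pc := pcB1) (cut := Cut.none) (xt := Ext.none) (P1 := 0) (W1 := 536870912) (P2 := 0) (W2 := 536870912) (P3 := 649613803) (W3 := 48318383) (N0 := 3) (En := eng) (mo := mog) (C1 := cd0q0) (C2 := cd5q0) (C3 := pd1)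
    rfl k0_pp_001

noncomputable def f_pp_011 : ℕ → ℕ → ℕ → ℕ → Bool := onCell 0 536870912 536870912 536870912 649613803 48318383
    (rowB 3 eng mog cd0q0 cd5q1 pd1 0 true true true .pnn 0 1 1 (qsf 0 536870912 536870912 536870912 1) ndB0q0 ndB5q1 pcB1 Cut.none Ext.none)

def k0_pp_011 : ∃ t, chk3 f_pp_011 t 1 1 1 = true :=
  ⟨(l 4), by decide +kernel⟩

theorem c_pp_011 : CertB 0 536870912 536870912 536870912 649613803 48318383 3 eng mog cd0q0 cd5q1 pd1 true true true .pnn 0 1 1
    ndB0q0 ndB5q1 pcB1 Cut.none Ext.none :=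
  certB0 (fam := true) (s1 := true) (s2 := true) (a := 0) (b := 1) (c := 1) (cn := .pnn) (n1 := ndB0q0) (n2 := ndB5q1) (pc := pcB1) (cut := Cut.none) (xt := Ext.none) (P1 := 0) (W1 := 536870912) (P2 := 536870912) (W2 := 536870912) (P3 := 649613803) (W3 := 48318383) (N0 := 3) (En := eng) (mo := mog) (C1 := cd0q0) (C2 := cd5q1) (C3 := pd1)
    rfl k0_pp_011

noncomputable def f_pp_012 : ℕ → ℕ → ℕ → ℕ → Bool := onCell 0 536870912 536870912 536870912 649613803 48318383
    (rowB 3 eng mog cd0q0 cd5q1 pd2 0 true true true .pnp 0 1 2 (qsf 0 536870912 536870912 536870912 2) ndB0q0 ndB5q1 pcB2 Cut.none Ext.none)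

def k0_pp_012 : ∃ t, chk3 f_pp_012 t 1 1 1 = true :=
  ⟨(l 4), by decide +kernel⟩

theorem c_pp_012 : CertB 0 536870912 536870912 536870912 649613803 48318383 3 eng mog cd0q0 cd5q1 pd2 true true true .pnp 0 1 2
    ndB0q0 ndB5q1 pcB2 Cut.none Ext.none :=
  certB0 (fam := true) (s1 := true) (s2 := true) (a := 0) (b := 1) (c := 2) (cn := .pnp) (n1 := ndB0q0) (n2 := ndB5q1) (pc := pcB2) (cut := Cut.none) (xt := Ext.none) (P1 := 0) (W1 := 536870912) (P2 := 536870912) (W2 := 536870912) (P3 := 649613803) (W3 := 48318383) (N0 := 3) (En := eng) (mo := mog) (C1 := cd0q0) (C2 := cd5q1) (C3 := pd2)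
    rfl k0_pp_012

noncomputable def f_pp_022 : ℕ → ℕ → ℕ → ℕ → Bool := onCell 0 536870912 1073741824 536870912 649613803 48318383
    (rowB 3 eng mog cd0q0 cd5q2 pd2 0 true true true .pp 0 2 2 (qsf 0 536870912 1073741824 536870912 2) ndB0q0 ndB5q2 pcB2 Cut.none Ext.none)

def k0_pp_022 : ∃ t, chk3 f_pp_022 t 1 1 1 = true :=
  ⟨(l 4), by decide +kernel⟩

theorem c_pp_022 : CertB 0 536870912 1073741824 536870912 649613803 48318383 3 eng mog cd0q0 cd5q2 pd2 true true true .pp 0 2 2
    ndB0q0 ndB5q2 pcB2 Cut.none Ext.none :=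
  certB0 (fam := true) (s1 := true) (s2 := true) (a := 0) (b := 2) (c := 2) (cn := .pp) (n1 := ndB0q0) (n2 := ndB5q2) (pc := pcB2) (cut := Cut.none) (xt := Ext.none) (P1 := 0) (W1 := 536870912) (P2 := 1073741824) (W2 := 536870912) (P3 := 649613803) (W3 := 48318383) (N0 := 3) (En := eng) (mo := mog) (C1 := cd0q0) (C2 := cd5q2) (C3 := pd2)
    rfl k0_pp_022

noncomputable def f_pp_023 : ℕ → ℕ → ℕ → ℕ → Bool := onCell 0 536870912 1073741824 536870912 649613803 48318383
    (rowB 3 eng mog cd0q0 cd5q2 pd3 0 true true true .up 0 2 3 (qsf 0 536870912 1073741824 536870912 3) ndB0q0 ndB5q2 pcB3 Cut.none Ext.none)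

def k0_pp_023 : ∃ t, chk3 f_pp_023 t 1 1 1 = true :=
  ⟨(l 4), by decide +kernel⟩

theorem c_pp_023 : CertB 0 536870912 1073741824 536870912 649613803 48318383 3 eng mog cd0q0 cd5q2 pd3 true true true .up 0 2 3
    ndB0q0 ndB5q2 pcB3 Cut.none Ext.none :=
  certB0 (fam := true) (s1 := true) (s2 := true) (a := 0) (b := 2) (c := 3) (cn := .up) (n1 := ndB0q0) (n2 := ndB5q2) (pc := pcB3) (cut := Cut.none) (xt := Ext.none) (P1 := 0) (W1 := 536870912) (P2 := 1073741824) (W2 := 536870912) (P3 := 649613803) (W3 := 48318383) (N0 := 3) (En := eng) (mo := mog) (C1 := cd0q0) (C2 := cd5q2) (C3 := pd3)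
    rfl k0_pp_023

noncomputable def f_pp_033 : ℕ → ℕ → ℕ → ℕ → Bool := onCell 0 536870912 0 1230186008 649613803 48318383
    (rowB 3 eng mog cd0q0 cd5q3 pd3 0 true true true .pnn 0 3 3 (qsf 0 536870912 0 1230186008 3) ndB0q0 ndB5q3 pcB3 Cut.none Ext.none)

def k0_pp_033 : ∃ t, chk3 f_pp_033 t 1 1 1 = true :=
  ⟨(b (l 4) (l 4)), by decide +kernel⟩

theorem c_pp_033 : CertB 0 536870912 0 1230186008 649613803 48318383 3 eng mog cd0q0 cd5q3 pd3 true true true .pnn 0 3 3
    ndB0q0 ndB5q3 pcB3 Cut.none Ext.none :=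
  certB0 (fam := true) (s1 := true) (s2 := true) (a := 0) (b := 3) (c := 3) (cn := .pnn) (n1 := ndB0q0) (n2 := ndB5q3) (pc := pcB3) (cut := Cut.none) (xt := Ext.none) (P1 := 0) (W1 := 536870912) (P2 := 0) (W2 := 1230186008) (P3 := 649613803) (W3 := 48318383) (N0 := 3) (En := eng) (mo := mog) (C1 := cd0q0) (C2 := cd5q3) (C3 := pd3)
    rfl k0_pp_033

noncomputable def f_pp_101 : ℕ → ℕ → ℕ → ℕ → Bool := onCell 536870912 536870912 0 536870912 649613803 48318383
    (rowB 3 eng mog cd0q1 cd5q0 pd1 0 true true true .npn 1 0 1 (qsf 536870912 536870912 0 536870912 1) ndB0q1 ndB5q0 pcB1 Cut.none Ext.none)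

def k0_pp_101 : ∃ t, chk3 f_pp_101 t 1 1 1 = true :=
  ⟨(l 4), by decide +kernel⟩

theorem c_pp_101 : CertB 536870912 536870912 0 536870912 649613803 48318383 3 eng mog cd0q1 cd5q0 pd1 true true true .npn 1 0 1
    ndB0q1 ndB5q0 pcB1 Cut.none Ext.none :=
  certB0 (fam := true) (s1 := true) (s2 := true) (a := 1) (b := 0) (c := 1) (cn := .npn) (n1 := ndB0q1) (n2 := ndB5q0) (pc := pcB1) (cut := Cut.none) (xt := Ext.none) (P1 := 536870912) (W1 := 536870912) (P2 := 0) (W2 := 536870912) (P3 := 649613803) (W3 := 48318383) (N0 := 3) (En := eng) (mo := mog) (C1 := cd0q1) (C2 := cd5q0) (C3 := pd1)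
    rfl k0_pp_101

noncomputable def f_pp_102 : ℕ → ℕ → ℕ → ℕ → Bool := onCell 536870912 536870912 0 536870912 649613803 48318383
    (rowB 3 eng mog cd0q1 cd5q0 pd2 0 true true true .npp 1 0 2 (qsf 536870912 536870912 0 536870912 2) ndB0q1 ndB5q0 pcB2 Cut.none Ext.none)

def k0_pp_102 : ∃ t, chk3 f_pp_102 t 1 1 1 = true :=
  ⟨(l 4), by decide +kernel⟩

theorem c_pp_102 : CertB 536870912 536870912 0 536870912 649613803 48318383 3 eng mog cd0q1 cd5q0 pd2 true true true .npp 1 0 2
    ndB0q1 ndB5q0 pcB2 Cut.none Ext.none :=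
  certB0 (fam := true) (s1 := true) (s2 := true) (a := 1) (b := 0) (c := 2) (cn := .npp) (n1 := ndB0q1) (n2 := ndB5q0) (pc := pcB2) (cut := Cut.none) (xt := Ext.none) (P1 := 536870912) (W1 := 536870912) (P2 := 0) (W2 := 536870912) (P3 := 649613803) (W3 := 48318383) (N0 := 3) (En := eng) (mo := mog) (C1 := cd0q1) (C2 := cd5q0) (C3 := pd2)
    rfl k0_pp_102

noncomputable def f_pp_112 : ℕ → ℕ → ℕ → ℕ → Bool := onCell 536870912 536870912 536870912 536870912 649613803 48318383
    (rowB 3 eng mog cd0q1 cd5q1 pd2 0 true true true .dn 1 1 2 (qsf 536870912 536870912 536870912 536870912 2) ndB0q1 ndB5q1 pcB2 Cut.none Ext.none)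

def k0_pp_112 : ∃ t, chk3 f_pp_112 t 1 1 1 = true :=
  ⟨(l 4), by decide +kernel⟩

theorem c_pp_112 : CertB 536870912 536870912 536870912 536870912 649613803 48318383 3 eng mog cd0q1 cd5q1 pd2 true true true .dn 1 1 2
    ndB0q1 ndB5q1 pcB2 Cut.none Ext.none :=
  certB0 (fam := true) (s1 := true) (s2 := true) (a := 1) (b := 1) (c := 2) (cn := .dn) (n1 := ndB0q1) (n2 := ndB5q1) (pc := pcB2) (cut := Cut.none) (xt := Ext.none) (P1 := 536870912) (W1 := 536870912) (P2 := 536870912) (W2 := 536870912) (P3 := 649613803) (W3 := 48318383) (N0 := 3) (En := eng) (mo := mog) (C1 := cd0q1) (C2 := cd5q1) (C3 := pd2)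
    rfl k0_pp_112

noncomputable def f_pp_113 : ℕ → ℕ → ℕ → ℕ → Bool := onCell 536870912 536870912 536870912 536870912 649613803 48318383
    (rowB 3 eng mog cd0q1 cd5q1 pd3 0 true true true .nn 1 1 3 (qsf 536870912 536870912 536870912 536870912 3) ndB0q1 ndB5q1 pcB3 Cut.none Ext.none)

def k0_pp_113 : ∃ t, chk3 f_pp_113 t 1 1 1 = true :=
  ⟨(l 4), by decide +kernel⟩

theorem c_pp_113 : CertB 536870912 536870912 536870912 536870912 649613803 48318383 3 eng mog cd0q1 cd5q1 pd3 true true true .nn 1 1 3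
    ndB0q1 ndB5q1 pcB3 Cut.none Ext.none :=
  certB0 (fam := true) (s1 := true) (s2 := true) (a := 1) (b := 1) (c := 3) (cn := .nn) (n1 := ndB0q1) (n2 := ndB5q1) (pc := pcB3) (cut := Cut.none) (xt := Ext.none) (P1 := 536870912) (W1 := 536870912) (P2 := 536870912) (W2 := 536870912) (P3 := 649613803) (W3 := 48318383) (N0 := 3) (En := eng) (mo := mog) (C1 := cd0q1) (C2 := cd5q1) (C3 := pd3)
    rfl k0_pp_113

noncomputable def f_pp_123 : ℕ → ℕ → ℕ → ℕ → Bool := onCell 536870912 536870912 1073741824 536870912 649613803 48318383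
    (rowB 3 eng mog cd0q1 cd5q2 pd3 0 true true true .npn 1 2 3 (qsf 536870912 536870912 1073741824 536870912 3) ndB0q1 ndB5q2 pcB3 Cut.none Ext.none)

def k0_pp_123 : ∃ t, chk3 f_pp_123 t 1 1 1 = true :=
  ⟨(l 4), by decide +kernel⟩

theorem c_pp_123 : CertB 536870912 536870912 1073741824 536870912 649613803 48318383 3 eng mog cd0q1 cd5q2 pd3 true true true .npn 1 2 3
    ndB0q1 ndB5q2 pcB3 Cut.none Ext.none :=
  certB0 (fam := true) (s1 := true) (s2 := true) (a := 1) (b := 2) (c := 3) (cn := .npn) (n1 := ndB0q1) (n2 := ndB5q2) (pc := pcB3) (cut := Cut.none) (xt := Ext.none) (P1 := 536870912) (W1 := 536870912) (P2 := 1073741824) (W2 := 536870912) (P3 := 649613803) (W3 := 48318383) (N0 := 3) (En := eng) (mo := mog) (C1 := cd0q1) (C2 := cd5q2) (C3 := pd3)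
    rfl k0_pp_123

noncomputable def f_pp_133 : ℕ → ℕ → ℕ → ℕ → Bool := onCell 536870912 536870912 0 1230186008 649613803 48318383
    (rowB 3 eng mog cd0q1 cd5q3 pd3 0 true true true .dn 1 3 3 (qsf 536870912 536870912 0 1230186008 3) ndB0q1 ndB5q3 pcB3 Cut.none Ext.none)

def k0_pp_133 : ∃ t, chk3 f_pp_133 t 1 1 1 = true :=
  ⟨(l 4), by decide +kernel⟩

theorem c_pp_133 : CertB 536870912 536870912 0 1230186008 649613803 48318383 3 eng mog cd0q1 cd5q3 pd3 true true true .dn 1 3 3
    ndB0q1 ndB5q3 pcB3 Cut.none Ext.none :=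
  certB0 (fam := true) (s1 := true) (s2 := true) (a := 1) (b := 3) (c := 3) (cn := .dn) (n1 := ndB0q1) (n2 := ndB5q3) (pc := pcB3) (cut := Cut.none) (xt := Ext.none) (P1 := 536870912) (W1 := 536870912) (P2 := 0) (W2 := 1230186008) (P3 := 649613803) (W3 := 48318383) (N0 := 3) (En := eng) (mo := mog) (C1 := cd0q1) (C2 := cd5q3) (C3 := pd3)
    rfl k0_pp_133

noncomputable def f_pp_202 : ℕ → ℕ → ℕ → ℕ → Bool := onCell 0 536870912 0 536870912 649613803 48318383
    (rowB 3 eng mog cd0q2 cd5q0 pd2 0 true true true .pp 2 0 2 (qsf 0 536870912 0 536870912 2) ndB0q2 ndB5q0 pcB2 Cut.none Ext.none)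

def k0_pp_202 : ∃ t, chk3 f_pp_202 t 1 1 1 = true :=
  ⟨(l 5), by decide +kernel⟩

theorem c_pp_202 : CertB 0 536870912 0 536870912 649613803 48318383 3 eng mog cd0q2 cd5q0 pd2 true true true .pp 2 0 2
    ndB0q2 ndB5q0 pcB2 Cut.none Ext.none :=
  certB0 (fam := true) (s1 := true) (s2 := true) (a := 2) (b := 0) (c := 2) (cn := .pp) (n1 := ndB0q2) (n2 := ndB5q0) (pc := pcB2) (cut := Cut.none) (xt := Ext.none) (P1 := 0) (W1 := 536870912) (P2 := 0) (W2 := 536870912) (P3 := 649613803) (W3 := 48318383) (N0 := 3) (En := eng) (mo := mog) (C1 := cd0q2) (C2 := cd5q0) (C3 := pd2)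
    rfl k0_pp_202

noncomputable def f_pp_203 : ℕ → ℕ → ℕ → ℕ → Bool := onCell 0 536870912 0 536870912 649613803 48318383
    (rowB 3 eng mog cd0q2 cd5q0 pd3 0 true true true .up 2 0 3 (qsf 0 536870912 0 536870912 3) ndB0q2 ndB5q0 pcB3 Cut.none Ext.none)

def k0_pp_203 : ∃ t, chk3 f_pp_203 t 1 1 1 = true :=
  ⟨(l 5), by decide +kernel⟩

theorem c_pp_203 : CertB 0 536870912 0 536870912 649613803 48318383 3 eng mog cd0q2 cd5q0 pd3 true true true .up 2 0 3
    ndB0q2 ndB5q0 pcB3 Cut.none Ext.none :=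
  certB0 (fam := true) (s1 := true) (s2 := true) (a := 2) (b := 0) (c := 3) (cn := .up) (n1 := ndB0q2) (n2 := ndB5q0) (pc := pcB3) (cut := Cut.none) (xt := Ext.none) (P1 := 0) (W1 := 536870912) (P2 := 0) (W2 := 536870912) (P3 := 649613803) (W3 := 48318383) (N0 := 3) (En := eng) (mo := mog) (C1 := cd0q2) (C2 := cd5q0) (C3 := pd3)
    rfl k0_pp_203

noncomputable def f_pp_213 : ℕ → ℕ → ℕ → ℕ → Bool := onCell 0 536870912 536870912 536870912 649613803 48318383
    (rowB 3 eng mog cd0q2 cd5q1 pd3 0 true true true .pnn 2 1 3 (qsf 0 536870912 536870912 536870912 3) ndB0q2 ndB5q1 pcB3 Cut.none Ext.none)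

def k0_pp_213 : ∃ t, chk3 f_pp_213 t 1 1 1 = true :=
  ⟨(l 4), by decide +kernel⟩

theorem c_pp_213 : CertB 0 536870912 536870912 536870912 649613803 48318383 3 eng mog cd0q2 cd5q1 pd3 true true true .pnn 2 1 3
    ndB0q2 ndB5q1 pcB3 Cut.none Ext.none :=
  certB0 (fam := true) (s1 := true) (s2 := true) (a := 2) (b := 1) (c := 3) (cn := .pnn) (n1 := ndB0q2) (n2 := ndB5q1) (pc := pcB3) (cut := Cut.none) (xt := Ext.none) (P1 := 0) (W1 := 536870912) (P2 := 536870912) (W2 := 536870912) (P3 := 649613803) (W3 := 48318383) (N0 := 3) (En := eng) (mo := mog) (C1 := cd0q2) (C2 := cd5q1) (C3 := pd3)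
    rfl k0_pp_213

noncomputable def xt_pm_001 : Ext := extD2 3 ⟨7, 3, 3, 10, 377, 200, 77, 100, 17, 50, 3, 16⟩ eng cd0q0 cd5q0 pd1 true true false .up 0 0 1 rfl ndB0q0 ndB5q0 pcB1

noncomputable def f_pm_001 : ℕ → ℕ → ℕ → ℕ → Bool := onCell 0 536870912 0 536870912 649613803 48318383
    (rowB 3 eng mog cd0q0 cd5q0 pd1 0 true true false .up 0 0 1 (qsf 0 536870912 0 536870912 1) ndB0q0 ndB5q0 pcB1 Cut.none xt_pm_001)

def k0_pm_001 : ∃ t, chk3 f_pm_001 t 1 1 1 = true :=
  ⟨(a (l 3) (b (l 3) (b (l 3) (a (l 3) (b (l 3) (a (l 3) (a (b (l 3) (b (l 3) (a (l 3) (b (l 3) (a (l 3) (c (l 1143643825496757538358378543) (l 95193176151))))))) (b (b (l 3) (a (l 3) (b (a (l 3) (c (l 1269372110737126886185549871) (l 141493367597203503))) (a (c (l 1298386330407791399818756143) (l 141256285347790895)) (c (l 1375757582862783176215953455) (l 140787412309639215)))))) (a (b (a (a (l 3) (b (l 3) (l 727773343549541706088513583))) (b (c (l 969558507472560862114201647) (l 141214916213981231)) (c (l 1308057736964257083617984559)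 (l 140721510316392495)))) (a (c (b (l 1182329451724427596100386863) (l 140557957950930991)) (b (l 140709553123885103) (l 16380600))) (b (l 140677804700074031) (l 16367808)))) (b (b (a (c (l 1578857120557799878346031151) (l 140746799089975343)) (l 140554040934973487)) (a (l 140518650396835887) (l 16371040))) (b (l 140807134684921903) (l 16333256)))))))))))), by decide +kernel⟩

theorem c_pm_001 : CertB 0 536870912 0 536870912 649613803 48318383 3 eng mog cd0q0 cd5q0 pd1 true true false .up 0 0 1
    ndB0q0 ndB5q0 pcB1 Cut.none xt_pm_001 :=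
  certB0 (fam := true) (s1 := true) (s2 := false) (a := 0) (b := 0) (c := 1) (cn := .up) (n1 := ndB0q0) (n2 := ndB5q0) (pc := pcB1) (cut := Cut.none) (xt := xt_pm_001) (P1 := 0) (W1 := 536870912) (P2 := 0) (W2 := 536870912) (P3 := 649613803) (W3 := 48318383) (N0 := 3) (En := eng) (mo := mog) (C1 := cd0q0) (C2 := cd5q0) (C3 := pd1)
    rfl k0_pm_001

noncomputable def cut_pm_011 : Cut := Cut.of [[⟨0, 0, 0, 67108864⟩, ⟨1, 1, 0, 67108864⟩, ⟨2, 1, 0, 67108864⟩]]

noncomputable def f_pm_011 : ℕ → ℕ → ℕ → ℕ → Bool := onCell 0 536870912 536870912 536870912 649613803 48318383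
    (rowB 3 eng mog cd0q0 cd5q1 pd1 1 true true false .pnn 0 1 1 (qsf 0 536870912 536870912 536870912 1) ndB0q0 ndB5q1 pcB1 cut_pm_011 Ext.none)

def k0_pm_011 : ∃ t, chk3 f_pm_011 t 1 2 1 = true :=
  ⟨(l 3), by decide +kernel⟩

def k1_pm_011 : ∃ t, chk3 f_pm_011 t 1 6 1 = true :=
  ⟨(l 3), by decide +kernel⟩

def k2_pm_011 : ∃ t, chk3 f_pm_011 t 1 14 1 = true :=
  ⟨(l 3), by decide +kernel⟩

def k3_pm_011 : ∃ t, chk3 f_pm_011 t 1 30 1 = true :=
  ⟨(a (l 3) (b (l 3) (b (a (l 3) (a (l 3) (a (l 3) (l 1)))) (a (a (l 3) (a (l 3) (a (l 3) (l 16443088)))) (a (a (a (l 16448904) (l 16414208)) (a (l 16423328) (l 16392136))) (a (a (l 16382320) (l 16393320)) (a (l 192232544647) (l 1)))))))), by decide +kernel⟩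

def k4_pm_011 : ∃ t, chk3 f_pm_011 t 1 62 1 = true :=
  ⟨(a (a (l 3) (b (l 3) (a (a (l 3) (a (l 3) (l 87140589543))) (a (a (l 84993075127) (l 83382429447)) (a (l 16568480) (l 16551808)))))) (a (a (a (a (b (l 3) (l 16534712)) (b (l 16533488) (l 16517168))) (b (a (l 16515200) (l 16496696)) (a (l 16499248) (l 16481032)))) (a (b (a (l 16478272) (l 16460192)) (a (l 16462776) (l 16444824))) (b (a (l 16442776) (l 16426416)) (l 16461032)))) (a (a (a (l 16445328) (l 16389440)) (a (l 16377232) (l 16366560))) (a (a (l 16356312) (b (l 16354688) (l 16337232))) (a (l 83784583623) (l 197064315879)))))), by decide +kernel⟩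

def k5_pm_011 : ∃ t, chk3 f_pm_011 t 1 63 1 = true :=
  ⟨(a (a (a (a (l 6) (b (l 3) (a (l 6) (b (b (l 3) (a (l 6) (a (b (l 81772040743) (l 16717576)) (a (l 80698289447) (l 16713008))))) (a (l 6) (b (c (l 16713800) (l 16710824)) (l 16708392))))))) (b (b (l 3) (a (a (l 3) (a (l 3) (c (l 73182062743) (l 123111035831)))) (a (a (c (l 57075929575) (l 74255787335)) (l 67813323431)) (a (l 16667144) (l 16659000))))) (a (a (b (a (a (b (l 111299921111) (l 75866442919)) (b (c (l 16716368) (l 86066987287)) (l 16705304))) (b (a (l 79624530407) (l 79087650439)) (l 16709280))) (a (b (l 16703504) (l 16699520)) (b (l 16694800) (l 16690800)))) (b (a (b (c (l 16696104) (l 16702752)) (l 16690216)) (c (l 16685688) (l 16681672))) (a (l 16694696) (l 16675728)))) (a (b (a (l 16675400) (l 16667144)) (l 16678936)) (b (l 16675888) (l 16646848)))))) (a (a (b (a (b (l 262160559335) (l 16646944)) (b (l 16660392) (l 16631128))) (a (b (l 16638864) (l 16630792)) (l 16619048))) (a (b (a (l 16623080) (l 16614520)) (l 16624176))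 (b (l 16601784) (l 16586504)))) (a (b (a (l 16585232) (l 16568928)) (a (l 16569856) (l 16553512))) (a (b (l 16552640) (l 16537256)) (b (l 16536176) (l 16520872)))))) (a (a (a (a (b (l 16519304) (l 16504144)) (l 16536360)) (a (l 16476720) (l 16458680))) (a (a (l 16440480) (l 16422472)) (l 16417488))) (a (a (a (l 16372504) (l 16357952)) (a (l 16344984) (l 16333464))) (a (a (l 16322432) (l 16311400)) (a (l 16300040) (l 16288064)))))), by decide +kernel⟩

theorem s6_pm_011 : ∃ t, chk3 f_pm_011 t 1 31 1 = true := ex3_b k4_pm_011 k5_pm_011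

theorem s7_pm_011 : ∃ t, chk3 f_pm_011 t 1 15 1 = true := ex3_b k3_pm_011 s6_pm_011

theorem s8_pm_011 : ∃ t, chk3 f_pm_011 t 1 7 1 = true := ex3_b k2_pm_011 s7_pm_011

theorem s9_pm_011 : ∃ t, chk3 f_pm_011 t 1 3 1 = true := ex3_b k1_pm_011 s8_pm_011

theorem s10_pm_011 : ∃ t, chk3 f_pm_011 t 1 1 1 = true := ex3_b k0_pm_011 s9_pm_011

theorem c_pm_011 : CertB 0 536870912 536870912 536870912 649613803 48318383 3 eng mog cd0q0 cd5q1 pd1 true true false .pnn 0 1 1
    ndB0q0 ndB5q1 pcB1 cut_pm_011 Ext.none :=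
  certB1 (fam := true) (s1 := true) (s2 := false) (a := 0) (b := 1) (c := 1) (cn := .pnn) (n1 := ndB0q0) (n2 := ndB5q1) (pc := pcB1) (cut := cut_pm_011) (xt := Ext.none) (P1 := 0) (W1 := 536870912) (P2 := 536870912) (W2 := 536870912) (P3 := 649613803) (W3 := 48318383) (N0 := 3) (En := eng) (mo := mog) (C1 := cd0q0) (C2 := cd5q1) (C3 := pd1)
    rfl (fun _ => rfl) s10_pm_011

noncomputable def cut_pm_012 : Cut := Cut.of [[⟨0, 0, 0, 67108864⟩, ⟨1, 1, 0, 67108864⟩, ⟨2, 1, 0, 67108864⟩]]

noncomputable def f_pm_012 : ℕ → ℕ → ℕ → ℕ → Bool := onCell 1073741824 536870912 536870912 536870912 649613803 48318383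
    (rowB 3 eng mog cd0q0 cd5q1 pd2 2 true true false .pnp 0 1 2 (qsf 0 536870912 536870912 536870912 2) ndB0q0 ndB5q1 pcB2 cut_pm_012 Ext.none)

def k0_pm_012 : ∃ t, chk3 f_pm_012 t 4 2 1 = true :=
  ⟨(b (a (b (a (a (b (b (l 16248320) (l 16261200)) (b (l 16273352) (l 16285120))) (b (l 16240624) (l 16246016))) (b (l 16181872) (l 16295224))) (a (b (a (b (l 16296784) (l 16329584)) (l 16269864)) (b (l 16388808) (l 16403000))) (b (l 16257976) (a (l 16271560) (l 16248088))))) (b (a (b (l 2) (l 16140216)) (l 2)) (a (b (l 16176624) (l 16192264)) (b (l 16116192) (a (l 16178432) (l 16156056)))))) (a (b (a (a (b (l 16380872) (l 16438584)) (b (l 16335560) (l 16370704))) (b (b (l 16289784) (l 16286256)) (b (l 16407656) (l 16401448)))) (a (a (b (a (l 16440792) (l 16424656)) (a (l 16476496) (l 16458648))) (b (l 16402728) (l 16433856))) (a (b (l 16373576) (l 16422112)) (b (l 16344680) (l 16369112))))) (b (a (b (a (l 16260832) (l 16234928)) (a (l 16290976) (l 16264336))) (b (l 16281080) (a (l 16237472)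 (l 16210648)))) (b (a (a (l 16316248) (l 16288176)) (a (l 16260176) (l 16232928))) (a (a (l 16337984) (l 16307728)) (a (l 16278392) (l 16249976))))))), by decide +kernel⟩

def k1_pm_012 : ∃ t, chk3 f_pm_012 t 8 3 1 = true :=
  ⟨(b (b (a (a (b (b (l 16493376) (l 16510064)) (a (b (l 16535128) (l 16551640)) (l 16526056))) (b (l 16465240) (l 16496984))) (b (a (l 16470496) (l 16392776)) (a (l 16519088) (l 16437480)))) (a (a (b (a (a (b (l 16572728) (l 16589352)) (l 16572360)) (l 16580160)) (a (b (l 16611224) (a (l 16620984) (l 16612256))) (l 16601528))) (b (l 16591224) (l 16603344))) (b (a (a (l 16536816) (l 16472904)) (l 16482488)) (a (l 16535016) (l 16509752))))) (b (a (a (b (a (a (b (l 16637168) (l 16674648)) (b (l 16628376) (l 16644816))) (b (l 16615032) (l 16631368))) (a (b (a (a (l 16693760) (l 16668328)) (l 16661608)) (a (b (l 16683512) (l 16702776)) (l 16689312))) (b (l 16648032) (l 16665096)))) (a (b (l 16625912) (a (l 16642648) (l 16630800))) (b (l 16581272) (l 16632032)))) (b (b (a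 (l 16557640) (l 16488512)) (a (l 16572160) (l 16501872))) (a (b (l 16607152) (a (l 16591728) (l 16565608))) (b (l 16514712) (l 16527016))))) (a (b (b (b (a (a (a (a (l 16703496) (l 16698936)) (l 16692064)) (l 16678192)) (l 16662920)) (a (a (a (l 6) (l 16701072)) (l 16687088)) (a (l 16662496) (l 16635128)))) (a (a (l 6) (b (l 16696144) (l 6))) (a (c (l 16683520) (l 16682560)) (b (l 16641640) (l 16647952))))) (a (l 6) (b (a (l 6) (b (l 16654056) (l 6))) (l 6)))) (b (b (a (a (l 16604848) (l 16578160)) (l 16559664)) (a (a (b (l 16614256) (l 16620312)) (l 16590064)) (a (l 16563120) (l 16536480)))) (b (a (a (b (l 16626176) (l 16631824)) (b (l 16598528) (l 16603936))) (b (l 16578576) (a (l 16576328) (l 16548992)))) (a (b (a (l 6) (l 16609128)) (l 6)) (b (a (l 16581272) (l 16553688)) (a (l 16604352) (l 16558176))))))))), by decide +kernel⟩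

def k2_pm_012 : ∃ t, chk3 f_pm_012 t 9 3 1 = true :=
  ⟨(b (b (a (b (a (l 16358280) (l 16325072)) (a (l 16378304) (l 16341512))) (b (a (l 16293240) (l 16262824)) (a (l 16306504) (l 16273280)))) (a (a (b (l 16461496) (l 16443864)) (b (l 16379208) (l 16379360))) (a (b (l 16319744) (l 16337480)) (b (l 16283088) (l 16297560))))) (b (b (a (a (l 16468624) (l 16422352)) (a (l 16356632) (l 16313520))) (a (a (b (l 16465392) (l 16476552)) (b (l 16417280) (l 16427312))) (a (b (l 16370488) (l 16379328)) (b (l 16325248) (l 16332728))))) (b (a (a (b (l 16487120) (l 16518008)) (b (l 16436752) (l 16445552))) (a (b (l 16387632) (l 16395288)) (b (l 16339792) (l 16346264)))) (a (b (a (b (l 16504040) (l 16508496)) (b (l 16451688) (l 16455576))) (a (b (l 16533736) (a (l 16530568) (l 16503248))) (b (l 16480264) (a (l 16476248) (l 16449488))))) (b (a (a (l 16415016) (l 16389616)) (a (l 16364504) (l 16339712))) (a (b (l 16406992) (a (l 16423072) (l 16396920))) (a (l 16369856) (l 16365408)))))))), by decide +kernel⟩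

def k3_pm_012 : ∃ t, chk3 f_pm_012 t 5 2 1 = true :=
  ⟨(b (a (a (a (b (l 2) (l 16183496)) (l 2)) (l 2)) (l 2)) (a (b (a (a (l 16361464) (a (l 16154912) (a (l 16147360) (l 16314152)))) (a (l 16213568) (l 16120512))) (a (a (b (l 16206192) (l 16222344)) (a (l 16258320) (a (l 16186648) (b (l 16176104) (l 16191176))))) (b (l 16150872) (l 16227416)))) (b (a (l 16126296) (l 2)) (a (l 16245040) (l 16134320))))), by decide +kernel⟩

def k4_pm_012 : ∃ t, chk3 f_pm_012 t 5 3 1 = true :=
  ⟨(b (a (b (a (a (b (l 16233936) (l 16242016)) (a (b (l 16213424) (l 16219984)) (a (l 16228416) (b (l 16200824) (l 16205776))))) (b (l 16256696) (l 16322960))) (a (a (b (l 16248744) (l 16259912)) (a (b (l 16224600) (l 16233224)) (b (a (l 16213440) (a (l 16208584) (l 16206176))) (a (l 16220792) (a (l 16215160) (l 16212080)))))) (b (a (l 16188808) (l 16163576)) (a (l 16193312) (l 16164624))))) (b (a (b (l 16144048) (l 16141088)) (b (l 16125112) (l 16115648))) (b (a (l 16134320) (l 16102616)) (a (l 16129608) (l 16091776)))))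 (a (b (a (a (b (l 16356280) (b (l 16281776) (l 16287760))) (a (b (l 16243120) (l 16252952)) (b (a (l 16229224) (a (l 16222720) (l 16218856))) (a (l 16237560) (a (l 16230120) (l 16225376)))))) (b (a (l 16198432) (l 16165704)) (a (l 16224040) (l 16166168)))) (a (a (b (b (l 16293376) (l 16298520)) (b (a (l 16315208) (l 16291000)) (a (l 16340264) (l 16294416)))) (a (b (l 16303688) (b (l 16267032) (l 16311632))) (b (a (l 16244912) (a (l 16236512) (b (l 16229608) (l 16231928)))) (a (b (l 16249160) (l 16251136)) (a (b (l 16240056) (l 16241552)) (b (l 16233672) (c (l 16309944) (l 16222184)))))))) (b (a (b (l 16206064) (l 16207568)) (l 16165872)) (a (b (l 16208520) (a (l 16220216) (l 16197496))) (b (l 16164632) (l 16163112)))))) (b (b (a (b (l 16125696) (l 16122616)) (l 16141912)) (a (b (l 16119248) (l 16115680)) (b (l 16067824) (l 16059728)))) (b (a (b (l 16111824) (a (l 16126240) (l 16090104))) (b (l 16051200) (a (l 16057368) (l 16028112)))) (a (b (a (l 16123008) (l 16084512)) (a (l 16119304)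 (l 16078512))) (b (a (l 16049328) (l 16017664)) (a (l 16040968) (l 16027832)))))))), by decide +kernel⟩

def k5_pm_012 : ∃ t, chk3 f_pm_012 t 3 1 1 = true :=
  ⟨(b (a (b (l 2) (a (b (l 2) (a (l 16137672) (l 2))) (l 2))) (l 2)) (b (a (a (b (a (l 16107048) (l 16103272)) (b (a (l 16079136) (l 16064192)) (a (l 16062784) (l 16042584)))) (b (a (l 16111424) (l 2)) (a (b (l 16060712) (l 16031896)) (l 16056688)))) (a (b (l 2) (a (l 16081832) (l 2))) (l 2))) (a (b (a (b (a (l 16044512) (l 16019224)) (a (b (l 16028328) (l 16016536)) (l 15992368))) (a (b (l 16003512) (l 16055760)) (b (l 16001680) (l 15964488)))) (a (b (a (b (l 16003960) (a (l 16002344) (l 15979992))) (b (l 15969248) (l 15952592))) (a (b (a (l 15989600) (l 15965120)) (a (l 15997360) (l 15949640))) (b (a (l 15944152) (l 15926560)) (a (l 15926584) (l 15907104))))) (b (a (a (l 15941368) (l 15932048)) (b (l 15934472) (l 15912904))) (a (a (b (l 15912096) (l 15891056)) (b (l 15900920) (l 15878544))) (b (l 15953656) (a (l 15869728) (l 15864048)))))))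 (a (b (a (b (l 16015080) (l 15969240)) (b (l 16044640) (l 15991040))) (a (b (a (l 15922240) (l 15924024)) (b (l 15886032) (a (l 15861056) (l 15859952)))) (b (l 15934832) (b (l 15892688) (a (l 15862112) (l 15867480)))))) (b (a (b (l 2) (l 16029080)) (l 2)) (a (b (l 15986736) (b (l 15917296) (l 15884240))) (b (l 16010752) (a (l 15930264) (l 15953992))))))))), by decide +kernel⟩

theorem s6_pm_012 : ∃ t, chk3 f_pm_012 t 5 1 1 = true := ex3_b k3_pm_012 k4_pm_012

theorem s7_pm_012 : ∃ t, chk3 f_pm_012 t 4 3 1 = true := ex3_a k1_pm_012 k2_pm_012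

theorem s8_pm_012 : ∃ t, chk3 f_pm_012 t 4 1 1 = true := ex3_b k0_pm_012 s7_pm_012

theorem s9_pm_012 : ∃ t, chk3 f_pm_012 t 2 1 1 = true := ex3_a s8_pm_012 s6_pm_012

theorem s10_pm_012 : ∃ t, chk3 f_pm_012 t 1 1 1 = true := ex3_a s9_pm_012 k5_pm_012

theorem c_pm_012 : CertB 0 536870912 536870912 536870912 649613803 48318383 3 eng mog cd0q0 cd5q1 pd2 true true false .pnp 0 1 2
    ndB0q0 ndB5q1 pcB2 cut_pm_012 Ext.none :=
  certB2 (fam := true) (s1 := true) (s2 := false) (a := 0) (b := 1) (c := 2) (cn := .pnp) (n1 := ndB0q0) (n2 := ndB5q1) (pc := pcB2) (cut := cut_pm_012) (xt := Ext.none) (P1 := 0) (W1 := 536870912) (P2 := 536870912) (W2 := 536870912) (P3 := 649613803) (W3 := 48318383) (N0 := 3) (En := eng) (mo := mog) (C1 := cd0q0) (C2 := cd5q1) (C3 := pd2)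
    rfl (fun _ => rfl) s10_pm_012

noncomputable def f_pm_022 : ℕ → ℕ → ℕ → ℕ → Bool := onCell 0 536870912 1073741824 536870912 649613803 48318383
    (rowB 3 eng mog cd0q0 cd5q2 pd2 1 true true false .pp 0 2 2 (qsf 0 536870912 1073741824 536870912 2) ndB0q0 ndB5q2 pcB2 Cut.none Ext.none)

def k0_pm_022 : ∃ t, chk3 f_pm_022 t 1 4 1 = true :=
  ⟨(a (b (l 3) (b (l 3) (b (l 3) (a (a (b (b (a (c (a (l 16542368) (l 16553736)) (l 16559200)) (l 3)) (a (a (l 16528328) (l 16540584)) (a (l 16552480) (b (l 16566576) (l 16561952))))) (a (b (a (l 16518960) (l 16531120)) (c (l 16521136) (l 16510888))) (b (a (l 16543000) (l 16575792)) (a (l 16534272) (l 16545928))))) (b (b (l 3) (a (a (c (l 16578096) (l 16573216)) (c (l 16599680) (l 16585576))) (l 3))) (b (a (a (b (l 16569056) (l 16564344)) (c (b (l 16582528) (l 16577960)) (l 16597136))) (b (a (c (a (l 16590816) (l 16596264)) (l 16590840)) (a (b (l 3) (l 16594600)) (l 3))) (a (c (l 16589032) (l 16586096)) (c (a (l 16597200) (l 16605168)) (a (l 16595176)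 (l 16601112)))))) (b (a (a (l 16559760) (l 16571544)) (a (a (l 16580304) (l 16586080)) (c (l 16599816) (l 16593416)))) (a (a (l 16555504) (l 16567136)) (a (a (l 16575784) (l 16581520)) (a (l 16587216) (l 16592864)))))))) (a (b (l 1) (a (a (a (b (l 1) (b (l 1) (l 16601048))) (l 1)) (l 1)) (l 1))) (l 1)))))) (l 1)), by decide +kernel⟩

def k1_pm_022 : ∃ t, chk3 f_pm_022 t 4 20 1 = true :=
  ⟨(b (a (b (b (a (l 16529312) (a (l 16526112) (l 16537752))) (a (a (l 16494160) (l 16506320)) (l 16544896))) (a (b (l 16512864) (l 16483048)) (b (a (l 16510048) (l 16521896)) (l 16507280)))) (b (b (a (a (l 16549424) (l 16561032)) (a (c (l 16573888) (l 16570520)) (c (b (l 16597136) (l 16582592)) (b (l 16584320) (l 16580336))))) (a (a (l 16541472) (l 16553112)) (c (a (l 16565896) (l 16597608)) (a (l 16562736) (l 16574552))))) (a (b (a (l 16533736) (l 16545472)) (a (l 16525280) (l 16537208))) (b (c (a (l 16558192) (l 16568984)) (l 16582272)) (a (l 16548936) (l 16560400)))))) (b (b (a (a (l 16474176) (l 16519480))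 (a (a (l 16516592) (l 16528584)) (a (l 16540408) (c (l 16552584) (l 16551032))))) (a (a (l 16465336) (l 16489816)) (a (l 16534968) (l 16537832)))) (b (b (a (a (l 16458224) (l 16482784)) (a (l 16507064) (l 16531000))) (a (a (l 16453064) (l 16477688)) (a (l 16502024) (l 16526032)))) (a (b (b (a (l 16449176) (l 16473488)) (a (l 16446968) (a (l 16464784) (l 16476608)))) (b (b (b (a (l 16445656) (l 16469248)) (b (a (l 16445184) (l 16468800)) (a (c (l 16450768) (l 16437360)) (c (l 16473200) (l 16462376))))) (a (l 16444056) (l 16467704))) (a (l 16442536) (l 16466192)))) (b (b (a (l 16497848) (l 16521912)) (a (a (l 16488600) (l 16500664)) (l 16539592))) (b (b (b (a (l 16492592) (l 16516184)) (b (a (l 16492096) (l 16536272)) (a (c (l 16516400) (l 16507928)) (b (b (l 16514896) (a (l 16509032) (l 16520312))) (l 16514608))))) (a (l 16491032) (l 16514040))) (a (l 16489520) (l 16512536)))))))), by decide +kernel⟩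

def k2_pm_022 : ∃ t, chk3 f_pm_022 t 4 21 1 = true :=
  ⟨(a (a (b (a (l 16419344) (l 16431552)) (a (b (l 16394824) (l 16377584)) (l 16400208))) (b (l 16449200) (l 16417936))) (a (b (l 16535480) (l 16441352)) (b (a (l 16489936) (l 16501232)) (l 16464448)))), by decide +kernel⟩

def k3_pm_022 : ∃ t, chk3 f_pm_022 t 4 11 1 = true :=
  ⟨(a (a (b (b (a (l 16351544) (l 16368528)) (l 16328920)) (a (b (l 16292064) (l 16268032)) (l 16296280))) (b (b (l 16387584) (a (l 16351800) (l 16364016))) (a (l 16310688) (b (l 16335832) (l 16310568))))) (a (b (l 16438208) (a (l 16417864) (l 16345088))) (b (l 16461376) (l 16362440)))), by decide +kernel⟩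

def k4_pm_022 : ∃ t, chk3 f_pm_022 t 5 5 1 = true :=
  ⟨(a (a (b (b (b (a (b (b (a (b (c (l 41909127431) (l 16593024)) (l 16589888)) (l 1)) (b (l 16593880) (l 16584808))) (b (l 16579288) (l 16571520))) (b (l 1) (b (l 1) (c (l 16602800) (l 16582448))))) (b (b (a (l 16563264) (c (l 67142058599) (l 16574400))) (a (l 16555000) (l 16565992))) (b (b (l 16553856) (l 16548992)) (b (b (l 16544944) (a (l 16536048) (l 16547280))) (b (b (b (l 16560272) (b (a (l 16532512) (l 16543792)) (b (b (a (l 16531832) (l 16543104)) (a (l 16531456) (l 16542640))) (l 16557872)))) (a (l 16530704) (l 16541848))) (a (l 16529192) (l 16540328))))))) (b (a (l 16533248) (l 16565224)) (l 16528560))) (b (b (l 16456416) (l 16427128)) (l 16384832))) (b (b (b (l 1) (b (l 1) (a (b (l 1) (b (l 1) (b (l 1) (l 16551256)))) (l 1)))) (b (a (b (l 16542216) (l 16526280)) (l 16565632)) (a (l 16502792) (l 16513368)))) (b (a (l 16499640) (l 16551952)) (l 16448072)))) (b (b (l 1) (a (b (l 1) (l 140693369191)) (l 1))) (b (a (c (l 16524088)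 (l 16504160)) (l 201896546167)) (a (l 16467584) (l 16503816))))), by decide +kernel⟩

def k5_pm_022 : ∃ t, chk3 f_pm_022 t 3 5 1 = true :=
  ⟨(b (l 1) (a (a (a (b (l 1) (l 303901858663)) (l 1)) (l 1)) (l 1))), by decide +kernel⟩

def k6_pm_022 : ∃ t, chk3 f_pm_022 t 2 3 1 = true :=
  ⟨(b (a (a (b (a (b (b (a (l 16247656) (l 16263320)) (a (l 16230736) (l 16245640))) (a (b (l 16216640) (l 16205352)) (l 16224432))) (b (b (l 16283200) (l 16264816)) (l 16242512))) (a (b (a (b (l 16196960) (l 16191840)) (l 16205776)) (a (b (l 16190728) (l 16193728)) (l 16199760))) (b (l 16221752) (a (l 16207768) (l 16215784))))) (b (a (b (b (l 16344776) (l 16283688)) (l 16261088)) (b (b (l 16321840) (l 16318824)) (a (l 16269232) (l 16272456)))) (a (b (l 16239080) (l 16226744)) (l 16241904)))) (b (a (b (a (l 16331336) (l 16373856)) (a (c (l 16305016) (l 16280360)) (l 16301880))) (b (a (c (l 16414520) (l 16393568)) (l 16450936)) (a (l 16321640) (l 16336952)))) (a (a (b (a (l 16249592) (l 16247648)) (l 16237520))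 (b (l 16253248) (l 16226784))) (b (l 16319496) (a (l 16220880) (l 16231320)))))) (a (a (b (b (a (a (b (l 16199936) (l 16207744)) (l 16207776)) (l 16340168)) (a (a (b (l 16218096) (l 16231056)) (l 16225496)) (l 16227736))) (b (a (c (a (l 16313632) (l 16306792)) (l 16201008)) (l 16252280)) (a (c (a (l 16369168) (l 16357216)) (l 16235584)) (l 16287456)))) (a (b (b (l 16224024) (l 16231576)) (b (l 16250832) (l 16281008))) (b (b (l 16232472) (l 16235864)) (l 16345416)))) (a (b (a (l 16235264) (l 16227752)) (b (l 16247232) (l 16267040))) (b (a (b (l 16201120) (l 16210648)) (b (l 16184784) (l 16168160))) (a (l 16238344) (l 16206096)))))), by decide +kernel⟩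

def k7_pm_022 : ∃ t, chk3 f_pm_022 t 3 3 1 = true :=
  ⟨(a (b (a (b (a (b (a (l 16395152) (l 16408936)) (l 16391192)) (b (l 318934084295) (a (l 16357704) (l 16361416)))) (a (b (l 16303824) (l 16260936)) (b (a (l 16317104) (l 16323960)) (a (l 16278584) (l 16288344))))) (b (a (b (l 1) (l 202970029239)) (l 1)) (a (b (l 84321498647) (l 16300056)) (b (l 202970007911) (l 67141612263))))) (a (b (a (b (l 16219904) (a (l 16173072) (l 16190992))) (b (l 16249216) (l 16216896))) (a (b (l 16217072) (l 16163080)) (b (a (l 16178968) (l 16194968)) (a (l 16161008) (l 16176240))))) (b (a (b (c (l 16272896) (l 16268128)) (l 16243376)) (b (l 16327104) (l 16261960))) (a (b (l 16218352) (a (l 16188976) (l 16202248))) (b (l 16240704) (l 16221568)))))) (b (b (l 1) (a (a (b (l 1) (l 200285616279)) (l 1)) (l 1))) (a (b (a (b (l 62846615879) (l 16273856)) (b (l 189548173447) (l 69825916391))) (a (b (l 16255568) (l 16239120)) (b (l 16264248) (l 16249712)))) (b (a (l 204580430631) (l 1)) (a (b (l 16271592) (l 16258144))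 (l 87005850455)))))), by decide +kernel⟩

theorem s8_pm_022 : ∃ t, chk3 f_pm_022 t 1 3 1 = true := ex3_a k6_pm_022 k7_pm_022

theorem s9_pm_022 : ∃ t, chk3 f_pm_022 t 4 10 1 = true := ex3_b k1_pm_022 k2_pm_022

theorem s10_pm_022 : ∃ t, chk3 f_pm_022 t 4 5 1 = true := ex3_b s9_pm_022 k3_pm_022

theorem s11_pm_022 : ∃ t, chk3 f_pm_022 t 2 5 1 = true := ex3_a s10_pm_022 k4_pm_022

theorem s12_pm_022 : ∃ t, chk3 f_pm_022 t 1 5 1 = true := ex3_a s11_pm_022 k5_pm_022

theorem s13_pm_022 : ∃ t, chk3 f_pm_022 t 1 2 1 = true := ex3_b k0_pm_022 s12_pm_022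

theorem s14_pm_022 : ∃ t, chk3 f_pm_022 t 1 1 1 = true := ex3_b s13_pm_022 s8_pm_022

theorem c_pm_022 : CertB 0 536870912 1073741824 536870912 649613803 48318383 3 eng mog cd0q0 cd5q2 pd2 true true false .pp 0 2 2
    ndB0q0 ndB5q2 pcB2 Cut.none Ext.none :=
  certB1 (fam := true) (s1 := true) (s2 := false) (a := 0) (b := 2) (c := 2) (cn := .pp) (n1 := ndB0q0) (n2 := ndB5q2) (pc := pcB2) (cut := Cut.none) (xt := Ext.none) (P1 := 0) (W1 := 536870912) (P2 := 1073741824) (W2 := 536870912) (P3 := 649613803) (W3 := 48318383) (N0 := 3) (En := eng) (mo := mog) (C1 := cd0q0) (C2 := cd5q2) (C3 := pd2)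
    rfl (fun _ => rfl) s14_pm_022

noncomputable def f_pm_023 : ℕ → ℕ → ℕ → ℕ → Bool := onCell 0 536870912 1610612736 536870912 649613803 48318383
    (rowB 3 eng mog cd0q0 cd5q2 pd3 1 true true false .up 0 2 3 (qsf 0 536870912 1073741824 536870912 3) ndB0q0 ndB5q2 pcB3 Cut.none Ext.none)

def k0_pm_023 : ∃ t, chk3 f_pm_023 t 1 1 1 = true :=
  ⟨(a (b (b (a (b (a (b (a (c (l 16370448) (l 16239784)) (l 16296664)) (l 152571630551)) (a (l 16309256) (l 16304352))) (a (b (l 141297305783) (l 2)) (b (l 16362448) (l 16406752)))) (b (a (a (l 16298616) (l 16289920)) (a (l 16276440) (l 16252568))) (a (b (l 16349288) (l 16391096)) (b (l 16325240) (l 16371096))))) (b (a (b (a (l 2) (b (l 16442184) (l 2))) (l 2)) (b (a (b (l 16424800) (l 16447160)) (l 16418448)) (a (l 119285573879) (l 16471064)))) (a (l 2) (a (b (l 16544664) (l 2)) (b (l 16519096) (l 16560976)))))) (b (a (l 2) (b (b (a (l 2) (l 16585512)) (l 2)) (l 2))) (l 2))) (a (b (b (b (a (a (l 16205088) (l 16171184)) (a (b (l 16251608) (l 16211968))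 (b (l 16225312) (l 16228880)))) (a (a (l 16305296) (l 16245200)) (l 16347712))) (b (b (a (l 16372192) (l 16233232)) (a (l 16431280) (l 16337488))) (a (l 16510496) (l 16465320)))) (b (b (a (b (l 16587944) (l 16624960)) (b (l 16561864) (l 16613448))) (a (l 123044401143) (b (l 16656560) (l 16706088)))) (b (b (a (l 2) (l 16743496)) (l 2)) (l 2)))) (b (b (a (b (a (b (l 16243496) (l 16236552)) (l 16253584)) (a (l 16339216) (l 16360296))) (b (a (l 16268528) (l 16288456)) (a (l 16259816) (l 16282664)))) (b (a (b (l 16276288) (l 16311664)) (b (a (l 16274672) (l 16284776)) (l 16308512))) (a (b (l 16396488) (l 16469008)) (l 16437464)))) (b (b (a (b (l 16530472) (l 16583560)) (b (l 16510904) (l 16557992))) (a (l 16651080) (l 16619616))) (b (b (l 16887296) (l 16846464)) (b (l 16910688) (b (l 16807192) (l 4)))))))), by decide +kernel⟩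

theorem c_pm_023 : CertB 0 536870912 1073741824 536870912 649613803 48318383 3 eng mog cd0q0 cd5q2 pd3 true true false .up 0 2 3
    ndB0q0 ndB5q2 pcB3 Cut.none Ext.none :=
  certB1 (fam := true) (s1 := true) (s2 := false) (a := 0) (b := 2) (c := 3) (cn := .up) (n1 := ndB0q0) (n2 := ndB5q2) (pc := pcB3) (cut := Cut.none) (xt := Ext.none) (P1 := 0) (W1 := 536870912) (P2 := 1073741824) (W2 := 536870912) (P3 := 649613803) (W3 := 48318383) (N0 := 3) (En := eng) (mo := mog) (C1 := cd0q0) (C2 := cd5q2) (C3 := pd3)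
    rfl (fun _ => rfl) k0_pm_023

noncomputable def f_pm_033 : ℕ → ℕ → ℕ → ℕ → Bool := onCell 1610612736 536870912 0 1230186008 649613803 48318383
    (rowB 3 eng mog cd0q0 cd5q3 pd3 2 true true false .pnn 0 3 3 (qsf 0 536870912 0 1230186008 3) ndB0q0 ndB5q3 pcB3 Cut.none Ext.none)

def k0_pm_033 : ∃ t, chk3 f_pm_033 t 2 1 1 = true :=
  ⟨(b (l 1) (b (a (l 1) (a (l 1) (b (l 1) (b (l 1) (a (l 1) (l 16201824)))))) (b (a (l 1) (a (b (a (l 1) (a (l 1) (l 16205552))) (a (b (l 1) (a (b (l 1) (l 16132096)) (b (a (l 168609569575) (c (l 16222960) (l 16084584))) (a (l 16146576) (l 16163272))))) (b (a (b (l 1) (c (l 16321408) (l 16157384))) (b (l 16235216) (l 16243768))) (a (b (c (c (l 16279592) (l 16225216)) (l 16142712)) (l 16187168)) (b (b (l 16229176) (l 16222248)) (l 16236616)))))) (b (a (l 16234608) (l 16258304)) (b (b (l 16276016) (a (l 16265680) (l 16302920))) (b (a (b (l 16252816) (l 16246784)) (l 16289848)) (a (l 16260192) (l 16299768))))))) (a (b (a (l 1) (b (a (l 1) (b (l 213169836375)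 (l 16144240))) (a (l 199748221591) (l 16172568)))) (a (b (l 212633491431) (a (l 213707255671) (l 16230336))) (a (b (l 16199280) (l 16255016)) (b (l 16227944) (l 16285496))))) (a (b (a (b (a (l 16157320) (b (l 16107880) (l 16184712))) (a (l 16193456) (l 16206088))) (b (a (b (l 16222360) (l 16237472)) (l 16261168)) (a (l 16255672) (l 16287144)))) (a (a (l 16280160) (l 16294928)) (a (l 16328768) (l 16352408)))) (b (b (a (l 16283360) (l 16321384)) (l 16330496)) (b (l 16372928) (l 16421280)))))))), by decide +kernel⟩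

def k1_pm_033 : ∃ t, chk3 f_pm_033 t 3 1 1 = true :=
  ⟨(b (a (l 1) (l 4)) (b (a (b (a (l 1) (a (b (l 1) (l 16293224)) (l 16355968))) (a (a (b (l 16215192) (l 16260144)) (b (l 16272512) (l 16313232))) (a (b (l 16324720) (l 16360736)) (b (l 16359280) (l 16403280))))) (a (b (l 4) (a (b (l 4) (l 16436776)) (l 4))) (l 4))) (a (b (b (a (a (l 16308064) (l 16356936)) (a (l 16406456) (l 16451288))) (a (b (b (l 16365008) (a (l 16348896) (l 16396488))) (b (a (l 16338408) (l 16388128)) (l 16372848))) (b (a (l 16441344) (l 16491136)) (a (l 16487280) (l 16562208))))) (b (a (b (a (l 16367136) (l 16418656)) (l 16418376)) (a (b (l 16471216) (l 16500240)) (b (l 16526160) (l 16553664)))) (a (a (l 16460544) (l 16509272)) (a (l 16558184) (l 16607688))))) (b (a (b (a (l 16491424) (l 16527320)) (a (b (l 16537752) (b (l 16543360) (l 16556120))) (b (l 16702048) (b (l 16585664) (l 16600400))))) (l 4)) (a (b (a (b (l 16578624) (l 16605888)) (b (l 16624680) (l 16646392))) (a (l 16646216) (l 16689432))) (a (b (b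 (l 4) (l 16678128)) (l 16710080)) (l 4))))))), by decide +kernel⟩

theorem s2_pm_033 : ∃ t, chk3 f_pm_033 t 1 1 1 = true := ex3_a k0_pm_033 k1_pm_033

theorem c_pm_033 : CertB 0 536870912 0 1230186008 649613803 48318383 3 eng mog cd0q0 cd5q3 pd3 true true false .pnn 0 3 3
    ndB0q0 ndB5q3 pcB3 Cut.none Ext.none :=
  certB2 (fam := true) (s1 := true) (s2 := false) (a := 0) (b := 3) (c := 3) (cn := .pnn) (n1 := ndB0q0) (n2 := ndB5q3) (pc := pcB3) (cut := Cut.none) (xt := Ext.none) (P1 := 0) (W1 := 536870912) (P2 := 0) (W2 := 1230186008) (P3 := 649613803) (W3 := 48318383) (N0 := 3) (En := eng) (mo := mog) (C1 := cd0q0) (C2 := cd5q3) (C3 := pd3)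
    rfl (fun _ => rfl) s2_pm_033

noncomputable def xt_pm_101 : Ext := extD2 3 ⟨7, 3, 3, 10, 377, 200, 77, 100, 17, 50, 3, 16⟩ eng cd0q1 cd5q0 pd1 true true false .npn 1 0 1 rfl ndB0q1 ndB5q0 pcB1

noncomputable def f_pm_101 : ℕ → ℕ → ℕ → ℕ → Bool := onCell 536870912 536870912 0 536870912 649613803 48318383
    (rowB 3 eng mog cd0q1 cd5q0 pd1 2 true true false .npn 1 0 1 (qsf 536870912 536870912 0 536870912 1) ndB0q1 ndB5q0 pcB1 Cut.none xt_pm_101)

def k0_pm_101 : ∃ t, chk3 f_pm_101 t 2 1 1 = true :=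
  ⟨(l 3), by decide +kernel⟩

def k1_pm_101 : ∃ t, chk3 f_pm_101 t 6 1 1 = true :=
  ⟨(l 3), by decide +kernel⟩

def k2_pm_101 : ∃ t, chk3 f_pm_101 t 14 1 1 = true :=
  ⟨(b (a (l 3) (a (b (l 3) (l 3)) (a (b (b (l 3) (l 3)) (l 3)) (b (b (b (b (l 89825464775) (l 74256215287)) (b (c (l 16855024) (l 16887032)) (l 16929160))) (b (b (l 16915584) (c (l 16872296) (l 16936040))) (a (l 3) (b (l 16946072) (c (l 16877096) (l 16927520)))))) (b (b (a (l 3) (a (l 3) (c (l 324438131719) (b (l 16931520) (l 308868910391))))) (l 3)) (l 3)))))) (l 3)), by decide +kernel⟩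

def k3_pm_101 : ∃ t, chk3 f_pm_101 t 60 1 1 = true :=
  ⟨(b (b (b (b (b (l 16833704) (l 16879448)) (b (l 16883528) (a (l 16838592) (l 16812496)))) (b (b (l 16894128) (a (l 16852600) (l 16824488))) (b (a (l 16923624) (l 16832288)) (a (c (l 16856552) (l 16903800)) (l 16840192))))) (a (b (b (b (b (l 16915456) (l 16938984)) (c (l 16862336) (b (l 16917192) (l 60834529415)))) (b (c (l 16880960) (b (b (l 61371399399) (l 61371393111)) (c (l 16884688) (l 16926208)))) (b (c (l 16854688) (l 16909320)) (l 16927040)))) (b (b (c (l 16840584) (l 16856888)) (l 75329813431)) (b (l 117742551335) (b (l 103247080519) (l 100025830903))))) (b (b (b (l 16888792) (c (l 16837296) (l 16889248))) (b (b (l 16894968) (l 16850296)) (c (l 16830280) (l 16859088)))) (b (b (l 16830816) (l 16813896)) (b (b (l 16798120) (l 16786400)) (c (l 16766736) (l 16769672))))))) (a (b (b (b (b (b (l 96267712535) (l 1994727602508225323179638895)) (a (l 3) (b (l 570324650151) (l 3)))) (l 3)) (l 3)) (l 3)) (b (b (b (b (b (l 16748544)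 (l 144039562206675055)) (b (l 143903085342457967) (c (c (l 16721080) (l 16713480)) (l 143549042515542191)))) (c (b (c (l 1250029297625222325295923311) (l 1327400550080484925175922863)) (a (l 1482143054991036100879892655) (l 143379236627808431))) (b (c (l 1414443209092666757477400751) (l 1501485868104850994961956911)) (l 1511157274661515827757645871)))) (a (b (b (l 1685242592685763150299119663) (l 3)) (l 3)) (b (b (c (l 143155485967597615) (l 142868238484078639)) (b (b (l 142865008632561711) (l 142883494176948271)) (b (l 142908095798968367) (c (l 143045328586768431) (l 142789692108275759))))) (b (b (b (c (l 1201672264839987346754060335) (l 1366086176307322377499508783)) (b (c (l 1221015077953818802215452719) (l 1385428989421153351923777583)) (c (a (l 1598199933673609424264527919) (l 143001004518522927)) (a (b (l 1685242592685607844245831727) (l 1694913999242507422899322927)) (l 142741313585397807))))) (c (b (l 1308057736966034788085874735) (l 1327400550079825767769210927)) (b (l 1404771802534917256146157615)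 (l 1404771802534842077049356335)))) (b (c (l 1346743363193581975411228719) (l 1404771802534730201753960495)) (l 1375757582864017172183138351)))))) (b (b (b (b (l 1414443209091610057938665519) (l 3)) (l 3)) (l 3)) (l 3))))), by decide +kernel⟩

def k4_pm_101 : ∃ t, chk3 f_pm_101 t 61 2 1 = true :=
  ⟨(b (b (b (b (l 16765640) (l 16769240)) (b (l 16772368) (l 16775720))) (b (b (l 16779640) (l 16784696)) (b (l 16791024) (l 16861056)))) (b (b (a (b (l 16819184) (l 16824656)) (b (l 16791848) (l 16797808))) (b (c (l 16800576) (b (l 16849856) (l 16826608))) (b (l 16809304) (l 16805240)))) (b (b (b (l 16800336) (l 16794232)) (l 16824856)) (b (a (l 16773408) (l 16754536)) (a (l 16770832) (l 16731848)))))), by decide +kernel⟩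

def k5_pm_101 : ∃ t, chk3 f_pm_101 t 61 3 1 = true :=
  ⟨(b (a (b (b (b (l 143724483381526639) (b (l 16704160) (l 16690944))) (b (b (a (l 16682536) (l 16672936)) (l 143278631294943343)) (b (l 143147308347867183) (l 143014748450390063)))) (b (b (a (l 142881157759025199) (l 142748391707869231)) (b (b (l 142660430759084079) (l 142676854718791727)) (b (l 142699807030100015) (a (l 142787630538014767) (l 142647717659967535))))) (b (b (b (c (l 142846729266462767) (l 142594253885685807)) (c (b (l 142842674817220655) (l 142833672607285295)) (b (l 142593360531193903) (a (l 142645175023009839) (l 142513371046772783))))) (c (b (l 142802886275907631) (l 142757806290485295)) (b (l 142523541526855727) (l 142447743927320623)))) (a (b (l 142582090631921711) (l 142438947836248111)) (b (l 142450149122146351) (l 142307693615005743)))))) (b (b (b (l 16705848) (l 16678992)) (b (c (l 16663896) (l 16640184)) (b (l 16631376) (l 16617768)))) (b (b (l 142551235496443951) (b (l 142395654529237039) (a (l 142500383076302895)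 (l 142360813795754031)))) (b (b (b (l 142447743950831663) (c (l 142571164161769519) (l 142314290693242927))) (l 142377925014798383)) (b (l 142245433768968239) (l 142103734175891503)))))) (b (b (b (b (a (l 142230865219633199) (l 141963752570667055)) (a (l 1037258353371447388520382511) (l 141829405964599343))) (b (a (c (l 1849656504152543477432991791) (l 1849656504152166069981134895)) (l 141706054477594671)) (a (a (l 2014070415619921801504604207) (l 141816761567952943)) (l 141615069870751791)))) (a (b (b (a (l 1849656504152253137602854959) (l 141736634640564271)) (c (l 2101113074632058691263299631) (l 2062427448404099393172733999))) (c (l 1917356350050388766069063727) (l 141327616305053743))) (b (b (l 141534530626437167) (l 141418532125016111)) (l 141183305307422767)))) (b (b (a (b (l 1752942438582485218950103087) (l 1656228373013213248841089071)) (l 140942993247830063)) (a (a (l 3) (b (l 141015561023455279) (l 140946910252531759))) (b (l 140811257984139311) (l 140923133278535727)))) (b (a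 (l 1) (c (l 245382844375) (l 220149936487))) (l 1))))), by decide +kernel⟩

def k6_pm_101 : ∃ t, chk3 f_pm_101 t 31 1 1 = true :=
  ⟨(b (b (b (b (a (l 16723168) (l 16682328)) (a (l 16728096) (l 16685904))) (a (b (l 16774872) (b (l 16738936) (l 16744552))) (b (l 16688496) (l 16692408)))) (b (a (b (b (l 16771864) (l 16841352)) (b (c (l 16752152) (l 16834816)) (l 16799784))) (b (b (l 16699336) (l 16704840)) (b (l 16708912) (l 16707304)))) (b (a (b (l 16750960) (l 16740200)) (c (l 16697152) (l 16701776))) (a (b (l 16724608) (b (l 16710040) (l 16698352))) (b (l 16682224) (l 16664952)))))) (b (b (b (a (b (b (l 16686112) (l 16672808)) (a (l 16660728) (l 16642632))) (b (l 16642232) (l 16615920))) (a (b (b (l 16630448) (l 16616184)) (a (c (l 16621416) (l 16587992)) (l 16584776))) (b (a (l 16595184) (l 16577080)) (b (l 16562992) (l 16547592))))) (b (b (a (l 141980314104971311) (a (l 16534864) (l 16514360))) (a (b (l 142077689464160303) (a (l 142152112710139951) (l 16521992))) (b (a (l 142127098723008559)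 (l 16496368)) (l 141464161911111727)))) (b (a (a (b (b (l 142164619659313199) (l 142163245270581295)) (l 142089165660684335)) (b (l 141881495400562735) (l 16537472))) (b (a (l 141599814186008623) (l 16498992)) (l 141369397740240943))) (a (b (l 141814425142673455) (l 141676024084430895)) (b (l 141226461200498735) (l 141072529541021743)))))) (b (b (a (b (b (l 141539272294449199) (l 141409323734712367)) (b (l 141289270782410799) (l 141200141601521711))) (b (a (l 16463080) (l 16438176)) (b (l 140707560314699823) (l 16463960)))) (a (b (b (l 141120083393609775) (l 141002573063225391)) (l 140762261002616879)) (b (b (l 140551498347102255) (l 140434675211288623)) (l 140190995894976559)))) (a (b (b (l 140522773576024111) (l 140539403655364655)) (b (a (l 16405216) (l 16361000)) (l 204580659431))) (b (b (l 16371824) (l 16355544)) (a (l 16397712) (l 16310832))))))), by decide +kernel⟩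

theorem s7_pm_101 : ∃ t, chk3 f_pm_101 t 61 1 1 = true := ex3_b k4_pm_101 k5_pm_101

theorem s8_pm_101 : ∃ t, chk3 f_pm_101 t 30 1 1 = true := ex3_a k3_pm_101 s7_pm_101

theorem s9_pm_101 : ∃ t, chk3 f_pm_101 t 15 1 1 = true := ex3_a s8_pm_101 k6_pm_101

theorem s10_pm_101 : ∃ t, chk3 f_pm_101 t 7 1 1 = true := ex3_a k2_pm_101 s9_pm_101

theorem s11_pm_101 : ∃ t, chk3 f_pm_101 t 3 1 1 = true := ex3_a k1_pm_101 s10_pm_101

theorem s12_pm_101 : ∃ t, chk3 f_pm_101 t 1 1 1 = true := ex3_a k0_pm_101 s11_pm_101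

theorem c_pm_101 : CertB 536870912 536870912 0 536870912 649613803 48318383 3 eng mog cd0q1 cd5q0 pd1 true true false .npn 1 0 1
    ndB0q1 ndB5q0 pcB1 Cut.none xt_pm_101 :=
  certB2 (fam := true) (s1 := true) (s2 := false) (a := 1) (b := 0) (c := 1) (cn := .npn) (n1 := ndB0q1) (n2 := ndB5q0) (pc := pcB1) (cut := Cut.none) (xt := xt_pm_101) (P1 := 536870912) (W1 := 536870912) (P2 := 0) (W2 := 536870912) (P3 := 649613803) (W3 := 48318383) (N0 := 3) (En := eng) (mo := mog) (C1 := cd0q1) (C2 := cd5q0) (C3 := pd1)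
    rfl (fun _ => rfl) s12_pm_101

noncomputable def xt_pm_102 : Ext := extD2 3 ⟨7, 3, 3, 10, 377, 200, 77, 100, 17, 50, 3, 16⟩ eng cd0q1 cd5q0 pd2 true true false .npp 1 0 2 rfl ndB0q1 ndB5q0 pcB2

noncomputable def f_pm_102 : ℕ → ℕ → ℕ → ℕ → Bool := onCell 1073741824 536870912 0 536870912 649613803 48318383
    (rowB 3 eng mog cd0q1 cd5q0 pd2 2 true true false .npp 1 0 2 (qsf 536870912 536870912 0 536870912 2) ndB0q1 ndB5q0 pcB2 Cut.none xt_pm_102)

def k0_pm_102 : ∃ t, chk3 f_pm_102 t 2 2 1 = true :=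
  ⟨(a (b (a (b (a (b (a (b (l 16625640) (l 16629440)) (b (l 16589080) (l 16594800))) (b (a (l 16627608) (l 16608472)) (l 16713672))) (b (a (a (l 16670200) (l 2)) (l 2)) (a (b (l 16565208) (l 16587544)) (b (l 16555024) (l 16548016))))) (a (b (a (l 16629248) (l 16589592)) (a (l 16630848) (l 16587840))) (b (a (l 16569072) (b (l 16564848) (l 16566960))) (a (l 16554472) (l 16539032))))) (b (a (b (l 2) (a (b (l 2) (l 16503624)) (l 2))) (l 2)) (a (b (a (b (l 16526672) (l 16544168)) (l 16643848)) (a (l 16547008) (l 16531296))) (b (b (l 2) (l 16445320)) (a (l 16502000) (l 16466032)))))) (a (b (a (a (b (b (l 16634992) (l 16639520)) (b (l 16643232) (l 16643184))) (b (l 16588936) (l 16718136))) (b (a (l 16549376) (l 16521504)) (b (l 16529992) (l 16527064)))) (a (b (a (a (l 16650920) (l 16626416)) (l 16590040)) (a (l 16683680) (l 16578040))) (b (l 16648136) (l 16537128)))) (b (a (b (a (l 16509568) (l 16519864)) (b (l 16487864) (l 16474928))) (b (a (l 16518824) (l 16502688)) (a (l 16486456) (l 16497912))))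 (a (b (l 16460704) (l 16447648)) (b (l 16508440) (l 16412944)))))) (b (a (b (l 2) (a (b (l 2) (a (l 16426720) (l 2))) (l 2))) (l 2)) (a (b (a (b (a (l 16476936) (l 16446720)) (a (l 16493952) (l 16481056))) (b (a (l 50566307831) (l 2)) (a (b (l 16453664) (l 16469488)) (l 16447080)))) (a (a (b (l 16467632) (l 16415976)) (b (l 16474680) (l 16431928))) (b (a (l 16474120) (l 16476376)) (a (l 16448488) (l 16469624))))) (b (b (l 2) (a (b (l 2) (l 16436984)) (l 2))) (a (b (l 16471376) (l 16491608)) (b (l 16447624) (l 16493224))))))), by decide +kernel⟩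

def k1_pm_102 : ∃ t, chk3 f_pm_102 t 2 6 1 = true :=
  ⟨(a (b (a (a (b (a (b (l 16595816) (l 16572176)) (l 16551280)) (a (b (l 16545072) (l 16514056)) (l 16504432))) (b (l 16624616) (a (l 16478008) (l 16454624)))) (a (b (l 16436448) (l 16416296)) (b (l 16391968) (l 16374776)))) (a (b (a (b (a (l 16482480) (l 16459632)) (a (c (b (l 16490080) (l 16488888)) (l 16440472)) (c (l 16466400) (l 16417040)))) (b (l 16430456) (a (l 16421872) (l 16405664)))) (a (a (b (b (l 140821978270384175) (l 16456048)) (l 140666466072756271)) (b (l 16436008) (l 16408080))) (b (l 16384944) (l 16378112)))) (b (b (a (l 16393800) (l 16358528)) (a (l 16381072) (l 16352776))) (a (b (l 16376976) (l 16352320)) (b (l 16351720) (l 16331952)))))) (b (a (a (a (l 16365520) (a (l 16364064) (b (l 16385776) (l 16349704)))) (a (b (l 16395856) (l 16352280)) (l 16404440))) (a (b (l 16481776) (l 16448936)) (b (l 16512384) (l 16506792)))) (a (a (b (a (l 16336656) (b (l 16393080) (l 16471896))) (a (l 16327312) (a (l 16319992) (l 16379344))))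 (b (a (l 16427360) (l 16341200)) (a (l 16309760) (l 16321248)))) (b (b (l 16456512) (l 16438120)) (a (l 16367104) (l 16456400)))))), by decide +kernel⟩

def k2_pm_102 : ∃ t, chk3 f_pm_102 t 2 7 1 = true :=
  ⟨(a (b (a (a (b (b (a (l 16401072) (l 16372592)) (a (l 140152787870744623) (l 16344672))) (b (a (l 140175877578194991) (l 16328352)) (a (l 16329480) (l 16297552)))) (b (b (l 16343008) (l 16306352)) (a (l 16276424) (l 16237096)))) (b (a (l 16280688) (l 16417304)) (a (l 16238792) (l 16193744)))) (a (a (b (a (l 139551560998780975) (l 16263040)) (a (l 585740469180570267689519) (l 16244920))) (b (l 16208064) (l 16210512))) (a (b (l 16119224) (l 16102496)) (b (l 16104808) (l 16023664))))) (a (b (a (a (b (l 16285328) (l 16219808)) (b (a (l 16284024) (l 16282976)) (a (l 16222776) (l 16226016)))) (b (a (l 16279136) (l 16288472)) (l 16233472))) (a (a (l 16129648) (a (l 16077216) (a (l 16083200) (l 16088416)))) (b (l 16154672) (l 16065456)))) (b (b (a (l 16328432) (l 16404408)) (a (l 16282344)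 (l 16351912))) (a (b (l 16214272) (l 16140888)) (l 16256456))))), by decide +kernel⟩

def k3_pm_102 : ∃ t, chk3 f_pm_102 t 3 1 1 = true :=
  ⟨(b (a (b (l 2) (a (b (l 2) (b (l 2) (a (l 16476672) (l 2)))) (l 2))) (l 2)) (b (a (b (b (a (a (l 16518944) (l 16510144)) (l 2)) (a (l 16648944) (a (l 16548832) (l 2)))) (a (b (b (l 16550064) (l 16550136)) (a (l 16524584) (l 16566016))) (b (a (l 16582128) (l 16588576)) (a (l 16594384) (l 16612952))))) (b (l 2) (a (a (b (l 2) (l 16622936)) (l 2)) (l 2)))) (a (a (b (b (l 16526248) (l 16486304)) (a (l 16342328) (l 16438512))) (b (b (a (l 16595040) (l 16627720)) (l 16604912)) (a (l 16522808) (l 16595568)))) (b (a (a (l 16664744) (b (l 16678640) (l 16710528))) (a (b (l 2) (l 16750544)) (l 2))) (a (a (l 16660584) (l 16726568)) (a (l 16803000) (l 16884304))))))), by decide +kernel⟩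

theorem s4_pm_102 : ∃ t, chk3 f_pm_102 t 2 3 1 = true := ex3_b k1_pm_102 k2_pm_102

theorem s5_pm_102 : ∃ t, chk3 f_pm_102 t 2 1 1 = true := ex3_b k0_pm_102 s4_pm_102

theorem s6_pm_102 : ∃ t, chk3 f_pm_102 t 1 1 1 = true := ex3_a s5_pm_102 k3_pm_102

theorem c_pm_102 : CertB 536870912 536870912 0 536870912 649613803 48318383 3 eng mog cd0q1 cd5q0 pd2 true true false .npp 1 0 2
    ndB0q1 ndB5q0 pcB2 Cut.none xt_pm_102 :=
  certB2 (fam := true) (s1 := true) (s2 := false) (a := 1) (b := 0) (c := 2) (cn := .npp) (n1 := ndB0q1) (n2 := ndB5q0) (pc := pcB2) (cut := Cut.none) (xt := xt_pm_102) (P1 := 536870912) (W1 := 536870912) (P2 := 0) (W2 := 536870912) (P3 := 649613803) (W3 := 48318383) (N0 := 3) (En := eng) (mo := mog) (C1 := cd0q1) (C2 := cd5q0) (C3 := pd2)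
    rfl (fun _ => rfl) s6_pm_102

noncomputable def f_pm_112 : ℕ → ℕ → ℕ → ℕ → Bool := onCell 536870912 536870912 1073741824 536870912 649613803 48318383
    (rowB 3 eng mog cd0q1 cd5q1 pd2 1 true true false .dn 1 1 2 (qsf 536870912 536870912 536870912 536870912 2) ndB0q1 ndB5q1 pcB2 Cut.none Ext.none)

def k0_pm_112 : ∃ t, chk3 f_pm_112 t 1 1 1 = true :=
  ⟨(b (a (b (a (b (a (b (a (b (l 249140559079) (l 16212728)) (l 310880817015)) (a (l 16176520) (l 16144056))) (b (l 1) (l 318933620615))) (a (b (l 16182752) (l 16116816)) (b (l 16098344) (l 16060840)))) (a (b (l 1) (b (l 1) (l 141766243255))) (l 1))) (a (b (b (b (a (l 16148776) (l 16077000)) (a (b (l 16121888) (b (l 16119592) (l 16164288))) (b (l 16073504) (b (l 16072368) (l 16075896))))) (a (l 16283760) (l 16118040))) (a (a (l 16136688) (l 16135296)) (l 16236560))) (b (a (b (b (l 16039296) (b (l 16036104) (b (l 16034960) (l 16037936)))) (l 16126016)) (b (l 1) (l 16128984))) (a (l 16191328) (b (l 16105952) (l 16162648)))))) (a (b (l 1)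 (b (l 1) (a (l 16223992) (l 1)))) (l 1))) (a (a (b (b (a (l 16125064) (l 16162432)) (a (l 16318640) (l 16160968))) (a (a (b (l 16029168) (b (l 15998576) (l 15977512))) (b (l 16077776) (l 16072392))) (b (b (l 16157336) (l 16150864)) (l 16144256)))) (b (b (a (l 16198256) (l 16241568)) (a (l 16235400) (l 16307056))) (a (b (l 16257360) (l 16268000)) (b (l 16355576) (l 16391536))))) (a (b (b (a (l 16311496) (l 16407832)) (a (l 16396320) (l 16499584))) (b (a (l 16466504) (l 16585280)) (a (l 16519928) (l 16656760)))) (b (b (l 1) (a (l 16571264) (l 1))) (b (a (l 16669544) (l 16724632)) (a (l 16779008) (l 16856504))))))), by decide +kernel⟩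

theorem c_pm_112 : CertB 536870912 536870912 536870912 536870912 649613803 48318383 3 eng mog cd0q1 cd5q1 pd2 true true false .dn 1 1 2
    ndB0q1 ndB5q1 pcB2 Cut.none Ext.none :=
  certB1 (fam := true) (s1 := true) (s2 := false) (a := 1) (b := 1) (c := 2) (cn := .dn) (n1 := ndB0q1) (n2 := ndB5q1) (pc := pcB2) (cut := Cut.none) (xt := Ext.none) (P1 := 536870912) (W1 := 536870912) (P2 := 536870912) (W2 := 536870912) (P3 := 649613803) (W3 := 48318383) (N0 := 3) (En := eng) (mo := mog) (C1 := cd0q1) (C2 := cd5q1) (C3 := pd2)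
    rfl (fun _ => rfl) k0_pm_112

noncomputable def f_pm_113 : ℕ → ℕ → ℕ → ℕ → Bool := onCell 536870912 536870912 1610612736 536870912 649613803 48318383
    (rowB 3 eng mog cd0q1 cd5q1 pd3 1 true true false .nn 1 1 3 (qsf 536870912 536870912 536870912 536870912 3) ndB0q1 ndB5q1 pcB3 Cut.none Ext.none)

def k0_pm_113 : ∃ t, chk3 f_pm_113 t 1 1 1 = true :=
  ⟨(a (b (b (a (b (a (b (l 205720684775) (l 205183658055)) (l 16013472)) (a (b (l 280882385111) (l 2)) (b (l 15935656) (l 221826684967)))) (b (a (l 16167176) (l 16311544)) (a (b (l 16118024) (l 16090928)) (l 16247096)))) (b (a (b (a (l 2) (b (l 15888112) (l 2))) (l 2)) (a (b (l 256723497591) (l 287325000631)) (l 16199000))) (a (l 2) (a (l 350675990391) (c (l 306116395543) (l 310947991239)))))) (b (b (a (l 2) (a (l 2) (b (l 410805817399) (l 2)))) (l 2)) (l 2))) (b (b (a (b (a (l 16442528) (l 16586056)) (a (l 16374824) (l 16525472))) (b (a (l 16717824) (l 16803840)) (a (l 16652568) (l 16736248)))) (a (b (a (l 16328208) (l 16472672)) (a (l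 16297936) (l 16435472))) (b (a (l 16595488) (l 16682360)) (a (l 16546792) (l 16620288))))) (b (a (b (a (b (l 16287568) (l 16281064)) (l 16404816)) (a (b (l 16256328) (l 2)) (l 4))) (b (l 4) (l 4))) (l 4)))), by decide +kernel⟩

theorem c_pm_113 : CertB 536870912 536870912 536870912 536870912 649613803 48318383 3 eng mog cd0q1 cd5q1 pd3 true true false .nn 1 1 3
    ndB0q1 ndB5q1 pcB3 Cut.none Ext.none :=
  certB1 (fam := true) (s1 := true) (s2 := false) (a := 1) (b := 1) (c := 3) (cn := .nn) (n1 := ndB0q1) (n2 := ndB5q1) (pc := pcB3) (cut := Cut.none) (xt := Ext.none) (P1 := 536870912) (W1 := 536870912) (P2 := 536870912) (W2 := 536870912) (P3 := 649613803) (W3 := 48318383) (N0 := 3) (En := eng) (mo := mog) (C1 := cd0q1) (C2 := cd5q1) (C3 := pd3)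
    rfl (fun _ => rfl) k0_pm_113

noncomputable def f_pm_123 : ℕ → ℕ → ℕ → ℕ → Bool := onCell 536870912 536870912 1610612736 536870912 649613803 48318383
    (rowB 3 eng mog cd0q1 cd5q2 pd3 1 true true false .npn 1 2 3 (qsf 536870912 536870912 1073741824 536870912 3) ndB0q1 ndB5q2 pcB3 Cut.none Ext.none)

def k0_pm_123 : ∃ t, chk3 f_pm_123 t 2 1 1 = true :=
  ⟨(b (a (b (a (b (b (l 196527750279) (l 16351824)) (l 16416984)) (b (l 299069946711) (l 224445194823))) (b (a (b (l 16338992) (l 16348384)) (l 16448480)) (a (b (l 16387488) (l 16440112)) (b (l 16457848) (l 16468248))))) (a (b (b (l 1) (l 262563066519)) (b (a (l 16539320) (l 263100013991)) (a (l 16525784) (l 16568760)))) (b (l 1) (a (l 264173752439) (l 255583915479))))) (a (b (b (a (b (l 16500608) (l 16548040)) (b (l 16493432) (l 16530320))) (a (l 16751232) (b (l 16570744) (l 16604424)))) (b (a (l 16666536) (l 16721432)) (b (a (l 16742040) (l 16688392)) (b (l 16762904) (b (l 16778496) (l 4)))))) (b (a (b (a (l 16523368) (l 16548568))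 (b (l 16737424) (l 16573920))) (b (a (l 16575520) (l 16604224)) (a (l 16555624) (l 16569592)))) (b (a (b (l 16604080) (a (l 16632616) (l 16619024))) (b (a (l 16570144) (l 16556936)) (a (l 16598784) (l 16572304)))) (b (a (l 16649760) (a (l 16617952) (l 16599256))) (b (a (l 16676880) (l 16629728)) (b (a (l 16695712) (l 16643696)) (b (a (l 16703584) (l 16651768)) (a (l 4) (b (l 16656416) (a (l 4) (l 16648616)))))))))))), by decide +kernel⟩

def k1_pm_123 : ∃ t, chk3 f_pm_123 t 3 1 1 = true :=
  ⟨(b (a (a (a (b (l 1) (l 259879003287)) (l 1)) (l 1)) (l 1)) (a (b (a (a (a (l 16670928) (l 16753848)) (l 224445876087)) (b (a (l 215856106439) (l 1)) (a (l 16685184) (l 195991874439)))) (b (a (a (l 16565160) (l 16584816)) (a (l 16617304) (b (l 16677320) (l 16642536)))) (b (a (a (l 16681304) (l 16569824)) (a (l 16587384) (l 16622304))) (b (a (a (l 16598496) (l 16579776)) (a (l 16583440) (l 16621704))) (b (a (l 16645656) (l 16685632)) (b (a (l 16610152) (l 16604984)) (a (b (l 16613248) (a (l 16813480)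 (b (l 16605544) (l 16669776)))) (b (l 16606696) (b (l 16607112) (a (l 16678992) (l 16614488))))))))))) (b (b (l 1) (a (a (b (l 1) (l 16877976)) (l 1)) (l 1))) (b (a (a (b (l 16769344) (l 16690344)) (b (l 16837200) (l 16741984))) (b (l 1) (a (l 366715895255) (l 1)))) (b (a (a (l 16860592) (b (l 16719992) (l 16702552))) (a (l 245920455751) (a (l 16875864) (l 1)))) (b (a (a (l 16656496) (l 16693744)) (b (l 16743080) (l 16734384))) (b (a (a (l 16654600) (l 16684080)) (l 16716320)) (b (a (l 16663256) (l 16700704)) (a (b (l 16658992) (a (l 868892244967) (l 4))) (l 4)))))))))), by decide +kernel⟩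

theorem s2_pm_123 : ∃ t, chk3 f_pm_123 t 1 1 1 = true := ex3_a k0_pm_123 k1_pm_123

theorem c_pm_123 : CertB 536870912 536870912 1073741824 536870912 649613803 48318383 3 eng mog cd0q1 cd5q2 pd3 true true false .npn 1 2 3
    ndB0q1 ndB5q2 pcB3 Cut.none Ext.none :=
  certB1 (fam := true) (s1 := true) (s2 := false) (a := 1) (b := 2) (c := 3) (cn := .npn) (n1 := ndB0q1) (n2 := ndB5q2) (pc := pcB3) (cut := Cut.none) (xt := Ext.none) (P1 := 536870912) (W1 := 536870912) (P2 := 1073741824) (W2 := 536870912) (P3 := 649613803) (W3 := 48318383) (N0 := 3) (En := eng) (mo := mog) (C1 := cd0q1) (C2 := cd5q2) (C3 := pd3)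
    rfl (fun _ => rfl) s2_pm_123

noncomputable def f_pm_133 : ℕ → ℕ → ℕ → ℕ → Bool := onCell 536870912 536870912 0 1230186008 649613803 48318383
    (rowB 3 eng mog cd0q1 cd5q3 pd3 0 true true false .dn 1 3 3 (qsf 536870912 536870912 0 1230186008 3) ndB0q1 ndB5q3 pcB3 Cut.none Ext.none)

def k0_pm_133 : ∃ t, chk3 f_pm_133 t 1 1 1 = true :=
  ⟨(b (l 2) (b (l 2) (a (l 4) (l 2)))), by decide +kernel⟩

theorem c_pm_133 : CertB 536870912 536870912 0 1230186008 649613803 48318383 3 eng mog cd0q1 cd5q3 pd3 true true false .dn 1 3 3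
    ndB0q1 ndB5q3 pcB3 Cut.none Ext.none :=
  certB0 (fam := true) (s1 := true) (s2 := false) (a := 1) (b := 3) (c := 3) (cn := .dn) (n1 := ndB0q1) (n2 := ndB5q3) (pc := pcB3) (cut := Cut.none) (xt := Ext.none) (P1 := 536870912) (W1 := 536870912) (P2 := 0) (W2 := 1230186008) (P3 := 649613803) (W3 := 48318383) (N0 := 3) (En := eng) (mo := mog) (C1 := cd0q1) (C2 := cd5q3) (C3 := pd3)
    rfl k0_pm_133

noncomputable def f_pm_202 : ℕ → ℕ → ℕ → ℕ → Bool := onCell 0 536870912 0 536870912 649613803 48318383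
    (rowB 3 eng mog cd0q2 cd5q0 pd2 0 true true false .pp 2 0 2 (qsf 0 536870912 0 536870912 2) ndB0q2 ndB5q0 pcB2 Cut.none Ext.none)

def k0_pm_202 : ∃ t, chk3 f_pm_202 t 2 1 1 = true :=
  ⟨(b (b (b (a (b (a (b (l 16416288) (l 16424744)) (b (l 16420888) (a (l 16423384) (l 16424520)))) (a (l 16445992) (a (l 16443712) (l 16443816)))) (b (a (b (a (l 16430960) (l 16441064)) (a (l 16428088) (l 16434248))) (a (b (l 16452456) (l 16442320)) (b (l 16465680) (l 16451288)))) (a (b (a (l 16437520) (l 16438104)) (l 16451360)) (b (a (b (l 16437440) (l 16439360)) (a (l 16439952) (l 16442232))) (a (l 16449016) (b (l 16440664) (l 16446488))))))) (a (a (b (l 16472848) (l 16500048)) (b (l 16658864) (l 16495272))) (a (b (a (l 16469728) (l 16470424)) (a (l 16494456) (l 16493616))) (b (a (l 16468224) (l 16462560)) (l 16489000))))) (a (b (b (a (l 16528488) (l 16521312)) (a (l 16560376) (l 16549072))) (b (a (l 16595256) (l 16579608)) (a (l 4) (l 16611144)))) (b (a (b (l 16518312) (l 16542712)) (b (l 16572976)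 (a (l 16536024) (l 16527584)))) (a (b (l 16570304) (l 16598568)) (b (a (l 16560608) (l 16550440)) (l 16582640)))))) (b (a (l 4) (a (b (b (l 16626208) (l 16652672)) (l 4)) (b (b (l 16609344) (l 16634840)) (b (l 16660128) (l 16685792))))) (l 4))), by decide +kernel⟩

def k1_pm_202 : ∃ t, chk3 f_pm_202 t 3 2 1 = true :=
  ⟨(b (a (b (b (a (a (b (l 16480328) (l 16462912)) (b (l 16494784) (l 16476024))) (a (b (l 16509816) (l 16489880)) (b (l 16526432) (l 16505464)))) (a (a (b (l 16447672) (b (l 16438960) (l 16438560))) (b (l 16458264) (l 16505120))) (a (l 16461904) (l 16475808)))) (b (a (a (l 16452928) (b (b (l 16518440) (l 16436360)) (l 16445680))) (a (b (l 16437080) (b (l 16431488) (l 16434352))) (b (l 16448808) (l 16434288)))) (a (l 16491016) (a (l 16447992) (b (l 16431792) (l 16440144)))))) (b (a (b (b (a (l 16544752) (l 16564160)) (a (l 16522928) (l 16541720))) (a (l 16491800) (l 16509400))) (b (b (a (a (l 16579416) (l 16592096)) (a (l 16668792) (l 16620288))) (a (l 16560984) (a (l 16578472)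 (l 16592240)))) (a (b (l 16538656) (l 16517304)) (a (l 16563048) (l 16679696))))) (a (b (a (l 16454616) (l 16470552)) (a (b (l 16433120) (l 16431632)) (b (l 16445800) (l 16433968)))) (a (b (l 16487840) (l 16454960)) (b (b (l 16516496) (l 16497952)) (l 16515968)))))) (a (b (a (b (l 16491176) (l 16510944)) (b (l 16483440) (l 16482864))) (a (b (a (l 16537400) (l 16523744)) (a (l 16562336) (l 16545744))) (b (l 16502232) (l 16523304)))) (b (a (b (a (l 16444032) (b (l 16432920) (l 16440504))) (a (l 16463096) (l 16453456))) (b (a (b (a (l 16433920) (l 16440720)) (a (l 16436464) (l 16436904))) (b (l 16455672) (a (l 16442408) (l 16452704)))) (a (l 16448232) (b (a (l 16444144) (l 16470544)) (l 16453416))))) (a (b (l 16477760) (l 16499704)) (a (l 16477400) (l 16498936)))))), by decide +kernel⟩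

def k2_pm_202 : ∃ t, chk3 f_pm_202 t 3 3 1 = true :=
  ⟨(b (b (a (a (b (l 16581376) (l 16608872)) (b (l 16548000) (l 16577296))) (a (b (l 16524360) (l 16553208)) (b (l 16514152) (l 16543792)))) (a (a (b (l 16636928) (l 16665296)) (b (l 16608248) (l 16639176))) (a (b (l 16585376) (l 16617552)) (b (l 16576720) (l 16608608))))) (a (b (a (b (l 16695752) (l 2)) (b (l 16676480) (l 16720584))) (l 2)) (b (a (b (l 16657488) (l 16709224)) (b (l 16650912) (l 16706616))) (a (a (l 16814664) (l 16820008)) (l 16828608))))), by decide +kernel⟩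

theorem s3_pm_202 : ∃ t, chk3 f_pm_202 t 3 1 1 = true := ex3_b k1_pm_202 k2_pm_202

theorem s4_pm_202 : ∃ t, chk3 f_pm_202 t 1 1 1 = true := ex3_a k0_pm_202 s3_pm_202

theorem c_pm_202 : CertB 0 536870912 0 536870912 649613803 48318383 3 eng mog cd0q2 cd5q0 pd2 true true false .pp 2 0 2
    ndB0q2 ndB5q0 pcB2 Cut.none Ext.none :=
  certB0 (fam := true) (s1 := true) (s2 := false) (a := 2) (b := 0) (c := 2) (cn := .pp) (n1 := ndB0q2) (n2 := ndB5q0) (pc := pcB2) (cut := Cut.none) (xt := Ext.none) (P1 := 0) (W1 := 536870912) (P2 := 0) (W2 := 536870912) (P3 := 649613803) (W3 := 48318383) (N0 := 3) (En := eng) (mo := mog) (C1 := cd0q2) (C2 := cd5q0) (C3 := pd2)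
    rfl s4_pm_202

noncomputable def f_pm_203 : ℕ → ℕ → ℕ → ℕ → Bool := onCell 0 536870912 1610612736 536870912 649613803 48318383
    (rowB 3 eng mog cd0q2 cd5q0 pd3 1 true true false .up 2 0 3 (qsf 0 536870912 0 536870912 3) ndB0q2 ndB5q0 pcB3 Cut.none Ext.none)

def k0_pm_203 : ∃ t, chk3 f_pm_203 t 1 1 1 = true :=
  ⟨(b (a (l 4) (b (a (b (b (a (l 16712624) (l 16736856)) (a (l 4) (l 16755432))) (l 4)) (b (l 16931448) (l 16748840))) (a (l 2) (l 2)))) (l 2)), by decide +kernel⟩

theorem c_pm_203 : CertB 0 536870912 0 536870912 649613803 48318383 3 eng mog cd0q2 cd5q0 pd3 true true false .up 2 0 3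
    ndB0q2 ndB5q0 pcB3 Cut.none Ext.none :=
  certB1 (fam := true) (s1 := true) (s2 := false) (a := 2) (b := 0) (c := 3) (cn := .up) (n1 := ndB0q2) (n2 := ndB5q0) (pc := pcB3) (cut := Cut.none) (xt := Ext.none) (P1 := 0) (W1 := 536870912) (P2 := 0) (W2 := 536870912) (P3 := 649613803) (W3 := 48318383) (N0 := 3) (En := eng) (mo := mog) (C1 := cd0q2) (C2 := cd5q0) (C3 := pd3)
    rfl (fun _ => rfl) k0_pm_203

noncomputable def f_pm_213 : ℕ → ℕ → ℕ → ℕ → Bool := onCell 0 536870912 1610612736 536870912 649613803 48318383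
    (rowB 3 eng mog cd0q2 cd5q1 pd3 1 true true false .pnn 2 1 3 (qsf 0 536870912 536870912 536870912 3) ndB0q2 ndB5q1 pcB3 Cut.none Ext.none)

def k0_pm_213 : ∃ t, chk3 f_pm_213 t 1 1 1 = true :=
  ⟨(b (a (l 4) (b (a (b (l 1) (l 4)) (b (b (l 16795576) (l 16766504)) (l 16740808))) (a (l 4) (b (l 16682920) (l 4))))) (l 4)), by decide +kernel⟩

theorem c_pm_213 : CertB 0 536870912 536870912 536870912 649613803 48318383 3 eng mog cd0q2 cd5q1 pd3 true true false .pnn 2 1 3
    ndB0q2 ndB5q1 pcB3 Cut.none Ext.none :=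
  certB1 (fam := true) (s1 := true) (s2 := false) (a := 2) (b := 1) (c := 3) (cn := .pnn) (n1 := ndB0q2) (n2 := ndB5q1) (pc := pcB3) (cut := Cut.none) (xt := Ext.none) (P1 := 0) (W1 := 536870912) (P2 := 536870912) (W2 := 536870912) (P3 := 649613803) (W3 := 48318383) (N0 := 3) (En := eng) (mo := mog) (C1 := cd0q2) (C2 := cd5q1) (C3 := pd3)
    rfl (fun _ => rfl) k0_pm_213

noncomputable def f_mm_001 : ℕ → ℕ → ℕ → ℕ → Bool := onCell 0 536870912 0 536870912 649613803 48318383
    (rowB 3 eng mog cd0q0 cd5q0 pd1 0 true false false .up 0 0 1 (qsf 0 536870912 0 536870912 1) ndB0q0 ndB5q0 pcB1 Cut.none Ext.none)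

def k0_mm_001 : ∃ t, chk3 f_mm_001 t 1 1 1 = true :=
  ⟨(l 4), by decide +kernel⟩

theorem c_mm_001 : CertB 0 536870912 0 536870912 649613803 48318383 3 eng mog cd0q0 cd5q0 pd1 true false false .up 0 0 1
    ndB0q0 ndB5q0 pcB1 Cut.none Ext.none :=
  certB0 (fam := true) (s1 := false) (s2 := false) (a := 0) (b := 0) (c := 1) (cn := .up) (n1 := ndB0q0) (n2 := ndB5q0) (pc := pcB1) (cut := Cut.none) (xt := Ext.none) (P1 := 0) (W1 := 536870912) (P2 := 0) (W2 := 536870912) (P3 := 649613803) (W3 := 48318383) (N0 := 3) (En := eng) (mo := mog) (C1 := cd0q0) (C2 := cd5q0) (C3 := pd1)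
    rfl k0_mm_001

noncomputable def f_mm_011 : ℕ → ℕ → ℕ → ℕ → Bool := onCell 0 536870912 536870912 536870912 649613803 48318383
    (rowB 3 eng mog cd0q0 cd5q1 pd1 0 true false false .pnn 0 1 1 (qsf 0 536870912 536870912 536870912 1) ndB0q0 ndB5q1 pcB1 Cut.none Ext.none)

def k0_mm_011 : ∃ t, chk3 f_mm_011 t 1 1 1 = true :=
  ⟨(l 4), by decide +kernel⟩

theorem c_mm_011 : CertB 0 536870912 536870912 536870912 649613803 48318383 3 eng mog cd0q0 cd5q1 pd1 true false false .pnn 0 1 1
    ndB0q0 ndB5q1 pcB1 Cut.none Ext.none :=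
  certB0 (fam := true) (s1 := false) (s2 := false) (a := 0) (b := 1) (c := 1) (cn := .pnn) (n1 := ndB0q0) (n2 := ndB5q1) (pc := pcB1) (cut := Cut.none) (xt := Ext.none) (P1 := 0) (W1 := 536870912) (P2 := 536870912) (W2 := 536870912) (P3 := 649613803) (W3 := 48318383) (N0 := 3) (En := eng) (mo := mog) (C1 := cd0q0) (C2 := cd5q1) (C3 := pd1)
    rfl k0_mm_011

noncomputable def f_mm_012 : ℕ → ℕ → ℕ → ℕ → Bool := onCell 0 536870912 536870912 536870912 649613803 48318383
    (rowB 3 eng mog cd0q0 cd5q1 pd2 0 true false false .pnp 0 1 2 (qsf 0 536870912 536870912 536870912 2) ndB0q0 ndB5q1 pcB2 Cut.none Ext.none)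

def k0_mm_012 : ∃ t, chk3 f_mm_012 t 1 1 1 = true :=
  ⟨(l 4), by decide +kernel⟩

theorem c_mm_012 : CertB 0 536870912 536870912 536870912 649613803 48318383 3 eng mog cd0q0 cd5q1 pd2 true false false .pnp 0 1 2
    ndB0q0 ndB5q1 pcB2 Cut.none Ext.none :=
  certB0 (fam := true) (s1 := false) (s2 := false) (a := 0) (b := 1) (c := 2) (cn := .pnp) (n1 := ndB0q0) (n2 := ndB5q1) (pc := pcB2) (cut := Cut.none) (xt := Ext.none) (P1 := 0) (W1 := 536870912) (P2 := 536870912) (W2 := 536870912) (P3 := 649613803) (W3 := 48318383) (N0 := 3) (En := eng) (mo := mog) (C1 := cd0q0) (C2 := cd5q1) (C3 := pd2)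
    rfl k0_mm_012

noncomputable def f_mm_022 : ℕ → ℕ → ℕ → ℕ → Bool := onCell 0 536870912 1073741824 536870912 649613803 48318383
    (rowB 3 eng mog cd0q0 cd5q2 pd2 0 true false false .pp 0 2 2 (qsf 0 536870912 1073741824 536870912 2) ndB0q0 ndB5q2 pcB2 Cut.none Ext.none)

def k0_mm_022 : ∃ t, chk3 f_mm_022 t 1 1 1 = true :=
  ⟨(l 4), by decide +kernel⟩

theorem c_mm_022 : CertB 0 536870912 1073741824 536870912 649613803 48318383 3 eng mog cd0q0 cd5q2 pd2 true false false .pp 0 2 2
    ndB0q0 ndB5q2 pcB2 Cut.none Ext.none :=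
  certB0 (fam := true) (s1 := false) (s2 := false) (a := 0) (b := 2) (c := 2) (cn := .pp) (n1 := ndB0q0) (n2 := ndB5q2) (pc := pcB2) (cut := Cut.none) (xt := Ext.none) (P1 := 0) (W1 := 536870912) (P2 := 1073741824) (W2 := 536870912) (P3 := 649613803) (W3 := 48318383) (N0 := 3) (En := eng) (mo := mog) (C1 := cd0q0) (C2 := cd5q2) (C3 := pd2)
    rfl k0_mm_022

noncomputable def f_mm_023 : ℕ → ℕ → ℕ → ℕ → Bool := onCell 0 536870912 1073741824 536870912 649613803 48318383
    (rowB 3 eng mog cd0q0 cd5q2 pd3 0 true false false .up 0 2 3 (qsf 0 536870912 1073741824 536870912 3) ndB0q0 ndB5q2 pcB3 Cut.none Ext.none)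

def k0_mm_023 : ∃ t, chk3 f_mm_023 t 1 1 1 = true :=
  ⟨(l 4), by decide +kernel⟩

theorem c_mm_023 : CertB 0 536870912 1073741824 536870912 649613803 48318383 3 eng mog cd0q0 cd5q2 pd3 true false false .up 0 2 3
    ndB0q0 ndB5q2 pcB3 Cut.none Ext.none :=
  certB0 (fam := true) (s1 := false) (s2 := false) (a := 0) (b := 2) (c := 3) (cn := .up) (n1 := ndB0q0) (n2 := ndB5q2) (pc := pcB3) (cut := Cut.none) (xt := Ext.none) (P1 := 0) (W1 := 536870912) (P2 := 1073741824) (W2 := 536870912) (P3 := 649613803) (W3 := 48318383) (N0 := 3) (En := eng) (mo := mog) (C1 := cd0q0) (C2 := cd5q2) (C3 := pd3)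
    rfl k0_mm_023

noncomputable def f_mm_033 : ℕ → ℕ → ℕ → ℕ → Bool := onCell 0 536870912 0 1230186008 649613803 48318383
    (rowB 3 eng mog cd0q0 cd5q3 pd3 0 true false false .pnn 0 3 3 (qsf 0 536870912 0 1230186008 3) ndB0q0 ndB5q3 pcB3 Cut.none Ext.none)

def k0_mm_033 : ∃ t, chk3 f_mm_033 t 1 1 1 = true :=
  ⟨(l 5), by decide +kernel⟩

theorem c_mm_033 : CertB 0 536870912 0 1230186008 649613803 48318383 3 eng mog cd0q0 cd5q3 pd3 true false false .pnn 0 3 3
    ndB0q0 ndB5q3 pcB3 Cut.none Ext.none :=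
  certB0 (fam := true) (s1 := false) (s2 := false) (a := 0) (b := 3) (c := 3) (cn := .pnn) (n1 := ndB0q0) (n2 := ndB5q3) (pc := pcB3) (cut := Cut.none) (xt := Ext.none) (P1 := 0) (W1 := 536870912) (P2 := 0) (W2 := 1230186008) (P3 := 649613803) (W3 := 48318383) (N0 := 3) (En := eng) (mo := mog) (C1 := cd0q0) (C2 := cd5q3) (C3 := pd3)
    rfl k0_mm_033

noncomputable def f_mm_101 : ℕ → ℕ → ℕ → ℕ → Bool := onCell 536870912 536870912 0 536870912 649613803 48318383
    (rowB 3 eng mog cd0q1 cd5q0 pd1 0 true false false .npn 1 0 1 (qsf 536870912 536870912 0 536870912 1) ndB0q1 ndB5q0 pcB1 Cut.none Ext.none)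

def k0_mm_101 : ∃ t, chk3 f_mm_101 t 1 1 1 = true :=
  ⟨(l 4), by decide +kernel⟩

theorem c_mm_101 : CertB 536870912 536870912 0 536870912 649613803 48318383 3 eng mog cd0q1 cd5q0 pd1 true false false .npn 1 0 1
    ndB0q1 ndB5q0 pcB1 Cut.none Ext.none :=
  certB0 (fam := true) (s1 := false) (s2 := false) (a := 1) (b := 0) (c := 1) (cn := .npn) (n1 := ndB0q1) (n2 := ndB5q0) (pc := pcB1) (cut := Cut.none) (xt := Ext.none) (P1 := 536870912) (W1 := 536870912) (P2 := 0) (W2 := 536870912) (P3 := 649613803) (W3 := 48318383) (N0 := 3) (En := eng) (mo := mog) (C1 := cd0q1) (C2 := cd5q0) (C3 := pd1)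
    rfl k0_mm_101

noncomputable def f_mm_102 : ℕ → ℕ → ℕ → ℕ → Bool := onCell 536870912 536870912 0 536870912 649613803 48318383
    (rowB 3 eng mog cd0q1 cd5q0 pd2 0 true false false .npp 1 0 2 (qsf 536870912 536870912 0 536870912 2) ndB0q1 ndB5q0 pcB2 Cut.none Ext.none)

def k0_mm_102 : ∃ t, chk3 f_mm_102 t 1 1 1 = true :=
  ⟨(l 4), by decide +kernel⟩

theorem c_mm_102 : CertB 536870912 536870912 0 536870912 649613803 48318383 3 eng mog cd0q1 cd5q0 pd2 true false false .npp 1 0 2
    ndB0q1 ndB5q0 pcB2 Cut.none Ext.none :=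
  certB0 (fam := true) (s1 := false) (s2 := false) (a := 1) (b := 0) (c := 2) (cn := .npp) (n1 := ndB0q1) (n2 := ndB5q0) (pc := pcB2) (cut := Cut.none) (xt := Ext.none) (P1 := 536870912) (W1 := 536870912) (P2 := 0) (W2 := 536870912) (P3 := 649613803) (W3 := 48318383) (N0 := 3) (En := eng) (mo := mog) (C1 := cd0q1) (C2 := cd5q0) (C3 := pd2)
    rfl k0_mm_102

noncomputable def f_mm_112 : ℕ → ℕ → ℕ → ℕ → Bool := onCell 536870912 536870912 536870912 536870912 649613803 48318383
    (rowB 3 eng mog cd0q1 cd5q1 pd2 0 true false false .dn 1 1 2 (qsf 536870912 536870912 536870912 536870912 2) ndB0q1 ndB5q1 pcB2 Cut.none Ext.none)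

def k0_mm_112 : ∃ t, chk3 f_mm_112 t 1 1 1 = true :=
  ⟨(l 4), by decide +kernel⟩

theorem c_mm_112 : CertB 536870912 536870912 536870912 536870912 649613803 48318383 3 eng mog cd0q1 cd5q1 pd2 true false false .dn 1 1 2
    ndB0q1 ndB5q1 pcB2 Cut.none Ext.none :=
  certB0 (fam := true) (s1 := false) (s2 := false) (a := 1) (b := 1) (c := 2) (cn := .dn) (n1 := ndB0q1) (n2 := ndB5q1) (pc := pcB2) (cut := Cut.none) (xt := Ext.none) (P1 := 536870912) (W1 := 536870912) (P2 := 536870912) (W2 := 536870912) (P3 := 649613803) (W3 := 48318383) (N0 := 3) (En := eng) (mo := mog) (C1 := cd0q1) (C2 := cd5q1) (C3 := pd2)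
    rfl k0_mm_112

noncomputable def f_mm_113 : ℕ → ℕ → ℕ → ℕ → Bool := onCell 536870912 536870912 536870912 536870912 649613803 48318383
    (rowB 3 eng mog cd0q1 cd5q1 pd3 0 true false false .nn 1 1 3 (qsf 536870912 536870912 536870912 536870912 3) ndB0q1 ndB5q1 pcB3 Cut.none Ext.none)

def k0_mm_113 : ∃ t, chk3 f_mm_113 t 1 1 1 = true :=
  ⟨(l 4), by decide +kernel⟩

theorem c_mm_113 : CertB 536870912 536870912 536870912 536870912 649613803 48318383 3 eng mog cd0q1 cd5q1 pd3 true false false .nn 1 1 3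
    ndB0q1 ndB5q1 pcB3 Cut.none Ext.none :=
  certB0 (fam := true) (s1 := false) (s2 := false) (a := 1) (b := 1) (c := 3) (cn := .nn) (n1 := ndB0q1) (n2 := ndB5q1) (pc := pcB3) (cut := Cut.none) (xt := Ext.none) (P1 := 536870912) (W1 := 536870912) (P2 := 536870912) (W2 := 536870912) (P3 := 649613803) (W3 := 48318383) (N0 := 3) (En := eng) (mo := mog) (C1 := cd0q1) (C2 := cd5q1) (C3 := pd3)
    rfl k0_mm_113

noncomputable def f_mm_123 : ℕ → ℕ → ℕ → ℕ → Bool := onCell 536870912 536870912 1073741824 536870912 649613803 48318383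
    (rowB 3 eng mog cd0q1 cd5q2 pd3 0 true false false .npn 1 2 3 (qsf 536870912 536870912 1073741824 536870912 3) ndB0q1 ndB5q2 pcB3 Cut.none Ext.none)

def k0_mm_123 : ∃ t, chk3 f_mm_123 t 1 1 1 = true :=
  ⟨(l 4), by decide +kernel⟩

theorem c_mm_123 : CertB 536870912 536870912 1073741824 536870912 649613803 48318383 3 eng mog cd0q1 cd5q2 pd3 true false false .npn 1 2 3
    ndB0q1 ndB5q2 pcB3 Cut.none Ext.none :=
  certB0 (fam := true) (s1 := false) (s2 := false) (a := 1) (b := 2) (c := 3) (cn := .npn) (n1 := ndB0q1) (n2 := ndB5q2) (pc := pcB3) (cut := Cut.none) (xt := Ext.none) (P1 := 536870912) (W1 := 536870912) (P2 := 1073741824) (W2 := 536870912) (P3 := 649613803) (W3 := 48318383) (N0 := 3) (En := eng) (mo := mog) (C1 := cd0q1) (C2 := cd5q2) (C3 := pd3)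
    rfl k0_mm_123

noncomputable def f_mm_133 : ℕ → ℕ → ℕ → ℕ → Bool := onCell 536870912 536870912 0 1230186008 649613803 48318383
    (rowB 3 eng mog cd0q1 cd5q3 pd3 0 true false false .dn 1 3 3 (qsf 536870912 536870912 0 1230186008 3) ndB0q1 ndB5q3 pcB3 Cut.none Ext.none)

def k0_mm_133 : ∃ t, chk3 f_mm_133 t 1 1 1 = true :=
  ⟨(l 4), by decide +kernel⟩

theorem c_mm_133 : CertB 536870912 536870912 0 1230186008 649613803 48318383 3 eng mog cd0q1 cd5q3 pd3 true false false .dn 1 3 3
    ndB0q1 ndB5q3 pcB3 Cut.none Ext.none :=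
  certB0 (fam := true) (s1 := false) (s2 := false) (a := 1) (b := 3) (c := 3) (cn := .dn) (n1 := ndB0q1) (n2 := ndB5q3) (pc := pcB3) (cut := Cut.none) (xt := Ext.none) (P1 := 536870912) (W1 := 536870912) (P2 := 0) (W2 := 1230186008) (P3 := 649613803) (W3 := 48318383) (N0 := 3) (En := eng) (mo := mog) (C1 := cd0q1) (C2 := cd5q3) (C3 := pd3)
    rfl k0_mm_133

noncomputable def f_mm_202 : ℕ → ℕ → ℕ → ℕ → Bool := onCell 0 536870912 0 536870912 649613803 48318383
    (rowB 3 eng mog cd0q2 cd5q0 pd2 0 true false false .pp 2 0 2 (qsf 0 536870912 0 536870912 2) ndB0q2 ndB5q0 pcB2 Cut.none Ext.none)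

def k0_mm_202 : ∃ t, chk3 f_mm_202 t 1 1 1 = true :=
  ⟨(b (a (b (a (b (b (a (l 16508408) (l 16432600)) (a (l 16451016) (l 16459104))) (b (a (l 16479120) (l 16489072)) (a (l 16508432) (l 16523184)))) (b (b (a (l 16443472) (b (l 16457360) (l 16471944))) (a (l 16471568) (b (l 16489200) (l 4)))) (a (b (l 16505800) (l 4)) (l 4)))) (a (b (b (a (l 16541664) (l 4)) (l 4)) (l 4)) (l 4))) (b (a (b (a (b (b (l 16497024) (l 4)) (l 4)) (l 4)) (l 4)) (l 4)) (l 4))) (l 4)), by decide +kernel⟩

theorem c_mm_202 : CertB 0 536870912 0 536870912 649613803 48318383 3 eng mog cd0q2 cd5q0 pd2 true false false .pp 2 0 2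
    ndB0q2 ndB5q0 pcB2 Cut.none Ext.none :=
  certB0 (fam := true) (s1 := false) (s2 := false) (a := 2) (b := 0) (c := 2) (cn := .pp) (n1 := ndB0q2) (n2 := ndB5q0) (pc := pcB2) (cut := Cut.none) (xt := Ext.none) (P1 := 0) (W1 := 536870912) (P2 := 0) (W2 := 536870912) (P3 := 649613803) (W3 := 48318383) (N0 := 3) (En := eng) (mo := mog) (C1 := cd0q2) (C2 := cd5q0) (C3 := pd2)
    rfl k0_mm_202

noncomputable def f_mm_203 : ℕ → ℕ → ℕ → ℕ → Bool := onCell 0 536870912 1610612736 536870912 649613803 48318383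
    (rowB 3 eng mog cd0q2 cd5q0 pd3 1 true false false .up 2 0 3 (qsf 0 536870912 0 536870912 3) ndB0q2 ndB5q0 pcB3 Cut.none Ext.none)

def k0_mm_203 : ∃ t, chk3 f_mm_203 t 1 1 1 = true :=
  ⟨(l 4), by decide +kernel⟩

theorem c_mm_203 : CertB 0 536870912 0 536870912 649613803 48318383 3 eng mog cd0q2 cd5q0 pd3 true false false .up 2 0 3
    ndB0q2 ndB5q0 pcB3 Cut.none Ext.none :=
  certB1 (fam := true) (s1 := false) (s2 := false) (a := 2) (b := 0) (c := 3) (cn := .up) (n1 := ndB0q2) (n2 := ndB5q0) (pc := pcB3) (cut := Cut.none) (xt := Ext.none) (P1 := 0) (W1 := 536870912) (P2 := 0) (W2 := 536870912) (P3 := 649613803) (W3 := 48318383) (N0 := 3) (En := eng) (mo := mog) (C1 := cd0q2) (C2 := cd5q0) (C3 := pd3)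
    rfl (fun _ => rfl) k0_mm_203

noncomputable def f_mm_213 : ℕ → ℕ → ℕ → ℕ → Bool := onCell 0 536870912 536870912 536870912 649613803 48318383
    (rowB 3 eng mog cd0q2 cd5q1 pd3 0 true false false .pnn 2 1 3 (qsf 0 536870912 536870912 536870912 3) ndB0q2 ndB5q1 pcB3 Cut.none Ext.none)

def k0_mm_213 : ∃ t, chk3 f_mm_213 t 1 1 1 = true :=
  ⟨(l 4), by decide +kernel⟩

theorem c_mm_213 : CertB 0 536870912 536870912 536870912 649613803 48318383 3 eng mog cd0q2 cd5q1 pd3 true false false .pnn 2 1 3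
    ndB0q2 ndB5q1 pcB3 Cut.none Ext.none :=
  certB0 (fam := true) (s1 := false) (s2 := false) (a := 2) (b := 1) (c := 3) (cn := .pnn) (n1 := ndB0q2) (n2 := ndB5q1) (pc := pcB3) (cut := Cut.none) (xt := Ext.none) (P1 := 0) (W1 := 536870912) (P2 := 536870912) (W2 := 536870912) (P3 := 649613803) (W3 := 48318383) (N0 := 3) (En := eng) (mo := mog) (C1 := cd0q2) (C2 := cd5q1) (C3 := pd3)
    rfl k0_mm_213

end Pool.Agent.Strip051.G.I6050_6500.Tab.C.BA05

namespace Pool.Agent.Strip051.G.I6050_6500.Tab.C.BA06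

open Pool.Agent.Strip051.PB Pool.Agent.Strip051.PB.T
open Pool.Agent.Strip051.G.I6050_6500.Tab

noncomputable def f_pp_001 : ℕ → ℕ → ℕ → ℕ → Bool := onCell 0 536870912 0 536870912 649613803 48318383
    (rowB 3 eng mog cd0q0 cd6q0 pd1 0 true true true .up 0 0 1 (qsf 0 536870912 0 536870912 1) ndB0q0 ndB6q0 pcB1 Cut.none Ext.none)

def k0_pp_001 : ∃ t, chk3 f_pp_001 t 1 1 1 = true :=
  ⟨(l 4), by decide +kernel⟩

theorem c_pp_001 : CertB 0 536870912 0 536870912 649613803 48318383 3 eng mog cd0q0 cd6q0 pd1 true true true .up 0 0 1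
    ndB0q0 ndB6q0 pcB1 Cut.none Ext.none :=
  certB0 (fam := true) (s1 := true) (s2 := true) (a := 0) (b := 0) (c := 1) (cn := .up) (n1 := ndB0q0) (n2 := ndB6q0) (pc := pcB1) (cut := Cut.none) (xt := Ext.none) (P1 := 0) (W1 := 536870912) (P2 := 0) (W2 := 536870912) (P3 := 649613803) (W3 := 48318383) (N0 := 3) (En := eng) (mo := mog) (C1 := cd0q0) (C2 := cd6q0) (C3 := pd1)
    rfl k0_pp_001

noncomputable def f_pp_011 : ℕ → ℕ → ℕ → ℕ → Bool := onCell 0 536870912 536870912 536870912 649613803 48318383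
    (rowB 3 eng mog cd0q0 cd6q1 pd1 0 true true true .pnn 0 1 1 (qsf 0 536870912 536870912 536870912 1) ndB0q0 ndB6q1 pcB1 Cut.none Ext.none)

def k0_pp_011 : ∃ t, chk3 f_pp_011 t 1 1 1 = true :=
  ⟨(l 4), by decide +kernel⟩

theorem c_pp_011 : CertB 0 536870912 536870912 536870912 649613803 48318383 3 eng mog cd0q0 cd6q1 pd1 true true true .pnn 0 1 1
    ndB0q0 ndB6q1 pcB1 Cut.none Ext.none :=
  certB0 (fam := true) (s1 := true) (s2 := true) (a := 0) (b := 1) (c := 1) (cn := .pnn) (n1 := ndB0q0) (n2 := ndB6q1) (pc := pcB1) (cut := Cut.none) (xt := Ext.none) (P1 := 0) (W1 := 536870912) (P2 := 536870912) (W2 := 536870912) (P3 := 649613803) (W3 := 48318383) (N0 := 3) (En := eng) (mo := mog) (C1 := cd0q0) (C2 := cd6q1) (C3 := pd1)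
    rfl k0_pp_011

noncomputable def f_pp_012 : ℕ → ℕ → ℕ → ℕ → Bool := onCell 0 536870912 536870912 536870912 649613803 48318383
    (rowB 3 eng mog cd0q0 cd6q1 pd2 0 true true true .pnp 0 1 2 (qsf 0 536870912 536870912 536870912 2) ndB0q0 ndB6q1 pcB2 Cut.none Ext.none)

def k0_pp_012 : ∃ t, chk3 f_pp_012 t 1 1 1 = true :=
  ⟨(l 4), by decide +kernel⟩

theorem c_pp_012 : CertB 0 536870912 536870912 536870912 649613803 48318383 3 eng mog cd0q0 cd6q1 pd2 true true true .pnp 0 1 2
    ndB0q0 ndB6q1 pcB2 Cut.none Ext.none :=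
  certB0 (fam := true) (s1 := true) (s2 := true) (a := 0) (b := 1) (c := 2) (cn := .pnp) (n1 := ndB0q0) (n2 := ndB6q1) (pc := pcB2) (cut := Cut.none) (xt := Ext.none) (P1 := 0) (W1 := 536870912) (P2 := 536870912) (W2 := 536870912) (P3 := 649613803) (W3 := 48318383) (N0 := 3) (En := eng) (mo := mog) (C1 := cd0q0) (C2 := cd6q1) (C3 := pd2)
    rfl k0_pp_012

noncomputable def f_pp_022 : ℕ → ℕ → ℕ → ℕ → Bool := onCell 0 536870912 1073741824 536870912 649613803 48318383
    (rowB 3 eng mog cd0q0 cd6q2 pd2 0 true true true .pp 0 2 2 (qsf 0 536870912 1073741824 536870912 2) ndB0q0 ndB6q2 pcB2 Cut.none Ext.none)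

def k0_pp_022 : ∃ t, chk3 f_pp_022 t 1 1 1 = true :=
  ⟨(l 4), by decide +kernel⟩

theorem c_pp_022 : CertB 0 536870912 1073741824 536870912 649613803 48318383 3 eng mog cd0q0 cd6q2 pd2 true true true .pp 0 2 2
    ndB0q0 ndB6q2 pcB2 Cut.none Ext.none :=
  certB0 (fam := true) (s1 := true) (s2 := true) (a := 0) (b := 2) (c := 2) (cn := .pp) (n1 := ndB0q0) (n2 := ndB6q2) (pc := pcB2) (cut := Cut.none) (xt := Ext.none) (P1 := 0) (W1 := 536870912) (P2 := 1073741824) (W2 := 536870912) (P3 := 649613803) (W3 := 48318383) (N0 := 3) (En := eng) (mo := mog) (C1 := cd0q0) (C2 := cd6q2) (C3 := pd2)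
    rfl k0_pp_022

noncomputable def f_pp_023 : ℕ → ℕ → ℕ → ℕ → Bool := onCell 0 536870912 1073741824 536870912 649613803 48318383
    (rowB 3 eng mog cd0q0 cd6q2 pd3 0 true true true .up 0 2 3 (qsf 0 536870912 1073741824 536870912 3) ndB0q0 ndB6q2 pcB3 Cut.none Ext.none)

def k0_pp_023 : ∃ t, chk3 f_pp_023 t 1 1 1 = true :=
  ⟨(l 4), by decide +kernel⟩

theorem c_pp_023 : CertB 0 536870912 1073741824 536870912 649613803 48318383 3 eng mog cd0q0 cd6q2 pd3 true true true .up 0 2 3
    ndB0q0 ndB6q2 pcB3 Cut.none Ext.none :=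
  certB0 (fam := true) (s1 := true) (s2 := true) (a := 0) (b := 2) (c := 3) (cn := .up) (n1 := ndB0q0) (n2 := ndB6q2) (pc := pcB3) (cut := Cut.none) (xt := Ext.none) (P1 := 0) (W1 := 536870912) (P2 := 1073741824) (W2 := 536870912) (P3 := 649613803) (W3 := 48318383) (N0 := 3) (En := eng) (mo := mog) (C1 := cd0q0) (C2 := cd6q2) (C3 := pd3)
    rfl k0_pp_023

noncomputable def f_pp_033 : ℕ → ℕ → ℕ → ℕ → Bool := onCell 0 536870912 0 1230186008 649613803 48318383
    (rowB 3 eng mog cd0q0 cd6q3 pd3 0 true true true .pnn 0 3 3 (qsf 0 536870912 0 1230186008 3) ndB0q0 ndB6q3 pcB3 Cut.none Ext.none)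

def k0_pp_033 : ∃ t, chk3 f_pp_033 t 1 1 1 = true :=
  ⟨(b (l 4) (l 4)), by decide +kernel⟩

theorem c_pp_033 : CertB 0 536870912 0 1230186008 649613803 48318383 3 eng mog cd0q0 cd6q3 pd3 true true true .pnn 0 3 3
    ndB0q0 ndB6q3 pcB3 Cut.none Ext.none :=
  certB0 (fam := true) (s1 := true) (s2 := true) (a := 0) (b := 3) (c := 3) (cn := .pnn) (n1 := ndB0q0) (n2 := ndB6q3) (pc := pcB3) (cut := Cut.none) (xt := Ext.none) (P1 := 0) (W1 := 536870912) (P2 := 0) (W2 := 1230186008) (P3 := 649613803) (W3 := 48318383) (N0 := 3) (En := eng) (mo := mog) (C1 := cd0q0) (C2 := cd6q3) (C3 := pd3)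
    rfl k0_pp_033

noncomputable def f_pp_101 : ℕ → ℕ → ℕ → ℕ → Bool := onCell 536870912 536870912 0 536870912 649613803 48318383
    (rowB 3 eng mog cd0q1 cd6q0 pd1 0 true true true .npn 1 0 1 (qsf 536870912 536870912 0 536870912 1) ndB0q1 ndB6q0 pcB1 Cut.none Ext.none)

def k0_pp_101 : ∃ t, chk3 f_pp_101 t 1 1 1 = true :=
  ⟨(l 4), by decide +kernel⟩

theorem c_pp_101 : CertB 536870912 536870912 0 536870912 649613803 48318383 3 eng mog cd0q1 cd6q0 pd1 true true true .npn 1 0 1
    ndB0q1 ndB6q0 pcB1 Cut.none Ext.none :=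
  certB0 (fam := true) (s1 := true) (s2 := true) (a := 1) (b := 0) (c := 1) (cn := .npn) (n1 := ndB0q1) (n2 := ndB6q0) (pc := pcB1) (cut := Cut.none) (xt := Ext.none) (P1 := 536870912) (W1 := 536870912) (P2 := 0) (W2 := 536870912) (P3 := 649613803) (W3 := 48318383) (N0 := 3) (En := eng) (mo := mog) (C1 := cd0q1) (C2 := cd6q0) (C3 := pd1)
    rfl k0_pp_101

noncomputable def f_pp_102 : ℕ → ℕ → ℕ → ℕ → Bool := onCell 536870912 536870912 0 536870912 649613803 48318383
    (rowB 3 eng mog cd0q1 cd6q0 pd2 0 true true true .npp 1 0 2 (qsf 536870912 536870912 0 536870912 2) ndB0q1 ndB6q0 pcB2 Cut.none Ext.none)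

def k0_pp_102 : ∃ t, chk3 f_pp_102 t 1 1 1 = true :=
  ⟨(l 4), by decide +kernel⟩

theorem c_pp_102 : CertB 536870912 536870912 0 536870912 649613803 48318383 3 eng mog cd0q1 cd6q0 pd2 true true true .npp 1 0 2
    ndB0q1 ndB6q0 pcB2 Cut.none Ext.none :=
  certB0 (fam := true) (s1 := true) (s2 := true) (a := 1) (b := 0) (c := 2) (cn := .npp) (n1 := ndB0q1) (n2 := ndB6q0) (pc := pcB2) (cut := Cut.none) (xt := Ext.none) (P1 := 536870912) (W1 := 536870912) (P2 := 0) (W2 := 536870912) (P3 := 649613803) (W3 := 48318383) (N0 := 3) (En := eng) (mo := mog) (C1 := cd0q1) (C2 := cd6q0) (C3 := pd2)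
    rfl k0_pp_102

noncomputable def f_pp_112 : ℕ → ℕ → ℕ → ℕ → Bool := onCell 536870912 536870912 536870912 536870912 649613803 48318383
    (rowB 3 eng mog cd0q1 cd6q1 pd2 0 true true true .dn 1 1 2 (qsf 536870912 536870912 536870912 536870912 2) ndB0q1 ndB6q1 pcB2 Cut.none Ext.none)

def k0_pp_112 : ∃ t, chk3 f_pp_112 t 1 1 1 = true :=
  ⟨(l 4), by decide +kernel⟩

theorem c_pp_112 : CertB 536870912 536870912 536870912 536870912 649613803 48318383 3 eng mog cd0q1 cd6q1 pd2 true true true .dn 1 1 2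
    ndB0q1 ndB6q1 pcB2 Cut.none Ext.none :=
  certB0 (fam := true) (s1 := true) (s2 := true) (a := 1) (b := 1) (c := 2) (cn := .dn) (n1 := ndB0q1) (n2 := ndB6q1) (pc := pcB2) (cut := Cut.none) (xt := Ext.none) (P1 := 536870912) (W1 := 536870912) (P2 := 536870912) (W2 := 536870912) (P3 := 649613803) (W3 := 48318383) (N0 := 3) (En := eng) (mo := mog) (C1 := cd0q1) (C2 := cd6q1) (C3 := pd2)
    rfl k0_pp_112

noncomputable def f_pp_113 : ℕ → ℕ → ℕ → ℕ → Bool := onCell 536870912 536870912 536870912 536870912 649613803 48318383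
    (rowB 3 eng mog cd0q1 cd6q1 pd3 0 true true true .nn 1 1 3 (qsf 536870912 536870912 536870912 536870912 3) ndB0q1 ndB6q1 pcB3 Cut.none Ext.none)

def k0_pp_113 : ∃ t, chk3 f_pp_113 t 1 1 1 = true :=
  ⟨(l 4), by decide +kernel⟩

theorem c_pp_113 : CertB 536870912 536870912 536870912 536870912 649613803 48318383 3 eng mog cd0q1 cd6q1 pd3 true true true .nn 1 1 3
    ndB0q1 ndB6q1 pcB3 Cut.none Ext.none :=
  certB0 (fam := true) (s1 := true) (s2 := true) (a := 1) (b := 1) (c := 3) (cn := .nn) (n1 := ndB0q1) (n2 := ndB6q1) (pc := pcB3) (cut := Cut.none) (xt := Ext.none) (P1 := 536870912) (W1 := 536870912) (P2 := 536870912) (W2 := 536870912) (P3 := 649613803) (W3 := 48318383) (N0 := 3) (En := eng) (mo := mog) (C1 := cd0q1) (C2 := cd6q1) (C3 := pd3)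
    rfl k0_pp_113

noncomputable def f_pp_123 : ℕ → ℕ → ℕ → ℕ → Bool := onCell 536870912 536870912 1073741824 536870912 649613803 48318383
    (rowB 3 eng mog cd0q1 cd6q2 pd3 0 true true true .npn 1 2 3 (qsf 536870912 536870912 1073741824 536870912 3) ndB0q1 ndB6q2 pcB3 Cut.none Ext.none)

def k0_pp_123 : ∃ t, chk3 f_pp_123 t 1 1 1 = true :=
  ⟨(l 4), by decide +kernel⟩

theorem c_pp_123 : CertB 536870912 536870912 1073741824 536870912 649613803 48318383 3 eng mog cd0q1 cd6q2 pd3 true true true .npn 1 2 3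
    ndB0q1 ndB6q2 pcB3 Cut.none Ext.none :=
  certB0 (fam := true) (s1 := true) (s2 := true) (a := 1) (b := 2) (c := 3) (cn := .npn) (n1 := ndB0q1) (n2 := ndB6q2) (pc := pcB3) (cut := Cut.none) (xt := Ext.none) (P1 := 536870912) (W1 := 536870912) (P2 := 1073741824) (W2 := 536870912) (P3 := 649613803) (W3 := 48318383) (N0 := 3) (En := eng) (mo := mog) (C1 := cd0q1) (C2 := cd6q2) (C3 := pd3)
    rfl k0_pp_123

noncomputable def f_pp_133 : ℕ → ℕ → ℕ → ℕ → Bool := onCell 536870912 536870912 0 1230186008 649613803 48318383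
    (rowB 3 eng mog cd0q1 cd6q3 pd3 0 true true true .dn 1 3 3 (qsf 536870912 536870912 0 1230186008 3) ndB0q1 ndB6q3 pcB3 Cut.none Ext.none)

def k0_pp_133 : ∃ t, chk3 f_pp_133 t 1 1 1 = true :=
  ⟨(l 4), by decide +kernel⟩

theorem c_pp_133 : CertB 536870912 536870912 0 1230186008 649613803 48318383 3 eng mog cd0q1 cd6q3 pd3 true true true .dn 1 3 3
    ndB0q1 ndB6q3 pcB3 Cut.none Ext.none :=
  certB0 (fam := true) (s1 := true) (s2 := true) (a := 1) (b := 3) (c := 3) (cn := .dn) (n1 := ndB0q1) (n2 := ndB6q3) (pc := pcB3) (cut := Cut.none) (xt := Ext.none) (P1 := 536870912) (W1 := 536870912) (P2 := 0) (W2 := 1230186008) (P3 := 649613803) (W3 := 48318383) (N0 := 3) (En := eng) (mo := mog) (C1 := cd0q1) (C2 := cd6q3) (C3 := pd3)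
    rfl k0_pp_133

noncomputable def f_pp_202 : ℕ → ℕ → ℕ → ℕ → Bool := onCell 0 536870912 0 536870912 649613803 48318383
    (rowB 3 eng mog cd0q2 cd6q0 pd2 0 true true true .pp 2 0 2 (qsf 0 536870912 0 536870912 2) ndB0q2 ndB6q0 pcB2 Cut.none Ext.none)

def k0_pp_202 : ∃ t, chk3 f_pp_202 t 1 1 1 = true :=
  ⟨(l 5), by decide +kernel⟩

theorem c_pp_202 : CertB 0 536870912 0 536870912 649613803 48318383 3 eng mog cd0q2 cd6q0 pd2 true true true .pp 2 0 2
    ndB0q2 ndB6q0 pcB2 Cut.none Ext.none :=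
  certB0 (fam := true) (s1 := true) (s2 := true) (a := 2) (b := 0) (c := 2) (cn := .pp) (n1 := ndB0q2) (n2 := ndB6q0) (pc := pcB2) (cut := Cut.none) (xt := Ext.none) (P1 := 0) (W1 := 536870912) (P2 := 0) (W2 := 536870912) (P3 := 649613803) (W3 := 48318383) (N0 := 3) (En := eng) (mo := mog) (C1 := cd0q2) (C2 := cd6q0) (C3 := pd2)
    rfl k0_pp_202

noncomputable def f_pp_203 : ℕ → ℕ → ℕ → ℕ → Bool := onCell 0 536870912 0 536870912 649613803 48318383
    (rowB 3 eng mog cd0q2 cd6q0 pd3 0 true true true .up 2 0 3 (qsf 0 536870912 0 536870912 3) ndB0q2 ndB6q0 pcB3 Cut.none Ext.none)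

def k0_pp_203 : ∃ t, chk3 f_pp_203 t 1 1 1 = true :=
  ⟨(l 5), by decide +kernel⟩

theorem c_pp_203 : CertB 0 536870912 0 536870912 649613803 48318383 3 eng mog cd0q2 cd6q0 pd3 true true true .up 2 0 3
    ndB0q2 ndB6q0 pcB3 Cut.none Ext.none :=
  certB0 (fam := true) (s1 := true) (s2 := true) (a := 2) (b := 0) (c := 3) (cn := .up) (n1 := ndB0q2) (n2 := ndB6q0) (pc := pcB3) (cut := Cut.none) (xt := Ext.none) (P1 := 0) (W1 := 536870912) (P2 := 0) (W2 := 536870912) (P3 := 649613803) (W3 := 48318383) (N0 := 3) (En := eng) (mo := mog) (C1 := cd0q2) (C2 := cd6q0) (C3 := pd3)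
    rfl k0_pp_203

noncomputable def f_pp_213 : ℕ → ℕ → ℕ → ℕ → Bool := onCell 0 536870912 536870912 536870912 649613803 48318383
    (rowB 3 eng mog cd0q2 cd6q1 pd3 0 true true true .pnn 2 1 3 (qsf 0 536870912 536870912 536870912 3) ndB0q2 ndB6q1 pcB3 Cut.none Ext.none)

def k0_pp_213 : ∃ t, chk3 f_pp_213 t 1 1 1 = true :=
  ⟨(l 4), by decide +kernel⟩

theorem c_pp_213 : CertB 0 536870912 536870912 536870912 649613803 48318383 3 eng mog cd0q2 cd6q1 pd3 true true true .pnn 2 1 3
    ndB0q2 ndB6q1 pcB3 Cut.none Ext.none :=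
  certB0 (fam := true) (s1 := true) (s2 := true) (a := 2) (b := 1) (c := 3) (cn := .pnn) (n1 := ndB0q2) (n2 := ndB6q1) (pc := pcB3) (cut := Cut.none) (xt := Ext.none) (P1 := 0) (W1 := 536870912) (P2 := 536870912) (W2 := 536870912) (P3 := 649613803) (W3 := 48318383) (N0 := 3) (En := eng) (mo := mog) (C1 := cd0q2) (C2 := cd6q1) (C3 := pd3)
    rfl k0_pp_213

noncomputable def xt_pm_001 : Ext := extD2 3 ⟨7, 3, 3, 10, 377, 200, 77, 100, 17, 50, 3, 16⟩ eng cd0q0 cd6q0 pd1 true true false .up 0 0 1 rfl ndB0q0 ndB6q0 pcB1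

noncomputable def f_pm_001 : ℕ → ℕ → ℕ → ℕ → Bool := onCell 0 536870912 536870912 536870912 649613803 48318383
    (rowB 3 eng mog cd0q0 cd6q0 pd1 1 true true false .up 0 0 1 (qsf 0 536870912 0 536870912 1) ndB0q0 ndB6q0 pcB1 Cut.none xt_pm_001)

def k0_pm_001 : ∃ t, chk3 f_pm_001 t 1 1 1 = true :=
  ⟨(b (l 3) (b (l 3) (a (l 2) (a (b (b (l 3) (l 2)) (l 2)) (b (a (b (l 3) (a (b (b (l 3) (l 2)) (l 2)) (b (b (a (l 3) (c (l 112910113527) (l 125795041879))) (a (b (a (l 3) (l 79087253335)) (a (l 2) (l 16475480))) (a (b (l 51706829591) (l 16471552)) (l 14662733239)))) (a (a (l 2) (b (l 57008400503) (l 2))) (c (b (l 16460976) (l 16442224)) (l 16440752)))))) (b (b (l 3) (b (l 3) (a (l 3) (a (l 2652979367305326719761228335) (l 950813580428727591909040687))))) (b (a (c (b (a (b (l 3) (l 47411882183)) (l 142098305235484719)) (a (l 16477760) (l 16479184))) (a (b (l 84455975703) (l 16464224)) (b (l 34526983415) (l 16463136)))) (a (c (l 593972330497869218423343) (l 592979376897312665051695)) (c (l 595397341620362381369903)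 (l 594487686341296662487599)))) (a (a (c (b (l 16455824) (l 16434944)) (l 16433232)) (b (l 16468496) (l 16424840))) (a (b (l 16449664) (l 16424432)) (c (l 16452744) (l 16432384))))))) (a (b (a (l 2) (b (a (l 2) (c (l 16436760) (l 16406032))) (l 2))) (l 2)) (b (a (b (a (c (l 16405496) (l 16395024)) (l 16413680)) (a (l 16365024) (l 16353592))) (b (a (l 16388592) (l 16388712)) (a (l 16344824) (l 16339512)))) (a (b (l 33922778887) (l 2)) (a (l 16287896) (l 16275992)))))))))), by decide +kernel⟩

theorem c_pm_001 : CertB 0 536870912 0 536870912 649613803 48318383 3 eng mog cd0q0 cd6q0 pd1 true true false .up 0 0 1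
    ndB0q0 ndB6q0 pcB1 Cut.none xt_pm_001 :=
  certB1 (fam := true) (s1 := true) (s2 := false) (a := 0) (b := 0) (c := 1) (cn := .up) (n1 := ndB0q0) (n2 := ndB6q0) (pc := pcB1) (cut := Cut.none) (xt := xt_pm_001) (P1 := 0) (W1 := 536870912) (P2 := 0) (W2 := 536870912) (P3 := 649613803) (W3 := 48318383) (N0 := 3) (En := eng) (mo := mog) (C1 := cd0q0) (C2 := cd6q0) (C3 := pd1)
    rfl (fun _ => rfl) k0_pm_001

noncomputable def cut_pm_011 : Cut := Cut.of [[⟨0, 0, 0, 67108864⟩, ⟨1, 1, 0, 67108864⟩, ⟨2, 1, 0, 67108864⟩]]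

noncomputable def f_pm_011 : ℕ → ℕ → ℕ → ℕ → Bool := onCell 0 536870912 536870912 536870912 649613803 48318383
    (rowB 3 eng mog cd0q0 cd6q1 pd1 1 true true false .pnn 0 1 1 (qsf 0 536870912 536870912 536870912 1) ndB0q0 ndB6q1 pcB1 cut_pm_011 Ext.none)

def k0_pm_011 : ∃ t, chk3 f_pm_011 t 1 2 1 = true :=
  ⟨(l 3), by decide +kernel⟩

def k1_pm_011 : ∃ t, chk3 f_pm_011 t 1 6 1 = true :=
  ⟨(l 3), by decide +kernel⟩

def k2_pm_011 : ∃ t, chk3 f_pm_011 t 1 14 1 = true :=
  ⟨(a (l 3) (a (a (l 3) (b (l 3) (b (l 3) (b (a (l 3) (a (l 39895704935) (l 45801290359))) (a (a (l 69423637383) (a (l 16515816) (l 16505512))) (a (l 16511648) (l 16472216))))))) (a (b (l 3) (b (a (a (l 3) (b (l 3) (l 42580014791))) (a (b (l 3) (c (l 32782087143) (l 16459256))) (b (l 1) (l 146061828039)))) (a (a (b (l 16503696) (l 16455352)) (c (l 16492800) (l 16446272))) (a (c (b (l 16447072) (l 16429464)) (l 16433032)) (c (l 39761353367) (l 16421600)))))) (a (a (b (l 1) (b (l 1) (l 161631004711))) (l 1)) (l 1))))),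 by decide +kernel⟩

def k3_pm_011 : ∃ t, chk3 f_pm_011 t 4 15 1 = true :=
  ⟨(b (l 3) (a (b (l 3) (a (l 6) (b (a (b (l 3) (l 6)) (b (a (l 3) (a (l 3) (b (l 3) (a (l 91972617463) (l 82845807767))))) (a (a (b (b (l 3) (l 6)) (l 6)) (b (c (l 61370983719) (b (l 87140787447) (l 74255881623))) (l 16738752))) (b (a (c (l 16739424) (b (l 84456423975) (l 16730888))) (l 16732584)) (c (l 16727952) (l 16736144)))))) (a (l 6) (b (a (a (l 6) (l 16732744)) (c (l 16732392) (l 16730160))) (a (l 6) (l 16723296))))))) (b (a (a (l 3) (b (l 3) (b (l 3) (b (a (l 3) (a (l 122037352951) (l 16720776))) (a (a (l 101099396823) (l 16720008)) (l 16718792)))))) (b (a (l 3) (b (l 3) (a (l 3) (l 130090385463)))) (a (b (a (b (l 3) (l 109689317943)) (b (l 185388107447) (l 16709904))) (a (b (l 16714328) (l 16699800)) (l 16693344))) (b (a (l 84456358871) (l 16684520)) (l 16693800))))) (a (b (a (b (a (a (b (l 3) (c (l 16729536) (l 80698318519))) (b (c (l 109152481175) (l 121500506615)) (l 73718989559))) (a (b (a (l 86067019159)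 (l 84993272903)) (l 16719592)) (b (l 76403335207) (l 16715272)))) (a (a (a (l 16723360) (l 16721176)) (l 16717912)) (b (l 16713416) (l 16709400)))) (a (b (a (l 16718216) (l 16708688)) (l 16702792)) (b (l 16712760) (l 16694240)))) (a (b (a (l 16722544) (l 16703376)) (a (l 16704024) (l 16695344))) (b (l 16700952) (l 16703400)))) (b (a (b (a (l 16693768) (l 16685304)) (l 16702464)) (a (l 16672856) (l 16664448))) (a (b (l 16673464) (l 16665432)) (l 16663096))))))), by decide +kernel⟩

def k4_pm_011 : ∃ t, chk3 f_pm_011 t 5 15 1 = true :=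
  ⟨(b (a (b (l 3) (a (l 3) (b (l 3) (a (b (l 3) (l 89288145367)) (b (l 94119965927) (l 16641776)))))) (b (a (l 3) (a (l 3) (b (l 3) (l 124721527671)))) (a (b (a (b (l 3) (l 97341173127)) (b (l 102172990935) (l 16642784))) (a (b (l 16652816) (l 16623888)) (l 16630776))) (a (b (b (l 16632384) (l 16603280)) (l 16591400)) (b (l 16588144) (l 16572400)))))) (a (b (a (a (b (b (a (l 3) (l 16705128)) (a (l 16684256) (l 16675728))) (a (l 16672080) (l 16663664))) (a (b (a (l 73718903623) (l 16689760)) (l 16655232)) (b (l 16661816) (l 16646480)))) (b (a (b (l 16651936) (l 16644232)) (l 16630048)) (a (l 16632776) (l 16614648)))) (a (b (a (l 16662344) (a (l 16639296) (l 16630904))) (a (l 16635888) (l 16619248))) (a (a (l 16619632) (l 16605544)) (l 16591952)))) (a (b (b (a (l 16612144) (l 16594120)) (a (l 16596704) (l 16578704))) (a (l 16573968) (l 16556024))) (b (a (b (l 16575784) (l 16560440)) (l 16533544)) (a (l 16537904) (l 16519408)))))), by decide +kernel⟩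

def k5_pm_011 : ∃ t, chk3 f_pm_011 t 3 15 1 = true :=
  ⟨(a (a (b (a (b (a (b (l 3) (l 86603632375)) (b (l 21105365895) (l 16563088))) (a (b (l 16568168) (l 16552600)) (l 16529208))) (b (b (a (l 16558120) (l 92509086375)) (a (l 16541856) (l 16520584))) (a (l 16518576) (l 16497304)))) (a (b (a (l 16529760) (l 16509536)) (l 16511608)) (a (l 16517392) (l 16509120)))) (b (b (a (a (c (l 16549928) (l 16548304)) (l 16528360)) (c (l 16520888) (l 16518928))) (a (l 16528600) (l 16467560))) (b (a (l 16439160) (l 16397360)) (a (l 16436472) (l 16375464))))) (a (b (b (a (a (l 16430632) (l 16414992)) (a (l 16422376) (c (l 16391832) (l 16386992)))) (a (l 16453168) (a (l 16367944) (l 16355224)))) (a (a (l 16405848) (l 16403632)) (b (l 16391488) (l 16297560)))) (b (a (b (a (l 55867419543) (l 112775712407)) (a (l 16342904) (l 16351416))) (b (l 1) (a (l 99890721095) (l 1)))) (a (b (l 16364992) (l 16311448)) (b (l 63920329527) (l 16261784)))))), by decide +kernel⟩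

theorem s6_pm_011 : ∃ t, chk3 f_pm_011 t 2 15 1 = true := ex3_a k3_pm_011 k4_pm_011

theorem s7_pm_011 : ∃ t, chk3 f_pm_011 t 1 15 1 = true := ex3_a s6_pm_011 k5_pm_011

theorem s8_pm_011 : ∃ t, chk3 f_pm_011 t 1 7 1 = true := ex3_b k2_pm_011 s7_pm_011

theorem s9_pm_011 : ∃ t, chk3 f_pm_011 t 1 3 1 = true := ex3_b k1_pm_011 s8_pm_011

theorem s10_pm_011 : ∃ t, chk3 f_pm_011 t 1 1 1 = true := ex3_b k0_pm_011 s9_pm_011

theorem c_pm_011 : CertB 0 536870912 536870912 536870912 649613803 48318383 3 eng mog cd0q0 cd6q1 pd1 true true false .pnn 0 1 1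
    ndB0q0 ndB6q1 pcB1 cut_pm_011 Ext.none :=
  certB1 (fam := true) (s1 := true) (s2 := false) (a := 0) (b := 1) (c := 1) (cn := .pnn) (n1 := ndB0q0) (n2 := ndB6q1) (pc := pcB1) (cut := cut_pm_011) (xt := Ext.none) (P1 := 0) (W1 := 536870912) (P2 := 536870912) (W2 := 536870912) (P3 := 649613803) (W3 := 48318383) (N0 := 3) (En := eng) (mo := mog) (C1 := cd0q0) (C2 := cd6q1) (C3 := pd1)
    rfl (fun _ => rfl) s10_pm_011

end Pool.Agent.Strip051.G.I6050_6500.Tab.C.BA06

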